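import Pool.Agent.Strip051.G.I5470_6050.Gn
import Pool.Agent.Strip051.PB.Corns
import Pool.Agent.Strip051.PB.CornW

/-! # Certificates of the aligned corners (generated) -/

set_option linter.all false

namespace Pool.Agent.Strip051.G.I5470_6050.Tab.CG

open Pool.Agent.Strip051.PB

def A011E_000 :
    ∃ t, chk3 (onCell 0 67108864 0 1073741824 587336777 62277027 (corT true 1 c0B cA011E gB0q0 gB0q1 gB0q1 gB1q1 true false)) t 1 1 1 = true :=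
  ⟨(T.l 1), by decide +kernel⟩

def A011L_004 :
    ∃ t, chk3 (onCell 0 67108864 0 1073741824 587336777 62277027 (corT true 1 c0B cA011L gB0q0 gB0q1 gB4q1 gB5q1 false true)) t 1 1 1 = true :=
  ⟨(T.l 2), by decide +kernel⟩

def A011L_005 :
    ∃ t, chk3 (onCell 0 67108864 0 1073741824 587336777 62277027 (corT true 1 c0B cA011L gB0q0 gB0q1 gB5q1 gB6q1 true true)) t 1 1 1 = true :=
  ⟨(T.l 2), by decide +kernel⟩

def A011L_006 :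
    ∃ t, chk3 (onCell 0 67108864 0 1073741824 587336777 62277027 (corT true 1 c0B cA011L gB0q0 gB0q1 gB6q1 gB7q1 true true)) t 1 1 1 = true :=
  ⟨(T.l 2), by decide +kernel⟩

def A011R_050 :
    ∃ t, chk3 (onCell 0 67108864 0 1073741824 587336777 62277027 (corT true 1 c0B cA011R gB0q0 gB5q1 gB0q1 gB1q1 true false)) t 1 1 1 = true :=
  ⟨(T.b (T.b (T.b (T.b (T.a (T.l 204) (T.l 204)) (T.a (T.l 204) (T.a (T.l 204) (T.b (T.l 204) (T.l 204))))) (T.l 1)) (T.l 1)) (T.l 1)), by decide +kernel⟩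

def A011R_060 :
    ∃ t, chk3 (onCell 0 67108864 0 1073741824 587336777 62277027 (corT true 1 c0B cA011R gB0q0 gB6q1 gB0q1 gB1q1 true false)) t 1 1 1 = true :=
  ⟨(T.b (T.b (T.b (T.a (T.l 204) (T.l 204)) (T.b (T.a (T.l 204) (T.l 204)) (T.b (T.a (T.l 204) (T.l 204)) (T.b (T.a (T.a (T.c (T.l 204) (T.l 204)) (T.l 204)) (T.l 204)) (T.a (T.l 1) (T.c (T.a (T.b (T.l 204) (T.l 1)) (T.l 220)) (T.l 204))))))) (T.l 1)) (T.l 1)), by decide +kernel⟩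

def A011R_070 :
    ∃ t, chk3 (onCell 0 67108864 0 1073741824 587336777 62277027 (corX 1 c0B cA011R tA011R gB0q0 gB7q1 gB0q1 gB1q1 gB0q1 true false)) t 1 1 1 = true :=
  ⟨(T.b (T.b (T.b (T.a (T.l 3) (T.l 0)) (T.a (T.l 3) (T.l 3))) (T.b (T.a (T.l 3) (T.l 3)) (T.l 1))) (T.l 1)), by decide +kernel⟩

def A011R_150 :
    ∃ t, chk3 (onCell 0 67108864 0 1073741824 587336777 62277027 (corT true 1 c0B cA011R gB1q0 gB5q1 gB0q1 gB1q1 true false)) t 1 1 1 = true :=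
  ⟨(T.b (T.b (T.b (T.l 204) (T.l 1)) (T.l 1)) (T.l 1)), by decide +kernel⟩

def A011R_160 :
    ∃ t, chk3 (onCell 0 67108864 0 1073741824 587336777 62277027 (corT true 1 c0B cA011R gB1q0 gB6q1 gB0q1 gB1q1 true false)) t 1 1 1 = true :=
  ⟨(T.b (T.b (T.b (T.l 0) (T.l 0)) (T.l 1)) (T.l 1)), by decide +kernel⟩

def A011R_170 :
    ∃ t, chk3 (onCell 0 67108864 0 1073741824 587336777 62277027 (corT true 1 c0B cA011R gB1q0 gB7q1 gB0q1 gB1q1 true false)) t 1 1 1 = true :=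
  ⟨(T.b (T.b (T.b (T.l 0) (T.a (T.l 0) (T.l 0))) (T.b (T.b (T.l 0) (T.l 1)) (T.l 1))) (T.l 1)), by decide +kernel⟩

def A011R_250 :
    ∃ t, chk3 (onCell 0 67108864 0 1073741824 587336777 62277027 (corT true 1 c0B cA011R gB2q0 gB5q1 gB0q1 gB1q1 true false)) t 1 1 1 = true :=
  ⟨(T.l 1), by decide +kernel⟩

def A011R_260 :
    ∃ t, chk3 (onCell 0 67108864 0 1073741824 587336777 62277027 (corT true 1 c0B cA011R gB2q0 gB6q1 gB0q1 gB1q1 true false)) t 1 1 1 = true :=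
  ⟨(T.b (T.b (T.b (T.l 0) (T.l 1)) (T.l 1)) (T.l 1)), by decide +kernel⟩

def A011R_270 :
    ∃ t, chk3 (onCell 0 67108864 0 1073741824 587336777 62277027 (corT true 1 c0B cA011R gB2q0 gB7q1 gB0q1 gB1q1 true false)) t 1 1 1 = true :=
  ⟨(T.b (T.b (T.b (T.l 816) (T.l 816)) (T.l 1)) (T.l 1)), by decide +kernel⟩

def A011R_350 :
    ∃ t, chk3 (onCell 0 67108864 0 1073741824 587336777 62277027 (corT true 1 c0B cA011R gB3q0 gB5q1 gB0q1 gB1q1 true false)) t 1 1 1 = true :=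
  ⟨(T.l 1), by decide +kernel⟩

def A011R_360 :
    ∃ t, chk3 (onCell 0 67108864 0 1073741824 587336777 62277027 (corT true 1 c0B cA011R gB3q0 gB6q1 gB0q1 gB1q1 true false)) t 1 1 1 = true :=
  ⟨(T.l 1), by decide +kernel⟩

def A011R_370 :
    ∃ t, chk3 (onCell 0 67108864 0 1073741824 587336777 62277027 (corT true 1 c0B cA011R gB3q0 gB7q1 gB0q1 gB1q1 true false)) t 1 1 1 = true :=
  ⟨(T.b (T.l 1) (T.l 1)), by decide +kernel⟩

def A011R_450 :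
    ∃ t, chk3 (onCell 0 67108864 0 1073741824 587336777 62277027 (corT true 1 c0B cA011R gB4q0 gB5q1 gB0q1 gB1q1 true false)) t 1 1 1 = true :=
  ⟨(T.l 1), by decide +kernel⟩

def A011R_460 :
    ∃ t, chk3 (onCell 0 67108864 0 1073741824 587336777 62277027 (corT true 1 c0B cA011R gB4q0 gB6q1 gB0q1 gB1q1 true false)) t 1 1 1 = true :=
  ⟨(T.l 1), by decide +kernel⟩

def A011R_470 :
    ∃ t, chk3 (onCell 0 67108864 0 1073741824 587336777 62277027 (corT true 1 c0B cA011R gB4q0 gB7q1 gB0q1 gB1q1 true false)) t 1 1 1 = true :=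
  ⟨(T.l 1), by decide +kernel⟩

def A012E_000 :
    ∃ t, chk3 (onCell 0 67108864 0 1073741824 587336777 62277027 (corX 1 c0B cA012E tA012E gB0q0 gB0q1 gB0q2 gB1q2 gB0q2 true true)) t 1 1 1 = true :=
  ⟨(T.b (T.b (T.l 1) (T.b (T.l 1) (T.b (T.l 1) (T.b (T.l 1) (T.b (T.a (T.l 1) (T.b (T.a (T.l 1) (T.a (T.l 1) (T.c (T.l 3) (T.c (T.l 3) (T.l 207))))) (T.a (T.a (T.l 1) (T.l 207)) (T.a (T.c (T.l 207) (T.l 207)) (T.a (T.l 19) (T.c (T.l 3) (T.l 3))))))) (T.a (T.a (T.b (T.l 1) (T.a (T.b (T.l 1) (T.a (T.a (T.c (T.l 3) (T.l 3)) (T.l 207)) (T.c (T.c (T.l 207) (T.l 207)) (T.c (T.l 207) (T.l 207))))) (T.a (T.c (T.c (T.l 207) (T.l 207)) (T.l 207)) (T.a (T.l 463) (T.l 207))))) (T.a (T.a (T.c (T.l 463) (T.l 207)) (T.c (T.l 207) (T.l 207))) (T.a (T.l 207) (T.l 207)))) (T.a (T.a (T.l 207) (T.l 207)) (T.a (T.a (T.l 207) (T.c (T.l 207) (T.l 207))) (T.a (T.c (T.l 3) (T.c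 (T.l 207) (T.l 207))) (T.b (T.c (T.l 3) (T.c (T.l 3) (T.l 3))) (T.a (T.c (T.l 3) (T.l 3)) (T.a (T.c (T.l 3) (T.l 3)) (T.b (T.l 3) (T.b (T.l 7) (T.l 2))))))))))))))) (T.b (T.b (T.b (T.b (T.a (T.a (T.a (T.a (T.a (T.a (T.l 3) (T.l 207)) (T.c (T.l 207) (T.l 207))) (T.a (T.c (T.l 207) (T.l 207)) (T.a (T.l 207) (T.l 463)))) (T.b (T.a (T.c (T.a (T.l 207) (T.l 207)) (T.c (T.l 207) (T.l 207))) (T.a (T.c (T.l 207) (T.l 207)) (T.l 207))) (T.b (T.b (T.a (T.c (T.c (T.l 207) (T.l 207)) (T.l 207)) (T.c (T.l 207) (T.l 207))) (T.l 2)) (T.l 2)))) (T.b (T.a (T.a (T.c (T.l 207) (T.l 207)) (T.c (T.l 207) (T.l 207))) (T.c (T.l 207) (T.l 207))) (T.l 2))) (T.b (T.a (T.a (T.l 207) (T.c (T.l 207) (T.l 207))) (T.b (T.b (T.a (T.c (T.l 207) (T.l 207)) (T.a (T.c (T.l 3) (T.l 207)) (T.l 2))) (T.l 2)) (T.l 2))) (T.l 2))) (T.l 2)) (T.l 2)) (T.l 2)) (T.l 2))), by decide +kernel⟩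

def A012E_001_1_2_1 :
    ∃ t, chk3 (onCell 0 67108864 0 1073741824 587336777 62277027 (corT true 1 c0B cA012E gB0q0 gB0q1 gB1q2 gB2q2 true true)) t 1 2 1 = true :=
  ⟨(T.b (T.l 1) (T.b (T.l 1) (T.a (T.l 1) (T.b (T.l 1) (T.a (T.l 1) (T.b (T.l 1) (T.a (T.l 1) (T.b (T.l 1) (T.b (T.l 1) (T.b (T.l 1) (T.a (T.b (T.l 1) (T.c (T.c (T.l 0) (T.l 0)) (T.c (T.c (T.l 204) (T.l 220)) (T.b (T.a (T.l 1) (T.c (T.l 204) (T.l 220))) (T.l 204))))) (T.a (T.b (T.l 1) (T.c (T.l 0) (T.c (T.l 0) (T.l 204)))) (T.c (T.b (T.b (T.l 1) (T.c (T.l 816) (T.l 816))) (T.c (T.l 816) (T.l 0))) (T.b (T.b (T.l 1) (T.c (T.l 0) (T.c (T.l 0) (T.c (T.l 0) (T.a (T.b (T.l 1) (T.l 204)) (T.l 0)))))) (T.c (T.l 0) (T.a (T.l 0) (T.l 0))))))))))))))))), by decide +kernel⟩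

def A012E_001_4_96_1 :
    ∃ t, chk3 (onCell 0 67108864 0 1073741824 587336777 62277027 (corT true 1 c0B cA012E gB0q0 gB0q1 gB1q2 gB2q2 true true)) t 4 96 1 = true :=
  ⟨(T.a (T.l 1) (T.a (T.l 1) (T.b (T.l 1) (T.b (T.l 1) (T.a (T.l 1) (T.b (T.l 1) (T.b (T.l 1) (T.c (T.l 204) (T.l 204))))))))), by decide +kernel⟩

def A012E_001_8_97_1 :
    ∃ t, chk3 (onCell 0 67108864 0 1073741824 587336777 62277027 (corT true 1 c0B cA012E gB0q0 gB0q1 gB1q2 gB2q2 true true)) t 8 97 1 = true :=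
  ⟨(T.c (T.b (T.b (T.b (T.l 1) (T.a (T.a (T.l 1) (T.b (T.l 1) (T.a (T.l 1) (T.b (T.l 1) (T.l 204))))) (T.c (T.a (T.b (T.l 1) (T.l 204)) (T.a (T.c (T.l 204) (T.l 204)) (T.l 204))) (T.a (T.b (T.l 1) (T.c (T.l 204) (T.l 204))) (T.a (T.c (T.l 204) (T.l 204)) (T.l 204)))))) (T.a (T.c (T.b (T.a (T.a (T.b (T.a (T.l 1) (T.l 204)) (T.l 0)) (T.l 0)) (T.l 204)) (T.l 0)) (T.b (T.a (T.b (T.b (T.l 1) (T.l 0)) (T.l 0)) (T.l 204)) (T.l 0))) (T.c (T.l 204) (T.l 204)))) (T.a (T.a (T.c (T.c (T.l 816) (T.l 816)) (T.l 816)) (T.l 0)) (T.l 0))) (T.b (T.b (T.b (T.l 1) (T.a (T.a (T.l 1) (T.b (T.l 1) (T.a (T.l 1) (T.b (T.l 1) (T.l 204))))) (T.c (T.a (T.b (T.l 1) (T.c (T.l 204) (T.l 204))) (T.a (T.c (T.l 204) (T.l 204)) (T.l 204))) (T.a (T.b (T.l 1) (T.c (T.l 204) (T.l 204))) (T.a (T.c (T.l 204) (T.l 204)) (T.l 204)))))) (T.a (T.c (T.b (T.a (T.b (T.b (T.l 1) (T.c (T.l 0) (T.c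 (T.l 0) (T.l 0)))) (T.l 0)) (T.l 204)) (T.l 0)) (T.b (T.a (T.b (T.b (T.l 1) (T.a (T.a (T.l 1) (T.l 204)) (T.l 204))) (T.l 0)) (T.c (T.l 204) (T.l 204))) (T.l 0))) (T.c (T.l 204) (T.l 204)))) (T.a (T.c (T.c (T.l 0) (T.l 0)) (T.l 0)) (T.l 0)))), by decide +kernel⟩

def A012E_001_9_97_1 :
    ∃ t, chk3 (onCell 0 67108864 0 1073741824 587336777 62277027 (corT true 1 c0B cA012E gB0q0 gB0q1 gB1q2 gB2q2 true true)) t 9 97 1 = true :=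
  ⟨(T.b (T.c (T.a (T.b (T.c (T.b (T.a (T.b (T.l 1) (T.b (T.l 1) (T.l 204))) (T.a (T.b (T.l 1) (T.l 204)) (T.l 204))) (T.c (T.l 204) (T.l 204))) (T.b (T.a (T.b (T.l 1) (T.b (T.l 1) (T.l 204))) (T.a (T.c (T.l 460) (T.l 204)) (T.l 204))) (T.l 204))) (T.l 204)) (T.b (T.a (T.c (T.l 204) (T.l 204)) (T.l 204)) (T.l 204))) (T.a (T.b (T.c (T.b (T.a (T.b (T.l 1) (T.b (T.l 1) (T.l 204))) (T.c (T.l 460) (T.l 204))) (T.l 204)) (T.b (T.a (T.b (T.l 1) (T.c (T.l 204) (T.l 204))) (T.c (T.l 204) (T.l 204))) (T.l 204))) (T.l 204)) (T.b (T.c (T.l 204) (T.l 204)) (T.l 204)))) (T.c (T.l 0) (T.l 0))), by decide +kernel⟩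

def A012E_001_4_49_1 :
    ∃ t, chk3 (onCell 0 67108864 0 1073741824 587336777 62277027 (corT true 1 c0B cA012E gB0q0 gB0q1 gB1q2 gB2q2 true true)) t 4 49 1 = true :=
  ⟨(T.a (T.c (T.b (T.a (T.c (T.b (T.l 816) (T.l 816)) (T.l 816)) (T.l 0)) (T.c (T.a (T.l 816) (T.l 816)) (T.l 816))) (T.b (T.c (T.a (T.l 816) (T.l 0)) (T.l 0)) (T.l 816))) (T.c (T.b (T.l 0) (T.l 0)) (T.b (T.l 0) (T.l 0)))), by decide +kernel⟩

def A012E_001_5_24_1 :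
    ∃ t, chk3 (onCell 0 67108864 0 1073741824 587336777 62277027 (corT true 1 c0B cA012E gB0q0 gB0q1 gB1q2 gB2q2 true true)) t 5 24 1 = true :=
  ⟨(T.b (T.b (T.b (T.l 1) (T.a (T.b (T.l 1) (T.c (T.a (T.c (T.a (T.b (T.l 1) (T.l 204)) (T.l 204)) (T.a (T.b (T.l 1) (T.l 204)) (T.l 204))) (T.l 460)) (T.a (T.a (T.b (T.l 1) (T.l 204)) (T.l 204)) (T.l 204)))) (T.c (T.a (T.c (T.l 204) (T.l 204)) (T.l 204)) (T.c (T.a (T.l 204) (T.l 204)) (T.l 460))))) (T.a (T.c (T.b (T.c (T.a (T.l 204) (T.l 204)) (T.l 204)) (T.l 204)) (T.b (T.c (T.l 204) (T.l 204)) (T.l 204))) (T.c (T.c (T.l 204) (T.l 204)) (T.l 204)))) (T.c (T.a (T.l 256) (T.l 0)) (T.a (T.l 0) (T.l 0)))), by decide +kernel⟩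

def A012E_001_2_25_1 :
    ∃ t, chk3 (onCell 0 67108864 0 1073741824 587336777 62277027 (corT true 1 c0B cA012E gB0q0 gB0q1 gB1q2 gB2q2 true true)) t 2 25 1 = true :=
  ⟨(T.b (T.b (T.a (T.c (T.a (T.c (T.l 816) (T.l 816)) (T.l 816)) (T.a (T.l 816) (T.l 816))) (T.c (T.l 0) (T.l 0))) (T.l 2)) (T.l 2)), by decide +kernel⟩

def A012E_001_3_12_1 :
    ∃ t, chk3 (onCell 0 67108864 0 1073741824 587336777 62277027 (corT true 1 c0B cA012E gB0q0 gB0q1 gB1q2 gB2q2 true true)) t 3 12 1 = true :=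
  ⟨(T.b (T.a (T.b (T.b (T.a (T.b (T.b (T.l 1) (T.c (T.l 204) (T.l 204))) (T.c (T.l 204) (T.l 204))) (T.b (T.c (T.b (T.b (T.l 1) (T.l 204)) (T.l 204)) (T.b (T.b (T.l 1) (T.l 204)) (T.l 204))) (T.l 204))) (T.a (T.c (T.l 204) (T.l 204)) (T.l 204))) (T.c (T.a (T.l 0) (T.l 0)) (T.a (T.l 0) (T.l 204)))) (T.a (T.b (T.b (T.b (T.c (T.a (T.c (T.l 204) (T.l 204)) (T.l 204)) (T.b (T.b (T.a (T.c (T.l 204) (T.l 204)) (T.l 204)) (T.l 204)) (T.l 204))) (T.l 0)) (T.l 0)) (T.c (T.l 0) (T.l 0))) (T.b (T.a (T.b (T.b (T.c (T.l 0) (T.c (T.l 204) (T.l 204))) (T.l 0)) (T.l 0)) (T.b (T.b (T.a (T.c (T.l 0) (T.l 0)) (T.b (T.c (T.l 0) (T.a (T.l 0) (T.l 0))) (T.c (T.l 0) (T.l 0)))) (T.a (T.l 0) (T.l 16))) (T.a (T.c (T.l 0) (T.l 0)) (T.c (T.l 0) (T.l 0))))) (T.b (T.a (T.a (T.l 0) (T.c (T.l 0) (T.l 0))) (T.a (T.c (T.l 0) (T.l 0)) (T.c (T.l 0) (T.l 0)))) (T.b (T.a (T.a (T.l 0) (T.l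 0)) (T.a (T.l 0) (T.c (T.l 0) (T.l 204)))) (T.l 2)))))) (T.l 2)), by decide +kernel⟩

def A012E_001_1_13_1 :
    ∃ t, chk3 (onCell 0 67108864 0 1073741824 587336777 62277027 (corT true 1 c0B cA012E gB0q0 gB0q1 gB1q2 gB2q2 true true)) t 1 13 1 = true :=
  ⟨(T.l 2), by decide +kernel⟩

def A012E_001_1_7_1 :
    ∃ t, chk3 (onCell 0 67108864 0 1073741824 587336777 62277027 (corT true 1 c0B cA012E gB0q0 gB0q1 gB1q2 gB2q2 true true)) t 1 7 1 = true :=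
  ⟨(T.l 2), by decide +kernel⟩

theorem A012E_001_4_97_1 :
    ∃ t, chk3 (onCell 0 67108864 0 1073741824 587336777 62277027 (corT true 1 c0B cA012E gB0q0 gB0q1 gB1q2 gB2q2 true true)) t 4 97 1 = true :=
  ex3_a A012E_001_8_97_1 A012E_001_9_97_1
theorem A012E_001_4_48_1 :
    ∃ t, chk3 (onCell 0 67108864 0 1073741824 587336777 62277027 (corT true 1 c0B cA012E gB0q0 gB0q1 gB1q2 gB2q2 true true)) t 4 48 1 = true :=
  ex3_b A012E_001_4_96_1 A012E_001_4_97_1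
theorem A012E_001_4_24_1 :
    ∃ t, chk3 (onCell 0 67108864 0 1073741824 587336777 62277027 (corT true 1 c0B cA012E gB0q0 gB0q1 gB1q2 gB2q2 true true)) t 4 24 1 = true :=
  ex3_b A012E_001_4_48_1 A012E_001_4_49_1
theorem A012E_001_2_24_1 :
    ∃ t, chk3 (onCell 0 67108864 0 1073741824 587336777 62277027 (corT true 1 c0B cA012E gB0q0 gB0q1 gB1q2 gB2q2 true true)) t 2 24 1 = true :=
  ex3_a A012E_001_4_24_1 A012E_001_5_24_1
theorem A012E_001_2_12_1 :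
    ∃ t, chk3 (onCell 0 67108864 0 1073741824 587336777 62277027 (corT true 1 c0B cA012E gB0q0 gB0q1 gB1q2 gB2q2 true true)) t 2 12 1 = true :=
  ex3_b A012E_001_2_24_1 A012E_001_2_25_1
theorem A012E_001_1_12_1 :
    ∃ t, chk3 (onCell 0 67108864 0 1073741824 587336777 62277027 (corT true 1 c0B cA012E gB0q0 gB0q1 gB1q2 gB2q2 true true)) t 1 12 1 = true :=
  ex3_a A012E_001_2_12_1 A012E_001_3_12_1
theorem A012E_001_1_6_1 :
    ∃ t, chk3 (onCell 0 67108864 0 1073741824 587336777 62277027 (corT true 1 c0B cA012E gB0q0 gB0q1 gB1q2 gB2q2 true true)) t 1 6 1 = true :=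
  ex3_b A012E_001_1_12_1 A012E_001_1_13_1
theorem A012E_001_1_3_1 :
    ∃ t, chk3 (onCell 0 67108864 0 1073741824 587336777 62277027 (corT true 1 c0B cA012E gB0q0 gB0q1 gB1q2 gB2q2 true true)) t 1 3 1 = true :=
  ex3_b A012E_001_1_6_1 A012E_001_1_7_1
theorem A012E_001 :
    ∃ t, chk3 (onCell 0 67108864 0 1073741824 587336777 62277027 (corT true 1 c0B cA012E gB0q0 gB0q1 gB1q2 gB2q2 true true)) t 1 1 1 = true :=
  ex3_b A012E_001_1_2_1 A012E_001_1_3_1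

def A012E_002 :
    ∃ t, chk3 (onCell 0 67108864 0 1073741824 587336777 62277027 (corT true 1 c0B cA012E gB0q0 gB0q1 gB2q2 gB3q2 true true)) t 1 1 1 = true :=
  ⟨(T.b (T.l 1) (T.b (T.b (T.b (T.b (T.l 1) (T.b (T.l 1) (T.a (T.a (T.l 1) (T.a (T.l 1) (T.l 0))) (T.a (T.c (T.l 0) (T.l 0)) (T.a (T.l 0) (T.a (T.c (T.l 0) (T.l 0)) (T.c (T.l 0) (T.l 0)))))))) (T.a (T.a (T.b (T.c (T.a (T.b (T.c (T.a (T.b (T.c (T.l 816) (T.l 816)) (T.l 816)) (T.l 816)) (T.l 816)) (T.l 816)) (T.l 816)) (T.l 0)) (T.c (T.l 816) (T.l 816))) (T.b (T.c (T.l 0) (T.l 0)) (T.l 816))) (T.a (T.b (T.l 0) (T.l 0)) (T.b (T.a (T.a (T.l 0) (T.b (T.c (T.l 0) (T.l 0)) (T.c (T.l 0) (T.l 0)))) (T.a (T.b (T.c (T.l 0) (T.l 0)) (T.c (T.l 0) (T.l 0))) (T.b (T.c (T.l 0) (T.l 0)) (T.c (T.l 0) (T.l 0))))) (T.a (T.a (T.b (T.l 816) (T.c (T.l 0) (T.l 0))) (T.b (T.c (T.l 0) (T.l 0)) (T.c (T.l 0) (T.l 0))))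 (T.a (T.b (T.c (T.l 0) (T.l 0)) (T.c (T.l 816) (T.l 0))) (T.b (T.c (T.l 0) (T.l 0)) (T.c (T.l 816) (T.l 0))))))))) (T.b (T.a (T.b (T.a (T.c (T.l 816) (T.l 816)) (T.l 816)) (T.l 2)) (T.l 2)) (T.l 2))) (T.l 2))), by decide +kernel⟩

def A012E_003_1_2_1 :
    ∃ t, chk3 (onCell 0 67108864 0 1073741824 587336777 62277027 (corT true 1 c0B cA012E gB0q0 gB0q1 gB3q2 gB4q2 true true)) t 1 2 1 = true :=
  ⟨(T.l 1), by decide +kernel⟩

def A012E_003_1_6_1 :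
    ∃ t, chk3 (onCell 0 67108864 0 1073741824 587336777 62277027 (corT true 1 c0B cA012E gB0q0 gB0q1 gB3q2 gB4q2 true true)) t 1 6 1 = true :=
  ⟨(T.b (T.b (T.l 1) (T.b (T.l 1) (T.b (T.l 1) (T.a (T.l 0) (T.a (T.l 816) (T.a (T.c (T.l 0) (T.l 0)) (T.c (T.l 0) (T.l 0)))))))) (T.a (T.b (T.a (T.b (T.l 816) (T.l 816)) (T.l 816)) (T.a (T.l 816) (T.l 816))) (T.b (T.a (T.a (T.l 816) (T.a (T.l 816) (T.b (T.l 816) (T.c (T.l 816) (T.l 816))))) (T.a (T.b (T.a (T.c (T.l 816) (T.l 816)) (T.l 816)) (T.a (T.c (T.l 816) (T.l 816)) (T.c (T.l 816) (T.l 816)))) (T.b (T.a (T.l 880) (T.c (T.l 816) (T.l 816))) (T.a (T.c (T.l 816) (T.l 816)) (T.c (T.l 816) (T.l 816)))))) (T.a (T.a (T.l 816) (T.a (T.b (T.l 816) (T.c (T.l 880) (T.l 880))) (T.b (T.c (T.l 816) (T.l 816)) (T.c (T.l 816) (T.l 816))))) (T.a (T.a (T.b (T.c (T.l 816) (T.l 816)) (T.c (T.l 816) (T.l 816))) (T.b (T.c (T.l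 816) (T.l 816)) (T.c (T.l 816) (T.l 816)))) (T.b (T.a (T.c (T.l 816) (T.l 816)) (T.c (T.l 816) (T.l 816))) (T.a (T.c (T.l 816) (T.l 816)) (T.c (T.l 816) (T.l 816))))))))), by decide +kernel⟩

def A012E_003_1_7_1 :
    ∃ t, chk3 (onCell 0 67108864 0 1073741824 587336777 62277027 (corT true 1 c0B cA012E gB0q0 gB0q1 gB3q2 gB4q2 true true)) t 1 7 1 = true :=
  ⟨(T.b (T.a (T.b (T.a (T.l 816) (T.l 816)) (T.a (T.l 816) (T.l 816))) (T.b (T.b (T.a (T.a (T.l 816) (T.a (T.a (T.l 880) (T.l 816)) (T.c (T.l 816) (T.l 816)))) (T.a (T.a (T.c (T.l 816) (T.l 816)) (T.c (T.l 816) (T.l 816))) (T.a (T.c (T.l 816) (T.l 816)) (T.c (T.l 816) (T.l 816))))) (T.b (T.a (T.a (T.l 816) (T.a (T.c (T.l 816) (T.l 816)) (T.l 880))) (T.a (T.a (T.l 816) (T.l 816)) (T.a (T.l 816) (T.l 816)))) (T.b (T.a (T.a (T.a (T.l 816) (T.c (T.l 816) (T.l 816))) (T.a (T.l 816) (T.l 816))) (T.a (T.a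 (T.l 816) (T.l 816)) (T.c (T.l 880) (T.l 816)))) (T.a (T.a (T.a (T.l 816) (T.c (T.l 816) (T.l 816))) (T.a (T.l 816) (T.l 816))) (T.a (T.a (T.l 816) (T.l 816)) (T.c (T.l 880) (T.l 816))))))) (T.b (T.b (T.b (T.a (T.a (T.a (T.l 816) (T.c (T.l 816) (T.l 816))) (T.a (T.l 816) (T.l 816))) (T.a (T.a (T.l 816) (T.l 816)) (T.c (T.l 880) (T.l 816)))) (T.a (T.b (T.a (T.a (T.l 816) (T.l 880)) (T.a (T.l 816) (T.l 816))) (T.a (T.a (T.l 816) (T.l 880)) (T.a (T.l 816) (T.l 816)))) (T.b (T.a (T.c (T.l 816) (T.l 816)) (T.c (T.l 816) (T.l 816))) (T.l 2)))) (T.l 2)) (T.l 2)))) (T.l 2)), by decide +kernel⟩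

theorem A012E_003_1_3_1 :
    ∃ t, chk3 (onCell 0 67108864 0 1073741824 587336777 62277027 (corT true 1 c0B cA012E gB0q0 gB0q1 gB3q2 gB4q2 true true)) t 1 3 1 = true :=
  ex3_b A012E_003_1_6_1 A012E_003_1_7_1
theorem A012E_003 :
    ∃ t, chk3 (onCell 0 67108864 0 1073741824 587336777 62277027 (corT true 1 c0B cA012E gB0q0 gB0q1 gB3q2 gB4q2 true true)) t 1 1 1 = true :=
  ex3_b A012E_003_1_2_1 A012E_003_1_3_1

def A012E_004 :
    ∃ t, chk3 (onCell 0 67108864 0 1073741824 587336777 62277027 (corT true 1 c0B cA012E gB0q0 gB0q1 gB4q2 gB5q2 true false)) t 1 1 1 = true :=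
  ⟨(T.b (T.l 1) (T.b (T.l 1) (T.b (T.b (T.l 1) (T.a (T.l 816) (T.a (T.a (T.a (T.l 816) (T.b (T.l 816) (T.l 816))) (T.b (T.l 880) (T.l 816))) (T.a (T.b (T.l 816) (T.l 816)) (T.b (T.l 816) (T.l 816)))))) (T.a (T.a (T.l 816) (T.a (T.l 816) (T.b (T.l 816) (T.b (T.l 816) (T.l 816))))) (T.a (T.a (T.b (T.b (T.l 816) (T.l 816)) (T.b (T.l 816) (T.l 816))) (T.b (T.b (T.l 816) (T.l 816)) (T.l 816))) (T.a (T.b (T.l 816) (T.l 816)) (T.b (T.l 816) (T.l 816)))))))), by decide +kernel⟩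

def A012L_006 :
    ∃ t, chk3 (onCell 0 67108864 0 1073741824 587336777 62277027 (corT true 1 c0B cA012L gB0q0 gB0q1 gB6q2 gB7q2 false true)) t 1 1 1 = true :=
  ⟨(T.l 2), by decide +kernel⟩

def A012R_050 :
    ∃ t, chk3 (onCell 0 67108864 0 1073741824 587336777 62277027 (corT true 1 c0B cA012R gB0q0 gB5q1 gB0q2 gB1q2 true true)) t 1 1 1 = true :=
  ⟨(T.b (T.l 2) (T.l 2)), by decide +kernel⟩

def A012R_051 :
    ∃ t, chk3 (onCell 0 67108864 0 1073741824 587336777 62277027 (corT true 1 c0B cA012R gB0q0 gB5q1 gB1q2 gB2q2 true true)) t 1 1 1 = true :=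
  ⟨(T.b (T.l 2) (T.l 2)), by decide +kernel⟩

def A012R_052 :
    ∃ t, chk3 (onCell 0 67108864 0 1073741824 587336777 62277027 (corT true 1 c0B cA012R gB0q0 gB5q1 gB2q2 gB3q2 true true)) t 1 1 1 = true :=
  ⟨(T.b (T.l 2) (T.l 2)), by decide +kernel⟩

def A012R_053 :
    ∃ t, chk3 (onCell 0 67108864 0 1073741824 587336777 62277027 (corT true 1 c0B cA012R gB0q0 gB5q1 gB3q2 gB4q2 true true)) t 1 1 1 = true :=
  ⟨(T.l 2), by decide +kernel⟩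

def A012R_054 :
    ∃ t, chk3 (onCell 0 67108864 0 1073741824 587336777 62277027 (corT true 1 c0B cA012R gB0q0 gB5q1 gB4q2 gB5q2 true false)) t 1 1 1 = true :=
  ⟨(T.b (T.a (T.l 0) (T.b (T.l 0) (T.b (T.l 816) (T.b (T.l 816) (T.l 816))))) (T.b (T.a (T.l 816) (T.a (T.b (T.l 816) (T.l 816)) (T.b (T.l 816) (T.l 816)))) (T.a (T.a (T.l 816) (T.a (T.l 816) (T.l 816))) (T.a (T.b (T.l 816) (T.l 816)) (T.b (T.l 816) (T.l 816)))))), by decide +kernel⟩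

def A012R_060 :
    ∃ t, chk3 (onCell 0 67108864 0 1073741824 587336777 62277027 (corT true 1 c0B cA012R gB0q0 gB6q1 gB0q2 gB1q2 true true)) t 1 1 1 = true :=
  ⟨(T.l 2), by decide +kernel⟩

def A012R_061 :
    ∃ t, chk3 (onCell 0 67108864 0 1073741824 587336777 62277027 (corT true 1 c0B cA012R gB0q0 gB6q1 gB1q2 gB2q2 true true)) t 1 1 1 = true :=
  ⟨(T.l 2), by decide +kernel⟩

def A012R_062 :
    ∃ t, chk3 (onCell 0 67108864 0 1073741824 587336777 62277027 (corT true 1 c0B cA012R gB0q0 gB6q1 gB2q2 gB3q2 true true)) t 1 1 1 = true :=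
  ⟨(T.l 2), by decide +kernel⟩

def A012R_063 :
    ∃ t, chk3 (onCell 0 67108864 0 1073741824 587336777 62277027 (corT true 1 c0B cA012R gB0q0 gB6q1 gB3q2 gB4q2 true true)) t 1 1 1 = true :=
  ⟨(T.l 2), by decide +kernel⟩

def A012R_064 :
    ∃ t, chk3 (onCell 0 67108864 0 1073741824 587336777 62277027 (corT true 1 c0B cA012R gB0q0 gB6q1 gB4q2 gB5q2 true false)) t 1 1 1 = true :=
  ⟨(T.b (T.b (T.l 0) (T.b (T.l 816) (T.a (T.l 816) (T.b (T.l 816) (T.l 816))))) (T.a (T.b (T.l 816) (T.a (T.l 816) (T.a (T.l 816) (T.l 816)))) (T.b (T.a (T.b (T.l 816) (T.l 816)) (T.b (T.l 816) (T.l 816))) (T.a (T.b (T.l 816) (T.l 816)) (T.b (T.l 816) (T.l 816)))))), by decide +kernel⟩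

def A012R_070 :
    ∃ t, chk3 (onCell 0 67108864 0 1073741824 587336777 62277027 (corT true 1 c0B cA012R gB0q0 gB7q1 gB0q2 gB1q2 true true)) t 1 1 1 = true :=
  ⟨(T.l 2), by decide +kernel⟩

def A012R_071 :
    ∃ t, chk3 (onCell 0 67108864 0 1073741824 587336777 62277027 (corT true 1 c0B cA012R gB0q0 gB7q1 gB1q2 gB2q2 true true)) t 1 1 1 = true :=
  ⟨(T.l 2), by decide +kernel⟩

def A012R_072 :
    ∃ t, chk3 (onCell 0 67108864 0 1073741824 587336777 62277027 (corT true 1 c0B cA012R gB0q0 gB7q1 gB2q2 gB3q2 true true)) t 1 1 1 = true :=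
  ⟨(T.l 2), by decide +kernel⟩

def A012R_073 :
    ∃ t, chk3 (onCell 0 67108864 0 1073741824 587336777 62277027 (corT true 1 c0B cA012R gB0q0 gB7q1 gB3q2 gB4q2 true true)) t 1 1 1 = true :=
  ⟨(T.l 2), by decide +kernel⟩

def A012R_074 :
    ∃ t, chk3 (onCell 0 67108864 0 1073741824 587336777 62277027 (corT true 1 c0B cA012R gB0q0 gB7q1 gB4q2 gB5q2 true false)) t 1 1 1 = true :=
  ⟨(T.b (T.b (T.l 0) (T.b (T.l 816) (T.a (T.l 816) (T.b (T.l 816) (T.l 816))))) (T.b (T.a (T.l 816) (T.a (T.b (T.l 816) (T.l 816)) (T.b (T.l 816) (T.l 816)))) (T.a (T.a (T.l 816) (T.a (T.l 816) (T.l 816))) (T.a (T.b (T.l 816) (T.l 816)) (T.b (T.l 816) (T.l 816)))))), by decide +kernel⟩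

def A012R_150 :
    ∃ t, chk3 (onCell 0 67108864 0 1073741824 587336777 62277027 (corT true 1 c0B cA012R gB1q0 gB5q1 gB0q2 gB1q2 true true)) t 1 1 1 = true :=
  ⟨(T.b (T.b (T.l 2) (T.l 2)) (T.l 2)), by decide +kernel⟩

def A012R_151 :
    ∃ t, chk3 (onCell 0 67108864 0 1073741824 587336777 62277027 (corT true 1 c0B cA012R gB1q0 gB5q1 gB1q2 gB2q2 true true)) t 1 1 1 = true :=
  ⟨(T.b (T.b (T.l 2) (T.l 2)) (T.l 2)), by decide +kernel⟩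

def A012R_152 :
    ∃ t, chk3 (onCell 0 67108864 0 1073741824 587336777 62277027 (corT true 1 c0B cA012R gB1q0 gB5q1 gB2q2 gB3q2 true true)) t 1 1 1 = true :=
  ⟨(T.b (T.b (T.l 2) (T.l 2)) (T.l 2)), by decide +kernel⟩

def A012R_153 :
    ∃ t, chk3 (onCell 0 67108864 0 1073741824 587336777 62277027 (corT true 1 c0B cA012R gB1q0 gB5q1 gB3q2 gB4q2 true true)) t 1 1 1 = true :=
  ⟨(T.b (T.l 2) (T.l 2)), by decide +kernel⟩

def A012R_154 :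
    ∃ t, chk3 (onCell 0 67108864 0 1073741824 587336777 62277027 (corT true 1 c0B cA012R gB1q0 gB5q1 gB4q2 gB5q2 true false)) t 1 1 1 = true :=
  ⟨(T.b (T.b (T.l 0) (T.b (T.l 816) (T.a (T.l 816) (T.b (T.l 816) (T.l 816))))) (T.b (T.a (T.l 816) (T.a (T.b (T.l 816) (T.l 816)) (T.l 816))) (T.a (T.a (T.l 816) (T.a (T.l 816) (T.l 816))) (T.a (T.b (T.l 816) (T.l 816)) (T.l 816))))), by decide +kernel⟩

def A012R_160 :
    ∃ t, chk3 (onCell 0 67108864 0 1073741824 587336777 62277027 (corT true 1 c0B cA012R gB1q0 gB6q1 gB0q2 gB1q2 true true)) t 1 1 1 = true :=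
  ⟨(T.l 2), by decide +kernel⟩

def A012R_161 :
    ∃ t, chk3 (onCell 0 67108864 0 1073741824 587336777 62277027 (corT true 1 c0B cA012R gB1q0 gB6q1 gB1q2 gB2q2 true true)) t 1 1 1 = true :=
  ⟨(T.l 2), by decide +kernel⟩

def A012R_162 :
    ∃ t, chk3 (onCell 0 67108864 0 1073741824 587336777 62277027 (corT true 1 c0B cA012R gB1q0 gB6q1 gB2q2 gB3q2 true true)) t 1 1 1 = true :=
  ⟨(T.l 2), by decide +kernel⟩

def A012R_163 :
    ∃ t, chk3 (onCell 0 67108864 0 1073741824 587336777 62277027 (corT true 1 c0B cA012R gB1q0 gB6q1 gB3q2 gB4q2 true true)) t 1 1 1 = true :=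
  ⟨(T.l 2), by decide +kernel⟩

def A012R_164 :
    ∃ t, chk3 (onCell 0 67108864 0 1073741824 587336777 62277027 (corT true 1 c0B cA012R gB1q0 gB6q1 gB4q2 gB5q2 true false)) t 1 1 1 = true :=
  ⟨(T.b (T.b (T.l 0) (T.a (T.l 816) (T.b (T.l 816) (T.b (T.l 816) (T.l 816))))) (T.a (T.b (T.l 816) (T.a (T.l 816) (T.a (T.l 816) (T.l 816)))) (T.b (T.a (T.b (T.l 816) (T.l 816)) (T.l 816)) (T.a (T.b (T.l 816) (T.l 816)) (T.l 816))))), by decide +kernel⟩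

def A012R_170 :
    ∃ t, chk3 (onCell 0 67108864 0 1073741824 587336777 62277027 (corT true 1 c0B cA012R gB1q0 gB7q1 gB0q2 gB1q2 true true)) t 1 1 1 = true :=
  ⟨(T.l 2), by decide +kernel⟩

def A012R_171 :
    ∃ t, chk3 (onCell 0 67108864 0 1073741824 587336777 62277027 (corT true 1 c0B cA012R gB1q0 gB7q1 gB1q2 gB2q2 true true)) t 1 1 1 = true :=
  ⟨(T.l 2), by decide +kernel⟩

def A012R_172 :
    ∃ t, chk3 (onCell 0 67108864 0 1073741824 587336777 62277027 (corT true 1 c0B cA012R gB1q0 gB7q1 gB2q2 gB3q2 true true)) t 1 1 1 = true :=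
  ⟨(T.l 2), by decide +kernel⟩

def A012R_173 :
    ∃ t, chk3 (onCell 0 67108864 0 1073741824 587336777 62277027 (corT true 1 c0B cA012R gB1q0 gB7q1 gB3q2 gB4q2 true true)) t 1 1 1 = true :=
  ⟨(T.l 2), by decide +kernel⟩

def A012R_174 :
    ∃ t, chk3 (onCell 0 67108864 0 1073741824 587336777 62277027 (corT true 1 c0B cA012R gB1q0 gB7q1 gB4q2 gB5q2 true false)) t 1 1 1 = true :=
  ⟨(T.b (T.b (T.l 0) (T.b (T.l 816) (T.a (T.l 816) (T.b (T.l 816) (T.l 816))))) (T.b (T.a (T.l 816) (T.a (T.b (T.l 816) (T.l 816)) (T.l 816))) (T.a (T.a (T.l 816) (T.a (T.l 816) (T.l 816))) (T.a (T.b (T.l 816) (T.l 816)) (T.l 816))))), by decide +kernel⟩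

def A012R_250 :
    ∃ t, chk3 (onCell 0 67108864 0 1073741824 587336777 62277027 (corT true 1 c0B cA012R gB2q0 gB5q1 gB0q2 gB1q2 true true)) t 1 1 1 = true :=
  ⟨(T.b (T.b (T.b (T.l 1) (T.l 0)) (T.l 2)) (T.l 2)), by decide +kernel⟩

def A012R_251 :
    ∃ t, chk3 (onCell 0 67108864 0 1073741824 587336777 62277027 (corT true 1 c0B cA012R gB2q0 gB5q1 gB1q2 gB2q2 true true)) t 1 1 1 = true :=
  ⟨(T.b (T.b (T.l 0) (T.b (T.l 2) (T.l 2))) (T.l 2)), by decide +kernel⟩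

def A012R_252 :
    ∃ t, chk3 (onCell 0 67108864 0 1073741824 587336777 62277027 (corT true 1 c0B cA012R gB2q0 gB5q1 gB2q2 gB3q2 true true)) t 1 1 1 = true :=
  ⟨(T.b (T.b (T.l 0) (T.b (T.l 816) (T.l 2))) (T.l 2)), by decide +kernel⟩

def A012R_253 :
    ∃ t, chk3 (onCell 0 67108864 0 1073741824 587336777 62277027 (corT true 1 c0B cA012R gB2q0 gB5q1 gB3q2 gB4q2 true true)) t 1 1 1 = true :=
  ⟨(T.b (T.b (T.l 0) (T.a (T.l 816) (T.b (T.l 816) (T.a (T.l 816) (T.l 816))))) (T.b (T.a (T.l 816) (T.b (T.a (T.l 816) (T.l 816)) (T.a (T.b (T.l 816) (T.l 816)) (T.l 880)))) (T.a (T.a (T.l 816) (T.b (T.l 816) (T.a (T.l 816) (T.l 816)))) (T.b (T.a (T.b (T.l 816) (T.l 816)) (T.b (T.l 816) (T.l 816))) (T.a (T.a (T.l 816) (T.l 816)) (T.b (T.l 816) (T.l 816))))))), by decide +kernel⟩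

def A012R_254 :
    ∃ t, chk3 (onCell 0 67108864 0 1073741824 587336777 62277027 (corT true 1 c0B cA012R gB2q0 gB5q1 gB4q2 gB5q2 true false)) t 1 1 1 = true :=
  ⟨(T.b (T.l 1) (T.b (T.l 1) (T.a (T.l 1) (T.a (T.l 816) (T.l 816))))), by decide +kernel⟩

def A012R_260 :
    ∃ t, chk3 (onCell 0 67108864 0 1073741824 587336777 62277027 (corT true 1 c0B cA012R gB2q0 gB6q1 gB0q2 gB1q2 true true)) t 1 1 1 = true :=
  ⟨(T.b (T.b (T.b (T.l 0) (T.l 2)) (T.l 2)) (T.l 2)), by decide +kernel⟩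

def A012R_261 :
    ∃ t, chk3 (onCell 0 67108864 0 1073741824 587336777 62277027 (corT true 1 c0B cA012R gB2q0 gB6q1 gB1q2 gB2q2 true true)) t 1 1 1 = true :=
  ⟨(T.b (T.b (T.l 0) (T.l 2)) (T.l 2)), by decide +kernel⟩

def A012R_262 :
    ∃ t, chk3 (onCell 0 67108864 0 1073741824 587336777 62277027 (corT true 1 c0B cA012R gB2q0 gB6q1 gB2q2 gB3q2 true true)) t 1 1 1 = true :=
  ⟨(T.b (T.b (T.l 0) (T.l 2)) (T.l 2)), by decide +kernel⟩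

def A012R_263 :
    ∃ t, chk3 (onCell 0 67108864 0 1073741824 587336777 62277027 (corT true 1 c0B cA012R gB2q0 gB6q1 gB3q2 gB4q2 true true)) t 1 1 1 = true :=
  ⟨(T.b (T.a (T.l 0) (T.a (T.l 816) (T.b (T.l 816) (T.b (T.l 816) (T.l 816))))) (T.a (T.a (T.l 816) (T.a (T.l 816) (T.b (T.l 816) (T.b (T.l 816) (T.l 816))))) (T.a (T.b (T.a (T.l 816) (T.b (T.l 816) (T.l 816))) (T.a (T.b (T.l 816) (T.l 816)) (T.b (T.l 816) (T.l 816)))) (T.b (T.b (T.l 816) (T.l 2)) (T.b (T.l 2) (T.l 2)))))), by decide +kernel⟩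

def A012R_264 :
    ∃ t, chk3 (onCell 0 67108864 0 1073741824 587336777 62277027 (corT true 1 c0B cA012R gB2q0 gB6q1 gB4q2 gB5q2 true false)) t 1 1 1 = true :=
  ⟨(T.b (T.b (T.l 816) (T.a (T.l 1) (T.b (T.l 816) (T.l 816)))) (T.a (T.b (T.l 1) (T.l 1)) (T.a (T.b (T.l 816) (T.l 816)) (T.b (T.l 816) (T.l 816))))), by decide +kernel⟩

def A012R_270 :
    ∃ t, chk3 (onCell 0 67108864 0 1073741824 587336777 62277027 (corT true 1 c0B cA012R gB2q0 gB7q1 gB0q2 gB1q2 true true)) t 1 1 1 = true :=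
  ⟨(T.b (T.l 2) (T.l 2)), by decide +kernel⟩

def A012R_271 :
    ∃ t, chk3 (onCell 0 67108864 0 1073741824 587336777 62277027 (corT true 1 c0B cA012R gB2q0 gB7q1 gB1q2 gB2q2 true true)) t 1 1 1 = true :=
  ⟨(T.b (T.l 2) (T.l 2)), by decide +kernel⟩

def A012R_272 :
    ∃ t, chk3 (onCell 0 67108864 0 1073741824 587336777 62277027 (corT true 1 c0B cA012R gB2q0 gB7q1 gB2q2 gB3q2 true true)) t 1 1 1 = true :=
  ⟨(T.b (T.l 2) (T.l 2)), by decide +kernel⟩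

def A012R_273 :
    ∃ t, chk3 (onCell 0 67108864 0 1073741824 587336777 62277027 (corT true 1 c0B cA012R gB2q0 gB7q1 gB3q2 gB4q2 true true)) t 1 1 1 = true :=
  ⟨(T.b (T.l 2) (T.a (T.a (T.l 816) (T.a (T.l 816) (T.b (T.l 2) (T.b (T.l 816) (T.l 816))))) (T.b (T.l 2) (T.b (T.l 2) (T.a (T.a (T.l 816) (T.l 2)) (T.l 2)))))), by decide +kernel⟩

def A012R_274 :
    ∃ t, chk3 (onCell 0 67108864 0 1073741824 587336777 62277027 (corT true 1 c0B cA012R gB2q0 gB7q1 gB4q2 gB5q2 true false)) t 1 1 1 = true :=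
  ⟨(T.b (T.b (T.l 816) (T.b (T.l 816) (T.a (T.l 816) (T.l 816)))) (T.a (T.b (T.l 816) (T.b (T.l 816) (T.b (T.l 816) (T.l 1)))) (T.b (T.b (T.l 816) (T.l 816)) (T.a (T.l 816) (T.l 816))))), by decide +kernel⟩

def A012R_350 :
    ∃ t, chk3 (onCell 0 67108864 0 1073741824 587336777 62277027 (corT true 1 c0B cA012R gB3q0 gB5q1 gB0q2 gB1q2 true true)) t 1 1 1 = true :=
  ⟨(T.b (T.b (T.l 1) (T.b (T.l 816) (T.a (T.l 816) (T.l 2)))) (T.l 2)), by decide +kernel⟩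

def A012R_351 :
    ∃ t, chk3 (onCell 0 67108864 0 1073741824 587336777 62277027 (corT true 1 c0B cA012R gB3q0 gB5q1 gB1q2 gB2q2 true true)) t 1 1 1 = true :=
  ⟨(T.b (T.b (T.l 1) (T.b (T.l 816) (T.b (T.l 816) (T.a (T.l 816) (T.a (T.l 816) (T.l 2)))))) (T.b (T.a (T.l 816) (T.l 2)) (T.l 2))), by decide +kernel⟩

def A012R_352 :
    ∃ t, chk3 (onCell 0 67108864 0 1073741824 587336777 62277027 (corT true 1 c0B cA012R gB3q0 gB5q1 gB2q2 gB3q2 true true)) t 1 1 1 = true :=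
  ⟨(T.b (T.b (T.l 1) (T.a (T.l 816) (T.b (T.l 1) (T.a (T.l 816) (T.b (T.l 816) (T.l 816)))))) (T.b (T.a (T.l 816) (T.b (T.a (T.l 816) (T.b (T.l 816) (T.l 2))) (T.l 2))) (T.l 2))), by decide +kernel⟩

def A012R_353 :
    ∃ t, chk3 (onCell 0 67108864 0 1073741824 587336777 62277027 (corT true 1 c0B cA012R gB3q0 gB5q1 gB3q2 gB4q2 true true)) t 1 1 1 = true :=
  ⟨(T.b (T.l 1) (T.b (T.a (T.l 816) (T.b (T.a (T.l 816) (T.l 816)) (T.a (T.l 816) (T.l 816)))) (T.a (T.a (T.l 816) (T.a (T.l 816) (T.b (T.l 816) (T.l 816)))) (T.a (T.a (T.l 816) (T.l 816)) (T.b (T.l 816) (T.l 816)))))), by decide +kernel⟩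

def A012R_354 :
    ∃ t, chk3 (onCell 0 67108864 0 1073741824 587336777 62277027 (corT true 1 c0B cA012R gB3q0 gB5q1 gB4q2 gB5q2 true false)) t 1 1 1 = true :=
  ⟨(T.l 1), by decide +kernel⟩

def A012R_360 :
    ∃ t, chk3 (onCell 0 67108864 0 1073741824 587336777 62277027 (corT true 1 c0B cA012R gB3q0 gB6q1 gB0q2 gB1q2 true true)) t 1 1 1 = true :=
  ⟨(T.b (T.b (T.b (T.l 1) (T.l 816)) (T.b (T.a (T.l 816) (T.l 2)) (T.l 2))) (T.l 2)), by decide +kernel⟩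

def A012R_361 :
    ∃ t, chk3 (onCell 0 67108864 0 1073741824 587336777 62277027 (corT true 1 c0B cA012R gB3q0 gB6q1 gB1q2 gB2q2 true true)) t 1 1 1 = true :=
  ⟨(T.b (T.b (T.l 816) (T.b (T.l 816) (T.a (T.l 2) (T.l 2)))) (T.l 2)), by decide +kernel⟩

def A012R_362 :
    ∃ t, chk3 (onCell 0 67108864 0 1073741824 587336777 62277027 (corT true 1 c0B cA012R gB3q0 gB6q1 gB2q2 gB3q2 true true)) t 1 1 1 = true :=
  ⟨(T.b (T.b (T.l 1) (T.b (T.l 816) (T.a (T.l 816) (T.b (T.l 816) (T.a (T.l 816) (T.l 2)))))) (T.b (T.a (T.l 816) (T.l 2)) (T.l 2))), by decide +kernel⟩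

def A012R_363 :
    ∃ t, chk3 (onCell 0 67108864 0 1073741824 587336777 62277027 (corT true 1 c0B cA012R gB3q0 gB6q1 gB3q2 gB4q2 true true)) t 1 1 1 = true :=
  ⟨(T.b (T.b (T.l 1) (T.a (T.l 816) (T.b (T.l 816) (T.b (T.l 816) (T.l 816))))) (T.b (T.a (T.l 816) (T.a (T.b (T.l 816) (T.l 816)) (T.b (T.l 816) (T.l 816)))) (T.a (T.a (T.l 816) (T.a (T.l 816) (T.b (T.l 816) (T.l 816)))) (T.a (T.a (T.l 816) (T.l 816)) (T.b (T.l 816) (T.l 816)))))), by decide +kernel⟩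

def A012R_364 :
    ∃ t, chk3 (onCell 0 67108864 0 1073741824 587336777 62277027 (corT true 1 c0B cA012R gB3q0 gB6q1 gB4q2 gB5q2 true false)) t 1 1 1 = true :=
  ⟨(T.l 1), by decide +kernel⟩

def A012R_370 :
    ∃ t, chk3 (onCell 0 67108864 0 1073741824 587336777 62277027 (corT true 1 c0B cA012R gB3q0 gB7q1 gB0q2 gB1q2 true true)) t 1 1 1 = true :=
  ⟨(T.b (T.b (T.b (T.l 816) (T.l 816)) (T.l 2)) (T.l 2)), by decide +kernel⟩

def A012R_371 :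
    ∃ t, chk3 (onCell 0 67108864 0 1073741824 587336777 62277027 (corT true 1 c0B cA012R gB3q0 gB7q1 gB1q2 gB2q2 true true)) t 1 1 1 = true :=
  ⟨(T.b (T.b (T.l 816) (T.l 2)) (T.l 2)), by decide +kernel⟩

def A012R_372 :
    ∃ t, chk3 (onCell 0 67108864 0 1073741824 587336777 62277027 (corT true 1 c0B cA012R gB3q0 gB7q1 gB2q2 gB3q2 true true)) t 1 1 1 = true :=
  ⟨(T.b (T.b (T.l 816) (T.b (T.l 816) (T.a (T.l 2) (T.l 2)))) (T.b (T.l 2) (T.l 2))), by decide +kernel⟩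

def A012R_373 :
    ∃ t, chk3 (onCell 0 67108864 0 1073741824 587336777 62277027 (corT true 1 c0B cA012R gB3q0 gB7q1 gB3q2 gB4q2 true true)) t 1 1 1 = true :=
  ⟨(T.b (T.b (T.l 816) (T.a (T.l 816) (T.b (T.l 816) (T.a (T.l 816) (T.l 816))))) (T.a (T.a (T.l 816) (T.a (T.l 816) (T.b (T.l 816) (T.b (T.l 816) (T.l 816))))) (T.b (T.a (T.b (T.l 816) (T.l 816)) (T.b (T.l 816) (T.l 816))) (T.a (T.a (T.l 816) (T.l 816)) (T.b (T.l 816) (T.l 816)))))), by decide +kernel⟩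

def A012R_374 :
    ∃ t, chk3 (onCell 0 67108864 0 1073741824 587336777 62277027 (corT true 1 c0B cA012R gB3q0 gB7q1 gB4q2 gB5q2 true false)) t 1 1 1 = true :=
  ⟨(T.b (T.l 1) (T.l 1)), by decide +kernel⟩

def A012R_450 :
    ∃ t, chk3 (onCell 0 67108864 0 1073741824 587336777 62277027 (corT true 1 c0B cA012R gB4q0 gB5q1 gB0q2 gB1q2 true true)) t 1 1 1 = true :=
  ⟨(T.b (T.l 1) (T.b (T.b (T.a (T.l 1) (T.a (T.l 1) (T.b (T.l 1) (T.b (T.l 1) (T.l 816))))) (T.a (T.l 816) (T.b (T.a (T.l 816) (T.l 816)) (T.a (T.b (T.l 816) (T.l 816)) (T.b (T.l 816) (T.l 2)))))) (T.b (T.a (T.l 816) (T.b (T.a (T.b (T.l 816) (T.l 2)) (T.l 2)) (T.l 2))) (T.a (T.l 2) (T.l 2))))), by decide +kernel⟩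

def A012R_451 :
    ∃ t, chk3 (onCell 0 67108864 0 1073741824 587336777 62277027 (corT true 1 c0B cA012R gB4q0 gB5q1 gB1q2 gB2q2 true true)) t 1 1 1 = true :=
  ⟨(T.b (T.l 1) (T.b (T.a (T.l 1) (T.b (T.l 1) (T.a (T.b (T.l 1) (T.l 816)) (T.l 816)))) (T.b (T.a (T.l 816) (T.a (T.b (T.l 816) (T.l 816)) (T.b (T.l 816) (T.l 816)))) (T.a (T.a (T.l 816) (T.a (T.l 816) (T.l 816))) (T.b (T.a (T.b (T.l 816) (T.l 816)) (T.l 816)) (T.a (T.l 2) (T.l 2))))))), by decide +kernel⟩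

def A012R_452 :
    ∃ t, chk3 (onCell 0 67108864 0 1073741824 587336777 62277027 (corT true 1 c0B cA012R gB4q0 gB5q1 gB2q2 gB3q2 true true)) t 1 1 1 = true :=
  ⟨(T.b (T.l 1) (T.b (T.l 1) (T.b (T.a (T.l 1) (T.a (T.b (T.l 1) (T.l 816)) (T.l 816))) (T.a (T.a (T.l 816) (T.a (T.l 816) (T.l 816))) (T.a (T.l 880) (T.b (T.l 816) (T.l 816))))))), by decide +kernel⟩

def A012R_453 :
    ∃ t, chk3 (onCell 0 67108864 0 1073741824 587336777 62277027 (corT true 1 c0B cA012R gB4q0 gB5q1 gB3q2 gB4q2 true true)) t 1 1 1 = true :=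
  ⟨(T.l 1), by decide +kernel⟩

def A012R_454 :
    ∃ t, chk3 (onCell 0 67108864 0 1073741824 587336777 62277027 (corT true 1 c0B cA012R gB4q0 gB5q1 gB4q2 gB5q2 true false)) t 1 1 1 = true :=
  ⟨(T.l 1), by decide +kernel⟩

def A012R_460 :
    ∃ t, chk3 (onCell 0 67108864 0 1073741824 587336777 62277027 (corT true 1 c0B cA012R gB4q0 gB6q1 gB0q2 gB1q2 true true)) t 1 1 1 = true :=
  ⟨(T.b (T.l 1) (T.b (T.a (T.l 880) (T.b (T.a (T.l 816) (T.b (T.l 1) (T.l 816))) (T.b (T.a (T.l 816) (T.b (T.l 816) (T.l 816))) (T.a (T.b (T.l 816) (T.l 2)) (T.l 2))))) (T.a (T.b (T.l 816) (T.l 2)) (T.l 2)))), by decide +kernel⟩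

def A012R_461 :
    ∃ t, chk3 (onCell 0 67108864 0 1073741824 587336777 62277027 (corT true 1 c0B cA012R gB4q0 gB6q1 gB1q2 gB2q2 true true)) t 1 1 1 = true :=
  ⟨(T.b (T.l 1) (T.b (T.a (T.l 816) (T.b (T.a (T.l 1) (T.b (T.l 1) (T.l 816))) (T.a (T.b (T.l 816) (T.l 816)) (T.l 880)))) (T.a (T.b (T.l 816) (T.a (T.l 816) (T.a (T.l 816) (T.l 816)))) (T.b (T.a (T.b (T.l 816) (T.l 816)) (T.b (T.l 816) (T.l 816))) (T.a (T.a (T.l 816) (T.l 816)) (T.l 2)))))), by decide +kernel⟩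

def A012R_462 :
    ∃ t, chk3 (onCell 0 67108864 0 1073741824 587336777 62277027 (corT true 1 c0B cA012R gB4q0 gB6q1 gB2q2 gB3q2 true true)) t 1 1 1 = true :=
  ⟨(T.b (T.l 1) (T.b (T.l 1) (T.a (T.b (T.l 1) (T.a (T.l 816) (T.b (T.l 816) (T.l 816)))) (T.b (T.a (T.l 816) (T.l 816)) (T.a (T.l 816) (T.l 880)))))), by decide +kernel⟩

def A012R_463 :
    ∃ t, chk3 (onCell 0 67108864 0 1073741824 587336777 62277027 (corT true 1 c0B cA012R gB4q0 gB6q1 gB3q2 gB4q2 true true)) t 1 1 1 = true :=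
  ⟨(T.l 1), by decide +kernel⟩

def A012R_464 :
    ∃ t, chk3 (onCell 0 67108864 0 1073741824 587336777 62277027 (corT true 1 c0B cA012R gB4q0 gB6q1 gB4q2 gB5q2 true false)) t 1 1 1 = true :=
  ⟨(T.l 1), by decide +kernel⟩

def A012R_470 :
    ∃ t, chk3 (onCell 0 67108864 0 1073741824 587336777 62277027 (corT true 1 c0B cA012R gB4q0 gB7q1 gB0q2 gB1q2 true true)) t 1 1 1 = true :=
  ⟨(T.b (T.b (T.l 1) (T.l 1)) (T.b (T.a (T.l 816) (T.b (T.a (T.l 816) (T.a (T.l 816) (T.b (T.l 816) (T.l 816)))) (T.b (T.a (T.b (T.l 816) (T.l 816)) (T.l 2)) (T.l 2)))) (T.a (T.b (T.l 816) (T.l 2)) (T.l 2)))), by decide +kernel⟩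

def A012R_471 :
    ∃ t, chk3 (onCell 0 67108864 0 1073741824 587336777 62277027 (corT true 1 c0B cA012R gB4q0 gB7q1 gB1q2 gB2q2 true true)) t 1 1 1 = true :=
  ⟨(T.b (T.l 1) (T.b (T.a (T.l 816) (T.b (T.a (T.l 816) (T.l 816)) (T.a (T.b (T.l 816) (T.l 816)) (T.b (T.l 816) (T.l 816))))) (T.a (T.b (T.l 816) (T.a (T.l 816) (T.a (T.l 816) (T.l 816)))) (T.b (T.a (T.b (T.l 816) (T.l 816)) (T.b (T.l 816) (T.l 816))) (T.a (T.a (T.l 816) (T.l 2)) (T.l 2)))))), by decide +kernel⟩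

def A012R_472 :
    ∃ t, chk3 (onCell 0 67108864 0 1073741824 587336777 62277027 (corT true 1 c0B cA012R gB4q0 gB7q1 gB2q2 gB3q2 true true)) t 1 1 1 = true :=
  ⟨(T.b (T.l 1) (T.b (T.a (T.l 1) (T.l 1)) (T.a (T.b (T.l 1) (T.a (T.l 816) (T.b (T.l 816) (T.l 816)))) (T.b (T.a (T.l 816) (T.l 816)) (T.a (T.l 816) (T.l 816)))))), by decide +kernel⟩

def A012R_473 :
    ∃ t, chk3 (onCell 0 67108864 0 1073741824 587336777 62277027 (corT true 1 c0B cA012R gB4q0 gB7q1 gB3q2 gB4q2 true true)) t 1 1 1 = true :=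
  ⟨(T.l 1), by decide +kernel⟩

def A012R_474 :
    ∃ t, chk3 (onCell 0 67108864 0 1073741824 587336777 62277027 (corT true 1 c0B cA012R gB4q0 gB7q1 gB4q2 gB5q2 true false)) t 1 1 1 = true :=
  ⟨(T.l 1), by decide +kernel⟩

def A022E_000 :
    ∃ t, chk3 (onCell 0 67108864 0 1073741824 587336777 62277027 (corT true 1 c0B cA022E gB0q0 gB0q2 gB0q2 gB1q2 true true)) t 1 1 1 = true :=
  ⟨(T.l 2), by decide +kernel⟩

def A022E_001 :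
    ∃ t, chk3 (onCell 0 67108864 0 1073741824 587336777 62277027 (corT true 1 c0B cA022E gB0q0 gB0q2 gB1q2 gB2q2 true true)) t 1 1 1 = true :=
  ⟨(T.l 2), by decide +kernel⟩

def A022E_002 :
    ∃ t, chk3 (onCell 0 67108864 0 1073741824 587336777 62277027 (corT true 1 c0B cA022E gB0q0 gB0q2 gB2q2 gB3q2 true true)) t 1 1 1 = true :=
  ⟨(T.l 2), by decide +kernel⟩

def A022E_003 :
    ∃ t, chk3 (onCell 0 67108864 0 1073741824 587336777 62277027 (corT true 1 c0B cA022E gB0q0 gB0q2 gB3q2 gB4q2 true true)) t 1 1 1 = true :=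
  ⟨(T.b (T.l 2) (T.l 2)), by decide +kernel⟩

def A022E_004 :
    ∃ t, chk3 (onCell 0 67108864 0 1073741824 587336777 62277027 (corT true 1 c0B cA022E gB0q0 gB0q2 gB4q2 gB5q2 true false)) t 1 1 1 = true :=
  ⟨(T.b (T.b (T.a (T.a (T.b (T.l 204) (T.l 204)) (T.a (T.l 204) (T.a (T.l 204) (T.b (T.l 204) (T.l 204))))) (T.a (T.a (T.b (T.b (T.l 204) (T.l 204)) (T.l 204)) (T.b (T.b (T.l 204) (T.l 204)) (T.l 220))) (T.b (T.a (T.l 204) (T.l 204)) (T.a (T.l 204) (T.l 204))))) (T.b (T.a (T.a (T.l 204) (T.b (T.l 204) (T.l 204))) (T.a (T.b (T.l 0) (T.l 0)) (T.b (T.l 204) (T.l 0)))) (T.a (T.a (T.l 204) (T.l 0)) (T.a (T.l 0) (T.b (T.l 0) (T.l 0)))))) (T.b (T.b (T.a (T.a (T.l 0) (T.l 0)) (T.a (T.l 0) (T.l 0))) (T.a (T.a (T.l 0) (T.l 0)) (T.b (T.l 0) (T.l 0)))) (T.a (T.a (T.l 816) (T.a (T.l 816) (T.b (T.l 816) (T.l 816)))) (T.a (T.a (T.l 816) (T.l 816)) (T.b (T.l 0) (T.l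 816)))))), by decide +kernel⟩

def A022E_010 :
    ∃ t, chk3 (onCell 0 67108864 0 1073741824 587336777 62277027 (corT true 1 c0B cA022E gB0q0 gB1q2 gB0q2 gB1q2 true true)) t 1 1 1 = true :=
  ⟨(T.l 2), by decide +kernel⟩

def A022E_011 :
    ∃ t, chk3 (onCell 0 67108864 0 1073741824 587336777 62277027 (corT true 1 c0B cA022E gB0q0 gB1q2 gB1q2 gB2q2 true true)) t 1 1 1 = true :=
  ⟨(T.l 2), by decide +kernel⟩

def A022E_012 :
    ∃ t, chk3 (onCell 0 67108864 0 1073741824 587336777 62277027 (corT true 1 c0B cA022E gB0q0 gB1q2 gB2q2 gB3q2 true true)) t 1 1 1 = true :=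
  ⟨(T.l 2), by decide +kernel⟩

def A022E_013 :
    ∃ t, chk3 (onCell 0 67108864 0 1073741824 587336777 62277027 (corT true 1 c0B cA022E gB0q0 gB1q2 gB3q2 gB4q2 true true)) t 1 1 1 = true :=
  ⟨(T.l 2), by decide +kernel⟩

def A022E_014 :
    ∃ t, chk3 (onCell 0 67108864 0 1073741824 587336777 62277027 (corT true 1 c0B cA022E gB0q0 gB1q2 gB4q2 gB5q2 true false)) t 1 1 1 = true :=
  ⟨(T.b (T.b (T.a (T.a (T.l 204) (T.a (T.l 204) (T.b (T.a (T.l 204) (T.l 204)) (T.l 204)))) (T.a (T.a (T.b (T.b (T.l 204) (T.l 204)) (T.b (T.l 204) (T.l 204))) (T.b (T.l 204) (T.l 204))) (T.b (T.a (T.l 204) (T.l 204)) (T.b (T.l 204) (T.l 204))))) (T.a (T.a (T.l 204) (T.b (T.l 220) (T.l 0))) (T.a (T.a (T.l 204) (T.b (T.l 204) (T.l 204))) (T.b (T.b (T.l 204) (T.l 204)) (T.b (T.l 0) (T.l 0)))))) (T.b (T.b (T.a (T.a (T.l 204) (T.l 0)) (T.a (T.l 0) (T.b (T.l 0) (T.l 0)))) (T.a (T.a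 (T.l 0) (T.l 0)) (T.l 0))) (T.a (T.a (T.l 816) (T.a (T.l 816) (T.l 64))) (T.a (T.c (T.l 64) (T.l 64)) (T.b (T.l 0) (T.l 816)))))), by decide +kernel⟩

def A022E_020 :
    ∃ t, chk3 (onCell 0 67108864 0 1073741824 587336777 62277027 (corT true 1 c0B cA022E gB0q0 gB2q2 gB0q2 gB1q2 true true)) t 1 1 1 = true :=
  ⟨(T.l 2), by decide +kernel⟩

def A022E_021 :
    ∃ t, chk3 (onCell 0 67108864 0 1073741824 587336777 62277027 (corT true 1 c0B cA022E gB0q0 gB2q2 gB1q2 gB2q2 true true)) t 1 1 1 = true :=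
  ⟨(T.l 2), by decide +kernel⟩

def A022E_022 :
    ∃ t, chk3 (onCell 0 67108864 0 1073741824 587336777 62277027 (corT true 1 c0B cA022E gB0q0 gB2q2 gB2q2 gB3q2 true true)) t 1 1 1 = true :=
  ⟨(T.l 2), by decide +kernel⟩

def A022E_023 :
    ∃ t, chk3 (onCell 0 67108864 0 1073741824 587336777 62277027 (corT true 1 c0B cA022E gB0q0 gB2q2 gB3q2 gB4q2 true true)) t 1 1 1 = true :=
  ⟨(T.l 2), by decide +kernel⟩

def A022E_024 :
    ∃ t, chk3 (onCell 0 67108864 0 1073741824 587336777 62277027 (corT true 1 c0B cA022E gB0q0 gB2q2 gB4q2 gB5q2 true false)) t 1 1 1 = true :=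
  ⟨(T.b (T.b (T.a (T.a (T.l 204) (T.a (T.l 204) (T.a (T.l 204) (T.b (T.l 204) (T.l 204))))) (T.a (T.a (T.b (T.b (T.l 204) (T.l 204)) (T.l 204)) (T.b (T.l 204) (T.l 204))) (T.b (T.a (T.l 204) (T.l 204)) (T.b (T.l 204) (T.l 204))))) (T.a (T.a (T.l 204) (T.b (T.l 204) (T.l 0))) (T.a (T.a (T.l 204) (T.b (T.l 204) (T.l 204))) (T.b (T.b (T.l 204) (T.l 204)) (T.l 16))))) (T.b (T.b (T.a (T.a (T.l 204) (T.l 0)) (T.a (T.l 0) (T.l 0))) (T.a (T.a (T.l 0) (T.l 0)) (T.l 0))) (T.a (T.a (T.l 816) (T.a (T.l 816) (T.l 0))) (T.a (T.c (T.l 0) (T.l 0)) (T.b (T.l 0) (T.l 816)))))), by decide +kernel⟩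

def A022E_030 :
    ∃ t, chk3 (onCell 0 67108864 0 1073741824 587336777 62277027 (corT true 1 c0B cA022E gB0q0 gB3q2 gB0q2 gB1q2 true true)) t 1 1 1 = true :=
  ⟨(T.l 2), by decide +kernel⟩

def A022E_031 :
    ∃ t, chk3 (onCell 0 67108864 0 1073741824 587336777 62277027 (corT true 1 c0B cA022E gB0q0 gB3q2 gB1q2 gB2q2 true true)) t 1 1 1 = true :=
  ⟨(T.l 2), by decide +kernel⟩

def A022E_032 :
    ∃ t, chk3 (onCell 0 67108864 0 1073741824 587336777 62277027 (corT true 1 c0B cA022E gB0q0 gB3q2 gB2q2 gB3q2 true true)) t 1 1 1 = true :=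
  ⟨(T.l 2), by decide +kernel⟩

def A022E_033 :
    ∃ t, chk3 (onCell 0 67108864 0 1073741824 587336777 62277027 (corT true 1 c0B cA022E gB0q0 gB3q2 gB3q2 gB4q2 true true)) t 1 1 1 = true :=
  ⟨(T.l 2), by decide +kernel⟩

def A022E_034 :
    ∃ t, chk3 (onCell 0 67108864 0 1073741824 587336777 62277027 (corT true 1 c0B cA022E gB0q0 gB3q2 gB4q2 gB5q2 true false)) t 1 1 1 = true :=
  ⟨(T.b (T.b (T.a (T.a (T.l 204) (T.a (T.l 204) (T.a (T.l 204) (T.b (T.l 204) (T.l 204))))) (T.a (T.a (T.b (T.b (T.l 204) (T.l 204)) (T.l 204)) (T.b (T.l 204) (T.l 204))) (T.b (T.a (T.l 204) (T.l 204)) (T.b (T.l 204) (T.l 204))))) (T.a (T.a (T.l 204) (T.l 16)) (T.a (T.a (T.l 204) (T.b (T.l 204) (T.l 204))) (T.b (T.b (T.l 204) (T.l 204)) (T.l 0))))) (T.b (T.b (T.a (T.a (T.l 204) (T.l 0)) (T.a (T.l 0) (T.l 0))) (T.a (T.a (T.l 0) (T.l 0)) (T.l 0))) (T.a (T.a (T.l 816) (T.a (T.l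 816) (T.l 0))) (T.a (T.c (T.l 0) (T.l 0)) (T.b (T.l 0) (T.l 816)))))), by decide +kernel⟩

def A022E_040 :
    ∃ t, chk3 (onCell 0 67108864 0 1073741824 587336777 62277027 (corT true 1 c0B cA022E gB0q0 gB4q2 gB0q2 gB1q2 true true)) t 1 1 1 = true :=
  ⟨(T.l 2), by decide +kernel⟩

def A022E_041 :
    ∃ t, chk3 (onCell 0 67108864 0 1073741824 587336777 62277027 (corT true 1 c0B cA022E gB0q0 gB4q2 gB1q2 gB2q2 true true)) t 1 1 1 = true :=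
  ⟨(T.l 2), by decide +kernel⟩

def A022E_042 :
    ∃ t, chk3 (onCell 0 67108864 0 1073741824 587336777 62277027 (corT true 1 c0B cA022E gB0q0 gB4q2 gB2q2 gB3q2 true true)) t 1 1 1 = true :=
  ⟨(T.l 2), by decide +kernel⟩

def A022E_043 :
    ∃ t, chk3 (onCell 0 67108864 0 1073741824 587336777 62277027 (corT true 1 c0B cA022E gB0q0 gB4q2 gB3q2 gB4q2 true true)) t 1 1 1 = true :=
  ⟨(T.l 2), by decide +kernel⟩

def A022E_044 :
    ∃ t, chk3 (onCell 0 67108864 0 1073741824 587336777 62277027 (corT true 1 c0B cA022E gB0q0 gB4q2 gB4q2 gB5q2 true false)) t 1 1 1 = true :=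
  ⟨(T.b (T.b (T.a (T.a (T.l 204) (T.a (T.l 204) (T.b (T.l 204) (T.l 204)))) (T.a (T.a (T.b (T.l 204) (T.l 204)) (T.l 220)) (T.b (T.l 220) (T.l 204)))) (T.a (T.a (T.l 204) (T.l 256)) (T.a (T.a (T.l 204) (T.l 0)) (T.b (T.l 204) (T.l 0))))) (T.b (T.b (T.a (T.a (T.l 204) (T.l 0)) (T.a (T.l 0) (T.l 0))) (T.a (T.a (T.l 0) (T.l 0)) (T.l 0))) (T.a (T.a (T.l 816) (T.a (T.l 816) (T.l 0))) (T.a (T.c (T.l 0) (T.l 0)) (T.b (T.l 0) (T.l 816)))))), by decide +kernel⟩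

def A022E_110 :
    ∃ t, chk3 (onCell 0 67108864 0 1073741824 587336777 62277027 (corT true 1 c0B cA022E gB1q0 gB1q2 gB0q2 gB1q2 true true)) t 1 1 1 = true :=
  ⟨(T.l 2), by decide +kernel⟩

def A022E_111 :
    ∃ t, chk3 (onCell 0 67108864 0 1073741824 587336777 62277027 (corT true 1 c0B cA022E gB1q0 gB1q2 gB1q2 gB2q2 true true)) t 1 1 1 = true :=
  ⟨(T.l 2), by decide +kernel⟩

def A022E_112 :
    ∃ t, chk3 (onCell 0 67108864 0 1073741824 587336777 62277027 (corT true 1 c0B cA022E gB1q0 gB1q2 gB2q2 gB3q2 true true)) t 1 1 1 = true :=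
  ⟨(T.l 2), by decide +kernel⟩

def A022E_113 :
    ∃ t, chk3 (onCell 0 67108864 0 1073741824 587336777 62277027 (corT true 1 c0B cA022E gB1q0 gB1q2 gB3q2 gB4q2 true true)) t 1 1 1 = true :=
  ⟨(T.l 2), by decide +kernel⟩

def A022E_114 :
    ∃ t, chk3 (onCell 0 67108864 0 1073741824 587336777 62277027 (corT true 1 c0B cA022E gB1q0 gB1q2 gB4q2 gB5q2 true false)) t 1 1 1 = true :=
  ⟨(T.b (T.b (T.a (T.a (T.l 204) (T.a (T.l 204) (T.a (T.l 204) (T.b (T.l 204) (T.l 204))))) (T.a (T.a (T.b (T.b (T.l 204) (T.l 204)) (T.l 204)) (T.b (T.l 204) (T.l 204))) (T.b (T.a (T.l 204) (T.l 204)) (T.b (T.l 204) (T.l 204))))) (T.a (T.a (T.l 204) (T.l 0)) (T.a (T.a (T.l 204) (T.b (T.l 204) (T.l 204))) (T.b (T.b (T.l 204) (T.l 0)) (T.l 0))))) (T.b (T.b (T.a (T.a (T.l 0) (T.l 0)) (T.a (T.l 0) (T.l 0))) (T.a (T.a (T.l 0) (T.l 0)) (T.l 0))) (T.a (T.a (T.l 816) (T.c (T.l 0)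 (T.l 0))) (T.a (T.l 0) (T.l 816))))), by decide +kernel⟩

def A022E_120 :
    ∃ t, chk3 (onCell 0 67108864 0 1073741824 587336777 62277027 (corT true 1 c0B cA022E gB1q0 gB2q2 gB0q2 gB1q2 true true)) t 1 1 1 = true :=
  ⟨(T.l 2), by decide +kernel⟩

def A022E_121 :
    ∃ t, chk3 (onCell 0 67108864 0 1073741824 587336777 62277027 (corT true 1 c0B cA022E gB1q0 gB2q2 gB1q2 gB2q2 true true)) t 1 1 1 = true :=
  ⟨(T.l 2), by decide +kernel⟩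

def A022E_122 :
    ∃ t, chk3 (onCell 0 67108864 0 1073741824 587336777 62277027 (corT true 1 c0B cA022E gB1q0 gB2q2 gB2q2 gB3q2 true true)) t 1 1 1 = true :=
  ⟨(T.l 2), by decide +kernel⟩

def A022E_123 :
    ∃ t, chk3 (onCell 0 67108864 0 1073741824 587336777 62277027 (corT true 1 c0B cA022E gB1q0 gB2q2 gB3q2 gB4q2 true true)) t 1 1 1 = true :=
  ⟨(T.l 2), by decide +kernel⟩

def A022E_124 :
    ∃ t, chk3 (onCell 0 67108864 0 1073741824 587336777 62277027 (corT true 1 c0B cA022E gB1q0 gB2q2 gB4q2 gB5q2 true false)) t 1 1 1 = true :=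
  ⟨(T.b (T.b (T.a (T.a (T.l 204) (T.a (T.l 204) (T.a (T.l 204) (T.b (T.l 204) (T.l 204))))) (T.a (T.a (T.b (T.b (T.l 204) (T.l 204)) (T.l 204)) (T.b (T.l 204) (T.l 204))) (T.b (T.a (T.l 204) (T.l 204)) (T.b (T.l 204) (T.l 204))))) (T.a (T.a (T.l 204) (T.l 0)) (T.a (T.a (T.l 204) (T.b (T.l 204) (T.l 204))) (T.b (T.l 0) (T.l 0))))) (T.b (T.b (T.a (T.a (T.l 0) (T.l 0)) (T.a (T.l 0) (T.l 0))) (T.a (T.a (T.l 0) (T.l 0)) (T.l 0))) (T.a (T.a (T.l 816) (T.c (T.l 0) (T.l 0))) (T.a (T.l 0) (T.l 816))))), by decide +kernel⟩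

def A022E_130 :
    ∃ t, chk3 (onCell 0 67108864 0 1073741824 587336777 62277027 (corT true 1 c0B cA022E gB1q0 gB3q2 gB0q2 gB1q2 true true)) t 1 1 1 = true :=
  ⟨(T.l 2), by decide +kernel⟩

def A022E_131 :
    ∃ t, chk3 (onCell 0 67108864 0 1073741824 587336777 62277027 (corT true 1 c0B cA022E gB1q0 gB3q2 gB1q2 gB2q2 true true)) t 1 1 1 = true :=
  ⟨(T.l 2), by decide +kernel⟩

def A022E_132 :
    ∃ t, chk3 (onCell 0 67108864 0 1073741824 587336777 62277027 (corT true 1 c0B cA022E gB1q0 gB3q2 gB2q2 gB3q2 true true)) t 1 1 1 = true :=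
  ⟨(T.l 2), by decide +kernel⟩

def A022E_133 :
    ∃ t, chk3 (onCell 0 67108864 0 1073741824 587336777 62277027 (corT true 1 c0B cA022E gB1q0 gB3q2 gB3q2 gB4q2 true true)) t 1 1 1 = true :=
  ⟨(T.l 2), by decide +kernel⟩

def A022E_134 :
    ∃ t, chk3 (onCell 0 67108864 0 1073741824 587336777 62277027 (corT true 1 c0B cA022E gB1q0 gB3q2 gB4q2 gB5q2 true false)) t 1 1 1 = true :=
  ⟨(T.b (T.b (T.a (T.a (T.l 204) (T.a (T.l 204) (T.a (T.l 204) (T.b (T.l 204) (T.l 204))))) (T.a (T.a (T.b (T.b (T.l 204) (T.l 204)) (T.l 204)) (T.b (T.l 204) (T.l 204))) (T.b (T.a (T.l 204) (T.l 204)) (T.b (T.l 204) (T.l 204))))) (T.a (T.a (T.l 204) (T.l 0)) (T.a (T.a (T.l 204) (T.b (T.l 204) (T.l 204))) (T.b (T.l 204) (T.l 0))))) (T.b (T.b (T.a (T.a (T.l 0) (T.l 0)) (T.a (T.l 0) (T.l 0))) (T.a (T.a (T.l 0) (T.l 0)) (T.l 0))) (T.a (T.a (T.l 816) (T.c (T.l 0) (T.l 0))) (T.a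 (T.l 0) (T.l 816))))), by decide +kernel⟩

def A022E_140 :
    ∃ t, chk3 (onCell 0 67108864 0 1073741824 587336777 62277027 (corT true 1 c0B cA022E gB1q0 gB4q2 gB0q2 gB1q2 true true)) t 1 1 1 = true :=
  ⟨(T.l 2), by decide +kernel⟩

def A022E_141 :
    ∃ t, chk3 (onCell 0 67108864 0 1073741824 587336777 62277027 (corT true 1 c0B cA022E gB1q0 gB4q2 gB1q2 gB2q2 true true)) t 1 1 1 = true :=
  ⟨(T.l 2), by decide +kernel⟩

def A022E_142 :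
    ∃ t, chk3 (onCell 0 67108864 0 1073741824 587336777 62277027 (corT true 1 c0B cA022E gB1q0 gB4q2 gB2q2 gB3q2 true true)) t 1 1 1 = true :=
  ⟨(T.l 2), by decide +kernel⟩

def A022E_143 :
    ∃ t, chk3 (onCell 0 67108864 0 1073741824 587336777 62277027 (corT true 1 c0B cA022E gB1q0 gB4q2 gB3q2 gB4q2 true true)) t 1 1 1 = true :=
  ⟨(T.l 2), by decide +kernel⟩

def A022E_144 :
    ∃ t, chk3 (onCell 0 67108864 0 1073741824 587336777 62277027 (corT true 1 c0B cA022E gB1q0 gB4q2 gB4q2 gB5q2 true false)) t 1 1 1 = true :=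
  ⟨(T.b (T.b (T.a (T.a (T.l 204) (T.a (T.l 204) (T.b (T.l 204) (T.l 204)))) (T.a (T.a (T.b (T.l 204) (T.l 204)) (T.l 204)) (T.b (T.l 204) (T.l 204)))) (T.a (T.a (T.l 204) (T.l 0)) (T.a (T.b (T.l 204) (T.l 204)) (T.b (T.l 204) (T.l 0))))) (T.b (T.a (T.a (T.l 0) (T.l 0)) (T.a (T.l 0) (T.b (T.l 0) (T.l 0)))) (T.a (T.a (T.l 816) (T.c (T.l 0) (T.l 0))) (T.a (T.l 0) (T.l 816))))), by decide +kernel⟩

def A022E_220 :
    ∃ t, chk3 (onCell 0 67108864 0 1073741824 587336777 62277027 (corT true 1 c0B cA022E gB2q0 gB2q2 gB0q2 gB1q2 true true)) t 1 1 1 = true :=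
  ⟨(T.l 2), by decide +kernel⟩

def A022E_221 :
    ∃ t, chk3 (onCell 0 67108864 0 1073741824 587336777 62277027 (corT true 1 c0B cA022E gB2q0 gB2q2 gB1q2 gB2q2 true true)) t 1 1 1 = true :=
  ⟨(T.l 2), by decide +kernel⟩

def A022E_222 :
    ∃ t, chk3 (onCell 0 67108864 0 1073741824 587336777 62277027 (corT true 1 c0B cA022E gB2q0 gB2q2 gB2q2 gB3q2 true true)) t 1 1 1 = true :=
  ⟨(T.l 2), by decide +kernel⟩

def A022E_223 :
    ∃ t, chk3 (onCell 0 67108864 0 1073741824 587336777 62277027 (corT true 1 c0B cA022E gB2q0 gB2q2 gB3q2 gB4q2 true true)) t 1 1 1 = true :=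
  ⟨(T.l 2), by decide +kernel⟩

def A022E_224 :
    ∃ t, chk3 (onCell 0 67108864 0 1073741824 587336777 62277027 (corT true 1 c0B cA022E gB2q0 gB2q2 gB4q2 gB5q2 true false)) t 1 1 1 = true :=
  ⟨(T.b (T.b (T.a (T.a (T.l 204) (T.a (T.l 204) (T.a (T.l 204) (T.b (T.l 204) (T.l 204))))) (T.a (T.a (T.b (T.b (T.l 204) (T.l 204)) (T.l 204)) (T.b (T.l 204) (T.l 204))) (T.b (T.a (T.l 204) (T.l 204)) (T.l 204)))) (T.a (T.a (T.l 0) (T.l 0)) (T.a (T.b (T.l 0) (T.l 0)) (T.b (T.l 0) (T.l 0))))) (T.b (T.b (T.a (T.a (T.l 0) (T.l 0)) (T.a (T.l 0) (T.l 0))) (T.a (T.a (T.l 0) (T.l 0)) (T.l 0))) (T.a (T.a (T.l 816) (T.l 0)) (T.l 0)))), by decide +kernel⟩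

def A022E_230 :
    ∃ t, chk3 (onCell 0 67108864 0 1073741824 587336777 62277027 (corT true 1 c0B cA022E gB2q0 gB3q2 gB0q2 gB1q2 true true)) t 1 1 1 = true :=
  ⟨(T.l 2), by decide +kernel⟩

def A022E_231 :
    ∃ t, chk3 (onCell 0 67108864 0 1073741824 587336777 62277027 (corT true 1 c0B cA022E gB2q0 gB3q2 gB1q2 gB2q2 true true)) t 1 1 1 = true :=
  ⟨(T.l 2), by decide +kernel⟩

def A022E_232 :
    ∃ t, chk3 (onCell 0 67108864 0 1073741824 587336777 62277027 (corT true 1 c0B cA022E gB2q0 gB3q2 gB2q2 gB3q2 true true)) t 1 1 1 = true :=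
  ⟨(T.l 2), by decide +kernel⟩

def A022E_233 :
    ∃ t, chk3 (onCell 0 67108864 0 1073741824 587336777 62277027 (corT true 1 c0B cA022E gB2q0 gB3q2 gB3q2 gB4q2 true true)) t 1 1 1 = true :=
  ⟨(T.l 2), by decide +kernel⟩

def A022E_234 :
    ∃ t, chk3 (onCell 0 67108864 0 1073741824 587336777 62277027 (corT true 1 c0B cA022E gB2q0 gB3q2 gB4q2 gB5q2 true false)) t 1 1 1 = true :=
  ⟨(T.b (T.b (T.a (T.a (T.l 204) (T.a (T.l 204) (T.a (T.l 204) (T.b (T.l 204) (T.l 204))))) (T.a (T.a (T.b (T.b (T.l 204) (T.l 204)) (T.l 204)) (T.b (T.l 204) (T.l 204))) (T.b (T.a (T.l 204) (T.l 204)) (T.l 204)))) (T.a (T.a (T.l 204) (T.l 0)) (T.a (T.b (T.l 0) (T.l 0)) (T.b (T.l 0) (T.l 0))))) (T.b (T.b (T.a (T.a (T.l 0) (T.l 0)) (T.a (T.l 0) (T.l 0))) (T.a (T.a (T.l 0) (T.l 0)) (T.l 0))) (T.a (T.a (T.l 816) (T.l 0)) (T.l 0)))), by decide +kernel⟩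

def A022E_240 :
    ∃ t, chk3 (onCell 0 67108864 0 1073741824 587336777 62277027 (corT true 1 c0B cA022E gB2q0 gB4q2 gB0q2 gB1q2 true true)) t 1 1 1 = true :=
  ⟨(T.l 2), by decide +kernel⟩

def A022E_241 :
    ∃ t, chk3 (onCell 0 67108864 0 1073741824 587336777 62277027 (corT true 1 c0B cA022E gB2q0 gB4q2 gB1q2 gB2q2 true true)) t 1 1 1 = true :=
  ⟨(T.l 2), by decide +kernel⟩

def A022E_242 :
    ∃ t, chk3 (onCell 0 67108864 0 1073741824 587336777 62277027 (corT true 1 c0B cA022E gB2q0 gB4q2 gB2q2 gB3q2 true true)) t 1 1 1 = true :=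
  ⟨(T.l 2), by decide +kernel⟩

def A022E_243 :
    ∃ t, chk3 (onCell 0 67108864 0 1073741824 587336777 62277027 (corT true 1 c0B cA022E gB2q0 gB4q2 gB3q2 gB4q2 true true)) t 1 1 1 = true :=
  ⟨(T.l 2), by decide +kernel⟩

def A022E_244 :
    ∃ t, chk3 (onCell 0 67108864 0 1073741824 587336777 62277027 (corT true 1 c0B cA022E gB2q0 gB4q2 gB4q2 gB5q2 true false)) t 1 1 1 = true :=
  ⟨(T.b (T.a (T.a (T.l 0) (T.a (T.l 0) (T.b (T.b (T.l 204) (T.l 204)) (T.l 0)))) (T.b (T.a (T.a (T.b (T.l 204) (T.l 204)) (T.l 204)) (T.b (T.l 204) (T.l 204))) (T.a (T.b (T.l 0) (T.l 0)) (T.l 0)))) (T.b (T.a (T.a (T.l 0) (T.l 0)) (T.a (T.l 0) (T.l 64))) (T.a (T.a (T.l 816) (T.l 0)) (T.l 0)))), by decide +kernel⟩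

def A022E_330 :
    ∃ t, chk3 (onCell 0 67108864 0 1073741824 587336777 62277027 (corT true 1 c0B cA022E gB3q0 gB3q2 gB0q2 gB1q2 true true)) t 1 1 1 = true :=
  ⟨(T.l 2), by decide +kernel⟩

def A022E_331 :
    ∃ t, chk3 (onCell 0 67108864 0 1073741824 587336777 62277027 (corT true 1 c0B cA022E gB3q0 gB3q2 gB1q2 gB2q2 true true)) t 1 1 1 = true :=
  ⟨(T.l 2), by decide +kernel⟩

def A022E_332 :
    ∃ t, chk3 (onCell 0 67108864 0 1073741824 587336777 62277027 (corT true 1 c0B cA022E gB3q0 gB3q2 gB2q2 gB3q2 true true)) t 1 1 1 = true :=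
  ⟨(T.l 2), by decide +kernel⟩

def A022E_333 :
    ∃ t, chk3 (onCell 0 67108864 0 1073741824 587336777 62277027 (corT true 1 c0B cA022E gB3q0 gB3q2 gB3q2 gB4q2 true true)) t 1 1 1 = true :=
  ⟨(T.l 2), by decide +kernel⟩

def A022E_334 :
    ∃ t, chk3 (onCell 0 67108864 0 1073741824 587336777 62277027 (corT true 1 c0B cA022E gB3q0 gB3q2 gB4q2 gB5q2 true false)) t 1 1 1 = true :=
  ⟨(T.b (T.b (T.a (T.a (T.l 204) (T.a (T.l 204) (T.a (T.l 204) (T.b (T.l 204) (T.l 204))))) (T.a (T.b (T.a (T.b (T.l 204) (T.l 204)) (T.l 204)) (T.b (T.l 204) (T.l 204))) (T.b (T.a (T.l 204) (T.l 204)) (T.l 204)))) (T.a (T.a (T.l 0) (T.l 0)) (T.a (T.b (T.l 0) (T.l 0)) (T.b (T.l 0) (T.l 0))))) (T.b (T.b (T.a (T.a (T.l 0) (T.l 0)) (T.b (T.l 0) (T.l 0))) (T.a (T.a (T.l 816) (T.l 0)) (T.l 0))) (T.a (T.a (T.l 816) (T.l 816)) (T.l 816)))), by decide +kernel⟩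

def A022E_340 :
    ∃ t, chk3 (onCell 0 67108864 0 1073741824 587336777 62277027 (corT true 1 c0B cA022E gB3q0 gB4q2 gB0q2 gB1q2 true true)) t 1 1 1 = true :=
  ⟨(T.l 2), by decide +kernel⟩

def A022E_341 :
    ∃ t, chk3 (onCell 0 67108864 0 1073741824 587336777 62277027 (corT true 1 c0B cA022E gB3q0 gB4q2 gB1q2 gB2q2 true true)) t 1 1 1 = true :=
  ⟨(T.l 2), by decide +kernel⟩

def A022E_342 :
    ∃ t, chk3 (onCell 0 67108864 0 1073741824 587336777 62277027 (corT true 1 c0B cA022E gB3q0 gB4q2 gB2q2 gB3q2 true true)) t 1 1 1 = true :=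
  ⟨(T.l 2), by decide +kernel⟩

def A022E_343 :
    ∃ t, chk3 (onCell 0 67108864 0 1073741824 587336777 62277027 (corT true 1 c0B cA022E gB3q0 gB4q2 gB3q2 gB4q2 true true)) t 1 1 1 = true :=
  ⟨(T.l 2), by decide +kernel⟩

def A022E_344 :
    ∃ t, chk3 (onCell 0 67108864 0 1073741824 587336777 62277027 (corT true 1 c0B cA022E gB3q0 gB4q2 gB4q2 gB5q2 true false)) t 1 1 1 = true :=
  ⟨(T.b (T.b (T.a (T.a (T.l 204) (T.a (T.l 204) (T.b (T.l 204) (T.l 204)))) (T.a (T.a (T.b (T.l 204) (T.l 204)) (T.l 220)) (T.b (T.l 220) (T.l 204)))) (T.a (T.a (T.l 0) (T.l 0)) (T.a (T.b (T.l 0) (T.l 0)) (T.l 0)))) (T.b (T.a (T.a (T.l 0) (T.l 0)) (T.b (T.l 0) (T.l 0))) (T.a (T.a (T.l 816) (T.l 816)) (T.l 816)))), by decide +kernel⟩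

def A022E_440 :
    ∃ t, chk3 (onCell 0 67108864 0 1073741824 587336777 62277027 (corT true 1 c0B cA022E gB4q0 gB4q2 gB0q2 gB1q2 true true)) t 1 1 1 = true :=
  ⟨(T.l 2), by decide +kernel⟩

def A022E_441 :
    ∃ t, chk3 (onCell 0 67108864 0 1073741824 587336777 62277027 (corT true 1 c0B cA022E gB4q0 gB4q2 gB1q2 gB2q2 true true)) t 1 1 1 = true :=
  ⟨(T.l 2), by decide +kernel⟩

def A022E_442 :
    ∃ t, chk3 (onCell 0 67108864 0 1073741824 587336777 62277027 (corT true 1 c0B cA022E gB4q0 gB4q2 gB2q2 gB3q2 true true)) t 1 1 1 = true :=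
  ⟨(T.l 2), by decide +kernel⟩

def A022E_443 :
    ∃ t, chk3 (onCell 0 67108864 0 1073741824 587336777 62277027 (corT true 1 c0B cA022E gB4q0 gB4q2 gB3q2 gB4q2 true true)) t 1 1 1 = true :=
  ⟨(T.l 2), by decide +kernel⟩

def A022E_444 :
    ∃ t, chk3 (onCell 0 67108864 0 1073741824 587336777 62277027 (corT true 1 c0B cA022E gB4q0 gB4q2 gB4q2 gB5q2 true false)) t 1 1 1 = true :=
  ⟨(T.b (T.b (T.a (T.a (T.l 204) (T.a (T.l 204) (T.b (T.l 204) (T.l 204)))) (T.a (T.b (T.a (T.l 204) (T.l 204)) (T.l 0)) (T.a (T.l 0) (T.l 16)))) (T.a (T.a (T.l 0) (T.l 0)) (T.b (T.l 256) (T.l 0)))) (T.b (T.a (T.a (T.l 816) (T.l 0)) (T.b (T.l 0) (T.l 816))) (T.a (T.a (T.l 816) (T.l 816)) (T.l 816)))), by decide +kernel⟩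

def A022L_006 :
    ∃ t, chk3 (onCell 0 67108864 0 1073741824 587336777 62277027 (corX 1 c0B cA022L tA022L gB0q0 gB0q2 gB6q2 gB7q2 gB7q2 false true)) t 1 1 1 = true :=
  ⟨(T.b (T.b (T.b (T.a (T.a (T.l 207) (T.a (T.l 207) (T.b (T.l 204) (T.l 207)))) (T.a (T.a (T.a (T.l 204) (T.b (T.l 204) (T.l 204))) (T.a (T.b (T.l 204) (T.l 204)) (T.l 204))) (T.a (T.b (T.l 204) (T.l 204)) (T.b (T.l 204) (T.l 204))))) (T.a (T.a (T.l 207) (T.l 207)) (T.a (T.a (T.b (T.l 204) (T.l 204)) (T.b (T.b (T.l 204) (T.l 204)) (T.b (T.l 204) (T.l 204)))) (T.a (T.b (T.l 204) (T.l 204)) (T.b (T.l 204) (T.l 204)))))) (T.a (T.a (T.b (T.l 207) (T.l 207)) (T.b (T.l 207) (T.l 207))) (T.a (T.b (T.a (T.l 207) (T.b (T.l 204) (T.l 204))) (T.l 207)) (T.b (T.a (T.b (T.l 220) (T.b (T.l 204) (T.l 204))) (T.b (T.l 204) (T.l 220))) (T.b (T.a (T.l 204) (T.b (T.l 204) (T.l 204))) (T.a (T.l 207) (T.l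 204))))))) (T.b (T.a (T.a (T.b (T.l 207) (T.l 207)) (T.b (T.l 207) (T.l 207))) (T.a (T.l 223) (T.b (T.b (T.a (T.l 207) (T.b (T.l 204) (T.l 207))) (T.l 207)) (T.l 207)))) (T.l 2))), by decide +kernel⟩

def A022L_016 :
    ∃ t, chk3 (onCell 0 67108864 0 1073741824 587336777 62277027 (corT true 1 c0B cA022L gB0q0 gB1q2 gB6q2 gB7q2 false true)) t 1 1 1 = true :=
  ⟨(T.b (T.b (T.b (T.a (T.a (T.l 204) (T.a (T.l 204) (T.b (T.l 204) (T.l 204)))) (T.a (T.a (T.b (T.l 204) (T.l 204)) (T.l 204)) (T.a (T.l 204) (T.b (T.l 204) (T.l 204))))) (T.a (T.l 204) (T.a (T.a (T.b (T.l 204) (T.l 204)) (T.b (T.l 204) (T.l 204))) (T.b (T.l 204) (T.l 220))))) (T.a (T.b (T.l 204) (T.b (T.l 204) (T.l 204))) (T.a (T.b (T.a (T.l 204) (T.b (T.l 204) (T.l 204))) (T.l 204)) (T.b (T.a (T.b (T.l 204) (T.l 204)) (T.l 220)) (T.b (T.b (T.l 204) (T.l 204)) (T.a (T.l 204) (T.l 204))))))) (T.b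 (T.b (T.a (T.b (T.l 204) (T.a (T.l 204) (T.l 0))) (T.a (T.b (T.l 204) (T.l 0)) (T.b (T.a (T.l 204) (T.l 204)) (T.l 0)))) (T.b (T.b (T.a (T.b (T.a (T.l 0) (T.l 0)) (T.a (T.l 2) (T.b (T.l 816) (T.l 2)))) (T.b (T.l 0) (T.b (T.a (T.l 816) (T.l 0)) (T.l 2)))) (T.l 2)) (T.l 2))) (T.l 2))), by decide +kernel⟩

def A022L_026 :
    ∃ t, chk3 (onCell 0 67108864 0 1073741824 587336777 62277027 (corT true 1 c0B cA022L gB0q0 gB2q2 gB6q2 gB7q2 false true)) t 1 1 1 = true :=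
  ⟨(T.b (T.b (T.b (T.a (T.a (T.l 204) (T.a (T.l 204) (T.l 204))) (T.a (T.b (T.l 204) (T.l 204)) (T.b (T.l 204) (T.l 204)))) (T.a (T.l 204) (T.a (T.b (T.l 0) (T.l 0)) (T.l 16)))) (T.a (T.b (T.l 204) (T.l 204)) (T.a (T.b (T.a (T.l 204) (T.l 0)) (T.l 204)) (T.b (T.b (T.l 0) (T.l 0)) (T.b (T.l 0) (T.l 0)))))) (T.b (T.b (T.b (T.a (T.l 0) (T.a (T.l 0) (T.b (T.l 0) (T.l 0)))) (T.b (T.a (T.l 0) (T.l 0)) (T.l 2))) (T.l 2)) (T.l 2))), by decide +kernel⟩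

def A022L_036 :
    ∃ t, chk3 (onCell 0 67108864 0 1073741824 587336777 62277027 (corT true 1 c0B cA022L gB0q0 gB3q2 gB6q2 gB7q2 false true)) t 1 1 1 = true :=
  ⟨(T.b (T.b (T.b (T.a (T.a (T.l 204) (T.a (T.l 204) (T.l 204))) (T.a (T.l 0) (T.l 0))) (T.a (T.l 204) (T.a (T.b (T.l 0) (T.l 0)) (T.l 0)))) (T.a (T.l 0) (T.b (T.a (T.b (T.l 0) (T.l 0)) (T.l 0)) (T.a (T.l 0) (T.b (T.l 0) (T.l 0)))))) (T.l 2)), by decide +kernel⟩

def A022L_046 :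
    ∃ t, chk3 (onCell 0 67108864 0 1073741824 587336777 62277027 (corT true 1 c0B cA022L gB0q0 gB4q2 gB6q2 gB7q2 false true)) t 1 1 1 = true :=
  ⟨(T.l 2), by decide +kernel⟩

def A022L_116 :
    ∃ t, chk3 (onCell 0 67108864 0 1073741824 587336777 62277027 (corT true 1 c0B cA022L gB1q0 gB1q2 gB6q2 gB7q2 false true)) t 1 1 1 = true :=
  ⟨(T.b (T.b (T.b (T.a (T.a (T.l 204) (T.a (T.l 204) (T.b (T.l 204) (T.l 204)))) (T.a (T.a (T.b (T.l 204) (T.l 204)) (T.l 204)) (T.a (T.l 204) (T.l 204)))) (T.a (T.l 204) (T.a (T.a (T.l 204) (T.l 204)) (T.b (T.l 204) (T.l 204))))) (T.a (T.l 204) (T.a (T.b (T.a (T.l 204) (T.l 204)) (T.l 204)) (T.b (T.b (T.l 204) (T.l 0)) (T.b (T.l 0) (T.l 0)))))) (T.b (T.b (T.a (T.l 0) (T.a (T.l 0) (T.b (T.l 0) (T.l 0)))) (T.l 2)) (T.l 2))), by decide +kernel⟩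

def A022L_126 :
    ∃ t, chk3 (onCell 0 67108864 0 1073741824 587336777 62277027 (corT true 1 c0B cA022L gB1q0 gB2q2 gB6q2 gB7q2 false true)) t 1 1 1 = true :=
  ⟨(T.b (T.b (T.b (T.a (T.a (T.l 204) (T.a (T.l 204) (T.l 204))) (T.a (T.b (T.l 204) (T.l 204)) (T.l 16))) (T.a (T.l 204) (T.a (T.b (T.l 0) (T.l 0)) (T.l 0)))) (T.a (T.l 0) (T.a (T.b (T.b (T.l 0) (T.l 0)) (T.l 0)) (T.b (T.l 0) (T.b (T.l 0) (T.l 0)))))) (T.b (T.b (T.a (T.l 0) (T.b (T.a (T.l 0) (T.l 0)) (T.l 2))) (T.l 2)) (T.l 2))), by decide +kernel⟩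

def A022L_136 :
    ∃ t, chk3 (onCell 0 67108864 0 1073741824 587336777 62277027 (corT true 1 c0B cA022L gB1q0 gB3q2 gB6q2 gB7q2 false true)) t 1 1 1 = true :=
  ⟨(T.b (T.b (T.b (T.a (T.a (T.l 204) (T.a (T.l 204) (T.l 204))) (T.a (T.l 0) (T.l 0))) (T.a (T.l 204) (T.a (T.l 0) (T.l 0)))) (T.a (T.l 0) (T.b (T.a (T.b (T.l 0) (T.l 0)) (T.l 0)) (T.a (T.l 0) (T.b (T.l 0) (T.l 2)))))) (T.l 2)), by decide +kernel⟩

def A022L_146 :
    ∃ t, chk3 (onCell 0 67108864 0 1073741824 587336777 62277027 (corT true 1 c0B cA022L gB1q0 gB4q2 gB6q2 gB7q2 false true)) t 1 1 1 = true :=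
  ⟨(T.l 2), by decide +kernel⟩

def A022L_226 :
    ∃ t, chk3 (onCell 0 67108864 0 1073741824 587336777 62277027 (corT true 1 c0B cA022L gB2q0 gB2q2 gB6q2 gB7q2 false true)) t 1 1 1 = true :=
  ⟨(T.b (T.b (T.b (T.a (T.a (T.l 204) (T.a (T.l 204) (T.l 204))) (T.a (T.b (T.l 204) (T.l 0)) (T.l 0))) (T.a (T.l 204) (T.a (T.l 0) (T.l 0)))) (T.a (T.l 0) (T.b (T.a (T.l 0) (T.l 0)) (T.a (T.l 0) (T.l 0))))) (T.l 2)), by decide +kernel⟩

def A022L_236 :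
    ∃ t, chk3 (onCell 0 67108864 0 1073741824 587336777 62277027 (corT true 1 c0B cA022L gB2q0 gB3q2 gB6q2 gB7q2 false true)) t 1 1 1 = true :=
  ⟨(T.b (T.b (T.b (T.a (T.a (T.l 204) (T.a (T.l 204) (T.l 0))) (T.a (T.l 0) (T.l 0))) (T.a (T.l 204) (T.a (T.l 0) (T.l 0)))) (T.b (T.a (T.l 0) (T.a (T.l 0) (T.l 0))) (T.l 2))) (T.l 2)), by decide +kernel⟩

def A022L_246 :
    ∃ t, chk3 (onCell 0 67108864 0 1073741824 587336777 62277027 (corT true 1 c0B cA022L gB2q0 gB4q2 gB6q2 gB7q2 false true)) t 1 1 1 = true :=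
  ⟨(T.l 2), by decide +kernel⟩

def A022L_336 :
    ∃ t, chk3 (onCell 0 67108864 0 1073741824 587336777 62277027 (corT true 1 c0B cA022L gB3q0 gB3q2 gB6q2 gB7q2 false true)) t 1 1 1 = true :=
  ⟨(T.b (T.b (T.b (T.a (T.a (T.l 204) (T.a (T.l 204) (T.l 0))) (T.a (T.l 0) (T.l 0))) (T.a (T.l 0) (T.a (T.l 0) (T.l 0)))) (T.b (T.a (T.l 0) (T.a (T.l 0) (T.l 0))) (T.l 2))) (T.l 2)), by decide +kernel⟩

def A022L_346 :
    ∃ t, chk3 (onCell 0 67108864 0 1073741824 587336777 62277027 (corT true 1 c0B cA022L gB3q0 gB4q2 gB6q2 gB7q2 false true)) t 1 1 1 = true :=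
  ⟨(T.l 2), by decide +kernel⟩

def A022L_446 :
    ∃ t, chk3 (onCell 0 67108864 0 1073741824 587336777 62277027 (corT true 1 c0B cA022L gB4q0 gB4q2 gB6q2 gB7q2 false true)) t 1 1 1 = true :=
  ⟨(T.l 2), by decide +kernel⟩

def A022R_070 :
    ∃ t, chk3 (onCell 0 67108864 0 1073741824 587336777 62277027 (corT true 1 c0B cA022R gB0q0 gB7q2 gB0q2 gB1q2 true true)) t 1 1 1 = true :=
  ⟨(T.l 2), by decide +kernel⟩

def A022R_071 :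
    ∃ t, chk3 (onCell 0 67108864 0 1073741824 587336777 62277027 (corT true 1 c0B cA022R gB0q0 gB7q2 gB1q2 gB2q2 true true)) t 1 1 1 = true :=
  ⟨(T.l 2), by decide +kernel⟩

def A022R_072 :
    ∃ t, chk3 (onCell 0 67108864 0 1073741824 587336777 62277027 (corT true 1 c0B cA022R gB0q0 gB7q2 gB2q2 gB3q2 true true)) t 1 1 1 = true :=
  ⟨(T.l 2), by decide +kernel⟩

def A022R_073 :
    ∃ t, chk3 (onCell 0 67108864 0 1073741824 587336777 62277027 (corT true 1 c0B cA022R gB0q0 gB7q2 gB3q2 gB4q2 true true)) t 1 1 1 = true :=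
  ⟨(T.b (T.b (T.b (T.b (T.a (T.a (T.l 204) (T.a (T.l 204) (T.l 0))) (T.a (T.l 0) (T.l 0))) (T.a (T.a (T.l 204) (T.a (T.l 204) (T.l 0))) (T.a (T.l 0) (T.l 0)))) (T.b (T.a (T.a (T.l 0) (T.a (T.l 0) (T.l 0))) (T.a (T.l 0) (T.l 0))) (T.a (T.a (T.l 0) (T.a (T.l 816) (T.l 0))) (T.a (T.l 0) (T.l 0))))) (T.b (T.b (T.a (T.a (T.l 816) (T.a (T.l 816) (T.l 0))) (T.a (T.l 0) (T.l 0))) (T.a (T.a (T.l 816) (T.a (T.l 816) (T.l 816))) (T.a (T.l 0) (T.l 816)))) (T.a (T.a (T.l 816) (T.b (T.l 2) (T.l 2))) (T.l 2)))) (T.l 2)), by decide +kernel⟩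

def A022R_074 :
    ∃ t, chk3 (onCell 0 67108864 0 1073741824 587336777 62277027 (corT true 1 c0B cA022R gB0q0 gB7q2 gB4q2 gB5q2 true false)) t 1 1 1 = true :=
  ⟨(T.b (T.a (T.a (T.l 0) (T.l 0)) (T.l 0)) (T.a (T.a (T.l 816) (T.l 816)) (T.a (T.l 816) (T.l 816)))), by decide +kernel⟩

def A022R_170 :
    ∃ t, chk3 (onCell 0 67108864 0 1073741824 587336777 62277027 (corT true 1 c0B cA022R gB1q0 gB7q2 gB0q2 gB1q2 true true)) t 1 1 1 = true :=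
  ⟨(T.l 2), by decide +kernel⟩

def A022R_171 :
    ∃ t, chk3 (onCell 0 67108864 0 1073741824 587336777 62277027 (corT true 1 c0B cA022R gB1q0 gB7q2 gB1q2 gB2q2 true true)) t 1 1 1 = true :=
  ⟨(T.l 2), by decide +kernel⟩

def A022R_172 :
    ∃ t, chk3 (onCell 0 67108864 0 1073741824 587336777 62277027 (corT true 1 c0B cA022R gB1q0 gB7q2 gB2q2 gB3q2 true true)) t 1 1 1 = true :=
  ⟨(T.l 2), by decide +kernel⟩

def A022R_173 :
    ∃ t, chk3 (onCell 0 67108864 0 1073741824 587336777 62277027 (corT true 1 c0B cA022R gB1q0 gB7q2 gB3q2 gB4q2 true true)) t 1 1 1 = true :=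
  ⟨(T.b (T.b (T.b (T.b (T.a (T.a (T.l 204) (T.a (T.l 204) (T.l 0))) (T.a (T.l 0) (T.l 0))) (T.a (T.a (T.l 204) (T.a (T.l 204) (T.l 0))) (T.a (T.l 0) (T.l 0)))) (T.a (T.a (T.l 0) (T.a (T.l 0) (T.l 0))) (T.a (T.l 0) (T.l 0)))) (T.b (T.a (T.a (T.l 816) (T.a (T.l 816) (T.l 0))) (T.a (T.l 0) (T.l 0))) (T.a (T.a (T.l 816) (T.a (T.l 816) (T.l 816))) (T.a (T.l 0) (T.l 816))))) (T.b (T.a (T.a (T.l 816) (T.l 2)) (T.l 2)) (T.l 2))), by decide +kernel⟩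

def A022R_174 :
    ∃ t, chk3 (onCell 0 67108864 0 1073741824 587336777 62277027 (corT true 1 c0B cA022R gB1q0 gB7q2 gB4q2 gB5q2 true false)) t 1 1 1 = true :=
  ⟨(T.a (T.a (T.l 0) (T.l 0)) (T.b (T.l 0) (T.l 880))), by decide +kernel⟩

def A022R_270 :
    ∃ t, chk3 (onCell 0 67108864 0 1073741824 587336777 62277027 (corT true 1 c0B cA022R gB2q0 gB7q2 gB0q2 gB1q2 true true)) t 1 1 1 = true :=
  ⟨(T.l 2), by decide +kernel⟩

def A022R_271 :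
    ∃ t, chk3 (onCell 0 67108864 0 1073741824 587336777 62277027 (corT true 1 c0B cA022R gB2q0 gB7q2 gB1q2 gB2q2 true true)) t 1 1 1 = true :=
  ⟨(T.l 2), by decide +kernel⟩

def A022R_272 :
    ∃ t, chk3 (onCell 0 67108864 0 1073741824 587336777 62277027 (corT true 1 c0B cA022R gB2q0 gB7q2 gB2q2 gB3q2 true true)) t 1 1 1 = true :=
  ⟨(T.l 2), by decide +kernel⟩

def A022R_273 :
    ∃ t, chk3 (onCell 0 67108864 0 1073741824 587336777 62277027 (corT true 1 c0B cA022R gB2q0 gB7q2 gB3q2 gB4q2 true true)) t 1 1 1 = true :=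
  ⟨(T.b (T.b (T.a (T.a (T.l 0) (T.a (T.l 0) (T.l 0))) (T.a (T.l 0) (T.l 0))) (T.a (T.a (T.l 816) (T.c (T.l 0) (T.l 4))) (T.a (T.l 0) (T.l 816)))) (T.b (T.a (T.a (T.l 816) (T.a (T.l 816) (T.l 816))) (T.a (T.l 816) (T.l 816))) (T.a (T.a (T.l 816) (T.a (T.l 816) (T.l 816))) (T.a (T.l 816) (T.l 816))))), by decide +kernel⟩

def A022R_274 :
    ∃ t, chk3 (onCell 0 67108864 0 1073741824 587336777 62277027 (corT true 1 c0B cA022R gB2q0 gB7q2 gB4q2 gB5q2 true false)) t 1 1 1 = true :=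
  ⟨(T.a (T.l 1) (T.b (T.l 1) (T.l 816))), by decide +kernel⟩

def A022R_370 :
    ∃ t, chk3 (onCell 0 67108864 0 1073741824 587336777 62277027 (corT true 1 c0B cA022R gB3q0 gB7q2 gB0q2 gB1q2 true true)) t 1 1 1 = true :=
  ⟨(T.l 2), by decide +kernel⟩

def A022R_371 :
    ∃ t, chk3 (onCell 0 67108864 0 1073741824 587336777 62277027 (corT true 1 c0B cA022R gB3q0 gB7q2 gB1q2 gB2q2 true true)) t 1 1 1 = true :=
  ⟨(T.l 2), by decide +kernel⟩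

def A022R_372 :
    ∃ t, chk3 (onCell 0 67108864 0 1073741824 587336777 62277027 (corT true 1 c0B cA022R gB3q0 gB7q2 gB2q2 gB3q2 true true)) t 1 1 1 = true :=
  ⟨(T.l 2), by decide +kernel⟩

def A022R_373 :
    ∃ t, chk3 (onCell 0 67108864 0 1073741824 587336777 62277027 (corT true 1 c0B cA022R gB3q0 gB7q2 gB3q2 gB4q2 true true)) t 1 1 1 = true :=
  ⟨(T.b (T.b (T.a (T.a (T.l 0) (T.a (T.l 0) (T.l 0))) (T.a (T.l 0) (T.l 0))) (T.a (T.a (T.l 816) (T.b (T.l 0) (T.l 0))) (T.a (T.l 816) (T.l 816)))) (T.a (T.a (T.l 816) (T.b (T.l 816) (T.l 816))) (T.a (T.l 816) (T.l 816)))), by decide +kernel⟩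

def A022R_374 :
    ∃ t, chk3 (onCell 0 67108864 0 1073741824 587336777 62277027 (corT true 1 c0B cA022R gB3q0 gB7q2 gB4q2 gB5q2 true false)) t 1 1 1 = true :=
  ⟨(T.l 1), by decide +kernel⟩

def A022R_470 :
    ∃ t, chk3 (onCell 0 67108864 0 1073741824 587336777 62277027 (corT true 1 c0B cA022R gB4q0 gB7q2 gB0q2 gB1q2 true true)) t 1 1 1 = true :=
  ⟨(T.l 2), by decide +kernel⟩

def A022R_471 :
    ∃ t, chk3 (onCell 0 67108864 0 1073741824 587336777 62277027 (corT true 1 c0B cA022R gB4q0 gB7q2 gB1q2 gB2q2 true true)) t 1 1 1 = true :=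
  ⟨(T.b (T.l 2) (T.a (T.a (T.l 816) (T.a (T.l 816) (T.l 2))) (T.l 2))), by decide +kernel⟩

def A022R_472 :
    ∃ t, chk3 (onCell 0 67108864 0 1073741824 587336777 62277027 (corT true 1 c0B cA022R gB4q0 gB7q2 gB2q2 gB3q2 true true)) t 1 1 1 = true :=
  ⟨(T.b (T.b (T.l 2) (T.l 2)) (T.b (T.a (T.a (T.l 816) (T.a (T.l 816) (T.l 816))) (T.a (T.l 816) (T.l 2))) (T.a (T.a (T.l 816) (T.c (T.l 816) (T.l 816))) (T.a (T.l 816) (T.l 816))))), by decide +kernel⟩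

def A022R_473 :
    ∃ t, chk3 (onCell 0 67108864 0 1073741824 587336777 62277027 (corT true 1 c0B cA022R gB4q0 gB7q2 gB3q2 gB4q2 true true)) t 1 1 1 = true :=
  ⟨(T.b (T.b (T.a (T.a (T.l 0) (T.a (T.l 0) (T.l 0))) (T.a (T.l 0) (T.l 0))) (T.a (T.a (T.l 816) (T.l 0)) (T.a (T.l 816) (T.l 816)))) (T.a (T.a (T.l 816) (T.l 816)) (T.b (T.l 880) (T.l 816)))), by decide +kernel⟩

def A022R_474 :
    ∃ t, chk3 (onCell 0 67108864 0 1073741824 587336777 62277027 (corT true 1 c0B cA022R gB4q0 gB7q2 gB4q2 gB5q2 true false)) t 1 1 1 = true :=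
  ⟨(T.l 1), by decide +kernel⟩

def A101E_000 :
    ∃ t, chk3 (onCell 0 67108864 0 1073741824 587336777 62277027 (corT true 1 c0B cA101E gB0q1 gB0q0 gB0q1 gB1q1 true false)) t 1 1 1 = true :=
  ⟨(T.l 1), by decide +kernel⟩

def A101E_010 :
    ∃ t, chk3 (onCell 0 67108864 0 1073741824 587336777 62277027 (corT true 1 c0B cA101E gB0q1 gB1q0 gB0q1 gB1q1 true false)) t 1 1 1 = true :=
  ⟨(T.l 1), by decide +kernel⟩

def A101E_020 :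
    ∃ t, chk3 (onCell 0 67108864 0 1073741824 587336777 62277027 (corT true 1 c0B cA101E gB0q1 gB2q0 gB0q1 gB1q1 true false)) t 1 1 1 = true :=
  ⟨(T.l 1), by decide +kernel⟩

def A101E_030 :
    ∃ t, chk3 (onCell 0 67108864 0 1073741824 587336777 62277027 (corT true 1 c0B cA101E gB0q1 gB3q0 gB0q1 gB1q1 true false)) t 1 1 1 = true :=
  ⟨(T.l 1), by decide +kernel⟩

def A101E_040 :
    ∃ t, chk3 (onCell 0 67108864 0 1073741824 587336777 62277027 (corT true 1 c0B cA101E gB0q1 gB4q0 gB0q1 gB1q1 true false)) t 1 1 1 = true :=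
  ⟨(T.b (T.l 1) (T.l 1)), by decide +kernel⟩

def A101R_004 :
    ∃ t, chk3 (onCell 0 67108864 0 1073741824 587336777 62277027 (corT true 1 c0B cA101R gB0q1 gB0q0 gB4q1 gB5q1 false true)) t 1 1 1 = true :=
  ⟨(T.l 2), by decide +kernel⟩

def A101R_005 :
    ∃ t, chk3 (onCell 0 67108864 0 1073741824 587336777 62277027 (corT true 1 c0B cA101R gB0q1 gB0q0 gB5q1 gB6q1 true true)) t 1 1 1 = true :=
  ⟨(T.l 2), by decide +kernel⟩

def A101R_006 :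
    ∃ t, chk3 (onCell 0 67108864 0 1073741824 587336777 62277027 (corT true 1 c0B cA101R gB0q1 gB0q0 gB6q1 gB7q1 true true)) t 1 1 1 = true :=
  ⟨(T.l 2), by decide +kernel⟩

def A101R_014 :
    ∃ t, chk3 (onCell 0 67108864 0 1073741824 587336777 62277027 (corT true 1 c0B cA101R gB0q1 gB1q0 gB4q1 gB5q1 false true)) t 1 1 1 = true :=
  ⟨(T.l 2), by decide +kernel⟩

def A101R_015 :
    ∃ t, chk3 (onCell 0 67108864 0 1073741824 587336777 62277027 (corT true 1 c0B cA101R gB0q1 gB1q0 gB5q1 gB6q1 true true)) t 1 1 1 = true :=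
  ⟨(T.l 2), by decide +kernel⟩

def A101R_016 :
    ∃ t, chk3 (onCell 0 67108864 0 1073741824 587336777 62277027 (corT true 1 c0B cA101R gB0q1 gB1q0 gB6q1 gB7q1 true true)) t 1 1 1 = true :=
  ⟨(T.l 2), by decide +kernel⟩

def A101R_024 :
    ∃ t, chk3 (onCell 0 67108864 0 1073741824 587336777 62277027 (corT true 1 c0B cA101R gB0q1 gB2q0 gB4q1 gB5q1 false true)) t 1 1 1 = true :=
  ⟨(T.l 2), by decide +kernel⟩

def A101R_025 :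
    ∃ t, chk3 (onCell 0 67108864 0 1073741824 587336777 62277027 (corT true 1 c0B cA101R gB0q1 gB2q0 gB5q1 gB6q1 true true)) t 1 1 1 = true :=
  ⟨(T.l 2), by decide +kernel⟩

def A101R_026 :
    ∃ t, chk3 (onCell 0 67108864 0 1073741824 587336777 62277027 (corT true 1 c0B cA101R gB0q1 gB2q0 gB6q1 gB7q1 true true)) t 1 1 1 = true :=
  ⟨(T.l 2), by decide +kernel⟩

def A101R_034 :
    ∃ t, chk3 (onCell 0 67108864 0 1073741824 587336777 62277027 (corT true 1 c0B cA101R gB0q1 gB3q0 gB4q1 gB5q1 false true)) t 1 1 1 = true :=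
  ⟨(T.l 2), by decide +kernel⟩

def A101R_035 :
    ∃ t, chk3 (onCell 0 67108864 0 1073741824 587336777 62277027 (corT true 1 c0B cA101R gB0q1 gB3q0 gB5q1 gB6q1 true true)) t 1 1 1 = true :=
  ⟨(T.l 2), by decide +kernel⟩

def A101R_036 :
    ∃ t, chk3 (onCell 0 67108864 0 1073741824 587336777 62277027 (corT true 1 c0B cA101R gB0q1 gB3q0 gB6q1 gB7q1 true true)) t 1 1 1 = true :=
  ⟨(T.l 2), by decide +kernel⟩

def A101R_044 :
    ∃ t, chk3 (onCell 0 67108864 0 1073741824 587336777 62277027 (corT true 1 c0B cA101R gB0q1 gB4q0 gB4q1 gB5q1 false true)) t 1 1 1 = true :=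
  ⟨(T.l 2), by decide +kernel⟩

def A101R_045 :
    ∃ t, chk3 (onCell 0 67108864 0 1073741824 587336777 62277027 (corT true 1 c0B cA101R gB0q1 gB4q0 gB5q1 gB6q1 true true)) t 1 1 1 = true :=
  ⟨(T.l 2), by decide +kernel⟩

def A101R_046 :
    ∃ t, chk3 (onCell 0 67108864 0 1073741824 587336777 62277027 (corT true 1 c0B cA101R gB0q1 gB4q0 gB6q1 gB7q1 true true)) t 1 1 1 = true :=
  ⟨(T.l 2), by decide +kernel⟩

def A102E_000_1_2_1 :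
    ∃ t, chk3 (onCell 0 67108864 0 1073741824 587336777 62277027 (corX 1 c0B cA102E tA102E gB0q1 gB0q0 gB0q2 gB1q2 gB0q2 true true)) t 1 2 1 = true :=
  ⟨(T.b (T.l 2) (T.b (T.l 2) (T.b (T.l 2) (T.b (T.l 2) (T.a (T.a (T.a (T.a (T.b (T.b (T.l 2) (T.a (T.c (T.l 3) (T.l 3)) (T.c (T.l 819) (T.l 819)))) (T.a (T.c (T.l 3) (T.l 3)) (T.c (T.l 819) (T.l 819)))) (T.b (T.b (T.l 2) (T.b (T.l 2) (T.c (T.c (T.l 819) (T.l 819)) (T.c (T.l 819) (T.l 819))))) (T.c (T.a (T.l 819) (T.l 819)) (T.a (T.l 819) (T.l 819))))) (T.b (T.b (T.l 2) (T.b (T.l 2) (T.a (T.c (T.c (T.l 819) (T.l 819)) (T.l 819)) (T.c (T.l 819) (T.l 819))))) (T.a (T.c (T.a (T.l 819) (T.l 819)) (T.c (T.l 819) (T.l 819))) (T.c (T.c (T.l 823) (T.l 819)) (T.l 819))))) (T.b (T.l 2) (T.a (T.a (T.c (T.l 823) (T.l 819)) (T.c (T.l 819) (T.l 819))) (T.a (T.l 819) (T.l 819))))) (T.b (T.l 2) (T.a (T.a (T.l 819) (T.c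 (T.l 819) (T.l 819))) (T.b (T.l 2) (T.b (T.l 2) (T.a (T.c (T.l 819) (T.l 883)) (T.a (T.c (T.l 3) (T.l 819)) (T.l 2)))))))))))), by decide +kernel⟩

def A102E_000_1_3_1 :
    ∃ t, chk3 (onCell 0 67108864 0 1073741824 587336777 62277027 (corX 1 c0B cA102E tA102E gB0q1 gB0q0 gB0q2 gB1q2 gB0q2 true true)) t 1 3 1 = true :=
  ⟨(T.b (T.b (T.b (T.b (T.b (T.a (T.a (T.b (T.a (T.b (T.a (T.a (T.c (T.l 3) (T.l 3)) (T.l 819)) (T.c (T.c (T.l 819) (T.l 819)) (T.c (T.l 819) (T.l 819)))) (T.l 1)) (T.a (T.c (T.c (T.l 819) (T.l 819)) (T.c (T.l 819) (T.l 819))) (T.c (T.c (T.l 819) (T.l 819)) (T.l 819)))) (T.l 1)) (T.a (T.a (T.a (T.l 823) (T.l 819)) (T.c (T.l 819) (T.l 819))) (T.a (T.l 819) (T.l 819)))) (T.a (T.a (T.c (T.l 819) (T.l 819)) (T.c (T.l 819) (T.l 819))) (T.a (T.a (T.l 819) (T.c (T.l 819) (T.l 819))) (T.a (T.c (T.l 3) (T.c (T.l 819) (T.l 819))) (T.b (T.a (T.c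 (T.l 3) (T.l 3)) (T.a (T.c (T.l 3) (T.l 3)) (T.b (T.b (T.l 2) (T.l 259)) (T.c (T.l 207) (T.l 3))))) (T.c (T.l 259) (T.c (T.l 3) (T.l 3)))))))) (T.a (T.l 1) (T.b (T.a (T.a (T.l 1) (T.l 819)) (T.a (T.c (T.l 819) (T.l 819)) (T.a (T.c (T.l 3) (T.l 819)) (T.c (T.l 3) (T.c (T.l 3) (T.l 3)))))) (T.a (T.l 1) (T.a (T.l 1) (T.c (T.l 3) (T.a (T.l 1) (T.l 3)))))))) (T.l 1)) (T.l 1)) (T.l 1)) (T.l 1)), by decide +kernel⟩

theorem A102E_000 :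
    ∃ t, chk3 (onCell 0 67108864 0 1073741824 587336777 62277027 (corX 1 c0B cA102E tA102E gB0q1 gB0q0 gB0q2 gB1q2 gB0q2 true true)) t 1 1 1 = true :=
  ex3_b A102E_000_1_2_1 A102E_000_1_3_1

def A102E_001_1_4_1 :
    ∃ t, chk3 (onCell 0 67108864 0 1073741824 587336777 62277027 (corT true 1 c0B cA102E gB0q1 gB0q0 gB1q2 gB2q2 true true)) t 1 4 1 = true :=
  ⟨(T.l 2), by decide +kernel⟩

def A102E_001_1_10_1 :
    ∃ t, chk3 (onCell 0 67108864 0 1073741824 587336777 62277027 (corT true 1 c0B cA102E gB0q1 gB0q0 gB1q2 gB2q2 true true)) t 1 10 1 = true :=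
  ⟨(T.l 2), by decide +kernel⟩

def A102E_001_2_22_1 :
    ∃ t, chk3 (onCell 0 67108864 0 1073741824 587336777 62277027 (corT true 1 c0B cA102E gB0q1 gB0q0 gB1q2 gB2q2 true true)) t 2 22 1 = true :=
  ⟨(T.b (T.l 2) (T.b (T.l 2) (T.a (T.c (T.a (T.c (T.l 204) (T.l 204)) (T.l 204)) (T.a (T.l 204) (T.l 204))) (T.c (T.l 0) (T.l 0))))), by decide +kernel⟩

def A102E_001_4_46_1 :
    ∃ t, chk3 (onCell 0 67108864 0 1073741824 587336777 62277027 (corT true 1 c0B cA102E gB0q1 gB0q0 gB1q2 gB2q2 true true)) t 4 46 1 = true :=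
  ⟨(T.a (T.c (T.b (T.c (T.a (T.l 204) (T.l 204)) (T.l 204)) (T.a (T.c (T.b (T.l 204) (T.l 204)) (T.b (T.l 204) (T.l 204))) (T.l 0))) (T.b (T.l 204) (T.c (T.a (T.l 204) (T.l 0)) (T.l 0)))) (T.c (T.b (T.l 0) (T.l 0)) (T.b (T.l 0) (T.l 0)))), by decide +kernel⟩

def A102E_001_8_94_1 :
    ∃ t, chk3 (onCell 0 67108864 0 1073741824 587336777 62277027 (corT true 1 c0B cA102E gB0q1 gB0q0 gB1q2 gB2q2 true true)) t 8 94 1 = true :=
  ⟨(T.b (T.c (T.a (T.a (T.c (T.c (T.l 204) (T.l 204)) (T.l 204)) (T.l 0)) (T.l 0)) (T.a (T.c (T.c (T.l 0) (T.l 0)) (T.l 0)) (T.l 0))) (T.c (T.b (T.a (T.c (T.a (T.b (T.l 0) (T.a (T.b (T.l 0) (T.a (T.l 1) (T.l 816))) (T.l 0))) (T.c (T.l 0) (T.l 0))) (T.b (T.l 0) (T.a (T.b (T.l 0) (T.b (T.l 0) (T.l 1))) (T.l 816)))) (T.c (T.l 816) (T.l 816))) (T.b (T.a (T.a (T.l 1) (T.b (T.a (T.l 1) (T.b (T.l 816) (T.l 1))) (T.l 1))) (T.c (T.a (T.b (T.l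 820) (T.l 1)) (T.a (T.c (T.l 816) (T.l 816)) (T.l 816))) (T.a (T.b (T.c (T.l 816) (T.l 816)) (T.l 1)) (T.a (T.c (T.l 816) (T.l 816)) (T.l 816))))) (T.l 1))) (T.b (T.a (T.c (T.b (T.l 0) (T.a (T.b (T.l 0) (T.b (T.c (T.l 0) (T.c (T.l 0) (T.l 0))) (T.l 1))) (T.l 816))) (T.b (T.l 0) (T.a (T.b (T.l 0) (T.b (T.a (T.a (T.l 1) (T.l 816)) (T.l 816)) (T.l 1))) (T.c (T.l 816) (T.l 816))))) (T.c (T.l 816) (T.l 816))) (T.b (T.a (T.a (T.l 1) (T.b (T.a (T.l 1) (T.b (T.l 816) (T.l 1))) (T.l 1))) (T.c (T.a (T.b (T.c (T.l 816) (T.l 816)) (T.l 1)) (T.a (T.c (T.l 816) (T.l 816)) (T.l 816))) (T.a (T.b (T.c (T.l 816) (T.l 816)) (T.l 1)) (T.a (T.c (T.l 816) (T.l 816)) (T.l 816))))) (T.l 1))))), by decide +kernel⟩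

def A102E_001_9_94_1 :
    ∃ t, chk3 (onCell 0 67108864 0 1073741824 587336777 62277027 (corT true 1 c0B cA102E gB0q1 gB0q0 gB1q2 gB2q2 true true)) t 9 94 1 = true :=
  ⟨(T.b (T.c (T.l 0) (T.l 0)) (T.c (T.a (T.b (T.l 816) (T.c (T.b (T.c (T.l 816) (T.l 816)) (T.a (T.b (T.b (T.l 816) (T.l 1)) (T.l 1)) (T.a (T.b (T.l 816) (T.l 1)) (T.l 816)))) (T.b (T.l 816) (T.a (T.b (T.b (T.l 816) (T.l 1)) (T.l 1)) (T.a (T.c (T.l 820) (T.l 816)) (T.l 816)))))) (T.b (T.l 816) (T.a (T.c (T.l 816) (T.l 816)) (T.l 816)))) (T.a (T.b (T.l 816) (T.c (T.b (T.l 816) (T.a (T.b (T.b (T.l 816) (T.l 1)) (T.l 1)) (T.c (T.l 820) (T.l 816)))) (T.b (T.l 816) (T.a (T.b (T.c (T.l 816) (T.l 816)) (T.l 1)) (T.c (T.l 816) (T.l 816)))))) (T.b (T.l 816) (T.c (T.l 816) (T.l 816)))))), by decide +kernel⟩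

def A102E_001_4_95_1 :
    ∃ t, chk3 (onCell 0 67108864 0 1073741824 587336777 62277027 (corT true 1 c0B cA102E gB0q1 gB0q0 gB1q2 gB2q2 true true)) t 4 95 1 = true :=
  ⟨(T.a (T.l 1) (T.a (T.l 1) (T.b (T.b (T.a (T.l 1) (T.b (T.b (T.c (T.l 816) (T.l 816)) (T.l 1)) (T.l 1))) (T.l 1)) (T.l 1)))), by decide +kernel⟩

def A102E_001_5_23_1 :
    ∃ t, chk3 (onCell 0 67108864 0 1073741824 587336777 62277027 (corT true 1 c0B cA102E gB0q1 gB0q0 gB1q2 gB2q2 true true)) t 5 23 1 = true :=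
  ⟨(T.b (T.c (T.a (T.b (T.l 0) (T.l 0)) (T.l 0)) (T.a (T.l 0) (T.l 0))) (T.b (T.a (T.c (T.b (T.l 816) (T.a (T.c (T.l 816) (T.l 816)) (T.l 816))) (T.b (T.l 816) (T.c (T.l 816) (T.l 816)))) (T.c (T.c (T.l 816) (T.l 816)) (T.l 816))) (T.b (T.a (T.b (T.c (T.a (T.c (T.a (T.b (T.l 816) (T.l 1)) (T.l 816)) (T.a (T.b (T.l 816) (T.l 1)) (T.l 816))) (T.l 820)) (T.a (T.a (T.b (T.l 816) (T.l 1)) (T.l 816)) (T.l 816))) (T.l 1)) (T.c (T.a (T.c (T.l 816) (T.l 816)) (T.l 816)) (T.a (T.c (T.l 816) (T.l 816)) (T.l 816)))) (T.l 1)))), by decide +kernel⟩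

def A102E_001_3_11_1 :
    ∃ t, chk3 (onCell 0 67108864 0 1073741824 587336777 62277027 (corT true 1 c0B cA102E gB0q1 gB0q0 gB1q2 gB2q2 true true)) t 3 11 1 = true :=
  ⟨(T.b (T.l 2) (T.a (T.b (T.c (T.a (T.l 0) (T.l 0)) (T.a (T.l 0) (T.l 816))) (T.b (T.a (T.c (T.l 816) (T.l 816)) (T.l 816)) (T.a (T.b (T.c (T.l 816) (T.l 816)) (T.b (T.c (T.l 816) (T.l 816)) (T.l 1))) (T.b (T.l 816) (T.c (T.b (T.l 816) (T.b (T.l 880) (T.l 1))) (T.b (T.l 816) (T.b (T.l 816) (T.l 1)))))))) (T.a (T.b (T.c (T.l 0) (T.l 0)) (T.b (T.l 0) (T.b (T.l 0) (T.c (T.a (T.c (T.l 816) (T.l 816)) (T.l 880)) (T.b (T.l 816) (T.b (T.l 816) (T.a (T.c (T.l 816) (T.l 816)) (T.l 880)))))))) (T.b (T.b (T.b (T.l 2) (T.a (T.a (T.l 0) (T.l 0)) (T.a (T.l 0) (T.l 4)))) (T.a (T.a (T.l 0) (T.c (T.l 0) (T.l 0))) (T.a (T.c (T.l 0) (T.l 0)) (T.c (T.l 0) (T.l 0))))) (T.a (T.b (T.l 0) (T.b (T.l 0) (T.c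 (T.l 0) (T.c (T.l 816) (T.l 816))))) (T.b (T.a (T.c (T.l 0) (T.l 0)) (T.c (T.l 0) (T.l 0))) (T.b (T.a (T.l 0) (T.l 0)) (T.a (T.c (T.l 0) (T.l 0)) (T.b (T.c (T.l 0) (T.l 0)) (T.c (T.l 0) (T.a (T.l 0) (T.l 0)))))))))))), by decide +kernel⟩

def A102E_001_1_3_1 :
    ∃ t, chk3 (onCell 0 67108864 0 1073741824 587336777 62277027 (corT true 1 c0B cA102E gB0q1 gB0q0 gB1q2 gB2q2 true true)) t 1 3 1 = true :=
  ⟨(T.b (T.b (T.a (T.l 1) (T.b (T.a (T.l 1) (T.b (T.a (T.l 1) (T.b (T.b (T.b (T.a (T.b (T.c (T.c (T.l 0) (T.l 0)) (T.c (T.c (T.l 816) (T.l 880)) (T.b (T.l 816) (T.a (T.l 1) (T.c (T.l 816) (T.l 880)))))) (T.l 1)) (T.a (T.b (T.c (T.l 0) (T.c (T.l 0) (T.l 816))) (T.l 1)) (T.c (T.b (T.c (T.l 204) (T.l 0)) (T.b (T.c (T.l 204) (T.l 204)) (T.l 1))) (T.b (T.c (T.l 0) (T.a (T.l 0) (T.l 0))) (T.b (T.c (T.l 0) (T.c (T.l 0) (T.c (T.l 0) (T.a (T.b (T.l 816) (T.l 1))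 (T.l 0))))) (T.l 1)))))) (T.l 1)) (T.l 1)) (T.l 1))) (T.l 1))) (T.l 1))) (T.l 1)) (T.l 1)), by decide +kernel⟩

theorem A102E_001_4_94_1 :
    ∃ t, chk3 (onCell 0 67108864 0 1073741824 587336777 62277027 (corT true 1 c0B cA102E gB0q1 gB0q0 gB1q2 gB2q2 true true)) t 4 94 1 = true :=
  ex3_a A102E_001_8_94_1 A102E_001_9_94_1
theorem A102E_001_4_47_1 :
    ∃ t, chk3 (onCell 0 67108864 0 1073741824 587336777 62277027 (corT true 1 c0B cA102E gB0q1 gB0q0 gB1q2 gB2q2 true true)) t 4 47 1 = true :=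
  ex3_b A102E_001_4_94_1 A102E_001_4_95_1
theorem A102E_001_4_23_1 :
    ∃ t, chk3 (onCell 0 67108864 0 1073741824 587336777 62277027 (corT true 1 c0B cA102E gB0q1 gB0q0 gB1q2 gB2q2 true true)) t 4 23 1 = true :=
  ex3_b A102E_001_4_46_1 A102E_001_4_47_1
theorem A102E_001_2_23_1 :
    ∃ t, chk3 (onCell 0 67108864 0 1073741824 587336777 62277027 (corT true 1 c0B cA102E gB0q1 gB0q0 gB1q2 gB2q2 true true)) t 2 23 1 = true :=
  ex3_a A102E_001_4_23_1 A102E_001_5_23_1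
theorem A102E_001_2_11_1 :
    ∃ t, chk3 (onCell 0 67108864 0 1073741824 587336777 62277027 (corT true 1 c0B cA102E gB0q1 gB0q0 gB1q2 gB2q2 true true)) t 2 11 1 = true :=
  ex3_b A102E_001_2_22_1 A102E_001_2_23_1
theorem A102E_001_1_11_1 :
    ∃ t, chk3 (onCell 0 67108864 0 1073741824 587336777 62277027 (corT true 1 c0B cA102E gB0q1 gB0q0 gB1q2 gB2q2 true true)) t 1 11 1 = true :=
  ex3_a A102E_001_2_11_1 A102E_001_3_11_1
theorem A102E_001_1_5_1 :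
    ∃ t, chk3 (onCell 0 67108864 0 1073741824 587336777 62277027 (corT true 1 c0B cA102E gB0q1 gB0q0 gB1q2 gB2q2 true true)) t 1 5 1 = true :=
  ex3_b A102E_001_1_10_1 A102E_001_1_11_1
theorem A102E_001_1_2_1 :
    ∃ t, chk3 (onCell 0 67108864 0 1073741824 587336777 62277027 (corT true 1 c0B cA102E gB0q1 gB0q0 gB1q2 gB2q2 true true)) t 1 2 1 = true :=
  ex3_b A102E_001_1_4_1 A102E_001_1_5_1
theorem A102E_001 :
    ∃ t, chk3 (onCell 0 67108864 0 1073741824 587336777 62277027 (corT true 1 c0B cA102E gB0q1 gB0q0 gB1q2 gB2q2 true true)) t 1 1 1 = true :=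
  ex3_b A102E_001_1_2_1 A102E_001_1_3_1

def A102E_002 :
    ∃ t, chk3 (onCell 0 67108864 0 1073741824 587336777 62277027 (corT true 1 c0B cA102E gB0q1 gB0q0 gB2q2 gB3q2 true true)) t 1 1 1 = true :=
  ⟨(T.b (T.b (T.l 2) (T.b (T.b (T.l 2) (T.a (T.b (T.l 2) (T.a (T.c (T.l 204) (T.l 204)) (T.l 204))) (T.l 2))) (T.b (T.a (T.a (T.b (T.c (T.l 204) (T.l 204)) (T.c (T.a (T.b (T.l 204) (T.c (T.a (T.b (T.l 204) (T.c (T.l 204) (T.l 204))) (T.l 204)) (T.l 204))) (T.l 204)) (T.l 0))) (T.b (T.l 204) (T.c (T.l 0) (T.l 0)))) (T.a (T.b (T.l 0) (T.l 0)) (T.a (T.b (T.a (T.b (T.c (T.l 0) (T.l 0)) (T.l 204)) (T.b (T.c (T.l 0) (T.l 0)) (T.c (T.l 0) (T.l 0)))) (T.a (T.l 0) (T.b (T.c (T.l 0) (T.l 0)) (T.c (T.l 0) (T.l 0))))) (T.b (T.a (T.b (T.c (T.l 204) (T.l 0)) (T.c (T.l 0) (T.l 0))) (T.b (T.c (T.l 204) (T.l 0)) (T.c (T.l 0) (T.l 0)))) (T.a (T.b (T.c (T.l 0) (T.l 0)) (T.c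 (T.l 0) (T.l 0))) (T.b (T.c (T.l 0) (T.l 0)) (T.c (T.l 0) (T.l 0)))))))) (T.b (T.b (T.a (T.a (T.l 1) (T.a (T.l 1) (T.l 0))) (T.a (T.c (T.l 0) (T.l 0)) (T.a (T.l 0) (T.a (T.c (T.l 0) (T.l 0)) (T.c (T.l 0) (T.l 0)))))) (T.l 1)) (T.l 1))))) (T.l 1)), by decide +kernel⟩

def A102E_003_1_4_1 :
    ∃ t, chk3 (onCell 0 67108864 0 1073741824 587336777 62277027 (corT true 1 c0B cA102E gB0q1 gB0q0 gB3q2 gB4q2 true true)) t 1 4 1 = true :=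
  ⟨(T.b (T.l 2) (T.a (T.b (T.a (T.l 204) (T.l 204)) (T.a (T.l 204) (T.l 204))) (T.b (T.b (T.l 2) (T.b (T.l 2) (T.b (T.a (T.b (T.a (T.a (T.l 204) (T.l 204)) (T.a (T.l 204) (T.l 204))) (T.a (T.a (T.l 204) (T.l 204)) (T.a (T.l 204) (T.l 204)))) (T.b (T.l 2) (T.a (T.c (T.l 204) (T.l 204)) (T.c (T.l 204) (T.l 204))))) (T.a (T.a (T.a (T.l 204) (T.c (T.l 204) (T.l 204))) (T.a (T.l 204) (T.l 204))) (T.a (T.c (T.l 220) (T.l 204)) (T.c (T.l 204) (T.l 204))))))) (T.b (T.b (T.b (T.a (T.a (T.a (T.l 204) (T.l 220)) (T.a (T.l 204) (T.l 204))) (T.a (T.c (T.l 220) (T.l 204)) (T.c (T.l 204) (T.l 204)))) (T.a (T.a (T.a (T.l 204) (T.l 220)) (T.a (T.l 204) (T.l 204))) (T.a (T.c (T.l 220) (T.l 204)) (T.c (T.l 204) (T.l 204))))) (T.a (T.a (T.l 204) (T.a (T.c (T.l 204) (T.l 204)) (T.l 204))) (T.a (T.a (T.l 204) (T.l 204)) (T.a (T.l 204) (T.l 204))))) (T.a (T.a (T.l 204) (T.a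 (T.a (T.l 204) (T.l 204)) (T.c (T.l 204) (T.l 204)))) (T.a (T.a (T.c (T.l 204) (T.l 204)) (T.c (T.l 204) (T.l 204))) (T.a (T.c (T.l 204) (T.l 204)) (T.c (T.l 204) (T.l 204))))))))), by decide +kernel⟩

def A102E_003_1_5_1 :
    ∃ t, chk3 (onCell 0 67108864 0 1073741824 587336777 62277027 (corT true 1 c0B cA102E gB0q1 gB0q0 gB3q2 gB4q2 true true)) t 1 5 1 = true :=
  ⟨(T.b (T.a (T.b (T.a (T.l 204) (T.l 204)) (T.a (T.b (T.l 204) (T.l 204)) (T.l 204))) (T.b (T.a (T.a (T.l 204) (T.a (T.b (T.c (T.l 204) (T.l 204)) (T.l 204)) (T.b (T.c (T.l 204) (T.l 204)) (T.c (T.l 204) (T.l 204))))) (T.a (T.a (T.b (T.c (T.l 204) (T.l 204)) (T.c (T.l 204) (T.l 204))) (T.b (T.c (T.l 204) (T.l 204)) (T.c (T.l 204) (T.l 204)))) (T.b (T.a (T.c (T.l 204) (T.l 204)) (T.c (T.l 204) (T.l 204))) (T.a (T.c (T.l 204) (T.l 204)) (T.c (T.l 204) (T.l 204)))))) (T.a (T.a (T.l 204) (T.a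 (T.l 204) (T.b (T.c (T.l 204) (T.l 204)) (T.l 204)))) (T.a (T.b (T.a (T.c (T.l 204) (T.l 204)) (T.c (T.l 204) (T.l 204))) (T.a (T.l 220) (T.l 204))) (T.b (T.a (T.c (T.l 204) (T.l 204)) (T.c (T.l 204) (T.l 204))) (T.a (T.l 220) (T.c (T.l 204) (T.l 204)))))))) (T.b (T.b (T.b (T.a (T.l 0) (T.a (T.l 204) (T.a (T.c (T.l 0) (T.l 0)) (T.c (T.l 0) (T.l 0))))) (T.l 1)) (T.l 1)) (T.l 1))), by decide +kernel⟩

def A102E_003_1_3_1 :
    ∃ t, chk3 (onCell 0 67108864 0 1073741824 587336777 62277027 (corT true 1 c0B cA102E gB0q1 gB0q0 gB3q2 gB4q2 true true)) t 1 3 1 = true :=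
  ⟨(T.l 1), by decide +kernel⟩

theorem A102E_003_1_2_1 :
    ∃ t, chk3 (onCell 0 67108864 0 1073741824 587336777 62277027 (corT true 1 c0B cA102E gB0q1 gB0q0 gB3q2 gB4q2 true true)) t 1 2 1 = true :=
  ex3_b A102E_003_1_4_1 A102E_003_1_5_1
theorem A102E_003 :
    ∃ t, chk3 (onCell 0 67108864 0 1073741824 587336777 62277027 (corT true 1 c0B cA102E gB0q1 gB0q0 gB3q2 gB4q2 true true)) t 1 1 1 = true :=
  ex3_b A102E_003_1_2_1 A102E_003_1_3_1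

def A102E_004 :
    ∃ t, chk3 (onCell 0 67108864 0 1073741824 587336777 62277027 (corT true 1 c0B cA102E gB0q1 gB0q0 gB4q2 gB5q2 true false)) t 1 1 1 = true :=
  ⟨(T.b (T.b (T.b (T.a (T.a (T.l 204) (T.a (T.l 204) (T.b (T.b (T.l 204) (T.l 204)) (T.l 204)))) (T.a (T.a (T.b (T.l 204) (T.b (T.l 204) (T.l 204))) (T.b (T.l 204) (T.l 204))) (T.b (T.b (T.l 204) (T.l 204)) (T.a (T.l 204) (T.l 204))))) (T.b (T.a (T.l 204) (T.a (T.a (T.a (T.l 204) (T.b (T.l 204) (T.l 204))) (T.b (T.l 204) (T.l 204))) (T.a (T.b (T.l 204) (T.l 204)) (T.b (T.l 204) (T.l 204))))) (T.l 1))) (T.l 1)) (T.l 1)), by decide +kernel⟩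

def A102E_010 :
    ∃ t, chk3 (onCell 0 67108864 0 1073741824 587336777 62277027 (corT true 1 c0B cA102E gB0q1 gB1q0 gB0q2 gB1q2 true true)) t 1 1 1 = true :=
  ⟨(T.b (T.b (T.l 2) (T.l 2)) (T.b (T.b (T.b (T.b (T.b (T.l 2) (T.a (T.a (T.a (T.l 0) (T.l 0)) (T.l 0)) (T.a (T.l 0) (T.l 2)))) (T.b (T.a (T.a (T.c (T.b (T.a (T.c (T.l 204) (T.l 204)) (T.l 204)) (T.a (T.b (T.c (T.c (T.a (T.b (T.l 204) (T.a (T.l 1) (T.b (T.a (T.l 1) (T.l 204)) (T.l 1)))) (T.a (T.c (T.b (T.l 204) (T.b (T.l 204) (T.l 1))) (T.l 204)) (T.l 236))) (T.a (T.l 204) (T.l 204))) (T.l 204)) (T.l 1)) (T.c (T.b (T.a (T.l 204) (T.l 204)) (T.b (T.a (T.b (T.c (T.a (T.a (T.l 1) (T.l 204)) (T.l 204)) (T.l 204)) (T.l 1)) (T.l 204)) (T.l 1))) (T.a (T.c (T.l 204) (T.l 204)) (T.l 204))))) (T.a (T.c (T.l 0) (T.l 0)) (T.l 0))) (T.a (T.c (T.b (T.l 204) (T.a (T.c (T.a (T.b (T.l 204) (T.l 236)) (T.l 204))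 (T.l 204)) (T.l 204))) (T.l 204)) (T.c (T.l 204) (T.l 204)))) (T.a (T.c (T.l 204) (T.l 204)) (T.l 204))) (T.a (T.a (T.l 1) (T.b (T.b (T.a (T.c (T.a (T.l 1) (T.b (T.a (T.l 1) (T.l 204)) (T.l 1))) (T.l 204)) (T.c (T.a (T.b (T.l 204) (T.l 1)) (T.l 204)) (T.l 204))) (T.l 1)) (T.l 1))) (T.a (T.b (T.a (T.c (T.a (T.c (T.l 236) (T.l 204)) (T.l 204)) (T.l 204)) (T.l 204)) (T.a (T.l 1) (T.l 1))) (T.a (T.c (T.l 236) (T.l 204)) (T.l 204)))))) (T.a (T.l 1) (T.l 1))) (T.l 1)) (T.l 1))), by decide +kernel⟩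

def A102E_011 :
    ∃ t, chk3 (onCell 0 67108864 0 1073741824 587336777 62277027 (corT true 1 c0B cA102E gB0q1 gB1q0 gB1q2 gB2q2 true true)) t 1 1 1 = true :=
  ⟨(T.b (T.b (T.l 2) (T.b (T.l 2) (T.b (T.l 2) (T.a (T.a (T.l 0) (T.l 204)) (T.a (T.l 204) (T.a (T.l 204) (T.b (T.l 2) (T.c (T.l 0) (T.l 0))))))))) (T.b (T.b (T.b (T.b (T.a (T.a (T.c (T.l 0) (T.l 0)) (T.l 0)) (T.a (T.l 204) (T.a (T.l 204) (T.c (T.l 0) (T.l 0))))) (T.a (T.l 1) (T.b (T.l 204) (T.l 1)))) (T.l 1)) (T.l 1)) (T.l 1))), by decide +kernel⟩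

def A102E_012 :
    ∃ t, chk3 (onCell 0 67108864 0 1073741824 587336777 62277027 (corT true 1 c0B cA102E gB0q1 gB1q0 gB2q2 gB3q2 true true)) t 1 1 1 = true :=
  ⟨(T.b (T.b (T.l 2) (T.b (T.l 2) (T.a (T.b (T.l 204) (T.l 0)) (T.a (T.l 0) (T.b (T.b (T.l 2) (T.a (T.l 16) (T.l 0))) (T.a (T.l 204) (T.b (T.l 0) (T.l 0)))))))) (T.b (T.b (T.l 1) (T.l 1)) (T.l 1))), by decide +kernel⟩

def A102E_013 :
    ∃ t, chk3 (onCell 0 67108864 0 1073741824 587336777 62277027 (corT true 1 c0B cA102E gB0q1 gB1q0 gB3q2 gB4q2 true true)) t 1 1 1 = true :=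
  ⟨(T.b (T.b (T.b (T.l 2) (T.a (T.l 204) (T.b (T.l 2) (T.b (T.l 2) (T.b (T.l 2) (T.b (T.b (T.a (T.a (T.l 204) (T.l 204)) (T.c (T.l 204) (T.l 204))) (T.a (T.a (T.l 204) (T.l 204)) (T.c (T.l 204) (T.l 204)))) (T.a (T.a (T.l 204) (T.l 204)) (T.c (T.l 204) (T.l 204))))))))) (T.b (T.a (T.l 204) (T.b (T.a (T.a (T.l 204) (T.b (T.l 220) (T.l 204))) (T.a (T.b (T.l 204) (T.l 204)) (T.b (T.l 204) (T.l 204)))) (T.a (T.a (T.l 204) (T.b (T.l 204) (T.l 204))) (T.a (T.b (T.l 204) (T.l 204)) (T.l 0))))) (T.a (T.l 0) (T.a (T.l 0) (T.b (T.a (T.l 0) (T.l 0)) (T.l 1)))))) (T.l 1)), by decide +kernel⟩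

def A102E_014 :
    ∃ t, chk3 (onCell 0 67108864 0 1073741824 587336777 62277027 (corT true 1 c0B cA102E gB0q1 gB1q0 gB4q2 gB5q2 true false)) t 1 1 1 = true :=
  ⟨(T.b (T.b (T.b (T.a (T.a (T.l 204) (T.a (T.l 204) (T.l 204))) (T.a (T.b (T.l 204) (T.l 204)) (T.l 220))) (T.a (T.l 204) (T.a (T.a (T.l 220) (T.l 204)) (T.b (T.l 204) (T.l 204))))) (T.b (T.l 1) (T.l 1))) (T.l 1)), by decide +kernel⟩

def A102E_020 :
    ∃ t, chk3 (onCell 0 67108864 0 1073741824 587336777 62277027 (corT true 1 c0B cA102E gB0q1 gB2q0 gB0q2 gB1q2 true true)) t 1 1 1 = true :=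
  ⟨(T.b (T.l 2) (T.b (T.b (T.b (T.l 2) (T.b (T.l 2) (T.a (T.a (T.l 204) (T.l 204)) (T.a (T.l 204) (T.l 204))))) (T.b (T.b (T.b (T.a (T.b (T.a (T.l 204) (T.l 204)) (T.l 1)) (T.a (T.l 204) (T.l 204))) (T.l 1)) (T.l 1)) (T.l 1))) (T.l 1))), by decide +kernel⟩

def A102E_021 :
    ∃ t, chk3 (onCell 0 67108864 0 1073741824 587336777 62277027 (corT true 1 c0B cA102E gB0q1 gB2q0 gB1q2 gB2q2 true true)) t 1 1 1 = true :=
  ⟨(T.b (T.l 2) (T.b (T.b (T.b (T.l 2) (T.a (T.a (T.l 204) (T.l 204)) (T.a (T.l 204) (T.l 204)))) (T.a (T.l 1) (T.l 1))) (T.l 1))), by decide +kernel⟩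

def A102E_022 :
    ∃ t, chk3 (onCell 0 67108864 0 1073741824 587336777 62277027 (corT true 1 c0B cA102E gB0q1 gB2q0 gB2q2 gB3q2 true true)) t 1 1 1 = true :=
  ⟨(T.b (T.b (T.l 2) (T.l 2)) (T.b (T.b (T.b (T.a (T.l 204) (T.b (T.b (T.l 2) (T.l 204)) (T.l 204))) (T.b (T.a (T.l 204) (T.a (T.l 204) (T.l 204))) (T.l 1))) (T.l 1)) (T.l 1))), by decide +kernel⟩

def A102E_023 :
    ∃ t, chk3 (onCell 0 67108864 0 1073741824 587336777 62277027 (corT true 1 c0B cA102E gB0q1 gB2q0 gB3q2 gB4q2 true true)) t 1 1 1 = true :=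
  ⟨(T.b (T.b (T.l 2) (T.a (T.l 204) (T.b (T.b (T.l 2) (T.b (T.l 2) (T.a (T.l 204) (T.l 204)))) (T.a (T.l 204) (T.b (T.b (T.l 204) (T.l 204)) (T.l 0)))))) (T.b (T.b (T.b (T.a (T.l 204) (T.a (T.l 204) (T.b (T.l 204) (T.l 204)))) (T.l 1)) (T.l 1)) (T.l 1))), by decide +kernel⟩

def A102E_024 :
    ∃ t, chk3 (onCell 0 67108864 0 1073741824 587336777 62277027 (corT true 1 c0B cA102E gB0q1 gB2q0 gB4q2 gB5q2 true false)) t 1 1 1 = true :=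
  ⟨(T.b (T.b (T.a (T.a (T.l 204) (T.a (T.l 204) (T.l 204))) (T.a (T.b (T.l 204) (T.l 204)) (T.b (T.l 204) (T.l 204)))) (T.a (T.l 204) (T.b (T.b (T.l 0) (T.l 0)) (T.l 1)))) (T.l 1)), by decide +kernel⟩

def A102E_030 :
    ∃ t, chk3 (onCell 0 67108864 0 1073741824 587336777 62277027 (corT true 1 c0B cA102E gB0q1 gB3q0 gB0q2 gB1q2 true true)) t 1 1 1 = true :=
  ⟨(T.b (T.l 2) (T.b (T.b (T.l 2) (T.b (T.l 2) (T.b (T.a (T.a (T.l 204) (T.l 204)) (T.a (T.l 204) (T.l 236))) (T.a (T.l 1) (T.l 1))))) (T.l 1))), by decide +kernel⟩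

def A102E_031 :
    ∃ t, chk3 (onCell 0 67108864 0 1073741824 587336777 62277027 (corT true 1 c0B cA102E gB0q1 gB3q0 gB1q2 gB2q2 true true)) t 1 1 1 = true :=
  ⟨(T.b (T.l 2) (T.b (T.b (T.l 2) (T.b (T.a (T.l 204) (T.a (T.l 204) (T.l 204))) (T.b (T.a (T.l 204) (T.a (T.l 204) (T.l 204))) (T.l 1)))) (T.l 1))), by decide +kernel⟩

end Pool.Agent.Strip051.G.I5470_6050.Tab.CG
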