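import Pool.Agent.Strip051.G.I5470_6050.Gn
import Pool.Agent.Strip051.PB.Corns
import Pool.Agent.Strip051.PB.CornW

/-! # Certificates of the aligned corners (generated) -/

set_option linter.all false

namespace Pool.Agent.Strip051.G.I5470_6050.Tab.CW

open Pool.Agent.Strip051.PB

def A011E_000 :
    ∃ t, chk3 (onCell 0 67108864 0 1073741824 587336777 62277027 (corW 3 c0B eng mog cA011E gB0q0 gB0q1 gB0q1 gB1q1 dB0q0 dB0q1 dB0q1 dB1q1 true false)) t 1 1 1 = true :=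
  ⟨(T.l 1), by decide +kernel⟩

def A011L_004 :
    ∃ t, chk3 (onCell 0 67108864 0 1073741824 587336777 62277027 (corW 3 c0B eng mog cA011L gB0q0 gB0q1 gB4q1 gB5q1 dB0q0 dB0q1 dB4q1 dB5q1 false true)) t 1 1 1 = true :=
  ⟨(T.l 2), by decide +kernel⟩

def A011L_005 :
    ∃ t, chk3 (onCell 0 67108864 0 1073741824 587336777 62277027 (corW 3 c0B eng mog cA011L gB0q0 gB0q1 gB5q1 gB6q1 dB0q0 dB0q1 dB5q1 dB6q1 true true)) t 1 1 1 = true :=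
  ⟨(T.l 2), by decide +kernel⟩

def A011L_006 :
    ∃ t, chk3 (onCell 0 67108864 0 1073741824 587336777 62277027 (corW 3 c0B eng mog cA011L gB0q0 gB0q1 gB6q1 gB7q1 dB0q0 dB0q1 dB6q1 dB7q1 true true)) t 1 1 1 = true :=
  ⟨(T.l 2), by decide +kernel⟩

def A011R_050 :
    ∃ t, chk3 (onCell 0 67108864 0 1073741824 587336777 62277027 (corW 3 c0B eng mog cA011R gB0q0 gB5q1 gB0q1 gB1q1 dB0q0 dB5q1 dB0q1 dB1q1 true false)) t 1 1 1 = true :=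
  ⟨(T.b (T.b (T.b (T.b (T.a (T.a (T.l 204) (T.l 204)) (T.a (T.l 204) (T.l 204))) (T.b (T.a (T.a (T.l 204) (T.l 204)) (T.c (T.l 204) (T.a (T.l 204) (T.l 204)))) (T.b (T.b (T.a (T.l 204) (T.a (T.l 204) (T.l 460))) (T.l 1)) (T.l 1)))) (T.l 1)) (T.l 1)) (T.l 1)), by decide +kernel⟩

def A011R_060 :
    ∃ t, chk3 (onCell 0 67108864 0 1073741824 587336777 62277027 (corW 3 c0B eng mog cA011R gB0q0 gB6q1 gB0q1 gB1q1 dB0q0 dB6q1 dB0q1 dB1q1 true false)) t 1 1 1 = true :=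
  ⟨(T.b (T.b (T.b (T.b (T.l 204) (T.a (T.l 204) (T.l 204))) (T.b (T.a (T.l 204) (T.l 204)) (T.b (T.a (T.a (T.l 204) (T.l 204)) (T.a (T.l 204) (T.l 204))) (T.b (T.a (T.c (T.a (T.l 204) (T.l 204)) (T.l 204)) (T.c (T.a (T.l 204) (T.l 204)) (T.l 204))) (T.a (T.l 1) (T.b (T.c (T.a (T.a (T.l 1) (T.l 204)) (T.l 204)) (T.l 204)) (T.l 1))))))) (T.l 1)) (T.l 1)), by decide +kernel⟩

def A011R_070 :
    ∃ t, chk3 (onCell 0 67108864 0 1073741824 587336777 62277027 (corW 3 c0B eng mog cA011R gB0q0 gB7q1 gB0q1 gB1q1 dB0q0 dB7q1 dB0q1 dB1q1 true false)) t 1 1 1 = true :=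
  ⟨(T.b (T.b (T.b (T.a (T.l 0) (T.l 0)) (T.b (T.a (T.l 0) (T.l 0)) (T.a (T.l 0) (T.l 0)))) (T.b (T.b (T.a (T.b (T.l 0) (T.a (T.l 0) (T.l 0))) (T.b (T.l 0) (T.a (T.l 0) (T.l 0)))) (T.b (T.b (T.a (T.a (T.c (T.l 0) (T.l 0)) (T.l 0)) (T.a (T.l 0) (T.l 0))) (T.b (T.a (T.a (T.b (T.c (T.l 0) (T.l 0)) (T.a (T.b (T.a (T.a (T.c (T.l 0) (T.c (T.l 0) (T.c (T.l 0) (T.l 0)))) (T.l 0)) (T.l 0)) (T.a (T.l 1) (T.b (T.b (T.a (T.l 1) (T.l 0)) (T.l 1)) (T.l 1)))) (T.b (T.l 0) (T.b (T.a (T.c (T.l 0) (T.a (T.l 0) (T.l 0))) (T.l 0)) (T.a (T.l 1) (T.a (T.l 1) (T.b (T.l 0) (T.l 1)))))))) (T.a (T.a (T.b (T.l 204) (T.a (T.c (T.l 0) (T.c (T.l 0) (T.c (T.l 0) (T.l 0)))) (T.l 0))) (T.l 0)) (T.l 0))) (T.a (T.l 0) (T.l 0))) (T.a (T.a (T.l 1) (T.b (T.b (T.a (T.l 1) (T.b (T.a (T.b (T.l 0) (T.l 1)) (T.l 0)) (T.l 1))) (T.l 1)) (T.l 1))) (T.b (T.a (T.b (T.a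 (T.a (T.c (T.l 0) (T.c (T.l 0) (T.l 0))) (T.l 0)) (T.l 0)) (T.a (T.l 1) (T.b (T.c (T.l 0) (T.c (T.l 0) (T.a (T.l 0) (T.l 0)))) (T.l 1)))) (T.a (T.a (T.c (T.l 0) (T.c (T.l 0) (T.c (T.l 0) (T.l 0)))) (T.l 0)) (T.l 0))) (T.a (T.l 1) (T.a (T.l 1) (T.a (T.l 1) (T.b (T.b (T.l 0) (T.l 1)) (T.l 1))))))))) (T.l 1))) (T.l 1))) (T.l 1)), by decide +kernel⟩

def A011R_150 :
    ∃ t, chk3 (onCell 0 67108864 0 1073741824 587336777 62277027 (corW 3 c0B eng mog cA011R gB1q0 gB5q1 gB0q1 gB1q1 dB1q0 dB5q1 dB0q1 dB1q1 true false)) t 1 1 1 = true :=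
  ⟨(T.b (T.b (T.b (T.l 204) (T.l 1)) (T.l 1)) (T.l 1)), by decide +kernel⟩

def A011R_160 :
    ∃ t, chk3 (onCell 0 67108864 0 1073741824 587336777 62277027 (corW 3 c0B eng mog cA011R gB1q0 gB6q1 gB0q1 gB1q1 dB1q0 dB6q1 dB0q1 dB1q1 true false)) t 1 1 1 = true :=
  ⟨(T.b (T.b (T.b (T.l 0) (T.a (T.l 204) (T.l 204))) (T.l 1)) (T.l 1)), by decide +kernel⟩

def A011R_170 :
    ∃ t, chk3 (onCell 0 67108864 0 1073741824 587336777 62277027 (corW 3 c0B eng mog cA011R gB1q0 gB7q1 gB0q1 gB1q1 dB1q0 dB7q1 dB0q1 dB1q1 true false)) t 1 1 1 = true :=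
  ⟨(T.b (T.b (T.b (T.l 0) (T.a (T.l 0) (T.l 0))) (T.b (T.b (T.l 0) (T.l 1)) (T.l 1))) (T.l 1)), by decide +kernel⟩

def A011R_250 :
    ∃ t, chk3 (onCell 0 67108864 0 1073741824 587336777 62277027 (corW 3 c0B eng mog cA011R gB2q0 gB5q1 gB0q1 gB1q1 dB2q0 dB5q1 dB0q1 dB1q1 true false)) t 1 1 1 = true :=
  ⟨(T.l 1), by decide +kernel⟩

def A011R_260 :
    ∃ t, chk3 (onCell 0 67108864 0 1073741824 587336777 62277027 (corW 3 c0B eng mog cA011R gB2q0 gB6q1 gB0q1 gB1q1 dB2q0 dB6q1 dB0q1 dB1q1 true false)) t 1 1 1 = true :=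
  ⟨(T.b (T.b (T.b (T.l 0) (T.l 1)) (T.l 1)) (T.l 1)), by decide +kernel⟩

def A011R_270 :
    ∃ t, chk3 (onCell 0 67108864 0 1073741824 587336777 62277027 (corW 3 c0B eng mog cA011R gB2q0 gB7q1 gB0q1 gB1q1 dB2q0 dB7q1 dB0q1 dB1q1 true false)) t 1 1 1 = true :=
  ⟨(T.b (T.b (T.b (T.l 816) (T.l 816)) (T.l 1)) (T.l 1)), by decide +kernel⟩

def A011R_350 :
    ∃ t, chk3 (onCell 0 67108864 0 1073741824 587336777 62277027 (corW 3 c0B eng mog cA011R gB3q0 gB5q1 gB0q1 gB1q1 dB3q0 dB5q1 dB0q1 dB1q1 true false)) t 1 1 1 = true :=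
  ⟨(T.l 1), by decide +kernel⟩

def A011R_360 :
    ∃ t, chk3 (onCell 0 67108864 0 1073741824 587336777 62277027 (corW 3 c0B eng mog cA011R gB3q0 gB6q1 gB0q1 gB1q1 dB3q0 dB6q1 dB0q1 dB1q1 true false)) t 1 1 1 = true :=
  ⟨(T.l 1), by decide +kernel⟩

def A011R_370 :
    ∃ t, chk3 (onCell 0 67108864 0 1073741824 587336777 62277027 (corW 3 c0B eng mog cA011R gB3q0 gB7q1 gB0q1 gB1q1 dB3q0 dB7q1 dB0q1 dB1q1 true false)) t 1 1 1 = true :=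
  ⟨(T.b (T.l 1) (T.l 1)), by decide +kernel⟩

def A011R_450 :
    ∃ t, chk3 (onCell 0 67108864 0 1073741824 587336777 62277027 (corW 3 c0B eng mog cA011R gB4q0 gB5q1 gB0q1 gB1q1 dB4q0 dB5q1 dB0q1 dB1q1 true false)) t 1 1 1 = true :=
  ⟨(T.l 1), by decide +kernel⟩

def A011R_460 :
    ∃ t, chk3 (onCell 0 67108864 0 1073741824 587336777 62277027 (corW 3 c0B eng mog cA011R gB4q0 gB6q1 gB0q1 gB1q1 dB4q0 dB6q1 dB0q1 dB1q1 true false)) t 1 1 1 = true :=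
  ⟨(T.l 1), by decide +kernel⟩

def A011R_470 :
    ∃ t, chk3 (onCell 0 67108864 0 1073741824 587336777 62277027 (corW 3 c0B eng mog cA011R gB4q0 gB7q1 gB0q1 gB1q1 dB4q0 dB7q1 dB0q1 dB1q1 true false)) t 1 1 1 = true :=
  ⟨(T.l 1), by decide +kernel⟩

def A012E_000_1_4_1 :
    ∃ t, chk3 (onCell 0 67108864 0 1073741824 587336777 62277027 (corW 3 c0B eng mog cA012E gB0q0 gB0q1 gB0q2 gB1q2 dB0q0 dB0q1 dB0q2 dB1q2 true true)) t 1 4 1 = true :=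
  ⟨(T.l 1), by decide +kernel⟩

def A012E_000_1_10_1 :
    ∃ t, chk3 (onCell 0 67108864 0 1073741824 587336777 62277027 (corW 3 c0B eng mog cA012E gB0q0 gB0q1 gB0q2 gB1q2 dB0q0 dB0q1 dB0q2 dB1q2 true true)) t 1 10 1 = true :=
  ⟨(T.l 1), by decide +kernel⟩

def A012E_000_1_22_1 :
    ∃ t, chk3 (onCell 0 67108864 0 1073741824 587336777 62277027 (corW 3 c0B eng mog cA012E gB0q0 gB0q1 gB0q2 gB1q2 dB0q0 dB0q1 dB0q2 dB1q2 true true)) t 1 22 1 = true :=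
  ⟨(T.l 1), by decide +kernel⟩

def A012E_000_1_46_1 :
    ∃ t, chk3 (onCell 0 67108864 0 1073741824 587336777 62277027 (corW 3 c0B eng mog cA012E gB0q0 gB0q1 gB0q2 gB1q2 dB0q0 dB0q1 dB0q2 dB1q2 true true)) t 1 46 1 = true :=
  ⟨(T.l 1), by decide +kernel⟩

def A012E_000_1_94_1 :
    ∃ t, chk3 (onCell 0 67108864 0 1073741824 587336777 62277027 (corW 3 c0B eng mog cA012E gB0q0 gB0q1 gB0q2 gB1q2 dB0q0 dB0q1 dB0q2 dB1q2 true true)) t 1 94 1 = true :=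
  ⟨(T.a (T.l 1) (T.b (T.a (T.l 1) (T.a (T.l 1) (T.a (T.l 1) (T.a (T.l 1) (T.b (T.l 1) (T.b (T.l 1) (T.l 0))))))) (T.a (T.a (T.l 1) (T.b (T.l 1) (T.b (T.a (T.l 1) (T.a (T.l 1) (T.l 0))) (T.a (T.c (T.l 0) (T.l 0)) (T.l 0))))) (T.a (T.b (T.a (T.l 1) (T.b (T.l 1) (T.l 0))) (T.c (T.l 0) (T.l 0))) (T.a (T.c (T.l 0) (T.c (T.l 0) (T.l 0))) (T.l 0)))))), by decide +kernel⟩

def A012E_000_1_95_1 :
    ∃ t, chk3 (onCell 0 67108864 0 1073741824 587336777 62277027 (corW 3 c0B eng mog cA012E gB0q0 gB0q1 gB0q2 gB1q2 dB0q0 dB0q1 dB0q2 dB1q2 true true)) t 1 95 1 = true :=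
  ⟨(T.a (T.a (T.b (T.l 1) (T.a (T.b (T.l 1) (T.a (T.b (T.l 1) (T.a (T.b (T.l 1) (T.c (T.l 0) (T.l 0))) (T.c (T.l 0) (T.c (T.l 0) (T.l 0))))) (T.b (T.b (T.a (T.l 1) (T.a (T.l 1) (T.l 0))) (T.a (T.a (T.l 1) (T.l 0)) (T.l 0))) (T.l 0)))) (T.b (T.b (T.a (T.l 1) (T.a (T.l 1) (T.a (T.l 1) (T.b (T.l 1) (T.l 0))))) (T.a (T.a (T.l 1) (T.b (T.l 1) (T.l 0))) (T.c (T.l 0) (T.c (T.l 0) (T.l 0))))) (T.a (T.c (T.l 0) (T.c (T.l 0) (T.l 0))) (T.l 0))))) (T.a (T.b (T.a (T.l 1) (T.b (T.l 1) (T.b (T.l 1) (T.b (T.a (T.l 1) (T.l 0)) (T.l 0))))) (T.a (T.b (T.b (T.a (T.b (T.l 1) (T.l 0)) (T.l 0)) (T.l 0)) (T.l 0)) (T.c (T.l 0) (T.l 0)))) (T.b (T.b (T.a (T.l 1) (T.a (T.l 1) (T.a (T.l 1) (T.b (T.l 1) (T.l 0))))) (T.a (T.b (T.a (T.l 1) (T.c (T.l 0) (T.l 0))) (T.l 0)) (T.c (T.l 0) (T.l 0)))) (T.c (T.l 0) (T.l 0))))) (T.a (T.a (T.b (T.b (T.a (T.b (T.l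 1) (T.l 0)) (T.c (T.l 0) (T.l 0))) (T.l 0)) (T.c (T.l 0) (T.l 0))) (T.c (T.c (T.l 0) (T.l 0)) (T.b (T.c (T.l 0) (T.l 0)) (T.l 204)))) (T.a (T.c (T.c (T.l 0) (T.l 0)) (T.c (T.l 0) (T.l 0))) (T.a (T.c (T.l 0) (T.l 0)) (T.b (T.l 0) (T.c (T.l 0) (T.l 16))))))), by decide +kernel⟩

def A012E_000_1_3_1 :
    ∃ t, chk3 (onCell 0 67108864 0 1073741824 587336777 62277027 (corW 3 c0B eng mog cA012E gB0q0 gB0q1 gB0q2 gB1q2 dB0q0 dB0q1 dB0q2 dB1q2 true true)) t 1 3 1 = true :=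
  ⟨(T.b (T.b (T.b (T.b (T.a (T.a (T.b (T.a (T.c (T.b (T.a (T.c (T.l 0) (T.l 0)) (T.l 0)) (T.c (T.l 0) (T.l 0))) (T.b (T.a (T.c (T.l 0) (T.l 0)) (T.l 0)) (T.c (T.l 0) (T.l 0)))) (T.c (T.b (T.c (T.l 0) (T.l 0)) (T.c (T.l 0) (T.l 0))) (T.b (T.c (T.l 0) (T.l 0)) (T.c (T.l 0) (T.l 0))))) (T.b (T.a (T.c (T.c (T.l 0) (T.l 0)) (T.c (T.l 0) (T.l 0))) (T.b (T.c (T.l 204) (T.l 204)) (T.l 2))) (T.l 2))) (T.b (T.a (T.c (T.c (T.l 0) (T.l 0)) (T.c (T.a (T.l 204) (T.l 204)) (T.a (T.l 204) (T.l 204)))) (T.c (T.c (T.l 204) (T.l 204)) (T.c (T.l 204) (T.l 204)))) (T.l 2))) (T.b (T.a (T.a (T.c (T.c (T.l 204) (T.l 204)) (T.c (T.l 204) (T.l 204))) (T.c (T.l 0) (T.c (T.l 204) (T.l 204)))) (T.b (T.b (T.a (T.c (T.l 0) (T.l 204)) (T.a (T.l 0) (T.l 2))) (T.l 2)) (T.l 2))) (T.l 2))) (T.l 2)) (T.l 2)) (T.l 2)) (T.l 2)), by decide +kernel⟩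

theorem A012E_000_1_47_1 :
    ∃ t, chk3 (onCell 0 67108864 0 1073741824 587336777 62277027 (corW 3 c0B eng mog cA012E gB0q0 gB0q1 gB0q2 gB1q2 dB0q0 dB0q1 dB0q2 dB1q2 true true)) t 1 47 1 = true :=
  ex3_b A012E_000_1_94_1 A012E_000_1_95_1
theorem A012E_000_1_23_1 :
    ∃ t, chk3 (onCell 0 67108864 0 1073741824 587336777 62277027 (corW 3 c0B eng mog cA012E gB0q0 gB0q1 gB0q2 gB1q2 dB0q0 dB0q1 dB0q2 dB1q2 true true)) t 1 23 1 = true :=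
  ex3_b A012E_000_1_46_1 A012E_000_1_47_1
theorem A012E_000_1_11_1 :
    ∃ t, chk3 (onCell 0 67108864 0 1073741824 587336777 62277027 (corW 3 c0B eng mog cA012E gB0q0 gB0q1 gB0q2 gB1q2 dB0q0 dB0q1 dB0q2 dB1q2 true true)) t 1 11 1 = true :=
  ex3_b A012E_000_1_22_1 A012E_000_1_23_1
theorem A012E_000_1_5_1 :
    ∃ t, chk3 (onCell 0 67108864 0 1073741824 587336777 62277027 (corW 3 c0B eng mog cA012E gB0q0 gB0q1 gB0q2 gB1q2 dB0q0 dB0q1 dB0q2 dB1q2 true true)) t 1 5 1 = true :=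
  ex3_b A012E_000_1_10_1 A012E_000_1_11_1
theorem A012E_000_1_2_1 :
    ∃ t, chk3 (onCell 0 67108864 0 1073741824 587336777 62277027 (corW 3 c0B eng mog cA012E gB0q0 gB0q1 gB0q2 gB1q2 dB0q0 dB0q1 dB0q2 dB1q2 true true)) t 1 2 1 = true :=
  ex3_b A012E_000_1_4_1 A012E_000_1_5_1
theorem A012E_000 :
    ∃ t, chk3 (onCell 0 67108864 0 1073741824 587336777 62277027 (corW 3 c0B eng mog cA012E gB0q0 gB0q1 gB0q2 gB1q2 dB0q0 dB0q1 dB0q2 dB1q2 true true)) t 1 1 1 = true :=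
  ex3_b A012E_000_1_2_1 A012E_000_1_3_1

def A012E_001 :
    ∃ t, chk3 (onCell 0 67108864 0 1073741824 587336777 62277027 (corW 3 c0B eng mog cA012E gB0q0 gB0q1 gB1q2 gB2q2 dB0q0 dB0q1 dB1q2 dB2q2 true true)) t 1 1 1 = true :=
  ⟨(T.b (T.b (T.l 1) (T.b (T.l 1) (T.a (T.l 1) (T.b (T.l 1) (T.a (T.l 1) (T.b (T.l 1) (T.a (T.l 1) (T.b (T.l 1) (T.b (T.l 1) (T.a (T.l 0) (T.c (T.l 0) (T.l 0)))))))))))) (T.b (T.b (T.a (T.b (T.b (T.a (T.b (T.a (T.l 1) (T.a (T.l 1) (T.b (T.l 1) (T.b (T.l 1) (T.l 204))))) (T.c (T.a (T.c (T.l 0) (T.a (T.l 0) (T.l 0))) (T.l 0)) (T.a (T.b (T.c (T.l 0) (T.l 0)) (T.l 0)) (T.c (T.l 0) (T.l 0))))) (T.b (T.b (T.l 1) (T.a (T.c (T.l 204) (T.l 204)) (T.c (T.l 204) (T.l 204)))) (T.c (T.l 0) (T.a (T.l 204) (T.l 204))))) (T.a (T.c (T.a (T.l 0) (T.l 0)) (T.b (T.a (T.l 0) (T.l 0)) (T.l 0))) (T.c (T.l 0) (T.l 0))))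 (T.b (T.b (T.a (T.c (T.a (T.l 816) (T.l 816)) (T.l 0)) (T.l 0)) (T.l 2)) (T.l 2))) (T.b (T.a (T.b (T.b (T.c (T.a (T.l 204) (T.l 204)) (T.a (T.c (T.l 204) (T.l 204)) (T.l 204))) (T.c (T.l 0) (T.l 0))) (T.c (T.l 0) (T.l 0))) (T.a (T.b (T.c (T.l 0) (T.b (T.l 204) (T.l 204))) (T.l 0)) (T.b (T.a (T.c (T.l 0) (T.l 0)) (T.b (T.b (T.l 0) (T.l 0)) (T.l 0))) (T.a (T.b (T.c (T.l 0) (T.l 0)) (T.c (T.l 0) (T.l 0))) (T.b (T.l 0) (T.c (T.l 0) (T.l 0))))))) (T.l 2))) (T.l 2)) (T.l 2))), by decide +kernel⟩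

def A012E_002 :
    ∃ t, chk3 (onCell 0 67108864 0 1073741824 587336777 62277027 (corW 3 c0B eng mog cA012E gB0q0 gB0q1 gB2q2 gB3q2 dB0q0 dB0q1 dB2q2 dB3q2 true true)) t 1 1 1 = true :=
  ⟨(T.b (T.l 1) (T.b (T.b (T.b (T.b (T.l 1) (T.b (T.l 1) (T.a (T.a (T.l 1) (T.l 0)) (T.a (T.l 0) (T.a (T.l 0) (T.c (T.l 0) (T.l 0))))))) (T.a (T.a (T.b (T.c (T.a (T.b (T.l 816) (T.l 816)) (T.l 816)) (T.l 0)) (T.c (T.l 816) (T.l 816))) (T.b (T.l 0) (T.l 816))) (T.a (T.l 0) (T.a (T.b (T.a (T.l 0) (T.c (T.l 0) (T.l 0))) (T.a (T.c (T.l 0) (T.l 0)) (T.c (T.l 0) (T.l 0)))) (T.b (T.a (T.c (T.l 0) (T.l 0)) (T.c (T.l 0) (T.l 0))) (T.a (T.c (T.l 0) (T.l 0)) (T.c (T.l 0) (T.l 0)))))))) (T.b (T.a (T.a (T.b (T.l 816) (T.l 2)) (T.l 816)) (T.l 2)) (T.l 2))) (T.l 2))), by decide +kernel⟩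

def A012E_003_1_2_1 :
    ∃ t, chk3 (onCell 0 67108864 0 1073741824 587336777 62277027 (corW 3 c0B eng mog cA012E gB0q0 gB0q1 gB3q2 gB4q2 dB0q0 dB0q1 dB3q2 dB4q2 true true)) t 1 2 1 = true :=
  ⟨(T.l 1), by decide +kernel⟩

def A012E_003_1_6_1 :
    ∃ t, chk3 (onCell 0 67108864 0 1073741824 587336777 62277027 (corW 3 c0B eng mog cA012E gB0q0 gB0q1 gB3q2 gB4q2 dB0q0 dB0q1 dB3q2 dB4q2 true true)) t 1 6 1 = true :=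
  ⟨(T.b (T.b (T.l 1) (T.b (T.l 1) (T.b (T.l 1) (T.a (T.l 0) (T.a (T.l 816) (T.a (T.l 0) (T.l 0))))))) (T.a (T.b (T.a (T.b (T.l 816) (T.l 816)) (T.l 816)) (T.a (T.b (T.l 816) (T.l 816)) (T.l 816))) (T.a (T.a (T.l 880) (T.b (T.a (T.l 816) (T.b (T.l 816) (T.l 816))) (T.a (T.b (T.l 816) (T.c (T.l 816) (T.l 816))) (T.b (T.c (T.l 816) (T.l 816)) (T.c (T.l 816) (T.l 816)))))) (T.b (T.a (T.b (T.c (T.l 0) (T.l 0)) (T.a (T.l 816) (T.l 816))) (T.b (T.c (T.l 0) (T.l 0)) (T.c (T.l 816) (T.l 816)))) (T.a (T.a (T.b (T.l 816) (T.l 880)) (T.b (T.l 816) (T.l 816))) (T.b (T.a (T.l 816) (T.l 816)) (T.a (T.l 816) (T.l 816)))))))), by decide +kernel⟩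

def A012E_003_1_7_1 :
    ∃ t, chk3 (onCell 0 67108864 0 1073741824 587336777 62277027 (corW 3 c0B eng mog cA012E gB0q0 gB0q1 gB3q2 gB4q2 dB0q0 dB0q1 dB3q2 dB4q2 true true)) t 1 7 1 = true :=
  ⟨(T.b (T.a (T.b (T.a (T.c (T.l 816) (T.l 816)) (T.l 880)) (T.b (T.a (T.c (T.l 816) (T.l 816)) (T.l 816)) (T.l 2))) (T.b (T.b (T.a (T.a (T.l 816) (T.a (T.c (T.l 880) (T.l 816)) (T.c (T.l 816) (T.l 816)))) (T.a (T.a (T.c (T.l 816) (T.l 816)) (T.l 880)) (T.a (T.l 880) (T.l 880)))) (T.b (T.a (T.a (T.l 816) (T.a (T.c (T.l 816) (T.l 816)) (T.l 816))) (T.a (T.a (T.l 816) (T.l 816)) (T.c (T.l 880) (T.l 816)))) (T.b (T.a (T.a (T.a (T.l 816) (T.l 816)) (T.a (T.l 816) (T.l 816))) (T.a (T.c (T.l 880) (T.l 816)) (T.c (T.l 816) (T.l 816)))) (T.a (T.a (T.a (T.l 816) (T.c (T.l 816) (T.l 816))) (T.a (T.l 816) (T.l 816))) (T.a (T.c (T.l 880) (T.l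 816)) (T.c (T.l 816) (T.l 816))))))) (T.b (T.b (T.b (T.a (T.a (T.a (T.l 816) (T.c (T.l 816) (T.l 816))) (T.a (T.l 816) (T.l 816))) (T.a (T.a (T.l 816) (T.l 816)) (T.c (T.l 816) (T.l 816)))) (T.a (T.b (T.a (T.a (T.l 816) (T.l 880)) (T.a (T.l 816) (T.l 816))) (T.a (T.a (T.l 816) (T.c (T.l 816) (T.l 816))) (T.a (T.l 816) (T.l 816)))) (T.b (T.a (T.c (T.l 816) (T.l 816)) (T.c (T.l 816) (T.l 816))) (T.l 2)))) (T.l 2)) (T.l 2)))) (T.l 2)), by decide +kernel⟩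

theorem A012E_003_1_3_1 :
    ∃ t, chk3 (onCell 0 67108864 0 1073741824 587336777 62277027 (corW 3 c0B eng mog cA012E gB0q0 gB0q1 gB3q2 gB4q2 dB0q0 dB0q1 dB3q2 dB4q2 true true)) t 1 3 1 = true :=
  ex3_b A012E_003_1_6_1 A012E_003_1_7_1
theorem A012E_003 :
    ∃ t, chk3 (onCell 0 67108864 0 1073741824 587336777 62277027 (corW 3 c0B eng mog cA012E gB0q0 gB0q1 gB3q2 gB4q2 dB0q0 dB0q1 dB3q2 dB4q2 true true)) t 1 1 1 = true :=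
  ex3_b A012E_003_1_2_1 A012E_003_1_3_1

def A012E_004 :
    ∃ t, chk3 (onCell 0 67108864 0 1073741824 587336777 62277027 (corW 3 c0B eng mog cA012E gB0q0 gB0q1 gB4q2 gB5q2 dB0q0 dB0q1 dB4q2 dB5q2 true false)) t 1 1 1 = true :=
  ⟨(T.b (T.l 1) (T.b (T.l 1) (T.b (T.b (T.l 1) (T.a (T.a (T.c (T.l 816) (T.l 816)) (T.l 816)) (T.a (T.a (T.a (T.l 816) (T.b (T.l 816) (T.l 816))) (T.c (T.l 880) (T.l 816))) (T.a (T.b (T.l 816) (T.l 816)) (T.b (T.l 816) (T.l 816)))))) (T.a (T.a (T.b (T.b (T.l 816) (T.l 816)) (T.l 816)) (T.a (T.b (T.l 816) (T.l 816)) (T.b (T.l 816) (T.a (T.l 816) (T.b (T.l 816) (T.l 816)))))) (T.a (T.a (T.b (T.a (T.b (T.l 816) (T.l 816)) (T.b (T.l 816) (T.l 816))) (T.a (T.b (T.l 816) (T.l 816)) (T.l 816))) (T.b (T.b (T.l 816) (T.l 816)) (T.b (T.l 816) (T.l 816)))) (T.a (T.b (T.b (T.l 816) (T.l 816)) (T.b (T.l 816)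 (T.l 816))) (T.b (T.b (T.l 816) (T.l 816)) (T.b (T.l 816) (T.l 816))))))))), by decide +kernel⟩

def A012L_006 :
    ∃ t, chk3 (onCell 0 67108864 0 1073741824 587336777 62277027 (corW 3 c0B eng mog cA012L gB0q0 gB0q1 gB6q2 gB7q2 dB0q0 dB0q1 dB6q2 dB7q2 false true)) t 1 1 1 = true :=
  ⟨(T.l 2), by decide +kernel⟩

def A012R_050 :
    ∃ t, chk3 (onCell 0 67108864 0 1073741824 587336777 62277027 (corW 3 c0B eng mog cA012R gB0q0 gB5q1 gB0q2 gB1q2 dB0q0 dB5q1 dB0q2 dB1q2 true true)) t 1 1 1 = true :=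
  ⟨(T.b (T.l 2) (T.l 2)), by decide +kernel⟩

def A012R_051 :
    ∃ t, chk3 (onCell 0 67108864 0 1073741824 587336777 62277027 (corW 3 c0B eng mog cA012R gB0q0 gB5q1 gB1q2 gB2q2 dB0q0 dB5q1 dB1q2 dB2q2 true true)) t 1 1 1 = true :=
  ⟨(T.b (T.l 2) (T.l 2)), by decide +kernel⟩

def A012R_052 :
    ∃ t, chk3 (onCell 0 67108864 0 1073741824 587336777 62277027 (corW 3 c0B eng mog cA012R gB0q0 gB5q1 gB2q2 gB3q2 dB0q0 dB5q1 dB2q2 dB3q2 true true)) t 1 1 1 = true :=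
  ⟨(T.b (T.l 2) (T.l 2)), by decide +kernel⟩

def A012R_053 :
    ∃ t, chk3 (onCell 0 67108864 0 1073741824 587336777 62277027 (corW 3 c0B eng mog cA012R gB0q0 gB5q1 gB3q2 gB4q2 dB0q0 dB5q1 dB3q2 dB4q2 true true)) t 1 1 1 = true :=
  ⟨(T.l 2), by decide +kernel⟩

def A012R_054 :
    ∃ t, chk3 (onCell 0 67108864 0 1073741824 587336777 62277027 (corW 3 c0B eng mog cA012R gB0q0 gB5q1 gB4q2 gB5q2 dB0q0 dB5q1 dB4q2 dB5q2 true false)) t 1 1 1 = true :=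
  ⟨(T.b (T.b (T.a (T.l 0) (T.b (T.l 204) (T.l 0))) (T.b (T.l 0) (T.a (T.l 816) (T.b (T.l 816) (T.l 816))))) (T.b (T.a (T.l 816) (T.a (T.b (T.l 816) (T.l 816)) (T.b (T.l 816) (T.l 816)))) (T.a (T.a (T.l 816) (T.a (T.l 816) (T.b (T.l 816) (T.l 816)))) (T.a (T.b (T.b (T.l 816) (T.l 816)) (T.b (T.l 816) (T.l 880))) (T.b (T.l 816) (T.b (T.l 816) (T.l 816))))))), by decide +kernel⟩

def A012R_060 :
    ∃ t, chk3 (onCell 0 67108864 0 1073741824 587336777 62277027 (corW 3 c0B eng mog cA012R gB0q0 gB6q1 gB0q2 gB1q2 dB0q0 dB6q1 dB0q2 dB1q2 true true)) t 1 1 1 = true :=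
  ⟨(T.l 2), by decide +kernel⟩

def A012R_061 :
    ∃ t, chk3 (onCell 0 67108864 0 1073741824 587336777 62277027 (corW 3 c0B eng mog cA012R gB0q0 gB6q1 gB1q2 gB2q2 dB0q0 dB6q1 dB1q2 dB2q2 true true)) t 1 1 1 = true :=
  ⟨(T.l 2), by decide +kernel⟩

def A012R_062 :
    ∃ t, chk3 (onCell 0 67108864 0 1073741824 587336777 62277027 (corW 3 c0B eng mog cA012R gB0q0 gB6q1 gB2q2 gB3q2 dB0q0 dB6q1 dB2q2 dB3q2 true true)) t 1 1 1 = true :=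
  ⟨(T.l 2), by decide +kernel⟩

def A012R_063 :
    ∃ t, chk3 (onCell 0 67108864 0 1073741824 587336777 62277027 (corW 3 c0B eng mog cA012R gB0q0 gB6q1 gB3q2 gB4q2 dB0q0 dB6q1 dB3q2 dB4q2 true true)) t 1 1 1 = true :=
  ⟨(T.l 2), by decide +kernel⟩

def A012R_064 :
    ∃ t, chk3 (onCell 0 67108864 0 1073741824 587336777 62277027 (corW 3 c0B eng mog cA012R gB0q0 gB6q1 gB4q2 gB5q2 dB0q0 dB6q1 dB4q2 dB5q2 true false)) t 1 1 1 = true :=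
  ⟨(T.b (T.b (T.l 0) (T.b (T.l 816) (T.a (T.l 816) (T.b (T.l 816) (T.l 880))))) (T.a (T.b (T.l 816) (T.a (T.l 816) (T.a (T.l 816) (T.b (T.l 816) (T.l 816))))) (T.b (T.a (T.b (T.l 816) (T.l 816)) (T.b (T.l 816) (T.l 816))) (T.a (T.b (T.b (T.l 816) (T.l 816)) (T.b (T.l 816) (T.l 816))) (T.b (T.l 816) (T.b (T.l 816) (T.l 816))))))), by decide +kernel⟩

def A012R_070 :
    ∃ t, chk3 (onCell 0 67108864 0 1073741824 587336777 62277027 (corW 3 c0B eng mog cA012R gB0q0 gB7q1 gB0q2 gB1q2 dB0q0 dB7q1 dB0q2 dB1q2 true true)) t 1 1 1 = true :=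
  ⟨(T.l 2), by decide +kernel⟩

def A012R_071 :
    ∃ t, chk3 (onCell 0 67108864 0 1073741824 587336777 62277027 (corW 3 c0B eng mog cA012R gB0q0 gB7q1 gB1q2 gB2q2 dB0q0 dB7q1 dB1q2 dB2q2 true true)) t 1 1 1 = true :=
  ⟨(T.l 2), by decide +kernel⟩

def A012R_072 :
    ∃ t, chk3 (onCell 0 67108864 0 1073741824 587336777 62277027 (corW 3 c0B eng mog cA012R gB0q0 gB7q1 gB2q2 gB3q2 dB0q0 dB7q1 dB2q2 dB3q2 true true)) t 1 1 1 = true :=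
  ⟨(T.l 2), by decide +kernel⟩

def A012R_073 :
    ∃ t, chk3 (onCell 0 67108864 0 1073741824 587336777 62277027 (corW 3 c0B eng mog cA012R gB0q0 gB7q1 gB3q2 gB4q2 dB0q0 dB7q1 dB3q2 dB4q2 true true)) t 1 1 1 = true :=
  ⟨(T.l 2), by decide +kernel⟩

def A012R_074 :
    ∃ t, chk3 (onCell 0 67108864 0 1073741824 587336777 62277027 (corW 3 c0B eng mog cA012R gB0q0 gB7q1 gB4q2 gB5q2 dB0q0 dB7q1 dB4q2 dB5q2 true false)) t 1 1 1 = true :=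
  ⟨(T.b (T.b (T.l 0) (T.b (T.l 816) (T.a (T.l 816) (T.a (T.l 816) (T.l 816))))) (T.b (T.a (T.l 816) (T.a (T.b (T.l 816) (T.b (T.l 816) (T.l 816))) (T.b (T.l 816) (T.l 816)))) (T.a (T.a (T.l 816) (T.a (T.l 816) (T.b (T.l 816) (T.l 816)))) (T.a (T.b (T.b (T.l 816) (T.l 816)) (T.b (T.l 816) (T.l 880))) (T.b (T.l 816) (T.b (T.l 816) (T.l 816))))))), by decide +kernel⟩

def A012R_150 :
    ∃ t, chk3 (onCell 0 67108864 0 1073741824 587336777 62277027 (corW 3 c0B eng mog cA012R gB1q0 gB5q1 gB0q2 gB1q2 dB1q0 dB5q1 dB0q2 dB1q2 true true)) t 1 1 1 = true :=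
  ⟨(T.b (T.b (T.l 2) (T.l 2)) (T.l 2)), by decide +kernel⟩

def A012R_151 :
    ∃ t, chk3 (onCell 0 67108864 0 1073741824 587336777 62277027 (corW 3 c0B eng mog cA012R gB1q0 gB5q1 gB1q2 gB2q2 dB1q0 dB5q1 dB1q2 dB2q2 true true)) t 1 1 1 = true :=
  ⟨(T.b (T.b (T.l 2) (T.l 2)) (T.l 2)), by decide +kernel⟩

def A012R_152 :
    ∃ t, chk3 (onCell 0 67108864 0 1073741824 587336777 62277027 (corW 3 c0B eng mog cA012R gB1q0 gB5q1 gB2q2 gB3q2 dB1q0 dB5q1 dB2q2 dB3q2 true true)) t 1 1 1 = true :=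
  ⟨(T.b (T.b (T.l 2) (T.l 2)) (T.l 2)), by decide +kernel⟩

def A012R_153 :
    ∃ t, chk3 (onCell 0 67108864 0 1073741824 587336777 62277027 (corW 3 c0B eng mog cA012R gB1q0 gB5q1 gB3q2 gB4q2 dB1q0 dB5q1 dB3q2 dB4q2 true true)) t 1 1 1 = true :=
  ⟨(T.b (T.l 2) (T.l 2)), by decide +kernel⟩

def A012R_154 :
    ∃ t, chk3 (onCell 0 67108864 0 1073741824 587336777 62277027 (corW 3 c0B eng mog cA012R gB1q0 gB5q1 gB4q2 gB5q2 dB1q0 dB5q1 dB4q2 dB5q2 true false)) t 1 1 1 = true :=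
  ⟨(T.b (T.b (T.l 0) (T.b (T.l 816) (T.a (T.l 816) (T.b (T.l 816) (T.l 816))))) (T.b (T.a (T.l 816) (T.a (T.b (T.l 816) (T.l 816)) (T.b (T.l 816) (T.l 816)))) (T.a (T.a (T.l 816) (T.a (T.l 816) (T.b (T.l 816) (T.l 816)))) (T.a (T.b (T.l 816) (T.l 816)) (T.b (T.l 816) (T.l 816)))))), by decide +kernel⟩

def A012R_160 :
    ∃ t, chk3 (onCell 0 67108864 0 1073741824 587336777 62277027 (corW 3 c0B eng mog cA012R gB1q0 gB6q1 gB0q2 gB1q2 dB1q0 dB6q1 dB0q2 dB1q2 true true)) t 1 1 1 = true :=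
  ⟨(T.l 2), by decide +kernel⟩

def A012R_161 :
    ∃ t, chk3 (onCell 0 67108864 0 1073741824 587336777 62277027 (corW 3 c0B eng mog cA012R gB1q0 gB6q1 gB1q2 gB2q2 dB1q0 dB6q1 dB1q2 dB2q2 true true)) t 1 1 1 = true :=
  ⟨(T.l 2), by decide +kernel⟩

def A012R_162 :
    ∃ t, chk3 (onCell 0 67108864 0 1073741824 587336777 62277027 (corW 3 c0B eng mog cA012R gB1q0 gB6q1 gB2q2 gB3q2 dB1q0 dB6q1 dB2q2 dB3q2 true true)) t 1 1 1 = true :=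
  ⟨(T.l 2), by decide +kernel⟩

def A012R_163 :
    ∃ t, chk3 (onCell 0 67108864 0 1073741824 587336777 62277027 (corW 3 c0B eng mog cA012R gB1q0 gB6q1 gB3q2 gB4q2 dB1q0 dB6q1 dB3q2 dB4q2 true true)) t 1 1 1 = true :=
  ⟨(T.l 2), by decide +kernel⟩

def A012R_164 :
    ∃ t, chk3 (onCell 0 67108864 0 1073741824 587336777 62277027 (corW 3 c0B eng mog cA012R gB1q0 gB6q1 gB4q2 gB5q2 dB1q0 dB6q1 dB4q2 dB5q2 true false)) t 1 1 1 = true :=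
  ⟨(T.b (T.b (T.l 0) (T.a (T.l 816) (T.b (T.l 816) (T.b (T.l 816) (T.l 816))))) (T.a (T.b (T.l 816) (T.a (T.l 816) (T.a (T.l 816) (T.l 880)))) (T.b (T.a (T.b (T.l 816) (T.l 816)) (T.b (T.l 816) (T.l 816))) (T.a (T.b (T.l 816) (T.l 816)) (T.b (T.l 816) (T.l 816)))))), by decide +kernel⟩

def A012R_170 :
    ∃ t, chk3 (onCell 0 67108864 0 1073741824 587336777 62277027 (corW 3 c0B eng mog cA012R gB1q0 gB7q1 gB0q2 gB1q2 dB1q0 dB7q1 dB0q2 dB1q2 true true)) t 1 1 1 = true :=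
  ⟨(T.l 2), by decide +kernel⟩

def A012R_171 :
    ∃ t, chk3 (onCell 0 67108864 0 1073741824 587336777 62277027 (corW 3 c0B eng mog cA012R gB1q0 gB7q1 gB1q2 gB2q2 dB1q0 dB7q1 dB1q2 dB2q2 true true)) t 1 1 1 = true :=
  ⟨(T.l 2), by decide +kernel⟩

def A012R_172 :
    ∃ t, chk3 (onCell 0 67108864 0 1073741824 587336777 62277027 (corW 3 c0B eng mog cA012R gB1q0 gB7q1 gB2q2 gB3q2 dB1q0 dB7q1 dB2q2 dB3q2 true true)) t 1 1 1 = true :=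
  ⟨(T.l 2), by decide +kernel⟩

def A012R_173 :
    ∃ t, chk3 (onCell 0 67108864 0 1073741824 587336777 62277027 (corW 3 c0B eng mog cA012R gB1q0 gB7q1 gB3q2 gB4q2 dB1q0 dB7q1 dB3q2 dB4q2 true true)) t 1 1 1 = true :=
  ⟨(T.l 2), by decide +kernel⟩

def A012R_174 :
    ∃ t, chk3 (onCell 0 67108864 0 1073741824 587336777 62277027 (corW 3 c0B eng mog cA012R gB1q0 gB7q1 gB4q2 gB5q2 dB1q0 dB7q1 dB4q2 dB5q2 true false)) t 1 1 1 = true :=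
  ⟨(T.b (T.b (T.l 0) (T.b (T.l 816) (T.a (T.l 816) (T.b (T.l 816) (T.l 816))))) (T.b (T.a (T.l 816) (T.a (T.b (T.l 816) (T.l 816)) (T.b (T.l 816) (T.l 816)))) (T.a (T.a (T.l 816) (T.a (T.l 816) (T.b (T.l 816) (T.l 816)))) (T.a (T.b (T.l 816) (T.l 816)) (T.b (T.l 816) (T.l 816)))))), by decide +kernel⟩

def A012R_250 :
    ∃ t, chk3 (onCell 0 67108864 0 1073741824 587336777 62277027 (corW 3 c0B eng mog cA012R gB2q0 gB5q1 gB0q2 gB1q2 dB2q0 dB5q1 dB0q2 dB1q2 true true)) t 1 1 1 = true :=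
  ⟨(T.b (T.b (T.b (T.l 1) (T.l 0)) (T.l 2)) (T.l 2)), by decide +kernel⟩

def A012R_251 :
    ∃ t, chk3 (onCell 0 67108864 0 1073741824 587336777 62277027 (corW 3 c0B eng mog cA012R gB2q0 gB5q1 gB1q2 gB2q2 dB2q0 dB5q1 dB1q2 dB2q2 true true)) t 1 1 1 = true :=
  ⟨(T.b (T.b (T.l 0) (T.b (T.l 2) (T.l 2))) (T.l 2)), by decide +kernel⟩

def A012R_252 :
    ∃ t, chk3 (onCell 0 67108864 0 1073741824 587336777 62277027 (corW 3 c0B eng mog cA012R gB2q0 gB5q1 gB2q2 gB3q2 dB2q0 dB5q1 dB2q2 dB3q2 true true)) t 1 1 1 = true :=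
  ⟨(T.b (T.b (T.l 0) (T.b (T.l 816) (T.l 2))) (T.l 2)), by decide +kernel⟩

def A012R_253 :
    ∃ t, chk3 (onCell 0 67108864 0 1073741824 587336777 62277027 (corW 3 c0B eng mog cA012R gB2q0 gB5q1 gB3q2 gB4q2 dB2q0 dB5q1 dB3q2 dB4q2 true true)) t 1 1 1 = true :=
  ⟨(T.b (T.b (T.l 0) (T.a (T.l 816) (T.b (T.l 816) (T.a (T.l 816) (T.l 816))))) (T.b (T.a (T.l 816) (T.b (T.a (T.l 816) (T.l 880)) (T.a (T.b (T.l 816) (T.l 816)) (T.b (T.l 816) (T.l 816))))) (T.a (T.a (T.l 816) (T.b (T.l 816) (T.a (T.l 816) (T.l 816)))) (T.b (T.a (T.a (T.l 816) (T.l 816)) (T.b (T.l 816) (T.l 816))) (T.a (T.a (T.l 816) (T.l 816)) (T.b (T.l 816) (T.l 880))))))), by decide +kernel⟩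

def A012R_254 :
    ∃ t, chk3 (onCell 0 67108864 0 1073741824 587336777 62277027 (corW 3 c0B eng mog cA012R gB2q0 gB5q1 gB4q2 gB5q2 dB2q0 dB5q1 dB4q2 dB5q2 true false)) t 1 1 1 = true :=
  ⟨(T.b (T.l 1) (T.b (T.l 1) (T.a (T.l 1) (T.a (T.b (T.l 1) (T.l 816)) (T.l 816))))), by decide +kernel⟩

def A012R_260 :
    ∃ t, chk3 (onCell 0 67108864 0 1073741824 587336777 62277027 (corW 3 c0B eng mog cA012R gB2q0 gB6q1 gB0q2 gB1q2 dB2q0 dB6q1 dB0q2 dB1q2 true true)) t 1 1 1 = true :=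
  ⟨(T.b (T.b (T.b (T.l 0) (T.l 2)) (T.l 2)) (T.l 2)), by decide +kernel⟩

def A012R_261 :
    ∃ t, chk3 (onCell 0 67108864 0 1073741824 587336777 62277027 (corW 3 c0B eng mog cA012R gB2q0 gB6q1 gB1q2 gB2q2 dB2q0 dB6q1 dB1q2 dB2q2 true true)) t 1 1 1 = true :=
  ⟨(T.b (T.b (T.l 0) (T.l 2)) (T.l 2)), by decide +kernel⟩

def A012R_262 :
    ∃ t, chk3 (onCell 0 67108864 0 1073741824 587336777 62277027 (corW 3 c0B eng mog cA012R gB2q0 gB6q1 gB2q2 gB3q2 dB2q0 dB6q1 dB2q2 dB3q2 true true)) t 1 1 1 = true :=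
  ⟨(T.b (T.b (T.l 0) (T.l 2)) (T.l 2)), by decide +kernel⟩

def A012R_263 :
    ∃ t, chk3 (onCell 0 67108864 0 1073741824 587336777 62277027 (corW 3 c0B eng mog cA012R gB2q0 gB6q1 gB3q2 gB4q2 dB2q0 dB6q1 dB3q2 dB4q2 true true)) t 1 1 1 = true :=
  ⟨(T.b (T.a (T.l 0) (T.a (T.l 816) (T.b (T.l 816) (T.b (T.l 816) (T.l 880))))) (T.a (T.a (T.l 816) (T.a (T.l 816) (T.b (T.l 816) (T.b (T.l 816) (T.l 816))))) (T.a (T.b (T.a (T.l 816) (T.b (T.l 816) (T.l 816))) (T.a (T.b (T.l 816) (T.l 816)) (T.b (T.l 816) (T.l 816)))) (T.b (T.b (T.b (T.l 2) (T.l 2)) (T.l 2)) (T.b (T.l 2) (T.l 2)))))), by decide +kernel⟩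

def A012R_264 :
    ∃ t, chk3 (onCell 0 67108864 0 1073741824 587336777 62277027 (corW 3 c0B eng mog cA012R gB2q0 gB6q1 gB4q2 gB5q2 dB2q0 dB6q1 dB4q2 dB5q2 true false)) t 1 1 1 = true :=
  ⟨(T.b (T.b (T.l 816) (T.a (T.l 1) (T.b (T.l 816) (T.l 816)))) (T.a (T.b (T.l 1) (T.l 1)) (T.a (T.b (T.l 880) (T.b (T.l 816) (T.l 816))) (T.b (T.l 816) (T.l 816))))), by decide +kernel⟩

def A012R_270 :
    ∃ t, chk3 (onCell 0 67108864 0 1073741824 587336777 62277027 (corW 3 c0B eng mog cA012R gB2q0 gB7q1 gB0q2 gB1q2 dB2q0 dB7q1 dB0q2 dB1q2 true true)) t 1 1 1 = true :=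
  ⟨(T.b (T.l 2) (T.l 2)), by decide +kernel⟩

def A012R_271 :
    ∃ t, chk3 (onCell 0 67108864 0 1073741824 587336777 62277027 (corW 3 c0B eng mog cA012R gB2q0 gB7q1 gB1q2 gB2q2 dB2q0 dB7q1 dB1q2 dB2q2 true true)) t 1 1 1 = true :=
  ⟨(T.b (T.l 2) (T.l 2)), by decide +kernel⟩

def A012R_272 :
    ∃ t, chk3 (onCell 0 67108864 0 1073741824 587336777 62277027 (corW 3 c0B eng mog cA012R gB2q0 gB7q1 gB2q2 gB3q2 dB2q0 dB7q1 dB2q2 dB3q2 true true)) t 1 1 1 = true :=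
  ⟨(T.b (T.l 2) (T.l 2)), by decide +kernel⟩

def A012R_273 :
    ∃ t, chk3 (onCell 0 67108864 0 1073741824 587336777 62277027 (corW 3 c0B eng mog cA012R gB2q0 gB7q1 gB3q2 gB4q2 dB2q0 dB7q1 dB3q2 dB4q2 true true)) t 1 1 1 = true :=
  ⟨(T.b (T.l 2) (T.a (T.a (T.l 816) (T.a (T.l 816) (T.b (T.l 2) (T.b (T.l 816) (T.l 816))))) (T.b (T.l 2) (T.b (T.l 2) (T.a (T.a (T.l 816) (T.l 2)) (T.l 2)))))), by decide +kernel⟩

def A012R_274 :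
    ∃ t, chk3 (onCell 0 67108864 0 1073741824 587336777 62277027 (corW 3 c0B eng mog cA012R gB2q0 gB7q1 gB4q2 gB5q2 dB2q0 dB7q1 dB4q2 dB5q2 true false)) t 1 1 1 = true :=
  ⟨(T.b (T.b (T.l 816) (T.b (T.l 816) (T.a (T.l 816) (T.l 880)))) (T.a (T.b (T.l 816) (T.b (T.l 816) (T.b (T.l 816) (T.l 1)))) (T.b (T.a (T.b (T.l 816) (T.l 816)) (T.l 816)) (T.a (T.b (T.l 816) (T.l 816)) (T.l 816))))), by decide +kernel⟩

def A012R_350 :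
    ∃ t, chk3 (onCell 0 67108864 0 1073741824 587336777 62277027 (corW 3 c0B eng mog cA012R gB3q0 gB5q1 gB0q2 gB1q2 dB3q0 dB5q1 dB0q2 dB1q2 true true)) t 1 1 1 = true :=
  ⟨(T.b (T.b (T.l 1) (T.b (T.l 880) (T.a (T.l 816) (T.l 2)))) (T.l 2)), by decide +kernel⟩

def A012R_351 :
    ∃ t, chk3 (onCell 0 67108864 0 1073741824 587336777 62277027 (corW 3 c0B eng mog cA012R gB3q0 gB5q1 gB1q2 gB2q2 dB3q0 dB5q1 dB1q2 dB2q2 true true)) t 1 1 1 = true :=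
  ⟨(T.b (T.b (T.l 1) (T.b (T.l 816) (T.b (T.l 816) (T.a (T.l 816) (T.a (T.l 816) (T.l 2)))))) (T.b (T.a (T.l 816) (T.l 2)) (T.l 2))), by decide +kernel⟩

def A012R_352 :
    ∃ t, chk3 (onCell 0 67108864 0 1073741824 587336777 62277027 (corW 3 c0B eng mog cA012R gB3q0 gB5q1 gB2q2 gB3q2 dB3q0 dB5q1 dB2q2 dB3q2 true true)) t 1 1 1 = true :=
  ⟨(T.b (T.b (T.l 1) (T.a (T.l 816) (T.b (T.l 1) (T.a (T.l 816) (T.b (T.l 816) (T.l 816)))))) (T.b (T.a (T.l 816) (T.b (T.a (T.l 816) (T.b (T.l 816) (T.l 2))) (T.l 2))) (T.l 2))), by decide +kernel⟩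

def A012R_353 :
    ∃ t, chk3 (onCell 0 67108864 0 1073741824 587336777 62277027 (corW 3 c0B eng mog cA012R gB3q0 gB5q1 gB3q2 gB4q2 dB3q0 dB5q1 dB3q2 dB4q2 true true)) t 1 1 1 = true :=
  ⟨(T.b (T.l 1) (T.b (T.a (T.l 816) (T.b (T.a (T.l 816) (T.l 816)) (T.a (T.l 816) (T.l 816)))) (T.a (T.a (T.l 816) (T.a (T.l 816) (T.b (T.l 816) (T.l 816)))) (T.a (T.b (T.l 880) (T.b (T.l 816) (T.l 816))) (T.b (T.l 816) (T.l 816)))))), by decide +kernel⟩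

def A012R_354 :
    ∃ t, chk3 (onCell 0 67108864 0 1073741824 587336777 62277027 (corW 3 c0B eng mog cA012R gB3q0 gB5q1 gB4q2 gB5q2 dB3q0 dB5q1 dB4q2 dB5q2 true false)) t 1 1 1 = true :=
  ⟨(T.l 1), by decide +kernel⟩

def A012R_360 :
    ∃ t, chk3 (onCell 0 67108864 0 1073741824 587336777 62277027 (corW 3 c0B eng mog cA012R gB3q0 gB6q1 gB0q2 gB1q2 dB3q0 dB6q1 dB0q2 dB1q2 true true)) t 1 1 1 = true :=
  ⟨(T.b (T.b (T.b (T.l 1) (T.l 816)) (T.b (T.a (T.l 816) (T.l 2)) (T.l 2))) (T.l 2)), by decide +kernel⟩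

def A012R_361 :
    ∃ t, chk3 (onCell 0 67108864 0 1073741824 587336777 62277027 (corW 3 c0B eng mog cA012R gB3q0 gB6q1 gB1q2 gB2q2 dB3q0 dB6q1 dB1q2 dB2q2 true true)) t 1 1 1 = true :=
  ⟨(T.b (T.b (T.l 816) (T.b (T.l 816) (T.a (T.l 2) (T.l 2)))) (T.l 2)), by decide +kernel⟩

def A012R_362 :
    ∃ t, chk3 (onCell 0 67108864 0 1073741824 587336777 62277027 (corW 3 c0B eng mog cA012R gB3q0 gB6q1 gB2q2 gB3q2 dB3q0 dB6q1 dB2q2 dB3q2 true true)) t 1 1 1 = true :=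
  ⟨(T.b (T.b (T.l 1) (T.b (T.l 816) (T.a (T.l 816) (T.b (T.l 816) (T.a (T.l 816) (T.l 2)))))) (T.b (T.a (T.l 816) (T.l 2)) (T.l 2))), by decide +kernel⟩

def A012R_363 :
    ∃ t, chk3 (onCell 0 67108864 0 1073741824 587336777 62277027 (corW 3 c0B eng mog cA012R gB3q0 gB6q1 gB3q2 gB4q2 dB3q0 dB6q1 dB3q2 dB4q2 true true)) t 1 1 1 = true :=
  ⟨(T.b (T.b (T.l 1) (T.a (T.l 816) (T.b (T.l 816) (T.b (T.l 816) (T.l 816))))) (T.b (T.a (T.l 816) (T.a (T.b (T.l 816) (T.l 816)) (T.b (T.l 816) (T.l 816)))) (T.a (T.a (T.l 816) (T.a (T.l 816) (T.b (T.l 816) (T.l 816)))) (T.a (T.a (T.b (T.l 816) (T.l 816)) (T.b (T.l 816) (T.l 816))) (T.b (T.l 816) (T.l 816)))))), by decide +kernel⟩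

def A012R_364 :
    ∃ t, chk3 (onCell 0 67108864 0 1073741824 587336777 62277027 (corW 3 c0B eng mog cA012R gB3q0 gB6q1 gB4q2 gB5q2 dB3q0 dB6q1 dB4q2 dB5q2 true false)) t 1 1 1 = true :=
  ⟨(T.l 1), by decide +kernel⟩

def A012R_370 :
    ∃ t, chk3 (onCell 0 67108864 0 1073741824 587336777 62277027 (corW 3 c0B eng mog cA012R gB3q0 gB7q1 gB0q2 gB1q2 dB3q0 dB7q1 dB0q2 dB1q2 true true)) t 1 1 1 = true :=
  ⟨(T.b (T.b (T.b (T.l 816) (T.l 816)) (T.l 2)) (T.l 2)), by decide +kernel⟩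

def A012R_371 :
    ∃ t, chk3 (onCell 0 67108864 0 1073741824 587336777 62277027 (corW 3 c0B eng mog cA012R gB3q0 gB7q1 gB1q2 gB2q2 dB3q0 dB7q1 dB1q2 dB2q2 true true)) t 1 1 1 = true :=
  ⟨(T.b (T.b (T.l 816) (T.l 2)) (T.l 2)), by decide +kernel⟩

def A012R_372 :
    ∃ t, chk3 (onCell 0 67108864 0 1073741824 587336777 62277027 (corW 3 c0B eng mog cA012R gB3q0 gB7q1 gB2q2 gB3q2 dB3q0 dB7q1 dB2q2 dB3q2 true true)) t 1 1 1 = true :=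
  ⟨(T.b (T.b (T.l 816) (T.b (T.l 816) (T.a (T.l 2) (T.l 2)))) (T.b (T.l 2) (T.l 2))), by decide +kernel⟩

def A012R_373 :
    ∃ t, chk3 (onCell 0 67108864 0 1073741824 587336777 62277027 (corW 3 c0B eng mog cA012R gB3q0 gB7q1 gB3q2 gB4q2 dB3q0 dB7q1 dB3q2 dB4q2 true true)) t 1 1 1 = true :=
  ⟨(T.b (T.b (T.l 816) (T.a (T.l 816) (T.b (T.l 816) (T.a (T.l 816) (T.l 816))))) (T.a (T.a (T.l 816) (T.a (T.l 816) (T.b (T.l 816) (T.b (T.l 816) (T.l 816))))) (T.b (T.a (T.b (T.l 816) (T.l 816)) (T.b (T.l 816) (T.l 816))) (T.a (T.a (T.b (T.l 816) (T.l 816)) (T.l 880)) (T.b (T.l 816) (T.l 816)))))), by decide +kernel⟩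

def A012R_374 :
    ∃ t, chk3 (onCell 0 67108864 0 1073741824 587336777 62277027 (corW 3 c0B eng mog cA012R gB3q0 gB7q1 gB4q2 gB5q2 dB3q0 dB7q1 dB4q2 dB5q2 true false)) t 1 1 1 = true :=
  ⟨(T.b (T.l 1) (T.l 1)), by decide +kernel⟩

def A012R_450 :
    ∃ t, chk3 (onCell 0 67108864 0 1073741824 587336777 62277027 (corW 3 c0B eng mog cA012R gB4q0 gB5q1 gB0q2 gB1q2 dB4q0 dB5q1 dB0q2 dB1q2 true true)) t 1 1 1 = true :=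
  ⟨(T.b (T.l 1) (T.b (T.b (T.a (T.l 1) (T.a (T.l 1) (T.b (T.l 1) (T.b (T.l 1) (T.l 816))))) (T.a (T.l 816) (T.b (T.a (T.l 816) (T.l 816)) (T.a (T.b (T.l 816) (T.l 816)) (T.b (T.l 816) (T.l 2)))))) (T.b (T.a (T.l 816) (T.b (T.a (T.b (T.l 816) (T.l 2)) (T.l 2)) (T.l 2))) (T.a (T.l 2) (T.l 2))))), by decide +kernel⟩

def A012R_451 :
    ∃ t, chk3 (onCell 0 67108864 0 1073741824 587336777 62277027 (corW 3 c0B eng mog cA012R gB4q0 gB5q1 gB1q2 gB2q2 dB4q0 dB5q1 dB1q2 dB2q2 true true)) t 1 1 1 = true :=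
  ⟨(T.b (T.l 1) (T.b (T.a (T.l 1) (T.b (T.l 1) (T.a (T.b (T.l 1) (T.l 816)) (T.l 816)))) (T.b (T.a (T.l 816) (T.a (T.b (T.l 816) (T.l 816)) (T.b (T.l 816) (T.l 816)))) (T.a (T.a (T.l 816) (T.a (T.l 816) (T.l 816))) (T.b (T.a (T.b (T.l 816) (T.l 816)) (T.l 816)) (T.a (T.l 2) (T.l 2))))))), by decide +kernel⟩

def A012R_452 :
    ∃ t, chk3 (onCell 0 67108864 0 1073741824 587336777 62277027 (corW 3 c0B eng mog cA012R gB4q0 gB5q1 gB2q2 gB3q2 dB4q0 dB5q1 dB2q2 dB3q2 true true)) t 1 1 1 = true :=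
  ⟨(T.b (T.l 1) (T.b (T.l 1) (T.b (T.a (T.l 1) (T.a (T.b (T.l 1) (T.l 816)) (T.l 816))) (T.a (T.a (T.l 816) (T.a (T.l 816) (T.l 816))) (T.a (T.b (T.l 816) (T.l 816)) (T.b (T.l 816) (T.l 816))))))), by decide +kernel⟩

def A012R_453 :
    ∃ t, chk3 (onCell 0 67108864 0 1073741824 587336777 62277027 (corW 3 c0B eng mog cA012R gB4q0 gB5q1 gB3q2 gB4q2 dB4q0 dB5q1 dB3q2 dB4q2 true true)) t 1 1 1 = true :=
  ⟨(T.l 1), by decide +kernel⟩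

def A012R_454 :
    ∃ t, chk3 (onCell 0 67108864 0 1073741824 587336777 62277027 (corW 3 c0B eng mog cA012R gB4q0 gB5q1 gB4q2 gB5q2 dB4q0 dB5q1 dB4q2 dB5q2 true false)) t 1 1 1 = true :=
  ⟨(T.l 1), by decide +kernel⟩

def A012R_460 :
    ∃ t, chk3 (onCell 0 67108864 0 1073741824 587336777 62277027 (corW 3 c0B eng mog cA012R gB4q0 gB6q1 gB0q2 gB1q2 dB4q0 dB6q1 dB0q2 dB1q2 true true)) t 1 1 1 = true :=
  ⟨(T.b (T.l 1) (T.b (T.a (T.b (T.l 1) (T.l 816)) (T.b (T.a (T.l 816) (T.b (T.l 1) (T.l 816))) (T.b (T.a (T.b (T.l 816) (T.l 816)) (T.b (T.l 816) (T.l 816))) (T.a (T.b (T.l 816) (T.l 2)) (T.l 2))))) (T.a (T.b (T.l 816) (T.l 2)) (T.l 2)))), by decide +kernel⟩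

def A012R_461 :
    ∃ t, chk3 (onCell 0 67108864 0 1073741824 587336777 62277027 (corW 3 c0B eng mog cA012R gB4q0 gB6q1 gB1q2 gB2q2 dB4q0 dB6q1 dB1q2 dB2q2 true true)) t 1 1 1 = true :=
  ⟨(T.b (T.l 1) (T.b (T.a (T.l 816) (T.b (T.a (T.l 1) (T.b (T.l 1) (T.l 816))) (T.a (T.b (T.l 816) (T.l 816)) (T.l 880)))) (T.a (T.b (T.l 816) (T.a (T.l 816) (T.a (T.l 816) (T.l 816)))) (T.b (T.a (T.b (T.l 816) (T.l 816)) (T.b (T.l 816) (T.l 816))) (T.a (T.a (T.l 816) (T.l 816)) (T.l 2)))))), by decide +kernel⟩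

def A012R_462 :
    ∃ t, chk3 (onCell 0 67108864 0 1073741824 587336777 62277027 (corW 3 c0B eng mog cA012R gB4q0 gB6q1 gB2q2 gB3q2 dB4q0 dB6q1 dB2q2 dB3q2 true true)) t 1 1 1 = true :=
  ⟨(T.b (T.l 1) (T.b (T.l 1) (T.a (T.b (T.l 1) (T.a (T.l 816) (T.a (T.l 816) (T.l 816)))) (T.b (T.a (T.b (T.l 1) (T.l 816)) (T.l 816)) (T.a (T.b (T.l 816) (T.l 816)) (T.b (T.l 816) (T.l 816))))))), by decide +kernel⟩

def A012R_463 :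
    ∃ t, chk3 (onCell 0 67108864 0 1073741824 587336777 62277027 (corW 3 c0B eng mog cA012R gB4q0 gB6q1 gB3q2 gB4q2 dB4q0 dB6q1 dB3q2 dB4q2 true true)) t 1 1 1 = true :=
  ⟨(T.l 1), by decide +kernel⟩

def A012R_464 :
    ∃ t, chk3 (onCell 0 67108864 0 1073741824 587336777 62277027 (corW 3 c0B eng mog cA012R gB4q0 gB6q1 gB4q2 gB5q2 dB4q0 dB6q1 dB4q2 dB5q2 true false)) t 1 1 1 = true :=
  ⟨(T.l 1), by decide +kernel⟩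

def A012R_470 :
    ∃ t, chk3 (onCell 0 67108864 0 1073741824 587336777 62277027 (corW 3 c0B eng mog cA012R gB4q0 gB7q1 gB0q2 gB1q2 dB4q0 dB7q1 dB0q2 dB1q2 true true)) t 1 1 1 = true :=
  ⟨(T.b (T.b (T.l 1) (T.l 1)) (T.b (T.a (T.l 816) (T.b (T.a (T.l 816) (T.b (T.l 816) (T.l 880))) (T.b (T.a (T.b (T.l 816) (T.l 816)) (T.l 2)) (T.l 2)))) (T.a (T.b (T.l 816) (T.l 2)) (T.l 2)))), by decide +kernel⟩

def A012R_471 :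
    ∃ t, chk3 (onCell 0 67108864 0 1073741824 587336777 62277027 (corW 3 c0B eng mog cA012R gB4q0 gB7q1 gB1q2 gB2q2 dB4q0 dB7q1 dB1q2 dB2q2 true true)) t 1 1 1 = true :=
  ⟨(T.b (T.l 1) (T.b (T.a (T.l 816) (T.b (T.a (T.l 816) (T.l 816)) (T.a (T.b (T.l 816) (T.l 816)) (T.b (T.l 816) (T.l 816))))) (T.a (T.b (T.l 816) (T.a (T.l 816) (T.a (T.l 816) (T.l 816)))) (T.b (T.a (T.b (T.l 816) (T.l 880)) (T.b (T.l 816) (T.l 816))) (T.a (T.a (T.l 816) (T.l 2)) (T.l 2)))))), by decide +kernel⟩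

def A012R_472 :
    ∃ t, chk3 (onCell 0 67108864 0 1073741824 587336777 62277027 (corW 3 c0B eng mog cA012R gB4q0 gB7q1 gB2q2 gB3q2 dB4q0 dB7q1 dB2q2 dB3q2 true true)) t 1 1 1 = true :=
  ⟨(T.b (T.l 1) (T.b (T.a (T.l 1) (T.l 1)) (T.a (T.b (T.l 1) (T.a (T.l 816) (T.a (T.l 816) (T.l 816)))) (T.b (T.a (T.l 816) (T.l 816)) (T.a (T.b (T.l 816) (T.l 816)) (T.l 880)))))), by decide +kernel⟩

def A012R_473 :
    ∃ t, chk3 (onCell 0 67108864 0 1073741824 587336777 62277027 (corW 3 c0B eng mog cA012R gB4q0 gB7q1 gB3q2 gB4q2 dB4q0 dB7q1 dB3q2 dB4q2 true true)) t 1 1 1 = true :=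
  ⟨(T.l 1), by decide +kernel⟩

def A012R_474 :
    ∃ t, chk3 (onCell 0 67108864 0 1073741824 587336777 62277027 (corW 3 c0B eng mog cA012R gB4q0 gB7q1 gB4q2 gB5q2 dB4q0 dB7q1 dB4q2 dB5q2 true false)) t 1 1 1 = true :=
  ⟨(T.l 1), by decide +kernel⟩

def A022E_000 :
    ∃ t, chk3 (onCell 0 67108864 0 1073741824 587336777 62277027 (corW 3 c0B eng mog cA022E gB0q0 gB0q2 gB0q2 gB1q2 dB0q0 dB0q2 dB0q2 dB1q2 true true)) t 1 1 1 = true :=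
  ⟨(T.l 2), by decide +kernel⟩

def A022E_001 :
    ∃ t, chk3 (onCell 0 67108864 0 1073741824 587336777 62277027 (corW 3 c0B eng mog cA022E gB0q0 gB0q2 gB1q2 gB2q2 dB0q0 dB0q2 dB1q2 dB2q2 true true)) t 1 1 1 = true :=
  ⟨(T.l 2), by decide +kernel⟩

def A022E_002 :
    ∃ t, chk3 (onCell 0 67108864 0 1073741824 587336777 62277027 (corW 3 c0B eng mog cA022E gB0q0 gB0q2 gB2q2 gB3q2 dB0q0 dB0q2 dB2q2 dB3q2 true true)) t 1 1 1 = true :=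
  ⟨(T.l 2), by decide +kernel⟩

def A022E_003 :
    ∃ t, chk3 (onCell 0 67108864 0 1073741824 587336777 62277027 (corW 3 c0B eng mog cA022E gB0q0 gB0q2 gB3q2 gB4q2 dB0q0 dB0q2 dB3q2 dB4q2 true true)) t 1 1 1 = true :=
  ⟨(T.b (T.l 2) (T.l 2)), by decide +kernel⟩

def A022E_004 :
    ∃ t, chk3 (onCell 0 67108864 0 1073741824 587336777 62277027 (corW 3 c0B eng mog cA022E gB0q0 gB0q2 gB4q2 gB5q2 dB0q0 dB0q2 dB4q2 dB5q2 true false)) t 1 1 1 = true :=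
  ⟨(T.b (T.b (T.a (T.a (T.b (T.a (T.c (T.l 204) (T.l 204)) (T.l 204)) (T.l 204)) (T.a (T.l 204) (T.b (T.a (T.l 204) (T.l 204)) (T.l 204)))) (T.a (T.a (T.b (T.a (T.l 204) (T.l 204)) (T.b (T.l 204) (T.l 204))) (T.b (T.b (T.l 204) (T.l 204)) (T.b (T.l 204) (T.l 204)))) (T.b (T.a (T.b (T.l 204) (T.l 204)) (T.b (T.l 204) (T.l 204))) (T.a (T.b (T.l 204) (T.l 204)) (T.l 204))))) (T.a (T.a (T.l 204) (T.a (T.l 204) (T.l 204))) (T.a (T.a (T.l 204) (T.b (T.l 204) (T.l 204))) (T.b (T.a (T.l 204) (T.l 204)) (T.b (T.l 0) (T.l 0)))))) (T.b (T.b (T.a (T.a (T.l 0) (T.l 0)) (T.a (T.l 0) (T.b (T.l 0) (T.l 0)))) (T.a (T.a (T.l 0) (T.l 0)) (T.a (T.l 0) (T.l 0)))) (T.a (T.a (T.b (T.l 816) (T.l 816)) (T.a (T.b (T.l 816) (T.l 816)) (T.b (T.l 816) (T.c (T.l 816) (T.l 816))))) (T.a (T.b (T.l 0) (T.b (T.l 816) (T.a (T.l 816) (T.l 816)))) (T.b (T.l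 0) (T.a (T.l 880) (T.b (T.l 816) (T.l 816)))))))), by decide +kernel⟩

def A022E_010 :
    ∃ t, chk3 (onCell 0 67108864 0 1073741824 587336777 62277027 (corW 3 c0B eng mog cA022E gB0q0 gB1q2 gB0q2 gB1q2 dB0q0 dB1q2 dB0q2 dB1q2 true true)) t 1 1 1 = true :=
  ⟨(T.l 2), by decide +kernel⟩

def A022E_011 :
    ∃ t, chk3 (onCell 0 67108864 0 1073741824 587336777 62277027 (corW 3 c0B eng mog cA022E gB0q0 gB1q2 gB1q2 gB2q2 dB0q0 dB1q2 dB1q2 dB2q2 true true)) t 1 1 1 = true :=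
  ⟨(T.l 2), by decide +kernel⟩

def A022E_012 :
    ∃ t, chk3 (onCell 0 67108864 0 1073741824 587336777 62277027 (corW 3 c0B eng mog cA022E gB0q0 gB1q2 gB2q2 gB3q2 dB0q0 dB1q2 dB2q2 dB3q2 true true)) t 1 1 1 = true :=
  ⟨(T.l 2), by decide +kernel⟩

def A022E_013 :
    ∃ t, chk3 (onCell 0 67108864 0 1073741824 587336777 62277027 (corW 3 c0B eng mog cA022E gB0q0 gB1q2 gB3q2 gB4q2 dB0q0 dB1q2 dB3q2 dB4q2 true true)) t 1 1 1 = true :=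
  ⟨(T.l 2), by decide +kernel⟩

def A022E_014 :
    ∃ t, chk3 (onCell 0 67108864 0 1073741824 587336777 62277027 (corW 3 c0B eng mog cA022E gB0q0 gB1q2 gB4q2 gB5q2 dB0q0 dB1q2 dB4q2 dB5q2 true false)) t 1 1 1 = true :=
  ⟨(T.b (T.b (T.a (T.a (T.b (T.c (T.l 204) (T.l 204)) (T.l 204)) (T.a (T.l 204) (T.a (T.l 204) (T.b (T.b (T.l 204) (T.l 204)) (T.l 204))))) (T.a (T.a (T.b (T.a (T.b (T.l 204) (T.l 204)) (T.l 204)) (T.b (T.l 204) (T.l 204))) (T.b (T.b (T.l 204) (T.l 204)) (T.b (T.l 204) (T.l 204)))) (T.b (T.a (T.b (T.l 204) (T.l 204)) (T.b (T.l 204) (T.l 204))) (T.a (T.l 204) (T.l 204))))) (T.a (T.a (T.l 204) (T.a (T.l 204) (T.l 204))) (T.a (T.a (T.l 204) (T.b (T.l 204) (T.l 204))) (T.b (T.b (T.l 204) (T.l 204)) (T.b (T.l 0) (T.l 0)))))) (T.b (T.b (T.a (T.a (T.l 204) (T.l 0)) (T.a (T.l 0) (T.b (T.l 0) (T.l 0)))) (T.a (T.a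 (T.l 0) (T.l 0)) (T.b (T.l 0) (T.l 0)))) (T.a (T.a (T.b (T.l 816) (T.l 816)) (T.a (T.b (T.l 816) (T.l 816)) (T.c (T.b (T.l 816) (T.l 816)) (T.l 0)))) (T.a (T.b (T.l 0) (T.a (T.b (T.l 816) (T.l 816)) (T.l 816))) (T.b (T.l 0) (T.a (T.l 816) (T.l 816))))))), by decide +kernel⟩

def A022E_020 :
    ∃ t, chk3 (onCell 0 67108864 0 1073741824 587336777 62277027 (corW 3 c0B eng mog cA022E gB0q0 gB2q2 gB0q2 gB1q2 dB0q0 dB2q2 dB0q2 dB1q2 true true)) t 1 1 1 = true :=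
  ⟨(T.l 2), by decide +kernel⟩

def A022E_021 :
    ∃ t, chk3 (onCell 0 67108864 0 1073741824 587336777 62277027 (corW 3 c0B eng mog cA022E gB0q0 gB2q2 gB1q2 gB2q2 dB0q0 dB2q2 dB1q2 dB2q2 true true)) t 1 1 1 = true :=
  ⟨(T.l 2), by decide +kernel⟩

def A022E_022 :
    ∃ t, chk3 (onCell 0 67108864 0 1073741824 587336777 62277027 (corW 3 c0B eng mog cA022E gB0q0 gB2q2 gB2q2 gB3q2 dB0q0 dB2q2 dB2q2 dB3q2 true true)) t 1 1 1 = true :=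
  ⟨(T.l 2), by decide +kernel⟩

def A022E_023 :
    ∃ t, chk3 (onCell 0 67108864 0 1073741824 587336777 62277027 (corW 3 c0B eng mog cA022E gB0q0 gB2q2 gB3q2 gB4q2 dB0q0 dB2q2 dB3q2 dB4q2 true true)) t 1 1 1 = true :=
  ⟨(T.l 2), by decide +kernel⟩

def A022E_024 :
    ∃ t, chk3 (onCell 0 67108864 0 1073741824 587336777 62277027 (corW 3 c0B eng mog cA022E gB0q0 gB2q2 gB4q2 gB5q2 dB0q0 dB2q2 dB4q2 dB5q2 true false)) t 1 1 1 = true :=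
  ⟨(T.b (T.b (T.a (T.a (T.c (T.l 204) (T.l 204)) (T.a (T.l 204) (T.a (T.l 204) (T.b (T.b (T.l 204) (T.l 204)) (T.l 204))))) (T.a (T.a (T.b (T.a (T.b (T.l 204) (T.l 204)) (T.l 204)) (T.b (T.l 204) (T.l 204))) (T.b (T.b (T.l 204) (T.l 204)) (T.b (T.l 204) (T.l 204)))) (T.b (T.a (T.b (T.l 204) (T.l 204)) (T.b (T.l 204) (T.l 204))) (T.a (T.l 204) (T.l 204))))) (T.a (T.a (T.l 204) (T.a (T.l 204) (T.l 204))) (T.a (T.a (T.l 204) (T.b (T.l 204) (T.l 204))) (T.b (T.b (T.l 204) (T.l 204)) (T.b (T.l 204) (T.l 0)))))) (T.b (T.b (T.a (T.a (T.l 204) (T.l 0)) (T.a (T.l 0) (T.l 272))) (T.a (T.a (T.l 0) (T.l 0)) (T.l 256))) (T.a (T.a (T.b (T.l 816) (T.l 816)) (T.a (T.b (T.l 816) (T.l 816)) (T.c (T.b (T.l 816) (T.l 816)) (T.l 0)))) (T.a (T.b (T.l 0) (T.a (T.b (T.l 816) (T.l 816)) (T.l 816))) (T.b (T.l 0) (T.a (T.l 816) (T.l 816))))))), by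 decide +kernel⟩

def A022E_030 :
    ∃ t, chk3 (onCell 0 67108864 0 1073741824 587336777 62277027 (corW 3 c0B eng mog cA022E gB0q0 gB3q2 gB0q2 gB1q2 dB0q0 dB3q2 dB0q2 dB1q2 true true)) t 1 1 1 = true :=
  ⟨(T.l 2), by decide +kernel⟩

def A022E_031 :
    ∃ t, chk3 (onCell 0 67108864 0 1073741824 587336777 62277027 (corW 3 c0B eng mog cA022E gB0q0 gB3q2 gB1q2 gB2q2 dB0q0 dB3q2 dB1q2 dB2q2 true true)) t 1 1 1 = true :=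
  ⟨(T.l 2), by decide +kernel⟩

def A022E_032 :
    ∃ t, chk3 (onCell 0 67108864 0 1073741824 587336777 62277027 (corW 3 c0B eng mog cA022E gB0q0 gB3q2 gB2q2 gB3q2 dB0q0 dB3q2 dB2q2 dB3q2 true true)) t 1 1 1 = true :=
  ⟨(T.l 2), by decide +kernel⟩

def A022E_033 :
    ∃ t, chk3 (onCell 0 67108864 0 1073741824 587336777 62277027 (corW 3 c0B eng mog cA022E gB0q0 gB3q2 gB3q2 gB4q2 dB0q0 dB3q2 dB3q2 dB4q2 true true)) t 1 1 1 = true :=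
  ⟨(T.l 2), by decide +kernel⟩

def A022E_034 :
    ∃ t, chk3 (onCell 0 67108864 0 1073741824 587336777 62277027 (corW 3 c0B eng mog cA022E gB0q0 gB3q2 gB4q2 gB5q2 dB0q0 dB3q2 dB4q2 dB5q2 true false)) t 1 1 1 = true :=
  ⟨(T.b (T.b (T.a (T.a (T.c (T.l 204) (T.l 204)) (T.a (T.l 204) (T.a (T.l 204) (T.b (T.b (T.l 204) (T.l 204)) (T.l 204))))) (T.a (T.a (T.b (T.a (T.b (T.l 204) (T.l 204)) (T.b (T.l 204) (T.l 204))) (T.b (T.l 204) (T.l 204))) (T.b (T.a (T.l 204) (T.l 204)) (T.b (T.l 204) (T.l 204)))) (T.b (T.a (T.b (T.l 204) (T.l 204)) (T.b (T.l 204) (T.l 204))) (T.a (T.l 204) (T.l 204))))) (T.a (T.a (T.l 204) (T.a (T.l 204) (T.l 204))) (T.a (T.a (T.l 204) (T.b (T.l 204) (T.l 204))) (T.b (T.b (T.l 204) (T.l 204)) (T.b (T.l 204) (T.l 204)))))) (T.b (T.b (T.a (T.a (T.l 204) (T.l 256)) (T.a (T.l 0) (T.l 256))) (T.a (T.a (T.l 0)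 (T.l 0)) (T.b (T.l 256) (T.l 0)))) (T.a (T.a (T.b (T.l 816) (T.l 816)) (T.a (T.b (T.l 816) (T.l 816)) (T.c (T.b (T.l 816) (T.l 816)) (T.l 0)))) (T.a (T.b (T.l 0) (T.a (T.b (T.l 816) (T.l 816)) (T.l 816))) (T.b (T.l 0) (T.c (T.l 880) (T.l 816))))))), by decide +kernel⟩

def A022E_040 :
    ∃ t, chk3 (onCell 0 67108864 0 1073741824 587336777 62277027 (corW 3 c0B eng mog cA022E gB0q0 gB4q2 gB0q2 gB1q2 dB0q0 dB4q2 dB0q2 dB1q2 true true)) t 1 1 1 = true :=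
  ⟨(T.l 2), by decide +kernel⟩

def A022E_041 :
    ∃ t, chk3 (onCell 0 67108864 0 1073741824 587336777 62277027 (corW 3 c0B eng mog cA022E gB0q0 gB4q2 gB1q2 gB2q2 dB0q0 dB4q2 dB1q2 dB2q2 true true)) t 1 1 1 = true :=
  ⟨(T.l 2), by decide +kernel⟩

def A022E_042 :
    ∃ t, chk3 (onCell 0 67108864 0 1073741824 587336777 62277027 (corW 3 c0B eng mog cA022E gB0q0 gB4q2 gB2q2 gB3q2 dB0q0 dB4q2 dB2q2 dB3q2 true true)) t 1 1 1 = true :=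
  ⟨(T.l 2), by decide +kernel⟩

def A022E_043 :
    ∃ t, chk3 (onCell 0 67108864 0 1073741824 587336777 62277027 (corW 3 c0B eng mog cA022E gB0q0 gB4q2 gB3q2 gB4q2 dB0q0 dB4q2 dB3q2 dB4q2 true true)) t 1 1 1 = true :=
  ⟨(T.l 2), by decide +kernel⟩

def A022E_044 :
    ∃ t, chk3 (onCell 0 67108864 0 1073741824 587336777 62277027 (corW 3 c0B eng mog cA022E gB0q0 gB4q2 gB4q2 gB5q2 dB0q0 dB4q2 dB4q2 dB5q2 true false)) t 1 1 1 = true :=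
  ⟨(T.b (T.b (T.a (T.a (T.l 204) (T.a (T.l 204) (T.a (T.l 204) (T.b (T.l 204) (T.l 204))))) (T.a (T.a (T.b (T.c (T.l 204) (T.l 460)) (T.l 204)) (T.b (T.b (T.l 204) (T.l 204)) (T.l 204))) (T.b (T.a (T.l 204) (T.l 204)) (T.b (T.l 204) (T.l 204))))) (T.a (T.a (T.l 204) (T.a (T.l 204) (T.l 204))) (T.a (T.a (T.l 204) (T.b (T.l 204) (T.l 204))) (T.b (T.l 460) (T.l 0))))) (T.b (T.b (T.a (T.a (T.l 204) (T.l 0)) (T.a (T.l 0) (T.l 0))) (T.a (T.a (T.l 0) (T.l 0)) (T.b (T.l 256) (T.l 0)))) (T.a (T.a (T.b (T.l 816) (T.l 816)) (T.a (T.l 816) (T.c (T.l 880) (T.l 0)))) (T.a (T.b (T.l 0) (T.a (T.b (T.l 816) (T.l 816)) (T.l 816))) (T.c (T.b (T.l 816) (T.l 816)) (T.l 64)))))), by decide +kernel⟩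

def A022E_110 :
    ∃ t, chk3 (onCell 0 67108864 0 1073741824 587336777 62277027 (corW 3 c0B eng mog cA022E gB1q0 gB1q2 gB0q2 gB1q2 dB1q0 dB1q2 dB0q2 dB1q2 true true)) t 1 1 1 = true :=
  ⟨(T.l 2), by decide +kernel⟩

def A022E_111 :
    ∃ t, chk3 (onCell 0 67108864 0 1073741824 587336777 62277027 (corW 3 c0B eng mog cA022E gB1q0 gB1q2 gB1q2 gB2q2 dB1q0 dB1q2 dB1q2 dB2q2 true true)) t 1 1 1 = true :=
  ⟨(T.l 2), by decide +kernel⟩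

def A022E_112 :
    ∃ t, chk3 (onCell 0 67108864 0 1073741824 587336777 62277027 (corW 3 c0B eng mog cA022E gB1q0 gB1q2 gB2q2 gB3q2 dB1q0 dB1q2 dB2q2 dB3q2 true true)) t 1 1 1 = true :=
  ⟨(T.l 2), by decide +kernel⟩

def A022E_113 :
    ∃ t, chk3 (onCell 0 67108864 0 1073741824 587336777 62277027 (corW 3 c0B eng mog cA022E gB1q0 gB1q2 gB3q2 gB4q2 dB1q0 dB1q2 dB3q2 dB4q2 true true)) t 1 1 1 = true :=
  ⟨(T.l 2), by decide +kernel⟩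

def A022E_114 :
    ∃ t, chk3 (onCell 0 67108864 0 1073741824 587336777 62277027 (corW 3 c0B eng mog cA022E gB1q0 gB1q2 gB4q2 gB5q2 dB1q0 dB1q2 dB4q2 dB5q2 true false)) t 1 1 1 = true :=
  ⟨(T.b (T.b (T.a (T.a (T.c (T.b (T.l 204) (T.l 204)) (T.l 204)) (T.a (T.l 204) (T.a (T.l 204) (T.b (T.b (T.l 204) (T.l 204)) (T.l 204))))) (T.a (T.a (T.b (T.a (T.b (T.l 204) (T.l 204)) (T.l 204)) (T.b (T.l 204) (T.l 204))) (T.b (T.b (T.l 204) (T.l 204)) (T.l 204))) (T.b (T.a (T.b (T.l 204) (T.l 204)) (T.b (T.l 204) (T.l 204))) (T.b (T.l 220) (T.l 204))))) (T.a (T.a (T.l 204) (T.b (T.l 220) (T.l 0))) (T.a (T.a (T.l 204) (T.b (T.l 204) (T.l 204))) (T.b (T.b (T.l 204) (T.l 0)) (T.b (T.l 0) (T.l 0)))))) (T.b (T.b (T.a (T.a (T.l 0) (T.l 0)) (T.a (T.l 0) (T.l 0))) (T.a (T.a (T.l 0) (T.l 0)) (T.l 0))) (T.a (T.a (T.l 816) (T.c (T.l 0) (T.l 0)))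 (T.a (T.l 0) (T.l 816))))), by decide +kernel⟩

def A022E_120 :
    ∃ t, chk3 (onCell 0 67108864 0 1073741824 587336777 62277027 (corW 3 c0B eng mog cA022E gB1q0 gB2q2 gB0q2 gB1q2 dB1q0 dB2q2 dB0q2 dB1q2 true true)) t 1 1 1 = true :=
  ⟨(T.l 2), by decide +kernel⟩

def A022E_121 :
    ∃ t, chk3 (onCell 0 67108864 0 1073741824 587336777 62277027 (corW 3 c0B eng mog cA022E gB1q0 gB2q2 gB1q2 gB2q2 dB1q0 dB2q2 dB1q2 dB2q2 true true)) t 1 1 1 = true :=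
  ⟨(T.l 2), by decide +kernel⟩

def A022E_122 :
    ∃ t, chk3 (onCell 0 67108864 0 1073741824 587336777 62277027 (corW 3 c0B eng mog cA022E gB1q0 gB2q2 gB2q2 gB3q2 dB1q0 dB2q2 dB2q2 dB3q2 true true)) t 1 1 1 = true :=
  ⟨(T.l 2), by decide +kernel⟩

def A022E_123 :
    ∃ t, chk3 (onCell 0 67108864 0 1073741824 587336777 62277027 (corW 3 c0B eng mog cA022E gB1q0 gB2q2 gB3q2 gB4q2 dB1q0 dB2q2 dB3q2 dB4q2 true true)) t 1 1 1 = true :=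
  ⟨(T.l 2), by decide +kernel⟩

def A022E_124 :
    ∃ t, chk3 (onCell 0 67108864 0 1073741824 587336777 62277027 (corW 3 c0B eng mog cA022E gB1q0 gB2q2 gB4q2 gB5q2 dB1q0 dB2q2 dB4q2 dB5q2 true false)) t 1 1 1 = true :=
  ⟨(T.b (T.b (T.a (T.a (T.c (T.l 204) (T.l 204)) (T.a (T.l 204) (T.a (T.l 204) (T.b (T.b (T.l 204) (T.l 204)) (T.l 204))))) (T.a (T.a (T.b (T.a (T.b (T.l 204) (T.l 204)) (T.l 204)) (T.b (T.l 204) (T.l 204))) (T.b (T.b (T.l 204) (T.l 204)) (T.l 204))) (T.b (T.a (T.b (T.l 204) (T.l 204)) (T.b (T.l 204) (T.l 204))) (T.b (T.l 220) (T.l 204))))) (T.a (T.a (T.l 204) (T.c (T.l 0) (T.l 204))) (T.a (T.a (T.l 204) (T.b (T.l 204) (T.l 204))) (T.b (T.b (T.l 204) (T.l 204)) (T.l 0))))) (T.b (T.b (T.a (T.a (T.l 0) (T.l 0)) (T.a (T.l 0) (T.l 0))) (T.a (T.a (T.l 0) (T.l 0)) (T.l 0))) (T.a (T.a (T.l 816) (T.c (T.l 0) (T.l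 0))) (T.a (T.l 0) (T.l 816))))), by decide +kernel⟩

def A022E_130 :
    ∃ t, chk3 (onCell 0 67108864 0 1073741824 587336777 62277027 (corW 3 c0B eng mog cA022E gB1q0 gB3q2 gB0q2 gB1q2 dB1q0 dB3q2 dB0q2 dB1q2 true true)) t 1 1 1 = true :=
  ⟨(T.l 2), by decide +kernel⟩

def A022E_131 :
    ∃ t, chk3 (onCell 0 67108864 0 1073741824 587336777 62277027 (corW 3 c0B eng mog cA022E gB1q0 gB3q2 gB1q2 gB2q2 dB1q0 dB3q2 dB1q2 dB2q2 true true)) t 1 1 1 = true :=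
  ⟨(T.l 2), by decide +kernel⟩

def A022E_132 :
    ∃ t, chk3 (onCell 0 67108864 0 1073741824 587336777 62277027 (corW 3 c0B eng mog cA022E gB1q0 gB3q2 gB2q2 gB3q2 dB1q0 dB3q2 dB2q2 dB3q2 true true)) t 1 1 1 = true :=
  ⟨(T.l 2), by decide +kernel⟩

def A022E_133 :
    ∃ t, chk3 (onCell 0 67108864 0 1073741824 587336777 62277027 (corW 3 c0B eng mog cA022E gB1q0 gB3q2 gB3q2 gB4q2 dB1q0 dB3q2 dB3q2 dB4q2 true true)) t 1 1 1 = true :=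
  ⟨(T.l 2), by decide +kernel⟩

def A022E_134 :
    ∃ t, chk3 (onCell 0 67108864 0 1073741824 587336777 62277027 (corW 3 c0B eng mog cA022E gB1q0 gB3q2 gB4q2 gB5q2 dB1q0 dB3q2 dB4q2 dB5q2 true false)) t 1 1 1 = true :=
  ⟨(T.b (T.b (T.a (T.a (T.c (T.l 204) (T.l 204)) (T.a (T.l 204) (T.a (T.l 204) (T.b (T.b (T.l 204) (T.l 204)) (T.l 204))))) (T.a (T.a (T.b (T.b (T.c (T.l 204) (T.l 204)) (T.l 204)) (T.b (T.l 204) (T.l 204))) (T.b (T.a (T.l 204) (T.l 204)) (T.l 204))) (T.b (T.a (T.b (T.l 204) (T.l 204)) (T.b (T.l 204) (T.l 204))) (T.a (T.l 204) (T.l 204))))) (T.a (T.a (T.l 204) (T.c (T.l 0) (T.l 204))) (T.a (T.a (T.l 204) (T.b (T.l 204) (T.l 204))) (T.b (T.b (T.l 204) (T.l 204)) (T.l 0))))) (T.b (T.b (T.a (T.a (T.l 0) (T.l 0)) (T.a (T.l 0) (T.l 0))) (T.a (T.a (T.l 0) (T.l 0)) (T.l 0))) (T.a (T.a (T.l 816) (T.c (T.l 0) (T.l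 0))) (T.a (T.l 0) (T.l 816))))), by decide +kernel⟩

def A022E_140 :
    ∃ t, chk3 (onCell 0 67108864 0 1073741824 587336777 62277027 (corW 3 c0B eng mog cA022E gB1q0 gB4q2 gB0q2 gB1q2 dB1q0 dB4q2 dB0q2 dB1q2 true true)) t 1 1 1 = true :=
  ⟨(T.l 2), by decide +kernel⟩

def A022E_141 :
    ∃ t, chk3 (onCell 0 67108864 0 1073741824 587336777 62277027 (corW 3 c0B eng mog cA022E gB1q0 gB4q2 gB1q2 gB2q2 dB1q0 dB4q2 dB1q2 dB2q2 true true)) t 1 1 1 = true :=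
  ⟨(T.l 2), by decide +kernel⟩

def A022E_142 :
    ∃ t, chk3 (onCell 0 67108864 0 1073741824 587336777 62277027 (corW 3 c0B eng mog cA022E gB1q0 gB4q2 gB2q2 gB3q2 dB1q0 dB4q2 dB2q2 dB3q2 true true)) t 1 1 1 = true :=
  ⟨(T.l 2), by decide +kernel⟩

def A022E_143 :
    ∃ t, chk3 (onCell 0 67108864 0 1073741824 587336777 62277027 (corW 3 c0B eng mog cA022E gB1q0 gB4q2 gB3q2 gB4q2 dB1q0 dB4q2 dB3q2 dB4q2 true true)) t 1 1 1 = true :=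
  ⟨(T.l 2), by decide +kernel⟩

def A022E_144 :
    ∃ t, chk3 (onCell 0 67108864 0 1073741824 587336777 62277027 (corW 3 c0B eng mog cA022E gB1q0 gB4q2 gB4q2 gB5q2 dB1q0 dB4q2 dB4q2 dB5q2 true false)) t 1 1 1 = true :=
  ⟨(T.b (T.b (T.a (T.a (T.l 204) (T.a (T.l 204) (T.a (T.l 204) (T.b (T.l 204) (T.l 204))))) (T.a (T.a (T.b (T.c (T.l 204) (T.l 460)) (T.l 204)) (T.b (T.b (T.l 204) (T.l 204)) (T.l 204))) (T.b (T.a (T.l 204) (T.l 204)) (T.b (T.l 204) (T.l 204))))) (T.a (T.a (T.l 204) (T.c (T.l 0) (T.l 204))) (T.a (T.a (T.l 204) (T.b (T.l 204) (T.l 204))) (T.b (T.l 204) (T.l 0))))) (T.b (T.a (T.a (T.l 0) (T.l 0)) (T.a (T.l 0) (T.b (T.l 0) (T.l 0)))) (T.a (T.a (T.l 816) (T.c (T.l 0) (T.l 0))) (T.a (T.l 0) (T.l 816))))), by decide +kernel⟩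

def A022E_220 :
    ∃ t, chk3 (onCell 0 67108864 0 1073741824 587336777 62277027 (corW 3 c0B eng mog cA022E gB2q0 gB2q2 gB0q2 gB1q2 dB2q0 dB2q2 dB0q2 dB1q2 true true)) t 1 1 1 = true :=
  ⟨(T.l 2), by decide +kernel⟩

def A022E_221 :
    ∃ t, chk3 (onCell 0 67108864 0 1073741824 587336777 62277027 (corW 3 c0B eng mog cA022E gB2q0 gB2q2 gB1q2 gB2q2 dB2q0 dB2q2 dB1q2 dB2q2 true true)) t 1 1 1 = true :=
  ⟨(T.l 2), by decide +kernel⟩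

def A022E_222 :
    ∃ t, chk3 (onCell 0 67108864 0 1073741824 587336777 62277027 (corW 3 c0B eng mog cA022E gB2q0 gB2q2 gB2q2 gB3q2 dB2q0 dB2q2 dB2q2 dB3q2 true true)) t 1 1 1 = true :=
  ⟨(T.l 2), by decide +kernel⟩

def A022E_223 :
    ∃ t, chk3 (onCell 0 67108864 0 1073741824 587336777 62277027 (corW 3 c0B eng mog cA022E gB2q0 gB2q2 gB3q2 gB4q2 dB2q0 dB2q2 dB3q2 dB4q2 true true)) t 1 1 1 = true :=
  ⟨(T.l 2), by decide +kernel⟩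

def A022E_224 :
    ∃ t, chk3 (onCell 0 67108864 0 1073741824 587336777 62277027 (corW 3 c0B eng mog cA022E gB2q0 gB2q2 gB4q2 gB5q2 dB2q0 dB2q2 dB4q2 dB5q2 true false)) t 1 1 1 = true :=
  ⟨(T.b (T.b (T.a (T.a (T.c (T.l 204) (T.l 204)) (T.a (T.l 204) (T.b (T.a (T.l 204) (T.b (T.l 204) (T.l 204))) (T.l 204)))) (T.a (T.b (T.a (T.a (T.b (T.l 204) (T.l 204)) (T.l 220)) (T.b (T.l 204) (T.l 204))) (T.a (T.l 204) (T.l 204))) (T.b (T.a (T.b (T.l 204) (T.l 204)) (T.b (T.l 204) (T.l 204))) (T.b (T.l 204) (T.l 204))))) (T.a (T.a (T.l 0) (T.l 0)) (T.a (T.a (T.l 0) (T.b (T.l 204) (T.l 0))) (T.b (T.l 0) (T.l 0))))) (T.b (T.b (T.a (T.a (T.l 0) (T.l 0)) (T.a (T.l 0) (T.l 0))) (T.a (T.a (T.l 0) (T.l 0)) (T.l 0))) (T.a (T.a (T.l 816) (T.l 0)) (T.l 0)))), by decide +kernel⟩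

def A022E_230 :
    ∃ t, chk3 (onCell 0 67108864 0 1073741824 587336777 62277027 (corW 3 c0B eng mog cA022E gB2q0 gB3q2 gB0q2 gB1q2 dB2q0 dB3q2 dB0q2 dB1q2 true true)) t 1 1 1 = true :=
  ⟨(T.l 2), by decide +kernel⟩

def A022E_231 :
    ∃ t, chk3 (onCell 0 67108864 0 1073741824 587336777 62277027 (corW 3 c0B eng mog cA022E gB2q0 gB3q2 gB1q2 gB2q2 dB2q0 dB3q2 dB1q2 dB2q2 true true)) t 1 1 1 = true :=
  ⟨(T.l 2), by decide +kernel⟩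

def A022E_232 :
    ∃ t, chk3 (onCell 0 67108864 0 1073741824 587336777 62277027 (corW 3 c0B eng mog cA022E gB2q0 gB3q2 gB2q2 gB3q2 dB2q0 dB3q2 dB2q2 dB3q2 true true)) t 1 1 1 = true :=
  ⟨(T.l 2), by decide +kernel⟩

def A022E_233 :
    ∃ t, chk3 (onCell 0 67108864 0 1073741824 587336777 62277027 (corW 3 c0B eng mog cA022E gB2q0 gB3q2 gB3q2 gB4q2 dB2q0 dB3q2 dB3q2 dB4q2 true true)) t 1 1 1 = true :=
  ⟨(T.l 2), by decide +kernel⟩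

def A022E_234 :
    ∃ t, chk3 (onCell 0 67108864 0 1073741824 587336777 62277027 (corW 3 c0B eng mog cA022E gB2q0 gB3q2 gB4q2 gB5q2 dB2q0 dB3q2 dB4q2 dB5q2 true false)) t 1 1 1 = true :=
  ⟨(T.b (T.b (T.a (T.a (T.c (T.l 204) (T.l 204)) (T.a (T.l 204) (T.a (T.l 204) (T.b (T.b (T.l 204) (T.l 204)) (T.l 204))))) (T.a (T.b (T.a (T.b (T.c (T.l 204) (T.l 204)) (T.l 204)) (T.a (T.l 204) (T.l 204))) (T.a (T.l 204) (T.l 204))) (T.b (T.a (T.b (T.l 204) (T.l 204)) (T.b (T.l 204) (T.l 204))) (T.b (T.l 204) (T.l 204))))) (T.a (T.a (T.l 204) (T.l 0)) (T.a (T.a (T.l 0) (T.b (T.l 204) (T.l 0))) (T.b (T.l 0) (T.l 0))))) (T.b (T.b (T.a (T.a (T.l 0) (T.l 0)) (T.a (T.l 0) (T.l 0))) (T.a (T.a (T.l 0) (T.l 0)) (T.l 0))) (T.a (T.a (T.l 816) (T.l 0)) (T.l 0)))), by decide +kernel⟩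

def A022E_240 :
    ∃ t, chk3 (onCell 0 67108864 0 1073741824 587336777 62277027 (corW 3 c0B eng mog cA022E gB2q0 gB4q2 gB0q2 gB1q2 dB2q0 dB4q2 dB0q2 dB1q2 true true)) t 1 1 1 = true :=
  ⟨(T.l 2), by decide +kernel⟩

def A022E_241 :
    ∃ t, chk3 (onCell 0 67108864 0 1073741824 587336777 62277027 (corW 3 c0B eng mog cA022E gB2q0 gB4q2 gB1q2 gB2q2 dB2q0 dB4q2 dB1q2 dB2q2 true true)) t 1 1 1 = true :=
  ⟨(T.l 2), by decide +kernel⟩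

def A022E_242 :
    ∃ t, chk3 (onCell 0 67108864 0 1073741824 587336777 62277027 (corW 3 c0B eng mog cA022E gB2q0 gB4q2 gB2q2 gB3q2 dB2q0 dB4q2 dB2q2 dB3q2 true true)) t 1 1 1 = true :=
  ⟨(T.l 2), by decide +kernel⟩

def A022E_243 :
    ∃ t, chk3 (onCell 0 67108864 0 1073741824 587336777 62277027 (corW 3 c0B eng mog cA022E gB2q0 gB4q2 gB3q2 gB4q2 dB2q0 dB4q2 dB3q2 dB4q2 true true)) t 1 1 1 = true :=
  ⟨(T.l 2), by decide +kernel⟩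

def A022E_244 :
    ∃ t, chk3 (onCell 0 67108864 0 1073741824 587336777 62277027 (corW 3 c0B eng mog cA022E gB2q0 gB4q2 gB4q2 gB5q2 dB2q0 dB4q2 dB4q2 dB5q2 true false)) t 1 1 1 = true :=
  ⟨(T.b (T.a (T.a (T.b (T.l 204) (T.l 0)) (T.b (T.a (T.l 204) (T.a (T.l 204) (T.b (T.l 204) (T.l 204)))) (T.l 0))) (T.b (T.a (T.b (T.a (T.a (T.l 204) (T.l 204)) (T.b (T.l 204) (T.l 204))) (T.b (T.l 204) (T.l 204))) (T.b (T.a (T.l 204) (T.l 204)) (T.l 204))) (T.a (T.b (T.l 0) (T.l 0)) (T.b (T.l 0) (T.l 0))))) (T.b (T.a (T.a (T.l 0) (T.l 0)) (T.a (T.l 0) (T.b (T.l 0) (T.l 816)))) (T.a (T.a (T.l 816) (T.l 0)) (T.l 0)))), by decide +kernel⟩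

def A022E_330 :
    ∃ t, chk3 (onCell 0 67108864 0 1073741824 587336777 62277027 (corW 3 c0B eng mog cA022E gB3q0 gB3q2 gB0q2 gB1q2 dB3q0 dB3q2 dB0q2 dB1q2 true true)) t 1 1 1 = true :=
  ⟨(T.l 2), by decide +kernel⟩

def A022E_331 :
    ∃ t, chk3 (onCell 0 67108864 0 1073741824 587336777 62277027 (corW 3 c0B eng mog cA022E gB3q0 gB3q2 gB1q2 gB2q2 dB3q0 dB3q2 dB1q2 dB2q2 true true)) t 1 1 1 = true :=
  ⟨(T.l 2), by decide +kernel⟩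

def A022E_332 :
    ∃ t, chk3 (onCell 0 67108864 0 1073741824 587336777 62277027 (corW 3 c0B eng mog cA022E gB3q0 gB3q2 gB2q2 gB3q2 dB3q0 dB3q2 dB2q2 dB3q2 true true)) t 1 1 1 = true :=
  ⟨(T.l 2), by decide +kernel⟩

def A022E_333 :
    ∃ t, chk3 (onCell 0 67108864 0 1073741824 587336777 62277027 (corW 3 c0B eng mog cA022E gB3q0 gB3q2 gB3q2 gB4q2 dB3q0 dB3q2 dB3q2 dB4q2 true true)) t 1 1 1 = true :=
  ⟨(T.l 2), by decide +kernel⟩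

def A022E_334 :
    ∃ t, chk3 (onCell 0 67108864 0 1073741824 587336777 62277027 (corW 3 c0B eng mog cA022E gB3q0 gB3q2 gB4q2 gB5q2 dB3q0 dB3q2 dB4q2 dB5q2 true false)) t 1 1 1 = true :=
  ⟨(T.b (T.b (T.a (T.a (T.c (T.l 204) (T.l 204)) (T.a (T.l 204) (T.b (T.a (T.l 204) (T.b (T.l 204) (T.l 204))) (T.l 204)))) (T.a (T.b (T.a (T.b (T.c (T.l 204) (T.l 204)) (T.l 204)) (T.a (T.l 204) (T.l 204))) (T.a (T.l 204) (T.l 204))) (T.b (T.b (T.a (T.l 204) (T.l 204)) (T.l 204)) (T.l 204)))) (T.a (T.a (T.l 0) (T.l 0)) (T.a (T.b (T.l 0) (T.l 0)) (T.b (T.l 0) (T.l 0))))) (T.b (T.b (T.a (T.a (T.l 0) (T.l 0)) (T.b (T.l 0) (T.l 0))) (T.a (T.a (T.l 816) (T.l 0)) (T.l 0))) (T.a (T.a (T.l 816) (T.l 816)) (T.l 816)))), by decide +kernel⟩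

def A022E_340 :
    ∃ t, chk3 (onCell 0 67108864 0 1073741824 587336777 62277027 (corW 3 c0B eng mog cA022E gB3q0 gB4q2 gB0q2 gB1q2 dB3q0 dB4q2 dB0q2 dB1q2 true true)) t 1 1 1 = true :=
  ⟨(T.l 2), by decide +kernel⟩

def A022E_341 :
    ∃ t, chk3 (onCell 0 67108864 0 1073741824 587336777 62277027 (corW 3 c0B eng mog cA022E gB3q0 gB4q2 gB1q2 gB2q2 dB3q0 dB4q2 dB1q2 dB2q2 true true)) t 1 1 1 = true :=
  ⟨(T.l 2), by decide +kernel⟩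

def A022E_342 :
    ∃ t, chk3 (onCell 0 67108864 0 1073741824 587336777 62277027 (corW 3 c0B eng mog cA022E gB3q0 gB4q2 gB2q2 gB3q2 dB3q0 dB4q2 dB2q2 dB3q2 true true)) t 1 1 1 = true :=
  ⟨(T.l 2), by decide +kernel⟩

def A022E_343 :
    ∃ t, chk3 (onCell 0 67108864 0 1073741824 587336777 62277027 (corW 3 c0B eng mog cA022E gB3q0 gB4q2 gB3q2 gB4q2 dB3q0 dB4q2 dB3q2 dB4q2 true true)) t 1 1 1 = true :=
  ⟨(T.l 2), by decide +kernel⟩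

def A022E_344 :
    ∃ t, chk3 (onCell 0 67108864 0 1073741824 587336777 62277027 (corW 3 c0B eng mog cA022E gB3q0 gB4q2 gB4q2 gB5q2 dB3q0 dB4q2 dB4q2 dB5q2 true false)) t 1 1 1 = true :=
  ⟨(T.b (T.b (T.a (T.a (T.b (T.l 204) (T.l 204)) (T.a (T.l 204) (T.b (T.a (T.l 204) (T.l 204)) (T.l 204)))) (T.a (T.b (T.a (T.a (T.l 204) (T.l 204)) (T.b (T.l 204) (T.l 204))) (T.b (T.l 204) (T.l 204))) (T.b (T.a (T.l 204) (T.l 204)) (T.l 204)))) (T.a (T.a (T.l 0) (T.l 0)) (T.a (T.b (T.l 0) (T.l 0)) (T.l 0)))) (T.b (T.a (T.a (T.l 0) (T.l 0)) (T.b (T.l 0) (T.l 0))) (T.a (T.a (T.l 816) (T.l 816)) (T.l 816)))), by decide +kernel⟩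

def A022E_440 :
    ∃ t, chk3 (onCell 0 67108864 0 1073741824 587336777 62277027 (corW 3 c0B eng mog cA022E gB4q0 gB4q2 gB0q2 gB1q2 dB4q0 dB4q2 dB0q2 dB1q2 true true)) t 1 1 1 = true :=
  ⟨(T.l 2), by decide +kernel⟩

def A022E_441 :
    ∃ t, chk3 (onCell 0 67108864 0 1073741824 587336777 62277027 (corW 3 c0B eng mog cA022E gB4q0 gB4q2 gB1q2 gB2q2 dB4q0 dB4q2 dB1q2 dB2q2 true true)) t 1 1 1 = true :=
  ⟨(T.l 2), by decide +kernel⟩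

def A022E_442 :
    ∃ t, chk3 (onCell 0 67108864 0 1073741824 587336777 62277027 (corW 3 c0B eng mog cA022E gB4q0 gB4q2 gB2q2 gB3q2 dB4q0 dB4q2 dB2q2 dB3q2 true true)) t 1 1 1 = true :=
  ⟨(T.l 2), by decide +kernel⟩

def A022E_443 :
    ∃ t, chk3 (onCell 0 67108864 0 1073741824 587336777 62277027 (corW 3 c0B eng mog cA022E gB4q0 gB4q2 gB3q2 gB4q2 dB4q0 dB4q2 dB3q2 dB4q2 true true)) t 1 1 1 = true :=
  ⟨(T.l 2), by decide +kernel⟩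

def A022E_444 :
    ∃ t, chk3 (onCell 0 67108864 0 1073741824 587336777 62277027 (corW 3 c0B eng mog cA022E gB4q0 gB4q2 gB4q2 gB5q2 dB4q0 dB4q2 dB4q2 dB5q2 true false)) t 1 1 1 = true :=
  ⟨(T.b (T.b (T.a (T.a (T.b (T.l 204) (T.l 204)) (T.a (T.b (T.l 204) (T.l 204)) (T.b (T.a (T.l 204) (T.b (T.l 204) (T.l 204))) (T.l 204)))) (T.a (T.b (T.b (T.a (T.b (T.l 204) (T.l 204)) (T.l 204)) (T.l 204)) (T.l 0)) (T.b (T.a (T.b (T.l 204) (T.l 204)) (T.l 204)) (T.l 0)))) (T.a (T.a (T.l 0) (T.l 0)) (T.a (T.l 0) (T.l 0)))) (T.b (T.a (T.a (T.l 816) (T.l 0)) (T.b (T.l 0) (T.l 816))) (T.a (T.a (T.l 816) (T.l 816)) (T.l 816)))), by decide +kernel⟩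

def A022L_006_1_2_1 :
    ∃ t, chk3 (onCell 0 67108864 0 1073741824 587336777 62277027 (corW 3 c0B eng mog cA022L gB0q0 gB0q2 gB6q2 gB7q2 dB0q0 dB0q2 dB6q2 dB7q2 false true)) t 1 2 1 = true :=
  ⟨(T.b (T.b (T.a (T.a (T.c (T.a (T.b (T.l 204) (T.l 204)) (T.l 204)) (T.b (T.l 204) (T.l 204))) (T.a (T.b (T.l 204) (T.l 204)) (T.a (T.l 204) (T.b (T.l 204) (T.l 204))))) (T.a (T.a (T.a (T.b (T.l 204) (T.l 204)) (T.b (T.l 204) (T.l 204))) (T.a (T.b (T.l 204) (T.l 204)) (T.b (T.l 204) (T.l 204)))) (T.a (T.b (T.l 220) (T.l 220)) (T.b (T.b (T.l 204) (T.l 204)) (T.b (T.l 204) (T.l 204)))))) (T.a (T.a (T.c (T.a (T.b (T.l 204) (T.l 204)) (T.l 220)) (T.a (T.l 204) (T.l 204))) (T.a (T.b (T.l 204) (T.l 204)) (T.b (T.l 204) (T.l 204)))) (T.a (T.a (T.a (T.l 204) (T.b (T.l 204) (T.l 204))) (T.b (T.b (T.l 204) (T.l 220)) (T.a (T.l 204) (T.l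 204)))) (T.a (T.b (T.l 220) (T.b (T.l 204) (T.l 204))) (T.b (T.l 204) (T.l 204)))))) (T.a (T.b (T.a (T.b (T.c (T.b (T.l 204) (T.l 204)) (T.b (T.l 204) (T.l 204))) (T.c (T.b (T.l 204) (T.l 204)) (T.b (T.l 204) (T.l 204)))) (T.b (T.b (T.l 220) (T.l 204)) (T.b (T.l 204) (T.l 204)))) (T.a (T.b (T.c (T.b (T.l 204) (T.l 204)) (T.b (T.l 204) (T.l 204))) (T.c (T.a (T.b (T.l 204) (T.l 204)) (T.l 204)) (T.b (T.l 204) (T.l 204)))) (T.b (T.b (T.l 220) (T.l 220)) (T.c (T.b (T.l 204) (T.l 204)) (T.l 204))))) (T.a (T.b (T.a (T.b (T.l 204) (T.l 204)) (T.b (T.b (T.l 204) (T.l 204)) (T.b (T.l 204) (T.l 204)))) (T.b (T.b (T.l 204) (T.l 204)) (T.b (T.l 204) (T.l 204)))) (T.b (T.a (T.b (T.b (T.l 204) (T.l 204)) (T.b (T.l 204) (T.l 204))) (T.b (T.l 204) (T.b (T.l 204) (T.l 204)))) (T.b (T.a (T.b (T.l 204) (T.l 204)) (T.b (T.l 204) (T.l 204)))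 (T.a (T.l 204) (T.b (T.l 204) (T.l 204)))))))), by decide +kernel⟩

def A022L_006_1_12_1 :
    ∃ t, chk3 (onCell 0 67108864 0 1073741824 587336777 62277027 (corW 3 c0B eng mog cA022L gB0q0 gB0q2 gB6q2 gB7q2 dB0q0 dB0q2 dB6q2 dB7q2 false true)) t 1 12 1 = true :=
  ⟨(T.a (T.b (T.a (T.c (T.a (T.b (T.l 204) (T.l 204)) (T.l 220)) (T.a (T.b (T.l 204) (T.l 204)) (T.l 204))) (T.b (T.c (T.l 204) (T.l 204)) (T.c (T.l 204) (T.l 204)))) (T.a (T.b (T.c (T.a (T.l 204) (T.l 204)) (T.a (T.l 204) (T.l 204))) (T.c (T.a (T.b (T.l 204) (T.l 204)) (T.l 204)) (T.a (T.l 204) (T.l 204)))) (T.b (T.c (T.l 204) (T.l 204)) (T.c (T.a (T.l 204) (T.l 204)) (T.l 220))))) (T.a (T.b (T.b (T.l 204) (T.l 204)) (T.b (T.c (T.l 204) (T.l 204)) (T.c (T.l 204) (T.l 204)))) (T.b (T.a (T.l 204) (T.b (T.l 204) (T.l 204))) (T.b (T.l 204) (T.c (T.l 204) (T.l 204)))))),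 by decide +kernel⟩

def A022L_006_1_13_1 :
    ∃ t, chk3 (onCell 0 67108864 0 1073741824 587336777 62277027 (corW 3 c0B eng mog cA022L gB0q0 gB0q2 gB6q2 gB7q2 dB0q0 dB0q2 dB6q2 dB7q2 false true)) t 1 13 1 = true :=
  ⟨(T.b (T.b (T.a (T.a (T.c (T.a (T.b (T.l 204) (T.l 204)) (T.b (T.l 204) (T.l 204))) (T.a (T.b (T.l 204) (T.l 204)) (T.b (T.l 204) (T.l 204)))) (T.c (T.a (T.l 204) (T.l 204)) (T.a (T.l 204) (T.l 204)))) (T.a (T.b (T.c (T.l 204) (T.l 204)) (T.c (T.l 204) (T.l 204))) (T.c (T.l 220) (T.l 220)))) (T.b (T.a (T.b (T.a (T.a (T.c (T.l 204) (T.l 204)) (T.l 204)) (T.c (T.l 204) (T.l 204))) (T.b (T.a (T.a (T.b (T.l 0) (T.b (T.c (T.l 0) (T.l 0)) (T.a (T.a (T.l 2) (T.b (T.c (T.l 0) (T.l 0)) (T.l 2))) (T.b (T.l 0) (T.a (T.l 2) (T.c (T.l 0) (T.l 0))))))) (T.c (T.l 0) (T.c (T.l 0) (T.l 0)))) (T.c (T.l 0) (T.l 0))) (T.a (T.a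 (T.l 2) (T.b (T.b (T.b (T.a (T.a (T.l 2) (T.c (T.l 0) (T.l 0))) (T.l 0)) (T.l 2)) (T.l 2)) (T.l 2))) (T.b (T.a (T.b (T.c (T.l 0) (T.l 0)) (T.a (T.l 2) (T.b (T.l 0) (T.l 2)))) (T.c (T.l 0) (T.l 0))) (T.a (T.l 2) (T.a (T.l 2) (T.b (T.b (T.l 0) (T.l 2)) (T.l 2)))))))) (T.a (T.b (T.c (T.l 204) (T.l 204)) (T.a (T.b (T.l 204) (T.b (T.l 0) (T.b (T.c (T.l 0) (T.l 0)) (T.a (T.l 2) (T.a (T.l 2) (T.l 0)))))) (T.c (T.l 0) (T.c (T.l 0) (T.l 0))))) (T.c (T.l 0) (T.l 0)))) (T.a (T.l 2) (T.b (T.b (T.b (T.a (T.a (T.l 2) (T.a (T.l 2) (T.a (T.l 2) (T.b (T.l 0) (T.l 2))))) (T.a (T.b (T.l 0) (T.a (T.l 2) (T.a (T.l 2) (T.l 0)))) (T.c (T.l 0) (T.l 0)))) (T.l 2)) (T.l 2)) (T.l 2))))) (T.l 2)), by decide +kernel⟩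

def A022L_006_1_7_1 :
    ∃ t, chk3 (onCell 0 67108864 0 1073741824 587336777 62277027 (corW 3 c0B eng mog cA022L gB0q0 gB0q2 gB6q2 gB7q2 dB0q0 dB0q2 dB6q2 dB7q2 false true)) t 1 7 1 = true :=
  ⟨(T.l 2), by decide +kernel⟩

theorem A022L_006_1_6_1 :
    ∃ t, chk3 (onCell 0 67108864 0 1073741824 587336777 62277027 (corW 3 c0B eng mog cA022L gB0q0 gB0q2 gB6q2 gB7q2 dB0q0 dB0q2 dB6q2 dB7q2 false true)) t 1 6 1 = true :=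
  ex3_b A022L_006_1_12_1 A022L_006_1_13_1
theorem A022L_006_1_3_1 :
    ∃ t, chk3 (onCell 0 67108864 0 1073741824 587336777 62277027 (corW 3 c0B eng mog cA022L gB0q0 gB0q2 gB6q2 gB7q2 dB0q0 dB0q2 dB6q2 dB7q2 false true)) t 1 3 1 = true :=
  ex3_b A022L_006_1_6_1 A022L_006_1_7_1
theorem A022L_006 :
    ∃ t, chk3 (onCell 0 67108864 0 1073741824 587336777 62277027 (corW 3 c0B eng mog cA022L gB0q0 gB0q2 gB6q2 gB7q2 dB0q0 dB0q2 dB6q2 dB7q2 false true)) t 1 1 1 = true :=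
  ex3_b A022L_006_1_2_1 A022L_006_1_3_1

def A022L_016 :
    ∃ t, chk3 (onCell 0 67108864 0 1073741824 587336777 62277027 (corW 3 c0B eng mog cA022L gB0q0 gB1q2 gB6q2 gB7q2 dB0q0 dB1q2 dB6q2 dB7q2 false true)) t 1 1 1 = true :=
  ⟨(T.b (T.b (T.b (T.a (T.a (T.l 204) (T.a (T.l 204) (T.a (T.l 204) (T.l 204)))) (T.a (T.a (T.b (T.l 204) (T.l 204)) (T.b (T.l 204) (T.l 204))) (T.a (T.l 204) (T.b (T.l 204) (T.l 204))))) (T.a (T.b (T.l 204) (T.l 204)) (T.a (T.a (T.b (T.l 204) (T.l 204)) (T.b (T.l 204) (T.l 204))) (T.a (T.b (T.l 204) (T.l 204)) (T.l 204))))) (T.a (T.b (T.b (T.l 204) (T.l 204)) (T.a (T.b (T.l 204) (T.l 204)) (T.l 204))) (T.a (T.b (T.a (T.l 204) (T.b (T.l 204) (T.l 204))) (T.l 204)) (T.b (T.a (T.b (T.l 204) (T.l 204)) (T.b (T.l 204) (T.l 204))) (T.b (T.a (T.l 204) (T.l 204)) (T.a (T.l 204) (T.l 204))))))) (T.b (T.b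 (T.a (T.b (T.a (T.l 204) (T.l 204)) (T.a (T.l 204) (T.l 0))) (T.a (T.b (T.l 204) (T.l 0)) (T.b (T.a (T.l 204) (T.l 220)) (T.l 0)))) (T.b (T.b (T.a (T.b (T.l 0) (T.a (T.l 2) (T.b (T.l 816) (T.l 2)))) (T.b (T.l 0) (T.b (T.l 0) (T.l 2)))) (T.l 2)) (T.l 2))) (T.l 2))), by decide +kernel⟩

def A022L_026 :
    ∃ t, chk3 (onCell 0 67108864 0 1073741824 587336777 62277027 (corW 3 c0B eng mog cA022L gB0q0 gB2q2 gB6q2 gB7q2 dB0q0 dB2q2 dB6q2 dB7q2 false true)) t 1 1 1 = true :=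
  ⟨(T.b (T.b (T.b (T.a (T.a (T.l 204) (T.a (T.l 204) (T.l 204))) (T.a (T.a (T.l 204) (T.l 204)) (T.b (T.l 204) (T.l 204)))) (T.a (T.l 204) (T.a (T.a (T.l 204) (T.l 204)) (T.b (T.l 204) (T.l 204))))) (T.a (T.b (T.l 204) (T.l 204)) (T.a (T.b (T.a (T.l 204) (T.l 0)) (T.l 204)) (T.b (T.b (T.l 0) (T.l 0)) (T.b (T.l 0) (T.b (T.l 0) (T.l 0))))))) (T.b (T.b (T.b (T.a (T.l 0) (T.a (T.l 0) (T.b (T.l 0) (T.l 0)))) (T.b (T.a (T.l 0) (T.l 0)) (T.l 2))) (T.l 2)) (T.l 2))), by decide +kernel⟩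

def A022L_036 :
    ∃ t, chk3 (onCell 0 67108864 0 1073741824 587336777 62277027 (corW 3 c0B eng mog cA022L gB0q0 gB3q2 gB6q2 gB7q2 dB0q0 dB3q2 dB6q2 dB7q2 false true)) t 1 1 1 = true :=
  ⟨(T.b (T.b (T.b (T.a (T.a (T.l 204) (T.a (T.l 204) (T.l 204))) (T.a (T.b (T.l 0) (T.l 0)) (T.l 0))) (T.a (T.l 204) (T.a (T.b (T.l 0) (T.l 0)) (T.l 0)))) (T.a (T.l 0) (T.b (T.a (T.b (T.l 0) (T.l 0)) (T.b (T.l 0) (T.l 0))) (T.a (T.l 0) (T.b (T.l 0) (T.l 0)))))) (T.l 2)), by decide +kernel⟩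

def A022L_046 :
    ∃ t, chk3 (onCell 0 67108864 0 1073741824 587336777 62277027 (corW 3 c0B eng mog cA022L gB0q0 gB4q2 gB6q2 gB7q2 dB0q0 dB4q2 dB6q2 dB7q2 false true)) t 1 1 1 = true :=
  ⟨(T.l 2), by decide +kernel⟩

def A022L_116 :
    ∃ t, chk3 (onCell 0 67108864 0 1073741824 587336777 62277027 (corW 3 c0B eng mog cA022L gB1q0 gB1q2 gB6q2 gB7q2 dB1q0 dB1q2 dB6q2 dB7q2 false true)) t 1 1 1 = true :=
  ⟨(T.b (T.b (T.b (T.a (T.a (T.l 204) (T.a (T.l 204) (T.a (T.l 204) (T.l 204)))) (T.a (T.a (T.b (T.l 204) (T.l 204)) (T.l 204)) (T.a (T.l 204) (T.l 204)))) (T.a (T.l 204) (T.a (T.a (T.b (T.l 204) (T.l 204)) (T.l 204)) (T.b (T.l 204) (T.l 204))))) (T.a (T.l 204) (T.a (T.b (T.a (T.l 204) (T.l 204)) (T.l 204)) (T.b (T.b (T.l 204) (T.l 0)) (T.b (T.l 0) (T.l 0)))))) (T.b (T.b (T.a (T.l 0) (T.a (T.l 0) (T.b (T.l 0) (T.l 0))))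 (T.l 2)) (T.l 2))), by decide +kernel⟩

def A022L_126 :
    ∃ t, chk3 (onCell 0 67108864 0 1073741824 587336777 62277027 (corW 3 c0B eng mog cA022L gB1q0 gB2q2 gB6q2 gB7q2 dB1q0 dB2q2 dB6q2 dB7q2 false true)) t 1 1 1 = true :=
  ⟨(T.b (T.b (T.b (T.a (T.a (T.l 204) (T.a (T.l 204) (T.l 204))) (T.a (T.b (T.l 204) (T.l 204)) (T.b (T.l 204) (T.l 204)))) (T.a (T.l 204) (T.a (T.b (T.l 0) (T.l 0)) (T.l 0)))) (T.a (T.l 0) (T.a (T.b (T.b (T.l 0) (T.l 0)) (T.l 0)) (T.b (T.l 0) (T.b (T.l 0) (T.l 0)))))) (T.b (T.b (T.a (T.l 0) (T.b (T.a (T.l 0) (T.l 0)) (T.l 2))) (T.l 2)) (T.l 2))), by decide +kernel⟩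

def A022L_136 :
    ∃ t, chk3 (onCell 0 67108864 0 1073741824 587336777 62277027 (corW 3 c0B eng mog cA022L gB1q0 gB3q2 gB6q2 gB7q2 dB1q0 dB3q2 dB6q2 dB7q2 false true)) t 1 1 1 = true :=
  ⟨(T.b (T.b (T.b (T.a (T.a (T.l 204) (T.a (T.l 204) (T.l 204))) (T.a (T.l 16) (T.l 0))) (T.a (T.l 204) (T.a (T.l 0) (T.l 0)))) (T.a (T.l 0) (T.b (T.a (T.b (T.l 0) (T.l 0)) (T.l 0)) (T.a (T.l 0) (T.b (T.l 0) (T.l 2)))))) (T.l 2)), by decide +kernel⟩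

def A022L_146 :
    ∃ t, chk3 (onCell 0 67108864 0 1073741824 587336777 62277027 (corW 3 c0B eng mog cA022L gB1q0 gB4q2 gB6q2 gB7q2 dB1q0 dB4q2 dB6q2 dB7q2 false true)) t 1 1 1 = true :=
  ⟨(T.l 2), by decide +kernel⟩

def A022L_226 :
    ∃ t, chk3 (onCell 0 67108864 0 1073741824 587336777 62277027 (corW 3 c0B eng mog cA022L gB2q0 gB2q2 gB6q2 gB7q2 dB2q0 dB2q2 dB6q2 dB7q2 false true)) t 1 1 1 = true :=
  ⟨(T.b (T.b (T.b (T.a (T.a (T.l 204) (T.a (T.l 204) (T.l 204))) (T.a (T.b (T.l 204) (T.l 0)) (T.b (T.l 204) (T.l 204)))) (T.a (T.l 204) (T.a (T.b (T.l 0) (T.l 0)) (T.l 0)))) (T.a (T.l 0) (T.a (T.b (T.l 0) (T.l 0)) (T.b (T.l 0) (T.l 0))))) (T.l 2)), by decide +kernel⟩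

def A022L_236 :
    ∃ t, chk3 (onCell 0 67108864 0 1073741824 587336777 62277027 (corW 3 c0B eng mog cA022L gB2q0 gB3q2 gB6q2 gB7q2 dB2q0 dB3q2 dB6q2 dB7q2 false true)) t 1 1 1 = true :=
  ⟨(T.b (T.b (T.b (T.a (T.a (T.l 204) (T.a (T.l 204) (T.l 0))) (T.a (T.l 0) (T.l 0))) (T.a (T.l 204) (T.a (T.l 0) (T.l 0)))) (T.b (T.a (T.l 0) (T.a (T.l 0) (T.l 0))) (T.l 2))) (T.l 2)), by decide +kernel⟩

def A022L_246 :
    ∃ t, chk3 (onCell 0 67108864 0 1073741824 587336777 62277027 (corW 3 c0B eng mog cA022L gB2q0 gB4q2 gB6q2 gB7q2 dB2q0 dB4q2 dB6q2 dB7q2 false true)) t 1 1 1 = true :=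
  ⟨(T.l 2), by decide +kernel⟩

def A022L_336 :
    ∃ t, chk3 (onCell 0 67108864 0 1073741824 587336777 62277027 (corW 3 c0B eng mog cA022L gB3q0 gB3q2 gB6q2 gB7q2 dB3q0 dB3q2 dB6q2 dB7q2 false true)) t 1 1 1 = true :=
  ⟨(T.b (T.b (T.b (T.a (T.a (T.l 204) (T.a (T.l 204) (T.l 0))) (T.a (T.l 0) (T.l 0))) (T.a (T.l 0) (T.a (T.l 0) (T.l 0)))) (T.b (T.a (T.l 0) (T.a (T.l 0) (T.l 0))) (T.l 2))) (T.l 2)), by decide +kernel⟩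

def A022L_346 :
    ∃ t, chk3 (onCell 0 67108864 0 1073741824 587336777 62277027 (corW 3 c0B eng mog cA022L gB3q0 gB4q2 gB6q2 gB7q2 dB3q0 dB4q2 dB6q2 dB7q2 false true)) t 1 1 1 = true :=
  ⟨(T.l 2), by decide +kernel⟩

def A022L_446 :
    ∃ t, chk3 (onCell 0 67108864 0 1073741824 587336777 62277027 (corW 3 c0B eng mog cA022L gB4q0 gB4q2 gB6q2 gB7q2 dB4q0 dB4q2 dB6q2 dB7q2 false true)) t 1 1 1 = true :=
  ⟨(T.l 2), by decide +kernel⟩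

def A022R_070 :
    ∃ t, chk3 (onCell 0 67108864 0 1073741824 587336777 62277027 (corW 3 c0B eng mog cA022R gB0q0 gB7q2 gB0q2 gB1q2 dB0q0 dB7q2 dB0q2 dB1q2 true true)) t 1 1 1 = true :=
  ⟨(T.l 2), by decide +kernel⟩

def A022R_071 :
    ∃ t, chk3 (onCell 0 67108864 0 1073741824 587336777 62277027 (corW 3 c0B eng mog cA022R gB0q0 gB7q2 gB1q2 gB2q2 dB0q0 dB7q2 dB1q2 dB2q2 true true)) t 1 1 1 = true :=
  ⟨(T.l 2), by decide +kernel⟩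

def A022R_072 :
    ∃ t, chk3 (onCell 0 67108864 0 1073741824 587336777 62277027 (corW 3 c0B eng mog cA022R gB0q0 gB7q2 gB2q2 gB3q2 dB0q0 dB7q2 dB2q2 dB3q2 true true)) t 1 1 1 = true :=
  ⟨(T.l 2), by decide +kernel⟩

def A022R_073 :
    ∃ t, chk3 (onCell 0 67108864 0 1073741824 587336777 62277027 (corW 3 c0B eng mog cA022R gB0q0 gB7q2 gB3q2 gB4q2 dB0q0 dB7q2 dB3q2 dB4q2 true true)) t 1 1 1 = true :=
  ⟨(T.b (T.b (T.b (T.b (T.a (T.a (T.l 204) (T.a (T.l 204) (T.l 0))) (T.a (T.l 0) (T.l 0))) (T.a (T.a (T.l 204) (T.a (T.l 204) (T.l 0))) (T.a (T.l 0) (T.l 0)))) (T.b (T.a (T.a (T.l 0) (T.a (T.l 0) (T.l 0))) (T.a (T.l 0) (T.l 0))) (T.a (T.a (T.l 0) (T.a (T.l 816) (T.l 0))) (T.a (T.l 0) (T.l 0))))) (T.b (T.b (T.a (T.a (T.l 816) (T.a (T.l 816) (T.l 0))) (T.a (T.l 0) (T.l 0))) (T.a (T.a (T.l 816) (T.a (T.l 816) (T.l 816))) (T.a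 (T.l 0) (T.l 816)))) (T.a (T.a (T.l 816) (T.b (T.l 2) (T.l 2))) (T.l 2)))) (T.l 2)), by decide +kernel⟩

def A022R_074 :
    ∃ t, chk3 (onCell 0 67108864 0 1073741824 587336777 62277027 (corW 3 c0B eng mog cA022R gB0q0 gB7q2 gB4q2 gB5q2 dB0q0 dB7q2 dB4q2 dB5q2 true false)) t 1 1 1 = true :=
  ⟨(T.b (T.b (T.l 1) (T.a (T.a (T.l 816) (T.l 0)) (T.l 0))) (T.a (T.a (T.l 816) (T.a (T.l 816) (T.l 816))) (T.a (T.b (T.l 816) (T.l 816)) (T.b (T.l 816) (T.l 816))))), by decide +kernel⟩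

def A022R_170 :
    ∃ t, chk3 (onCell 0 67108864 0 1073741824 587336777 62277027 (corW 3 c0B eng mog cA022R gB1q0 gB7q2 gB0q2 gB1q2 dB1q0 dB7q2 dB0q2 dB1q2 true true)) t 1 1 1 = true :=
  ⟨(T.l 2), by decide +kernel⟩

def A022R_171 :
    ∃ t, chk3 (onCell 0 67108864 0 1073741824 587336777 62277027 (corW 3 c0B eng mog cA022R gB1q0 gB7q2 gB1q2 gB2q2 dB1q0 dB7q2 dB1q2 dB2q2 true true)) t 1 1 1 = true :=
  ⟨(T.l 2), by decide +kernel⟩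

def A022R_172 :
    ∃ t, chk3 (onCell 0 67108864 0 1073741824 587336777 62277027 (corW 3 c0B eng mog cA022R gB1q0 gB7q2 gB2q2 gB3q2 dB1q0 dB7q2 dB2q2 dB3q2 true true)) t 1 1 1 = true :=
  ⟨(T.l 2), by decide +kernel⟩

def A022R_173 :
    ∃ t, chk3 (onCell 0 67108864 0 1073741824 587336777 62277027 (corW 3 c0B eng mog cA022R gB1q0 gB7q2 gB3q2 gB4q2 dB1q0 dB7q2 dB3q2 dB4q2 true true)) t 1 1 1 = true :=
  ⟨(T.b (T.b (T.b (T.b (T.a (T.a (T.l 204) (T.a (T.l 204) (T.l 0))) (T.a (T.l 0) (T.l 0))) (T.a (T.a (T.l 204) (T.a (T.l 204) (T.l 0))) (T.a (T.l 0) (T.l 0)))) (T.a (T.a (T.l 0) (T.a (T.l 0) (T.l 0))) (T.a (T.l 0) (T.l 0)))) (T.b (T.a (T.a (T.l 816) (T.a (T.l 816) (T.l 0))) (T.a (T.l 0) (T.l 0))) (T.a (T.a (T.l 816) (T.a (T.l 816) (T.l 816))) (T.a (T.l 0) (T.l 816))))) (T.b (T.a (T.a (T.l 816) (T.l 2)) (T.l 2)) (T.l 2))),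 by decide +kernel⟩

def A022R_174 :
    ∃ t, chk3 (onCell 0 67108864 0 1073741824 587336777 62277027 (corW 3 c0B eng mog cA022R gB1q0 gB7q2 gB4q2 gB5q2 dB1q0 dB7q2 dB4q2 dB5q2 true false)) t 1 1 1 = true :=
  ⟨(T.b (T.a (T.a (T.l 0) (T.l 0)) (T.l 0)) (T.a (T.a (T.l 816) (T.b (T.l 816) (T.l 816))) (T.a (T.l 816) (T.l 816)))), by decide +kernel⟩

def A022R_270 :
    ∃ t, chk3 (onCell 0 67108864 0 1073741824 587336777 62277027 (corW 3 c0B eng mog cA022R gB2q0 gB7q2 gB0q2 gB1q2 dB2q0 dB7q2 dB0q2 dB1q2 true true)) t 1 1 1 = true :=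
  ⟨(T.l 2), by decide +kernel⟩

def A022R_271 :
    ∃ t, chk3 (onCell 0 67108864 0 1073741824 587336777 62277027 (corW 3 c0B eng mog cA022R gB2q0 gB7q2 gB1q2 gB2q2 dB2q0 dB7q2 dB1q2 dB2q2 true true)) t 1 1 1 = true :=
  ⟨(T.l 2), by decide +kernel⟩

def A022R_272 :
    ∃ t, chk3 (onCell 0 67108864 0 1073741824 587336777 62277027 (corW 3 c0B eng mog cA022R gB2q0 gB7q2 gB2q2 gB3q2 dB2q0 dB7q2 dB2q2 dB3q2 true true)) t 1 1 1 = true :=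
  ⟨(T.l 2), by decide +kernel⟩

def A022R_273 :
    ∃ t, chk3 (onCell 0 67108864 0 1073741824 587336777 62277027 (corW 3 c0B eng mog cA022R gB2q0 gB7q2 gB3q2 gB4q2 dB2q0 dB7q2 dB3q2 dB4q2 true true)) t 1 1 1 = true :=
  ⟨(T.b (T.b (T.a (T.a (T.l 0) (T.a (T.l 0) (T.l 0))) (T.a (T.l 0) (T.l 0))) (T.a (T.a (T.l 816) (T.a (T.l 816) (T.l 816))) (T.a (T.l 0) (T.l 816)))) (T.b (T.a (T.a (T.l 816) (T.a (T.l 816) (T.l 816))) (T.a (T.l 816) (T.l 816))) (T.a (T.a (T.l 816) (T.a (T.l 816) (T.l 816))) (T.a (T.l 816) (T.l 816))))), by decide +kernel⟩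

def A022R_274 :
    ∃ t, chk3 (onCell 0 67108864 0 1073741824 587336777 62277027 (corW 3 c0B eng mog cA022R gB2q0 gB7q2 gB4q2 gB5q2 dB2q0 dB7q2 dB4q2 dB5q2 true false)) t 1 1 1 = true :=
  ⟨(T.b (T.l 1) (T.a (T.l 1) (T.l 816))), by decide +kernel⟩

def A022R_370 :
    ∃ t, chk3 (onCell 0 67108864 0 1073741824 587336777 62277027 (corW 3 c0B eng mog cA022R gB3q0 gB7q2 gB0q2 gB1q2 dB3q0 dB7q2 dB0q2 dB1q2 true true)) t 1 1 1 = true :=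
  ⟨(T.l 2), by decide +kernel⟩

def A022R_371 :
    ∃ t, chk3 (onCell 0 67108864 0 1073741824 587336777 62277027 (corW 3 c0B eng mog cA022R gB3q0 gB7q2 gB1q2 gB2q2 dB3q0 dB7q2 dB1q2 dB2q2 true true)) t 1 1 1 = true :=
  ⟨(T.l 2), by decide +kernel⟩

def A022R_372 :
    ∃ t, chk3 (onCell 0 67108864 0 1073741824 587336777 62277027 (corW 3 c0B eng mog cA022R gB3q0 gB7q2 gB2q2 gB3q2 dB3q0 dB7q2 dB2q2 dB3q2 true true)) t 1 1 1 = true :=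
  ⟨(T.l 2), by decide +kernel⟩

def A022R_373 :
    ∃ t, chk3 (onCell 0 67108864 0 1073741824 587336777 62277027 (corW 3 c0B eng mog cA022R gB3q0 gB7q2 gB3q2 gB4q2 dB3q0 dB7q2 dB3q2 dB4q2 true true)) t 1 1 1 = true :=
  ⟨(T.b (T.b (T.a (T.a (T.l 0) (T.a (T.l 0) (T.l 0))) (T.a (T.l 0) (T.l 0))) (T.a (T.a (T.l 816) (T.c (T.l 0) (T.l 0))) (T.a (T.l 816) (T.l 816)))) (T.a (T.a (T.l 816) (T.c (T.l 816) (T.l 816))) (T.a (T.l 816) (T.l 816)))), by decide +kernel⟩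

def A022R_374 :
    ∃ t, chk3 (onCell 0 67108864 0 1073741824 587336777 62277027 (corW 3 c0B eng mog cA022R gB3q0 gB7q2 gB4q2 gB5q2 dB3q0 dB7q2 dB4q2 dB5q2 true false)) t 1 1 1 = true :=
  ⟨(T.l 1), by decide +kernel⟩

def A022R_470 :
    ∃ t, chk3 (onCell 0 67108864 0 1073741824 587336777 62277027 (corW 3 c0B eng mog cA022R gB4q0 gB7q2 gB0q2 gB1q2 dB4q0 dB7q2 dB0q2 dB1q2 true true)) t 1 1 1 = true :=
  ⟨(T.l 2), by decide +kernel⟩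

def A022R_471 :
    ∃ t, chk3 (onCell 0 67108864 0 1073741824 587336777 62277027 (corW 3 c0B eng mog cA022R gB4q0 gB7q2 gB1q2 gB2q2 dB4q0 dB7q2 dB1q2 dB2q2 true true)) t 1 1 1 = true :=
  ⟨(T.b (T.l 2) (T.a (T.a (T.l 816) (T.a (T.l 816) (T.l 2))) (T.l 2))), by decide +kernel⟩

def A022R_472 :
    ∃ t, chk3 (onCell 0 67108864 0 1073741824 587336777 62277027 (corW 3 c0B eng mog cA022R gB4q0 gB7q2 gB2q2 gB3q2 dB4q0 dB7q2 dB2q2 dB3q2 true true)) t 1 1 1 = true :=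
  ⟨(T.b (T.b (T.l 2) (T.l 2)) (T.b (T.a (T.a (T.l 816) (T.a (T.l 816) (T.l 816))) (T.a (T.l 816) (T.l 2))) (T.a (T.a (T.l 816) (T.a (T.l 816) (T.l 816))) (T.a (T.l 816) (T.l 816))))), by decide +kernel⟩

def A022R_473 :
    ∃ t, chk3 (onCell 0 67108864 0 1073741824 587336777 62277027 (corW 3 c0B eng mog cA022R gB4q0 gB7q2 gB3q2 gB4q2 dB4q0 dB7q2 dB3q2 dB4q2 true true)) t 1 1 1 = true :=
  ⟨(T.b (T.b (T.a (T.a (T.l 0) (T.a (T.l 0) (T.l 0))) (T.a (T.l 0) (T.l 0))) (T.a (T.a (T.l 816) (T.l 0)) (T.a (T.l 816) (T.l 816)))) (T.a (T.a (T.l 816) (T.b (T.l 816) (T.l 1))) (T.a (T.l 816) (T.l 816)))), by decide +kernel⟩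

def A022R_474 :
    ∃ t, chk3 (onCell 0 67108864 0 1073741824 587336777 62277027 (corW 3 c0B eng mog cA022R gB4q0 gB7q2 gB4q2 gB5q2 dB4q0 dB7q2 dB4q2 dB5q2 true false)) t 1 1 1 = true :=
  ⟨(T.l 1), by decide +kernel⟩

def A101E_000 :
    ∃ t, chk3 (onCell 0 67108864 0 1073741824 587336777 62277027 (corW 3 c0B eng mog cA101E gB0q1 gB0q0 gB0q1 gB1q1 dB0q1 dB0q0 dB0q1 dB1q1 true false)) t 1 1 1 = true :=
  ⟨(T.l 1), by decide +kernel⟩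

def A101E_010 :
    ∃ t, chk3 (onCell 0 67108864 0 1073741824 587336777 62277027 (corW 3 c0B eng mog cA101E gB0q1 gB1q0 gB0q1 gB1q1 dB0q1 dB1q0 dB0q1 dB1q1 true false)) t 1 1 1 = true :=
  ⟨(T.l 1), by decide +kernel⟩

def A101E_020 :
    ∃ t, chk3 (onCell 0 67108864 0 1073741824 587336777 62277027 (corW 3 c0B eng mog cA101E gB0q1 gB2q0 gB0q1 gB1q1 dB0q1 dB2q0 dB0q1 dB1q1 true false)) t 1 1 1 = true :=
  ⟨(T.l 1), by decide +kernel⟩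

def A101E_030 :
    ∃ t, chk3 (onCell 0 67108864 0 1073741824 587336777 62277027 (corW 3 c0B eng mog cA101E gB0q1 gB3q0 gB0q1 gB1q1 dB0q1 dB3q0 dB0q1 dB1q1 true false)) t 1 1 1 = true :=
  ⟨(T.l 1), by decide +kernel⟩

def A101E_040 :
    ∃ t, chk3 (onCell 0 67108864 0 1073741824 587336777 62277027 (corW 3 c0B eng mog cA101E gB0q1 gB4q0 gB0q1 gB1q1 dB0q1 dB4q0 dB0q1 dB1q1 true false)) t 1 1 1 = true :=
  ⟨(T.b (T.l 1) (T.l 1)), by decide +kernel⟩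

def A101R_004 :
    ∃ t, chk3 (onCell 0 67108864 0 1073741824 587336777 62277027 (corW 3 c0B eng mog cA101R gB0q1 gB0q0 gB4q1 gB5q1 dB0q1 dB0q0 dB4q1 dB5q1 false true)) t 1 1 1 = true :=
  ⟨(T.l 2), by decide +kernel⟩

def A101R_005 :
    ∃ t, chk3 (onCell 0 67108864 0 1073741824 587336777 62277027 (corW 3 c0B eng mog cA101R gB0q1 gB0q0 gB5q1 gB6q1 dB0q1 dB0q0 dB5q1 dB6q1 true true)) t 1 1 1 = true :=
  ⟨(T.l 2), by decide +kernel⟩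

def A101R_006 :
    ∃ t, chk3 (onCell 0 67108864 0 1073741824 587336777 62277027 (corW 3 c0B eng mog cA101R gB0q1 gB0q0 gB6q1 gB7q1 dB0q1 dB0q0 dB6q1 dB7q1 true true)) t 1 1 1 = true :=
  ⟨(T.l 2), by decide +kernel⟩

def A101R_014 :
    ∃ t, chk3 (onCell 0 67108864 0 1073741824 587336777 62277027 (corW 3 c0B eng mog cA101R gB0q1 gB1q0 gB4q1 gB5q1 dB0q1 dB1q0 dB4q1 dB5q1 false true)) t 1 1 1 = true :=
  ⟨(T.l 2), by decide +kernel⟩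

def A101R_015 :
    ∃ t, chk3 (onCell 0 67108864 0 1073741824 587336777 62277027 (corW 3 c0B eng mog cA101R gB0q1 gB1q0 gB5q1 gB6q1 dB0q1 dB1q0 dB5q1 dB6q1 true true)) t 1 1 1 = true :=
  ⟨(T.l 2), by decide +kernel⟩

def A101R_016 :
    ∃ t, chk3 (onCell 0 67108864 0 1073741824 587336777 62277027 (corW 3 c0B eng mog cA101R gB0q1 gB1q0 gB6q1 gB7q1 dB0q1 dB1q0 dB6q1 dB7q1 true true)) t 1 1 1 = true :=
  ⟨(T.l 2), by decide +kernel⟩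

def A101R_024 :
    ∃ t, chk3 (onCell 0 67108864 0 1073741824 587336777 62277027 (corW 3 c0B eng mog cA101R gB0q1 gB2q0 gB4q1 gB5q1 dB0q1 dB2q0 dB4q1 dB5q1 false true)) t 1 1 1 = true :=
  ⟨(T.l 2), by decide +kernel⟩

def A101R_025 :
    ∃ t, chk3 (onCell 0 67108864 0 1073741824 587336777 62277027 (corW 3 c0B eng mog cA101R gB0q1 gB2q0 gB5q1 gB6q1 dB0q1 dB2q0 dB5q1 dB6q1 true true)) t 1 1 1 = true :=
  ⟨(T.l 2), by decide +kernel⟩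

def A101R_026 :
    ∃ t, chk3 (onCell 0 67108864 0 1073741824 587336777 62277027 (corW 3 c0B eng mog cA101R gB0q1 gB2q0 gB6q1 gB7q1 dB0q1 dB2q0 dB6q1 dB7q1 true true)) t 1 1 1 = true :=
  ⟨(T.l 2), by decide +kernel⟩

def A101R_034 :
    ∃ t, chk3 (onCell 0 67108864 0 1073741824 587336777 62277027 (corW 3 c0B eng mog cA101R gB0q1 gB3q0 gB4q1 gB5q1 dB0q1 dB3q0 dB4q1 dB5q1 false true)) t 1 1 1 = true :=
  ⟨(T.l 2), by decide +kernel⟩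

def A101R_035 :
    ∃ t, chk3 (onCell 0 67108864 0 1073741824 587336777 62277027 (corW 3 c0B eng mog cA101R gB0q1 gB3q0 gB5q1 gB6q1 dB0q1 dB3q0 dB5q1 dB6q1 true true)) t 1 1 1 = true :=
  ⟨(T.l 2), by decide +kernel⟩

def A101R_036 :
    ∃ t, chk3 (onCell 0 67108864 0 1073741824 587336777 62277027 (corW 3 c0B eng mog cA101R gB0q1 gB3q0 gB6q1 gB7q1 dB0q1 dB3q0 dB6q1 dB7q1 true true)) t 1 1 1 = true :=
  ⟨(T.l 2), by decide +kernel⟩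

def A101R_044 :
    ∃ t, chk3 (onCell 0 67108864 0 1073741824 587336777 62277027 (corW 3 c0B eng mog cA101R gB0q1 gB4q0 gB4q1 gB5q1 dB0q1 dB4q0 dB4q1 dB5q1 false true)) t 1 1 1 = true :=
  ⟨(T.l 2), by decide +kernel⟩

def A101R_045 :
    ∃ t, chk3 (onCell 0 67108864 0 1073741824 587336777 62277027 (corW 3 c0B eng mog cA101R gB0q1 gB4q0 gB5q1 gB6q1 dB0q1 dB4q0 dB5q1 dB6q1 true true)) t 1 1 1 = true :=
  ⟨(T.l 2), by decide +kernel⟩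

def A101R_046 :
    ∃ t, chk3 (onCell 0 67108864 0 1073741824 587336777 62277027 (corW 3 c0B eng mog cA101R gB0q1 gB4q0 gB6q1 gB7q1 dB0q1 dB4q0 dB6q1 dB7q1 true true)) t 1 1 1 = true :=
  ⟨(T.l 2), by decide +kernel⟩

def A102E_000_1_2_1 :
    ∃ t, chk3 (onCell 0 67108864 0 1073741824 587336777 62277027 (corW 3 c0B eng mog cA102E gB0q1 gB0q0 gB0q2 gB1q2 dB0q1 dB0q0 dB0q2 dB1q2 true true)) t 1 2 1 = true :=
  ⟨(T.b (T.l 2) (T.b (T.l 2) (T.b (T.l 2) (T.b (T.l 2) (T.a (T.a (T.b (T.b (T.l 2) (T.a (T.c (T.c (T.l 0) (T.l 0)) (T.l 0)) (T.c (T.c (T.l 816) (T.l 816)) (T.l 816)))) (T.a (T.c (T.b (T.c (T.l 0) (T.l 0)) (T.a (T.c (T.l 0) (T.l 0)) (T.l 0))) (T.b (T.c (T.l 0) (T.l 0)) (T.a (T.c (T.l 0) (T.l 0)) (T.l 0)))) (T.c (T.b (T.c (T.l 0) (T.l 0)) (T.c (T.l 0) (T.l 0))) (T.b (T.l 0) (T.c (T.l 0) (T.l 0)))))) (T.b (T.l 2) (T.a (T.c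 (T.b (T.l 820) (T.l 0)) (T.c (T.l 0) (T.l 0))) (T.c (T.c (T.l 816) (T.l 816)) (T.c (T.l 816) (T.l 816)))))) (T.b (T.l 2) (T.a (T.a (T.c (T.c (T.l 816) (T.l 816)) (T.c (T.l 816) (T.l 816))) (T.c (T.c (T.l 816) (T.l 816)) (T.l 816))) (T.b (T.l 2) (T.b (T.l 2) (T.a (T.l 64) (T.a (T.l 0) (T.l 2)))))))))))), by decide +kernel⟩

def A102E_000_1_48_1 :
    ∃ t, chk3 (onCell 0 67108864 0 1073741824 587336777 62277027 (corW 3 c0B eng mog cA102E gB0q1 gB0q0 gB0q2 gB1q2 dB0q1 dB0q0 dB0q2 dB1q2 true true)) t 1 48 1 = true :=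
  ⟨(T.b (T.a (T.a (T.b (T.a (T.b (T.a (T.b (T.a (T.b (T.c (T.l 0) (T.l 0)) (T.l 1)) (T.c (T.l 0) (T.c (T.l 0) (T.l 0)))) (T.l 1)) (T.b (T.l 0) (T.b (T.a (T.a (T.l 1) (T.l 0)) (T.l 0)) (T.a (T.l 1) (T.a (T.l 1) (T.l 0)))))) (T.l 1)) (T.b (T.a (T.c (T.l 0) (T.l 0)) (T.l 0)) (T.b (T.a (T.a (T.l 1) (T.b (T.l 0) (T.l 1))) (T.c (T.l 0) (T.c (T.l 0) (T.l 0)))) (T.a (T.l 1) (T.a (T.l 1) (T.a (T.l 1) (T.b (T.l 0) (T.l 1)))))))) (T.l 1)) (T.a (T.b (T.a (T.b (T.l 0) (T.a (T.b (T.l 0) (T.b (T.l 0) (T.l 1))) (T.l 0))) (T.c (T.l 0) (T.l 0))) (T.a (T.l 1) (T.b (T.b (T.b (T.l 0) (T.a (T.l 1) (T.l 0))) (T.l 1)) (T.l 1)))) (T.b (T.c (T.l 0) (T.l 0)) (T.b (T.a (T.b (T.l 0) (T.a (T.l 1) (T.c (T.l 0) (T.l 0)))) (T.c (T.l 0) (T.l 0))) (T.a (T.l 1) (T.a (T.l 1) (T.a (T.l 1) (T.b (T.l 0) (T.l 1))))))))) (T.a (T.a (T.b (T.c (T.l 0) (T.l 0)) (T.b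 (T.l 0) (T.a (T.b (T.l 0) (T.l 1)) (T.c (T.l 0) (T.l 0))))) (T.c (T.c (T.l 0) (T.l 0)) (T.b (T.l 816) (T.l 0)))) (T.a (T.c (T.c (T.l 0) (T.l 0)) (T.c (T.l 0) (T.l 0))) (T.a (T.c (T.l 0) (T.l 0)) (T.b (T.c (T.l 0) (T.l 0)) (T.l 0)))))) (T.a (T.l 1) (T.b (T.a (T.a (T.l 1) (T.b (T.b (T.c (T.l 0) (T.a (T.l 0) (T.l 0))) (T.a (T.l 1) (T.a (T.l 1) (T.l 0)))) (T.l 1))) (T.a (T.b (T.c (T.l 0) (T.l 0)) (T.a (T.l 1) (T.b (T.l 0) (T.l 1)))) (T.a (T.c (T.l 0) (T.l 0)) (T.l 0)))) (T.a (T.l 1) (T.a (T.l 1) (T.a (T.l 1) (T.a (T.l 1) (T.b (T.b (T.l 0) (T.l 1)) (T.l 1))))))))), by decide +kernel⟩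

def A102E_000_1_49_1 :
    ∃ t, chk3 (onCell 0 67108864 0 1073741824 587336777 62277027 (corW 3 c0B eng mog cA102E gB0q1 gB0q0 gB0q2 gB1q2 dB0q1 dB0q0 dB0q2 dB1q2 true true)) t 1 49 1 = true :=
  ⟨(T.l 1), by decide +kernel⟩

def A102E_000_1_25_1 :
    ∃ t, chk3 (onCell 0 67108864 0 1073741824 587336777 62277027 (corW 3 c0B eng mog cA102E gB0q1 gB0q0 gB0q2 gB1q2 dB0q1 dB0q0 dB0q2 dB1q2 true true)) t 1 25 1 = true :=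
  ⟨(T.l 1), by decide +kernel⟩

def A102E_000_1_13_1 :
    ∃ t, chk3 (onCell 0 67108864 0 1073741824 587336777 62277027 (corW 3 c0B eng mog cA102E gB0q1 gB0q0 gB0q2 gB1q2 dB0q1 dB0q0 dB0q2 dB1q2 true true)) t 1 13 1 = true :=
  ⟨(T.l 1), by decide +kernel⟩

def A102E_000_1_7_1 :
    ∃ t, chk3 (onCell 0 67108864 0 1073741824 587336777 62277027 (corW 3 c0B eng mog cA102E gB0q1 gB0q0 gB0q2 gB1q2 dB0q1 dB0q0 dB0q2 dB1q2 true true)) t 1 7 1 = true :=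
  ⟨(T.l 1), by decide +kernel⟩

theorem A102E_000_1_24_1 :
    ∃ t, chk3 (onCell 0 67108864 0 1073741824 587336777 62277027 (corW 3 c0B eng mog cA102E gB0q1 gB0q0 gB0q2 gB1q2 dB0q1 dB0q0 dB0q2 dB1q2 true true)) t 1 24 1 = true :=
  ex3_b A102E_000_1_48_1 A102E_000_1_49_1
theorem A102E_000_1_12_1 :
    ∃ t, chk3 (onCell 0 67108864 0 1073741824 587336777 62277027 (corW 3 c0B eng mog cA102E gB0q1 gB0q0 gB0q2 gB1q2 dB0q1 dB0q0 dB0q2 dB1q2 true true)) t 1 12 1 = true :=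
  ex3_b A102E_000_1_24_1 A102E_000_1_25_1
theorem A102E_000_1_6_1 :
    ∃ t, chk3 (onCell 0 67108864 0 1073741824 587336777 62277027 (corW 3 c0B eng mog cA102E gB0q1 gB0q0 gB0q2 gB1q2 dB0q1 dB0q0 dB0q2 dB1q2 true true)) t 1 6 1 = true :=
  ex3_b A102E_000_1_12_1 A102E_000_1_13_1
theorem A102E_000_1_3_1 :
    ∃ t, chk3 (onCell 0 67108864 0 1073741824 587336777 62277027 (corW 3 c0B eng mog cA102E gB0q1 gB0q0 gB0q2 gB1q2 dB0q1 dB0q0 dB0q2 dB1q2 true true)) t 1 3 1 = true :=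
  ex3_b A102E_000_1_6_1 A102E_000_1_7_1
theorem A102E_000 :
    ∃ t, chk3 (onCell 0 67108864 0 1073741824 587336777 62277027 (corW 3 c0B eng mog cA102E gB0q1 gB0q0 gB0q2 gB1q2 dB0q1 dB0q0 dB0q2 dB1q2 true true)) t 1 1 1 = true :=
  ex3_b A102E_000_1_2_1 A102E_000_1_3_1

def A102E_001 :
    ∃ t, chk3 (onCell 0 67108864 0 1073741824 587336777 62277027 (corW 3 c0B eng mog cA102E gB0q1 gB0q0 gB1q2 gB2q2 dB0q1 dB0q0 dB1q2 dB2q2 true true)) t 1 1 1 = true :=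
  ⟨(T.b (T.b (T.l 2) (T.b (T.l 2) (T.a (T.b (T.b (T.l 2) (T.b (T.l 2) (T.a (T.c (T.a (T.l 204) (T.l 204)) (T.l 0)) (T.l 0)))) (T.b (T.a (T.c (T.a (T.b (T.l 204) (T.l 0)) (T.l 0)) (T.b (T.l 0) (T.a (T.l 0) (T.l 0)))) (T.c (T.l 0) (T.l 0))) (T.a (T.b (T.c (T.b (T.l 0) (T.a (T.c (T.l 0) (T.l 0)) (T.l 816))) (T.a (T.b (T.l 0) (T.c (T.l 0) (T.l 0))) (T.c (T.l 0) (T.l 0)))) (T.a (T.l 1) (T.a (T.l 1) (T.b (T.b (T.l 816) (T.l 1)) (T.l 1))))) (T.b (T.c (T.a (T.l 816) (T.l 816)) (T.a (T.l 816) (T.l 816))) (T.b (T.a (T.c (T.l 816) (T.l 816)) (T.c (T.l 816) (T.l 816))) (T.l 1)))))) (T.b (T.l 2) (T.a (T.b (T.c (T.l 0) (T.l 0)) (T.b (T.c (T.l 0) (T.l 0)) (T.c (T.a (T.l 880) (T.l 816)) (T.a (T.l 816) (T.l 816))))) (T.a (T.b (T.l 0) (T.c (T.l 0) (T.b (T.l 816) (T.l 816)))) (T.b (T.a (T.b (T.c (T.l 0) (T.l 0)) (T.l 20)) (T.b (T.l 4) (T.l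 0))) (T.a (T.c (T.l 0) (T.l 0)) (T.b (T.l 0) (T.b (T.l 0) (T.l 0))))))))))) (T.b (T.b (T.a (T.l 1) (T.b (T.a (T.l 1) (T.b (T.a (T.l 1) (T.b (T.b (T.a (T.l 0) (T.c (T.l 0) (T.l 0))) (T.l 1)) (T.l 1))) (T.l 1))) (T.l 1))) (T.l 1)) (T.l 1))), by decide +kernel⟩

def A102E_002 :
    ∃ t, chk3 (onCell 0 67108864 0 1073741824 587336777 62277027 (corW 3 c0B eng mog cA102E gB0q1 gB0q0 gB2q2 gB3q2 dB0q1 dB0q0 dB2q2 dB3q2 true true)) t 1 1 1 = true :=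
  ⟨(T.b (T.b (T.l 2) (T.b (T.b (T.l 2) (T.a (T.a (T.b (T.l 2) (T.l 204)) (T.l 204)) (T.l 2))) (T.b (T.a (T.a (T.b (T.c (T.l 204) (T.l 204)) (T.c (T.a (T.b (T.l 204) (T.l 204)) (T.l 204)) (T.l 0))) (T.b (T.l 204) (T.l 0))) (T.a (T.l 0) (T.a (T.b (T.a (T.c (T.l 0) (T.l 0)) (T.c (T.l 0) (T.l 0))) (T.a (T.l 0) (T.c (T.l 0) (T.l 0)))) (T.b (T.a (T.c (T.l 0) (T.l 0)) (T.c (T.l 0) (T.l 0))) (T.a (T.c (T.l 0) (T.l 0)) (T.l 0)))))) (T.b (T.b (T.a (T.a (T.l 1) (T.l 0)) (T.a (T.l 0) (T.a (T.l 0) (T.c (T.l 0) (T.l 0))))) (T.l 1)) (T.l 1))))) (T.l 1)), by decide +kernel⟩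

def A102E_003 :
    ∃ t, chk3 (onCell 0 67108864 0 1073741824 587336777 62277027 (corW 3 c0B eng mog cA102E gB0q1 gB0q0 gB3q2 gB4q2 dB0q1 dB0q0 dB3q2 dB4q2 true true)) t 1 1 1 = true :=
  ⟨(T.b (T.b (T.b (T.l 2) (T.a (T.b (T.b (T.l 2) (T.a (T.c (T.l 204) (T.l 204)) (T.l 204))) (T.a (T.c (T.l 204) (T.l 204)) (T.b (T.l 204) (T.l 204)))) (T.b (T.b (T.l 2) (T.b (T.l 2) (T.b (T.a (T.b (T.a (T.a (T.l 204) (T.l 220)) (T.a (T.l 204) (T.l 204))) (T.a (T.a (T.l 204) (T.l 204)) (T.a (T.l 204) (T.l 204)))) (T.b (T.l 2) (T.a (T.c (T.l 204) (T.l 204)) (T.c (T.l 204) (T.l 204))))) (T.a (T.a (T.a (T.l 204) (T.c (T.l 204) (T.l 204))) (T.a (T.l 204) (T.l 204))) (T.a (T.c (T.l 204) (T.l 204)) (T.c (T.l 204) (T.l 204))))))) (T.a (T.a (T.a (T.l 204) (T.b (T.a (T.l 204) (T.l 204)) (T.l 204))) (T.a (T.b (T.c (T.l 220) (T.l 204)) (T.c (T.l 204)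 (T.l 204))) (T.b (T.c (T.l 204) (T.l 204)) (T.c (T.l 204) (T.l 204))))) (T.a (T.a (T.b (T.c (T.l 204) (T.l 204)) (T.c (T.l 204) (T.l 204))) (T.b (T.c (T.l 204) (T.l 204)) (T.l 220))) (T.b (T.a (T.l 220) (T.l 220)) (T.a (T.l 204) (T.l 204)))))))) (T.b (T.a (T.b (T.a (T.b (T.l 204) (T.l 204)) (T.l 204)) (T.a (T.b (T.l 204) (T.l 204)) (T.l 204))) (T.a (T.a (T.b (T.l 204) (T.l 204)) (T.b (T.a (T.b (T.c (T.l 204) (T.l 204)) (T.l 204)) (T.b (T.c (T.l 204) (T.l 204)) (T.l 220))) (T.a (T.l 204) (T.b (T.l 204) (T.l 204))))) (T.b (T.a (T.a (T.b (T.l 204) (T.l 204)) (T.b (T.l 204) (T.l 204))) (T.b (T.a (T.l 204) (T.l 204)) (T.c (T.l 204) (T.l 204)))) (T.a (T.b (T.c (T.l 220) (T.l 0)) (T.c (T.l 0) (T.l 0))) (T.b (T.c (T.l 204) (T.l 204)) (T.c (T.l 0) (T.l 0))))))) (T.b (T.b (T.b (T.a (T.l 0) (T.a (T.l 204) (T.a (T.l 0) (T.l 0)))) (T.l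 1)) (T.l 1)) (T.l 1)))) (T.l 1)), by decide +kernel⟩

def A102E_004 :
    ∃ t, chk3 (onCell 0 67108864 0 1073741824 587336777 62277027 (corW 3 c0B eng mog cA102E gB0q1 gB0q0 gB4q2 gB5q2 dB0q1 dB0q0 dB4q2 dB5q2 true false)) t 1 1 1 = true :=
  ⟨(T.b (T.b (T.b (T.a (T.a (T.b (T.l 204) (T.b (T.l 204) (T.l 204))) (T.a (T.b (T.l 204) (T.l 204)) (T.b (T.a (T.l 204) (T.b (T.l 204) (T.l 204))) (T.l 204)))) (T.a (T.a (T.b (T.c (T.b (T.l 204) (T.l 204)) (T.l 204)) (T.c (T.b (T.l 204) (T.l 204)) (T.l 220))) (T.b (T.b (T.l 204) (T.l 204)) (T.b (T.l 204) (T.l 204)))) (T.b (T.a (T.b (T.l 204) (T.l 204)) (T.b (T.l 204) (T.l 204))) (T.a (T.b (T.l 204) (T.l 204)) (T.b (T.l 204) (T.l 204)))))) (T.b (T.a (T.c (T.a (T.l 204) (T.l 204)) (T.a (T.l 204) (T.l 204))) (T.a (T.a (T.a (T.l 204) (T.b (T.l 204) (T.l 204))) (T.b (T.l 204) (T.l 220)))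 (T.a (T.b (T.l 204) (T.l 204)) (T.b (T.l 204) (T.l 204))))) (T.l 1))) (T.l 1)) (T.l 1)), by decide +kernel⟩

def A102E_010 :
    ∃ t, chk3 (onCell 0 67108864 0 1073741824 587336777 62277027 (corW 3 c0B eng mog cA102E gB0q1 gB1q0 gB0q2 gB1q2 dB0q1 dB1q0 dB0q2 dB1q2 true true)) t 1 1 1 = true :=
  ⟨(T.b (T.b (T.l 2) (T.l 2)) (T.b (T.b (T.b (T.b (T.b (T.l 2) (T.a (T.a (T.l 0) (T.l 0)) (T.a (T.l 0) (T.l 2)))) (T.a (T.b (T.a (T.l 0) (T.l 204)) (T.a (T.l 1) (T.b (T.c (T.l 204) (T.l 204)) (T.l 1)))) (T.a (T.b (T.l 204) (T.b (T.l 204) (T.a (T.l 1) (T.l 1)))) (T.b (T.l 204) (T.a (T.l 204) (T.l 204)))))) (T.a (T.l 1) (T.l 1))) (T.l 1)) (T.l 1))), by decide +kernel⟩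

def A102E_011 :
    ∃ t, chk3 (onCell 0 67108864 0 1073741824 587336777 62277027 (corW 3 c0B eng mog cA102E gB0q1 gB1q0 gB1q2 gB2q2 dB0q1 dB1q0 dB1q2 dB2q2 true true)) t 1 1 1 = true :=
  ⟨(T.b (T.b (T.l 2) (T.b (T.l 2) (T.b (T.l 2) (T.a (T.l 0) (T.a (T.l 204) (T.a (T.l 204) (T.b (T.l 2) (T.l 0)))))))) (T.b (T.b (T.b (T.a (T.b (T.l 0) (T.l 1)) (T.a (T.b (T.l 204) (T.c (T.l 204) (T.l 204))) (T.b (T.a (T.l 204) (T.l 0)) (T.c (T.l 204) (T.l 0))))) (T.l 1)) (T.l 1)) (T.l 1))), by decide +kernel⟩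

def A102E_012 :
    ∃ t, chk3 (onCell 0 67108864 0 1073741824 587336777 62277027 (corW 3 c0B eng mog cA102E gB0q1 gB1q0 gB2q2 gB3q2 dB0q1 dB1q0 dB2q2 dB3q2 true true)) t 1 1 1 = true :=
  ⟨(T.b (T.b (T.l 2) (T.b (T.l 2) (T.a (T.l 0) (T.a (T.l 0) (T.b (T.b (T.l 2) (T.a (T.l 0) (T.l 0))) (T.a (T.l 204) (T.b (T.l 0) (T.l 0)))))))) (T.b (T.b (T.l 1) (T.l 1)) (T.l 1))), by decide +kernel⟩

def A102E_013 :
    ∃ t, chk3 (onCell 0 67108864 0 1073741824 587336777 62277027 (corW 3 c0B eng mog cA102E gB0q1 gB1q0 gB3q2 gB4q2 dB0q1 dB1q0 dB3q2 dB4q2 true true)) t 1 1 1 = true :=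
  ⟨(T.b (T.b (T.b (T.l 2) (T.a (T.l 204) (T.b (T.l 2) (T.b (T.l 2) (T.b (T.l 2) (T.a (T.a (T.l 204) (T.l 204)) (T.c (T.l 204) (T.l 204)))))))) (T.b (T.a (T.l 204) (T.a (T.a (T.l 204) (T.b (T.b (T.l 204) (T.l 204)) (T.l 0))) (T.b (T.a (T.l 204) (T.l 204)) (T.a (T.l 0) (T.l 0))))) (T.a (T.l 0) (T.a (T.l 0) (T.b (T.b (T.l 0) (T.l 0)) (T.l 1)))))) (T.l 1)), by decide +kernel⟩

def A102E_014 :
    ∃ t, chk3 (onCell 0 67108864 0 1073741824 587336777 62277027 (corW 3 c0B eng mog cA102E gB0q1 gB1q0 gB4q2 gB5q2 dB0q1 dB1q0 dB4q2 dB5q2 true false)) t 1 1 1 = true :=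
  ⟨(T.b (T.b (T.b (T.a (T.a (T.l 204) (T.a (T.l 204) (T.l 204))) (T.a (T.b (T.l 204) (T.l 204)) (T.b (T.l 204) (T.l 204)))) (T.a (T.l 204) (T.a (T.b (T.l 204) (T.l 204)) (T.b (T.l 204) (T.l 204))))) (T.b (T.l 1) (T.l 1))) (T.l 1)), by decide +kernel⟩

def A102E_020 :
    ∃ t, chk3 (onCell 0 67108864 0 1073741824 587336777 62277027 (corW 3 c0B eng mog cA102E gB0q1 gB2q0 gB0q2 gB1q2 dB0q1 dB2q0 dB0q2 dB1q2 true true)) t 1 1 1 = true :=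
  ⟨(T.b (T.l 2) (T.b (T.b (T.b (T.l 2) (T.b (T.l 2) (T.a (T.a (T.l 204) (T.l 204)) (T.a (T.l 204) (T.l 204))))) (T.b (T.b (T.b (T.a (T.a (T.l 204) (T.l 204)) (T.a (T.l 204) (T.l 204))) (T.l 1)) (T.l 1)) (T.l 1))) (T.l 1))), by decide +kernel⟩

def A102E_021 :
    ∃ t, chk3 (onCell 0 67108864 0 1073741824 587336777 62277027 (corW 3 c0B eng mog cA102E gB0q1 gB2q0 gB1q2 gB2q2 dB0q1 dB2q0 dB1q2 dB2q2 true true)) t 1 1 1 = true :=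
  ⟨(T.b (T.l 2) (T.b (T.b (T.b (T.l 2) (T.a (T.l 204) (T.a (T.l 204) (T.l 204)))) (T.a (T.l 1) (T.l 1))) (T.l 1))), by decide +kernel⟩

def A102E_022 :
    ∃ t, chk3 (onCell 0 67108864 0 1073741824 587336777 62277027 (corW 3 c0B eng mog cA102E gB0q1 gB2q0 gB2q2 gB3q2 dB0q1 dB2q0 dB2q2 dB3q2 true true)) t 1 1 1 = true :=
  ⟨(T.b (T.b (T.l 2) (T.l 2)) (T.b (T.b (T.b (T.a (T.l 204) (T.b (T.a (T.l 204) (T.l 0)) (T.l 204))) (T.a (T.l 204) (T.a (T.l 204) (T.l 204)))) (T.l 1)) (T.l 1))), by decide +kernel⟩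

def A102E_023 :
    ∃ t, chk3 (onCell 0 67108864 0 1073741824 587336777 62277027 (corW 3 c0B eng mog cA102E gB0q1 gB2q0 gB3q2 gB4q2 dB0q1 dB2q0 dB3q2 dB4q2 true true)) t 1 1 1 = true :=
  ⟨(T.b (T.b (T.l 2) (T.a (T.l 204) (T.b (T.b (T.l 2) (T.b (T.l 2) (T.a (T.l 204) (T.l 204)))) (T.a (T.l 204) (T.b (T.l 0) (T.l 0)))))) (T.b (T.b (T.a (T.l 204) (T.b (T.a (T.l 204) (T.l 0)) (T.l 1))) (T.l 1)) (T.l 1))), by decide +kernel⟩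

def A102E_024 :
    ∃ t, chk3 (onCell 0 67108864 0 1073741824 587336777 62277027 (corW 3 c0B eng mog cA102E gB0q1 gB2q0 gB4q2 gB5q2 dB0q1 dB2q0 dB4q2 dB5q2 true false)) t 1 1 1 = true :=
  ⟨(T.b (T.b (T.a (T.a (T.l 204) (T.a (T.l 204) (T.l 204))) (T.a (T.b (T.l 204) (T.l 204)) (T.b (T.l 204) (T.l 204)))) (T.a (T.l 204) (T.b (T.b (T.l 0) (T.l 0)) (T.l 1)))) (T.l 1)), by decide +kernel⟩

end Pool.Agent.Strip051.G.I5470_6050.Tab.CW
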