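import Pool.Agent.Strip051.G.I5470_6050.Gn
import Pool.Agent.Strip051.PB.Corns
import Pool.Agent.Strip051.PB.CornW

/-! # Certificates of the aligned corners (generated) -/

set_option linter.all false

namespace Pool.Agent.Strip051.G.I5470_6050.Tab.CG

open Pool.Agent.Strip051.PB

def A102E_032 :
    ∃ t, chk3 (onCell 0 67108864 0 1073741824 587336777 62277027 (corT true 1 c0B cA102E gB0q1 gB3q0 gB2q2 gB3q2 true true)) t 1 1 1 = true :=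
  ⟨(T.b (T.l 2) (T.b (T.b (T.l 2) (T.b (T.a (T.l 204) (T.a (T.l 204) (T.l 204))) (T.l 1))) (T.l 1))), by decide +kernel⟩

def A102E_033 :
    ∃ t, chk3 (onCell 0 67108864 0 1073741824 587336777 62277027 (corT true 1 c0B cA102E gB0q1 gB3q0 gB3q2 gB4q2 true true)) t 1 1 1 = true :=
  ⟨(T.b (T.b (T.l 2) (T.b (T.l 2) (T.a (T.l 2) (T.l 2)))) (T.b (T.b (T.a (T.l 204) (T.b (T.a (T.l 204) (T.l 204)) (T.l 204))) (T.b (T.a (T.l 204) (T.a (T.l 204) (T.l 204))) (T.l 1))) (T.l 1))), by decide +kernel⟩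

def A102E_034 :
    ∃ t, chk3 (onCell 0 67108864 0 1073741824 587336777 62277027 (corT true 1 c0B cA102E gB0q1 gB3q0 gB4q2 gB5q2 true false)) t 1 1 1 = true :=
  ⟨(T.b (T.b (T.a (T.a (T.l 204) (T.b (T.l 204) (T.l 204))) (T.a (T.l 204) (T.l 204))) (T.a (T.l 204) (T.a (T.b (T.l 204) (T.l 204)) (T.l 204)))) (T.b (T.b (T.a (T.l 204) (T.a (T.l 204) (T.b (T.l 204) (T.l 1)))) (T.l 1)) (T.l 1))), by decide +kernel⟩

def A102E_040 :
    ∃ t, chk3 (onCell 0 67108864 0 1073741824 587336777 62277027 (corT true 1 c0B cA102E gB0q1 gB4q0 gB0q2 gB1q2 true true)) t 1 1 1 = true :=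
  ⟨(T.b (T.l 2) (T.b (T.l 2) (T.b (T.l 2) (T.b (T.b (T.a (T.l 204) (T.a (T.c (T.l 204) (T.l 204)) (T.l 204))) (T.l 1)) (T.l 1))))), by decide +kernel⟩

def A102E_041 :
    ∃ t, chk3 (onCell 0 67108864 0 1073741824 587336777 62277027 (corT true 1 c0B cA102E gB0q1 gB4q0 gB1q2 gB2q2 true true)) t 1 1 1 = true :=
  ⟨(T.b (T.l 2) (T.b (T.l 2) (T.b (T.a (T.l 2) (T.l 2)) (T.b (T.b (T.a (T.l 204) (T.a (T.c (T.l 204) (T.l 204)) (T.l 204))) (T.l 1)) (T.l 1))))), by decide +kernel⟩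

def A102E_042 :
    ∃ t, chk3 (onCell 0 67108864 0 1073741824 587336777 62277027 (corT true 1 c0B cA102E gB0q1 gB4q0 gB2q2 gB3q2 true true)) t 1 1 1 = true :=
  ⟨(T.b (T.l 2) (T.b (T.l 2) (T.b (T.a (T.l 204) (T.b (T.l 2) (T.a (T.l 204) (T.l 204)))) (T.b (T.b (T.a (T.l 204) (T.a (T.c (T.l 204) (T.l 204)) (T.l 204))) (T.l 1)) (T.l 1))))), by decide +kernel⟩

def A102E_043 :
    ∃ t, chk3 (onCell 0 67108864 0 1073741824 587336777 62277027 (corT true 1 c0B cA102E gB0q1 gB4q0 gB3q2 gB4q2 true true)) t 1 1 1 = true :=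
  ⟨(T.b (T.l 2) (T.b (T.l 2) (T.b (T.a (T.l 204) (T.a (T.b (T.l 2) (T.l 204)) (T.b (T.l 2) (T.l 204)))) (T.b (T.a (T.l 1) (T.l 1)) (T.l 1))))), by decide +kernel⟩

def A102E_044 :
    ∃ t, chk3 (onCell 0 67108864 0 1073741824 587336777 62277027 (corT true 1 c0B cA102E gB0q1 gB4q0 gB4q2 gB5q2 true false)) t 1 1 1 = true :=
  ⟨(T.b (T.b (T.a (T.a (T.l 204) (T.l 204)) (T.b (T.l 204) (T.l 204))) (T.a (T.l 204) (T.b (T.l 204) (T.l 204)))) (T.b (T.a (T.l 204) (T.b (T.b (T.l 204) (T.l 204)) (T.a (T.l 204) (T.l 204)))) (T.b (T.a (T.l 204) (T.a (T.b (T.l 204) (T.l 204)) (T.b (T.l 204) (T.l 204)))) (T.l 1)))), by decide +kernel⟩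

def A102R_006 :
    ∃ t, chk3 (onCell 0 67108864 0 1073741824 587336777 62277027 (corT true 1 c0B cA102R gB0q1 gB0q0 gB6q2 gB7q2 false true)) t 1 1 1 = true :=
  ⟨(T.l 2), by decide +kernel⟩

def A102R_016 :
    ∃ t, chk3 (onCell 0 67108864 0 1073741824 587336777 62277027 (corT true 1 c0B cA102R gB0q1 gB1q0 gB6q2 gB7q2 false true)) t 1 1 1 = true :=
  ⟨(T.l 2), by decide +kernel⟩

def A102R_026 :
    ∃ t, chk3 (onCell 0 67108864 0 1073741824 587336777 62277027 (corT true 1 c0B cA102R gB0q1 gB2q0 gB6q2 gB7q2 false true)) t 1 1 1 = true :=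
  ⟨(T.l 2), by decide +kernel⟩

def A102R_036 :
    ∃ t, chk3 (onCell 0 67108864 0 1073741824 587336777 62277027 (corT true 1 c0B cA102R gB0q1 gB3q0 gB6q2 gB7q2 false true)) t 1 1 1 = true :=
  ⟨(T.l 2), by decide +kernel⟩

def A102R_046 :
    ∃ t, chk3 (onCell 0 67108864 0 1073741824 587336777 62277027 (corT true 1 c0B cA102R gB0q1 gB4q0 gB6q2 gB7q2 false true)) t 1 1 1 = true :=
  ⟨(T.l 2), by decide +kernel⟩

def A202E_000 :
    ∃ t, chk3 (onCell 0 67108864 0 1073741824 587336777 62277027 (corT true 1 c0B cA202E gB0q2 gB0q0 gB0q2 gB1q2 true true)) t 1 1 1 = true :=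
  ⟨(T.l 2), by decide +kernel⟩

def A202E_001 :
    ∃ t, chk3 (onCell 0 67108864 0 1073741824 587336777 62277027 (corT true 1 c0B cA202E gB0q2 gB0q0 gB1q2 gB2q2 true true)) t 1 1 1 = true :=
  ⟨(T.l 2), by decide +kernel⟩

def A202E_002 :
    ∃ t, chk3 (onCell 0 67108864 0 1073741824 587336777 62277027 (corT true 1 c0B cA202E gB0q2 gB0q0 gB2q2 gB3q2 true true)) t 1 1 1 = true :=
  ⟨(T.l 2), by decide +kernel⟩

def A202E_003 :
    ∃ t, chk3 (onCell 0 67108864 0 1073741824 587336777 62277027 (corT true 1 c0B cA202E gB0q2 gB0q0 gB3q2 gB4q2 true true)) t 1 1 1 = true :=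
  ⟨(T.b (T.l 2) (T.l 2)), by decide +kernel⟩

def A202E_004 :
    ∃ t, chk3 (onCell 0 67108864 0 1073741824 587336777 62277027 (corT true 1 c0B cA202E gB0q2 gB0q0 gB4q2 gB5q2 true false)) t 1 1 1 = true :=
  ⟨(T.b (T.b (T.a (T.a (T.l 204) (T.a (T.l 204) (T.b (T.l 204) (T.l 204)))) (T.a (T.a (T.b (T.l 204) (T.l 204)) (T.l 204)) (T.b (T.l 220) (T.l 0)))) (T.b (T.a (T.a (T.l 0) (T.l 0)) (T.b (T.l 0) (T.l 0))) (T.a (T.a (T.l 0) (T.l 0)) (T.a (T.l 0) (T.l 0))))) (T.b (T.b (T.a (T.a (T.l 816) (T.l 0)) (T.a (T.l 0) (T.b (T.l 0) (T.l 0)))) (T.a (T.a (T.l 816) (T.b (T.l 816) (T.l 880))) (T.a (T.a (T.l 816) (T.l 816)) (T.a (T.l 816) (T.l 816))))) (T.b (T.a (T.a (T.l 816) (T.c (T.l 816) (T.l 816))) (T.a (T.a (T.l 816) (T.b (T.l 816) (T.l 816))) (T.a (T.l 816) (T.l 816)))) (T.a (T.a (T.l 816) (T.a (T.l 816) (T.b (T.l 816) (T.l 816)))) (T.a (T.a (T.b (T.l 816) (T.l 816))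 (T.b (T.l 816) (T.l 816))) (T.a (T.l 816) (T.l 816))))))), by decide +kernel⟩

def A202E_010 :
    ∃ t, chk3 (onCell 0 67108864 0 1073741824 587336777 62277027 (corT true 1 c0B cA202E gB0q2 gB1q0 gB0q2 gB1q2 true true)) t 1 1 1 = true :=
  ⟨(T.l 2), by decide +kernel⟩

def A202E_011 :
    ∃ t, chk3 (onCell 0 67108864 0 1073741824 587336777 62277027 (corT true 1 c0B cA202E gB0q2 gB1q0 gB1q2 gB2q2 true true)) t 1 1 1 = true :=
  ⟨(T.l 2), by decide +kernel⟩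

def A202E_012 :
    ∃ t, chk3 (onCell 0 67108864 0 1073741824 587336777 62277027 (corT true 1 c0B cA202E gB0q2 gB1q0 gB2q2 gB3q2 true true)) t 1 1 1 = true :=
  ⟨(T.l 2), by decide +kernel⟩

def A202E_013 :
    ∃ t, chk3 (onCell 0 67108864 0 1073741824 587336777 62277027 (corT true 1 c0B cA202E gB0q2 gB1q0 gB3q2 gB4q2 true true)) t 1 1 1 = true :=
  ⟨(T.l 2), by decide +kernel⟩

def A202E_014 :
    ∃ t, chk3 (onCell 0 67108864 0 1073741824 587336777 62277027 (corT true 1 c0B cA202E gB0q2 gB1q0 gB4q2 gB5q2 true false)) t 1 1 1 = true :=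
  ⟨(T.b (T.b (T.a (T.a (T.l 204) (T.c (T.l 16) (T.l 0))) (T.a (T.l 0) (T.l 204))) (T.b (T.a (T.a (T.l 0) (T.l 0)) (T.l 0)) (T.a (T.a (T.l 0) (T.l 0)) (T.a (T.l 0) (T.l 0))))) (T.b (T.b (T.a (T.a (T.l 816) (T.l 0)) (T.a (T.l 0) (T.b (T.l 0) (T.l 0)))) (T.a (T.a (T.l 816) (T.l 816)) (T.a (T.b (T.l 0) (T.l 0)) (T.b (T.l 0) (T.l 816))))) (T.b (T.a (T.a (T.l 816) (T.c (T.l 816) (T.l 816))) (T.a (T.a (T.l 816) (T.l 816)) (T.a (T.l 816) (T.l 816)))) (T.a (T.a (T.l 816) (T.a (T.l 816) (T.b (T.l 816) (T.l 816)))) (T.a (T.a (T.b (T.l 816) (T.l 816)) (T.b (T.l 816) (T.l 816))) (T.a (T.l 816) (T.l 816))))))), by decide +kernel⟩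

def A202E_020 :
    ∃ t, chk3 (onCell 0 67108864 0 1073741824 587336777 62277027 (corT true 1 c0B cA202E gB0q2 gB2q0 gB0q2 gB1q2 true true)) t 1 1 1 = true :=
  ⟨(T.l 2), by decide +kernel⟩

def A202E_021 :
    ∃ t, chk3 (onCell 0 67108864 0 1073741824 587336777 62277027 (corT true 1 c0B cA202E gB0q2 gB2q0 gB1q2 gB2q2 true true)) t 1 1 1 = true :=
  ⟨(T.l 2), by decide +kernel⟩

def A202E_022 :
    ∃ t, chk3 (onCell 0 67108864 0 1073741824 587336777 62277027 (corT true 1 c0B cA202E gB0q2 gB2q0 gB2q2 gB3q2 true true)) t 1 1 1 = true :=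
  ⟨(T.l 2), by decide +kernel⟩

def A202E_023 :
    ∃ t, chk3 (onCell 0 67108864 0 1073741824 587336777 62277027 (corT true 1 c0B cA202E gB0q2 gB2q0 gB3q2 gB4q2 true true)) t 1 1 1 = true :=
  ⟨(T.l 2), by decide +kernel⟩

def A202E_024 :
    ∃ t, chk3 (onCell 0 67108864 0 1073741824 587336777 62277027 (corT true 1 c0B cA202E gB0q2 gB2q0 gB4q2 gB5q2 true false)) t 1 1 1 = true :=
  ⟨(T.b (T.b (T.a (T.a (T.l 204) (T.l 0)) (T.l 0)) (T.b (T.a (T.a (T.l 0) (T.l 0)) (T.l 0)) (T.a (T.a (T.l 0) (T.l 0)) (T.a (T.l 0) (T.l 0))))) (T.b (T.b (T.a (T.a (T.l 0) (T.l 0)) (T.a (T.l 0) (T.l 0))) (T.a (T.a (T.l 816) (T.l 0)) (T.a (T.b (T.l 0) (T.l 0)) (T.b (T.l 0) (T.l 0))))) (T.b (T.a (T.a (T.l 816) (T.l 816)) (T.a (T.a (T.l 816) (T.l 816)) (T.b (T.l 0) (T.l 816)))) (T.a (T.a (T.l 816) (T.a (T.l 816) (T.b (T.l 816) (T.l 816)))) (T.a (T.a (T.b (T.l 816) (T.l 816)) (T.b (T.l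 816) (T.l 816))) (T.a (T.l 816) (T.l 816))))))), by decide +kernel⟩

def A202E_030 :
    ∃ t, chk3 (onCell 0 67108864 0 1073741824 587336777 62277027 (corT true 1 c0B cA202E gB0q2 gB3q0 gB0q2 gB1q2 true true)) t 1 1 1 = true :=
  ⟨(T.l 2), by decide +kernel⟩

def A202E_031 :
    ∃ t, chk3 (onCell 0 67108864 0 1073741824 587336777 62277027 (corT true 1 c0B cA202E gB0q2 gB3q0 gB1q2 gB2q2 true true)) t 1 1 1 = true :=
  ⟨(T.l 2), by decide +kernel⟩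

def A202E_032 :
    ∃ t, chk3 (onCell 0 67108864 0 1073741824 587336777 62277027 (corT true 1 c0B cA202E gB0q2 gB3q0 gB2q2 gB3q2 true true)) t 1 1 1 = true :=
  ⟨(T.l 2), by decide +kernel⟩

def A202E_033 :
    ∃ t, chk3 (onCell 0 67108864 0 1073741824 587336777 62277027 (corT true 1 c0B cA202E gB0q2 gB3q0 gB3q2 gB4q2 true true)) t 1 1 1 = true :=
  ⟨(T.l 2), by decide +kernel⟩

def A202E_034 :
    ∃ t, chk3 (onCell 0 67108864 0 1073741824 587336777 62277027 (corT true 1 c0B cA202E gB0q2 gB3q0 gB4q2 gB5q2 true false)) t 1 1 1 = true :=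
  ⟨(T.b (T.b (T.a (T.a (T.l 204) (T.l 204)) (T.l 204)) (T.b (T.a (T.a (T.l 204) (T.l 0)) (T.l 0)) (T.a (T.a (T.l 0) (T.l 0)) (T.b (T.l 0) (T.l 0))))) (T.b (T.b (T.a (T.a (T.l 0) (T.l 0)) (T.a (T.l 0) (T.l 0))) (T.a (T.a (T.l 816) (T.l 0)) (T.a (T.l 0) (T.l 0)))) (T.b (T.a (T.a (T.l 816) (T.l 816)) (T.a (T.a (T.l 0) (T.l 0)) (T.b (T.l 0) (T.l 816)))) (T.a (T.a (T.l 816) (T.a (T.l 816) (T.b (T.l 816) (T.l 816)))) (T.a (T.a (T.b (T.l 816) (T.l 816)) (T.b (T.l 816) (T.l 816))) (T.a (T.l 816) (T.l 816))))))), by decide +kernel⟩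

def A202E_040 :
    ∃ t, chk3 (onCell 0 67108864 0 1073741824 587336777 62277027 (corT true 1 c0B cA202E gB0q2 gB4q0 gB0q2 gB1q2 true true)) t 1 1 1 = true :=
  ⟨(T.l 2), by decide +kernel⟩

def A202E_041 :
    ∃ t, chk3 (onCell 0 67108864 0 1073741824 587336777 62277027 (corT true 1 c0B cA202E gB0q2 gB4q0 gB1q2 gB2q2 true true)) t 1 1 1 = true :=
  ⟨(T.l 2), by decide +kernel⟩

def A202E_042 :
    ∃ t, chk3 (onCell 0 67108864 0 1073741824 587336777 62277027 (corT true 1 c0B cA202E gB0q2 gB4q0 gB2q2 gB3q2 true true)) t 1 1 1 = true :=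
  ⟨(T.l 2), by decide +kernel⟩

def A202E_043 :
    ∃ t, chk3 (onCell 0 67108864 0 1073741824 587336777 62277027 (corT true 1 c0B cA202E gB0q2 gB4q0 gB3q2 gB4q2 true true)) t 1 1 1 = true :=
  ⟨(T.l 2), by decide +kernel⟩

def A202E_044 :
    ∃ t, chk3 (onCell 0 67108864 0 1073741824 587336777 62277027 (corT true 1 c0B cA202E gB0q2 gB4q0 gB4q2 gB5q2 true false)) t 1 1 1 = true :=
  ⟨(T.b (T.b (T.a (T.a (T.l 204) (T.l 204)) (T.l 204)) (T.a (T.a (T.l 204) (T.l 0)) (T.b (T.l 204) (T.b (T.l 204) (T.l 0))))) (T.b (T.a (T.a (T.l 0) (T.l 0)) (T.a (T.b (T.l 0) (T.l 0)) (T.b (T.l 0) (T.l 0)))) (T.a (T.a (T.b (T.l 816) (T.l 816)) (T.a (T.l 816) (T.a (T.l 816) (T.b (T.l 816) (T.l 816))))) (T.a (T.b (T.b (T.l 0) (T.l 0)) (T.a (T.b (T.l 816) (T.l 816)) (T.b (T.l 816) (T.l 816)))) (T.b (T.b (T.l 0) (T.l 0)) (T.a (T.l 816) (T.l 816))))))), by decide +kernel⟩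

def A202E_110 :
    ∃ t, chk3 (onCell 0 67108864 0 1073741824 587336777 62277027 (corT true 1 c0B cA202E gB1q2 gB1q0 gB0q2 gB1q2 true true)) t 1 1 1 = true :=
  ⟨(T.l 2), by decide +kernel⟩

def A202E_111 :
    ∃ t, chk3 (onCell 0 67108864 0 1073741824 587336777 62277027 (corT true 1 c0B cA202E gB1q2 gB1q0 gB1q2 gB2q2 true true)) t 1 1 1 = true :=
  ⟨(T.l 2), by decide +kernel⟩

def A202E_112 :
    ∃ t, chk3 (onCell 0 67108864 0 1073741824 587336777 62277027 (corT true 1 c0B cA202E gB1q2 gB1q0 gB2q2 gB3q2 true true)) t 1 1 1 = true :=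
  ⟨(T.l 2), by decide +kernel⟩

def A202E_113 :
    ∃ t, chk3 (onCell 0 67108864 0 1073741824 587336777 62277027 (corT true 1 c0B cA202E gB1q2 gB1q0 gB3q2 gB4q2 true true)) t 1 1 1 = true :=
  ⟨(T.l 2), by decide +kernel⟩

def A202E_114 :
    ∃ t, chk3 (onCell 0 67108864 0 1073741824 587336777 62277027 (corT true 1 c0B cA202E gB1q2 gB1q0 gB4q2 gB5q2 true false)) t 1 1 1 = true :=
  ⟨(T.b (T.b (T.a (T.a (T.l 204) (T.c (T.l 0) (T.l 0))) (T.a (T.l 0) (T.l 204))) (T.b (T.a (T.a (T.l 0) (T.l 0)) (T.l 0)) (T.a (T.a (T.l 0) (T.l 0)) (T.a (T.l 0) (T.l 0))))) (T.b (T.a (T.a (T.l 816) (T.l 0)) (T.a (T.a (T.l 816) (T.b (T.l 816) (T.l 816))) (T.b (T.b (T.l 0) (T.l 0)) (T.b (T.l 0) (T.l 816))))) (T.a (T.a (T.l 816) (T.a (T.l 816) (T.b (T.l 816) (T.a (T.l 816) (T.l 816))))) (T.a (T.a (T.b (T.b (T.l 816) (T.l 816)) (T.b (T.l 816) (T.l 816))) (T.b (T.l 816) (T.b (T.l 816) (T.l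 816)))) (T.b (T.b (T.l 816) (T.l 816)) (T.a (T.l 816) (T.l 816))))))), by decide +kernel⟩

def A202E_120 :
    ∃ t, chk3 (onCell 0 67108864 0 1073741824 587336777 62277027 (corT true 1 c0B cA202E gB1q2 gB2q0 gB0q2 gB1q2 true true)) t 1 1 1 = true :=
  ⟨(T.l 2), by decide +kernel⟩

def A202E_121 :
    ∃ t, chk3 (onCell 0 67108864 0 1073741824 587336777 62277027 (corT true 1 c0B cA202E gB1q2 gB2q0 gB1q2 gB2q2 true true)) t 1 1 1 = true :=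
  ⟨(T.l 2), by decide +kernel⟩

def A202E_122 :
    ∃ t, chk3 (onCell 0 67108864 0 1073741824 587336777 62277027 (corT true 1 c0B cA202E gB1q2 gB2q0 gB2q2 gB3q2 true true)) t 1 1 1 = true :=
  ⟨(T.l 2), by decide +kernel⟩

def A202E_123 :
    ∃ t, chk3 (onCell 0 67108864 0 1073741824 587336777 62277027 (corT true 1 c0B cA202E gB1q2 gB2q0 gB3q2 gB4q2 true true)) t 1 1 1 = true :=
  ⟨(T.l 2), by decide +kernel⟩

def A202E_124 :
    ∃ t, chk3 (onCell 0 67108864 0 1073741824 587336777 62277027 (corT true 1 c0B cA202E gB1q2 gB2q0 gB4q2 gB5q2 true false)) t 1 1 1 = true :=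
  ⟨(T.b (T.b (T.a (T.a (T.l 204) (T.l 0)) (T.l 0)) (T.b (T.a (T.a (T.l 0) (T.l 0)) (T.l 0)) (T.a (T.a (T.l 0) (T.l 0)) (T.a (T.l 0) (T.l 0))))) (T.b (T.a (T.a (T.l 0) (T.l 0)) (T.a (T.a (T.l 0) (T.b (T.l 0) (T.l 0))) (T.b (T.l 0) (T.l 0)))) (T.a (T.a (T.l 816) (T.a (T.l 816) (T.b (T.l 816) (T.a (T.l 816) (T.l 816))))) (T.a (T.a (T.b (T.l 816) (T.b (T.l 816) (T.l 816))) (T.b (T.l 816) (T.b (T.l 816) (T.l 816)))) (T.b (T.b (T.l 816) (T.l 816)) (T.a (T.l 816) (T.l 816))))))), by decide +kernel⟩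

def A202E_130 :
    ∃ t, chk3 (onCell 0 67108864 0 1073741824 587336777 62277027 (corT true 1 c0B cA202E gB1q2 gB3q0 gB0q2 gB1q2 true true)) t 1 1 1 = true :=
  ⟨(T.l 2), by decide +kernel⟩

def A202E_131 :
    ∃ t, chk3 (onCell 0 67108864 0 1073741824 587336777 62277027 (corT true 1 c0B cA202E gB1q2 gB3q0 gB1q2 gB2q2 true true)) t 1 1 1 = true :=
  ⟨(T.l 2), by decide +kernel⟩

def A202E_132 :
    ∃ t, chk3 (onCell 0 67108864 0 1073741824 587336777 62277027 (corT true 1 c0B cA202E gB1q2 gB3q0 gB2q2 gB3q2 true true)) t 1 1 1 = true :=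
  ⟨(T.l 2), by decide +kernel⟩

def A202E_133 :
    ∃ t, chk3 (onCell 0 67108864 0 1073741824 587336777 62277027 (corT true 1 c0B cA202E gB1q2 gB3q0 gB3q2 gB4q2 true true)) t 1 1 1 = true :=
  ⟨(T.l 2), by decide +kernel⟩

def A202E_134 :
    ∃ t, chk3 (onCell 0 67108864 0 1073741824 587336777 62277027 (corT true 1 c0B cA202E gB1q2 gB3q0 gB4q2 gB5q2 true false)) t 1 1 1 = true :=
  ⟨(T.b (T.b (T.a (T.a (T.l 204) (T.l 204)) (T.l 204)) (T.b (T.a (T.a (T.l 204) (T.l 0)) (T.l 0)) (T.a (T.a (T.l 0) (T.l 0)) (T.b (T.l 0) (T.l 0))))) (T.b (T.a (T.a (T.l 0) (T.l 0)) (T.a (T.a (T.l 0) (T.b (T.l 0) (T.l 0))) (T.b (T.l 0) (T.l 0)))) (T.a (T.a (T.l 816) (T.a (T.l 816) (T.b (T.l 816) (T.a (T.l 816) (T.l 816))))) (T.a (T.b (T.a (T.l 816) (T.l 816)) (T.a (T.b (T.l 816) (T.l 816)) (T.b (T.l 816) (T.l 816)))) (T.b (T.l 0) (T.a (T.l 816) (T.l 816))))))), by decide +kernel⟩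

def A202E_140 :
    ∃ t, chk3 (onCell 0 67108864 0 1073741824 587336777 62277027 (corT true 1 c0B cA202E gB1q2 gB4q0 gB0q2 gB1q2 true true)) t 1 1 1 = true :=
  ⟨(T.l 2), by decide +kernel⟩

def A202E_141 :
    ∃ t, chk3 (onCell 0 67108864 0 1073741824 587336777 62277027 (corT true 1 c0B cA202E gB1q2 gB4q0 gB1q2 gB2q2 true true)) t 1 1 1 = true :=
  ⟨(T.l 2), by decide +kernel⟩

def A202E_142 :
    ∃ t, chk3 (onCell 0 67108864 0 1073741824 587336777 62277027 (corT true 1 c0B cA202E gB1q2 gB4q0 gB2q2 gB3q2 true true)) t 1 1 1 = true :=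
  ⟨(T.l 2), by decide +kernel⟩

def A202E_143 :
    ∃ t, chk3 (onCell 0 67108864 0 1073741824 587336777 62277027 (corT true 1 c0B cA202E gB1q2 gB4q0 gB3q2 gB4q2 true true)) t 1 1 1 = true :=
  ⟨(T.l 2), by decide +kernel⟩

def A202E_144 :
    ∃ t, chk3 (onCell 0 67108864 0 1073741824 587336777 62277027 (corT true 1 c0B cA202E gB1q2 gB4q0 gB4q2 gB5q2 true false)) t 1 1 1 = true :=
  ⟨(T.b (T.b (T.a (T.a (T.l 204) (T.l 204)) (T.l 204)) (T.b (T.a (T.a (T.l 204) (T.l 204)) (T.l 204)) (T.a (T.a (T.l 204) (T.l 0)) (T.b (T.l 204) (T.l 0))))) (T.b (T.a (T.a (T.l 0) (T.l 0)) (T.a (T.b (T.l 0) (T.l 0)) (T.b (T.l 0) (T.l 0)))) (T.a (T.a (T.l 816) (T.a (T.l 816) (T.b (T.l 816) (T.a (T.l 816) (T.l 816))))) (T.a (T.b (T.b (T.l 0) (T.l 0)) (T.a (T.b (T.l 816) (T.l 816)) (T.b (T.l 816) (T.l 816)))) (T.b (T.l 0) (T.a (T.l 816) (T.l 816))))))), by decide +kernel⟩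

def A202E_220 :
    ∃ t, chk3 (onCell 0 67108864 0 1073741824 587336777 62277027 (corT true 1 c0B cA202E gB2q2 gB2q0 gB0q2 gB1q2 true true)) t 1 1 1 = true :=
  ⟨(T.l 2), by decide +kernel⟩

def A202E_221 :
    ∃ t, chk3 (onCell 0 67108864 0 1073741824 587336777 62277027 (corT true 1 c0B cA202E gB2q2 gB2q0 gB1q2 gB2q2 true true)) t 1 1 1 = true :=
  ⟨(T.l 2), by decide +kernel⟩

def A202E_222 :
    ∃ t, chk3 (onCell 0 67108864 0 1073741824 587336777 62277027 (corT true 1 c0B cA202E gB2q2 gB2q0 gB2q2 gB3q2 true true)) t 1 1 1 = true :=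
  ⟨(T.l 2), by decide +kernel⟩

def A202E_223 :
    ∃ t, chk3 (onCell 0 67108864 0 1073741824 587336777 62277027 (corT true 1 c0B cA202E gB2q2 gB2q0 gB3q2 gB4q2 true true)) t 1 1 1 = true :=
  ⟨(T.l 2), by decide +kernel⟩

def A202E_224 :
    ∃ t, chk3 (onCell 0 67108864 0 1073741824 587336777 62277027 (corT true 1 c0B cA202E gB2q2 gB2q0 gB4q2 gB5q2 true false)) t 1 1 1 = true :=
  ⟨(T.b (T.b (T.a (T.a (T.l 204) (T.l 0)) (T.l 0)) (T.b (T.a (T.a (T.l 0) (T.l 0)) (T.l 0)) (T.a (T.a (T.l 0) (T.l 0)) (T.a (T.l 0) (T.l 0))))) (T.b (T.a (T.a (T.l 0) (T.l 0)) (T.a (T.a (T.l 0) (T.l 64)) (T.b (T.l 0) (T.l 0)))) (T.a (T.a (T.l 816) (T.a (T.l 816) (T.a (T.l 816) (T.b (T.l 816) (T.l 816))))) (T.a (T.a (T.b (T.l 816) (T.b (T.l 816) (T.l 816))) (T.b (T.l 816) (T.l 816))) (T.b (T.l 816) (T.a (T.l 816) (T.l 816))))))), by decide +kernel⟩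

def A202E_230 :
    ∃ t, chk3 (onCell 0 67108864 0 1073741824 587336777 62277027 (corT true 1 c0B cA202E gB2q2 gB3q0 gB0q2 gB1q2 true true)) t 1 1 1 = true :=
  ⟨(T.l 2), by decide +kernel⟩

def A202E_231 :
    ∃ t, chk3 (onCell 0 67108864 0 1073741824 587336777 62277027 (corT true 1 c0B cA202E gB2q2 gB3q0 gB1q2 gB2q2 true true)) t 1 1 1 = true :=
  ⟨(T.l 2), by decide +kernel⟩

def A202E_232 :
    ∃ t, chk3 (onCell 0 67108864 0 1073741824 587336777 62277027 (corT true 1 c0B cA202E gB2q2 gB3q0 gB2q2 gB3q2 true true)) t 1 1 1 = true :=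
  ⟨(T.l 2), by decide +kernel⟩

def A202E_233 :
    ∃ t, chk3 (onCell 0 67108864 0 1073741824 587336777 62277027 (corT true 1 c0B cA202E gB2q2 gB3q0 gB3q2 gB4q2 true true)) t 1 1 1 = true :=
  ⟨(T.l 2), by decide +kernel⟩

def A202E_234 :
    ∃ t, chk3 (onCell 0 67108864 0 1073741824 587336777 62277027 (corT true 1 c0B cA202E gB2q2 gB3q0 gB4q2 gB5q2 true false)) t 1 1 1 = true :=
  ⟨(T.b (T.b (T.a (T.a (T.l 204) (T.l 204)) (T.l 204)) (T.b (T.a (T.a (T.l 204) (T.l 0)) (T.l 0)) (T.a (T.a (T.l 0) (T.l 0)) (T.b (T.l 0) (T.l 0))))) (T.b (T.a (T.a (T.l 0) (T.l 0)) (T.a (T.b (T.l 0) (T.l 0)) (T.b (T.l 0) (T.l 0)))) (T.a (T.a (T.l 816) (T.a (T.l 816) (T.a (T.l 816) (T.b (T.l 816) (T.l 816))))) (T.a (T.b (T.b (T.l 816) (T.l 816)) (T.a (T.b (T.l 816) (T.l 816)) (T.l 816))) (T.b (T.l 0) (T.a (T.l 816) (T.l 816))))))), by decide +kernel⟩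

def A202E_240 :
    ∃ t, chk3 (onCell 0 67108864 0 1073741824 587336777 62277027 (corT true 1 c0B cA202E gB2q2 gB4q0 gB0q2 gB1q2 true true)) t 1 1 1 = true :=
  ⟨(T.l 2), by decide +kernel⟩

def A202E_241 :
    ∃ t, chk3 (onCell 0 67108864 0 1073741824 587336777 62277027 (corT true 1 c0B cA202E gB2q2 gB4q0 gB1q2 gB2q2 true true)) t 1 1 1 = true :=
  ⟨(T.l 2), by decide +kernel⟩

def A202E_242 :
    ∃ t, chk3 (onCell 0 67108864 0 1073741824 587336777 62277027 (corT true 1 c0B cA202E gB2q2 gB4q0 gB2q2 gB3q2 true true)) t 1 1 1 = true :=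
  ⟨(T.l 2), by decide +kernel⟩

def A202E_243 :
    ∃ t, chk3 (onCell 0 67108864 0 1073741824 587336777 62277027 (corT true 1 c0B cA202E gB2q2 gB4q0 gB3q2 gB4q2 true true)) t 1 1 1 = true :=
  ⟨(T.l 2), by decide +kernel⟩

def A202E_244 :
    ∃ t, chk3 (onCell 0 67108864 0 1073741824 587336777 62277027 (corT true 1 c0B cA202E gB2q2 gB4q0 gB4q2 gB5q2 true false)) t 1 1 1 = true :=
  ⟨(T.b (T.b (T.a (T.a (T.l 204) (T.l 204)) (T.l 204)) (T.a (T.a (T.l 204) (T.l 0)) (T.a (T.l 204) (T.b (T.l 204) (T.l 0))))) (T.a (T.a (T.l 0) (T.b (T.l 0) (T.a (T.l 816) (T.b (T.l 816) (T.b (T.l 816) (T.l 816)))))) (T.b (T.a (T.b (T.l 0) (T.l 0)) (T.l 0)) (T.a (T.b (T.l 0) (T.a (T.b (T.l 816) (T.l 816)) (T.l 816))) (T.b (T.l 0) (T.a (T.l 816) (T.l 816))))))), by decide +kernel⟩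

def A202E_330 :
    ∃ t, chk3 (onCell 0 67108864 0 1073741824 587336777 62277027 (corT true 1 c0B cA202E gB3q2 gB3q0 gB0q2 gB1q2 true true)) t 1 1 1 = true :=
  ⟨(T.l 2), by decide +kernel⟩

def A202E_331 :
    ∃ t, chk3 (onCell 0 67108864 0 1073741824 587336777 62277027 (corT true 1 c0B cA202E gB3q2 gB3q0 gB1q2 gB2q2 true true)) t 1 1 1 = true :=
  ⟨(T.l 2), by decide +kernel⟩

def A202E_332 :
    ∃ t, chk3 (onCell 0 67108864 0 1073741824 587336777 62277027 (corT true 1 c0B cA202E gB3q2 gB3q0 gB2q2 gB3q2 true true)) t 1 1 1 = true :=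
  ⟨(T.l 2), by decide +kernel⟩

def A202E_333 :
    ∃ t, chk3 (onCell 0 67108864 0 1073741824 587336777 62277027 (corT true 1 c0B cA202E gB3q2 gB3q0 gB3q2 gB4q2 true true)) t 1 1 1 = true :=
  ⟨(T.l 2), by decide +kernel⟩

def A202E_334 :
    ∃ t, chk3 (onCell 0 67108864 0 1073741824 587336777 62277027 (corT true 1 c0B cA202E gB3q2 gB3q0 gB4q2 gB5q2 true false)) t 1 1 1 = true :=
  ⟨(T.b (T.b (T.a (T.a (T.l 204) (T.l 204)) (T.l 204)) (T.b (T.a (T.a (T.l 204) (T.l 0)) (T.l 0)) (T.a (T.a (T.l 0) (T.l 0)) (T.b (T.l 0) (T.l 0))))) (T.b (T.a (T.a (T.l 0) (T.l 0)) (T.a (T.b (T.l 0) (T.l 0)) (T.b (T.l 0) (T.l 0)))) (T.a (T.a (T.l 816) (T.a (T.l 816) (T.a (T.l 816) (T.b (T.l 816) (T.l 816))))) (T.a (T.b (T.b (T.l 816) (T.l 816)) (T.a (T.b (T.l 816) (T.l 816)) (T.l 816))) (T.b (T.l 816) (T.a (T.l 816) (T.l 816))))))), by decide +kernel⟩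

def A202E_340 :
    ∃ t, chk3 (onCell 0 67108864 0 1073741824 587336777 62277027 (corT true 1 c0B cA202E gB3q2 gB4q0 gB0q2 gB1q2 true true)) t 1 1 1 = true :=
  ⟨(T.l 2), by decide +kernel⟩

def A202E_341 :
    ∃ t, chk3 (onCell 0 67108864 0 1073741824 587336777 62277027 (corT true 1 c0B cA202E gB3q2 gB4q0 gB1q2 gB2q2 true true)) t 1 1 1 = true :=
  ⟨(T.l 2), by decide +kernel⟩

def A202E_342 :
    ∃ t, chk3 (onCell 0 67108864 0 1073741824 587336777 62277027 (corT true 1 c0B cA202E gB3q2 gB4q0 gB2q2 gB3q2 true true)) t 1 1 1 = true :=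
  ⟨(T.l 2), by decide +kernel⟩

def A202E_343 :
    ∃ t, chk3 (onCell 0 67108864 0 1073741824 587336777 62277027 (corT true 1 c0B cA202E gB3q2 gB4q0 gB3q2 gB4q2 true true)) t 1 1 1 = true :=
  ⟨(T.l 2), by decide +kernel⟩

def A202E_344 :
    ∃ t, chk3 (onCell 0 67108864 0 1073741824 587336777 62277027 (corT true 1 c0B cA202E gB3q2 gB4q0 gB4q2 gB5q2 true false)) t 1 1 1 = true :=
  ⟨(T.b (T.b (T.a (T.a (T.l 204) (T.l 204)) (T.l 204)) (T.a (T.a (T.l 204) (T.l 0)) (T.b (T.l 204) (T.l 0)))) (T.a (T.a (T.l 0) (T.b (T.l 0) (T.a (T.l 816) (T.b (T.l 816) (T.b (T.l 816) (T.l 816)))))) (T.b (T.a (T.b (T.l 0) (T.l 0)) (T.l 0)) (T.a (T.b (T.l 0) (T.a (T.b (T.l 816) (T.l 816)) (T.l 816))) (T.b (T.l 0) (T.a (T.l 816) (T.l 816))))))), by decide +kernel⟩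

def A202E_440 :
    ∃ t, chk3 (onCell 0 67108864 0 1073741824 587336777 62277027 (corT true 1 c0B cA202E gB4q2 gB4q0 gB0q2 gB1q2 true true)) t 1 1 1 = true :=
  ⟨(T.l 2), by decide +kernel⟩

def A202E_441 :
    ∃ t, chk3 (onCell 0 67108864 0 1073741824 587336777 62277027 (corT true 1 c0B cA202E gB4q2 gB4q0 gB1q2 gB2q2 true true)) t 1 1 1 = true :=
  ⟨(T.l 2), by decide +kernel⟩

def A202E_442 :
    ∃ t, chk3 (onCell 0 67108864 0 1073741824 587336777 62277027 (corT true 1 c0B cA202E gB4q2 gB4q0 gB2q2 gB3q2 true true)) t 1 1 1 = true :=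
  ⟨(T.l 2), by decide +kernel⟩

def A202E_443 :
    ∃ t, chk3 (onCell 0 67108864 0 1073741824 587336777 62277027 (corT true 1 c0B cA202E gB4q2 gB4q0 gB3q2 gB4q2 true true)) t 1 1 1 = true :=
  ⟨(T.l 2), by decide +kernel⟩

def A202E_444 :
    ∃ t, chk3 (onCell 0 67108864 0 1073741824 587336777 62277027 (corT true 1 c0B cA202E gB4q2 gB4q0 gB4q2 gB5q2 true false)) t 1 1 1 = true :=
  ⟨(T.b (T.b (T.a (T.a (T.l 204) (T.l 204)) (T.l 204)) (T.a (T.a (T.l 204) (T.l 0)) (T.b (T.l 204) (T.l 0)))) (T.b (T.a (T.a (T.l 0) (T.l 0)) (T.a (T.l 0) (T.l 0))) (T.a (T.a (T.l 816) (T.a (T.l 816) (T.b (T.l 816) (T.l 816)))) (T.a (T.b (T.l 0) (T.a (T.l 816) (T.l 816))) (T.b (T.l 0) (T.b (T.l 816) (T.l 816))))))), by decide +kernel⟩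

def A202R_006 :
    ∃ t, chk3 (onCell 0 67108864 0 1073741824 587336777 62277027 (corX 1 c0B cA202R tA202R gB0q2 gB0q0 gB6q2 gB7q2 gB7q2 false true)) t 1 1 1 = true :=
  ⟨(T.b (T.b (T.l 2) (T.a (T.a (T.b (T.l 819) (T.l 819)) (T.b (T.l 819) (T.l 819))) (T.a (T.b (T.l 819) (T.l 819)) (T.b (T.l 819) (T.b (T.l 819) (T.a (T.l 819) (T.b (T.l 819) (T.l 816)))))))) (T.b (T.a (T.a (T.a (T.l 819) (T.l 819)) (T.a (T.l 819) (T.l 819))) (T.a (T.b (T.l 883) (T.a (T.l 819) (T.b (T.l 816) (T.l 816)))) (T.b (T.b (T.a (T.l 819) (T.l 880)) (T.a (T.l 816) (T.b (T.l 816) (T.l 816)))) (T.a (T.b (T.b (T.l 816) (T.l 816)) (T.b (T.l 816) (T.l 816))) (T.b (T.b (T.l 816) (T.l 816)) (T.l 816)))))) (T.b (T.a (T.a (T.b (T.l 819) (T.l 819)) (T.b (T.l 819) (T.l 819))) (T.a (T.a (T.b (T.l 816) (T.l 816)) (T.b (T.b (T.l 816) (T.l 816)) (T.b (T.l 816) (T.l 816)))) (T.a (T.b (T.b (T.l 816) (T.l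 816)) (T.l 816)) (T.b (T.l 816) (T.l 816))))) (T.a (T.a (T.l 816) (T.a (T.l 819) (T.b (T.l 819) (T.l 816)))) (T.a (T.a (T.a (T.l 816) (T.b (T.l 816) (T.l 816))) (T.a (T.b (T.l 816) (T.l 816)) (T.l 816))) (T.a (T.b (T.l 816) (T.l 816)) (T.b (T.l 816) (T.l 816)))))))), by decide +kernel⟩

def A202R_016 :
    ∃ t, chk3 (onCell 0 67108864 0 1073741824 587336777 62277027 (corT true 1 c0B cA202R gB0q2 gB1q0 gB6q2 gB7q2 false true)) t 1 1 1 = true :=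
  ⟨(T.b (T.b (T.l 2) (T.b (T.b (T.l 2) (T.b (T.l 2) (T.a (T.l 2) (T.l 204)))) (T.a (T.l 0) (T.a (T.l 0) (T.b (T.l 0) (T.l 0)))))) (T.b (T.a (T.b (T.l 816) (T.l 816)) (T.a (T.b (T.l 816) (T.a (T.l 816) (T.l 816))) (T.b (T.a (T.l 0) (T.b (T.l 816) (T.l 816))) (T.a (T.b (T.l 816) (T.l 816)) (T.b (T.l 816) (T.l 816)))))) (T.b (T.a (T.b (T.l 816) (T.l 816)) (T.a (T.a (T.b (T.l 816) (T.l 816)) (T.b (T.l 816) (T.l 816))) (T.a (T.b (T.l 816) (T.l 816)) (T.b (T.l 816) (T.l 816))))) (T.a (T.a (T.l 816) (T.a (T.l 816) (T.b (T.l 816) (T.l 816)))) (T.a (T.a (T.a (T.l 816) (T.b (T.l 816) (T.l 816))) (T.a (T.l 816) (T.l 816))) (T.a (T.b (T.l 816) (T.l 816)) (T.b (T.l 816) (T.l 816)))))))), by decide +kernel⟩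

def A202R_026 :
    ∃ t, chk3 (onCell 0 67108864 0 1073741824 587336777 62277027 (corT true 1 c0B cA202R gB0q2 gB2q0 gB6q2 gB7q2 false true)) t 1 1 1 = true :=
  ⟨(T.b (T.b (T.l 2) (T.b (T.l 2) (T.a (T.l 0) (T.a (T.l 0) (T.b (T.l 2) (T.l 0)))))) (T.b (T.a (T.l 0) (T.a (T.b (T.l 0) (T.b (T.l 0) (T.l 0))) (T.b (T.b (T.l 0) (T.l 0)) (T.b (T.l 0) (T.l 0))))) (T.b (T.a (T.l 816) (T.a (T.a (T.l 816) (T.b (T.l 816) (T.l 816))) (T.a (T.b (T.l 816) (T.l 816)) (T.l 816)))) (T.a (T.a (T.l 816) (T.a (T.l 816) (T.b (T.l 816) (T.l 816)))) (T.a (T.a (T.a (T.l 816) (T.b (T.l 816) (T.l 816))) (T.a (T.l 880) (T.l 816))) (T.a (T.b (T.l 816) (T.l 816)) (T.b (T.l 816) (T.l 816)))))))), by decide +kernel⟩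

def A202R_036 :
    ∃ t, chk3 (onCell 0 67108864 0 1073741824 587336777 62277027 (corT true 1 c0B cA202R gB0q2 gB3q0 gB6q2 gB7q2 false true)) t 1 1 1 = true :=
  ⟨(T.b (T.b (T.l 2) (T.b (T.l 2) (T.l 2))) (T.b (T.a (T.l 0) (T.a (T.b (T.l 0) (T.l 0)) (T.b (T.b (T.l 0) (T.l 0)) (T.b (T.l 0) (T.l 0))))) (T.b (T.a (T.l 816) (T.a (T.a (T.l 816) (T.l 816)) (T.b (T.l 0) (T.l 816)))) (T.a (T.a (T.l 816) (T.a (T.l 816) (T.b (T.l 816) (T.l 816)))) (T.a (T.a (T.a (T.l 816) (T.b (T.l 816) (T.l 816))) (T.a (T.b (T.l 816) (T.l 816)) (T.l 816))) (T.a (T.b (T.l 816) (T.l 816)) (T.b (T.l 816) (T.l 816)))))))), by decide +kernel⟩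

def A202R_046 :
    ∃ t, chk3 (onCell 0 67108864 0 1073741824 587336777 62277027 (corT true 1 c0B cA202R gB0q2 gB4q0 gB6q2 gB7q2 false true)) t 1 1 1 = true :=
  ⟨(T.b (T.l 2) (T.b (T.a (T.l 0) (T.a (T.b (T.l 204) (T.l 0)) (T.b (T.l 0) (T.l 0)))) (T.b (T.a (T.l 0) (T.a (T.b (T.l 0) (T.l 0)) (T.b (T.l 0) (T.l 0)))) (T.a (T.a (T.l 816) (T.a (T.l 816) (T.b (T.l 816) (T.l 816)))) (T.a (T.a (T.a (T.l 816) (T.b (T.l 816) (T.l 816))) (T.a (T.b (T.l 816) (T.l 816)) (T.l 816))) (T.b (T.l 816) (T.a (T.l 816) (T.l 816)))))))), by decide +kernel⟩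

def A202R_116 :
    ∃ t, chk3 (onCell 0 67108864 0 1073741824 587336777 62277027 (corT true 1 c0B cA202R gB1q2 gB1q0 gB6q2 gB7q2 false true)) t 1 1 1 = true :=
  ⟨(T.b (T.b (T.l 2) (T.b (T.l 2) (T.a (T.l 0) (T.a (T.l 0) (T.b (T.l 0) (T.l 0)))))) (T.b (T.a (T.l 816) (T.a (T.b (T.l 816) (T.a (T.l 816) (T.l 816))) (T.b (T.b (T.l 0) (T.l 0)) (T.b (T.l 0) (T.l 816))))) (T.b (T.a (T.l 816) (T.a (T.a (T.b (T.l 816) (T.l 816)) (T.l 816)) (T.b (T.l 816) (T.l 816)))) (T.a (T.a (T.l 816) (T.a (T.l 816) (T.b (T.l 816) (T.l 816)))) (T.a (T.a (T.b (T.l 816) (T.l 816)) (T.l 816)) (T.a (T.l 816) (T.b (T.l 816) (T.l 816)))))))), by decide +kernel⟩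

def A202R_126 :
    ∃ t, chk3 (onCell 0 67108864 0 1073741824 587336777 62277027 (corT true 1 c0B cA202R gB1q2 gB2q0 gB6q2 gB7q2 false true)) t 1 1 1 = true :=
  ⟨(T.b (T.b (T.l 2) (T.b (T.l 2) (T.a (T.l 204) (T.b (T.l 2) (T.a (T.l 204) (T.l 0)))))) (T.b (T.a (T.l 0) (T.a (T.b (T.l 0) (T.b (T.l 0) (T.l 0))) (T.b (T.b (T.l 0) (T.l 0)) (T.l 0)))) (T.b (T.a (T.l 816) (T.a (T.a (T.l 816) (T.l 816)) (T.b (T.l 816) (T.l 816)))) (T.a (T.a (T.l 816) (T.a (T.l 816) (T.b (T.l 816) (T.l 816)))) (T.a (T.a (T.b (T.l 816) (T.l 816)) (T.l 816)) (T.a (T.l 816) (T.b (T.l 816) (T.l 816)))))))), by decide +kernel⟩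

def A202R_136 :
    ∃ t, chk3 (onCell 0 67108864 0 1073741824 587336777 62277027 (corT true 1 c0B cA202R gB1q2 gB3q0 gB6q2 gB7q2 false true)) t 1 1 1 = true :=
  ⟨(T.b (T.l 2) (T.b (T.a (T.l 0) (T.a (T.b (T.l 0) (T.l 0)) (T.b (T.l 0) (T.l 0)))) (T.b (T.a (T.l 816) (T.a (T.b (T.l 0) (T.l 0)) (T.l 0))) (T.a (T.a (T.l 816) (T.a (T.l 816) (T.b (T.l 816) (T.l 816)))) (T.a (T.a (T.b (T.l 816) (T.l 816)) (T.l 816)) (T.a (T.l 816) (T.b (T.l 816) (T.l 816)))))))), by decide +kernel⟩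

def A202R_146 :
    ∃ t, chk3 (onCell 0 67108864 0 1073741824 587336777 62277027 (corT true 1 c0B cA202R gB1q2 gB4q0 gB6q2 gB7q2 false true)) t 1 1 1 = true :=
  ⟨(T.b (T.l 2) (T.b (T.b (T.l 2) (T.a (T.l 0) (T.a (T.l 0) (T.l 0)))) (T.b (T.a (T.l 0) (T.a (T.b (T.l 0) (T.l 0)) (T.l 0))) (T.a (T.a (T.l 816) (T.a (T.l 816) (T.b (T.l 816) (T.l 816)))) (T.a (T.a (T.b (T.l 816) (T.l 816)) (T.l 816)) (T.a (T.l 816) (T.b (T.l 816) (T.l 816)))))))), by decide +kernel⟩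

def A202R_226 :
    ∃ t, chk3 (onCell 0 67108864 0 1073741824 587336777 62277027 (corT true 1 c0B cA202R gB2q2 gB2q0 gB6q2 gB7q2 false true)) t 1 1 1 = true :=
  ⟨(T.b (T.l 2) (T.b (T.a (T.l 0) (T.b (T.a (T.l 0) (T.l 0)) (T.a (T.l 0) (T.l 0)))) (T.b (T.a (T.l 816) (T.a (T.b (T.l 0) (T.l 0)) (T.l 0))) (T.a (T.a (T.l 816) (T.a (T.l 816) (T.l 816))) (T.a (T.b (T.l 0) (T.l 816)) (T.b (T.l 816) (T.l 816))))))), by decide +kernel⟩

def A202R_236 :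
    ∃ t, chk3 (onCell 0 67108864 0 1073741824 587336777 62277027 (corT true 1 c0B cA202R gB2q2 gB3q0 gB6q2 gB7q2 false true)) t 1 1 1 = true :=
  ⟨(T.b (T.l 2) (T.b (T.a (T.l 0) (T.b (T.a (T.l 204) (T.l 0)) (T.a (T.l 0) (T.l 0)))) (T.b (T.a (T.l 816) (T.a (T.l 0) (T.l 0))) (T.a (T.a (T.l 816) (T.a (T.l 816) (T.l 816))) (T.a (T.b (T.l 0) (T.l 0)) (T.b (T.l 0) (T.l 816))))))), by decide +kernel⟩

def A202R_246 :
    ∃ t, chk3 (onCell 0 67108864 0 1073741824 587336777 62277027 (corT true 1 c0B cA202R gB2q2 gB4q0 gB6q2 gB7q2 false true)) t 1 1 1 = true :=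
  ⟨(T.b (T.l 2) (T.b (T.b (T.l 2) (T.a (T.l 204) (T.a (T.l 0) (T.l 0)))) (T.b (T.a (T.l 0) (T.a (T.l 0) (T.l 0))) (T.a (T.a (T.l 816) (T.a (T.l 816) (T.l 0))) (T.a (T.b (T.l 0) (T.l 0)) (T.b (T.l 0) (T.l 0))))))), by decide +kernel⟩

def A202R_336 :
    ∃ t, chk3 (onCell 0 67108864 0 1073741824 587336777 62277027 (corT true 1 c0B cA202R gB3q2 gB3q0 gB6q2 gB7q2 false true)) t 1 1 1 = true :=
  ⟨(T.b (T.l 2) (T.b (T.b (T.l 2) (T.a (T.l 0) (T.a (T.l 0) (T.l 0)))) (T.b (T.a (T.l 0) (T.a (T.l 0) (T.l 0))) (T.a (T.a (T.l 816) (T.a (T.l 816) (T.l 0))) (T.a (T.l 0) (T.l 0)))))), by decide +kernel⟩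

def A202R_346 :
    ∃ t, chk3 (onCell 0 67108864 0 1073741824 587336777 62277027 (corT true 1 c0B cA202R gB3q2 gB4q0 gB6q2 gB7q2 false true)) t 1 1 1 = true :=
  ⟨(T.b (T.l 2) (T.b (T.l 2) (T.b (T.a (T.l 0) (T.a (T.l 0) (T.l 0))) (T.a (T.a (T.l 816) (T.a (T.l 816) (T.l 0))) (T.a (T.l 0) (T.l 0)))))), by decide +kernel⟩

def A202R_446 :
    ∃ t, chk3 (onCell 0 67108864 0 1073741824 587336777 62277027 (corT true 1 c0B cA202R gB4q2 gB4q0 gB6q2 gB7q2 false true)) t 1 1 1 = true :=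
  ⟨(T.l 2), by decide +kernel⟩

def B011E_000 :
    ∃ t, chk3 (onCell 0 67108864 0 1073741824 587336777 62277027 (corT true 1 c0B cB011E gB0q0 gB0q1 gB0q1 gB1q1 true false)) t 1 1 1 = true :=
  ⟨(T.l 1), by decide +kernel⟩

def B011E_100 :
    ∃ t, chk3 (onCell 0 67108864 0 1073741824 587336777 62277027 (corT true 1 c0B cB011E gB1q0 gB0q1 gB0q1 gB1q1 true false)) t 1 1 1 = true :=
  ⟨(T.l 1), by decide +kernel⟩

def B011E_200 :
    ∃ t, chk3 (onCell 0 67108864 0 1073741824 587336777 62277027 (corT true 1 c0B cB011E gB2q0 gB0q1 gB0q1 gB1q1 true false)) t 1 1 1 = true :=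
  ⟨(T.l 1), by decide +kernel⟩

def B011E_300 :
    ∃ t, chk3 (onCell 0 67108864 0 1073741824 587336777 62277027 (corT true 1 c0B cB011E gB3q0 gB0q1 gB0q1 gB1q1 true false)) t 1 1 1 = true :=
  ⟨(T.l 1), by decide +kernel⟩

def B011E_400 :
    ∃ t, chk3 (onCell 0 67108864 0 1073741824 587336777 62277027 (corT true 1 c0B cB011E gB4q0 gB0q1 gB0q1 gB1q1 true false)) t 1 1 1 = true :=
  ⟨(T.b (T.l 1) (T.l 1)), by decide +kernel⟩

def B011L_050 :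
    ∃ t, chk3 (onCell 0 67108864 0 1073741824 587336777 62277027 (corT true 1 c0B cB011L gB0q0 gB5q1 gB0q1 gB1q1 true false)) t 1 1 1 = true :=
  ⟨(T.l 1), by decide +kernel⟩

def B011L_060 :
    ∃ t, chk3 (onCell 0 67108864 0 1073741824 587336777 62277027 (corT true 1 c0B cB011L gB0q0 gB6q1 gB0q1 gB1q1 true false)) t 1 1 1 = true :=
  ⟨(T.l 1), by decide +kernel⟩

def B011L_070 :
    ∃ t, chk3 (onCell 0 67108864 0 1073741824 587336777 62277027 (corT true 1 c0B cB011L gB0q0 gB7q1 gB0q1 gB1q1 true false)) t 1 1 1 = true :=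
  ⟨(T.l 1), by decide +kernel⟩

def B011L_150 :
    ∃ t, chk3 (onCell 0 67108864 0 1073741824 587336777 62277027 (corT true 1 c0B cB011L gB1q0 gB5q1 gB0q1 gB1q1 true false)) t 1 1 1 = true :=
  ⟨(T.l 1), by decide +kernel⟩

def B011L_160 :
    ∃ t, chk3 (onCell 0 67108864 0 1073741824 587336777 62277027 (corT true 1 c0B cB011L gB1q0 gB6q1 gB0q1 gB1q1 true false)) t 1 1 1 = true :=
  ⟨(T.l 1), by decide +kernel⟩

def B011L_170 :
    ∃ t, chk3 (onCell 0 67108864 0 1073741824 587336777 62277027 (corT true 1 c0B cB011L gB1q0 gB7q1 gB0q1 gB1q1 true false)) t 1 1 1 = true :=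
  ⟨(T.l 1), by decide +kernel⟩

def B011L_250 :
    ∃ t, chk3 (onCell 0 67108864 0 1073741824 587336777 62277027 (corT true 1 c0B cB011L gB2q0 gB5q1 gB0q1 gB1q1 true false)) t 1 1 1 = true :=
  ⟨(T.l 1), by decide +kernel⟩

def B011L_260 :
    ∃ t, chk3 (onCell 0 67108864 0 1073741824 587336777 62277027 (corT true 1 c0B cB011L gB2q0 gB6q1 gB0q1 gB1q1 true false)) t 1 1 1 = true :=
  ⟨(T.l 1), by decide +kernel⟩

def B011L_270 :
    ∃ t, chk3 (onCell 0 67108864 0 1073741824 587336777 62277027 (corT true 1 c0B cB011L gB2q0 gB7q1 gB0q1 gB1q1 true false)) t 1 1 1 = true :=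
  ⟨(T.l 1), by decide +kernel⟩

def B011L_350 :
    ∃ t, chk3 (onCell 0 67108864 0 1073741824 587336777 62277027 (corT true 1 c0B cB011L gB3q0 gB5q1 gB0q1 gB1q1 true false)) t 1 1 1 = true :=
  ⟨(T.l 1), by decide +kernel⟩

def B011L_360 :
    ∃ t, chk3 (onCell 0 67108864 0 1073741824 587336777 62277027 (corT true 1 c0B cB011L gB3q0 gB6q1 gB0q1 gB1q1 true false)) t 1 1 1 = true :=
  ⟨(T.l 1), by decide +kernel⟩

def B011L_370 :
    ∃ t, chk3 (onCell 0 67108864 0 1073741824 587336777 62277027 (corT true 1 c0B cB011L gB3q0 gB7q1 gB0q1 gB1q1 true false)) t 1 1 1 = true :=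
  ⟨(T.l 1), by decide +kernel⟩

def B011L_450 :
    ∃ t, chk3 (onCell 0 67108864 0 1073741824 587336777 62277027 (corT true 1 c0B cB011L gB4q0 gB5q1 gB0q1 gB1q1 true false)) t 1 1 1 = true :=
  ⟨(T.l 1), by decide +kernel⟩

def B011L_460 :
    ∃ t, chk3 (onCell 0 67108864 0 1073741824 587336777 62277027 (corT true 1 c0B cB011L gB4q0 gB6q1 gB0q1 gB1q1 true false)) t 1 1 1 = true :=
  ⟨(T.l 1), by decide +kernel⟩

def B011L_470 :
    ∃ t, chk3 (onCell 0 67108864 0 1073741824 587336777 62277027 (corT true 1 c0B cB011L gB4q0 gB7q1 gB0q1 gB1q1 true false)) t 1 1 1 = true :=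
  ⟨(T.l 1), by decide +kernel⟩

def B011R_004 :
    ∃ t, chk3 (onCell 0 67108864 0 1073741824 587336777 62277027 (corT true 1 c0B cB011R gB0q0 gB0q1 gB4q1 gB5q1 false true)) t 1 1 1 = true :=
  ⟨(T.b (T.b (T.b (T.a (T.b (T.l 204) (T.l 204)) (T.b (T.l 204) (T.a (T.l 204) (T.l 204)))) (T.l 2)) (T.l 2)) (T.l 2)), by decide +kernel⟩

def B011R_005 :
    ∃ t, chk3 (onCell 0 67108864 0 1073741824 587336777 62277027 (corT true 1 c0B cB011R gB0q0 gB0q1 gB5q1 gB6q1 true true)) t 1 1 1 = true :=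
  ⟨(T.b (T.b (T.b (T.b (T.l 1) (T.a (T.l 204) (T.l 204))) (T.b (T.a (T.l 204) (T.l 204)) (T.a (T.b (T.a (T.l 204) (T.l 204)) (T.b (T.a (T.c (T.l 204) (T.l 204)) (T.l 204)) (T.l 2))) (T.b (T.l 204) (T.b (T.l 204) (T.a (T.a (T.l 2) (T.l 204)) (T.l 204))))))) (T.l 2)) (T.l 2)), by decide +kernel⟩

def B011R_006 :
    ∃ t, chk3 (onCell 0 67108864 0 1073741824 587336777 62277027 (corX 1 c0B cB011R tB011R gB0q0 gB0q1 gB6q1 gB7q1 gB7q1 true true)) t 1 1 1 = true :=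
  ⟨(T.b (T.a (T.a (T.c (T.b (T.a (T.l 207) (T.l 207)) (T.a (T.l 207) (T.l 207))) (T.l 207)) (T.c (T.b (T.b (T.l 1) (T.l 223)) (T.b (T.l 223) (T.l 2))) (T.l 207))) (T.a (T.c (T.b (T.b (T.l 1) (T.l 207)) (T.b (T.l 207) (T.l 2))) (T.l 479)) (T.b (T.b (T.l 1) (T.l 207)) (T.b (T.l 207) (T.l 2))))) (T.l 2)), by decide +kernel⟩

def B011R_104 :
    ∃ t, chk3 (onCell 0 67108864 0 1073741824 587336777 62277027 (corT true 1 c0B cB011R gB1q0 gB0q1 gB4q1 gB5q1 false true)) t 1 1 1 = true :=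
  ⟨(T.b (T.b (T.b (T.l 204) (T.l 2)) (T.l 2)) (T.l 2)), by decide +kernel⟩

def B011R_105 :
    ∃ t, chk3 (onCell 0 67108864 0 1073741824 587336777 62277027 (corT true 1 c0B cB011R gB1q0 gB0q1 gB5q1 gB6q1 true true)) t 1 1 1 = true :=
  ⟨(T.b (T.b (T.l 0) (T.l 2)) (T.l 2)), by decide +kernel⟩

def B011R_106 :
    ∃ t, chk3 (onCell 0 67108864 0 1073741824 587336777 62277027 (corT true 1 c0B cB011R gB1q0 gB0q1 gB6q1 gB7q1 true true)) t 1 1 1 = true :=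
  ⟨(T.b (T.b (T.b (T.l 1) (T.l 0)) (T.b (T.b (T.a (T.l 0) (T.l 0)) (T.l 2)) (T.l 2))) (T.l 2)), by decide +kernel⟩

def B011R_204 :
    ∃ t, chk3 (onCell 0 67108864 0 1073741824 587336777 62277027 (corT true 1 c0B cB011R gB2q0 gB0q1 gB4q1 gB5q1 false true)) t 1 1 1 = true :=
  ⟨(T.l 2), by decide +kernel⟩

def B011R_205 :
    ∃ t, chk3 (onCell 0 67108864 0 1073741824 587336777 62277027 (corT true 1 c0B cB011R gB2q0 gB0q1 gB5q1 gB6q1 true true)) t 1 1 1 = true :=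
  ⟨(T.b (T.b (T.l 0) (T.l 2)) (T.l 2)), by decide +kernel⟩

def B011R_206 :
    ∃ t, chk3 (onCell 0 67108864 0 1073741824 587336777 62277027 (corT true 1 c0B cB011R gB2q0 gB0q1 gB6q1 gB7q1 true true)) t 1 1 1 = true :=
  ⟨(T.b (T.b (T.b (T.l 0) (T.l 816)) (T.l 2)) (T.l 2)), by decide +kernel⟩

def B011R_304 :
    ∃ t, chk3 (onCell 0 67108864 0 1073741824 587336777 62277027 (corT true 1 c0B cB011R gB3q0 gB0q1 gB4q1 gB5q1 false true)) t 1 1 1 = true :=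
  ⟨(T.l 2), by decide +kernel⟩

def B011R_305 :
    ∃ t, chk3 (onCell 0 67108864 0 1073741824 587336777 62277027 (corT true 1 c0B cB011R gB3q0 gB0q1 gB5q1 gB6q1 true true)) t 1 1 1 = true :=
  ⟨(T.l 2), by decide +kernel⟩

def B011R_306 :
    ∃ t, chk3 (onCell 0 67108864 0 1073741824 587336777 62277027 (corT true 1 c0B cB011R gB3q0 gB0q1 gB6q1 gB7q1 true true)) t 1 1 1 = true :=
  ⟨(T.b (T.l 2) (T.l 2)), by decide +kernel⟩

def B011R_404 :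
    ∃ t, chk3 (onCell 0 67108864 0 1073741824 587336777 62277027 (corT true 1 c0B cB011R gB4q0 gB0q1 gB4q1 gB5q1 false true)) t 1 1 1 = true :=
  ⟨(T.l 2), by decide +kernel⟩

def B011R_405 :
    ∃ t, chk3 (onCell 0 67108864 0 1073741824 587336777 62277027 (corT true 1 c0B cB011R gB4q0 gB0q1 gB5q1 gB6q1 true true)) t 1 1 1 = true :=
  ⟨(T.l 2), by decide +kernel⟩

def B011R_406 :
    ∃ t, chk3 (onCell 0 67108864 0 1073741824 587336777 62277027 (corT true 1 c0B cB011R gB4q0 gB0q1 gB6q1 gB7q1 true true)) t 1 1 1 = true :=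
  ⟨(T.l 2), by decide +kernel⟩

def B012E_000 :
    ∃ t, chk3 (onCell 0 44739242 0 1073741824 587336777 62277027 (corX 1 c0B cB012E tB012E gB0q0 gB0q2 gB0q1 gB1q1 gB0q1 true false)) t 1 1 1 = true :=
  ⟨(T.b (T.b (T.l 1) (T.b (T.l 1) (T.b (T.l 1) (T.b (T.l 1) (T.a (T.b (T.l 1) (T.a (T.l 819) (T.l 819))) (T.a (T.l 819) (T.l 819))))))) (T.a (T.a (T.b (T.a (T.b (T.b (T.l 819) (T.l 819)) (T.b (T.l 819) (T.l 819))) (T.b (T.b (T.l 819) (T.l 819)) (T.b (T.l 819) (T.l 819)))) (T.a (T.b (T.b (T.l 819) (T.l 819)) (T.b (T.l 819) (T.l 819))) (T.a (T.l 819) (T.l 819)))) (T.b (T.a (T.b (T.b (T.l 819) (T.l 819)) (T.b (T.l 819) (T.l 819))) (T.a (T.l 823) (T.l 823))) (T.a (T.b (T.l 819) (T.l 819)) (T.b (T.l 819) (T.l 819))))) (T.b (T.a (T.b (T.a (T.l 819) (T.l 819)) (T.b (T.l 819) (T.l 819))) (T.b (T.b (T.l 819) (T.l 819)) (T.b (T.l 819) (T.a (T.l 819) (T.b (T.l 819) (T.l 816))))))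 (T.a (T.b (T.b (T.l 819) (T.l 819)) (T.a (T.l 819) (T.b (T.l 819) (T.b (T.l 819) (T.l 816))))) (T.b (T.b (T.a (T.l 819) (T.b (T.l 816) (T.l 816))) (T.a (T.b (T.l 819) (T.l 816)) (T.l 816))) (T.a (T.b (T.l 816) (T.l 816)) (T.b (T.b (T.l 816) (T.l 816)) (T.l 820)))))))), by decide +kernel⟩

def B012E_010_1_2_1 :
    ∃ t, chk3 (onCell 0 53687091 0 1073741824 587336777 62277027 (corT true 1 c0B cB012E gB0q0 gB1q2 gB0q1 gB1q1 true false)) t 1 2 1 = true :=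
  ⟨(T.b (T.l 1) (T.b (T.l 1) (T.b (T.l 1) (T.l 1)))), by decide +kernel⟩

def B012E_010_2_96_1 :
    ∃ t, chk3 (onCell 0 53687091 0 1073741824 587336777 62277027 (corT true 1 c0B cB012E gB0q0 gB1q2 gB0q1 gB1q1 true false)) t 2 96 1 = true :=
  ⟨(T.a (T.l 1) (T.b (T.l 1) (T.b (T.a (T.l 1) (T.a (T.l 1) (T.a (T.l 1) (T.b (T.l 1) (T.b (T.l 1) (T.l 204)))))) (T.a (T.b (T.l 1) (T.a (T.b (T.l 1) (T.a (T.a (T.l 1) (T.b (T.l 1) (T.c (T.l 460) (T.l 204)))) (T.c (T.c (T.c (T.c (T.l 460) (T.l 204)) (T.l 204)) (T.l 204)) (T.l 204)))) (T.c (T.a (T.b (T.a (T.l 1) (T.l 460)) (T.l 204)) (T.l 204)) (T.c (T.a (T.l 460) (T.l 204)) (T.l 460))))) (T.c (T.a (T.b (T.b (T.a (T.l 1) (T.c (T.l 204) (T.l 204))) (T.c (T.l 204) (T.l 204))) (T.l 204)) (T.l 204)) (T.a (T.a (T.b (T.b (T.l 1) (T.l 204)) (T.l 204)) (T.l 204)) (T.l 204))))))), by decide +kernel⟩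

def B012E_010_8_194_1 :
    ∃ t, chk3 (onCell 0 53687091 0 1073741824 587336777 62277027 (corT true 1 c0B cB012E gB0q0 gB1q2 gB0q1 gB1q1 true false)) t 8 194 1 = true :=
  ⟨(T.b (T.a (T.l 1) (T.b (T.l 1) (T.b (T.a (T.l 1) (T.a (T.l 1) (T.a (T.l 1) (T.b (T.l 1) (T.b (T.l 1) (T.l 204)))))) (T.c (T.a (T.b (T.l 1) (T.a (T.b (T.l 1) (T.l 204)) (T.l 204))) (T.a (T.a (T.c (T.c (T.l 204) (T.l 204)) (T.l 204)) (T.l 204)) (T.l 204))) (T.a (T.b (T.l 1) (T.a (T.b (T.l 1) (T.l 204)) (T.l 204))) (T.a (T.c (T.c (T.l 204) (T.l 204)) (T.l 204)) (T.l 204))))))) (T.c (T.a (T.b (T.c (T.a (T.b (T.b (T.l 1) (T.a (T.l 1) (T.l 204))) (T.l 0)) (T.a (T.b (T.a (T.b (T.l 1) (T.l 204)) (T.l 204)) (T.l 204)) (T.l 204))) (T.b (T.a (T.b (T.l 1) (T.a (T.l 1) (T.l 204))) (T.a (T.b (T.b (T.l 1) (T.l 204)) (T.l 204)) (T.l 204))) (T.c (T.l 0) (T.l 0)))) (T.l 0)) (T.a (T.c (T.l 204) (T.l 204))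 (T.l 204))) (T.a (T.b (T.a (T.b (T.b (T.l 1) (T.a (T.l 1) (T.a (T.b (T.l 1) (T.l 204)) (T.l 204)))) (T.c (T.l 0) (T.l 0))) (T.b (T.b (T.a (T.b (T.l 1) (T.c (T.l 204) (T.l 204))) (T.l 204)) (T.l 204)) (T.l 204))) (T.l 0)) (T.a (T.c (T.l 204) (T.l 204)) (T.l 204))))), by decide +kernel⟩

def B012E_010_9_194_1 :
    ∃ t, chk3 (onCell 0 53687091 0 1073741824 587336777 62277027 (corT true 1 c0B cB012E gB0q0 gB1q2 gB0q1 gB1q1 true false)) t 9 194 1 = true :=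
  ⟨(T.b (T.c (T.a (T.b (T.a (T.l 1) (T.b (T.l 1) (T.b (T.l 1) (T.a (T.l 1) (T.c (T.l 204) (T.l 204)))))) (T.b (T.a (T.c (T.b (T.a (T.l 1) (T.a (T.l 1) (T.l 204))) (T.l 204)) (T.b (T.a (T.l 1) (T.a (T.l 1) (T.l 204))) (T.l 204))) (T.c (T.l 204) (T.l 204))) (T.l 204))) (T.b (T.c (T.a (T.b (T.l 1) (T.a (T.a (T.b (T.l 1) (T.l 204)) (T.l 204)) (T.l 204))) (T.b (T.b (T.l 1) (T.c (T.l 204) (T.l 204))) (T.l 204))) (T.a (T.b (T.l 1) (T.a (T.c (T.c (T.l 460) (T.l 204)) (T.l 204)) (T.l 204))) (T.b (T.b (T.l 1) (T.l 204)) (T.l 204)))) (T.l 204))) (T.a (T.b (T.a (T.l 1) (T.b (T.l 1) (T.b (T.l 1) (T.a (T.l 1) (T.l 204))))) (T.a (T.b (T.c (T.b (T.a (T.l 1) (T.l 460)) (T.l 204)) (T.a (T.b (T.l 1) (T.l 204)) (T.l 204))) (T.l 204)) (T.l 204))) (T.b (T.a (T.b (T.l 1) (T.c (T.c (T.l 204) (T.l 204)) (T.l 204))) (T.b (T.b (T.l 1) (T.l 204)) (T.l 204))) (T.l 204)))) (T.c (T.c (T.l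 204) (T.l 204)) (T.l 204))), by decide +kernel⟩

def B012E_010_4_195_1 :
    ∃ t, chk3 (onCell 0 53687091 0 1073741824 587336777 62277027 (corT true 1 c0B cB012E gB0q0 gB1q2 gB0q1 gB1q1 true false)) t 4 195 1 = true :=
  ⟨(T.a (T.c (T.l 0) (T.l 0)) (T.l 0)), by decide +kernel⟩

def B012E_010_5_97_1 :
    ∃ t, chk3 (onCell 0 53687091 0 1073741824 587336777 62277027 (corT true 1 c0B cB012E gB0q0 gB1q2 gB0q1 gB1q1 true false)) t 5 97 1 = true :=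
  ⟨(T.b (T.a (T.b (T.a (T.b (T.a (T.c (T.c (T.l 204) (T.l 204)) (T.l 204)) (T.l 204)) (T.l 204)) (T.l 204)) (T.l 204)) (T.c (T.l 204) (T.l 204))) (T.l 0)), by decide +kernel⟩

def B012E_010_2_49_1 :
    ∃ t, chk3 (onCell 0 53687091 0 1073741824 587336777 62277027 (corT true 1 c0B cB012E gB0q0 gB1q2 gB0q1 gB1q1 true false)) t 2 49 1 = true :=
  ⟨(T.a (T.b (T.c (T.l 0) (T.l 0)) (T.l 0)) (T.l 0)), by decide +kernel⟩

def B012E_010_2_25_1 :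
    ∃ t, chk3 (onCell 0 53687091 0 1073741824 587336777 62277027 (corT true 1 c0B cB012E gB0q0 gB1q2 gB0q1 gB1q1 true false)) t 2 25 1 = true :=
  ⟨(T.a (T.b (T.l 816) (T.l 816)) (T.b (T.l 0) (T.l 816))), by decide +kernel⟩

def B012E_010_2_13_1 :
    ∃ t, chk3 (onCell 0 53687091 0 1073741824 587336777 62277027 (corT true 1 c0B cB012E gB0q0 gB1q2 gB0q1 gB1q1 true false)) t 2 13 1 = true :=
  ⟨(T.b (T.a (T.l 816) (T.l 816)) (T.b (T.l 816) (T.l 816))), by decide +kernel⟩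

def B012E_010_2_7_1 :
    ∃ t, chk3 (onCell 0 53687091 0 1073741824 587336777 62277027 (corT true 1 c0B cB012E gB0q0 gB1q2 gB0q1 gB1q1 true false)) t 2 7 1 = true :=
  ⟨(T.b (T.b (T.b (T.l 816) (T.l 816)) (T.b (T.l 816) (T.l 816))) (T.b (T.b (T.l 816) (T.l 816)) (T.b (T.l 816) (T.l 816)))), by decide +kernel⟩

def B012E_010_3_3_1 :
    ∃ t, chk3 (onCell 0 53687091 0 1073741824 587336777 62277027 (corT true 1 c0B cB012E gB0q0 gB1q2 gB0q1 gB1q1 true false)) t 3 3 1 = true :=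
  ⟨(T.b (T.a (T.b (T.b (T.b (T.b (T.b (T.a (T.l 1) (T.b (T.l 1) (T.a (T.l 1) (T.c (T.l 204) (T.l 204))))) (T.a (T.b (T.a (T.b (T.l 1) (T.c (T.l 204) (T.l 204))) (T.c (T.l 460) (T.l 204))) (T.l 204)) (T.c (T.l 204) (T.l 204)))) (T.c (T.l 0) (T.l 0))) (T.l 0)) (T.b (T.l 0) (T.l 816))) (T.b (T.b (T.l 816) (T.l 816)) (T.l 816))) (T.b (T.b (T.b (T.b (T.b (T.a (T.b (T.l 1) (T.l 204)) (T.c (T.l 204) (T.l 220))) (T.c (T.l 0) (T.l 0))) (T.l 16)) (T.c (T.l 0) (T.l 0))) (T.a (T.b (T.l 816) (T.l 816)) (T.b (T.l 816) (T.a (T.l 816) (T.l 816))))) (T.b (T.a (T.l 816) (T.b (T.a (T.l 816) (T.l 820)) (T.a (T.l 816) (T.l 816)))) (T.a (T.a (T.l 816) (T.b (T.l 816) (T.l 816))) (T.b (T.c (T.l 816) (T.l 816)) (T.l 816)))))) (T.a (T.b (T.b (T.l 816) (T.a (T.l 816) (T.a (T.l 816) (T.b (T.l 816) (T.l 816))))) (T.a (T.b (T.l 816) (T.b (T.l 816) (T.l 816))) (T.b (T.a (T.l 816) (T.l 816))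 (T.b (T.l 816) (T.l 816))))) (T.b (T.a (T.b (T.a (T.b (T.l 816) (T.l 816)) (T.b (T.l 816) (T.l 816))) (T.b (T.l 816) (T.l 816))) (T.b (T.b (T.l 816) (T.l 816)) (T.l 0))) (T.a (T.b (T.b (T.l 816) (T.l 816)) (T.l 816)) (T.b (T.l 816) (T.l 816)))))), by decide +kernel⟩

theorem B012E_010_4_194_1 :
    ∃ t, chk3 (onCell 0 53687091 0 1073741824 587336777 62277027 (corT true 1 c0B cB012E gB0q0 gB1q2 gB0q1 gB1q1 true false)) t 4 194 1 = true :=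
  ex3_a B012E_010_8_194_1 B012E_010_9_194_1
theorem B012E_010_4_97_1 :
    ∃ t, chk3 (onCell 0 53687091 0 1073741824 587336777 62277027 (corT true 1 c0B cB012E gB0q0 gB1q2 gB0q1 gB1q1 true false)) t 4 97 1 = true :=
  ex3_b B012E_010_4_194_1 B012E_010_4_195_1
theorem B012E_010_2_97_1 :
    ∃ t, chk3 (onCell 0 53687091 0 1073741824 587336777 62277027 (corT true 1 c0B cB012E gB0q0 gB1q2 gB0q1 gB1q1 true false)) t 2 97 1 = true :=
  ex3_a B012E_010_4_97_1 B012E_010_5_97_1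
theorem B012E_010_2_48_1 :
    ∃ t, chk3 (onCell 0 53687091 0 1073741824 587336777 62277027 (corT true 1 c0B cB012E gB0q0 gB1q2 gB0q1 gB1q1 true false)) t 2 48 1 = true :=
  ex3_b B012E_010_2_96_1 B012E_010_2_97_1
theorem B012E_010_2_24_1 :
    ∃ t, chk3 (onCell 0 53687091 0 1073741824 587336777 62277027 (corT true 1 c0B cB012E gB0q0 gB1q2 gB0q1 gB1q1 true false)) t 2 24 1 = true :=
  ex3_b B012E_010_2_48_1 B012E_010_2_49_1
theorem B012E_010_2_12_1 :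
    ∃ t, chk3 (onCell 0 53687091 0 1073741824 587336777 62277027 (corT true 1 c0B cB012E gB0q0 gB1q2 gB0q1 gB1q1 true false)) t 2 12 1 = true :=
  ex3_b B012E_010_2_24_1 B012E_010_2_25_1
theorem B012E_010_2_6_1 :
    ∃ t, chk3 (onCell 0 53687091 0 1073741824 587336777 62277027 (corT true 1 c0B cB012E gB0q0 gB1q2 gB0q1 gB1q1 true false)) t 2 6 1 = true :=
  ex3_b B012E_010_2_12_1 B012E_010_2_13_1
theorem B012E_010_2_3_1 :
    ∃ t, chk3 (onCell 0 53687091 0 1073741824 587336777 62277027 (corT true 1 c0B cB012E gB0q0 gB1q2 gB0q1 gB1q1 true false)) t 2 3 1 = true :=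
  ex3_b B012E_010_2_6_1 B012E_010_2_7_1
theorem B012E_010_1_3_1 :
    ∃ t, chk3 (onCell 0 53687091 0 1073741824 587336777 62277027 (corT true 1 c0B cB012E gB0q0 gB1q2 gB0q1 gB1q1 true false)) t 1 3 1 = true :=
  ex3_a B012E_010_2_3_1 B012E_010_3_3_1
theorem B012E_010 :
    ∃ t, chk3 (onCell 0 53687091 0 1073741824 587336777 62277027 (corT true 1 c0B cB012E gB0q0 gB1q2 gB0q1 gB1q1 true false)) t 1 1 1 = true :=
  ex3_b B012E_010_1_2_1 B012E_010_1_3_1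

def B012E_020 :
    ∃ t, chk3 (onCell 0 53687091 0 1073741824 587336777 62277027 (corT true 1 c0B cB012E gB0q0 gB2q2 gB0q1 gB1q1 true false)) t 1 1 1 = true :=
  ⟨(T.b (T.l 1) (T.a (T.b (T.b (T.b (T.b (T.l 1) (T.a (T.l 1) (T.b (T.l 1) (T.a (T.l 1) (T.b (T.l 1) (T.l 0)))))) (T.b (T.a (T.b (T.c (T.a (T.b (T.b (T.l 1) (T.b (T.l 1) (T.l 816))) (T.l 816)) (T.c (T.l 816) (T.l 816))) (T.a (T.l 816) (T.l 816))) (T.c (T.l 816) (T.l 816))) (T.c (T.b (T.l 0) (T.l 816)) (T.l 0))) (T.c (T.l 0) (T.l 0)))) (T.b (T.b (T.l 0) (T.l 816)) (T.l 0))) (T.b (T.b (T.l 816) (T.l 816)) (T.b (T.l 816) (T.l 816)))) (T.b (T.a (T.b (T.b (T.b (T.l 1) (T.b (T.l 1) (T.b (T.l 1) (T.l 0)))) (T.b (T.l 0) (T.l 0))) (T.b (T.l 0) (T.l 816))) (T.b (T.b (T.b (T.l 1) (T.b (T.l 1) (T.c (T.a (T.l 0) (T.l 0)) (T.l 0)))) (T.b (T.l 0) (T.b (T.l 0) (T.l 0)))) (T.b (T.a (T.l 816) (T.l 0)) (T.b (T.l 0) (T.l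 0))))) (T.a (T.b (T.a (T.l 816) (T.b (T.l 816) (T.l 0))) (T.a (T.b (T.l 816) (T.l 0)) (T.b (T.l 0) (T.l 0)))) (T.b (T.a (T.b (T.l 0) (T.l 0)) (T.b (T.l 0) (T.l 0))) (T.b (T.b (T.l 0) (T.l 0)) (T.l 0))))))), by decide +kernel⟩

def B012E_030 :
    ∃ t, chk3 (onCell 0 67108864 0 1073741824 587336777 62277027 (corT true 1 c0B cB012E gB0q0 gB3q2 gB0q1 gB1q1 true false)) t 1 1 1 = true :=
  ⟨(T.b (T.l 1) (T.b (T.b (T.b (T.l 1) (T.b (T.l 1) (T.b (T.l 1) (T.a (T.a (T.l 1) (T.l 816)) (T.a (T.l 816) (T.a (T.c (T.l 816) (T.l 0)) (T.l 0))))))) (T.a (T.b (T.b (T.a (T.l 816) (T.l 816)) (T.l 816)) (T.l 0)) (T.a (T.a (T.b (T.l 816) (T.l 816)) (T.b (T.b (T.l 816) (T.l 0)) (T.l 0))) (T.b (T.a (T.b (T.c (T.l 0) (T.l 0)) (T.l 0)) (T.b (T.l 0) (T.l 0))) (T.a (T.l 0) (T.l 0)))))) (T.b (T.a (T.b (T.l 816) (T.l 816)) (T.a (T.a (T.b (T.l 0) (T.l 0)) (T.b (T.l 0) (T.l 0))) (T.b (T.b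 (T.l 0) (T.l 0)) (T.b (T.l 0) (T.l 0))))) (T.a (T.a (T.l 816) (T.a (T.l 816) (T.b (T.l 816) (T.l 0)))) (T.a (T.a (T.b (T.l 0) (T.l 0)) (T.b (T.l 0) (T.l 816))) (T.b (T.l 0) (T.l 0))))))), by decide +kernel⟩

def B012E_040 :
    ∃ t, chk3 (onCell 0 67108864 0 1073741824 587336777 62277027 (corT true 1 c0B cB012E gB0q0 gB4q2 gB0q1 gB1q1 true false)) t 1 1 1 = true :=
  ⟨(T.b (T.l 1) (T.b (T.l 1) (T.b (T.b (T.l 1) (T.a (T.a (T.l 816) (T.l 816)) (T.a (T.a (T.a (T.l 816) (T.b (T.l 816) (T.l 816))) (T.b (T.c (T.l 816) (T.l 816)) (T.l 816))) (T.a (T.b (T.l 816) (T.l 816)) (T.b (T.l 816) (T.l 816)))))) (T.a (T.a (T.l 816) (T.a (T.l 816) (T.b (T.l 816) (T.l 816)))) (T.a (T.a (T.b (T.b (T.l 816) (T.l 816)) (T.l 816)) (T.b (T.l 816) (T.l 816))) (T.b (T.b (T.l 816) (T.l 816)) (T.l 816))))))), by decide +kernel⟩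

def B012E_100 :
    ∃ t, chk3 (onCell 0 44739242 0 1073741824 587336777 62277027 (corT true 1 c0B cB012E gB1q0 gB0q2 gB0q1 gB1q1 true false)) t 1 1 1 = true :=
  ⟨(T.b (T.b (T.l 1) (T.b (T.l 1) (T.b (T.l 1) (T.b (T.b (T.a (T.l 1) (T.b (T.l 1) (T.a (T.b (T.l 1) (T.c (T.a (T.b (T.l 1) (T.c (T.l 944) (T.l 816))) (T.l 816)) (T.l 816))) (T.c (T.a (T.c (T.a (T.c (T.l 944) (T.l 816)) (T.l 816)) (T.l 816)) (T.l 816)) (T.l 816))))) (T.a (T.c (T.b (T.a (T.b (T.a (T.l 1) (T.a (T.l 1) (T.a (T.l 1) (T.b (T.l 1) (T.b (T.l 1) (T.b (T.l 1) (T.l 816))))))) (T.c (T.a (T.b (T.a (T.l 1) (T.b (T.l 1) (T.c (T.c (T.a (T.b (T.l 1) (T.l 816)) (T.l 816)) (T.l 816)) (T.l 816)))) (T.a (T.c (T.c (T.a (T.c (T.a (T.b (T.b (T.l 1) (T.l 816)) (T.l 816)) (T.l 816)) (T.l 816)) (T.l 816)) (T.l 816)) (T.l 816)) (T.l 816))) (T.a (T.c (T.c (T.a (T.b (T.b (T.b (T.l 1) (T.l 816)) (T.l 816)) (T.l 816))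 (T.l 944)) (T.l 816)) (T.l 816)) (T.l 816))) (T.l 816))) (T.b (T.c (T.a (T.b (T.l 1) (T.a (T.b (T.a (T.l 1) (T.l 944)) (T.l 816)) (T.l 816))) (T.a (T.c (T.c (T.a (T.b (T.b (T.l 1) (T.l 816)) (T.l 816)) (T.l 816)) (T.l 816)) (T.l 816)) (T.l 816))) (T.a (T.c (T.l 816) (T.l 816)) (T.l 816))) (T.l 816))) (T.a (T.l 816) (T.l 816))) (T.a (T.b (T.a (T.b (T.l 1) (T.l 0)) (T.l 0)) (T.l 0)) (T.l 816))) (T.a (T.c (T.c (T.l 816) (T.l 816)) (T.l 816)) (T.l 816)))) (T.a (T.c (T.l 0) (T.l 0)) (T.l 816)))))) (T.a (T.b (T.b (T.b (T.l 0) (T.l 0)) (T.l 0)) (T.b (T.l 0) (T.b (T.l 816) (T.l 816)))) (T.b (T.a (T.b (T.l 0) (T.l 816)) (T.b (T.l 816) (T.b (T.l 816) (T.l 0)))) (T.a (T.b (T.l 816) (T.b (T.l 816) (T.l 0))) (T.b (T.b (T.l 0) (T.l 0)) (T.a (T.l 816) (T.l 816))))))), by decide +kernel⟩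

def B012E_110 :
    ∃ t, chk3 (onCell 0 44739242 0 1073741824 587336777 62277027 (corT true 1 c0B cB012E gB1q0 gB1q2 gB0q1 gB1q1 true false)) t 1 1 1 = true :=
  ⟨(T.b (T.b (T.l 1) (T.b (T.l 1) (T.b (T.l 1) (T.b (T.a (T.l 1) (T.b (T.l 1) (T.a (T.l 1) (T.l 816)))) (T.a (T.a (T.c (T.l 0) (T.l 0)) (T.l 0)) (T.l 816)))))) (T.a (T.b (T.b (T.b (T.l 0) (T.l 0)) (T.l 0)) (T.b (T.l 0) (T.l 816))) (T.b (T.a (T.b (T.l 0) (T.l 816)) (T.b (T.l 0) (T.b (T.l 816) (T.l 0)))) (T.a (T.b (T.l 816) (T.a (T.l 816) (T.l 0))) (T.b (T.b (T.l 0) (T.l 0)) (T.b (T.l 0) (T.l 0))))))), by decide +kernel⟩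

def B012E_120 :
    ∃ t, chk3 (onCell 0 53687091 0 1073741824 587336777 62277027 (corT true 1 c0B cB012E gB1q0 gB2q2 gB0q1 gB1q1 true false)) t 1 1 1 = true :=
  ⟨(T.b (T.b (T.l 1) (T.l 1)) (T.a (T.b (T.b (T.b (T.l 0) (T.l 0)) (T.l 0)) (T.b (T.l 0) (T.l 816))) (T.b (T.a (T.b (T.l 0) (T.l 816)) (T.b (T.b (T.l 816) (T.l 0)) (T.b (T.l 0) (T.l 0)))) (T.a (T.b (T.b (T.l 816) (T.l 0)) (T.b (T.l 0) (T.l 0))) (T.b (T.b (T.l 0) (T.l 0)) (T.b (T.l 0) (T.l 0))))))), by decide +kernel⟩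

def B012E_130 :
    ∃ t, chk3 (onCell 0 67108864 0 1073741824 587336777 62277027 (corT true 1 c0B cB012E gB1q0 gB3q2 gB0q1 gB1q1 true false)) t 1 1 1 = true :=
  ⟨(T.b (T.l 1) (T.b (T.a (T.b (T.b (T.l 1) (T.l 816)) (T.b (T.l 816) (T.l 816))) (T.b (T.a (T.b (T.l 1) (T.l 816)) (T.b (T.l 1) (T.b (T.l 0) (T.l 0)))) (T.a (T.a (T.l 816) (T.b (T.l 816) (T.l 816))) (T.b (T.l 0) (T.l 0))))) (T.b (T.a (T.l 0) (T.a (T.b (T.l 0) (T.l 0)) (T.b (T.l 0) (T.l 0)))) (T.a (T.a (T.l 816) (T.a (T.l 816) (T.l 0))) (T.a (T.b (T.l 0) (T.l 0)) (T.b (T.l 0) (T.l 0))))))), by decide +kernel⟩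

def B012E_140 :
    ∃ t, chk3 (onCell 0 67108864 0 1073741824 587336777 62277027 (corT true 1 c0B cB012E gB1q0 gB4q2 gB0q1 gB1q1 true false)) t 1 1 1 = true :=
  ⟨(T.b (T.l 1) (T.b (T.b (T.l 1) (T.l 1)) (T.b (T.a (T.l 816) (T.a (T.a (T.b (T.l 816) (T.l 816)) (T.l 880)) (T.b (T.l 816) (T.l 816)))) (T.a (T.a (T.l 816) (T.a (T.l 816) (T.l 816))) (T.a (T.b (T.l 816) (T.l 816)) (T.l 816)))))), by decide +kernel⟩

def B012E_200 :
    ∃ t, chk3 (onCell 0 33554432 0 1073741824 587336777 62277027 (corT true 1 c0B cB012E gB2q0 gB0q2 gB0q1 gB1q1 true false)) t 1 1 1 = true :=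
  ⟨(T.b (T.b (T.l 1) (T.b (T.b (T.l 1) (T.b (T.l 1) (T.b (T.l 1) (T.b (T.l 1) (T.a (T.l 816) (T.l 816)))))) (T.b (T.a (T.b (T.l 816) (T.l 816)) (T.l 816)) (T.l 816)))) (T.b (T.b (T.l 816) (T.l 816)) (T.a (T.l 0) (T.a (T.l 816) (T.b (T.l 816) (T.l 816)))))), by decide +kernel⟩

def B012E_210 :
    ∃ t, chk3 (onCell 0 44739242 0 1073741824 587336777 62277027 (corT true 1 c0B cB012E gB2q0 gB1q2 gB0q1 gB1q1 true false)) t 1 1 1 = true :=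
  ⟨(T.b (T.b (T.l 1) (T.b (T.l 1) (T.b (T.a (T.b (T.l 816) (T.l 816)) (T.l 944)) (T.l 816)))) (T.a (T.b (T.b (T.l 816) (T.l 816)) (T.l 0)) (T.b (T.a (T.l 816) (T.b (T.l 816) (T.l 0))) (T.a (T.b (T.l 816) (T.l 0)) (T.b (T.l 0) (T.l 0)))))), by decide +kernel⟩

def B012E_220 :
    ∃ t, chk3 (onCell 0 53687091 0 1073741824 587336777 62277027 (corT true 1 c0B cB012E gB2q0 gB2q2 gB0q1 gB1q1 true false)) t 1 1 1 = true :=
  ⟨(T.b (T.b (T.l 1) (T.b (T.l 1) (T.b (T.b (T.l 1) (T.l 816)) (T.l 816)))) (T.a (T.b (T.b (T.l 816) (T.l 816)) (T.l 0)) (T.b (T.a (T.l 816) (T.b (T.l 0) (T.l 0))) (T.a (T.b (T.l 0) (T.l 0)) (T.b (T.l 0) (T.l 0)))))), by decide +kernel⟩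

def B012E_230 :
    ∃ t, chk3 (onCell 0 53687091 0 1073741824 587336777 62277027 (corT true 1 c0B cB012E gB2q0 gB3q2 gB0q1 gB1q1 true false)) t 1 1 1 = true :=
  ⟨(T.b (T.b (T.l 1) (T.b (T.l 1) (T.b (T.l 1) (T.l 816)))) (T.a (T.b (T.b (T.l 816) (T.l 816)) (T.l 0)) (T.b (T.a (T.l 816) (T.b (T.l 0) (T.l 0))) (T.a (T.b (T.l 0) (T.l 0)) (T.b (T.l 816) (T.l 816)))))), by decide +kernel⟩

def B012E_240 :
    ∃ t, chk3 (onCell 0 67108864 0 1073741824 587336777 62277027 (corT true 1 c0B cB012E gB2q0 gB4q2 gB0q1 gB1q1 true false)) t 1 1 1 = true :=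
  ⟨(T.b (T.l 1) (T.b (T.b (T.a (T.l 816) (T.l 1)) (T.a (T.l 816) (T.a (T.l 816) (T.l 816)))) (T.a (T.a (T.l 816) (T.a (T.l 816) (T.l 816))) (T.a (T.b (T.l 816) (T.l 816)) (T.b (T.l 816) (T.l 816)))))), by decide +kernel⟩

def B012E_300 :
    ∃ t, chk3 (onCell 0 33554432 0 1073741824 587336777 62277027 (corT true 1 c0B cB012E gB3q0 gB0q2 gB0q1 gB1q1 true false)) t 1 1 1 = true :=
  ⟨(T.b (T.b (T.l 1) (T.b (T.b (T.b (T.l 1) (T.l 816)) (T.l 816)) (T.l 816))) (T.b (T.b (T.l 816) (T.l 816)) (T.a (T.l 816) (T.a (T.l 816) (T.l 0))))), by decide +kernel⟩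

def B012E_310 :
    ∃ t, chk3 (onCell 0 33554432 0 1073741824 587336777 62277027 (corT true 1 c0B cB012E gB3q0 gB1q2 gB0q1 gB1q1 true false)) t 1 1 1 = true :=
  ⟨(T.b (T.b (T.l 1) (T.b (T.b (T.b (T.l 1) (T.l 816)) (T.l 816)) (T.l 816))) (T.b (T.b (T.l 816) (T.l 816)) (T.a (T.l 816) (T.a (T.l 816) (T.b (T.l 816) (T.l 816)))))), by decide +kernel⟩

def B012E_320 :
    ∃ t, chk3 (onCell 0 44739242 0 1073741824 587336777 62277027 (corT true 1 c0B cB012E gB3q0 gB2q2 gB0q1 gB1q1 true false)) t 1 1 1 = true :=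
  ⟨(T.b (T.b (T.l 1) (T.b (T.b (T.l 1) (T.l 816)) (T.l 816))) (T.a (T.b (T.l 816) (T.l 816)) (T.b (T.a (T.l 816) (T.b (T.l 816) (T.l 816))) (T.a (T.b (T.l 816) (T.l 816)) (T.l 0))))), by decide +kernel⟩

def B012E_330 :
    ∃ t, chk3 (onCell 0 53687091 0 1073741824 587336777 62277027 (corT true 1 c0B cB012E gB3q0 gB3q2 gB0q1 gB1q1 true false)) t 1 1 1 = true :=
  ⟨(T.b (T.b (T.l 1) (T.b (T.b (T.l 1) (T.b (T.l 1) (T.l 816))) (T.b (T.l 816) (T.l 816)))) (T.a (T.b (T.l 816) (T.l 816)) (T.b (T.a (T.l 816) (T.b (T.l 816) (T.l 816))) (T.a (T.b (T.l 816) (T.l 816)) (T.l 0))))), by decide +kernel⟩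

def B012E_340 :
    ∃ t, chk3 (onCell 0 67108864 0 1073741824 587336777 62277027 (corT true 1 c0B cB012E gB3q0 gB4q2 gB0q1 gB1q1 true false)) t 1 1 1 = true :=
  ⟨(T.b (T.b (T.l 1) (T.b (T.l 1) (T.a (T.l 816) (T.a (T.l 816) (T.b (T.l 1) (T.l 816)))))) (T.b (T.a (T.l 816) (T.b (T.b (T.l 816) (T.l 816)) (T.b (T.l 816) (T.l 816)))) (T.a (T.a (T.l 816) (T.b (T.l 816) (T.l 816))) (T.a (T.b (T.l 816) (T.l 816)) (T.l 816))))), by decide +kernel⟩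

def B012E_400 :
    ∃ t, chk3 (onCell 0 26843545 0 1073741824 587336777 62277027 (corT true 1 c0B cB012E gB4q0 gB0q2 gB0q1 gB1q1 true false)) t 1 1 1 = true :=
  ⟨(T.b (T.b (T.b (T.b (T.l 1) (T.b (T.l 1) (T.l 816))) (T.l 816)) (T.b (T.l 816) (T.l 816))) (T.b (T.l 816) (T.l 816))), by decide +kernel⟩

def B012E_410 :
    ∃ t, chk3 (onCell 0 26843545 0 1073741824 587336777 62277027 (corT true 1 c0B cB012E gB4q0 gB1q2 gB0q1 gB1q1 true false)) t 1 1 1 = true :=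
  ⟨(T.b (T.b (T.b (T.b (T.l 1) (T.b (T.l 1) (T.l 816))) (T.l 816)) (T.l 816)) (T.b (T.l 816) (T.l 816))), by decide +kernel⟩

def B012E_420 :
    ∃ t, chk3 (onCell 0 33554432 0 1073741824 587336777 62277027 (corT true 1 c0B cB012E gB4q0 gB2q2 gB0q1 gB1q1 true false)) t 1 1 1 = true :=
  ⟨(T.b (T.b (T.b (T.b (T.l 1) (T.b (T.l 1) (T.l 816))) (T.b (T.l 816) (T.l 816))) (T.b (T.l 816) (T.l 816))) (T.b (T.l 816) (T.a (T.l 816) (T.b (T.l 816) (T.l 0))))), by decide +kernel⟩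

def B012E_430 :
    ∃ t, chk3 (onCell 0 33554432 0 1073741824 587336777 62277027 (corT true 1 c0B cB012E gB4q0 gB3q2 gB0q1 gB1q1 true false)) t 1 1 1 = true :=
  ⟨(T.b (T.b (T.b (T.b (T.l 1) (T.l 1)) (T.b (T.l 816) (T.l 816))) (T.b (T.l 816) (T.l 816))) (T.b (T.l 816) (T.a (T.l 816) (T.b (T.l 816) (T.l 0))))), by decide +kernel⟩

def B012E_440 :
    ∃ t, chk3 (onCell 0 53687091 0 1073741824 587336777 62277027 (corT true 1 c0B cB012E gB4q0 gB4q2 gB0q1 gB1q1 true false)) t 1 1 1 = true :=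
  ⟨(T.b (T.b (T.b (T.l 1) (T.a (T.l 816) (T.a (T.l 816) (T.b (T.l 816) (T.l 816))))) (T.a (T.l 816) (T.a (T.l 816) (T.l 816)))) (T.a (T.b (T.l 816) (T.l 816)) (T.b (T.b (T.l 816) (T.l 816)) (T.b (T.l 816) (T.l 816))))), by decide +kernel⟩

def B012L_070 :
    ∃ t, chk3 (onCell 0 67108864 0 1073741824 587336777 62277027 (corT true 1 c0B cB012L gB0q0 gB7q2 gB0q1 gB1q1 true false)) t 1 1 1 = true :=
  ⟨(T.l 1), by decide +kernel⟩

def B012L_170 :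
    ∃ t, chk3 (onCell 0 67108864 0 1073741824 587336777 62277027 (corT true 1 c0B cB012L gB1q0 gB7q2 gB0q1 gB1q1 true false)) t 1 1 1 = true :=
  ⟨(T.l 1), by decide +kernel⟩

def B012L_270 :
    ∃ t, chk3 (onCell 0 67108864 0 1073741824 587336777 62277027 (corT true 1 c0B cB012L gB2q0 gB7q2 gB0q1 gB1q1 true false)) t 1 1 1 = true :=
  ⟨(T.l 1), by decide +kernel⟩

def B012L_370 :
    ∃ t, chk3 (onCell 0 67108864 0 1073741824 587336777 62277027 (corT true 1 c0B cB012L gB3q0 gB7q2 gB0q1 gB1q1 true false)) t 1 1 1 = true :=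
  ⟨(T.l 1), by decide +kernel⟩

def B012L_470 :
    ∃ t, chk3 (onCell 0 67108864 0 1073741824 587336777 62277027 (corT true 1 c0B cB012L gB4q0 gB7q2 gB0q1 gB1q1 true false)) t 1 1 1 = true :=
  ⟨(T.l 1), by decide +kernel⟩

def B012R_004 :
    ∃ t, chk3 (onCell 0 67108864 0 1073741824 587336777 62277027 (corT true 1 c0B cB012R gB0q0 gB0q2 gB4q1 gB5q1 false true)) t 1 1 1 = true :=
  ⟨(T.b (T.b (T.b (T.a (T.l 204) (T.b (T.l 204) (T.l 204))) (T.l 204)) (T.b (T.l 204) (T.a (T.l 204) (T.a (T.l 204) (T.l 0))))) (T.b (T.a (T.l 0) (T.a (T.b (T.l 204) (T.l 0)) (T.b (T.l 256) (T.l 0)))) (T.b (T.a (T.l 0) (T.a (T.l 0) (T.l 0))) (T.a (T.a (T.l 0) (T.b (T.l 0) (T.l 0))) (T.a (T.l 0) (T.l 0)))))), by decide +kernel⟩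

def B012R_005 :
    ∃ t, chk3 (onCell 0 67108864 0 1073741824 587336777 62277027 (corT true 1 c0B cB012R gB0q0 gB0q2 gB5q1 gB6q1 true true)) t 1 1 1 = true :=
  ⟨(T.b (T.l 1) (T.l 1)), by decide +kernel⟩

def B012R_006 :
    ∃ t, chk3 (onCell 0 67108864 0 1073741824 587336777 62277027 (corT true 1 c0B cB012R gB0q0 gB0q2 gB6q1 gB7q1 true true)) t 1 1 1 = true :=
  ⟨(T.l 1), by decide +kernel⟩

def B012R_014 :
    ∃ t, chk3 (onCell 0 67108864 0 1073741824 587336777 62277027 (corT true 1 c0B cB012R gB0q0 gB1q2 gB4q1 gB5q1 false true)) t 1 1 1 = true :=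
  ⟨(T.b (T.b (T.b (T.a (T.l 204) (T.l 460)) (T.l 204)) (T.b (T.l 204) (T.a (T.l 204) (T.a (T.l 204) (T.l 0))))) (T.b (T.a (T.l 0) (T.a (T.b (T.l 204) (T.l 0)) (T.b (T.l 0) (T.l 0)))) (T.a (T.a (T.l 0) (T.a (T.l 816) (T.l 0))) (T.a (T.b (T.l 0) (T.l 0)) (T.b (T.l 0) (T.l 0)))))), by decide +kernel⟩

def B012R_015 :
    ∃ t, chk3 (onCell 0 67108864 0 1073741824 587336777 62277027 (corT true 1 c0B cB012R gB0q0 gB1q2 gB5q1 gB6q1 true true)) t 1 1 1 = true :=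
  ⟨(T.b (T.l 1) (T.l 1)), by decide +kernel⟩

def B012R_016 :
    ∃ t, chk3 (onCell 0 67108864 0 1073741824 587336777 62277027 (corT true 1 c0B cB012R gB0q0 gB1q2 gB6q1 gB7q1 true true)) t 1 1 1 = true :=
  ⟨(T.l 1), by decide +kernel⟩

def B012R_024 :
    ∃ t, chk3 (onCell 0 67108864 0 1073741824 587336777 62277027 (corT true 1 c0B cB012R gB0q0 gB2q2 gB4q1 gB5q1 false true)) t 1 1 1 = true :=
  ⟨(T.b (T.b (T.b (T.a (T.l 204) (T.l 204)) (T.l 204)) (T.b (T.l 204) (T.a (T.l 0) (T.b (T.l 204) (T.l 0))))) (T.b (T.a (T.l 0) (T.a (T.b (T.l 0) (T.l 0)) (T.b (T.l 0) (T.l 0)))) (T.a (T.a (T.l 816) (T.a (T.l 816) (T.l 0))) (T.a (T.b (T.l 0) (T.l 0)) (T.b (T.l 0) (T.l 816)))))), by decide +kernel⟩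

def B012R_025 :
    ∃ t, chk3 (onCell 0 67108864 0 1073741824 587336777 62277027 (corT true 1 c0B cB012R gB0q0 gB2q2 gB5q1 gB6q1 true true)) t 1 1 1 = true :=
  ⟨(T.b (T.l 1) (T.l 1)), by decide +kernel⟩

def B012R_026 :
    ∃ t, chk3 (onCell 0 67108864 0 1073741824 587336777 62277027 (corT true 1 c0B cB012R gB0q0 gB2q2 gB6q1 gB7q1 true true)) t 1 1 1 = true :=
  ⟨(T.l 1), by decide +kernel⟩

def B012R_034 :
    ∃ t, chk3 (onCell 0 67108864 0 1073741824 587336777 62277027 (corT true 1 c0B cB012R gB0q0 gB3q2 gB4q1 gB5q1 false true)) t 1 1 1 = true :=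
  ⟨(T.b (T.b (T.b (T.a (T.l 204) (T.l 204)) (T.l 204)) (T.b (T.l 0) (T.a (T.l 0) (T.b (T.l 0) (T.l 0))))) (T.b (T.a (T.l 816) (T.a (T.b (T.l 816) (T.l 0)) (T.b (T.l 0) (T.l 816)))) (T.a (T.a (T.l 816) (T.a (T.l 816) (T.l 0))) (T.a (T.b (T.l 816) (T.l 816)) (T.b (T.l 816) (T.l 816)))))), by decide +kernel⟩

def B012R_035 :
    ∃ t, chk3 (onCell 0 67108864 0 1073741824 587336777 62277027 (corT true 1 c0B cB012R gB0q0 gB3q2 gB5q1 gB6q1 true true)) t 1 1 1 = true :=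
  ⟨(T.b (T.l 1) (T.l 1)), by decide +kernel⟩

def B012R_036 :
    ∃ t, chk3 (onCell 0 67108864 0 1073741824 587336777 62277027 (corT true 1 c0B cB012R gB0q0 gB3q2 gB6q1 gB7q1 true true)) t 1 1 1 = true :=
  ⟨(T.l 1), by decide +kernel⟩

def B012R_044 :
    ∃ t, chk3 (onCell 0 67108864 0 1073741824 587336777 62277027 (corT true 1 c0B cB012R gB0q0 gB4q2 gB4q1 gB5q1 false true)) t 1 1 1 = true :=
  ⟨(T.b (T.a (T.b (T.l 204) (T.l 0)) (T.b (T.b (T.l 204) (T.l 204)) (T.b (T.l 0) (T.b (T.l 816) (T.l 0))))) (T.b (T.a (T.l 816) (T.a (T.b (T.l 816) (T.l 816)) (T.l 0))) (T.a (T.a (T.l 816) (T.a (T.l 816) (T.l 816))) (T.a (T.b (T.l 816) (T.l 816)) (T.l 816))))), by decide +kernel⟩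

def B012R_045 :
    ∃ t, chk3 (onCell 0 67108864 0 1073741824 587336777 62277027 (corT true 1 c0B cB012R gB0q0 gB4q2 gB5q1 gB6q1 true true)) t 1 1 1 = true :=
  ⟨(T.l 1), by decide +kernel⟩

def B012R_046 :
    ∃ t, chk3 (onCell 0 67108864 0 1073741824 587336777 62277027 (corT true 1 c0B cB012R gB0q0 gB4q2 gB6q1 gB7q1 true true)) t 1 1 1 = true :=
  ⟨(T.l 1), by decide +kernel⟩

def B012R_104 :
    ∃ t, chk3 (onCell 0 67108864 0 1073741824 587336777 62277027 (corT true 1 c0B cB012R gB1q0 gB0q2 gB4q1 gB5q1 false true)) t 1 1 1 = true :=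
  ⟨(T.b (T.b (T.l 0) (T.b (T.l 0) (T.a (T.l 0) (T.b (T.l 204) (T.l 0))))) (T.b (T.a (T.l 0) (T.a (T.b (T.l 0) (T.l 0)) (T.b (T.l 0) (T.l 0)))) (T.b (T.a (T.l 0) (T.a (T.l 0) (T.l 0))) (T.a (T.a (T.l 816) (T.b (T.l 816) (T.l 0))) (T.a (T.l 0) (T.l 0)))))), by decide +kernel⟩

def B012R_105 :
    ∃ t, chk3 (onCell 0 67108864 0 1073741824 587336777 62277027 (corT true 1 c0B cB012R gB1q0 gB0q2 gB5q1 gB6q1 true true)) t 1 1 1 = true :=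
  ⟨(T.b (T.b (T.l 1) (T.l 1)) (T.l 1)), by decide +kernel⟩

def B012R_106 :
    ∃ t, chk3 (onCell 0 67108864 0 1073741824 587336777 62277027 (corT true 1 c0B cB012R gB1q0 gB0q2 gB6q1 gB7q1 true true)) t 1 1 1 = true :=
  ⟨(T.b (T.l 1) (T.l 1)), by decide +kernel⟩

def B012R_114 :
    ∃ t, chk3 (onCell 0 67108864 0 1073741824 587336777 62277027 (corT true 1 c0B cB012R gB1q0 gB1q2 gB4q1 gB5q1 false true)) t 1 1 1 = true :=
  ⟨(T.b (T.b (T.l 204) (T.b (T.l 0) (T.a (T.l 0) (T.b (T.l 0) (T.l 0))))) (T.b (T.a (T.l 0) (T.a (T.b (T.l 0) (T.l 0)) (T.b (T.l 0) (T.l 0)))) (T.a (T.a (T.l 816) (T.a (T.l 816) (T.l 0))) (T.a (T.b (T.l 0) (T.l 0)) (T.b (T.l 0) (T.l 0)))))), by decide +kernel⟩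

def B012R_115 :
    ∃ t, chk3 (onCell 0 67108864 0 1073741824 587336777 62277027 (corT true 1 c0B cB012R gB1q0 gB1q2 gB5q1 gB6q1 true true)) t 1 1 1 = true :=
  ⟨(T.b (T.b (T.l 1) (T.l 1)) (T.l 1)), by decide +kernel⟩

def B012R_116 :
    ∃ t, chk3 (onCell 0 67108864 0 1073741824 587336777 62277027 (corT true 1 c0B cB012R gB1q0 gB1q2 gB6q1 gB7q1 true true)) t 1 1 1 = true :=
  ⟨(T.l 1), by decide +kernel⟩

def B012R_124 :
    ∃ t, chk3 (onCell 0 67108864 0 1073741824 587336777 62277027 (corT true 1 c0B cB012R gB1q0 gB2q2 gB4q1 gB5q1 false true)) t 1 1 1 = true :=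
  ⟨(T.b (T.b (T.l 0) (T.b (T.l 0) (T.a (T.l 816) (T.b (T.l 816) (T.l 0))))) (T.b (T.a (T.l 816) (T.a (T.b (T.l 816) (T.l 0)) (T.b (T.l 0) (T.l 816)))) (T.a (T.a (T.l 816) (T.a (T.l 816) (T.l 0))) (T.a (T.b (T.l 816) (T.l 816)) (T.b (T.l 816) (T.l 816)))))), by decide +kernel⟩

def B012R_125 :
    ∃ t, chk3 (onCell 0 67108864 0 1073741824 587336777 62277027 (corT true 1 c0B cB012R gB1q0 gB2q2 gB5q1 gB6q1 true true)) t 1 1 1 = true :=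
  ⟨(T.b (T.b (T.l 1) (T.l 1)) (T.l 1)), by decide +kernel⟩

def B012R_126 :
    ∃ t, chk3 (onCell 0 67108864 0 1073741824 587336777 62277027 (corT true 1 c0B cB012R gB1q0 gB2q2 gB6q1 gB7q1 true true)) t 1 1 1 = true :=
  ⟨(T.l 1), by decide +kernel⟩

def B012R_134 :
    ∃ t, chk3 (onCell 0 67108864 0 1073741824 587336777 62277027 (corT true 1 c0B cB012R gB1q0 gB3q2 gB4q1 gB5q1 false true)) t 1 1 1 = true :=
  ⟨(T.b (T.b (T.l 0) (T.b (T.l 0) (T.a (T.l 816) (T.b (T.l 816) (T.l 0))))) (T.b (T.a (T.l 816) (T.a (T.b (T.l 816) (T.l 816)) (T.b (T.l 816) (T.l 816)))) (T.a (T.a (T.l 816) (T.a (T.l 816) (T.l 816))) (T.a (T.b (T.l 816) (T.l 816)) (T.b (T.l 816) (T.l 816)))))), by decide +kernel⟩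

def B012R_135 :
    ∃ t, chk3 (onCell 0 67108864 0 1073741824 587336777 62277027 (corT true 1 c0B cB012R gB1q0 gB3q2 gB5q1 gB6q1 true true)) t 1 1 1 = true :=
  ⟨(T.b (T.b (T.l 1) (T.l 1)) (T.l 1)), by decide +kernel⟩

def B012R_136 :
    ∃ t, chk3 (onCell 0 67108864 0 1073741824 587336777 62277027 (corT true 1 c0B cB012R gB1q0 gB3q2 gB6q1 gB7q1 true true)) t 1 1 1 = true :=
  ⟨(T.l 1), by decide +kernel⟩

def B012R_144 :
    ∃ t, chk3 (onCell 0 67108864 0 1073741824 587336777 62277027 (corT true 1 c0B cB012R gB1q0 gB4q2 gB4q1 gB5q1 false true)) t 1 1 1 = true :=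
  ⟨(T.b (T.b (T.l 0) (T.b (T.l 816) (T.a (T.l 816) (T.l 64)))) (T.b (T.a (T.l 816) (T.a (T.b (T.l 816) (T.l 816)) (T.l 816))) (T.a (T.a (T.l 816) (T.b (T.l 816) (T.l 816))) (T.a (T.l 880) (T.l 816))))), by decide +kernel⟩

def B012R_145 :
    ∃ t, chk3 (onCell 0 67108864 0 1073741824 587336777 62277027 (corT true 1 c0B cB012R gB1q0 gB4q2 gB5q1 gB6q1 true true)) t 1 1 1 = true :=
  ⟨(T.b (T.l 1) (T.l 1)), by decide +kernel⟩

def B012R_146 :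
    ∃ t, chk3 (onCell 0 67108864 0 1073741824 587336777 62277027 (corT true 1 c0B cB012R gB1q0 gB4q2 gB6q1 gB7q1 true true)) t 1 1 1 = true :=
  ⟨(T.l 1), by decide +kernel⟩

def B012R_204 :
    ∃ t, chk3 (onCell 0 67108864 0 1073741824 587336777 62277027 (corT true 1 c0B cB012R gB2q0 gB0q2 gB4q1 gB5q1 false true)) t 1 1 1 = true :=
  ⟨(T.b (T.b (T.l 0) (T.b (T.l 816) (T.a (T.l 816) (T.b (T.l 816) (T.l 0))))) (T.b (T.a (T.l 816) (T.a (T.b (T.l 816) (T.l 0)) (T.b (T.l 816) (T.l 816)))) (T.b (T.a (T.l 816) (T.a (T.l 816) (T.l 816))) (T.a (T.a (T.l 816) (T.l 0)) (T.a (T.l 816) (T.l 816)))))), by decide +kernel⟩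

def B012R_205 :
    ∃ t, chk3 (onCell 0 67108864 0 1073741824 587336777 62277027 (corT true 1 c0B cB012R gB2q0 gB0q2 gB5q1 gB6q1 true true)) t 1 1 1 = true :=
  ⟨(T.b (T.b (T.l 0) (T.l 1)) (T.l 1)), by decide +kernel⟩

def B012R_206 :
    ∃ t, chk3 (onCell 0 67108864 0 1073741824 587336777 62277027 (corT true 1 c0B cB012R gB2q0 gB0q2 gB6q1 gB7q1 true true)) t 1 1 1 = true :=
  ⟨(T.b (T.b (T.l 0) (T.l 1)) (T.l 1)), by decide +kernel⟩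

def B012R_214 :
    ∃ t, chk3 (onCell 0 67108864 0 1073741824 587336777 62277027 (corT true 1 c0B cB012R gB2q0 gB1q2 gB4q1 gB5q1 false true)) t 1 1 1 = true :=
  ⟨(T.b (T.b (T.l 0) (T.b (T.l 816) (T.a (T.l 816) (T.b (T.l 816) (T.l 0))))) (T.b (T.a (T.l 816) (T.a (T.b (T.l 816) (T.l 816)) (T.b (T.l 816) (T.l 816)))) (T.a (T.a (T.l 816) (T.a (T.l 816) (T.l 816))) (T.a (T.b (T.l 816) (T.l 816)) (T.b (T.l 816) (T.l 816)))))), by decide +kernel⟩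

def B012R_215 :
    ∃ t, chk3 (onCell 0 67108864 0 1073741824 587336777 62277027 (corT true 1 c0B cB012R gB2q0 gB1q2 gB5q1 gB6q1 true true)) t 1 1 1 = true :=
  ⟨(T.b (T.b (T.l 816) (T.l 1)) (T.l 1)), by decide +kernel⟩

def B012R_216 :
    ∃ t, chk3 (onCell 0 67108864 0 1073741824 587336777 62277027 (corT true 1 c0B cB012R gB2q0 gB1q2 gB6q1 gB7q1 true true)) t 1 1 1 = true :=
  ⟨(T.b (T.b (T.l 0) (T.l 1)) (T.l 1)), by decide +kernel⟩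

def B012R_224 :
    ∃ t, chk3 (onCell 0 67108864 0 1073741824 587336777 62277027 (corT true 1 c0B cB012R gB2q0 gB2q2 gB4q1 gB5q1 false true)) t 1 1 1 = true :=
  ⟨(T.b (T.b (T.l 0) (T.b (T.l 816) (T.a (T.l 816) (T.b (T.l 816) (T.l 816))))) (T.b (T.a (T.l 816) (T.a (T.b (T.l 816) (T.l 816)) (T.l 64))) (T.a (T.a (T.l 816) (T.a (T.l 816) (T.l 816))) (T.a (T.b (T.l 816) (T.l 816)) (T.l 880))))), by decide +kernel⟩

def B012R_225 :
    ∃ t, chk3 (onCell 0 67108864 0 1073741824 587336777 62277027 (corT true 1 c0B cB012R gB2q0 gB2q2 gB5q1 gB6q1 true true)) t 1 1 1 = true :=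
  ⟨(T.b (T.b (T.l 816) (T.b (T.l 1) (T.l 1))) (T.l 1)), by decide +kernel⟩

def B012R_226 :
    ∃ t, chk3 (onCell 0 67108864 0 1073741824 587336777 62277027 (corT true 1 c0B cB012R gB2q0 gB2q2 gB6q1 gB7q1 true true)) t 1 1 1 = true :=
  ⟨(T.b (T.b (T.l 0) (T.l 1)) (T.l 1)), by decide +kernel⟩

def B012R_234 :
    ∃ t, chk3 (onCell 0 67108864 0 1073741824 587336777 62277027 (corT true 1 c0B cB012R gB2q0 gB3q2 gB4q1 gB5q1 false true)) t 1 1 1 = true :=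
  ⟨(T.b (T.b (T.l 0) (T.b (T.l 816) (T.a (T.l 816) (T.b (T.l 816) (T.l 816))))) (T.b (T.a (T.l 816) (T.a (T.b (T.l 816) (T.l 816)) (T.l 816))) (T.a (T.a (T.l 816) (T.a (T.l 816) (T.l 816))) (T.a (T.b (T.l 816) (T.l 816)) (T.l 816))))), by decide +kernel⟩

def B012R_235 :
    ∃ t, chk3 (onCell 0 67108864 0 1073741824 587336777 62277027 (corT true 1 c0B cB012R gB2q0 gB3q2 gB5q1 gB6q1 true true)) t 1 1 1 = true :=
  ⟨(T.b (T.b (T.l 816) (T.b (T.l 816) (T.l 1))) (T.l 1)), by decide +kernel⟩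

def B012R_236 :
    ∃ t, chk3 (onCell 0 67108864 0 1073741824 587336777 62277027 (corT true 1 c0B cB012R gB2q0 gB3q2 gB6q1 gB7q1 true true)) t 1 1 1 = true :=
  ⟨(T.b (T.b (T.l 0) (T.l 1)) (T.l 1)), by decide +kernel⟩

def B012R_244 :
    ∃ t, chk3 (onCell 0 67108864 0 1073741824 587336777 62277027 (corT true 1 c0B cB012R gB2q0 gB4q2 gB4q1 gB5q1 false true)) t 1 1 1 = true :=
  ⟨(T.b (T.l 2) (T.b (T.l 2) (T.a (T.l 2) (T.a (T.l 816) (T.l 816))))), by decide +kernel⟩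

def B012R_245 :
    ∃ t, chk3 (onCell 0 67108864 0 1073741824 587336777 62277027 (corT true 1 c0B cB012R gB2q0 gB4q2 gB5q1 gB6q1 true true)) t 1 1 1 = true :=
  ⟨(T.b (T.b (T.l 816) (T.a (T.l 2) (T.b (T.l 816) (T.l 816)))) (T.a (T.b (T.l 2) (T.l 2)) (T.a (T.b (T.l 816) (T.l 816)) (T.b (T.l 816) (T.l 816))))), by decide +kernel⟩

def B012R_246 :
    ∃ t, chk3 (onCell 0 67108864 0 1073741824 587336777 62277027 (corT true 1 c0B cB012R gB2q0 gB4q2 gB6q1 gB7q1 true true)) t 1 1 1 = true :=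
  ⟨(T.b (T.a (T.l 816) (T.a (T.l 816) (T.b (T.l 816) (T.l 0)))) (T.a (T.b (T.l 816) (T.b (T.l 816) (T.b (T.l 816) (T.l 2)))) (T.a (T.b (T.l 816) (T.l 816)) (T.b (T.l 816) (T.l 816))))), by decide +kernel⟩

def B012R_304 :
    ∃ t, chk3 (onCell 0 67108864 0 1073741824 587336777 62277027 (corT true 1 c0B cB012R gB3q0 gB0q2 gB4q1 gB5q1 false true)) t 1 1 1 = true :=
  ⟨(T.b (T.b (T.l 2) (T.b (T.l 816) (T.a (T.l 816) (T.b (T.l 816) (T.l 816))))) (T.b (T.a (T.l 816) (T.a (T.b (T.l 816) (T.l 816)) (T.b (T.l 816) (T.l 816)))) (T.b (T.a (T.l 816) (T.a (T.l 816) (T.l 816))) (T.a (T.a (T.l 816) (T.l 0)) (T.a (T.l 816) (T.l 816)))))), by decide +kernel⟩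

def B012R_305 :
    ∃ t, chk3 (onCell 0 67108864 0 1073741824 587336777 62277027 (corT true 1 c0B cB012R gB3q0 gB0q2 gB5q1 gB6q1 true true)) t 1 1 1 = true :=
  ⟨(T.b (T.b (T.l 816) (T.b (T.l 816) (T.l 1))) (T.l 1)), by decide +kernel⟩

def B012R_306 :
    ∃ t, chk3 (onCell 0 67108864 0 1073741824 587336777 62277027 (corT true 1 c0B cB012R gB3q0 gB0q2 gB6q1 gB7q1 true true)) t 1 1 1 = true :=
  ⟨(T.b (T.b (T.l 816) (T.b (T.l 816) (T.l 1))) (T.l 1)), by decide +kernel⟩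

def B012R_314 :
    ∃ t, chk3 (onCell 0 67108864 0 1073741824 587336777 62277027 (corT true 1 c0B cB012R gB3q0 gB1q2 gB4q1 gB5q1 false true)) t 1 1 1 = true :=
  ⟨(T.b (T.b (T.l 2) (T.a (T.l 816) (T.b (T.l 816) (T.b (T.l 816) (T.l 816))))) (T.b (T.a (T.l 816) (T.a (T.b (T.l 816) (T.l 816)) (T.b (T.l 816) (T.l 816)))) (T.b (T.a (T.l 816) (T.b (T.l 816) (T.l 816))) (T.a (T.a (T.l 816) (T.b (T.l 816) (T.l 816))) (T.a (T.l 816) (T.l 816)))))), by decide +kernel⟩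

def B012R_315 :
    ∃ t, chk3 (onCell 0 67108864 0 1073741824 587336777 62277027 (corT true 1 c0B cB012R gB3q0 gB1q2 gB5q1 gB6q1 true true)) t 1 1 1 = true :=
  ⟨(T.b (T.b (T.l 816) (T.b (T.l 816) (T.a (T.l 816) (T.l 1)))) (T.l 1)), by decide +kernel⟩

def B012R_316 :
    ∃ t, chk3 (onCell 0 67108864 0 1073741824 587336777 62277027 (corT true 1 c0B cB012R gB3q0 gB1q2 gB6q1 gB7q1 true true)) t 1 1 1 = true :=
  ⟨(T.b (T.b (T.l 816) (T.b (T.l 816) (T.l 1))) (T.l 1)), by decide +kernel⟩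

def B012R_324 :
    ∃ t, chk3 (onCell 0 67108864 0 1073741824 587336777 62277027 (corT true 1 c0B cB012R gB3q0 gB2q2 gB4q1 gB5q1 false true)) t 1 1 1 = true :=
  ⟨(T.b (T.b (T.l 2) (T.a (T.l 816) (T.b (T.l 2) (T.b (T.l 816) (T.l 816))))) (T.b (T.a (T.l 816) (T.a (T.b (T.l 816) (T.l 816)) (T.l 816))) (T.a (T.a (T.l 816) (T.b (T.l 816) (T.l 816))) (T.a (T.l 880) (T.l 816))))), by decide +kernel⟩

def B012R_325 :
    ∃ t, chk3 (onCell 0 67108864 0 1073741824 587336777 62277027 (corT true 1 c0B cB012R gB3q0 gB2q2 gB5q1 gB6q1 true true)) t 1 1 1 = true :=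
  ⟨(T.b (T.b (T.l 2) (T.b (T.l 816) (T.a (T.l 816) (T.b (T.l 816) (T.l 816))))) (T.b (T.a (T.l 816) (T.l 1)) (T.l 1))), by decide +kernel⟩

def B012R_326 :
    ∃ t, chk3 (onCell 0 67108864 0 1073741824 587336777 62277027 (corT true 1 c0B cB012R gB3q0 gB2q2 gB6q1 gB7q1 true true)) t 1 1 1 = true :=
  ⟨(T.b (T.b (T.l 816) (T.b (T.l 816) (T.a (T.l 1) (T.l 1)))) (T.l 1)), by decide +kernel⟩

def B012R_334 :
    ∃ t, chk3 (onCell 0 67108864 0 1073741824 587336777 62277027 (corT true 1 c0B cB012R gB3q0 gB3q2 gB4q1 gB5q1 false true)) t 1 1 1 = true :=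
  ⟨(T.b (T.l 2) (T.b (T.a (T.l 816) (T.a (T.b (T.l 816) (T.l 816)) (T.l 816))) (T.b (T.a (T.l 816) (T.b (T.l 816) (T.l 816))) (T.a (T.a (T.l 816) (T.l 816)) (T.b (T.l 816) (T.l 816)))))), by decide +kernel⟩

def B012R_335 :
    ∃ t, chk3 (onCell 0 67108864 0 1073741824 587336777 62277027 (corT true 1 c0B cB012R gB3q0 gB3q2 gB5q1 gB6q1 true true)) t 1 1 1 = true :=
  ⟨(T.b (T.b (T.l 2) (T.a (T.l 816) (T.b (T.l 816) (T.b (T.l 816) (T.l 816))))) (T.b (T.a (T.l 816) (T.a (T.b (T.l 816) (T.l 1)) (T.l 816))) (T.l 1))), by decide +kernel⟩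

def B012R_336 :
    ∃ t, chk3 (onCell 0 67108864 0 1073741824 587336777 62277027 (corT true 1 c0B cB012R gB3q0 gB3q2 gB6q1 gB7q1 true true)) t 1 1 1 = true :=
  ⟨(T.b (T.b (T.l 816) (T.b (T.l 816) (T.a (T.l 816) (T.b (T.l 816) (T.l 816))))) (T.b (T.a (T.l 816) (T.l 1)) (T.l 1))), by decide +kernel⟩

def B012R_344 :
    ∃ t, chk3 (onCell 0 67108864 0 1073741824 587336777 62277027 (corT true 1 c0B cB012R gB3q0 gB4q2 gB4q1 gB5q1 false true)) t 1 1 1 = true :=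
  ⟨(T.l 2), by decide +kernel⟩

def B012R_345 :
    ∃ t, chk3 (onCell 0 67108864 0 1073741824 587336777 62277027 (corT true 1 c0B cB012R gB3q0 gB4q2 gB5q1 gB6q1 true true)) t 1 1 1 = true :=
  ⟨(T.l 2), by decide +kernel⟩

def B012R_346 :
    ∃ t, chk3 (onCell 0 67108864 0 1073741824 587336777 62277027 (corT true 1 c0B cB012R gB3q0 gB4q2 gB6q1 gB7q1 true true)) t 1 1 1 = true :=
  ⟨(T.b (T.l 2) (T.l 2)), by decide +kernel⟩

def B012R_404 :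
    ∃ t, chk3 (onCell 0 67108864 0 1073741824 587336777 62277027 (corT true 1 c0B cB012R gB4q0 gB0q2 gB4q1 gB5q1 false true)) t 1 1 1 = true :=
  ⟨(T.b (T.l 2) (T.b (T.a (T.l 816) (T.a (T.l 816) (T.b (T.l 816) (T.l 816)))) (T.b (T.a (T.l 816) (T.a (T.l 816) (T.l 816))) (T.a (T.a (T.l 816) (T.l 816)) (T.a (T.l 816) (T.l 816)))))), by decide +kernel⟩

def B012R_405 :
    ∃ t, chk3 (onCell 0 67108864 0 1073741824 587336777 62277027 (corT true 1 c0B cB012R gB4q0 gB0q2 gB5q1 gB6q1 true true)) t 1 1 1 = true :=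
  ⟨(T.b (T.l 2) (T.b (T.a (T.l 816) (T.a (T.l 816) (T.b (T.l 816) (T.l 816)))) (T.a (T.b (T.l 816) (T.l 1)) (T.l 1)))), by decide +kernel⟩

def B012R_406 :
    ∃ t, chk3 (onCell 0 67108864 0 1073741824 587336777 62277027 (corT true 1 c0B cB012R gB4q0 gB0q2 gB6q1 gB7q1 true true)) t 1 1 1 = true :=
  ⟨(T.b (T.b (T.l 2) (T.l 2)) (T.b (T.a (T.l 816) (T.a (T.l 816) (T.b (T.l 816) (T.l 1)))) (T.a (T.b (T.l 816) (T.l 1)) (T.l 1)))), by decide +kernel⟩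

def B012R_414 :
    ∃ t, chk3 (onCell 0 67108864 0 1073741824 587336777 62277027 (corT true 1 c0B cB012R gB4q0 gB1q2 gB4q1 gB5q1 false true)) t 1 1 1 = true :=
  ⟨(T.b (T.l 2) (T.b (T.a (T.l 2) (T.a (T.b (T.l 2) (T.l 816)) (T.l 816))) (T.b (T.a (T.l 816) (T.b (T.l 816) (T.l 816))) (T.a (T.a (T.l 816) (T.l 816)) (T.b (T.l 816) (T.l 816)))))), by decide +kernel⟩

def B012R_415 :
    ∃ t, chk3 (onCell 0 67108864 0 1073741824 587336777 62277027 (corT true 1 c0B cB012R gB4q0 gB1q2 gB5q1 gB6q1 true true)) t 1 1 1 = true :=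
  ⟨(T.b (T.l 2) (T.b (T.a (T.l 816) (T.a (T.b (T.l 2) (T.l 816)) (T.l 816))) (T.b (T.a (T.l 816) (T.b (T.l 816) (T.l 1))) (T.a (T.l 1) (T.l 1))))), by decide +kernel⟩

def B012R_416 :
    ∃ t, chk3 (onCell 0 67108864 0 1073741824 587336777 62277027 (corT true 1 c0B cB012R gB4q0 gB1q2 gB6q1 gB7q1 true true)) t 1 1 1 = true :=
  ⟨(T.b (T.l 2) (T.b (T.a (T.l 816) (T.a (T.b (T.l 816) (T.l 816)) (T.l 816))) (T.a (T.b (T.l 816) (T.l 1)) (T.l 1)))), by decide +kernel⟩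

def B012R_424 :
    ∃ t, chk3 (onCell 0 67108864 0 1073741824 587336777 62277027 (corT true 1 c0B cB012R gB4q0 gB2q2 gB4q1 gB5q1 false true)) t 1 1 1 = true :=
  ⟨(T.b (T.l 2) (T.b (T.l 2) (T.b (T.a (T.l 2) (T.l 880)) (T.a (T.a (T.l 816) (T.l 816)) (T.b (T.l 816) (T.l 816)))))), by decide +kernel⟩

def B012R_425 :
    ∃ t, chk3 (onCell 0 67108864 0 1073741824 587336777 62277027 (corT true 1 c0B cB012R gB4q0 gB2q2 gB5q1 gB6q1 true true)) t 1 1 1 = true :=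
  ⟨(T.b (T.l 2) (T.b (T.l 2) (T.a (T.b (T.l 2) (T.a (T.l 816) (T.l 816))) (T.a (T.l 816) (T.l 816))))), by decide +kernel⟩

def B012R_426 :
    ∃ t, chk3 (onCell 0 67108864 0 1073741824 587336777 62277027 (corT true 1 c0B cB012R gB4q0 gB2q2 gB6q1 gB7q1 true true)) t 1 1 1 = true :=
  ⟨(T.b (T.l 2) (T.b (T.a (T.l 2) (T.l 2)) (T.a (T.b (T.l 2) (T.a (T.l 816) (T.l 816))) (T.a (T.l 816) (T.l 816))))), by decide +kernel⟩

def B012R_434 :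
    ∃ t, chk3 (onCell 0 67108864 0 1073741824 587336777 62277027 (corT true 1 c0B cB012R gB4q0 gB3q2 gB4q1 gB5q1 false true)) t 1 1 1 = true :=
  ⟨(T.l 2), by decide +kernel⟩

def B012R_435 :
    ∃ t, chk3 (onCell 0 67108864 0 1073741824 587336777 62277027 (corT true 1 c0B cB012R gB4q0 gB3q2 gB5q1 gB6q1 true true)) t 1 1 1 = true :=
  ⟨(T.l 2), by decide +kernel⟩

def B012R_436 :
    ∃ t, chk3 (onCell 0 67108864 0 1073741824 587336777 62277027 (corT true 1 c0B cB012R gB4q0 gB3q2 gB6q1 gB7q1 true true)) t 1 1 1 = true :=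
  ⟨(T.l 2), by decide +kernel⟩

def B012R_444 :
    ∃ t, chk3 (onCell 0 67108864 0 1073741824 587336777 62277027 (corT true 1 c0B cB012R gB4q0 gB4q2 gB4q1 gB5q1 false true)) t 1 1 1 = true :=
  ⟨(T.l 2), by decide +kernel⟩

def B012R_445 :
    ∃ t, chk3 (onCell 0 67108864 0 1073741824 587336777 62277027 (corT true 1 c0B cB012R gB4q0 gB4q2 gB5q1 gB6q1 true true)) t 1 1 1 = true :=
  ⟨(T.l 2), by decide +kernel⟩

def B012R_446 :
    ∃ t, chk3 (onCell 0 67108864 0 1073741824 587336777 62277027 (corT true 1 c0B cB012R gB4q0 gB4q2 gB6q1 gB7q1 true true)) t 1 1 1 = true :=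
  ⟨(T.l 2), by decide +kernel⟩

def B022E_000 :
    ∃ t, chk3 (onCell 0 67108864 0 1073741824 587336777 62277027 (corT true 1 c0B cB022E gB0q0 gB0q2 gB0q2 gB1q2 true true)) t 1 1 1 = true :=
  ⟨(T.l 2), by decide +kernel⟩

def B022E_001 :
    ∃ t, chk3 (onCell 0 67108864 0 1073741824 587336777 62277027 (corT true 1 c0B cB022E gB0q0 gB0q2 gB1q2 gB2q2 true true)) t 1 1 1 = true :=
  ⟨(T.l 2), by decide +kernel⟩

def B022E_002 :
    ∃ t, chk3 (onCell 0 67108864 0 1073741824 587336777 62277027 (corT true 1 c0B cB022E gB0q0 gB0q2 gB2q2 gB3q2 true true)) t 1 1 1 = true :=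
  ⟨(T.l 2), by decide +kernel⟩

def B022E_003 :
    ∃ t, chk3 (onCell 0 67108864 0 1073741824 587336777 62277027 (corT true 1 c0B cB022E gB0q0 gB0q2 gB3q2 gB4q2 true true)) t 1 1 1 = true :=
  ⟨(T.l 2), by decide +kernel⟩

def B022E_004 :
    ∃ t, chk3 (onCell 0 67108864 0 1073741824 587336777 62277027 (corT true 1 c0B cB022E gB0q0 gB0q2 gB4q2 gB5q2 true false)) t 1 1 1 = true :=
  ⟨(T.b (T.a (T.a (T.b (T.l 204) (T.l 204)) (T.a (T.l 204) (T.b (T.b (T.l 204) (T.l 204)) (T.l 204)))) (T.a (T.b (T.a (T.b (T.l 204) (T.l 204)) (T.b (T.l 204) (T.l 204))) (T.a (T.l 204) (T.l 0))) (T.b (T.a (T.l 204) (T.l 204)) (T.b (T.l 204) (T.l 0))))) (T.a (T.a (T.b (T.l 0) (T.b (T.l 0) (T.c (T.l 816) (T.l 816)))) (T.a (T.b (T.l 0) (T.l 816)) (T.b (T.l 0) (T.l 0)))) (T.b (T.a (T.l 4) (T.b (T.l 0) (T.l 0))) (T.a (T.a (T.l 0) (T.l 0)) (T.b (T.l 0) (T.l 0)))))), by decide +kernel⟩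

def B022E_010 :
    ∃ t, chk3 (onCell 0 67108864 0 1073741824 587336777 62277027 (corT true 1 c0B cB022E gB0q0 gB1q2 gB0q2 gB1q2 true true)) t 1 1 1 = true :=
  ⟨(T.l 2), by decide +kernel⟩

def B022E_011 :
    ∃ t, chk3 (onCell 0 67108864 0 1073741824 587336777 62277027 (corT true 1 c0B cB022E gB0q0 gB1q2 gB1q2 gB2q2 true true)) t 1 1 1 = true :=
  ⟨(T.l 2), by decide +kernel⟩

def B022E_012 :
    ∃ t, chk3 (onCell 0 67108864 0 1073741824 587336777 62277027 (corT true 1 c0B cB022E gB0q0 gB1q2 gB2q2 gB3q2 true true)) t 1 1 1 = true :=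
  ⟨(T.l 2), by decide +kernel⟩

def B022E_013 :
    ∃ t, chk3 (onCell 0 67108864 0 1073741824 587336777 62277027 (corT true 1 c0B cB022E gB0q0 gB1q2 gB3q2 gB4q2 true true)) t 1 1 1 = true :=
  ⟨(T.l 2), by decide +kernel⟩

def B022E_014 :
    ∃ t, chk3 (onCell 0 67108864 0 1073741824 587336777 62277027 (corT true 1 c0B cB022E gB0q0 gB1q2 gB4q2 gB5q2 true false)) t 1 1 1 = true :=
  ⟨(T.b (T.a (T.a (T.l 204) (T.a (T.l 204) (T.b (T.a (T.l 204) (T.l 204)) (T.l 204)))) (T.a (T.b (T.a (T.b (T.l 204) (T.l 204)) (T.b (T.l 204) (T.l 204))) (T.a (T.l 204) (T.l 16))) (T.b (T.a (T.l 204) (T.l 204)) (T.b (T.l 220) (T.l 0))))) (T.a (T.a (T.b (T.l 0) (T.l 0)) (T.a (T.l 4) (T.b (T.l 0) (T.b (T.l 0) (T.l 816))))) (T.b (T.a (T.l 0) (T.b (T.l 0) (T.l 0))) (T.a (T.a (T.l 0) (T.l 0)) (T.b (T.l 0) (T.l 0)))))), by decide +kernel⟩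

def B022E_020 :
    ∃ t, chk3 (onCell 0 67108864 0 1073741824 587336777 62277027 (corT true 1 c0B cB022E gB0q0 gB2q2 gB0q2 gB1q2 true true)) t 1 1 1 = true :=
  ⟨(T.l 2), by decide +kernel⟩

def B022E_021 :
    ∃ t, chk3 (onCell 0 67108864 0 1073741824 587336777 62277027 (corT true 1 c0B cB022E gB0q0 gB2q2 gB1q2 gB2q2 true true)) t 1 1 1 = true :=
  ⟨(T.l 2), by decide +kernel⟩

def B022E_022 :
    ∃ t, chk3 (onCell 0 67108864 0 1073741824 587336777 62277027 (corT true 1 c0B cB022E gB0q0 gB2q2 gB2q2 gB3q2 true true)) t 1 1 1 = true :=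
  ⟨(T.l 2), by decide +kernel⟩

def B022E_023 :
    ∃ t, chk3 (onCell 0 67108864 0 1073741824 587336777 62277027 (corT true 1 c0B cB022E gB0q0 gB2q2 gB3q2 gB4q2 true true)) t 1 1 1 = true :=
  ⟨(T.l 2), by decide +kernel⟩

def B022E_024 :
    ∃ t, chk3 (onCell 0 67108864 0 1073741824 587336777 62277027 (corT true 1 c0B cB022E gB0q0 gB2q2 gB4q2 gB5q2 true false)) t 1 1 1 = true :=
  ⟨(T.b (T.a (T.a (T.l 204) (T.a (T.l 204) (T.b (T.a (T.l 204) (T.l 204)) (T.l 204)))) (T.a (T.b (T.a (T.b (T.l 204) (T.l 204)) (T.b (T.l 204) (T.l 204))) (T.a (T.l 204) (T.l 16))) (T.b (T.a (T.l 204) (T.l 220)) (T.b (T.l 204) (T.l 204))))) (T.a (T.a (T.l 0) (T.a (T.l 0) (T.l 0))) (T.b (T.a (T.l 0) (T.b (T.l 0) (T.l 0))) (T.a (T.l 0) (T.l 0))))), by decide +kernel⟩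

def B022E_030 :
    ∃ t, chk3 (onCell 0 67108864 0 1073741824 587336777 62277027 (corT true 1 c0B cB022E gB0q0 gB3q2 gB0q2 gB1q2 true true)) t 1 1 1 = true :=
  ⟨(T.l 2), by decide +kernel⟩

def B022E_031 :
    ∃ t, chk3 (onCell 0 67108864 0 1073741824 587336777 62277027 (corT true 1 c0B cB022E gB0q0 gB3q2 gB1q2 gB2q2 true true)) t 1 1 1 = true :=
  ⟨(T.l 2), by decide +kernel⟩

def B022E_032 :
    ∃ t, chk3 (onCell 0 67108864 0 1073741824 587336777 62277027 (corT true 1 c0B cB022E gB0q0 gB3q2 gB2q2 gB3q2 true true)) t 1 1 1 = true :=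
  ⟨(T.l 2), by decide +kernel⟩

def B022E_033 :
    ∃ t, chk3 (onCell 0 67108864 0 1073741824 587336777 62277027 (corT true 1 c0B cB022E gB0q0 gB3q2 gB3q2 gB4q2 true true)) t 1 1 1 = true :=
  ⟨(T.l 2), by decide +kernel⟩

def B022E_034 :
    ∃ t, chk3 (onCell 0 67108864 0 1073741824 587336777 62277027 (corT true 1 c0B cB022E gB0q0 gB3q2 gB4q2 gB5q2 true false)) t 1 1 1 = true :=
  ⟨(T.b (T.a (T.a (T.l 204) (T.a (T.l 204) (T.b (T.a (T.l 204) (T.l 204)) (T.l 204)))) (T.b (T.a (T.a (T.b (T.l 204) (T.l 204)) (T.b (T.l 204) (T.l 204))) (T.a (T.b (T.l 204) (T.l 204)) (T.b (T.l 204) (T.l 204)))) (T.a (T.a (T.l 204) (T.b (T.l 204) (T.l 204))) (T.b (T.l 204) (T.l 204))))) (T.b (T.a (T.a (T.l 0) (T.a (T.l 0) (T.l 0))) (T.a (T.l 0) (T.b (T.l 0) (T.l 0)))) (T.a (T.a (T.l 0) (T.a (T.l 0) (T.l 0))) (T.a (T.l 0) (T.l 0))))), by decide +kernel⟩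

def B022E_040 :
    ∃ t, chk3 (onCell 0 67108864 0 1073741824 587336777 62277027 (corT true 1 c0B cB022E gB0q0 gB4q2 gB0q2 gB1q2 true true)) t 1 1 1 = true :=
  ⟨(T.l 2), by decide +kernel⟩

def B022E_041 :
    ∃ t, chk3 (onCell 0 67108864 0 1073741824 587336777 62277027 (corT true 1 c0B cB022E gB0q0 gB4q2 gB1q2 gB2q2 true true)) t 1 1 1 = true :=
  ⟨(T.l 2), by decide +kernel⟩

def B022E_042 :
    ∃ t, chk3 (onCell 0 67108864 0 1073741824 587336777 62277027 (corT true 1 c0B cB022E gB0q0 gB4q2 gB2q2 gB3q2 true true)) t 1 1 1 = true :=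
  ⟨(T.l 2), by decide +kernel⟩

def B022E_043 :
    ∃ t, chk3 (onCell 0 67108864 0 1073741824 587336777 62277027 (corT true 1 c0B cB022E gB0q0 gB4q2 gB3q2 gB4q2 true true)) t 1 1 1 = true :=
  ⟨(T.l 2), by decide +kernel⟩

def B022E_044 :
    ∃ t, chk3 (onCell 0 67108864 0 1073741824 587336777 62277027 (corT true 1 c0B cB022E gB0q0 gB4q2 gB4q2 gB5q2 true false)) t 1 1 1 = true :=
  ⟨(T.b (T.b (T.a (T.a (T.l 204) (T.a (T.l 204) (T.b (T.l 204) (T.l 204)))) (T.a (T.a (T.b (T.l 204) (T.l 204)) (T.b (T.l 204) (T.l 204))) (T.a (T.l 204) (T.l 204)))) (T.a (T.a (T.l 204) (T.l 256)) (T.a (T.a (T.l 204) (T.l 0)) (T.b (T.l 204) (T.l 204))))) (T.b (T.b (T.a (T.a (T.l 204) (T.l 0)) (T.a (T.l 0) (T.l 0))) (T.a (T.a (T.l 0) (T.l 0)) (T.l 0))) (T.a (T.a (T.l 816) (T.a (T.l 816) (T.l 0))) (T.a (T.b (T.l 0) (T.l 816)) (T.l 0))))), by decide +kernel⟩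

def B022E_100 :
    ∃ t, chk3 (onCell 0 67108864 0 1073741824 587336777 62277027 (corT true 1 c0B cB022E gB1q0 gB0q2 gB0q2 gB1q2 true true)) t 1 1 1 = true :=
  ⟨(T.l 2), by decide +kernel⟩

def B022E_101 :
    ∃ t, chk3 (onCell 0 67108864 0 1073741824 587336777 62277027 (corT true 1 c0B cB022E gB1q0 gB0q2 gB1q2 gB2q2 true true)) t 1 1 1 = true :=
  ⟨(T.l 2), by decide +kernel⟩

def B022E_102 :
    ∃ t, chk3 (onCell 0 67108864 0 1073741824 587336777 62277027 (corT true 1 c0B cB022E gB1q0 gB0q2 gB2q2 gB3q2 true true)) t 1 1 1 = true :=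
  ⟨(T.l 2), by decide +kernel⟩

def B022E_103 :
    ∃ t, chk3 (onCell 0 67108864 0 1073741824 587336777 62277027 (corT true 1 c0B cB022E gB1q0 gB0q2 gB3q2 gB4q2 true true)) t 1 1 1 = true :=
  ⟨(T.l 2), by decide +kernel⟩

def B022E_104 :
    ∃ t, chk3 (onCell 0 67108864 0 1073741824 587336777 62277027 (corT true 1 c0B cB022E gB1q0 gB0q2 gB4q2 gB5q2 true false)) t 1 1 1 = true :=
  ⟨(T.b (T.a (T.a (T.l 220) (T.a (T.l 204) (T.b (T.b (T.l 204) (T.l 204)) (T.l 0)))) (T.a (T.b (T.a (T.b (T.l 204) (T.l 204)) (T.b (T.l 204) (T.l 204))) (T.a (T.l 204) (T.l 0))) (T.b (T.a (T.l 204) (T.l 204)) (T.b (T.l 0) (T.l 0))))) (T.a (T.a (T.l 0) (T.a (T.l 0) (T.l 0))) (T.b (T.a (T.l 0) (T.b (T.l 0) (T.l 0))) (T.a (T.l 0) (T.l 0))))), by decide +kernel⟩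

def B022E_110 :
    ∃ t, chk3 (onCell 0 67108864 0 1073741824 587336777 62277027 (corT true 1 c0B cB022E gB1q0 gB1q2 gB0q2 gB1q2 true true)) t 1 1 1 = true :=
  ⟨(T.l 2), by decide +kernel⟩

def B022E_111 :
    ∃ t, chk3 (onCell 0 67108864 0 1073741824 587336777 62277027 (corT true 1 c0B cB022E gB1q0 gB1q2 gB1q2 gB2q2 true true)) t 1 1 1 = true :=
  ⟨(T.l 2), by decide +kernel⟩

def B022E_112 :
    ∃ t, chk3 (onCell 0 67108864 0 1073741824 587336777 62277027 (corT true 1 c0B cB022E gB1q0 gB1q2 gB2q2 gB3q2 true true)) t 1 1 1 = true :=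
  ⟨(T.l 2), by decide +kernel⟩

def B022E_113 :
    ∃ t, chk3 (onCell 0 67108864 0 1073741824 587336777 62277027 (corT true 1 c0B cB022E gB1q0 gB1q2 gB3q2 gB4q2 true true)) t 1 1 1 = true :=
  ⟨(T.l 2), by decide +kernel⟩

def B022E_114 :
    ∃ t, chk3 (onCell 0 67108864 0 1073741824 587336777 62277027 (corT true 1 c0B cB022E gB1q0 gB1q2 gB4q2 gB5q2 true false)) t 1 1 1 = true :=
  ⟨(T.b (T.a (T.a (T.l 204) (T.a (T.l 204) (T.b (T.a (T.l 204) (T.l 204)) (T.l 204)))) (T.a (T.b (T.a (T.b (T.l 204) (T.l 204)) (T.b (T.l 204) (T.l 204))) (T.a (T.l 204) (T.l 0))) (T.b (T.a (T.l 204) (T.l 204)) (T.b (T.l 204) (T.l 0))))) (T.a (T.a (T.l 0) (T.a (T.l 0) (T.l 0))) (T.b (T.a (T.l 0) (T.b (T.l 0) (T.l 0))) (T.a (T.l 0) (T.l 0))))), by decide +kernel⟩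

def B022E_120 :
    ∃ t, chk3 (onCell 0 67108864 0 1073741824 587336777 62277027 (corT true 1 c0B cB022E gB1q0 gB2q2 gB0q2 gB1q2 true true)) t 1 1 1 = true :=
  ⟨(T.l 2), by decide +kernel⟩

def B022E_121 :
    ∃ t, chk3 (onCell 0 67108864 0 1073741824 587336777 62277027 (corT true 1 c0B cB022E gB1q0 gB2q2 gB1q2 gB2q2 true true)) t 1 1 1 = true :=
  ⟨(T.l 2), by decide +kernel⟩

def B022E_122 :
    ∃ t, chk3 (onCell 0 67108864 0 1073741824 587336777 62277027 (corT true 1 c0B cB022E gB1q0 gB2q2 gB2q2 gB3q2 true true)) t 1 1 1 = true :=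
  ⟨(T.l 2), by decide +kernel⟩

def B022E_123 :
    ∃ t, chk3 (onCell 0 67108864 0 1073741824 587336777 62277027 (corT true 1 c0B cB022E gB1q0 gB2q2 gB3q2 gB4q2 true true)) t 1 1 1 = true :=
  ⟨(T.l 2), by decide +kernel⟩

def B022E_124 :
    ∃ t, chk3 (onCell 0 67108864 0 1073741824 587336777 62277027 (corT true 1 c0B cB022E gB1q0 gB2q2 gB4q2 gB5q2 true false)) t 1 1 1 = true :=
  ⟨(T.b (T.a (T.a (T.l 204) (T.a (T.l 204) (T.b (T.b (T.l 220) (T.l 204)) (T.l 204)))) (T.a (T.b (T.a (T.b (T.l 204) (T.l 204)) (T.b (T.l 204) (T.l 204))) (T.a (T.l 204) (T.l 0))) (T.b (T.a (T.l 204) (T.l 204)) (T.b (T.l 204) (T.l 0))))) (T.a (T.a (T.l 0) (T.a (T.l 0) (T.l 0))) (T.b (T.a (T.l 0) (T.b (T.l 0) (T.l 0))) (T.a (T.l 0) (T.l 0))))), by decide +kernel⟩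

def B022E_130 :
    ∃ t, chk3 (onCell 0 67108864 0 1073741824 587336777 62277027 (corT true 1 c0B cB022E gB1q0 gB3q2 gB0q2 gB1q2 true true)) t 1 1 1 = true :=
  ⟨(T.l 2), by decide +kernel⟩

def B022E_131 :
    ∃ t, chk3 (onCell 0 67108864 0 1073741824 587336777 62277027 (corT true 1 c0B cB022E gB1q0 gB3q2 gB1q2 gB2q2 true true)) t 1 1 1 = true :=
  ⟨(T.l 2), by decide +kernel⟩

def B022E_132 :
    ∃ t, chk3 (onCell 0 67108864 0 1073741824 587336777 62277027 (corT true 1 c0B cB022E gB1q0 gB3q2 gB2q2 gB3q2 true true)) t 1 1 1 = true :=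
  ⟨(T.l 2), by decide +kernel⟩

def B022E_133 :
    ∃ t, chk3 (onCell 0 67108864 0 1073741824 587336777 62277027 (corT true 1 c0B cB022E gB1q0 gB3q2 gB3q2 gB4q2 true true)) t 1 1 1 = true :=
  ⟨(T.l 2), by decide +kernel⟩

def B022E_134 :
    ∃ t, chk3 (onCell 0 67108864 0 1073741824 587336777 62277027 (corT true 1 c0B cB022E gB1q0 gB3q2 gB4q2 gB5q2 true false)) t 1 1 1 = true :=
  ⟨(T.b (T.a (T.a (T.l 204) (T.a (T.l 204) (T.b (T.a (T.l 204) (T.l 204)) (T.l 204)))) (T.b (T.a (T.a (T.b (T.l 204) (T.l 204)) (T.b (T.l 204) (T.l 204))) (T.b (T.c (T.l 204) (T.l 204)) (T.l 204))) (T.a (T.a (T.l 204) (T.l 0)) (T.b (T.l 204) (T.l 204))))) (T.a (T.a (T.l 0) (T.c (T.l 64) (T.l 0))) (T.b (T.a (T.l 0) (T.b (T.l 0) (T.l 0))) (T.a (T.l 0) (T.l 0))))), by decide +kernel⟩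

def B022E_140 :
    ∃ t, chk3 (onCell 0 67108864 0 1073741824 587336777 62277027 (corT true 1 c0B cB022E gB1q0 gB4q2 gB0q2 gB1q2 true true)) t 1 1 1 = true :=
  ⟨(T.l 2), by decide +kernel⟩

def B022E_141 :
    ∃ t, chk3 (onCell 0 67108864 0 1073741824 587336777 62277027 (corT true 1 c0B cB022E gB1q0 gB4q2 gB1q2 gB2q2 true true)) t 1 1 1 = true :=
  ⟨(T.l 2), by decide +kernel⟩

def B022E_142 :
    ∃ t, chk3 (onCell 0 67108864 0 1073741824 587336777 62277027 (corT true 1 c0B cB022E gB1q0 gB4q2 gB2q2 gB3q2 true true)) t 1 1 1 = true :=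
  ⟨(T.l 2), by decide +kernel⟩

def B022E_143 :
    ∃ t, chk3 (onCell 0 67108864 0 1073741824 587336777 62277027 (corT true 1 c0B cB022E gB1q0 gB4q2 gB3q2 gB4q2 true true)) t 1 1 1 = true :=
  ⟨(T.l 2), by decide +kernel⟩

def B022E_144 :
    ∃ t, chk3 (onCell 0 67108864 0 1073741824 587336777 62277027 (corT true 1 c0B cB022E gB1q0 gB4q2 gB4q2 gB5q2 true false)) t 1 1 1 = true :=
  ⟨(T.b (T.b (T.a (T.a (T.l 204) (T.a (T.l 204) (T.b (T.l 204) (T.l 204)))) (T.a (T.a (T.b (T.l 204) (T.l 204)) (T.l 220)) (T.b (T.l 220) (T.l 204)))) (T.a (T.a (T.l 204) (T.l 0)) (T.a (T.b (T.l 204) (T.l 204)) (T.b (T.l 204) (T.l 0))))) (T.b (T.a (T.a (T.l 0) (T.l 0)) (T.a (T.l 0) (T.b (T.l 0) (T.l 0)))) (T.a (T.a (T.l 816) (T.b (T.l 0) (T.l 64))) (T.a (T.l 0) (T.l 0))))), by decide +kernel⟩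

def B022E_200 :
    ∃ t, chk3 (onCell 0 67108864 0 1073741824 587336777 62277027 (corT true 1 c0B cB022E gB2q0 gB0q2 gB0q2 gB1q2 true true)) t 1 1 1 = true :=
  ⟨(T.l 2), by decide +kernel⟩

def B022E_201 :
    ∃ t, chk3 (onCell 0 67108864 0 1073741824 587336777 62277027 (corT true 1 c0B cB022E gB2q0 gB0q2 gB1q2 gB2q2 true true)) t 1 1 1 = true :=
  ⟨(T.l 2), by decide +kernel⟩

def B022E_202 :
    ∃ t, chk3 (onCell 0 67108864 0 1073741824 587336777 62277027 (corT true 1 c0B cB022E gB2q0 gB0q2 gB2q2 gB3q2 true true)) t 1 1 1 = true :=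
  ⟨(T.l 2), by decide +kernel⟩

def B022E_203 :
    ∃ t, chk3 (onCell 0 67108864 0 1073741824 587336777 62277027 (corT true 1 c0B cB022E gB2q0 gB0q2 gB3q2 gB4q2 true true)) t 1 1 1 = true :=
  ⟨(T.l 2), by decide +kernel⟩

def B022E_204 :
    ∃ t, chk3 (onCell 0 67108864 0 1073741824 587336777 62277027 (corT true 1 c0B cB022E gB2q0 gB0q2 gB4q2 gB5q2 true false)) t 1 1 1 = true :=
  ⟨(T.a (T.a (T.b (T.b (T.l 204) (T.l 0)) (T.l 0)) (T.b (T.a (T.l 0) (T.b (T.b (T.l 204) (T.l 204)) (T.l 0))) (T.l 0))) (T.a (T.b (T.b (T.a (T.b (T.l 204) (T.l 204)) (T.b (T.l 204) (T.l 204))) (T.b (T.l 0) (T.l 0))) (T.l 0)) (T.b (T.b (T.a (T.l 204) (T.l 204)) (T.b (T.l 0) (T.l 0))) (T.b (T.b (T.l 0) (T.l 0)) (T.l 816))))), by decide +kernel⟩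

def B022E_210 :
    ∃ t, chk3 (onCell 0 67108864 0 1073741824 587336777 62277027 (corT true 1 c0B cB022E gB2q0 gB1q2 gB0q2 gB1q2 true true)) t 1 1 1 = true :=
  ⟨(T.l 2), by decide +kernel⟩

def B022E_211 :
    ∃ t, chk3 (onCell 0 67108864 0 1073741824 587336777 62277027 (corT true 1 c0B cB022E gB2q0 gB1q2 gB1q2 gB2q2 true true)) t 1 1 1 = true :=
  ⟨(T.l 2), by decide +kernel⟩

def B022E_212 :
    ∃ t, chk3 (onCell 0 67108864 0 1073741824 587336777 62277027 (corT true 1 c0B cB022E gB2q0 gB1q2 gB2q2 gB3q2 true true)) t 1 1 1 = true :=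
  ⟨(T.l 2), by decide +kernel⟩

def B022E_213 :
    ∃ t, chk3 (onCell 0 67108864 0 1073741824 587336777 62277027 (corT true 1 c0B cB022E gB2q0 gB1q2 gB3q2 gB4q2 true true)) t 1 1 1 = true :=
  ⟨(T.l 2), by decide +kernel⟩

def B022E_214 :
    ∃ t, chk3 (onCell 0 67108864 0 1073741824 587336777 62277027 (corT true 1 c0B cB022E gB2q0 gB1q2 gB4q2 gB5q2 true false)) t 1 1 1 = true :=
  ⟨(T.a (T.a (T.b (T.l 0) (T.l 0)) (T.b (T.a (T.l 0) (T.b (T.a (T.l 204) (T.l 204)) (T.l 0))) (T.l 0))) (T.a (T.b (T.b (T.a (T.b (T.l 204) (T.l 204)) (T.b (T.l 204) (T.l 204))) (T.b (T.l 0) (T.l 0))) (T.l 0)) (T.b (T.b (T.a (T.l 204) (T.l 204)) (T.b (T.l 0) (T.l 0))) (T.b (T.b (T.l 0) (T.l 0)) (T.l 816))))), by decide +kernel⟩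

def B022E_220 :
    ∃ t, chk3 (onCell 0 67108864 0 1073741824 587336777 62277027 (corT true 1 c0B cB022E gB2q0 gB2q2 gB0q2 gB1q2 true true)) t 1 1 1 = true :=
  ⟨(T.l 2), by decide +kernel⟩

def B022E_221 :
    ∃ t, chk3 (onCell 0 67108864 0 1073741824 587336777 62277027 (corT true 1 c0B cB022E gB2q0 gB2q2 gB1q2 gB2q2 true true)) t 1 1 1 = true :=
  ⟨(T.l 2), by decide +kernel⟩

def B022E_222 :
    ∃ t, chk3 (onCell 0 67108864 0 1073741824 587336777 62277027 (corT true 1 c0B cB022E gB2q0 gB2q2 gB2q2 gB3q2 true true)) t 1 1 1 = true :=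
  ⟨(T.l 2), by decide +kernel⟩

def B022E_223 :
    ∃ t, chk3 (onCell 0 67108864 0 1073741824 587336777 62277027 (corT true 1 c0B cB022E gB2q0 gB2q2 gB3q2 gB4q2 true true)) t 1 1 1 = true :=
  ⟨(T.l 2), by decide +kernel⟩

def B022E_224 :
    ∃ t, chk3 (onCell 0 67108864 0 1073741824 587336777 62277027 (corT true 1 c0B cB022E gB2q0 gB2q2 gB4q2 gB5q2 true false)) t 1 1 1 = true :=
  ⟨(T.a (T.a (T.b (T.l 204) (T.l 0)) (T.b (T.a (T.l 204) (T.b (T.b (T.l 220) (T.l 204)) (T.l 0))) (T.l 0))) (T.b (T.a (T.b (T.a (T.b (T.l 204) (T.l 204)) (T.b (T.l 204) (T.l 204))) (T.b (T.l 0) (T.l 0))) (T.b (T.a (T.l 204) (T.l 204)) (T.b (T.l 204) (T.l 0)))) (T.b (T.a (T.l 0) (T.l 272)) (T.b (T.l 0) (T.l 64))))), by decide +kernel⟩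

def B022E_230 :
    ∃ t, chk3 (onCell 0 67108864 0 1073741824 587336777 62277027 (corT true 1 c0B cB022E gB2q0 gB3q2 gB0q2 gB1q2 true true)) t 1 1 1 = true :=
  ⟨(T.l 2), by decide +kernel⟩

def B022E_231 :
    ∃ t, chk3 (onCell 0 67108864 0 1073741824 587336777 62277027 (corT true 1 c0B cB022E gB2q0 gB3q2 gB1q2 gB2q2 true true)) t 1 1 1 = true :=
  ⟨(T.l 2), by decide +kernel⟩

def B022E_232 :
    ∃ t, chk3 (onCell 0 67108864 0 1073741824 587336777 62277027 (corT true 1 c0B cB022E gB2q0 gB3q2 gB2q2 gB3q2 true true)) t 1 1 1 = true :=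
  ⟨(T.l 2), by decide +kernel⟩

def B022E_233 :
    ∃ t, chk3 (onCell 0 67108864 0 1073741824 587336777 62277027 (corT true 1 c0B cB022E gB2q0 gB3q2 gB3q2 gB4q2 true true)) t 1 1 1 = true :=
  ⟨(T.l 2), by decide +kernel⟩

def B022E_234 :
    ∃ t, chk3 (onCell 0 67108864 0 1073741824 587336777 62277027 (corT true 1 c0B cB022E gB2q0 gB3q2 gB4q2 gB5q2 true false)) t 1 1 1 = true :=
  ⟨(T.a (T.a (T.b (T.l 204) (T.l 0)) (T.b (T.a (T.l 204) (T.b (T.a (T.l 204) (T.l 204)) (T.l 204))) (T.l 0))) (T.b (T.b (T.a (T.a (T.b (T.l 204) (T.l 204)) (T.b (T.l 204) (T.l 204))) (T.b (T.c (T.l 204) (T.l 204)) (T.l 204))) (T.a (T.b (T.l 0) (T.l 0)) (T.b (T.l 204) (T.l 0)))) (T.b (T.a (T.l 0) (T.b (T.l 0) (T.l 0))) (T.l 0)))), by decide +kernel⟩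

def B022E_240 :
    ∃ t, chk3 (onCell 0 67108864 0 1073741824 587336777 62277027 (corT true 1 c0B cB022E gB2q0 gB4q2 gB0q2 gB1q2 true true)) t 1 1 1 = true :=
  ⟨(T.l 2), by decide +kernel⟩

def B022E_241 :
    ∃ t, chk3 (onCell 0 67108864 0 1073741824 587336777 62277027 (corT true 1 c0B cB022E gB2q0 gB4q2 gB1q2 gB2q2 true true)) t 1 1 1 = true :=
  ⟨(T.l 2), by decide +kernel⟩

def B022E_242 :
    ∃ t, chk3 (onCell 0 67108864 0 1073741824 587336777 62277027 (corT true 1 c0B cB022E gB2q0 gB4q2 gB2q2 gB3q2 true true)) t 1 1 1 = true :=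
  ⟨(T.l 2), by decide +kernel⟩

def B022E_243 :
    ∃ t, chk3 (onCell 0 67108864 0 1073741824 587336777 62277027 (corT true 1 c0B cB022E gB2q0 gB4q2 gB3q2 gB4q2 true true)) t 1 1 1 = true :=
  ⟨(T.l 2), by decide +kernel⟩

def B022E_244 :
    ∃ t, chk3 (onCell 0 67108864 0 1073741824 587336777 62277027 (corT true 1 c0B cB022E gB2q0 gB4q2 gB4q2 gB5q2 true false)) t 1 1 1 = true :=
  ⟨(T.b (T.a (T.a (T.l 0) (T.a (T.l 0) (T.b (T.b (T.l 204) (T.l 204)) (T.l 0)))) (T.b (T.a (T.a (T.b (T.l 204) (T.l 204)) (T.l 220)) (T.b (T.l 220) (T.l 204))) (T.a (T.b (T.l 0) (T.l 0)) (T.l 0)))) (T.b (T.a (T.a (T.l 0) (T.l 0)) (T.a (T.l 0) (T.l 256))) (T.a (T.a (T.l 816) (T.l 0)) (T.l 0)))), by decide +kernel⟩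

def B022E_300 :
    ∃ t, chk3 (onCell 0 67108864 0 1073741824 587336777 62277027 (corT true 1 c0B cB022E gB3q0 gB0q2 gB0q2 gB1q2 true true)) t 1 1 1 = true :=
  ⟨(T.l 2), by decide +kernel⟩

def B022E_301 :
    ∃ t, chk3 (onCell 0 67108864 0 1073741824 587336777 62277027 (corT true 1 c0B cB022E gB3q0 gB0q2 gB1q2 gB2q2 true true)) t 1 1 1 = true :=
  ⟨(T.l 2), by decide +kernel⟩

def B022E_302 :
    ∃ t, chk3 (onCell 0 67108864 0 1073741824 587336777 62277027 (corT true 1 c0B cB022E gB3q0 gB0q2 gB2q2 gB3q2 true true)) t 1 1 1 = true :=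
  ⟨(T.l 2), by decide +kernel⟩

def B022E_303 :
    ∃ t, chk3 (onCell 0 67108864 0 1073741824 587336777 62277027 (corT true 1 c0B cB022E gB3q0 gB0q2 gB3q2 gB4q2 true true)) t 1 1 1 = true :=
  ⟨(T.l 2), by decide +kernel⟩

def B022E_304 :
    ∃ t, chk3 (onCell 0 67108864 0 1073741824 587336777 62277027 (corT true 1 c0B cB022E gB3q0 gB0q2 gB4q2 gB5q2 true false)) t 1 1 1 = true :=
  ⟨(T.b (T.a (T.a (T.b (T.l 204) (T.l 0)) (T.a (T.l 0) (T.b (T.b (T.l 204) (T.l 204)) (T.l 0)))) (T.a (T.b (T.a (T.b (T.l 204) (T.l 204)) (T.b (T.l 204) (T.l 204))) (T.b (T.l 0) (T.l 0))) (T.b (T.a (T.l 0) (T.l 0)) (T.l 0)))) (T.a (T.a (T.l 0) (T.l 0)) (T.b (T.a (T.l 0) (T.l 0)) (T.a (T.l 816) (T.l 816))))), by decide +kernel⟩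

def B022E_310 :
    ∃ t, chk3 (onCell 0 67108864 0 1073741824 587336777 62277027 (corT true 1 c0B cB022E gB3q0 gB1q2 gB0q2 gB1q2 true true)) t 1 1 1 = true :=
  ⟨(T.l 2), by decide +kernel⟩

def B022E_311 :
    ∃ t, chk3 (onCell 0 67108864 0 1073741824 587336777 62277027 (corT true 1 c0B cB022E gB3q0 gB1q2 gB1q2 gB2q2 true true)) t 1 1 1 = true :=
  ⟨(T.l 2), by decide +kernel⟩

def B022E_312 :
    ∃ t, chk3 (onCell 0 67108864 0 1073741824 587336777 62277027 (corT true 1 c0B cB022E gB3q0 gB1q2 gB2q2 gB3q2 true true)) t 1 1 1 = true :=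
  ⟨(T.l 2), by decide +kernel⟩

def B022E_313 :
    ∃ t, chk3 (onCell 0 67108864 0 1073741824 587336777 62277027 (corT true 1 c0B cB022E gB3q0 gB1q2 gB3q2 gB4q2 true true)) t 1 1 1 = true :=
  ⟨(T.l 2), by decide +kernel⟩

def B022E_314 :
    ∃ t, chk3 (onCell 0 67108864 0 1073741824 587336777 62277027 (corT true 1 c0B cB022E gB3q0 gB1q2 gB4q2 gB5q2 true false)) t 1 1 1 = true :=
  ⟨(T.b (T.a (T.a (T.l 0) (T.a (T.l 0) (T.b (T.a (T.l 204) (T.l 204)) (T.l 0)))) (T.a (T.b (T.a (T.b (T.l 204) (T.l 204)) (T.b (T.l 204) (T.l 204))) (T.b (T.l 0) (T.l 0))) (T.b (T.a (T.l 204) (T.l 0)) (T.l 0)))) (T.a (T.a (T.l 0) (T.l 0)) (T.b (T.a (T.l 0) (T.l 0)) (T.b (T.l 0) (T.l 0))))), by decide +kernel⟩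

def B022E_320 :
    ∃ t, chk3 (onCell 0 67108864 0 1073741824 587336777 62277027 (corT true 1 c0B cB022E gB3q0 gB2q2 gB0q2 gB1q2 true true)) t 1 1 1 = true :=
  ⟨(T.l 2), by decide +kernel⟩

def B022E_321 :
    ∃ t, chk3 (onCell 0 67108864 0 1073741824 587336777 62277027 (corT true 1 c0B cB022E gB3q0 gB2q2 gB1q2 gB2q2 true true)) t 1 1 1 = true :=
  ⟨(T.l 2), by decide +kernel⟩

def B022E_322 :
    ∃ t, chk3 (onCell 0 67108864 0 1073741824 587336777 62277027 (corT true 1 c0B cB022E gB3q0 gB2q2 gB2q2 gB3q2 true true)) t 1 1 1 = true :=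
  ⟨(T.l 2), by decide +kernel⟩

def B022E_323 :
    ∃ t, chk3 (onCell 0 67108864 0 1073741824 587336777 62277027 (corT true 1 c0B cB022E gB3q0 gB2q2 gB3q2 gB4q2 true true)) t 1 1 1 = true :=
  ⟨(T.l 2), by decide +kernel⟩

def B022E_324 :
    ∃ t, chk3 (onCell 0 67108864 0 1073741824 587336777 62277027 (corT true 1 c0B cB022E gB3q0 gB2q2 gB4q2 gB5q2 true false)) t 1 1 1 = true :=
  ⟨(T.b (T.a (T.a (T.l 0) (T.a (T.l 0) (T.b (T.a (T.l 204) (T.l 204)) (T.l 0)))) (T.b (T.a (T.b (T.a (T.l 204) (T.l 204)) (T.l 204)) (T.a (T.l 220) (T.l 220))) (T.a (T.b (T.l 0) (T.l 0)) (T.l 0)))) (T.a (T.a (T.l 0) (T.l 0)) (T.b (T.a (T.l 0) (T.l 0)) (T.l 0)))), by decide +kernel⟩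

def B022E_330 :
    ∃ t, chk3 (onCell 0 67108864 0 1073741824 587336777 62277027 (corT true 1 c0B cB022E gB3q0 gB3q2 gB0q2 gB1q2 true true)) t 1 1 1 = true :=
  ⟨(T.l 2), by decide +kernel⟩

def B022E_331 :
    ∃ t, chk3 (onCell 0 67108864 0 1073741824 587336777 62277027 (corT true 1 c0B cB022E gB3q0 gB3q2 gB1q2 gB2q2 true true)) t 1 1 1 = true :=
  ⟨(T.l 2), by decide +kernel⟩

def B022E_332 :
    ∃ t, chk3 (onCell 0 67108864 0 1073741824 587336777 62277027 (corT true 1 c0B cB022E gB3q0 gB3q2 gB2q2 gB3q2 true true)) t 1 1 1 = true :=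
  ⟨(T.l 2), by decide +kernel⟩

def B022E_333 :
    ∃ t, chk3 (onCell 0 67108864 0 1073741824 587336777 62277027 (corT true 1 c0B cB022E gB3q0 gB3q2 gB3q2 gB4q2 true true)) t 1 1 1 = true :=
  ⟨(T.l 2), by decide +kernel⟩

def B022E_334 :
    ∃ t, chk3 (onCell 0 67108864 0 1073741824 587336777 62277027 (corT true 1 c0B cB022E gB3q0 gB3q2 gB4q2 gB5q2 true false)) t 1 1 1 = true :=
  ⟨(T.b (T.a (T.a (T.l 0) (T.a (T.l 0) (T.b (T.a (T.l 204) (T.l 204)) (T.l 0)))) (T.b (T.a (T.b (T.a (T.l 204) (T.l 204)) (T.l 204)) (T.b (T.c (T.l 204) (T.l 204)) (T.l 204))) (T.a (T.b (T.l 0) (T.l 0)) (T.l 0)))) (T.b (T.a (T.a (T.l 0) (T.l 0)) (T.a (T.l 0) (T.l 0))) (T.a (T.a (T.l 816) (T.l 0)) (T.l 0)))), by decide +kernel⟩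

def B022E_340 :
    ∃ t, chk3 (onCell 0 67108864 0 1073741824 587336777 62277027 (corT true 1 c0B cB022E gB3q0 gB4q2 gB0q2 gB1q2 true true)) t 1 1 1 = true :=
  ⟨(T.l 2), by decide +kernel⟩

def B022E_341 :
    ∃ t, chk3 (onCell 0 67108864 0 1073741824 587336777 62277027 (corT true 1 c0B cB022E gB3q0 gB4q2 gB1q2 gB2q2 true true)) t 1 1 1 = true :=
  ⟨(T.l 2), by decide +kernel⟩

def B022E_342 :
    ∃ t, chk3 (onCell 0 67108864 0 1073741824 587336777 62277027 (corT true 1 c0B cB022E gB3q0 gB4q2 gB2q2 gB3q2 true true)) t 1 1 1 = true :=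
  ⟨(T.l 2), by decide +kernel⟩

def B022E_343 :
    ∃ t, chk3 (onCell 0 67108864 0 1073741824 587336777 62277027 (corT true 1 c0B cB022E gB3q0 gB4q2 gB3q2 gB4q2 true true)) t 1 1 1 = true :=
  ⟨(T.l 2), by decide +kernel⟩

end Pool.Agent.Strip051.G.I5470_6050.Tab.CG
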