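import Pool.Agent.Strip051.G.I5470_6050.DgP

/-! # The corner (1, 1, 2): certificates of the degenerate charts (generated) -/

set_option linter.all false

namespace Pool.Agent.Strip051.G.I5470_6050.Tab.DG

open Pool.Agent.Strip051.PB Pool.Agent.Strip051.PB.Dg Pool.Agent.StripNear Pool.Agent.Strip051.LC

theorem cFA4 : ∃ t, chk3 (onCell 0 232471925 0 1073741824 587336777 62277027 (fdAx false pF (ndUL pF ndF4) (ndUR ndF5) (thLo (ndUL pF ndF4) (ndUR ndF5)))) t 1 1 1 = true :=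
  ⟨(T.b (T.a (T.b (T.b (T.l 0) (T.l 0)) (T.a (T.l 0) (T.l 0))) (T.a (T.b (T.b (T.l 0) (T.l 0)) (T.a (T.l 0) (T.l 0))) (T.b (T.b (T.l 0) (T.l 0)) (T.b (T.l 0) (T.l 3))))) (T.l 3)), by decide +kernel⟩
theorem cFA5 : ∃ t, chk3 (onCell 0 232471925 0 1073741824 587336777 62277027 (fdAx false pF (ndUR ndF5) (ndUR ndF6) (thLo (ndUR ndF5) (ndUR ndF6)))) t 1 1 1 = true :=
  ⟨(T.a (T.a (T.b (T.b (T.l 2) (T.l 0)) (T.b (T.b (T.l 0) (T.b (T.l 0) (T.b (T.a (T.l 0) (T.l 0)) (T.l 3)))) (T.l 3))) (T.b (T.b (T.l 2) (T.l 0)) (T.b (T.b (T.l 0) (T.b (T.l 0) (T.b (T.l 0) (T.l 3)))) (T.l 3)))) (T.b (T.a (T.b (T.l 2) (T.l 0)) (T.b (T.l 2) (T.b (T.l 0) (T.a (T.l 0) (T.l 0))))) (T.b (T.a (T.a (T.b (T.l 0) (T.b (T.l 0) (T.a (T.l 0) (T.l 0)))) (T.b (T.l 0) (T.b (T.l 0) (T.a (T.l 0) (T.l 0))))) (T.b (T.a (T.l 0) (T.a (T.l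 0) (T.l 0))) (T.a (T.b (T.a (T.l 0) (T.l 0)) (T.a (T.l 0) (T.l 0))) (T.b (T.l 0) (T.a (T.l 0) (T.l 0)))))) (T.l 3)))), by decide +kernel⟩
theorem cFA6 : ∃ t, chk3 (onCell 0 232471925 0 1073741824 587336777 62277027 (fdAx true pF (ndUR ndF6) (dgSC pF) (thUp (ndUR ndF6) (dgSC pF)))) t 1 1 1 = true :=
  ⟨(T.b (T.l 2) (T.a (T.a (T.c (T.l 349520) (T.b (T.l 1088) (T.b (T.l 1088) (T.c (T.l 349520) (T.a (T.l 349520) (T.l 349520)))))) (T.a (T.b (T.l 263232) (T.c (T.l 349520) (T.a (T.l 349520) (T.l 349520)))) (T.b (T.l 263232) (T.a (T.l 349520) (T.a (T.l 349520) (T.l 349520)))))) (T.b (T.b (T.l 2) (T.b (T.l 2) (T.a (T.a (T.a (T.l 1024) (T.l 1024)) (T.a (T.a (T.l 1024) (T.l 1024)) (T.a (T.l 1024) (T.l 1024)))) (T.b (T.l 2) (T.a (T.a (T.l 1024) (T.l 1024)) (T.a (T.l 1024) (T.l 1088))))))) (T.b (T.b (T.c (T.a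 (T.a (T.a (T.l 0) (T.l 0)) (T.a (T.l 0) (T.l 1024))) (T.a (T.l 345424) (T.l 279888))) (T.a (T.a (T.a (T.l 1024) (T.l 1024)) (T.a (T.l 1024) (T.l 1024))) (T.a (T.a (T.l 1088) (T.l 1088)) (T.a (T.l 1088) (T.l 1088))))) (T.c (T.a (T.a (T.a (T.l 1024) (T.l 1024)) (T.a (T.l 1088) (T.l 263232))) (T.a (T.l 349520) (T.l 349520))) (T.a (T.a (T.a (T.l 1024) (T.l 1088)) (T.a (T.l 1088) (T.l 1088))) (T.a (T.a (T.l 1088) (T.l 1088)) (T.a (T.l 1088) (T.l 1088)))))) (T.b (T.c (T.a (T.a (T.a (T.l 263232) (T.l 279888)) (T.a (T.l 345424) (T.l 279888))) (T.a (T.l 349520) (T.a (T.l 345424) (T.l 4)))) (T.a (T.a (T.a (T.l 1088) (T.l 279888)) (T.a (T.l 279888) (T.l 279888))) (T.a (T.a (T.l 279888) (T.l 279888)) (T.a (T.l 279888) (T.l 4))))) (T.c (T.a (T.a (T.a (T.l 349520) (T.l 349520)) (T.l 349520)) (T.a (T.l 349520)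 (T.l 4))) (T.a (T.a (T.a (T.l 349520) (T.a (T.l 349520) (T.l 349520))) (T.a (T.l 349520) (T.l 349520))) (T.a (T.a (T.l 349520) (T.l 349520)) (T.l 4))))))))), by decide +kernel⟩
theorem cFB5 : ∃ t, chk3 (onCell 0 232471925 0 2684354560 587336777 62277027 (fdB true false pF (ndUR ndF5))) t 1 1 1 = true :=
  ⟨(T.b (T.b (T.b (T.a (T.a (T.l 0) (T.l 2)) (T.l 2)) (T.a (T.b (T.l 0) (T.l 4)) (T.b (T.a (T.l 0) (T.a (T.l 0) (T.l 0))) (T.l 4)))) (T.l 4)) (T.a (T.l 4) (T.b (T.l 4) (T.a (T.l 4) (T.l 4))))), by decide +kernel⟩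
theorem cFB6 : ∃ t, chk3 (onCell 0 232471925 0 2684354560 587336777 62277027 (fdB true false pF (ndUR ndF6))) t 1 1 1 = true :=
  ⟨(T.b (T.b (T.l 2) (T.b (T.a (T.b (T.b (T.a (T.b (T.l 2) (T.b (T.l 2) (T.l 0))) (T.l 2)) (T.a (T.b (T.l 0) (T.l 4)) (T.b (T.a (T.l 0) (T.l 0)) (T.l 0)))) (T.l 4)) (T.b (T.b (T.l 2) (T.b (T.a (T.a (T.l 0) (T.a (T.l 0) (T.l 0))) (T.b (T.l 2) (T.a (T.l 0) (T.l 0)))) (T.a (T.a (T.l 0) (T.a (T.l 0) (T.l 0))) (T.b (T.a (T.l 0) (T.l 0)) (T.l 4))))) (T.l 4))) (T.l 4))) (T.a (T.l 4) (T.b (T.l 4) (T.a (T.l 4) (T.l 4))))), by decide +kernel⟩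
theorem cFB7 : ∃ t, chk3 (onCell 0 232471925 0 2684354560 587336777 62277027 (fdB true true pF (dgSC pF))) t 1 1 1 = true :=
  ⟨(T.b (T.b (T.l 2) (T.b (T.l 2) (T.a (T.a (T.l 349520) (T.b (T.a (T.l 349520) (T.a (T.l 349520) (T.l 349520))) (T.l 4))) (T.b (T.a (T.a (T.a (T.l 349520) (T.l 349520)) (T.a (T.l 349520) (T.l 349520))) (T.a (T.b (T.l 349520) (T.a (T.l 349520) (T.l 6))) (T.l 6))) (T.l 4))))) (T.b (T.b (T.l 4) (T.l 4)) (T.a (T.l 4) (T.a (T.l 4) (T.l 4))))), by decide +kernel⟩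
theorem cFP5 : ∃ t, chk3 (onCell 0 232471925 0 1073741824 587336777 62277027 (fdP true false pF (ndUR ndF5))) t 1 1 1 = true :=
  ⟨(T.b (T.a (T.b (T.l 0) (T.a (T.l 0) (T.l 0))) (T.b (T.a (T.l 0) (T.l 0)) (T.a (T.l 0) (T.b (T.l 0) (T.l 2))))) (T.l 2)), by decide +kernel⟩
theorem cFP6 : ∃ t, chk3 (onCell 0 232471925 0 1073741824 587336777 62277027 (fdP true false pF (ndUR ndF6))) t 1 1 1 = true :=
  ⟨(T.a (T.a (T.b (T.a (T.l 544) (T.l 544)) (T.b (T.b (T.l 544) (T.b (T.l 512) (T.b (T.a (T.l 0) (T.l 0)) (T.l 2)))) (T.l 2))) (T.b (T.a (T.l 544) (T.l 544)) (T.b (T.b (T.l 512) (T.b (T.l 512) (T.b (T.a (T.l 0) (T.l 0)) (T.l 2)))) (T.l 2)))) (T.b (T.b (T.l 544) (T.a (T.l 544) (T.l 672))) (T.b (T.a (T.b (T.l 544) (T.b (T.a (T.l 512) (T.l 512)) (T.a (T.a (T.l 0) (T.l 0)) (T.a (T.l 0) (T.l 0))))) (T.b (T.l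 139944) (T.b (T.l 131616) (T.a (T.a (T.l 0) (T.a (T.l 0) (T.l 0))) (T.b (T.l 512) (T.a (T.l 0) (T.l 0))))))) (T.l 2)))), by decide +kernel⟩
theorem cFP7 : ∃ t, chk3 (onCell 0 232471925 0 1073741824 587336777 62277027 (fdP true true pF (dgSC pF))) t 1 1 1 = true :=
  ⟨(T.a (T.a (T.l 349520) (T.a (T.l 349520) (T.l 349520))) (T.b (T.a (T.l 279208) (T.l 349520)) (T.a (T.l 349520) (T.a (T.l 349520) (T.l 349520))))), by decide +kernel⟩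
theorem cFC1 : ∃ t, chk3 (onCell 0 232471925 0 1073741824 587336777 62277027 (fdU pF ndF4 (thLo (ndUL pF ndF4) (ndUR ndF5)) cvF1 (ndUR ndF5))) t 1 1 1 = true :=
  ⟨(T.a (T.b (T.b (T.b (T.a (T.a (T.l 0) (T.l 0)) (T.a (T.l 32768) (T.l 165888))) (T.l 1)) (T.l 1)) (T.l 1)) (T.b (T.b (T.b (T.b (T.a (T.l 165888) (T.l 174720)) (T.a (T.l 174080) (T.a (T.l 174080) (T.l 174720)))) (T.l 1)) (T.l 1)) (T.a (T.a (T.l 1) (T.l 3)) (T.l 3)))), by decide +kernel⟩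
theorem cFC2 : ∃ t, chk3 (onCell 0 232471925 0 1073741824 587336777 62277027 (fdU pF ndF4 (thLo (ndUL pF ndF4) (ndUR ndF5)) cvF2 (ndUR ndF5))) t 1 1 1 = true :=
  ⟨(T.a (T.b (T.b (T.a (T.l 0) (T.l 0)) (T.l 1)) (T.l 1)) (T.b (T.b (T.b (T.b (T.l 0) (T.a (T.l 0) (T.l 165888))) (T.l 1)) (T.l 1)) (T.a (T.a (T.l 1) (T.l 3)) (T.l 3)))), by decide +kernel⟩
theorem cFC3 : ∃ t, chk3 (onCell 0 232471925 0 1073741824 587336777 62277027 (fdU pF ndF4 (thLo (ndUL pF ndF4) (ndUR ndF5)) cvF3 (ndUR ndF5))) t 1 1 1 = true :=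
  ⟨(T.a (T.b (T.b (T.a (T.l 0) (T.l 0)) (T.l 1)) (T.l 1)) (T.b (T.b (T.b (T.b (T.l 0) (T.a (T.l 0) (T.l 0))) (T.a (T.l 1) (T.l 1))) (T.l 1)) (T.a (T.a (T.l 1) (T.l 3)) (T.l 3)))), by decide +kernel⟩
theorem cFC4 : ∃ t, chk3 (onCell 0 232471925 0 1073741824 587336777 62277027 (fdU pF ndF4 (thLo (ndUL pF ndF4) (ndUR ndF5)) cvF4 (ndUR ndF5))) t 1 1 1 = true :=
  ⟨(T.a (T.b (T.b (T.a (T.l 0) (T.l 0)) (T.l 1)) (T.l 1)) (T.b (T.b (T.b (T.b (T.l 0) (T.a (T.l 0) (T.l 32))) (T.b (T.a (T.l 0) (T.l 0)) (T.l 1))) (T.l 1)) (T.a (T.a (T.l 1) (T.l 3)) (T.l 3)))), by decide +kernel⟩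
theorem cNA4 : ∃ t, chk3 (onCell 0 232471925 0 1073741824 587336777 62277027 (fdAW pN qN (ndUL pN ndN4) (ndUR ndN5) (thLo (ndUL pN ndN4) (ndUR ndN5)) (tuLo (ndUL pN ndN4) (ndUR ndN5) (suL qN ndN4) (suR ndN5)))) t 1 1 1 = true :=
  ⟨(T.b (T.a (T.b (T.l 0) (T.a (T.l 0) (T.l 0))) (T.a (T.b (T.l 0) (T.l 0)) (T.b (T.l 0) (T.a (T.l 0) (T.l 0))))) (T.l 3)), by decide +kernel⟩
theorem cNA5 : ∃ t, chk3 (onCell 0 232471925 0 1073741824 587336777 62277027 (fdAW pN qN (ndUR ndN5) (ndUR ndN6) (thLo (ndUR ndN5) (ndUR ndN6)) (tuLo (ndUR ndN5) (ndUR ndN6) (suR ndN5) (suR ndN6)))) t 1 1 1 = true :=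
  ⟨(T.a (T.a (T.b (T.b (T.l 2) (T.l 0)) (T.b (T.b (T.l 0) (T.l 0)) (T.l 3))) (T.a (T.b (T.b (T.l 2) (T.l 0)) (T.b (T.a (T.l 0) (T.l 0)) (T.l 3))) (T.b (T.b (T.l 2) (T.l 0)) (T.b (T.a (T.l 0) (T.l 0)) (T.l 3))))) (T.b (T.a (T.b (T.l 2) (T.l 0)) (T.b (T.l 2) (T.a (T.l 0) (T.l 0)))) (T.b (T.a (T.b (T.l 0) (T.a (T.l 0) (T.l 0))) (T.a (T.b (T.l 0) (T.a (T.l 0) (T.l 0))) (T.b (T.l 0) (T.a (T.l 0) (T.l 0))))) (T.l 3)))), by decide +kernel⟩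
theorem cNA6 : ∃ t, chk3 (onCell 0 232471925 0 1073741824 587336777 62277027 (fdAW pN qN (ndUR ndN6) (dgSC pN) (thUp (ndUR ndN6) (dgSC pN)) (tuUp (ndUR ndN6) (dgSC pN) (suR ndN6) (suC qN)))) t 1 1 1 = true :=
  ⟨(T.b (T.l 2) (T.a (T.a (T.b (T.b (T.l 2) (T.l 0)) (T.b (T.a (T.l 0) (T.l 0)) (T.b (T.l 0) (T.l 0)))) (T.a (T.b (T.b (T.l 2) (T.l 0)) (T.b (T.l 0) (T.a (T.l 0) (T.l 0)))) (T.b (T.b (T.l 2) (T.l 0)) (T.b (T.l 0) (T.a (T.l 0) (T.a (T.l 0) (T.l 0))))))) (T.b (T.b (T.l 2) (T.b (T.l 2) (T.a (T.a (T.a (T.l 0) (T.l 0)) (T.a (T.l 0) (T.l 0))) (T.a (T.a (T.l 0) (T.l 0)) (T.a (T.l 0) (T.a (T.l 0) (T.l 0))))))) (T.a (T.a (T.b (T.a (T.a (T.l 0) (T.l 0)) (T.a (T.l 0) (T.l 0))) (T.a (T.a (T.l 0) (T.b (T.l 0) (T.l 0))) (T.b (T.a (T.l 0) (T.l 0)) (T.a (T.l 0) (T.l 0))))) (T.a (T.b (T.b (T.l 0) (T.a (T.l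 0) (T.l 0))) (T.b (T.a (T.l 0) (T.l 0)) (T.a (T.l 0) (T.l 0)))) (T.b (T.b (T.a (T.l 0) (T.l 0)) (T.a (T.l 0) (T.l 0))) (T.b (T.a (T.l 0) (T.l 0)) (T.a (T.a (T.l 0) (T.l 0)) (T.a (T.l 0) (T.l 0))))))) (T.a (T.b (T.a (T.b (T.a (T.l 0) (T.l 0)) (T.a (T.l 0) (T.l 0))) (T.b (T.a (T.l 0) (T.l 0)) (T.a (T.l 0) (T.l 0)))) (T.a (T.b (T.a (T.l 0) (T.l 0)) (T.a (T.a (T.l 0) (T.l 0)) (T.a (T.l 0) (T.l 174760)))) (T.b (T.a (T.l 0) (T.a (T.l 0) (T.l 0))) (T.a (T.b (T.l 0) (T.l 174760)) (T.l 4))))) (T.b (T.a (T.b (T.a (T.l 0) (T.l 0)) (T.a (T.l 0) (T.l 0))) (T.b (T.a (T.l 0) (T.l 0)) (T.a (T.l 0) (T.l 4)))) (T.a (T.a (T.b (T.a (T.l 0) (T.l 4)) (T.l 4)) (T.l 4)) (T.l 4)))))))), by decide +kernel⟩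
theorem cNB5 : ∃ t, chk3 (onCell 0 232471925 0 2684354560 587336777 62277027 (fdBW pN qN (ndUR ndN5) (suR ndN5))) t 1 1 1 = true :=
  ⟨(T.b (T.b (T.b (T.a (T.l 0) (T.l 2)) (T.a (T.b (T.l 0) (T.l 4)) (T.b (T.a (T.l 0) (T.a (T.l 0) (T.l 0))) (T.l 4)))) (T.l 4)) (T.a (T.l 4) (T.b (T.l 4) (T.a (T.l 4) (T.l 4))))), by decide +kernel⟩
theorem cNB6 : ∃ t, chk3 (onCell 0 232471925 0 2684354560 587336777 62277027 (fdBW pN qN (ndUR ndN6) (suR ndN6))) t 1 1 1 = true :=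
  ⟨(T.b (T.b (T.l 2) (T.b (T.a (T.b (T.a (T.l 0) (T.l 0)) (T.l 4)) (T.b (T.b (T.l 2) (T.b (T.a (T.a (T.l 0) (T.l 0)) (T.a (T.l 0) (T.l 0))) (T.b (T.a (T.a (T.l 0) (T.l 0)) (T.a (T.l 0) (T.l 0))) (T.a (T.l 4) (T.l 4))))) (T.l 4))) (T.l 4))) (T.a (T.l 4) (T.b (T.l 4) (T.a (T.l 4) (T.l 4))))), by decide +kernel⟩
theorem cNB7 : ∃ t, chk3 (onCell 0 232471925 0 2684354560 587336777 62277027 (fdBW pN qN (dgSC pN) (suC qN))) t 1 1 1 = true :=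
  ⟨(T.b (T.b (T.l 2) (T.b (T.l 2) (T.a (T.a (T.b (T.b (T.a (T.l 0) (T.l 0)) (T.b (T.a (T.l 34816) (T.l 34816)) (T.l 4))) (T.l 4)) (T.b (T.b (T.a (T.l 0) (T.a (T.l 0) (T.l 0))) (T.b (T.a (T.l 34816) (T.a (T.l 34816) (T.l 34816))) (T.l 4))) (T.l 4))) (T.b (T.a (T.b (T.b (T.l 2) (T.b (T.l 2) (T.a (T.a (T.a (T.l 0) (T.l 0)) (T.a (T.l 0) (T.l 0))) (T.a (T.a (T.l 0) (T.l 0)) (T.a (T.l 0) (T.l 0)))))) (T.b (T.a (T.a (T.l 174760) (T.a (T.l 174216) (T.l 174216))) (T.a (T.a (T.l 174216) (T.l 174216)) (T.a (T.l 174216) (T.l 174216)))) (T.l 4))) (T.a (T.a (T.b (T.b (T.l 2) (T.b (T.l 2) (T.a (T.l 0) (T.a (T.l 0) (T.l 0))))) (T.b (T.a (T.l 174760) (T.l 174760)) (T.l 4))) (T.a (T.b (T.b (T.l 2) (T.b (T.l 2) (T.l 6))) (T.l 6)) (T.l 6))) (T.l 6))) (T.l 4))))) (T.b (T.b (T.l 4) (T.l 4)) (T.a (T.l 4) (T.a (T.l 4)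 (T.l 4))))), by decide +kernel⟩
theorem cNP5 : ∃ t, chk3 (onCell 0 232471925 0 1073741824 587336777 62277027 (fdPW pN qN (ndUR ndN5) (suR ndN5))) t 1 1 1 = true :=
  ⟨(T.b (T.a (T.b (T.l 0) (T.l 0)) (T.a (T.b (T.l 0) (T.l 0)) (T.b (T.l 0) (T.a (T.l 0) (T.l 0))))) (T.l 2)), by decide +kernel⟩
theorem cNP6 : ∃ t, chk3 (onCell 0 232471925 0 1073741824 587336777 62277027 (fdPW pN qN (ndUR ndN6) (suR ndN6))) t 1 1 1 = true :=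
  ⟨(T.a (T.a (T.b (T.a (T.l 544) (T.l 544)) (T.b (T.a (T.l 0) (T.l 0)) (T.l 2))) (T.b (T.a (T.l 544) (T.l 544)) (T.b (T.a (T.l 0) (T.l 0)) (T.l 2)))) (T.b (T.b (T.l 0) (T.a (T.l 0) (T.l 139808))) (T.b (T.a (T.b (T.l 512) (T.a (T.l 0) (T.l 0))) (T.b (T.l 139936) (T.b (T.l 131616) (T.a (T.l 0) (T.l 0))))) (T.l 2)))), by decide +kernel⟩
theorem cNP7 : ∃ t, chk3 (onCell 0 232471925 0 1073741824 587336777 62277027 (fdPW pN qN (dgSC pN) (suC qN))) t 1 1 1 = true :=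
  ⟨(T.a (T.a (T.b (T.l 544) (T.b (T.l 544) (T.b (T.l 0) (T.a (T.l 0) (T.l 0))))) (T.b (T.l 544) (T.b (T.l 544) (T.b (T.l 544) (T.a (T.l 0) (T.a (T.l 0) (T.l 0))))))) (T.b (T.a (T.a (T.l 544) (T.l 544)) (T.a (T.l 139944) (T.l 4))) (T.b (T.a (T.a (T.l 544) (T.l 139944)) (T.a (T.l 174760) (T.l 174760))) (T.a (T.a (T.b (T.l 139944) (T.b (T.l 174760) (T.b (T.l 174760) (T.a (T.l 0) (T.l 0))))) (T.b (T.l 174760) (T.b (T.l 174760) (T.b (T.l 174760) (T.a (T.a (T.l 0) (T.l 0)) (T.a (T.l 0) (T.l 0))))))) (T.b (T.a (T.l 174760) (T.l 174760)) (T.a (T.b (T.l 174760) (T.b (T.l 174760) (T.a (T.a (T.l 0) (T.l 0)) (T.a (T.l 8872) (T.l 3))))) (T.b (T.l 174760) (T.l 3)))))))), by decide +kernel⟩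
theorem cNC1 : ∃ t, chk3 (onCell 0 232471925 0 1073741824 587336777 62277027 (fdCW pN qN ndN4 (thLo (ndUL pN ndN4) (ndUR ndN5)) (tuLo (ndUL pN ndN4) (ndUR ndN5) (suL qN ndN4) (suR ndN5)) cvN1 cFsDD1 (ndUR ndN5))) t 1 1 1 = true :=
  ⟨(T.a (T.b (T.b (T.b (T.a (T.l 0) (T.a (T.l 0) (T.l 32768))) (T.l 1)) (T.l 1)) (T.l 1)) (T.b (T.b (T.b (T.b (T.a (T.l 163968) (T.l 164480)) (T.a (T.l 166016) (T.a (T.l 166016) (T.l 174728)))) (T.l 1)) (T.l 1)) (T.a (T.a (T.l 1) (T.l 3)) (T.l 3)))), by decide +kernel⟩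
theorem cNC2 : ∃ t, chk3 (onCell 0 232471925 0 1073741824 587336777 62277027 (fdCW pN qN ndN4 (thLo (ndUL pN ndN4) (ndUR ndN5)) (tuLo (ndUL pN ndN4) (ndUR ndN5) (suL qN ndN4) (suR ndN5)) cvN2 cFsDD2 (ndUR ndN5))) t 1 1 1 = true :=
  ⟨(T.a (T.b (T.b (T.a (T.l 0) (T.l 0)) (T.l 1)) (T.l 1)) (T.b (T.b (T.b (T.b (T.l 0) (T.a (T.l 0) (T.a (T.l 0) (T.l 0)))) (T.l 1)) (T.l 1)) (T.a (T.a (T.l 1) (T.l 3)) (T.l 3)))), by decide +kernel⟩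
theorem cNC3 : ∃ t, chk3 (onCell 0 232471925 0 1073741824 587336777 62277027 (fdCW pN qN ndN4 (thLo (ndUL pN ndN4) (ndUR ndN5)) (tuLo (ndUL pN ndN4) (ndUR ndN5) (suL qN ndN4) (suR ndN5)) cvN3 cFsDD3 (ndUR ndN5))) t 1 1 1 = true :=
  ⟨(T.a (T.b (T.b (T.l 0) (T.l 1)) (T.l 1)) (T.b (T.b (T.b (T.b (T.l 0) (T.a (T.l 0) (T.l 0))) (T.a (T.l 1) (T.l 1))) (T.l 1)) (T.a (T.a (T.l 1) (T.l 3)) (T.l 3)))), by decide +kernel⟩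
theorem cNC4 : ∃ t, chk3 (onCell 0 232471925 0 1073741824 587336777 62277027 (fdCW pN qN ndN4 (thLo (ndUL pN ndN4) (ndUR ndN5)) (tuLo (ndUL pN ndN4) (ndUR ndN5) (suL qN ndN4) (suR ndN5)) cvN4 cFsDD4 (ndUR ndN5))) t 1 1 1 = true :=
  ⟨(T.a (T.b (T.b (T.l 0) (T.l 1)) (T.l 1)) (T.b (T.b (T.b (T.b (T.l 0) (T.a (T.l 0) (T.l 0))) (T.b (T.a (T.l 0) (T.l 0)) (T.l 1))) (T.l 1)) (T.a (T.a (T.l 1) (T.l 3)) (T.l 3)))), by decide +kernel⟩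

end Pool.Agent.Strip051.G.I5470_6050.Tab.DG
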