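import Pool.Agent.Strip051.PB.Cuts

/-! # Tables I5470_6050 (generated) -/

namespace Pool.Agent.Strip051.G.I5470_6050.Tab

open Pool.Agent.Strip051.PB

noncomputable def c1g : Fn1 := ⟨_, _, fun h1 => (enc_sqrtg (enc_sub (enc_pnc _ 1) (enc_scale 3 4 (enc_sq h1))))⟩
noncomputable def kcg_3 : Fn2 := ⟨_, _, fun h1 h2 => (enc_subr 72 125 h2)⟩
noncomputable def kcg_6 : Fn2 := ⟨_, _, fun h1 h2 => (enc_add h1 (enc_rat _ 1 4))⟩
noncomputable def kcg_9 : Fn2 := ⟨_, _, fun h1 h2 => (enc_add h1 (enc_rat _ 2 5))⟩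
noncomputable def kcg_12 : Fn2 := ⟨_, _, fun h1 h2 => (enc_add h1 (enc_rat _ 9 20))⟩
noncomputable def kcg_13 : Fn2 := ⟨_, _, fun h1 h2 => (enc_scale 6354239 5000000 h1)⟩
noncomputable def kcg_16 : Fn2 := ⟨_, _, fun h1 h2 => (enc_scale 456141 125000 h1)⟩
noncomputable def kcg_26 : Fn2 := ⟨_, _, fun h1 h2 => (enc_sub (enc_rat _ 21344149 500000) (enc_scale 2707587 25000 (kcg_3.enc h1 h2)))⟩
noncomputable def kcg_34 : Fn2 := ⟨_, _, fun h1 h2 => (enc_scale 7095629 5000000 h1)⟩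
noncomputable def kcg_39 : Fn2 := ⟨_, _, fun h1 h2 => (enc_scale 2303271 500000 h1)⟩
noncomputable def kcg_47 : Fn2 := ⟨_, _, fun h1 h2 => (enc_add (enc_scale 8915521 100000 (kcg_3.enc h1 h2)) (enc_rat _ 11111169 1000000))⟩
noncomputable def kcg_55 : Fn2 := ⟨_, _, fun h1 h2 => (enc_add h1 (enc_rat _ 7 20))⟩
noncomputable def kcg_56 : Fn2 := ⟨_, _, fun h1 h2 => (enc_scale 1196381 500000 h1)⟩
noncomputable def kcg_61 : Fn2 := ⟨_, _, fun h1 h2 => (enc_scale 1355147 500000 h1)⟩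
noncomputable def kcg_71 : Fn2 := ⟨_, _, fun h1 h2 => (enc_add (enc_scale 114363 2000 (kcg_3.enc h1 h2)) (enc_rat _ 8361557 1000000))⟩
noncomputable def kcg_78 : Fn2 := ⟨_, _, fun h1 h2 => (enc_add h1 (enc_rat _ 3 10))⟩
noncomputable def kcg_79 : Fn2 := ⟨_, _, fun h1 h2 => (enc_scale 5937073 2500000 h1)⟩
noncomputable def kcg_84 : Fn2 := ⟨_, _, fun h1 h2 => (enc_scale 2303587 500000 h1)⟩
noncomputable def kcg_97 : Fn2 := ⟨_, _, fun h1 h2 => (enc_subr 2180053 250000 (enc_neg (enc_scale 962197 50000 (kcg_3.enc h1 h2))))⟩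
noncomputable def kcg_102 : Fn2 := ⟨_, _, fun h1 h2 => (enc_scale 6223339 5000000 h1)⟩
noncomputable def kcg_107 : Fn2 := ⟨_, _, fun h1 h2 => (enc_scale 227813 125000 h1)⟩
noncomputable def kcg_120 : Fn2 := ⟨_, _, fun h1 h2 => (enc_subr 13883017 1000000 (enc_neg (enc_scale 3644941 100000 (kcg_3.enc h1 h2))))⟩
noncomputable def kcg_130 : Fn2 := ⟨_, _, fun h1 h2 => (enc_add h1 (enc_rat _ 3 20))⟩
noncomputable def kcg_133 : Fn2 := ⟨_, _, fun h1 h2 => (enc_add h1 (enc_rat _ 1 5))⟩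
noncomputable def kcg_134 : Fn2 := ⟨_, _, fun h1 h2 => (enc_scale 308667 5000000 h1)⟩
noncomputable def kcg_138 : Fn2 := ⟨_, _, fun h1 h2 => (enc_scale 1 62500 h1)⟩
noncomputable def kcg_151 : Fn2 := ⟨_, _, fun h1 h2 => (enc_subr 12245007 1000000 (enc_neg (enc_scale 39 100000 (kcg_3.enc h1 h2))))⟩
noncomputable def kcg_156 : Fn2 := ⟨_, _, fun h1 h2 => (enc_scale 7593879 5000000 h1)⟩
noncomputable def kcg_160 : Fn2 := ⟨_, _, fun h1 h2 => (enc_scale 796983 500000 h1)⟩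
noncomputable def kcg_172 : Fn2 := ⟨_, _, fun h1 h2 => (enc_subr 8447917 500000 (enc_neg (enc_scale 796981 25000 (kcg_3.enc h1 h2))))⟩
noncomputable def kcg_180 : Fn2 := ⟨_, _, fun h1 h2 => (enc_add h1 (enc_rat _ 1 10))⟩
noncomputable def kcg_181 : Fn2 := ⟨_, _, fun h1 h2 => (enc_scale 5975329 2500000 h1)⟩
noncomputable def kcg_184 : Fn2 := ⟨_, _, fun h1 h2 => (enc_scale 2499999 500000 h1)⟩
noncomputable def kcg_195 : Fn2 := ⟨_, _, fun h1 h2 => (enc_subr 106257 200000 (enc_neg (enc_scale 453017 12500 (kcg_3.enc h1 h2))))⟩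
noncomputable def kcg_203 : Fn2 := ⟨_, _, fun h1 h2 => (enc_scale 217849 100000 h1)⟩
noncomputable def kcg_206 : Fn2 := ⟨_, _, fun h1 h2 => (enc_scale 212877 62500 h1)⟩
noncomputable def kcg_214 : Fn2 := ⟨_, _, fun h1 h2 => (enc_add (enc_scale 212877 3125 (kcg_3.enc h1 h2)) (enc_rat _ 4764121 1000000))⟩
noncomputable def kcg_219 : Fn2 := ⟨_, _, fun h1 h2 => (enc_scale 9701419 5000000 h1)⟩
noncomputable def kcg_226 : Fn2 := ⟨_, _, fun h1 h2 => (enc_sub (enc_rat _ 1 4) h1)⟩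
noncomputable def kcg_227 : Fn2 := ⟨_, _, fun h1 h2 => (enc_sub (enc_rat _ 2 5) h1)⟩
noncomputable def kcg_228 : Fn2 := ⟨_, _, fun h1 h2 => (enc_sub (enc_rat _ 9 20) h1)⟩
noncomputable def kcg_250 : Fn2 := ⟨_, _, fun h1 h2 => (enc_sub (enc_rat _ 7 20) h1)⟩
noncomputable def kcg_259 : Fn2 := ⟨_, _, fun h1 h2 => (enc_sub (enc_rat _ 3 10) h1)⟩
noncomputable def kcg_279 : Fn2 := ⟨_, _, fun h1 h2 => (enc_sub (enc_rat _ 3 20) h1)⟩
noncomputable def kcg_280 : Fn2 := ⟨_, _, fun h1 h2 => (enc_sub (enc_rat _ 1 5) h1)⟩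
noncomputable def kcg_301 : Fn2 := ⟨_, _, fun h1 h2 => (enc_sub (enc_rat _ 1 10) h1)⟩
noncomputable def kcg : Fn2 := ⟨_, _, fun h1 h2 => (enc_norm (enc_case h1 (enc_case (kcg_6.enc h1 h2) (enc_case (kcg_9.enc h1 h2) (enc_case (kcg_12.enc h1 h2) (enc_add (enc_add (enc_add (kcg_13.enc h1 h2) (enc_rat _ 26949001 50000000)) (enc_mul (enc_norm (kcg_3.enc h1 h2)) (enc_norm (enc_add (kcg_16.enc h1 h2) (enc_rat _ 13687801 10000000))))) (enc_mul (enc_norm (kcg_26.enc h1 h2)) (enc_norm (enc_mul (enc_norm (enc_add h1 (enc_rat _ 1 2))) (enc_norm (enc_sub (enc_neg (enc_rat _ 9 20)) h1)))))) (enc_add (enc_add (enc_subr 6715081 10000000 (enc_neg (kcg_34.enc h1 h2))) (enc_mul (enc_norm (kcg_3.enc h1 h2)) (enc_norm (enc_add (kcg_39.enc h1 h2) (enc_rat _ 4499041 2500000))))) (enc_mul (enc_norm (kcg_47.enc h1 h2)) (enc_norm (enc_mul (enc_norm (kcg_12.enc h1 h2)) (enc_norm (enc_sub (enc_neg (enc_rat _ 2 5))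 h1))))))) (enc_case (kcg_55.enc h1 h2) (enc_add (enc_add (enc_subr 53048129 50000000 (enc_neg (kcg_56.enc h1 h2))) (enc_mul (enc_norm (kcg_3.enc h1 h2)) (enc_norm (enc_subr 563559 500000 (enc_neg (kcg_61.enc h1 h2)))))) (enc_mul (enc_norm (kcg_71.enc h1 h2)) (enc_norm (enc_mul (enc_norm (kcg_9.enc h1 h2)) (enc_norm (enc_sub (enc_neg (enc_rat _ 7 20)) h1)))))) (enc_case (kcg_78.enc h1 h2) (enc_add (enc_add (enc_subr 10546861 10000000 (enc_neg (kcg_79.enc h1 h2))) (enc_mul (enc_norm (kcg_3.enc h1 h2)) (enc_norm (enc_subr 895513 500000 (enc_neg (kcg_84.enc h1 h2)))))) (enc_mul (enc_norm (kcg_97.enc h1 h2)) (enc_norm (enc_mul (enc_norm (kcg_55.enc h1 h2)) (enc_norm (enc_sub (enc_neg (enc_rat _ 3 10)) h1)))))) (enc_add (enc_add (enc_subr 8945471 12500000 (enc_neg (kcg_102.enc h1 h2))) (enc_mul (enc_norm (kcg_3.enc h1 h2)) (enc_norm (enc_subr 1529 1600 (enc_neg (kcg_107.enc h1 h2)))))) (enc_mul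 (enc_norm (kcg_120.enc h1 h2)) (enc_norm (enc_mul (enc_norm (kcg_78.enc h1 h2)) (enc_norm (enc_sub (enc_neg (enc_rat _ 1 4)) h1))))))))) (enc_case (kcg_130.enc h1 h2) (enc_case (kcg_133.enc h1 h2) (enc_add (enc_add (enc_subr 19451869 50000000 (kcg_134.enc h1 h2)) (enc_mul (enc_norm (kcg_3.enc h1 h2)) (enc_norm (enc_subr 500003 1000000 (enc_neg (kcg_138.enc h1 h2)))))) (enc_mul (enc_norm (kcg_151.enc h1 h2)) (enc_norm (enc_mul (enc_norm (kcg_6.enc h1 h2)) (enc_norm (enc_sub (enc_neg (enc_rat _ 1 5)) h1)))))) (enc_add (enc_add (enc_subr 976289 10000000 (kcg_156.enc h1 h2)) (enc_mul (enc_norm (kcg_3.enc h1 h2)) (enc_norm (enc_subr 906033 5000000 (kcg_160.enc h1 h2))))) (enc_mul (enc_norm (kcg_172.enc h1 h2)) (enc_norm (enc_mul (enc_norm (kcg_133.enc h1 h2)) (enc_norm (enc_sub (enc_neg (enc_rat _ 3 20)) h1))))))) (enc_case (kcg_180.enc h1 h2) (enc_add (enc_add (enc_add (kcg_181.enc h1 h2) (enc_rat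 _ 3307447 100000000)) (enc_mul (enc_norm (kcg_3.enc h1 h2)) (enc_norm (enc_add (kcg_184.enc h1 h2) (enc_rat _ 1648491 5000000))))) (enc_mul (enc_norm (kcg_195.enc h1 h2)) (enc_norm (enc_mul (enc_norm (kcg_130.enc h1 h2)) (enc_norm (enc_sub (enc_neg (enc_rat _ 1 10)) h1)))))) (enc_case (enc_add h1 (enc_rat _ 1 20)) (enc_add (enc_add (enc_add (kcg_203.enc h1 h2) (enc_rat _ 1191031 100000000)) (enc_mul (enc_norm (kcg_3.enc h1 h2)) (enc_norm (enc_add (kcg_206.enc h1 h2) (enc_rat _ 212877 1250000))))) (enc_mul (enc_norm (kcg_214.enc h1 h2)) (enc_norm (enc_mul (enc_norm (kcg_180.enc h1 h2)) (enc_norm (enc_sub (enc_neg (enc_rat _ 1 20)) h1)))))) (kcg_219.enc h1 h2))))) (enc_neg (enc_case (kcg_226.enc h1 h2) (enc_case (kcg_227.enc h1 h2) (enc_case (kcg_228.enc h1 h2) (enc_add (enc_add (enc_sub (enc_rat _ 26949001 50000000) (kcg_13.enc h1 h2)) (enc_mul (enc_norm (kcg_3.enc h1 h2)) (enc_norm (enc_sub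 (enc_rat _ 13687801 10000000) (kcg_16.enc h1 h2))))) (enc_mul (enc_norm (kcg_26.enc h1 h2)) (enc_norm (enc_mul (enc_norm (enc_sub (enc_rat _ 1 2) h1)) (enc_norm (enc_subr 9 20 h1)))))) (enc_add (enc_add (enc_subr 6715081 10000000 (kcg_34.enc h1 h2)) (enc_mul (enc_norm (kcg_3.enc h1 h2)) (enc_norm (enc_sub (enc_rat _ 4499041 2500000) (kcg_39.enc h1 h2))))) (enc_mul (enc_norm (kcg_47.enc h1 h2)) (enc_norm (enc_mul (enc_norm (kcg_228.enc h1 h2)) (enc_norm (enc_subr 2 5 h1))))))) (enc_case (kcg_250.enc h1 h2) (enc_add (enc_add (enc_subr 53048129 50000000 (kcg_56.enc h1 h2)) (enc_mul (enc_norm (kcg_3.enc h1 h2)) (enc_norm (enc_subr 563559 500000 (kcg_61.enc h1 h2))))) (enc_mul (enc_norm (kcg_71.enc h1 h2)) (enc_norm (enc_mul (enc_norm (kcg_227.enc h1 h2)) (enc_norm (enc_subr 7 20 h1)))))) (enc_case (kcg_259.enc h1 h2) (enc_add (enc_add (enc_subr 10546861 10000000 (kcg_79.enc h1 h2)) (enc_mul (enc_norm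 (kcg_3.enc h1 h2)) (enc_norm (enc_subr 895513 500000 (kcg_84.enc h1 h2))))) (enc_mul (enc_norm (kcg_97.enc h1 h2)) (enc_norm (enc_mul (enc_norm (kcg_250.enc h1 h2)) (enc_norm (enc_subr 3 10 h1)))))) (enc_add (enc_add (enc_subr 8945471 12500000 (kcg_102.enc h1 h2)) (enc_mul (enc_norm (kcg_3.enc h1 h2)) (enc_norm (enc_subr 1529 1600 (kcg_107.enc h1 h2))))) (enc_mul (enc_norm (kcg_120.enc h1 h2)) (enc_norm (enc_mul (enc_norm (kcg_259.enc h1 h2)) (enc_norm (enc_subr 1 4 h1))))))))) (enc_case (kcg_279.enc h1 h2) (enc_case (kcg_280.enc h1 h2) (enc_add (enc_add (enc_subr 19451869 50000000 (enc_neg (kcg_134.enc h1 h2))) (enc_mul (enc_norm (kcg_3.enc h1 h2)) (enc_norm (enc_subr 500003 1000000 (kcg_138.enc h1 h2))))) (enc_mul (enc_norm (kcg_151.enc h1 h2)) (enc_norm (enc_mul (enc_norm (kcg_226.enc h1 h2)) (enc_norm (enc_subr 1 5 h1)))))) (enc_add (enc_add (enc_subr 976289 10000000 (enc_neg (kcg_156.enc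 h1 h2))) (enc_mul (enc_norm (kcg_3.enc h1 h2)) (enc_norm (enc_subr 906033 5000000 (enc_neg (kcg_160.enc h1 h2)))))) (enc_mul (enc_norm (kcg_172.enc h1 h2)) (enc_norm (enc_mul (enc_norm (kcg_280.enc h1 h2)) (enc_norm (enc_subr 3 20 h1))))))) (enc_case (kcg_301.enc h1 h2) (enc_add (enc_add (enc_sub (enc_rat _ 3307447 100000000) (kcg_181.enc h1 h2)) (enc_mul (enc_norm (kcg_3.enc h1 h2)) (enc_norm (enc_sub (enc_rat _ 1648491 5000000) (kcg_184.enc h1 h2))))) (enc_mul (enc_norm (kcg_195.enc h1 h2)) (enc_norm (enc_mul (enc_norm (kcg_279.enc h1 h2)) (enc_norm (enc_subr 1 10 h1)))))) (enc_case (enc_sub (enc_rat _ 1 20) h1) (enc_add (enc_add (enc_sub (enc_rat _ 1191031 100000000) (kcg_203.enc h1 h2)) (enc_mul (enc_norm (kcg_3.enc h1 h2)) (enc_norm (enc_sub (enc_rat _ 212877 1250000) (kcg_206.enc h1 h2))))) (enc_mul (enc_norm (kcg_214.enc h1 h2)) (enc_norm (enc_mul (enc_norm (kcg_301.enc h1 h2)) (enc_norm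 (enc_subr 1 20 h1)))))) (enc_neg (kcg_219.enc h1 h2)))))))))⟩
noncomputable def kf0q0_9 : Fn2 := ⟨_, _, fun h1 h2 => (enc_scale 3 2 h1)⟩
noncomputable def kf0q0_12 : Fn2 := ⟨_, _, fun h1 h2 => (enc_add (enc_pnc _ 1) (c1g.enc h1))⟩
noncomputable def kf0q0 : Fn2 := ⟨_, _, fun h1 h2 => (enc_norm (enc_add (enc_mul (enc_norm (enc_mul (enc_norm (enc_sub (c1g.enc h1) (kf0q0_9.enc h1 h2))) (enc_norm (kf0q0_12.enc h1 h2)))) (enc_inv (enc_sub (kf0q0_12.enc h1 h2) (kf0q0_9.enc h1 h2)))) (enc_mul h1 (kcg.enc (enc_norm (enc_sub (enc_scale 3 4 h1) (enc_half (c1g.enc h1)))) h2))))⟩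
noncomputable def txg_4 : Fn3 := ⟨_, _, fun h1 h2 h3 => (enc_subr 72 125 h3)⟩
noncomputable def txg_6 : Fn3 := ⟨_, _, fun h1 h2 h3 => (enc_add h1 (enc_half h2))⟩
noncomputable def txg_27 : Fn3 := ⟨_, _, fun h1 h2 h3 => (enc_add h1 (enc_rat _ 13 50))⟩
noncomputable def txg_30 : Fn3 := ⟨_, _, fun h1 h2 h3 => (enc_add h1 (enc_rat _ 19 50))⟩
noncomputable def txg_33 : Fn3 := ⟨_, _, fun h1 h2 h3 => (enc_add h1 (enc_rat _ 11 25))⟩
noncomputable def txg_77 : Fn3 := ⟨_, _, fun h1 h2 h3 => (enc_add h1 (enc_rat _ 8 25))⟩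
noncomputable def txg_121 : Fn3 := ⟨_, _, fun h1 h2 h3 => (enc_add h1 (enc_rat _ 3 20))⟩
noncomputable def txg_124 : Fn3 := ⟨_, _, fun h1 h2 h3 => (enc_add h1 (enc_rat _ 1 5))⟩
noncomputable def txg_164 : Fn3 := ⟨_, _, fun h1 h2 h3 => (enc_add h1 (enc_rat _ 1 10))⟩
noncomputable def txg_186 : Fn3 := ⟨_, _, fun h1 h2 h3 => (enc_add h1 (enc_rat _ 7 100))⟩
noncomputable def txg_245 : Fn3 := ⟨_, _, fun h1 h2 h3 => (enc_subr 37 763 h1)⟩
noncomputable def txg_247 : Fn3 := ⟨_, _, fun h1 h2 h3 => (enc_subr 1 4 h1)⟩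
noncomputable def txg_248 : Fn3 := ⟨_, _, fun h1 h2 h3 => (enc_subr 1 10 h1)⟩
noncomputable def txg_249 : Fn3 := ⟨_, _, fun h1 h2 h3 => (enc_subr 7 100 h1)⟩
noncomputable def txg_290 : Fn3 := ⟨_, _, fun h1 h2 h3 => (enc_subr 3 20 h1)⟩
noncomputable def txg_309 : Fn3 := ⟨_, _, fun h1 h2 h3 => (enc_subr 1 5 h1)⟩
noncomputable def txg_352 : Fn3 := ⟨_, _, fun h1 h2 h3 => (enc_subr 7 20 h1)⟩
noncomputable def txg_354 : Fn3 := ⟨_, _, fun h1 h2 h3 => (enc_subr 3 10 h1)⟩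
noncomputable def txg_396 : Fn3 := ⟨_, _, fun h1 h2 h3 => (enc_subr 2 5 h1)⟩
noncomputable def txg_418 : Fn3 := ⟨_, _, fun h1 h2 h3 => (enc_subr 11 25 h1)⟩
noncomputable def txg : Fn3 := ⟨_, _, fun h1 h2 h3 => (enc_case (enc_add h1 (enc_rat _ 47 914)) (enc_case (txg_27.enc h1 h2 h3) (enc_case (txg_30.enc h1 h2 h3) (enc_case (txg_33.enc h1 h2 h3) (enc_add (enc_add (enc_add (enc_scale 223351 3000000 h1) (enc_rat _ 223351 6000000)) (enc_mul (enc_norm (txg_4.enc h1 h2 h3)) (enc_norm (enc_subr 225253 1200000 (enc_neg (enc_scale 225253 600000 h1)))))) (enc_mul (enc_norm (enc_subr 899449 1000000 (enc_scale 614333 100000 (txg_4.enc h1 h2 h3)))) (enc_norm (enc_mul (enc_norm (enc_add h1 (enc_rat _ 1 2))) (enc_norm (enc_sub (enc_neg (enc_rat _ 11 25)) h1)))))) (enc_add (enc_add (enc_add (enc_scale 239357 6000000 h1) (enc_rat _ 165149 7500000)) (enc_mul (enc_norm (txg_4.enc h1 h2 h3)) (enc_norm (enc_subr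 3687217 10000000 (enc_neg (enc_scale 78681 100000 h1)))))) (enc_mul (enc_norm (enc_add (enc_scale 71313 100000 (txg_4.enc h1 h2 h3)) (enc_rat _ 1475409 1000000))) (enc_norm (enc_mul (enc_norm (txg_33.enc h1 h2 h3)) (enc_norm (enc_sub (enc_neg (enc_rat _ 19 50)) h1))))))) (enc_case (txg_77.enc h1 h2 h3) (enc_add (enc_add (enc_subr 588759 50000000 (enc_neg (enc_scale 98083 2000000 h1))) (enc_mul (enc_norm (txg_4.enc h1 h2 h3)) (enc_norm (enc_subr 4239739 30000000 (enc_neg (enc_scale 56519 300000 h1)))))) (enc_mul (enc_norm (enc_sub (enc_rat _ 6831 1000000) (enc_scale 267167 25000 (txg_4.enc h1 h2 h3)))) (enc_norm (enc_mul (enc_norm (txg_30.enc h1 h2 h3)) (enc_norm (enc_sub (enc_neg (enc_rat _ 8 25)) h1)))))) (enc_add (enc_add (enc_add (enc_scale 18421 500000 h1) (enc_rat _ 785377 50000000)) (enc_mul (enc_norm (txg_4.enc h1 h2 h3)) (enc_norm (enc_add (enc_scale 78833 300000 h1) (enc_rat _ 3661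 1200000))))) (enc_mul (enc_norm (enc_subr 719111 500000 (enc_scale 31671 10000 (txg_4.enc h1 h2 h3)))) (enc_norm (enc_mul (enc_norm (txg_77.enc h1 h2 h3)) (enc_norm (enc_sub (enc_neg (enc_rat _ 13 50)) h1)))))))) (enc_case (txg_121.enc h1 h2 h3) (enc_case (txg_124.enc h1 h2 h3) (enc_add (enc_add (enc_add (enc_scale 1523179 6000000 h1) (enc_rat _ 21639913 300000000)) (enc_mul (enc_norm (txg_4.enc h1 h2 h3)) (enc_norm (enc_add (enc_scale 186059 200000 h1) (enc_rat _ 220757 1250000))))) (enc_mul (enc_norm (enc_subr 5447 2500 (enc_neg (enc_scale 714619 50000 (txg_4.enc h1 h2 h3))))) (enc_norm (enc_mul (enc_norm (txg_27.enc h1 h2 h3)) (enc_norm (enc_sub (enc_neg (enc_rat _ 1 5)) h1)))))) (enc_add (enc_add (enc_add (enc_scale 499133 1250000 h1) (enc_rat _ 10122169 100000000)) (enc_mul (enc_norm (txg_4.enc h1 h2 h3)) (enc_norm (enc_add (enc_scale 591783 500000 h1) (enc_rat _ 1136299 5000000)))))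 (enc_mul (enc_norm (enc_subr 294299 1000000 (enc_scale 241709 20000 (txg_4.enc h1 h2 h3)))) (enc_norm (enc_mul (enc_norm (txg_124.enc h1 h2 h3)) (enc_norm (enc_sub (enc_neg (enc_rat _ 3 20)) h1))))))) (enc_case (txg_164.enc h1 h2 h3) (enc_add (enc_add (enc_add (enc_scale 1103857 2500000 h1) (enc_rat _ 2151143 20000000)) (enc_mul (enc_norm (txg_4.enc h1 h2 h3)) (enc_norm (enc_subr 447023 5000000 (enc_neg (enc_scale 92753 100000 h1)))))) (enc_mul (enc_norm (enc_subr 17201 31250 (enc_scale 753411 25000 (txg_4.enc h1 h2 h3)))) (enc_norm (enc_mul (enc_norm (txg_121.enc h1 h2 h3)) (enc_norm (enc_sub (enc_neg (enc_rat _ 1 10)) h1)))))) (enc_case (txg_186.enc h1 h2 h3) (enc_add (enc_add (enc_add (enc_scale 451243 1000000 h1) (enc_rat _ 10852717 100000000)) (enc_mul (enc_norm (txg_4.enc h1 h2 h3)) (enc_norm (enc_subr 932257 7500000 (enc_neg (enc_scale 95737 75000 h1)))))) (enc_mul (enc_norm (enc_add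 (enc_mul (enc_norm (enc_subr 1929761 50000 (enc_scale 509 1250 (txg_4.enc h1 h2 h3)))) (enc_norm (txg_4.enc h1 h2 h3))) (enc_rat _ 594043 1000000))) (enc_norm (enc_mul (enc_norm (txg_164.enc h1 h2 h3)) (enc_norm (enc_sub (enc_neg (enc_rat _ 7 100)) h1)))))) (enc_add (enc_add (enc_add (enc_add (enc_scale 3961007791105892 10551035163671875 h1) (enc_rat _ 108906887903595269 1055103516367187500)) (enc_mul (enc_norm (txg_4.enc h1 h2 h3)) (enc_norm (enc_subr 31159851452211603 1688165626187500000 (enc_scale 3976494255255321 16881656261875000 h1))))) (enc_mul (enc_sq (enc_norm (txg_4.enc h1 h2 h3))) (enc_norm (enc_subr 587611479 3694016687500 (enc_neg (enc_scale 83944497 36940166875 h1)))))) (enc_mul (enc_norm (enc_add (enc_mul (enc_norm (enc_subr 953271 50000 (enc_neg (enc_scale 22549 10000 (txg_4.enc h1 h2 h3))))) (enc_norm (txg_4.enc h1 h2 h3))) (enc_rat _ 780611 250000))) (enc_norm (enc_mul (enc_norm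 (txg_186.enc h1 h2 h3)) (enc_norm (enc_sub (enc_neg (enc_rat _ 47 914)) h1)))))))))) (enc_case (txg_245.enc h1 h2 h3) (enc_sub (enc_mul (enc_norm (enc_sub (enc_pnc _ 1) h2)) (enc_norm (enc_subn 1 (enc_nat 2 h2)))) (enc_mul (enc_norm (enc_nat 2 (enc_sub (enc_scale 4 3 (txg_6.enc h1 h2 h3)) h3))) (enc_norm (enc_mul (enc_norm (enc_subn 1 (enc_add (enc_scale 2 3 (txg_6.enc h1 h2 h3)) h2))) (kcg.enc h1 h3))))) (enc_case (txg_247.enc h1 h2 h3) (enc_case (txg_248.enc h1 h2 h3) (enc_case (txg_249.enc h1 h2 h3) (enc_add (enc_add (enc_add (enc_scale 258569996896391 3411926175000000 h1) (enc_rat _ 1260359899679671 12185450625000000)) (enc_mul (enc_norm (txg_4.enc h1 h2 h3)) (enc_norm (enc_subr 1975767033 149057500000 (enc_scale 517763289 596230000 h1))))) (enc_mul (enc_norm (enc_sub (enc_rat _ 597167 200000) (enc_scale 65999 5000 (txg_4.enc h1 h2 h3)))) (enc_norm (enc_mul (enc_norm (txg_245.enc h1 h2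 h3)) (enc_norm (enc_sub (enc_rat _ 7 100) h1)))))) (enc_add (enc_add (enc_sub (enc_rat _ 33141449 300000000) (enc_scale 1859 75000 h1)) (enc_mul (enc_norm (txg_4.enc h1 h2 h3)) (enc_norm (enc_subr 1028967 10000000 (enc_scale 214899 100000 h1))))) (enc_mul (enc_norm (enc_sub (enc_rat _ 121179 100000) (enc_scale 3322347 100000 (txg_4.enc h1 h2 h3)))) (enc_norm (enc_mul (enc_norm (txg_249.enc h1 h2 h3)) (enc_norm (enc_sub (enc_rat _ 1 10) h1))))))) (enc_case (txg_290.enc h1 h2 h3) (enc_add (enc_add (enc_sub (enc_rat _ 11890317 100000000) (enc_scale 545517 5000000 h1)) (enc_mul (enc_norm (txg_4.enc h1 h2 h3)) (enc_norm (enc_subr 631899 10000000 (enc_scale 875961 500000 h1))))) (enc_mul (enc_norm (enc_add (enc_scale 1393773 50000 (txg_4.enc h1 h2 h3)) (enc_rat _ 959259 1000000))) (enc_norm (enc_mul (enc_norm (txg_248.enc h1 h2 h3)) (enc_norm (enc_sub (enc_rat _ 3 20) h1)))))) (enc_case (txg_309.enc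 h1 h2 h3) (enc_add (enc_add (enc_sub (enc_rat _ 861519 6250000) (enc_scale 588423 2500000 h1)) (enc_mul (enc_norm (txg_4.enc h1 h2 h3)) (enc_norm (enc_sub (enc_rat _ 1289463 5000000) (enc_scale 97157 250000 h1))))) (enc_mul (enc_norm (enc_add (enc_scale 746777 50000 (txg_4.enc h1 h2 h3)) (enc_rat _ 1566059 1000000))) (enc_norm (enc_mul (enc_norm (txg_290.enc h1 h2 h3)) (enc_norm (enc_sub (enc_rat _ 1 5) h1)))))) (enc_add (enc_add (enc_sub (enc_rat _ 979609 6250000) (enc_scale 824603 2500000 h1)) (enc_mul (enc_norm (txg_4.enc h1 h2 h3)) (enc_norm (enc_sub (enc_rat _ 1825399 5000000) (enc_scale 231141 250000 h1))))) (enc_mul (enc_norm (enc_sub (enc_rat _ 323381 1000000) (enc_scale 421683 100000 (txg_4.enc h1 h2 h3)))) (enc_norm (enc_mul (enc_norm (txg_309.enc h1 h2 h3)) (enc_norm (enc_sub (enc_rat _ 1 4) h1))))))))) (enc_case (txg_352.enc h1 h2 h3) (enc_case (txg_354.enc h1 h2 h3) (enc_add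 (enc_add (enc_sub (enc_rat _ 2064513 12500000) (enc_scale 908839 2500000 h1)) (enc_mul (enc_norm (txg_4.enc h1 h2 h3)) (enc_norm (enc_sub (enc_rat _ 204373 625000) (enc_scale 96529 125000 h1))))) (enc_mul (enc_norm (enc_add (enc_scale 117019 100000 (txg_4.enc h1 h2 h3)) (enc_rat _ 175253 500000))) (enc_norm (enc_mul (enc_norm (txg_247.enc h1 h2 h3)) (enc_norm (enc_sub (enc_rat _ 3 10) h1)))))) (enc_add (enc_add (enc_sub (enc_rat _ 1598763 10000000) (enc_scale 1729599 5000000 h1)) (enc_mul (enc_norm (txg_4.enc h1 h2 h3)) (enc_norm (enc_sub (enc_rat _ 365831 1250000) (enc_scale 10278 15625 h1))))) (enc_mul (enc_norm (enc_subr 35141 50000 (enc_neg (enc_scale 345899 100000 (txg_4.enc h1 h2 h3))))) (enc_norm (enc_mul (enc_norm (txg_354.enc h1 h2 h3)) (enc_norm (enc_sub (enc_rat _ 7 20) h1))))))) (enc_case (txg_396.enc h1 h2 h3) (enc_add (enc_add (enc_sub (enc_rat _ 14160833 100000000) (enc_scale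 367157 1250000 h1)) (enc_mul (enc_norm (txg_4.enc h1 h2 h3)) (enc_norm (enc_sub (enc_rat _ 1983979 10000000) (enc_scale 194229 500000 h1))))) (enc_mul (enc_norm (enc_subr 85267 250000 (enc_neg (enc_scale 6024 3125 (txg_4.enc h1 h2 h3))))) (enc_norm (enc_mul (enc_norm (txg_352.enc h1 h2 h3)) (enc_norm (enc_sub (enc_rat _ 2 5) h1)))))) (enc_case (txg_418.enc h1 h2 h3) (enc_add (enc_add (enc_sub (enc_rat _ 13673119 100000000) (enc_scale 1126131 4000000 h1)) (enc_mul (enc_norm (txg_4.enc h1 h2 h3)) (enc_norm (enc_sub (enc_rat _ 1330687 10000000) (enc_scale 45027 200000 h1))))) (enc_mul (enc_norm (enc_sub (enc_rat _ 60757 500000) (enc_scale 167349 100000 (txg_4.enc h1 h2 h3)))) (enc_norm (enc_mul (enc_norm (txg_396.enc h1 h2 h3)) (enc_norm (enc_sub (enc_rat _ 11 25) h1)))))) (enc_add (enc_add (enc_sub (enc_rat _ 642839 6000000) (enc_scale 642839 3000000 h1)) (enc_mul (enc_norm (txg_4.enc h1 h2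 h3)) (enc_norm (enc_sub (enc_rat _ 340093 1200000) (enc_scale 340093 600000 h1))))) (enc_mul (enc_norm (enc_subr 300473 250000 (enc_scale 340521 50000 (txg_4.enc h1 h2 h3)))) (enc_norm (enc_mul (enc_norm (txg_418.enc h1 h2 h3)) (enc_norm (enc_sub (enc_rat _ 1 2) h1))))))))))))⟩
noncomputable def l0q0 : Fn2 := ⟨_, _, fun h1 h2 => (enc_norm (txg.enc (enc_norm (enc_sub (enc_scale 3 4 h1) (enc_half (c1g.enc h1)))) (c1g.enc h1) h2))⟩
noncomputable def kc0q0_3 : Fn2 := ⟨_, _, fun h1 h2 => (enc_subr 72 125 h2)⟩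
noncomputable def kc0q0_8 : Fn2 := ⟨_, _, fun h1 h2 => (enc_sub (enc_scale 3 4 h1) (enc_half (c1g.enc h1)))⟩
noncomputable def kc0q0 : Fn2 := ⟨_, _, fun h1 h2 => (enc_norm (enc_case (enc_add (kc0q0_8.enc h1 h2) (enc_rat _ 8 25)) (enc_case (enc_add (kc0q0_8.enc h1 h2) (enc_rat _ 41 100)) (enc_add (enc_add (enc_scale 10193 30000 (kc0q0_8.enc h1 h2)) (enc_rat _ 10193 60000)) (enc_mul (enc_norm (kc0q0_3.enc h1 h2)) (enc_norm (enc_add (enc_scale 20897 1800 (kc0q0_8.enc h1 h2)) (enc_rat _ 20897 3600))))) (enc_add (enc_add (enc_scale 7919 18000 (kc0q0_8.enc h1 h2)) (enc_rat _ 949303 4500000)) (enc_mul (enc_norm (kc0q0_3.enc h1 h2)) (enc_norm (enc_add (enc_scale 144481 9000 (kc0q0_8.enc h1 h2)) (enc_rat _ 3432043 450000)))))) (enc_case (enc_add (kc0q0_8.enc h1 h2) (enc_rat _ 23 100)) (enc_add (enc_add (enc_scale 30241 9000 (kc0q0_8.enc h1 h2)) (enc_rat _ 5154343 4500000)) (enc_mul (enc_norm (kc0q0_3.enc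 h1 h2)) (enc_norm (enc_add (enc_scale 82907 4500 (kc0q0_8.enc h1 h2)) (enc_rat _ 3773371 450000))))) (enc_case (enc_add (kc0q0_8.enc h1 h2) (enc_rat _ 7 50)) (enc_add (enc_add (enc_scale 376037 45000 (kc0q0_8.enc h1 h2)) (enc_rat _ 10325479 4500000)) (enc_mul (enc_norm (kc0q0_3.enc h1 h2)) (enc_norm (enc_add (enc_scale 44131 2250 (kc0q0_8.enc h1 h2)) (enc_rat _ 487067 56250))))) (enc_add (enc_add (enc_scale 816452603719 80960000000 (kc0q0_8.enc h1 h2)) (enc_rat _ 10267783810033 4048000000000)) (enc_mul (enc_norm (kc0q0_3.enc h1 h2)) (enc_norm (enc_subr 6315264350941 1840000000000 (enc_neg (enc_scale 2456465421563 36800000000 (kc0q0_8.enc h1 h2)))))))))))⟩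
noncomputable def kf0q1_10 : Fn2 := ⟨_, _, fun h1 h2 => (enc_scale 3 2 h1)⟩
noncomputable def kf0q1 : Fn2 := ⟨_, _, fun h1 h2 => (enc_norm (enc_add (enc_mul (enc_norm (enc_mul (enc_norm (enc_add (enc_pnc _ 1) (enc_nat 2 (c1g.enc h1)))) (enc_norm (enc_sub (kf0q1_10.enc h1 h2) (c1g.enc h1))))) (enc_inv (enc_nat 2 (enc_sub (enc_add (enc_pnc _ 1) (kf0q1_10.enc h1 h2)) (c1g.enc h1))))) (enc_mul (enc_norm (enc_subn 1 h1)) (kcg.enc (enc_norm (enc_sub (enc_scale 3 4 h1) (enc_half (c1g.enc h1)))) h2))))⟩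
noncomputable def l0q1 : Fn2 := ⟨_, _, fun h1 h2 => (enc_norm (txg.enc (enc_norm (enc_sub (enc_scale 3 4 h1) (enc_half (c1g.enc h1)))) (c1g.enc h1) h2))⟩
noncomputable def gsg : Fn1 := ⟨_, _, fun h1 => (enc_sqrt (enc_sub (enc_pnc _ 1) (enc_scale 3 4 (enc_sq h1))))⟩
noncomputable def gug : Fn1 := ⟨_, _, fun h1 => (enc_norm (enc_add (enc_scale 3 4 h1) (enc_scale 3 2 (enc_sub (enc_pnc _ 1) (gsg.enc h1)))))⟩
noncomputable def kc0q1_3 : Fn2 := ⟨_, _, fun h1 h2 => (enc_subr 72 125 h2)⟩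
noncomputable def kc0q1_9 : Fn2 := ⟨_, _, fun h1 h2 => (enc_sub (enc_scale 3 4 h1) (enc_half (c1g.enc h1)))⟩
noncomputable def kc0q1 : Fn2 := ⟨_, _, fun h1 h2 => (enc_norm (enc_case (enc_add (kc0q1_9.enc h1 h2) (enc_rat _ 47 914)) (enc_case (enc_add (kc0q1_9.enc h1 h2) (enc_rat _ 8 25)) (enc_case (enc_add (kc0q1_9.enc h1 h2) (enc_rat _ 41 100)) (enc_add (enc_add (enc_scale 10193 30000 (kc0q1_9.enc h1 h2)) (enc_rat _ 10193 60000)) (enc_mul (enc_norm (kc0q1_3.enc h1 h2)) (enc_norm (enc_add (enc_scale 20897 1800 (kc0q1_9.enc h1 h2)) (enc_rat _ 20897 3600))))) (enc_add (enc_add (enc_scale 7919 18000 (kc0q1_9.enc h1 h2)) (enc_rat _ 949303 4500000)) (enc_mul (enc_norm (kc0q1_3.enc h1 h2)) (enc_norm (enc_add (enc_scale 144481 9000 (kc0q1_9.enc h1 h2)) (enc_rat _ 3432043 450000)))))) (enc_case (enc_add (kc0q1_9.enc h1 h2) (enc_rat _ 23 100)) (enc_add (enc_add (enc_scale 30241 9000 (kc0q1_9.enc h1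 h2)) (enc_rat _ 5154343 4500000)) (enc_mul (enc_norm (kc0q1_3.enc h1 h2)) (enc_norm (enc_add (enc_scale 82907 4500 (kc0q1_9.enc h1 h2)) (enc_rat _ 3773371 450000))))) (enc_case (enc_add (kc0q1_9.enc h1 h2) (enc_rat _ 7 50)) (enc_add (enc_add (enc_scale 376037 45000 (kc0q1_9.enc h1 h2)) (enc_rat _ 10325479 4500000)) (enc_mul (enc_norm (kc0q1_3.enc h1 h2)) (enc_norm (enc_add (enc_scale 44131 2250 (kc0q1_9.enc h1 h2)) (enc_rat _ 487067 56250))))) (enc_add (enc_add (enc_scale 816452603719 80960000000 (kc0q1_9.enc h1 h2)) (enc_rat _ 10267783810033 4048000000000)) (enc_mul (enc_norm (kc0q1_3.enc h1 h2)) (enc_norm (enc_subr 6315264350941 1840000000000 (enc_neg (enc_scale 2456465421563 36800000000 (kc0q1_9.enc h1 h2)))))))))) (enc_case (enc_subr 37 763 (kc0q1_9.enc h1 h2)) (enc_sub (enc_add (enc_add (enc_rat _ 3 4) (enc_scale 3 2 h1)) (enc_scale 3 4 (enc_mul (enc_norm (enc_mul h1 (enc_inv (c1g.enc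 h1)))) (gug.enc h1)))) (enc_mul (kcg.enc (enc_norm (kc0q1_9.enc h1 h2)) h2) (enc_norm (enc_add (gug.enc h1) (enc_nat 2 (c1g.enc h1)))))) (enc_case (enc_subr 23 100 (kc0q1_9.enc h1 h2)) (enc_case (enc_subr 7 50 (kc0q1_9.enc h1 h2)) (enc_add (enc_sub (enc_rat _ 79770611580249 34910000000000) (enc_scale 6153830758607 698200000000 (kc0q1_9.enc h1 h2))) (enc_mul (enc_norm (kc0q1_3.enc h1 h2)) (enc_norm (enc_sub (enc_rat _ 530469 1745500) (enc_scale 10939131 1745500 (kc0q1_9.enc h1 h2)))))) (enc_add (enc_sub (enc_rat _ 2282677 1000000) (enc_scale 8797 1000 (kc0q1_9.enc h1 h2))) (enc_mul (enc_norm (kc0q1_3.enc h1 h2)) (enc_norm (enc_subr 13561 28125 (enc_neg (enc_scale 587 900 (kc0q1_9.enc h1 h2)))))))) (enc_case (enc_subr 8 25 (kc0q1_9.enc h1 h2)) (enc_add (enc_sub (enc_rat _ 20381483 9000000) (enc_scale 39233 4500 (kc0q1_9.enc h1 h2))) (enc_mul (enc_norm (kc0q1_3.enc h1 h2)) (enc_norm (enc_subr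 1550447 450000 (enc_scale 27521 2250 (kc0q1_9.enc h1 h2)))))) (enc_case (enc_subr 41 100 (kc0q1_9.enc h1 h2)) (enc_add (enc_subr 20557493 9000000 (enc_scale 494683 90000 (kc0q1_9.enc h1 h2))) (enc_mul (enc_norm (kc0q1_3.enc h1 h2)) (enc_norm (enc_sub (enc_rat _ 2578433 450000) (enc_scale 147971 9000 (kc0q1_9.enc h1 h2)))))) (enc_add (enc_subr 3061 18000 (enc_scale 3061 9000 (kc0q1_9.enc h1 h2))) (enc_mul (enc_norm (kc0q1_3.enc h1 h2)) (enc_norm (enc_subr 20221 3600 (enc_scale 20221 1800 (kc0q1_9.enc h1 h2))))))))))))⟩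
noncomputable def yag : Fn1 := ⟨_, _, fun h1 => (enc_sqrt (enc_scale 4 3 (enc_sub (enc_pnc _ 1) (enc_sq h1))))⟩
noncomputable def kfc02 : Fn2 := ⟨_, _, fun h1 h2 => (enc_norm (enc_add h1 (enc_mul (enc_norm (enc_subn 1 (yag.enc h1))) (kcg.enc (enc_neg h1) h2))))⟩
noncomputable def lc02_7 : Fn2 := ⟨_, _, fun h1 h2 => (enc_scale 3 4 (yag.enc h1))⟩
noncomputable def lc02_8 : Fn2 := ⟨_, _, fun h1 h2 => (enc_half h1)⟩
noncomputable def lc02 : Fn2 := ⟨_, _, fun h1 h2 => (enc_norm (enc_sub (txg.enc (enc_neg h1) (enc_norm (enc_add (lc02_7.enc h1 h2) (lc02_8.enc h1 h2))) h2) (txg.enc h1 (enc_norm (enc_sub (lc02_7.enc h1 h2) (lc02_8.enc h1 h2))) h2)))⟩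
noncomputable def kcc02_4 : Fn2 := ⟨_, _, fun h1 h2 => (enc_subr 72 125 h2)⟩
noncomputable def kcc02 : Fn2 := ⟨_, _, fun h1 h2 => (enc_norm (enc_case (enc_subr 1 5 h1) (enc_case (enc_subr 1 10 h1) (enc_add (enc_scale 5111 20000 h1) (enc_mul (enc_norm (kcc02_4.enc h1 h2)) (enc_scale 23233 10000 h1))) (enc_add (enc_sub (enc_rat _ 916 15625) (enc_scale 33069 100000 h1)) (enc_mul (enc_norm (kcc02_4.enc h1 h2)) (enc_norm (enc_add (enc_scale 383 2000 h1) (enc_rat _ 10659 50000)))))) (enc_case (enc_subr 3 10 h1) (enc_add (enc_sub (enc_rat _ 6383 500000) (enc_scale 507 5000 h1)) (enc_mul (enc_norm (kcc02_4.enc h1 h2)) (enc_norm (enc_subr 5089 10000 (enc_scale 38019 10000 h1))))) (enc_case (enc_subr 2 5 h1) (enc_add (enc_subr 34483 200000 (enc_scale 51587 100000 h1)) (enc_mul (enc_norm (kcc02_4.enc h1 h2)) (enc_norm (enc_subr 1217 1250 (enc_scale 53509 10000 h1))))) (enc_add (enc_sub (enc_rat _ 33933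 200000) (enc_scale 33933 100000 h1)) (enc_mul (enc_norm (kcc02_4.enc h1 h2)) (enc_norm (enc_sub (enc_rat _ 29169 5000) (enc_scale 29169 2500 h1)))))))))⟩
noncomputable def swg : Fn1 := ⟨_, _, fun h1 => (enc_sqrt (enc_sub (enc_pnc _ 1) (enc_scale 3 4 (enc_sq (enc_norm (enc_subn 1 h1))))))⟩
noncomputable def cv1m : Fn1 := ⟨_, _, fun h1 => (enc_norm (enc_add (enc_scale 23 25 (c1g.enc h1)) (enc_scale 2 25 (enc_add (swg.enc h1) (enc_rat _ 1 2)))))⟩
noncomputable def bf1q0_3 : Fn2 := ⟨_, _, fun h1 h2 => (enc_subr 72 125 h2)⟩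
noncomputable def bf1q0 : Fn2 := ⟨_, _, fun h1 h2 => (enc_norm (enc_case (enc_subr 3 10 h1) (enc_case (enc_subr 1 10 h1) (enc_add (enc_sub (enc_pnc _ 1) (enc_scale 2839 3125 h1)) (enc_mul (enc_norm (bf1q0_3.enc h1 h2)) (enc_scale 209 2500 h1))) (enc_case (enc_subr 1 5 h1) (enc_add (enc_sub (enc_rat _ 106669 100000) (enc_scale 78769 50000 h1)) (enc_mul (enc_norm (bf1q0_3.enc h1 h2)) (enc_norm (enc_sub (enc_rat _ 511 50000) (enc_scale 93 5000 h1))))) (enc_add (enc_sub (enc_rat _ 144597 125000) (enc_scale 202581 100000 h1)) (enc_mul (enc_norm (bf1q0_3.enc h1 h2)) (enc_norm (enc_sub (enc_rat _ 1729 10000) (enc_scale 104 125 h1))))))) (enc_case (enc_subr 79 200 h1) (enc_add (enc_sub (enc_rat _ 21937587 19000000) (enc_scale 95883 47500 h1)) (enc_mul (enc_norm (bf1q0_3.enc h1 h2)) (enc_norm (enc_sub (enc_rat _ 1009 7600) (enc_scale 6633 9500 h1))))) (enc_case (enc_subr 453 1000 h1) (enc_add (enc_sub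 (enc_rat _ 31321813 29000000) (enc_scale 26533 14500 h1)) (enc_mul (enc_norm (bf1q0_3.enc h1 h2)) (enc_norm (enc_subr 515549 5800000 (enc_neg (enc_scale 159 1160 h1)))))) (enc_add (enc_sub (enc_rat _ 25169801 23500000) (enc_scale 85069 47000 h1)) (enc_mul (enc_norm (bf1q0_3.enc h1 h2)) (enc_norm (enc_subr 93269 940000 (enc_neg (enc_scale 537 4700 h1))))))))))⟩
noncomputable def kf1q0 : Fn2 := ⟨_, _, fun h1 h2 => (enc_norm (enc_mul (cv1m.enc h1) (bf1q0.enc h1 h2)))⟩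
noncomputable def bx1q0_3 : Fn2 := ⟨_, _, fun h1 h2 => (enc_subr 72 125 h2)⟩
noncomputable def bx1q0 : Fn2 := ⟨_, _, fun h1 h2 => (enc_norm (enc_case (enc_subr 3 10 h1) (enc_case (enc_subr 1 10 h1) (enc_sub (enc_scale 339 5000 h1) (enc_mul (enc_norm (bx1q0_3.enc h1 h2)) (enc_scale 489 2500 h1))) (enc_case (enc_subr 1 5 h1) (enc_add (enc_add (enc_scale 2651 50000 h1) (enc_rat _ 739 500000)) (enc_mul (enc_norm (bx1q0_3.enc h1 h2)) (enc_norm (enc_sub (enc_rat _ 3757 100000) (enc_scale 5713 10000 h1))))) (enc_add (enc_add (enc_scale 4343 100000 h1) (enc_rat _ 849 250000)) (enc_mul (enc_norm (bx1q0_3.enc h1 h2)) (enc_norm (enc_subr 12719 100000 (enc_scale 101 400 h1))))))) (enc_case (enc_subr 79 200 h1) (enc_add (enc_subr 214929 3800000 (enc_scale 2889 11875 h1)) (enc_mul (enc_norm (bx1q0_3.enc h1 h2)) (enc_norm (enc_subr 108419 475000 (enc_scale 5599 9500 h1))))) (enc_case (enc_subr 453 1000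 h1) (enc_add (enc_subr 5422389 58000000 (enc_scale 19533 58000 h1)) (enc_mul (enc_norm (bx1q0_3.enc h1 h2)) (enc_norm (enc_subr 703 145000 (enc_scale 69 2900 h1))))) (enc_add (enc_subr 307851 2937500 (enc_scale 8501 23500 h1)) (enc_mul (enc_norm (bx1q0_3.enc h1 h2)) (enc_norm (enc_sub (enc_rat _ 3452551 4700000) (enc_scale 378 235 h1)))))))))⟩
noncomputable def l1q0 : Fn2 := ⟨_, _, fun h1 h2 => (enc_norm (enc_mul (cv1m.enc h1) (bx1q0.enc h1 h2)))⟩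
noncomputable def bd1q0 : Fn2 := ⟨_, _, fun h1 h2 => (enc_norm (enc_add (enc_scale 117583 500000 h1) (enc_mul (enc_norm (enc_subr 72 125 h2)) (enc_scale 178823 25000 h1))))⟩
noncomputable def kc1q0 : Fn2 := ⟨_, _, fun h1 h2 => (enc_norm (enc_mul (cv1m.enc h1) (bd1q0.enc h1 h2)))⟩
noncomputable def bf1q1_3 : Fn2 := ⟨_, _, fun h1 h2 => (enc_subr 72 125 h2)⟩
noncomputable def bf1q1 : Fn2 := ⟨_, _, fun h1 h2 => (enc_norm (enc_case (enc_subr 7 10 h1) (enc_case (enc_subr 3 5 h1) (enc_add (enc_subr 555379 500000 (enc_scale 202557 100000 h1)) (enc_mul (enc_norm (bf1q1_3.enc h1 h2)) (enc_norm (enc_sub (enc_rat _ 1167 6250) (enc_scale 3871 10000 h1))))) (enc_add (enc_subr 486511 500000 (enc_scale 179601 100000 h1)) (enc_mul (enc_norm (bf1q1_3.enc h1 h2)) (enc_norm (enc_sub (enc_rat _ 6279 12500) (enc_scale 9131 10000 h1)))))) (enc_case (enc_subr 4 5 h1) (enc_add (enc_subr 257609 250000 (enc_scale 187803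 100000 h1)) (enc_mul (enc_norm (bf1q1_3.enc h1 h2)) (enc_norm (enc_sub (enc_rat _ 25459 100000) (enc_scale 699 1250 h1))))) (enc_case (enc_subr 9 10 h1) (enc_add (enc_subr 360321 250000 (enc_scale 239159 100000 h1)) (enc_mul (enc_norm (bf1q1_3.enc h1 h2)) (enc_norm (enc_subr 2949 4000 (enc_scale 3403 5000 h1))))) (enc_add (enc_subr 714603 500000 (enc_scale 237817 100000 h1)) (enc_mul (enc_norm (bf1q1_3.enc h1 h2)) (enc_norm (enc_subr 130209 100000 (enc_scale 6541 5000 h1)))))))))⟩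
noncomputable def kf1q1 : Fn2 := ⟨_, _, fun h1 h2 => (enc_norm (enc_mul (cv1m.enc h1) (bf1q1.enc h1 h2)))⟩
noncomputable def bx1q1_3 : Fn2 := ⟨_, _, fun h1 h2 => (enc_subr 72 125 h2)⟩
noncomputable def bx1q1 : Fn2 := ⟨_, _, fun h1 h2 => (enc_norm (enc_case (enc_subr 7 10 h1) (enc_case (enc_subr 3 5 h1) (enc_add (enc_subr 3581 40000 (enc_scale 3979 12500 h1)) (enc_mul (enc_norm (bx1q1_3.enc h1 h2)) (enc_norm (enc_subr 8851 100000 (enc_scale 19 250 h1))))) (enc_add (enc_add (enc_scale 6733 100000 h1) (enc_rat _ 61069 1000000)) (enc_mul (enc_norm (bx1q1_3.enc h1 h2)) (enc_norm (enc_subr 73807 100000 (enc_scale 5793 5000 h1)))))) (enc_case (enc_subr 4 5 h1) (enc_add (enc_sub (enc_rat _ 123999 1000000) (enc_scale 2257 100000 h1)) (enc_mul (enc_norm (bx1q1_3.enc h1 h2)) (enc_norm (enc_subr 5287 10000 (enc_scale 1719 2000 h1))))) (enc_case (enc_subr 9 10 h1) (enc_add (enc_sub (enc_rat _ 51963 200000)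 (enc_scale 9617 50000 h1)) (enc_mul (enc_norm (bx1q1_3.enc h1 h2)) (enc_norm (enc_sub (enc_rat _ 20537 50000) (enc_scale 787 2500 h1))))) (enc_add (enc_sub (enc_rat _ 58161 100000) (enc_scale 54989 100000 h1)) (enc_mul (enc_norm (bx1q1_3.enc h1 h2)) (enc_norm (enc_subr 2779 12500 (enc_scale 1943 5000 h1)))))))))⟩
noncomputable def l1q1 : Fn2 := ⟨_, _, fun h1 h2 => (enc_norm (enc_mul (cv1m.enc h1) (bx1q1.enc h1 h2)))⟩
noncomputable def bd1q1 : Fn2 := ⟨_, _, fun h1 h2 => (enc_norm (enc_add (enc_sub (enc_rat _ 10069 1600) (enc_scale 3482189 500000 h1)) (enc_mul (enc_norm (enc_subr 72 125 h2)) (enc_norm (enc_sub (enc_rat _ 110559 100000) (enc_scale 7493 3125 h1))))))⟩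
noncomputable def kc1q1 : Fn2 := ⟨_, _, fun h1 h2 => (enc_norm (enc_mul (cv1m.enc h1) (bd1q1.enc h1 h2)))⟩
noncomputable def xc12a : Fn1 := ⟨_, _, fun h1 => (enc_norm (enc_add (enc_scale 23 25 h1) (enc_scale 2 25 (enc_subr 1 2 (swg.enc (yag.enc h1))))))⟩
noncomputable def kfc12a_11 : Fn2 := ⟨_, _, fun h1 h2 => (enc_subr 72 125 h2)⟩
noncomputable def kfc12a : Fn2 := ⟨_, _, fun h1 h2 => (enc_norm (enc_mul (enc_norm (enc_add (enc_scale 23 25 h1) (enc_scale 2 25 (enc_subr 1 2 (swg.enc (yag.enc h1)))))) (enc_norm (enc_add (enc_sub (enc_pnc _ 1) (enc_scale 9701419 5000000 (enc_subn 1 (yag.enc h1)))) (enc_case (enc_subr 1 4 h1) (enc_case (enc_subr 1 10 h1) (enc_case (enc_subr 1 20 h1) (enc_sub (enc_neg (enc_scale 7951 50000 h1)) (enc_mul (enc_norm (kfc12a_11.enc h1 h2)) (enc_scale 18427 5000 h1))) (enc_add (enc_sub (enc_rat _ 3757 250000) (enc_scale 22979 50000 h1)) (enc_mul (enc_norm (kfc12a_11.enc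 h1 h2)) (enc_norm (enc_subr 483 100000 (enc_neg (enc_scale 2243 625 h1))))))) (enc_case (enc_subr 3 20 h1) (enc_add (enc_subr 1693 500000 (enc_neg (enc_scale 3443 12500 h1))) (enc_mul (enc_norm (kfc12a_11.enc h1 h2)) (enc_norm (enc_subr 2513 100000 (enc_neg (enc_scale 16929 5000 h1)))))) (enc_case (enc_subr 1 5 h1) (enc_add (enc_subr 104657 1000000 (enc_scale 3997 10000 h1)) (enc_mul (enc_norm (kfc12a_11.enc h1 h2)) (enc_norm (enc_subr 96239 100000 (enc_scale 14313 5000 h1))))) (enc_add (enc_subr 210549 1000000 (enc_scale 23229 25000 h1)) (enc_mul (enc_norm (kfc12a_11.enc h1 h2)) (enc_norm (enc_subr 105783 100000 (enc_scale 16699 5000 h1)))))))) (enc_case (enc_subr 7 20 h1) (enc_case (enc_subr 3 10 h1) (enc_add (enc_subr 54641 250000 (enc_scale 48061 50000 h1)) (enc_mul (enc_norm (kfc12a_11.enc h1 h2)) (enc_norm (enc_subr 65523 100000 (enc_scale 8647 5000 h1))))) (enc_add (enc_subr 20033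 250000 (enc_scale 24989 50000 h1)) (enc_mul (enc_norm (kfc12a_11.enc h1 h2)) (enc_norm (enc_subr 56409 100000 (enc_scale 891 625 h1)))))) (enc_case (enc_subr 2 5 h1) (enc_add (enc_sub (enc_rat _ 104437 1000000) (enc_scale 689 25000 h1)) (enc_mul (enc_norm (kfc12a_11.enc h1 h2)) (enc_norm (enc_subr 23047 100000 (enc_scale 1181 2500 h1))))) (enc_case (enc_subr 9 20 h1) (enc_add (enc_sub (enc_rat _ 406509 1000000) (enc_scale 39137 50000 h1)) (enc_mul (enc_norm (kfc12a_11.enc h1 h2)) (enc_norm (enc_subr 2483 20000 (enc_scale 1033 5000 h1))))) (enc_add (enc_sub (enc_rat _ 13569 25000) (enc_scale 13569 12500 h1)) (enc_mul (enc_norm (kfc12a_11.enc h1 h2)) (enc_norm (enc_subr 1559 5000 (enc_scale 1559 2500 h1)))))))))))))⟩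
noncomputable def epg_4 : Fn1 := ⟨_, _, fun h1 => (enc_sqrt (enc_rat _ 4 3))⟩
noncomputable def epg : Fn1 := ⟨_, _, fun h1 => (enc_norm (enc_sub (enc_mul (enc_norm (enc_subn 1 (epg_4.enc h1))) (enc_norm (enc_subn 3 (enc_scale 9701419 2500000 (enc_sub (epg_4.enc h1) (enc_nat 2 h1)))))) (enc_subr 115620103 250000000 (enc_neg (enc_scale 600325897 500000000 (enc_subr 72 125 h1))))))⟩
noncomputable def lc12a_11 : Fn2 := ⟨_, _, fun h1 h2 => (enc_subr 72 125 h2)⟩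
noncomputable def lc12a : Fn2 := ⟨_, _, fun h1 h2 => (enc_norm (enc_mul (enc_norm (enc_add (enc_scale 23 25 h1) (enc_scale 2 25 (enc_subr 1 2 (swg.enc (yag.enc h1)))))) (enc_norm (enc_add (enc_add (enc_subr 115620103 250000000 (enc_neg (enc_scale 600325897 500000000 (lc12a_11.enc h1 h2)))) (enc_case (enc_subr 1 4 h1) (enc_case (enc_subr 1 10 h1) (enc_case (enc_subr 1 20 h1) (enc_sub (enc_scale 1593 6250 h1) (enc_mul (enc_norm (lc12a_11.enc h1 h2)) (enc_scale 31 5000 h1))) (enc_add (enc_subr 14189 1000000 (enc_scale 26933 50000 h1)) (enc_mul (enc_norm (lc12a_11.enc h1 h2)) (enc_norm (enc_subr 14789 100000 (enc_scale 7379 2500 h1)))))) (enc_case (enc_subr 3 20 h1) (enc_add (enc_subr 62613 1000000 (enc_scale 10229 10000 h1)) (enc_mul (enc_norm (lc12a_11.enc h1 h2)) (enc_norm (enc_subr 733 20000 (enc_scale 2299 1250 h1))))) (enc_case (enc_subr 1 5 h1) (enc_add (enc_subr 102069 1000000 (enc_scale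 64297 50000 h1)) (enc_mul (enc_norm (lc12a_11.enc h1 h2)) (enc_norm (enc_add (enc_scale 7931 5000 h1) (enc_rat _ 13 10000))))) (enc_add (enc_subr 30821 200000 (enc_scale 38653 25000 h1)) (enc_mul (enc_norm (lc12a_11.enc h1 h2)) (enc_norm (enc_subr 4371 10000 (enc_scale 18891 5000 h1)))))))) (enc_case (enc_subr 7 20 h1) (enc_case (enc_subr 3 10 h1) (enc_add (enc_subr 7539 40000 (enc_scale 4209 2500 h1)) (enc_mul (enc_norm (lc12a_11.enc h1 h2)) (enc_norm (enc_subr 5413 20000 (enc_scale 7781 2500 h1))))) (enc_add (enc_subr 17697 200000 (enc_scale 13503 10000 h1)) (enc_mul (enc_norm (lc12a_11.enc h1 h2)) (enc_norm (enc_subr 6391 20000 (enc_scale 16377 5000 h1)))))) (enc_case (enc_subr 2 5 h1) (enc_add (enc_add (enc_scale 8689 10000 h1) (enc_rat _ 16001 200000)) (enc_mul (enc_norm (lc12a_11.enc h1 h2)) (enc_norm (enc_subr 16051 50000 (enc_scale 8199 2500 h1))))) (enc_case (enc_subr 9 20 h1) (enc_add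 (enc_add (enc_scale 22627 50000 h1) (enc_rat _ 246549 1000000)) (enc_mul (enc_norm (lc12a_11.enc h1 h2)) (enc_norm (enc_add (enc_scale 292 125 h1) (enc_rat _ 2821 50000))))) (enc_add (enc_add (enc_scale 3072103 12500000 h1) (enc_rat _ 84899073 250000000)) (enc_mul (enc_norm (lc12a_11.enc h1 h2)) (enc_norm (enc_add (enc_scale 46515897 25000000 h1) (enc_rat _ 135166927 500000000)))))))))) (enc_mul (epg.enc h2) (enc_norm (enc_sub (enc_pnc _ 1) (enc_nat 2 h1))))))))⟩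
noncomputable def kcc12a_11 : Fn2 := ⟨_, _, fun h1 h2 => (enc_subr 72 125 h2)⟩
noncomputable def kcc12a : Fn2 := ⟨_, _, fun h1 h2 => (enc_norm (enc_mul (enc_norm (enc_add (enc_scale 23 25 h1) (enc_scale 2 25 (enc_subr 1 2 (swg.enc (yag.enc h1)))))) (enc_norm (enc_add (enc_add (enc_scale 23233 10000 (kcc12a_11.enc h1 h2)) (enc_rat _ 5111 20000)) (enc_case (enc_subr 1 4 h1) (enc_sub (enc_neg (enc_scale 126111 250000 h1)) (enc_mul (enc_norm (kcc12a_11.enc h1 h2)) (enc_scale 76593 25000 h1))) (enc_add (enc_sub (enc_rat _ 52 15625) (enc_scale 129439 250000 h1)) (enc_mul (enc_norm (kcc12a_11.enc h1 h2)) (enc_norm (enc_sub (enc_rat _ 9893 12500) (enc_scale 155737 25000 h1))))))))))⟩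
noncomputable def xc12b : Fn1 := ⟨_, _, fun h1 => (enc_norm (enc_scale 2 25 (enc_subr 1 2 (swg.enc h1))))⟩
noncomputable def kfc12b_9 : Fn2 := ⟨_, _, fun h1 h2 => (enc_subr 72 125 h2)⟩
noncomputable def kfc12b : Fn2 := ⟨_, _, fun h1 h2 => (enc_norm (enc_mul (enc_norm (enc_scale 2 25 (enc_subr 1 2 (swg.enc h1)))) (enc_norm (enc_add (enc_sub (enc_pnc _ 1) (enc_scale 9701419 5000000 (enc_subn 1 h1))) (enc_case (enc_subr 127 100 h1) (enc_case (enc_subr 231 200 h1) (enc_pnc _ 0) (enc_add (enc_sub (enc_rat _ 2897433 1150000) (enc_scale 12543 5750 h1)) (enc_mul (enc_norm (kfc12b_9.enc h1 h2)) (enc_norm (enc_sub (enc_rat _ 231231 1150000) (enc_scale 1001 5750 h1)))))) (enc_case (enc_subr 139 100 h1) (enc_add (enc_sub (enc_rat _ 157327 62500) (enc_scale 5449 2500 h1)) (enc_mul (enc_norm (kfc12b_9.enc h1 h2)) (enc_norm (enc_sub (enc_rat _ 53647 600000) (enc_scale 517 6000 h1))))) (enc_add (enc_sub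 (enc_rat _ 432406 171875) (enc_scale 59911 27500 h1)) (enc_mul (enc_norm (kfc12b_9.enc h1 h2)) (enc_norm (enc_sub (enc_rat _ 44861 1100000) (enc_scale 563 11000 h1)))))))))))⟩
noncomputable def lc12b_9 : Fn2 := ⟨_, _, fun h1 h2 => (enc_subr 72 125 h2)⟩
noncomputable def lc12b : Fn2 := ⟨_, _, fun h1 h2 => (enc_norm (enc_mul (enc_norm (enc_scale 2 25 (enc_subr 1 2 (swg.enc h1)))) (enc_norm (enc_add (enc_add (enc_subr 115620103 250000000 (enc_neg (enc_scale 600325897 500000000 (lc12b_9.enc h1 h2)))) (enc_case (enc_subr 127 100 h1) (enc_case (enc_subr 231 200 h1) (enc_pnc _ 0) (enc_add (enc_subr 8849841 2875000 (enc_scale 38311 14375 h1)) (enc_mul (enc_norm (lc12b_9.enc h1 h2)) (enc_norm (enc_sub (enc_rat _ 3608451 575000) (enc_scale 15621 2875 h1)))))) (enc_case (enc_subr 139 100 h1) (enc_add (enc_subr 6156251 2000000 (enc_scale 53301 20000 h1)) (enc_mul (enc_norm (lc12b_9.enc h1 h2)) (enc_norm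 (enc_sub (enc_rat _ 7166483 1200000) (enc_scale 62333 12000 h1))))) (enc_add (enc_subr 16930559 5500000 (enc_scale 18323 6875 h1)) (enc_mul (enc_norm (lc12b_9.enc h1 h2)) (enc_norm (enc_sub (enc_rat _ 25857 4400) (enc_scale 56383 11000 h1)))))))) (epg.enc h2)))))⟩
noncomputable def kcc12b_9 : Fn2 := ⟨_, _, fun h1 h2 => (enc_subr 72 125 h2)⟩
noncomputable def kcc12b : Fn2 := ⟨_, _, fun h1 h2 => (enc_norm (enc_mul (enc_norm (enc_scale 2 25 (enc_subr 1 2 (swg.enc h1)))) (enc_norm (enc_add (enc_add (enc_scale 23233 10000 (kcc12b_9.enc h1 h2)) (enc_rat _ 5111 20000)) (enc_case (enc_subr 231 200 h1) (enc_pnc _ 0) (enc_add (enc_subr 148853397 11500000 (enc_scale 644387 57500 h1)) (enc_mul (enc_norm (kcc12b_9.enc h1 h2)) (enc_norm (enc_sub (enc_rat _ 28874153 575000) (enc_scale 374989 8625 h1))))))))))⟩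
noncomputable def cv1r : Fn1 := ⟨_, _, fun h1 => (enc_norm (enc_scale 2 25 (enc_subr 1 2 (swg.enc h1))))⟩
noncomputable def bf1q3_3 : Fn2 := ⟨_, _, fun h1 h2 => (enc_subr 72 125 h2)⟩
noncomputable def bf1q3 : Fn2 := ⟨_, _, fun h1 h2 => (enc_norm (enc_case (enc_subr 17 10 h1) (enc_case (enc_subr 1547 1000 h1) (enc_add (enc_sub (enc_rat _ 4998211 11750000) (enc_scale 4467 23500 h1)) (enc_mul (enc_norm (bf1q3_3.enc h1 h2)) (enc_norm (enc_sub (enc_rat _ 118178989 4700000) (enc_scale 18437 1175 h1))))) (enc_case (enc_subr 321 200 h1) (enc_add (enc_sub (enc_rat _ 12339927 29000000) (enc_scale 1103 5800 h1)) (enc_mul (enc_norm (bf1q3_3.enc h1 h2)) (enc_norm (enc_sub (enc_rat _ 145851561 5800000) (enc_scale 91017 5800 h1))))) (enc_add (enc_sub (enc_rat _ 126393 296875) (enc_scale 452 2375 h1)) (enc_mul (enc_norm (bf1q3_3.enc h1 h2)) (enc_norm (enc_sub (enc_rat _ 47778777 1900000) (enc_scale 149079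 9500 h1))))))) (enc_case (enc_subr 9 5 h1) (enc_add (enc_sub (enc_rat _ 212961 500000) (enc_scale 9521 50000 h1)) (enc_mul (enc_norm (bf1q3_3.enc h1 h2)) (enc_norm (enc_sub (enc_rat _ 1256807 50000) (enc_scale 156863 10000 h1))))) (enc_case (enc_subr 19 10 h1) (enc_add (enc_sub (enc_rat _ 212871 500000) (enc_scale 2379 12500 h1)) (enc_mul (enc_norm (bf1q3_3.enc h1 h2)) (enc_norm (enc_sub (enc_rat _ 78497 3125) (enc_scale 9798 625 h1))))) (enc_add (enc_sub (enc_rat _ 106369 250000) (enc_scale 9509 50000 h1)) (enc_mul (enc_norm (bf1q3_3.enc h1 h2)) (enc_norm (enc_sub (enc_rat _ 1255287 50000) (enc_scale 78349 5000 h1)))))))))⟩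
noncomputable def kf1q3 : Fn2 := ⟨_, _, fun h1 h2 => (enc_norm (enc_mul (cv1r.enc h1) (bf1q3.enc h1 h2)))⟩
noncomputable def bx1q3_3 : Fn2 := ⟨_, _, fun h1 h2 => (enc_subr 72 125 h2)⟩
noncomputable def bx1q3 : Fn2 := ⟨_, _, fun h1 h2 => (enc_norm (enc_case (enc_subr 17 10 h1) (enc_case (enc_subr 1547 1000 h1) (enc_add (enc_subr 27643507 47000000 (enc_scale 723 1175 h1)) (enc_mul (enc_norm (bx1q3_3.enc h1 h2)) (enc_norm (enc_subr 38191893 4700000 (enc_scale 24317 4700 h1))))) (enc_case (enc_subr 321 200 h1) (enc_add (enc_subr 34120209 58000000 (enc_scale 35693 58000 h1)) (enc_mul (enc_norm (bx1q3_3.enc h1 h2)) (enc_norm (enc_subr 11785617 1450000 (enc_scale 3752 725 h1))))) (enc_add (enc_subr 5590473 9500000 (enc_scale 29237 47500 h1)) (enc_mul (enc_norm (bx1q3_3.enc h1 h2)) (enc_norm (enc_subr 3860313 475000 (enc_scale 24579 4750 h1))))))) (enc_case (enc_subr 9 5 h1) (enc_add (enc_subr 588529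 1000000 (enc_scale 12311 20000 h1)) (enc_mul (enc_norm (bx1q3_3.enc h1 h2)) (enc_norm (enc_subr 40593 5000 (enc_scale 3231 625 h1))))) (enc_case (enc_subr 19 10 h1) (enc_add (enc_subr 588313 1000000 (enc_scale 61543 100000 h1)) (enc_mul (enc_norm (bx1q3_3.enc h1 h2)) (enc_norm (enc_subr 25329 3125 (enc_scale 25811 5000 h1))))) (enc_add (enc_subr 587971 1000000 (enc_scale 2461 4000 h1)) (enc_mul (enc_norm (bx1q3_3.enc h1 h2)) (enc_norm (enc_subr 809483 100000 (enc_scale 51567 10000 h1)))))))))⟩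
noncomputable def l1q3 : Fn2 := ⟨_, _, fun h1 h2 => (enc_norm (enc_mul (cv1r.enc h1) (bx1q3.enc h1 h2)))⟩
noncomputable def bd1q3 : Fn2 := ⟨_, _, fun h1 h2 => (enc_norm (enc_add (enc_sub (enc_rat _ 4000041 1000000) (enc_scale 7 100000 h1)) (enc_mul (enc_norm (enc_subr 72 125 h2)) (enc_norm (enc_subr 48723 50000 (enc_scale 253 5000 h1))))))⟩
noncomputable def kc1q3 : Fn2 := ⟨_, _, fun h1 h2 => (enc_norm (enc_mul (cv1r.enc h1) (bd1q3.enc h1 h2)))⟩
noncomputable def cv2m : Fn1 := ⟨_, _, fun h1 => (enc_norm (enc_add (enc_scale 3 4 (c1g.enc h1)) (enc_scale 1 4 (enc_add (swg.enc h1) (enc_rat _ 1 2)))))⟩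
noncomputable def bf2q0_3 : Fn2 := ⟨_, _, fun h1 h2 => (enc_subr 72 125 h2)⟩
noncomputable def bf2q0 : Fn2 := ⟨_, _, fun h1 h2 => (enc_norm (enc_case (enc_subr 13 50 h1) (enc_case (enc_subr 13 100 h1) (enc_add (enc_sub (enc_pnc _ 1) (enc_scale 9877 8125 h1)) (enc_mul (enc_norm (bf2q0_3.enc h1 h2)) (enc_scale 5331 6500 h1))) (enc_add (enc_sub (enc_rat _ 274231 250000) (enc_scale 4903 2500 h1)) (enc_mul (enc_norm (bf2q0_3.enc h1 h2)) (enc_norm (enc_sub (enc_rat _ 5633 50000) (enc_scale 151 3250 h1)))))) (enc_case (enc_subr 79 200 h1) (enc_add (enc_sub (enc_rat _ 3750953 3375000) (enc_scale 10891 5400 h1)) (enc_mul (enc_norm (bf2q0_3.enc h1 h2)) (enc_norm (enc_sub (enc_rat _ 184933 450000) (enc_scale 1343 1125 h1))))) (enc_case (enc_subr 453 1000 h1) (enc_add (enc_sub (enc_rat _ 31988393 29000000) (enc_scale 14469 7250 h1)) (enc_mul (enc_norm (bf2q0_3.enc h1 h2)) (enc_norm (enc_sub (enc_rat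 _ 1305963 2900000) (enc_scale 3751 2900 h1))))) (enc_add (enc_sub (enc_rat _ 25874509 23500000) (enc_scale 93591 47000 h1)) (enc_mul (enc_norm (bf2q0_3.enc h1 h2)) (enc_norm (enc_sub (enc_rat _ 1088811 2350000) (enc_scale 3107 2350 h1)))))))))⟩
noncomputable def kf2q0 : Fn2 := ⟨_, _, fun h1 h2 => (enc_norm (enc_mul (cv2m.enc h1) (bf2q0.enc h1 h2)))⟩
noncomputable def bx2q0_3 : Fn2 := ⟨_, _, fun h1 h2 => (enc_subr 72 125 h2)⟩
noncomputable def bx2q0 : Fn2 := ⟨_, _, fun h1 h2 => (enc_norm (enc_case (enc_subr 13 50 h1) (enc_case (enc_subr 13 100 h1) (enc_sub (enc_scale 14921 130000 h1) (enc_mul (enc_norm (bx2q0_3.enc h1 h2)) (enc_scale 1349 13000 h1))) (enc_add (enc_subr 2521 1000000 (enc_scale 8721 65000 h1)) (enc_mul (enc_norm (bx2q0_3.enc h1 h2)) (enc_norm (enc_subr 47 4000 (enc_neg (enc_scale 87 6500 h1))))))) (enc_case (enc_subr 79 200 h1) (enc_add (enc_subr 197503 27000000 (enc_scale 10301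 67500 h1)) (enc_mul (enc_norm (bx2q0_3.enc h1 h2)) (enc_norm (enc_subr 66289 2700000 (enc_scale 121 3375 h1))))) (enc_case (enc_subr 453 1000 h1) (enc_add (enc_subr 239833 11600000 (enc_scale 10813 58000 h1)) (enc_mul (enc_norm (bx2q0_3.enc h1 h2)) (enc_norm (enc_sub (enc_rat _ 1164633 5800000) (enc_scale 3101 5800 h1))))) (enc_add (enc_subr 207461 9400000 (enc_scale 8907 47000 h1)) (enc_mul (enc_norm (bx2q0_3.enc h1 h2)) (enc_norm (enc_sub (enc_rat _ 581757 2350000) (enc_scale 1499 2350 h1)))))))))⟩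
noncomputable def l2q0 : Fn2 := ⟨_, _, fun h1 h2 => (enc_norm (enc_mul (cv2m.enc h1) (bx2q0.enc h1 h2)))⟩
noncomputable def bd2q0 : Fn2 := ⟨_, _, fun h1 h2 => (enc_norm (enc_sub (enc_mul (enc_norm (enc_subr 72 125 h2)) (enc_scale 99523 25000 h1)) (enc_scale 161847 100000 h1)))⟩
noncomputable def kc2q0 : Fn2 := ⟨_, _, fun h1 h2 => (enc_norm (enc_mul (cv2m.enc h1) (bd2q0.enc h1 h2)))⟩
noncomputable def bf2q1_3 : Fn2 := ⟨_, _, fun h1 h2 => (enc_subr 72 125 h2)⟩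
noncomputable def bf2q1 : Fn2 := ⟨_, _, fun h1 h2 => (enc_norm (enc_case (enc_subr 67 100 h1) (enc_add (enc_subr 3441813 4250000 (enc_scale 57979 34000 h1)) (enc_mul (enc_norm (bf2q1_3.enc h1 h2)) (enc_norm (enc_sub (enc_rat _ 29223 100000) (enc_scale 339 500 h1))))) (enc_case (enc_subr 83 100 h1) (enc_add (enc_subr 6128553 8000000 (enc_scale 26239 16000 h1)) (enc_mul (enc_norm (bf2q1_3.enc h1 h2)) (enc_norm (enc_sub (enc_rat _ 382143 1600000) (enc_scale 9573 16000 h1))))) (enc_add (enc_subr 13336137 17000000 (enc_scale 3532 2125 h1)) (enc_mul (enc_norm (bf2q1_3.enc h1 h2)) (enc_norm (enc_subr 1274583 1700000 (enc_scale 10077 17000 h1))))))))⟩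
noncomputable def kf2q1 : Fn2 := ⟨_, _, fun h1 h2 => (enc_norm (enc_mul (cv2m.enc h1) (bf2q1.enc h1 h2)))⟩
noncomputable def bx2q1_3 : Fn2 := ⟨_, _, fun h1 h2 => (enc_subr 72 125 h2)⟩
noncomputable def bx2q1 : Fn2 := ⟨_, _, fun h1 h2 => (enc_norm (enc_case (enc_subr 67 100 h1) (enc_add (enc_add (enc_scale 289 10000 h1) (enc_rat _ 47659 1000000)) (enc_mul (enc_norm (bx2q1_3.enc h1 h2)) (enc_norm (enc_subr 180437 1700000 (enc_scale 213 8500 h1))))) (enc_case (enc_subr 83 100 h1) (enc_add (enc_sub (enc_rat _ 1010469 8000000) (enc_scale 7079 80000 h1)) (enc_mul (enc_norm (bx2q1_3.enc h1 h2)) (enc_norm (enc_subr 1044981 1600000 (enc_scale 13463 16000 h1))))) (enc_add (enc_subr 36709 1062500 (enc_scale 1119 10625 h1)) (enc_mul (enc_norm (bx2q1_3.enc h1 h2)) (enc_norm (enc_subr 329451 850000 (enc_scale 4433 8500 h1))))))))⟩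
noncomputable def l2q1 : Fn2 := ⟨_, _, fun h1 h2 => (enc_norm (enc_mul (cv2m.enc h1) (bx2q1.enc h1 h2)))⟩
noncomputable def bd2q1 : Fn2 := ⟨_, _, fun h1 h2 => (enc_norm (enc_add (enc_sub (enc_rat _ 85299 15625) (enc_scale 375821 62500 h1)) (enc_mul (enc_norm (enc_subr 72 125 h2)) (enc_norm (enc_sub (enc_rat _ 1399 100000) (enc_scale 46511 50000 h1))))))⟩
noncomputable def kc2q1 : Fn2 := ⟨_, _, fun h1 h2 => (enc_norm (enc_mul (cv2m.enc h1) (bd2q1.enc h1 h2)))⟩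
noncomputable def xc22a : Fn1 := ⟨_, _, fun h1 => (enc_norm (enc_add (enc_scale 3 4 h1) (enc_scale 1 4 (enc_subr 1 2 (swg.enc (yag.enc h1))))))⟩
noncomputable def kfc22a_11 : Fn2 := ⟨_, _, fun h1 h2 => (enc_subr 72 125 h2)⟩
noncomputable def kfc22a : Fn2 := ⟨_, _, fun h1 h2 => (enc_norm (enc_mul (enc_norm (enc_add (enc_scale 3 4 h1) (enc_scale 1 4 (enc_subr 1 2 (swg.enc (yag.enc h1)))))) (enc_norm (enc_case (enc_subr 1 4 h1) (enc_case (enc_subr 1 10 h1) (enc_case (enc_subr 1 20 h1) (enc_add (enc_add (enc_scale 30449 50000 h1) (enc_rat _ 630861 1000000)) (enc_mul (enc_norm (kfc22a_11.enc h1 h2)) (enc_norm (enc_subr 4823 50000 (enc_neg (enc_scale 269 5000 h1)))))) (enc_add (enc_add (enc_scale 32723 50000 h1) (enc_rat _ 628587 1000000)) (enc_mul (enc_norm (kfc22a_11.enc h1 h2)) (enc_norm (enc_subr 4561 50000 (enc_neg (enc_scale 793 5000 h1))))))) (enc_case (enc_subr 3 20 h1) (enc_add (enc_add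 (enc_scale 1819 2500 h1) (enc_rat _ 621273 1000000)) (enc_mul (enc_norm (kfc22a_11.enc h1 h2)) (enc_norm (enc_subr 2431 25000 (enc_neg (enc_scale 123 1250 h1)))))) (enc_case (enc_subr 1 5 h1) (enc_add (enc_add (enc_scale 41101 50000 h1) (enc_rat _ 60711 100000)) (enc_mul (enc_norm (kfc22a_11.enc h1 h2)) (enc_norm (enc_subr 5741 50000 (enc_scale 47 2500 h1))))) (enc_add (enc_add (enc_scale 9119 10000 h1) (enc_rat _ 294567 500000)) (enc_mul (enc_norm (kfc22a_11.enc h1 h2)) (enc_norm (enc_subr 6727 50000 (enc_scale 587 5000 h1)))))))) (enc_case (enc_subr 7 20 h1) (enc_case (enc_subr 3 10 h1) (enc_add (enc_add (enc_scale 12089 12500 h1) (enc_rat _ 575329 1000000)) (enc_mul (enc_norm (kfc22a_11.enc h1 h2)) (enc_norm (enc_subr 467 3125 (enc_scale 177 1000 h1))))) (enc_add (enc_add (enc_scale 12209 12500 h1) (enc_rat _ 572449 1000000)) (enc_mul (enc_norm (kfc22a_11.enc h1 h2)) (enc_norm (enc_subr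 1729 10000 (enc_scale 319 1250 h1)))))) (enc_case (enc_subr 2 5 h1) (enc_add (enc_add (enc_scale 47007 50000 h1) (enc_rat _ 146313 250000)) (enc_mul (enc_norm (kfc22a_11.enc h1 h2)) (enc_norm (enc_subr 21469 100000 (enc_scale 1873 5000 h1))))) (enc_case (enc_subr 9 20 h1) (enc_add (enc_add (enc_scale 23063 50000 h1) (enc_rat _ 194201 250000)) (enc_mul (enc_norm (kfc22a_11.enc h1 h2)) (enc_norm (enc_subr 29541 100000 (enc_scale 1441 2500 h1))))) (enc_add (enc_add (enc_scale 15629 50000 h1) (enc_rat _ 84371 100000)) (enc_mul (enc_norm (kfc22a_11.enc h1 h2)) (enc_norm (enc_subr 3603 10000 (enc_scale 3603 5000 h1))))))))))))⟩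
noncomputable def lc22a_11 : Fn2 := ⟨_, _, fun h1 h2 => (enc_subr 72 125 h2)⟩
noncomputable def lc22a : Fn2 := ⟨_, _, fun h1 h2 => (enc_norm (enc_mul (enc_norm (enc_add (enc_scale 3 4 h1) (enc_scale 1 4 (enc_subr 1 2 (swg.enc (yag.enc h1)))))) (enc_norm (enc_case (enc_subr 1 4 h1) (enc_case (enc_subr 1 10 h1) (enc_case (enc_subr 1 20 h1) (enc_add (enc_subr 425983 1000000 (enc_scale 47653 50000 h1)) (enc_mul (enc_norm (lc22a_11.enc h1 h2)) (enc_norm (enc_subr 59001 50000 (enc_scale 623 250 h1))))) (enc_add (enc_subr 430561 1000000 (enc_scale 52231 50000 h1)) (enc_mul (enc_norm (lc22a_11.enc h1 h2)) (enc_norm (enc_subr 120723 100000 (enc_scale 15181 5000 h1)))))) (enc_case (enc_subr 3 20 h1) (enc_add (enc_subr 432393 1000000 (enc_scale 53147 50000 h1)) (enc_mul (enc_norm (lc22a_11.enc h1 h2)) (enc_norm (enc_subr 113867 100000 (enc_scale 11753 5000 h1))))) (enc_case (enc_subr 1 5 h1) (enc_add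 (enc_subr 225219 500000 (enc_scale 29581 25000 h1)) (enc_mul (enc_norm (lc22a_11.enc h1 h2)) (enc_norm (enc_subr 11657 10000 (enc_scale 6327 2500 h1))))) (enc_add (enc_subr 228613 500000 (enc_scale 60859 50000 h1)) (enc_mul (enc_norm (lc22a_11.enc h1 h2)) (enc_norm (enc_subr 65151 50000 (enc_scale 16087 5000 h1)))))))) (enc_case (enc_subr 7 20 h1) (enc_case (enc_subr 3 10 h1) (enc_add (enc_subr 217743 500000 (enc_scale 56511 50000 h1)) (enc_mul (enc_norm (lc22a_11.enc h1 h2)) (enc_norm (enc_subr 32753 25000 (enc_scale 16229 5000 h1))))) (enc_add (enc_subr 172713 500000 (enc_scale 41501 50000 h1)) (enc_mul (enc_norm (lc22a_11.enc h1 h2)) (enc_norm (enc_subr 27317 25000 (enc_scale 2521 1000 h1)))))) (enc_case (enc_subr 2 5 h1) (enc_add (enc_subr 258493 1000000 (enc_scale 14541 25000 h1)) (enc_mul (enc_norm (lc22a_11.enc h1 h2)) (enc_norm (enc_subr 16199 20000 (enc_scale 4283 2500 h1))))) (enc_case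 (enc_subr 9 20 h1) (enc_add (enc_subr 146061 1000000 (enc_scale 3757 12500 h1)) (enc_mul (enc_norm (lc22a_11.enc h1 h2)) (enc_norm (enc_subr 61003 100000 (enc_scale 6067 5000 h1))))) (enc_add (enc_subr 10809 100000 (enc_scale 10809 50000 h1)) (enc_mul (enc_norm (lc22a_11.enc h1 h2)) (enc_norm (enc_subr 16 25 (enc_scale 32 25 h1))))))))))))⟩
noncomputable def kcc22a_11 : Fn2 := ⟨_, _, fun h1 h2 => (enc_subr 72 125 h2)⟩
noncomputable def kcc22a : Fn2 := ⟨_, _, fun h1 h2 => (enc_norm (enc_mul (enc_norm (enc_add (enc_scale 3 4 h1) (enc_scale 1 4 (enc_subr 1 2 (swg.enc (yag.enc h1)))))) (enc_norm (enc_case (enc_subr 1 4 h1) (enc_add (enc_sub (enc_rat _ 1278141 1000000) (enc_scale 41894 15625 h1)) (enc_mul (enc_norm (kcc22a_11.enc h1 h2)) (enc_norm (enc_add (enc_scale 18567 25000 h1) (enc_rat _ 18001 100000))))) (enc_add (enc_sub (enc_rat _ 607837 500000) (enc_scale 607837 250000 h1)) (enc_mul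 (enc_norm (kcc22a_11.enc h1 h2)) (enc_norm (enc_sub (enc_rat _ 4571 6250) (enc_scale 4571 3125 h1)))))))))⟩
noncomputable def xc22b : Fn1 := ⟨_, _, fun h1 => (enc_norm (enc_scale 1 4 (enc_subr 1 2 (swg.enc h1))))⟩
noncomputable def kfc22b_9 : Fn2 := ⟨_, _, fun h1 h2 => (enc_subr 72 125 h2)⟩
noncomputable def kfc22b : Fn2 := ⟨_, _, fun h1 h2 => (enc_norm (enc_mul (enc_norm (enc_scale 1 4 (enc_subr 1 2 (swg.enc h1)))) (enc_norm (enc_case (enc_subr 127 100 h1) (enc_add (enc_sub (enc_rat _ 29134971 5800000) (enc_scale 110307 29000 h1)) (enc_mul (enc_norm (kfc22b_9.enc h1 h2)) (enc_norm (enc_subr 5183269 2900000 (enc_scale 4261 2900 h1))))) (enc_case (enc_subr 69 50 h1) (enc_add (enc_sub (enc_rat _ 10803651 2200000) (enc_scale 20433 5500 h1)) (enc_mul (enc_norm (kfc22b_9.enc h1 h2)) (enc_norm (enc_sub (enc_rat _ 1128213 1100000) (enc_scale 4101 5500 h1))))) (enc_add (enc_sub (enc_rat _ 9798917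 2000000) (enc_scale 444829 120000 h1)) (enc_mul (enc_norm (kfc22b_9.enc h1 h2)) (enc_norm (enc_sub (enc_rat _ 71751 40000) (enc_scale 5209 4000 h1))))))))))⟩
noncomputable def lc22b_9 : Fn2 := ⟨_, _, fun h1 h2 => (enc_subr 72 125 h2)⟩
noncomputable def lc22b : Fn2 := ⟨_, _, fun h1 h2 => (enc_norm (enc_mul (enc_norm (enc_scale 1 4 (enc_subr 1 2 (swg.enc h1)))) (enc_norm (enc_case (enc_subr 127 100 h1) (enc_add (enc_subr 95277871 29000000 (enc_scale 143629 58000 h1)) (enc_mul (enc_norm (lc22b_9.enc h1 h2)) (enc_norm (enc_subr 2991341 1160000 (enc_scale 14051 11600 h1))))) (enc_case (enc_subr 69 50 h1) (enc_add (enc_subr 36085421 11000000 (enc_scale 271971 110000 h1)) (enc_mul (enc_norm (lc22b_9.enc h1 h2)) (enc_norm (enc_subr 400029 275000 (enc_scale 897 2750 h1))))) (enc_add (enc_subr 3271297 1000000 (enc_scale 12329 5000 h1)) (enc_mul (enc_norm (lc22b_9.enc h1 h2)) (enc_norm (enc_subr 281979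 200000 (enc_scale 47 160 h1))))))))))⟩
noncomputable def kcc22b : Fn2 := ⟨_, _, fun h1 h2 => (enc_norm (enc_mul (enc_norm (enc_scale 1 4 (enc_subr 1 2 (swg.enc h1)))) (enc_norm (enc_add (enc_subr 338370899 43250000 (enc_scale 2727311 346000 h1)) (enc_mul (enc_norm (enc_subr 72 125 h2)) (enc_norm (enc_sub (enc_rat _ 176243561 3460000) (enc_scale 1520949 34600 h1))))))))⟩
noncomputable def cv2r : Fn1 := ⟨_, _, fun h1 => (enc_norm (enc_scale 1 4 (enc_subr 1 2 (swg.enc h1))))⟩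
noncomputable def bf2q3_3 : Fn2 := ⟨_, _, fun h1 h2 => (enc_subr 72 125 h2)⟩
noncomputable def bf2q3 : Fn2 := ⟨_, _, fun h1 h2 => (enc_norm (enc_case (enc_subr 321 200 h1) (enc_case (enc_subr 1547 1000 h1) (enc_add (enc_sub (enc_rat _ 1007059 2937500) (enc_scale 6761 47000 h1)) (enc_mul (enc_norm (bf2q3_3.enc h1 h2)) (enc_norm (enc_sub (enc_rat _ 238621 10000) (enc_scale 372 25 h1))))) (enc_add (enc_sub (enc_rat _ 497977 1450000) (enc_scale 4183 29000 h1)) (enc_mul (enc_norm (bf2q3_3.enc h1 h2)) (enc_norm (enc_sub (enc_rat _ 138398633 5800000) (enc_scale 86303 5800 h1)))))) (enc_case (enc_subr 87 50 h1) (enc_add (enc_sub (enc_rat _ 622189 1800000) (enc_scale 983 6750 h1)) (enc_mul (enc_norm (bf2q3_3.enc h1 h2)) (enc_norm (enc_sub (enc_rat _ 10733723 450000) (enc_scale 200801 13500 h1))))) (enc_case (enc_subr 187 100 h1) (enc_add (enc_sub (enc_rat _ 4572261 13000000) (enc_scale 2423 16250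 h1)) (enc_mul (enc_norm (bf2q3_3.enc h1 h2)) (enc_norm (enc_sub (enc_rat _ 15500967 650000) (enc_scale 96663 6500 h1))))) (enc_add (enc_sub (enc_rat _ 4582359 13000000) (enc_scale 9719 65000 h1)) (enc_mul (enc_norm (bf2q3_3.enc h1 h2)) (enc_norm (enc_sub (enc_rat _ 30983047 1300000) (enc_scale 7729 520 h1)))))))))⟩
noncomputable def kf2q3 : Fn2 := ⟨_, _, fun h1 h2 => (enc_norm (enc_mul (cv2r.enc h1) (bf2q3.enc h1 h2)))⟩
noncomputable def bx2q3_3 : Fn2 := ⟨_, _, fun h1 h2 => (enc_subr 72 125 h2)⟩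
noncomputable def bx2q3 : Fn2 := ⟨_, _, fun h1 h2 => (enc_norm (enc_case (enc_subr 321 200 h1) (enc_case (enc_subr 1547 1000 h1) (enc_add (enc_subr 7138861 11750000 (enc_scale 7289 11750 h1)) (enc_mul (enc_norm (bx2q3_3.enc h1 h2)) (enc_norm (enc_subr 1196462 146875 (enc_scale 12147 2350 h1))))) (enc_add (enc_subr 35283891 58000000 (enc_scale 36009 58000 h1)) (enc_mul (enc_norm (bx2q3_3.enc h1 h2)) (enc_norm (enc_subr 736893 90625 (enc_scale 7481 1450 h1)))))) (enc_case (enc_subr 87 50 h1) (enc_add (enc_subr 5498621 9000000 (enc_scale 42017 67500 h1)) (enc_mul (enc_norm (bx2q3_3.enc h1 h2)) (enc_norm (enc_subr 7276841 900000 (enc_scale 13853 2700 h1))))) (enc_case (enc_subr 187 100 h1) (enc_add (enc_subr 7997849 13000000 (enc_scale 2031 3250 h1)) (enc_mul (enc_norm (bx2q3_3.enc h1 h2)) (enc_norm (enc_subr 2099671 260000 (enc_scale 66627 13000 h1))))) (enc_add (enc_subr 8002711 13000000 (enc_scale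 40633 65000 h1)) (enc_mul (enc_norm (bx2q3_3.enc h1 h2)) (enc_norm (enc_subr 25218 3125 (enc_scale 2561 500 h1)))))))))⟩
noncomputable def l2q3 : Fn2 := ⟨_, _, fun h1 h2 => (enc_norm (enc_mul (cv2r.enc h1) (bx2q3.enc h1 h2)))⟩
noncomputable def bd2q3 : Fn2 := ⟨_, _, fun h1 h2 => (enc_norm (enc_add (enc_sub (enc_rat _ 2006743 500000) (enc_scale 4867 500000 h1)) (enc_mul (enc_norm (enc_subr 72 125 h2)) (enc_norm (enc_sub (enc_rat _ 24579 100000) (enc_scale 15763 25000 h1))))))⟩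
noncomputable def kc2q3 : Fn2 := ⟨_, _, fun h1 h2 => (enc_norm (enc_mul (cv2r.enc h1) (bd2q3.enc h1 h2)))⟩
noncomputable def cv3m : Fn1 := ⟨_, _, fun h1 => (enc_norm (enc_add (enc_scale 29 50 (c1g.enc h1)) (enc_scale 21 50 (enc_add (swg.enc h1) (enc_rat _ 1 2)))))⟩
noncomputable def bf3q0_3 : Fn2 := ⟨_, _, fun h1 h2 => (enc_subr 72 125 h2)⟩
noncomputable def bf3q0 : Fn2 := ⟨_, _, fun h1 h2 => (enc_norm (enc_case (enc_subr 13 50 h1) (enc_case (enc_subr 13 100 h1) (enc_add (enc_sub (enc_pnc _ 1) (enc_scale 19641 13000 h1)) (enc_mul (enc_norm (bf3q0_3.enc h1 h2)) (enc_scale 19371 13000 h1))) (enc_add (enc_sub (enc_rat _ 1063507 1000000) (enc_scale 259917 130000 h1)) (enc_mul (enc_norm (bf3q0_3.enc h1 h2)) (enc_norm (enc_add (enc_scale 18 125 h1) (enc_rat _ 17499 100000)))))) (enc_case (enc_subr 79 200 h1) (enc_add (enc_sub (enc_rat _ 9632389 9000000) (enc_scale 91141 45000 h1)) (enc_mul (enc_norm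 (bf3q0_3.enc h1 h2)) (enc_norm (enc_sub (enc_rat _ 1788697 2700000) (enc_scale 5842 3375 h1))))) (enc_case (enc_subr 453 1000 h1) (enc_add (enc_sub (enc_rat _ 12440073 11600000) (enc_scale 117787 58000 h1)) (enc_mul (enc_norm (bf3q0_3.enc h1 h2)) (enc_norm (enc_sub (enc_rat _ 8609 14500) (enc_scale 903 580 h1))))) (enc_add (enc_sub (enc_rat _ 25206609 23500000) (enc_scale 95469 47000 h1)) (enc_mul (enc_norm (bf3q0_3.enc h1 h2)) (enc_norm (enc_sub (enc_rat _ 2586919 4700000) (enc_scale 1717 1175 h1)))))))))⟩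
noncomputable def kf3q0 : Fn2 := ⟨_, _, fun h1 h2 => (enc_norm (enc_mul (cv3m.enc h1) (bf3q0.enc h1 h2)))⟩
noncomputable def bx3q0_3 : Fn2 := ⟨_, _, fun h1 h2 => (enc_subr 72 125 h2)⟩
noncomputable def bx3q0 : Fn2 := ⟨_, _, fun h1 h2 => (enc_norm (enc_case (enc_subr 13 50 h1) (enc_case (enc_subr 13 100 h1) (enc_add (enc_scale 4283 26000 h1) (enc_mul (enc_norm (bx3q0_3.enc h1 h2)) (enc_scale 747 13000 h1))) (enc_add (enc_subr 2793 500000 (enc_scale 2077 10000 h1)) (enc_mul (enc_norm (bx3q0_3.enc h1 h2)) (enc_norm (enc_subr 647 25000 (enc_scale 667 2600 h1)))))) (enc_case (enc_subr 79 200 h1) (enc_add (enc_add (enc_scale 3227 27000 h1) (enc_rat _ 117053 6750000)) (enc_mul (enc_norm (bx3q0_3.enc h1 h2)) (enc_norm (enc_sub (enc_rat _ 187447 1350000) (enc_scale 509 1350 h1))))) (enc_case (enc_subr 453 1000 h1) (enc_add (enc_add (enc_scale 207 3625 h1) (enc_rat _ 1217859 29000000)) (enc_mul (enc_norm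 (bx3q0_3.enc h1 h2)) (enc_norm (enc_sub (enc_rat _ 59793 181250) (enc_scale 624 725 h1))))) (enc_add (enc_add (enc_scale 2447 47000 h1) (enc_rat _ 208107 4700000)) (enc_mul (enc_norm (bx3q0_3.enc h1 h2)) (enc_norm (enc_sub (enc_rat _ 1650951 4700000) (enc_scale 4267 4700 h1)))))))))⟩
noncomputable def l3q0 : Fn2 := ⟨_, _, fun h1 h2 => (enc_norm (enc_mul (cv3m.enc h1) (bx3q0.enc h1 h2)))⟩
noncomputable def bd3q0 : Fn2 := ⟨_, _, fun h1 h2 => (enc_norm (enc_sub (enc_mul (enc_norm (enc_subr 72 125 h2)) (enc_scale 73377 50000 h1)) (enc_scale 12937 4000 h1)))⟩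
noncomputable def kc3q0 : Fn2 := ⟨_, _, fun h1 h2 => (enc_norm (enc_mul (cv3m.enc h1) (bd3q0.enc h1 h2)))⟩
noncomputable def bf3q1_3 : Fn2 := ⟨_, _, fun h1 h2 => (enc_subr 72 125 h2)⟩
noncomputable def bf3q1 : Fn2 := ⟨_, _, fun h1 h2 => (enc_norm (enc_case (enc_subr 67 100 h1) (enc_add (enc_subr 5439191 8500000 (enc_scale 26913 17000 h1)) (enc_mul (enc_norm (bf3q1_3.enc h1 h2)) (enc_norm (enc_sub (enc_rat _ 9182 53125) (enc_scale 9167 17000 h1))))) (enc_case (enc_subr 83 100 h1) (enc_add (enc_subr 4108449 8000000 (enc_scale 111563 80000 h1)) (enc_mul (enc_norm (bf3q1_3.enc h1 h2)) (enc_norm (enc_sub (enc_rat _ 308917 1600000) (enc_scale 9111 16000 h1))))) (enc_add (enc_subr 5934319 17000000 (enc_scale 203383 170000 h1)) (enc_mul (enc_norm (bf3q1_3.enc h1 h2)) (enc_norm (enc_subr 178387 212500 (enc_scale 2867 4250 h1))))))))⟩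
noncomputable def kf3q1 : Fn2 := ⟨_, _, fun h1 h2 => (enc_norm (enc_mul (cv3m.enc h1) (bf3q1.enc h1 h2)))⟩
noncomputable def bx3q1_3 : Fn2 := ⟨_, _, fun h1 h2 => (enc_subr 72 125 h2)⟩
noncomputable def bx3q1 : Fn2 := ⟨_, _, fun h1 h2 => (enc_norm (enc_case (enc_subr 67 100 h1) (enc_add (enc_sub (enc_rat _ 36246 265625) (enc_scale 1289 8500 h1)) (enc_mul (enc_norm (bx3q1_3.enc h1 h2)) (enc_norm (enc_subr 332583 1700000 (enc_scale 1337 8500 h1))))) (enc_case (enc_subr 83 100 h1) (enc_add (enc_sub (enc_rat _ 1068813 8000000) (enc_scale 11791 80000 h1)) (enc_mul (enc_norm (bx3q1_3.enc h1 h2)) (enc_norm (enc_subr 23351 160000 (enc_scale 133 1600 h1))))) (enc_add (enc_subr 801767 8500000 (enc_scale 5407 42500 h1)) (enc_mul (enc_norm (bx3q1_3.enc h1 h2)) (enc_norm (enc_subr 523443 850000 (enc_scale 11037 17000 h1))))))))⟩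
noncomputable def l3q1 : Fn2 := ⟨_, _, fun h1 h2 => (enc_norm (enc_mul (cv3m.enc h1) (bx3q1.enc h1 h2)))⟩
noncomputable def bd3q1 : Fn2 := ⟨_, _, fun h1 h2 => (enc_norm (enc_add (enc_sub (enc_rat _ 3819103 1000000) (enc_scale 2104473 500000 h1)) (enc_mul (enc_norm (enc_subr 72 125 h2)) (enc_norm (enc_sub (enc_rat _ 21459 12500) (enc_scale 12461 5000 h1))))))⟩
noncomputable def kc3q1 : Fn2 := ⟨_, _, fun h1 h2 => (enc_norm (enc_mul (cv3m.enc h1) (bd3q1.enc h1 h2)))⟩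
noncomputable def xc32a : Fn1 := ⟨_, _, fun h1 => (enc_norm (enc_add (enc_scale 29 50 h1) (enc_scale 21 50 (enc_subr 1 2 (swg.enc (yag.enc h1))))))⟩
noncomputable def kfc32a_11 : Fn2 := ⟨_, _, fun h1 h2 => (enc_subr 72 125 h2)⟩
noncomputable def kfc32a : Fn2 := ⟨_, _, fun h1 h2 => (enc_norm (enc_mul (enc_norm (enc_add (enc_scale 29 50 h1) (enc_scale 21 50 (enc_subr 1 2 (swg.enc (yag.enc h1)))))) (enc_norm (enc_case (enc_subr 1 4 h1) (enc_case (enc_subr 1 10 h1) (enc_case (enc_subr 1 20 h1) (enc_add (enc_add (enc_scale 27601 25000 h1) (enc_rat _ 22051 40000)) (enc_mul (enc_norm (kfc32a_11.enc h1 h2)) (enc_norm (enc_sub (enc_rat _ 13001 20000) (enc_scale 4613 1250 h1))))) (enc_add (enc_add (enc_scale 1371 1250 h1) (enc_rat _ 551637 1000000)) (enc_mul (enc_norm (kfc32a_11.enc h1 h2)) (enc_norm (enc_sub (enc_rat _ 12751 20000) (enc_scale 8601 2500 h1)))))) (enc_case (enc_subr 3 20 h1) (enc_add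 (enc_add (enc_scale 6803 6250 h1) (enc_rat _ 552469 1000000)) (enc_mul (enc_norm (kfc32a_11.enc h1 h2)) (enc_norm (enc_sub (enc_rat _ 58479 100000) (enc_scale 3641 1250 h1))))) (enc_case (enc_subr 1 5 h1) (enc_add (enc_add (enc_scale 26869 25000 h1) (enc_rat _ 554527 1000000)) (enc_mul (enc_norm (kfc32a_11.enc h1 h2)) (enc_norm (enc_sub (enc_rat _ 48171 100000) (enc_scale 1391 625 h1))))) (enc_add (enc_add (enc_scale 10471 10000 h1) (enc_rat _ 560059 1000000)) (enc_mul (enc_norm (kfc32a_11.enc h1 h2)) (enc_norm (enc_sub (enc_rat _ 35631 100000) (enc_scale 7993 5000 h1)))))))) (enc_case (enc_subr 7 20 h1) (enc_case (enc_subr 3 10 h1) (enc_add (enc_add (enc_scale 9871 10000 h1) (enc_rat _ 575059 1000000)) (enc_mul (enc_norm (kfc32a_11.enc h1 h2)) (enc_norm (enc_sub (enc_rat _ 8633 50000) (enc_scale 108 125 h1))))) (enc_add (enc_add (enc_scale 44287 50000 h1) (enc_rat _ 605467 1000000)) (enc_mul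 (enc_norm (kfc32a_11.enc h1 h2)) (enc_norm (enc_subr 173 6250 (enc_neg (enc_scale 981 5000 h1))))))) (enc_case (enc_subr 2 5 h1) (enc_add (enc_add (enc_scale 18503 25000 h1) (enc_rat _ 328217 500000)) (enc_mul (enc_norm (kfc32a_11.enc h1 h2)) (enc_norm (enc_subr 678 3125 (enc_scale 1723 5000 h1))))) (enc_case (enc_subr 9 20 h1) (enc_add (enc_add (enc_scale 337 625 h1) (enc_rat _ 368401 500000)) (enc_mul (enc_norm (kfc32a_11.enc h1 h2)) (enc_norm (enc_subr 4721 12500 (enc_scale 933 1250 h1))))) (enc_add (enc_add (enc_scale 10279 25000 h1) (enc_rat _ 39721 50000)) (enc_mul (enc_norm (kfc32a_11.enc h1 h2)) (enc_norm (enc_subr 209 500 (enc_scale 209 250 h1))))))))))))⟩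
noncomputable def lc32a_11 : Fn2 := ⟨_, _, fun h1 h2 => (enc_subr 72 125 h2)⟩
noncomputable def lc32a : Fn2 := ⟨_, _, fun h1 h2 => (enc_norm (enc_mul (enc_norm (enc_add (enc_scale 29 50 h1) (enc_scale 21 50 (enc_subr 1 2 (swg.enc (yag.enc h1)))))) (enc_norm (enc_case (enc_subr 1 4 h1) (enc_case (enc_subr 1 10 h1) (enc_case (enc_subr 1 20 h1) (enc_add (enc_subr 62061 200000 (enc_scale 2423 2500 h1)) (enc_mul (enc_norm (lc32a_11.enc h1 h2)) (enc_norm (enc_subr 16779 20000 (enc_scale 10467 5000 h1))))) (enc_add (enc_subr 154773 500000 (enc_scale 47701 50000 h1)) (enc_mul (enc_norm (lc32a_11.enc h1 h2)) (enc_norm (enc_subr 83581 100000 (enc_scale 10153 5000 h1)))))) (enc_case (enc_subr 3 20 h1) (enc_add (enc_subr 152479 500000 (enc_scale 45407 50000 h1)) (enc_mul (enc_norm (lc32a_11.enc h1 h2)) (enc_norm (enc_subr 15937 20000 (enc_scale 1641 1000 h1))))) (enc_case (enc_subr 1 5 h1) (enc_add (enc_subr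 14731 50000 (enc_scale 41961 50000 h1)) (enc_mul (enc_norm (lc32a_11.enc h1 h2)) (enc_norm (enc_subr 73907 100000 (enc_scale 6279 5000 h1))))) (enc_add (enc_subr 17399 62500 (enc_scale 18951 25000 h1)) (enc_mul (enc_norm (lc32a_11.enc h1 h2)) (enc_norm (enc_subr 69623 100000 (enc_scale 651 625 h1)))))))) (enc_case (enc_subr 7 20 h1) (enc_case (enc_subr 3 10 h1) (enc_add (enc_subr 237799 1000000 (enc_scale 5957 10000 h1)) (enc_mul (enc_norm (lc32a_11.enc h1 h2)) (enc_norm (enc_subr 38539 50000 (enc_scale 6699 5000 h1))))) (enc_add (enc_subr 198727 1000000 (enc_scale 23273 50000 h1)) (enc_mul (enc_norm (lc32a_11.enc h1 h2)) (enc_norm (enc_subr 43759 50000 (enc_scale 8439 5000 h1)))))) (enc_case (enc_subr 2 5 h1) (enc_add (enc_subr 7381 50000 (enc_scale 3993 12500 h1)) (enc_mul (enc_norm (lc32a_11.enc h1 h2)) (enc_norm (enc_subr 96891 100000 (enc_scale 4889 2500 h1))))) (enc_case (enc_subr 9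 20 h1) (enc_add (enc_subr 26431 250000 (enc_scale 2147 10000 h1)) (enc_mul (enc_norm (lc32a_11.enc h1 h2)) (enc_norm (enc_subr 19903 20000 (enc_scale 5053 2500 h1))))) (enc_add (enc_subr 9109 100000 (enc_scale 9109 50000 h1)) (enc_mul (enc_norm (lc32a_11.enc h1 h2)) (enc_norm (enc_subr 8561 10000 (enc_scale 8561 5000 h1))))))))))))⟩
noncomputable def kcc32a_11 : Fn2 := ⟨_, _, fun h1 h2 => (enc_subr 72 125 h2)⟩
noncomputable def kcc32a : Fn2 := ⟨_, _, fun h1 h2 => (enc_norm (enc_mul (enc_norm (enc_add (enc_scale 29 50 h1) (enc_scale 21 50 (enc_subr 1 2 (swg.enc (yag.enc h1)))))) (enc_norm (enc_case (enc_subr 1 4 h1) (enc_add (enc_sub (enc_rat _ 98929 62500) (enc_scale 1112967 250000 h1)) (enc_mul (enc_norm (kcc32a_11.enc h1 h2)) (enc_norm (enc_subr 67867 100000 (enc_scale 187923 25000 h1))))) (enc_add (enc_sub (enc_rat _ 469897 500000) (enc_scale 469897 250000 h1)) (enc_mul (enc_norm (kcc32a_11.enc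 h1 h2)) (enc_norm (enc_sub (enc_rat _ 15007 6250) (enc_scale 15007 3125 h1)))))))))⟩
noncomputable def xc32b : Fn1 := ⟨_, _, fun h1 => (enc_norm (enc_scale 21 50 (enc_subr 1 2 (swg.enc h1))))⟩
noncomputable def kfc32b_9 : Fn2 := ⟨_, _, fun h1 h2 => (enc_subr 72 125 h2)⟩
noncomputable def kfc32b : Fn2 := ⟨_, _, fun h1 h2 => (enc_norm (enc_mul (enc_norm (enc_scale 21 50 (enc_subr 1 2 (swg.enc h1)))) (enc_norm (enc_case (enc_subr 127 100 h1) (enc_add (enc_sub (enc_rat _ 10287623 2320000) (enc_scale 390219 116000 h1)) (enc_mul (enc_norm (kfc32b_9.enc h1 h2)) (enc_norm (enc_sub (enc_rat _ 722613 290000) (enc_scale 9049 5800 h1))))) (enc_case (enc_subr 69 50 h1) (enc_add (enc_sub (enc_rat _ 47642999 11000000) (enc_scale 180551 55000 h1)) (enc_mul (enc_norm (kfc32b_9.enc h1 h2)) (enc_norm (enc_sub (enc_rat _ 436859 68750) (enc_scale 50617 11000 h1))))) (enc_add (enc_sub (enc_rat _ 1715193 400000)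 (enc_scale 390173 120000 h1)) (enc_mul (enc_norm (kfc32b_9.enc h1 h2)) (enc_norm (enc_sub (enc_rat _ 346221 50000) (enc_scale 3761 750 h1))))))))))⟩
noncomputable def lc32b_9 : Fn2 := ⟨_, _, fun h1 h2 => (enc_subr 72 125 h2)⟩
noncomputable def lc32b : Fn2 := ⟨_, _, fun h1 h2 => (enc_norm (enc_mul (enc_norm (enc_scale 21 50 (enc_subr 1 2 (swg.enc h1)))) (enc_norm (enc_case (enc_subr 127 100 h1) (enc_add (enc_subr 122638051 58000000 (enc_scale 181247 116000 h1)) (enc_mul (enc_norm (lc32b_9.enc h1 h2)) (enc_norm (enc_subr 13373709 2900000 (enc_scale 18943 5800 h1))))) (enc_case (enc_subr 69 50 h1) (enc_add (enc_subr 34481657 11000000 (enc_scale 3253 1375 h1)) (enc_mul (enc_norm (lc32b_9.enc h1 h2)) (enc_norm (enc_sub (enc_rat _ 392247 55000) (enc_scale 16447 2750 h1))))) (enc_add (enc_subr 510821 200000 (enc_scale 19451 10000 h1)) (enc_mul (enc_norm (lc32b_9.enc h1 h2)) (enc_norm (enc_subr 1656561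 200000 (enc_scale 20757 4000 h1))))))))))⟩
noncomputable def kcc32b : Fn2 := ⟨_, _, fun h1 h2 => (enc_norm (enc_mul (enc_norm (enc_scale 21 50 (enc_subr 1 2 (swg.enc h1)))) (enc_norm (enc_add (enc_subr 1124460423 173000000 (enc_scale 2421947 346000 h1)) (enc_mul (enc_norm (enc_subr 72 125 h2)) (enc_norm (enc_sub (enc_rat _ 408249173 8650000) (enc_scale 179333 4325 h1))))))))⟩
noncomputable def cv3r : Fn1 := ⟨_, _, fun h1 => (enc_norm (enc_scale 21 50 (enc_subr 1 2 (swg.enc h1))))⟩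
noncomputable def bf3q3_3 : Fn2 := ⟨_, _, fun h1 h2 => (enc_subr 72 125 h2)⟩
noncomputable def bf3q3 : Fn2 := ⟨_, _, fun h1 h2 => (enc_norm (enc_case (enc_subr 321 200 h1) (enc_case (enc_subr 1547 1000 h1) (enc_add (enc_sub (enc_rat _ 2823767 11750000) (enc_scale 2041 23500 h1)) (enc_mul (enc_norm (bf3q3_3.enc h1 h2)) (enc_norm (enc_sub (enc_rat _ 25691931 1175000) (enc_scale 64069 4700 h1))))) (enc_add (enc_sub (enc_rat _ 2787607 11600000) (enc_scale 5037 58000 h1)) (enc_mul (enc_norm (bf3q3_3.enc h1 h2)) (enc_norm (enc_sub (enc_rat _ 25394619 1160000) (enc_scale 79163 5800 h1)))))) (enc_case (enc_subr 87 50 h1) (enc_add (enc_sub (enc_rat _ 1077919 4500000) (enc_scale 11659 135000 h1)) (enc_mul (enc_norm (bf3q3_3.enc h1 h2)) (enc_norm (enc_sub (enc_rat _ 3284773 150000) (enc_scale 30719 2250 h1))))) (enc_case (enc_subr 187 100 h1) (enc_add (enc_sub (enc_rat _ 764221 3250000) (enc_scale 10899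 130000 h1)) (enc_mul (enc_norm (bf3q3_3.enc h1 h2)) (enc_norm (enc_sub (enc_rat _ 14211261 650000) (enc_scale 88613 6500 h1))))) (enc_add (enc_sub (enc_rat _ 1524889 6500000) (enc_scale 10861 130000 h1)) (enc_mul (enc_norm (bf3q3_3.enc h1 h2)) (enc_norm (enc_sub (enc_rat _ 14197797 650000) (enc_scale 88541 6500 h1)))))))))⟩
noncomputable def kf3q3 : Fn2 := ⟨_, _, fun h1 h2 => (enc_norm (enc_mul (cv3r.enc h1) (bf3q3.enc h1 h2)))⟩
noncomputable def bx3q3_3 : Fn2 := ⟨_, _, fun h1 h2 => (enc_subr 72 125 h2)⟩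
noncomputable def bx3q3 : Fn2 := ⟨_, _, fun h1 h2 => (enc_norm (enc_case (enc_subr 321 200 h1) (enc_case (enc_subr 1547 1000 h1) (enc_add (enc_subr 30007127 47000000 (enc_scale 14849 23500 h1)) (enc_mul (enc_norm (bx3q3_3.enc h1 h2)) (enc_norm (enc_subr 17633967 2350000 (enc_scale 2233 470 h1))))) (enc_add (enc_subr 36888373 58000000 (enc_scale 36557 58000 h1)) (enc_mul (enc_norm (bx3q3_3.enc h1 h2)) (enc_norm (enc_subr 8800597 1160000 (enc_scale 27867 5800 h1)))))) (enc_case (enc_subr 87 50 h1) (enc_add (enc_subr 2814437 4500000 (enc_scale 421 675 h1)) (enc_mul (enc_norm (bx3q3_3.enc h1 h2)) (enc_norm (enc_subr 3508193 450000 (enc_scale 66623 13500 h1))))) (enc_case (enc_subr 187 100 h1) (enc_add (enc_subr 1957373 3250000 (enc_scale 79351 130000 h1)) (enc_mul (enc_norm (bx3q3_3.enc h1 h2)) (enc_norm (enc_subr 5092839 650000 (enc_scale 8056 1625 h1))))) (enc_add (enc_subr 7767221 13000000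 (enc_scale 39509 65000 h1)) (enc_mul (enc_norm (bx3q3_3.enc h1 h2)) (enc_norm (enc_subr 10166043 1300000 (enc_scale 64343 13000 h1)))))))))⟩
noncomputable def l3q3 : Fn2 := ⟨_, _, fun h1 h2 => (enc_norm (enc_mul (cv3r.enc h1) (bx3q3.enc h1 h2)))⟩
noncomputable def bd3q3 : Fn2 := ⟨_, _, fun h1 h2 => (enc_norm (enc_add (enc_sub (enc_rat _ 1019361 250000) (enc_scale 27889 500000 h1)) (enc_mul (enc_norm (enc_subr 72 125 h2)) (enc_norm (enc_sub (enc_rat _ 83781 50000) (enc_scale 71501 50000 h1))))))⟩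
noncomputable def kc3q3 : Fn2 := ⟨_, _, fun h1 h2 => (enc_norm (enc_mul (cv3r.enc h1) (bd3q3.enc h1 h2)))⟩
noncomputable def cv4m : Fn1 := ⟨_, _, fun h1 => (enc_norm (enc_add (enc_scale 1 5 (c1g.enc h1)) (enc_scale 4 5 (enc_add (swg.enc h1) (enc_rat _ 1 2)))))⟩
noncomputable def bf4q0_3 : Fn2 := ⟨_, _, fun h1 h2 => (enc_subr 72 125 h2)⟩
noncomputable def bf4q0 : Fn2 := ⟨_, _, fun h1 h2 => (enc_norm (enc_case (enc_subr 13 50 h1) (enc_case (enc_subr 13 100 h1) (enc_add (enc_sub (enc_pnc _ 1) (enc_scale 285709 130000 h1)) (enc_mul (enc_norm (bf4q0_3.enc h1 h2)) (enc_scale 34329 13000 h1))) (enc_add (enc_sub (enc_rat _ 989141 1000000) (enc_scale 5497 2600 h1)) (enc_mul (enc_norm (bf4q0_3.enc h1 h2)) (enc_norm (enc_add (enc_scale 3343 13000 h1) (enc_rat _ 15493 50000)))))) (enc_case (enc_subr 79 200 h1) (enc_add (enc_sub (enc_rat _ 5299687 5400000) (enc_scale 140707 67500 h1)) (enc_mul (enc_norm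 (bf4q0_3.enc h1 h2)) (enc_norm (enc_sub (enc_rat _ 399727 337500) (enc_scale 10484 3375 h1))))) (enc_case (enc_subr 453 1000 h1) (enc_add (enc_sub (enc_rat _ 1525613 1812500) (enc_scale 10039 5800 h1)) (enc_mul (enc_norm (bf4q0_3.enc h1 h2)) (enc_norm (enc_subr 118313 1450000 (enc_scale 143 1450 h1))))) (enc_add (enc_sub (enc_rat _ 7249993 9400000) (enc_scale 37021 23500 h1)) (enc_mul (enc_norm (bf4q0_3.enc h1 h2)) (enc_norm (enc_sub (enc_rat _ 5431 940000) (enc_scale 443 4700 h1)))))))))⟩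
noncomputable def kf4q0 : Fn2 := ⟨_, _, fun h1 h2 => (enc_norm (enc_mul (cv4m.enc h1) (bf4q0.enc h1 h2)))⟩
noncomputable def bx4q0_3 : Fn2 := ⟨_, _, fun h1 h2 => (enc_subr 72 125 h2)⟩
noncomputable def bx4q0 : Fn2 := ⟨_, _, fun h1 h2 => (enc_norm (enc_case (enc_subr 13 50 h1) (enc_case (enc_subr 13 100 h1) (enc_add (enc_scale 9441 32500 h1) (enc_mul (enc_norm (bx4q0_3.enc h1 h2)) (enc_scale 2839 6500 h1))) (enc_add (enc_subr 483 500000 (enc_scale 3873 13000 h1)) (enc_mul (enc_norm (bx4q0_3.enc h1 h2)) (enc_norm (enc_subr 2621 100000 (enc_scale 8299 13000 h1)))))) (enc_case (enc_subr 79 200 h1) (enc_add (enc_add (enc_scale 2477 67500 h1) (enc_rat _ 180773 2700000)) (enc_mul (enc_norm (bx4q0_3.enc h1 h2)) (enc_norm (enc_sub (enc_rat _ 1062791 2700000) (enc_scale 13181 13500 h1))))) (enc_case (enc_subr 453 1000 h1) (enc_add (enc_sub (enc_rat _ 8503739 58000000) (enc_scale 9569 58000 h1)) (enc_mul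 (enc_norm (bx4q0_3.enc h1 h2)) (enc_norm (enc_sub (enc_rat _ 3204983 5800000) (enc_scale 7997 5800 h1))))) (enc_add (enc_sub (enc_rat _ 7408201 47000000) (enc_scale 1112 5875 h1)) (enc_mul (enc_norm (bx4q0_3.enc h1 h2)) (enc_norm (enc_sub (enc_rat _ 329317 1175000) (enc_scale 731 940 h1)))))))))⟩
noncomputable def l4q0 : Fn2 := ⟨_, _, fun h1 h2 => (enc_norm (enc_mul (cv4m.enc h1) (bx4q0.enc h1 h2)))⟩
noncomputable def bd4q0 : Fn2 := ⟨_, _, fun h1 h2 => (enc_norm (enc_sub (enc_neg (enc_scale 3063679 500000 h1)) (enc_mul (enc_norm (enc_subr 72 125 h2)) (enc_scale 76423 50000 h1))))⟩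
noncomputable def kc4q0 : Fn2 := ⟨_, _, fun h1 h2 => (enc_norm (enc_mul (cv4m.enc h1) (bd4q0.enc h1 h2)))⟩
noncomputable def bf4q1_3 : Fn2 := ⟨_, _, fun h1 h2 => (enc_subr 72 125 h2)⟩
noncomputable def bf4q1 : Fn2 := ⟨_, _, fun h1 h2 => (enc_norm (enc_case (enc_subr 67 100 h1) (enc_add (enc_subr 1347703 3400000 (enc_scale 246921 170000 h1)) (enc_mul (enc_norm (bf4q1_3.enc h1 h2)) (enc_norm (enc_subr 19943 85000 (enc_scale 1609 17000 h1))))) (enc_case (enc_subr 83 100 h1) (enc_add (enc_subr 5443981 16000000 (enc_scale 218991 160000 h1)) (enc_mul (enc_norm (bf4q1_3.enc h1 h2)) (enc_norm (enc_subr 17291 200000 (enc_neg (enc_scale 253 2000 h1)))))) (enc_add (enc_add (enc_scale 25737 34000 h1) (enc_rat _ 177949 1062500)) (enc_mul (enc_norm (bf4q1_3.enc h1 h2)) (enc_norm (enc_subr 180577 170000 (enc_scale 3567 3400 h1))))))))⟩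
noncomputable def kf4q1 : Fn2 := ⟨_, _, fun h1 h2 => (enc_norm (enc_mul (cv4m.enc h1) (bf4q1.enc h1 h2)))⟩
noncomputable def bx4q1_3 : Fn2 := ⟨_, _, fun h1 h2 => (enc_subr 72 125 h2)⟩
noncomputable def bx4q1 : Fn2 := ⟨_, _, fun h1 h2 => (enc_norm (enc_case (enc_subr 67 100 h1) (enc_add (enc_sub (enc_rat _ 4038609 17000000) (enc_scale 3778 10625 h1)) (enc_mul (enc_norm (bx4q1_3.enc h1 h2)) (enc_norm (enc_subr 920179 1700000 (enc_scale 7147 8500 h1))))) (enc_case (enc_subr 83 100 h1) (enc_add (enc_sub (enc_rat _ 1097787 8000000) (enc_scale 3293 16000 h1)) (enc_mul (enc_norm (bx4q1_3.enc h1 h2)) (enc_norm (enc_sub (enc_rat _ 70011 100000) (enc_scale 253 250 h1))))) (enc_add (enc_subr 96459 850000 (enc_scale 16361 170000 h1)) (enc_mul (enc_norm (bx4q1_3.enc h1 h2)) (enc_norm (enc_subr 120657 850000 (enc_scale 43 17000 h1))))))))⟩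
noncomputable def l4q1 : Fn2 := ⟨_, _, fun h1 h2 => (enc_norm (enc_mul (cv4m.enc h1) (bx4q1.enc h1 h2)))⟩
noncomputable def bd4q1 : Fn2 := ⟨_, _, fun h1 h2 => (enc_norm (enc_add (enc_sub (enc_rat _ 15134 15625) (enc_scale 67049 62500 h1)) (enc_mul (enc_norm (enc_subr 72 125 h2)) (enc_norm (enc_sub (enc_rat _ 122917 25000) (enc_scale 33853 6250 h1))))))⟩
noncomputable def kc4q1 : Fn2 := ⟨_, _, fun h1 h2 => (enc_norm (enc_mul (cv4m.enc h1) (bd4q1.enc h1 h2)))⟩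
noncomputable def xc42a : Fn1 := ⟨_, _, fun h1 => (enc_norm (enc_add (enc_scale 1 5 h1) (enc_scale 4 5 (enc_subr 1 2 (swg.enc (yag.enc h1))))))⟩
noncomputable def kfc42a_11 : Fn2 := ⟨_, _, fun h1 h2 => (enc_subr 72 125 h2)⟩
noncomputable def kfc42a : Fn2 := ⟨_, _, fun h1 h2 => (enc_norm (enc_mul (enc_norm (enc_add (enc_scale 1 5 h1) (enc_scale 4 5 (enc_subr 1 2 (swg.enc (yag.enc h1)))))) (enc_norm (enc_case (enc_subr 1 4 h1) (enc_case (enc_subr 1 10 h1) (enc_case (enc_subr 1 20 h1) (enc_add (enc_add (enc_scale 10279 12500 h1) (enc_rat _ 649681 1000000)) (enc_mul (enc_norm (kfc42a_11.enc h1 h2)) (enc_norm (enc_sub (enc_rat _ 81487 100000) (enc_scale 11757 2500 h1))))) (enc_add (enc_add (enc_scale 20783 25000 h1) (enc_rat _ 649231 1000000)) (enc_mul (enc_norm (kfc42a_11.enc h1 h2)) (enc_norm (enc_sub (enc_rat _ 8141 10000) (enc_scale 23437 5000 h1)))))) (enc_case (enc_subr 3 20 h1) (enc_add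 (enc_add (enc_scale 10419 12500 h1) (enc_rat _ 649011 1000000)) (enc_mul (enc_norm (kfc42a_11.enc h1 h2)) (enc_norm (enc_sub (enc_rat _ 9643 12500) (enc_scale 2663 625 h1))))) (enc_case (enc_subr 1 5 h1) (enc_add (enc_add (enc_scale 20653 25000 h1) (enc_rat _ 650121 1000000)) (enc_mul (enc_norm (kfc42a_11.enc h1 h2)) (enc_norm (enc_sub (enc_rat _ 2591 4000) (enc_scale 17181 5000 h1))))) (enc_add (enc_add (enc_scale 319 400 h1) (enc_rat _ 131169 200000)) (enc_mul (enc_norm (kfc42a_11.enc h1 h2)) (enc_norm (enc_sub (enc_rat _ 43303 100000) (enc_scale 11813 5000 h1)))))))) (enc_case (enc_subr 7 20 h1) (enc_case (enc_subr 3 10 h1) (enc_add (enc_add (enc_scale 18077 25000 h1) (enc_rat _ 13489 20000)) (enc_mul (enc_norm (kfc42a_11.enc h1 h2)) (enc_norm (enc_sub (enc_rat _ 2187 25000) (enc_scale 2451 2500 h1))))) (enc_add (enc_add (enc_scale 1541 2500 h1) (enc_rat _ 353227 500000)) (enc_mul (enc_norm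 (kfc42a_11.enc h1 h2)) (enc_norm (enc_subr 15231 50000 (enc_scale 1633 5000 h1)))))) (enc_case (enc_subr 2 5 h1) (enc_add (enc_add (enc_scale 5609 10000 h1) (enc_rat _ 725879 1000000)) (enc_mul (enc_norm (kfc42a_11.enc h1 h2)) (enc_norm (enc_subr 56467 100000 (enc_scale 1337 1250 h1))))) (enc_case (enc_subr 9 20 h1) (enc_add (enc_add (enc_scale 2621 5000 h1) (enc_rat _ 740559 1000000)) (enc_mul (enc_norm (kfc42a_11.enc h1 h2)) (enc_norm (enc_subr 70259 100000 (enc_scale 884 625 h1))))) (enc_add (enc_add (enc_scale 23551 50000 h1) (enc_rat _ 76449 100000)) (enc_mul (enc_norm (kfc42a_11.enc h1 h2)) (enc_norm (enc_subr 6611 10000 (enc_scale 6611 5000 h1))))))))))))⟩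
noncomputable def lc42a_11 : Fn2 := ⟨_, _, fun h1 h2 => (enc_subr 72 125 h2)⟩
noncomputable def lc42a : Fn2 := ⟨_, _, fun h1 h2 => (enc_norm (enc_mul (enc_norm (enc_add (enc_scale 1 5 h1) (enc_scale 4 5 (enc_subr 1 2 (swg.enc (yag.enc h1)))))) (enc_norm (enc_case (enc_subr 1 4 h1) (enc_case (enc_subr 1 10 h1) (enc_case (enc_subr 1 20 h1) (enc_add (enc_subr 6451 100000 (enc_scale 17749 50000 h1)) (enc_mul (enc_norm (lc42a_11.enc h1 h2)) (enc_norm (enc_subr 19461 50000 (enc_scale 2353 2500 h1))))) (enc_add (enc_subr 62389 1000000 (enc_scale 3907 12500 h1)) (enc_mul (enc_norm (lc42a_11.enc h1 h2)) (enc_norm (enc_subr 10051 25000 (enc_scale 1497 1250 h1)))))) (enc_case (enc_subr 3 20 h1) (enc_add (enc_subr 52467 1000000 (enc_scale 10667 50000 h1)) (enc_mul (enc_norm (lc42a_11.enc h1 h2)) (enc_norm (enc_subr 3703 10000 (enc_scale 4401 5000 h1))))) (enc_case (enc_subr 1 5 h1) (enc_add (enc_subr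 36801 1000000 (enc_scale 1089 10000 h1)) (enc_mul (enc_norm (lc42a_11.enc h1 h2)) (enc_norm (enc_subr 29017 100000 (enc_scale 173 500 h1))))) (enc_add (enc_subr 27489 1000000 (enc_scale 3117 50000 h1)) (enc_mul (enc_norm (lc42a_11.enc h1 h2)) (enc_norm (enc_subr 25333 100000 (enc_scale 809 5000 h1)))))))) (enc_case (enc_subr 7 20 h1) (enc_case (enc_subr 3 10 h1) (enc_add (enc_subr 11487 500000 (enc_scale 1107 25000 h1)) (enc_mul (enc_norm (lc42a_11.enc h1 h2)) (enc_norm (enc_subr 27753 100000 (enc_scale 1293 5000 h1))))) (enc_add (enc_subr 2091 100000 (enc_scale 187 5000 h1)) (enc_mul (enc_norm (lc42a_11.enc h1 h2)) (enc_norm (enc_subr 37389 100000 (enc_scale 2899 5000 h1)))))) (enc_case (enc_subr 2 5 h1) (enc_add (enc_subr 4867 250000 (enc_scale 104 3125 h1)) (enc_mul (enc_norm (lc42a_11.enc h1 h2)) (enc_norm (enc_subr 51571 100000 (enc_scale 197 200 h1))))) (enc_case (enc_subr 9 20 h1)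 (enc_add (enc_subr 5333 250000 (enc_scale 1897 50000 h1)) (enc_mul (enc_norm (lc42a_11.enc h1 h2)) (enc_norm (enc_subr 62163 100000 (enc_scale 6249 5000 h1))))) (enc_add (enc_subr 4259 100000 (enc_scale 4259 50000 h1)) (enc_mul (enc_norm (lc42a_11.enc h1 h2)) (enc_norm (enc_subr 2961 5000 (enc_scale 2961 2500 h1))))))))))))⟩
noncomputable def kcc42a_11 : Fn2 := ⟨_, _, fun h1 h2 => (enc_subr 72 125 h2)⟩
noncomputable def kcc42a : Fn2 := ⟨_, _, fun h1 h2 => (enc_norm (enc_mul (enc_norm (enc_add (enc_scale 1 5 h1) (enc_scale 4 5 (enc_subr 1 2 (swg.enc (yag.enc h1)))))) (enc_norm (enc_case (enc_subr 1 4 h1) (enc_add (enc_subr 4537 20000 (enc_scale 14413 10000 h1)) (enc_mul (enc_norm (kcc42a_11.enc h1 h2)) (enc_norm (enc_sub (enc_rat _ 1194961 100000) (enc_scale 153401 5000 h1))))) (enc_add (enc_sub (enc_rat _ 5339 20000) (enc_scale 5339 10000 h1)) (enc_mul (enc_norm (kcc42a_11.enc h1 h2)) (enc_norm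 (enc_sub (enc_rat _ 106989 12500) (enc_scale 106989 6250 h1)))))))))⟩
noncomputable def xc42b : Fn1 := ⟨_, _, fun h1 => (enc_norm (enc_scale 4 5 (enc_subr 1 2 (swg.enc h1))))⟩
noncomputable def kfc42b_9 : Fn2 := ⟨_, _, fun h1 h2 => (enc_subr 72 125 h2)⟩
noncomputable def kfc42b : Fn2 := ⟨_, _, fun h1 h2 => (enc_norm (enc_mul (enc_norm (enc_scale 4 5 (enc_subr 1 2 (swg.enc h1)))) (enc_norm (enc_case (enc_subr 127 100 h1) (enc_add (enc_sub (enc_rat _ 56179379 11600000) (enc_scale 421217 116000 h1)) (enc_mul (enc_norm (kfc42b_9.enc h1 h2)) (enc_norm (enc_sub (enc_rat _ 62151847 5800000) (enc_scale 3983 464 h1))))) (enc_case (enc_subr 69 50 h1) (enc_add (enc_sub (enc_rat _ 5602661 1000000) (enc_scale 42293 10000 h1)) (enc_mul (enc_norm (kfc42b_9.enc h1 h2)) (enc_norm (enc_subr 736141 100000 (enc_scale 113 20 h1))))) (enc_add (enc_sub (enc_rat _ 2600217 2000000) (enc_scale 133381 120000 h1)) (enc_mul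 (enc_norm (kfc42b_9.enc h1 h2)) (enc_norm (enc_sub (enc_rat _ 1613309 100000) (enc_scale 91 8 h1))))))))))⟩
noncomputable def lc42b_9 : Fn2 := ⟨_, _, fun h1 h2 => (enc_subr 72 125 h2)⟩
noncomputable def lc42b : Fn2 := ⟨_, _, fun h1 h2 => (enc_norm (enc_mul (enc_norm (enc_scale 4 5 (enc_subr 1 2 (swg.enc h1)))) (enc_norm (enc_case (enc_subr 127 100 h1) (enc_add (enc_subr 13765919 29000000 (enc_scale 20601 58000 h1)) (enc_mul (enc_norm (lc42b_9.enc h1 h2)) (enc_norm (enc_subr 12931747 5800000 (enc_scale 18499 11600 h1))))) (enc_case (enc_subr 69 50 h1) (enc_add (enc_subr 362711 343750 (enc_scale 22337 27500 h1)) (enc_mul (enc_norm (lc42b_9.enc h1 h2)) (enc_norm (enc_subr 258967 275000 (enc_scale 6387 11000 h1))))) (enc_add (enc_subr 3531637 2000000 (enc_scale 53089 40000 h1)) (enc_mul (enc_norm (lc42b_9.enc h1 h2)) (enc_norm (enc_sub (enc_rat _ 241097 100000) (enc_scale 11093 6000 h1))))))))))⟩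
noncomputable def kcc42b : Fn2 := ⟨_, _, fun h1 h2 => (enc_norm (enc_mul (enc_norm (enc_scale 4 5 (enc_subr 1 2 (swg.enc h1)))) (enc_norm (enc_add (enc_subr 214234479 17300000 (enc_scale 1821317 173000 h1)) (enc_mul (enc_norm (enc_subr 72 125 h2)) (enc_norm (enc_sub (enc_rat _ 1379889161 17300000) (enc_scale 1015923 17300 h1))))))))⟩
noncomputable def cv4r : Fn1 := ⟨_, _, fun h1 => (enc_norm (enc_scale 4 5 (enc_subr 1 2 (swg.enc h1))))⟩
noncomputable def bf4q3_3 : Fn2 := ⟨_, _, fun h1 h2 => (enc_subr 72 125 h2)⟩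
noncomputable def bf4q3 : Fn2 := ⟨_, _, fun h1 h2 => (enc_norm (enc_case (enc_subr 321 200 h1) (enc_case (enc_subr 1547 1000 h1) (enc_add (enc_subr 3275269 47000000 (enc_scale 2047 23500 h1)) (enc_mul (enc_norm (bf4q3_3.enc h1 h2)) (enc_norm (enc_sub (enc_rat _ 3541151 235000) (enc_scale 44077 4700 h1))))) (enc_add (enc_subr 1658781 29000000 (enc_scale 573 7250 h1)) (enc_mul (enc_norm (bf4q3_3.enc h1 h2)) (enc_norm (enc_sub (enc_rat _ 1358572 90625) (enc_scale 27051 2900 h1)))))) (enc_case (enc_subr 87 50 h1) (enc_add (enc_sub (enc_rat _ 1235261 9000000) (enc_scale 2843 67500 h1)) (enc_mul (enc_norm (bf4q3_3.enc h1 h2)) (enc_norm (enc_sub (enc_rat _ 872131 50000) (enc_scale 16283 1500 h1))))) (enc_case (enc_subr 187 100 h1) (enc_add (enc_subr 8117797 13000000 (enc_scale 51433 130000 h1)) (enc_mul (enc_norm (bf4q3_3.enc h1 h2)) (enc_norm (enc_sub (enc_rat _ 7978691 650000) (enc_scale 10251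 1300 h1))))) (enc_add (enc_subr 4225983 6500000 (enc_scale 2661 6500 h1)) (enc_mul (enc_norm (bf4q3_3.enc h1 h2)) (enc_norm (enc_sub (enc_rat _ 1532233 130000) (enc_scale 49557 6500 h1)))))))))⟩
noncomputable def kf4q3 : Fn2 := ⟨_, _, fun h1 h2 => (enc_norm (enc_mul (cv4r.enc h1) (bf4q3.enc h1 h2)))⟩
noncomputable def bx4q3_3 : Fn2 := ⟨_, _, fun h1 h2 => (enc_subr 72 125 h2)⟩
noncomputable def bx4q3 : Fn2 := ⟨_, _, fun h1 h2 => (enc_norm (enc_case (enc_subr 321 200 h1) (enc_case (enc_subr 1547 1000 h1) (enc_add (enc_subr 4351849 2937500 (enc_scale 26881 23500 h1)) (enc_mul (enc_norm (bx4q3_3.enc h1 h2)) (enc_norm (enc_sub (enc_rat _ 182789 587500) (enc_scale 1351 4700 h1))))) (enc_add (enc_subr 65048183 58000000 (enc_scale 52849 58000 h1)) (enc_mul (enc_norm (bx4q3_3.enc h1 h2)) (enc_norm (enc_subr 3904127 1450000 (enc_scale 4797 2900 h1)))))) (enc_case (enc_subr 87 50 h1) (enc_add (enc_subr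 1862011 2250000 (enc_scale 19657 27000 h1)) (enc_mul (enc_norm (bx4q3_3.enc h1 h2)) (enc_norm (enc_subr 812123 90000 (enc_scale 75583 13500 h1))))) (enc_case (enc_subr 187 100 h1) (enc_add (enc_sub (enc_rat _ 737631 1300000) (enc_scale 9577 130000 h1)) (enc_mul (enc_norm (bx4q3_3.enc h1 h2)) (enc_norm (enc_subr 1950931 325000 (enc_scale 10043 2600 h1))))) (enc_add (enc_sub (enc_rat _ 3784647 6500000) (enc_scale 10609 130000 h1)) (enc_mul (enc_norm (bx4q3_3.enc h1 h2)) (enc_norm (enc_subr 7502093 1300000 (enc_scale 24301 6500 h1)))))))))⟩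
noncomputable def l4q3 : Fn2 := ⟨_, _, fun h1 h2 => (enc_norm (enc_mul (cv4r.enc h1) (bx4q3.enc h1 h2)))⟩
noncomputable def bd4q3 : Fn2 := ⟨_, _, fun h1 h2 => (enc_norm (enc_add (enc_sub (enc_rat _ 535091 100000) (enc_scale 90061 100000 h1)) (enc_mul (enc_norm (enc_subr 72 125 h2)) (enc_norm (enc_sub (enc_rat _ 16124 3125) (enc_scale 84257 25000 h1))))))⟩
noncomputable def kc4q3 : Fn2 := ⟨_, _, fun h1 h2 => (enc_norm (enc_mul (cv4r.enc h1) (bd4q3.enc h1 h2)))⟩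
noncomputable def c3g : Fn1 := ⟨_, _, fun h1 => (enc_sqrtg (enc_sub (enc_pnc _ 3) (enc_scale 3 4 (enc_sq h1))))⟩
noncomputable def cv5m : Fn1 := ⟨_, _, fun h1 => (enc_norm (enc_add (enc_scale 7 10 (enc_add (swg.enc h1) (enc_rat _ 1 2))) (enc_scale 3 10 (c3g.enc h1))))⟩
noncomputable def esg : Fn1 := ⟨_, _, fun h1 => (enc_norm (enc_subn 1 (enc_add (enc_half h1) (gsg.enc h1))))⟩
noncomputable def kf5q0_4 : Fn2 := ⟨_, _, fun h1 h2 => (enc_subr 72 125 h2)⟩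
noncomputable def kf5q0_55 : Fn2 := ⟨_, _, fun h1 h2 => (enc_sub (enc_pnc _ 1) h1)⟩
noncomputable def kf5q0_56 : Fn2 := ⟨_, _, fun h1 h2 => (gsg.enc (enc_norm (kf5q0_55.enc h1 h2)))⟩
noncomputable def kf5q0_59 : Fn2 := ⟨_, _, fun h1 h2 => (enc_sub (enc_scale 3 4 (kf5q0_55.enc h1 h2)) (enc_half (kf5q0_56.enc h1 h2)))⟩
noncomputable def kf5q0_76 : Fn2 := ⟨_, _, fun h1 h2 => (enc_mul (cv4m.enc h1) (bf4q0.enc h1 h2))⟩
noncomputable def kf5q0 : Fn2 := ⟨_, _, fun h1 h2 => (enc_norm (enc_case (enc_subr 3 8 h1) (enc_mul (cv5m.enc h1) (enc_norm (enc_case (enc_subr 13 100 h1) (enc_add (enc_sub (enc_rat _ 6599 10000) (enc_scale 228123 130000 h1)) (enc_mul (enc_norm (kf5q0_4.enc h1 h2)) (enc_norm (enc_sub (enc_rat _ 13393 25000) (enc_scale 5921 13000 h1))))) (enc_case (enc_subr 1 4 h1) (enc_add (enc_sub (enc_rat _ 7858453 12000000) (enc_scale 205933 120000 h1)) (enc_mul (enc_norm (kf5q0_4.enc h1 h2))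 (enc_norm (enc_sub (enc_rat _ 68551 120000) (enc_scale 4373 6000 h1))))) (enc_add (enc_sub (enc_rat _ 3262490993 5000000000) (enc_scale 2133270993 1250000000 h1)) (enc_mul (enc_norm (kf5q0_4.enc h1 h2)) (enc_norm (enc_sub (enc_rat _ 606802757 500000000) (enc_scale 412277757 125000000 h1))))))))) (enc_case (enc_subr 473 1000 h1) (enc_add (kf5q0_76.enc h1 h2) (enc_mul (enc_norm (enc_mul (enc_norm (enc_sub (enc_mul h1 (enc_norm (enc_sub (enc_mul (enc_norm (enc_sub (kf5q0_59.enc h1 h2) (enc_sub (enc_rat _ 1 4) (enc_scale 3 8 (enc_mul (enc_norm (kf5q0_55.enc h1 h2)) (enc_inv (kf5q0_56.enc h1 h2))))))) (enc_inv (esg.enc (enc_norm (kf5q0_55.enc h1 h2))))) (kcg.enc (enc_norm (kf5q0_59.enc h1 h2)) h2)))) (kf5q0_76.enc h1 h2))) (enc_norm (enc_sub (cv5m.enc h1) (cv4m.enc h1))))) (enc_inv (enc_sub (enc_add (swg.enc h1) (enc_rat _ 1 2)) (cv4m.enc h1))))) (enc_mul (cv5m.enc h1) (enc_norm (enc_add (enc_sub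 (enc_rat _ 13377691 7500000) (enc_scale 32609117 7500000 h1)) (enc_mul (enc_norm (kf5q0_4.enc h1 h2)) (enc_norm (enc_subr 66889291 10800000 (enc_scale 71064787 5400000 h1))))))))))⟩
noncomputable def qsg : Fn1 := ⟨_, _, fun h1 => (enc_norm (enc_mul (enc_norm (enc_sub (enc_pnc _ 1) (gsg.enc h1))) (enc_norm (enc_subn 1 (enc_nat 2 (gsg.enc h1))))))⟩
noncomputable def l5q0_4 : Fn2 := ⟨_, _, fun h1 h2 => (enc_subr 72 125 h2)⟩
noncomputable def l5q0_52 : Fn2 := ⟨_, _, fun h1 h2 => (enc_sub (enc_pnc _ 1) h1)⟩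
noncomputable def l5q0_67 : Fn2 := ⟨_, _, fun h1 h2 => (enc_mul (cv4m.enc h1) (bx4q0.enc h1 h2))⟩
noncomputable def l5q0 : Fn2 := ⟨_, _, fun h1 h2 => (enc_norm (enc_case (enc_subr 3 8 h1) (enc_mul (cv5m.enc h1) (enc_norm (enc_case (enc_subr 13 100 h1) (enc_add (enc_add (enc_scale 36643 130000 h1) (enc_rat _ 53467 1000000)) (enc_mul (enc_norm (l5q0_4.enc h1 h2)) (enc_norm (enc_sub (enc_rat _ 25091 100000) (enc_scale 2461 6500 h1))))) (enc_case (enc_subr 1 4 h1) (enc_add (enc_add (enc_scale 2473 24000 h1) (enc_rat _ 36823 480000)) (enc_mul (enc_norm (l5q0_4.enc h1 h2)) (enc_norm (enc_add (enc_scale 1519 4000 h1) (enc_rat _ 60929 400000))))) (enc_add (enc_sub (enc_rat _ 93583021 625000000) (enc_scale 14768073 78125000 h1)) (enc_mul (enc_norm (l5q0_4.enc h1 h2)) (enc_norm (enc_sub (enc_rat _ 178321329 250000000) (enc_scale 116506329 62500000 h1))))))))) (enc_case (enc_subr 473 1000 h1) (enc_add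 (l5q0_67.enc h1 h2) (enc_mul (enc_norm (enc_mul (enc_norm (enc_sub (enc_sub (qsg.enc (enc_norm (l5q0_52.enc h1 h2))) (enc_mul (enc_norm (enc_nat 2 (enc_sub (l5q0_52.enc h1 h2) h2))) (enc_norm (enc_mul (esg.enc (enc_norm (l5q0_52.enc h1 h2))) (kcg.enc (enc_norm (enc_sub (enc_scale 3 4 (l5q0_52.enc h1 h2)) (enc_half (gsg.enc (enc_norm (l5q0_52.enc h1 h2)))))) h2))))) (l5q0_67.enc h1 h2))) (enc_norm (enc_sub (cv5m.enc h1) (cv4m.enc h1))))) (enc_inv (enc_sub (enc_add (swg.enc h1) (enc_rat _ 1 2)) (cv4m.enc h1))))) (enc_mul (cv5m.enc h1) (enc_norm (enc_add (enc_sub (enc_rat _ 99298087 540000000) (enc_scale 73632967 270000000 h1)) (enc_mul (enc_norm (l5q0_4.enc h1 h2)) (enc_norm (enc_subr 27971791 54000000 (enc_scale 31408891 27000000 h1))))))))))⟩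
noncomputable def kc5q0_4 : Fn2 := ⟨_, _, fun h1 h2 => (enc_subr 72 125 h2)⟩
noncomputable def kc5q0_30 : Fn2 := ⟨_, _, fun h1 h2 => (enc_sub (enc_pnc _ 1) h1)⟩
noncomputable def kc5q0_31 : Fn2 := ⟨_, _, fun h1 h2 => (gsg.enc (enc_norm (kc5q0_30.enc h1 h2)))⟩
noncomputable def kc5q0_35 : Fn2 := ⟨_, _, fun h1 h2 => (esg.enc (enc_norm (kc5q0_30.enc h1 h2)))⟩
noncomputable def kc5q0_39 : Fn2 := ⟨_, _, fun h1 h2 => (gug.enc (enc_norm (kc5q0_30.enc h1 h2)))⟩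
noncomputable def kc5q0_41 : Fn2 := ⟨_, _, fun h1 h2 => (enc_mul (enc_norm (kc5q0_30.enc h1 h2)) (enc_inv (kc5q0_31.enc h1 h2)))⟩
noncomputable def kc5q0_42 : Fn2 := ⟨_, _, fun h1 h2 => (enc_scale 3 4 (kc5q0_41.enc h1 h2))⟩
noncomputable def kc5q0_71 : Fn2 := ⟨_, _, fun h1 h2 => (enc_mul (cv4m.enc h1) (bd4q0.enc h1 h2))⟩
noncomputable def kc5q0 : Fn2 := ⟨_, _, fun h1 h2 => (enc_norm (enc_case (enc_subr 3 8 h1) (enc_mul (cv5m.enc h1) (enc_norm (enc_add (enc_subr 707727 1000000 (enc_neg (enc_scale 7338656983 3750000000 h1))) (enc_mul (enc_norm (kc5q0_4.enc h1 h2)) (enc_norm (enc_subr 35143 100000 (enc_scale 129326921 46875000 h1))))))) (enc_case (enc_subr 473 1000 h1) (enc_add (kc5q0_71.enc h1 h2) (enc_mul (enc_norm (enc_mul (enc_norm (enc_sub (enc_add (enc_sub (enc_neg (enc_add (enc_add (enc_rat _ 3 4) (enc_scale 3 2 (kc5q0_30.enc h1 h2))) (enc_scale 3 4 (enc_mul (enc_norm (kc5q0_41.enc h1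 h2)) (kc5q0_39.enc h1 h2))))) (enc_mul (enc_norm (enc_sub (enc_mul (enc_norm (enc_mul (enc_norm (kc5q0_42.enc h1 h2)) (enc_norm (enc_subn 3 (enc_nat 4 (kc5q0_31.enc h1 h2)))))) (kc5q0_35.enc h1 h2)) (enc_mul (qsg.enc (enc_norm (kc5q0_30.enc h1 h2))) (enc_norm (enc_sub (enc_rat _ 1 2) (kc5q0_42.enc h1 h2)))))) (enc_inv (enc_mul (enc_nat 2 (kc5q0_35.enc h1 h2)) (kc5q0_35.enc h1 h2))))) (enc_mul (kcg.enc (enc_norm (enc_sub (enc_scale 3 4 (kc5q0_30.enc h1 h2)) (enc_half (kc5q0_31.enc h1 h2)))) h2) (enc_norm (enc_add (enc_pnc _ 1) (enc_add (kc5q0_39.enc h1 h2) (enc_nat 2 (kc5q0_31.enc h1 h2))))))) (kc5q0_71.enc h1 h2))) (enc_norm (enc_sub (cv5m.enc h1) (cv4m.enc h1))))) (enc_inv (enc_sub (enc_add (swg.enc h1) (enc_rat _ 1 2)) (cv4m.enc h1))))) (enc_mul (cv5m.enc h1) (enc_norm (enc_add (enc_subr 1771271507 180000000 (enc_scale 1619821127 90000000 h1)) (enc_mul (enc_norm (kc5q0_4.enc h1 h2)) (enc_norm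 (enc_sub (enc_rat _ 69541691 10800000) (enc_scale 66854759 5400000 h1))))))))))⟩
noncomputable def bf5q1_3 : Fn2 := ⟨_, _, fun h1 h2 => (enc_subr 72 125 h2)⟩
noncomputable def bf5q1 : Fn2 := ⟨_, _, fun h1 h2 => (enc_norm (enc_case (enc_subr 67 100 h1) (enc_add (enc_subr 4160961 17000000 (enc_scale 11569 8500 h1)) (enc_mul (enc_norm (bf5q1_3.enc h1 h2)) (enc_norm (enc_subr 447159 850000 (enc_scale 5347 8500 h1))))) (enc_case (enc_subr 83 100 h1) (enc_add (enc_subr 2477681 16000000 (enc_scale 196299 160000 h1)) (enc_mul (enc_norm (bf5q1_3.enc h1 h2)) (enc_norm (enc_subr 127297 800000 (enc_scale 651 8000 h1))))) (enc_add (enc_add (enc_scale 68277 85000 h1) (enc_rat _ 16723 85000)) (enc_mul (enc_norm (bf5q1_3.enc h1 h2)) (enc_norm (enc_subr 4579 8500 (enc_scale 4579 8500 h1))))))))⟩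
noncomputable def kf5q1 : Fn2 := ⟨_, _, fun h1 h2 => (enc_norm (enc_mul (cv5m.enc h1) (bf5q1.enc h1 h2)))⟩
noncomputable def bx5q1_3 : Fn2 := ⟨_, _, fun h1 h2 => (enc_subr 72 125 h2)⟩
noncomputable def bx5q1 : Fn2 := ⟨_, _, fun h1 h2 => (enc_norm (enc_case (enc_subr 67 100 h1) (enc_add (enc_sub (enc_rat _ 558877 3400000) (enc_scale 4967 21250 h1)) (enc_mul (enc_norm (bx5q1_3.enc h1 h2)) (enc_norm (enc_sub (enc_rat _ 76897 1700000) (enc_scale 47 1700 h1))))) (enc_case (enc_subr 83 100 h1) (enc_add (enc_sub (enc_rat _ 414213 16000000) (enc_scale 4327 160000 h1)) (enc_mul (enc_norm (bx5q1_3.enc h1 h2)) (enc_norm (enc_sub (enc_rat _ 229001 800000) (enc_scale 3099 8000 h1))))) (enc_add (enc_sub (enc_rat _ 1721 85000) (enc_scale 1721 85000 h1)) (enc_mul (enc_norm (bx5q1_3.enc h1 h2)) (enc_norm (enc_subr 3527 17000 (enc_scale 3527 17000 h1))))))))⟩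
noncomputable def l5q1 : Fn2 := ⟨_, _, fun h1 h2 => (enc_norm (enc_mul (cv5m.enc h1) (bx5q1.enc h1 h2)))⟩
noncomputable def bd5q1 : Fn2 := ⟨_, _, fun h1 h2 => (enc_norm (enc_add (enc_subr 94723 500000 (enc_scale 94723 500000 h1)) (enc_mul (enc_norm (enc_subr 72 125 h2)) (enc_norm (enc_sub (enc_rat _ 187103 50000) (enc_scale 187103 50000 h1))))))⟩
noncomputable def kc5q1 : Fn2 := ⟨_, _, fun h1 h2 => (enc_norm (enc_mul (cv5m.enc h1) (bd5q1.enc h1 h2)))⟩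
noncomputable def cv5p : Fn1 := ⟨_, _, fun h1 => (enc_norm (enc_add (enc_scale 7 10 (enc_subr 1 2 (swg.enc h1))) (enc_scale 3 10 (c3g.enc h1))))⟩
noncomputable def bf5q2_3 : Fn2 := ⟨_, _, fun h1 h2 => (enc_subr 72 125 h2)⟩
noncomputable def bf5q2 : Fn2 := ⟨_, _, fun h1 h2 => (enc_norm (enc_case (enc_subr 117 100 h1) (enc_add (enc_add (enc_scale 101033 170000 h1) (enc_rat _ 5245677 17000000)) (enc_mul (enc_norm (bf5q2_3.enc h1 h2)) (enc_norm (enc_sub (enc_rat _ 3260097 850000) (enc_scale 13993 3400 h1))))) (enc_case (enc_subr 133 100 h1) (enc_add (enc_sub (enc_rat _ 27451557 8000000) (enc_scale 33197 16000 h1)) (enc_mul (enc_norm (bf5q2_3.enc h1 h2)) (enc_norm (enc_subr 739449 320000 (enc_scale 18201 16000 h1))))) (enc_add (enc_sub (enc_rat _ 92235577 17000000) (enc_scale 607613 170000 h1)) (enc_mul (enc_norm (bf5q2_3.enc h1 h2)) (enc_norm (enc_subr 330371 42500 (enc_scale 44581 8500 h1))))))))⟩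
noncomputable def kf5q2 : Fn2 := ⟨_, _, fun h1 h2 => (enc_norm (enc_mul (cv5p.enc h1) (bf5q2.enc h1 h2)))⟩
noncomputable def bx5q2_3 : Fn2 := ⟨_, _, fun h1 h2 => (enc_subr 72 125 h2)⟩
noncomputable def bx5q2 : Fn2 := ⟨_, _, fun h1 h2 => (enc_norm (enc_case (enc_subr 117 100 h1) (enc_add (enc_sub (enc_rat _ 1857417 17000000) (enc_scale 7133 170000 h1)) (enc_mul (enc_norm (bx5q2_3.enc h1 h2)) (enc_norm (enc_sub (enc_rat _ 5140429 1700000) (enc_scale 22571 8500 h1))))) (enc_case (enc_subr 133 100 h1) (enc_add (enc_sub (enc_rat _ 1987017 8000000) (enc_scale 12869 80000 h1)) (enc_mul (enc_norm (bx5q2_3.enc h1 h2)) (enc_norm (enc_subr 5640421 1600000 (enc_scale 47073 16000 h1))))) (enc_add (enc_subr 2181771 4250000 (enc_scale 35009 85000 h1)) (enc_mul (enc_norm (bx5q2_3.enc h1 h2)) (enc_norm (enc_sub (enc_rat _ 1278307 170000) (enc_scale 45579 8500 h1))))))))⟩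
noncomputable def l5q2 : Fn2 := ⟨_, _, fun h1 h2 => (enc_norm (enc_mul (cv5p.enc h1) (bx5q2.enc h1 h2)))⟩
noncomputable def bd5q2 : Fn2 := ⟨_, _, fun h1 h2 => (enc_norm (enc_add (enc_subr 7103 200000 (enc_neg (enc_scale 12763 500000 h1))) (enc_mul (enc_norm (enc_subr 72 125 h2)) (enc_norm (enc_subr 1550419 50000 (enc_scale 1533597 50000 h1))))))⟩
noncomputable def kc5q2 : Fn2 := ⟨_, _, fun h1 h2 => (enc_norm (enc_mul (cv5p.enc h1) (bd5q2.enc h1 h2)))⟩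
noncomputable def ycg : Fn1 := ⟨_, _, fun h1 => (enc_sqrtg (enc_scale 4 3 (enc_sub (enc_pnc _ 3) (enc_sq h1))))⟩
noncomputable def xc53 : Fn1 := ⟨_, _, fun h1 => (enc_norm (enc_add (enc_scale 7 10 (enc_subr 1 2 (swg.enc (ycg.enc h1)))) (enc_scale 3 10 h1)))⟩
noncomputable def kfc53_6 : Fn2 := ⟨_, _, fun h1 h2 => (enc_subr 1 2 (swg.enc (ycg.enc h1)))⟩
noncomputable def kfc53_9 : Fn2 := ⟨_, _, fun h1 h2 => (enc_add (enc_scale 7 10 (kfc53_6.enc h1 h2)) (enc_scale 3 10 h1))⟩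
noncomputable def kfc53_11 : Fn2 := ⟨_, _, fun h1 h2 => (enc_subr 72 125 h2)⟩
noncomputable def kfc53_61 : Fn2 := ⟨_, _, fun h1 h2 => (enc_subn 1 (ycg.enc h1))⟩
noncomputable def kfc53_62 : Fn2 := ⟨_, _, fun h1 h2 => (gsg.enc (enc_norm (kfc53_61.enc h1 h2)))⟩
noncomputable def kfc53_63 : Fn2 := ⟨_, _, fun h1 h2 => (enc_scale 3 4 (kfc53_61.enc h1 h2))⟩
noncomputable def kfc53_64 : Fn2 := ⟨_, _, fun h1 h2 => (enc_half (kfc53_62.enc h1 h2))⟩
noncomputable def kfc53_81 : Fn2 := ⟨_, _, fun h1 h2 => (cv4r.enc (ycg.enc h1))⟩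
noncomputable def kfc53_83 : Fn2 := ⟨_, _, fun h1 h2 => (enc_mul (kfc53_81.enc h1 h2) (bf4q3.enc (ycg.enc h1) h2))⟩
noncomputable def kfc53 : Fn2 := ⟨_, _, fun h1 h2 => (enc_norm (enc_case (enc_subr 1527 1000 (ycg.enc h1)) (enc_mul (enc_norm (kfc53_9.enc h1 h2)) (enc_norm (enc_add (enc_subr 341114205348312421 22559962500000000 (enc_scale 3604821223 270719550 h1)) (enc_mul (enc_norm (kfc53_11.enc h1 h2)) (enc_norm (enc_subr 46515772351898593 225599625000000 (enc_scale 992831918 5414391 h1))))))) (enc_case (enc_subr 13 8 (ycg.enc h1)) (enc_add (kfc53_83.enc h1 h2) (enc_mul (enc_norm (enc_mul (enc_norm (enc_sub (enc_mul (enc_norm (enc_subn 2 (ycg.enc h1))) (enc_norm (enc_add (enc_mul (enc_norm (enc_sub (enc_sub (kfc53_64.enc h1 h2) (kfc53_63.enc h1 h2)) (enc_sub (enc_rat _ 1 4) (enc_scale 3 8 (enc_mul (enc_norm (kfc53_61.enc h1 h2)) (enc_inv (kfc53_62.enc h1 h2))))))) (enc_inv (esg.enc (enc_norm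 (kfc53_61.enc h1 h2))))) (kcg.enc (enc_norm (enc_sub (kfc53_63.enc h1 h2) (kfc53_64.enc h1 h2))) h2)))) (kfc53_83.enc h1 h2))) (enc_norm (enc_sub (kfc53_9.enc h1 h2) (kfc53_81.enc h1 h2))))) (enc_inv (enc_sub (kfc53_6.enc h1 h2) (kfc53_81.enc h1 h2))))) (enc_mul (enc_norm (kfc53_9.enc h1 h2)) (enc_norm (enc_case (enc_sub (enc_rat _ 209631373 250000000) h1) (enc_add (enc_sub (enc_rat _ 104739734443339369 427982272500000000) (enc_scale 430531753 1711929090 h1)) (enc_mul (enc_norm (kfc53_11.enc h1 h2)) (enc_norm (enc_subr 76455629031598411 10699556812500000 (enc_scale 1261097428 171192909 h1))))) (enc_case (enc_sub (enc_rat _ 147732867 250000000) h1) (enc_add (enc_sub (enc_rat _ 36156736908753 61898506000000) (enc_scale 20310375 30949253 h1)) (enc_mul (enc_norm (kfc53_11.enc h1 h2)) (enc_norm (enc_subr 473867756579 1547462650000 (enc_neg (enc_scale 24450000 30949253 h1)))))) (enc_sub (enc_sub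 (enc_rat _ 1 2) (enc_scale 75917000 147732867 h1)) (enc_mul (enc_norm (kfc53_11.enc h1 h2)) (enc_scale 193265000 147732867 h1))))))))))⟩
noncomputable def lc53_6 : Fn2 := ⟨_, _, fun h1 h2 => (enc_subr 1 2 (swg.enc (ycg.enc h1)))⟩
noncomputable def lc53_9 : Fn2 := ⟨_, _, fun h1 h2 => (enc_add (enc_scale 7 10 (lc53_6.enc h1 h2)) (enc_scale 3 10 h1))⟩
noncomputable def lc53_11 : Fn2 := ⟨_, _, fun h1 h2 => (enc_subr 72 125 h2)⟩
noncomputable def lc53_60 : Fn2 := ⟨_, _, fun h1 h2 => (enc_subn 1 (ycg.enc h1))⟩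
noncomputable def lc53_73 : Fn2 := ⟨_, _, fun h1 h2 => (cv4r.enc (ycg.enc h1))⟩
noncomputable def lc53_75 : Fn2 := ⟨_, _, fun h1 h2 => (enc_mul (lc53_73.enc h1 h2) (bx4q3.enc (ycg.enc h1) h2))⟩
noncomputable def lc53 : Fn2 := ⟨_, _, fun h1 h2 => (enc_norm (enc_case (enc_subr 1527 1000 (ycg.enc h1)) (enc_mul (enc_norm (lc53_9.enc h1 h2)) (enc_norm (enc_add (enc_sub (enc_rat _ 4511455898601047 2506662500000000) (enc_scale 14814787 10026650 h1)) (enc_mul (enc_norm (lc53_11.enc h1 h2)) (enc_norm (enc_sub (enc_rat _ 58583381940468047 2255996250000000) (enc_scale 628502861 27071955 h1))))))) (enc_case (enc_subr 13 8 (ycg.enc h1)) (enc_add (lc53_75.enc h1 h2) (enc_mul (enc_norm (enc_mul (enc_norm (enc_sub (enc_sub (qsg.enc (enc_norm (lc53_60.enc h1 h2))) (enc_mul (enc_norm (enc_nat 2 (enc_sub (lc53_60.enc h1 h2) h2))) (enc_norm (enc_mul (esg.enc (enc_norm (lc53_60.enc h1 h2))) (kcg.enc (enc_norm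 (enc_sub (enc_scale 3 4 (lc53_60.enc h1 h2)) (enc_half (gsg.enc (enc_norm (lc53_60.enc h1 h2)))))) h2))))) (lc53_75.enc h1 h2))) (enc_norm (enc_sub (lc53_9.enc h1 h2) (lc53_73.enc h1 h2))))) (enc_inv (enc_sub (lc53_6.enc h1 h2) (lc53_73.enc h1 h2))))) (enc_mul (enc_norm (lc53_9.enc h1 h2)) (enc_norm (enc_case (enc_sub (enc_rat _ 209631373 250000000) h1) (enc_add (enc_sub (enc_rat _ 49508244086711901 71330378750000000) (enc_scale 124665737 285321515 h1)) (enc_mul (enc_norm (lc53_11.enc h1 h2)) (enc_norm (enc_sub (enc_rat _ 132773151116671493 42798227250000000) (enc_scale 509162441 171192909 h1))))) (enc_case (enc_sub (enc_rat _ 147732867 250000000) h1) (enc_add (enc_sub (enc_rat _ 5675697818143 15474626500000) (enc_scale 1442500 30949253 h1)) (enc_mul (enc_norm (lc53_11.enc h1 h2)) (enc_norm (enc_sub (enc_rat _ 1949833158111 1237970120000) (enc_scale 35678750 30949253 h1))))) (enc_add (enc_add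 (enc_scale 103653775 295465734 h1) (enc_rat _ 2638489 20000000)) (enc_mul (enc_norm (lc53_11.enc h1 h2)) (enc_norm (enc_sub (enc_rat _ 4894289 5000000) (enc_scale 21266950 147732867 h1))))))))))))⟩
noncomputable def kcc53_6 : Fn2 := ⟨_, _, fun h1 h2 => (enc_subr 1 2 (swg.enc (ycg.enc h1)))⟩
noncomputable def kcc53_9 : Fn2 := ⟨_, _, fun h1 h2 => (enc_add (enc_scale 7 10 (kcc53_6.enc h1 h2)) (enc_scale 3 10 h1))⟩
noncomputable def kcc53_11 : Fn2 := ⟨_, _, fun h1 h2 => (enc_subr 72 125 h2)⟩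
noncomputable def kcc53_34 : Fn2 := ⟨_, _, fun h1 h2 => (enc_subn 1 (ycg.enc h1))⟩
noncomputable def kcc53_35 : Fn2 := ⟨_, _, fun h1 h2 => (gsg.enc (enc_norm (kcc53_34.enc h1 h2)))⟩
noncomputable def kcc53_39 : Fn2 := ⟨_, _, fun h1 h2 => (esg.enc (enc_norm (kcc53_34.enc h1 h2)))⟩
noncomputable def kcc53_44 : Fn2 := ⟨_, _, fun h1 h2 => (gug.enc (enc_norm (kcc53_34.enc h1 h2)))⟩
noncomputable def kcc53_46 : Fn2 := ⟨_, _, fun h1 h2 => (enc_mul (enc_norm (kcc53_34.enc h1 h2)) (enc_inv (kcc53_35.enc h1 h2)))⟩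
noncomputable def kcc53_47 : Fn2 := ⟨_, _, fun h1 h2 => (enc_scale 3 4 (kcc53_46.enc h1 h2))⟩
noncomputable def kcc53_72 : Fn2 := ⟨_, _, fun h1 h2 => (cv4r.enc (ycg.enc h1))⟩
noncomputable def kcc53_74 : Fn2 := ⟨_, _, fun h1 h2 => (enc_mul (kcc53_72.enc h1 h2) (bd4q3.enc (ycg.enc h1) h2))⟩
noncomputable def kcc53 : Fn2 := ⟨_, _, fun h1 h2 => (enc_norm (enc_case (enc_subr 1527 1000 (ycg.enc h1)) (enc_mul (enc_norm (kcc53_9.enc h1 h2)) (enc_norm (enc_add (enc_sub (enc_rat _ 51126947571287713 4511992500000000) (enc_scale 458719519 54143910 h1)) (enc_mul (enc_norm (kcc53_11.enc h1 h2)) (enc_norm (enc_subr 31498941876541837 225599625000000 (enc_scale 675746762 5414391 h1))))))) (enc_case (enc_subr 13 8 (ycg.enc h1)) (enc_add (kcc53_74.enc h1 h2) (enc_mul (enc_norm (enc_mul (enc_norm (enc_sub (enc_add (enc_sub (enc_add (enc_add (enc_rat _ 3 4) (enc_scale 3 2 (kcc53_34.enc h1 h2))) (enc_scale 3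 4 (enc_mul (enc_norm (kcc53_46.enc h1 h2)) (kcc53_44.enc h1 h2)))) (enc_mul (enc_norm (enc_sub (enc_mul (enc_norm (enc_mul (enc_norm (kcc53_47.enc h1 h2)) (enc_norm (enc_subn 3 (enc_nat 4 (kcc53_35.enc h1 h2)))))) (kcc53_39.enc h1 h2)) (enc_mul (qsg.enc (enc_norm (kcc53_34.enc h1 h2))) (enc_norm (enc_sub (enc_rat _ 1 2) (kcc53_47.enc h1 h2)))))) (enc_inv (enc_mul (enc_nat 2 (kcc53_39.enc h1 h2)) (kcc53_39.enc h1 h2))))) (enc_mul (kcg.enc (enc_norm (enc_sub (enc_scale 3 4 (kcc53_34.enc h1 h2)) (enc_half (kcc53_35.enc h1 h2)))) h2) (enc_norm (enc_sub (enc_pnc _ 1) (enc_add (kcc53_44.enc h1 h2) (enc_nat 2 (kcc53_35.enc h1 h2))))))) (kcc53_74.enc h1 h2))) (enc_norm (enc_sub (kcc53_9.enc h1 h2) (kcc53_72.enc h1 h2))))) (enc_inv (enc_sub (kcc53_6.enc h1 h2) (kcc53_72.enc h1 h2))))) (enc_mul (enc_norm (kcc53_9.enc h1 h2)) (enc_norm (enc_add (enc_add (enc_scale 178027008451 70680288070 h1) (enc_rat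 _ 36877 280000)) (enc_mul (enc_norm (kcc53_11.enc h1 h2)) (enc_norm (enc_subr 8713 2000 (enc_scale 4826401378 1009718401 h1))))))))))⟩
noncomputable def cv6m : Fn1 := ⟨_, _, fun h1 => (enc_norm (enc_add (enc_scale 3 10 (enc_add (swg.enc h1) (enc_rat _ 1 2))) (enc_scale 7 10 (c3g.enc h1))))⟩
noncomputable def bf6q0_3 : Fn2 := ⟨_, _, fun h1 h2 => (enc_subr 72 125 h2)⟩
noncomputable def bf6q0 : Fn2 := ⟨_, _, fun h1 h2 => (enc_norm (enc_case (enc_subr 13 50 h1) (enc_case (enc_subr 13 100 h1) (enc_add (enc_sub (enc_rat _ 30623 100000) (enc_scale 7529 6500 h1)) (enc_mul (enc_norm (bf6q0_3.enc h1 h2)) (enc_norm (enc_sub (enc_rat _ 2584 3125) (enc_scale 13183 3250 h1))))) (enc_add (enc_sub (enc_rat _ 71663 250000) (enc_scale 65501 65000 h1)) (enc_mul (enc_norm (bf6q0_3.enc h1 h2)) (enc_norm (enc_sub (enc_rat _ 1101 2500) (enc_scale 3521 3250 h1)))))) (enc_case (enc_subr 79 200 h1) (enc_add (enc_sub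 (enc_rat _ 480623 1350000) (enc_scale 172057 135000 h1)) (enc_mul (enc_norm (bf6q0_3.enc h1 h2)) (enc_norm (enc_sub (enc_rat _ 23581 67500) (enc_scale 4949 6750 h1))))) (enc_case (enc_subr 453 1000 h1) (enc_add (enc_sub (enc_rat _ 7697421 7250000) (enc_scale 88771 29000 h1)) (enc_mul (enc_norm (bf6q0_3.enc h1 h2)) (enc_norm (enc_subr 77361 725000 (enc_scale 611 1450 h1))))) (enc_add (enc_sub (enc_rat _ 10302981 9400000) (enc_scale 73717 23500 h1)) (enc_mul (enc_norm (bf6q0_3.enc h1 h2)) (enc_norm (enc_subr 494499 4700000 (enc_scale 393 940 h1)))))))))⟩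
noncomputable def kf6q0 : Fn2 := ⟨_, _, fun h1 h2 => (enc_norm (enc_mul (cv6m.enc h1) (bf6q0.enc h1 h2)))⟩
noncomputable def bx6q0_3 : Fn2 := ⟨_, _, fun h1 h2 => (enc_subr 72 125 h2)⟩
noncomputable def bx6q0 : Fn2 := ⟨_, _, fun h1 h2 => (enc_norm (enc_case (enc_subr 13 50 h1) (enc_case (enc_subr 13 100 h1) (enc_add (enc_sub (enc_rat _ 9287 62500) (enc_scale 2199 13000 h1)) (enc_mul (enc_norm (bx6q0_3.enc h1 h2)) (enc_norm (enc_sub (enc_rat _ 4053 10000) (enc_scale 10177 6500 h1))))) (enc_add (enc_sub (enc_rat _ 157961 1000000) (enc_scale 31359 130000 h1)) (enc_mul (enc_norm (bx6q0_3.enc h1 h2)) (enc_norm (enc_sub (enc_rat _ 6303 25000) (enc_scale 1259 3250 h1)))))) (enc_case (enc_subr 79 200 h1) (enc_add (enc_sub (enc_rat _ 3811189 27000000) (enc_scale 23839 135000 h1)) (enc_mul (enc_norm (bx6q0_3.enc h1 h2)) (enc_norm (enc_sub (enc_rat _ 7994 28125) (enc_scale 2299 4500 h1))))) (enc_case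 (enc_subr 453 1000 h1) (enc_add (enc_sub (enc_rat _ 11002187 58000000) (enc_scale 17369 58000 h1)) (enc_mul (enc_norm (bx6q0_3.enc h1 h2)) (enc_norm (enc_add (enc_scale 21 1160 h1) (enc_rat _ 436619 5800000))))) (enc_add (enc_sub (enc_rat _ 4486349 23500000) (enc_scale 14201 47000 h1)) (enc_mul (enc_norm (bx6q0_3.enc h1 h2)) (enc_norm (enc_sub (enc_rat _ 39667 188000) (enc_scale 1323 4700 h1)))))))))⟩
noncomputable def l6q0 : Fn2 := ⟨_, _, fun h1 h2 => (enc_norm (enc_mul (cv6m.enc h1) (bx6q0.enc h1 h2)))⟩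
noncomputable def bd6q0 : Fn2 := ⟨_, _, fun h1 h2 => (enc_norm (enc_add (enc_subr 82147 62500 (enc_scale 849943 500000 h1)) (enc_mul (enc_norm (enc_subr 72 125 h2)) (enc_norm (enc_add (enc_scale 611 50000 h1) (enc_rat _ 12403 25000))))))⟩
noncomputable def kc6q0 : Fn2 := ⟨_, _, fun h1 h2 => (enc_norm (enc_mul (cv6m.enc h1) (bd6q0.enc h1 h2)))⟩
noncomputable def bf6q1_3 : Fn2 := ⟨_, _, fun h1 h2 => (enc_subr 72 125 h2)⟩
noncomputable def bf6q1 : Fn2 := ⟨_, _, fun h1 h2 => (enc_norm (enc_case (enc_subr 67 100 h1) (enc_add (enc_subr 65991 425000 (enc_scale 108197 85000 h1)) (enc_mul (enc_norm (bf6q1_3.enc h1 h2)) (enc_norm (enc_subr 227719 425000 (enc_scale 1477 2125 h1))))) (enc_case (enc_subr 83 100 h1) (enc_add (enc_subr 339863 8000000 (enc_scale 17673 16000 h1)) (enc_mul (enc_norm (bf6q1_3.enc h1 h2)) (enc_norm (enc_subr 38237 320000 (enc_scale 1179 16000 h1))))) (enc_add (enc_add (enc_scale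 7856 10625 h1) (enc_rat _ 2769 10625)) (enc_mul (enc_norm (bf6q1_3.enc h1 h2)) (enc_norm (enc_subr 5833 17000 (enc_scale 5833 17000 h1))))))))⟩
noncomputable def kf6q1 : Fn2 := ⟨_, _, fun h1 h2 => (enc_norm (enc_mul (cv6m.enc h1) (bf6q1.enc h1 h2)))⟩
noncomputable def bx6q1_3 : Fn2 := ⟨_, _, fun h1 h2 => (enc_subr 72 125 h2)⟩
noncomputable def bx6q1 : Fn2 := ⟨_, _, fun h1 h2 => (enc_norm (enc_case (enc_subr 67 100 h1) (enc_add (enc_sub (enc_rat _ 2006609 17000000) (enc_scale 25197 170000 h1)) (enc_mul (enc_norm (bx6q1_3.enc h1 h2)) (enc_norm (enc_sub (enc_rat _ 20337 100000) (enc_scale 73 250 h1))))) (enc_case (enc_subr 83 100 h1) (enc_add (enc_sub (enc_rat _ 91273 1600000) (enc_scale 183 3200 h1)) (enc_mul (enc_norm (bx6q1_3.enc h1 h2)) (enc_norm (enc_sub (enc_rat _ 107843 1600000) (enc_scale 57 640 h1))))) (enc_add (enc_sub (enc_rat _ 479 8500) (enc_scale 479 8500 h1)) (enc_mul (enc_norm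 (bx6q1_3.enc h1 h2)) (enc_norm (enc_subr 163 4250 (enc_scale 163 4250 h1))))))))⟩
noncomputable def l6q1 : Fn2 := ⟨_, _, fun h1 h2 => (enc_norm (enc_mul (cv6m.enc h1) (bx6q1.enc h1 h2)))⟩
noncomputable def bd6q1 : Fn2 := ⟨_, _, fun h1 h2 => (enc_norm (enc_add (enc_subr 2239 15625 (enc_scale 2239 15625 h1)) (enc_mul (enc_norm (enc_subr 72 125 h2)) (enc_norm (enc_sub (enc_rat _ 34187 25000) (enc_scale 34187 25000 h1))))))⟩
noncomputable def kc6q1 : Fn2 := ⟨_, _, fun h1 h2 => (enc_norm (enc_mul (cv6m.enc h1) (bd6q1.enc h1 h2)))⟩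
noncomputable def cv6p : Fn1 := ⟨_, _, fun h1 => (enc_norm (enc_add (enc_scale 3 10 (enc_subr 1 2 (swg.enc h1))) (enc_scale 7 10 (c3g.enc h1))))⟩
noncomputable def bf6q2_3 : Fn2 := ⟨_, _, fun h1 h2 => (enc_subr 72 125 h2)⟩
noncomputable def bf6q2 : Fn2 := ⟨_, _, fun h1 h2 => (enc_norm (enc_case (enc_subr 117 100 h1) (enc_add (enc_add (enc_scale 9609 21250 h1) (enc_rat _ 3845789 8500000)) (enc_mul (enc_norm (bf6q2_3.enc h1 h2)) (enc_norm (enc_sub (enc_rat _ 2665163 1700000) (enc_scale 29399 17000 h1))))) (enc_case (enc_subr 133 100 h1) (enc_add (enc_sub (enc_rat _ 3606233 1600000) (enc_scale 87001 80000 h1)) (enc_mul (enc_norm (bf6q2_3.enc h1 h2)) (enc_norm (enc_subr 205579 320000 (enc_scale 511 3200 h1))))) (enc_add (enc_sub (enc_rat _ 7511159 1700000) (enc_scale 230767 85000 h1)) (enc_mul (enc_norm (bf6q2_3.enc h1 h2)) (enc_norm (enc_subr 5778169 1700000 (enc_scale 9487 4250 h1))))))))⟩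
noncomputable def kf6q2 : Fn2 := ⟨_, _, fun h1 h2 => (enc_norm (enc_mul (cv6p.enc h1) (bf6q2.enc h1 h2)))⟩
noncomputable def bx6q2_3 : Fn2 := ⟨_, _, fun h1 h2 => (enc_subr 72 125 h2)⟩
noncomputable def bx6q2 : Fn2 := ⟨_, _, fun h1 h2 => (enc_norm (enc_case (enc_subr 117 100 h1) (enc_add (enc_sub (enc_rat _ 1197323 8500000) (enc_scale 12667 85000 h1)) (enc_mul (enc_norm (bx6q2_3.enc h1 h2)) (enc_norm (enc_subr 231487 425000 (enc_scale 961 2125 h1))))) (enc_case (enc_subr 133 100 h1) (enc_add (enc_sub (enc_rat _ 1720643 16000000) (enc_scale 19287 160000 h1)) (enc_mul (enc_norm (bx6q2_3.enc h1 h2)) (enc_norm (enc_sub (enc_rat _ 1723949 800000) (enc_scale 14841 8000 h1))))) (enc_add (enc_subr 4327913 17000000 (enc_scale 12897 85000 h1)) (enc_mul (enc_norm (bx6q2_3.enc h1 h2)) (enc_norm (enc_subr 3581667 1700000 (enc_scale 22937 17000 h1))))))))⟩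
noncomputable def l6q2 : Fn2 := ⟨_, _, fun h1 h2 => (enc_norm (enc_mul (cv6p.enc h1) (bx6q2.enc h1 h2)))⟩
noncomputable def bd6q2 : Fn2 := ⟨_, _, fun h1 h2 => (enc_norm (enc_add (enc_subr 70293 1000000 (enc_scale 14727 250000 h1)) (enc_mul (enc_norm (enc_subr 72 125 h2)) (enc_norm (enc_subr 342023 25000 (enc_scale 166127 12500 h1))))))⟩
noncomputable def kc6q2 : Fn2 := ⟨_, _, fun h1 h2 => (enc_norm (enc_mul (cv6p.enc h1) (bd6q2.enc h1 h2)))⟩
noncomputable def xc63 : Fn1 := ⟨_, _, fun h1 => (enc_norm (enc_add (enc_scale 3 10 (enc_subr 1 2 (swg.enc (ycg.enc h1)))) (enc_scale 7 10 h1)))⟩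
noncomputable def kfc63_11 : Fn2 := ⟨_, _, fun h1 h2 => (enc_subr 72 125 h2)⟩
noncomputable def kfc63 : Fn2 := ⟨_, _, fun h1 h2 => (enc_norm (enc_mul (enc_norm (enc_add (enc_scale 3 10 (enc_subr 1 2 (swg.enc (ycg.enc h1)))) (enc_scale 7 10 h1))) (enc_norm (enc_case (enc_sub (enc_rat _ 1033431783 1000000000) h1) (enc_case (enc_sub (enc_rat _ 1097767393 1000000000) h1) (enc_add (enc_sub (enc_rat _ 8885773840133 5984566375000) (enc_scale 75670000 47876531 h1)) (enc_mul (enc_norm (kfc63_11.enc h1 h2)) (enc_norm (enc_subr 2135105556571 1196913275000 (enc_scale 81800000 47876531 h1))))) (enc_add (enc_sub (enc_rat _ 85660923791447 64335610000000) (enc_scale 9269900 6433561 h1)) (enc_mul (enc_norm (kfc63_11.enc h1 h2)) (enc_norm (enc_subr 382340639637 257342440000 (enc_scale 9245000 6433561 h1)))))) (enc_case (enc_sub (enc_rat _ 106748829 125000000) h1) (enc_add (enc_sub (enc_rat _ 51958424145573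 59813717000000) (enc_scale 178192000 179441151 h1)) (enc_mul (enc_norm (kfc63_11.enc h1 h2)) (enc_norm (enc_subr 8139991096771 5981371700000 (enc_scale 236180000 179441151 h1))))) (enc_case (enc_sub (enc_rat _ 614267857 1000000000) h1) (enc_add (enc_sub (enc_rat _ 151071473266527 239722775000000) (enc_scale 6844440 9588911 h1)) (enc_mul (enc_norm (kfc63_11.enc h1 h2)) (enc_norm (enc_subr 13272852061801 23972277500000 (enc_scale 3557200 9588911 h1))))) (enc_sub (enc_sub (enc_rat _ 1 2) (enc_scale 308264000 614267857 h1)) (enc_mul (enc_norm (kfc63_11.enc h1 h2)) (enc_scale 325800000 614267857 h1)))))))))⟩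
noncomputable def lc63_11 : Fn2 := ⟨_, _, fun h1 h2 => (enc_subr 72 125 h2)⟩
noncomputable def lc63 : Fn2 := ⟨_, _, fun h1 h2 => (enc_norm (enc_mul (enc_norm (enc_add (enc_scale 3 10 (enc_subr 1 2 (swg.enc (ycg.enc h1)))) (enc_scale 7 10 h1))) (enc_norm (enc_case (enc_sub (enc_rat _ 1033431783 1000000000) h1) (enc_case (enc_sub (enc_rat _ 1097767393 1000000000) h1) (enc_add (enc_sub (enc_rat _ 5254687740601 5984566375000) (enc_scale 36804000 47876531 h1)) (enc_mul (enc_norm (lc63_11.enc h1 h2)) (enc_norm (enc_sub (enc_rat _ 785206778767 957530620000) (enc_scale 39750000 47876531 h1))))) (enc_add (enc_sub (enc_rat _ 53255706310983 64335610000000) (enc_scale 4651100 6433561 h1)) (enc_mul (enc_norm (lc63_11.enc h1 h2)) (enc_norm (enc_sub (enc_rat _ 714693553749 804195125000) (enc_scale 5744000 6433561 h1)))))) (enc_case (enc_sub (enc_rat _ 106748829 125000000) h1) (enc_add (enc_sub (enc_rat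 _ 12120751934149 14953429250000) (enc_scale 126737000 179441151 h1)) (enc_mul (enc_norm (lc63_11.enc h1 h2)) (enc_norm (enc_sub (enc_rat _ 4803448027913 2990685850000) (enc_scale 284780000 179441151 h1))))) (enc_case (enc_sub (enc_rat _ 614267857 1000000000) h1) (enc_add (enc_sub (enc_rat _ 41325492630877 59930693750000) (enc_scale 5413760 9588911 h1)) (enc_mul (enc_norm (lc63_11.enc h1 h2)) (enc_norm (enc_sub (enc_rat _ 5974154725483 2397227750000) (enc_scale 25166000 9588911 h1))))) (enc_add (enc_add (enc_scale 30117650 87752551 h1) (enc_rat _ 2638489 20000000)) (enc_mul (enc_norm (lc63_11.enc h1 h2)) (enc_norm (enc_sub (enc_rat _ 4894289 5000000) (enc_scale 98887800 614267857 h1)))))))))))⟩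
noncomputable def kcc63 : Fn2 := ⟨_, _, fun h1 h2 => (enc_norm (enc_mul (enc_norm (enc_add (enc_scale 3 10 (enc_subr 1 2 (swg.enc (ycg.enc h1)))) (enc_scale 7 10 h1))) (enc_norm (enc_add (enc_add (enc_scale 1445796500 2004876867 h1) (enc_rat _ 36877 280000)) (enc_mul (enc_norm (enc_subr 72 125 h2)) (enc_norm (enc_subr 8713 2000 (enc_scale 1430980000 286410981 h1))))))))⟩
noncomputable def kf7q0 : Fn2 := ⟨_, _, fun h1 h2 => (enc_norm (enc_sub (enc_mul h1 (kcg.enc (enc_half h1) h2)) (enc_mul (enc_norm (enc_mul (enc_sq h1) (enc_norm (enc_add (c3g.enc h1) (enc_rat _ 3 2))))) (enc_inv (enc_mul (enc_norm (enc_sub (enc_pnc _ 1) h1)) (enc_norm (enc_add (enc_pnc _ 1) h1)))))))⟩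
noncomputable def l7q0_6 : Fn2 := ⟨_, _, fun h1 h2 => (enc_half h1)⟩
noncomputable def l7q0_7 : Fn2 := ⟨_, _, fun h1 h2 => (enc_half (c3g.enc h1))⟩
noncomputable def l7q0_8 : Fn2 := ⟨_, _, fun h1 h2 => (enc_scale 1 4 h1)⟩
noncomputable def l7q0 : Fn2 := ⟨_, _, fun h1 h2 => (enc_norm (enc_add (txg.enc (l7q0_6.enc h1 h2) (enc_norm (enc_sub (l7q0_7.enc h1 h2) (l7q0_8.enc h1 h2))) h2) (txg.enc (enc_neg (l7q0_6.enc h1 h2)) (enc_norm (enc_add (l7q0_7.enc h1 h2) (l7q0_8.enc h1 h2))) h2)))⟩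
noncomputable def kc7q0_3 : Fn2 := ⟨_, _, fun h1 h2 => (enc_subr 72 125 h2)⟩
noncomputable def kc7q0_6 : Fn2 := ⟨_, _, fun h1 h2 => (enc_half h1)⟩
noncomputable def kc7q0 : Fn2 := ⟨_, _, fun h1 h2 => (enc_norm (enc_case (enc_subr 1 4 (kc7q0_6.enc h1 h2)) (enc_case (enc_subr 13 100 (kc7q0_6.enc h1 h2)) (enc_add (enc_subr 566787 200000 (enc_scale 1704793 260000 h1)) (enc_mul (enc_norm (kc7q0_3.enc h1 h2)) (enc_norm (enc_sub (enc_rat _ 41929 25000) (enc_scale 64551 26000 h1))))) (enc_add (enc_subr 9022173 4000000 (enc_scale 69317 16000 h1)) (enc_mul (enc_norm (kc7q0_3.enc h1 h2)) (enc_norm (enc_sub (enc_rat _ 4609 2400) (enc_scale 2051 600 h1)))))) (enc_case (enc_subr 19 50 (kc7q0_6.enc h1 h2)) (enc_add (enc_subr 1194703 6500000 (enc_scale 9819 52000 h1)) (enc_mul (enc_norm (kc7q0_3.enc h1 h2)) (enc_norm (enc_sub (enc_rat _ 168541 52000) (enc_scale 39389 6500 h1))))) (enc_add (enc_subr 10073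 60000 (enc_scale 10073 60000 h1)) (enc_mul (enc_norm (kc7q0_3.enc h1 h2)) (enc_norm (enc_subr 45477 8000 (enc_scale 45477 8000 h1))))))))⟩
noncomputable def kf7q1 : Fn2 := ⟨_, _, fun h1 h2 => (enc_norm (enc_add (enc_mul (enc_norm (enc_mul h1 (enc_norm (enc_add (c3g.enc h1) (enc_rat _ 3 2))))) (enc_inv (enc_add (enc_pnc _ 1) h1))) (enc_mul (enc_norm (enc_subn 1 h1)) (kcg.enc (enc_half h1) h2))))⟩
noncomputable def l7q1_7 : Fn2 := ⟨_, _, fun h1 h2 => (enc_half h1)⟩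
noncomputable def l7q1_8 : Fn2 := ⟨_, _, fun h1 h2 => (enc_half (c3g.enc h1))⟩
noncomputable def l7q1_9 : Fn2 := ⟨_, _, fun h1 h2 => (enc_scale 1 4 h1)⟩
noncomputable def l7q1 : Fn2 := ⟨_, _, fun h1 h2 => (enc_norm (enc_add (txg.enc (l7q1_7.enc h1 h2) (enc_norm (enc_sub (l7q1_8.enc h1 h2) (l7q1_9.enc h1 h2))) h2) (txg.enc (enc_neg (l7q1_7.enc h1 h2)) (enc_norm (enc_add (l7q1_8.enc h1 h2) (l7q1_9.enc h1 h2))) h2)))⟩
noncomputable def kc7q1_3 : Fn2 := ⟨_, _, fun h1 h2 => (enc_subr 72 125 h2)⟩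
noncomputable def kc7q1_7 : Fn2 := ⟨_, _, fun h1 h2 => (enc_half h1)⟩
noncomputable def kc7q1 : Fn2 := ⟨_, _, fun h1 h2 => (enc_norm (enc_case (enc_subr 1 4 (kc7q1_7.enc h1 h2)) (enc_case (enc_subr 13 100 (kc7q1_7.enc h1 h2)) (enc_add (enc_subr 566787 200000 (enc_scale 1704793 260000 h1)) (enc_mul (enc_norm (kc7q1_3.enc h1 h2)) (enc_norm (enc_sub (enc_rat _ 41929 25000) (enc_scale 64551 26000 h1))))) (enc_add (enc_subr 9022173 4000000 (enc_scale 69317 16000 h1)) (enc_mul (enc_norm (kc7q1_3.enc h1 h2)) (enc_norm (enc_sub (enc_rat _ 4609 2400) (enc_scale 2051 600 h1)))))) (enc_case (enc_subr 19 50 (kc7q1_7.enc h1 h2)) (enc_add (enc_subr 1194703 6500000 (enc_scale 9819 52000 h1)) (enc_mul (enc_norm (kc7q1_3.enc h1 h2)) (enc_norm (enc_sub (enc_rat _ 168541 52000) (enc_scale 39389 6500 h1))))) (enc_add (enc_subr 10073 60000 (enc_scale 10073 60000 h1)) (enc_mul (enc_norm (kc7q1_3.enc h1 h2)) (enc_norm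 (enc_subr 45477 8000 (enc_scale 45477 8000 h1))))))))⟩
noncomputable def kf7q2 : Fn2 := ⟨_, _, fun h1 h2 => (enc_norm (enc_add (enc_mul (enc_norm (enc_mul (enc_norm (enc_sub (enc_nat 2 (c3g.enc h1)) h1)) (enc_norm (enc_sub (enc_add (c3g.enc h1) (enc_pnc _ 3)) (enc_scale 3 2 h1))))) (enc_inv (enc_nat 4 (enc_sub (enc_pnc _ 2) h1)))) (enc_mul (enc_norm (enc_subn 1 h1)) (kcg.enc (enc_norm (enc_sub (enc_scale 1 4 h1) (enc_half (c3g.enc h1)))) h2))))⟩
noncomputable def l7q2_7 : Fn2 := ⟨_, _, fun h1 h2 => (enc_half (c3g.enc h1))⟩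
noncomputable def l7q2_8 : Fn2 := ⟨_, _, fun h1 h2 => (enc_scale 1 4 h1)⟩
noncomputable def l7q2_9 : Fn2 := ⟨_, _, fun h1 h2 => (enc_sub (l7q2_7.enc h1 h2) (l7q2_8.enc h1 h2))⟩
noncomputable def l7q2_12 : Fn2 := ⟨_, _, fun h1 h2 => (enc_add (enc_scale 1 4 (c3g.enc h1)) (enc_scale 3 8 h1))⟩
noncomputable def l7q2_14 : Fn2 := ⟨_, _, fun h1 h2 => (enc_half (l7q2_9.enc h1 h2))⟩
noncomputable def l7q2 : Fn2 := ⟨_, _, fun h1 h2 => (enc_norm (enc_sub (enc_nat 2 (txg.enc (enc_norm (enc_sub (l7q2_8.enc h1 h2) (l7q2_7.enc h1 h2))) (enc_norm (enc_add (l7q2_12.enc h1 h2) (l7q2_14.enc h1 h2))) h2)) (txg.enc (enc_norm (l7q2_9.enc h1 h2)) (enc_norm (enc_sub (l7q2_12.enc h1 h2) (l7q2_14.enc h1 h2))) h2)))⟩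
noncomputable def kc7q2_3 : Fn2 := ⟨_, _, fun h1 h2 => (enc_subr 72 125 h2)⟩
noncomputable def kc7q2_9 : Fn2 := ⟨_, _, fun h1 h2 => (enc_sub (enc_half (c3g.enc h1)) (enc_scale 1 4 h1))⟩
noncomputable def kc7q2 : Fn2 := ⟨_, _, fun h1 h2 => (enc_norm (enc_case (enc_add (kc7q2_9.enc h1 h2) (enc_rat _ 7 100)) (enc_case (enc_add (kc7q2_9.enc h1 h2) (enc_rat _ 9 25)) (enc_add (enc_add (enc_scale 36877 140000 (kc7q2_9.enc h1 h2)) (enc_rat _ 36877 280000)) (enc_mul (enc_norm (kc7q2_3.enc h1 h2)) (enc_norm (enc_subr 8713 2000 (enc_neg (enc_scale 8713 1000 (kc7q2_9.enc h1 h2))))))) (enc_case (enc_add (kc7q2_9.enc h1 h2) (enc_rat _ 21 100)) (enc_add (enc_add (enc_scale 48943 150000 (kc7q2_9.enc h1 h2)) (enc_rat _ 771701 5000000)) (enc_mul (enc_norm (kc7q2_3.enc h1 h2)) (enc_norm (enc_subr 209123 250000 (enc_scale 1331 1250 (kc7q2_9.enc h1 h2)))))) (enc_add (enc_add (enc_scale 339 1250 (kc7q2_9.enc h1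 h2)) (enc_rat _ 35693 250000)) (enc_mul (enc_norm (kc7q2_3.enc h1 h2)) (enc_norm (enc_add (enc_scale 36061 7000 (kc7q2_9.enc h1 h2)) (enc_rat _ 2173 100000))))))) (enc_case (enc_subr 21 100 (kc7q2_9.enc h1 h2)) (enc_case (enc_subr 7 100 (kc7q2_9.enc h1 h2)) (enc_add (enc_add (enc_scale 12339 140000 (kc7q2_9.enc h1 h2)) (enc_rat _ 51983 400000)) (enc_mul (enc_norm (kc7q2_3.enc h1 h2)) (enc_norm (enc_add (enc_scale 15317 2000 (kc7q2_9.enc h1 h2)) (enc_rat _ 39443 200000))))) (enc_add (enc_sub (enc_rat _ 310703 2000000) (enc_scale 38449 140000 (kc7q2_9.enc h1 h2))) (enc_mul (enc_norm (kc7q2_3.enc h1 h2)) (enc_norm (enc_add (enc_scale 112759 14000 (kc7q2_9.enc h1 h2)) (enc_rat _ 33903 200000)))))) (enc_case (enc_subr 9 25 (kc7q2_9.enc h1 h2)) (enc_add (enc_sub (enc_rat _ 835527 5000000) (enc_scale 49591 150000 (kc7q2_9.enc h1 h2))) (enc_mul (enc_norm (kc7q2_3.enc h1 h2)) (enc_norm (enc_sub (enc_rat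 _ 548357 250000) (enc_scale 2969 1875 (kc7q2_9.enc h1 h2)))))) (enc_add (enc_sub (enc_rat _ 48087 280000) (enc_scale 48087 140000 (kc7q2_9.enc h1 h2))) (enc_mul (enc_norm (kc7q2_3.enc h1 h2)) (enc_norm (enc_sub (enc_rat _ 81169 14000) (enc_scale 81169 7000 (kc7q2_9.enc h1 h2))))))))))⟩
noncomputable def kfc73 : Fn2 := ⟨_, _, fun h1 h2 => (enc_norm (enc_sub (enc_mul (enc_norm (enc_subn 2 (ycg.enc h1))) (kcg.enc (enc_norm (enc_sub (enc_scale 1 4 (ycg.enc h1)) (enc_half h1))) h2)) (enc_mul (enc_norm (enc_mul (enc_norm (enc_sub (enc_nat 2 h1) (ycg.enc h1))) (enc_norm (enc_sub (enc_add h1 (enc_pnc _ 3)) (enc_scale 3 2 (ycg.enc h1)))))) (enc_inv (enc_nat 4 (enc_subn 1 (ycg.enc h1)))))))⟩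
noncomputable def lc73_7 : Fn2 := ⟨_, _, fun h1 h2 => (enc_half h1)⟩
noncomputable def lc73_8 : Fn2 := ⟨_, _, fun h1 h2 => (enc_scale 1 4 (ycg.enc h1))⟩
noncomputable def lc73_9 : Fn2 := ⟨_, _, fun h1 h2 => (enc_sub (lc73_7.enc h1 h2) (lc73_8.enc h1 h2))⟩
noncomputable def lc73_12 : Fn2 := ⟨_, _, fun h1 h2 => (enc_add (enc_scale 1 4 h1) (enc_scale 3 8 (ycg.enc h1)))⟩
noncomputable def lc73_14 : Fn2 := ⟨_, _, fun h1 h2 => (enc_half (lc73_9.enc h1 h2))⟩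
noncomputable def lc73 : Fn2 := ⟨_, _, fun h1 h2 => (enc_norm (enc_sub (enc_nat 2 (txg.enc (enc_norm (enc_sub (lc73_8.enc h1 h2) (lc73_7.enc h1 h2))) (enc_norm (enc_add (lc73_12.enc h1 h2) (lc73_14.enc h1 h2))) h2)) (txg.enc (enc_norm (lc73_9.enc h1 h2)) (enc_norm (enc_sub (lc73_12.enc h1 h2) (lc73_14.enc h1 h2))) h2)))⟩
noncomputable def kcc73_4 : Fn2 := ⟨_, _, fun h1 h2 => (enc_subr 72 125 h2)⟩
noncomputable def kcc73_9 : Fn2 := ⟨_, _, fun h1 h2 => (enc_sub (enc_half h1) (enc_scale 1 4 (ycg.enc h1)))⟩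
noncomputable def kcc73 : Fn2 := ⟨_, _, fun h1 h2 => (enc_norm (enc_case (enc_add (kcc73_9.enc h1 h2) (enc_rat _ 7 100)) (enc_case (enc_add (kcc73_9.enc h1 h2) (enc_rat _ 9 25)) (enc_add (enc_add (enc_scale 36877 140000 (kcc73_9.enc h1 h2)) (enc_rat _ 36877 280000)) (enc_mul (enc_norm (kcc73_4.enc h1 h2)) (enc_norm (enc_subr 8713 2000 (enc_neg (enc_scale 8713 1000 (kcc73_9.enc h1 h2))))))) (enc_case (enc_add (kcc73_9.enc h1 h2) (enc_rat _ 21 100)) (enc_add (enc_add (enc_scale 48943 150000 (kcc73_9.enc h1 h2)) (enc_rat _ 771701 5000000)) (enc_mul (enc_norm (kcc73_4.enc h1 h2)) (enc_norm (enc_subr 209123 250000 (enc_scale 1331 1250 (kcc73_9.enc h1 h2)))))) (enc_add (enc_add (enc_scale 339 1250 (kcc73_9.enc h1 h2)) (enc_rat _ 35693 250000)) (enc_mul (enc_norm (kcc73_4.enc h1 h2)) (enc_norm (enc_add (enc_scale 36061 7000 (kcc73_9.enc h1 h2)) (enc_rat _ 2173 100000))))))) (enc_case (enc_subr 21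 100 (kcc73_9.enc h1 h2)) (enc_case (enc_subr 7 100 (kcc73_9.enc h1 h2)) (enc_add (enc_add (enc_scale 12339 140000 (kcc73_9.enc h1 h2)) (enc_rat _ 51983 400000)) (enc_mul (enc_norm (kcc73_4.enc h1 h2)) (enc_norm (enc_add (enc_scale 15317 2000 (kcc73_9.enc h1 h2)) (enc_rat _ 39443 200000))))) (enc_add (enc_sub (enc_rat _ 310703 2000000) (enc_scale 38449 140000 (kcc73_9.enc h1 h2))) (enc_mul (enc_norm (kcc73_4.enc h1 h2)) (enc_norm (enc_add (enc_scale 112759 14000 (kcc73_9.enc h1 h2)) (enc_rat _ 33903 200000)))))) (enc_case (enc_subr 9 25 (kcc73_9.enc h1 h2)) (enc_add (enc_sub (enc_rat _ 835527 5000000) (enc_scale 49591 150000 (kcc73_9.enc h1 h2))) (enc_mul (enc_norm (kcc73_4.enc h1 h2)) (enc_norm (enc_sub (enc_rat _ 548357 250000) (enc_scale 2969 1875 (kcc73_9.enc h1 h2)))))) (enc_add (enc_sub (enc_rat _ 48087 280000) (enc_scale 48087 140000 (kcc73_9.enc h1 h2))) (enc_mul (enc_norm (kcc73_4.enc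 h1 h2)) (enc_norm (enc_sub (enc_rat _ 81169 14000) (enc_scale 81169 7000 (kcc73_9.enc h1 h2))))))))))⟩
noncomputable def lm6m : Fn2 := ⟨_, _, fun h1 h2 => (enc_lam (enc_norm (enc_sub h1 (cv6m.enc h2))) (enc_sub (c3g.enc h2) (cv6m.enc h2)))⟩
noncomputable def lm5m : Fn2 := ⟨_, _, fun h1 h2 => (enc_lam (enc_norm (enc_sub h1 (cv5m.enc h2))) (enc_sub (cv6m.enc h2) (cv5m.enc h2)))⟩
noncomputable def bf5q0_3 : Fn2 := ⟨_, _, fun h1 h2 => (enc_subr 72 125 h2)⟩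
noncomputable def bf5q0 : Fn2 := ⟨_, _, fun h1 h2 => (enc_norm (enc_case (enc_subr 53 125 h1) (enc_case (enc_subr 13 100 h1) (enc_add (enc_sub (enc_rat _ 6599 10000) (enc_scale 228123 130000 h1)) (enc_mul (enc_norm (bf5q0_3.enc h1 h2)) (enc_norm (enc_sub (enc_rat _ 13393 25000) (enc_scale 5921 13000 h1))))) (enc_case (enc_subr 1 4 h1) (enc_add (enc_sub (enc_rat _ 7858453 12000000) (enc_scale 205933 120000 h1)) (enc_mul (enc_norm (bf5q0_3.enc h1 h2)) (enc_norm (enc_sub (enc_rat _ 68551 120000) (enc_scale 4373 6000 h1))))) (enc_add (enc_sub (enc_rat _ 3262490993 5000000000) (enc_scale 2133270993 1250000000 h1)) (enc_mul (enc_norm (bf5q0_3.enc h1 h2)) (enc_norm (enc_sub (enc_rat _ 606802757 500000000) (enc_scale 412277757 125000000 h1))))))) (enc_add (enc_sub (enc_rat _ 13377691 7500000) (enc_scale 32609117 7500000 h1)) (enc_mul (enc_norm (bf5q0_3.enc h1 h2)) (enc_norm (enc_subr 66889291 10800000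 (enc_scale 71064787 5400000 h1)))))))⟩
noncomputable def lm4m : Fn2 := ⟨_, _, fun h1 h2 => (enc_lam (enc_norm (enc_sub h1 (cv4m.enc h2))) (enc_sub (cv5m.enc h2) (cv4m.enc h2)))⟩
noncomputable def lm3m : Fn2 := ⟨_, _, fun h1 h2 => (enc_lam (enc_norm (enc_sub h1 (cv3m.enc h2))) (enc_sub (cv4m.enc h2) (cv3m.enc h2)))⟩
noncomputable def lm2m : Fn2 := ⟨_, _, fun h1 h2 => (enc_lam (enc_norm (enc_sub h1 (cv2m.enc h2))) (enc_sub (cv3m.enc h2) (cv2m.enc h2)))⟩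
noncomputable def lm1m : Fn2 := ⟨_, _, fun h1 h2 => (enc_lam (enc_norm (enc_sub h1 (cv1m.enc h2))) (enc_sub (cv2m.enc h2) (cv1m.enc h2)))⟩
noncomputable def lm0m : Fn2 := ⟨_, _, fun h1 h2 => (enc_lam (enc_norm (enc_sub h1 (c1g.enc h2))) (enc_sub (cv1m.enc h2) (c1g.enc h2)))⟩
noncomputable def rkbq0_38 : Fn3 := ⟨_, _, fun h1 h2 h3 => (enc_add (enc_mul h1 (bf5q0.enc h2 h3)) (enc_mul (enc_norm (enc_mul (enc_norm (enc_sub (enc_pnc _ 1) (lm4m.enc h1 h2))) (cv4m.enc h2))) (enc_norm (enc_sub (bf4q0.enc h2 h3) (bf5q0.enc h2 h3)))))⟩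
noncomputable def rkbq0_40 : Fn3 := ⟨_, _, fun h1 h2 h3 => (enc_sub (enc_pnc _ 1) h2)⟩
noncomputable def rkbq0_41 : Fn3 := ⟨_, _, fun h1 h2 h3 => (gsg.enc (enc_norm (rkbq0_40.enc h1 h2 h3)))⟩
noncomputable def rkbq0_44 : Fn3 := ⟨_, _, fun h1 h2 h3 => (enc_sub (enc_scale 3 4 (rkbq0_40.enc h1 h2 h3)) (enc_half (rkbq0_41.enc h1 h2 h3)))⟩
noncomputable def rkbq0_64 : Fn3 := ⟨_, _, fun h1 h2 h3 => (enc_sub h1 (cv4m.enc h2))⟩
noncomputable def rkbq0 : Fn3 := ⟨_, _, fun h1 h2 h3 => (enc_case (enc_sub h1 (cv1m.enc h2)) (enc_add (enc_mul h1 (bf1q0.enc h2 h3)) (enc_mul (enc_norm (enc_sub (enc_pnc _ 1) (lm0m.enc h1 h2))) (enc_norm (enc_sub (kf0q0.enc h2 h3) (enc_mul (c1g.enc h2) (bf1q0.enc h2 h3)))))) (enc_case (enc_sub h1 (cv2m.enc h2)) (enc_add (enc_mul h1 (bf2q0.enc h2 h3)) (enc_mul (enc_norm (enc_mul (enc_norm (enc_sub (enc_pnc _ 1) (lm1m.enc h1 h2))) (cv1m.enc h2))) (enc_norm (enc_sub (bf1q0.enc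 h2 h3) (bf2q0.enc h2 h3))))) (enc_case (enc_sub h1 (cv3m.enc h2)) (enc_add (enc_mul h1 (bf3q0.enc h2 h3)) (enc_mul (enc_norm (enc_mul (enc_norm (enc_sub (enc_pnc _ 1) (lm2m.enc h1 h2))) (cv2m.enc h2))) (enc_norm (enc_sub (bf2q0.enc h2 h3) (bf3q0.enc h2 h3))))) (enc_case (rkbq0_64.enc h1 h2 h3) (enc_add (enc_mul h1 (bf4q0.enc h2 h3)) (enc_mul (enc_norm (enc_mul (enc_norm (enc_sub (enc_pnc _ 1) (lm3m.enc h1 h2))) (cv3m.enc h2))) (enc_norm (enc_sub (bf3q0.enc h2 h3) (bf4q0.enc h2 h3))))) (enc_case (enc_sub h1 (cv5m.enc h2)) (enc_case (enc_subr 3 8 h2) (rkbq0_38.enc h1 h2 h3) (enc_case (enc_subr 473 1000 h2) (enc_add (kf4q0.enc h2 h3) (enc_mul (enc_norm (enc_mul (enc_norm (rkbq0_64.enc h1 h2 h3)) (enc_inv (enc_sub (enc_add (swg.enc h2) (enc_rat _ 1 2)) (cv4m.enc h2))))) (enc_norm (enc_sub (enc_mul h2 (enc_norm (enc_sub (enc_mul (enc_norm (enc_sub (rkbq0_44.enc h1 h2 h3) (enc_sub (enc_rat _ 1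 4) (enc_scale 3 8 (enc_mul (enc_norm (rkbq0_40.enc h1 h2 h3)) (enc_inv (rkbq0_41.enc h1 h2 h3))))))) (enc_inv (esg.enc (enc_norm (rkbq0_40.enc h1 h2 h3))))) (kcg.enc (enc_norm (rkbq0_44.enc h1 h2 h3)) h3)))) (kf4q0.enc h2 h3))))) (rkbq0_38.enc h1 h2 h3))) (enc_case (enc_sub h1 (cv6m.enc h2)) (enc_add (enc_mul h1 (bf6q0.enc h2 h3)) (enc_mul (enc_norm (enc_sub (enc_pnc _ 1) (lm5m.enc h1 h2))) (enc_norm (enc_sub (kf5q0.enc h2 h3) (enc_mul (cv5m.enc h2) (bf6q0.enc h2 h3)))))) (enc_add (kf6q0.enc h2 h3) (enc_mul (lm6m.enc h1 h2) (enc_norm (enc_sub (kf7q0.enc h2 h3) (kf6q0.enc h2 h3)))))))))))⟩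
noncomputable def rsbq0 : Fn3 := ⟨_, _, fun h1 h2 h3 => (enc_case h1 (enc_neg (rkbq0.enc (enc_neg h1) h2 h3)) (rkbq0.enc h1 h2 h3))⟩
noncomputable def rkbq1 : Fn3 := ⟨_, _, fun h1 h2 h3 => (enc_case (enc_sub h1 (cv1m.enc h2)) (enc_add (enc_mul h1 (bf1q1.enc h2 h3)) (enc_mul (enc_norm (enc_sub (enc_pnc _ 1) (lm0m.enc h1 h2))) (enc_norm (enc_sub (kf0q1.enc h2 h3) (enc_mul (c1g.enc h2) (bf1q1.enc h2 h3)))))) (enc_case (enc_sub h1 (cv2m.enc h2)) (enc_add (enc_mul h1 (bf2q1.enc h2 h3)) (enc_mul (enc_norm (enc_mul (enc_norm (enc_sub (enc_pnc _ 1) (lm1m.enc h1 h2))) (cv1m.enc h2))) (enc_norm (enc_sub (bf1q1.enc h2 h3) (bf2q1.enc h2 h3))))) (enc_case (enc_sub h1 (cv3m.enc h2)) (enc_add (enc_mul h1 (bf3q1.enc h2 h3)) (enc_mul (enc_norm (enc_mul (enc_norm (enc_sub (enc_pnc _ 1) (lm2m.enc h1 h2))) (cv2m.enc h2))) (enc_norm (enc_sub (bf2q1.enc h2 h3) (bf3q1.enc h2 h3))))) (enc_case (enc_sub h1 (cv4m.enc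 h2)) (enc_add (enc_mul h1 (bf4q1.enc h2 h3)) (enc_mul (enc_norm (enc_mul (enc_norm (enc_sub (enc_pnc _ 1) (lm3m.enc h1 h2))) (cv3m.enc h2))) (enc_norm (enc_sub (bf3q1.enc h2 h3) (bf4q1.enc h2 h3))))) (enc_case (enc_sub h1 (cv5m.enc h2)) (enc_add (enc_mul h1 (bf5q1.enc h2 h3)) (enc_mul (enc_norm (enc_mul (enc_norm (enc_sub (enc_pnc _ 1) (lm4m.enc h1 h2))) (cv4m.enc h2))) (enc_norm (enc_sub (bf4q1.enc h2 h3) (bf5q1.enc h2 h3))))) (enc_case (enc_sub h1 (cv6m.enc h2)) (enc_add (enc_mul h1 (bf6q1.enc h2 h3)) (enc_mul (enc_norm (enc_mul (enc_norm (enc_sub (enc_pnc _ 1) (lm5m.enc h1 h2))) (cv5m.enc h2))) (enc_norm (enc_sub (bf5q1.enc h2 h3) (bf6q1.enc h2 h3))))) (enc_add (kf6q1.enc h2 h3) (enc_mul (lm6m.enc h1 h2) (enc_norm (enc_sub (kf7q1.enc h2 h3) (kf6q1.enc h2 h3)))))))))))⟩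
noncomputable def rsbq1 : Fn3 := ⟨_, _, fun h1 h2 h3 => (enc_case h1 (enc_neg (rkbq1.enc (enc_neg h1) h2 h3)) (rkbq1.enc h1 h2 h3))⟩
noncomputable def cv1p : Fn1 := ⟨_, _, fun h1 => (enc_norm (enc_add (enc_scale 23 25 (c1g.enc h1)) (enc_scale 2 25 (enc_subr 1 2 (swg.enc h1)))))⟩
noncomputable def cv2p : Fn1 := ⟨_, _, fun h1 => (enc_norm (enc_add (enc_scale 3 4 (c1g.enc h1)) (enc_scale 1 4 (enc_subr 1 2 (swg.enc h1)))))⟩
noncomputable def cv3p : Fn1 := ⟨_, _, fun h1 => (enc_norm (enc_add (enc_scale 29 50 (c1g.enc h1)) (enc_scale 21 50 (enc_subr 1 2 (swg.enc h1)))))⟩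
noncomputable def cv4p : Fn1 := ⟨_, _, fun h1 => (enc_norm (enc_add (enc_scale 1 5 (c1g.enc h1)) (enc_scale 4 5 (enc_subr 1 2 (swg.enc h1)))))⟩
noncomputable def lm6p : Fn2 := ⟨_, _, fun h1 h2 => (enc_lam (enc_norm (enc_sub h1 (cv6p.enc h2))) (enc_sub (c3g.enc h2) (cv6p.enc h2)))⟩
noncomputable def lm5p : Fn2 := ⟨_, _, fun h1 h2 => (enc_lam (enc_norm (enc_sub h1 (cv5p.enc h2))) (enc_sub (cv6p.enc h2) (cv5p.enc h2)))⟩
noncomputable def lm4p : Fn2 := ⟨_, _, fun h1 h2 => (enc_lam (enc_norm (enc_sub h1 (cv4p.enc h2))) (enc_sub (cv5p.enc h2) (cv4p.enc h2)))⟩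
noncomputable def bf4q2_3 : Fn2 := ⟨_, _, fun h1 h2 => (enc_subr 72 125 h2)⟩
noncomputable def bf4q2 : Fn2 := ⟨_, _, fun h1 h2 => (enc_norm (enc_case (enc_sub (enc_pnc _ 1) (enc_scale 3 4 (enc_sq h1))) (enc_case (enc_subr 127 100 h1) (enc_add (enc_sub (enc_rat _ 56179379 11600000) (enc_scale 421217 116000 h1)) (enc_mul (enc_norm (bf4q2_3.enc h1 h2)) (enc_norm (enc_sub (enc_rat _ 62151847 5800000) (enc_scale 3983 464 h1))))) (enc_case (enc_subr 69 50 h1) (enc_add (enc_sub (enc_rat _ 5602661 1000000) (enc_scale 42293 10000 h1)) (enc_mul (enc_norm (bf4q2_3.enc h1 h2)) (enc_norm (enc_subr 736141 100000 (enc_scale 113 20 h1))))) (enc_add (enc_sub (enc_rat _ 2600217 2000000) (enc_scale 133381 120000 h1)) (enc_mul (enc_norm (bf4q2_3.enc h1 h2)) (enc_norm (enc_sub (enc_rat _ 1613309 100000) (enc_scale 91 8 h1))))))) (enc_case (enc_subr 1 4 (c1g.enc h1)) (enc_case (enc_subr 1 10 (c1g.enc h1)) (enc_case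 (enc_subr 1 20 (c1g.enc h1)) (enc_add (enc_add (enc_scale 10279 12500 (c1g.enc h1)) (enc_rat _ 649681 1000000)) (enc_mul (enc_norm (bf4q2_3.enc h1 h2)) (enc_norm (enc_sub (enc_rat _ 81487 100000) (enc_scale 11757 2500 (c1g.enc h1)))))) (enc_add (enc_add (enc_scale 20783 25000 (c1g.enc h1)) (enc_rat _ 649231 1000000)) (enc_mul (enc_norm (bf4q2_3.enc h1 h2)) (enc_norm (enc_sub (enc_rat _ 8141 10000) (enc_scale 23437 5000 (c1g.enc h1))))))) (enc_case (enc_subr 3 20 (c1g.enc h1)) (enc_add (enc_add (enc_scale 10419 12500 (c1g.enc h1)) (enc_rat _ 649011 1000000)) (enc_mul (enc_norm (bf4q2_3.enc h1 h2)) (enc_norm (enc_sub (enc_rat _ 9643 12500) (enc_scale 2663 625 (c1g.enc h1)))))) (enc_case (enc_subr 1 5 (c1g.enc h1)) (enc_add (enc_add (enc_scale 20653 25000 (c1g.enc h1)) (enc_rat _ 650121 1000000)) (enc_mul (enc_norm (bf4q2_3.enc h1 h2)) (enc_norm (enc_sub (enc_rat _ 2591 4000) (enc_scale 17181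 5000 (c1g.enc h1)))))) (enc_add (enc_add (enc_scale 319 400 (c1g.enc h1)) (enc_rat _ 131169 200000)) (enc_mul (enc_norm (bf4q2_3.enc h1 h2)) (enc_norm (enc_sub (enc_rat _ 43303 100000) (enc_scale 11813 5000 (c1g.enc h1))))))))) (enc_case (enc_subr 7 20 (c1g.enc h1)) (enc_case (enc_subr 3 10 (c1g.enc h1)) (enc_add (enc_add (enc_scale 18077 25000 (c1g.enc h1)) (enc_rat _ 13489 20000)) (enc_mul (enc_norm (bf4q2_3.enc h1 h2)) (enc_norm (enc_sub (enc_rat _ 2187 25000) (enc_scale 2451 2500 (c1g.enc h1)))))) (enc_add (enc_add (enc_scale 1541 2500 (c1g.enc h1)) (enc_rat _ 353227 500000)) (enc_mul (enc_norm (bf4q2_3.enc h1 h2)) (enc_norm (enc_subr 15231 50000 (enc_scale 1633 5000 (c1g.enc h1))))))) (enc_case (enc_subr 2 5 (c1g.enc h1)) (enc_add (enc_add (enc_scale 5609 10000 (c1g.enc h1)) (enc_rat _ 725879 1000000)) (enc_mul (enc_norm (bf4q2_3.enc h1 h2)) (enc_norm (enc_subr 56467 100000 (enc_scale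 1337 1250 (c1g.enc h1)))))) (enc_case (enc_subr 9 20 (c1g.enc h1)) (enc_add (enc_add (enc_scale 2621 5000 (c1g.enc h1)) (enc_rat _ 740559 1000000)) (enc_mul (enc_norm (bf4q2_3.enc h1 h2)) (enc_norm (enc_subr 70259 100000 (enc_scale 884 625 (c1g.enc h1)))))) (enc_add (enc_add (enc_scale 23551 50000 (c1g.enc h1)) (enc_rat _ 76449 100000)) (enc_mul (enc_norm (bf4q2_3.enc h1 h2)) (enc_norm (enc_subr 6611 10000 (enc_scale 6611 5000 (c1g.enc h1))))))))))))⟩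
noncomputable def lm3p : Fn2 := ⟨_, _, fun h1 h2 => (enc_lam (enc_norm (enc_sub h1 (cv3p.enc h2))) (enc_sub (cv4p.enc h2) (cv3p.enc h2)))⟩
noncomputable def bf3q2_3 : Fn2 := ⟨_, _, fun h1 h2 => (enc_subr 72 125 h2)⟩
noncomputable def bf3q2 : Fn2 := ⟨_, _, fun h1 h2 => (enc_norm (enc_case (enc_sub (enc_pnc _ 1) (enc_scale 3 4 (enc_sq h1))) (enc_case (enc_subr 127 100 h1) (enc_add (enc_sub (enc_rat _ 10287623 2320000) (enc_scale 390219 116000 h1)) (enc_mul (enc_norm (bf3q2_3.enc h1 h2)) (enc_norm (enc_sub (enc_rat _ 722613 290000) (enc_scale 9049 5800 h1))))) (enc_case (enc_subr 69 50 h1) (enc_add (enc_sub (enc_rat _ 47642999 11000000) (enc_scale 180551 55000 h1)) (enc_mul (enc_norm (bf3q2_3.enc h1 h2)) (enc_norm (enc_sub (enc_rat _ 436859 68750) (enc_scale 50617 11000 h1))))) (enc_add (enc_sub (enc_rat _ 1715193 400000) (enc_scale 390173 120000 h1)) (enc_mul (enc_norm (bf3q2_3.enc h1 h2))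 (enc_norm (enc_sub (enc_rat _ 346221 50000) (enc_scale 3761 750 h1))))))) (enc_case (enc_subr 1 4 (c1g.enc h1)) (enc_case (enc_subr 1 10 (c1g.enc h1)) (enc_case (enc_subr 1 20 (c1g.enc h1)) (enc_add (enc_add (enc_scale 27601 25000 (c1g.enc h1)) (enc_rat _ 22051 40000)) (enc_mul (enc_norm (bf3q2_3.enc h1 h2)) (enc_norm (enc_sub (enc_rat _ 13001 20000) (enc_scale 4613 1250 (c1g.enc h1)))))) (enc_add (enc_add (enc_scale 1371 1250 (c1g.enc h1)) (enc_rat _ 551637 1000000)) (enc_mul (enc_norm (bf3q2_3.enc h1 h2)) (enc_norm (enc_sub (enc_rat _ 12751 20000) (enc_scale 8601 2500 (c1g.enc h1))))))) (enc_case (enc_subr 3 20 (c1g.enc h1)) (enc_add (enc_add (enc_scale 6803 6250 (c1g.enc h1)) (enc_rat _ 552469 1000000)) (enc_mul (enc_norm (bf3q2_3.enc h1 h2)) (enc_norm (enc_sub (enc_rat _ 58479 100000) (enc_scale 3641 1250 (c1g.enc h1)))))) (enc_case (enc_subr 1 5 (c1g.enc h1)) (enc_add (enc_add (enc_scale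 26869 25000 (c1g.enc h1)) (enc_rat _ 554527 1000000)) (enc_mul (enc_norm (bf3q2_3.enc h1 h2)) (enc_norm (enc_sub (enc_rat _ 48171 100000) (enc_scale 1391 625 (c1g.enc h1)))))) (enc_add (enc_add (enc_scale 10471 10000 (c1g.enc h1)) (enc_rat _ 560059 1000000)) (enc_mul (enc_norm (bf3q2_3.enc h1 h2)) (enc_norm (enc_sub (enc_rat _ 35631 100000) (enc_scale 7993 5000 (c1g.enc h1))))))))) (enc_case (enc_subr 7 20 (c1g.enc h1)) (enc_case (enc_subr 3 10 (c1g.enc h1)) (enc_add (enc_add (enc_scale 9871 10000 (c1g.enc h1)) (enc_rat _ 575059 1000000)) (enc_mul (enc_norm (bf3q2_3.enc h1 h2)) (enc_norm (enc_sub (enc_rat _ 8633 50000) (enc_scale 108 125 (c1g.enc h1)))))) (enc_add (enc_add (enc_scale 44287 50000 (c1g.enc h1)) (enc_rat _ 605467 1000000)) (enc_mul (enc_norm (bf3q2_3.enc h1 h2)) (enc_norm (enc_subr 173 6250 (enc_neg (enc_scale 981 5000 (c1g.enc h1)))))))) (enc_case (enc_subr 2 5 (c1g.enc h1))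 (enc_add (enc_add (enc_scale 18503 25000 (c1g.enc h1)) (enc_rat _ 328217 500000)) (enc_mul (enc_norm (bf3q2_3.enc h1 h2)) (enc_norm (enc_subr 678 3125 (enc_scale 1723 5000 (c1g.enc h1)))))) (enc_case (enc_subr 9 20 (c1g.enc h1)) (enc_add (enc_add (enc_scale 337 625 (c1g.enc h1)) (enc_rat _ 368401 500000)) (enc_mul (enc_norm (bf3q2_3.enc h1 h2)) (enc_norm (enc_subr 4721 12500 (enc_scale 933 1250 (c1g.enc h1)))))) (enc_add (enc_add (enc_scale 10279 25000 (c1g.enc h1)) (enc_rat _ 39721 50000)) (enc_mul (enc_norm (bf3q2_3.enc h1 h2)) (enc_norm (enc_subr 209 500 (enc_scale 209 250 (c1g.enc h1))))))))))))⟩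
noncomputable def lm2p : Fn2 := ⟨_, _, fun h1 h2 => (enc_lam (enc_norm (enc_sub h1 (cv2p.enc h2))) (enc_sub (cv3p.enc h2) (cv2p.enc h2)))⟩
noncomputable def bf2q2_3 : Fn2 := ⟨_, _, fun h1 h2 => (enc_subr 72 125 h2)⟩
noncomputable def bf2q2 : Fn2 := ⟨_, _, fun h1 h2 => (enc_norm (enc_case (enc_sub (enc_pnc _ 1) (enc_scale 3 4 (enc_sq h1))) (enc_case (enc_subr 127 100 h1) (enc_add (enc_sub (enc_rat _ 29134971 5800000) (enc_scale 110307 29000 h1)) (enc_mul (enc_norm (bf2q2_3.enc h1 h2)) (enc_norm (enc_subr 5183269 2900000 (enc_scale 4261 2900 h1))))) (enc_case (enc_subr 69 50 h1) (enc_add (enc_sub (enc_rat _ 10803651 2200000) (enc_scale 20433 5500 h1)) (enc_mul (enc_norm (bf2q2_3.enc h1 h2)) (enc_norm (enc_sub (enc_rat _ 1128213 1100000) (enc_scale 4101 5500 h1))))) (enc_add (enc_sub (enc_rat _ 9798917 2000000) (enc_scale 444829 120000 h1)) (enc_mul (enc_norm (bf2q2_3.enc h1 h2)) (enc_norm (enc_sub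 (enc_rat _ 71751 40000) (enc_scale 5209 4000 h1))))))) (enc_case (enc_subr 1 4 (c1g.enc h1)) (enc_case (enc_subr 1 10 (c1g.enc h1)) (enc_case (enc_subr 1 20 (c1g.enc h1)) (enc_add (enc_add (enc_scale 30449 50000 (c1g.enc h1)) (enc_rat _ 630861 1000000)) (enc_mul (enc_norm (bf2q2_3.enc h1 h2)) (enc_norm (enc_subr 4823 50000 (enc_neg (enc_scale 269 5000 (c1g.enc h1))))))) (enc_add (enc_add (enc_scale 32723 50000 (c1g.enc h1)) (enc_rat _ 628587 1000000)) (enc_mul (enc_norm (bf2q2_3.enc h1 h2)) (enc_norm (enc_subr 4561 50000 (enc_neg (enc_scale 793 5000 (c1g.enc h1)))))))) (enc_case (enc_subr 3 20 (c1g.enc h1)) (enc_add (enc_add (enc_scale 1819 2500 (c1g.enc h1)) (enc_rat _ 621273 1000000)) (enc_mul (enc_norm (bf2q2_3.enc h1 h2)) (enc_norm (enc_subr 2431 25000 (enc_neg (enc_scale 123 1250 (c1g.enc h1))))))) (enc_case (enc_subr 1 5 (c1g.enc h1)) (enc_add (enc_add (enc_scale 41101 50000 (c1g.enc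 h1)) (enc_rat _ 60711 100000)) (enc_mul (enc_norm (bf2q2_3.enc h1 h2)) (enc_norm (enc_subr 5741 50000 (enc_scale 47 2500 (c1g.enc h1)))))) (enc_add (enc_add (enc_scale 9119 10000 (c1g.enc h1)) (enc_rat _ 294567 500000)) (enc_mul (enc_norm (bf2q2_3.enc h1 h2)) (enc_norm (enc_subr 6727 50000 (enc_scale 587 5000 (c1g.enc h1))))))))) (enc_case (enc_subr 7 20 (c1g.enc h1)) (enc_case (enc_subr 3 10 (c1g.enc h1)) (enc_add (enc_add (enc_scale 12089 12500 (c1g.enc h1)) (enc_rat _ 575329 1000000)) (enc_mul (enc_norm (bf2q2_3.enc h1 h2)) (enc_norm (enc_subr 467 3125 (enc_scale 177 1000 (c1g.enc h1)))))) (enc_add (enc_add (enc_scale 12209 12500 (c1g.enc h1)) (enc_rat _ 572449 1000000)) (enc_mul (enc_norm (bf2q2_3.enc h1 h2)) (enc_norm (enc_subr 1729 10000 (enc_scale 319 1250 (c1g.enc h1))))))) (enc_case (enc_subr 2 5 (c1g.enc h1)) (enc_add (enc_add (enc_scale 47007 50000 (c1g.enc h1)) (enc_rat _ 146313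 250000)) (enc_mul (enc_norm (bf2q2_3.enc h1 h2)) (enc_norm (enc_subr 21469 100000 (enc_scale 1873 5000 (c1g.enc h1)))))) (enc_case (enc_subr 9 20 (c1g.enc h1)) (enc_add (enc_add (enc_scale 23063 50000 (c1g.enc h1)) (enc_rat _ 194201 250000)) (enc_mul (enc_norm (bf2q2_3.enc h1 h2)) (enc_norm (enc_subr 29541 100000 (enc_scale 1441 2500 (c1g.enc h1)))))) (enc_add (enc_add (enc_scale 15629 50000 (c1g.enc h1)) (enc_rat _ 84371 100000)) (enc_mul (enc_norm (bf2q2_3.enc h1 h2)) (enc_norm (enc_subr 3603 10000 (enc_scale 3603 5000 (c1g.enc h1))))))))))))⟩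
noncomputable def lm1p : Fn2 := ⟨_, _, fun h1 h2 => (enc_lam (enc_norm (enc_sub h1 (cv1p.enc h2))) (enc_sub (cv2p.enc h2) (cv1p.enc h2)))⟩
noncomputable def bf1q2_3 : Fn2 := ⟨_, _, fun h1 h2 => (enc_subr 72 125 h2)⟩
noncomputable def bf1q2_8 : Fn2 := ⟨_, _, fun h1 h2 => (enc_sub (enc_pnc _ 1) (enc_scale 9701419 5000000 (enc_subn 1 h1)))⟩
noncomputable def bf1q2 : Fn2 := ⟨_, _, fun h1 h2 => (enc_norm (enc_case (enc_sub (enc_pnc _ 1) (enc_scale 3 4 (enc_sq h1))) (enc_add (bf1q2_8.enc h1 h2) (enc_case (enc_subr 127 100 h1) (enc_case (enc_subr 231 200 h1) (enc_pnc _ 0) (enc_add (enc_sub (enc_rat _ 2897433 1150000) (enc_scale 12543 5750 h1)) (enc_mul (enc_norm (bf1q2_3.enc h1 h2)) (enc_norm (enc_sub (enc_rat _ 231231 1150000) (enc_scale 1001 5750 h1)))))) (enc_case (enc_subr 139 100 h1) (enc_add (enc_sub (enc_rat _ 157327 62500) (enc_scale 5449 2500 h1)) (enc_mul (enc_norm (bf1q2_3.enc h1 h2))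 (enc_norm (enc_sub (enc_rat _ 53647 600000) (enc_scale 517 6000 h1))))) (enc_add (enc_sub (enc_rat _ 432406 171875) (enc_scale 59911 27500 h1)) (enc_mul (enc_norm (bf1q2_3.enc h1 h2)) (enc_norm (enc_sub (enc_rat _ 44861 1100000) (enc_scale 563 11000 h1)))))))) (enc_add (bf1q2_8.enc h1 h2) (enc_case (enc_subr 1 4 (c1g.enc h1)) (enc_case (enc_subr 1 10 (c1g.enc h1)) (enc_case (enc_subr 1 20 (c1g.enc h1)) (enc_sub (enc_neg (enc_scale 7951 50000 (c1g.enc h1))) (enc_mul (enc_norm (bf1q2_3.enc h1 h2)) (enc_scale 18427 5000 (c1g.enc h1)))) (enc_add (enc_sub (enc_rat _ 3757 250000) (enc_scale 22979 50000 (c1g.enc h1))) (enc_mul (enc_norm (bf1q2_3.enc h1 h2)) (enc_norm (enc_subr 483 100000 (enc_neg (enc_scale 2243 625 (c1g.enc h1)))))))) (enc_case (enc_subr 3 20 (c1g.enc h1)) (enc_add (enc_subr 1693 500000 (enc_neg (enc_scale 3443 12500 (c1g.enc h1)))) (enc_mul (enc_norm (bf1q2_3.enc h1 h2)) (enc_norm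 (enc_subr 2513 100000 (enc_neg (enc_scale 16929 5000 (c1g.enc h1))))))) (enc_case (enc_subr 1 5 (c1g.enc h1)) (enc_add (enc_subr 104657 1000000 (enc_scale 3997 10000 (c1g.enc h1))) (enc_mul (enc_norm (bf1q2_3.enc h1 h2)) (enc_norm (enc_subr 96239 100000 (enc_scale 14313 5000 (c1g.enc h1)))))) (enc_add (enc_subr 210549 1000000 (enc_scale 23229 25000 (c1g.enc h1))) (enc_mul (enc_norm (bf1q2_3.enc h1 h2)) (enc_norm (enc_subr 105783 100000 (enc_scale 16699 5000 (c1g.enc h1))))))))) (enc_case (enc_subr 7 20 (c1g.enc h1)) (enc_case (enc_subr 3 10 (c1g.enc h1)) (enc_add (enc_subr 54641 250000 (enc_scale 48061 50000 (c1g.enc h1))) (enc_mul (enc_norm (bf1q2_3.enc h1 h2)) (enc_norm (enc_subr 65523 100000 (enc_scale 8647 5000 (c1g.enc h1)))))) (enc_add (enc_subr 20033 250000 (enc_scale 24989 50000 (c1g.enc h1))) (enc_mul (enc_norm (bf1q2_3.enc h1 h2)) (enc_norm (enc_subr 56409 100000 (enc_scale 891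 625 (c1g.enc h1))))))) (enc_case (enc_subr 2 5 (c1g.enc h1)) (enc_add (enc_sub (enc_rat _ 104437 1000000) (enc_scale 689 25000 (c1g.enc h1))) (enc_mul (enc_norm (bf1q2_3.enc h1 h2)) (enc_norm (enc_subr 23047 100000 (enc_scale 1181 2500 (c1g.enc h1)))))) (enc_case (enc_subr 9 20 (c1g.enc h1)) (enc_add (enc_sub (enc_rat _ 406509 1000000) (enc_scale 39137 50000 (c1g.enc h1))) (enc_mul (enc_norm (bf1q2_3.enc h1 h2)) (enc_norm (enc_subr 2483 20000 (enc_scale 1033 5000 (c1g.enc h1)))))) (enc_add (enc_sub (enc_rat _ 13569 25000) (enc_scale 13569 12500 (c1g.enc h1))) (enc_mul (enc_norm (bf1q2_3.enc h1 h2)) (enc_norm (enc_subr 1559 5000 (enc_scale 1559 2500 (c1g.enc h1)))))))))))))⟩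
noncomputable def kf0q2 : Fn2 := ⟨_, _, fun h1 h2 => (enc_norm (enc_add (c1g.enc h1) (enc_mul (enc_norm (enc_subn 1 h1)) (kcg.enc (enc_neg (c1g.enc h1)) h2))))⟩
noncomputable def lm0p : Fn2 := ⟨_, _, fun h1 h2 => (enc_lam (enc_norm (enc_sub h1 (c1g.enc h2))) (enc_sub (cv1p.enc h2) (c1g.enc h2)))⟩
noncomputable def n0b : Fn2 := ⟨_, _, fun h1 h2 => (enc_norm (enc_sub (enc_pnc _ 1) (enc_scale 9701419 5000000 (enc_subn 1 h1))))⟩
noncomputable def rkbq2_73 : Fn3 := ⟨_, _, fun h1 h2 h3 => (enc_mul h1 (bf1q2.enc h2 h3))⟩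
noncomputable def rkbq2_75 : Fn3 := ⟨_, _, fun h1 h2 h3 => (enc_sub (enc_pnc _ 1) (lm0p.enc h1 h2))⟩
noncomputable def rkbq2 : Fn3 := ⟨_, _, fun h1 h2 h3 => (enc_case (enc_sub h1 (cv1p.enc h2)) (enc_case (enc_subr 577 500 h2) (enc_add (rkbq2_73.enc h1 h2 h3) (enc_mul (enc_norm (rkbq2_75.enc h1 h2 h3)) (enc_norm (enc_sub (kf0q2.enc h2 h3) (enc_mul (c1g.enc h2) (bf1q2.enc h2 h3)))))) (enc_case (enc_subr 2887 2500 h2) (enc_add (rkbq2_73.enc h1 h2 h3) (enc_mul (enc_norm (rkbq2_75.enc h1 h2 h3)) (enc_norm (enc_mul (c1g.enc h2) (enc_norm (enc_sub (n0b.enc h2 h3) (bf1q2.enc h2 h3))))))) (rkbq2_73.enc h1 h2 h3))) (enc_case (enc_sub h1 (cv2p.enc h2)) (enc_add (enc_mul h1 (bf2q2.enc h2 h3)) (enc_mul (enc_norm (enc_mul (enc_norm (enc_sub (enc_pnc _ 1) (lm1p.enc h1 h2))) (cv1p.enc h2))) (enc_norm (enc_sub (bf1q2.enc h2 h3) (bf2q2.enc h2 h3))))) (enc_case (enc_sub h1 (cv3p.enc h2)) (enc_add (enc_mul h1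 (bf3q2.enc h2 h3)) (enc_mul (enc_norm (enc_mul (enc_norm (enc_sub (enc_pnc _ 1) (lm2p.enc h1 h2))) (cv2p.enc h2))) (enc_norm (enc_sub (bf2q2.enc h2 h3) (bf3q2.enc h2 h3))))) (enc_case (enc_sub h1 (cv4p.enc h2)) (enc_add (enc_mul h1 (bf4q2.enc h2 h3)) (enc_mul (enc_norm (enc_mul (enc_norm (enc_sub (enc_pnc _ 1) (lm3p.enc h1 h2))) (cv3p.enc h2))) (enc_norm (enc_sub (bf3q2.enc h2 h3) (bf4q2.enc h2 h3))))) (enc_case (enc_sub h1 (cv5p.enc h2)) (enc_add (enc_mul h1 (bf5q2.enc h2 h3)) (enc_mul (enc_norm (enc_mul (enc_norm (enc_sub (enc_pnc _ 1) (lm4p.enc h1 h2))) (cv4p.enc h2))) (enc_norm (enc_sub (bf4q2.enc h2 h3) (bf5q2.enc h2 h3))))) (enc_case (enc_sub h1 (cv6p.enc h2)) (enc_add (enc_mul h1 (bf6q2.enc h2 h3)) (enc_mul (enc_norm (enc_mul (enc_norm (enc_sub (enc_pnc _ 1) (lm5p.enc h1 h2))) (cv5p.enc h2))) (enc_norm (enc_sub (bf5q2.enc h2 h3) (bf6q2.enc h2 h3))))) (enc_add (kf6q2.enc h2 h3) (enc_mul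 (lm6p.enc h1 h2) (enc_norm (enc_sub (kf7q2.enc h2 h3) (kf6q2.enc h2 h3)))))))))))⟩
noncomputable def rsbq2 : Fn3 := ⟨_, _, fun h1 h2 h3 => (enc_case h1 (enc_neg (rkbq2.enc (enc_neg h1) h2 h3)) (rkbq2.enc h1 h2 h3))⟩
noncomputable def cv5r : Fn1 := ⟨_, _, fun h1 => (enc_norm (enc_add (enc_scale 7 10 (enc_subr 1 2 (swg.enc h1))) (enc_scale 3 10 (c3g.enc h1))))⟩
noncomputable def cv6r : Fn1 := ⟨_, _, fun h1 => (enc_norm (enc_add (enc_scale 3 10 (enc_subr 1 2 (swg.enc h1))) (enc_scale 7 10 (c3g.enc h1))))⟩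
noncomputable def kf6q3_4 : Fn2 := ⟨_, _, fun h1 h2 => (enc_subr 72 125 h2)⟩
noncomputable def kf6q3 : Fn2 := ⟨_, _, fun h1 h2 => (enc_norm (enc_mul (cv6r.enc h1) (enc_norm (enc_case (enc_sub (enc_rat _ 1033431783 1000000000) (c3g.enc h1)) (enc_case (enc_sub (enc_rat _ 1097767393 1000000000) (c3g.enc h1)) (enc_add (enc_sub (enc_rat _ 8885773840133 5984566375000) (enc_scale 75670000 47876531 (c3g.enc h1))) (enc_mul (enc_norm (kf6q3_4.enc h1 h2)) (enc_norm (enc_subr 2135105556571 1196913275000 (enc_scale 81800000 47876531 (c3g.enc h1)))))) (enc_add (enc_sub (enc_rat _ 85660923791447 64335610000000) (enc_scale 9269900 6433561 (c3g.enc h1))) (enc_mul (enc_norm (kf6q3_4.enc h1 h2)) (enc_norm (enc_subr 382340639637 257342440000 (enc_scale 9245000 6433561 (c3g.enc h1))))))) (enc_case (enc_sub (enc_rat _ 106748829 125000000) (c3g.enc h1)) (enc_add (enc_sub (enc_rat _ 51958424145573 59813717000000)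 (enc_scale 178192000 179441151 (c3g.enc h1))) (enc_mul (enc_norm (kf6q3_4.enc h1 h2)) (enc_norm (enc_subr 8139991096771 5981371700000 (enc_scale 236180000 179441151 (c3g.enc h1)))))) (enc_case (enc_sub (enc_rat _ 614267857 1000000000) (c3g.enc h1)) (enc_add (enc_sub (enc_rat _ 151071473266527 239722775000000) (enc_scale 6844440 9588911 (c3g.enc h1))) (enc_mul (enc_norm (kf6q3_4.enc h1 h2)) (enc_norm (enc_subr 13272852061801 23972277500000 (enc_scale 3557200 9588911 (c3g.enc h1)))))) (enc_sub (enc_sub (enc_rat _ 1 2) (enc_scale 308264000 614267857 (c3g.enc h1))) (enc_mul (enc_norm (kf6q3_4.enc h1 h2)) (enc_scale 325800000 614267857 (c3g.enc h1))))))))))⟩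
noncomputable def kf7q3 : Fn2 := ⟨_, _, fun h1 h2 => (enc_norm (enc_sub (enc_mul (enc_norm (enc_subn 2 h1)) (kcg.enc (enc_norm (enc_sub (enc_scale 1 4 h1) (enc_half (c3g.enc h1)))) h2)) (enc_mul (enc_norm (enc_mul (enc_norm (enc_sub (enc_nat 2 (c3g.enc h1)) h1)) (enc_norm (enc_sub (enc_add (c3g.enc h1) (enc_pnc _ 3)) (enc_scale 3 2 h1))))) (enc_inv (enc_nat 4 (enc_subn 1 h1))))))⟩
noncomputable def lm6r : Fn2 := ⟨_, _, fun h1 h2 => (enc_lam (enc_norm (enc_sub h1 (cv6r.enc h2))) (enc_sub (c3g.enc h2) (cv6r.enc h2)))⟩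
noncomputable def bf6q3_3 : Fn2 := ⟨_, _, fun h1 h2 => (enc_subr 72 125 h2)⟩
noncomputable def bf6q3 : Fn2 := ⟨_, _, fun h1 h2 => (enc_norm (enc_case (enc_sub (enc_rat _ 1033431783 1000000000) (c3g.enc h1)) (enc_case (enc_sub (enc_rat _ 1097767393 1000000000) (c3g.enc h1)) (enc_add (enc_sub (enc_rat _ 8885773840133 5984566375000) (enc_scale 75670000 47876531 (c3g.enc h1))) (enc_mul (enc_norm (bf6q3_3.enc h1 h2)) (enc_norm (enc_subr 2135105556571 1196913275000 (enc_scale 81800000 47876531 (c3g.enc h1)))))) (enc_add (enc_sub (enc_rat _ 85660923791447 64335610000000) (enc_scale 9269900 6433561 (c3g.enc h1))) (enc_mul (enc_norm (bf6q3_3.enc h1 h2)) (enc_norm (enc_subr 382340639637 257342440000 (enc_scale 9245000 6433561 (c3g.enc h1))))))) (enc_case (enc_sub (enc_rat _ 106748829 125000000) (c3g.enc h1)) (enc_add (enc_sub (enc_rat _ 51958424145573 59813717000000) (enc_scale 178192000 179441151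 (c3g.enc h1))) (enc_mul (enc_norm (bf6q3_3.enc h1 h2)) (enc_norm (enc_subr 8139991096771 5981371700000 (enc_scale 236180000 179441151 (c3g.enc h1)))))) (enc_case (enc_sub (enc_rat _ 614267857 1000000000) (c3g.enc h1)) (enc_add (enc_sub (enc_rat _ 151071473266527 239722775000000) (enc_scale 6844440 9588911 (c3g.enc h1))) (enc_mul (enc_norm (bf6q3_3.enc h1 h2)) (enc_norm (enc_subr 13272852061801 23972277500000 (enc_scale 3557200 9588911 (c3g.enc h1)))))) (enc_sub (enc_sub (enc_rat _ 1 2) (enc_scale 308264000 614267857 (c3g.enc h1))) (enc_mul (enc_norm (bf6q3_3.enc h1 h2)) (enc_scale 325800000 614267857 (c3g.enc h1))))))))⟩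
noncomputable def lm5r : Fn2 := ⟨_, _, fun h1 h2 => (enc_lam (enc_norm (enc_sub h1 (cv5r.enc h2))) (enc_sub (cv6r.enc h2) (cv5r.enc h2)))⟩
noncomputable def kf5q3_4 : Fn2 := ⟨_, _, fun h1 h2 => (enc_subr 72 125 h2)⟩
noncomputable def kf5q3_56 : Fn2 := ⟨_, _, fun h1 h2 => (enc_subn 1 h1)⟩
noncomputable def kf5q3_57 : Fn2 := ⟨_, _, fun h1 h2 => (gsg.enc (enc_norm (kf5q3_56.enc h1 h2)))⟩
noncomputable def kf5q3_58 : Fn2 := ⟨_, _, fun h1 h2 => (enc_scale 3 4 (kf5q3_56.enc h1 h2))⟩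
noncomputable def kf5q3_59 : Fn2 := ⟨_, _, fun h1 h2 => (enc_half (kf5q3_57.enc h1 h2))⟩
noncomputable def kf5q3_78 : Fn2 := ⟨_, _, fun h1 h2 => (enc_mul (cv4r.enc h1) (bf4q3.enc h1 h2))⟩
noncomputable def kf5q3 : Fn2 := ⟨_, _, fun h1 h2 => (enc_norm (enc_case (enc_subr 1527 1000 h1) (enc_mul (cv5r.enc h1) (enc_norm (enc_add (enc_subr 341114205348312421 22559962500000000 (enc_scale 3604821223 270719550 (c3g.enc h1))) (enc_mul (enc_norm (kf5q3_4.enc h1 h2)) (enc_norm (enc_subr 46515772351898593 225599625000000 (enc_scale 992831918 5414391 (c3g.enc h1)))))))) (enc_case (enc_subr 13 8 h1) (enc_add (kf5q3_78.enc h1 h2) (enc_mul (enc_norm (enc_mul (enc_norm (enc_sub (enc_mul (enc_norm (enc_subn 2 h1)) (enc_norm (enc_add (enc_mul (enc_norm (enc_sub (enc_sub (kf5q3_59.enc h1 h2) (kf5q3_58.enc h1 h2)) (enc_sub (enc_rat _ 1 4) (enc_scale 3 8 (enc_mul (enc_norm (kf5q3_56.enc h1 h2)) (enc_inv (kf5q3_57.enc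 h1 h2))))))) (enc_inv (esg.enc (enc_norm (kf5q3_56.enc h1 h2))))) (kcg.enc (enc_norm (enc_sub (kf5q3_58.enc h1 h2) (kf5q3_59.enc h1 h2))) h2)))) (kf5q3_78.enc h1 h2))) (enc_norm (enc_sub (cv5r.enc h1) (cv4r.enc h1))))) (enc_inv (enc_sub (enc_subr 1 2 (swg.enc h1)) (cv4r.enc h1))))) (enc_mul (cv5r.enc h1) (enc_norm (enc_case (enc_sub (enc_rat _ 209631373 250000000) (c3g.enc h1)) (enc_add (enc_sub (enc_rat _ 104739734443339369 427982272500000000) (enc_scale 430531753 1711929090 (c3g.enc h1))) (enc_mul (enc_norm (kf5q3_4.enc h1 h2)) (enc_norm (enc_subr 76455629031598411 10699556812500000 (enc_scale 1261097428 171192909 (c3g.enc h1)))))) (enc_case (enc_sub (enc_rat _ 147732867 250000000) (c3g.enc h1)) (enc_add (enc_sub (enc_rat _ 36156736908753 61898506000000) (enc_scale 20310375 30949253 (c3g.enc h1))) (enc_mul (enc_norm (kf5q3_4.enc h1 h2)) (enc_norm (enc_subr 473867756579 1547462650000 (enc_neg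 (enc_scale 24450000 30949253 (c3g.enc h1))))))) (enc_sub (enc_sub (enc_rat _ 1 2) (enc_scale 75917000 147732867 (c3g.enc h1))) (enc_mul (enc_norm (kf5q3_4.enc h1 h2)) (enc_scale 193265000 147732867 (c3g.enc h1)))))))))))⟩
noncomputable def bf5q3_3 : Fn2 := ⟨_, _, fun h1 h2 => (enc_subr 72 125 h2)⟩
noncomputable def bf5q3 : Fn2 := ⟨_, _, fun h1 h2 => (enc_norm (enc_case (enc_subr 197 125 h1) (enc_add (enc_subr 341114205348312421 22559962500000000 (enc_scale 3604821223 270719550 (c3g.enc h1))) (enc_mul (enc_norm (bf5q3_3.enc h1 h2)) (enc_norm (enc_subr 46515772351898593 225599625000000 (enc_scale 992831918 5414391 (c3g.enc h1)))))) (enc_case (enc_sub (enc_rat _ 209631373 250000000) (c3g.enc h1)) (enc_add (enc_sub (enc_rat _ 104739734443339369 427982272500000000) (enc_scale 430531753 1711929090 (c3g.enc h1))) (enc_mul (enc_norm (bf5q3_3.enc h1 h2)) (enc_norm (enc_subr 76455629031598411 10699556812500000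 (enc_scale 1261097428 171192909 (c3g.enc h1)))))) (enc_case (enc_sub (enc_rat _ 147732867 250000000) (c3g.enc h1)) (enc_add (enc_sub (enc_rat _ 36156736908753 61898506000000) (enc_scale 20310375 30949253 (c3g.enc h1))) (enc_mul (enc_norm (bf5q3_3.enc h1 h2)) (enc_norm (enc_subr 473867756579 1547462650000 (enc_neg (enc_scale 24450000 30949253 (c3g.enc h1))))))) (enc_sub (enc_sub (enc_rat _ 1 2) (enc_scale 75917000 147732867 (c3g.enc h1))) (enc_mul (enc_norm (bf5q3_3.enc h1 h2)) (enc_scale 193265000 147732867 (c3g.enc h1))))))))⟩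
noncomputable def lm4r : Fn2 := ⟨_, _, fun h1 h2 => (enc_lam (enc_norm (enc_sub h1 (cv4r.enc h2))) (enc_sub (cv5r.enc h2) (cv4r.enc h2)))⟩
noncomputable def lm3r : Fn2 := ⟨_, _, fun h1 h2 => (enc_lam (enc_norm (enc_sub h1 (cv3r.enc h2))) (enc_sub (cv4r.enc h2) (cv3r.enc h2)))⟩
noncomputable def lm2r : Fn2 := ⟨_, _, fun h1 h2 => (enc_lam (enc_norm (enc_sub h1 (cv2r.enc h2))) (enc_sub (cv3r.enc h2) (cv2r.enc h2)))⟩
noncomputable def lm1r : Fn2 := ⟨_, _, fun h1 h2 => (enc_lam (enc_norm (enc_sub h1 (cv1r.enc h2))) (enc_sub (cv2r.enc h2) (cv1r.enc h2)))⟩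
noncomputable def rkbq3_38 : Fn3 := ⟨_, _, fun h1 h2 h3 => (enc_add (enc_mul h1 (bf5q3.enc h2 h3)) (enc_mul (enc_norm (enc_mul (enc_norm (enc_sub (enc_pnc _ 1) (lm4r.enc h1 h2))) (cv4r.enc h2))) (enc_norm (enc_sub (bf4q3.enc h2 h3) (bf5q3.enc h2 h3)))))⟩
noncomputable def rkbq3_39 : Fn3 := ⟨_, _, fun h1 h2 h3 => (enc_subn 1 h2)⟩
noncomputable def rkbq3_40 : Fn3 := ⟨_, _, fun h1 h2 h3 => (gsg.enc (enc_norm (rkbq3_39.enc h1 h2 h3)))⟩
noncomputable def rkbq3_41 : Fn3 := ⟨_, _, fun h1 h2 h3 => (enc_scale 3 4 (rkbq3_39.enc h1 h2 h3))⟩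
noncomputable def rkbq3_42 : Fn3 := ⟨_, _, fun h1 h2 h3 => (enc_half (rkbq3_40.enc h1 h2 h3))⟩
noncomputable def rkbq3_64 : Fn3 := ⟨_, _, fun h1 h2 h3 => (enc_sub h1 (cv4r.enc h2))⟩
noncomputable def rkbq3 : Fn3 := ⟨_, _, fun h1 h2 h3 => (enc_case (enc_sub h1 (cv1r.enc h2)) (enc_mul h1 (bf1q3.enc h2 h3)) (enc_case (enc_sub h1 (cv2r.enc h2)) (enc_add (enc_mul h1 (bf2q3.enc h2 h3)) (enc_mul (enc_norm (enc_mul (enc_norm (enc_sub (enc_pnc _ 1) (lm1r.enc h1 h2))) (cv1r.enc h2))) (enc_norm (enc_sub (bf1q3.enc h2 h3) (bf2q3.enc h2 h3))))) (enc_case (enc_sub h1 (cv3r.enc h2)) (enc_add (enc_mul h1 (bf3q3.enc h2 h3)) (enc_mul (enc_norm (enc_mul (enc_norm (enc_sub (enc_pnc _ 1) (lm2r.enc h1 h2))) (cv2r.enc h2))) (enc_norm (enc_sub (bf2q3.enc h2 h3) (bf3q3.enc h2 h3))))) (enc_case (rkbq3_64.enc h1 h2 h3) (enc_add (enc_mul h1 (bf4q3.enc h2 h3)) (enc_mul (enc_norm (enc_mul (enc_norm (enc_sub (enc_pnc _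 1) (lm3r.enc h1 h2))) (cv3r.enc h2))) (enc_norm (enc_sub (bf3q3.enc h2 h3) (bf4q3.enc h2 h3))))) (enc_case (enc_sub h1 (cv5r.enc h2)) (enc_case (enc_subr 1527 1000 h2) (rkbq3_38.enc h1 h2 h3) (enc_case (enc_subr 13 8 h2) (enc_add (kf4q3.enc h2 h3) (enc_mul (enc_norm (enc_mul (enc_norm (rkbq3_64.enc h1 h2 h3)) (enc_inv (enc_sub (enc_subr 1 2 (swg.enc h2)) (cv4r.enc h2))))) (enc_norm (enc_sub (enc_mul (enc_norm (enc_subn 2 h2)) (enc_norm (enc_add (enc_mul (enc_norm (enc_sub (enc_sub (rkbq3_42.enc h1 h2 h3) (rkbq3_41.enc h1 h2 h3)) (enc_sub (enc_rat _ 1 4) (enc_scale 3 8 (enc_mul (enc_norm (rkbq3_39.enc h1 h2 h3)) (enc_inv (rkbq3_40.enc h1 h2 h3))))))) (enc_inv (esg.enc (enc_norm (rkbq3_39.enc h1 h2 h3))))) (kcg.enc (enc_norm (enc_sub (rkbq3_41.enc h1 h2 h3) (rkbq3_42.enc h1 h2 h3))) h3)))) (kf4q3.enc h2 h3))))) (rkbq3_38.enc h1 h2 h3))) (enc_case (enc_sub h1 (cv6r.enc h2)) (enc_add (enc_mul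 h1 (bf6q3.enc h2 h3)) (enc_mul (enc_norm (enc_sub (enc_pnc _ 1) (lm5r.enc h1 h2))) (enc_norm (enc_sub (kf5q3.enc h2 h3) (enc_mul (cv5r.enc h2) (bf6q3.enc h2 h3)))))) (enc_add (kf6q3.enc h2 h3) (enc_mul (lm6r.enc h1 h2) (enc_norm (enc_sub (kf7q3.enc h2 h3) (kf6q3.enc h2 h3)))))))))))⟩
noncomputable def rsbq3 : Fn3 := ⟨_, _, fun h1 h2 h3 => (enc_case h1 (enc_neg (rkbq3.enc (enc_neg h1) h2 h3)) (rkbq3.enc h1 h2 h3))⟩
noncomputable def bx5q0_3 : Fn2 := ⟨_, _, fun h1 h2 => (enc_subr 72 125 h2)⟩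
noncomputable def bx5q0 : Fn2 := ⟨_, _, fun h1 h2 => (enc_norm (enc_case (enc_subr 53 125 h1) (enc_case (enc_subr 13 100 h1) (enc_add (enc_add (enc_scale 36643 130000 h1) (enc_rat _ 53467 1000000)) (enc_mul (enc_norm (bx5q0_3.enc h1 h2)) (enc_norm (enc_sub (enc_rat _ 25091 100000) (enc_scale 2461 6500 h1))))) (enc_case (enc_subr 1 4 h1) (enc_add (enc_add (enc_scale 2473 24000 h1) (enc_rat _ 36823 480000)) (enc_mul (enc_norm (bx5q0_3.enc h1 h2)) (enc_norm (enc_add (enc_scale 1519 4000 h1) (enc_rat _ 60929 400000))))) (enc_add (enc_sub (enc_rat _ 93583021 625000000) (enc_scale 14768073 78125000 h1)) (enc_mul (enc_norm (bx5q0_3.enc h1 h2)) (enc_norm (enc_sub (enc_rat _ 178321329 250000000) (enc_scale 116506329 62500000 h1))))))) (enc_add (enc_sub (enc_rat _ 99298087 540000000) (enc_scale 73632967 270000000 h1)) (enc_mul (enc_norm (bx5q0_3.enc h1 h2)) (enc_norm (enc_subr 27971791 54000000 (enc_scale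 31408891 27000000 h1)))))))⟩
noncomputable def rxq0_38 : Fn3 := ⟨_, _, fun h1 h2 h3 => (enc_add (enc_mul h1 (bx5q0.enc h2 h3)) (enc_mul (enc_norm (enc_mul (enc_norm (enc_sub (enc_pnc _ 1) (lm4m.enc h1 h2))) (cv4m.enc h2))) (enc_norm (enc_sub (bx4q0.enc h2 h3) (bx5q0.enc h2 h3)))))⟩
noncomputable def rxq0_40 : Fn3 := ⟨_, _, fun h1 h2 h3 => (enc_sub (enc_pnc _ 1) h2)⟩
noncomputable def rxq0_57 : Fn3 := ⟨_, _, fun h1 h2 h3 => (enc_sub h1 (cv4m.enc h2))⟩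
noncomputable def rxq0 : Fn3 := ⟨_, _, fun h1 h2 h3 => (enc_case (enc_sub h1 (cv1m.enc h2)) (enc_add (enc_mul h1 (bx1q0.enc h2 h3)) (enc_mul (enc_norm (enc_sub (enc_pnc _ 1) (lm0m.enc h1 h2))) (enc_norm (enc_sub (l0q0.enc h2 h3) (enc_mul (c1g.enc h2) (bx1q0.enc h2 h3)))))) (enc_case (enc_sub h1 (cv2m.enc h2)) (enc_add (enc_mul h1 (bx2q0.enc h2 h3)) (enc_mul (enc_norm (enc_mul (enc_norm (enc_sub (enc_pnc _ 1) (lm1m.enc h1 h2))) (cv1m.enc h2))) (enc_norm (enc_sub (bx1q0.enc h2 h3) (bx2q0.enc h2 h3))))) (enc_case (enc_sub h1 (cv3m.enc h2)) (enc_add (enc_mul h1 (bx3q0.enc h2 h3)) (enc_mul (enc_norm (enc_mul (enc_norm (enc_sub (enc_pnc _ 1) (lm2m.enc h1 h2))) (cv2m.enc h2))) (enc_norm (enc_sub (bx2q0.enc h2 h3) (bx3q0.enc h2 h3))))) (enc_case (rxq0_57.enc h1 h2 h3) (enc_add (enc_mul h1 (bx4q0.enc h2 h3)) (enc_mul (enc_norm (enc_mul (enc_norm (enc_sub (enc_pnc _ 1) (lm3m.enc h1 h2))) (cv3m.enc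 h2))) (enc_norm (enc_sub (bx3q0.enc h2 h3) (bx4q0.enc h2 h3))))) (enc_case (enc_sub h1 (cv5m.enc h2)) (enc_case (enc_subr 3 8 h2) (rxq0_38.enc h1 h2 h3) (enc_case (enc_subr 473 1000 h2) (enc_add (l4q0.enc h2 h3) (enc_mul (enc_norm (enc_mul (enc_norm (rxq0_57.enc h1 h2 h3)) (enc_inv (enc_sub (enc_add (swg.enc h2) (enc_rat _ 1 2)) (cv4m.enc h2))))) (enc_norm (enc_sub (enc_sub (qsg.enc (enc_norm (rxq0_40.enc h1 h2 h3))) (enc_mul (enc_norm (enc_nat 2 (enc_sub (rxq0_40.enc h1 h2 h3) h3))) (enc_norm (enc_mul (esg.enc (enc_norm (rxq0_40.enc h1 h2 h3))) (kcg.enc (enc_norm (enc_sub (enc_scale 3 4 (rxq0_40.enc h1 h2 h3)) (enc_half (gsg.enc (enc_norm (rxq0_40.enc h1 h2 h3)))))) h3))))) (l4q0.enc h2 h3))))) (rxq0_38.enc h1 h2 h3))) (enc_case (enc_sub h1 (cv6m.enc h2)) (enc_add (enc_mul h1 (bx6q0.enc h2 h3)) (enc_mul (enc_norm (enc_sub (enc_pnc _ 1) (lm5m.enc h1 h2))) (enc_norm (enc_sub (l5q0.enc h2 h3)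 (enc_mul (cv5m.enc h2) (bx6q0.enc h2 h3)))))) (enc_add (l6q0.enc h2 h3) (enc_mul (lm6m.enc h1 h2) (enc_norm (enc_sub (l7q0.enc h2 h3) (l6q0.enc h2 h3)))))))))))⟩
noncomputable def rlq0 : Fn3 := ⟨_, _, fun h1 h2 h3 => (enc_case h1 (enc_neg (rxq0.enc (enc_neg h1) h2 h3)) (rxq0.enc h1 h2 h3))⟩
noncomputable def rxq1 : Fn3 := ⟨_, _, fun h1 h2 h3 => (enc_case (enc_sub h1 (cv1m.enc h2)) (enc_add (enc_mul h1 (bx1q1.enc h2 h3)) (enc_mul (enc_norm (enc_sub (enc_pnc _ 1) (lm0m.enc h1 h2))) (enc_norm (enc_sub (l0q1.enc h2 h3) (enc_mul (c1g.enc h2) (bx1q1.enc h2 h3)))))) (enc_case (enc_sub h1 (cv2m.enc h2)) (enc_add (enc_mul h1 (bx2q1.enc h2 h3)) (enc_mul (enc_norm (enc_mul (enc_norm (enc_sub (enc_pnc _ 1) (lm1m.enc h1 h2))) (cv1m.enc h2))) (enc_norm (enc_sub (bx1q1.enc h2 h3) (bx2q1.enc h2 h3))))) (enc_case (enc_sub h1 (cv3m.enc h2)) (enc_add (enc_mul h1 (bx3q1.enc h2 h3)) (enc_mul (enc_norm (enc_mul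 (enc_norm (enc_sub (enc_pnc _ 1) (lm2m.enc h1 h2))) (cv2m.enc h2))) (enc_norm (enc_sub (bx2q1.enc h2 h3) (bx3q1.enc h2 h3))))) (enc_case (enc_sub h1 (cv4m.enc h2)) (enc_add (enc_mul h1 (bx4q1.enc h2 h3)) (enc_mul (enc_norm (enc_mul (enc_norm (enc_sub (enc_pnc _ 1) (lm3m.enc h1 h2))) (cv3m.enc h2))) (enc_norm (enc_sub (bx3q1.enc h2 h3) (bx4q1.enc h2 h3))))) (enc_case (enc_sub h1 (cv5m.enc h2)) (enc_add (enc_mul h1 (bx5q1.enc h2 h3)) (enc_mul (enc_norm (enc_mul (enc_norm (enc_sub (enc_pnc _ 1) (lm4m.enc h1 h2))) (cv4m.enc h2))) (enc_norm (enc_sub (bx4q1.enc h2 h3) (bx5q1.enc h2 h3))))) (enc_case (enc_sub h1 (cv6m.enc h2)) (enc_add (enc_mul h1 (bx6q1.enc h2 h3)) (enc_mul (enc_norm (enc_mul (enc_norm (enc_sub (enc_pnc _ 1) (lm5m.enc h1 h2))) (cv5m.enc h2))) (enc_norm (enc_sub (bx5q1.enc h2 h3) (bx6q1.enc h2 h3))))) (enc_add (l6q1.enc h2 h3) (enc_mul (lm6m.enc h1 h2) (enc_norm (enc_sub (l7q1.enc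 h2 h3) (l6q1.enc h2 h3)))))))))))⟩
noncomputable def rlq1 : Fn3 := ⟨_, _, fun h1 h2 h3 => (enc_case h1 (enc_neg (rxq1.enc (enc_neg h1) h2 h3)) (rxq1.enc h1 h2 h3))⟩
noncomputable def bx4q2_3 : Fn2 := ⟨_, _, fun h1 h2 => (enc_subr 72 125 h2)⟩
noncomputable def bx4q2 : Fn2 := ⟨_, _, fun h1 h2 => (enc_norm (enc_case (enc_sub (enc_pnc _ 1) (enc_scale 3 4 (enc_sq h1))) (enc_case (enc_subr 127 100 h1) (enc_add (enc_subr 13765919 29000000 (enc_scale 20601 58000 h1)) (enc_mul (enc_norm (bx4q2_3.enc h1 h2)) (enc_norm (enc_subr 12931747 5800000 (enc_scale 18499 11600 h1))))) (enc_case (enc_subr 69 50 h1) (enc_add (enc_subr 362711 343750 (enc_scale 22337 27500 h1)) (enc_mul (enc_norm (bx4q2_3.enc h1 h2)) (enc_norm (enc_subr 258967 275000 (enc_scale 6387 11000 h1))))) (enc_add (enc_subr 3531637 2000000 (enc_scale 53089 40000 h1)) (enc_mul (enc_norm (bx4q2_3.enc h1 h2)) (enc_norm (enc_sub (enc_rat _ 241097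 100000) (enc_scale 11093 6000 h1))))))) (enc_case (enc_subr 1 4 (c1g.enc h1)) (enc_case (enc_subr 1 10 (c1g.enc h1)) (enc_case (enc_subr 1 20 (c1g.enc h1)) (enc_add (enc_subr 6451 100000 (enc_scale 17749 50000 (c1g.enc h1))) (enc_mul (enc_norm (bx4q2_3.enc h1 h2)) (enc_norm (enc_subr 19461 50000 (enc_scale 2353 2500 (c1g.enc h1)))))) (enc_add (enc_subr 62389 1000000 (enc_scale 3907 12500 (c1g.enc h1))) (enc_mul (enc_norm (bx4q2_3.enc h1 h2)) (enc_norm (enc_subr 10051 25000 (enc_scale 1497 1250 (c1g.enc h1))))))) (enc_case (enc_subr 3 20 (c1g.enc h1)) (enc_add (enc_subr 52467 1000000 (enc_scale 10667 50000 (c1g.enc h1))) (enc_mul (enc_norm (bx4q2_3.enc h1 h2)) (enc_norm (enc_subr 3703 10000 (enc_scale 4401 5000 (c1g.enc h1)))))) (enc_case (enc_subr 1 5 (c1g.enc h1)) (enc_add (enc_subr 36801 1000000 (enc_scale 1089 10000 (c1g.enc h1))) (enc_mul (enc_norm (bx4q2_3.enc h1 h2)) (enc_norm (enc_subr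 29017 100000 (enc_scale 173 500 (c1g.enc h1)))))) (enc_add (enc_subr 27489 1000000 (enc_scale 3117 50000 (c1g.enc h1))) (enc_mul (enc_norm (bx4q2_3.enc h1 h2)) (enc_norm (enc_subr 25333 100000 (enc_scale 809 5000 (c1g.enc h1))))))))) (enc_case (enc_subr 7 20 (c1g.enc h1)) (enc_case (enc_subr 3 10 (c1g.enc h1)) (enc_add (enc_subr 11487 500000 (enc_scale 1107 25000 (c1g.enc h1))) (enc_mul (enc_norm (bx4q2_3.enc h1 h2)) (enc_norm (enc_subr 27753 100000 (enc_scale 1293 5000 (c1g.enc h1)))))) (enc_add (enc_subr 2091 100000 (enc_scale 187 5000 (c1g.enc h1))) (enc_mul (enc_norm (bx4q2_3.enc h1 h2)) (enc_norm (enc_subr 37389 100000 (enc_scale 2899 5000 (c1g.enc h1))))))) (enc_case (enc_subr 2 5 (c1g.enc h1)) (enc_add (enc_subr 4867 250000 (enc_scale 104 3125 (c1g.enc h1))) (enc_mul (enc_norm (bx4q2_3.enc h1 h2)) (enc_norm (enc_subr 51571 100000 (enc_scale 197 200 (c1g.enc h1)))))) (enc_case (enc_subr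 9 20 (c1g.enc h1)) (enc_add (enc_subr 5333 250000 (enc_scale 1897 50000 (c1g.enc h1))) (enc_mul (enc_norm (bx4q2_3.enc h1 h2)) (enc_norm (enc_subr 62163 100000 (enc_scale 6249 5000 (c1g.enc h1)))))) (enc_add (enc_subr 4259 100000 (enc_scale 4259 50000 (c1g.enc h1))) (enc_mul (enc_norm (bx4q2_3.enc h1 h2)) (enc_norm (enc_subr 2961 5000 (enc_scale 2961 2500 (c1g.enc h1))))))))))))⟩
noncomputable def bx3q2_3 : Fn2 := ⟨_, _, fun h1 h2 => (enc_subr 72 125 h2)⟩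
noncomputable def bx3q2 : Fn2 := ⟨_, _, fun h1 h2 => (enc_norm (enc_case (enc_sub (enc_pnc _ 1) (enc_scale 3 4 (enc_sq h1))) (enc_case (enc_subr 127 100 h1) (enc_add (enc_subr 122638051 58000000 (enc_scale 181247 116000 h1)) (enc_mul (enc_norm (bx3q2_3.enc h1 h2)) (enc_norm (enc_subr 13373709 2900000 (enc_scale 18943 5800 h1))))) (enc_case (enc_subr 69 50 h1) (enc_add (enc_subr 34481657 11000000 (enc_scale 3253 1375 h1)) (enc_mul (enc_norm (bx3q2_3.enc h1 h2)) (enc_norm (enc_sub (enc_rat _ 392247 55000) (enc_scale 16447 2750 h1))))) (enc_add (enc_subr 510821 200000 (enc_scale 19451 10000 h1)) (enc_mul (enc_norm (bx3q2_3.enc h1 h2)) (enc_norm (enc_subr 1656561 200000 (enc_scale 20757 4000 h1))))))) (enc_case (enc_subr 1 4 (c1g.enc h1)) (enc_case (enc_subr 1 10 (c1g.enc h1)) (enc_case (enc_subr 1 20 (c1g.enc h1)) (enc_add (enc_subr 62061 200000 (enc_scale 2423 2500 (c1g.enc h1))) (enc_mul (enc_norm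 (bx3q2_3.enc h1 h2)) (enc_norm (enc_subr 16779 20000 (enc_scale 10467 5000 (c1g.enc h1)))))) (enc_add (enc_subr 154773 500000 (enc_scale 47701 50000 (c1g.enc h1))) (enc_mul (enc_norm (bx3q2_3.enc h1 h2)) (enc_norm (enc_subr 83581 100000 (enc_scale 10153 5000 (c1g.enc h1))))))) (enc_case (enc_subr 3 20 (c1g.enc h1)) (enc_add (enc_subr 152479 500000 (enc_scale 45407 50000 (c1g.enc h1))) (enc_mul (enc_norm (bx3q2_3.enc h1 h2)) (enc_norm (enc_subr 15937 20000 (enc_scale 1641 1000 (c1g.enc h1)))))) (enc_case (enc_subr 1 5 (c1g.enc h1)) (enc_add (enc_subr 14731 50000 (enc_scale 41961 50000 (c1g.enc h1))) (enc_mul (enc_norm (bx3q2_3.enc h1 h2)) (enc_norm (enc_subr 73907 100000 (enc_scale 6279 5000 (c1g.enc h1)))))) (enc_add (enc_subr 17399 62500 (enc_scale 18951 25000 (c1g.enc h1))) (enc_mul (enc_norm (bx3q2_3.enc h1 h2)) (enc_norm (enc_subr 69623 100000 (enc_scale 651 625 (c1g.enc h1))))))))) (enc_case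 (enc_subr 7 20 (c1g.enc h1)) (enc_case (enc_subr 3 10 (c1g.enc h1)) (enc_add (enc_subr 237799 1000000 (enc_scale 5957 10000 (c1g.enc h1))) (enc_mul (enc_norm (bx3q2_3.enc h1 h2)) (enc_norm (enc_subr 38539 50000 (enc_scale 6699 5000 (c1g.enc h1)))))) (enc_add (enc_subr 198727 1000000 (enc_scale 23273 50000 (c1g.enc h1))) (enc_mul (enc_norm (bx3q2_3.enc h1 h2)) (enc_norm (enc_subr 43759 50000 (enc_scale 8439 5000 (c1g.enc h1))))))) (enc_case (enc_subr 2 5 (c1g.enc h1)) (enc_add (enc_subr 7381 50000 (enc_scale 3993 12500 (c1g.enc h1))) (enc_mul (enc_norm (bx3q2_3.enc h1 h2)) (enc_norm (enc_subr 96891 100000 (enc_scale 4889 2500 (c1g.enc h1)))))) (enc_case (enc_subr 9 20 (c1g.enc h1)) (enc_add (enc_subr 26431 250000 (enc_scale 2147 10000 (c1g.enc h1))) (enc_mul (enc_norm (bx3q2_3.enc h1 h2)) (enc_norm (enc_subr 19903 20000 (enc_scale 5053 2500 (c1g.enc h1)))))) (enc_add (enc_subr 9109 100000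 (enc_scale 9109 50000 (c1g.enc h1))) (enc_mul (enc_norm (bx3q2_3.enc h1 h2)) (enc_norm (enc_subr 8561 10000 (enc_scale 8561 5000 (c1g.enc h1))))))))))))⟩
noncomputable def bx2q2_3 : Fn2 := ⟨_, _, fun h1 h2 => (enc_subr 72 125 h2)⟩
noncomputable def bx2q2 : Fn2 := ⟨_, _, fun h1 h2 => (enc_norm (enc_case (enc_sub (enc_pnc _ 1) (enc_scale 3 4 (enc_sq h1))) (enc_case (enc_subr 127 100 h1) (enc_add (enc_subr 95277871 29000000 (enc_scale 143629 58000 h1)) (enc_mul (enc_norm (bx2q2_3.enc h1 h2)) (enc_norm (enc_subr 2991341 1160000 (enc_scale 14051 11600 h1))))) (enc_case (enc_subr 69 50 h1) (enc_add (enc_subr 36085421 11000000 (enc_scale 271971 110000 h1)) (enc_mul (enc_norm (bx2q2_3.enc h1 h2)) (enc_norm (enc_subr 400029 275000 (enc_scale 897 2750 h1))))) (enc_add (enc_subr 3271297 1000000 (enc_scale 12329 5000 h1)) (enc_mul (enc_norm (bx2q2_3.enc h1 h2)) (enc_norm (enc_subr 281979 200000 (enc_scale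 47 160 h1))))))) (enc_case (enc_subr 1 4 (c1g.enc h1)) (enc_case (enc_subr 1 10 (c1g.enc h1)) (enc_case (enc_subr 1 20 (c1g.enc h1)) (enc_add (enc_subr 425983 1000000 (enc_scale 47653 50000 (c1g.enc h1))) (enc_mul (enc_norm (bx2q2_3.enc h1 h2)) (enc_norm (enc_subr 59001 50000 (enc_scale 623 250 (c1g.enc h1)))))) (enc_add (enc_subr 430561 1000000 (enc_scale 52231 50000 (c1g.enc h1))) (enc_mul (enc_norm (bx2q2_3.enc h1 h2)) (enc_norm (enc_subr 120723 100000 (enc_scale 15181 5000 (c1g.enc h1))))))) (enc_case (enc_subr 3 20 (c1g.enc h1)) (enc_add (enc_subr 432393 1000000 (enc_scale 53147 50000 (c1g.enc h1))) (enc_mul (enc_norm (bx2q2_3.enc h1 h2)) (enc_norm (enc_subr 113867 100000 (enc_scale 11753 5000 (c1g.enc h1)))))) (enc_case (enc_subr 1 5 (c1g.enc h1)) (enc_add (enc_subr 225219 500000 (enc_scale 29581 25000 (c1g.enc h1))) (enc_mul (enc_norm (bx2q2_3.enc h1 h2)) (enc_norm (enc_subr 11657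 10000 (enc_scale 6327 2500 (c1g.enc h1)))))) (enc_add (enc_subr 228613 500000 (enc_scale 60859 50000 (c1g.enc h1))) (enc_mul (enc_norm (bx2q2_3.enc h1 h2)) (enc_norm (enc_subr 65151 50000 (enc_scale 16087 5000 (c1g.enc h1))))))))) (enc_case (enc_subr 7 20 (c1g.enc h1)) (enc_case (enc_subr 3 10 (c1g.enc h1)) (enc_add (enc_subr 217743 500000 (enc_scale 56511 50000 (c1g.enc h1))) (enc_mul (enc_norm (bx2q2_3.enc h1 h2)) (enc_norm (enc_subr 32753 25000 (enc_scale 16229 5000 (c1g.enc h1)))))) (enc_add (enc_subr 172713 500000 (enc_scale 41501 50000 (c1g.enc h1))) (enc_mul (enc_norm (bx2q2_3.enc h1 h2)) (enc_norm (enc_subr 27317 25000 (enc_scale 2521 1000 (c1g.enc h1))))))) (enc_case (enc_subr 2 5 (c1g.enc h1)) (enc_add (enc_subr 258493 1000000 (enc_scale 14541 25000 (c1g.enc h1))) (enc_mul (enc_norm (bx2q2_3.enc h1 h2)) (enc_norm (enc_subr 16199 20000 (enc_scale 4283 2500 (c1g.enc h1)))))) (enc_case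 (enc_subr 9 20 (c1g.enc h1)) (enc_add (enc_subr 146061 1000000 (enc_scale 3757 12500 (c1g.enc h1))) (enc_mul (enc_norm (bx2q2_3.enc h1 h2)) (enc_norm (enc_subr 61003 100000 (enc_scale 6067 5000 (c1g.enc h1)))))) (enc_add (enc_subr 10809 100000 (enc_scale 10809 50000 (c1g.enc h1))) (enc_mul (enc_norm (bx2q2_3.enc h1 h2)) (enc_norm (enc_subr 16 25 (enc_scale 32 25 (c1g.enc h1))))))))))))⟩
noncomputable def bx1q2_3 : Fn2 := ⟨_, _, fun h1 h2 => (enc_subr 72 125 h2)⟩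
noncomputable def bx1q2_10 : Fn2 := ⟨_, _, fun h1 h2 => (enc_subr 115620103 250000000 (enc_neg (enc_scale 600325897 500000000 (bx1q2_3.enc h1 h2))))⟩
noncomputable def bx1q2 : Fn2 := ⟨_, _, fun h1 h2 => (enc_norm (enc_case (enc_sub (enc_pnc _ 1) (enc_scale 3 4 (enc_sq h1))) (enc_add (enc_add (bx1q2_10.enc h1 h2) (enc_case (enc_subr 127 100 h1) (enc_case (enc_subr 231 200 h1) (enc_pnc _ 0) (enc_add (enc_subr 8849841 2875000 (enc_scale 38311 14375 h1)) (enc_mul (enc_norm (bx1q2_3.enc h1 h2)) (enc_norm (enc_sub (enc_rat _ 3608451 575000) (enc_scale 15621 2875 h1)))))) (enc_case (enc_subr 139 100 h1) (enc_add (enc_subr 6156251 2000000 (enc_scale 53301 20000 h1)) (enc_mul (enc_norm (bx1q2_3.enc h1 h2)) (enc_norm (enc_sub (enc_rat _ 7166483 1200000) (enc_scale 62333 12000 h1))))) (enc_add (enc_subr 16930559 5500000 (enc_scale 18323 6875 h1)) (enc_mul (enc_norm (bx1q2_3.enc h1 h2)) (enc_norm (enc_sub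 (enc_rat _ 25857 4400) (enc_scale 56383 11000 h1)))))))) (epg.enc h2)) (enc_add (enc_add (bx1q2_10.enc h1 h2) (enc_case (enc_subr 1 4 (c1g.enc h1)) (enc_case (enc_subr 1 10 (c1g.enc h1)) (enc_case (enc_subr 1 20 (c1g.enc h1)) (enc_sub (enc_scale 1593 6250 (c1g.enc h1)) (enc_mul (enc_norm (bx1q2_3.enc h1 h2)) (enc_scale 31 5000 (c1g.enc h1)))) (enc_add (enc_subr 14189 1000000 (enc_scale 26933 50000 (c1g.enc h1))) (enc_mul (enc_norm (bx1q2_3.enc h1 h2)) (enc_norm (enc_subr 14789 100000 (enc_scale 7379 2500 (c1g.enc h1))))))) (enc_case (enc_subr 3 20 (c1g.enc h1)) (enc_add (enc_subr 62613 1000000 (enc_scale 10229 10000 (c1g.enc h1))) (enc_mul (enc_norm (bx1q2_3.enc h1 h2)) (enc_norm (enc_subr 733 20000 (enc_scale 2299 1250 (c1g.enc h1)))))) (enc_case (enc_subr 1 5 (c1g.enc h1)) (enc_add (enc_subr 102069 1000000 (enc_scale 64297 50000 (c1g.enc h1))) (enc_mul (enc_norm (bx1q2_3.enc h1 h2)) (enc_norm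 (enc_add (enc_scale 7931 5000 (c1g.enc h1)) (enc_rat _ 13 10000))))) (enc_add (enc_subr 30821 200000 (enc_scale 38653 25000 (c1g.enc h1))) (enc_mul (enc_norm (bx1q2_3.enc h1 h2)) (enc_norm (enc_subr 4371 10000 (enc_scale 18891 5000 (c1g.enc h1))))))))) (enc_case (enc_subr 7 20 (c1g.enc h1)) (enc_case (enc_subr 3 10 (c1g.enc h1)) (enc_add (enc_subr 7539 40000 (enc_scale 4209 2500 (c1g.enc h1))) (enc_mul (enc_norm (bx1q2_3.enc h1 h2)) (enc_norm (enc_subr 5413 20000 (enc_scale 7781 2500 (c1g.enc h1)))))) (enc_add (enc_subr 17697 200000 (enc_scale 13503 10000 (c1g.enc h1))) (enc_mul (enc_norm (bx1q2_3.enc h1 h2)) (enc_norm (enc_subr 6391 20000 (enc_scale 16377 5000 (c1g.enc h1))))))) (enc_case (enc_subr 2 5 (c1g.enc h1)) (enc_add (enc_add (enc_scale 8689 10000 (c1g.enc h1)) (enc_rat _ 16001 200000)) (enc_mul (enc_norm (bx1q2_3.enc h1 h2)) (enc_norm (enc_subr 16051 50000 (enc_scale 8199 2500 (c1g.enc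 h1)))))) (enc_case (enc_subr 9 20 (c1g.enc h1)) (enc_add (enc_add (enc_scale 22627 50000 (c1g.enc h1)) (enc_rat _ 246549 1000000)) (enc_mul (enc_norm (bx1q2_3.enc h1 h2)) (enc_norm (enc_add (enc_scale 292 125 (c1g.enc h1)) (enc_rat _ 2821 50000))))) (enc_add (enc_add (enc_scale 3072103 12500000 (c1g.enc h1)) (enc_rat _ 84899073 250000000)) (enc_mul (enc_norm (bx1q2_3.enc h1 h2)) (enc_norm (enc_add (enc_scale 46515897 25000000 (c1g.enc h1)) (enc_rat _ 135166927 500000000)))))))))) (enc_mul (epg.enc h2) (enc_norm (enc_sub (enc_pnc _ 1) (enc_nat 2 (c1g.enc h1))))))))⟩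
noncomputable def l0q2_7 : Fn2 := ⟨_, _, fun h1 h2 => (enc_scale 3 4 h1)⟩
noncomputable def l0q2_8 : Fn2 := ⟨_, _, fun h1 h2 => (enc_half (c1g.enc h1))⟩
noncomputable def l0q2 : Fn2 := ⟨_, _, fun h1 h2 => (enc_norm (enc_sub (txg.enc (enc_neg (c1g.enc h1)) (enc_norm (enc_add (l0q2_7.enc h1 h2) (l0q2_8.enc h1 h2))) h2) (txg.enc (c1g.enc h1) (enc_norm (enc_sub (l0q2_7.enc h1 h2) (l0q2_8.enc h1 h2))) h2)))⟩
noncomputable def n0x : Fn2 := ⟨_, _, fun h1 h2 => (enc_norm (enc_mul (enc_norm (enc_subn 1 h1)) (enc_norm (enc_subn 3 (enc_scale 9701419 2500000 (enc_sub h1 (enc_nat 2 h2)))))))⟩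
noncomputable def rxq2_73 : Fn3 := ⟨_, _, fun h1 h2 h3 => (enc_mul h1 (bx1q2.enc h2 h3))⟩
noncomputable def rxq2_75 : Fn3 := ⟨_, _, fun h1 h2 h3 => (enc_sub (enc_pnc _ 1) (lm0p.enc h1 h2))⟩
noncomputable def rxq2 : Fn3 := ⟨_, _, fun h1 h2 h3 => (enc_case (enc_sub h1 (cv1p.enc h2)) (enc_case (enc_subr 577 500 h2) (enc_add (rxq2_73.enc h1 h2 h3) (enc_mul (enc_norm (rxq2_75.enc h1 h2 h3)) (enc_norm (enc_sub (l0q2.enc h2 h3) (enc_mul (c1g.enc h2) (bx1q2.enc h2 h3)))))) (enc_case (enc_subr 2887 2500 h2) (enc_add (rxq2_73.enc h1 h2 h3) (enc_mul (enc_norm (rxq2_75.enc h1 h2 h3)) (enc_norm (enc_mul (c1g.enc h2) (enc_norm (enc_sub (n0x.enc h2 h3) (bx1q2.enc h2 h3))))))) (rxq2_73.enc h1 h2 h3))) (enc_case (enc_sub h1 (cv2p.enc h2)) (enc_add (enc_mul h1 (bx2q2.enc h2 h3)) (enc_mul (enc_norm (enc_mul (enc_norm (enc_sub (enc_pnc _ 1) (lm1p.enc h1 h2))) (cv1p.enc h2))) (enc_norm (enc_sub (bx1q2.enc h2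 h3) (bx2q2.enc h2 h3))))) (enc_case (enc_sub h1 (cv3p.enc h2)) (enc_add (enc_mul h1 (bx3q2.enc h2 h3)) (enc_mul (enc_norm (enc_mul (enc_norm (enc_sub (enc_pnc _ 1) (lm2p.enc h1 h2))) (cv2p.enc h2))) (enc_norm (enc_sub (bx2q2.enc h2 h3) (bx3q2.enc h2 h3))))) (enc_case (enc_sub h1 (cv4p.enc h2)) (enc_add (enc_mul h1 (bx4q2.enc h2 h3)) (enc_mul (enc_norm (enc_mul (enc_norm (enc_sub (enc_pnc _ 1) (lm3p.enc h1 h2))) (cv3p.enc h2))) (enc_norm (enc_sub (bx3q2.enc h2 h3) (bx4q2.enc h2 h3))))) (enc_case (enc_sub h1 (cv5p.enc h2)) (enc_add (enc_mul h1 (bx5q2.enc h2 h3)) (enc_mul (enc_norm (enc_mul (enc_norm (enc_sub (enc_pnc _ 1) (lm4p.enc h1 h2))) (cv4p.enc h2))) (enc_norm (enc_sub (bx4q2.enc h2 h3) (bx5q2.enc h2 h3))))) (enc_case (enc_sub h1 (cv6p.enc h2)) (enc_add (enc_mul h1 (bx6q2.enc h2 h3)) (enc_mul (enc_norm (enc_mul (enc_norm (enc_sub (enc_pnc _ 1) (lm5p.enc h1 h2))) (cv5p.enc h2))) (enc_norm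 (enc_sub (bx5q2.enc h2 h3) (bx6q2.enc h2 h3))))) (enc_add (l6q2.enc h2 h3) (enc_mul (lm6p.enc h1 h2) (enc_norm (enc_sub (l7q2.enc h2 h3) (l6q2.enc h2 h3)))))))))))⟩
noncomputable def rlq2 : Fn3 := ⟨_, _, fun h1 h2 h3 => (enc_case h1 (enc_neg (rxq2.enc (enc_neg h1) h2 h3)) (rxq2.enc h1 h2 h3))⟩
noncomputable def l6q3_4 : Fn2 := ⟨_, _, fun h1 h2 => (enc_subr 72 125 h2)⟩
noncomputable def l6q3 : Fn2 := ⟨_, _, fun h1 h2 => (enc_norm (enc_mul (cv6r.enc h1) (enc_norm (enc_case (enc_sub (enc_rat _ 1033431783 1000000000) (c3g.enc h1)) (enc_case (enc_sub (enc_rat _ 1097767393 1000000000) (c3g.enc h1)) (enc_add (enc_sub (enc_rat _ 5254687740601 5984566375000) (enc_scale 36804000 47876531 (c3g.enc h1))) (enc_mul (enc_norm (l6q3_4.enc h1 h2)) (enc_norm (enc_sub (enc_rat _ 785206778767 957530620000) (enc_scale 39750000 47876531 (c3g.enc h1)))))) (enc_add (enc_sub (enc_rat _ 53255706310983 64335610000000)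 (enc_scale 4651100 6433561 (c3g.enc h1))) (enc_mul (enc_norm (l6q3_4.enc h1 h2)) (enc_norm (enc_sub (enc_rat _ 714693553749 804195125000) (enc_scale 5744000 6433561 (c3g.enc h1))))))) (enc_case (enc_sub (enc_rat _ 106748829 125000000) (c3g.enc h1)) (enc_add (enc_sub (enc_rat _ 12120751934149 14953429250000) (enc_scale 126737000 179441151 (c3g.enc h1))) (enc_mul (enc_norm (l6q3_4.enc h1 h2)) (enc_norm (enc_sub (enc_rat _ 4803448027913 2990685850000) (enc_scale 284780000 179441151 (c3g.enc h1)))))) (enc_case (enc_sub (enc_rat _ 614267857 1000000000) (c3g.enc h1)) (enc_add (enc_sub (enc_rat _ 41325492630877 59930693750000) (enc_scale 5413760 9588911 (c3g.enc h1))) (enc_mul (enc_norm (l6q3_4.enc h1 h2)) (enc_norm (enc_sub (enc_rat _ 5974154725483 2397227750000) (enc_scale 25166000 9588911 (c3g.enc h1)))))) (enc_add (enc_add (enc_scale 30117650 87752551 (c3g.enc h1)) (enc_rat _ 2638489 20000000))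 (enc_mul (enc_norm (l6q3_4.enc h1 h2)) (enc_norm (enc_sub (enc_rat _ 4894289 5000000) (enc_scale 98887800 614267857 (c3g.enc h1))))))))))))⟩
noncomputable def l7q3_7 : Fn2 := ⟨_, _, fun h1 h2 => (enc_half (c3g.enc h1))⟩
noncomputable def l7q3_8 : Fn2 := ⟨_, _, fun h1 h2 => (enc_scale 1 4 h1)⟩
noncomputable def l7q3_9 : Fn2 := ⟨_, _, fun h1 h2 => (enc_sub (l7q3_7.enc h1 h2) (l7q3_8.enc h1 h2))⟩
noncomputable def l7q3_12 : Fn2 := ⟨_, _, fun h1 h2 => (enc_add (enc_scale 1 4 (c3g.enc h1)) (enc_scale 3 8 h1))⟩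
noncomputable def l7q3_14 : Fn2 := ⟨_, _, fun h1 h2 => (enc_half (l7q3_9.enc h1 h2))⟩
noncomputable def l7q3 : Fn2 := ⟨_, _, fun h1 h2 => (enc_norm (enc_sub (enc_nat 2 (txg.enc (enc_norm (enc_sub (l7q3_8.enc h1 h2) (l7q3_7.enc h1 h2))) (enc_norm (enc_add (l7q3_12.enc h1 h2) (l7q3_14.enc h1 h2))) h2)) (txg.enc (enc_norm (l7q3_9.enc h1 h2)) (enc_norm (enc_sub (l7q3_12.enc h1 h2) (l7q3_14.enc h1 h2))) h2)))⟩
noncomputable def bx6q3_3 : Fn2 := ⟨_, _, fun h1 h2 => (enc_subr 72 125 h2)⟩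
noncomputable def bx6q3 : Fn2 := ⟨_, _, fun h1 h2 => (enc_norm (enc_case (enc_sub (enc_rat _ 1033431783 1000000000) (c3g.enc h1)) (enc_case (enc_sub (enc_rat _ 1097767393 1000000000) (c3g.enc h1)) (enc_add (enc_sub (enc_rat _ 5254687740601 5984566375000) (enc_scale 36804000 47876531 (c3g.enc h1))) (enc_mul (enc_norm (bx6q3_3.enc h1 h2)) (enc_norm (enc_sub (enc_rat _ 785206778767 957530620000) (enc_scale 39750000 47876531 (c3g.enc h1)))))) (enc_add (enc_sub (enc_rat _ 53255706310983 64335610000000) (enc_scale 4651100 6433561 (c3g.enc h1))) (enc_mul (enc_norm (bx6q3_3.enc h1 h2)) (enc_norm (enc_sub (enc_rat _ 714693553749 804195125000) (enc_scale 5744000 6433561 (c3g.enc h1))))))) (enc_case (enc_sub (enc_rat _ 106748829 125000000) (c3g.enc h1)) (enc_add (enc_sub (enc_rat _ 12120751934149 14953429250000) (enc_scale 126737000 179441151 (c3g.enc h1))) (enc_mul (enc_norm (bx6q3_3.enc h1 h2)) (enc_norm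 (enc_sub (enc_rat _ 4803448027913 2990685850000) (enc_scale 284780000 179441151 (c3g.enc h1)))))) (enc_case (enc_sub (enc_rat _ 614267857 1000000000) (c3g.enc h1)) (enc_add (enc_sub (enc_rat _ 41325492630877 59930693750000) (enc_scale 5413760 9588911 (c3g.enc h1))) (enc_mul (enc_norm (bx6q3_3.enc h1 h2)) (enc_norm (enc_sub (enc_rat _ 5974154725483 2397227750000) (enc_scale 25166000 9588911 (c3g.enc h1)))))) (enc_add (enc_add (enc_scale 30117650 87752551 (c3g.enc h1)) (enc_rat _ 2638489 20000000)) (enc_mul (enc_norm (bx6q3_3.enc h1 h2)) (enc_norm (enc_sub (enc_rat _ 4894289 5000000) (enc_scale 98887800 614267857 (c3g.enc h1))))))))))⟩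
noncomputable def l5q3_4 : Fn2 := ⟨_, _, fun h1 h2 => (enc_subr 72 125 h2)⟩
noncomputable def l5q3_54 : Fn2 := ⟨_, _, fun h1 h2 => (enc_subn 1 h1)⟩
noncomputable def l5q3_69 : Fn2 := ⟨_, _, fun h1 h2 => (enc_mul (cv4r.enc h1) (bx4q3.enc h1 h2))⟩
noncomputable def l5q3 : Fn2 := ⟨_, _, fun h1 h2 => (enc_norm (enc_case (enc_subr 1527 1000 h1) (enc_mul (cv5r.enc h1) (enc_norm (enc_add (enc_sub (enc_rat _ 4511455898601047 2506662500000000) (enc_scale 14814787 10026650 (c3g.enc h1))) (enc_mul (enc_norm (l5q3_4.enc h1 h2)) (enc_norm (enc_sub (enc_rat _ 58583381940468047 2255996250000000) (enc_scale 628502861 27071955 (c3g.enc h1)))))))) (enc_case (enc_subr 13 8 h1) (enc_add (l5q3_69.enc h1 h2) (enc_mul (enc_norm (enc_mul (enc_norm (enc_sub (enc_sub (qsg.enc (enc_norm (l5q3_54.enc h1 h2))) (enc_mul (enc_norm (enc_nat 2 (enc_sub (l5q3_54.enc h1 h2) h2))) (enc_norm (enc_mul (esg.enc (enc_norm (l5q3_54.enc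 h1 h2))) (kcg.enc (enc_norm (enc_sub (enc_scale 3 4 (l5q3_54.enc h1 h2)) (enc_half (gsg.enc (enc_norm (l5q3_54.enc h1 h2)))))) h2))))) (l5q3_69.enc h1 h2))) (enc_norm (enc_sub (cv5r.enc h1) (cv4r.enc h1))))) (enc_inv (enc_sub (enc_subr 1 2 (swg.enc h1)) (cv4r.enc h1))))) (enc_mul (cv5r.enc h1) (enc_norm (enc_case (enc_sub (enc_rat _ 209631373 250000000) (c3g.enc h1)) (enc_add (enc_sub (enc_rat _ 49508244086711901 71330378750000000) (enc_scale 124665737 285321515 (c3g.enc h1))) (enc_mul (enc_norm (l5q3_4.enc h1 h2)) (enc_norm (enc_sub (enc_rat _ 132773151116671493 42798227250000000) (enc_scale 509162441 171192909 (c3g.enc h1)))))) (enc_case (enc_sub (enc_rat _ 147732867 250000000) (c3g.enc h1)) (enc_add (enc_sub (enc_rat _ 5675697818143 15474626500000) (enc_scale 1442500 30949253 (c3g.enc h1))) (enc_mul (enc_norm (l5q3_4.enc h1 h2)) (enc_norm (enc_sub (enc_rat _ 1949833158111 1237970120000)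 (enc_scale 35678750 30949253 (c3g.enc h1)))))) (enc_add (enc_add (enc_scale 103653775 295465734 (c3g.enc h1)) (enc_rat _ 2638489 20000000)) (enc_mul (enc_norm (l5q3_4.enc h1 h2)) (enc_norm (enc_sub (enc_rat _ 4894289 5000000) (enc_scale 21266950 147732867 (c3g.enc h1)))))))))))))⟩
noncomputable def bx5q3_3 : Fn2 := ⟨_, _, fun h1 h2 => (enc_subr 72 125 h2)⟩
noncomputable def bx5q3 : Fn2 := ⟨_, _, fun h1 h2 => (enc_norm (enc_case (enc_subr 197 125 h1) (enc_add (enc_sub (enc_rat _ 4511455898601047 2506662500000000) (enc_scale 14814787 10026650 (c3g.enc h1))) (enc_mul (enc_norm (bx5q3_3.enc h1 h2)) (enc_norm (enc_sub (enc_rat _ 58583381940468047 2255996250000000) (enc_scale 628502861 27071955 (c3g.enc h1)))))) (enc_case (enc_sub (enc_rat _ 209631373 250000000) (c3g.enc h1)) (enc_add (enc_sub (enc_rat _ 49508244086711901 71330378750000000) (enc_scale 124665737 285321515 (c3g.enc h1))) (enc_mul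 (enc_norm (bx5q3_3.enc h1 h2)) (enc_norm (enc_sub (enc_rat _ 132773151116671493 42798227250000000) (enc_scale 509162441 171192909 (c3g.enc h1)))))) (enc_case (enc_sub (enc_rat _ 147732867 250000000) (c3g.enc h1)) (enc_add (enc_sub (enc_rat _ 5675697818143 15474626500000) (enc_scale 1442500 30949253 (c3g.enc h1))) (enc_mul (enc_norm (bx5q3_3.enc h1 h2)) (enc_norm (enc_sub (enc_rat _ 1949833158111 1237970120000) (enc_scale 35678750 30949253 (c3g.enc h1)))))) (enc_add (enc_add (enc_scale 103653775 295465734 (c3g.enc h1)) (enc_rat _ 2638489 20000000)) (enc_mul (enc_norm (bx5q3_3.enc h1 h2)) (enc_norm (enc_sub (enc_rat _ 4894289 5000000) (enc_scale 21266950 147732867 (c3g.enc h1))))))))))⟩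
noncomputable def rxq3_38 : Fn3 := ⟨_, _, fun h1 h2 h3 => (enc_add (enc_mul h1 (bx5q3.enc h2 h3)) (enc_mul (enc_norm (enc_mul (enc_norm (enc_sub (enc_pnc _ 1) (lm4r.enc h1 h2))) (cv4r.enc h2))) (enc_norm (enc_sub (bx4q3.enc h2 h3) (bx5q3.enc h2 h3)))))⟩
noncomputable def rxq3_39 : Fn3 := ⟨_, _, fun h1 h2 h3 => (enc_subn 1 h2)⟩
noncomputable def rxq3_57 : Fn3 := ⟨_, _, fun h1 h2 h3 => (enc_sub h1 (cv4r.enc h2))⟩
noncomputable def rxq3 : Fn3 := ⟨_, _, fun h1 h2 h3 => (enc_case (enc_sub h1 (cv1r.enc h2)) (enc_mul h1 (bx1q3.enc h2 h3)) (enc_case (enc_sub h1 (cv2r.enc h2)) (enc_add (enc_mul h1 (bx2q3.enc h2 h3)) (enc_mul (enc_norm (enc_mul (enc_norm (enc_sub (enc_pnc _ 1) (lm1r.enc h1 h2))) (cv1r.enc h2))) (enc_norm (enc_sub (bx1q3.enc h2 h3) (bx2q3.enc h2 h3))))) (enc_case (enc_sub h1 (cv3r.enc h2)) (enc_add (enc_mul h1 (bx3q3.enc h2 h3)) (enc_mul (enc_norm (enc_mul (enc_norm (enc_sub (enc_pnc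 _ 1) (lm2r.enc h1 h2))) (cv2r.enc h2))) (enc_norm (enc_sub (bx2q3.enc h2 h3) (bx3q3.enc h2 h3))))) (enc_case (rxq3_57.enc h1 h2 h3) (enc_add (enc_mul h1 (bx4q3.enc h2 h3)) (enc_mul (enc_norm (enc_mul (enc_norm (enc_sub (enc_pnc _ 1) (lm3r.enc h1 h2))) (cv3r.enc h2))) (enc_norm (enc_sub (bx3q3.enc h2 h3) (bx4q3.enc h2 h3))))) (enc_case (enc_sub h1 (cv5r.enc h2)) (enc_case (enc_subr 1527 1000 h2) (rxq3_38.enc h1 h2 h3) (enc_case (enc_subr 13 8 h2) (enc_add (l4q3.enc h2 h3) (enc_mul (enc_norm (enc_mul (enc_norm (rxq3_57.enc h1 h2 h3)) (enc_inv (enc_sub (enc_subr 1 2 (swg.enc h2)) (cv4r.enc h2))))) (enc_norm (enc_sub (enc_sub (qsg.enc (enc_norm (rxq3_39.enc h1 h2 h3))) (enc_mul (enc_norm (enc_nat 2 (enc_sub (rxq3_39.enc h1 h2 h3) h3))) (enc_norm (enc_mul (esg.enc (enc_norm (rxq3_39.enc h1 h2 h3))) (kcg.enc (enc_norm (enc_sub (enc_scale 3 4 (rxq3_39.enc h1 h2 h3)) (enc_half (gsg.enc (enc_norm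 (rxq3_39.enc h1 h2 h3)))))) h3))))) (l4q3.enc h2 h3))))) (rxq3_38.enc h1 h2 h3))) (enc_case (enc_sub h1 (cv6r.enc h2)) (enc_add (enc_mul h1 (bx6q3.enc h2 h3)) (enc_mul (enc_norm (enc_sub (enc_pnc _ 1) (lm5r.enc h1 h2))) (enc_norm (enc_sub (l5q3.enc h2 h3) (enc_mul (cv5r.enc h2) (bx6q3.enc h2 h3)))))) (enc_add (l6q3.enc h2 h3) (enc_mul (lm6r.enc h1 h2) (enc_norm (enc_sub (l7q3.enc h2 h3) (l6q3.enc h2 h3)))))))))))⟩
noncomputable def rlq3 : Fn3 := ⟨_, _, fun h1 h2 h3 => (enc_case h1 (enc_neg (rxq3.enc (enc_neg h1) h2 h3)) (rxq3.enc h1 h2 h3))⟩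
noncomputable def bd5q0_3 : Fn2 := ⟨_, _, fun h1 h2 => (enc_subr 72 125 h2)⟩
noncomputable def bd5q0 : Fn2 := ⟨_, _, fun h1 h2 => (enc_norm (enc_case (enc_subr 53 125 h1) (enc_add (enc_subr 707727 1000000 (enc_neg (enc_scale 7338656983 3750000000 h1))) (enc_mul (enc_norm (bd5q0_3.enc h1 h2)) (enc_norm (enc_subr 35143 100000 (enc_scale 129326921 46875000 h1))))) (enc_add (enc_subr 1771271507 180000000 (enc_scale 1619821127 90000000 h1)) (enc_mul (enc_norm (bd5q0_3.enc h1 h2)) (enc_norm (enc_sub (enc_rat _ 69541691 10800000) (enc_scale 66854759 5400000 h1)))))))⟩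
noncomputable def rcq0_38 : Fn3 := ⟨_, _, fun h1 h2 h3 => (enc_add (enc_mul h1 (bd5q0.enc h2 h3)) (enc_mul (enc_norm (enc_mul (enc_norm (enc_sub (enc_pnc _ 1) (lm4m.enc h1 h2))) (cv4m.enc h2))) (enc_norm (enc_sub (bd4q0.enc h2 h3) (bd5q0.enc h2 h3)))))⟩
noncomputable def rcq0_40 : Fn3 := ⟨_, _, fun h1 h2 h3 => (enc_sub (enc_pnc _ 1) h2)⟩
noncomputable def rcq0_41 : Fn3 := ⟨_, _, fun h1 h2 h3 => (gsg.enc (enc_norm (rcq0_40.enc h1 h2 h3)))⟩
noncomputable def rcq0_45 : Fn3 := ⟨_, _, fun h1 h2 h3 => (esg.enc (enc_norm (rcq0_40.enc h1 h2 h3)))⟩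
noncomputable def rcq0_49 : Fn3 := ⟨_, _, fun h1 h2 h3 => (gug.enc (enc_norm (rcq0_40.enc h1 h2 h3)))⟩
noncomputable def rcq0_51 : Fn3 := ⟨_, _, fun h1 h2 h3 => (enc_mul (enc_norm (rcq0_40.enc h1 h2 h3)) (enc_inv (rcq0_41.enc h1 h2 h3)))⟩
noncomputable def rcq0_52 : Fn3 := ⟨_, _, fun h1 h2 h3 => (enc_scale 3 4 (rcq0_51.enc h1 h2 h3))⟩
noncomputable def rcq0_82 : Fn3 := ⟨_, _, fun h1 h2 h3 => (enc_sub h1 (cv4m.enc h2))⟩
noncomputable def rcq0 : Fn3 := ⟨_, _, fun h1 h2 h3 => (enc_case (enc_sub h1 (cv1m.enc h2)) (enc_add (enc_mul h1 (bd1q0.enc h2 h3)) (enc_mul (enc_norm (enc_sub (enc_pnc _ 1) (lm0m.enc h1 h2))) (enc_norm (enc_sub (kc0q0.enc h2 h3) (enc_mul (c1g.enc h2) (bd1q0.enc h2 h3)))))) (enc_case (enc_sub h1 (cv2m.enc h2)) (enc_add (enc_mul h1 (bd2q0.enc h2 h3)) (enc_mul (enc_norm (enc_mul (enc_norm (enc_sub (enc_pnc _ 1) (lm1m.enc h1 h2))) (cv1m.enc h2))) (enc_norm (enc_sub (bd1q0.enc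 h2 h3) (bd2q0.enc h2 h3))))) (enc_case (enc_sub h1 (cv3m.enc h2)) (enc_add (enc_mul h1 (bd3q0.enc h2 h3)) (enc_mul (enc_norm (enc_mul (enc_norm (enc_sub (enc_pnc _ 1) (lm2m.enc h1 h2))) (cv2m.enc h2))) (enc_norm (enc_sub (bd2q0.enc h2 h3) (bd3q0.enc h2 h3))))) (enc_case (rcq0_82.enc h1 h2 h3) (enc_add (enc_mul h1 (bd4q0.enc h2 h3)) (enc_mul (enc_norm (enc_mul (enc_norm (enc_sub (enc_pnc _ 1) (lm3m.enc h1 h2))) (cv3m.enc h2))) (enc_norm (enc_sub (bd3q0.enc h2 h3) (bd4q0.enc h2 h3))))) (enc_case (enc_sub h1 (cv5m.enc h2)) (enc_case (enc_subr 3 8 h2) (rcq0_38.enc h1 h2 h3) (enc_case (enc_subr 473 1000 h2) (enc_add (kc4q0.enc h2 h3) (enc_mul (enc_norm (enc_mul (enc_norm (rcq0_82.enc h1 h2 h3)) (enc_inv (enc_sub (enc_add (swg.enc h2) (enc_rat _ 1 2)) (cv4m.enc h2))))) (enc_norm (enc_sub (enc_add (enc_sub (enc_neg (enc_add (enc_add (enc_rat _ 3 4) (enc_scale 3 2 (rcq0_40.enc h1 h2 h3))) (enc_scale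 3 4 (enc_mul (enc_norm (rcq0_51.enc h1 h2 h3)) (rcq0_49.enc h1 h2 h3))))) (enc_mul (enc_norm (enc_sub (enc_mul (enc_norm (enc_mul (enc_norm (rcq0_52.enc h1 h2 h3)) (enc_norm (enc_subn 3 (enc_nat 4 (rcq0_41.enc h1 h2 h3)))))) (rcq0_45.enc h1 h2 h3)) (enc_mul (qsg.enc (enc_norm (rcq0_40.enc h1 h2 h3))) (enc_norm (enc_sub (enc_rat _ 1 2) (rcq0_52.enc h1 h2 h3)))))) (enc_inv (enc_mul (enc_nat 2 (rcq0_45.enc h1 h2 h3)) (rcq0_45.enc h1 h2 h3))))) (enc_mul (kcg.enc (enc_norm (enc_sub (enc_scale 3 4 (rcq0_40.enc h1 h2 h3)) (enc_half (rcq0_41.enc h1 h2 h3)))) h3) (enc_norm (enc_add (enc_pnc _ 1) (enc_add (rcq0_49.enc h1 h2 h3) (enc_nat 2 (rcq0_41.enc h1 h2 h3))))))) (kc4q0.enc h2 h3))))) (rcq0_38.enc h1 h2 h3))) (enc_case (enc_sub h1 (cv6m.enc h2)) (enc_add (enc_mul h1 (bd6q0.enc h2 h3)) (enc_mul (enc_norm (enc_sub (enc_pnc _ 1) (lm5m.enc h1 h2))) (enc_norm (enc_sub (kc5q0.enc h2 h3) (enc_mul (cv5m.enc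 h2) (bd6q0.enc h2 h3)))))) (enc_add (kc6q0.enc h2 h3) (enc_mul (lm6m.enc h1 h2) (enc_norm (enc_sub (kc7q0.enc h2 h3) (kc6q0.enc h2 h3)))))))))))⟩
noncomputable def pd0 : Fn3 := ⟨_, _, fun h1 h2 h3 => (enc_case h1 (enc_neg (rcq0.enc (enc_neg h1) h2 h3)) (rcq0.enc h1 h2 h3))⟩
noncomputable def rcq1 : Fn3 := ⟨_, _, fun h1 h2 h3 => (enc_case (enc_sub h1 (cv1m.enc h2)) (enc_add (enc_mul h1 (bd1q1.enc h2 h3)) (enc_mul (enc_norm (enc_sub (enc_pnc _ 1) (lm0m.enc h1 h2))) (enc_norm (enc_sub (kc0q1.enc h2 h3) (enc_mul (c1g.enc h2) (bd1q1.enc h2 h3)))))) (enc_case (enc_sub h1 (cv2m.enc h2)) (enc_add (enc_mul h1 (bd2q1.enc h2 h3)) (enc_mul (enc_norm (enc_mul (enc_norm (enc_sub (enc_pnc _ 1) (lm1m.enc h1 h2))) (cv1m.enc h2))) (enc_norm (enc_sub (bd1q1.enc h2 h3) (bd2q1.enc h2 h3))))) (enc_case (enc_sub h1 (cv3m.enc h2)) (enc_add (enc_mul h1 (bd3q1.enc h2 h3)) (enc_mul (enc_norm (enc_mul (enc_norm (enc_sub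 (enc_pnc _ 1) (lm2m.enc h1 h2))) (cv2m.enc h2))) (enc_norm (enc_sub (bd2q1.enc h2 h3) (bd3q1.enc h2 h3))))) (enc_case (enc_sub h1 (cv4m.enc h2)) (enc_add (enc_mul h1 (bd4q1.enc h2 h3)) (enc_mul (enc_norm (enc_mul (enc_norm (enc_sub (enc_pnc _ 1) (lm3m.enc h1 h2))) (cv3m.enc h2))) (enc_norm (enc_sub (bd3q1.enc h2 h3) (bd4q1.enc h2 h3))))) (enc_case (enc_sub h1 (cv5m.enc h2)) (enc_add (enc_mul h1 (bd5q1.enc h2 h3)) (enc_mul (enc_norm (enc_mul (enc_norm (enc_sub (enc_pnc _ 1) (lm4m.enc h1 h2))) (cv4m.enc h2))) (enc_norm (enc_sub (bd4q1.enc h2 h3) (bd5q1.enc h2 h3))))) (enc_case (enc_sub h1 (cv6m.enc h2)) (enc_add (enc_mul h1 (bd6q1.enc h2 h3)) (enc_mul (enc_norm (enc_mul (enc_norm (enc_sub (enc_pnc _ 1) (lm5m.enc h1 h2))) (cv5m.enc h2))) (enc_norm (enc_sub (bd5q1.enc h2 h3) (bd6q1.enc h2 h3))))) (enc_add (kc6q1.enc h2 h3) (enc_mul (lm6m.enc h1 h2) (enc_norm (enc_sub (kc7q1.enc h2 h3) (kc6q1.enc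 h2 h3)))))))))))⟩
noncomputable def pd1 : Fn3 := ⟨_, _, fun h1 h2 h3 => (enc_case h1 (enc_neg (rcq1.enc (enc_neg h1) h2 h3)) (rcq1.enc h1 h2 h3))⟩
noncomputable def bd4q2_3 : Fn2 := ⟨_, _, fun h1 h2 => (enc_subr 72 125 h2)⟩
noncomputable def bd4q2 : Fn2 := ⟨_, _, fun h1 h2 => (enc_norm (enc_case (enc_sub (enc_pnc _ 1) (enc_scale 3 4 (enc_sq h1))) (enc_add (enc_subr 214234479 17300000 (enc_scale 1821317 173000 h1)) (enc_mul (enc_norm (bd4q2_3.enc h1 h2)) (enc_norm (enc_sub (enc_rat _ 1379889161 17300000) (enc_scale 1015923 17300 h1))))) (enc_case (enc_subr 1 4 (c1g.enc h1)) (enc_add (enc_subr 4537 20000 (enc_scale 14413 10000 (c1g.enc h1))) (enc_mul (enc_norm (bd4q2_3.enc h1 h2)) (enc_norm (enc_sub (enc_rat _ 1194961 100000) (enc_scale 153401 5000 (c1g.enc h1)))))) (enc_add (enc_sub (enc_rat _ 5339 20000) (enc_scale 5339 10000 (c1g.enc h1))) (enc_mul (enc_norm (bd4q2_3.enc h1 h2)) (enc_norm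 (enc_sub (enc_rat _ 106989 12500) (enc_scale 106989 6250 (c1g.enc h1)))))))))⟩
noncomputable def bd3q2_3 : Fn2 := ⟨_, _, fun h1 h2 => (enc_subr 72 125 h2)⟩
noncomputable def bd3q2 : Fn2 := ⟨_, _, fun h1 h2 => (enc_norm (enc_case (enc_sub (enc_pnc _ 1) (enc_scale 3 4 (enc_sq h1))) (enc_add (enc_subr 1124460423 173000000 (enc_scale 2421947 346000 h1)) (enc_mul (enc_norm (bd3q2_3.enc h1 h2)) (enc_norm (enc_sub (enc_rat _ 408249173 8650000) (enc_scale 179333 4325 h1))))) (enc_case (enc_subr 1 4 (c1g.enc h1)) (enc_add (enc_sub (enc_rat _ 98929 62500) (enc_scale 1112967 250000 (c1g.enc h1))) (enc_mul (enc_norm (bd3q2_3.enc h1 h2)) (enc_norm (enc_subr 67867 100000 (enc_scale 187923 25000 (c1g.enc h1)))))) (enc_add (enc_sub (enc_rat _ 469897 500000) (enc_scale 469897 250000 (c1g.enc h1))) (enc_mul (enc_norm (bd3q2_3.enc h1 h2)) (enc_norm (enc_sub (enc_rat _ 15007 6250) (enc_scale 15007 3125 (c1g.enc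 h1)))))))))⟩
noncomputable def bd2q2_3 : Fn2 := ⟨_, _, fun h1 h2 => (enc_subr 72 125 h2)⟩
noncomputable def bd2q2 : Fn2 := ⟨_, _, fun h1 h2 => (enc_norm (enc_case (enc_sub (enc_pnc _ 1) (enc_scale 3 4 (enc_sq h1))) (enc_add (enc_subr 338370899 43250000 (enc_scale 2727311 346000 h1)) (enc_mul (enc_norm (bd2q2_3.enc h1 h2)) (enc_norm (enc_sub (enc_rat _ 176243561 3460000) (enc_scale 1520949 34600 h1))))) (enc_case (enc_subr 1 4 (c1g.enc h1)) (enc_add (enc_sub (enc_rat _ 1278141 1000000) (enc_scale 41894 15625 (c1g.enc h1))) (enc_mul (enc_norm (bd2q2_3.enc h1 h2)) (enc_norm (enc_add (enc_scale 18567 25000 (c1g.enc h1)) (enc_rat _ 18001 100000))))) (enc_add (enc_sub (enc_rat _ 607837 500000) (enc_scale 607837 250000 (c1g.enc h1))) (enc_mul (enc_norm (bd2q2_3.enc h1 h2)) (enc_norm (enc_sub (enc_rat _ 4571 6250) (enc_scale 4571 3125 (c1g.enc h1)))))))))⟩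
noncomputable def bd1q2_3 : Fn2 := ⟨_, _, fun h1 h2 => (enc_subr 72 125 h2)⟩
noncomputable def bd1q2_7 : Fn2 := ⟨_, _, fun h1 h2 => (enc_add (enc_scale 23233 10000 (bd1q2_3.enc h1 h2)) (enc_rat _ 5111 20000))⟩
noncomputable def bd1q2 : Fn2 := ⟨_, _, fun h1 h2 => (enc_norm (enc_case (enc_sub (enc_pnc _ 1) (enc_scale 3 4 (enc_sq h1))) (enc_add (bd1q2_7.enc h1 h2) (enc_case (enc_subr 231 200 h1) (enc_pnc _ 0) (enc_add (enc_subr 148853397 11500000 (enc_scale 644387 57500 h1)) (enc_mul (enc_norm (bd1q2_3.enc h1 h2)) (enc_norm (enc_sub (enc_rat _ 28874153 575000) (enc_scale 374989 8625 h1))))))) (enc_add (bd1q2_7.enc h1 h2) (enc_case (enc_subr 1 4 (c1g.enc h1)) (enc_sub (enc_neg (enc_scale 126111 250000 (c1g.enc h1))) (enc_mul (enc_norm (bd1q2_3.enc h1 h2)) (enc_scale 76593 25000 (c1g.enc h1)))) (enc_add (enc_sub (enc_rat _ 52 15625) (enc_scale 129439 250000 (c1g.enc h1))) (enc_mul (enc_norm (bd1q2_3.enc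 h1 h2)) (enc_norm (enc_sub (enc_rat _ 9893 12500) (enc_scale 155737 25000 (c1g.enc h1))))))))))⟩
noncomputable def kc0q2_3 : Fn2 := ⟨_, _, fun h1 h2 => (enc_subr 72 125 h2)⟩
noncomputable def kc0q2 : Fn2 := ⟨_, _, fun h1 h2 => (enc_norm (enc_case (enc_subr 1 5 (c1g.enc h1)) (enc_case (enc_subr 1 10 (c1g.enc h1)) (enc_add (enc_scale 5111 20000 (c1g.enc h1)) (enc_mul (enc_norm (kc0q2_3.enc h1 h2)) (enc_scale 23233 10000 (c1g.enc h1)))) (enc_add (enc_sub (enc_rat _ 916 15625) (enc_scale 33069 100000 (c1g.enc h1))) (enc_mul (enc_norm (kc0q2_3.enc h1 h2)) (enc_norm (enc_add (enc_scale 383 2000 (c1g.enc h1)) (enc_rat _ 10659 50000)))))) (enc_case (enc_subr 3 10 (c1g.enc h1)) (enc_add (enc_sub (enc_rat _ 6383 500000) (enc_scale 507 5000 (c1g.enc h1))) (enc_mul (enc_norm (kc0q2_3.enc h1 h2)) (enc_norm (enc_subr 5089 10000 (enc_scale 38019 10000 (c1g.enc h1)))))) (enc_case (enc_subr 2 5 (c1g.enc h1))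 (enc_add (enc_subr 34483 200000 (enc_scale 51587 100000 (c1g.enc h1))) (enc_mul (enc_norm (kc0q2_3.enc h1 h2)) (enc_norm (enc_subr 1217 1250 (enc_scale 53509 10000 (c1g.enc h1)))))) (enc_add (enc_sub (enc_rat _ 33933 200000) (enc_scale 33933 100000 (c1g.enc h1))) (enc_mul (enc_norm (kc0q2_3.enc h1 h2)) (enc_norm (enc_sub (enc_rat _ 29169 5000) (enc_scale 29169 2500 (c1g.enc h1))))))))))⟩
noncomputable def n0d : Fn2 := ⟨_, _, fun h1 h2 => (enc_norm (enc_add (enc_scale 23233 10000 (enc_subr 72 125 h2)) (enc_rat _ 5111 20000)))⟩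
noncomputable def rcq2_73 : Fn3 := ⟨_, _, fun h1 h2 h3 => (enc_mul h1 (bd1q2.enc h2 h3))⟩
noncomputable def rcq2_75 : Fn3 := ⟨_, _, fun h1 h2 h3 => (enc_sub (enc_pnc _ 1) (lm0p.enc h1 h2))⟩
noncomputable def rcq2 : Fn3 := ⟨_, _, fun h1 h2 h3 => (enc_case (enc_sub h1 (cv1p.enc h2)) (enc_case (enc_subr 1149 1000 h2) (enc_add (rcq2_73.enc h1 h2 h3) (enc_mul (enc_norm (rcq2_75.enc h1 h2 h3)) (enc_norm (enc_sub (kc0q2.enc h2 h3) (enc_mul (c1g.enc h2) (bd1q2.enc h2 h3)))))) (enc_case (enc_subr 2887 2500 h2) (enc_add (rcq2_73.enc h1 h2 h3) (enc_mul (enc_norm (rcq2_75.enc h1 h2 h3)) (enc_norm (enc_mul (c1g.enc h2) (enc_norm (enc_sub (n0d.enc h2 h3) (bd1q2.enc h2 h3))))))) (rcq2_73.enc h1 h2 h3))) (enc_case (enc_sub h1 (cv2p.enc h2)) (enc_add (enc_mul h1 (bd2q2.enc h2 h3)) (enc_mul (enc_norm (enc_mul (enc_norm (enc_sub (enc_pnc _ 1) (lm1p.enc h1 h2))) (cv1p.enc h2))) (enc_norm (enc_sub (bd1q2.enc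 h2 h3) (bd2q2.enc h2 h3))))) (enc_case (enc_sub h1 (cv3p.enc h2)) (enc_add (enc_mul h1 (bd3q2.enc h2 h3)) (enc_mul (enc_norm (enc_mul (enc_norm (enc_sub (enc_pnc _ 1) (lm2p.enc h1 h2))) (cv2p.enc h2))) (enc_norm (enc_sub (bd2q2.enc h2 h3) (bd3q2.enc h2 h3))))) (enc_case (enc_sub h1 (cv4p.enc h2)) (enc_add (enc_mul h1 (bd4q2.enc h2 h3)) (enc_mul (enc_norm (enc_mul (enc_norm (enc_sub (enc_pnc _ 1) (lm3p.enc h1 h2))) (cv3p.enc h2))) (enc_norm (enc_sub (bd3q2.enc h2 h3) (bd4q2.enc h2 h3))))) (enc_case (enc_sub h1 (cv5p.enc h2)) (enc_add (enc_mul h1 (bd5q2.enc h2 h3)) (enc_mul (enc_norm (enc_mul (enc_norm (enc_sub (enc_pnc _ 1) (lm4p.enc h1 h2))) (cv4p.enc h2))) (enc_norm (enc_sub (bd4q2.enc h2 h3) (bd5q2.enc h2 h3))))) (enc_case (enc_sub h1 (cv6p.enc h2)) (enc_add (enc_mul h1 (bd6q2.enc h2 h3)) (enc_mul (enc_norm (enc_mul (enc_norm (enc_sub (enc_pnc _ 1) (lm5p.enc h1 h2))) (cv5p.enc h2))) (enc_norm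 (enc_sub (bd5q2.enc h2 h3) (bd6q2.enc h2 h3))))) (enc_add (kc6q2.enc h2 h3) (enc_mul (lm6p.enc h1 h2) (enc_norm (enc_sub (kc7q2.enc h2 h3) (kc6q2.enc h2 h3)))))))))))⟩
noncomputable def pd2 : Fn3 := ⟨_, _, fun h1 h2 h3 => (enc_case h1 (enc_neg (rcq2.enc (enc_neg h1) h2 h3)) (rcq2.enc h1 h2 h3))⟩
noncomputable def kc6q3 : Fn2 := ⟨_, _, fun h1 h2 => (enc_norm (enc_mul (cv6r.enc h1) (enc_norm (enc_add (enc_add (enc_scale 1445796500 2004876867 (c3g.enc h1)) (enc_rat _ 36877 280000)) (enc_mul (enc_norm (enc_subr 72 125 h2)) (enc_norm (enc_subr 8713 2000 (enc_scale 1430980000 286410981 (c3g.enc h1)))))))))⟩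
noncomputable def kc7q3_3 : Fn2 := ⟨_, _, fun h1 h2 => (enc_subr 72 125 h2)⟩
noncomputable def kc7q3_9 : Fn2 := ⟨_, _, fun h1 h2 => (enc_sub (enc_half (c3g.enc h1)) (enc_scale 1 4 h1))⟩
noncomputable def kc7q3 : Fn2 := ⟨_, _, fun h1 h2 => (enc_norm (enc_case (enc_add (kc7q3_9.enc h1 h2) (enc_rat _ 7 100)) (enc_case (enc_add (kc7q3_9.enc h1 h2) (enc_rat _ 9 25)) (enc_add (enc_add (enc_scale 36877 140000 (kc7q3_9.enc h1 h2)) (enc_rat _ 36877 280000)) (enc_mul (enc_norm (kc7q3_3.enc h1 h2)) (enc_norm (enc_subr 8713 2000 (enc_neg (enc_scale 8713 1000 (kc7q3_9.enc h1 h2))))))) (enc_case (enc_add (kc7q3_9.enc h1 h2) (enc_rat _ 21 100)) (enc_add (enc_add (enc_scale 48943 150000 (kc7q3_9.enc h1 h2)) (enc_rat _ 771701 5000000)) (enc_mul (enc_norm (kc7q3_3.enc h1 h2)) (enc_norm (enc_subr 209123 250000 (enc_scale 1331 1250 (kc7q3_9.enc h1 h2)))))) (enc_add (enc_add (enc_scale 339 1250 (kc7q3_9.enc h1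 h2)) (enc_rat _ 35693 250000)) (enc_mul (enc_norm (kc7q3_3.enc h1 h2)) (enc_norm (enc_add (enc_scale 36061 7000 (kc7q3_9.enc h1 h2)) (enc_rat _ 2173 100000))))))) (enc_case (enc_subr 21 100 (kc7q3_9.enc h1 h2)) (enc_case (enc_subr 7 100 (kc7q3_9.enc h1 h2)) (enc_add (enc_add (enc_scale 12339 140000 (kc7q3_9.enc h1 h2)) (enc_rat _ 51983 400000)) (enc_mul (enc_norm (kc7q3_3.enc h1 h2)) (enc_norm (enc_add (enc_scale 15317 2000 (kc7q3_9.enc h1 h2)) (enc_rat _ 39443 200000))))) (enc_add (enc_sub (enc_rat _ 310703 2000000) (enc_scale 38449 140000 (kc7q3_9.enc h1 h2))) (enc_mul (enc_norm (kc7q3_3.enc h1 h2)) (enc_norm (enc_add (enc_scale 112759 14000 (kc7q3_9.enc h1 h2)) (enc_rat _ 33903 200000)))))) (enc_case (enc_subr 9 25 (kc7q3_9.enc h1 h2)) (enc_add (enc_sub (enc_rat _ 835527 5000000) (enc_scale 49591 150000 (kc7q3_9.enc h1 h2))) (enc_mul (enc_norm (kc7q3_3.enc h1 h2)) (enc_norm (enc_sub (enc_rat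 _ 548357 250000) (enc_scale 2969 1875 (kc7q3_9.enc h1 h2)))))) (enc_add (enc_sub (enc_rat _ 48087 280000) (enc_scale 48087 140000 (kc7q3_9.enc h1 h2))) (enc_mul (enc_norm (kc7q3_3.enc h1 h2)) (enc_norm (enc_sub (enc_rat _ 81169 14000) (enc_scale 81169 7000 (kc7q3_9.enc h1 h2))))))))))⟩
noncomputable def bd6q3 : Fn2 := ⟨_, _, fun h1 h2 => (enc_norm (enc_add (enc_add (enc_scale 1445796500 2004876867 (c3g.enc h1)) (enc_rat _ 36877 280000)) (enc_mul (enc_norm (enc_subr 72 125 h2)) (enc_norm (enc_subr 8713 2000 (enc_scale 1430980000 286410981 (c3g.enc h1)))))))⟩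
noncomputable def kc5q3_4 : Fn2 := ⟨_, _, fun h1 h2 => (enc_subr 72 125 h2)⟩
noncomputable def kc5q3_28 : Fn2 := ⟨_, _, fun h1 h2 => (enc_subn 1 h1)⟩
noncomputable def kc5q3_29 : Fn2 := ⟨_, _, fun h1 h2 => (gsg.enc (enc_norm (kc5q3_28.enc h1 h2)))⟩
noncomputable def kc5q3_33 : Fn2 := ⟨_, _, fun h1 h2 => (esg.enc (enc_norm (kc5q3_28.enc h1 h2)))⟩
noncomputable def kc5q3_38 : Fn2 := ⟨_, _, fun h1 h2 => (gug.enc (enc_norm (kc5q3_28.enc h1 h2)))⟩
noncomputable def kc5q3_40 : Fn2 := ⟨_, _, fun h1 h2 => (enc_mul (enc_norm (kc5q3_28.enc h1 h2)) (enc_inv (kc5q3_29.enc h1 h2)))⟩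
noncomputable def kc5q3_41 : Fn2 := ⟨_, _, fun h1 h2 => (enc_scale 3 4 (kc5q3_40.enc h1 h2))⟩
noncomputable def kc5q3_69 : Fn2 := ⟨_, _, fun h1 h2 => (enc_mul (cv4r.enc h1) (bd4q3.enc h1 h2))⟩
noncomputable def kc5q3 : Fn2 := ⟨_, _, fun h1 h2 => (enc_norm (enc_case (enc_subr 1527 1000 h1) (enc_mul (cv5r.enc h1) (enc_norm (enc_add (enc_sub (enc_rat _ 51126947571287713 4511992500000000) (enc_scale 458719519 54143910 (c3g.enc h1))) (enc_mul (enc_norm (kc5q3_4.enc h1 h2)) (enc_norm (enc_subr 31498941876541837 225599625000000 (enc_scale 675746762 5414391 (c3g.enc h1)))))))) (enc_case (enc_subr 13 8 h1) (enc_add (kc5q3_69.enc h1 h2) (enc_mul (enc_norm (enc_mul (enc_norm (enc_sub (enc_add (enc_sub (enc_add (enc_add (enc_rat _ 3 4) (enc_scale 3 2 (kc5q3_28.enc h1 h2))) (enc_scale 3 4 (enc_mul (enc_norm (kc5q3_40.enc h1 h2)) (kc5q3_38.enc h1 h2)))) (enc_mul (enc_norm (enc_sub (enc_mul (enc_norm (enc_mul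 (enc_norm (kc5q3_41.enc h1 h2)) (enc_norm (enc_subn 3 (enc_nat 4 (kc5q3_29.enc h1 h2)))))) (kc5q3_33.enc h1 h2)) (enc_mul (qsg.enc (enc_norm (kc5q3_28.enc h1 h2))) (enc_norm (enc_sub (enc_rat _ 1 2) (kc5q3_41.enc h1 h2)))))) (enc_inv (enc_mul (enc_nat 2 (kc5q3_33.enc h1 h2)) (kc5q3_33.enc h1 h2))))) (enc_mul (kcg.enc (enc_norm (enc_sub (enc_scale 3 4 (kc5q3_28.enc h1 h2)) (enc_half (kc5q3_29.enc h1 h2)))) h2) (enc_norm (enc_sub (enc_pnc _ 1) (enc_add (kc5q3_38.enc h1 h2) (enc_nat 2 (kc5q3_29.enc h1 h2))))))) (kc5q3_69.enc h1 h2))) (enc_norm (enc_sub (cv5r.enc h1) (cv4r.enc h1))))) (enc_inv (enc_sub (enc_subr 1 2 (swg.enc h1)) (cv4r.enc h1))))) (enc_mul (cv5r.enc h1) (enc_norm (enc_add (enc_add (enc_scale 178027008451 70680288070 (c3g.enc h1)) (enc_rat _ 36877 280000)) (enc_mul (enc_norm (kc5q3_4.enc h1 h2)) (enc_norm (enc_subr 8713 2000 (enc_scale 4826401378 1009718401 (c3g.enc h1)))))))))))⟩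
noncomputable def bd5q3_3 : Fn2 := ⟨_, _, fun h1 h2 => (enc_subr 72 125 h2)⟩
noncomputable def bd5q3 : Fn2 := ⟨_, _, fun h1 h2 => (enc_norm (enc_case (enc_subr 197 125 h1) (enc_add (enc_sub (enc_rat _ 51126947571287713 4511992500000000) (enc_scale 458719519 54143910 (c3g.enc h1))) (enc_mul (enc_norm (bd5q3_3.enc h1 h2)) (enc_norm (enc_subr 31498941876541837 225599625000000 (enc_scale 675746762 5414391 (c3g.enc h1)))))) (enc_add (enc_add (enc_scale 178027008451 70680288070 (c3g.enc h1)) (enc_rat _ 36877 280000)) (enc_mul (enc_norm (bd5q3_3.enc h1 h2)) (enc_norm (enc_subr 8713 2000 (enc_scale 4826401378 1009718401 (c3g.enc h1))))))))⟩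
noncomputable def rcq3_38 : Fn3 := ⟨_, _, fun h1 h2 h3 => (enc_add (enc_mul h1 (bd5q3.enc h2 h3)) (enc_mul (enc_norm (enc_mul (enc_norm (enc_sub (enc_pnc _ 1) (lm4r.enc h1 h2))) (cv4r.enc h2))) (enc_norm (enc_sub (bd4q3.enc h2 h3) (bd5q3.enc h2 h3)))))⟩
noncomputable def rcq3_39 : Fn3 := ⟨_, _, fun h1 h2 h3 => (enc_subn 1 h2)⟩
noncomputable def rcq3_40 : Fn3 := ⟨_, _, fun h1 h2 h3 => (gsg.enc (enc_norm (rcq3_39.enc h1 h2 h3)))⟩
noncomputable def rcq3_44 : Fn3 := ⟨_, _, fun h1 h2 h3 => (esg.enc (enc_norm (rcq3_39.enc h1 h2 h3)))⟩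
noncomputable def rcq3_49 : Fn3 := ⟨_, _, fun h1 h2 h3 => (gug.enc (enc_norm (rcq3_39.enc h1 h2 h3)))⟩
noncomputable def rcq3_51 : Fn3 := ⟨_, _, fun h1 h2 h3 => (enc_mul (enc_norm (rcq3_39.enc h1 h2 h3)) (enc_inv (rcq3_40.enc h1 h2 h3)))⟩
noncomputable def rcq3_52 : Fn3 := ⟨_, _, fun h1 h2 h3 => (enc_scale 3 4 (rcq3_51.enc h1 h2 h3))⟩
noncomputable def rcq3_82 : Fn3 := ⟨_, _, fun h1 h2 h3 => (enc_sub h1 (cv4r.enc h2))⟩
noncomputable def rcq3 : Fn3 := ⟨_, _, fun h1 h2 h3 => (enc_case (enc_sub h1 (cv1r.enc h2)) (enc_mul h1 (bd1q3.enc h2 h3)) (enc_case (enc_sub h1 (cv2r.enc h2)) (enc_add (enc_mul h1 (bd2q3.enc h2 h3)) (enc_mul (enc_norm (enc_mul (enc_norm (enc_sub (enc_pnc _ 1) (lm1r.enc h1 h2))) (cv1r.enc h2))) (enc_norm (enc_sub (bd1q3.enc h2 h3) (bd2q3.enc h2 h3))))) (enc_case (enc_sub h1 (cv3r.enc h2)) (enc_add (enc_mul h1 (bd3q3.enc h2 h3)) (enc_mul (enc_norm (enc_mul (enc_norm (enc_sub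 (enc_pnc _ 1) (lm2r.enc h1 h2))) (cv2r.enc h2))) (enc_norm (enc_sub (bd2q3.enc h2 h3) (bd3q3.enc h2 h3))))) (enc_case (rcq3_82.enc h1 h2 h3) (enc_add (enc_mul h1 (bd4q3.enc h2 h3)) (enc_mul (enc_norm (enc_mul (enc_norm (enc_sub (enc_pnc _ 1) (lm3r.enc h1 h2))) (cv3r.enc h2))) (enc_norm (enc_sub (bd3q3.enc h2 h3) (bd4q3.enc h2 h3))))) (enc_case (enc_sub h1 (cv5r.enc h2)) (enc_case (enc_subr 1527 1000 h2) (rcq3_38.enc h1 h2 h3) (enc_case (enc_subr 13 8 h2) (enc_add (kc4q3.enc h2 h3) (enc_mul (enc_norm (enc_mul (enc_norm (rcq3_82.enc h1 h2 h3)) (enc_inv (enc_sub (enc_subr 1 2 (swg.enc h2)) (cv4r.enc h2))))) (enc_norm (enc_sub (enc_add (enc_sub (enc_add (enc_add (enc_rat _ 3 4) (enc_scale 3 2 (rcq3_39.enc h1 h2 h3))) (enc_scale 3 4 (enc_mul (enc_norm (rcq3_51.enc h1 h2 h3)) (rcq3_49.enc h1 h2 h3)))) (enc_mul (enc_norm (enc_sub (enc_mul (enc_norm (enc_mul (enc_norm (rcq3_52.enc h1 h2 h3)) (enc_norm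 (enc_subn 3 (enc_nat 4 (rcq3_40.enc h1 h2 h3)))))) (rcq3_44.enc h1 h2 h3)) (enc_mul (qsg.enc (enc_norm (rcq3_39.enc h1 h2 h3))) (enc_norm (enc_sub (enc_rat _ 1 2) (rcq3_52.enc h1 h2 h3)))))) (enc_inv (enc_mul (enc_nat 2 (rcq3_44.enc h1 h2 h3)) (rcq3_44.enc h1 h2 h3))))) (enc_mul (kcg.enc (enc_norm (enc_sub (enc_scale 3 4 (rcq3_39.enc h1 h2 h3)) (enc_half (rcq3_40.enc h1 h2 h3)))) h3) (enc_norm (enc_sub (enc_pnc _ 1) (enc_add (rcq3_49.enc h1 h2 h3) (enc_nat 2 (rcq3_40.enc h1 h2 h3))))))) (kc4q3.enc h2 h3))))) (rcq3_38.enc h1 h2 h3))) (enc_case (enc_sub h1 (cv6r.enc h2)) (enc_add (enc_mul h1 (bd6q3.enc h2 h3)) (enc_mul (enc_norm (enc_sub (enc_pnc _ 1) (lm5r.enc h1 h2))) (enc_norm (enc_sub (kc5q3.enc h2 h3) (enc_mul (cv5r.enc h2) (bd6q3.enc h2 h3)))))) (enc_add (kc6q3.enc h2 h3) (enc_mul (lm6r.enc h1 h2) (enc_norm (enc_sub (kc7q3.enc h2 h3) (kc6q3.enc h2 h3)))))))))))⟩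
noncomputable def pd3 : Fn3 := ⟨_, _, fun h1 h2 h3 => (enc_case h1 (enc_neg (rcq3.enc (enc_neg h1) h2 h3)) (rcq3.enc h1 h2 h3))⟩
noncomputable def mug3 : Fn1 := ⟨_, _, fun h1 => (enc_inv (enc_add (enc_nat 2 (gsg.enc h1)) (enc_pnc _ 3)))⟩
noncomputable def eng : Fn1 := ⟨_, _, fun h1 => (enc_norm (enc_add (enc_pnc _ 1) (enc_mul (mug3.enc h1) (gug.enc h1))))⟩
noncomputable def mog : Fn1 := ⟨_, _, fun h1 => (enc_norm (enc_scale 3 40 (enc_mul (mug3.enc h1) (esg.enc h1))))⟩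
noncomputable def kf1q2_4 : Fn2 := ⟨_, _, fun h1 h2 => (enc_subr 72 125 h2)⟩
noncomputable def kf1q2_9 : Fn2 := ⟨_, _, fun h1 h2 => (enc_sub (enc_pnc _ 1) (enc_scale 9701419 5000000 (enc_subn 1 h1)))⟩
noncomputable def kf1q2 : Fn2 := ⟨_, _, fun h1 h2 => (enc_norm (enc_mul (cv1p.enc h1) (enc_norm (enc_case (enc_sub (enc_pnc _ 1) (enc_scale 3 4 (enc_sq h1))) (enc_add (kf1q2_9.enc h1 h2) (enc_case (enc_subr 127 100 h1) (enc_case (enc_subr 231 200 h1) (enc_pnc _ 0) (enc_add (enc_sub (enc_rat _ 2897433 1150000) (enc_scale 12543 5750 h1)) (enc_mul (enc_norm (kf1q2_4.enc h1 h2)) (enc_norm (enc_sub (enc_rat _ 231231 1150000) (enc_scale 1001 5750 h1)))))) (enc_case (enc_subr 139 100 h1) (enc_add (enc_sub (enc_rat _ 157327 62500) (enc_scale 5449 2500 h1)) (enc_mul (enc_norm (kf1q2_4.enc h1 h2)) (enc_norm (enc_sub (enc_rat _ 53647 600000) (enc_scale 517 6000 h1))))) (enc_add (enc_sub (enc_rat _ 432406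 171875) (enc_scale 59911 27500 h1)) (enc_mul (enc_norm (kf1q2_4.enc h1 h2)) (enc_norm (enc_sub (enc_rat _ 44861 1100000) (enc_scale 563 11000 h1)))))))) (enc_add (kf1q2_9.enc h1 h2) (enc_case (enc_subr 1 4 (c1g.enc h1)) (enc_case (enc_subr 1 10 (c1g.enc h1)) (enc_case (enc_subr 1 20 (c1g.enc h1)) (enc_sub (enc_neg (enc_scale 7951 50000 (c1g.enc h1))) (enc_mul (enc_norm (kf1q2_4.enc h1 h2)) (enc_scale 18427 5000 (c1g.enc h1)))) (enc_add (enc_sub (enc_rat _ 3757 250000) (enc_scale 22979 50000 (c1g.enc h1))) (enc_mul (enc_norm (kf1q2_4.enc h1 h2)) (enc_norm (enc_subr 483 100000 (enc_neg (enc_scale 2243 625 (c1g.enc h1)))))))) (enc_case (enc_subr 3 20 (c1g.enc h1)) (enc_add (enc_subr 1693 500000 (enc_neg (enc_scale 3443 12500 (c1g.enc h1)))) (enc_mul (enc_norm (kf1q2_4.enc h1 h2)) (enc_norm (enc_subr 2513 100000 (enc_neg (enc_scale 16929 5000 (c1g.enc h1))))))) (enc_case (enc_subr 1 5 (c1g.enc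 h1)) (enc_add (enc_subr 104657 1000000 (enc_scale 3997 10000 (c1g.enc h1))) (enc_mul (enc_norm (kf1q2_4.enc h1 h2)) (enc_norm (enc_subr 96239 100000 (enc_scale 14313 5000 (c1g.enc h1)))))) (enc_add (enc_subr 210549 1000000 (enc_scale 23229 25000 (c1g.enc h1))) (enc_mul (enc_norm (kf1q2_4.enc h1 h2)) (enc_norm (enc_subr 105783 100000 (enc_scale 16699 5000 (c1g.enc h1))))))))) (enc_case (enc_subr 7 20 (c1g.enc h1)) (enc_case (enc_subr 3 10 (c1g.enc h1)) (enc_add (enc_subr 54641 250000 (enc_scale 48061 50000 (c1g.enc h1))) (enc_mul (enc_norm (kf1q2_4.enc h1 h2)) (enc_norm (enc_subr 65523 100000 (enc_scale 8647 5000 (c1g.enc h1)))))) (enc_add (enc_subr 20033 250000 (enc_scale 24989 50000 (c1g.enc h1))) (enc_mul (enc_norm (kf1q2_4.enc h1 h2)) (enc_norm (enc_subr 56409 100000 (enc_scale 891 625 (c1g.enc h1))))))) (enc_case (enc_subr 2 5 (c1g.enc h1)) (enc_add (enc_sub (enc_rat _ 104437 1000000)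 (enc_scale 689 25000 (c1g.enc h1))) (enc_mul (enc_norm (kf1q2_4.enc h1 h2)) (enc_norm (enc_subr 23047 100000 (enc_scale 1181 2500 (c1g.enc h1)))))) (enc_case (enc_subr 9 20 (c1g.enc h1)) (enc_add (enc_sub (enc_rat _ 406509 1000000) (enc_scale 39137 50000 (c1g.enc h1))) (enc_mul (enc_norm (kf1q2_4.enc h1 h2)) (enc_norm (enc_subr 2483 20000 (enc_scale 1033 5000 (c1g.enc h1)))))) (enc_add (enc_sub (enc_rat _ 13569 25000) (enc_scale 13569 12500 (c1g.enc h1))) (enc_mul (enc_norm (kf1q2_4.enc h1 h2)) (enc_norm (enc_subr 1559 5000 (enc_scale 1559 2500 (c1g.enc h1)))))))))))))))⟩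
noncomputable def l1q2_4 : Fn2 := ⟨_, _, fun h1 h2 => (enc_subr 72 125 h2)⟩
noncomputable def l1q2_11 : Fn2 := ⟨_, _, fun h1 h2 => (enc_subr 115620103 250000000 (enc_neg (enc_scale 600325897 500000000 (l1q2_4.enc h1 h2))))⟩
noncomputable def l1q2 : Fn2 := ⟨_, _, fun h1 h2 => (enc_norm (enc_mul (cv1p.enc h1) (enc_norm (enc_case (enc_sub (enc_pnc _ 1) (enc_scale 3 4 (enc_sq h1))) (enc_add (enc_add (l1q2_11.enc h1 h2) (enc_case (enc_subr 127 100 h1) (enc_case (enc_subr 231 200 h1) (enc_pnc _ 0) (enc_add (enc_subr 8849841 2875000 (enc_scale 38311 14375 h1)) (enc_mul (enc_norm (l1q2_4.enc h1 h2)) (enc_norm (enc_sub (enc_rat _ 3608451 575000) (enc_scale 15621 2875 h1)))))) (enc_case (enc_subr 139 100 h1) (enc_add (enc_subr 6156251 2000000 (enc_scale 53301 20000 h1)) (enc_mul (enc_norm (l1q2_4.enc h1 h2)) (enc_norm (enc_sub (enc_rat _ 7166483 1200000) (enc_scale 62333 12000 h1))))) (enc_add (enc_subr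 16930559 5500000 (enc_scale 18323 6875 h1)) (enc_mul (enc_norm (l1q2_4.enc h1 h2)) (enc_norm (enc_sub (enc_rat _ 25857 4400) (enc_scale 56383 11000 h1)))))))) (epg.enc h2)) (enc_add (enc_add (l1q2_11.enc h1 h2) (enc_case (enc_subr 1 4 (c1g.enc h1)) (enc_case (enc_subr 1 10 (c1g.enc h1)) (enc_case (enc_subr 1 20 (c1g.enc h1)) (enc_sub (enc_scale 1593 6250 (c1g.enc h1)) (enc_mul (enc_norm (l1q2_4.enc h1 h2)) (enc_scale 31 5000 (c1g.enc h1)))) (enc_add (enc_subr 14189 1000000 (enc_scale 26933 50000 (c1g.enc h1))) (enc_mul (enc_norm (l1q2_4.enc h1 h2)) (enc_norm (enc_subr 14789 100000 (enc_scale 7379 2500 (c1g.enc h1))))))) (enc_case (enc_subr 3 20 (c1g.enc h1)) (enc_add (enc_subr 62613 1000000 (enc_scale 10229 10000 (c1g.enc h1))) (enc_mul (enc_norm (l1q2_4.enc h1 h2)) (enc_norm (enc_subr 733 20000 (enc_scale 2299 1250 (c1g.enc h1)))))) (enc_case (enc_subr 1 5 (c1g.enc h1)) (enc_add (enc_subr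 102069 1000000 (enc_scale 64297 50000 (c1g.enc h1))) (enc_mul (enc_norm (l1q2_4.enc h1 h2)) (enc_norm (enc_add (enc_scale 7931 5000 (c1g.enc h1)) (enc_rat _ 13 10000))))) (enc_add (enc_subr 30821 200000 (enc_scale 38653 25000 (c1g.enc h1))) (enc_mul (enc_norm (l1q2_4.enc h1 h2)) (enc_norm (enc_subr 4371 10000 (enc_scale 18891 5000 (c1g.enc h1))))))))) (enc_case (enc_subr 7 20 (c1g.enc h1)) (enc_case (enc_subr 3 10 (c1g.enc h1)) (enc_add (enc_subr 7539 40000 (enc_scale 4209 2500 (c1g.enc h1))) (enc_mul (enc_norm (l1q2_4.enc h1 h2)) (enc_norm (enc_subr 5413 20000 (enc_scale 7781 2500 (c1g.enc h1)))))) (enc_add (enc_subr 17697 200000 (enc_scale 13503 10000 (c1g.enc h1))) (enc_mul (enc_norm (l1q2_4.enc h1 h2)) (enc_norm (enc_subr 6391 20000 (enc_scale 16377 5000 (c1g.enc h1))))))) (enc_case (enc_subr 2 5 (c1g.enc h1)) (enc_add (enc_add (enc_scale 8689 10000 (c1g.enc h1)) (enc_rat _ 16001 200000))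 (enc_mul (enc_norm (l1q2_4.enc h1 h2)) (enc_norm (enc_subr 16051 50000 (enc_scale 8199 2500 (c1g.enc h1)))))) (enc_case (enc_subr 9 20 (c1g.enc h1)) (enc_add (enc_add (enc_scale 22627 50000 (c1g.enc h1)) (enc_rat _ 246549 1000000)) (enc_mul (enc_norm (l1q2_4.enc h1 h2)) (enc_norm (enc_add (enc_scale 292 125 (c1g.enc h1)) (enc_rat _ 2821 50000))))) (enc_add (enc_add (enc_scale 3072103 12500000 (c1g.enc h1)) (enc_rat _ 84899073 250000000)) (enc_mul (enc_norm (l1q2_4.enc h1 h2)) (enc_norm (enc_add (enc_scale 46515897 25000000 (c1g.enc h1)) (enc_rat _ 135166927 500000000)))))))))) (enc_mul (epg.enc h2) (enc_norm (enc_sub (enc_pnc _ 1) (enc_nat 2 (c1g.enc h1))))))))))⟩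
noncomputable def kc1q2_4 : Fn2 := ⟨_, _, fun h1 h2 => (enc_subr 72 125 h2)⟩
noncomputable def kc1q2_8 : Fn2 := ⟨_, _, fun h1 h2 => (enc_add (enc_scale 23233 10000 (kc1q2_4.enc h1 h2)) (enc_rat _ 5111 20000))⟩
noncomputable def kc1q2 : Fn2 := ⟨_, _, fun h1 h2 => (enc_norm (enc_mul (cv1p.enc h1) (enc_norm (enc_case (enc_sub (enc_pnc _ 1) (enc_scale 3 4 (enc_sq h1))) (enc_add (kc1q2_8.enc h1 h2) (enc_case (enc_subr 231 200 h1) (enc_pnc _ 0) (enc_add (enc_subr 148853397 11500000 (enc_scale 644387 57500 h1)) (enc_mul (enc_norm (kc1q2_4.enc h1 h2)) (enc_norm (enc_sub (enc_rat _ 28874153 575000) (enc_scale 374989 8625 h1))))))) (enc_add (kc1q2_8.enc h1 h2) (enc_case (enc_subr 1 4 (c1g.enc h1)) (enc_sub (enc_neg (enc_scale 126111 250000 (c1g.enc h1))) (enc_mul (enc_norm (kc1q2_4.enc h1 h2)) (enc_scale 76593 25000 (c1g.enc h1)))) (enc_add (enc_sub (enc_rat _ 52 15625) (enc_scale 129439 250000 (c1g.enc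 h1))) (enc_mul (enc_norm (kc1q2_4.enc h1 h2)) (enc_norm (enc_sub (enc_rat _ 9893 12500) (enc_scale 155737 25000 (c1g.enc h1))))))))))))⟩
noncomputable def kf2q2_4 : Fn2 := ⟨_, _, fun h1 h2 => (enc_subr 72 125 h2)⟩
noncomputable def kf2q2 : Fn2 := ⟨_, _, fun h1 h2 => (enc_norm (enc_mul (cv2p.enc h1) (enc_norm (enc_case (enc_sub (enc_pnc _ 1) (enc_scale 3 4 (enc_sq h1))) (enc_case (enc_subr 127 100 h1) (enc_add (enc_sub (enc_rat _ 29134971 5800000) (enc_scale 110307 29000 h1)) (enc_mul (enc_norm (kf2q2_4.enc h1 h2)) (enc_norm (enc_subr 5183269 2900000 (enc_scale 4261 2900 h1))))) (enc_case (enc_subr 69 50 h1) (enc_add (enc_sub (enc_rat _ 10803651 2200000) (enc_scale 20433 5500 h1)) (enc_mul (enc_norm (kf2q2_4.enc h1 h2)) (enc_norm (enc_sub (enc_rat _ 1128213 1100000) (enc_scale 4101 5500 h1))))) (enc_add (enc_sub (enc_rat _ 9798917 2000000) (enc_scale 444829 120000 h1)) (enc_mul (enc_norm (kf2q2_4.enc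 h1 h2)) (enc_norm (enc_sub (enc_rat _ 71751 40000) (enc_scale 5209 4000 h1))))))) (enc_case (enc_subr 1 4 (c1g.enc h1)) (enc_case (enc_subr 1 10 (c1g.enc h1)) (enc_case (enc_subr 1 20 (c1g.enc h1)) (enc_add (enc_add (enc_scale 30449 50000 (c1g.enc h1)) (enc_rat _ 630861 1000000)) (enc_mul (enc_norm (kf2q2_4.enc h1 h2)) (enc_norm (enc_subr 4823 50000 (enc_neg (enc_scale 269 5000 (c1g.enc h1))))))) (enc_add (enc_add (enc_scale 32723 50000 (c1g.enc h1)) (enc_rat _ 628587 1000000)) (enc_mul (enc_norm (kf2q2_4.enc h1 h2)) (enc_norm (enc_subr 4561 50000 (enc_neg (enc_scale 793 5000 (c1g.enc h1)))))))) (enc_case (enc_subr 3 20 (c1g.enc h1)) (enc_add (enc_add (enc_scale 1819 2500 (c1g.enc h1)) (enc_rat _ 621273 1000000)) (enc_mul (enc_norm (kf2q2_4.enc h1 h2)) (enc_norm (enc_subr 2431 25000 (enc_neg (enc_scale 123 1250 (c1g.enc h1))))))) (enc_case (enc_subr 1 5 (c1g.enc h1)) (enc_add (enc_add (enc_scale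 41101 50000 (c1g.enc h1)) (enc_rat _ 60711 100000)) (enc_mul (enc_norm (kf2q2_4.enc h1 h2)) (enc_norm (enc_subr 5741 50000 (enc_scale 47 2500 (c1g.enc h1)))))) (enc_add (enc_add (enc_scale 9119 10000 (c1g.enc h1)) (enc_rat _ 294567 500000)) (enc_mul (enc_norm (kf2q2_4.enc h1 h2)) (enc_norm (enc_subr 6727 50000 (enc_scale 587 5000 (c1g.enc h1))))))))) (enc_case (enc_subr 7 20 (c1g.enc h1)) (enc_case (enc_subr 3 10 (c1g.enc h1)) (enc_add (enc_add (enc_scale 12089 12500 (c1g.enc h1)) (enc_rat _ 575329 1000000)) (enc_mul (enc_norm (kf2q2_4.enc h1 h2)) (enc_norm (enc_subr 467 3125 (enc_scale 177 1000 (c1g.enc h1)))))) (enc_add (enc_add (enc_scale 12209 12500 (c1g.enc h1)) (enc_rat _ 572449 1000000)) (enc_mul (enc_norm (kf2q2_4.enc h1 h2)) (enc_norm (enc_subr 1729 10000 (enc_scale 319 1250 (c1g.enc h1))))))) (enc_case (enc_subr 2 5 (c1g.enc h1)) (enc_add (enc_add (enc_scale 47007 50000 (c1g.enc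 h1)) (enc_rat _ 146313 250000)) (enc_mul (enc_norm (kf2q2_4.enc h1 h2)) (enc_norm (enc_subr 21469 100000 (enc_scale 1873 5000 (c1g.enc h1)))))) (enc_case (enc_subr 9 20 (c1g.enc h1)) (enc_add (enc_add (enc_scale 23063 50000 (c1g.enc h1)) (enc_rat _ 194201 250000)) (enc_mul (enc_norm (kf2q2_4.enc h1 h2)) (enc_norm (enc_subr 29541 100000 (enc_scale 1441 2500 (c1g.enc h1)))))) (enc_add (enc_add (enc_scale 15629 50000 (c1g.enc h1)) (enc_rat _ 84371 100000)) (enc_mul (enc_norm (kf2q2_4.enc h1 h2)) (enc_norm (enc_subr 3603 10000 (enc_scale 3603 5000 (c1g.enc h1))))))))))))))⟩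
noncomputable def l2q2_4 : Fn2 := ⟨_, _, fun h1 h2 => (enc_subr 72 125 h2)⟩
noncomputable def l2q2 : Fn2 := ⟨_, _, fun h1 h2 => (enc_norm (enc_mul (cv2p.enc h1) (enc_norm (enc_case (enc_sub (enc_pnc _ 1) (enc_scale 3 4 (enc_sq h1))) (enc_case (enc_subr 127 100 h1) (enc_add (enc_subr 95277871 29000000 (enc_scale 143629 58000 h1)) (enc_mul (enc_norm (l2q2_4.enc h1 h2)) (enc_norm (enc_subr 2991341 1160000 (enc_scale 14051 11600 h1))))) (enc_case (enc_subr 69 50 h1) (enc_add (enc_subr 36085421 11000000 (enc_scale 271971 110000 h1)) (enc_mul (enc_norm (l2q2_4.enc h1 h2)) (enc_norm (enc_subr 400029 275000 (enc_scale 897 2750 h1))))) (enc_add (enc_subr 3271297 1000000 (enc_scale 12329 5000 h1)) (enc_mul (enc_norm (l2q2_4.enc h1 h2)) (enc_norm (enc_subr 281979 200000 (enc_scale 47 160 h1))))))) (enc_case (enc_subr 1 4 (c1g.enc h1)) (enc_case (enc_subr 1 10 (c1g.enc h1)) (enc_case (enc_subr 1 20 (c1g.enc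 h1)) (enc_add (enc_subr 425983 1000000 (enc_scale 47653 50000 (c1g.enc h1))) (enc_mul (enc_norm (l2q2_4.enc h1 h2)) (enc_norm (enc_subr 59001 50000 (enc_scale 623 250 (c1g.enc h1)))))) (enc_add (enc_subr 430561 1000000 (enc_scale 52231 50000 (c1g.enc h1))) (enc_mul (enc_norm (l2q2_4.enc h1 h2)) (enc_norm (enc_subr 120723 100000 (enc_scale 15181 5000 (c1g.enc h1))))))) (enc_case (enc_subr 3 20 (c1g.enc h1)) (enc_add (enc_subr 432393 1000000 (enc_scale 53147 50000 (c1g.enc h1))) (enc_mul (enc_norm (l2q2_4.enc h1 h2)) (enc_norm (enc_subr 113867 100000 (enc_scale 11753 5000 (c1g.enc h1)))))) (enc_case (enc_subr 1 5 (c1g.enc h1)) (enc_add (enc_subr 225219 500000 (enc_scale 29581 25000 (c1g.enc h1))) (enc_mul (enc_norm (l2q2_4.enc h1 h2)) (enc_norm (enc_subr 11657 10000 (enc_scale 6327 2500 (c1g.enc h1)))))) (enc_add (enc_subr 228613 500000 (enc_scale 60859 50000 (c1g.enc h1))) (enc_mul (enc_norm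 (l2q2_4.enc h1 h2)) (enc_norm (enc_subr 65151 50000 (enc_scale 16087 5000 (c1g.enc h1))))))))) (enc_case (enc_subr 7 20 (c1g.enc h1)) (enc_case (enc_subr 3 10 (c1g.enc h1)) (enc_add (enc_subr 217743 500000 (enc_scale 56511 50000 (c1g.enc h1))) (enc_mul (enc_norm (l2q2_4.enc h1 h2)) (enc_norm (enc_subr 32753 25000 (enc_scale 16229 5000 (c1g.enc h1)))))) (enc_add (enc_subr 172713 500000 (enc_scale 41501 50000 (c1g.enc h1))) (enc_mul (enc_norm (l2q2_4.enc h1 h2)) (enc_norm (enc_subr 27317 25000 (enc_scale 2521 1000 (c1g.enc h1))))))) (enc_case (enc_subr 2 5 (c1g.enc h1)) (enc_add (enc_subr 258493 1000000 (enc_scale 14541 25000 (c1g.enc h1))) (enc_mul (enc_norm (l2q2_4.enc h1 h2)) (enc_norm (enc_subr 16199 20000 (enc_scale 4283 2500 (c1g.enc h1)))))) (enc_case (enc_subr 9 20 (c1g.enc h1)) (enc_add (enc_subr 146061 1000000 (enc_scale 3757 12500 (c1g.enc h1))) (enc_mul (enc_norm (l2q2_4.enc h1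 h2)) (enc_norm (enc_subr 61003 100000 (enc_scale 6067 5000 (c1g.enc h1)))))) (enc_add (enc_subr 10809 100000 (enc_scale 10809 50000 (c1g.enc h1))) (enc_mul (enc_norm (l2q2_4.enc h1 h2)) (enc_norm (enc_subr 16 25 (enc_scale 32 25 (c1g.enc h1))))))))))))))⟩
noncomputable def kc2q2_4 : Fn2 := ⟨_, _, fun h1 h2 => (enc_subr 72 125 h2)⟩
noncomputable def kc2q2 : Fn2 := ⟨_, _, fun h1 h2 => (enc_norm (enc_mul (cv2p.enc h1) (enc_norm (enc_case (enc_sub (enc_pnc _ 1) (enc_scale 3 4 (enc_sq h1))) (enc_add (enc_subr 338370899 43250000 (enc_scale 2727311 346000 h1)) (enc_mul (enc_norm (kc2q2_4.enc h1 h2)) (enc_norm (enc_sub (enc_rat _ 176243561 3460000) (enc_scale 1520949 34600 h1))))) (enc_case (enc_subr 1 4 (c1g.enc h1)) (enc_add (enc_sub (enc_rat _ 1278141 1000000) (enc_scale 41894 15625 (c1g.enc h1))) (enc_mul (enc_norm (kc2q2_4.enc h1 h2)) (enc_norm (enc_add (enc_scale 18567 25000 (c1g.enc h1)) (enc_rat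 _ 18001 100000))))) (enc_add (enc_sub (enc_rat _ 607837 500000) (enc_scale 607837 250000 (c1g.enc h1))) (enc_mul (enc_norm (kc2q2_4.enc h1 h2)) (enc_norm (enc_sub (enc_rat _ 4571 6250) (enc_scale 4571 3125 (c1g.enc h1)))))))))))⟩
noncomputable def kf3q2_4 : Fn2 := ⟨_, _, fun h1 h2 => (enc_subr 72 125 h2)⟩
noncomputable def kf3q2 : Fn2 := ⟨_, _, fun h1 h2 => (enc_norm (enc_mul (cv3p.enc h1) (enc_norm (enc_case (enc_sub (enc_pnc _ 1) (enc_scale 3 4 (enc_sq h1))) (enc_case (enc_subr 127 100 h1) (enc_add (enc_sub (enc_rat _ 10287623 2320000) (enc_scale 390219 116000 h1)) (enc_mul (enc_norm (kf3q2_4.enc h1 h2)) (enc_norm (enc_sub (enc_rat _ 722613 290000) (enc_scale 9049 5800 h1))))) (enc_case (enc_subr 69 50 h1) (enc_add (enc_sub (enc_rat _ 47642999 11000000) (enc_scale 180551 55000 h1)) (enc_mul (enc_norm (kf3q2_4.enc h1 h2)) (enc_norm (enc_sub (enc_rat _ 436859 68750) (enc_scale 50617 11000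 h1))))) (enc_add (enc_sub (enc_rat _ 1715193 400000) (enc_scale 390173 120000 h1)) (enc_mul (enc_norm (kf3q2_4.enc h1 h2)) (enc_norm (enc_sub (enc_rat _ 346221 50000) (enc_scale 3761 750 h1))))))) (enc_case (enc_subr 1 4 (c1g.enc h1)) (enc_case (enc_subr 1 10 (c1g.enc h1)) (enc_case (enc_subr 1 20 (c1g.enc h1)) (enc_add (enc_add (enc_scale 27601 25000 (c1g.enc h1)) (enc_rat _ 22051 40000)) (enc_mul (enc_norm (kf3q2_4.enc h1 h2)) (enc_norm (enc_sub (enc_rat _ 13001 20000) (enc_scale 4613 1250 (c1g.enc h1)))))) (enc_add (enc_add (enc_scale 1371 1250 (c1g.enc h1)) (enc_rat _ 551637 1000000)) (enc_mul (enc_norm (kf3q2_4.enc h1 h2)) (enc_norm (enc_sub (enc_rat _ 12751 20000) (enc_scale 8601 2500 (c1g.enc h1))))))) (enc_case (enc_subr 3 20 (c1g.enc h1)) (enc_add (enc_add (enc_scale 6803 6250 (c1g.enc h1)) (enc_rat _ 552469 1000000)) (enc_mul (enc_norm (kf3q2_4.enc h1 h2)) (enc_norm (enc_sub (enc_rat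 _ 58479 100000) (enc_scale 3641 1250 (c1g.enc h1)))))) (enc_case (enc_subr 1 5 (c1g.enc h1)) (enc_add (enc_add (enc_scale 26869 25000 (c1g.enc h1)) (enc_rat _ 554527 1000000)) (enc_mul (enc_norm (kf3q2_4.enc h1 h2)) (enc_norm (enc_sub (enc_rat _ 48171 100000) (enc_scale 1391 625 (c1g.enc h1)))))) (enc_add (enc_add (enc_scale 10471 10000 (c1g.enc h1)) (enc_rat _ 560059 1000000)) (enc_mul (enc_norm (kf3q2_4.enc h1 h2)) (enc_norm (enc_sub (enc_rat _ 35631 100000) (enc_scale 7993 5000 (c1g.enc h1))))))))) (enc_case (enc_subr 7 20 (c1g.enc h1)) (enc_case (enc_subr 3 10 (c1g.enc h1)) (enc_add (enc_add (enc_scale 9871 10000 (c1g.enc h1)) (enc_rat _ 575059 1000000)) (enc_mul (enc_norm (kf3q2_4.enc h1 h2)) (enc_norm (enc_sub (enc_rat _ 8633 50000) (enc_scale 108 125 (c1g.enc h1)))))) (enc_add (enc_add (enc_scale 44287 50000 (c1g.enc h1)) (enc_rat _ 605467 1000000)) (enc_mul (enc_norm (kf3q2_4.enc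 h1 h2)) (enc_norm (enc_subr 173 6250 (enc_neg (enc_scale 981 5000 (c1g.enc h1)))))))) (enc_case (enc_subr 2 5 (c1g.enc h1)) (enc_add (enc_add (enc_scale 18503 25000 (c1g.enc h1)) (enc_rat _ 328217 500000)) (enc_mul (enc_norm (kf3q2_4.enc h1 h2)) (enc_norm (enc_subr 678 3125 (enc_scale 1723 5000 (c1g.enc h1)))))) (enc_case (enc_subr 9 20 (c1g.enc h1)) (enc_add (enc_add (enc_scale 337 625 (c1g.enc h1)) (enc_rat _ 368401 500000)) (enc_mul (enc_norm (kf3q2_4.enc h1 h2)) (enc_norm (enc_subr 4721 12500 (enc_scale 933 1250 (c1g.enc h1)))))) (enc_add (enc_add (enc_scale 10279 25000 (c1g.enc h1)) (enc_rat _ 39721 50000)) (enc_mul (enc_norm (kf3q2_4.enc h1 h2)) (enc_norm (enc_subr 209 500 (enc_scale 209 250 (c1g.enc h1))))))))))))))⟩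
noncomputable def l3q2_4 : Fn2 := ⟨_, _, fun h1 h2 => (enc_subr 72 125 h2)⟩
noncomputable def l3q2 : Fn2 := ⟨_, _, fun h1 h2 => (enc_norm (enc_mul (cv3p.enc h1) (enc_norm (enc_case (enc_sub (enc_pnc _ 1) (enc_scale 3 4 (enc_sq h1))) (enc_case (enc_subr 127 100 h1) (enc_add (enc_subr 122638051 58000000 (enc_scale 181247 116000 h1)) (enc_mul (enc_norm (l3q2_4.enc h1 h2)) (enc_norm (enc_subr 13373709 2900000 (enc_scale 18943 5800 h1))))) (enc_case (enc_subr 69 50 h1) (enc_add (enc_subr 34481657 11000000 (enc_scale 3253 1375 h1)) (enc_mul (enc_norm (l3q2_4.enc h1 h2)) (enc_norm (enc_sub (enc_rat _ 392247 55000) (enc_scale 16447 2750 h1))))) (enc_add (enc_subr 510821 200000 (enc_scale 19451 10000 h1)) (enc_mul (enc_norm (l3q2_4.enc h1 h2)) (enc_norm (enc_subr 1656561 200000 (enc_scale 20757 4000 h1))))))) (enc_case (enc_subr 1 4 (c1g.enc h1)) (enc_case (enc_subr 1 10 (c1g.enc h1)) (enc_case (enc_subr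 1 20 (c1g.enc h1)) (enc_add (enc_subr 62061 200000 (enc_scale 2423 2500 (c1g.enc h1))) (enc_mul (enc_norm (l3q2_4.enc h1 h2)) (enc_norm (enc_subr 16779 20000 (enc_scale 10467 5000 (c1g.enc h1)))))) (enc_add (enc_subr 154773 500000 (enc_scale 47701 50000 (c1g.enc h1))) (enc_mul (enc_norm (l3q2_4.enc h1 h2)) (enc_norm (enc_subr 83581 100000 (enc_scale 10153 5000 (c1g.enc h1))))))) (enc_case (enc_subr 3 20 (c1g.enc h1)) (enc_add (enc_subr 152479 500000 (enc_scale 45407 50000 (c1g.enc h1))) (enc_mul (enc_norm (l3q2_4.enc h1 h2)) (enc_norm (enc_subr 15937 20000 (enc_scale 1641 1000 (c1g.enc h1)))))) (enc_case (enc_subr 1 5 (c1g.enc h1)) (enc_add (enc_subr 14731 50000 (enc_scale 41961 50000 (c1g.enc h1))) (enc_mul (enc_norm (l3q2_4.enc h1 h2)) (enc_norm (enc_subr 73907 100000 (enc_scale 6279 5000 (c1g.enc h1)))))) (enc_add (enc_subr 17399 62500 (enc_scale 18951 25000 (c1g.enc h1))) (enc_mul (enc_norm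 (l3q2_4.enc h1 h2)) (enc_norm (enc_subr 69623 100000 (enc_scale 651 625 (c1g.enc h1))))))))) (enc_case (enc_subr 7 20 (c1g.enc h1)) (enc_case (enc_subr 3 10 (c1g.enc h1)) (enc_add (enc_subr 237799 1000000 (enc_scale 5957 10000 (c1g.enc h1))) (enc_mul (enc_norm (l3q2_4.enc h1 h2)) (enc_norm (enc_subr 38539 50000 (enc_scale 6699 5000 (c1g.enc h1)))))) (enc_add (enc_subr 198727 1000000 (enc_scale 23273 50000 (c1g.enc h1))) (enc_mul (enc_norm (l3q2_4.enc h1 h2)) (enc_norm (enc_subr 43759 50000 (enc_scale 8439 5000 (c1g.enc h1))))))) (enc_case (enc_subr 2 5 (c1g.enc h1)) (enc_add (enc_subr 7381 50000 (enc_scale 3993 12500 (c1g.enc h1))) (enc_mul (enc_norm (l3q2_4.enc h1 h2)) (enc_norm (enc_subr 96891 100000 (enc_scale 4889 2500 (c1g.enc h1)))))) (enc_case (enc_subr 9 20 (c1g.enc h1)) (enc_add (enc_subr 26431 250000 (enc_scale 2147 10000 (c1g.enc h1))) (enc_mul (enc_norm (l3q2_4.enc h1 h2)) (enc_norm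 (enc_subr 19903 20000 (enc_scale 5053 2500 (c1g.enc h1)))))) (enc_add (enc_subr 9109 100000 (enc_scale 9109 50000 (c1g.enc h1))) (enc_mul (enc_norm (l3q2_4.enc h1 h2)) (enc_norm (enc_subr 8561 10000 (enc_scale 8561 5000 (c1g.enc h1))))))))))))))⟩
noncomputable def kc3q2_4 : Fn2 := ⟨_, _, fun h1 h2 => (enc_subr 72 125 h2)⟩
noncomputable def kc3q2 : Fn2 := ⟨_, _, fun h1 h2 => (enc_norm (enc_mul (cv3p.enc h1) (enc_norm (enc_case (enc_sub (enc_pnc _ 1) (enc_scale 3 4 (enc_sq h1))) (enc_add (enc_subr 1124460423 173000000 (enc_scale 2421947 346000 h1)) (enc_mul (enc_norm (kc3q2_4.enc h1 h2)) (enc_norm (enc_sub (enc_rat _ 408249173 8650000) (enc_scale 179333 4325 h1))))) (enc_case (enc_subr 1 4 (c1g.enc h1)) (enc_add (enc_sub (enc_rat _ 98929 62500) (enc_scale 1112967 250000 (c1g.enc h1))) (enc_mul (enc_norm (kc3q2_4.enc h1 h2)) (enc_norm (enc_subr 67867 100000 (enc_scale 187923 25000 (c1g.enc h1))))))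 (enc_add (enc_sub (enc_rat _ 469897 500000) (enc_scale 469897 250000 (c1g.enc h1))) (enc_mul (enc_norm (kc3q2_4.enc h1 h2)) (enc_norm (enc_sub (enc_rat _ 15007 6250) (enc_scale 15007 3125 (c1g.enc h1)))))))))))⟩
noncomputable def kf4q2_4 : Fn2 := ⟨_, _, fun h1 h2 => (enc_subr 72 125 h2)⟩
noncomputable def kf4q2 : Fn2 := ⟨_, _, fun h1 h2 => (enc_norm (enc_mul (cv4p.enc h1) (enc_norm (enc_case (enc_sub (enc_pnc _ 1) (enc_scale 3 4 (enc_sq h1))) (enc_case (enc_subr 127 100 h1) (enc_add (enc_sub (enc_rat _ 56179379 11600000) (enc_scale 421217 116000 h1)) (enc_mul (enc_norm (kf4q2_4.enc h1 h2)) (enc_norm (enc_sub (enc_rat _ 62151847 5800000) (enc_scale 3983 464 h1))))) (enc_case (enc_subr 69 50 h1) (enc_add (enc_sub (enc_rat _ 5602661 1000000) (enc_scale 42293 10000 h1)) (enc_mul (enc_norm (kf4q2_4.enc h1 h2)) (enc_norm (enc_subr 736141 100000 (enc_scale 113 20 h1))))) (enc_add (enc_sub (enc_rat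 _ 2600217 2000000) (enc_scale 133381 120000 h1)) (enc_mul (enc_norm (kf4q2_4.enc h1 h2)) (enc_norm (enc_sub (enc_rat _ 1613309 100000) (enc_scale 91 8 h1))))))) (enc_case (enc_subr 1 4 (c1g.enc h1)) (enc_case (enc_subr 1 10 (c1g.enc h1)) (enc_case (enc_subr 1 20 (c1g.enc h1)) (enc_add (enc_add (enc_scale 10279 12500 (c1g.enc h1)) (enc_rat _ 649681 1000000)) (enc_mul (enc_norm (kf4q2_4.enc h1 h2)) (enc_norm (enc_sub (enc_rat _ 81487 100000) (enc_scale 11757 2500 (c1g.enc h1)))))) (enc_add (enc_add (enc_scale 20783 25000 (c1g.enc h1)) (enc_rat _ 649231 1000000)) (enc_mul (enc_norm (kf4q2_4.enc h1 h2)) (enc_norm (enc_sub (enc_rat _ 8141 10000) (enc_scale 23437 5000 (c1g.enc h1))))))) (enc_case (enc_subr 3 20 (c1g.enc h1)) (enc_add (enc_add (enc_scale 10419 12500 (c1g.enc h1)) (enc_rat _ 649011 1000000)) (enc_mul (enc_norm (kf4q2_4.enc h1 h2)) (enc_norm (enc_sub (enc_rat _ 9643 12500) (enc_scale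 2663 625 (c1g.enc h1)))))) (enc_case (enc_subr 1 5 (c1g.enc h1)) (enc_add (enc_add (enc_scale 20653 25000 (c1g.enc h1)) (enc_rat _ 650121 1000000)) (enc_mul (enc_norm (kf4q2_4.enc h1 h2)) (enc_norm (enc_sub (enc_rat _ 2591 4000) (enc_scale 17181 5000 (c1g.enc h1)))))) (enc_add (enc_add (enc_scale 319 400 (c1g.enc h1)) (enc_rat _ 131169 200000)) (enc_mul (enc_norm (kf4q2_4.enc h1 h2)) (enc_norm (enc_sub (enc_rat _ 43303 100000) (enc_scale 11813 5000 (c1g.enc h1))))))))) (enc_case (enc_subr 7 20 (c1g.enc h1)) (enc_case (enc_subr 3 10 (c1g.enc h1)) (enc_add (enc_add (enc_scale 18077 25000 (c1g.enc h1)) (enc_rat _ 13489 20000)) (enc_mul (enc_norm (kf4q2_4.enc h1 h2)) (enc_norm (enc_sub (enc_rat _ 2187 25000) (enc_scale 2451 2500 (c1g.enc h1)))))) (enc_add (enc_add (enc_scale 1541 2500 (c1g.enc h1)) (enc_rat _ 353227 500000)) (enc_mul (enc_norm (kf4q2_4.enc h1 h2)) (enc_norm (enc_subr 15231 50000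 (enc_scale 1633 5000 (c1g.enc h1))))))) (enc_case (enc_subr 2 5 (c1g.enc h1)) (enc_add (enc_add (enc_scale 5609 10000 (c1g.enc h1)) (enc_rat _ 725879 1000000)) (enc_mul (enc_norm (kf4q2_4.enc h1 h2)) (enc_norm (enc_subr 56467 100000 (enc_scale 1337 1250 (c1g.enc h1)))))) (enc_case (enc_subr 9 20 (c1g.enc h1)) (enc_add (enc_add (enc_scale 2621 5000 (c1g.enc h1)) (enc_rat _ 740559 1000000)) (enc_mul (enc_norm (kf4q2_4.enc h1 h2)) (enc_norm (enc_subr 70259 100000 (enc_scale 884 625 (c1g.enc h1)))))) (enc_add (enc_add (enc_scale 23551 50000 (c1g.enc h1)) (enc_rat _ 76449 100000)) (enc_mul (enc_norm (kf4q2_4.enc h1 h2)) (enc_norm (enc_subr 6611 10000 (enc_scale 6611 5000 (c1g.enc h1))))))))))))))⟩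
noncomputable def l4q2_4 : Fn2 := ⟨_, _, fun h1 h2 => (enc_subr 72 125 h2)⟩
noncomputable def l4q2 : Fn2 := ⟨_, _, fun h1 h2 => (enc_norm (enc_mul (cv4p.enc h1) (enc_norm (enc_case (enc_sub (enc_pnc _ 1) (enc_scale 3 4 (enc_sq h1))) (enc_case (enc_subr 127 100 h1) (enc_add (enc_subr 13765919 29000000 (enc_scale 20601 58000 h1)) (enc_mul (enc_norm (l4q2_4.enc h1 h2)) (enc_norm (enc_subr 12931747 5800000 (enc_scale 18499 11600 h1))))) (enc_case (enc_subr 69 50 h1) (enc_add (enc_subr 362711 343750 (enc_scale 22337 27500 h1)) (enc_mul (enc_norm (l4q2_4.enc h1 h2)) (enc_norm (enc_subr 258967 275000 (enc_scale 6387 11000 h1))))) (enc_add (enc_subr 3531637 2000000 (enc_scale 53089 40000 h1)) (enc_mul (enc_norm (l4q2_4.enc h1 h2)) (enc_norm (enc_sub (enc_rat _ 241097 100000) (enc_scale 11093 6000 h1))))))) (enc_case (enc_subr 1 4 (c1g.enc h1)) (enc_case (enc_subr 1 10 (c1g.enc h1)) (enc_case (enc_subr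 1 20 (c1g.enc h1)) (enc_add (enc_subr 6451 100000 (enc_scale 17749 50000 (c1g.enc h1))) (enc_mul (enc_norm (l4q2_4.enc h1 h2)) (enc_norm (enc_subr 19461 50000 (enc_scale 2353 2500 (c1g.enc h1)))))) (enc_add (enc_subr 62389 1000000 (enc_scale 3907 12500 (c1g.enc h1))) (enc_mul (enc_norm (l4q2_4.enc h1 h2)) (enc_norm (enc_subr 10051 25000 (enc_scale 1497 1250 (c1g.enc h1))))))) (enc_case (enc_subr 3 20 (c1g.enc h1)) (enc_add (enc_subr 52467 1000000 (enc_scale 10667 50000 (c1g.enc h1))) (enc_mul (enc_norm (l4q2_4.enc h1 h2)) (enc_norm (enc_subr 3703 10000 (enc_scale 4401 5000 (c1g.enc h1)))))) (enc_case (enc_subr 1 5 (c1g.enc h1)) (enc_add (enc_subr 36801 1000000 (enc_scale 1089 10000 (c1g.enc h1))) (enc_mul (enc_norm (l4q2_4.enc h1 h2)) (enc_norm (enc_subr 29017 100000 (enc_scale 173 500 (c1g.enc h1)))))) (enc_add (enc_subr 27489 1000000 (enc_scale 3117 50000 (c1g.enc h1))) (enc_mul (enc_norm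 (l4q2_4.enc h1 h2)) (enc_norm (enc_subr 25333 100000 (enc_scale 809 5000 (c1g.enc h1))))))))) (enc_case (enc_subr 7 20 (c1g.enc h1)) (enc_case (enc_subr 3 10 (c1g.enc h1)) (enc_add (enc_subr 11487 500000 (enc_scale 1107 25000 (c1g.enc h1))) (enc_mul (enc_norm (l4q2_4.enc h1 h2)) (enc_norm (enc_subr 27753 100000 (enc_scale 1293 5000 (c1g.enc h1)))))) (enc_add (enc_subr 2091 100000 (enc_scale 187 5000 (c1g.enc h1))) (enc_mul (enc_norm (l4q2_4.enc h1 h2)) (enc_norm (enc_subr 37389 100000 (enc_scale 2899 5000 (c1g.enc h1))))))) (enc_case (enc_subr 2 5 (c1g.enc h1)) (enc_add (enc_subr 4867 250000 (enc_scale 104 3125 (c1g.enc h1))) (enc_mul (enc_norm (l4q2_4.enc h1 h2)) (enc_norm (enc_subr 51571 100000 (enc_scale 197 200 (c1g.enc h1)))))) (enc_case (enc_subr 9 20 (c1g.enc h1)) (enc_add (enc_subr 5333 250000 (enc_scale 1897 50000 (c1g.enc h1))) (enc_mul (enc_norm (l4q2_4.enc h1 h2)) (enc_norm (enc_subr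 62163 100000 (enc_scale 6249 5000 (c1g.enc h1)))))) (enc_add (enc_subr 4259 100000 (enc_scale 4259 50000 (c1g.enc h1))) (enc_mul (enc_norm (l4q2_4.enc h1 h2)) (enc_norm (enc_subr 2961 5000 (enc_scale 2961 2500 (c1g.enc h1))))))))))))))⟩
noncomputable def kc4q2_4 : Fn2 := ⟨_, _, fun h1 h2 => (enc_subr 72 125 h2)⟩
noncomputable def kc4q2 : Fn2 := ⟨_, _, fun h1 h2 => (enc_norm (enc_mul (cv4p.enc h1) (enc_norm (enc_case (enc_sub (enc_pnc _ 1) (enc_scale 3 4 (enc_sq h1))) (enc_add (enc_subr 214234479 17300000 (enc_scale 1821317 173000 h1)) (enc_mul (enc_norm (kc4q2_4.enc h1 h2)) (enc_norm (enc_sub (enc_rat _ 1379889161 17300000) (enc_scale 1015923 17300 h1))))) (enc_case (enc_subr 1 4 (c1g.enc h1)) (enc_add (enc_subr 4537 20000 (enc_scale 14413 10000 (c1g.enc h1))) (enc_mul (enc_norm (kc4q2_4.enc h1 h2)) (enc_norm (enc_sub (enc_rat _ 1194961 100000) (enc_scale 153401 5000 (c1g.enc h1)))))) (enc_add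 (enc_sub (enc_rat _ 5339 20000) (enc_scale 5339 10000 (c1g.enc h1))) (enc_mul (enc_norm (kc4q2_4.enc h1 h2)) (enc_norm (enc_sub (enc_rat _ 106989 12500) (enc_scale 106989 6250 (c1g.enc h1)))))))))))⟩

noncomputable def ndB0q0 : Node := ⟨idf, c1g, kf0q0, l0q0⟩
noncomputable def cd0q0 : Fn2 := kc0q0
noncomputable def ndB0q1 : Node := ⟨idf, c1g, kf0q1, l0q1⟩
noncomputable def cd0q1 : Fn2 := kc0q1
noncomputable def ndB0q2 : Node := ⟨yag, idf, kfc02, lc02⟩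
noncomputable def cd0q2 : Fn2 := kcc02
noncomputable def ndB1q0 : Node := ⟨idf, cv1m, kf1q0, l1q0⟩
noncomputable def cd1q0 : Fn2 := kc1q0
noncomputable def ndB1q1 : Node := ⟨idf, cv1m, kf1q1, l1q1⟩
noncomputable def cd1q1 : Fn2 := kc1q1
noncomputable def ndB1q2a : Node := ⟨yag, xc12a, kfc12a, lc12a⟩
noncomputable def cd1q2a : Fn2 := kcc12a
noncomputable def ndB1q2b : Node := ⟨idf, xc12b, kfc12b, lc12b⟩
noncomputable def cd1q2b : Fn2 := kcc12b
noncomputable def ndB1q3 : Node := ⟨idf, cv1r, kf1q3, l1q3⟩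
noncomputable def cd1q3 : Fn2 := kc1q3
noncomputable def ndB2q0 : Node := ⟨idf, cv2m, kf2q0, l2q0⟩
noncomputable def cd2q0 : Fn2 := kc2q0
noncomputable def ndB2q1 : Node := ⟨idf, cv2m, kf2q1, l2q1⟩
noncomputable def cd2q1 : Fn2 := kc2q1
noncomputable def ndB2q2a : Node := ⟨yag, xc22a, kfc22a, lc22a⟩
noncomputable def cd2q2a : Fn2 := kcc22a
noncomputable def ndB2q2b : Node := ⟨idf, xc22b, kfc22b, lc22b⟩
noncomputable def cd2q2b : Fn2 := kcc22b
noncomputable def ndB2q3 : Node := ⟨idf, cv2r, kf2q3, l2q3⟩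
noncomputable def cd2q3 : Fn2 := kc2q3
noncomputable def ndB3q0 : Node := ⟨idf, cv3m, kf3q0, l3q0⟩
noncomputable def cd3q0 : Fn2 := kc3q0
noncomputable def ndB3q1 : Node := ⟨idf, cv3m, kf3q1, l3q1⟩
noncomputable def cd3q1 : Fn2 := kc3q1
noncomputable def ndB3q2a : Node := ⟨yag, xc32a, kfc32a, lc32a⟩
noncomputable def cd3q2a : Fn2 := kcc32a
noncomputable def ndB3q2b : Node := ⟨idf, xc32b, kfc32b, lc32b⟩
noncomputable def cd3q2b : Fn2 := kcc32b
noncomputable def ndB3q3 : Node := ⟨idf, cv3r, kf3q3, l3q3⟩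
noncomputable def cd3q3 : Fn2 := kc3q3
noncomputable def ndB4q0 : Node := ⟨idf, cv4m, kf4q0, l4q0⟩
noncomputable def cd4q0 : Fn2 := kc4q0
noncomputable def ndB4q1 : Node := ⟨idf, cv4m, kf4q1, l4q1⟩
noncomputable def cd4q1 : Fn2 := kc4q1
noncomputable def ndB4q2a : Node := ⟨yag, xc42a, kfc42a, lc42a⟩
noncomputable def cd4q2a : Fn2 := kcc42a
noncomputable def ndB4q2b : Node := ⟨idf, xc42b, kfc42b, lc42b⟩
noncomputable def cd4q2b : Fn2 := kcc42b
noncomputable def ndB4q3 : Node := ⟨idf, cv4r, kf4q3, l4q3⟩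
noncomputable def cd4q3 : Fn2 := kc4q3
noncomputable def ndB5q0 : Node := ⟨idf, cv5m, kf5q0, l5q0⟩
noncomputable def cd5q0 : Fn2 := kc5q0
noncomputable def ndB5q1 : Node := ⟨idf, cv5m, kf5q1, l5q1⟩
noncomputable def cd5q1 : Fn2 := kc5q1
noncomputable def ndB5q2 : Node := ⟨idf, cv5p, kf5q2, l5q2⟩
noncomputable def cd5q2 : Fn2 := kc5q2
noncomputable def ndB5q3 : Node := ⟨ycg, xc53, kfc53, lc53⟩
noncomputable def cd5q3 : Fn2 := kcc53
noncomputable def ndB6q0 : Node := ⟨idf, cv6m, kf6q0, l6q0⟩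
noncomputable def cd6q0 : Fn2 := kc6q0
noncomputable def ndB6q1 : Node := ⟨idf, cv6m, kf6q1, l6q1⟩
noncomputable def cd6q1 : Fn2 := kc6q1
noncomputable def ndB6q2 : Node := ⟨idf, cv6p, kf6q2, l6q2⟩
noncomputable def cd6q2 : Fn2 := kc6q2
noncomputable def ndB6q3 : Node := ⟨ycg, xc63, kfc63, lc63⟩
noncomputable def cd6q3 : Fn2 := kcc63
noncomputable def ndB7q0 : Node := ⟨idf, c3g, kf7q0, l7q0⟩
noncomputable def cd7q0 : Fn2 := kc7q0
noncomputable def ndB7q1 : Node := ⟨idf, c3g, kf7q1, l7q1⟩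
noncomputable def cd7q1 : Fn2 := kc7q1
noncomputable def ndB7q2 : Node := ⟨idf, c3g, kf7q2, l7q2⟩
noncomputable def cd7q2 : Fn2 := kc7q2
noncomputable def ndB7q3 : Node := ⟨ycg, idf, kfc73, lc73⟩
noncomputable def cd7q3 : Fn2 := kcc73
noncomputable def pcB0 : Piece := ⟨rsbq0, rlq0⟩
noncomputable def pcB1 : Piece := ⟨rsbq1, rlq1⟩
noncomputable def pcB2 : Piece := ⟨rsbq2, rlq2⟩
noncomputable def pcB3 : Piece := ⟨rsbq3, rlq3⟩
noncomputable def ndB1q2 : Node := ⟨idf, cv1p, kf1q2, l1q2⟩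
noncomputable def cd1q2 : Fn2 := kc1q2
noncomputable def ndB2q2 : Node := ⟨idf, cv2p, kf2q2, l2q2⟩
noncomputable def cd2q2 : Fn2 := kc2q2
noncomputable def ndB3q2 : Node := ⟨idf, cv3p, kf3q2, l3q2⟩
noncomputable def cd3q2 : Fn2 := kc3q2
noncomputable def ndB4q2 : Node := ⟨idf, cv4p, kf4q2, l4q2⟩
noncomputable def cd4q2 : Fn2 := kc4q2
end Pool.Agent.Strip051.G.I5470_6050.Tab
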