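import Pool.Agent.Strip051.G.I5470_6050.MolD

/-! # The tight charts of a table: certificates (generated) -/

set_option linter.all false
set_option maxRecDepth 100000

namespace Pool.Agent.Strip051.G.I5470_6050.Tab.Mo

open Pool.Agent.Strip051.PB Pool.Agent.Strip051.PB.Mol Pool.Agent.Strip051.PB.T
open Pool.Agent.Strip051.G.I5470_6050.Tab

noncomputable def f2Ap : ℕ → ℕ → ℕ → ℕ → Bool :=
  onCell 0 41943040 0 33554432 587336777 62277027 (c2_Ap.row false 20971520)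

theorem h0_2Ap : ∃ t, chk3 f2Ap t 1 1 1 = true :=
  ⟨(c (b (b (a (c (l 10) (l 10)) (c (l 10) (l 10))) (a (c (l 10) (l 10)) (c (l 2) (l 2)))) (a (c (a (l 10) (l 2)) (a (l 10) (l 10))) (b (c (l 2) (l 2)) (l 1)))) (b (a (c (l 10) (a (l 10) (l 10))) (c (a (l 10) (l 2)) (b (l 10) (l 2)))) (a (c (a (l 10) (l 10)) (a (l 10) (b (l 10) (l 2)))) (b (a (c (l 2) (l 2)) (l 1)) (l 1))))), by decide +kernel⟩

theorem ct_2Ap : ∃ t, chk3 f2Ap t 1 1 1 = true := h0_2Ap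

noncomputable def f2Apk1 : ℕ → ℕ → ℕ → ℕ → Bool :=
  onCell 0 41943040 0 33554432 587336777 62277027 (c2_Apk1.row false 20971520)

theorem h0_2Apk1 : ∃ t, chk3 f2Apk1 t 1 1 1 = true :=
  ⟨(c (a (b (c (l 10) (l 10)) (c (l 10) (a (l 10) (l 10)))) (b (c (l 10) (l 10)) (b (c (l 2) (l 2)) (l 1)))) (b (a (c (l 10) (l 10)) (c (l 10) (a (l 10) (l 2)))) (a (c (a (l 10) (l 10)) (b (l 10) (a (l 10) (l 2)))) (b (c (l 2) (l 2)) (l 1))))), by decide +kernel⟩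

theorem ct_2Apk1 : ∃ t, chk3 f2Apk1 t 1 1 1 = true := h0_2Apk1

noncomputable def f2Apk2 : ℕ → ℕ → ℕ → ℕ → Bool :=
  onCell 0 41943040 0 33554432 587336777 62277027 (c2_Apk2.row false 20971520)

theorem h0_2Apk2 : ∃ t, chk3 f2Apk2 t 1 1 1 = true :=
  ⟨(c (a (b (c (l 10) (l 10)) (c (l 10) (l 10))) (b (c (l 10) (l 10)) (a (l 2) (l 1)))) (b (a (c (l 10) (l 10)) (c (l 10) (l 10))) (a (c (l 10) (a (l 10) (l 10))) (b (c (l 2) (l 2)) (l 1))))), by decide +kernel⟩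

theorem ct_2Apk2 : ∃ t, chk3 f2Apk2 t 1 1 1 = true := h0_2Apk2

noncomputable def f2Apk3 : ℕ → ℕ → ℕ → ℕ → Bool :=
  onCell 0 41943040 0 33554432 587336777 62277027 (c2_Apk3.row false 20971520)

theorem h0_2Apk3 : ∃ t, chk3 f2Apk3 t 1 1 1 = true :=
  ⟨(c (a (c (l 10) (b (l 10) (l 10))) (b (c (l 10) (l 10)) (c (l 2) (l 2)))) (b (a (l 10) (c (l 10) (l 10))) (a (c (l 10) (l 10)) (c (l 2) (l 2))))), by decide +kernel⟩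

theorem ct_2Apk3 : ∃ t, chk3 f2Apk3 t 1 1 1 = true := h0_2Apk3

noncomputable def f2Apk4 : ℕ → ℕ → ℕ → ℕ → Bool :=
  onCell 0 41943040 0 33554432 587336777 62277027 (c2_Apk4.row false 20971520)

theorem h0_2Apk4 : ∃ t, chk3 f2Apk4 t 1 1 1 = true :=
  ⟨(c (b (l 10) (a (l 10) (l 2))) (b (a (l 10) (l 10)) (a (l 10) (l 2)))), by decide +kernel⟩

theorem ct_2Apk4 : ∃ t, chk3 f2Apk4 t 1 1 1 = true := h0_2Apk4

noncomputable def f2Am : ℕ → ℕ → ℕ → ℕ → Bool :=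
  onCell 0 41943040 0 33554432 587336777 62277027 (c2_Am.row true 20971520)

theorem h0_2Am : ∃ t, chk3 f2Am t 1 1 1 = true :=
  ⟨(c (b (a (b (c (a (l 8) (l 10)) (a (l 8) (l 10))) (c (a (l 8) (l 8)) (a (l 8) (l 8)))) (b (c (a (l 10) (l 2)) (a (l 10) (l 2))) (c (a (l 10) (l 2)) (a (l 10) (l 2))))) (a (b (a (l 3) (c (l 8) (l 8))) (l 3)) (c (b (a (l 10) (l 2)) (a (l 10) (l 10))) (b (a (l 10) (l 2)) (a (l 10) (l 10)))))) (b (a (b (c (l 10) (a (l 8) (l 10))) (c (a (l 8) (l 8)) (l 8))) (b (c (a (l 10) (l 2)) (a (l 10) (l 2))) (c (a (l 10) (l 2)) (a (l 10) (l 2))))) (a (b (a (l 3) (c (l 8) (l 8))) (l 3)) (c (b (a (l 10) (l 2)) (a (l 10) (l 10))) (b (a (l 10) (l 10)) (a (l 10) (l 10))))))), by decide +kernel⟩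

theorem ct_2Am : ∃ t, chk3 f2Am t 1 1 1 = true := h0_2Am

noncomputable def f2Bp : ℕ → ℕ → ℕ → ℕ → Bool :=
  onCell 0 41943040 0 33554432 587336777 62277027 (c2_Bp.row false 20971520)

theorem h0_2Bp : ∃ t, chk3 f2Bp t 1 1 2 = true :=
  ⟨(b (a (b (c (a (l 8) (l 10)) (a (l 8) (l 10))) (c (b (a (l 8) (l 8)) (a (l 3) (l 8))) (a (c (l 8) (l 8)) (c (l 8) (l 8))))) (b (c (a (l 10) (l 2)) (a (l 10) (l 2))) (c (b (a (l 10) (l 2)) (a (l 10) (l 2))) (a (c (l 10) (l 10)) (c (l 2) (l 2)))))) (a (b (c (a (l 3) (c (l 8) (l 8))) (a (l 3) (c (l 8) (l 8)))) (l 3)) (c (b (a (c (l 10) (l 10)) (c (l 2) (l 2))) (a (c (a (l 10) (l 10)) (a (l 10) (l 10))) (c (a (l 2) (l 2)) (a (l 2) (l 2))))) (b (a (c (l 10) (l 10)) (c (l 2) (l 2))) (a (c (a (l 10) (l 10)) (a (l 10) (l 10))) (c (a (l 2) (l 2)) (a (l 2) (l 2)))))))), by decide +kernel⟩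

theorem h1_2Bp : ∃ t, chk3 f2Bp t 1 1 3 = true :=
  ⟨(b (a (b (b (c (l 10) (l 10)) (c (l 8) (a (l 8) (l 8)))) (c (a (l 8) (l 8)) (a (l 8) (l 8)))) (b (c (a (l 10) (l 2)) (b (a (l 10) (l 2)) (a (l 10) (l 2)))) (c (a (c (l 10) (l 10)) (c (l 2) (l 2))) (b (a (l 10) (l 2)) (a (l 10) (l 2)))))) (a (b (a (l 3) (a (l 3) (c (l 8) (l 8)))) (l 3)) (c (b (a (c (l 10) (l 10)) (c (l 2) (l 2))) (a (c (a (l 10) (l 10)) (a (l 10) (l 10))) (c (a (l 10) (l 2)) (a (l 10) (l 2))))) (b (a (c (l 10) (l 10)) (c (l 10) (l 10))) (a (c (l 10) (l 10)) (c (a (l 10) (l 2)) (a (l 10) (l 2)))))))), by decide +kernel⟩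

theorem h2_2Bp : ∃ t, chk3 f2Bp t 1 1 1 = true := ex3_c h0_2Bp h1_2Bp

theorem ct_2Bp : ∃ t, chk3 f2Bp t 1 1 1 = true := h2_2Bp

noncomputable def f2Bpk1 : ℕ → ℕ → ℕ → ℕ → Bool :=
  onCell 0 41943040 0 33554432 587336777 62277027 (c2_Bpk1.row false 20971520)

theorem h0_2Bpk1 : ∃ t, chk3 f2Bpk1 t 1 1 1 = true :=
  ⟨(c (b (a (b (c (a (l 8) (l 10)) (a (l 8) (l 10))) (c (a (l 8) (c (l 8) (l 8))) (a (c (l 8) (l 8)) (l 8)))) (b (c (a (l 10) (l 2)) (a (l 10) (l 2))) (c (a (l 10) (l 2)) (a (l 10) (l 2))))) (a (b (c (a (l 3) (c (l 8) (l 8))) (a (l 3) (c (l 8) (l 8)))) (l 3)) (c (b (a (c (l 10) (l 10)) (c (l 2) (l 2))) (a (c (l 10) (a (l 10) (l 10))) (c (l 2) (l 2)))) (b (a (c (l 10) (l 10)) (c (l 2) (l 2))) (a (c (l 10) (l 10)) (c (l 10) (l 10))))))) (b (a (b (b (c (l 10) (l 10)) (c (l 8) (l 8))) (c (a (l 8) (l 8)) (a (l 8) (l 8))))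 (b (c (a (l 10) (l 2)) (a (l 10) (l 2))) (c (a (l 10) (l 2)) (a (l 10) (c (l 2) (l 2)))))) (a (b (a (l 3) (a (l 3) (c (l 8) (l 8)))) (l 3)) (c (b (a (c (l 10) (l 10)) (c (l 2) (l 2))) (a (c (l 10) (l 10)) (c (l 10) (l 10)))) (b (a (c (l 10) (l 10)) (c (l 2) (l 10))) (a (c (l 10) (l 10)) (c (l 10) (l 10)))))))), by decide +kernel⟩

theorem ct_2Bpk1 : ∃ t, chk3 f2Bpk1 t 1 1 1 = true := h0_2Bpk1

noncomputable def f2Bpk2 : ℕ → ℕ → ℕ → ℕ → Bool :=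
  onCell 0 41943040 0 33554432 587336777 62277027 (c2_Bpk2.row false 20971520)

theorem h0_2Bpk2 : ∃ t, chk3 f2Bpk2 t 1 1 1 = true :=
  ⟨(c (b (a (b (c (a (l 8) (l 10)) (l 10)) (c (a (l 8) (l 8)) (a (l 8) (l 8)))) (b (c (l 10) (l 10)) (c (a (l 10) (l 2)) (a (l 10) (l 2))))) (a (b (c (a (l 3) (l 8)) (a (l 3) (l 8))) (l 3)) (c (b (a (l 10) (l 2)) (a (c (l 10) (l 10)) (c (l 2) (l 2)))) (b (a (l 10) (l 2)) (a (c (l 10) (l 10)) (c (l 2) (l 2))))))) (b (b (a (c (l 10) (l 10)) (c (a (l 10) (l 2)) (a (l 10) (l 2)))) (a (c (a (l 8) (l 8)) (a (l 8) (l 8))) (c (a (l 10) (l 2)) (a (l 10) (l 2))))) (a (b (a (l 3) (c (l 8) (l 8))) (l 3)) (c (b (a (l 10) (l 2)) (a (c (l 10) (l 10)) (c (l 10) (l 10)))) (b (a (l 10) (l 10)) (a (l 10) (c (l 10) (l 10)))))))), by decide +kernel⟩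

theorem ct_2Bpk2 : ∃ t, chk3 f2Bpk2 t 1 1 1 = true := h0_2Bpk2

noncomputable def f2Bpk3 : ℕ → ℕ → ℕ → ℕ → Bool :=
  onCell 0 41943040 0 33554432 587336777 62277027 (c2_Bpk3.row false 20971520)

theorem h0_2Bpk3 : ∃ t, chk3 f2Bpk3 t 1 1 1 = true :=
  ⟨(c (b (a (b (c (l 10) (l 10)) (c (l 10) (a (l 8) (l 8)))) (b (c (l 10) (l 10)) (c (l 10) (l 10)))) (a (b (a (l 3) (c (l 8) (l 8))) (l 3)) (c (b (a (l 10) (l 2)) (a (l 10) (l 2))) (b (a (l 10) (l 2)) (a (l 10) (l 2)))))) (b (b (a (c (l 10) (l 10)) (c (l 10) (l 10))) (a (c (l 8) (l 8)) (c (l 10) (a (l 10) (l 2))))) (a (b (c (l 8) (l 8)) (l 3)) (c (b (a (l 10) (l 2)) (a (l 10) (l 10))) (b (a (l 10) (l 2)) (a (l 10) (l 10))))))), by decide +kernel⟩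

theorem ct_2Bpk3 : ∃ t, chk3 f2Bpk3 t 1 1 1 = true := h0_2Bpk3

noncomputable def f2Bpk4 : ℕ → ℕ → ℕ → ℕ → Bool :=
  onCell 0 41943040 0 33554432 587336777 62277027 (c2_Bpk4.row false 20971520)

theorem h0_2Bpk4 : ∃ t, chk3 f2Bpk4 t 1 1 1 = true :=
  ⟨(c (b (a (c (l 10) (l 10)) (c (l 10) (l 10))) (a (b (c (l 8) (l 8)) (l 3)) (c (a (l 10) (l 10)) (l 10)))) (b (b (a (l 10) (c (l 10) (l 10))) (a (l 10) (c (l 10) (l 10)))) (a (b (c (l 8) (l 8)) (l 3)) (c (l 10) (l 10))))), by decide +kernel⟩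

theorem ct_2Bpk4 : ∃ t, chk3 f2Bpk4 t 1 1 1 = true := h0_2Bpk4

noncomputable def f2Bm : ℕ → ℕ → ℕ → ℕ → Bool :=
  onCell 0 41943040 0 33554432 587336777 62277027 (c2_Bm.row true 20971520)

theorem h0_2Bm : ∃ t, chk3 f2Bm t 1 1 2 = true :=
  ⟨(b (b (a (c (a (c (l 8) (l 8)) (c (l 10) (l 10))) (a (c (l 8) (l 8)) (c (l 10) (l 10)))) (c (b (a (l 10) (l 2)) (a (l 2) (l 2))) (a (c (l 10) (l 10)) (l 2)))) (a (c (a (c (l 10) (l 10)) (c (l 10) (l 10))) (a (c (l 10) (l 10)) (c (l 10) (l 10)))) (c (a (c (l 2) (l 2)) (c (l 2) (l 2))) (a (c (l 2) (l 2)) (c (l 2) (l 2)))))) (a (c (b (a (c (l 10) (l 10)) (c (l 2) (l 2))) (a (c (l 10) (l 10)) (c (l 2) (l 2)))) (b (a (c (l 10) (l 10)) (c (l 2) (l 10))) (a (c (l 10) (l 10)) (c (l 2) (l 2))))) (b (a (a (c (l 2) (l 2)) (l 1)) (l 1)) (l 1)))), by decide +kernel⟩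

theorem h1_2Bm : ∃ t, chk3 f2Bm t 1 1 3 = true :=
  ⟨(b (a (b (c (a (c (l 8) (l 8)) (c (l 10) (l 10))) (a (c (l 8) (l 8)) (c (l 10) (l 10)))) (c (a (c (l 10) (l 10)) (c (l 10) (l 10))) (a (c (l 10) (l 10)) (c (l 10) (l 10))))) (c (b (b (a (l 10) (l 2)) (a (l 2) (l 2))) (a (c (l 2) (l 2)) (c (l 2) (l 2)))) (b (a (c (l 10) (l 10)) (c (l 2) (l 2))) (a (c (l 2) (l 2)) (c (l 2) (l 2)))))) (a (c (b (a (c (l 10) (l 10)) (c (l 10) (l 10))) (a (c (l 10) (l 10)) (c (l 2) (l 2)))) (b (a (c (l 10) (a (l 10) (l 10))) (c (a (l 10) (l 2)) (a (l 10) (l 2)))) (a (c (a (l 10) (l 10)) (a (l 10) (l 10))) (c (a (l 2) (l 2)) (l 2))))) (b (a (c (c (l 2) (l 2)) (c (l 2) (l 2))) (l 1)) (l 1)))), by decide +kernel⟩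

theorem h2_2Bm : ∃ t, chk3 f2Bm t 1 1 1 = true := ex3_c h0_2Bm h1_2Bm

theorem ct_2Bm : ∃ t, chk3 f2Bm t 1 1 1 = true := h2_2Bm

end Pool.Agent.Strip051.G.I5470_6050.Tab.Mo
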