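import Pool.Agent.Strip051.PB.StripVU
import Pool.Agent.Strip051.PB.StripC
import Pool.Agent.Strip051.G.I5470_6050.Fact

/-! # Facts about the strips of a table (generated) -/

set_option linter.all false
set_option maxRecDepth 4000

namespace Pool.Agent.Strip051.G.I5470_6050.Tab.St

open Pool.Agent.Strip051.PB Pool.Agent.StripNear Pool.Agent.Strip051.LC
open Pool.Agent.Strip051.G.I5470_6050.Tab

noncomputable def sl1 : Fn1 := ⟨_, _, fun h1 => (enc_norm (enc_subr 392830353 10000000 (enc_scale 53268717 500000 (enc_subr 72 125 h1))))⟩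
noncomputable def sv1 : Fn1 := ⟨_, _, fun h1 => (enc_norm (enc_subr 906588703 100000000 (enc_scale 257370631 10000000 (enc_subr 72 125 h1))))⟩
noncomputable def sw1 : Fn1 := ⟨_, _, fun h1 => (enc_norm (enc_subr 21344149 500000 (enc_scale 2707587 25000 (enc_subr 72 125 h1))))⟩
noncomputable def sl2 : Fn1 := ⟨_, _, fun h1 => (enc_norm (enc_subr 217272389 20000000 (enc_neg (enc_scale 142350773 2000000 (enc_subr 72 125 h1)))))⟩
noncomputable def sv2 : Fn1 := ⟨_, _, fun h1 => (enc_norm (enc_subr 66787963 25000000 (enc_neg (enc_scale 71241607 5000000 (enc_subr 72 125 h1)))))⟩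
noncomputable def sw2 : Fn1 := ⟨_, _, fun h1 => (enc_norm (enc_subr 11111169 1000000 (enc_neg (enc_scale 8915521 100000 (enc_subr 72 125 h1)))))⟩
noncomputable def sl3 : Fn1 := ⟨_, _, fun h1 => (enc_norm (enc_subr 34655719 4000000 (enc_neg (enc_scale 45596419 1000000 (enc_subr 72 125 h1)))))⟩
noncomputable def sv3 : Fn1 := ⟨_, _, fun h1 => (enc_norm (enc_subr 27894757 12500000 (enc_neg (enc_scale 570783 62500 (enc_subr 72 125 h1)))))⟩
noncomputable def sw3 : Fn1 := ⟨_, _, fun h1 => (enc_norm (enc_subr 8361557 1000000 (enc_neg (enc_scale 114363 2000 (enc_subr 72 125 h1)))))⟩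
noncomputable def sl4 : Fn1 := ⟨_, _, fun h1 => (enc_norm (enc_add (enc_scale 7901387 1000000 (enc_subr 72 125 h1)) (enc_rat _ 16466543 5000000)))⟩
noncomputable def sv4 : Fn1 := ⟨_, _, fun h1 => (enc_norm (enc_subr 869149 6250000 (enc_scale 2295877 10000000 (enc_subr 72 125 h1))))⟩
noncomputable def sw4 : Fn1 := ⟨_, _, fun h1 => (enc_norm (enc_add (enc_scale 962197 50000 (enc_subr 72 125 h1)) (enc_rat _ 2180053 250000)))⟩
noncomputable def sl5 : Fn1 := ⟨_, _, fun h1 => (enc_norm (enc_add (enc_scale 36449343 2000000 (enc_subr 72 125 h1)) (enc_rat _ 127819831 20000000)))⟩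
noncomputable def sv5 : Fn1 := ⟨_, _, fun h1 => (enc_norm (enc_add (enc_scale 7112323 4000000 (enc_subr 72 125 h1)) (enc_rat _ 65117719 200000000)))⟩
noncomputable def sw5 : Fn1 := ⟨_, _, fun h1 => (enc_norm (enc_add (enc_scale 3644941 100000 (enc_subr 72 125 h1)) (enc_rat _ 13883017 1000000)))⟩
noncomputable def sl6 : Fn1 := ⟨_, _, fun h1 => (enc_norm (enc_add (enc_scale 319 2000000 (enc_subr 72 125 h1)) (enc_rat _ 111439731 20000000)))⟩
noncomputable def sv6 : Fn1 := ⟨_, _, fun h1 => (enc_norm (enc_sub (enc_rat _ 22321297 100000000) (enc_scale 999967 2000000 (enc_subr 72 125 h1))))⟩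
noncomputable def sw6 : Fn1 := ⟨_, _, fun h1 => (enc_norm (enc_add (enc_scale 39 100000 (enc_subr 72 125 h1)) (enc_rat _ 12245007 1000000)))⟩
noncomputable def sl7 : Fn1 := ⟨_, _, fun h1 => (enc_norm (enc_add (enc_scale 127517 10000 (enc_subr 72 125 h1)) (enc_rat _ 74323177 10000000)))⟩
noncomputable def sv7 : Fn1 := ⟨_, _, fun h1 => (enc_norm (enc_add (enc_scale 3875853 5000000 (enc_subr 72 125 h1)) (enc_rat _ 10231153 25000000)))⟩
noncomputable def sw7 : Fn1 := ⟨_, _, fun h1 => (enc_norm (enc_add (enc_scale 796981 25000 (enc_subr 72 125 h1)) (enc_rat _ 8447917 500000)))⟩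
noncomputable def sl8 : Fn1 := ⟨_, _, fun h1 => (enc_norm (enc_add (enc_scale 7030169 500000 (enc_subr 72 125 h1)) (enc_rat _ 50459057 20000000)))⟩
noncomputable def sv8 : Fn1 := ⟨_, _, fun h1 => (enc_norm (enc_add (enc_scale 4366593 5000000 (enc_subr 72 125 h1)) (enc_rat _ 8208749 200000000)))⟩
noncomputable def sw8 : Fn1 := ⟨_, _, fun h1 => (enc_norm (enc_add (enc_scale 453017 12500 (enc_subr 72 125 h1)) (enc_rat _ 106257 200000)))⟩
noncomputable def sl9 : Fn1 := ⟨_, _, fun h1 => (enc_norm (enc_sub (enc_rat _ 29277437 20000000) (enc_scale 212877 31250 (enc_subr 72 125 h1))))⟩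
noncomputable def sv9 : Fn1 := ⟨_, _, fun h1 => (enc_norm (enc_subr 2382059 200000000 (enc_neg (enc_scale 212877 1250000 (enc_subr 72 125 h1)))))⟩
noncomputable def sw9 : Fn1 := ⟨_, _, fun h1 => (enc_norm (enc_subr 4764121 1000000 (enc_neg (enc_scale 212877 3125 (enc_subr 72 125 h1)))))⟩
noncomputable def sl10 : Fn1 := ⟨_, _, fun h1 => (enc_rat _ 9701419 5000000)⟩
noncomputable def sv10 : Fn1 := ⟨_, _, fun h1 => (enc_pnc _ 0)⟩
noncomputable def sl11 : Fn1 := ⟨_, _, fun h1 => (enc_norm (enc_sub (enc_rat _ 29277437 20000000) (enc_scale 212877 31250 (enc_subr 72 125 h1))))⟩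
noncomputable def sv11 : Fn1 := ⟨_, _, fun h1 => (enc_norm (enc_add (enc_scale 212877 1250000 (enc_subr 72 125 h1)) (enc_rat _ 2382059 200000000)))⟩
noncomputable def sw11 : Fn1 := ⟨_, _, fun h1 => (enc_norm (enc_add (enc_scale 212877 3125 (enc_subr 72 125 h1)) (enc_rat _ 4764121 1000000)))⟩
noncomputable def sl12 : Fn1 := ⟨_, _, fun h1 => (enc_norm (enc_add (enc_scale 7030169 500000 (enc_subr 72 125 h1)) (enc_rat _ 50459057 20000000)))⟩
noncomputable def sv12 : Fn1 := ⟨_, _, fun h1 => (enc_norm (enc_subr 8208749 200000000 (enc_neg (enc_scale 4366593 5000000 (enc_subr 72 125 h1)))))⟩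
noncomputable def sw12 : Fn1 := ⟨_, _, fun h1 => (enc_norm (enc_subr 106257 200000 (enc_neg (enc_scale 453017 12500 (enc_subr 72 125 h1)))))⟩
noncomputable def sl13 : Fn1 := ⟨_, _, fun h1 => (enc_norm (enc_add (enc_scale 127517 10000 (enc_subr 72 125 h1)) (enc_rat _ 74323177 10000000)))⟩
noncomputable def sv13 : Fn1 := ⟨_, _, fun h1 => (enc_norm (enc_subr 10231153 25000000 (enc_neg (enc_scale 3875853 5000000 (enc_subr 72 125 h1)))))⟩
noncomputable def sw13 : Fn1 := ⟨_, _, fun h1 => (enc_norm (enc_subr 8447917 500000 (enc_neg (enc_scale 796981 25000 (enc_subr 72 125 h1)))))⟩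
noncomputable def sl14 : Fn1 := ⟨_, _, fun h1 => (enc_norm (enc_add (enc_scale 319 2000000 (enc_subr 72 125 h1)) (enc_rat _ 111439731 20000000)))⟩
noncomputable def sv14 : Fn1 := ⟨_, _, fun h1 => (enc_norm (enc_subr 22321297 100000000 (enc_scale 999967 2000000 (enc_subr 72 125 h1))))⟩
noncomputable def sw14 : Fn1 := ⟨_, _, fun h1 => (enc_norm (enc_subr 12245007 1000000 (enc_neg (enc_scale 39 100000 (enc_subr 72 125 h1)))))⟩
noncomputable def sl15 : Fn1 := ⟨_, _, fun h1 => (enc_norm (enc_add (enc_scale 36449343 2000000 (enc_subr 72 125 h1)) (enc_rat _ 127819831 20000000)))⟩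
noncomputable def sv15 : Fn1 := ⟨_, _, fun h1 => (enc_norm (enc_subr 65117719 200000000 (enc_neg (enc_scale 7112323 4000000 (enc_subr 72 125 h1)))))⟩
noncomputable def sw15 : Fn1 := ⟨_, _, fun h1 => (enc_norm (enc_subr 13883017 1000000 (enc_neg (enc_scale 3644941 100000 (enc_subr 72 125 h1)))))⟩
noncomputable def sl16 : Fn1 := ⟨_, _, fun h1 => (enc_norm (enc_add (enc_scale 7901387 1000000 (enc_subr 72 125 h1)) (enc_rat _ 16466543 5000000)))⟩
noncomputable def sv16 : Fn1 := ⟨_, _, fun h1 => (enc_norm (enc_sub (enc_rat _ 869149 6250000) (enc_scale 2295877 10000000 (enc_subr 72 125 h1))))⟩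
noncomputable def sw16 : Fn1 := ⟨_, _, fun h1 => (enc_norm (enc_subr 2180053 250000 (enc_neg (enc_scale 962197 50000 (enc_subr 72 125 h1)))))⟩
noncomputable def sl17 : Fn1 := ⟨_, _, fun h1 => (enc_norm (enc_subr 34655719 4000000 (enc_neg (enc_scale 45596419 1000000 (enc_subr 72 125 h1)))))⟩
noncomputable def sv17 : Fn1 := ⟨_, _, fun h1 => (enc_norm (enc_add (enc_scale 570783 62500 (enc_subr 72 125 h1)) (enc_rat _ 27894757 12500000)))⟩
noncomputable def sw17 : Fn1 := ⟨_, _, fun h1 => (enc_norm (enc_add (enc_scale 114363 2000 (enc_subr 72 125 h1)) (enc_rat _ 8361557 1000000)))⟩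
noncomputable def sl18 : Fn1 := ⟨_, _, fun h1 => (enc_norm (enc_subr 217272389 20000000 (enc_neg (enc_scale 142350773 2000000 (enc_subr 72 125 h1)))))⟩
noncomputable def sv18 : Fn1 := ⟨_, _, fun h1 => (enc_norm (enc_add (enc_scale 71241607 5000000 (enc_subr 72 125 h1)) (enc_rat _ 66787963 25000000)))⟩
noncomputable def sw18 : Fn1 := ⟨_, _, fun h1 => (enc_norm (enc_add (enc_scale 8915521 100000 (enc_subr 72 125 h1)) (enc_rat _ 11111169 1000000)))⟩
noncomputable def sl19 : Fn1 := ⟨_, _, fun h1 => (enc_norm (enc_subr 392830353 10000000 (enc_scale 53268717 500000 (enc_subr 72 125 h1))))⟩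
noncomputable def sv19 : Fn1 := ⟨_, _, fun h1 => (enc_norm (enc_sub (enc_rat _ 906588703 100000000) (enc_scale 257370631 10000000 (enc_subr 72 125 h1))))⟩
noncomputable def sw19 : Fn1 := ⟨_, _, fun h1 => (enc_norm (enc_sub (enc_rat _ 21344149 500000) (enc_scale 2707587 25000 (enc_subr 72 125 h1))))⟩
noncomputable def sl38 : Fn1 := ⟨_, _, fun h1 => (enc_norm (enc_sub (enc_rat _ 137989859 150000000) (enc_scale 46126139 7500000 (enc_subr 72 125 h1))))⟩
noncomputable def sv38 : Fn1 := ⟨_, _, fun h1 => (enc_norm (enc_sub (enc_rat _ 4408199 18750000) (enc_scale 46177303 30000000 (enc_subr 72 125 h1))))⟩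
noncomputable def sw38 : Fn1 := ⟨_, _, fun h1 => (enc_norm (enc_sub (enc_rat _ 899449 1000000) (enc_scale 614333 100000 (enc_subr 72 125 h1))))⟩
noncomputable def sl39 : Fn1 := ⟨_, _, fun h1 => (enc_norm (enc_subr 87745691 75000000 (enc_neg (enc_scale 6857883 5000000 (enc_subr 72 125 h1)))))⟩
noncomputable def sv39 : Fn1 := ⟨_, _, fun h1 => (enc_norm (enc_subr 842506943 3750000000 (enc_neg (enc_scale 121989259 250000000 (enc_subr 72 125 h1)))))⟩
noncomputable def sw39 : Fn1 := ⟨_, _, fun h1 => (enc_norm (enc_subr 1475409 1000000 (enc_neg (enc_scale 71313 100000 (enc_subr 72 125 h1)))))⟩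
noncomputable def sl40 : Fn1 := ⟨_, _, fun h1 => (enc_norm (enc_subr 67279 1250000 (enc_scale 10938419 1500000 (enc_subr 72 125 h1))))⟩
noncomputable def sv40 : Fn1 := ⟨_, _, fun h1 => (enc_norm (enc_subr 15757287 1250000000 (enc_scale 868631741 750000000 (enc_subr 72 125 h1))))⟩
noncomputable def sw40 : Fn1 := ⟨_, _, fun h1 => (enc_norm (enc_subr 6831 1000000 (enc_scale 267167 25000 (enc_subr 72 125 h1))))⟩
noncomputable def sl41 : Fn1 := ⟨_, _, fun h1 => (enc_norm (enc_sub (enc_rat _ 21775269 25000000) (enc_scale 590303 375000 (enc_subr 72 125 h1))))⟩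
noncomputable def sv41 : Fn1 := ⟨_, _, fun h1 => (enc_norm (enc_sub (enc_rat _ 169209513 1250000000) (enc_scale 39067783 150000000 (enc_subr 72 125 h1))))⟩
noncomputable def sw41 : Fn1 := ⟨_, _, fun h1 => (enc_norm (enc_sub (enc_rat _ 719111 500000) (enc_scale 31671 10000 (enc_subr 72 125 h1))))⟩
noncomputable def sl42 : Fn1 := ⟨_, _, fun h1 => (enc_norm (enc_add (enc_scale 37523949 5000000 (enc_subr 72 125 h1)) (enc_rat _ 7536667 6000000)))⟩
noncomputable def sv42 : Fn1 := ⟨_, _, fun h1 => (enc_norm (enc_add (enc_scale 11497617 12500000 (enc_subr 72 125 h1)) (enc_rat _ 55629193 300000000)))⟩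
noncomputable def sw42 : Fn1 := ⟨_, _, fun h1 => (enc_norm (enc_add (enc_scale 714619 50000 (enc_subr 72 125 h1)) (enc_rat _ 5447 2500)))⟩
noncomputable def sl43 : Fn1 := ⟨_, _, fun h1 => (enc_norm (enc_sub (enc_rat _ 10046221 20000000) (enc_scale 6092683 2000000 (enc_subr 72 125 h1))))⟩
noncomputable def sv43 : Fn1 := ⟨_, _, fun h1 => (enc_norm (enc_sub (enc_rat _ 5502533 50000000) (enc_scale 1353037 10000000 (enc_subr 72 125 h1))))⟩
noncomputable def sw43 : Fn1 := ⟨_, _, fun h1 => (enc_norm (enc_sub (enc_rat _ 294299 1000000) (enc_scale 241709 20000 (enc_subr 72 125 h1))))⟩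
noncomputable def sl44 : Fn1 := ⟨_, _, fun h1 => (enc_norm (enc_sub (enc_rat _ 1447877 2500000) (enc_scale 211541 25000 (enc_subr 72 125 h1))))⟩
noncomputable def sv44 : Fn1 := ⟨_, _, fun h1 => (enc_norm (enc_sub (enc_rat _ 11581363 100000000) (enc_scale 338407 625000 (enc_subr 72 125 h1))))⟩
noncomputable def sw44 : Fn1 := ⟨_, _, fun h1 => (enc_norm (enc_sub (enc_rat _ 17201 31250) (enc_scale 753411 25000 (enc_subr 72 125 h1))))⟩
noncomputable def sl45_2 : Fn1 := ⟨_, _, fun h1 => (enc_subr 72 125 h1)⟩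
noncomputable def sl45 : Fn1 := ⟨_, _, fun h1 => (enc_norm (enc_sub (enc_add (enc_scale 79270411 15000000 (sl45_2.enc h1)) (enc_rat _ 35025569 100000000)) (enc_scale 8653 125000 (enc_sq (enc_norm (sl45_2.enc h1))))))⟩
noncomputable def sv45_2 : Fn1 := ⟨_, _, fun h1 => (enc_subr 72 125 h1)⟩
noncomputable def sv45 : Fn1 := ⟨_, _, fun h1 => (enc_norm (enc_sub (enc_add (enc_scale 21879841 150000000 (sv45_2.enc h1)) (enc_rat _ 104368869 1000000000)) (enc_scale 3563 1250000 (enc_sq (enc_norm (sv45_2.enc h1))))))⟩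
noncomputable def sw45_2 : Fn1 := ⟨_, _, fun h1 => (enc_subr 72 125 h1)⟩
noncomputable def sw45 : Fn1 := ⟨_, _, fun h1 => (enc_norm (enc_sub (enc_subr 594043 1000000 (enc_scale 1929761 50000 (sw45_2.enc h1))) (enc_scale 509 1250 (enc_sq (enc_norm (sw45_2.enc h1))))))⟩
noncomputable def sl46_2 : Fn1 := ⟨_, _, fun h1 => (enc_subr 72 125 h1)⟩
noncomputable def sl46 : Fn1 := ⟨_, _, fun h1 => (enc_norm (enc_add (enc_subr 20097290366929 5402130003800000 (enc_scale 344455841234166561 135053250095000000 (sl46_2.enc h1))) (enc_scale 16048152710531 59104267000000 (enc_sq (enc_norm (sl46_2.enc h1))))))⟩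
noncomputable def sv46_2 : Fn1 := ⟨_, _, fun h1 => (enc_subr 72 125 h1)⟩
noncomputable def sv46 : Fn1 := ⟨_, _, fun h1 => (enc_norm (enc_add (enc_add (enc_scale 338776700184164913 6752662504750000000 (sv46_2.enc h1)) (enc_rat _ 3105539960960346783 33763312523750000000)) (enc_scale 940654105223 118208534000000 (enc_sq (enc_norm (sv46_2.enc h1))))))⟩
noncomputable def sw46_2 : Fn1 := ⟨_, _, fun h1 => (enc_subr 72 125 h1)⟩
noncomputable def sw46 : Fn1 := ⟨_, _, fun h1 => (enc_norm (enc_add (enc_subr 780611 250000 (enc_scale 953271 50000 (sw46_2.enc h1))) (enc_scale 22549 10000 (enc_sq (enc_norm (sw46_2.enc h1))))))⟩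
noncomputable def sl48 : Fn1 := ⟨_, _, fun h1 => (enc_norm (enc_sub (enc_rat _ 837548125609397 1949672100000000) (enc_scale 145176085423 208680500000 (enc_subr 72 125 h1))))⟩
noncomputable def sv48 : Fn1 := ⟨_, _, fun h1 => (enc_norm (enc_add (enc_scale 1175750443 37264375000 (enc_subr 72 125 h1)) (enc_rat _ 4547421777149809 48741802500000000)))⟩
noncomputable def sw48 : Fn1 := ⟨_, _, fun h1 => (enc_norm (enc_subr 597167 200000 (enc_scale 65999 5000 (enc_subr 72 125 h1))))⟩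
noncomputable def sl49 : Fn1 := ⟨_, _, fun h1 => (enc_norm (enc_sub (enc_rat _ 5436529 30000000) (enc_scale 34989999 10000000 (enc_subr 72 125 h1))))⟩
noncomputable def sv49 : Fn1 := ⟨_, _, fun h1 => (enc_norm (enc_add (enc_scale 12966759 100000000 (enc_subr 72 125 h1)) (enc_rat _ 3059669 30000000)))⟩
noncomputable def sw49 : Fn1 := ⟨_, _, fun h1 => (enc_norm (enc_subr 121179 100000 (enc_scale 3322347 100000 (enc_subr 72 125 h1))))⟩
noncomputable def sl50 : Fn1 := ⟨_, _, fun h1 => (enc_norm (enc_add (enc_scale 8720787 1000000 (enc_subr 72 125 h1)) (enc_rat _ 2614227 20000000)))⟩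
noncomputable def sv50 : Fn1 := ⟨_, _, fun h1 => (enc_norm (enc_sub (enc_rat _ 20902857 200000000) (enc_scale 2406609 5000000 (enc_subr 72 125 h1))))⟩
noncomputable def sw50 : Fn1 := ⟨_, _, fun h1 => (enc_norm (enc_subr 959259 1000000 (enc_neg (enc_scale 1393773 50000 (enc_subr 72 125 h1)))))⟩
noncomputable def sl51 : Fn1 := ⟨_, _, fun h1 => (enc_norm (enc_add (enc_scale 4838811 1000000 (enc_subr 72 125 h1)) (enc_rat _ 6255029 20000000)))⟩
noncomputable def sv51 : Fn1 := ⟨_, _, fun h1 => (enc_norm (enc_sub (enc_rat _ 9086127 100000000) (enc_scale 237717 1250000 (enc_subr 72 125 h1))))⟩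
noncomputable def sw51 : Fn1 := ⟨_, _, fun h1 => (enc_norm (enc_subr 1566059 1000000 (enc_neg (enc_scale 746777 50000 (enc_subr 72 125 h1)))))⟩
noncomputable def sl52 : Fn1 := ⟨_, _, fun h1 => (enc_norm (enc_subr 737279 4000000 (enc_neg (enc_scale 225771 80000 (enc_subr 72 125 h1)))))⟩
noncomputable def sv52 : Fn1 := ⟨_, _, fun h1 => (enc_norm (enc_add (enc_scale 5759213 10000000 (enc_subr 72 125 h1)) (enc_rat _ 14056839 100000000)))⟩
noncomputable def sw52 : Fn1 := ⟨_, _, fun h1 => (enc_norm (enc_subr 323381 1000000 (enc_scale 421683 100000 (enc_subr 72 125 h1))))⟩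
noncomputable def sl53 : Fn1 := ⟨_, _, fun h1 => (enc_norm (enc_subr 1707573 10000000 (enc_neg (enc_scale 51451 400000 (enc_subr 72 125 h1)))))⟩
noncomputable def sv53 : Fn1 := ⟨_, _, fun h1 => (enc_norm (enc_add (enc_scale 4784651 20000000 (enc_subr 72 125 h1)) (enc_rat _ 13887309 100000000)))⟩
noncomputable def sw53 : Fn1 := ⟨_, _, fun h1 => (enc_norm (enc_subr 175253 500000 (enc_neg (enc_scale 117019 100000 (enc_subr 72 125 h1)))))⟩
noncomputable def sl54 : Fn1 := ⟨_, _, fun h1 => (enc_norm (enc_subr 1003441 1250000 (enc_neg (enc_scale 5812271 2000000 (enc_subr 72 125 h1)))))⟩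
noncomputable def sv54 : Fn1 := ⟨_, _, fun h1 => (enc_norm (enc_add (enc_scale 524687 800000 (enc_subr 72 125 h1)) (enc_rat _ 584181 2500000)))⟩
noncomputable def sw54 : Fn1 := ⟨_, _, fun h1 => (enc_norm (enc_add (enc_scale 345899 100000 (enc_subr 72 125 h1)) (enc_rat _ 35141 50000)))⟩
noncomputable def sl55 : Fn1 := ⟨_, _, fun h1 => (enc_norm (enc_subr 2747633 5000000 (enc_neg (enc_scale 917109 500000 (enc_subr 72 125 h1)))))⟩
noncomputable def sv55 : Fn1 := ⟨_, _, fun h1 => (enc_norm (enc_add (enc_scale 4682731 10000000 (enc_subr 72 125 h1)) (enc_rat _ 3787157 20000000)))⟩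
noncomputable def sw55 : Fn1 := ⟨_, _, fun h1 => (enc_norm (enc_add (enc_scale 6024 3125 (enc_subr 72 125 h1)) (enc_rat _ 85267 250000)))⟩
noncomputable def sl56 : Fn1 := ⟨_, _, fun h1 => (enc_norm (enc_subr 17946099 100000000 (enc_neg (enc_scale 8154333 5000000 (enc_subr 72 125 h1)))))⟩
noncomputable def sv56 : Fn1 := ⟨_, _, fun h1 => (enc_norm (enc_add (enc_scale 21380147 50000000 (enc_subr 72 125 h1)) (enc_rat _ 57672363 500000000)))⟩
noncomputable def sw56 : Fn1 := ⟨_, _, fun h1 => (enc_norm (enc_subr 60757 500000 (enc_scale 167349 100000 (enc_subr 72 125 h1))))⟩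
noncomputable def sl57 : Fn1 := ⟨_, _, fun h1 => (enc_norm (enc_subr 100804361 75000000 (enc_scale 87524597 15000000 (enc_subr 72 125 h1))))⟩
noncomputable def sv57 : Fn1 := ⟨_, _, fun h1 => (enc_norm (enc_sub (enc_rat _ 55733411 150000000) (enc_scale 36446447 30000000 (enc_subr 72 125 h1))))⟩
noncomputable def sw57 : Fn1 := ⟨_, _, fun h1 => (enc_norm (enc_sub (enc_rat _ 300473 250000) (enc_scale 340521 50000 (enc_subr 72 125 h1))))⟩
noncomputable def skf0 : Fn2 := ⟨_, _, fun h1 h2 => (enc_norm (enc_add (bf1q0.enc h1 h2) (enc_mul (enc_norm (enc_sub (enc_mul (c1g.enc h1) (bf1q0.enc h1 h2)) (kf0q0.enc h1 h2))) (enc_inv (enc_sub (cv1m.enc h1) (c1g.enc h1))))))⟩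
noncomputable def sxf0 : Fn2 := ⟨_, _, fun h1 h2 => (enc_norm (enc_mul (enc_norm (enc_sub (l1q0.enc h1 h2) (l0q0.enc h1 h2))) (enc_inv (enc_sub (cv1m.enc h1) (c1g.enc h1)))))⟩
noncomputable def skl0 : Fn2 := ⟨_, _, fun h1 h2 => (enc_norm (enc_add (bf6q0.enc h1 h2) (enc_mul (enc_norm (enc_sub (kf7q0.enc h1 h2) (enc_mul (c3g.enc h1) (bf6q0.enc h1 h2)))) (enc_inv (enc_sub (c3g.enc h1) (cv6m.enc h1))))))⟩
noncomputable def sxl0 : Fn2 := ⟨_, _, fun h1 h2 => (enc_norm (enc_mul (enc_norm (enc_sub (l7q0.enc h1 h2) (l6q0.enc h1 h2))) (enc_inv (enc_sub (c3g.enc h1) (cv6m.enc h1)))))⟩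
noncomputable def skf1 : Fn2 := ⟨_, _, fun h1 h2 => (enc_norm (enc_add (bf1q1.enc h1 h2) (enc_mul (enc_norm (enc_sub (enc_mul (c1g.enc h1) (bf1q1.enc h1 h2)) (kf0q1.enc h1 h2))) (enc_inv (enc_sub (cv1m.enc h1) (c1g.enc h1))))))⟩
noncomputable def sxf1 : Fn2 := ⟨_, _, fun h1 h2 => (enc_norm (enc_mul (enc_norm (enc_sub (l1q1.enc h1 h2) (l0q1.enc h1 h2))) (enc_inv (enc_sub (cv1m.enc h1) (c1g.enc h1)))))⟩
noncomputable def skl1 : Fn2 := ⟨_, _, fun h1 h2 => (enc_norm (enc_add (bf6q1.enc h1 h2) (enc_mul (enc_norm (enc_sub (kf7q1.enc h1 h2) (enc_mul (c3g.enc h1) (bf6q1.enc h1 h2)))) (enc_inv (enc_sub (c3g.enc h1) (cv6m.enc h1))))))⟩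
noncomputable def sxl1 : Fn2 := ⟨_, _, fun h1 h2 => (enc_norm (enc_mul (enc_norm (enc_sub (l7q1.enc h1 h2) (l6q1.enc h1 h2))) (enc_inv (enc_sub (c3g.enc h1) (cv6m.enc h1)))))⟩
noncomputable def skf2 : Fn2 := ⟨_, _, fun h1 h2 => (enc_norm (enc_add (bf1q2.enc h1 h2) (enc_mul (enc_norm (enc_add (enc_mul (c1g.enc h1) (enc_norm (enc_subn 1 (bf1q2.enc h1 h2)))) (enc_mul (enc_norm (enc_subn 1 h1)) (kcg.enc (c1g.enc h1) h2)))) (enc_inv (enc_sub (cv1p.enc h1) (c1g.enc h1))))))⟩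
noncomputable def sxf2 : Fn2 := ⟨_, _, fun h1 h2 => (enc_norm (enc_mul (enc_norm (enc_sub (l1q2.enc h1 h2) (l0q2.enc h1 h2))) (enc_inv (enc_sub (cv1p.enc h1) (c1g.enc h1)))))⟩
noncomputable def skl2 : Fn2 := ⟨_, _, fun h1 h2 => (enc_norm (enc_add (bf6q2.enc h1 h2) (enc_mul (enc_norm (enc_sub (kf7q2.enc h1 h2) (enc_mul (c3g.enc h1) (bf6q2.enc h1 h2)))) (enc_inv (enc_sub (c3g.enc h1) (cv6p.enc h1))))))⟩
noncomputable def sxl2 : Fn2 := ⟨_, _, fun h1 h2 => (enc_norm (enc_mul (enc_norm (enc_sub (l7q2.enc h1 h2) (l6q2.enc h1 h2))) (enc_inv (enc_sub (c3g.enc h1) (cv6p.enc h1)))))⟩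
noncomputable def skl3 : Fn2 := ⟨_, _, fun h1 h2 => (enc_norm (enc_add (bf6q3.enc h1 h2) (enc_mul (enc_norm (enc_sub (kf7q3.enc h1 h2) (enc_mul (c3g.enc h1) (bf6q3.enc h1 h2)))) (enc_inv (enc_sub (c3g.enc h1) (cv6r.enc h1))))))⟩
noncomputable def sxl3 : Fn2 := ⟨_, _, fun h1 h2 => (enc_norm (enc_mul (enc_norm (enc_sub (l7q3.enc h1 h2) (l6q3.enc h1 h2))) (enc_inv (enc_sub (c3g.enc h1) (cv6r.enc h1)))))⟩
noncomputable def m0c : Fn1 := ⟨_, _, fun h1 => (enc_norm (enc_add (enc_subr 115620103 250000000 (enc_neg (enc_scale 600325897 500000000 (enc_subr 72 125 h1)))) (epg.enc h1)))⟩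
noncomputable def rhk : Fn2 := ⟨_, _, fun h1 h2 => (enc_norm (enc_mul (enc_norm (enc_sub (bf1q2.enc h1 h2) (n0b.enc h1 h2))) (enc_norm (enc_mul (cv1p.enc h1) (enc_inv (enc_sub (cv1p.enc h1) (c1g.enc h1)))))))⟩
noncomputable def rhx : Fn2 := ⟨_, _, fun h1 h2 => (enc_norm (enc_mul (enc_norm (enc_sub (bx1q2.enc h1 h2) (m0c.enc h2))) (enc_norm (enc_mul (cv1p.enc h1) (enc_inv (enc_sub (cv1p.enc h1) (c1g.enc h1)))))))⟩
noncomputable def sbk : Fn1 := ⟨_, _, fun h1 => (enc_norm (enc_subr 12543 5750 (enc_neg (enc_scale 1001 5750 (enc_subr 72 125 h1)))))⟩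
noncomputable def sbx : Fn1 := ⟨_, _, fun h1 => (enc_norm (enc_sub (enc_rat _ 38311 14375) (enc_scale 15621 2875 (enc_subr 72 125 h1))))⟩
noncomputable def frw : Fn1 := ⟨_, _, fun h1 => (enc_norm (enc_scale 2 25 (enc_sub (enc_subr 1 2 (swg.enc h1)) (c1g.enc h1))))⟩
noncomputable def q1k : Fn1 := ⟨_, _, fun h1 => (enc_norm (enc_subr 7951 50000 (enc_neg (enc_scale 18427 5000 (enc_subr 72 125 h1)))))⟩
noncomputable def q1x : Fn1 := ⟨_, _, fun h1 => (enc_norm (enc_sub (enc_sub (enc_rat _ 1593 6250) (enc_scale 31 5000 (enc_subr 72 125 h1))) (enc_nat 2 (epg.enc h1))))⟩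
noncomputable def a2k0 : Fn1 := ⟨_, _, fun h1 => (enc_norm (enc_sub (enc_rat _ 630861 1000000) (enc_scale 4823 50000 (enc_subr 72 125 h1))))⟩
noncomputable def a2k1 : Fn1 := ⟨_, _, fun h1 => (enc_norm (enc_sub (enc_rat _ 30449 50000) (enc_scale 269 5000 (enc_subr 72 125 h1))))⟩
noncomputable def b2k0 : Fn1 := ⟨_, _, fun h1 => (enc_norm (enc_sub (enc_rat _ 633813 1000000) (enc_scale 367 4000 (enc_subr 72 125 h1))))⟩
noncomputable def b2k1 : Fn1 := ⟨_, _, fun h1 => (enc_norm (enc_subr 110307 29000 (enc_scale 4261 2900 (enc_subr 72 125 h1))))⟩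
noncomputable def a2x0 : Fn1 := ⟨_, _, fun h1 => (enc_norm (enc_subr 425983 1000000 (enc_neg (enc_scale 59001 50000 (enc_subr 72 125 h1)))))⟩
noncomputable def a2x1 : Fn1 := ⟨_, _, fun h1 => (enc_norm (enc_add (enc_scale 623 250 (enc_subr 72 125 h1)) (enc_rat _ 47653 50000)))⟩
noncomputable def b2x0 : Fn1 := ⟨_, _, fun h1 => (enc_norm (enc_subr 213861 500000 (enc_neg (enc_scale 118091 100000 (enc_subr 72 125 h1)))))⟩
noncomputable def b2x1 : Fn1 := ⟨_, _, fun h1 => (enc_norm (enc_add (enc_scale 14051 11600 (enc_subr 72 125 h1)) (enc_rat _ 143629 58000)))⟩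
noncomputable def k0c : Fn1 := ⟨_, _, fun h1 => (enc_rat _ 9701419 5000000)⟩
noncomputable def kqf : Fn2 := ⟨_, _, fun h1 h2 => (enc_norm (enc_mul (enc_norm (enc_subn 1 h1)) (enc_norm (enc_case (enc_subr 1 20 (c1g.enc h1)) (enc_rat _ 9701419 5000000) (enc_mul (kcg.enc (c1g.enc h1) h2) (enc_inv (c1g.enc h1)))))))⟩
noncomputable def skm : Fn2 := ⟨_, _, fun h1 h2 => (enc_norm (enc_sub (enc_mul (enc_norm (enc_mul (cv1p.enc h1) (enc_inv (enc_sub (cv1p.enc h1) (c1g.enc h1))))) (enc_norm (enc_add (enc_subn 1 (bf1q2.enc h1 h2)) (kqf.enc h1 h2)))) (kqf.enc h1 h2)))⟩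
noncomputable def sl77 : Fn1 := ⟨_, _, fun h1 => (enc_pnc _ 0)⟩
noncomputable def sv77 : Fn1 := ⟨_, _, fun h1 => (enc_pnc _ 0)⟩
noncomputable def cv1pA : Fn2 := ⟨_, _, fun h1 h2 => (enc_norm (enc_add (enc_scale 23 25 h1) (enc_scale 2 25 (enc_subr 1 2 (swg.enc h2)))))⟩
noncomputable def cv2pA : Fn2 := ⟨_, _, fun h1 h2 => (enc_norm (enc_add (enc_scale 3 4 h1) (enc_scale 1 4 (enc_subr 1 2 (swg.enc h2)))))⟩
noncomputable def cv3pA : Fn2 := ⟨_, _, fun h1 h2 => (enc_norm (enc_add (enc_scale 29 50 h1) (enc_scale 21 50 (enc_subr 1 2 (swg.enc h2)))))⟩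
noncomputable def cv4pA : Fn2 := ⟨_, _, fun h1 h2 => (enc_norm (enc_add (enc_scale 1 5 h1) (enc_scale 4 5 (enc_subr 1 2 (swg.enc h2)))))⟩
noncomputable def lm4pA : Fn3 := ⟨_, _, fun h1 h2 h3 => (enc_lam (enc_norm (enc_sub h1 (cv4pA.enc h2 h3))) (enc_sub (cv5p.enc h3) (cv4pA.enc h2 h3)))⟩
noncomputable def bf4q2A_3 : Fn3 := ⟨_, _, fun h1 h2 h3 => (enc_subr 72 125 h3)⟩
noncomputable def bf4q2A : Fn3 := ⟨_, _, fun h1 h2 h3 => (enc_norm (enc_case (enc_subr 1 4 h1) (enc_case (enc_subr 1 10 h1) (enc_case (enc_subr 1 20 h1) (enc_add (enc_add (enc_scale 10279 12500 h1) (enc_rat _ 649681 1000000)) (enc_mul (enc_norm (bf4q2A_3.enc h1 h2 h3)) (enc_norm (enc_sub (enc_rat _ 81487 100000) (enc_scale 11757 2500 h1))))) (enc_add (enc_add (enc_scale 20783 25000 h1) (enc_rat _ 649231 1000000)) (enc_mul (enc_norm (bf4q2A_3.enc h1 h2 h3)) (enc_norm (enc_sub (enc_rat _ 8141 10000) (enc_scale 23437 5000 h1)))))) (enc_case (enc_subr 3 20 h1) (enc_add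 (enc_add (enc_scale 10419 12500 h1) (enc_rat _ 649011 1000000)) (enc_mul (enc_norm (bf4q2A_3.enc h1 h2 h3)) (enc_norm (enc_sub (enc_rat _ 9643 12500) (enc_scale 2663 625 h1))))) (enc_case (enc_subr 1 5 h1) (enc_add (enc_add (enc_scale 20653 25000 h1) (enc_rat _ 650121 1000000)) (enc_mul (enc_norm (bf4q2A_3.enc h1 h2 h3)) (enc_norm (enc_sub (enc_rat _ 2591 4000) (enc_scale 17181 5000 h1))))) (enc_add (enc_add (enc_scale 319 400 h1) (enc_rat _ 131169 200000)) (enc_mul (enc_norm (bf4q2A_3.enc h1 h2 h3)) (enc_norm (enc_sub (enc_rat _ 43303 100000) (enc_scale 11813 5000 h1)))))))) (enc_case (enc_subr 7 20 h1) (enc_case (enc_subr 3 10 h1) (enc_add (enc_add (enc_scale 18077 25000 h1) (enc_rat _ 13489 20000)) (enc_mul (enc_norm (bf4q2A_3.enc h1 h2 h3)) (enc_norm (enc_sub (enc_rat _ 2187 25000) (enc_scale 2451 2500 h1))))) (enc_add (enc_add (enc_scale 1541 2500 h1) (enc_rat _ 353227 500000)) (enc_mul (enc_norm (bf4q2A_3.enc h1 h2 h3))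 (enc_norm (enc_subr 15231 50000 (enc_scale 1633 5000 h1)))))) (enc_case (enc_subr 2 5 h1) (enc_add (enc_add (enc_scale 5609 10000 h1) (enc_rat _ 725879 1000000)) (enc_mul (enc_norm (bf4q2A_3.enc h1 h2 h3)) (enc_norm (enc_subr 56467 100000 (enc_scale 1337 1250 h1))))) (enc_case (enc_subr 9 20 h1) (enc_add (enc_add (enc_scale 2621 5000 h1) (enc_rat _ 740559 1000000)) (enc_mul (enc_norm (bf4q2A_3.enc h1 h2 h3)) (enc_norm (enc_subr 70259 100000 (enc_scale 884 625 h1))))) (enc_add (enc_add (enc_scale 23551 50000 h1) (enc_rat _ 76449 100000)) (enc_mul (enc_norm (bf4q2A_3.enc h1 h2 h3)) (enc_norm (enc_subr 6611 10000 (enc_scale 6611 5000 h1))))))))))⟩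
noncomputable def lm3pA : Fn3 := ⟨_, _, fun h1 h2 h3 => (enc_lam (enc_norm (enc_sub h1 (cv3pA.enc h2 h3))) (enc_sub (cv4pA.enc h2 h3) (cv3pA.enc h2 h3)))⟩
noncomputable def bf3q2A_3 : Fn3 := ⟨_, _, fun h1 h2 h3 => (enc_subr 72 125 h3)⟩
noncomputable def bf3q2A : Fn3 := ⟨_, _, fun h1 h2 h3 => (enc_norm (enc_case (enc_subr 1 4 h1) (enc_case (enc_subr 1 10 h1) (enc_case (enc_subr 1 20 h1) (enc_add (enc_add (enc_scale 27601 25000 h1) (enc_rat _ 22051 40000)) (enc_mul (enc_norm (bf3q2A_3.enc h1 h2 h3)) (enc_norm (enc_sub (enc_rat _ 13001 20000) (enc_scale 4613 1250 h1))))) (enc_add (enc_add (enc_scale 1371 1250 h1) (enc_rat _ 551637 1000000)) (enc_mul (enc_norm (bf3q2A_3.enc h1 h2 h3)) (enc_norm (enc_sub (enc_rat _ 12751 20000) (enc_scale 8601 2500 h1)))))) (enc_case (enc_subr 3 20 h1) (enc_add (enc_add (enc_scale 6803 6250 h1) (enc_rat _ 552469 1000000)) (enc_mul (enc_norm (bf3q2A_3.enc h1 h2 h3)) (enc_norm (enc_sub (enc_rat _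 58479 100000) (enc_scale 3641 1250 h1))))) (enc_case (enc_subr 1 5 h1) (enc_add (enc_add (enc_scale 26869 25000 h1) (enc_rat _ 554527 1000000)) (enc_mul (enc_norm (bf3q2A_3.enc h1 h2 h3)) (enc_norm (enc_sub (enc_rat _ 48171 100000) (enc_scale 1391 625 h1))))) (enc_add (enc_add (enc_scale 10471 10000 h1) (enc_rat _ 560059 1000000)) (enc_mul (enc_norm (bf3q2A_3.enc h1 h2 h3)) (enc_norm (enc_sub (enc_rat _ 35631 100000) (enc_scale 7993 5000 h1)))))))) (enc_case (enc_subr 7 20 h1) (enc_case (enc_subr 3 10 h1) (enc_add (enc_add (enc_scale 9871 10000 h1) (enc_rat _ 575059 1000000)) (enc_mul (enc_norm (bf3q2A_3.enc h1 h2 h3)) (enc_norm (enc_sub (enc_rat _ 8633 50000) (enc_scale 108 125 h1))))) (enc_add (enc_add (enc_scale 44287 50000 h1) (enc_rat _ 605467 1000000)) (enc_mul (enc_norm (bf3q2A_3.enc h1 h2 h3)) (enc_norm (enc_subr 173 6250 (enc_neg (enc_scale 981 5000 h1))))))) (enc_case (enc_subr 2 5 h1) (enc_add (enc_add (enc_scale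 18503 25000 h1) (enc_rat _ 328217 500000)) (enc_mul (enc_norm (bf3q2A_3.enc h1 h2 h3)) (enc_norm (enc_subr 678 3125 (enc_scale 1723 5000 h1))))) (enc_case (enc_subr 9 20 h1) (enc_add (enc_add (enc_scale 337 625 h1) (enc_rat _ 368401 500000)) (enc_mul (enc_norm (bf3q2A_3.enc h1 h2 h3)) (enc_norm (enc_subr 4721 12500 (enc_scale 933 1250 h1))))) (enc_add (enc_add (enc_scale 10279 25000 h1) (enc_rat _ 39721 50000)) (enc_mul (enc_norm (bf3q2A_3.enc h1 h2 h3)) (enc_norm (enc_subr 209 500 (enc_scale 209 250 h1))))))))))⟩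
noncomputable def lm2pA : Fn3 := ⟨_, _, fun h1 h2 h3 => (enc_lam (enc_norm (enc_sub h1 (cv2pA.enc h2 h3))) (enc_sub (cv3pA.enc h2 h3) (cv2pA.enc h2 h3)))⟩
noncomputable def bf2q2A_3 : Fn3 := ⟨_, _, fun h1 h2 h3 => (enc_subr 72 125 h3)⟩
noncomputable def bf2q2A : Fn3 := ⟨_, _, fun h1 h2 h3 => (enc_norm (enc_case (enc_subr 1 4 h1) (enc_case (enc_subr 1 10 h1) (enc_case (enc_subr 1 20 h1) (enc_add (enc_add (enc_scale 30449 50000 h1) (enc_rat _ 630861 1000000)) (enc_mul (enc_norm (bf2q2A_3.enc h1 h2 h3)) (enc_norm (enc_subr 4823 50000 (enc_neg (enc_scale 269 5000 h1)))))) (enc_add (enc_add (enc_scale 32723 50000 h1) (enc_rat _ 628587 1000000)) (enc_mul (enc_norm (bf2q2A_3.enc h1 h2 h3)) (enc_norm (enc_subr 4561 50000 (enc_neg (enc_scale 793 5000 h1))))))) (enc_case (enc_subr 3 20 h1) (enc_add (enc_add (enc_scale 1819 2500 h1) (enc_rat _ 621273 1000000)) (enc_mul (enc_norm (bf2q2A_3.enc h1 h2 h3)) (enc_norm (enc_subr 2431 25000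 (enc_neg (enc_scale 123 1250 h1)))))) (enc_case (enc_subr 1 5 h1) (enc_add (enc_add (enc_scale 41101 50000 h1) (enc_rat _ 60711 100000)) (enc_mul (enc_norm (bf2q2A_3.enc h1 h2 h3)) (enc_norm (enc_subr 5741 50000 (enc_scale 47 2500 h1))))) (enc_add (enc_add (enc_scale 9119 10000 h1) (enc_rat _ 294567 500000)) (enc_mul (enc_norm (bf2q2A_3.enc h1 h2 h3)) (enc_norm (enc_subr 6727 50000 (enc_scale 587 5000 h1)))))))) (enc_case (enc_subr 7 20 h1) (enc_case (enc_subr 3 10 h1) (enc_add (enc_add (enc_scale 12089 12500 h1) (enc_rat _ 575329 1000000)) (enc_mul (enc_norm (bf2q2A_3.enc h1 h2 h3)) (enc_norm (enc_subr 467 3125 (enc_scale 177 1000 h1))))) (enc_add (enc_add (enc_scale 12209 12500 h1) (enc_rat _ 572449 1000000)) (enc_mul (enc_norm (bf2q2A_3.enc h1 h2 h3)) (enc_norm (enc_subr 1729 10000 (enc_scale 319 1250 h1)))))) (enc_case (enc_subr 2 5 h1) (enc_add (enc_add (enc_scale 47007 50000 h1) (enc_rat _ 146313 250000)) (enc_mul (enc_norm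 (bf2q2A_3.enc h1 h2 h3)) (enc_norm (enc_subr 21469 100000 (enc_scale 1873 5000 h1))))) (enc_case (enc_subr 9 20 h1) (enc_add (enc_add (enc_scale 23063 50000 h1) (enc_rat _ 194201 250000)) (enc_mul (enc_norm (bf2q2A_3.enc h1 h2 h3)) (enc_norm (enc_subr 29541 100000 (enc_scale 1441 2500 h1))))) (enc_add (enc_add (enc_scale 15629 50000 h1) (enc_rat _ 84371 100000)) (enc_mul (enc_norm (bf2q2A_3.enc h1 h2 h3)) (enc_norm (enc_subr 3603 10000 (enc_scale 3603 5000 h1))))))))))⟩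
noncomputable def lm1pA : Fn3 := ⟨_, _, fun h1 h2 h3 => (enc_lam (enc_norm (enc_sub h1 (cv1pA.enc h2 h3))) (enc_sub (cv2pA.enc h2 h3) (cv1pA.enc h2 h3)))⟩
noncomputable def bf1q2A_3 : Fn3 := ⟨_, _, fun h1 h2 h3 => (enc_subr 72 125 h3)⟩
noncomputable def bf1q2A : Fn3 := ⟨_, _, fun h1 h2 h3 => (enc_norm (enc_add (enc_sub (enc_pnc _ 1) (enc_scale 9701419 5000000 (enc_subn 1 h2))) (enc_case (enc_subr 1 4 h1) (enc_case (enc_subr 1 10 h1) (enc_case (enc_subr 1 20 h1) (enc_sub (enc_neg (enc_scale 7951 50000 h1)) (enc_mul (enc_norm (bf1q2A_3.enc h1 h2 h3)) (enc_scale 18427 5000 h1))) (enc_add (enc_sub (enc_rat _ 3757 250000) (enc_scale 22979 50000 h1)) (enc_mul (enc_norm (bf1q2A_3.enc h1 h2 h3)) (enc_norm (enc_subr 483 100000 (enc_neg (enc_scale 2243 625 h1))))))) (enc_case (enc_subr 3 20 h1) (enc_add (enc_subr 1693 500000 (enc_neg (enc_scale 3443 12500 h1))) (enc_mul (enc_norm (bf1q2A_3.enc h1 h2 h3)) (enc_norm (enc_subr 2513 100000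 (enc_neg (enc_scale 16929 5000 h1)))))) (enc_case (enc_subr 1 5 h1) (enc_add (enc_subr 104657 1000000 (enc_scale 3997 10000 h1)) (enc_mul (enc_norm (bf1q2A_3.enc h1 h2 h3)) (enc_norm (enc_subr 96239 100000 (enc_scale 14313 5000 h1))))) (enc_add (enc_subr 210549 1000000 (enc_scale 23229 25000 h1)) (enc_mul (enc_norm (bf1q2A_3.enc h1 h2 h3)) (enc_norm (enc_subr 105783 100000 (enc_scale 16699 5000 h1)))))))) (enc_case (enc_subr 7 20 h1) (enc_case (enc_subr 3 10 h1) (enc_add (enc_subr 54641 250000 (enc_scale 48061 50000 h1)) (enc_mul (enc_norm (bf1q2A_3.enc h1 h2 h3)) (enc_norm (enc_subr 65523 100000 (enc_scale 8647 5000 h1))))) (enc_add (enc_subr 20033 250000 (enc_scale 24989 50000 h1)) (enc_mul (enc_norm (bf1q2A_3.enc h1 h2 h3)) (enc_norm (enc_subr 56409 100000 (enc_scale 891 625 h1)))))) (enc_case (enc_subr 2 5 h1) (enc_add (enc_sub (enc_rat _ 104437 1000000) (enc_scale 689 25000 h1)) (enc_mul (enc_norm (bf1q2A_3.enc h1 h2 h3))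 (enc_norm (enc_subr 23047 100000 (enc_scale 1181 2500 h1))))) (enc_case (enc_subr 9 20 h1) (enc_add (enc_sub (enc_rat _ 406509 1000000) (enc_scale 39137 50000 h1)) (enc_mul (enc_norm (bf1q2A_3.enc h1 h2 h3)) (enc_norm (enc_subr 2483 20000 (enc_scale 1033 5000 h1))))) (enc_add (enc_sub (enc_rat _ 13569 25000) (enc_scale 13569 12500 h1)) (enc_mul (enc_norm (bf1q2A_3.enc h1 h2 h3)) (enc_norm (enc_subr 1559 5000 (enc_scale 1559 2500 h1)))))))))))⟩
noncomputable def lm0pA : Fn3 := ⟨_, _, fun h1 h2 h3 => (enc_lam (enc_norm (enc_sub h1 h2)) (enc_sub (cv1pA.enc h2 h3) h2))⟩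
noncomputable def rkbq2A : Fn4Q := ⟨_, _, fun h1 h2 h3 h4 => (enc_case (enc_sub h1 (cv1pA.enc h2 h3)) (enc_add (enc_mul h1 (bf1q2A.enc h2 h3 h4)) (enc_mul (enc_norm (enc_sub (enc_pnc _ 1) (lm0pA.enc h1 h2 h3))) (enc_norm (enc_mul h2 (enc_norm (enc_sub (n0b.enc h3 h4) (bf1q2A.enc h2 h3 h4))))))) (enc_case (enc_sub h1 (cv2pA.enc h2 h3)) (enc_add (enc_mul h1 (bf2q2A.enc h2 h3 h4)) (enc_mul (enc_norm (enc_mul (enc_norm (enc_sub (enc_pnc _ 1) (lm1pA.enc h1 h2 h3))) (cv1pA.enc h2 h3))) (enc_norm (enc_sub (bf1q2A.enc h2 h3 h4) (bf2q2A.enc h2 h3 h4))))) (enc_case (enc_sub h1 (cv3pA.enc h2 h3)) (enc_add (enc_mul h1 (bf3q2A.enc h2 h3 h4)) (enc_mul (enc_norm (enc_mul (enc_norm (enc_sub (enc_pnc _ 1) (lm2pA.enc h1 h2 h3))) (cv2pA.enc h2 h3))) (enc_norm (enc_sub (bf2q2A.enc h2 h3 h4) (bf3q2A.enc h2 h3 h4))))) (enc_case (enc_sub h1 (cv4pA.enc h2 h3)) (enc_add (enc_mul h1 (bf4q2A.enc h2 h3 h4)) (enc_mul (enc_norm (enc_mul (enc_norm (enc_sub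 (enc_pnc _ 1) (lm3pA.enc h1 h2 h3))) (cv3pA.enc h2 h3))) (enc_norm (enc_sub (bf3q2A.enc h2 h3 h4) (bf4q2A.enc h2 h3 h4))))) (enc_case (enc_sub h1 (cv5p.enc h3)) (enc_add (enc_mul h1 (bf5q2.enc h3 h4)) (enc_mul (enc_norm (enc_mul (enc_norm (enc_sub (enc_pnc _ 1) (lm4pA.enc h1 h2 h3))) (cv4pA.enc h2 h3))) (enc_norm (enc_sub (bf4q2A.enc h2 h3 h4) (bf5q2.enc h3 h4))))) (enc_case (enc_sub h1 (cv6p.enc h3)) (enc_add (enc_mul h1 (bf6q2.enc h3 h4)) (enc_mul (enc_norm (enc_mul (enc_norm (enc_sub (enc_pnc _ 1) (lm5p.enc h1 h3))) (cv5p.enc h3))) (enc_norm (enc_sub (bf5q2.enc h3 h4) (bf6q2.enc h3 h4))))) (enc_add (kf6q2.enc h3 h4) (enc_mul (lm6p.enc h1 h3) (enc_norm (enc_sub (kf7q2.enc h3 h4) (kf6q2.enc h3 h4)))))))))))⟩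
noncomputable def rsbq2A : Fn4Q := ⟨_, _, fun h1 h2 h3 h4 => (enc_case h1 (enc_neg (rkbq2A.enc (enc_neg h1) h2 h3 h4)) (rkbq2A.enc h1 h2 h3 h4))⟩
noncomputable def bx4q2A_3 : Fn3 := ⟨_, _, fun h1 h2 h3 => (enc_subr 72 125 h3)⟩
noncomputable def bx4q2A : Fn3 := ⟨_, _, fun h1 h2 h3 => (enc_norm (enc_case (enc_subr 1 4 h1) (enc_case (enc_subr 1 10 h1) (enc_case (enc_subr 1 20 h1) (enc_add (enc_subr 6451 100000 (enc_scale 17749 50000 h1)) (enc_mul (enc_norm (bx4q2A_3.enc h1 h2 h3)) (enc_norm (enc_subr 19461 50000 (enc_scale 2353 2500 h1))))) (enc_add (enc_subr 62389 1000000 (enc_scale 3907 12500 h1)) (enc_mul (enc_norm (bx4q2A_3.enc h1 h2 h3)) (enc_norm (enc_subr 10051 25000 (enc_scale 1497 1250 h1)))))) (enc_case (enc_subr 3 20 h1) (enc_add (enc_subr 52467 1000000 (enc_scale 10667 50000 h1)) (enc_mul (enc_norm (bx4q2A_3.enc h1 h2 h3)) (enc_norm (enc_subr 3703 10000 (enc_scale 4401 5000 h1))))) (enc_case (enc_subr 1 5 h1) (enc_add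 (enc_subr 36801 1000000 (enc_scale 1089 10000 h1)) (enc_mul (enc_norm (bx4q2A_3.enc h1 h2 h3)) (enc_norm (enc_subr 29017 100000 (enc_scale 173 500 h1))))) (enc_add (enc_subr 27489 1000000 (enc_scale 3117 50000 h1)) (enc_mul (enc_norm (bx4q2A_3.enc h1 h2 h3)) (enc_norm (enc_subr 25333 100000 (enc_scale 809 5000 h1)))))))) (enc_case (enc_subr 7 20 h1) (enc_case (enc_subr 3 10 h1) (enc_add (enc_subr 11487 500000 (enc_scale 1107 25000 h1)) (enc_mul (enc_norm (bx4q2A_3.enc h1 h2 h3)) (enc_norm (enc_subr 27753 100000 (enc_scale 1293 5000 h1))))) (enc_add (enc_subr 2091 100000 (enc_scale 187 5000 h1)) (enc_mul (enc_norm (bx4q2A_3.enc h1 h2 h3)) (enc_norm (enc_subr 37389 100000 (enc_scale 2899 5000 h1)))))) (enc_case (enc_subr 2 5 h1) (enc_add (enc_subr 4867 250000 (enc_scale 104 3125 h1)) (enc_mul (enc_norm (bx4q2A_3.enc h1 h2 h3)) (enc_norm (enc_subr 51571 100000 (enc_scale 197 200 h1))))) (enc_case (enc_subr 9 20 h1) (enc_add (enc_subr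 5333 250000 (enc_scale 1897 50000 h1)) (enc_mul (enc_norm (bx4q2A_3.enc h1 h2 h3)) (enc_norm (enc_subr 62163 100000 (enc_scale 6249 5000 h1))))) (enc_add (enc_subr 4259 100000 (enc_scale 4259 50000 h1)) (enc_mul (enc_norm (bx4q2A_3.enc h1 h2 h3)) (enc_norm (enc_subr 2961 5000 (enc_scale 2961 2500 h1))))))))))⟩
noncomputable def bx3q2A_3 : Fn3 := ⟨_, _, fun h1 h2 h3 => (enc_subr 72 125 h3)⟩
noncomputable def bx3q2A : Fn3 := ⟨_, _, fun h1 h2 h3 => (enc_norm (enc_case (enc_subr 1 4 h1) (enc_case (enc_subr 1 10 h1) (enc_case (enc_subr 1 20 h1) (enc_add (enc_subr 62061 200000 (enc_scale 2423 2500 h1)) (enc_mul (enc_norm (bx3q2A_3.enc h1 h2 h3)) (enc_norm (enc_subr 16779 20000 (enc_scale 10467 5000 h1))))) (enc_add (enc_subr 154773 500000 (enc_scale 47701 50000 h1)) (enc_mul (enc_norm (bx3q2A_3.enc h1 h2 h3)) (enc_norm (enc_subr 83581 100000 (enc_scale 10153 5000 h1)))))) (enc_case (enc_subr 3 20 h1) (enc_add (enc_subr 152479 500000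 (enc_scale 45407 50000 h1)) (enc_mul (enc_norm (bx3q2A_3.enc h1 h2 h3)) (enc_norm (enc_subr 15937 20000 (enc_scale 1641 1000 h1))))) (enc_case (enc_subr 1 5 h1) (enc_add (enc_subr 14731 50000 (enc_scale 41961 50000 h1)) (enc_mul (enc_norm (bx3q2A_3.enc h1 h2 h3)) (enc_norm (enc_subr 73907 100000 (enc_scale 6279 5000 h1))))) (enc_add (enc_subr 17399 62500 (enc_scale 18951 25000 h1)) (enc_mul (enc_norm (bx3q2A_3.enc h1 h2 h3)) (enc_norm (enc_subr 69623 100000 (enc_scale 651 625 h1)))))))) (enc_case (enc_subr 7 20 h1) (enc_case (enc_subr 3 10 h1) (enc_add (enc_subr 237799 1000000 (enc_scale 5957 10000 h1)) (enc_mul (enc_norm (bx3q2A_3.enc h1 h2 h3)) (enc_norm (enc_subr 38539 50000 (enc_scale 6699 5000 h1))))) (enc_add (enc_subr 198727 1000000 (enc_scale 23273 50000 h1)) (enc_mul (enc_norm (bx3q2A_3.enc h1 h2 h3)) (enc_norm (enc_subr 43759 50000 (enc_scale 8439 5000 h1)))))) (enc_case (enc_subr 2 5 h1) (enc_add (enc_subr 7381 50000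 (enc_scale 3993 12500 h1)) (enc_mul (enc_norm (bx3q2A_3.enc h1 h2 h3)) (enc_norm (enc_subr 96891 100000 (enc_scale 4889 2500 h1))))) (enc_case (enc_subr 9 20 h1) (enc_add (enc_subr 26431 250000 (enc_scale 2147 10000 h1)) (enc_mul (enc_norm (bx3q2A_3.enc h1 h2 h3)) (enc_norm (enc_subr 19903 20000 (enc_scale 5053 2500 h1))))) (enc_add (enc_subr 9109 100000 (enc_scale 9109 50000 h1)) (enc_mul (enc_norm (bx3q2A_3.enc h1 h2 h3)) (enc_norm (enc_subr 8561 10000 (enc_scale 8561 5000 h1))))))))))⟩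
noncomputable def bx2q2A_3 : Fn3 := ⟨_, _, fun h1 h2 h3 => (enc_subr 72 125 h3)⟩
noncomputable def bx2q2A : Fn3 := ⟨_, _, fun h1 h2 h3 => (enc_norm (enc_case (enc_subr 1 4 h1) (enc_case (enc_subr 1 10 h1) (enc_case (enc_subr 1 20 h1) (enc_add (enc_subr 425983 1000000 (enc_scale 47653 50000 h1)) (enc_mul (enc_norm (bx2q2A_3.enc h1 h2 h3)) (enc_norm (enc_subr 59001 50000 (enc_scale 623 250 h1))))) (enc_add (enc_subr 430561 1000000 (enc_scale 52231 50000 h1)) (enc_mul (enc_norm (bx2q2A_3.enc h1 h2 h3)) (enc_norm (enc_subr 120723 100000 (enc_scale 15181 5000 h1)))))) (enc_case (enc_subr 3 20 h1) (enc_add (enc_subr 432393 1000000 (enc_scale 53147 50000 h1)) (enc_mul (enc_norm (bx2q2A_3.enc h1 h2 h3)) (enc_norm (enc_subr 113867 100000 (enc_scale 11753 5000 h1))))) (enc_case (enc_subr 1 5 h1) (enc_add (enc_subr 225219 500000 (enc_scale 29581 25000 h1)) (enc_mul (enc_norm (bx2q2A_3.enc h1 h2 h3)) (enc_norm (enc_subr 11657 10000 (enc_scale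 6327 2500 h1))))) (enc_add (enc_subr 228613 500000 (enc_scale 60859 50000 h1)) (enc_mul (enc_norm (bx2q2A_3.enc h1 h2 h3)) (enc_norm (enc_subr 65151 50000 (enc_scale 16087 5000 h1)))))))) (enc_case (enc_subr 7 20 h1) (enc_case (enc_subr 3 10 h1) (enc_add (enc_subr 217743 500000 (enc_scale 56511 50000 h1)) (enc_mul (enc_norm (bx2q2A_3.enc h1 h2 h3)) (enc_norm (enc_subr 32753 25000 (enc_scale 16229 5000 h1))))) (enc_add (enc_subr 172713 500000 (enc_scale 41501 50000 h1)) (enc_mul (enc_norm (bx2q2A_3.enc h1 h2 h3)) (enc_norm (enc_subr 27317 25000 (enc_scale 2521 1000 h1)))))) (enc_case (enc_subr 2 5 h1) (enc_add (enc_subr 258493 1000000 (enc_scale 14541 25000 h1)) (enc_mul (enc_norm (bx2q2A_3.enc h1 h2 h3)) (enc_norm (enc_subr 16199 20000 (enc_scale 4283 2500 h1))))) (enc_case (enc_subr 9 20 h1) (enc_add (enc_subr 146061 1000000 (enc_scale 3757 12500 h1)) (enc_mul (enc_norm (bx2q2A_3.enc h1 h2 h3)) (enc_norm (enc_subr 61003 100000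 (enc_scale 6067 5000 h1))))) (enc_add (enc_subr 10809 100000 (enc_scale 10809 50000 h1)) (enc_mul (enc_norm (bx2q2A_3.enc h1 h2 h3)) (enc_norm (enc_subr 16 25 (enc_scale 32 25 h1))))))))))⟩
noncomputable def bx1q2A_3 : Fn3 := ⟨_, _, fun h1 h2 h3 => (enc_subr 72 125 h3)⟩
noncomputable def bx1q2A : Fn3 := ⟨_, _, fun h1 h2 h3 => (enc_norm (enc_add (enc_add (enc_subr 115620103 250000000 (enc_neg (enc_scale 600325897 500000000 (bx1q2A_3.enc h1 h2 h3)))) (enc_case (enc_subr 1 4 h1) (enc_case (enc_subr 1 10 h1) (enc_case (enc_subr 1 20 h1) (enc_sub (enc_scale 1593 6250 h1) (enc_mul (enc_norm (bx1q2A_3.enc h1 h2 h3)) (enc_scale 31 5000 h1))) (enc_add (enc_subr 14189 1000000 (enc_scale 26933 50000 h1)) (enc_mul (enc_norm (bx1q2A_3.enc h1 h2 h3)) (enc_norm (enc_subr 14789 100000 (enc_scale 7379 2500 h1)))))) (enc_case (enc_subr 3 20 h1) (enc_add (enc_subr 62613 1000000 (enc_scale 10229 10000 h1)) (enc_mul (enc_norm (bx1q2A_3.enc h1 h2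 h3)) (enc_norm (enc_subr 733 20000 (enc_scale 2299 1250 h1))))) (enc_case (enc_subr 1 5 h1) (enc_add (enc_subr 102069 1000000 (enc_scale 64297 50000 h1)) (enc_mul (enc_norm (bx1q2A_3.enc h1 h2 h3)) (enc_norm (enc_add (enc_scale 7931 5000 h1) (enc_rat _ 13 10000))))) (enc_add (enc_subr 30821 200000 (enc_scale 38653 25000 h1)) (enc_mul (enc_norm (bx1q2A_3.enc h1 h2 h3)) (enc_norm (enc_subr 4371 10000 (enc_scale 18891 5000 h1)))))))) (enc_case (enc_subr 7 20 h1) (enc_case (enc_subr 3 10 h1) (enc_add (enc_subr 7539 40000 (enc_scale 4209 2500 h1)) (enc_mul (enc_norm (bx1q2A_3.enc h1 h2 h3)) (enc_norm (enc_subr 5413 20000 (enc_scale 7781 2500 h1))))) (enc_add (enc_subr 17697 200000 (enc_scale 13503 10000 h1)) (enc_mul (enc_norm (bx1q2A_3.enc h1 h2 h3)) (enc_norm (enc_subr 6391 20000 (enc_scale 16377 5000 h1)))))) (enc_case (enc_subr 2 5 h1) (enc_add (enc_add (enc_scale 8689 10000 h1) (enc_rat _ 16001 200000)) (enc_mul (enc_norm (bx1q2A_3.enc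 h1 h2 h3)) (enc_norm (enc_subr 16051 50000 (enc_scale 8199 2500 h1))))) (enc_case (enc_subr 9 20 h1) (enc_add (enc_add (enc_scale 22627 50000 h1) (enc_rat _ 246549 1000000)) (enc_mul (enc_norm (bx1q2A_3.enc h1 h2 h3)) (enc_norm (enc_add (enc_scale 292 125 h1) (enc_rat _ 2821 50000))))) (enc_add (enc_add (enc_scale 3072103 12500000 h1) (enc_rat _ 84899073 250000000)) (enc_mul (enc_norm (bx1q2A_3.enc h1 h2 h3)) (enc_norm (enc_add (enc_scale 46515897 25000000 h1) (enc_rat _ 135166927 500000000)))))))))) (enc_mul (epg.enc h3) (enc_norm (enc_sub (enc_pnc _ 1) (enc_nat 2 h1))))))⟩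
noncomputable def rxq2A : Fn4Q := ⟨_, _, fun h1 h2 h3 h4 => (enc_case (enc_sub h1 (cv1pA.enc h2 h3)) (enc_add (enc_mul h1 (bx1q2A.enc h2 h3 h4)) (enc_mul (enc_norm (enc_sub (enc_pnc _ 1) (lm0pA.enc h1 h2 h3))) (enc_norm (enc_mul h2 (enc_norm (enc_sub (n0x.enc h3 h4) (bx1q2A.enc h2 h3 h4))))))) (enc_case (enc_sub h1 (cv2pA.enc h2 h3)) (enc_add (enc_mul h1 (bx2q2A.enc h2 h3 h4)) (enc_mul (enc_norm (enc_mul (enc_norm (enc_sub (enc_pnc _ 1) (lm1pA.enc h1 h2 h3))) (cv1pA.enc h2 h3))) (enc_norm (enc_sub (bx1q2A.enc h2 h3 h4) (bx2q2A.enc h2 h3 h4))))) (enc_case (enc_sub h1 (cv3pA.enc h2 h3)) (enc_add (enc_mul h1 (bx3q2A.enc h2 h3 h4)) (enc_mul (enc_norm (enc_mul (enc_norm (enc_sub (enc_pnc _ 1) (lm2pA.enc h1 h2 h3))) (cv2pA.enc h2 h3))) (enc_norm (enc_sub (bx2q2A.enc h2 h3 h4) (bx3q2A.enc h2 h3 h4))))) (enc_case (enc_sub h1 (cv4pA.enc h2 h3)) (enc_add (enc_mul h1 (bx4q2A.enc h2 h3 h4)) (enc_mul (enc_norm (enc_mul (enc_norm (enc_sub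 (enc_pnc _ 1) (lm3pA.enc h1 h2 h3))) (cv3pA.enc h2 h3))) (enc_norm (enc_sub (bx3q2A.enc h2 h3 h4) (bx4q2A.enc h2 h3 h4))))) (enc_case (enc_sub h1 (cv5p.enc h3)) (enc_add (enc_mul h1 (bx5q2.enc h3 h4)) (enc_mul (enc_norm (enc_mul (enc_norm (enc_sub (enc_pnc _ 1) (lm4pA.enc h1 h2 h3))) (cv4pA.enc h2 h3))) (enc_norm (enc_sub (bx4q2A.enc h2 h3 h4) (bx5q2.enc h3 h4))))) (enc_case (enc_sub h1 (cv6p.enc h3)) (enc_add (enc_mul h1 (bx6q2.enc h3 h4)) (enc_mul (enc_norm (enc_mul (enc_norm (enc_sub (enc_pnc _ 1) (lm5p.enc h1 h3))) (cv5p.enc h3))) (enc_norm (enc_sub (bx5q2.enc h3 h4) (bx6q2.enc h3 h4))))) (enc_add (l6q2.enc h3 h4) (enc_mul (lm6p.enc h1 h3) (enc_norm (enc_sub (l7q2.enc h3 h4) (l6q2.enc h3 h4)))))))))))⟩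
noncomputable def rlq2A : Fn4Q := ⟨_, _, fun h1 h2 h3 h4 => (enc_case h1 (enc_neg (rxq2A.enc (enc_neg h1) h2 h3 h4)) (rxq2A.enc h1 h2 h3 h4))⟩
noncomputable def cv1pB : Fn1 := ⟨_, _, fun h1 => (enc_norm (enc_add (enc_scale 23 25 (enc_pnc _ 0)) (enc_scale 2 25 (enc_subr 1 2 (swg.enc h1)))))⟩
noncomputable def cv2pB : Fn1 := ⟨_, _, fun h1 => (enc_norm (enc_add (enc_scale 3 4 (enc_pnc _ 0)) (enc_scale 1 4 (enc_subr 1 2 (swg.enc h1)))))⟩
noncomputable def cv3pB : Fn1 := ⟨_, _, fun h1 => (enc_norm (enc_add (enc_scale 29 50 (enc_pnc _ 0)) (enc_scale 21 50 (enc_subr 1 2 (swg.enc h1)))))⟩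
noncomputable def cv4pB : Fn1 := ⟨_, _, fun h1 => (enc_norm (enc_add (enc_scale 1 5 (enc_pnc _ 0)) (enc_scale 4 5 (enc_subr 1 2 (swg.enc h1)))))⟩
noncomputable def lm4pB : Fn2 := ⟨_, _, fun h1 h2 => (enc_lam (enc_norm (enc_sub h1 (cv4pB.enc h2))) (enc_sub (cv5p.enc h2) (cv4pB.enc h2)))⟩
noncomputable def bf4q2B_3 : Fn2 := ⟨_, _, fun h1 h2 => (enc_subr 72 125 h2)⟩
noncomputable def bf4q2B : Fn2 := ⟨_, _, fun h1 h2 => (enc_norm (enc_case (enc_subr 127 100 h1) (enc_add (enc_sub (enc_rat _ 56179379 11600000) (enc_scale 421217 116000 h1)) (enc_mul (enc_norm (bf4q2B_3.enc h1 h2)) (enc_norm (enc_sub (enc_rat _ 62151847 5800000) (enc_scale 3983 464 h1))))) (enc_case (enc_subr 69 50 h1) (enc_add (enc_sub (enc_rat _ 5602661 1000000) (enc_scale 42293 10000 h1)) (enc_mul (enc_norm (bf4q2B_3.enc h1 h2)) (enc_norm (enc_subr 736141 100000 (enc_scale 113 20 h1))))) (enc_add (enc_sub (enc_rat _ 2600217 2000000) (enc_scale 133381 120000 h1))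 (enc_mul (enc_norm (bf4q2B_3.enc h1 h2)) (enc_norm (enc_sub (enc_rat _ 1613309 100000) (enc_scale 91 8 h1))))))))⟩
noncomputable def lm3pB : Fn2 := ⟨_, _, fun h1 h2 => (enc_lam (enc_norm (enc_sub h1 (cv3pB.enc h2))) (enc_sub (cv4pB.enc h2) (cv3pB.enc h2)))⟩
noncomputable def bf3q2B_3 : Fn2 := ⟨_, _, fun h1 h2 => (enc_subr 72 125 h2)⟩
noncomputable def bf3q2B : Fn2 := ⟨_, _, fun h1 h2 => (enc_norm (enc_case (enc_subr 127 100 h1) (enc_add (enc_sub (enc_rat _ 10287623 2320000) (enc_scale 390219 116000 h1)) (enc_mul (enc_norm (bf3q2B_3.enc h1 h2)) (enc_norm (enc_sub (enc_rat _ 722613 290000) (enc_scale 9049 5800 h1))))) (enc_case (enc_subr 69 50 h1) (enc_add (enc_sub (enc_rat _ 47642999 11000000) (enc_scale 180551 55000 h1)) (enc_mul (enc_norm (bf3q2B_3.enc h1 h2)) (enc_norm (enc_sub (enc_rat _ 436859 68750) (enc_scale 50617 11000 h1))))) (enc_add (enc_sub (enc_rat _ 1715193 400000) (enc_scale 390173 120000 h1)) (enc_mul (enc_norm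 (bf3q2B_3.enc h1 h2)) (enc_norm (enc_sub (enc_rat _ 346221 50000) (enc_scale 3761 750 h1))))))))⟩
noncomputable def lm2pB : Fn2 := ⟨_, _, fun h1 h2 => (enc_lam (enc_norm (enc_sub h1 (cv2pB.enc h2))) (enc_sub (cv3pB.enc h2) (cv2pB.enc h2)))⟩
noncomputable def bf2q2B_3 : Fn2 := ⟨_, _, fun h1 h2 => (enc_subr 72 125 h2)⟩
noncomputable def bf2q2B : Fn2 := ⟨_, _, fun h1 h2 => (enc_norm (enc_case (enc_subr 127 100 h1) (enc_add (enc_sub (enc_rat _ 29134971 5800000) (enc_scale 110307 29000 h1)) (enc_mul (enc_norm (bf2q2B_3.enc h1 h2)) (enc_norm (enc_subr 5183269 2900000 (enc_scale 4261 2900 h1))))) (enc_case (enc_subr 69 50 h1) (enc_add (enc_sub (enc_rat _ 10803651 2200000) (enc_scale 20433 5500 h1)) (enc_mul (enc_norm (bf2q2B_3.enc h1 h2)) (enc_norm (enc_sub (enc_rat _ 1128213 1100000) (enc_scale 4101 5500 h1))))) (enc_add (enc_sub (enc_rat _ 9798917 2000000) (enc_scale 444829 120000 h1)) (enc_mul (enc_norm (bf2q2B_3.enc h1 h2)) (enc_norm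 (enc_sub (enc_rat _ 71751 40000) (enc_scale 5209 4000 h1))))))))⟩
noncomputable def lm1pB : Fn2 := ⟨_, _, fun h1 h2 => (enc_lam (enc_norm (enc_sub h1 (cv1pB.enc h2))) (enc_sub (cv2pB.enc h2) (cv1pB.enc h2)))⟩
noncomputable def bf1q2B_3 : Fn2 := ⟨_, _, fun h1 h2 => (enc_subr 72 125 h2)⟩
noncomputable def bf1q2B : Fn2 := ⟨_, _, fun h1 h2 => (enc_norm (enc_add (enc_sub (enc_pnc _ 1) (enc_scale 9701419 5000000 (enc_subn 1 h1))) (enc_case (enc_subr 127 100 h1) (enc_case (enc_subr 231 200 h1) (enc_pnc _ 0) (enc_add (enc_sub (enc_rat _ 2897433 1150000) (enc_scale 12543 5750 h1)) (enc_mul (enc_norm (bf1q2B_3.enc h1 h2)) (enc_norm (enc_sub (enc_rat _ 231231 1150000) (enc_scale 1001 5750 h1)))))) (enc_case (enc_subr 139 100 h1) (enc_add (enc_sub (enc_rat _ 157327 62500) (enc_scale 5449 2500 h1)) (enc_mul (enc_norm (bf1q2B_3.enc h1 h2)) (enc_norm (enc_sub (enc_rat _ 53647 600000) (enc_scale 517 6000 h1))))) (enc_add (enc_sub (enc_rat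 _ 432406 171875) (enc_scale 59911 27500 h1)) (enc_mul (enc_norm (bf1q2B_3.enc h1 h2)) (enc_norm (enc_sub (enc_rat _ 44861 1100000) (enc_scale 563 11000 h1)))))))))⟩
noncomputable def lm0pB : Fn2 := ⟨_, _, fun h1 h2 => (enc_lam (enc_norm (enc_subn 0 h1)) (enc_subn 0 (cv1pB.enc h2)))⟩
noncomputable def rkbq2B_69 : Fn3 := ⟨_, _, fun h1 h2 h3 => (enc_mul h1 (bf1q2B.enc h2 h3))⟩
noncomputable def rkbq2B : Fn3 := ⟨_, _, fun h1 h2 h3 => (enc_case (enc_sub h1 (cv1pB.enc h2)) (enc_case (enc_subr 2887 2500 h2) (enc_add (rkbq2B_69.enc h1 h2 h3) (enc_mul (enc_norm (enc_sub (enc_pnc _ 1) (lm0pB.enc h1 h2))) (enc_norm (enc_mul (enc_pnc _ 0) (enc_norm (enc_sub (n0b.enc h2 h3) (bf1q2B.enc h2 h3))))))) (rkbq2B_69.enc h1 h2 h3)) (enc_case (enc_sub h1 (cv2pB.enc h2)) (enc_add (enc_mul h1 (bf2q2B.enc h2 h3)) (enc_mul (enc_norm (enc_mul (enc_norm (enc_sub (enc_pnc _ 1) (lm1pB.enc h1 h2))) (cv1pB.enc h2))) (enc_norm (enc_sub (bf1q2B.enc h2 h3) (bf2q2B.enc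 h2 h3))))) (enc_case (enc_sub h1 (cv3pB.enc h2)) (enc_add (enc_mul h1 (bf3q2B.enc h2 h3)) (enc_mul (enc_norm (enc_mul (enc_norm (enc_sub (enc_pnc _ 1) (lm2pB.enc h1 h2))) (cv2pB.enc h2))) (enc_norm (enc_sub (bf2q2B.enc h2 h3) (bf3q2B.enc h2 h3))))) (enc_case (enc_sub h1 (cv4pB.enc h2)) (enc_add (enc_mul h1 (bf4q2B.enc h2 h3)) (enc_mul (enc_norm (enc_mul (enc_norm (enc_sub (enc_pnc _ 1) (lm3pB.enc h1 h2))) (cv3pB.enc h2))) (enc_norm (enc_sub (bf3q2B.enc h2 h3) (bf4q2B.enc h2 h3))))) (enc_case (enc_sub h1 (cv5p.enc h2)) (enc_add (enc_mul h1 (bf5q2.enc h2 h3)) (enc_mul (enc_norm (enc_mul (enc_norm (enc_sub (enc_pnc _ 1) (lm4pB.enc h1 h2))) (cv4pB.enc h2))) (enc_norm (enc_sub (bf4q2B.enc h2 h3) (bf5q2.enc h2 h3))))) (enc_case (enc_sub h1 (cv6p.enc h2)) (enc_add (enc_mul h1 (bf6q2.enc h2 h3)) (enc_mul (enc_norm (enc_mul (enc_norm (enc_sub (enc_pnc _ 1) (lm5p.enc h1 h2))) (cv5p.enc h2))) (enc_norm (enc_sub (bf5q2.enc h2 h3) (bf6q2.enc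 h2 h3))))) (enc_add (kf6q2.enc h2 h3) (enc_mul (lm6p.enc h1 h2) (enc_norm (enc_sub (kf7q2.enc h2 h3) (kf6q2.enc h2 h3)))))))))))⟩
noncomputable def rsbq2B : Fn3 := ⟨_, _, fun h1 h2 h3 => (enc_case h1 (enc_neg (rkbq2B.enc (enc_neg h1) h2 h3)) (rkbq2B.enc h1 h2 h3))⟩
noncomputable def bx4q2B_3 : Fn2 := ⟨_, _, fun h1 h2 => (enc_subr 72 125 h2)⟩
noncomputable def bx4q2B : Fn2 := ⟨_, _, fun h1 h2 => (enc_norm (enc_case (enc_subr 127 100 h1) (enc_add (enc_subr 13765919 29000000 (enc_scale 20601 58000 h1)) (enc_mul (enc_norm (bx4q2B_3.enc h1 h2)) (enc_norm (enc_subr 12931747 5800000 (enc_scale 18499 11600 h1))))) (enc_case (enc_subr 69 50 h1) (enc_add (enc_subr 362711 343750 (enc_scale 22337 27500 h1)) (enc_mul (enc_norm (bx4q2B_3.enc h1 h2)) (enc_norm (enc_subr 258967 275000 (enc_scale 6387 11000 h1))))) (enc_add (enc_subr 3531637 2000000 (enc_scale 53089 40000 h1)) (enc_mul (enc_norm (bx4q2B_3.enc h1 h2)) (enc_norm (enc_sub (enc_rat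 _ 241097 100000) (enc_scale 11093 6000 h1))))))))⟩
noncomputable def bx3q2B_3 : Fn2 := ⟨_, _, fun h1 h2 => (enc_subr 72 125 h2)⟩
noncomputable def bx3q2B : Fn2 := ⟨_, _, fun h1 h2 => (enc_norm (enc_case (enc_subr 127 100 h1) (enc_add (enc_subr 122638051 58000000 (enc_scale 181247 116000 h1)) (enc_mul (enc_norm (bx3q2B_3.enc h1 h2)) (enc_norm (enc_subr 13373709 2900000 (enc_scale 18943 5800 h1))))) (enc_case (enc_subr 69 50 h1) (enc_add (enc_subr 34481657 11000000 (enc_scale 3253 1375 h1)) (enc_mul (enc_norm (bx3q2B_3.enc h1 h2)) (enc_norm (enc_sub (enc_rat _ 392247 55000) (enc_scale 16447 2750 h1))))) (enc_add (enc_subr 510821 200000 (enc_scale 19451 10000 h1)) (enc_mul (enc_norm (bx3q2B_3.enc h1 h2)) (enc_norm (enc_subr 1656561 200000 (enc_scale 20757 4000 h1))))))))⟩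
noncomputable def bx2q2B_3 : Fn2 := ⟨_, _, fun h1 h2 => (enc_subr 72 125 h2)⟩
noncomputable def bx2q2B : Fn2 := ⟨_, _, fun h1 h2 => (enc_norm (enc_case (enc_subr 127 100 h1) (enc_add (enc_subr 95277871 29000000 (enc_scale 143629 58000 h1)) (enc_mul (enc_norm (bx2q2B_3.enc h1 h2)) (enc_norm (enc_subr 2991341 1160000 (enc_scale 14051 11600 h1))))) (enc_case (enc_subr 69 50 h1) (enc_add (enc_subr 36085421 11000000 (enc_scale 271971 110000 h1)) (enc_mul (enc_norm (bx2q2B_3.enc h1 h2)) (enc_norm (enc_subr 400029 275000 (enc_scale 897 2750 h1))))) (enc_add (enc_subr 3271297 1000000 (enc_scale 12329 5000 h1)) (enc_mul (enc_norm (bx2q2B_3.enc h1 h2)) (enc_norm (enc_subr 281979 200000 (enc_scale 47 160 h1))))))))⟩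
noncomputable def bx1q2B_3 : Fn2 := ⟨_, _, fun h1 h2 => (enc_subr 72 125 h2)⟩
noncomputable def bx1q2B : Fn2 := ⟨_, _, fun h1 h2 => (enc_norm (enc_add (enc_add (enc_subr 115620103 250000000 (enc_neg (enc_scale 600325897 500000000 (bx1q2B_3.enc h1 h2)))) (enc_case (enc_subr 127 100 h1) (enc_case (enc_subr 231 200 h1) (enc_pnc _ 0) (enc_add (enc_subr 8849841 2875000 (enc_scale 38311 14375 h1)) (enc_mul (enc_norm (bx1q2B_3.enc h1 h2)) (enc_norm (enc_sub (enc_rat _ 3608451 575000) (enc_scale 15621 2875 h1)))))) (enc_case (enc_subr 139 100 h1) (enc_add (enc_subr 6156251 2000000 (enc_scale 53301 20000 h1)) (enc_mul (enc_norm (bx1q2B_3.enc h1 h2)) (enc_norm (enc_sub (enc_rat _ 7166483 1200000) (enc_scale 62333 12000 h1))))) (enc_add (enc_subr 16930559 5500000 (enc_scale 18323 6875 h1)) (enc_mul (enc_norm (bx1q2B_3.enc h1 h2)) (enc_norm (enc_sub (enc_rat _ 25857 4400) (enc_scale 56383 11000 h1)))))))) (epg.enc h2)))⟩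
noncomputable def rxq2B_69 : Fn3 := ⟨_, _, fun h1 h2 h3 => (enc_mul h1 (bx1q2B.enc h2 h3))⟩
noncomputable def rxq2B : Fn3 := ⟨_, _, fun h1 h2 h3 => (enc_case (enc_sub h1 (cv1pB.enc h2)) (enc_case (enc_subr 2887 2500 h2) (enc_add (rxq2B_69.enc h1 h2 h3) (enc_mul (enc_norm (enc_sub (enc_pnc _ 1) (lm0pB.enc h1 h2))) (enc_norm (enc_mul (enc_pnc _ 0) (enc_norm (enc_sub (n0x.enc h2 h3) (bx1q2B.enc h2 h3))))))) (rxq2B_69.enc h1 h2 h3)) (enc_case (enc_sub h1 (cv2pB.enc h2)) (enc_add (enc_mul h1 (bx2q2B.enc h2 h3)) (enc_mul (enc_norm (enc_mul (enc_norm (enc_sub (enc_pnc _ 1) (lm1pB.enc h1 h2))) (cv1pB.enc h2))) (enc_norm (enc_sub (bx1q2B.enc h2 h3) (bx2q2B.enc h2 h3))))) (enc_case (enc_sub h1 (cv3pB.enc h2)) (enc_add (enc_mul h1 (bx3q2B.enc h2 h3)) (enc_mul (enc_norm (enc_mul (enc_norm (enc_sub (enc_pnc _ 1) (lm2pB.enc h1 h2))) (cv2pB.enc h2))) (enc_norm (enc_sub (bx2q2B.enc h2 h3) (bx3q2B.enc h2 h3))))) (enc_case (enc_sub h1 (cv4pB.enc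 h2)) (enc_add (enc_mul h1 (bx4q2B.enc h2 h3)) (enc_mul (enc_norm (enc_mul (enc_norm (enc_sub (enc_pnc _ 1) (lm3pB.enc h1 h2))) (cv3pB.enc h2))) (enc_norm (enc_sub (bx3q2B.enc h2 h3) (bx4q2B.enc h2 h3))))) (enc_case (enc_sub h1 (cv5p.enc h2)) (enc_add (enc_mul h1 (bx5q2.enc h2 h3)) (enc_mul (enc_norm (enc_mul (enc_norm (enc_sub (enc_pnc _ 1) (lm4pB.enc h1 h2))) (cv4pB.enc h2))) (enc_norm (enc_sub (bx4q2B.enc h2 h3) (bx5q2.enc h2 h3))))) (enc_case (enc_sub h1 (cv6p.enc h2)) (enc_add (enc_mul h1 (bx6q2.enc h2 h3)) (enc_mul (enc_norm (enc_mul (enc_norm (enc_sub (enc_pnc _ 1) (lm5p.enc h1 h2))) (cv5p.enc h2))) (enc_norm (enc_sub (bx5q2.enc h2 h3) (bx6q2.enc h2 h3))))) (enc_add (l6q2.enc h2 h3) (enc_mul (lm6p.enc h1 h2) (enc_norm (enc_sub (l7q2.enc h2 h3) (l6q2.enc h2 h3)))))))))))⟩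
noncomputable def rlq2B : Fn3 := ⟨_, _, fun h1 h2 h3 => (enc_case h1 (enc_neg (rxq2B.enc (enc_neg h1) h2 h3)) (rxq2B.enc h1 h2 h3))⟩
noncomputable def dt1 : DT := .quad sw1 sl1 sv1
noncomputable def dt2 : DT := .quad sw2 sl2 sv2
noncomputable def dt3 : DT := .quad sw3 sl3 sv3
noncomputable def dt4 : DT := .quad sw4 sl4 sv4
noncomputable def dt5 : DT := .quad sw5 sl5 sv5
noncomputable def dt6 : DT := .quad sw6 sl6 sv6
noncomputable def dt7 : DT := .quad sw7 sl7 sv7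
noncomputable def dt8 : DT := .quad sw8 sl8 sv8
noncomputable def dt9 : DT := .quad sw9 sl9 sv9
noncomputable def dt10 : DT := .lin sl10 sv10
noncomputable def dt11 : DT := .quad sw11 sl11 sv11
noncomputable def dt12 : DT := .quad sw12 sl12 sv12
noncomputable def dt13 : DT := .quad sw13 sl13 sv13
noncomputable def dt14 : DT := .quad sw14 sl14 sv14
noncomputable def dt15 : DT := .quad sw15 sl15 sv15
noncomputable def dt16 : DT := .quad sw16 sl16 sv16
noncomputable def dt17 : DT := .quad sw17 sl17 sv17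
noncomputable def dt18 : DT := .quad sw18 sl18 sv18
noncomputable def dt19 : DT := .quad sw19 sl19 sv19
noncomputable def dt20 : DT := .node ((Cn.rt 9 20).ng) dt1 dt2
noncomputable def dt21 : DT := .node ((Cn.rt 7 20).ng) dt3 dt4
noncomputable def dt22 : DT := .node ((Cn.rt 2 5).ng) dt20 dt21
noncomputable def dt23 : DT := .node ((Cn.rt 1 4).ng) dt5 dt6
noncomputable def dt24 : DT := .node ((Cn.rt 1 10).ng) dt8 dt9
noncomputable def dt25 : DT := .node ((Cn.rt 3 20).ng) dt7 dt24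
noncomputable def dt26 : DT := .node ((Cn.rt 1 5).ng) dt23 dt25
noncomputable def dt27 : DT := .node ((Cn.rt 3 10).ng) dt22 dt26
noncomputable def dt28 : DT := .node (Cn.rt 1 20) dt10 dt11
noncomputable def dt29 : DT := .node (Cn.rt 1 5) dt13 dt14
noncomputable def dt30 : DT := .node (Cn.rt 3 20) dt12 dt29
noncomputable def dt31 : DT := .node (Cn.rt 1 10) dt28 dt30
noncomputable def dt32 : DT := .node (Cn.rt 3 10) dt15 dt16
noncomputable def dt33 : DT := .node (Cn.rt 9 20) dt18 dt19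
noncomputable def dt34 : DT := .node (Cn.rt 2 5) dt17 dt33
noncomputable def dt35 : DT := .node (Cn.rt 7 20) dt32 dt34
noncomputable def dt36 : DT := .node (Cn.rt 1 4) dt31 dt35
noncomputable def dt37 : DT := .node ((Cn.rt 1 20).ng) dt27 dt36
noncomputable def dt38 : DT := .quad sw38 sl38 sv38
noncomputable def dt39 : DT := .quad sw39 sl39 sv39
noncomputable def dt40 : DT := .quad sw40 sl40 sv40
noncomputable def dt41 : DT := .quad sw41 sl41 sv41
noncomputable def dt42 : DT := .quad sw42 sl42 sv42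
noncomputable def dt43 : DT := .quad sw43 sl43 sv43
noncomputable def dt44 : DT := .quad sw44 sl44 sv44
noncomputable def dt45 : DT := .quad sw45 sl45 sv45
noncomputable def dt46 : DT := .quad sw46 sl46 sv46
noncomputable def dt47 : DT := .clo
noncomputable def dt48 : DT := .quad sw48 sl48 sv48
noncomputable def dt49 : DT := .quad sw49 sl49 sv49
noncomputable def dt50 : DT := .quad sw50 sl50 sv50
noncomputable def dt51 : DT := .quad sw51 sl51 sv51
noncomputable def dt52 : DT := .quad sw52 sl52 sv52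
noncomputable def dt53 : DT := .quad sw53 sl53 sv53
noncomputable def dt54 : DT := .quad sw54 sl54 sv54
noncomputable def dt55 : DT := .quad sw55 sl55 sv55
noncomputable def dt56 : DT := .quad sw56 sl56 sv56
noncomputable def dt57 : DT := .quad sw57 sl57 sv57
noncomputable def dt58 : DT := .node ((Cn.rt 11 25).ng) dt38 dt39
noncomputable def dt59 : DT := .node ((Cn.rt 13 50).ng) dt41 dt42
noncomputable def dt60 : DT := .node ((Cn.rt 8 25).ng) dt40 dt59
noncomputable def dt61 : DT := .node ((Cn.rt 19 50).ng) dt58 dt60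
noncomputable def dt62 : DT := .node ((Cn.rt 3 20).ng) dt43 dt44
noncomputable def dt63 : DT := .node ((Cn.rt 47 914).ng) dt46 dt47
noncomputable def dt64 : DT := .node ((Cn.rt 7 100).ng) dt45 dt63
noncomputable def dt65 : DT := .node ((Cn.rt 1 10).ng) dt62 dt64
noncomputable def dt66 : DT := .node ((Cn.rt 1 5).ng) dt61 dt65
noncomputable def dt67 : DT := .node (Cn.rt 7 100) dt48 dt49
noncomputable def dt68 : DT := .node (Cn.rt 1 5) dt51 dt52
noncomputable def dt69 : DT := .node (Cn.rt 3 20) dt50 dt68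
noncomputable def dt70 : DT := .node (Cn.rt 1 10) dt67 dt69
noncomputable def dt71 : DT := .node (Cn.rt 3 10) dt53 dt54
noncomputable def dt72 : DT := .node (Cn.rt 11 25) dt56 dt57
noncomputable def dt73 : DT := .node (Cn.rt 2 5) dt55 dt72
noncomputable def dt74 : DT := .node (Cn.rt 7 20) dt71 dt73
noncomputable def dt75 : DT := .node (Cn.rt 1 4) dt70 dt74
noncomputable def dt76 : DT := .node (Cn.rt 37 763) dt66 dt75
noncomputable def dt77 : DT := .lin sl77 sv77
noncomputable def dd : SDat := ⟨dt37, kcg, dt76, Kh.T⟩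
noncomputable def gf0 : Sg := ⟨cv1m, skf0, sxf0⟩
noncomputable def gf1 : Sg := ⟨cv1m, skf1, sxf1⟩
noncomputable def gf2 : Sg := ⟨cv1p, skf2, sxf2⟩
noncomputable def gf3 : Sg := ⟨cv1r, skf2, sxf2⟩
noncomputable def gl0 : Sg := ⟨cv6m, skl0, sxl0⟩
noncomputable def gl1 : Sg := ⟨cv6m, skl1, sxl1⟩
noncomputable def gl2 : Sg := ⟨cv6p, skl2, sxl2⟩
noncomputable def gl3 : Sg := ⟨cv6r, skl3, sxl3⟩
noncomputable def vv : Vt := ⟨(Cn.rt 0 1), (Cn.rt 2 1), (Cn.rt 231 200), (Cn.rt 0 1), k0c, m0c, sbk, sbx, rhk, rhx, bf1q2, bx1q2, ((Cn.rt 1 1).ng), (Cn.rt 2 1), skm, dt77⟩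
noncomputable def ff (q : ℕ) : Sg := match q with
  | 0 => gf0
  | 1 => gf1
  | 2 => gf2
  | _ => gf3
noncomputable def fl (q : ℕ) : Sg := match q with
  | 0 => gl0
  | 1 => gl1
  | 2 => gl2
  | _ => gl3
noncomputable def tt : STab 7 := ⟨dd, 0, 6, ff, fl, vv⟩
noncomputable def ww : Wt := ⟨(Cn.rt 1 20), (Cn.rt 577 500), (Cn.rt 577 500), q1k, q1x, frw, cv2p, a2k0, a2k1, a2x0, a2x1, b2k0, b2k1, b2x0, b2x1, rsbq2A, rlq2A, ⟨rsbq2B, rlq2B⟩⟩
noncomputable def kz : Cn := (Cn.rt 37 763)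
theorem kcl0 {p x : ℝ} (h1 : -1 / 2 ≤ p) (h2 : p ≤ -9 / 20) : kcg.v p x = (-906588703 / 100000000 + (x - 72 / 125) * (257370631 / 10000000)) + (-392830353 / 10000000 + (x - 72 / 125) * (53268717 / 500000)) * p + (-21344149 / 500000 + (x - 72 / 125) * (2707587 / 25000)) * p ^ 2 := by
  simp only [kcg, kcg_3, kcg_6, kcg_9, kcg_12, kcg_13, kcg_16, kcg_26, kcg_34, kcg_39, kcg_47, kcg_55, kcg_56, kcg_61, kcg_71, kcg_78, kcg_79, kcg_84, kcg_97, kcg_102, kcg_107, kcg_120, kcg_130, kcg_133, kcg_134, kcg_138, kcg_151, kcg_156, kcg_160, kcg_172, kcg_180, kcg_181, kcg_184, kcg_195, kcg_203, kcg_206, kcg_214, kcg_219, kcg_226, kcg_227, kcg_228, kcg_250, kcg_259, kcg_279, kcg_280, kcg_301]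
  rcases eq_or_lt_of_le h1 with h | h1
  · subst h
    ((try push_cast); (repeat first | rw [if_pos (by linarith)] | rw [if_neg (by linarith)] | erw [if_pos (by linarith)] | erw [if_neg (by linarith)]); (try push_cast); (try ring1))
  rcases eq_or_lt_of_le h2 with h | h2
  · subst h
    ((try push_cast); (repeat first | rw [if_pos (by linarith)] | rw [if_neg (by linarith)] | erw [if_pos (by linarith)] | erw [if_neg (by linarith)]); (try push_cast); (try ring1))
  · ((try push_cast); (repeat first | rw [if_pos (by linarith)] | rw [if_neg (by linarith)] | erw [if_pos (by linarith)] | erw [if_neg (by linarith)]); (try push_cast); (try ring1))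
theorem kcl1 {p x : ℝ} (h1 : -9 / 20 ≤ p) (h2 : p ≤ -2 / 5) : kcg.v p x = (-66787963 / 25000000 + (x - 72 / 125) * (-71241607 / 5000000)) + (-217272389 / 20000000 + (x - 72 / 125) * (-142350773 / 2000000)) * p + (-11111169 / 1000000 + (x - 72 / 125) * (-8915521 / 100000)) * p ^ 2 := by
  simp only [kcg, kcg_3, kcg_6, kcg_9, kcg_12, kcg_13, kcg_16, kcg_26, kcg_34, kcg_39, kcg_47, kcg_55, kcg_56, kcg_61, kcg_71, kcg_78, kcg_79, kcg_84, kcg_97, kcg_102, kcg_107, kcg_120, kcg_130, kcg_133, kcg_134, kcg_138, kcg_151, kcg_156, kcg_160, kcg_172, kcg_180, kcg_181, kcg_184, kcg_195, kcg_203, kcg_206, kcg_214, kcg_219, kcg_226, kcg_227, kcg_228, kcg_250, kcg_259, kcg_279, kcg_280, kcg_301]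
  rcases eq_or_lt_of_le h1 with h | h1
  · subst h
    ((try push_cast); (repeat first | rw [if_pos (by linarith)] | rw [if_neg (by linarith)] | erw [if_pos (by linarith)] | erw [if_neg (by linarith)]); (try push_cast); (try ring1))
  rcases eq_or_lt_of_le h2 with h | h2
  · subst h
    ((try push_cast); (repeat first | rw [if_pos (by linarith)] | rw [if_neg (by linarith)] | erw [if_pos (by linarith)] | erw [if_neg (by linarith)]); (try push_cast); (try ring1))
  · ((try push_cast); (repeat first | rw [if_pos (by linarith)] | rw [if_neg (by linarith)] | erw [if_pos (by linarith)] | erw [if_neg (by linarith)]); (try push_cast); (try ring1))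
theorem kcl2 {p x : ℝ} (h1 : -2 / 5 ≤ p) (h2 : p ≤ -7 / 20) : kcg.v p x = (-27894757 / 12500000 + (x - 72 / 125) * (-570783 / 62500)) + (-34655719 / 4000000 + (x - 72 / 125) * (-45596419 / 1000000)) * p + (-8361557 / 1000000 + (x - 72 / 125) * (-114363 / 2000)) * p ^ 2 := by
  simp only [kcg, kcg_3, kcg_6, kcg_9, kcg_12, kcg_13, kcg_16, kcg_26, kcg_34, kcg_39, kcg_47, kcg_55, kcg_56, kcg_61, kcg_71, kcg_78, kcg_79, kcg_84, kcg_97, kcg_102, kcg_107, kcg_120, kcg_130, kcg_133, kcg_134, kcg_138, kcg_151, kcg_156, kcg_160, kcg_172, kcg_180, kcg_181, kcg_184, kcg_195, kcg_203, kcg_206, kcg_214, kcg_219, kcg_226, kcg_227, kcg_228, kcg_250, kcg_259, kcg_279, kcg_280, kcg_301]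
  rcases eq_or_lt_of_le h1 with h | h1
  · subst h
    ((try push_cast); (repeat first | rw [if_pos (by linarith)] | rw [if_neg (by linarith)] | erw [if_pos (by linarith)] | erw [if_neg (by linarith)]); (try push_cast); (try ring1))
  rcases eq_or_lt_of_le h2 with h | h2
  · subst h
    ((try push_cast); (repeat first | rw [if_pos (by linarith)] | rw [if_neg (by linarith)] | erw [if_pos (by linarith)] | erw [if_neg (by linarith)]); (try push_cast); (try ring1))
  · ((try push_cast); (repeat first | rw [if_pos (by linarith)] | rw [if_neg (by linarith)] | erw [if_pos (by linarith)] | erw [if_neg (by linarith)]); (try push_cast); (try ring1))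
theorem kcl3 {p x : ℝ} (h1 : -7 / 20 ≤ p) (h2 : p ≤ -3 / 10) : kcg.v p x = (-869149 / 6250000 + (x - 72 / 125) * (2295877 / 10000000)) + (16466543 / 5000000 + (x - 72 / 125) * (7901387 / 1000000)) * p + (2180053 / 250000 + (x - 72 / 125) * (962197 / 50000)) * p ^ 2 := by
  simp only [kcg, kcg_3, kcg_6, kcg_9, kcg_12, kcg_13, kcg_16, kcg_26, kcg_34, kcg_39, kcg_47, kcg_55, kcg_56, kcg_61, kcg_71, kcg_78, kcg_79, kcg_84, kcg_97, kcg_102, kcg_107, kcg_120, kcg_130, kcg_133, kcg_134, kcg_138, kcg_151, kcg_156, kcg_160, kcg_172, kcg_180, kcg_181, kcg_184, kcg_195, kcg_203, kcg_206, kcg_214, kcg_219, kcg_226, kcg_227, kcg_228, kcg_250, kcg_259, kcg_279, kcg_280, kcg_301]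
  rcases eq_or_lt_of_le h1 with h | h1
  · subst h
    ((try push_cast); (repeat first | rw [if_pos (by linarith)] | rw [if_neg (by linarith)] | erw [if_pos (by linarith)] | erw [if_neg (by linarith)]); (try push_cast); (try ring1))
  rcases eq_or_lt_of_le h2 with h | h2
  · subst h
    ((try push_cast); (repeat first | rw [if_pos (by linarith)] | rw [if_neg (by linarith)] | erw [if_pos (by linarith)] | erw [if_neg (by linarith)]); (try push_cast); (try ring1))
  · ((try push_cast); (repeat first | rw [if_pos (by linarith)] | rw [if_neg (by linarith)] | erw [if_pos (by linarith)] | erw [if_neg (by linarith)]); (try push_cast); (try ring1))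
theorem kcl4 {p x : ℝ} (h1 : -3 / 10 ≤ p) (h2 : p ≤ -1 / 4) : kcg.v p x = (65117719 / 200000000 + (x - 72 / 125) * (7112323 / 4000000)) + (127819831 / 20000000 + (x - 72 / 125) * (36449343 / 2000000)) * p + (13883017 / 1000000 + (x - 72 / 125) * (3644941 / 100000)) * p ^ 2 := by
  simp only [kcg, kcg_3, kcg_6, kcg_9, kcg_12, kcg_13, kcg_16, kcg_26, kcg_34, kcg_39, kcg_47, kcg_55, kcg_56, kcg_61, kcg_71, kcg_78, kcg_79, kcg_84, kcg_97, kcg_102, kcg_107, kcg_120, kcg_130, kcg_133, kcg_134, kcg_138, kcg_151, kcg_156, kcg_160, kcg_172, kcg_180, kcg_181, kcg_184, kcg_195, kcg_203, kcg_206, kcg_214, kcg_219, kcg_226, kcg_227, kcg_228, kcg_250, kcg_259, kcg_279, kcg_280, kcg_301]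
  rcases eq_or_lt_of_le h1 with h | h1
  · subst h
    ((try push_cast); (repeat first | rw [if_pos (by linarith)] | rw [if_neg (by linarith)] | erw [if_pos (by linarith)] | erw [if_neg (by linarith)]); (try push_cast); (try ring1))
  rcases eq_or_lt_of_le h2 with h | h2
  · subst h
    ((try push_cast); (repeat first | rw [if_pos (by linarith)] | rw [if_neg (by linarith)] | erw [if_pos (by linarith)] | erw [if_neg (by linarith)]); (try push_cast); (try ring1))
  · ((try push_cast); (repeat first | rw [if_pos (by linarith)] | rw [if_neg (by linarith)] | erw [if_pos (by linarith)] | erw [if_neg (by linarith)]); (try push_cast); (try ring1))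
theorem kcl5 {p x : ℝ} (h1 : -1 / 4 ≤ p) (h2 : p ≤ -1 / 5) : kcg.v p x = (22321297 / 100000000 + (x - 72 / 125) * (-999967 / 2000000)) + (111439731 / 20000000 + (x - 72 / 125) * (319 / 2000000)) * p + (12245007 / 1000000 + (x - 72 / 125) * (39 / 100000)) * p ^ 2 := by
  simp only [kcg, kcg_3, kcg_6, kcg_9, kcg_12, kcg_13, kcg_16, kcg_26, kcg_34, kcg_39, kcg_47, kcg_55, kcg_56, kcg_61, kcg_71, kcg_78, kcg_79, kcg_84, kcg_97, kcg_102, kcg_107, kcg_120, kcg_130, kcg_133, kcg_134, kcg_138, kcg_151, kcg_156, kcg_160, kcg_172, kcg_180, kcg_181, kcg_184, kcg_195, kcg_203, kcg_206, kcg_214, kcg_219, kcg_226, kcg_227, kcg_228, kcg_250, kcg_259, kcg_279, kcg_280, kcg_301]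
  rcases eq_or_lt_of_le h1 with h | h1
  · subst h
    ((try push_cast); (repeat first | rw [if_pos (by linarith)] | rw [if_neg (by linarith)] | erw [if_pos (by linarith)] | erw [if_neg (by linarith)]); (try push_cast); (try ring1))
  rcases eq_or_lt_of_le h2 with h | h2
  · subst h
    ((try push_cast); (repeat first | rw [if_pos (by linarith)] | rw [if_neg (by linarith)] | erw [if_pos (by linarith)] | erw [if_neg (by linarith)]); (try push_cast); (try ring1))
  · ((try push_cast); (repeat first | rw [if_pos (by linarith)] | rw [if_neg (by linarith)] | erw [if_pos (by linarith)] | erw [if_neg (by linarith)]); (try push_cast); (try ring1))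
theorem kcl6 {p x : ℝ} (h1 : -1 / 5 ≤ p) (h2 : p ≤ -3 / 20) : kcg.v p x = (10231153 / 25000000 + (x - 72 / 125) * (3875853 / 5000000)) + (74323177 / 10000000 + (x - 72 / 125) * (127517 / 10000)) * p + (8447917 / 500000 + (x - 72 / 125) * (796981 / 25000)) * p ^ 2 := by
  simp only [kcg, kcg_3, kcg_6, kcg_9, kcg_12, kcg_13, kcg_16, kcg_26, kcg_34, kcg_39, kcg_47, kcg_55, kcg_56, kcg_61, kcg_71, kcg_78, kcg_79, kcg_84, kcg_97, kcg_102, kcg_107, kcg_120, kcg_130, kcg_133, kcg_134, kcg_138, kcg_151, kcg_156, kcg_160, kcg_172, kcg_180, kcg_181, kcg_184, kcg_195, kcg_203, kcg_206, kcg_214, kcg_219, kcg_226, kcg_227, kcg_228, kcg_250, kcg_259, kcg_279, kcg_280, kcg_301]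
  rcases eq_or_lt_of_le h1 with h | h1
  · subst h
    ((try push_cast); (repeat first | rw [if_pos (by linarith)] | rw [if_neg (by linarith)] | erw [if_pos (by linarith)] | erw [if_neg (by linarith)]); (try push_cast); (try ring1))
  rcases eq_or_lt_of_le h2 with h | h2
  · subst h
    ((try push_cast); (repeat first | rw [if_pos (by linarith)] | rw [if_neg (by linarith)] | erw [if_pos (by linarith)] | erw [if_neg (by linarith)]); (try push_cast); (try ring1))
  · ((try push_cast); (repeat first | rw [if_pos (by linarith)] | rw [if_neg (by linarith)] | erw [if_pos (by linarith)] | erw [if_neg (by linarith)]); (try push_cast); (try ring1))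
theorem kcl7 {p x : ℝ} (h1 : -3 / 20 ≤ p) (h2 : p ≤ -1 / 10) : kcg.v p x = (8208749 / 200000000 + (x - 72 / 125) * (4366593 / 5000000)) + (50459057 / 20000000 + (x - 72 / 125) * (7030169 / 500000)) * p + (106257 / 200000 + (x - 72 / 125) * (453017 / 12500)) * p ^ 2 := by
  simp only [kcg, kcg_3, kcg_6, kcg_9, kcg_12, kcg_13, kcg_16, kcg_26, kcg_34, kcg_39, kcg_47, kcg_55, kcg_56, kcg_61, kcg_71, kcg_78, kcg_79, kcg_84, kcg_97, kcg_102, kcg_107, kcg_120, kcg_130, kcg_133, kcg_134, kcg_138, kcg_151, kcg_156, kcg_160, kcg_172, kcg_180, kcg_181, kcg_184, kcg_195, kcg_203, kcg_206, kcg_214, kcg_219, kcg_226, kcg_227, kcg_228, kcg_250, kcg_259, kcg_279, kcg_280, kcg_301]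
  rcases eq_or_lt_of_le h1 with h | h1
  · subst h
    ((try push_cast); (repeat first | rw [if_pos (by linarith)] | rw [if_neg (by linarith)] | erw [if_pos (by linarith)] | erw [if_neg (by linarith)]); (try push_cast); (try ring1))
  rcases eq_or_lt_of_le h2 with h | h2
  · subst h
    ((try push_cast); (repeat first | rw [if_pos (by linarith)] | rw [if_neg (by linarith)] | erw [if_pos (by linarith)] | erw [if_neg (by linarith)]); (try push_cast); (try ring1))
  · ((try push_cast); (repeat first | rw [if_pos (by linarith)] | rw [if_neg (by linarith)] | erw [if_pos (by linarith)] | erw [if_neg (by linarith)]); (try push_cast); (try ring1))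
theorem kcl8 {p x : ℝ} (h1 : -1 / 10 ≤ p) (h2 : p ≤ -1 / 20) : kcg.v p x = (-2382059 / 200000000 + (x - 72 / 125) * (-212877 / 1250000)) + (29277437 / 20000000 + (x - 72 / 125) * (-212877 / 31250)) * p + (-4764121 / 1000000 + (x - 72 / 125) * (-212877 / 3125)) * p ^ 2 := by
  simp only [kcg, kcg_3, kcg_6, kcg_9, kcg_12, kcg_13, kcg_16, kcg_26, kcg_34, kcg_39, kcg_47, kcg_55, kcg_56, kcg_61, kcg_71, kcg_78, kcg_79, kcg_84, kcg_97, kcg_102, kcg_107, kcg_120, kcg_130, kcg_133, kcg_134, kcg_138, kcg_151, kcg_156, kcg_160, kcg_172, kcg_180, kcg_181, kcg_184, kcg_195, kcg_203, kcg_206, kcg_214, kcg_219, kcg_226, kcg_227, kcg_228, kcg_250, kcg_259, kcg_279, kcg_280, kcg_301]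
  rcases eq_or_lt_of_le h1 with h | h1
  · subst h
    ((try push_cast); (repeat first | rw [if_pos (by linarith)] | rw [if_neg (by linarith)] | erw [if_pos (by linarith)] | erw [if_neg (by linarith)]); (try push_cast); (try ring1))
  rcases eq_or_lt_of_le h2 with h | h2
  · subst h
    ((try push_cast); (repeat first | rw [if_pos (by linarith)] | rw [if_neg (by linarith)] | erw [if_pos (by linarith)] | erw [if_neg (by linarith)]); (try push_cast); (try ring1))
  · ((try push_cast); (repeat first | rw [if_pos (by linarith)] | rw [if_neg (by linarith)] | erw [if_pos (by linarith)] | erw [if_neg (by linarith)]); (try push_cast); (try ring1))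
theorem kcl9 {p x : ℝ} (h1 : -1 / 20 ≤ p) (h2 : p ≤ 1 / 20) : kcg.v p x = (0) + (9701419 / 5000000) * p := by
  simp only [kcg, kcg_3, kcg_6, kcg_9, kcg_12, kcg_13, kcg_16, kcg_26, kcg_34, kcg_39, kcg_47, kcg_55, kcg_56, kcg_61, kcg_71, kcg_78, kcg_79, kcg_84, kcg_97, kcg_102, kcg_107, kcg_120, kcg_130, kcg_133, kcg_134, kcg_138, kcg_151, kcg_156, kcg_160, kcg_172, kcg_180, kcg_181, kcg_184, kcg_195, kcg_203, kcg_206, kcg_214, kcg_219, kcg_226, kcg_227, kcg_228, kcg_250, kcg_259, kcg_279, kcg_280, kcg_301]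
  rcases eq_or_lt_of_le h1 with h | h1
  · subst h
    ((try push_cast); (repeat first | rw [if_pos (by linarith)] | rw [if_neg (by linarith)] | erw [if_pos (by linarith)] | erw [if_neg (by linarith)]); (try push_cast); (try ring1))
  rcases eq_or_lt_of_le h2 with h | h2
  · subst h
    ((try push_cast); (repeat first | rw [if_pos (by linarith)] | rw [if_neg (by linarith)] | erw [if_pos (by linarith)] | erw [if_neg (by linarith)]); (try push_cast); (try ring1))
  rcases lt_trichotomy p 0 with h | h | h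
  · ((try push_cast); (repeat first | rw [if_pos (by linarith)] | rw [if_neg (by linarith)] | erw [if_pos (by linarith)] | erw [if_neg (by linarith)]); (try push_cast); (try ring1))
  · subst h
    ((try push_cast); (repeat first | rw [if_pos (by linarith)] | rw [if_neg (by linarith)] | erw [if_pos (by linarith)] | erw [if_neg (by linarith)]); (try push_cast); (try ring1))
  · ((try push_cast); (repeat first | rw [if_pos (by linarith)] | rw [if_neg (by linarith)] | erw [if_pos (by linarith)] | erw [if_neg (by linarith)]); (try push_cast); (try ring1))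
theorem kcl10 {p x : ℝ} (h1 : 1 / 20 ≤ p) (h2 : p ≤ 1 / 10) : kcg.v p x = (2382059 / 200000000 + (x - 72 / 125) * (212877 / 1250000)) + (29277437 / 20000000 + (x - 72 / 125) * (-212877 / 31250)) * p + (4764121 / 1000000 + (x - 72 / 125) * (212877 / 3125)) * p ^ 2 := by
  simp only [kcg, kcg_3, kcg_6, kcg_9, kcg_12, kcg_13, kcg_16, kcg_26, kcg_34, kcg_39, kcg_47, kcg_55, kcg_56, kcg_61, kcg_71, kcg_78, kcg_79, kcg_84, kcg_97, kcg_102, kcg_107, kcg_120, kcg_130, kcg_133, kcg_134, kcg_138, kcg_151, kcg_156, kcg_160, kcg_172, kcg_180, kcg_181, kcg_184, kcg_195, kcg_203, kcg_206, kcg_214, kcg_219, kcg_226, kcg_227, kcg_228, kcg_250, kcg_259, kcg_279, kcg_280, kcg_301]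
  rcases eq_or_lt_of_le h1 with h | h1
  · subst h
    ((try push_cast); (repeat first | rw [if_pos (by linarith)] | rw [if_neg (by linarith)] | erw [if_pos (by linarith)] | erw [if_neg (by linarith)]); (try push_cast); (try ring1))
  rcases eq_or_lt_of_le h2 with h | h2
  · subst h
    ((try push_cast); (repeat first | rw [if_pos (by linarith)] | rw [if_neg (by linarith)] | erw [if_pos (by linarith)] | erw [if_neg (by linarith)]); (try push_cast); (try ring1))
  · ((try push_cast); (repeat first | rw [if_pos (by linarith)] | rw [if_neg (by linarith)] | erw [if_pos (by linarith)] | erw [if_neg (by linarith)]); (try push_cast); (try ring1))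
theorem kcl11 {p x : ℝ} (h1 : 1 / 10 ≤ p) (h2 : p ≤ 3 / 20) : kcg.v p x = (-8208749 / 200000000 + (x - 72 / 125) * (-4366593 / 5000000)) + (50459057 / 20000000 + (x - 72 / 125) * (7030169 / 500000)) * p + (-106257 / 200000 + (x - 72 / 125) * (-453017 / 12500)) * p ^ 2 := by
  simp only [kcg, kcg_3, kcg_6, kcg_9, kcg_12, kcg_13, kcg_16, kcg_26, kcg_34, kcg_39, kcg_47, kcg_55, kcg_56, kcg_61, kcg_71, kcg_78, kcg_79, kcg_84, kcg_97, kcg_102, kcg_107, kcg_120, kcg_130, kcg_133, kcg_134, kcg_138, kcg_151, kcg_156, kcg_160, kcg_172, kcg_180, kcg_181, kcg_184, kcg_195, kcg_203, kcg_206, kcg_214, kcg_219, kcg_226, kcg_227, kcg_228, kcg_250, kcg_259, kcg_279, kcg_280, kcg_301]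
  rcases eq_or_lt_of_le h1 with h | h1
  · subst h
    ((try push_cast); (repeat first | rw [if_pos (by linarith)] | rw [if_neg (by linarith)] | erw [if_pos (by linarith)] | erw [if_neg (by linarith)]); (try push_cast); (try ring1))
  rcases eq_or_lt_of_le h2 with h | h2
  · subst h
    ((try push_cast); (repeat first | rw [if_pos (by linarith)] | rw [if_neg (by linarith)] | erw [if_pos (by linarith)] | erw [if_neg (by linarith)]); (try push_cast); (try ring1))
  · ((try push_cast); (repeat first | rw [if_pos (by linarith)] | rw [if_neg (by linarith)] | erw [if_pos (by linarith)] | erw [if_neg (by linarith)]); (try push_cast); (try ring1))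
theorem kcl12 {p x : ℝ} (h1 : 3 / 20 ≤ p) (h2 : p ≤ 1 / 5) : kcg.v p x = (-10231153 / 25000000 + (x - 72 / 125) * (-3875853 / 5000000)) + (74323177 / 10000000 + (x - 72 / 125) * (127517 / 10000)) * p + (-8447917 / 500000 + (x - 72 / 125) * (-796981 / 25000)) * p ^ 2 := by
  simp only [kcg, kcg_3, kcg_6, kcg_9, kcg_12, kcg_13, kcg_16, kcg_26, kcg_34, kcg_39, kcg_47, kcg_55, kcg_56, kcg_61, kcg_71, kcg_78, kcg_79, kcg_84, kcg_97, kcg_102, kcg_107, kcg_120, kcg_130, kcg_133, kcg_134, kcg_138, kcg_151, kcg_156, kcg_160, kcg_172, kcg_180, kcg_181, kcg_184, kcg_195, kcg_203, kcg_206, kcg_214, kcg_219, kcg_226, kcg_227, kcg_228, kcg_250, kcg_259, kcg_279, kcg_280, kcg_301]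
  rcases eq_or_lt_of_le h1 with h | h1
  · subst h
    ((try push_cast); (repeat first | rw [if_pos (by linarith)] | rw [if_neg (by linarith)] | erw [if_pos (by linarith)] | erw [if_neg (by linarith)]); (try push_cast); (try ring1))
  rcases eq_or_lt_of_le h2 with h | h2
  · subst h
    ((try push_cast); (repeat first | rw [if_pos (by linarith)] | rw [if_neg (by linarith)] | erw [if_pos (by linarith)] | erw [if_neg (by linarith)]); (try push_cast); (try ring1))
  · ((try push_cast); (repeat first | rw [if_pos (by linarith)] | rw [if_neg (by linarith)] | erw [if_pos (by linarith)] | erw [if_neg (by linarith)]); (try push_cast); (try ring1))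
theorem kcl13 {p x : ℝ} (h1 : 1 / 5 ≤ p) (h2 : p ≤ 1 / 4) : kcg.v p x = (-22321297 / 100000000 + (x - 72 / 125) * (999967 / 2000000)) + (111439731 / 20000000 + (x - 72 / 125) * (319 / 2000000)) * p + (-12245007 / 1000000 + (x - 72 / 125) * (-39 / 100000)) * p ^ 2 := by
  simp only [kcg, kcg_3, kcg_6, kcg_9, kcg_12, kcg_13, kcg_16, kcg_26, kcg_34, kcg_39, kcg_47, kcg_55, kcg_56, kcg_61, kcg_71, kcg_78, kcg_79, kcg_84, kcg_97, kcg_102, kcg_107, kcg_120, kcg_130, kcg_133, kcg_134, kcg_138, kcg_151, kcg_156, kcg_160, kcg_172, kcg_180, kcg_181, kcg_184, kcg_195, kcg_203, kcg_206, kcg_214, kcg_219, kcg_226, kcg_227, kcg_228, kcg_250, kcg_259, kcg_279, kcg_280, kcg_301]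
  rcases eq_or_lt_of_le h1 with h | h1
  · subst h
    ((try push_cast); (repeat first | rw [if_pos (by linarith)] | rw [if_neg (by linarith)] | erw [if_pos (by linarith)] | erw [if_neg (by linarith)]); (try push_cast); (try ring1))
  rcases eq_or_lt_of_le h2 with h | h2
  · subst h
    ((try push_cast); (repeat first | rw [if_pos (by linarith)] | rw [if_neg (by linarith)] | erw [if_pos (by linarith)] | erw [if_neg (by linarith)]); (try push_cast); (try ring1))
  · ((try push_cast); (repeat first | rw [if_pos (by linarith)] | rw [if_neg (by linarith)] | erw [if_pos (by linarith)] | erw [if_neg (by linarith)]); (try push_cast); (try ring1))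
theorem kcl14 {p x : ℝ} (h1 : 1 / 4 ≤ p) (h2 : p ≤ 3 / 10) : kcg.v p x = (-65117719 / 200000000 + (x - 72 / 125) * (-7112323 / 4000000)) + (127819831 / 20000000 + (x - 72 / 125) * (36449343 / 2000000)) * p + (-13883017 / 1000000 + (x - 72 / 125) * (-3644941 / 100000)) * p ^ 2 := by
  simp only [kcg, kcg_3, kcg_6, kcg_9, kcg_12, kcg_13, kcg_16, kcg_26, kcg_34, kcg_39, kcg_47, kcg_55, kcg_56, kcg_61, kcg_71, kcg_78, kcg_79, kcg_84, kcg_97, kcg_102, kcg_107, kcg_120, kcg_130, kcg_133, kcg_134, kcg_138, kcg_151, kcg_156, kcg_160, kcg_172, kcg_180, kcg_181, kcg_184, kcg_195, kcg_203, kcg_206, kcg_214, kcg_219, kcg_226, kcg_227, kcg_228, kcg_250, kcg_259, kcg_279, kcg_280, kcg_301]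
  rcases eq_or_lt_of_le h1 with h | h1
  · subst h
    ((try push_cast); (repeat first | rw [if_pos (by linarith)] | rw [if_neg (by linarith)] | erw [if_pos (by linarith)] | erw [if_neg (by linarith)]); (try push_cast); (try ring1))
  rcases eq_or_lt_of_le h2 with h | h2
  · subst h
    ((try push_cast); (repeat first | rw [if_pos (by linarith)] | rw [if_neg (by linarith)] | erw [if_pos (by linarith)] | erw [if_neg (by linarith)]); (try push_cast); (try ring1))
  · ((try push_cast); (repeat first | rw [if_pos (by linarith)] | rw [if_neg (by linarith)] | erw [if_pos (by linarith)] | erw [if_neg (by linarith)]); (try push_cast); (try ring1))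
theorem kcl15 {p x : ℝ} (h1 : 3 / 10 ≤ p) (h2 : p ≤ 7 / 20) : kcg.v p x = (869149 / 6250000 + (x - 72 / 125) * (-2295877 / 10000000)) + (16466543 / 5000000 + (x - 72 / 125) * (7901387 / 1000000)) * p + (-2180053 / 250000 + (x - 72 / 125) * (-962197 / 50000)) * p ^ 2 := by
  simp only [kcg, kcg_3, kcg_6, kcg_9, kcg_12, kcg_13, kcg_16, kcg_26, kcg_34, kcg_39, kcg_47, kcg_55, kcg_56, kcg_61, kcg_71, kcg_78, kcg_79, kcg_84, kcg_97, kcg_102, kcg_107, kcg_120, kcg_130, kcg_133, kcg_134, kcg_138, kcg_151, kcg_156, kcg_160, kcg_172, kcg_180, kcg_181, kcg_184, kcg_195, kcg_203, kcg_206, kcg_214, kcg_219, kcg_226, kcg_227, kcg_228, kcg_250, kcg_259, kcg_279, kcg_280, kcg_301]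
  rcases eq_or_lt_of_le h1 with h | h1
  · subst h
    ((try push_cast); (repeat first | rw [if_pos (by linarith)] | rw [if_neg (by linarith)] | erw [if_pos (by linarith)] | erw [if_neg (by linarith)]); (try push_cast); (try ring1))
  rcases eq_or_lt_of_le h2 with h | h2
  · subst h
    ((try push_cast); (repeat first | rw [if_pos (by linarith)] | rw [if_neg (by linarith)] | erw [if_pos (by linarith)] | erw [if_neg (by linarith)]); (try push_cast); (try ring1))
  · ((try push_cast); (repeat first | rw [if_pos (by linarith)] | rw [if_neg (by linarith)] | erw [if_pos (by linarith)] | erw [if_neg (by linarith)]); (try push_cast); (try ring1))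
theorem kcl16 {p x : ℝ} (h1 : 7 / 20 ≤ p) (h2 : p ≤ 2 / 5) : kcg.v p x = (27894757 / 12500000 + (x - 72 / 125) * (570783 / 62500)) + (-34655719 / 4000000 + (x - 72 / 125) * (-45596419 / 1000000)) * p + (8361557 / 1000000 + (x - 72 / 125) * (114363 / 2000)) * p ^ 2 := by
  simp only [kcg, kcg_3, kcg_6, kcg_9, kcg_12, kcg_13, kcg_16, kcg_26, kcg_34, kcg_39, kcg_47, kcg_55, kcg_56, kcg_61, kcg_71, kcg_78, kcg_79, kcg_84, kcg_97, kcg_102, kcg_107, kcg_120, kcg_130, kcg_133, kcg_134, kcg_138, kcg_151, kcg_156, kcg_160, kcg_172, kcg_180, kcg_181, kcg_184, kcg_195, kcg_203, kcg_206, kcg_214, kcg_219, kcg_226, kcg_227, kcg_228, kcg_250, kcg_259, kcg_279, kcg_280, kcg_301]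
  rcases eq_or_lt_of_le h1 with h | h1
  · subst h
    ((try push_cast); (repeat first | rw [if_pos (by linarith)] | rw [if_neg (by linarith)] | erw [if_pos (by linarith)] | erw [if_neg (by linarith)]); (try push_cast); (try ring1))
  rcases eq_or_lt_of_le h2 with h | h2
  · subst h
    ((try push_cast); (repeat first | rw [if_pos (by linarith)] | rw [if_neg (by linarith)] | erw [if_pos (by linarith)] | erw [if_neg (by linarith)]); (try push_cast); (try ring1))
  · ((try push_cast); (repeat first | rw [if_pos (by linarith)] | rw [if_neg (by linarith)] | erw [if_pos (by linarith)] | erw [if_neg (by linarith)]); (try push_cast); (try ring1))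
theorem kcl17 {p x : ℝ} (h1 : 2 / 5 ≤ p) (h2 : p ≤ 9 / 20) : kcg.v p x = (66787963 / 25000000 + (x - 72 / 125) * (71241607 / 5000000)) + (-217272389 / 20000000 + (x - 72 / 125) * (-142350773 / 2000000)) * p + (11111169 / 1000000 + (x - 72 / 125) * (8915521 / 100000)) * p ^ 2 := by
  simp only [kcg, kcg_3, kcg_6, kcg_9, kcg_12, kcg_13, kcg_16, kcg_26, kcg_34, kcg_39, kcg_47, kcg_55, kcg_56, kcg_61, kcg_71, kcg_78, kcg_79, kcg_84, kcg_97, kcg_102, kcg_107, kcg_120, kcg_130, kcg_133, kcg_134, kcg_138, kcg_151, kcg_156, kcg_160, kcg_172, kcg_180, kcg_181, kcg_184, kcg_195, kcg_203, kcg_206, kcg_214, kcg_219, kcg_226, kcg_227, kcg_228, kcg_250, kcg_259, kcg_279, kcg_280, kcg_301]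
  rcases eq_or_lt_of_le h1 with h | h1
  · subst h
    ((try push_cast); (repeat first | rw [if_pos (by linarith)] | rw [if_neg (by linarith)] | erw [if_pos (by linarith)] | erw [if_neg (by linarith)]); (try push_cast); (try ring1))
  rcases eq_or_lt_of_le h2 with h | h2
  · subst h
    ((try push_cast); (repeat first | rw [if_pos (by linarith)] | rw [if_neg (by linarith)] | erw [if_pos (by linarith)] | erw [if_neg (by linarith)]); (try push_cast); (try ring1))
  · ((try push_cast); (repeat first | rw [if_pos (by linarith)] | rw [if_neg (by linarith)] | erw [if_pos (by linarith)] | erw [if_neg (by linarith)]); (try push_cast); (try ring1))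
theorem kcl18 {p x : ℝ} (h1 : 9 / 20 ≤ p) (h2 : p ≤ 1 / 2) : kcg.v p x = (906588703 / 100000000 + (x - 72 / 125) * (-257370631 / 10000000)) + (-392830353 / 10000000 + (x - 72 / 125) * (53268717 / 500000)) * p + (21344149 / 500000 + (x - 72 / 125) * (-2707587 / 25000)) * p ^ 2 := by
  simp only [kcg, kcg_3, kcg_6, kcg_9, kcg_12, kcg_13, kcg_16, kcg_26, kcg_34, kcg_39, kcg_47, kcg_55, kcg_56, kcg_61, kcg_71, kcg_78, kcg_79, kcg_84, kcg_97, kcg_102, kcg_107, kcg_120, kcg_130, kcg_133, kcg_134, kcg_138, kcg_151, kcg_156, kcg_160, kcg_172, kcg_180, kcg_181, kcg_184, kcg_195, kcg_203, kcg_206, kcg_214, kcg_219, kcg_226, kcg_227, kcg_228, kcg_250, kcg_259, kcg_279, kcg_280, kcg_301]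
  rcases eq_or_lt_of_le h1 with h | h1
  · subst h
    ((try push_cast); (repeat first | rw [if_pos (by linarith)] | rw [if_neg (by linarith)] | erw [if_pos (by linarith)] | erw [if_neg (by linarith)]); (try push_cast); (try ring1))
  rcases eq_or_lt_of_le h2 with h | h2
  · subst h
    ((try push_cast); (repeat first | rw [if_pos (by linarith)] | rw [if_neg (by linarith)] | erw [if_pos (by linarith)] | erw [if_neg (by linarith)]); (try push_cast); (try ring1))
  · ((try push_cast); (repeat first | rw [if_pos (by linarith)] | rw [if_neg (by linarith)] | erw [if_pos (by linarith)] | erw [if_neg (by linarith)]); (try push_cast); (try ring1))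
theorem kvh0 {p x : ℝ} (h2 : p ≤ -9 / 20) : dt37.kv p x = (-906588703 / 100000000 + (x - 72 / 125) * (257370631 / 10000000)) + (-392830353 / 10000000 + (x - 72 / 125) * (53268717 / 500000)) * p + (-21344149 / 500000 + (x - 72 / 125) * (2707587 / 25000)) * p ^ 2 := by
  refine (DT.kv_le (by simp only [Cn.rt_v, Cn.ng_v]; push_cast; linarith)).trans ?_
  refine (DT.kv_le (by simp only [Cn.rt_v, Cn.ng_v]; push_cast; linarith)).trans ?_
  refine (DT.kv_le (by simp only [Cn.rt_v, Cn.ng_v]; push_cast; linarith)).trans ?_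
  refine (DT.kv_le (by simp only [Cn.rt_v, Cn.ng_v]; push_cast; linarith)).trans ?_
  simp only [dt1, DT.kv, sw1, sl1, sv1]
  ((try push_cast); ring1)
theorem kvh1 {p x : ℝ} (h1 : -9 / 20 < p) (h2 : p ≤ -2 / 5) : dt37.kv p x = (-66787963 / 25000000 + (x - 72 / 125) * (-71241607 / 5000000)) + (-217272389 / 20000000 + (x - 72 / 125) * (-142350773 / 2000000)) * p + (-11111169 / 1000000 + (x - 72 / 125) * (-8915521 / 100000)) * p ^ 2 := by
  refine (DT.kv_le (by simp only [Cn.rt_v, Cn.ng_v]; push_cast; linarith)).trans ?_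
  refine (DT.kv_le (by simp only [Cn.rt_v, Cn.ng_v]; push_cast; linarith)).trans ?_
  refine (DT.kv_le (by simp only [Cn.rt_v, Cn.ng_v]; push_cast; linarith)).trans ?_
  refine (DT.kv_gt (by simp only [Cn.rt_v, Cn.ng_v]; push_cast; linarith)).trans ?_
  simp only [dt2, DT.kv, sw2, sl2, sv2]
  ((try push_cast); ring1)
theorem kvh2 {p x : ℝ} (h1 : -2 / 5 < p) (h2 : p ≤ -7 / 20) : dt37.kv p x = (-27894757 / 12500000 + (x - 72 / 125) * (-570783 / 62500)) + (-34655719 / 4000000 + (x - 72 / 125) * (-45596419 / 1000000)) * p + (-8361557 / 1000000 + (x - 72 / 125) * (-114363 / 2000)) * p ^ 2 := by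
  refine (DT.kv_le (by simp only [Cn.rt_v, Cn.ng_v]; push_cast; linarith)).trans ?_
  refine (DT.kv_le (by simp only [Cn.rt_v, Cn.ng_v]; push_cast; linarith)).trans ?_
  refine (DT.kv_gt (by simp only [Cn.rt_v, Cn.ng_v]; push_cast; linarith)).trans ?_
  refine (DT.kv_le (by simp only [Cn.rt_v, Cn.ng_v]; push_cast; linarith)).trans ?_
  simp only [dt3, DT.kv, sw3, sl3, sv3]
  ((try push_cast); ring1)
theorem kvh3 {p x : ℝ} (h1 : -7 / 20 < p) (h2 : p ≤ -3 / 10) : dt37.kv p x = (-869149 / 6250000 + (x - 72 / 125) * (2295877 / 10000000)) + (16466543 / 5000000 + (x - 72 / 125) * (7901387 / 1000000)) * p + (2180053 / 250000 + (x - 72 / 125) * (962197 / 50000)) * p ^ 2 := by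
  refine (DT.kv_le (by simp only [Cn.rt_v, Cn.ng_v]; push_cast; linarith)).trans ?_
  refine (DT.kv_le (by simp only [Cn.rt_v, Cn.ng_v]; push_cast; linarith)).trans ?_
  refine (DT.kv_gt (by simp only [Cn.rt_v, Cn.ng_v]; push_cast; linarith)).trans ?_
  refine (DT.kv_gt (by simp only [Cn.rt_v, Cn.ng_v]; push_cast; linarith)).trans ?_
  simp only [dt4, DT.kv, sw4, sl4, sv4]
  ((try push_cast); ring1)
theorem kvh4 {p x : ℝ} (h1 : -3 / 10 < p) (h2 : p ≤ -1 / 4) : dt37.kv p x = (65117719 / 200000000 + (x - 72 / 125) * (7112323 / 4000000)) + (127819831 / 20000000 + (x - 72 / 125) * (36449343 / 2000000)) * p + (13883017 / 1000000 + (x - 72 / 125) * (3644941 / 100000)) * p ^ 2 := by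
  refine (DT.kv_le (by simp only [Cn.rt_v, Cn.ng_v]; push_cast; linarith)).trans ?_
  refine (DT.kv_gt (by simp only [Cn.rt_v, Cn.ng_v]; push_cast; linarith)).trans ?_
  refine (DT.kv_le (by simp only [Cn.rt_v, Cn.ng_v]; push_cast; linarith)).trans ?_
  refine (DT.kv_le (by simp only [Cn.rt_v, Cn.ng_v]; push_cast; linarith)).trans ?_
  simp only [dt5, DT.kv, sw5, sl5, sv5]
  ((try push_cast); ring1)
theorem kvh5 {p x : ℝ} (h1 : -1 / 4 < p) (h2 : p ≤ -1 / 5) : dt37.kv p x = (22321297 / 100000000 + (x - 72 / 125) * (-999967 / 2000000)) + (111439731 / 20000000 + (x - 72 / 125) * (319 / 2000000)) * p + (12245007 / 1000000 + (x - 72 / 125) * (39 / 100000)) * p ^ 2 := by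
  refine (DT.kv_le (by simp only [Cn.rt_v, Cn.ng_v]; push_cast; linarith)).trans ?_
  refine (DT.kv_gt (by simp only [Cn.rt_v, Cn.ng_v]; push_cast; linarith)).trans ?_
  refine (DT.kv_le (by simp only [Cn.rt_v, Cn.ng_v]; push_cast; linarith)).trans ?_
  refine (DT.kv_gt (by simp only [Cn.rt_v, Cn.ng_v]; push_cast; linarith)).trans ?_
  simp only [dt6, DT.kv, sw6, sl6, sv6]
  ((try push_cast); ring1)
theorem kvh6 {p x : ℝ} (h1 : -1 / 5 < p) (h2 : p ≤ -3 / 20) : dt37.kv p x = (10231153 / 25000000 + (x - 72 / 125) * (3875853 / 5000000)) + (74323177 / 10000000 + (x - 72 / 125) * (127517 / 10000)) * p + (8447917 / 500000 + (x - 72 / 125) * (796981 / 25000)) * p ^ 2 := by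
  refine (DT.kv_le (by simp only [Cn.rt_v, Cn.ng_v]; push_cast; linarith)).trans ?_
  refine (DT.kv_gt (by simp only [Cn.rt_v, Cn.ng_v]; push_cast; linarith)).trans ?_
  refine (DT.kv_gt (by simp only [Cn.rt_v, Cn.ng_v]; push_cast; linarith)).trans ?_
  refine (DT.kv_le (by simp only [Cn.rt_v, Cn.ng_v]; push_cast; linarith)).trans ?_
  simp only [dt7, DT.kv, sw7, sl7, sv7]
  ((try push_cast); ring1)
theorem kvh7 {p x : ℝ} (h1 : -3 / 20 < p) (h2 : p ≤ -1 / 10) : dt37.kv p x = (8208749 / 200000000 + (x - 72 / 125) * (4366593 / 5000000)) + (50459057 / 20000000 + (x - 72 / 125) * (7030169 / 500000)) * p + (106257 / 200000 + (x - 72 / 125) * (453017 / 12500)) * p ^ 2 := by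
  refine (DT.kv_le (by simp only [Cn.rt_v, Cn.ng_v]; push_cast; linarith)).trans ?_
  refine (DT.kv_gt (by simp only [Cn.rt_v, Cn.ng_v]; push_cast; linarith)).trans ?_
  refine (DT.kv_gt (by simp only [Cn.rt_v, Cn.ng_v]; push_cast; linarith)).trans ?_
  refine (DT.kv_gt (by simp only [Cn.rt_v, Cn.ng_v]; push_cast; linarith)).trans ?_
  refine (DT.kv_le (by simp only [Cn.rt_v, Cn.ng_v]; push_cast; linarith)).trans ?_
  simp only [dt8, DT.kv, sw8, sl8, sv8]
  ((try push_cast); ring1)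
theorem kvh8 {p x : ℝ} (h1 : -1 / 10 < p) (h2 : p ≤ -1 / 20) : dt37.kv p x = (-2382059 / 200000000 + (x - 72 / 125) * (-212877 / 1250000)) + (29277437 / 20000000 + (x - 72 / 125) * (-212877 / 31250)) * p + (-4764121 / 1000000 + (x - 72 / 125) * (-212877 / 3125)) * p ^ 2 := by
  refine (DT.kv_le (by simp only [Cn.rt_v, Cn.ng_v]; push_cast; linarith)).trans ?_
  refine (DT.kv_gt (by simp only [Cn.rt_v, Cn.ng_v]; push_cast; linarith)).trans ?_
  refine (DT.kv_gt (by simp only [Cn.rt_v, Cn.ng_v]; push_cast; linarith)).trans ?_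
  refine (DT.kv_gt (by simp only [Cn.rt_v, Cn.ng_v]; push_cast; linarith)).trans ?_
  refine (DT.kv_gt (by simp only [Cn.rt_v, Cn.ng_v]; push_cast; linarith)).trans ?_
  simp only [dt9, DT.kv, sw9, sl9, sv9]
  ((try push_cast); ring1)
theorem kvh9 {p x : ℝ} (h1 : -1 / 20 < p) (h2 : p ≤ 1 / 20) : dt37.kv p x = (0) + (9701419 / 5000000) * p := by
  refine (DT.kv_gt (by simp only [Cn.rt_v, Cn.ng_v]; push_cast; linarith)).trans ?_
  refine (DT.kv_le (by simp only [Cn.rt_v, Cn.ng_v]; push_cast; linarith)).trans ?_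
  refine (DT.kv_le (by simp only [Cn.rt_v, Cn.ng_v]; push_cast; linarith)).trans ?_
  refine (DT.kv_le (by simp only [Cn.rt_v, Cn.ng_v]; push_cast; linarith)).trans ?_
  simp only [dt10, DT.kv, sl10, sv10]
  ((try push_cast); ring1)
theorem kvh10 {p x : ℝ} (h1 : 1 / 20 < p) (h2 : p ≤ 1 / 10) : dt37.kv p x = (2382059 / 200000000 + (x - 72 / 125) * (212877 / 1250000)) + (29277437 / 20000000 + (x - 72 / 125) * (-212877 / 31250)) * p + (4764121 / 1000000 + (x - 72 / 125) * (212877 / 3125)) * p ^ 2 := by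
  refine (DT.kv_gt (by simp only [Cn.rt_v, Cn.ng_v]; push_cast; linarith)).trans ?_
  refine (DT.kv_le (by simp only [Cn.rt_v, Cn.ng_v]; push_cast; linarith)).trans ?_
  refine (DT.kv_le (by simp only [Cn.rt_v, Cn.ng_v]; push_cast; linarith)).trans ?_
  refine (DT.kv_gt (by simp only [Cn.rt_v, Cn.ng_v]; push_cast; linarith)).trans ?_
  simp only [dt11, DT.kv, sw11, sl11, sv11]
  ((try push_cast); ring1)
theorem kvh11 {p x : ℝ} (h1 : 1 / 10 < p) (h2 : p ≤ 3 / 20) : dt37.kv p x = (-8208749 / 200000000 + (x - 72 / 125) * (-4366593 / 5000000)) + (50459057 / 20000000 + (x - 72 / 125) * (7030169 / 500000)) * p + (-106257 / 200000 + (x - 72 / 125) * (-453017 / 12500)) * p ^ 2 := by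
  refine (DT.kv_gt (by simp only [Cn.rt_v, Cn.ng_v]; push_cast; linarith)).trans ?_
  refine (DT.kv_le (by simp only [Cn.rt_v, Cn.ng_v]; push_cast; linarith)).trans ?_
  refine (DT.kv_gt (by simp only [Cn.rt_v, Cn.ng_v]; push_cast; linarith)).trans ?_
  refine (DT.kv_le (by simp only [Cn.rt_v, Cn.ng_v]; push_cast; linarith)).trans ?_
  simp only [dt12, DT.kv, sw12, sl12, sv12]
  ((try push_cast); ring1)
theorem kvh12 {p x : ℝ} (h1 : 3 / 20 < p) (h2 : p ≤ 1 / 5) : dt37.kv p x = (-10231153 / 25000000 + (x - 72 / 125) * (-3875853 / 5000000)) + (74323177 / 10000000 + (x - 72 / 125) * (127517 / 10000)) * p + (-8447917 / 500000 + (x - 72 / 125) * (-796981 / 25000)) * p ^ 2 := by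
  refine (DT.kv_gt (by simp only [Cn.rt_v, Cn.ng_v]; push_cast; linarith)).trans ?_
  refine (DT.kv_le (by simp only [Cn.rt_v, Cn.ng_v]; push_cast; linarith)).trans ?_
  refine (DT.kv_gt (by simp only [Cn.rt_v, Cn.ng_v]; push_cast; linarith)).trans ?_
  refine (DT.kv_gt (by simp only [Cn.rt_v, Cn.ng_v]; push_cast; linarith)).trans ?_
  refine (DT.kv_le (by simp only [Cn.rt_v, Cn.ng_v]; push_cast; linarith)).trans ?_
  simp only [dt13, DT.kv, sw13, sl13, sv13]
  ((try push_cast); ring1)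
theorem kvh13 {p x : ℝ} (h1 : 1 / 5 < p) (h2 : p ≤ 1 / 4) : dt37.kv p x = (-22321297 / 100000000 + (x - 72 / 125) * (999967 / 2000000)) + (111439731 / 20000000 + (x - 72 / 125) * (319 / 2000000)) * p + (-12245007 / 1000000 + (x - 72 / 125) * (-39 / 100000)) * p ^ 2 := by
  refine (DT.kv_gt (by simp only [Cn.rt_v, Cn.ng_v]; push_cast; linarith)).trans ?_
  refine (DT.kv_le (by simp only [Cn.rt_v, Cn.ng_v]; push_cast; linarith)).trans ?_
  refine (DT.kv_gt (by simp only [Cn.rt_v, Cn.ng_v]; push_cast; linarith)).trans ?_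
  refine (DT.kv_gt (by simp only [Cn.rt_v, Cn.ng_v]; push_cast; linarith)).trans ?_
  refine (DT.kv_gt (by simp only [Cn.rt_v, Cn.ng_v]; push_cast; linarith)).trans ?_
  simp only [dt14, DT.kv, sw14, sl14, sv14]
  ((try push_cast); ring1)
theorem kvh14 {p x : ℝ} (h1 : 1 / 4 < p) (h2 : p ≤ 3 / 10) : dt37.kv p x = (-65117719 / 200000000 + (x - 72 / 125) * (-7112323 / 4000000)) + (127819831 / 20000000 + (x - 72 / 125) * (36449343 / 2000000)) * p + (-13883017 / 1000000 + (x - 72 / 125) * (-3644941 / 100000)) * p ^ 2 := by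
  refine (DT.kv_gt (by simp only [Cn.rt_v, Cn.ng_v]; push_cast; linarith)).trans ?_
  refine (DT.kv_gt (by simp only [Cn.rt_v, Cn.ng_v]; push_cast; linarith)).trans ?_
  refine (DT.kv_le (by simp only [Cn.rt_v, Cn.ng_v]; push_cast; linarith)).trans ?_
  refine (DT.kv_le (by simp only [Cn.rt_v, Cn.ng_v]; push_cast; linarith)).trans ?_
  simp only [dt15, DT.kv, sw15, sl15, sv15]
  ((try push_cast); ring1)
theorem kvh15 {p x : ℝ} (h1 : 3 / 10 < p) (h2 : p ≤ 7 / 20) : dt37.kv p x = (869149 / 6250000 + (x - 72 / 125) * (-2295877 / 10000000)) + (16466543 / 5000000 + (x - 72 / 125) * (7901387 / 1000000)) * p + (-2180053 / 250000 + (x - 72 / 125) * (-962197 / 50000)) * p ^ 2 := by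
  refine (DT.kv_gt (by simp only [Cn.rt_v, Cn.ng_v]; push_cast; linarith)).trans ?_
  refine (DT.kv_gt (by simp only [Cn.rt_v, Cn.ng_v]; push_cast; linarith)).trans ?_
  refine (DT.kv_le (by simp only [Cn.rt_v, Cn.ng_v]; push_cast; linarith)).trans ?_
  refine (DT.kv_gt (by simp only [Cn.rt_v, Cn.ng_v]; push_cast; linarith)).trans ?_
  simp only [dt16, DT.kv, sw16, sl16, sv16]
  ((try push_cast); ring1)
theorem kvh16 {p x : ℝ} (h1 : 7 / 20 < p) (h2 : p ≤ 2 / 5) : dt37.kv p x = (27894757 / 12500000 + (x - 72 / 125) * (570783 / 62500)) + (-34655719 / 4000000 + (x - 72 / 125) * (-45596419 / 1000000)) * p + (8361557 / 1000000 + (x - 72 / 125) * (114363 / 2000)) * p ^ 2 := by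
  refine (DT.kv_gt (by simp only [Cn.rt_v, Cn.ng_v]; push_cast; linarith)).trans ?_
  refine (DT.kv_gt (by simp only [Cn.rt_v, Cn.ng_v]; push_cast; linarith)).trans ?_
  refine (DT.kv_gt (by simp only [Cn.rt_v, Cn.ng_v]; push_cast; linarith)).trans ?_
  refine (DT.kv_le (by simp only [Cn.rt_v, Cn.ng_v]; push_cast; linarith)).trans ?_
  simp only [dt17, DT.kv, sw17, sl17, sv17]
  ((try push_cast); ring1)
theorem kvh17 {p x : ℝ} (h1 : 2 / 5 < p) (h2 : p ≤ 9 / 20) : dt37.kv p x = (66787963 / 25000000 + (x - 72 / 125) * (71241607 / 5000000)) + (-217272389 / 20000000 + (x - 72 / 125) * (-142350773 / 2000000)) * p + (11111169 / 1000000 + (x - 72 / 125) * (8915521 / 100000)) * p ^ 2 := by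
  refine (DT.kv_gt (by simp only [Cn.rt_v, Cn.ng_v]; push_cast; linarith)).trans ?_
  refine (DT.kv_gt (by simp only [Cn.rt_v, Cn.ng_v]; push_cast; linarith)).trans ?_
  refine (DT.kv_gt (by simp only [Cn.rt_v, Cn.ng_v]; push_cast; linarith)).trans ?_
  refine (DT.kv_gt (by simp only [Cn.rt_v, Cn.ng_v]; push_cast; linarith)).trans ?_
  refine (DT.kv_le (by simp only [Cn.rt_v, Cn.ng_v]; push_cast; linarith)).trans ?_
  simp only [dt18, DT.kv, sw18, sl18, sv18]
  ((try push_cast); ring1)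
theorem kvh18 {p x : ℝ} (h1 : 9 / 20 < p) (h2 : p ≤ 1 / 2) : dt37.kv p x = (906588703 / 100000000 + (x - 72 / 125) * (-257370631 / 10000000)) + (-392830353 / 10000000 + (x - 72 / 125) * (53268717 / 500000)) * p + (21344149 / 500000 + (x - 72 / 125) * (-2707587 / 25000)) * p ^ 2 := by
  refine (DT.kv_gt (by simp only [Cn.rt_v, Cn.ng_v]; push_cast; linarith)).trans ?_
  refine (DT.kv_gt (by simp only [Cn.rt_v, Cn.ng_v]; push_cast; linarith)).trans ?_
  refine (DT.kv_gt (by simp only [Cn.rt_v, Cn.ng_v]; push_cast; linarith)).trans ?_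
  refine (DT.kv_gt (by simp only [Cn.rt_v, Cn.ng_v]; push_cast; linarith)).trans ?_
  refine (DT.kv_gt (by simp only [Cn.rt_v, Cn.ng_v]; push_cast; linarith)).trans ?_
  simp only [dt19, DT.kv, sw19, sl19, sv19]
  ((try push_cast); ring1)
theorem kvl0 {p x : ℝ} (h1 : -1 / 2 ≤ p) (h2 : p ≤ -9 / 20) : dt37.kv p x = (-906588703 / 100000000 + (x - 72 / 125) * (257370631 / 10000000)) + (-392830353 / 10000000 + (x - 72 / 125) * (53268717 / 500000)) * p + (-21344149 / 500000 + (x - 72 / 125) * (2707587 / 25000)) * p ^ 2 := by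
  exact kvh0 h2
theorem kvl1 {p x : ℝ} (h1 : -9 / 20 ≤ p) (h2 : p ≤ -2 / 5) : dt37.kv p x = (-66787963 / 25000000 + (x - 72 / 125) * (-71241607 / 5000000)) + (-217272389 / 20000000 + (x - 72 / 125) * (-142350773 / 2000000)) * p + (-11111169 / 1000000 + (x - 72 / 125) * (-8915521 / 100000)) * p ^ 2 := by
  rcases eq_or_lt_of_le h1 with h | h1
  · subst h
    rw [kvh0 (by norm_num)]
    ring1
  · exact kvh1 h1 h2
theorem kvl2 {p x : ℝ} (h1 : -2 / 5 ≤ p) (h2 : p ≤ -7 / 20) : dt37.kv p x = (-27894757 / 12500000 + (x - 72 / 125) * (-570783 / 62500)) + (-34655719 / 4000000 + (x - 72 / 125) * (-45596419 / 1000000)) * p + (-8361557 / 1000000 + (x - 72 / 125) * (-114363 / 2000)) * p ^ 2 := by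
  rcases eq_or_lt_of_le h1 with h | h1
  · subst h
    rw [kvh1 (by norm_num) (by norm_num)]
    ring1
  · exact kvh2 h1 h2
theorem kvl3 {p x : ℝ} (h1 : -7 / 20 ≤ p) (h2 : p ≤ -3 / 10) : dt37.kv p x = (-869149 / 6250000 + (x - 72 / 125) * (2295877 / 10000000)) + (16466543 / 5000000 + (x - 72 / 125) * (7901387 / 1000000)) * p + (2180053 / 250000 + (x - 72 / 125) * (962197 / 50000)) * p ^ 2 := by
  rcases eq_or_lt_of_le h1 with h | h1
  · subst h
    rw [kvh2 (by norm_num) (by norm_num)]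
    ring1
  · exact kvh3 h1 h2
theorem kvl4 {p x : ℝ} (h1 : -3 / 10 ≤ p) (h2 : p ≤ -1 / 4) : dt37.kv p x = (65117719 / 200000000 + (x - 72 / 125) * (7112323 / 4000000)) + (127819831 / 20000000 + (x - 72 / 125) * (36449343 / 2000000)) * p + (13883017 / 1000000 + (x - 72 / 125) * (3644941 / 100000)) * p ^ 2 := by
  rcases eq_or_lt_of_le h1 with h | h1
  · subst h
    rw [kvh3 (by norm_num) (by norm_num)]
    ring1
  · exact kvh4 h1 h2
theorem kvl5 {p x : ℝ} (h1 : -1 / 4 ≤ p) (h2 : p ≤ -1 / 5) : dt37.kv p x = (22321297 / 100000000 + (x - 72 / 125) * (-999967 / 2000000)) + (111439731 / 20000000 + (x - 72 / 125) * (319 / 2000000)) * p + (12245007 / 1000000 + (x - 72 / 125) * (39 / 100000)) * p ^ 2 := by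
  rcases eq_or_lt_of_le h1 with h | h1
  · subst h
    rw [kvh4 (by norm_num) (by norm_num)]
    ring1
  · exact kvh5 h1 h2
theorem kvl6 {p x : ℝ} (h1 : -1 / 5 ≤ p) (h2 : p ≤ -3 / 20) : dt37.kv p x = (10231153 / 25000000 + (x - 72 / 125) * (3875853 / 5000000)) + (74323177 / 10000000 + (x - 72 / 125) * (127517 / 10000)) * p + (8447917 / 500000 + (x - 72 / 125) * (796981 / 25000)) * p ^ 2 := by
  rcases eq_or_lt_of_le h1 with h | h1
  · subst h
    rw [kvh5 (by norm_num) (by norm_num)]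
    ring1
  · exact kvh6 h1 h2
theorem kvl7 {p x : ℝ} (h1 : -3 / 20 ≤ p) (h2 : p ≤ -1 / 10) : dt37.kv p x = (8208749 / 200000000 + (x - 72 / 125) * (4366593 / 5000000)) + (50459057 / 20000000 + (x - 72 / 125) * (7030169 / 500000)) * p + (106257 / 200000 + (x - 72 / 125) * (453017 / 12500)) * p ^ 2 := by
  rcases eq_or_lt_of_le h1 with h | h1
  · subst h
    rw [kvh6 (by norm_num) (by norm_num)]
    ring1
  · exact kvh7 h1 h2
theorem kvl8 {p x : ℝ} (h1 : -1 / 10 ≤ p) (h2 : p ≤ -1 / 20) : dt37.kv p x = (-2382059 / 200000000 + (x - 72 / 125) * (-212877 / 1250000)) + (29277437 / 20000000 + (x - 72 / 125) * (-212877 / 31250)) * p + (-4764121 / 1000000 + (x - 72 / 125) * (-212877 / 3125)) * p ^ 2 := by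
  rcases eq_or_lt_of_le h1 with h | h1
  · subst h
    rw [kvh7 (by norm_num) (by norm_num)]
    ring1
  · exact kvh8 h1 h2
theorem kvl9 {p x : ℝ} (h1 : -1 / 20 ≤ p) (h2 : p ≤ 1 / 20) : dt37.kv p x = (0) + (9701419 / 5000000) * p := by
  rcases eq_or_lt_of_le h1 with h | h1
  · subst h
    rw [kvh8 (by norm_num) (by norm_num)]
    ring1
  · exact kvh9 h1 h2
theorem kvl10 {p x : ℝ} (h1 : 1 / 20 ≤ p) (h2 : p ≤ 1 / 10) : dt37.kv p x = (2382059 / 200000000 + (x - 72 / 125) * (212877 / 1250000)) + (29277437 / 20000000 + (x - 72 / 125) * (-212877 / 31250)) * p + (4764121 / 1000000 + (x - 72 / 125) * (212877 / 3125)) * p ^ 2 := by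
  rcases eq_or_lt_of_le h1 with h | h1
  · subst h
    rw [kvh9 (by norm_num) (by norm_num)]
    ring1
  · exact kvh10 h1 h2
theorem kvl11 {p x : ℝ} (h1 : 1 / 10 ≤ p) (h2 : p ≤ 3 / 20) : dt37.kv p x = (-8208749 / 200000000 + (x - 72 / 125) * (-4366593 / 5000000)) + (50459057 / 20000000 + (x - 72 / 125) * (7030169 / 500000)) * p + (-106257 / 200000 + (x - 72 / 125) * (-453017 / 12500)) * p ^ 2 := by
  rcases eq_or_lt_of_le h1 with h | h1
  · subst h
    rw [kvh10 (by norm_num) (by norm_num)]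
    ring1
  · exact kvh11 h1 h2
theorem kvl12 {p x : ℝ} (h1 : 3 / 20 ≤ p) (h2 : p ≤ 1 / 5) : dt37.kv p x = (-10231153 / 25000000 + (x - 72 / 125) * (-3875853 / 5000000)) + (74323177 / 10000000 + (x - 72 / 125) * (127517 / 10000)) * p + (-8447917 / 500000 + (x - 72 / 125) * (-796981 / 25000)) * p ^ 2 := by
  rcases eq_or_lt_of_le h1 with h | h1
  · subst h
    rw [kvh11 (by norm_num) (by norm_num)]
    ring1
  · exact kvh12 h1 h2
theorem kvl13 {p x : ℝ} (h1 : 1 / 5 ≤ p) (h2 : p ≤ 1 / 4) : dt37.kv p x = (-22321297 / 100000000 + (x - 72 / 125) * (999967 / 2000000)) + (111439731 / 20000000 + (x - 72 / 125) * (319 / 2000000)) * p + (-12245007 / 1000000 + (x - 72 / 125) * (-39 / 100000)) * p ^ 2 := by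
  rcases eq_or_lt_of_le h1 with h | h1
  · subst h
    rw [kvh12 (by norm_num) (by norm_num)]
    ring1
  · exact kvh13 h1 h2
theorem kvl14 {p x : ℝ} (h1 : 1 / 4 ≤ p) (h2 : p ≤ 3 / 10) : dt37.kv p x = (-65117719 / 200000000 + (x - 72 / 125) * (-7112323 / 4000000)) + (127819831 / 20000000 + (x - 72 / 125) * (36449343 / 2000000)) * p + (-13883017 / 1000000 + (x - 72 / 125) * (-3644941 / 100000)) * p ^ 2 := by
  rcases eq_or_lt_of_le h1 with h | h1
  · subst h
    rw [kvh13 (by norm_num) (by norm_num)]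
    ring1
  · exact kvh14 h1 h2
theorem kvl15 {p x : ℝ} (h1 : 3 / 10 ≤ p) (h2 : p ≤ 7 / 20) : dt37.kv p x = (869149 / 6250000 + (x - 72 / 125) * (-2295877 / 10000000)) + (16466543 / 5000000 + (x - 72 / 125) * (7901387 / 1000000)) * p + (-2180053 / 250000 + (x - 72 / 125) * (-962197 / 50000)) * p ^ 2 := by
  rcases eq_or_lt_of_le h1 with h | h1
  · subst h
    rw [kvh14 (by norm_num) (by norm_num)]
    ring1
  · exact kvh15 h1 h2
theorem kvl16 {p x : ℝ} (h1 : 7 / 20 ≤ p) (h2 : p ≤ 2 / 5) : dt37.kv p x = (27894757 / 12500000 + (x - 72 / 125) * (570783 / 62500)) + (-34655719 / 4000000 + (x - 72 / 125) * (-45596419 / 1000000)) * p + (8361557 / 1000000 + (x - 72 / 125) * (114363 / 2000)) * p ^ 2 := by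
  rcases eq_or_lt_of_le h1 with h | h1
  · subst h
    rw [kvh15 (by norm_num) (by norm_num)]
    ring1
  · exact kvh16 h1 h2
theorem kvl17 {p x : ℝ} (h1 : 2 / 5 ≤ p) (h2 : p ≤ 9 / 20) : dt37.kv p x = (66787963 / 25000000 + (x - 72 / 125) * (71241607 / 5000000)) + (-217272389 / 20000000 + (x - 72 / 125) * (-142350773 / 2000000)) * p + (11111169 / 1000000 + (x - 72 / 125) * (8915521 / 100000)) * p ^ 2 := by
  rcases eq_or_lt_of_le h1 with h | h1
  · subst h
    rw [kvh16 (by norm_num) (by norm_num)]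
    ring1
  · exact kvh17 h1 h2
theorem kvl18 {p x : ℝ} (h1 : 9 / 20 ≤ p) (h2 : p ≤ 1 / 2) : dt37.kv p x = (906588703 / 100000000 + (x - 72 / 125) * (-257370631 / 10000000)) + (-392830353 / 10000000 + (x - 72 / 125) * (53268717 / 500000)) * p + (21344149 / 500000 + (x - 72 / 125) * (-2707587 / 25000)) * p ^ 2 := by
  rcases eq_or_lt_of_le h1 with h | h1
  · subst h
    rw [kvh17 (by norm_num) (by norm_num)]
    ring1
  · exact kvh18 h1 h2
theorem kfe {x p : ℝ} (h : |p| ≤ 1 / 2) : kcg.v p x = dt37.kv p x := by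
  obtain ⟨h1, h2⟩ := abs_le.1 h
  rcases le_total p (-9 / 20) with g0 | g1000
  · rw [kcl0 (by linarith) g0, kvl0 (by linarith) g0]
  rcases le_total p (-2 / 5) with g1 | g1001
  · rw [kcl1 g1000 g1, kvl1 g1000 g1]
  rcases le_total p (-7 / 20) with g2 | g1002
  · rw [kcl2 g1001 g2, kvl2 g1001 g2]
  rcases le_total p (-3 / 10) with g3 | g1003
  · rw [kcl3 g1002 g3, kvl3 g1002 g3]
  rcases le_total p (-1 / 4) with g4 | g1004
  · rw [kcl4 g1003 g4, kvl4 g1003 g4]
  rcases le_total p (-1 / 5) with g5 | g1005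
  · rw [kcl5 g1004 g5, kvl5 g1004 g5]
  rcases le_total p (-3 / 20) with g6 | g1006
  · rw [kcl6 g1005 g6, kvl6 g1005 g6]
  rcases le_total p (-1 / 10) with g7 | g1007
  · rw [kcl7 g1006 g7, kvl7 g1006 g7]
  rcases le_total p (-1 / 20) with g8 | g1008
  · rw [kcl8 g1007 g8, kvl8 g1007 g8]
  rcases le_total p (1 / 20) with g9 | g1009
  · rw [kcl9 g1008 g9, kvl9 g1008 g9]
  rcases le_total p (1 / 10) with g10 | g1010
  · rw [kcl10 g1009 g10, kvl10 g1009 g10]
  rcases le_total p (3 / 20) with g11 | g1011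
  · rw [kcl11 g1010 g11, kvl11 g1010 g11]
  rcases le_total p (1 / 5) with g12 | g1012
  · rw [kcl12 g1011 g12, kvl12 g1011 g12]
  rcases le_total p (1 / 4) with g13 | g1013
  · rw [kcl13 g1012 g13, kvl13 g1012 g13]
  rcases le_total p (3 / 10) with g14 | g1014
  · rw [kcl14 g1013 g14, kvl14 g1013 g14]
  rcases le_total p (7 / 20) with g15 | g1015
  · rw [kcl15 g1014 g15, kvl15 g1014 g15]
  rcases le_total p (2 / 5) with g16 | g1016
  · rw [kcl16 g1015 g16, kvl16 g1015 g16]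
  rcases le_total p (9 / 20) with g17 | g1017
  · rw [kcl17 g1016 g17, kvl17 g1016 g17]
  · rw [kcl18 g1017 (by linarith), kvl18 g1017 (by linarith)]
theorem odd {x p : ℝ} (h : |p| ≤ 1 / 2) : kcg.v (-p) x = -kcg.v p x := by
  obtain ⟨h1, h2⟩ := abs_le.1 h
  rcases le_total p (-9 / 20) with g0 | g1000
  · rw [kcl0 (by linarith) g0, kcl18 (p := -p) (by linarith) (by linarith)]; ring
  rcases le_total p (-2 / 5) with g1 | g1001
  · rw [kcl1 g1000 g1, kcl17 (p := -p) (by linarith) (by linarith)]; ring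
  rcases le_total p (-7 / 20) with g2 | g1002
  · rw [kcl2 g1001 g2, kcl16 (p := -p) (by linarith) (by linarith)]; ring
  rcases le_total p (-3 / 10) with g3 | g1003
  · rw [kcl3 g1002 g3, kcl15 (p := -p) (by linarith) (by linarith)]; ring
  rcases le_total p (-1 / 4) with g4 | g1004
  · rw [kcl4 g1003 g4, kcl14 (p := -p) (by linarith) (by linarith)]; ring
  rcases le_total p (-1 / 5) with g5 | g1005
  · rw [kcl5 g1004 g5, kcl13 (p := -p) (by linarith) (by linarith)]; ring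
  rcases le_total p (-3 / 20) with g6 | g1006
  · rw [kcl6 g1005 g6, kcl12 (p := -p) (by linarith) (by linarith)]; ring
  rcases le_total p (-1 / 10) with g7 | g1007
  · rw [kcl7 g1006 g7, kcl11 (p := -p) (by linarith) (by linarith)]; ring
  rcases le_total p (-1 / 20) with g8 | g1008
  · rw [kcl8 g1007 g8, kcl10 (p := -p) (by linarith) (by linarith)]; ring
  rcases le_total p (1 / 20) with g9 | g1009
  · rw [kcl9 g1008 g9, kcl9 (p := -p) (by linarith) (by linarith)]; ring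
  rcases le_total p (1 / 10) with g10 | g1010
  · rw [kcl10 g1009 g10, kcl8 (p := -p) (by linarith) (by linarith)]; ring
  rcases le_total p (3 / 20) with g11 | g1011
  · rw [kcl11 g1010 g11, kcl7 (p := -p) (by linarith) (by linarith)]; ring
  rcases le_total p (1 / 5) with g12 | g1012
  · rw [kcl12 g1011 g12, kcl6 (p := -p) (by linarith) (by linarith)]; ring
  rcases le_total p (1 / 4) with g13 | g1013
  · rw [kcl13 g1012 g13, kcl5 (p := -p) (by linarith) (by linarith)]; ring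
  rcases le_total p (3 / 10) with g14 | g1014
  · rw [kcl14 g1013 g14, kcl4 (p := -p) (by linarith) (by linarith)]; ring
  rcases le_total p (7 / 20) with g15 | g1015
  · rw [kcl15 g1014 g15, kcl3 (p := -p) (by linarith) (by linarith)]; ring
  rcases le_total p (2 / 5) with g16 | g1016
  · rw [kcl16 g1015 g16, kcl2 (p := -p) (by linarith) (by linarith)]; ring
  rcases le_total p (9 / 20) with g17 | g1017
  · rw [kcl17 g1016 g17, kcl1 (p := -p) (by linarith) (by linarith)]; ring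
  · rw [kcl18 g1017 (by linarith), kcl0 (p := -p) (by linarith) (by linarith)]; ring
theorem ctA : cT (-47 / 914) = 407 / 457 := by
  unfold cT
  rw [show (3 / 4 * (1 - (-47 / 914 : ℝ) ^ 2)) = (1581 / 1828) ^ 2 by norm_num, Real.sqrt_sq (by norm_num)]
  norm_num
theorem ctB : cT (37 / 763) = 1283 / 1526 := by
  unfold cT
  rw [show (3 / 4 * (1 - (37 / 763 : ℝ) ^ 2)) = (660 / 763) ^ 2 by norm_num, Real.sqrt_sq (by norm_num)]
  norm_num
theorem kgA {x : ℝ} : kcg.v (-47 / 914) x = (-1041984537789 / 10442450000000 + (x - 72 / 125) * (-35976213 / 261061250000)) := by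
  rw [kcl8 (by norm_num) (by norm_num)]
  ring
theorem kgB {x : ℝ} : kcg.v (37 / 763) x = (51278929 / 545000000) := by
  rw [kcl9 (by norm_num) (by norm_num)]
  ring
theorem ka_dt1 (x : ℝ) : dt1.kv (-1 / 2) x = (-2411097 / 25000000 + (x - 72 / 125) * (-4557839 / 10000000)) := by
  simp only [dt1, DT.kv, sw1, sl1, sv1]
  ((try push_cast); ring1)
theorem kb_dt1 (x : ℝ) : dt1.kv (-9 / 20) x = (-3290149 / 100000000 + (x - 72 / 125) * (-109331 / 400000)) := by
  simp only [dt1, DT.kv, sw1, sl1, sv1]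
  ((try push_cast); ring1)
theorem ka_dt2 (x : ℝ) : dt2.kv (-9 / 20) x = (-3290149 / 100000000 + (x - 72 / 125) * (-109331 / 400000)) := by
  simp only [dt2, DT.kv, sw2, sl2, sv2]
  ((try push_cast); ring1)
theorem kb_dt2 (x : ℝ) : dt2.kv (-2 / 5) x = (-5192889 / 50000000 + (x - 72 / 125) * (-107501 / 2500000)) := by
  simp only [dt2, DT.kv, sw2, sl2, sv2]
  ((try push_cast); ring1)
theorem ka_dt20 (x : ℝ) : dt20.kv (-1 / 2) x = (-2411097 / 25000000 + (x - 72 / 125) * (-4557839 / 10000000)) :=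
  (DT.kv_le (by simp only [Cn.rt_v, Cn.ng_v]; norm_num)).trans (ka_dt1 x)
theorem kb_dt20 (x : ℝ) : dt20.kv (-2 / 5) x = (-5192889 / 50000000 + (x - 72 / 125) * (-107501 / 2500000)) :=
  (DT.kv_gt (by simp only [Cn.rt_v, Cn.ng_v]; norm_num)).trans (kb_dt2 x)
theorem ka_dt3 (x : ℝ) : dt3.kv (-2 / 5) x = (-5192889 / 50000000 + (x - 72 / 125) * (-107501 / 2500000)) := by
  simp only [dt3, DT.kv, sw3, sl3, sv3]
  ((try push_cast); ring1)
theorem kb_dt3 (x : ℝ) : dt3.kv (-7 / 20) x = (-5587397 / 25000000 + (x - 72 / 125) * (-1785151 / 10000000)) := by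
  simp only [dt3, DT.kv, sw3, sl3, sv3]
  ((try push_cast); ring1)
theorem ka_dt4 (x : ℝ) : dt4.kv (-7 / 20) x = (-5587397 / 25000000 + (x - 72 / 125) * (-1785151 / 10000000)) := by
  simp only [dt4, DT.kv, sw4, sl4, sv4]
  ((try push_cast); ring1)
theorem kb_dt4 (x : ℝ) : dt4.kv (-3 / 10) x = (-17111867 / 50000000 + (x - 72 / 125) * (-2044369 / 5000000)) := by
  simp only [dt4, DT.kv, sw4, sl4, sv4]
  ((try push_cast); ring1)
theorem ka_dt21 (x : ℝ) : dt21.kv (-2 / 5) x = (-5192889 / 50000000 + (x - 72 / 125) * (-107501 / 2500000)) :=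
  (DT.kv_le (by simp only [Cn.rt_v, Cn.ng_v]; norm_num)).trans (ka_dt3 x)
theorem kb_dt21 (x : ℝ) : dt21.kv (-3 / 10) x = (-17111867 / 50000000 + (x - 72 / 125) * (-2044369 / 5000000)) :=
  (DT.kv_gt (by simp only [Cn.rt_v, Cn.ng_v]; norm_num)).trans (kb_dt4 x)
theorem ka_dt22 (x : ℝ) : dt22.kv (-1 / 2) x = (-2411097 / 25000000 + (x - 72 / 125) * (-4557839 / 10000000)) :=
  (DT.kv_le (by simp only [Cn.rt_v, Cn.ng_v]; norm_num)).trans (ka_dt20 x)
theorem kb_dt22 (x : ℝ) : dt22.kv (-3 / 10) x = (-17111867 / 50000000 + (x - 72 / 125) * (-2044369 / 5000000)) :=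
  (DT.kv_gt (by simp only [Cn.rt_v, Cn.ng_v]; norm_num)).trans (kb_dt21 x)
theorem ka_dt5 (x : ℝ) : dt5.kv (-3 / 10) x = (-17111867 / 50000000 + (x - 72 / 125) * (-2044369 / 5000000)) := by
  simp only [dt5, DT.kv, sw5, sl5, sv5]
  ((try push_cast); ring1)
theorem kb_dt5 (x : ℝ) : dt5.kv (-1 / 4) x = (-40447073 / 100000000 + (x - 72 / 125) * (-499999 / 1000000)) := by
  simp only [dt5, DT.kv, sw5, sl5, sv5]
  ((try push_cast); ring1)
theorem ka_dt6 (x : ℝ) : dt6.kv (-1 / 4) x = (-40447073 / 100000000 + (x - 72 / 125) * (-499999 / 1000000)) := by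
  simp only [dt6, DT.kv, sw6, sl6, sv6]
  ((try push_cast); ring1)
theorem kb_dt6 (x : ℝ) : dt6.kv (-1 / 5) x = (-20069203 / 50000000 + (x - 72 / 125) * (-2499999 / 5000000)) := by
  simp only [dt6, DT.kv, sw6, sl6, sv6]
  ((try push_cast); ring1)
theorem ka_dt23 (x : ℝ) : dt23.kv (-3 / 10) x = (-17111867 / 50000000 + (x - 72 / 125) * (-2044369 / 5000000)) :=
  (DT.kv_le (by simp only [Cn.rt_v, Cn.ng_v]; norm_num)).trans (ka_dt5 x)
theorem kb_dt23 (x : ℝ) : dt23.kv (-1 / 5) x = (-20069203 / 50000000 + (x - 72 / 125) * (-2499999 / 5000000)) :=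
  (DT.kv_gt (by simp only [Cn.rt_v, Cn.ng_v]; norm_num)).trans (kb_dt6 x)
theorem ka_dt7 (x : ℝ) : dt7.kv (-1 / 5) x = (-20069203 / 50000000 + (x - 72 / 125) * (-2499999 / 5000000)) := by
  simp only [dt7, DT.kv, sw7, sl7, sv7]
  ((try push_cast); ring1)
theorem kb_dt7 (x : ℝ) : dt7.kv (-3 / 20) x = (-32544527 / 100000000 + (x - 72 / 125) * (-840603 / 2000000)) := by
  simp only [dt7, DT.kv, sw7, sl7, sv7]
  ((try push_cast); ring1)
theorem ka_dt8 (x : ℝ) : dt8.kv (-3 / 20) x = (-32544527 / 100000000 + (x - 72 / 125) * (-840603 / 2000000)) := by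
  simp only [dt8, DT.kv, sw8, sl8, sv8]
  ((try push_cast); ring1)
theorem kb_dt8 (x : ℝ) : dt8.kv (-1 / 10) x = (-20593869 / 100000000 + (x - 72 / 125) * (-212877 / 1250000)) := by
  simp only [dt8, DT.kv, sw8, sl8, sv8]
  ((try push_cast); ring1)
theorem ka_dt9 (x : ℝ) : dt9.kv (-1 / 10) x = (-20593869 / 100000000 + (x - 72 / 125) * (-212877 / 1250000)) := by
  simp only [dt9, DT.kv, sw9, sl9, sv9]
  ((try push_cast); ring1)
theorem kb_dt9 (x : ℝ) : dt9.kv (-1 / 20) x = (-9701419 / 100000000) := by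
  simp only [dt9, DT.kv, sw9, sl9, sv9]
  ((try push_cast); ring1)
theorem ka_dt24 (x : ℝ) : dt24.kv (-3 / 20) x = (-32544527 / 100000000 + (x - 72 / 125) * (-840603 / 2000000)) :=
  (DT.kv_le (by simp only [Cn.rt_v, Cn.ng_v]; norm_num)).trans (ka_dt8 x)
theorem kb_dt24 (x : ℝ) : dt24.kv (-1 / 20) x = (-9701419 / 100000000) :=
  (DT.kv_gt (by simp only [Cn.rt_v, Cn.ng_v]; norm_num)).trans (kb_dt9 x)
theorem ka_dt25 (x : ℝ) : dt25.kv (-1 / 5) x = (-20069203 / 50000000 + (x - 72 / 125) * (-2499999 / 5000000)) :=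
  (DT.kv_le (by simp only [Cn.rt_v, Cn.ng_v]; norm_num)).trans (ka_dt7 x)
theorem kb_dt25 (x : ℝ) : dt25.kv (-1 / 20) x = (-9701419 / 100000000) :=
  (DT.kv_gt (by simp only [Cn.rt_v, Cn.ng_v]; norm_num)).trans (kb_dt24 x)
theorem ka_dt26 (x : ℝ) : dt26.kv (-3 / 10) x = (-17111867 / 50000000 + (x - 72 / 125) * (-2044369 / 5000000)) :=
  (DT.kv_le (by simp only [Cn.rt_v, Cn.ng_v]; norm_num)).trans (ka_dt23 x)
theorem kb_dt26 (x : ℝ) : dt26.kv (-1 / 20) x = (-9701419 / 100000000) :=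
  (DT.kv_gt (by simp only [Cn.rt_v, Cn.ng_v]; norm_num)).trans (kb_dt25 x)
theorem ka_dt27 (x : ℝ) : dt27.kv (-1 / 2) x = (-2411097 / 25000000 + (x - 72 / 125) * (-4557839 / 10000000)) :=
  (DT.kv_le (by simp only [Cn.rt_v, Cn.ng_v]; norm_num)).trans (ka_dt22 x)
theorem kb_dt27 (x : ℝ) : dt27.kv (-1 / 20) x = (-9701419 / 100000000) :=
  (DT.kv_gt (by simp only [Cn.rt_v, Cn.ng_v]; norm_num)).trans (kb_dt26 x)
theorem ka_dt10 (x : ℝ) : dt10.kv (-1 / 20) x = (-9701419 / 100000000) := by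
  simp only [dt10, DT.kv, sl10, sv10]
  ((try push_cast); ring1)
theorem kb_dt10 (x : ℝ) : dt10.kv (1 / 20) x = (9701419 / 100000000) := by
  simp only [dt10, DT.kv, sl10, sv10]
  ((try push_cast); ring1)
theorem ka_dt11 (x : ℝ) : dt11.kv (1 / 20) x = (9701419 / 100000000) := by
  simp only [dt11, DT.kv, sw11, sl11, sv11]
  ((try push_cast); ring1)
theorem kb_dt11 (x : ℝ) : dt11.kv (1 / 10) x = (20593869 / 100000000 + (x - 72 / 125) * (212877 / 1250000)) := by
  simp only [dt11, DT.kv, sw11, sl11, sv11]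
  ((try push_cast); ring1)
theorem ka_dt28 (x : ℝ) : dt28.kv (-1 / 20) x = (-9701419 / 100000000) :=
  (DT.kv_le (by simp only [Cn.rt_v, Cn.ng_v]; norm_num)).trans (ka_dt10 x)
theorem kb_dt28 (x : ℝ) : dt28.kv (1 / 10) x = (20593869 / 100000000 + (x - 72 / 125) * (212877 / 1250000)) :=
  (DT.kv_gt (by simp only [Cn.rt_v, Cn.ng_v]; norm_num)).trans (kb_dt11 x)
theorem ka_dt12 (x : ℝ) : dt12.kv (1 / 10) x = (20593869 / 100000000 + (x - 72 / 125) * (212877 / 1250000)) := by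
  simp only [dt12, DT.kv, sw12, sl12, sv12]
  ((try push_cast); ring1)
theorem kb_dt12 (x : ℝ) : dt12.kv (3 / 20) x = (32544527 / 100000000 + (x - 72 / 125) * (840603 / 2000000)) := by
  simp only [dt12, DT.kv, sw12, sl12, sv12]
  ((try push_cast); ring1)
theorem ka_dt13 (x : ℝ) : dt13.kv (3 / 20) x = (32544527 / 100000000 + (x - 72 / 125) * (840603 / 2000000)) := by
  simp only [dt13, DT.kv, sw13, sl13, sv13]
  ((try push_cast); ring1)
theorem kb_dt13 (x : ℝ) : dt13.kv (1 / 5) x = (20069203 / 50000000 + (x - 72 / 125) * (2499999 / 5000000)) := by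
  simp only [dt13, DT.kv, sw13, sl13, sv13]
  ((try push_cast); ring1)
theorem ka_dt14 (x : ℝ) : dt14.kv (1 / 5) x = (20069203 / 50000000 + (x - 72 / 125) * (2499999 / 5000000)) := by
  simp only [dt14, DT.kv, sw14, sl14, sv14]
  ((try push_cast); ring1)
theorem kb_dt14 (x : ℝ) : dt14.kv (1 / 4) x = (40447073 / 100000000 + (x - 72 / 125) * (499999 / 1000000)) := by
  simp only [dt14, DT.kv, sw14, sl14, sv14]
  ((try push_cast); ring1)
theorem ka_dt29 (x : ℝ) : dt29.kv (3 / 20) x = (32544527 / 100000000 + (x - 72 / 125) * (840603 / 2000000)) :=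
  (DT.kv_le (by simp only [Cn.rt_v, Cn.ng_v]; norm_num)).trans (ka_dt13 x)
theorem kb_dt29 (x : ℝ) : dt29.kv (1 / 4) x = (40447073 / 100000000 + (x - 72 / 125) * (499999 / 1000000)) :=
  (DT.kv_gt (by simp only [Cn.rt_v, Cn.ng_v]; norm_num)).trans (kb_dt14 x)
theorem ka_dt30 (x : ℝ) : dt30.kv (1 / 10) x = (20593869 / 100000000 + (x - 72 / 125) * (212877 / 1250000)) :=
  (DT.kv_le (by simp only [Cn.rt_v, Cn.ng_v]; norm_num)).trans (ka_dt12 x)
theorem kb_dt30 (x : ℝ) : dt30.kv (1 / 4) x = (40447073 / 100000000 + (x - 72 / 125) * (499999 / 1000000)) :=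
  (DT.kv_gt (by simp only [Cn.rt_v, Cn.ng_v]; norm_num)).trans (kb_dt29 x)
theorem ka_dt31 (x : ℝ) : dt31.kv (-1 / 20) x = (-9701419 / 100000000) :=
  (DT.kv_le (by simp only [Cn.rt_v, Cn.ng_v]; norm_num)).trans (ka_dt28 x)
theorem kb_dt31 (x : ℝ) : dt31.kv (1 / 4) x = (40447073 / 100000000 + (x - 72 / 125) * (499999 / 1000000)) :=
  (DT.kv_gt (by simp only [Cn.rt_v, Cn.ng_v]; norm_num)).trans (kb_dt30 x)
theorem ka_dt15 (x : ℝ) : dt15.kv (1 / 4) x = (40447073 / 100000000 + (x - 72 / 125) * (499999 / 1000000)) := by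
  simp only [dt15, DT.kv, sw15, sl15, sv15]
  ((try push_cast); ring1)
theorem kb_dt15 (x : ℝ) : dt15.kv (3 / 10) x = (17111867 / 50000000 + (x - 72 / 125) * (2044369 / 5000000)) := by
  simp only [dt15, DT.kv, sw15, sl15, sv15]
  ((try push_cast); ring1)
theorem ka_dt16 (x : ℝ) : dt16.kv (3 / 10) x = (17111867 / 50000000 + (x - 72 / 125) * (2044369 / 5000000)) := by
  simp only [dt16, DT.kv, sw16, sl16, sv16]
  ((try push_cast); ring1)
theorem kb_dt16 (x : ℝ) : dt16.kv (7 / 20) x = (5587397 / 25000000 + (x - 72 / 125) * (1785151 / 10000000)) := by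
  simp only [dt16, DT.kv, sw16, sl16, sv16]
  ((try push_cast); ring1)
theorem ka_dt32 (x : ℝ) : dt32.kv (1 / 4) x = (40447073 / 100000000 + (x - 72 / 125) * (499999 / 1000000)) :=
  (DT.kv_le (by simp only [Cn.rt_v, Cn.ng_v]; norm_num)).trans (ka_dt15 x)
theorem kb_dt32 (x : ℝ) : dt32.kv (7 / 20) x = (5587397 / 25000000 + (x - 72 / 125) * (1785151 / 10000000)) :=
  (DT.kv_gt (by simp only [Cn.rt_v, Cn.ng_v]; norm_num)).trans (kb_dt16 x)
theorem ka_dt17 (x : ℝ) : dt17.kv (7 / 20) x = (5587397 / 25000000 + (x - 72 / 125) * (1785151 / 10000000)) := by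
  simp only [dt17, DT.kv, sw17, sl17, sv17]
  ((try push_cast); ring1)
theorem kb_dt17 (x : ℝ) : dt17.kv (2 / 5) x = (5192889 / 50000000 + (x - 72 / 125) * (107501 / 2500000)) := by
  simp only [dt17, DT.kv, sw17, sl17, sv17]
  ((try push_cast); ring1)
theorem ka_dt18 (x : ℝ) : dt18.kv (2 / 5) x = (5192889 / 50000000 + (x - 72 / 125) * (107501 / 2500000)) := by
  simp only [dt18, DT.kv, sw18, sl18, sv18]
  ((try push_cast); ring1)
theorem kb_dt18 (x : ℝ) : dt18.kv (9 / 20) x = (3290149 / 100000000 + (x - 72 / 125) * (109331 / 400000)) := by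
  simp only [dt18, DT.kv, sw18, sl18, sv18]
  ((try push_cast); ring1)
theorem ka_dt19 (x : ℝ) : dt19.kv (9 / 20) x = (3290149 / 100000000 + (x - 72 / 125) * (109331 / 400000)) := by
  simp only [dt19, DT.kv, sw19, sl19, sv19]
  ((try push_cast); ring1)
theorem kb_dt19 (x : ℝ) : dt19.kv (1 / 2) x = (2411097 / 25000000 + (x - 72 / 125) * (4557839 / 10000000)) := by
  simp only [dt19, DT.kv, sw19, sl19, sv19]
  ((try push_cast); ring1)
theorem ka_dt33 (x : ℝ) : dt33.kv (2 / 5) x = (5192889 / 50000000 + (x - 72 / 125) * (107501 / 2500000)) :=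
  (DT.kv_le (by simp only [Cn.rt_v, Cn.ng_v]; norm_num)).trans (ka_dt18 x)
theorem kb_dt33 (x : ℝ) : dt33.kv (1 / 2) x = (2411097 / 25000000 + (x - 72 / 125) * (4557839 / 10000000)) :=
  (DT.kv_gt (by simp only [Cn.rt_v, Cn.ng_v]; norm_num)).trans (kb_dt19 x)
theorem ka_dt34 (x : ℝ) : dt34.kv (7 / 20) x = (5587397 / 25000000 + (x - 72 / 125) * (1785151 / 10000000)) :=
  (DT.kv_le (by simp only [Cn.rt_v, Cn.ng_v]; norm_num)).trans (ka_dt17 x)
theorem kb_dt34 (x : ℝ) : dt34.kv (1 / 2) x = (2411097 / 25000000 + (x - 72 / 125) * (4557839 / 10000000)) :=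
  (DT.kv_gt (by simp only [Cn.rt_v, Cn.ng_v]; norm_num)).trans (kb_dt33 x)
theorem ka_dt35 (x : ℝ) : dt35.kv (1 / 4) x = (40447073 / 100000000 + (x - 72 / 125) * (499999 / 1000000)) :=
  (DT.kv_le (by simp only [Cn.rt_v, Cn.ng_v]; norm_num)).trans (ka_dt32 x)
theorem kb_dt35 (x : ℝ) : dt35.kv (1 / 2) x = (2411097 / 25000000 + (x - 72 / 125) * (4557839 / 10000000)) :=
  (DT.kv_gt (by simp only [Cn.rt_v, Cn.ng_v]; norm_num)).trans (kb_dt34 x)
theorem ka_dt36 (x : ℝ) : dt36.kv (-1 / 20) x = (-9701419 / 100000000) :=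
  (DT.kv_le (by simp only [Cn.rt_v, Cn.ng_v]; norm_num)).trans (ka_dt31 x)
theorem kb_dt36 (x : ℝ) : dt36.kv (1 / 2) x = (2411097 / 25000000 + (x - 72 / 125) * (4557839 / 10000000)) :=
  (DT.kv_gt (by simp only [Cn.rt_v, Cn.ng_v]; norm_num)).trans (kb_dt35 x)
theorem ka_dt37 (x : ℝ) : dt37.kv (-1 / 2) x = (-2411097 / 25000000 + (x - 72 / 125) * (-4557839 / 10000000)) :=
  (DT.kv_le (by simp only [Cn.rt_v, Cn.ng_v]; norm_num)).trans (ka_dt27 x)
theorem kb_dt37 (x : ℝ) : dt37.kv (1 / 2) x = (2411097 / 25000000 + (x - 72 / 125) * (4557839 / 10000000)) :=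
  (DT.kv_gt (by simp only [Cn.rt_v, Cn.ng_v]; norm_num)).trans (kb_dt36 x)
theorem ko_dt1 (x : ℝ) : dt1.KOk x := trivial
theorem ko_dt2 (x : ℝ) : dt2.KOk x := trivial
theorem ko_dt20 (x : ℝ) : dt20.KOk x :=
  DT.kOk_node (v := -9 / 20) (by simp only [Cn.rt_v, Cn.ng_v]; norm_num) (kb_dt1 x) (ka_dt2 x) (by ring1) (ko_dt1 x) (ko_dt2 x)
theorem ko_dt3 (x : ℝ) : dt3.KOk x := trivial
theorem ko_dt4 (x : ℝ) : dt4.KOk x := trivial
theorem ko_dt21 (x : ℝ) : dt21.KOk x :=
  DT.kOk_node (v := -7 / 20) (by simp only [Cn.rt_v, Cn.ng_v]; norm_num) (kb_dt3 x) (ka_dt4 x) (by ring1) (ko_dt3 x) (ko_dt4 x)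
theorem ko_dt22 (x : ℝ) : dt22.KOk x :=
  DT.kOk_node (v := -2 / 5) (by simp only [Cn.rt_v, Cn.ng_v]; norm_num) (kb_dt20 x) (ka_dt21 x) (by ring1) (ko_dt20 x) (ko_dt21 x)
theorem ko_dt5 (x : ℝ) : dt5.KOk x := trivial
theorem ko_dt6 (x : ℝ) : dt6.KOk x := trivial
theorem ko_dt23 (x : ℝ) : dt23.KOk x :=
  DT.kOk_node (v := -1 / 4) (by simp only [Cn.rt_v, Cn.ng_v]; norm_num) (kb_dt5 x) (ka_dt6 x) (by ring1) (ko_dt5 x) (ko_dt6 x)
theorem ko_dt7 (x : ℝ) : dt7.KOk x := trivial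
theorem ko_dt8 (x : ℝ) : dt8.KOk x := trivial
theorem ko_dt9 (x : ℝ) : dt9.KOk x := trivial
theorem ko_dt24 (x : ℝ) : dt24.KOk x :=
  DT.kOk_node (v := -1 / 10) (by simp only [Cn.rt_v, Cn.ng_v]; norm_num) (kb_dt8 x) (ka_dt9 x) (by ring1) (ko_dt8 x) (ko_dt9 x)
theorem ko_dt25 (x : ℝ) : dt25.KOk x :=
  DT.kOk_node (v := -3 / 20) (by simp only [Cn.rt_v, Cn.ng_v]; norm_num) (kb_dt7 x) (ka_dt24 x) (by ring1) (ko_dt7 x) (ko_dt24 x)
theorem ko_dt26 (x : ℝ) : dt26.KOk x :=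
  DT.kOk_node (v := -1 / 5) (by simp only [Cn.rt_v, Cn.ng_v]; norm_num) (kb_dt23 x) (ka_dt25 x) (by ring1) (ko_dt23 x) (ko_dt25 x)
theorem ko_dt27 (x : ℝ) : dt27.KOk x :=
  DT.kOk_node (v := -3 / 10) (by simp only [Cn.rt_v, Cn.ng_v]; norm_num) (kb_dt22 x) (ka_dt26 x) (by ring1) (ko_dt22 x) (ko_dt26 x)
theorem ko_dt10 (x : ℝ) : dt10.KOk x := trivial
theorem ko_dt11 (x : ℝ) : dt11.KOk x := trivial
theorem ko_dt28 (x : ℝ) : dt28.KOk x :=
  DT.kOk_node (v := 1 / 20) (by simp only [Cn.rt_v, Cn.ng_v]; norm_num) (kb_dt10 x) (ka_dt11 x) (by ring1) (ko_dt10 x) (ko_dt11 x)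
theorem ko_dt12 (x : ℝ) : dt12.KOk x := trivial
theorem ko_dt13 (x : ℝ) : dt13.KOk x := trivial
theorem ko_dt14 (x : ℝ) : dt14.KOk x := trivial
theorem ko_dt29 (x : ℝ) : dt29.KOk x :=
  DT.kOk_node (v := 1 / 5) (by simp only [Cn.rt_v, Cn.ng_v]; norm_num) (kb_dt13 x) (ka_dt14 x) (by ring1) (ko_dt13 x) (ko_dt14 x)
theorem ko_dt30 (x : ℝ) : dt30.KOk x :=
  DT.kOk_node (v := 3 / 20) (by simp only [Cn.rt_v, Cn.ng_v]; norm_num) (kb_dt12 x) (ka_dt29 x) (by ring1) (ko_dt12 x) (ko_dt29 x)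
theorem ko_dt31 (x : ℝ) : dt31.KOk x :=
  DT.kOk_node (v := 1 / 10) (by simp only [Cn.rt_v, Cn.ng_v]; norm_num) (kb_dt28 x) (ka_dt30 x) (by ring1) (ko_dt28 x) (ko_dt30 x)
theorem ko_dt15 (x : ℝ) : dt15.KOk x := trivial
theorem ko_dt16 (x : ℝ) : dt16.KOk x := trivial
theorem ko_dt32 (x : ℝ) : dt32.KOk x :=
  DT.kOk_node (v := 3 / 10) (by simp only [Cn.rt_v, Cn.ng_v]; norm_num) (kb_dt15 x) (ka_dt16 x) (by ring1) (ko_dt15 x) (ko_dt16 x)
theorem ko_dt17 (x : ℝ) : dt17.KOk x := trivial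
theorem ko_dt18 (x : ℝ) : dt18.KOk x := trivial
theorem ko_dt19 (x : ℝ) : dt19.KOk x := trivial
theorem ko_dt33 (x : ℝ) : dt33.KOk x :=
  DT.kOk_node (v := 9 / 20) (by simp only [Cn.rt_v, Cn.ng_v]; norm_num) (kb_dt18 x) (ka_dt19 x) (by ring1) (ko_dt18 x) (ko_dt19 x)
theorem ko_dt34 (x : ℝ) : dt34.KOk x :=
  DT.kOk_node (v := 2 / 5) (by simp only [Cn.rt_v, Cn.ng_v]; norm_num) (kb_dt17 x) (ka_dt33 x) (by ring1) (ko_dt17 x) (ko_dt33 x)
theorem ko_dt35 (x : ℝ) : dt35.KOk x :=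
  DT.kOk_node (v := 7 / 20) (by simp only [Cn.rt_v, Cn.ng_v]; norm_num) (kb_dt32 x) (ka_dt34 x) (by ring1) (ko_dt32 x) (ko_dt34 x)
theorem ko_dt36 (x : ℝ) : dt36.KOk x :=
  DT.kOk_node (v := 1 / 4) (by simp only [Cn.rt_v, Cn.ng_v]; norm_num) (kb_dt31 x) (ka_dt35 x) (by ring1) (ko_dt31 x) (ko_dt35 x)
theorem ko_dt37 (x : ℝ) : dt37.KOk x :=
  DT.kOk_node (v := -1 / 20) (by simp only [Cn.rt_v, Cn.ng_v]; norm_num) (kb_dt27 x) (ka_dt36 x) (by ring1) (ko_dt27 x) (ko_dt36 x)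
theorem txl0 {p c x : ℝ} (h1 : -1 / 2 ≤ p) (h2 : p ≤ -11 / 25) : txg.v p c x = dt76.val (fun p x => kcg.v p x) p c x := by
  symm
  refine (DT.val_le (by simp only [Cn.rt_v, Cn.ng_v]; push_cast; linarith)).trans ?_
  refine (DT.val_le (by simp only [Cn.rt_v, Cn.ng_v]; push_cast; linarith)).trans ?_
  refine (DT.val_le (by simp only [Cn.rt_v, Cn.ng_v]; push_cast; linarith)).trans ?_
  refine (DT.val_le (by simp only [Cn.rt_v, Cn.ng_v]; push_cast; linarith)).trans ?_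
  simp only [dt38, DT.val, cloR, sw38, sl38, sv38, txg, txg_4, txg_6, txg_27, txg_30, txg_33, txg_77, txg_121, txg_124, txg_164, txg_186, txg_245, txg_247, txg_248, txg_249, txg_290, txg_309, txg_352, txg_354, txg_396, txg_418]
  rcases eq_or_lt_of_le h1 with h | h1
  · subst h
    ((try push_cast); (repeat first | rw [if_pos (by linarith)] | rw [if_neg (by linarith)] | erw [if_pos (by linarith)] | erw [if_neg (by linarith)]); (try push_cast); (try ring1))
  rcases eq_or_lt_of_le h2 with h | h2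
  · subst h
    ((try push_cast); (repeat first | rw [if_pos (by linarith)] | rw [if_neg (by linarith)] | erw [if_pos (by linarith)] | erw [if_neg (by linarith)]); (try push_cast); (try ring1))
  · ((try push_cast); (repeat first | rw [if_pos (by linarith)] | rw [if_neg (by linarith)] | erw [if_pos (by linarith)] | erw [if_neg (by linarith)]); (try push_cast); (try ring1))
theorem txl1 {p c x : ℝ} (h1 : -11 / 25 < p) (h2 : p ≤ -19 / 50) : txg.v p c x = dt76.val (fun p x => kcg.v p x) p c x := by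
  symm
  refine (DT.val_le (by simp only [Cn.rt_v, Cn.ng_v]; push_cast; linarith)).trans ?_
  refine (DT.val_le (by simp only [Cn.rt_v, Cn.ng_v]; push_cast; linarith)).trans ?_
  refine (DT.val_le (by simp only [Cn.rt_v, Cn.ng_v]; push_cast; linarith)).trans ?_
  refine (DT.val_gt (by simp only [Cn.rt_v, Cn.ng_v]; push_cast; linarith)).trans ?_
  simp only [dt39, DT.val, cloR, sw39, sl39, sv39, txg, txg_4, txg_6, txg_27, txg_30, txg_33, txg_77, txg_121, txg_124, txg_164, txg_186, txg_245, txg_247, txg_248, txg_249, txg_290, txg_309, txg_352, txg_354, txg_396, txg_418]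
  rcases eq_or_lt_of_le h2 with h | h2
  · subst h
    ((try push_cast); (repeat first | rw [if_pos (by linarith)] | rw [if_neg (by linarith)] | erw [if_pos (by linarith)] | erw [if_neg (by linarith)]); (try push_cast); (try ring1))
  · ((try push_cast); (repeat first | rw [if_pos (by linarith)] | rw [if_neg (by linarith)] | erw [if_pos (by linarith)] | erw [if_neg (by linarith)]); (try push_cast); (try ring1))
theorem txl2 {p c x : ℝ} (h1 : -19 / 50 < p) (h2 : p ≤ -8 / 25) : txg.v p c x = dt76.val (fun p x => kcg.v p x) p c x := by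
  symm
  refine (DT.val_le (by simp only [Cn.rt_v, Cn.ng_v]; push_cast; linarith)).trans ?_
  refine (DT.val_le (by simp only [Cn.rt_v, Cn.ng_v]; push_cast; linarith)).trans ?_
  refine (DT.val_gt (by simp only [Cn.rt_v, Cn.ng_v]; push_cast; linarith)).trans ?_
  refine (DT.val_le (by simp only [Cn.rt_v, Cn.ng_v]; push_cast; linarith)).trans ?_
  simp only [dt40, DT.val, cloR, sw40, sl40, sv40, txg, txg_4, txg_6, txg_27, txg_30, txg_33, txg_77, txg_121, txg_124, txg_164, txg_186, txg_245, txg_247, txg_248, txg_249, txg_290, txg_309, txg_352, txg_354, txg_396, txg_418]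
  rcases eq_or_lt_of_le h2 with h | h2
  · subst h
    ((try push_cast); (repeat first | rw [if_pos (by linarith)] | rw [if_neg (by linarith)] | erw [if_pos (by linarith)] | erw [if_neg (by linarith)]); (try push_cast); (try ring1))
  · ((try push_cast); (repeat first | rw [if_pos (by linarith)] | rw [if_neg (by linarith)] | erw [if_pos (by linarith)] | erw [if_neg (by linarith)]); (try push_cast); (try ring1))
theorem txl3 {p c x : ℝ} (h1 : -8 / 25 < p) (h2 : p ≤ -13 / 50) : txg.v p c x = dt76.val (fun p x => kcg.v p x) p c x := by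
  symm
  refine (DT.val_le (by simp only [Cn.rt_v, Cn.ng_v]; push_cast; linarith)).trans ?_
  refine (DT.val_le (by simp only [Cn.rt_v, Cn.ng_v]; push_cast; linarith)).trans ?_
  refine (DT.val_gt (by simp only [Cn.rt_v, Cn.ng_v]; push_cast; linarith)).trans ?_
  refine (DT.val_gt (by simp only [Cn.rt_v, Cn.ng_v]; push_cast; linarith)).trans ?_
  refine (DT.val_le (by simp only [Cn.rt_v, Cn.ng_v]; push_cast; linarith)).trans ?_
  simp only [dt41, DT.val, cloR, sw41, sl41, sv41, txg, txg_4, txg_6, txg_27, txg_30, txg_33, txg_77, txg_121, txg_124, txg_164, txg_186, txg_245, txg_247, txg_248, txg_249, txg_290, txg_309, txg_352, txg_354, txg_396, txg_418]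
  rcases eq_or_lt_of_le h2 with h | h2
  · subst h
    ((try push_cast); (repeat first | rw [if_pos (by linarith)] | rw [if_neg (by linarith)] | erw [if_pos (by linarith)] | erw [if_neg (by linarith)]); (try push_cast); (try ring1))
  · ((try push_cast); (repeat first | rw [if_pos (by linarith)] | rw [if_neg (by linarith)] | erw [if_pos (by linarith)] | erw [if_neg (by linarith)]); (try push_cast); (try ring1))
theorem txl4 {p c x : ℝ} (h1 : -13 / 50 < p) (h2 : p ≤ -1 / 5) : txg.v p c x = dt76.val (fun p x => kcg.v p x) p c x := by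
  symm
  refine (DT.val_le (by simp only [Cn.rt_v, Cn.ng_v]; push_cast; linarith)).trans ?_
  refine (DT.val_le (by simp only [Cn.rt_v, Cn.ng_v]; push_cast; linarith)).trans ?_
  refine (DT.val_gt (by simp only [Cn.rt_v, Cn.ng_v]; push_cast; linarith)).trans ?_
  refine (DT.val_gt (by simp only [Cn.rt_v, Cn.ng_v]; push_cast; linarith)).trans ?_
  refine (DT.val_gt (by simp only [Cn.rt_v, Cn.ng_v]; push_cast; linarith)).trans ?_
  simp only [dt42, DT.val, cloR, sw42, sl42, sv42, txg, txg_4, txg_6, txg_27, txg_30, txg_33, txg_77, txg_121, txg_124, txg_164, txg_186, txg_245, txg_247, txg_248, txg_249, txg_290, txg_309, txg_352, txg_354, txg_396, txg_418]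
  rcases eq_or_lt_of_le h2 with h | h2
  · subst h
    ((try push_cast); (repeat first | rw [if_pos (by linarith)] | rw [if_neg (by linarith)] | erw [if_pos (by linarith)] | erw [if_neg (by linarith)]); (try push_cast); (try ring1))
  · ((try push_cast); (repeat first | rw [if_pos (by linarith)] | rw [if_neg (by linarith)] | erw [if_pos (by linarith)] | erw [if_neg (by linarith)]); (try push_cast); (try ring1))
theorem txl5 {p c x : ℝ} (h1 : -1 / 5 < p) (h2 : p ≤ -3 / 20) : txg.v p c x = dt76.val (fun p x => kcg.v p x) p c x := by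
  symm
  refine (DT.val_le (by simp only [Cn.rt_v, Cn.ng_v]; push_cast; linarith)).trans ?_
  refine (DT.val_gt (by simp only [Cn.rt_v, Cn.ng_v]; push_cast; linarith)).trans ?_
  refine (DT.val_le (by simp only [Cn.rt_v, Cn.ng_v]; push_cast; linarith)).trans ?_
  refine (DT.val_le (by simp only [Cn.rt_v, Cn.ng_v]; push_cast; linarith)).trans ?_
  simp only [dt43, DT.val, cloR, sw43, sl43, sv43, txg, txg_4, txg_6, txg_27, txg_30, txg_33, txg_77, txg_121, txg_124, txg_164, txg_186, txg_245, txg_247, txg_248, txg_249, txg_290, txg_309, txg_352, txg_354, txg_396, txg_418]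
  rcases eq_or_lt_of_le h2 with h | h2
  · subst h
    ((try push_cast); (repeat first | rw [if_pos (by linarith)] | rw [if_neg (by linarith)] | erw [if_pos (by linarith)] | erw [if_neg (by linarith)]); (try push_cast); (try ring1))
  · ((try push_cast); (repeat first | rw [if_pos (by linarith)] | rw [if_neg (by linarith)] | erw [if_pos (by linarith)] | erw [if_neg (by linarith)]); (try push_cast); (try ring1))
theorem txl6 {p c x : ℝ} (h1 : -3 / 20 < p) (h2 : p ≤ -1 / 10) : txg.v p c x = dt76.val (fun p x => kcg.v p x) p c x := by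
  symm
  refine (DT.val_le (by simp only [Cn.rt_v, Cn.ng_v]; push_cast; linarith)).trans ?_
  refine (DT.val_gt (by simp only [Cn.rt_v, Cn.ng_v]; push_cast; linarith)).trans ?_
  refine (DT.val_le (by simp only [Cn.rt_v, Cn.ng_v]; push_cast; linarith)).trans ?_
  refine (DT.val_gt (by simp only [Cn.rt_v, Cn.ng_v]; push_cast; linarith)).trans ?_
  simp only [dt44, DT.val, cloR, sw44, sl44, sv44, txg, txg_4, txg_6, txg_27, txg_30, txg_33, txg_77, txg_121, txg_124, txg_164, txg_186, txg_245, txg_247, txg_248, txg_249, txg_290, txg_309, txg_352, txg_354, txg_396, txg_418]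
  rcases eq_or_lt_of_le h2 with h | h2
  · subst h
    ((try push_cast); (repeat first | rw [if_pos (by linarith)] | rw [if_neg (by linarith)] | erw [if_pos (by linarith)] | erw [if_neg (by linarith)]); (try push_cast); (try ring1))
  · ((try push_cast); (repeat first | rw [if_pos (by linarith)] | rw [if_neg (by linarith)] | erw [if_pos (by linarith)] | erw [if_neg (by linarith)]); (try push_cast); (try ring1))
theorem txl7 {p c x : ℝ} (h1 : -1 / 10 < p) (h2 : p ≤ -7 / 100) : txg.v p c x = dt76.val (fun p x => kcg.v p x) p c x := by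
  symm
  refine (DT.val_le (by simp only [Cn.rt_v, Cn.ng_v]; push_cast; linarith)).trans ?_
  refine (DT.val_gt (by simp only [Cn.rt_v, Cn.ng_v]; push_cast; linarith)).trans ?_
  refine (DT.val_gt (by simp only [Cn.rt_v, Cn.ng_v]; push_cast; linarith)).trans ?_
  refine (DT.val_le (by simp only [Cn.rt_v, Cn.ng_v]; push_cast; linarith)).trans ?_
  simp only [dt45, DT.val, cloR, sw45, sw45_2, sl45, sl45_2, sv45, sv45_2, txg, txg_4, txg_6, txg_27, txg_30, txg_33, txg_77, txg_121, txg_124, txg_164, txg_186, txg_245, txg_247, txg_248, txg_249, txg_290, txg_309, txg_352, txg_354, txg_396, txg_418]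
  rcases eq_or_lt_of_le h2 with h | h2
  · subst h
    ((try push_cast); (repeat first | rw [if_pos (by linarith)] | rw [if_neg (by linarith)] | erw [if_pos (by linarith)] | erw [if_neg (by linarith)]); (try push_cast); (try ring1))
  · ((try push_cast); (repeat first | rw [if_pos (by linarith)] | rw [if_neg (by linarith)] | erw [if_pos (by linarith)] | erw [if_neg (by linarith)]); (try push_cast); (try ring1))
theorem txl8 {p c x : ℝ} (h1 : -7 / 100 < p) (h2 : p ≤ -47 / 914) : txg.v p c x = dt76.val (fun p x => kcg.v p x) p c x := by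
  symm
  refine (DT.val_le (by simp only [Cn.rt_v, Cn.ng_v]; push_cast; linarith)).trans ?_
  refine (DT.val_gt (by simp only [Cn.rt_v, Cn.ng_v]; push_cast; linarith)).trans ?_
  refine (DT.val_gt (by simp only [Cn.rt_v, Cn.ng_v]; push_cast; linarith)).trans ?_
  refine (DT.val_gt (by simp only [Cn.rt_v, Cn.ng_v]; push_cast; linarith)).trans ?_
  refine (DT.val_le (by simp only [Cn.rt_v, Cn.ng_v]; push_cast; linarith)).trans ?_
  simp only [dt46, DT.val, cloR, sw46, sw46_2, sl46, sl46_2, sv46, sv46_2, txg, txg_4, txg_6, txg_27, txg_30, txg_33, txg_77, txg_121, txg_124, txg_164, txg_186, txg_245, txg_247, txg_248, txg_249, txg_290, txg_309, txg_352, txg_354, txg_396, txg_418]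
  rcases eq_or_lt_of_le h2 with h | h2
  · subst h
    ((try push_cast); (repeat first | rw [if_pos (by linarith)] | rw [if_neg (by linarith)] | erw [if_pos (by linarith)] | erw [if_neg (by linarith)]); (try push_cast); (try ring1))
  · ((try push_cast); (repeat first | rw [if_pos (by linarith)] | rw [if_neg (by linarith)] | erw [if_pos (by linarith)] | erw [if_neg (by linarith)]); (try push_cast); (try ring1))
theorem txl9 {p c x : ℝ} (h1 : -47 / 914 < p) (h2 : p ≤ 37 / 763) : txg.v p c x = dt76.val (fun p x => kcg.v p x) p c x := by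
  symm
  refine (DT.val_le (by simp only [Cn.rt_v, Cn.ng_v]; push_cast; linarith)).trans ?_
  refine (DT.val_gt (by simp only [Cn.rt_v, Cn.ng_v]; push_cast; linarith)).trans ?_
  refine (DT.val_gt (by simp only [Cn.rt_v, Cn.ng_v]; push_cast; linarith)).trans ?_
  refine (DT.val_gt (by simp only [Cn.rt_v, Cn.ng_v]; push_cast; linarith)).trans ?_
  refine (DT.val_gt (by simp only [Cn.rt_v, Cn.ng_v]; push_cast; linarith)).trans ?_
  simp only [dt47, DT.val, cloR, txg, txg_4, txg_6, txg_27, txg_30, txg_33, txg_77, txg_121, txg_124, txg_164, txg_186, txg_245, txg_247, txg_248, txg_249, txg_290, txg_309, txg_352, txg_354, txg_396, txg_418]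
  rcases eq_or_lt_of_le h2 with h | h2
  · subst h
    ((try push_cast); (repeat first | rw [if_pos (by linarith)] | rw [if_neg (by linarith)] | erw [if_pos (by linarith)] | erw [if_neg (by linarith)]); (try push_cast); (try ring1))
  · ((try push_cast); (repeat first | rw [if_pos (by linarith)] | rw [if_neg (by linarith)] | erw [if_pos (by linarith)] | erw [if_neg (by linarith)]); (try push_cast); (try ring1))
theorem txl10 {p c x : ℝ} (h1 : 37 / 763 < p) (h2 : p ≤ 7 / 100) : txg.v p c x = dt76.val (fun p x => kcg.v p x) p c x := by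
  symm
  refine (DT.val_gt (by simp only [Cn.rt_v, Cn.ng_v]; push_cast; linarith)).trans ?_
  refine (DT.val_le (by simp only [Cn.rt_v, Cn.ng_v]; push_cast; linarith)).trans ?_
  refine (DT.val_le (by simp only [Cn.rt_v, Cn.ng_v]; push_cast; linarith)).trans ?_
  refine (DT.val_le (by simp only [Cn.rt_v, Cn.ng_v]; push_cast; linarith)).trans ?_
  simp only [dt48, DT.val, cloR, sw48, sl48, sv48, txg, txg_4, txg_6, txg_27, txg_30, txg_33, txg_77, txg_121, txg_124, txg_164, txg_186, txg_245, txg_247, txg_248, txg_249, txg_290, txg_309, txg_352, txg_354, txg_396, txg_418]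
  rcases eq_or_lt_of_le h2 with h | h2
  · subst h
    ((try push_cast); (repeat first | rw [if_pos (by linarith)] | rw [if_neg (by linarith)] | erw [if_pos (by linarith)] | erw [if_neg (by linarith)]); (try push_cast); (try ring1))
  · ((try push_cast); (repeat first | rw [if_pos (by linarith)] | rw [if_neg (by linarith)] | erw [if_pos (by linarith)] | erw [if_neg (by linarith)]); (try push_cast); (try ring1))
theorem txl11 {p c x : ℝ} (h1 : 7 / 100 < p) (h2 : p ≤ 1 / 10) : txg.v p c x = dt76.val (fun p x => kcg.v p x) p c x := by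
  symm
  refine (DT.val_gt (by simp only [Cn.rt_v, Cn.ng_v]; push_cast; linarith)).trans ?_
  refine (DT.val_le (by simp only [Cn.rt_v, Cn.ng_v]; push_cast; linarith)).trans ?_
  refine (DT.val_le (by simp only [Cn.rt_v, Cn.ng_v]; push_cast; linarith)).trans ?_
  refine (DT.val_gt (by simp only [Cn.rt_v, Cn.ng_v]; push_cast; linarith)).trans ?_
  simp only [dt49, DT.val, cloR, sw49, sl49, sv49, txg, txg_4, txg_6, txg_27, txg_30, txg_33, txg_77, txg_121, txg_124, txg_164, txg_186, txg_245, txg_247, txg_248, txg_249, txg_290, txg_309, txg_352, txg_354, txg_396, txg_418]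
  rcases eq_or_lt_of_le h2 with h | h2
  · subst h
    ((try push_cast); (repeat first | rw [if_pos (by linarith)] | rw [if_neg (by linarith)] | erw [if_pos (by linarith)] | erw [if_neg (by linarith)]); (try push_cast); (try ring1))
  · ((try push_cast); (repeat first | rw [if_pos (by linarith)] | rw [if_neg (by linarith)] | erw [if_pos (by linarith)] | erw [if_neg (by linarith)]); (try push_cast); (try ring1))
theorem txl12 {p c x : ℝ} (h1 : 1 / 10 < p) (h2 : p ≤ 3 / 20) : txg.v p c x = dt76.val (fun p x => kcg.v p x) p c x := by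
  symm
  refine (DT.val_gt (by simp only [Cn.rt_v, Cn.ng_v]; push_cast; linarith)).trans ?_
  refine (DT.val_le (by simp only [Cn.rt_v, Cn.ng_v]; push_cast; linarith)).trans ?_
  refine (DT.val_gt (by simp only [Cn.rt_v, Cn.ng_v]; push_cast; linarith)).trans ?_
  refine (DT.val_le (by simp only [Cn.rt_v, Cn.ng_v]; push_cast; linarith)).trans ?_
  simp only [dt50, DT.val, cloR, sw50, sl50, sv50, txg, txg_4, txg_6, txg_27, txg_30, txg_33, txg_77, txg_121, txg_124, txg_164, txg_186, txg_245, txg_247, txg_248, txg_249, txg_290, txg_309, txg_352, txg_354, txg_396, txg_418]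
  rcases eq_or_lt_of_le h2 with h | h2
  · subst h
    ((try push_cast); (repeat first | rw [if_pos (by linarith)] | rw [if_neg (by linarith)] | erw [if_pos (by linarith)] | erw [if_neg (by linarith)]); (try push_cast); (try ring1))
  · ((try push_cast); (repeat first | rw [if_pos (by linarith)] | rw [if_neg (by linarith)] | erw [if_pos (by linarith)] | erw [if_neg (by linarith)]); (try push_cast); (try ring1))
theorem txl13 {p c x : ℝ} (h1 : 3 / 20 < p) (h2 : p ≤ 1 / 5) : txg.v p c x = dt76.val (fun p x => kcg.v p x) p c x := by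
  symm
  refine (DT.val_gt (by simp only [Cn.rt_v, Cn.ng_v]; push_cast; linarith)).trans ?_
  refine (DT.val_le (by simp only [Cn.rt_v, Cn.ng_v]; push_cast; linarith)).trans ?_
  refine (DT.val_gt (by simp only [Cn.rt_v, Cn.ng_v]; push_cast; linarith)).trans ?_
  refine (DT.val_gt (by simp only [Cn.rt_v, Cn.ng_v]; push_cast; linarith)).trans ?_
  refine (DT.val_le (by simp only [Cn.rt_v, Cn.ng_v]; push_cast; linarith)).trans ?_
  simp only [dt51, DT.val, cloR, sw51, sl51, sv51, txg, txg_4, txg_6, txg_27, txg_30, txg_33, txg_77, txg_121, txg_124, txg_164, txg_186, txg_245, txg_247, txg_248, txg_249, txg_290, txg_309, txg_352, txg_354, txg_396, txg_418]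
  rcases eq_or_lt_of_le h2 with h | h2
  · subst h
    ((try push_cast); (repeat first | rw [if_pos (by linarith)] | rw [if_neg (by linarith)] | erw [if_pos (by linarith)] | erw [if_neg (by linarith)]); (try push_cast); (try ring1))
  · ((try push_cast); (repeat first | rw [if_pos (by linarith)] | rw [if_neg (by linarith)] | erw [if_pos (by linarith)] | erw [if_neg (by linarith)]); (try push_cast); (try ring1))
theorem txl14 {p c x : ℝ} (h1 : 1 / 5 < p) (h2 : p ≤ 1 / 4) : txg.v p c x = dt76.val (fun p x => kcg.v p x) p c x := by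
  symm
  refine (DT.val_gt (by simp only [Cn.rt_v, Cn.ng_v]; push_cast; linarith)).trans ?_
  refine (DT.val_le (by simp only [Cn.rt_v, Cn.ng_v]; push_cast; linarith)).trans ?_
  refine (DT.val_gt (by simp only [Cn.rt_v, Cn.ng_v]; push_cast; linarith)).trans ?_
  refine (DT.val_gt (by simp only [Cn.rt_v, Cn.ng_v]; push_cast; linarith)).trans ?_
  refine (DT.val_gt (by simp only [Cn.rt_v, Cn.ng_v]; push_cast; linarith)).trans ?_
  simp only [dt52, DT.val, cloR, sw52, sl52, sv52, txg, txg_4, txg_6, txg_27, txg_30, txg_33, txg_77, txg_121, txg_124, txg_164, txg_186, txg_245, txg_247, txg_248, txg_249, txg_290, txg_309, txg_352, txg_354, txg_396, txg_418]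
  rcases eq_or_lt_of_le h2 with h | h2
  · subst h
    ((try push_cast); (repeat first | rw [if_pos (by linarith)] | rw [if_neg (by linarith)] | erw [if_pos (by linarith)] | erw [if_neg (by linarith)]); (try push_cast); (try ring1))
  · ((try push_cast); (repeat first | rw [if_pos (by linarith)] | rw [if_neg (by linarith)] | erw [if_pos (by linarith)] | erw [if_neg (by linarith)]); (try push_cast); (try ring1))
theorem txl15 {p c x : ℝ} (h1 : 1 / 4 < p) (h2 : p ≤ 3 / 10) : txg.v p c x = dt76.val (fun p x => kcg.v p x) p c x := by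
  symm
  refine (DT.val_gt (by simp only [Cn.rt_v, Cn.ng_v]; push_cast; linarith)).trans ?_
  refine (DT.val_gt (by simp only [Cn.rt_v, Cn.ng_v]; push_cast; linarith)).trans ?_
  refine (DT.val_le (by simp only [Cn.rt_v, Cn.ng_v]; push_cast; linarith)).trans ?_
  refine (DT.val_le (by simp only [Cn.rt_v, Cn.ng_v]; push_cast; linarith)).trans ?_
  simp only [dt53, DT.val, cloR, sw53, sl53, sv53, txg, txg_4, txg_6, txg_27, txg_30, txg_33, txg_77, txg_121, txg_124, txg_164, txg_186, txg_245, txg_247, txg_248, txg_249, txg_290, txg_309, txg_352, txg_354, txg_396, txg_418]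
  rcases eq_or_lt_of_le h2 with h | h2
  · subst h
    ((try push_cast); (repeat first | rw [if_pos (by linarith)] | rw [if_neg (by linarith)] | erw [if_pos (by linarith)] | erw [if_neg (by linarith)]); (try push_cast); (try ring1))
  · ((try push_cast); (repeat first | rw [if_pos (by linarith)] | rw [if_neg (by linarith)] | erw [if_pos (by linarith)] | erw [if_neg (by linarith)]); (try push_cast); (try ring1))
theorem txl16 {p c x : ℝ} (h1 : 3 / 10 < p) (h2 : p ≤ 7 / 20) : txg.v p c x = dt76.val (fun p x => kcg.v p x) p c x := by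
  symm
  refine (DT.val_gt (by simp only [Cn.rt_v, Cn.ng_v]; push_cast; linarith)).trans ?_
  refine (DT.val_gt (by simp only [Cn.rt_v, Cn.ng_v]; push_cast; linarith)).trans ?_
  refine (DT.val_le (by simp only [Cn.rt_v, Cn.ng_v]; push_cast; linarith)).trans ?_
  refine (DT.val_gt (by simp only [Cn.rt_v, Cn.ng_v]; push_cast; linarith)).trans ?_
  simp only [dt54, DT.val, cloR, sw54, sl54, sv54, txg, txg_4, txg_6, txg_27, txg_30, txg_33, txg_77, txg_121, txg_124, txg_164, txg_186, txg_245, txg_247, txg_248, txg_249, txg_290, txg_309, txg_352, txg_354, txg_396, txg_418]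
  rcases eq_or_lt_of_le h2 with h | h2
  · subst h
    ((try push_cast); (repeat first | rw [if_pos (by linarith)] | rw [if_neg (by linarith)] | erw [if_pos (by linarith)] | erw [if_neg (by linarith)]); (try push_cast); (try ring1))
  · ((try push_cast); (repeat first | rw [if_pos (by linarith)] | rw [if_neg (by linarith)] | erw [if_pos (by linarith)] | erw [if_neg (by linarith)]); (try push_cast); (try ring1))
theorem txl17 {p c x : ℝ} (h1 : 7 / 20 < p) (h2 : p ≤ 2 / 5) : txg.v p c x = dt76.val (fun p x => kcg.v p x) p c x := by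
  symm
  refine (DT.val_gt (by simp only [Cn.rt_v, Cn.ng_v]; push_cast; linarith)).trans ?_
  refine (DT.val_gt (by simp only [Cn.rt_v, Cn.ng_v]; push_cast; linarith)).trans ?_
  refine (DT.val_gt (by simp only [Cn.rt_v, Cn.ng_v]; push_cast; linarith)).trans ?_
  refine (DT.val_le (by simp only [Cn.rt_v, Cn.ng_v]; push_cast; linarith)).trans ?_
  simp only [dt55, DT.val, cloR, sw55, sl55, sv55, txg, txg_4, txg_6, txg_27, txg_30, txg_33, txg_77, txg_121, txg_124, txg_164, txg_186, txg_245, txg_247, txg_248, txg_249, txg_290, txg_309, txg_352, txg_354, txg_396, txg_418]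
  rcases eq_or_lt_of_le h2 with h | h2
  · subst h
    ((try push_cast); (repeat first | rw [if_pos (by linarith)] | rw [if_neg (by linarith)] | erw [if_pos (by linarith)] | erw [if_neg (by linarith)]); (try push_cast); (try ring1))
  · ((try push_cast); (repeat first | rw [if_pos (by linarith)] | rw [if_neg (by linarith)] | erw [if_pos (by linarith)] | erw [if_neg (by linarith)]); (try push_cast); (try ring1))
theorem txl18 {p c x : ℝ} (h1 : 2 / 5 < p) (h2 : p ≤ 11 / 25) : txg.v p c x = dt76.val (fun p x => kcg.v p x) p c x := by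
  symm
  refine (DT.val_gt (by simp only [Cn.rt_v, Cn.ng_v]; push_cast; linarith)).trans ?_
  refine (DT.val_gt (by simp only [Cn.rt_v, Cn.ng_v]; push_cast; linarith)).trans ?_
  refine (DT.val_gt (by simp only [Cn.rt_v, Cn.ng_v]; push_cast; linarith)).trans ?_
  refine (DT.val_gt (by simp only [Cn.rt_v, Cn.ng_v]; push_cast; linarith)).trans ?_
  refine (DT.val_le (by simp only [Cn.rt_v, Cn.ng_v]; push_cast; linarith)).trans ?_
  simp only [dt56, DT.val, cloR, sw56, sl56, sv56, txg, txg_4, txg_6, txg_27, txg_30, txg_33, txg_77, txg_121, txg_124, txg_164, txg_186, txg_245, txg_247, txg_248, txg_249, txg_290, txg_309, txg_352, txg_354, txg_396, txg_418]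
  rcases eq_or_lt_of_le h2 with h | h2
  · subst h
    ((try push_cast); (repeat first | rw [if_pos (by linarith)] | rw [if_neg (by linarith)] | erw [if_pos (by linarith)] | erw [if_neg (by linarith)]); (try push_cast); (try ring1))
  · ((try push_cast); (repeat first | rw [if_pos (by linarith)] | rw [if_neg (by linarith)] | erw [if_pos (by linarith)] | erw [if_neg (by linarith)]); (try push_cast); (try ring1))
theorem txl19 {p c x : ℝ} (h1 : 11 / 25 < p) (h2 : p ≤ 1 / 2) : txg.v p c x = dt76.val (fun p x => kcg.v p x) p c x := by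
  symm
  refine (DT.val_gt (by simp only [Cn.rt_v, Cn.ng_v]; push_cast; linarith)).trans ?_
  refine (DT.val_gt (by simp only [Cn.rt_v, Cn.ng_v]; push_cast; linarith)).trans ?_
  refine (DT.val_gt (by simp only [Cn.rt_v, Cn.ng_v]; push_cast; linarith)).trans ?_
  refine (DT.val_gt (by simp only [Cn.rt_v, Cn.ng_v]; push_cast; linarith)).trans ?_
  refine (DT.val_gt (by simp only [Cn.rt_v, Cn.ng_v]; push_cast; linarith)).trans ?_
  simp only [dt57, DT.val, cloR, sw57, sl57, sv57, txg, txg_4, txg_6, txg_27, txg_30, txg_33, txg_77, txg_121, txg_124, txg_164, txg_186, txg_245, txg_247, txg_248, txg_249, txg_290, txg_309, txg_352, txg_354, txg_396, txg_418]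
  rcases eq_or_lt_of_le h2 with h | h2
  · subst h
    ((try push_cast); (repeat first | rw [if_pos (by linarith)] | rw [if_neg (by linarith)] | erw [if_pos (by linarith)] | erw [if_neg (by linarith)]); (try push_cast); (try ring1))
  · ((try push_cast); (repeat first | rw [if_pos (by linarith)] | rw [if_neg (by linarith)] | erw [if_pos (by linarith)] | erw [if_neg (by linarith)]); (try push_cast); (try ring1))
theorem txe {x : ℝ} (p c : ℝ) (h : |p| ≤ 1 / 2) : txg.v p c x = dt76.val (fun p x => kcg.v p x) p c x := by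
  obtain ⟨h1, h2⟩ := abs_le.1 h
  rcases le_or_gt p (-11 / 25) with g0 | g1000
  · exact txl0 (by linarith) g0
  rcases le_or_gt p (-19 / 50) with g1 | g1001
  · exact txl1 g1000 g1
  rcases le_or_gt p (-8 / 25) with g2 | g1002
  · exact txl2 g1001 g2
  rcases le_or_gt p (-13 / 50) with g3 | g1003
  · exact txl3 g1002 g3
  rcases le_or_gt p (-1 / 5) with g4 | g1004
  · exact txl4 g1003 g4
  rcases le_or_gt p (-3 / 20) with g5 | g1005
  · exact txl5 g1004 g5
  rcases le_or_gt p (-1 / 10) with g6 | g1006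
  · exact txl6 g1005 g6
  rcases le_or_gt p (-7 / 100) with g7 | g1007
  · exact txl7 g1006 g7
  rcases le_or_gt p (-47 / 914) with g8 | g1008
  · exact txl8 g1007 g8
  rcases le_or_gt p (37 / 763) with g9 | g1009
  · exact txl9 g1008 g9
  rcases le_or_gt p (7 / 100) with g10 | g1010
  · exact txl10 g1009 g10
  rcases le_or_gt p (1 / 10) with g11 | g1011
  · exact txl11 g1010 g11
  rcases le_or_gt p (3 / 20) with g12 | g1012
  · exact txl12 g1011 g12
  rcases le_or_gt p (1 / 5) with g13 | g1013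
  · exact txl13 g1012 g13
  rcases le_or_gt p (1 / 4) with g14 | g1014
  · exact txl14 g1013 g14
  rcases le_or_gt p (3 / 10) with g15 | g1015
  · exact txl15 g1014 g15
  rcases le_or_gt p (7 / 20) with g16 | g1016
  · exact txl16 g1015 g16
  rcases le_or_gt p (2 / 5) with g17 | g1017
  · exact txl17 g1016 g17
  rcases le_or_gt p (11 / 25) with g18 | g1018
  · exact txl18 g1017 g18
  · exact txl19 g1018 (by linarith)
theorem ta_dt38 (x : ℝ) : dt38.val (fun p x => kcg.v p x) (-1 / 2) (cT (-1 / 2)) x = (0) := by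
  simp only [dt38, DT.val, sw38, sl38, sv38]
  ((try push_cast); ring1)
theorem tb_dt38 (x : ℝ) : dt38.val (fun p x => kcg.v p x) (-11 / 25) (cT (-11 / 25)) x = (223351 / 50000000 + (x - 72 / 125) * (-225253 / 10000000)) := by
  simp only [dt38, DT.val, sw38, sl38, sv38]
  ((try push_cast); ring1)
theorem ta_dt39 (x : ℝ) : dt39.val (fun p x => kcg.v p x) (-11 / 25) (cT (-11 / 25)) x = (223351 / 50000000 + (x - 72 / 125) * (-225253 / 10000000)) := by
  simp only [dt39, DT.val, sw39, sl39, sv39]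
  ((try push_cast); ring1)
theorem tb_dt39 (x : ℝ) : dt39.val (fun p x => kcg.v p x) (-19 / 50) (cT (-19 / 50)) x = (686059 / 100000000 + (x - 72 / 125) * (-697339 / 10000000)) := by
  simp only [dt39, DT.val, sw39, sl39, sv39]
  ((try push_cast); ring1)
theorem ta_dt58 (x : ℝ) : dt58.val (fun p x => kcg.v p x) (-1 / 2) (cT (-1 / 2)) x = (0) :=
  (DT.val_le (by simp only [Cn.rt_v, Cn.ng_v]; norm_num)).trans (ta_dt38 x)
theorem tb_dt58 (x : ℝ) : dt58.val (fun p x => kcg.v p x) (-19 / 50) (cT (-19 / 50)) x = (686059 / 100000000 + (x - 72 / 125) * (-697339 / 10000000)) :=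
  (DT.val_gt (by simp only [Cn.rt_v, Cn.ng_v]; norm_num)).trans (tb_dt39 x)
theorem ta_dt40 (x : ℝ) : dt40.val (fun p x => kcg.v p x) (-19 / 50) (cT (-19 / 50)) x = (686059 / 100000000 + (x - 72 / 125) * (-697339 / 10000000)) := by
  simp only [dt40, DT.val, sw40, sl40, sv40]
  ((try push_cast); ring1)
theorem tb_dt40 (x : ℝ) : dt40.val (fun p x => kcg.v p x) (-8 / 25) (cT (-8 / 25)) x = (39181 / 10000000 + (x - 72 / 125) * (-810377 / 10000000)) := by
  simp only [dt40, DT.val, sw40, sl40, sv40]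
  ((try push_cast); ring1)
theorem ta_dt41 (x : ℝ) : dt41.val (fun p x => kcg.v p x) (-8 / 25) (cT (-8 / 25)) x = (39181 / 10000000 + (x - 72 / 125) * (-810377 / 10000000)) := by
  simp only [dt41, DT.val, sw41, sl41, sv41]
  ((try push_cast); ring1)
theorem tb_dt41 (x : ℝ) : dt41.val (fun p x => kcg.v p x) (-13 / 50) (cT (-13 / 50)) x = (306431 / 50000000 + (x - 72 / 125) * (-652711 / 10000000)) := by
  simp only [dt41, DT.val, sw41, sl41, sv41]
  ((try push_cast); ring1)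
theorem ta_dt42 (x : ℝ) : dt42.val (fun p x => kcg.v p x) (-13 / 50) (cT (-13 / 50)) x = (306431 / 50000000 + (x - 72 / 125) * (-652711 / 10000000)) := by
  simp only [dt42, DT.val, sw42, sl42, sv42]
  ((try push_cast); ring1)
theorem tb_dt42 (x : ℝ) : dt42.val (fun p x => kcg.v p x) (-1 / 5) (cT (-1 / 5)) x = (2136041 / 100000000 + (x - 72 / 125) * (-47267 / 5000000)) := by
  simp only [dt42, DT.val, sw42, sl42, sv42]
  ((try push_cast); ring1)
theorem ta_dt59 (x : ℝ) : dt59.val (fun p x => kcg.v p x) (-8 / 25) (cT (-8 / 25)) x = (39181 / 10000000 + (x - 72 / 125) * (-810377 / 10000000)) :=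
  (DT.val_le (by simp only [Cn.rt_v, Cn.ng_v]; norm_num)).trans (ta_dt41 x)
theorem tb_dt59 (x : ℝ) : dt59.val (fun p x => kcg.v p x) (-1 / 5) (cT (-1 / 5)) x = (2136041 / 100000000 + (x - 72 / 125) * (-47267 / 5000000)) :=
  (DT.val_gt (by simp only [Cn.rt_v, Cn.ng_v]; norm_num)).trans (tb_dt42 x)
theorem ta_dt60 (x : ℝ) : dt60.val (fun p x => kcg.v p x) (-19 / 50) (cT (-19 / 50)) x = (686059 / 100000000 + (x - 72 / 125) * (-697339 / 10000000)) :=
  (DT.val_le (by simp only [Cn.rt_v, Cn.ng_v]; norm_num)).trans (ta_dt40 x)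
theorem tb_dt60 (x : ℝ) : dt60.val (fun p x => kcg.v p x) (-1 / 5) (cT (-1 / 5)) x = (2136041 / 100000000 + (x - 72 / 125) * (-47267 / 5000000)) :=
  (DT.val_gt (by simp only [Cn.rt_v, Cn.ng_v]; norm_num)).trans (tb_dt59 x)
theorem ta_dt61 (x : ℝ) : dt61.val (fun p x => kcg.v p x) (-1 / 2) (cT (-1 / 2)) x = (0) :=
  (DT.val_le (by simp only [Cn.rt_v, Cn.ng_v]; norm_num)).trans (ta_dt58 x)
theorem tb_dt61 (x : ℝ) : dt61.val (fun p x => kcg.v p x) (-1 / 5) (cT (-1 / 5)) x = (2136041 / 100000000 + (x - 72 / 125) * (-47267 / 5000000)) :=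
  (DT.val_gt (by simp only [Cn.rt_v, Cn.ng_v]; norm_num)).trans (tb_dt60 x)
theorem ta_dt43 (x : ℝ) : dt43.val (fun p x => kcg.v p x) (-1 / 5) (cT (-1 / 5)) x = (2136041 / 100000000 + (x - 72 / 125) * (-47267 / 5000000)) := by
  simp only [dt43, DT.val, sw43, sl43, sv43]
  ((try push_cast); ring1)
theorem tb_dt43 (x : ℝ) : dt43.val (fun p x => kcg.v p x) (-3 / 20) (cT (-3 / 20)) x = (4132573 / 100000000 + (x - 72 / 125) * (497249 / 10000000)) := by
  simp only [dt43, DT.val, sw43, sl43, sv43]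
  ((try push_cast); ring1)
theorem ta_dt44 (x : ℝ) : dt44.val (fun p x => kcg.v p x) (-3 / 20) (cT (-3 / 20)) x = (4132573 / 100000000 + (x - 72 / 125) * (497249 / 10000000)) := by
  simp only [dt44, DT.val, sw44, sl44, sv44]
  ((try push_cast); ring1)
theorem tb_dt44 (x : ℝ) : dt44.val (fun p x => kcg.v p x) (-1 / 10) (cT (-1 / 10)) x = (6340287 / 100000000 + (x - 72 / 125) * (8371 / 2500000)) := by
  simp only [dt44, DT.val, sw44, sl44, sv44]
  ((try push_cast); ring1)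
theorem ta_dt62 (x : ℝ) : dt62.val (fun p x => kcg.v p x) (-1 / 5) (cT (-1 / 5)) x = (2136041 / 100000000 + (x - 72 / 125) * (-47267 / 5000000)) :=
  (DT.val_le (by simp only [Cn.rt_v, Cn.ng_v]; norm_num)).trans (ta_dt43 x)
theorem tb_dt62 (x : ℝ) : dt62.val (fun p x => kcg.v p x) (-1 / 10) (cT (-1 / 10)) x = (6340287 / 100000000 + (x - 72 / 125) * (8371 / 2500000)) :=
  (DT.val_gt (by simp only [Cn.rt_v, Cn.ng_v]; norm_num)).trans (tb_dt44 x)
theorem ta_dt45 (x : ℝ) : dt45.val (fun p x => kcg.v p x) (-1 / 10) (cT (-1 / 10)) x = (6340287 / 100000000 + (x - 72 / 125) * (8371 / 2500000)) := by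
  simp only [dt45, DT.val, sw45, sw45_2, sl45, sl45_2, sv45, sv45_2]
  ((try push_cast); ring1)
theorem tb_dt45 (x : ℝ) : dt45.val (fun p x => kcg.v p x) (-7 / 100) (cT (-7 / 100)) x = (120219 / 1562500 + (x - 72 / 125) * (-43683 / 1250000)) := by
  simp only [dt45, DT.val, sw45, sw45_2, sl45, sl45_2, sv45, sv45_2]
  ((try push_cast); ring1)
theorem ta_dt46 (x : ℝ) : dt46.val (fun p x => kcg.v p x) (-7 / 100) (cT (-7 / 100)) x = (120219 / 1562500 + (x - 72 / 125) * (-43683 / 1250000)) := by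
  simp only [dt46, DT.val, sw46, sw46_2, sl46, sl46_2, sv46, sv46_2]
  ((try push_cast); ring1)
theorem tb_dt46 (x : ℝ) : dt46.val (fun p x => kcg.v p x) (-47 / 914) (407 / 457) x = (142975545805103151 / 1703824406289062500 + (x - 72 / 125) * (-83338564005338187 / 2726119050062500000) + (x - 72 / 125) ^ 2 * (-251833491 / 5965249562500)) := by
  simp only [dt46, DT.val, sw46, sw46_2, sl46, sl46_2, sv46, sv46_2]
  ((try push_cast); ring1)
theorem ta_dt47 (x : ℝ) : dt47.val (fun p x => kcg.v p x) (-47 / 914) (407 / 457) x = (142975545805103151 / 1703824406289062500 + (x - 72 / 125) * (-83338564005338187 / 2726119050062500000) + (x - 72 / 125) ^ 2 * (-251833491 / 5965249562500)) := by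
  simp only [dt47, DT.val, cloR, kgA]
  ring1
theorem tb_dt47 (x : ℝ) : dt47.val (fun p x => kcg.v p x) (37 / 763) (1283 / 1526) x = (2123936462924523 / 19830131562500000 + (x - 72 / 125) * (5999634693 / 207917500000)) := by
  simp only [dt47, DT.val, cloR, kgB]
  ring1
theorem ta_dt63 (x : ℝ) : dt63.val (fun p x => kcg.v p x) (-7 / 100) (cT (-7 / 100)) x = (120219 / 1562500 + (x - 72 / 125) * (-43683 / 1250000)) :=
  (DT.val_le (by simp only [Cn.rt_v, Cn.ng_v]; norm_num)).trans (ta_dt46 x)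
theorem tb_dt63 (x : ℝ) : dt63.val (fun p x => kcg.v p x) (37 / 763) (1283 / 1526) x = (2123936462924523 / 19830131562500000 + (x - 72 / 125) * (5999634693 / 207917500000)) :=
  (DT.val_gt (by simp only [Cn.rt_v, Cn.ng_v]; norm_num)).trans (tb_dt47 x)
theorem ta_dt64 (x : ℝ) : dt64.val (fun p x => kcg.v p x) (-1 / 10) (cT (-1 / 10)) x = (6340287 / 100000000 + (x - 72 / 125) * (8371 / 2500000)) :=
  (DT.val_le (by simp only [Cn.rt_v, Cn.ng_v]; norm_num)).trans (ta_dt45 x)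
theorem tb_dt64 (x : ℝ) : dt64.val (fun p x => kcg.v p x) (37 / 763) (1283 / 1526) x = (2123936462924523 / 19830131562500000 + (x - 72 / 125) * (5999634693 / 207917500000)) :=
  (DT.val_gt (by simp only [Cn.rt_v, Cn.ng_v]; norm_num)).trans (tb_dt63 x)
theorem ta_dt65 (x : ℝ) : dt65.val (fun p x => kcg.v p x) (-1 / 5) (cT (-1 / 5)) x = (2136041 / 100000000 + (x - 72 / 125) * (-47267 / 5000000)) :=
  (DT.val_le (by simp only [Cn.rt_v, Cn.ng_v]; norm_num)).trans (ta_dt62 x)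
theorem tb_dt65 (x : ℝ) : dt65.val (fun p x => kcg.v p x) (37 / 763) (1283 / 1526) x = (2123936462924523 / 19830131562500000 + (x - 72 / 125) * (5999634693 / 207917500000)) :=
  (DT.val_gt (by simp only [Cn.rt_v, Cn.ng_v]; norm_num)).trans (tb_dt64 x)
theorem ta_dt66 (x : ℝ) : dt66.val (fun p x => kcg.v p x) (-1 / 2) (cT (-1 / 2)) x = (0) :=
  (DT.val_le (by simp only [Cn.rt_v, Cn.ng_v]; norm_num)).trans (ta_dt61 x)
theorem tb_dt66 (x : ℝ) : dt66.val (fun p x => kcg.v p x) (37 / 763) (1283 / 1526) x = (2123936462924523 / 19830131562500000 + (x - 72 / 125) * (5999634693 / 207917500000)) :=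
  (DT.val_gt (by simp only [Cn.rt_v, Cn.ng_v]; norm_num)).trans (tb_dt65 x)
theorem ta_dt48 (x : ℝ) : dt48.val (fun p x => kcg.v p x) (37 / 763) (1283 / 1526) x = (2123936462924523 / 19830131562500000 + (x - 72 / 125) * (5999634693 / 207917500000)) := by
  simp only [dt48, DT.val, sw48, sl48, sv48]
  ((try push_cast); ring1)
theorem tb_dt48 (x : ℝ) : dt48.val (fun p x => kcg.v p x) (7 / 100) (cT (7 / 100)) x = (10873643 / 100000000 + (x - 72 / 125) * (237663 / 5000000)) := by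
  simp only [dt48, DT.val, sw48, sl48, sv48]
  ((try push_cast); ring1)
theorem ta_dt49 (x : ℝ) : dt49.val (fun p x => kcg.v p x) (7 / 100) (cT (7 / 100)) x = (10873643 / 100000000 + (x - 72 / 125) * (237663 / 5000000)) := by
  simp only [dt49, DT.val, sw49, sl49, sv49]
  ((try push_cast); ring1)
theorem tb_dt49 (x : ℝ) : dt49.val (fun p x => kcg.v p x) (1 / 10) (cT (1 / 10)) x = (10799283 / 100000000 + (x - 72 / 125) * (1120023 / 10000000)) := by
  simp only [dt49, DT.val, sw49, sl49, sv49]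
  ((try push_cast); ring1)
theorem ta_dt67 (x : ℝ) : dt67.val (fun p x => kcg.v p x) (37 / 763) (1283 / 1526) x = (2123936462924523 / 19830131562500000 + (x - 72 / 125) * (5999634693 / 207917500000)) :=
  (DT.val_le (by simp only [Cn.rt_v, Cn.ng_v]; norm_num)).trans (ta_dt48 x)
theorem tb_dt67 (x : ℝ) : dt67.val (fun p x => kcg.v p x) (1 / 10) (cT (1 / 10)) x = (10799283 / 100000000 + (x - 72 / 125) * (1120023 / 10000000)) :=
  (DT.val_gt (by simp only [Cn.rt_v, Cn.ng_v]; norm_num)).trans (tb_dt49 x)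
theorem ta_dt50 (x : ℝ) : dt50.val (fun p x => kcg.v p x) (1 / 10) (cT (1 / 10)) x = (10799283 / 100000000 + (x - 72 / 125) * (1120023 / 10000000)) := by
  simp only [dt50, DT.val, sw50, sl50, sv50]
  ((try push_cast); ring1)
theorem tb_dt50 (x : ℝ) : dt50.val (fun p x => kcg.v p x) (3 / 20) (cT (3 / 20)) x = (5126883 / 50000000 + (x - 72 / 125) * (124749 / 625000)) := by
  simp only [dt50, DT.val, sw50, sl50, sv50]
  ((try push_cast); ring1)
theorem ta_dt51 (x : ℝ) : dt51.val (fun p x => kcg.v p x) (3 / 20) (cT (3 / 20)) x = (5126883 / 50000000 + (x - 72 / 125) * (124749 / 625000)) := by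
  simp only [dt51, DT.val, sw51, sl51, sv51]
  ((try push_cast); ring1)
theorem tb_dt51 (x : ℝ) : dt51.val (fun p x => kcg.v p x) (1 / 5) (cT (1 / 5)) x = (226923 / 2500000 + (x - 72 / 125) * (180167 / 1000000)) := by
  simp only [dt51, DT.val, sw51, sl51, sv51]
  ((try push_cast); ring1)
theorem ta_dt52 (x : ℝ) : dt52.val (fun p x => kcg.v p x) (1 / 5) (cT (1 / 5)) x = (226923 / 2500000 + (x - 72 / 125) * (180167 / 1000000)) := by
  simp only [dt52, DT.val, sw52, sl52, sv52]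
  ((try push_cast); ring1)
theorem tb_dt52 (x : ℝ) : dt52.val (fun p x => kcg.v p x) (1 / 4) (cT (1 / 4)) x = (3713857 / 50000000 + (x - 72 / 125) * (334847 / 2500000)) := by
  simp only [dt52, DT.val, sw52, sl52, sv52]
  ((try push_cast); ring1)
theorem ta_dt68 (x : ℝ) : dt68.val (fun p x => kcg.v p x) (3 / 20) (cT (3 / 20)) x = (5126883 / 50000000 + (x - 72 / 125) * (124749 / 625000)) :=
  (DT.val_le (by simp only [Cn.rt_v, Cn.ng_v]; norm_num)).trans (ta_dt51 x)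
theorem tb_dt68 (x : ℝ) : dt68.val (fun p x => kcg.v p x) (1 / 4) (cT (1 / 4)) x = (3713857 / 50000000 + (x - 72 / 125) * (334847 / 2500000)) :=
  (DT.val_gt (by simp only [Cn.rt_v, Cn.ng_v]; norm_num)).trans (tb_dt52 x)
theorem ta_dt69 (x : ℝ) : dt69.val (fun p x => kcg.v p x) (1 / 10) (cT (1 / 10)) x = (10799283 / 100000000 + (x - 72 / 125) * (1120023 / 10000000)) :=
  (DT.val_le (by simp only [Cn.rt_v, Cn.ng_v]; norm_num)).trans (ta_dt50 x)
theorem tb_dt69 (x : ℝ) : dt69.val (fun p x => kcg.v p x) (1 / 4) (cT (1 / 4)) x = (3713857 / 50000000 + (x - 72 / 125) * (334847 / 2500000)) :=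
  (DT.val_gt (by simp only [Cn.rt_v, Cn.ng_v]; norm_num)).trans (tb_dt68 x)
theorem ta_dt70 (x : ℝ) : dt70.val (fun p x => kcg.v p x) (37 / 763) (1283 / 1526) x = (2123936462924523 / 19830131562500000 + (x - 72 / 125) * (5999634693 / 207917500000)) :=
  (DT.val_le (by simp only [Cn.rt_v, Cn.ng_v]; norm_num)).trans (ta_dt67 x)
theorem tb_dt70 (x : ℝ) : dt70.val (fun p x => kcg.v p x) (1 / 4) (cT (1 / 4)) x = (3713857 / 50000000 + (x - 72 / 125) * (334847 / 2500000)) :=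
  (DT.val_gt (by simp only [Cn.rt_v, Cn.ng_v]; norm_num)).trans (tb_dt69 x)
theorem ta_dt53 (x : ℝ) : dt53.val (fun p x => kcg.v p x) (1 / 4) (cT (1 / 4)) x = (3713857 / 50000000 + (x - 72 / 125) * (334847 / 2500000)) := by
  simp only [dt53, DT.val, sw53, sl53, sv53]
  ((try push_cast); ring1)
theorem tb_dt53 (x : ℝ) : dt53.val (fun p x => kcg.v p x) (3 / 10) (cT (3 / 10)) x = (1402509 / 25000000 + (x - 72 / 125) * (119159 / 1250000)) := by
  simp only [dt53, DT.val, sw53, sl53, sv53]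
  ((try push_cast); ring1)
theorem ta_dt54 (x : ℝ) : dt54.val (fun p x => kcg.v p x) (3 / 10) (cT (3 / 10)) x = (1402509 / 25000000 + (x - 72 / 125) * (119159 / 1250000)) := by
  simp only [dt54, DT.val, sw54, sl54, sv54]
  ((try push_cast); ring1)
theorem tb_dt54 (x : ℝ) : dt54.val (fun p x => kcg.v p x) (7 / 20) (cT (7 / 20)) x = (3880437 / 100000000 + (x - 72 / 125) * (78047 / 1250000)) := by
  simp only [dt54, DT.val, sw54, sl54, sv54]
  ((try push_cast); ring1)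
theorem ta_dt71 (x : ℝ) : dt71.val (fun p x => kcg.v p x) (1 / 4) (cT (1 / 4)) x = (3713857 / 50000000 + (x - 72 / 125) * (334847 / 2500000)) :=
  (DT.val_le (by simp only [Cn.rt_v, Cn.ng_v]; norm_num)).trans (ta_dt53 x)
theorem tb_dt71 (x : ℝ) : dt71.val (fun p x => kcg.v p x) (7 / 20) (cT (7 / 20)) x = (3880437 / 100000000 + (x - 72 / 125) * (78047 / 1250000)) :=
  (DT.val_gt (by simp only [Cn.rt_v, Cn.ng_v]; norm_num)).trans (tb_dt54 x)
theorem ta_dt55 (x : ℝ) : dt55.val (fun p x => kcg.v p x) (7 / 20) (cT (7 / 20)) x = (3880437 / 100000000 + (x - 72 / 125) * (78047 / 1250000)) := by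
  simp only [dt55, DT.val, sw55, sl55, sv55]
  ((try push_cast); ring1)
theorem tb_dt55 (x : ℝ) : dt55.val (fun p x => kcg.v p x) (2 / 5) (cT (2 / 5)) x = (2411809 / 100000000 + (x - 72 / 125) * (430147 / 10000000)) := by
  simp only [dt55, DT.val, sw55, sl55, sv55]
  ((try push_cast); ring1)
theorem ta_dt56 (x : ℝ) : dt56.val (fun p x => kcg.v p x) (2 / 5) (cT (2 / 5)) x = (2411809 / 100000000 + (x - 72 / 125) * (430147 / 10000000)) := by
  simp only [dt56, DT.val, sw56, sl56, sv56]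
  ((try push_cast); ring1)
theorem tb_dt56 (x : ℝ) : dt56.val (fun p x => kcg.v p x) (11 / 25) (cT (11 / 25)) x = (642839 / 50000000 + (x - 72 / 125) * (340093 / 10000000)) := by
  simp only [dt56, DT.val, sw56, sl56, sv56]
  ((try push_cast); ring1)
theorem ta_dt57 (x : ℝ) : dt57.val (fun p x => kcg.v p x) (11 / 25) (cT (11 / 25)) x = (642839 / 50000000 + (x - 72 / 125) * (340093 / 10000000)) := by
  simp only [dt57, DT.val, sw57, sl57, sv57]
  ((try push_cast); ring1)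
theorem tb_dt57 (x : ℝ) : dt57.val (fun p x => kcg.v p x) (1 / 2) (cT (1 / 2)) x = (0) := by
  simp only [dt57, DT.val, sw57, sl57, sv57]
  ((try push_cast); ring1)
theorem ta_dt72 (x : ℝ) : dt72.val (fun p x => kcg.v p x) (2 / 5) (cT (2 / 5)) x = (2411809 / 100000000 + (x - 72 / 125) * (430147 / 10000000)) :=
  (DT.val_le (by simp only [Cn.rt_v, Cn.ng_v]; norm_num)).trans (ta_dt56 x)
theorem tb_dt72 (x : ℝ) : dt72.val (fun p x => kcg.v p x) (1 / 2) (cT (1 / 2)) x = (0) :=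
  (DT.val_gt (by simp only [Cn.rt_v, Cn.ng_v]; norm_num)).trans (tb_dt57 x)
theorem ta_dt73 (x : ℝ) : dt73.val (fun p x => kcg.v p x) (7 / 20) (cT (7 / 20)) x = (3880437 / 100000000 + (x - 72 / 125) * (78047 / 1250000)) :=
  (DT.val_le (by simp only [Cn.rt_v, Cn.ng_v]; norm_num)).trans (ta_dt55 x)
theorem tb_dt73 (x : ℝ) : dt73.val (fun p x => kcg.v p x) (1 / 2) (cT (1 / 2)) x = (0) :=
  (DT.val_gt (by simp only [Cn.rt_v, Cn.ng_v]; norm_num)).trans (tb_dt72 x)
theorem ta_dt74 (x : ℝ) : dt74.val (fun p x => kcg.v p x) (1 / 4) (cT (1 / 4)) x = (3713857 / 50000000 + (x - 72 / 125) * (334847 / 2500000)) :=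
  (DT.val_le (by simp only [Cn.rt_v, Cn.ng_v]; norm_num)).trans (ta_dt71 x)
theorem tb_dt74 (x : ℝ) : dt74.val (fun p x => kcg.v p x) (1 / 2) (cT (1 / 2)) x = (0) :=
  (DT.val_gt (by simp only [Cn.rt_v, Cn.ng_v]; norm_num)).trans (tb_dt73 x)
theorem ta_dt75 (x : ℝ) : dt75.val (fun p x => kcg.v p x) (37 / 763) (1283 / 1526) x = (2123936462924523 / 19830131562500000 + (x - 72 / 125) * (5999634693 / 207917500000)) :=
  (DT.val_le (by simp only [Cn.rt_v, Cn.ng_v]; norm_num)).trans (ta_dt70 x)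
theorem tb_dt75 (x : ℝ) : dt75.val (fun p x => kcg.v p x) (1 / 2) (cT (1 / 2)) x = (0) :=
  (DT.val_gt (by simp only [Cn.rt_v, Cn.ng_v]; norm_num)).trans (tb_dt74 x)
theorem ta_dt76 (x : ℝ) : dt76.val (fun p x => kcg.v p x) (-1 / 2) (cT (-1 / 2)) x = (0) :=
  (DT.val_le (by simp only [Cn.rt_v, Cn.ng_v]; norm_num)).trans (ta_dt66 x)
theorem tb_dt76 (x : ℝ) : dt76.val (fun p x => kcg.v p x) (1 / 2) (cT (1 / 2)) x = (0) :=
  (DT.val_gt (by simp only [Cn.rt_v, Cn.ng_v]; norm_num)).trans (tb_dt75 x)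
theorem to_dt38 (x : ℝ) : dt38.Ok (fun p x => kcg.v p x) x := trivial
theorem to_dt39 (x : ℝ) : dt39.Ok (fun p x => kcg.v p x) x := trivial
theorem to_dt58 (x : ℝ) : dt58.Ok (fun p x => kcg.v p x) x :=
  DT.ok_node (v := -11 / 25) (by simp only [Cn.rt_v, Cn.ng_v]; norm_num) (by rw [abs_le]; constructor <;> norm_num) rfl (tb_dt38 x) (ta_dt39 x) (by ring1) (to_dt38 x) (to_dt39 x)
theorem to_dt40 (x : ℝ) : dt40.Ok (fun p x => kcg.v p x) x := trivial
theorem to_dt41 (x : ℝ) : dt41.Ok (fun p x => kcg.v p x) x := trivial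
theorem to_dt42 (x : ℝ) : dt42.Ok (fun p x => kcg.v p x) x := trivial
theorem to_dt59 (x : ℝ) : dt59.Ok (fun p x => kcg.v p x) x :=
  DT.ok_node (v := -13 / 50) (by simp only [Cn.rt_v, Cn.ng_v]; norm_num) (by rw [abs_le]; constructor <;> norm_num) rfl (tb_dt41 x) (ta_dt42 x) (by ring1) (to_dt41 x) (to_dt42 x)
theorem to_dt60 (x : ℝ) : dt60.Ok (fun p x => kcg.v p x) x :=
  DT.ok_node (v := -8 / 25) (by simp only [Cn.rt_v, Cn.ng_v]; norm_num) (by rw [abs_le]; constructor <;> norm_num) rfl (tb_dt40 x) (ta_dt59 x) (by ring1) (to_dt40 x) (to_dt59 x)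
theorem to_dt61 (x : ℝ) : dt61.Ok (fun p x => kcg.v p x) x :=
  DT.ok_node (v := -19 / 50) (by simp only [Cn.rt_v, Cn.ng_v]; norm_num) (by rw [abs_le]; constructor <;> norm_num) rfl (tb_dt58 x) (ta_dt60 x) (by ring1) (to_dt58 x) (to_dt60 x)
theorem to_dt43 (x : ℝ) : dt43.Ok (fun p x => kcg.v p x) x := trivial
theorem to_dt44 (x : ℝ) : dt44.Ok (fun p x => kcg.v p x) x := trivial
theorem to_dt62 (x : ℝ) : dt62.Ok (fun p x => kcg.v p x) x :=
  DT.ok_node (v := -3 / 20) (by simp only [Cn.rt_v, Cn.ng_v]; norm_num) (by rw [abs_le]; constructor <;> norm_num) rfl (tb_dt43 x) (ta_dt44 x) (by ring1) (to_dt43 x) (to_dt44 x)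
theorem to_dt45 (x : ℝ) : dt45.Ok (fun p x => kcg.v p x) x := trivial
theorem to_dt46 (x : ℝ) : dt46.Ok (fun p x => kcg.v p x) x := trivial
theorem to_dt47 (x : ℝ) : dt47.Ok (fun p x => kcg.v p x) x := trivial
theorem to_dt63 (x : ℝ) : dt63.Ok (fun p x => kcg.v p x) x :=
  DT.ok_node (v := -47 / 914) (by simp only [Cn.rt_v, Cn.ng_v]; norm_num) (by rw [abs_le]; constructor <;> norm_num) ctA (tb_dt46 x) (ta_dt47 x) (by ring1) (to_dt46 x) (to_dt47 x)
theorem to_dt64 (x : ℝ) : dt64.Ok (fun p x => kcg.v p x) x :=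
  DT.ok_node (v := -7 / 100) (by simp only [Cn.rt_v, Cn.ng_v]; norm_num) (by rw [abs_le]; constructor <;> norm_num) rfl (tb_dt45 x) (ta_dt63 x) (by ring1) (to_dt45 x) (to_dt63 x)
theorem to_dt65 (x : ℝ) : dt65.Ok (fun p x => kcg.v p x) x :=
  DT.ok_node (v := -1 / 10) (by simp only [Cn.rt_v, Cn.ng_v]; norm_num) (by rw [abs_le]; constructor <;> norm_num) rfl (tb_dt62 x) (ta_dt64 x) (by ring1) (to_dt62 x) (to_dt64 x)
theorem to_dt66 (x : ℝ) : dt66.Ok (fun p x => kcg.v p x) x :=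
  DT.ok_node (v := -1 / 5) (by simp only [Cn.rt_v, Cn.ng_v]; norm_num) (by rw [abs_le]; constructor <;> norm_num) rfl (tb_dt61 x) (ta_dt65 x) (by ring1) (to_dt61 x) (to_dt65 x)
theorem to_dt48 (x : ℝ) : dt48.Ok (fun p x => kcg.v p x) x := trivial
theorem to_dt49 (x : ℝ) : dt49.Ok (fun p x => kcg.v p x) x := trivial
theorem to_dt67 (x : ℝ) : dt67.Ok (fun p x => kcg.v p x) x :=
  DT.ok_node (v := 7 / 100) (by simp only [Cn.rt_v, Cn.ng_v]; norm_num) (by rw [abs_le]; constructor <;> norm_num) rfl (tb_dt48 x) (ta_dt49 x) (by ring1) (to_dt48 x) (to_dt49 x)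
theorem to_dt50 (x : ℝ) : dt50.Ok (fun p x => kcg.v p x) x := trivial
theorem to_dt51 (x : ℝ) : dt51.Ok (fun p x => kcg.v p x) x := trivial
theorem to_dt52 (x : ℝ) : dt52.Ok (fun p x => kcg.v p x) x := trivial
theorem to_dt68 (x : ℝ) : dt68.Ok (fun p x => kcg.v p x) x :=
  DT.ok_node (v := 1 / 5) (by simp only [Cn.rt_v, Cn.ng_v]; norm_num) (by rw [abs_le]; constructor <;> norm_num) rfl (tb_dt51 x) (ta_dt52 x) (by ring1) (to_dt51 x) (to_dt52 x)
theorem to_dt69 (x : ℝ) : dt69.Ok (fun p x => kcg.v p x) x :=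
  DT.ok_node (v := 3 / 20) (by simp only [Cn.rt_v, Cn.ng_v]; norm_num) (by rw [abs_le]; constructor <;> norm_num) rfl (tb_dt50 x) (ta_dt68 x) (by ring1) (to_dt50 x) (to_dt68 x)
theorem to_dt70 (x : ℝ) : dt70.Ok (fun p x => kcg.v p x) x :=
  DT.ok_node (v := 1 / 10) (by simp only [Cn.rt_v, Cn.ng_v]; norm_num) (by rw [abs_le]; constructor <;> norm_num) rfl (tb_dt67 x) (ta_dt69 x) (by ring1) (to_dt67 x) (to_dt69 x)
theorem to_dt53 (x : ℝ) : dt53.Ok (fun p x => kcg.v p x) x := trivial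
theorem to_dt54 (x : ℝ) : dt54.Ok (fun p x => kcg.v p x) x := trivial
theorem to_dt71 (x : ℝ) : dt71.Ok (fun p x => kcg.v p x) x :=
  DT.ok_node (v := 3 / 10) (by simp only [Cn.rt_v, Cn.ng_v]; norm_num) (by rw [abs_le]; constructor <;> norm_num) rfl (tb_dt53 x) (ta_dt54 x) (by ring1) (to_dt53 x) (to_dt54 x)
theorem to_dt55 (x : ℝ) : dt55.Ok (fun p x => kcg.v p x) x := trivial
theorem to_dt56 (x : ℝ) : dt56.Ok (fun p x => kcg.v p x) x := trivial
theorem to_dt57 (x : ℝ) : dt57.Ok (fun p x => kcg.v p x) x := trivial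
theorem to_dt72 (x : ℝ) : dt72.Ok (fun p x => kcg.v p x) x :=
  DT.ok_node (v := 11 / 25) (by simp only [Cn.rt_v, Cn.ng_v]; norm_num) (by rw [abs_le]; constructor <;> norm_num) rfl (tb_dt56 x) (ta_dt57 x) (by ring1) (to_dt56 x) (to_dt57 x)
theorem to_dt73 (x : ℝ) : dt73.Ok (fun p x => kcg.v p x) x :=
  DT.ok_node (v := 2 / 5) (by simp only [Cn.rt_v, Cn.ng_v]; norm_num) (by rw [abs_le]; constructor <;> norm_num) rfl (tb_dt55 x) (ta_dt72 x) (by ring1) (to_dt55 x) (to_dt72 x)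
theorem to_dt74 (x : ℝ) : dt74.Ok (fun p x => kcg.v p x) x :=
  DT.ok_node (v := 7 / 20) (by simp only [Cn.rt_v, Cn.ng_v]; norm_num) (by rw [abs_le]; constructor <;> norm_num) rfl (tb_dt71 x) (ta_dt73 x) (by ring1) (to_dt71 x) (to_dt73 x)
theorem to_dt75 (x : ℝ) : dt75.Ok (fun p x => kcg.v p x) x :=
  DT.ok_node (v := 1 / 4) (by simp only [Cn.rt_v, Cn.ng_v]; norm_num) (by rw [abs_le]; constructor <;> norm_num) rfl (tb_dt70 x) (ta_dt74 x) (by ring1) (to_dt70 x) (to_dt74 x)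
theorem to_dt76 (x : ℝ) : dt76.Ok (fun p x => kcg.v p x) x :=
  DT.ok_node (v := 37 / 763) (by simp only [Cn.rt_v, Cn.ng_v]; norm_num) (by rw [abs_le]; constructor <;> norm_num) ctB (tb_dt66 x) (ta_dt75 x) (by ring1) (to_dt66 x) (to_dt75 x)
theorem dok (x : ℝ) : dd.Ok x := ⟨ko_dt37 x, fun p h => kfe h, to_dt76 x⟩
theorem K0_ (x : ℝ) : ∀ q y, OnC (0 : Fin 8) q y → TightK (tyO q) q (fun p => dd.kf.v p x) (c1n y) y (tK 0 q y x) := by
  refine K0_of (R := fun q y => tK 0 q y x) (kc := fun p => kcg.v p x) ?_ ?_ ?_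
  · intro y h
    show tK 0 0 y x = _
    ·
      rw [← (atB00 h).K]
      show kf0q0.v y x = _
      simp only [kf0q0, kf0q0_9, kf0q0_12, c1g_v]
      ((try push_cast); (try simp only [mul_inv]); (try ring_nf))
  · intro y h
    show tK 0 1 y x = _
    ·
      rw [← (atB01 h).K]
      show kf0q1.v y x = _
      simp only [kf0q1, kf0q1_10, c1g_v]
      ((try push_cast); (try simp only [mul_inv]); (try ring_nf))
  · intro y h
    show tK 0 2 y x = _
    ·
      have ey := yag_v h.1.nonneg (h.2 rfl)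
      rw [← (atB02 h).K]
      show kfc02.v (c1n y) x = _
      simp only [kfc02, c1g_v, ey]
      ((try push_cast); (try simp only [mul_inv]); (try ring_nf))
theorem L0_ (x : ℝ) : ∀ q y, OnC (0 : Fin 8) q y → TightL (tyO q) (fun p c => dd.TX.val dd.kf.v p c x) (c1n y) y (tL 0 q y x) := by
  refine L0_of (R := fun q y => tL 0 q y x) (tx := fun p c => txg.v p c x) txe ?_ ?_ ?_
  · intro y h
    show tL 0 0 y x = _
    ·
      rw [← (atB00 h).L]
      show l0q0.v y x = _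
      simp only [l0q0, c1g_v]
      ((try push_cast); (try simp only [mul_inv]); (try ring_nf))
  · intro y h
    show tL 0 1 y x = _
    ·
      rw [← (atB01 h).L]
      show l0q1.v y x = _
      simp only [l0q1, c1g_v]
      ((try push_cast); (try simp only [mul_inv]); (try ring_nf))
  · intro y h
    show tL 0 2 y x = _
    ·
      have ey := yag_v h.1.nonneg (h.2 rfl)
      rw [← (atB02 h).L]
      show lc02.v (c1n y) x = _
      simp only [lc02, lc02_7, lc02_8, c1g_v, ey]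
      ((try push_cast); (try simp only [mul_inv]); (try ring_nf))
theorem Kn_ (x : ℝ) : ∀ q y, InQ q y → TightK (tyN q) q (fun p => dd.kf.v p x) (c3n y) y (tK (Fin.last 7) q y x) := by
  refine Kn_of (R := fun q y => tK 7 q y x) (kc := fun p => kcg.v p x) ?_ ?_ ?_ ?_
  · intro y h
    show tK 7 0 y x = _
    ·
      rw [← (atB70 (onc h (by decide))).K]
      show kf7q0.v y x = _
      simp only [kf7q0, c3g_v]
      ((try push_cast); (try simp only [mul_inv]); (try ring_nf))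
  · intro y h
    show tK 7 1 y x = _
    ·
      rw [← (atB71 (onc h (by decide))).K]
      show kf7q1.v y x = _
      simp only [kf7q1, c3g_v]
      ((try push_cast); (try simp only [mul_inv]); (try ring_nf))
  · intro y h
    show tK 7 2 y x = _
    ·
      rw [← (atB72 (onc h (by decide))).K]
      show kf7q2.v y x = _
      simp only [kf7q2, c3g_v]
      ((try push_cast); (try simp only [mul_inv]); (try ring_nf))
  · intro y h
    show tK 7 3 y x = _
    ·
      have ey := ycg_v h.nonneg h.le_two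
      rw [← (atB73 (onc h (by decide))).K]
      show kfc73.v (c3n y) x = _
      simp only [kfc73, c3g_v, ey]
      ((try push_cast); (try simp only [mul_inv]); (try ring_nf))
theorem Ln_ (x : ℝ) : ∀ q y, InQ q y → TightL (tyN q) (fun p c => dd.TX.val dd.kf.v p c x) (c3n y) y (tL (Fin.last 7) q y x) := by
  refine Ln_of (R := fun q y => tL 7 q y x) (tx := fun p c => txg.v p c x) txe ?_ ?_ ?_ ?_
  · intro y h
    show tL 7 0 y x = _
    ·
      rw [← (atB70 (onc h (by decide))).L]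
      show l7q0.v y x = _
      simp only [l7q0, l7q0_6, l7q0_7, l7q0_8, c3g_v]
      ((try push_cast); (try simp only [mul_inv]); (try ring_nf))
  · intro y h
    show tL 7 1 y x = _
    ·
      rw [← (atB71 (onc h (by decide))).L]
      show l7q1.v y x = _
      simp only [l7q1, l7q1_7, l7q1_8, l7q1_9, c3g_v]
      ((try push_cast); (try simp only [mul_inv]); (try ring_nf))
  · intro y h
    show tL 7 2 y x = _
    ·
      rw [← (atB72 (onc h (by decide))).L]
      show l7q2.v y x = _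
      simp only [l7q2, l7q2_7, l7q2_8, l7q2_9, l7q2_12, l7q2_14, c3g_v]
      ((try push_cast); (try simp only [mul_inv]); (try ring_nf))
  · intro y h
    show tL 7 3 y x = _
    ·
      have ey := ycg_v h.nonneg h.le_two
      rw [← (atB73 (onc h (by decide))).L]
      show lc73.v (c3n y) x = _
      simp only [lc73, lc73_7, lc73_8, lc73_9, lc73_12, lc73_14, c3g_v, ey]
      ((try push_cast); (try simp only [mul_inv]); (try ring_nf))
theorem f0_ : ∀ q y, InQ q y → (ff q).f.v y = crv PP 1 q y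
  | 0, y, _ => ecv1q0.symm
  | 1, y, _ => ecv1q1.symm
  | 2, y, _ => ecv1q2.symm
  | 3, y, h => (ecv1q3 h.1).symm
theorem fn_ : ∀ q y, InQ q y → (fl q).f.v y = crv PP 6 q y
  | 0, y, _ => ecv6q0.symm
  | 1, y, _ => ecv6q1.symm
  | 2, y, _ => ecv6q2.symm
  | 3, y, h => (ecv6q3 h.1).symm
theorem yK00 {y x : ℝ} (h : OnC (0 : Fin 8) 0 y) : tK 0 0 y x = kf0q0.v y x := (atB00 h).K.symm
theorem yK10 {y x : ℝ} (h : InQ 0 y) : tK 1 0 y x = kf1q0.v y x := (atB10 (onc h (by decide))).K.symm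
theorem yK01 {y x : ℝ} (h : OnC (0 : Fin 8) 1 y) : tK 0 1 y x = kf0q1.v y x := (atB01 h).K.symm
theorem yK11 {y x : ℝ} (h : InQ 1 y) : tK 1 1 y x = kf1q1.v y x := (atB11 (onc h (by decide))).K.symm
theorem yK02 {y x : ℝ} (h : OnC (0 : Fin 8) 2 y) : tK 0 2 y x = kf0q2.v y x := by
  rw [← (atB02 h).K]
  show kfc02.v (c1n y) x = _
  have ey := yag_v h.1.nonneg (h.2 rfl)
  simp only [kfc02, kf0q2, ey, c1g_v, c3g_v, swg_v]
  ((try push_cast); (try ring_nf))
theorem yK12 {y x : ℝ} (h : InQ 2 y) : tK 1 2 y x = kf1q2.v y x := (atB12 (onc h (by decide))).K.symm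
theorem yK70 {y x : ℝ} (h : InQ 0 y) : tK 7 0 y x = kf7q0.v y x := (atB70 (onc h (by decide))).K.symm
theorem yK60 {y x : ℝ} (h : InQ 0 y) : tK 6 0 y x = kf6q0.v y x := (atB60 (onc h (by decide))).K.symm
theorem yK71 {y x : ℝ} (h : InQ 1 y) : tK 7 1 y x = kf7q1.v y x := (atB71 (onc h (by decide))).K.symm
theorem yK61 {y x : ℝ} (h : InQ 1 y) : tK 6 1 y x = kf6q1.v y x := (atB61 (onc h (by decide))).K.symm
theorem yK72 {y x : ℝ} (h : InQ 2 y) : tK 7 2 y x = kf7q2.v y x := (atB72 (onc h (by decide))).K.symm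
theorem yK62 {y x : ℝ} (h : InQ 2 y) : tK 6 2 y x = kf6q2.v y x := (atB62 (onc h (by decide))).K.symm
theorem yK73 {y x : ℝ} (h : InQ 3 y) : tK 7 3 y x = kf7q3.v y x := by
  rw [← (atB73 (onc h (by decide))).K]
  show kfc73.v (c3n y) x = _
  have ey := ycg_v h.nonneg h.le_two
  simp only [kfc73, kf7q3, ey, c1g_v, c3g_v, swg_v]
  ((try push_cast); (try ring_nf))
theorem yK63 {y x : ℝ} (h : InQ 3 y) : tK 6 3 y x = kf6q3.v y x := by
  rw [← (atB63 (onc h (by decide))).K]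
  show kfc63.v (c3n y) x = _
  have ey := ycg_v h.nonneg h.le_two
  simp only [kfc63, kfc63_11, kf6q3, kf6q3_4, cv6r, ey, c1g_v, c3g_v, swg_v]
  ((try push_cast); (try ring_nf))
theorem yL00 {y x : ℝ} (h : OnC (0 : Fin 8) 0 y) : tL 0 0 y x = l0q0.v y x := (atB00 h).L.symm
theorem yL10 {y x : ℝ} (h : InQ 0 y) : tL 1 0 y x = l1q0.v y x := (atB10 (onc h (by decide))).L.symm
theorem yL01 {y x : ℝ} (h : OnC (0 : Fin 8) 1 y) : tL 0 1 y x = l0q1.v y x := (atB01 h).L.symm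
theorem yL11 {y x : ℝ} (h : InQ 1 y) : tL 1 1 y x = l1q1.v y x := (atB11 (onc h (by decide))).L.symm
theorem yL02 {y x : ℝ} (h : OnC (0 : Fin 8) 2 y) : tL 0 2 y x = l0q2.v y x := by
  rw [← (atB02 h).L]
  show lc02.v (c1n y) x = _
  have ey := yag_v h.1.nonneg (h.2 rfl)
  simp only [lc02, lc02_7, lc02_8, l0q2, l0q2_7, l0q2_8, ey, c1g_v, c3g_v, swg_v]
  ((try push_cast); (try ring_nf))
theorem yL12 {y x : ℝ} (h : InQ 2 y) : tL 1 2 y x = l1q2.v y x := (atB12 (onc h (by decide))).L.symm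
theorem yL70 {y x : ℝ} (h : InQ 0 y) : tL 7 0 y x = l7q0.v y x := (atB70 (onc h (by decide))).L.symm
theorem yL60 {y x : ℝ} (h : InQ 0 y) : tL 6 0 y x = l6q0.v y x := (atB60 (onc h (by decide))).L.symm
theorem yL71 {y x : ℝ} (h : InQ 1 y) : tL 7 1 y x = l7q1.v y x := (atB71 (onc h (by decide))).L.symm
theorem yL61 {y x : ℝ} (h : InQ 1 y) : tL 6 1 y x = l6q1.v y x := (atB61 (onc h (by decide))).L.symm
theorem yL72 {y x : ℝ} (h : InQ 2 y) : tL 7 2 y x = l7q2.v y x := (atB72 (onc h (by decide))).L.symm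
theorem yL62 {y x : ℝ} (h : InQ 2 y) : tL 6 2 y x = l6q2.v y x := (atB62 (onc h (by decide))).L.symm
theorem yL73 {y x : ℝ} (h : InQ 3 y) : tL 7 3 y x = l7q3.v y x := by
  rw [← (atB73 (onc h (by decide))).L]
  show lc73.v (c3n y) x = _
  have ey := ycg_v h.nonneg h.le_two
  simp only [lc73, lc73_7, lc73_8, lc73_9, lc73_12, lc73_14, l7q3, l7q3_7, l7q3_8, l7q3_9, l7q3_12, l7q3_14, ey, c1g_v, c3g_v, swg_v]
  ((try push_cast); (try ring_nf))
theorem yL63 {y x : ℝ} (h : InQ 3 y) : tL 6 3 y x = l6q3.v y x := by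
  rw [← (atB63 (onc h (by decide))).L]
  show lc63.v (c3n y) x = _
  have ey := ycg_v h.nonneg h.le_two
  simp only [lc63, lc63_11, l6q3, l6q3_4, cv6r, ey, c1g_v, c3g_v, swg_v]
  ((try push_cast); (try ring_nf))
theorem sK0_ (x : ℝ) : ∀ q y, OnC (0 : Fin 8) q y → c1n y < crv PP 1 q y →
    (ff q).SK.v y x * (crv PP 1 q y - c1n y) = tK 1 q y x - tK 0 q y x := by
  intro q y h hlt
  rcases onC_q h with rfl | rfl | rfl
  · rw [yK10 h.1, yK00 h]
    rw [ecv1q0, ← c1g_v] at hlt ⊢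
    have hd : 0 < cv1m.v y - c1g.v y := sub_pos.2 hlt
    have hi := inv_mul_cancel₀ hd.ne'
    show skf0.v y x * _ = _
    simp only [skf0, kf1q0]
    (try push_cast)
    linear_combination (c1g.v y * bf1q0.v y x - kf0q0.v y x) * hi
  · rw [yK11 h.1, yK01 h]
    rw [ecv1q1, ← c1g_v] at hlt ⊢
    have hd : 0 < cv1m.v y - c1g.v y := sub_pos.2 hlt
    have hi := inv_mul_cancel₀ hd.ne'
    show skf1.v y x * _ = _
    simp only [skf1, kf1q1]
    (try push_cast)
    linear_combination (c1g.v y * bf1q1.v y x - kf0q1.v y x) * hi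
  · rw [yK12 h.1, yK02 h]
    rw [ecv1q2, ← c1g_v] at hlt ⊢
    have hd : 0 < cv1p.v y - c1g.v y := sub_pos.2 hlt
    have hi := inv_mul_cancel₀ hd.ne'
    have hB : kf1q2.v y x = cv1p.v y * bf1q2.v y x := by
      simp only [kf1q2, kf1q2_4, kf1q2_9, bf1q2, bf1q2_3, bf1q2_8]
    have hb : |c1g.v y| ≤ 1 / 2 := by rw [c1g_v]; exact bnd_O h
    have eo := odd (x := x) hb
    show skf2.v y x * _ = _
    simp only [skf2, hB, kf0q2, eo]
    (try push_cast)
    linear_combination (c1g.v y * (bf1q2.v y x - 1) + (y - 1) * kcg.v (c1g.v y) x) * hi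
theorem sX0_ (x : ℝ) : ∀ q y, OnC (0 : Fin 8) q y → c1n y < crv PP 1 q y →
    (ff q).SX.v y x * (crv PP 1 q y - c1n y) = tL 1 q y x - tL 0 q y x := by
  intro q y h hlt
  rcases onC_q h with rfl | rfl | rfl
  · rw [yL10 h.1, yL00 h]
    rw [ecv1q0, ← c1g_v] at hlt ⊢
    have hd : 0 < cv1m.v y - c1g.v y := sub_pos.2 hlt
    have hi := inv_mul_cancel₀ hd.ne'
    show sxf0.v y x * _ = _
    simp only [sxf0]
    (try push_cast)
    linear_combination (l1q0.v y x - l0q0.v y x) * hi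
  · rw [yL11 h.1, yL01 h]
    rw [ecv1q1, ← c1g_v] at hlt ⊢
    have hd : 0 < cv1m.v y - c1g.v y := sub_pos.2 hlt
    have hi := inv_mul_cancel₀ hd.ne'
    show sxf1.v y x * _ = _
    simp only [sxf1]
    (try push_cast)
    linear_combination (l1q1.v y x - l0q1.v y x) * hi
  · rw [yL12 h.1, yL02 h]
    rw [ecv1q2, ← c1g_v] at hlt ⊢
    have hd : 0 < cv1p.v y - c1g.v y := sub_pos.2 hlt
    have hi := inv_mul_cancel₀ hd.ne'
    show sxf2.v y x * _ = _
    simp only [sxf2]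
    (try push_cast)
    linear_combination (l1q2.v y x - l0q2.v y x) * hi
theorem sKn_ (x : ℝ) : ∀ q y, InQ q y → crv PP 6 q y < c3n y →
    (fl q).SK.v y x * (c3n y - crv PP 6 q y) = tK 7 q y x - tK 6 q y x := by
  intro q y h hlt
  match q, h with
  | 0, h =>
    rw [yK70 h, yK60 h]
    rw [ecv6q0, ← c3g_v] at hlt ⊢
    have hd : 0 < c3g.v y - cv6m.v y := sub_pos.2 hlt
    have hi := inv_mul_cancel₀ hd.ne'
    show skl0.v y x * _ = _
    simp only [skl0, kf6q0]
    (try push_cast)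
    linear_combination (kf7q0.v y x - c3g.v y * bf6q0.v y x) * hi
  | 1, h =>
    rw [yK71 h, yK61 h]
    rw [ecv6q1, ← c3g_v] at hlt ⊢
    have hd : 0 < c3g.v y - cv6m.v y := sub_pos.2 hlt
    have hi := inv_mul_cancel₀ hd.ne'
    show skl1.v y x * _ = _
    simp only [skl1, kf6q1]
    (try push_cast)
    linear_combination (kf7q1.v y x - c3g.v y * bf6q1.v y x) * hi
  | 2, h =>
    rw [yK72 h, yK62 h]
    rw [ecv6q2, ← c3g_v] at hlt ⊢
    have hd : 0 < c3g.v y - cv6p.v y := sub_pos.2 hlt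
    have hi := inv_mul_cancel₀ hd.ne'
    show skl2.v y x * _ = _
    simp only [skl2, kf6q2]
    (try push_cast)
    linear_combination (kf7q2.v y x - c3g.v y * bf6q2.v y x) * hi
  | 3, h =>
    rw [yK73 h, yK63 h]
    rw [ecv6q3 h.1, ← c3g_v] at hlt ⊢
    have hd : 0 < c3g.v y - cv6r.v y := sub_pos.2 hlt
    have hi := inv_mul_cancel₀ hd.ne'
    have hB : kf6q3.v y x = cv6r.v y * bf6q3.v y x := by
      simp only [kf6q3, kf6q3_4, bf6q3, bf6q3_3]
    show skl3.v y x * _ = _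
    simp only [skl3, hB]
    (try push_cast)
    linear_combination (kf7q3.v y x - c3g.v y * bf6q3.v y x) * hi
theorem sXn_ (x : ℝ) : ∀ q y, InQ q y → crv PP 6 q y < c3n y →
    (fl q).SX.v y x * (c3n y - crv PP 6 q y) = tL 7 q y x - tL 6 q y x := by
  intro q y h hlt
  match q, h with
  | 0, h =>
    rw [yL70 h, yL60 h]
    rw [ecv6q0, ← c3g_v] at hlt ⊢
    have hd : 0 < c3g.v y - cv6m.v y := sub_pos.2 hlt
    have hi := inv_mul_cancel₀ hd.ne'
    show sxl0.v y x * _ = _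
    simp only [sxl0]
    (try push_cast)
    linear_combination (l7q0.v y x - l6q0.v y x) * hi
  | 1, h =>
    rw [yL71 h, yL61 h]
    rw [ecv6q1, ← c3g_v] at hlt ⊢
    have hd : 0 < c3g.v y - cv6m.v y := sub_pos.2 hlt
    have hi := inv_mul_cancel₀ hd.ne'
    show sxl1.v y x * _ = _
    simp only [sxl1]
    (try push_cast)
    linear_combination (l7q1.v y x - l6q1.v y x) * hi
  | 2, h =>
    rw [yL72 h, yL62 h]
    rw [ecv6q2, ← c3g_v] at hlt ⊢
    have hd : 0 < c3g.v y - cv6p.v y := sub_pos.2 hlt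
    have hi := inv_mul_cancel₀ hd.ne'
    show sxl2.v y x * _ = _
    simp only [sxl2]
    (try push_cast)
    linear_combination (l7q2.v y x - l6q2.v y x) * hi
  | 3, h =>
    rw [yL73 h, yL63 h]
    rw [ecv6q3 h.1, ← c3g_v] at hlt ⊢
    have hd : 0 < c3g.v y - cv6r.v y := sub_pos.2 hlt
    have hi := inv_mul_cancel₀ hd.ne'
    show sxl3.v y x * _ = _
    simp only [sxl3]
    (try push_cast)
    linear_combination (l7q3.v y x - l6q3.v y x) * hi
theorem kn_ (x : ℝ) : ∀ X, |X| ≤ vv.k1.v → kcg.v (-X) x = -(k0c.v x * X) := by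
  intro X h
  have h : |X| ≤ 0 := by
    refine h.trans_eq ?_
    show (Cn.rt 0 1).v = _
    rw [Cn.rt_v]
    norm_num
  obtain ⟨h1, h2⟩ := abs_le.1 h
  rw [kcl9 (p := -X) (by linarith) (by linarith)]
  simp only [k0c]
  push_cast
  ring
theorem tn_ (x : ℝ) : ∀ X, |X| ≤ vv.k1.v → dd.tF x (-X) - dd.tF x X = m0c.v x * X := by
  intro X h
  have h : |X| ≤ 0 := by
    refine h.trans_eq ?_
    show (Cn.rt 0 1).v = _
    rw [Cn.rt_v]
    norm_num
  have hX : X = 0 := abs_nonpos_iff.1 h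
  subst hX
  rw [neg_zero, sub_self, mul_zero]
theorem kz_ (x : ℝ) : ∀ z, |z| ≤ kz.v → kcg.v (-z) x = -(k0c.v x * z) := by
  intro z h
  have h : |z| ≤ 37 / 763 := by
    refine h.trans_eq ?_
    show (Cn.rt 37 763).v = _
    rw [Cn.rt_v]
    norm_num
  obtain ⟨h1, h2⟩ := abs_le.1 h
  rw [kcl9 (p := -z) (by linarith) (by linarith)]
  simp only [k0c]
  push_cast
  ring
theorem tcl {p c x : ℝ} (h1 : -47 / 914 < p) (h2 : p ≤ 37 / 763) : dt76.val (fun p x => kcg.v p x) p c x = cloR (kcg.v p x) p c x := by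
  refine (DT.val_le (by simp only [Cn.rt_v, Cn.ng_v]; push_cast; linarith)).trans ?_
  refine (DT.val_gt (by simp only [Cn.rt_v, Cn.ng_v]; push_cast; linarith)).trans ?_
  refine (DT.val_gt (by simp only [Cn.rt_v, Cn.ng_v]; push_cast; linarith)).trans ?_
  refine (DT.val_gt (by simp only [Cn.rt_v, Cn.ng_v]; push_cast; linarith)).trans ?_
  refine (DT.val_gt (by simp only [Cn.rt_v, Cn.ng_v]; push_cast; linarith)).trans ?_
  simp only [dt47, DT.val]
theorem tz_ (x : ℝ) : ∀ z y, |z| ≤ kz.v → qqn z y = 1 → 1 ≤ y →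
    dd.tF x (-z) - dd.tF x z = z * Nlv (k0c.v x) x y := by
  intro z y h hq hy
  have k1 := kz_ x z h
  have k2 := kz_ x (-z) (by rwa [abs_neg])
  rw [neg_neg] at k2
  have h : |z| ≤ 37 / 763 := by
    refine h.trans_eq ?_
    show (Cn.rt 37 763).v = _
    rw [Cn.rt_v]
    norm_num
  obtain ⟨h1, h2⟩ := abs_le.1 h
  have c1 : cT z = 3 / 4 * y - z / 2 := by
    unfold cT
    rw [show 3 / 4 * (1 - z ^ 2) = (3 / 4 * y) ^ 2 by (unfold qqn at hq; linear_combination (-3 / 4 : ℝ) * hq), Real.sqrt_sq (by linarith)]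
  have c2 : cT (-z) = 3 / 4 * y + z / 2 := by
    unfold cT
    rw [show 3 / 4 * (1 - (-z) ^ 2) = (3 / 4 * y) ^ 2 by (unfold qqn at hq; linear_combination (-3 / 4 : ℝ) * hq), Real.sqrt_sq (by linarith)]
    ring
  show dt76.val (fun p x => kcg.v p x) (-z) (cT (-z)) x - dt76.val (fun p x => kcg.v p x) z (cT z) x = _
  rw [tcl (by linarith) (by linarith), tcl (by linarith) (by linarith), c1, c2]
  unfold cloR Nlv
  simp only [k1, k2]
  ring
theorem z0 (x : ℝ) : Zt0 dd vv kz x where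
  kap := by
    show (Cn.rt 37 763).v ≤ 1 / 2
    rw [Cn.rt_v]
    norm_num
  kn := kz_ x
  tn := tz_ x
  m0 := by
    show m0c.v x = Nlv (k0c.v x) x (√(4 / 3))
    unfold Nlv
    simp only [m0c, epg, epg_4, k0c]
    push_cast
    ring
theorem vK_ (x : ℝ) : ∀ y, InQ 2 y → tK 1 2 y x = crv PP 1 2 y * bf1q2.v y x := by
  intro y h
  rw [yK12 h, ecv1q2]
  simp only [kf1q2, kf1q2_4, kf1q2_9, bf1q2, bf1q2_3, bf1q2_8]
theorem vX_ (x : ℝ) : ∀ y, InQ 2 y → tL 1 2 y x = crv PP 1 2 y * bx1q2.v y x := by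
  intro y h
  rw [yL12 h, ecv1q2]
  simp only [l1q2, l1q2_4, l1q2_11, bx1q2, bx1q2_3, bx1q2_10]
theorem n0_rK (y x : ℝ) : n0b.v y x = (1 - (y - 1) * k0c.v x) := by
  simp only [n0b, k0c]
  all_goals (try push_cast)
  all_goals (try ring)
theorem rK_ (x : ℝ) : ∀ y, OnC (0 : Fin 8) 2 y → c1n y < crv PP 1 2 y →
    rhk.v y x * (crv PP 1 2 y - c1n y) = crv PP 1 2 y * (bf1q2.v y x - (1 - (y - 1) * k0c.v x)) := by
  intro y h hlt
  rw [ecv1q2, ← c1g_v] at hlt ⊢
  have hd : 0 < cv1p.v y - c1g.v y := sub_pos.2 hlt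
  have hi := inv_mul_cancel₀ hd.ne'
  rw [← n0_rK]
  simp only [rhk]
  linear_combination ((bf1q2.v y x - n0b.v y x) * cv1p.v y) * hi
theorem rX_ (x : ℝ) : ∀ y, OnC (0 : Fin 8) 2 y → c1n y < crv PP 1 2 y →
    rhx.v y x * (crv PP 1 2 y - c1n y) = crv PP 1 2 y * (bx1q2.v y x - m0c.v x) := by
  intro y h hlt
  rw [ecv1q2, ← c1g_v] at hlt ⊢
  have hd : 0 < cv1p.v y - c1g.v y := sub_pos.2 hlt
  have hi := inv_mul_cancel₀ hd.ne'

  simp only [rhx]
  linear_combination ((bx1q2.v y x - m0c.v x) * cv1p.v y) * hi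
theorem flat_ (x : ℝ) : ∀ y, InQ 2 y → vv.ya.v ≤ y → y ≤ vv.yb.v → bf1q2.v y x = 1 - (y - 1) * k0c.v x ∧ bx1q2.v y x = m0c.v x := by
  intro y h h1 h2
  have ea : vv.ya.v = 2 := by
    show (Cn.rt 2 1).v = _
    rw [Cn.rt_v]
    norm_num
  have eb : vv.yb.v = 231 / 200 := by
    show (Cn.rt 231 200).v = _
    rw [Cn.rt_v]
    norm_num
  rw [ea] at h1
  rw [eb] at h2
  have hy2 : 4 / 3 ≤ y ^ 2 := by nlinarith
  exfalso
  linarith
theorem abk_ (x : ℝ) : ∀ y, InQ 2 y → vv.yb.v ≤ y → y ≤ vv.yk.v → bf1q2.v y x = 1 - (y - 1) * k0c.v x + sbk.v x * (y - vv.yb.v) ∧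
    bx1q2.v y x = m0c.v x + sbx.v x * (y - vv.yb.v) := by
  intro y h h1 h2
  have eb : vv.yb.v = 231 / 200 := by
    show (Cn.rt 231 200).v = _
    rw [Cn.rt_v]
    norm_num
  have ek : vv.yk.v = 0 := by
    show (Cn.rt 0 1).v = _
    rw [Cn.rt_v]
    norm_num
  rw [eb] at h1 ⊢
  rw [ek] at h2
  have hy2 : 4 / 3 ≤ y ^ 2 := by nlinarith
  exfalso
  linarith
theorem ko_dt77 (x : ℝ) : dt77.KOk x := trivial
theorem ph_ (x : ℝ) : ∀ u, |u| ≤ vv.k2.v → dd.tF x (-u) - dd.tF x u = m0c.v x * u + dt77.kv u x := by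
  intro u h
  exfalso
  have e : vv.k2.v = -1 := by
    show ((Cn.rt 1 1).ng).v = _
    rw [Cn.ng_v, Cn.rt_v]
    norm_num
  rw [e] at h
  linarith [abs_nonneg u]
theorem kqf_ {y : ℝ} (x : ℝ) (h : OnC (0 : Fin 8) 2 y) : kqf.v y x * c1g.v y = (y - 1) * kcg.v (c1g.v y) x := by
  have h0 : 0 ≤ c1g.v y := by rw [c1g_v]; exact c1n_nn y
  simp only [kqf]
  (try push_cast)
  split_ifs with hh
  · rw [kcl9 (p := c1g.v y) (by linarith) (by linarith)]
    ring
  · have hc : c1g.v y ≠ 0 := by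
      intro e
      rw [e] at hh
      exact hh (by norm_num)
    have hi := inv_mul_cancel₀ hc
    linear_combination ((y - 1) * kcg.v (c1g.v y) x) * hi
theorem sM_ (x : ℝ) : ∀ y, OnC (0 : Fin 8) 2 y → c1n y < crv PP 1 2 y →
    (1 + skm.v y x) * (crv PP 1 2 y - c1n y) = tK 1 2 y x - tK 0 2 y x := by
  intro y h hlt
  rw [yK12 h.1, yK02 h]
  rw [ecv1q2, ← c1g_v] at hlt ⊢
  have hd : 0 < cv1p.v y - c1g.v y := sub_pos.2 hlt
  have hi := inv_mul_cancel₀ hd.ne'
  have hb : |c1g.v y| ≤ 1 / 2 := by rw [c1g_v]; exact bnd_O h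
  have eo := odd (x := x) hb
  have hk := kqf_ x h
  have hB : kf1q2.v y x = cv1p.v y * bf1q2.v y x := by
    simp only [kf1q2, kf1q2_4, kf1q2_9, bf1q2, bf1q2_3, bf1q2_8]
  simp only [skm, hB, kf0q2, eo]
  (try push_cast)
  linear_combination (cv1p.v y * ((bf1q2.v y x - 1) + kqf.v y x)) * hi + hk
theorem ok (x : ℝ) : tt.Ok PP tK tL x where
  i0 := rfl
  il := rfl
  rl := by
    show 1 < PP.ρ 6
    have e : PP.ρ 6 = 17 / 10 := rfl
    rw [e]
    norm_num
  ok := dok x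
  kh := rfl
  odd := fun p h => odd h
  K0 := K0_ x
  L0 := L0_ x
  Kn := Kn_ x
  Ln := Ln_ x
  f0 := f0_
  fn := fn_
  sK0 := sK0_ x
  sX0 := sX0_ x
  sKn := sKn_ x
  sXn := sXn_ x
  k1 := by
    show 0 ≤ (Cn.rt 0 1).v ∧ (Cn.rt 0 1).v ≤ 1 / 2
    rw [Cn.rt_v]
    constructor <;> norm_num
  kn := kn_ x
  tn := tn_ x
  vK := vK_ x
  vX := vX_ x
  rK := rK_ x
  rX := rX_ x
  yb := by
    show 0 ≤ (Cn.rt 231 200).v ∧ 1 ≤ 3 / 4 * (Cn.rt 231 200).v ^ 2
    rw [Cn.rt_v]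
    constructor <;> norm_num
  flat := flat_ x
  abk := abk_ x
  phk := ko_dt77 x
  ph := ph_ x
  sM := sM_ x
  yz := by
    show (Cn.rt 2 1).v ≤ (Cn.rt 2 1).v ∧ 0 ≤ (Cn.rt 2 1).v ∧ 1 ≤ 3 / 4 * (Cn.rt 2 1).v ^ 2 + (Cn.rt 0 1).v ^ 2
    simp only [Cn.rt_v]
    refine ⟨?_, ?_, ?_⟩ <;> norm_num
theorem yK22_ {y x : ℝ} (h : InQ 2 y) : tK 2 2 y x = kf2q2.v y x := (atB22 (onc h (by decide))).K.symm
theorem yL22_ {y x : ℝ} (h : InQ 2 y) : tL 2 2 y x = l2q2.v y x := (atB22 (onc h (by decide))).L.symm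
theorem fr_ : ∀ y, InQ 2 y → crv PP 1 2 y = c1n y + ww.FR.v y := by
  intro y h
  rw [ecv1q2, ← c1g_v]
  show _ = c1g.v y + frw.v y
  simp only [cv1p, frw]
  push_cast
  ring
theorem f2_ : ∀ y, InQ 2 y → ww.f2.v y = crv PP 2 2 y := fun _ _ => ecv2q2.symm
theorem b1_ (x : ℝ) : ∀ y, InQ 2 y → y ≤ vv.yb.v → c1n y ≤ ww.c2.v → bf1q2.v y x = 1 - (y - 1) * k0c.v x + q1k.v x * c1n y ∧
    bx1q2.v y x = m0c.v x + q1x.v x * c1n y := by
  intro y h h1 h2
  have eb : vv.yb.v = 231 / 200 := by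
    show (Cn.rt 231 200).v = _
    rw [Cn.rt_v]
    norm_num
  have ec2 : ww.c2.v = 1 / 20 := by
    show (Cn.rt 1 20).v = _
    rw [Cn.rt_v]
    norm_num
  rw [eb] at h1
  rw [ec2] at h2
  have hcv : c1g.v y ≤ 1 / 20 := by
    rw [c1g_v]
    linarith
  rcases lt_or_ge (3 / 4 * y ^ 2) 1 with ht | ht
  · rw [← c1g_v]
    constructor
    · simp only [bf1q2, bf1q2_3, bf1q2_8, k0c, q1k]
      (try push_cast)
      (repeat first | rw [if_pos (by linarith)] | rw [if_neg (by linarith)])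
      (try push_cast)
      ring1
    · simp only [bx1q2, bx1q2_3, bx1q2_10, epg, epg_4, m0c, q1x]
      (try push_cast)
      (repeat first | rw [if_pos (by linarith)] | rw [if_neg (by linarith)])
      (try push_cast)
      ring1
  · have hz : c1n y = 0 := by
      unfold c1n
      exact Real.sqrt_eq_zero_of_nonpos (by linarith)
    rw [hz]
    constructor
    · simp only [bf1q2, bf1q2_3, bf1q2_8, k0c, q1k]
      (try push_cast)
      (repeat first | rw [if_pos (by linarith)] | rw [if_neg (by linarith)])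
      (try push_cast)
      ring1
    · simp only [bx1q2, bx1q2_3, bx1q2_10, epg, epg_4, m0c, q1x]
      (try push_cast)
      (repeat first | rw [if_pos (by linarith)] | rw [if_neg (by linarith)])
      (try push_cast)
      ring1
theorem a2_ (x : ℝ) : ∀ y, InQ 2 y → 3 / 4 * y ^ 2 < 1 → c1n y ≤ ww.c2.v →
    tK 2 2 y x = crv PP 2 2 y * (a2k0.v x + a2k1.v x * c1n y) ∧
    tL 2 2 y x = crv PP 2 2 y * (a2x0.v x + a2x1.v x * c1n y) := by
  intro y h ht h2
  have ec2 : ww.c2.v = 1 / 20 := by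
    show (Cn.rt 1 20).v = _
    rw [Cn.rt_v]
    norm_num
  rw [ec2] at h2
  have hcv : c1g.v y ≤ 1 / 20 := by
    rw [c1g_v]
    linarith
  rw [yK22_ h, yL22_ h, ecv2q2, ← c1g_v]
  constructor
  · simp only [kf2q2, kf2q2_4, a2k0, a2k1]
    (try push_cast)
    (repeat first | rw [if_pos (by linarith)] | rw [if_neg (by linarith)])
    (try push_cast)
    ring1
  · simp only [l2q2, l2q2_4, a2x0, a2x1]
    (try push_cast)
    (repeat first | rw [if_pos (by linarith)] | rw [if_neg (by linarith)])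
    (try push_cast)
    ring1
theorem b2_ (x : ℝ) : ∀ y, InQ 2 y → 1 ≤ 3 / 4 * y ^ 2 → y ≤ vv.yb.v →
    tK 2 2 y x = crv PP 2 2 y * (b2k0.v x + b2k1.v x * (y - ww.y2.v)) ∧
    tL 2 2 y x = crv PP 2 2 y * (b2x0.v x + b2x1.v x * (y - ww.y2.v)) := by
  intro y h ht h2
  have eb : vv.yb.v = 231 / 200 := by
    show (Cn.rt 231 200).v = _
    rw [Cn.rt_v]
    norm_num
  have ey2 : ww.y2.v = 577 / 500 := by
    show (Cn.rt 577 500).v = _
    rw [Cn.rt_v]
    norm_num
  rw [eb] at h2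
  rw [ey2, yK22_ h, yL22_ h, ecv2q2]
  constructor
  · simp only [kf2q2, kf2q2_4, b2k0, b2k1]
    (try push_cast)
    (repeat first | rw [if_pos (by linarith)] | rw [if_neg (by linarith)])
    (try push_cast)
    ring1
  · simp only [l2q2, l2q2_4, b2x0, b2x1]
    (try push_cast)
    (repeat first | rw [if_pos (by linarith)] | rw [if_neg (by linarith)])
    (try push_cast)
    ring1
theorem ecv1pA {y : ℝ} (h1 : 577 / 500 < y) (h2 : 3 / 4 * y ^ 2 < 1) : cv1p.v y = cv1pA.v (c1g.v y) y := by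
  simp only [cv1p, cv1pA]
  all_goals (first | rfl | ring)
theorem ecv2pA {y : ℝ} (h1 : 577 / 500 < y) (h2 : 3 / 4 * y ^ 2 < 1) : cv2p.v y = cv2pA.v (c1g.v y) y := by
  simp only [cv2p, cv2pA]
  all_goals (first | rfl | ring)
theorem ecv3pA {y : ℝ} (h1 : 577 / 500 < y) (h2 : 3 / 4 * y ^ 2 < 1) : cv3p.v y = cv3pA.v (c1g.v y) y := by
  simp only [cv3p, cv3pA]
  all_goals (first | rfl | ring)
theorem ecv4pA {y : ℝ} (h1 : 577 / 500 < y) (h2 : 3 / 4 * y ^ 2 < 1) : cv4p.v y = cv4pA.v (c1g.v y) y := by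
  simp only [cv4p, cv4pA]
  all_goals (first | rfl | ring)
theorem elm4pA {a1 y : ℝ} (h1 : 577 / 500 < y) (h2 : 3 / 4 * y ^ 2 < 1) : lm4p.v a1 y = lm4pA.v a1 (c1g.v y) y := by
  simp only [lm4p, lm4pA, ecv4pA h1 h2]
  all_goals (first | rfl | ring)
theorem ebf4q2A {y a2 : ℝ} (h1 : 577 / 500 < y) (h2 : 3 / 4 * y ^ 2 < 1) : bf4q2.v y a2 = bf4q2A.v (c1g.v y) y a2 := by
  have ht : ¬ (((1 : ℕ) : ℝ) - ((3 : ℕ) : ℝ) / ((4 : ℕ) : ℝ) * y ^ 2 ≤ 0) := by
    push_cast
    linarith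
  simp only [bf4q2, bf4q2_3, bf4q2A, bf4q2A_3, if_neg ht]
  all_goals (first | rfl | ring)
theorem elm3pA {a1 y : ℝ} (h1 : 577 / 500 < y) (h2 : 3 / 4 * y ^ 2 < 1) : lm3p.v a1 y = lm3pA.v a1 (c1g.v y) y := by
  simp only [lm3p, lm3pA, ecv3pA h1 h2, ecv4pA h1 h2]
  all_goals (first | rfl | ring)
theorem ebf3q2A {y a2 : ℝ} (h1 : 577 / 500 < y) (h2 : 3 / 4 * y ^ 2 < 1) : bf3q2.v y a2 = bf3q2A.v (c1g.v y) y a2 := by
  have ht : ¬ (((1 : ℕ) : ℝ) - ((3 : ℕ) : ℝ) / ((4 : ℕ) : ℝ) * y ^ 2 ≤ 0) := by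
    push_cast
    linarith
  simp only [bf3q2, bf3q2_3, bf3q2A, bf3q2A_3, if_neg ht]
  all_goals (first | rfl | ring)
theorem elm2pA {a1 y : ℝ} (h1 : 577 / 500 < y) (h2 : 3 / 4 * y ^ 2 < 1) : lm2p.v a1 y = lm2pA.v a1 (c1g.v y) y := by
  simp only [lm2p, lm2pA, ecv2pA h1 h2, ecv3pA h1 h2]
  all_goals (first | rfl | ring)
theorem ebf2q2A {y a2 : ℝ} (h1 : 577 / 500 < y) (h2 : 3 / 4 * y ^ 2 < 1) : bf2q2.v y a2 = bf2q2A.v (c1g.v y) y a2 := by
  have ht : ¬ (((1 : ℕ) : ℝ) - ((3 : ℕ) : ℝ) / ((4 : ℕ) : ℝ) * y ^ 2 ≤ 0) := by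
    push_cast
    linarith
  simp only [bf2q2, bf2q2_3, bf2q2A, bf2q2A_3, if_neg ht]
  all_goals (first | rfl | ring)
theorem elm1pA {a1 y : ℝ} (h1 : 577 / 500 < y) (h2 : 3 / 4 * y ^ 2 < 1) : lm1p.v a1 y = lm1pA.v a1 (c1g.v y) y := by
  simp only [lm1p, lm1pA, ecv1pA h1 h2, ecv2pA h1 h2]
  all_goals (first | rfl | ring)
theorem ebf1q2A {y a2 : ℝ} (h1 : 577 / 500 < y) (h2 : 3 / 4 * y ^ 2 < 1) : bf1q2.v y a2 = bf1q2A.v (c1g.v y) y a2 := by
  have ht : ¬ (((1 : ℕ) : ℝ) - ((3 : ℕ) : ℝ) / ((4 : ℕ) : ℝ) * y ^ 2 ≤ 0) := by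
    push_cast
    linarith
  simp only [bf1q2, bf1q2_3, bf1q2_8, bf1q2A, bf1q2A_3, if_neg ht]
  all_goals (first | rfl | ring)
theorem elm0pA {a1 y : ℝ} (h1 : 577 / 500 < y) (h2 : 3 / 4 * y ^ 2 < 1) : lm0p.v a1 y = lm0pA.v a1 (c1g.v y) y := by
  simp only [lm0p, lm0pA, ecv1pA h1 h2]
  all_goals (first | rfl | ring)
theorem erkbq2A {a1 y a3 : ℝ} (h1 : 577 / 500 < y) (h2 : 3 / 4 * y ^ 2 < 1) : rkbq2.v a1 y a3 = rkbq2A.v a1 (c1g.v y) y a3 := by
  have hr0 : ¬ (y - ((577 : ℕ) : ℝ) / ((500 : ℕ) : ℝ) ≤ 0) := by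
    push_cast
    linarith
  have hr1 : y - ((2887 : ℕ) : ℝ) / ((2500 : ℕ) : ℝ) ≤ 0 := by
    push_cast
    nlinarith
  simp only [rkbq2, rkbq2_73, rkbq2_75, rkbq2A, if_neg hr0, if_pos hr1, ecv1pA h1 h2, ecv2pA h1 h2, ecv3pA h1 h2, ecv4pA h1 h2, elm4pA h1 h2, ebf4q2A h1 h2, elm3pA h1 h2, ebf3q2A h1 h2, elm2pA h1 h2, ebf2q2A h1 h2, elm1pA h1 h2, ebf1q2A h1 h2, elm0pA h1 h2]
  all_goals (first | rfl | ring)
theorem ersbq2A {a1 y a3 : ℝ} (h1 : 577 / 500 < y) (h2 : 3 / 4 * y ^ 2 < 1) : rsbq2.v a1 y a3 = rsbq2A.v a1 (c1g.v y) y a3 := by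
  simp only [rsbq2, rsbq2A, erkbq2A h1 h2]
  all_goals (first | rfl | ring)
theorem ebx4q2A {y a2 : ℝ} (h1 : 577 / 500 < y) (h2 : 3 / 4 * y ^ 2 < 1) : bx4q2.v y a2 = bx4q2A.v (c1g.v y) y a2 := by
  have ht : ¬ (((1 : ℕ) : ℝ) - ((3 : ℕ) : ℝ) / ((4 : ℕ) : ℝ) * y ^ 2 ≤ 0) := by
    push_cast
    linarith
  simp only [bx4q2, bx4q2_3, bx4q2A, bx4q2A_3, if_neg ht]
  all_goals (first | rfl | ring)
theorem ebx3q2A {y a2 : ℝ} (h1 : 577 / 500 < y) (h2 : 3 / 4 * y ^ 2 < 1) : bx3q2.v y a2 = bx3q2A.v (c1g.v y) y a2 := by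
  have ht : ¬ (((1 : ℕ) : ℝ) - ((3 : ℕ) : ℝ) / ((4 : ℕ) : ℝ) * y ^ 2 ≤ 0) := by
    push_cast
    linarith
  simp only [bx3q2, bx3q2_3, bx3q2A, bx3q2A_3, if_neg ht]
  all_goals (first | rfl | ring)
theorem ebx2q2A {y a2 : ℝ} (h1 : 577 / 500 < y) (h2 : 3 / 4 * y ^ 2 < 1) : bx2q2.v y a2 = bx2q2A.v (c1g.v y) y a2 := by
  have ht : ¬ (((1 : ℕ) : ℝ) - ((3 : ℕ) : ℝ) / ((4 : ℕ) : ℝ) * y ^ 2 ≤ 0) := by
    push_cast
    linarith
  simp only [bx2q2, bx2q2_3, bx2q2A, bx2q2A_3, if_neg ht]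
  all_goals (first | rfl | ring)
theorem ebx1q2A {y a2 : ℝ} (h1 : 577 / 500 < y) (h2 : 3 / 4 * y ^ 2 < 1) : bx1q2.v y a2 = bx1q2A.v (c1g.v y) y a2 := by
  have ht : ¬ (((1 : ℕ) : ℝ) - ((3 : ℕ) : ℝ) / ((4 : ℕ) : ℝ) * y ^ 2 ≤ 0) := by
    push_cast
    linarith
  simp only [bx1q2, bx1q2_3, bx1q2_10, bx1q2A, bx1q2A_3, if_neg ht]
  all_goals (first | rfl | ring)
theorem erxq2A {a1 y a3 : ℝ} (h1 : 577 / 500 < y) (h2 : 3 / 4 * y ^ 2 < 1) : rxq2.v a1 y a3 = rxq2A.v a1 (c1g.v y) y a3 := by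
  have hr0 : ¬ (y - ((577 : ℕ) : ℝ) / ((500 : ℕ) : ℝ) ≤ 0) := by
    push_cast
    linarith
  have hr1 : y - ((2887 : ℕ) : ℝ) / ((2500 : ℕ) : ℝ) ≤ 0 := by
    push_cast
    nlinarith
  simp only [rxq2, rxq2_73, rxq2_75, rxq2A, if_neg hr0, if_pos hr1, ecv1pA h1 h2, ecv2pA h1 h2, ecv3pA h1 h2, ecv4pA h1 h2, elm4pA h1 h2, ebx4q2A h1 h2, elm3pA h1 h2, ebx3q2A h1 h2, elm2pA h1 h2, ebx2q2A h1 h2, elm1pA h1 h2, ebx1q2A h1 h2, elm0pA h1 h2]
  all_goals (first | rfl | ring)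
theorem erlq2A {a1 y a3 : ℝ} (h1 : 577 / 500 < y) (h2 : 3 / 4 * y ^ 2 < 1) : rlq2.v a1 y a3 = rlq2A.v a1 (c1g.v y) y a3 := by
  simp only [rlq2, rlq2A, erxq2A h1 h2]
  all_goals (first | rfl | ring)
theorem c0_ {y : ℝ} (h2 : 1 ≤ 3 / 4 * y ^ 2) : c1g.v y = ((0 : ℕ) : ℝ) := by
  rw [c1g_v]
  unfold c1n
  push_cast
  exact Real.sqrt_eq_zero_of_nonpos (by linarith)
theorem ecv1pB {y : ℝ} (h1 : 577 / 500 < y) (h2 : 1 ≤ 3 / 4 * y ^ 2) : cv1p.v y = cv1pB.v y := by
  simp only [cv1p, cv1pB, c0_ h2]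
  all_goals (first | rfl | ring)
theorem ecv2pB {y : ℝ} (h1 : 577 / 500 < y) (h2 : 1 ≤ 3 / 4 * y ^ 2) : cv2p.v y = cv2pB.v y := by
  simp only [cv2p, cv2pB, c0_ h2]
  all_goals (first | rfl | ring)
theorem ecv3pB {y : ℝ} (h1 : 577 / 500 < y) (h2 : 1 ≤ 3 / 4 * y ^ 2) : cv3p.v y = cv3pB.v y := by
  simp only [cv3p, cv3pB, c0_ h2]
  all_goals (first | rfl | ring)
theorem ecv4pB {y : ℝ} (h1 : 577 / 500 < y) (h2 : 1 ≤ 3 / 4 * y ^ 2) : cv4p.v y = cv4pB.v y := by
  simp only [cv4p, cv4pB, c0_ h2]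
  all_goals (first | rfl | ring)
theorem elm4pB {a1 y : ℝ} (h1 : 577 / 500 < y) (h2 : 1 ≤ 3 / 4 * y ^ 2) : lm4p.v a1 y = lm4pB.v a1 y := by
  simp only [lm4p, lm4pB, ecv4pB h1 h2]
  all_goals (first | rfl | ring)
theorem ebf4q2B {y a2 : ℝ} (h1 : 577 / 500 < y) (h2 : 1 ≤ 3 / 4 * y ^ 2) : bf4q2.v y a2 = bf4q2B.v y a2 := by
  have ht : ((1 : ℕ) : ℝ) - ((3 : ℕ) : ℝ) / ((4 : ℕ) : ℝ) * y ^ 2 ≤ 0 := by
    push_cast
    linarith
  simp only [bf4q2, bf4q2_3, bf4q2B, bf4q2B_3, if_pos ht, c0_ h2]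
  all_goals (first | rfl | ring)
theorem elm3pB {a1 y : ℝ} (h1 : 577 / 500 < y) (h2 : 1 ≤ 3 / 4 * y ^ 2) : lm3p.v a1 y = lm3pB.v a1 y := by
  simp only [lm3p, lm3pB, ecv3pB h1 h2, ecv4pB h1 h2]
  all_goals (first | rfl | ring)
theorem ebf3q2B {y a2 : ℝ} (h1 : 577 / 500 < y) (h2 : 1 ≤ 3 / 4 * y ^ 2) : bf3q2.v y a2 = bf3q2B.v y a2 := by
  have ht : ((1 : ℕ) : ℝ) - ((3 : ℕ) : ℝ) / ((4 : ℕ) : ℝ) * y ^ 2 ≤ 0 := by
    push_cast
    linarith
  simp only [bf3q2, bf3q2_3, bf3q2B, bf3q2B_3, if_pos ht, c0_ h2]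
  all_goals (first | rfl | ring)
theorem elm2pB {a1 y : ℝ} (h1 : 577 / 500 < y) (h2 : 1 ≤ 3 / 4 * y ^ 2) : lm2p.v a1 y = lm2pB.v a1 y := by
  simp only [lm2p, lm2pB, ecv2pB h1 h2, ecv3pB h1 h2]
  all_goals (first | rfl | ring)
theorem ebf2q2B {y a2 : ℝ} (h1 : 577 / 500 < y) (h2 : 1 ≤ 3 / 4 * y ^ 2) : bf2q2.v y a2 = bf2q2B.v y a2 := by
  have ht : ((1 : ℕ) : ℝ) - ((3 : ℕ) : ℝ) / ((4 : ℕ) : ℝ) * y ^ 2 ≤ 0 := by
    push_cast
    linarith
  simp only [bf2q2, bf2q2_3, bf2q2B, bf2q2B_3, if_pos ht, c0_ h2]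
  all_goals (first | rfl | ring)
theorem elm1pB {a1 y : ℝ} (h1 : 577 / 500 < y) (h2 : 1 ≤ 3 / 4 * y ^ 2) : lm1p.v a1 y = lm1pB.v a1 y := by
  simp only [lm1p, lm1pB, ecv1pB h1 h2, ecv2pB h1 h2]
  all_goals (first | rfl | ring)
theorem ebf1q2B {y a2 : ℝ} (h1 : 577 / 500 < y) (h2 : 1 ≤ 3 / 4 * y ^ 2) : bf1q2.v y a2 = bf1q2B.v y a2 := by
  have ht : ((1 : ℕ) : ℝ) - ((3 : ℕ) : ℝ) / ((4 : ℕ) : ℝ) * y ^ 2 ≤ 0 := by
    push_cast
    linarith
  simp only [bf1q2, bf1q2_3, bf1q2_8, bf1q2B, bf1q2B_3, if_pos ht, c0_ h2]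
  all_goals (first | rfl | ring)
theorem elm0pB {a1 y : ℝ} (h1 : 577 / 500 < y) (h2 : 1 ≤ 3 / 4 * y ^ 2) : lm0p.v a1 y = lm0pB.v a1 y := by
  simp only [lm0p, lm0pB, ecv1pB h1 h2, c0_ h2]
  all_goals (first | rfl | ring)
theorem erkbq2B {a1 y a3 : ℝ} (h1 : 577 / 500 < y) (h2 : 1 ≤ 3 / 4 * y ^ 2) : rkbq2.v a1 y a3 = rkbq2B.v a1 y a3 := by
  have hr0 : ¬ (y - ((577 : ℕ) : ℝ) / ((500 : ℕ) : ℝ) ≤ 0) := by
    push_cast
    linarith
  simp only [rkbq2, rkbq2_73, rkbq2_75, rkbq2B, rkbq2B_69, if_neg hr0, ecv1pB h1 h2, ecv2pB h1 h2, ecv3pB h1 h2, ecv4pB h1 h2, elm4pB h1 h2, ebf4q2B h1 h2, elm3pB h1 h2, ebf3q2B h1 h2, elm2pB h1 h2, ebf2q2B h1 h2, elm1pB h1 h2, ebf1q2B h1 h2, elm0pB h1 h2, c0_ h2]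
  all_goals (first | rfl | ring)
theorem ersbq2B {a1 y a3 : ℝ} (h1 : 577 / 500 < y) (h2 : 1 ≤ 3 / 4 * y ^ 2) : rsbq2.v a1 y a3 = rsbq2B.v a1 y a3 := by
  simp only [rsbq2, rsbq2B, erkbq2B h1 h2]
  all_goals (first | rfl | ring)
theorem ebx4q2B {y a2 : ℝ} (h1 : 577 / 500 < y) (h2 : 1 ≤ 3 / 4 * y ^ 2) : bx4q2.v y a2 = bx4q2B.v y a2 := by
  have ht : ((1 : ℕ) : ℝ) - ((3 : ℕ) : ℝ) / ((4 : ℕ) : ℝ) * y ^ 2 ≤ 0 := by
    push_cast
    linarith
  simp only [bx4q2, bx4q2_3, bx4q2B, bx4q2B_3, if_pos ht, c0_ h2]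
  all_goals (first | rfl | ring)
theorem ebx3q2B {y a2 : ℝ} (h1 : 577 / 500 < y) (h2 : 1 ≤ 3 / 4 * y ^ 2) : bx3q2.v y a2 = bx3q2B.v y a2 := by
  have ht : ((1 : ℕ) : ℝ) - ((3 : ℕ) : ℝ) / ((4 : ℕ) : ℝ) * y ^ 2 ≤ 0 := by
    push_cast
    linarith
  simp only [bx3q2, bx3q2_3, bx3q2B, bx3q2B_3, if_pos ht, c0_ h2]
  all_goals (first | rfl | ring)
theorem ebx2q2B {y a2 : ℝ} (h1 : 577 / 500 < y) (h2 : 1 ≤ 3 / 4 * y ^ 2) : bx2q2.v y a2 = bx2q2B.v y a2 := by
  have ht : ((1 : ℕ) : ℝ) - ((3 : ℕ) : ℝ) / ((4 : ℕ) : ℝ) * y ^ 2 ≤ 0 := by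
    push_cast
    linarith
  simp only [bx2q2, bx2q2_3, bx2q2B, bx2q2B_3, if_pos ht, c0_ h2]
  all_goals (first | rfl | ring)
theorem ebx1q2B {y a2 : ℝ} (h1 : 577 / 500 < y) (h2 : 1 ≤ 3 / 4 * y ^ 2) : bx1q2.v y a2 = bx1q2B.v y a2 := by
  have ht : ((1 : ℕ) : ℝ) - ((3 : ℕ) : ℝ) / ((4 : ℕ) : ℝ) * y ^ 2 ≤ 0 := by
    push_cast
    linarith
  simp only [bx1q2, bx1q2_3, bx1q2_10, bx1q2B, bx1q2B_3, if_pos ht, c0_ h2]
  all_goals (first | rfl | ring)
theorem erxq2B {a1 y a3 : ℝ} (h1 : 577 / 500 < y) (h2 : 1 ≤ 3 / 4 * y ^ 2) : rxq2.v a1 y a3 = rxq2B.v a1 y a3 := by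
  have hr0 : ¬ (y - ((577 : ℕ) : ℝ) / ((500 : ℕ) : ℝ) ≤ 0) := by
    push_cast
    linarith
  simp only [rxq2, rxq2_73, rxq2_75, rxq2B, rxq2B_69, if_neg hr0, ecv1pB h1 h2, ecv2pB h1 h2, ecv3pB h1 h2, ecv4pB h1 h2, elm4pB h1 h2, ebx4q2B h1 h2, elm3pB h1 h2, ebx3q2B h1 h2, elm2pB h1 h2, ebx2q2B h1 h2, elm1pB h1 h2, ebx1q2B h1 h2, elm0pB h1 h2, c0_ h2]
  all_goals (first | rfl | ring)
theorem erlq2B {a1 y a3 : ℝ} (h1 : 577 / 500 < y) (h2 : 1 ≤ 3 / 4 * y ^ 2) : rlq2.v a1 y a3 = rlq2B.v a1 y a3 := by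
  simp only [rlq2, rlq2B, erxq2B h1 h2]
  all_goals (first | rfl | ring)
theorem pA_ (x : ℝ) : ∀ X y, ww.ym.v < y → 3 / 4 * y ^ 2 < 1 →
    (pcB 2).K.v X y x = ww.AK.v X (c1n y) y x ∧ (pcB 2).L.v X y x = ww.AL.v X (c1n y) y x := by
  intro X y h1 h2
  have em : ww.ym.v = 577 / 500 := by
    show (Cn.rt 577 500).v = _
    rw [Cn.rt_v]
    norm_num
  rw [em] at h1
  rw [← c1g_v]
  exact ⟨ersbq2A h1 h2, erlq2A h1 h2⟩
theorem pB_ (x : ℝ) : ∀ X y, ww.ym.v < y → 1 ≤ 3 / 4 * y ^ 2 →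
    (pcB 2).K.v X y x = ww.B.K.v X y x ∧ (pcB 2).L.v X y x = ww.B.L.v X y x := by
  intro X y h1 h2
  have em : ww.ym.v = 577 / 500 := by
    show (Cn.rt 577 500).v = _
    rw [Cn.rt_v]
    norm_num
  rw [em] at h1
  exact ⟨ersbq2B h1 h2, erlq2B h1 h2⟩
theorem ok6 (x : ℝ) : tt.Ok6 ww 1 PP tK tL pcB x where
  hi := rfl
  c2n := by
    show 0 ≤ (Cn.rt 1 20).v
    rw [Cn.rt_v]
    norm_num
  c2h := by
    show (Cn.rt 1 20).v ≤ 1 / 2
    rw [Cn.rt_v]
    norm_num
  fr := fr_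
  b1 := b1_ x
  f2 := f2_
  a2 := a2_ x
  b2 := b2_ x
  pA := pA_ x
  pB := pB_ x
theorem zx {x : ℝ} (hx : ((587336777 : ℕ) : ℝ) / S ≤ x) (hx' : x ≤ (((587336777 : ℕ) : ℝ) + (62277027 : ℕ)) / S) : Zt0 tt.D tt.V kz x := z0 x
theorem okx6 {x : ℝ} (hx : ((587336777 : ℕ) : ℝ) / S ≤ x) (hx' : x ≤ (((587336777 : ℕ) : ℝ) + (62277027 : ℕ)) / S) : tt.Ok6 ww 1 PP tK tL pcB x := ok6 x
theorem okx {x : ℝ} (hx : ((587336777 : ℕ) : ℝ) / S ≤ x) (hx' : x ≤ (((587336777 : ℕ) : ℝ) + (62277027 : ℕ)) / S) : tt.Ok PP tK tL x := ok x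

end Pool.Agent.Strip051.G.I5470_6050.Tab.St
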