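import Pool.Agent.Strip051.G.I5470_6050.St19
import Pool.Agent.Strip051.G.I5470_6050.St20
import Pool.Agent.Strip051.G.I5470_6050.StH
import Pool.Agent.Strip051.G.I5470_6050.StF

/-! # Unit strips 21 (generated) -/

set_option linter.all false
set_option maxRecDepth 100000

namespace Pool.Agent.Strip051.G.I5470_6050.Tab.St.C

open Pool.Agent.Strip051.PB Pool.Agent.Strip051.PB.T Pool.Agent.StripNear Pool.Agent.Strip051.LC
open Pool.Agent.Strip051.G.I5470_6050.Tab Pool.Agent.Strip051.G.I5470_6050.Tab.St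

theorem t135_A00pm_112_s1 : ∃ t, chk3 f_A00pm_112_s1 t 4 21 1 = true := ex3_a k129_A00pm_112_s1 k130_A00pm_112_s1

theorem t136_A00pm_112_s1 : ∃ t, chk3 f_A00pm_112_s1 t 2 21 1 = true := ex3_a t135_A00pm_112_s1 k131_A00pm_112_s1

theorem t137_A00pm_112_s1 : ∃ t, chk3 f_A00pm_112_s1 t 20 1341 1 = true := ex3_b k124_A00pm_112_s1 k125_A00pm_112_s1

theorem t138_A00pm_112_s1 : ∃ t, chk3 f_A00pm_112_s1 t 10 1341 1 = true := ex3_a t137_A00pm_112_s1 k126_A00pm_112_s1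

theorem t139_A00pm_112_s1 : ∃ t, chk3 f_A00pm_112_s1 t 81 21453 1 = true := ex3_c k119_A00pm_112_s1 k120_A00pm_112_s1

theorem t140_A00pm_112_s1 : ∃ t, chk3 f_A00pm_112_s1 t 40 21453 1 = true := ex3_a k118_A00pm_112_s1 t139_A00pm_112_s1

theorem t141_A00pm_112_s1 : ∃ t, chk3 f_A00pm_112_s1 t 20 21453 1 = true := ex3_a t140_A00pm_112_s1 k121_A00pm_112_s1

theorem t142_A00pm_112_s1 : ∃ t, chk3 f_A00pm_112_s1 t 10 21453 1 = true := ex3_a t141_A00pm_112_s1 k122_A00pm_112_s1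

theorem t143_A00pm_112_s1 : ∃ t, chk3 f_A00pm_112_s1 t 10 10726 1 = true := ex3_b k117_A00pm_112_s1 t142_A00pm_112_s1

theorem t144_A00pm_112_s1 : ∃ t, chk3 f_A00pm_112_s1 t 10 5363 1 = true := ex3_b t143_A00pm_112_s1 k123_A00pm_112_s1

theorem t145_A00pm_112_s1 : ∃ t, chk3 f_A00pm_112_s1 t 20 5362 1 = true := ex3_c k114_A00pm_112_s1 k115_A00pm_112_s1

theorem t146_A00pm_112_s1 : ∃ t, chk3 f_A00pm_112_s1 t 10 5362 1 = true := ex3_a t145_A00pm_112_s1 k116_A00pm_112_s1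

theorem t147_A00pm_112_s1 : ∃ t, chk3 f_A00pm_112_s1 t 10 2681 1 = true := ex3_b t146_A00pm_112_s1 t144_A00pm_112_s1

theorem t148_A00pm_112_s1 : ∃ t, chk3 f_A00pm_112_s1 t 10 2680 1 = true := ex3_c k112_A00pm_112_s1 k113_A00pm_112_s1

theorem t149_A00pm_112_s1 : ∃ t, chk3 f_A00pm_112_s1 t 10 1340 1 = true := ex3_b t148_A00pm_112_s1 t147_A00pm_112_s1

theorem t150_A00pm_112_s1 : ∃ t, chk3 f_A00pm_112_s1 t 10 670 1 = true := ex3_b t149_A00pm_112_s1 t138_A00pm_112_s1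

theorem t151_A00pm_112_s1 : ∃ t, chk3 f_A00pm_112_s1 t 10 335 1 = true := ex3_b t150_A00pm_112_s1 k127_A00pm_112_s1

theorem t152_A00pm_112_s1 : ∃ t, chk3 f_A00pm_112_s1 t 83 669 3 = true := ex3_b k109_A00pm_112_s1 k110_A00pm_112_s1

theorem t153_A00pm_112_s1 : ∃ t, chk3 f_A00pm_112_s1 t 83 334 3 = true := ex3_b k108_A00pm_112_s1 t152_A00pm_112_s1

theorem t154_A00pm_112_s1 : ∃ t, chk3 f_A00pm_112_s1 t 165 1339 3 = true := ex3_b k106_A00pm_112_s1 k107_A00pm_112_s1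

theorem t155_A00pm_112_s1 : ∃ t, chk3 f_A00pm_112_s1 t 165 669 3 = true := ex3_b k105_A00pm_112_s1 t154_A00pm_112_s1

theorem t156_A00pm_112_s1 : ∃ t, chk3 f_A00pm_112_s1 t 82 669 3 = true := ex3_a k104_A00pm_112_s1 t155_A00pm_112_s1

theorem t157_A00pm_112_s1 : ∃ t, chk3 f_A00pm_112_s1 t 82 334 3 = true := ex3_b k103_A00pm_112_s1 t156_A00pm_112_s1

theorem t158_A00pm_112_s1 : ∃ t, chk3 f_A00pm_112_s1 t 41 334 3 = true := ex3_a t157_A00pm_112_s1 t153_A00pm_112_s1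

theorem t159_A00pm_112_s1 : ∃ t, chk3 f_A00pm_112_s1 t 83 669 2 = true := ex3_b k101_A00pm_112_s1 k102_A00pm_112_s1

theorem t160_A00pm_112_s1 : ∃ t, chk3 f_A00pm_112_s1 t 83 334 2 = true := ex3_b k100_A00pm_112_s1 t159_A00pm_112_s1

theorem t161_A00pm_112_s1 : ∃ t, chk3 f_A00pm_112_s1 t 165 669 2 = true := ex3_c k98_A00pm_112_s1 k99_A00pm_112_s1

theorem t162_A00pm_112_s1 : ∃ t, chk3 f_A00pm_112_s1 t 82 669 2 = true := ex3_a k97_A00pm_112_s1 t161_A00pm_112_s1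

theorem t163_A00pm_112_s1 : ∃ t, chk3 f_A00pm_112_s1 t 82 334 2 = true := ex3_b k96_A00pm_112_s1 t162_A00pm_112_s1

theorem t164_A00pm_112_s1 : ∃ t, chk3 f_A00pm_112_s1 t 41 334 2 = true := ex3_a t163_A00pm_112_s1 t160_A00pm_112_s1

theorem t165_A00pm_112_s1 : ∃ t, chk3 f_A00pm_112_s1 t 41 334 1 = true := ex3_c t164_A00pm_112_s1 t158_A00pm_112_s1

theorem t166_A00pm_112_s1 : ∃ t, chk3 f_A00pm_112_s1 t 40 669 1 = true := ex3_a k94_A00pm_112_s1 k95_A00pm_112_s1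

theorem t167_A00pm_112_s1 : ∃ t, chk3 f_A00pm_112_s1 t 40 334 1 = true := ex3_b k93_A00pm_112_s1 t166_A00pm_112_s1

theorem t168_A00pm_112_s1 : ∃ t, chk3 f_A00pm_112_s1 t 20 334 1 = true := ex3_a t167_A00pm_112_s1 t165_A00pm_112_s1

theorem t169_A00pm_112_s1 : ∃ t, chk3 f_A00pm_112_s1 t 10 334 1 = true := ex3_a t168_A00pm_112_s1 k111_A00pm_112_s1

theorem t170_A00pm_112_s1 : ∃ t, chk3 f_A00pm_112_s1 t 10 167 1 = true := ex3_b t169_A00pm_112_s1 t151_A00pm_112_s1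

theorem t171_A00pm_112_s1 : ∃ t, chk3 f_A00pm_112_s1 t 5 167 1 = true := ex3_a t170_A00pm_112_s1 k128_A00pm_112_s1

theorem t172_A00pm_112_s1 : ∃ t, chk3 f_A00pm_112_s1 t 165 5340 1 = true := ex3_a k86_A00pm_112_s1 k87_A00pm_112_s1

theorem t173_A00pm_112_s1 : ∃ t, chk3 f_A00pm_112_s1 t 165 2670 1 = true := ex3_b t172_A00pm_112_s1 k88_A00pm_112_s1

theorem t174_A00pm_112_s1 : ∃ t, chk3 f_A00pm_112_s1 t 82 2670 1 = true := ex3_a k85_A00pm_112_s1 t173_A00pm_112_s1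

theorem t175_A00pm_112_s1 : ∃ t, chk3 f_A00pm_112_s1 t 82 1335 1 = true := ex3_b t174_A00pm_112_s1 k89_A00pm_112_s1

theorem t176_A00pm_112_s1 : ∃ t, chk3 f_A00pm_112_s1 t 41 1335 1 = true := ex3_a t175_A00pm_112_s1 k90_A00pm_112_s1

theorem t177_A00pm_112_s1 : ∃ t, chk3 f_A00pm_112_s1 t 41 1334 1 = true := ex3_a k83_A00pm_112_s1 k84_A00pm_112_s1

theorem t178_A00pm_112_s1 : ∃ t, chk3 f_A00pm_112_s1 t 41 667 1 = true := ex3_b t177_A00pm_112_s1 t176_A00pm_112_s1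

theorem t179_A00pm_112_s1 : ∃ t, chk3 f_A00pm_112_s1 t 20 667 1 = true := ex3_a k82_A00pm_112_s1 t178_A00pm_112_s1

theorem t180_A00pm_112_s1 : ∃ t, chk3 f_A00pm_112_s1 t 10 667 1 = true := ex3_a t179_A00pm_112_s1 k91_A00pm_112_s1

theorem t181_A00pm_112_s1 : ∃ t, chk3 f_A00pm_112_s1 t 10 333 1 = true := ex3_b k81_A00pm_112_s1 t180_A00pm_112_s1

theorem t182_A00pm_112_s1 : ∃ t, chk3 f_A00pm_112_s1 t 10 166 1 = true := ex3_b k80_A00pm_112_s1 t181_A00pm_112_s1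

theorem t183_A00pm_112_s1 : ∃ t, chk3 f_A00pm_112_s1 t 5 166 1 = true := ex3_a t182_A00pm_112_s1 k92_A00pm_112_s1

theorem t184_A00pm_112_s1 : ∃ t, chk3 f_A00pm_112_s1 t 5 83 1 = true := ex3_b t183_A00pm_112_s1 t171_A00pm_112_s1

theorem t185_A00pm_112_s1 : ∃ t, chk3 f_A00pm_112_s1 t 4 10731 1 = true := ex3_b k76_A00pm_112_s1 k77_A00pm_112_s1

theorem t186_A00pm_112_s1 : ∃ t, chk3 f_A00pm_112_s1 t 4 5365 1 = true := ex3_b k75_A00pm_112_s1 t185_A00pm_112_s1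

theorem t187_A00pm_112_s1 : ∃ t, chk3 f_A00pm_112_s1 t 4 2682 1 = true := ex3_b k74_A00pm_112_s1 t186_A00pm_112_s1

theorem t188_A00pm_112_s1 : ∃ t, chk3 f_A00pm_112_s1 t 4 1341 1 = true := ex3_b t187_A00pm_112_s1 k78_A00pm_112_s1

theorem t189_A00pm_112_s1 : ∃ t, chk3 f_A00pm_112_s1 t 18 21453 1 = true := ex3_a k70_A00pm_112_s1 k71_A00pm_112_s1

theorem t190_A00pm_112_s1 : ∃ t, chk3 f_A00pm_112_s1 t 9 21453 1 = true := ex3_a t189_A00pm_112_s1 k72_A00pm_112_s1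

theorem t191_A00pm_112_s1 : ∃ t, chk3 f_A00pm_112_s1 t 66 21453 1 = true := ex3_c k66_A00pm_112_s1 k67_A00pm_112_s1

theorem t192_A00pm_112_s1 : ∃ t, chk3 f_A00pm_112_s1 t 33 21453 1 = true := ex3_a t191_A00pm_112_s1 k68_A00pm_112_s1

theorem t193_A00pm_112_s1 : ∃ t, chk3 f_A00pm_112_s1 t 32 21453 1 = true := ex3_a k64_A00pm_112_s1 k65_A00pm_112_s1

theorem t194_A00pm_112_s1 : ∃ t, chk3 f_A00pm_112_s1 t 16 21453 1 = true := ex3_a t193_A00pm_112_s1 t192_A00pm_112_s1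

theorem t195_A00pm_112_s1 : ∃ t, chk3 f_A00pm_112_s1 t 8 21453 1 = true := ex3_a t194_A00pm_112_s1 k69_A00pm_112_s1

theorem t196_A00pm_112_s1 : ∃ t, chk3 f_A00pm_112_s1 t 4 21453 1 = true := ex3_a t195_A00pm_112_s1 t190_A00pm_112_s1

theorem t197_A00pm_112_s1 : ∃ t, chk3 f_A00pm_112_s1 t 4 21452 1 = true := ex3_a k62_A00pm_112_s1 k63_A00pm_112_s1

theorem t198_A00pm_112_s1 : ∃ t, chk3 f_A00pm_112_s1 t 4 10726 1 = true := ex3_b t197_A00pm_112_s1 t196_A00pm_112_s1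

theorem t199_A00pm_112_s1 : ∃ t, chk3 f_A00pm_112_s1 t 4 5363 1 = true := ex3_b t198_A00pm_112_s1 k73_A00pm_112_s1

theorem t200_A00pm_112_s1 : ∃ t, chk3 f_A00pm_112_s1 t 9 5362 1 = true := ex3_a k60_A00pm_112_s1 k61_A00pm_112_s1

theorem t201_A00pm_112_s1 : ∃ t, chk3 f_A00pm_112_s1 t 135 5362 7 = true := ex3_a k57_A00pm_112_s1 k58_A00pm_112_s1

theorem t202_A00pm_112_s1 : ∃ t, chk3 f_A00pm_112_s1 t 542 5362 6 = true := ex3_c k54_A00pm_112_s1 k55_A00pm_112_s1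

theorem t203_A00pm_112_s1 : ∃ t, chk3 f_A00pm_112_s1 t 271 5362 6 = true := ex3_a t202_A00pm_112_s1 k56_A00pm_112_s1

theorem t204_A00pm_112_s1 : ∃ t, chk3 f_A00pm_112_s1 t 135 5362 6 = true := ex3_a k53_A00pm_112_s1 t203_A00pm_112_s1

theorem t205_A00pm_112_s1 : ∃ t, chk3 f_A00pm_112_s1 t 135 5362 3 = true := ex3_c t204_A00pm_112_s1 t201_A00pm_112_s1

theorem t206_A00pm_112_s1 : ∃ t, chk3 f_A00pm_112_s1 t 67 5362 3 = true := ex3_a k52_A00pm_112_s1 t205_A00pm_112_s1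

theorem t207_A00pm_112_s1 : ∃ t, chk3 f_A00pm_112_s1 t 33 5362 3 = true := ex3_a k51_A00pm_112_s1 t206_A00pm_112_s1

theorem t208_A00pm_112_s1 : ∃ t, chk3 f_A00pm_112_s1 t 16 5362 3 = true := ex3_a k50_A00pm_112_s1 t207_A00pm_112_s1

theorem t209_A00pm_112_s1 : ∃ t, chk3 f_A00pm_112_s1 t 542 5362 5 = true := ex3_c k47_A00pm_112_s1 k48_A00pm_112_s1

theorem t210_A00pm_112_s1 : ∃ t, chk3 f_A00pm_112_s1 t 271 5362 5 = true := ex3_a t209_A00pm_112_s1 k49_A00pm_112_s1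

theorem t211_A00pm_112_s1 : ∃ t, chk3 f_A00pm_112_s1 t 542 5362 4 = true := ex3_c k44_A00pm_112_s1 k45_A00pm_112_s1

theorem t212_A00pm_112_s1 : ∃ t, chk3 f_A00pm_112_s1 t 271 5362 4 = true := ex3_a t211_A00pm_112_s1 k46_A00pm_112_s1

theorem t213_A00pm_112_s1 : ∃ t, chk3 f_A00pm_112_s1 t 271 5362 2 = true := ex3_c t212_A00pm_112_s1 t210_A00pm_112_s1

theorem t214_A00pm_112_s1 : ∃ t, chk3 f_A00pm_112_s1 t 135 5362 2 = true := ex3_a k43_A00pm_112_s1 t213_A00pm_112_s1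

theorem t215_A00pm_112_s1 : ∃ t, chk3 f_A00pm_112_s1 t 67 5362 2 = true := ex3_a k42_A00pm_112_s1 t214_A00pm_112_s1

theorem t216_A00pm_112_s1 : ∃ t, chk3 f_A00pm_112_s1 t 33 5362 2 = true := ex3_a k41_A00pm_112_s1 t215_A00pm_112_s1

theorem t217_A00pm_112_s1 : ∃ t, chk3 f_A00pm_112_s1 t 16 5362 2 = true := ex3_a k40_A00pm_112_s1 t216_A00pm_112_s1

theorem t218_A00pm_112_s1 : ∃ t, chk3 f_A00pm_112_s1 t 16 5362 1 = true := ex3_c t217_A00pm_112_s1 t208_A00pm_112_s1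

theorem t219_A00pm_112_s1 : ∃ t, chk3 f_A00pm_112_s1 t 8 5362 1 = true := ex3_a t218_A00pm_112_s1 k59_A00pm_112_s1

theorem t220_A00pm_112_s1 : ∃ t, chk3 f_A00pm_112_s1 t 4 5362 1 = true := ex3_a t219_A00pm_112_s1 t200_A00pm_112_s1

theorem t221_A00pm_112_s1 : ∃ t, chk3 f_A00pm_112_s1 t 4 2681 1 = true := ex3_b t220_A00pm_112_s1 t199_A00pm_112_s1

theorem t222_A00pm_112_s1 : ∃ t, chk3 f_A00pm_112_s1 t 16 2680 1 = true := ex3_a k36_A00pm_112_s1 k37_A00pm_112_s1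

theorem t223_A00pm_112_s1 : ∃ t, chk3 f_A00pm_112_s1 t 8 2680 1 = true := ex3_a t222_A00pm_112_s1 k38_A00pm_112_s1

theorem t224_A00pm_112_s1 : ∃ t, chk3 f_A00pm_112_s1 t 4 2680 1 = true := ex3_a t223_A00pm_112_s1 k39_A00pm_112_s1

theorem t225_A00pm_112_s1 : ∃ t, chk3 f_A00pm_112_s1 t 4 1340 1 = true := ex3_b t224_A00pm_112_s1 t221_A00pm_112_s1

theorem t226_A00pm_112_s1 : ∃ t, chk3 f_A00pm_112_s1 t 4 670 1 = true := ex3_b t225_A00pm_112_s1 t188_A00pm_112_s1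

theorem t227_A00pm_112_s1 : ∃ t, chk3 f_A00pm_112_s1 t 4 335 1 = true := ex3_b t226_A00pm_112_s1 k79_A00pm_112_s1

theorem t228_A00pm_112_s1 : ∃ t, chk3 f_A00pm_112_s1 t 32 2678 3 = true := ex3_a k30_A00pm_112_s1 k31_A00pm_112_s1

theorem t229_A00pm_112_s1 : ∃ t, chk3 f_A00pm_112_s1 t 32 1339 3 = true := ex3_b t228_A00pm_112_s1 k32_A00pm_112_s1

theorem t230_A00pm_112_s1 : ∃ t, chk3 f_A00pm_112_s1 t 16 1339 3 = true := ex3_a t229_A00pm_112_s1 k33_A00pm_112_s1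

theorem t231_A00pm_112_s1 : ∃ t, chk3 f_A00pm_112_s1 t 8 1339 3 = true := ex3_a t230_A00pm_112_s1 k34_A00pm_112_s1

theorem t232_A00pm_112_s1 : ∃ t, chk3 f_A00pm_112_s1 t 16 1338 3 = true := ex3_a k27_A00pm_112_s1 k28_A00pm_112_s1

theorem t233_A00pm_112_s1 : ∃ t, chk3 f_A00pm_112_s1 t 8 1338 3 = true := ex3_a t232_A00pm_112_s1 k29_A00pm_112_s1

theorem t234_A00pm_112_s1 : ∃ t, chk3 f_A00pm_112_s1 t 8 669 3 = true := ex3_b t233_A00pm_112_s1 t231_A00pm_112_s1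

theorem t235_A00pm_112_s1 : ∃ t, chk3 f_A00pm_112_s1 t 8 334 3 = true := ex3_b k26_A00pm_112_s1 t234_A00pm_112_s1

theorem t236_A00pm_112_s1 : ∃ t, chk3 f_A00pm_112_s1 t 64 1339 2 = true := ex3_b k21_A00pm_112_s1 k22_A00pm_112_s1

theorem t237_A00pm_112_s1 : ∃ t, chk3 f_A00pm_112_s1 t 32 1339 2 = true := ex3_a t236_A00pm_112_s1 k23_A00pm_112_s1

theorem t238_A00pm_112_s1 : ∃ t, chk3 f_A00pm_112_s1 t 16 1339 2 = true := ex3_a t237_A00pm_112_s1 k24_A00pm_112_s1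

theorem t239_A00pm_112_s1 : ∃ t, chk3 f_A00pm_112_s1 t 8 1339 2 = true := ex3_a t238_A00pm_112_s1 k25_A00pm_112_s1

theorem t240_A00pm_112_s1 : ∃ t, chk3 f_A00pm_112_s1 t 16 1338 2 = true := ex3_a k18_A00pm_112_s1 k19_A00pm_112_s1

theorem t241_A00pm_112_s1 : ∃ t, chk3 f_A00pm_112_s1 t 8 1338 2 = true := ex3_a t240_A00pm_112_s1 k20_A00pm_112_s1

theorem t242_A00pm_112_s1 : ∃ t, chk3 f_A00pm_112_s1 t 8 669 2 = true := ex3_b t241_A00pm_112_s1 t239_A00pm_112_s1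

theorem t243_A00pm_112_s1 : ∃ t, chk3 f_A00pm_112_s1 t 8 334 2 = true := ex3_b k17_A00pm_112_s1 t242_A00pm_112_s1

theorem t244_A00pm_112_s1 : ∃ t, chk3 f_A00pm_112_s1 t 8 334 1 = true := ex3_c t243_A00pm_112_s1 t235_A00pm_112_s1

theorem t245_A00pm_112_s1 : ∃ t, chk3 f_A00pm_112_s1 t 4 334 1 = true := ex3_a t244_A00pm_112_s1 k35_A00pm_112_s1

theorem t246_A00pm_112_s1 : ∃ t, chk3 f_A00pm_112_s1 t 4 167 1 = true := ex3_b t245_A00pm_112_s1 t227_A00pm_112_s1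

theorem t247_A00pm_112_s1 : ∃ t, chk3 f_A00pm_112_s1 t 4 667 7 = true := ex3_c k15_A00pm_112_s1 k16_A00pm_112_s1

theorem t248_A00pm_112_s1 : ∃ t, chk3 f_A00pm_112_s1 t 4 333 7 = true := ex3_b k14_A00pm_112_s1 t247_A00pm_112_s1

theorem t249_A00pm_112_s1 : ∃ t, chk3 f_A00pm_112_s1 t 4 667 6 = true := ex3_c k12_A00pm_112_s1 k13_A00pm_112_s1

theorem t250_A00pm_112_s1 : ∃ t, chk3 f_A00pm_112_s1 t 4 333 6 = true := ex3_b k11_A00pm_112_s1 t249_A00pm_112_s1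

theorem t251_A00pm_112_s1 : ∃ t, chk3 f_A00pm_112_s1 t 4 333 3 = true := ex3_c t250_A00pm_112_s1 t248_A00pm_112_s1

theorem t252_A00pm_112_s1 : ∃ t, chk3 f_A00pm_112_s1 t 4 166 3 = true := ex3_b k10_A00pm_112_s1 t251_A00pm_112_s1

theorem t253_A00pm_112_s1 : ∃ t, chk3 f_A00pm_112_s1 t 4 667 5 = true := ex3_c k8_A00pm_112_s1 k9_A00pm_112_s1

theorem t254_A00pm_112_s1 : ∃ t, chk3 f_A00pm_112_s1 t 4 333 5 = true := ex3_b k7_A00pm_112_s1 t253_A00pm_112_s1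

theorem t255_A00pm_112_s1 : ∃ t, chk3 f_A00pm_112_s1 t 4 667 4 = true := ex3_c k5_A00pm_112_s1 k6_A00pm_112_s1

theorem t256_A00pm_112_s1 : ∃ t, chk3 f_A00pm_112_s1 t 4 333 4 = true := ex3_b k4_A00pm_112_s1 t255_A00pm_112_s1

theorem t257_A00pm_112_s1 : ∃ t, chk3 f_A00pm_112_s1 t 4 333 2 = true := ex3_c t256_A00pm_112_s1 t254_A00pm_112_s1

theorem t258_A00pm_112_s1 : ∃ t, chk3 f_A00pm_112_s1 t 4 166 2 = true := ex3_b k3_A00pm_112_s1 t257_A00pm_112_s1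

theorem t259_A00pm_112_s1 : ∃ t, chk3 f_A00pm_112_s1 t 4 166 1 = true := ex3_c t258_A00pm_112_s1 t252_A00pm_112_s1

theorem t260_A00pm_112_s1 : ∃ t, chk3 f_A00pm_112_s1 t 4 83 1 = true := ex3_b t259_A00pm_112_s1 t246_A00pm_112_s1

theorem t261_A00pm_112_s1 : ∃ t, chk3 f_A00pm_112_s1 t 2 83 1 = true := ex3_a t260_A00pm_112_s1 t184_A00pm_112_s1

theorem t262_A00pm_112_s1 : ∃ t, chk3 f_A00pm_112_s1 t 2 41 1 = true := ex3_b k2_A00pm_112_s1 t261_A00pm_112_s1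

theorem t263_A00pm_112_s1 : ∃ t, chk3 f_A00pm_112_s1 t 2 20 1 = true := ex3_b k1_A00pm_112_s1 t262_A00pm_112_s1

theorem t264_A00pm_112_s1 : ∃ t, chk3 f_A00pm_112_s1 t 2 10 1 = true := ex3_b t263_A00pm_112_s1 t136_A00pm_112_s1

theorem t265_A00pm_112_s1 : ∃ t, chk3 f_A00pm_112_s1 t 2 5 1 = true := ex3_b t264_A00pm_112_s1 k132_A00pm_112_s1

theorem t266_A00pm_112_s1 : ∃ t, chk3 f_A00pm_112_s1 t 2 2 1 = true := ex3_b k0_A00pm_112_s1 t265_A00pm_112_s1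

theorem t267_A00pm_112_s1 : ∃ t, chk3 f_A00pm_112_s1 t 2 1 1 = true := ex3_b t266_A00pm_112_s1 k133_A00pm_112_s1

theorem t268_A00pm_112_s1 : ∃ t, chk3 f_A00pm_112_s1 t 1 1 1 = true := ex3_a t267_A00pm_112_s1 k134_A00pm_112_s1

theorem c_A00pm_112_s1 : CertF 536870912 536870912 536870912 536870912 587336777 62277027 true true false .dn 1 1 2
    ndB0q1 ndB0q1 pcB2 cut_A00pm_112_s1 xt_A00pm_112_s1 :=
  certF1 (fam := true) (s1 := true) (s2 := false) (a := 1) (b := 1) (c := 2) (cn := .dn) (n1 := ndB0q1) (n2 := ndB0q1) (pc := pcB2) (cut := cut_A00pm_112_s1) (xt := xt_A00pm_112_s1) (P1 := 536870912) (W1 := 536870912) (P2 := 536870912) (W2 := 536870912) (P3 := 587336777) (W3 := 62277027)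
    rfl (fun _ => rfl) t268_A00pm_112_s1

theorem s_A00pm_112_s1 {κ x : ℝ} (hκ : κ * h0 = ken x) (hx : ((587336777 : ℕ) : ℝ) / S ≤ x)
    (hx' : x ≤ (((587336777 : ℕ) : ℝ) + (62277027 : ℕ)) / S) :
    AltA (VFD κ) PP tK tL pcB [⟨3, 0, 0, 1449551462⟩] 1 1 2 0 0 (sgb true) (sgb false) x :=
  strip_altAD (m := 1449551462) true rfl hκ (SH.κ0 hκ (SH.hx1 hx).le (SH.hx2 hx').le) (SH.hx1 hx).le (SH.hx2 hx') (covB01).cov (covB01).cov hx hx' c_A00pm_112_s1 cutA_nil ((okx6 hx hx').ext0A (T := tt) (zx hx hx') (okx hx hx') (sideB hx hx') hκ rfl rfl (.O 1 true) (.O 1 false) rfl)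

end Pool.Agent.Strip051.G.I5470_6050.Tab.St.C
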