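import Pool.Agent.Strip051.G.I5470_6050.StH
import Pool.Agent.Strip051.G.I5470_6050.StF

/-! # Unit strips 22 (generated) -/

set_option linter.all false
set_option maxRecDepth 100000

namespace Pool.Agent.Strip051.G.I5470_6050.Tab.St.C

open Pool.Agent.Strip051.PB Pool.Agent.Strip051.PB.T Pool.Agent.StripNear Pool.Agent.Strip051.LC
open Pool.Agent.Strip051.G.I5470_6050.Tab Pool.Agent.Strip051.G.I5470_6050.Tab.St

noncomputable def cut_A00pp_001_s1 : Cut := Cut.of [[⟨4, 0, 0, 1449551462⟩]]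

noncomputable def f_A00pp_001_s1 : ℕ → ℕ → ℕ → ℕ → Bool := onCell 0 536870912 0 536870912 587336777 62277027
    (rowF 0 true true true .up 0 0 1 (qsf 0 536870912 0 536870912 1) ndB0q0 ndB0q0 pcB1 cut_A00pp_001_s1 Ext.none)

def k0_A00pp_001_s1 : ∃ t, chk3 f_A00pp_001_s1 t 1 1 1 = true :=
  ⟨(l 4), by decide +kernel⟩

theorem c_A00pp_001_s1 : CertF 0 536870912 0 536870912 587336777 62277027 true true true .up 0 0 1
    ndB0q0 ndB0q0 pcB1 cut_A00pp_001_s1 Ext.none :=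
  certF0 (fam := true) (s1 := true) (s2 := true) (a := 0) (b := 0) (c := 1) (cn := .up) (n1 := ndB0q0) (n2 := ndB0q0) (pc := pcB1) (cut := cut_A00pp_001_s1) (xt := Ext.none) (P1 := 0) (W1 := 536870912) (P2 := 0) (W2 := 536870912) (P3 := 587336777) (W3 := 62277027)
    rfl k0_A00pp_001_s1

theorem s_A00pp_001_s1 {κ x : ℝ} (hκ : κ * h0 = ken x) (hx : ((587336777 : ℕ) : ℝ) / S ≤ x)
    (hx' : x ≤ (((587336777 : ℕ) : ℝ) + (62277027 : ℕ)) / S) :
    AltA (VFD κ) PP tK tL pcB [⟨3, 0, 0, 1449551462⟩] 0 0 1 0 0 (sgb true) (sgb true) x :=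
  strip_altAD (m := 1449551462) true rfl hκ (SH.κ0 hκ (SH.hx1 hx).le (SH.hx2 hx').le) (SH.hx1 hx).le (SH.hx2 hx') (covB00).cov (covB00).cov hx hx' c_A00pp_001_s1 cutA_nil (noExt_A)

noncomputable def cut_A00pp_001_s3 : Cut := Cut.of [[⟨3, 0, 0, 2845415833⟩]]

noncomputable def f_A00pp_001_s3 : ℕ → ℕ → ℕ → ℕ → Bool := onCell 0 536870912 0 536870912 587336777 62277027
    (rowF 0 true true true .up 0 0 1 (qsf 0 536870912 0 536870912 1) ndB0q0 ndB0q0 pcB1 cut_A00pp_001_s3 Ext.none)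

def k0_A00pp_001_s3 : ∃ t, chk3 f_A00pp_001_s3 t 1 1 1 = true :=
  ⟨(l 4), by decide +kernel⟩

theorem c_A00pp_001_s3 : CertF 0 536870912 0 536870912 587336777 62277027 true true true .up 0 0 1
    ndB0q0 ndB0q0 pcB1 cut_A00pp_001_s3 Ext.none :=
  certF0 (fam := true) (s1 := true) (s2 := true) (a := 0) (b := 0) (c := 1) (cn := .up) (n1 := ndB0q0) (n2 := ndB0q0) (pc := pcB1) (cut := cut_A00pp_001_s3) (xt := Ext.none) (P1 := 0) (W1 := 536870912) (P2 := 0) (W2 := 536870912) (P3 := 587336777) (W3 := 62277027)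
    rfl k0_A00pp_001_s3

theorem s_A00pp_001_s3 {κ x : ℝ} (hκ : κ * h0 = ken x) (hx : ((587336777 : ℕ) : ℝ) / S ≤ x)
    (hx' : x ≤ (((587336777 : ℕ) : ℝ) + (62277027 : ℕ)) / S) :
    AltA (VFD κ) PP tK tL pcB [⟨4, 0, 0, 2845415833⟩] 0 0 1 0 0 (sgb true) (sgb true) x :=
  strip_altAD (m := 2845415833) false rfl hκ (SH.κ0 hκ (SH.hx1 hx).le (SH.hx2 hx').le) (SH.hx1 hx).le (SH.hx2 hx') (covB00).cov (covB00).cov hx hx' c_A00pp_001_s3 cutA_nil (noExt_A)

noncomputable def cut_A00pp_011_s1 : Cut := Cut.of [[⟨4, 0, 0, 1449551462⟩], [⟨0, 0, 0, 67108864⟩, ⟨1, 1, 0, 67108864⟩, ⟨2, 1, 0, 67108864⟩]]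

noncomputable def f_A00pp_011_s1 : ℕ → ℕ → ℕ → ℕ → Bool := onCell 0 536870912 536870912 536870912 587336777 62277027
    (rowF 0 true true true .pnn 0 1 1 (qsf 0 536870912 536870912 536870912 1) ndB0q0 ndB0q1 pcB1 cut_A00pp_011_s1 Ext.none)

def k0_A00pp_011_s1 : ∃ t, chk3 f_A00pp_011_s1 t 1 1 1 = true :=
  ⟨(l 6), by decide +kernel⟩

theorem c_A00pp_011_s1 : CertF 0 536870912 536870912 536870912 587336777 62277027 true true true .pnn 0 1 1
    ndB0q0 ndB0q1 pcB1 cut_A00pp_011_s1 Ext.none :=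
  certF0 (fam := true) (s1 := true) (s2 := true) (a := 0) (b := 1) (c := 1) (cn := .pnn) (n1 := ndB0q0) (n2 := ndB0q1) (pc := pcB1) (cut := cut_A00pp_011_s1) (xt := Ext.none) (P1 := 0) (W1 := 536870912) (P2 := 536870912) (W2 := 536870912) (P3 := 587336777) (W3 := 62277027)
    rfl k0_A00pp_011_s1

theorem s_A00pp_011_s1 {κ x : ℝ} (hκ : κ * h0 = ken x) (hx : ((587336777 : ℕ) : ℝ) / S ≤ x)
    (hx' : x ≤ (((587336777 : ℕ) : ℝ) + (62277027 : ℕ)) / S)
    (H : CutA (VFD κ) PP tK tL pcB (Cut.of [[⟨0, 0, 0, 67108864⟩, ⟨1, 1, 0, 67108864⟩, ⟨2, 1, 0, 67108864⟩]]) 0 1 1 0 0 (sgb true) (sgb true) x) :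
    AltA (VFD κ) PP tK tL pcB [⟨3, 0, 0, 1449551462⟩] 0 1 1 0 0 (sgb true) (sgb true) x :=
  strip_altAD (m := 1449551462) true rfl hκ (SH.κ0 hκ (SH.hx1 hx).le (SH.hx2 hx').le) (SH.hx1 hx).le (SH.hx2 hx') (covB00).cov (covB01).cov hx hx' c_A00pp_011_s1 H (noExt_A)

noncomputable def cut_A00pp_011_s3 : Cut := Cut.of [[⟨3, 0, 0, 2845415833⟩], [⟨0, 0, 0, 67108864⟩, ⟨1, 1, 0, 67108864⟩, ⟨2, 1, 0, 67108864⟩]]

noncomputable def f_A00pp_011_s3 : ℕ → ℕ → ℕ → ℕ → Bool := onCell 0 536870912 536870912 536870912 587336777 62277027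
    (rowF 0 true true true .pnn 0 1 1 (qsf 0 536870912 536870912 536870912 1) ndB0q0 ndB0q1 pcB1 cut_A00pp_011_s3 Ext.none)

def k0_A00pp_011_s3 : ∃ t, chk3 f_A00pp_011_s3 t 1 1 1 = true :=
  ⟨(b (l 4) (a (b (l 4) (a (b (l 4) (a (b (l 4) (a (l 14) (l 4))) (l 4))) (l 4))) (l 4))), by decide +kernel⟩

theorem c_A00pp_011_s3 : CertF 0 536870912 536870912 536870912 587336777 62277027 true true true .pnn 0 1 1
    ndB0q0 ndB0q1 pcB1 cut_A00pp_011_s3 Ext.none :=
  certF0 (fam := true) (s1 := true) (s2 := true) (a := 0) (b := 1) (c := 1) (cn := .pnn) (n1 := ndB0q0) (n2 := ndB0q1) (pc := pcB1) (cut := cut_A00pp_011_s3) (xt := Ext.none) (P1 := 0) (W1 := 536870912) (P2 := 536870912) (W2 := 536870912) (P3 := 587336777) (W3 := 62277027)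
    rfl k0_A00pp_011_s3

theorem s_A00pp_011_s3 {κ x : ℝ} (hκ : κ * h0 = ken x) (hx : ((587336777 : ℕ) : ℝ) / S ≤ x)
    (hx' : x ≤ (((587336777 : ℕ) : ℝ) + (62277027 : ℕ)) / S)
    (H : CutA (VFD κ) PP tK tL pcB (Cut.of [[⟨0, 0, 0, 67108864⟩, ⟨1, 1, 0, 67108864⟩, ⟨2, 1, 0, 67108864⟩]]) 0 1 1 0 0 (sgb true) (sgb true) x) :
    AltA (VFD κ) PP tK tL pcB [⟨4, 0, 0, 2845415833⟩] 0 1 1 0 0 (sgb true) (sgb true) x :=
  strip_altAD (m := 2845415833) false rfl hκ (SH.κ0 hκ (SH.hx1 hx).le (SH.hx2 hx').le) (SH.hx1 hx).le (SH.hx2 hx') (covB00).cov (covB01).cov hx hx' c_A00pp_011_s3 H (noExt_A)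

noncomputable def cut_A00pp_012_s1 : Cut := Cut.of [[⟨4, 0, 0, 1449551462⟩], [⟨0, 0, 0, 67108864⟩, ⟨1, 1, 0, 67108864⟩, ⟨2, 1, 0, 67108864⟩]]

noncomputable def f_A00pp_012_s1 : ℕ → ℕ → ℕ → ℕ → Bool := onCell 0 536870912 536870912 536870912 587336777 62277027
    (rowF 0 true true true .pnp 0 1 2 (qsf 0 536870912 536870912 536870912 2) ndB0q0 ndB0q1 pcB2 cut_A00pp_012_s1 Ext.none)

def k0_A00pp_012_s1 : ∃ t, chk3 f_A00pp_012_s1 t 1 1 1 = true :=
  ⟨(l 6), by decide +kernel⟩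

theorem c_A00pp_012_s1 : CertF 0 536870912 536870912 536870912 587336777 62277027 true true true .pnp 0 1 2
    ndB0q0 ndB0q1 pcB2 cut_A00pp_012_s1 Ext.none :=
  certF0 (fam := true) (s1 := true) (s2 := true) (a := 0) (b := 1) (c := 2) (cn := .pnp) (n1 := ndB0q0) (n2 := ndB0q1) (pc := pcB2) (cut := cut_A00pp_012_s1) (xt := Ext.none) (P1 := 0) (W1 := 536870912) (P2 := 536870912) (W2 := 536870912) (P3 := 587336777) (W3 := 62277027)
    rfl k0_A00pp_012_s1

theorem s_A00pp_012_s1 {κ x : ℝ} (hκ : κ * h0 = ken x) (hx : ((587336777 : ℕ) : ℝ) / S ≤ x)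
    (hx' : x ≤ (((587336777 : ℕ) : ℝ) + (62277027 : ℕ)) / S)
    (H : CutA (VFD κ) PP tK tL pcB (Cut.of [[⟨0, 0, 0, 67108864⟩, ⟨1, 1, 0, 67108864⟩, ⟨2, 1, 0, 67108864⟩]]) 0 1 2 0 0 (sgb true) (sgb true) x) :
    AltA (VFD κ) PP tK tL pcB [⟨3, 0, 0, 1449551462⟩] 0 1 2 0 0 (sgb true) (sgb true) x :=
  strip_altAD (m := 1449551462) true rfl hκ (SH.κ0 hκ (SH.hx1 hx).le (SH.hx2 hx').le) (SH.hx1 hx).le (SH.hx2 hx') (covB00).cov (covB01).cov hx hx' c_A00pp_012_s1 H (noExt_A)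

noncomputable def cut_A00pp_012_s3 : Cut := Cut.of [[⟨3, 0, 0, 2845415833⟩], [⟨0, 0, 0, 67108864⟩, ⟨1, 1, 0, 67108864⟩, ⟨2, 1, 0, 67108864⟩]]

noncomputable def f_A00pp_012_s3 : ℕ → ℕ → ℕ → ℕ → Bool := onCell 0 536870912 536870912 536870912 587336777 62277027
    (rowF 0 true true true .pnp 0 1 2 (qsf 0 536870912 536870912 536870912 2) ndB0q0 ndB0q1 pcB2 cut_A00pp_012_s3 Ext.none)

def k0_A00pp_012_s3 : ∃ t, chk3 f_A00pp_012_s3 t 1 1 1 = true :=
  ⟨(b (l 4) (a (b (l 4) (a (b (l 4) (a (b (l 4) (a (l 14) (l 4))) (l 4))) (l 4))) (l 4))), by decide +kernel⟩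

theorem c_A00pp_012_s3 : CertF 0 536870912 536870912 536870912 587336777 62277027 true true true .pnp 0 1 2
    ndB0q0 ndB0q1 pcB2 cut_A00pp_012_s3 Ext.none :=
  certF0 (fam := true) (s1 := true) (s2 := true) (a := 0) (b := 1) (c := 2) (cn := .pnp) (n1 := ndB0q0) (n2 := ndB0q1) (pc := pcB2) (cut := cut_A00pp_012_s3) (xt := Ext.none) (P1 := 0) (W1 := 536870912) (P2 := 536870912) (W2 := 536870912) (P3 := 587336777) (W3 := 62277027)
    rfl k0_A00pp_012_s3

theorem s_A00pp_012_s3 {κ x : ℝ} (hκ : κ * h0 = ken x) (hx : ((587336777 : ℕ) : ℝ) / S ≤ x)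
    (hx' : x ≤ (((587336777 : ℕ) : ℝ) + (62277027 : ℕ)) / S)
    (H : CutA (VFD κ) PP tK tL pcB (Cut.of [[⟨0, 0, 0, 67108864⟩, ⟨1, 1, 0, 67108864⟩, ⟨2, 1, 0, 67108864⟩]]) 0 1 2 0 0 (sgb true) (sgb true) x) :
    AltA (VFD κ) PP tK tL pcB [⟨4, 0, 0, 2845415833⟩] 0 1 2 0 0 (sgb true) (sgb true) x :=
  strip_altAD (m := 2845415833) false rfl hκ (SH.κ0 hκ (SH.hx1 hx).le (SH.hx2 hx').le) (SH.hx1 hx).le (SH.hx2 hx') (covB00).cov (covB01).cov hx hx' c_A00pp_012_s3 H (noExt_A)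

noncomputable def cut_A00pp_022_s1 : Cut := Cut.of [[⟨4, 0, 0, 1449551462⟩], [⟨0, 0, 0, 67108864⟩, ⟨1, 1, 0, 67108864⟩, ⟨2, 1, 0, 67108864⟩]]

noncomputable def f_A00pp_022_s1 : ℕ → ℕ → ℕ → ℕ → Bool := onCell 0 536870912 0 536870912 587336777 62277027
    (rowF 0 true true true .pp 0 2 2 (qsf 0 536870912 0 536870912 2) ndB0q0 ndB0q2 pcB2 cut_A00pp_022_s1 Ext.none)

def k0_A00pp_022_s1 : ∃ t, chk3 f_A00pp_022_s1 t 1 1 1 = true :=
  ⟨(l 6), by decide +kernel⟩

theorem c_A00pp_022_s1 : CertF 0 536870912 0 536870912 587336777 62277027 true true true .pp 0 2 2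
    ndB0q0 ndB0q2 pcB2 cut_A00pp_022_s1 Ext.none :=
  certF0 (fam := true) (s1 := true) (s2 := true) (a := 0) (b := 2) (c := 2) (cn := .pp) (n1 := ndB0q0) (n2 := ndB0q2) (pc := pcB2) (cut := cut_A00pp_022_s1) (xt := Ext.none) (P1 := 0) (W1 := 536870912) (P2 := 0) (W2 := 536870912) (P3 := 587336777) (W3 := 62277027)
    rfl k0_A00pp_022_s1

theorem s_A00pp_022_s1 {κ x : ℝ} (hκ : κ * h0 = ken x) (hx : ((587336777 : ℕ) : ℝ) / S ≤ x)
    (hx' : x ≤ (((587336777 : ℕ) : ℝ) + (62277027 : ℕ)) / S)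
    (H : CutA (VFD κ) PP tK tL pcB (Cut.of [[⟨0, 0, 0, 67108864⟩, ⟨1, 1, 0, 67108864⟩, ⟨2, 1, 0, 67108864⟩]]) 0 2 2 0 0 (sgb true) (sgb true) x) :
    AltA (VFD κ) PP tK tL pcB [⟨3, 0, 0, 1449551462⟩] 0 2 2 0 0 (sgb true) (sgb true) x :=
  strip_altAD (m := 1449551462) true rfl hκ (SH.κ0 hκ (SH.hx1 hx).le (SH.hx2 hx').le) (SH.hx1 hx).le (SH.hx2 hx') (covB00).cov (covB02).cov hx hx' c_A00pp_022_s1 H (noExt_A)

noncomputable def cut_A00pp_022_s3 : Cut := Cut.of [[⟨3, 0, 0, 2845415833⟩], [⟨0, 0, 0, 67108864⟩, ⟨1, 1, 0, 67108864⟩, ⟨2, 1, 0, 67108864⟩]]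

noncomputable def xt_A00pp_022_s3 : Ext := strExt0 dd true true true .u0 .u2 .s2 .pp 0 2 2 rfl rfl gl2 vv ww kz ndB0q0 ndB0q2

noncomputable def f_A00pp_022_s3 : ℕ → ℕ → ℕ → ℕ → Bool := onCell 0 536870912 0 536870912 587336777 62277027
    (rowF 0 true true true .pp 0 2 2 (qsf 0 536870912 0 536870912 2) ndB0q0 ndB0q2 pcB2 cut_A00pp_022_s3 xt_A00pp_022_s3)

def k0_A00pp_022_s3 : ∃ t, chk3 f_A00pp_022_s3 t 2 2 1 = true :=
  ⟨(a (b (l 6) (a (l 6) (b (l 6) (b (l 6) (a (a (l 6) (a (l 6) (b (l 6) (b (l 6) (l 16586528))))) (a (a (b (l 6) (b (l 16585944) (l 16591952))) (b (l 16582496) (c (l 16595912) (l 16593136)))) (b (l 16621880) (a (l 16620816) (l 16626376))))))))) (b (a (l 6) (b (l 6) (a (l 6) (b (l 6) (l 16616040))))) (a (b (b (l 6) (a (l 6) (l 16621712))) (b (a (a (b (l 6) (l 16589456)) (b (l 16589000) (l 16600464))) (a (a (l 16645272) (l 16651248)) (a (l 16657448) (l 16663904)))) (b (a (a (l 16622296) (l 16633648)) (a (l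 16645592) (l 16668824))) (a (a (a (l 16632032) (l 16637784)) (a (l 16643640) (l 16649624))) (a (b (l 16655440) (l 1067939855)) (b (l 16668368) (l 1067862031))))))) (b (a (b (l 16679152) (a (l 16650144) (l 16619384))) (b (l 16712248) (b (l 16639440) (l 16700960)))) (b (a (a (b (l 16667624) (l 1067686927)) (b (l 16636480) (l 16671016))) (a (b (l 16651120) (l 16684088)) (b (l 16667080) (l 1067104783)))) (a (a (b (l 1068047887) (b (l 1066838543) (l 1067822095))) (b (l 1067976719) (b (l 1067329039) (l 1067786255)))) (a (b (l 1067295759) (b (l 1066621967) (l 1067091471))) (b (l 1067037199) (b (l 1066695695) (l 1067118095)))))))))), by decide +kernel⟩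

def k1_A00pp_022_s3 : ∃ t, chk3 f_A00pp_022_s3 t 8 12 1 = true :=
  ⟨(a (b (l 6) (b (l 6) (a (a (l 6) (a (l 6) (b (l 6) (l 16579928)))) (a (b (l 6) (a (l 16583168) (l 16586360))) (c (l 16588256) (a (l 16580440) (l 16588896))))))) (b (a (l 6) (b (l 6) (a (b (l 6) (a (l 6) (l 16584192))) (b (a (l 6) (a (l 6) (l 16584576))) (a (b (l 16585552) (l 16588656)) (b (a (c (l 16589360) (l 16586456)) (l 16589208)) (a (l 16590872) (l 16592360)))))))) (b (a (b (a (l 6) (c (l 16584064) (a (l 6) (l 16584216)))) (a (b (l 16582520) (l 16585752)) (c (a (l 16588784) (l 16591768)) (l 16589496)))) (a (a (b (l 16587592) (c (l 16594784) (l 16593600))) (b (l 16590488) (l 16596976))) (a (b (l 16593424) (l 16599952)) (b (a (l 16595656) (b (l 16595544) (l 16598776))) (l 16602960))))) (b (a (a (c (l 16590736) (l 16590448)) (l 16606848)) (a (c (l 16602776) (l 16601880)) (a (a (l 16605928) (l 16607440)) (l 16609720)))) (a (a (l 16597200) (l 16603184))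 (a (l 16609080) (c (l 16615744) (l 16614784)))))))), by decide +kernel⟩

def k2_A00pp_022_s3 : ∃ t, chk3 f_A00pp_022_s3 t 8 13 1 = true :=
  ⟨(a (b (a (b (c (a (b (l 16579088) (l 16585280)) (b (l 16585624) (l 16592008))) (a (b (l 16575560) (l 16581480)) (b (l 16582840) (l 16588944)))) (a (c (l 16594872) (a (l 16588728) (l 16592664))) (b (l 16597000) (l 16603552)))) (b (a (b (a (l 16589392) (l 16592680)) (l 16597464)) (c (l 16601536) (b (l 16596664) (l 16603128)))) (a (a (l 16605656) (l 16609176)) (b (l 16610904) (l 16617816))))) (a (c (b (a (l 16608184) (l 16615560)) (a (l 16622192) (l 16629904))) (a (b (a (l 16601536) (l 16605640)) (a (l 16615192) (l 16619456))) (b (a (l 16609672) (l 16613640)) (a (l 16623648) (l 16627768))))) (b (b (a (l 16617672) (l 16624888)) (a (l 16624736) (l 16632120))) (a (c (l 16637416) (l 16633832)) (c (l 16644760) (l 16641728)))))) (b (b (b (a (a (l 16603864) (l 16610072)) (a (l 16616168) (l 16622288)))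 (a (a (l 16613288) (l 16617072)) (a (l 16623392) (l 16629640)))) (a (a (b (a (l 16615944) (l 16619272)) (l 16624704)) (b (l 16624208) (l 16631480))) (c (a (l 16634728) (l 16641064)) (a (l 16633984) (l 16640736))))) (a (a (b (b (l 16631952) (l 16639352)) (c (l 16651992) (l 16649448))) (b (b (l 16638904) (l 16646472)) (b (l 16654200) (l 16662096)))) (b (a (b (l 16645776) (l 16656136)) (c (l 16656920) (l 16656008))) (a (b (l 16661400) (l 16669432)) (c (l 16673232) (b (l 16667832) (l 16675944)))))))), by decide +kernel⟩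

def k3_A00pp_022_s3 : ∃ t, chk3 f_A00pp_022_s3 t 18 12 1 = true :=
  ⟨(b (a (b (a (l 6) (b (l 6) (a (l 16586248) (l 16589040)))) (b (a (a (l 16586720) (l 16589576)) (a (l 16592432) (l 16595280))) (a (a (l 16592976) (l 16595888)) (c (l 16601672) (l 16599112))))) (c (b (a (l 16602256) (l 16597248)) (a (a (l 16602800) (l 16605648)) (l 16615168))) (b (a (a (l 16587496) (l 16590304)) (l 16605016)) (a (a (l 16600256) (l 16603176)) (a (l 16606104) (l 16609032)))))) (a (b (a (a (a (b (b (l 16597040) (l 16600288)) (l 16605248)) (b (l 16600152) (b (l 16605104) (l 16608456)))) (b (l 16602384) (b (l 16607368) (l 16610760)))) (b (a (l 16605352) (l 16608320)) (a (l 16612088) (l 16615112)))) (a (a (b (l 16612808) (l 16619800)) (b (b (a (l 16613416) (l 16614960)) (a (l 16616872) (l 16618448))) (b (l 16621176) (l 16624736)))) (a (b (l 16619024) (a (l 1066903055) (l 16626920))) (b (l 16622104) (l 16629272))))) (b (a (b (c (l 16614000) (l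 16611800)) (c (l 16620768) (l 16618784))) (b (c (l 16619880) (l 16617816)) (c (l 16626760) (l 16624912)))) (b (a (c (l 16627720) (l 16625952)) (c (l 16633832) (l 16632192))) (a (a (l 16632408) (l 16635544)) (a (l 16638688) (l 16641840))))))), by decide +kernel⟩

def k4_A00pp_022_s3 : ∃ t, chk3 f_A00pp_022_s3 t 19 12 1 = true :=
  ⟨(c (b (a (b (a (l 16602760) (l 16608336)) (a (l 16620912) (l 16626712))) (b (a (l 16613976) (l 16619696)) (a (b (l 16623888) (l 16630744)) (b (l 16629768) (l 16636736))))) (a (a (b (b (l 16625792) (l 16632792)) (b (l 16639968) (l 16647328))) (b (b (l 16631760) (l 16638864)) (l 16649912))) (b (a (b (l 16637784) (l 16645008)) (l 16650184)) (a (l 16656216) (l 1067727887))))) (b (a (a (b (l 16600176) (b (l 16610024) (l 16616840))) (a (b (l 16604440) (l 16617864)) (b (l 16607296) (l 16631320)))) (b (a (l 16611608) (l 16617416)) (a (l 16625304) (l 16631336)))) (a (b (a (b (l 16623856) (l 16631056)) (l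 16633592)) (a (b (l 16641072) (l 16646024)) (l 16648592))) (b (a (l 16639768) (l 16646008)) (a (l 16654984) (l 1067120143)))))), by decide +kernel⟩

def k5_A00pp_022_s3 : ∃ t, chk3 f_A00pp_022_s3 t 9 13 1 = true :=
  ⟨(a (b (a (a (b (b (b (l 16626752) (l 16630408)) (l 16635992)) (c (l 16647624) (l 16647432))) (b (a (b (b (l 16631552) (l 16635232)) (l 16640848)) (b (a (l 1066814479) (l 16637416)) (l 16649368))) (b (l 16650152) (l 16658024)))) (b (a (a (b (l 16639808) (l 16647392)) (a (l 16646032) (l 16647640))) (b (l 16647808) (l 16655528))) (a (a (a (l 1066625551) (l 1066615823)) (l 1067135503)) (a (l 16665808) (l 16669152))))) (b (b (a (a (l 16659360) (l 16666104)) (a (l 1067580943) (l 1067003407))) (a (a (l 16667440) (l 16674352)) (a (l 16681240) (l 1066404367)))) (a (a (c (l 16680240) (l 16679248)) (c (l 16687240) (l 16691800))) (a (a (l 1066373135) (l 1066354703)) (a (l 1066335247) (l 1066314255)))))) (a (a (b (b (b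 (l 16654232) (l 16662064)) (b (l 16670072) (l 16678256))) (b (l 1066926095) (l 1067353103))) (b (b (b (l 16660696) (l 16668640)) (l 1067131407)) (b (l 1066876943) (l 1066240527)))) (a (b (b (b (l 16667216) (l 16675264)) (l 1066942479)) (b (l 1066834447) (l 1066203151))) (b (b (l 1067014671) (l 1066348047)) (b (l 1066254863) (l 1066167311)))))), by decide +kernel⟩

def k6_A00pp_022_s3 : ∃ t, chk3 f_A00pp_022_s3 t 8 14 1 = true :=
  ⟨(a (b (b (b (a (a (l 16630808) (l 16639064)) (a (l 16647088) (l 16654920))) (a (a (l 16638408) (l 16646800)) (a (l 16654960) (l 16662920)))) (b (a (a (l 16646256) (l 16654768)) (a (l 16663048) (l 16671136))) (a (a (c (l 16656664) (l 16651904)) (l 16662984)) (a (l 16671376) (l 16679576))))) (b (b (a (a (a (l 14) (l 16664936)) (l 16671456)) (a (l 16679944) (l 16688248))) (a (a (l 14) (a (l 16678008) (l 16682352))) (a (l 16699264) (l 16707656)))) (a (a (l 14) (a (l 14) (b (l 16691392) (l 14)))) (b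 (a (c (l 16699352) (l 16696304)) (c (l 16707592) (l 16705024))) (a (a (l 14) (l 16709400)) (a (l 16713680) (l 16717912))))))) (b (b (b (a (a (l 16662600) (l 16670160)) (a (l 16677640) (l 16685056))) (a (a (l 16670728) (l 16678416)) (a (l 16686016) (l 16693552)))) (b (a (a (l 16679056) (l 16686864)) (a (l 16694576) (l 16712712))) (a (a (l 16687608) (l 16695520)) (a (l 16713824) (c (l 16711808) (l 16710280)))))) (a (a (b (b (l 16696384) (l 16715888)) (b (c (l 16715704) (l 16713552)) (a (l 16722104) (l 16726264)))) (b (b (l 16714880) (c (l 16714440) (l 16712480))) (a (b (l 16720816) (l 16740880)) (b (l 16724880) (l 16739744))))) (a (b (b (c (l 16713144) (l 16711384)) (c (l 16722272) (l 16731144))) (a (b (l 16728920) (l 1066188815)) (b (l 16743424) (l 1065660431)))) (b (a (b (l 16718200) (l 16727456)) (l 1066998287)) (a (b (l 16742176) (l 1065667599)) (b (l 1065776655) (l 1065673743)))))))), by decide +kernel⟩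

def k7_A00pp_022_s3 : ∃ t, chk3 f_A00pp_022_s3 t 8 15 1 = true :=
  ⟨(b (a (a (l 14) (b (a (l 14) (b (a (b (l 16720928) (l 16725856)) (b (l 16725184) (l 16730128))) (a (l 14) (b (l 16735152) (l 16740240))))) (l 14))) (a (a (a (b (b (b (l 16729408) (l 16734368)) (b (l 16739400) (l 16749744))) (b (a (l 1065768975) (l 1065243151)) (l 14))) (b (a (b (l 16735032) (l 1065378831)) (b (l 16747608) (l 1065388047))) (b (a (l 1065253391) (l 1065263631)) (a (l 14) (l 1065137167))))) (a (a (b (b (l 16744448) (l 1065396751)) (b (l 1065273359) (l 1065147407))) (b (b (l 16746520) (l 1065404943)) (b (l 1065282063) (l 1065157647)))) (a (b (a (l 1065470991) (l 1065474575)) (l 1065765903)) (b (a (l 1065477647) (l 1065481231)) (l 1065237519))))) (a (b (b (a (l 1066077711) (l 1065551375)) (a (l 1065962511) (l 1065438223))) (a (a (l 1065246223) (l 1065253903)) (a (l 1065261583) (l 1065268751)))) (b (a (b (l 1065560079) (l 1065449487)) (b (l 1065567759)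 (l 1065459215))) (a (a (l 1065275407) (l 1065282063)) (l 1065825295)))))) (a (l 14) (a (a (l 14) (a (a (l 14) (a (l 14) (l 4))) (l 4))) (l 4)))), by decide +kernel⟩

def k8_A00pp_022_s3 : ∃ t, chk3 f_A00pp_022_s3 t 9 7 1 = true :=
  ⟨(b (a (b (b (a (a (c (l 16697312) (b (l 16691784) (l 16700376))) (a (l 1066260495) (l 1066250255))) (a (c (l 16717072) (l 1066317327)) (l 1066737679))) (a (a (a (b (l 16707944) (l 16716880)) (l 1066642959)) (a (l 1066102287) (l 1066097167))) (a (a (l 1066091023) (l 1066083855)) (l 1066065935)))) (a (a (a (b (l 1066463759) (l 1066804751)) (b (l 1065928719) (l 1065736719))) (a (b (l 1065929743) (b (l 1065790479) (l 1065693199))) (b (l 1065929231) (l 1066283023)))) (a (b (c (l 1067605007) (l 1067984399)) (a (l 1065749007) (l 1065751055))) (b (l 1068062223) (l 1066284047))))) (b (a (a (b (l 1066704911) (l 1066043919)) (b (l 1066132495) (l 1066017295))) (a (b (l 1066099215) (l 1065987599)) (b (l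 1066068495) (l 1065959439)))) (a (a (b (l 1065903631) (l 1065745935)) (l 1065816079)) (b (l 1066651151) (l 4))))) (b (b (a (a (a (a (b (l 1065574927) (l 1065466895)) (b (l 1065583631) (l 1065477135))) (b (a (l 1065591823) (l 1065598479)) (l 1067631631))) (a (b (l 1066675215) (l 4)) (l 4))) (l 4)) (l 4)) (l 4))), by decide +kernel⟩

def k9_A00pp_022_s3 : ∃ t, chk3 f_A00pp_022_s3 t 10 6 1 = true :=
  ⟨(b (a (b (a (b (c (b (l 16646032) (l 16631816)) (a (l 16623312) (l 16629296))) (a (c (l 16639288) (l 16637440)) (b (l 16640768) (l 16658536)))) (b (a (a (l 16655744) (l 16658800)) (b (l 16638904) (l 16646000))) (a (b (l 16646976) (l 16664848)) (b (l 16663776) (l 16671264))))) (b (a (a (c (l 16659048) (l 16657576)) (c (l 1067759631) (l 16663976))) (a (c (l 1066628111) (l 16670472)) (c (l 1066570255) (l 1066482703)))) (a (a (b (l 16669712) (l 16672384)) (b (l 16676248) (l 16689512))) (a (l 1067375119) (l 1067180047))))) (b (c (b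 (a (b (l 16670416) (l 1067701775)) (b (l 1066765839) (l 1067484175))) (a (a (l 1066671119) (l 1066618383)) (a (l 1066572303) (l 1066534415)))) (b (a (a (l 16668864) (l 16675328)) (b (l 16671152) (l 1066566159))) (a (b (l 1067116559) (l 1067308047)) (b (l 1067019791) (l 1066937359))))) (a (a (b (c (l 1066512911) (l 1066422799)) (l 1066849807)) (b (c (l 1066456079) (l 1066363919)) (l 1066788879))) (b (a (c (l 1066403343) (l 1066308111)) (c (l 1066359823) (l 1066259471))) (a (c (l 1066775567) (l 1066191887)) (a (l 1066692111) (l 1066668559))))))) (a (b (a (a (b (l 1066955791) (l 1066294287)) (b (l 1066358287) (l 1066246671))) (a (b (l 1066296335) (l 1066198543)) (b (l 1066236431) (l 1066149903)))) (a (a (b (l 1066212879) (l 1066131471)) (b (l 1066170895) (l 1066096143))) (a (b (l 1066127887) (l 1066060815)) (b (l 1066084367) (l 1066025487))))) (b (a (b (b (l 1066987023) (l 1066672655)) (b (l 1066629135) (l 1066053647))) (b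 (a (l 1066629135) (b (l 1066073103) (l 1066030095))) (a (l 1066003983) (b (l 1065986575) (l 1065938447))))) (b (a (b (l 1066023439) (l 1066002959)) (b (l 1066447887) (l 1065913359))) (a (l 1065967119) (l 1065892367)))))), by decide +kernel⟩

def k10_A00pp_022_s3 : ∃ t, chk3 f_A00pp_022_s3 t 11 12 1 = true :=
  ⟨(a (b (b (a (b (l 1067731983) (b (l 1067396111) (l 1067351055))) (a (l 1067405839) (l 1067516431))) (a (a (a (l 1066451983) (l 1066441231)) (a (l 1066432015) (l 1066423823))) (a (a (l 1066417679) (l 1066949135)) (a (l 1066945551) (l 1067209231))))) (b (a (a (a (l 1066949647) (l 1066936847)) (b (l 1066292751) (l 1066741263))) (b (a (l 1066812943) (l 1066801679)) (a (l 1066721807) (l 1066707983)))) (b (a (a (l 1066680335) (l 1066653711)) (a (l 1066632207) (l 1066616335))) (a (a (l 1066071055) (l 1066030607)) (a (l 1066544143) (l 1066525199)))))) (b (a (a (b (l 1066501647) (b (l 1066399759) (l 1067132431))) (b (l 1066407951)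 (b (l 1066307087) (l 1066240015)))) (a (b (l 1066387983) (l 1066715151)) (a (b (l 1066424847) (l 1066208271)) (b (l 1066449423) (l 1066230799))))) (a (b (a (a (b (l 1066260495) (l 1066165263)) (b (l 1066240527) (l 1066696207))) (b (l 1066845199) (c (l 1066713615) (l 1066048527)))) (b (a (a (l 1066608143) (l 1066604047)) (a (l 1066593295) (l 1066557967))) (a (a (l 1065978383) (l 1066510351)) (a (l 1066506255) (l 1066489359))))) (a (b (b (b (l 1066095631) (l 1066599439)) (a (l 1066574863) (l 1066392591))) (a (b (l 1066510863) (l 1065911311)) (b (b (l 1066478607) (l 1065910287)) (l 1066400271)))) (b (a (b (l 1066054159) (b (l 1065980431) (l 1066202127))) (b (l 1066075663) (b (l 1066001423) (a (l 1065947151) (l 1065957903))))) (b (a (c (c (l 1065956367) (l 1065901583)) (l 1066147343)) (b (c (l 1066098703) (l 1066172431)) (l 1066137615))) (c (l 1066108431) (l 1065813007)))))))), by decide +kernel⟩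

def k11_A00pp_022_s3 : ∃ t, chk3 f_A00pp_022_s3 t 11 13 1 = true :=
  ⟨(a (b (a (b (a (l 1066542095) (b (l 1065977359) (l 1065935887))) (a (l 1066995215) (l 1065876495))) (b (b (a (l 1065924111) (b (l 1065921039) (l 1065876495))) (l 1066394639)) (l 1066340879))) (a (b (a (b (l 1065859087) (l 1065831951)) (l 1065807375)) (l 4)) (l 4))) (b (b (b (a (a (c (a (l 1065946127) (l 1066478607)) (l 1065832463)) (c (c (l 1066509327) (l 1065903119)) (l 1065817103))) (a (c (a (l 1066448399) (l 4)) (l 1065771535)) (l 4))) (a (a (l 1065790991) (a (a (l 1066185743) (l 4)) (l 4))) (l 4))) (l 4)) (l 4))), by decide +kernel⟩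

def k12_A00pp_022_s3 : ∃ t, chk3 f_A00pp_022_s3 t 5 7 1 = true :=
  ⟨(a (b (b (a (a (b (a (l 1066038799) (l 1066009615)) (a (l 1065934863) (l 1065911311))) (b (a (l 1065981455) (l 1067026447)) (a (l 1065888783) (l 4)))) (a (a (b (l 1065924623) (l 4)) (l 4)) (l 4))) (l 4)) (l 4)) (l 4)), by decide +kernel⟩

def k13_A00pp_022_s3 : ∃ t, chk3 f_A00pp_022_s3 t 3 2 1 = true :=
  ⟨(b (a (a (b (b (l 6) (a (l 6) (l 16653344))) (a (b (l 16636136) (l 16647312)) (b (l 16664704) (l 16676008)))) (b (a (b (l 16688264) (l 16720696)) (a (b (l 16684112) (l 16695808)) (l 2))) (a (b (l 16732328) (l 16743848)) (a (b (l 16707680) (l 16719440)) (l 2))))) (l 2)) (a (a (b (b (a (l 16722424) (b (l 16685080) (l 16733616))) (a (a (l 16667304) (l 16724192)) (a (l 16728072) (l 1068340239)))) (b (a (b (a (l 16682560) (l 16718480)) (a (l 1067227151) (l 1067355151))) (a (b (l 1067750415) (l 1067488271)) (b (l 1067893263) (l 1067623439)))) (a (b (a (b (l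 1067044367) (l 1066924559)) (l 1067642895)) (a (b (l 1066805263) (l 1067223567)) (b (l 1066921487) (b (l 1066829839) (l 1066768399))))) (a (b (a (l 1067200015) (l 1067264527)) (b (a (l 1067012623) (l 1067075087)) (a (l 1066887695) (l 1066949135)))) (b (a (l 1067329039) (l 1067393551)) (a (b (l 1067137551) (l 1067012623)) (b (l 1067198991) (l 1067072527)))))))) (b (a (a (b (l 16708088) (l 1068508175)) (b (l 16762392) (l 1068685327))) (b (a (l 16774024) (l 69357005255)) (a (b (l 16764288) (l 1068701711)) (a (l 1069037071) (l 2))))) (a (b (b (a (l 1068042767) (l 1068198927)) (l 1067838991)) (b (a (l 1067494415) (l 1067633167)) (a (b (l 1067295759) (l 1067166223)) (l 4)))) (b (a (b (l 1069689359) (l 1068063759)) (b (a (l 1068495375) (l 1068596239)) (a (l 1068184079) (l 4)))) (a (b (l 1067777039) (l 4)) (l 4)))))) (b (l 2) (b (l 2) (l 4))))), by decide +kernel⟩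

def k14_A00pp_022_s3 : ∃ t, chk3 f_A00pp_022_s3 t 3 3 1 = true :=
  ⟨(a (b (a (b (a (b (b (a (b (l 1067374095) (c (l 1067004431) (l 1066970127))) (a (b (l 1066649103) (l 1066530319)) (b (l 1066704911) (l 1066583567)))) (a (a (b (l 1066318351) (l 1066747919)) (b (l 1066365455) (l 1066222095))) (a (b (l 1066414607) (c (l 1066329615) (l 1066270735))) (b (l 1066465295) (a (l 1066338319) (l 1066362895)))))) (a (b (a (a (b (l 1066096143) (a (l 1065991695) (l 1066001423))) (b (l 1066117135) (a (l 1066011151) (l 1066020879)))) (a (b (l 1066138639) (a (l 1066031119) (l 1066041359))) (b (l 1066160143) (a (l 1066051599) (l 4))))) (b (b (a (a (a (b (l 1065931279) (a (l 1065905167) (l 1065909775))) (a (l 1065926159) (l 1065863695))) (c (b (l 1065959439) (l 4)) (l 1065931279))) (l 4)) (l 4)) (l 4))) (a (b (b (a (l 1066182671) (a (l 1066199567) (l 1066210831))) (l 4)) (l 4)) (l 4)))) (b (b (a (a (b (b (l 1066793487) (l 1066731023)) (c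 (l 1066687503) (l 1066586639))) (b (c (l 1066880015) (b (l 1066791951) (l 1066728463))) (b (c (l 1066784271) (b (l 1066681871) (l 1066650639))) (l 1066663439)))) (a (b (c (l 1066948623) (l 1066813455)) (a (b (c (l 1066834447) (l 1066704399)) (l 4)) (l 4))) (b (a (l 1066928143) (l 1066960911)) (l 4)))) (a (a (b (c (l 1066565647) (l 1066467343)) (c (l 1066447375) (b (l 1066379791) (l 4)))) (b (c (l 1066628623) (l 1066512911)) (l 4))) (l 4))) (l 4))) (l 4)) (b (l 4) (l 4))) (l 4)) (l 4)), by decide +kernel⟩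

theorem t15_A00pp_022_s3 : ∃ t, chk3 f_A00pp_022_s3 t 3 1 1 = true := ex3_b k13_A00pp_022_s3 k14_A00pp_022_s3

theorem t16_A00pp_022_s3 : ∃ t, chk3 f_A00pp_022_s3 t 11 6 1 = true := ex3_b k10_A00pp_022_s3 k11_A00pp_022_s3

theorem t17_A00pp_022_s3 : ∃ t, chk3 f_A00pp_022_s3 t 5 6 1 = true := ex3_a k9_A00pp_022_s3 t16_A00pp_022_s3

theorem t18_A00pp_022_s3 : ∃ t, chk3 f_A00pp_022_s3 t 5 3 1 = true := ex3_b t17_A00pp_022_s3 k12_A00pp_022_s3

theorem t19_A00pp_022_s3 : ∃ t, chk3 f_A00pp_022_s3 t 8 7 1 = true := ex3_b k6_A00pp_022_s3 k7_A00pp_022_s3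

theorem t20_A00pp_022_s3 : ∃ t, chk3 f_A00pp_022_s3 t 4 7 1 = true := ex3_a t19_A00pp_022_s3 k8_A00pp_022_s3

theorem t21_A00pp_022_s3 : ∃ t, chk3 f_A00pp_022_s3 t 9 12 1 = true := ex3_a k3_A00pp_022_s3 k4_A00pp_022_s3

theorem t22_A00pp_022_s3 : ∃ t, chk3 f_A00pp_022_s3 t 9 6 1 = true := ex3_b t21_A00pp_022_s3 k5_A00pp_022_s3

theorem t23_A00pp_022_s3 : ∃ t, chk3 f_A00pp_022_s3 t 8 6 1 = true := ex3_b k1_A00pp_022_s3 k2_A00pp_022_s3

theorem t24_A00pp_022_s3 : ∃ t, chk3 f_A00pp_022_s3 t 4 6 1 = true := ex3_a t23_A00pp_022_s3 t22_A00pp_022_s3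

theorem t25_A00pp_022_s3 : ∃ t, chk3 f_A00pp_022_s3 t 4 3 1 = true := ex3_b t24_A00pp_022_s3 t20_A00pp_022_s3

theorem t26_A00pp_022_s3 : ∃ t, chk3 f_A00pp_022_s3 t 2 3 1 = true := ex3_a t25_A00pp_022_s3 t18_A00pp_022_s3

theorem t27_A00pp_022_s3 : ∃ t, chk3 f_A00pp_022_s3 t 2 1 1 = true := ex3_b k0_A00pp_022_s3 t26_A00pp_022_s3

theorem t28_A00pp_022_s3 : ∃ t, chk3 f_A00pp_022_s3 t 1 1 1 = true := ex3_a t27_A00pp_022_s3 t15_A00pp_022_s3

theorem c_A00pp_022_s3 : CertF 0 536870912 0 536870912 587336777 62277027 true true true .pp 0 2 2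
    ndB0q0 ndB0q2 pcB2 cut_A00pp_022_s3 xt_A00pp_022_s3 :=
  certF0 (fam := true) (s1 := true) (s2 := true) (a := 0) (b := 2) (c := 2) (cn := .pp) (n1 := ndB0q0) (n2 := ndB0q2) (pc := pcB2) (cut := cut_A00pp_022_s3) (xt := xt_A00pp_022_s3) (P1 := 0) (W1 := 536870912) (P2 := 0) (W2 := 536870912) (P3 := 587336777) (W3 := 62277027)
    rfl t28_A00pp_022_s3

theorem s_A00pp_022_s3 {κ x : ℝ} (hκ : κ * h0 = ken x) (hx : ((587336777 : ℕ) : ℝ) / S ≤ x)
    (hx' : x ≤ (((587336777 : ℕ) : ℝ) + (62277027 : ℕ)) / S)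
    (H : CutA (VFD κ) PP tK tL pcB (Cut.of [[⟨0, 0, 0, 67108864⟩, ⟨1, 1, 0, 67108864⟩, ⟨2, 1, 0, 67108864⟩]]) 0 2 2 0 0 (sgb true) (sgb true) x) :
    AltA (VFD κ) PP tK tL pcB [⟨4, 0, 0, 2845415833⟩] 0 2 2 0 0 (sgb true) (sgb true) x :=
  strip_altAD (m := 2845415833) false rfl hκ (SH.κ0 hκ (SH.hx1 hx).le (SH.hx2 hx').le) (SH.hx1 hx).le (SH.hx2 hx') (covB00).cov (covB02).cov hx hx' c_A00pp_022_s3 H ((okx6 hx hx').ext0A (T := tt) (zx hx hx') (okx hx hx') (sideB hx hx') hκ rfl rfl (.O 0 true) (.O 2 true) (Or.inl rfl))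

noncomputable def cut_A00pp_023_s1 : Cut := Cut.of [[⟨4, 0, 0, 1449551462⟩]]

noncomputable def f_A00pp_023_s1 : ℕ → ℕ → ℕ → ℕ → Bool := onCell 0 536870912 0 536870912 587336777 62277027
    (rowF 0 true true true .up 0 2 3 (qsf 0 536870912 0 536870912 3) ndB0q0 ndB0q2 pcB3 cut_A00pp_023_s1 Ext.none)

def k0_A00pp_023_s1 : ∃ t, chk3 f_A00pp_023_s1 t 1 1 1 = true :=
  ⟨(l 6), by decide +kernel⟩

theorem c_A00pp_023_s1 : CertF 0 536870912 0 536870912 587336777 62277027 true true true .up 0 2 3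
    ndB0q0 ndB0q2 pcB3 cut_A00pp_023_s1 Ext.none :=
  certF0 (fam := true) (s1 := true) (s2 := true) (a := 0) (b := 2) (c := 3) (cn := .up) (n1 := ndB0q0) (n2 := ndB0q2) (pc := pcB3) (cut := cut_A00pp_023_s1) (xt := Ext.none) (P1 := 0) (W1 := 536870912) (P2 := 0) (W2 := 536870912) (P3 := 587336777) (W3 := 62277027)
    rfl k0_A00pp_023_s1

theorem s_A00pp_023_s1 {κ x : ℝ} (hκ : κ * h0 = ken x) (hx : ((587336777 : ℕ) : ℝ) / S ≤ x)
    (hx' : x ≤ (((587336777 : ℕ) : ℝ) + (62277027 : ℕ)) / S) :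
    AltA (VFD κ) PP tK tL pcB [⟨3, 0, 0, 1449551462⟩] 0 2 3 0 0 (sgb true) (sgb true) x :=
  strip_altAD (m := 1449551462) true rfl hκ (SH.κ0 hκ (SH.hx1 hx).le (SH.hx2 hx').le) (SH.hx1 hx).le (SH.hx2 hx') (covB00).cov (covB02).cov hx hx' c_A00pp_023_s1 cutA_nil (noExt_A)

noncomputable def cut_A00pp_023_s3 : Cut := Cut.of [[⟨3, 0, 0, 2845415833⟩]]

noncomputable def xt_A00pp_023_s3 : Ext := strExt0 dd true true true .u0 .u2 .s2 .up 0 2 3 rfl rfl gl3 vv ww kz ndB0q0 ndB0q2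

noncomputable def f_A00pp_023_s3 : ℕ → ℕ → ℕ → ℕ → Bool := onCell 1610612736 536870912 0 536870912 587336777 62277027
    (rowF 2 true true true .up 0 2 3 (qsf 0 536870912 0 536870912 3) ndB0q0 ndB0q2 pcB3 cut_A00pp_023_s3 xt_A00pp_023_s3)

def k0_A00pp_023_s3 : ∃ t, chk3 f_A00pp_023_s3 t 1 1 1 = true :=
  ⟨(a (a (b (b (a (b (a (b (l 16687664) (l 16700736)) (b (l 16694656) (l 16710656))) (b (a (l 16714688) (a (l 16724304) (l 16730272))) (a (a (l 16725472) (l 16774968)) (a (l 1070068751) (l 1069983759))))) (b (a (b (l 16700288) (a (l 16717272) (l 16722296))) (a (b (l 16709984) (l 16770536)) (b (l 16725176) (b (l 16737512) (l 16788272))))) (a (b (a (l 16736136) (b (l 16737656) (l 16747640))) (a (b (l 16791928) (l 1069767183)) (b (l 1069705743) (l 1069609999)))) (b (a (b (l 16786568) (l 1069578767)) (b (l 1069397007) (c (l 1070114831) (l 1069508111)))) (a (b (l 1069537295) (l 1069451279)) (b (c (l 1070049295) (l 1069446159))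 (l 1069632527))))))) (a (b (a (b (b (a (l 16737128) (l 16787304)) (a (l 1069615631) (l 1069609999))) (a (b (l 1069304335) (a (l 1068997135) (l 1068971535))) (l 1069103631))) (a (b (b (l 1069849103) (l 1069595151)) (l 1069068303)) (b (c (b (l 1069849103) (l 1069719055)) (l 1071239695)) (a (l 1069046799) (l 4))))) (a (b (b (a (b (l 1068743695) (l 1068583439)) (l 4)) (l 4)) (l 4)) (l 4))) (b (b (a (c (a (b (l 1069699599) (l 1069585423)) (l 1069473295)) (a (l 1070080527) (l 1069413391))) (l 4)) (l 4)) (l 4)))) (l 4)) (b (b (a (b (a (b (a (l 16738144) (l 63988287175)) (a (b (l 16749168) (a (l 16754584) (l 16759424))) (b (l 1070721551) (a (l 16769072) (l 1070750735))))) (l 2)) (a (b (a (b (b (l 1070276111) (l 1070248975)) (l 1070206479)) (b (b (l 1070628879) (l 1070602255)) (l 1070561295))) (a (b (b (l 1070161935) (l 4)) (l 4)) (l 4))) (l 2))) (l 2)) (l 4)) (l 4))) (l 2)), by decide +kernel⟩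

theorem c_A00pp_023_s3 : CertF 0 536870912 0 536870912 587336777 62277027 true true true .up 0 2 3
    ndB0q0 ndB0q2 pcB3 cut_A00pp_023_s3 xt_A00pp_023_s3 :=
  certF2 (fam := true) (s1 := true) (s2 := true) (a := 0) (b := 2) (c := 3) (cn := .up) (n1 := ndB0q0) (n2 := ndB0q2) (pc := pcB3) (cut := cut_A00pp_023_s3) (xt := xt_A00pp_023_s3) (P1 := 0) (W1 := 536870912) (P2 := 0) (W2 := 536870912) (P3 := 587336777) (W3 := 62277027)
    rfl (fun _ => rfl) k0_A00pp_023_s3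

theorem s_A00pp_023_s3 {κ x : ℝ} (hκ : κ * h0 = ken x) (hx : ((587336777 : ℕ) : ℝ) / S ≤ x)
    (hx' : x ≤ (((587336777 : ℕ) : ℝ) + (62277027 : ℕ)) / S) :
    AltA (VFD κ) PP tK tL pcB [⟨4, 0, 0, 2845415833⟩] 0 2 3 0 0 (sgb true) (sgb true) x :=
  strip_altAD (m := 2845415833) false rfl hκ (SH.κ0 hκ (SH.hx1 hx).le (SH.hx2 hx').le) (SH.hx1 hx).le (SH.hx2 hx') (covB00).cov (covB02).cov hx hx' c_A00pp_023_s3 cutA_nil ((okx6 hx hx').ext0A (T := tt) (zx hx hx') (okx hx hx') (sideB hx hx') hκ rfl rfl (.O 0 true) (.O 2 true) (Or.inr rfl))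

noncomputable def cut_A00pp_101_s1 : Cut := Cut.of [[⟨4, 0, 0, 1449551462⟩]]

noncomputable def f_A00pp_101_s1 : ℕ → ℕ → ℕ → ℕ → Bool := onCell 536870912 536870912 0 536870912 587336777 62277027
    (rowF 0 true true true .npn 1 0 1 (qsf 536870912 536870912 0 536870912 1) ndB0q1 ndB0q0 pcB1 cut_A00pp_101_s1 Ext.none)

def k0_A00pp_101_s1 : ∃ t, chk3 f_A00pp_101_s1 t 1 1 1 = true :=
  ⟨(l 6), by decide +kernel⟩

theorem c_A00pp_101_s1 : CertF 536870912 536870912 0 536870912 587336777 62277027 true true true .npn 1 0 1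
    ndB0q1 ndB0q0 pcB1 cut_A00pp_101_s1 Ext.none :=
  certF0 (fam := true) (s1 := true) (s2 := true) (a := 1) (b := 0) (c := 1) (cn := .npn) (n1 := ndB0q1) (n2 := ndB0q0) (pc := pcB1) (cut := cut_A00pp_101_s1) (xt := Ext.none) (P1 := 536870912) (W1 := 536870912) (P2 := 0) (W2 := 536870912) (P3 := 587336777) (W3 := 62277027)
    rfl k0_A00pp_101_s1

theorem s_A00pp_101_s1 {κ x : ℝ} (hκ : κ * h0 = ken x) (hx : ((587336777 : ℕ) : ℝ) / S ≤ x)
    (hx' : x ≤ (((587336777 : ℕ) : ℝ) + (62277027 : ℕ)) / S) :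
    AltA (VFD κ) PP tK tL pcB [⟨3, 0, 0, 1449551462⟩] 1 0 1 0 0 (sgb true) (sgb true) x :=
  strip_altAD (m := 1449551462) true rfl hκ (SH.κ0 hκ (SH.hx1 hx).le (SH.hx2 hx').le) (SH.hx1 hx).le (SH.hx2 hx') (covB01).cov (covB00).cov hx hx' c_A00pp_101_s1 cutA_nil (noExt_A)

noncomputable def cut_A00pp_101_s3 : Cut := Cut.of [[⟨3, 0, 0, 2845415833⟩]]

noncomputable def f_A00pp_101_s3 : ℕ → ℕ → ℕ → ℕ → Bool := onCell 536870912 536870912 0 536870912 587336777 62277027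
    (rowF 0 true true true .npn 1 0 1 (qsf 536870912 536870912 0 536870912 1) ndB0q1 ndB0q0 pcB1 cut_A00pp_101_s3 Ext.none)

def k0_A00pp_101_s3 : ∃ t, chk3 f_A00pp_101_s3 t 1 1 1 = true :=
  ⟨(a (l 4) (l 5)), by decide +kernel⟩

theorem c_A00pp_101_s3 : CertF 536870912 536870912 0 536870912 587336777 62277027 true true true .npn 1 0 1
    ndB0q1 ndB0q0 pcB1 cut_A00pp_101_s3 Ext.none :=
  certF0 (fam := true) (s1 := true) (s2 := true) (a := 1) (b := 0) (c := 1) (cn := .npn) (n1 := ndB0q1) (n2 := ndB0q0) (pc := pcB1) (cut := cut_A00pp_101_s3) (xt := Ext.none) (P1 := 536870912) (W1 := 536870912) (P2 := 0) (W2 := 536870912) (P3 := 587336777) (W3 := 62277027)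
    rfl k0_A00pp_101_s3

theorem s_A00pp_101_s3 {κ x : ℝ} (hκ : κ * h0 = ken x) (hx : ((587336777 : ℕ) : ℝ) / S ≤ x)
    (hx' : x ≤ (((587336777 : ℕ) : ℝ) + (62277027 : ℕ)) / S) :
    AltA (VFD κ) PP tK tL pcB [⟨4, 0, 0, 2845415833⟩] 1 0 1 0 0 (sgb true) (sgb true) x :=
  strip_altAD (m := 2845415833) false rfl hκ (SH.κ0 hκ (SH.hx1 hx).le (SH.hx2 hx').le) (SH.hx1 hx).le (SH.hx2 hx') (covB01).cov (covB00).cov hx hx' c_A00pp_101_s3 cutA_nil (noExt_A)

noncomputable def cut_A00pp_102_s1 : Cut := Cut.of [[⟨4, 0, 0, 1449551462⟩]]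

noncomputable def f_A00pp_102_s1 : ℕ → ℕ → ℕ → ℕ → Bool := onCell 536870912 536870912 0 536870912 587336777 62277027
    (rowF 0 true true true .npp 1 0 2 (qsf 536870912 536870912 0 536870912 2) ndB0q1 ndB0q0 pcB2 cut_A00pp_102_s1 Ext.none)

def k0_A00pp_102_s1 : ∃ t, chk3 f_A00pp_102_s1 t 1 1 1 = true :=
  ⟨(l 6), by decide +kernel⟩

theorem c_A00pp_102_s1 : CertF 536870912 536870912 0 536870912 587336777 62277027 true true true .npp 1 0 2
    ndB0q1 ndB0q0 pcB2 cut_A00pp_102_s1 Ext.none :=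
  certF0 (fam := true) (s1 := true) (s2 := true) (a := 1) (b := 0) (c := 2) (cn := .npp) (n1 := ndB0q1) (n2 := ndB0q0) (pc := pcB2) (cut := cut_A00pp_102_s1) (xt := Ext.none) (P1 := 536870912) (W1 := 536870912) (P2 := 0) (W2 := 536870912) (P3 := 587336777) (W3 := 62277027)
    rfl k0_A00pp_102_s1

theorem s_A00pp_102_s1 {κ x : ℝ} (hκ : κ * h0 = ken x) (hx : ((587336777 : ℕ) : ℝ) / S ≤ x)
    (hx' : x ≤ (((587336777 : ℕ) : ℝ) + (62277027 : ℕ)) / S) :
    AltA (VFD κ) PP tK tL pcB [⟨3, 0, 0, 1449551462⟩] 1 0 2 0 0 (sgb true) (sgb true) x :=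
  strip_altAD (m := 1449551462) true rfl hκ (SH.κ0 hκ (SH.hx1 hx).le (SH.hx2 hx').le) (SH.hx1 hx).le (SH.hx2 hx') (covB01).cov (covB00).cov hx hx' c_A00pp_102_s1 cutA_nil (noExt_A)

noncomputable def cut_A00pp_102_s3 : Cut := Cut.of [[⟨3, 0, 0, 2845415833⟩]]

noncomputable def f_A00pp_102_s3 : ℕ → ℕ → ℕ → ℕ → Bool := onCell 536870912 536870912 0 536870912 587336777 62277027
    (rowF 0 true true true .npp 1 0 2 (qsf 536870912 536870912 0 536870912 2) ndB0q1 ndB0q0 pcB2 cut_A00pp_102_s3 Ext.none)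

def k0_A00pp_102_s3 : ∃ t, chk3 f_A00pp_102_s3 t 1 1 1 = true :=
  ⟨(a (l 4) (l 5)), by decide +kernel⟩

theorem c_A00pp_102_s3 : CertF 536870912 536870912 0 536870912 587336777 62277027 true true true .npp 1 0 2
    ndB0q1 ndB0q0 pcB2 cut_A00pp_102_s3 Ext.none :=
  certF0 (fam := true) (s1 := true) (s2 := true) (a := 1) (b := 0) (c := 2) (cn := .npp) (n1 := ndB0q1) (n2 := ndB0q0) (pc := pcB2) (cut := cut_A00pp_102_s3) (xt := Ext.none) (P1 := 536870912) (W1 := 536870912) (P2 := 0) (W2 := 536870912) (P3 := 587336777) (W3 := 62277027)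
    rfl k0_A00pp_102_s3

theorem s_A00pp_102_s3 {κ x : ℝ} (hκ : κ * h0 = ken x) (hx : ((587336777 : ℕ) : ℝ) / S ≤ x)
    (hx' : x ≤ (((587336777 : ℕ) : ℝ) + (62277027 : ℕ)) / S) :
    AltA (VFD κ) PP tK tL pcB [⟨4, 0, 0, 2845415833⟩] 1 0 2 0 0 (sgb true) (sgb true) x :=
  strip_altAD (m := 2845415833) false rfl hκ (SH.κ0 hκ (SH.hx1 hx).le (SH.hx2 hx').le) (SH.hx1 hx).le (SH.hx2 hx') (covB01).cov (covB00).cov hx hx' c_A00pp_102_s3 cutA_nil (noExt_A)

noncomputable def cut_A00pp_112_s1 : Cut := Cut.of [[⟨4, 0, 0, 1449551462⟩]]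

noncomputable def f_A00pp_112_s1 : ℕ → ℕ → ℕ → ℕ → Bool := onCell 536870912 536870912 536870912 536870912 587336777 62277027
    (rowF 0 true true true .dn 1 1 2 (qsf 536870912 536870912 536870912 536870912 2) ndB0q1 ndB0q1 pcB2 cut_A00pp_112_s1 Ext.none)

def k0_A00pp_112_s1 : ∃ t, chk3 f_A00pp_112_s1 t 1 1 1 = true :=
  ⟨(l 4), by decide +kernel⟩

theorem c_A00pp_112_s1 : CertF 536870912 536870912 536870912 536870912 587336777 62277027 true true true .dn 1 1 2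
    ndB0q1 ndB0q1 pcB2 cut_A00pp_112_s1 Ext.none :=
  certF0 (fam := true) (s1 := true) (s2 := true) (a := 1) (b := 1) (c := 2) (cn := .dn) (n1 := ndB0q1) (n2 := ndB0q1) (pc := pcB2) (cut := cut_A00pp_112_s1) (xt := Ext.none) (P1 := 536870912) (W1 := 536870912) (P2 := 536870912) (W2 := 536870912) (P3 := 587336777) (W3 := 62277027)
    rfl k0_A00pp_112_s1

theorem s_A00pp_112_s1 {κ x : ℝ} (hκ : κ * h0 = ken x) (hx : ((587336777 : ℕ) : ℝ) / S ≤ x)
    (hx' : x ≤ (((587336777 : ℕ) : ℝ) + (62277027 : ℕ)) / S) :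
    AltA (VFD κ) PP tK tL pcB [⟨3, 0, 0, 1449551462⟩] 1 1 2 0 0 (sgb true) (sgb true) x :=
  strip_altAD (m := 1449551462) true rfl hκ (SH.κ0 hκ (SH.hx1 hx).le (SH.hx2 hx').le) (SH.hx1 hx).le (SH.hx2 hx') (covB01).cov (covB01).cov hx hx' c_A00pp_112_s1 cutA_nil (noExt_A)

noncomputable def cut_A00pp_112_s3 : Cut := Cut.of [[⟨3, 0, 0, 2845415833⟩]]

noncomputable def f_A00pp_112_s3 : ℕ → ℕ → ℕ → ℕ → Bool := onCell 536870912 536870912 536870912 536870912 587336777 62277027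
    (rowF 0 true true true .dn 1 1 2 (qsf 536870912 536870912 536870912 536870912 2) ndB0q1 ndB0q1 pcB2 cut_A00pp_112_s3 Ext.none)

def k0_A00pp_112_s3 : ∃ t, chk3 f_A00pp_112_s3 t 1 1 1 = true :=
  ⟨(l 4), by decide +kernel⟩

theorem c_A00pp_112_s3 : CertF 536870912 536870912 536870912 536870912 587336777 62277027 true true true .dn 1 1 2
    ndB0q1 ndB0q1 pcB2 cut_A00pp_112_s3 Ext.none :=
  certF0 (fam := true) (s1 := true) (s2 := true) (a := 1) (b := 1) (c := 2) (cn := .dn) (n1 := ndB0q1) (n2 := ndB0q1) (pc := pcB2) (cut := cut_A00pp_112_s3) (xt := Ext.none) (P1 := 536870912) (W1 := 536870912) (P2 := 536870912) (W2 := 536870912) (P3 := 587336777) (W3 := 62277027)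
    rfl k0_A00pp_112_s3

theorem s_A00pp_112_s3 {κ x : ℝ} (hκ : κ * h0 = ken x) (hx : ((587336777 : ℕ) : ℝ) / S ≤ x)
    (hx' : x ≤ (((587336777 : ℕ) : ℝ) + (62277027 : ℕ)) / S) :
    AltA (VFD κ) PP tK tL pcB [⟨4, 0, 0, 2845415833⟩] 1 1 2 0 0 (sgb true) (sgb true) x :=
  strip_altAD (m := 2845415833) false rfl hκ (SH.κ0 hκ (SH.hx1 hx).le (SH.hx2 hx').le) (SH.hx1 hx).le (SH.hx2 hx') (covB01).cov (covB01).cov hx hx' c_A00pp_112_s3 cutA_nil (noExt_A)

noncomputable def cut_A00pp_113_s1 : Cut := Cut.of [[⟨4, 0, 0, 1449551462⟩]]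

noncomputable def f_A00pp_113_s1 : ℕ → ℕ → ℕ → ℕ → Bool := onCell 536870912 536870912 536870912 536870912 587336777 62277027
    (rowF 0 true true true .nn 1 1 3 (qsf 536870912 536870912 536870912 536870912 3) ndB0q1 ndB0q1 pcB3 cut_A00pp_113_s1 Ext.none)

def k0_A00pp_113_s1 : ∃ t, chk3 f_A00pp_113_s1 t 1 1 1 = true :=
  ⟨(l 4), by decide +kernel⟩

theorem c_A00pp_113_s1 : CertF 536870912 536870912 536870912 536870912 587336777 62277027 true true true .nn 1 1 3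
    ndB0q1 ndB0q1 pcB3 cut_A00pp_113_s1 Ext.none :=
  certF0 (fam := true) (s1 := true) (s2 := true) (a := 1) (b := 1) (c := 3) (cn := .nn) (n1 := ndB0q1) (n2 := ndB0q1) (pc := pcB3) (cut := cut_A00pp_113_s1) (xt := Ext.none) (P1 := 536870912) (W1 := 536870912) (P2 := 536870912) (W2 := 536870912) (P3 := 587336777) (W3 := 62277027)
    rfl k0_A00pp_113_s1

theorem s_A00pp_113_s1 {κ x : ℝ} (hκ : κ * h0 = ken x) (hx : ((587336777 : ℕ) : ℝ) / S ≤ x)
    (hx' : x ≤ (((587336777 : ℕ) : ℝ) + (62277027 : ℕ)) / S) :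
    AltA (VFD κ) PP tK tL pcB [⟨3, 0, 0, 1449551462⟩] 1 1 3 0 0 (sgb true) (sgb true) x :=
  strip_altAD (m := 1449551462) true rfl hκ (SH.κ0 hκ (SH.hx1 hx).le (SH.hx2 hx').le) (SH.hx1 hx).le (SH.hx2 hx') (covB01).cov (covB01).cov hx hx' c_A00pp_113_s1 cutA_nil (noExt_A)

noncomputable def cut_A00pp_113_s3 : Cut := Cut.of [[⟨3, 0, 0, 2845415833⟩]]

noncomputable def f_A00pp_113_s3 : ℕ → ℕ → ℕ → ℕ → Bool := onCell 536870912 536870912 536870912 536870912 587336777 62277027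
    (rowF 0 true true true .nn 1 1 3 (qsf 536870912 536870912 536870912 536870912 3) ndB0q1 ndB0q1 pcB3 cut_A00pp_113_s3 Ext.none)

def k0_A00pp_113_s3 : ∃ t, chk3 f_A00pp_113_s3 t 1 1 1 = true :=
  ⟨(l 4), by decide +kernel⟩

theorem c_A00pp_113_s3 : CertF 536870912 536870912 536870912 536870912 587336777 62277027 true true true .nn 1 1 3
    ndB0q1 ndB0q1 pcB3 cut_A00pp_113_s3 Ext.none :=
  certF0 (fam := true) (s1 := true) (s2 := true) (a := 1) (b := 1) (c := 3) (cn := .nn) (n1 := ndB0q1) (n2 := ndB0q1) (pc := pcB3) (cut := cut_A00pp_113_s3) (xt := Ext.none) (P1 := 536870912) (W1 := 536870912) (P2 := 536870912) (W2 := 536870912) (P3 := 587336777) (W3 := 62277027)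
    rfl k0_A00pp_113_s3

theorem s_A00pp_113_s3 {κ x : ℝ} (hκ : κ * h0 = ken x) (hx : ((587336777 : ℕ) : ℝ) / S ≤ x)
    (hx' : x ≤ (((587336777 : ℕ) : ℝ) + (62277027 : ℕ)) / S) :
    AltA (VFD κ) PP tK tL pcB [⟨4, 0, 0, 2845415833⟩] 1 1 3 0 0 (sgb true) (sgb true) x :=
  strip_altAD (m := 2845415833) false rfl hκ (SH.κ0 hκ (SH.hx1 hx).le (SH.hx2 hx').le) (SH.hx1 hx).le (SH.hx2 hx') (covB01).cov (covB01).cov hx hx' c_A00pp_113_s3 cutA_nil (noExt_A)

noncomputable def cut_A00pp_123_s1 : Cut := Cut.of [[⟨4, 0, 0, 1449551462⟩]]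

noncomputable def f_A00pp_123_s1 : ℕ → ℕ → ℕ → ℕ → Bool := onCell 536870912 536870912 0 536870912 587336777 62277027
    (rowF 0 true true true .npn 1 2 3 (qsf 536870912 536870912 0 536870912 3) ndB0q1 ndB0q2 pcB3 cut_A00pp_123_s1 Ext.none)

def k0_A00pp_123_s1 : ∃ t, chk3 f_A00pp_123_s1 t 1 1 1 = true :=
  ⟨(l 6), by decide +kernel⟩

theorem c_A00pp_123_s1 : CertF 536870912 536870912 0 536870912 587336777 62277027 true true true .npn 1 2 3
    ndB0q1 ndB0q2 pcB3 cut_A00pp_123_s1 Ext.none :=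
  certF0 (fam := true) (s1 := true) (s2 := true) (a := 1) (b := 2) (c := 3) (cn := .npn) (n1 := ndB0q1) (n2 := ndB0q2) (pc := pcB3) (cut := cut_A00pp_123_s1) (xt := Ext.none) (P1 := 536870912) (W1 := 536870912) (P2 := 0) (W2 := 536870912) (P3 := 587336777) (W3 := 62277027)
    rfl k0_A00pp_123_s1

theorem s_A00pp_123_s1 {κ x : ℝ} (hκ : κ * h0 = ken x) (hx : ((587336777 : ℕ) : ℝ) / S ≤ x)
    (hx' : x ≤ (((587336777 : ℕ) : ℝ) + (62277027 : ℕ)) / S) :
    AltA (VFD κ) PP tK tL pcB [⟨3, 0, 0, 1449551462⟩] 1 2 3 0 0 (sgb true) (sgb true) x :=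
  strip_altAD (m := 1449551462) true rfl hκ (SH.κ0 hκ (SH.hx1 hx).le (SH.hx2 hx').le) (SH.hx1 hx).le (SH.hx2 hx') (covB01).cov (covB02).cov hx hx' c_A00pp_123_s1 cutA_nil (noExt_A)

noncomputable def cut_A00pp_123_s3 : Cut := Cut.of [[⟨3, 0, 0, 2845415833⟩]]

noncomputable def xt_A00pp_123_s3 : Ext := strExt0 dd true true true .u0 .u2 .s2 .npn 1 2 3 rfl rfl gl3 vv ww kz ndB0q1 ndB0q2

noncomputable def f_A00pp_123_s3 : ℕ → ℕ → ℕ → ℕ → Bool := onCell 536870912 536870912 0 536870912 587336777 62277027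
    (rowF 0 true true true .npn 1 2 3 (qsf 536870912 536870912 0 536870912 3) ndB0q1 ndB0q2 pcB3 cut_A00pp_123_s3 xt_A00pp_123_s3)

def k0_A00pp_123_s3 : ∃ t, chk3 f_A00pp_123_s3 t 1 1 1 = true :=
  ⟨(a (b (b (a (a (b (a (b (a (a (l 16754848) (l 16759016)) (a (l 1071340047) (l 1071489039))) (a (b (a (l 16763672) (l 1071073295)) (a (l 1070844431) (l 1071000591))) (b (a (l 1071224847) (l 1071371791)) (a (l 1071139855) (b (l 1071308303) (l 4)))))) (b (l 1071823375) (b (l 1071712271) (l 4)))) (a (a (b (b (a (a (l 1070729231) (l 1070809615)) (l 1070926863)) (l 4)) (l 4)) (l 4)) (l 4))) (b (a (b (l 1072211983) (l 4)) (l 4)) (l 4))) (l 4)) (l 4)) (l 4)) (l 4)), by decide +kernel⟩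

theorem c_A00pp_123_s3 : CertF 536870912 536870912 0 536870912 587336777 62277027 true true true .npn 1 2 3
    ndB0q1 ndB0q2 pcB3 cut_A00pp_123_s3 xt_A00pp_123_s3 :=
  certF0 (fam := true) (s1 := true) (s2 := true) (a := 1) (b := 2) (c := 3) (cn := .npn) (n1 := ndB0q1) (n2 := ndB0q2) (pc := pcB3) (cut := cut_A00pp_123_s3) (xt := xt_A00pp_123_s3) (P1 := 536870912) (W1 := 536870912) (P2 := 0) (W2 := 536870912) (P3 := 587336777) (W3 := 62277027)
    rfl k0_A00pp_123_s3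

theorem s_A00pp_123_s3 {κ x : ℝ} (hκ : κ * h0 = ken x) (hx : ((587336777 : ℕ) : ℝ) / S ≤ x)
    (hx' : x ≤ (((587336777 : ℕ) : ℝ) + (62277027 : ℕ)) / S) :
    AltA (VFD κ) PP tK tL pcB [⟨4, 0, 0, 2845415833⟩] 1 2 3 0 0 (sgb true) (sgb true) x :=
  strip_altAD (m := 2845415833) false rfl hκ (SH.κ0 hκ (SH.hx1 hx).le (SH.hx2 hx').le) (SH.hx1 hx).le (SH.hx2 hx') (covB01).cov (covB02).cov hx hx' c_A00pp_123_s3 cutA_nil ((okx6 hx hx').ext0A (T := tt) (zx hx hx') (okx hx hx') (sideB hx hx') hκ rfl rfl (.O 1 true) (.O 2 true) (Or.inr rfl))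

noncomputable def cut_A00pp_202_s1 : Cut := Cut.of [[⟨4, 0, 0, 1449551462⟩]]

noncomputable def f_A00pp_202_s1 : ℕ → ℕ → ℕ → ℕ → Bool := onCell 0 536870912 0 536870912 587336777 62277027
    (rowF 0 true true true .pp 2 0 2 (qsf 0 536870912 0 536870912 2) ndB0q2 ndB0q0 pcB2 cut_A00pp_202_s1 Ext.none)

def k0_A00pp_202_s1 : ∃ t, chk3 f_A00pp_202_s1 t 1 1 1 = true :=
  ⟨(l 5), by decide +kernel⟩

theorem c_A00pp_202_s1 : CertF 0 536870912 0 536870912 587336777 62277027 true true true .pp 2 0 2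
    ndB0q2 ndB0q0 pcB2 cut_A00pp_202_s1 Ext.none :=
  certF0 (fam := true) (s1 := true) (s2 := true) (a := 2) (b := 0) (c := 2) (cn := .pp) (n1 := ndB0q2) (n2 := ndB0q0) (pc := pcB2) (cut := cut_A00pp_202_s1) (xt := Ext.none) (P1 := 0) (W1 := 536870912) (P2 := 0) (W2 := 536870912) (P3 := 587336777) (W3 := 62277027)
    rfl k0_A00pp_202_s1

theorem s_A00pp_202_s1 {κ x : ℝ} (hκ : κ * h0 = ken x) (hx : ((587336777 : ℕ) : ℝ) / S ≤ x)
    (hx' : x ≤ (((587336777 : ℕ) : ℝ) + (62277027 : ℕ)) / S) :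
    AltA (VFD κ) PP tK tL pcB [⟨3, 0, 0, 1449551462⟩] 2 0 2 0 0 (sgb true) (sgb true) x :=
  strip_altAD (m := 1449551462) true rfl hκ (SH.κ0 hκ (SH.hx1 hx).le (SH.hx2 hx').le) (SH.hx1 hx).le (SH.hx2 hx') (covB02).cov (covB00).cov hx hx' c_A00pp_202_s1 cutA_nil (noExt_A)

noncomputable def cut_A00pp_202_s3 : Cut := Cut.of [[⟨3, 0, 0, 2845415833⟩]]

noncomputable def f_A00pp_202_s3 : ℕ → ℕ → ℕ → ℕ → Bool := onCell 0 536870912 0 536870912 587336777 62277027
    (rowF 0 true true true .pp 2 0 2 (qsf 0 536870912 0 536870912 2) ndB0q2 ndB0q0 pcB2 cut_A00pp_202_s3 Ext.none)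

def k0_A00pp_202_s3 : ∃ t, chk3 f_A00pp_202_s3 t 1 1 1 = true :=
  ⟨(l 5), by decide +kernel⟩

theorem c_A00pp_202_s3 : CertF 0 536870912 0 536870912 587336777 62277027 true true true .pp 2 0 2
    ndB0q2 ndB0q0 pcB2 cut_A00pp_202_s3 Ext.none :=
  certF0 (fam := true) (s1 := true) (s2 := true) (a := 2) (b := 0) (c := 2) (cn := .pp) (n1 := ndB0q2) (n2 := ndB0q0) (pc := pcB2) (cut := cut_A00pp_202_s3) (xt := Ext.none) (P1 := 0) (W1 := 536870912) (P2 := 0) (W2 := 536870912) (P3 := 587336777) (W3 := 62277027)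
    rfl k0_A00pp_202_s3

theorem s_A00pp_202_s3 {κ x : ℝ} (hκ : κ * h0 = ken x) (hx : ((587336777 : ℕ) : ℝ) / S ≤ x)
    (hx' : x ≤ (((587336777 : ℕ) : ℝ) + (62277027 : ℕ)) / S) :
    AltA (VFD κ) PP tK tL pcB [⟨4, 0, 0, 2845415833⟩] 2 0 2 0 0 (sgb true) (sgb true) x :=
  strip_altAD (m := 2845415833) false rfl hκ (SH.κ0 hκ (SH.hx1 hx).le (SH.hx2 hx').le) (SH.hx1 hx).le (SH.hx2 hx') (covB02).cov (covB00).cov hx hx' c_A00pp_202_s3 cutA_nil (noExt_A)

noncomputable def cut_A00pp_203_s1 : Cut := Cut.of [[⟨4, 0, 0, 1449551462⟩]]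

noncomputable def f_A00pp_203_s1 : ℕ → ℕ → ℕ → ℕ → Bool := onCell 0 536870912 0 536870912 587336777 62277027
    (rowF 0 true true true .up 2 0 3 (qsf 0 536870912 0 536870912 3) ndB0q2 ndB0q0 pcB3 cut_A00pp_203_s1 Ext.none)

def k0_A00pp_203_s1 : ∃ t, chk3 f_A00pp_203_s1 t 1 1 1 = true :=
  ⟨(l 5), by decide +kernel⟩

theorem c_A00pp_203_s1 : CertF 0 536870912 0 536870912 587336777 62277027 true true true .up 2 0 3
    ndB0q2 ndB0q0 pcB3 cut_A00pp_203_s1 Ext.none :=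
  certF0 (fam := true) (s1 := true) (s2 := true) (a := 2) (b := 0) (c := 3) (cn := .up) (n1 := ndB0q2) (n2 := ndB0q0) (pc := pcB3) (cut := cut_A00pp_203_s1) (xt := Ext.none) (P1 := 0) (W1 := 536870912) (P2 := 0) (W2 := 536870912) (P3 := 587336777) (W3 := 62277027)
    rfl k0_A00pp_203_s1

theorem s_A00pp_203_s1 {κ x : ℝ} (hκ : κ * h0 = ken x) (hx : ((587336777 : ℕ) : ℝ) / S ≤ x)
    (hx' : x ≤ (((587336777 : ℕ) : ℝ) + (62277027 : ℕ)) / S) :
    AltA (VFD κ) PP tK tL pcB [⟨3, 0, 0, 1449551462⟩] 2 0 3 0 0 (sgb true) (sgb true) x :=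
  strip_altAD (m := 1449551462) true rfl hκ (SH.κ0 hκ (SH.hx1 hx).le (SH.hx2 hx').le) (SH.hx1 hx).le (SH.hx2 hx') (covB02).cov (covB00).cov hx hx' c_A00pp_203_s1 cutA_nil (noExt_A)

noncomputable def cut_A00pp_203_s3 : Cut := Cut.of [[⟨3, 0, 0, 2845415833⟩]]

noncomputable def f_A00pp_203_s3 : ℕ → ℕ → ℕ → ℕ → Bool := onCell 0 536870912 0 536870912 587336777 62277027
    (rowF 0 true true true .up 2 0 3 (qsf 0 536870912 0 536870912 3) ndB0q2 ndB0q0 pcB3 cut_A00pp_203_s3 Ext.none)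

def k0_A00pp_203_s3 : ∃ t, chk3 f_A00pp_203_s3 t 1 1 1 = true :=
  ⟨(l 5), by decide +kernel⟩

theorem c_A00pp_203_s3 : CertF 0 536870912 0 536870912 587336777 62277027 true true true .up 2 0 3
    ndB0q2 ndB0q0 pcB3 cut_A00pp_203_s3 Ext.none :=
  certF0 (fam := true) (s1 := true) (s2 := true) (a := 2) (b := 0) (c := 3) (cn := .up) (n1 := ndB0q2) (n2 := ndB0q0) (pc := pcB3) (cut := cut_A00pp_203_s3) (xt := Ext.none) (P1 := 0) (W1 := 536870912) (P2 := 0) (W2 := 536870912) (P3 := 587336777) (W3 := 62277027)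
    rfl k0_A00pp_203_s3

theorem s_A00pp_203_s3 {κ x : ℝ} (hκ : κ * h0 = ken x) (hx : ((587336777 : ℕ) : ℝ) / S ≤ x)
    (hx' : x ≤ (((587336777 : ℕ) : ℝ) + (62277027 : ℕ)) / S) :
    AltA (VFD κ) PP tK tL pcB [⟨4, 0, 0, 2845415833⟩] 2 0 3 0 0 (sgb true) (sgb true) x :=
  strip_altAD (m := 2845415833) false rfl hκ (SH.κ0 hκ (SH.hx1 hx).le (SH.hx2 hx').le) (SH.hx1 hx).le (SH.hx2 hx') (covB02).cov (covB00).cov hx hx' c_A00pp_203_s3 cutA_nil (noExt_A)

noncomputable def cut_A00pp_213_s1 : Cut := Cut.of [[⟨4, 0, 0, 1449551462⟩]]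

noncomputable def f_A00pp_213_s1 : ℕ → ℕ → ℕ → ℕ → Bool := onCell 0 536870912 536870912 536870912 587336777 62277027
    (rowF 0 true true true .pnn 2 1 3 (qsf 0 536870912 536870912 536870912 3) ndB0q2 ndB0q1 pcB3 cut_A00pp_213_s1 Ext.none)

def k0_A00pp_213_s1 : ∃ t, chk3 f_A00pp_213_s1 t 1 1 1 = true :=
  ⟨(l 6), by decide +kernel⟩

theorem c_A00pp_213_s1 : CertF 0 536870912 536870912 536870912 587336777 62277027 true true true .pnn 2 1 3
    ndB0q2 ndB0q1 pcB3 cut_A00pp_213_s1 Ext.none :=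
  certF0 (fam := true) (s1 := true) (s2 := true) (a := 2) (b := 1) (c := 3) (cn := .pnn) (n1 := ndB0q2) (n2 := ndB0q1) (pc := pcB3) (cut := cut_A00pp_213_s1) (xt := Ext.none) (P1 := 0) (W1 := 536870912) (P2 := 536870912) (W2 := 536870912) (P3 := 587336777) (W3 := 62277027)
    rfl k0_A00pp_213_s1

theorem s_A00pp_213_s1 {κ x : ℝ} (hκ : κ * h0 = ken x) (hx : ((587336777 : ℕ) : ℝ) / S ≤ x)
    (hx' : x ≤ (((587336777 : ℕ) : ℝ) + (62277027 : ℕ)) / S) :
    AltA (VFD κ) PP tK tL pcB [⟨3, 0, 0, 1449551462⟩] 2 1 3 0 0 (sgb true) (sgb true) x :=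
  strip_altAD (m := 1449551462) true rfl hκ (SH.κ0 hκ (SH.hx1 hx).le (SH.hx2 hx').le) (SH.hx1 hx).le (SH.hx2 hx') (covB02).cov (covB01).cov hx hx' c_A00pp_213_s1 cutA_nil (noExt_A)

noncomputable def cut_A00pp_213_s3 : Cut := Cut.of [[⟨3, 0, 0, 2845415833⟩]]

noncomputable def f_A00pp_213_s3 : ℕ → ℕ → ℕ → ℕ → Bool := onCell 0 536870912 536870912 536870912 587336777 62277027
    (rowF 0 true true true .pnn 2 1 3 (qsf 0 536870912 536870912 536870912 3) ndB0q2 ndB0q1 pcB3 cut_A00pp_213_s3 Ext.none)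

def k0_A00pp_213_s3 : ∃ t, chk3 f_A00pp_213_s3 t 1 1 1 = true :=
  ⟨(a (l 5) (l 4)), by decide +kernel⟩

theorem c_A00pp_213_s3 : CertF 0 536870912 536870912 536870912 587336777 62277027 true true true .pnn 2 1 3
    ndB0q2 ndB0q1 pcB3 cut_A00pp_213_s3 Ext.none :=
  certF0 (fam := true) (s1 := true) (s2 := true) (a := 2) (b := 1) (c := 3) (cn := .pnn) (n1 := ndB0q2) (n2 := ndB0q1) (pc := pcB3) (cut := cut_A00pp_213_s3) (xt := Ext.none) (P1 := 0) (W1 := 536870912) (P2 := 536870912) (W2 := 536870912) (P3 := 587336777) (W3 := 62277027)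
    rfl k0_A00pp_213_s3

theorem s_A00pp_213_s3 {κ x : ℝ} (hκ : κ * h0 = ken x) (hx : ((587336777 : ℕ) : ℝ) / S ≤ x)
    (hx' : x ≤ (((587336777 : ℕ) : ℝ) + (62277027 : ℕ)) / S) :
    AltA (VFD κ) PP tK tL pcB [⟨4, 0, 0, 2845415833⟩] 2 1 3 0 0 (sgb true) (sgb true) x :=
  strip_altAD (m := 2845415833) false rfl hκ (SH.κ0 hκ (SH.hx1 hx).le (SH.hx2 hx').le) (SH.hx1 hx).le (SH.hx2 hx') (covB02).cov (covB01).cov hx hx' c_A00pp_213_s3 cutA_nil (noExt_A)

noncomputable def cut_A00pm_001_s1 : Cut := Cut.of [[⟨4, 0, 0, 1449551462⟩]]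

noncomputable def f_A00pm_001_s1 : ℕ → ℕ → ℕ → ℕ → Bool := onCell 0 536870912 0 536870912 587336777 62277027
    (rowF 0 true true false .up 0 0 1 (qsf 0 536870912 0 536870912 1) ndB0q0 ndB0q0 pcB1 cut_A00pm_001_s1 Ext.none)

def k0_A00pm_001_s1 : ∃ t, chk3 f_A00pm_001_s1 t 1 1 1 = true :=
  ⟨(l 3), by decide +kernel⟩

theorem c_A00pm_001_s1 : CertF 0 536870912 0 536870912 587336777 62277027 true true false .up 0 0 1
    ndB0q0 ndB0q0 pcB1 cut_A00pm_001_s1 Ext.none :=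
  certF0 (fam := true) (s1 := true) (s2 := false) (a := 0) (b := 0) (c := 1) (cn := .up) (n1 := ndB0q0) (n2 := ndB0q0) (pc := pcB1) (cut := cut_A00pm_001_s1) (xt := Ext.none) (P1 := 0) (W1 := 536870912) (P2 := 0) (W2 := 536870912) (P3 := 587336777) (W3 := 62277027)
    rfl k0_A00pm_001_s1

theorem s_A00pm_001_s1 {κ x : ℝ} (hκ : κ * h0 = ken x) (hx : ((587336777 : ℕ) : ℝ) / S ≤ x)
    (hx' : x ≤ (((587336777 : ℕ) : ℝ) + (62277027 : ℕ)) / S) :
    AltA (VFD κ) PP tK tL pcB [⟨3, 0, 0, 1449551462⟩] 0 0 1 0 0 (sgb true) (sgb false) x :=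
  strip_altAD (m := 1449551462) true rfl hκ (SH.κ0 hκ (SH.hx1 hx).le (SH.hx2 hx').le) (SH.hx1 hx).le (SH.hx2 hx') (covB00).cov (covB00).cov hx hx' c_A00pm_001_s1 cutA_nil (noExt_A)

noncomputable def cut_A00pm_001_s3 : Cut := Cut.of [[⟨3, 0, 0, 2845415833⟩]]

noncomputable def f_A00pm_001_s3 : ℕ → ℕ → ℕ → ℕ → Bool := onCell 0 536870912 0 536870912 587336777 62277027
    (rowF 0 true true false .up 0 0 1 (qsf 0 536870912 0 536870912 1) ndB0q0 ndB0q0 pcB1 cut_A00pm_001_s3 Ext.none)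

def k0_A00pm_001_s3 : ∃ t, chk3 f_A00pm_001_s3 t 1 1 1 = true :=
  ⟨(l 3), by decide +kernel⟩

theorem c_A00pm_001_s3 : CertF 0 536870912 0 536870912 587336777 62277027 true true false .up 0 0 1
    ndB0q0 ndB0q0 pcB1 cut_A00pm_001_s3 Ext.none :=
  certF0 (fam := true) (s1 := true) (s2 := false) (a := 0) (b := 0) (c := 1) (cn := .up) (n1 := ndB0q0) (n2 := ndB0q0) (pc := pcB1) (cut := cut_A00pm_001_s3) (xt := Ext.none) (P1 := 0) (W1 := 536870912) (P2 := 0) (W2 := 536870912) (P3 := 587336777) (W3 := 62277027)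
    rfl k0_A00pm_001_s3

theorem s_A00pm_001_s3 {κ x : ℝ} (hκ : κ * h0 = ken x) (hx : ((587336777 : ℕ) : ℝ) / S ≤ x)
    (hx' : x ≤ (((587336777 : ℕ) : ℝ) + (62277027 : ℕ)) / S) :
    AltA (VFD κ) PP tK tL pcB [⟨4, 0, 0, 2845415833⟩] 0 0 1 0 0 (sgb true) (sgb false) x :=
  strip_altAD (m := 2845415833) false rfl hκ (SH.κ0 hκ (SH.hx1 hx).le (SH.hx2 hx').le) (SH.hx1 hx).le (SH.hx2 hx') (covB00).cov (covB00).cov hx hx' c_A00pm_001_s3 cutA_nil (noExt_A)

noncomputable def cut_A00pm_011_s1 : Cut := Cut.of [[⟨4, 0, 0, 1449551462⟩], [⟨0, 0, 0, 67108864⟩, ⟨1, 1, 0, 67108864⟩, ⟨2, 1, 0, 67108864⟩]]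

noncomputable def f_A00pm_011_s1 : ℕ → ℕ → ℕ → ℕ → Bool := onCell 536870912 536870912 536870912 536870912 587336777 62277027
    (rowF 2 true true false .pnn 0 1 1 (qsf 0 536870912 536870912 536870912 1) ndB0q0 ndB0q1 pcB1 cut_A00pm_011_s1 Ext.none)

def k0_A00pm_011_s1 : ∃ t, chk3 f_A00pm_011_s1 t 1 1 1 = true :=
  ⟨(a (l 3) (b (l 3) (a (l 3) (b (l 3) (a (l 3) (b (l 3) (a (l 3) (b (l 3) (l 14))))))))), by decide +kernel⟩

theorem c_A00pm_011_s1 : CertF 0 536870912 536870912 536870912 587336777 62277027 true true false .pnn 0 1 1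
    ndB0q0 ndB0q1 pcB1 cut_A00pm_011_s1 Ext.none :=
  certF2 (fam := true) (s1 := true) (s2 := false) (a := 0) (b := 1) (c := 1) (cn := .pnn) (n1 := ndB0q0) (n2 := ndB0q1) (pc := pcB1) (cut := cut_A00pm_011_s1) (xt := Ext.none) (P1 := 0) (W1 := 536870912) (P2 := 536870912) (W2 := 536870912) (P3 := 587336777) (W3 := 62277027)
    rfl (fun _ => rfl) k0_A00pm_011_s1

theorem s_A00pm_011_s1 {κ x : ℝ} (hκ : κ * h0 = ken x) (hx : ((587336777 : ℕ) : ℝ) / S ≤ x)
    (hx' : x ≤ (((587336777 : ℕ) : ℝ) + (62277027 : ℕ)) / S)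
    (H : CutA (VFD κ) PP tK tL pcB (Cut.of [[⟨0, 0, 0, 67108864⟩, ⟨1, 1, 0, 67108864⟩, ⟨2, 1, 0, 67108864⟩]]) 0 1 1 0 0 (sgb true) (sgb false) x) :
    AltA (VFD κ) PP tK tL pcB [⟨3, 0, 0, 1449551462⟩] 0 1 1 0 0 (sgb true) (sgb false) x :=
  strip_altAD (m := 1449551462) true rfl hκ (SH.κ0 hκ (SH.hx1 hx).le (SH.hx2 hx').le) (SH.hx1 hx).le (SH.hx2 hx') (covB00).cov (covB01).cov hx hx' c_A00pm_011_s1 H (noExt_A)

noncomputable def cut_A00pm_011_s3 : Cut := Cut.of [[⟨3, 0, 0, 2845415833⟩], [⟨0, 0, 0, 67108864⟩, ⟨1, 1, 0, 67108864⟩, ⟨2, 1, 0, 67108864⟩]]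

noncomputable def f_A00pm_011_s3 : ℕ → ℕ → ℕ → ℕ → Bool := onCell 0 536870912 536870912 536870912 587336777 62277027
    (rowF 0 true true false .pnn 0 1 1 (qsf 0 536870912 536870912 536870912 1) ndB0q0 ndB0q1 pcB1 cut_A00pm_011_s3 Ext.none)

def k0_A00pm_011_s3 : ∃ t, chk3 f_A00pm_011_s3 t 1 1 1 = true :=
  ⟨(l 6), by decide +kernel⟩

theorem c_A00pm_011_s3 : CertF 0 536870912 536870912 536870912 587336777 62277027 true true false .pnn 0 1 1
    ndB0q0 ndB0q1 pcB1 cut_A00pm_011_s3 Ext.none :=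
  certF0 (fam := true) (s1 := true) (s2 := false) (a := 0) (b := 1) (c := 1) (cn := .pnn) (n1 := ndB0q0) (n2 := ndB0q1) (pc := pcB1) (cut := cut_A00pm_011_s3) (xt := Ext.none) (P1 := 0) (W1 := 536870912) (P2 := 536870912) (W2 := 536870912) (P3 := 587336777) (W3 := 62277027)
    rfl k0_A00pm_011_s3

theorem s_A00pm_011_s3 {κ x : ℝ} (hκ : κ * h0 = ken x) (hx : ((587336777 : ℕ) : ℝ) / S ≤ x)
    (hx' : x ≤ (((587336777 : ℕ) : ℝ) + (62277027 : ℕ)) / S)
    (H : CutA (VFD κ) PP tK tL pcB (Cut.of [[⟨0, 0, 0, 67108864⟩, ⟨1, 1, 0, 67108864⟩, ⟨2, 1, 0, 67108864⟩]]) 0 1 1 0 0 (sgb true) (sgb false) x) :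
    AltA (VFD κ) PP tK tL pcB [⟨4, 0, 0, 2845415833⟩] 0 1 1 0 0 (sgb true) (sgb false) x :=
  strip_altAD (m := 2845415833) false rfl hκ (SH.κ0 hκ (SH.hx1 hx).le (SH.hx2 hx').le) (SH.hx1 hx).le (SH.hx2 hx') (covB00).cov (covB01).cov hx hx' c_A00pm_011_s3 H (noExt_A)

noncomputable def cut_A00pm_012_s3 : Cut := Cut.of [[⟨3, 0, 0, 2845415833⟩], [⟨0, 0, 0, 67108864⟩, ⟨1, 1, 0, 67108864⟩, ⟨2, 1, 0, 67108864⟩]]

noncomputable def f_A00pm_012_s3 : ℕ → ℕ → ℕ → ℕ → Bool := onCell 0 536870912 536870912 536870912 587336777 62277027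
    (rowF 0 true true false .pnp 0 1 2 (qsf 0 536870912 536870912 536870912 2) ndB0q0 ndB0q1 pcB2 cut_A00pm_012_s3 Ext.none)

def k0_A00pm_012_s3 : ∃ t, chk3 f_A00pm_012_s3 t 1 1 1 = true :=
  ⟨(l 6), by decide +kernel⟩

theorem c_A00pm_012_s3 : CertF 0 536870912 536870912 536870912 587336777 62277027 true true false .pnp 0 1 2
    ndB0q0 ndB0q1 pcB2 cut_A00pm_012_s3 Ext.none :=
  certF0 (fam := true) (s1 := true) (s2 := false) (a := 0) (b := 1) (c := 2) (cn := .pnp) (n1 := ndB0q0) (n2 := ndB0q1) (pc := pcB2) (cut := cut_A00pm_012_s3) (xt := Ext.none) (P1 := 0) (W1 := 536870912) (P2 := 536870912) (W2 := 536870912) (P3 := 587336777) (W3 := 62277027)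
    rfl k0_A00pm_012_s3

theorem s_A00pm_012_s3 {κ x : ℝ} (hκ : κ * h0 = ken x) (hx : ((587336777 : ℕ) : ℝ) / S ≤ x)
    (hx' : x ≤ (((587336777 : ℕ) : ℝ) + (62277027 : ℕ)) / S)
    (H : CutA (VFD κ) PP tK tL pcB (Cut.of [[⟨0, 0, 0, 67108864⟩, ⟨1, 1, 0, 67108864⟩, ⟨2, 1, 0, 67108864⟩]]) 0 1 2 0 0 (sgb true) (sgb false) x) :
    AltA (VFD κ) PP tK tL pcB [⟨4, 0, 0, 2845415833⟩] 0 1 2 0 0 (sgb true) (sgb false) x :=
  strip_altAD (m := 2845415833) false rfl hκ (SH.κ0 hκ (SH.hx1 hx).le (SH.hx2 hx').le) (SH.hx1 hx).le (SH.hx2 hx') (covB00).cov (covB01).cov hx hx' c_A00pm_012_s3 H (noExt_A)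

noncomputable def cut_A00pm_022_s1 : Cut := Cut.of [[⟨4, 0, 0, 1449551462⟩], [⟨0, 0, 0, 67108864⟩, ⟨1, 1, 0, 67108864⟩, ⟨2, 1, 0, 67108864⟩]]

noncomputable def f_A00pm_022_s1 : ℕ → ℕ → ℕ → ℕ → Bool := onCell 1073741824 536870912 0 536870912 587336777 62277027
    (rowF 2 true true false .pp 0 2 2 (qsf 0 536870912 0 536870912 2) ndB0q0 ndB0q2 pcB2 cut_A00pm_022_s1 Ext.none)

def k0_A00pm_022_s1 : ∃ t, chk3 f_A00pm_022_s1 t 4 1 1 = true :=
  ⟨(b (a (l 1) (l 6)) (a (a (b (l 1) (b (l 1) (l 14))) (a (b (l 1) (b (b (l 1) (l 14)) (l 14))) (a (b (l 1) (b (b (l 1) (l 14)) (l 14))) (b (l 1) (b (b (b (l 1) (l 16645720)) (b (l 16658384) (l 16670600))) (a (l 14) (b (b (l 16680912) (l 16692096)) (b (l 16699872) (b (l 16704864) (l 16707920)))))))))) (b (a (b (l 1) (b (a (l 1) (a (l 34392921015) (b (l 16573336) (l 16584848)))) (a (b (l 16602296) (l 16615128)) (b (a (l 16598848) (l 16596184)) (l 16608960))))) (b (l 6) (b (a (b (c (l 16574608)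 (l 89153714615)) (l 16581384)) (l 6)) (a (b (l 16591744) (l 16685768)) (c (l 16591096) (l 16587632)))))) (b (a (b (a (b (l 53720367335) (a (l 16641720) (l 16637512))) (b (l 16620064) (l 16630832))) (a (b (a (l 16653704) (l 16648856)) (l 16667800)) (c (l 16668248) (l 16645248)))) (b (a (b (l 16611760) (l 16621368)) (l 16607200)) (a (l 16677280) (l 16664496)))) (b (a (b (a (l 16689152) (l 16660424)) (a (l 16703784) (l 16709424))) (a (b (l 16646080) (b (l 16651040) (l 16654216))) (b (l 16632384) (l 16680408)))) (a (b (a (c (b (l 16688472) (l 16692120)) (l 16700024)) (b (l 16672440) (l 16696528))) (b (a (b (l 16714816) (l 16716336)) (a (l 16682440) (l 16674488))) (a (b (a (l 16700944) (l 16692688)) (a (l 16702360) (l 16694040))) (a (a (l 16687200) (l 16683136)) (l 16687584))))) (b (a (b (l 16657264) (l 16660128)) (b (l 16642680) (l 16645288))) (b (c (a (l 16664744) (l 16650136)) (a (l 16661112) (l 16645504))) (a (a (a (l 16671104)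 (l 16667136)) (a (l 16663224) (l 16659352))) (a (l 16674576) (l 16667008))))))))))), by decide +kernel⟩

def k1_A00pm_022_s1 : ∃ t, chk3 f_A00pm_022_s1 t 5 2 1 = true :=
  ⟨(l 6), by decide +kernel⟩

def k2_A00pm_022_s1 : ∃ t, chk3 f_A00pm_022_s1 t 5 6 1 = true :=
  ⟨(a (a (b (l 6) (a (b (l 6) (l 16581824)) (l 6))) (l 6)) (l 6)), by decide +kernel⟩

def k3_A00pm_022_s1 : ∃ t, chk3 f_A00pm_022_s1 t 10 14 1 = true :=
  ⟨(a (a (b (l 16596984) (l 16652240)) (a (b (l 16589072) (l 16601528)) (a (b (l 16585272) (l 16597288)) (a (b (l 16583400) (l 16595192)) (b (l 16582160) (l 16593800)))))) (b (a (l 6) (l 6)) (a (l 16587608) (l 16660744)))), by decide +kernel⟩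

def k4_A00pm_022_s1 : ∃ t, chk3 f_A00pm_022_s1 t 10 15 1 = true :=
  ⟨(a (b (a (b (l 16619336) (l 16666816)) (a (b (l 16609928) (l 16615024)) (a (b (l 16605344) (l 16610216)) (a (a (l 16605976) (l 16605200)) (a (b (l 16643888) (b (l 16647432) (l 16639160))) (l 16603640)))))) (a (b (b (l 16628664) (l 16672936)) (b (a (l 16636680) (l 16629512)) (a (l 16659568) (l 16652248)))) (a (b (l 16619576) (b (l 16622456) (a (l 16625856) (l 16622272)))) (c (b (a (l 16617320) (a (l 16614688) (a (a (a (l 16613632) (a (l 16613416) (l 16613224))) (l 16612968)) (l 16612360)))) (b (a (l 16620368) (a (l 16617624) (a (a (a (l 16616520) (a (l 16616280) (l 16616080))) (l 16615816)) (l 16615184)))) (a (l 16622120) (a (a (l 16619816) (l 16618816)) (a (a (a (l 16618152) (a (l 16617912) (a (a (l 16617784) (b (l 16617328) (l 16618072))) (l 16617672)))) (l 16617432)) (l 16616776)))))) (b (a (l 16611888) (a (l 16609432) (a (a (a (l 16608560) (a (l 16608448)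 (l 16608408))) (l 16608136)) (l 16607480)))) (a (b (l 16614160) (l 16615328)) (a (b (l 16611624) (a (l 16613128) (l 16612296))) (a (a (a (b (l 16610720) (l 16611800)) (b (a (l 16610600) (l 16610568)) (a (l 16611680) (a (a (l 16611656) (b (l 16611416) (l 16611872))) (l 16611616))))) (b (l 16610280) (l 16611352))) (b (l 16609600) (l 16610656)))))))))) (b (a (b (l 16594808) (l 16641040)) (b (l 16583064) (l 16586664))) (b (a (a (l 16606120) (l 16599528)) (l 16589672)) (a (b (a (l 16608480) (l 16601616)) (a (a (a (l 16612408) (l 16610616)) (l 16607952)) (a (l 16604424) (l 16621912)))) (b (l 16591360) (a (l 16595664) (l 16588672))))))), by decide +kernel⟩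

def k5_A00pm_022_s1 : ∃ t, chk3 f_A00pm_022_s1 t 11 7 1 = true :=
  ⟨(b (l 6) (b (a (a (l 16635920) (l 6)) (l 6)) (b (a (c (l 16615816) (l 16651024)) (l 6)) (a (a (a (l 16581568) (l 16574872)) (l 16607016)) (a (l 16552528) (l 6)))))), by decide +kernel⟩

def k6_A00pm_022_s1 : ∃ t, chk3 f_A00pm_022_s1 t 3 1 1 = true :=
  ⟨(b (l 6) (l 6)), by decide +kernel⟩

theorem t7_A00pm_022_s1 : ∃ t, chk3 f_A00pm_022_s1 t 10 7 1 = true := ex3_b k3_A00pm_022_s1 k4_A00pm_022_s1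

theorem t8_A00pm_022_s1 : ∃ t, chk3 f_A00pm_022_s1 t 5 7 1 = true := ex3_a t7_A00pm_022_s1 k5_A00pm_022_s1

theorem t9_A00pm_022_s1 : ∃ t, chk3 f_A00pm_022_s1 t 5 3 1 = true := ex3_b k2_A00pm_022_s1 t8_A00pm_022_s1

theorem t10_A00pm_022_s1 : ∃ t, chk3 f_A00pm_022_s1 t 5 1 1 = true := ex3_b k1_A00pm_022_s1 t9_A00pm_022_s1

theorem t11_A00pm_022_s1 : ∃ t, chk3 f_A00pm_022_s1 t 2 1 1 = true := ex3_a k0_A00pm_022_s1 t10_A00pm_022_s1

theorem t12_A00pm_022_s1 : ∃ t, chk3 f_A00pm_022_s1 t 1 1 1 = true := ex3_a t11_A00pm_022_s1 k6_A00pm_022_s1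

theorem c_A00pm_022_s1 : CertF 0 536870912 0 536870912 587336777 62277027 true true false .pp 0 2 2
    ndB0q0 ndB0q2 pcB2 cut_A00pm_022_s1 Ext.none :=
  certF2 (fam := true) (s1 := true) (s2 := false) (a := 0) (b := 2) (c := 2) (cn := .pp) (n1 := ndB0q0) (n2 := ndB0q2) (pc := pcB2) (cut := cut_A00pm_022_s1) (xt := Ext.none) (P1 := 0) (W1 := 536870912) (P2 := 0) (W2 := 536870912) (P3 := 587336777) (W3 := 62277027)
    rfl (fun _ => rfl) t12_A00pm_022_s1

theorem s_A00pm_022_s1 {κ x : ℝ} (hκ : κ * h0 = ken x) (hx : ((587336777 : ℕ) : ℝ) / S ≤ x)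
    (hx' : x ≤ (((587336777 : ℕ) : ℝ) + (62277027 : ℕ)) / S)
    (H : CutA (VFD κ) PP tK tL pcB (Cut.of [[⟨0, 0, 0, 67108864⟩, ⟨1, 1, 0, 67108864⟩, ⟨2, 1, 0, 67108864⟩]]) 0 2 2 0 0 (sgb true) (sgb false) x) :
    AltA (VFD κ) PP tK tL pcB [⟨3, 0, 0, 1449551462⟩] 0 2 2 0 0 (sgb true) (sgb false) x :=
  strip_altAD (m := 1449551462) true rfl hκ (SH.κ0 hκ (SH.hx1 hx).le (SH.hx2 hx').le) (SH.hx1 hx).le (SH.hx2 hx') (covB00).cov (covB02).cov hx hx' c_A00pm_022_s1 H (noExt_A)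

noncomputable def cut_A00pm_022_s3 : Cut := Cut.of [[⟨3, 0, 0, 2845415833⟩], [⟨0, 0, 0, 67108864⟩, ⟨1, 1, 0, 67108864⟩, ⟨2, 1, 0, 67108864⟩]]

noncomputable def f_A00pm_022_s3 : ℕ → ℕ → ℕ → ℕ → Bool := onCell 1073741824 536870912 0 536870912 587336777 62277027
    (rowF 2 true true false .pp 0 2 2 (qsf 0 536870912 0 536870912 2) ndB0q0 ndB0q2 pcB2 cut_A00pm_022_s3 Ext.none)

def k0_A00pm_022_s3 : ∃ t, chk3 f_A00pm_022_s3 t 1 1 1 = true :=
  ⟨(a (l 6) (b (l 6) (l 6))), by decide +kernel⟩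

theorem c_A00pm_022_s3 : CertF 0 536870912 0 536870912 587336777 62277027 true true false .pp 0 2 2
    ndB0q0 ndB0q2 pcB2 cut_A00pm_022_s3 Ext.none :=
  certF2 (fam := true) (s1 := true) (s2 := false) (a := 0) (b := 2) (c := 2) (cn := .pp) (n1 := ndB0q0) (n2 := ndB0q2) (pc := pcB2) (cut := cut_A00pm_022_s3) (xt := Ext.none) (P1 := 0) (W1 := 536870912) (P2 := 0) (W2 := 536870912) (P3 := 587336777) (W3 := 62277027)
    rfl (fun _ => rfl) k0_A00pm_022_s3

theorem s_A00pm_022_s3 {κ x : ℝ} (hκ : κ * h0 = ken x) (hx : ((587336777 : ℕ) : ℝ) / S ≤ x)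
    (hx' : x ≤ (((587336777 : ℕ) : ℝ) + (62277027 : ℕ)) / S)
    (H : CutA (VFD κ) PP tK tL pcB (Cut.of [[⟨0, 0, 0, 67108864⟩, ⟨1, 1, 0, 67108864⟩, ⟨2, 1, 0, 67108864⟩]]) 0 2 2 0 0 (sgb true) (sgb false) x) :
    AltA (VFD κ) PP tK tL pcB [⟨4, 0, 0, 2845415833⟩] 0 2 2 0 0 (sgb true) (sgb false) x :=
  strip_altAD (m := 2845415833) false rfl hκ (SH.κ0 hκ (SH.hx1 hx).le (SH.hx2 hx').le) (SH.hx1 hx).le (SH.hx2 hx') (covB00).cov (covB02).cov hx hx' c_A00pm_022_s3 H (noExt_A)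

noncomputable def cut_A00pm_023_s1 : Cut := Cut.of [[⟨4, 0, 0, 1449551462⟩]]

noncomputable def f_A00pm_023_s1 : ℕ → ℕ → ℕ → ℕ → Bool := onCell 1610612736 536870912 0 536870912 587336777 62277027
    (rowF 2 true true false .up 0 2 3 (qsf 0 536870912 0 536870912 3) ndB0q0 ndB0q2 pcB3 cut_A00pm_023_s1 Ext.none)

def k0_A00pm_023_s1 : ∃ t, chk3 f_A00pm_023_s1 t 1 1 1 = true :=
  ⟨(l 6), by decide +kernel⟩

theorem c_A00pm_023_s1 : CertF 0 536870912 0 536870912 587336777 62277027 true true false .up 0 2 3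
    ndB0q0 ndB0q2 pcB3 cut_A00pm_023_s1 Ext.none :=
  certF2 (fam := true) (s1 := true) (s2 := false) (a := 0) (b := 2) (c := 3) (cn := .up) (n1 := ndB0q0) (n2 := ndB0q2) (pc := pcB3) (cut := cut_A00pm_023_s1) (xt := Ext.none) (P1 := 0) (W1 := 536870912) (P2 := 0) (W2 := 536870912) (P3 := 587336777) (W3 := 62277027)
    rfl (fun _ => rfl) k0_A00pm_023_s1

theorem s_A00pm_023_s1 {κ x : ℝ} (hκ : κ * h0 = ken x) (hx : ((587336777 : ℕ) : ℝ) / S ≤ x)
    (hx' : x ≤ (((587336777 : ℕ) : ℝ) + (62277027 : ℕ)) / S) :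
    AltA (VFD κ) PP tK tL pcB [⟨3, 0, 0, 1449551462⟩] 0 2 3 0 0 (sgb true) (sgb false) x :=
  strip_altAD (m := 1449551462) true rfl hκ (SH.κ0 hκ (SH.hx1 hx).le (SH.hx2 hx').le) (SH.hx1 hx).le (SH.hx2 hx') (covB00).cov (covB02).cov hx hx' c_A00pm_023_s1 cutA_nil (noExt_A)

noncomputable def cut_A00pm_023_s3 : Cut := Cut.of [[⟨3, 0, 0, 2845415833⟩]]

noncomputable def f_A00pm_023_s3 : ℕ → ℕ → ℕ → ℕ → Bool := onCell 0 536870912 0 536870912 587336777 62277027
    (rowF 0 true true false .up 0 2 3 (qsf 0 536870912 0 536870912 3) ndB0q0 ndB0q2 pcB3 cut_A00pm_023_s3 Ext.none)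

def k0_A00pm_023_s3 : ∃ t, chk3 f_A00pm_023_s3 t 1 1 1 = true :=
  ⟨(a (l 1) (b (a (b (a (l 1) (b (a (l 1) (b (l 16675560) (l 6))) (l 6))) (l 6)) (b (a (b (a (b (l 16679408) (l 6)) (b (l 16680920) (l 16661880))) (l 6)) (b (a (b (a (l 16691176) (l 16708216)) (l 16684080)) (b (a (l 16723168) (l 16735728)) (a (l 16709896) (l 16724160)))) (a (b (a (l 16657240) (l 16677392)) (l 6)) (b (a (l 16696696) (l 16712864)) (a (l 16683136) (l 16701168)))))) (a (l 6) (l 6)))) (l 6))), by decide +kernel⟩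

theorem c_A00pm_023_s3 : CertF 0 536870912 0 536870912 587336777 62277027 true true false .up 0 2 3
    ndB0q0 ndB0q2 pcB3 cut_A00pm_023_s3 Ext.none :=
  certF0 (fam := true) (s1 := true) (s2 := false) (a := 0) (b := 2) (c := 3) (cn := .up) (n1 := ndB0q0) (n2 := ndB0q2) (pc := pcB3) (cut := cut_A00pm_023_s3) (xt := Ext.none) (P1 := 0) (W1 := 536870912) (P2 := 0) (W2 := 536870912) (P3 := 587336777) (W3 := 62277027)
    rfl k0_A00pm_023_s3

theorem s_A00pm_023_s3 {κ x : ℝ} (hκ : κ * h0 = ken x) (hx : ((587336777 : ℕ) : ℝ) / S ≤ x)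
    (hx' : x ≤ (((587336777 : ℕ) : ℝ) + (62277027 : ℕ)) / S) :
    AltA (VFD κ) PP tK tL pcB [⟨4, 0, 0, 2845415833⟩] 0 2 3 0 0 (sgb true) (sgb false) x :=
  strip_altAD (m := 2845415833) false rfl hκ (SH.κ0 hκ (SH.hx1 hx).le (SH.hx2 hx').le) (SH.hx1 hx).le (SH.hx2 hx') (covB00).cov (covB02).cov hx hx' c_A00pm_023_s3 cutA_nil (noExt_A)

noncomputable def cut_A00pm_101_s1 : Cut := Cut.of [[⟨4, 0, 0, 1449551462⟩], [⟨0, 1, 0, 67108864⟩, ⟨1, 0, 0, 67108864⟩, ⟨2, 1, 0, 67108864⟩]]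

noncomputable def f_A00pm_101_s1 : ℕ → ℕ → ℕ → ℕ → Bool := onCell 536870912 536870912 536870912 536870912 587336777 62277027
    (rowF 1 true true false .npn 1 0 1 (qsf 536870912 536870912 0 536870912 1) ndB0q1 ndB0q0 pcB1 cut_A00pm_101_s1 Ext.none)

def k0_A00pm_101_s1 : ∃ t, chk3 f_A00pm_101_s1 t 1 1 1 = true :=
  ⟨(b (l 3) (a (l 3) (b (l 3) (a (l 3) (b (l 3) (a (l 3) (b (l 3) (a (l 3) (l 14))))))))), by decide +kernel⟩

theorem c_A00pm_101_s1 : CertF 536870912 536870912 0 536870912 587336777 62277027 true true false .npn 1 0 1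
    ndB0q1 ndB0q0 pcB1 cut_A00pm_101_s1 Ext.none :=
  certF1 (fam := true) (s1 := true) (s2 := false) (a := 1) (b := 0) (c := 1) (cn := .npn) (n1 := ndB0q1) (n2 := ndB0q0) (pc := pcB1) (cut := cut_A00pm_101_s1) (xt := Ext.none) (P1 := 536870912) (W1 := 536870912) (P2 := 0) (W2 := 536870912) (P3 := 587336777) (W3 := 62277027)
    rfl (fun _ => rfl) k0_A00pm_101_s1

theorem s_A00pm_101_s1 {κ x : ℝ} (hκ : κ * h0 = ken x) (hx : ((587336777 : ℕ) : ℝ) / S ≤ x)
    (hx' : x ≤ (((587336777 : ℕ) : ℝ) + (62277027 : ℕ)) / S)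
    (H : CutA (VFD κ) PP tK tL pcB (Cut.of [[⟨0, 1, 0, 67108864⟩, ⟨1, 0, 0, 67108864⟩, ⟨2, 1, 0, 67108864⟩]]) 1 0 1 0 0 (sgb true) (sgb false) x) :
    AltA (VFD κ) PP tK tL pcB [⟨3, 0, 0, 1449551462⟩] 1 0 1 0 0 (sgb true) (sgb false) x :=
  strip_altAD (m := 1449551462) true rfl hκ (SH.κ0 hκ (SH.hx1 hx).le (SH.hx2 hx').le) (SH.hx1 hx).le (SH.hx2 hx') (covB01).cov (covB00).cov hx hx' c_A00pm_101_s1 H (noExt_A)

noncomputable def cut_A00pm_101_s3 : Cut := Cut.of [[⟨3, 0, 0, 2845415833⟩], [⟨0, 1, 0, 67108864⟩, ⟨1, 0, 0, 67108864⟩, ⟨2, 1, 0, 67108864⟩]]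

noncomputable def f_A00pm_101_s3 : ℕ → ℕ → ℕ → ℕ → Bool := onCell 536870912 536870912 0 536870912 587336777 62277027
    (rowF 0 true true false .npn 1 0 1 (qsf 536870912 536870912 0 536870912 1) ndB0q1 ndB0q0 pcB1 cut_A00pm_101_s3 Ext.none)

def k0_A00pm_101_s3 : ∃ t, chk3 f_A00pm_101_s3 t 1 1 1 = true :=
  ⟨(l 6), by decide +kernel⟩

theorem c_A00pm_101_s3 : CertF 536870912 536870912 0 536870912 587336777 62277027 true true false .npn 1 0 1
    ndB0q1 ndB0q0 pcB1 cut_A00pm_101_s3 Ext.none :=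
  certF0 (fam := true) (s1 := true) (s2 := false) (a := 1) (b := 0) (c := 1) (cn := .npn) (n1 := ndB0q1) (n2 := ndB0q0) (pc := pcB1) (cut := cut_A00pm_101_s3) (xt := Ext.none) (P1 := 536870912) (W1 := 536870912) (P2 := 0) (W2 := 536870912) (P3 := 587336777) (W3 := 62277027)
    rfl k0_A00pm_101_s3

theorem s_A00pm_101_s3 {κ x : ℝ} (hκ : κ * h0 = ken x) (hx : ((587336777 : ℕ) : ℝ) / S ≤ x)
    (hx' : x ≤ (((587336777 : ℕ) : ℝ) + (62277027 : ℕ)) / S)
    (H : CutA (VFD κ) PP tK tL pcB (Cut.of [[⟨0, 1, 0, 67108864⟩, ⟨1, 0, 0, 67108864⟩, ⟨2, 1, 0, 67108864⟩]]) 1 0 1 0 0 (sgb true) (sgb false) x) :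
    AltA (VFD κ) PP tK tL pcB [⟨4, 0, 0, 2845415833⟩] 1 0 1 0 0 (sgb true) (sgb false) x :=
  strip_altAD (m := 2845415833) false rfl hκ (SH.κ0 hκ (SH.hx1 hx).le (SH.hx2 hx').le) (SH.hx1 hx).le (SH.hx2 hx') (covB01).cov (covB00).cov hx hx' c_A00pm_101_s3 H (noExt_A)

noncomputable def cut_A00pm_102_s3 : Cut := Cut.of [[⟨3, 0, 0, 2845415833⟩], [⟨0, 1, 0, 67108864⟩, ⟨1, 0, 0, 67108864⟩, ⟨2, 1, 0, 67108864⟩]]

noncomputable def f_A00pm_102_s3 : ℕ → ℕ → ℕ → ℕ → Bool := onCell 536870912 536870912 0 536870912 587336777 62277027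
    (rowF 0 true true false .npp 1 0 2 (qsf 536870912 536870912 0 536870912 2) ndB0q1 ndB0q0 pcB2 cut_A00pm_102_s3 Ext.none)

def k0_A00pm_102_s3 : ∃ t, chk3 f_A00pm_102_s3 t 1 1 1 = true :=
  ⟨(l 6), by decide +kernel⟩

theorem c_A00pm_102_s3 : CertF 536870912 536870912 0 536870912 587336777 62277027 true true false .npp 1 0 2
    ndB0q1 ndB0q0 pcB2 cut_A00pm_102_s3 Ext.none :=
  certF0 (fam := true) (s1 := true) (s2 := false) (a := 1) (b := 0) (c := 2) (cn := .npp) (n1 := ndB0q1) (n2 := ndB0q0) (pc := pcB2) (cut := cut_A00pm_102_s3) (xt := Ext.none) (P1 := 536870912) (W1 := 536870912) (P2 := 0) (W2 := 536870912) (P3 := 587336777) (W3 := 62277027)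
    rfl k0_A00pm_102_s3

theorem s_A00pm_102_s3 {κ x : ℝ} (hκ : κ * h0 = ken x) (hx : ((587336777 : ℕ) : ℝ) / S ≤ x)
    (hx' : x ≤ (((587336777 : ℕ) : ℝ) + (62277027 : ℕ)) / S)
    (H : CutA (VFD κ) PP tK tL pcB (Cut.of [[⟨0, 1, 0, 67108864⟩, ⟨1, 0, 0, 67108864⟩, ⟨2, 1, 0, 67108864⟩]]) 1 0 2 0 0 (sgb true) (sgb false) x) :
    AltA (VFD κ) PP tK tL pcB [⟨4, 0, 0, 2845415833⟩] 1 0 2 0 0 (sgb true) (sgb false) x :=
  strip_altAD (m := 2845415833) false rfl hκ (SH.κ0 hκ (SH.hx1 hx).le (SH.hx2 hx').le) (SH.hx1 hx).le (SH.hx2 hx') (covB01).cov (covB00).cov hx hx' c_A00pm_102_s3 H (noExt_A)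

noncomputable def cut_A00pm_112_s3 : Cut := Cut.of [[⟨3, 0, 0, 2845415833⟩]]

noncomputable def f_A00pm_112_s3 : ℕ → ℕ → ℕ → ℕ → Bool := onCell 536870912 536870912 1073741824 536870912 587336777 62277027
    (rowF 1 true true false .dn 1 1 2 (qsf 536870912 536870912 536870912 536870912 2) ndB0q1 ndB0q1 pcB2 cut_A00pm_112_s3 Ext.none)

def k0_A00pm_112_s3 : ∃ t, chk3 f_A00pm_112_s3 t 1 1 1 = true :=
  ⟨(l 6), by decide +kernel⟩

theorem c_A00pm_112_s3 : CertF 536870912 536870912 536870912 536870912 587336777 62277027 true true false .dn 1 1 2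
    ndB0q1 ndB0q1 pcB2 cut_A00pm_112_s3 Ext.none :=
  certF1 (fam := true) (s1 := true) (s2 := false) (a := 1) (b := 1) (c := 2) (cn := .dn) (n1 := ndB0q1) (n2 := ndB0q1) (pc := pcB2) (cut := cut_A00pm_112_s3) (xt := Ext.none) (P1 := 536870912) (W1 := 536870912) (P2 := 536870912) (W2 := 536870912) (P3 := 587336777) (W3 := 62277027)
    rfl (fun _ => rfl) k0_A00pm_112_s3

theorem s_A00pm_112_s3 {κ x : ℝ} (hκ : κ * h0 = ken x) (hx : ((587336777 : ℕ) : ℝ) / S ≤ x)
    (hx' : x ≤ (((587336777 : ℕ) : ℝ) + (62277027 : ℕ)) / S) :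
    AltA (VFD κ) PP tK tL pcB [⟨4, 0, 0, 2845415833⟩] 1 1 2 0 0 (sgb true) (sgb false) x :=
  strip_altAD (m := 2845415833) false rfl hκ (SH.κ0 hκ (SH.hx1 hx).le (SH.hx2 hx').le) (SH.hx1 hx).le (SH.hx2 hx') (covB01).cov (covB01).cov hx hx' c_A00pm_112_s3 cutA_nil (noExt_A)

noncomputable def cut_A00pm_113_s1 : Cut := Cut.of [[⟨4, 0, 0, 1449551462⟩], [⟨0, 1, 0, 67108864⟩, ⟨1, 1, 0, 67108864⟩, ⟨2, 2, 0, 16777216⟩], [⟨0, 0, 1, 20971520⟩, ⟨1, 1, 0, 29360128⟩, ⟨2, 1, 1, 20971520⟩], [⟨0, 1, 0, 29360128⟩, ⟨1, 0, 1, 20971520⟩, ⟨2, 1, 1, 20971520⟩]]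

noncomputable def f_A00pm_113_s1 : ℕ → ℕ → ℕ → ℕ → Bool := onCell 536870912 536870912 1610612736 536870912 587336777 62277027
    (rowF 1 true true false .nn 1 1 3 (qsf 536870912 536870912 536870912 536870912 3) ndB0q1 ndB0q1 pcB3 cut_A00pm_113_s1 Ext.none)

def k0_A00pm_113_s1 : ∃ t, chk3 f_A00pm_113_s1 t 1 1 1 = true :=
  ⟨(b (a (b (l 6) (l 6)) (l 6)) (l 6)), by decide +kernel⟩

theorem c_A00pm_113_s1 : CertF 536870912 536870912 536870912 536870912 587336777 62277027 true true false .nn 1 1 3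
    ndB0q1 ndB0q1 pcB3 cut_A00pm_113_s1 Ext.none :=
  certF1 (fam := true) (s1 := true) (s2 := false) (a := 1) (b := 1) (c := 3) (cn := .nn) (n1 := ndB0q1) (n2 := ndB0q1) (pc := pcB3) (cut := cut_A00pm_113_s1) (xt := Ext.none) (P1 := 536870912) (W1 := 536870912) (P2 := 536870912) (W2 := 536870912) (P3 := 587336777) (W3 := 62277027)
    rfl (fun _ => rfl) k0_A00pm_113_s1

theorem s_A00pm_113_s1 {κ x : ℝ} (hκ : κ * h0 = ken x) (hx : ((587336777 : ℕ) : ℝ) / S ≤ x)
    (hx' : x ≤ (((587336777 : ℕ) : ℝ) + (62277027 : ℕ)) / S)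
    (H : CutA (VFD κ) PP tK tL pcB (Cut.of [[⟨0, 1, 0, 67108864⟩, ⟨1, 1, 0, 67108864⟩, ⟨2, 2, 0, 16777216⟩], [⟨0, 0, 1, 20971520⟩, ⟨1, 1, 0, 29360128⟩, ⟨2, 1, 1, 20971520⟩], [⟨0, 1, 0, 29360128⟩, ⟨1, 0, 1, 20971520⟩, ⟨2, 1, 1, 20971520⟩]]) 1 1 3 0 0 (sgb true) (sgb false) x) :
    AltA (VFD κ) PP tK tL pcB [⟨3, 0, 0, 1449551462⟩] 1 1 3 0 0 (sgb true) (sgb false) x :=
  strip_altAD (m := 1449551462) true rfl hκ (SH.κ0 hκ (SH.hx1 hx).le (SH.hx2 hx').le) (SH.hx1 hx).le (SH.hx2 hx') (covB01).cov (covB01).cov hx hx' c_A00pm_113_s1 H (noExt_A)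

noncomputable def cut_A00pm_113_s3 : Cut := Cut.of [[⟨3, 0, 0, 2845415833⟩], [⟨0, 1, 0, 67108864⟩, ⟨1, 1, 0, 67108864⟩, ⟨2, 2, 0, 16777216⟩], [⟨0, 0, 1, 20971520⟩, ⟨1, 1, 0, 29360128⟩, ⟨2, 1, 1, 20971520⟩], [⟨0, 1, 0, 29360128⟩, ⟨1, 0, 1, 20971520⟩, ⟨2, 1, 1, 20971520⟩]]

noncomputable def f_A00pm_113_s3 : ℕ → ℕ → ℕ → ℕ → Bool := onCell 536870912 536870912 536870912 536870912 587336777 62277027
    (rowF 0 true true false .nn 1 1 3 (qsf 536870912 536870912 536870912 536870912 3) ndB0q1 ndB0q1 pcB3 cut_A00pm_113_s3 Ext.none)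

def k0_A00pm_113_s3 : ∃ t, chk3 f_A00pm_113_s3 t 2 1 1 = true :=
  ⟨(l 6), by decide +kernel⟩

def k1_A00pm_113_s3 : ∃ t, chk3 f_A00pm_113_s3 t 3 2 1 = true :=
  ⟨(l 6), by decide +kernel⟩

def k2_A00pm_113_s3 : ∃ t, chk3 f_A00pm_113_s3 t 6 3 1 = true :=
  ⟨(b (l 6) (b (l 6) (a (l 6) (b (l 6) (b (l 6) (a (l 6) (a (l 6) (a (l 6) (b (l 6) (a (l 16855704) (l 16855664))))))))))), by decide +kernel⟩

def k3_A00pm_113_s3 : ∃ t, chk3 f_A00pm_113_s3 t 7 6 1 = true :=
  ⟨(a (l 6) (b (l 6) (a (l 6) (a (l 6) (a (l 6) (a (l 6) (b (l 6) (b (l 6) (b (l 6) (l 16853648)))))))))), by decide +kernel⟩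

def k4_A00pm_113_s3 : ∃ t, chk3 f_A00pm_113_s3 t 14 7 1 = true :=
  ⟨(b (l 6) (a (b (l 6) (a (a (b (l 6) (b (l 16863728) (c (l 16858856) (l 16852328)))) (b (l 6) (b (l 16863136) (c (l 16857432) (l 16852008))))) (a (b (l 16874176) (b (l 16861944) (l 16853056))) (b (l 16872648) (b (l 16860040) (l 16850944)))))) (b (b (l 16901792) (a (l 16886448) (l 16879592))) (b (b (a (l 16873384) (l 16866304)) (a (l 16864624) (l 16815280))) (b (a (c (l 16856808) (l 16855376)) (c (l 16848488) (l 16848128))) (a (c (l 16847904) (l 16845560)) (c (l 16839336) (b (l 16840872) (l 16835400))))))))), by decide +kernel⟩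

def k5_A00pm_113_s3 : ∃ t, chk3 f_A00pm_113_s3 t 15 14 1 = true :=
  ⟨(b (a (l 6) (b (b (a (l 6) (a (l 16863728) (c (l 16858856) (l 16852328)))) (a (l 6) (a (l 16863136) (c (l 16857432) (l 16852008))))) (a (a (l 16877640) (l 16869376)) (a (c (l 16862792) (l 16859808)) (b (l 16853056) (l 16850944)))))) (a (a (l 16901792) (b (l 16886448) (l 16879592))) (a (a (b (l 16873384) (l 16866304)) (b (l 16864624) (l 16815280))) (a (b (c (l 16856808) (l 16855376)) (c (l 16848488) (l 16848128))) (b (c (l 16847904) (l 16845560)) (c (l 16839336) (a (l 16840872) (l 16835400)))))))), by decide +kernel⟩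

def k6_A00pm_113_s3 : ∃ t, chk3 f_A00pm_113_s3 t 30 15 1 = true :=
  ⟨(b (b (a (l 16889152) (l 16870008)) (b (l 16869248) (l 16859920))) (b (b (a (l 16856520) (l 16844496)) (a (l 16847544) (b (l 16837888) (l 16833424)))) (b (a (l 16838200) (a (l 16829544) (b (l 16825672) (l 16820912)))) (a (a (b (l 16833760) (l 16828552)) (b (l 16828264) (l 16823064))) (b (a (c (l 16822408) (l 16822576)) (l 16816080)) (a (l 16817184) (b (c (l 16812464) (l 16812456)) (l 16809608)))))))), by decide +kernel⟩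

def k7_A00pm_113_s3 : ∃ t, chk3 f_A00pm_113_s3 t 31 15 1 = true :=
  ⟨(b (a (a (b (l 16856520) (l 16844496)) (b (l 16847544) (a (l 16837888) (l 16833424)))) (a (b (l 16838200) (b (l 16829544) (a (l 16825672) (l 16820912)))) (b (a (b (l 16833760) (l 16828264)) (b (l 16828552) (l 16823064))) (a (b (c (l 16822408) (l 16822576)) (l 16816080)) (b (l 16817184) (a (c (l 16812464) (l 16812456)) (l 16809608))))))) (b (a (b (l 16829768) (l 16821752)) (a (a (b (l 16818824) (l 16811504)) (b (a (l 16815472) (l 16813120)) (a (l 16808256) (l 16806024)))) (a (b (a (l 16810680) (l 16808256)) (b (l 16804280) (a (l 16801944) (l 16799536)))) (b (a (a (l 16806416) (l 16805136)) (b (l 16804728) (l 16801376))) (a (b (l 16800616) (l 16797096)) (b (l 16797960) (a (c (l 16795248) (l 16795256)) (l 16793808)))))))) (a (b (b (a (l 16818824) (l 16811504)) (a (b (l 16815472) (l 16813120)) (b (l 16808256) (l 16806024)))) (b (a (b (l 16810680) (l 16808256))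 (a (l 16804280) (b (l 16801944) (l 16799536)))) (a (b (b (l 16806416) (l 16805136)) (a (l 16804728) (l 16801376))) (b (a (l 16800616) (l 16797096)) (a (l 16797960) (b (c (l 16795248) (l 16795256)) (l 16793808))))))) (b (a (l 16801744) (a (a (b (l 16798240) (l 16794432)) (b (a (l 16796560) (l 16795376)) (a (l 16792808) (l 16791688)))) (a (b (a (l 16794144) (l 16792920)) (b (l 16790832) (l 14))) (b (a (a (l 16792000) (l 16791344)) (b (l 16791176) (l 14))) (l 14))))) (a (b (b (a (l 16798240) (l 16794432)) (a (b (l 16796560) (l 16795376)) (b (l 16792808) (l 16791688)))) (b (a (b (l 16794144) (l 16792920)) (a (l 16790832) (l 14))) (a (b (b (l 16792000) (l 16791344)) (a (l 16791176) (l 14))) (l 14)))) (b (a (l 16789488) (l 14)) (l 14))))))), by decide +kernel⟩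

theorem t8_A00pm_113_s3 : ∃ t, chk3 f_A00pm_113_s3 t 15 15 1 = true := ex3_a k6_A00pm_113_s3 k7_A00pm_113_s3

theorem t9_A00pm_113_s3 : ∃ t, chk3 f_A00pm_113_s3 t 15 7 1 = true := ex3_b k5_A00pm_113_s3 t8_A00pm_113_s3

theorem t10_A00pm_113_s3 : ∃ t, chk3 f_A00pm_113_s3 t 7 7 1 = true := ex3_a k4_A00pm_113_s3 t9_A00pm_113_s3

theorem t11_A00pm_113_s3 : ∃ t, chk3 f_A00pm_113_s3 t 7 3 1 = true := ex3_b k3_A00pm_113_s3 t10_A00pm_113_s3

theorem t12_A00pm_113_s3 : ∃ t, chk3 f_A00pm_113_s3 t 3 3 1 = true := ex3_a k2_A00pm_113_s3 t11_A00pm_113_s3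

theorem t13_A00pm_113_s3 : ∃ t, chk3 f_A00pm_113_s3 t 3 1 1 = true := ex3_b k1_A00pm_113_s3 t12_A00pm_113_s3

theorem t14_A00pm_113_s3 : ∃ t, chk3 f_A00pm_113_s3 t 1 1 1 = true := ex3_a k0_A00pm_113_s3 t13_A00pm_113_s3

theorem c_A00pm_113_s3 : CertF 536870912 536870912 536870912 536870912 587336777 62277027 true true false .nn 1 1 3
    ndB0q1 ndB0q1 pcB3 cut_A00pm_113_s3 Ext.none :=
  certF0 (fam := true) (s1 := true) (s2 := false) (a := 1) (b := 1) (c := 3) (cn := .nn) (n1 := ndB0q1) (n2 := ndB0q1) (pc := pcB3) (cut := cut_A00pm_113_s3) (xt := Ext.none) (P1 := 536870912) (W1 := 536870912) (P2 := 536870912) (W2 := 536870912) (P3 := 587336777) (W3 := 62277027)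
    rfl t14_A00pm_113_s3

theorem s_A00pm_113_s3 {κ x : ℝ} (hκ : κ * h0 = ken x) (hx : ((587336777 : ℕ) : ℝ) / S ≤ x)
    (hx' : x ≤ (((587336777 : ℕ) : ℝ) + (62277027 : ℕ)) / S)
    (H : CutA (VFD κ) PP tK tL pcB (Cut.of [[⟨0, 1, 0, 67108864⟩, ⟨1, 1, 0, 67108864⟩, ⟨2, 2, 0, 16777216⟩], [⟨0, 0, 1, 20971520⟩, ⟨1, 1, 0, 29360128⟩, ⟨2, 1, 1, 20971520⟩], [⟨0, 1, 0, 29360128⟩, ⟨1, 0, 1, 20971520⟩, ⟨2, 1, 1, 20971520⟩]]) 1 1 3 0 0 (sgb true) (sgb false) x) :
    AltA (VFD κ) PP tK tL pcB [⟨4, 0, 0, 2845415833⟩] 1 1 3 0 0 (sgb true) (sgb false) x :=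
  strip_altAD (m := 2845415833) false rfl hκ (SH.κ0 hκ (SH.hx1 hx).le (SH.hx2 hx').le) (SH.hx1 hx).le (SH.hx2 hx') (covB01).cov (covB01).cov hx hx' c_A00pm_113_s3 H (noExt_A)

noncomputable def cut_A00pm_123_s1 : Cut := Cut.of [[⟨4, 0, 0, 1449551462⟩], [⟨0, 1, 0, 67108864⟩, ⟨1, 1, 0, 67108864⟩, ⟨2, 2, 0, 16777216⟩], [⟨0, 0, 1, 20971520⟩, ⟨1, 1, 0, 29360128⟩, ⟨2, 1, 1, 20971520⟩]]

noncomputable def f_A00pm_123_s1 : ℕ → ℕ → ℕ → ℕ → Bool := onCell 536870912 536870912 0 536870912 587336777 62277027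
    (rowF 0 true true false .npn 1 2 3 (qsf 536870912 536870912 0 536870912 3) ndB0q1 ndB0q2 pcB3 cut_A00pm_123_s1 Ext.none)

def k0_A00pm_123_s1 : ∃ t, chk3 f_A00pm_123_s1 t 1 1 1 = true :=
  ⟨(l 6), by decide +kernel⟩

theorem c_A00pm_123_s1 : CertF 536870912 536870912 0 536870912 587336777 62277027 true true false .npn 1 2 3
    ndB0q1 ndB0q2 pcB3 cut_A00pm_123_s1 Ext.none :=
  certF0 (fam := true) (s1 := true) (s2 := false) (a := 1) (b := 2) (c := 3) (cn := .npn) (n1 := ndB0q1) (n2 := ndB0q2) (pc := pcB3) (cut := cut_A00pm_123_s1) (xt := Ext.none) (P1 := 536870912) (W1 := 536870912) (P2 := 0) (W2 := 536870912) (P3 := 587336777) (W3 := 62277027)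
    rfl k0_A00pm_123_s1

theorem s_A00pm_123_s1 {κ x : ℝ} (hκ : κ * h0 = ken x) (hx : ((587336777 : ℕ) : ℝ) / S ≤ x)
    (hx' : x ≤ (((587336777 : ℕ) : ℝ) + (62277027 : ℕ)) / S)
    (H : CutA (VFD κ) PP tK tL pcB (Cut.of [[⟨0, 1, 0, 67108864⟩, ⟨1, 1, 0, 67108864⟩, ⟨2, 2, 0, 16777216⟩], [⟨0, 0, 1, 20971520⟩, ⟨1, 1, 0, 29360128⟩, ⟨2, 1, 1, 20971520⟩]]) 1 2 3 0 0 (sgb true) (sgb false) x) :
    AltA (VFD κ) PP tK tL pcB [⟨3, 0, 0, 1449551462⟩] 1 2 3 0 0 (sgb true) (sgb false) x :=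
  strip_altAD (m := 1449551462) true rfl hκ (SH.κ0 hκ (SH.hx1 hx).le (SH.hx2 hx').le) (SH.hx1 hx).le (SH.hx2 hx') (covB01).cov (covB02).cov hx hx' c_A00pm_123_s1 H (noExt_A)

noncomputable def cut_A00pm_123_s3 : Cut := Cut.of [[⟨3, 0, 0, 2845415833⟩], [⟨0, 1, 0, 67108864⟩, ⟨1, 1, 0, 67108864⟩, ⟨2, 2, 0, 16777216⟩], [⟨0, 0, 1, 20971520⟩, ⟨1, 1, 0, 29360128⟩, ⟨2, 1, 1, 20971520⟩]]

noncomputable def xt_A00pm_123_s3 : Ext := strExt0 dd true true false .u0 .u2 .s2 .npn 1 2 3 rfl rfl gl3 vv ww kz ndB0q1 ndB0q2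

noncomputable def f_A00pm_123_s3 : ℕ → ℕ → ℕ → ℕ → Bool := onCell 1610612736 536870912 0 536870912 587336777 62277027
    (rowF 2 true true false .npn 1 2 3 (qsf 536870912 536870912 0 536870912 3) ndB0q1 ndB0q2 pcB3 cut_A00pm_123_s3 xt_A00pm_123_s3)

def k0_A00pm_123_s3 : ∃ t, chk3 f_A00pm_123_s3 t 2 1 1 = true :=
  ⟨(a (b (b (l 1) (l 6)) (l 6)) (b (a (b (a (a (l 1) (b (b (l 16737008) (l 16726552)) (b (l 16717664) (l 16710072)))) (b (a (b (l 16747384) (l 16738296)) (b (l 1071585295) (b (l 16749912) (l 16746328)))) (a (b (l 16730776) (l 16724712)) (b (l 16720832) (l 16737152))))) (b (a (a (l 6) (b (l 16703008) (l 6))) (a (b (l 16719792) (l 6)) (b (l 16712512) (l 16728936)))) (l 6))) (b (b (b (a (l 1071980559) (l 1073427471)) (a (b (l 1072077839) (l 1072143375)) (b (l 1072443919) (a (l 1072420879) (b (l 1072560143) (l 1072591887)))))) (a (b (a (l 16740216) (b (l 16758568) (l 16756608))) (a (l 16746928) (b (l 16755048) (l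 16753816)))) (a (b (b (l 1072488463) (l 16762000)) (b (l 16760624) (l 16759576))) (b (b (b (l 1072625679) (l 1072661519)) (a (l 16765208) (l 16767552))) (b (a (l 16763920) (l 16766424)) (a (l 16762936) (l 16765600))))))) (b (a (a (b (l 16744240) (l 16741312)) (b (l 16752456) (l 16750968))) (b (a (l 16737624) (b (l 16753176) (l 16763256))) (a (l 16757728) (b (l 16762952) (l 16762744))))) (a (b (a (l 6) (l 16748520)) (l 6)) (b (a (l 16756544) (l 16762712)) (a (l 16755504) (a (l 16760760) (l 16764584)))))))) (a (l 6) (b (l 6) (l 6))))), by decide +kernel⟩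

def k1_A00pm_123_s3 : ∃ t, chk3 f_A00pm_123_s3 t 12 8 1 = true :=
  ⟨(a (b (a (l 1072648719) (l 4)) (b (a (l 1072737295) (a (l 1072886287) (a (l 1072953871) (l 4)))) (a (b (l 1072781839) (a (l 1072758799) (l 1072866319))) (a (b (b (l 1072923151) (l 1072938511)) (a (l 1072941071) (l 1072989199))) (b (a (b (l 1072990735) (l 1073005583)) (b (c (l 1073169935) (l 1072904719)) (c (l 1073186319) (l 1072927759)))) (a (c (l 1073170447) (l 1072912399)) (a (l 1073069583) (l 1073092111)))))))) (a (b (l 4) (b (l 4) (b (a (b (l 4) (a (l 1073093135) (l 4))) (l 4)) (a (l 1073143311) (l 1073211919))))) (l 4))), by decide +kernel⟩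

def k2_A00pm_123_s3 : ∃ t, chk3 f_A00pm_123_s3 t 24 9 1 = true :=
  ⟨(a (a (b (b (b (l 1072794127) (l 1072830991)) (a (l 16769232) (l 16770248))) (b (a (l 16768248) (l 16769344)) (l 16768160))) (b (b (b (l 1072902671) (l 1072940559)) (b (l 1072979471) (l 1073018895))) (b (b (l 16770976) (l 16770664)) (b (l 16770424) (l 16770240))))) (b (b (a (b (a (l 1072978959) (l 1073027599)) (a (l 1073017871) (l 1073067535))) (b (a (l 1073075215) (l 1073122319)) (a (l 1073116175) (c (l 1073281039) (l 1073059855))))) (a (b (a (l 16773000) (l 1073107983)) (a (l 16772576) (l 16773296))) (b (a (l 1073157135) (a (l 1073192975) (l 1073214479))) (a (c (l 16774608) (l 16773384)) (c (l 1073349647) (l 16776664)))))) (a (b (b (a (l 16772240) (l 16772992)) (a (l 16771992) (l 16772776))) (a (l 16771744) (b (l 16772616) (l 16772520)))) (b (c (a (b (l 16774408) (l 16774272)) (b (l 16774912) (l 16774800))) (a (b (l 16773064) (l 16772840)) (b (l 16773752)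 (l 16773544)))) (c (a (l 16774192) (b (l 16774744) (l 16774736))) (a (l 16772624) (l 16773360))))))), by decide +kernel⟩

def k3_A00pm_123_s3 : ∃ t, chk3 f_A00pm_123_s3 t 25 18 1 = true :=
  ⟨(a (b (b (a (a (l 1073163791) (l 1073201679)) (b (l 1073241615) (a (l 1073245711) (b (l 1073270799) (c (l 1073390607) (l 1073187343)))))) (a (a (b (l 1073194511) (l 1073214479)) (b (l 1073231887) (l 1073251855))) (c (a (b (l 1073375247) (l 1073392143)) (b (a (b (l 1073392143) (l 1073400335)) (b (l 1073404943) (l 1073413647))) (a (l 1073413135) (l 1073425935)))) (a (b (l 1073172495) (l 1073196047)) (b (a (b (l 1073191439) (l 1073203215)) (b (l 1073206799) (l 1073218063))) (a (l 1073220623) (l 1073235471))))))) (a (b (a (b (l 1073234959) (l 1073254927)) (c (b (l 1073377807) (l 1073394703)) (l 1073194511))) (a (c (l 1073386511) (l 1073201167)) (c (l 1073420303) (l 1073241615)))) (a (b (c (a (l 1073409551) (l 1073424399)) (a (l 1073222159)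 (l 1073239567))) (c (l 1073451023) (l 1073277967))) (b (c (a (l 1073438223) (l 1073451023)) (a (l 1073255439) (l 1073270287))) (c (a (l 1073471503) (l 1073484303)) (a (l 1073301519) (l 1073316367))))))) (b (a (b (a (a (b (l 4) (b (l 4) (a (c (l 1073405967) (l 1073205775)) (c (l 1073412111) (l 1073212431))))) (l 4)) (l 4)) (a (a (a (b (b (c (l 1073414671) (l 1073217551)) (l 1073317391)) (l 1073332239)) (l 1073328655)) (l 1073337871)) (c (l 1073457167) (l 1073268751)))) (a (b (l 4) (c (l 1073475599) (l 1073288207))) (l 4))) (a (a (c (a (a (l 1073476623) (l 1073482255)) (l 1073490959)) (c (l 1073349647) (l 1073282575))) (c (c (l 1073560591) (l 1073456655)) (c (l 1073372175) (l 1073306127)))) (c (c (a (l 1073578511) (l 1073593359)) (a (l 1073475087) (l 1073489423))) (c (a (l 1073390607) (l 1073404943)) (a (l 1073325071) (l 1073339919))))))), by decide +kernel⟩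

def k4_A00pm_123_s3 : ∃ t, chk3 f_A00pm_123_s3 t 50 19 1 = true :=
  ⟨(c (a (b (b (a (l 1073420815) (l 1073454095)) (a (l 1073454607) (l 1073487375))) (a (b (l 16775200) (l 16775216)) (b (l 1073518607) (l 16775616)))) (b (b (a (l 1073484303) (c (l 1073562639) (l 1073464847))) (a (c (l 1073567247) (l 16775688)) (c (c (l 16776600) (l 16776336)) (l 1073499663)))) (b (a (c (l 16776248) (l 16775632)) (c (l 16776488) (l 16775936))) (a (l 16775952) (c (l 16776560) (l 16775936)))))) (a (b (b (a (l 1073248783) (l 1073288719)) (a (l 16774144) (l 1073333775))) (b (a (l 16774008) (l 16774528)) (a (l 16773920) (l 16774456)))) (b (b (a (l 1073324047) (c (l 1073386511) (l 1073328655))) (a (l 1073368591) (c (l 1073426959) (l 16775360)))) (b (a (l 1073406991) (c (l 16775520) (l 16775232))) (a (l 16774904) (l 16775280)))))), by decide +kernel⟩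

def k5_A00pm_123_s3 : ∃ t, chk3 f_A00pm_123_s3 t 51 19 1 = true :=
  ⟨(b (b (a (c (c (a (l 1073585679) (l 1073605647)) (a (l 1073488911) (l 1073509903))) (a (l 1073381903) (l 1073403919))) (c (c (a (l 1073623055) (b (l 1073630223) (l 1073645071))) (a (l 1073527311) (l 1073541135))) (c (a (l 1073451535) (l 1073465359)) (a (l 1073397263) (l 1073410575))))) (a (c (a (c (l 1073615375) (l 1073523215)) (b (l 1073579023) (l 1073593871))) (c (a (l 1073452047) (l 1073473039)) (a (l 1073402383) (l 1073423887)))) (a (c (c (b (l 1073645071) (l 1073658895)) (l 1073560079)) (c (l 1073489423) (l 1073440783))) (c (b (c (l 1073659407) (l 1073565711)) (c (l 1073672719) (l 1073580559))) (c (l 1073502223) (l 1073452559)))))) (c (a (b (c (a (l 1073643535) (l 1073662479)) (a (l 1073553935) (l 1073573391))) (a (c (l 16776752) (l 16776184)) (c (l 16776904) (l 16776392)))) (b (c (b (a (l 1073672207) (l 1073685519)) (a (l 1073685007) (l 1073697807)))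 (a (l 1073588751) (b (l 1073593871) (l 1073606671)))) (c (a (l 1073703951) (l 1073716239)) (a (l 16776552) (l 1073625103))))) (a (b (c (a (l 16775816) (l 1073505295)) (l 1073450511)) (c (a (l 16775760) (l 16776000)) (l 1073481231))) (b (c (a (l 1073520143) (l 1073530383)) (a (l 1073473551) (l 1073482767))) (a (c (l 16776192) (l 16775952)) (l 1073528847)))))), by decide +kernel⟩

def k6_A00pm_123_s3 : ∃ t, chk3 f_A00pm_123_s3 t 12 5 1 = true :=
  ⟨(b (a (a (b (b (a (l 16767760) (l 16770096)) (a (l 16767600) (l 16770088))) (b (l 16753216) (l 16768872))) (b (b (a (b (l 16772048) (l 16772048)) (c (b (l 16774512) (l 16774616)) (b (l 16772896) (l 16772896)))) (a (b (l 16772104) (l 16772208)) (b (l 16773720) (l 16773848)))) (b (a (l 16772344) (l 16774032)) (a (l 16772408) (l 16774104))))) (b (a (b (a (c (b (a (l 16775280) (l 16775688)) (l 16775608)) (b (l 16774168) (l 16774184))) (c (b (a (l 16776032) (l 16776312)) (a (l 16776160)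 (l 16776440))) (b (a (l 16774880) (l 16775256)) (l 16775088)))) (c (a (b (l 16775784) (l 16775992)) (b (l 16776488) (l 16776704))) (a (l 16774312) (b (l 16775144) (l 16775232))))) (b (a (c (b (a (l 16776536) (l 1073667599)) (c (l 16777128) (l 16776424))) (c (b (l 1073552911) (l 16775888)) (l 1074058767))) (c (b (c (l 1073735183) (l 1073645071)) (a (l 16776960) (l 16777048))) (c (l 1073587727) (l 1074076175)))) (a (c (b (l 1073710095) (l 16777136)) (b (l 16775720) (l 16775776))) (b (c (l 1073734671) (l 1073592335)) (c (l 16777352) (l 16776056)))))) (a (b (a (l 16785712) (b (l 16775976) (l 16776048))) (a (l 16775312) (l 16776088))) (a (b (b (l 16776456) (l 16776512)) (l 16776512)) (b (c (l 16777608) (l 16775984)) (b (l 16776664) (l 16776584))))))) (a (b (a (b (l 16768864) (l 16768992)) (b (a (l 16772360) (l 16774064)) (l 16773240))) (a (b (l 16769120) (l 16769304)) (b (l 16773256) (l 16773248)))) (b (a (b (a (l 16775224) (l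 16775968)) (l 16775456)) (b (a (l 16776328) (l 16776384)) (a (l 16776032) (l 16776000)))) (a (b (l 16775344) (l 16775184)) (b (l 16775688) (l 16775632)))))), by decide +kernel⟩

def k7_A00pm_123_s3 : ∃ t, chk3 f_A00pm_123_s3 t 13 8 1 = true :=
  ⟨(l 4), by decide +kernel⟩

def k8_A00pm_123_s3 : ∃ t, chk3 f_A00pm_123_s3 t 26 18 1 = true :=
  ⟨(a (b (l 4) (b (l 4) (a (a (c (c (l 1073620495) (l 1073518095)) (l 1073401871)) (a (c (l 1073573391) (l 1073406479)) (l 4))) (l 4)))) (l 4)), by decide +kernel⟩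

def k9_A00pm_123_s3 : ∃ t, chk3 f_A00pm_123_s3 t 52 19 2 = true :=
  ⟨(a (b (b (b (a (l 1073590287) (l 1073598479)) (b (a (l 1073602063) (l 1073610255)) (a (l 1073743887) (c (l 1073669135) (l 1073571855))))) (a (b (c (b (l 1073667087) (l 1073673743)) (l 1073575951)) (c (c (l 1073710095) (l 1073657871)) (l 1073589263))) (a (b (b (l 1073623055) (l 1073629711)) (c (l 1073689103) (l 1073593871))) (b (b (c (l 1073677327) (l 1073580047)) (l 1073632271)) (l 1073640975))))) (b (a (b (c (l 1073695759) (l 1073602063)) (l 1073658383)) (b (a (l 1073650703) (l 1073652751)) (l 1073663503))) (a (l 1073944591) (l 1073679887)))) (b (b (b (a (a (l 1073602575) (l 4)) (l 4)) (b (a (a (l 1073614351) (a (l 1073615887) (l 4))) (l 4)) (a (a (a (l 1073621007) (b (l 1073620495) (l 1073624079))) (a (c (b (l 1073674255) (l 1073676815)) (l 1073575439)) (b (c (l 1073675279) (l 1073574415)) (l 1073624591)))) (b (l 4) (l 1073626639))))) (a (a (b (b (a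 (l 1073627663) (l 1073628175)) (l 1073633807)) (l 1073642511)) (b (a (b (l 1073628175) (l 1073633807)) (l 1073631759)) (l 1073642511))) (l 1073638927))) (a (b (a (b (l 1073653263) (l 1073664015)) (l 1073658895)) (c (l 1073734159) (l 1073632271))) (b (l 1073660431) (l 1073682447))))), by decide +kernel⟩

def k10_A00pm_123_s3 : ∃ t, chk3 f_A00pm_123_s3 t 52 19 3 = true :=
  ⟨(b (a (b (b (a (l 1073434127) (l 1073439759)) (a (c (l 1073484815) (l 1073431055)) (b (l 1073455119) (a (l 1073464847) (l 1073465871))))) (a (b (c (l 1073502735) (l 1073451535)) (c (l 1073517071) (l 1073466895))) (b (a (b (l 1073473551) (l 1073480719)) (b (l 1073474063) (l 1073480719))) (a (l 1073490447) (l 1073489423))))) (b (b (a (a (l 1073440783) (l 4)) (l 4)) (b (a (a (l 1073456655) (a (l 1073456143) (l 4))) (l 4)) (a (a (b (l 1073463823) (a (l 1073468431) (l 1073467919))) (c (a (l 1073497103) (l 1073496079)) (a (l 1073439759) (l 1073437711)))) (b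 (l 4) (l 1073462799))))) (a (b (a (b (a (l 1073473551) (l 1073472527)) (l 1073479183)) (a (b (l 1073470479) (l 1073475087)) (l 1073471503))) (a (l 1073486351) (l 1073481743))) (c (l 1073506831) (l 1073444879))))) (a (a (b (c (l 1073536015) (l 1073485839)) (l 1073530383)) (b (b (l 1073501199) (l 1073511439)) (l 1073526287))) (a (b (a (b (l 1073496079) (l 1073505295)) (l 1073496079)) (c (l 1073549839) (l 1073487887))) (b (l 1073491983) (l 1073510415))))), by decide +kernel⟩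

def k11_A00pm_123_s3 : ∃ t, chk3 f_A00pm_123_s3 t 53 19 1 = true :=
  ⟨(a (a (b (b (l 4) (c (l 1073639951) (c (l 1073503247) (l 1073437711)))) (c (l 1073672207) (b (l 1073486351) (l 1073504271)))) (b (l 4) (c (l 1073671183) (b (l 1073479183) (l 1073497103))))) (b (l 4) (c (b (l 1073656847) (l 1073677327)) (c (l 1073516559) (b (l 1073431055) (l 1073446927)))))), by decide +kernel⟩

def k12_A00pm_123_s3 : ∃ t, chk3 f_A00pm_123_s3 t 27 9 1 = true :=
  ⟨(b (l 4) (l 4)), by decide +kernel⟩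

def k13_A00pm_123_s3 : ∃ t, chk3 f_A00pm_123_s3 t 26 5 1 = true :=
  ⟨(b (b (a (a (a (b (b (c (l 1073698831) (l 1073550863)) (l 1073635855)) (b (l 1073656335) (l 1073675279))) (b (b (c (l 1073701903) (l 1073544719)) (c (l 1073723407) (l 1073562127))) (b (c (l 16777240) (l 16776192)) (c (l 16777392) (l 16776144))))) (a (b (c (b (l 1073702415) (l 1073724431)) (b (l 1073534991) (l 1073552911))) (b (c (l 16777240) (l 1073570319)) (l 1073668111))) (b (c (l 1073714703) (l 1073537551)) (c (l 1073757199) (l 1073572367))))) (b (c (a (l 1073714191) (l 1073708047)) (a (c (l 1073567247) (l 1073491983)) (c (l 1073552399) (l 1073469967)))) (c (b (a (l 1073745423) (l 1073738255)) (a (l 1073765391) (l 1073757199))) (b (a (l 1073552911) (l 1073533455)) (a (l 1073568271) (l 1073547279)))))) (a (b (a (b (c (l 16777552) (l 16776072)) (c (l 16777672) (l 16775936))) (c (b (l 16777504) (l 16777592)) (a (l 16776024) (l 16776048)))) (a (b (l 16776640)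 (l 16776528)) (c (l 16777680) (l 16775544)))) (a (b (c (l 1073779215) (b (l 1073571343) (l 16775960))) (c (l 16777520) (l 1073537039))) (b (c (a (l 16777384) (l 16777328)) (b (l 1073546255) (l 1073531919))) (c (l 16777320) (l 1073498127)))))) (b (a (b (a (l 16776288) (c (l 16777680) (l 16774784))) (a (l 16775840) (l 16775632))) (a (b (a (l 16776024) (l 16775936)) (l 16775376)) (b (a (l 16775840) (l 16775752)) (l 16775088)))) (a (b (l 16775304) (l 16774912)) (b (a (l 16774704) (l 16774272)) (l 16773856))))), by decide +kernel⟩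

def k14_A00pm_123_s3 : ∃ t, chk3 f_A00pm_123_s3 t 27 5 1 = true :=
  ⟨(b (a (a (b (b (c (l 1073696271) (l 1073485839)) (b (l 1073609231) (c (l 1073742863) (l 1073521679)))) (b (c (b (l 1073746447) (l 1073739791)) (b (l 1073513999) (l 1073491471))) (c (l 1073722383) (l 1073447439)))) (a (b (b (l 1073566223) (b (l 1073591823) (c (l 1073725455) (l 1073494543)))) (b (c (l 1073719311) (l 1074004495)) (l 1073537039))) (b (b (l 1073553935) (b (l 1073579023) (c (l 1073719823) (l 1074023951)))) (b (b (c (l 1073705999) (l 1073455119)) (l 1073546767)) (l 1073496079))))) (b (a (b (l 4) (a (b (c (l 1073684495) (l 1073450511)) (c (c (l 1073764879) (l 1073629199)) (c (l 1073508367) (l 1073401871)))) (b (l 4) (c (l 1073689615) (l 1073440783))))) (l 4)) (a (a (b (c (l 1073672207) (l 1073400335)) (l 1073479695)) (l 1073494031)) (b (l 1073537039) (l 1073490447))))) (b (a (b (a (l 1073530895) (c (l 16776600) (l 1073295887))) (a (l 16774792)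 (l 16774656))) (b (a (a (l 1073434639) (l 1073427983)) (l 1073449487)) (a (l 1073398287) (l 1073419279)))) (a (b (a (l 16773968) (l 16773872)) (l 16773120)) (a (b (l 16774144) (l 16773488)) (b (l 1073406479) (l 16774248)))))), by decide +kernel⟩

def k15_A00pm_123_s3 : ∃ t, chk3 f_A00pm_123_s3 t 7 4 1 = true :=
  ⟨(l 4), by decide +kernel⟩

def k16_A00pm_123_s3 : ∃ t, chk3 f_A00pm_123_s3 t 28 10 1 = true :=
  ⟨(a (b (l 4) (b (a (a (l 1073613327) (l 4)) (l 4)) (a (a (l 1073568783) (l 1073632783)) (a (c (l 1073873423) (l 1073545743)) (b (l 4) (b (l 4) (l 1073766415))))))) (l 4)), by decide +kernel⟩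

def k17_A00pm_123_s3 : ∃ t, chk3 f_A00pm_123_s3 t 56 11 1 = true :=
  ⟨(b (a (b (b (l 1073571343) (l 1073553423)) (b (l 1073540111) (l 1073532943))) (b (b (a (l 1073675279) (l 1073753103)) (a (l 1073658895) (b (l 1073740815) (l 1073733647)))) (a (b (l 1073647631) (l 1073643023)) (b (c (l 1073925135) (l 1073540623)) (l 1073725967))))) (a (b (l 1073529871) (l 16775672)) (b (a (l 1073644047) (l 1073729551)) (l 1073699343)))), by decide +kernel⟩

def k18_A00pm_123_s3 : ∃ t, chk3 f_A00pm_123_s3 t 57 11 1 = true :=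
  ⟨(b (a (b (b (a (c (l 1074016783) (a (l 1073646607) (b (l 4) (l 1073685007)))) (l 4)) (b (a (c (l 1074011151) (l 1073650191)) (a (c (l 1074076687) (l 1073719823)) (a (a (a (l 1073919503) (l 4)) (l 4)) (l 4)))) (b (a (c (l 1074009103) (l 1073641487)) (b (a (c (l 1074074639) (l 1073712655)) (a (a (l 1073649167) (a (b (l 4) (l 1073926671)) (l 4))) (l 4))) (a (c (l 1074074127) (a (l 1073698319) (l 1073722383))) (a (a (a (l 1073913871) (l 1073920527)) (l 1073929231)) (l 1073946639))))) (a (a (l 1073795599) (l 1073839631)) (a (a (l 1073874447) (a (l 1073892367) (l 1073904655))) (a (a (l 1073917455) (l 1073929231)) (l 1073946639))))))) (a (b (b (a (l 1073793039) (l 1073838607)) (l 1073815055)) (a (l 1073792527) (l 1073840143))) (b (a (b (c (l 1074077711) (a (l 1073693711) (l 1073719823))) (l 1073887759)) (a (a (l 1073917455) (l 1073929231)) (l 1073946639))) (a (l 1073888783) (l 1073936399))))) (a (a (a (b (b (l 4) (b (l 4) (b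 (l 4) (l 1073970191)))) (b (l 1073970191) (l 1073971727))) (b (l 4) (b (c (l 1074181135) (l 1073817615)) (l 1073995791)))) (b (l 4) (b (b (b (l 4) (a (l 1074018319) (l 1074042895))) (l 1074031119)) (l 1074032655)))) (b (l 4) (a (b (b (l 4) (a (l 1074068495) (a (l 1074087439) (l 1074100239)))) (l 1074082831)) (b (l 4) (c (l 1074319887) (l 1073957903))))))) (a (a (b (b (l 1073820687) (l 16777552)) (l 1073835023)) (b (a (l 1073893391) (l 1073941007)) (l 1073930255))) (b (a (l 1074014223) (b (l 1074112527) (l 1074118159))) (b (l 1074075151) (l 1074084367))))), by decide +kernel⟩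

def k19_A00pm_123_s3 : ∃ t, chk3 f_A00pm_123_s3 t 29 5 1 = true :=
  ⟨(b (l 4) (b (a (b (l 4) (a (b (l 4) (a (a (b (a (l 1074172431) (l 4)) (l 1074187279)) (a (b (l 4) (l 1074227215)) (l 4))) (l 4))) (l 4))) (l 4)) (a (b (a (a (b (a (l 1074190863) (l 1074244623)) (l 1074224143)) (b (b (a (l 1074297871) (l 4)) (l 1074329615)) (l 1074334735))) (b (l 4) (a (b (l 1074447887) (l 1074451983)) (b (l 4) (l 1074572815))))) (a (a (l 1074236943) (l 1074885647)) (b (a (l 1074459663) (l 1074580495)) (a (l 1074470415) (l 1074592271))))) (a (b (l 4) (a (b (l 1074706447) (l 1074718735)) (b (l 4) (c (l 1075020815) (l 1074693135))))) (l 4))))), by decide +kernel⟩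

def k20_A00pm_123_s3 : ∃ t, chk3 f_A00pm_123_s3 t 15 5 1 = true :=
  ⟨(l 4), by decide +kernel⟩

def k21_A00pm_123_s3 : ∃ t, chk3 f_A00pm_123_s3 t 6 6 1 = true :=
  ⟨(a (b (a (b (a (b (l 16769464) (l 16769624)) (b (l 16773216) (l 16773176))) (a (l 6) (l 16773200))) (b (a (b (l 16775040) (l 16774896)) (b (l 16775456) (l 16775376))) (a (b (l 16774832) (l 16774792)) (l 16775464)))) (a (l 6) (a (b (l 16775352) (l 6)) (b (l 16776000) (l 16778424))))) (a (b (b (a (b (l 16774968) (l 16774992)) (b (l 16773616) (l 16773952))) (a (b (l 16775000) (l 16775280)) (l 16795976))) (b (a (l 16776536) (l 16777216)) (a (l 16779936) (b (l 16780536) (l 16783736))))) (b (b (a (b (l 16772752) (l 16773144)) (a (b (l 16772952) (l 16773040)) (b (l 16773808) (b (l 16773576) (l 16773696))))) (a (l 16774904) (a (l 16775264) (b (l 16774776) (l 16776648))))) (a (b (a (l 16778184) (l 16778864)) (a (l 16783848) (b (l 16783072) (l 16786800)))) (b (a (b (l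 16778208) (l 16780824)) (b (c (l 16783200) (l 16774784)) (c (l 16786304) (l 16777120)))) (a (b (l 16783968) (l 16787816)) (b (a (l 16784552) (l 16785128)) (c (l 16794064) (a (l 16783256) (l 16784008)))))))))), by decide +kernel⟩

def k22_A00pm_123_s3 : ∃ t, chk3 f_A00pm_123_s3 t 6 7 1 = true :=
  ⟨(a (l 6) (b (a (b (a (b (l 16784808) (l 6)) (b (l 16787904) (a (l 16792136) (l 16793856)))) (a (l 6) (b (c (l 16806664) (l 16791960)) (l 6)))) (a (b (b (a (l 16790080) (l 16791360)) (a (l 16795408) (c (l 16803176) (l 16790632)))) (c (b (l 16809088) (l 16816336)) (b (a (l 16795088) (l 16796896)) (a (l 16802312) (l 16804280))))) (c (b (a (b (l 16798368) (l 16803944)) (b (a (l 16798784) (l 16799096)) (a (l 16804384) (l 16804656)))) (a (b (l 16810320) (l 16817584)) (b (a (l 16810736) (l 16810952)) (l 16818088)))) (b (a (b (l 16786800) (a (l 16791792) (l 16792528))) (a (b (c (l 16790472) (l 16785184)) (c (l 16795928) (l 16790576)))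 (b (c (l 16791096) (l 16786000)) (c (l 16796520) (l 16791376))))) (a (a (b (l 16798112) (l 16805576)) (b (l 16798872) (l 16806376))) (b (b (a (l 16797856) (l 16798528)) (l 16801688)) (b (l 16805464) (l 16809424)))))))) (a (l 6) (a (b (a (l 6) (b (b (l 16816312) (l 16820512)) (b (l 16824888) (l 6)))) (l 6)) (a (c (b (b (l 16825480) (l 16833952)) (b (l 16842904) (l 6))) (b (b (b (l 16812072) (l 16816376)) (c (l 16825752) (l 16820744))) (b (a (l 6) (l 16833056)) (l 6)))) (b (c (b (l 16825912) (l 16834248)) (b (b (l 16813552) (l 16817840)) (b (l 16822288) (l 16826872)))) (b (c (l 16842936) (b (l 16831536) (l 16836240))) (c (l 16851664) (b (l 16840896) (l 16845480)))))))))), by decide +kernel⟩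

def k23_A00pm_123_s3 : ∃ t, chk3 f_A00pm_123_s3 t 28 6 1 = true :=
  ⟨(a (a (b (b (b (l 16775488) (l 16775472)) (b (l 16776096) (l 16777960))) (b (b (l 16780208) (l 16782888)) (b (c (l 16790688) (l 16781600)) (c (l 16794800) (b (l 16784176) (l 16786184)))))) (b (b (b (l 16777032) (l 16777232)) (b (b (l 16777496) (l 16777888)) (l 16779296))) (b (b (l 16781552) (l 16784224)) (b (a (l 16787040) (l 16787672)) (b (l 16790112) (a (l 16791888) (l 16792488))))))) (b (b (b (a (b (l 16778144) (l 16778344)) (l 1074638351)) (a (l 16778704) (l 1074128399))) (b (a (l 16779352) (l 16780624)) (a (c (l 16783192) (l 16777840)) (b (l 16781384) (l 16782056))))) (b (a (b (l 16782760) (l 16785416)) (b (l 16783784) (l 16786424))) (a (b (a (l 16788256) (l 16788784)) (b (l 16791240) (l 16793296))) (b (l 16789488) (a (l 16792960) (l 16793344))))))), by decide +kernel⟩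

def k24_A00pm_123_s3 : ∃ t, chk3 f_A00pm_123_s3 t 29 6 1 = true :=
  ⟨(b (a (b (b (a (b (l 1074311183) (l 1074323983)) (b (a (l 1074483215) (l 1074606095)) (c (l 1074754063) (l 1074374671)))) (a (b (l 1074337807) (l 16780624)) (b (l 1074573327) (l 1074589711)))) (a (b (l 1074383375) (l 16803864)) (b (a (l 16781824) (l 16781864)) (l 16783440)))) (b (a (b (b (a (l 1074732047) (l 1074863631)) (a (l 1074743311) (l 1074876431))) (b (a (l 1074758671) (l 1074892303)) (a (l 1074776591) (l 1074911247)))) (b (a (b (c (l 1075168271) (l 1074847247)) (c (l 1075186703) (l 1074855439))) (b (l 4) (l 1075162127))) (a (l 1075043343) (l 1075189775)))) (a (b (a (l 1074809871) (l 1074946063)) (b (l 16783000) (l 16783984))) (b (a (l 1075087887) (l 1075235855)) (a (l 1075147279) (l 1075295759)))))) (b (a (b (a (b (l 16784000) (l 16785200)) (b (l 16784792) (c (l 16787688) (l 16784000)))) (c (l 16789856) (l 16785264))) (b (c (a (l 16787040) (l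 16786264)) (a (l 16784376) (l 16784384))) (a (b (a (l 16787296) (l 16787512)) (l 16788600)) (a (b (l 16787368) (l 16788712)) (l 16787968))))) (a (a (b (l 16790216) (a (l 16793664) (l 16793912))) (b (l 16790696) (a (l 16794088) (l 16794200)))) (b (a (l 16790904) (a (l 16790840) (b (l 16789872) (l 16791384)))) (c (a (l 16796288) (l 16795488)) (a (l 16792216) (l 16792376))))))), by decide +kernel⟩

def k25_A00pm_123_s3 : ∃ t, chk3 f_A00pm_123_s3 t 14 28 1 = true :=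
  ⟨(a (c (c (a (b (a (l 16802192) (l 16802696)) (a (l 16807696) (l 16808080))) (b (l 16803104) (a (l 16808272) (l 16808176)))) (a (b (a (l 16797032) (l 16798000)) (a (l 16802440) (l 16803304))) (b (a (l 16798808) (l 16799352)) (a (l 16803992) (l 16804400))))) (a (c (b (a (b (l 16790816) (l 16793288)) (b (l 16792240) (l 16794672))) (a (a (l 16797088) (l 16797680)) (c (l 16799848) (l 16797608)))) (b (a (b (a (l 16785616) (l 16786472)) (a (l 16788040) (l 16788880))) (b (l 16787896) (l 16790296))) (b (a (a (l 16790696) (l 16791520)) (c (l 16793992) (l 16791840))) (a (a (l 16793584) (l 16794376)) (c (l 16796808) (l 16794672)))))) (c (b (a (l 16794736) (l 16795760)) (a (l 16799888) (l 16800792))) (b (a (b (l 16789624) (l 16791992)) (b (l 16791136) (l 16793448))) (a (b (l 16794560) (l 16797328)) (a (l 16796992) (l 16797616))))))) (a (a (c (b (l 16801224) (l 16806080)) (b (a (l 16794768) (l 16795200)) (b (l 16798536) (l 16801112))))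 (b (b (l 16797136) (a (l 16799312) (l 16799296))) (c (l 16805544) (a (l 16800208) (l 16800320))))) (a (b (b (l 16797032) (a (l 16799176) (l 16798952))) (c (l 16804592) (a (l 16800328) (l 16800224)))) (b (b (l 16796520) (l 16798424)) (c (l 16803240) (a (l 16800008) (l 16799680))))))), by decide +kernel⟩

def k26_A00pm_123_s3 : ∃ t, chk3 f_A00pm_123_s3 t 14 29 1 = true :=
  ⟨(a (c (b (a (a (a (l 16811112) (l 16811272)) (a (l 16811536) (l 16811736))) (a (l 16811920) (l 16811816))) (a (a (l 16818328) (l 16818560)) (a (l 16818488) (l 16818024)))) (a (c (b (a (b (l 16801912) (l 16805256)) (b (l 16803120) (l 16806360))) (a (a (l 16810728) (l 16811176)) (c (l 16813016) (l 16810912)))) (b (a (b (a (l 16796712) (l 16797456)) (a (l 16800160) (c (l 16801976) (l 16799720)))) (a (b (l 16798344) (l 16801664)) (b (l 16799168) (l 16802448)))) (b (a (a (l 16804024) (l 16804704)) (l 16805848)) (a (a (l 16808048) (l 16808728)) (c (l 16810816)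 (l 16808880)))))) (b (a (a (b (l 16801904) (l 16805088)) (b (l 16802480) (l 16805600))) (b (l 16803200) (l 16806192))) (b (a (c (l 16810736) (l 16807048)) (c (l 16811080) (l 16807856))) (a (a (l 16812496) (l 16812824)) (l 16813104)))))) (a (a (b (c (l 16811376) (b (l 16803824) (l 16806656))) (b (a (l 16812608) (l 16812376)) (l 16815744))) (b (c (l 16810520) (a (l 16805376) (l 16805320))) (c (l 16815880) (b (l 16809448) (l 16812440))))) (a (b (c (l 16809248) (a (l 16805152) (l 16804872))) (b (l 16810736) (a (l 16813712) (l 16812928)))) (b (b (a (l 16805008) (l 16804328)) (l 16806920)) (b (l 16809208) (l 16811536)))))), by decide +kernel⟩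

def k27_A00pm_123_s3 : ∃ t, chk3 f_A00pm_123_s3 t 14 15 1 = true :=
  ⟨(b (a (c (a (a (b (a (l 16826008) (l 16826016)) (l 16834160)) (b (l 16826032) (l 16833832))) (a (b (l 16825680) (l 16833080)) (b (l 16824864) (l 16831848)))) (a (c (b (a (b (l 16816944) (l 16821120)) (b (l 16817792) (l 16821840))) (a (b (l 16825400) (l 16829776)) (l 16828112))) (b (a (a (b (l 16812248) (l 16816592)) (b (l 16812912) (l 16817240))) (b (c (l 16814888) (l 16813048)) (l 16818184))) (a (b (c (l 16822368) (l 16820456)) (l 16825960)) (b (l 16822504) (l 16826888))))) (b (a (c (l 16820256) (b (l 16814952) (l 16819016))) (b (l 16816840) (l 16820624))) (a (b (l 16824584) (l 16828656)) (a (l 16826512) (l 16826256)))))) (a (a (b (b (l 16819128) (l 16822536)) (b (l 16825968) (l 16829416))) (b (b (l 16817936) (l 16821160)) (c (l 16827928) (l 16824288)))) (a (b (b (l 16816264) (l 16819216)) (a (l 16824224) (l 16822872))) (b (a (l 16816040) (l 16814664))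 (l 16831032))))) (a (c (a (a (b (l 16842528) (l 16850824)) (b (l 16841768) (l 16849552))) (b (c (l 16841376) (l 16838384)) (l 16867704))) (a (b (a (c (l 16836472) (b (l 16830576) (l 16835176))) (b (l 16832784) (l 16837064))) (a (b (l 16841304) (l 16845648)) (a (l 16843432) (l 16843208)))) (a (a (b (l 16834872) (l 16842864)) (b (l 16834648) (l 16842336))) (b (c (l 16835136) (l 16833120)) (l 16841200))))) (a (a (b (c (l 16836584) (l 16832712)) (c (l 16842528) (l 16839104))) (b (a (l 16832712) (l 16831328)) (l 16837440))) (a (b (l 16828968) (l 16854648)) (b (l 16825296) (l 16839856)))))), by decide +kernel⟩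

def k28_A00pm_123_s3 : ∃ t, chk3 f_A00pm_123_s3 t 30 12 1 = true :=
  ⟨(a (b (b (l 4) (a (a (l 1075342863) (l 1075501583)) (l 4))) (b (a (l 1077623311) (a (l 1075715599) (l 1075891215))) (a (a (l 1075447823) (l 1075612175)) (a (l 1077393423) (b (l 1075934735) (l 1075982351)))))) (b (l 4) (b (l 4) (a (b (a (l 1076106767) (l 4)) (a (l 1076155407) (l 1076329487))) (l 4))))), by decide +kernel⟩

def k29_A00pm_123_s3 : ∃ t, chk3 f_A00pm_123_s3 t 30 13 1 = true :=
  ⟨(a (b (a (a (b (l 16784560) (l 16787424)) (b (l 1077860367) (c (l 16787464) (l 16786128)))) (b (a (b (l 1075857423) (l 1075912207)) (b (l 1076033039) (l 1076086799))) (a (a (l 16786144) (l 1076040207)) (b (l 1076142607) (l 1076200975))))) (b (b (a (a (l 16789736) (l 16789128)) (a (l 16788304) (l 16787232))) (a (a (l 16791080) (a (l 16790736) (l 16790560))) (a (l 16790112) (l 16788968)))) (a (c (l 16794288) (l 16792104)) (b (a (a (l 16791712) (l 16791320)) (a (l 16801504)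 (l 16790608))) (a (l 16793040) (l 16792248)))))) (b (a (a (a (b (c (l 1076303887) (l 1076082191)) (c (l 1076410895) (l 1076736015))) (b (c (l 1076383759) (l 1077250063)) (a (l 1076364303) (l 1076944911)))) (a (b (b (l 1076334095) (l 1076387855)) (b (l 1076444175) (l 1076503055))) (b (b (l 1076421135) (l 1076475407)) (b (l 1076532239) (l 1076591119))))) (b (a (a (b (l 1076508687) (l 1076563471)) (b (l 4) (l 1076651023))) (l 4)) (b (a (a (l 1076620303) (l 1076708367)) (a (l 1076796431) (l 1076884495))) (a (a (l 1076679183) (l 1076767759)) (a (l 1076855823) (l 1076944399)))))) (a (b (a (b (l 1076973071) (l 1078114319)) (a (b (l 1076563983) (l 16786528)) (b (l 1076652047) (l 16785672)))) (a (b (l 16789544) (b (l 16796264) (a (l 16792040) (l 16791496)))) (a (b (l 16788424) (l 16790504)) (b (l 16787592) (l 16789592))))) (b (a (a (b (l 1076740623) (l 1076811791)) (b (l 1076829199) (l 1076901903))) (a (b (l 1076917775) (l 1077529615))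 (b (l 1077543951) (l 1078697487)))) (b (a (a (l 16786688) (l 1076998159)) (a (l 1077631503) (l 1078265871))) (a (a (l 16788704) (l 16787736)) (a (l 1077738511) (l 1078369807)))))))), by decide +kernel⟩

def k30_A00pm_123_s3 : ∃ t, chk3 f_A00pm_123_s3 t 30 7 1 = true :=
  ⟨(b (a (b (a (b (b (l 16795584) (l 16797344)) (b (l 16799184) (a (l 16801496) (l 16800680)))) (b (a (l 16800672) (l 16799840)) (b (l 16797504) (a (l 16799752) (l 16798688))))) (c (b (a (l 16805424) (l 16802768)) (a (l 16809408) (l 16806304))) (a (b (a (l 16803344) (l 16802576)) (l 16812280)) (b (a (l 16801640) (l 16800584)) (l 16804640))))) (b (a (b (a (c (l 16794136) (l 16793240)) (b (a (l 16792008) (b (l 16791144) (l 16791848))) (l 16793240))) (c (l 16796520) (a (l 16796216) (l 16795104)))) (a (b (b (a (b (l 16790240) (l 16791224)) (l 16789832)) (a (l 16792296) (a (l 16796928) (b (l 16791048) (l 16791744))))) (c (l 16794152) (l 16793800))) (c (b (b (l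 16788208) (b (l 16779304) (l 16790640))) (b (l 16791568) (l 16792984))) (b (a (b (l 16788744) (a (b (l 16790648) (l 16791328)) (l 16790608))) (b (l 16787632) (l 16789848))) (b (a (l 16792104) (b (l 16790952) (l 16791624))) (l 16792880)))))) (b (b (a (l 16798312) (c (l 16795232) (l 16794880))) (a (l 16799808) (c (l 16796536) (l 16796104)))) (a (a (l 16802936) (l 16801120)) (c (l 16788008) (b (l 16797312) (l 16798496))))))) (b (a (a (b (b (l 16811216) (l 16813504)) (l 16816936)) (b (b (l 16807936) (l 16809752)) (c (l 16813528) (l 16812224)))) (b (a (b (l 16804152) (l 16805600)) (c (b (l 16800312) (l 16801496)) (b (l 16799632) (l 16800744)))) (a (c (l 16808696) (l 16807720)) (c (l 16813920) (b (l 16801936) (l 16803432)))))) (a (a (b (l 16831576) (l 16835040)) (a (b (l 16817592) (l 16820648)) (b (l 16815128) (l 16817912)))) (b (a (c (l 16811688) (l 16810936)) (b (l 16805016) (l 16806184))) (a (a (l 16815072) (l 16817392)) (b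 (c (l 16807512) (l 16807008)) (a (l 16809504) (l 16806368)))))))), by decide +kernel⟩

def k31_A00pm_123_s3 : ∃ t, chk3 f_A00pm_123_s3 t 31 6 1 = true :=
  ⟨(b (l 4) (a (a (b (a (a (b (l 4) (b (l 4) (l 1077569551))) (l 4)) (l 4)) (b (a (a (a (b (l 1077071375) (l 1077155343)) (b (l 1077638671) (l 1077739023))) (b (b (l 1077166095) (l 1078274063)) (a (l 1077789199) (l 1077831183)))) (c (b (a (l 1078359055) (l 4)) (a (l 1077370895) (l 1077973519))) (b (a (a (l 1078291983) (l 4)) (l 4)) (a (a (l 1077328399) (l 1077369359)) (b (l 4) (l 1077995023)))))) (a (c (b (l 1077892623) (l 1078245903)) (a (a (b (l 16780024) (l 16784680)) (b (l 1077303823) (l 16784064))) (a (b (l 1077353487) (l 1077464591)) (b (l 1077399567) (l 1076972559))))) (a (a (c (l 1078020623) (b (l 1077442575) (l 1076478479))) (b (l 1078008335) (a (l 1078094863) (l 1078113295)))) (c (b (c (l 1076452879) (l 1075914255)) (l 1077608463)) (a (a (b (l 1077511695) (l 1076548111))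 (b (l 1077531151) (l 1076567567))) (b (a (l 1076476431) (l 1076226575)) (l 1077670927)))))))) (b (l 4) (a (b (l 4) (b (a (b (a (l 1077550095) (l 4)) (a (l 1077599759) (l 1077631503))) (l 4)) (a (c (l 1077670415) (b (l 1077968399) (l 1078291471))) (a (b (a (l 1077702159) (l 1077717007)) (l 1077758479)) (b (l 4) (b (l 1078311951) (l 1078201359))))))) (a (a (a (a (b (l 4) (b (l 4) (b (l 4) (l 1078340111)))) (b (l 4) (l 4))) (l 4)) (l 4)) (l 4))))) (l 4))), by decide +kernel⟩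

def k32_A00pm_123_s3 : ∃ t, chk3 f_A00pm_123_s3 t 124 28 1 = true :=
  ⟨(a (a (b (b (l 1077482511) (l 1078109711)) (b (b (l 16789992) (l 16790592)) (l 16791544))) (b (b (c (l 16779816) (l 1077596175)) (c (l 16787048) (l 16781976))) (a (b (l 16792168) (l 16790832)) (b (l 16788864) (l 16790248))))) (b (b (a (a (l 1077623311) (l 1077660687)) (b (l 1077693967) (l 1077739023))) (a (a (l 1077711887) (l 1077749263)) (b (l 1078320655) (l 1077826575)))) (b (a (a (l 16788096) (l 16787376)) (b (l 1077869071) (l 16786744))) (b (a (a (l 16789504) (l 16788920)) (l 16787736)) (a (l 16789768) (a (l 16788992) (l 16788384))))))), by decide +kernel⟩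

def k33_A00pm_123_s3 : ∃ t, chk3 f_A00pm_123_s3 t 250 56 1 = true :=
  ⟨(c (a (b (l 1077751311) (l 1078902287)) (a (b (l 1077790223) (l 1077867535)) (b (l 1077817359) (l 1077894671)))) (b (b (a (l 1078344207) (a (l 1077854735) (l 1078154255))) (a (a (l 1077837839) (l 1077873167)) (a (l 1077906447) (a (l 1077928975) (l 1077944335))))) (b (a (c (l 1077878799) (l 1078750735)) (a (l 1077957647) (a (l 1077980175) (l 1077995535)))) (a (c (l 16780632) (l 1078535183)) (a (l 1078007311) (l 1078575631)))))), by decide +kernel⟩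

def k34_A00pm_123_s3 : ∃ t, chk3 f_A00pm_123_s3 t 251 56 1 = true :=
  ⟨(c (a (a (b (l 1078647823) (l 1078993935)) (b (b (l 1077845519) (l 1077884943)) (a (l 1077936655) (l 1077948431)))) (a (b (b (l 4) (l 1077907471)) (l 1079577615)) (b (l 4) (c (l 1077962767) (l 1079627279))))) (a (b (c (b (a (l 1077886991) (l 1077913615)) (a (l 1077936143) (a (l 1077954575) (l 1077967887)))) (b (c (a (l 1077931023) (a (l 1077950991) (l 4))) (a (a (l 1077956111) (l 1078105103)) (a (b (l 4) (l 1078267919)) (l 4)))) (b (a (l 1078123023) (b (a (l 1078002191) (a (l 1078011919) (l 4))) (a (l 1078150159) (a (l 1078160399) (l 1078167055))))) (c (a (l 1077998095) (l 1078294543)) (a (a (l 1078027279) (l 1078042127)) (a (l 1078056975) (a (l 1078066703) (l 1078073359)))))))) (b (a (a (l 1078278671) (b (l 1078011919) (l 1078037007))) (b (a (l 1078025743) (l 1078039055)) (a (l 1078050831) (l 1078064143)))) (a (a (l 1078060047) (l 1078074895)) (a (l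 1078625295) (a (l 1078098447) (l 1078104591)))))) (b (a (b (l 4) (b (l 4) (a (b (l 1078153743) (l 1078032399)) (a (a (l 1078032911) (l 4)) (l 4))))) (l 4)) (c (a (b (l 1078035983) (l 1078082575)) (b (l 1078058511) (l 1078103055))) (a (a (b (b (l 1078091279) (l 1078118415)) (a (l 1078088207) (l 1078081551))) (b (b (a (l 1078099983) (l 1078106127)) (l 1078109711)) (a (l 1078074895) (l 1078337039)))) (a (c (b (l 1078108687) (l 1078072847)) (b (b (a (l 1078113295) (l 4)) (l 1078083087)) (a (l 1078047247) (l 1078309391)))) (c (b (l 1078109711) (l 1078061071)) (b (b (l 4) (l 1078070799)) (b (l 1078044687) (l 1078018575)))))))))), by decide +kernel⟩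

def k35_A00pm_123_s3 : ∃ t, chk3 f_A00pm_123_s3 t 125 57 1 = true :=
  ⟨(a (b (a (c (l 1078438927) (b (l 1079081999) (l 16782704))) (b (a (l 1077980687) (a (l 1078001679) (l 1078016015))) (a (l 1078021647) (l 1079125007)))) (a (a (l 16784440) (a (l 16783840) (l 16783432))) (a (b (l 16782328) (l 16785912)) (b (l 1078091279) (l 16782352))))) (c (a (a (b (l 1077993487) (l 16783632)) (b (l 1078554639) (l 16780152))) (a (b (l 1079114255) (l 1079137295)) (b (l 1079672335) (l 1079653391)))) (b (b (b (c (a (l 1078619151) (l 1078616591)) (a (a (l 1078095375) (l 1078066703)) (a (l 1078040079) (l 1078282767)))) (a (a (l 1078099983) (l 1078072335)) (a (l 1078046223) (a (l 1078028815) (l 1078017039))))) (a (a (l 1078066191) (a (l 1078046223) (l 1078032911))) (a (a (l 1078019599) (l 1078007311)) (a (l 1077995023) (l 1078385679))))) (b (a (a (l 1078021647) (l 1078531087)) (a (c (l 1078001679) (l 1078467599)) (a (l 1077950479) (l 1077938703))))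 (a (a (l 16783936) (l 1077949455)) (a (l 1078459919) (a (l 1077905423) (l 1077893135)))))))), by decide +kernel⟩

def k36_A00pm_123_s3 : ∃ t, chk3 f_A00pm_123_s3 t 62 29 1 = true :=
  ⟨(a (b (a (l 16792752) (a (l 16791176) (a (l 16790352) (b (l 16789208) (l 16790264))))) (c (l 16793872) (b (l 16793240) (l 16794200)))) (b (a (b (b (a (a (a (l 16788552) (l 16788272)) (l 16787624)) (a (l 16786704) (l 16785760))) (c (a (l 16788432) (l 16787120)) (a (l 16788792) (a (a (l 16787632) (l 16787064)) (l 16786304))))) (a (l 16789392) (a (l 16788504) (a (l 16788040) (b (l 16787144) (l 16787968)))))) (a (c (b (l 16782232) (b (a (l 16786472) (l 16785488)) (l 16786880))) (c (a (b (l 16785136) (b (l 16786248) (l 16787184))) (b (l 16784224) (b (l 16785256) (l 16786144)))) (a (b (l 16784976) (b (a (l 16791560) (l 16785768)) (l 16787008))) (a (b (l 16784304) (b (l 16780040) (l 16786200))) (b (l 16783856) (b (l 16784872) (a (l 16785792) (l 16785520))))))))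 (a (c (b (l 16783472) (a (l 16785144) (l 16784672))) (b (b (l 1077877263) (l 1077832207)) (b (l 16784304) (b (l 16784768) (a (l 16785440) (l 16784888)))))) (c (b (l 16779944) (l 16784024)) (c (b (b (l 16782056) (l 16782792)) (l 16783816)) (b (b (l 16781960) (l 16780048)) (a (l 16783872) (l 16783440)))))))) (b (b (b (a (l 16789360) (a (l 16787432) (a (l 16785800) (a (l 16785016) (l 16784488))))) (a (l 16789584) (a (l 16787712) (a (l 16786264) (l 16785208))))) (a (l 16789920) (l 16782128))) (a (l 16790584) (c (l 16787872) (l 16788112)))))), by decide +kernel⟩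

def k37_A00pm_123_s3 : ∃ t, chk3 f_A00pm_123_s3 t 62 15 1 = true :=
  ⟨(b (a (b (b (l 16795224) (a (l 16797392) (l 16794840))) (a (b (l 16798352) (l 16799520)) (b (l 16795672) (l 16796608)))) (b (a (c (l 16791896) (l 16791800)) (b (l 16788728) (l 16789424))) (a (b (l 16792904) (c (l 16793888) (l 16793504))) (c (l 16790568) (a (l 16791080) (l 16789640)))))) (a (b (a (c (l 16801496) (l 16801072)) (b (l 16797680) (l 16798600))) (a (b (l 16802528) (l 16803144)) (b (l 16799328) (l 16799840)))) (a (b (b (l 16794600) (l 16795424)) (c (b (l 16796248) (l 16796672)) (b (l 16795968) (l 16796376)))) (b (b (c (l 16791616) (l 16791320)) (c (l 16792328) (l 16792080))) (a (b (l 16793552) (l 16793896)) (b (l 16791864) (l 16794792))))))), by decide +kernel⟩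

def k38_A00pm_123_s3 : ∃ t, chk3 f_A00pm_123_s3 t 126 28 1 = true :=
  ⟨(a (b (a (a (b (l 4) (b (l 4) (c (l 1078024207) (a (b (a (l 1078077455) (l 4)) (l 1078319631)) (a (b (l 4) (l 1078043151)) (l 4)))))) (l 4)) (l 4)) (c (b (b (a (l 1080224271) (l 4)) (a (l 1080204815) (a (l 1078033935) (l 4)))) (b (a (l 1080174095) (a (l 1078002703) (l 1077986831))) (a (l 1080141327) (a (l 1077970447) (l 1077954575))))) (b (a (a (b (a (b (l 1078028303) (l 1078005263)) (b (l 1078017039) (l 1077994511))) (c (l 1077996559) (a (l 1077936143) (l 1078193679)))) (a (b (b (l 1078006287) (l 1077983759)) (a (l 1077953039) (l 1078216207))) (b (b (l 4) (l 1077973519)) (b (l 1077950991) (l 1077928463))))) (a (b (l 4) (a (b (l 1077941263) (l 1077918735)) (b (l 4) (l 1077372943)))) (l 4))) (a (a (a (b (l 1078465039) (l 1077881359)) (b (a (l 1077919759) (l 1077914639)) (l 1077870095))) (a (b (a (l 1077909007) (l 1077903887)) (l 1077858831)) (b (a (l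 1077898767) (l 1077893647)) (l 1078116879)))) (a (a (a (b (l 1077888527) (l 1077841423)) (b (l 1078152207) (l 1077836303))) (b (b (l 1077350927) (l 1077327375)) (a (l 1077831695) (l 1077827087)))) (b (c (l 1078435343) (a (a (l 1077829647) (l 1077825551)) (a (l 1077821455) (l 4)))) (a (a (l 1077822991) (l 1077818895)) (a (l 1077814799) (l 1077944847))))))))) (b (l 4) (b (l 4) (b (l 4) (a (a (a (c (l 1077945359) (b (l 1076742671) (l 1076719631))) (a (b (l 4) (l 1077867535)) (l 4))) (l 4)) (l 4)))))), by decide +kernel⟩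

def k39_A00pm_123_s3 : ∃ t, chk3 f_A00pm_123_s3 t 252 29 1 = true :=
  ⟨(b (a (b (b (b (a (l 1078456335) (a (l 1077904911) (l 1077895183))) (a (l 1078436879) (a (l 1077885455) (l 1077875727)))) (a (a (l 1077878287) (l 1077867535)) (c (l 16781152) (a (l 1077767695) (l 1077756943))))) (c (a (l 16783136) (l 16782240)) (a (b (l 16779928) (l 16783200)) (b (a (l 16781904) (l 16781472)) (l 16779720))))) (b (b (a (a (c (l 16779720) (l 1077792271)) (b (l 1077876751) (l 1077857807))) (c (l 1077922831) (c (l 1077812751) (a (b (l 1077738511) (l 1077713423)) (b (l 1077730319) (l 1077705743)))))) (a (c (l 1077907983) (a (l 1077747215) (l 1077872143))) (c (l 1077892111) (c (l 1077771279) (a (b (l 1077689359) (l 1077664783)) (b (l 1077681167) (l 1077657103))))))) (b (a (c (l 16781000) (a (l 1077703183) (l 1077693967))) (a (b (l 1077793295) (l 1076701711)) (b (l 1077785615) (l 14)))) (a (a (a (l 16781928) (l 14)) (l 14)) (l 14))))) (a (a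 (b (a (b (a (b (l 16784176) (l 16784536)) (l 14)) (l 16785048)) (l 14)) (l 16786088)) (l 14)) (l 14))), by decide +kernel⟩

def k40_A00pm_123_s3 : ∃ t, chk3 f_A00pm_123_s3 t 253 29 1 = true :=
  ⟨(b (a (b (a (b (c (l 1077909007) (c (c (l 1077818383) (l 1078312463)) (a (b (l 1077723151) (l 1077698063)) (b (l 1077179407) (l 1078228495))))) (c (l 1077877775) (c (c (l 1077778959) (l 1078537743)) (a (b (l 1077673487) (l 1077649423)) (b (l 1077666831) (l 1077642767)))))) (b (c (l 1078433295) (a (c (l 1077790223) (c (l 1077722127) (b (l 1078222351) (l 1078196751)))) (a (b (l 4) (l 1077730831)) (l 4)))) (b (c (l 1077873167) (c (l 1077753871) (a (l 1078197775) (l 1078729743)))) (a (a (l 1077785615) (l 1077782543)) (l 14))))) (a (a (b (b (a (l 1077780495) (l 1077776911)) (l 14)) (l 14)) (l 14)) (l 14))) (a (a (b (b (l 4) (b (b (l 4) (l 14)) (l 14))) (l 14)) (b (l 4) (l 14))) (b (l 4) (l 14)))) (l 14)), by decide +kernel⟩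

def k41_A00pm_123_s3 : ∃ t, chk3 f_A00pm_123_s3 t 126 15 1 = true :=
  ⟨(a (a (a (b (b (c (l 16787296) (l 16787424)) (l 16788568)) (b (b (l 16789432) (l 16790104)) (b (l 16790584) (l 16790864)))) (l 14)) (l 14)) (l 14)), by decide +kernel⟩

def k42_A00pm_123_s3 : ∃ t, chk3 f_A00pm_123_s3 t 127 7 1 = true :=
  ⟨(b (b (l 4) (b (b (l 4) (l 14)) (l 14))) (l 14)), by decide +kernel⟩

theorem t43_A00pm_123_s3 : ∃ t, chk3 f_A00pm_123_s3 t 126 29 1 = true := ex3_a k39_A00pm_123_s3 k40_A00pm_123_s3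

theorem t44_A00pm_123_s3 : ∃ t, chk3 f_A00pm_123_s3 t 126 14 1 = true := ex3_b k38_A00pm_123_s3 t43_A00pm_123_s3

theorem t45_A00pm_123_s3 : ∃ t, chk3 f_A00pm_123_s3 t 126 7 1 = true := ex3_b t44_A00pm_123_s3 k41_A00pm_123_s3

theorem t46_A00pm_123_s3 : ∃ t, chk3 f_A00pm_123_s3 t 63 7 1 = true := ex3_a t45_A00pm_123_s3 k42_A00pm_123_s3

theorem t47_A00pm_123_s3 : ∃ t, chk3 f_A00pm_123_s3 t 125 56 1 = true := ex3_a k33_A00pm_123_s3 k34_A00pm_123_s3

theorem t48_A00pm_123_s3 : ∃ t, chk3 f_A00pm_123_s3 t 125 28 1 = true := ex3_b t47_A00pm_123_s3 k35_A00pm_123_s3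

theorem t49_A00pm_123_s3 : ∃ t, chk3 f_A00pm_123_s3 t 62 28 1 = true := ex3_a k32_A00pm_123_s3 t48_A00pm_123_s3

theorem t50_A00pm_123_s3 : ∃ t, chk3 f_A00pm_123_s3 t 62 14 1 = true := ex3_b t49_A00pm_123_s3 k36_A00pm_123_s3

theorem t51_A00pm_123_s3 : ∃ t, chk3 f_A00pm_123_s3 t 62 7 1 = true := ex3_b t50_A00pm_123_s3 k37_A00pm_123_s3

theorem t52_A00pm_123_s3 : ∃ t, chk3 f_A00pm_123_s3 t 31 7 1 = true := ex3_a t51_A00pm_123_s3 t46_A00pm_123_s3

theorem t53_A00pm_123_s3 : ∃ t, chk3 f_A00pm_123_s3 t 31 3 1 = true := ex3_b k31_A00pm_123_s3 t52_A00pm_123_s3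

theorem t54_A00pm_123_s3 : ∃ t, chk3 f_A00pm_123_s3 t 30 6 1 = true := ex3_b k28_A00pm_123_s3 k29_A00pm_123_s3

theorem t55_A00pm_123_s3 : ∃ t, chk3 f_A00pm_123_s3 t 30 3 1 = true := ex3_b t54_A00pm_123_s3 k30_A00pm_123_s3

theorem t56_A00pm_123_s3 : ∃ t, chk3 f_A00pm_123_s3 t 15 3 1 = true := ex3_a t55_A00pm_123_s3 t53_A00pm_123_s3

theorem t57_A00pm_123_s3 : ∃ t, chk3 f_A00pm_123_s3 t 14 14 1 = true := ex3_b k25_A00pm_123_s3 k26_A00pm_123_s3

theorem t58_A00pm_123_s3 : ∃ t, chk3 f_A00pm_123_s3 t 14 7 1 = true := ex3_b t57_A00pm_123_s3 k27_A00pm_123_s3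

theorem t59_A00pm_123_s3 : ∃ t, chk3 f_A00pm_123_s3 t 14 6 1 = true := ex3_a k23_A00pm_123_s3 k24_A00pm_123_s3

theorem t60_A00pm_123_s3 : ∃ t, chk3 f_A00pm_123_s3 t 14 3 1 = true := ex3_b t59_A00pm_123_s3 t58_A00pm_123_s3

theorem t61_A00pm_123_s3 : ∃ t, chk3 f_A00pm_123_s3 t 7 3 1 = true := ex3_a t60_A00pm_123_s3 t56_A00pm_123_s3

theorem t62_A00pm_123_s3 : ∃ t, chk3 f_A00pm_123_s3 t 6 3 1 = true := ex3_b k21_A00pm_123_s3 k22_A00pm_123_s3

theorem t63_A00pm_123_s3 : ∃ t, chk3 f_A00pm_123_s3 t 3 3 1 = true := ex3_a t62_A00pm_123_s3 t61_A00pm_123_s3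

theorem t64_A00pm_123_s3 : ∃ t, chk3 f_A00pm_123_s3 t 28 11 1 = true := ex3_a k17_A00pm_123_s3 k18_A00pm_123_s3

theorem t65_A00pm_123_s3 : ∃ t, chk3 f_A00pm_123_s3 t 28 5 1 = true := ex3_b k16_A00pm_123_s3 t64_A00pm_123_s3

theorem t66_A00pm_123_s3 : ∃ t, chk3 f_A00pm_123_s3 t 14 5 1 = true := ex3_a t65_A00pm_123_s3 k19_A00pm_123_s3

theorem t67_A00pm_123_s3 : ∃ t, chk3 f_A00pm_123_s3 t 7 5 1 = true := ex3_a t66_A00pm_123_s3 k20_A00pm_123_s3

theorem t68_A00pm_123_s3 : ∃ t, chk3 f_A00pm_123_s3 t 7 2 1 = true := ex3_b k15_A00pm_123_s3 t67_A00pm_123_s3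

theorem t69_A00pm_123_s3 : ∃ t, chk3 f_A00pm_123_s3 t 13 5 1 = true := ex3_a k13_A00pm_123_s3 k14_A00pm_123_s3

theorem t70_A00pm_123_s3 : ∃ t, chk3 f_A00pm_123_s3 t 52 19 1 = true := ex3_c k9_A00pm_123_s3 k10_A00pm_123_s3

theorem t71_A00pm_123_s3 : ∃ t, chk3 f_A00pm_123_s3 t 26 19 1 = true := ex3_a t70_A00pm_123_s3 k11_A00pm_123_s3

theorem t72_A00pm_123_s3 : ∃ t, chk3 f_A00pm_123_s3 t 26 9 1 = true := ex3_b k8_A00pm_123_s3 t71_A00pm_123_s3

theorem t73_A00pm_123_s3 : ∃ t, chk3 f_A00pm_123_s3 t 13 9 1 = true := ex3_a t72_A00pm_123_s3 k12_A00pm_123_s3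

theorem t74_A00pm_123_s3 : ∃ t, chk3 f_A00pm_123_s3 t 13 4 1 = true := ex3_b k7_A00pm_123_s3 t73_A00pm_123_s3

theorem t75_A00pm_123_s3 : ∃ t, chk3 f_A00pm_123_s3 t 13 2 1 = true := ex3_b t74_A00pm_123_s3 t69_A00pm_123_s3

theorem t76_A00pm_123_s3 : ∃ t, chk3 f_A00pm_123_s3 t 25 19 1 = true := ex3_a k4_A00pm_123_s3 k5_A00pm_123_s3

theorem t77_A00pm_123_s3 : ∃ t, chk3 f_A00pm_123_s3 t 25 9 1 = true := ex3_b k3_A00pm_123_s3 t76_A00pm_123_s3

theorem t78_A00pm_123_s3 : ∃ t, chk3 f_A00pm_123_s3 t 12 9 1 = true := ex3_a k2_A00pm_123_s3 t77_A00pm_123_s3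

theorem t79_A00pm_123_s3 : ∃ t, chk3 f_A00pm_123_s3 t 12 4 1 = true := ex3_b k1_A00pm_123_s3 t78_A00pm_123_s3

theorem t80_A00pm_123_s3 : ∃ t, chk3 f_A00pm_123_s3 t 12 2 1 = true := ex3_b t79_A00pm_123_s3 k6_A00pm_123_s3

theorem t81_A00pm_123_s3 : ∃ t, chk3 f_A00pm_123_s3 t 6 2 1 = true := ex3_a t80_A00pm_123_s3 t75_A00pm_123_s3

theorem t82_A00pm_123_s3 : ∃ t, chk3 f_A00pm_123_s3 t 3 2 1 = true := ex3_a t81_A00pm_123_s3 t68_A00pm_123_s3

theorem t83_A00pm_123_s3 : ∃ t, chk3 f_A00pm_123_s3 t 3 1 1 = true := ex3_b t82_A00pm_123_s3 t63_A00pm_123_s3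

theorem t84_A00pm_123_s3 : ∃ t, chk3 f_A00pm_123_s3 t 1 1 1 = true := ex3_a k0_A00pm_123_s3 t83_A00pm_123_s3

theorem c_A00pm_123_s3 : CertF 536870912 536870912 0 536870912 587336777 62277027 true true false .npn 1 2 3
    ndB0q1 ndB0q2 pcB3 cut_A00pm_123_s3 xt_A00pm_123_s3 :=
  certF2 (fam := true) (s1 := true) (s2 := false) (a := 1) (b := 2) (c := 3) (cn := .npn) (n1 := ndB0q1) (n2 := ndB0q2) (pc := pcB3) (cut := cut_A00pm_123_s3) (xt := xt_A00pm_123_s3) (P1 := 536870912) (W1 := 536870912) (P2 := 0) (W2 := 536870912) (P3 := 587336777) (W3 := 62277027)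
    rfl (fun _ => rfl) t84_A00pm_123_s3

theorem s_A00pm_123_s3 {κ x : ℝ} (hκ : κ * h0 = ken x) (hx : ((587336777 : ℕ) : ℝ) / S ≤ x)
    (hx' : x ≤ (((587336777 : ℕ) : ℝ) + (62277027 : ℕ)) / S)
    (H : CutA (VFD κ) PP tK tL pcB (Cut.of [[⟨0, 1, 0, 67108864⟩, ⟨1, 1, 0, 67108864⟩, ⟨2, 2, 0, 16777216⟩], [⟨0, 0, 1, 20971520⟩, ⟨1, 1, 0, 29360128⟩, ⟨2, 1, 1, 20971520⟩]]) 1 2 3 0 0 (sgb true) (sgb false) x) :
    AltA (VFD κ) PP tK tL pcB [⟨4, 0, 0, 2845415833⟩] 1 2 3 0 0 (sgb true) (sgb false) x :=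
  strip_altAD (m := 2845415833) false rfl hκ (SH.κ0 hκ (SH.hx1 hx).le (SH.hx2 hx').le) (SH.hx1 hx).le (SH.hx2 hx') (covB01).cov (covB02).cov hx hx' c_A00pm_123_s3 H ((okx6 hx hx').ext0A (T := tt) (zx hx hx') (okx hx hx') (sideB hx hx') hκ rfl rfl (.O 1 true) (.O 2 false) (Or.inr rfl))

noncomputable def cut_A00pm_202_s1 : Cut := Cut.of [[⟨4, 0, 0, 1449551462⟩], [⟨0, 1, 0, 67108864⟩, ⟨1, 0, 0, 67108864⟩, ⟨2, 1, 0, 67108864⟩]]

noncomputable def f_A00pm_202_s1 : ℕ → ℕ → ℕ → ℕ → Bool := onCell 0 536870912 1073741824 536870912 587336777 62277027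
    (rowF 1 true true false .pp 2 0 2 (qsf 0 536870912 0 536870912 2) ndB0q2 ndB0q0 pcB2 cut_A00pm_202_s1 Ext.none)

def k0_A00pm_202_s1 : ∃ t, chk3 f_A00pm_202_s1 t 1 4 1 = true :=
  ⟨(a (b (l 1) (l 6)) (b (b (a (l 1) (a (l 1) (l 14))) (b (a (l 1) (a (a (l 1) (l 14)) (l 14))) (b (a (l 1) (a (a (l 1) (l 14)) (l 14))) (a (l 1) (a (a (a (l 1) (l 16645720)) (a (l 16658384) (l 16670600))) (a (a (l 16682384) (l 16693712)) (b (l 14) (a (l 16699872) (a (l 16704864) (l 16707920)))))))))) (a (a (b (l 1) (l 6)) (b (a (b (l 1) (a (a (l 1) (l 16576952)) (c (l 16590016) (l 17749912679)))) (b (b (l 1) (a (l 16601224) (l 16613688))) (a (b (l 16598848) (l 16596184)) (l 16608960)))) (a (b (a (c (l 16574608) (l 88616843703)) (l 16581384)) (l 6)) (b (a (l 16591744) (l 16685768)) (c (l 16591096) (l 16587632)))))) (a (b (a (b (a (b (l 16629320) (l 16625792)) (b (l 16641720) (l 16637512))) (a (l 16620064) (l 16630832))) (b (b (a (l 16653704)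 (l 16665280)) (a (l 16648856) (l 16659824))) (c (l 16668248) (l 16645248)))) (a (b (a (l 16611760) (l 16621368)) (l 16607200)) (b (l 16677280) (l 16664496)))) (a (b (a (b (l 16689152) (l 16660424)) (b (l 16703784) (l 16709424))) (a (b (l 16646080) (l 16632384)) (b (l 16684128) (l 16680408)))) (b (a (b (c (c (l 16722128) (l 16690056)) (l 16700024)) (a (l 16672440) (l 16696528))) (a (b (a (l 16714816) (l 16716336)) (b (l 16682440) (l 16674488))) (b (a (b (l 16700944) (l 16692688)) (b (l 16702360) (l 16694040))) (b (a (l 16684504) (l 16685800)) (l 16687584))))) (a (b (a (l 16657264) (l 16660128)) (a (l 16642680) (l 16645288))) (a (c (b (l 16664744) (l 16650136)) (b (l 16661112) (l 16645504))) (b (a (c (l 16666816) (l 16662688)) (b (l 16669688) (l 16661824))) (b (l 16674576) (l 16667008))))))))))), by decide +kernel⟩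

def k1_A00pm_202_s1 : ∃ t, chk3 f_A00pm_202_s1 t 2 5 1 = true :=
  ⟨(l 6), by decide +kernel⟩

def k2_A00pm_202_s1 : ∃ t, chk3 f_A00pm_202_s1 t 6 5 1 = true :=
  ⟨(b (b (a (l 6) (b (a (l 6) (l 16581824)) (l 6))) (l 6)) (l 6)), by decide +kernel⟩

def k3_A00pm_202_s1 : ∃ t, chk3 f_A00pm_202_s1 t 14 10 1 = true :=
  ⟨(b (b (a (l 16596984) (l 16652240)) (b (a (l 16589072) (l 16601528)) (b (a (l 16585272) (l 16597288)) (b (a (l 16583400) (l 16595192)) (a (l 16582160) (l 16593800)))))) (a (b (l 6) (l 6)) (b (l 16587608) (l 16660744)))), by decide +kernel⟩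

def k4_A00pm_202_s1 : ∃ t, chk3 f_A00pm_202_s1 t 15 10 1 = true :=
  ⟨(b (a (b (a (l 16619336) (l 16666816)) (b (a (l 16609928) (l 16615024)) (b (a (l 16605344) (l 16610216)) (a (b (l 16603080) (l 16643504)) (b (l 16607832) (a (l 16647032) (a (l 16648696) (l 16649768)))))))) (b (a (a (l 16628664) (l 16672936)) (a (b (l 16636680) (l 16629512)) (b (l 16659568) (l 16652248)))) (b (a (l 16619576) (a (l 16622456) (b (l 16625856) (l 16622272)))) (c (a (b (l 16617320) (b (l 16614688) (b (b (b (l 16613632) (a (l 16612200) (l 16614272))) (l 16612968)) (l 16612360)))) (a (b (l 16620368) (b (l 16617624) (b (b (b (l 16616520) (b (l 16616280) (l 16616080))) (l 16615816)) (l 16615184)))) (b (l 16622120) (b (b (l 16619816) (l 16618816)) (b (b (b (l 16618152) (b (l 16617912) (b (a (l 16622584) (b (l 16618144) (l 16618072))) (l 16617672)))) (l 16617432)) (l 16616776)))))) (a (b (l 16611888) (b (l 16609432) (b (b (b (l 16608560) (a (l 16607600)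 (l 16609240))) (l 16608136)) (l 16607480)))) (b (a (l 16614160) (l 16615328)) (b (a (l 16611624) (b (l 16613128) (l 16612296))) (b (b (b (l 16621800) (a (b (l 16610600) (l 16610568)) (b (l 16611680) (b (b (l 16611656) (a (l 16611416) (l 16611872))) (l 16611616))))) (a (l 16610280) (l 16611352))) (a (l 16609600) (l 16610656)))))))))) (a (a (b (l 16594808) (l 16583064)) (b (l 16641040) (l 16586664))) (a (b (b (l 16606120) (l 16599528)) (l 16589672)) (b (a (b (l 16608480) (l 16601616)) (b (a (l 16609440) (b (l 16611776) (l 16608200))) (b (l 16604424) (l 16621912)))) (a (l 16591360) (b (l 16595664) (l 16588672))))))), by decide +kernel⟩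

def k5_A00pm_202_s1 : ∃ t, chk3 f_A00pm_202_s1 t 7 11 1 = true :=
  ⟨(a (l 6) (a (b (b (l 16635920) (l 6)) (l 6)) (a (b (c (l 16615816) (l 16651024)) (l 6)) (b (b (a (l 16577920) (l 16578376)) (l 16607016)) (b (l 16552528) (l 6)))))), by decide +kernel⟩

def k6_A00pm_202_s1 : ∃ t, chk3 f_A00pm_202_s1 t 1 3 1 = true :=
  ⟨(a (l 6) (l 6)), by decide +kernel⟩

theorem t7_A00pm_202_s1 : ∃ t, chk3 f_A00pm_202_s1 t 7 10 1 = true := ex3_a k3_A00pm_202_s1 k4_A00pm_202_s1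

theorem t8_A00pm_202_s1 : ∃ t, chk3 f_A00pm_202_s1 t 7 5 1 = true := ex3_b t7_A00pm_202_s1 k5_A00pm_202_s1

theorem t9_A00pm_202_s1 : ∃ t, chk3 f_A00pm_202_s1 t 3 5 1 = true := ex3_a k2_A00pm_202_s1 t8_A00pm_202_s1

theorem t10_A00pm_202_s1 : ∃ t, chk3 f_A00pm_202_s1 t 1 5 1 = true := ex3_a k1_A00pm_202_s1 t9_A00pm_202_s1

theorem t11_A00pm_202_s1 : ∃ t, chk3 f_A00pm_202_s1 t 1 2 1 = true := ex3_b k0_A00pm_202_s1 t10_A00pm_202_s1

theorem t12_A00pm_202_s1 : ∃ t, chk3 f_A00pm_202_s1 t 1 1 1 = true := ex3_b t11_A00pm_202_s1 k6_A00pm_202_s1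

theorem c_A00pm_202_s1 : CertF 0 536870912 0 536870912 587336777 62277027 true true false .pp 2 0 2
    ndB0q2 ndB0q0 pcB2 cut_A00pm_202_s1 Ext.none :=
  certF1 (fam := true) (s1 := true) (s2 := false) (a := 2) (b := 0) (c := 2) (cn := .pp) (n1 := ndB0q2) (n2 := ndB0q0) (pc := pcB2) (cut := cut_A00pm_202_s1) (xt := Ext.none) (P1 := 0) (W1 := 536870912) (P2 := 0) (W2 := 536870912) (P3 := 587336777) (W3 := 62277027)
    rfl (fun _ => rfl) t12_A00pm_202_s1

theorem s_A00pm_202_s1 {κ x : ℝ} (hκ : κ * h0 = ken x) (hx : ((587336777 : ℕ) : ℝ) / S ≤ x)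
    (hx' : x ≤ (((587336777 : ℕ) : ℝ) + (62277027 : ℕ)) / S)
    (H : CutA (VFD κ) PP tK tL pcB (Cut.of [[⟨0, 1, 0, 67108864⟩, ⟨1, 0, 0, 67108864⟩, ⟨2, 1, 0, 67108864⟩]]) 2 0 2 0 0 (sgb true) (sgb false) x) :
    AltA (VFD κ) PP tK tL pcB [⟨3, 0, 0, 1449551462⟩] 2 0 2 0 0 (sgb true) (sgb false) x :=
  strip_altAD (m := 1449551462) true rfl hκ (SH.κ0 hκ (SH.hx1 hx).le (SH.hx2 hx').le) (SH.hx1 hx).le (SH.hx2 hx') (covB02).cov (covB00).cov hx hx' c_A00pm_202_s1 H (noExt_A)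

noncomputable def cut_A00pm_202_s3 : Cut := Cut.of [[⟨3, 0, 0, 2845415833⟩], [⟨0, 1, 0, 67108864⟩, ⟨1, 0, 0, 67108864⟩, ⟨2, 1, 0, 67108864⟩]]

noncomputable def f_A00pm_202_s3 : ℕ → ℕ → ℕ → ℕ → Bool := onCell 0 536870912 1073741824 536870912 587336777 62277027
    (rowF 1 true true false .pp 2 0 2 (qsf 0 536870912 0 536870912 2) ndB0q2 ndB0q0 pcB2 cut_A00pm_202_s3 Ext.none)

def k0_A00pm_202_s3 : ∃ t, chk3 f_A00pm_202_s3 t 1 1 1 = true :=
  ⟨(b (l 6) (a (l 6) (l 6))), by decide +kernel⟩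

theorem c_A00pm_202_s3 : CertF 0 536870912 0 536870912 587336777 62277027 true true false .pp 2 0 2
    ndB0q2 ndB0q0 pcB2 cut_A00pm_202_s3 Ext.none :=
  certF1 (fam := true) (s1 := true) (s2 := false) (a := 2) (b := 0) (c := 2) (cn := .pp) (n1 := ndB0q2) (n2 := ndB0q0) (pc := pcB2) (cut := cut_A00pm_202_s3) (xt := Ext.none) (P1 := 0) (W1 := 536870912) (P2 := 0) (W2 := 536870912) (P3 := 587336777) (W3 := 62277027)
    rfl (fun _ => rfl) k0_A00pm_202_s3

theorem s_A00pm_202_s3 {κ x : ℝ} (hκ : κ * h0 = ken x) (hx : ((587336777 : ℕ) : ℝ) / S ≤ x)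
    (hx' : x ≤ (((587336777 : ℕ) : ℝ) + (62277027 : ℕ)) / S)
    (H : CutA (VFD κ) PP tK tL pcB (Cut.of [[⟨0, 1, 0, 67108864⟩, ⟨1, 0, 0, 67108864⟩, ⟨2, 1, 0, 67108864⟩]]) 2 0 2 0 0 (sgb true) (sgb false) x) :
    AltA (VFD κ) PP tK tL pcB [⟨4, 0, 0, 2845415833⟩] 2 0 2 0 0 (sgb true) (sgb false) x :=
  strip_altAD (m := 2845415833) false rfl hκ (SH.κ0 hκ (SH.hx1 hx).le (SH.hx2 hx').le) (SH.hx1 hx).le (SH.hx2 hx') (covB02).cov (covB00).cov hx hx' c_A00pm_202_s3 H (noExt_A)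

noncomputable def cut_A00pm_203_s1 : Cut := Cut.of [[⟨4, 0, 0, 1449551462⟩]]

noncomputable def f_A00pm_203_s1 : ℕ → ℕ → ℕ → ℕ → Bool := onCell 0 536870912 1610612736 536870912 587336777 62277027
    (rowF 1 true true false .up 2 0 3 (qsf 0 536870912 0 536870912 3) ndB0q2 ndB0q0 pcB3 cut_A00pm_203_s1 Ext.none)

def k0_A00pm_203_s1 : ∃ t, chk3 f_A00pm_203_s1 t 1 1 1 = true :=
  ⟨(l 6), by decide +kernel⟩

theorem c_A00pm_203_s1 : CertF 0 536870912 0 536870912 587336777 62277027 true true false .up 2 0 3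
    ndB0q2 ndB0q0 pcB3 cut_A00pm_203_s1 Ext.none :=
  certF1 (fam := true) (s1 := true) (s2 := false) (a := 2) (b := 0) (c := 3) (cn := .up) (n1 := ndB0q2) (n2 := ndB0q0) (pc := pcB3) (cut := cut_A00pm_203_s1) (xt := Ext.none) (P1 := 0) (W1 := 536870912) (P2 := 0) (W2 := 536870912) (P3 := 587336777) (W3 := 62277027)
    rfl (fun _ => rfl) k0_A00pm_203_s1

theorem s_A00pm_203_s1 {κ x : ℝ} (hκ : κ * h0 = ken x) (hx : ((587336777 : ℕ) : ℝ) / S ≤ x)
    (hx' : x ≤ (((587336777 : ℕ) : ℝ) + (62277027 : ℕ)) / S) :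
    AltA (VFD κ) PP tK tL pcB [⟨3, 0, 0, 1449551462⟩] 2 0 3 0 0 (sgb true) (sgb false) x :=
  strip_altAD (m := 1449551462) true rfl hκ (SH.κ0 hκ (SH.hx1 hx).le (SH.hx2 hx').le) (SH.hx1 hx).le (SH.hx2 hx') (covB02).cov (covB00).cov hx hx' c_A00pm_203_s1 cutA_nil (noExt_A)

noncomputable def cut_A00pm_203_s3 : Cut := Cut.of [[⟨3, 0, 0, 2845415833⟩]]

noncomputable def f_A00pm_203_s3 : ℕ → ℕ → ℕ → ℕ → Bool := onCell 0 536870912 0 536870912 587336777 62277027
    (rowF 0 true true false .up 2 0 3 (qsf 0 536870912 0 536870912 3) ndB0q2 ndB0q0 pcB3 cut_A00pm_203_s3 Ext.none)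

def k0_A00pm_203_s3 : ∃ t, chk3 f_A00pm_203_s3 t 1 1 1 = true :=
  ⟨(a (b (l 1) (b (a (b (l 1) (a (b (l 1) (a (l 16675560) (l 6))) (l 6))) (l 6)) (a (b (a (b (a (l 16679408) (l 6)) (a (l 16680920) (l 16661880))) (l 6)) (a (b (a (b (l 16691176) (l 16708216)) (l 16684080)) (a (b (l 16723168) (l 16735728)) (b (l 16709896) (l 16724160)))) (b (a (b (l 16657240) (l 16677392)) (l 6)) (a (b (l 16696696) (l 16712864)) (b (l 16683136) (l 16701168)))))) (b (l 6) (l 6))))) (l 6)), by decide +kernel⟩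

theorem c_A00pm_203_s3 : CertF 0 536870912 0 536870912 587336777 62277027 true true false .up 2 0 3
    ndB0q2 ndB0q0 pcB3 cut_A00pm_203_s3 Ext.none :=
  certF0 (fam := true) (s1 := true) (s2 := false) (a := 2) (b := 0) (c := 3) (cn := .up) (n1 := ndB0q2) (n2 := ndB0q0) (pc := pcB3) (cut := cut_A00pm_203_s3) (xt := Ext.none) (P1 := 0) (W1 := 536870912) (P2 := 0) (W2 := 536870912) (P3 := 587336777) (W3 := 62277027)
    rfl k0_A00pm_203_s3

theorem s_A00pm_203_s3 {κ x : ℝ} (hκ : κ * h0 = ken x) (hx : ((587336777 : ℕ) : ℝ) / S ≤ x)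
    (hx' : x ≤ (((587336777 : ℕ) : ℝ) + (62277027 : ℕ)) / S) :
    AltA (VFD κ) PP tK tL pcB [⟨4, 0, 0, 2845415833⟩] 2 0 3 0 0 (sgb true) (sgb false) x :=
  strip_altAD (m := 2845415833) false rfl hκ (SH.κ0 hκ (SH.hx1 hx).le (SH.hx2 hx').le) (SH.hx1 hx).le (SH.hx2 hx') (covB02).cov (covB00).cov hx hx' c_A00pm_203_s3 cutA_nil (noExt_A)

noncomputable def cut_A00pm_213_s1 : Cut := Cut.of [[⟨4, 0, 0, 1449551462⟩], [⟨0, 1, 0, 67108864⟩, ⟨1, 1, 0, 67108864⟩, ⟨2, 2, 0, 16777216⟩], [⟨0, 1, 0, 29360128⟩, ⟨1, 0, 1, 20971520⟩, ⟨2, 1, 1, 20971520⟩]]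

noncomputable def f_A00pm_213_s1 : ℕ → ℕ → ℕ → ℕ → Bool := onCell 0 536870912 536870912 536870912 587336777 62277027
    (rowF 0 true true false .pnn 2 1 3 (qsf 0 536870912 536870912 536870912 3) ndB0q2 ndB0q1 pcB3 cut_A00pm_213_s1 Ext.none)

def k0_A00pm_213_s1 : ∃ t, chk3 f_A00pm_213_s1 t 1 1 1 = true :=
  ⟨(l 6), by decide +kernel⟩

theorem c_A00pm_213_s1 : CertF 0 536870912 536870912 536870912 587336777 62277027 true true false .pnn 2 1 3
    ndB0q2 ndB0q1 pcB3 cut_A00pm_213_s1 Ext.none :=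
  certF0 (fam := true) (s1 := true) (s2 := false) (a := 2) (b := 1) (c := 3) (cn := .pnn) (n1 := ndB0q2) (n2 := ndB0q1) (pc := pcB3) (cut := cut_A00pm_213_s1) (xt := Ext.none) (P1 := 0) (W1 := 536870912) (P2 := 536870912) (W2 := 536870912) (P3 := 587336777) (W3 := 62277027)
    rfl k0_A00pm_213_s1

theorem s_A00pm_213_s1 {κ x : ℝ} (hκ : κ * h0 = ken x) (hx : ((587336777 : ℕ) : ℝ) / S ≤ x)
    (hx' : x ≤ (((587336777 : ℕ) : ℝ) + (62277027 : ℕ)) / S)
    (H : CutA (VFD κ) PP tK tL pcB (Cut.of [[⟨0, 1, 0, 67108864⟩, ⟨1, 1, 0, 67108864⟩, ⟨2, 2, 0, 16777216⟩], [⟨0, 1, 0, 29360128⟩, ⟨1, 0, 1, 20971520⟩, ⟨2, 1, 1, 20971520⟩]]) 2 1 3 0 0 (sgb true) (sgb false) x) :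
    AltA (VFD κ) PP tK tL pcB [⟨3, 0, 0, 1449551462⟩] 2 1 3 0 0 (sgb true) (sgb false) x :=
  strip_altAD (m := 1449551462) true rfl hκ (SH.κ0 hκ (SH.hx1 hx).le (SH.hx2 hx').le) (SH.hx1 hx).le (SH.hx2 hx') (covB02).cov (covB01).cov hx hx' c_A00pm_213_s1 H (noExt_A)

end Pool.Agent.Strip051.G.I5470_6050.Tab.St.C
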