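import Pool.Agent.Strip051.G.I5470_6050.StH
import Pool.Agent.Strip051.G.I5470_6050.StF

/-! # Unit strips 23 (generated) -/

set_option linter.all false
set_option maxRecDepth 100000

namespace Pool.Agent.Strip051.G.I5470_6050.Tab.St.C

open Pool.Agent.Strip051.PB Pool.Agent.Strip051.PB.T Pool.Agent.StripNear Pool.Agent.Strip051.LC
open Pool.Agent.Strip051.G.I5470_6050.Tab Pool.Agent.Strip051.G.I5470_6050.Tab.St

noncomputable def cut_A00pm_213_s3 : Cut := Cut.of [[⟨3, 0, 0, 2845415833⟩], [⟨0, 1, 0, 67108864⟩, ⟨1, 1, 0, 67108864⟩, ⟨2, 2, 0, 16777216⟩], [⟨0, 1, 0, 29360128⟩, ⟨1, 0, 1, 20971520⟩, ⟨2, 1, 1, 20971520⟩]]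

noncomputable def xt_A00pm_213_s3 : Ext := strExt0 dd true true false .u2 .u0m .s2m .pnn 2 1 3 rfl rfl gl3 vv ww kz ndB0q2 ndB0q1

noncomputable def f_A00pm_213_s3 : ℕ → ℕ → ℕ → ℕ → Bool := onCell 0 536870912 1610612736 536870912 587336777 62277027
    (rowF 1 true true false .pnn 2 1 3 (qsf 0 536870912 536870912 536870912 3) ndB0q2 ndB0q1 pcB3 cut_A00pm_213_s3 xt_A00pm_213_s3)

def k0_A00pm_213_s3 : ∃ t, chk3 f_A00pm_213_s3 t 2 2 1 = true :=
  ⟨(b (a (l 1) (l 6)) (b (a (b (b (l 1) (a (a (l 16737008) (l 16726552)) (a (l 16717664) (l 16710072)))) (a (b (a (l 16747384) (l 16738296)) (a (l 1071048719) (a (l 16749912) (l 16746328)))) (b (a (l 16730776) (l 16724712)) (a (l 16720832) (l 16737152))))) (a (a (b (a (l 16695704) (l 6)) (b (l 16719792) (l 16712512))) (a (b (l 6) (l 16722776)) (l 6))) (l 6))) (a (a (a (b (l 1071977999) (b (l 1072266767) (l 1072427535))) (b (a (l 1072074767) (b (l 16754536) (l 16760936))) (a (b (l 1072358415)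 (l 1072515599)) (a (b (l 1072403983) (l 1072559631)) (b (l 16754816) (l 1072590863)))))) (b (a (b (l 16740216) (a (l 16758568) (l 16756608))) (b (l 16746928) (a (l 16755048) (l 16753816)))) (b (a (a (a (l 16764232) (l 16763256)) (l 16762000)) (a (l 16760624) (l 16759576))) (a (b (a (b (l 16766360) (l 16767344)) (l 16765208)) (a (b (l 16768488) (l 16769584)) (l 16767552))) (a (b (l 16763920) (l 16766424)) (b (l 16762936) (l 16765600))))))) (a (b (a (b (l 16744240) (l 16752456)) (b (l 16741312) (l 16750968))) (a (b (l 16737624) (a (l 16753176) (l 16763256))) (b (l 16757728) (a (l 16762952) (l 16762744))))) (b (a (b (l 6) (l 16748520)) (l 6)) (a (b (l 16756544) (l 16762712)) (b (l 16755504) (b (l 16760760) (l 16764584))))))))), by decide +kernel⟩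

def k1_A00pm_213_s3 : ∃ t, chk3 f_A00pm_213_s3 t 8 12 1 = true :=
  ⟨(b (a (b (l 1072648207) (l 4)) (b (a (l 1072736271) (a (a (l 1072773135) (l 1072788495)) (b (l 1072758799) (b (l 16773456) (l 1072891407))))) (a (b (l 1072886287) (b (l 1072953871) (l 4))) (b (a (a (l 1072923151) (b (l 1072914959) (l 1072961551))) (b (c (l 16775240) (l 1072809487)) (c (l 1073127951) (l 1072861711)))) (a (b (a (a (l 1072986639) (b (l 1072983055) (l 1073005071))) (a (l 1073001999) (l 1073011215))) (b (a (a (l 1073018383) (l 1073026063)) (b (l 1073032207) (l 1073043471))) (a (a (l 4) (l 1073046543)) (l 1073061903)))) (b (a (c (l 1073162255) (l 1072900623)) (l 1073045007)) (b (a (l 1073059343) (l 1073079823)) (l 1073092623)))))))) (a (l 4) (b (a (l 4) (a (b (a (l 4) (c (l 1073242127) (l 1072995343))) (l 4)) (b (c (l 1073267727) (l 1073031695)) (c (l 1073330703) (l 1073106959))))) (l 4)))), by decide +kernel⟩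

def k2_A00pm_213_s3 : ∃ t, chk3 f_A00pm_213_s3 t 9 24 1 = true :=
  ⟨(b (b (a (a (a (l 1072794127) (a (l 16770848) (l 16770504))) (b (l 16769232) (l 16770248))) (a (b (l 16768248) (l 16769344)) (l 16768160))) (a (a (a (b (l 16775304) (l 1072928271)) (b (l 16772008) (l 16772792))) (b (a (l 16771416) (l 16770920)) (a (l 16772248) (l 16771784)))) (a (a (l 16770976) (l 16770664)) (a (l 16770424) (l 16770240))))) (a (a (b (a (b (l 1072978959) (c (l 1073161231) (l 1072907279))) (b (c (l 16774192) (l 16772904)) (c (l 16774744) (l 16773648)))) (a (b (c (l 1073204239) (l 1072959503)) (l 1073122319)) (b (a (l 1073105935) (l 1073126415)) (a (l 1073153039) (l 1073173007))))) (b (b (a (l 16773000) (l 16772576)) (a (b (l 16773520) (l 16773848)) (l 16773296))) (a (b (c (l 16774888) (l 16773800)) (a (l 1073193487) (b (l 16774632) (l 16774888)))) (c (b (l 16774608) (b (l 16774976) (l 16775200))) (b (l 16773384) (l 16776664)))))) (b (a (a (b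 (l 16772240) (l 16772992)) (b (l 16771992) (l 16772776))) (b (l 16771744) (a (l 16772616) (l 16772520)))) (a (c (b (a (l 16774408) (l 16774272)) (a (l 16774912) (l 16774800))) (b (a (l 16773064) (l 16772840)) (a (l 16773752) (l 16773544)))) (c (b (l 16774192) (a (l 16774744) (l 16774736))) (b (l 16772624) (l 16773360))))))), by decide +kernel⟩

def k3_A00pm_213_s3 : ∃ t, chk3 f_A00pm_213_s3 t 18 50 1 = true :=
  ⟨(a (a (b (c (l 1073301519) (l 1073079311)) (a (b (l 1073225743) (l 1073255951)) (b (l 1073245711) (a (l 1073270799) (a (l 1073278479) (a (l 1073282063) (l 1073552911))))))) (b (a (b (l 1073194511) (c (l 1073344015) (l 1073135119))) (b (l 1073214479) (c (l 1073360911) (l 1073159183)))) (c (b (a (a (l 1073370639) (l 1073379343)) (c (l 1073451023) (l 1073336847))) (a (b (a (l 1073392143) (l 1073400335)) (a (b (l 1073401871) (a (l 1073406479) (l 1073410575))) (b (l 1073410063) (l 1073416719)))) (b (c (l 1073471503) (l 1073358351))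 (c (l 1073484303) (l 1073372175))))) (b (a (a (l 1073166351) (l 1073178127)) (b (l 1073186831) (c (l 1073246735) (l 1073166351)))) (a (b (a (l 1073191439) (l 1073203215)) (a (b (l 1073202703) (a (l 1073207311) (l 1073212943))) (b (l 1073214479) (l 1073221647)))) (b (a (l 1073214479) (l 1073226255)) (c (l 1073276943) (l 1073198607)))))))) (b (b (a (a (c (l 1073344015) (l 1073141775)) (c (l 1073360911) (l 1073165839))) (c (b (l 16775408) (l 16775600)) (b (l 16774472) (l 16774736)))) (a (c (b (a (l 16776064) (l 16775936)) (c (l 16776336) (l 16775992))) (b (a (l 16775456) (l 16775248)) (c (l 16775704) (l 16775464)))) (a (c (l 1073412111) (l 1073229839)) (c (l 1073429007) (l 1073253391))))) (c (b (a (a (b (l 1073401359) (l 1073415695)) (c (l 1073482255) (l 1073373199))) (c (l 1073774095) (l 1073400847))) (a (b (c (l 1073494543) (l 1073385999)) (c (l 1073507343) (l 1073399311))) (c (b (l 1073525263) (l 1073538063)) (b (l 1073421839)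 (l 1073435151))))) (c (b (a (a (l 1073260047) (l 1073281551)) (l 1073313807)) (a (b (l 1073294351) (l 1073308687)) (l 1073344527))) (b (a (a (l 1073182735) (l 1073207823)) (l 1073246223)) (a (b (l 1073221135) (l 1073236495)) (l 1073278991))))))), by decide +kernel⟩

def k4_A00pm_213_s3 : ∃ t, chk3 f_A00pm_213_s3 t 18 51 1 = true :=
  ⟨(a (b (b (b (a (a (l 4) (a (l 4) (a (b (l 1073295375) (l 4)) (a (b (l 1073298959) (l 4)) (b (c (l 1073409551) (l 1073209871)) (b (l 1073306127) (l 4))))))) (b (a (a (c (c (l 1073474063) (l 1073358863)) (a (b (l 1073212431) (l 1073216015)) (l 1073220111))) (c (l 1073422863) (l 1073228815))) (c (l 1073435151) (l 1073246223))) (c (l 1073433103) (l 1073241615)))) (a (l 4) (c (l 1073441295) (l 1073251343)))) (a (l 4) (c (c (l 1073515535) (l 1073403919)) (c (l 1073309199) (l 1073232399))))) (a (l 4) (a (l 4) (b (c (l 1073483791) (l 1073299471)) (l 4))))) (b (b (c (a (b (c (l 1073519119) (l 1073411599))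 (l 1073474575)) (c (l 1073554959) (l 1073453583))) (a (c (b (l 1073321999) (l 1073334287)) (l 1073257487)) (c (l 1073370639) (l 1073307151)))) (c (c (a (l 1073545743) (l 1073575951)) (a (l 1073439247) (l 1073474575))) (a (c (l 1073351183) (l 1073281551)) (c (l 1073392655) (l 1073330703))))) (c (c (a (b (l 1073563663) (l 1073578511)) (b (l 1073593359) (l 1073608207))) (a (b (l 1073457167) (l 1073472527)) (b (l 1073492495) (l 1073506831)))) (c (a (b (l 1073370127) (l 1073384463)) (b (l 1073411087) (l 1073425423))) (a (b (l 1073301007) (l 1073315855)) (b (l 1073349647) (l 1073363471))))))), by decide +kernel⟩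

def k5_A00pm_213_s3 : ∃ t, chk3 f_A00pm_213_s3 t 19 50 1 = true :=
  ⟨(c (b (a (b (a (b (l 16775240) (l 16775440)) (c (l 16775600) (l 16774920))) (c (a (l 1073507343) (l 16775944)) (a (l 16775448) (l 16775336)))) (a (b (l 16775200) (c (l 16775952) (l 16775272))) (b (l 16775216) (l 16775616)))) (a (a (b (c (c (l 16776392) (l 16776136)) (l 1073437199)) (c (c (l 1073590287) (l 1073536527)) (l 1073464847))) (b (c (a (l 16776224) (l 16776224)) (l 16775688)) (a (c (l 16776464) (l 16776008)) (c (l 16776464) (l 16775968))))) (a (b (c (l 16776248) (l 16775632)) (c (l 16776488) (l 16775936))) (b (l 16775952) (c (l 16776560) (l 16775936)))))) (b (a (b (a (a (l 16774384) (l 16774272)) (l 16774144)) (a (c (l 16775016) (l 16774680)) (a (l 16774688) (l 16774616)))) (a (b (l 16774008) (l 16774528)) (b (l 16773920) (l 16774456)))) (a (a (b (c (l 1073356815) (l 1073296399)) (c (l 1073386511) (l 1073328655))) (b (c (l 16775264) (l 16774960))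 (c (l 1073695759) (l 16775360)))) (a (b (a (l 16775000) (l 16774952)) (c (l 16775520) (l 16775232))) (b (l 16774904) (l 16775280)))))), by decide +kernel⟩

def k6_A00pm_213_s3 : ∃ t, chk3 f_A00pm_213_s3 t 38 51 1 = true :=
  ⟨(a (b (c (c (b (c (l 1073612815) (l 1073559567)) (c (l 1073632783) (l 1073580047))) (b (l 1073488911) (l 1073509903))) (c (b (l 1073412623) (l 1073434127)) (b (l 1073356303) (l 1073379343)))) (c (c (a (b (l 1073615887) (l 1073630223)) (b (l 1073630735) (c (l 1073672207) (l 1073618959)))) (a (b (l 1073518607) (l 1073532431)) (b (l 1073536015) (l 1073549839)))) (c (a (l 1073448975) (b (l 1073461775) (l 1073475599))) (a (l 1073392655) (b (l 1073409039) (l 1073422351)))))) (c (b (c (a (b (l 1073608207) (l 1073628175)) (b (l 1073622543) (l 1073641999))) (b (a (l 1073515023) (l 16776224)) (a (l 1073535503) (l 1073551375)))) (a (c (b (c (l 1073671695) (l 1073619983)) (c (l 1073686031) (l 1073633807))) (b (l 1073552399)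 (c (l 1073587215) (l 1073545743)))) (c (b (b (l 16776896) (l 16776952)) (c (l 1073698831) (l 1073647631))) (b (l 1073567759) (b (l 16776712) (l 1073583119)))))) (b (c (b (c (l 16775992) (l 16775856)) (b (l 16776120) (l 1073477647))) (a (b (l 16775736) (l 1073413647)) (b (l 16775656) (l 16775944)))) (a (c (b (l 1073480719) (l 1073494031)) (b (l 1073431055) (l 1073443855))) (c (b (l 1073497615) (l 1073509391)) (b (l 1073449487) (l 1073460751))))))), by decide +kernel⟩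

def k7_A00pm_213_s3 : ∃ t, chk3 f_A00pm_213_s3 t 39 51 1 = true :=
  ⟨(b (c (c (a (b (a (l 16776664) (l 16776688)) (b (l 16776800) (l 16776864))) (b (l 16776752) (l 16776904))) (a (c (b (l 16776304) (l 16776496)) (b (l 16776088) (l 16776304))) (b (l 16776184) (l 16776392)))) (c (a (b (l 16775816) (c (l 16776136) (l 16776000))) (b (l 16775760) (l 16776000))) (a (b (l 16775560) (a (l 16775872) (l 16775808))) (b (l 16775472) (l 16775736))))) (a (b (c (c (a (c (l 16777040) (l 16776840)) (c (l 16777080) (l 16776848))) (b (l 16776528) (l 16776600))) (a (c (l 1073512975) (l 16776104)) (c (l 16776248) (l 16776040)))) (b (c (a (c (l 16777008) (l 16776680)) (c (l 16777024) (l 16776656))) (c (l 16776408) (l 16776224))) (c (a (c (l 16777040) (l 16776744)) (c (l 16777064) (l 16776720))) (a (c (l 16776512) (l 16776352)) (l 16776352))))) (b (c (c (a (l 16776992) (l 16777040)) (l 16776552)) (c (l 16776192) (l 16775952))) (c (a (c (l 16777080)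 (l 16776672)) (c (l 16777120) (l 16776672))) (c (a (l 16776368) (l 16776328)) (l 16776128)))))), by decide +kernel⟩

def k8_A00pm_213_s3 : ∃ t, chk3 f_A00pm_213_s3 t 10 12 1 = true :=
  ⟨(b (b (a (a (b (l 16767760) (l 16770096)) (b (l 16767600) (l 16770088))) (a (l 16753216) (l 16768872))) (a (a (b (a (l 16772048) (l 16772048)) (c (a (l 16774512) (l 16774616)) (a (l 16772896) (l 16772896)))) (b (a (l 16772104) (l 16772208)) (a (l 16773720) (l 16773848)))) (a (b (l 16772344) (l 16774032)) (b (l 16772408) (l 16774104))))) (a (b (a (b (c (a (b (l 16775280) (l 16775688)) (l 16775608)) (a (l 16774168) (l 16774184))) (c (a (b (l 16776032) (l 16776312)) (b (l 16776160) (l 16776440))) (a (b (l 16774880) (l 16775256)) (l 16775088)))) (c (b (a (l 16775784) (l 16775992)) (a (l 16776488) (l 16776704))) (b (l 16774312) (a (l 16775144) (l 16775232))))) (a (b (c (a (b (l 16776536) (a (l 16776688) (l 16776736))) (b (l 16776664) (l 16776832)))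 (a (b (l 16775560) (l 16775800)) (b (l 16775560) (l 16775792)))) (c (a (b (a (l 16776816) (l 16776864)) (a (l 16776920) (l 16776960))) (b (l 16776960) (l 16777048))) (a (b (l 16775992) (a (l 16776160) (l 16776128))) (b (l 16775968) (l 16776096))))) (b (a (c (a (l 16776872) (l 16776976)) (l 16775720)) (c (l 16777136) (l 16775776))) (a (b (a (l 16776440) (l 16776488)) (a (l 16776544) (l 16776584))) (b (l 16776568) (l 16776656)))))) (b (a (b (l 16785712) (a (l 16775976) (l 16776048))) (b (l 16775312) (l 16776088))) (a (b (a (l 16776456) (l 16776512)) (c (l 16777608) (l 16775984))) (b (l 16776512) (a (l 16776664) (l 16776584))))))), by decide +kernel⟩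

def k9_A00pm_213_s3 : ∃ t, chk3 f_A00pm_213_s3 t 11 12 1 = true :=
  ⟨(b (a (b (a (l 16768864) (l 16768992)) (a (b (l 16772360) (l 16774064)) (l 16773240))) (b (a (l 16769120) (l 16769304)) (a (l 16773256) (l 16773248)))) (a (b (a (b (l 16775224) (l 16775968)) (l 16775456)) (a (b (l 16776328) (l 16776384)) (b (l 16776032) (l 16776000)))) (b (a (l 16775344) (l 16775184)) (a (l 16775688) (l 16775632))))), by decide +kernel⟩

def k10_A00pm_213_s3 : ∃ t, chk3 f_A00pm_213_s3 t 8 13 1 = true :=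
  ⟨(l 4), by decide +kernel⟩

def k11_A00pm_213_s3 : ∃ t, chk3 f_A00pm_213_s3 t 18 13 1 = true :=
  ⟨(b (b (a (l 4) (a (l 4) (b (c (c (b (l 1073620495) (l 1073629711)) (b (l 1073518095) (l 1073525775))) (b (c (l 1073435663) (l 1073373199)) (a (l 4) (b (l 1073417231) (l 4))))) (l 4)))) (l 4)) (l 4)), by decide +kernel⟩

def k12_A00pm_213_s3 : ∃ t, chk3 f_A00pm_213_s3 t 38 52 2 = true :=
  ⟨(b (a (a (b (c (l 1073641999) (l 1073543183)) (c (l 1073651215) (l 1073550863))) (a (b (l 1073602063) (c (l 1073661967) (l 1073563151))) (b (c (l 1073660431) (l 1073564175)) (c (a (l 1073667087) (l 1073670671)) (b (l 1073570319) (l 1073572879)))))) (b (a (c (a (l 1073667087) (l 1073673743)) (a (l 1073572367) (l 1073579535))) (c (a (c (l 1073707023) (l 1073654799)) (b (l 16777064) (l 1073688591))) (a (l 1073586191) (b (l 16776824) (l 16776880))))) (b (a (a (c (l 1073673743) (l 1073577487)) (c (l 1073680399) (l 1073584143))) (c (a (l 1073686543)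 (l 1073692175)) (a (l 1073590799) (l 1073596943)))) (a (a (c (l 1073677327) (l 1073580047)) (c (l 1073683471) (l 1073586191))) (a (c (l 1073689615) (l 1073592335)) (l 1073644047)))))) (a (a (b (b (l 1073602575) (l 4)) (l 4)) (a (b (b (l 1073614351) (b (l 1073615887) (l 4))) (l 4)) (a (b (b (a (l 1073618959) (l 1073621007)) (b (a (l 1073620495) (c (l 1073674767) (l 1073574927))) (c (b (a (l 1073674255) (l 1073675791)) (l 1073676815)) (b (a (l 1073573391) (l 1073574927)) (l 1073576463))))) (l 4)) (b (b (b (l 1073623055) (a (l 1073623055) (l 1073624591))) (b (b (l 1073624591) (a (l 1073623567) (l 1073625103))) (b (l 1073624591) (l 1073625103)))) (l 1073626639))))) (b (a (b (a (b (c (l 1073679375) (l 1073581071)) (a (l 1073627151) (l 1073629711))) (b (l 1073633807) (l 1073633807))) (b (a (a (l 1073627151) (l 1073630223)) (l 1073634319)) (a (l 1073629199) (l 1073634319)))) (b (c (l 1073694223) (l 1073595407)) (b (l 1073642511) (l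 1073642511)))) (a (l 1073633295) (l 1073644047))))), by decide +kernel⟩

def k13_A00pm_213_s3 : ∃ t, chk3 f_A00pm_213_s3 t 39 52 2 = true :=
  ⟨(b (a (a (b (b (c (l 1073693199) (l 16776800)) (c (l 1073697807) (l 1073603599))) (b (c (l 1073701391) (l 1073605647)) (c (l 1073703951) (l 1073606671)))) (b (c (c (l 16777192) (l 16777016)) (l 1073614351)) (b (l 1073662479) (l 1073664015)))) (b (a (b (l 16776928) (l 1073671695)) (c (l 16777168) (l 16776768))) (a (b (l 1073673743) (l 1073674767)) (l 1073685519)))) (b (a (b (a (l 1073653263) (l 1073664015)) (a (l 1073653263) (l 1073664527))) (b (l 1073680399) (l 1073680911))) (a (l 1073660431) (l 1073682447)))), by decide +kernel⟩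

def k14_A00pm_213_s3 : ∃ t, chk3 f_A00pm_213_s3 t 19 53 2 = true :=
  ⟨(a (a (l 4) (a (l 4) (b (b (l 1073645071) (l 4)) (l 4)))) (b (a (c (l 1073717775) (l 1073609231)) (c (l 1073739279) (l 1073630223))) (a (c (l 1073715727) (l 1073602063)) (l 1073677327)))), by decide +kernel⟩

def k15_A00pm_213_s3 : ∃ t, chk3 f_A00pm_213_s3 t 19 26 6 = true :=
  ⟨(c (b (a (b (a (a (l 1073486351) (a (l 1073500687) (b (l 1073506319) (l 1073512463)))) (b (a (l 1073519119) (l 1073532943)) (a (a (l 1073520143) (l 1073527311)) (a (l 1073533455) (l 1073539087))))) (a (b (a (b (l 1073491983) (l 4)) (a (b (l 1073505807) (b (l 1073505807) (l 4))) (b (a (l 1073511951) (l 1073516559)) (b (a (l 1073512975) (l 1073517071)) (a (l 1073512463) (l 1073515023)))))) (a (l 4) (a (l 4) (b (l 1073513487) (l 4))))) (b (a (b (a (l 1073521167) (l 1073526799)) (b (l 1073521679) (l 1073521679))) (b (l 1073534991) (l 1073532431))) (l 1073525775)))) (b (a (b (b (l 16776608)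 (l 16776672)) (l 1073553423)) (b (l 16776544) (l 1073573903))) (b (a (a (l 1073543695) (l 1073553423)) (l 1073568783)) (l 1073555983)))) (a (a (l 4) (b (l 1073521167) (l 4))) (b (a (l 1073540623) (l 1073560079)) (l 1073538575)))) (b (a (a (b (a (l 1073452559) (a (l 1073467407) (b (l 1073474575) (l 1073479695)))) (b (a (b (l 1073456655) (l 4)) (a (b (l 1073471503) (b (l 1073471503) (l 4))) (b (a (l 1073478159) (l 1073483279)) (b (a (l 1073478671) (l 1073483279)) (a (l 1073478159) (l 1073480719)))))) (a (l 4) (a (l 4) (b (l 1073478159) (l 4)))))) (b (b (a (l 1073487887) (l 1073502223)) (a (a (l 1073487887) (l 1073495055)) (b (l 1073504271) (l 1073503759)))) (b (a (b (a (l 1073487887) (l 1073493519)) (b (l 1073487375) (l 1073486863))) (b (l 1073501199) (l 1073497103))) (l 1073489423)))) (b (a (b (b (l 16776512) (l 16776576)) (a (l 1073515535) (l 1073525775))) (b (l 16776416) (l 1073540623))) (b (a (a (l 1073508367) (l 1073518095))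 (l 1073532431)) (l 1073518607)))) (a (a (l 4) (b (l 1073482255) (l 4))) (b (a (l 1073501199) (l 1073519631)) (a (l 1073486351) (l 1073503759)))))), by decide +kernel⟩

def k16_A00pm_213_s3 : ∃ t, chk3 f_A00pm_213_s3 t 19 26 7 = true :=
  ⟨(a (b (a (b (a (b (l 1073408015) (l 1073412623)) (a (b (l 1073425423) (l 1073430031)) (b (l 1073436687) (b (l 1073440271) (l 1073441295))))) (b (a (b (l 1073413647) (l 4)) (a (b (l 1073430543) (b (l 1073429519) (l 4))) (b (a (l 1073437711) (b (l 1073443343) (l 1073442831))) (b (a (a (l 1073436687) (l 1073438735)) (b (l 1073441807) (l 1073439247))) (a (b (a (l 1073436175) (l 1073438223)) (l 1073440271)) (l 1073438735)))))) (a (l 4) (a (l 4) (a (l 4) (l 1073435151)))))) (b (b (a (a (l 1073446927) (l 1073455119)) (b (l 1073465871) (l 1073466895))) (a (a (b (l 1073449487) (l 1073449999)) (b (l 1073457167) (l 1073456655))) (b (a (l 1073463823) (l 1073469967)) (a (l 1073462287) (l 1073467919)))))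 (b (a (b (a (b (l 1073448975) (l 1073447439)) (l 1073453583)) (b (a (l 1073444879) (l 1073448975)) (l 1073444367))) (b (l 1073460751) (l 1073454607))) (l 1073444879)))) (a (l 4) (b (b (l 1073437711) (l 4)) (l 4)))) (b (b (a (a (a (b (l 1073476623) (l 1073474575)) (b (l 1073482767) (l 1073479695))) (b (l 1073491471) (l 1073486863))) (b (l 1073775631) (b (l 16776360) (l 1073497615)))) (b (a (b (l 1073473551) (l 1073467919)) (l 1073487887)) (a (l 1073462799) (l 1073479695)))) (b (a (b (l 1073455119) (l 1073445903)) (l 1073467407)) (a (b (l 1073436175) (l 4)) (l 1073446415))))), by decide +kernel⟩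

def k17_A00pm_213_s3 : ∃ t, chk3 f_A00pm_213_s3 t 19 27 1 = true :=
  ⟨(l 4), by decide +kernel⟩

def k18_A00pm_213_s3 : ∃ t, chk3 f_A00pm_213_s3 t 10 26 1 = true :=
  ⟨(a (b (b (a (a (c (b (c (l 16777256) (l 16776776)) (c (l 16777272) (l 16776832))) (b (c (l 16776408) (l 16776136)) (b (l 16776328) (l 1073541647)))) (c (b (l 16777096) (l 1073723407)) (b (l 16776192) (l 1073561615)))) (a (b (a (l 16776608) (l 16776632)) (c (l 16777240) (l 16776192))) (c (a (l 16777352) (l 16777440)) (b (l 16776128) (l 16776144))))) (a (c (b (a (l 1073702415) (l 1073723919)) (a (l 1073703951) (l 1073725455))) (a (b (c (l 1073569295) (l 1073504783)) (l 1073528847)) (b (l 1073552399) (l 1073546767)))) (c (a (b (l 16777240) (l 16777248)) (c (l 16777736) (l 16777048))) (a (c (l 1073605647) (l 1073533967)) (b (l 16776184) (l 16776240)))))) (a (c (b (a (l 1073703439) (l 1073724431)) (a (l 1073697807) (l 1073717775))) (b (a (c (l 1073558031) (l 1073483791))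 (c (l 1073576463) (l 1073499663))) (c (l 1073552399) (a (l 1073462287) (l 1073477135))))) (a (c (b (l 1073745423) (l 1073738255)) (b (l 1073552911) (l 1073532943))) (c (b (l 1073765391) (b (l 16777296) (l 1073754127))) (b (b (l 16776296) (l 1073563151)) (c (l 1073593871) (l 1073504783))))))) (b (a (b (a (c (l 16777552) (l 16776072)) (c (l 16777672) (l 16775936))) (a (b (l 16776736) (l 16776752)) (b (l 16776696) (l 16776688)))) (b (a (l 16776640) (l 16776528)) (c (l 16777680) (l 16775544)))) (b (a (c (a (l 16777432) (l 16777480)) (a (c (l 16776456) (l 16775928)) (l 16775960))) (b (l 16776480) (l 16779048))) (a (a (c (l 1073765391) (b (l 16776248) (l 16776304))) (b (l 16776648) (l 16776632))) (c (l 16777320) (a (l 16775672) (l 16775264))))))), by decide +kernel⟩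

def k19_A00pm_213_s3 : ∃ t, chk3 f_A00pm_213_s3 t 11 26 1 = true :=
  ⟨(a (b (a (b (l 16776288) (c (l 16777680) (l 16774784))) (b (l 16775840) (l 16775632))) (a (b (c (l 16777440) (l 16774664)) (c (l 16777160) (l 16774544))) (b (l 16775376) (l 16775088)))) (b (a (l 16775304) (l 16774912)) (a (b (l 16774704) (l 16774272)) (l 16773856)))), by decide +kernel⟩

def k20_A00pm_213_s3 : ∃ t, chk3 f_A00pm_213_s3 t 5 27 1 = true :=
  ⟨(a (a (a (b (a (b (c (l 1073686031) (l 1073746447)) (l 4)) (b (b (l 1073596431) (l 1073586191)) (b (l 1073574927) (l 1073562639)))) (l 4)) (a (b (c (b (l 1073724943) (l 1073706511)) (b (l 1073508879) (l 1073480207))) (b (b (b (l 1073568783) (l 4)) (l 4)) (l 4))) (a (b (b (c (l 1073739279) (l 1073519631)) (b (l 1073604111) (a (l 1073589263) (l 1073591823)))) (a (b (b (c (l 1073700367) (b (l 1073468943) (l 1073460239))) (l 4)) (l 4)) (b (b (c (l 1073702927) (b (l 1073469967) (l 1073459727))) (l 1073561615))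 (l 4)))) (b (b (c (l 1073745423) (l 1073521679)) (b (l 1073605647) (c (l 1073715215) (l 1073477647)))) (b (b (c (b (l 1073717775) (l 1073691151)) (b (l 1073478159) (l 1073442831))) (l 1073551375)) (l 4)))))) (b (b (a (a (c (b (l 16777256) (l 16777216)) (b (l 16776368) (l 1073503759))) (c (c (l 16777528) (l 16776904)) (c (l 16776344) (l 16775856)))) (c (a (l 16777144) (l 16777048)) (b (l 16775496) (l 16775512)))) (b (a (a (c (l 1073724943) (l 1074018831)) (c (l 16777112) (l 16776192))) (c (l 16776952) (l 1073397775))) (a (a (a (a (l 1073582095) (l 1073576463)) (l 1073567247)) (l 1073545743)) (c (l 16776888) (l 1073358351))))) (b (a (b (a (b (l 1073549839) (l 1073537551)) (l 1073516047)) (l 1073518607)) (b (l 1073478671) (l 1073470479))) (a (b (l 1073517583) (l 1073555983)) (l 1073490447))))) (a (b (a (b (a (l 16775784) (l 16775376)) (a (l 1073479183) (l 16775280))) (b (l 16774792) (l 16774656))) (a (b (b (l 1073434639) (l 1073427983))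 (a (l 1073458703) (l 1073439759))) (b (a (l 16775056) (l 16774672)) (b (l 16775224) (l 16775664))))) (b (a (b (l 16773968) (l 16773872)) (l 16773120)) (a (b (l 16774144) (b (l 16774528) (l 16775080))) (b (l 16773488) (l 16774248)))))), by decide +kernel⟩

def k21_A00pm_213_s3 : ∃ t, chk3 f_A00pm_213_s3 t 4 7 1 = true :=
  ⟨(l 4), by decide +kernel⟩

def k22_A00pm_213_s3 : ∃ t, chk3 f_A00pm_213_s3 t 10 14 1 = true :=
  ⟨(b (b (a (l 4) (a (b (b (l 1073613327) (l 4)) (l 4)) (a (b (b (l 1073579023) (l 1073643023)) (b (c (l 1073878543) (l 1073560591)) (l 4))) (b (l 1073590287) (b (l 1073693711) (c (l 1073943567) (b (l 1073589263) (l 1073630223)))))))) (l 4)) (l 4)), by decide +kernel⟩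

def k23_A00pm_213_s3 : ∃ t, chk3 f_A00pm_213_s3 t 11 56 1 = true :=
  ⟨(a (b (a (a (l 1073570831) (b (l 1073520655) (l 1073586703))) (a (b (l 16776248) (l 1073573903)) (b (l 16776008) (l 16776464)))) (b (a (a (l 1073675279) (c (l 1073850895) (l 1073477647))) (a (c (l 1073847311) (l 1073458191)) (l 1073643023))) (a (a (c (l 1073934351) (l 1073582607)) (a (l 1073740815) (c (l 1073926159) (l 1073551887)))) (a (a (c (l 1073925135) (l 1073543183)) (b (l 16777128) (l 1073747983))) (c (l 1073929231) (l 1073532431)))))) (b (a (b (l 16775688) (l 16776248)) (l 16775672)) (a (a (b (l 16776776) (l 1073727503)) (b (l 16776704) (l 16777176))) (a (l 16776944) (l 16776952))))), by decide +kernel⟩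

def k24_A00pm_213_s3 : ∃ t, chk3 f_A00pm_213_s3 t 22 57 1 = true :=
  ⟨(b (a (b (a (a (a (l 4) (b (l 1073817615) (l 4))) (b (l 1073811471) (c (l 1074035727) (l 1073685007)))) (a (c (l 1074011151) (b (l 1073627663) (l 1073672719))) (a (c (l 1074009103) (b (l 1073618959) (l 1073664015))) (c (l 1074008591) (b (l 1073614351) (l 1073659919)))))) (a (l 4) (a (b (c (l 1074076687) (c (l 1073805327) (l 1073637391))) (a (l 4) (b (b (l 1073920527) (l 4)) (l 4)))) (a (a (b (c (l 1074074639) (c (l 1073799695) (l 1073628687))) (b (a (b (l 1073918479) (l 4)) (b (a (l 1073917967) (a (l 1073917455) (l 1073917455))) (b (a (l 1073926671) (l 1073926159)) (l 4)))) (l 4))) (b (b (l 1073875471) (a (l 1073899023) (l 1073899023))) (b (a (c (l 1074108431) (b (l 1073741327) (l 1073754127))) (b (l 1073916943) (l 1073929231))) (l 1073946639)))) (b (a (c (l 1074074127) (b (l 1073696783) (l 1073721359))) (b (l 1073874447) (l 1073898511))) (b (b (l 1073916943)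 (l 1073929231)) (l 1073946639))))))) (a (b (a (c (b (l 1073987087) (l 1074030607)) (b (l 1073609231) (a (l 1073657359) (l 1073655311)))) (b (l 1073792015) (l 1073838607))) (b (a (a (b (l 1073873935) (l 1073898511)) (l 1073886735)) (l 1073887247)) (a (b (l 1073654799) (l 1073946639)) (l 1073934863)))) (b (b (l 1073792527) (l 1073840143)) (b (l 1073888783) (l 1073935887))))) (b (b (a (b (a (l 4) (a (l 4) (a (l 4) (l 1073970191)))) (l 4)) (a (c (l 1074169871) (a (l 1073806351) (l 1073804303))) (l 1073984015))) (a (l 4) (a (c (l 1074216463) (a (a (l 4) (l 1073856015)) (l 1073854991))) (l 1074032655)))) (a (l 4) (b (a (a (l 4) (a (b (l 1074068495) (l 4)) (l 1074081295))) (a (l 1074082319) (l 1074083343))) (a (l 4) (a (c (l 1074317839) (l 1073958415)) (l 1074134543))))))), by decide +kernel⟩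

def k25_A00pm_213_s3 : ∃ t, chk3 f_A00pm_213_s3 t 23 57 1 = true :=
  ⟨(b (a (b (a (l 1073820175) (l 16777552)) (a (l 1073915407) (l 1073919503))) (b (l 1073835023) (l 1073929743))) (a (a (b (l 1074011663) (a (l 1074110991) (l 1074113551))) (b (l 1074016783) (l 1074117647))) (a (l 1074075151) (l 1074083855)))), by decide +kernel⟩

def k26_A00pm_213_s3 : ∃ t, chk3 f_A00pm_213_s3 t 11 29 1 = true :=
  ⟨(a (b (a (l 4) (b (a (l 4) (b (a (a (l 4) (a (l 4) (b (l 1074186255) (l 4)))) (b (l 1074187279) (c (l 1074423311) (l 1074068495)))) (l 4))) (l 4))) (l 4)) (b (a (a (b (b (b (l 1074190351) (l 1074244623)) (a (b (l 1074297871) (l 4)) (b (l 1074300943) (l 1074357263)))) (l 4)) (b (b (l 1074223631) (l 1074871311)) (b (a (l 1074447887) (l 1074451983)) (a (l 4) (l 1074572815))))) (a (b (b (l 1074231823) (l 1074342927)) (b (l 1074459151) (l 1074580495))) (b (b (l 1074241551) (l 1074353679)) (b (l 1074470415) (l 1074592271))))) (b (a (l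 4) (a (b (a (l 4) (l 1074709007)) (l 4)) (b (l 1075255311) (b (l 1075353103) (l 4))))) (l 4)))), by decide +kernel⟩

def k27_A00pm_213_s3 : ∃ t, chk3 f_A00pm_213_s3 t 5 15 1 = true :=
  ⟨(l 4), by decide +kernel⟩

def k28_A00pm_213_s3 : ∃ t, chk3 f_A00pm_213_s3 t 3 2 1 = true :=
  ⟨(b (l 6) (b (l 6) (a (l 6) (l 6)))), by decide +kernel⟩

def k29_A00pm_213_s3 : ∃ t, chk3 f_A00pm_213_s3 t 6 6 1 = true :=
  ⟨(b (a (b (a (b (a (l 16769464) (l 16769624)) (a (l 16773216) (l 16773176))) (b (l 6) (l 16773200))) (a (b (a (l 16775040) (l 16774896)) (a (l 16775456) (l 16775376))) (b (a (l 16774832) (l 16774792)) (l 16775464)))) (b (l 6) (a (b (l 16775352) (l 16776000)) (b (l 6) (l 16778424))))) (b (a (a (b (a (l 16774968) (l 16774992)) (a (l 16773616) (l 16773952))) (b (a (l 16775000) (l 16775280)) (l 16795976))) (a (b (l 16776536) (l 16777216)) (b (l 16779936) (a (l 16780536) (l 16783736))))) (a (a (b (a (l 16772752) (l 16773144)) (b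 (a (l 16772952) (l 16773040)) (a (l 16773808) (a (l 16773576) (l 16773696))))) (b (l 16774904) (b (l 16775264) (a (l 16774776) (l 16776648))))) (b (a (b (l 16778184) (l 16778864)) (b (l 16783848) (a (l 16783072) (l 16786800)))) (a (b (a (l 16778208) (l 16780824)) (a (c (l 16783200) (l 16774784)) (c (l 16786304) (l 16777120)))) (a (b (l 16783968) (b (l 16784552) (l 16785128))) (b (l 16787816) (c (l 16794064) (b (l 16783256) (l 16784008)))))))))), by decide +kernel⟩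

def k30_A00pm_213_s3 : ∃ t, chk3 f_A00pm_213_s3 t 6 28 1 = true :=
  ⟨(b (b (a (a (a (l 16775488) (l 16775472)) (a (l 16776096) (l 16777960))) (a (a (l 16780208) (l 16782888)) (a (c (l 16790688) (l 16781600)) (c (l 16794800) (a (l 16784176) (l 16786184)))))) (a (a (a (l 16777032) (l 16777232)) (a (a (l 16777496) (l 16777888)) (l 16779296))) (a (a (l 16781552) (l 16784224)) (a (a (l 16786504) (l 16788216)) (a (l 16790112) (a (l 16791656) (l 16792744))))))) (a (a (b (a (a (l 16778144) (l 16778344)) (l 16778704)) (a (a (l 1074095119) (l 1074106895)) (a (l 16779560) (l 16779952)))) (a (b (l 16779352) (l 16780624)) (b (c (l 16783192) (l 16777840)) (a (l 16781384) (l 16782056))))) (a (a (c (l 16786184) (l 16780512)) (b (l 16785416) (l 16786424))) (a (b (a (l 16787680) (l 16789368)) (l 16789488)) (a (b (l 16791240) (l 16792152)) (b (l 16793296) (l 16794168))))))), by decide +kernel⟩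

def k31_A00pm_213_s3 : ∃ t, chk3 f_A00pm_213_s3 t 6 29 1 = true :=
  ⟨(a (a (a (b (b (a (l 1074847759) (l 1074323471)) (a (b (l 1074483215) (l 1074604559)) (b (l 1074496015) (l 1074617871)))) (b (a (b (c (l 1074912783) (l 1074562575)) (c (l 1075037711) (l 1074701327))) (b (l 1075280911) (c (l 1075055119) (l 1074707471)))) (a (b (c (l 1075167759) (l 1074846735)) (l 4)) (b (c (l 1075186703) (l 1074855439)) (l 1075162127))))) (b (b (a (l 1074337807) (l 16780624)) (a (b (l 16780152) (l 1074632207)) (l 1075126287))) (b (a (b (l 1074758671) (l 1074892303)) (b (l 1074776591) (l 1074911247))) (b (a (l 1075032591) (l 1075052047)) (l 1075189775))))) (b (b (a (a (l 16781184) (l 16781784)) (l 16803864)) (a (b (l 16781824) (l 16781864)) (l 16783440))) (a (a (b (l 1074867215) (l 1075688463)) (b (l 1074892303) (l 1075177487))) (b (a (l 16783000) (l 16783984)) (a (l 1075207183) (l 1075243535)))))) (a (b (a (b (a (l 16784000) (l 16785200))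 (a (l 16784792) (c (l 16787688) (l 16784000)))) (c (l 16789856) (l 16785264))) (a (c (b (l 16787040) (l 16786264)) (b (l 16784376) (l 16784384))) (a (b (a (l 16787144) (l 16787656)) (l 16787256)) (b (l 16788600) (b (l 16788712) (l 16788648)))))) (b (a (b (l 16790216) (l 16790696)) (a (b (l 16792808) (l 16793200)) (b (l 16794768) (l 16795104)))) (a (b (l 16790904) (a (a (l 16789568) (l 16790392)) (l 16791480))) (c (b (l 16796288) (l 16795488)) (b (l 16792216) (l 16792376))))))), by decide +kernel⟩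

def k32_A00pm_213_s3 : ∃ t, chk3 f_A00pm_213_s3 t 12 30 1 = true :=
  ⟨(b (a (a (l 4) (b (a (l 1075414543) (l 1075435535)) (l 4))) (a (b (b (l 1075389455) (l 1075549711)) (b (l 1075715087) (l 1077497359))) (b (a (l 1077129743) (l 1077168143)) (b (a (l 1075760143) (l 1075797519)) (a (a (l 1075922959) (l 1075941391)) (a (l 1075972623) (l 1075992079))))))) (a (l 4) (b (a (l 4) (a (a (l 4) (b (l 1076117519) (l 4))) (b (l 1076155407) (l 1076866063)))) (l 4)))), by decide +kernel⟩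

def k33_A00pm_213_s3 : ∃ t, chk3 f_A00pm_213_s3 t 13 60 1 = true :=
  ⟨(a (b (a (b (l 16784560) (a (l 16783080) (l 16784504))) (b (l 16787424) (c (l 16787464) (l 16786128)))) (a (a (b (l 1075857423) (l 1076033551)) (b (l 1075912207) (l 1076623887))) (a (b (l 16785088) (l 1077216271)) (b (l 16786672) (a (l 16785136) (l 16785960)))))) (a (a (b (b (l 16789736) (l 16789128)) (b (l 16788304) (l 16787232))) (b (a (b (l 16790720) (l 16790352)) (l 16791136)) (b (l 16790112) (l 16788968)))) (b (c (l 16794288) (l 16792104)) (a (a (b (l 16791136) (l 16790392)) (b (l 16791936) (l 16801656))) (a (l 16792192) (l 16793056)))))), by decide +kernel⟩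

def k34_A00pm_213_s3 : ∃ t, chk3 f_A00pm_213_s3 t 13 61 1 = true :=
  ⟨(a (b (a (b (a (l 1076206607) (a (l 1076245519) (l 1076273167))) (a (a (l 1076366863) (l 1076930063)) (b (l 1076387855) (a (l 1076461071) (l 1076488719))))) (b (c (a (l 1076424207) (l 1076480015)) (a (l 1076754447) (l 1077352975))) (a (b (l 1076444175) (l 1076532239)) (a (l 1076534287) (l 1076564495))))) (a (b (b (a (a (l 4) (l 1076521487)) (l 1076562959)) (a (l 4) (l 1076651023))) (l 4)) (a (a (b (l 1077189135) (a (l 1076821519) (l 1076835855))) (b (l 1077218319) (c (l 1076919311) (l 1076807695)))) (a (b (l 1077248015) (a (l 1076880399) (l 1076895247))) (b (l 1077278223) (a (l 1076910607) (l 1076925967))))))) (b (a (c (a (b (l 16786224) (l 1076697615)) (b (l 16788040) (l 16786352))) (a (b (l 1077954575) (b (l 16784504) (l 16783688))) (b (l 16787336) (c (l 16785992) (l 16785792))))) (b (a (l 16789544) (a (l 16796264) (a (l 16791536) (l 16791920)))) (a (c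 (l 16788272) (l 16787792)) (a (l 16789496) (l 16790592))))) (b (b (a (a (l 1077277199) (l 1078422031)) (a (l 16786688) (l 16788704))) (a (a (l 1077902863) (c (l 16783896) (l 1077926415))) (a (a (l 16785208) (l 16786208)) (l 16787736)))) (b (b (a (a (l 1076893711) (l 1077505039)) (a (l 16784936) (l 16786960))) (a (a (l 1076938255) (l 1078087183)) (a (l 16781776) (l 16786416)))) (a (a (a (l 1076989455) (l 1077021199)) (a (l 1077060111) (l 1077109263))) (a (a (l 1077163535) (l 1077217807)) (c (l 16785600) (l 16780320)))))))), by decide +kernel⟩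

def k35_A00pm_213_s3 : ∃ t, chk3 f_A00pm_213_s3 t 6 31 1 = true :=
  ⟨(a (l 4) (b (a (b (a (l 4) (a (l 4) (b (b (a (l 1077016079) (l 1077046799)) (l 4)) (l 4)))) (l 4)) (b (a (b (b (a (a (l 1077078031) (l 1077110287)) (a (l 1077684751) (l 1077206543))) (a (a (l 1077166095) (a (l 1077189647) (l 1077206543))) (a (l 1078323727) (l 1077834255)))) (b (a (a (l 4) (a (l 4) (l 1077281807))) (a (l 1077328399) (l 1077379599))) (a (l 4) (a (l 4) (l 1078525455))))) (b (b (a (a (l 1077260303) (l 1077312015)) (c (l 16784368) (l 1077394959))) (c (a (c (l 1077933071) (l 1075232783)) (a (l 16782560) (l 16783552))) (a (a (l 1077349903) (l 1077406735)) (l 1078027279)))) (a (a (b (l 1077966351) (a (l 1077488655) (l 1077513743))) (b (l 1078015503) (a (l 1077538319) (l 1077562895)))) (a (b (l 1078064143) (a (l 1077586959) (l 1077611023))) (b (a (l 1077561871) (l 1077585423)) (l 1077647375)))))) (a (l 4) (b (a (b (a (a (l 4) (l 1078386191)) (b (l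 1077599247) (l 1078168591))) (l 4)) (a (c (a (l 1078211599) (l 1078232591)) (b (l 1077968399) (b (a (l 1077732367) (l 1077760015)) (l 4)))) (c (b (l 1076615183) (l 1077745167)) (b (l 1078290959) (b (l 1077800975) (a (l 1077818383) (l 1078382095))))))) (b (b (a (l 4) (a (l 4) (a (l 4) (b (l 1077818383) (l 4))))) (l 4)) (l 4)))))) (l 4))), by decide +kernel⟩

def k36_A00pm_213_s3 : ∃ t, chk3 f_A00pm_213_s3 t 7 6 1 = true :=
  ⟨(b (l 6) (a (b (a (b (a (l 16784808) (l 6)) (a (l 16787904) (b (l 16792136) (l 16793856)))) (b (l 6) (a (c (l 16806664) (l 16791960)) (l 6)))) (b (a (a (b (l 16790080) (l 16791360)) (b (l 16795408) (c (l 16803176) (l 16790632)))) (c (a (l 16809088) (l 16816336)) (a (b (l 16795088) (l 16796896)) (b (l 16802312) (l 16804280))))) (c (a (b (a (l 16798368) (l 16803944)) (a (b (l 16798784) (l 16799096)) (b (l 16804384) (l 16804656)))) (b (a (l 16810320) (l 16817584)) (a (b (l 16810736) (l 16810952)) (l 16818088))))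 (a (b (a (l 16786800) (b (l 16791792) (l 16792528))) (b (a (c (l 16790472) (l 16785184)) (c (l 16795928) (l 16790576))) (a (c (l 16791096) (l 16786000)) (c (l 16796520) (l 16791376))))) (b (a (a (l 16796784) (l 16800288)) (c (l 16808784) (l 16803288))) (a (a (b (l 16797856) (l 16798528)) (l 16801688)) (a (l 16805464) (l 16809424)))))))) (b (l 6) (b (a (b (l 6) (a (a (l 16816312) (l 16820512)) (a (l 16824888) (l 6)))) (l 6)) (b (c (a (a (l 16825480) (l 16833952)) (a (l 16842904) (l 6))) (a (a (a (l 16812072) (l 16816376)) (c (l 16825752) (l 16820744))) (a (a (l 16830272) (l 16835096)) (l 6)))) (a (c (a (l 16825912) (l 16834248)) (a (a (l 16813552) (l 16817840)) (a (l 16822288) (l 16826872)))) (a (c (l 16842936) (a (l 16831536) (l 16836240))) (c (l 16851664) (a (l 16840896) (l 16845480)))))))))), by decide +kernel⟩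

def k37_A00pm_213_s3 : ∃ t, chk3 f_A00pm_213_s3 t 28 14 1 = true :=
  ⟨(b (c (c (b (a (b (l 16802192) (l 16802696)) (b (l 16807696) (l 16808080))) (a (l 16803104) (b (l 16808272) (l 16808176)))) (b (a (b (l 16797032) (l 16798000)) (b (l 16802440) (l 16803304))) (a (b (l 16798808) (l 16799352)) (b (l 16803992) (l 16804400))))) (b (c (a (b (a (l 16790816) (l 16793288)) (a (l 16792240) (l 16794672))) (b (b (l 16797088) (l 16797680)) (c (l 16799848) (l 16797608)))) (a (b (a (b (l 16785616) (l 16786472)) (b (l 16788040) (l 16788880))) (a (l 16787896) (l 16790296))) (a (b (b (l 16790696) (l 16791520)) (c (l 16793992) (l 16791840))) (b (b (l 16793584) (l 16794376)) (c (l 16796808) (l 16794672)))))) (c (a (b (l 16794736) (l 16795760)) (b (l 16799888) (l 16800792))) (a (b (a (l 16789624) (l 16791992)) (a (l 16791136) (l 16793448))) (a (b (l 16794560) (l 16795952)) (b (l 16797328) (l 16798664))))))) (b (b (c (a (l 16801224) (l 16806080))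 (a (a (l 16793856) (l 16796120)) (a (l 16798536) (l 16801112)))) (a (a (l 16797136) (a (l 16798752) (l 16799872))) (c (l 16805544) (a (l 16799048) (l 16801480))))) (b (a (a (l 16797032) (a (l 16798552) (l 16799600))) (c (l 16804592) (a (l 16799144) (l 16801408)))) (a (a (l 16796520) (l 16798424)) (c (l 16803240) (a (l 16798792) (l 16800888))))))), by decide +kernel⟩

def k38_A00pm_213_s3 : ∃ t, chk3 f_A00pm_213_s3 t 29 14 1 = true :=
  ⟨(b (c (a (b (a (b (l 16809536) (l 16810040)) (b (l 16812840) (l 16813216))) (b (l 16811920) (l 16811816))) (b (b (l 16818328) (l 16818560)) (b (l 16818488) (l 16818024)))) (b (c (a (b (a (l 16801912) (l 16805256)) (a (l 16803120) (l 16806360))) (a (b (l 16809000) (l 16810000)) (b (l 16812896) (l 16813840)))) (a (b (a (b (l 16796712) (l 16797456)) (b (l 16800160) (c (l 16801976) (l 16799720)))) (a (c (l 16799840) (l 16797720)) (a (l 16801200) (l 16802936)))) (a (b (b (l 16804024) (l 16804704))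 (l 16805848)) (b (b (l 16808048) (l 16808728)) (c (l 16810816) (l 16808880)))))) (a (a (b (a (l 16801448) (l 16802960)) (l 16803200)) (b (a (l 16804520) (l 16806160)) (l 16806192))) (a (b (c (l 16810736) (l 16807048)) (c (l 16811080) (l 16807856))) (b (a (l 16811704) (l 16813632)) (l 16813104)))))) (b (b (a (c (l 16811376) (a (l 16803824) (l 16806656))) (a (a (l 16811744) (l 16813248)) (l 16815744))) (a (c (l 16810520) (a (l 16804024) (l 16806672))) (c (l 16815880) (a (l 16809448) (l 16812440))))) (b (a (c (l 16809248) (a (l 16803776) (l 16806240))) (a (l 16810736) (a (l 16812648) (l 16814016)))) (a (a (a (l 16804128) (l 16805224)) (l 16806920)) (a (l 16809208) (l 16811536)))))), by decide +kernel⟩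

def k39_A00pm_213_s3 : ∃ t, chk3 f_A00pm_213_s3 t 15 14 1 = true :=
  ⟨(a (b (c (b (a (b (a (l 16824032) (l 16828000)) (l 16826032)) (a (l 16837256) (l 16836048))) (a (a (l 16823544) (l 16827096)) (a (l 16830696) (l 16834320)))) (b (c (a (b (a (l 16816944) (l 16821120)) (a (l 16817792) (l 16821840))) (b (a (l 16825400) (l 16829776)) (l 16828112))) (a (b (a (a (l 16811520) (l 16813656)) (a (l 16815832) (l 16818032))) (a (c (l 16814888) (l 16813048)) (l 16818184))) (b (a (c (l 16822368) (l 16820456)) (l 16825960)) (a (l 16822504) (l 16826888))))) (a (a (b (a (l 16815592) (l 16817560)) (l 16816840)) (b (l 16820552) (l 16820624))) (a (b (l 16824584) (l 16824448)) (b (l 16828656) (l 16828296)))))) (b (b (a (a (l 16819128) (l 16822536)) (a (l 16825968) (l 16829416))) (a (a (l 16817936) (l 16821160)) (c (l 16827928) (l 16824288)))) (a (c (a (l 16816944) (l 16819608)) (b (l 16826632) (l 16824568))) (b (a (l 16822128) (l 16824944))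 (l 16831032))))) (b (c (b (a (a (l 16840160) (l 16844232)) (a (l 16848256) (l 16852200))) (a (c (l 16841376) (l 16838384)) (l 16867704))) (b (a (a (b (a (l 16831208) (l 16833464)) (l 16832784)) (b (l 16836856) (l 16837064))) (a (b (l 16841304) (l 16841256)) (b (l 16845648) (l 16845328)))) (b (a (a (l 16832728) (l 16836752)) (c (l 16843768) (l 16841608))) (a (c (l 16835136) (l 16833120)) (l 16841200))))) (b (b (a (c (l 16836584) (l 16832712)) (c (l 16842528) (l 16839104))) (a (a (l 16830544) (l 16833440)) (l 16837440))) (a (b (l 16828968) (l 16825296)) (b (l 16854648) (l 16839856)))))), by decide +kernel⟩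

def k40_A00pm_213_s3 : ∃ t, chk3 f_A00pm_213_s3 t 7 30 1 = true :=
  ⟨(a (b (a (b (a (a (l 16795584) (l 16797344)) (a (l 16799184) (a (l 16800608) (l 16801584)))) (a (a (l 16794208) (l 16795816)) (a (l 16797504) (a (l 16798792) (l 16799664))))) (c (a (b (l 16805424) (l 16802768)) (b (l 16809408) (l 16806304))) (a (a (b (l 16801928) (l 16800208)) (b (l 16803976) (l 16802000))) (b (l 16812280) (l 16804640))))) (a (b (a (b (c (l 16794136) (l 16793240)) (a (a (b (l 16791680) (l 16791144)) (l 16792104)) (l 16793240))) (c (l 16796520) (a (l 16794912) (l 16796400)))) (a (b (a (a (l 16789760) (b (l 16791224) (l 16790336))) (a (a (b (l 16791800) (l 16791064)) (l 16791688)) (l 16792280))) (c (a (l 16788208) (a (l 16779304) (l 16790640))) (a (c (l 16788184) (l 16782976)) (a (l 16789864) (a (l 16790576) (b (l 16791320) (l 16790544))))))) (a (a (b (l 16792928) (b (l 16791792) (l 16790880))) (l 16792800)) (b (l 16794576) (l 16792896)))))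 (a (a (b (l 16798312) (c (l 16795232) (l 16794880))) (b (l 16799808) (c (l 16796536) (l 16796104)))) (b (a (l 16801288) (l 16802744)) (c (l 16788008) (a (l 16797312) (l 16798496))))))) (a (b (b (a (a (l 16811216) (l 16813504)) (l 16816936)) (a (a (l 16807936) (l 16809752)) (c (l 16813528) (l 16812224)))) (a (a (b (l 16804152) (a (l 16799624) (l 16800192))) (b (l 16805600) (a (l 16800752) (l 16801328)))) (b (c (l 16808696) (l 16807720)) (c (l 16813920) (a (l 16801936) (l 16803432)))))) (b (a (b (l 16831576) (a (l 16815512) (l 16817160))) (b (l 16835040) (a (l 16818624) (l 16819872)))) (a (a (b (l 16810472) (l 16805016)) (b (l 16811872) (l 16806184))) (a (b (l 16813080) (c (l 16807512) (l 16807008))) (b (l 16814080) (b (l 16809504) (l 16806368)))))))), by decide +kernel⟩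

def k41_A00pm_213_s3 : ∃ t, chk3 f_A00pm_213_s3 t 28 124 1 = true :=
  ⟨(b (b (a (a (c (l 16786376) (l 16781192)) (c (l 16788376) (l 16788520))) (a (a (l 16789992) (l 16790592)) (l 16791544))) (a (a (b (l 1078080527) (l 1078120975)) (a (l 16781360) (l 16787616))) (a (a (l 16788632) (l 16789648)) (a (l 16790224) (l 16790856))))) (a (b (a (a (l 1077620751) (l 1077666319)) (a (l 1077710351) (l 16786216))) (a (a (l 1077693455) (l 1078276111)) (a (l 1078454799) (a (l 1077815311) (l 1077836303))))) (a (a (b (l 16787224) (l 1078942735)) (b (l 16788232) (l 16786744))) (a (b (a (l 16789032) (l 16789384)) (l 16787736)) (b (l 16789768) (b (l 16788992) (l 16788384))))))), by decide +kernel⟩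

def k42_A00pm_213_s3 : ∃ t, chk3 f_A00pm_213_s3 t 56 250 1 = true :=
  ⟨(c (b (a (c (l 1077739023) (l 1078840847)) (a (l 1077807631) (l 16783136))) (b (a (l 1078863887) (l 1078941199)) (a (c (l 1077801487) (l 1078909455)) (c (l 1077873167) (l 1079529487))))) (a (a (b (a (l 1077793295) (l 1077819407)) (b (l 1077854223) (b (l 1077876751) (l 1077892111)))) (c (b (l 1077831183) (l 1078432783)) (b (l 1078495247) (b (l 1077940239) (a (l 1077958159) (l 1077985807)))))) (a (c (b (l 1077878799) (l 1078480911)) (b (b (l 16782728) (l 1077959695)) (b (l 1077994511) (a (l 1078012943) (l 1078040079))))) (b (c (l 16780632) (l 1079071759)) (b (l 1078006799) (a (l 1078025743) (l 1078050319))))))), by decide +kernel⟩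

def k43_A00pm_213_s3 : ∃ t, chk3 f_A00pm_213_s3 t 56 251 1 = true :=
  ⟨(c (a (a (b (l 1078440975) (l 4)) (a (b (l 1077865999) (l 4)) (b (l 1077885967) (l 1077931023)))) (a (b (a (l 1077904911) (l 1077924367)) (l 1079035407)) (b (l 1078490639) (l 1079073295)))) (a (b (c (a (b (l 1077886991) (l 1078181903)) (b (l 1077935631) (a (l 1077949967) (l 1077974031)))) (c (a (b (l 1077931023) (b (l 1077950991) (l 4))) (a (b (l 1077970959) (c (l 1077990415) (l 1078142479))) (b (l 1077998095) (a (l 1078019087) (l 1078032399))))) (b (a (a (a (l 1077941775) (l 1077956623)) (l 1077978639)) (a (c (l 1077998095) (l 1078151695)) (l 1078170127))) (a (a (l 4) (b (a (l 1077991951) (l 1078006287)) (l 4))) (a (a (b (l 1078020623) (b (l 1078030863) (l 4))) (b (l 1078034959) (b (l 1078045199) (l 1078051855)))) (a (b (l 1077781007) (l 1078063119)) (b (l 1078063631) (l 1078077455)))))))) (c (a (l 4) (a (l 4) (a (l 1078545423) (l 1078557711)))) (a (l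 4) (b (a (l 4) (b (a (l 1078056463) (l 1078070287)) (a (l 4) (l 1078083087)))) (l 4))))) (b (a (a (b (c (l 1077970959) (l 1078312463)) (b (l 1078025743) (a (l 1078032399) (l 1078045199)))) (b (l 1078433807) (b (l 1078050831) (l 1078064143)))) (a (b (l 1078055951) (a (l 1078077455) (l 1078089743))) (b (l 1078080527) (l 1078645263)))) (b (a (c (l 1078035471) (a (b (l 1078091279) (a (l 1078096399) (l 1078110223))) (a (l 1078387215) (l 1078108687)))) (a (a (l 1078505999) (l 1078109711)) (a (l 1078097935) (l 1078086671)))) (a (b (a (a (l 4) (l 1078081551)) (a (l 1078094351) (l 1078107151))) (a (l 4) (a (l 4) (l 1078103567)))) (a (b (l 1078366223) (a (l 1078091791) (l 1078080015))) (b (l 1078074383) (l 1078062607)))))))), by decide +kernel⟩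

def k44_A00pm_213_s3 : ∃ t, chk3 f_A00pm_213_s3 t 57 125 1 = true :=
  ⟨(b (a (b (a (a (l 1077925391) (l 1077946383)) (a (l 1077966863) (l 1077987343))) (a (c (l 1077938703) (b (l 1078055439) (l 1078624271))) (b (l 1078558223) (a (l 1078040591) (l 1078060559))))) (b (a (a (l 16783296) (l 16786408)) (l 16784520)) (a (b (l 16782328) (l 1079164943)) (a (l 1079162895) (l 16783024))))) (a (c (b (a (l 1077990415) (l 1078026255)) (a (l 1078573583) (l 1078072335))) (b (b (a (a (l 1078105103) (l 1078099983)) (l 1079139855)) (a (a (l 1078094863) (l 1078072335)) (a (l 1078049807) (l 1078027279)))) (b (a (a (l 1078605839) (l 1078046223)) (a (l 1078023695) (l 1078001167))) (a (c (l 1078060559) (a (l 1078282767) (l 1077989903))) (a (l 1078536207) (l 1077976591)))))) (a (b (c (l 1078061071) (c (l 1079110159) (b (l 16783088) (l 1078494735)))) (a (b (l 1078040591) (a (l 1078022671) (l 1078012943))) (b (l 1078021647) (a (l 1078003727) (l 1077994511)))))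 (b (c (l 16783656) (b (l 16783936) (l 1078754831))) (a (b (l 1078002703) (l 1078516751)) (b (l 1077983247) (l 1077960719))))))), by decide +kernel⟩

def k45_A00pm_213_s3 : ∃ t, chk3 f_A00pm_213_s3 t 29 62 1 = true :=
  ⟨(b (a (b (l 16792752) (a (a (b (l 16790376) (l 16789224)) (l 16790352)) (l 16791112))) (c (l 16793872) (a (l 16793240) (l 16794200)))) (a (b (a (a (b (b (a (l 16788288) (l 16788552)) (l 16787624)) (a (l 16783416) (l 16786424))) (c (b (l 16788432) (l 16787120)) (b (l 16788792) (b (a (l 16787088) (l 16787600)) (l 16786304))))) (a (a (b (l 16789032) (b (l 16788160) (l 16787168))) (l 16788680)) (l 16789024))) (b (c (a (l 16782232) (a (a (l 16785760) (l 16786184)) (l 16786880))) (c (b (a (l 16785136) (a (l 16786248) (l 16787184))) (a (l 16784224) (a (l 16785256) (l 16786144)))) (b (a (l 16784976) (a (a (l 16785808) (l 16786288)) (l 16787008))) (b (a (l 16784304) (a (l 16780040) (l 16786200))) (a (l 16783856) (a (l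 16784872) (a (l 16785384) (l 16785848)))))))) (c (a (b (l 16783472) (l 16779944)) (a (l 16784136) (a (l 16784640) (l 16790256)))) (a (a (c (b (l 16782952) (l 16782056)) (b (l 16780216) (l 16781960))) (b (l 1078637583) (l 16782736))) (a (b (l 16784304) (l 16780800)) (a (b (l 16784768) (l 16783912)) (b (a (l 16785040) (l 16785288)) (l 16784224)))))))) (a (a (a (b (l 16789360) (b (l 16787432) (b (l 16785800) (b (l 16785016) (l 16784488))))) (b (l 16789584) (b (l 16787712) (b (l 16786264) (l 16785208))))) (b (l 16789920) (l 16782128))) (b (l 16790584) (c (l 16787872) (l 16788112)))))), by decide +kernel⟩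

def k46_A00pm_213_s3 : ∃ t, chk3 f_A00pm_213_s3 t 15 62 1 = true :=
  ⟨(a (b (a (a (l 16795224) (b (l 16797392) (l 16794840))) (a (b (l 16798352) (l 16795672)) (b (l 16799520) (l 16796608)))) (a (a (b (l 16791416) (l 16788728)) (b (l 16792184) (l 16789424))) (b (a (l 16792904) (c (l 16793888) (l 16793504))) (c (l 16790568) (b (l 16791080) (l 16789640)))))) (b (a (a (c (l 16799448) (l 16799024)) (b (l 16801688) (l 16798600))) (a (b (l 16802528) (l 16799328)) (b (l 16803144) (l 16799840)))) (b (a (a (l 16794600) (l 16795424)) (c (a (l 16796248) (l 16796672)) (a (l 16795968) (l 16796376)))) (a (a (c (l 16791616) (l 16791320)) (c (l 16792328) (l 16792080))) (a (c (l 16792864) (l 16792632)) (a (l 16792968) (l 16793080))))))), by decide +kernel⟩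

def k47_A00pm_213_s3 : ∃ t, chk3 f_A00pm_213_s3 t 28 126 1 = true :=
  ⟨(a (a (l 4) (a (l 4) (b (b (b (c (l 1078024207) (c (l 1078617615) (a (b (l 1078181391) (l 4)) (b (l 1078022159) (l 1078010895))))) (l 4)) (l 4)) (l 4)))) (b (a (c (a (b (l 1079686671) (l 4)) (b (l 1079667215) (a (l 1079103503) (l 1079088143)))) (b (b (a (a (b (l 1078028303) (l 1078017039)) (a (l 1078273039) (l 1077992975))) (a (a (l 1077981711) (l 1077970447)) (l 1078222351))) (a (b (a (a (l 4) (l 1078000655)) (l 1077983759)) (a (l 4) (l 1077973519))) (a (a (l 1078094863) (l 1077949455)) (a (l 1077938191) (l 1077926927))))) (b (a (l 4) (b (a (l 1077941263) (l 1077918735)) (a (l 4) (l 1077909519)))) (l 4)))) (c (b (a (l 1080173071) (l 1080141327)) (a (a (l 1079072271) (l 1079056399)) (a (l 1079039503) (l 1079023631)))) (b (b (a (a (l 1077931535) (l 1077909007)) (a (l 1077885967) (l 1077862927))) (a (a (c (l 1077945359) (l 1077871119)) (l 1078089231)) (a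 (l 1077863951) (l 1077840399)))) (a (b (b (a (l 1077896719) (l 1077337615)) (a (l 1077887503) (l 1076791311))) (a (b (l 1077878799) (l 4)) (b (l 1076781583) (l 1076773903)))) (b (b (a (l 1077313039) (l 1077826575)) (a (l 1077303823) (l 1077280271))) (a (b (l 1077295119) (l 1077286927)) (b (l 1077271567) (l 1077263887)))))))) (b (a (l 4) (a (l 4) (b (c (l 1077940239) (c (c (l 1077858831) (l 1078625295)) (a (b (l 1077236239) (l 4)) (b (l 1077211151) (a (l 4) (l 1077734927)))))) (l 4)))) (l 4)))), by decide +kernel⟩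

def k48_A00pm_213_s3 : ∃ t, chk3 f_A00pm_213_s3 t 29 126 1 = true :=
  ⟨(b (a (b (a (a (c (l 1080108559) (a (b (l 1077839375) (l 1077817359)) (b (l 1077816335) (l 1077794319)))) (a (b (l 1077880847) (a (l 1077865487) (l 1077855759))) (b (l 1077862415) (a (l 1077846543) (l 1077837327))))) (c (b (l 16783136) (l 16782240)) (a (b (l 16779928) (b (l 16781904) (l 16781472))) (b (l 16783200) (l 16779720))))) (a (b (a (a (b (l 1077885455) (l 1077876751)) (c (l 1077931023) (l 1077774351))) (a (c (l 16780080) (l 1077751823)) (a (l 1077827599) (l 1077818383)))) (a (a (b (l 1077868559) (l 1077860367)) (b (l 1077849103) (l 1077841423))) (a (b (l 1077830159) (l 1077822479)) (b (l 1077811727) (l 1077804047))))) (a (b (a (a (l 1077809167) (l 1077799951)) (a (l 1077791247) (l 1077782031))) (a (b (l 1077793295) (l 1077785615)) (b (l 1077775375) (l 14)))) (a (a (b (l 1077772815) (l 14)) (l 14)) (l 14))))) (b (b (a (b (a (a (l 16784064) (a (l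 16784288) (l 16784512))) (l 16785048)) (l 14)) (l 16786088)) (l 14)) (l 14))) (a (a (b (a (a (b (a (b (l 1077857807) (l 1077314575)) (b (l 1077848591) (l 1077841423))) (a (l 4) (b (l 1076761615) (l 4)))) (b (a (b (l 1077838863) (l 1077832207)) (b (l 1077829135) (l 1077822479))) (a (b (l 1076751887) (l 4)) (b (l 1077816335) (a (l 4) (l 1077808143)))))) (a (b (a (b (l 1077819919) (l 1077813263)) (b (l 1077810703) (l 1077803535))) (c (l 1077872655) (c (l 1077753871) (b (l 1078197775) (l 1078729743))))) (b (b (l 1077796367) (a (l 1077794319) (l 1077785103))) (a (b (l 1077788175) (l 14)) (l 14))))) (b (a (l 4) (a (a (l 4) (l 14)) (l 14))) (l 4))) (b (b (b (a (a (l 1077777935) (l 14)) (l 14)) (l 14)) (l 14)) (l 14))) (l 14))), by decide +kernel⟩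

def k49_A00pm_213_s3 : ∃ t, chk3 f_A00pm_213_s3 t 15 126 1 = true :=
  ⟨(b (b (b (a (a (c (l 16787296) (l 16787424)) (l 16788568)) (a (a (l 16789432) (l 16790104)) (a (l 16790584) (l 16790864)))) (l 14)) (l 14)) (l 14)), by decide +kernel⟩

def k50_A00pm_213_s3 : ∃ t, chk3 f_A00pm_213_s3 t 7 127 1 = true :=
  ⟨(a (a (l 4) (a (a (l 4) (l 14)) (l 14))) (l 14)), by decide +kernel⟩

theorem t51_A00pm_213_s3 : ∃ t, chk3 f_A00pm_213_s3 t 14 126 1 = true := ex3_a k47_A00pm_213_s3 k48_A00pm_213_s3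

theorem t52_A00pm_213_s3 : ∃ t, chk3 f_A00pm_213_s3 t 7 126 1 = true := ex3_a t51_A00pm_213_s3 k49_A00pm_213_s3

theorem t53_A00pm_213_s3 : ∃ t, chk3 f_A00pm_213_s3 t 7 63 1 = true := ex3_b t52_A00pm_213_s3 k50_A00pm_213_s3

theorem t54_A00pm_213_s3 : ∃ t, chk3 f_A00pm_213_s3 t 56 125 1 = true := ex3_b k42_A00pm_213_s3 k43_A00pm_213_s3

theorem t55_A00pm_213_s3 : ∃ t, chk3 f_A00pm_213_s3 t 28 125 1 = true := ex3_a t54_A00pm_213_s3 k44_A00pm_213_s3

theorem t56_A00pm_213_s3 : ∃ t, chk3 f_A00pm_213_s3 t 28 62 1 = true := ex3_b k41_A00pm_213_s3 t55_A00pm_213_s3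

theorem t57_A00pm_213_s3 : ∃ t, chk3 f_A00pm_213_s3 t 14 62 1 = true := ex3_a t56_A00pm_213_s3 k45_A00pm_213_s3

theorem t58_A00pm_213_s3 : ∃ t, chk3 f_A00pm_213_s3 t 7 62 1 = true := ex3_a t57_A00pm_213_s3 k46_A00pm_213_s3

theorem t59_A00pm_213_s3 : ∃ t, chk3 f_A00pm_213_s3 t 7 31 1 = true := ex3_b t58_A00pm_213_s3 t53_A00pm_213_s3

theorem t60_A00pm_213_s3 : ∃ t, chk3 f_A00pm_213_s3 t 7 15 1 = true := ex3_b k40_A00pm_213_s3 t59_A00pm_213_s3

theorem t61_A00pm_213_s3 : ∃ t, chk3 f_A00pm_213_s3 t 14 14 1 = true := ex3_a k37_A00pm_213_s3 k38_A00pm_213_s3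

theorem t62_A00pm_213_s3 : ∃ t, chk3 f_A00pm_213_s3 t 7 14 1 = true := ex3_a t61_A00pm_213_s3 k39_A00pm_213_s3

theorem t63_A00pm_213_s3 : ∃ t, chk3 f_A00pm_213_s3 t 7 7 1 = true := ex3_b t62_A00pm_213_s3 t60_A00pm_213_s3

theorem t64_A00pm_213_s3 : ∃ t, chk3 f_A00pm_213_s3 t 7 3 1 = true := ex3_b k36_A00pm_213_s3 t63_A00pm_213_s3

theorem t65_A00pm_213_s3 : ∃ t, chk3 f_A00pm_213_s3 t 13 30 1 = true := ex3_b k33_A00pm_213_s3 k34_A00pm_213_s3

theorem t66_A00pm_213_s3 : ∃ t, chk3 f_A00pm_213_s3 t 6 30 1 = true := ex3_a k32_A00pm_213_s3 t65_A00pm_213_s3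

theorem t67_A00pm_213_s3 : ∃ t, chk3 f_A00pm_213_s3 t 6 15 1 = true := ex3_b t66_A00pm_213_s3 k35_A00pm_213_s3

theorem t68_A00pm_213_s3 : ∃ t, chk3 f_A00pm_213_s3 t 6 14 1 = true := ex3_b k30_A00pm_213_s3 k31_A00pm_213_s3

theorem t69_A00pm_213_s3 : ∃ t, chk3 f_A00pm_213_s3 t 6 7 1 = true := ex3_b t68_A00pm_213_s3 t67_A00pm_213_s3

theorem t70_A00pm_213_s3 : ∃ t, chk3 f_A00pm_213_s3 t 6 3 1 = true := ex3_b k29_A00pm_213_s3 t69_A00pm_213_s3

theorem t71_A00pm_213_s3 : ∃ t, chk3 f_A00pm_213_s3 t 3 3 1 = true := ex3_a t70_A00pm_213_s3 t64_A00pm_213_s3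

theorem t72_A00pm_213_s3 : ∃ t, chk3 f_A00pm_213_s3 t 3 1 1 = true := ex3_b k28_A00pm_213_s3 t71_A00pm_213_s3

theorem t73_A00pm_213_s3 : ∃ t, chk3 f_A00pm_213_s3 t 11 57 1 = true := ex3_a k24_A00pm_213_s3 k25_A00pm_213_s3

theorem t74_A00pm_213_s3 : ∃ t, chk3 f_A00pm_213_s3 t 11 28 1 = true := ex3_b k23_A00pm_213_s3 t73_A00pm_213_s3

theorem t75_A00pm_213_s3 : ∃ t, chk3 f_A00pm_213_s3 t 11 14 1 = true := ex3_b t74_A00pm_213_s3 k26_A00pm_213_s3

theorem t76_A00pm_213_s3 : ∃ t, chk3 f_A00pm_213_s3 t 5 14 1 = true := ex3_a k22_A00pm_213_s3 t75_A00pm_213_s3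

theorem t77_A00pm_213_s3 : ∃ t, chk3 f_A00pm_213_s3 t 5 7 1 = true := ex3_b t76_A00pm_213_s3 k27_A00pm_213_s3

theorem t78_A00pm_213_s3 : ∃ t, chk3 f_A00pm_213_s3 t 2 7 1 = true := ex3_a k21_A00pm_213_s3 t77_A00pm_213_s3

theorem t79_A00pm_213_s3 : ∃ t, chk3 f_A00pm_213_s3 t 5 26 1 = true := ex3_a k18_A00pm_213_s3 k19_A00pm_213_s3

theorem t80_A00pm_213_s3 : ∃ t, chk3 f_A00pm_213_s3 t 5 13 1 = true := ex3_b t79_A00pm_213_s3 k20_A00pm_213_s3

theorem t81_A00pm_213_s3 : ∃ t, chk3 f_A00pm_213_s3 t 19 26 3 = true := ex3_c k15_A00pm_213_s3 k16_A00pm_213_s3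

theorem t82_A00pm_213_s3 : ∃ t, chk3 f_A00pm_213_s3 t 19 52 2 = true := ex3_a k12_A00pm_213_s3 k13_A00pm_213_s3

theorem t83_A00pm_213_s3 : ∃ t, chk3 f_A00pm_213_s3 t 19 26 2 = true := ex3_b t82_A00pm_213_s3 k14_A00pm_213_s3

theorem t84_A00pm_213_s3 : ∃ t, chk3 f_A00pm_213_s3 t 19 26 1 = true := ex3_c t83_A00pm_213_s3 t81_A00pm_213_s3

theorem t85_A00pm_213_s3 : ∃ t, chk3 f_A00pm_213_s3 t 19 13 1 = true := ex3_b t84_A00pm_213_s3 k17_A00pm_213_s3

theorem t86_A00pm_213_s3 : ∃ t, chk3 f_A00pm_213_s3 t 9 13 1 = true := ex3_a k11_A00pm_213_s3 t85_A00pm_213_s3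

theorem t87_A00pm_213_s3 : ∃ t, chk3 f_A00pm_213_s3 t 4 13 1 = true := ex3_a k10_A00pm_213_s3 t86_A00pm_213_s3

theorem t88_A00pm_213_s3 : ∃ t, chk3 f_A00pm_213_s3 t 2 13 1 = true := ex3_a t87_A00pm_213_s3 t80_A00pm_213_s3

theorem t89_A00pm_213_s3 : ∃ t, chk3 f_A00pm_213_s3 t 5 12 1 = true := ex3_a k8_A00pm_213_s3 k9_A00pm_213_s3

theorem t90_A00pm_213_s3 : ∃ t, chk3 f_A00pm_213_s3 t 19 51 1 = true := ex3_a k6_A00pm_213_s3 k7_A00pm_213_s3

theorem t91_A00pm_213_s3 : ∃ t, chk3 f_A00pm_213_s3 t 19 25 1 = true := ex3_b k5_A00pm_213_s3 t90_A00pm_213_s3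

theorem t92_A00pm_213_s3 : ∃ t, chk3 f_A00pm_213_s3 t 18 25 1 = true := ex3_b k3_A00pm_213_s3 k4_A00pm_213_s3

theorem t93_A00pm_213_s3 : ∃ t, chk3 f_A00pm_213_s3 t 9 25 1 = true := ex3_a t92_A00pm_213_s3 t91_A00pm_213_s3

theorem t94_A00pm_213_s3 : ∃ t, chk3 f_A00pm_213_s3 t 9 12 1 = true := ex3_b k2_A00pm_213_s3 t93_A00pm_213_s3

theorem t95_A00pm_213_s3 : ∃ t, chk3 f_A00pm_213_s3 t 4 12 1 = true := ex3_a k1_A00pm_213_s3 t94_A00pm_213_s3

theorem t96_A00pm_213_s3 : ∃ t, chk3 f_A00pm_213_s3 t 2 12 1 = true := ex3_a t95_A00pm_213_s3 t89_A00pm_213_s3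

theorem t97_A00pm_213_s3 : ∃ t, chk3 f_A00pm_213_s3 t 2 6 1 = true := ex3_b t96_A00pm_213_s3 t88_A00pm_213_s3

theorem t98_A00pm_213_s3 : ∃ t, chk3 f_A00pm_213_s3 t 2 3 1 = true := ex3_b t97_A00pm_213_s3 t78_A00pm_213_s3

theorem t99_A00pm_213_s3 : ∃ t, chk3 f_A00pm_213_s3 t 2 1 1 = true := ex3_b k0_A00pm_213_s3 t98_A00pm_213_s3

theorem t100_A00pm_213_s3 : ∃ t, chk3 f_A00pm_213_s3 t 1 1 1 = true := ex3_a t99_A00pm_213_s3 t72_A00pm_213_s3

theorem c_A00pm_213_s3 : CertF 0 536870912 536870912 536870912 587336777 62277027 true true false .pnn 2 1 3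
    ndB0q2 ndB0q1 pcB3 cut_A00pm_213_s3 xt_A00pm_213_s3 :=
  certF1 (fam := true) (s1 := true) (s2 := false) (a := 2) (b := 1) (c := 3) (cn := .pnn) (n1 := ndB0q2) (n2 := ndB0q1) (pc := pcB3) (cut := cut_A00pm_213_s3) (xt := xt_A00pm_213_s3) (P1 := 0) (W1 := 536870912) (P2 := 536870912) (W2 := 536870912) (P3 := 587336777) (W3 := 62277027)
    rfl (fun _ => rfl) t100_A00pm_213_s3

theorem s_A00pm_213_s3 {κ x : ℝ} (hκ : κ * h0 = ken x) (hx : ((587336777 : ℕ) : ℝ) / S ≤ x)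
    (hx' : x ≤ (((587336777 : ℕ) : ℝ) + (62277027 : ℕ)) / S)
    (H : CutA (VFD κ) PP tK tL pcB (Cut.of [[⟨0, 1, 0, 67108864⟩, ⟨1, 1, 0, 67108864⟩, ⟨2, 2, 0, 16777216⟩], [⟨0, 1, 0, 29360128⟩, ⟨1, 0, 1, 20971520⟩, ⟨2, 1, 1, 20971520⟩]]) 2 1 3 0 0 (sgb true) (sgb false) x) :
    AltA (VFD κ) PP tK tL pcB [⟨4, 0, 0, 2845415833⟩] 2 1 3 0 0 (sgb true) (sgb false) x :=
  strip_altAD (m := 2845415833) false rfl hκ (SH.κ0 hκ (SH.hx1 hx).le (SH.hx2 hx').le) (SH.hx1 hx).le (SH.hx2 hx') (covB02).cov (covB01).cov hx hx' c_A00pm_213_s3 H ((okx6 hx hx').ext0A (T := tt) (zx hx hx') (okx hx hx') (sideB hx hx') hκ rfl rfl (.O 2 true) (.O 1 false) (Or.inr rfl))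

noncomputable def cut_A00mm_001_s1 : Cut := Cut.of [[⟨4, 0, 0, 1449551462⟩]]

noncomputable def f_A00mm_001_s1 : ℕ → ℕ → ℕ → ℕ → Bool := onCell 0 536870912 0 536870912 587336777 62277027
    (rowF 0 true false false .up 0 0 1 (qsf 0 536870912 0 536870912 1) ndB0q0 ndB0q0 pcB1 cut_A00mm_001_s1 Ext.none)

def k0_A00mm_001_s1 : ∃ t, chk3 f_A00mm_001_s1 t 1 1 1 = true :=
  ⟨(l 4), by decide +kernel⟩

theorem c_A00mm_001_s1 : CertF 0 536870912 0 536870912 587336777 62277027 true false false .up 0 0 1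
    ndB0q0 ndB0q0 pcB1 cut_A00mm_001_s1 Ext.none :=
  certF0 (fam := true) (s1 := false) (s2 := false) (a := 0) (b := 0) (c := 1) (cn := .up) (n1 := ndB0q0) (n2 := ndB0q0) (pc := pcB1) (cut := cut_A00mm_001_s1) (xt := Ext.none) (P1 := 0) (W1 := 536870912) (P2 := 0) (W2 := 536870912) (P3 := 587336777) (W3 := 62277027)
    rfl k0_A00mm_001_s1

theorem s_A00mm_001_s1 {κ x : ℝ} (hκ : κ * h0 = ken x) (hx : ((587336777 : ℕ) : ℝ) / S ≤ x)
    (hx' : x ≤ (((587336777 : ℕ) : ℝ) + (62277027 : ℕ)) / S) :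
    AltA (VFD κ) PP tK tL pcB [⟨3, 0, 0, 1449551462⟩] 0 0 1 0 0 (sgb false) (sgb false) x :=
  strip_altAD (m := 1449551462) true rfl hκ (SH.κ0 hκ (SH.hx1 hx).le (SH.hx2 hx').le) (SH.hx1 hx).le (SH.hx2 hx') (covB00).cov (covB00).cov hx hx' c_A00mm_001_s1 cutA_nil (noExt_A)

noncomputable def cut_A00mm_001_s3 : Cut := Cut.of [[⟨3, 0, 0, 2845415833⟩]]

noncomputable def f_A00mm_001_s3 : ℕ → ℕ → ℕ → ℕ → Bool := onCell 0 536870912 0 536870912 587336777 62277027
    (rowF 0 true false false .up 0 0 1 (qsf 0 536870912 0 536870912 1) ndB0q0 ndB0q0 pcB1 cut_A00mm_001_s3 Ext.none)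

def k0_A00mm_001_s3 : ∃ t, chk3 f_A00mm_001_s3 t 1 1 1 = true :=
  ⟨(l 4), by decide +kernel⟩

theorem c_A00mm_001_s3 : CertF 0 536870912 0 536870912 587336777 62277027 true false false .up 0 0 1
    ndB0q0 ndB0q0 pcB1 cut_A00mm_001_s3 Ext.none :=
  certF0 (fam := true) (s1 := false) (s2 := false) (a := 0) (b := 0) (c := 1) (cn := .up) (n1 := ndB0q0) (n2 := ndB0q0) (pc := pcB1) (cut := cut_A00mm_001_s3) (xt := Ext.none) (P1 := 0) (W1 := 536870912) (P2 := 0) (W2 := 536870912) (P3 := 587336777) (W3 := 62277027)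
    rfl k0_A00mm_001_s3

theorem s_A00mm_001_s3 {κ x : ℝ} (hκ : κ * h0 = ken x) (hx : ((587336777 : ℕ) : ℝ) / S ≤ x)
    (hx' : x ≤ (((587336777 : ℕ) : ℝ) + (62277027 : ℕ)) / S) :
    AltA (VFD κ) PP tK tL pcB [⟨4, 0, 0, 2845415833⟩] 0 0 1 0 0 (sgb false) (sgb false) x :=
  strip_altAD (m := 2845415833) false rfl hκ (SH.κ0 hκ (SH.hx1 hx).le (SH.hx2 hx').le) (SH.hx1 hx).le (SH.hx2 hx') (covB00).cov (covB00).cov hx hx' c_A00mm_001_s3 cutA_nil (noExt_A)

noncomputable def cut_A00mm_011_s1 : Cut := Cut.of [[⟨4, 0, 0, 1449551462⟩]]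

noncomputable def f_A00mm_011_s1 : ℕ → ℕ → ℕ → ℕ → Bool := onCell 0 536870912 536870912 536870912 587336777 62277027
    (rowF 0 true false false .pnn 0 1 1 (qsf 0 536870912 536870912 536870912 1) ndB0q0 ndB0q1 pcB1 cut_A00mm_011_s1 Ext.none)

def k0_A00mm_011_s1 : ∃ t, chk3 f_A00mm_011_s1 t 1 1 1 = true :=
  ⟨(l 6), by decide +kernel⟩

theorem c_A00mm_011_s1 : CertF 0 536870912 536870912 536870912 587336777 62277027 true false false .pnn 0 1 1
    ndB0q0 ndB0q1 pcB1 cut_A00mm_011_s1 Ext.none :=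
  certF0 (fam := true) (s1 := false) (s2 := false) (a := 0) (b := 1) (c := 1) (cn := .pnn) (n1 := ndB0q0) (n2 := ndB0q1) (pc := pcB1) (cut := cut_A00mm_011_s1) (xt := Ext.none) (P1 := 0) (W1 := 536870912) (P2 := 536870912) (W2 := 536870912) (P3 := 587336777) (W3 := 62277027)
    rfl k0_A00mm_011_s1

theorem s_A00mm_011_s1 {κ x : ℝ} (hκ : κ * h0 = ken x) (hx : ((587336777 : ℕ) : ℝ) / S ≤ x)
    (hx' : x ≤ (((587336777 : ℕ) : ℝ) + (62277027 : ℕ)) / S) :
    AltA (VFD κ) PP tK tL pcB [⟨3, 0, 0, 1449551462⟩] 0 1 1 0 0 (sgb false) (sgb false) x :=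
  strip_altAD (m := 1449551462) true rfl hκ (SH.κ0 hκ (SH.hx1 hx).le (SH.hx2 hx').le) (SH.hx1 hx).le (SH.hx2 hx') (covB00).cov (covB01).cov hx hx' c_A00mm_011_s1 cutA_nil (noExt_A)

noncomputable def cut_A00mm_011_s3 : Cut := Cut.of [[⟨3, 0, 0, 2845415833⟩]]

noncomputable def f_A00mm_011_s3 : ℕ → ℕ → ℕ → ℕ → Bool := onCell 0 536870912 536870912 536870912 587336777 62277027
    (rowF 0 true false false .pnn 0 1 1 (qsf 0 536870912 536870912 536870912 1) ndB0q0 ndB0q1 pcB1 cut_A00mm_011_s3 Ext.none)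

def k0_A00mm_011_s3 : ∃ t, chk3 f_A00mm_011_s3 t 1 1 1 = true :=
  ⟨(b (l 4) (l 5)), by decide +kernel⟩

theorem c_A00mm_011_s3 : CertF 0 536870912 536870912 536870912 587336777 62277027 true false false .pnn 0 1 1
    ndB0q0 ndB0q1 pcB1 cut_A00mm_011_s3 Ext.none :=
  certF0 (fam := true) (s1 := false) (s2 := false) (a := 0) (b := 1) (c := 1) (cn := .pnn) (n1 := ndB0q0) (n2 := ndB0q1) (pc := pcB1) (cut := cut_A00mm_011_s3) (xt := Ext.none) (P1 := 0) (W1 := 536870912) (P2 := 536870912) (W2 := 536870912) (P3 := 587336777) (W3 := 62277027)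
    rfl k0_A00mm_011_s3

theorem s_A00mm_011_s3 {κ x : ℝ} (hκ : κ * h0 = ken x) (hx : ((587336777 : ℕ) : ℝ) / S ≤ x)
    (hx' : x ≤ (((587336777 : ℕ) : ℝ) + (62277027 : ℕ)) / S) :
    AltA (VFD κ) PP tK tL pcB [⟨4, 0, 0, 2845415833⟩] 0 1 1 0 0 (sgb false) (sgb false) x :=
  strip_altAD (m := 2845415833) false rfl hκ (SH.κ0 hκ (SH.hx1 hx).le (SH.hx2 hx').le) (SH.hx1 hx).le (SH.hx2 hx') (covB00).cov (covB01).cov hx hx' c_A00mm_011_s3 cutA_nil (noExt_A)

noncomputable def cut_A00mm_012_s1 : Cut := Cut.of [[⟨4, 0, 0, 1449551462⟩]]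

noncomputable def f_A00mm_012_s1 : ℕ → ℕ → ℕ → ℕ → Bool := onCell 0 536870912 536870912 536870912 587336777 62277027
    (rowF 0 true false false .pnp 0 1 2 (qsf 0 536870912 536870912 536870912 2) ndB0q0 ndB0q1 pcB2 cut_A00mm_012_s1 Ext.none)

def k0_A00mm_012_s1 : ∃ t, chk3 f_A00mm_012_s1 t 1 1 1 = true :=
  ⟨(l 6), by decide +kernel⟩

theorem c_A00mm_012_s1 : CertF 0 536870912 536870912 536870912 587336777 62277027 true false false .pnp 0 1 2
    ndB0q0 ndB0q1 pcB2 cut_A00mm_012_s1 Ext.none :=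
  certF0 (fam := true) (s1 := false) (s2 := false) (a := 0) (b := 1) (c := 2) (cn := .pnp) (n1 := ndB0q0) (n2 := ndB0q1) (pc := pcB2) (cut := cut_A00mm_012_s1) (xt := Ext.none) (P1 := 0) (W1 := 536870912) (P2 := 536870912) (W2 := 536870912) (P3 := 587336777) (W3 := 62277027)
    rfl k0_A00mm_012_s1

theorem s_A00mm_012_s1 {κ x : ℝ} (hκ : κ * h0 = ken x) (hx : ((587336777 : ℕ) : ℝ) / S ≤ x)
    (hx' : x ≤ (((587336777 : ℕ) : ℝ) + (62277027 : ℕ)) / S) :
    AltA (VFD κ) PP tK tL pcB [⟨3, 0, 0, 1449551462⟩] 0 1 2 0 0 (sgb false) (sgb false) x :=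
  strip_altAD (m := 1449551462) true rfl hκ (SH.κ0 hκ (SH.hx1 hx).le (SH.hx2 hx').le) (SH.hx1 hx).le (SH.hx2 hx') (covB00).cov (covB01).cov hx hx' c_A00mm_012_s1 cutA_nil (noExt_A)

noncomputable def cut_A00mm_012_s3 : Cut := Cut.of [[⟨3, 0, 0, 2845415833⟩]]

noncomputable def f_A00mm_012_s3 : ℕ → ℕ → ℕ → ℕ → Bool := onCell 0 536870912 536870912 536870912 587336777 62277027
    (rowF 0 true false false .pnp 0 1 2 (qsf 0 536870912 536870912 536870912 2) ndB0q0 ndB0q1 pcB2 cut_A00mm_012_s3 Ext.none)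

def k0_A00mm_012_s3 : ∃ t, chk3 f_A00mm_012_s3 t 1 1 1 = true :=
  ⟨(b (l 4) (l 5)), by decide +kernel⟩

theorem c_A00mm_012_s3 : CertF 0 536870912 536870912 536870912 587336777 62277027 true false false .pnp 0 1 2
    ndB0q0 ndB0q1 pcB2 cut_A00mm_012_s3 Ext.none :=
  certF0 (fam := true) (s1 := false) (s2 := false) (a := 0) (b := 1) (c := 2) (cn := .pnp) (n1 := ndB0q0) (n2 := ndB0q1) (pc := pcB2) (cut := cut_A00mm_012_s3) (xt := Ext.none) (P1 := 0) (W1 := 536870912) (P2 := 536870912) (W2 := 536870912) (P3 := 587336777) (W3 := 62277027)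
    rfl k0_A00mm_012_s3

theorem s_A00mm_012_s3 {κ x : ℝ} (hκ : κ * h0 = ken x) (hx : ((587336777 : ℕ) : ℝ) / S ≤ x)
    (hx' : x ≤ (((587336777 : ℕ) : ℝ) + (62277027 : ℕ)) / S) :
    AltA (VFD κ) PP tK tL pcB [⟨4, 0, 0, 2845415833⟩] 0 1 2 0 0 (sgb false) (sgb false) x :=
  strip_altAD (m := 2845415833) false rfl hκ (SH.κ0 hκ (SH.hx1 hx).le (SH.hx2 hx').le) (SH.hx1 hx).le (SH.hx2 hx') (covB00).cov (covB01).cov hx hx' c_A00mm_012_s3 cutA_nil (noExt_A)

noncomputable def cut_A00mm_022_s1 : Cut := Cut.of [[⟨4, 0, 0, 1449551462⟩]]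

noncomputable def f_A00mm_022_s1 : ℕ → ℕ → ℕ → ℕ → Bool := onCell 0 536870912 0 536870912 587336777 62277027
    (rowF 0 true false false .pp 0 2 2 (qsf 0 536870912 0 536870912 2) ndB0q0 ndB0q2 pcB2 cut_A00mm_022_s1 Ext.none)

def k0_A00mm_022_s1 : ∃ t, chk3 f_A00mm_022_s1 t 1 1 1 = true :=
  ⟨(l 5), by decide +kernel⟩

theorem c_A00mm_022_s1 : CertF 0 536870912 0 536870912 587336777 62277027 true false false .pp 0 2 2
    ndB0q0 ndB0q2 pcB2 cut_A00mm_022_s1 Ext.none :=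
  certF0 (fam := true) (s1 := false) (s2 := false) (a := 0) (b := 2) (c := 2) (cn := .pp) (n1 := ndB0q0) (n2 := ndB0q2) (pc := pcB2) (cut := cut_A00mm_022_s1) (xt := Ext.none) (P1 := 0) (W1 := 536870912) (P2 := 0) (W2 := 536870912) (P3 := 587336777) (W3 := 62277027)
    rfl k0_A00mm_022_s1

theorem s_A00mm_022_s1 {κ x : ℝ} (hκ : κ * h0 = ken x) (hx : ((587336777 : ℕ) : ℝ) / S ≤ x)
    (hx' : x ≤ (((587336777 : ℕ) : ℝ) + (62277027 : ℕ)) / S) :
    AltA (VFD κ) PP tK tL pcB [⟨3, 0, 0, 1449551462⟩] 0 2 2 0 0 (sgb false) (sgb false) x :=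
  strip_altAD (m := 1449551462) true rfl hκ (SH.κ0 hκ (SH.hx1 hx).le (SH.hx2 hx').le) (SH.hx1 hx).le (SH.hx2 hx') (covB00).cov (covB02).cov hx hx' c_A00mm_022_s1 cutA_nil (noExt_A)

noncomputable def cut_A00mm_022_s3 : Cut := Cut.of [[⟨3, 0, 0, 2845415833⟩]]

noncomputable def f_A00mm_022_s3 : ℕ → ℕ → ℕ → ℕ → Bool := onCell 0 536870912 0 536870912 587336777 62277027
    (rowF 0 true false false .pp 0 2 2 (qsf 0 536870912 0 536870912 2) ndB0q0 ndB0q2 pcB2 cut_A00mm_022_s3 Ext.none)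

def k0_A00mm_022_s3 : ∃ t, chk3 f_A00mm_022_s3 t 1 1 1 = true :=
  ⟨(l 5), by decide +kernel⟩

theorem c_A00mm_022_s3 : CertF 0 536870912 0 536870912 587336777 62277027 true false false .pp 0 2 2
    ndB0q0 ndB0q2 pcB2 cut_A00mm_022_s3 Ext.none :=
  certF0 (fam := true) (s1 := false) (s2 := false) (a := 0) (b := 2) (c := 2) (cn := .pp) (n1 := ndB0q0) (n2 := ndB0q2) (pc := pcB2) (cut := cut_A00mm_022_s3) (xt := Ext.none) (P1 := 0) (W1 := 536870912) (P2 := 0) (W2 := 536870912) (P3 := 587336777) (W3 := 62277027)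
    rfl k0_A00mm_022_s3

theorem s_A00mm_022_s3 {κ x : ℝ} (hκ : κ * h0 = ken x) (hx : ((587336777 : ℕ) : ℝ) / S ≤ x)
    (hx' : x ≤ (((587336777 : ℕ) : ℝ) + (62277027 : ℕ)) / S) :
    AltA (VFD κ) PP tK tL pcB [⟨4, 0, 0, 2845415833⟩] 0 2 2 0 0 (sgb false) (sgb false) x :=
  strip_altAD (m := 2845415833) false rfl hκ (SH.κ0 hκ (SH.hx1 hx).le (SH.hx2 hx').le) (SH.hx1 hx).le (SH.hx2 hx') (covB00).cov (covB02).cov hx hx' c_A00mm_022_s3 cutA_nil (noExt_A)

noncomputable def cut_A00mm_023_s1 : Cut := Cut.of [[⟨4, 0, 0, 1449551462⟩]]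

noncomputable def f_A00mm_023_s1 : ℕ → ℕ → ℕ → ℕ → Bool := onCell 0 536870912 0 536870912 587336777 62277027
    (rowF 0 true false false .up 0 2 3 (qsf 0 536870912 0 536870912 3) ndB0q0 ndB0q2 pcB3 cut_A00mm_023_s1 Ext.none)

def k0_A00mm_023_s1 : ∃ t, chk3 f_A00mm_023_s1 t 1 1 1 = true :=
  ⟨(l 5), by decide +kernel⟩

theorem c_A00mm_023_s1 : CertF 0 536870912 0 536870912 587336777 62277027 true false false .up 0 2 3
    ndB0q0 ndB0q2 pcB3 cut_A00mm_023_s1 Ext.none :=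
  certF0 (fam := true) (s1 := false) (s2 := false) (a := 0) (b := 2) (c := 3) (cn := .up) (n1 := ndB0q0) (n2 := ndB0q2) (pc := pcB3) (cut := cut_A00mm_023_s1) (xt := Ext.none) (P1 := 0) (W1 := 536870912) (P2 := 0) (W2 := 536870912) (P3 := 587336777) (W3 := 62277027)
    rfl k0_A00mm_023_s1

theorem s_A00mm_023_s1 {κ x : ℝ} (hκ : κ * h0 = ken x) (hx : ((587336777 : ℕ) : ℝ) / S ≤ x)
    (hx' : x ≤ (((587336777 : ℕ) : ℝ) + (62277027 : ℕ)) / S) :
    AltA (VFD κ) PP tK tL pcB [⟨3, 0, 0, 1449551462⟩] 0 2 3 0 0 (sgb false) (sgb false) x :=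
  strip_altAD (m := 1449551462) true rfl hκ (SH.κ0 hκ (SH.hx1 hx).le (SH.hx2 hx').le) (SH.hx1 hx).le (SH.hx2 hx') (covB00).cov (covB02).cov hx hx' c_A00mm_023_s1 cutA_nil (noExt_A)

noncomputable def cut_A00mm_023_s3 : Cut := Cut.of [[⟨3, 0, 0, 2845415833⟩]]

noncomputable def f_A00mm_023_s3 : ℕ → ℕ → ℕ → ℕ → Bool := onCell 0 536870912 0 536870912 587336777 62277027
    (rowF 0 true false false .up 0 2 3 (qsf 0 536870912 0 536870912 3) ndB0q0 ndB0q2 pcB3 cut_A00mm_023_s3 Ext.none)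

def k0_A00mm_023_s3 : ∃ t, chk3 f_A00mm_023_s3 t 1 1 1 = true :=
  ⟨(l 5), by decide +kernel⟩

theorem c_A00mm_023_s3 : CertF 0 536870912 0 536870912 587336777 62277027 true false false .up 0 2 3
    ndB0q0 ndB0q2 pcB3 cut_A00mm_023_s3 Ext.none :=
  certF0 (fam := true) (s1 := false) (s2 := false) (a := 0) (b := 2) (c := 3) (cn := .up) (n1 := ndB0q0) (n2 := ndB0q2) (pc := pcB3) (cut := cut_A00mm_023_s3) (xt := Ext.none) (P1 := 0) (W1 := 536870912) (P2 := 0) (W2 := 536870912) (P3 := 587336777) (W3 := 62277027)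
    rfl k0_A00mm_023_s3

theorem s_A00mm_023_s3 {κ x : ℝ} (hκ : κ * h0 = ken x) (hx : ((587336777 : ℕ) : ℝ) / S ≤ x)
    (hx' : x ≤ (((587336777 : ℕ) : ℝ) + (62277027 : ℕ)) / S) :
    AltA (VFD κ) PP tK tL pcB [⟨4, 0, 0, 2845415833⟩] 0 2 3 0 0 (sgb false) (sgb false) x :=
  strip_altAD (m := 2845415833) false rfl hκ (SH.κ0 hκ (SH.hx1 hx).le (SH.hx2 hx').le) (SH.hx1 hx).le (SH.hx2 hx') (covB00).cov (covB02).cov hx hx' c_A00mm_023_s3 cutA_nil (noExt_A)

noncomputable def cut_A00mm_101_s1 : Cut := Cut.of [[⟨4, 0, 0, 1449551462⟩], [⟨0, 1, 0, 67108864⟩, ⟨1, 0, 0, 67108864⟩, ⟨2, 1, 0, 67108864⟩]]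

noncomputable def f_A00mm_101_s1 : ℕ → ℕ → ℕ → ℕ → Bool := onCell 536870912 536870912 0 536870912 587336777 62277027
    (rowF 0 true false false .npn 1 0 1 (qsf 536870912 536870912 0 536870912 1) ndB0q1 ndB0q0 pcB1 cut_A00mm_101_s1 Ext.none)

def k0_A00mm_101_s1 : ∃ t, chk3 f_A00mm_101_s1 t 1 1 1 = true :=
  ⟨(l 6), by decide +kernel⟩

theorem c_A00mm_101_s1 : CertF 536870912 536870912 0 536870912 587336777 62277027 true false false .npn 1 0 1
    ndB0q1 ndB0q0 pcB1 cut_A00mm_101_s1 Ext.none :=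
  certF0 (fam := true) (s1 := false) (s2 := false) (a := 1) (b := 0) (c := 1) (cn := .npn) (n1 := ndB0q1) (n2 := ndB0q0) (pc := pcB1) (cut := cut_A00mm_101_s1) (xt := Ext.none) (P1 := 536870912) (W1 := 536870912) (P2 := 0) (W2 := 536870912) (P3 := 587336777) (W3 := 62277027)
    rfl k0_A00mm_101_s1

theorem s_A00mm_101_s1 {κ x : ℝ} (hκ : κ * h0 = ken x) (hx : ((587336777 : ℕ) : ℝ) / S ≤ x)
    (hx' : x ≤ (((587336777 : ℕ) : ℝ) + (62277027 : ℕ)) / S)
    (H : CutA (VFD κ) PP tK tL pcB (Cut.of [[⟨0, 1, 0, 67108864⟩, ⟨1, 0, 0, 67108864⟩, ⟨2, 1, 0, 67108864⟩]]) 1 0 1 0 0 (sgb false) (sgb false) x) :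
    AltA (VFD κ) PP tK tL pcB [⟨3, 0, 0, 1449551462⟩] 1 0 1 0 0 (sgb false) (sgb false) x :=
  strip_altAD (m := 1449551462) true rfl hκ (SH.κ0 hκ (SH.hx1 hx).le (SH.hx2 hx').le) (SH.hx1 hx).le (SH.hx2 hx') (covB01).cov (covB00).cov hx hx' c_A00mm_101_s1 H (noExt_A)

noncomputable def cut_A00mm_101_s3 : Cut := Cut.of [[⟨3, 0, 0, 2845415833⟩], [⟨0, 1, 0, 67108864⟩, ⟨1, 0, 0, 67108864⟩, ⟨2, 1, 0, 67108864⟩]]

noncomputable def f_A00mm_101_s3 : ℕ → ℕ → ℕ → ℕ → Bool := onCell 536870912 536870912 0 536870912 587336777 62277027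
    (rowF 0 true false false .npn 1 0 1 (qsf 536870912 536870912 0 536870912 1) ndB0q1 ndB0q0 pcB1 cut_A00mm_101_s3 Ext.none)

def k0_A00mm_101_s3 : ∃ t, chk3 f_A00mm_101_s3 t 1 1 1 = true :=
  ⟨(a (l 4) (b (a (l 4) (b (a (l 4) (b (a (l 4) (b (l 14) (l 4))) (l 4))) (l 4))) (l 4))), by decide +kernel⟩

theorem c_A00mm_101_s3 : CertF 536870912 536870912 0 536870912 587336777 62277027 true false false .npn 1 0 1
    ndB0q1 ndB0q0 pcB1 cut_A00mm_101_s3 Ext.none :=
  certF0 (fam := true) (s1 := false) (s2 := false) (a := 1) (b := 0) (c := 1) (cn := .npn) (n1 := ndB0q1) (n2 := ndB0q0) (pc := pcB1) (cut := cut_A00mm_101_s3) (xt := Ext.none) (P1 := 536870912) (W1 := 536870912) (P2 := 0) (W2 := 536870912) (P3 := 587336777) (W3 := 62277027)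
    rfl k0_A00mm_101_s3

theorem s_A00mm_101_s3 {κ x : ℝ} (hκ : κ * h0 = ken x) (hx : ((587336777 : ℕ) : ℝ) / S ≤ x)
    (hx' : x ≤ (((587336777 : ℕ) : ℝ) + (62277027 : ℕ)) / S)
    (H : CutA (VFD κ) PP tK tL pcB (Cut.of [[⟨0, 1, 0, 67108864⟩, ⟨1, 0, 0, 67108864⟩, ⟨2, 1, 0, 67108864⟩]]) 1 0 1 0 0 (sgb false) (sgb false) x) :
    AltA (VFD κ) PP tK tL pcB [⟨4, 0, 0, 2845415833⟩] 1 0 1 0 0 (sgb false) (sgb false) x :=
  strip_altAD (m := 2845415833) false rfl hκ (SH.κ0 hκ (SH.hx1 hx).le (SH.hx2 hx').le) (SH.hx1 hx).le (SH.hx2 hx') (covB01).cov (covB00).cov hx hx' c_A00mm_101_s3 H (noExt_A)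

noncomputable def cut_A00mm_102_s1 : Cut := Cut.of [[⟨4, 0, 0, 1449551462⟩], [⟨0, 1, 0, 67108864⟩, ⟨1, 0, 0, 67108864⟩, ⟨2, 1, 0, 67108864⟩]]

noncomputable def f_A00mm_102_s1 : ℕ → ℕ → ℕ → ℕ → Bool := onCell 536870912 536870912 0 536870912 587336777 62277027
    (rowF 0 true false false .npp 1 0 2 (qsf 536870912 536870912 0 536870912 2) ndB0q1 ndB0q0 pcB2 cut_A00mm_102_s1 Ext.none)

def k0_A00mm_102_s1 : ∃ t, chk3 f_A00mm_102_s1 t 1 1 1 = true :=
  ⟨(l 6), by decide +kernel⟩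

theorem c_A00mm_102_s1 : CertF 536870912 536870912 0 536870912 587336777 62277027 true false false .npp 1 0 2
    ndB0q1 ndB0q0 pcB2 cut_A00mm_102_s1 Ext.none :=
  certF0 (fam := true) (s1 := false) (s2 := false) (a := 1) (b := 0) (c := 2) (cn := .npp) (n1 := ndB0q1) (n2 := ndB0q0) (pc := pcB2) (cut := cut_A00mm_102_s1) (xt := Ext.none) (P1 := 536870912) (W1 := 536870912) (P2 := 0) (W2 := 536870912) (P3 := 587336777) (W3 := 62277027)
    rfl k0_A00mm_102_s1

theorem s_A00mm_102_s1 {κ x : ℝ} (hκ : κ * h0 = ken x) (hx : ((587336777 : ℕ) : ℝ) / S ≤ x)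
    (hx' : x ≤ (((587336777 : ℕ) : ℝ) + (62277027 : ℕ)) / S)
    (H : CutA (VFD κ) PP tK tL pcB (Cut.of [[⟨0, 1, 0, 67108864⟩, ⟨1, 0, 0, 67108864⟩, ⟨2, 1, 0, 67108864⟩]]) 1 0 2 0 0 (sgb false) (sgb false) x) :
    AltA (VFD κ) PP tK tL pcB [⟨3, 0, 0, 1449551462⟩] 1 0 2 0 0 (sgb false) (sgb false) x :=
  strip_altAD (m := 1449551462) true rfl hκ (SH.κ0 hκ (SH.hx1 hx).le (SH.hx2 hx').le) (SH.hx1 hx).le (SH.hx2 hx') (covB01).cov (covB00).cov hx hx' c_A00mm_102_s1 H (noExt_A)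

noncomputable def cut_A00mm_102_s3 : Cut := Cut.of [[⟨3, 0, 0, 2845415833⟩], [⟨0, 1, 0, 67108864⟩, ⟨1, 0, 0, 67108864⟩, ⟨2, 1, 0, 67108864⟩]]

noncomputable def f_A00mm_102_s3 : ℕ → ℕ → ℕ → ℕ → Bool := onCell 536870912 536870912 0 536870912 587336777 62277027
    (rowF 0 true false false .npp 1 0 2 (qsf 536870912 536870912 0 536870912 2) ndB0q1 ndB0q0 pcB2 cut_A00mm_102_s3 Ext.none)

def k0_A00mm_102_s3 : ∃ t, chk3 f_A00mm_102_s3 t 1 1 1 = true :=
  ⟨(a (l 4) (b (a (l 4) (b (a (l 4) (b (a (l 4) (b (l 14) (l 4))) (l 4))) (l 4))) (l 4))), by decide +kernel⟩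

theorem c_A00mm_102_s3 : CertF 536870912 536870912 0 536870912 587336777 62277027 true false false .npp 1 0 2
    ndB0q1 ndB0q0 pcB2 cut_A00mm_102_s3 Ext.none :=
  certF0 (fam := true) (s1 := false) (s2 := false) (a := 1) (b := 0) (c := 2) (cn := .npp) (n1 := ndB0q1) (n2 := ndB0q0) (pc := pcB2) (cut := cut_A00mm_102_s3) (xt := Ext.none) (P1 := 536870912) (W1 := 536870912) (P2 := 0) (W2 := 536870912) (P3 := 587336777) (W3 := 62277027)
    rfl k0_A00mm_102_s3

theorem s_A00mm_102_s3 {κ x : ℝ} (hκ : κ * h0 = ken x) (hx : ((587336777 : ℕ) : ℝ) / S ≤ x)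
    (hx' : x ≤ (((587336777 : ℕ) : ℝ) + (62277027 : ℕ)) / S)
    (H : CutA (VFD κ) PP tK tL pcB (Cut.of [[⟨0, 1, 0, 67108864⟩, ⟨1, 0, 0, 67108864⟩, ⟨2, 1, 0, 67108864⟩]]) 1 0 2 0 0 (sgb false) (sgb false) x) :
    AltA (VFD κ) PP tK tL pcB [⟨4, 0, 0, 2845415833⟩] 1 0 2 0 0 (sgb false) (sgb false) x :=
  strip_altAD (m := 2845415833) false rfl hκ (SH.κ0 hκ (SH.hx1 hx).le (SH.hx2 hx').le) (SH.hx1 hx).le (SH.hx2 hx') (covB01).cov (covB00).cov hx hx' c_A00mm_102_s3 H (noExt_A)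

noncomputable def cut_A00mm_112_s1 : Cut := Cut.of [[⟨4, 0, 0, 1449551462⟩]]

noncomputable def f_A00mm_112_s1 : ℕ → ℕ → ℕ → ℕ → Bool := onCell 536870912 536870912 536870912 536870912 587336777 62277027
    (rowF 0 true false false .dn 1 1 2 (qsf 536870912 536870912 536870912 536870912 2) ndB0q1 ndB0q1 pcB2 cut_A00mm_112_s1 Ext.none)

def k0_A00mm_112_s1 : ∃ t, chk3 f_A00mm_112_s1 t 1 1 1 = true :=
  ⟨(l 4), by decide +kernel⟩

theorem c_A00mm_112_s1 : CertF 536870912 536870912 536870912 536870912 587336777 62277027 true false false .dn 1 1 2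
    ndB0q1 ndB0q1 pcB2 cut_A00mm_112_s1 Ext.none :=
  certF0 (fam := true) (s1 := false) (s2 := false) (a := 1) (b := 1) (c := 2) (cn := .dn) (n1 := ndB0q1) (n2 := ndB0q1) (pc := pcB2) (cut := cut_A00mm_112_s1) (xt := Ext.none) (P1 := 536870912) (W1 := 536870912) (P2 := 536870912) (W2 := 536870912) (P3 := 587336777) (W3 := 62277027)
    rfl k0_A00mm_112_s1

theorem s_A00mm_112_s1 {κ x : ℝ} (hκ : κ * h0 = ken x) (hx : ((587336777 : ℕ) : ℝ) / S ≤ x)
    (hx' : x ≤ (((587336777 : ℕ) : ℝ) + (62277027 : ℕ)) / S) :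
    AltA (VFD κ) PP tK tL pcB [⟨3, 0, 0, 1449551462⟩] 1 1 2 0 0 (sgb false) (sgb false) x :=
  strip_altAD (m := 1449551462) true rfl hκ (SH.κ0 hκ (SH.hx1 hx).le (SH.hx2 hx').le) (SH.hx1 hx).le (SH.hx2 hx') (covB01).cov (covB01).cov hx hx' c_A00mm_112_s1 cutA_nil (noExt_A)

noncomputable def cut_A00mm_112_s3 : Cut := Cut.of [[⟨3, 0, 0, 2845415833⟩]]

noncomputable def f_A00mm_112_s3 : ℕ → ℕ → ℕ → ℕ → Bool := onCell 536870912 536870912 536870912 536870912 587336777 62277027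
    (rowF 0 true false false .dn 1 1 2 (qsf 536870912 536870912 536870912 536870912 2) ndB0q1 ndB0q1 pcB2 cut_A00mm_112_s3 Ext.none)

def k0_A00mm_112_s3 : ∃ t, chk3 f_A00mm_112_s3 t 1 1 1 = true :=
  ⟨(l 4), by decide +kernel⟩

theorem c_A00mm_112_s3 : CertF 536870912 536870912 536870912 536870912 587336777 62277027 true false false .dn 1 1 2
    ndB0q1 ndB0q1 pcB2 cut_A00mm_112_s3 Ext.none :=
  certF0 (fam := true) (s1 := false) (s2 := false) (a := 1) (b := 1) (c := 2) (cn := .dn) (n1 := ndB0q1) (n2 := ndB0q1) (pc := pcB2) (cut := cut_A00mm_112_s3) (xt := Ext.none) (P1 := 536870912) (W1 := 536870912) (P2 := 536870912) (W2 := 536870912) (P3 := 587336777) (W3 := 62277027)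
    rfl k0_A00mm_112_s3

theorem s_A00mm_112_s3 {κ x : ℝ} (hκ : κ * h0 = ken x) (hx : ((587336777 : ℕ) : ℝ) / S ≤ x)
    (hx' : x ≤ (((587336777 : ℕ) : ℝ) + (62277027 : ℕ)) / S) :
    AltA (VFD κ) PP tK tL pcB [⟨4, 0, 0, 2845415833⟩] 1 1 2 0 0 (sgb false) (sgb false) x :=
  strip_altAD (m := 2845415833) false rfl hκ (SH.κ0 hκ (SH.hx1 hx).le (SH.hx2 hx').le) (SH.hx1 hx).le (SH.hx2 hx') (covB01).cov (covB01).cov hx hx' c_A00mm_112_s3 cutA_nil (noExt_A)

noncomputable def cut_A00mm_113_s1 : Cut := Cut.of [[⟨4, 0, 0, 1449551462⟩]]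

noncomputable def f_A00mm_113_s1 : ℕ → ℕ → ℕ → ℕ → Bool := onCell 536870912 536870912 536870912 536870912 587336777 62277027
    (rowF 0 true false false .nn 1 1 3 (qsf 536870912 536870912 536870912 536870912 3) ndB0q1 ndB0q1 pcB3 cut_A00mm_113_s1 Ext.none)

def k0_A00mm_113_s1 : ∃ t, chk3 f_A00mm_113_s1 t 1 1 1 = true :=
  ⟨(l 4), by decide +kernel⟩

theorem c_A00mm_113_s1 : CertF 536870912 536870912 536870912 536870912 587336777 62277027 true false false .nn 1 1 3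
    ndB0q1 ndB0q1 pcB3 cut_A00mm_113_s1 Ext.none :=
  certF0 (fam := true) (s1 := false) (s2 := false) (a := 1) (b := 1) (c := 3) (cn := .nn) (n1 := ndB0q1) (n2 := ndB0q1) (pc := pcB3) (cut := cut_A00mm_113_s1) (xt := Ext.none) (P1 := 536870912) (W1 := 536870912) (P2 := 536870912) (W2 := 536870912) (P3 := 587336777) (W3 := 62277027)
    rfl k0_A00mm_113_s1

theorem s_A00mm_113_s1 {κ x : ℝ} (hκ : κ * h0 = ken x) (hx : ((587336777 : ℕ) : ℝ) / S ≤ x)
    (hx' : x ≤ (((587336777 : ℕ) : ℝ) + (62277027 : ℕ)) / S) :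
    AltA (VFD κ) PP tK tL pcB [⟨3, 0, 0, 1449551462⟩] 1 1 3 0 0 (sgb false) (sgb false) x :=
  strip_altAD (m := 1449551462) true rfl hκ (SH.κ0 hκ (SH.hx1 hx).le (SH.hx2 hx').le) (SH.hx1 hx).le (SH.hx2 hx') (covB01).cov (covB01).cov hx hx' c_A00mm_113_s1 cutA_nil (noExt_A)

noncomputable def cut_A00mm_113_s3 : Cut := Cut.of [[⟨3, 0, 0, 2845415833⟩]]

noncomputable def f_A00mm_113_s3 : ℕ → ℕ → ℕ → ℕ → Bool := onCell 536870912 536870912 536870912 536870912 587336777 62277027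
    (rowF 0 true false false .nn 1 1 3 (qsf 536870912 536870912 536870912 536870912 3) ndB0q1 ndB0q1 pcB3 cut_A00mm_113_s3 Ext.none)

def k0_A00mm_113_s3 : ∃ t, chk3 f_A00mm_113_s3 t 1 1 1 = true :=
  ⟨(l 4), by decide +kernel⟩

theorem c_A00mm_113_s3 : CertF 536870912 536870912 536870912 536870912 587336777 62277027 true false false .nn 1 1 3
    ndB0q1 ndB0q1 pcB3 cut_A00mm_113_s3 Ext.none :=
  certF0 (fam := true) (s1 := false) (s2 := false) (a := 1) (b := 1) (c := 3) (cn := .nn) (n1 := ndB0q1) (n2 := ndB0q1) (pc := pcB3) (cut := cut_A00mm_113_s3) (xt := Ext.none) (P1 := 536870912) (W1 := 536870912) (P2 := 536870912) (W2 := 536870912) (P3 := 587336777) (W3 := 62277027)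
    rfl k0_A00mm_113_s3

theorem s_A00mm_113_s3 {κ x : ℝ} (hκ : κ * h0 = ken x) (hx : ((587336777 : ℕ) : ℝ) / S ≤ x)
    (hx' : x ≤ (((587336777 : ℕ) : ℝ) + (62277027 : ℕ)) / S) :
    AltA (VFD κ) PP tK tL pcB [⟨4, 0, 0, 2845415833⟩] 1 1 3 0 0 (sgb false) (sgb false) x :=
  strip_altAD (m := 2845415833) false rfl hκ (SH.κ0 hκ (SH.hx1 hx).le (SH.hx2 hx').le) (SH.hx1 hx).le (SH.hx2 hx') (covB01).cov (covB01).cov hx hx' c_A00mm_113_s3 cutA_nil (noExt_A)

noncomputable def cut_A00mm_123_s1 : Cut := Cut.of [[⟨4, 0, 0, 1449551462⟩]]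

noncomputable def f_A00mm_123_s1 : ℕ → ℕ → ℕ → ℕ → Bool := onCell 536870912 536870912 0 536870912 587336777 62277027
    (rowF 0 true false false .npn 1 2 3 (qsf 536870912 536870912 0 536870912 3) ndB0q1 ndB0q2 pcB3 cut_A00mm_123_s1 Ext.none)

def k0_A00mm_123_s1 : ∃ t, chk3 f_A00mm_123_s1 t 1 1 1 = true :=
  ⟨(l 6), by decide +kernel⟩

theorem c_A00mm_123_s1 : CertF 536870912 536870912 0 536870912 587336777 62277027 true false false .npn 1 2 3
    ndB0q1 ndB0q2 pcB3 cut_A00mm_123_s1 Ext.none :=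
  certF0 (fam := true) (s1 := false) (s2 := false) (a := 1) (b := 2) (c := 3) (cn := .npn) (n1 := ndB0q1) (n2 := ndB0q2) (pc := pcB3) (cut := cut_A00mm_123_s1) (xt := Ext.none) (P1 := 536870912) (W1 := 536870912) (P2 := 0) (W2 := 536870912) (P3 := 587336777) (W3 := 62277027)
    rfl k0_A00mm_123_s1

theorem s_A00mm_123_s1 {κ x : ℝ} (hκ : κ * h0 = ken x) (hx : ((587336777 : ℕ) : ℝ) / S ≤ x)
    (hx' : x ≤ (((587336777 : ℕ) : ℝ) + (62277027 : ℕ)) / S) :
    AltA (VFD κ) PP tK tL pcB [⟨3, 0, 0, 1449551462⟩] 1 2 3 0 0 (sgb false) (sgb false) x :=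
  strip_altAD (m := 1449551462) true rfl hκ (SH.κ0 hκ (SH.hx1 hx).le (SH.hx2 hx').le) (SH.hx1 hx).le (SH.hx2 hx') (covB01).cov (covB02).cov hx hx' c_A00mm_123_s1 cutA_nil (noExt_A)

noncomputable def cut_A00mm_123_s3 : Cut := Cut.of [[⟨3, 0, 0, 2845415833⟩]]

noncomputable def f_A00mm_123_s3 : ℕ → ℕ → ℕ → ℕ → Bool := onCell 536870912 536870912 0 536870912 587336777 62277027
    (rowF 0 true false false .npn 1 2 3 (qsf 536870912 536870912 0 536870912 3) ndB0q1 ndB0q2 pcB3 cut_A00mm_123_s3 Ext.none)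

def k0_A00mm_123_s3 : ∃ t, chk3 f_A00mm_123_s3 t 1 1 1 = true :=
  ⟨(a (l 5) (l 4)), by decide +kernel⟩

theorem c_A00mm_123_s3 : CertF 536870912 536870912 0 536870912 587336777 62277027 true false false .npn 1 2 3
    ndB0q1 ndB0q2 pcB3 cut_A00mm_123_s3 Ext.none :=
  certF0 (fam := true) (s1 := false) (s2 := false) (a := 1) (b := 2) (c := 3) (cn := .npn) (n1 := ndB0q1) (n2 := ndB0q2) (pc := pcB3) (cut := cut_A00mm_123_s3) (xt := Ext.none) (P1 := 536870912) (W1 := 536870912) (P2 := 0) (W2 := 536870912) (P3 := 587336777) (W3 := 62277027)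
    rfl k0_A00mm_123_s3

theorem s_A00mm_123_s3 {κ x : ℝ} (hκ : κ * h0 = ken x) (hx : ((587336777 : ℕ) : ℝ) / S ≤ x)
    (hx' : x ≤ (((587336777 : ℕ) : ℝ) + (62277027 : ℕ)) / S) :
    AltA (VFD κ) PP tK tL pcB [⟨4, 0, 0, 2845415833⟩] 1 2 3 0 0 (sgb false) (sgb false) x :=
  strip_altAD (m := 2845415833) false rfl hκ (SH.κ0 hκ (SH.hx1 hx).le (SH.hx2 hx').le) (SH.hx1 hx).le (SH.hx2 hx') (covB01).cov (covB02).cov hx hx' c_A00mm_123_s3 cutA_nil (noExt_A)

noncomputable def cut_A00mm_202_s1 : Cut := Cut.of [[⟨4, 0, 0, 1449551462⟩], [⟨0, 1, 0, 67108864⟩, ⟨1, 0, 0, 67108864⟩, ⟨2, 1, 0, 67108864⟩]]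

noncomputable def f_A00mm_202_s1 : ℕ → ℕ → ℕ → ℕ → Bool := onCell 0 536870912 0 536870912 587336777 62277027
    (rowF 0 true false false .pp 2 0 2 (qsf 0 536870912 0 536870912 2) ndB0q2 ndB0q0 pcB2 cut_A00mm_202_s1 Ext.none)

def k0_A00mm_202_s1 : ∃ t, chk3 f_A00mm_202_s1 t 1 1 1 = true :=
  ⟨(l 6), by decide +kernel⟩

theorem c_A00mm_202_s1 : CertF 0 536870912 0 536870912 587336777 62277027 true false false .pp 2 0 2
    ndB0q2 ndB0q0 pcB2 cut_A00mm_202_s1 Ext.none :=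
  certF0 (fam := true) (s1 := false) (s2 := false) (a := 2) (b := 0) (c := 2) (cn := .pp) (n1 := ndB0q2) (n2 := ndB0q0) (pc := pcB2) (cut := cut_A00mm_202_s1) (xt := Ext.none) (P1 := 0) (W1 := 536870912) (P2 := 0) (W2 := 536870912) (P3 := 587336777) (W3 := 62277027)
    rfl k0_A00mm_202_s1

theorem s_A00mm_202_s1 {κ x : ℝ} (hκ : κ * h0 = ken x) (hx : ((587336777 : ℕ) : ℝ) / S ≤ x)
    (hx' : x ≤ (((587336777 : ℕ) : ℝ) + (62277027 : ℕ)) / S)
    (H : CutA (VFD κ) PP tK tL pcB (Cut.of [[⟨0, 1, 0, 67108864⟩, ⟨1, 0, 0, 67108864⟩, ⟨2, 1, 0, 67108864⟩]]) 2 0 2 0 0 (sgb false) (sgb false) x) :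
    AltA (VFD κ) PP tK tL pcB [⟨3, 0, 0, 1449551462⟩] 2 0 2 0 0 (sgb false) (sgb false) x :=
  strip_altAD (m := 1449551462) true rfl hκ (SH.κ0 hκ (SH.hx1 hx).le (SH.hx2 hx').le) (SH.hx1 hx).le (SH.hx2 hx') (covB02).cov (covB00).cov hx hx' c_A00mm_202_s1 H (noExt_A)

noncomputable def cut_A00mm_202_s3 : Cut := Cut.of [[⟨3, 0, 0, 2845415833⟩], [⟨0, 1, 0, 67108864⟩, ⟨1, 0, 0, 67108864⟩, ⟨2, 1, 0, 67108864⟩]]

noncomputable def xt_A00mm_202_s3 : Ext := strExt0 dd true false false .u2 .u0m .s2m .pp 2 0 2 rfl rfl gl2 vv ww kz ndB0q2 ndB0q0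

noncomputable def f_A00mm_202_s3 : ℕ → ℕ → ℕ → ℕ → Bool := onCell 0 536870912 0 536870912 587336777 62277027
    (rowF 0 true false false .pp 2 0 2 (qsf 0 536870912 0 536870912 2) ndB0q2 ndB0q0 pcB2 cut_A00mm_202_s3 xt_A00mm_202_s3)

def k0_A00mm_202_s3 : ∃ t, chk3 f_A00mm_202_s3 t 2 2 1 = true :=
  ⟨(b (a (l 6) (b (l 6) (a (l 6) (a (l 6) (b (b (l 6) (b (l 6) (a (l 6) (a (l 6) (l 16586528))))) (b (b (a (l 6) (a (l 16585944) (l 16591952))) (a (l 16582496) (c (l 16595912) (l 16593136)))) (a (l 16621880) (b (l 16620816) (l 16626376))))))))) (a (b (l 6) (a (l 6) (b (l 6) (a (l 6) (l 16616040))))) (b (a (a (l 6) (b (l 6) (l 16621712))) (a (b (b (a (l 6) (l 16589456)) (a (l 16589000) (l 16600464))) (a (a (l 16603560) (l 16651224)) (b (l 16612128) (l 16624640)))) (b (b (a (l 16622296) (b (l 16632032) (l 16637784))) (a (l 16633648) (b (l 16643640) (l 16649624)))) (b (a (l 16645592) (a (l 16655440) (l 1067943951))) (a (l 16668824) (a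 (l 16668368) (l 1067596815))))))) (a (a (b (l 16679152) (l 16712248)) (b (b (l 16650144) (l 16619384)) (a (l 16639440) (l 16700960)))) (a (b (b (a (l 16667624) (a (l 16634912) (l 16683168))) (a (l 16636480) (l 16671016))) (a (b (l 16651120) (l 16667080)) (b (l 16684088) (a (l 16675944) (l 16703216))))) (b (b (a (a (l 16647696) (l 16675320)) (a (l 1066841615) (l 1067825167))) (a (a (l 16681512) (l 1066870799)) (a (l 1067331599) (l 1067788815)))) (a (b (a (l 16693848) (l 16700720)) (a (l 16709800) (l 1066811407))) (a (b (l 1066624527) (l 1066695695)) (b (l 1067094031) (l 1067118095)))))))))), by decide +kernel⟩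

def k1_A00mm_202_s3 : ∃ t, chk3 f_A00mm_202_s3 t 6 16 1 = true :=
  ⟨(a (a (l 6) (a (l 6) (b (a (l 6) (a (l 6) (b (l 6) (l 16579784)))) (b (a (l 6) (b (l 16583168) (l 16586360))) (c (l 16588256) (a (l 16584208) (l 16590360))))))) (a (b (a (c (b (a (l 16579088) (l 16585280)) (a (l 16585624) (l 16592008))) (b (a (l 16575560) (l 16581480)) (a (l 16582840) (l 16588944)))) (a (b (a (l 16588144) (l 16591288)) (l 16597000)) (b (a (l 16594472) (l 16597704)) (l 16603552)))) (a (b (a (a (l 16589456) (l 16592632)) (l 16597464)) (c (l 16601536) (a (l 16596664) (l 16603128)))) (a (b (l 16604040) (l 16610904)) (b (l 16610776) (l 16617816))))) (b (b (a (c (l 16608184) (b (l 16601536) (l 16605640))) (c (l 16622192) (b (l 16615192) (l 16619456)))) (a (a (l 16610264) (l 16617168)) (a (l 16624256) (l 16631552)))) (a (a (b (l 16617672) (l 16624888)) (b (l 16624736) (l 16632120))) (b (c (l 16637416) (l 16633832)) (c (l 16644760) (l 16641728))))))),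 by decide +kernel⟩

def k2_A00mm_202_s3 : ∃ t, chk3 f_A00mm_202_s3 t 6 17 1 = true :=
  ⟨(a (a (b (l 6) (a (l 6) (b (a (l 6) (b (l 6) (l 16584192))) (a (b (l 6) (b (l 6) (l 16584576))) (a (b (l 16585552) (c (l 1067444239) (l 1067344911))) (b (l 16588656) (b (l 16590872) (l 16592360)))))))) (a (b (a (b (l 6) (c (l 16584064) (b (l 6) (l 16584216)))) (b (a (l 16582520) (l 16585752)) (c (b (l 16588784) (l 16591768)) (l 16589496)))) (b (a (b (l 16587592) (l 16590488)) (b (c (l 16594784) (l 16593600)) (l 16596976))) (a (b (l 16593424) (a (b (l 16594048) (l 16595544)) (l 16598016))) (b (l 16599952) (l 16602960))))) (a (b (b (c (l 16590736) (l 16590448)) (l 16606848)) (b (c (l 16602776) (l 16601880)) (b (a (l 16604968) (l 16608384)) (l 16609720)))) (b (b (l 16597200) (l 16603184)) (b (l 16609080) (c (l 16615744) (l 16614784))))))) (a (a (a (b (b (l 16603864) (l 16610072)) (b (l 16616168) (l 16622288))) (b (b (l 16613288) (l 16617072))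 (b (l 16623392) (l 16629640)))) (b (a (c (l 16621448) (b (l 16616728) (l 16623576))) (b (l 16624704) (l 16631480))) (c (b (l 16634728) (l 16641064)) (b (l 16633984) (l 16640736))))) (b (b (a (a (l 16631952) (l 16639352)) (c (l 16651992) (l 16649448))) (a (a (l 16638904) (l 16646472)) (a (l 16654200) (l 16662096)))) (a (a (b (l 16645776) (l 16652584)) (b (l 16656136) (l 16660496))) (a (b (l 16661400) (l 1066286095)) (b (l 16669432) (l 16676720))))))), by decide +kernel⟩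

def k3_A00mm_202_s3 : ∃ t, chk3 f_A00mm_202_s3 t 12 18 1 = true :=
  ⟨(a (b (a (a (l 6) (b (l 6) (a (l 16586112) (l 16589176)))) (b (b (a (l 16586720) (l 16592976)) (a (l 16589576) (l 16595888))) (b (c (l 16597120) (l 16594408)) (a (l 16595280) (l 16601712))))) (c (a (b (l 16602256) (l 16597248)) (b (b (l 16602800) (l 16605648)) (l 16615168))) (a (b (b (l 16587496) (l 16590304)) (l 16605016)) (a (b (l 16598408) (l 16604208)) (b (l 16605008) (l 16610912)))))) (b (a (b (b (a (b (a (l 16597040) (l 16600288)) (l 16600152)) (a (b (l 16603576) (l 16605104)) (l 16607688))) (a (l 16602384) (a (l 16607368) (l 16610760)))) (a (b (l 16605352) (l 16608320)) (b (l 16612088) (l 16615112)))) (b (b (a (l 16612808) (l 16619800)) (a (a (l 1067004943) (l 1066970127)) (a (l 16621176) (l 16624736)))) (a (b (l 16619024) (l 16622104)) (b (c (l 1066941455) (l 1067133967)) (l 16629272))))) (a (b (a (c (l 16614000) (l 16611800)) (c (l 16620768) (l 16618784)))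 (a (c (l 16619880) (l 16617816)) (c (l 16626760) (l 16624912)))) (a (b (c (l 16627720) (l 16625952)) (c (l 16633832) (l 16632192))) (a (b (l 16632136) (l 16638400)) (b (l 16635808) (l 16642128))))))), by decide +kernel⟩

def k4_A00mm_202_s3 : ∃ t, chk3 f_A00mm_202_s3 t 12 19 1 = true :=
  ⟨(a (c (b (a (b (l 16602760) (l 16608336)) (b (l 16620912) (l 16626712))) (a (b (l 16613976) (l 16619696)) (b (a (l 16623888) (l 16630744)) (a (l 16629768) (l 16636736))))) (b (a (b (l 16600176) (a (l 16602584) (l 16609136))) (b (a (l 16610024) (l 16616840)) (a (l 16615872) (l 16622808)))) (a (b (l 16611608) (l 16617416)) (b (l 16625304) (l 16631336))))) (b (a (b (c (a (l 16625792) (l 16632792)) (a (l 16623856) (l 16631056))) (c (a (l 16631760) (l 16638864)) (l 16633592))) (a (b (a (l 16637256) (l 16640952)) (l 16645352)) (b (l 16646576) (l 16652936)))) (b (a (c (a (l 16637784) (l 16645008)) (l 16639768)) (a (l 16651648) (l 16659344))) (a (c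 (l 16650184) (l 16646008)) (a (l 16658016) (l 16665824)))))), by decide +kernel⟩

def k5_A00mm_202_s3 : ∃ t, chk3 f_A00mm_202_s3 t 13 9 1 = true :=
  ⟨(b (b (b (a (a (a (a (l 16626752) (l 16630408)) (l 16635992)) (c (l 16647624) (l 16647432))) (a (c (l 16663608) (l 16663056)) (c (l 16680240) (l 16679248)))) (a (a (a (b (a (l 16631552) (l 16635232)) (a (l 16634760) (l 1066792975))) (a (l 1066767887) (l 16644376))) (a (l 16650152) (l 16658024))) (a (c (l 16670280) (l 16670048)) (c (l 16687240) (l 16691800))))) (a (a (a (b (a (l 16639528) (l 16643288)) (l 16647808)) (b (a (l 16647096) (l 16650944)) (l 16655528))) (a (b (l 1066642959) (l 16663432)) (c (l 1066578959) (l 1067079695)))) (a (a (c (l 1066507279) (l 1067023887)) (c (l 1066435599) (l 1066962447))) (a (l 1067448335) (l 1067120655))))) (b (a (b (a (a (l 16654232) (l 16662064)) (c (l 16674552) (l 16673952))) (a (a (l 16660696) (l 16668640)) (a (l 16676752) (l 16685048))))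 (a (a (l 1067202575) (l 1066876431)) (a (l 1067362319) (l 1067309583)))) (b (a (a (a (l 16667216) (l 16675264)) (c (l 16688008) (l 1067467279))) (a (a (l 16700512) (l 16714608)) (a (l 1066229775) (l 1066180111)))) (a (a (a (l 16673808) (l 16681960)) (c (l 16700072) (l 1067416591))) (a (a (l 16712888) (l 1066235407)) (a (l 1066191375) (l 1066144783))))))), by decide +kernel⟩

def k6_A00mm_202_s3 : ∃ t, chk3 f_A00mm_202_s3 t 14 8 1 = true :=
  ⟨(b (b (a (b (a (a (l 16630808) (l 16638408)) (a (l 16646256) (a (l 16652304) (l 16656416)))) (a (a (l 16639064) (l 16646800)) (a (l 16654768) (l 16662984)))) (b (a (b (l 14) (c (l 16671384) (l 16667032))) (l 14)) (a (a (l 16671456) (a (l 16677968) (l 16682408))) (b (l 14) (a (l 16691392) (l 14)))))) (a (a (a (b (l 16647088) (l 16654920)) (b (l 16654960) (l 16662920))) (a (b (l 16663048) (l 16671136)) (b (l 16671376) (l 16679576)))) (a (a (b (l 16679944) (l 16688248)) (b (l 16699264) (l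 16707656))) (a (b (c (l 16699352) (l 16696304)) (c (l 16707592) (l 16705024))) (b (b (l 14) (l 16709400)) (b (l 16713680) (l 16717912))))))) (a (a (b (a (b (l 16662600) (l 16670160)) (b (l 16670728) (l 16678416))) (a (a (l 1066894351) (l 1066852367)) (a (l 1066272271) (l 1066228751)))) (b (a (b (l 16679056) (l 16686864)) (b (l 16687608) (l 16695520))) (a (a (l 1066183695) (l 1066138639)) (a (l 1066092047) (l 1066044943))))) (b (b (a (a (l 16696384) (l 16715888)) (a (c (l 16715704) (l 16713552)) (b (l 16722104) (l 16726264)))) (a (a (l 16714880) (c (l 16714440) (l 16712480))) (a (c (l 16734184) (l 16732424)) (b (l 16740880) (l 16739744))))) (a (a (a (l 1066533903) (l 1066485263)) (b (c (l 16722272) (l 16731144)) (c (l 16735288) (l 16733992)))) (b (a (b (l 16728920) (l 16743424)) (a (l 1065686031) (l 1065631759))) (a (a (l 1065801743) (l 1065750543)) (a (l 1065698319) (l 1065645583)))))))), by decide +kernel⟩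

def k7_A00mm_202_s3 : ∃ t, chk3 f_A00mm_202_s3 t 15 8 1 = true :=
  ⟨(b (a (b (l 14) (b (l 14) (a (a (b (a (l 16720928) (l 16725856)) (a (l 16725184) (l 16730128))) (b (l 14) (a (l 16735152) (l 16740240)))) (l 14)))) (l 14)) (b (b (a (a (a (a (b (l 16729408) (l 16733592)) (b (l 16734368) (l 16738568))) (a (b (l 16739400) (l 16743616)) (a (l 1065360399) (l 1065329167)))) (a (a (a (l 1065297423) (l 1065265679)) (a (l 1065233935) (l 1065201679))) (a (b (l 14) (a (l 1065180175) (l 1065147919))) (l 14)))) (l 14)) (a (a (a (a (l 1066091535) (b (l 16742736) (l 16752120))) (a (b (l 16753040) (l 1065980431)) (a (l 1065394703) (l 1065363983)))) (a (a (a (l 1065333263) (l 1065302543)) (a (l 1065271823) (l 1065240591))) (a (a (l 1065209359) (a (l 1065187343) (l 1065171471))) (a (a (l 1065156111) (l 1065140239)) (a (l 1065124367) (l 1065108495)))))) (b (b (l 14) (b (l 14) (l 4))) (l 4)))) (b (a (a (a (a (l 1066113039) (b (l 16756240) (l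 1065524751))) (a (a (l 1065480207) (l 1065451023)) (a (l 1065421839) (l 1065392655)))) (a (a (a (l 1065362959) (l 1065333263)) (a (l 1065303055) (l 1065272847))) (a (a (l 1065242127) (l 1065748495)) (l 4)))) (l 4)) (a (a (b (a (a (l 1065588751) (l 1065533455)) (a (l 1066014735) (l 1067568143))) (a (a (l 1065594895) (l 1065541135)) (a (l 1067097615) (a (l 1065447951) (l 1065419791))))) (a (a (a (l 1065386511) (l 1065357839)) (a (l 1065328655) (l 4))) (l 4))) (l 4))))), by decide +kernel⟩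

def k8_A00mm_202_s3 : ∃ t, chk3 f_A00mm_202_s3 t 7 9 1 = true :=
  ⟨(b (a (a (a (b (a (b (l 1067923471) (l 16699784)) (a (l 1066784271) (l 1066208271))) (a (b (l 16707096) (l 16719640)) (b (l 16721200) (l 16728616)))) (b (a (b (l 1067760655) (l 1067750415)) (a (l 1066084879) (l 1066041871))) (a (b (l 1066124303) (l 1066103823)) (b (l 1067657743) (l 1066032143))))) (a (b (a (a (l 1065998351) (l 1065953295)) (a (l 1065907727) (l 1066934799))) (a (b (l 1068113423) (l 1065955855)) (a (l 1065903631) (l 1065861135)))) (a (a (b (b (l 1065809935) (l 1065816079)) (l 1065818127)) (b (b (l 1065760271) (l 1065768975)) (l 1066310671))) (b (a (b (l 1065710095) (l 1065720335)) (b (l 1065658383) (l 1065670671))) (a (l 1066802191) (c (l 1066314255) (l 1066112527))))))) (a (a (a (b (b (a (l 1066142735) (l 1066626575)) (a (l 1066693647) (l 1065568271))) (a (a (l 1065648655) (l 1065624591)) (l 4))) (b (a (a (l 1066597903) (b (l 1065486863) (l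 4))) (a (b (l 1065459727) (l 4)) (b (l 1065433103) (l 4)))) (l 4))) (l 4)) (l 4))) (b (a (a (a (a (l 1066986511) (l 1066929167)) (a (l 1066868751) (l 1066536463))) (a (a (l 1066200079) (b (l 1065865231) (l 1065851407))) (a (a (l 1065805839) (l 1066303503)) (l 4)))) (l 4)) (a (a (a (a (l 1066110991) (l 1066594319)) (a (l 1067075087) (a (l 1065960975) (l 1065932303)))) (a (a (l 1065884687) (l 1066492943)) (l 4))) (l 4)))), by decide +kernel⟩

def k9_A00mm_202_s3 : ∃ t, chk3 f_A00mm_202_s3 t 12 10 1 = true :=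
  ⟨(b (a (c (b (a (a (l 16646032) (l 16631816)) (a (l 16641384) (l 1067633679))) (a (b (l 16637440) (l 16643568)) (b (l 16662112) (l 16668440)))) (b (a (b (l 16623312) (l 16629296)) (b (l 16637440) (l 16643632))) (a (a (l 16634888) (l 16652512)) (b (l 16660408) (l 16666800))))) (a (b (a (a (l 1067528719) (l 1067492367)) (a (l 1067456527) (l 1067421199))) (a (b (l 16667168) (l 1067096591)) (a (l 1067338767) (l 1067302415)))) (b (a (a (l 1067385871) (l 1067082255)) (c (l 1066532367) (l 1066464271))) (a (b (l 1066472975) (l 1066412047)) (b (l 1066401807) (l 1066339855)))))) (a (a (a (b (c (l 16670416) (l 16668424)) (b (l 16679120) (l 16685920))) (b (b (l 16673312) (l 16669304)) (c (l 1067219983) (l 1066569743)))) (a (b (a (l 1067454479) (l 1067415055)) (c (l 1067401743) (l 1066486287))) (b (b (l 1067115535) (l 1067060239)) (b (l 1067278863) (l 1067237391))))) (a (b (a (b (l 1067038735) (l 1066981391)) (b (l 1066962447) (l 1066903567)))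 (a (b (l 1067062799) (l 1067018255)) (b (l 1066982415) (l 1066934287)))) (b (a (c (l 1067172879) (l 1066827791)) (b (l 1066277903) (l 1066215439))) (a (b (l 1066768911) (l 1066851855)) (b (l 1066701839) (l 1066656271))))))), by decide +kernel⟩

def k10_A00mm_202_s3 : ∃ t, chk3 f_A00mm_202_s3 t 24 11 1 = true :=
  ⟨(b (a (b (a (l 1067600911) (a (l 1066593807) (l 1067085327))) (a (a (l 1067191823) (l 1067685903)) (a (l 1067642895) (l 1067598351)))) (a (b (a (l 1067309071) (l 1067264527)) (b (l 1066998287) (l 1066990095))) (b (b (l 1067208207) (l 1067188239)) (b (l 1067173903) (l 1067165199))))) (a (a (b (l 1067026447) (l 1066870799)) (b (b (l 1066468367) (l 1066375183)) (b (l 1066333199) (l 1066381327)))) (b (a (b (l 1066400783) (l 1066307599)) (b (a (l 1066348047) (l 1066847247)) (l 1066777615))) (a (b (l 1066226703) (l 1066272271)) (b (l 1066682895) (l 1066435087)))))), by decide +kernel⟩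

def k11_A00mm_202_s3 : ∃ t, chk3 f_A00mm_202_s3 t 25 11 1 = true :=
  ⟨(b (a (b (a (c (a (l 1066925583) (l 1066880015)) (l 1066923535)) (b (c (l 1066286607) (l 1066183183)) (c (l 1066802703) (l 1066155023)))) (a (c (b (l 1066881551) (l 1066874383)) (a (l 1066233359) (l 1066188303))) (b (a (l 1066745359) (l 1066700303)) (a (l 1066732047) (l 1066685967))))) (b (a (b (c (l 1066197519) (l 1066123791)) (c (l 1066711567) (l 1066073103))) (b (l 1066608143) (c (l 1066621455) (l 1066024975)))) (a (b (c (l 1066694159) (l 1066045967)) (a (l 1066639887) (l 1066593807))) (a (b (l 1066566671) (l 1066548751)) (b (l 1066522639) (l 1066503695)))))) (a (b (b (a (a (l 1066807823) (l 1066765839)) (a (l 1066722319) (l 1066676751))) (a (b (l 1066734607) (l 1066688015)) (c (b (l 1066739727) (l 1066688015)) (l 1066720271)))) (b (a (a (l 1066632719) (l 1066599951)) (a (b (l 1066054159) (l 1066006031)) (b (l 1066558479) (l 1066376207)))) (b (a (l 1066322447)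 (a (l 1066517519) (c (l 1065974287) (l 1065937935)))) (a (l 1066343951) (a (l 1066000911) (b (l 1066215439) (l 1065956879))))))) (b (a (a (b (l 1066629647) (a (l 1066738191) (l 1066720271))) (b (l 1066582543) (a (l 1066567695) (l 1066549263)))) (b (a (l 1066535951) (a (l 1066501135) (l 1066478095))) (b (l 1066506255) (l 1066623503)))) (b (a (b (a (l 1066526735) (l 1065958415)) (a (c (l 1065997839) (l 1065894415)) (l 1066447375))) (c (b (l 1065975311) (l 1065921551)) (l 1066372623))) (b (a (a (a (l 1066169359) (l 1066153487)) (l 1066130447)) (c (l 1066136079) (l 1065808911))) (a (a (a (c (l 1066177039) (l 1065981967)) (c (l 1066157071) (l 1066230799))) (l 1066137615)) (l 4))))))), by decide +kernel⟩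

def k12_A00mm_202_s3 : ∃ t, chk3 f_A00mm_202_s3 t 13 5 1 = true :=
  ⟨(b (a (b (a (b (a (c (l 1066460175) (l 1066399759)) (l 1066893839)) (a (l 1066971663) (l 1066776079))) (a (b (l 1066830351) (l 1066732047)) (b (l 1066786831) (l 1066691599)))) (a (a (b (b (l 1066210831) (l 1066162191)) (a (l 1066643983) (l 1066620431))) (b (l 1066945039) (l 1066853903))) (a (b (l 1066901519) (b (l 1066024975) (l 1065982479))) (b (l 1066862607) (b (l 1065984527) (l 1066476047)))))) (a (a (b (b (l 1066747407) (l 1066657295)) (b (l 1066832399) (a (l 1066673679) (l 1066462223)))) (b (b (l 1066711055) (l 1066091535)) (b (l 1066006543) (l 1065915919)))) (b (a (b (l 1066671631) (b (l 1066079247) (l 1066041359))) (b (c (l 1066105871) (l 1066066447)) (b (l 1066042383) (l 1066008079)))) (a (b (l 1065983503) (l 1065902607)) (b (l 1065956367) (l 4)))))) (a (b (a (a (b (b (l 1066563599) (l 1066513935)) (b (c (l 1066509327) (l 1065928719)) (a (c (l 1065978895)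 (l 1065886735)) (l 1066413583)))) (b (l 1066496527) (b (l 1065885711) (l 1066368527)))) (b (a (l 1066455055) (l 1066414607)) (a (l 1066359311) (l 1065786895)))) (a (a (a (b (b (b (l 1066446863) (l 1066440207)) (c (l 1066499087) (l 1065840143))) (b (c (l 1065903119) (l 1065788943)) (l 4))) (b (b (c (b (l 1066257935) (l 1066185743)) (l 1065811471)) (c (c (l 1065949199) (l 1065880079)) (l 1065796111))) (l 4))) (b (b (l 1066328591) (a (a (a (b (l 1066359311) (l 4)) (l 4)) (l 4)) (l 4))) (l 4))) (l 4))) (b (a (b (a (b (a (l 1065871887) (l 1067458575)) (l 1065817615)) (a (b (l 1065844751) (l 4)) (l 4))) (l 4)) (l 4)) (l 4)))), by decide +kernel⟩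

def k13_A00mm_202_s3 : ∃ t, chk3 f_A00mm_202_s3 t 7 5 1 = true :=
  ⟨(b (a (a (a (b (a (b (l 1066316303) (a (a (l 1066003471) (l 1065993231)) (a (l 1065983503) (l 1065973263)))) (b (l 1065999375) (l 1065944591))) (a (a (a (l 1065637391) (l 1065630735)) (l 4)) (l 4))) (b (a (b (a (l 1065963535) (l 1065936399)) (l 1065899535)) (b (c (l 1065926671) (l 1066384399)) (l 4))) (l 4))) (l 4)) (l 4)) (l 4)), by decide +kernel⟩

def k14_A00mm_202_s3 : ∃ t, chk3 f_A00mm_202_s3 t 4 3 1 = true :=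
  ⟨(b (b (a (a (l 6) (b (l 6) (l 16653344))) (b (a (l 16636136) (l 16647312)) (a (l 16664704) (l 16676008)))) (a (b (a (l 16688264) (l 16720696)) (b (a (l 16684112) (l 16695808)) (l 2))) (b (a (l 16732328) (l 16743848)) (b (a (l 16707680) (l 16719440)) (l 2))))) (l 2)), by decide +kernel⟩

def k15_A00mm_202_s3 : ∃ t, chk3 f_A00mm_202_s3 t 5 3 1 = true :=
  ⟨(b (b (a (a (b (l 16722424) (a (l 16685080) (l 16733616))) (b (b (l 16667304) (l 16724192)) (b (l 16728072) (a (l 16706008) (l 16757016))))) (a (b (a (b (l 16682560) (l 16718480)) (b (a (l 16691424) (l 16718704)) (a (l 16727368) (l 1067292175)))) (a (b (l 1068823567) (l 1068966415)) (b (l 1067487759) (l 1067622415)))) (b (a (b (a (l 1066507791) (b (l 16707384) (l 16725504))) (a (l 1067167247) (b (l 1067013647) (l 1067074575)))) (b (a (a (l 1066834959) (l 1067312655)) (a (l 1066716687) (l 1066657295))) (a (b (l 1066891791) (l 1066951183)) (c (a (l 1066867215) (l 1066805263))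 (a (l 1066787855) (l 1066727439)))))) (b (a (a (l 1067295247) (b (l 1067137039) (l 1067200527))) (a (b (l 1067012623) (l 1067074575)) (b (a (l 1066918927) (l 1066856463)) (b (l 1066933263) (l 1066964495))))) (b (a (l 1067328015) (a (l 1067137551) (a (l 1067042831) (l 1066978831)))) (a (l 1067393039) (a (l 1067199503) (b (l 1067059215) (l 1067091471))))))))) (a (a (b (a (l 16711128) (l 16759744)) (b (l 16753056) (l 69357005255))) (b (a (b (l 16719120) (l 16731560)) (b (l 16749200) (l 1069591055))) (b (a (l 16764288) (b (l 16770656) (l 16765904))) (b (l 1069037583) (l 2))))) (a (b (a (a (l 1069266447) (b (l 1067970575) (l 1068122639))) (b (l 1067763727) (l 1067910159))) (a (b (a (b (l 16768136) (l 1068486159)) (a (l 1068322319) (l 1068243471))) (b (a (l 1068587535) (a (l 1068444687) (l 1068365839))) (a (l 1068687887) (l 1068495375)))) (b (l 1068062223) (b (l 1068180495) (l 4))))) (b (a (b (l 1067493391) (l 1067631631)) (b (a (l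 1067295247) (l 1067165199)) (l 4))) (b (a (l 1067775503) (l 4)) (l 4)))))) (a (l 2) (a (l 2) (l 4)))), by decide +kernel⟩

def k16_A00mm_202_s3 : ∃ t, chk3 f_A00mm_202_s3 t 24 12 1 = true :=
  ⟨(b (a (a (b (a (l 1067134991) (l 1067076623)) (b (l 1066649103) (a (l 1066735631) (l 1066674191)))) (b (a (l 1067019279) (l 1067096591)) (a (c (l 1066620943) (l 1066547215)) (c (l 1066561039) (l 1066488335))))) (b (a (b (l 1066855439) (a (l 1066393615) (l 1066337807))) (b (a (l 1066237455) (l 1066184207)) (c (l 1066808847) (a (l 1066259983) (l 1066206735))))) (b (a (a (l 1066443279) (l 1066385935)) (a (l 1066330127) (c (l 1066301455) (l 1066243087)))) (a (a (l 1066494479) (l 1066436111)) (c (a (l 1066416143) (l 1066359311)) (a (l 1066337807) (b (l 1066272271) (l 1066292239)))))))) (a (b (b (a (a (l 1066793487) (c (l 1066780175) (l 1066678287))) (a (l 1066735631) (l 1066607631))) (a (a (b (l 1066838031) (l 1066868239)) (c (l 1066847759)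 (b (l 1066715663) (l 1066741775)))) (a (a (c (l 1066799631) (b (l 1066669071) (l 1066694159))) (l 1066710031)) (l 1066663439)))) (b (b (a (a (l 1066898447) (l 1066833935)) (a (c (a (l 1066850319) (l 1066818063)) (a (l 1066719759) (c (l 1066721295) (l 1066655247)))) (l 4))) (a (a (l 1066929679) (l 1066864143)) (l 4))) (a (a (b (l 1066960911) (l 1066992655)) (l 4)) (l 4)))) (b (b (a (c (l 1066565135) (a (l 1066496527) (l 1066437647))) (a (b (l 1066416655) (l 4)) (l 4))) (a (c (l 1066628111) (a (l 1066543119) (l 4))) (l 4))) (l 4)))), by decide +kernel⟩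

def k17_A00mm_202_s3 : ∃ t, chk3 f_A00mm_202_s3 t 25 12 1 = true :=
  ⟨(b (a (b (a (b (a (l 1066669071) (a (l 1066630671) (l 1066470927))) (a (c (l 1066190863) (l 1066153999)) (b (l 1066112527) (l 1066134031)))) (b (a (b (l 1066020879) (l 1066309135)) (a (b (l 1065984015) (l 1066003471)) (b (l 1065959439) (l 1066247695)))) (a (b (l 1066061327) (a (l 1066095119) (l 4))) (a (b (l 1066023439) (l 4)) (l 4))))) (b (a (a (c (l 1066246159) (l 1066189327)) (b (a (l 1066168847) (l 1066142735)) (l 4))) (l 4)) (l 4))) (a (a (b (b (a (c (b (l 1065934863) (l 1065959439)) (b (l 1065928719) (l 1065943055))) (a (b (b (c (l 1066043919) (l 1066175503)) (l 1065922575)) (l 4)) (b (b (c (l 1066033679) (l 1065896975)) (l 4)) (l 4)))) (l 4)) (l 4)) (l 4)) (l 4))) (l 4)), by decide +kernel⟩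

def k18_A00mm_202_s3 : ∃ t, chk3 f_A00mm_202_s3 t 12 13 1 = true :=
  ⟨(l 4), by decide +kernel⟩

def k19_A00mm_202_s3 : ∃ t, chk3 f_A00mm_202_s3 t 13 6 1 = true :=
  ⟨(l 4), by decide +kernel⟩

def k20_A00mm_202_s3 : ∃ t, chk3 f_A00mm_202_s3 t 7 6 1 = true :=
  ⟨(l 4), by decide +kernel⟩

def k21_A00mm_202_s3 : ∃ t, chk3 f_A00mm_202_s3 t 3 7 1 = true :=
  ⟨(l 4), by decide +kernel⟩

theorem t22_A00mm_202_s3 : ∃ t, chk3 f_A00mm_202_s3 t 12 12 1 = true := ex3_a k16_A00mm_202_s3 k17_A00mm_202_s3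

theorem t23_A00mm_202_s3 : ∃ t, chk3 f_A00mm_202_s3 t 12 6 1 = true := ex3_b t22_A00mm_202_s3 k18_A00mm_202_s3

theorem t24_A00mm_202_s3 : ∃ t, chk3 f_A00mm_202_s3 t 6 6 1 = true := ex3_a t23_A00mm_202_s3 k19_A00mm_202_s3

theorem t25_A00mm_202_s3 : ∃ t, chk3 f_A00mm_202_s3 t 3 6 1 = true := ex3_a t24_A00mm_202_s3 k20_A00mm_202_s3

theorem t26_A00mm_202_s3 : ∃ t, chk3 f_A00mm_202_s3 t 3 3 1 = true := ex3_b t25_A00mm_202_s3 k21_A00mm_202_s3

theorem t27_A00mm_202_s3 : ∃ t, chk3 f_A00mm_202_s3 t 2 3 1 = true := ex3_a k14_A00mm_202_s3 k15_A00mm_202_s3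

theorem t28_A00mm_202_s3 : ∃ t, chk3 f_A00mm_202_s3 t 1 3 1 = true := ex3_a t27_A00mm_202_s3 t26_A00mm_202_s3

theorem t29_A00mm_202_s3 : ∃ t, chk3 f_A00mm_202_s3 t 12 11 1 = true := ex3_a k10_A00mm_202_s3 k11_A00mm_202_s3

theorem t30_A00mm_202_s3 : ∃ t, chk3 f_A00mm_202_s3 t 12 5 1 = true := ex3_b k9_A00mm_202_s3 t29_A00mm_202_s3

theorem t31_A00mm_202_s3 : ∃ t, chk3 f_A00mm_202_s3 t 6 5 1 = true := ex3_a t30_A00mm_202_s3 k12_A00mm_202_s3

theorem t32_A00mm_202_s3 : ∃ t, chk3 f_A00mm_202_s3 t 3 5 1 = true := ex3_a t31_A00mm_202_s3 k13_A00mm_202_s3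

theorem t33_A00mm_202_s3 : ∃ t, chk3 f_A00mm_202_s3 t 7 8 1 = true := ex3_a k6_A00mm_202_s3 k7_A00mm_202_s3

theorem t34_A00mm_202_s3 : ∃ t, chk3 f_A00mm_202_s3 t 7 4 1 = true := ex3_b t33_A00mm_202_s3 k8_A00mm_202_s3

theorem t35_A00mm_202_s3 : ∃ t, chk3 f_A00mm_202_s3 t 12 9 1 = true := ex3_b k3_A00mm_202_s3 k4_A00mm_202_s3

theorem t36_A00mm_202_s3 : ∃ t, chk3 f_A00mm_202_s3 t 6 9 1 = true := ex3_a t35_A00mm_202_s3 k5_A00mm_202_s3

theorem t37_A00mm_202_s3 : ∃ t, chk3 f_A00mm_202_s3 t 6 8 1 = true := ex3_b k1_A00mm_202_s3 k2_A00mm_202_s3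

theorem t38_A00mm_202_s3 : ∃ t, chk3 f_A00mm_202_s3 t 6 4 1 = true := ex3_b t37_A00mm_202_s3 t36_A00mm_202_s3

theorem t39_A00mm_202_s3 : ∃ t, chk3 f_A00mm_202_s3 t 3 4 1 = true := ex3_a t38_A00mm_202_s3 t34_A00mm_202_s3

theorem t40_A00mm_202_s3 : ∃ t, chk3 f_A00mm_202_s3 t 3 2 1 = true := ex3_b t39_A00mm_202_s3 t32_A00mm_202_s3

theorem t41_A00mm_202_s3 : ∃ t, chk3 f_A00mm_202_s3 t 1 2 1 = true := ex3_a k0_A00mm_202_s3 t40_A00mm_202_s3

theorem t42_A00mm_202_s3 : ∃ t, chk3 f_A00mm_202_s3 t 1 1 1 = true := ex3_b t41_A00mm_202_s3 t28_A00mm_202_s3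

theorem c_A00mm_202_s3 : CertF 0 536870912 0 536870912 587336777 62277027 true false false .pp 2 0 2
    ndB0q2 ndB0q0 pcB2 cut_A00mm_202_s3 xt_A00mm_202_s3 :=
  certF0 (fam := true) (s1 := false) (s2 := false) (a := 2) (b := 0) (c := 2) (cn := .pp) (n1 := ndB0q2) (n2 := ndB0q0) (pc := pcB2) (cut := cut_A00mm_202_s3) (xt := xt_A00mm_202_s3) (P1 := 0) (W1 := 536870912) (P2 := 0) (W2 := 536870912) (P3 := 587336777) (W3 := 62277027)
    rfl t42_A00mm_202_s3

theorem s_A00mm_202_s3 {κ x : ℝ} (hκ : κ * h0 = ken x) (hx : ((587336777 : ℕ) : ℝ) / S ≤ x)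
    (hx' : x ≤ (((587336777 : ℕ) : ℝ) + (62277027 : ℕ)) / S)
    (H : CutA (VFD κ) PP tK tL pcB (Cut.of [[⟨0, 1, 0, 67108864⟩, ⟨1, 0, 0, 67108864⟩, ⟨2, 1, 0, 67108864⟩]]) 2 0 2 0 0 (sgb false) (sgb false) x) :
    AltA (VFD κ) PP tK tL pcB [⟨4, 0, 0, 2845415833⟩] 2 0 2 0 0 (sgb false) (sgb false) x :=
  strip_altAD (m := 2845415833) false rfl hκ (SH.κ0 hκ (SH.hx1 hx).le (SH.hx2 hx').le) (SH.hx1 hx).le (SH.hx2 hx') (covB02).cov (covB00).cov hx hx' c_A00mm_202_s3 H ((okx6 hx hx').ext0A (T := tt) (zx hx hx') (okx hx hx') (sideB hx hx') hκ rfl rfl (.O 2 false) (.O 0 false) (Or.inl rfl))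

noncomputable def cut_A00mm_203_s1 : Cut := Cut.of [[⟨4, 0, 0, 1449551462⟩]]

noncomputable def f_A00mm_203_s1 : ℕ → ℕ → ℕ → ℕ → Bool := onCell 0 536870912 0 536870912 587336777 62277027
    (rowF 0 true false false .up 2 0 3 (qsf 0 536870912 0 536870912 3) ndB0q2 ndB0q0 pcB3 cut_A00mm_203_s1 Ext.none)

def k0_A00mm_203_s1 : ∃ t, chk3 f_A00mm_203_s1 t 1 1 1 = true :=
  ⟨(l 6), by decide +kernel⟩

theorem c_A00mm_203_s1 : CertF 0 536870912 0 536870912 587336777 62277027 true false false .up 2 0 3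
    ndB0q2 ndB0q0 pcB3 cut_A00mm_203_s1 Ext.none :=
  certF0 (fam := true) (s1 := false) (s2 := false) (a := 2) (b := 0) (c := 3) (cn := .up) (n1 := ndB0q2) (n2 := ndB0q0) (pc := pcB3) (cut := cut_A00mm_203_s1) (xt := Ext.none) (P1 := 0) (W1 := 536870912) (P2 := 0) (W2 := 536870912) (P3 := 587336777) (W3 := 62277027)
    rfl k0_A00mm_203_s1

theorem s_A00mm_203_s1 {κ x : ℝ} (hκ : κ * h0 = ken x) (hx : ((587336777 : ℕ) : ℝ) / S ≤ x)
    (hx' : x ≤ (((587336777 : ℕ) : ℝ) + (62277027 : ℕ)) / S) :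
    AltA (VFD κ) PP tK tL pcB [⟨3, 0, 0, 1449551462⟩] 2 0 3 0 0 (sgb false) (sgb false) x :=
  strip_altAD (m := 1449551462) true rfl hκ (SH.κ0 hκ (SH.hx1 hx).le (SH.hx2 hx').le) (SH.hx1 hx).le (SH.hx2 hx') (covB02).cov (covB00).cov hx hx' c_A00mm_203_s1 cutA_nil (noExt_A)

noncomputable def cut_A00mm_203_s3 : Cut := Cut.of [[⟨3, 0, 0, 2845415833⟩]]

noncomputable def xt_A00mm_203_s3 : Ext := strExt0 dd true false false .u2 .u0m .s2m .up 2 0 3 rfl rfl gl3 vv ww kz ndB0q2 ndB0q0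

noncomputable def f_A00mm_203_s3 : ℕ → ℕ → ℕ → ℕ → Bool := onCell 0 536870912 1610612736 536870912 587336777 62277027
    (rowF 1 true false false .up 2 0 3 (qsf 0 536870912 0 536870912 3) ndB0q2 ndB0q0 pcB3 cut_A00mm_203_s3 xt_A00mm_203_s3)

def k0_A00mm_203_s3 : ∃ t, chk3 f_A00mm_203_s3 t 4 2 1 = true :=
  ⟨(b (b (a (b (a (l 16687664) (l 16700736)) (a (l 16694656) (l 16710656))) (a (b (l 16714688) (b (l 16724304) (l 16730272))) (b (b (l 16725472) (l 16774968)) (a (b (l 16736232) (l 16743112)) (b (l 16744600) (l 16773024)))))) (a (b (a (l 16700288) (b (l 16717272) (l 16722296))) (b (a (l 16709984) (l 16770536)) (a (l 16725176) (a (l 16737512) (l 16788272))))) (b (a (b (l 16736136) (a (l 16737656) (l 16747640))) (b (a (l 16791928) (l 1069768207)) (a (l 1069706255) (l 1069609999)))) (a (b (b (l 16769104) (a (l 16746680) (l 16778240))) (a (b (l 16752688) (l 16779120)) (b (a (l 16759952) (l 16775408)) (a (l 16775512) (l 1069929999)))))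 (c (a (b (l 1069593103) (a (l 1069524495) (l 1070020111))) (l 1069726735)) (a (b (l 1069565455) (a (l 1069452303) (l 1069402127))) (l 1069341711))))))) (b (a (b (a (b (l 16738144) (l 63988287175)) (b (a (l 16749168) (b (l 16754584) (l 16759424))) (a (b (l 16756536) (l 16760912)) (b (l 16769072) (a (l 16766048) (l 1070737935)))))) (l 2)) (b (b (a (a (a (l 1070276111) (l 1070248463)) (l 1070205967)) (a (a (b (l 1069506575) (l 4)) (l 4)) (l 4))) (a (a (a (b (l 1070543887) (l 1070712335)) (l 1070601743)) (l 1070560271)) (l 4))) (l 2))) (l 2))), by decide +kernel⟩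

def k1_A00mm_203_s3 : ∃ t, chk3 f_A00mm_203_s3 t 5 2 1 = true :=
  ⟨(b (b (a (a (b (a (b (l 16737128) (l 16787304)) (b (l 1069615631) (l 1070683663))) (b (a (a (l 16751248) (l 16776848)) (a (l 1069690383) (l 1069529615))) (a (b (l 16780624) (l 1069777423)) (a (c (l 1069768719) (l 1069618703)) (c (l 1069618191) (l 1069465615)))))) (b (b (a (l 1069304335) (l 1068984847)) (l 1069105167)) (b (l 1069069327) (b (l 1069048335) (l 4))))) (a (a (b (a (l 1068706831) (a (l 1068580879) (l 4))) (l 4)) (l 4)) (l 4))) (a (a (b (a (b (b (l 1069703695) (l 1069622287)) (l 1069505551)) (b (a (l 1069576207) (c (l 1069042703) (l 1069466639))) (l 4))) (l 4)) (l 4)) (l 4))) (l 4)), by decide +kernel⟩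

def k2_A00mm_203_s3 : ∃ t, chk3 f_A00mm_203_s3 t 2 3 1 = true :=
  ⟨(l 2), by decide +kernel⟩

def k3_A00mm_203_s3 : ∃ t, chk3 f_A00mm_203_s3 t 3 1 1 = true :=
  ⟨(b (l 4) (l 2)), by decide +kernel⟩

theorem t4_A00mm_203_s3 : ∃ t, chk3 f_A00mm_203_s3 t 2 2 1 = true := ex3_a k0_A00mm_203_s3 k1_A00mm_203_s3

theorem t5_A00mm_203_s3 : ∃ t, chk3 f_A00mm_203_s3 t 2 1 1 = true := ex3_b t4_A00mm_203_s3 k2_A00mm_203_s3

theorem t6_A00mm_203_s3 : ∃ t, chk3 f_A00mm_203_s3 t 1 1 1 = true := ex3_a t5_A00mm_203_s3 k3_A00mm_203_s3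

theorem c_A00mm_203_s3 : CertF 0 536870912 0 536870912 587336777 62277027 true false false .up 2 0 3
    ndB0q2 ndB0q0 pcB3 cut_A00mm_203_s3 xt_A00mm_203_s3 :=
  certF1 (fam := true) (s1 := false) (s2 := false) (a := 2) (b := 0) (c := 3) (cn := .up) (n1 := ndB0q2) (n2 := ndB0q0) (pc := pcB3) (cut := cut_A00mm_203_s3) (xt := xt_A00mm_203_s3) (P1 := 0) (W1 := 536870912) (P2 := 0) (W2 := 536870912) (P3 := 587336777) (W3 := 62277027)
    rfl (fun _ => rfl) t6_A00mm_203_s3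

theorem s_A00mm_203_s3 {κ x : ℝ} (hκ : κ * h0 = ken x) (hx : ((587336777 : ℕ) : ℝ) / S ≤ x)
    (hx' : x ≤ (((587336777 : ℕ) : ℝ) + (62277027 : ℕ)) / S) :
    AltA (VFD κ) PP tK tL pcB [⟨4, 0, 0, 2845415833⟩] 2 0 3 0 0 (sgb false) (sgb false) x :=
  strip_altAD (m := 2845415833) false rfl hκ (SH.κ0 hκ (SH.hx1 hx).le (SH.hx2 hx').le) (SH.hx1 hx).le (SH.hx2 hx') (covB02).cov (covB00).cov hx hx' c_A00mm_203_s3 cutA_nil ((okx6 hx hx').ext0A (T := tt) (zx hx hx') (okx hx hx') (sideB hx hx') hκ rfl rfl (.O 2 false) (.O 0 false) (Or.inr rfl))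

noncomputable def cut_A00mm_213_s1 : Cut := Cut.of [[⟨4, 0, 0, 1449551462⟩]]

noncomputable def f_A00mm_213_s1 : ℕ → ℕ → ℕ → ℕ → Bool := onCell 0 536870912 536870912 536870912 587336777 62277027
    (rowF 0 true false false .pnn 2 1 3 (qsf 0 536870912 536870912 536870912 3) ndB0q2 ndB0q1 pcB3 cut_A00mm_213_s1 Ext.none)

def k0_A00mm_213_s1 : ∃ t, chk3 f_A00mm_213_s1 t 1 1 1 = true :=
  ⟨(l 6), by decide +kernel⟩

theorem c_A00mm_213_s1 : CertF 0 536870912 536870912 536870912 587336777 62277027 true false false .pnn 2 1 3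
    ndB0q2 ndB0q1 pcB3 cut_A00mm_213_s1 Ext.none :=
  certF0 (fam := true) (s1 := false) (s2 := false) (a := 2) (b := 1) (c := 3) (cn := .pnn) (n1 := ndB0q2) (n2 := ndB0q1) (pc := pcB3) (cut := cut_A00mm_213_s1) (xt := Ext.none) (P1 := 0) (W1 := 536870912) (P2 := 536870912) (W2 := 536870912) (P3 := 587336777) (W3 := 62277027)
    rfl k0_A00mm_213_s1

theorem s_A00mm_213_s1 {κ x : ℝ} (hκ : κ * h0 = ken x) (hx : ((587336777 : ℕ) : ℝ) / S ≤ x)
    (hx' : x ≤ (((587336777 : ℕ) : ℝ) + (62277027 : ℕ)) / S) :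
    AltA (VFD κ) PP tK tL pcB [⟨3, 0, 0, 1449551462⟩] 2 1 3 0 0 (sgb false) (sgb false) x :=
  strip_altAD (m := 1449551462) true rfl hκ (SH.κ0 hκ (SH.hx1 hx).le (SH.hx2 hx').le) (SH.hx1 hx).le (SH.hx2 hx') (covB02).cov (covB01).cov hx hx' c_A00mm_213_s1 cutA_nil (noExt_A)

noncomputable def cut_A00mm_213_s3 : Cut := Cut.of [[⟨3, 0, 0, 2845415833⟩]]

noncomputable def xt_A00mm_213_s3 : Ext := strExt0 dd true false false .u2 .u0m .s2m .pnn 2 1 3 rfl rfl gl3 vv ww kz ndB0q2 ndB0q1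

noncomputable def f_A00mm_213_s3 : ℕ → ℕ → ℕ → ℕ → Bool := onCell 0 536870912 536870912 536870912 587336777 62277027
    (rowF 0 true false false .pnn 2 1 3 (qsf 0 536870912 536870912 536870912 3) ndB0q2 ndB0q1 pcB3 cut_A00mm_213_s3 xt_A00mm_213_s3)

def k0_A00mm_213_s3 : ∃ t, chk3 f_A00mm_213_s3 t 1 1 1 = true :=
  ⟨(a (b (a (b (a (b (b (a (b (b (l 16754848) (l 16759016)) (b (l 1071341071) (l 1071490063))) (b (a (b (l 16763672) (a (l 16765920) (l 16768824))) (b (a (l 1070861839) (b (l 16770680) (l 1070866447))) (a (l 1071017487) (l 1070982671)))) (a (b (a (l 16774568) (b (l 16771312) (l 1071240207))) (b (l 1071335951) (l 1071409167))) (b (a (a (l 1071175183) (l 1071157263)) (l 1071131151)) (a (a (l 1071316495) (l 1071299087)) (l 4)))))) (a (l 1071820303) (a (l 1071708687) (l 4)))) (a (b (l 1073283087) (l 4)) (l 4))) (b (a (b (b (b (a (a (c (l 1071086095) (l 1070499855)) (b (l 1070709263) (l 1070790159))) (l 4)) (a (a (l 1070946319)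 (l 4)) (l 4))) (l 4)) (l 4)) (l 4)) (l 4))) (l 4)) (l 4)) (l 4)) (l 4)), by decide +kernel⟩

theorem c_A00mm_213_s3 : CertF 0 536870912 536870912 536870912 587336777 62277027 true false false .pnn 2 1 3
    ndB0q2 ndB0q1 pcB3 cut_A00mm_213_s3 xt_A00mm_213_s3 :=
  certF0 (fam := true) (s1 := false) (s2 := false) (a := 2) (b := 1) (c := 3) (cn := .pnn) (n1 := ndB0q2) (n2 := ndB0q1) (pc := pcB3) (cut := cut_A00mm_213_s3) (xt := xt_A00mm_213_s3) (P1 := 0) (W1 := 536870912) (P2 := 536870912) (W2 := 536870912) (P3 := 587336777) (W3 := 62277027)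
    rfl k0_A00mm_213_s3

theorem s_A00mm_213_s3 {κ x : ℝ} (hκ : κ * h0 = ken x) (hx : ((587336777 : ℕ) : ℝ) / S ≤ x)
    (hx' : x ≤ (((587336777 : ℕ) : ℝ) + (62277027 : ℕ)) / S) :
    AltA (VFD κ) PP tK tL pcB [⟨4, 0, 0, 2845415833⟩] 2 1 3 0 0 (sgb false) (sgb false) x :=
  strip_altAD (m := 2845415833) false rfl hκ (SH.κ0 hκ (SH.hx1 hx).le (SH.hx2 hx').le) (SH.hx1 hx).le (SH.hx2 hx') (covB02).cov (covB01).cov hx hx' c_A00mm_213_s3 cutA_nil ((okx6 hx hx').ext0A (T := tt) (zx hx hx') (okx hx hx') (sideB hx hx') hκ rfl rfl (.O 2 false) (.O 1 false) (Or.inr rfl))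

noncomputable def cut_A07pp_001_s1 : Cut := Cut.of [[⟨4, 0, 0, 1449551462⟩]]

noncomputable def f_A07pp_001_s1 : ℕ → ℕ → ℕ → ℕ → Bool := onCell 0 536870912 0 536870912 587336777 62277027
    (rowF 0 true true true .up 0 0 1 (qsf 0 536870912 0 536870912 1) ndB0q0 ndB7q0 pcB1 cut_A07pp_001_s1 Ext.none)

def k0_A07pp_001_s1 : ∃ t, chk3 f_A07pp_001_s1 t 1 1 1 = true :=
  ⟨(l 4), by decide +kernel⟩

theorem c_A07pp_001_s1 : CertF 0 536870912 0 536870912 587336777 62277027 true true true .up 0 0 1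
    ndB0q0 ndB7q0 pcB1 cut_A07pp_001_s1 Ext.none :=
  certF0 (fam := true) (s1 := true) (s2 := true) (a := 0) (b := 0) (c := 1) (cn := .up) (n1 := ndB0q0) (n2 := ndB7q0) (pc := pcB1) (cut := cut_A07pp_001_s1) (xt := Ext.none) (P1 := 0) (W1 := 536870912) (P2 := 0) (W2 := 536870912) (P3 := 587336777) (W3 := 62277027)
    rfl k0_A07pp_001_s1

theorem s_A07pp_001_s1 {κ x : ℝ} (hκ : κ * h0 = ken x) (hx : ((587336777 : ℕ) : ℝ) / S ≤ x)
    (hx' : x ≤ (((587336777 : ℕ) : ℝ) + (62277027 : ℕ)) / S) :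
    AltA (VFD κ) PP tK tL pcB [⟨3, 0, 0, 1449551462⟩] 0 0 1 0 7 (sgb true) (sgb true) x :=
  strip_altAD (m := 1449551462) true rfl hκ (SH.κ0 hκ (SH.hx1 hx).le (SH.hx2 hx').le) (SH.hx1 hx).le (SH.hx2 hx') (covB00).cov (covB70).cov hx hx' c_A07pp_001_s1 cutA_nil (noExt_A)

noncomputable def cut_A07pp_011_s1 : Cut := Cut.of [[⟨4, 0, 0, 1449551462⟩]]

noncomputable def f_A07pp_011_s1 : ℕ → ℕ → ℕ → ℕ → Bool := onCell 0 536870912 536870912 536870912 587336777 62277027
    (rowF 0 true true true .pnn 0 1 1 (qsf 0 536870912 536870912 536870912 1) ndB0q0 ndB7q1 pcB1 cut_A07pp_011_s1 Ext.none)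

def k0_A07pp_011_s1 : ∃ t, chk3 f_A07pp_011_s1 t 1 1 1 = true :=
  ⟨(l 4), by decide +kernel⟩

theorem c_A07pp_011_s1 : CertF 0 536870912 536870912 536870912 587336777 62277027 true true true .pnn 0 1 1
    ndB0q0 ndB7q1 pcB1 cut_A07pp_011_s1 Ext.none :=
  certF0 (fam := true) (s1 := true) (s2 := true) (a := 0) (b := 1) (c := 1) (cn := .pnn) (n1 := ndB0q0) (n2 := ndB7q1) (pc := pcB1) (cut := cut_A07pp_011_s1) (xt := Ext.none) (P1 := 0) (W1 := 536870912) (P2 := 536870912) (W2 := 536870912) (P3 := 587336777) (W3 := 62277027)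
    rfl k0_A07pp_011_s1

theorem s_A07pp_011_s1 {κ x : ℝ} (hκ : κ * h0 = ken x) (hx : ((587336777 : ℕ) : ℝ) / S ≤ x)
    (hx' : x ≤ (((587336777 : ℕ) : ℝ) + (62277027 : ℕ)) / S) :
    AltA (VFD κ) PP tK tL pcB [⟨3, 0, 0, 1449551462⟩] 0 1 1 0 7 (sgb true) (sgb true) x :=
  strip_altAD (m := 1449551462) true rfl hκ (SH.κ0 hκ (SH.hx1 hx).le (SH.hx2 hx').le) (SH.hx1 hx).le (SH.hx2 hx') (covB00).cov (covB71).cov hx hx' c_A07pp_011_s1 cutA_nil (noExt_A)

noncomputable def cut_A07pp_012_s1 : Cut := Cut.of [[⟨4, 0, 0, 1449551462⟩]]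

noncomputable def f_A07pp_012_s1 : ℕ → ℕ → ℕ → ℕ → Bool := onCell 0 536870912 536870912 536870912 587336777 62277027
    (rowF 0 true true true .pnp 0 1 2 (qsf 0 536870912 536870912 536870912 2) ndB0q0 ndB7q1 pcB2 cut_A07pp_012_s1 Ext.none)

def k0_A07pp_012_s1 : ∃ t, chk3 f_A07pp_012_s1 t 1 1 1 = true :=
  ⟨(l 4), by decide +kernel⟩

theorem c_A07pp_012_s1 : CertF 0 536870912 536870912 536870912 587336777 62277027 true true true .pnp 0 1 2
    ndB0q0 ndB7q1 pcB2 cut_A07pp_012_s1 Ext.none :=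
  certF0 (fam := true) (s1 := true) (s2 := true) (a := 0) (b := 1) (c := 2) (cn := .pnp) (n1 := ndB0q0) (n2 := ndB7q1) (pc := pcB2) (cut := cut_A07pp_012_s1) (xt := Ext.none) (P1 := 0) (W1 := 536870912) (P2 := 536870912) (W2 := 536870912) (P3 := 587336777) (W3 := 62277027)
    rfl k0_A07pp_012_s1

theorem s_A07pp_012_s1 {κ x : ℝ} (hκ : κ * h0 = ken x) (hx : ((587336777 : ℕ) : ℝ) / S ≤ x)
    (hx' : x ≤ (((587336777 : ℕ) : ℝ) + (62277027 : ℕ)) / S) :
    AltA (VFD κ) PP tK tL pcB [⟨3, 0, 0, 1449551462⟩] 0 1 2 0 7 (sgb true) (sgb true) x :=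
  strip_altAD (m := 1449551462) true rfl hκ (SH.κ0 hκ (SH.hx1 hx).le (SH.hx2 hx').le) (SH.hx1 hx).le (SH.hx2 hx') (covB00).cov (covB71).cov hx hx' c_A07pp_012_s1 cutA_nil (noExt_A)

noncomputable def cut_A07pp_022_s1 : Cut := Cut.of [[⟨4, 0, 0, 1449551462⟩]]

noncomputable def f_A07pp_022_s1 : ℕ → ℕ → ℕ → ℕ → Bool := onCell 0 536870912 1073741824 536870912 587336777 62277027
    (rowF 0 true true true .pp 0 2 2 (qsf 0 536870912 1073741824 536870912 2) ndB0q0 ndB7q2 pcB2 cut_A07pp_022_s1 Ext.none)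

def k0_A07pp_022_s1 : ∃ t, chk3 f_A07pp_022_s1 t 1 1 1 = true :=
  ⟨(l 4), by decide +kernel⟩

theorem c_A07pp_022_s1 : CertF 0 536870912 1073741824 536870912 587336777 62277027 true true true .pp 0 2 2
    ndB0q0 ndB7q2 pcB2 cut_A07pp_022_s1 Ext.none :=
  certF0 (fam := true) (s1 := true) (s2 := true) (a := 0) (b := 2) (c := 2) (cn := .pp) (n1 := ndB0q0) (n2 := ndB7q2) (pc := pcB2) (cut := cut_A07pp_022_s1) (xt := Ext.none) (P1 := 0) (W1 := 536870912) (P2 := 1073741824) (W2 := 536870912) (P3 := 587336777) (W3 := 62277027)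
    rfl k0_A07pp_022_s1

theorem s_A07pp_022_s1 {κ x : ℝ} (hκ : κ * h0 = ken x) (hx : ((587336777 : ℕ) : ℝ) / S ≤ x)
    (hx' : x ≤ (((587336777 : ℕ) : ℝ) + (62277027 : ℕ)) / S) :
    AltA (VFD κ) PP tK tL pcB [⟨3, 0, 0, 1449551462⟩] 0 2 2 0 7 (sgb true) (sgb true) x :=
  strip_altAD (m := 1449551462) true rfl hκ (SH.κ0 hκ (SH.hx1 hx).le (SH.hx2 hx').le) (SH.hx1 hx).le (SH.hx2 hx') (covB00).cov (covB72).cov hx hx' c_A07pp_022_s1 cutA_nil (noExt_A)

noncomputable def cut_A07pp_023_s1 : Cut := Cut.of [[⟨4, 0, 0, 1449551462⟩]]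

noncomputable def f_A07pp_023_s1 : ℕ → ℕ → ℕ → ℕ → Bool := onCell 0 536870912 1073741824 536870912 587336777 62277027
    (rowF 0 true true true .up 0 2 3 (qsf 0 536870912 1073741824 536870912 3) ndB0q0 ndB7q2 pcB3 cut_A07pp_023_s1 Ext.none)

def k0_A07pp_023_s1 : ∃ t, chk3 f_A07pp_023_s1 t 1 1 1 = true :=
  ⟨(l 4), by decide +kernel⟩

theorem c_A07pp_023_s1 : CertF 0 536870912 1073741824 536870912 587336777 62277027 true true true .up 0 2 3
    ndB0q0 ndB7q2 pcB3 cut_A07pp_023_s1 Ext.none :=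
  certF0 (fam := true) (s1 := true) (s2 := true) (a := 0) (b := 2) (c := 3) (cn := .up) (n1 := ndB0q0) (n2 := ndB7q2) (pc := pcB3) (cut := cut_A07pp_023_s1) (xt := Ext.none) (P1 := 0) (W1 := 536870912) (P2 := 1073741824) (W2 := 536870912) (P3 := 587336777) (W3 := 62277027)
    rfl k0_A07pp_023_s1

theorem s_A07pp_023_s1 {κ x : ℝ} (hκ : κ * h0 = ken x) (hx : ((587336777 : ℕ) : ℝ) / S ≤ x)
    (hx' : x ≤ (((587336777 : ℕ) : ℝ) + (62277027 : ℕ)) / S) :
    AltA (VFD κ) PP tK tL pcB [⟨3, 0, 0, 1449551462⟩] 0 2 3 0 7 (sgb true) (sgb true) x :=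
  strip_altAD (m := 1449551462) true rfl hκ (SH.κ0 hκ (SH.hx1 hx).le (SH.hx2 hx').le) (SH.hx1 hx).le (SH.hx2 hx') (covB00).cov (covB72).cov hx hx' c_A07pp_023_s1 cutA_nil (noExt_A)

noncomputable def cut_A07pp_033_s1 : Cut := Cut.of [[⟨4, 0, 0, 1449551462⟩]]

noncomputable def f_A07pp_033_s1 : ℕ → ℕ → ℕ → ℕ → Bool := onCell 0 536870912 0 1230186008 587336777 62277027
    (rowF 0 true true true .pnn 0 3 3 (qsf 0 536870912 0 1230186008 3) ndB0q0 ndB7q3 pcB3 cut_A07pp_033_s1 Ext.none)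

def k0_A07pp_033_s1 : ∃ t, chk3 f_A07pp_033_s1 t 1 1 1 = true :=
  ⟨(l 4), by decide +kernel⟩

theorem c_A07pp_033_s1 : CertF 0 536870912 0 1230186008 587336777 62277027 true true true .pnn 0 3 3
    ndB0q0 ndB7q3 pcB3 cut_A07pp_033_s1 Ext.none :=
  certF0 (fam := true) (s1 := true) (s2 := true) (a := 0) (b := 3) (c := 3) (cn := .pnn) (n1 := ndB0q0) (n2 := ndB7q3) (pc := pcB3) (cut := cut_A07pp_033_s1) (xt := Ext.none) (P1 := 0) (W1 := 536870912) (P2 := 0) (W2 := 1230186008) (P3 := 587336777) (W3 := 62277027)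
    rfl k0_A07pp_033_s1

theorem s_A07pp_033_s1 {κ x : ℝ} (hκ : κ * h0 = ken x) (hx : ((587336777 : ℕ) : ℝ) / S ≤ x)
    (hx' : x ≤ (((587336777 : ℕ) : ℝ) + (62277027 : ℕ)) / S) :
    AltA (VFD κ) PP tK tL pcB [⟨3, 0, 0, 1449551462⟩] 0 3 3 0 7 (sgb true) (sgb true) x :=
  strip_altAD (m := 1449551462) true rfl hκ (SH.κ0 hκ (SH.hx1 hx).le (SH.hx2 hx').le) (SH.hx1 hx).le (SH.hx2 hx') (covB00).cov (covB73).cov hx hx' c_A07pp_033_s1 cutA_nil (noExt_A)

noncomputable def cut_A07pp_101_s1 : Cut := Cut.of [[⟨4, 0, 0, 1449551462⟩]]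

noncomputable def f_A07pp_101_s1 : ℕ → ℕ → ℕ → ℕ → Bool := onCell 536870912 536870912 0 536870912 587336777 62277027
    (rowF 0 true true true .npn 1 0 1 (qsf 536870912 536870912 0 536870912 1) ndB0q1 ndB7q0 pcB1 cut_A07pp_101_s1 Ext.none)

def k0_A07pp_101_s1 : ∃ t, chk3 f_A07pp_101_s1 t 1 1 1 = true :=
  ⟨(l 4), by decide +kernel⟩

theorem c_A07pp_101_s1 : CertF 536870912 536870912 0 536870912 587336777 62277027 true true true .npn 1 0 1
    ndB0q1 ndB7q0 pcB1 cut_A07pp_101_s1 Ext.none :=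
  certF0 (fam := true) (s1 := true) (s2 := true) (a := 1) (b := 0) (c := 1) (cn := .npn) (n1 := ndB0q1) (n2 := ndB7q0) (pc := pcB1) (cut := cut_A07pp_101_s1) (xt := Ext.none) (P1 := 536870912) (W1 := 536870912) (P2 := 0) (W2 := 536870912) (P3 := 587336777) (W3 := 62277027)
    rfl k0_A07pp_101_s1

theorem s_A07pp_101_s1 {κ x : ℝ} (hκ : κ * h0 = ken x) (hx : ((587336777 : ℕ) : ℝ) / S ≤ x)
    (hx' : x ≤ (((587336777 : ℕ) : ℝ) + (62277027 : ℕ)) / S) :
    AltA (VFD κ) PP tK tL pcB [⟨3, 0, 0, 1449551462⟩] 1 0 1 0 7 (sgb true) (sgb true) x :=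
  strip_altAD (m := 1449551462) true rfl hκ (SH.κ0 hκ (SH.hx1 hx).le (SH.hx2 hx').le) (SH.hx1 hx).le (SH.hx2 hx') (covB01).cov (covB70).cov hx hx' c_A07pp_101_s1 cutA_nil (noExt_A)

noncomputable def cut_A07pp_102_s1 : Cut := Cut.of [[⟨4, 0, 0, 1449551462⟩]]

noncomputable def f_A07pp_102_s1 : ℕ → ℕ → ℕ → ℕ → Bool := onCell 536870912 536870912 0 536870912 587336777 62277027
    (rowF 0 true true true .npp 1 0 2 (qsf 536870912 536870912 0 536870912 2) ndB0q1 ndB7q0 pcB2 cut_A07pp_102_s1 Ext.none)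

def k0_A07pp_102_s1 : ∃ t, chk3 f_A07pp_102_s1 t 1 1 1 = true :=
  ⟨(l 4), by decide +kernel⟩

theorem c_A07pp_102_s1 : CertF 536870912 536870912 0 536870912 587336777 62277027 true true true .npp 1 0 2
    ndB0q1 ndB7q0 pcB2 cut_A07pp_102_s1 Ext.none :=
  certF0 (fam := true) (s1 := true) (s2 := true) (a := 1) (b := 0) (c := 2) (cn := .npp) (n1 := ndB0q1) (n2 := ndB7q0) (pc := pcB2) (cut := cut_A07pp_102_s1) (xt := Ext.none) (P1 := 536870912) (W1 := 536870912) (P2 := 0) (W2 := 536870912) (P3 := 587336777) (W3 := 62277027)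
    rfl k0_A07pp_102_s1

theorem s_A07pp_102_s1 {κ x : ℝ} (hκ : κ * h0 = ken x) (hx : ((587336777 : ℕ) : ℝ) / S ≤ x)
    (hx' : x ≤ (((587336777 : ℕ) : ℝ) + (62277027 : ℕ)) / S) :
    AltA (VFD κ) PP tK tL pcB [⟨3, 0, 0, 1449551462⟩] 1 0 2 0 7 (sgb true) (sgb true) x :=
  strip_altAD (m := 1449551462) true rfl hκ (SH.κ0 hκ (SH.hx1 hx).le (SH.hx2 hx').le) (SH.hx1 hx).le (SH.hx2 hx') (covB01).cov (covB70).cov hx hx' c_A07pp_102_s1 cutA_nil (noExt_A)

noncomputable def cut_A07pp_112_s1 : Cut := Cut.of [[⟨4, 0, 0, 1449551462⟩]]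

noncomputable def f_A07pp_112_s1 : ℕ → ℕ → ℕ → ℕ → Bool := onCell 536870912 536870912 536870912 536870912 587336777 62277027
    (rowF 0 true true true .dn 1 1 2 (qsf 536870912 536870912 536870912 536870912 2) ndB0q1 ndB7q1 pcB2 cut_A07pp_112_s1 Ext.none)

def k0_A07pp_112_s1 : ∃ t, chk3 f_A07pp_112_s1 t 1 1 1 = true :=
  ⟨(l 4), by decide +kernel⟩

theorem c_A07pp_112_s1 : CertF 536870912 536870912 536870912 536870912 587336777 62277027 true true true .dn 1 1 2
    ndB0q1 ndB7q1 pcB2 cut_A07pp_112_s1 Ext.none :=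
  certF0 (fam := true) (s1 := true) (s2 := true) (a := 1) (b := 1) (c := 2) (cn := .dn) (n1 := ndB0q1) (n2 := ndB7q1) (pc := pcB2) (cut := cut_A07pp_112_s1) (xt := Ext.none) (P1 := 536870912) (W1 := 536870912) (P2 := 536870912) (W2 := 536870912) (P3 := 587336777) (W3 := 62277027)
    rfl k0_A07pp_112_s1

theorem s_A07pp_112_s1 {κ x : ℝ} (hκ : κ * h0 = ken x) (hx : ((587336777 : ℕ) : ℝ) / S ≤ x)
    (hx' : x ≤ (((587336777 : ℕ) : ℝ) + (62277027 : ℕ)) / S) :
    AltA (VFD κ) PP tK tL pcB [⟨3, 0, 0, 1449551462⟩] 1 1 2 0 7 (sgb true) (sgb true) x :=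
  strip_altAD (m := 1449551462) true rfl hκ (SH.κ0 hκ (SH.hx1 hx).le (SH.hx2 hx').le) (SH.hx1 hx).le (SH.hx2 hx') (covB01).cov (covB71).cov hx hx' c_A07pp_112_s1 cutA_nil (noExt_A)

noncomputable def cut_A07pp_113_s1 : Cut := Cut.of [[⟨4, 0, 0, 1449551462⟩]]

noncomputable def f_A07pp_113_s1 : ℕ → ℕ → ℕ → ℕ → Bool := onCell 536870912 536870912 536870912 536870912 587336777 62277027
    (rowF 0 true true true .nn 1 1 3 (qsf 536870912 536870912 536870912 536870912 3) ndB0q1 ndB7q1 pcB3 cut_A07pp_113_s1 Ext.none)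

def k0_A07pp_113_s1 : ∃ t, chk3 f_A07pp_113_s1 t 1 1 1 = true :=
  ⟨(l 4), by decide +kernel⟩

theorem c_A07pp_113_s1 : CertF 536870912 536870912 536870912 536870912 587336777 62277027 true true true .nn 1 1 3
    ndB0q1 ndB7q1 pcB3 cut_A07pp_113_s1 Ext.none :=
  certF0 (fam := true) (s1 := true) (s2 := true) (a := 1) (b := 1) (c := 3) (cn := .nn) (n1 := ndB0q1) (n2 := ndB7q1) (pc := pcB3) (cut := cut_A07pp_113_s1) (xt := Ext.none) (P1 := 536870912) (W1 := 536870912) (P2 := 536870912) (W2 := 536870912) (P3 := 587336777) (W3 := 62277027)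
    rfl k0_A07pp_113_s1

theorem s_A07pp_113_s1 {κ x : ℝ} (hκ : κ * h0 = ken x) (hx : ((587336777 : ℕ) : ℝ) / S ≤ x)
    (hx' : x ≤ (((587336777 : ℕ) : ℝ) + (62277027 : ℕ)) / S) :
    AltA (VFD κ) PP tK tL pcB [⟨3, 0, 0, 1449551462⟩] 1 1 3 0 7 (sgb true) (sgb true) x :=
  strip_altAD (m := 1449551462) true rfl hκ (SH.κ0 hκ (SH.hx1 hx).le (SH.hx2 hx').le) (SH.hx1 hx).le (SH.hx2 hx') (covB01).cov (covB71).cov hx hx' c_A07pp_113_s1 cutA_nil (noExt_A)

noncomputable def cut_A07pp_123_s1 : Cut := Cut.of [[⟨4, 0, 0, 1449551462⟩]]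

noncomputable def f_A07pp_123_s1 : ℕ → ℕ → ℕ → ℕ → Bool := onCell 536870912 536870912 1073741824 536870912 587336777 62277027
    (rowF 0 true true true .npn 1 2 3 (qsf 536870912 536870912 1073741824 536870912 3) ndB0q1 ndB7q2 pcB3 cut_A07pp_123_s1 Ext.none)

def k0_A07pp_123_s1 : ∃ t, chk3 f_A07pp_123_s1 t 1 1 1 = true :=
  ⟨(l 4), by decide +kernel⟩

theorem c_A07pp_123_s1 : CertF 536870912 536870912 1073741824 536870912 587336777 62277027 true true true .npn 1 2 3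
    ndB0q1 ndB7q2 pcB3 cut_A07pp_123_s1 Ext.none :=
  certF0 (fam := true) (s1 := true) (s2 := true) (a := 1) (b := 2) (c := 3) (cn := .npn) (n1 := ndB0q1) (n2 := ndB7q2) (pc := pcB3) (cut := cut_A07pp_123_s1) (xt := Ext.none) (P1 := 536870912) (W1 := 536870912) (P2 := 1073741824) (W2 := 536870912) (P3 := 587336777) (W3 := 62277027)
    rfl k0_A07pp_123_s1

theorem s_A07pp_123_s1 {κ x : ℝ} (hκ : κ * h0 = ken x) (hx : ((587336777 : ℕ) : ℝ) / S ≤ x)
    (hx' : x ≤ (((587336777 : ℕ) : ℝ) + (62277027 : ℕ)) / S) :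
    AltA (VFD κ) PP tK tL pcB [⟨3, 0, 0, 1449551462⟩] 1 2 3 0 7 (sgb true) (sgb true) x :=
  strip_altAD (m := 1449551462) true rfl hκ (SH.κ0 hκ (SH.hx1 hx).le (SH.hx2 hx').le) (SH.hx1 hx).le (SH.hx2 hx') (covB01).cov (covB72).cov hx hx' c_A07pp_123_s1 cutA_nil (noExt_A)

noncomputable def cut_A07pp_133_s1 : Cut := Cut.of [[⟨4, 0, 0, 1449551462⟩]]

noncomputable def f_A07pp_133_s1 : ℕ → ℕ → ℕ → ℕ → Bool := onCell 536870912 536870912 0 1230186008 587336777 62277027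
    (rowF 0 true true true .dn 1 3 3 (qsf 536870912 536870912 0 1230186008 3) ndB0q1 ndB7q3 pcB3 cut_A07pp_133_s1 Ext.none)

def k0_A07pp_133_s1 : ∃ t, chk3 f_A07pp_133_s1 t 1 1 1 = true :=
  ⟨(l 4), by decide +kernel⟩

theorem c_A07pp_133_s1 : CertF 536870912 536870912 0 1230186008 587336777 62277027 true true true .dn 1 3 3
    ndB0q1 ndB7q3 pcB3 cut_A07pp_133_s1 Ext.none :=
  certF0 (fam := true) (s1 := true) (s2 := true) (a := 1) (b := 3) (c := 3) (cn := .dn) (n1 := ndB0q1) (n2 := ndB7q3) (pc := pcB3) (cut := cut_A07pp_133_s1) (xt := Ext.none) (P1 := 536870912) (W1 := 536870912) (P2 := 0) (W2 := 1230186008) (P3 := 587336777) (W3 := 62277027)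
    rfl k0_A07pp_133_s1

theorem s_A07pp_133_s1 {κ x : ℝ} (hκ : κ * h0 = ken x) (hx : ((587336777 : ℕ) : ℝ) / S ≤ x)
    (hx' : x ≤ (((587336777 : ℕ) : ℝ) + (62277027 : ℕ)) / S) :
    AltA (VFD κ) PP tK tL pcB [⟨3, 0, 0, 1449551462⟩] 1 3 3 0 7 (sgb true) (sgb true) x :=
  strip_altAD (m := 1449551462) true rfl hκ (SH.κ0 hκ (SH.hx1 hx).le (SH.hx2 hx').le) (SH.hx1 hx).le (SH.hx2 hx') (covB01).cov (covB73).cov hx hx' c_A07pp_133_s1 cutA_nil (noExt_A)

noncomputable def cut_A07pp_202_s1 : Cut := Cut.of [[⟨4, 0, 0, 1449551462⟩]]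

noncomputable def f_A07pp_202_s1 : ℕ → ℕ → ℕ → ℕ → Bool := onCell 0 536870912 0 536870912 587336777 62277027
    (rowF 0 true true true .pp 2 0 2 (qsf 0 536870912 0 536870912 2) ndB0q2 ndB7q0 pcB2 cut_A07pp_202_s1 Ext.none)

def k0_A07pp_202_s1 : ∃ t, chk3 f_A07pp_202_s1 t 1 1 1 = true :=
  ⟨(l 4), by decide +kernel⟩

theorem c_A07pp_202_s1 : CertF 0 536870912 0 536870912 587336777 62277027 true true true .pp 2 0 2
    ndB0q2 ndB7q0 pcB2 cut_A07pp_202_s1 Ext.none :=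
  certF0 (fam := true) (s1 := true) (s2 := true) (a := 2) (b := 0) (c := 2) (cn := .pp) (n1 := ndB0q2) (n2 := ndB7q0) (pc := pcB2) (cut := cut_A07pp_202_s1) (xt := Ext.none) (P1 := 0) (W1 := 536870912) (P2 := 0) (W2 := 536870912) (P3 := 587336777) (W3 := 62277027)
    rfl k0_A07pp_202_s1

theorem s_A07pp_202_s1 {κ x : ℝ} (hκ : κ * h0 = ken x) (hx : ((587336777 : ℕ) : ℝ) / S ≤ x)
    (hx' : x ≤ (((587336777 : ℕ) : ℝ) + (62277027 : ℕ)) / S) :
    AltA (VFD κ) PP tK tL pcB [⟨3, 0, 0, 1449551462⟩] 2 0 2 0 7 (sgb true) (sgb true) x :=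
  strip_altAD (m := 1449551462) true rfl hκ (SH.κ0 hκ (SH.hx1 hx).le (SH.hx2 hx').le) (SH.hx1 hx).le (SH.hx2 hx') (covB02).cov (covB70).cov hx hx' c_A07pp_202_s1 cutA_nil (noExt_A)

noncomputable def cut_A07pp_203_s1 : Cut := Cut.of [[⟨4, 0, 0, 1449551462⟩]]

noncomputable def f_A07pp_203_s1 : ℕ → ℕ → ℕ → ℕ → Bool := onCell 0 536870912 0 536870912 587336777 62277027
    (rowF 0 true true true .up 2 0 3 (qsf 0 536870912 0 536870912 3) ndB0q2 ndB7q0 pcB3 cut_A07pp_203_s1 Ext.none)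

def k0_A07pp_203_s1 : ∃ t, chk3 f_A07pp_203_s1 t 1 1 1 = true :=
  ⟨(l 4), by decide +kernel⟩

theorem c_A07pp_203_s1 : CertF 0 536870912 0 536870912 587336777 62277027 true true true .up 2 0 3
    ndB0q2 ndB7q0 pcB3 cut_A07pp_203_s1 Ext.none :=
  certF0 (fam := true) (s1 := true) (s2 := true) (a := 2) (b := 0) (c := 3) (cn := .up) (n1 := ndB0q2) (n2 := ndB7q0) (pc := pcB3) (cut := cut_A07pp_203_s1) (xt := Ext.none) (P1 := 0) (W1 := 536870912) (P2 := 0) (W2 := 536870912) (P3 := 587336777) (W3 := 62277027)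
    rfl k0_A07pp_203_s1

theorem s_A07pp_203_s1 {κ x : ℝ} (hκ : κ * h0 = ken x) (hx : ((587336777 : ℕ) : ℝ) / S ≤ x)
    (hx' : x ≤ (((587336777 : ℕ) : ℝ) + (62277027 : ℕ)) / S) :
    AltA (VFD κ) PP tK tL pcB [⟨3, 0, 0, 1449551462⟩] 2 0 3 0 7 (sgb true) (sgb true) x :=
  strip_altAD (m := 1449551462) true rfl hκ (SH.κ0 hκ (SH.hx1 hx).le (SH.hx2 hx').le) (SH.hx1 hx).le (SH.hx2 hx') (covB02).cov (covB70).cov hx hx' c_A07pp_203_s1 cutA_nil (noExt_A)

noncomputable def cut_A07pp_213_s1 : Cut := Cut.of [[⟨4, 0, 0, 1449551462⟩]]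

noncomputable def f_A07pp_213_s1 : ℕ → ℕ → ℕ → ℕ → Bool := onCell 0 536870912 536870912 536870912 587336777 62277027
    (rowF 0 true true true .pnn 2 1 3 (qsf 0 536870912 536870912 536870912 3) ndB0q2 ndB7q1 pcB3 cut_A07pp_213_s1 Ext.none)

def k0_A07pp_213_s1 : ∃ t, chk3 f_A07pp_213_s1 t 1 1 1 = true :=
  ⟨(l 4), by decide +kernel⟩

theorem c_A07pp_213_s1 : CertF 0 536870912 536870912 536870912 587336777 62277027 true true true .pnn 2 1 3
    ndB0q2 ndB7q1 pcB3 cut_A07pp_213_s1 Ext.none :=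
  certF0 (fam := true) (s1 := true) (s2 := true) (a := 2) (b := 1) (c := 3) (cn := .pnn) (n1 := ndB0q2) (n2 := ndB7q1) (pc := pcB3) (cut := cut_A07pp_213_s1) (xt := Ext.none) (P1 := 0) (W1 := 536870912) (P2 := 536870912) (W2 := 536870912) (P3 := 587336777) (W3 := 62277027)
    rfl k0_A07pp_213_s1

theorem s_A07pp_213_s1 {κ x : ℝ} (hκ : κ * h0 = ken x) (hx : ((587336777 : ℕ) : ℝ) / S ≤ x)
    (hx' : x ≤ (((587336777 : ℕ) : ℝ) + (62277027 : ℕ)) / S) :
    AltA (VFD κ) PP tK tL pcB [⟨3, 0, 0, 1449551462⟩] 2 1 3 0 7 (sgb true) (sgb true) x :=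
  strip_altAD (m := 1449551462) true rfl hκ (SH.κ0 hκ (SH.hx1 hx).le (SH.hx2 hx').le) (SH.hx1 hx).le (SH.hx2 hx') (covB02).cov (covB71).cov hx hx' c_A07pp_213_s1 cutA_nil (noExt_A)

noncomputable def cut_A07pm_001_s1 : Cut := Cut.of [[⟨4, 0, 0, 1449551462⟩]]

noncomputable def xt_A07pm_001_s1 : Ext := strExt0 dd true true false .u0 .s0m .u0m .up 0 0 1 rfl rfl gf1 vv ww kz ndB0q0 ndB7q0

noncomputable def f_A07pm_001_s1 : ℕ → ℕ → ℕ → ℕ → Bool := onCell 0 536870912 536870912 536870912 587336777 62277027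
    (rowF 1 true true false .up 0 0 1 (qsf 0 536870912 0 536870912 1) ndB0q0 ndB7q0 pcB1 cut_A07pm_001_s1 xt_A07pm_001_s1)

def k0_A07pm_001_s1 : ∃ t, chk3 f_A07pm_001_s1 t 2 1 1 = true :=
  ⟨(b (l 3) (b (b (l 3) (l 2)) (l 2))), by decide +kernel⟩

def k1_A07pm_001_s1 : ∃ t, chk3 f_A07pm_001_s1 t 6 1 1 = true :=
  ⟨(a (b (l 3) (b (b (b (l 3) (a (l 3) (b (l 3) (a (l 3) (c (l 1044295183) (l 1043429903)))))) (b (a (l 2) (a (l 2) (b (l 1043739151) (l 2)))) (l 2))) (l 2))) (b (b (l 3) (l 3)) (b (b (b (a (l 3) (b (a (l 3) (a (l 1048857615) (l 1047659023))) (a (l 1043501583) (a (l 1043861007) (l 1045371919))))) (a (b (l 1042855951) (a (l 1042790927) (l 1043126799))) (a (l 1042970639) (b (a (l 1043884559) (l 1044166671)) (l 1044024335))))) (b (a (a (b (l 1042919951) (l 1043062287)) (l 1043812367)) (a (l 1043637775) (l 1045145103))) (a (a (l 2) (l 1046263311)) (b (a (l 16689064) (l 16663040)) (a (l 16652800) (l 16626872)))))) (a (l 2)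 (a (l 2) (b (b (l 16551320) (l 2)) (l 2))))))), by decide +kernel⟩

def k2_A07pm_001_s1 : ∃ t, chk3 f_A07pm_001_s1 t 7 2 1 = true :=
  ⟨(b (l 3) (b (a (l 3) (b (a (l 3) (a (l 3) (b (l 3) (l 1065802255)))) (b (a (l 3) (a (a (l 3) (l 1065196559)) (l 1065495567))) (a (l 1063636495) (c (a (l 1065872399) (l 1066325007)) (a (l 1063431695) (l 1063886351))))))) (a (b (a (l 3) (a (l 3) (l 1061144079))) (a (b (b (l 3) (l 1054518799)) (l 1053058575)) (a (b (b (a (l 1057944079) (l 1058916879)) (l 1057577487)) (l 1056343567)) (b (b (l 1059845647) (l 1059224079)) (b (l 1058522127) (l 16738512)))))) (b (a (l 1062508047) (a (a (l 1063481359) (b (l 1064159759) (l 16745384))) (b (l 1067788303) (l 16739008)))) (a (b (c (l 1062676495) (l 1059601423)) (a (l 1059514895) (l 16722592))) (b (a (l 16731976) (l 16723688)) (a (l 16713928) (l 16706088)))))))), by decide +kernel⟩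

def k3_A07pm_001_s1 : ∃ t, chk3 f_A07pm_001_s1 t 7 3 1 = true :=
  ⟨(b (b (a (a (b (b (l 1051093519) (b (l 1049610255) (l 1048606735))) (b (a (l 1045544975) (l 1048573455)) (a (l 1044706319) (l 16726232)))) (b (a (b (l 1054692367) (l 1053022223)) (b (l 1056736271) (l 16693776))) (a (b (l 16671480) (l 16633040)) (b (l 16662816) (l 16626680))))) (a (a (b (b (l 16710328) (l 16684840)) (b (l 16655728) (l 16622000))) (b (b (l 16701280) (l 16677064)) (b (l 16649784) (l 16617816)))) (b (a (b (l 16693416) (l 16670344)) (b (l 16686280) (l 16664328))) (a (l 16713392) (l 16625520))))) (a (b (a (a (b (l 16709888) (l 16674032)) (b (l 16686344) (l 16650600))) (a (b (l 16671056) (l 16629456)) (b (l 16583880) (l 16534112)))) (a (b (a (l 16637976) (l 16530736)) (l 16568376)) (a (l 16574648) (l 16471232)))) (a (b (a (l 16558744) (l 16558776)) (a (l 16536024) (l 16459584))) (b (a (l 16559128) (l 16559320)) (l 16469544))))) (a (b (b (a (b (l 16553360)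 (l 16517704)) (a (l 16502632) (l 16398976))) (a (l 16472592) (l 16420664))) (a (l 2) (b (l 16368368) (l 2)))) (b (a (b (l 16452040) (l 16380552)) (b (l 16436928) (l 16254040))) (b (a (l 16311184) (l 16268200)) (a (l 16272816) (l 16203032)))))), by decide +kernel⟩

theorem t4_A07pm_001_s1 : ∃ t, chk3 f_A07pm_001_s1 t 7 1 1 = true := ex3_b k2_A07pm_001_s1 k3_A07pm_001_s1

theorem t5_A07pm_001_s1 : ∃ t, chk3 f_A07pm_001_s1 t 3 1 1 = true := ex3_a k1_A07pm_001_s1 t4_A07pm_001_s1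

theorem t6_A07pm_001_s1 : ∃ t, chk3 f_A07pm_001_s1 t 1 1 1 = true := ex3_a k0_A07pm_001_s1 t5_A07pm_001_s1

theorem c_A07pm_001_s1 : CertF 0 536870912 0 536870912 587336777 62277027 true true false .up 0 0 1
    ndB0q0 ndB7q0 pcB1 cut_A07pm_001_s1 xt_A07pm_001_s1 :=
  certF1 (fam := true) (s1 := true) (s2 := false) (a := 0) (b := 0) (c := 1) (cn := .up) (n1 := ndB0q0) (n2 := ndB7q0) (pc := pcB1) (cut := cut_A07pm_001_s1) (xt := xt_A07pm_001_s1) (P1 := 0) (W1 := 536870912) (P2 := 0) (W2 := 536870912) (P3 := 587336777) (W3 := 62277027)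
    rfl (fun _ => rfl) t6_A07pm_001_s1

theorem s_A07pm_001_s1 {κ x : ℝ} (hκ : κ * h0 = ken x) (hx : ((587336777 : ℕ) : ℝ) / S ≤ x)
    (hx' : x ≤ (((587336777 : ℕ) : ℝ) + (62277027 : ℕ)) / S) :
    AltA (VFD κ) PP tK tL pcB [⟨3, 0, 0, 1449551462⟩] 0 0 1 0 7 (sgb true) (sgb false) x :=
  strip_altAD (m := 1449551462) true rfl hκ (SH.κ0 hκ (SH.hx1 hx).le (SH.hx2 hx').le) (SH.hx1 hx).le (SH.hx2 hx') (covB00).cov (covB70).cov hx hx' c_A07pm_001_s1 cutA_nil ((okx6 hx hx').ext0A (T := tt) (zx hx hx') (okx hx hx') (sideB hx hx') hκ rfl rfl (.O 0 true) (.N 0 false) (Or.inr rfl))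

noncomputable def cut_A07pm_011_s1 : Cut := Cut.of [[⟨4, 0, 0, 1449551462⟩], [⟨0, 0, 0, 67108864⟩, ⟨1, 1, 0, 67108864⟩, ⟨2, 1, 0, 67108864⟩]]

noncomputable def xt_A07pm_011_s1 : Ext := strExt0 dd true true false .u0 .s0m .u0m .pnn 0 1 1 rfl rfl gf1 vv ww kz ndB0q0 ndB7q1

noncomputable def f_A07pm_011_s1 : ℕ → ℕ → ℕ → ℕ → Bool := onCell 0 536870912 536870912 536870912 587336777 62277027
    (rowF 1 true true false .pnn 0 1 1 (qsf 0 536870912 536870912 536870912 1) ndB0q0 ndB7q1 pcB1 cut_A07pm_011_s1 xt_A07pm_011_s1)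

def k0_A07pm_011_s1 : ∃ t, chk3 f_A07pm_011_s1 t 1 2 1 = true :=
  ⟨(a (l 3) (a (a (l 3) (l 1)) (l 1))), by decide +kernel⟩

def k1_A07pm_011_s1 : ∃ t, chk3 f_A07pm_011_s1 t 2 6 1 = true :=
  ⟨(b (l 3) (b (l 3) (a (l 3) (a (l 3) (a (b (l 3) (a (l 3) (l 1043431439))) (b (b (a (l 3) (l 1042066959)) (l 1042597903)) (l 1044759055))))))), by decide +kernel⟩

def k2_A07pm_011_s1 : ∃ t, chk3 f_A07pm_011_s1 t 4 7 1 = true :=
  ⟨(b (b (l 3) (a (l 3) (a (l 3) (a (l 3) (b (l 3) (l 1046751759)))))) (b (a (b (l 3) (a (l 3) (a (l 3) (a (l 3) (b (l 3) (l 1047659535)))))) (a (a (b (l 3) (a (b (l 3) (l 1047694351)) (l 1050320399))) (a (b (l 3) (l 1048721935)) (b (l 1047301647) (l 1047653391)))) (a (b (l 1047229455) (b (l 1047511055) (l 1047690255))) (b (l 1047180303) (l 1047581711))))) (a (a (b (b (l 3) (l 14)) (l 14)) (a (a (b (b (l 3) (a (l 14) (l 1047906319))) (l 14)) (b (a (l 1050011663) (l 1047883279)) (a (l 14) (b (l 1048049167) (l 14)))))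 (b (a (a (l 1047901711) (l 1047919119)) (a (l 1047935503) (l 1047951375))) (a (a (l 1049187343) (l 1048139279)) (a (l 1048164879) (l 1048189967)))))) (a (b (a (a (l 1051170831) (l 1050639887)) (a (l 1049593871) (l 1047995407))) (a (a (l 1051420175) (l 1048784911)) (a (l 1048285199) (l 1048313359)))) (b (a (b (l 1047869967) (l 16724976)) (l 1047958031)) (a (b (l 16687896) (l 16671816)) (l 16692464))))))), by decide +kernel⟩

def k3_A07pm_011_s1 : ∃ t, chk3 f_A07pm_011_s1 t 5 7 1 = true :=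
  ⟨(b (a (b (a (l 3) (b (l 3) (l 1046063119))) (a (a (b (l 3) (l 1046632463)) (b (l 1045979151) (l 1046510095))) (b (l 1045653519) (a (l 1046490127) (l 1046498831))))) (b (a (b (a (l 1044028431) (l 1043844111)) (a (l 1044534287) (l 1044578831))) (b (l 1043565583) (l 1044585487))) (a (b (a (l 1045712399) (l 1045688335)) (a (l 16719272) (l 16708040))) (b (l 1045717007) (a (l 16685968) (l 16621664)))))) (a (b (a (b (a (l 1047110671) (l 1047089167)) (a (l 1047560207) (l 16717536))) (b (l 1049210383) (a (l 16686936) (l 16645656)))) (b (a (a (l 16694728) (l 16654136)) (a (l 16634304) (l 16614408))) (a (a (l 16662792) (l 16622416)) (a (l 16602976) (l 16583192))))) (b (b (a (a (l 16698272) (l 16635224)) (a (l 16613872) (l 16592320))) (a (a (l 16625208) (l 16604768)) (l 16594088))) (a (a (b (l 16594360) (l 16563680)) (b (l 16657936) (l 16544104))) (b (a (l 16553912) (l 16533528)) (l 16598616)))))), by decide +kernel⟩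

def k4_A07pm_011_s1 : ∃ t, chk3 f_A07pm_011_s1 t 3 3 1 = true :=
  ⟨(b (a (b (a (b (l 3) (a (l 3) (a (l 3) (b (l 3) (a (l 1042461199) (l 1042590223)))))) (b (l 1) (a (b (l 1) (l 1045093903)) (l 1)))) (a (b (a (b (l 3) (a (l 1043455503) (l 1042458639))) (a (b (l 1042415119) (l 1042599439)) (b (l 1043208719) (l 1042807823)))) (a (b (a (b (l 1042575375) (l 1042721295)) (l 1042701839)) (a (l 1043507727) (l 1042992655))) (b (a (l 1042818063) (l 1042998287)) (l 1043141135)))) (b (a (a (b (l 1042925071) (l 1043067919)) (l 1043286543)) (a (l 1043647503) (l 1))) (a (b (l 1043354639) (l 1043556367)) (b (a (l 16689552) (l 16663544)) (a (l 16653280) (l 16627368))))))) (b (l 1) (a (b (l 1) (a (a (l 62310224759) (l 1)) (l 1))) (l 1)))) (a (b (a (b (a (b (l 1045141519) (l 1045796367)) (b (l 1043572751) (a (l 16650728) (l 16667160)))) (a (b (l 1045862415) (a (l 16599112) (l 16575872))) (b (b (l 16616616) (l 16644368)) (l 16623312)))) (b (a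 (b (l 16625104) (b (l 16633392) (l 16619288))) (b (l 16572688) (l 16568488))) (a (b (l 16598896) (l 16488680)) (l 16488512)))) (a (b (a (b (l 16579496) (l 16530320)) (b (l 16512264) (l 16569648))) (b (a (l 16586408) (l 16543920)) (a (l 16559152) (l 16434744)))) (a (b (b (l 16463432) (l 16522992)) (b (l 16415456) (l 16392368))) (b (l 16400520) (l 16441752))))) (a (b (b (a (b (l 16554512) (l 16518832)) (l 16472816)) (a (l 16470664) (l 16422728))) (a (b (l 16345216) (l 16307616)) (b (l 16282592) (l 16250280)))) (b (a (b (l 1) (l 16298856)) (l 1)) (b (a (l 16229368) (l 16186528)) (a (l 16187096) (l 16203560))))))), by decide +kernel⟩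

theorem t5_A07pm_011_s1 : ∃ t, chk3 f_A07pm_011_s1 t 2 7 1 = true := ex3_a k2_A07pm_011_s1 k3_A07pm_011_s1

theorem t6_A07pm_011_s1 : ∃ t, chk3 f_A07pm_011_s1 t 2 3 1 = true := ex3_b k1_A07pm_011_s1 t5_A07pm_011_s1

theorem t7_A07pm_011_s1 : ∃ t, chk3 f_A07pm_011_s1 t 1 3 1 = true := ex3_a t6_A07pm_011_s1 k4_A07pm_011_s1

theorem t8_A07pm_011_s1 : ∃ t, chk3 f_A07pm_011_s1 t 1 1 1 = true := ex3_b k0_A07pm_011_s1 t7_A07pm_011_s1

theorem c_A07pm_011_s1 : CertF 0 536870912 536870912 536870912 587336777 62277027 true true false .pnn 0 1 1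
    ndB0q0 ndB7q1 pcB1 cut_A07pm_011_s1 xt_A07pm_011_s1 :=
  certF1 (fam := true) (s1 := true) (s2 := false) (a := 0) (b := 1) (c := 1) (cn := .pnn) (n1 := ndB0q0) (n2 := ndB7q1) (pc := pcB1) (cut := cut_A07pm_011_s1) (xt := xt_A07pm_011_s1) (P1 := 0) (W1 := 536870912) (P2 := 536870912) (W2 := 536870912) (P3 := 587336777) (W3 := 62277027)
    rfl (fun _ => rfl) t8_A07pm_011_s1

theorem s_A07pm_011_s1 {κ x : ℝ} (hκ : κ * h0 = ken x) (hx : ((587336777 : ℕ) : ℝ) / S ≤ x)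
    (hx' : x ≤ (((587336777 : ℕ) : ℝ) + (62277027 : ℕ)) / S)
    (H : CutA (VFD κ) PP tK tL pcB (Cut.of [[⟨0, 0, 0, 67108864⟩, ⟨1, 1, 0, 67108864⟩, ⟨2, 1, 0, 67108864⟩]]) 0 1 1 0 7 (sgb true) (sgb false) x) :
    AltA (VFD κ) PP tK tL pcB [⟨3, 0, 0, 1449551462⟩] 0 1 1 0 7 (sgb true) (sgb false) x :=
  strip_altAD (m := 1449551462) true rfl hκ (SH.κ0 hκ (SH.hx1 hx).le (SH.hx2 hx').le) (SH.hx1 hx).le (SH.hx2 hx') (covB00).cov (covB71).cov hx hx' c_A07pm_011_s1 H ((okx6 hx hx').ext0A (T := tt) (zx hx hx') (okx hx hx') (sideB hx hx') hκ rfl rfl (.O 0 true) (.N 1 false) (Or.inr rfl))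

noncomputable def cut_A07pm_012_s1 : Cut := Cut.of [[⟨4, 0, 0, 1449551462⟩], [⟨0, 0, 0, 67108864⟩, ⟨1, 1, 0, 67108864⟩, ⟨2, 1, 0, 67108864⟩]]

noncomputable def f_A07pm_012_s1 : ℕ → ℕ → ℕ → ℕ → Bool := onCell 1073741824 536870912 536870912 536870912 587336777 62277027
    (rowF 2 true true false .pnp 0 1 2 (qsf 0 536870912 536870912 536870912 2) ndB0q0 ndB7q1 pcB2 cut_A07pm_012_s1 Ext.none)

def k0_A07pm_012_s1 : ∃ t, chk3 f_A07pm_012_s1 t 4 2 1 = true :=
  ⟨(b (a (b (a (b (l 16116784) (l 16103160)) (l 6)) (a (b (l 16171496) (l 16231904)) (b (l 16109688) (l 16254640)))) (l 6)) (a (b (a (b (l 16452848) (a (l 16347520) (l 16316488))) (b (l 16307824) (l 16354168))) (b (a (a (l 16475472) (l 16358784)) (l 16394744)) (a (a (l 16517024) (l 16398296)) (l 16515496)))) (a (a (b (l 16369072) (l 16491736)) (b (l 16337808) (l 16334944))) (b (l 6) (b (l 16187512) (l 16222504)))))), by decide +kernel⟩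

def k1_A07pm_012_s1 : ∃ t, chk3 f_A07pm_012_s1 t 8 3 1 = true :=
  ⟨(b (b (a (b (a (l 16473264) (l 16519896)) (a (l 16554664) (l 16556800))) (b (a (l 16399904) (l 16365024)) (a (l 16434400) (l 16397264)))) (a (b (b (l 16563168) (l 16603136)) (a (l 16643672) (l 16546208))) (b (b (l 16524224) (l 16540568)) (a (l 16586392) (l 16460288))))) (a (b (a (b (b (l 16662056) (l 16680912)) (a (a (b (l 16674928) (l 16693016)) (l 16693736)) (b (l 16645160) (l 16662992)))) (b (b (l 16657264) (a (l 16603032) (l 16579416))) (b (a (l 16620768) (l 16596656)) (a (l 16680072) (l 16613536))))) (a (b (b (a (a (l 16721328) (l 16699504)) (l 16701328)) (a (l 14) (b (l 16693000) (l 14)))) (l 14)) (a (b (b (l 16676016) (b (l 16667352) (l 16675360))) (l 14)) (b (b (l 16629984) (l 16666856)) (b (b (l 16657368) (l 14)) (l 14)))))) (b (b (b (l 16589568) (a (l 16544600) (l 16499352))) (a (b (l 16561056) (l 16619136)) (b (l 16514712) (l 16529816)))) (b (a (a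 (b (l 16605200) (l 16620648)) (b (l 16580712) (l 16595672))) (b (l 16544544) (l 16600728))) (a (b (b (l 16640072) (c (l 16670968) (l 16623192))) (b (a (l 14) (l 16620192)) (l 14))) (b (a (l 16584856) (l 16560000)) (b (l 16624016) (c (l 16592536) (l 16583736))))))))), by decide +kernel⟩

def k2_A07pm_012_s1 : ∃ t, chk3 f_A07pm_012_s1 t 9 3 1 = true :=
  ⟨(b (b (a (b (l 16314848) (l 16428040)) (b (l 16252192) (l 16278608))) (a (b (l 16456256) (l 16525800)) (b (l 16302960) (l 16326088)))) (b (b (a (b (l 16420664) (l 16518224)) (b (l 16342928) (l 16353936))) (a (b (l 16531792) (c (l 16551224) (l 16538928))) (b (l 16364904) (l 16459632)))) (b (a (a (b (l 16497456) (l 16510680)) (a (l 16553208) (l 16446584))) (a (a (l 16424224) (l 16402304)) (l 16454216))) (a (a (b (l 16565240) (b (l 16532240) (l 16537936))) (b (l 16475496) (c (l 16493168) (l 16479168)))) (a (b (l 16429104) (l 16522696)) (b (l 16384296) (l 16392760))))))), by decide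 +kernel⟩

def k3_A07pm_012_s1 : ∃ t, chk3 f_A07pm_012_s1 t 5 1 1 = true :=
  ⟨(b (b (l 6) (l 6)) (b (a (a (a (b (l 16221144) (l 16349776)) (b (l 6) (a (l 16243640) (b (l 6) (l 16325272))))) (b (l 6) (b (l 6) (l 16207080)))) (l 6)) (a (b (a (a (b (l 16294720) (l 16312520)) (b (a (l 16270072) (a (l 16258624) (l 16252856))) (a (l 16285888) (a (l 16273384) (l 16266624))))) (b (l 16220264) (l 16315024))) (a (a (b (l 16413464) (b (l 16341376) (l 16432312))) (a (b (l 16300608) (b (l 16310632) (l 16316512))) (a (b (l 16286872) (l 16298560)) (a (b (l 16280416) (l 16291256)) (b (l 16276536) (l 16286600)))))) (a (b (l 16256456) (l 16348800)) (b (l 16224192) (l 16228880))))) (a (b (l 6) (a (b (l 16195768) (l 16196224)) (l 6))) (l 6))))), by decide +kernel⟩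

def k4_A07pm_012_s1 : ∃ t, chk3 f_A07pm_012_s1 t 3 1 1 = true :=
  ⟨(b (l 6) (l 6)), by decide +kernel⟩

theorem t5_A07pm_012_s1 : ∃ t, chk3 f_A07pm_012_s1 t 4 3 1 = true := ex3_a k1_A07pm_012_s1 k2_A07pm_012_s1

theorem t6_A07pm_012_s1 : ∃ t, chk3 f_A07pm_012_s1 t 4 1 1 = true := ex3_b k0_A07pm_012_s1 t5_A07pm_012_s1

theorem t7_A07pm_012_s1 : ∃ t, chk3 f_A07pm_012_s1 t 2 1 1 = true := ex3_a t6_A07pm_012_s1 k3_A07pm_012_s1

theorem t8_A07pm_012_s1 : ∃ t, chk3 f_A07pm_012_s1 t 1 1 1 = true := ex3_a t7_A07pm_012_s1 k4_A07pm_012_s1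

theorem c_A07pm_012_s1 : CertF 0 536870912 536870912 536870912 587336777 62277027 true true false .pnp 0 1 2
    ndB0q0 ndB7q1 pcB2 cut_A07pm_012_s1 Ext.none :=
  certF2 (fam := true) (s1 := true) (s2 := false) (a := 0) (b := 1) (c := 2) (cn := .pnp) (n1 := ndB0q0) (n2 := ndB7q1) (pc := pcB2) (cut := cut_A07pm_012_s1) (xt := Ext.none) (P1 := 0) (W1 := 536870912) (P2 := 536870912) (W2 := 536870912) (P3 := 587336777) (W3 := 62277027)
    rfl (fun _ => rfl) t8_A07pm_012_s1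

theorem s_A07pm_012_s1 {κ x : ℝ} (hκ : κ * h0 = ken x) (hx : ((587336777 : ℕ) : ℝ) / S ≤ x)
    (hx' : x ≤ (((587336777 : ℕ) : ℝ) + (62277027 : ℕ)) / S)
    (H : CutA (VFD κ) PP tK tL pcB (Cut.of [[⟨0, 0, 0, 67108864⟩, ⟨1, 1, 0, 67108864⟩, ⟨2, 1, 0, 67108864⟩]]) 0 1 2 0 7 (sgb true) (sgb false) x) :
    AltA (VFD κ) PP tK tL pcB [⟨3, 0, 0, 1449551462⟩] 0 1 2 0 7 (sgb true) (sgb false) x :=
  strip_altAD (m := 1449551462) true rfl hκ (SH.κ0 hκ (SH.hx1 hx).le (SH.hx2 hx').le) (SH.hx1 hx).le (SH.hx2 hx') (covB00).cov (covB71).cov hx hx' c_A07pm_012_s1 H (noExt_A)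

noncomputable def cut_A07pm_022_s1 : Cut := Cut.of [[⟨4, 0, 0, 1449551462⟩], [⟨0, 0, 0, 67108864⟩, ⟨1, 1, 0, 67108864⟩, ⟨2, 1, 0, 67108864⟩]]

noncomputable def f_A07pm_022_s1 : ℕ → ℕ → ℕ → ℕ → Bool := onCell 0 536870912 1073741824 536870912 587336777 62277027
    (rowF 1 true true false .pp 0 2 2 (qsf 0 536870912 1073741824 536870912 2) ndB0q0 ndB7q2 pcB2 cut_A07pm_022_s1 Ext.none)

def k0_A07pm_022_s1 : ∃ t, chk3 f_A07pm_022_s1 t 1 4 1 = true :=
  ⟨(a (b (a (a (b (a (l 14) (a (l 14) (l 1))) (b (a (l 14) (a (l 14) (a (l 14) (l 1)))) (b (a (l 14) (a (l 14) (a (l 14) (l 16591496)))) (a (a (l 16647320) (l 16670304)) (a (l 16607480) (a (l 16590496) (l 16578480))))))) (b (l 1) (a (b (l 1) (a (b (l 1) (l 16559328)) (l 1))) (l 1)))) (l 1)) (a (a (a (b (b (a (l 16623176) (l 16605480)) (a (l 16590936) (l 16574872))) (b (l 16593568) (l 16603944))) (b (a (b (l 16627848) (l 16556960)) (b (b (l 16571128) (l 16557608)) (l 16537152))) (b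 (a (l 16527848) (l 16509688)) (l 16574464)))) (b (a (b (a (b (l 48888388775) (l 16534376)) (b (l 1) (l 16508840))) (a (b (l 16521728) (l 16508952)) (b (l 16497216) (l 16485432)))) (b (l 1) (a (c (l 16515488) (l 16456056)) (l 1)))) (a (b (a (l 16489632) (l 16467552)) (a (l 16463720) (l 16443448))) (b (a (c (l 73047410311) (l 16434576)) (l 16458568)) (a (l 16421136) (l 73584213047)))))) (a (b (l 1) (a (b (l 1) (a (l 16369712) (l 1))) (l 1))) (l 1)))) (l 1)), by decide +kernel⟩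

def k1_A07pm_022_s1 : ∃ t, chk3 f_A07pm_022_s1 t 1 5 1 = true :=
  ⟨(a (a (b (b (a (b (a (l 16530512) (l 16546200)) (b (a (l 16465232) (l 16441352)) (b (a (l 16453648) (l 16430952)) (a (b (l 16447856) (l 16443968)) (b (l 16425736) (l 16422216)))))) (b (a (l 16512632) (a (l 16398800) (l 16376304))) (b (a (l 16410152) (l 16371832)) (a (b (l 16400920) (b (l 16396296) (l 16393176))) (b (l 16363904) (a (l 16452168) (l 16474232))))))) (a (a (b (l 16427120) (l 16397664)) (b (l 16407136) (l 16380912))) (a (b (l 16379848) (l 16356704)) (b (l 16345752) (l 16325816))))) (a (b (a (b (l 16368816) (l 16340304)) (l 16342864)) (a (l 16465176) (l 16294120))) (a (b (l 16323400) (l 16281464)) (b (l 16297432) (l 16262088))))) (b (b (a (b (a (a (l 85395304023) (l 16324488)) (l 1)) (b (a (a (l 16337936) (l 16312536)) (l 1)) (a (b (l 16319096) (b (l 16315912) (l 16397680))) (b (l 1) (b (l 1) (l 16261480)))))) (l 1)) (a (a (b (l 16304384) (l 16288104))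 (b (l 64994057303) (l 16242712))) (a (b (l 1) (l 16188320)) (l 1)))) (a (b (a (l 16264992) (b (l 16231408) (l 16220584))) (a (l 16236648) (l 16205280))) (b (a (b (l 16266008) (l 16176160)) (a (l 16221976) (l 1))) (l 6))))) (a (b (l 1) (l 6)) (l 1))), by decide +kernel⟩

def k2_A07pm_022_s1 : ∃ t, chk3 f_A07pm_022_s1 t 1 3 1 = true :=
  ⟨(a (b (b (a (a (b (a (l 16238688) (l 16245880)) (l 16209840)) (a (b (l 16241568) (l 6)) (l 16297600))) (l 6)) (l 6)) (l 6)) (l 6)), by decide +kernel⟩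

theorem t3_A07pm_022_s1 : ∃ t, chk3 f_A07pm_022_s1 t 1 2 1 = true := ex3_b k0_A07pm_022_s1 k1_A07pm_022_s1

theorem t4_A07pm_022_s1 : ∃ t, chk3 f_A07pm_022_s1 t 1 1 1 = true := ex3_b t3_A07pm_022_s1 k2_A07pm_022_s1

theorem c_A07pm_022_s1 : CertF 0 536870912 1073741824 536870912 587336777 62277027 true true false .pp 0 2 2
    ndB0q0 ndB7q2 pcB2 cut_A07pm_022_s1 Ext.none :=
  certF1 (fam := true) (s1 := true) (s2 := false) (a := 0) (b := 2) (c := 2) (cn := .pp) (n1 := ndB0q0) (n2 := ndB7q2) (pc := pcB2) (cut := cut_A07pm_022_s1) (xt := Ext.none) (P1 := 0) (W1 := 536870912) (P2 := 1073741824) (W2 := 536870912) (P3 := 587336777) (W3 := 62277027)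
    rfl (fun _ => rfl) t4_A07pm_022_s1

theorem s_A07pm_022_s1 {κ x : ℝ} (hκ : κ * h0 = ken x) (hx : ((587336777 : ℕ) : ℝ) / S ≤ x)
    (hx' : x ≤ (((587336777 : ℕ) : ℝ) + (62277027 : ℕ)) / S)
    (H : CutA (VFD κ) PP tK tL pcB (Cut.of [[⟨0, 0, 0, 67108864⟩, ⟨1, 1, 0, 67108864⟩, ⟨2, 1, 0, 67108864⟩]]) 0 2 2 0 7 (sgb true) (sgb false) x) :
    AltA (VFD κ) PP tK tL pcB [⟨3, 0, 0, 1449551462⟩] 0 2 2 0 7 (sgb true) (sgb false) x :=
  strip_altAD (m := 1449551462) true rfl hκ (SH.κ0 hκ (SH.hx1 hx).le (SH.hx2 hx').le) (SH.hx1 hx).le (SH.hx2 hx') (covB00).cov (covB72).cov hx hx' c_A07pm_022_s1 H (noExt_A)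

noncomputable def cut_A07pm_023_s1 : Cut := Cut.of [[⟨4, 0, 0, 1449551462⟩]]

noncomputable def f_A07pm_023_s1 : ℕ → ℕ → ℕ → ℕ → Bool := onCell 1610612736 536870912 1073741824 536870912 587336777 62277027
    (rowF 2 true true false .up 0 2 3 (qsf 0 536870912 1073741824 536870912 3) ndB0q0 ndB7q2 pcB3 cut_A07pm_023_s1 Ext.none)

def k0_A07pm_023_s1 : ∃ t, chk3 f_A07pm_023_s1 t 1 1 1 = true :=
  ⟨(a (l 6) (l 6)), by decide +kernel⟩

theorem c_A07pm_023_s1 : CertF 0 536870912 1073741824 536870912 587336777 62277027 true true false .up 0 2 3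
    ndB0q0 ndB7q2 pcB3 cut_A07pm_023_s1 Ext.none :=
  certF2 (fam := true) (s1 := true) (s2 := false) (a := 0) (b := 2) (c := 3) (cn := .up) (n1 := ndB0q0) (n2 := ndB7q2) (pc := pcB3) (cut := cut_A07pm_023_s1) (xt := Ext.none) (P1 := 0) (W1 := 536870912) (P2 := 1073741824) (W2 := 536870912) (P3 := 587336777) (W3 := 62277027)
    rfl (fun _ => rfl) k0_A07pm_023_s1

theorem s_A07pm_023_s1 {κ x : ℝ} (hκ : κ * h0 = ken x) (hx : ((587336777 : ℕ) : ℝ) / S ≤ x)
    (hx' : x ≤ (((587336777 : ℕ) : ℝ) + (62277027 : ℕ)) / S) :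
    AltA (VFD κ) PP tK tL pcB [⟨3, 0, 0, 1449551462⟩] 0 2 3 0 7 (sgb true) (sgb false) x :=
  strip_altAD (m := 1449551462) true rfl hκ (SH.κ0 hκ (SH.hx1 hx).le (SH.hx2 hx').le) (SH.hx1 hx).le (SH.hx2 hx') (covB00).cov (covB72).cov hx hx' c_A07pm_023_s1 cutA_nil (noExt_A)

noncomputable def cut_A07pm_033_s1 : Cut := Cut.of [[⟨4, 0, 0, 1449551462⟩]]

noncomputable def f_A07pm_033_s1 : ℕ → ℕ → ℕ → ℕ → Bool := onCell 1610612736 536870912 0 1230186008 587336777 62277027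
    (rowF 2 true true false .pnn 0 3 3 (qsf 0 536870912 0 1230186008 3) ndB0q0 ndB7q3 pcB3 cut_A07pm_033_s1 Ext.none)

def k0_A07pm_033_s1 : ∃ t, chk3 f_A07pm_033_s1 t 1 1 1 = true :=
  ⟨(b (l 6) (l 6)), by decide +kernel⟩

theorem c_A07pm_033_s1 : CertF 0 536870912 0 1230186008 587336777 62277027 true true false .pnn 0 3 3
    ndB0q0 ndB7q3 pcB3 cut_A07pm_033_s1 Ext.none :=
  certF2 (fam := true) (s1 := true) (s2 := false) (a := 0) (b := 3) (c := 3) (cn := .pnn) (n1 := ndB0q0) (n2 := ndB7q3) (pc := pcB3) (cut := cut_A07pm_033_s1) (xt := Ext.none) (P1 := 0) (W1 := 536870912) (P2 := 0) (W2 := 1230186008) (P3 := 587336777) (W3 := 62277027)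
    rfl (fun _ => rfl) k0_A07pm_033_s1

theorem s_A07pm_033_s1 {κ x : ℝ} (hκ : κ * h0 = ken x) (hx : ((587336777 : ℕ) : ℝ) / S ≤ x)
    (hx' : x ≤ (((587336777 : ℕ) : ℝ) + (62277027 : ℕ)) / S) :
    AltA (VFD κ) PP tK tL pcB [⟨3, 0, 0, 1449551462⟩] 0 3 3 0 7 (sgb true) (sgb false) x :=
  strip_altAD (m := 1449551462) true rfl hκ (SH.κ0 hκ (SH.hx1 hx).le (SH.hx2 hx').le) (SH.hx1 hx).le (SH.hx2 hx') (covB00).cov (covB73).cov hx hx' c_A07pm_033_s1 cutA_nil (noExt_A)

noncomputable def cut_A07pm_101_s1 : Cut := Cut.of [[⟨4, 0, 0, 1449551462⟩]]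

noncomputable def xt_A07pm_101_s1 : Ext := strExt0 dd true true false .u0 .s0m .u0m .npn 1 0 1 rfl rfl gf1 vv ww kz ndB0q1 ndB7q0

noncomputable def f_A07pm_101_s1 : ℕ → ℕ → ℕ → ℕ → Bool := onCell 536870912 536870912 536870912 536870912 587336777 62277027
    (rowF 1 true true false .npn 1 0 1 (qsf 536870912 536870912 0 536870912 1) ndB0q1 ndB7q0 pcB1 cut_A07pm_101_s1 xt_A07pm_101_s1)

def k0_A07pm_101_s1 : ∃ t, chk3 f_A07pm_101_s1 t 1 2 1 = true :=
  ⟨(a (b (a (a (b (l 3) (a (b (l 3) (a (l 3) (b (l 3) (l 1066655759)))) (b (l 1067127823) (l 1067055631)))) (b (b (l 1) (l 1067098639)) (b (l 1067432463) (a (l 1067406863) (b (l 1067588111) (l 16744384)))))) (b (l 1) (a (b (l 1) (a (l 132103847303) (l 1))) (l 1)))) (a (b (a (b (a (a (b (a (l 3) (l 1066364943)) (a (l 1066044943) (l 1066193935))) (b (l 1066519567) (l 1066399759))) (b (a (l 1066804239) (l 1067052047)) (a (l 1066663951) (l 16752696)))) (a (b (a (l 1065852431) (l 1066165775))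 (a (l 1068179471) (l 16747936))) (a (b (l 16750672) (l 16740656)) (l 16780776)))) (a (b (b (l 16771584) (l 16742488)) (b (l 16817424) (l 16724056))) (b (b (l 16736896) (l 16729336)) (l 16715904)))) (a (a (a (b (b (l 16744192) (l 16731040)) (a (l 16793056) (l 16789528))) (b (l 16772088) (l 16784584))) (b (b (l 16809528) (l 16713208)) (l 16691248))) (a (b (l 16707072) (l 16679944)) (l 16766640)))) (b (a (a (b (l 16720264) (l 16702640)) (l 16701824)) (a (l 16696288) (l 1))) (a (a (l 16671960) (l 16660920)) (a (l 16650048) (l 16642128)))))) (a (b (l 1) (a (b (l 1) (a (l 16636744) (l 1))) (l 1))) (l 1))), by decide +kernel⟩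

def k1_A07pm_101_s1 : ∃ t, chk3 f_A07pm_101_s1 t 1 3 1 = true :=
  ⟨(a (b (b (a (a (b (a (a (l 16669576) (l 16663744)) (l 16655784)) (a (a (l 16621576) (l 16617680)) (l 16612168))) (b (l 16726264) (l 16603128))) (a (a (l 16614784) (l 16776640)) (a (l 16602640) (l 16592544)))) (a (a (a (b (c (l 16582816) (l 16533840)) (l 16480472)) (b (l 16556728) (l 16487528))) (b (l 16638080) (l 16662416))) (a (a (l 16696920) (l 16615232)) (b (l 16718040) (l 6))))) (a (a (b (a (a (l 16351568) (l 16325880)) (b (l 16400272) (l 16287280))) (a (b (l 16218528) (l 16151864)) (b (l 16139088) (l 16008680)))) (b (a (b (l 16415792) (l 16317632)) (l 16385992)) (a (l 16109192) (l 6)))) (b (a (b (l 16442288) (l 6)) (l 6)) (l 6)))) (a (b (a (l 6) (l 6)) (l 6)) (l 6))), by decide +kernel⟩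

theorem t2_A07pm_101_s1 : ∃ t, chk3 f_A07pm_101_s1 t 1 1 1 = true := ex3_b k0_A07pm_101_s1 k1_A07pm_101_s1

theorem c_A07pm_101_s1 : CertF 536870912 536870912 0 536870912 587336777 62277027 true true false .npn 1 0 1
    ndB0q1 ndB7q0 pcB1 cut_A07pm_101_s1 xt_A07pm_101_s1 :=
  certF1 (fam := true) (s1 := true) (s2 := false) (a := 1) (b := 0) (c := 1) (cn := .npn) (n1 := ndB0q1) (n2 := ndB7q0) (pc := pcB1) (cut := cut_A07pm_101_s1) (xt := xt_A07pm_101_s1) (P1 := 536870912) (W1 := 536870912) (P2 := 0) (W2 := 536870912) (P3 := 587336777) (W3 := 62277027)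
    rfl (fun _ => rfl) t2_A07pm_101_s1

theorem s_A07pm_101_s1 {κ x : ℝ} (hκ : κ * h0 = ken x) (hx : ((587336777 : ℕ) : ℝ) / S ≤ x)
    (hx' : x ≤ (((587336777 : ℕ) : ℝ) + (62277027 : ℕ)) / S) :
    AltA (VFD κ) PP tK tL pcB [⟨3, 0, 0, 1449551462⟩] 1 0 1 0 7 (sgb true) (sgb false) x :=
  strip_altAD (m := 1449551462) true rfl hκ (SH.κ0 hκ (SH.hx1 hx).le (SH.hx2 hx').le) (SH.hx1 hx).le (SH.hx2 hx') (covB01).cov (covB70).cov hx hx' c_A07pm_101_s1 cutA_nil ((okx6 hx hx').ext0A (T := tt) (zx hx hx') (okx hx hx') (sideB hx hx') hκ rfl rfl (.O 1 true) (.N 0 false) (Or.inr rfl))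

noncomputable def cut_A07pm_102_s1 : Cut := Cut.of [[⟨4, 0, 0, 1449551462⟩]]

noncomputable def f_A07pm_102_s1 : ℕ → ℕ → ℕ → ℕ → Bool := onCell 536870912 536870912 1073741824 536870912 587336777 62277027
    (rowF 1 true true false .npp 1 0 2 (qsf 536870912 536870912 0 536870912 2) ndB0q1 ndB7q0 pcB2 cut_A07pm_102_s1 Ext.none)

def k0_A07pm_102_s1 : ∃ t, chk3 f_A07pm_102_s1 t 1 1 1 = true :=
  ⟨(a (b (a (b (a (b (a (b (l 6) (l 6)) (l 6)) (l 6)) (l 6)) (l 6)) (l 6)) (l 6)) (l 6)), by decide +kernel⟩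

theorem c_A07pm_102_s1 : CertF 536870912 536870912 0 536870912 587336777 62277027 true true false .npp 1 0 2
    ndB0q1 ndB7q0 pcB2 cut_A07pm_102_s1 Ext.none :=
  certF1 (fam := true) (s1 := true) (s2 := false) (a := 1) (b := 0) (c := 2) (cn := .npp) (n1 := ndB0q1) (n2 := ndB7q0) (pc := pcB2) (cut := cut_A07pm_102_s1) (xt := Ext.none) (P1 := 536870912) (W1 := 536870912) (P2 := 0) (W2 := 536870912) (P3 := 587336777) (W3 := 62277027)
    rfl (fun _ => rfl) k0_A07pm_102_s1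

theorem s_A07pm_102_s1 {κ x : ℝ} (hκ : κ * h0 = ken x) (hx : ((587336777 : ℕ) : ℝ) / S ≤ x)
    (hx' : x ≤ (((587336777 : ℕ) : ℝ) + (62277027 : ℕ)) / S) :
    AltA (VFD κ) PP tK tL pcB [⟨3, 0, 0, 1449551462⟩] 1 0 2 0 7 (sgb true) (sgb false) x :=
  strip_altAD (m := 1449551462) true rfl hκ (SH.κ0 hκ (SH.hx1 hx).le (SH.hx2 hx').le) (SH.hx1 hx).le (SH.hx2 hx') (covB01).cov (covB70).cov hx hx' c_A07pm_102_s1 cutA_nil (noExt_A)

noncomputable def cut_A07pm_112_s1 : Cut := Cut.of [[⟨4, 0, 0, 1449551462⟩]]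

noncomputable def f_A07pm_112_s1 : ℕ → ℕ → ℕ → ℕ → Bool := onCell 536870912 536870912 536870912 536870912 587336777 62277027
    (rowF 0 true true false .dn 1 1 2 (qsf 536870912 536870912 536870912 536870912 2) ndB0q1 ndB7q1 pcB2 cut_A07pm_112_s1 Ext.none)

def k0_A07pm_112_s1 : ∃ t, chk3 f_A07pm_112_s1 t 1 1 1 = true :=
  ⟨(a (b (a (b (a (b (a (l 16075912) (l 6)) (l 6)) (l 6)) (l 6)) (l 6)) (l 6)) (l 6)), by decide +kernel⟩

theorem c_A07pm_112_s1 : CertF 536870912 536870912 536870912 536870912 587336777 62277027 true true false .dn 1 1 2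
    ndB0q1 ndB7q1 pcB2 cut_A07pm_112_s1 Ext.none :=
  certF0 (fam := true) (s1 := true) (s2 := false) (a := 1) (b := 1) (c := 2) (cn := .dn) (n1 := ndB0q1) (n2 := ndB7q1) (pc := pcB2) (cut := cut_A07pm_112_s1) (xt := Ext.none) (P1 := 536870912) (W1 := 536870912) (P2 := 536870912) (W2 := 536870912) (P3 := 587336777) (W3 := 62277027)
    rfl k0_A07pm_112_s1

theorem s_A07pm_112_s1 {κ x : ℝ} (hκ : κ * h0 = ken x) (hx : ((587336777 : ℕ) : ℝ) / S ≤ x)
    (hx' : x ≤ (((587336777 : ℕ) : ℝ) + (62277027 : ℕ)) / S) :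
    AltA (VFD κ) PP tK tL pcB [⟨3, 0, 0, 1449551462⟩] 1 1 2 0 7 (sgb true) (sgb false) x :=
  strip_altAD (m := 1449551462) true rfl hκ (SH.κ0 hκ (SH.hx1 hx).le (SH.hx2 hx').le) (SH.hx1 hx).le (SH.hx2 hx') (covB01).cov (covB71).cov hx hx' c_A07pm_112_s1 cutA_nil (noExt_A)

noncomputable def cut_A07pm_113_s1 : Cut := Cut.of [[⟨4, 0, 0, 1449551462⟩]]

noncomputable def f_A07pm_113_s1 : ℕ → ℕ → ℕ → ℕ → Bool := onCell 536870912 536870912 1610612736 536870912 587336777 62277027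
    (rowF 1 true true false .nn 1 1 3 (qsf 536870912 536870912 536870912 536870912 3) ndB0q1 ndB7q1 pcB3 cut_A07pm_113_s1 Ext.none)

def k0_A07pm_113_s1 : ∃ t, chk3 f_A07pm_113_s1 t 1 1 1 = true :=
  ⟨(l 6), by decide +kernel⟩

theorem c_A07pm_113_s1 : CertF 536870912 536870912 536870912 536870912 587336777 62277027 true true false .nn 1 1 3
    ndB0q1 ndB7q1 pcB3 cut_A07pm_113_s1 Ext.none :=
  certF1 (fam := true) (s1 := true) (s2 := false) (a := 1) (b := 1) (c := 3) (cn := .nn) (n1 := ndB0q1) (n2 := ndB7q1) (pc := pcB3) (cut := cut_A07pm_113_s1) (xt := Ext.none) (P1 := 536870912) (W1 := 536870912) (P2 := 536870912) (W2 := 536870912) (P3 := 587336777) (W3 := 62277027)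
    rfl (fun _ => rfl) k0_A07pm_113_s1

theorem s_A07pm_113_s1 {κ x : ℝ} (hκ : κ * h0 = ken x) (hx : ((587336777 : ℕ) : ℝ) / S ≤ x)
    (hx' : x ≤ (((587336777 : ℕ) : ℝ) + (62277027 : ℕ)) / S) :
    AltA (VFD κ) PP tK tL pcB [⟨3, 0, 0, 1449551462⟩] 1 1 3 0 7 (sgb true) (sgb false) x :=
  strip_altAD (m := 1449551462) true rfl hκ (SH.κ0 hκ (SH.hx1 hx).le (SH.hx2 hx').le) (SH.hx1 hx).le (SH.hx2 hx') (covB01).cov (covB71).cov hx hx' c_A07pm_113_s1 cutA_nil (noExt_A)

noncomputable def cut_A07pm_123_s1 : Cut := Cut.of [[⟨4, 0, 0, 1449551462⟩]]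

noncomputable def f_A07pm_123_s1 : ℕ → ℕ → ℕ → ℕ → Bool := onCell 536870912 536870912 1073741824 536870912 587336777 62277027
    (rowF 0 true true false .npn 1 2 3 (qsf 536870912 536870912 1073741824 536870912 3) ndB0q1 ndB7q2 pcB3 cut_A07pm_123_s1 Ext.none)

def k0_A07pm_123_s1 : ∃ t, chk3 f_A07pm_123_s1 t 1 1 1 = true :=
  ⟨(l 6), by decide +kernel⟩

theorem c_A07pm_123_s1 : CertF 536870912 536870912 1073741824 536870912 587336777 62277027 true true false .npn 1 2 3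
    ndB0q1 ndB7q2 pcB3 cut_A07pm_123_s1 Ext.none :=
  certF0 (fam := true) (s1 := true) (s2 := false) (a := 1) (b := 2) (c := 3) (cn := .npn) (n1 := ndB0q1) (n2 := ndB7q2) (pc := pcB3) (cut := cut_A07pm_123_s1) (xt := Ext.none) (P1 := 536870912) (W1 := 536870912) (P2 := 1073741824) (W2 := 536870912) (P3 := 587336777) (W3 := 62277027)
    rfl k0_A07pm_123_s1

theorem s_A07pm_123_s1 {κ x : ℝ} (hκ : κ * h0 = ken x) (hx : ((587336777 : ℕ) : ℝ) / S ≤ x)
    (hx' : x ≤ (((587336777 : ℕ) : ℝ) + (62277027 : ℕ)) / S) :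
    AltA (VFD κ) PP tK tL pcB [⟨3, 0, 0, 1449551462⟩] 1 2 3 0 7 (sgb true) (sgb false) x :=
  strip_altAD (m := 1449551462) true rfl hκ (SH.κ0 hκ (SH.hx1 hx).le (SH.hx2 hx').le) (SH.hx1 hx).le (SH.hx2 hx') (covB01).cov (covB72).cov hx hx' c_A07pm_123_s1 cutA_nil (noExt_A)

noncomputable def cut_A07pm_133_s1 : Cut := Cut.of [[⟨4, 0, 0, 1449551462⟩]]

noncomputable def f_A07pm_133_s1 : ℕ → ℕ → ℕ → ℕ → Bool := onCell 536870912 536870912 0 1230186008 587336777 62277027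
    (rowF 0 true true false .dn 1 3 3 (qsf 536870912 536870912 0 1230186008 3) ndB0q1 ndB7q3 pcB3 cut_A07pm_133_s1 Ext.none)

def k0_A07pm_133_s1 : ∃ t, chk3 f_A07pm_133_s1 t 1 1 1 = true :=
  ⟨(l 6), by decide +kernel⟩

theorem c_A07pm_133_s1 : CertF 536870912 536870912 0 1230186008 587336777 62277027 true true false .dn 1 3 3
    ndB0q1 ndB7q3 pcB3 cut_A07pm_133_s1 Ext.none :=
  certF0 (fam := true) (s1 := true) (s2 := false) (a := 1) (b := 3) (c := 3) (cn := .dn) (n1 := ndB0q1) (n2 := ndB7q3) (pc := pcB3) (cut := cut_A07pm_133_s1) (xt := Ext.none) (P1 := 536870912) (W1 := 536870912) (P2 := 0) (W2 := 1230186008) (P3 := 587336777) (W3 := 62277027)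
    rfl k0_A07pm_133_s1

theorem s_A07pm_133_s1 {κ x : ℝ} (hκ : κ * h0 = ken x) (hx : ((587336777 : ℕ) : ℝ) / S ≤ x)
    (hx' : x ≤ (((587336777 : ℕ) : ℝ) + (62277027 : ℕ)) / S) :
    AltA (VFD κ) PP tK tL pcB [⟨3, 0, 0, 1449551462⟩] 1 3 3 0 7 (sgb true) (sgb false) x :=
  strip_altAD (m := 1449551462) true rfl hκ (SH.κ0 hκ (SH.hx1 hx).le (SH.hx2 hx').le) (SH.hx1 hx).le (SH.hx2 hx') (covB01).cov (covB73).cov hx hx' c_A07pm_133_s1 cutA_nil (noExt_A)

noncomputable def cut_A07pm_202_s1 : Cut := Cut.of [[⟨4, 0, 0, 1449551462⟩]]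

noncomputable def f_A07pm_202_s1 : ℕ → ℕ → ℕ → ℕ → Bool := onCell 0 536870912 0 536870912 587336777 62277027
    (rowF 0 true true false .pp 2 0 2 (qsf 0 536870912 0 536870912 2) ndB0q2 ndB7q0 pcB2 cut_A07pm_202_s1 Ext.none)

def k0_A07pm_202_s1 : ∃ t, chk3 f_A07pm_202_s1 t 1 1 1 = true :=
  ⟨(l 6), by decide +kernel⟩

theorem c_A07pm_202_s1 : CertF 0 536870912 0 536870912 587336777 62277027 true true false .pp 2 0 2
    ndB0q2 ndB7q0 pcB2 cut_A07pm_202_s1 Ext.none :=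
  certF0 (fam := true) (s1 := true) (s2 := false) (a := 2) (b := 0) (c := 2) (cn := .pp) (n1 := ndB0q2) (n2 := ndB7q0) (pc := pcB2) (cut := cut_A07pm_202_s1) (xt := Ext.none) (P1 := 0) (W1 := 536870912) (P2 := 0) (W2 := 536870912) (P3 := 587336777) (W3 := 62277027)
    rfl k0_A07pm_202_s1

theorem s_A07pm_202_s1 {κ x : ℝ} (hκ : κ * h0 = ken x) (hx : ((587336777 : ℕ) : ℝ) / S ≤ x)
    (hx' : x ≤ (((587336777 : ℕ) : ℝ) + (62277027 : ℕ)) / S) :
    AltA (VFD κ) PP tK tL pcB [⟨3, 0, 0, 1449551462⟩] 2 0 2 0 7 (sgb true) (sgb false) x :=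
  strip_altAD (m := 1449551462) true rfl hκ (SH.κ0 hκ (SH.hx1 hx).le (SH.hx2 hx').le) (SH.hx1 hx).le (SH.hx2 hx') (covB02).cov (covB70).cov hx hx' c_A07pm_202_s1 cutA_nil (noExt_A)

noncomputable def cut_A07pm_203_s1 : Cut := Cut.of [[⟨4, 0, 0, 1449551462⟩]]

noncomputable def f_A07pm_203_s1 : ℕ → ℕ → ℕ → ℕ → Bool := onCell 0 536870912 0 536870912 587336777 62277027
    (rowF 0 true true false .up 2 0 3 (qsf 0 536870912 0 536870912 3) ndB0q2 ndB7q0 pcB3 cut_A07pm_203_s1 Ext.none)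

def k0_A07pm_203_s1 : ∃ t, chk3 f_A07pm_203_s1 t 1 1 1 = true :=
  ⟨(l 6), by decide +kernel⟩

theorem c_A07pm_203_s1 : CertF 0 536870912 0 536870912 587336777 62277027 true true false .up 2 0 3
    ndB0q2 ndB7q0 pcB3 cut_A07pm_203_s1 Ext.none :=
  certF0 (fam := true) (s1 := true) (s2 := false) (a := 2) (b := 0) (c := 3) (cn := .up) (n1 := ndB0q2) (n2 := ndB7q0) (pc := pcB3) (cut := cut_A07pm_203_s1) (xt := Ext.none) (P1 := 0) (W1 := 536870912) (P2 := 0) (W2 := 536870912) (P3 := 587336777) (W3 := 62277027)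
    rfl k0_A07pm_203_s1

theorem s_A07pm_203_s1 {κ x : ℝ} (hκ : κ * h0 = ken x) (hx : ((587336777 : ℕ) : ℝ) / S ≤ x)
    (hx' : x ≤ (((587336777 : ℕ) : ℝ) + (62277027 : ℕ)) / S) :
    AltA (VFD κ) PP tK tL pcB [⟨3, 0, 0, 1449551462⟩] 2 0 3 0 7 (sgb true) (sgb false) x :=
  strip_altAD (m := 1449551462) true rfl hκ (SH.κ0 hκ (SH.hx1 hx).le (SH.hx2 hx').le) (SH.hx1 hx).le (SH.hx2 hx') (covB02).cov (covB70).cov hx hx' c_A07pm_203_s1 cutA_nil (noExt_A)

noncomputable def cut_A07pm_213_s1 : Cut := Cut.of [[⟨4, 0, 0, 1449551462⟩]]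

noncomputable def f_A07pm_213_s1 : ℕ → ℕ → ℕ → ℕ → Bool := onCell 0 536870912 536870912 536870912 587336777 62277027
    (rowF 0 true true false .pnn 2 1 3 (qsf 0 536870912 536870912 536870912 3) ndB0q2 ndB7q1 pcB3 cut_A07pm_213_s1 Ext.none)

def k0_A07pm_213_s1 : ∃ t, chk3 f_A07pm_213_s1 t 1 1 1 = true :=
  ⟨(l 6), by decide +kernel⟩

theorem c_A07pm_213_s1 : CertF 0 536870912 536870912 536870912 587336777 62277027 true true false .pnn 2 1 3
    ndB0q2 ndB7q1 pcB3 cut_A07pm_213_s1 Ext.none :=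
  certF0 (fam := true) (s1 := true) (s2 := false) (a := 2) (b := 1) (c := 3) (cn := .pnn) (n1 := ndB0q2) (n2 := ndB7q1) (pc := pcB3) (cut := cut_A07pm_213_s1) (xt := Ext.none) (P1 := 0) (W1 := 536870912) (P2 := 536870912) (W2 := 536870912) (P3 := 587336777) (W3 := 62277027)
    rfl k0_A07pm_213_s1

theorem s_A07pm_213_s1 {κ x : ℝ} (hκ : κ * h0 = ken x) (hx : ((587336777 : ℕ) : ℝ) / S ≤ x)
    (hx' : x ≤ (((587336777 : ℕ) : ℝ) + (62277027 : ℕ)) / S) :
    AltA (VFD κ) PP tK tL pcB [⟨3, 0, 0, 1449551462⟩] 2 1 3 0 7 (sgb true) (sgb false) x :=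
  strip_altAD (m := 1449551462) true rfl hκ (SH.κ0 hκ (SH.hx1 hx).le (SH.hx2 hx').le) (SH.hx1 hx).le (SH.hx2 hx') (covB02).cov (covB71).cov hx hx' c_A07pm_213_s1 cutA_nil (noExt_A)

noncomputable def cut_A07mm_001_s1 : Cut := Cut.of [[⟨4, 0, 0, 1449551462⟩]]

noncomputable def f_A07mm_001_s1 : ℕ → ℕ → ℕ → ℕ → Bool := onCell 0 536870912 0 536870912 587336777 62277027
    (rowF 0 true false false .up 0 0 1 (qsf 0 536870912 0 536870912 1) ndB0q0 ndB7q0 pcB1 cut_A07mm_001_s1 Ext.none)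

def k0_A07mm_001_s1 : ∃ t, chk3 f_A07mm_001_s1 t 1 1 1 = true :=
  ⟨(l 4), by decide +kernel⟩

theorem c_A07mm_001_s1 : CertF 0 536870912 0 536870912 587336777 62277027 true false false .up 0 0 1
    ndB0q0 ndB7q0 pcB1 cut_A07mm_001_s1 Ext.none :=
  certF0 (fam := true) (s1 := false) (s2 := false) (a := 0) (b := 0) (c := 1) (cn := .up) (n1 := ndB0q0) (n2 := ndB7q0) (pc := pcB1) (cut := cut_A07mm_001_s1) (xt := Ext.none) (P1 := 0) (W1 := 536870912) (P2 := 0) (W2 := 536870912) (P3 := 587336777) (W3 := 62277027)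
    rfl k0_A07mm_001_s1

theorem s_A07mm_001_s1 {κ x : ℝ} (hκ : κ * h0 = ken x) (hx : ((587336777 : ℕ) : ℝ) / S ≤ x)
    (hx' : x ≤ (((587336777 : ℕ) : ℝ) + (62277027 : ℕ)) / S) :
    AltA (VFD κ) PP tK tL pcB [⟨3, 0, 0, 1449551462⟩] 0 0 1 0 7 (sgb false) (sgb false) x :=
  strip_altAD (m := 1449551462) true rfl hκ (SH.κ0 hκ (SH.hx1 hx).le (SH.hx2 hx').le) (SH.hx1 hx).le (SH.hx2 hx') (covB00).cov (covB70).cov hx hx' c_A07mm_001_s1 cutA_nil (noExt_A)

noncomputable def cut_A07mm_011_s1 : Cut := Cut.of [[⟨4, 0, 0, 1449551462⟩]]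

noncomputable def f_A07mm_011_s1 : ℕ → ℕ → ℕ → ℕ → Bool := onCell 0 536870912 536870912 536870912 587336777 62277027
    (rowF 0 true false false .pnn 0 1 1 (qsf 0 536870912 536870912 536870912 1) ndB0q0 ndB7q1 pcB1 cut_A07mm_011_s1 Ext.none)

def k0_A07mm_011_s1 : ∃ t, chk3 f_A07mm_011_s1 t 1 1 1 = true :=
  ⟨(l 4), by decide +kernel⟩

theorem c_A07mm_011_s1 : CertF 0 536870912 536870912 536870912 587336777 62277027 true false false .pnn 0 1 1
    ndB0q0 ndB7q1 pcB1 cut_A07mm_011_s1 Ext.none :=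
  certF0 (fam := true) (s1 := false) (s2 := false) (a := 0) (b := 1) (c := 1) (cn := .pnn) (n1 := ndB0q0) (n2 := ndB7q1) (pc := pcB1) (cut := cut_A07mm_011_s1) (xt := Ext.none) (P1 := 0) (W1 := 536870912) (P2 := 536870912) (W2 := 536870912) (P3 := 587336777) (W3 := 62277027)
    rfl k0_A07mm_011_s1

theorem s_A07mm_011_s1 {κ x : ℝ} (hκ : κ * h0 = ken x) (hx : ((587336777 : ℕ) : ℝ) / S ≤ x)
    (hx' : x ≤ (((587336777 : ℕ) : ℝ) + (62277027 : ℕ)) / S) :
    AltA (VFD κ) PP tK tL pcB [⟨3, 0, 0, 1449551462⟩] 0 1 1 0 7 (sgb false) (sgb false) x :=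
  strip_altAD (m := 1449551462) true rfl hκ (SH.κ0 hκ (SH.hx1 hx).le (SH.hx2 hx').le) (SH.hx1 hx).le (SH.hx2 hx') (covB00).cov (covB71).cov hx hx' c_A07mm_011_s1 cutA_nil (noExt_A)

noncomputable def cut_A07mm_012_s1 : Cut := Cut.of [[⟨4, 0, 0, 1449551462⟩]]

noncomputable def f_A07mm_012_s1 : ℕ → ℕ → ℕ → ℕ → Bool := onCell 0 536870912 536870912 536870912 587336777 62277027
    (rowF 0 true false false .pnp 0 1 2 (qsf 0 536870912 536870912 536870912 2) ndB0q0 ndB7q1 pcB2 cut_A07mm_012_s1 Ext.none)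

def k0_A07mm_012_s1 : ∃ t, chk3 f_A07mm_012_s1 t 1 1 1 = true :=
  ⟨(l 4), by decide +kernel⟩

theorem c_A07mm_012_s1 : CertF 0 536870912 536870912 536870912 587336777 62277027 true false false .pnp 0 1 2
    ndB0q0 ndB7q1 pcB2 cut_A07mm_012_s1 Ext.none :=
  certF0 (fam := true) (s1 := false) (s2 := false) (a := 0) (b := 1) (c := 2) (cn := .pnp) (n1 := ndB0q0) (n2 := ndB7q1) (pc := pcB2) (cut := cut_A07mm_012_s1) (xt := Ext.none) (P1 := 0) (W1 := 536870912) (P2 := 536870912) (W2 := 536870912) (P3 := 587336777) (W3 := 62277027)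
    rfl k0_A07mm_012_s1

theorem s_A07mm_012_s1 {κ x : ℝ} (hκ : κ * h0 = ken x) (hx : ((587336777 : ℕ) : ℝ) / S ≤ x)
    (hx' : x ≤ (((587336777 : ℕ) : ℝ) + (62277027 : ℕ)) / S) :
    AltA (VFD κ) PP tK tL pcB [⟨3, 0, 0, 1449551462⟩] 0 1 2 0 7 (sgb false) (sgb false) x :=
  strip_altAD (m := 1449551462) true rfl hκ (SH.κ0 hκ (SH.hx1 hx).le (SH.hx2 hx').le) (SH.hx1 hx).le (SH.hx2 hx') (covB00).cov (covB71).cov hx hx' c_A07mm_012_s1 cutA_nil (noExt_A)

noncomputable def cut_A07mm_022_s1 : Cut := Cut.of [[⟨4, 0, 0, 1449551462⟩]]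

noncomputable def f_A07mm_022_s1 : ℕ → ℕ → ℕ → ℕ → Bool := onCell 0 536870912 1073741824 536870912 587336777 62277027
    (rowF 0 true false false .pp 0 2 2 (qsf 0 536870912 1073741824 536870912 2) ndB0q0 ndB7q2 pcB2 cut_A07mm_022_s1 Ext.none)

def k0_A07mm_022_s1 : ∃ t, chk3 f_A07mm_022_s1 t 1 1 1 = true :=
  ⟨(l 4), by decide +kernel⟩

theorem c_A07mm_022_s1 : CertF 0 536870912 1073741824 536870912 587336777 62277027 true false false .pp 0 2 2
    ndB0q0 ndB7q2 pcB2 cut_A07mm_022_s1 Ext.none :=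
  certF0 (fam := true) (s1 := false) (s2 := false) (a := 0) (b := 2) (c := 2) (cn := .pp) (n1 := ndB0q0) (n2 := ndB7q2) (pc := pcB2) (cut := cut_A07mm_022_s1) (xt := Ext.none) (P1 := 0) (W1 := 536870912) (P2 := 1073741824) (W2 := 536870912) (P3 := 587336777) (W3 := 62277027)
    rfl k0_A07mm_022_s1

theorem s_A07mm_022_s1 {κ x : ℝ} (hκ : κ * h0 = ken x) (hx : ((587336777 : ℕ) : ℝ) / S ≤ x)
    (hx' : x ≤ (((587336777 : ℕ) : ℝ) + (62277027 : ℕ)) / S) :
    AltA (VFD κ) PP tK tL pcB [⟨3, 0, 0, 1449551462⟩] 0 2 2 0 7 (sgb false) (sgb false) x :=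
  strip_altAD (m := 1449551462) true rfl hκ (SH.κ0 hκ (SH.hx1 hx).le (SH.hx2 hx').le) (SH.hx1 hx).le (SH.hx2 hx') (covB00).cov (covB72).cov hx hx' c_A07mm_022_s1 cutA_nil (noExt_A)

noncomputable def cut_A07mm_023_s1 : Cut := Cut.of [[⟨4, 0, 0, 1449551462⟩]]

noncomputable def f_A07mm_023_s1 : ℕ → ℕ → ℕ → ℕ → Bool := onCell 0 536870912 1073741824 536870912 587336777 62277027
    (rowF 0 true false false .up 0 2 3 (qsf 0 536870912 1073741824 536870912 3) ndB0q0 ndB7q2 pcB3 cut_A07mm_023_s1 Ext.none)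

def k0_A07mm_023_s1 : ∃ t, chk3 f_A07mm_023_s1 t 1 1 1 = true :=
  ⟨(l 4), by decide +kernel⟩

theorem c_A07mm_023_s1 : CertF 0 536870912 1073741824 536870912 587336777 62277027 true false false .up 0 2 3
    ndB0q0 ndB7q2 pcB3 cut_A07mm_023_s1 Ext.none :=
  certF0 (fam := true) (s1 := false) (s2 := false) (a := 0) (b := 2) (c := 3) (cn := .up) (n1 := ndB0q0) (n2 := ndB7q2) (pc := pcB3) (cut := cut_A07mm_023_s1) (xt := Ext.none) (P1 := 0) (W1 := 536870912) (P2 := 1073741824) (W2 := 536870912) (P3 := 587336777) (W3 := 62277027)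
    rfl k0_A07mm_023_s1

theorem s_A07mm_023_s1 {κ x : ℝ} (hκ : κ * h0 = ken x) (hx : ((587336777 : ℕ) : ℝ) / S ≤ x)
    (hx' : x ≤ (((587336777 : ℕ) : ℝ) + (62277027 : ℕ)) / S) :
    AltA (VFD κ) PP tK tL pcB [⟨3, 0, 0, 1449551462⟩] 0 2 3 0 7 (sgb false) (sgb false) x :=
  strip_altAD (m := 1449551462) true rfl hκ (SH.κ0 hκ (SH.hx1 hx).le (SH.hx2 hx').le) (SH.hx1 hx).le (SH.hx2 hx') (covB00).cov (covB72).cov hx hx' c_A07mm_023_s1 cutA_nil (noExt_A)

noncomputable def cut_A07mm_033_s1 : Cut := Cut.of [[⟨4, 0, 0, 1449551462⟩]]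

noncomputable def f_A07mm_033_s1 : ℕ → ℕ → ℕ → ℕ → Bool := onCell 0 536870912 0 1230186008 587336777 62277027
    (rowF 0 true false false .pnn 0 3 3 (qsf 0 536870912 0 1230186008 3) ndB0q0 ndB7q3 pcB3 cut_A07mm_033_s1 Ext.none)

def k0_A07mm_033_s1 : ∃ t, chk3 f_A07mm_033_s1 t 1 1 1 = true :=
  ⟨(l 4), by decide +kernel⟩

theorem c_A07mm_033_s1 : CertF 0 536870912 0 1230186008 587336777 62277027 true false false .pnn 0 3 3
    ndB0q0 ndB7q3 pcB3 cut_A07mm_033_s1 Ext.none :=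
  certF0 (fam := true) (s1 := false) (s2 := false) (a := 0) (b := 3) (c := 3) (cn := .pnn) (n1 := ndB0q0) (n2 := ndB7q3) (pc := pcB3) (cut := cut_A07mm_033_s1) (xt := Ext.none) (P1 := 0) (W1 := 536870912) (P2 := 0) (W2 := 1230186008) (P3 := 587336777) (W3 := 62277027)
    rfl k0_A07mm_033_s1

theorem s_A07mm_033_s1 {κ x : ℝ} (hκ : κ * h0 = ken x) (hx : ((587336777 : ℕ) : ℝ) / S ≤ x)
    (hx' : x ≤ (((587336777 : ℕ) : ℝ) + (62277027 : ℕ)) / S) :
    AltA (VFD κ) PP tK tL pcB [⟨3, 0, 0, 1449551462⟩] 0 3 3 0 7 (sgb false) (sgb false) x :=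
  strip_altAD (m := 1449551462) true rfl hκ (SH.κ0 hκ (SH.hx1 hx).le (SH.hx2 hx').le) (SH.hx1 hx).le (SH.hx2 hx') (covB00).cov (covB73).cov hx hx' c_A07mm_033_s1 cutA_nil (noExt_A)

noncomputable def cut_A07mm_101_s1 : Cut := Cut.of [[⟨4, 0, 0, 1449551462⟩]]

noncomputable def f_A07mm_101_s1 : ℕ → ℕ → ℕ → ℕ → Bool := onCell 536870912 536870912 0 536870912 587336777 62277027
    (rowF 0 true false false .npn 1 0 1 (qsf 536870912 536870912 0 536870912 1) ndB0q1 ndB7q0 pcB1 cut_A07mm_101_s1 Ext.none)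

def k0_A07mm_101_s1 : ∃ t, chk3 f_A07mm_101_s1 t 1 1 1 = true :=
  ⟨(l 4), by decide +kernel⟩

theorem c_A07mm_101_s1 : CertF 536870912 536870912 0 536870912 587336777 62277027 true false false .npn 1 0 1
    ndB0q1 ndB7q0 pcB1 cut_A07mm_101_s1 Ext.none :=
  certF0 (fam := true) (s1 := false) (s2 := false) (a := 1) (b := 0) (c := 1) (cn := .npn) (n1 := ndB0q1) (n2 := ndB7q0) (pc := pcB1) (cut := cut_A07mm_101_s1) (xt := Ext.none) (P1 := 536870912) (W1 := 536870912) (P2 := 0) (W2 := 536870912) (P3 := 587336777) (W3 := 62277027)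
    rfl k0_A07mm_101_s1

theorem s_A07mm_101_s1 {κ x : ℝ} (hκ : κ * h0 = ken x) (hx : ((587336777 : ℕ) : ℝ) / S ≤ x)
    (hx' : x ≤ (((587336777 : ℕ) : ℝ) + (62277027 : ℕ)) / S) :
    AltA (VFD κ) PP tK tL pcB [⟨3, 0, 0, 1449551462⟩] 1 0 1 0 7 (sgb false) (sgb false) x :=
  strip_altAD (m := 1449551462) true rfl hκ (SH.κ0 hκ (SH.hx1 hx).le (SH.hx2 hx').le) (SH.hx1 hx).le (SH.hx2 hx') (covB01).cov (covB70).cov hx hx' c_A07mm_101_s1 cutA_nil (noExt_A)

noncomputable def cut_A07mm_102_s1 : Cut := Cut.of [[⟨4, 0, 0, 1449551462⟩]]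

noncomputable def f_A07mm_102_s1 : ℕ → ℕ → ℕ → ℕ → Bool := onCell 536870912 536870912 0 536870912 587336777 62277027
    (rowF 0 true false false .npp 1 0 2 (qsf 536870912 536870912 0 536870912 2) ndB0q1 ndB7q0 pcB2 cut_A07mm_102_s1 Ext.none)

def k0_A07mm_102_s1 : ∃ t, chk3 f_A07mm_102_s1 t 1 1 1 = true :=
  ⟨(l 4), by decide +kernel⟩

theorem c_A07mm_102_s1 : CertF 536870912 536870912 0 536870912 587336777 62277027 true false false .npp 1 0 2
    ndB0q1 ndB7q0 pcB2 cut_A07mm_102_s1 Ext.none :=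
  certF0 (fam := true) (s1 := false) (s2 := false) (a := 1) (b := 0) (c := 2) (cn := .npp) (n1 := ndB0q1) (n2 := ndB7q0) (pc := pcB2) (cut := cut_A07mm_102_s1) (xt := Ext.none) (P1 := 536870912) (W1 := 536870912) (P2 := 0) (W2 := 536870912) (P3 := 587336777) (W3 := 62277027)
    rfl k0_A07mm_102_s1

theorem s_A07mm_102_s1 {κ x : ℝ} (hκ : κ * h0 = ken x) (hx : ((587336777 : ℕ) : ℝ) / S ≤ x)
    (hx' : x ≤ (((587336777 : ℕ) : ℝ) + (62277027 : ℕ)) / S) :
    AltA (VFD κ) PP tK tL pcB [⟨3, 0, 0, 1449551462⟩] 1 0 2 0 7 (sgb false) (sgb false) x :=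
  strip_altAD (m := 1449551462) true rfl hκ (SH.κ0 hκ (SH.hx1 hx).le (SH.hx2 hx').le) (SH.hx1 hx).le (SH.hx2 hx') (covB01).cov (covB70).cov hx hx' c_A07mm_102_s1 cutA_nil (noExt_A)

noncomputable def cut_A07mm_112_s1 : Cut := Cut.of [[⟨4, 0, 0, 1449551462⟩]]

noncomputable def f_A07mm_112_s1 : ℕ → ℕ → ℕ → ℕ → Bool := onCell 536870912 536870912 536870912 536870912 587336777 62277027
    (rowF 0 true false false .dn 1 1 2 (qsf 536870912 536870912 536870912 536870912 2) ndB0q1 ndB7q1 pcB2 cut_A07mm_112_s1 Ext.none)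

def k0_A07mm_112_s1 : ∃ t, chk3 f_A07mm_112_s1 t 1 1 1 = true :=
  ⟨(l 4), by decide +kernel⟩

theorem c_A07mm_112_s1 : CertF 536870912 536870912 536870912 536870912 587336777 62277027 true false false .dn 1 1 2
    ndB0q1 ndB7q1 pcB2 cut_A07mm_112_s1 Ext.none :=
  certF0 (fam := true) (s1 := false) (s2 := false) (a := 1) (b := 1) (c := 2) (cn := .dn) (n1 := ndB0q1) (n2 := ndB7q1) (pc := pcB2) (cut := cut_A07mm_112_s1) (xt := Ext.none) (P1 := 536870912) (W1 := 536870912) (P2 := 536870912) (W2 := 536870912) (P3 := 587336777) (W3 := 62277027)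
    rfl k0_A07mm_112_s1

theorem s_A07mm_112_s1 {κ x : ℝ} (hκ : κ * h0 = ken x) (hx : ((587336777 : ℕ) : ℝ) / S ≤ x)
    (hx' : x ≤ (((587336777 : ℕ) : ℝ) + (62277027 : ℕ)) / S) :
    AltA (VFD κ) PP tK tL pcB [⟨3, 0, 0, 1449551462⟩] 1 1 2 0 7 (sgb false) (sgb false) x :=
  strip_altAD (m := 1449551462) true rfl hκ (SH.κ0 hκ (SH.hx1 hx).le (SH.hx2 hx').le) (SH.hx1 hx).le (SH.hx2 hx') (covB01).cov (covB71).cov hx hx' c_A07mm_112_s1 cutA_nil (noExt_A)

noncomputable def cut_A07mm_113_s1 : Cut := Cut.of [[⟨4, 0, 0, 1449551462⟩]]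

noncomputable def f_A07mm_113_s1 : ℕ → ℕ → ℕ → ℕ → Bool := onCell 536870912 536870912 536870912 536870912 587336777 62277027
    (rowF 0 true false false .nn 1 1 3 (qsf 536870912 536870912 536870912 536870912 3) ndB0q1 ndB7q1 pcB3 cut_A07mm_113_s1 Ext.none)

def k0_A07mm_113_s1 : ∃ t, chk3 f_A07mm_113_s1 t 1 1 1 = true :=
  ⟨(l 4), by decide +kernel⟩

theorem c_A07mm_113_s1 : CertF 536870912 536870912 536870912 536870912 587336777 62277027 true false false .nn 1 1 3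
    ndB0q1 ndB7q1 pcB3 cut_A07mm_113_s1 Ext.none :=
  certF0 (fam := true) (s1 := false) (s2 := false) (a := 1) (b := 1) (c := 3) (cn := .nn) (n1 := ndB0q1) (n2 := ndB7q1) (pc := pcB3) (cut := cut_A07mm_113_s1) (xt := Ext.none) (P1 := 536870912) (W1 := 536870912) (P2 := 536870912) (W2 := 536870912) (P3 := 587336777) (W3 := 62277027)
    rfl k0_A07mm_113_s1

theorem s_A07mm_113_s1 {κ x : ℝ} (hκ : κ * h0 = ken x) (hx : ((587336777 : ℕ) : ℝ) / S ≤ x)
    (hx' : x ≤ (((587336777 : ℕ) : ℝ) + (62277027 : ℕ)) / S) :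
    AltA (VFD κ) PP tK tL pcB [⟨3, 0, 0, 1449551462⟩] 1 1 3 0 7 (sgb false) (sgb false) x :=
  strip_altAD (m := 1449551462) true rfl hκ (SH.κ0 hκ (SH.hx1 hx).le (SH.hx2 hx').le) (SH.hx1 hx).le (SH.hx2 hx') (covB01).cov (covB71).cov hx hx' c_A07mm_113_s1 cutA_nil (noExt_A)

noncomputable def cut_A07mm_123_s1 : Cut := Cut.of [[⟨4, 0, 0, 1449551462⟩]]

noncomputable def f_A07mm_123_s1 : ℕ → ℕ → ℕ → ℕ → Bool := onCell 536870912 536870912 1073741824 536870912 587336777 62277027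
    (rowF 0 true false false .npn 1 2 3 (qsf 536870912 536870912 1073741824 536870912 3) ndB0q1 ndB7q2 pcB3 cut_A07mm_123_s1 Ext.none)

def k0_A07mm_123_s1 : ∃ t, chk3 f_A07mm_123_s1 t 1 1 1 = true :=
  ⟨(l 4), by decide +kernel⟩

theorem c_A07mm_123_s1 : CertF 536870912 536870912 1073741824 536870912 587336777 62277027 true false false .npn 1 2 3
    ndB0q1 ndB7q2 pcB3 cut_A07mm_123_s1 Ext.none :=
  certF0 (fam := true) (s1 := false) (s2 := false) (a := 1) (b := 2) (c := 3) (cn := .npn) (n1 := ndB0q1) (n2 := ndB7q2) (pc := pcB3) (cut := cut_A07mm_123_s1) (xt := Ext.none) (P1 := 536870912) (W1 := 536870912) (P2 := 1073741824) (W2 := 536870912) (P3 := 587336777) (W3 := 62277027)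
    rfl k0_A07mm_123_s1

theorem s_A07mm_123_s1 {κ x : ℝ} (hκ : κ * h0 = ken x) (hx : ((587336777 : ℕ) : ℝ) / S ≤ x)
    (hx' : x ≤ (((587336777 : ℕ) : ℝ) + (62277027 : ℕ)) / S) :
    AltA (VFD κ) PP tK tL pcB [⟨3, 0, 0, 1449551462⟩] 1 2 3 0 7 (sgb false) (sgb false) x :=
  strip_altAD (m := 1449551462) true rfl hκ (SH.κ0 hκ (SH.hx1 hx).le (SH.hx2 hx').le) (SH.hx1 hx).le (SH.hx2 hx') (covB01).cov (covB72).cov hx hx' c_A07mm_123_s1 cutA_nil (noExt_A)

noncomputable def cut_A07mm_133_s1 : Cut := Cut.of [[⟨4, 0, 0, 1449551462⟩]]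

noncomputable def f_A07mm_133_s1 : ℕ → ℕ → ℕ → ℕ → Bool := onCell 536870912 536870912 0 1230186008 587336777 62277027
    (rowF 0 true false false .dn 1 3 3 (qsf 536870912 536870912 0 1230186008 3) ndB0q1 ndB7q3 pcB3 cut_A07mm_133_s1 Ext.none)

def k0_A07mm_133_s1 : ∃ t, chk3 f_A07mm_133_s1 t 1 1 1 = true :=
  ⟨(l 4), by decide +kernel⟩

theorem c_A07mm_133_s1 : CertF 536870912 536870912 0 1230186008 587336777 62277027 true false false .dn 1 3 3
    ndB0q1 ndB7q3 pcB3 cut_A07mm_133_s1 Ext.none :=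
  certF0 (fam := true) (s1 := false) (s2 := false) (a := 1) (b := 3) (c := 3) (cn := .dn) (n1 := ndB0q1) (n2 := ndB7q3) (pc := pcB3) (cut := cut_A07mm_133_s1) (xt := Ext.none) (P1 := 536870912) (W1 := 536870912) (P2 := 0) (W2 := 1230186008) (P3 := 587336777) (W3 := 62277027)
    rfl k0_A07mm_133_s1

theorem s_A07mm_133_s1 {κ x : ℝ} (hκ : κ * h0 = ken x) (hx : ((587336777 : ℕ) : ℝ) / S ≤ x)
    (hx' : x ≤ (((587336777 : ℕ) : ℝ) + (62277027 : ℕ)) / S) :
    AltA (VFD κ) PP tK tL pcB [⟨3, 0, 0, 1449551462⟩] 1 3 3 0 7 (sgb false) (sgb false) x :=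
  strip_altAD (m := 1449551462) true rfl hκ (SH.κ0 hκ (SH.hx1 hx).le (SH.hx2 hx').le) (SH.hx1 hx).le (SH.hx2 hx') (covB01).cov (covB73).cov hx hx' c_A07mm_133_s1 cutA_nil (noExt_A)

noncomputable def cut_A07mm_202_s1 : Cut := Cut.of [[⟨4, 0, 0, 1449551462⟩]]

noncomputable def f_A07mm_202_s1 : ℕ → ℕ → ℕ → ℕ → Bool := onCell 0 536870912 0 536870912 587336777 62277027
    (rowF 0 true false false .pp 2 0 2 (qsf 0 536870912 0 536870912 2) ndB0q2 ndB7q0 pcB2 cut_A07mm_202_s1 Ext.none)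

def k0_A07mm_202_s1 : ∃ t, chk3 f_A07mm_202_s1 t 1 1 1 = true :=
  ⟨(l 4), by decide +kernel⟩

theorem c_A07mm_202_s1 : CertF 0 536870912 0 536870912 587336777 62277027 true false false .pp 2 0 2
    ndB0q2 ndB7q0 pcB2 cut_A07mm_202_s1 Ext.none :=
  certF0 (fam := true) (s1 := false) (s2 := false) (a := 2) (b := 0) (c := 2) (cn := .pp) (n1 := ndB0q2) (n2 := ndB7q0) (pc := pcB2) (cut := cut_A07mm_202_s1) (xt := Ext.none) (P1 := 0) (W1 := 536870912) (P2 := 0) (W2 := 536870912) (P3 := 587336777) (W3 := 62277027)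
    rfl k0_A07mm_202_s1

theorem s_A07mm_202_s1 {κ x : ℝ} (hκ : κ * h0 = ken x) (hx : ((587336777 : ℕ) : ℝ) / S ≤ x)
    (hx' : x ≤ (((587336777 : ℕ) : ℝ) + (62277027 : ℕ)) / S) :
    AltA (VFD κ) PP tK tL pcB [⟨3, 0, 0, 1449551462⟩] 2 0 2 0 7 (sgb false) (sgb false) x :=
  strip_altAD (m := 1449551462) true rfl hκ (SH.κ0 hκ (SH.hx1 hx).le (SH.hx2 hx').le) (SH.hx1 hx).le (SH.hx2 hx') (covB02).cov (covB70).cov hx hx' c_A07mm_202_s1 cutA_nil (noExt_A)

noncomputable def cut_A07mm_203_s1 : Cut := Cut.of [[⟨4, 0, 0, 1449551462⟩]]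

noncomputable def f_A07mm_203_s1 : ℕ → ℕ → ℕ → ℕ → Bool := onCell 0 536870912 0 536870912 587336777 62277027
    (rowF 0 true false false .up 2 0 3 (qsf 0 536870912 0 536870912 3) ndB0q2 ndB7q0 pcB3 cut_A07mm_203_s1 Ext.none)

def k0_A07mm_203_s1 : ∃ t, chk3 f_A07mm_203_s1 t 1 1 1 = true :=
  ⟨(l 4), by decide +kernel⟩

theorem c_A07mm_203_s1 : CertF 0 536870912 0 536870912 587336777 62277027 true false false .up 2 0 3
    ndB0q2 ndB7q0 pcB3 cut_A07mm_203_s1 Ext.none :=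
  certF0 (fam := true) (s1 := false) (s2 := false) (a := 2) (b := 0) (c := 3) (cn := .up) (n1 := ndB0q2) (n2 := ndB7q0) (pc := pcB3) (cut := cut_A07mm_203_s1) (xt := Ext.none) (P1 := 0) (W1 := 536870912) (P2 := 0) (W2 := 536870912) (P3 := 587336777) (W3 := 62277027)
    rfl k0_A07mm_203_s1

theorem s_A07mm_203_s1 {κ x : ℝ} (hκ : κ * h0 = ken x) (hx : ((587336777 : ℕ) : ℝ) / S ≤ x)
    (hx' : x ≤ (((587336777 : ℕ) : ℝ) + (62277027 : ℕ)) / S) :
    AltA (VFD κ) PP tK tL pcB [⟨3, 0, 0, 1449551462⟩] 2 0 3 0 7 (sgb false) (sgb false) x :=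
  strip_altAD (m := 1449551462) true rfl hκ (SH.κ0 hκ (SH.hx1 hx).le (SH.hx2 hx').le) (SH.hx1 hx).le (SH.hx2 hx') (covB02).cov (covB70).cov hx hx' c_A07mm_203_s1 cutA_nil (noExt_A)

noncomputable def cut_A07mm_213_s1 : Cut := Cut.of [[⟨4, 0, 0, 1449551462⟩]]

noncomputable def f_A07mm_213_s1 : ℕ → ℕ → ℕ → ℕ → Bool := onCell 0 536870912 536870912 536870912 587336777 62277027
    (rowF 0 true false false .pnn 2 1 3 (qsf 0 536870912 536870912 536870912 3) ndB0q2 ndB7q1 pcB3 cut_A07mm_213_s1 Ext.none)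

def k0_A07mm_213_s1 : ∃ t, chk3 f_A07mm_213_s1 t 1 1 1 = true :=
  ⟨(l 4), by decide +kernel⟩

theorem c_A07mm_213_s1 : CertF 0 536870912 536870912 536870912 587336777 62277027 true false false .pnn 2 1 3
    ndB0q2 ndB7q1 pcB3 cut_A07mm_213_s1 Ext.none :=
  certF0 (fam := true) (s1 := false) (s2 := false) (a := 2) (b := 1) (c := 3) (cn := .pnn) (n1 := ndB0q2) (n2 := ndB7q1) (pc := pcB3) (cut := cut_A07mm_213_s1) (xt := Ext.none) (P1 := 0) (W1 := 536870912) (P2 := 536870912) (W2 := 536870912) (P3 := 587336777) (W3 := 62277027)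
    rfl k0_A07mm_213_s1

theorem s_A07mm_213_s1 {κ x : ℝ} (hκ : κ * h0 = ken x) (hx : ((587336777 : ℕ) : ℝ) / S ≤ x)
    (hx' : x ≤ (((587336777 : ℕ) : ℝ) + (62277027 : ℕ)) / S) :
    AltA (VFD κ) PP tK tL pcB [⟨3, 0, 0, 1449551462⟩] 2 1 3 0 7 (sgb false) (sgb false) x :=
  strip_altAD (m := 1449551462) true rfl hκ (SH.κ0 hκ (SH.hx1 hx).le (SH.hx2 hx').le) (SH.hx1 hx).le (SH.hx2 hx') (covB02).cov (covB71).cov hx hx' c_A07mm_213_s1 cutA_nil (noExt_A)

noncomputable def cut_B00pp_001_s1 : Cut := Cut.of [[⟨4, 0, 0, 1449551462⟩]]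

noncomputable def f_B00pp_001_s1 : ℕ → ℕ → ℕ → ℕ → Bool := onCell 0 536870912 0 536870912 587336777 62277027
    (rowF 1 false true true .up 0 0 1 (qsf 0 536870912 536870912 536870912 0) ndB0q0 ndB0q1 pcB0 cut_B00pp_001_s1 Ext.none)

def k0_B00pp_001_s1 : ∃ t, chk3 f_B00pp_001_s1 t 1 1 1 = true :=
  ⟨(l 3), by decide +kernel⟩

theorem c_B00pp_001_s1 : CertF 0 536870912 536870912 536870912 587336777 62277027 false true true .up 0 0 1
    ndB0q0 ndB0q1 pcB0 cut_B00pp_001_s1 Ext.none :=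
  certF1 (fam := false) (s1 := true) (s2 := true) (a := 0) (b := 0) (c := 1) (cn := .up) (n1 := ndB0q0) (n2 := ndB0q1) (pc := pcB0) (cut := cut_B00pp_001_s1) (xt := Ext.none) (P1 := 0) (W1 := 536870912) (P2 := 536870912) (W2 := 536870912) (P3 := 587336777) (W3 := 62277027)
    rfl (fun _ => rfl) k0_B00pp_001_s1

theorem s_B00pp_001_s1 {κ x : ℝ} (hκ : κ * h0 = ken x) (hx : ((587336777 : ℕ) : ℝ) / S ≤ x)
    (hx' : x ≤ (((587336777 : ℕ) : ℝ) + (62277027 : ℕ)) / S) :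
    AltB (VFD κ) PP tK tL pcB [⟨3, 0, 0, 1449551462⟩] 0 0 1 0 0 (sgb true) (sgb true) x :=
  strip_altBD (m := 1449551462) true rfl hκ (SH.κ0 hκ (SH.hx1 hx).le (SH.hx2 hx').le) (SH.hx1 hx).le (SH.hx2 hx') (covB00).cov (covB01).cov hx hx' c_B00pp_001_s1 cutB_nil (noExt_B)

noncomputable def cut_B00pp_001_s3 : Cut := Cut.of [[⟨3, 0, 0, 2845415833⟩]]

noncomputable def f_B00pp_001_s3 : ℕ → ℕ → ℕ → ℕ → Bool := onCell 0 536870912 536870912 536870912 587336777 62277027
    (rowF 0 false true true .up 0 0 1 (qsf 0 536870912 536870912 536870912 0) ndB0q0 ndB0q1 pcB0 cut_B00pp_001_s3 Ext.none)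

def k0_B00pp_001_s3 : ∃ t, chk3 f_B00pp_001_s3 t 1 1 1 = true :=
  ⟨(l 6), by decide +kernel⟩

theorem c_B00pp_001_s3 : CertF 0 536870912 536870912 536870912 587336777 62277027 false true true .up 0 0 1
    ndB0q0 ndB0q1 pcB0 cut_B00pp_001_s3 Ext.none :=
  certF0 (fam := false) (s1 := true) (s2 := true) (a := 0) (b := 0) (c := 1) (cn := .up) (n1 := ndB0q0) (n2 := ndB0q1) (pc := pcB0) (cut := cut_B00pp_001_s3) (xt := Ext.none) (P1 := 0) (W1 := 536870912) (P2 := 536870912) (W2 := 536870912) (P3 := 587336777) (W3 := 62277027)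
    rfl k0_B00pp_001_s3

theorem s_B00pp_001_s3 {κ x : ℝ} (hκ : κ * h0 = ken x) (hx : ((587336777 : ℕ) : ℝ) / S ≤ x)
    (hx' : x ≤ (((587336777 : ℕ) : ℝ) + (62277027 : ℕ)) / S) :
    AltB (VFD κ) PP tK tL pcB [⟨4, 0, 0, 2845415833⟩] 0 0 1 0 0 (sgb true) (sgb true) x :=
  strip_altBD (m := 2845415833) false rfl hκ (SH.κ0 hκ (SH.hx1 hx).le (SH.hx2 hx').le) (SH.hx1 hx).le (SH.hx2 hx') (covB00).cov (covB01).cov hx hx' c_B00pp_001_s3 cutB_nil (noExt_B)

noncomputable def cut_B00pp_011_s1 : Cut := Cut.of [[⟨4, 0, 0, 1449551462⟩], [⟨0, 0, 0, 67108864⟩, ⟨1, 1, 0, 67108864⟩, ⟨2, 1, 0, 67108864⟩]]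

noncomputable def f_B00pp_011_s1 : ℕ → ℕ → ℕ → ℕ → Bool := onCell 536870912 536870912 536870912 536870912 587336777 62277027
    (rowF 2 false true true .pnn 0 1 1 (qsf 0 536870912 536870912 536870912 1) ndB0q0 ndB0q1 pcB1 cut_B00pp_011_s1 Ext.none)

def k0_B00pp_011_s1 : ∃ t, chk3 f_B00pp_011_s1 t 1 1 1 = true :=
  ⟨(a (l 3) (b (l 3) (a (l 3) (b (l 3) (a (l 3) (b (l 3) (b (l 3) (a (l 3) (l 14))))))))), by decide +kernel⟩

theorem c_B00pp_011_s1 : CertF 0 536870912 536870912 536870912 587336777 62277027 false true true .pnn 0 1 1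
    ndB0q0 ndB0q1 pcB1 cut_B00pp_011_s1 Ext.none :=
  certF2 (fam := false) (s1 := true) (s2 := true) (a := 0) (b := 1) (c := 1) (cn := .pnn) (n1 := ndB0q0) (n2 := ndB0q1) (pc := pcB1) (cut := cut_B00pp_011_s1) (xt := Ext.none) (P1 := 0) (W1 := 536870912) (P2 := 536870912) (W2 := 536870912) (P3 := 587336777) (W3 := 62277027)
    rfl (fun _ => rfl) k0_B00pp_011_s1

theorem s_B00pp_011_s1 {κ x : ℝ} (hκ : κ * h0 = ken x) (hx : ((587336777 : ℕ) : ℝ) / S ≤ x)
    (hx' : x ≤ (((587336777 : ℕ) : ℝ) + (62277027 : ℕ)) / S)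
    (H : CutB (VFD κ) PP tK tL pcB (Cut.of [[⟨0, 0, 0, 67108864⟩, ⟨1, 1, 0, 67108864⟩, ⟨2, 1, 0, 67108864⟩]]) 0 1 1 0 0 (sgb true) (sgb true) x) :
    AltB (VFD κ) PP tK tL pcB [⟨3, 0, 0, 1449551462⟩] 0 1 1 0 0 (sgb true) (sgb true) x :=
  strip_altBD (m := 1449551462) true rfl hκ (SH.κ0 hκ (SH.hx1 hx).le (SH.hx2 hx').le) (SH.hx1 hx).le (SH.hx2 hx') (covB00).cov (covB01).cov hx hx' c_B00pp_011_s1 H (noExt_B)

noncomputable def cut_B00pp_011_s3 : Cut := Cut.of [[⟨3, 0, 0, 2845415833⟩], [⟨0, 0, 0, 67108864⟩, ⟨1, 1, 0, 67108864⟩, ⟨2, 1, 0, 67108864⟩]]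

noncomputable def f_B00pp_011_s3 : ℕ → ℕ → ℕ → ℕ → Bool := onCell 0 536870912 536870912 536870912 587336777 62277027
    (rowF 0 false true true .pnn 0 1 1 (qsf 0 536870912 536870912 536870912 1) ndB0q0 ndB0q1 pcB1 cut_B00pp_011_s3 Ext.none)

def k0_B00pp_011_s3 : ∃ t, chk3 f_B00pp_011_s3 t 1 1 1 = true :=
  ⟨(l 6), by decide +kernel⟩

theorem c_B00pp_011_s3 : CertF 0 536870912 536870912 536870912 587336777 62277027 false true true .pnn 0 1 1
    ndB0q0 ndB0q1 pcB1 cut_B00pp_011_s3 Ext.none :=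
  certF0 (fam := false) (s1 := true) (s2 := true) (a := 0) (b := 1) (c := 1) (cn := .pnn) (n1 := ndB0q0) (n2 := ndB0q1) (pc := pcB1) (cut := cut_B00pp_011_s3) (xt := Ext.none) (P1 := 0) (W1 := 536870912) (P2 := 536870912) (W2 := 536870912) (P3 := 587336777) (W3 := 62277027)
    rfl k0_B00pp_011_s3

theorem s_B00pp_011_s3 {κ x : ℝ} (hκ : κ * h0 = ken x) (hx : ((587336777 : ℕ) : ℝ) / S ≤ x)
    (hx' : x ≤ (((587336777 : ℕ) : ℝ) + (62277027 : ℕ)) / S)
    (H : CutB (VFD κ) PP tK tL pcB (Cut.of [[⟨0, 0, 0, 67108864⟩, ⟨1, 1, 0, 67108864⟩, ⟨2, 1, 0, 67108864⟩]]) 0 1 1 0 0 (sgb true) (sgb true) x) :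
    AltB (VFD κ) PP tK tL pcB [⟨4, 0, 0, 2845415833⟩] 0 1 1 0 0 (sgb true) (sgb true) x :=
  strip_altBD (m := 2845415833) false rfl hκ (SH.κ0 hκ (SH.hx1 hx).le (SH.hx2 hx').le) (SH.hx1 hx).le (SH.hx2 hx') (covB00).cov (covB01).cov hx hx' c_B00pp_011_s3 H (noExt_B)

end Pool.Agent.Strip051.G.I5470_6050.Tab.St.C
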