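import Pool.Agent.Strip051.G.I5470_6050.St1
import Pool.Agent.Strip051.G.I5470_6050.St2
import Pool.Agent.Strip051.G.I5470_6050.St3
import Pool.Agent.Strip051.G.I5470_6050.St4
import Pool.Agent.Strip051.G.I5470_6050.St5
import Pool.Agent.Strip051.G.I5470_6050.St6
import Pool.Agent.Strip051.G.I5470_6050.St7
import Pool.Agent.Strip051.G.I5470_6050.St8
import Pool.Agent.Strip051.G.I5470_6050.StH
import Pool.Agent.Strip051.G.I5470_6050.StF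

/-! # Unit strips 9 (generated) -/

set_option linter.all false
set_option maxRecDepth 100000

namespace Pool.Agent.Strip051.G.I5470_6050.Tab.St.C

open Pool.Agent.Strip051.PB Pool.Agent.Strip051.PB.T Pool.Agent.StripNear Pool.Agent.Strip051.LC
open Pool.Agent.Strip051.G.I5470_6050.Tab Pool.Agent.Strip051.G.I5470_6050.Tab.St

theorem t859_A00pm_012_s1 : ∃ t, chk3 f_A00pm_012_s1 t 3 6 1 = true := ex3_a k856_A00pm_012_s1 k857_A00pm_012_s1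

theorem t860_A00pm_012_s1 : ∃ t, chk3 f_A00pm_012_s1 t 3 3 1 = true := ex3_b t859_A00pm_012_s1 k858_A00pm_012_s1

theorem t861_A00pm_012_s1 : ∃ t, chk3 f_A00pm_012_s1 t 1 3 1 = true := ex3_a k855_A00pm_012_s1 t860_A00pm_012_s1

theorem t862_A00pm_012_s1 : ∃ t, chk3 f_A00pm_012_s1 t 13 11 1 = true := ex3_b k852_A00pm_012_s1 k853_A00pm_012_s1

theorem t863_A00pm_012_s1 : ∃ t, chk3 f_A00pm_012_s1 t 6 11 1 = true := ex3_a k851_A00pm_012_s1 t862_A00pm_012_s1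

theorem t864_A00pm_012_s1 : ∃ t, chk3 f_A00pm_012_s1 t 3 11 1 = true := ex3_a t863_A00pm_012_s1 k854_A00pm_012_s1

theorem t865_A00pm_012_s1 : ∃ t, chk3 f_A00pm_012_s1 t 15 21 1 = true := ex3_a k849_A00pm_012_s1 k850_A00pm_012_s1

theorem t866_A00pm_012_s1 : ∃ t, chk3 f_A00pm_012_s1 t 28 21 1 = true := ex3_a k846_A00pm_012_s1 k847_A00pm_012_s1

theorem t867_A00pm_012_s1 : ∃ t, chk3 f_A00pm_012_s1 t 14 21 1 = true := ex3_a t866_A00pm_012_s1 k848_A00pm_012_s1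

theorem t868_A00pm_012_s1 : ∃ t, chk3 f_A00pm_012_s1 t 7 21 1 = true := ex3_a t867_A00pm_012_s1 t865_A00pm_012_s1

theorem t869_A00pm_012_s1 : ∃ t, chk3 f_A00pm_012_s1 t 53 21 1 = true := ex3_b k843_A00pm_012_s1 k844_A00pm_012_s1

theorem t870_A00pm_012_s1 : ∃ t, chk3 f_A00pm_012_s1 t 26 21 1 = true := ex3_a k842_A00pm_012_s1 t869_A00pm_012_s1

theorem t871_A00pm_012_s1 : ∃ t, chk3 f_A00pm_012_s1 t 13 21 1 = true := ex3_a t870_A00pm_012_s1 k845_A00pm_012_s1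

theorem t872_A00pm_012_s1 : ∃ t, chk3 f_A00pm_012_s1 t 6 21 1 = true := ex3_a k841_A00pm_012_s1 t871_A00pm_012_s1

theorem t873_A00pm_012_s1 : ∃ t, chk3 f_A00pm_012_s1 t 3 21 1 = true := ex3_a t872_A00pm_012_s1 t868_A00pm_012_s1

theorem t874_A00pm_012_s1 : ∃ t, chk3 f_A00pm_012_s1 t 15 2682 1 = true := ex3_b k837_A00pm_012_s1 k838_A00pm_012_s1

theorem t875_A00pm_012_s1 : ∃ t, chk3 f_A00pm_012_s1 t 15 1341 1 = true := ex3_b t874_A00pm_012_s1 k839_A00pm_012_s1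

theorem t876_A00pm_012_s1 : ∃ t, chk3 f_A00pm_012_s1 t 122 21453 1 = true := ex3_a k832_A00pm_012_s1 k833_A00pm_012_s1

theorem t877_A00pm_012_s1 : ∃ t, chk3 f_A00pm_012_s1 t 61 21453 1 = true := ex3_a t876_A00pm_012_s1 k834_A00pm_012_s1

theorem t878_A00pm_012_s1 : ∃ t, chk3 f_A00pm_012_s1 t 30 21453 1 = true := ex3_a k831_A00pm_012_s1 t877_A00pm_012_s1

theorem t879_A00pm_012_s1 : ∃ t, chk3 f_A00pm_012_s1 t 15 21453 1 = true := ex3_a t878_A00pm_012_s1 k835_A00pm_012_s1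

theorem t880_A00pm_012_s1 : ∃ t, chk3 f_A00pm_012_s1 t 15 10726 1 = true := ex3_b k830_A00pm_012_s1 t879_A00pm_012_s1

theorem t881_A00pm_012_s1 : ∃ t, chk3 f_A00pm_012_s1 t 15 5363 1 = true := ex3_b t880_A00pm_012_s1 k836_A00pm_012_s1

theorem t882_A00pm_012_s1 : ∃ t, chk3 f_A00pm_012_s1 t 15 5362 1 = true := ex3_a k828_A00pm_012_s1 k829_A00pm_012_s1

theorem t883_A00pm_012_s1 : ∃ t, chk3 f_A00pm_012_s1 t 15 2681 1 = true := ex3_b t882_A00pm_012_s1 t881_A00pm_012_s1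

theorem t884_A00pm_012_s1 : ∃ t, chk3 f_A00pm_012_s1 t 31 2680 1 = true := ex3_a k826_A00pm_012_s1 k827_A00pm_012_s1

theorem t885_A00pm_012_s1 : ∃ t, chk3 f_A00pm_012_s1 t 15 2680 1 = true := ex3_a k825_A00pm_012_s1 t884_A00pm_012_s1

theorem t886_A00pm_012_s1 : ∃ t, chk3 f_A00pm_012_s1 t 15 1340 1 = true := ex3_b t885_A00pm_012_s1 t883_A00pm_012_s1

theorem t887_A00pm_012_s1 : ∃ t, chk3 f_A00pm_012_s1 t 15 670 1 = true := ex3_b t886_A00pm_012_s1 t875_A00pm_012_s1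

theorem t888_A00pm_012_s1 : ∃ t, chk3 f_A00pm_012_s1 t 15 335 1 = true := ex3_b t887_A00pm_012_s1 k840_A00pm_012_s1

theorem t889_A00pm_012_s1 : ∃ t, chk3 f_A00pm_012_s1 t 127 669 3 = true := ex3_b k823_A00pm_012_s1 k824_A00pm_012_s1

theorem t890_A00pm_012_s1 : ∃ t, chk3 f_A00pm_012_s1 t 127 669 2 = true := ex3_b k821_A00pm_012_s1 k822_A00pm_012_s1

theorem t891_A00pm_012_s1 : ∃ t, chk3 f_A00pm_012_s1 t 127 669 1 = true := ex3_c t890_A00pm_012_s1 t889_A00pm_012_s1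

theorem t892_A00pm_012_s1 : ∃ t, chk3 f_A00pm_012_s1 t 63 669 1 = true := ex3_a k820_A00pm_012_s1 t891_A00pm_012_s1

theorem t893_A00pm_012_s1 : ∃ t, chk3 f_A00pm_012_s1 t 125 669 1 = true := ex3_c k818_A00pm_012_s1 k819_A00pm_012_s1

theorem t894_A00pm_012_s1 : ∃ t, chk3 f_A00pm_012_s1 t 124 669 1 = true := ex3_c k816_A00pm_012_s1 k817_A00pm_012_s1

theorem t895_A00pm_012_s1 : ∃ t, chk3 f_A00pm_012_s1 t 62 669 1 = true := ex3_a t894_A00pm_012_s1 t893_A00pm_012_s1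

theorem t896_A00pm_012_s1 : ∃ t, chk3 f_A00pm_012_s1 t 31 669 1 = true := ex3_a t895_A00pm_012_s1 t892_A00pm_012_s1

theorem t897_A00pm_012_s1 : ∃ t, chk3 f_A00pm_012_s1 t 126 1337 1 = true := ex3_a k813_A00pm_012_s1 k814_A00pm_012_s1

theorem t898_A00pm_012_s1 : ∃ t, chk3 f_A00pm_012_s1 t 63 1337 1 = true := ex3_a t897_A00pm_012_s1 k815_A00pm_012_s1

theorem t899_A00pm_012_s1 : ∃ t, chk3 f_A00pm_012_s1 t 63 668 1 = true := ex3_b k812_A00pm_012_s1 t898_A00pm_012_s1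

theorem t900_A00pm_012_s1 : ∃ t, chk3 f_A00pm_012_s1 t 31 668 1 = true := ex3_a k811_A00pm_012_s1 t899_A00pm_012_s1

theorem t901_A00pm_012_s1 : ∃ t, chk3 f_A00pm_012_s1 t 31 334 1 = true := ex3_b t900_A00pm_012_s1 t896_A00pm_012_s1

theorem t902_A00pm_012_s1 : ∃ t, chk3 f_A00pm_012_s1 t 30 669 1 = true := ex3_a k809_A00pm_012_s1 k810_A00pm_012_s1

theorem t903_A00pm_012_s1 : ∃ t, chk3 f_A00pm_012_s1 t 61 668 1 = true := ex3_a k807_A00pm_012_s1 k808_A00pm_012_s1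

theorem t904_A00pm_012_s1 : ∃ t, chk3 f_A00pm_012_s1 t 30 668 1 = true := ex3_a k806_A00pm_012_s1 t903_A00pm_012_s1

theorem t905_A00pm_012_s1 : ∃ t, chk3 f_A00pm_012_s1 t 30 334 1 = true := ex3_b t904_A00pm_012_s1 t902_A00pm_012_s1

theorem t906_A00pm_012_s1 : ∃ t, chk3 f_A00pm_012_s1 t 15 334 1 = true := ex3_a t905_A00pm_012_s1 t901_A00pm_012_s1

theorem t907_A00pm_012_s1 : ∃ t, chk3 f_A00pm_012_s1 t 15 167 1 = true := ex3_b t906_A00pm_012_s1 t888_A00pm_012_s1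

theorem t908_A00pm_012_s1 : ∃ t, chk3 f_A00pm_012_s1 t 29 670 1 = true := ex3_b k803_A00pm_012_s1 k804_A00pm_012_s1

theorem t909_A00pm_012_s1 : ∃ t, chk3 f_A00pm_012_s1 t 29 335 1 = true := ex3_b t908_A00pm_012_s1 k805_A00pm_012_s1

theorem t910_A00pm_012_s1 : ∃ t, chk3 f_A00pm_012_s1 t 29 167 1 = true := ex3_b k802_A00pm_012_s1 t909_A00pm_012_s1

theorem t911_A00pm_012_s1 : ∃ t, chk3 f_A00pm_012_s1 t 28 1341 1 = true := ex3_b k799_A00pm_012_s1 k800_A00pm_012_s1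

theorem t912_A00pm_012_s1 : ∃ t, chk3 f_A00pm_012_s1 t 112 21453 1 = true := ex3_c k794_A00pm_012_s1 k795_A00pm_012_s1

theorem t913_A00pm_012_s1 : ∃ t, chk3 f_A00pm_012_s1 t 56 21453 1 = true := ex3_a t912_A00pm_012_s1 k796_A00pm_012_s1

theorem t914_A00pm_012_s1 : ∃ t, chk3 f_A00pm_012_s1 t 28 21453 1 = true := ex3_a t913_A00pm_012_s1 k797_A00pm_012_s1

theorem t915_A00pm_012_s1 : ∃ t, chk3 f_A00pm_012_s1 t 28 10726 1 = true := ex3_b k793_A00pm_012_s1 t914_A00pm_012_s1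

theorem t916_A00pm_012_s1 : ∃ t, chk3 f_A00pm_012_s1 t 28 5363 1 = true := ex3_b t915_A00pm_012_s1 k798_A00pm_012_s1

theorem t917_A00pm_012_s1 : ∃ t, chk3 f_A00pm_012_s1 t 28 2681 1 = true := ex3_b k792_A00pm_012_s1 t916_A00pm_012_s1

theorem t918_A00pm_012_s1 : ∃ t, chk3 f_A00pm_012_s1 t 28 1340 1 = true := ex3_b k791_A00pm_012_s1 t917_A00pm_012_s1

theorem t919_A00pm_012_s1 : ∃ t, chk3 f_A00pm_012_s1 t 28 670 1 = true := ex3_b t918_A00pm_012_s1 t911_A00pm_012_s1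

theorem t920_A00pm_012_s1 : ∃ t, chk3 f_A00pm_012_s1 t 28 335 1 = true := ex3_b t919_A00pm_012_s1 k801_A00pm_012_s1

theorem t921_A00pm_012_s1 : ∃ t, chk3 f_A00pm_012_s1 t 28 167 1 = true := ex3_b k790_A00pm_012_s1 t920_A00pm_012_s1

theorem t922_A00pm_012_s1 : ∃ t, chk3 f_A00pm_012_s1 t 14 167 1 = true := ex3_a t921_A00pm_012_s1 t910_A00pm_012_s1

theorem t923_A00pm_012_s1 : ∃ t, chk3 f_A00pm_012_s1 t 7 167 1 = true := ex3_a t922_A00pm_012_s1 t907_A00pm_012_s1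

theorem t924_A00pm_012_s1 : ∃ t, chk3 f_A00pm_012_s1 t 127 1333 1 = true := ex3_b k787_A00pm_012_s1 k788_A00pm_012_s1

theorem t925_A00pm_012_s1 : ∃ t, chk3 f_A00pm_012_s1 t 63 1333 1 = true := ex3_a k786_A00pm_012_s1 t924_A00pm_012_s1

theorem t926_A00pm_012_s1 : ∃ t, chk3 f_A00pm_012_s1 t 63 666 1 = true := ex3_b k785_A00pm_012_s1 t925_A00pm_012_s1

theorem t927_A00pm_012_s1 : ∃ t, chk3 f_A00pm_012_s1 t 63 333 1 = true := ex3_b t926_A00pm_012_s1 k789_A00pm_012_s1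

theorem t928_A00pm_012_s1 : ∃ t, chk3 f_A00pm_012_s1 t 62 333 1 = true := ex3_a k783_A00pm_012_s1 k784_A00pm_012_s1

theorem t929_A00pm_012_s1 : ∃ t, chk3 f_A00pm_012_s1 t 31 333 1 = true := ex3_a t928_A00pm_012_s1 t927_A00pm_012_s1

theorem t930_A00pm_012_s1 : ∃ t, chk3 f_A00pm_012_s1 t 124 664 1 = true := ex3_b k778_A00pm_012_s1 k779_A00pm_012_s1

theorem t931_A00pm_012_s1 : ∃ t, chk3 f_A00pm_012_s1 t 62 664 1 = true := ex3_a t930_A00pm_012_s1 k780_A00pm_012_s1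

theorem t932_A00pm_012_s1 : ∃ t, chk3 f_A00pm_012_s1 t 62 332 1 = true := ex3_b t931_A00pm_012_s1 k781_A00pm_012_s1

theorem t933_A00pm_012_s1 : ∃ t, chk3 f_A00pm_012_s1 t 31 332 1 = true := ex3_a t932_A00pm_012_s1 k782_A00pm_012_s1

theorem t934_A00pm_012_s1 : ∃ t, chk3 f_A00pm_012_s1 t 31 166 1 = true := ex3_b t933_A00pm_012_s1 t929_A00pm_012_s1

theorem t935_A00pm_012_s1 : ∃ t, chk3 f_A00pm_012_s1 t 61 333 1 = true := ex3_b k776_A00pm_012_s1 k777_A00pm_012_s1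

theorem t936_A00pm_012_s1 : ∃ t, chk3 f_A00pm_012_s1 t 121 333 1 = true := ex3_b k774_A00pm_012_s1 k775_A00pm_012_s1

theorem t937_A00pm_012_s1 : ∃ t, chk3 f_A00pm_012_s1 t 120 333 1 = true := ex3_b k772_A00pm_012_s1 k773_A00pm_012_s1

theorem t938_A00pm_012_s1 : ∃ t, chk3 f_A00pm_012_s1 t 60 333 1 = true := ex3_a t937_A00pm_012_s1 t936_A00pm_012_s1

theorem t939_A00pm_012_s1 : ∃ t, chk3 f_A00pm_012_s1 t 30 333 1 = true := ex3_a t938_A00pm_012_s1 t935_A00pm_012_s1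

theorem t940_A00pm_012_s1 : ∃ t, chk3 f_A00pm_012_s1 t 120 664 1 = true := ex3_b k767_A00pm_012_s1 k768_A00pm_012_s1

theorem t941_A00pm_012_s1 : ∃ t, chk3 f_A00pm_012_s1 t 60 664 1 = true := ex3_a t940_A00pm_012_s1 k769_A00pm_012_s1

theorem t942_A00pm_012_s1 : ∃ t, chk3 f_A00pm_012_s1 t 60 332 1 = true := ex3_b t941_A00pm_012_s1 k770_A00pm_012_s1

theorem t943_A00pm_012_s1 : ∃ t, chk3 f_A00pm_012_s1 t 30 332 1 = true := ex3_a t942_A00pm_012_s1 k771_A00pm_012_s1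

theorem t944_A00pm_012_s1 : ∃ t, chk3 f_A00pm_012_s1 t 30 166 1 = true := ex3_b t943_A00pm_012_s1 t939_A00pm_012_s1

theorem t945_A00pm_012_s1 : ∃ t, chk3 f_A00pm_012_s1 t 15 166 1 = true := ex3_a t944_A00pm_012_s1 t934_A00pm_012_s1

theorem t946_A00pm_012_s1 : ∃ t, chk3 f_A00pm_012_s1 t 59 333 1 = true := ex3_a k765_A00pm_012_s1 k766_A00pm_012_s1

theorem t947_A00pm_012_s1 : ∃ t, chk3 f_A00pm_012_s1 t 29 333 1 = true := ex3_a k764_A00pm_012_s1 t946_A00pm_012_s1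

theorem t948_A00pm_012_s1 : ∃ t, chk3 f_A00pm_012_s1 t 29 332 1 = true := ex3_a k762_A00pm_012_s1 k763_A00pm_012_s1

theorem t949_A00pm_012_s1 : ∃ t, chk3 f_A00pm_012_s1 t 29 166 1 = true := ex3_b t948_A00pm_012_s1 t947_A00pm_012_s1

theorem t950_A00pm_012_s1 : ∃ t, chk3 f_A00pm_012_s1 t 28 332 1 = true := ex3_a k759_A00pm_012_s1 k760_A00pm_012_s1

theorem t951_A00pm_012_s1 : ∃ t, chk3 f_A00pm_012_s1 t 28 166 1 = true := ex3_b t950_A00pm_012_s1 k761_A00pm_012_s1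

theorem t952_A00pm_012_s1 : ∃ t, chk3 f_A00pm_012_s1 t 14 166 1 = true := ex3_a t951_A00pm_012_s1 t949_A00pm_012_s1

theorem t953_A00pm_012_s1 : ∃ t, chk3 f_A00pm_012_s1 t 7 166 1 = true := ex3_a t952_A00pm_012_s1 t945_A00pm_012_s1

theorem t954_A00pm_012_s1 : ∃ t, chk3 f_A00pm_012_s1 t 7 83 1 = true := ex3_b t953_A00pm_012_s1 t923_A00pm_012_s1

theorem t955_A00pm_012_s1 : ∃ t, chk3 f_A00pm_012_s1 t 123 663 1 = true := ex3_b k756_A00pm_012_s1 k757_A00pm_012_s1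

theorem t956_A00pm_012_s1 : ∃ t, chk3 f_A00pm_012_s1 t 61 663 1 = true := ex3_a k755_A00pm_012_s1 t955_A00pm_012_s1

theorem t957_A00pm_012_s1 : ∃ t, chk3 f_A00pm_012_s1 t 122 1324 1 = true := ex3_c k751_A00pm_012_s1 k752_A00pm_012_s1

theorem t958_A00pm_012_s1 : ∃ t, chk3 f_A00pm_012_s1 t 122 662 1 = true := ex3_b t957_A00pm_012_s1 k753_A00pm_012_s1

theorem t959_A00pm_012_s1 : ∃ t, chk3 f_A00pm_012_s1 t 61 662 1 = true := ex3_a t958_A00pm_012_s1 k754_A00pm_012_s1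

theorem t960_A00pm_012_s1 : ∃ t, chk3 f_A00pm_012_s1 t 61 331 1 = true := ex3_b t959_A00pm_012_s1 t956_A00pm_012_s1

theorem t961_A00pm_012_s1 : ∃ t, chk3 f_A00pm_012_s1 t 30 331 1 = true := ex3_a k750_A00pm_012_s1 t960_A00pm_012_s1

theorem t962_A00pm_012_s1 : ∃ t, chk3 f_A00pm_012_s1 t 121 661 1 = true := ex3_b k747_A00pm_012_s1 k748_A00pm_012_s1

theorem t963_A00pm_012_s1 : ∃ t, chk3 f_A00pm_012_s1 t 60 661 1 = true := ex3_a k746_A00pm_012_s1 t962_A00pm_012_s1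

theorem t964_A00pm_012_s1 : ∃ t, chk3 f_A00pm_012_s1 t 120 660 1 = true := ex3_b k743_A00pm_012_s1 k744_A00pm_012_s1

theorem t965_A00pm_012_s1 : ∃ t, chk3 f_A00pm_012_s1 t 60 660 1 = true := ex3_a t964_A00pm_012_s1 k745_A00pm_012_s1

theorem t966_A00pm_012_s1 : ∃ t, chk3 f_A00pm_012_s1 t 60 330 1 = true := ex3_b t965_A00pm_012_s1 t963_A00pm_012_s1

theorem t967_A00pm_012_s1 : ∃ t, chk3 f_A00pm_012_s1 t 30 330 1 = true := ex3_a t966_A00pm_012_s1 k749_A00pm_012_s1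

theorem t968_A00pm_012_s1 : ∃ t, chk3 f_A00pm_012_s1 t 30 165 1 = true := ex3_b t967_A00pm_012_s1 t961_A00pm_012_s1

theorem t969_A00pm_012_s1 : ∃ t, chk3 f_A00pm_012_s1 t 15 165 1 = true := ex3_a t968_A00pm_012_s1 k758_A00pm_012_s1

theorem t970_A00pm_012_s1 : ∃ t, chk3 f_A00pm_012_s1 t 15 82 1 = true := ex3_b k742_A00pm_012_s1 t969_A00pm_012_s1

theorem t971_A00pm_012_s1 : ∃ t, chk3 f_A00pm_012_s1 t 59 165 1 = true := ex3_b k740_A00pm_012_s1 k741_A00pm_012_s1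

theorem t972_A00pm_012_s1 : ∃ t, chk3 f_A00pm_012_s1 t 58 165 1 = true := ex3_b k738_A00pm_012_s1 k739_A00pm_012_s1

theorem t973_A00pm_012_s1 : ∃ t, chk3 f_A00pm_012_s1 t 29 165 1 = true := ex3_a t972_A00pm_012_s1 t971_A00pm_012_s1

theorem t974_A00pm_012_s1 : ∃ t, chk3 f_A00pm_012_s1 t 59 329 1 = true := ex3_a k736_A00pm_012_s1 k737_A00pm_012_s1

theorem t975_A00pm_012_s1 : ∃ t, chk3 f_A00pm_012_s1 t 59 164 1 = true := ex3_b k735_A00pm_012_s1 t974_A00pm_012_s1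

theorem t976_A00pm_012_s1 : ∃ t, chk3 f_A00pm_012_s1 t 58 164 1 = true := ex3_b k733_A00pm_012_s1 k734_A00pm_012_s1

theorem t977_A00pm_012_s1 : ∃ t, chk3 f_A00pm_012_s1 t 29 164 1 = true := ex3_a t976_A00pm_012_s1 t975_A00pm_012_s1

theorem t978_A00pm_012_s1 : ∃ t, chk3 f_A00pm_012_s1 t 29 82 1 = true := ex3_b t977_A00pm_012_s1 t973_A00pm_012_s1

theorem t979_A00pm_012_s1 : ∃ t, chk3 f_A00pm_012_s1 t 57 165 1 = true := ex3_b k731_A00pm_012_s1 k732_A00pm_012_s1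

theorem t980_A00pm_012_s1 : ∃ t, chk3 f_A00pm_012_s1 t 28 165 1 = true := ex3_a k730_A00pm_012_s1 t979_A00pm_012_s1

theorem t981_A00pm_012_s1 : ∃ t, chk3 f_A00pm_012_s1 t 114 657 1 = true := ex3_a k726_A00pm_012_s1 k727_A00pm_012_s1

theorem t982_A00pm_012_s1 : ∃ t, chk3 f_A00pm_012_s1 t 228 1313 1 = true := ex3_a k723_A00pm_012_s1 k724_A00pm_012_s1

theorem t983_A00pm_012_s1 : ∃ t, chk3 f_A00pm_012_s1 t 114 1313 1 = true := ex3_a t982_A00pm_012_s1 k725_A00pm_012_s1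

theorem t984_A00pm_012_s1 : ∃ t, chk3 f_A00pm_012_s1 t 114 656 1 = true := ex3_b k722_A00pm_012_s1 t983_A00pm_012_s1

theorem t985_A00pm_012_s1 : ∃ t, chk3 f_A00pm_012_s1 t 114 328 1 = true := ex3_b t984_A00pm_012_s1 t981_A00pm_012_s1

theorem t986_A00pm_012_s1 : ∃ t, chk3 f_A00pm_012_s1 t 57 328 1 = true := ex3_a t985_A00pm_012_s1 k728_A00pm_012_s1

theorem t987_A00pm_012_s1 : ∃ t, chk3 f_A00pm_012_s1 t 57 164 1 = true := ex3_b t986_A00pm_012_s1 k729_A00pm_012_s1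

theorem t988_A00pm_012_s1 : ∃ t, chk3 f_A00pm_012_s1 t 56 164 1 = true := ex3_a k720_A00pm_012_s1 k721_A00pm_012_s1

theorem t989_A00pm_012_s1 : ∃ t, chk3 f_A00pm_012_s1 t 28 164 1 = true := ex3_a t988_A00pm_012_s1 t987_A00pm_012_s1

theorem t990_A00pm_012_s1 : ∃ t, chk3 f_A00pm_012_s1 t 28 82 1 = true := ex3_b t989_A00pm_012_s1 t980_A00pm_012_s1

theorem t991_A00pm_012_s1 : ∃ t, chk3 f_A00pm_012_s1 t 14 82 1 = true := ex3_a t990_A00pm_012_s1 t978_A00pm_012_s1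

theorem t992_A00pm_012_s1 : ∃ t, chk3 f_A00pm_012_s1 t 7 82 1 = true := ex3_a t991_A00pm_012_s1 t970_A00pm_012_s1

theorem t993_A00pm_012_s1 : ∃ t, chk3 f_A00pm_012_s1 t 7 41 1 = true := ex3_b t992_A00pm_012_s1 t954_A00pm_012_s1

theorem t994_A00pm_012_s1 : ∃ t, chk3 f_A00pm_012_s1 t 13 2682 1 = true := ex3_b k716_A00pm_012_s1 k717_A00pm_012_s1

theorem t995_A00pm_012_s1 : ∃ t, chk3 f_A00pm_012_s1 t 13 1341 1 = true := ex3_b t994_A00pm_012_s1 k718_A00pm_012_s1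

theorem t996_A00pm_012_s1 : ∃ t, chk3 f_A00pm_012_s1 t 13 21453 1 = true := ex3_a k713_A00pm_012_s1 k714_A00pm_012_s1

theorem t997_A00pm_012_s1 : ∃ t, chk3 f_A00pm_012_s1 t 13 10726 1 = true := ex3_b k712_A00pm_012_s1 t996_A00pm_012_s1

theorem t998_A00pm_012_s1 : ∃ t, chk3 f_A00pm_012_s1 t 13 5363 1 = true := ex3_b t997_A00pm_012_s1 k715_A00pm_012_s1

theorem t999_A00pm_012_s1 : ∃ t, chk3 f_A00pm_012_s1 t 13 2681 1 = true := ex3_b k711_A00pm_012_s1 t998_A00pm_012_s1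

theorem t1000_A00pm_012_s1 : ∃ t, chk3 f_A00pm_012_s1 t 13 1340 1 = true := ex3_b k710_A00pm_012_s1 t999_A00pm_012_s1

theorem t1001_A00pm_012_s1 : ∃ t, chk3 f_A00pm_012_s1 t 13 670 1 = true := ex3_b t1000_A00pm_012_s1 t995_A00pm_012_s1

theorem t1002_A00pm_012_s1 : ∃ t, chk3 f_A00pm_012_s1 t 13 335 1 = true := ex3_b t1001_A00pm_012_s1 k719_A00pm_012_s1

theorem t1003_A00pm_012_s1 : ∃ t, chk3 f_A00pm_012_s1 t 13 334 1 = true := ex3_a k708_A00pm_012_s1 k709_A00pm_012_s1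

theorem t1004_A00pm_012_s1 : ∃ t, chk3 f_A00pm_012_s1 t 13 167 1 = true := ex3_b t1003_A00pm_012_s1 t1002_A00pm_012_s1

theorem t1005_A00pm_012_s1 : ∃ t, chk3 f_A00pm_012_s1 t 13 166 1 = true := ex3_a k706_A00pm_012_s1 k707_A00pm_012_s1

theorem t1006_A00pm_012_s1 : ∃ t, chk3 f_A00pm_012_s1 t 13 83 1 = true := ex3_b t1005_A00pm_012_s1 t1004_A00pm_012_s1

theorem t1007_A00pm_012_s1 : ∃ t, chk3 f_A00pm_012_s1 t 55 331 1 = true := ex3_a k704_A00pm_012_s1 k705_A00pm_012_s1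

theorem t1008_A00pm_012_s1 : ∃ t, chk3 f_A00pm_012_s1 t 55 165 1 = true := ex3_b k703_A00pm_012_s1 t1007_A00pm_012_s1

theorem t1009_A00pm_012_s1 : ∃ t, chk3 f_A00pm_012_s1 t 27 165 1 = true := ex3_a k702_A00pm_012_s1 t1008_A00pm_012_s1

theorem t1010_A00pm_012_s1 : ∃ t, chk3 f_A00pm_012_s1 t 27 164 1 = true := ex3_a k700_A00pm_012_s1 k701_A00pm_012_s1

theorem t1011_A00pm_012_s1 : ∃ t, chk3 f_A00pm_012_s1 t 27 82 1 = true := ex3_b t1010_A00pm_012_s1 t1009_A00pm_012_s1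

theorem t1012_A00pm_012_s1 : ∃ t, chk3 f_A00pm_012_s1 t 26 165 1 = true := ex3_a k698_A00pm_012_s1 k699_A00pm_012_s1

theorem t1013_A00pm_012_s1 : ∃ t, chk3 f_A00pm_012_s1 t 26 164 1 = true := ex3_a k696_A00pm_012_s1 k697_A00pm_012_s1

theorem t1014_A00pm_012_s1 : ∃ t, chk3 f_A00pm_012_s1 t 26 82 1 = true := ex3_b t1013_A00pm_012_s1 t1012_A00pm_012_s1

theorem t1015_A00pm_012_s1 : ∃ t, chk3 f_A00pm_012_s1 t 13 82 1 = true := ex3_a t1014_A00pm_012_s1 t1011_A00pm_012_s1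

theorem t1016_A00pm_012_s1 : ∃ t, chk3 f_A00pm_012_s1 t 13 41 1 = true := ex3_b t1015_A00pm_012_s1 t1006_A00pm_012_s1

theorem t1017_A00pm_012_s1 : ∃ t, chk3 f_A00pm_012_s1 t 12 670 1 = true := ex3_b k693_A00pm_012_s1 k694_A00pm_012_s1

theorem t1018_A00pm_012_s1 : ∃ t, chk3 f_A00pm_012_s1 t 12 335 1 = true := ex3_b t1017_A00pm_012_s1 k695_A00pm_012_s1

theorem t1019_A00pm_012_s1 : ∃ t, chk3 f_A00pm_012_s1 t 12 167 1 = true := ex3_b k692_A00pm_012_s1 t1018_A00pm_012_s1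

theorem t1020_A00pm_012_s1 : ∃ t, chk3 f_A00pm_012_s1 t 12 83 1 = true := ex3_b k691_A00pm_012_s1 t1019_A00pm_012_s1

theorem t1021_A00pm_012_s1 : ∃ t, chk3 f_A00pm_012_s1 t 25 82 1 = true := ex3_b k689_A00pm_012_s1 k690_A00pm_012_s1

theorem t1022_A00pm_012_s1 : ∃ t, chk3 f_A00pm_012_s1 t 12 82 1 = true := ex3_a k688_A00pm_012_s1 t1021_A00pm_012_s1

theorem t1023_A00pm_012_s1 : ∃ t, chk3 f_A00pm_012_s1 t 12 41 1 = true := ex3_b t1022_A00pm_012_s1 t1020_A00pm_012_s1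

theorem t1024_A00pm_012_s1 : ∃ t, chk3 f_A00pm_012_s1 t 6 41 1 = true := ex3_a t1023_A00pm_012_s1 t1016_A00pm_012_s1

theorem t1025_A00pm_012_s1 : ∃ t, chk3 f_A00pm_012_s1 t 3 41 1 = true := ex3_a t1024_A00pm_012_s1 t993_A00pm_012_s1

theorem t1026_A00pm_012_s1 : ∃ t, chk3 f_A00pm_012_s1 t 113 655 1 = true := ex3_a k683_A00pm_012_s1 k684_A00pm_012_s1

theorem t1027_A00pm_012_s1 : ∃ t, chk3 f_A00pm_012_s1 t 113 327 1 = true := ex3_b k682_A00pm_012_s1 t1026_A00pm_012_s1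

theorem t1028_A00pm_012_s1 : ∃ t, chk3 f_A00pm_012_s1 t 56 327 1 = true := ex3_a k681_A00pm_012_s1 t1027_A00pm_012_s1

theorem t1029_A00pm_012_s1 : ∃ t, chk3 f_A00pm_012_s1 t 28 327 1 = true := ex3_a t1028_A00pm_012_s1 k685_A00pm_012_s1

theorem t1030_A00pm_012_s1 : ∃ t, chk3 f_A00pm_012_s1 t 114 326 1 = true := ex3_b k678_A00pm_012_s1 k679_A00pm_012_s1

theorem t1031_A00pm_012_s1 : ∃ t, chk3 f_A00pm_012_s1 t 57 326 1 = true := ex3_a t1030_A00pm_012_s1 k680_A00pm_012_s1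

theorem t1032_A00pm_012_s1 : ∃ t, chk3 f_A00pm_012_s1 t 28 326 1 = true := ex3_a k677_A00pm_012_s1 t1031_A00pm_012_s1

theorem t1033_A00pm_012_s1 : ∃ t, chk3 f_A00pm_012_s1 t 28 163 1 = true := ex3_b t1032_A00pm_012_s1 t1029_A00pm_012_s1

theorem t1034_A00pm_012_s1 : ∃ t, chk3 f_A00pm_012_s1 t 113 325 1 = true := ex3_b k674_A00pm_012_s1 k675_A00pm_012_s1

theorem t1035_A00pm_012_s1 : ∃ t, chk3 f_A00pm_012_s1 t 56 325 1 = true := ex3_a k673_A00pm_012_s1 t1034_A00pm_012_s1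

theorem t1036_A00pm_012_s1 : ∃ t, chk3 f_A00pm_012_s1 t 56 162 1 = true := ex3_b k672_A00pm_012_s1 t1035_A00pm_012_s1

theorem t1037_A00pm_012_s1 : ∃ t, chk3 f_A00pm_012_s1 t 28 162 1 = true := ex3_a t1036_A00pm_012_s1 k676_A00pm_012_s1

theorem t1038_A00pm_012_s1 : ∃ t, chk3 f_A00pm_012_s1 t 28 81 1 = true := ex3_b t1037_A00pm_012_s1 t1033_A00pm_012_s1

theorem t1039_A00pm_012_s1 : ∃ t, chk3 f_A00pm_012_s1 t 14 81 1 = true := ex3_a t1038_A00pm_012_s1 k686_A00pm_012_s1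

theorem t1040_A00pm_012_s1 : ∃ t, chk3 f_A00pm_012_s1 t 7 81 1 = true := ex3_a t1039_A00pm_012_s1 k687_A00pm_012_s1

theorem t1041_A00pm_012_s1 : ∃ t, chk3 f_A00pm_012_s1 t 7 40 1 = true := ex3_b k671_A00pm_012_s1 t1040_A00pm_012_s1

theorem t1042_A00pm_012_s1 : ∃ t, chk3 f_A00pm_012_s1 t 111 326 1 = true := ex3_b k668_A00pm_012_s1 k669_A00pm_012_s1

theorem t1043_A00pm_012_s1 : ∃ t, chk3 f_A00pm_012_s1 t 55 326 1 = true := ex3_a k667_A00pm_012_s1 t1042_A00pm_012_s1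

theorem t1044_A00pm_012_s1 : ∃ t, chk3 f_A00pm_012_s1 t 55 163 1 = true := ex3_b t1043_A00pm_012_s1 k670_A00pm_012_s1

theorem t1045_A00pm_012_s1 : ∃ t, chk3 f_A00pm_012_s1 t 54 163 1 = true := ex3_a k665_A00pm_012_s1 k666_A00pm_012_s1

theorem t1046_A00pm_012_s1 : ∃ t, chk3 f_A00pm_012_s1 t 27 163 1 = true := ex3_a t1045_A00pm_012_s1 t1044_A00pm_012_s1

theorem t1047_A00pm_012_s1 : ∃ t, chk3 f_A00pm_012_s1 t 110 325 1 = true := ex3_b k662_A00pm_012_s1 k663_A00pm_012_s1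

theorem t1048_A00pm_012_s1 : ∃ t, chk3 f_A00pm_012_s1 t 55 325 1 = true := ex3_a t1047_A00pm_012_s1 k664_A00pm_012_s1

theorem t1049_A00pm_012_s1 : ∃ t, chk3 f_A00pm_012_s1 t 55 162 1 = true := ex3_b k661_A00pm_012_s1 t1048_A00pm_012_s1

theorem t1050_A00pm_012_s1 : ∃ t, chk3 f_A00pm_012_s1 t 109 324 1 = true := ex3_b k658_A00pm_012_s1 k659_A00pm_012_s1

theorem t1051_A00pm_012_s1 : ∃ t, chk3 f_A00pm_012_s1 t 54 324 1 = true := ex3_a k657_A00pm_012_s1 t1050_A00pm_012_s1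

theorem t1052_A00pm_012_s1 : ∃ t, chk3 f_A00pm_012_s1 t 54 162 1 = true := ex3_b t1051_A00pm_012_s1 k660_A00pm_012_s1

theorem t1053_A00pm_012_s1 : ∃ t, chk3 f_A00pm_012_s1 t 27 162 1 = true := ex3_a t1052_A00pm_012_s1 t1049_A00pm_012_s1

theorem t1054_A00pm_012_s1 : ∃ t, chk3 f_A00pm_012_s1 t 27 81 1 = true := ex3_b t1053_A00pm_012_s1 t1046_A00pm_012_s1

theorem t1055_A00pm_012_s1 : ∃ t, chk3 f_A00pm_012_s1 t 53 163 1 = true := ex3_b k655_A00pm_012_s1 k656_A00pm_012_s1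

theorem t1056_A00pm_012_s1 : ∃ t, chk3 f_A00pm_012_s1 t 26 163 1 = true := ex3_a k654_A00pm_012_s1 t1055_A00pm_012_s1

theorem t1057_A00pm_012_s1 : ∃ t, chk3 f_A00pm_012_s1 t 53 325 1 = true := ex3_a k652_A00pm_012_s1 k653_A00pm_012_s1

theorem t1058_A00pm_012_s1 : ∃ t, chk3 f_A00pm_012_s1 t 53 162 1 = true := ex3_b k651_A00pm_012_s1 t1057_A00pm_012_s1

theorem t1059_A00pm_012_s1 : ∃ t, chk3 f_A00pm_012_s1 t 26 162 1 = true := ex3_a k650_A00pm_012_s1 t1058_A00pm_012_s1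

theorem t1060_A00pm_012_s1 : ∃ t, chk3 f_A00pm_012_s1 t 26 81 1 = true := ex3_b t1059_A00pm_012_s1 t1056_A00pm_012_s1

theorem t1061_A00pm_012_s1 : ∃ t, chk3 f_A00pm_012_s1 t 13 81 1 = true := ex3_a t1060_A00pm_012_s1 t1054_A00pm_012_s1

theorem t1062_A00pm_012_s1 : ∃ t, chk3 f_A00pm_012_s1 t 55 161 1 = true := ex3_b k648_A00pm_012_s1 k649_A00pm_012_s1

theorem t1063_A00pm_012_s1 : ∃ t, chk3 f_A00pm_012_s1 t 216 647 1 = true := ex3_a k644_A00pm_012_s1 k645_A00pm_012_s1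

theorem t1064_A00pm_012_s1 : ∃ t, chk3 f_A00pm_012_s1 t 108 647 1 = true := ex3_a t1063_A00pm_012_s1 k646_A00pm_012_s1

theorem t1065_A00pm_012_s1 : ∃ t, chk3 f_A00pm_012_s1 t 432 1293 1 = true := ex3_b k640_A00pm_012_s1 k641_A00pm_012_s1

theorem t1066_A00pm_012_s1 : ∃ t, chk3 f_A00pm_012_s1 t 432 646 1 = true := ex3_b k639_A00pm_012_s1 t1065_A00pm_012_s1

theorem t1067_A00pm_012_s1 : ∃ t, chk3 f_A00pm_012_s1 t 216 646 1 = true := ex3_a t1066_A00pm_012_s1 k642_A00pm_012_s1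

theorem t1068_A00pm_012_s1 : ∃ t, chk3 f_A00pm_012_s1 t 108 646 1 = true := ex3_a t1067_A00pm_012_s1 k643_A00pm_012_s1

theorem t1069_A00pm_012_s1 : ∃ t, chk3 f_A00pm_012_s1 t 108 323 1 = true := ex3_b t1068_A00pm_012_s1 t1064_A00pm_012_s1

theorem t1070_A00pm_012_s1 : ∃ t, chk3 f_A00pm_012_s1 t 54 323 1 = true := ex3_a t1069_A00pm_012_s1 k647_A00pm_012_s1

theorem t1071_A00pm_012_s1 : ∃ t, chk3 f_A00pm_012_s1 t 54 161 1 = true := ex3_b k638_A00pm_012_s1 t1070_A00pm_012_s1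

theorem t1072_A00pm_012_s1 : ∃ t, chk3 f_A00pm_012_s1 t 27 161 1 = true := ex3_a t1071_A00pm_012_s1 t1062_A00pm_012_s1

theorem t1073_A00pm_012_s1 : ∃ t, chk3 f_A00pm_012_s1 t 54 321 1 = true := ex3_a k635_A00pm_012_s1 k636_A00pm_012_s1

theorem t1074_A00pm_012_s1 : ∃ t, chk3 f_A00pm_012_s1 t 54 160 1 = true := ex3_b k634_A00pm_012_s1 t1073_A00pm_012_s1

theorem t1075_A00pm_012_s1 : ∃ t, chk3 f_A00pm_012_s1 t 27 160 1 = true := ex3_a t1074_A00pm_012_s1 k637_A00pm_012_s1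

theorem t1076_A00pm_012_s1 : ∃ t, chk3 f_A00pm_012_s1 t 27 80 1 = true := ex3_b t1075_A00pm_012_s1 t1072_A00pm_012_s1

theorem t1077_A00pm_012_s1 : ∃ t, chk3 f_A00pm_012_s1 t 431 1292 1 = true := ex3_b k630_A00pm_012_s1 k631_A00pm_012_s1

theorem t1078_A00pm_012_s1 : ∃ t, chk3 f_A00pm_012_s1 t 215 1292 1 = true := ex3_a k629_A00pm_012_s1 t1077_A00pm_012_s1

theorem t1079_A00pm_012_s1 : ∃ t, chk3 f_A00pm_012_s1 t 215 646 1 = true := ex3_b t1078_A00pm_012_s1 k632_A00pm_012_s1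

theorem t1080_A00pm_012_s1 : ∃ t, chk3 f_A00pm_012_s1 t 215 323 1 = true := ex3_b t1079_A00pm_012_s1 k633_A00pm_012_s1

theorem t1081_A00pm_012_s1 : ∃ t, chk3 f_A00pm_012_s1 t 107 323 1 = true := ex3_a k628_A00pm_012_s1 t1080_A00pm_012_s1

theorem t1082_A00pm_012_s1 : ∃ t, chk3 f_A00pm_012_s1 t 53 323 1 = true := ex3_a k627_A00pm_012_s1 t1081_A00pm_012_s1

theorem t1083_A00pm_012_s1 : ∃ t, chk3 f_A00pm_012_s1 t 107 645 1 = true := ex3_a k625_A00pm_012_s1 k626_A00pm_012_s1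

theorem t1084_A00pm_012_s1 : ∃ t, chk3 f_A00pm_012_s1 t 107 322 1 = true := ex3_b k624_A00pm_012_s1 t1083_A00pm_012_s1

theorem t1085_A00pm_012_s1 : ∃ t, chk3 f_A00pm_012_s1 t 53 322 1 = true := ex3_a k623_A00pm_012_s1 t1084_A00pm_012_s1

theorem t1086_A00pm_012_s1 : ∃ t, chk3 f_A00pm_012_s1 t 53 161 1 = true := ex3_b t1085_A00pm_012_s1 t1082_A00pm_012_s1

theorem t1087_A00pm_012_s1 : ∃ t, chk3 f_A00pm_012_s1 t 53 321 1 = true := ex3_a k621_A00pm_012_s1 k622_A00pm_012_s1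

theorem t1088_A00pm_012_s1 : ∃ t, chk3 f_A00pm_012_s1 t 53 160 1 = true := ex3_b k620_A00pm_012_s1 t1087_A00pm_012_s1

theorem t1089_A00pm_012_s1 : ∃ t, chk3 f_A00pm_012_s1 t 53 80 1 = true := ex3_b t1088_A00pm_012_s1 t1086_A00pm_012_s1

theorem t1090_A00pm_012_s1 : ∃ t, chk3 f_A00pm_012_s1 t 52 320 1 = true := ex3_a k616_A00pm_012_s1 k617_A00pm_012_s1

theorem t1091_A00pm_012_s1 : ∃ t, chk3 f_A00pm_012_s1 t 52 160 1 = true := ex3_b t1090_A00pm_012_s1 k618_A00pm_012_s1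

theorem t1092_A00pm_012_s1 : ∃ t, chk3 f_A00pm_012_s1 t 52 80 1 = true := ex3_b t1091_A00pm_012_s1 k619_A00pm_012_s1

theorem t1093_A00pm_012_s1 : ∃ t, chk3 f_A00pm_012_s1 t 26 80 1 = true := ex3_a t1092_A00pm_012_s1 t1089_A00pm_012_s1

theorem t1094_A00pm_012_s1 : ∃ t, chk3 f_A00pm_012_s1 t 13 80 1 = true := ex3_a t1093_A00pm_012_s1 t1076_A00pm_012_s1

theorem t1095_A00pm_012_s1 : ∃ t, chk3 f_A00pm_012_s1 t 13 40 1 = true := ex3_b t1094_A00pm_012_s1 t1061_A00pm_012_s1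

theorem t1096_A00pm_012_s1 : ∃ t, chk3 f_A00pm_012_s1 t 51 81 1 = true := ex3_b k614_A00pm_012_s1 k615_A00pm_012_s1

theorem t1097_A00pm_012_s1 : ∃ t, chk3 f_A00pm_012_s1 t 25 81 1 = true := ex3_a k613_A00pm_012_s1 t1096_A00pm_012_s1

theorem t1098_A00pm_012_s1 : ∃ t, chk3 f_A00pm_012_s1 t 51 80 1 = true := ex3_b k611_A00pm_012_s1 k612_A00pm_012_s1

theorem t1099_A00pm_012_s1 : ∃ t, chk3 f_A00pm_012_s1 t 50 161 1 = true := ex3_a k609_A00pm_012_s1 k610_A00pm_012_s1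

theorem t1100_A00pm_012_s1 : ∃ t, chk3 f_A00pm_012_s1 t 100 160 1 = true := ex3_b k606_A00pm_012_s1 k607_A00pm_012_s1

theorem t1101_A00pm_012_s1 : ∃ t, chk3 f_A00pm_012_s1 t 50 160 1 = true := ex3_a t1100_A00pm_012_s1 k608_A00pm_012_s1

theorem t1102_A00pm_012_s1 : ∃ t, chk3 f_A00pm_012_s1 t 50 80 1 = true := ex3_b t1101_A00pm_012_s1 t1099_A00pm_012_s1

theorem t1103_A00pm_012_s1 : ∃ t, chk3 f_A00pm_012_s1 t 25 80 1 = true := ex3_a t1102_A00pm_012_s1 t1098_A00pm_012_s1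

theorem t1104_A00pm_012_s1 : ∃ t, chk3 f_A00pm_012_s1 t 25 40 1 = true := ex3_b t1103_A00pm_012_s1 t1097_A00pm_012_s1

theorem t1105_A00pm_012_s1 : ∃ t, chk3 f_A00pm_012_s1 t 99 160 1 = true := ex3_b k602_A00pm_012_s1 k603_A00pm_012_s1

theorem t1106_A00pm_012_s1 : ∃ t, chk3 f_A00pm_012_s1 t 49 160 1 = true := ex3_a k601_A00pm_012_s1 t1105_A00pm_012_s1

theorem t1107_A00pm_012_s1 : ∃ t, chk3 f_A00pm_012_s1 t 49 80 1 = true := ex3_b t1106_A00pm_012_s1 k604_A00pm_012_s1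

theorem t1108_A00pm_012_s1 : ∃ t, chk3 f_A00pm_012_s1 t 24 80 1 = true := ex3_a k600_A00pm_012_s1 t1107_A00pm_012_s1

theorem t1109_A00pm_012_s1 : ∃ t, chk3 f_A00pm_012_s1 t 24 40 1 = true := ex3_b t1108_A00pm_012_s1 k605_A00pm_012_s1

theorem t1110_A00pm_012_s1 : ∃ t, chk3 f_A00pm_012_s1 t 12 40 1 = true := ex3_a t1109_A00pm_012_s1 t1104_A00pm_012_s1

theorem t1111_A00pm_012_s1 : ∃ t, chk3 f_A00pm_012_s1 t 6 40 1 = true := ex3_a t1110_A00pm_012_s1 t1095_A00pm_012_s1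

theorem t1112_A00pm_012_s1 : ∃ t, chk3 f_A00pm_012_s1 t 3 40 1 = true := ex3_a t1111_A00pm_012_s1 t1041_A00pm_012_s1

theorem t1113_A00pm_012_s1 : ∃ t, chk3 f_A00pm_012_s1 t 3 20 1 = true := ex3_b t1112_A00pm_012_s1 t1025_A00pm_012_s1

theorem t1114_A00pm_012_s1 : ∃ t, chk3 f_A00pm_012_s1 t 3 10 1 = true := ex3_b t1113_A00pm_012_s1 t873_A00pm_012_s1

theorem t1115_A00pm_012_s1 : ∃ t, chk3 f_A00pm_012_s1 t 3 5 1 = true := ex3_b t1114_A00pm_012_s1 t864_A00pm_012_s1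

theorem t1116_A00pm_012_s1 : ∃ t, chk3 f_A00pm_012_s1 t 5 21 1 = true := ex3_a k597_A00pm_012_s1 k598_A00pm_012_s1

theorem t1117_A00pm_012_s1 : ∃ t, chk3 f_A00pm_012_s1 t 11 670 1 = true := ex3_b k594_A00pm_012_s1 k595_A00pm_012_s1

theorem t1118_A00pm_012_s1 : ∃ t, chk3 f_A00pm_012_s1 t 11 335 1 = true := ex3_b t1117_A00pm_012_s1 k596_A00pm_012_s1

theorem t1119_A00pm_012_s1 : ∃ t, chk3 f_A00pm_012_s1 t 11 167 1 = true := ex3_b k593_A00pm_012_s1 t1118_A00pm_012_s1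

theorem t1120_A00pm_012_s1 : ∃ t, chk3 f_A00pm_012_s1 t 11 83 1 = true := ex3_b k592_A00pm_012_s1 t1119_A00pm_012_s1

theorem t1121_A00pm_012_s1 : ∃ t, chk3 f_A00pm_012_s1 t 11 41 1 = true := ex3_b k591_A00pm_012_s1 t1120_A00pm_012_s1

theorem t1122_A00pm_012_s1 : ∃ t, chk3 f_A00pm_012_s1 t 21 167 1 = true := ex3_b k589_A00pm_012_s1 k590_A00pm_012_s1

theorem t1123_A00pm_012_s1 : ∃ t, chk3 f_A00pm_012_s1 t 21 83 1 = true := ex3_b k588_A00pm_012_s1 t1122_A00pm_012_s1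

theorem t1124_A00pm_012_s1 : ∃ t, chk3 f_A00pm_012_s1 t 10 83 1 = true := ex3_a k587_A00pm_012_s1 t1123_A00pm_012_s1

theorem t1125_A00pm_012_s1 : ∃ t, chk3 f_A00pm_012_s1 t 10 41 1 = true := ex3_b k586_A00pm_012_s1 t1124_A00pm_012_s1

theorem t1126_A00pm_012_s1 : ∃ t, chk3 f_A00pm_012_s1 t 5 41 1 = true := ex3_a t1125_A00pm_012_s1 t1121_A00pm_012_s1

theorem t1127_A00pm_012_s1 : ∃ t, chk3 f_A00pm_012_s1 t 11 40 1 = true := ex3_a k584_A00pm_012_s1 k585_A00pm_012_s1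

theorem t1128_A00pm_012_s1 : ∃ t, chk3 f_A00pm_012_s1 t 5 40 1 = true := ex3_a k583_A00pm_012_s1 t1127_A00pm_012_s1

theorem t1129_A00pm_012_s1 : ∃ t, chk3 f_A00pm_012_s1 t 5 20 1 = true := ex3_b t1128_A00pm_012_s1 t1126_A00pm_012_s1

theorem t1130_A00pm_012_s1 : ∃ t, chk3 f_A00pm_012_s1 t 5 10 1 = true := ex3_b t1129_A00pm_012_s1 t1116_A00pm_012_s1

theorem t1131_A00pm_012_s1 : ∃ t, chk3 f_A00pm_012_s1 t 5 5 1 = true := ex3_b t1130_A00pm_012_s1 k599_A00pm_012_s1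

theorem t1132_A00pm_012_s1 : ∃ t, chk3 f_A00pm_012_s1 t 2 5 1 = true := ex3_a k582_A00pm_012_s1 t1131_A00pm_012_s1

theorem t1133_A00pm_012_s1 : ∃ t, chk3 f_A00pm_012_s1 t 1 5 1 = true := ex3_a t1132_A00pm_012_s1 t1115_A00pm_012_s1

theorem t1134_A00pm_012_s1 : ∃ t, chk3 f_A00pm_012_s1 t 52 159 1 = true := ex3_c k577_A00pm_012_s1 k578_A00pm_012_s1

theorem t1135_A00pm_012_s1 : ∃ t, chk3 f_A00pm_012_s1 t 26 159 1 = true := ex3_a t1134_A00pm_012_s1 k579_A00pm_012_s1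

theorem t1136_A00pm_012_s1 : ∃ t, chk3 f_A00pm_012_s1 t 26 79 1 = true := ex3_b k576_A00pm_012_s1 t1135_A00pm_012_s1

theorem t1137_A00pm_012_s1 : ∃ t, chk3 f_A00pm_012_s1 t 13 79 1 = true := ex3_a t1136_A00pm_012_s1 k580_A00pm_012_s1

theorem t1138_A00pm_012_s1 : ∃ t, chk3 f_A00pm_012_s1 t 13 39 1 = true := ex3_b k575_A00pm_012_s1 t1137_A00pm_012_s1

theorem t1139_A00pm_012_s1 : ∃ t, chk3 f_A00pm_012_s1 t 13 19 1 = true := ex3_b k574_A00pm_012_s1 t1138_A00pm_012_s1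

theorem t1140_A00pm_012_s1 : ∃ t, chk3 f_A00pm_012_s1 t 13 9 1 = true := ex3_b k573_A00pm_012_s1 t1139_A00pm_012_s1

theorem t1141_A00pm_012_s1 : ∃ t, chk3 f_A00pm_012_s1 t 103 159 1 = true := ex3_b k571_A00pm_012_s1 k572_A00pm_012_s1

theorem t1142_A00pm_012_s1 : ∃ t, chk3 f_A00pm_012_s1 t 51 159 1 = true := ex3_a k570_A00pm_012_s1 t1141_A00pm_012_s1

theorem t1143_A00pm_012_s1 : ∃ t, chk3 f_A00pm_012_s1 t 204 317 1 = true := ex3_b k566_A00pm_012_s1 k567_A00pm_012_s1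

theorem t1144_A00pm_012_s1 : ∃ t, chk3 f_A00pm_012_s1 t 102 317 1 = true := ex3_a t1143_A00pm_012_s1 k568_A00pm_012_s1

theorem t1145_A00pm_012_s1 : ∃ t, chk3 f_A00pm_012_s1 t 102 158 1 = true := ex3_b k565_A00pm_012_s1 t1144_A00pm_012_s1

theorem t1146_A00pm_012_s1 : ∃ t, chk3 f_A00pm_012_s1 t 51 158 1 = true := ex3_a t1145_A00pm_012_s1 k569_A00pm_012_s1

theorem t1147_A00pm_012_s1 : ∃ t, chk3 f_A00pm_012_s1 t 51 79 1 = true := ex3_b t1146_A00pm_012_s1 t1142_A00pm_012_s1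

theorem t1148_A00pm_012_s1 : ∃ t, chk3 f_A00pm_012_s1 t 203 633 1 = true := ex3_a k561_A00pm_012_s1 k562_A00pm_012_s1

theorem t1149_A00pm_012_s1 : ∃ t, chk3 f_A00pm_012_s1 t 203 316 1 = true := ex3_b k560_A00pm_012_s1 t1148_A00pm_012_s1

theorem t1150_A00pm_012_s1 : ∃ t, chk3 f_A00pm_012_s1 t 404 632 1 = true := ex3_b k556_A00pm_012_s1 k557_A00pm_012_s1

theorem t1151_A00pm_012_s1 : ∃ t, chk3 f_A00pm_012_s1 t 202 632 1 = true := ex3_a t1150_A00pm_012_s1 k558_A00pm_012_s1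

theorem t1152_A00pm_012_s1 : ∃ t, chk3 f_A00pm_012_s1 t 202 316 1 = true := ex3_b t1151_A00pm_012_s1 k559_A00pm_012_s1

theorem t1153_A00pm_012_s1 : ∃ t, chk3 f_A00pm_012_s1 t 101 316 1 = true := ex3_a t1152_A00pm_012_s1 t1149_A00pm_012_s1

theorem t1154_A00pm_012_s1 : ∃ t, chk3 f_A00pm_012_s1 t 101 158 1 = true := ex3_b t1153_A00pm_012_s1 k563_A00pm_012_s1

theorem t1155_A00pm_012_s1 : ∃ t, chk3 f_A00pm_012_s1 t 50 158 1 = true := ex3_a k555_A00pm_012_s1 t1154_A00pm_012_s1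

theorem t1156_A00pm_012_s1 : ∃ t, chk3 f_A00pm_012_s1 t 50 79 1 = true := ex3_b t1155_A00pm_012_s1 k564_A00pm_012_s1

theorem t1157_A00pm_012_s1 : ∃ t, chk3 f_A00pm_012_s1 t 25 79 1 = true := ex3_a t1156_A00pm_012_s1 t1147_A00pm_012_s1

theorem t1158_A00pm_012_s1 : ∃ t, chk3 f_A00pm_012_s1 t 201 631 1 = true := ex3_a k551_A00pm_012_s1 k552_A00pm_012_s1

theorem t1159_A00pm_012_s1 : ∃ t, chk3 f_A00pm_012_s1 t 201 315 1 = true := ex3_b k550_A00pm_012_s1 t1158_A00pm_012_s1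

theorem t1160_A00pm_012_s1 : ∃ t, chk3 f_A00pm_012_s1 t 200 630 1 = true := ex3_a k547_A00pm_012_s1 k548_A00pm_012_s1

theorem t1161_A00pm_012_s1 : ∃ t, chk3 f_A00pm_012_s1 t 200 315 1 = true := ex3_b t1160_A00pm_012_s1 k549_A00pm_012_s1

theorem t1162_A00pm_012_s1 : ∃ t, chk3 f_A00pm_012_s1 t 100 315 1 = true := ex3_a t1161_A00pm_012_s1 t1159_A00pm_012_s1

theorem t1163_A00pm_012_s1 : ∃ t, chk3 f_A00pm_012_s1 t 50 315 1 = true := ex3_a t1162_A00pm_012_s1 k553_A00pm_012_s1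

theorem t1164_A00pm_012_s1 : ∃ t, chk3 f_A00pm_012_s1 t 50 157 1 = true := ex3_b k546_A00pm_012_s1 t1163_A00pm_012_s1

theorem t1165_A00pm_012_s1 : ∃ t, chk3 f_A00pm_012_s1 t 50 78 1 = true := ex3_b k545_A00pm_012_s1 t1164_A00pm_012_s1

theorem t1166_A00pm_012_s1 : ∃ t, chk3 f_A00pm_012_s1 t 25 78 1 = true := ex3_a t1165_A00pm_012_s1 k554_A00pm_012_s1

theorem t1167_A00pm_012_s1 : ∃ t, chk3 f_A00pm_012_s1 t 25 39 1 = true := ex3_b t1166_A00pm_012_s1 t1157_A00pm_012_s1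

theorem t1168_A00pm_012_s1 : ∃ t, chk3 f_A00pm_012_s1 t 98 318 1 = true := ex3_a k541_A00pm_012_s1 k542_A00pm_012_s1

theorem t1169_A00pm_012_s1 : ∃ t, chk3 f_A00pm_012_s1 t 98 159 1 = true := ex3_b t1168_A00pm_012_s1 k543_A00pm_012_s1

theorem t1170_A00pm_012_s1 : ∃ t, chk3 f_A00pm_012_s1 t 49 159 1 = true := ex3_a t1169_A00pm_012_s1 k544_A00pm_012_s1

theorem t1171_A00pm_012_s1 : ∃ t, chk3 f_A00pm_012_s1 t 49 79 1 = true := ex3_b k540_A00pm_012_s1 t1170_A00pm_012_s1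

theorem t1172_A00pm_012_s1 : ∃ t, chk3 f_A00pm_012_s1 t 97 317 1 = true := ex3_a k537_A00pm_012_s1 k538_A00pm_012_s1

theorem t1173_A00pm_012_s1 : ∃ t, chk3 f_A00pm_012_s1 t 97 158 1 = true := ex3_b k536_A00pm_012_s1 t1172_A00pm_012_s1

theorem t1174_A00pm_012_s1 : ∃ t, chk3 f_A00pm_012_s1 t 48 158 1 = true := ex3_a k535_A00pm_012_s1 t1173_A00pm_012_s1

theorem t1175_A00pm_012_s1 : ∃ t, chk3 f_A00pm_012_s1 t 48 79 1 = true := ex3_b t1174_A00pm_012_s1 k539_A00pm_012_s1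

theorem t1176_A00pm_012_s1 : ∃ t, chk3 f_A00pm_012_s1 t 24 79 1 = true := ex3_a t1175_A00pm_012_s1 t1171_A00pm_012_s1

theorem t1177_A00pm_012_s1 : ∃ t, chk3 f_A00pm_012_s1 t 199 629 1 = true := ex3_a k532_A00pm_012_s1 k533_A00pm_012_s1

theorem t1178_A00pm_012_s1 : ∃ t, chk3 f_A00pm_012_s1 t 199 314 1 = true := ex3_b k531_A00pm_012_s1 t1177_A00pm_012_s1

theorem t1179_A00pm_012_s1 : ∃ t, chk3 f_A00pm_012_s1 t 99 314 1 = true := ex3_a k530_A00pm_012_s1 t1178_A00pm_012_s1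

theorem t1180_A00pm_012_s1 : ∃ t, chk3 f_A00pm_012_s1 t 99 157 1 = true := ex3_b t1179_A00pm_012_s1 k534_A00pm_012_s1

theorem t1181_A00pm_012_s1 : ∃ t, chk3 f_A00pm_012_s1 t 49 157 1 = true := ex3_a k529_A00pm_012_s1 t1180_A00pm_012_s1

theorem t1182_A00pm_012_s1 : ∃ t, chk3 f_A00pm_012_s1 t 197 313 1 = true := ex3_b k526_A00pm_012_s1 k527_A00pm_012_s1

theorem t1183_A00pm_012_s1 : ∃ t, chk3 f_A00pm_012_s1 t 98 313 1 = true := ex3_a k525_A00pm_012_s1 t1182_A00pm_012_s1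

theorem t1184_A00pm_012_s1 : ∃ t, chk3 f_A00pm_012_s1 t 98 156 1 = true := ex3_b k524_A00pm_012_s1 t1183_A00pm_012_s1

theorem t1185_A00pm_012_s1 : ∃ t, chk3 f_A00pm_012_s1 t 49 156 1 = true := ex3_a t1184_A00pm_012_s1 k528_A00pm_012_s1

theorem t1186_A00pm_012_s1 : ∃ t, chk3 f_A00pm_012_s1 t 49 78 1 = true := ex3_b t1185_A00pm_012_s1 t1181_A00pm_012_s1

theorem t1187_A00pm_012_s1 : ∃ t, chk3 f_A00pm_012_s1 t 195 312 1 = true := ex3_b k520_A00pm_012_s1 k521_A00pm_012_s1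

theorem t1188_A00pm_012_s1 : ∃ t, chk3 f_A00pm_012_s1 t 97 312 1 = true := ex3_a k519_A00pm_012_s1 t1187_A00pm_012_s1

theorem t1189_A00pm_012_s1 : ∃ t, chk3 f_A00pm_012_s1 t 97 156 1 = true := ex3_b t1188_A00pm_012_s1 k522_A00pm_012_s1

theorem t1190_A00pm_012_s1 : ∃ t, chk3 f_A00pm_012_s1 t 48 156 1 = true := ex3_a k518_A00pm_012_s1 t1189_A00pm_012_s1

theorem t1191_A00pm_012_s1 : ∃ t, chk3 f_A00pm_012_s1 t 48 78 1 = true := ex3_b t1190_A00pm_012_s1 k523_A00pm_012_s1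

theorem t1192_A00pm_012_s1 : ∃ t, chk3 f_A00pm_012_s1 t 24 78 1 = true := ex3_a t1191_A00pm_012_s1 t1186_A00pm_012_s1

theorem t1193_A00pm_012_s1 : ∃ t, chk3 f_A00pm_012_s1 t 24 39 1 = true := ex3_b t1192_A00pm_012_s1 t1176_A00pm_012_s1

theorem t1194_A00pm_012_s1 : ∃ t, chk3 f_A00pm_012_s1 t 12 39 1 = true := ex3_a t1193_A00pm_012_s1 t1167_A00pm_012_s1

theorem t1195_A00pm_012_s1 : ∃ t, chk3 f_A00pm_012_s1 t 97 155 1 = true := ex3_b k514_A00pm_012_s1 k515_A00pm_012_s1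

theorem t1196_A00pm_012_s1 : ∃ t, chk3 f_A00pm_012_s1 t 96 155 1 = true := ex3_b k512_A00pm_012_s1 k513_A00pm_012_s1

theorem t1197_A00pm_012_s1 : ∃ t, chk3 f_A00pm_012_s1 t 48 155 1 = true := ex3_a t1196_A00pm_012_s1 t1195_A00pm_012_s1

theorem t1198_A00pm_012_s1 : ∃ t, chk3 f_A00pm_012_s1 t 48 77 1 = true := ex3_b k511_A00pm_012_s1 t1197_A00pm_012_s1

theorem t1199_A00pm_012_s1 : ∃ t, chk3 f_A00pm_012_s1 t 24 77 1 = true := ex3_a t1198_A00pm_012_s1 k516_A00pm_012_s1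

theorem t1200_A00pm_012_s1 : ∃ t, chk3 f_A00pm_012_s1 t 24 38 1 = true := ex3_b k510_A00pm_012_s1 t1199_A00pm_012_s1

theorem t1201_A00pm_012_s1 : ∃ t, chk3 f_A00pm_012_s1 t 12 38 1 = true := ex3_a t1200_A00pm_012_s1 k517_A00pm_012_s1

theorem t1202_A00pm_012_s1 : ∃ t, chk3 f_A00pm_012_s1 t 12 19 1 = true := ex3_b t1201_A00pm_012_s1 t1194_A00pm_012_s1

theorem t1203_A00pm_012_s1 : ∃ t, chk3 f_A00pm_012_s1 t 12 9 1 = true := ex3_b k509_A00pm_012_s1 t1202_A00pm_012_s1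

theorem t1204_A00pm_012_s1 : ∃ t, chk3 f_A00pm_012_s1 t 6 9 1 = true := ex3_a t1203_A00pm_012_s1 t1140_A00pm_012_s1

theorem t1205_A00pm_012_s1 : ∃ t, chk3 f_A00pm_012_s1 t 3 9 1 = true := ex3_a t1204_A00pm_012_s1 k581_A00pm_012_s1

theorem t1206_A00pm_012_s1 : ∃ t, chk3 f_A00pm_012_s1 t 3 4 1 = true := ex3_b k508_A00pm_012_s1 t1205_A00pm_012_s1

theorem t1207_A00pm_012_s1 : ∃ t, chk3 f_A00pm_012_s1 t 95 157 1 = true := ex3_b k505_A00pm_012_s1 k506_A00pm_012_s1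

theorem t1208_A00pm_012_s1 : ∃ t, chk3 f_A00pm_012_s1 t 47 157 1 = true := ex3_a k504_A00pm_012_s1 t1207_A00pm_012_s1

theorem t1209_A00pm_012_s1 : ∃ t, chk3 f_A00pm_012_s1 t 94 156 1 = true := ex3_b k501_A00pm_012_s1 k502_A00pm_012_s1

theorem t1210_A00pm_012_s1 : ∃ t, chk3 f_A00pm_012_s1 t 47 156 1 = true := ex3_a t1209_A00pm_012_s1 k503_A00pm_012_s1

theorem t1211_A00pm_012_s1 : ∃ t, chk3 f_A00pm_012_s1 t 47 78 1 = true := ex3_b t1210_A00pm_012_s1 t1208_A00pm_012_s1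

theorem t1212_A00pm_012_s1 : ∃ t, chk3 f_A00pm_012_s1 t 46 78 1 = true := ex3_b k499_A00pm_012_s1 k500_A00pm_012_s1

theorem t1213_A00pm_012_s1 : ∃ t, chk3 f_A00pm_012_s1 t 23 78 1 = true := ex3_a t1212_A00pm_012_s1 t1211_A00pm_012_s1

theorem t1214_A00pm_012_s1 : ∃ t, chk3 f_A00pm_012_s1 t 23 39 1 = true := ex3_b t1213_A00pm_012_s1 k507_A00pm_012_s1

theorem t1215_A00pm_012_s1 : ∃ t, chk3 f_A00pm_012_s1 t 11 39 1 = true := ex3_a k498_A00pm_012_s1 t1214_A00pm_012_s1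

theorem t1216_A00pm_012_s1 : ∃ t, chk3 f_A00pm_012_s1 t 95 309 1 = true := ex3_a k495_A00pm_012_s1 k496_A00pm_012_s1

theorem t1217_A00pm_012_s1 : ∃ t, chk3 f_A00pm_012_s1 t 95 154 1 = true := ex3_b k494_A00pm_012_s1 t1216_A00pm_012_s1

theorem t1218_A00pm_012_s1 : ∃ t, chk3 f_A00pm_012_s1 t 94 308 1 = true := ex3_a k491_A00pm_012_s1 k492_A00pm_012_s1

theorem t1219_A00pm_012_s1 : ∃ t, chk3 f_A00pm_012_s1 t 94 154 1 = true := ex3_b t1218_A00pm_012_s1 k493_A00pm_012_s1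

theorem t1220_A00pm_012_s1 : ∃ t, chk3 f_A00pm_012_s1 t 47 154 1 = true := ex3_a t1219_A00pm_012_s1 t1217_A00pm_012_s1

theorem t1221_A00pm_012_s1 : ∃ t, chk3 f_A00pm_012_s1 t 47 77 1 = true := ex3_b t1220_A00pm_012_s1 k497_A00pm_012_s1

theorem t1222_A00pm_012_s1 : ∃ t, chk3 f_A00pm_012_s1 t 46 155 1 = true := ex3_a k489_A00pm_012_s1 k490_A00pm_012_s1

theorem t1223_A00pm_012_s1 : ∃ t, chk3 f_A00pm_012_s1 t 46 77 1 = true := ex3_b k488_A00pm_012_s1 t1222_A00pm_012_s1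

theorem t1224_A00pm_012_s1 : ∃ t, chk3 f_A00pm_012_s1 t 23 77 1 = true := ex3_a t1223_A00pm_012_s1 t1221_A00pm_012_s1

theorem t1225_A00pm_012_s1 : ∃ t, chk3 f_A00pm_012_s1 t 93 153 1 = true := ex3_b k485_A00pm_012_s1 k486_A00pm_012_s1

theorem t1226_A00pm_012_s1 : ∃ t, chk3 f_A00pm_012_s1 t 46 153 1 = true := ex3_a k484_A00pm_012_s1 t1225_A00pm_012_s1

theorem t1227_A00pm_012_s1 : ∃ t, chk3 f_A00pm_012_s1 t 92 152 1 = true := ex3_b k481_A00pm_012_s1 k482_A00pm_012_s1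

theorem t1228_A00pm_012_s1 : ∃ t, chk3 f_A00pm_012_s1 t 46 152 1 = true := ex3_a t1227_A00pm_012_s1 k483_A00pm_012_s1

theorem t1229_A00pm_012_s1 : ∃ t, chk3 f_A00pm_012_s1 t 46 76 1 = true := ex3_b t1228_A00pm_012_s1 t1226_A00pm_012_s1

theorem t1230_A00pm_012_s1 : ∃ t, chk3 f_A00pm_012_s1 t 23 76 1 = true := ex3_a t1229_A00pm_012_s1 k487_A00pm_012_s1

theorem t1231_A00pm_012_s1 : ∃ t, chk3 f_A00pm_012_s1 t 23 38 1 = true := ex3_b t1230_A00pm_012_s1 t1224_A00pm_012_s1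

theorem t1232_A00pm_012_s1 : ∃ t, chk3 f_A00pm_012_s1 t 22 77 1 = true := ex3_a k479_A00pm_012_s1 k480_A00pm_012_s1

theorem t1233_A00pm_012_s1 : ∃ t, chk3 f_A00pm_012_s1 t 91 304 1 = true := ex3_a k475_A00pm_012_s1 k476_A00pm_012_s1

theorem t1234_A00pm_012_s1 : ∃ t, chk3 f_A00pm_012_s1 t 91 152 1 = true := ex3_b t1233_A00pm_012_s1 k477_A00pm_012_s1

theorem t1235_A00pm_012_s1 : ∃ t, chk3 f_A00pm_012_s1 t 90 152 1 = true := ex3_c k473_A00pm_012_s1 k474_A00pm_012_s1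

theorem t1236_A00pm_012_s1 : ∃ t, chk3 f_A00pm_012_s1 t 45 152 1 = true := ex3_a t1235_A00pm_012_s1 t1234_A00pm_012_s1

theorem t1237_A00pm_012_s1 : ∃ t, chk3 f_A00pm_012_s1 t 45 76 1 = true := ex3_b t1236_A00pm_012_s1 k478_A00pm_012_s1

theorem t1238_A00pm_012_s1 : ∃ t, chk3 f_A00pm_012_s1 t 44 152 1 = true := ex3_a k470_A00pm_012_s1 k471_A00pm_012_s1

theorem t1239_A00pm_012_s1 : ∃ t, chk3 f_A00pm_012_s1 t 44 76 1 = true := ex3_b t1238_A00pm_012_s1 k472_A00pm_012_s1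

theorem t1240_A00pm_012_s1 : ∃ t, chk3 f_A00pm_012_s1 t 22 76 1 = true := ex3_a t1239_A00pm_012_s1 t1237_A00pm_012_s1

theorem t1241_A00pm_012_s1 : ∃ t, chk3 f_A00pm_012_s1 t 22 38 1 = true := ex3_b t1240_A00pm_012_s1 t1232_A00pm_012_s1

theorem t1242_A00pm_012_s1 : ∃ t, chk3 f_A00pm_012_s1 t 11 38 1 = true := ex3_a t1241_A00pm_012_s1 t1231_A00pm_012_s1

theorem t1243_A00pm_012_s1 : ∃ t, chk3 f_A00pm_012_s1 t 11 19 1 = true := ex3_b t1242_A00pm_012_s1 t1215_A00pm_012_s1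

theorem t1244_A00pm_012_s1 : ∃ t, chk3 f_A00pm_012_s1 t 10 38 1 = true := ex3_a k467_A00pm_012_s1 k468_A00pm_012_s1

theorem t1245_A00pm_012_s1 : ∃ t, chk3 f_A00pm_012_s1 t 10 19 1 = true := ex3_b t1244_A00pm_012_s1 k469_A00pm_012_s1

theorem t1246_A00pm_012_s1 : ∃ t, chk3 f_A00pm_012_s1 t 5 19 1 = true := ex3_a t1245_A00pm_012_s1 t1243_A00pm_012_s1

theorem t1247_A00pm_012_s1 : ∃ t, chk3 f_A00pm_012_s1 t 91 303 1 = true := ex3_a k464_A00pm_012_s1 k465_A00pm_012_s1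

theorem t1248_A00pm_012_s1 : ∃ t, chk3 f_A00pm_012_s1 t 91 151 1 = true := ex3_b k463_A00pm_012_s1 t1247_A00pm_012_s1

theorem t1249_A00pm_012_s1 : ∃ t, chk3 f_A00pm_012_s1 t 181 303 1 = true := ex3_b k461_A00pm_012_s1 k462_A00pm_012_s1

theorem t1250_A00pm_012_s1 : ∃ t, chk3 f_A00pm_012_s1 t 90 303 1 = true := ex3_a k460_A00pm_012_s1 t1249_A00pm_012_s1

theorem t1251_A00pm_012_s1 : ∃ t, chk3 f_A00pm_012_s1 t 90 302 1 = true := ex3_a k458_A00pm_012_s1 k459_A00pm_012_s1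

theorem t1252_A00pm_012_s1 : ∃ t, chk3 f_A00pm_012_s1 t 90 151 1 = true := ex3_b t1251_A00pm_012_s1 t1250_A00pm_012_s1

theorem t1253_A00pm_012_s1 : ∃ t, chk3 f_A00pm_012_s1 t 45 151 1 = true := ex3_a t1252_A00pm_012_s1 t1248_A00pm_012_s1

theorem t1254_A00pm_012_s1 : ∃ t, chk3 f_A00pm_012_s1 t 45 75 1 = true := ex3_b k457_A00pm_012_s1 t1253_A00pm_012_s1

theorem t1255_A00pm_012_s1 : ∃ t, chk3 f_A00pm_012_s1 t 89 151 2 = true := ex3_b k454_A00pm_012_s1 k455_A00pm_012_s1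

theorem t1256_A00pm_012_s1 : ∃ t, chk3 f_A00pm_012_s1 t 89 151 1 = true := ex3_c t1255_A00pm_012_s1 k456_A00pm_012_s1

theorem t1257_A00pm_012_s1 : ∃ t, chk3 f_A00pm_012_s1 t 44 151 1 = true := ex3_a k453_A00pm_012_s1 t1256_A00pm_012_s1

theorem t1258_A00pm_012_s1 : ∃ t, chk3 f_A00pm_012_s1 t 89 150 1 = true := ex3_b k451_A00pm_012_s1 k452_A00pm_012_s1

theorem t1259_A00pm_012_s1 : ∃ t, chk3 f_A00pm_012_s1 t 88 150 1 = true := ex3_b k449_A00pm_012_s1 k450_A00pm_012_s1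

theorem t1260_A00pm_012_s1 : ∃ t, chk3 f_A00pm_012_s1 t 44 150 1 = true := ex3_a t1259_A00pm_012_s1 t1258_A00pm_012_s1

theorem t1261_A00pm_012_s1 : ∃ t, chk3 f_A00pm_012_s1 t 44 75 1 = true := ex3_b t1260_A00pm_012_s1 t1257_A00pm_012_s1

theorem t1262_A00pm_012_s1 : ∃ t, chk3 f_A00pm_012_s1 t 22 75 1 = true := ex3_a t1261_A00pm_012_s1 t1254_A00pm_012_s1

theorem t1263_A00pm_012_s1 : ∃ t, chk3 f_A00pm_012_s1 t 44 74 1 = true := ex3_b k446_A00pm_012_s1 k447_A00pm_012_s1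

theorem t1264_A00pm_012_s1 : ∃ t, chk3 f_A00pm_012_s1 t 22 74 1 = true := ex3_a t1263_A00pm_012_s1 k448_A00pm_012_s1

theorem t1265_A00pm_012_s1 : ∃ t, chk3 f_A00pm_012_s1 t 22 37 1 = true := ex3_b t1264_A00pm_012_s1 t1262_A00pm_012_s1

theorem t1266_A00pm_012_s1 : ∃ t, chk3 f_A00pm_012_s1 t 11 37 1 = true := ex3_a t1265_A00pm_012_s1 k466_A00pm_012_s1

theorem t1267_A00pm_012_s1 : ∃ t, chk3 f_A00pm_012_s1 t 11 18 1 = true := ex3_b k445_A00pm_012_s1 t1266_A00pm_012_s1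

theorem t1268_A00pm_012_s1 : ∃ t, chk3 f_A00pm_012_s1 t 43 150 1 = true := ex3_a k442_A00pm_012_s1 k443_A00pm_012_s1

theorem t1269_A00pm_012_s1 : ∃ t, chk3 f_A00pm_012_s1 t 43 75 1 = true := ex3_b t1268_A00pm_012_s1 k444_A00pm_012_s1

theorem t1270_A00pm_012_s1 : ∃ t, chk3 f_A00pm_012_s1 t 21 75 1 = true := ex3_a k441_A00pm_012_s1 t1269_A00pm_012_s1

theorem t1271_A00pm_012_s1 : ∃ t, chk3 f_A00pm_012_s1 t 175 298 1 = true := ex3_b k438_A00pm_012_s1 k439_A00pm_012_s1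

theorem t1272_A00pm_012_s1 : ∃ t, chk3 f_A00pm_012_s1 t 349 596 1 = true := ex3_b k435_A00pm_012_s1 k436_A00pm_012_s1

theorem t1273_A00pm_012_s1 : ∃ t, chk3 f_A00pm_012_s1 t 174 596 1 = true := ex3_a k434_A00pm_012_s1 t1272_A00pm_012_s1

theorem t1274_A00pm_012_s1 : ∃ t, chk3 f_A00pm_012_s1 t 174 298 1 = true := ex3_b t1273_A00pm_012_s1 k437_A00pm_012_s1

theorem t1275_A00pm_012_s1 : ∃ t, chk3 f_A00pm_012_s1 t 87 298 1 = true := ex3_a t1274_A00pm_012_s1 t1271_A00pm_012_s1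

theorem t1276_A00pm_012_s1 : ∃ t, chk3 f_A00pm_012_s1 t 87 149 1 = true := ex3_b t1275_A00pm_012_s1 k440_A00pm_012_s1

theorem t1277_A00pm_012_s1 : ∃ t, chk3 f_A00pm_012_s1 t 43 149 1 = true := ex3_a k433_A00pm_012_s1 t1276_A00pm_012_s1

theorem t1278_A00pm_012_s1 : ∃ t, chk3 f_A00pm_012_s1 t 1394 2382 1 = true := ex3_b k427_A00pm_012_s1 k428_A00pm_012_s1

theorem t1279_A00pm_012_s1 : ∃ t, chk3 f_A00pm_012_s1 t 697 2382 1 = true := ex3_a t1278_A00pm_012_s1 k429_A00pm_012_s1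

theorem t1280_A00pm_012_s1 : ∃ t, chk3 f_A00pm_012_s1 t 697 1191 1 = true := ex3_b t1279_A00pm_012_s1 k430_A00pm_012_s1

theorem t1281_A00pm_012_s1 : ∃ t, chk3 f_A00pm_012_s1 t 348 1191 1 = true := ex3_a k426_A00pm_012_s1 t1280_A00pm_012_s1

theorem t1282_A00pm_012_s1 : ∃ t, chk3 f_A00pm_012_s1 t 696 1190 1 = true := ex3_b k423_A00pm_012_s1 k424_A00pm_012_s1

theorem t1283_A00pm_012_s1 : ∃ t, chk3 f_A00pm_012_s1 t 348 1190 1 = true := ex3_a t1282_A00pm_012_s1 k425_A00pm_012_s1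

theorem t1284_A00pm_012_s1 : ∃ t, chk3 f_A00pm_012_s1 t 348 595 1 = true := ex3_b t1283_A00pm_012_s1 t1281_A00pm_012_s1

theorem t1285_A00pm_012_s1 : ∃ t, chk3 f_A00pm_012_s1 t 174 595 1 = true := ex3_a t1284_A00pm_012_s1 k431_A00pm_012_s1

theorem t1286_A00pm_012_s1 : ∃ t, chk3 f_A00pm_012_s1 t 174 297 1 = true := ex3_b k422_A00pm_012_s1 t1285_A00pm_012_s1

theorem t1287_A00pm_012_s1 : ∃ t, chk3 f_A00pm_012_s1 t 87 297 1 = true := ex3_a t1286_A00pm_012_s1 k432_A00pm_012_s1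

theorem t1288_A00pm_012_s1 : ∃ t, chk3 f_A00pm_012_s1 t 87 148 1 = true := ex3_b k421_A00pm_012_s1 t1287_A00pm_012_s1

theorem t1289_A00pm_012_s1 : ∃ t, chk3 f_A00pm_012_s1 t 347 594 1 = true := ex3_b k418_A00pm_012_s1 k419_A00pm_012_s1

theorem t1290_A00pm_012_s1 : ∃ t, chk3 f_A00pm_012_s1 t 173 594 1 = true := ex3_a k417_A00pm_012_s1 t1289_A00pm_012_s1

theorem t1291_A00pm_012_s1 : ∃ t, chk3 f_A00pm_012_s1 t 173 297 1 = true := ex3_b t1290_A00pm_012_s1 k420_A00pm_012_s1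

theorem t1292_A00pm_012_s1 : ∃ t, chk3 f_A00pm_012_s1 t 86 297 1 = true := ex3_a k416_A00pm_012_s1 t1291_A00pm_012_s1

theorem t1293_A00pm_012_s1 : ∃ t, chk3 f_A00pm_012_s1 t 172 296 1 = true := ex3_b k413_A00pm_012_s1 k414_A00pm_012_s1

theorem t1294_A00pm_012_s1 : ∃ t, chk3 f_A00pm_012_s1 t 86 296 1 = true := ex3_a t1293_A00pm_012_s1 k415_A00pm_012_s1

theorem t1295_A00pm_012_s1 : ∃ t, chk3 f_A00pm_012_s1 t 86 148 1 = true := ex3_b t1294_A00pm_012_s1 t1292_A00pm_012_s1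

theorem t1296_A00pm_012_s1 : ∃ t, chk3 f_A00pm_012_s1 t 43 148 1 = true := ex3_a t1295_A00pm_012_s1 t1288_A00pm_012_s1

theorem t1297_A00pm_012_s1 : ∃ t, chk3 f_A00pm_012_s1 t 43 74 1 = true := ex3_b t1296_A00pm_012_s1 t1277_A00pm_012_s1

theorem t1298_A00pm_012_s1 : ∃ t, chk3 f_A00pm_012_s1 t 42 74 1 = true := ex3_b k411_A00pm_012_s1 k412_A00pm_012_s1

theorem t1299_A00pm_012_s1 : ∃ t, chk3 f_A00pm_012_s1 t 21 74 1 = true := ex3_a t1298_A00pm_012_s1 t1297_A00pm_012_s1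

theorem t1300_A00pm_012_s1 : ∃ t, chk3 f_A00pm_012_s1 t 21 37 1 = true := ex3_b t1299_A00pm_012_s1 t1270_A00pm_012_s1

theorem t1301_A00pm_012_s1 : ∃ t, chk3 f_A00pm_012_s1 t 20 37 1 = true := ex3_b k409_A00pm_012_s1 k410_A00pm_012_s1

theorem t1302_A00pm_012_s1 : ∃ t, chk3 f_A00pm_012_s1 t 10 37 1 = true := ex3_a t1301_A00pm_012_s1 t1300_A00pm_012_s1

theorem t1303_A00pm_012_s1 : ∃ t, chk3 f_A00pm_012_s1 t 85 147 1 = true := ex3_b k406_A00pm_012_s1 k407_A00pm_012_s1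

theorem t1304_A00pm_012_s1 : ∃ t, chk3 f_A00pm_012_s1 t 84 147 1 = true := ex3_b k404_A00pm_012_s1 k405_A00pm_012_s1

theorem t1305_A00pm_012_s1 : ∃ t, chk3 f_A00pm_012_s1 t 42 147 1 = true := ex3_a t1304_A00pm_012_s1 t1303_A00pm_012_s1

theorem t1306_A00pm_012_s1 : ∃ t, chk3 f_A00pm_012_s1 t 168 293 1 = true := ex3_b k400_A00pm_012_s1 k401_A00pm_012_s1

theorem t1307_A00pm_012_s1 : ∃ t, chk3 f_A00pm_012_s1 t 84 293 1 = true := ex3_a t1306_A00pm_012_s1 k402_A00pm_012_s1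

theorem t1308_A00pm_012_s1 : ∃ t, chk3 f_A00pm_012_s1 t 84 146 1 = true := ex3_b k399_A00pm_012_s1 t1307_A00pm_012_s1

theorem t1309_A00pm_012_s1 : ∃ t, chk3 f_A00pm_012_s1 t 42 146 1 = true := ex3_a t1308_A00pm_012_s1 k403_A00pm_012_s1

theorem t1310_A00pm_012_s1 : ∃ t, chk3 f_A00pm_012_s1 t 42 73 1 = true := ex3_b t1309_A00pm_012_s1 t1305_A00pm_012_s1

theorem t1311_A00pm_012_s1 : ∃ t, chk3 f_A00pm_012_s1 t 21 73 1 = true := ex3_a t1310_A00pm_012_s1 k408_A00pm_012_s1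

theorem t1312_A00pm_012_s1 : ∃ t, chk3 f_A00pm_012_s1 t 21 36 1 = true := ex3_b k398_A00pm_012_s1 t1311_A00pm_012_s1

theorem t1313_A00pm_012_s1 : ∃ t, chk3 f_A00pm_012_s1 t 83 147 1 = true := ex3_b k396_A00pm_012_s1 k397_A00pm_012_s1

theorem t1314_A00pm_012_s1 : ∃ t, chk3 f_A00pm_012_s1 t 41 147 1 = true := ex3_a k395_A00pm_012_s1 t1313_A00pm_012_s1

theorem t1315_A00pm_012_s1 : ∃ t, chk3 f_A00pm_012_s1 t 83 293 2 = true := ex3_c k392_A00pm_012_s1 k393_A00pm_012_s1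

theorem t1316_A00pm_012_s1 : ∃ t, chk3 f_A00pm_012_s1 t 83 293 1 = true := ex3_c t1315_A00pm_012_s1 k394_A00pm_012_s1

theorem t1317_A00pm_012_s1 : ∃ t, chk3 f_A00pm_012_s1 t 167 292 1 = true := ex3_b k390_A00pm_012_s1 k391_A00pm_012_s1

theorem t1318_A00pm_012_s1 : ∃ t, chk3 f_A00pm_012_s1 t 166 292 1 = true := ex3_b k388_A00pm_012_s1 k389_A00pm_012_s1

theorem t1319_A00pm_012_s1 : ∃ t, chk3 f_A00pm_012_s1 t 83 292 1 = true := ex3_a t1318_A00pm_012_s1 t1317_A00pm_012_s1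

theorem t1320_A00pm_012_s1 : ∃ t, chk3 f_A00pm_012_s1 t 83 146 1 = true := ex3_b t1319_A00pm_012_s1 t1316_A00pm_012_s1

theorem t1321_A00pm_012_s1 : ∃ t, chk3 f_A00pm_012_s1 t 82 293 2 = true := ex3_a k385_A00pm_012_s1 k386_A00pm_012_s1

theorem t1322_A00pm_012_s1 : ∃ t, chk3 f_A00pm_012_s1 t 82 293 1 = true := ex3_c t1321_A00pm_012_s1 k387_A00pm_012_s1

theorem t1323_A00pm_012_s1 : ∃ t, chk3 f_A00pm_012_s1 t 165 292 4 = true := ex3_c k381_A00pm_012_s1 k382_A00pm_012_s1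

theorem t1324_A00pm_012_s1 : ∃ t, chk3 f_A00pm_012_s1 t 82 292 4 = true := ex3_a k380_A00pm_012_s1 t1323_A00pm_012_s1

theorem t1325_A00pm_012_s1 : ∃ t, chk3 f_A00pm_012_s1 t 82 292 2 = true := ex3_c t1324_A00pm_012_s1 k383_A00pm_012_s1

theorem t1326_A00pm_012_s1 : ∃ t, chk3 f_A00pm_012_s1 t 82 292 1 = true := ex3_c t1325_A00pm_012_s1 k384_A00pm_012_s1

theorem t1327_A00pm_012_s1 : ∃ t, chk3 f_A00pm_012_s1 t 82 146 1 = true := ex3_b t1326_A00pm_012_s1 t1322_A00pm_012_s1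

theorem t1328_A00pm_012_s1 : ∃ t, chk3 f_A00pm_012_s1 t 41 146 1 = true := ex3_a t1327_A00pm_012_s1 t1320_A00pm_012_s1

theorem t1329_A00pm_012_s1 : ∃ t, chk3 f_A00pm_012_s1 t 41 73 1 = true := ex3_b t1328_A00pm_012_s1 t1314_A00pm_012_s1

theorem t1330_A00pm_012_s1 : ∃ t, chk3 f_A00pm_012_s1 t 81 292 1 = true := ex3_c k376_A00pm_012_s1 k377_A00pm_012_s1

theorem t1331_A00pm_012_s1 : ∃ t, chk3 f_A00pm_012_s1 t 81 146 1 = true := ex3_b t1330_A00pm_012_s1 k378_A00pm_012_s1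

theorem t1332_A00pm_012_s1 : ∃ t, chk3 f_A00pm_012_s1 t 40 146 1 = true := ex3_a k375_A00pm_012_s1 t1331_A00pm_012_s1

theorem t1333_A00pm_012_s1 : ∃ t, chk3 f_A00pm_012_s1 t 40 73 1 = true := ex3_b t1332_A00pm_012_s1 k379_A00pm_012_s1

theorem t1334_A00pm_012_s1 : ∃ t, chk3 f_A00pm_012_s1 t 20 73 1 = true := ex3_a t1333_A00pm_012_s1 t1329_A00pm_012_s1

theorem t1335_A00pm_012_s1 : ∃ t, chk3 f_A00pm_012_s1 t 166 583 1 = true := ex3_a k372_A00pm_012_s1 k373_A00pm_012_s1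

theorem t1336_A00pm_012_s1 : ∃ t, chk3 f_A00pm_012_s1 t 166 291 1 = true := ex3_b k371_A00pm_012_s1 t1335_A00pm_012_s1

theorem t1337_A00pm_012_s1 : ∃ t, chk3 f_A00pm_012_s1 t 83 291 1 = true := ex3_a t1336_A00pm_012_s1 k374_A00pm_012_s1

theorem t1338_A00pm_012_s1 : ∃ t, chk3 f_A00pm_012_s1 t 83 145 1 = true := ex3_b k370_A00pm_012_s1 t1337_A00pm_012_s1

theorem t1339_A00pm_012_s1 : ∃ t, chk3 f_A00pm_012_s1 t 165 583 1 = true := ex3_b k368_A00pm_012_s1 k369_A00pm_012_s1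

theorem t1340_A00pm_012_s1 : ∃ t, chk3 f_A00pm_012_s1 t 331 582 1 = true := ex3_b k366_A00pm_012_s1 k367_A00pm_012_s1

theorem t1341_A00pm_012_s1 : ∃ t, chk3 f_A00pm_012_s1 t 165 582 1 = true := ex3_a k365_A00pm_012_s1 t1340_A00pm_012_s1

theorem t1342_A00pm_012_s1 : ∃ t, chk3 f_A00pm_012_s1 t 165 291 1 = true := ex3_b t1341_A00pm_012_s1 t1339_A00pm_012_s1

theorem t1343_A00pm_012_s1 : ∃ t, chk3 f_A00pm_012_s1 t 164 291 8 = true := ex3_b k360_A00pm_012_s1 k361_A00pm_012_s1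

theorem t1344_A00pm_012_s1 : ∃ t, chk3 f_A00pm_012_s1 t 164 291 4 = true := ex3_c t1343_A00pm_012_s1 k362_A00pm_012_s1

theorem t1345_A00pm_012_s1 : ∃ t, chk3 f_A00pm_012_s1 t 164 291 2 = true := ex3_c t1344_A00pm_012_s1 k363_A00pm_012_s1

theorem t1346_A00pm_012_s1 : ∃ t, chk3 f_A00pm_012_s1 t 164 291 1 = true := ex3_c t1345_A00pm_012_s1 k364_A00pm_012_s1

theorem t1347_A00pm_012_s1 : ∃ t, chk3 f_A00pm_012_s1 t 82 291 1 = true := ex3_a t1346_A00pm_012_s1 t1342_A00pm_012_s1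

theorem t1348_A00pm_012_s1 : ∃ t, chk3 f_A00pm_012_s1 t 330 581 1 = true := ex3_b k357_A00pm_012_s1 k358_A00pm_012_s1

theorem t1349_A00pm_012_s1 : ∃ t, chk3 f_A00pm_012_s1 t 165 581 1 = true := ex3_a t1348_A00pm_012_s1 k359_A00pm_012_s1

theorem t1350_A00pm_012_s1 : ∃ t, chk3 f_A00pm_012_s1 t 165 290 1 = true := ex3_b k356_A00pm_012_s1 t1349_A00pm_012_s1

theorem t1351_A00pm_012_s1 : ∃ t, chk3 f_A00pm_012_s1 t 164 581 2 = true := ex3_c k353_A00pm_012_s1 k354_A00pm_012_s1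

theorem t1352_A00pm_012_s1 : ∃ t, chk3 f_A00pm_012_s1 t 164 581 1 = true := ex3_c t1351_A00pm_012_s1 k355_A00pm_012_s1

theorem t1353_A00pm_012_s1 : ∃ t, chk3 f_A00pm_012_s1 t 329 580 1 = true := ex3_b k351_A00pm_012_s1 k352_A00pm_012_s1

theorem t1354_A00pm_012_s1 : ∃ t, chk3 f_A00pm_012_s1 t 164 580 1 = true := ex3_a k350_A00pm_012_s1 t1353_A00pm_012_s1

theorem t1355_A00pm_012_s1 : ∃ t, chk3 f_A00pm_012_s1 t 164 290 1 = true := ex3_b t1354_A00pm_012_s1 t1352_A00pm_012_s1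

theorem t1356_A00pm_012_s1 : ∃ t, chk3 f_A00pm_012_s1 t 82 290 1 = true := ex3_a t1355_A00pm_012_s1 t1350_A00pm_012_s1

theorem t1357_A00pm_012_s1 : ∃ t, chk3 f_A00pm_012_s1 t 82 145 1 = true := ex3_b t1356_A00pm_012_s1 t1347_A00pm_012_s1

theorem t1358_A00pm_012_s1 : ∃ t, chk3 f_A00pm_012_s1 t 41 145 1 = true := ex3_a t1357_A00pm_012_s1 t1338_A00pm_012_s1

theorem t1359_A00pm_012_s1 : ∃ t, chk3 f_A00pm_012_s1 t 82 289 1 = true := ex3_a k347_A00pm_012_s1 k348_A00pm_012_s1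

theorem t1360_A00pm_012_s1 : ∃ t, chk3 f_A00pm_012_s1 t 82 144 1 = true := ex3_b k346_A00pm_012_s1 t1359_A00pm_012_s1

theorem t1361_A00pm_012_s1 : ∃ t, chk3 f_A00pm_012_s1 t 41 144 1 = true := ex3_a t1360_A00pm_012_s1 k349_A00pm_012_s1

theorem t1362_A00pm_012_s1 : ∃ t, chk3 f_A00pm_012_s1 t 41 72 1 = true := ex3_b t1361_A00pm_012_s1 t1358_A00pm_012_s1

theorem t1363_A00pm_012_s1 : ∃ t, chk3 f_A00pm_012_s1 t 163 291 4 = true := ex3_c k342_A00pm_012_s1 k343_A00pm_012_s1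

theorem t1364_A00pm_012_s1 : ∃ t, chk3 f_A00pm_012_s1 t 81 291 4 = true := ex3_a k341_A00pm_012_s1 t1363_A00pm_012_s1

theorem t1365_A00pm_012_s1 : ∃ t, chk3 f_A00pm_012_s1 t 81 291 2 = true := ex3_c t1364_A00pm_012_s1 k344_A00pm_012_s1

theorem t1366_A00pm_012_s1 : ∃ t, chk3 f_A00pm_012_s1 t 81 291 1 = true := ex3_c t1365_A00pm_012_s1 k345_A00pm_012_s1

theorem t1367_A00pm_012_s1 : ∃ t, chk3 f_A00pm_012_s1 t 163 290 8 = true := ex3_a k336_A00pm_012_s1 k337_A00pm_012_s1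

theorem t1368_A00pm_012_s1 : ∃ t, chk3 f_A00pm_012_s1 t 163 290 4 = true := ex3_c t1367_A00pm_012_s1 k338_A00pm_012_s1

theorem t1369_A00pm_012_s1 : ∃ t, chk3 f_A00pm_012_s1 t 81 290 4 = true := ex3_a k335_A00pm_012_s1 t1368_A00pm_012_s1

theorem t1370_A00pm_012_s1 : ∃ t, chk3 f_A00pm_012_s1 t 81 290 2 = true := ex3_c t1369_A00pm_012_s1 k339_A00pm_012_s1

theorem t1371_A00pm_012_s1 : ∃ t, chk3 f_A00pm_012_s1 t 81 290 1 = true := ex3_c t1370_A00pm_012_s1 k340_A00pm_012_s1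

theorem t1372_A00pm_012_s1 : ∃ t, chk3 f_A00pm_012_s1 t 81 145 1 = true := ex3_b t1371_A00pm_012_s1 t1366_A00pm_012_s1

theorem t1373_A00pm_012_s1 : ∃ t, chk3 f_A00pm_012_s1 t 80 290 2 = true := ex3_a k331_A00pm_012_s1 k332_A00pm_012_s1

theorem t1374_A00pm_012_s1 : ∃ t, chk3 f_A00pm_012_s1 t 80 290 1 = true := ex3_c t1373_A00pm_012_s1 k333_A00pm_012_s1

theorem t1375_A00pm_012_s1 : ∃ t, chk3 f_A00pm_012_s1 t 80 145 1 = true := ex3_b t1374_A00pm_012_s1 k334_A00pm_012_s1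

theorem t1376_A00pm_012_s1 : ∃ t, chk3 f_A00pm_012_s1 t 40 145 1 = true := ex3_a t1375_A00pm_012_s1 t1372_A00pm_012_s1

theorem t1377_A00pm_012_s1 : ∃ t, chk3 f_A00pm_012_s1 t 163 578 1 = true := ex3_a k328_A00pm_012_s1 k329_A00pm_012_s1

theorem t1378_A00pm_012_s1 : ∃ t, chk3 f_A00pm_012_s1 t 163 289 1 = true := ex3_b t1377_A00pm_012_s1 k330_A00pm_012_s1

theorem t1379_A00pm_012_s1 : ∃ t, chk3 f_A00pm_012_s1 t 81 289 1 = true := ex3_a k327_A00pm_012_s1 t1378_A00pm_012_s1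

theorem t1380_A00pm_012_s1 : ∃ t, chk3 f_A00pm_012_s1 t 162 288 1 = true := ex3_b k324_A00pm_012_s1 k325_A00pm_012_s1

theorem t1381_A00pm_012_s1 : ∃ t, chk3 f_A00pm_012_s1 t 81 288 1 = true := ex3_a t1380_A00pm_012_s1 k326_A00pm_012_s1

theorem t1382_A00pm_012_s1 : ∃ t, chk3 f_A00pm_012_s1 t 81 144 1 = true := ex3_b t1381_A00pm_012_s1 t1379_A00pm_012_s1

theorem t1383_A00pm_012_s1 : ∃ t, chk3 f_A00pm_012_s1 t 80 289 2 = true := ex3_c k321_A00pm_012_s1 k322_A00pm_012_s1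

theorem t1384_A00pm_012_s1 : ∃ t, chk3 f_A00pm_012_s1 t 80 289 1 = true := ex3_c t1383_A00pm_012_s1 k323_A00pm_012_s1

theorem t1385_A00pm_012_s1 : ∃ t, chk3 f_A00pm_012_s1 t 80 144 1 = true := ex3_b k320_A00pm_012_s1 t1384_A00pm_012_s1

theorem t1386_A00pm_012_s1 : ∃ t, chk3 f_A00pm_012_s1 t 40 144 1 = true := ex3_a t1385_A00pm_012_s1 t1382_A00pm_012_s1

theorem t1387_A00pm_012_s1 : ∃ t, chk3 f_A00pm_012_s1 t 40 72 1 = true := ex3_b t1386_A00pm_012_s1 t1376_A00pm_012_s1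

theorem t1388_A00pm_012_s1 : ∃ t, chk3 f_A00pm_012_s1 t 20 72 1 = true := ex3_a t1387_A00pm_012_s1 t1362_A00pm_012_s1

theorem t1389_A00pm_012_s1 : ∃ t, chk3 f_A00pm_012_s1 t 20 36 1 = true := ex3_b t1388_A00pm_012_s1 t1334_A00pm_012_s1

theorem t1390_A00pm_012_s1 : ∃ t, chk3 f_A00pm_012_s1 t 10 36 1 = true := ex3_a t1389_A00pm_012_s1 t1312_A00pm_012_s1

theorem t1391_A00pm_012_s1 : ∃ t, chk3 f_A00pm_012_s1 t 10 18 1 = true := ex3_b t1390_A00pm_012_s1 t1302_A00pm_012_s1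

theorem t1392_A00pm_012_s1 : ∃ t, chk3 f_A00pm_012_s1 t 5 18 1 = true := ex3_a t1391_A00pm_012_s1 t1267_A00pm_012_s1

theorem t1393_A00pm_012_s1 : ∃ t, chk3 f_A00pm_012_s1 t 5 9 1 = true := ex3_b t1392_A00pm_012_s1 t1246_A00pm_012_s1

theorem t1394_A00pm_012_s1 : ∃ t, chk3 f_A00pm_012_s1 t 19 37 1 = true := ex3_a k317_A00pm_012_s1 k318_A00pm_012_s1

theorem t1395_A00pm_012_s1 : ∃ t, chk3 f_A00pm_012_s1 t 79 144 1 = true := ex3_b k313_A00pm_012_s1 k314_A00pm_012_s1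

theorem t1396_A00pm_012_s1 : ∃ t, chk3 f_A00pm_012_s1 t 39 144 1 = true := ex3_a k312_A00pm_012_s1 t1395_A00pm_012_s1

theorem t1397_A00pm_012_s1 : ∃ t, chk3 f_A00pm_012_s1 t 39 72 1 = true := ex3_b t1396_A00pm_012_s1 k315_A00pm_012_s1

theorem t1398_A00pm_012_s1 : ∃ t, chk3 f_A00pm_012_s1 t 39 36 1 = true := ex3_b t1397_A00pm_012_s1 k316_A00pm_012_s1

theorem t1399_A00pm_012_s1 : ∃ t, chk3 f_A00pm_012_s1 t 38 36 1 = true := ex3_b k310_A00pm_012_s1 k311_A00pm_012_s1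

theorem t1400_A00pm_012_s1 : ∃ t, chk3 f_A00pm_012_s1 t 19 36 1 = true := ex3_a t1399_A00pm_012_s1 t1398_A00pm_012_s1

theorem t1401_A00pm_012_s1 : ∃ t, chk3 f_A00pm_012_s1 t 19 18 1 = true := ex3_b t1400_A00pm_012_s1 t1394_A00pm_012_s1

theorem t1402_A00pm_012_s1 : ∃ t, chk3 f_A00pm_012_s1 t 18 36 1 = true := ex3_a k307_A00pm_012_s1 k308_A00pm_012_s1

theorem t1403_A00pm_012_s1 : ∃ t, chk3 f_A00pm_012_s1 t 18 18 1 = true := ex3_b t1402_A00pm_012_s1 k309_A00pm_012_s1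

theorem t1404_A00pm_012_s1 : ∃ t, chk3 f_A00pm_012_s1 t 9 18 1 = true := ex3_a t1403_A00pm_012_s1 t1401_A00pm_012_s1

theorem t1405_A00pm_012_s1 : ∃ t, chk3 f_A00pm_012_s1 t 4 18 1 = true := ex3_a k306_A00pm_012_s1 t1404_A00pm_012_s1

theorem t1406_A00pm_012_s1 : ∃ t, chk3 f_A00pm_012_s1 t 4 9 1 = true := ex3_b t1405_A00pm_012_s1 k319_A00pm_012_s1

theorem t1407_A00pm_012_s1 : ∃ t, chk3 f_A00pm_012_s1 t 2 9 1 = true := ex3_a t1406_A00pm_012_s1 t1393_A00pm_012_s1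

theorem t1408_A00pm_012_s1 : ∃ t, chk3 f_A00pm_012_s1 t 80 287 1 = true := ex3_a k300_A00pm_012_s1 k301_A00pm_012_s1

theorem t1409_A00pm_012_s1 : ∃ t, chk3 f_A00pm_012_s1 t 80 143 1 = true := ex3_b k299_A00pm_012_s1 t1408_A00pm_012_s1

theorem t1410_A00pm_012_s1 : ∃ t, chk3 f_A00pm_012_s1 t 40 143 1 = true := ex3_a t1409_A00pm_012_s1 k302_A00pm_012_s1

theorem t1411_A00pm_012_s1 : ∃ t, chk3 f_A00pm_012_s1 t 40 71 1 = true := ex3_b k298_A00pm_012_s1 t1410_A00pm_012_s1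

theorem t1412_A00pm_012_s1 : ∃ t, chk3 f_A00pm_012_s1 t 20 71 1 = true := ex3_a t1411_A00pm_012_s1 k303_A00pm_012_s1

theorem t1413_A00pm_012_s1 : ∃ t, chk3 f_A00pm_012_s1 t 20 35 1 = true := ex3_b k297_A00pm_012_s1 t1412_A00pm_012_s1

theorem t1414_A00pm_012_s1 : ∃ t, chk3 f_A00pm_012_s1 t 10 35 1 = true := ex3_a t1413_A00pm_012_s1 k304_A00pm_012_s1

theorem t1415_A00pm_012_s1 : ∃ t, chk3 f_A00pm_012_s1 t 10 17 1 = true := ex3_b k296_A00pm_012_s1 t1414_A00pm_012_s1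

theorem t1416_A00pm_012_s1 : ∃ t, chk3 f_A00pm_012_s1 t 10 8 1 = true := ex3_b k295_A00pm_012_s1 t1415_A00pm_012_s1

theorem t1417_A00pm_012_s1 : ∃ t, chk3 f_A00pm_012_s1 t 5 8 1 = true := ex3_a t1416_A00pm_012_s1 k305_A00pm_012_s1

theorem t1418_A00pm_012_s1 : ∃ t, chk3 f_A00pm_012_s1 t 79 143 1 = true := ex3_b k293_A00pm_012_s1 k294_A00pm_012_s1

theorem t1419_A00pm_012_s1 : ∃ t, chk3 f_A00pm_012_s1 t 78 143 1 = true := ex3_b k291_A00pm_012_s1 k292_A00pm_012_s1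

theorem t1420_A00pm_012_s1 : ∃ t, chk3 f_A00pm_012_s1 t 39 143 1 = true := ex3_a t1419_A00pm_012_s1 t1418_A00pm_012_s1

theorem t1421_A00pm_012_s1 : ∃ t, chk3 f_A00pm_012_s1 t 318 571 1 = true := ex3_a k288_A00pm_012_s1 k289_A00pm_012_s1

theorem t1422_A00pm_012_s1 : ∃ t, chk3 f_A00pm_012_s1 t 159 571 1 = true := ex3_a t1421_A00pm_012_s1 k290_A00pm_012_s1

theorem t1423_A00pm_012_s1 : ∃ t, chk3 f_A00pm_012_s1 t 159 285 1 = true := ex3_b k287_A00pm_012_s1 t1422_A00pm_012_s1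

theorem t1424_A00pm_012_s1 : ∃ t, chk3 f_A00pm_012_s1 t 79 285 1 = true := ex3_a k286_A00pm_012_s1 t1423_A00pm_012_s1

theorem t1425_A00pm_012_s1 : ∃ t, chk3 f_A00pm_012_s1 t 79 142 1 = true := ex3_b k285_A00pm_012_s1 t1424_A00pm_012_s1

theorem t1426_A00pm_012_s1 : ∃ t, chk3 f_A00pm_012_s1 t 78 142 1 = true := ex3_b k283_A00pm_012_s1 k284_A00pm_012_s1

theorem t1427_A00pm_012_s1 : ∃ t, chk3 f_A00pm_012_s1 t 39 142 1 = true := ex3_a t1426_A00pm_012_s1 t1425_A00pm_012_s1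

theorem t1428_A00pm_012_s1 : ∃ t, chk3 f_A00pm_012_s1 t 39 71 1 = true := ex3_b t1427_A00pm_012_s1 t1420_A00pm_012_s1

theorem t1429_A00pm_012_s1 : ∃ t, chk3 f_A00pm_012_s1 t 77 142 1 = true := ex3_b k280_A00pm_012_s1 k281_A00pm_012_s1

theorem t1430_A00pm_012_s1 : ∃ t, chk3 f_A00pm_012_s1 t 38 142 1 = true := ex3_a k279_A00pm_012_s1 t1429_A00pm_012_s1

theorem t1431_A00pm_012_s1 : ∃ t, chk3 f_A00pm_012_s1 t 38 71 1 = true := ex3_b t1430_A00pm_012_s1 k282_A00pm_012_s1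

theorem t1432_A00pm_012_s1 : ∃ t, chk3 f_A00pm_012_s1 t 19 71 1 = true := ex3_a t1431_A00pm_012_s1 t1428_A00pm_012_s1

theorem t1433_A00pm_012_s1 : ∃ t, chk3 f_A00pm_012_s1 t 156 283 1 = true := ex3_b k275_A00pm_012_s1 k276_A00pm_012_s1

theorem t1434_A00pm_012_s1 : ∃ t, chk3 f_A00pm_012_s1 t 78 283 1 = true := ex3_a t1433_A00pm_012_s1 k277_A00pm_012_s1

theorem t1435_A00pm_012_s1 : ∃ t, chk3 f_A00pm_012_s1 t 78 141 1 = true := ex3_b k274_A00pm_012_s1 t1434_A00pm_012_s1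

theorem t1436_A00pm_012_s1 : ∃ t, chk3 f_A00pm_012_s1 t 39 141 1 = true := ex3_a t1435_A00pm_012_s1 k278_A00pm_012_s1

theorem t1437_A00pm_012_s1 : ∃ t, chk3 f_A00pm_012_s1 t 39 70 1 = true := ex3_b k273_A00pm_012_s1 t1436_A00pm_012_s1

theorem t1438_A00pm_012_s1 : ∃ t, chk3 f_A00pm_012_s1 t 310 564 1 = true := ex3_b k268_A00pm_012_s1 k269_A00pm_012_s1

theorem t1439_A00pm_012_s1 : ∃ t, chk3 f_A00pm_012_s1 t 155 564 1 = true := ex3_a t1438_A00pm_012_s1 k270_A00pm_012_s1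

theorem t1440_A00pm_012_s1 : ∃ t, chk3 f_A00pm_012_s1 t 155 282 1 = true := ex3_b t1439_A00pm_012_s1 k271_A00pm_012_s1

theorem t1441_A00pm_012_s1 : ∃ t, chk3 f_A00pm_012_s1 t 77 282 1 = true := ex3_a k267_A00pm_012_s1 t1440_A00pm_012_s1

theorem t1442_A00pm_012_s1 : ∃ t, chk3 f_A00pm_012_s1 t 77 141 1 = true := ex3_b t1441_A00pm_012_s1 k272_A00pm_012_s1

theorem t1443_A00pm_012_s1 : ∃ t, chk3 f_A00pm_012_s1 t 153 141 1 = true := ex3_b k265_A00pm_012_s1 k266_A00pm_012_s1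

theorem t1444_A00pm_012_s1 : ∃ t, chk3 f_A00pm_012_s1 t 152 141 1 = true := ex3_b k263_A00pm_012_s1 k264_A00pm_012_s1

theorem t1445_A00pm_012_s1 : ∃ t, chk3 f_A00pm_012_s1 t 76 141 1 = true := ex3_a t1444_A00pm_012_s1 t1443_A00pm_012_s1

theorem t1446_A00pm_012_s1 : ∃ t, chk3 f_A00pm_012_s1 t 38 141 1 = true := ex3_a t1445_A00pm_012_s1 t1442_A00pm_012_s1

theorem t1447_A00pm_012_s1 : ∃ t, chk3 f_A00pm_012_s1 t 309 563 1 = true := ex3_a k260_A00pm_012_s1 k261_A00pm_012_s1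

theorem t1448_A00pm_012_s1 : ∃ t, chk3 f_A00pm_012_s1 t 154 563 1 = true := ex3_a k259_A00pm_012_s1 t1447_A00pm_012_s1

theorem t1449_A00pm_012_s1 : ∃ t, chk3 f_A00pm_012_s1 t 308 562 1 = true := ex3_a k256_A00pm_012_s1 k257_A00pm_012_s1

theorem t1450_A00pm_012_s1 : ∃ t, chk3 f_A00pm_012_s1 t 154 562 1 = true := ex3_a t1449_A00pm_012_s1 k258_A00pm_012_s1

theorem t1451_A00pm_012_s1 : ∃ t, chk3 f_A00pm_012_s1 t 154 281 1 = true := ex3_b t1450_A00pm_012_s1 t1448_A00pm_012_s1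

theorem t1452_A00pm_012_s1 : ∃ t, chk3 f_A00pm_012_s1 t 77 281 1 = true := ex3_a t1451_A00pm_012_s1 k262_A00pm_012_s1

theorem t1453_A00pm_012_s1 : ∃ t, chk3 f_A00pm_012_s1 t 77 140 1 = true := ex3_b k255_A00pm_012_s1 t1452_A00pm_012_s1

theorem t1454_A00pm_012_s1 : ∃ t, chk3 f_A00pm_012_s1 t 153 562 1 = true := ex3_a k252_A00pm_012_s1 k253_A00pm_012_s1

theorem t1455_A00pm_012_s1 : ∃ t, chk3 f_A00pm_012_s1 t 153 281 1 = true := ex3_b t1454_A00pm_012_s1 k254_A00pm_012_s1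

theorem t1456_A00pm_012_s1 : ∃ t, chk3 f_A00pm_012_s1 t 152 281 4 = true := ex3_c k248_A00pm_012_s1 k249_A00pm_012_s1

theorem t1457_A00pm_012_s1 : ∃ t, chk3 f_A00pm_012_s1 t 152 281 2 = true := ex3_c t1456_A00pm_012_s1 k250_A00pm_012_s1

theorem t1458_A00pm_012_s1 : ∃ t, chk3 f_A00pm_012_s1 t 152 281 1 = true := ex3_c t1457_A00pm_012_s1 k251_A00pm_012_s1

theorem t1459_A00pm_012_s1 : ∃ t, chk3 f_A00pm_012_s1 t 76 281 1 = true := ex3_a t1458_A00pm_012_s1 t1455_A00pm_012_s1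

theorem t1460_A00pm_012_s1 : ∃ t, chk3 f_A00pm_012_s1 t 307 1123 1 = true := ex3_a k246_A00pm_012_s1 k247_A00pm_012_s1

theorem t1461_A00pm_012_s1 : ∃ t, chk3 f_A00pm_012_s1 t 307 561 1 = true := ex3_b k245_A00pm_012_s1 t1460_A00pm_012_s1

theorem t1462_A00pm_012_s1 : ∃ t, chk3 f_A00pm_012_s1 t 306 561 4 = true := ex3_a k241_A00pm_012_s1 k242_A00pm_012_s1

theorem t1463_A00pm_012_s1 : ∃ t, chk3 f_A00pm_012_s1 t 306 561 2 = true := ex3_c t1462_A00pm_012_s1 k243_A00pm_012_s1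

theorem t1464_A00pm_012_s1 : ∃ t, chk3 f_A00pm_012_s1 t 306 561 1 = true := ex3_c t1463_A00pm_012_s1 k244_A00pm_012_s1

theorem t1465_A00pm_012_s1 : ∃ t, chk3 f_A00pm_012_s1 t 153 561 1 = true := ex3_a t1464_A00pm_012_s1 t1461_A00pm_012_s1

theorem t1466_A00pm_012_s1 : ∃ t, chk3 f_A00pm_012_s1 t 612 1121 2 = true := ex3_c k236_A00pm_012_s1 k237_A00pm_012_s1

theorem t1467_A00pm_012_s1 : ∃ t, chk3 f_A00pm_012_s1 t 612 1121 1 = true := ex3_c t1466_A00pm_012_s1 k238_A00pm_012_s1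

theorem t1468_A00pm_012_s1 : ∃ t, chk3 f_A00pm_012_s1 t 306 1121 1 = true := ex3_a t1467_A00pm_012_s1 k239_A00pm_012_s1

theorem t1469_A00pm_012_s1 : ∃ t, chk3 f_A00pm_012_s1 t 306 560 1 = true := ex3_b k235_A00pm_012_s1 t1468_A00pm_012_s1

theorem t1470_A00pm_012_s1 : ∃ t, chk3 f_A00pm_012_s1 t 153 560 1 = true := ex3_a t1469_A00pm_012_s1 k240_A00pm_012_s1

theorem t1471_A00pm_012_s1 : ∃ t, chk3 f_A00pm_012_s1 t 153 280 1 = true := ex3_b t1470_A00pm_012_s1 t1465_A00pm_012_s1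

theorem t1472_A00pm_012_s1 : ∃ t, chk3 f_A00pm_012_s1 t 152 561 4 = true := ex3_c k231_A00pm_012_s1 k232_A00pm_012_s1

theorem t1473_A00pm_012_s1 : ∃ t, chk3 f_A00pm_012_s1 t 152 561 2 = true := ex3_c t1472_A00pm_012_s1 k233_A00pm_012_s1

theorem t1474_A00pm_012_s1 : ∃ t, chk3 f_A00pm_012_s1 t 152 561 1 = true := ex3_c t1473_A00pm_012_s1 k234_A00pm_012_s1

theorem t1475_A00pm_012_s1 : ∃ t, chk3 f_A00pm_012_s1 t 611 1120 4 = true := ex3_b k226_A00pm_012_s1 k227_A00pm_012_s1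

theorem t1476_A00pm_012_s1 : ∃ t, chk3 f_A00pm_012_s1 t 611 1120 2 = true := ex3_c t1475_A00pm_012_s1 k228_A00pm_012_s1

theorem t1477_A00pm_012_s1 : ∃ t, chk3 f_A00pm_012_s1 t 305 1120 2 = true := ex3_a k225_A00pm_012_s1 t1476_A00pm_012_s1

theorem t1478_A00pm_012_s1 : ∃ t, chk3 f_A00pm_012_s1 t 305 1120 1 = true := ex3_c t1477_A00pm_012_s1 k229_A00pm_012_s1

theorem t1479_A00pm_012_s1 : ∃ t, chk3 f_A00pm_012_s1 t 305 560 1 = true := ex3_b t1478_A00pm_012_s1 k230_A00pm_012_s1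

theorem t1480_A00pm_012_s1 : ∃ t, chk3 f_A00pm_012_s1 t 304 560 4 = true := ex3_c k221_A00pm_012_s1 k222_A00pm_012_s1

theorem t1481_A00pm_012_s1 : ∃ t, chk3 f_A00pm_012_s1 t 304 560 2 = true := ex3_c t1480_A00pm_012_s1 k223_A00pm_012_s1

theorem t1482_A00pm_012_s1 : ∃ t, chk3 f_A00pm_012_s1 t 304 560 1 = true := ex3_c t1481_A00pm_012_s1 k224_A00pm_012_s1

theorem t1483_A00pm_012_s1 : ∃ t, chk3 f_A00pm_012_s1 t 152 560 1 = true := ex3_a t1482_A00pm_012_s1 t1479_A00pm_012_s1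

theorem t1484_A00pm_012_s1 : ∃ t, chk3 f_A00pm_012_s1 t 152 280 1 = true := ex3_b t1483_A00pm_012_s1 t1474_A00pm_012_s1

theorem t1485_A00pm_012_s1 : ∃ t, chk3 f_A00pm_012_s1 t 76 280 1 = true := ex3_a t1484_A00pm_012_s1 t1471_A00pm_012_s1

theorem t1486_A00pm_012_s1 : ∃ t, chk3 f_A00pm_012_s1 t 76 140 1 = true := ex3_b t1485_A00pm_012_s1 t1459_A00pm_012_s1

theorem t1487_A00pm_012_s1 : ∃ t, chk3 f_A00pm_012_s1 t 38 140 1 = true := ex3_a t1486_A00pm_012_s1 t1453_A00pm_012_s1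

theorem t1488_A00pm_012_s1 : ∃ t, chk3 f_A00pm_012_s1 t 38 70 1 = true := ex3_b t1487_A00pm_012_s1 t1446_A00pm_012_s1

theorem t1489_A00pm_012_s1 : ∃ t, chk3 f_A00pm_012_s1 t 19 70 1 = true := ex3_a t1488_A00pm_012_s1 t1437_A00pm_012_s1

theorem t1490_A00pm_012_s1 : ∃ t, chk3 f_A00pm_012_s1 t 19 35 1 = true := ex3_b t1489_A00pm_012_s1 t1432_A00pm_012_s1

theorem t1491_A00pm_012_s1 : ∃ t, chk3 f_A00pm_012_s1 t 610 1119 4 = true := ex3_b k213_A00pm_012_s1 k214_A00pm_012_s1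

theorem t1492_A00pm_012_s1 : ∃ t, chk3 f_A00pm_012_s1 t 610 1119 2 = true := ex3_c t1491_A00pm_012_s1 k215_A00pm_012_s1

theorem t1493_A00pm_012_s1 : ∃ t, chk3 f_A00pm_012_s1 t 610 1119 1 = true := ex3_c t1492_A00pm_012_s1 k216_A00pm_012_s1

theorem t1494_A00pm_012_s1 : ∃ t, chk3 f_A00pm_012_s1 t 305 1119 1 = true := ex3_a t1493_A00pm_012_s1 k217_A00pm_012_s1

theorem t1495_A00pm_012_s1 : ∃ t, chk3 f_A00pm_012_s1 t 305 559 1 = true := ex3_b k212_A00pm_012_s1 t1494_A00pm_012_s1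

theorem t1496_A00pm_012_s1 : ∃ t, chk3 f_A00pm_012_s1 t 609 1118 2 = true := ex3_b k208_A00pm_012_s1 k209_A00pm_012_s1

theorem t1497_A00pm_012_s1 : ∃ t, chk3 f_A00pm_012_s1 t 304 1118 2 = true := ex3_a k207_A00pm_012_s1 t1496_A00pm_012_s1

theorem t1498_A00pm_012_s1 : ∃ t, chk3 f_A00pm_012_s1 t 304 559 2 = true := ex3_b t1497_A00pm_012_s1 k210_A00pm_012_s1

theorem t1499_A00pm_012_s1 : ∃ t, chk3 f_A00pm_012_s1 t 304 559 1 = true := ex3_c t1498_A00pm_012_s1 k211_A00pm_012_s1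

theorem t1500_A00pm_012_s1 : ∃ t, chk3 f_A00pm_012_s1 t 152 559 1 = true := ex3_a t1499_A00pm_012_s1 t1495_A00pm_012_s1

theorem t1501_A00pm_012_s1 : ∃ t, chk3 f_A00pm_012_s1 t 608 558 4 = true := ex3_a k201_A00pm_012_s1 k202_A00pm_012_s1

theorem t1502_A00pm_012_s1 : ∃ t, chk3 f_A00pm_012_s1 t 304 558 4 = true := ex3_a t1501_A00pm_012_s1 k203_A00pm_012_s1

theorem t1503_A00pm_012_s1 : ∃ t, chk3 f_A00pm_012_s1 t 304 558 2 = true := ex3_c t1502_A00pm_012_s1 k204_A00pm_012_s1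

theorem t1504_A00pm_012_s1 : ∃ t, chk3 f_A00pm_012_s1 t 304 558 1 = true := ex3_c t1503_A00pm_012_s1 k205_A00pm_012_s1

theorem t1505_A00pm_012_s1 : ∃ t, chk3 f_A00pm_012_s1 t 152 558 1 = true := ex3_a t1504_A00pm_012_s1 k206_A00pm_012_s1

theorem t1506_A00pm_012_s1 : ∃ t, chk3 f_A00pm_012_s1 t 152 279 1 = true := ex3_b t1505_A00pm_012_s1 t1500_A00pm_012_s1

theorem t1507_A00pm_012_s1 : ∃ t, chk3 f_A00pm_012_s1 t 76 279 1 = true := ex3_a t1506_A00pm_012_s1 k218_A00pm_012_s1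

theorem t1508_A00pm_012_s1 : ∃ t, chk3 f_A00pm_012_s1 t 76 139 1 = true := ex3_b k200_A00pm_012_s1 t1507_A00pm_012_s1

theorem t1509_A00pm_012_s1 : ∃ t, chk3 f_A00pm_012_s1 t 38 139 1 = true := ex3_a t1508_A00pm_012_s1 k219_A00pm_012_s1

theorem t1510_A00pm_012_s1 : ∃ t, chk3 f_A00pm_012_s1 t 38 69 1 = true := ex3_b k199_A00pm_012_s1 t1509_A00pm_012_s1

theorem t1511_A00pm_012_s1 : ∃ t, chk3 f_A00pm_012_s1 t 19 69 1 = true := ex3_a t1510_A00pm_012_s1 k220_A00pm_012_s1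

theorem t1512_A00pm_012_s1 : ∃ t, chk3 f_A00pm_012_s1 t 19 34 1 = true := ex3_b k198_A00pm_012_s1 t1511_A00pm_012_s1

theorem t1513_A00pm_012_s1 : ∃ t, chk3 f_A00pm_012_s1 t 19 17 1 = true := ex3_b t1512_A00pm_012_s1 t1490_A00pm_012_s1

theorem t1514_A00pm_012_s1 : ∃ t, chk3 f_A00pm_012_s1 t 151 281 4 = true := ex3_a k192_A00pm_012_s1 k193_A00pm_012_s1

theorem t1515_A00pm_012_s1 : ∃ t, chk3 f_A00pm_012_s1 t 151 281 2 = true := ex3_c t1514_A00pm_012_s1 k194_A00pm_012_s1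

theorem t1516_A00pm_012_s1 : ∃ t, chk3 f_A00pm_012_s1 t 151 281 1 = true := ex3_c t1515_A00pm_012_s1 k195_A00pm_012_s1

theorem t1517_A00pm_012_s1 : ∃ t, chk3 f_A00pm_012_s1 t 303 280 4 = true := ex3_b k188_A00pm_012_s1 k189_A00pm_012_s1

theorem t1518_A00pm_012_s1 : ∃ t, chk3 f_A00pm_012_s1 t 302 280 4 = true := ex3_c k186_A00pm_012_s1 k187_A00pm_012_s1

theorem t1519_A00pm_012_s1 : ∃ t, chk3 f_A00pm_012_s1 t 151 280 4 = true := ex3_a t1518_A00pm_012_s1 t1517_A00pm_012_s1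

theorem t1520_A00pm_012_s1 : ∃ t, chk3 f_A00pm_012_s1 t 151 280 2 = true := ex3_c t1519_A00pm_012_s1 k190_A00pm_012_s1

theorem t1521_A00pm_012_s1 : ∃ t, chk3 f_A00pm_012_s1 t 151 280 1 = true := ex3_c t1520_A00pm_012_s1 k191_A00pm_012_s1

theorem t1522_A00pm_012_s1 : ∃ t, chk3 f_A00pm_012_s1 t 151 140 1 = true := ex3_b t1521_A00pm_012_s1 t1516_A00pm_012_s1

theorem t1523_A00pm_012_s1 : ∃ t, chk3 f_A00pm_012_s1 t 301 280 4 = true := ex3_c k181_A00pm_012_s1 k182_A00pm_012_s1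

theorem t1524_A00pm_012_s1 : ∃ t, chk3 f_A00pm_012_s1 t 150 280 4 = true := ex3_a k180_A00pm_012_s1 t1523_A00pm_012_s1

theorem t1525_A00pm_012_s1 : ∃ t, chk3 f_A00pm_012_s1 t 150 280 2 = true := ex3_c t1524_A00pm_012_s1 k183_A00pm_012_s1

theorem t1526_A00pm_012_s1 : ∃ t, chk3 f_A00pm_012_s1 t 150 280 1 = true := ex3_c t1525_A00pm_012_s1 k184_A00pm_012_s1

theorem t1527_A00pm_012_s1 : ∃ t, chk3 f_A00pm_012_s1 t 150 140 1 = true := ex3_b t1526_A00pm_012_s1 k185_A00pm_012_s1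

theorem t1528_A00pm_012_s1 : ∃ t, chk3 f_A00pm_012_s1 t 75 140 1 = true := ex3_a t1527_A00pm_012_s1 t1522_A00pm_012_s1

theorem t1529_A00pm_012_s1 : ∃ t, chk3 f_A00pm_012_s1 t 75 70 1 = true := ex3_b t1528_A00pm_012_s1 k196_A00pm_012_s1

theorem t1530_A00pm_012_s1 : ∃ t, chk3 f_A00pm_012_s1 t 74 70 1 = true := ex3_b k178_A00pm_012_s1 k179_A00pm_012_s1

theorem t1531_A00pm_012_s1 : ∃ t, chk3 f_A00pm_012_s1 t 37 70 1 = true := ex3_a t1530_A00pm_012_s1 t1529_A00pm_012_s1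

theorem t1532_A00pm_012_s1 : ∃ t, chk3 f_A00pm_012_s1 t 37 35 1 = true := ex3_b t1531_A00pm_012_s1 k197_A00pm_012_s1

theorem t1533_A00pm_012_s1 : ∃ t, chk3 f_A00pm_012_s1 t 18 35 1 = true := ex3_a k177_A00pm_012_s1 t1532_A00pm_012_s1

theorem t1534_A00pm_012_s1 : ∃ t, chk3 f_A00pm_012_s1 t 303 559 8 = true := ex3_b k172_A00pm_012_s1 k173_A00pm_012_s1

theorem t1535_A00pm_012_s1 : ∃ t, chk3 f_A00pm_012_s1 t 151 559 8 = true := ex3_a k171_A00pm_012_s1 t1534_A00pm_012_s1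

theorem t1536_A00pm_012_s1 : ∃ t, chk3 f_A00pm_012_s1 t 151 559 4 = true := ex3_c t1535_A00pm_012_s1 k174_A00pm_012_s1

theorem t1537_A00pm_012_s1 : ∃ t, chk3 f_A00pm_012_s1 t 151 559 2 = true := ex3_c t1536_A00pm_012_s1 k175_A00pm_012_s1

theorem t1538_A00pm_012_s1 : ∃ t, chk3 f_A00pm_012_s1 t 151 559 1 = true := ex3_c t1537_A00pm_012_s1 k176_A00pm_012_s1

theorem t1539_A00pm_012_s1 : ∃ t, chk3 f_A00pm_012_s1 t 303 1117 4 = true := ex3_a k167_A00pm_012_s1 k168_A00pm_012_s1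

theorem t1540_A00pm_012_s1 : ∃ t, chk3 f_A00pm_012_s1 t 303 1117 2 = true := ex3_c t1539_A00pm_012_s1 k169_A00pm_012_s1

theorem t1541_A00pm_012_s1 : ∃ t, chk3 f_A00pm_012_s1 t 303 1117 1 = true := ex3_c t1540_A00pm_012_s1 k170_A00pm_012_s1

theorem t1542_A00pm_012_s1 : ∃ t, chk3 f_A00pm_012_s1 t 607 2233 2 = true := ex3_a k164_A00pm_012_s1 k165_A00pm_012_s1

theorem t1543_A00pm_012_s1 : ∃ t, chk3 f_A00pm_012_s1 t 607 1116 2 = true := ex3_b k163_A00pm_012_s1 t1542_A00pm_012_s1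

theorem t1544_A00pm_012_s1 : ∃ t, chk3 f_A00pm_012_s1 t 607 1116 1 = true := ex3_c t1543_A00pm_012_s1 k166_A00pm_012_s1

theorem t1545_A00pm_012_s1 : ∃ t, chk3 f_A00pm_012_s1 t 606 1116 2 = true := ex3_c k160_A00pm_012_s1 k161_A00pm_012_s1

theorem t1546_A00pm_012_s1 : ∃ t, chk3 f_A00pm_012_s1 t 606 1116 1 = true := ex3_c t1545_A00pm_012_s1 k162_A00pm_012_s1

theorem t1547_A00pm_012_s1 : ∃ t, chk3 f_A00pm_012_s1 t 303 1116 1 = true := ex3_a t1546_A00pm_012_s1 t1544_A00pm_012_s1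

theorem t1548_A00pm_012_s1 : ∃ t, chk3 f_A00pm_012_s1 t 303 558 1 = true := ex3_b t1547_A00pm_012_s1 t1541_A00pm_012_s1

theorem t1549_A00pm_012_s1 : ∃ t, chk3 f_A00pm_012_s1 t 302 558 8 = true := ex3_b k155_A00pm_012_s1 k156_A00pm_012_s1

theorem t1550_A00pm_012_s1 : ∃ t, chk3 f_A00pm_012_s1 t 302 558 4 = true := ex3_c t1549_A00pm_012_s1 k157_A00pm_012_s1

theorem t1551_A00pm_012_s1 : ∃ t, chk3 f_A00pm_012_s1 t 302 558 2 = true := ex3_c t1550_A00pm_012_s1 k158_A00pm_012_s1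

theorem t1552_A00pm_012_s1 : ∃ t, chk3 f_A00pm_012_s1 t 302 558 1 = true := ex3_c t1551_A00pm_012_s1 k159_A00pm_012_s1

theorem t1553_A00pm_012_s1 : ∃ t, chk3 f_A00pm_012_s1 t 151 558 1 = true := ex3_a t1552_A00pm_012_s1 t1548_A00pm_012_s1

theorem t1554_A00pm_012_s1 : ∃ t, chk3 f_A00pm_012_s1 t 151 279 1 = true := ex3_b t1553_A00pm_012_s1 t1538_A00pm_012_s1

theorem t1555_A00pm_012_s1 : ∃ t, chk3 f_A00pm_012_s1 t 301 558 8 = true := ex3_c k149_A00pm_012_s1 k150_A00pm_012_s1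

theorem t1556_A00pm_012_s1 : ∃ t, chk3 f_A00pm_012_s1 t 301 279 8 = true := ex3_b t1555_A00pm_012_s1 k151_A00pm_012_s1

theorem t1557_A00pm_012_s1 : ∃ t, chk3 f_A00pm_012_s1 t 301 279 4 = true := ex3_c t1556_A00pm_012_s1 k152_A00pm_012_s1

theorem t1558_A00pm_012_s1 : ∃ t, chk3 f_A00pm_012_s1 t 300 279 8 = true := ex3_b k146_A00pm_012_s1 k147_A00pm_012_s1

theorem t1559_A00pm_012_s1 : ∃ t, chk3 f_A00pm_012_s1 t 300 279 4 = true := ex3_c t1558_A00pm_012_s1 k148_A00pm_012_s1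

theorem t1560_A00pm_012_s1 : ∃ t, chk3 f_A00pm_012_s1 t 150 279 4 = true := ex3_a t1559_A00pm_012_s1 t1557_A00pm_012_s1

theorem t1561_A00pm_012_s1 : ∃ t, chk3 f_A00pm_012_s1 t 150 279 2 = true := ex3_c t1560_A00pm_012_s1 k153_A00pm_012_s1

theorem t1562_A00pm_012_s1 : ∃ t, chk3 f_A00pm_012_s1 t 150 279 1 = true := ex3_c t1561_A00pm_012_s1 k154_A00pm_012_s1

theorem t1563_A00pm_012_s1 : ∃ t, chk3 f_A00pm_012_s1 t 75 279 1 = true := ex3_a t1562_A00pm_012_s1 t1554_A00pm_012_s1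

theorem t1564_A00pm_012_s1 : ∃ t, chk3 f_A00pm_012_s1 t 303 1115 2 = true := ex3_b k143_A00pm_012_s1 k144_A00pm_012_s1

theorem t1565_A00pm_012_s1 : ∃ t, chk3 f_A00pm_012_s1 t 303 1115 1 = true := ex3_c t1564_A00pm_012_s1 k145_A00pm_012_s1

theorem t1566_A00pm_012_s1 : ∃ t, chk3 f_A00pm_012_s1 t 303 557 1 = true := ex3_b k142_A00pm_012_s1 t1565_A00pm_012_s1

theorem t1567_A00pm_012_s1 : ∃ t, chk3 f_A00pm_012_s1 t 605 2230 2 = true := ex3_a k138_A00pm_012_s1 k139_A00pm_012_s1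

theorem t1568_A00pm_012_s1 : ∃ t, chk3 f_A00pm_012_s1 t 605 1115 2 = true := ex3_b t1567_A00pm_012_s1 k140_A00pm_012_s1

theorem t1569_A00pm_012_s1 : ∃ t, chk3 f_A00pm_012_s1 t 302 1115 2 = true := ex3_a k137_A00pm_012_s1 t1568_A00pm_012_s1

theorem t1570_A00pm_012_s1 : ∃ t, chk3 f_A00pm_012_s1 t 302 1115 1 = true := ex3_c t1569_A00pm_012_s1 k141_A00pm_012_s1

theorem t1571_A00pm_012_s1 : ∃ t, chk3 f_A00pm_012_s1 t 605 1114 1 = true := ex3_c k135_A00pm_012_s1 k136_A00pm_012_s1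

theorem t1572_A00pm_012_s1 : ∃ t, chk3 f_A00pm_012_s1 t 604 1114 2 = true := ex3_b k132_A00pm_012_s1 k133_A00pm_012_s1

theorem t1573_A00pm_012_s1 : ∃ t, chk3 f_A00pm_012_s1 t 604 1114 1 = true := ex3_c t1572_A00pm_012_s1 k134_A00pm_012_s1

theorem t1574_A00pm_012_s1 : ∃ t, chk3 f_A00pm_012_s1 t 302 1114 1 = true := ex3_a t1573_A00pm_012_s1 t1571_A00pm_012_s1

theorem t1575_A00pm_012_s1 : ∃ t, chk3 f_A00pm_012_s1 t 302 557 1 = true := ex3_b t1574_A00pm_012_s1 t1570_A00pm_012_s1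

theorem t1576_A00pm_012_s1 : ∃ t, chk3 f_A00pm_012_s1 t 151 557 1 = true := ex3_a t1575_A00pm_012_s1 t1566_A00pm_012_s1

theorem t1577_A00pm_012_s1 : ∃ t, chk3 f_A00pm_012_s1 t 302 1113 1 = true := ex3_c k129_A00pm_012_s1 k130_A00pm_012_s1

theorem t1578_A00pm_012_s1 : ∃ t, chk3 f_A00pm_012_s1 t 302 556 1 = true := ex3_b k128_A00pm_012_s1 t1577_A00pm_012_s1

theorem t1579_A00pm_012_s1 : ∃ t, chk3 f_A00pm_012_s1 t 151 556 1 = true := ex3_a t1578_A00pm_012_s1 k131_A00pm_012_s1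

theorem t1580_A00pm_012_s1 : ∃ t, chk3 f_A00pm_012_s1 t 151 278 1 = true := ex3_b t1579_A00pm_012_s1 t1576_A00pm_012_s1

theorem t1581_A00pm_012_s1 : ∃ t, chk3 f_A00pm_012_s1 t 301 557 16 = true := ex3_b k122_A00pm_012_s1 k123_A00pm_012_s1

theorem t1582_A00pm_012_s1 : ∃ t, chk3 f_A00pm_012_s1 t 301 557 8 = true := ex3_c t1581_A00pm_012_s1 k124_A00pm_012_s1

theorem t1583_A00pm_012_s1 : ∃ t, chk3 f_A00pm_012_s1 t 300 557 8 = true := ex3_c k120_A00pm_012_s1 k121_A00pm_012_s1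

theorem t1584_A00pm_012_s1 : ∃ t, chk3 f_A00pm_012_s1 t 150 557 8 = true := ex3_a t1583_A00pm_012_s1 t1582_A00pm_012_s1

theorem t1585_A00pm_012_s1 : ∃ t, chk3 f_A00pm_012_s1 t 150 557 4 = true := ex3_c t1584_A00pm_012_s1 k125_A00pm_012_s1

theorem t1586_A00pm_012_s1 : ∃ t, chk3 f_A00pm_012_s1 t 150 557 2 = true := ex3_c t1585_A00pm_012_s1 k126_A00pm_012_s1

theorem t1587_A00pm_012_s1 : ∃ t, chk3 f_A00pm_012_s1 t 150 557 1 = true := ex3_c t1586_A00pm_012_s1 k127_A00pm_012_s1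

theorem t1588_A00pm_012_s1 : ∃ t, chk3 f_A00pm_012_s1 t 603 1113 2 = true := ex3_b k117_A00pm_012_s1 k118_A00pm_012_s1

theorem t1589_A00pm_012_s1 : ∃ t, chk3 f_A00pm_012_s1 t 301 1113 2 = true := ex3_a k116_A00pm_012_s1 t1588_A00pm_012_s1

theorem t1590_A00pm_012_s1 : ∃ t, chk3 f_A00pm_012_s1 t 301 1113 1 = true := ex3_c t1589_A00pm_012_s1 k119_A00pm_012_s1

theorem t1591_A00pm_012_s1 : ∃ t, chk3 f_A00pm_012_s1 t 602 1112 2 = true := ex3_b k112_A00pm_012_s1 k113_A00pm_012_s1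

theorem t1592_A00pm_012_s1 : ∃ t, chk3 f_A00pm_012_s1 t 602 1112 1 = true := ex3_c t1591_A00pm_012_s1 k114_A00pm_012_s1

theorem t1593_A00pm_012_s1 : ∃ t, chk3 f_A00pm_012_s1 t 301 1112 1 = true := ex3_a t1592_A00pm_012_s1 k115_A00pm_012_s1

theorem t1594_A00pm_012_s1 : ∃ t, chk3 f_A00pm_012_s1 t 301 556 1 = true := ex3_b t1593_A00pm_012_s1 t1590_A00pm_012_s1

theorem t1595_A00pm_012_s1 : ∃ t, chk3 f_A00pm_012_s1 t 300 556 8 = true := ex3_c k107_A00pm_012_s1 k108_A00pm_012_s1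

theorem t1596_A00pm_012_s1 : ∃ t, chk3 f_A00pm_012_s1 t 300 556 4 = true := ex3_c t1595_A00pm_012_s1 k109_A00pm_012_s1

theorem t1597_A00pm_012_s1 : ∃ t, chk3 f_A00pm_012_s1 t 300 556 2 = true := ex3_c t1596_A00pm_012_s1 k110_A00pm_012_s1

theorem t1598_A00pm_012_s1 : ∃ t, chk3 f_A00pm_012_s1 t 300 556 1 = true := ex3_c t1597_A00pm_012_s1 k111_A00pm_012_s1

theorem t1599_A00pm_012_s1 : ∃ t, chk3 f_A00pm_012_s1 t 150 556 1 = true := ex3_a t1598_A00pm_012_s1 t1594_A00pm_012_s1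

theorem t1600_A00pm_012_s1 : ∃ t, chk3 f_A00pm_012_s1 t 150 278 1 = true := ex3_b t1599_A00pm_012_s1 t1587_A00pm_012_s1

theorem t1601_A00pm_012_s1 : ∃ t, chk3 f_A00pm_012_s1 t 75 278 1 = true := ex3_a t1600_A00pm_012_s1 t1580_A00pm_012_s1

theorem t1602_A00pm_012_s1 : ∃ t, chk3 f_A00pm_012_s1 t 75 139 1 = true := ex3_b t1601_A00pm_012_s1 t1563_A00pm_012_s1

theorem t1603_A00pm_012_s1 : ∃ t, chk3 f_A00pm_012_s1 t 149 558 4 = true := ex3_c k102_A00pm_012_s1 k103_A00pm_012_s1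

theorem t1604_A00pm_012_s1 : ∃ t, chk3 f_A00pm_012_s1 t 149 279 4 = true := ex3_b t1603_A00pm_012_s1 k104_A00pm_012_s1

theorem t1605_A00pm_012_s1 : ∃ t, chk3 f_A00pm_012_s1 t 149 279 2 = true := ex3_c t1604_A00pm_012_s1 k105_A00pm_012_s1

theorem t1606_A00pm_012_s1 : ∃ t, chk3 f_A00pm_012_s1 t 149 279 1 = true := ex3_c t1605_A00pm_012_s1 k106_A00pm_012_s1

theorem t1607_A00pm_012_s1 : ∃ t, chk3 f_A00pm_012_s1 t 74 279 1 = true := ex3_a k101_A00pm_012_s1 t1606_A00pm_012_s1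

theorem t1608_A00pm_012_s1 : ∃ t, chk3 f_A00pm_012_s1 t 299 278 8 = true := ex3_b k96_A00pm_012_s1 k97_A00pm_012_s1

theorem t1609_A00pm_012_s1 : ∃ t, chk3 f_A00pm_012_s1 t 299 278 4 = true := ex3_c t1608_A00pm_012_s1 k98_A00pm_012_s1

theorem t1610_A00pm_012_s1 : ∃ t, chk3 f_A00pm_012_s1 t 298 278 4 = true := ex3_b k94_A00pm_012_s1 k95_A00pm_012_s1

theorem t1611_A00pm_012_s1 : ∃ t, chk3 f_A00pm_012_s1 t 149 278 4 = true := ex3_a t1610_A00pm_012_s1 t1609_A00pm_012_s1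

theorem t1612_A00pm_012_s1 : ∃ t, chk3 f_A00pm_012_s1 t 149 278 2 = true := ex3_c t1611_A00pm_012_s1 k99_A00pm_012_s1

theorem t1613_A00pm_012_s1 : ∃ t, chk3 f_A00pm_012_s1 t 149 278 1 = true := ex3_c t1612_A00pm_012_s1 k100_A00pm_012_s1

theorem t1614_A00pm_012_s1 : ∃ t, chk3 f_A00pm_012_s1 t 148 278 4 = true := ex3_b k90_A00pm_012_s1 k91_A00pm_012_s1

theorem t1615_A00pm_012_s1 : ∃ t, chk3 f_A00pm_012_s1 t 148 278 2 = true := ex3_c t1614_A00pm_012_s1 k92_A00pm_012_s1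

theorem t1616_A00pm_012_s1 : ∃ t, chk3 f_A00pm_012_s1 t 148 278 1 = true := ex3_c t1615_A00pm_012_s1 k93_A00pm_012_s1

theorem t1617_A00pm_012_s1 : ∃ t, chk3 f_A00pm_012_s1 t 74 278 1 = true := ex3_a t1616_A00pm_012_s1 t1613_A00pm_012_s1

theorem t1618_A00pm_012_s1 : ∃ t, chk3 f_A00pm_012_s1 t 74 139 1 = true := ex3_b t1617_A00pm_012_s1 t1607_A00pm_012_s1

theorem t1619_A00pm_012_s1 : ∃ t, chk3 f_A00pm_012_s1 t 37 139 1 = true := ex3_a t1618_A00pm_012_s1 t1602_A00pm_012_s1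

theorem t1620_A00pm_012_s1 : ∃ t, chk3 f_A00pm_012_s1 t 601 1111 2 = true := ex3_b k85_A00pm_012_s1 k86_A00pm_012_s1

theorem t1621_A00pm_012_s1 : ∃ t, chk3 f_A00pm_012_s1 t 601 1111 1 = true := ex3_c t1620_A00pm_012_s1 k87_A00pm_012_s1

theorem t1622_A00pm_012_s1 : ∃ t, chk3 f_A00pm_012_s1 t 300 1111 1 = true := ex3_a k84_A00pm_012_s1 t1621_A00pm_012_s1

theorem t1623_A00pm_012_s1 : ∃ t, chk3 f_A00pm_012_s1 t 600 1110 1 = true := ex3_c k81_A00pm_012_s1 k82_A00pm_012_s1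

theorem t1624_A00pm_012_s1 : ∃ t, chk3 f_A00pm_012_s1 t 300 1110 1 = true := ex3_a t1623_A00pm_012_s1 k83_A00pm_012_s1

theorem t1625_A00pm_012_s1 : ∃ t, chk3 f_A00pm_012_s1 t 300 555 1 = true := ex3_b t1624_A00pm_012_s1 t1622_A00pm_012_s1

theorem t1626_A00pm_012_s1 : ∃ t, chk3 f_A00pm_012_s1 t 150 555 1 = true := ex3_a t1625_A00pm_012_s1 k88_A00pm_012_s1

theorem t1627_A00pm_012_s1 : ∃ t, chk3 f_A00pm_012_s1 t 150 277 1 = true := ex3_b k80_A00pm_012_s1 t1626_A00pm_012_s1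

theorem t1628_A00pm_012_s1 : ∃ t, chk3 f_A00pm_012_s1 t 75 277 1 = true := ex3_a t1627_A00pm_012_s1 k89_A00pm_012_s1

theorem t1629_A00pm_012_s1 : ∃ t, chk3 f_A00pm_012_s1 t 75 138 1 = true := ex3_b k79_A00pm_012_s1 t1628_A00pm_012_s1

theorem t1630_A00pm_012_s1 : ∃ t, chk3 f_A00pm_012_s1 t 149 555 8 = true := ex3_a k74_A00pm_012_s1 k75_A00pm_012_s1

theorem t1631_A00pm_012_s1 : ∃ t, chk3 f_A00pm_012_s1 t 149 555 4 = true := ex3_c t1630_A00pm_012_s1 k76_A00pm_012_s1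

theorem t1632_A00pm_012_s1 : ∃ t, chk3 f_A00pm_012_s1 t 149 555 2 = true := ex3_c t1631_A00pm_012_s1 k77_A00pm_012_s1

theorem t1633_A00pm_012_s1 : ∃ t, chk3 f_A00pm_012_s1 t 149 555 1 = true := ex3_c t1632_A00pm_012_s1 k78_A00pm_012_s1

theorem t1634_A00pm_012_s1 : ∃ t, chk3 f_A00pm_012_s1 t 599 1109 1 = true := ex3_c k72_A00pm_012_s1 k73_A00pm_012_s1

theorem t1635_A00pm_012_s1 : ∃ t, chk3 f_A00pm_012_s1 t 299 1109 1 = true := ex3_a k71_A00pm_012_s1 t1634_A00pm_012_s1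

theorem t1636_A00pm_012_s1 : ∃ t, chk3 f_A00pm_012_s1 t 299 1108 1 = true := ex3_c k69_A00pm_012_s1 k70_A00pm_012_s1

theorem t1637_A00pm_012_s1 : ∃ t, chk3 f_A00pm_012_s1 t 299 554 1 = true := ex3_b t1636_A00pm_012_s1 t1635_A00pm_012_s1

theorem t1638_A00pm_012_s1 : ∃ t, chk3 f_A00pm_012_s1 t 298 554 1 = true := ex3_a k67_A00pm_012_s1 k68_A00pm_012_s1

theorem t1639_A00pm_012_s1 : ∃ t, chk3 f_A00pm_012_s1 t 149 554 1 = true := ex3_a t1638_A00pm_012_s1 t1637_A00pm_012_s1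

theorem t1640_A00pm_012_s1 : ∃ t, chk3 f_A00pm_012_s1 t 149 277 1 = true := ex3_b t1639_A00pm_012_s1 t1633_A00pm_012_s1

theorem t1641_A00pm_012_s1 : ∃ t, chk3 f_A00pm_012_s1 t 148 555 4 = true := ex3_c k63_A00pm_012_s1 k64_A00pm_012_s1

theorem t1642_A00pm_012_s1 : ∃ t, chk3 f_A00pm_012_s1 t 148 554 4 = true := ex3_a k61_A00pm_012_s1 k62_A00pm_012_s1

theorem t1643_A00pm_012_s1 : ∃ t, chk3 f_A00pm_012_s1 t 148 277 4 = true := ex3_b t1642_A00pm_012_s1 t1641_A00pm_012_s1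

theorem t1644_A00pm_012_s1 : ∃ t, chk3 f_A00pm_012_s1 t 148 277 2 = true := ex3_c t1643_A00pm_012_s1 k65_A00pm_012_s1

theorem t1645_A00pm_012_s1 : ∃ t, chk3 f_A00pm_012_s1 t 148 277 1 = true := ex3_c t1644_A00pm_012_s1 k66_A00pm_012_s1

theorem t1646_A00pm_012_s1 : ∃ t, chk3 f_A00pm_012_s1 t 74 277 1 = true := ex3_a t1645_A00pm_012_s1 t1640_A00pm_012_s1

theorem t1647_A00pm_012_s1 : ∃ t, chk3 f_A00pm_012_s1 t 298 1107 1 = true := ex3_a k58_A00pm_012_s1 k59_A00pm_012_s1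

theorem t1648_A00pm_012_s1 : ∃ t, chk3 f_A00pm_012_s1 t 298 553 1 = true := ex3_b k57_A00pm_012_s1 t1647_A00pm_012_s1

theorem t1649_A00pm_012_s1 : ∃ t, chk3 f_A00pm_012_s1 t 149 553 1 = true := ex3_a t1648_A00pm_012_s1 k60_A00pm_012_s1

theorem t1650_A00pm_012_s1 : ∃ t, chk3 f_A00pm_012_s1 t 149 276 1 = true := ex3_b k56_A00pm_012_s1 t1649_A00pm_012_s1

theorem t1651_A00pm_012_s1 : ∃ t, chk3 f_A00pm_012_s1 t 148 553 1 = true := ex3_a k54_A00pm_012_s1 k55_A00pm_012_s1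

theorem t1652_A00pm_012_s1 : ∃ t, chk3 f_A00pm_012_s1 t 297 552 1 = true := ex3_b k52_A00pm_012_s1 k53_A00pm_012_s1

theorem t1653_A00pm_012_s1 : ∃ t, chk3 f_A00pm_012_s1 t 148 552 1 = true := ex3_a k51_A00pm_012_s1 t1652_A00pm_012_s1

theorem t1654_A00pm_012_s1 : ∃ t, chk3 f_A00pm_012_s1 t 148 276 1 = true := ex3_b t1653_A00pm_012_s1 t1651_A00pm_012_s1

theorem t1655_A00pm_012_s1 : ∃ t, chk3 f_A00pm_012_s1 t 74 276 1 = true := ex3_a t1654_A00pm_012_s1 t1650_A00pm_012_s1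

theorem t1656_A00pm_012_s1 : ∃ t, chk3 f_A00pm_012_s1 t 74 138 1 = true := ex3_b t1655_A00pm_012_s1 t1646_A00pm_012_s1

theorem t1657_A00pm_012_s1 : ∃ t, chk3 f_A00pm_012_s1 t 37 138 1 = true := ex3_a t1656_A00pm_012_s1 t1629_A00pm_012_s1

theorem t1658_A00pm_012_s1 : ∃ t, chk3 f_A00pm_012_s1 t 37 69 1 = true := ex3_b t1657_A00pm_012_s1 t1619_A00pm_012_s1

theorem t1659_A00pm_012_s1 : ∃ t, chk3 f_A00pm_012_s1 t 37 34 1 = true := ex3_b k50_A00pm_012_s1 t1658_A00pm_012_s1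

theorem t1660_A00pm_012_s1 : ∃ t, chk3 f_A00pm_012_s1 t 147 277 1 = true := ex3_c k47_A00pm_012_s1 k48_A00pm_012_s1

theorem t1661_A00pm_012_s1 : ∃ t, chk3 f_A00pm_012_s1 t 73 277 1 = true := ex3_a k46_A00pm_012_s1 t1660_A00pm_012_s1

theorem t1662_A00pm_012_s1 : ∃ t, chk3 f_A00pm_012_s1 t 147 276 1 = true := ex3_b k44_A00pm_012_s1 k45_A00pm_012_s1

theorem t1663_A00pm_012_s1 : ∃ t, chk3 f_A00pm_012_s1 t 73 276 1 = true := ex3_a k43_A00pm_012_s1 t1662_A00pm_012_s1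

theorem t1664_A00pm_012_s1 : ∃ t, chk3 f_A00pm_012_s1 t 73 138 1 = true := ex3_b t1663_A00pm_012_s1 t1661_A00pm_012_s1

theorem t1665_A00pm_012_s1 : ∃ t, chk3 f_A00pm_012_s1 t 73 69 1 = true := ex3_b t1664_A00pm_012_s1 k49_A00pm_012_s1

theorem t1666_A00pm_012_s1 : ∃ t, chk3 f_A00pm_012_s1 t 36 69 1 = true := ex3_a k42_A00pm_012_s1 t1665_A00pm_012_s1

theorem t1667_A00pm_012_s1 : ∃ t, chk3 f_A00pm_012_s1 t 147 275 1 = true := ex3_b k40_A00pm_012_s1 k41_A00pm_012_s1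

theorem t1668_A00pm_012_s1 : ∃ t, chk3 f_A00pm_012_s1 t 73 275 1 = true := ex3_a k39_A00pm_012_s1 t1667_A00pm_012_s1

theorem t1669_A00pm_012_s1 : ∃ t, chk3 f_A00pm_012_s1 t 73 274 1 = true := ex3_a k37_A00pm_012_s1 k38_A00pm_012_s1

theorem t1670_A00pm_012_s1 : ∃ t, chk3 f_A00pm_012_s1 t 73 137 1 = true := ex3_b t1669_A00pm_012_s1 t1668_A00pm_012_s1

theorem t1671_A00pm_012_s1 : ∃ t, chk3 f_A00pm_012_s1 t 72 137 1 = true := ex3_b k35_A00pm_012_s1 k36_A00pm_012_s1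

theorem t1672_A00pm_012_s1 : ∃ t, chk3 f_A00pm_012_s1 t 36 137 1 = true := ex3_a t1671_A00pm_012_s1 t1670_A00pm_012_s1

theorem t1673_A00pm_012_s1 : ∃ t, chk3 f_A00pm_012_s1 t 145 273 1 = true := ex3_b k32_A00pm_012_s1 k33_A00pm_012_s1

theorem t1674_A00pm_012_s1 : ∃ t, chk3 f_A00pm_012_s1 t 72 273 1 = true := ex3_a k31_A00pm_012_s1 t1673_A00pm_012_s1

theorem t1675_A00pm_012_s1 : ∃ t, chk3 f_A00pm_012_s1 t 289 545 1 = true := ex3_b k28_A00pm_012_s1 k29_A00pm_012_s1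

theorem t1676_A00pm_012_s1 : ∃ t, chk3 f_A00pm_012_s1 t 144 545 1 = true := ex3_a k27_A00pm_012_s1 t1675_A00pm_012_s1

theorem t1677_A00pm_012_s1 : ∃ t, chk3 f_A00pm_012_s1 t 288 1089 1 = true := ex3_a k24_A00pm_012_s1 k25_A00pm_012_s1

theorem t1678_A00pm_012_s1 : ∃ t, chk3 f_A00pm_012_s1 t 1153 2176 1 = true := ex3_b k20_A00pm_012_s1 k21_A00pm_012_s1

theorem t1679_A00pm_012_s1 : ∃ t, chk3 f_A00pm_012_s1 t 576 2176 1 = true := ex3_a k19_A00pm_012_s1 t1678_A00pm_012_s1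

theorem t1680_A00pm_012_s1 : ∃ t, chk3 f_A00pm_012_s1 t 576 1088 1 = true := ex3_b t1679_A00pm_012_s1 k22_A00pm_012_s1

theorem t1681_A00pm_012_s1 : ∃ t, chk3 f_A00pm_012_s1 t 288 1088 1 = true := ex3_a t1680_A00pm_012_s1 k23_A00pm_012_s1

theorem t1682_A00pm_012_s1 : ∃ t, chk3 f_A00pm_012_s1 t 288 544 1 = true := ex3_b t1681_A00pm_012_s1 t1677_A00pm_012_s1

theorem t1683_A00pm_012_s1 : ∃ t, chk3 f_A00pm_012_s1 t 144 544 1 = true := ex3_a t1682_A00pm_012_s1 k26_A00pm_012_s1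

theorem t1684_A00pm_012_s1 : ∃ t, chk3 f_A00pm_012_s1 t 144 272 1 = true := ex3_b t1683_A00pm_012_s1 t1676_A00pm_012_s1

theorem t1685_A00pm_012_s1 : ∃ t, chk3 f_A00pm_012_s1 t 72 272 1 = true := ex3_a t1684_A00pm_012_s1 k30_A00pm_012_s1

theorem t1686_A00pm_012_s1 : ∃ t, chk3 f_A00pm_012_s1 t 72 136 1 = true := ex3_b t1685_A00pm_012_s1 t1674_A00pm_012_s1

theorem t1687_A00pm_012_s1 : ∃ t, chk3 f_A00pm_012_s1 t 36 136 1 = true := ex3_a t1686_A00pm_012_s1 k34_A00pm_012_s1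

theorem t1688_A00pm_012_s1 : ∃ t, chk3 f_A00pm_012_s1 t 36 68 1 = true := ex3_b t1687_A00pm_012_s1 t1672_A00pm_012_s1

theorem t1689_A00pm_012_s1 : ∃ t, chk3 f_A00pm_012_s1 t 36 34 1 = true := ex3_b t1688_A00pm_012_s1 t1666_A00pm_012_s1

theorem t1690_A00pm_012_s1 : ∃ t, chk3 f_A00pm_012_s1 t 18 34 1 = true := ex3_a t1689_A00pm_012_s1 t1659_A00pm_012_s1

theorem t1691_A00pm_012_s1 : ∃ t, chk3 f_A00pm_012_s1 t 18 17 1 = true := ex3_b t1690_A00pm_012_s1 t1533_A00pm_012_s1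

theorem t1692_A00pm_012_s1 : ∃ t, chk3 f_A00pm_012_s1 t 9 17 1 = true := ex3_a t1691_A00pm_012_s1 t1513_A00pm_012_s1

theorem t1693_A00pm_012_s1 : ∃ t, chk3 f_A00pm_012_s1 t 1152 4351 3 = true := ex3_a k10_A00pm_012_s1 k11_A00pm_012_s1

theorem t1694_A00pm_012_s1 : ∃ t, chk3 f_A00pm_012_s1 t 1152 2175 3 = true := ex3_b k9_A00pm_012_s1 t1693_A00pm_012_s1

theorem t1695_A00pm_012_s1 : ∃ t, chk3 f_A00pm_012_s1 t 576 2175 3 = true := ex3_a t1694_A00pm_012_s1 k12_A00pm_012_s1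

theorem t1696_A00pm_012_s1 : ∃ t, chk3 f_A00pm_012_s1 t 576 1087 3 = true := ex3_b k8_A00pm_012_s1 t1695_A00pm_012_s1

theorem t1697_A00pm_012_s1 : ∃ t, chk3 f_A00pm_012_s1 t 576 1087 1 = true := ex3_c k7_A00pm_012_s1 t1696_A00pm_012_s1

theorem t1698_A00pm_012_s1 : ∃ t, chk3 f_A00pm_012_s1 t 288 1087 1 = true := ex3_a t1697_A00pm_012_s1 k13_A00pm_012_s1

theorem t1699_A00pm_012_s1 : ∃ t, chk3 f_A00pm_012_s1 t 288 543 1 = true := ex3_b k6_A00pm_012_s1 t1698_A00pm_012_s1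

theorem t1700_A00pm_012_s1 : ∃ t, chk3 f_A00pm_012_s1 t 144 543 1 = true := ex3_a t1699_A00pm_012_s1 k14_A00pm_012_s1

theorem t1701_A00pm_012_s1 : ∃ t, chk3 f_A00pm_012_s1 t 144 271 1 = true := ex3_b k5_A00pm_012_s1 t1700_A00pm_012_s1

theorem t1702_A00pm_012_s1 : ∃ t, chk3 f_A00pm_012_s1 t 72 271 1 = true := ex3_a t1701_A00pm_012_s1 k15_A00pm_012_s1

theorem t1703_A00pm_012_s1 : ∃ t, chk3 f_A00pm_012_s1 t 72 135 1 = true := ex3_b k4_A00pm_012_s1 t1702_A00pm_012_s1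

theorem t1704_A00pm_012_s1 : ∃ t, chk3 f_A00pm_012_s1 t 36 135 1 = true := ex3_a t1703_A00pm_012_s1 k16_A00pm_012_s1

theorem t1705_A00pm_012_s1 : ∃ t, chk3 f_A00pm_012_s1 t 36 67 1 = true := ex3_b k3_A00pm_012_s1 t1704_A00pm_012_s1

theorem t1706_A00pm_012_s1 : ∃ t, chk3 f_A00pm_012_s1 t 18 67 1 = true := ex3_a t1705_A00pm_012_s1 k17_A00pm_012_s1

theorem t1707_A00pm_012_s1 : ∃ t, chk3 f_A00pm_012_s1 t 18 33 1 = true := ex3_b k2_A00pm_012_s1 t1706_A00pm_012_s1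

theorem t1708_A00pm_012_s1 : ∃ t, chk3 f_A00pm_012_s1 t 9 33 1 = true := ex3_a t1707_A00pm_012_s1 k18_A00pm_012_s1

theorem t1709_A00pm_012_s1 : ∃ t, chk3 f_A00pm_012_s1 t 9 16 1 = true := ex3_b k1_A00pm_012_s1 t1708_A00pm_012_s1

theorem t1710_A00pm_012_s1 : ∃ t, chk3 f_A00pm_012_s1 t 9 8 1 = true := ex3_b t1709_A00pm_012_s1 t1692_A00pm_012_s1

theorem t1711_A00pm_012_s1 : ∃ t, chk3 f_A00pm_012_s1 t 4 8 1 = true := ex3_a k0_A00pm_012_s1 t1710_A00pm_012_s1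

theorem t1712_A00pm_012_s1 : ∃ t, chk3 f_A00pm_012_s1 t 2 8 1 = true := ex3_a t1711_A00pm_012_s1 t1417_A00pm_012_s1

theorem t1713_A00pm_012_s1 : ∃ t, chk3 f_A00pm_012_s1 t 2 4 1 = true := ex3_b t1712_A00pm_012_s1 t1407_A00pm_012_s1

theorem t1714_A00pm_012_s1 : ∃ t, chk3 f_A00pm_012_s1 t 1 4 1 = true := ex3_a t1713_A00pm_012_s1 t1206_A00pm_012_s1

theorem t1715_A00pm_012_s1 : ∃ t, chk3 f_A00pm_012_s1 t 1 2 1 = true := ex3_b t1714_A00pm_012_s1 t1133_A00pm_012_s1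

theorem t1716_A00pm_012_s1 : ∃ t, chk3 f_A00pm_012_s1 t 1 1 1 = true := ex3_b t1715_A00pm_012_s1 t861_A00pm_012_s1

theorem c_A00pm_012_s1 : CertF 0 536870912 536870912 536870912 587336777 62277027 true true false .pnp 0 1 2
    ndB0q0 ndB0q1 pcB2 cut_A00pm_012_s1 xt_A00pm_012_s1 :=
  certF1 (fam := true) (s1 := true) (s2 := false) (a := 0) (b := 1) (c := 2) (cn := .pnp) (n1 := ndB0q0) (n2 := ndB0q1) (pc := pcB2) (cut := cut_A00pm_012_s1) (xt := xt_A00pm_012_s1) (P1 := 0) (W1 := 536870912) (P2 := 536870912) (W2 := 536870912) (P3 := 587336777) (W3 := 62277027)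
    rfl (fun _ => rfl) t1716_A00pm_012_s1

theorem s_A00pm_012_s1 {κ x : ℝ} (hκ : κ * h0 = ken x) (hx : ((587336777 : ℕ) : ℝ) / S ≤ x)
    (hx' : x ≤ (((587336777 : ℕ) : ℝ) + (62277027 : ℕ)) / S)
    (H : CutA (VFD κ) PP tK tL pcB (Cut.of [[⟨0, 0, 0, 67108864⟩, ⟨1, 1, 0, 67108864⟩, ⟨2, 1, 0, 67108864⟩]]) 0 1 2 0 0 (sgb true) (sgb false) x) :
    AltA (VFD κ) PP tK tL pcB [⟨3, 0, 0, 1449551462⟩] 0 1 2 0 0 (sgb true) (sgb false) x :=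
  strip_altAD (m := 1449551462) true rfl hκ (SH.κ0 hκ (SH.hx1 hx).le (SH.hx2 hx').le) (SH.hx1 hx).le (SH.hx2 hx') (covB00).cov (covB01).cov hx hx' c_A00pm_012_s1 H ((okx6 hx hx').ext0A (T := tt) (zx hx hx') (okx hx hx') (sideB hx hx') hκ rfl rfl (.O 0 true) (.O 1 false) rfl)

end Pool.Agent.Strip051.G.I5470_6050.Tab.St.C
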