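import Pool.Agent.Strip051.G.I5470_6050.Fact
import Pool.Agent.Strip051.G.I5470_6050.StH
import Pool.Agent.Strip051.PB.GlueD2I
import Pool.Agent.Strip051.PB.MolR

/-! # Facts for the strips (generated) -/

set_option linter.all false
set_option maxRecDepth 100000

namespace Pool.Agent.Strip051.G.I5470_6050.Tab.SE

open Pool.Agent.Strip051.PB Pool.Agent.StripNear Pool.Agent.StripSquare Pool.Agent.Strip051.LC
open Pool.Agent.Strip051.G.I5470_6050.Tab Pool.Agent.Strip051.G.I5470_6050.Tab.SH


end Pool.Agent.Strip051.G.I5470_6050.Tab.SE
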