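import Pool.Agent.Strip051.G.I5470_6050.Tab
import Pool.Agent.Strip051.PB.StripB

/-! # Strips, near vertex: certificates 0 (generated) -/

set_option linter.all false
set_option maxRecDepth 100000

namespace Pool.Agent.Strip051.G.I5470_6050.Tab.CS.BA00

open Pool.Agent.Strip051.PB Pool.Agent.Strip051.PB.T
open Pool.Agent.Strip051.G.I5470_6050.Tab

noncomputable def cut_pp_001_s : Cut := Cut.of [[⟨4, 0, 0, 1449551462⟩]]

noncomputable def f_pp_001_s : ℕ → ℕ → ℕ → ℕ → Bool := onCell 0 536870912 0 536870912 587336777 62277027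
    (rowNE 3 eng mog cd0q0 cd0q0 pd1 0 true true true .up 0 0 1 (qsf 0 536870912 0 536870912 1) ndB0q0 ndB0q0 pcB1 cut_pp_001_s Ext.none)

def k0_pp_001_s : ∃ t, chk3 f_pp_001_s t 1 1 1 = true :=
  ⟨(l 4), by decide +kernel⟩

theorem c_pp_001_s : CertNE 0 536870912 0 536870912 587336777 62277027 3 eng mog cd0q0 cd0q0 pd1 true true true .up 0 0 1
    ndB0q0 ndB0q0 pcB1 cut_pp_001_s Ext.none :=
  certNE0 (fam := true) (s1 := true) (s2 := true) (a := 0) (b := 0) (c := 1) (cn := .up) (n1 := ndB0q0) (n2 := ndB0q0) (pc := pcB1) (cut := cut_pp_001_s) (xt := Ext.none) (P1 := 0) (W1 := 536870912) (P2 := 0) (W2 := 536870912) (P3 := 587336777) (W3 := 62277027) (N0 := 3) (En := eng) (mo := mog) (C1 := cd0q0) (C2 := cd0q0) (C3 := pd1)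
    rfl k0_pp_001_s

noncomputable def cut_pp_001_t : Cut := Cut.of [[⟨3, 0, 0, 2845415833⟩]]

noncomputable def f_pp_001_t : ℕ → ℕ → ℕ → ℕ → Bool := onCell 0 536870912 0 536870912 587336777 62277027
    (rowNE 3 eng mog cd0q0 cd0q0 pd1 0 true true true .up 0 0 1 (qsf 0 536870912 0 536870912 1) ndB0q0 ndB0q0 pcB1 cut_pp_001_t Ext.none)

def k0_pp_001_t : ∃ t, chk3 f_pp_001_t t 1 1 1 = true :=
  ⟨(l 4), by decide +kernel⟩

theorem c_pp_001_t : CertNE 0 536870912 0 536870912 587336777 62277027 3 eng mog cd0q0 cd0q0 pd1 true true true .up 0 0 1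
    ndB0q0 ndB0q0 pcB1 cut_pp_001_t Ext.none :=
  certNE0 (fam := true) (s1 := true) (s2 := true) (a := 0) (b := 0) (c := 1) (cn := .up) (n1 := ndB0q0) (n2 := ndB0q0) (pc := pcB1) (cut := cut_pp_001_t) (xt := Ext.none) (P1 := 0) (W1 := 536870912) (P2 := 0) (W2 := 536870912) (P3 := 587336777) (W3 := 62277027) (N0 := 3) (En := eng) (mo := mog) (C1 := cd0q0) (C2 := cd0q0) (C3 := pd1)
    rfl k0_pp_001_t

noncomputable def cut_pp_011_s : Cut := Cut.of [[⟨4, 0, 0, 1449551462⟩], [⟨0, 0, 0, 67108864⟩, ⟨1, 1, 0, 67108864⟩, ⟨2, 1, 0, 67108864⟩]]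

noncomputable def f_pp_011_s : ℕ → ℕ → ℕ → ℕ → Bool := onCell 0 536870912 536870912 536870912 587336777 62277027
    (rowNE 3 eng mog cd0q0 cd0q1 pd1 0 true true true .pnn 0 1 1 (qsf 0 536870912 536870912 536870912 1) ndB0q0 ndB0q1 pcB1 cut_pp_011_s Ext.none)

def k0_pp_011_s : ∃ t, chk3 f_pp_011_s t 1 1 1 = true :=
  ⟨(l 6), by decide +kernel⟩

theorem c_pp_011_s : CertNE 0 536870912 536870912 536870912 587336777 62277027 3 eng mog cd0q0 cd0q1 pd1 true true true .pnn 0 1 1
    ndB0q0 ndB0q1 pcB1 cut_pp_011_s Ext.none :=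
  certNE0 (fam := true) (s1 := true) (s2 := true) (a := 0) (b := 1) (c := 1) (cn := .pnn) (n1 := ndB0q0) (n2 := ndB0q1) (pc := pcB1) (cut := cut_pp_011_s) (xt := Ext.none) (P1 := 0) (W1 := 536870912) (P2 := 536870912) (W2 := 536870912) (P3 := 587336777) (W3 := 62277027) (N0 := 3) (En := eng) (mo := mog) (C1 := cd0q0) (C2 := cd0q1) (C3 := pd1)
    rfl k0_pp_011_s

noncomputable def cut_pp_011_t : Cut := Cut.of [[⟨3, 0, 0, 2845415833⟩], [⟨0, 0, 0, 67108864⟩, ⟨1, 1, 0, 67108864⟩, ⟨2, 1, 0, 67108864⟩]]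

noncomputable def f_pp_011_t : ℕ → ℕ → ℕ → ℕ → Bool := onCell 0 536870912 536870912 536870912 587336777 62277027
    (rowNE 3 eng mog cd0q0 cd0q1 pd1 0 true true true .pnn 0 1 1 (qsf 0 536870912 536870912 536870912 1) ndB0q0 ndB0q1 pcB1 cut_pp_011_t Ext.none)

def k0_pp_011_t : ∃ t, chk3 f_pp_011_t t 1 1 1 = true :=
  ⟨(b (l 4) (a (b (l 4) (a (b (l 4) (a (b (l 4) (a (l 14) (l 4))) (l 4))) (l 4))) (l 4))), by decide +kernel⟩

theorem c_pp_011_t : CertNE 0 536870912 536870912 536870912 587336777 62277027 3 eng mog cd0q0 cd0q1 pd1 true true true .pnn 0 1 1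
    ndB0q0 ndB0q1 pcB1 cut_pp_011_t Ext.none :=
  certNE0 (fam := true) (s1 := true) (s2 := true) (a := 0) (b := 1) (c := 1) (cn := .pnn) (n1 := ndB0q0) (n2 := ndB0q1) (pc := pcB1) (cut := cut_pp_011_t) (xt := Ext.none) (P1 := 0) (W1 := 536870912) (P2 := 536870912) (W2 := 536870912) (P3 := 587336777) (W3 := 62277027) (N0 := 3) (En := eng) (mo := mog) (C1 := cd0q0) (C2 := cd0q1) (C3 := pd1)
    rfl k0_pp_011_t

noncomputable def cut_pp_012_s : Cut := Cut.of [[⟨4, 0, 0, 1449551462⟩], [⟨0, 0, 0, 67108864⟩, ⟨1, 1, 0, 67108864⟩, ⟨2, 1, 0, 67108864⟩]]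

noncomputable def f_pp_012_s : ℕ → ℕ → ℕ → ℕ → Bool := onCell 0 536870912 536870912 536870912 587336777 62277027
    (rowNE 3 eng mog cd0q0 cd0q1 pd2 0 true true true .pnp 0 1 2 (qsf 0 536870912 536870912 536870912 2) ndB0q0 ndB0q1 pcB2 cut_pp_012_s Ext.none)

def k0_pp_012_s : ∃ t, chk3 f_pp_012_s t 1 1 1 = true :=
  ⟨(l 6), by decide +kernel⟩

theorem c_pp_012_s : CertNE 0 536870912 536870912 536870912 587336777 62277027 3 eng mog cd0q0 cd0q1 pd2 true true true .pnp 0 1 2
    ndB0q0 ndB0q1 pcB2 cut_pp_012_s Ext.none :=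
  certNE0 (fam := true) (s1 := true) (s2 := true) (a := 0) (b := 1) (c := 2) (cn := .pnp) (n1 := ndB0q0) (n2 := ndB0q1) (pc := pcB2) (cut := cut_pp_012_s) (xt := Ext.none) (P1 := 0) (W1 := 536870912) (P2 := 536870912) (W2 := 536870912) (P3 := 587336777) (W3 := 62277027) (N0 := 3) (En := eng) (mo := mog) (C1 := cd0q0) (C2 := cd0q1) (C3 := pd2)
    rfl k0_pp_012_s

noncomputable def cut_pp_012_t : Cut := Cut.of [[⟨3, 0, 0, 2845415833⟩], [⟨0, 0, 0, 67108864⟩, ⟨1, 1, 0, 67108864⟩, ⟨2, 1, 0, 67108864⟩]]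

noncomputable def f_pp_012_t : ℕ → ℕ → ℕ → ℕ → Bool := onCell 0 536870912 536870912 536870912 587336777 62277027
    (rowNE 3 eng mog cd0q0 cd0q1 pd2 0 true true true .pnp 0 1 2 (qsf 0 536870912 536870912 536870912 2) ndB0q0 ndB0q1 pcB2 cut_pp_012_t Ext.none)

def k0_pp_012_t : ∃ t, chk3 f_pp_012_t t 1 1 1 = true :=
  ⟨(b (l 4) (a (b (l 4) (a (b (l 4) (a (b (l 4) (a (l 14) (l 4))) (l 4))) (l 4))) (l 4))), by decide +kernel⟩

theorem c_pp_012_t : CertNE 0 536870912 536870912 536870912 587336777 62277027 3 eng mog cd0q0 cd0q1 pd2 true true true .pnp 0 1 2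
    ndB0q0 ndB0q1 pcB2 cut_pp_012_t Ext.none :=
  certNE0 (fam := true) (s1 := true) (s2 := true) (a := 0) (b := 1) (c := 2) (cn := .pnp) (n1 := ndB0q0) (n2 := ndB0q1) (pc := pcB2) (cut := cut_pp_012_t) (xt := Ext.none) (P1 := 0) (W1 := 536870912) (P2 := 536870912) (W2 := 536870912) (P3 := 587336777) (W3 := 62277027) (N0 := 3) (En := eng) (mo := mog) (C1 := cd0q0) (C2 := cd0q1) (C3 := pd2)
    rfl k0_pp_012_t

noncomputable def cut_pp_022_s : Cut := Cut.of [[⟨4, 0, 0, 1449551462⟩], [⟨0, 0, 0, 67108864⟩, ⟨1, 1, 0, 67108864⟩, ⟨2, 1, 0, 67108864⟩]]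

noncomputable def f_pp_022_s : ℕ → ℕ → ℕ → ℕ → Bool := onCell 0 536870912 0 536870912 587336777 62277027
    (rowNE 3 eng mog cd0q0 cd0q2 pd2 0 true true true .pp 0 2 2 (qsf 0 536870912 0 536870912 2) ndB0q0 ndB0q2 pcB2 cut_pp_022_s Ext.none)

def k0_pp_022_s : ∃ t, chk3 f_pp_022_s t 1 1 1 = true :=
  ⟨(l 6), by decide +kernel⟩

theorem c_pp_022_s : CertNE 0 536870912 0 536870912 587336777 62277027 3 eng mog cd0q0 cd0q2 pd2 true true true .pp 0 2 2
    ndB0q0 ndB0q2 pcB2 cut_pp_022_s Ext.none :=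
  certNE0 (fam := true) (s1 := true) (s2 := true) (a := 0) (b := 2) (c := 2) (cn := .pp) (n1 := ndB0q0) (n2 := ndB0q2) (pc := pcB2) (cut := cut_pp_022_s) (xt := Ext.none) (P1 := 0) (W1 := 536870912) (P2 := 0) (W2 := 536870912) (P3 := 587336777) (W3 := 62277027) (N0 := 3) (En := eng) (mo := mog) (C1 := cd0q0) (C2 := cd0q2) (C3 := pd2)
    rfl k0_pp_022_s

noncomputable def cut_pp_022_t : Cut := Cut.of [[⟨3, 0, 0, 2845415833⟩], [⟨0, 0, 0, 67108864⟩, ⟨1, 1, 0, 67108864⟩, ⟨2, 1, 0, 67108864⟩]]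

noncomputable def f_pp_022_t : ℕ → ℕ → ℕ → ℕ → Bool := onCell 0 536870912 0 536870912 587336777 62277027
    (rowNE 3 eng mog cd0q0 cd0q2 pd2 0 true true true .pp 0 2 2 (qsf 0 536870912 0 536870912 2) ndB0q0 ndB0q2 pcB2 cut_pp_022_t Ext.none)

def k0_pp_022_t : ∃ t, chk3 f_pp_022_t t 2 2 1 = true :=
  ⟨(a (b (l 6) (a (l 6) (b (l 6) (b (l 6) (a (a (l 6) (a (l 6) (l 16598872))) (a (l 16627744) (l 16617520))))))) (b (a (l 6) (b (l 6) (a (l 6) (b (l 6) (l 16616040))))) (a (b (a (l 6) (b (l 6) (l 16611224))) (a (b (a (l 16583912) (l 16594768)) (a (l 16628632) (l 16640168))) (b (a (l 16606296) (l 16618704)) (a (l 16652264) (l 16665128))))) (b (a (a (b (l 16586792) (l 16608200)) (l 16663680)) (b (l 16628360) (a (l 16635800) (l 16651808)))) (a (b (a (l 16673768) (l 16664296)) (a (b (l 16651032) (l 16664752)) (a (c (l 16690480) (l 16688256)) (l 16695560)))) (b (a (l 16677960) (l 16693920)) (a (c (l 16715752) (l 16715008)) (c (l 16725448) (l 16728040))))))))),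 by decide +kernel⟩

def k1_pp_022_t : ∃ t, chk3 f_pp_022_t t 8 6 1 = true :=
  ⟨(b (a (b (l 6) (b (l 6) (a (a (l 6) (l 16575328)) (a (l 16581720) (l 16587912))))) (a (b (l 6) (b (l 16594216) (l 16596904))) (b (b (l 6) (a (l 16579720) (c (l 16608040) (l 16605200)))) (b (a (l 16592272) (l 16620464)) (l 16621744))))) (a (b (a (b (a (l 16580496) (l 16587496)) (a (l 16592920) (l 16600288))) (b (a (b (l 16591048) (l 16597464)) (l 16600848)) (a (l 16607424) (b (l 16610904) (l 16617816))))) (a (b (a (c (l 16608184) (l 16603600)) (c (l 16615560) (l 16611664))) (a (a (l 16617816) (l 16621904)) (c (l 16629904) (l 16625720)))) (b (a (l 16631704) (l 16639000)) (a (c (l 16637416) (l 16633832)) (b (l 16639528) (l 16647128)))))) (b (b (a (a (l 16607280) (l 16613584)) (l 16643840)) (a (a (l 16621176) (l 16627856)) (a (l 16634456) (l 16641000)))) (a (b (a (b (l 16631952) (l 16639352)) (b (l 16638904) (l 16646472))) (a (b (l 16646920) (l 16654664)) (b (l 16654200) (l 16662096))))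 (b (a (l 16649656) (l 16656552)) (a (b (l 16661400) (l 16669432)) (l 16672640))))))), by decide +kernel⟩

def k2_pp_022_t : ∃ t, chk3 f_pp_022_t t 9 6 1 = true :=
  ⟨(b (a (b (b (a (l 16602832) (l 16613928)) (a (a (l 16591296) (l 16597064)) (a (l 16602832) (l 16608616)))) (a (a (a (b (l 16644656) (l 16616312)) (b (l 16605728) (l 16619440))) (b (l 16610224) (l 16629376))) (b (l 16619224) (l 16633472)))) (b (a (b (l 16604136) (l 16617352)) (b (l 16615536) (l 16629184))) (a (a (l 16656568) (l 16662760)) (a (l 16669008) (l 16675320))))) (a (b (a (b (a (l 16632288) (b (l 16635000) (l 16642480))) (a (l 16647504) (l 16654096))) (a (b (l 16645224) (c (l 16682176) (l 16681504))) (b (l 16651680) (l 16667480)))) (b (a (a (l 16663416) (l 16670248)) (a (l 16698024) (a (l 16703216) (l 16706672)))) (a (a (l 16679816) (l 16686968)) (a (l 16704568) (a (l 16699408) (l 16713448)))))) (b (a (b (l 16682384) (l 16686384)) (b (l 16695536) (a (l 16687704) (l 16694560)))) (a (b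 (c (l 16715504) (l 16704808)) (a (b (l 16724840) (b (l 16731464) (l 16735920))) (l 16726024))) (b (b (l 16714552) (l 16723456)) (a (b (l 16718304) (l 16727328)) (c (l 16740712) (l 16740560)))))))), by decide +kernel⟩

def k3_pp_022_t : ∃ t, chk3 f_pp_022_t t 16 14 1 = true :=
  ⟨(a (b (b (a (a (c (l 16634952) (l 16629848)) (l 16647208)) (a (l 16640880) (l 16644984))) (a (a (b (l 16644088) (l 16652160)) (b (l 16648408) (l 16656536))) (c (b (l 16656808) (l 16664976)) (a (l 16654512) (l 16658888))))) (b (b (a (a (l 14) (l 16664936)) (a (l 16669296) (l 16673592))) (a (l 14) (a (l 16678008) (l 16682352)))) (a (l 14) (a (l 14) (b (c (l 16693064) (l 16689624)) (l 14)))))) (b (b (a (b (l 16647088) (l 16654960)) (b (l 16654920) (l 16662920))) (b (a (l 16663048) (l 16671136)) (a (c (l 16673096) (l 16669520)) (l 16690056)))) (b (b (a (a (l 16677840) (l 16682040)) (a (l 16686184) (l 16690296))) (a (a (l 16686648) (l 16690888)) (a (l 16695088) (l 16699240)))) (a (b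 (a (l 16695728) (l 16700008)) (a (l 14) (c (l 16710696) (l 16708032)))) (a (b (l 16704248) (c (l 16714856) (l 16712424))) (b (l 16708440) (c (l 16718984) (l 16716768)))))))), by decide +kernel⟩

def k4_pp_022_t : ∃ t, chk3 f_pp_022_t t 17 14 1 = true :=
  ⟨(b (b (a (a (b (l 16662600) (l 16670728)) (b (l 16670160) (l 16678416))) (a (c (l 16693200) (l 16691312)) (b (l 16685056) (l 16693552)))) (b (a (a (l 16679056) (l 16686864)) (a (l 16694576) (l 16702232))) (a (a (l 16687608) (l 16706008)) (a (l 16713824) (c (l 16711808) (l 16710280)))))) (a (b (a (b (c (l 16697584) (l 16695080)) (a (l 16703360) (l 16707440))) (b (c (l 16705408) (l 16703288)) (a (l 16711488) (l 16715512)))) (a (a (b (l 16712600) (c (l 16723072) (l 16721072))) (b (l 16716720) (c (l 16727136) (l 16725336)))) (a (b (l 16720816) (c (l 16731176) (l 16729560))) (b (l 16735368) (c (l 16735184) (l 16733752)))))) (b (a (b (c (l 16713144) (l 16711384)) (c (l 16732760) (l 16731144))) (b (c (l 16720832)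 (l 16719400)) (c (l 16735288) (l 16735304)))) (a (b (a (l 16734160) (c (l 16733576) (l 16732240))) (a (c (l 16739184) (l 16743160)) (c (l 16748400) (l 16747296)))) (a (b (c (l 16737504) (l 16736320)) (b (l 16744200) (l 16754360))) (b (c (l 16741416) (l 16740384)) (b (l 16748208) (c (l 16753504) (l 16752760))))))))), by decide +kernel⟩

def k5_pp_022_t : ∃ t, chk3 f_pp_022_t t 16 15 1 = true :=
  ⟨(b (a (l 14) (b (a (l 14) (b (a (c (l 16729672) (l 16727544)) (c (l 16733832) (l 16731920))) (a (l 14) (c (b (l 16735960) (l 16740968)) (b (l 16734296) (l 16739480)))))) (l 14))) (l 14)), by decide +kernel⟩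

def k6_pp_022_t : ∃ t, chk3 f_pp_022_t t 68 30 1 = true :=
  ⟨(b (b (a (c (l 16737960) (l 16736248)) (b (l 16733592) (l 16743808))) (b (a (c (l 16740112) (l 16738648)) (c (l 16744232) (l 16742960))) (a (c (l 16745136) (l 16743840)) (c (l 16749264) (l 16753416))))) (b (a (b (a (l 16751240) (a (l 16750216) (l 16751280))) (l 14)) (b (c (c (l 16757208) (l 16756776)) (c (l 16756320) (l 16755840))) (c (a (l 16761136) (l 16763208)) (a (l 16760376) (l 16762536))))) (b (a (l 14) (a (l 14) (a (b (l 16763736) (l 14)) (b (l 16764792) (l 16768800))))) (l 14)))), by decide +kernel⟩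

def k7_pp_022_t : ∃ t, chk3 f_pp_022_t t 69 60 1 = true :=
  ⟨(b (b (a (l 16737744) (l 16741872)) (a (l 16747976) (c (l 16747400) (l 16746328)))) (b (a (c (l 16748328) (l 16747240)) (c (l 16752400) (l 16751480))) (a (c (l 16756000) (l 16755080)) (c (c (l 16762880) (l 16762528)) (c (l 16759536) (l 16759144)))))), by decide +kernel⟩

def k8_pp_022_t : ∃ t, chk3 f_pp_022_t t 69 122 1 = true :=
  ⟨(a (a (b (c (l 16757464) (l 16756688)) (b (l 16761040) (a (l 16763176) (l 16764224)))) (b (c (l 16759520) (l 16758832)) (b (l 16764456) (a (l 16765280) (l 16766328))))) (a (b (c (l 16764192) (l 16763592)) (b (c (l 16765464) (l 16765000)) (c (l 16770696) (l 16769032)))) (b (b (l 16762048) (l 16765984)) (b (c (l 16767504) (l 16767136)) (c (c (l 16772816) (l 16771368)) (c (l 16771232) (l 16771088))))))), by decide +kernel⟩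

def k9_pp_022_t : ∃ t, chk3 f_pp_022_t t 69 246 1 = true :=
  ⟨(a (a (b (c (l 16766592) (l 16766160)) (c (c (l 16770624) (l 16770472)) (c (l 16770312) (l 16770136)))) (a (b (l 16769272) (c (l 16772096) (l 16771840))) (b (c (l 16769168) (l 16768848)) (b (l 16771040) (l 16773048))))) (a (a (b (c (l 16770200) (l 16769920)) (b (l 16773400) (a (l 16773184) (l 16773704)))) (b (c (l 16772536) (l 16772296)) (a (b (l 16772872) (l 16774888)) (b (l 16773400) (a (l 16775936) (l 16775544)))))) (b (a (b (l 16771480) (l 16773488)) (b (l 16773840) (a (l 16773616) (l 16775448)))) (b (b (a (l 16773848) (a (l 16774632) (l 16775152))) (c (l 16775744) (a (l 16774472) (a (l 16775272) (l 16777112))))) (a (c (l 16776232) (l 16776160)) (b (b (l 16776080) (l 16776744)) (a (l 16777320) (b (l 16777672) (a (l 49627005735) (l 102240355751)))))))))), by decide +kernel⟩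

def k10_pp_022_t : ∃ t, chk3 f_pp_022_t t 138 247 1 = true :=
  ⟨(a (a (l 14) (b (b (l 16772952) (a (l 14) (l 16773272))) (l 14))) (a (b (c (b (l 16772784) (l 16774784)) (b (l 16772608) (c (l 16775344) (l 16775280)))) (b (b (c (l 16775792) (l 16775704)) (b (c (l 16776296) (l 16776232)) (l 16776280))) (b (a (l 14) (a (l 14) (l 16777192))) (l 14)))) (b (a (b (l 16773488) (a (l 16775376) (l 16775640))) (b (l 16774672) (b (l 16775040) (a (l 16775592) (l 16776512))))) (b (b (c (l 16776168) (l 16776456)) (a (l 16776896) (b (l 16777416) (a (l 16777456) (a (l 90429194935) (l 4)))))) (b (a (b (a (l 16776952) (a (l 16777144) (l 56606327703))) (a (c (l 68954358551) (l 70564971271)) (l 4))) (c (l 164517381063) (l 169349219239))) (l 4)))))), by decide +kernel⟩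

def k11_pp_022_t : ∃ t, chk3 f_pp_022_t t 139 247 1 = true :=
  ⟨(b (b (a (a (a (a (l 16774408) (l 16775328)) (b (l 16774728) (l 16776064))) (c (l 16776376) (c (l 16776496) (l 16776144)))) (a (b (a (l 16776304) (c (l 16777488) (l 16777472))) (b (a (l 16776816) (a (l 16777608) (l 96334775687))) (a (a (l 16777024) (l 63048778647)) (l 4)))) (a (b (b (a (l 16777048) (l 69491229639)) (a (l 99019129687) (l 4))) (l 4)) (l 4)))) (a (a (b (b (a (l 16775392) (l 16776576)) (l 16776328)) (a (l 16776248) (c (l 16777440) (l 16777256)))) (a (b (l 16776616) (b (a (l 16777000) (l 57680069479)) (a (l 83449873239) (l 4)))) (b (b (l 16777624) (a (l 16777664) (c (l 123715191543) (l 126399546087)))) (l 4)))) (b (a (a (a (b (l 89355453319) (l 4)) (l 4)) (l 4)) (l 4)) (l 4)))) (a (a (b (b (b (a (l 16776768) (a (l 16777648) (c (l 82376131815) (l 116198998759)))) (a (a (l 16776976) (l 51237618503)) (l 168275477191))) (a (a (a (b (l 16777568) (l 4)) (l 158611800647)) (l 4)) (l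 4))) (l 4)) (l 4)) (l 4))), by decide +kernel⟩

def k12_pp_022_t : ∃ t, chk3 f_pp_022_t t 35 60 1 = true :=
  ⟨(b (a (b (a (l 16751216) (c (l 16750480) (l 16749584))) (a (c (l 16751432) (l 16750528)) (c (l 16755448) (l 16759944)))) (a (b (c (l 16754464) (l 16753720)) (c (l 16762072) (c (l 16759008) (l 16763936)))) (b (c (l 16763680) (l 16763080)) (b (c (l 16762176) (l 16761688)) (c (l 16767312) (l 16766896)))))) (b (a (a (c (l 16759064) (l 16758320)) (c (c (l 16763232) (l 16762960)) (c (l 16762664) (l 16762352)))) (a (a (a (l 16765368) (l 16766064)) (b (l 16764008) (l 16769208))) (a (b (l 16768664) (c (l 16768760) (l 16768472))) (b (c (l 16768216) (l 16767912)) (c (l 16772072) (l 16771848)))))) (b (a (a (c (l 16760248) (l 16759624)) (c (l 16766904) (l 16765136))) (a (c (a (l 16767304) (l 16771936)) (a (l 16766960) (l 16771656))) (a (a (l 16772024) (a (l 16772784) (l 16773296))) (a (b (l 16772096) (l 16774712)) (l 16774744))))) (a (a (c (l 16765424) (l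 16764888)) (a (l 16768256) (a (l 16767176) (l 16768208)))) (b (a (a (l 16771712) (a (l 16770624) (l 16771648))) (c (a (l 16775536) (l 16776560)) (a (a (l 16772584) (l 16773624)) (l 16775832)))) (a (a (l 16771712) (c (l 16775152) (l 16773672))) (a (a (c (l 16776656) (l 16775232)) (l 16775000)) (a (l 16776672) (b (c (l 16778024) (l 16777352)) (a (l 21709718919) (l 145726898855))))))))))), by decide +kernel⟩

def k13_pp_022_t : ∃ t, chk3 f_pp_022_t t 70 122 1 = true :=
  ⟨(a (a (b (b (l 16766744) (a (l 16766232) (l 16767272))) (a (b (l 16770200) (c (l 16772976) (l 16772760))) (b (c (l 16770056) (l 16769784)) (b (l 16771928) (a (l 16773008) (l 16773528)))))) (a (b (b (l 16765672) (l 16768312)) (b (a (l 16772016) (l 16772536)) (b (l 16774280) (a (l 16775360) (l 16775224))))) (b (b (l 16766712) (l 16770656)) (c (b (l 16773408) (l 16775704)) (b (l 16773208) (b (l 16775256) (a (l 16776352) (b (l 16775232) (l 16777224))))))))) (b (a (b (c (l 16768416) (l 16768088))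 (c (c (l 16772376) (l 16772264)) (c (l 16772152) (l 16772024)))) (b (c (l 16771744) (c (l 16772872) (l 16772744))) (a (c (l 16773840) (l 16773664)) (b (l 16774120) (a (l 16773880) (l 16775704)))))) (b (a (a (b (l 16772368) (a (l 16773440) (l 16775272))) (a (b (l 16773144) (l 16775792)) (c (l 16775688) (l 16775584)))) (b (a (a (l 16775488) (l 16776000)) (l 16776120)) (a (c (l 16775792) (l 16776400)) (b (c (l 16776480) (l 16776448)) (a (l 16777528) (b (l 49627006055) (l 130157642887))))))) (a (a (b (l 16775696) (a (l 16776448) (a (l 16777168) (b (l 16776432) (l 16341009431))))) (a (b (l 16776472) (b (l 16777472) (b (c (l 71101842471) (l 69491229815)) (l 4)))) (b (l 16776824) (b (b (l 25467815015) (l 109219677463)) (l 4))))) (b (b (b (a (l 16777264) (a (l 81302389975) (l 4))) (a (a (l 16776680) (l 44795167815)) (l 4))) (a (a (a (l 16777704) (c (l 66806875239) (l 65733133479))) (l 157538059063)) (l 4))) (l 4)))))), by decide +kernel⟩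

def k14_pp_022_t : ∃ t, chk3 f_pp_022_t t 71 122 1 = true :=
  ⟨(b (a (a (b (a (a (l 16772912) (l 16773424)) (b (l 16772224) (l 16774856))) (b (c (c (l 16775736) (l 16775688)) (a (l 16775088) (c (l 16776152) (l 16776112)))) (a (l 16775824) (c (l 16776864) (l 16776912))))) (a (b (b (l 16774560) (c (l 16775928) (l 16775832))) (a (b (l 16775632) (b (l 16776632) (a (l 16777776) (l 87744840999)))) (b (l 16776144) (b (a (l 16777008) (l 58753811639)) (l 4))))) (b (c (l 16775624) (b (l 16775528) (l 16775560))) (a (b (b (l 16776328) (l 16777808)) (b (l 152706220775) (l 4))) (b (b (l 16777496) (a (l 78081164583) (l 165054251703))) (l 4)))))) (b (b (a (a (l 16776608) (c (l 16777640) (c (l 16777616) (l 16776944)))) (b (a (a (l 16776752) (c (l 53385102823) (l 54458844615))) (l 169349219671)) (a (a (a (l 60901295303) (l 116735870295)) (l 4)) (l 4)))) (a (b (a (l 16776288) (a (l 14193526039) (c (l 78618036567) (l 104924710407)))) (b (a (l 16777432) (l 161833026519))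 (a (a (l 16776856) (l 79154906311)) (l 4)))) (l 4))) (b (b (a (a (a (a (l 49090135223) (l 102240355559)) (l 4)) (l 4)) (l 4)) (l 4)) (l 4)))) (a (b (a (b (b (a (l 16776160) (a (l 16777584) (a (l 66806875399) (l 126399546599)))) (b (a (l 16777320) (a (l 93650420967) (l 4))) (a (a (l 16776736) (l 54458844311)) (l 4)))) (b (a (a (b (l 16777720) (l 88281711799)) (l 165054251911)) (l 4)) (l 4))) (l 4)) (l 4)) (l 4))), by decide +kernel⟩

def k15_pp_022_t : ∃ t, chk3 f_pp_022_t t 35 123 1 = true :=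
  ⟨(a (b (a (a (a (b (b (a (l 16773312) (l 16773832)) (b (l 16775240) (a (l 16775000) (l 16776832)))) (b (b (l 16776264) (a (l 16776352) (c (l 16777536) (l 16777520)))) (a (a (b (l 16777552) (l 154853704295)) (b (b (l 16776992) (l 81302389575)) (l 4))) (b (a (b (l 55532585815) (l 4)) (l 169886090007)) (l 4))))) (b (b (c (l 16775312) (c (l 16775896) (l 16775848))) (c (l 16776640) (l 16776432))) (b (a (b (l 16777368) (b (a (l 16777096) (l 87744840567)) (l 157538058823))) (b (b (l 16777720) (a (l 61975036807) (l 4))) (l 4))) (l 4)))) (b (b (a (c (l 16776336) (l 16776280)) (b (l 16776760) (a (l 16777424) (b (l 16341009415) (a (l 80228647751) (l 4)))))) (a (b (a (l 16776408) (c (l 16777584) (l 16777736))) (b (a (l 16776912) (a (l 68417487799) (l 4))) (a (a (l 16777120) (l 96871646039)) (l 4)))) (a (b (b (a (l 16777144) (l 80765519127)) (l 165591122599)) (l 4)) (l 4)))) (a (a (a (b (b (l 162369897143) (l 4)) (l 4)) (l 4)) (l 4)) (l 4)))) (b (b (a (a (b (b (a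 (l 16776960) (l 103850968311)) (a (c (l 63585649751) (l 64659391559)) (l 4))) (c (l 167738607031) (l 172570445175))) (l 4)) (l 4)) (l 4)) (l 4))) (l 4)) (l 4)), by decide +kernel⟩

def k16_pp_022_t : ∃ t, chk3 f_pp_022_t t 17 31 1 = true :=
  ⟨(b (a (b (a (l 14) (a (a (l 14) (a (l 14) (l 4))) (l 4))) (l 4)) (l 4)) (l 4)), by decide +kernel⟩

def k17_pp_022_t : ∃ t, chk3 f_pp_022_t t 18 28 1 = true :=
  ⟨(b (a (a (b (l 16692432) (l 16701056)) (a (l 16702320) (l 16706016))) (a (b (l 16707096) (l 16715952)) (c (l 16729568) (l 16729112)))) (b (a (a (l 16715088) (a (l 16715528) (l 16719304))) (a (l 16724960) (l 16737720))) (a (a (c (l 16719376) (l 16718152)) (b (l 16724184) (l 16734008))) (a (c (l 16734440) (a (l 16731784) (l 16735656))) (c (l 16741944) (l 16741440)))))), by decide +kernel⟩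

def k18_pp_022_t : ∃ t, chk3 f_pp_022_t t 36 29 1 = true :=
  ⟨(b (a (a (b (l 16726008) (l 16740592)) (b (l 16729904) (a (l 16738296) (l 16740256)))) (a (b (l 16739024) (c (l 16743576) (l 16742768))) (b (c (l 16738032) (l 16737216)) (c (l 16750048) (l 16751984))))) (b (a (b (c (l 16750120) (l 16749248)) (a (l 16747312) (l 16756528))) (a (b (l 16750384) (c (l 16755520) (l 16754944))) (b (l 16756936) (b (l 16757968) (l 16763040))))) (b (a (a (l 16757448) (c (l 16756480) (l 16755888))) (c (a (l 16763016) (b (l 16763064) (l 16770768))) (a (l 16762552) (b (l 16762696) (l 16767832))))) (a (a (c (l 16757448) (l 16756848)) (a (l 16762784) (l 16764784))) (a (b (a (l 16762904) (l 16764896)) (a (l 16765408) (l 16770024))) (c (c (l 16771904) (l 16771800)) (b (c (l 16773048) (l 16770288)) (c (l 16772952) (l 16772848))))))))), by decide +kernel⟩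

def k19_pp_022_t : ∃ t, chk3 f_pp_022_t t 37 29 1 = true :=
  ⟨(a (b (b (c (l 16746352) (b (l 16751208) (l 16750696))) (a (b (l 16748600) (l 16756016)) (a (c (l 16764624) (l 16756272)) (l 16758480)))) (a (b (c (c (l 16766200) (l 16766024)) (b (l 16763240) (l 16764912))) (a (c (b (l 16772464) (l 16774784)) (b (b (l 16765696) (l 16768216)) (l 16773992))) (b (l 16771688) (b (l 16775440) (c (l 16776672) (c (l 16776632) (l 16776600))))))) (a (b (b (l 16766408) (b (l 16764840) (l 16772552))) (a (b (l 16773168) (b (l 16774296) (b (l 16776184) (a (l 51237619815) (l 101166614903))))) (b (l 16774152) (b (l 16775280) (b (a (l 16778232) (l 72175585639)) (l 4)))))) (b (b (l 16769672) (l 16770656)) (b (b (l 16771752) (l 16775560)) (b (c (b (l 16778768) (a (l 16778208) (l 137136964711))) (b (l 16777424) (a (l 16778192) (l 140895061047)))) (a (c (l 162906770055) (l 167201737255)) (l 4)))))))) (a (b (b (l 16754448) (c (l 16764176) (l 16761192))) (b (b (c (l 16766160)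 (b (l 16769928) (l 16772400))) (c (l 16773656) (c (l 16773560) (l 16773480)))) (b (b (a (l 16776336) (c (l 16778312) (c (l 16778288) (l 16777608)))) (b (a (l 16775592) (a (a (l 16776816) (l 63048779927)) (l 153779963239))) (b (a (l 16778496) (l 169886091351)) (a (a (l 16776664) (l 100629743911)) (l 4))))) (b (b (a (a (a (l 67343747319) (l 152706221095)) (l 4)) (l 4)) (l 4)) (l 4))))) (b (b (l 16758288) (b (l 16760216) (l 16767680))) (b (b (c (l 16772632) (l 16772488)) (b (c (l 16776296) (l 16774912)) (a (c (l 16775168) (l 16775120)) (a (a (l 16778328) (b (l 16776232) (l 81839261911))) (b (l 16778432) (l 165054252663)))))) (b (b (a (a (b (l 16776520) (l 132841997191)) (b (a (l 16778352) (l 110293420327)) (l 4))) (l 4)) (l 4)) (l 4)))))), by decide +kernel⟩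

def k20_pp_022_t : ∃ t, chk3 f_pp_022_t t 19 28 1 = true :=
  ⟨(a (a (b (b (c (l 16742736) (l 16732024)) (l 16730784)) (b (l 16747848) (c (l 16754704) (l 16754368)))) (a (b (b (l 16737680) (l 16748304)) (b (l 16745624) (l 16760264))) (b (b (l 16730888) (l 16750560)) (b (b (l 16757520) (l 16751720)) (c (l 16764136) (l 16763968)))))) (b (b (a (l 16736456) (l 16749168)) (a (l 16750936) (c (l 16763776) (l 16758384)))) (b (b (a (l 16757936) (l 16765192)) (a (a (c (l 16766048) (l 16765904)) (l 16759304)) (c (l 16770296) (l 16770200)))) (a (a (a (c (l 16766968) (l 16766840)) (b (l 16766440) (l 16771208))) (b (l 16764056) (a (a (l 16772640) (l 16773600)) (l 16769792)))) (b (a (l 16773120) (c (l 16774344) (l 16774296))) (a (c (l 16775312) (l 16774616)) (b (a (l 16774344) (c (l 16778896) (l 10435431367))) (b (a (l 16776152) (l 140358190423)) (a (c (l 70564973895) (l 72175586567)) (l 4)))))))))), by decide +kernel⟩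

def k21_pp_022_t : ∃ t, chk3 f_pp_022_t t 38 29 1 = true :=
  ⟨(b (b (a (c (a (l 16757016) (l 16766064)) (a (l 16761952) (l 16765832))) (a (b (l 16762152) (l 16770888)) (b (l 16771224) (c (l 16776072) (l 16773376))))) (a (a (b (l 16766696) (c (l 16774248) (l 16771472))) (a (b (l 16766968) (l 16774464)) (b (l 16774144) (c (l 16776424) (l 16775056))))) (b (a (c (l 16774456) (c (l 16774400) (l 16774344))) (b (a (l 16773472) (l 16778024)) (a (c (l 16778544) (l 16778520)) (b (a (l 16776744) (l 97945390087)) (l 157538060279))))) (a (a (b (l 16774488) (b (l 16778944) (a (l 16778376) (l 154853705031)))) (a (b (l 16775936) (c (l 145726900151) (l 150021867367))) (b (b (l 16776288) (l 82376133447)) (l 4)))) (b (b (a (a (l 63048780391) (l 167738607239)) (l 4)) (l 4)) (l 4)))))) (b (a (b (b (a (c (l 16772640) (l 16775176)) (a (c (l 16775528) (l 16778120)) (a (b (l 16776360) (l 86134229959)) (b (l 65733135159) (l 4))))) (a (a (l 16774096) (a (l 16775552) (b (l 16775904)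 (l 51237620295)))) (a (a (b (l 16778192) (l 159685543383)) (a (l 150021867143) (l 4))) (l 4)))) (a (b (b (a (l 16778568) (a (l 71101844263) (l 4))) (a (a (l 16778008) (l 92039809991)) (l 4))) (a (a (a (l 153779963687) (l 4)) (l 4)) (l 4))) (l 4))) (b (a (b (a (c (l 168812351095) (l 173107318247)) (l 4)) (l 4)) (l 4)) (l 4))) (l 4))), by decide +kernel⟩

def k22_pp_022_t : ∃ t, chk3 f_pp_022_t t 39 29 1 = true :=
  ⟨(b (a (b (a (b (c (l 16769840) (l 16775008)) (b (c (l 16773448) (l 16773408)) (a (l 16774896) (a (l 16778960) (b (l 16776696) (l 116735871943)))))) (b (a (b (l 16776728) (l 16773896)) (a (b (l 16778168) (l 16777960)) (b (l 16773888) (a (l 16778688) (l 16779168))))) (b (b (a (l 16775712) (a (l 16778464) (l 159148672455))) (a (c (l 16779560) (l 28689042375)) (l 4))) (a (c (l 148411255303) (b (l 144116286903) (l 4))) (l 4))))) (b (a (b (a (c (b (l 16779352) (l 130694513815)) (b (l 16778680) (l 134452610135))) (c (l 167738609015) (l 172033576167)))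 (l 4)) (l 4)) (l 4))) (b (b (a (a (b (l 16775328) (a (a (l 34057751383) (l 79691779319)) (l 143042545239))) (b (b (l 16778616) (a (l 75396811175) (l 4))) (l 4))) (b (a (l 167738608759) (l 4)) (l 4))) (l 4)) (l 4))) (l 4)), by decide +kernel⟩

def k23_pp_022_t : ∃ t, chk3 f_pp_022_t t 36 120 1 = true :=
  ⟨(b (a (a (a (l 16763792) (a (l 16765296) (l 16766304))) (a (a (l 16767312) (l 16767656)) (b (l 16765928) (l 16769768)))) (b (a (a (l 16770544) (a (l 16769424) (l 16773040))) (b (c (l 16772336) (a (l 16771192) (l 16775832))) (c (l 16774904) (l 16774632)))) (a (a (c (l 16773176) (l 16772976)) (l 16773768)) (a (c (l 16774488) (l 16775720)) (b (c (l 16775824) (l 16777096)) (a (l 16778216) (a (a (l 50700748583) (l 63048780631)) (l 149484995575)))))))) (b (a (a (a (l 16764968) (l 16769608)) (a (c (l 16769120) (l 16768864)) (c (l 16773720) (l 16772216)))) (a (a (b (a (l 16771872) (l 16772872)) (l 16773648)) (c (l 16776352) (c (l 16776304) (l 16776272)))) (a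 (a (b (l 16775864) (a (l 16778208) (b (l 16777072) (l 139284448823)))) (a (b (l 16776616) (l 154853704823)) (b (a (l 16778296) (l 53385103239)) (l 4)))) (a (a (b (b (l 16777912) (l 4)) (l 4)) (l 4)) (l 4))))) (a (a (a (l 16770144) (a (l 16769040) (l 16772664))) (a (a (l 16772360) (a (l 16774432) (l 16774936))) (a (c (l 16775752) (l 16775624)) (l 16775384)))) (a (b (a (l 16775912) (a (l 16777744) (b (a (l 16776864) (l 72175584839)) (l 142505673607)))) (b (a (l 16776552) (a (a (l 16777800) (l 96334776967)) (l 4))) (a (a (l 16776040) (a (l 16776792) (l 61438166551))) (l 4)))) (l 4))))), by decide +kernel⟩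

def k24_pp_022_t : ∃ t, chk3 f_pp_022_t t 36 121 1 = true :=
  ⟨(a (b (b (a (c (a (l 16772824) (b (l 16771560) (l 16775448))) (a (l 16772592) (b (l 16771376) (l 16775304)))) (a (c (l 16775488) (b (l 16776048) (l 16774736))) (a (b (l 16775000) (l 16777272)) (b (l 16776000) (b (c (l 16778280) (l 16777944)) (a (l 71101843111) (l 4))))))) (a (a (c (b (l 16774736) (l 16776016)) (b (l 16774568) (c (l 16775920) (l 16775848)))) (a (l 16775184) (a (l 16776272) (l 16776120)))) (a (b (a (l 16775568) (c (l 16777896) (c (l 16777880) (l 16777864)))) (b (a (l 16776544) (a (l 61975037479) (l 4))) (a (a (l 16776944) (l 84523615895)) (l 4)))) (a (b (b (a (l 16777008) (l 96334775911)) (l 160222413975)) (l 4)) (l 4))))) (a (a (a (a (b (l 16775832) (b (l 16777144) (a (b (l 71638713655) (l 4)) (l 164517381303)))) (b (l 16775688) (b (b (l 16776664) (c (l 64659391927) (l 65733133719))) (l 4)))) (b (b (l 16775136) (c (l 16777768) (c (l 16777744) (l 16777728)))) (b (b (a (l 42110813703)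 (l 157001188119)) (l 4)) (l 4)))) (b (a (b (l 16776808) (b (a (l 16776880) (l 73249326775)) (c (l 143579415495) (l 146800640935)))) (b (b (c (l 16778152) (l 16778136)) (a (l 51237619287) (l 165591122807))) (l 4))) (l 4))) (b (b (a (a (a (a (l 153243091911) (l 4)) (l 4)) (l 4)) (l 4)) (l 4)) (l 4)))) (b (a (b (a (a (a (b (l 16778064) (l 166664865143)) (b (b (l 16776936) (l 83449874967)) (l 4))) (a (b (a (l 134452609719) (l 162369897575)) (l 4)) (l 4))) (l 4)) (l 4)) (l 4)) (l 4))), by decide +kernel⟩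

def k25_pp_022_t : ∃ t, chk3 f_pp_022_t t 37 60 1 = true :=
  ⟨(b (a (b (a (b (b (a (l 16776560) (a (a (l 16776488) (l 16778288)) (a (l 78618036535) (l 162369897719)))) (b (a (l 16777512) (a (l 102777227639) (l 4))) (a (a (l 16776344) (l 63585650903)) (l 4)))) (b (a (a (b (l 16778280) (l 95797905639)) (l 168275478279)) (l 4)) (l 4))) (l 4)) (l 4)) (l 4)) (l 4)), by decide +kernel⟩

def k26_pp_022_t : ∃ t, chk3 f_pp_022_t t 18 61 1 = true :=
  ⟨(l 4), by decide +kernel⟩

def k27_pp_022_t : ∃ t, chk3 f_pp_022_t t 19 30 1 = true :=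
  ⟨(l 4), by decide +kernel⟩

def k28_pp_022_t : ∃ t, chk3 f_pp_022_t t 9 31 1 = true :=
  ⟨(l 4), by decide +kernel⟩

def k29_pp_022_t : ∃ t, chk3 f_pp_022_t t 10 12 1 = true :=
  ⟨(a (b (a (a (l 16652280) (l 16658336)) (a (l 16664496) (l 16670752))) (a (b (l 16656152) (l 16692688)) (b (l 16690064) (l 16706056)))) (b (a (a (l 16677144) (l 16683680)) (c (l 16694712) (l 16703552))) (b (a (l 16703416) (l 16717312)) (a (c (l 16720296) (l 16719608)) (a (l 16730464) (l 16727256)))))), by decide +kernel⟩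

def k30_pp_022_t : ∃ t, chk3 f_pp_022_t t 20 13 1 = true :=
  ⟨(b (a (b (l 16698496) (c (l 16726200) (l 16715552))) (b (c (l 16723136) (l 16712240)) (a (l 16726376) (l 16733664)))) (a (b (a (l 16729872) (l 16737184)) (a (c (l 16748128) (l 16745352)) (b (l 16750912) (l 16757536)))) (b (a (c (l 16744584) (l 16744472)) (c (l 16752024) (l 16751912))) (b (a (l 16753152) (c (l 16765968) (l 16760608))) (a (c (l 16767744) (l 16762384)) (c (l 16772040) (a (l 16768088) (l 16771904)))))))), by decide +kernel⟩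

def k31_pp_022_t : ∃ t, chk3 f_pp_022_t t 21 13 1 = true :=
  ⟨(a (a (b (b (l 16723024) (c (l 16741024) (l 16740976))) (b (b (l 16754824) (l 16761528)) (a (b (l 16766368) (b (l 16773408) (c (l 16772888) (l 16775480)))) (b (l 16770176) (b (c (l 16772000) (l 16774584)) (b (a (l 16774568) (a (l 16776008) (l 32984009799))) (a (a (l 16779080) (l 81839262071)) (l 161833028071)))))))) (b (b (l 16730336) (c (l 16748480) (l 16748424))) (b (b (l 16759744) (c (l 16771768) (l 16767760))) (b (a (b (l 16766400) (l 16776344)) (b (l 16775472) (a (l 16776600) (b (l 16774720) (b (l 16776504) (l 97945390711)))))) (b (a (a (b (l 16773680) (l 16778672)) (b (l 16775600) (a (l 85597358583) (l 160222414695)))) (a (b (b (l 30299655159) (l 148948124999)) (l 4)) (l 4))) (a (b (a (c (l 145190029095) (l 149484994983)) (l 4)) (l 4)) (l 4))))))) (b (b (a (l 16737744) (c (l 16745200) (l 16745200))) (a (b (l 16751384) (l 16760624)) (b (l 16758976) (c (l 16768288) (l 16762984))))) (b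 (b (a (c (l 16770000) (l 16767312)) (a (l 16771152) (b (l 16766752) (l 16774096)))) (a (a (c (l 16772256) (l 16772208)) (b (l 16773720) (c (l 16773208) (l 16775808)))) (b (a (c (l 16772344) (l 16774944)) (b (c (l 16775040) (l 16778304)) (a (a (l 16775944) (l 31373396951)) (c (l 145190028983) (l 148948123959))))) (a (b (a (l 16774920) (a (l 16776376) (l 80765520119))) (a (a (l 27078429431) (l 132305126103)) (l 175254801367))) (b (a (l 160222415159) (l 4)) (l 4)))))) (b (a (b (a (c (l 16779328) (c (l 16778328) (b (l 16772856) (l 16778840)))) (b (a (l 16778408) (a (l 74859940007) (l 150021866919))) (a (a (l 96334776791) (l 168275478631)) (l 4)))) (a (b (a (a (l 16776168) (l 69491230807)) (c (l 151095609399) (l 155927447495))) (a (l 167201737415) (l 4))) (l 4))) (l 4)) (l 4))))), by decide +kernel⟩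

def k32_pp_022_t : ∃ t, chk3 f_pp_022_t t 11 12 1 = true :=
  ⟨(a (b (a (b (l 16700280) (l 16715680)) (a (c (l 16719832) (l 16718320)) (b (l 16718336) (l 16734208)))) (a (b (c (l 16732456) (l 16731472)) (a (l 16734720) (l 16744936))) (b (a (l 16743184) (l 16740272)) (a (c (l 16750264) (l 16749728)) (b (l 16753208) (l 16762112)))))) (b (b (a (l 16728264) (a (l 16738936) (l 16746832))) (a (a (c (l 16741960) (l 16740912)) (l 16748360)) (a (l 16750200) (l 16759352)))) (a (b (b (a (l 16748128) (l 16750792)) (a (c (l 16762968) (l 16751840)) (c (l 16759864) (l 16759392)))) (b (a (l 16760904) (a (c (l 16766864) (l 16766496)) (l 16770456))) (b (a (l 16767608) (a (l 16773424) (c (l 16777376) (l 16771960)))) (a (l 16766904) (a (l 16767504) (a (l 16775664) (l 16774984))))))) (b (a (c (l 16768032) (b (l 16747440) (l 16766936))) (b (l 16765792) (c (l 16774768) (l 16772792)))) (b (a (a (l 16769016) (c (l 16778168) (l 16772792))) (b (a (l 16774408) (l 16775728)) (a (c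 (l 16773824) (l 16777736)) (a (b (l 16775600) (c (l 109219680919) (l 136600093415))) (b (c (l 96334778791) (l 96871649639)) (l 4)))))) (a (b (a (l 16775896) (a (l 16773568) (a (l 16775024) (b (l 16774848) (l 82913005015))))) (b (a (l 16774120) (a (a (l 16776576) (l 99556003639)) (l 169349220727))) (a (a (l 16775464) (a (l 16779576) (l 117272743831))) (l 4)))) (b (a (b (a (l 16778960) (l 146263770423)) (a (l 157538060119) (l 4))) (l 4)) (l 4)))))))), by decide +kernel⟩

def k33_pp_022_t : ∃ t, chk3 f_pp_022_t t 22 13 1 = true :=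
  ⟨(b (a (b (a (c (l 16752760) (l 16752776)) (b (l 16755776) (l 16762400))) (b (a (c (l 16766640) (l 16761360)) (a (l 16767184) (l 16772368))) (a (a (l 16768816) (c (l 16777936) (l 16772672))) (b (a (l 16774216) (c (l 16772872) (l 16775488))) (a (c (l 16778944) (b (l 16772504) (l 16777496))) (a (b (l 16775448) (a (l 82376134135) (l 155390576151))) (b (a (l 31910267879) (l 138210706311)) (l 4)))))))) (b (a (b (l 16763424) (c (l 16772752) (l 16769136))) (b (c (l 16771344) (l 16768544)) (b (c (l 16778240) (l 16772944)) (a (l 16775696) (a (l 16773400) (a (l 16774880) (b (l 16774672) (l 38352718759)))))))) (b (a (b (a (l 16767352) (l 16773872)) (a (l 16774680) (b (l 16778080) (a (l 16778816) (c (l 139821319415) (l 142505673895)))))) (a (a (b (l 16774192) (b (a (l 82913004631) (l 153243092359)) (l 4))) (b (b (l 16774976) (a (l 16778184) (l 110293421719))) (l 4))) (b (b (a (a (l 16776464) (l 91502939479)) (l 166127995207)) (a (l 177939155863) (l 4))) (l 4))))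 (a (b (a (b (a (l 16774624) (a (l 16776104) (l 39963331559))) (a (a (l 16776512) (l 92039810471)) (l 166664866247))) (b (a (l 153243092823) (l 4)) (l 4))) (a (b (a (l 177402285095) (l 4)) (l 4)) (l 4))) (l 4))))) (b (a (b (a (b (a (l 16775872) (a (l 16773552) (a (l 16777640) (b (l 16774808) (l 76470551095))))) (b (a (l 16776800) (a (a (l 16779248) (l 95261036135)) (l 169349221031))) (a (a (l 16775576) (a (l 36742106327) (l 142505673831))) (l 4)))) (b (a (b (a (c (l 16776288) (l 16778904)) (c (l 141431932311) (l 144653156391))) (a (l 155927446919) (l 4))) (l 4)) (l 4))) (a (b (a (a (b (a (l 87207971255) (l 160222414599)) (l 4)) (l 4)) (l 4)) (l 4)) (l 4))) (l 4)) (l 4))), by decide +kernel⟩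

def k34_pp_022_t : ∃ t, chk3 f_pp_022_t t 23 13 1 = true :=
  ⟨(b (b (a (b (a (a (l 16771856) (b (l 16768200) (l 16775472))) (b (a (l 16774736) (b (c (l 2919243047) (a (l 16773864) (l 6140466471))) (a (l 16778832) (a (l 107072195991) (l 168812349367))))) (a (a (a (l 16777920) (b (l 16775120) (l 95797906807))) (b (l 25467817351) (l 168812349751))) (b (a (l 155927447303) (l 4)) (l 4))))) (a (b (a (c (l 16773624) (l 16776216)) (a (b (l 16775384) (c (l 102240358503) (l 130157642247))) (b (c (l 87744843687) (l 87207970167)) (l 4)))) (a (b (a (l 16778792) (l 140895059831)) (a (l 153243092727) (l 4))) (l 4))) (b (a (b (l 178476028087) (l 4)) (l 4)) (l 4)))) (a (b (b (a (b (a (c (l 105461584375) (l 133378867799)) (l 4)) (l 4)) (l 4)) (l 4)) (l 4)) (l 4))) (l 4)) (l 4)), by decide +kernel⟩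

def k35_pp_022_t : ∃ t, chk3 f_pp_022_t t 20 56 1 = true :=
  ⟨(a (a (a (b (l 16749560) (l 16764152)) (b (l 16753328) (l 16767952))) (b (c (l 16764288) (l 16764168)) (a (c (l 16771792) (l 16771712)) (b (l 16773200) (c (l 16772712) (l 16775296)))))) (b (a (a (c (l 16769976) (l 16769880)) (b (l 16766144) (l 16773480))) (b (a (l 16775200) (c (l 16777720) (b (l 16772568) (l 16777568)))) (b (a (l 16776120) (a (c (l 16779008) (l 13119785975)) (a (l 132841997111) (l 173644188039)))) (b (a (l 16777896) (a (l 149484995991) (l 4))) (a (a (l 16775504) (l 82376132679)) (l 4)))))) (a (b (a (c (l 16771792) (l 16771744)) (b (l 16777032) (a (l 16778448) (b (l 67880617767) (l 157001189095))))) (a (b (c (l 16777968) (a (l 16774360) (l 16778912))) (a (b (l 16776160) (l 74859940135)) (c (l 151095609655) (l 155927447751)))) (a (b (b (l 89892325799) (l 4)) (l 4)) (l 4)))) (b (a (b (a (b (l 16779312) (l 136600093639)) (l 172570446919)) (l 4)) (l 4)) (l 4))))), by decide +kernel⟩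

def k36_pp_022_t : ∃ t, chk3 f_pp_022_t t 20 57 1 = true :=
  ⟨(a (b (a (a (b (l 16765992) (l 16774680)) (b (l 16772432) (a (l 16776240) (a (l 16777680) (b (l 16774816) (a (l 16778288) (l 80228650119))))))) (b (a (c (l 16777576) (b (l 16772416) (l 16777432))) (a (b (l 16775312) (c (l 86134231527) (b (l 36742106071) (l 155927447175)))) (b (b (l 16779256) (l 100629745415)) (l 4)))) (a (b (a (c (l 16778888) (l 16778872)) (c (l 133915739607) (b (l 87744843063) (l 174717929879)))) (a (c (l 148411255079) (l 153243093175)) (l 4))) (l 4)))) (a (b (a (b (c (l 16774344) (l 16774320)) (a (l 16778400) (a (a (l 31910267655) (l 79691779223)) (l 142505674231)))) (b (a (a (l 23320333223) (c (l 89355456071) (l 92039810567))) (l 167738608663)) (l 4))) (a (b (a (c (l 132305126919) (b (l 86134230359) (l 4))) (l 4)) (l 4)) (l 4))) (l 4))) (b (a (b (a (b (a (l 169349221383) (l 4)) (l 4)) (l 4)) (l 4)) (l 4)) (l 4))), by decide +kernel⟩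

def k37_pp_022_t : ∃ t, chk3 f_pp_022_t t 21 28 1 = true :=
  ⟨(b (a (b (a (b (a (a (b (l 16775464) (a (l 78618036503) (l 153779963543))) (b (a (l 30299655095) (l 134989480855)) (l 4))) (b (a (l 174717930679) (l 4)) (l 4))) (l 4)) (l 4)) (l 4)) (l 4)) (l 4)), by decide +kernel⟩

def k38_pp_022_t : ∃ t, chk3 f_pp_022_t t 10 29 1 = true :=
  ⟨(l 4), by decide +kernel⟩

def k39_pp_022_t : ∃ t, chk3 f_pp_022_t t 10 15 1 = true :=
  ⟨(l 4), by decide +kernel⟩

def k40_pp_022_t : ∃ t, chk3 f_pp_022_t t 11 7 1 = true :=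
  ⟨(l 4), by decide +kernel⟩

def k41_pp_022_t : ∃ t, chk3 f_pp_022_t t 6 4 1 = true :=
  ⟨(a (b (a (l 6) (b (l 6) (l 16653344))) (a (b (l 16636136) (l 16668280)) (b (l 16664704) (l 16696976)))) (a (b (b (l 16667296) (l 16678752)) (b (l 16690384) (l 16722880))) (a (b (l 16690096) (l 16755504)) (l 2)))), by decide +kernel⟩

def k42_pp_022_t : ∃ t, chk3 f_pp_022_t t 6 5 1 = true :=
  ⟨(a (b (a (b (a (l 16651960) (l 16666952)) (a (l 16667304) (l 16703224))) (b (a (l 16681312) (l 16695032)) (a (l 16717584) (l 16710368)))) (a (b (a (b (l 16682560) (l 16694552)) (b (l 16718480) (l 16709528))) (a (b (l 16728712) (l 16740408)) (b (l 16743728) (a (l 16754384) (l 16761800))))) (b (b (a (l 16732880) (l 16725720)) (a (l 16723960) (l 16758808))) (a (b (c (l 16758608) (l 16757832)) (a (l 16769080) (c (l 16776432) (l 16776024)))) (b (c (l 16772488) (l 16766912)) (a (b (l 16758536) (l 16776560)) (b (l 16775888) (a (l 16771256) (a (l 16773840) (b (l 16773592) (l 80765524711)))))))))))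 (b (a (a (b (l 16708088) (l 16723504)) (b (l 16720448) (l 16756944))) (b (a (l 16753056) (l 16742912)) (a (a (l 16744896) (l 16771584)) (a (l 16777104) (l 2))))) (a (b (b (a (l 16738928) (l 16772480)) (a (l 16772088) (a (l 16781664) (l 16777360)))) (a (b (a (l 16771768) (b (l 16764336) (l 16781872))) (b (a (a (l 16770456) (l 16781696)) (b (a (l 16775256) (l 94187300791)) (a (l 124788934375) (l 4)))) (a (b (a (l 36205239479) (l 134452611575)) (a (l 153779965175) (l 4))) (l 4)))) (b (b (a (l 16770712) (b (l 37278985255) (a (l 16782344) (l 155927448247)))) (a (b (a (l 16774408) (l 79691785351)) (a (l 85060494839) (l 4))) (l 4))) (l 4)))) (b (a (b (c (l 16784776) (l 16784040)) (b (a (l 16769664) (a (l 16774104) (l 62511919783))) (a (a (l 16774776) (l 74859951959)) (b (l 126936418359) (l 4))))) (b (b (a (l 16769024) (l 16785032)) (a (c (l 16785664) (l 32984020903)) (b (l 92039824007) (l 4)))) (b (a (b (l 99019146343) (l 4)) (l 4)) (l 4)))) (a (b (b (a (l 153779966631)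 (l 4)) (l 4)) (l 4)) (l 4)))))), by decide +kernel⟩

def k43_pp_022_t : ∃ t, chk3 f_pp_022_t t 7 2 1 = true :=
  ⟨(b (l 2) (b (l 2) (b (l 2) (l 4)))), by decide +kernel⟩

def k44_pp_022_t : ∃ t, chk3 f_pp_022_t t 24 12 1 = true :=
  ⟨(b (b (a (a (l 16754616) (l 16751800)) (a (l 16762640) (c (l 16777408) (l 16766688)))) (b (a (a (l 16766864) (l 16764072)) (a (l 16771664) (a (l 16777280) (l 16775744)))) (a (a (l 16764880) (l 16772592)) (a (a (l 16778304) (c (l 16776864) (l 16776816))) (b (a (l 16773176) (b (l 16779792) (a (l 16779704) (l 166664865879)))) (a (b (c (l 16779128) (l 29225915687)) (a (l 97945391927) (l 4))) (l 173644190743))))))) (a (b (b (b (a (l 16771416) (c (l 16773904) (l 16771248))) (a (l 16773224) (a (l 16771168) (a (l 16774048) (b (l 16774848) (l 44258300199)))))) (a (b (a (l 16767896) (l 16777032)) (a (l 16777680) (b (l 16779136) (a (l 16779160) (l 150021867015))))) (b (b (a (l 16774528) (a (l 90429198951) (l 4))) (a (a (l 16775832) (l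 102240359383)) (l 4))) (a (b (a (l 138747577335) (l 4)) (l 4)) (l 4))))) (b (a (b (a (a (a (l 16778200) (b (l 16775384) (l 106535325367))) (b (l 35131494583) (l 176328542711))) (a (l 171496705527) (l 4))) (l 4)) (l 4)) (l 4))) (b (b (a (b (a (c (l 16774400) (l 16779624)) (a (b (l 16776128) (l 143579415863)) (a (l 143042545303) (l 172033575879)))) (a (b (a (l 16779416) (l 154316834583)) (l 173107318199)) (l 4))) (l 4)) (l 4)) (l 4)))), by decide +kernel⟩

def k45_pp_022_t : ∃ t, chk3 f_pp_022_t t 25 12 1 = true :=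
  ⟨(b (a (b (a (b (l 16770136) (c (l 16778240) (l 16772864))) (b (c (l 16777408) (l 16771984)) (b (c (l 16778152) (l 16780696)) (a (l 16877885623) (b (l 90966072823) (l 167738608775)))))) (b (a (a (a (l 16778528) (b (l 16772992) (a (l 38352720727) (l 92576683799)))) (a (b (l 16774824) (l 144116287639)) (b (l 37815851063) (l 4)))) (b (a (b (l 128547030055) (l 4)) (l 4)) (l 4))) (a (b (a (l 166664868007) (l 4)) (l 4)) (l 4)))) (b (b (a (b (l 16777144) (a (l 16774136) (b (l 16780640) (l 132841997863)))) (a (b (a (l 16776312) (l 93113556471)) (l 4)) (l 166127999367))) (a (b (a (b (l 51774495639) (l 146263771495)) (l 4)) (l 4)) (l 4))) (l 4))) (l 4)), by decide +kernel⟩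

def k46_pp_022_t : ∃ t, chk3 f_pp_022_t t 13 12 1 = true :=
  ⟨(l 4), by decide +kernel⟩

def k47_pp_022_t : ∃ t, chk3 f_pp_022_t t 6 13 1 = true :=
  ⟨(l 4), by decide +kernel⟩

def k48_pp_022_t : ∃ t, chk3 f_pp_022_t t 6 7 1 = true :=
  ⟨(l 4), by decide +kernel⟩

def k49_pp_022_t : ∃ t, chk3 f_pp_022_t t 7 3 1 = true :=
  ⟨(l 4), by decide +kernel⟩

theorem s50_pp_022_t : ∃ t, chk3 f_pp_022_t t 12 12 1 = true := ex3_a k44_pp_022_t k45_pp_022_t

theorem s51_pp_022_t : ∃ t, chk3 f_pp_022_t t 6 12 1 = true := ex3_a s50_pp_022_t k46_pp_022_t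

theorem s52_pp_022_t : ∃ t, chk3 f_pp_022_t t 6 6 1 = true := ex3_b s51_pp_022_t k47_pp_022_t

theorem s53_pp_022_t : ∃ t, chk3 f_pp_022_t t 6 3 1 = true := ex3_b s52_pp_022_t k48_pp_022_t

theorem s54_pp_022_t : ∃ t, chk3 f_pp_022_t t 3 3 1 = true := ex3_a s53_pp_022_t k49_pp_022_t

theorem s55_pp_022_t : ∃ t, chk3 f_pp_022_t t 6 2 1 = true := ex3_b k41_pp_022_t k42_pp_022_t

theorem s56_pp_022_t : ∃ t, chk3 f_pp_022_t t 3 2 1 = true := ex3_a s55_pp_022_t k43_pp_022_t

theorem s57_pp_022_t : ∃ t, chk3 f_pp_022_t t 3 1 1 = true := ex3_b s56_pp_022_t s54_pp_022_t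

theorem s58_pp_022_t : ∃ t, chk3 f_pp_022_t t 20 28 1 = true := ex3_b k35_pp_022_t k36_pp_022_t

theorem s59_pp_022_t : ∃ t, chk3 f_pp_022_t t 10 28 1 = true := ex3_a s58_pp_022_t k37_pp_022_t

theorem s60_pp_022_t : ∃ t, chk3 f_pp_022_t t 10 14 1 = true := ex3_b s59_pp_022_t k38_pp_022_t

theorem s61_pp_022_t : ∃ t, chk3 f_pp_022_t t 10 7 1 = true := ex3_b s60_pp_022_t k39_pp_022_t

theorem s62_pp_022_t : ∃ t, chk3 f_pp_022_t t 5 7 1 = true := ex3_a s61_pp_022_t k40_pp_022_t

theorem s63_pp_022_t : ∃ t, chk3 f_pp_022_t t 11 13 1 = true := ex3_a k33_pp_022_t k34_pp_022_t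

theorem s64_pp_022_t : ∃ t, chk3 f_pp_022_t t 11 6 1 = true := ex3_b k32_pp_022_t s63_pp_022_t

theorem s65_pp_022_t : ∃ t, chk3 f_pp_022_t t 10 13 1 = true := ex3_a k30_pp_022_t k31_pp_022_t

theorem s66_pp_022_t : ∃ t, chk3 f_pp_022_t t 10 6 1 = true := ex3_b k29_pp_022_t s65_pp_022_t

theorem s67_pp_022_t : ∃ t, chk3 f_pp_022_t t 5 6 1 = true := ex3_a s66_pp_022_t s64_pp_022_t

theorem s68_pp_022_t : ∃ t, chk3 f_pp_022_t t 5 3 1 = true := ex3_b s67_pp_022_t s62_pp_022_t

theorem s69_pp_022_t : ∃ t, chk3 f_pp_022_t t 36 60 1 = true := ex3_b k23_pp_022_t k24_pp_022_t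

theorem s70_pp_022_t : ∃ t, chk3 f_pp_022_t t 18 60 1 = true := ex3_a s69_pp_022_t k25_pp_022_t

theorem s71_pp_022_t : ∃ t, chk3 f_pp_022_t t 18 30 1 = true := ex3_b s70_pp_022_t k26_pp_022_t

theorem s72_pp_022_t : ∃ t, chk3 f_pp_022_t t 9 30 1 = true := ex3_a s71_pp_022_t k27_pp_022_t

theorem s73_pp_022_t : ∃ t, chk3 f_pp_022_t t 9 15 1 = true := ex3_b s72_pp_022_t k28_pp_022_t

theorem s74_pp_022_t : ∃ t, chk3 f_pp_022_t t 19 29 1 = true := ex3_a k21_pp_022_t k22_pp_022_t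

theorem s75_pp_022_t : ∃ t, chk3 f_pp_022_t t 19 14 1 = true := ex3_b k20_pp_022_t s74_pp_022_t

theorem s76_pp_022_t : ∃ t, chk3 f_pp_022_t t 18 29 1 = true := ex3_a k18_pp_022_t k19_pp_022_t

theorem s77_pp_022_t : ∃ t, chk3 f_pp_022_t t 18 14 1 = true := ex3_b k17_pp_022_t s76_pp_022_t

theorem s78_pp_022_t : ∃ t, chk3 f_pp_022_t t 9 14 1 = true := ex3_a s77_pp_022_t s75_pp_022_t

theorem s79_pp_022_t : ∃ t, chk3 f_pp_022_t t 9 7 1 = true := ex3_b s78_pp_022_t s73_pp_022_t

theorem s80_pp_022_t : ∃ t, chk3 f_pp_022_t t 35 122 1 = true := ex3_a k13_pp_022_t k14_pp_022_t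

theorem s81_pp_022_t : ∃ t, chk3 f_pp_022_t t 35 61 1 = true := ex3_b s80_pp_022_t k15_pp_022_t

theorem s82_pp_022_t : ∃ t, chk3 f_pp_022_t t 35 30 1 = true := ex3_b k12_pp_022_t s81_pp_022_t

theorem s83_pp_022_t : ∃ t, chk3 f_pp_022_t t 69 247 1 = true := ex3_a k10_pp_022_t k11_pp_022_t

theorem s84_pp_022_t : ∃ t, chk3 f_pp_022_t t 69 123 1 = true := ex3_b k9_pp_022_t s83_pp_022_t

theorem s85_pp_022_t : ∃ t, chk3 f_pp_022_t t 69 61 1 = true := ex3_b k8_pp_022_t s84_pp_022_t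

theorem s86_pp_022_t : ∃ t, chk3 f_pp_022_t t 69 30 1 = true := ex3_b k7_pp_022_t s85_pp_022_t

theorem s87_pp_022_t : ∃ t, chk3 f_pp_022_t t 34 30 1 = true := ex3_a k6_pp_022_t s86_pp_022_t

theorem s88_pp_022_t : ∃ t, chk3 f_pp_022_t t 17 30 1 = true := ex3_a s87_pp_022_t s82_pp_022_t

theorem s89_pp_022_t : ∃ t, chk3 f_pp_022_t t 17 15 1 = true := ex3_b s88_pp_022_t k16_pp_022_t

theorem s90_pp_022_t : ∃ t, chk3 f_pp_022_t t 8 15 1 = true := ex3_a k5_pp_022_t s89_pp_022_t

theorem s91_pp_022_t : ∃ t, chk3 f_pp_022_t t 8 14 1 = true := ex3_a k3_pp_022_t k4_pp_022_t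

theorem s92_pp_022_t : ∃ t, chk3 f_pp_022_t t 8 7 1 = true := ex3_b s91_pp_022_t s90_pp_022_t

theorem s93_pp_022_t : ∃ t, chk3 f_pp_022_t t 4 7 1 = true := ex3_a s92_pp_022_t s79_pp_022_t

theorem s94_pp_022_t : ∃ t, chk3 f_pp_022_t t 4 6 1 = true := ex3_a k1_pp_022_t k2_pp_022_t

theorem s95_pp_022_t : ∃ t, chk3 f_pp_022_t t 4 3 1 = true := ex3_b s94_pp_022_t s93_pp_022_t

theorem s96_pp_022_t : ∃ t, chk3 f_pp_022_t t 2 3 1 = true := ex3_a s95_pp_022_t s68_pp_022_t

theorem s97_pp_022_t : ∃ t, chk3 f_pp_022_t t 2 1 1 = true := ex3_b k0_pp_022_t s96_pp_022_t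

theorem s98_pp_022_t : ∃ t, chk3 f_pp_022_t t 1 1 1 = true := ex3_a s97_pp_022_t s57_pp_022_t

theorem c_pp_022_t : CertNE 0 536870912 0 536870912 587336777 62277027 3 eng mog cd0q0 cd0q2 pd2 true true true .pp 0 2 2
    ndB0q0 ndB0q2 pcB2 cut_pp_022_t Ext.none :=
  certNE0 (fam := true) (s1 := true) (s2 := true) (a := 0) (b := 2) (c := 2) (cn := .pp) (n1 := ndB0q0) (n2 := ndB0q2) (pc := pcB2) (cut := cut_pp_022_t) (xt := Ext.none) (P1 := 0) (W1 := 536870912) (P2 := 0) (W2 := 536870912) (P3 := 587336777) (W3 := 62277027) (N0 := 3) (En := eng) (mo := mog) (C1 := cd0q0) (C2 := cd0q2) (C3 := pd2)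
    rfl s98_pp_022_t

noncomputable def cut_pp_023_s : Cut := Cut.of [[⟨4, 0, 0, 1449551462⟩]]

noncomputable def f_pp_023_s : ℕ → ℕ → ℕ → ℕ → Bool := onCell 0 536870912 0 536870912 587336777 62277027
    (rowNE 3 eng mog cd0q0 cd0q2 pd3 0 true true true .up 0 2 3 (qsf 0 536870912 0 536870912 3) ndB0q0 ndB0q2 pcB3 cut_pp_023_s Ext.none)

def k0_pp_023_s : ∃ t, chk3 f_pp_023_s t 1 1 1 = true :=
  ⟨(l 6), by decide +kernel⟩

theorem c_pp_023_s : CertNE 0 536870912 0 536870912 587336777 62277027 3 eng mog cd0q0 cd0q2 pd3 true true true .up 0 2 3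
    ndB0q0 ndB0q2 pcB3 cut_pp_023_s Ext.none :=
  certNE0 (fam := true) (s1 := true) (s2 := true) (a := 0) (b := 2) (c := 3) (cn := .up) (n1 := ndB0q0) (n2 := ndB0q2) (pc := pcB3) (cut := cut_pp_023_s) (xt := Ext.none) (P1 := 0) (W1 := 536870912) (P2 := 0) (W2 := 536870912) (P3 := 587336777) (W3 := 62277027) (N0 := 3) (En := eng) (mo := mog) (C1 := cd0q0) (C2 := cd0q2) (C3 := pd3)
    rfl k0_pp_023_s

noncomputable def cut_pp_023_t : Cut := Cut.of [[⟨3, 0, 0, 2845415833⟩]]

noncomputable def f_pp_023_t : ℕ → ℕ → ℕ → ℕ → Bool := onCell 1610612736 536870912 0 536870912 587336777 62277027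
    (rowNE 3 eng mog cd0q0 cd0q2 pd3 2 true true true .up 0 2 3 (qsf 0 536870912 0 536870912 3) ndB0q0 ndB0q2 pcB3 cut_pp_023_t Ext.none)

def k0_pp_023_t : ∃ t, chk3 f_pp_023_t t 1 1 1 = true :=
  ⟨(a (b (a (a (b (b (a (b (l 16687664) (l 16700736)) (b (l 16694656) (l 16710656))) (a (b (l 16714688) (a (l 16725472) (l 16733024))) (b (l 16748144) (a (l 16740448) (l 16747616))))) (b (a (b (a (l 16741296) (l 16770720)) (a (a (l 16779616) (a (l 16783160) (l 16780304))) (b (l 16785608) (b (a (l 16771096) (l 50163893527)) (a (l 72175604087) (l 140358190167)))))) (b (a (l 16779160) (b (l 16761584) (a (l 16769672) (b (l 16771328) (l 73249342055))))) (a (a (b (l 16782216) (l 132305126247)) (b (a (l 57680085959) (l 75396829591)) (l 4))) (b (b (a (l 82913020423) (l 4)) (l 4)) (l 4))))) (a (b (b (a (b (a (l 26004700407) (b (l 70564987015) (l 136600094071))) (a (b (l 94187308967) (l 4)) (l 4))) (l 4)) (l 4)) (l 4)) (l 4)))) (b (b (a (b (l 16700288) (l 16740896)) (a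 (l 16740416) (l 16759920))) (a (b (l 16781528) (a (l 16775768) (b (l 16757520) (l 16767672)))) (b (a (l 16770976) (l 16781200)) (a (b (l 16765736) (a (l 58753827655) (l 88818607879))) (b (a (l 16772496) (l 81302410087)) (a (l 133378865351) (l 4))))))) (b (b (a (a (a (b (l 16767664) (a (l 78081182151) (l 107609062679))) (b (l 16771920) (l 126936415447))) (b (a (l 68954379639) (l 109219675095)) (l 4))) (l 4)) (l 4)) (l 4)))) (a (b (b (a (a (l 16777240) (a (l 16774416) (l 16778968))) (l 2)) (a (b (a (b (l 16765328) (a (l 16771824) (l 54458860807))) (b (a (l 16771464) (l 16774944)) (b (l 104387867463) (l 4)))) (a (b (a (l 119957092759) (l 4)) (l 4)) (l 4))) (l 2))) (l 4)) (l 2))) (l 4)) (l 2)), by decide +kernel⟩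

theorem c_pp_023_t : CertNE 0 536870912 0 536870912 587336777 62277027 3 eng mog cd0q0 cd0q2 pd3 true true true .up 0 2 3
    ndB0q0 ndB0q2 pcB3 cut_pp_023_t Ext.none :=
  certNE2 (fam := true) (s1 := true) (s2 := true) (a := 0) (b := 2) (c := 3) (cn := .up) (n1 := ndB0q0) (n2 := ndB0q2) (pc := pcB3) (cut := cut_pp_023_t) (xt := Ext.none) (P1 := 0) (W1 := 536870912) (P2 := 0) (W2 := 536870912) (P3 := 587336777) (W3 := 62277027) (N0 := 3) (En := eng) (mo := mog) (C1 := cd0q0) (C2 := cd0q2) (C3 := pd3)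
    rfl (fun _ => rfl) k0_pp_023_t

noncomputable def cut_pp_101_s : Cut := Cut.of [[⟨4, 0, 0, 1449551462⟩]]

noncomputable def f_pp_101_s : ℕ → ℕ → ℕ → ℕ → Bool := onCell 536870912 536870912 0 536870912 587336777 62277027
    (rowNE 3 eng mog cd0q1 cd0q0 pd1 0 true true true .npn 1 0 1 (qsf 536870912 536870912 0 536870912 1) ndB0q1 ndB0q0 pcB1 cut_pp_101_s Ext.none)

def k0_pp_101_s : ∃ t, chk3 f_pp_101_s t 1 1 1 = true :=
  ⟨(l 6), by decide +kernel⟩

theorem c_pp_101_s : CertNE 536870912 536870912 0 536870912 587336777 62277027 3 eng mog cd0q1 cd0q0 pd1 true true true .npn 1 0 1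
    ndB0q1 ndB0q0 pcB1 cut_pp_101_s Ext.none :=
  certNE0 (fam := true) (s1 := true) (s2 := true) (a := 1) (b := 0) (c := 1) (cn := .npn) (n1 := ndB0q1) (n2 := ndB0q0) (pc := pcB1) (cut := cut_pp_101_s) (xt := Ext.none) (P1 := 536870912) (W1 := 536870912) (P2 := 0) (W2 := 536870912) (P3 := 587336777) (W3 := 62277027) (N0 := 3) (En := eng) (mo := mog) (C1 := cd0q1) (C2 := cd0q0) (C3 := pd1)
    rfl k0_pp_101_s

noncomputable def cut_pp_101_t : Cut := Cut.of [[⟨3, 0, 0, 2845415833⟩]]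

noncomputable def f_pp_101_t : ℕ → ℕ → ℕ → ℕ → Bool := onCell 536870912 536870912 0 536870912 587336777 62277027
    (rowNE 3 eng mog cd0q1 cd0q0 pd1 0 true true true .npn 1 0 1 (qsf 536870912 536870912 0 536870912 1) ndB0q1 ndB0q0 pcB1 cut_pp_101_t Ext.none)

def k0_pp_101_t : ∃ t, chk3 f_pp_101_t t 1 1 1 = true :=
  ⟨(a (l 4) (l 5)), by decide +kernel⟩

theorem c_pp_101_t : CertNE 536870912 536870912 0 536870912 587336777 62277027 3 eng mog cd0q1 cd0q0 pd1 true true true .npn 1 0 1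
    ndB0q1 ndB0q0 pcB1 cut_pp_101_t Ext.none :=
  certNE0 (fam := true) (s1 := true) (s2 := true) (a := 1) (b := 0) (c := 1) (cn := .npn) (n1 := ndB0q1) (n2 := ndB0q0) (pc := pcB1) (cut := cut_pp_101_t) (xt := Ext.none) (P1 := 536870912) (W1 := 536870912) (P2 := 0) (W2 := 536870912) (P3 := 587336777) (W3 := 62277027) (N0 := 3) (En := eng) (mo := mog) (C1 := cd0q1) (C2 := cd0q0) (C3 := pd1)
    rfl k0_pp_101_t

noncomputable def cut_pp_102_s : Cut := Cut.of [[⟨4, 0, 0, 1449551462⟩]]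

noncomputable def f_pp_102_s : ℕ → ℕ → ℕ → ℕ → Bool := onCell 536870912 536870912 0 536870912 587336777 62277027
    (rowNE 3 eng mog cd0q1 cd0q0 pd2 0 true true true .npp 1 0 2 (qsf 536870912 536870912 0 536870912 2) ndB0q1 ndB0q0 pcB2 cut_pp_102_s Ext.none)

def k0_pp_102_s : ∃ t, chk3 f_pp_102_s t 1 1 1 = true :=
  ⟨(l 6), by decide +kernel⟩

theorem c_pp_102_s : CertNE 536870912 536870912 0 536870912 587336777 62277027 3 eng mog cd0q1 cd0q0 pd2 true true true .npp 1 0 2
    ndB0q1 ndB0q0 pcB2 cut_pp_102_s Ext.none :=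
  certNE0 (fam := true) (s1 := true) (s2 := true) (a := 1) (b := 0) (c := 2) (cn := .npp) (n1 := ndB0q1) (n2 := ndB0q0) (pc := pcB2) (cut := cut_pp_102_s) (xt := Ext.none) (P1 := 536870912) (W1 := 536870912) (P2 := 0) (W2 := 536870912) (P3 := 587336777) (W3 := 62277027) (N0 := 3) (En := eng) (mo := mog) (C1 := cd0q1) (C2 := cd0q0) (C3 := pd2)
    rfl k0_pp_102_s

noncomputable def cut_pp_102_t : Cut := Cut.of [[⟨3, 0, 0, 2845415833⟩]]

noncomputable def f_pp_102_t : ℕ → ℕ → ℕ → ℕ → Bool := onCell 536870912 536870912 0 536870912 587336777 62277027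
    (rowNE 3 eng mog cd0q1 cd0q0 pd2 0 true true true .npp 1 0 2 (qsf 536870912 536870912 0 536870912 2) ndB0q1 ndB0q0 pcB2 cut_pp_102_t Ext.none)

def k0_pp_102_t : ∃ t, chk3 f_pp_102_t t 1 1 1 = true :=
  ⟨(a (l 4) (l 5)), by decide +kernel⟩

theorem c_pp_102_t : CertNE 536870912 536870912 0 536870912 587336777 62277027 3 eng mog cd0q1 cd0q0 pd2 true true true .npp 1 0 2
    ndB0q1 ndB0q0 pcB2 cut_pp_102_t Ext.none :=
  certNE0 (fam := true) (s1 := true) (s2 := true) (a := 1) (b := 0) (c := 2) (cn := .npp) (n1 := ndB0q1) (n2 := ndB0q0) (pc := pcB2) (cut := cut_pp_102_t) (xt := Ext.none) (P1 := 536870912) (W1 := 536870912) (P2 := 0) (W2 := 536870912) (P3 := 587336777) (W3 := 62277027) (N0 := 3) (En := eng) (mo := mog) (C1 := cd0q1) (C2 := cd0q0) (C3 := pd2)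
    rfl k0_pp_102_t

noncomputable def cut_pp_112_s : Cut := Cut.of [[⟨4, 0, 0, 1449551462⟩]]

noncomputable def f_pp_112_s : ℕ → ℕ → ℕ → ℕ → Bool := onCell 536870912 536870912 536870912 536870912 587336777 62277027
    (rowNE 3 eng mog cd0q1 cd0q1 pd2 0 true true true .dn 1 1 2 (qsf 536870912 536870912 536870912 536870912 2) ndB0q1 ndB0q1 pcB2 cut_pp_112_s Ext.none)

def k0_pp_112_s : ∃ t, chk3 f_pp_112_s t 1 1 1 = true :=
  ⟨(l 4), by decide +kernel⟩

theorem c_pp_112_s : CertNE 536870912 536870912 536870912 536870912 587336777 62277027 3 eng mog cd0q1 cd0q1 pd2 true true true .dn 1 1 2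
    ndB0q1 ndB0q1 pcB2 cut_pp_112_s Ext.none :=
  certNE0 (fam := true) (s1 := true) (s2 := true) (a := 1) (b := 1) (c := 2) (cn := .dn) (n1 := ndB0q1) (n2 := ndB0q1) (pc := pcB2) (cut := cut_pp_112_s) (xt := Ext.none) (P1 := 536870912) (W1 := 536870912) (P2 := 536870912) (W2 := 536870912) (P3 := 587336777) (W3 := 62277027) (N0 := 3) (En := eng) (mo := mog) (C1 := cd0q1) (C2 := cd0q1) (C3 := pd2)
    rfl k0_pp_112_s

noncomputable def cut_pp_112_t : Cut := Cut.of [[⟨3, 0, 0, 2845415833⟩]]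

noncomputable def f_pp_112_t : ℕ → ℕ → ℕ → ℕ → Bool := onCell 536870912 536870912 536870912 536870912 587336777 62277027
    (rowNE 3 eng mog cd0q1 cd0q1 pd2 0 true true true .dn 1 1 2 (qsf 536870912 536870912 536870912 536870912 2) ndB0q1 ndB0q1 pcB2 cut_pp_112_t Ext.none)

def k0_pp_112_t : ∃ t, chk3 f_pp_112_t t 1 1 1 = true :=
  ⟨(l 4), by decide +kernel⟩

theorem c_pp_112_t : CertNE 536870912 536870912 536870912 536870912 587336777 62277027 3 eng mog cd0q1 cd0q1 pd2 true true true .dn 1 1 2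
    ndB0q1 ndB0q1 pcB2 cut_pp_112_t Ext.none :=
  certNE0 (fam := true) (s1 := true) (s2 := true) (a := 1) (b := 1) (c := 2) (cn := .dn) (n1 := ndB0q1) (n2 := ndB0q1) (pc := pcB2) (cut := cut_pp_112_t) (xt := Ext.none) (P1 := 536870912) (W1 := 536870912) (P2 := 536870912) (W2 := 536870912) (P3 := 587336777) (W3 := 62277027) (N0 := 3) (En := eng) (mo := mog) (C1 := cd0q1) (C2 := cd0q1) (C3 := pd2)
    rfl k0_pp_112_t

noncomputable def cut_pp_113_s : Cut := Cut.of [[⟨4, 0, 0, 1449551462⟩]]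

noncomputable def f_pp_113_s : ℕ → ℕ → ℕ → ℕ → Bool := onCell 536870912 536870912 536870912 536870912 587336777 62277027
    (rowNE 3 eng mog cd0q1 cd0q1 pd3 0 true true true .nn 1 1 3 (qsf 536870912 536870912 536870912 536870912 3) ndB0q1 ndB0q1 pcB3 cut_pp_113_s Ext.none)

def k0_pp_113_s : ∃ t, chk3 f_pp_113_s t 1 1 1 = true :=
  ⟨(l 4), by decide +kernel⟩

theorem c_pp_113_s : CertNE 536870912 536870912 536870912 536870912 587336777 62277027 3 eng mog cd0q1 cd0q1 pd3 true true true .nn 1 1 3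
    ndB0q1 ndB0q1 pcB3 cut_pp_113_s Ext.none :=
  certNE0 (fam := true) (s1 := true) (s2 := true) (a := 1) (b := 1) (c := 3) (cn := .nn) (n1 := ndB0q1) (n2 := ndB0q1) (pc := pcB3) (cut := cut_pp_113_s) (xt := Ext.none) (P1 := 536870912) (W1 := 536870912) (P2 := 536870912) (W2 := 536870912) (P3 := 587336777) (W3 := 62277027) (N0 := 3) (En := eng) (mo := mog) (C1 := cd0q1) (C2 := cd0q1) (C3 := pd3)
    rfl k0_pp_113_s

noncomputable def cut_pp_113_t : Cut := Cut.of [[⟨3, 0, 0, 2845415833⟩]]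

noncomputable def f_pp_113_t : ℕ → ℕ → ℕ → ℕ → Bool := onCell 536870912 536870912 536870912 536870912 587336777 62277027
    (rowNE 3 eng mog cd0q1 cd0q1 pd3 0 true true true .nn 1 1 3 (qsf 536870912 536870912 536870912 536870912 3) ndB0q1 ndB0q1 pcB3 cut_pp_113_t Ext.none)

def k0_pp_113_t : ∃ t, chk3 f_pp_113_t t 1 1 1 = true :=
  ⟨(l 4), by decide +kernel⟩

theorem c_pp_113_t : CertNE 536870912 536870912 536870912 536870912 587336777 62277027 3 eng mog cd0q1 cd0q1 pd3 true true true .nn 1 1 3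
    ndB0q1 ndB0q1 pcB3 cut_pp_113_t Ext.none :=
  certNE0 (fam := true) (s1 := true) (s2 := true) (a := 1) (b := 1) (c := 3) (cn := .nn) (n1 := ndB0q1) (n2 := ndB0q1) (pc := pcB3) (cut := cut_pp_113_t) (xt := Ext.none) (P1 := 536870912) (W1 := 536870912) (P2 := 536870912) (W2 := 536870912) (P3 := 587336777) (W3 := 62277027) (N0 := 3) (En := eng) (mo := mog) (C1 := cd0q1) (C2 := cd0q1) (C3 := pd3)
    rfl k0_pp_113_t

noncomputable def cut_pp_123_s : Cut := Cut.of [[⟨4, 0, 0, 1449551462⟩]]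

noncomputable def f_pp_123_s : ℕ → ℕ → ℕ → ℕ → Bool := onCell 536870912 536870912 0 536870912 587336777 62277027
    (rowNE 3 eng mog cd0q1 cd0q2 pd3 0 true true true .npn 1 2 3 (qsf 536870912 536870912 0 536870912 3) ndB0q1 ndB0q2 pcB3 cut_pp_123_s Ext.none)

def k0_pp_123_s : ∃ t, chk3 f_pp_123_s t 1 1 1 = true :=
  ⟨(l 6), by decide +kernel⟩

theorem c_pp_123_s : CertNE 536870912 536870912 0 536870912 587336777 62277027 3 eng mog cd0q1 cd0q2 pd3 true true true .npn 1 2 3
    ndB0q1 ndB0q2 pcB3 cut_pp_123_s Ext.none :=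
  certNE0 (fam := true) (s1 := true) (s2 := true) (a := 1) (b := 2) (c := 3) (cn := .npn) (n1 := ndB0q1) (n2 := ndB0q2) (pc := pcB3) (cut := cut_pp_123_s) (xt := Ext.none) (P1 := 536870912) (W1 := 536870912) (P2 := 0) (W2 := 536870912) (P3 := 587336777) (W3 := 62277027) (N0 := 3) (En := eng) (mo := mog) (C1 := cd0q1) (C2 := cd0q2) (C3 := pd3)
    rfl k0_pp_123_s

noncomputable def cut_pp_123_t : Cut := Cut.of [[⟨3, 0, 0, 2845415833⟩]]

noncomputable def f_pp_123_t : ℕ → ℕ → ℕ → ℕ → Bool := onCell 536870912 536870912 0 536870912 587336777 62277027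
    (rowNE 3 eng mog cd0q1 cd0q2 pd3 0 true true true .npn 1 2 3 (qsf 536870912 536870912 0 536870912 3) ndB0q1 ndB0q2 pcB3 cut_pp_123_t Ext.none)

def k0_pp_123_t : ∃ t, chk3 f_pp_123_t t 1 1 1 = true :=
  ⟨(a (b (b (a (a (b (a (b (a (l 16756968) (l 16764544)) (a (b (l 16765552) (l 16771672)) (b (l 16772240) (a (l 54458860519) (l 119957092615))))) (b (a (l 16770656) (b (l 16773440) (b (l 16786832) (l 112440928711)))) (a (b (b (l 51237637703) (l 110830315943)) (l 4)) (l 4)))) (a (b (a (b (a (l 83449889975) (l 124252059927)) (l 4)) (l 4)) (l 4)) (l 4))) (b (a (b (a (b (b (l 16786936) (l 114051541767)) (l 4)) (l 4)) (l 4)) (l 4)) (l 4))) (l 4)) (l 4)) (l 4)) (l 4)), by decide +kernel⟩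

theorem c_pp_123_t : CertNE 536870912 536870912 0 536870912 587336777 62277027 3 eng mog cd0q1 cd0q2 pd3 true true true .npn 1 2 3
    ndB0q1 ndB0q2 pcB3 cut_pp_123_t Ext.none :=
  certNE0 (fam := true) (s1 := true) (s2 := true) (a := 1) (b := 2) (c := 3) (cn := .npn) (n1 := ndB0q1) (n2 := ndB0q2) (pc := pcB3) (cut := cut_pp_123_t) (xt := Ext.none) (P1 := 536870912) (W1 := 536870912) (P2 := 0) (W2 := 536870912) (P3 := 587336777) (W3 := 62277027) (N0 := 3) (En := eng) (mo := mog) (C1 := cd0q1) (C2 := cd0q2) (C3 := pd3)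
    rfl k0_pp_123_t

noncomputable def cut_pp_202_s : Cut := Cut.of [[⟨4, 0, 0, 1449551462⟩]]

noncomputable def f_pp_202_s : ℕ → ℕ → ℕ → ℕ → Bool := onCell 0 536870912 0 536870912 587336777 62277027
    (rowNE 3 eng mog cd0q2 cd0q0 pd2 0 true true true .pp 2 0 2 (qsf 0 536870912 0 536870912 2) ndB0q2 ndB0q0 pcB2 cut_pp_202_s Ext.none)

def k0_pp_202_s : ∃ t, chk3 f_pp_202_s t 1 1 1 = true :=
  ⟨(l 5), by decide +kernel⟩

theorem c_pp_202_s : CertNE 0 536870912 0 536870912 587336777 62277027 3 eng mog cd0q2 cd0q0 pd2 true true true .pp 2 0 2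
    ndB0q2 ndB0q0 pcB2 cut_pp_202_s Ext.none :=
  certNE0 (fam := true) (s1 := true) (s2 := true) (a := 2) (b := 0) (c := 2) (cn := .pp) (n1 := ndB0q2) (n2 := ndB0q0) (pc := pcB2) (cut := cut_pp_202_s) (xt := Ext.none) (P1 := 0) (W1 := 536870912) (P2 := 0) (W2 := 536870912) (P3 := 587336777) (W3 := 62277027) (N0 := 3) (En := eng) (mo := mog) (C1 := cd0q2) (C2 := cd0q0) (C3 := pd2)
    rfl k0_pp_202_s

noncomputable def cut_pp_202_t : Cut := Cut.of [[⟨3, 0, 0, 2845415833⟩]]

noncomputable def f_pp_202_t : ℕ → ℕ → ℕ → ℕ → Bool := onCell 0 536870912 0 536870912 587336777 62277027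
    (rowNE 3 eng mog cd0q2 cd0q0 pd2 0 true true true .pp 2 0 2 (qsf 0 536870912 0 536870912 2) ndB0q2 ndB0q0 pcB2 cut_pp_202_t Ext.none)

def k0_pp_202_t : ∃ t, chk3 f_pp_202_t t 1 1 1 = true :=
  ⟨(l 5), by decide +kernel⟩

theorem c_pp_202_t : CertNE 0 536870912 0 536870912 587336777 62277027 3 eng mog cd0q2 cd0q0 pd2 true true true .pp 2 0 2
    ndB0q2 ndB0q0 pcB2 cut_pp_202_t Ext.none :=
  certNE0 (fam := true) (s1 := true) (s2 := true) (a := 2) (b := 0) (c := 2) (cn := .pp) (n1 := ndB0q2) (n2 := ndB0q0) (pc := pcB2) (cut := cut_pp_202_t) (xt := Ext.none) (P1 := 0) (W1 := 536870912) (P2 := 0) (W2 := 536870912) (P3 := 587336777) (W3 := 62277027) (N0 := 3) (En := eng) (mo := mog) (C1 := cd0q2) (C2 := cd0q0) (C3 := pd2)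
    rfl k0_pp_202_t

noncomputable def cut_pp_203_s : Cut := Cut.of [[⟨4, 0, 0, 1449551462⟩]]

noncomputable def f_pp_203_s : ℕ → ℕ → ℕ → ℕ → Bool := onCell 0 536870912 0 536870912 587336777 62277027
    (rowNE 3 eng mog cd0q2 cd0q0 pd3 0 true true true .up 2 0 3 (qsf 0 536870912 0 536870912 3) ndB0q2 ndB0q0 pcB3 cut_pp_203_s Ext.none)

def k0_pp_203_s : ∃ t, chk3 f_pp_203_s t 1 1 1 = true :=
  ⟨(l 5), by decide +kernel⟩

theorem c_pp_203_s : CertNE 0 536870912 0 536870912 587336777 62277027 3 eng mog cd0q2 cd0q0 pd3 true true true .up 2 0 3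
    ndB0q2 ndB0q0 pcB3 cut_pp_203_s Ext.none :=
  certNE0 (fam := true) (s1 := true) (s2 := true) (a := 2) (b := 0) (c := 3) (cn := .up) (n1 := ndB0q2) (n2 := ndB0q0) (pc := pcB3) (cut := cut_pp_203_s) (xt := Ext.none) (P1 := 0) (W1 := 536870912) (P2 := 0) (W2 := 536870912) (P3 := 587336777) (W3 := 62277027) (N0 := 3) (En := eng) (mo := mog) (C1 := cd0q2) (C2 := cd0q0) (C3 := pd3)
    rfl k0_pp_203_s

noncomputable def cut_pp_203_t : Cut := Cut.of [[⟨3, 0, 0, 2845415833⟩]]

noncomputable def f_pp_203_t : ℕ → ℕ → ℕ → ℕ → Bool := onCell 0 536870912 0 536870912 587336777 62277027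
    (rowNE 3 eng mog cd0q2 cd0q0 pd3 0 true true true .up 2 0 3 (qsf 0 536870912 0 536870912 3) ndB0q2 ndB0q0 pcB3 cut_pp_203_t Ext.none)

def k0_pp_203_t : ∃ t, chk3 f_pp_203_t t 1 1 1 = true :=
  ⟨(l 5), by decide +kernel⟩

theorem c_pp_203_t : CertNE 0 536870912 0 536870912 587336777 62277027 3 eng mog cd0q2 cd0q0 pd3 true true true .up 2 0 3
    ndB0q2 ndB0q0 pcB3 cut_pp_203_t Ext.none :=
  certNE0 (fam := true) (s1 := true) (s2 := true) (a := 2) (b := 0) (c := 3) (cn := .up) (n1 := ndB0q2) (n2 := ndB0q0) (pc := pcB3) (cut := cut_pp_203_t) (xt := Ext.none) (P1 := 0) (W1 := 536870912) (P2 := 0) (W2 := 536870912) (P3 := 587336777) (W3 := 62277027) (N0 := 3) (En := eng) (mo := mog) (C1 := cd0q2) (C2 := cd0q0) (C3 := pd3)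
    rfl k0_pp_203_t

noncomputable def cut_pp_213_s : Cut := Cut.of [[⟨4, 0, 0, 1449551462⟩]]

noncomputable def f_pp_213_s : ℕ → ℕ → ℕ → ℕ → Bool := onCell 0 536870912 536870912 536870912 587336777 62277027
    (rowNE 3 eng mog cd0q2 cd0q1 pd3 0 true true true .pnn 2 1 3 (qsf 0 536870912 536870912 536870912 3) ndB0q2 ndB0q1 pcB3 cut_pp_213_s Ext.none)

def k0_pp_213_s : ∃ t, chk3 f_pp_213_s t 1 1 1 = true :=
  ⟨(l 6), by decide +kernel⟩

theorem c_pp_213_s : CertNE 0 536870912 536870912 536870912 587336777 62277027 3 eng mog cd0q2 cd0q1 pd3 true true true .pnn 2 1 3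
    ndB0q2 ndB0q1 pcB3 cut_pp_213_s Ext.none :=
  certNE0 (fam := true) (s1 := true) (s2 := true) (a := 2) (b := 1) (c := 3) (cn := .pnn) (n1 := ndB0q2) (n2 := ndB0q1) (pc := pcB3) (cut := cut_pp_213_s) (xt := Ext.none) (P1 := 0) (W1 := 536870912) (P2 := 536870912) (W2 := 536870912) (P3 := 587336777) (W3 := 62277027) (N0 := 3) (En := eng) (mo := mog) (C1 := cd0q2) (C2 := cd0q1) (C3 := pd3)
    rfl k0_pp_213_s

noncomputable def cut_pp_213_t : Cut := Cut.of [[⟨3, 0, 0, 2845415833⟩]]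

noncomputable def f_pp_213_t : ℕ → ℕ → ℕ → ℕ → Bool := onCell 0 536870912 536870912 536870912 587336777 62277027
    (rowNE 3 eng mog cd0q2 cd0q1 pd3 0 true true true .pnn 2 1 3 (qsf 0 536870912 536870912 536870912 3) ndB0q2 ndB0q1 pcB3 cut_pp_213_t Ext.none)

def k0_pp_213_t : ∃ t, chk3 f_pp_213_t t 1 1 1 = true :=
  ⟨(a (l 5) (l 4)), by decide +kernel⟩

theorem c_pp_213_t : CertNE 0 536870912 536870912 536870912 587336777 62277027 3 eng mog cd0q2 cd0q1 pd3 true true true .pnn 2 1 3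
    ndB0q2 ndB0q1 pcB3 cut_pp_213_t Ext.none :=
  certNE0 (fam := true) (s1 := true) (s2 := true) (a := 2) (b := 1) (c := 3) (cn := .pnn) (n1 := ndB0q2) (n2 := ndB0q1) (pc := pcB3) (cut := cut_pp_213_t) (xt := Ext.none) (P1 := 0) (W1 := 536870912) (P2 := 536870912) (W2 := 536870912) (P3 := 587336777) (W3 := 62277027) (N0 := 3) (En := eng) (mo := mog) (C1 := cd0q2) (C2 := cd0q1) (C3 := pd3)
    rfl k0_pp_213_t

noncomputable def cut_pm_001_s : Cut := Cut.of [[⟨4, 0, 0, 1449551462⟩]]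

noncomputable def f_pm_001_s : ℕ → ℕ → ℕ → ℕ → Bool := onCell 0 536870912 0 536870912 587336777 62277027
    (rowNE 3 eng mog cd0q0 cd0q0 pd1 0 true true false .up 0 0 1 (qsf 0 536870912 0 536870912 1) ndB0q0 ndB0q0 pcB1 cut_pm_001_s Ext.none)

def k0_pm_001_s : ∃ t, chk3 f_pm_001_s t 1 1 1 = true :=
  ⟨(l 3), by decide +kernel⟩

theorem c_pm_001_s : CertNE 0 536870912 0 536870912 587336777 62277027 3 eng mog cd0q0 cd0q0 pd1 true true false .up 0 0 1
    ndB0q0 ndB0q0 pcB1 cut_pm_001_s Ext.none :=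
  certNE0 (fam := true) (s1 := true) (s2 := false) (a := 0) (b := 0) (c := 1) (cn := .up) (n1 := ndB0q0) (n2 := ndB0q0) (pc := pcB1) (cut := cut_pm_001_s) (xt := Ext.none) (P1 := 0) (W1 := 536870912) (P2 := 0) (W2 := 536870912) (P3 := 587336777) (W3 := 62277027) (N0 := 3) (En := eng) (mo := mog) (C1 := cd0q0) (C2 := cd0q0) (C3 := pd1)
    rfl k0_pm_001_s

noncomputable def cut_pm_001_t : Cut := Cut.of [[⟨3, 0, 0, 2845415833⟩]]

noncomputable def f_pm_001_t : ℕ → ℕ → ℕ → ℕ → Bool := onCell 0 536870912 0 536870912 587336777 62277027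
    (rowNE 3 eng mog cd0q0 cd0q0 pd1 0 true true false .up 0 0 1 (qsf 0 536870912 0 536870912 1) ndB0q0 ndB0q0 pcB1 cut_pm_001_t Ext.none)

def k0_pm_001_t : ∃ t, chk3 f_pm_001_t t 1 1 1 = true :=
  ⟨(l 3), by decide +kernel⟩

theorem c_pm_001_t : CertNE 0 536870912 0 536870912 587336777 62277027 3 eng mog cd0q0 cd0q0 pd1 true true false .up 0 0 1
    ndB0q0 ndB0q0 pcB1 cut_pm_001_t Ext.none :=
  certNE0 (fam := true) (s1 := true) (s2 := false) (a := 0) (b := 0) (c := 1) (cn := .up) (n1 := ndB0q0) (n2 := ndB0q0) (pc := pcB1) (cut := cut_pm_001_t) (xt := Ext.none) (P1 := 0) (W1 := 536870912) (P2 := 0) (W2 := 536870912) (P3 := 587336777) (W3 := 62277027) (N0 := 3) (En := eng) (mo := mog) (C1 := cd0q0) (C2 := cd0q0) (C3 := pd1)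
    rfl k0_pm_001_t

noncomputable def cut_pm_011_s : Cut := Cut.of [[⟨4, 0, 0, 1449551462⟩], [⟨0, 0, 0, 67108864⟩, ⟨1, 1, 0, 67108864⟩, ⟨2, 1, 0, 67108864⟩]]

noncomputable def f_pm_011_s : ℕ → ℕ → ℕ → ℕ → Bool := onCell 536870912 536870912 536870912 536870912 587336777 62277027
    (rowNE 3 eng mog cd0q0 cd0q1 pd1 2 true true false .pnn 0 1 1 (qsf 0 536870912 536870912 536870912 1) ndB0q0 ndB0q1 pcB1 cut_pm_011_s Ext.none)

def k0_pm_011_s : ∃ t, chk3 f_pm_011_s t 1 1 1 = true :=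
  ⟨(a (l 3) (b (l 3) (a (l 3) (b (l 3) (a (l 3) (b (l 3) (a (l 3) (b (l 3) (l 14))))))))), by decide +kernel⟩

theorem c_pm_011_s : CertNE 0 536870912 536870912 536870912 587336777 62277027 3 eng mog cd0q0 cd0q1 pd1 true true false .pnn 0 1 1
    ndB0q0 ndB0q1 pcB1 cut_pm_011_s Ext.none :=
  certNE2 (fam := true) (s1 := true) (s2 := false) (a := 0) (b := 1) (c := 1) (cn := .pnn) (n1 := ndB0q0) (n2 := ndB0q1) (pc := pcB1) (cut := cut_pm_011_s) (xt := Ext.none) (P1 := 0) (W1 := 536870912) (P2 := 536870912) (W2 := 536870912) (P3 := 587336777) (W3 := 62277027) (N0 := 3) (En := eng) (mo := mog) (C1 := cd0q0) (C2 := cd0q1) (C3 := pd1)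
    rfl (fun _ => rfl) k0_pm_011_s

noncomputable def cut_pm_011_t : Cut := Cut.of [[⟨3, 0, 0, 2845415833⟩], [⟨0, 0, 0, 67108864⟩, ⟨1, 1, 0, 67108864⟩, ⟨2, 1, 0, 67108864⟩]]

noncomputable def f_pm_011_t : ℕ → ℕ → ℕ → ℕ → Bool := onCell 0 536870912 536870912 536870912 587336777 62277027
    (rowNE 3 eng mog cd0q0 cd0q1 pd1 0 true true false .pnn 0 1 1 (qsf 0 536870912 536870912 536870912 1) ndB0q0 ndB0q1 pcB1 cut_pm_011_t Ext.none)

def k0_pm_011_t : ∃ t, chk3 f_pm_011_t t 1 1 1 = true :=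
  ⟨(l 6), by decide +kernel⟩

theorem c_pm_011_t : CertNE 0 536870912 536870912 536870912 587336777 62277027 3 eng mog cd0q0 cd0q1 pd1 true true false .pnn 0 1 1
    ndB0q0 ndB0q1 pcB1 cut_pm_011_t Ext.none :=
  certNE0 (fam := true) (s1 := true) (s2 := false) (a := 0) (b := 1) (c := 1) (cn := .pnn) (n1 := ndB0q0) (n2 := ndB0q1) (pc := pcB1) (cut := cut_pm_011_t) (xt := Ext.none) (P1 := 0) (W1 := 536870912) (P2 := 536870912) (W2 := 536870912) (P3 := 587336777) (W3 := 62277027) (N0 := 3) (En := eng) (mo := mog) (C1 := cd0q0) (C2 := cd0q1) (C3 := pd1)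
    rfl k0_pm_011_t

end Pool.Agent.Strip051.G.I5470_6050.Tab.CS.BA00

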