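import Pool.Agent.Strip051.G.I5470_6050.Tab
import Pool.Agent.Strip051.PB.StripB

/-! # Strips, near vertex: certificates 1 (generated) -/

set_option linter.all false
set_option maxRecDepth 100000

namespace Pool.Agent.Strip051.G.I5470_6050.Tab.CS.BA00

open Pool.Agent.Strip051.PB Pool.Agent.Strip051.PB.T
open Pool.Agent.Strip051.G.I5470_6050.Tab

noncomputable def cut_pm_012_s : Cut := Cut.of [[⟨4, 0, 0, 1449551462⟩], [⟨0, 0, 0, 67108864⟩, ⟨1, 1, 0, 67108864⟩, ⟨2, 1, 0, 67108864⟩]]

noncomputable def f_pm_012_s : ℕ → ℕ → ℕ → ℕ → Bool := onCell 1073741824 536870912 536870912 536870912 587336777 62277027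
    (rowNE 3 eng mog cd0q0 cd0q1 pd2 2 true true false .pnp 0 1 2 (qsf 0 536870912 536870912 536870912 2) ndB0q0 ndB0q1 pcB2 cut_pm_012_s Ext.none)

def k0_pm_012_s : ∃ t, chk3 f_pm_012_s t 4 2 1 = true :=
  ⟨(a (l 3) (l 3)), by decide +kernel⟩

def k1_pm_012_s : ∃ t, chk3 f_pm_012_s t 8 6 1 = true :=
  ⟨(l 3), by decide +kernel⟩

def k2_pm_012_s : ∃ t, chk3 f_pm_012_s t 18 12 1 = true :=
  ⟨(l 3), by decide +kernel⟩

def k3_pm_012_s : ∃ t, chk3 f_pm_012_s t 36 13 1 = true :=
  ⟨(l 3), by decide +kernel⟩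

def k4_pm_012_s : ∃ t, chk3 f_pm_012_s t 37 26 1 = true :=
  ⟨(l 3), by decide +kernel⟩

def k5_pm_012_s : ∃ t, chk3 f_pm_012_s t 74 27 1 = true :=
  ⟨(l 3), by decide +kernel⟩

def k6_pm_012_s : ∃ t, chk3 f_pm_012_s t 75 54 1 = true :=
  ⟨(l 3), by decide +kernel⟩

def k7_pm_012_s : ∃ t, chk3 f_pm_012_s t 150 55 1 = true :=
  ⟨(l 3), by decide +kernel⟩

def k8_pm_012_s : ∃ t, chk3 f_pm_012_s t 151 110 1 = true :=
  ⟨(l 3), by decide +kernel⟩

def k9_pm_012_s : ∃ t, chk3 f_pm_012_s t 151 222 1 = true :=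
  ⟨(a (l 3) (a (b (l 3) (b (a (l 3) (a (c (l 281488130455) (c (l 290614935927) (l 295446774119))) (b (c (l 260550164727) (l 271287582919)) (a (b (l 199346880727) (l 16777112)) (l 16777024))))) (a (a (c (l 283635614119) (l 293836161399)) (b (c (l 265918873831) (l 275045679319)) (a (a (l 153175982407) (l 16777488)) (l 16777032)))) (a (b (a (b (l 154786595495) (l 16777112)) (l 16777024)) (l 16776768)) (l 16776680))))) (b (b (a (l 3) (a (c (l 273435066743) (c (l 281488130391) (b (l 3) (l 263771390135)))) (b (a (l 3) (a (l 274508808391) (l 190756946215))) (a (b (l 164987142407) (l 16777080)) (l 16776992))))) (b (a (a (l 3) (c (l 251423359271) (c (l 262697648327) (l 268066357431)))) (a (a (b (l 173040206103) (l 16777088)) (l 16777000)) (l 16776736))) (a (a (c (l 256255197447) (l 268066357447)) (a (b (l 188609462471) (l 16777096)) (l 16777008))) (c (l 16776576) (l 16776568))))) (b (b (a (a (a (b (l 193441300695) (l 16777104)) (l 16777016)) (l 16776752)) (l 16776392)) (a (a (l 16776760) (l 16776408)) (l 16776216)))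 (c (l 16776384) (a (l 16776392) (l 16775368))))))), by decide +kernel⟩

def k10_pm_012_s : ∃ t, chk3 f_pm_012_s t 151 223 1 = true :=
  ⟨(a (a (b (l 3) (b (a (l 3) (a (c (l 283098743207) (l 293299290487)) (b (l 270213841143) (a (a (l 154786595159) (l 16777496)) (l 16777040))))) (a (a (c (l 279877517735) (l 290078065015)) (b (l 268066357479) (a (c (l 16777200) (l 116131889527)) (l 16777032)))) (a (a (b (a (l 153175982407) (l 16777488)) (l 16776864)) (l 16777024)) (l 16776600))))) (b (b (a (l 3) (a (c (l 285246226855) (l 294909903223)) (b (l 271287582951) (a (a (l 155860336983) (l 16777496)) (l 16777040))))) (a (a (c (l 284709355943) (l 294909903223)) (b (l 271287582967) (a (a (l 156934078807) (l 16777496)) (l 16777040)))) (a (b (a (a (l 156934078807) (l 16777496)) (l 16777040)) (l 16776784)) (l 16776608)))) (a (b (a (b (a (a (l 156397207895) (l 16777496)) (l 16777040)) (l 16776776)) (l 16776608)) (c (l 16776088) (l 16776080))) (c (l 16775752) (b (l 16776080) (l 16775384)))))) (b (a (a (b (a (b (a (a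 (l 155323466055) (l 16777488)) (l 16777032)) (l 16776776)) (l 16776688)) (c (l 16776088) (l 16776080))) (c (l 16776400) (b (l 16776072) (l 16775384)))) (a (c (l 16775056) (a (l 16775528) (l 16775184))) (c (l 16774360) (c (l 16774344) (l 16774648))))) (a (a (c (l 16775056) (c (l 16775040) (l 16775352))) (b (l 16775032) (l 16774336))) (c (l 16773992) (a (l 16773968) (l 16773280)))))), by decide +kernel⟩

def k11_pm_012_s : ∃ t, chk3 f_pm_012_s t 19 12 1 = true :=
  ⟨(a (l 3) (b (l 3) (a (b (l 3) (a (l 3) (b (l 3) (a (l 3) (b (l 3) (l 286856841031)))))) (b (a (l 3) (b (a (l 3) (l 283098745367)) (a (b (l 3) (l 181093275271)) (a (a (l 121500603223) (l 16779224)) (l 16775480))))) (a (b (a (l 3) (b (l 298131130343) (c (l 120963732023) (l 121500600423)))) (a (b (c (l 190220080135) (l 195588789335)) (c (l 16776176) (l 16778784))) (b (l 16775264) (l 16773168)))) (b (a (b (l 16780248) (l 16774320)) (l 16772352)) (a (l 16776488) (b (l 16769360) (l 16770288))))))))), by decide +kernel⟩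

def k12_pm_012_s : ∃ t, chk3 f_pm_012_s t 38 26 1 = true :=
  ⟨(a (l 3) (b (l 3) (a (b (l 3) (a (l 3) (a (l 3) (b (l 3) (a (l 225653556103) (l 121500600935)))))) (b (a (l 3) (b (l 3) (a (l 225653556167) (l 62981669511)))) (a (a (b (l 299204871671) (l 16778984)) (b (a (l 154786597623) (l 16779592)) (l 16774952))) (b (l 16776472) (l 16772760))))))), by decide +kernel⟩

def k13_pm_012_s : ∃ t, chk3 f_pm_012_s t 76 54 1 = true :=
  ⟨(a (b (l 3) (a (l 3) (a (l 3) (b (l 3) (b (l 3) (l 315310998727)))))) (b (a (l 3) (a (l 3) (a (l 3) (b (l 3) (b (l 3) (l 168745240087)))))) (a (b (a (l 3) (b (l 3) (l 286856840151))) (b (a (l 301889225815) (a (a (l 161229046951) (l 79624667143)) (l 16776616))) (a (a (b (l 291688677895) (l 68350378327)) (c (l 16776728) (l 16777376))) (l 16775696)))) (a (b (b (l 270750711335) (a (c (l 91435828439) (l 93583310919)) (l 16776504))) (b (l 16775600) (l 16774336))) (a (b (b (l 16777704) (l 16775824)) (l 16773960)) (b (l 16775768) (l 16773304))))))), by decide +kernel⟩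

def k14_pm_012_s : ∃ t, chk3 f_pm_012_s t 304 55 1 = true :=
  ⟨(b (b (l 3) (a (b (l 3) (b (a (l 3) (a (a (l 3) (b (l 3) (l 160692175191))) (b (c (l 134922372439) (l 189146333639)) (l 16777360)))) (a (a (a (l 3) (b (l 3) (b (l 3) (l 149954756855)))) (b (a (l 3) (a (l 227264168151) (l 146733531415))) (a (b (l 118279373047) (l 16777064)) (l 16776968)))) (a (a (b (l 16777464) (l 16776800)) (l 16776792)) (l 16776528))))) (b (a (b (l 3) (a (a (l 314774126967) (b (l 3) (l 138680467847))) (b (l 171966464423) (l 16777008)))) (a (b (b (l 3) (l 157470949943)) (l 16776824)) (b (b (l 148881015335) (l 16776976)) (l 16776472)))) (a (b (a (b (l 16777024) (l 16776688)) (l 16776504)) (c (l 16776008) (l 16776000))) (c (l 16775656) (b (l 16775968) (l 16775296))))))) (a (b (b (a (b (a (a (b (b (l 156397207799) (l 16777072)) (l 16776816)) (l 16776816)) (c (l 16776552) (l 16776544))) (c (l 16776048) (l 16776368))) (c (l 16776344) (b (l 16776344) (l 16775336)))) (a (c (l 16775688) (b (l 16775352) (l 16774664))) (c (l 16774336)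 (c (l 16774320) (l 16774632))))) (b (a (b (l 16774328) (l 16773968)) (b (l 16773960) (l 16772624))) (c (l 16773272) (c (l 16772584) (l 16772384))))) (b (b (a (c (l 16775656) (b (l 16775320) (l 16774640))) (b (l 16774952) (l 16774280))) (a (b (l 16774296) (l 16773944)) (b (l 16773928) (l 16772600)))) (b (c (l 16773264) (c (l 16772568) (l 16772376))) (c (l 16770592) (l 16771184)))))), by decide +kernel⟩

def k15_pm_012_s : ∃ t, chk3 f_pm_012_s t 305 55 1 = true :=
  ⟨(a (b (b (b (l 3) (b (a (l 3) (a (l 174113948375) (l 16777720))) (a (a (c (l 190756946471) (l 195051913815)) (a (l 89288344231) (l 16777016))) (l 16776584)))) (a (b (b (l 16776616) (l 16775952)) (b (l 16775280) (a (l 16774784) (l 16774440)))) (b (c (l 16775600) (l 16775576)) (b (l 16774584) (l 16773920))))) (b (b (c (l 16773944) (a (l 16773992) (l 16773544))) (c (l 16773256) (c (l 16773200) (l 16772520)))) (b (c (l 16770608) (l 16771176)) (a (l 16770184) (b (l 16769200) (a (l 16768696) (l 16768392))))))) (b (b (b (a (b (l 317995352679) (a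 (l 158544691927) (l 16777024))) (a (b (l 140827951863) (l 16776680)) (l 16776656))) (b (l 16776440) (l 16776192))) (b (c (l 16774568) (c (l 16774536) (l 16774848))) (c (l 16773256) (a (l 16773544) (l 16772848))))) (a (b (b (a (l 16773056) (l 16772720)) (l 16771552)) (b (l 16770856) (b (l 16768064) (l 16767944)))) (b (b (l 16772208) (l 16770880)) (b (b (l 16769216) (l 16767912)) (l 16767656)))))), by decide +kernel⟩

def k16_pm_012_s : ∃ t, chk3 f_pm_012_s t 153 55 1 = true :=
  ⟨(b (b (b (a (a (c (l 16775800) (l 16775776)) (l 16774416)) (c (l 16772464) (l 16773672))) (a (a (c (l 16774512) (l 16774464)) (l 16773128)) (c (l 16771208) (l 16772392)))) (a (a (b (c (l 16773216) (l 16773152)) (b (l 16772856) (l 16772192))) (b (l 16772824) (a (l 16770872) (l 16770208)))) (b (a (l 16770520) (a (l 16769552) (l 16769240))) (b (a (l 16769560) (a (l 16769920) (l 16768032))) (a (a (l 16769232) (l 16768608)) (l 16767744)))))) (a (b (a (a (b (l 16771536) (l 16769560)) (b (l 16770216) (b (l 16769232) (l 16768584))))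 (a (b (l 16769560) (b (l 16768592) (l 16767992))) (b (b (l 16769232) (l 16768592)) (l 16767704)))) (b (a (a (b (l 16768576) (l 16767968)) (l 16767680)) (l 16768128)) (c (l 16766336) (l 16766088)))) (a (b (b (a (b (l 16768600) (l 16768008)) (l 16769040)) (l 16769472)) (c (l 16765256) (l 16767552))) (b (b (l 16766880) (l 16765720)) (l 16765272))))), by decide +kernel⟩

def k17_pm_012_s : ∃ t, chk3 f_pm_012_s t 77 27 1 = true :=
  ⟨(b (a (b (a (a (b (l 3) (b (l 174113949783) (l 16777864))) (b (b (l 3) (l 147807275031)) (l 16776272))) (a (b (b (l 116668762391) (l 16776208)) (l 16774384)) (b (l 16775400) (l 16772952)))) (a (a (b (l 16774736) (l 16772264)) (b (l 16773336) (l 16770848))) (a (b (l 16771912) (b (l 16770040) (l 16769112))) (b (l 16770472) (b (l 16768600) (l 16767496)))))) (b (a (b (l 16773240) (l 16770776)) (b (l 16770312) (a (a (l 16768944) (l 16768256)) (a (l 16767624) (l 16767032))))) (a (a (b (b (l 16769640) (l 16768416)) (b (l 16767336) (l 16766296))) (b (b (l 16768216) (l 16767168)) (l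 16765664))) (c (b (l 16766112) (l 16769432)) (b (l 16765872) (l 16766440)))))) (a (a (a (b (b (a (l 16770120) (b (l 16770040) (l 16768784))) (b (a (b (l 16768568) (l 16767992)) (l 16767632)) (l 16766824))) (b (c (l 16765296) (l 16764944)) (l 16765416))) (b (b (a (b (l 16769320) (l 16768128)) (b (l 16768616) (l 16767480))) (b (l 16766696) (l 16765592))) (b (a (l 16764200) (l 16763608)) (l 16764232)))) (a (b (a (b (b (l 16767960) (l 16766872)) (l 16766552)) (b (l 16766800) (l 16764648))) (b (l 16764032) (l 16763072))) (b (b (l 16765904) (c (l 16763968) (l 16763568))) (b (l 16762880) (l 16760632))))) (a (b (b (a (l 16767368) (l 16763624)) (b (l 16762600) (a (l 16762088) (l 16760984)))) (b (c (c (l 16760368) (l 16760056)) (l 16759584)) (c (c (l 16758240) (l 16757872)) (l 16757296)))) (b (b (c (l 16762240) (l 16761728)) (c (c (l 16760392) (l 16760072)) (l 16759576))) (c (b (c (l 16758360) (l 16757968)) (c (l 16756264) (l 16755816))) (b (l 16757368) (l 16755104))))))), by decide +kernel⟩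

def k18_pm_012_s : ∃ t, chk3 f_pm_012_s t 39 26 1 = true :=
  ⟨(a (b (a (b (l 3) (a (b (l 3) (l 291151808423)) (a (b (l 3) (l 91972701671)) (b (l 166597758599) (l 16775568))))) (b (b (a (l 3) (a (l 170892726151) (l 16776280))) (a (a (l 265918877047) (l 100025765431)) (l 16774840))) (a (b (l 16778224) (l 16773320)) (l 16771464)))) (a (b (b (a (a (l 150491631047) (l 16776216)) (l 16773992)) (a (l 16774608) (l 16771640))) (a (b (l 16772224) (l 16769800)) (b (l 16770568) (a (l 16767728) (l 16766584))))) (a (b (b (l 16771000) (c (l 16768728) (l 16768688))) (a (b (l 16767272) (l 16765600)) (l 16768736))) (b (b (c (l 16768176) (l 16768128)) (l 16769024)) (c (l 16764288) (l 16763896)))))) (b (a (b (a (c (l 16772936) (l 16772928)) (b (l 16771032) (l 16771520))) (a (b (l 16769608) (c (l 16767656) (l 16767576))) (b (c (l 16767224) (l 16769680)) (l 16765752)))) (a (b (b (l 16770872) (l 16766728)) (l 16772776)) (b (l 16769800) (l 16768736)))) (a (a (b (c (l 16765488) (l 16770448)) (c (l 16762656) (l 16772520)))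 (b (l 16763744) (c (l 16761136) (l 16760264)))) (b (a (l 16772688) (l 16760720)) (c (l 16764232) (b (l 16758560) (l 16756848))))))), by decide +kernel⟩

def k19_pm_012_s : ∃ t, chk3 f_pm_012_s t 39 54 1 = true :=
  ⟨(a (a (a (b (b (a (l 16768176) (l 16766968)) (l 16765672)) (b (l 16769072) (l 16764520))) (b (b (l 16765392) (l 16768888)) (b (l 16761808) (l 16759904)))) (a (b (b (l 16763464) (l 16761720)) (b (l 16759888) (l 16757992))) (b (c (l 16761120) (l 16765624)) (b (l 16758056) (l 16756160))))) (a (b (a (b (l 16759872) (l 16758120)) (c (l 16757952) (l 16756712))) (b (c (l 16761368) (l 16757368)) (a (l 16754400) (b (l 16753232) (a (l 16752672) (a (l 16752024) (l 16751568))))))) (b (b (c (l 16756600) (l 16755048)) (a (l 16754864) (a (l 16753704) (a (l 16753088) (l 16752640))))) (b (b (a (l 16753504) (l 16751736)) (a (a (l 16752960) (l 16752080)) (l 16750664))) (a (a (b (l 16751936) (l 16750856)) (l 16750448)) (l 16748984)))))), by decide +kernel⟩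

def k20_pm_012_s : ∃ t, chk3 f_pm_012_s t 78 55 1 = true :=
  ⟨(b (a (b (c (a (l 16760248) (l 16758360)) (a (l 16759552) (l 16757472))) (c (a (c (l 16758464) (l 16758056)) (c (l 16756648) (l 16756144))) (a (l 16757424) (l 16755352)))) (b (c (a (l 16756568) (l 16754856)) (a (l 16755456) (l 16753512))) (a (c (a (l 16755056) (l 16754192)) (l 16753344)) (c (b (c (l 16753768) (l 16753072)) (a (c (l 16753200) (l 16752488)) (c (b (l 16752616) (l 16752096)) (b (l 16751864) (l 16751320))))) (b (l 16751944) (a (l 16751352) (b (l 16750648) (l 16750072)))))))) (a (a (c (b (c (l 16756456) (l 16755984)) (c (l 16754400) (l 16753848))) (b (l 16755232) (l 16752984))) (b (c (c (l 16754664) (l 16754088)) (l 16753168)) (b (a (l 16752656) (c (c (b (l 16752960) (l 16752448)) (l 16752048)) (l 16751000))) (b (a (l 16751832) (a (a (l 16751240) (l 16751000)) (l 16750632))) (a (a (l 16751528) (a (l 16751168) (l 16750920))) (l 16750304)))))) (b (b (a (a (l 16752904) (c (c (l 16753040) (l 16752344)) (l 16751232))) (a (b (a (l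 16752872) (a (l 16751208) (l 16750968))) (c (l 16751544) (l 16749952))) (l 16750072))) (b (a (a (l 16752104) (c (a (l 16752144) (l 16751688)) (l 16750400))) (l 16752336)) (a (c (a (l 16752280) (l 16751368)) (a (l 16750840) (l 16749816))) (l 16749144)))) (a (b (a (a (b (a (l 16751392) (l 16751152)) (l 16750704)) (c (l 16751240) (l 16749720))) (l 16749760)) (a (l 16749608) (l 16748616))) (c (l 16751192) (l 16746784)))))), by decide +kernel⟩

def k21_pm_012_s : ∃ t, chk3 f_pm_012_s t 79 55 1 = true :=
  ⟨(a (b (b (b (a (c (l 16753712) (l 16752152)) (a (a (l 16751872) (l 16751416)) (l 16750704))) (a (a (l 16752384) (b (l 16754376) (l 16751216))) (l 16750064))) (b (a (a (b (c (l 16752408) (l 16750760)) (c (l 16751880) (l 16750200))) (l 16750384)) (l 16751560)) (c (a (l 16750608) (l 16748752)) (a (l 16748832) (l 16746776))))) (c (a (b (c (l 16749368) (l 16748488)) (l 16749288)) (b (l 16747048) (l 16744744))) (a (b (l 16748384) (l 16744688)) (b (l 16745000) (l 16742584))))) (a (b (c (b (l 16749664) (l 16747424))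 (b (l 16747640) (l 16745296))) (c (b (l 16745120) (l 16742776)) (b (l 16742904) (l 16740464)))) (b (c (b (l 16747768) (l 16745480)) (b (l 16745576) (l 16743200))) (c (b (l 16743144) (l 16740768)) (b (l 16740784) (l 16738320)))))), by decide +kernel⟩

def k22_pm_012_s : ∃ t, chk3 f_pm_012_s t 8 14 1 = true :=
  ⟨(a (l 3) (b (l 3) (a (l 3) (b (l 3) (a (b (l 3) (a (l 3) (b (l 3) (b (a (l 3) (a (l 3) (c (l 170355852103) (b (l 273435067175) (l 124721824471))))) (b (a (l 3) (a (l 180556399287) (l 16776488))) (a (l 254644585815) (c (l 16778888) (a (l 16778128) (l 16775672))))))))) (b (a (b (l 3) (a (l 3) (a (l 3) (a (l 271287584359) (b (l 3) (l 151565370711)))))) (b (a (l 3) (a (b (l 3) (b (l 215989879319) (l 78550926551))) (b (b (l 292225549207) (l 142438564711)) (l 16777544)))) (a (a (b (l 243370296247) (c (l 16776656) (l 38822479207))) (b (a (l 127943050183) (l 16778048)) (l 16775496))) (b (c (l 16775320) (l 16775264)) (c (l 16773776) (l 16775008)))))) (a (b (a (b (l 284172486519) (a (l 224579814263) (b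 (l 137069855591) (l 16776576)))) (b (a (a (l 183777624983) (l 96267666311)) (a (l 16776536) (l 16775968))) (a (l 16775832) (l 16774704)))) (a (b (a (b (l 33990642647) (l 16776144)) (l 16776056)) (a (l 16775608) (l 16773824))) (a (b (l 16774272) (b (l 16773824) (a (l 16772576) (l 16772016)))) (b (c (l 16774544) (l 16774368)) (b (c (l 16777328) (l 16771864)) (l 16771160)))))) (a (b (a (c (l 16774400) (l 16774280)) (b (l 16773952) (b (l 16772784) (l 16772656)))) (b (a (c (c (l 16774784) (l 16775976)) (l 16773216)) (l 16770816)) (l 16769808))) (c (b (b (a (l 16772840) (l 16771672)) (l 16771360)) (l 16768320)) (b (b (a (l 16772728) (l 16771552)) (l 16771880)) (l 16768200))))))))))), by decide +kernel⟩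

def k23_pm_012_s : ∃ t, chk3 f_pm_012_s t 16 15 1 = true :=
  ⟨(b (a (l 3) (b (l 3) (a (l 3) (b (l 3) (a (l 3) (b (l 3) (a (b (l 3) (b (l 3) (l 14))) (a (a (b (l 3) (b (b (l 265918874215) (a (l 14) (l 43117445575))) (l 14))) (b (c (l 249275876743) (l 257865808519)) (b (b (a (l 135459242231) (l 16777032)) (l 16776720)) (c (l 16776048) (l 16776048))))) (a (b (b (l 3) (b (l 198810009975) (a (l 78550925767) (l 16776936)))) (a (b (l 16776536) (l 16775640)) (b (l 16776264) (l 16775368)))) (b (c (b (l 195588784679) (l 16777408)) (a (b (l 270750712455) (l 16777544)) (b (l 177335173431) (l 16776616)))) (b (c (l 16775856) (l 16775864)) (b (l 16775184) (c (l 16774736) (l 16775400)))))))))))))) (b (a (l 14) (a (l 14) (b (a (l 14) (b (a (l 14) (a (l 14) (a (l 14) (a (l 14) (b (l 16774472) (l 14)))))) (l 14))) (l 14)))) (l 14))), by decide +kernel⟩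

def k24_pm_012_s : ∃ t, chk3 f_pm_012_s t 34 60 1 = true :=
  ⟨(a (l 3) (b (l 3) (a (b (l 3) (a (l 3) (a (b (l 3) (b (l 237464716135) (a (l 143512306311) (l 16778160)))) (b (c (l 205789332551) (b (l 3) (l 189146333639))) (b (a (a (l 67813509527) (l 16777000)) (l 16776584)) (l 16776000)))))) (b (a (a (l 3) (b (l 3) (b (l 242833425255) (a (l 154786595335) (l 16776872))))) (b (b (a (l 3) (a (l 221895459175) (l 84993377207))) (a (l 187535720951) (a (l 16776864) (l 16776304)))) (b (a (a (l 88214602711) (l 16776592)) (l 16775744)) (c (l 16775480) (l 16775768))))) (a (b (b (a (a (l 225116684599) (l 87677731159)) (l 16776312)) (a (a (l 16778184) (l 16776312)) (l 16775456))) (a (c (l 16775320) (l 16775264)) (b (l 16774600) (a (l 16774016) (a (l 16773584) (l 16773320)))))) (b (c (a (l 16774776) (b (l 16774080) (l 16773248))) (a (l 16774712) (b (l 16773992) (c (l 16773184) (l 16773112))))) (c (a (b (l 16773504) (l 16772680)) (l 16771992)) (a (b (c (l 16773440) (l 16773368)) (l 16772576)) (l 16771888))))))))),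 by decide +kernel⟩

def k25_pm_012_s : ∃ t, chk3 f_pm_012_s t 136 61 1 = true :=
  ⟨(a (b (l 3) (a (b (a (l 3) (b (l 3) (b (l 3) (a (l 204178719159) (b (l 258402680983) (l 16777088)))))) (b (b (b (a (c (l 137606725815) (l 136532984039)) (l 16776784)) (a (l 16777368) (l 16776336))) (c (l 16775944) (c (l 16775944) (l 16775944)))) (b (a (c (l 16775320) (l 16775320)) (b (l 16775000) (c (l 16774552) (l 16775864)))) (a (b (c (l 16774648) (l 16775312)) (l 16775504)) (l 16775200))))) (b (b (l 3) (a (b (l 233169748663) (a (b (l 107541954903) (l 16776816)) (l 16777096))) (b (b (l 183777624343) (c (l 16777016) (l 16777664))) (c (l 16776360) (l 16776352))))) (b (c (b (l 16775744) (a (l 16775128) (l 16775904))) (a (b (l 16776016) (l 16775112)) (b (l 16775456) (b (l 16774776) (l 16775648))))) (a (b (a (b (l 16775256) (l 16774160)) (l 16775256)) (l 16773352)) (l 16774552)))))) (a (b (l 3) (b (b (b (l 266992616599) (a (b (l 3) (l 139217338663)) (b (c (l 16777536) (l 102710116791)) (l 16776808)))) (a (b (a (l 16777488)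 (l 16776560)) (l 16776136)) (b (l 16776144) (l 16775256)))) (b (c (b (a (l 16774928) (l 16775696)) (l 16775088)) (a (b (c (l 16774896) (l 16774864)) (l 16775000)) (b (c (l 16775664) (l 16775624)) (l 16773440)))) (c (l 16772440) (l 16772376))))) (b (b (l 3) (a (l 3) (b (l 3) (b (l 3) (l 213305524791))))) (b (b (b (a (a (l 175187689799) (b (l 213305524423) (l 16777008))) (c (l 16776816) (l 16777784))) (c (l 16776216) (l 16776192))) (c (b (l 16775336) (a (l 16774712) (l 16774176))) (b (l 16775288) (c (b (l 16775928) (l 16775496)) (b (l 16775880) (l 16775456)))))) (b (b (c (l 16773576) (l 16774496)) (l 16772648)) (l 16771312)))))), by decide +kernel⟩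

def k26_pm_012_s : ∃ t, chk3 f_pm_012_s t 137 61 1 = true :=
  ⟨(a (b (b (l 3) (b (b (l 3) (a (l 3) (b (l 214379266647) (a (l 228874780935) (l 16777664))))) (a (b (a (l 3) (b (l 266455745079) (l 101099504231))) (a (b (l 141364822391) (l 16776920)) (l 16777248))) (b (a (b (l 32380028007) (l 16776696)) (l 16776360)) (c (l 16775768) (l 16775728)))))) (b (b (b (c (a (l 16775992) (l 16776184)) (a (l 16775960) (c (l 16774824) (l 16774776)))) (a (c (l 16775104) (l 16775704)) (a (b (l 16774464) (l 16774680)) (a (l 16774488) (l 16773560))))) (b (a (a (c (l 16774496) (c (l 16774448) (l 16774400))) (c (l 16773960) (l 16774536))) (l 16773088)) (c (l 16773056) (a (l 16773280) (l 16772152))))) (a (b (l 16771992) (l 16770216)) (b (l 16770888) (l 16769120))))) (b (b (b (l 3) (a (l 266455746087) (a (b (l 3) (a (l 166597755159) (l 81772151655))) (b (l 193441300855) (l 16777408))))) (a (a (b (b (l 175187689831) (l 16777336)) (c (l 16775368) (l 16775320))) (b (b (b (l 91435827959) (l 16776784)) (l 16776120)) (b (l 16775232)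 (b (l 16774560) (l 16774760))))) (b (c (l 16775736) (c (l 16775704) (l 16775672))) (a (b (l 16774664) (b (l 16774648) (l 16773568))) (b (b (l 16774320) (l 16774528)) (l 16773232)))))) (a (b (b (b (a (b (l 16774224) (l 16773800)) (l 16773800)) (l 16772864)) (l 16771552)) (b (l 16769792) (b (l 16768464) (l 16767576)))) (b (b (a (l 16772472) (l 16771920)) (l 16770456)) (b (l 16768696) (b (l 16767368) (l 16766536))))))), by decide +kernel⟩

def k27_pm_012_s : ∃ t, chk3 f_pm_012_s t 69 122 1 = true :=
  ⟨(a (b (a (b (b (a (l 3) (a (l 208473686359) (a (l 60834187623) (l 16776968)))) (a (a (l 3) (a (l 186461978903) (l 56539218999))) (a (l 16777464) (l 16776248)))) (a (b (a (a (l 93046440679) (l 16776920)) (l 16776504)) (c (l 16775920) (l 16775880))) (c (l 16775240) (l 16775336)))) (a (b (c (l 16775848) (c (l 16775816) (l 16775792))) (c (b (l 16774552) (c (l 16773704) (l 16773664))) (b (l 16774464) (c (l 16774272) (l 16773544))))) (b (b (l 16775128) (a (l 16774544) (a (l 16774120) (l 16774480)))) (b (c (l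 16773440) (c (l 16773368) (l 16773296))) (l 16772536))))) (a (a (b (c (b (l 16775048) (c (l 16774184) (l 16774144))) (b (l 16774984) (c (l 16774504) (l 16774032)))) (a (b (b (l 16773760) (l 16773320)) (l 16772672)) (l 16772560))) (b (b (c (c (l 16773944) (l 16773904)) (c (l 16774512) (l 16773784))) (c (l 16773080) (l 16773632))) (l 16772064))) (a (b (c (l 16772408) (l 16772952)) (l 16770632)) (b (l 16771256) (l 16769544))))) (b (a (a (b (b (c (l 16774024) (c (l 16773952) (l 16773888))) (c (l 16773192) (c (l 16773120) (l 16773048)))) (l 16771864)) (b (b (c (l 16772944) (l 16773576)) (l 16772040)) (l 16770768))) (c (b (l 16770856) (l 16769168)) (b (l 16770744) (l 16769040)))) (b (a (a (l 16770160) (l 16769064)) (l 16767416)) (a (l 16768552) (a (l 16766248) (c (l 16765224) (l 16765072))))))), by decide +kernel⟩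

def k28_pm_012_s : ∃ t, chk3 f_pm_012_s t 69 123 1 = true :=
  ⟨(a (b (a (c (b (l 16770600) (l 16768864)) (b (l 16770480) (l 16768736))) (b (c (l 16768416) (l 16768280)) (c (a (l 16767224) (l 16767464)) (b (l 16766960) (l 16767424))))) (b (a (a (c (l 16767656) (l 16767512)) (b (l 16766944) (l 16766112))) (c (b (l 16766744) (l 16764568)) (l 16766232))) (a (c (c (l 16766736) (l 16766736)) (l 16766664)) (l 16763240)))) (b (b (a (a (l 16766712) (a (l 16767208) (l 16766680))) (c (c (l 16765408) (l 16764096)) (l 16764016))) (a (c (a (l 16765104) (l 16764016)) (l 16765784)) (l 16762368))) (c (b (l 16763040) (l 16762600)) (a (l 16761944) (l 16759712))))), by decide +kernel⟩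

def k29_pm_012_s : ∃ t, chk3 f_pm_012_s t 35 120 1 = true :=
  ⟨(a (a (b (a (l 3) (b (l 3) (a (l 275045680519) (b (l 209547428455) (a (l 120963728167) (l 16776728)))))) (a (a (b (l 3) (b (l 235317232391) (a (l 146733531751) (l 16776832)))) (b (b (l 3) (l 176798302759)) (a (c (l 16776688) (l 16777976)) (l 16776128)))) (a (b (b (a (l 200420622743) (l 16777032)) (l 16777824)) (c (l 16775288) (l 16775264))) (b (c (l 16775792) (l 16775784)) (c (l 16774160) (l 16774784)))))) (a (a (b (b (c (l 188609462999) (b (l 3) (l 158007820775))) (b (l 16778000) (l 16775872))) (b (c (l 16774672) (l 16774648)) (c (b (l 16773448) (l 16772640)) (c (l 16773016) (l 16773000))))) (b (b (a (b (l 163376529847) (l 16776648)) (l 16777792)) (l 16775800)) (b (c (l 16773552) (b (l 16773912) (l 16773104))) (c (l 16771936) (l 16771872))))) (b (b (a (l 16776280) (l 16774488)) (a (c (l 16774048) (l 16773992)) (c (l 16772936) (c (l 16772856) (l 16772840))))) (a (b (c (l 16772440) (b (l 16772776) (l 16771960))) (l 16770760)) (l 16771752)))))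 (a (a (a (b (b (b (l 16773760) (l 16774264)) (c (l 16771832) (l 16771696))) (l 16769312)) (b (b (c (l 16772320) (b (l 16772568) (l 16771760))) (l 16770616)) (l 16768184))) (a (b (l 16771592) (l 16767048)) (b (l 16770128) (l 16765912)))) (b (a (a (l 16767984) (l 16766824)) (l 16765072)) (a (l 16764192) (b (l 16762680) (a (l 16761664) (l 16760520))))))), by decide +kernel⟩

def k30_pm_012_s : ∃ t, chk3 f_pm_012_s t 35 121 1 = true :=
  ⟨(a (a (b (a (b (c (l 16775976) (c (l 16775296) (l 16775592))) (a (c (l 16774864) (c (l 16774160) (l 16774104))) (b (c (l 16773520) (l 16774088)) (a (l 16772952) (l 16772392))))) (a (b (b (l 16774048) (a (l 16773488) (l 16772936))) (c (l 16771992) (l 16771952))) (b (b (a (l 16773200) (l 16772632)) (l 16772096)) (l 16770856)))) (a (a (b (b (c (l 16772976) (l 16773544)) (l 16772104)) (l 16770848)) (c (l 16770608) (l 16770520))) (b (l 16771072) (l 16768096)))) (b (a (b (l 16772128) (l 16769168)) (c (l 16767784) (l 16767728))) (a (c (l 16766712) (l 16766664)) (b (l 16765280)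 (a (l 16764200) (l 16763080)))))) (b (b (a (c (l 16766560) (l 16765144)) (a (c (l 16761840) (l 16761760)) (l 16759512))) (a (a (l 16764672) (c (l 16765440) (l 16762400))) (a (l 16760168) (l 16757920)))) (a (a (b (c (l 16765704) (l 16763040)) (l 16765656)) (a (c (l 16760624) (l 16760504)) (l 16759424))) (c (l 16756744) (l 16756560))))), by decide +kernel⟩

def k31_pm_012_s : ∃ t, chk3 f_pm_012_s t 35 61 1 = true :=
  ⟨(a (b (a (b (a (b (l 16768616) (l 16766928)) (b (l 16766416) (a (l 16765272) (l 16766152)))) (b (b (a (l 16765648) (l 16766136)) (a (a (l 16765344) (l 16764272)) (l 16762664))) (a (a (l 16765440) (l 16763056)) (l 16761384)))) (b (a (a (b (l 16764760) (l 16763104)) (b (l 16766280) (l 16761992))) (a (b (l 16762544) (l 16760872)) (l 16760592))) (c (a (l 16760064) (l 16763120)) (a (l 16760008) (l 16757744))))) (a (b (c (b (l 16763432) (l 16759096)) (a (l 16761032) (l 16758784))) (b (c (l 16758680) (l 16757256)) (a (a (l 16757176) (l 16756072)) (a (l 16754960) (l 16753848))))) (b (a (a (l 16757136)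 (l 16756032)) (b (l 16760472) (c (l 16753656) (l 16753408)))) (a (b (a (l 16754528) (l 16753416)) (l 16752176)) (a (l 16754032) (l 16750296)))))) (b (a (a (b (l 16758920) (l 16755568)) (b (l 16758000) (b (l 16754184) (l 16755128)))) (b (a (a (l 16760264) (l 16753912)) (c (l 16752424) (l 16752120))) (b (a (l 16751976) (l 16749760)) (a (l 16750288) (l 16748080))))) (a (a (b (b (a (l 16753568) (l 16752464)) (l 16751280)) (l 16751248)) (b (b (l 16750792) (l 16749056)) (l 16746408))) (b (c (l 16746928) (l 16748984)) (c (l 16743520) (l 16742768)))))), by decide +kernel⟩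

def k32_pm_012_s : ∃ t, chk3 f_pm_012_s t 34 62 1 = true :=
  ⟨(a (b (a (a (b (a (b (a (l 16774072) (l 16772552)) (l 14)) (b (l 16772048) (l 16769912))) (l 14)) (a (b (b (l 16770616) (b (l 16769264) (l 16769024))) (l 14)) (b (b (l 16769520) (b (l 16768824) (l 16767328))) (a (l 14) (l 16765464))))) (b (b (b (a (a (l 16768872) (l 16767776)) (a (l 16766744) (l 16765704))) (a (a (l 16769288) (l 16766944)) (l 16765392))) (a (c (l 16766936) (l 16766168)) (l 16765336))) (a (b (l 16765680) (l 16763824)) (b (l 16762184) (c (l 16761696) (l 16760280)))))) (a (l 14) (a (l 14) (b (b (l 16761008) (l 14)) (l 14))))) (b (a (b (a (c (l 16764064) (l 16762752)) (b (l 16761448) (l 16759640))) (a (a (b (l 16760552) (l 16758656)) (b (l 16759448) (l 16757552))) (b (a (l 16758336) (l 16759848)) (l 16758496)))) (b (b (a (l 16759248) (c (l 16759752) (l 16756992))) (a (c (l 16757512) (l 16757376)) (l 16757824))) (c (a (l 16757392) (l 16752592)) (a (l 16757104) (l 16752216))))) (b (a (c (b (l 16755232) (l 16753320)) (a (l 16757656)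 (l 16752776))) (a (a (l 16751304) (l 16750192)) (l 16749848))) (b (a (c (l 16751384) (l 16750840)) (l 16749304)) (a (l 14) (l 16744672)))))), by decide +kernel⟩

def k33_pm_012_s : ∃ t, chk3 f_pm_012_s t 35 62 1 = true :=
  ⟨(a (b (a (a (a (b (b (l 16760616) (l 16753528)) (l 16750712)) (b (l 16755960) (l 16749608))) (b (c (l 16751880) (l 16751512)) (l 16747944))) (a (b (a (l 16750000) (l 16748896)) (l 16745728)) (b (l 16747232) (l 16743520)))) (a (b (c (l 16745616) (l 16744888)) (c (l 16741792) (l 16740856))) (b (c (l 16741312) (l 16740400)) (c (l 16737512) (l 16736392))))) (b (a (b (c (l 16744312) (l 16743576)) (c (l 16740720) (l 16739792))) (b (c (l 16740032) (l 16739096)) (c (l 16736456) (l 16735336)))) (b (a (c (l 16737040) (l 16735920)) (c (l 16732792) (l 16731488))) (a (c (l 16733256) (l 16731952)) (c (l 16729032) (l 16727544)))))), by decide +kernel⟩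

def k34_pm_012_s : ∃ t, chk3 f_pm_012_s t 17 63 1 = true :=
  ⟨(a (a (l 14) (b (b (a (l 14) (c (l 16743432) (l 16741136))) (l 14)) (l 14))) (a (a (b (a (b (l 16738328) (l 14)) (b (l 16736152) (a (l 14) (l 16731448)))) (l 14)) (b (b (c (l 16734904) (l 16732280)) (c (b (l 16730584) (l 16728536)) (l 16728040))) (b (c (l 16725400) (l 16723680)) (l 14)))) (b (b (a (c (b (l 16730344) (l 16728368)) (l 16727864)) (b (l 16725272) (l 16728504))) (c (a (l 16725352) (l 16721168)) (a (l 16723664) (l 16719304)))) (b (c (a (l 16721216) (l 16717048)) (a (l 16719328) (l 16714992))) (c (a (l 16716928) (l 16712784)) (a (l 16714824) (l 16710512))))))), by decide +kernel⟩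

def k35_pm_012_s : ∃ t, chk3 f_pm_012_s t 36 28 1 = true :=
  ⟨(b (l 3) (a (l 3) (b (a (l 3) (b (l 3) (a (l 3) (a (l 3) (b (l 3) (a (c (l 242833425111) (b (l 3) (l 220821717271))) (b (l 240149070247) (a (l 70497862455) (l 16776776))))))))) (a (b (l 3) (a (l 3) (b (c (l 275582549079) (a (l 3) (b (l 3) (l 248739004999)))) (b (a (l 3) (a (l 182167012007) (l 16778160))) (a (a (l 3) (a (l 224579813607) (l 109152568055))) (l 16777232)))))) (a (b (b (l 3) (a (l 300278613175) (a (b (l 3) (a (l 154786595447) (l 16777680))) (b (a (l 194515042743) (l 81772151591)) (l 16776544))))) (a (a (b (b (l 249275875783) (a (l 16777776) (l 16776808))) (l 16775832)) (b (a (b (l 116668760823) (l 16776488)) (l 16777200)) (l 16775192))) (b (a (l 16776064) (l 16775416)) (l 16775544)))) (a (b (b (a (a (l 269676970631) (b (l 3) (l 113984406279))) (b (a (l 278266904983) (l 147807273655)) (l 16777408))) (a (l 16777096) (l 16775632))) (b (l 16775112) (l 16772952))) (b (c (b (l 16777472) (l 16774688)) (b (c (l 16777128) (b (l 16777488)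 (l 16775752))) (l 16774632))) (b (l 16774488) (l 16771688))))))))), by decide +kernel⟩

def k36_pm_012_s : ∃ t, chk3 f_pm_012_s t 148 28 1 = true :=
  ⟨(a (b (l 3) (a (b (b (l 3) (a (b (l 285783098199) (b (a (a (l 133848629799) (l 16777760)) (l 16776872)) (l 16776296))) (b (b (l 297057387095) (a (c (l 16777536) (l 131701146215)) (l 16777608))) (l 16776344)))) (b (b (a (l 16775184) (l 16774536)) (l 16774200)) (b (l 16773216) (c (l 16771784) (b (c (l 16770752) (l 16770672)) (l 16772616)))))) (b (a (b (l 3) (b (b (b (l 169818980951) (l 16777672)) (l 16776472)) (l 16775368))) (b (b (l 3) (b (l 3) (a (l 191293817335) (a (l 102173246039) (l 16777032))))) (b (a (l 16776344) (l 16776024)) (l 16774720)))) (b (b (a (l 16773896) (l 16773256)) (l 16772768)) (b (b (l 16771008) (a (l 16770584) (l 16769968))) (c (l 16769240) (l 16771760))))))) (b (a (l 3) (a (l 3) (b (l 3) (b (l 3) (b (l 3) (a (l 309942289207) (b (l 3) (b (l 3) (l 110763180503))))))))) (a (a (b (b (b (l 3) (b (a (l 225653555463) (a (l 132774887991)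 (l 66739765863))) (l 16776632))) (b (l 16776192) (l 16774080))) (b (c (l 16771936) (l 16772512)) (b (b (l 16771376) (l 16769344)) (l 16768256)))) (b (b (b (b (l 3) (b (l 270213841271) (a (l 222969200855) (l 16777080)))) (b (l 16777360) (l 16775984))) (b (l 16775552) (l 16773440))) (b (b (l 16771992) (b (l 16770896) (l 16771480))) (l 16770992)))) (b (b (b (b (a (a (l 284709355943) (a (l 196662526359) (l 124184953383))) (a (a (l 57612960311) (l 16776928)) (l 16776688))) (a (a (l 16777592) (l 16776616)) (l 16776128))) (c (l 16776056) (a (l 16775688) (l 16775032)))) (a (b (l 16774912) (l 16772816)) (b (l 16774272) (l 16772176)))) (b (b (a (l 16771368) (b (l 16771096) (l 16771680))) (b (a (l 16771584) (l 16770976)) (l 16770568))) (c (l 16767528) (l 16770008))))))), by decide +kernel⟩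

def k37_pm_012_s : ∃ t, chk3 f_pm_012_s t 149 56 1 = true :=
  ⟨(b (l 3) (a (b (a (l 3) (a (l 3) (b (l 3) (b (l 3) (l 284709356071))))) (a (b (c (l 280951258983) (b (l 3) (c (l 270213841623) (a (l 3) (l 255181455751))))) (b (a (a (l 3) (a (l 264845132087) (l 181630140871))) (a (a (a (l 130627404247) (l 90898956855)) (l 43117445767)) (l 16776808))) (a (a (b (l 127943049687) (l 16776896)) (l 16776744)) (l 16776256)))) (b (b (b (a (l 3) (a (l 230485393687) (l 16777744))) (a (l 246591521095) (l 16777552))) (a (a (b (l 196125655415) (l 16777008)) (l 16777512)) (l 16776360))) (c (l 16775632) (a (l 16775936) (l 16775272)))))) (a (b (b (c (l 310479160647) (l 321753448327)) (b (a (l 299204870743) (a (b (l 295983644967) (l 86067118631)) (a (b (l 153712853335) (l 16776912)) (l 16777584)))) (a (a (b (l 261623906551) (l 16777440)) (b (l 75329700343) (l 16776784))) (l 16776464)))) (b (c (l 16775736) (a (l 16776376) (l 16775376))) (a (l 16775272) (l 16775256)))) (b (b (b (a (l 3) (a (b (l 3) (c (l 16777208) (l 134385500631)))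 (b (c (l 16777216) (l 144586047975)) (l 16776912)))) (a (a (a (l 233169748199) (b (l 3) (l 16777128))) (a (b (l 190220075255) (l 16776960)) (l 16777624))) (l 16776880))) (c (l 16776472) (a (l 16776472) (l 16775464)))) (c (l 16775152) (b (l 16775016) (l 16772912))))))), by decide +kernel⟩

def k38_pm_012_s : ∃ t, chk3 f_pm_012_s t 149 57 1 = true :=
  ⟨(a (a (b (b (b (c (l 16775520) (a (l 16775824) (l 16775160))) (c (l 16774096) (l 16774696))) (a (b (l 16772960) (l 16771512)) (b (l 16772288) (l 16772152)))) (b (b (b (a (l 16770424) (l 16771080)) (c (l 16769472) (l 16770656))) (l 16768312)) (l 16768784))) (b (b (c (l 16774640) (b (l 16774808) (l 16772704))) (b (l 16772272) (b (a (l 16770536) (l 16771184)) (a (l 16771128) (l 16769160))))) (b (a (l 16770664) (l 16770008)) (l 16764872)))) (b (a (b (b (a (l 16774480) (l 16772504)) (l 16772704)) (b (c (l 16771952) (b (l 16771568) (l 16771848))) (l 16770512))) (b (b (l 16772808) (a (l 16771704) (b (l 16770080) (l 16769376)))) (a (b (l 16770288) (l 16767560))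 (l 16770232)))) (b (c (l 16765864) (l 16768344)) (l 16765592)))), by decide +kernel⟩

def k39_pm_012_s : ∃ t, chk3 f_pm_012_s t 150 112 1 = true :=
  ⟨(b (a (l 3) (a (b (l 3) (b (a (l 3) (a (b (l 3) (l 243907166391)) (b (l 248202133703) (c (l 16777080) (l 16777408))))) (a (a (c (l 255718326631) (c (l 263234519367) (l 267529486647))) (b (l 238538457271) (a (l 16777472) (l 16776976)))) (a (a (b (l 16777400) (l 16776808)) (l 16776816)) (l 16776560))))) (b (b (a (l 3) (a (c (l 276119421335) (l 285783097703)) (b (l 262697648359) (a (a (l 142438564167) (l 16777152)) (l 16777024))))) (a (a (c (l 270750712199) (l 279340646759)) (b (l 256255197399) (c (l 16777096) (c (l 16777096) (l 16777424))))) (a (a (b (a (l 138143596855) (l 16777144)) (l 16776840)) (l 16776848)) (l 16776584)))) (a (b (a (a (a (b (l 124721824071) (l 16776872)) (l 16777288)) (l 16776832)) (l 16776576)) (l 16776368)) (c (l 16775712) (c (l 16775704) (l 16776016))))))) (a (a (b (l 3) (b (a (l 3) (a (a (l 289541194071) (b (l 3) (l 132774887815)))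 (b (a (l 283098742935) (l 142975435159)) (l 16776984)))) (a (a (a (l 273435066679) (b (l 3) (l 16777440))) (b (a (l 248739004615) (l 120963727751)) (l 16776952))) (c (l 16776624) (l 16776944))))) (a (b (b (l 3) (a (a (l 304036708727) (b (l 3) (l 156934078807))) (b (a (l 303499837671) (l 166060884327)) (l 16777672)))) (c (l 16776960) (a (b (l 16776816) (l 16776104)) (l 16776120)))) (b (a (a (b (l 316384739735) (l 16777424)) (b (b (l 3) (l 176261431639)) (l 16776768))) (b (b (a (l 3) (l 186998849847)) (l 16777368)) (l 16776512))) (c (l 16775624) (l 16775936))))) (b (a (b (a (a (b (l 16777464) (l 16776704)) (l 16776536)) (l 16776352)) (a (l 16776328) (l 16775320))) (c (l 16775312) (a (l 16775296) (l 16774936)))) (a (c (l 16775920) (a (l 16775576) (l 16774232))) (c (l 16773256) (c (l 16773216) (l 16773840))))))), by decide +kernel⟩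

def k40_pm_012_s : ∃ t, chk3 f_pm_012_s t 150 113 1 = true :=
  ⟨(b (b (c (a (a (l 16776392) (l 16774552)) (c (l 16773848) (l 16773168))) (a (a (a (c (l 16776224) (l 16776544)) (l 16776200)) (c (l 16774528) (l 16775160))) (a (l 16773720) (l 16772432)))) (a (a (a (l 16775456) (l 16774784)) (a (l 16774104) (l 16774088))) (a (a (l 16772096) (l 16771416)) (a (l 16770744) (l 16770720))))) (b (a (c (l 16773696) (a (l 16773000) (l 16771640))) (b (a (l 16770688) (a (l 16769672) (l 16769008))) (c (a (l 16770016) (l 16768688)) (a (l 16769912) (l 16768592))))) (a (a (l 16772904) (a (l 16770584) (a (l 16770080) (l 16770400)))) (a (b (a (l 16769592) (l 16768936)) (l 16768576)) (l 16767608))))), by decide +kernel⟩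

def k41_pm_012_s : ∃ t, chk3 f_pm_012_s t 151 56 1 = true :=
  ⟨(a (a (b (b (b (a (a (b (a (b (a (l 146733531463) (l 16777160)) (l 16776856)) (l 16777184)) (l 16776240)) (b (l 16776600) (l 16775896))) (c (l 16775736) (c (l 16775728) (l 16776000)))) (a (b (l 16775696) (l 16774672)) (b (l 16775336) (l 16773984)))) (b (c (l 16773296) (c (l 16773264) (l 16773560))) (c (l 16771896) (l 16772160)))) (a (b (b (l 16771456) (b (l 16769736) (l 16769040))) (l 16768632)) (b (b (l 16770120) (b (l 16768904) (l 16768376))) (l 16768008)))) (b (b (b (a (c (l 16775056) (a (l 16775528) (l 16775184))) (b (l 16775024) (l 16774008))) (c (l 16774632) (a (l 16773952) (l 16773584)))) (b (c (l 16771936) (c (l 16771888) (l 16772504))) (a (l 16771504) (l 16770824)))) (b (a (b (c (l 16769488) (b (l 16769736) (l 16769032))) (l 16768064)) (b (b (a (l 16769280) (l 16768944)) (l 16768432)) (l 16767416))) (l 16767248)))) (a (b (b (b (c (l 16773992) (a (l 16773968) (l 16773600))) (c (l 16771960) (c (l 16771912) (l 16772528)))) (a (b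 (l 16771536) (c (l 16769520) (b (l 16769784) (l 16769080)))) (b (l 16770856) (b (a (l 16769320) (l 16768984)) (l 16768472))))) (b (b (c (l 16767856) (l 16768400)) (l 16766496)) (l 16765864))) (b (b (b (c (l 16771968) (c (l 16771928) (l 16772216))) (c (l 16770592) (l 16771176))) (a (b (c (l 16769552) (a (l 16769640) (l 16769288))) (c (l 16768200) (l 16768112))) (b (b (l 16769176) (l 16768504)) (l 16767520)))) (b (c (l 16766016) (l 16768456)) (l 16764664))))), by decide +kernel⟩

def k42_pm_012_s : ∃ t, chk3 f_pm_012_s t 75 57 1 = true :=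
  ⟨(b (b (b (a (b (a (a (l 16770520) (a (l 16769512) (l 16768856))) (l 16767224)) (a (a (a (l 16770136) (l 16769464)) (l 16768488)) (l 16766552))) (a (l 16767032) (l 16763304))) (a (a (a (a (a (l 16770544) (l 16768912)) (l 16768416)) (l 16767440)) (l 16765544)) (a (l 16763080) (l 16763304)))) (a (c (a (l 16766096) (l 16763632)) (a (l 16768568) (l 16763416))) (a (a (l 16761680) (l 16760480)) (a (l 16761904) (l 16758104))))) (a (a (b (l 16765224) (l 16763112)) (b (l 16763416) (l 16760680))) (b (c (a (l 16762504) (l 16756256)) (l 16759632)) (a (l 16758296) (b (l 16754008) (a (l 16753240) (l 16752120))))))), by decide +kernel⟩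

def k43_pm_012_s : ∃ t, chk3 f_pm_012_s t 72 58 1 = true :=
  ⟨(b (a (l 3) (b (l 3) (b (a (l 3) (a (l 297594258631) (a (b (l 3) (l 107541955639)) (b (l 141901693927) (l 16776584))))) (a (c (l 266455746135) (a (l 3) (l 251960230727))) (a (b (a (l 238538457511) (l 16778360)) (l 16777912)) (l 16775744)))))) (a (b (a (l 3) (a (l 3) (b (l 3) (a (l 229411652215) (b (l 239075328311) (l 16776912)))))) (a (b (l 290078066407) (a (l 231022265175) (a (a (l 142438564871) (l 89825215655)) (l 16777944)))) (b (a (b (l 196125655399) (c (l 16776888) (l 16778184))) (l 16777048)) (c (l 16775144) (l 16775104))))) (b (a (b (b (a (l 3) (a (l 155323466455) (l 16776768))) (a (a (l 289004323415) (l 116131890071)) (l 16776312))) (a (c (l 16779008) (c (l 16777680) (l 16777664))) (l 16775152))) (a (b (l 16775448) (l 16773904)) (b (l 16774200) (l 16772648)))) (b (a (c (l 16774248) (l 16774176)) (a (l 16773000) (b (l 16772136) (l 16770728)))) (a (a (l 16773288) (a (l 16772360) (l 16772216))) (a (b (l 16771192) (l 16770440)) (l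 16769592))))))), by decide +kernel⟩

def k44_pm_012_s : ∃ t, chk3 f_pm_012_s t 73 58 1 = true :=
  ⟨(b (a (b (b (a (a (l 3) (a (l 280414389063) (b (l 302426096231) (a (l 129016791831) (l 16776960))))) (a (a (b (a (l 173577077351) (l 16777080)) (l 16776488)) (l 16776232)) (l 16775928))) (a (b (a (l 244980908679) (a (l 16778296) (l 16776360))) (a (a (l 181093270183) (l 16776856)) (l 16775912))) (a (l 16776328) (l 16773752)))) (b (a (a (a (l 16777648) (l 16775704)) (l 16774760)) (c (l 16772912) (l 16774096))) (a (c (l 16773896) (l 16774448)) (a (l 16772608) (b (a (l 16771392) (l 16770760)) (l 16771648)))))) (b (b (a (c (l 16773400) (l 16774616)) (a (c (l 16771504) (l 16772672)) (b (a (l 16770880) (l 16770256)) (l 16772464)))) (b (a (l 16773536) (c (l 16771096) (a (l 16772872) (l 16769016)))) (a (c (l 16772832) (a (l 16772024) (l 16770896))) (l 16770304)))) (a (b (a (a (l 16772408) (b (l 16771016) (l 16770280))) (a (l 16771064) (l 16769416))) (c (l 16768944) (l 16768776))) (c (l 16767216) (l 16767056)))))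 (a (a (a (b (b (l 16772936) (b (l 16771776) (l 16771504))) (b (l 16771200) (l 16768376))) (b (c (b (l 16771736) (l 16770248)) (b (l 16772552) (l 16770728))) (l 16767912))) (b (a (b (b (l 16771624) (l 16770072)) (l 16768944)) (l 16768464)) (c (l 16766176) (l 16765976)))) (a (b (l 16767952) (l 16766296)) (b (l 16766832) (l 16763880))))), by decide +kernel⟩

def k45_pm_012_s : ∃ t, chk3 f_pm_012_s t 36 59 1 = true :=
  ⟨(a (b (a (b (a (b (a (a (a (l 79087797479) (l 16776736)) (l 16776296)) (l 16775400)) (c (l 16774488) (l 16774440))) (a (b (l 16774192) (l 16773944)) (b (l 16772968) (a (l 16771720) (l 16771120))))) (b (a (a (l 16773512) (a (l 16772608) (l 16772000))) (a (a (l 16771408) (l 16770800)) (l 16769880))) (a (a (a (l 16772248) (l 16771664)) (l 16770768)) (l 16768936)))) (b (a (b (a (a (l 16772032) (l 16772080)) (a (l 16770824) (l 16770208))) (c (l 16769656) (l 16769512))) (c (l 16767992) (l 16767816))) (c (a (l 16767352) (l 16764952)) (a (l 16767192) (l 16764768))))) (a (b (c (a (l 16769072) (l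 16766664)) (a (l 16768984) (l 16766528))) (c (a (l 16765928) (l 16763552)) (a (l 16765824) (l 16763392)))) (b (c (a (l 16764272) (l 16761896)) (a (l 16764104) (l 16761688))) (a (c (l 16761176) (l 16760968)) (b (l 16759504) (l 16758024)))))) (b (a (b (c (a (l 16765584) (l 16763184)) (c (l 16766864) (l 16766728))) (c (a (l 16762560) (l 16760176)) (a (l 16762352) (l 16759952)))) (b (a (c (l 16760776) (l 16760568)) (c (l 16759680) (l 16758160))) (a (b (l 16758448) (l 16756976)) (b (l 16756104) (l 16754712))))) (a (a (b (b (l 16760200) (l 16758672)) (c (l 16756584) (l 16756416))) (b (b (l 16757832) (l 16756400)) (l 16754248))) (b (c (l 16759112) (l 16753672)) (l 16756120))))), by decide +kernel⟩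

def k46_pm_012_s : ∃ t, chk3 f_pm_012_s t 37 29 1 = true :=
  ⟨(b (a (b (b (a (a (c (l 16770288) (l 16769848)) (c (l 16765240) (l 16767720))) (a (l 16765272) (l 16762776))) (a (a (l 16767320) (l 16764872)) (a (l 16759776) (l 16757320)))) (a (a (b (l 16764400) (l 16761464)) (b (l 16761968) (b (l 16757152) (c (l 16755784) (l 16755608))))) (b (a (l 16759512) (b (l 16755184) (l 16756448))) (a (a (b (l 16755336) (l 16753968)) (l 16756144)) (l 16751848))))) (b (a (a (b (l 16760328) (b (l 16755608) (l 16756840))) (a (b (l 16755896) (c (l 16753368) (l 16753016))) (b (l 16754704) (l 16757304)))) (b (b (a (a (l 16754216) (l 16753056)) (l 16751408)) (a (a (l 16752872) (l 16751768)) (l 16750152))) (c (l 16754920) (l 16754272)))) (b (a (a (c (l 16752456) (l 16752088)) (l 16755288)) (l 16752024)) (a (c (l 16754104) (l 16748264)) (l 16744168))))) (a (a (b (b (b (a (l 16759256) (l 16754328)) (a (l 16755224) (l 16752968))) (l 16757288)) (b (l 16754512) (l 16754296))) (b (b (l 16754240) (l 16752848)) (b (l 16744832)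 (l 16742008)))) (b (a (b (l 16751136) (l 16743176)) (b (l 16741504) (l 16738800))) (a (b (l 16740416) (a (l 16738696) (l 16736512))) (b (a (l 16737128) (l 16734952)) (l 16733248)))))), by decide +kernel⟩

def k47_pm_012_s : ∃ t, chk3 f_pm_012_s t 18 30 1 = true :=
  ⟨(a (b (a (b (a (b (a (l 16762728) (b (l 16761136) (c (l 16759664) (l 16759496)))) (a (b (c (l 16760408) (l 16760280)) (l 16758816)) (l 16757320))) (a (b (b (l 16758824) (l 16757344)) (l 16755056)) (b (l 16755824) (l 16752800)))) (a (a (b (l 16756456) (l 16753264)) (b (l 16754208) (l 16751032))) (a (b (l 16751960) (a (l 16749360) (l 16748248))) (b (l 16749720) (b (l 16747368) (l 16745784)))))) (b (a (b (l 16758664) (l 16752064)) (b (l 16747960) (c (l 16745328) (l 16749952)))) (a (a (b (l 16752728) (l 16744360)) (b (l 16745264) (l 16742152))) (b (a (l 16743056) (l 16740848)) (l 16738856))))) (a (b (a (a (b (b (l 16750840) (l 16749200)) (l 16746704)) (b (b (l 16748616) (l 16746984)) (l 16744496))) (a (b (l 16745584) (l 16742288)) (b (l 16743376)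 (l 16740088)))) (b (a (c (l 16742624) (l 16741864)) (c (l 16738344) (l 16737368))) (a (c (l 16739240) (l 16738288)) (c (l 16734976) (l 16733824))))) (a (b (b (l 16742688) (l 16739416)) (b (l 16734752) (c (l 16730744) (l 16729360)))) (b (b (l 16735680) (l 16732424)) (b (l 16729088) (l 16728288)))))) (b (b (a (a (b (a (l 16744640) (l 16742432)) (a (l 16741680) (l 16739488))) (b (a (l 16740232) (l 16738024)) (l 16736192))) (a (b (l 16734744) (l 16731824)) (b (l 16730400) (l 16727488)))) (b (a (a (l 16737568) (l 16733192)) (a (l 16728840) (l 16724512))) (a (a (l 16734480) (l 16730120)) (a (l 16725776) (l 16721472))))) (a (b (a (b (l 16731312) (l 16728072)) (b (l 16726976) (l 16723752))) (b (a (l 16727376) (l 16720448)) (a (c (l 16722360) (l 16720472)) (l 16717072)))) (b (a (b (l 16722648) (l 16719448)) (b (l 16718360) (l 16715176))) (a (b (l 16716168) (l 16712808)) (b (l 16711912) (l 16708576))))))), by decide +kernel⟩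

def k48_pm_012_s : ∃ t, chk3 f_pm_012_s t 18 31 1 = true :=
  ⟨(b (b (a (a (b (a (c (l 16735768) (l 16734640)) (c (l 16731528) (l 16730192))) (c (a (l 16732216) (l 16728000)) (a (l 16730912) (l 16726488)))) (b (a (l 16727792) (l 16722168)) (a (l 16725504) (l 16718592)))) (a (a (b (l 16720496) (l 16719568)) (b (l 16713616) (l 16710088))) (c (b (l 16712592) (l 16710480)) (b (l 16706024) (l 16702472))))) (a (a (a (b (c (l 16728576) (l 16727088)) (l 16726560)) (b (l 16726096) (c (l 16720656) (l 16718792)))) (a (b (l 16724432) (c (l 16716496) (l 16714432))) (b (l 16714920) (c (l 16712368) (l 16710088))))) (a (b (c (a (l 16711928) (l 16707832)) (a (l 16709576) (l 16705256))) (c (a (l 16708264) (l 16704192)) (a (l 16705760) (l 16701456)))) (b (c (a (l 16703760) (l 16699712)) (a (l 16700960) (l 16696680))) (c (c (l 16699008) (l 16697296)) (l 16695056)))))) (b (a (a (b (c (a (l 16720984) (l 16716824)) (a (l 16719128) (l 16714776))) (c (a (l 16717008) (l 16712872)) (l 16718048))) (c (b (c (l 16711304) (l 16709992))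 (c (l 16707440) (l 16706024))) (b (l 16713528) (l 16704176)))) (c (a (b (a (l 16704496) (l 16700440)) (c (l 16699432) (l 16697776))) (b (c (l 16695336) (l 16693536)) (c (l 16691552) (l 16689648)))) (a (b (l 16699680) (l 16695616)) (b (l 16691168) (l 16687152))))) (a (a (b (c (c (l 16711512) (l 16710216)) (l 16713760)) (c (a (l 16708664) (l 16704560)) (a (l 16706216) (l 16701920)))) (c (a (b (l 16704696) (l 16700488)) (b (l 16700624) (l 16696432))) (b (l 16699928) (l 16695520)))) (c (a (b (c (l 16695472) (l 16693704)) (a (l 16692400) (l 16688408))) (a (b (l 16688584) (l 16684456)) (b (l 16684632) (l 16680520)))) (a (b (l 16691400) (l 16687032)) (b (l 16682984) (l 16678656))))))), by decide +kernel⟩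

def k49_pm_012_s : ∃ t, chk3 f_pm_012_s t 76 28 1 = true :=
  ⟨(a (a (b (b (a (b (b (c (l 16770592) (l 16771024)) (a (b (l 16769880) (l 16769184)) (b (l 16769192) (a (l 16768680) (l 16768352))))) (b (a (a (b (l 16768672) (l 16768000)) (l 16768016)) (l 16767560)) (l 16766616))) (a (b (b (c (l 16769568) (l 16769496)) (c (l 16768280) (c (l 16768184) (l 16768016)))) (l 16767648)) (b (b (b (l 16769192) (a (l 16768688) (l 16768368))) (l 16767592)) (l 16767056)))) (b (a (l 16766032) (l 16764848)) (b (l 16765496) (l 16763552)))) (b (b (c (l 16761824) (l 16764008)) (a (l 16756936) (l 16755776))) (b (c (b (l 16754656) (l 16753344)) (l 16753424)) (c (b (l 16752080) (l 16750856)) (l 16753432))))) (b (b (b (b (a (a (b (a (l 16768688) (l 16768384)) (l 16767912)) (l 16767624)) (l 16766752)) (c (l 16766232) (l 16768640))) (c (l 16765736) (l 16765448))) (b (c (c (l 16764704) (l 16764504)) (l 16765528)) (c (l 16762112) (l 16759008)))) (b (b (c (l 16756952) (l 16756384)) (l 16756680)) (b (b (a (l 16752656) (l 16751552))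 (l 16750848)) (l 16749000))))) (b (b (b (c (a (l 16766216) (l 16764992)) (a (l 16765560) (l 16764528))) (a (c (l 16764152) (l 16764384)) (c (l 16759992) (l 16759424)))) (a (c (b (l 16759752) (l 16757272)) (b (l 16759232) (l 16756656))) (b (a (l 16757792) (l 16756680)) (l 16757336)))) (b (b (a (l 16757016) (a (l 16752720) (b (l 16752248) (l 16750992)))) (a (c (b (l 16752840) (l 16751608)) (b (l 16752072) (l 16750784))) (c (l 16750200) (l 16749208)))) (c (b (l 16754072) (l 16746424)) (b (l 16747792) (l 16745248)))))), by decide +kernel⟩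

def k50_pm_012_s : ∃ t, chk3 f_pm_012_s t 77 28 1 = true :=
  ⟨(b (b (a (b (a (c (l 16761448) (l 16759544)) (c (l 16758592) (l 16757200))) (c (a (l 16757792) (l 16755632)) (a (l 16757088) (l 16754784)))) (a (c (b (c (l 16756064) (l 16755632)) (c (l 16753832) (l 16753336))) (b (l 16754952) (l 16752560))) (b (c (c (l 16754120) (l 16753600)) (l 16752784)) (a (b (l 16752120) (c (c (l 16751512) (l 16751256)) (l 16750344))) (b (c (a (l 16751960) (l 16751488)) (l 16750480)) (a (l 16750200) (l 16749704))))))) (a (a (a (b (l 16755552) (l 16753056)) (b (l 16754440) (b (l 16752584) (l 16751336)))) (b (a (l 16753344) (c (l 16752776) (l 16751760))) (c (b (a (l 16752008) (l 16751016)) (l 16750352)) (b (l 16750448) (l 16749208))))) (a (a (b (b (l 16751824) (a (l 16750888) (l 16750376))) (l 16748856)) (b (b (b (a (l 16751344) (l 16750832)) (l 16750496)) (l 16749616)) (l 16747832))) (c (b (l 16749368) (l 16747048)) (b (l 16747992) (l 16745520)))))) (b (b (a (a (a (b (l 16751168) (l 16749952)) (l 16749528)) (l 16747984))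 (a (l 16751168) (l 16749096))) (a (c (l 16749856) (l 16745928)) (c (l 16745880) (l 16741552)))) (b (a (c (l 16744840) (l 16743392)) (c (l 16740816) (l 16738984))) (a (c (l 16742400) (l 16740816)) (l 16742608))))), by decide +kernel⟩

def k51_pm_012_s : ∃ t, chk3 f_pm_012_s t 38 29 1 = true :=
  ⟨(b (a (b (b (a (l 16751496) (l 16748560)) (a (l 16745032) (l 16740760))) (a (c (l 16747016) (l 16745784)) (b (l 16738160) (a (l 16736592) (l 16734456))))) (b (b (a (l 16739064) (c (l 16735800) (l 16733760))) (a (l 16736480) (a (l 16733264) (c (l 16732232) (l 16730008))))) (a (b (a (l 16734952) (l 16732792)) (a (l 16732312) (l 16730192))) (b (c (l 16730744) (l 16728480)) (l 16727016))))) (a (b (a (b (a (l 16738240) (l 16736080)) (a (l 16735528) (l 16733384))) (b (a (l 16733928) (l 16731808)) (l 16730192))) (a (b (l 16731728) (l 16728936)) (c (l 16727184) (l 16725024)))) (b (a (c (l 16728416) (l 16726176)) (c (l 16724344) (l 16726984))) (a (c (l 16723096) (l 16720584)) (c (l 16719000) (l 16716160)))))), by decide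 +kernel⟩

def k52_pm_012_s : ∃ t, chk3 f_pm_012_s t 78 28 1 = true :=
  ⟨(b (a (a (b (a (b (b (l 16752392) (b (l 16751552) (a (l 16751232) (l 16750736)))) (b (c (l 16750776) (l 16749424)) (l 16748944))) (b (c (b (c (b (l 16752640) (l 16752104)) (l 16751744)) (b (l 16751232) (l 16750672))) (b (l 16750752) (l 16749568))) (c (l 16749264) (l 16747768)))) (c (b (l 16747440) (l 16745096)) (b (l 16745856) (l 16743368)))) (b (b (b (a (a (b (a (l 16751088) (l 16750848)) (l 16750400)) (l 16750184)) (l 16749440)) (c (l 16749536) (l 16747992))) (c (l 16747824) (l 16746176))) (c (b (l 16745496) (l 16743120)) (b (l 16743712) (l 16741208))))) (a (b (c (b (l 16750824) (l 16745896)) (b (l 16746488) (l 16744048))) (b (a (l 16743088) (l 16742064)) (l 16742736))) (b (c (b (l 16746288) (l 16743952)) (b (l 16744376) (l 16741920))) (b (l 16744456) (l 16743280))))) (b (a (a (b (l 16741776) (l 16739272)) (b (l 16739696) (l 16737176))) (c (b (l 16740304) (l 16735176)) (b (l 16740624) (l 16732776)))) (a (a (b (l 16736736) (l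 16734168)) (b (l 16734616) (a (l 16732576) (l 16736760)))) (b (a (c (l 16733688) (l 16731264)) (c (b (l 16732272) (l 16731024)) (b (l 16729720) (l 16728416)))) (a (b (l 16733192) (l 16729312)) (l 16727896)))))), by decide +kernel⟩

def k53_pm_012_s : ∃ t, chk3 f_pm_012_s t 79 28 1 = true :=
  ⟨(b (b (a (c (a (b (l 16744352) (l 16741992)) (b (l 16742392) (l 16739992))) (a (b (l 16742256) (l 16739784)) (b (l 16740128) (l 16737632)))) (a (c (b (l 16740384) (l 16737952)) (b (l 16737984) (l 16735456))) (c (b (c (l 16738912) (l 16737736)) (l 16735864)) (b (l 16735816) (l 16733264))))) (b (a (c (a (l 16739584) (l 16737544)) (a (l 16737264) (l 16735088))) (a (c (l 16735472) (l 16732896)) (c (l 16733352) (l 16730680)))) (a (c (a (l 16737128) (l 16735056)) (a (l 16734704) (l 16732504))) (b (a (l 16732304) (a (l 16730680) (c (a (l 16731184) (l 16730664)) (l 16733416)))) (a (c (c (l 16732928) (l 16731680)) (l 16729640)) (a (c (a (l 16730992) (l 16730480)) (l 16727984)) (l 16728392))))))) (b (a (b (a (c (l 16734632)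 (l 16732104)) (a (l 16731784) (b (l 16731352) (a (l 16735576) (a (l 16735168) (l 16733592)))))) (b (a (c (l 16732736) (l 16730136)) (a (b (l 16735416) (l 16729544)) (l 16728824))) (a (c (a (l 16731992) (l 16730968)) (a (l 16729376) (l 16728280))) (l 16733360)))) (a (b (c (b (a (l 16734200) (c (l 16731184) (l 16729896))) (c (l 16730520) (l 16729200))) (b (a (l 16728880) (l 16727784)) (l 16727056))) (c (l 16728128) (l 16725168))) (c (b (l 16728520) (l 16726184)) (b (l 16725568) (l 16723048))))) (a (a (c (b (b (l 16735512) (l 16729096)) (l 16727304)) (b (l 16726912) (l 16724360))) (b (c (l 16727728) (l 16724768)) (l 16723800))) (c (a (b (l 16725760) (l 16723352)) (b (l 16723800) (l 16721376))) (b (a (l 16722632) (l 16720496)) (a (l 16720056) (l 16717912))))))), by decide +kernel⟩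

def k54_pm_012_s : ∃ t, chk3 f_pm_012_s t 39 29 1 = true :=
  ⟨(a (b (b (a (b (a (c (l 16732720) (l 16730432)) (c (l 16730712) (l 16728232))) (l 16728000)) (c (b (l 16727784) (l 16725320)) (b (l 16724992) (l 16722384)))) (b (a (l 16725432) (l 16726528)) (a (l 16728056) (c (l 16720248) (l 16717064))))) (b (b (a (l 16720160) (c (l 16717632) (l 16714352))) (a (l 16717464) (l 16713280))) (a (c (l 16714936) (l 16711768)) (c (l 16710912) (l 16707400))))) (b (b (b (a (a (l 16723344) (l 16721272)) (c (a (l 16720888) (l 16718904)) (a (l 16717456) (l 16715312)))) (a (a (l 16720784) (l 16718712)) (a (l 16721872) (a (l 16715080) (l 16714040))))) (a (a (b (l 16718192) (l 16720800)) (b (l 16716104) (l 16713464))) (a (b (l 16714024) (l 16716616)) (b (l 16711936) (a (l 16709808) (l 16708760)))))) (b (a (a (b (l 16712880) (l 16710160)) (b (l 16710784) (l 16708056))) (c (b (l 16709584) (l 16706888)) (b (l 16705664) (l 16702904)))) (b (a (c (l 16708248) (l 16704464)) (l 16712624)) (a (l 16708792) (l 16699336)))))),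 by decide +kernel⟩

def k55_pm_012_s : ∃ t, chk3 f_pm_012_s t 19 30 1 = true :=
  ⟨(a (b (a (b (a (c (l 16725728) (l 16723648)) (c (l 16721640) (l 16719216))) (a (c (l 16719944) (l 16717592)) (c (l 16715856) (l 16713184)))) (b (a (c (l 16717552) (l 16714792)) (c (l 16713448) (l 16710392))) (a (c (l 16711768) (l 16708792)) (c (l 16707664) (l 16704424))))) (a (b (a (c (l 16716504) (l 16711280)) (b (l 16709856) (l 16706704))) (a (b (l 16707680) (l 16704360)) (b (l 16703480) (l 16700176)))) (b (c (a (l 16705728) (l 16701648)) (a (l 16702552) (l 16698224))) (c (b (l 16709480) (l 16706264)) (a (l 16696040) (l 16691768)))))) (b (a (b (a (c (l 16709368) (l 16706016)) (c (l 16705320) (l 16701664))) (c (a (l 16703592) (l 16699536)) (a (l 16700072) (l 16695752)))) (b (a (c (l 16701264) (l 16697328)) (c (l 16697144) (l 16693000))) (a (c (l 16695472) (l 16691440)) (l 16704952)))) (a (b (c (a (l 16697584) (l 16693544)) (a (l 16693912) (l 16689624))) (b (c (l 16690904) (l 16687008)) (c (l 16698208) (l 16683752))))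 (a (b (c (l 16689488) (l 16685360)) (b (l 16682696) (c (l 16681712) (l 16677440)))) (b (c (l 16685376) (l 16681096)) (b (l 16678560) (c (l 16677664) (l 16673256)))))))), by decide +kernel⟩

def k56_pm_012_s : ∃ t, chk3 f_pm_012_s t 19 31 1 = true :=
  ⟨(a (b (b (a (b (c (l 16705792) (l 16697392)) (c (a (l 16699168) (l 16695160)) (a (l 16696024) (l 16691752)))) (b (c (a (l 16694512) (l 16690496)) (l 16688864)) (c (a (l 16691160) (l 16687176)) (l 16693280)))) (a (c (b (a (l 16695696) (l 16691712)) (c (l 16691152) (l 16689176))) (b (l 16690288) (l 16686568))) (b (a (l 16696240) (l 16681688)) (c (c (l 16683400) (l 16681168)) (l 16678192))))) (b (a (c (b (c (l 16687536) (l 16685464)) (c (l 16683792) (l 16681624))) (b (l 16682728) (l 16678760))) (c (b (c (l 16679832) (l 16677512)) (c (l 16676152) (l 16673720))) (b (l 16674416) (l 16670496)))) (a (a (c (b (l 16680704) (l 16676616)) (l 16674584)) (c (b (l 16676808) (l 16672744)) (l 16670448))) (a (c (b (l 16672952) (l 16668912)) (l 16666352)) (c (b (l 16669128)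 (l 16665112)) (l 16662304)))))) (c (b (a (b (b (a (l 16686488) (l 16682520)) (l 16681248)) (b (l 16677912) (l 16679712))) (a (b (l 16676976) (c (l 16671712) (l 16669136))) (b (l 16673032) (c (l 16667888) (l 16665224))))) (b (a (b (c (l 16672224) (l 16669664)) (c (l 16668600) (l 16665944))) (a (b (l 16665192) (l 16661568)) (c (l 16661072) (l 16658192)))) (a (a (b (l 16665320) (l 16661344)) (b (l 16661552) (l 16657600))) (b (a (l 16657800) (l 16654072)) (c (a (l 16655456) (l 16651816)) (l 16650504)))))) (b (a (b (b (l 16680440) (l 16677032)) (b (l 16673536) (l 16669936))) (b (a (l 16672496) (l 16668360)) (a (l 16665592) (l 16661520)))) (b (a (b (l 16666208) (l 16662352)) (b (l 16658112) (l 16654312))) (a (b (l 16658344) (l 16654160)) (b (l 16650368) (l 16646248))))))), by decide +kernel⟩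

def k57_pm_012_s : ∃ t, chk3 f_pm_012_s t 40 2 1 = true :=
  ⟨(b (l 3) (b (l 3) (a (l 3) (b (l 3) (a (b (l 3) (a (l 3) (b (l 3) (l 143512312503)))) (b (a (l 3) (b (l 230485399047) (l 116668766903))) (a (b (l 134385506103) (l 16775840)) (c (l 16780488) (l 16782704))))))))), by decide +kernel⟩

def k58_pm_012_s : ∃ t, chk3 f_pm_012_s t 41 4 1 = true :=
  ⟨(l 2), by decide +kernel⟩

def k59_pm_012_s : ∃ t, chk3 f_pm_012_s t 41 10 1 = true :=
  ⟨(b (a (l 3) (b (l 2) (a (a (l 3) (b (l 2) (a (l 16777056) (l 16776992)))) (b (l 2) (a (a (l 16776648) (a (l 16776408) (l 16786584))) (a (a (a (l 16775544) (a (l 16774952) (l 16774248))) (l 16773904)) (l 16773760))))))) (b (a (l 3) (a (a (c (a (l 174650825927) (l 125795578551)) (a (l 185925115207) (l 140291090263))) (c (a (l 16782192) (l 16776664)) (a (l 16782104) (l 16776456)))) (a (a (b (l 16776400) (l 16783944)) (a (l 16775888) (l 16775368))) (a (a (a (l 16774688) (a (l 16774032) (b (l 16773592) (l 16772952)))) (l 16772928)) (l 16772728))))) (a (a (l 3) (a (l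 3) (b (l 174650826247) (c (l 16782376) (l 16782336))))) (a (a (c (a (l 16782184) (l 16776624)) (a (l 16783112) (l 16776480))) (c (a (l 16776320) (l 16776048)) (a (l 16776072) (l 16775712)))) (a (a (c (l 16775664) (l 16775288)) (b (l 16785352) (l 16784776))) (a (a (a (l 16783992) (a (l 16778048) (b (l 16772328) (l 16761208)))) (l 16771672)) (l 16771400))))))), by decide +kernel⟩

def k60_pm_012_s : ∃ t, chk3 f_pm_012_s t 82 11 1 = true :=
  ⟨(b (a (b (l 3) (a (b (l 3) (l 189146341575)) (b (l 150491635447) (l 71034741367)))) (a (b (b (l 179482663575) (l 110763189287)) (b (l 16776488) (l 16775696))) (b (a (c (l 16776800) (l 16776712)) (l 16781576)) (b (l 16775584) (c (l 16775136) (l 16774704)))))) (a (b (b (a (c (l 16782200) (l 16782120)) (l 16775808)) (a (l 16781048) (l 16774720))) (a (b (l 16774312) (c (l 16773240) (l 16772424))) (b (c (l 16773912) (l 16773192)) (l 16772456)))) (b (a (b (c (l 16775112) (l 16774648)) (l 16779280)) (b (l 16774264) (l 16773592))) (a (c (l 16783656) (l 16784064)) (b (l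 16772624) (l 16771408)))))), by decide +kernel⟩

def k61_pm_012_s : ∃ t, chk3 f_pm_012_s t 83 11 1 = true :=
  ⟨(a (b (a (b (c (b (l 16776168) (l 16780904)) (a (l 16775792) (l 16775440))) (b (c (l 16775136) (l 16774704)) (l 16774368))) (a (b (b (l 16775544) (l 16775048)) (l 16784632)) (b (l 16785416) (l 16784112)))) (b (a (c (l 16784112) (l 16783376)) (a (l 16783024) (l 16782344))) (a (b (l 16771712) (l 16770344)) (b (l 16770408) (c (l 16769296) (l 16768168)))))) (a (a (b (b (l 16784840) (l 16783360)) (b (b (l 16771472) (l 16770288)) (b (l 16768760) (l 16766720)))) (a (b (b (l 16784152) (l 16772032)) (b (b (l 16770528) (l 16769160)) (l 16787016))) (b (b (l 16783416) (l 16781656)) (b (b (l 16769432) (l 16767656)) (c (l 16784904) (l 16764312)))))) (b (b (a (a (a (l 16782584) (a (l 16771384) (a (a (l 16770776) (b (l 16770856) (l 16780408))) (l 16770232)))) (l 16770112)) (l 16769776)) (a (a (a (c (l 16780584) (l 16780576)) (a (a (l 16779928) (l 16779336)) (a (a (l 16778504) (b (l 16762912) (l 16765984)))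 (l 16766768)))) (l 16766648)) (l 16766328))) (a (a (a (b (b (l 16767816) (l 16765688)) (l 16762088)) (a (b (l 16762416) (l 16760184)) (a (a (b (l 16758400) (l 16758712)) (b (b (l 16763704) (l 16761360)) (b (l 16758912) (l 16756184)))) (b (l 16762240) (l 16757208))))) (b (l 16762112) (l 16757000))) (b (l 16761704) (l 16756648)))))), by decide +kernel⟩

def k62_pm_012_s : ∃ t, chk3 f_pm_012_s t 21 2 1 = true :=
  ⟨(b (l 2) (b (b (a (b (l 2) (a (b (l 2) (l 16772480)) (l 2))) (l 2)) (a (b (a (b (l 16771696) (l 16770888)) (l 16768576)) (b (l 16779024) (l 16783304))) (b (b (l 2) (l 16764184)) (l 16783856)))) (b (a (a (b (a (l 16779128) (l 16777328)) (b (l 16765432) (l 16763192))) (b (l 16785176) (l 16781744))) (b (a (l 16760888) (l 16757792)) (c (l 16777568) (l 16775496)))) (b (a (b (l 16758928) (l 16756360)) (l 16771184)) (a (a (a (l 16755416) (l 16753368)) (l 16750240)) (b (l 16745688) (l 16742472))))))), by decide +kernel⟩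

def k63_pm_012_s : ∃ t, chk3 f_pm_012_s t 11 2 1 = true :=
  ⟨(b (l 2) (b (b (l 2) (a (a (b (l 2) (l 16757424)) (l 2)) (l 2))) (b (a (b (a (l 16753712) (l 16749344)) (a (l 16770304) (l 16744184))) (b (l 2) (l 16759864))) (a (b (a (l 16743520) (l 16737912)) (a (l 16736656) (l 16730160))) (b (a (l 16733400) (l 16730192)) (l 16764640)))))), by decide +kernel⟩

def k64_pm_012_s : ∃ t, chk3 f_pm_012_s t 40 12 1 = true :=
  ⟨(b (a (a (b (l 3) (b (l 3) (a (l 3) (b (l 185388242663) (l 16779912))))) (b (a (l 3) (b (l 3) (a (l 204178725639) (l 111300057399)))) (a (b (b (l 219211109943) (l 91972703671)) (l 16779832)) (b (c (l 16775120) (l 16780200)) (l 16771856))))) (a (b (a (b (b (l 227264172983) (l 113447540407)) (l 16780696)) (b (l 16780960) (l 16773400))) (a (b (l 16772720) (c (l 16770400) (l 16772384))) (b (b (l 16771536) (l 16770408)) (b (l 16769504) (l 16768864))))) (b (a (b (l 16773864) (b (l 16772248) (l 16771256))) (b (l 16773696) (c (l 16771384) (l 16770424)))) (a (b (b (l 16770432) (l 16769816))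 (l 16768744)) (b (l 16769640) (l 16768032)))))) (a (b (a (b (a (b (l 154786600583) (l 16776040)) (l 16774032)) (a (l 16773288) (l 16774336))) (a (b (l 16771136) (a (l 16771144) (l 16771576))) (b (a (l 16769184) (l 16771144)) (l 16767056)))) (a (b (a (c (l 16774936) (l 16774656)) (b (l 16770568) (l 16766856))) (a (b (l 16767184) (l 16766160)) (l 16765504))) (a (b (l 16766272) (l 16764368)) (b (l 16765392) (l 16763320))))) (a (b (a (b (l 16768152) (l 16766600)) (b (l 16767720) (l 16765896))) (b (c (l 16764896) (l 16763544)) (c (l 16762672) (l 16761056)))) (b (b (c (l 16767304) (l 16765904)) (c (l 16765328) (l 16763712))) (b (c (l 16763096) (l 16761248)) (a (l 16760216) (b (l 16759592) (l 16757952)))))))), by decide +kernel⟩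

def k65_pm_012_s : ∃ t, chk3 f_pm_012_s t 40 26 1 = true :=
  ⟨(a (b (a (a (b (l 16775072) (l 16762112)) (b (l 16763320) (l 16760768))) (a (b (l 16762080) (l 16759448)) (b (l 16760904) (l 16758192)))) (a (b (c (b (l 16759992) (l 16758568)) (a (l 16758600) (l 16757064))) (a (c (l 16756960) (l 16755272)) (b (c (l 16756440) (l 16754576)) (c (l 16754696) (a (l 16753168) (l 16752240)))))) (b (a (b (l 16757272) (c (l 16756680) (l 16754736))) (b (c (l 16756896) (l 16754872)) (c (l 16755088) (l 16752952)))) (a (b (a (a (l 16754608) (l 16754176)) (l 16753480)) (l 16751872)) (c (l 16752048) (l 16749800)))))) (b (a (b (a (l 16759824) (b (l 16759360) (l 16757920))) (a (b (l 16757728) (c (l 16757128) (l 16755008))) (b (c (l 16757264) (l 16755088)) (l 16754304)))) (a (b (b (l 16758000) (l 16756224)) (l 16753280)) (b (l 16755168) (l 16751136)))) (a (b (c (a (l 16754264) (l 16752304)) (a (l 16752040) (l 16750024))) (c (b (l 16750128) (l 16747936)) (b (l 16747808) (l 16745568)))) (b (c (l 16749048) (a (l 16747896)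 (l 16745672))) (c (b (l 16745728) (l 16743440)) (b (l 16743432) (l 16741128))))))), by decide +kernel⟩

def k66_pm_012_s : ∃ t, chk3 f_pm_012_s t 80 27 1 = true :=
  ⟨(b (a (b (b (a (c (l 16757072) (b (l 16753032) (l 16752016))) (l 16751680)) (a (l 16751448) (l 16749504))) (a (b (l 16749264) (l 16747000)) (b (l 16747264) (l 16744968)))) (b (c (b (l 16749800) (l 16747592)) (b (l 16747512) (l 16745232))) (a (b (l 16745216) (l 16742896)) (b (l 16743128) (l 16740768))))) (a (b (c (b (a (l 16745808) (l 16743800)) (a (c (l 16744040) (l 16742920)) (c (l 16742008) (l 16740856)))) (b (a (l 16743488) (l 16741360)) (a (l 16741080) (l 16738936)))) (c (b (a (c (l 16741680) (l 16740536)) (c (l 16739616) (l 16738440))) (a (c (l 16739280) (l 16738104)) (c (l 16737176) (l 16735976)))) (b (a (l 16738640) (l 16736464)) (a (l 16736152) (l 16733952))))) (b (c (b (a (l 16741736) (l 16739592)) (a (c (l 16739912) (l 16738736)) (c (l 16737744) (l 16736560)))) (b (a (l 16739200) (l 16737016)) (a (l 16736752) (l 16734536))))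 (a (c (b (c (l 16737488) (l 16736288)) (c (l 16735016) (l 16733792))) (b (l 16734256) (l 16731728))) (b (c (c (l 16735272) (l 16734080)) (l 16732016)) (c (a (b (l 16733384) (l 16734744)) (b (l 16732240) (a (a (l 16731416) (l 16731144)) (l 16730752)))) (a (l 16730032) (b (l 16729528) (c (l 16729024) (l 16727496)))))))))), by decide +kernel⟩

def k67_pm_012_s : ∃ t, chk3 f_pm_012_s t 81 27 1 = true :=
  ⟨(b (a (b (c (b (l 16745696) (l 16743392)) (b (l 16743280) (l 16740936))) (a (b (l 16740976) (l 16738584)) (b (l 16738744) (l 16736312)))) (b (c (b (l 16741096) (l 16738704)) (b (l 16738768) (l 16736352))) (a (c (l 16736304) (l 16733864)) (b (l 16733936) (a (l 16732104) (l 16730944)))))) (a (b (a (c (b (l 16737368) (c (l 16735456) (l 16734296))) (b (l 16734776) (l 16732264))) (a (b (l 16734416) (c (l 16735752) (l 16730528))) (b (l 16733240) (b (l 16731352) (a (l 16734344) (l 16729880)))))) (a (a (b (c (c (l 16733544) (l 16732368)) (l 16730304)) (b (b (a (l 16730416) (l 16735104)) (c (l 16730832) (l 16728096)))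 (l 16733944))) (b (c (b (l 16732424) (a (l 16731480) (l 16730944))) (b (l 16729784) (c (l 16729272) (l 16727760)))) (c (l 16729592) (l 16726776)))) (b (a (b (a (a (l 16735704) (l 16735424)) (l 16735032)) (l 16728936)) (a (l 16728744) (l 16728240))) (c (c (l 16728744) (l 16727472)) (l 16725216))))) (b (a (b (c (a (l 16733200) (l 16732032)) (a (l 16730704) (l 16729552))) (a (a (b (l 16730488) (l 16729376)) (l 16729416)) (a (l 16728920) (l 16728424)))) (b (c (l 16730456) (l 16727944)) (c (l 16728408) (l 16725696)))) (c (a (b (l 16728296) (l 16726152)) (b (l 16726296) (l 16724136))) (a (b (l 16725480) (l 16723136)) (b (l 16723392) (l 16721040))))))), by decide +kernel⟩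

def k68_pm_012_s : ∃ t, chk3 f_pm_012_s t 82 12 1 = true :=
  ⟨(b (a (a (b (b (c (l 16772040) (l 16771080)) (l 16770448)) (b (l 16768960) (l 16767200))) (b (b (l 16771416) (l 16770008)) (b (l 16768320) (l 16766376)))) (b (a (b (l 16770840) (l 16769256)) (l 16779584)) (b (a (l 16767400) (l 16766136)) (a (l 16765248) (c (l 16764584) (l 16762720)))))) (a (b (a (b (l 16765176) (l 16762912)) (b (l 16764184) (c (l 16762584) (l 16765776)))) (b (a (b (l 16761008) (l 16759488)) (l 16758384)) (a (l 16756856) (l 16754656)))) (a (b (b (c (l 16763728) (l 16761744)) (l 16759656)) (b (l 16756088) (l 16752216))) (b (b (l 16760648) (l 16757200)) (b (l 16753440) (l 16749416)))))), by decide +kernel⟩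

def k69_pm_012_s : ∃ t, chk3 f_pm_012_s t 82 13 1 = true :=
  ⟨(b (a (a (b (b (l 16752984) (l 16748848)) (b (c (l 16745464) (l 16743336)) (c (l 16740856) (l 16738728)))) (b (b (l 16750656) (l 16746408)) (b (c (l 16742800) (l 16740872)) (c (l 16738064) (l 16736176))))) (a (b (b (l 16748080) (l 16743712)) (a (b (l 16739856) (c (l 16735840) (l 16739432))) (b (l 16738376) (b (l 16734816) (l 16732664))))) (b (b (l 16745152) (l 16740664)) (b (c (a (l 16737336) (l 16735728)) (a (l 16736056) (l 16734640))) (c (b (l 16733408) (l 16731592)) (b (l 16732112) (l 16730112))))))) (b (a (b (b (a (l 16736296) (c (l 16734480) (a (l 16733200) (l 16731936)))) (a (c (l 16734816) (l 16732680)) (c (l 16732320) (l 16730312)))) (a (b (a (l 16732080) (l 16730944)) (l 16729384)) (c (l 16729368) (l 16727072)))) (b (a (b (c (l 16732008) (l 16730248)) (l 16729272)) (c (l 16728800) (b (l 16728072) (l 16725968)))) (c (a (l 16727184) (l 16724856)) (a (l 16724928) (b (l 16723808) (l 16721592)))))) (a (b (a (c (b (l 16728448) (c (l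 16726928) (l 16725768))) (b (l 16725864) (l 16723600))) (c (b (l 16726336) (l 16724240)) (b (l 16723752) (l 16721464)))) (c (a (b (c (l 16724840) (l 16723584)) (c (l 16722696) (l 16721352))) (b (l 16722080) (c (l 16720496) (l 16719184)))) (a (b (l 16721288) (c (l 16719784) (l 16717992))) (b (l 16719136) (c (l 16717624) (l 16715816)))))) (b (a (c (b (l 16724112) (l 16721992)) (b (l 16721576) (l 16719280))) (c (b (l 16721744) (l 16719600)) (b (l 16719328) (c (l 16717768) (l 16716176))))) (a (c (b (l 16719816) (c (l 16718168) (l 16716928))) (b (l 16716928) (c (l 16715400) (l 16713600)))) (c (b (l 16720016) (c (l 16715672) (l 16714528))) (b (c (l 16715448) (l 16713768)) (c (l 16713072) (l 16711312))))))))), by decide +kernel⟩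

def k70_pm_012_s : ∃ t, chk3 f_pm_012_s t 166 12 1 = true :=
  ⟨(b (a (b (b (l 16768712) (c (l 16767448) (l 16765896))) (b (c (l 16765048) (l 16763408)) (l 16761280))) (b (a (b (l 16767472) (l 16765112)) (b (l 16766160) (l 16763424))) (b (l 16761264) (l 16757952)))) (b (a (b (l 16757904) (l 16754240)) (b (l 16759584) (c (l 16750552) (l 16750128)))) (a (b (l 16750304) (l 16746128)) (b (c (l 16746304) (l 16746096)) (c (l 16747056) (l 16752312)))))), by decide +kernel⟩

def k71_pm_012_s : ∃ t, chk3 f_pm_012_s t 167 12 1 = true :=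
  ⟨(a (a (b (b (b (l 16764136) (l 16761232)) (b (l 16758016) (l 16754504))) (b (b (l 16750712) (l 16746656)) (b (l 16742392) (c (l 16737888) (l 16738744))))) (a (b (b (b (l 16762080) (l 16759048)) (b (l 16755704) (l 16752080))) (b (b (l 16748184) (l 16744040)) (b (l 16740040) (l 16736872)))) (b (b (c (l 16778936) (l 16758864)) (b (l 16753496) (l 16749784))) (b (b (l 16745808) (c (l 16737960) (l 16742656))) (b (c (l 16737376) (l 16739336)) (l 16735720)))))) (a (a (a (b (b (b (l 16757816) (l 16754600)) (b (l 16751088) (l 16747312))) (b (b (c (l 16762736) (l 16744480)) (c (l 16738480) (l 16741152))) (b (l 16737400) (l 16734584)))) (a (b (b (l 16748992) (b (l 16749016) (l 16745200))) (b (b (c (l 16739784) (l 16743104)) (l 16739072)) (c (l 16749336) (l 16746672)))) (a (a (b (b (l 16752720) (b (l 16747472) (l 16743664))) (b (c (l 16737664) (l 16762136)) (c (l 16753792) (l 16735680)))) (b (b (b (l 16753160) (l 16749840)) (b (l 16741000) (b (l 16738136) (c (c (l 16737904) (l 16740552)) (c (l 16753184) (l 16744360))))))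 (b (c (c (l 16735536) (l 16748456)) (b (l 16762816) (l 16739416))) (b (c (l 16743832) (l 16736680)) (c (l 16751632) (l 16733672)))))) (b (b (l 16751144) (b (l 16745840) (l 16742184))) (b (l 16738872) (b (l 16735152) (l 16732304))))))) (b (b (l 16751008) (b (l 16745704) (l 16742032))) (b (l 16749184) (b (l 16734952) (l 16732096))))) (b (b (l 16750632) (b (l 16745320) (l 16741632))) (b (l 16748704) (b (l 16734432) (l 16731552)))))), by decide +kernel⟩

def k72_pm_012_s : ∃ t, chk3 f_pm_012_s t 83 26 1 = true :=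
  ⟨(a (b (a (b (l 16741720) (c (l 16747992) (a (l 16737568) (l 16736016)))) (a (b (l 16738768) (l 16734880)) (b (c (l 16736584) (l 16736840)) (l 16733488)))) (a (b (c (l 16733592) (a (l 16733328) (l 16732136))) (c (l 16730040) (c (l 16729256) (l 16728344)))) (b (c (l 16730744) (l 16730256)) (c (a (l 16727992) (l 16726416)) (a (l 16727016) (l 16725688)))))) (a (a (b (b (l 16735184) (l 16731912)) (b (c (l 16728208) (l 16728160)) (c (l 16724584) (l 16724192)))) (a (b (b (l 16733832) (l 16730520)) (b (l 16726952) (c (l 16722928) (l 16722912)))) (b (b (l 16732656) (c (l 16728600) (l 16729600))) (b (c (l 16725160) (l 16725848)) (c (l 16721472) (l 16721840)))))) (a (a (a (b (b (l 16731488) (l 16728128)) (b (c (l 16723712) (l 16724832)) (c (l 16720000) (l 16720808)))) (a (b (b (l 16730560) (l 16727184)) (b (c (l 16722544) (l 16724048)) (c (l 16718816) (l 16720024)))) (a (a (b (b (l 16729904) (l 16726520)) (b (c (l 16721712) (l 16723512)) (c (l 16717976) (l 16719480)))) (b (c (b (l 16727696) (l 16729704)) (b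 (l 16740880) (c (l 16726456) (l 16727120)))) (b (c (c (l 16720112) (l 16721704)) (c (l 16722752) (l 16723248))) (b (c (l 16718208) (c (l 16719808) (l 16720184))) (c (l 16716280) (l 16717992)))))) (b (b (l 16729184) (l 16725808)) (b (l 16722184) (l 16718312)))))) (b (b (l 16728976) (l 16725584)) (b (l 16721952) (l 16718072)))) (b (b (l 16728400) (l 16724992)) (b (l 16721336) (l 16717432)))))), by decide +kernel⟩

def k73_pm_012_s : ∃ t, chk3 f_pm_012_s t 83 54 1 = true :=
  ⟨(a (a (b (c (a (l 16726968) (l 16725632)) (b (l 16725768) (l 16723648))) (c (b (l 16723312) (l 16721256)) (b (l 16721464) (l 16719232)))) (b (c (a (l 16724192) (l 16722584)) (a (l 16722856) (l 16721504))) (c (a (l 16720144) (l 16718504)) (a (l 16718464) (l 16717088))))) (a (c (a (b (l 16720704) (l 16716592)) (a (b (l 16719024) (l 16714880)) (b (l 16717544) (l 16713384)))) (a (b (l 16719984) (b (l 16716680) (l 16714408))) (a (b (l 16718680) (l 16714232)) (b (l 16717600) (l 16713136))))) (a (a (a (b (c (l 16716056) (l 16716560)) (c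 (l 16711872) (l 16712080))) (a (b (c (l 16714856) (l 16715760)) (c (l 16710664) (l 16711280))) (a (a (b (c (l 16714008) (l 16715216)) (c (l 16709808) (l 16710736))) (b (b (c (l 16714304) (l 16715864)) (c (l 16712264) (l 16718920))) (a (a (a (l 16710272) (a (l 16710168) (c (l 16709072) (l 16710288)))) (l 16709944)) (l 16709928)))) (b (l 16714216) (l 16709896))))) (b (l 16713968) (l 16709640))) (b (l 16713312) (l 16708968))))), by decide +kernel⟩

def k74_pm_012_s : ∃ t, chk3 f_pm_012_s t 83 55 1 = true :=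
  ⟨(a (a (a (b (b (l 16718872) (a (l 16716944) (l 16716304))) (c (b (l 16715456) (l 16713184)) (b (l 16712856) (l 16710432)))) (b (b (l 16717568) (a (l 16715656) (l 16714976))) (c (b (l 16714048) (l 16711760)) (b (l 16711608) (l 16709176))))) (a (b (b (l 16716184) (a (l 16714280) (l 16713560))) (c (b (l 16712520) (l 16710216)) (b (l 16710296) (l 16707856)))) (b (b (l 16714672) (a (l 16712800) (l 16712000))) (c (c (l 16709920) (l 16709336)) (c (l 16708328) (l 16706904)))))) (a (c (a (b (b (l 16713360) (l 16711136)) (c (l 16707824) (l 16707472))) (a (b (l 16710520) (l 16705952)) (b (b (l 16710112) (l 16707872)) (c (l 16704280) (l 16704416))))) (a (a (b (l 16711336) (l 16706520)) (b (l 16710504) (l 16705680))) (a (b (l 16709576) (l 16704744)) (a (b (l 16708792) (l 16703960)) (b (l 16708184) (l 16703336)))))) (a (a (a (b (c (l 16707480) (l 16707416)) (c (l 16702880) (b (l 16703800) (l 16701336)))) (a (b (c (l 16706264) (l 16706616)) (c (l 16701664) (b (l 16703000) (l 16700536)))) (a (a (b (c (l 16705400)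 (l 16706064)) (c (l 16700800) (l 16701224))) (a (a (a (b (l 16705744) (l 16701032)) (a (b (l 16705640) (l 16700928)) (b (b (l 16706608) (l 16704304)) (c (l 16700080) (b (l 16702016) (l 16699560)))))) (b (l 16705424) (l 16700720))) (b (l 16705416) (l 16700712)))) (b (l 16705376) (l 16700672))))) (b (l 16705112) (l 16700408))) (b (l 16704424) (l 16699696))))), by decide +kernel⟩

def k75_pm_012_s : ∃ t, chk3 f_pm_012_s t 21 12 1 = true :=
  ⟨(b (b (a (b (l 16750336) (l 16745744)) (c (l 16758128) (l 16758344))) (a (a (b (l 16742952) (a (l 16740264) (l 16758976))) (b (l 16738560) (l 16734592))) (b (l 16752720) (l 16748736)))) (b (a (b (a (l 16757448) (l 16731384)) (c (l 16750968) (l 16753272))) (b (a (l 16726360) (l 16721472)) (l 16731384))) (b (a (a (a (l 16732696) (l 16729928)) (l 16725800)) (a (l 16720392) (l 16715080))) (a (a (a (l 16729736) (l 16726840)) (l 16722560)) (a (l 16716960) (l 16711512)))))), by decide +kernel⟩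

def k76_pm_012_s : ∃ t, chk3 f_pm_012_s t 21 13 1 = true :=
  ⟨(b (b (a (a (b (c (l 16723760) (l 16725720)) (c (l 16720360) (l 16722024))) (b (l 16719040) (l 16725760))) (a (b (l 16713256) (l 16709280)) (b (l 16707632) (l 16703488)))) (a (c (b (a (l 16716712) (l 16710880)) (a (l 16712824) (l 16706776))) (b (a (l 16718080) (l 16711176)) (a (b (l 16714976) (l 16712832)) (b (l 16707920) (l 16705672))))) (a (b (l 16705080) (c (l 16700904) (l 16699904))) (b (l 16699088) (c (l 16695232) (l 16693232)))))) (b (a (b (a (c (l 16708712) (b (l 16710632) (l 16708384))) (c (l 16702440) (l 16702208))) (a (c (b (l 16705480) (l 16703264)) (b (l 16706080) (l 16703736))) (c (b (l 16699056) (l 16696736)) (b (l 16698640) (l 16696200))))) (b (a (c (l 16696368) (b (l 16696344) (l 16693904))) (b (l 16690848) (l 16688376))) (c (a (l 16691624) (l 16685552)) (a (b (l 16691416) (l 16688880)) (b (l 16684408) (l 16681792)))))) (a (b (a (c (b (l 16700992) (l 16698680)) (b (l 16701344) (l 16698904))) (c (b (l 16694368) (l 16691952))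 (b (l 16693720) (l 16691200)))) (a (c (a (l 16696864) (l 16693376)) (a (l 16697168) (l 16693208))) (c (a (l 16689936) (l 16686552)) (b (l 16688648) (l 16686056))))) (b (a (c (b (l 16687936) (l 16685424)) (b (l 16686320) (l 16683712))) (c (b (l 16681720) (l 16679112)) (b (l 16679136) (l 16676440)))) (a (c (b (l 16682864) (l 16680264)) (b (l 16681072) (l 16678400))) (c (b (l 16676456) (l 16673760)) (b (l 16673712) (l 16670952)))))))), by decide +kernel⟩

def k77_pm_012_s : ∃ t, chk3 f_pm_012_s t 22 6 1 = true :=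
  ⟨(a (b (b (b (l 16729072) (b (l 16723056) (l 16718784))) (b (b (a (l 16716736) (l 16712112)) (l 16710776)) (a (l 16729048) (l 16702952)))) (b (b (b (a (l 16702184) (l 16696872)) (a (l 16697872) (l 16692432))) (b (a (l 16693296) (l 16687704)) (a (c (l 16689744) (l 16686776)) (l 16682720)))) (b (b (c (a (l 16684824) (l 16679360)) (a (l 16681624) (l 16675208))) (c (a (l 16679696) (l 16674048)) (a (b (l 16677632) (l 16674920)) (l 16669680)))) (b (c (a (b (l 16675720) (l 16673016)) (b (l 16669936) (l 16667136))) (a (b (l 16672176) (l 16669392)) (b (l 16665440) (l 16662568)))) (a (c (b (l 16670264) (l 16667472)) (b (l 16666576) (l 16663728))) (c (b (l 16664288) (l 16661400)) (b (l 16659664) (l 16656728)))))))) (b (b (b (l 16721720) (l 16712648)) (b (b (l 16705568) (l 16701136)) (b (l 16697328) (l 16693448)))) (b (b (b (l 16689160) (l 16684544)) (b (l 16700600) (a (l 16677152) (l 16671760)))) (b (b (a (c (l 16674104) (l 16669016)) (l 16666224)) (a (c (l 16668608) (l 16663304)) (c (l 16663376) (l 16657152))))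 (b (a (b (l 16661856) (a (l 16660456) (l 16657432))) (c (l 16657504) (l 16651112))) (c (a (b (l 16658528) (l 16655552)) (b (l 16652984) (l 16649920))) (a (b (l 16652968) (l 16649944)) (b (l 16646496) (l 16643384))))))))), by decide +kernel⟩

def k78_pm_012_s : ∃ t, chk3 f_pm_012_s t 23 6 1 = true :=
  ⟨(b (b (b (a (l 16715392) (l 16710320)) (a (l 16705392) (l 16699216))) (b (a (b (l 16697552) (l 16692328)) (l 16687720)) (a (b (l 16687920) (l 16683720)) (b (l 16679336) (l 16674584))))) (b (b (a (b (l 16679192) (l 16674488)) (b (l 16669816) (l 16664792))) (a (b (l 16669368) (l 16663944)) (b (l 16659456) (l 16653960)))) (b (a (b (a (l 16660872) (l 16655656)) (a (c (l 16658320) (l 16651200)) (l 16649624))) (b (l 16648064) (c (l 16646328) (l 16637088)))) (a (b (a (c (l 16652304) (l 16644992)) (c (l 16647280) (l 16639080))) (a (c (l 16646072) (l 16638640)) (c (l 16640896) (l 16632560)))) (b (a (l 16638064) (l 16632888)) (a (c (l 16635904) (l 16626680)) (l 16626192))))))), by decide +kernel⟩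

def k79_pm_012_s : ∃ t, chk3 f_pm_012_s t 80 56 1 = true :=
  ⟨(a (a (b (c (b (c (l 16736832) (l 16735624)) (c (l 16734336) (l 16733104))) (b (l 16733624) (l 16731048))) (a (b (b (l 16731072) (c (b (l 16731424) (l 16733424)) (l 16733608))) (c (l 16729368) (l 16726480))) (b (b (a (l 16735496) (b (l 16730016) (l 16732008))) (c (l 16730104) (l 16727288))) (c (l 16728408) (l 16725440))))) (b (b (c (c (l 16734696) (l 16733464)) (l 16731400)) (a (b (l 16731440) (a (l 16730432) (b (l 16730200) (a (l 16729696) (l 16729432))))) (c (a (b (l 16731920) (c (l 16731304) (l 16730040))) (b (l 16734000) (l 16730192))) (b (l 16728904) (l 16732880))))) (b (a (b (a (c (l 16733136) (l 16727728)) (l 16728680)) (l 16727760)) (c (l 16728760) (l 16725816))) (c (l 16726968) (l 16723864))))) (b (a (a (b (c (c (b (l 16733680) (l 16732424)) (l 16737064)) (l 16734968)) (b (a (b (a (l 16729960) (l 16729688)) (l 16729216)) (b (l 16734544) (l 16728728))) (l 16728104))) (b (c (b (l 16737224) (a (a (l 16733760) (l 16733496)) (l 16730504)))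 (b (l 16729240) (c (l 16728720) (l 16727192)))) (c (l 16729088) (l 16726168)))) (b (c (a (b (a (a (l 16731288) (l 16733640)) (a (l 16730760) (l 16730512))) (l 16729792)) (l 16729368)) (a (a (b (l 16728400) (l 16727184)) (l 16732504)) (l 16726488))) (c (c (l 16728320) (l 16726944)) (l 16727232)))) (c (a (b (c (l 16728016) (l 16726608)) (l 16730280)) (b (c (l 16726112) (l 16724640)) (c (l 16723848) (l 16722280)))) (a (b (l 16724248) (l 16721768)) (b (l 16722160) (c (l 16720576) (l 16718728))))))), by decide +kernel⟩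

def k80_pm_012_s : ∃ t, chk3 f_pm_012_s t 80 57 1 = true :=
  ⟨(a (a (b (c (b (l 16726584) (l 16724232)) (b (l 16723456) (l 16720928))) (c (b (l 16721832) (l 16719392)) (b (l 16718368) (l 16715776)))) (b (c (b (l 16724640) (l 16722272)) (b (l 16721352) (l 16718808))) (c (b (l 16719856) (l 16717400)) (b (l 16716240) (l 16713640))))) (b (c (a (b (l 16722696) (l 16720312)) (b (c (l 16721536) (l 16719880)) (l 16718320))) (a (b (l 16719240) (l 16716688)) (b (c (l 16718080) (l 16716152)) (c (l 16715552) (l 16713544))))) (c (a (b (l 16717880) (l 16715408)) (b (c (l 16716768) (l 16714952)) (c (l 16714320) (l 16712432)))) (a (b (l 16714112) (l 16711504)) (b (l 16711976) (l 16709368)))))), by decide +kernel⟩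

def k81_pm_012_s : ∃ t, chk3 f_pm_012_s t 81 28 1 = true :=
  ⟨(b (a (b (c (a (b (c (l 16728560) (l 16727224)) (c (l 16726384) (l 16724960))) (b (c (l 16726608) (l 16725240)) (c (l 16724416) (l 16722952)))) (a (b (l 16724928) (l 16722520)) (b (l 16722848) (c (l 16721312) (l 16719496))))) (c (a (b (c (l 16724160) (l 16722640)) (l 16722400)) (b (l 16723376) (l 16719064))) (a (b (c (l 16720960) (l 16719128)) (c (l 16718496) (l 16716576))) (b (c (l 16718880) (l 16716984)) (c (l 16716408) (l 16714424)))))) (b (c (a (b (c (l 16724632) (l 16723224)) (c (l 16722416) (l 16720920))) (b (c (l 16722600) (l 16721168)) (c (l 16720360) (l 16718848)))) (a (b (l 16720752) (c (l 16719232) (l 16717352))) (b (c (l 16719536) (l 16717696)) (c (l 16717128) (l 16715200))))) (c (a (b (c (l 16720144) (l 16718560)) (l 16717008)) (b (c (l 16718064) (l 16716472)) (c (l 16715720) (l 16714048)))) (a (b (c (l 16716792) (l 16714832)) (c (l 16714296) (l 16712256))) (b (c (l 16714672) (l 16712664)) (c (l 16712168) (l 16710080)))))))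 (a (b (c (a (b (l 16718712) (l 16716288)) (b (l 16716664) (l 16714224))) (a (b (c (l 16715992) (l 16713992)) (c (l 16713448) (l 16711376))) (b (c (l 16713888) (l 16711824)) (c (l 16711336) (l 16709200))))) (c (a (b (l 16713824) (l 16711320)) (b (l 16711744) (l 16709232))) (a (b (l 16709832) (l 16707216)) (b (l 16710304) (l 16705048))))) (b (c (a (b (c (l 16715440) (l 16713696)) (l 16712136)) (b (l 16715096) (l 16710000))) (a (b (c (l 16711768) (l 16709648)) (c (l 16709200) (l 16707016))) (b (c (l 16709624) (l 16707464)) (c (l 16707048) (l 16704824))))) (c (a (b (l 16709640) (l 16707104)) (b (l 16707488) (l 16704936))) (a (b (c (l 16706616) (l 16704376)) (l 16702880)) (b (l 16703328) (l 16700688))))))), by decide +kernel⟩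

def k82_pm_012_s : ∃ t, chk3 f_pm_012_s t 40 29 1 = true :=
  ⟨(a (b (b (a (c (b (a (l 16716904) (l 16714904)) (a (l 16714376) (l 16712360))) (b (a (l 16713160) (l 16711016)) (a (l 16710520) (l 16708368)))) (c (a (b (l 16712896) (l 16710344)) (b (l 16710864) (l 16708296))) (a (b (l 16708872) (l 16706216)) (b (l 16706728) (l 16704064))))) (b (a (a (l 16715096) (l 16713016)) (a (l 16710928) (a (l 16704112) (l 16703056)))) (a (c (l 16708168) (c (l 16705112) (l 16703000))) (c (a (l 16705112) (l 16703040)) (a (l 16700832) (l 16698664)))))) (b (a (c (b (l 16710752) (l 16702800)) (b (l 16701336) (l 16698576))) (c (b (a (l 16702432) (l 16700360)) (l 16709160)) (b (a (l 16698096) (l 16695928)) (l 16694240)))) (a (b (l 16708416) (l 16695120)) (c (b (l 16695912) (l 16693112)) (l 16700528))))) (b (a (b (c (b (a (l 16708784) (l 16706680)) (a (l 16706200) (l 16704088))) (b (a (l 16704568) (l 16702400)) (a (l 16701896) (l 16699728)))) (c (b (a (l 16703584) (l 16701456)) (l 16705096)) (b (a (l 16699208) (l 16697032))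 (c (l 16696560) (l 16694208))))) (a (b (c (b (l 16704536) (l 16701928)) (b (l 16700216) (l 16697536))) (b (l 16700424) (a (l 16694992) (l 16693896)))) (b (c (b (l 16702352) (l 16699736)) (b (l 16698016) (l 16695336))) (b (l 16694944) (l 16694856))))) (b (a (c (b (a (l 16698240) (l 16696088)) (l 16694424)) (b (l 16700520) (l 16689888))) (a (b (l 16696952) (l 16688952)) (b (l 16689504) (l 16686736)))) (a (c (b (l 16691648) (l 16688840)) (l 16696176)) (c (b (l 16687248) (l 16684440)) (b (l 16682704) (l 16679888))))))), by decide +kernel⟩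

def k83_pm_012_s : ∃ t, chk3 f_pm_012_s t 40 15 1 = true :=
  ⟨(b (b (a (b (a (c (l 16693016) (l 16688672)) (c (l 16688848) (l 16684352))) (a (c (l 16687208) (l 16682840)) (c (l 16683032) (l 16678544)))) (b (a (c (l 16684568) (l 16680016)) (c (l 16680160) (l 16675640))) (a (c (l 16678752) (l 16674232)) (c (l 16674344) (l 16669888))))) (a (b (a (c (l 16681240) (l 16676840)) (c (l 16687576) (l 16672592))) (c (b (a (l 16676672) (l 16672584)) (l 16671664)) (a (l 16681144) (l 16666488)))) (b (a (b (l 16672072) (c (l 16671344) (l 16666832))) (b (c (l 16669944) (l 16665520)) (c (l 16667112) (l 16662600)))) (c (a (l 16667096) (l 16663024)) (a (l 16662328) (l 16658184)))))) (b (a (a (b (c (l 16669096) (l 16664240)) (c (c (l 16664072) (l 16661328)) (l 16657480))) (b (c (l 16665176) (l 16660144)) (c (c (l 16660272) (l 16657456)) (l 16653456)))) (b (c (a (l 16661224) (l 16657264)) (a (l 16656072) (l 16652008))) (c (a (l 16655000) (l 16651152)) (a (l 16649456) (l 16645472))))) (a (b (c (c (a (l 16657344) (l 16653640))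 (a (l 16654376) (l 16650584))) (a (l 16650256) (l 16646304))) (c (a (b (l 16650368) (l 16646528)) (b (l 16646688) (l 16653376))) (a (l 16642448) (l 16638568)))) (b (c (a (c (l 16649920) (l 16646808)) (c (l 16646192) (l 16643032))) (a (l 16642376) (l 16638480))) (c (a (c (l 16642872) (l 16639480)) (c (l 16639256) (l 16635808))) (a (l 16634720) (l 16630896))))))), by decide +kernel⟩

def k84_pm_012_s : ∃ t, chk3 f_pm_012_s t 82 56 1 = true :=
  ⟨(a (b (c (a (b (c (l 16720496) (l 16719064)) (c (l 16718240) (l 16716728))) (b (c (l 16718272) (l 16716880)) (c (l 16715992) (l 16714520)))) (a (b (c (l 16717416) (l 16715536)) (c (l 16714992) (l 16713024))) (b (c (l 16715240) (l 16713344)) (c (l 16712800) (l 16710824))))) (c (a (b (c (l 16715920) (l 16714336)) (c (l 16713552) (l 16711888))) (b (c (l 16713656) (l 16712112)) (c (l 16711264) (l 16709656)))) (a (b (c (l 16712520) (l 16710480)) (c (l 16710000) (l 16707888))) (b (c (l 16710320) (l 16708264)) (c (l 16707784) (l 16705664)))))) (b (c (a (b (c (l 16715920)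 (l 16714600)) (c (l 16713616) (l 16712224))) (b (c (l 16713400) (l 16712184)) (c (l 16711072) (l 16709792)))) (a (c (b (l 16713000) (l 16710544)) (b (l 16711112) (l 16708584))) (c (b (l 16710656) (l 16708184)) (b (l 16708808) (l 16706272))))) (c (a (b (c (l 16711256) (l 16709792)) (c (l 16708848) (l 16707320))) (c (b (l 16708688) (l 16706264)) (b (l 16707344) (l 16704848)))) (a (c (b (l 16708048) (l 16705504)) (b (l 16706008) (l 16703400))) (a (b (l 16705320) (l 16702736)) (b (l 16704128) (l 16701536))))))), by decide +kernel⟩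

def k85_pm_012_s : ∃ t, chk3 f_pm_012_s t 82 57 1 = true :=
  ⟨(a (b (c (a (b (c (l 16711136) (l 16709400)) (c (l 16708672) (l 16706872))) (b (c (l 16708824) (l 16707144)) (c (l 16706344) (l 16704608)))) (a (b (c (l 16707440) (l 16705256)) (c (l 16704856) (l 16702608))) (b (c (l 16705216) (l 16703024)) (c (l 16702608) (l 16700368))))) (c (a (b (c (l 16706168) (l 16704320)) (l 16702704)) (b (l 16702960) (l 16700376))) (a (b (c (l 16702240) (l 16699944)) (l 16698464)) (b (c (l 16699992) (l 16697696)) (l 16696216))))) (b (c (a (b (c (l 16706392) (l 16704800)) (c (l 16703888) (l 16702240))) (c (b (l 16703784) (l 16701256)) (b (l 16702312) (l 16699744)))) (a (c (b (l 16702912) (l 16700304)) (b (l 16700744) (l 16698080))) (a (b (l 16700112) (l 16697464)) (b (l 16698904) (l 16696256))))) (b (c (a (l 16700536) (l 16697960)) (a (c (l 16697672) (l 16695408)) (c (l 16695256) (l 16693048)))) (c (a (l 16697936) (l 16695352)) (a (l 16693904) (c (l 16692600) (l 16690352))))))), by decide +kernel⟩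

def k86_pm_012_s : ∃ t, chk3 f_pm_012_s t 82 29 1 = true :=
  ⟨(b (a (b (c (a (b (l 16700112) (l 16697480)) (b (l 16697768) (l 16695120))) (a (b (l 16695792) (l 16693104)) (b (l 16693536) (l 16690840)))) (c (a (l 16693472) (l 16691104)) (a (b (l 16690392) (l 16687664)) (b (l 16688128) (l 16685392))))) (c (b (a (b (l 16695312) (l 16692656)) (b (l 16692712) (l 16690040))) (a (l 16688624) (l 16685992))) (b (a (b (l 16691216) (l 16688520)) (b (l 16688824) (l 16686120))) (a (b (l 16685800) (l 16683072)) (b (l 16683408) (l 16680680)))))) (a (b (a (b (l 16687248) (l 16684488)) (b (l 16684944) (l 16682176))) (c (a (l 16682440) (l 16680048)) (a (l 16677960) (l 16675696)))) (b (a (b (l 16682560) (l 16679792)) (c (l 16680496) (b (l 16677936) (l 16675176)))) (c (a (l 16677552) (l 16674912)) (a (l 16673392) (l 16671016)))))), by decide +kernel⟩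

def k87_pm_012_s : ∃ t, chk3 f_pm_012_s t 166 14 1 = true :=
  ⟨(b (b (a (b (c (a (b (l 16710856) (l 16708480)) (c (l 16708696) (l 16707672))) (a (b (l 16707960) (l 16705448)) (b (l 16706696) (l 16704176)))) (b (c (a (l 16706048) (l 16704592)) (a (l 16702896) (l 16701616))) (c (a (l 16703576) (l 16702104)) (a (l 16700296) (l 16699016))))) (c (b (a (c (l 16707064) (l 16706184)) (c (l 16705256) (l 16704552))) (a (c (l 16702224) (l 16701232)) (b (l 16701288) (l 16698784)))) (b (a (b (l 16705368) (l 16702840)) (b (l 16703944) (l 16701416))) (b (a (l 16700272) (c (l 16699616) (l 16697952))) (a (l 16697664) (c (l 16697032) (l 16695312))))))) (a (a (b (c (b (l 16701048) (l 16698488)) (b (l 16697664) (l 16695008))) (c (b (l 16695896) (l 16693280)) (b (l 16692336) (l 16689656)))) (b (b (c (l 16699576) (l 16696376)) (a (l 16695912) (l 16695208))) (c (l 16693104) (b (l 16691048) (l 16688360))))) (c (b (a (b (l 16697992) (l 16695416)) (c (l 16695344) (l 16694448))) (a (l 16691496) (l 16694968))) (b (b (a (l 16695024)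 (c (l 16694416) (l 16692640))) (a (l 16692368) (c (l 16691776) (l 16689960)))) (a (b (l 16689696) (l 16687008)) (b (l 16690872) (l 16685568))))))) (b (a (b (a (c (l 16689296) (l 16685616)) (b (l 16687592) (l 16684896))) (c (l 16683128) (b (l 16680896) (l 16678168)))) (b (c (a (l 16686176) (l 16684400)) (a (b (l 16684312) (l 16681616)) (a (l 16681904) (l 16681152)))) (c (a (l 16680768) (l 16678992)) (a (l 16677536) (l 16676104))))) (a (b (c (l 16677632) (b (l 16675424) (l 16672680))) (c (l 16672056) (b (l 16669920) (l 16667152)))) (b (c (l 16674368) (a (l 16672080) (l 16670656))) (c (l 16668808) (a (l 16666584) (l 16665184))))))), by decide +kernel⟩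

def k88_pm_012_s : ∃ t, chk3 f_pm_012_s t 334 14 1 = true :=
  ⟨(a (b (b (b (c (c (l 16703128) (l 16702672)) (c (b (l 16702984) (l 16700480)) (b (l 16701616) (l 16699048)))) (c (c (l 16698248) (l 16697688)) (a (b (l 16697680) (l 16695064)) (b (l 16696832) (l 16694216))))) (b (c (c (l 16693184) (l 16692544)) (a (b (l 16692416) (l 16689760)) (b (l 16691568) (l 16688904)))) (c (c (l 16687976) (l 16687280)) (c (b (l 16687424) (l 16684752)) (b (l 16690992) (l 16683064)))))) (b (b (c (l 16692848) (c (l 16680728) (b (l 16680368) (l 16677664)))) (c (l 16676952) (b (l 16675888) (l 16673176)))) (b (c (l 16671480) (l 16669112)) (b (l 16666432) (l 16663680))))) (a (b (b (b (c (l 16701184) (c (l 16700296) (l 16699064))) (c (l 16696240) (b (l 16695888) (l 16693272)))) (b (c (l 16691128) (b (l 16690632) (l 16687968))) (c (l 16685888) (b (l 16685296) (l 16682624))))) (b (b (c (l 16680560) (c (l 16679288) (l 16677768))) (c (l 16675168) (l 16673216))) (b (c (l 16669712) (l 16667816)) (c (l 16664216) (l 16662408)))))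 (b (a (b (b (c (l 16700104) (l 16698952)) (c (l 16695152) (c (l 16694336) (l 16693120)))) (b (c (l 16690040) (b (l 16689840) (l 16687184))) (c (l 16684800) (c (l 16683800) (l 16682424))))) (b (b (c (l 16699224) (a (l 16698504) (l 16698176))) (c (l 16694272) (b (l 16694480) (l 16691872)))) (b (c (l 16689160) (b (l 16689232) (l 16686576))) (c (l 16683928) (b (l 16683912) (l 16681240)))))) (b (b (c (l 16679024) (c (l 16678112) (b (l 16678120) (l 16675440)))) (c (l 16673640) (a (l 16672456) (l 16671872)))) (b (b (l 16669136) (l 16666432)) (c (l 16662760) (b (l 16662752) (l 16660080)))))))), by decide +kernel⟩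

def k89_pm_012_s : ∃ t, chk3 f_pm_012_s t 335 28 2 = true :=
  ⟨(a (a (a (b (b (l 16698096) (l 16693144)) (b (l 16690656) (l 16682808))) (a (b (b (l 16696880) (c (l 16691600) (l 16692088))) (b (c (l 16686536) (l 16686952)) (c (l 16681336) (l 16681712)))) (a (a (b (b (l 16696016) (l 16691064)) (b (l 16685968) (l 16680760))) (a (a (a (b (b (l 16695648) (l 16690696)) (b (l 16685600) (l 16680400))) (a (b (b (l 16695512) (l 16690568)) (b (l 16685472) (l 16680272))) (b (b (l 16695312) (l 16690368)) (b (l 16686600) (l 16680104))))) (b (b (l 16695272) (l 16690336)) (b (l 16685264) (l 16680080)))) (b (b (l 16695256) (l 16690328)) (b (l 16685256) (l 16680072))))) (b (b (l 16695224) (l 16690288)) (b (l 16685216) (l 16680032)))))) (b (b (l 16694968) (l 16690024)) (b (l 16684944) (l 16679752)))) (b (b (l 16694280) (l 16689320)) (b (l 16684224) (l 16679016)))), by decide +kernel⟩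

def k90_pm_012_s : ∃ t, chk3 f_pm_012_s t 670 56 3 = true :=
  ⟨(b (a (a (a (l 16697800) (l 16697368)) (a (a (l 16696976) (l 16696624)) (a (a (c (l 16696416) (l 16695888)) (a (a (a (l 16696008) (a (l 16695928) (a (l 16695864) (l 16695792)))) (l 16695784)) (l 16695768))) (l 16695728)))) (l 16695440)) (b (a (a (c (l 16694112) (l 16693184)) (a (c (l 16693224) (l 16692480)) (a (a (l 16692392) (a (a (a (l 16692168) (a (l 16692088) (c (l 16692136) (l 16691648)))) (l 16691952)) (l 16691936))) (l 16691896)))) (l 16691608)) (a (b (a (l 16691768) (a (l 16690976) (a (a (l 16690440) (a (a (a (l 16690224) (a (l 16690144) (l 16690032))) (l 16690008)) (l 16690000))) (l 16689952)))) (a (l 16690456) (a (c (l 16689992) (l 16689184)) (a (a (l 16689136) (a (a (a (l 16688912) (a (l 16688840) (l 16688728))) (l 16688704)) (l 16688688))) (l 16688648))))) (l 16689008)))), by decide +kernel⟩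

def k91_pm_012_s : ∃ t, chk3 f_pm_012_s t 670 57 3 = true :=
  ⟨(c (a (a (b (b (l 16688912) (l 16686280)) (l 16682304)) (b (a (b (l 16688032) (l 16685408)) (a (a (l 16686128) (a (a (a (l 16685872) (a (l 16685792) (a (l 16685712) (l 16685648)))) (l 16685640)) (l 16685624))) (l 16685584))) (a (c (l 16681576) (l 16681280)) (a (a (l 16680856) (a (a (a (l 16680616) (a (l 16680528) (a (l 16680456) (l 16680392)))) (l 16680392)) (l 16680376))) (l 16680336))))) (b (l 16685296) (l 16680040))) (a (b (c (a (b (l 16688200) (l 16685536)) (a (b (l 16687464) (l 16684808)) (a (a (l 16685648) (a (a (a (l 16685448) (a (l 16685376) (b (l 16686592) (l 16683952)))) (l 16685256)) (l 16685240))) (l 16685200)))) (a (b (l 16687536) (l 16684856)) (b (a (l 16686888) (a (a (l 16686456) (a (a (a (l 16686280) (a (l 16686224) (c (l 16686264) (l 16685992)))) (l 16686120)) (l 16686104))) (l 16686064))) (a (l 16684208) (a (a (l 16683792) (a (a (a (l 16683616) (a (l 16683560) (a (l 16683512) (l 16683464)))) (l 16683456)) (l 16683440)))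 (l 16683400)))))) (c (a (b (l 16682872) (l 16680208)) (a (b (l 16682152) (l 16679496)) (a (a (l 16680344) (a (a (a (l 16680144) (a (l 16680080) (b (l 16681304) (l 16678664)))) (l 16679968)) (l 16679952))) (l 16679912)))) (a (b (l 16682176) (l 16679504)) (b (a (l 16681544) (a (a (l 16681128) (a (a (a (l 16680960) (a (l 16680896) (c (l 16680952) (l 16680664)))) (l 16680800)) (l 16680784))) (l 16680744))) (c (a (l 16679040) (a (a (l 16678616) (a (a (a (l 16678448) (a (l 16678384) (l 16678304))) (l 16678288)) (l 16678272))) (l 16678232))) (a (l 16678696) (a (a (l 16678296) (a (a (a (l 16678144) (a (l 16678088) (l 16678008))) (l 16677992)) (l 16677984))) (l 16677936)))))))) (b (l 16684680) (l 16679376)))), by decide +kernel⟩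

def k92_pm_012_s : ∃ t, chk3 f_pm_012_s t 671 28 3 = true :=
  ⟨(b (b (l 16694672) (l 16689528)) (b (c (l 16684512) (l 16683872)) (c (l 16679248) (l 16678552)))), by decide +kernel⟩

def k93_pm_012_s : ∃ t, chk3 f_pm_012_s t 335 58 1 = true :=
  ⟨(c (b (a (a (a (l 16677504) (a (l 16676312) (a (a (l 16675480) (b (c (l 16675768) (l 16681712)) (b (l 16674224) (l 16672896)))) (l 16674776)))) (l 16674488)) (l 16673736)) (a (a (a (l 16672144) (a (l 16670976) (a (a (l 16670160) (b (l 16676152) (l 16668256))) (l 16669480)))) (l 16669184)) (l 16668416))) (a (b (b (a (a (l 16677840) (a (c (l 16677464) (l 16676544)) (a (a (l 16676584) (a (a (a (l 16676376) (a (l 16676304) (c (l 16676456) (l 16675784)))) (l 16676192)) (l 16676176))) (l 16676136)))) (l 16675824)) (a (a (l 16675168) (a (l 16674432) (a (a (l 16673936) (a (a (a (l 16673736) (a (l 16673664) (l 16673568))) (l 16673552)) (l 16673536))) (l 16673496)))) (l 16673184))) (a (a (c (l 16671640) (l 16670536)) (a (a (l 16670624) (l 16670312)) (a (a (c (l 16670264)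 (l 16669496)) (a (a (a (l 16669768) (a (l 16669704) (a (l 16669648) (l 16669600)))) (l 16669600)) (l 16669584))) (l 16669544)))) (l 16669232))) (b (l 16673688) (l 16668400)))), by decide +kernel⟩

def k94_pm_012_s : ∃ t, chk3 f_pm_012_s t 335 59 1 = true :=
  ⟨(a (a (a (b (c (l 16666736) (l 16665832)) (c (l 16661400) (b (l 16661832) (l 16661840)))) (a (b (c (l 16665600) (c (l 16665496) (l 16664616))) (b (l 16661688) (c (l 16659072) (b (l 16659216) (l 16658032))))) (a (a (b (b (l 16666416) (l 16663752)) (b (l 16661096) (b (l 16659200) (l 16658240)))) (a (a (b (a (b (l 16666160) (l 16663504)) (c (l 16664240) (b (l 16665680) (l 16663048)))) (b (a (l 16660848) (c (l 16660248) (l 16660440))) (a (l 16658552) (a (l 16658504) (c (l 16658112) (l 16658096)))))) (b (b (l 16665944) (l 16663296)) (b (l 16660656) (l 16658456)))) (b (b (l 16665928) (l 16663280)) (b (l 16660648) (l 16658448))))) (b (b (l 16665888) (l 16663240)) (b (l 16660608) (l 16658400)))))) (b (b (l 16665584) (l 16662936)) (b (l 16660296) (l 16658096))))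 (b (b (l 16664776) (l 16662120)) (b (l 16659480) (l 16657272)))), by decide +kernel⟩

def k95_pm_012_s : ∃ t, chk3 f_pm_012_s t 82 15 1 = true :=
  ⟨(b (b (a (b (c (l 16686024) (a (l 16672320) (l 16670072))) (a (l 16668840) (a (l 16667144) (l 16666000)))) (b (c (l 16681016) (a (l 16667776) (l 16665424))) (a (b (l 16665656) (l 16662832)) (b (l 16663232) (l 16660528))))) (a (b (b (a (l 16664504) (l 16662344)) (l 16660712)) (c (l 16658896) (l 16654040))) (b (c (l 16659808) (l 16655536)) (c (l 16654656) (l 16649880))))) (b (b (a (c (l 16653264) (l 16647952)) (c (l 16649176) (l 16643904))) (a (c (l 16647272) (l 16641512)) (c (l 16643328) (c (l 16639024) (l 16636112))))) (b (a (c (c (l 16642440) (l 16639264)) (l 16634608)) (c (b (l 16638656) (l 16635384)) (c (l 16632328) (l 16629208)))) (b (c (a (l 16635672) (l 16631976)) (a (l 16629056) (l 16625288))) (c (a (l 16632032) (l 16628400)) (a (l 16625136) (l 16621416))))))), by decide +kernel⟩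

def k96_pm_012_s : ∃ t, chk3 f_pm_012_s t 166 15 1 = true :=
  ⟨(b (b (b (a (c (l 16666400) (l 16662984)) (c (b (l 16664600) (l 16661896)) (b (l 16661752) (a (l 16659696) (l 16658384))))) (a (b (c (l 16662264) (l 16658856)) (l 16658240)) (c (l 16658424) (a (l 16655824) (l 16654648))))) (c (b (a (l 16656384) (l 16653912)) (a (l 16651368) (l 16649024))) (b (a (l 16652296) (l 16650072)) (a (l 16646736) (l 16644600))))) (b (b (c (a (l 16646024) (l 16643792)) (a (l 16640856) (l 16638800))) (c (a (l 16640304) (l 16638192)) (a (l 16634616) (c (l 16634072) (l 16631176))))) (b (c (a (l 16634144) (b (l 16633696) (l 16630536))) (a (l 16627904) (c (l 16627560) (l 16624424)))) (c (a (b (l 16629168) (l 16625648)) (b (l 16627232) (l 16623776))) (a (c (l 16622288) (l 16618896)) (c (l 16620456) (l 16617064))))))), by decide +kernel⟩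

def k97_pm_012_s : ∃ t, chk3 f_pm_012_s t 334 15 1 = true :=
  ⟨(b (b (a (b (c (b (l 16661824) (l 16659368)) (b (l 16659608) (l 16657032))) (c (l 16656304) (l 16653424))) (a (b (b (c (l 16660192) (l 16658416)) (l 16657312)) (l 16654000)) (b (b (a (l 16658808) (l 16658280)) (l 16656440)) (c (l 16654152) (l 16651744))))) (c (b (a (l 16651904) (l 16650312)) (a (l 16647136) (c (l 16646424) (l 16644808)))) (b (a (l 16648344) (a (l 16647440) (l 16646784))) (a (l 16642952) (a (l 16642096) (l 16641496)))))) (b (b (c (a (l 16642008) (c (l 16641616) (l 16639616))) (a (l 16637232) (a (l 16636424) (l 16635872)))) (c (a (l 16636520) (c (l 16636424) (l 16634048))) (a (l 16631144) (c (l 16631488) (a (l 16628968) (l 16628480)))))) (b (c (a (l 16630568) (a (l 16629728) (l 16629120))) (a (c (l 16626112) (l 16623016)) (c (l 16625128) (a (l 16622328) (l 16621880))))) (c (a (b (l 16625736) (l 16622320)) (a (l 16623280) (a (l 16622880) (l 16622592)))) (a (c (l 16619088) (l 16615712)) (c (a (l 16618400) (l 16617952)) (a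 (l 16615064) (l 16614656)))))))), by decide +kernel⟩

def k98_pm_012_s : ∃ t, chk3 f_pm_012_s t 2680 15 1 = true :=
  ⟨(b (b (b (c (l 16657072) (l 16655760)) (c (l 16653288) (l 16651152))) (b (c (l 16649128) (l 16646240)) (c (l 16644584) (l 16641008)))) (b (b (c (l 16639672) (l 16635432)) (c (l 16634376) (c (l 16630792) (l 16628120)))) (b (c (l 16628616) (c (l 16624504) (l 16621560))) (c (b (l 16623920) (l 16620592)) (c (l 16617616) (l 16614376)))))), by decide +kernel⟩

def k99_pm_012_s : ∃ t, chk3 f_pm_012_s t 2681 15 1 = true :=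
  ⟨(a (b (b (c (b (l 16656400) (l 16652680)) (b (l 16655336) (l 16650776))) (b (c (l 16648592) (l 16645912)) (c (l 16644104) (c (l 16641704) (l 16639640))))) (b (b (c (l 16639248) (c (l 16636320) (l 16633984))) (c (l 16634008) (c (l 16630552) (l 16627944)))) (b (c (l 16628296) (c (l 16624304) (l 16621416))) (c (b (l 16623640) (l 16620336)) (c (l 16617448) (l 16614264)))))) (a (a (b (b (b (c (l 16655960) (l 16655088)) (c (l 16652296) (l 16650560))) (b (c (l 16648248) (l 16645728)) (c (l 16643808) (l 16640568)))) (b (b (c (l 16638992) (l 16635064)) (c (l 16633792) (c (l 16630432) (l 16627880)))) (b (c (l 16628120) (c (l 16624208) (l 16621376))) (c (l 16621864) (c (l 16617384) (l 16614240)))))) (b (b (c (b (l 16655648) (l 16652024)) (b (c (l 16655328) (l 16654344)) (b (l 16651568) (l 16649248)))) (b (c (l 16648008) (b (l 16646840) (b (l 16644992) (l 16643728)))) (c (b (l 16644744) (l 16642440)) (c (l 16641400) (b (l 16640800) (l 16638080)))))) (b (b (c (b (l 16640048) (l 16637568)) (c (l 16636072) (b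 (l 16635280) (l 16632384)))) (c (b (l 16634984) (l 16632288)) (c (l 16630368) (b (l 16629392) (l 16626288))))) (b (c (b (l 16629464) (l 16626504)) (c (l 16624168) (b (l 16623048) (l 16619656)))) (c (b (l 16623392) (l 16625360)) (c (b (l 16619128) (l 16615552)) (b (l 16616096) (c (l 16613168) (l 16611536))))))))) (b (b (b (l 16655552) (l 16651448)) (b (c (l 16647976) (l 16645568)) (c (l 16643568) (l 16640432)))) (b (b (c (l 16638792) (l 16634952)) (c (l 16633616) (l 16629096))) (b (c (l 16627968) (l 16622744)) (c (l 16621744) (c (l 16617320) (l 16614200)))))))), by decide +kernel⟩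

def k100_pm_012_s : ∃ t, chk3 f_pm_012_s t 1341 15 1 = true :=
  ⟨(b (b (b (l 16655248) (c (l 16651704) (l 16650064))) (b (c (l 16647696) (l 16645272)) (c (l 16643296) (l 16640136)))) (b (b (c (l 16638520) (l 16634664)) (c (l 16633352) (l 16628816))) (b (c (l 16627712) (l 16622472)) (c (l 16621488) (c (l 16617056) (l 16613936)))))), by decide +kernel⟩

def k101_pm_012_s : ∃ t, chk3 f_pm_012_s t 671 15 1 = true :=
  ⟨(b (b (b (c (l 16654536) (l 16653728)) (c (l 16650936) (l 16649256))) (b (c (l 16646952) (l 16644480)) (c (l 16642568) (l 16639360)))) (b (b (c (l 16637808) (l 16633912)) (c (l 16632656) (l 16628072))) (b (b (l 16626032) (l 16620264)) (c (l 16620824) (c (l 16616352) (l 16613216)))))), by decide +kernel⟩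

def k102_pm_012_s : ∃ t, chk3 f_pm_012_s t 21 28 1 = true :=
  ⟨(b (a (a (b (c (a (l 16692008) (l 16688424)) (b (l 16691376) (l 16688792))) (a (c (l 16686992) (a (l 16687960) (l 16685888))) (b (l 16684680) (l 16682056)))) (b (c (b (l 16684424) (l 16681840)) (b (l 16683424) (l 16680768))) (c (b (l 16679208) (l 16676544)) (b (l 16678072) (l 16675360))))) (b (b (a (c (l 16677616) (l 16675688)) (c (l 16671016) (l 16668168))) (a (c (l 16674936) (l 16672952)) (c (l 16668240) (l 16665344)))) (a (c (b (l 16672208) (l 16669456)) (b (l 16670184) (l 16667392))) (c (b (l 16665432) (l 16662576)) (b (l 16662504) (l 16659632)))))) (a (a (a (b (c (l 16681832) (b (l 16682960) (l 16680296))) (c (l 16676568) (b (l 16677632) (l 16674968)))) (b (b (l 16679408) (l 16676736)) (c (l 16672704) (c (l 16672456) (l 16671472))))) (b (c (b (l 16673848) (l 16671128)) (b (l 16672616) (l 16669872))) (c (l 16667008) (b (l 16667128) (l 16664384))))) (b (a (c (b (l 16666664) (l 16663856)) (b (l 16664576) (l 16661760))) (c (b (l 16659696)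 (l 16656800)) (b (l 16656744) (l 16653856)))) (a (c (l 16659600) (b (l 16658944) (l 16656136))) (b (c (l 16653880) (l 16650968)) (l 16649800)))))), by decide +kernel⟩

def k103_pm_012_s : ∃ t, chk3 f_pm_012_s t 21 29 1 = true :=
  ⟨(b (a (a (b (a (c (l 16671240) (c (l 16671288) (l 16675720))) (b (l 16668656) (l 16665944))) (b (c (l 16665192) (l 16675280)) (a (l 16664760) (l 16660528)))) (b (c (l 16661456) (b (l 16661648) (l 16658912))) (c (l 16655864) (b (l 16656184) (l 16653464))))) (b (a (c (l 16653880) (b (l 16653336) (l 16650544))) (c (l 16646512) (l 16643792))) (c (a (l 16648112) (l 16640584)) (a (b (l 16647752) (l 16644984)) (l 16648584))))) (a (b (c (a (l 16663640) (l 16650264)) (a (b (l 16659472) (l 16656824)) (b (l 16650760) (l 16648064)))) (c (a (b (l 16654336) (l 16652176)) (b (l 16646072) (a (l 16645872) (l 16641720)))) (a (b (l 16654184) (c (l 16652176) (l 16651360))) (b (l 16645384) (a (l 16645200) (l 16651296)))))) (b (c (a (l 16642344) (l 16634640)) (a (c (l 16641448) (l 16640096))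 (l 16632464))) (b (a (l 16637688) (l 16629528)) (c (a (l 16635584) (l 16627592)) (a (l 16634288) (l 16625736))))))), by decide +kernel⟩

def k104_pm_012_s : ∃ t, chk3 f_pm_012_s t 21 30 1 = true :=
  ⟨(b (b (a (a (c (l 16649840) (a (l 16650976) (l 16646600))) (a (b (l 16644136) (l 16642320)) (a (l 16640088) (l 16637984)))) (c (a (l 16633456) (l 16625448)) (a (l 16631464) (l 16622960)))) (a (c (a (l 16646360) (a (l 16640352) (l 16636376))) (a (a (l 16646568) (l 16642288)) (a (l 16638048) (a (l 16634888) (l 16632768))))) (c (a (l 16630344) (l 16622424)) (a (l 16627464) (l 16619088))))) (a (a (b (c (l 16652976) (c (l 16640600) (b (l 16640032) (l 16637536)))) (c (b (l 16639328) (l 16637088)) (c (l 16635744) (b (l 16634960) (l 16632296))))) (b (c (a (l 16636640) (l 16632776)) (a (l 16633520) (a (l 16630424) (l 16628360)))) (c (a (l 16632520) (l 16628752)) (a (c (l 16629736) (l 16627448)) (a (l 16625616) (l 16623584)))))) (b (c (a (l 16626832) (l 16619024)) (a (l 16633632) (l 16614912))) (c (a (l 16622912)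 (l 16615232)) (a (c (l 16619704) (l 16617184)) (l 16610408)))))), by decide +kernel⟩

def k105_pm_012_s : ∃ t, chk3 f_pm_012_s t 21 31 1 = true :=
  ⟨(b (a (a (b (c (b (l 16634752) (l 16632328)) (c (l 16630528) (b (l 16629552) (l 16626720)))) (c (b (l 16629800) (l 16627152)) (c (l 16630176) (b (l 16623784) (l 16620736))))) (b (c (a (l 16627992) (l 16634808)) (a (c (l 16624648) (l 16622080)) (a (l 16620440) (l 16618464)))) (c (a (l 16623056) (a (l 16620376) (l 16618552))) (a (c (l 16619176) (l 16616336)) (a (l 16614880) (l 16612944)))))) (b (c (a (l 16618600) (l 16611048)) (a (c (l 16614840) (l 16612040)) (l 16605560))) (c (a (l 16613856) (l 16606472)) (a (b (l 16609464) (l 16606656)) (l 16600360))))) (a (a (b (c (b (l 16624392) (l 16621488)) (c (b (l 16620424) (l 16617240)) (b (l 16617560) (l 16614224)))) (c (b (l 16618432) (l 16625696)) (c (b (l 16613896) (l 16610376)) (b (l 16610728) (l 16607040))))) (b (c (a (l 16617632) (a (l 16615016) (l 16613232))) (a (c (l 16613208) (l 16610088)) (a (l 16608824)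 (l 16606936)))) (c (a (b (l 16613200) (l 16610040)) (a (l 16609088) (l 16607344))) (a (c (l 16606640) (l 16603200)) (a (l 16607392) (c (l 16602088) (l 16598512))))))) (b (c (a (b (l 16610000) (l 16607256)) (l 16611904)) (a (b (l 16603720) (l 16600648)) (l 16594688))) (c (a (b (l 16604368) (l 16601328)) (b (l 16597272) (l 16594320))) (a (b (l 16597408) (l 16594000)) (l 16588432)))))), by decide +kernel⟩

def k106_pm_012_s : ∃ t, chk3 f_pm_012_s t 22 28 1 = true :=
  ⟨(b (a (b (a (c (b (l 16664640) (l 16661768)) (b (l 16660856) (l 16657952))) (c (b (l 16658480) (l 16655512)) (b (l 16653768) (l 16650776)))) (a (c (b (c (l 16659496) (l 16658104)) (a (l 16657568) (l 16654296))) (b (c (l 16656184) (l 16653744)) (c (l 16653240) (l 16650792)))) (c (b (l 16652512) (c (l 16650360) (l 16648488))) (b (c (l 16649144) (l 16646280)) (c (l 16646112) (l 16643248)))))) (b (c (a (b (l 16652536) (l 16649480)) (b (l 16646808) (l 16643664))) (a (b (l 16646896) (l 16643824)) (b (l 16640248) (l 16637088)))) (c (a (b (l 16646384)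 (l 16643264)) (b (l 16640480) (l 16637256))) (a (b (l 16640728) (c (l 16639200) (l 16635912))) (b (l 16633904) (l 16630704)))))) (a (b (a (c (b (l 16652952) (l 16649960)) (b (c (l 16650280) (l 16647824)) (l 16646152))) (c (b (c (l 16647288) (l 16645432)) (l 16643336)) (b (c (l 16643064) (l 16640200)) (c (l 16640016) (l 16637168))))) (a (c (b (l 16646952) (l 16643928)) (b (l 16643192) (l 16640248))) (c (b (l 16640240) (l 16637128)) (b (c (l 16636968) (l 16634152)) (l 16632600))))) (c (b (a (b (l 16640112) (l 16636936)) (b (l 16634016) (l 16630744))) (a (b (l 16633744) (l 16630544)) (b (l 16627472) (l 16624176)))) (b (a (b (c (l 16636072) (l 16632784)) (c (l 16632936) (l 16629672))) (b (c (l 16629288) (l 16625576)) (l 16624280))) (a (b (c (l 16629808) (l 16626584)) (c (l 16626680) (l 16623504))) (a (b (l 16622864) (l 16619704)) (b (l 16619328) (l 16616136)))))))), by decide +kernel⟩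

def k107_pm_012_s : ∃ t, chk3 f_pm_012_s t 23 28 1 = true :=
  ⟨(b (a (b (a (c (b (l 16641296) (l 16638056)) (b (l 16633816) (l 16630560))) (c (l 16634320) (l 16625928))) (a (c (b (l 16634784) (l 16631472)) (b (l 16627288) (l 16624000))) (c (b (l 16629296) (l 16625896)) (b (l 16620896) (l 16617520))))) (b (a (c (l 16629176) (l 16619880)) (c (l 16624208) (l 16614016))) (a (c (b (l 16624016) (l 16620528)) (b (l 16614704) (l 16611240))) (c (l 16617152) (b (l 16608728) (l 16605168)))))) (a (b (c (a (b (l 16638624) (l 16624776)) (b (l 16622472) (l 16619024))) (a (b (l 16620704) (c (l 16619408) (l 16615304))) (b (l 16614128) (c (l 16612960) (l 16608432))))) (c (a (b (l 16621408) (c (l 16619544) (l 16616392))) (b (c (l 16617360) (l 16613664)) (c (l 16613848) (l 16610216)))) (a (b (c (l 16616104) (l 16612048)) (c (l 16612816) (l 16608824))) (b (c (l 16609576) (l 16605096)) (c (l 16606192) (l 16601784)))))) (b (c (a (b (l 16617008) (l 16613472)) (b (l 16611752) (l 16608128))) (a (b (l 16607760) (c (l 16606728)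 (l 16601776))) (b (l 16601600) (l 16598048)))) (c (a (b (c (l 16611960) (l 16607784)) (c (l 16608360) (l 16604256))) (b (l 16604488) (l 16600832))) (a (b (l 16600840) (l 16597408)) (b (l 16594504) (l 16590984))))))), by decide +kernel⟩

def k108_pm_012_s : ∃ t, chk3 f_pm_012_s t 22 29 1 = true :=
  ⟨(b (a (b (a (c (l 16639368) (b (l 16637304) (l 16634376))) (c (b (l 16634000) (l 16630872)) (b (l 16629592) (l 16626592)))) (a (c (l 16633264) (l 16630016)) (c (l 16626160) (b (l 16623608) (l 16620648))))) (b (c (a (b (l 16627328) (l 16624112)) (b (l 16620872) (l 16617560))) (a (b (c (l 16623568) (l 16620456)) (c (l 16620456) (l 16617424))) (b (c (l 16616448) (l 16612936)) (c (l 16613264) (l 16609832))))) (a (c (b (l 16620880) (l 16617656)) (b (l 16615952) (l 16612920))) (c (b (l 16614248) (l 16610928)) (b (l 16608480) (l 16605376)))))) (a (b (a (c (l 16627160) (l 16624264)) (c (l 16619880) (l 16616240))) (a (b (l 16621568) (a (l 16620848) (l 16616856))) (b (l 16613792) (l 16610960)))) (b (a (c (l 16612816)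 (l 16608408)) (c (l 16605960) (l 16600768))) (a (b (l 16606216) (l 16603264)) (b (l 16598832) (l 16595760)))))), by decide +kernel⟩

def k109_pm_012_s : ∃ t, chk3 f_pm_012_s t 23 29 1 = true :=
  ⟨(b (a (b (c (a (b (c (l 16616120) (l 16613032)) (c (l 16612672) (l 16609680))) (b (c (l 16610328) (l 16606768)) (l 16605104))) (a (b (c (l 16609536) (l 16605616)) (l 16604408)) (b (l 16600712) (l 16597400)))) (a (c (b (l 16607824) (l 16604416)) (b (l 16601200) (l 16598024))) (c (b (l 16601608) (l 16598112)) (b (l 16594120) (l 16590864))))) (b (c (a (a (l 16602432) (l 16599552)) (b (l 16597160) (l 16593488))) (a (b (l 16593992) (l 16590600)) (b (l 16587480) (l 16584000)))) (a (c (b (l 16595608) (l 16592016)) (b (l 16587232) (l 16583896))) (c (b (l 16589808) (l 16586128)) (b (l 16580552) (l 16577128)))))) (a (b (a (c (l 16599312) (l 16593304)) (c (l 16592872) (l 16591272))) (a (b (l 16591640) (l 16588456)) (c (l 16585920) (l 16579704)))) (b (a (c (l 16586640) (b (l 16580584) (l 16577312))) (c (l 16580608) (l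 16572040))) (a (c (l 16579504) (l 16572464)) (c (l 16573288) (l 16565400)))))), by decide +kernel⟩

def k110_pm_012_s : ∃ t, chk3 f_pm_012_s t 11 15 1 = true :=
  ⟨(b (a (b (a (a (b (c (l 16617632) (l 16614600)) (c (l 16614696) (l 16610856))) (b (l 16608416) (l 16605152))) (b (a (l 16600648) (l 16593040)) (a (l 16597504) (l 16590024)))) (a (a (b (c (l 16611392) (l 16606808)) (c (l 16607712) (l 16602448))) (b (l 16612048) (c (l 16600384) (l 16594632)))) (b (a (l 16594024) (l 16586664)) (a (l 16600696) (l 16582976))))) (b (a (b (a (l 16585584) (c (l 16581216) (l 16575016))) (a (l 16582704) (l 16575560))) (b (a (b (l 16571800) (l 16570560)) (b (c (l 16568488) (l 16560992)) (l 16563616))) (a (l 16568568) (l 16572232)))) (a (a (b (l 16579488) (l 16575912)) (b (l 16572472) (l 16569040))) (b (c (a (l 16569648) (l 16563336)) (l 16557888)) (c (a (l 16566656) (l 16560480)) (l 16554424)))))) (b (a (a (b (c (a (l 16603664) (l 16596448)) (a (l 16597768) (l 16590096))) (c (a (l 16599232) (l 16592152)) (a (l 16592736)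 (l 16585232)))) (b (c (a (l 16589424) (l 16582584)) (l 16578856)) (c (a (l 16585240) (l 16578528)) (l 16574216)))) (a (a (b (l 16572024) (l 16567808)) (b (l 16586248) (l 16582160))) (b (c (a (l 16563312) (l 16557272)) (l 16571640)) (c (a (l 16559600) (l 6)) (l 16567560))))) (a (a (b (c (a (l 16594336) (l 16587408)) (a (l 16587256) (l 16579936))) (c (a (c (l 16590824) (l 16586984)) (l 16582136)) (a (l 16581216) (l 16574080)))) (b (c (a (l 16580640) (l 16574056)) (l 16569168)) (c (a (l 16575528) (l 16569088)) (l 16584560)))) (a (b (a (l 16584160) (l 16577672)) (c (a (l 16562824) (l 16556760)) (l 16550056))) (b (c (a (l 16555488) (l 6)) (l 16542128)) (l 6)))))), by decide +kernel⟩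

def k111_pm_012_s : ∃ t, chk3 f_pm_012_s t 6 2 1 = true :=
  ⟨(b (l 2) (b (l 2) (a (a (b (l 2) (b (l 2) (l 16738600))) (l 2)) (l 2)))), by decide +kernel⟩

def k112_pm_012_s : ∃ t, chk3 f_pm_012_s t 6 6 1 = true :=
  ⟨(b (a (b (a (b (l 16726536) (a (l 16694384) (l 16691088))) (b (l 2) (l 16689728))) (a (b (a (l 16681680) (l 16677104)) (a (l 16669376) (b (l 16666456) (l 16659760)))) (b (l 16673640) (a (l 16658680) (l 16656024))))) (b (l 2) (a (b (l 2) (l 16656120)) (l 2)))) (a (b (a (b (a (l 16658416) (l 16650648)) (a (b (l 16650096) (l 16644288)) (a (l 16640408) (l 16636088)))) (b (a (l 16644144) (l 16639384)) (a (l 16630152) (l 16623472)))) (a (b (a (b (l 16638176) (c (l 16637192) (l 16626400))) (b (a (l 16631088) (l 16626248)) (a (l 16624616) (l 16619600)))) (b (a (c (l 16630744) (l 16619632)) (a (l 16617960) (l 16612752))) (a (c (l 16624008) (l 16612672)) (a (l 16611000) (l 16605728))))) (b (a (b (l 16619472) (l 16612272)) (l 16607560)) (a (b (a (l 16607608) (l 16602576)) (a (l 16600384) (l 16595168)))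 (b (l 16595576) (c (l 16594544) (l 16580368))))))) (a (a (b (b (l 16636664) (l 16618552)) (b (l 16600624) (l 6))) (l 6)) (l 6)))), by decide +kernel⟩

def k113_pm_012_s : ∃ t, chk3 f_pm_012_s t 12 28 1 = true :=
  ⟨(a (b (a (b (c (a (l 16619392) (l 16614680)) (a (l 16608336) (l 16602784))) (a (c (l 16612200) (b (l 16602936) (l 16599296))) (c (l 16602160) (b (l 16597296) (l 16593592))))) (b (a (c (l 16609992) (l 16597320)) (c (l 16604824) (l 16591728))) (a (c (b (l 16604496) (l 16600752)) (b (l 16591752) (l 16587992))) (c (l 16597328) (l 16584160))))) (a (b (a (c (b (l 16606696) (l 16602976)) (b (l 16595648) (l 16592000))) (c (b (l 16601800) (l 16598016)) (b (l 16589872) (l 16586144)))) (a (c (b (l 16599248) (l 16595504)) (b (l 16588368) (l 16584760))) (c (b (l 16594208) (l 16590368)) (b (l 16582432) (l 16578728))))) (b (a (c (a (l 16596312) (l 16593776)) (b (l 16584208) (l 16580416))) (c (b (l 16591552) (l 16587632)) (b (l 16578400) (l 16574536)))) (a (c (a (l 16588592) (b (l 16587952) (l 16584024)))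 (a (l 16576208) (l 16573272))) (c (b (l 16583680) (l 16579696)) (b (l 16570680) (l 16566832))))))) (b (a (b (a (c (l 16599584) (l 16586152)) (c (l 16594312) (l 16580576))) (c (a (l 16591960) (l 16586616)) (a (l 16578472) (l 16572840)))) (a (b (l 16582280) (a (l 16575784) (l 6))) (l 6))) (a (a (b (c (l 16584080) (b (l 16572616) (l 16568696))) (c (b (l 16578056) (l 16573992)) (b (l 16564776) (l 16560856)))) (b (c (l 16578616) (l 16564912)) (a (b (l 16567288) (l 16563248)) (l 6)))) (l 6)))), by decide +kernel⟩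

def k114_pm_012_s : ∃ t, chk3 f_pm_012_s t 12 29 1 = true :=
  ⟨(a (b (a (b (c (a (b (l 16591752) (l 16587984)) (b (l 16586528) (l 16582672))) (a (b (l 16581168) (l 16577600)) (b (l 16575048) (l 16571392)))) (a (c (b (l 16584216) (l 16580440)) (l 16582784)) (c (a (l 16578224) (l 16575552)) (l 16576440)))) (b (a (c (a (l 16580776) (b (l 16580072) (l 16576104))) (a (l 16568720) (b (l 16567592) (l 16563816)))) (c (b (l 16575672) (l 16571624)) (b (l 16562984) (l 16559144)))) (a (c (a (l 16572928) (l 16591104)) (a (l 16561328) (l 16558216))) (c (b (l 16567568) (l 16563496)) (b (l 16555336) (l 16551544)))))) (a (b (c (a (l 16585272) (b (l 16571088) (l 16567232))) (a (l 16565336) (l 16558816))) (c (a (l 16567272) (l 16561464)) (a (l 16558520) (l 16551824)))) (b (a (c (a (l 16565064) (l 16562176)) (b (l 16554264) (l 16550640))) (c (c (l 16560112) (l 16554608)) (l 16545912))) (a (c (a (l 16557232) (l 16554240)) (l 16545272)) (c (b (l 16551304) (l 6)) (l 16538552)))))) (b (a (a (a (b (c (l 16569272) (l 16556496))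 (c (l 16561000) (l 16548736))) (b (c (l 16566376) (l 16553480)) (l 6))) (l 6)) (l 6)) (l 6))), by decide +kernel⟩

def k115_pm_012_s : ∃ t, chk3 f_pm_012_s t 13 14 1 = true :=
  ⟨(l 6), by decide +kernel⟩

def k116_pm_012_s : ∃ t, chk3 f_pm_012_s t 6 15 1 = true :=
  ⟨(a (b (a (b (a (b (b (a (c (l 16562176) (l 16553888)) (c (l 16556088) (l 16546968))) (c (l 16557848) (l 16548904))) (c (a (l 16559512) (l 16553392)) (a (l 16550456) (l 16543568)))) (a (b (b (c (b (l 16550824) (l 16549224)) (l 16540208)) (c (l 16548552) (l 16538512))) (l 6)) (l 6))) (a (a (b (c (l 16557200) (l 16547544)) (c (l 16554496) (l 16544312))) (b (c (c (l 16553768) (l 16548664)) (l 16540832)) (l 6))) (l 6))) (l 6)) (l 6)) (l 6)), by decide +kernel⟩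

def k117_pm_012_s : ∃ t, chk3 f_pm_012_s t 7 1 1 = true :=
  ⟨(b (l 2) (l 6)), by decide +kernel⟩

theorem s118_pm_012_s : ∃ t, chk3 f_pm_012_s t 12 14 1 = true := ex3_b k113_pm_012_s k114_pm_012_s

theorem s119_pm_012_s : ∃ t, chk3 f_pm_012_s t 6 14 1 = true := ex3_a s118_pm_012_s k115_pm_012_s

theorem s120_pm_012_s : ∃ t, chk3 f_pm_012_s t 6 7 1 = true := ex3_b s119_pm_012_s k116_pm_012_s

theorem s121_pm_012_s : ∃ t, chk3 f_pm_012_s t 6 3 1 = true := ex3_b k112_pm_012_s s120_pm_012_s

theorem s122_pm_012_s : ∃ t, chk3 f_pm_012_s t 6 1 1 = true := ex3_b k111_pm_012_s s121_pm_012_s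

theorem s123_pm_012_s : ∃ t, chk3 f_pm_012_s t 3 1 1 = true := ex3_a s122_pm_012_s k117_pm_012_s

theorem s124_pm_012_s : ∃ t, chk3 f_pm_012_s t 11 29 1 = true := ex3_a k108_pm_012_s k109_pm_012_s

theorem s125_pm_012_s : ∃ t, chk3 f_pm_012_s t 11 28 1 = true := ex3_a k106_pm_012_s k107_pm_012_s

theorem s126_pm_012_s : ∃ t, chk3 f_pm_012_s t 11 14 1 = true := ex3_b s125_pm_012_s s124_pm_012_s

theorem s127_pm_012_s : ∃ t, chk3 f_pm_012_s t 11 7 1 = true := ex3_b s126_pm_012_s k110_pm_012_s

theorem s128_pm_012_s : ∃ t, chk3 f_pm_012_s t 21 15 1 = true := ex3_b k104_pm_012_s k105_pm_012_s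

theorem s129_pm_012_s : ∃ t, chk3 f_pm_012_s t 21 14 1 = true := ex3_b k102_pm_012_s k103_pm_012_s

theorem s130_pm_012_s : ∃ t, chk3 f_pm_012_s t 21 7 1 = true := ex3_b s129_pm_012_s s128_pm_012_s

theorem s131_pm_012_s : ∃ t, chk3 f_pm_012_s t 1340 15 1 = true := ex3_a k98_pm_012_s k99_pm_012_s

theorem s132_pm_012_s : ∃ t, chk3 f_pm_012_s t 670 15 1 = true := ex3_a s131_pm_012_s k100_pm_012_s

theorem s133_pm_012_s : ∃ t, chk3 f_pm_012_s t 335 15 1 = true := ex3_a s132_pm_012_s k101_pm_012_s

theorem s134_pm_012_s : ∃ t, chk3 f_pm_012_s t 167 15 1 = true := ex3_a k97_pm_012_s s133_pm_012_s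

theorem s135_pm_012_s : ∃ t, chk3 f_pm_012_s t 83 15 1 = true := ex3_a k96_pm_012_s s134_pm_012_s

theorem s136_pm_012_s : ∃ t, chk3 f_pm_012_s t 41 15 1 = true := ex3_a k95_pm_012_s s135_pm_012_s

theorem s137_pm_012_s : ∃ t, chk3 f_pm_012_s t 335 29 1 = true := ex3_b k93_pm_012_s k94_pm_012_s

theorem s138_pm_012_s : ∃ t, chk3 f_pm_012_s t 670 28 3 = true := ex3_b k90_pm_012_s k91_pm_012_s

theorem s139_pm_012_s : ∃ t, chk3 f_pm_012_s t 335 28 3 = true := ex3_a s138_pm_012_s k92_pm_012_s

theorem s140_pm_012_s : ∃ t, chk3 f_pm_012_s t 335 28 1 = true := ex3_c k89_pm_012_s s139_pm_012_s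

theorem s141_pm_012_s : ∃ t, chk3 f_pm_012_s t 335 14 1 = true := ex3_b s140_pm_012_s s137_pm_012_s

theorem s142_pm_012_s : ∃ t, chk3 f_pm_012_s t 167 14 1 = true := ex3_a k88_pm_012_s s141_pm_012_s

theorem s143_pm_012_s : ∃ t, chk3 f_pm_012_s t 83 14 1 = true := ex3_a k87_pm_012_s s142_pm_012_s

theorem s144_pm_012_s : ∃ t, chk3 f_pm_012_s t 82 28 1 = true := ex3_b k84_pm_012_s k85_pm_012_s

theorem s145_pm_012_s : ∃ t, chk3 f_pm_012_s t 82 14 1 = true := ex3_b s144_pm_012_s k86_pm_012_s

theorem s146_pm_012_s : ∃ t, chk3 f_pm_012_s t 41 14 1 = true := ex3_a s145_pm_012_s s143_pm_012_s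

theorem s147_pm_012_s : ∃ t, chk3 f_pm_012_s t 41 7 1 = true := ex3_b s146_pm_012_s s136_pm_012_s

theorem s148_pm_012_s : ∃ t, chk3 f_pm_012_s t 80 28 1 = true := ex3_b k79_pm_012_s k80_pm_012_s

theorem s149_pm_012_s : ∃ t, chk3 f_pm_012_s t 40 28 1 = true := ex3_a s148_pm_012_s k81_pm_012_s

theorem s150_pm_012_s : ∃ t, chk3 f_pm_012_s t 40 14 1 = true := ex3_b s149_pm_012_s k82_pm_012_s

theorem s151_pm_012_s : ∃ t, chk3 f_pm_012_s t 40 7 1 = true := ex3_b s150_pm_012_s k83_pm_012_s

theorem s152_pm_012_s : ∃ t, chk3 f_pm_012_s t 20 7 1 = true := ex3_a s151_pm_012_s s147_pm_012_s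

theorem s153_pm_012_s : ∃ t, chk3 f_pm_012_s t 10 7 1 = true := ex3_a s152_pm_012_s s130_pm_012_s

theorem s154_pm_012_s : ∃ t, chk3 f_pm_012_s t 5 7 1 = true := ex3_a s153_pm_012_s s127_pm_012_s

theorem s155_pm_012_s : ∃ t, chk3 f_pm_012_s t 11 6 1 = true := ex3_a k77_pm_012_s k78_pm_012_s

theorem s156_pm_012_s : ∃ t, chk3 f_pm_012_s t 21 6 1 = true := ex3_b k75_pm_012_s k76_pm_012_s

theorem s157_pm_012_s : ∃ t, chk3 f_pm_012_s t 83 27 1 = true := ex3_b k73_pm_012_s k74_pm_012_s

theorem s158_pm_012_s : ∃ t, chk3 f_pm_012_s t 83 13 1 = true := ex3_b k72_pm_012_s s157_pm_012_s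

theorem s159_pm_012_s : ∃ t, chk3 f_pm_012_s t 83 12 1 = true := ex3_a k70_pm_012_s k71_pm_012_s

theorem s160_pm_012_s : ∃ t, chk3 f_pm_012_s t 83 6 1 = true := ex3_b s159_pm_012_s s158_pm_012_s

theorem s161_pm_012_s : ∃ t, chk3 f_pm_012_s t 82 6 1 = true := ex3_b k68_pm_012_s k69_pm_012_s

theorem s162_pm_012_s : ∃ t, chk3 f_pm_012_s t 41 6 1 = true := ex3_a s161_pm_012_s s160_pm_012_s

theorem s163_pm_012_s : ∃ t, chk3 f_pm_012_s t 40 27 1 = true := ex3_a k66_pm_012_s k67_pm_012_s

theorem s164_pm_012_s : ∃ t, chk3 f_pm_012_s t 40 13 1 = true := ex3_b k65_pm_012_s s163_pm_012_s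

theorem s165_pm_012_s : ∃ t, chk3 f_pm_012_s t 40 6 1 = true := ex3_b k64_pm_012_s s164_pm_012_s

theorem s166_pm_012_s : ∃ t, chk3 f_pm_012_s t 20 6 1 = true := ex3_a s165_pm_012_s s162_pm_012_s

theorem s167_pm_012_s : ∃ t, chk3 f_pm_012_s t 10 6 1 = true := ex3_a s166_pm_012_s s156_pm_012_s

theorem s168_pm_012_s : ∃ t, chk3 f_pm_012_s t 5 6 1 = true := ex3_a s167_pm_012_s s155_pm_012_s

theorem s169_pm_012_s : ∃ t, chk3 f_pm_012_s t 5 3 1 = true := ex3_b s168_pm_012_s s154_pm_012_s

theorem s170_pm_012_s : ∃ t, chk3 f_pm_012_s t 41 11 1 = true := ex3_a k60_pm_012_s k61_pm_012_s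

theorem s171_pm_012_s : ∃ t, chk3 f_pm_012_s t 41 5 1 = true := ex3_b k59_pm_012_s s170_pm_012_s

theorem s172_pm_012_s : ∃ t, chk3 f_pm_012_s t 41 2 1 = true := ex3_b k58_pm_012_s s171_pm_012_s

theorem s173_pm_012_s : ∃ t, chk3 f_pm_012_s t 20 2 1 = true := ex3_a k57_pm_012_s s172_pm_012_s

theorem s174_pm_012_s : ∃ t, chk3 f_pm_012_s t 10 2 1 = true := ex3_a s173_pm_012_s k62_pm_012_s

theorem s175_pm_012_s : ∃ t, chk3 f_pm_012_s t 5 2 1 = true := ex3_a s174_pm_012_s k63_pm_012_s

theorem s176_pm_012_s : ∃ t, chk3 f_pm_012_s t 5 1 1 = true := ex3_b s175_pm_012_s s169_pm_012_s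

theorem s177_pm_012_s : ∃ t, chk3 f_pm_012_s t 19 15 1 = true := ex3_b k55_pm_012_s k56_pm_012_s

theorem s178_pm_012_s : ∃ t, chk3 f_pm_012_s t 39 28 1 = true := ex3_a k52_pm_012_s k53_pm_012_s

theorem s179_pm_012_s : ∃ t, chk3 f_pm_012_s t 39 14 1 = true := ex3_b s178_pm_012_s k54_pm_012_s

theorem s180_pm_012_s : ∃ t, chk3 f_pm_012_s t 38 28 1 = true := ex3_a k49_pm_012_s k50_pm_012_s

theorem s181_pm_012_s : ∃ t, chk3 f_pm_012_s t 38 14 1 = true := ex3_b s180_pm_012_s k51_pm_012_s

theorem s182_pm_012_s : ∃ t, chk3 f_pm_012_s t 19 14 1 = true := ex3_a s181_pm_012_s s179_pm_012_s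

theorem s183_pm_012_s : ∃ t, chk3 f_pm_012_s t 19 7 1 = true := ex3_b s182_pm_012_s s177_pm_012_s

theorem s184_pm_012_s : ∃ t, chk3 f_pm_012_s t 18 15 1 = true := ex3_b k47_pm_012_s k48_pm_012_s

theorem s185_pm_012_s : ∃ t, chk3 f_pm_012_s t 36 58 1 = true := ex3_a k43_pm_012_s k44_pm_012_s

theorem s186_pm_012_s : ∃ t, chk3 f_pm_012_s t 36 29 1 = true := ex3_b s185_pm_012_s k45_pm_012_s

theorem s187_pm_012_s : ∃ t, chk3 f_pm_012_s t 18 29 1 = true := ex3_a s186_pm_012_s k46_pm_012_s

theorem s188_pm_012_s : ∃ t, chk3 f_pm_012_s t 150 56 1 = true := ex3_b k39_pm_012_s k40_pm_012_s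

theorem s189_pm_012_s : ∃ t, chk3 f_pm_012_s t 75 56 1 = true := ex3_a s188_pm_012_s k41_pm_012_s

theorem s190_pm_012_s : ∃ t, chk3 f_pm_012_s t 75 28 1 = true := ex3_b s189_pm_012_s k42_pm_012_s

theorem s191_pm_012_s : ∃ t, chk3 f_pm_012_s t 149 28 1 = true := ex3_b k37_pm_012_s k38_pm_012_s

theorem s192_pm_012_s : ∃ t, chk3 f_pm_012_s t 74 28 1 = true := ex3_a k36_pm_012_s s191_pm_012_s

theorem s193_pm_012_s : ∃ t, chk3 f_pm_012_s t 37 28 1 = true := ex3_a s192_pm_012_s s190_pm_012_s

theorem s194_pm_012_s : ∃ t, chk3 f_pm_012_s t 18 28 1 = true := ex3_a k35_pm_012_s s193_pm_012_s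

theorem s195_pm_012_s : ∃ t, chk3 f_pm_012_s t 18 14 1 = true := ex3_b s194_pm_012_s s187_pm_012_s

theorem s196_pm_012_s : ∃ t, chk3 f_pm_012_s t 18 7 1 = true := ex3_b s195_pm_012_s s184_pm_012_s

theorem s197_pm_012_s : ∃ t, chk3 f_pm_012_s t 9 7 1 = true := ex3_a s196_pm_012_s s183_pm_012_s

theorem s198_pm_012_s : ∃ t, chk3 f_pm_012_s t 17 62 1 = true := ex3_a k32_pm_012_s k33_pm_012_s

theorem s199_pm_012_s : ∃ t, chk3 f_pm_012_s t 17 31 1 = true := ex3_b s198_pm_012_s k34_pm_012_s

theorem s200_pm_012_s : ∃ t, chk3 f_pm_012_s t 35 60 1 = true := ex3_b k29_pm_012_s k30_pm_012_s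

theorem s201_pm_012_s : ∃ t, chk3 f_pm_012_s t 35 30 1 = true := ex3_b s200_pm_012_s k31_pm_012_s

theorem s202_pm_012_s : ∃ t, chk3 f_pm_012_s t 69 61 1 = true := ex3_b k27_pm_012_s k28_pm_012_s

theorem s203_pm_012_s : ∃ t, chk3 f_pm_012_s t 68 61 1 = true := ex3_a k25_pm_012_s k26_pm_012_s

theorem s204_pm_012_s : ∃ t, chk3 f_pm_012_s t 34 61 1 = true := ex3_a s203_pm_012_s s202_pm_012_s

theorem s205_pm_012_s : ∃ t, chk3 f_pm_012_s t 34 30 1 = true := ex3_b k24_pm_012_s s204_pm_012_s

theorem s206_pm_012_s : ∃ t, chk3 f_pm_012_s t 17 30 1 = true := ex3_a s205_pm_012_s s201_pm_012_s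

theorem s207_pm_012_s : ∃ t, chk3 f_pm_012_s t 17 15 1 = true := ex3_b s206_pm_012_s s199_pm_012_s

theorem s208_pm_012_s : ∃ t, chk3 f_pm_012_s t 8 15 1 = true := ex3_a k23_pm_012_s s207_pm_012_s

theorem s209_pm_012_s : ∃ t, chk3 f_pm_012_s t 8 7 1 = true := ex3_b k22_pm_012_s s208_pm_012_s

theorem s210_pm_012_s : ∃ t, chk3 f_pm_012_s t 4 7 1 = true := ex3_a s209_pm_012_s s197_pm_012_s

theorem s211_pm_012_s : ∃ t, chk3 f_pm_012_s t 39 55 1 = true := ex3_a k20_pm_012_s k21_pm_012_s

theorem s212_pm_012_s : ∃ t, chk3 f_pm_012_s t 39 27 1 = true := ex3_b k19_pm_012_s s211_pm_012_s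

theorem s213_pm_012_s : ∃ t, chk3 f_pm_012_s t 39 13 1 = true := ex3_b k18_pm_012_s s212_pm_012_s

theorem s214_pm_012_s : ∃ t, chk3 f_pm_012_s t 152 55 1 = true := ex3_a k14_pm_012_s k15_pm_012_s

theorem s215_pm_012_s : ∃ t, chk3 f_pm_012_s t 76 55 1 = true := ex3_a s214_pm_012_s k16_pm_012_s

theorem s216_pm_012_s : ∃ t, chk3 f_pm_012_s t 76 27 1 = true := ex3_b k13_pm_012_s s215_pm_012_s

theorem s217_pm_012_s : ∃ t, chk3 f_pm_012_s t 38 27 1 = true := ex3_a s216_pm_012_s k17_pm_012_s

theorem s218_pm_012_s : ∃ t, chk3 f_pm_012_s t 38 13 1 = true := ex3_b k12_pm_012_s s217_pm_012_s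

theorem s219_pm_012_s : ∃ t, chk3 f_pm_012_s t 19 13 1 = true := ex3_a s218_pm_012_s s213_pm_012_s

theorem s220_pm_012_s : ∃ t, chk3 f_pm_012_s t 19 6 1 = true := ex3_b k11_pm_012_s s219_pm_012_s

theorem s221_pm_012_s : ∃ t, chk3 f_pm_012_s t 151 111 1 = true := ex3_b k9_pm_012_s k10_pm_012_s

theorem s222_pm_012_s : ∃ t, chk3 f_pm_012_s t 151 55 1 = true := ex3_b k8_pm_012_s s221_pm_012_s

theorem s223_pm_012_s : ∃ t, chk3 f_pm_012_s t 75 55 1 = true := ex3_a k7_pm_012_s s222_pm_012_s

theorem s224_pm_012_s : ∃ t, chk3 f_pm_012_s t 75 27 1 = true := ex3_b k6_pm_012_s s223_pm_012_s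

theorem s225_pm_012_s : ∃ t, chk3 f_pm_012_s t 37 27 1 = true := ex3_a k5_pm_012_s s224_pm_012_s

theorem s226_pm_012_s : ∃ t, chk3 f_pm_012_s t 37 13 1 = true := ex3_b k4_pm_012_s s225_pm_012_s

theorem s227_pm_012_s : ∃ t, chk3 f_pm_012_s t 18 13 1 = true := ex3_a k3_pm_012_s s226_pm_012_s

theorem s228_pm_012_s : ∃ t, chk3 f_pm_012_s t 18 6 1 = true := ex3_b k2_pm_012_s s227_pm_012_s

theorem s229_pm_012_s : ∃ t, chk3 f_pm_012_s t 9 6 1 = true := ex3_a s228_pm_012_s s220_pm_012_s

theorem s230_pm_012_s : ∃ t, chk3 f_pm_012_s t 4 6 1 = true := ex3_a k1_pm_012_s s229_pm_012_s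

theorem s231_pm_012_s : ∃ t, chk3 f_pm_012_s t 4 3 1 = true := ex3_b s230_pm_012_s s210_pm_012_s

theorem s232_pm_012_s : ∃ t, chk3 f_pm_012_s t 4 1 1 = true := ex3_b k0_pm_012_s s231_pm_012_s

theorem s233_pm_012_s : ∃ t, chk3 f_pm_012_s t 2 1 1 = true := ex3_a s232_pm_012_s s176_pm_012_s

theorem s234_pm_012_s : ∃ t, chk3 f_pm_012_s t 1 1 1 = true := ex3_a s233_pm_012_s s123_pm_012_s

theorem c_pm_012_s : CertNE 0 536870912 536870912 536870912 587336777 62277027 3 eng mog cd0q0 cd0q1 pd2 true true false .pnp 0 1 2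
    ndB0q0 ndB0q1 pcB2 cut_pm_012_s Ext.none :=
  certNE2 (fam := true) (s1 := true) (s2 := false) (a := 0) (b := 1) (c := 2) (cn := .pnp) (n1 := ndB0q0) (n2 := ndB0q1) (pc := pcB2) (cut := cut_pm_012_s) (xt := Ext.none) (P1 := 0) (W1 := 536870912) (P2 := 536870912) (W2 := 536870912) (P3 := 587336777) (W3 := 62277027) (N0 := 3) (En := eng) (mo := mog) (C1 := cd0q0) (C2 := cd0q1) (C3 := pd2)
    rfl (fun _ => rfl) s234_pm_012_s

noncomputable def cut_pm_012_t : Cut := Cut.of [[⟨3, 0, 0, 2845415833⟩], [⟨0, 0, 0, 67108864⟩, ⟨1, 1, 0, 67108864⟩, ⟨2, 1, 0, 67108864⟩]]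

noncomputable def f_pm_012_t : ℕ → ℕ → ℕ → ℕ → Bool := onCell 0 536870912 536870912 536870912 587336777 62277027
    (rowNE 3 eng mog cd0q0 cd0q1 pd2 0 true true false .pnp 0 1 2 (qsf 0 536870912 536870912 536870912 2) ndB0q0 ndB0q1 pcB2 cut_pm_012_t Ext.none)

def k0_pm_012_t : ∃ t, chk3 f_pm_012_t t 1 1 1 = true :=
  ⟨(l 6), by decide +kernel⟩

theorem c_pm_012_t : CertNE 0 536870912 536870912 536870912 587336777 62277027 3 eng mog cd0q0 cd0q1 pd2 true true false .pnp 0 1 2
    ndB0q0 ndB0q1 pcB2 cut_pm_012_t Ext.none :=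
  certNE0 (fam := true) (s1 := true) (s2 := false) (a := 0) (b := 1) (c := 2) (cn := .pnp) (n1 := ndB0q0) (n2 := ndB0q1) (pc := pcB2) (cut := cut_pm_012_t) (xt := Ext.none) (P1 := 0) (W1 := 536870912) (P2 := 536870912) (W2 := 536870912) (P3 := 587336777) (W3 := 62277027) (N0 := 3) (En := eng) (mo := mog) (C1 := cd0q0) (C2 := cd0q1) (C3 := pd2)
    rfl k0_pm_012_t

noncomputable def cut_pm_022_s : Cut := Cut.of [[⟨4, 0, 0, 1449551462⟩], [⟨0, 0, 0, 67108864⟩, ⟨1, 1, 0, 67108864⟩, ⟨2, 1, 0, 67108864⟩]]

noncomputable def f_pm_022_s : ℕ → ℕ → ℕ → ℕ → Bool := onCell 1073741824 536870912 0 536870912 587336777 62277027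
    (rowNE 3 eng mog cd0q0 cd0q2 pd2 2 true true false .pp 0 2 2 (qsf 0 536870912 0 536870912 2) ndB0q0 ndB0q2 pcB2 cut_pm_022_s Ext.none)

def k0_pm_022_s : ∃ t, chk3 f_pm_022_s t 8 1 1 = true :=
  ⟨(b (l 1) (b (l 1) (b (a (l 1) (b (a (l 1) (a (l 1) (b (l 1) (c (l 16648592) (l 16642480))))) (a (l 14) (a (l 14) (a (l 14) (b (l 16657240) (l 16669288))))))) (a (l 14) (a (l 14) (a (l 14) (a (l 14) (b (b (l 16680912) (l 16692096)) (b (b (l 16698088) (l 16701576)) (b (l 16704864) (c (l 16708992) (l 16706984)))))))))))), by decide +kernel⟩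

def k1_pm_022_s : ∃ t, chk3 f_pm_022_s t 9 2 1 = true :=
  ⟨(l 6), by decide +kernel⟩

def k2_pm_022_s : ∃ t, chk3 f_pm_022_s t 9 6 1 = true :=
  ⟨(b (a (l 1) (l 6)) (a (b (a (l 1) (b (a (l 1) (l 16573336)) (a (l 16586808) (l 58552103111)))) (a (a (l 1) (b (l 16601224) (l 16613688))) (b (a (l 38687910583) (l 16596184)) (a (l 16610608) (l 16607280))))) (b (a (b (a (c (l 16575784) (l 16567016)) (l 6)) (a (l 16582608) (l 16580112))) (l 6)) (a (b (a (l 16593296) (l 16590168)) (a (l 16603744) (l 16600000))) (b (c (l 16586752) (l 16582752)) (l 16594056)))))), by decide +kernel⟩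

def k3_pm_022_s : ∃ t, chk3 f_pm_022_s t 9 7 1 = true :=
  ⟨(b (a (b (a (b (a (l 16629320) (l 16625792)) (a (l 16641720) (l 16637512))) (b (a (l 16622032) (l 16618064)) (a (l 16633120) (l 16628536)))) (a (b (a (l 16653704) (l 16648856)) (a (b (l 16662400) (l 16668088)) (l 16659824))) (b (a (l 16643856) (l 16638688)) (l 16672344)))) (b (a (b (c (l 16613208) (l 16609784)) (l 16621368)) (c (l 16607640) (l 16606208))) (a (c (l 16666728) (l 16634720)) (a (l 16646688) (l 16671840))))) (b (a (a (b (c (l 16684488) (l 16672552)) (a (l 16707680) (l 16699896))) (b (l 16681392) (c (c (l 16699688) (l 16667656)) (l 16667360)))) (b (a (c (l 16646552) (l 16645984)) (c (l 16654416) (l 16631728))) (a (a (l 16698240) (l 16649040)) (a (l 16641944) (l 16634992))))) (a (a (a (b (b (l 16692088) (l 16695496)) (b (l 16703944) (b (l 16711432) (c (l 16706288) (l 16701200))))) (b (b (l 16684144) (l 16687440)) (b (l 16701016) (b (l 16703168) (c (l 16695560) (l 16692696)))))) (a (b (a (l 16679888) (l 16675968)) (b (l 16682440)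 (c (a (l 16688808) (l 16684856)) (l 16688952)))) (b (b (l 16668584) (l 16671640)) (b (l 16674488) (c (a (l 16680944) (l 16677056)) (l 16675424)))))) (b (a (a (b (l 16660984) (l 16663912)) (b (l 16653544) (l 16656344))) (a (l 16668608) (c (l 16642584) (l 16638560)))) (a (b (a (l 16677128) (l 16669432)) (c (a (b (l 16670600) (c (l 16673152) (l 16670784))) (b (l 16663056) (c (l 16665672) (l 16663048)))) (a (l 16667208) (l 16659136)))) (b (a (l 16651392) (c (l 16646560) (l 16641656))) (c (a (b (l 16655648) (c (l 16658320) (l 16655448))) (b (l 16648368) (a (l 16651320) (l 16647672)))) (a (l 16651200) (l 16643384))))))))), by decide +kernel⟩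

def k4_pm_022_s : ∃ t, chk3 f_pm_022_s t 5 2 1 = true :=
  ⟨(l 6), by decide +kernel⟩

def k5_pm_022_s : ∃ t, chk3 f_pm_022_s t 5 6 1 = true :=
  ⟨(a (a (a (b (l 6) (b (l 6) (c (l 16582376) (l 16580592)))) (l 6)) (l 6)) (l 6)), by decide +kernel⟩

def k6_pm_022_s : ∃ t, chk3 f_pm_022_s t 5 14 1 = true :=
  ⟨(a (a (a (b (l 16638928) (b (l 16606992) (l 16676272))) (a (b (l 16589072) (c (l 16602944) (l 16600544))) (b (a (l 16585272) (a (l 16583400) (l 16582160))) (a (l 16660200) (a (l 16658112) (c (l 16616144) (l 16592728))))))) (b (a (l 6) (l 6)) (a (a (l 16632272) (l 16637376)) (b (l 6) (l 16578984))))) (l 6)), by decide +kernel⟩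

def k7_pm_022_s : ∃ t, chk3 f_pm_022_s t 20 15 1 = true :=
  ⟨(a (b (b (a (l 16622520) (l 16616144)) (a (l 16628200) (l 16621544))) (b (a (c (l 16635752) (l 16631232)) (c (l 16629016) (l 16624048))) (b (a (c (l 16639496) (l 16634120)) (c (l 16632528) (l 16626720))) (a (c (c (b (l 16642800) (l 16643928)) (l 16650616)) (l 16646192)) (c (c (b (l 16635792) (l 16636832)) (l 16638152)) (a (l 16630016) (l 16626280))))))) (a (b (b (l 16609928) (l 16636000)) (b (c (l 16643320) (l 16617024)) (c (b (a (l 16627344) (l 16623880)) (a (l 16639768) (b (l 16625288) (l 16626152)))) (b (l 16619472) (a (l 16622576) (c (l 16620584) (l 16617280))))))) (b (a (b (l 16605344) (l 16610216)) (a (b (l 16603080) (l 16607832)) (a (b (c (l 16624680) (l 16621344)) (c (l 16642784) (c (l 16626608) (l 16624712)))) (l 16624608)))) (a (b (c (l 16617320) (l 16611888)) (c (b (l 16620368) (a (l 16623048) (b (l 16620808) (l 16621608)))) (b (l 16614160) (a (l 16616208) (c (l 16616120) (l 16612760)))))) (a (b (c (l 16614688) (l 16609432))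 (b (c (l 16617624) (a (l 16612008) (l 16611200))) (c (a (l 16619816) (a (l 16619080) (l 16618568))) (a (l 16613128) (c (l 16613936) (l 16610648)))))) (a (b (a (a (l 16611064) (a (l 16610904) (b (l 16609816) (l 16611696)))) (l 16610536)) (b (a (a (l 16613624) (a (l 16613456) (c (l 16616080) (l 16610568)))) (l 16613064)) (a (a (c (l 16618152) (b (l 16611560) (l 16612016))) (a (c (l 16617912) (b (l 16611440) (l 16611896))) (a (a (c (l 16617784) (l 16611656)) (b (l 16624896) (c (l 16618072) (c (l 16613456) (l 16610264))))) (c (l 16617672) (l 16611616))))) (c (l 16617432) (l 16611352))))) (b (l 16609896) (b (l 16612408) (c (l 16616776) (l 16610656)))))))))), by decide +kernel⟩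

def k8_pm_022_s : ∃ t, chk3 f_pm_022_s t 21 15 1 = true :=
  ⟨(b (a (c (b (l 16596976) (l 16601544)) (b (l 16592896) (l 16617792))) (b (l 16583064) (l 16586664))) (a (b (a (l 16627088) (b (l 16598696) (l 16621240))) (a (b (l 16621584) (c (b (l 16612552) (l 16613224)) (c (l 16608120) (l 16604864)))) (b (c (l 16604856) (l 16598416)) (c (a (l 16607832) (b (l 16604200) (l 16615240))) (a (l 16601008) (a (l 16598288) (l 16596496))))))) (b (b (l 16588976) (l 16611256)) (b (c (l 16594776) (l 16588024)) (c (a (l 16609768) (l 16592400)) (a (l 16602544) (l 16584984))))))), by decide +kernel⟩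

def k9_pm_022_s : ∃ t, chk3 f_pm_022_s t 11 15 1 = true :=
  ⟨(a (a (b (b (l 16571384) (l 16574352)) (b (c (l 16580048) (l 16573600)) (b (c (l 16581592) (l 16574360)) (c (a (l 16585656) (l 16579048)) (l 16574488))))) (b (l 6) (b (l 16585208) (b (l 16585936) (c (a (l 16572608) (l 16566328)) (l 16560816)))))) (b (l 6) (b (l 6) (b (l 6) (a (c (l 16557232) (l 16547632)) (l 6)))))), by decide +kernel⟩

def k10_pm_022_s : ∃ t, chk3 f_pm_022_s t 3 1 1 = true :=
  ⟨(b (l 6) (l 6)), by decide +kernel⟩

theorem s11_pm_022_s : ∃ t, chk3 f_pm_022_s t 10 15 1 = true := ex3_a k7_pm_022_s k8_pm_022_s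

theorem s12_pm_022_s : ∃ t, chk3 f_pm_022_s t 5 15 1 = true := ex3_a s11_pm_022_s k9_pm_022_s

theorem s13_pm_022_s : ∃ t, chk3 f_pm_022_s t 5 7 1 = true := ex3_b k6_pm_022_s s12_pm_022_s

theorem s14_pm_022_s : ∃ t, chk3 f_pm_022_s t 5 3 1 = true := ex3_b k5_pm_022_s s13_pm_022_s

theorem s15_pm_022_s : ∃ t, chk3 f_pm_022_s t 5 1 1 = true := ex3_b k4_pm_022_s s14_pm_022_s

theorem s16_pm_022_s : ∃ t, chk3 f_pm_022_s t 9 3 1 = true := ex3_b k2_pm_022_s k3_pm_022_s

theorem s17_pm_022_s : ∃ t, chk3 f_pm_022_s t 9 1 1 = true := ex3_b k1_pm_022_s s16_pm_022_s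

theorem s18_pm_022_s : ∃ t, chk3 f_pm_022_s t 4 1 1 = true := ex3_a k0_pm_022_s s17_pm_022_s

theorem s19_pm_022_s : ∃ t, chk3 f_pm_022_s t 2 1 1 = true := ex3_a s18_pm_022_s s15_pm_022_s

theorem s20_pm_022_s : ∃ t, chk3 f_pm_022_s t 1 1 1 = true := ex3_a s19_pm_022_s k10_pm_022_s

theorem c_pm_022_s : CertNE 0 536870912 0 536870912 587336777 62277027 3 eng mog cd0q0 cd0q2 pd2 true true false .pp 0 2 2
    ndB0q0 ndB0q2 pcB2 cut_pm_022_s Ext.none :=
  certNE2 (fam := true) (s1 := true) (s2 := false) (a := 0) (b := 2) (c := 2) (cn := .pp) (n1 := ndB0q0) (n2 := ndB0q2) (pc := pcB2) (cut := cut_pm_022_s) (xt := Ext.none) (P1 := 0) (W1 := 536870912) (P2 := 0) (W2 := 536870912) (P3 := 587336777) (W3 := 62277027) (N0 := 3) (En := eng) (mo := mog) (C1 := cd0q0) (C2 := cd0q2) (C3 := pd2)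
    rfl (fun _ => rfl) s20_pm_022_s

noncomputable def cut_pm_022_t : Cut := Cut.of [[⟨3, 0, 0, 2845415833⟩], [⟨0, 0, 0, 67108864⟩, ⟨1, 1, 0, 67108864⟩, ⟨2, 1, 0, 67108864⟩]]

noncomputable def f_pm_022_t : ℕ → ℕ → ℕ → ℕ → Bool := onCell 1073741824 536870912 0 536870912 587336777 62277027
    (rowNE 3 eng mog cd0q0 cd0q2 pd2 2 true true false .pp 0 2 2 (qsf 0 536870912 0 536870912 2) ndB0q0 ndB0q2 pcB2 cut_pm_022_t Ext.none)

def k0_pm_022_t : ∃ t, chk3 f_pm_022_t t 1 1 1 = true :=
  ⟨(a (l 6) (b (l 6) (l 6))), by decide +kernel⟩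

theorem c_pm_022_t : CertNE 0 536870912 0 536870912 587336777 62277027 3 eng mog cd0q0 cd0q2 pd2 true true false .pp 0 2 2
    ndB0q0 ndB0q2 pcB2 cut_pm_022_t Ext.none :=
  certNE2 (fam := true) (s1 := true) (s2 := false) (a := 0) (b := 2) (c := 2) (cn := .pp) (n1 := ndB0q0) (n2 := ndB0q2) (pc := pcB2) (cut := cut_pm_022_t) (xt := Ext.none) (P1 := 0) (W1 := 536870912) (P2 := 0) (W2 := 536870912) (P3 := 587336777) (W3 := 62277027) (N0 := 3) (En := eng) (mo := mog) (C1 := cd0q0) (C2 := cd0q2) (C3 := pd2)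
    rfl (fun _ => rfl) k0_pm_022_t

noncomputable def cut_pm_023_s : Cut := Cut.of [[⟨4, 0, 0, 1449551462⟩]]

noncomputable def f_pm_023_s : ℕ → ℕ → ℕ → ℕ → Bool := onCell 1610612736 536870912 0 536870912 587336777 62277027
    (rowNE 3 eng mog cd0q0 cd0q2 pd3 2 true true false .up 0 2 3 (qsf 0 536870912 0 536870912 3) ndB0q0 ndB0q2 pcB3 cut_pm_023_s Ext.none)

def k0_pm_023_s : ∃ t, chk3 f_pm_023_s t 1 1 1 = true :=
  ⟨(l 6), by decide +kernel⟩

theorem c_pm_023_s : CertNE 0 536870912 0 536870912 587336777 62277027 3 eng mog cd0q0 cd0q2 pd3 true true false .up 0 2 3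
    ndB0q0 ndB0q2 pcB3 cut_pm_023_s Ext.none :=
  certNE2 (fam := true) (s1 := true) (s2 := false) (a := 0) (b := 2) (c := 3) (cn := .up) (n1 := ndB0q0) (n2 := ndB0q2) (pc := pcB3) (cut := cut_pm_023_s) (xt := Ext.none) (P1 := 0) (W1 := 536870912) (P2 := 0) (W2 := 536870912) (P3 := 587336777) (W3 := 62277027) (N0 := 3) (En := eng) (mo := mog) (C1 := cd0q0) (C2 := cd0q2) (C3 := pd3)
    rfl (fun _ => rfl) k0_pm_023_s

noncomputable def cut_pm_023_t : Cut := Cut.of [[⟨3, 0, 0, 2845415833⟩]]

noncomputable def f_pm_023_t : ℕ → ℕ → ℕ → ℕ → Bool := onCell 0 536870912 0 536870912 587336777 62277027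
    (rowNE 3 eng mog cd0q0 cd0q2 pd3 0 true true false .up 0 2 3 (qsf 0 536870912 0 536870912 3) ndB0q0 ndB0q2 pcB3 cut_pm_023_t Ext.none)

def k0_pm_023_t : ∃ t, chk3 f_pm_023_t t 1 1 1 = true :=
  ⟨(a (l 1) (b (a (b (a (l 1) (b (a (l 1) (b (l 16675560) (l 6))) (l 6))) (l 6)) (b (a (b (a (b (l 16679408) (l 6)) (l 16692152)) (l 6)) (b (a (b (l 16700064) (l 16684080)) (a (l 16716536) (l 16729960))) (a (b (l 16667600) (l 6)) (b (l 16705080) (l 16692408))))) (a (l 6) (l 6)))) (l 6))), by decide +kernel⟩

theorem c_pm_023_t : CertNE 0 536870912 0 536870912 587336777 62277027 3 eng mog cd0q0 cd0q2 pd3 true true false .up 0 2 3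
    ndB0q0 ndB0q2 pcB3 cut_pm_023_t Ext.none :=
  certNE0 (fam := true) (s1 := true) (s2 := false) (a := 0) (b := 2) (c := 3) (cn := .up) (n1 := ndB0q0) (n2 := ndB0q2) (pc := pcB3) (cut := cut_pm_023_t) (xt := Ext.none) (P1 := 0) (W1 := 536870912) (P2 := 0) (W2 := 536870912) (P3 := 587336777) (W3 := 62277027) (N0 := 3) (En := eng) (mo := mog) (C1 := cd0q0) (C2 := cd0q2) (C3 := pd3)
    rfl k0_pm_023_t

noncomputable def cut_pm_101_s : Cut := Cut.of [[⟨4, 0, 0, 1449551462⟩], [⟨0, 1, 0, 67108864⟩, ⟨1, 0, 0, 67108864⟩, ⟨2, 1, 0, 67108864⟩]]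

noncomputable def f_pm_101_s : ℕ → ℕ → ℕ → ℕ → Bool := onCell 536870912 536870912 536870912 536870912 587336777 62277027
    (rowNE 3 eng mog cd0q1 cd0q0 pd1 1 true true false .npn 1 0 1 (qsf 536870912 536870912 0 536870912 1) ndB0q1 ndB0q0 pcB1 cut_pm_101_s Ext.none)

def k0_pm_101_s : ∃ t, chk3 f_pm_101_s t 1 1 1 = true :=
  ⟨(b (l 3) (a (l 3) (b (l 3) (a (l 3) (b (l 3) (a (l 3) (b (l 3) (a (l 3) (l 14))))))))), by decide +kernel⟩

theorem c_pm_101_s : CertNE 536870912 536870912 0 536870912 587336777 62277027 3 eng mog cd0q1 cd0q0 pd1 true true false .npn 1 0 1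
    ndB0q1 ndB0q0 pcB1 cut_pm_101_s Ext.none :=
  certNE1 (fam := true) (s1 := true) (s2 := false) (a := 1) (b := 0) (c := 1) (cn := .npn) (n1 := ndB0q1) (n2 := ndB0q0) (pc := pcB1) (cut := cut_pm_101_s) (xt := Ext.none) (P1 := 536870912) (W1 := 536870912) (P2 := 0) (W2 := 536870912) (P3 := 587336777) (W3 := 62277027) (N0 := 3) (En := eng) (mo := mog) (C1 := cd0q1) (C2 := cd0q0) (C3 := pd1)
    rfl (fun _ => rfl) k0_pm_101_s

noncomputable def cut_pm_101_t : Cut := Cut.of [[⟨3, 0, 0, 2845415833⟩], [⟨0, 1, 0, 67108864⟩, ⟨1, 0, 0, 67108864⟩, ⟨2, 1, 0, 67108864⟩]]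

noncomputable def f_pm_101_t : ℕ → ℕ → ℕ → ℕ → Bool := onCell 536870912 536870912 0 536870912 587336777 62277027
    (rowNE 3 eng mog cd0q1 cd0q0 pd1 0 true true false .npn 1 0 1 (qsf 536870912 536870912 0 536870912 1) ndB0q1 ndB0q0 pcB1 cut_pm_101_t Ext.none)

def k0_pm_101_t : ∃ t, chk3 f_pm_101_t t 1 1 1 = true :=
  ⟨(l 6), by decide +kernel⟩

theorem c_pm_101_t : CertNE 536870912 536870912 0 536870912 587336777 62277027 3 eng mog cd0q1 cd0q0 pd1 true true false .npn 1 0 1
    ndB0q1 ndB0q0 pcB1 cut_pm_101_t Ext.none :=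
  certNE0 (fam := true) (s1 := true) (s2 := false) (a := 1) (b := 0) (c := 1) (cn := .npn) (n1 := ndB0q1) (n2 := ndB0q0) (pc := pcB1) (cut := cut_pm_101_t) (xt := Ext.none) (P1 := 536870912) (W1 := 536870912) (P2 := 0) (W2 := 536870912) (P3 := 587336777) (W3 := 62277027) (N0 := 3) (En := eng) (mo := mog) (C1 := cd0q1) (C2 := cd0q0) (C3 := pd1)
    rfl k0_pm_101_t

end Pool.Agent.Strip051.G.I5470_6050.Tab.CS.BA00

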