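import Pool.Agent.Strip051.G.I5470_6050.Tab
import Pool.Agent.Strip051.PB.StripB

/-! # Strips, near vertex: certificates 2 (generated) -/

set_option linter.all false
set_option maxRecDepth 100000

namespace Pool.Agent.Strip051.G.I5470_6050.Tab.CS.BA00

open Pool.Agent.Strip051.PB Pool.Agent.Strip051.PB.T
open Pool.Agent.Strip051.G.I5470_6050.Tab

noncomputable def cut_pm_102_s : Cut := Cut.of [[⟨4, 0, 0, 1449551462⟩], [⟨0, 1, 0, 67108864⟩, ⟨1, 0, 0, 67108864⟩, ⟨2, 1, 0, 67108864⟩]]

noncomputable def f_pm_102_s : ℕ → ℕ → ℕ → ℕ → Bool := onCell 536870912 536870912 1073741824 536870912 587336777 62277027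
    (rowNE 3 eng mog cd0q1 cd0q0 pd2 1 true true false .npp 1 0 2 (qsf 536870912 536870912 0 536870912 2) ndB0q1 ndB0q0 pcB2 cut_pm_102_s Ext.none)

def k0_pm_102_s : ∃ t, chk3 f_pm_102_s t 2 4 1 = true :=
  ⟨(b (l 3) (l 3)), by decide +kernel⟩

def k1_pm_102_s : ∃ t, chk3 f_pm_102_s t 2 40 1 = true :=
  ⟨(a (l 3) (a (l 3) (b (l 3) (a (l 3) (b (a (l 3) (b (l 3) (a (l 3) (l 143512312503)))) (a (b (l 3) (a (l 230485399047) (l 116668766903))) (b (a (l 134385506103) (l 16775840)) (c (l 16780488) (l 16782704))))))))), by decide +kernel⟩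

def k2_pm_102_s : ∃ t, chk3 f_pm_102_s t 4 41 1 = true :=
  ⟨(l 2), by decide +kernel⟩

def k3_pm_102_s : ∃ t, chk3 f_pm_102_s t 10 41 1 = true :=
  ⟨(a (b (l 3) (a (l 2) (b (b (l 3) (a (l 2) (b (l 16777056) (l 16776992)))) (a (l 2) (b (b (l 16776648) (b (l 16776408) (l 16786584))) (b (b (b (l 16775544) (b (l 16774952) (l 16774248))) (l 16773904)) (l 16773760))))))) (a (b (l 3) (b (b (c (b (l 174650825927) (l 125795578551)) (b (l 185925115207) (l 140291090263))) (c (b (l 16782192) (l 16776664)) (b (l 16782104) (l 16776456)))) (b (b (a (l 16776400) (l 16786568)) (b (l 16775888) (l 16775368))) (b (b (b (l 16774688) (b (l 16774032) (a (l 16773592) (l 16772952)))) (l 16772928)) (l 16772728))))) (b (b (l 3) (b (l 3) (a (l 174650826247) (c (l 16782376) (l 16782336))))) (b (b (c (b (l 16782840) (l 16776624)) (b (l 16783440) (l 16776480))) (c (b (l 16776320) (l 16776048)) (b (l 16776072) (l 16775712)))) (b (b (c (l 16775664) (l 16775288)) (a (l 16785352) (l 16784776))) (b (b (b (l 16783992) (b (l 16778048)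 (a (l 16772328) (l 16761208)))) (l 16771672)) (l 16771400))))))), by decide +kernel⟩

def k4_pm_102_s : ∃ t, chk3 f_pm_102_s t 11 82 1 = true :=
  ⟨(a (b (a (l 3) (b (a (l 3) (l 189146341575)) (a (l 150491635447) (c (l 16776768) (l 16776656))))) (b (a (a (l 179482663575) (l 110763189287)) (a (l 16781728) (l 16775696))) (a (a (a (l 16776952) (l 16776696)) (l 16776248)) (a (l 16775584) (c (l 16775136) (l 16774704)))))) (b (a (a (b (c (l 16782200) (l 16782120)) (l 16775808)) (b (l 16781048) (l 16774720))) (b (a (l 16774312) (c (l 16773240) (l 16772424))) (a (c (l 16773912) (l 16773192)) (l 16772456)))) (a (b (a (c (l 16775112) (l 16774648)) (l 16774040)) (a (l 16774264) (l 16773592))) (b (c (l 16783656) (l 16782752)) (a (l 16772624) (l 16771408)))))), by decide +kernel⟩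

def k5_pm_102_s : ∃ t, chk3 f_pm_102_s t 11 83 1 = true :=
  ⟨(b (a (b (a (c (a (l 16776168) (l 16780904)) (b (l 16775792) (l 16775440))) (a (c (l 16775136) (l 16774704)) (l 16774368))) (b (a (a (l 16775544) (l 16775048)) (l 16784632)) (a (l 16785416) (l 16784112)))) (a (a (b (l 16773696) (l 16772712)) (b (l 16772832) (l 16771688))) (b (a (l 16771712) (l 16770344)) (a (l 16770408) (c (l 16769296) (l 16768168)))))) (b (b (a (a (l 16784840) (l 16783360)) (a (a (l 16771472) (l 16770288)) (a (l 16768760) (l 16766720)))) (b (a (a (l 16784152) (l 16772032)) (a (a (l 16770528) (l 16769160)) (l 16787016))) (a (a (l 16783416) (l 16781656)) (a (a (l 16769432) (l 16767656)) (c (l 16784904) (l 16764312)))))) (a (a (b (b (b (l 16782584) (b (l 16771384) (b (b (l 16770776) (a (l 16770856) (l 16780408))) (l 16770232)))) (l 16770112)) (l 16769776)) (b (b (b (c (l 16780584) (l 16780576)) (b (a (l 16769880) (l 16768224)) (b (b (c (l 16762416) (l 16789272)) (c (l 16777024) (l 16778024))) (l 16766768)))) (l 16766648))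 (l 16766328))) (b (b (b (a (a (l 16767816) (l 16765688)) (l 16762088)) (b (a (a (l 16766096) (l 16763872)) (l 16754936)) (b (b (a (l 16761024) (l 16758712)) (a (c (l 16761416) (l 16774048)) (a (l 16758912) (l 16756184)))) (a (l 16762240) (l 16757208))))) (a (l 16762112) (l 16757000))) (a (l 16761704) (l 16756648)))))), by decide +kernel⟩

def k6_pm_102_s : ∃ t, chk3 f_pm_102_s t 2 21 1 = true :=
  ⟨(a (l 2) (a (a (b (a (l 2) (b (a (l 2) (l 16772480)) (l 2))) (l 2)) (b (a (b (a (l 16771696) (l 16770888)) (l 16768576)) (b (a (l 16770064) (l 16769216)) (l 16787496))) (a (a (l 2) (l 16764184)) (l 16783200)))) (a (b (a (b (b (l 16779128) (l 16777328)) (l 16785176)) (a (b (l 16765432) (l 16761912)) (l 16782336))) (a (b (l 16760888) (l 16757792)) (c (l 16777568) (l 16775496)))) (a (a (b (l 16758928) (l 16751656)) (b (l 16756360) (l 16748760))) (a (b (a (l 16754416) (l 16753016)) (l 16745688)) (b (l 16750856) (l 16742472))))))), by decide +kernel⟩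

def k7_pm_102_s : ∃ t, chk3 f_pm_102_s t 2 11 1 = true :=
  ⟨(a (l 2) (a (a (l 2) (b (b (a (l 2) (l 16757424)) (l 2)) (l 2))) (a (b (a (b (l 16753712) (l 16749344)) (b (l 16770304) (l 16744184))) (a (l 2) (l 16759864))) (b (a (b (l 16743520) (l 16737912)) (b (l 16736656) (l 16730160))) (a (b (l 16733400) (l 16730192)) (l 16764640)))))), by decide +kernel⟩

def k8_pm_102_s : ∃ t, chk3 f_pm_102_s t 2 3 1 = true :=
  ⟨(a (l 2) (b (a (l 2) (b (b (a (l 2) (a (l 2) (l 16717632))) (l 2)) (l 2))) (l 2))), by decide +kernel⟩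

def k9_pm_102_s : ∃ t, chk3 f_pm_102_s t 6 8 1 = true :=
  ⟨(l 3), by decide +kernel⟩

def k10_pm_102_s : ∃ t, chk3 f_pm_102_s t 12 18 1 = true :=
  ⟨(l 3), by decide +kernel⟩

def k11_pm_102_s : ∃ t, chk3 f_pm_102_s t 13 36 1 = true :=
  ⟨(l 3), by decide +kernel⟩

def k12_pm_102_s : ∃ t, chk3 f_pm_102_s t 26 37 1 = true :=
  ⟨(l 3), by decide +kernel⟩

def k13_pm_102_s : ∃ t, chk3 f_pm_102_s t 27 74 1 = true :=
  ⟨(l 3), by decide +kernel⟩

def k14_pm_102_s : ∃ t, chk3 f_pm_102_s t 54 75 1 = true :=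
  ⟨(l 3), by decide +kernel⟩

def k15_pm_102_s : ∃ t, chk3 f_pm_102_s t 55 150 1 = true :=
  ⟨(l 3), by decide +kernel⟩

def k16_pm_102_s : ∃ t, chk3 f_pm_102_s t 110 151 1 = true :=
  ⟨(l 3), by decide +kernel⟩

def k17_pm_102_s : ∃ t, chk3 f_pm_102_s t 111 302 1 = true :=
  ⟨(a (l 3) (b (a (l 3) (b (a (l 3) (b (c (l 279877517735) (l 290078065015)) (a (l 268066357479) (a (c (l 16777200) (l 112910663479)) (l 16777032))))) (a (b (c (l 283098743207) (l 293299290487)) (a (l 270213841143) (a (a (l 155323466071) (l 16777496)) (l 16777040)))) (b (a (a (a (l 153175982423) (l 16777488)) (l 16777040)) (l 16776776)) (l 16776600))))) (a (b (a (l 3) (b (c (l 284709355943) (l 294909903223)) (a (l 271287582967) (a (a (l 156934078807) (l 16777496)) (l 16777040))))) (a (b (c (l 285246226855) (l 294909903223)) (a (l 271287582951) (a (b (l 161229046487) (l 16777120)) (l 16777040)))) (b (a (a (b (l 162302788311) (l 16777128)) (l 16777040)) (l 16776784)) (l 16776688)))) (a (b (a (b (a (a (l 156397207895) (l 16777496))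 (l 16777040)) (l 16776784)) (l 16776688)) (c (l 16776096) (l 16776080))) (c (l 16775744) (b (l 16776080) (l 16775384))))))), by decide +kernel⟩

def k18_pm_102_s : ∃ t, chk3 f_pm_102_s t 111 303 1 = true :=
  ⟨(b (a (a (l 3) (a (b (l 3) (b (c (l 281488130455) (c (l 290614935927) (l 295446774119))) (a (c (l 260550164727) (l 271287582919)) (b (a (l 199346880727) (l 16777112)) (l 16777024))))) (a (b (c (l 282561872295) (c (l 291151806855) (l 296520515943))) (b (b (a (l 154786595495) (l 16777112)) (l 16777024)) (l 16776768))) (b (b (l 270213841127) (b (a (l 158007821015) (l 16777120)) (l 16777032))) (c (l 16776600) (l 16776592)))))) (a (a (a (b (b (a (b (l 160155304663) (l 16777120)) (l 16777032)) (l 16776776)) (l 16776416)) (b (a (l 16776688) (l 16776520)) (l 16776240))) (c (l 16776400) (b (l 16776080) (l 16775384)))) (b (c (l 16775056) (c (l 16775040) (l 16775352))) (c (l 16774368) (c (l 16774352) (l 16774656)))))) (a (a (a (b (l 3) (b (c (l 273435066743) (c (l 281488130391) (a (l 3) (l 263771390135))))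 (a (a (l 3) (b (l 3) (l 160155304199))) (b (a (l 164987142407) (l 16777080)) (l 16776992))))) (a (b (a (l 3) (a (l 309942288727) (b (l 3) (l 205252460871)))) (b (b (a (l 173040206103) (l 16777088)) (l 16777000)) (l 16776736))) (b (b (b (l 3) (l 232096006439)) (b (a (l 188609462471) (l 16777096)) (l 16777008))) (c (l 16776576) (l 16776568))))) (a (b (a (b (b (a (l 193441300695) (l 16777104)) (l 16777016)) (l 16776752)) (c (l 16776592) (l 16776584))) (c (l 16776064) (l 16776384))) (c (l 16776384) (b (l 16776392) (l 16775368))))) (a (a (c (l 16775704) (b (l 16775376) (l 16774680))) (c (l 16774368) (c (l 16774344) (l 16774656)))) (a (b (l 16774336) (l 16773648)) (b (l 16773648) (l 16772960)))))), by decide +kernel⟩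

def k19_pm_102_s : ∃ t, chk3 f_pm_102_s t 12 19 1 = true :=
  ⟨(b (l 3) (a (l 3) (b (a (l 3) (b (l 3) (a (l 3) (b (l 3) (a (l 3) (l 286856841031)))))) (a (b (l 3) (a (b (l 3) (l 283098745367)) (a (b (l 3) (l 109152570087)) (b (l 181093275271) (l 16775280))))) (b (a (b (l 3) (a (l 298131130343) (c (l 120963732023) (l 121500603047)))) (b (a (c (l 190220080135) (l 195588789335)) (c (l 16776176) (l 16778784))) (a (l 16775264) (l 16773168)))) (a (b (a (l 16778936) (l 16774320)) (l 16772352)) (b (l 16771240) (a (l 16769360) (l 16767664))))))))), by decide +kernel⟩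

def k20_pm_102_s : ∃ t, chk3 f_pm_102_s t 26 38 1 = true :=
  ⟨(b (l 3) (a (l 3) (b (a (l 3) (b (l 3) (a (l 3) (a (l 321216579415) (b (l 3) (l 16778488)))))) (a (a (l 3) (b (l 3) (b (l 225653556167) (l 62981669511)))) (b (b (a (l 299204871671) (l 16778984)) (a (a (l 200957495559) (l 16776736)) (l 16774952))) (a (l 16776472) (l 16772760))))))), by decide +kernel⟩

def k21_pm_102_s : ∃ t, chk3 f_pm_102_s t 54 76 1 = true :=
  ⟨(b (a (l 3) (a (l 3) (a (l 3) (b (l 3) (b (l 3) (l 315310998727)))))) (a (b (l 3) (b (l 3) (a (l 3) (a (l 3) (c (l 212231783111) (l 222969201287)))))) (a (a (b (l 3) (a (b (l 3) (l 56539219639)) (b (l 253570843159) (l 16776408)))) (b (b (l 3) (l 286856840151)) (b (a (a (l 116668761447) (l 16778304)) (l 16776536)) (l 16775488)))) (b (a (b (l 301889225815) (b (a (l 218674234231) (l 16776992)) (l 16776616))) (b (b (a (l 291688677895) (l 68350378327)) (c (l 16776728) (l 16777376))) (l 16775696))) (a (b (l 16775600) (l 16774256)) (a (l 16775296) (l 16774664))))))), by decide +kernel⟩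

def k22_pm_102_s : ∃ t, chk3 f_pm_102_s t 55 304 1 = true :=
  ⟨(a (a (l 3) (b (a (l 3) (a (b (l 3) (b (a (l 3) (b (l 3) (l 160692175191))) (a (c (l 134922372439) (l 189146333639)) (l 16777360)))) (a (b (b (l 3) (a (l 3) (a (l 254107713751) (l 144586047847)))) (a (b (l 16777416) (l 16776784)) (l 16776784))) (b (b (a (l 3) (b (l 3) (l 149954756855))) (a (b (l 118279373047) (l 16777056)) (l 16776976))) (c (l 16776536) (l 16776528)))))) (a (b (a (l 3) (b (a (l 3) (a (l 304036708535) (l 140827951495))) (a (l 171966464423) (l 16777008)))) (b (a (a (l 3) (l 157470949943)) (l 16776824)) (a (a (l 148881015335) (l 16776976)) (l 16776472)))) (b (a (a (b (l 16777024) (l 16776672)) (l 16776512)) (c (l 16776008) (l 16776000))) (c (l 16775656) (a (l 16775968) (l 16775296))))))) (b (a (a (a (b (a (b (b (a (l 156397207799) (l 16777072)) (l 16776984)) (l 16776720)) (c (l 16776560) (l 16776552))) (c (l 16776032) (l 16776184))) (c (l 16776032) (b (l 16776200) (l 16775336)))) (a (c (l 16775680) (b (l 16775352) (l 16774656)))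 (c (l 16774344) (c (l 16774328) (l 16774640))))) (a (a (b (l 16774328) (l 16773960)) (b (l 16773640) (l 16772952))) (c (c (l 16771968) (l 16771952)) (c (l 16772584) (l 16772304))))) (a (a (a (c (l 16775648) (b (l 16775320) (l 16774616))) (c (l 16774976) (c (l 16774296) (l 16774608)))) (a (b (l 16774296) (l 16773928)) (b (l 16773944) (l 16773256)))) (a (c (c (l 16771976) (l 16771936)) (c (l 16772568) (l 16772376))) (c (c (l 16770616) (l 16770576)) (l 16771104)))))), by decide +kernel⟩

def k23_pm_102_s : ∃ t, chk3 f_pm_102_s t 55 305 1 = true :=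
  ⟨(b (a (a (a (l 3) (a (b (l 3) (b (l 174113948375) (l 16777720))) (b (b (c (l 190756946471) (l 195051913815)) (a (l 130627404279) (l 16776944))) (l 16776584)))) (b (a (a (l 16776616) (l 16775952)) (a (l 16775280) (a (l 16774776) (l 16774440)))) (a (c (l 16775600) (l 16775576)) (a (l 16774584) (l 16773920))))) (a (a (a (b (l 16774264) (l 16773904)) (b (l 16773920) (l 16772576))) (c (c (l 16773280) (l 16771928)) (a (l 16772872) (l 16771536)))) (c (a (c (l 16770632) (l 16770576)) (a (l 16769592) (c (b (l 16769272) (l 16768648)) (l 16768896)))) (a (l 16771176) (a (l 16769496) (b (l 16769160) (l 16768496))))))) (a (a (b (a (a (l 317995352679) (a (l 153175982823) (l 16777688))) (c (l 16776224) (l 16776208))) (a (a (c (l 16777808) (l 81772151127)) (l 16776504)) (l 16775520))) (a (c (l 16774568) (c (l 16774536) (l 16775008))) (c (l 16773912) (a (l 16773528) (l 16773512))))) (a (a (c (l 16772592) (c (l 16773184) (l 16772496))) (c (c (l 16770640) (l 16770584)) (l 16771168))) (b (a (c (l 16769608) (l 16769496))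 (a (c (a (l 16768768) (l 16768472)) (l 16768496)) (l 16767944))) (a (a (l 16769872) (c (a (l 16768784) (l 16768480)) (l 16768504))) (c (l 16767744) (l 16767576))))))), by decide +kernel⟩

def k24_pm_102_s : ∃ t, chk3 f_pm_102_s t 55 153 1 = true :=
  ⟨(a (a (a (b (b (c (l 16775800) (l 16775776)) (l 16774416)) (c (l 16772464) (l 16773672))) (b (b (c (l 16774512) (l 16774464)) (l 16773784)) (c (l 16771208) (l 16772392)))) (b (b (a (c (l 16773216) (l 16773152)) (a (l 16772856) (l 16772192))) (a (a (l 16772160) (l 16771512)) (a (l 16770864) (l 16770216)))) (a (a (l 16771664) (b (l 16770200) (b (l 16769232) (l 16769920)))) (a (b (l 16769560) (b (a (l 16768752) (l 16768456)) (l 16768032))) (c (b (b (l 16769312) (l 16770008)) (l 16767864)) (b (a (l 16768992) (l 16768672)) (l 16767632))))))) (a (b (b (a (c (l 16771920) (l 16771808)) (b (c (l 16769624) (l 16769504)) (a (l 16769232) (c (l 16768656) (l 16768512))))) (b (a (l 16770216) (a (c (l 16768664) (l 16768520)) (l 16767992))) (a (a (l 16769232) (c (l 16768680)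 (l 16768520))) (c (l 16769120) (c (l 16767656) (l 16770192)))))) (b (a (b (a (c (l 16770000) (l 16768520)) (l 16768336)) (a (l 16768016) (l 16767440))) (c (l 16766976) (l 16766728))) (c (c (l 16769152) (l 16769000)) (l 16768776)))) (a (b (b (a (b (c (a (l 16768792) (l 16768496)) (l 16768512)) (l 16767976)) (b (l 16767968) (l 16767712))) (c (l 16768248) (l 16769328))) (c (a (l 16765568) (l 16765000)) (l 16767568))) (b (c (b (l 16768208) (l 16765776)) (l 16766088)) (c (l 16765440) (l 16766360)))))), by decide +kernel⟩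

def k25_pm_102_s : ∃ t, chk3 f_pm_102_s t 54 77 1 = true :=
  ⟨(b (a (b (b (a (l 3) (a (l 174113949783) (l 16777864))) (a (a (l 3) (l 147807275031)) (c (l 16775800) (l 16775768)))) (b (a (a (l 116668762391) (l 16776208)) (l 16774384)) (a (l 16775400) (l 16772952)))) (b (a (a (l 16775304) (l 16773416)) (a (l 16772176) (l 16770936))) (b (a (l 16771912) (a (l 16770040) (a (l 16769088) (l 16768480)))) (a (l 16770472) (a (l 16768600) (c (l 16767592) (l 16767408))))))) (a (b (a (l 16773240) (l 16770776)) (a (l 16770312) (a (a (l 16768776) (l 16768208)) (b (l 16768016) (l 16766824))))) (b (b (a (a (l 16769640) (l 16768416)) (a (l 16767336) (l 16766296))) (a (a (l 16768216) (l 16767168)) (l 16765664))) (c (a (l 16766112) (l 16766808)) (a (l 16768496) (l 16766440)))))), by decide +kernel⟩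

def k26_pm_102_s : ∃ t, chk3 f_pm_102_s t 55 77 1 = true :=
  ⟨(b (b (b (a (b (a (l 16770120) (a (a (l 16768568) (l 16767992)) (l 16768448))) (a (a (l 16770040) (l 16768784)) (a (l 16767632) (l 16766512)))) (a (c (c (l 16765384) (l 16765200)) (l 16764944)) (c (l 16763024) (l 16762568)))) (a (b (a (a (l 16769320) (a (l 16768400) (l 16767832))) (a (l 16767008) (l 16765896))) (a (a (l 16768616) (l 16767480)) (a (l 16766392) (l 16765288)))) (c (a (c (l 16764200) (l 16764000)) (l 16761864)) (a (l 16763704) (l 16761352))))) (a (a (a (b (a (l 16767920) (l 16767368)) (l 16766432)) (b (l 16766568) (l 16765376))) (a (b (l 16765488) (l 16764312)) (c (c (l 16764096) (l 16763904)) (l 16763608)))) (a (c (c (l 16762504) (a (l 16762816) (l 16761712))) (c (l 16764640) (l 16761776))) (c (c (l 16760336) (l 16760032)) (c (l 16761040) (l 16759424)))))) (a (c (a (a (b (l 16764864) (l 16762736)) (b (l 16763856) (l 16761744))) (b (c (a (l 16762944) (l 16761928)) (a (l 16762720) (l 16761664))) (c (l 16760392) (a (l 16760592)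 (l 16759552))))) (a (b (c (l 16766712) (l 16766528)) (l 16761728)) (b (a (l 16762368) (l 16761264)) (c (l 16759744) (l 16759408))))) (a (a (c (b (c (l 16760888) (l 16760600)) (l 16758688)) (b (l 16760152) (l 16757928))) (c (b (l 16759680) (l 16757640)) (b (l 16759016) (l 16756808)))) (c (b (c (l 16758240) (l 16757872)) (c (l 16756264) (l 16755816))) (b (c (l 16757488) (l 16757096)) (c (l 16755344) (l 16754856))))))), by decide +kernel⟩

def k27_pm_102_s : ∃ t, chk3 f_pm_102_s t 26 39 1 = true :=
  ⟨(b (a (b (a (l 3) (b (a (l 3) (l 291151808423)) (a (c (l 221895460071) (l 234780361847)) (a (l 77477187383) (l 16775728))))) (a (a (b (l 3) (a (l 153175986407) (l 16776488))) (b (a (l 212768657319) (l 109689442391)) (l 16774840))) (b (a (l 16778224) (l 16773320)) (l 16771464)))) (a (a (b (b (b (l 150491631047) (l 16776216)) (l 16773992)) (b (l 16771000) (c (l 16768176) (l 16768128)))) (b (b (l 16774608) (l 16771640)) (b (c (l 16768728) (l 16768688)) (l 16769024)))) (b (b (a (l 16772224) (l 16769800)) (a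 (l 16769912) (a (l 16767624) (l 16766696)))) (a (b (c (l 16766856) (l 16769344)) (l 16764864)) (c (l 16764376) (l 16764008)))))) (a (b (a (b (c (l 16772936) (l 16772928)) (a (l 16771032) (l 16768904))) (a (b (l 16769608) (l 16767144)) (b (l 16770240) (l 16765752)))) (b (a (a (l 16768248) (l 16766728)) (l 16764912)) (a (l 16768496) (l 16773976)))) (b (b (a (a (l 16766048) (l 16764632)) (a (l 16763136) (l 16761544))) (a (l 16763744) (c (l 16761136) (l 16760264)))) (a (c (l 16772392) (l 16766224)) (c (a (l 16759744) (l 16758208)) (a (l 16758560) (l 16756848))))))), by decide +kernel⟩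

def k28_pm_102_s : ∃ t, chk3 f_pm_102_s t 54 78 1 = true :=
  ⟨(b (b (a (a (b (l 16768176) (l 16766968)) (l 16765672)) (a (a (l 16764296) (l 16763352)) (c (l 16764792) (l 16761624)))) (a (a (l 16765392) (l 16768888)) (c (a (l 16762088) (l 16760264)) (a (l 16761520) (l 16759528))))) (a (a (b (l 16763464) (l 16761624)) (b (l 16761720) (l 16759880))) (c (a (b (l 16760272) (l 16758544)) (b (l 16758456) (l 16756736))) (a (l 16763744) (b (l 16757504) (l 16755560)))))), by decide +kernel⟩

def k29_pm_102_s : ∃ t, chk3 f_pm_102_s t 110 78 1 = true :=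
  ⟨(b (a (c (b (c (l 16760408) (l 16760080)) (c (l 16758568) (l 16758144))) (b (l 16759552) (l 16757472))) (a (c (b (l 16758768) (l 16756896)) (b (l 16757960) (l 16755880))) (c (b (l 16757760) (l 16755896)) (b (l 16756880) (c (l 16755088) (l 16754520)))))) (a (c (b (c (l 16756832) (l 16756304)) (c (l 16755176) (l 16754536))) (b (l 16755456) (c (l 16753856) (l 16753152)))) (a (c (b (l 16755112) (c (l 16753768) (l 16753072))) (b (l 16753880) (c (b (l 16752784) (l 16751856)) (l 16751552)))) (b (c (l 16754120) (c (l 16753144) (l 16752456))) (c (b (c (l 16753200) (l 16752488)) (a (b (l 16752464) (l 16752024)) (a (l 16751848) (l 16751584)))) (b (c (l 16751736) (l 16750952)) (c (a (l 16751064) (l 16750496)) (a (l 16750216) (l 16749640))))))))), by decide +kernel⟩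

def k30_pm_102_s : ∃ t, chk3 f_pm_102_s t 111 78 1 = true :=
  ⟨(a (b (c (a (b (l 16756736) (l 16754888)) (b (l 16755704) (l 16753864))) (b (c (c (l 16755616) (l 16755360)) (l 16754968)) (c (c (l 16753632) (l 16753328)) (l 16752848)))) (b (c (a (b (l 16753552) (c (l 16753040) (l 16752344))) (a (b (l 16752792) (b (l 16752144) (l 16751688))) (b (c (l 16752624) (l 16751936)) (l 16751368)))) (a (b (l 16752216) (c (l 16751616) (l 16750848))) (b (c (l 16751488) (l 16750744)) (a (b (l 16750656) (l 16750144)) (a (l 16749968) (l 16749680)))))) (c (a (b (a (b (l 16752304) (l 16751856)) (a (l 16751680) (l 16751408))) (l 16750896)) (l 16750256)) (a (b (c (a (l 16750928) (l 16750360)) (a (b (l 16750368) (l 16749848)) (l 16749528))) (l 16749208)) (l 16748560))))) (b (b (c (c (l 16754400) (l 16753848)) (c (l 16753280) (l 16752688))) (a (a (c (l 16753080) (l 16751776)) (b (a (l 16753504) (l 16752248)) (b (l 16751664) (c (l 16751896) (l 16750464))))) (a (b (l 16751832) (b (a (l 16751264) (l 16750984)) (l 16750632)))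 (b (b (l 16751528) (a (l 16751184) (l 16750904))) (l 16750304))))) (b (b (a (a (b (c (l 16751976) (l 16750528)) (c (l 16751520) (l 16750016))) (c (l 16751200) (l 16749688))) (l 16752224)) (c (l 16749992) (l 16748352))) (c (l 16751192) (c (l 16747248) (l 16746304)))))), by decide +kernel⟩

def k31_pm_102_s : ∃ t, chk3 f_pm_102_s t 54 79 1 = true :=
  ⟨(b (b (a (a (l 16759872) (l 16758120)) (c (a (l 16756904) (l 16755096)) (a (l 16755656) (l 16753672)))) (a (a (l 16758216) (l 16759080)) (a (c (l 16755368) (l 16753856)) (c (a (l 16754032) (b (l 16753488) (l 16752664))) (a (l 16752384) (b (l 16751808) (c (l 16751336) (l 16750384)))))))) (b (a (c (a (l 16757312) (l 16755640)) (l 16754976)) (a (c (a (l 16754352) (b (l 16753816) (l 16753000))) (a (l 16752608) (b (l 16752056) (l 16751112)))) (a (b (c (l 16752832) (l 16750992)) (l 16751008)) (c (l 16751320) (l 16749376))))) (a (a (l 16755088) (b (c (l 16754576) (l 16752776)) (c (a (l 16754288) (l 16753304)) (l 16751864)))) (c (a (a (l 16752688) (l 16751640))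 (l 16750000)) (a (a (l 16750728) (l 16749624)) (l 16747904)))))), by decide +kernel⟩

def k32_pm_102_s : ∃ t, chk3 f_pm_102_s t 55 79 1 = true :=
  ⟨(b (a (a (b (c (a (l 16753712) (b (l 16753152) (a (l 16752576) (l 16752056)))) (a (c (l 16752560) (l 16751736)) (b (l 16751568) (c (a (l 16751328) (l 16750776)) (l 16750152))))) (c (a (b (c (l 16752896) (l 16752072)) (l 16751608)) (l 16750968)) (a (b (a (l 16751024) (l 16750464)) (l 16749752)) (l 16749104)))) (b (b (c (a (a (l 16752408) (l 16751880)) (l 16751064)) (a (c (a (l 16751192) (l 16750632)) (a (l 16750328) (l 16749752))) (l 16749344))) (c (l 16750696) (c (l 16749368) (l 16748416)))) (c (c (l 16749760) (l 16748848)) (c (l 16747872) (l 16746840))))) (c (b (a (c (l 16751992) (l 16748488)) (c (l 16747128) (l 16746192))) (a (l 16749672) (l 16744744))) (b (a (c (l 16747552) (c (l 16746824) (l 16746320))) (b (l 16745208) (l 16744160))) (c (a (l 16745536) (l 16743152)) (a (l 16744448) (l 16742008)))))) (a (c (a (b (l 16749664) (l 16747768)) (b (c (l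 16747912) (l 16746912)) (l 16745480))) (a (c (b (l 16748176) (l 16746152)) (b (l 16747096) (l 16744984))) (c (b (l 16745856) (l 16743800)) (b (l 16744728) (l 16742584))))) (c (a (b (l 16745120) (l 16743144)) (b (l 16742776) (c (l 16741320) (l 16740184)))) (c (a (b (l 16743480) (l 16741408)) (b (l 16741072) (l 16738960))) (a (b (l 16742304) (l 16740144)) (b (l 16739840) (l 16737656))))))), by decide +kernel⟩

def k33_pm_102_s : ∃ t, chk3 f_pm_102_s t 14 8 1 = true :=
  ⟨(b (l 3) (a (l 3) (b (l 3) (a (l 3) (b (a (l 3) (b (l 3) (a (l 3) (a (b (l 3) (a (l 271824455095) (b (l 3) (a (l 168745239159) (l 16778384))))) (a (b (l 3) (b (l 180556399287) (l 16776488))) (b (l 254644585815) (c (l 16778888) (c (l 16778872) (l 16777560))))))))) (a (b (a (l 3) (b (l 3) (b (l 3) (a (l 3) (a (l 3) (b (l 240149070263) (l 16777768))))))) (a (b (l 3) (b (a (l 3) (a (l 216526750231) (a (l 111836922695) (l 16776832)))) (a (c (l 186998850055) (a (l 299741741895) (l 142438564663))) (c (l 16776248) (l 16776224))))) (b (b (a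 (l 243370296247) (c (l 16777968) (c (l 16777952) (l 38822478951)))) (a (a (a (l 198273139303) (l 113447535367)) (l 16777960)) (l 16776152))) (a (c (l 16775320) (l 16775920)) (b (l 16774328) (a (l 16773536) (l 16772760))))))) (b (a (b (a (l 284172486519) (b (l 224579814263) (a (a (l 186461979271) (l 102710117047)) (l 16776576)))) (b (a (a (l 210621170455) (a (l 107541955303) (l 16776808))) (l 16776488)) (c (c (l 16778168) (l 16778120)) (a (l 16777544) (l 16774648))))) (b (b (a (a (a (l 94657053463) (l 16776736)) (l 16776144)) (l 16774952)) (c (l 16774664) (l 16775224))) (a (b (l 16774272) (c (l 16774544) (l 16774368))) (c (b (l 16774096) (a (l 16777328) (l 16771280))) (b (l 16775240) (l 16772448)))))) (b (a (a (c (l 16774592) (l 16775792)) (b (l 16773560) (a (l 16774088) (l 16772656)))) (a (b (c (c (l 16774784) (l 16775976)) (l 16773216)) (l 16770816)) (l 16769808))) (b (a (a (c (l 16772840) (l 16775344)) (c (l 16771304) (l 16771160))) (l 16770144)) (a (a (c (l 16771672) (l 16771552)) (l 16770024))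 (l 16768960))))))))))), by decide +kernel⟩

def k34_pm_102_s : ∃ t, chk3 f_pm_102_s t 15 16 1 = true :=
  ⟨(a (b (l 3) (a (l 3) (b (l 3) (a (l 3) (b (l 3) (b (a (l 3) (a (l 3) (a (l 3) (l 14)))) (a (l 3) (b (b (a (l 3) (a (a (l 265918874215) (a (l 164450271447) (l 14))) (l 14))) (a (c (l 249275876743) (l 257865811143)) (a (a (a (l 119889985895) (l 16777704)) (l 16776720)) (c (l 16776048) (l 16776048))))) (b (a (a (l 3) (a (l 199346880887) (c (l 16777392) (l 37748736519)))) (c (a (l 16776400) (l 16775504)) (c (l 16775952) (l 16775952)))) (a (c (a (l 195588784679) (l 16777408)) (a (c (l 199883751911) (l 202031235527)) (c (l 16777408) (l 16777408)))) (a (c (l 16775856) (l 16775864)) (a (l 16775184) (c (l 16774736) (l 16775400)))))))))))))) (a (b (l 14) (b (l 14) (a (b (l 14) (a (b (l 14) (b (l 14) (b (l 14) (a (b (l 14) (l 16774552)) (l 14))))) (l 14))) (l 14)))) (l 14))), by decide +kernel⟩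

def k35_pm_102_s : ∃ t, chk3 f_pm_102_s t 60 34 1 = true :=
  ⟨(b (l 3) (a (l 3) (b (a (l 3) (b (l 3) (b (a (l 3) (a (l 237464716135) (b (l 143512306311) (l 16778160)))) (a (c (l 205789332551) (a (l 3) (l 189146333639))) (a (a (a (l 90362085751) (l 16778272)) (l 16776648)) (l 16776000)))))) (a (a (b (l 3) (a (b (l 3) (b (l 221895459175) (l 16778424))) (b (l 187535720951) (a (l 16778104) (l 16776376))))) (a (b (l 252497102279) (b (b (l 88214602711) (l 16776592)) (l 16775744))) (b (b (l 3) (b (l 154786595335) (l 16776872))) (c (l 16775480) (l 16775440))))) (b (a (a (b (b (l 225116684599) (l 87677731815)) (l 16776312)) (b (a (l 16778112) (l 16776376)) (l 16775456))) (a (b (l 16775728) (l 16774600)) (b (l 16774864) (c (l 16773768) (l 16774320))))) (a (c (b (l 16774776) (a (l 16774080) (l 16773248))) (b (l 16774712) (a (l 16773992) (l 16773152)))) (a (b (c (l 16773504) (l 16773408)) (l 16772368)) (c (l 16772624) (b (l 16772576) (l 16771456)))))))))), by decide +kernel⟩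

def k36_pm_102_s : ∃ t, chk3 f_pm_102_s t 122 68 1 = true :=
  ⟨(b (a (l 3) (b (l 3) (a (l 3) (a (l 3) (b (l 3) (b (l 3) (l 213305524791))))))) (a (b (l 3) (a (l 3) (b (l 266455746087) (b (a (l 3) (a (l 204715589911) (l 16777088))) (a (l 193441300855) (l 16777408)))))) (a (b (a (l 3) (b (l 3) (a (l 214379266647) (b (l 228874780935) (l 16777016))))) (b (a (b (l 175187689831) (a (l 91435827959) (l 16776784))) (b (l 16777336) (l 16776120))) (c (l 16775736) (c (l 16775704) (l 16775672))))) (a (b (a (b (l 266992616311) (b (l 32380028663) (l 16776576))) (b (b (l 3) (l 101099504231)) (l 16776416))) (a (b (l 16775736) (l 16774600)) (b (l 16775288) (b (l 16774440) (l 16773872))))) (a (b (b (b (l 141364822391) (l 16776808)) (l 16775968)) (b (l 16774840) (b (l 16773992) (l 16773448)))) (b (b (b (l 16776920) (l 16776368)) (l 16775528)) (b (b (l 16774680) (l 16774112)) (l 16773296)))))))), by decide +kernel⟩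

def k37_pm_102_s : ∃ t, chk3 f_pm_102_s t 123 136 1 = true :=
  ⟨(a (a (b (l 3) (b (a (l 266992616599) (b (a (l 3) (l 139217338663)) (a (a (l 164987142375) (l 16777128)) (l 16776808)))) (a (b (a (l 230485393687) (a (l 105931342231) (l 16777032))) (c (l 16776816) (l 16777456))) (c (l 16776216) (l 16776192))))) (b (a (b (l 3) (b (l 233169748663) (a (l 184314495255) (c (l 16777016) (l 16777664))))) (b (a (l 257328939895) (b (l 3) (a (l 151565369543) (l 16777760)))) (b (a (a (l 102173245895) (l 16777008)) (l 16776680)) (l 16776688)))) (c (b (a (l 16777408) (l 16775544)) (a (l 16775336) (a (l 16775968) (l 16775536)))) (b (a (c (l 16777072) (l 16777064)) (l 16775512)) (a (l 16775288) (b (l 16775960) (l 16775416))))))) (b (b (a (a (a (b (c (l 137606725815) (l 136532984039)) (l 16776784)) (b (l 16777536) (l 16776336))) (c (l 16775944) (c (l 16775944) (l 16775944)))) (b (a (a (l 16775536) (l 16775096)) (a (b (l 16775440) (l 16775168)) (l 16775504))) (a (a (l 16775000) (a (l 16775328) (l 16775104))) (l 16775200))))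 (a (c (a (l 16775744) (b (l 16775128) (l 16775576))) (a (l 16775736) (a (l 16775704) (b (l 16774888) (l 16774336))))) (b (a (a (a (l 16775232) (l 16775664)) (l 16774024)) (l 16773352)) (l 16774224)))) (b (b (a (c (a (l 16774928) (l 16775360)) (a (l 16774888) (l 16775328))) (l 16774000)) (a (a (a (a (l 16774704) (l 16774472)) (l 16775464)) (l 16773480)) (l 16772136))) (a (a (c (l 16774888) (l 16774168)) (l 16772648)) (l 16771312))))), by decide +kernel⟩

def k38_pm_102_s : ∃ t, chk3 f_pm_102_s t 123 137 1 = true :=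
  ⟨(a (a (a (b (c (b (l 16775992) (l 16776184)) (b (l 16775960) (l 16775456))) (b (b (a (l 16774224) (l 16773800)) (l 16774128)) (l 16772632))) (b (c (b (l 16775104) (c (l 16774672) (l 16774648))) (b (l 16775048) (c (l 16774608) (l 16774632)))) (c (l 16772360) (l 16772248)))) (b (c (b (a (a (l 16775752) (l 16775320)) (l 16773352)) (l 16772688)) (b (a (a (l 16775184) (l 16775248)) (l 16773280)) (l 16772592))) (c (l 16771048) (l 16771424)))) (b (c (a (l 16771480) (l 16769712)) (a (c (l 16771416) (l 16771352)) (l 16769600))) (a (c (l 16769296) (l 16769176)) (a (b (l 16768464) (l 16767368)) (b (l 16767576) (l 16766536)))))), by decide +kernel⟩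

def k39_pm_102_s : ∃ t, chk3 f_pm_102_s t 122 69 1 = true :=
  ⟨(b (a (b (a (a (b (l 3) (a (l 183777624487) (b (l 182703882487) (l 16776904)))) (b (a (l 246591521511) (b (l 3) (l 16777144))) (b (l 16778120) (l 16776248)))) (a (b (a (b (l 115058147991) (l 16776728)) (l 16777224)) (l 16775656)) (b (l 16776232) (l 16775096)))) (b (a (c (l 16775848) (l 16775808)) (c (a (l 16774552) (c (l 16773704) (l 16773664))) (a (l 16774464) (c (l 16773616) (l 16773544))))) (a (a (l 16775128) (c (l 16774288) (l 16774192))) (a (a (b (l 16773880) (l 16773336)) (b (l 16773456) (l 16772904))) (l 16772536))))) (b (b (a (a (l 16775352) (a (b (l 16774640) (l 16774064)) (b (l 16774192) (l 16773640)))) (a (a (b (l 16773760) (l 16773200)) (l 16773048)) (l 16772400))) (a (c (a (c (l 16773944) (l 16773904)) (l 16773080)) (a (c (l 16773856) (l 16773784)) (l 16772976))) (l 16772064))) (a (b (c (l 16772408) (l 16772952)) (l 16771256)) (c (l 16770144) (l 16770008))))) (a (b (b (a (a (c (l 16774024) (l 16773920)) (c (l 16773192) (l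 16773744))) (l 16772520)) (a (a (c (l 16772944) (l 16772840)) (l 16772040)) (l 16770768))) (c (a (l 16770856) (l 16769168)) (a (l 16770744) (l 16769040)))) (a (b (a (l 16770040) (l 16769184)) (l 16767416)) (a (b (l 16768328) (l 16766128)) (b (l 16767472) (c (l 16766656) (l 16765192))))))), by decide +kernel⟩

def k40_pm_102_s : ∃ t, chk3 f_pm_102_s t 123 69 1 = true :=
  ⟨(b (a (b (c (a (l 16770600) (l 16768864)) (a (l 16771136) (l 16768736))) (a (c (l 16768416) (l 16768280)) (c (b (l 16767224) (l 16767464)) (a (l 16766960) (l 16767424))))) (a (b (a (c (l 16767552) (l 16767400)) (b (l 16767160) (l 16766112))) (c (c (l 16766312) (l 16766320)) (l 16766232))) (b (c (c (l 16766736) (l 16766736)) (l 16766664)) (l 16763240)))) (a (a (b (a (l 16767256) (b (l 16766280) (l 16765224))) (c (c (l 16765408) (l 16764096)) (l 16764016))) (b (c (b (l 16765104) (l 16764016)) (l 16765784)) (l 16762368))) (c (a (l 16763040) (l 16762600)) (b (l 16761944) (l 16759712))))), by decide +kernel⟩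

def k41_pm_102_s : ∃ t, chk3 f_pm_102_s t 120 35 1 = true :=
  ⟨(b (b (a (b (l 3) (a (l 3) (b (l 275045680519) (a (l 209547428455) (a (l 103783859079) (l 16776808)))))) (b (b (a (l 3) (a (l 235317232391) (a (l 125795566391) (l 16778216)))) (a (c (l 202031236007) (l 209010556375)) (c (l 16777720) (c (l 16777704) (l 16777688))))) (a (a (b (c (l 125795566231) (l 123648082839)) (l 16776192)) (b (l 16777824) (l 16775376))) (c (b (l 16775288) (l 16774160)) (b (l 16775264) (l 16774128)))))) (b (b (a (a (c (l 188609462999) (a (l 3) (l 158007820775))) (c (l 16776288) (l 16777592))) (a (l 16775312) (c (a (l 16773448) (l 16772640)) (a (l 16773424) (l 16772600))))) (a (a (a (a (l 138143597191) (l 16776960)) (l 16776360)) (l 16775144)) (a (c (l 16773552) (l 16774824)) (c (l 16771936) (l 16771872))))) (b (a (a (l 16775624) (a (l 16774416) (l 16773608))) (a (c (l 16773752) (l 16773016)) (l 16770760))) (a (a (l 16774488) (a (l 16773280) (l 16772480))) (l 16771752))))) (b (b (b (a (a (c (l 16773416) (l 16773312))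 (c (l 16771832) (l 16771696))) (l 16770624)) (a (a (c (l 16772320) (l 16774784)) (l 16770616)) (l 16768184))) (a (b (l 16771592) (l 16770288)) (c (l 16766576) (l 16766424)))) (a (c (b (l 16767496) (l 16765136)) (b (l 16767344) (l 16765048))) (b (l 16764192) (a (l 16762680) (a (l 16761488) (l 16760696))))))), by decide +kernel⟩

def k42_pm_102_s : ∃ t, chk3 f_pm_102_s t 121 35 1 = true :=
  ⟨(b (b (a (b (b (a (c (l 16775888) (l 16775856)) (a (l 16774616) (b (l 16774056) (l 16773488)))) (a (c (l 16774760) (l 16774720)) (c (c (l 16773112) (l 16774416)) (c (l 16773064) (l 16774312))))) (b (a (a (l 16774048) (a (l 16773416) (l 16773016))) (c (l 16771992) (l 16771952))) (a (a (a (l 16773120) (l 16772712)) (l 16772096)) (l 16770856)))) (b (b (a (a (c (l 16772976) (l 16772896)) (l 16772104)) (l 16770848)) (c (l 16770608) (l 16770520))) (c (l 16768944) (a (l 16769704) (l 16768024))))) (a (a (b (l 16772128) (l 16768560)) (b (l 16770480) (l 16766920))) (a (b (l 16767528) (l 16765280)) (b (l 16765872) (a (l 16764048)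 (l 16765848)))))) (a (a (b (c (l 16766560) (l 16767768)) (b (c (l 16761840) (l 16761760)) (l 16759512))) (b (b (l 16764672) (c (l 16765440) (l 16762400))) (b (l 16760168) (l 16757920)))) (b (b (a (c (l 16765704) (l 16763040)) (c (l 16761464) (l 16761384))) (a (c (l 16760880) (l 16760760)) (l 16759168))) (c (l 16756744) (l 16756560))))), by decide +kernel⟩

def k43_pm_102_s : ∃ t, chk3 f_pm_102_s t 61 35 1 = true :=
  ⟨(b (a (b (a (b (a (a (l 16769032) (l 16768192)) (l 16766928)) (a (l 16766416) (b (l 16765272) (l 16766472)))) (a (a (b (l 16765648) (l 16766136)) (b (a (l 16766320) (l 16765912)) (l 16762664))) (b (b (l 16765440) (l 16763056)) (l 16761384)))) (a (b (a (a (l 16764624) (l 16766744)) (c (l 16762568) (l 16762560))) (a (c (l 16762024) (l 16761984)) (l 16760320))) (c (b (l 16760064) (l 16763120)) (b (l 16760008) (l 16757744))))) (b (a (c (a (l 16763432) (l 16759096)) (b (l 16761032) (l 16758784))) (a (c (l 16758680) (l 16757256)) (a (b (l 16757072) (l 16754856)) (b (l 16756184) (l 16753960)))))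 (a (b (b (l 16757136) (l 16756032)) (a (l 16760472) (c (l 16753656) (l 16753408)))) (a (b (a (l 16754416) (l 16753528)) (l 16751744)) (c (l 16751280) (l 16756152)))))) (b (b (a (a (l 16758920) (l 16755568)) (a (a (a (l 16753448) (l 16752584)) (l 16751280)) (l 16751248))) (a (a (l 16757344) (a (l 16754184) (l 16755128))) (a (a (l 16750792) (l 16749056)) (l 16746408)))) (b (a (a (a (l 16755288) (l 16753640)) (a (l 16751976) (l 16750288))) (a (l 16747712) (l 16744200))) (a (a (c (l 16752424) (l 16752120)) (a (l 16749760) (l 16748080))) (a (l 16745512) (l 16742008)))))), by decide +kernel⟩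

def k44_pm_102_s : ∃ t, chk3 f_pm_102_s t 62 34 1 = true :=
  ⟨(b (a (b (b (a (a (a (b (l 16774584) (l 16772168)) (c (l 16771840) (l 16772440))) (b (l 14) (l 16769912))) (l 14)) (b (a (a (l 16770616) (a (l 16769264) (l 16769024))) (l 14)) (a (a (l 16769520) (a (l 16768824) (l 16767328))) (c (l 16766400) (l 16765088))))) (a (a (a (b (b (l 16768872) (l 16769088)) (a (l 16767744) (l 16766008))) (b (b (l 16769288) (l 16766944)) (l 16765392))) (b (c (l 16766936) (l 16766168)) (l 16765336))) (b (a (l 16765680) (l 16763824)) (a (l 16762184) (c (l 16761696) (l 16760280)))))) (b (l 14) (a (a (b (l 14) (l 16761008)) (l 14)) (l 14)))) (a (b (a (a (b (l 16763648) (l 16761448)) (b (l 16761832) (l 16759640))) (b (a (c (l 16760056) (l 16759976)) (a (l 16758584) (l 16757624))) (a (a (l 16758256) (l 16757312)) (l 16758496)))) (a (a (b (l 16759248) (c (l 16759752) (l 16756992))) (b (c (l 16758168) (l 16757376)) (l 16757824))) (c (b (l 16757392) (l 16752592)) (b (l 16757104) (l 16752216))))) (a (b (c (a (l 16755232)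 (l 16753320)) (b (l 16757656) (l 16752776))) (c (a (l 16750888) (l 16748984)) (a (l 16750392) (l 16748384)))) (a (b (c (l 16751384) (l 16750840)) (l 16749304)) (b (l 14) (l 16744672)))))), by decide +kernel⟩

def k45_pm_102_s : ∃ t, chk3 f_pm_102_s t 62 35 1 = true :=
  ⟨(b (a (b (b (a (a (a (l 16757896) (l 16754360)) (l 16752976)) (c (l 16750424) (l 16749944))) (a (c (l 16751880) (l 16751512)) (l 16747944))) (a (a (a (l 16749704) (l 16748792)) (l 16748728)) (c (l 16745016) (l 16744296)))) (b (a (c (l 16745616) (l 16744888)) (c (l 16741792) (l 16740856))) (a (c (l 16741312) (l 16740400)) (c (l 16737512) (l 16736392))))) (a (b (a (c (l 16744312) (l 16743576)) (c (l 16740720) (l 16739792))) (a (c (l 16740032) (l 16739096)) (c (l 16736456) (l 16735336)))) (a (b (c (l 16737040) (l 16735920)) (c (l 16732792) (l 16731488))) (b (c (l 16733256) (l 16731952)) (c (l 16729032) (l 16727544)))))), by decide +kernel⟩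

def k46_pm_102_s : ∃ t, chk3 f_pm_102_s t 63 17 1 = true :=
  ⟨(b (b (l 14) (a (a (b (l 14) (c (l 16744088) (l 16741136))) (l 14)) (l 14))) (b (b (a (a (c (l 16737848) (l 16736704)) (a (a (l 16736616) (l 14)) (l 14))) (l 14)) (a (a (c (a (l 16734584) (l 16732600)) (l 16732280)) (c (c (l 16729992) (l 16729152)) (l 16728040))) (a (c (l 16725400) (l 16723680)) (l 14)))) (a (a (c (b (a (l 16730344) (l 16728368)) (a (l 16726136) (l 16724176))) (b (l 16727864) (l 16723480))) (c (b (l 16725352) (l 16721168)) (b (l 16723664) (l 16719304)))) (a (c (b (l 16721216) (l 16717048)) (b (l 16719328) (l 16714992))) (c (b (l 16716928) (l 16712784)) (b (l 16714824) (l 16710512))))))), by decide +kernel⟩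

def k47_pm_102_s : ∃ t, chk3 f_pm_102_s t 28 36 1 = true :=
  ⟨(a (l 3) (b (l 3) (a (b (l 3) (a (l 3) (a (l 3) (b (l 3) (b (l 3) (b (c (l 242833425111) (a (l 3) (l 220821717271))) (a (l 240149070247) (a (a (l 108078826103) (l 16777032)) (l 16776760))))))))) (b (a (l 3) (b (l 3) (b (a (l 3) (a (l 3) (a (l 271287583335) (b (l 3) (l 16777824))))) (b (a (l 3) (a (l 182167012007) (l 16776736))) (a (c (l 244444037863) (l 251960230519)) (c (l 16776480) (l 16777440))))))) (a (b (a (l 3) (b (l 300278613175) (b (a (l 3) (a (l 166597755463) (l 16777000))) (a (a (l 209010557319) (l 16777752)) (l 16776544))))) (b (a (b (a (l 3) (a (l 249275875671) (l 105394471687))) (a (a (l 295446774199) (l 141364822679)) (l 16777408))) (c (l 16775960) (c (l 16775944) (l 16775928)))) (a (c (l 16777472) (c (l 16777128) (a (l 16777328) (l 16775752)))) (c (l 16774688) (l 16774632))))) (b (b (a (b (a (l 249275875783) (a (l 16777800) (l 16776784))) (a (a (l 126869308087) (l 16776888)) (l 16776328))) (a (l 16775888) (l 16775136)))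 (a (a (l 16776112) (l 16775360)) (a (l 16774608) (l 16773856)))) (b (c (l 16775048) (c (l 16773688) (l 16774288))) (c (l 16773784) (c (l 16772408) (l 16773648)))))))))), by decide +kernel⟩

def k48_pm_102_s : ∃ t, chk3 f_pm_102_s t 56 74 1 = true :=
  ⟨(a (l 3) (a (b (l 3) (b (b (l 3) (a (l 3) (a (l 3) (b (l 3) (l 284709356071))))) (b (a (c (l 310479160647) (l 321753448327)) (a (b (l 299204870743) (b (a (l 295983644967) (a (l 140827951479) (l 16777080))) (a (a (l 158007820647) (l 16777096)) (l 16776832)))) (b (b (a (l 261623906551) (l 16777440)) (a (l 75329700343) (l 16776784))) (l 16776464)))) (a (b (a (l 3) (b (a (l 3) (a (l 175724560695) (l 16777120))) (b (a (l 190220075255) (l 16776960)) (l 16777624)))) (a (b (a (l 3) (c (l 16777208) (l 134385500631))) (a (a (l 221895459111) (l 16777504)) (l 16776912))) (l 16776880))) (c (l 16776472) (b (l 16776472) (l 16776120))))))) (a (b (l 3) (b (b (c (l 280951258983) (a (l 3) (c (l 270213841623) (b (l 3) (l 255181455751))))) (a (a (b (l 3) (b (l 230485393687)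 (l 16777744))) (b (l 246591521095) (l 16777552))) (b (b (a (l 196125655415) (l 16777008)) (l 16777512)) (l 16776360)))) (b (c (l 16776392) (a (l 16776400) (l 16775352))) (c (l 16774392) (l 16775016))))) (b (a (l 3) (a (l 3) (b (l 3) (b (l 3) (b (l 3) (b (l 304036708679) (l 110763180503))))))) (b (b (a (b (a (l 3) (b (l 3) (l 142975435271))) (b (a (a (l 258402680967) (l 16777208)) (l 16776952)) (l 16776808))) (b (a (b (l 127943049687) (l 16776928)) (l 16776728)) (l 16776256))) (c (l 16775632) (a (l 16776296) (l 16775240)))) (b (c (l 16774304) (l 16774920)) (a (l 16773952) (l 16773240)))))))), by decide +kernel⟩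

def k49_pm_102_s : ∃ t, chk3 f_pm_102_s t 114 148 1 = true :=
  ⟨(a (b (b (l 3) (b (l 3) (a (l 3) (a (l 3) (a (l 204715590007) (a (l 96804536903) (l 16777008))))))) (b (a (b (l 3) (a (l 3) (a (l 270213841271) (a (l 163913400807) (l 81772151399))))) (b (a (a (l 235854102823) (a (l 132774887895) (l 16777736))) (l 16776632)) (a (l 16777360) (l 16775984)))) (a (a (b (a (l 297594257847) (a (l 199883751751) (l 113447535143))) (a (b (l 90362085975) (l 16776864)) (l 16776672))) (b (a (l 16777608) (l 16776600)) (l 16776128))) (c (l 16775728) (b (l 16775688) (l 16775032)))))) (a (b (b (a (l 302962967431) (b (l 272898195975) (a (a (l 190220075399) (l 104857600615)) (l 16776936)))) (b (a (a (c (l 172503335367) (l 173577077239)) (l 16777832)) (l 16776472)) (a (l 16776552) (l 16775816)))) (c (b (l 16775232) (l 16775288)) (a (b (l 16775568) (l 16774272)) (b (l 16774832) (l 16773544))))) (b (a (b (b (a (a (l 148881015303) (l 16777776)) (l 16776848)) (l 16776384)) (l 16776064)) (b (l 16776296) (l 16775328))) (b (c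 (l 16773792) (l 16773736)) (c (l 16772544) (a (l 16772824) (l 16772096))))))), by decide +kernel⟩

def k50_pm_102_s : ∃ t, chk3 f_pm_102_s t 114 149 1 = true :=
  ⟨(b (b (a (a (c (l 16775520) (a (l 16775848) (l 16775128))) (c (l 16774096) (l 16774528))) (a (c (l 16772672) (l 16773248)) (c (l 16772544) (l 16772448)))) (a (a (c (l 16774208) (l 16774808)) (c (l 16772776) (l 16774016))) (a (c (l 16771336) (l 16771248)) (a (c (l 16771880) (c (l 16772800) (l 16772088))) (c (l 16770872) (l 16770760)))))) (a (c (a (c (l 16773536) (l 16772184)) (b (l 16771432) (a (l 16770456) (l 16771136)))) (b (a (l 16774120) (l 16771360)) (a (l 16771464) (a (l 16770368) (a (l 16771136) (l 16769472)))))) (a (a (c (b (l 16771656) (l 16770360)) (b (l 16771568) (l 16768952))) (b (c (l 16770952) (c (l 16769576) (l 16771488))) (l 16769600))) (b (c (l 16769920) (l 16768496)) (l 16768872))))), by decide +kernel⟩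

def k51_pm_102_s : ∃ t, chk3 f_pm_102_s t 115 74 1 = true :=
  ⟨(a (b (b (c (c (b (l 16774152) (l 16772888)) (b (l 16774136) (l 16772856))) (a (b (l 16774840) (l 16773544)) (b (l 16773344) (l 16772064)))) (b (a (c (l 16772344) (l 16772272)) (a (c (l 16771264) (l 16771168)) (b (l 16770792) (a (l 16771000) (l 16771304))))) (c (a (c (l 16772440) (l 16772376)) (c (l 16771704) (l 16771952))) (a (c (l 16772328) (b (l 16771304) (l 16771968))) (b (a (l 16770224) (l 16769512)) (l 16770560)))))) (b (a (a (b (a (c (l 16771640) (l 16771536)) (c (l 16771296) (l 16771184))) (l 16770088)) (b (c (l 16770784) (l 16770656)) (l 16769376))) (c (l 16770352) (l 16770224))) (c (l 16767176) (c (l 16768368) (l 16768312))))) (b (a (b (c (b (l 16771944) (c (l 16773304) (l 16771968))) (b (l 16771848) (b (l 16772200) (a (l 16770640) (l 16769912))))) (b (a (c (l 16771136) (l 16770704)) (l 16770344)) (c (l 16768248) (l 16768104)))) (b (c (b (a (l 16770832) (l 16772728)) (l 16771856)) (b (a (c (l 16770752) (l 16770672)) (l 16772616))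 (l 16771760))) (c (l 16767408) (l 16768584)))) (c (b (l 16768224) (l 16763072)) (b (c (l 16768104) (l 16768040)) (l 16765520))))), by decide +kernel⟩

def k52_pm_102_s : ∃ t, chk3 f_pm_102_s t 112 300 1 = true :=
  ⟨(a (l 3) (b (a (l 3) (a (b (l 3) (b (a (l 3) (a (l 269676970135) (l 129553662343))) (a (a (l 290078064759) (l 140291080599)) (l 16776984)))) (b (b (a (l 3) (a (l 238538457319) (l 16777440))) (a (a (l 253033971927) (l 117742502279)) (l 16776952))) (c (l 16776624) (l 16776944))))) (b (a (a (l 3) (b (a (l 3) (a (l 301889224839) (l 152102240647))) (a (a (l 308331675879) (l 163913400679)) (l 16777344)))) (c (l 16776960) (c (l 16776624) (a (l 16776976) (l 16775928))))) (a (b (a (a (l 3) (a (l 317458481399) (l 174113947991))) (a (l 16777352) (l 16776672))) (a (a (a (l 3) (l 185388237111)) (l 16777368)) (l 16776512))) (c (l 16775624) (l 16775936)))))), by decide +kernel⟩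

def k53_pm_102_s : ∃ t, chk3 f_pm_102_s t 112 301 1 = true :=
  ⟨(a (b (a (l 3) (a (b (l 3) (b (a (l 3) (l 243907166391)) (a (l 248202133703) (c (l 16777080) (c (l 16777080) (l 16777408)))))) (b (b (c (l 255718326631) (c (l 263234519367) (l 267529486647))) (a (l 238538457271) (c (l 16777064) (l 16777384)))) (a (a (b (l 83919634823) (l 16776824)) (l 16776816)) (l 16776552))))) (a (a (b (l 3) (b (c (l 276119421335) (l 285783097703)) (a (l 262697648359) (a (a (l 144049176903) (l 16777152)) (l 16777024))))) (b (b (c (l 270750712199) (l 279340646759)) (a (l 256255197399) (a (a (l 134922371383) (l 16777144)) (l 16777008)))) (a (a (b (a (l 140291080503) (l 16777144)) (l 16776848)) (l 16777008)) (l 16776584)))) (a (b (a (a (b (a (l 128479920439) (l 16777136)) (l 16776840)) (l 16776832)) (l 16776568)) (c (l 16776064) (l 16776048))) (c (l 16775704) (c (l 16775696) (l 16776008)))))) (b (a (a (b (a (a (b (l 16777464) (l 16776800)) (l 16776792)) (l 16776528)) (l 16776352)) (b (l 16776328) (l 16775976))) (c (l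 16775920) (a (l 16775264) (l 16774224)))) (a (c (l 16775312) (b (l 16775296) (l 16774608))) (c (l 16773912) (c (l 16773216) (l 16773840)))))), by decide +kernel⟩

def k54_pm_102_s : ∃ t, chk3 f_pm_102_s t 113 150 1 = true :=
  ⟨(b (a (a (b (b (c (l 16776232) (c (l 16776224) (l 16776544))) (c (l 16775560) (l 16776200))) (c (l 16774552) (c (l 16774528) (l 16775160)))) (b (c (l 16774480) (c (l 16774456) (l 16775088))) (c (l 16773136) (l 16773736)))) (a (b (c (l 16773056) (l 16774312)) (c (l 16771712) (l 16771640))) (c (b (l 16771624) (c (l 16770960) (l 16770264))) (a (l 16771896) (b (l 16771192) (l 16770480)))))) (a (a (b (c (l 16774512) (c (l 16773168) (l 16773128))) (c (l 16772504) (l 16772432))) (b (c (l 16771792) (l 16771712)) (c (a (l 16770792) (l 16770088)) (l 16771000)))) (c (a (b (c (l 16770384) (l 16770352)) (c (a (l 16769400) (l 16768704)) (a (l 16769360) (l 16768672)))) (b (a (a (l 16769488) (l 16769136)) (l 16768616)) (l 16767656))) (a (a (b (l 16770640) (a (l 16769448) (l 16769104))) (b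 (l 16769912) (l 16768592))) (b (a (a (l 16769376) (l 16769032)) (l 16768520)) (l 16767560)))))), by decide +kernel⟩

def k55_pm_102_s : ∃ t, chk3 f_pm_102_s t 57 150 1 = true :=
  ⟨(b (a (a (a (a (b (l 16771176) (c (c (l 16769240) (l 16769208)) (l 16769784))) (b (b (l 16770136) (a (l 16769640) (l 16769288))) (b (l 16768808) (l 16768152)))) (c (b (c (l 16769320) (l 16769424)) (l 16767496)) (a (b (l 16770352) (l 16767736)) (l 16767688)))) (c (c (l 16766144) (l 16767360)) (c (l 16768600) (l 16765920)))) (c (a (l 16763360) (l 16760608)) (a (l 16765800) (l 16760392)))) (a (c (a (a (l 16767616) (l 16765632)) (l 16764944)) (a (c (l 16767488) (l 16768744)) (c (l 16766088) (l 16763376)))) (c (a (l 16760936) (l 16758216)) (a (l 16763296) (l 16757920))))), by decide +kernel⟩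

def k56_pm_102_s : ∃ t, chk3 f_pm_102_s t 28 302 1 = true :=
  ⟨(a (b (a (a (a (a (b (b (b (a (a (l 151565370055) (l 16777112)) (l 16776856)) (l 16777016)) (l 16776600)) (c (l 16776088) (l 16776072))) (c (l 16775736) (b (l 16776064) (l 16775368)))) (a (b (l 16775696) (l 16775008)) (b (l 16775328) (l 16773984)))) (a (c (l 16773952) (c (l 16773264) (l 16773560))) (c (l 16772552) (c (l 16771848) (l 16771808))))) (a (a (c (l 16771152) (l 16770408)) (a (b (l 16769736) (c (l 16769112) (l 16769008))) (b (c (l 16769088) (l 16768976)) (l 16768872)))) (c (c (l 16767120) (l 16767040)) (l 16768264)))) (a (a (a (a (c (l 16775056) (c (l 16775040) (l 16775352))) (b (l 16775024) (l 16774336))) (c (l 16773976) (a (l 16773952) (l 16772928)))) (a (c (l 16772592) (c (l 16771888) (l 16772504))) (c (l 16771200) (l 16771112)))) (a (a (b (a (l 16770120) (c (l 16769136) (l 16769032))) (a (c (l 16769160) (l 16769056)) (c (l 16768472) (l 16768376)))) (c (l 16768448) (l 16767696))) (c (l 16767176) (l 16767000))))) (a (c (a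 (c (l 16763936) (l 16766432)) (l 16761232)) (a (c (l 16766312) (l 16763592)) (l 16762248))) (a (a (l 16759720) (l 16761640)) (l 16756984)))), by decide +kernel⟩

def k57_pm_102_s : ∃ t, chk3 f_pm_102_s t 28 303 1 = true :=
  ⟨(a (a (a (a (b (a (b (l 16774336) (l 16773976)) (b (l 16773968) (l 16772952))) (c (c (l 16771976) (l 16771952)) (c (l 16771928) (l 16772216)))) (b (c (c (l 16771968) (l 16771944)) (c (l 16771912) (l 16772200))) (c (c (l 16770600) (l 16770576)) (l 16771008)))) (c (a (b (c (l 16770584) (l 16770560)) (a (b (l 16769896) (l 16769216)) (b (l 16769208) (l 16768536)))) (a (b (c (l 16769552) (l 16769512)) (c (l 16768248) (l 16768184))) (b (b (l 16769176) (l 16768512)) (l 16767576)))) (a (b (l 16771152) (a (c (l 16769496) (l 16769440)) (b (l 16769112) (l 16768456)))) (a (b (a (l 16769616) (l 16769256)) (l 16768448)) (b (b (l 16769080) (l 16768424)) (l 16767448)))))) (c (a (a (b (c (l 16767888) (l 16767816)) (l 16766640)) (a (l 16766296) (l 16765672))) (c (l 16764152) (l 16765328))) (a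 (a (b (l 16768400) (l 16766480)) (l 16767112)) (c (l 16765200) (l 16763784))))) (a (c (a (l 16764128) (l 16760208)) (c (a (l 16763880) (l 16763840)) (a (a (l 16764400) (l 16760432)) (l 16763656)))) (a (c (l 16756256) (l 16761048)) (a (l 16754008) (a (l 16753000) (l 16752352)))))), by decide +kernel⟩

def k58_pm_102_s : ∃ t, chk3 f_pm_102_s t 232 18 1 = true :=
  ⟨(b (b (l 3) (a (b (a (b (l 304036709831) (b (a (b (l 191830688167) (l 16776800)) (l 16777720)) (l 16775656))) (b (b (l 3) (b (l 265918874087) (a (l 142975435415) (l 16776928)))) (c (l 16775552) (l 16775832)))) (b (c (l 16774712) (l 16774288)) (b (c (l 16772816) (l 16772352)) (a (b (l 16770880) (a (l 16770768) (l 16770072))) (c (l 16769896) (l 16769760)))))) (a (b (b (b (l 244980908679) (b (l 16777800) (l 16776360))) (c (l 16774792) (l 16774728))) (b (c (l 16772280) (l 16772152)) (b (c (l 16770400) (l 16772872)) (l 16769104)))) (b (b (b (b (l 181093270183) (l 16776856)) (l 16775912)) (c (l 16774040) (l 16773952))) (b (b (l 16772096) (b (l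 16771152) (a (l 16770704) (l 16770336)))) (c (l 16769048) (l 16768904))))))) (b (b (b (c (c (l 16767696) (l 16770272)) (c (l 16770208) (l 16770128))) (c (l 16767864) (c (l 16767752) (l 16767680)))) (c (b (l 16762744) (l 16760264)) (b (l 16765200) (l 16760072)))) (b (b (c (l 16757840) (l 16757592)) (c (l 16755472) (l 16755152))) (a (b (a (l 16753968) (l 16755912)) (l 16751408)) (b (a (l 16757880) (l 16752000)) (l 16750152)))))), by decide +kernel⟩

def k59_pm_102_s : ∃ t, chk3 f_pm_102_s t 233 18 1 = true :=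
  ⟨(b (b (b (l 3) (a (b (l 3) (b (l 297594258631) (b (a (l 3) (l 107541955639)) (a (l 141901693927) (l 16776584))))) (a (b (l 3) (b (b (l 238538457511) (l 16778360)) (l 16776128))) (b (b (l 3) (l 228874781223)) (b (a (l 16778104) (l 16776416)) (l 16775360)))))) (b (b (c (a (c (l 16775416) (l 16775400)) (l 16775200)) (a (b (l 16776656) (l 16774720)) (l 16774448))) (c (a (l 16774216) (b (l 16772016) (c (l 16770808) (l 16772056)))) (a (l 16774096) (b (l 16771864) (a (l 16770968) (l 16770232)))))) (b (a (a (b (a (l 16771528) (l 16771800)) (c (l 16770168) (l 16770008))) (b (c (l 16770656) (l 16770488)) (l 16769352))) (c (l 16769928) (l 16770088))) (c (l 16767216) (l 16769024))))) (b (b (c (c (l 16766208) (l 16766120)) (b (l 16767240) (l 16764808))) (b (a (l 16760496) (l 16759056)) (l 16757320))) (b (b (c (l 16756368) (l 16754792)) (c (c (l 16752960) (l 16752728)) (l 16752448))) (c (l 16754920) (l 16754272))))), by decide +kernel⟩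

def k60_pm_102_s : ∃ t, chk3 f_pm_102_s t 234 18 1 = true :=
  ⟨(b (a (b (b (l 3) (b (a (b (l 3) (b (l 155323466455) (l 16776768))) (b (b (l 289004323415) (l 116131890071)) (l 16776312))) (c (c (l 16774864) (l 16774840)) (c (l 16774808) (l 16774760))))) (b (a (b (c (l 16772752) (l 16772624)) (b (b (l 16771440) (l 16770832)) (l 16769584))) (b (b (l 16772552) (c (l 16771360) (l 16771184))) (c (l 16769536) (l 16769360)))) (c (l 16768200) (a (l 16768392) (l 16767000))))) (b (b (b (l 3) (a (l 275582551303) (b (l 3) (b (l 194515042711) (l 16776912))))) (b (c (b (l 16777696) (l 16775168)) (b (c (l 16777680) (l 16777664)) (l 16775120))) (c (l 16774632) (l 16773872)))) (b (b (c (b (c (l 16771488) (l 16771424)) (a (l 16770616) (l 16769864))) (b (a (l 16769392) (l 16770904)) (l 16770728))) (c (l 16768408) (l 16768224))) (c (l 16767384) (l 16766544))))) (b (b (b (l 16764072) (l 16761968)) (b (l 16759512) (c (l 16754648) (l 16757040)))) (b (b (c (l 16752456) (l 16752088)) (l 16755288)) (l 16746776)))), by decide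 +kernel⟩

def k61_pm_102_s : ∃ t, chk3 f_pm_102_s t 235 18 1 = true :=
  ⟨(b (b (a (b (b (l 290078066407) (a (b (l 196662526311) (l 16776448)) (b (a (l 82309021735) (l 16776696)) (l 16775680)))) (b (c (l 16775560) (l 16774832)) (c (b (l 16772400) (c (l 16771200) (l 16771144))) (b (l 16772264) (c (l 16771064) (l 16771280)))))) (b (b (a (b (l 3) (a (l 180019528231) (l 94120182871))) (b (l 209547428311) (l 16777864))) (c (l 16775800) (l 16775432))) (b (a (c (l 16773096) (l 16773000)) (b (l 16772896) (b (l 16771968) (l 16771344)))) (a (b (b (l 16771496) (l 16770888)) (l 16769968)) (c (l 16769896) (l 16769736)))))) (b (b (a (b (c (l 16769960) (l 16769792)) (l 16768664)) (a (l 16769456) (l 16767392))) (c (l 16766176) (l 16767288))) (b (a (l 16764416) (l 16762928)) (l 16763880)))) (b (b (b (l 16758840) (c (l 16756504) (l 16758952))) (a (b (l 16754760) (l 16752504)) (l 16752312))) (b (l 16753784) (l 16744168)))), by decide +kernel⟩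

def k62_pm_102_s : ∃ t, chk3 f_pm_102_s t 59 18 1 = true :=
  ⟨(b (b (a (b (a (b (b (a (a (a (l 101636375543) (l 16776784)) (l 16776208)) (l 16776368)) (c (l 16775968) (l 16774616))) (c (a (l 16773608) (b (l 16772672) (c (l 16771488) (l 16771448)))) (a (l 16773544) (b (l 16772584) (l 16771680))))) (a (b (b (l 16773512) (c (l 16772336) (l 16773568))) (b (c (l 16771152) (l 16771056)) (l 16769880))) (b (c (b (l 16772008) (l 16770816)) (b (l 16774544) (l 16770736))) (l 16769592)))) (a (b (a (c (b (c (l 16771792) (l 16771752)) (l 16770576)) (b (a (l 16772040) (l 16771272)) (l 16770440))) (c (l 16769656) (l 16770824))) (c (l 16769304) (l 16769456))) (c (b (l 16767352) (l 16764952)) (b (l 16768504) (l 16764768))))) (b (a (c (b (l 16769072) (l 16766664)) (b (l 16768984) (l 16766528))) (c (b (l 16765928) (l 16763552)) (b (l 16765824) (l 16763392)))) (b (a (c (l 16764272) (l 16764104)) (c (l 16761176) (l 16760968))) (a (l 16763128) (a (l 16759504) (l 16758024)))))) (a (b (a (c (c (l 16765720) (l 16766968))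 (b (l 16768008) (l 16762976))) (b (c (l 16762560) (l 16762352)) (l 16760088))) (a (b (l 16763312) (c (l 16758368) (l 16758160))) (a (b (l 16758448) (l 16756104)) (b (l 16756976) (l 16754712))))) (b (b (a (c (l 16759520) (l 16759288)) (c (l 16756584) (l 16756416))) (a (a (l 16757832) (l 16756400)) (l 16754248))) (a (c (l 16759112) (l 16753672)) (l 16756120))))) (b (b (a (a (b (c (l 16756000) (l 16758456)) (l 16753656)) (l 16757288)) (a (l 16754512) (l 16754296))) (a (c (l 16753176) (l 16748728)) (a (l 16744832) (l 16742008)))) (b (a (a (l 16756376) (l 16743176)) (a (l 16740416) (b (l 16738696) (l 16736512)))) (a (a (l 16741504) (l 16738800)) (a (b (l 16737128) (l 16734952)) (l 16733248)))))), by decide +kernel⟩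

def k63_pm_102_s : ∃ t, chk3 f_pm_102_s t 30 36 1 = true :=
  ⟨(a (b (a (b (a (b (l 16762728) (a (l 16761136) (c (l 16759664) (l 16759496)))) (b (a (c (l 16760408) (l 16760280)) (l 16758816)) (l 16757320))) (a (a (b (l 16758824) (l 16756568)) (l 16756208)) (c (l 16754056) (l 16753864)))) (b (a (c (l 16755448) (l 16755272)) (a (l 16752952) (l 16751344))) (b (a (l 16751960) (a (l 16749600) (l 16748000))) (a (l 16749720) (a (l 16747368) (l 16745784)))))) (a (a (b (c (l 16752592) (l 16752344)) (l 16747960)) (b (l 16750752) (c (l 16745328) (l 16749952)))) (b (b (a (l 16752728) (l 16744360)) (a (l 16745264) (l 16742152))) (a (b (l 16743056) (l 16740848)) (l 16738856))))) (b (a (b (b (a (a (l 16750840) (l 16749200)) (l 16746704)) (a (a (l 16748616) (l 16746984)) (l 16744496))) (a (b (l 16745584) (l 16743376)) (c (l 16741624) (l 16740832)))) (a (b (c (l 16742624) (l 16741864)) (c (l 16738344) (l 16737368))) (b (c (l 16739240) (l 16738288)) (c (l 16734976) (l 16733824))))) (b (a (a (c (l 16740536) (l 16739680))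 (c (l 16737360) (l 16736320))) (a (c (l 16734096) (l 16732880)) (c (l 16730744) (l 16729360)))) (a (a (l 16735680) (l 16732424)) (a (l 16729088) (l 16728288)))))), by decide +kernel⟩

def k64_pm_102_s : ∃ t, chk3 f_pm_102_s t 30 37 1 = true :=
  ⟨(a (a (b (b (a (b (l 16744640) (l 16742432)) (b (l 16741680) (l 16739488))) (a (b (l 16740232) (l 16738024)) (l 16736192))) (b (a (l 16734744) (l 16731824)) (a (l 16730400) (l 16727488)))) (a (b (b (l 16737568) (l 16733192)) (b (l 16728840) (l 16724512))) (b (b (l 16734480) (l 16730120)) (b (l 16725776) (l 16721472))))) (b (a (a (b (l 16731312) (l 16726976)) (b (l 16728072) (l 16723752))) (a (b (l 16727376) (l 16720448)) (b (c (l 16722360) (l 16720472)) (l 16717072)))) (a (a (b (l 16722648) (l 16718360)) (b (l 16719448) (l 16715176))) (a (b (l 16716168) (l 16711912)) (b (l 16712808) (l 16708576)))))), by decide +kernel⟩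

def k65_pm_102_s : ∃ t, chk3 f_pm_102_s t 62 18 1 = true :=
  ⟨(a (b (b (a (b (c (l 16735768) (l 16734640)) (c (l 16731528) (l 16730192))) (c (b (l 16732216) (l 16728000)) (b (l 16730912) (l 16726488)))) (a (b (a (l 16727368) (l 16725584)) (l 16724792)) (b (l 16725504) (l 16723832)))) (b (b (a (l 16720496) (l 16719568)) (a (l 16713616) (l 16710088))) (a (b (l 16709376) (l 16705168)) (b (l 16705872) (l 16701680))))) (b (b (b (a (c (l 16728576) (l 16727088)) (c (l 16724832) (l 16723160))) (a (l 16725440) (c (l 16720656) (l 16718792)))) (b (a (l 16724432) (c (a (l 16717432) (l 16715560)) (l 16714432))) (a (l 16720168) (c (c (l 16713024) (l 16711744)) (l 16710088))))) (b (a (c (b (l 16711928) (l 16707832)) (b (l 16709576) (l 16705256))) (c (b (l 16709576) (l 16704192)) (b (l 16705760) (l 16701456)))) (a (b (a (l 16703184) (l 16706608)) (c (l 16699712) (l 16696680))) (c (c (l 16699008) (l 16697296)) (l 16695056)))))), by decide +kernel⟩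

def k66_pm_102_s : ∃ t, chk3 f_pm_102_s t 63 18 1 = true :=
  ⟨(a (b (b (a (c (b (c (l 16721512) (l 16720472)) (l 16716824)) (b (l 16719128) (l 16714776))) (c (c (l 16718176) (l 16714360)) (l 16716080))) (c (a (c (l 16711304) (l 16709992)) (c (l 16707440) (l 16706024))) (a (l 16713528) (l 16704176)))) (c (b (a (c (l 16703264) (l 16701704)) (c (l 16699432) (l 16697776))) (a (c (l 16695336) (l 16693536)) (c (l 16691552) (l 16689648)))) (b (a (l 16699680) (l 16695616)) (a (l 16691168) (l 16687152))))) (b (b (c (a (c (l 16711512) (l 16710216)) (b (l 16708664) (l 16704560))) (a (l 16713760) (b (l 16706216) (l 16701920)))) (c (a (c (l 16703440) (l 16701912)) (a (l 16699520) (l 16700000))) (a (l 16699928) (l 16706000)))) (c (b (a (c (l 16695472) (l 16693704)) (b (l 16692400) (l 16688408))) (a (c (l 16687640) (l 16685624)) (b (l 16684456) (l 16680520)))) (b (a (l 16691400) (l 16687032)) (a (l 16682984) (l 16678656)))))), by decide +kernel⟩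

def k67_pm_102_s : ∃ t, chk3 f_pm_102_s t 224 38 1 = true :=
  ⟨(a (b (b (b (c (b (c (l 16770608) (l 16770584)) (a (l 16770216) (b (l 16769224) (a (l 16768736) (l 16768432))))) (b (c (l 16770552) (l 16771168)) (a (l 16769496) (b (l 16769152) (l 16768488))))) (b (b (a (c (a (l 16768744) (l 16768448)) (l 16768488)) (l 16768568)) (c (l 16767712) (l 16767560))) (c (l 16768160) (l 16766656)))) (c (b (c (l 16765240) (l 16767712)) (l 16762960)) (b (l 16767488) (l 16762520)))) (b (c (b (l 16760720) (l 16758504)) (b (l 16760152) (l 16757800))) (c (b (l 16756408) (l 16754416)) (b (l 16755544) (l 16753368))))) (b (b (b (a (b (c (c (l 16769576) (l 16769552)) (l 16769488)) (b (c (a (l 16768720) (l 16768416)) (l 16768480)) (l 16768560))) (c (b (c (b (l 16769240) (l 16768592)) (l 16768872)) (l 16767664)) (b (b (l 16769136) (l 16768480)) (l 16767520)))) (c (c (l 16766296) (l 16766176)) (l 16767328))) (b (c (l 16765288) (l 16766256)) (c (l 16761784) (l 16761296)))) (b (c (b (l 16759552) (l 16757360)) (b (l 16758936)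 (l 16756600))) (c (b (l 16755288) (l 16753312)) (b (l 16754360) (l 16752192)))))), by decide +kernel⟩

def k68_pm_102_s : ∃ t, chk3 f_pm_102_s t 225 38 1 = true :=
  ⟨(b (b (a (b (a (b (b (c (l 16768336) (l 16768464)) (l 16768520)) (b (l 16767272) (l 16766672))) (c (l 16767856) (l 16766872))) (c (b (l 16768224) (l 16764464)) (l 16764768))) (c (b (c (l 16766176) (l 16767376)) (l 16765128)) (b (l 16767232) (l 16766128)))) (b (c (c (l 16762296) (l 16764696)) (c (l 16764488) (l 16764280))) (c (l 16759992) (c (l 16759568) (l 16759288))))) (b (c (b (l 16757792) (l 16758256)) (b (c (l 16757264) (l 16756904)) (l 16757408))) (b (c (c (l 16753832) (l 16753336)) (l 16755184)) (a (b (l 16752120) (a (a (l 16751544) (l 16751256)) (b (l 16751072) (l 16750576)))) (b (c (a (l 16751832) (l 16751264)) (l 16750344)) (a (l 16750240) (l 16749656))))))), by decide +kernel⟩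

def k69_pm_102_s : ∃ t, chk3 f_pm_102_s t 113 38 1 = true :=
  ⟨(b (b (c (a (b (c (l 16764336) (l 16765504)) (c (l 16764704) (l 16764504))) (b (c (l 16763160) (l 16764288)) (l 16762112))) (a (b (c (l 16765376) (l 16766560)) (a (l 16764856) (l 16760952))) (a (b (l 16764672) (l 16759656)) (b (l 16763368) (l 16758360))))) (a (c (b (l 16759752) (l 16757568)) (b (c (l 16759360) (l 16759104)) (l 16759520))) (c (b (l 16757272) (l 16755096)) (b (l 16761896) (l 16754336))))) (b (b (a (c (l 16755392) (l 16754584)) (a (l 16753128) (b (l 16752424) (l 16751336)))) (a (a (l 16753408) (b (l 16752736) (l 16751672))) (c (a (b (l 16752008) (l 16751016)) (l 16750352)) (a (b (l 16750992) (l 16749904)) (l 16749208))))) (b (b (a (a (l 16751824) (a (l 16752240) (l 16750336))) (l 16748856)) (a (a (c (a (l 16751664) (l 16751088)) (l 16750200)) (l 16749616)) (l 16747832))) (c (a (l 16751992) (l 16747048)) (a (l 16747992) (l 16745520)))))), by decide +kernel⟩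

def k70_pm_102_s : ∃ t, chk3 f_pm_102_s t 57 38 1 = true :=
  ⟨(b (a (a (b (b (c (l 16761824) (c (l 16764112) (l 16763904))) (a (l 16759936) (l 16756016))) (a (b (l 16755040) (l 16752808)) (b (l 16753752) (b (l 16752072) (l 16750992))))) (b (b (c (l 16756616) (l 16756104)) (l 16756680)) (b (c (a (l 16752840) (l 16751608)) (a (l 16752072) (l 16750784))) (c (l 16750200) (l 16749208))))) (b (b (b (a (l 16754280) (c (l 16751984) (l 16751376))) (a (c (l 16753440) (l 16752840)) (l 16750592))) (a (a (a (l 16752424) (l 16751784)) (l 16750848)) (l 16749000))) (c (a (l 16754072) (l 16746424)) (a (l 16747792) (l 16745248))))) (a (a (b (b (a (b (l 16751168) (l 16750128)) (l 16749440)) (l 16750608)) (b (l 16748544) (l 16746472))) (b (b (l 16747624) (l 16745544)) (c (l 16745880) (l 16741552)))) (a (b (c (l 16744840) (l 16743392)) (c (l 16740816) (l 16738984))) (b (c (l 16742400) (l 16740816)) (l 16742608))))), by decide +kernel⟩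

def k71_pm_102_s : ∃ t, chk3 f_pm_102_s t 29 38 1 = true :=
  ⟨(a (b (a (a (b (l 16751496) (l 16748560)) (b (l 16745032) (l 16740760))) (b (a (l 16742448) (l 16739824)) (a (l 16738160) (b (l 16736592) (l 16734456))))) (a (a (b (l 16739064) (c (l 16735800) (l 16733760))) (b (l 16736480) (b (l 16733264) (l 16731128)))) (b (a (b (l 16734952) (l 16732792)) (b (l 16732312) (l 16730192))) (a (c (l 16730744) (l 16728480)) (l 16727016))))) (b (a (b (a (l 16737160) (b (l 16735528) (l 16733384))) (a (b (l 16733928) (l 16731808)) (l 16730192))) (b (a (l 16731728) (l 16728936)) (c (l 16727184) (l 16725024)))) (a (b (c (l 16728416) (l 16726176)) (c (l 16724344) (l 16721744))) (b (c (l 16723096) (l 16720584)) (c (l 16719000) (l 16716160)))))), by decide +kernel⟩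

def k72_pm_102_s : ∃ t, chk3 f_pm_102_s t 28 78 1 = true :=
  ⟨(a (b (b (a (a (a (a (c (l 16752800) (l 16751560)) (b (l 16752112) (b (l 16751376) (a (l 16751032) (l 16750744))))) (a (b (l 16751552) (a (b (l 16750960) (l 16750464)) (l 16750416))) (b (b (l 16751232) (a (l 16750880) (l 16750592))) (l 16749984)))) (a (a (b (b (l 16750656) (l 16750160)) (l 16749408)) (l 16749320)) (c (l 16749168) (l 16747688)))) (c (a (l 16747440) (l 16745096)) (a (l 16745856) (l 16743368)))) (a (a (b (a (a (b (a (l 16751112) (l 16750824)) (l 16750472)) (l 16750152)) (l 16749280)) (a (l 16749440) (l 16748280))) (c (l 16747824) (l 16746176))) (c (a (l 16745496) (l 16743120)) (a (l 16743712) (l 16741208))))) (b (a (c (a (l 16750824) (l 16745896)) (a (l 16746488) (l 16744048))) (c (a (l 16743544) (l 16741144)) (a (l 16741568) (l 16739040)))) (a (c (a (l 16746288) (l 16743952)) (a (l 16744376) (l 16741920))) (c (a (l 16741568) (l 16739144)) (a (l 16739416) (l 16736872)))))) (a (b (a (b (l 16747024) (l 16739696)) (c (l 16739240)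 (l 16737168))) (a (b (l 16737608) (l 16735512)) (b (l 16735064) (l 16732944)))) (b (a (c (l 16736752) (l 16734568)) (a (l 16733744) (b (l 16733520) (l 16731392)))) (a (b (c (l 16733688) (l 16731264)) (c (a (l 16732272) (l 16731024)) (a (l 16729720) (l 16728416)))) (b (a (l 16733848) (l 16729312)) (l 16727896)))))), by decide +kernel⟩

def k73_pm_102_s : ∃ t, chk3 f_pm_102_s t 28 79 1 = true :=
  ⟨(a (a (b (c (b (a (l 16746976) (l 16741992)) (a (l 16742392) (l 16739992))) (b (a (c (l 16742800) (l 16741696)) (l 16739784)) (a (c (l 16740720) (l 16739520)) (l 16737632)))) (b (c (a (l 16740384) (l 16737952)) (a (c (l 16738616) (l 16737336)) (l 16735456))) (c (a (c (l 16738912) (l 16737736)) (c (l 16736456) (l 16735248))) (a (c (l 16736480) (l 16735128)) (l 16733264))))) (b (c (b (a (l 16739584) (l 16737128)) (a (l 16737544) (l 16735056))) (a (b (l 16737264) (l 16735088)) (b (l 16734704) (l 16732504)))) (a (c (b (l 16735472) (l 16733352)) (b (l 16732896) (l 16730680))) (a (b (c (l 16733584) (l 16730944))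 (b (l 16735920) (a (b (l 16730176) (l 16733576)) (b (l 16734784) (l 16729032))))) (b (c (a (l 16732632) (l 16737240)) (l 16729640)) (b (c (a (l 16731040) (l 16730432)) (l 16733224)) (l 16728392))))))) (b (a (a (b (c (l 16734632) (l 16732104)) (a (l 16731888) (b (l 16731136) (a (l 16730384) (a (l 16735144) (l 16734824)))))) (a (b (c (l 16732736) (l 16730136)) (b (a (a (l 16730336) (l 16730016)) (l 16734784)) (l 16734064))) (b (c (b (l 16731992) (l 16730968)) (b (l 16729376) (l 16728280))) (l 16733360)))) (b (a (a (b (l 16734696) (l 16728432)) (l 16732960)) (a (l 16726480) (l 16725232))) (c (a (l 16727728) (l 16725328)) (a (l 16724768) (l 16722208))))) (a (b (a (c (a (b (c (l 16732200) (l 16730936)) (c (l 16731184) (l 16729896))) (c (l 16733144) (l 16729200))) (a (b (l 16728880) (l 16727784)) (l 16729680))) (c (l 16728128) (l 16725168))) (c (a (l 16733760) (l 16726184)) (a (l 16725568) (l 16723048)))) (c (a (b (l 16725760) (l 16723800)) (b (l 16723352) (l 16721376))) (b (a (l 16722632) (l 16720056))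 (a (l 16720496) (l 16717912))))))), by decide +kernel⟩

def k74_pm_102_s : ∃ t, chk3 f_pm_102_s t 29 39 1 = true :=
  ⟨(b (a (a (b (a (b (c (l 16732720) (l 16730432)) (l 16728016)) (l 16728000)) (c (a (l 16727784) (l 16725320)) (a (l 16724992) (l 16722384)))) (a (b (l 16725432) (l 16721280)) (b (l 16722816) (l 16718656)))) (a (b (c (l 16720312) (l 16722584)) (c (l 16716312) (l 16718224))) (b (c (l 16714936) (l 16711768)) (c (l 16710912) (l 16707400))))) (a (a (a (b (b (l 16723344) (l 16721272)) (c (b (l 16720888) (l 16718904)) (b (l 16717456) (l 16715312)))) (b (b (l 16720784) (l 16718712)) (b (l 16716632) (l 16719552)))) (b (c (b (l 16718576) (l 16716560)) (b (l 16715160) (l 16712992))) (c (a (l 16714824) (l 16712224)) (a (l 16711080) (l 16708392))))) (a (b (c (a (l 16713640) (l 16710968)) (a (l 16710008) (l 16707256))) (c (a (l 16709584) (l 16706888)) (a (l 16705664) (l 16702904)))) (a (b (c (l 16708248) (l 16704464)) (l 16712624)) (b (l 16711416) (l 16699336)))))), by decide +kernel⟩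

def k75_pm_102_s : ∃ t, chk3 f_pm_102_s t 30 19 1 = true :=
  ⟨(b (a (b (a (b (c (l 16725728) (l 16723648)) (c (l 16721640) (l 16719216))) (b (c (l 16719944) (l 16717592)) (c (l 16715856) (l 16713184)))) (a (b (c (l 16717552) (l 16714792)) (c (l 16713448) (l 16710392))) (b (c (l 16711768) (l 16708792)) (c (l 16707664) (l 16704424))))) (b (a (a (b (l 16714096) (l 16709856)) (b (l 16710920) (l 16706704))) (a (b (l 16707680) (l 16703480)) (b (l 16704360) (l 16700176)))) (a (c (b (l 16705728) (l 16701648)) (b (l 16702552) (l 16698224))) (c (a (l 16709480) (l 16706264)) (b (l 16696040) (l 16691768)))))) (a (b (a (b (c (l 16709368) (l 16706016)) (c (l 16705320) (l 16701664))) (c (b (l 16703592) (l 16699536)) (b (l 16700072) (l 16695752)))) (a (b (c (l 16701264) (l 16697328)) (c (l 16697144) (l 16693000))) (b (c (l 16695472) (l 16691440)) (c (l 16691352) (l 16687136))))) (b (a (c (b (l 16697584) (l 16693544)) (b (l 16693912) (l 16689624))) (a (c (l 16690904) (l 16687008)) (b (l 16687728) (l 16694104))))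 (a (b (c (l 16689488) (l 16685360)) (c (l 16685376) (l 16681096))) (b (c (a (l 16684848) (l 16681712)) (l 16679056)) (a (l 16699528) (c (l 16677664) (l 16673256)))))))), by decide +kernel⟩

def k76_pm_102_s : ∃ t, chk3 f_pm_102_s t 31 19 1 = true :=
  ⟨(b (a (a (b (b (c (a (l 16702568) (l 16699168)) (l 16703032)) (a (l 16696808) (c (c (l 16696120) (l 16694240)) (l 16691752)))) (c (a (b (l 16694512) (l 16690496)) (b (l 16691160) (l 16687176))) (a (l 16699352) (b (l 16687520) (l 16683312))))) (b (c (a (b (l 16695696) (l 16691712)) (c (l 16691152) (l 16689176))) (a (l 16690288) (l 16686568))) (c (a (c (l 16686856) (l 16684720)) (c (l 16683400) (l 16681168))) (a (l 16681856) (l 16678192))))) (a (b (c (a (c (l 16687536) (l 16685464)) (c (l 16683792) (l 16681624))) (a (l 16682728) (l 16678760))) (c (a (c (l 16679832) (l 16677512)) (c (l 16676152) (l 16673720))) (a (l 16674416) (l 16670496)))) (c (b (a (c (l 16679920) (l 16677640)) (b (l 16676616) (l 16672744))) (a (c (l 16677576) (l 16669800)) (b (l 16668912)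 (l 16665112)))) (b (a (l 16674640) (l 16670352)) (a (l 16666432) (l 16662192)))))) (a (b (a (a (c (b (l 16686488) (l 16682520)) (l 16690928)) (c (l 16681248) (l 16677032))) (c (a (l 16685776) (c (l 16675720) (l 16673264))) (a (l 16673536) (l 16669936)))) (a (c (b (a (l 16678568) (l 16675368)) (l 16673032)) (b (l 16672496) (l 16668360))) (c (b (c (l 16671712) (l 16669136)) (c (l 16667888) (l 16665224))) (b (l 16665592) (l 16661520))))) (b (a (c (a (c (l 16672224) (l 16669664)) (c (l 16668600) (l 16665944))) (a (l 16666208) (l 16662352))) (c (a (c (l 16664848) (l 16662072)) (c (l 16664880) (l 16658048))) (a (l 16658344) (l 16654160)))) (a (c (a (c (l 16675176) (l 16661920)) (b (l 16661568) (l 16657800))) (b (l 16658224) (l 16654232))) (c (a (b (l 16668288) (l 16654072)) (c (b (l 16655456) (l 16651816)) (l 16650504))) (b (l 16650288) (l 16646360))))))), by decide +kernel⟩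

def k77_pm_102_s : ∃ t, chk3 f_pm_102_s t 12 40 1 = true :=
  ⟨(a (b (b (a (l 3) (a (l 3) (b (l 3) (a (l 185388242663) (l 16780568))))) (a (a (l 3) (b (l 3) (a (l 221358594647) (l 103246994727)))) (b (a (a (l 219211109943) (l 91972703671)) (l 16779832)) (a (c (l 16775120) (l 16780200)) (l 16771856))))) (b (a (b (a (a (l 227264172983) (l 113447540407)) (l 16780696)) (a (l 16780960) (l 16773400))) (b (a (l 16772720) (c (l 16770400) (l 16775008))) (a (a (l 16771536) (l 16770408)) (a (l 16769504) (l 16768864))))) (a (b (a (l 16773864) (a (l 16772248) (l 16771256))) (a (l 16773696) (c (l 16771384) (l 16770424)))) (a (a (b (l 16770432) (l 16769992)) (l 16780064)) (a (l 16768824) (l 16767992)))))) (b (a (b (a (b (a (l 154786600583) (l 16776040)) (l 16774032)) (b (l 16773288) (l 16775648))) (b (a (l 16771136) (a (l 16768656) (l 16767472))) (a (a (l 16769480) (l 16768224)) (l 16767056)))) (b (a (a (b (l 16770408) (l 16767952)) (b (l 16768592) (l 16766856))) (b (a (l 16767184) (l 16766160)) (l 16765504)))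 (a (b (l 16766272) (l 16765392)) (b (l 16764368) (l 16763320))))) (b (a (a (b (l 16768152) (l 16767720)) (a (l 16766736) (l 16765792))) (a (c (l 16764896) (l 16763544)) (c (l 16762672) (l 16761056)))) (a (a (c (l 16767304) (l 16765904)) (c (l 16765328) (l 16763712))) (a (c (l 16763096) (l 16761248)) (b (l 16765464) (a (l 16759592) (l 16757952)))))))), by decide +kernel⟩

def k78_pm_102_s : ∃ t, chk3 f_pm_102_s t 26 40 1 = true :=
  ⟨(b (a (b (a (a (l 16775008) (l 16773840)) (c (l 16761992) (l 16766104))) (a (a (l 16767352) (l 16766096)) (b (l 16759448) (l 16758192)))) (b (a (c (l 16764536) (l 16768312)) (b (c (l 16756960) (l 16755272)) (a (c (l 16756440) (l 16754576)) (c (b (l 16755136) (l 16754304)) (b (l 16753168) (l 16752240)))))) (a (b (a (l 16757272) (c (l 16756680) (l 16754736))) (a (c (l 16756896) (l 16754872)) (c (l 16755088) (l 16752952)))) (b (a (c (l 16754912) (l 16752832)) (l 16751872)) (c (l 16752048) (l 16749800)))))) (a (b (a (a (l 16759936) (b (l 16759144) (l 16757920))) (b (a (l 16757728)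 (c (l 16757128) (l 16755008))) (a (c (l 16757264) (l 16755088)) (l 16754304)))) (a (b (a (l 16758000) (l 16756224)) (l 16755168)) (c (l 16753280) (b (l 16752112) (l 16749968))))) (b (a (c (b (l 16754264) (l 16752304)) (b (l 16752040) (l 16750024))) (c (a (l 16750128) (l 16747936)) (a (l 16747808) (l 16745568)))) (a (c (c (l 16749544) (l 16748528)) (b (l 16747896) (l 16745672))) (c (a (l 16745728) (l 16743440)) (b (l 16743432) (l 16741136))))))), by decide +kernel⟩

def k79_pm_102_s : ∃ t, chk3 f_pm_102_s t 27 80 1 = true :=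
  ⟨(c (a (a (b (a (b (b (l 16754872) (l 16754064)) (l 16752704)) (b (l 16752448) (l 16750568))) (a (l 16749800) (l 16748904))) (b (a (l 16749336) (l 16747096)) (a (b (l 16746368) (l 16744304)) (b (l 16744072) (l 16741976))))) (b (a (a (b (l 16745808) (l 16743800)) (b (c (l 16744040) (l 16742920)) (c (l 16742008) (l 16740856)))) (a (b (c (l 16741680) (l 16740536)) (c (l 16739616) (l 16738440))) (b (c (l 16739280) (l 16738104)) (c (l 16737176) (l 16735976))))) (a (a (b (l 16741736) (l 16739592)) (a (b (l 16739944) (l 16737776)) (b (l 16738736) (l 16736552)))) (b (a (c (l 16737488) (l 16736288)) (c (l 16735016) (l 16733792))) (a (c (l 16735272) (l 16734080)) (b (c (a (l 16733968) (l 16732712)) (l 16732128)) (a (l 16732240) (a (b (l 16731576) (l 16731024)) (b (l 16730976) (l 16730480)))))))))) (a (a (b (b (a (b (l 16752984) (l 16752064)) (l 16750384)) (l 16749480)) (a (l 16747512) (l 16745232))) (b (a (l 16747112) (c (l 16745400) (l 16744160))) (a (l 16742904) (b (l 16741608) (l 16739448))))) (b (b (a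 (a (c (l 16744096) (l 16742848)) (c (l 16741720) (l 16740424))) (c (a (l 16739296) (l 16736824)) (a (l 16737960) (l 16735448)))) (a (a (l 16741360) (c (l 16739600) (l 16738240))) (c (a (l 16737152) (l 16734656)) (a (l 16735752) (l 16733224))))) (b (a (a (l 16739200) (c (l 16737440) (l 16736032))) (c (a (l 16734968) (l 16732448)) (a (l 16733520) (l 16730968)))) (a (a (l 16737016) (c (l 16735240) (l 16733792))) (a (c (l 16732736) (l 16731256)) (b (c (l 16730768) (l 16729264)) (c (a (l 16730264) (b (l 16729288) (l 16728744))) (a (l 16728760) (c (l 16727888) (l 16727088))))))))))), by decide +kernel⟩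

def k80_pm_102_s : ∃ t, chk3 f_pm_102_s t 54 81 1 = true :=
  ⟨(b (a (c (a (l 16745696) (l 16743392)) (a (l 16743280) (l 16740936))) (c (a (b (l 16742168) (l 16739912)) (b (l 16739792) (l 16737496))) (a (l 16738544) (c (l 16736792) (l 16735376))))) (a (c (a (l 16741096) (l 16738704)) (a (l 16738768) (l 16736352))) (b (c (l 16738928) (a (l 16735104) (l 16732616))) (a (c (l 16734992) (l 16732680)) (c (b (l 16733192) (l 16732016)) (b (l 16730816) (a (l 16730232) (l 16729088)))))))), by decide +kernel⟩

def k81_pm_102_s : ∃ t, chk3 f_pm_102_s t 55 81 1 = true :=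
  ⟨(b (a (b (c (a (l 16737368) (c (l 16735456) (l 16734296))) (a (l 16734776) (c (l 16732984) (l 16731512)))) (a (c (l 16735024) (l 16732472)) (c (b (c (l 16733672) (l 16732544)) (a (l 16732544) (c (l 16731896) (l 16730776)))) (b (c (l 16731240) (l 16729776)) (a (l 16729984) (c (l 16729480) (l 16727992))))))) (b (a (c (b (c (l 16733544) (l 16732368)) (a (l 16732424) (a (a (l 16731640) (l 16731344)) (l 16730928)))) (b (c (l 16731032) (l 16729536)) (c (a (l 16730504) (l 16729272)) (a (l 16729016) (c (l 16728152) (l 16727360)))))) (c (a (b (b (a (l 16731680) (l 16731080)) (l 16730856)) (l 16730128)) (l 16729536)) (b (a (c (l 16734392) (c (l 16728024) (l 16727224))) (l 16727224)) (l 16726776)))) (c (a (a (b (b (l 16731560) (l 16731024)) (l 16730296)) (l 16729728)) (c (l 16728744) (l 16727472))) (a (b (a (c (l 16729376) (c (l 16728272) (l 16727480))) (l 16727480)) (l 16727032)) (c (l 16726016) (l 16724384)))))) (a (b (b (a (c (l 16733200) (c (l 16731400) (l 16729968))) (c (a (l 16731408) (l 16730360))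 (a (c (l 16729560) (l 16728096)) (l 16727712)))) (a (c (l 16737272) (a (l 16730136) (l 16728936))) (c (l 16729896) (l 16727248)))) (c (a (b (l 16730952) (l 16729968)) (l 16728408)) (a (c (l 16728648) (l 16727184)) (c (l 16726448) (l 16724888))))) (c (b (a (c (l 16728880) (l 16727664)) (c (l 16726784) (l 16725472))) (a (c (l 16726896) (l 16725648)) (c (l 16724776) (l 16723440)))) (b (c (a (l 16726256) (l 16723968)) (a (l 16724648) (l 16722264))) (c (a (l 16724200) (l 16721896)) (a (l 16722536) (l 16720136))))))), by decide +kernel⟩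

def k82_pm_102_s : ∃ t, chk3 f_pm_102_s t 12 82 1 = true :=
  ⟨(a (b (b (a (a (c (l 16772040) (l 16771080)) (l 16770448)) (a (l 16768960) (l 16767200))) (a (a (l 16771416) (l 16770008)) (a (l 16768320) (l 16766376)))) (a (b (a (l 16770840) (l 16769256)) (a (l 16769936) (l 16768192))) (a (b (l 16767400) (l 16766136)) (b (l 16765248) (c (l 16764584) (l 16762720)))))) (b (a (a (a (l 16765264) (l 16764152)) (b (l 16762912) (a (l 16762336) (l 16760896)))) (a (b (a (l 16761008) (l 16759488)) (l 16758384)) (b (l 16756856) (l 16754656)))) (a (b (a (c (l 16763728) (l 16761744)) (l 16759656)) (a (l 16760648) (l 16757200))) (a (b (l 16756088) (l 16753440)) (b (l 16752216) (l 16749416)))))), by decide +kernel⟩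

def k83_pm_102_s : ∃ t, chk3 f_pm_102_s t 26 82 1 = true :=
  ⟨(b (b (a (a (l 16752984) (c (l 16749848) (l 16747720))) (a (c (l 16745464) (l 16743336)) (c (l 16740856) (l 16738728)))) (a (a (l 16750656) (c (l 16747312) (l 16745352))) (a (c (l 16742800) (l 16740872)) (c (l 16738064) (l 16736176))))) (a (c (a (b (l 16748880) (l 16745736)) (b (l 16744456) (l 16741168))) (a (b (l 16747120) (l 16744376)) (b (l 16742776) (l 16739920)))) (b (a (c (l 16739808) (l 16738208)) (c (a (l 16736216) (l 16739248)) (a (l 16734664) (b (l 16732976) (l 16731752))))) (a (c (b (l 16737336) (l 16735728)) (b (l 16736056) (l 16734640))) (c (a (l 16733408) (l 16731592)) (a (l 16732112) (l 16730112))))))), by decide +kernel⟩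

def k84_pm_102_s : ∃ t, chk3 f_pm_102_s t 27 82 1 = true :=
  ⟨(a (b (a (a (b (l 16736296) (c (l 16734480) (b (l 16733200) (l 16731936)))) (b (c (l 16734816) (l 16732680)) (b (a (l 16732496) (l 16731416)) (l 16730880)))) (b (a (c (b (l 16733088) (l 16731928)) (b (l 16730864) (l 16729736))) (c (l 16730464) (l 16728080))) (c (c (l 16729792) (l 16728888)) (c (l 16727736) (l 16726352))))) (a (b (c (a (l 16732008) (l 16730128)) (a (l 16730248) (l 16728168))) (c (l 16728800) (l 16727024))) (c (b (c (l 16727584) (l 16726720)) (c (l 16725208) (l 16724432))) (b (a (l 16726024) (l 16723824)) (a (l 16723808) (l 16721592)))))) (b (a (a (c (b (l 16728448) (l 16726336)) (b (l 16725864) (l 16723752))) (c (b (c (l 16726928) (l 16725768)) (c (l 16724776) (l 16723640))) (b (c (l 16724376) (l 16722768)) (c (l 16722256) (l 16720624))))) (c (b (a (c (l 16724840) (l 16723584)) (c (l 16722696) (l 16721352))) (a (c (l 16722664) (l 16721440)) (c (l 16720496) (l 16719184)))) (b (c (a (l 16722112) (c (l 16720200) (l 16719360)))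 (a (l 16720400) (l 16717992))) (a (c (l 16719968) (l 16718240)) (b (l 16717304) (l 16716208)))))) (a (a (c (b (l 16724112) (c (l 16722160) (l 16721256))) (b (l 16721576) (l 16719328))) (b (c (c (l 16722496) (l 16721416)) (c (l 16720064) (l 16718432))) (c (c (l 16720056) (l 16719064)) (c (l 16717768) (l 16716176))))) (c (b (c (a (l 16720360) (l 16718168)) (a (l 16719200) (l 16716928))) (a (b (l 16718032) (l 16716776)) (b (l 16715784) (l 16714512)))) (b (c (a (l 16717752) (l 16715400)) (a (l 16716040) (l 16713600))) (c (a (l 16715448) (l 16713072)) (a (l 16713768) (l 16711312)))))))), by decide +kernel⟩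

def k85_pm_102_s : ∃ t, chk3 f_pm_102_s t 12 166 1 = true :=
  ⟨(a (b (a (a (l 16768712) (c (l 16767448) (l 16765896))) (a (c (l 16765048) (l 16763408)) (l 16761280))) (a (a (b (l 16767472) (l 16766160)) (a (l 16775440) (l 16763544))) (a (l 16761264) (l 16757952)))) (a (b (a (l 16757904) (l 16754240)) (a (c (l 16754560) (l 16753912)) (c (l 16750552) (l 16750128)))) (b (a (l 16750304) (l 16746128)) (a (c (l 16746304) (l 16746096)) (b (l 16743200) (l 16740840)))))), by decide +kernel⟩

def k86_pm_102_s : ∃ t, chk3 f_pm_102_s t 12 167 1 = true :=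
  ⟨(b (a (c (a (b (l 16762880) (a (l 16760640) (l 16778376))) (b (l 16756208) (a (l 16774832) (l 16771008)))) (b (a (l 16762416) (l 16756160)) (a (a (l 16761112) (l 16758120)) (a (l 16754832) (l 16751272))))) (a (a (b (l 16750712) (b (l 16748184) (l 16745808))) (b (l 16746656) (b (l 16744040) (c (a (l 16741440) (l 16739552)) (l 16742656))))) (a (c (b (l 16741808) (b (l 16739104) (l 16737376))) (b (l 16742640) (b (l 16740600) (l 16739336)))) (b (b (l 16738984) (l 16737872)) (b (l 16736872) (l 16735720)))))) (b (b (b (a (a (a (l 16757816) (l 16754600)) (a (l 16751088) (l 16747312))) (a (a (c (l 16752248) (l 16744480)) (c (l 16738480) (l 16741152))) (c (l 16755680) (l 16736912)))) (b (a (a (l 16748992) (a (l 16749016) (l 16745200))) (a (a (c (c (l 16738672) (l 16740784)) (l 16743104)) (l 16760040)) (a (l 16736512) (l 16733672)))) (b (b (a (a (l 16752720) (a (l 16747472) (l 16743664))) (a (c (l 16748152) (l 16762136)) (c (l 16753792) (l 16735680)))) (a (a (a (l 16753160) (l 16749840)) (a (l 16741000)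 (a (l 16738136) (c (c (l 16737904) (l 16751040)) (c (l 16753184) (l 16754848)))))) (a (c (c (l 16735536) (l 16748456)) (a (l 16762816) (l 16739416))) (a (c (l 16743832) (l 16736680)) (c (l 16741144) (l 16733672)))))) (a (a (l 16751144) (a (l 16745840) (l 16742184))) (a (l 16749360) (a (l 16735152) (l 16732304))))))) (a (a (l 16751008) (a (l 16745704) (l 16742032))) (a (l 16749184) (a (l 16734952) (l 16732096))))) (a (a (l 16750632) (a (l 16745320) (l 16741632))) (a (l 16750664) (a (l 16734432) (l 16731552)))))), by decide +kernel⟩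

def k87_pm_102_s : ∃ t, chk3 f_pm_102_s t 26 83 1 = true :=
  ⟨(b (a (b (a (c (l 16741976) (l 16741216)) (c (b (l 16738376) (l 16736528)) (b (l 16737568) (l 16736016)))) (b (a (c (l 16738688) (l 16738552)) (c (l 16734856) (l 16734592))) (a (c (l 16736584) (l 16736840)) (l 16733488)))) (b (a (b (a (l 16734832) (l 16732984)) (l 16732680)) (c (l 16730040) (l 16728832))) (c (a (l 16730744) (b (l 16727992) (l 16726416))) (a (l 16730256) (b (l 16727016) (l 16725688)))))) (b (b (a (a (l 16737808) (c (l 16731584) (l 16731872))) (a (c (l 16728208) (l 16728160)) (c (l 16724584) (l 16724192)))) (b (a (a (l 16733832) (l 16730520)) (a (l 16726952) (c (l 16722928) (l 16722912)))) (a (a (l 16732656) (c (l 16728600) (l 16729600))) (a (c (l 16725160) (l 16725848)) (c (l 16721472) (l 16721840)))))) (b (b (b (a (a (l 16731488) (l 16728128)) (a (c (l 16723712) (l 16724832)) (c (l 16720000) (l 16720808)))) (b (a (a (l 16730560) (c (l 16726032) (l 16727840))) (a (c (l 16722544) (l 16724048)) (c (l 16718816) (l 16720024))))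 (b (b (a (a (l 16729904) (l 16726520)) (a (l 16722880) (l 16719000))) (a (a (c (l 16738184) (l 16740880)) (c (l 16729704) (c (l 16726456) (l 16727120)))) (a (c (c (l 16720112) (l 16721704)) (c (l 16722752) (l 16723248))) (c (c (l 16716448) (l 16717912)) (c (l 16718800) (l 16729616)))))) (a (a (l 16729184) (l 16725808)) (a (l 16722184) (l 16718312)))))) (a (a (l 16728976) (l 16725584)) (a (l 16721952) (l 16718072)))) (a (a (l 16728400) (l 16724992)) (a (l 16721336) (l 16717432)))))), by decide +kernel⟩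

def k88_pm_102_s : ∃ t, chk3 f_pm_102_s t 27 166 1 = true :=
  ⟨(a (b (b (a (c (l 16726968) (l 16725320)) (c (l 16722984) (l 16720968))) (a (c (l 16725632) (l 16724120)) (c (l 16721624) (l 16719752)))) (a (c (b (l 16724192) (l 16722584)) (b (l 16722856) (l 16721504))) (c (b (l 16720144) (l 16718504)) (b (l 16718464) (l 16717088))))) (b (b (a (c (c (l 16719152) (l 16718304)) (a (l 16717568) (l 16715240))) (c (c (a (l 16715896) (l 16713656)) (a (l 16714936) (l 16712624))) (a (l 16712856) (l 16710432)))) (a (a (b (l 16717904) (l 16717240)) (c (l 16716280) (l 16713992))) (a (c (l 16714048) (l 16711608)) (c (l 16711760) (l 16709176))))) (a (a (c (b (l 16716960) (l 16715296)) (b (l 16715040) (l 16713640))) (c (b (l 16714768) (l 16713088)) (b (l 16712688) (l 16711288)))) (a (c (b (l 16712520) (l 16710824)) (b (l 16710296) (l 16708888))) (c (b (l 16710216) (l 16708520)) (b (l 16707856) (l 16706440))))))), by decide +kernel⟩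

def k89_pm_102_s : ∃ t, chk3 f_pm_102_s t 27 167 1 = true :=
  ⟨(b (a (c (b (a (l 16720704) (l 16716592)) (b (a (l 16719024) (l 16714880)) (a (l 16717544) (l 16713384)))) (b (a (l 16719984) (a (l 16716680) (l 16714408))) (b (a (l 16718680) (l 16714232)) (a (l 16717600) (l 16713136))))) (c (b (a (a (l 16713360) (l 16711136)) (c (l 16707824) (l 16707472))) (b (a (l 16710520) (l 16705952)) (a (a (l 16710112) (l 16707872)) (c (l 16704280) (l 16704416))))) (b (a (a (l 16712088) (l 16709720)) (b (l 16706520) (l 16705680))) (b (a (l 16709576) (a (l 16705968) (l 16703512))) (a (a (l 16709656) (l 16707280)) (a (l 16704856) (l 16702400))))))) (b (b (b (a (a (c (l 16716056) (l 16716560)) (c (l 16711872) (l 16712080))) (a (c (l 16707480) (l 16707416)) (c (l 16702880) (c (l 16702864) (l 16702144))))) (b (a (a (c (l 16714856) (l 16715760)) (c (l 16710664) (l 16711280))) (a (c (l 16706264) (a (l 16707800) (l 16705416))) (c (l 16701664) (a (l 16703000) (l 16700536))))) (b (b (a (a (c (l 16714008) (l 16715216)) (c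 (l 16709808) (l 16710736))) (a (c (l 16705400) (l 16706064)) (c (l 16700800) (l 16701224)))) (b (b (b (a (a (l 16714600) (l 16710272)) (a (l 16705744) (l 16701032))) (a (a (c (l 16713280) (l 16720016)) (b (l 16710168) (a (l 16711080) (l 16708872)))) (b (a (l 16705640) (l 16700928)) (a (a (l 16706608) (l 16704304)) (c (l 16700080) (a (l 16702016) (l 16699560))))))) (a (a (l 16714256) (l 16709944)) (a (l 16705424) (l 16700720)))) (a (a (l 16714248) (l 16709928)) (a (l 16705416) (l 16700712))))) (a (a (l 16714216) (l 16709896)) (a (l 16705376) (l 16700672)))))) (a (a (l 16713968) (l 16709640)) (a (l 16705112) (l 16700408)))) (a (a (l 16713312) (l 16708968)) (a (l 16704424) (l 16699696))))), by decide +kernel⟩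

def k90_pm_102_s : ∃ t, chk3 f_pm_102_s t 12 21 1 = true :=
  ⟨(a (a (a (b (l 16750336) (l 16739152)) (b (l 16746072) (l 16735592))) (b (a (b (l 16742952) (l 16738560)) (b (a (l 16740032) (l 16738232)) (l 16734592))) (a (l 16752720) (l 16748736)))) (a (b (a (c (l 16753336) (l 16755992)) (b (l 16747160) (l 16728760))) (a (b (l 16726360) (l 16721472)) (b (l 16723504) (l 16718344)))) (a (b (b (a (l 16732024) (l 16730576)) (l 16725800)) (b (l 16720392) (l 16715080))) (b (b (a (l 16729064) (l 16727480)) (l 16722560)) (b (l 16716960) (l 16711512)))))), by decide +kernel⟩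

def k91_pm_102_s : ∃ t, chk3 f_pm_102_s t 13 21 1 = true :=
  ⟨(a (a (b (b (a (c (l 16723760) (l 16725720)) (c (l 16720360) (l 16722024))) (a (l 16719040) (l 16725760))) (a (b (l 16713256) (l 16707632)) (b (l 16709280) (l 16703488)))) (b (c (a (b (l 16716712) (l 16710880)) (b (l 16712824) (l 16706776))) (a (b (l 16718080) (l 16711176)) (b (l 16713912) (l 16706800)))) (b (a (l 16705080) (c (l 16700904) (l 16699904))) (a (l 16699088) (c (l 16695232) (l 16693232)))))) (a (b (a (b (c (l 16708712) (a (l 16710632) (l 16708384))) (c (l 16702440) (l 16702208))) (b (c (a (l 16705480) (l 16703264)) (a (l 16706080) (l 16703736))) (c (a (l 16699056) (l 16696736)) (a (l 16698640) (l 16696200))))) (a (c (b (l 16696368) (l 16690496)) (b (l 16695128) (l 16688264))) (c (b (l 16691624) (l 16685552)) (b (a (l 16691416) (l 16688880)) (a (l 16684408) (l 16681792)))))) (b (a (b (c (a (l 16700992) (l 16698680)) (a (l 16701344) (l 16698904))) (c (a (l 16694368) (l 16691952)) (a (l 16693720) (l 16691200)))) (b (c (b (l 16696864)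 (l 16693376)) (b (l 16697168) (l 16693208))) (c (b (l 16689936) (l 16686552)) (b (l 16689288) (l 16685432))))) (a (b (c (a (l 16687936) (l 16685424)) (a (l 16686320) (l 16683712))) (c (a (l 16681720) (l 16679112)) (a (l 16679136) (l 16676440)))) (b (c (a (l 16682864) (l 16680264)) (a (l 16681072) (l 16678400))) (c (a (l 16676456) (l 16673760)) (a (l 16673712) (l 16670952)))))))), by decide +kernel⟩

def k92_pm_102_s : ∃ t, chk3 f_pm_102_s t 12 11 1 = true :=
  ⟨(a (b (a (b (l 16750048) (l 16721720)) (b (a (l 16723056) (l 16718784)) (l 16712648))) (a (b (l 16715392) (l 16710320)) (b (l 16705392) (l 16699216)))) (a (b (b (a (b (l 16716736) (l 16712112)) (l 16710776)) (a (l 16705568) (l 16701136))) (b (a (l 16697552) (l 16692328)) (l 16687720))) (b (b (c (l 16727296) (l 16725232)) (a (l 16697328) (l 16693448))) (b (a (l 16687920) (l 16683720)) (a (l 16679336) (l 16674584)))))), by decide +kernel⟩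

def k93_pm_102_s : ∃ t, chk3 f_pm_102_s t 13 11 1 = true :=
  ⟨(a (b (b (a (a (b (l 16702184) (l 16696872)) (b (l 16697872) (l 16692432))) (a (b (l 16693296) (l 16687704)) (b (l 16688480) (l 16682720)))) (a (a (l 16689160) (l 16684544)) (a (l 16700600) (b (l 16677152) (l 16671760))))) (a (b (a (l 16679192) (l 16674488)) (a (l 16669816) (l 16664792))) (b (a (l 16669368) (l 16663944)) (a (l 16659456) (l 16653960))))) (b (a (b (a (c (b (l 16684824) (l 16679360)) (b (l 16681624) (l 16675208))) (c (b (l 16679696) (l 16674048)) (b (a (l 16677632) (l 16674920)) (l 16669680)))) (a (b (l 16671768) (l 16666224)) (b (c (l 16668608) (l 16663304)) (c (l 16663376) (l 16657152))))) (b (a (b (c (a (l 16675720) (l 16673016)) (a (l 16672176) (l 16669392))) (c (a (l 16669936) (l 16667136)) (a (l 16665440) (l 16662568)))) (b (c (a (l 16670264) (l 16667472)) (a (l 16666576) (l 16663728))) (c (a (l 16664288) (l 16661400)) (a (l 16659664) (l 16656728))))) (a (b (c (a (l 16664360) (l 16661464)) (l 16662688)) (c (l 16657504)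 (l 16651112))) (b (c (a (l 16658528) (l 16655552)) (a (l 16652968) (l 16649944))) (c (a (l 16652984) (l 16649920)) (a (l 16646496) (l 16643384))))))) (a (b (a (b (l 16660872) (l 16655656)) (b (l 16654960) (l 16649624))) (a (l 16648064) (l 16652368))) (b (a (b (c (l 16652304) (l 16644992)) (c (l 16647280) (l 16639080))) (b (c (l 16646072) (l 16638640)) (c (l 16640896) (l 16632560)))) (a (b (l 16638064) (l 16632888)) (b (c (l 16635904) (l 16626680)) (l 16626192))))))), by decide +kernel⟩

def k94_pm_102_s : ∃ t, chk3 f_pm_102_s t 56 160 1 = true :=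
  ⟨(a (a (c (b (c (l 16736832) (l 16735624)) (c (l 16734696) (l 16733464))) (c (b (l 16734312) (l 16732120)) (b (l 16732904) (l 16730656)))) (b (c (c (l 16734336) (l 16733104)) (l 16731048)) (b (a (l 16731440) (a (l 16730480) (b (l 16730112) (a (l 16729720) (l 16729408))))) (a (c (c (a (l 16732568) (l 16731944)) (l 16731016)) (l 16732184)) (a (b (a (l 16729808) (l 16729496)) (l 16729136)) (l 16732736)))))) (a (a (b (b (l 16731072) (a (l 16735536) (b (l 16729928) (a (l 16729544) (l 16729232))))) (b (a (b (a (l 16729632) (l 16729320)) (l 16728968)) (l 16728640)) (l 16730560))) (b (a (c (b (l 16731424) (l 16730384)) (b (l 16728680) (l 16727592))) (b (b (l 16734976) (l 16729208)) (l 16728464))) (c (l 16728672) (l 16725720)))) (c (b (c (a (l 16730104) (l 16728992)) (l 16728192)) (c (l 16727664) (l 16726232))) (b (c (l 16726728) (l 16725160)) (l 16723864))))), by decide +kernel⟩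

def k95_pm_102_s : ∃ t, chk3 f_pm_102_s t 56 161 1 = true :=
  ⟨(a (b (a (c (a (c (b (l 16733680) (l 16732576)) (l 16731896)) (a (b (l 16732128) (b (l 16731304) (l 16730776))) (b (l 16734120) (l 16730464)))) (b (c (l 16730456) (l 16728960)) (a (l 16731856) (a (a (l 16728432) (l 16728120)) (l 16727664))))) (c (b (a (a (b (l 16731144) (l 16730624)) (l 16730312)) (l 16729488)) (l 16729088)) (b (a (c (l 16728560) (l 16727024)) (l 16726600)) (l 16726168)))) (c (b (a (a (a (b (l 16731456) (l 16730920)) (b (l 16730848) (l 16730368))) (l 16729792)) (l 16728136)) (a (l 16729368) (l 16727168))) (a (b (a (c (b (l 16729144) (l 16728608)) (c (l 16727744) (l 16726944))) (l 16726928)) (l 16726488)) (c (l 16725424) (l 16723752))))) (c (b (a (c (l 16728016) (l 16726608)) (c (l 16725776) (l 16724264))) (a (c (l 16726112) (l 16724640)) (c (l 16723848) (l 16722280)))) (b (a (l 16724248) (l 16721768)) (a (c (l 16723024) (l 16721264)) (c (l 16720576) (l 16718728)))))), by decide +kernel⟩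

def k96_pm_102_s : ∃ t, chk3 f_pm_102_s t 57 80 1 = true :=
  ⟨(b (a (c (a (b (l 16726584) (l 16724640)) (b (l 16724232) (l 16722272))) (a (b (l 16723456) (l 16721352)) (b (l 16720928) (l 16718808)))) (c (a (b (l 16721832) (l 16719856)) (b (l 16719392) (l 16717400))) (a (b (l 16718368) (l 16716240)) (b (l 16715776) (l 16713640))))) (a (c (b (a (l 16725320) (l 16720312)) (a (c (l 16721536) (l 16719880)) (c (l 16719176) (l 16717432)))) (b (a (l 16719240) (l 16716688)) (a (c (l 16718080) (l 16716152)) (c (l 16715552) (l 16713544))))) (c (b (a (l 16717880) (l 16715408)) (a (c (l 16716768) (l 16714952)) (c (l 16714320) (l 16712432)))) (b (a (l 16714112) (l 16711504)) (a (c (l 16713000) (l 16710920)) (c (l 16710416) (l 16708280))))))), by decide +kernel⟩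

def k97_pm_102_s : ∃ t, chk3 f_pm_102_s t 56 81 1 = true :=
  ⟨(b (c (a (b (a (c (l 16728560) (l 16727224)) (c (l 16726384) (l 16724960))) (a (c (l 16726608) (l 16725240)) (c (l 16724416) (l 16722952)))) (b (a (c (l 16724160) (l 16722640)) (c (l 16721872) (l 16720264))) (a (c (l 16722168) (l 16720608)) (c (l 16719864) (l 16718216))))) (a (c (b (a (l 16725736) (l 16723376)) (a (l 16723688) (l 16721312))) (b (a (l 16724080) (l 16719664)) (a (c (l 16722408) (l 16721504)) (c (l 16719968) (l 16719016))))) (b (a (c (l 16720960) (l 16719128)) (c (l 16718496) (l 16716576))) (a (c (l 16718880) (c (l 16717472) (l 16716480))) (b (l 16715968) (l 16712280)))))) (c (a (b (a (c (l 16724632) (l 16723224)) (c (l 16722416) (l 16720920))) (a (c (l 16722600) (l 16721168)) (c (l 16720360) (l 16718848)))) (b (a (c (l 16720144) (l 16718560)) (c (l 16717816) (l 16716152))) (a (c (l 16718064) (l 16716472)) (c (l 16715720) (l 16714048))))) (a (b (c (a (l 16721624) (l 16719232)) (a (c (l 16720296) (l 16719360)) (c (l 16717840)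 (l 16716856)))) (c (a (l 16719536) (l 16717128)) (a (c (l 16718176) (l 16717200)) (c (l 16715704) (l 16714688))))) (c (b (a (l 16716792) (l 16714296)) (a (l 16714672) (l 16712168))) (b (a (c (l 16715336) (l 16714312)) (c (l 16712784) (l 16711720))) (a (c (l 16713184) (l 16712128)) (c (l 16710624) (l 16709528)))))))), by decide +kernel⟩

def k98_pm_102_s : ∃ t, chk3 f_pm_102_s t 57 81 1 = true :=
  ⟨(b (a (c (b (a (c (l 16719536) (l 16717840)) (c (l 16717160) (l 16715376))) (a (c (l 16717512) (l 16715784)) (c (l 16715104) (l 16713304)))) (b (a (c (l 16715992) (l 16713992)) (c (l 16713448) (l 16711376))) (a (c (l 16713888) (l 16711824)) (c (l 16711336) (l 16709200))))) (c (b (a (l 16713824) (l 16711320)) (a (c (l 16712664) (l 16710792)) (l 16709232))) (b (a (c (l 16710888) (l 16708744)) (l 16709832)) (a (c (l 16708760) (l 16706560)) (l 16707672))))) (a (c (b (a (c (l 16715440) (l 16713696)) (c (l 16713016) (l 16711200))) (a (c (l 16713320) (l 16711576)) (c (l 16710880) (l 16709064)))) (b (a (c (l 16711768)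 (c (l 16710200) (l 16709096))) (c (l 16709200) (l 16707016))) (a (c (l 16709624) (c (l 16708024) (l 16706896))) (b (l 16706504) (l 16705416))))) (c (b (a (c (l 16710560) (l 16708672)) (l 16707104)) (a (l 16707488) (l 16704936))) (b (a (c (l 16706616) (l 16704376)) (l 16702880)) (a (c (l 16704448) (l 16702168)) (l 16700688)))))), by decide +kernel⟩

def k99_pm_102_s : ∃ t, chk3 f_pm_102_s t 29 40 1 = true :=
  ⟨(b (a (b (a (c (a (b (l 16716904) (l 16714904)) (b (l 16714376) (l 16712360))) (a (b (l 16713160) (l 16711016)) (b (l 16710520) (l 16708368)))) (c (a (l 16710784) (l 16708168)) (a (l 16706768) (l 16704064)))) (a (c (b (a (l 16712896) (l 16710344)) (a (l 16710864) (l 16708296))) (b (a (l 16708872) (l 16706216)) (a (l 16706728) (l 16704064)))) (a (b (l 16710928) (a (l 16704248) (l 16702912))) (b (l 16703008) (l 16700896))))) (a (b (c (a (l 16705504) (l 16702800)) (a (l 16701336) (l 16698576))) (c (a (l 16701392) (l 16698672)) (a (l 16697008) (l 16694240)))) (b (c (l 16709152) (l 16704864)) (c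 (a (l 16695912) (l 16693112)) (l 16700528))))) (a (b (a (c (a (b (l 16708784) (l 16706680)) (b (l 16706200) (l 16704088))) (a (b (l 16704568) (l 16702400)) (b (l 16701896) (l 16699728)))) (c (a (b (l 16703584) (l 16701456)) (l 16710336)) (a (b (l 16699208) (l 16697032)) (l 16705880)))) (a (c (b (a (l 16704536) (l 16701928)) (a (l 16702352) (l 16699736))) (b (a (l 16700216) (l 16697536)) (a (l 16698016) (l 16695336)))) (c (b (a (l 16699288) (l 16696616)) (l 16700984)) (a (b (l 16694840) (l 16692632)) (l 16696248))))) (a (b (c (a (l 16697160) (l 16694424)) (a (l 16692656) (l 16689888))) (c (a (l 16692784) (l 16690032)) (a (l 16688256) (l 16685488)))) (b (c (a (l 16691648) (l 16688840)) (a (l 16687096) (l 16684280))) (c (a (l 16687248) (l 16684440)) (a (l 16682704) (l 16679888))))))), by decide +kernel⟩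

def k100_pm_102_s : ∃ t, chk3 f_pm_102_s t 15 40 1 = true :=
  ⟨(a (a (b (a (b (c (l 16693016) (l 16688672)) (c (l 16699336) (l 16684352))) (b (c (l 16687208) (l 16682840)) (c (l 16683032) (l 16678544)))) (b (a (c (l 16695048) (l 16680016)) (c (l 16678752) (l 16674232))) (a (c (l 16680160) (l 16675640)) (c (l 16674344) (l 16669888))))) (b (a (b (c (l 16681240) (l 16676840)) (c (l 16677088) (l 16672592))) (b (a (c (l 16676672) (l 16672224)) (l 16671344)) (c (a (l 16672584) (l 16669680)) (l 16666488)))) (a (a (b (l 16672072) (l 16667776)) (b (l 16679592) (l 16664896))) (c (b (l 16667096) (l 16663024)) (b (l 16662328) (l 16658184)))))) (a (b (a (c (b (l 16669096) (l 16665176)) (b (l 16664240) (l 16660144))) (c (b (l 16662688) (l 16658848)) (b (l 16657480) (l 16653456)))) (a (c (b (l 16661224) (l 16657264)) (b (l 16656072) (l 16652008))) (c (b (l 16655000) (l 16651152)) (b (l 16649456) (l 16645472))))) (b (b (a (c (c (l 16657344) (l 16654376)) (l 16650256)) (c (a (l 16650368) (l 16646528)) (l 16642448)))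 (a (c (c (l 16653640) (l 16650584)) (l 16646304)) (c (a (l 16646688) (l 16642888)) (l 16638568)))) (a (c (b (l 16653592) (l 16644600)) (b (l 16642376) (l 16638480))) (c (b (a (l 16643008) (l 16639264)) (a (l 16639344) (l 16635648))) (b (l 16634720) (l 16630896))))))), by decide +kernel⟩

def k101_pm_102_s : ∃ t, chk3 f_pm_102_s t 56 82 1 = true :=
  ⟨(b (c (a (b (a (c (l 16720496) (l 16719064)) (c (l 16718240) (l 16716728))) (a (c (l 16718272) (l 16716880)) (c (l 16715992) (l 16714520)))) (b (a (c (l 16715920) (l 16714336)) (c (l 16713552) (l 16711888))) (a (c (l 16713656) (l 16712112)) (c (l 16711264) (l 16709656))))) (a (b (c (a (b (l 16717952) (l 16716880)) (b (l 16715536) (l 16714456))) (a (l 16715536) (b (l 16713576) (l 16712480)))) (c (a (c (l 16715672) (l 16714792)) (b (l 16713360) (l 16712248))) (a (l 16713344) (l 16710824)))) (b (c (a (b (l 16713064) (l 16711976)) (b (l 16710552) (l 16709456))) (a (b (l 16711032) (l 16709928)) (b (l 16708440) (l 16707336)))) (c (a (b (l 16710880) (l 16709760))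 (b (l 16708352) (l 16707224))) (a (b (l 16708824) (l 16707712)) (b (l 16706224) (l 16705104))))))) (c (a (b (a (b (l 16715896) (l 16714704)) (b (l 16713560) (l 16712360))) (c (a (l 16716024) (b (l 16711744) (l 16710416))) (a (b (l 16712816) (l 16711568)) (b (l 16710424) (l 16709168))))) (b (a (b (l 16711168) (l 16709960)) (b (l 16708736) (l 16707512))) (c (b (l 16708160) (a (l 16708032) (l 16705592))) (a (b (l 16707984) (l 16706712)) (b (l 16705496) (l 16704216)))))) (a (b (a (b (l 16712656) (l 16711528)) (c (b (l 16711120) (l 16709976)) (l 16708584))) (a (c (l 16710656) (l 16708808)) (b (l 16707864) (l 16706680)))) (b (c (a (b (l 16708624) (l 16707472)) (b (l 16706088) (l 16704920))) (a (l 16706008) (l 16703400))) (a (b (l 16705320) (l 16704128)) (b (l 16702736) (l 16701536))))))), by decide +kernel⟩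

def k102_pm_102_s : ∃ t, chk3 f_pm_102_s t 57 82 1 = true :=
  ⟨(b (a (c (b (a (c (l 16711136) (l 16709400)) (c (l 16708672) (l 16706872))) (a (c (l 16708824) (l 16707144)) (c (l 16706344) (l 16704608)))) (b (c (a (l 16707440) (l 16704856)) (a (b (l 16705816) (l 16704704)) (b (l 16703168) (l 16702048)))) (c (a (c (l 16705720) (l 16704688)) (b (l 16703184) (l 16702048))) (a (c (l 16703592) (l 16702440)) (b (l 16700928) (l 16699800)))))) (c (b (a (c (l 16706168) (l 16704320)) (l 16702704)) (a (c (l 16703824) (l 16702032)) (l 16700376))) (b (c (a (l 16702240) (l 16699608)) (a (b (l 16700504) (l 16699384)) (l 16697272))) (c (a (l 16699992) (l 16697352)) (a (b (l 16698264) (l 16697128)) (l 16695016)))))) (c (a (a (b (b (l 16706248) (l 16705024)) (b (l 16703752) (l 16705056))) (b (c (l 16703888) (l 16707480)) (b (l 16701208) (l 16699880)))) (b (c (a (l 16701344) (l 16698768)) (a (l 16699656) (l 16697040))) (c (a (l 16698696) (l 16696104)) (a (l 16697136) (l 16694512))))) (a (b (c (a (b (l 16703504) (l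 16702336)) (b (l 16700896) (l 16699720))) (a (l 16700744) (l 16698080))) (a (b (l 16700112) (l 16698904)) (b (l 16697464) (l 16696256)))) (b (c (a (l 16702912) (l 16695024)) (a (l 16695408) (l 16692720))) (c (a (l 16695256) (l 16692600)) (a (l 16693048) (l 16690352))))))), by decide +kernel⟩

def k103_pm_102_s : ∃ t, chk3 f_pm_102_s t 29 82 1 = true :=
  ⟨(a (b (a (a (c (b (l 16700112) (l 16697768)) (b (c (l 16696952) (l 16694584)) (c (l 16694688) (l 16692320)))) (c (b (l 16697480) (l 16695120)) (b (l 16693104) (l 16690840)))) (c (b (a (l 16694816) (l 16692120)) (a (l 16692448) (l 16689744))) (b (a (l 16690392) (l 16687664)) (a (l 16688128) (l 16685392))))) (c (a (a (b (l 16695312) (l 16692712)) (b (l 16692656) (l 16690040))) (b (a (l 16689976) (l 16687256)) (a (l 16687344) (l 16684624)))) (a (a (b (c (l 16692352) (l 16690016)) (c (l 16689920) (l 16687656))) (b (l 16688520) (l 16686120))) (b (a (l 16685800) (l 16683072)) (a (l 16683408) (l 16680680)))))) (b (a (c (b (l 16688016) (l 16685632)) (b (a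 (l 16684920) (l 16682152)) (a (l 16682648) (l 16679880)))) (c (b (l 16682440) (l 16680048)) (b (l 16677960) (l 16675696)))) (a (c (b (l 16683136) (l 16680496)) (b (l 16684184) (l 16676552))) (c (b (l 16677552) (l 16674912)) (b (l 16673392) (l 16671016)))))), by decide +kernel⟩

def k104_pm_102_s : ∃ t, chk3 f_pm_102_s t 28 166 1 = true :=
  ⟨(a (b (a (a (c (b (c (l 16711360) (l 16710264)) (l 16709416)) (b (l 16707960) (l 16706696))) (c (b (c (l 16709016) (l 16707848)) (l 16707032)) (b (l 16705448) (l 16704176)))) (a (c (b (c (l 16706616) (l 16705392)) (l 16704592)) (b (l 16702896) (l 16701616))) (c (b (c (l 16704168) (l 16702888)) (l 16702104)) (b (l 16700296) (l 16699016))))) (c (a (b (c (l 16707064) (l 16706184)) (c (l 16705256) (l 16704552))) (b (c (l 16702224) (l 16701232)) (c (l 16700392) (l 16699584)))) (a (a (b (l 16705368) (l 16703944)) (b (l 16702840) (a (l 16702048) (l 16700776)))) (a (b (l 16700272) (c (l 16699616) (l 16697952))) (b (l 16697664) (c (l 16697032) (l 16695312))))))) (b (c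 (a (a (b (l 16701048) (l 16699576)) (b (l 16698488) (l 16697008))) (b (a (l 16695896) (l 16693280)) (a (l 16694408) (l 16691784)))) (a (a (b (l 16697664) (l 16696376)) (b (l 16695008) (l 16693720))) (b (a (l 16692336) (l 16689656)) (a (l 16691048) (l 16688360))))) (c (a (b (a (l 16697992) (l 16695416)) (c (l 16695344) (l 16694448))) (b (l 16691496) (c (l 16690152) (l 16689192)))) (a (a (b (l 16695024) (c (l 16694416) (l 16692640))) (b (l 16692368) (c (l 16691776) (l 16689960)))) (a (b (l 16689696) (a (l 16688920) (l 16687576))) (b (l 16687008) (l 16685568))))))), by decide +kernel⟩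

def k105_pm_102_s : ∃ t, chk3 f_pm_102_s t 29 166 1 = true :=
  ⟨(a (b (a (a (b (l 16688976) (a (l 16688264) (l 16686920))) (b (l 16686288) (l 16684896))) (c (l 16693616) (a (l 16680896) (l 16678168)))) (a (c (b (l 16686176) (l 16684400)) (a (b (l 16684312) (l 16682872)) (b (l 16681616) (l 16680168)))) (c (b (l 16680768) (l 16678992)) (b (l 16677536) (l 16676104))))) (b (a (c (l 16677632) (a (l 16675424) (l 16672680))) (c (l 16672056) (l 16668536))) (a (c (l 16684848) (b (l 16672080) (l 16670656))) (c (l 16668808) (b (l 16666584) (l 16665184)))))), by decide +kernel⟩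

def k106_pm_102_s : ∃ t, chk3 f_pm_102_s t 14 334 1 = true :=
  ⟨(b (a (a (b (a (c (l 16703520) (c (l 16702200) (l 16700744))) (c (l 16698592) (a (l 16697680) (l 16695064)))) (a (c (l 16702432) (c (l 16701296) (l 16699944))) (c (l 16697488) (a (l 16696832) (l 16694216))))) (a (c (c (l 16693184) (l 16695168)) (a (b (l 16692416) (l 16691568)) (b (l 16689760) (l 16688904)))) (c (c (l 16687976) (l 16687280)) (a (b (l 16687080) (l 16686232)) (b (l 16684400) (l 16683552)))))) (a (a (c (c (l 16682656) (l 16681944)) (c (l 16680728) (a (l 16680368) (l 16677664)))) (c (l 16676952) (c (l 16675328) (l 16673616)))) (a (a (l 16671912) (l 16669176)) (c (l 16665952) (l 16663672))))) (b (a (a (a (c (l 16701184) (a (l 16701008) (l 16698464))) (c (l 16696240) (a (l 16695888) (l 16693272)))) (a (c (l 16691128) (a (l 16690632) (l 16687968))) (c (l 16685888) (a (l 16685296) (l 16682624))))) (a (a (c (l 16680560) (c (l 16679288) (l 16677768))) (c (l 16675168) (l 16673216))) (a (c (l 16669712) (l 16667816)) (c (l 16664216)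 (l 16662408))))) (a (a (a (a (b (l 16701032) (l 16700296)) (b (l 16698544) (a (l 16698432) (l 16697184)))) (c (c (l 16694640) (l 16694592)) (a (c (l 16695272) (l 16694144)) (b (l 16692488) (l 16691872))))) (a (c (c (l 16689560) (l 16689448)) (a (b (l 16689840) (l 16689232)) (b (l 16687184) (l 16686576)))) (c (c (l 16684352) (l 16684192)) (a (b (l 16684520) (l 16683912)) (b (l 16681848) (l 16681240)))))) (a (a (c (l 16684264) (c (l 16678112) (a (l 16678120) (l 16675440)))) (c (l 16673640) (a (l 16673496) (l 16670808)))) (a (a (l 16669136) (l 16666432)) (a (l 16663720) (l 16661024))))))), by decide +kernel⟩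

def k107_pm_102_s : ∃ t, chk3 f_pm_102_s t 28 335 2 = true :=
  ⟨(b (b (b (a (a (l 16698096) (c (l 16692952) (l 16693184))) (a (c (l 16687872) (l 16688040)) (l 16688048))) (b (a (a (l 16696880) (c (l 16691600) (l 16692088))) (a (c (l 16686536) (l 16686952)) (c (l 16681336) (l 16681712)))) (a (b (b (a (l 16696016) (l 16691064)) (b (b (a (b (l 16695648) (a (l 16696536) (l 16694112))) (b (l 16690696) (a (l 16691640) (l 16689136)))) (a (l 16695272) (l 16690336))) (a (l 16695256) (l 16690328)))) (a (l 16695224) (l 16690288))) (b (b (a (l 16685968) (l 16680760)) (b (b (a (b (l 16685600) (a (l 16686592) (l 16684024))) (b (l 16680400) (a (l 16681432) (l 16678816)))) (a (l 16685264) (l 16680080))) (a (l 16685256) (l 16680072)))) (a (l 16685216) (l 16680032)))))) (a (a (l 16694968) (l 16690024)) (a (l 16684944) (l 16679752)))) (a (a (l 16694280) (l 16689320)) (a (l 16684224) (l 16679016)))), by decide +kernel⟩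

def k108_pm_102_s : ∃ t, chk3 f_pm_102_s t 56 670 3 = true :=
  ⟨(b (b (b (a (l 16697800) (c (l 16693080) (l 16692072))) (a (l 16697368) (c (l 16692600) (l 16691688)))) (b (b (a (l 16696976) (c (l 16692160) (l 16691344))) (a (c (l 16696856) (l 16696232)) (a (l 16692776) (l 16690176)))) (a (b (b (c (l 16696416) (l 16695888)) (b (b (b (l 16696008) (b (l 16695928) (a (l 16697064) (l 16694536)))) (l 16695784)) (l 16695768))) (l 16695728)) (a (b (b (l 16692392) (b (b (b (l 16692168) (b (l 16692088) (c (l 16692136) (l 16691648)))) (l 16691952)) (l 16691936))) (l 16691896)) (b (b (l 16689792) (b (b (b (l 16689568) (b (l 16689496) (b (l 16689432) (l 16689368)))) (l 16689360)) (l 16689344))) (l 16689304)))))) (a (l 16695440) (l 16690312))), by decide +kernel⟩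

def k109_pm_102_s : ∃ t, chk3 f_pm_102_s t 57 670 6 = true :=
  ⟨(b (b (a (a (l 16688912) (l 16686280)) (l 16687552)) (a (b (a (l 16688032) (l 16685408)) (b (b (l 16686128) (b (b (b (l 16685872) (b (l 16685792) (a (l 16686960) (l 16684344)))) (l 16685640)) (l 16685624))) (l 16685584))) (b (c (l 16681576) (l 16686520)) (b (b (l 16680856) (b (b (b (l 16680616) (b (l 16680528) (a (l 16681720) (l 16679088)))) (l 16680392)) (l 16680376))) (l 16680336))))) (a (l 16685296) (l 16680040))), by decide +kernel⟩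

def k110_pm_102_s : ∃ t, chk3 f_pm_102_s t 57 670 7 = true :=
  ⟨(b (a (c (b (a (l 16688200) (l 16685536)) (b (a (l 16687464) (l 16684808)) (b (b (l 16685648) (b (b (b (l 16685448) (b (l 16685376) (a (l 16686592) (l 16683952)))) (l 16685256)) (l 16685240))) (l 16685200)))) (b (a (l 16687536) (l 16684856)) (a (b (c (l 16687040) (l 16686712)) (b (b (l 16686456) (b (b (b (l 16686280) (b (l 16686224) (a (l 16686800) (l 16685464)))) (l 16686120)) (l 16686104))) (l 16686064))) (c (b (l 16684376) (b (b (l 16683936) (b (b (b (l 16683760) (b (l 16683696) (l 16683608))) (l 16683592)) (l 16683576))) (l 16683536))) (b (l 16684040) (b (b (l 16683632) (b (b (b (l 16683464) (b (l 16683408) (a (l 16683992) (l 16682664)))) (l 16683312)) (l 16683296))) (l 16683256))))))) (c (b (a (l 16682872) (l 16680208)) (b (a (l 16682152) (l 16679496)) (b (b (l 16680344) (b (b (b (l 16680144) (b (l 16680080) (a (l 16681304) (l 16678664)))) (l 16679968)) (l 16679952))) (l 16679912)))) (b (a (l 16682176) (l 16679504)) (a (b (l 16686784)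 (b (b (l 16681128) (b (b (b (l 16680960) (b (l 16680896) (a (l 16681480) (l 16680152)))) (l 16680800)) (l 16680784))) (l 16680744))) (c (b (l 16679040) (b (b (l 16678616) (b (b (b (l 16678448) (b (l 16678384) (l 16678304))) (l 16678288)) (l 16678272))) (l 16678232))) (b (l 16678696) (b (b (l 16678296) (b (b (b (l 16678144) (b (l 16678088) (l 16678008))) (l 16677992)) (l 16677984))) (l 16677936)))))))) (a (l 16684680) (l 16679376))), by decide +kernel⟩

def k111_pm_102_s : ∃ t, chk3 f_pm_102_s t 28 671 3 = true :=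
  ⟨(a (a (l 16694672) (l 16689528)) (a (c (l 16684512) (l 16683872)) (c (l 16679248) (l 16678552)))), by decide +kernel⟩

def k112_pm_102_s : ∃ t, chk3 f_pm_102_s t 58 335 2 = true :=
  ⟨(a (b (b (b (l 16677504) (b (l 16676312) (b (b (l 16675480) (a (c (l 16675768) (a (l 16677128) (l 16675808))) (c (l 16673120) (l 16673824)))) (l 16674776)))) (l 16674488)) (l 16673736)) (b (b (b (l 16672144) (b (l 16670976) (b (b (l 16670160) (c (l 16679624) (c (l 16669744) (l 16680408)))) (l 16669480)))) (l 16669184)) (l 16668416))), by decide +kernel⟩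

def k113_pm_102_s : ∃ t, chk3 f_pm_102_s t 58 670 6 = true :=
  ⟨(b (b (a (l 16676984) (l 16671640)) (b (a (l 16676136) (l 16670824)) (b (b (a (l 16675568) (l 16670264)) (b (b (b (a (l 16675328) (l 16670040)) (a (a (l 16676472) (l 16673832)) (c (l 16669928) (l 16669768)))) (a (l 16675120) (l 16669840))) (a (l 16675104) (l 16669824)))) (a (l 16675064) (l 16669784))))) (a (l 16674760) (l 16669480))), by decide +kernel⟩

def k114_pm_102_s : ∃ t, chk3 f_pm_102_s t 116 1340 7 = true :=
  ⟨(c (b (l 16676200) (b (a (l 16676832) (l 16674176)) (b (b (l 16675040) (b (b (b (l 16674856) (a (a (l 16676688) (l 16675368)) (l 16673392))) (l 16674680)) (l 16674672))) (l 16674624)))) (b (a (l 16676824) (l 16674160)) (a (c (b (l 16676384) (b (b (l 16675968) (b (b (b (l 16675792) (b (l 16675736) (l 16675656))) (l 16675640)) (l 16675624))) (l 16675584))) (b (l 16676032) (a (b (b (l 16676304) (b (b (b (l 16676152) (b (l 16676096) (l 16676024))) (l 16676008)) (l 16675992))) (l 16675952)) (b (b (l 16674984) (b (b (b (l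 16674824) (b (l 16674776) (l 16674704))) (l 16674688)) (l 16674672))) (l 16674632))))) (c (b (l 16673720) (b (b (l 16673312) (b (b (b (l 16673152) (a (l 16673688) (l 16672368))) (l 16673000)) (l 16672984))) (l 16672944))) (b (l 16673368) (a (b (b (l 16673656) (b (b (b (l 16673504) (b (l 16673456) (l 16673384))) (l 16673368)) (l 16673352))) (l 16673304)) (b (b (l 16672336) (b (b (b (l 16672184) (l 16674696)) (l 16672048)) (l 16672032))) (l 16671992)))))))), by decide +kernel⟩

def k115_pm_102_s : ∃ t, chk3 f_pm_102_s t 117 1340 7 = true :=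
  ⟨(c (b (l 16670872) (b (l 16670192) (b (b (l 16669752) (b (b (b (l 16669576) (a (l 16670752) (l 16668120))) (l 16669408)) (l 16669400))) (l 16669352)))) (b (l 16670160) (a (c (b (l 16671072) (a (b (b (l 16671336) (b (b (b (l 16671168) (l 16671048)) (l 16671024)) (l 16671008))) (l 16670968)) (b (b (l 16670008) (b (b (b (l 16669856) (l 16669736)) (l 16669712)) (l 16669696))) (l 16669648)))) (b (l 16670720) (a (b (b (l 16671008) (b (b (b (l 16670864) (l 16670752)) (l 16670728)) (l 16670720))) (l 16670672)) (b (b (l 16669696) (b (b (b (l 16669552) (l 16669440)) (l 16669416)) (l 16669400))) (l 16669360))))) (b (l 16668248) (b (b (l 16667880) (b (b (b (l 16667736) (l 16667624)) (l 16667600)) (l 16667584))) (l 16667544)))))), by decide +kernel⟩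

def k116_pm_102_s : ∃ t, chk3 f_pm_102_s t 58 1341 7 = true :=
  ⟨(a (l 16674080) (l 16668808)), by decide +kernel⟩

def k117_pm_102_s : ∃ t, chk3 f_pm_102_s t 58 671 3 = true :=
  ⟨(a (l 16673688) (l 16668400)), by decide +kernel⟩

def k118_pm_102_s : ∃ t, chk3 f_pm_102_s t 59 335 1 = true :=
  ⟨(c (b (b (b (a (l 16666736) (l 16661400)) (b (a (l 16665600) (a (l 16661552) (l 16659072))) (b (b (a (l 16664808) (a (l 16660784) (l 16658464))) (a (c (l 16663792) (l 16664544)) (a (c (l 16659792) (l 16660568)) (c (l 16657672) (l 16658344))))) (a (l 16664152) (a (l 16660160) (l 16658088)))))) (a (l 16663856) (a (l 16659864) (l 16657792)))) (a (l 16663072) (a (l 16659064) (l 16656984)))) (b (b (b (a (l 16665832) (a (l 16661832) (l 16659216))) (b (a (c (l 16665496) (l 16664616)) (a (l 16661168) (a (l 16659216) (l 16658032)))) (b (b (a (l 16664680) (a (l 16660736) (l 16658288))) (a (a (b (b (b (l 16665816) (l 16665680)) (l 16665648)) (l 16665640)) (c (l 16663280) (c (l 16662880) (l 16662392)))) (a (a (l 16661088)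 (a (l 16660104) (c (l 16659664) (l 16659080)))) (a (a (a (c (l 16659200) (c (l 16658816) (l 16663592))) (l 16658736)) (l 16658352)) (l 16657576))))) (a (l 16664280) (a (l 16660352) (l 16658048)))))) (a (l 16663968) (a (l 16660040) (l 16657728)))) (a (l 16663128) (a (l 16659200) (l 16656888))))), by decide +kernel⟩

def k119_pm_102_s : ∃ t, chk3 f_pm_102_s t 15 82 1 = true :=
  ⟨(a (a (b (a (b (l 16674616) (l 16672312)) (c (l 16669768) (b (l 16666592) (l 16664384)))) (b (a (l 16669944) (a (l 16665656) (l 16662832))) (a (l 16667480) (a (l 16663232) (l 16660528))))) (b (a (a (b (l 16664504) (l 16662344)) (l 16660712)) (c (l 16658896) (l 16654040))) (a (c (l 16659808) (l 16655536)) (c (l 16654656) (l 16649880))))) (a (a (b (c (l 16653264) (l 16647952)) (c (l 16649176) (l 16643904))) (b (c (l 16647272) (l 16641512)) (c (l 16643328) (l 16637568)))) (a (b (c (c (l 16642440) (l 16639264)) (l 16634608)) (c (a (l 16638656) (l 16635384)) (c (l 16632328) (l 16629208)))) (b (c (a (l 16635672) (l 16632032)) (c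 (l 16628760) (l 16625496))) (c (a (l 16631976) (l 16628400)) (c (l 16625056) (l 16621704))))))), by decide +kernel⟩

def k120_pm_102_s : ∃ t, chk3 f_pm_102_s t 15 166 1 = true :=
  ⟨(a (a (a (b (l 16664864) (a (l 16663384) (b (l 16661400) (l 16659944)))) (b (a (l 16660728) (l 16658240)) (b (l 16657656) (l 16656408)))) (a (b (l 16654464) (c (l 16653912) (l 16650072))) (b (l 16659632) (c (l 16649024) (l 16644600))))) (a (a (b (c (l 16646024) (l 16640856)) (c (l 16643792) (l 16638800))) (b (c (l 16640304) (l 16634616)) (c (l 16638192) (l 16632640)))) (a (c (b (l 16634144) (a (l 16633696) (l 16630536))) (b (l 16627904) (c (l 16627560) (l 16624424)))) (c (b (a (l 16629168) (l 16625648)) (a (l 16627232) (l 16623776))) (b (l 16620592) (c (l 16620456) (l 16617064))))))), by decide +kernel⟩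

def k121_pm_102_s : ∃ t, chk3 f_pm_102_s t 15 334 1 = true :=
  ⟨(b (a (a (a (a (l 16660960) (c (l 16659368) (l 16657032))) (l 16655072)) (a (c (l 16651904) (l 16648344)) (c (l 16647136) (l 16642952)))) (a (a (c (l 16642008) (l 16637232)) (c (l 16636520) (l 16631144))) (a (c (l 16630568) (l 16624576)) (c (a (l 16625736) (l 16622320)) (a (l 16619264) (l 16615504)))))) (b (a (a (a (a (l 16659568) (l 16657312)) (l 16654000)) (a (l 16649296) (l 16644248))) (a (a (l 16638856) (c (l 16635616) (l 16630392))) (a (c (l 16629728) (l 16623872)) (c (l 16623280) (l 16616744))))) (a (a (a (a (a (l 16659080) (l 16658008)) (l 16656440)) (c (l 16654152) (l 16651744))) (a (c (l 16649912) (l 16646784)) (c (l 16645288) (l 16641496)))) (a (a (c (l 16640304) (l 16635872)) (c (l 16634944) (l 16629880))) (a (c (l 16629120) (l 16623400)) (c (a (l 16624384) (l 16621032)) (a (l 16618152) (l 16614432)))))))), by decide +kernel⟩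

def k122_pm_102_s : ∃ t, chk3 f_pm_102_s t 30 335 1 = true :=
  ⟨(a (b (b (b (a (c (l 16657072) (l 16655760)) (c (l 16653288) (l 16651152))) (b (a (c (l 16656400) (l 16655336)) (c (l 16652680) (l 16650776))) (b (b (a (c (l 16655960) (l 16655088)) (c (l 16652296) (l 16650560))) (c (a (l 16655648) (l 16652024)) (a (c (l 16655328) (l 16654344)) (c (l 16651016) (l 16649680))))) (a (l 16655552) (l 16651448))))) (a (l 16655248) (l 16651152))) (a (l 16654432) (l 16650360))) (c (b (b (b (a (l 16649128) (l 16644584)) (b (a (l 16648592) (l 16644104)) (b (b (a (l 16648248) (l 16643808)) (a (l 16648008) (l 16648848))) (a (l 16647976) (l 16643568))))) (a (l 16647696) (l 16643296))) (a (l 16646952) (l 16642568))) (b (b (b (a (l 16646240) (l 16641008)) (b (a (l 16645912) (l 16640720)) (b (b (a (l 16645728) (l 16640568)) (a (a (l 16646840) (l 16644360)) (a (l 16641792) (l 16639136)))) (a (l 16645568) (l 16640432))))) (a (l 16645272) (l 16640136))) (a (l 16644480) (l 16639360))))), by decide +kernel⟩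

def k123_pm_102_s : ∃ t, chk3 f_pm_102_s t 31 335 1 = true :=
  ⟨(a (c (b (b (b (a (l 16639672) (l 16634376)) (b (a (l 16639248) (l 16634008)) (b (b (a (l 16638992) (l 16633792)) (a (a (l 16640048) (l 16637568)) (a (l 16634984) (l 16632288)))) (a (l 16638792) (l 16633616))))) (a (l 16638520) (l 16633352))) (a (l 16637808) (l 16632656))) (b (b (b (a (l 16635432) (l 16629488)) (b (a (l 16635184) (l 16629280)) (b (b (a (l 16635064) (l 16629184)) (a (a (l 16636400) (l 16633576)) (a (l 16630648) (l 16627608)))) (a (l 16634952) (l 16629096))))) (a (l 16634664) (l 16628816))) (a (l 16633912) (l 16628072)))) (c (a (b (b (b (l 16628616) (b (l 16628296) (b (b (l 16628120) (a (l 16629464) (l 16626504))) (l 16627968)))) (l 16627712)) (l 16627024)) (b (b (b (a (l 16623920) (l 16620592)) (b (a (l 16623640) (l 16620336)) (b (b (l 16621864) (a (l 16623392) (l 16625360))) (l 16621744)))) (l 16621488)) (l 16620824))) (a (b (b (b (l 16623056) (b (l 16622880) (b (b (l 16622816) (a (l 16624432) (l 16621112))) (l 16622744))))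 (l 16622472)) (l 16621744)) (b (b (b (a (l 16617832) (l 16614136)) (b (a (l 16617688) (l 16614008)) (b (b (l 16615824) (a (l 16617632) (c (l 16615552) (l 16612352)))) (l 16615776)))) (l 16615512)) (l 16614800))))), by decide +kernel⟩

def k124_pm_102_s : ∃ t, chk3 f_pm_102_s t 28 21 1 = true :=
  ⟨(a (b (b (a (c (b (l 16692008) (l 16688424)) (a (l 16691376) (l 16688792))) (b (c (l 16686992) (a (l 16688232) (l 16685608))) (a (l 16684680) (l 16682056)))) (a (c (a (l 16684424) (l 16681840)) (a (l 16683424) (l 16680768))) (c (a (l 16679208) (l 16676544)) (a (l 16678072) (l 16675360))))) (a (b (c (b (l 16677976) (l 16679840)) (a (l 16675688) (l 16672952))) (c (a (l 16672328) (b (l 16669896) (l 16666608))) (a (l 16668168) (b (l 16667232) (l 16663480))))) (b (c (a (l 16672208) (l 16669456)) (a (l 16670184) (l 16667392))) (c (a (l 16665432) (l 16662576)) (a (l 16663816) (l 16659632)))))) (b (b (c (a (a (l 16681248) (l 16678616)) (c (l 16674328) (l 16685248))) (a (a (c (l 16681200) (l 16680360)) (c (l 16678536)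 (l 16682912))) (c (a (l 16675872) (l 16673192)) (a (l 16680224) (l 16682776))))) (a (c (a (l 16673848) (l 16671128)) (a (l 16672616) (l 16669872))) (c (l 16677496) (a (l 16667128) (l 16664384))))) (a (b (c (a (l 16666664) (l 16663856)) (a (l 16664576) (l 16661760))) (c (a (l 16659696) (l 16656800)) (a (l 16656744) (l 16653856)))) (b (c (l 16659600) (a (l 16658944) (l 16656136))) (a (c (l 16653880) (l 16650968)) (l 16649800)))))), by decide +kernel⟩

def k125_pm_102_s : ∃ t, chk3 f_pm_102_s t 29 21 1 = true :=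
  ⟨(a (b (b (a (b (c (l 16671240) (c (l 16671288) (l 16678344))) (a (l 16668656) (l 16665944))) (a (c (l 16665192) (l 16675280)) (b (l 16664760) (l 16660528)))) (a (c (l 16661456) (a (l 16661648) (l 16658912))) (c (l 16655864) (a (l 16656184) (l 16653464))))) (a (b (c (l 16653880) (a (l 16653336) (l 16650544))) (c (l 16646512) (l 16643792))) (c (b (l 16648112) (l 16640584)) (b (l 16656848) (l 16638096))))) (b (a (c (b (l 16666264) (l 16650264)) (b (a (l 16659472) (l 16656824)) (a (l 16650760) (l 16648064)))) (a (b (c (l 16654336) (l 16654184)) (l 16646048)) (b (c (l 16652176) (l 16651848)) (b (l 16645848) (a (l 16642008) (l 16641160)))))) (a (c (b (l 16642344) (l 16634640)) (b (l 16640848) (l 16632464))) (b (a (l 16637688) (c (l 16635584) (l 16634288))) (a (l 16629528) (c (l 16627592) (l 16625736))))))), by decide +kernel⟩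

def k126_pm_102_s : ∃ t, chk3 f_pm_102_s t 30 21 1 = true :=
  ⟨(b (a (c (b (a (l 16649840) (l 16646360)) (a (b (l 16643656) (l 16639584)) (b (l 16640352) (l 16636376)))) (b (a (c (l 16649264) (l 16648152)) (a (l 16645544) (l 16643288))) (a (b (l 16642256) (l 16637936)) (b (l 16638048) (l 16633824))))) (b (a (c (l 16652976) (a (l 16640952) (l 16638528))) (c (a (l 16639328) (l 16637088)) (a (l 16636024) (l 16633432)))) (a (b (c (l 16636640) (l 16633520)) (b (l 16632296) (l 16630280))) (c (b (l 16632520) (l 16628752)) (b (l 16628632) (b (l 16625616) (l 16623584))))))) (a (a (c (b (l 16633456) (l 16625448)) (b (l 16631464) (l 16622960))) (c (b (l 16630344) (l 16622424)) (b (l 16627464) (l 16619088)))) (a (c (b (l 16626832) (l 16619024)) (b (l 16623152) (l 16614912))) (c (b (l 16622912) (l 16615232)) (b (l 16618480) (l 16610408)))))), by decide +kernel⟩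

def k127_pm_102_s : ∃ t, chk3 f_pm_102_s t 31 21 1 = true :=
  ⟨(a (b (b (a (c (a (l 16634752) (l 16632328)) (a (l 16630752) (l 16627984))) (c (a (l 16629800) (l 16627152)) (a (l 16625112) (l 16622128)))) (a (c (b (l 16627992) (l 16634808)) (b (l 16623400) (b (l 16620440) (l 16618464)))) (c (b (l 16623056) (b (l 16620376) (l 16618552))) (b (l 16617776) (b (l 16614880) (l 16612944)))))) (a (c (b (l 16618600) (l 16611048)) (b (l 16613472) (l 16605560))) (c (b (l 16613856) (l 16606472)) (b (a (l 16609464) (l 16606656)) (l 16600360))))) (b (b (a (c (a (l 16624392) (l 16621488)) (a (l 16619016) (l 16615752))) (c (a (l 16618432) (l 16625696)) (a (l 16617568) (c (l 16610376) (l 16607040))))) (a (c (b (l 16617632) (b (l 16615016) (l 16613232))) (b (l 16611664) (b (l 16608824) (l 16606936)))) (c (b (a (l 16613200) (l 16610040)) (b (l 16609088) (l 16607344))) (b (a (l 16606680) (l 16603128)) (b (l 16602152) (l 16600304)))))) (a (c (b (a (l 16610000) (l 16607256)) (l 16601416)) (b (a (l 16603720) (l 16600648))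 (l 16594688))) (c (b (a (l 16604368) (l 16601328)) (a (l 16597272) (l 16594320))) (b (a (l 16597408) (l 16594000)) (l 16598920)))))), by decide +kernel⟩

def k128_pm_102_s : ∃ t, chk3 f_pm_102_s t 28 22 1 = true :=
  ⟨(a (b (a (b (c (a (l 16664640) (c (l 16662400) (l 16661008))) (a (l 16666096) (c (l 16659104) (l 16656680)))) (c (a (l 16658480) (l 16655512)) (a (l 16653768) (l 16650776)))) (b (c (a (c (l 16659496) (l 16658104)) (b (l 16657568) (l 16654296))) (a (c (l 16656184) (l 16653744)) (c (l 16653240) (l 16650792)))) (c (a (c (l 16653392) (l 16651512)) (c (l 16650360) (l 16648488))) (a (c (l 16649144) (l 16646280)) (c (l 16646112) (l 16643248)))))) (a (b (c (a (l 16652536) (l 16649480)) (a (l 16646896) (l 16643824))) (c (a (l 16646808) (l 16643664)) (a (l 16640248) (l 16637088)))) (c (b (a (l 16646384) (l 16643264)) (a (l 16640480) (l 16637256))) (b (a (l 16640728) (c (l 16639200) (l 16635912))) (a (l 16633904) (l 16630704)))))) (b (a (b (c (a (l 16652952) (l 16649960)) (a (c (l 16650280) (l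 16647824)) (l 16646152))) (c (a (c (l 16647288) (l 16645432)) (l 16643336)) (a (c (l 16643064) (l 16640200)) (c (l 16640016) (l 16637168))))) (b (c (a (l 16646952) (l 16643928)) (a (l 16643192) (l 16640248))) (c (a (l 16640240) (l 16637128)) (a (l 16633000) (l 16632600))))) (a (b (c (a (c (l 16641216) (l 16638880)) (l 16636936)) (a (c (l 16636072) (l 16632784)) (c (l 16632936) (l 16629672)))) (c (a (l 16634016) (l 16630744)) (a (l 16627488) (l 16624280)))) (c (b (a (l 16633744) (l 16630544)) (a (l 16627472) (l 16624176))) (b (a (c (l 16629808) (l 16626584)) (l 16625152)) (a (c (l 16622856) (l 16619216)) (c (l 16619648) (l 16616064)))))))), by decide +kernel⟩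

def k129_pm_102_s : ∃ t, chk3 f_pm_102_s t 28 23 1 = true :=
  ⟨(a (b (a (b (c (a (l 16641296) (l 16638056)) (a (l 16633816) (l 16630560))) (c (l 16634320) (l 16625928))) (b (c (a (l 16634784) (c (l 16633080) (l 16629760))) (a (l 16627288) (l 16624000))) (c (a (l 16629296) (l 16625896)) (a (l 16620896) (l 16617520))))) (a (b (c (l 16629176) (l 16619880)) (c (l 16624208) (l 16614016))) (b (c (a (l 16624016) (l 16620528)) (l 16623456)) (c (l 16617152) (l 16606952))))) (b (a (c (b (a (c (l 16629736) (l 16626432)) (l 16624776)) (a (l 16622472) (l 16624264))) (b (a (l 16620704) (l 16617408)) (a (l 16614128) (l 16610752)))) (a (c (b (l 16621408) (c (l 16617360) (l 16613664))) (b (l 16614128) (l 16607384))) (c (b (l 16618024) (l 16612080)) (b (l 16610872) (l 16604040))))) (a (c (b (a (l 16617008) (l 16613472)) (a (l 16611752) (l 16608128))) (b (a (l 16607760) (l 16604296)) (a (l 16601600) (l 16598048)))) (b (c (a (l 16609920) (l 16606352)) (a (l 16600840) (l 16597408))) (c (a (l 16604488) (l 16600832))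 (a (l 16594504) (l 16590984))))))), by decide +kernel⟩

def k130_pm_102_s : ∃ t, chk3 f_pm_102_s t 29 11 1 = true :=
  ⟨(b (a (b (a (b (c (l 16639368) (a (l 16637304) (l 16634376))) (c (a (l 16634000) (l 16630872)) (a (l 16629592) (l 16626592)))) (b (c (l 16633264) (l 16630016)) (c (l 16626160) (l 16622128)))) (a (b (c (a (l 16627328) (l 16624112)) (a (l 16622072) (l 16619000))) (c (a (l 16620872) (l 16617560)) (a (l 16614752) (l 16611608)))) (b (c (l 16619264) (a (l 16615952) (l 16612920))) (c (a (l 16614248) (l 16610928)) (a (l 16608480) (l 16605376)))))) (b (a (b (c (l 16627160) (l 16624264)) (c (l 16619880) (l 16616240))) (b (a (l 16621568) (l 16618848)) (a (l 16613792) (l 16610960)))) (a (b (c (l 16612816) (l 16608408)) (c (l 16605960) (l 16600768))) (b (a (l 16606216) (l 16603264)) (a (l 16598832) (l 16595760)))))) (a (b (a (b (c (a (l 16614632) (l 16611224)) (a (l 16607632) (l 16604408))) (c (a (l 16608600) (l 16605104)) (a (l 16600712) (l 16597400)))) (b (c (a (l 16607824) (l 16604416)) (a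 (l 16601200) (l 16598024))) (c (a (l 16601608) (l 16598112)) (a (l 16594120) (l 16590864))))) (a (b (c (a (l 16602776) (l 16599192)) (a (l 16593992) (l 16590600))) (c (a (l 16597160) (l 16593488)) (a (l 16587480) (l 16584000)))) (b (c (a (l 16595608) (l 16592016)) (a (l 16587232) (l 16583896))) (c (a (l 16589808) (l 16586128)) (a (l 16580552) (l 16577128)))))) (b (a (b (c (l 16599312) (l 16593304)) (c (l 16592872) (a (l 16587632) (l 16584440)))) (b (c (l 16592584) (l 16587152)) (c (l 16585920) (l 16579704)))) (a (b (c (a (l 16588432) (l 16584856)) (a (l 16580584) (l 16577312))) (c (c (l 16582560) (l 16578584)) (l 16582528))) (b (c (l 16579504) (l 16572464)) (c (a (l 16575120) (l 16571472)) (l 16565400))))))), by decide +kernel⟩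

def k131_pm_102_s : ∃ t, chk3 f_pm_102_s t 30 11 1 = true :=
  ⟨(b (a (b (b (a (l 16616352) (l 16612976)) (a (l 16608416) (l 16605152))) (a (b (l 16600648) (l 16593040)) (b (l 16597504) (l 16590024)))) (b (b (a (c (l 16611392) (l 16606808)) (c (l 16607712) (l 16602448))) (a (l 16612048) (c (l 16600384) (l 16594632)))) (b (a (l 16594024) (c (l 16593240) (l 16586960))) (a (l 16586664) (c (l 16586304) (l 16579448)))))) (a (b (a (b (l 16585584) (c (l 16581216) (l 16575016))) (b (l 16582704) (l 16575560))) (b (a (c (a (l 16575016) (l 16573968)) (l 16567552)) (l 16579056)) (a (a (c (l 16568488) (l 16560992)) (l 16563616)) (c (l 16565800) (l 16557480))))) (b (a (b (l 16579488) (l 16582960)) (c (b (l 16579560) (l 16573016)) (b (l 16572096) (l 16564912)))) (a (c (b (l 16569648) (l 16563336)) (b (l 16561424) (l 16554408))) (c (b (l 16566656) (l 16560480)) (b (l 16557880) (l 16551016))))))), by decide +kernel⟩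

def k132_pm_102_s : ∃ t, chk3 f_pm_102_s t 31 11 1 = true :=
  ⟨(a (b (b (a (c (b (l 16603664) (l 16596448)) (b (l 16597768) (l 16590096))) (c (b (l 16599232) (l 16592152)) (b (l 16592736) (l 16585232)))) (a (c (b (l 16589424) (l 16582584)) (b (l 16582568) (l 16575192))) (c (b (l 16585240) (l 16578528)) (b (l 16577856) (l 16570624))))) (b (a (c (b (l 16575960) (l 16569536)) (l 16564424)) (c (b (l 16572008) (l 16565704)) (l 16560072))) (b (a (c (l 16563312) (l 16554048)) (c (l 16559600) (l 16549896))) (a (c (l 16557272) (l 16547336)) (l 6))))) (b (b (a (c (b (l 16594336) (l 16587408)) (b (l 16587256) (l 16579936))) (c (b (l 16588904) (l 16582136)) (b (l 16581216) (l 16574080)))) (a (c (b (l 16580640) (l 16574056)) (b (l 16572728) (l 16565648))) (c (b (l 16575528) (l 16569088)) (l 16584560)))) (b (a (c (b (l 16567656) (l 16561464)) (l 16555312)) (c (b (l 16562824) (l 16556760)) (l 16550056))) (a (c (b (l 16555488) (l 6)) (l 16563096)) (l 6))))), by decide +kernel⟩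

def k133_pm_102_s : ∃ t, chk3 f_pm_102_s t 6 3 1 = true :=
  ⟨(b (a (b (a (b (a (l 16726536) (b (l 16694384) (l 16691088))) (a (l 2) (l 16689728))) (b (a (b (l 16681680) (l 16677104)) (b (l 16669376) (l 16684128))) (a (l 16673640) (b (l 16658680) (l 16656024))))) (a (l 2) (b (a (l 2) (l 16656120)) (l 2)))) (b (a (b (a (b (l 16658416) (l 16650648)) (b (a (l 16650096) (l 16644288)) (b (l 16640408) (l 16636088)))) (a (b (l 16644144) (l 16639384)) (b (l 16630152) (l 16623472)))) (b (a (b (a (l 16638176) (l 16631944)) (a (l 16628664) (b (l 16624616) (l 16619600)))) (b (a (c (l 16630744) (l 16619632)) (c (l 16624008) (l 16612672))) (a (b (l 16617960) (l 16612752)) (b (l 16611000) (l 16605728))))) (a (b (a (l 16619472) (l 16612272)) (l 16607560)) (b (a (b (l 16607608) (l 16602576)) (b (l 16600384) (l 16595168))) (a (l 16595576) (l 16587592)))))) (b (b (a (a (l 16636664) (l 16618552)) (a (l 16600624) (l 6))) (l 6)) (l 6)))) (l 6)), by decide +kernel⟩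

def k134_pm_102_s : ∃ t, chk3 f_pm_102_s t 28 12 1 = true :=
  ⟨(b (a (b (a (b (l 16614024) (l 16598400)) (b (c (l 16612200) (l 16601112)) (c (l 16607400) (l 16595448)))) (a (b (c (l 16609992) (l 16597320)) (c (l 16604824) (l 16591728))) (b (c (l 16602624) (l 16589872)) (c (l 16597328) (l 16584160))))) (b (b (a (a (l 16611816) (l 16608128)) (c (a (l 16599248) (l 16595504)) (a (l 16588368) (l 16584760)))) (a (c (l 16599912) (a (l 16589872) (l 16586144))) (c (a (l 16594208) (l 16590368)) (b (l 16582056) (l 16579112))))) (a (b (c (b (l 16596312) (l 16593776)) (a (l 16584208) (l 16580416))) (c (a (l 16591552) (l 16587632)) (a (l 16578400) (l 16574536)))) (b (c (b (l 16588592) (a (l 16587952) (l 16584024))) (b (l 16576208) (l 16573272))) (c (a (l 16583680) (l 16579696)) (a (l 16570680) (l 16566832))))))) (a (b (a (b (l 16593016) (l 16587592)) (c (b (l 16591960) (l 16586616)) (b (l 16578472) (l 16572840)))) (b (a (l 16582280) (a (l 16576376) (l 16572416))) (l 6))) (b (b (a (c (l 16584080) (l 16570656))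 (c (a (l 16578056) (l 16573992)) (a (l 16564776) (l 16560856)))) (a (c (l 16578616) (l 16564912)) (b (a (l 16567288) (l 16563248)) (l 6)))) (l 6)))), by decide +kernel⟩

def k135_pm_102_s : ∃ t, chk3 f_pm_102_s t 29 12 1 = true :=
  ⟨(b (a (b (a (c (b (a (l 16591752) (l 16587984)) (a (l 16586528) (l 16582672))) (b (a (l 16581168) (l 16577600)) (a (l 16575048) (l 16571392)))) (a (c (b (l 16584216) (l 16578816)) (b (l 16574064) (l 16567760))) (c (b (c (l 16582736) (l 16578072)) (l 16574952)) (b (l 16570544) (l 16564160))))) (b (a (c (b (l 16580776) (a (l 16580072) (l 16576104))) (b (l 16568720) (a (l 16567592) (l 16563816)))) (c (b (l 16572928) (l 16580624)) (b (l 16561328) (l 16558216)))) (a (c (a (l 16575672) (l 16571624)) (a (l 16562984) (l 16559144))) (c (a (l 16567568) (l 16563496)) (a (l 16555336) (l 16551544)))))) (b (a (c (a (b (l 16576672) (l 16571088)) (b (l 16572904) (c (l 16569632) (l 16564776)))) (b (a (l 16567064) (l 16563616)) (l 16579792))) (c (b (a (l 16569152) (l 16565408)) (a (l 16563384)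 (l 16559544))) (b (l 16558520) (l 16551824)))) (a (c (a (b (c (l 16568288) (l 16562840)) (l 16559424)) (b (c (l 16569504) (l 16558968)) (l 16555360))) (b (a (l 16554264) (l 16550640)) (l 16556400))) (c (b (b (c (l 16559688) (l 16554728)) (c (l 16556768) (l 16551656))) (c (a (l 16553896) (l 6)) (l 16546672))) (b (a (l 16547048) (l 16543512)) (l 16538552)))))) (a (b (b (b (a (c (l 16569272) (l 16556496)) (c (l 16561000) (l 16548736))) (a (c (l 16566376) (l 16553480)) (l 6))) (l 6)) (l 6)) (l 6))), by decide +kernel⟩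

def k136_pm_102_s : ∃ t, chk3 f_pm_102_s t 14 13 1 = true :=
  ⟨(l 6), by decide +kernel⟩

def k137_pm_102_s : ∃ t, chk3 f_pm_102_s t 15 6 1 = true :=
  ⟨(b (a (b (a (b (a (c (a (b (a (l 16562680) (l 16561656)) (a (l 16556688) (l 16555360))) (b (l 16561000) (l 16554752))) (a (b (l 16553888) (l 16546968)) (l 16548904))) (c (b (l 16559512) (l 16553392)) (b (l 16550456) (l 16543568)))) (a (b (a (c (c (l 16552472) (l 16547688)) (l 16540208)) (c (l 16548552) (l 16538512))) (l 6)) (l 6))) (b (a (c (b (l 16557200) (c (l 16553768) (l 16548664))) (b (l 16547544) (l 16540832))) (b (c (l 16554496) (l 16544312)) (l 6))) (l 6))) (l 6)) (l 6)) (l 6)), by decide +kernel⟩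

def k138_pm_102_s : ∃ t, chk3 f_pm_102_s t 7 7 1 = true :=
  ⟨(l 6), by decide +kernel⟩

theorem s139_pm_102_s : ∃ t, chk3 f_pm_102_s t 14 12 1 = true := ex3_a k134_pm_102_s k135_pm_102_s

theorem s140_pm_102_s : ∃ t, chk3 f_pm_102_s t 14 6 1 = true := ex3_b s139_pm_102_s k136_pm_102_s

theorem s141_pm_102_s : ∃ t, chk3 f_pm_102_s t 7 6 1 = true := ex3_a s140_pm_102_s k137_pm_102_s

theorem s142_pm_102_s : ∃ t, chk3 f_pm_102_s t 7 3 1 = true := ex3_b s141_pm_102_s k138_pm_102_s

theorem s143_pm_102_s : ∃ t, chk3 f_pm_102_s t 3 3 1 = true := ex3_a k133_pm_102_s s142_pm_102_s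

theorem s144_pm_102_s : ∃ t, chk3 f_pm_102_s t 15 11 1 = true := ex3_a k131_pm_102_s k132_pm_102_s

theorem s145_pm_102_s : ∃ t, chk3 f_pm_102_s t 28 11 1 = true := ex3_b k128_pm_102_s k129_pm_102_s

theorem s146_pm_102_s : ∃ t, chk3 f_pm_102_s t 14 11 1 = true := ex3_a s145_pm_102_s k130_pm_102_s

theorem s147_pm_102_s : ∃ t, chk3 f_pm_102_s t 7 11 1 = true := ex3_a s146_pm_102_s s144_pm_102_s

theorem s148_pm_102_s : ∃ t, chk3 f_pm_102_s t 15 21 1 = true := ex3_a k126_pm_102_s k127_pm_102_s

theorem s149_pm_102_s : ∃ t, chk3 f_pm_102_s t 14 21 1 = true := ex3_a k124_pm_102_s k125_pm_102_s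

theorem s150_pm_102_s : ∃ t, chk3 f_pm_102_s t 7 21 1 = true := ex3_a s149_pm_102_s s148_pm_102_s

theorem s151_pm_102_s : ∃ t, chk3 f_pm_102_s t 15 335 1 = true := ex3_a k122_pm_102_s k123_pm_102_s

theorem s152_pm_102_s : ∃ t, chk3 f_pm_102_s t 15 167 1 = true := ex3_b k121_pm_102_s s151_pm_102_s

theorem s153_pm_102_s : ∃ t, chk3 f_pm_102_s t 15 83 1 = true := ex3_b k120_pm_102_s s152_pm_102_s

theorem s154_pm_102_s : ∃ t, chk3 f_pm_102_s t 15 41 1 = true := ex3_b k119_pm_102_s s153_pm_102_s

theorem s155_pm_102_s : ∃ t, chk3 f_pm_102_s t 58 1340 7 = true := ex3_a k114_pm_102_s k115_pm_102_s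

theorem s156_pm_102_s : ∃ t, chk3 f_pm_102_s t 58 670 7 = true := ex3_b s155_pm_102_s k116_pm_102_s

theorem s157_pm_102_s : ∃ t, chk3 f_pm_102_s t 58 670 3 = true := ex3_c k113_pm_102_s s156_pm_102_s

theorem s158_pm_102_s : ∃ t, chk3 f_pm_102_s t 58 335 3 = true := ex3_b s157_pm_102_s k117_pm_102_s

theorem s159_pm_102_s : ∃ t, chk3 f_pm_102_s t 58 335 1 = true := ex3_c k112_pm_102_s s158_pm_102_s

theorem s160_pm_102_s : ∃ t, chk3 f_pm_102_s t 29 335 1 = true := ex3_a s159_pm_102_s k118_pm_102_s

theorem s161_pm_102_s : ∃ t, chk3 f_pm_102_s t 57 670 3 = true := ex3_c k109_pm_102_s k110_pm_102_s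

theorem s162_pm_102_s : ∃ t, chk3 f_pm_102_s t 28 670 3 = true := ex3_a k108_pm_102_s s161_pm_102_s

theorem s163_pm_102_s : ∃ t, chk3 f_pm_102_s t 28 335 3 = true := ex3_b s162_pm_102_s k111_pm_102_s

theorem s164_pm_102_s : ∃ t, chk3 f_pm_102_s t 28 335 1 = true := ex3_c k107_pm_102_s s163_pm_102_s

theorem s165_pm_102_s : ∃ t, chk3 f_pm_102_s t 14 335 1 = true := ex3_a s164_pm_102_s s160_pm_102_s

theorem s166_pm_102_s : ∃ t, chk3 f_pm_102_s t 14 167 1 = true := ex3_b k106_pm_102_s s165_pm_102_s

theorem s167_pm_102_s : ∃ t, chk3 f_pm_102_s t 14 166 1 = true := ex3_a k104_pm_102_s k105_pm_102_s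

theorem s168_pm_102_s : ∃ t, chk3 f_pm_102_s t 14 83 1 = true := ex3_b s167_pm_102_s s166_pm_102_s

theorem s169_pm_102_s : ∃ t, chk3 f_pm_102_s t 28 82 1 = true := ex3_a k101_pm_102_s k102_pm_102_s

theorem s170_pm_102_s : ∃ t, chk3 f_pm_102_s t 14 82 1 = true := ex3_a s169_pm_102_s k103_pm_102_s

theorem s171_pm_102_s : ∃ t, chk3 f_pm_102_s t 14 41 1 = true := ex3_b s170_pm_102_s s168_pm_102_s

theorem s172_pm_102_s : ∃ t, chk3 f_pm_102_s t 7 41 1 = true := ex3_a s171_pm_102_s s154_pm_102_s

theorem s173_pm_102_s : ∃ t, chk3 f_pm_102_s t 28 81 1 = true := ex3_a k97_pm_102_s k98_pm_102_s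

theorem s174_pm_102_s : ∃ t, chk3 f_pm_102_s t 56 80 1 = true := ex3_b k94_pm_102_s k95_pm_102_s

theorem s175_pm_102_s : ∃ t, chk3 f_pm_102_s t 28 80 1 = true := ex3_a s174_pm_102_s k96_pm_102_s

theorem s176_pm_102_s : ∃ t, chk3 f_pm_102_s t 28 40 1 = true := ex3_b s175_pm_102_s s173_pm_102_s

theorem s177_pm_102_s : ∃ t, chk3 f_pm_102_s t 14 40 1 = true := ex3_a s176_pm_102_s k99_pm_102_s

theorem s178_pm_102_s : ∃ t, chk3 f_pm_102_s t 7 40 1 = true := ex3_a s177_pm_102_s k100_pm_102_s

theorem s179_pm_102_s : ∃ t, chk3 f_pm_102_s t 7 20 1 = true := ex3_b s178_pm_102_s s172_pm_102_s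

theorem s180_pm_102_s : ∃ t, chk3 f_pm_102_s t 7 10 1 = true := ex3_b s179_pm_102_s s150_pm_102_s

theorem s181_pm_102_s : ∃ t, chk3 f_pm_102_s t 7 5 1 = true := ex3_b s180_pm_102_s s147_pm_102_s

theorem s182_pm_102_s : ∃ t, chk3 f_pm_102_s t 6 11 1 = true := ex3_a k92_pm_102_s k93_pm_102_s

theorem s183_pm_102_s : ∃ t, chk3 f_pm_102_s t 6 21 1 = true := ex3_a k90_pm_102_s k91_pm_102_s

theorem s184_pm_102_s : ∃ t, chk3 f_pm_102_s t 27 83 1 = true := ex3_b k88_pm_102_s k89_pm_102_s

theorem s185_pm_102_s : ∃ t, chk3 f_pm_102_s t 13 83 1 = true := ex3_a k87_pm_102_s s184_pm_102_s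

theorem s186_pm_102_s : ∃ t, chk3 f_pm_102_s t 12 83 1 = true := ex3_b k85_pm_102_s k86_pm_102_s

theorem s187_pm_102_s : ∃ t, chk3 f_pm_102_s t 6 83 1 = true := ex3_a s186_pm_102_s s185_pm_102_s

theorem s188_pm_102_s : ∃ t, chk3 f_pm_102_s t 13 82 1 = true := ex3_a k83_pm_102_s k84_pm_102_s

theorem s189_pm_102_s : ∃ t, chk3 f_pm_102_s t 6 82 1 = true := ex3_a k82_pm_102_s s188_pm_102_s

theorem s190_pm_102_s : ∃ t, chk3 f_pm_102_s t 6 41 1 = true := ex3_b s189_pm_102_s s187_pm_102_s

theorem s191_pm_102_s : ∃ t, chk3 f_pm_102_s t 27 81 1 = true := ex3_a k80_pm_102_s k81_pm_102_s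

theorem s192_pm_102_s : ∃ t, chk3 f_pm_102_s t 27 40 1 = true := ex3_b k79_pm_102_s s191_pm_102_s

theorem s193_pm_102_s : ∃ t, chk3 f_pm_102_s t 13 40 1 = true := ex3_a k78_pm_102_s s192_pm_102_s

theorem s194_pm_102_s : ∃ t, chk3 f_pm_102_s t 6 40 1 = true := ex3_a k77_pm_102_s s193_pm_102_s

theorem s195_pm_102_s : ∃ t, chk3 f_pm_102_s t 6 20 1 = true := ex3_b s194_pm_102_s s190_pm_102_s

theorem s196_pm_102_s : ∃ t, chk3 f_pm_102_s t 6 10 1 = true := ex3_b s195_pm_102_s s183_pm_102_s

theorem s197_pm_102_s : ∃ t, chk3 f_pm_102_s t 6 5 1 = true := ex3_b s196_pm_102_s s182_pm_102_s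

theorem s198_pm_102_s : ∃ t, chk3 f_pm_102_s t 3 5 1 = true := ex3_a s197_pm_102_s s181_pm_102_s

theorem s199_pm_102_s : ∃ t, chk3 f_pm_102_s t 15 19 1 = true := ex3_a k75_pm_102_s k76_pm_102_s

theorem s200_pm_102_s : ∃ t, chk3 f_pm_102_s t 28 39 1 = true := ex3_b k72_pm_102_s k73_pm_102_s

theorem s201_pm_102_s : ∃ t, chk3 f_pm_102_s t 14 39 1 = true := ex3_a s200_pm_102_s k74_pm_102_s

theorem s202_pm_102_s : ∃ t, chk3 f_pm_102_s t 112 38 1 = true := ex3_a k67_pm_102_s k68_pm_102_s

theorem s203_pm_102_s : ∃ t, chk3 f_pm_102_s t 56 38 1 = true := ex3_a s202_pm_102_s k69_pm_102_s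

theorem s204_pm_102_s : ∃ t, chk3 f_pm_102_s t 28 38 1 = true := ex3_a s203_pm_102_s k70_pm_102_s

theorem s205_pm_102_s : ∃ t, chk3 f_pm_102_s t 14 38 1 = true := ex3_a s204_pm_102_s k71_pm_102_s

theorem s206_pm_102_s : ∃ t, chk3 f_pm_102_s t 14 19 1 = true := ex3_b s205_pm_102_s s201_pm_102_s

theorem s207_pm_102_s : ∃ t, chk3 f_pm_102_s t 7 19 1 = true := ex3_a s206_pm_102_s s199_pm_102_s

theorem s208_pm_102_s : ∃ t, chk3 f_pm_102_s t 31 18 1 = true := ex3_a k65_pm_102_s k66_pm_102_s

theorem s209_pm_102_s : ∃ t, chk3 f_pm_102_s t 30 18 1 = true := ex3_b k63_pm_102_s k64_pm_102_s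

theorem s210_pm_102_s : ∃ t, chk3 f_pm_102_s t 15 18 1 = true := ex3_a s209_pm_102_s s208_pm_102_s

theorem s211_pm_102_s : ∃ t, chk3 f_pm_102_s t 117 18 1 = true := ex3_a k60_pm_102_s k61_pm_102_s

theorem s212_pm_102_s : ∃ t, chk3 f_pm_102_s t 116 18 1 = true := ex3_a k58_pm_102_s k59_pm_102_s

theorem s213_pm_102_s : ∃ t, chk3 f_pm_102_s t 58 18 1 = true := ex3_a s212_pm_102_s s211_pm_102_s

theorem s214_pm_102_s : ∃ t, chk3 f_pm_102_s t 29 18 1 = true := ex3_a s213_pm_102_s k62_pm_102_s

theorem s215_pm_102_s : ∃ t, chk3 f_pm_102_s t 28 151 1 = true := ex3_b k56_pm_102_s k57_pm_102_s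

theorem s216_pm_102_s : ∃ t, chk3 f_pm_102_s t 112 150 1 = true := ex3_b k52_pm_102_s k53_pm_102_s

theorem s217_pm_102_s : ∃ t, chk3 f_pm_102_s t 56 150 1 = true := ex3_a s216_pm_102_s k54_pm_102_s

theorem s218_pm_102_s : ∃ t, chk3 f_pm_102_s t 28 150 1 = true := ex3_a s217_pm_102_s k55_pm_102_s

theorem s219_pm_102_s : ∃ t, chk3 f_pm_102_s t 28 75 1 = true := ex3_b s218_pm_102_s s215_pm_102_s

theorem s220_pm_102_s : ∃ t, chk3 f_pm_102_s t 114 74 1 = true := ex3_b k49_pm_102_s k50_pm_102_s

theorem s221_pm_102_s : ∃ t, chk3 f_pm_102_s t 57 74 1 = true := ex3_a s220_pm_102_s k51_pm_102_s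

theorem s222_pm_102_s : ∃ t, chk3 f_pm_102_s t 28 74 1 = true := ex3_a k48_pm_102_s s221_pm_102_s

theorem s223_pm_102_s : ∃ t, chk3 f_pm_102_s t 28 37 1 = true := ex3_b s222_pm_102_s s219_pm_102_s

theorem s224_pm_102_s : ∃ t, chk3 f_pm_102_s t 28 18 1 = true := ex3_b k47_pm_102_s s223_pm_102_s

theorem s225_pm_102_s : ∃ t, chk3 f_pm_102_s t 14 18 1 = true := ex3_a s224_pm_102_s s214_pm_102_s

theorem s226_pm_102_s : ∃ t, chk3 f_pm_102_s t 7 18 1 = true := ex3_a s225_pm_102_s s210_pm_102_s

theorem s227_pm_102_s : ∃ t, chk3 f_pm_102_s t 7 9 1 = true := ex3_b s226_pm_102_s s207_pm_102_s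

theorem s228_pm_102_s : ∃ t, chk3 f_pm_102_s t 62 17 1 = true := ex3_b k44_pm_102_s k45_pm_102_s

theorem s229_pm_102_s : ∃ t, chk3 f_pm_102_s t 31 17 1 = true := ex3_a s228_pm_102_s k46_pm_102_s

theorem s230_pm_102_s : ∃ t, chk3 f_pm_102_s t 60 35 1 = true := ex3_a k41_pm_102_s k42_pm_102_s

theorem s231_pm_102_s : ∃ t, chk3 f_pm_102_s t 30 35 1 = true := ex3_a s230_pm_102_s k43_pm_102_s

theorem s232_pm_102_s : ∃ t, chk3 f_pm_102_s t 61 69 1 = true := ex3_a k39_pm_102_s k40_pm_102_s

theorem s233_pm_102_s : ∃ t, chk3 f_pm_102_s t 123 68 1 = true := ex3_b k37_pm_102_s k38_pm_102_s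

theorem s234_pm_102_s : ∃ t, chk3 f_pm_102_s t 61 68 1 = true := ex3_a k36_pm_102_s s233_pm_102_s

theorem s235_pm_102_s : ∃ t, chk3 f_pm_102_s t 61 34 1 = true := ex3_b s234_pm_102_s s232_pm_102_s

theorem s236_pm_102_s : ∃ t, chk3 f_pm_102_s t 30 34 1 = true := ex3_a k35_pm_102_s s235_pm_102_s

theorem s237_pm_102_s : ∃ t, chk3 f_pm_102_s t 30 17 1 = true := ex3_b s236_pm_102_s s231_pm_102_s

theorem s238_pm_102_s : ∃ t, chk3 f_pm_102_s t 15 17 1 = true := ex3_a s237_pm_102_s s229_pm_102_s

theorem s239_pm_102_s : ∃ t, chk3 f_pm_102_s t 15 8 1 = true := ex3_b k34_pm_102_s s238_pm_102_s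

theorem s240_pm_102_s : ∃ t, chk3 f_pm_102_s t 7 8 1 = true := ex3_a k33_pm_102_s s239_pm_102_s

theorem s241_pm_102_s : ∃ t, chk3 f_pm_102_s t 7 4 1 = true := ex3_b s240_pm_102_s s227_pm_102_s

theorem s242_pm_102_s : ∃ t, chk3 f_pm_102_s t 27 79 1 = true := ex3_a k31_pm_102_s k32_pm_102_s

theorem s243_pm_102_s : ∃ t, chk3 f_pm_102_s t 55 78 1 = true := ex3_a k29_pm_102_s k30_pm_102_s

theorem s244_pm_102_s : ∃ t, chk3 f_pm_102_s t 27 78 1 = true := ex3_a k28_pm_102_s s243_pm_102_s

theorem s245_pm_102_s : ∃ t, chk3 f_pm_102_s t 27 39 1 = true := ex3_b s244_pm_102_s s242_pm_102_s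

theorem s246_pm_102_s : ∃ t, chk3 f_pm_102_s t 13 39 1 = true := ex3_a k27_pm_102_s s245_pm_102_s

theorem s247_pm_102_s : ∃ t, chk3 f_pm_102_s t 27 77 1 = true := ex3_a k25_pm_102_s k26_pm_102_s

theorem s248_pm_102_s : ∃ t, chk3 f_pm_102_s t 55 152 1 = true := ex3_b k22_pm_102_s k23_pm_102_s

theorem s249_pm_102_s : ∃ t, chk3 f_pm_102_s t 55 76 1 = true := ex3_b s248_pm_102_s k24_pm_102_s

theorem s250_pm_102_s : ∃ t, chk3 f_pm_102_s t 27 76 1 = true := ex3_a k21_pm_102_s s249_pm_102_s

theorem s251_pm_102_s : ∃ t, chk3 f_pm_102_s t 27 38 1 = true := ex3_b s250_pm_102_s s247_pm_102_s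

theorem s252_pm_102_s : ∃ t, chk3 f_pm_102_s t 13 38 1 = true := ex3_a k20_pm_102_s s251_pm_102_s

theorem s253_pm_102_s : ∃ t, chk3 f_pm_102_s t 13 19 1 = true := ex3_b s252_pm_102_s s246_pm_102_s

theorem s254_pm_102_s : ∃ t, chk3 f_pm_102_s t 6 19 1 = true := ex3_a k19_pm_102_s s253_pm_102_s

theorem s255_pm_102_s : ∃ t, chk3 f_pm_102_s t 111 151 1 = true := ex3_b k17_pm_102_s k18_pm_102_s

theorem s256_pm_102_s : ∃ t, chk3 f_pm_102_s t 55 151 1 = true := ex3_a k16_pm_102_s s255_pm_102_s

theorem s257_pm_102_s : ∃ t, chk3 f_pm_102_s t 55 75 1 = true := ex3_b k15_pm_102_s s256_pm_102_s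

theorem s258_pm_102_s : ∃ t, chk3 f_pm_102_s t 27 75 1 = true := ex3_a k14_pm_102_s s257_pm_102_s

theorem s259_pm_102_s : ∃ t, chk3 f_pm_102_s t 27 37 1 = true := ex3_b k13_pm_102_s s258_pm_102_s

theorem s260_pm_102_s : ∃ t, chk3 f_pm_102_s t 13 37 1 = true := ex3_a k12_pm_102_s s259_pm_102_s

theorem s261_pm_102_s : ∃ t, chk3 f_pm_102_s t 13 18 1 = true := ex3_b k11_pm_102_s s260_pm_102_s

theorem s262_pm_102_s : ∃ t, chk3 f_pm_102_s t 6 18 1 = true := ex3_a k10_pm_102_s s261_pm_102_s

theorem s263_pm_102_s : ∃ t, chk3 f_pm_102_s t 6 9 1 = true := ex3_b s262_pm_102_s s254_pm_102_s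

theorem s264_pm_102_s : ∃ t, chk3 f_pm_102_s t 6 4 1 = true := ex3_b k9_pm_102_s s263_pm_102_s

theorem s265_pm_102_s : ∃ t, chk3 f_pm_102_s t 3 4 1 = true := ex3_a s264_pm_102_s s241_pm_102_s

theorem s266_pm_102_s : ∃ t, chk3 f_pm_102_s t 3 2 1 = true := ex3_b s265_pm_102_s s198_pm_102_s

theorem s267_pm_102_s : ∃ t, chk3 f_pm_102_s t 3 1 1 = true := ex3_b s266_pm_102_s s143_pm_102_s

theorem s268_pm_102_s : ∃ t, chk3 f_pm_102_s t 11 41 1 = true := ex3_b k4_pm_102_s k5_pm_102_s

theorem s269_pm_102_s : ∃ t, chk3 f_pm_102_s t 5 41 1 = true := ex3_a k3_pm_102_s s268_pm_102_s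

theorem s270_pm_102_s : ∃ t, chk3 f_pm_102_s t 2 41 1 = true := ex3_a k2_pm_102_s s269_pm_102_s

theorem s271_pm_102_s : ∃ t, chk3 f_pm_102_s t 2 20 1 = true := ex3_b k1_pm_102_s s270_pm_102_s

theorem s272_pm_102_s : ∃ t, chk3 f_pm_102_s t 2 10 1 = true := ex3_b s271_pm_102_s k6_pm_102_s

theorem s273_pm_102_s : ∃ t, chk3 f_pm_102_s t 2 5 1 = true := ex3_b s272_pm_102_s k7_pm_102_s

theorem s274_pm_102_s : ∃ t, chk3 f_pm_102_s t 2 2 1 = true := ex3_b k0_pm_102_s s273_pm_102_s

theorem s275_pm_102_s : ∃ t, chk3 f_pm_102_s t 2 1 1 = true := ex3_b s274_pm_102_s k8_pm_102_s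

theorem s276_pm_102_s : ∃ t, chk3 f_pm_102_s t 1 1 1 = true := ex3_a s275_pm_102_s s267_pm_102_s

theorem c_pm_102_s : CertNE 536870912 536870912 0 536870912 587336777 62277027 3 eng mog cd0q1 cd0q0 pd2 true true false .npp 1 0 2
    ndB0q1 ndB0q0 pcB2 cut_pm_102_s Ext.none :=
  certNE1 (fam := true) (s1 := true) (s2 := false) (a := 1) (b := 0) (c := 2) (cn := .npp) (n1 := ndB0q1) (n2 := ndB0q0) (pc := pcB2) (cut := cut_pm_102_s) (xt := Ext.none) (P1 := 536870912) (W1 := 536870912) (P2 := 0) (W2 := 536870912) (P3 := 587336777) (W3 := 62277027) (N0 := 3) (En := eng) (mo := mog) (C1 := cd0q1) (C2 := cd0q0) (C3 := pd2)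
    rfl (fun _ => rfl) s276_pm_102_s

noncomputable def cut_pm_102_t : Cut := Cut.of [[⟨3, 0, 0, 2845415833⟩], [⟨0, 1, 0, 67108864⟩, ⟨1, 0, 0, 67108864⟩, ⟨2, 1, 0, 67108864⟩]]

noncomputable def f_pm_102_t : ℕ → ℕ → ℕ → ℕ → Bool := onCell 536870912 536870912 0 536870912 587336777 62277027
    (rowNE 3 eng mog cd0q1 cd0q0 pd2 0 true true false .npp 1 0 2 (qsf 536870912 536870912 0 536870912 2) ndB0q1 ndB0q0 pcB2 cut_pm_102_t Ext.none)

def k0_pm_102_t : ∃ t, chk3 f_pm_102_t t 1 1 1 = true :=
  ⟨(l 6), by decide +kernel⟩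

theorem c_pm_102_t : CertNE 536870912 536870912 0 536870912 587336777 62277027 3 eng mog cd0q1 cd0q0 pd2 true true false .npp 1 0 2
    ndB0q1 ndB0q0 pcB2 cut_pm_102_t Ext.none :=
  certNE0 (fam := true) (s1 := true) (s2 := false) (a := 1) (b := 0) (c := 2) (cn := .npp) (n1 := ndB0q1) (n2 := ndB0q0) (pc := pcB2) (cut := cut_pm_102_t) (xt := Ext.none) (P1 := 536870912) (W1 := 536870912) (P2 := 0) (W2 := 536870912) (P3 := 587336777) (W3 := 62277027) (N0 := 3) (En := eng) (mo := mog) (C1 := cd0q1) (C2 := cd0q0) (C3 := pd2)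
    rfl k0_pm_102_t

noncomputable def cut_pm_112_s : Cut := Cut.of [[⟨4, 0, 0, 1449551462⟩]]

noncomputable def f_pm_112_s : ℕ → ℕ → ℕ → ℕ → Bool := onCell 1073741824 536870912 536870912 536870912 587336777 62277027
    (rowNE 3 eng mog cd0q1 cd0q1 pd2 2 true true false .dn 1 1 2 (qsf 536870912 536870912 536870912 536870912 2) ndB0q1 ndB0q1 pcB2 cut_pm_112_s Ext.none)

def k0_pm_112_s : ∃ t, chk3 f_pm_112_s t 4 2 1 = true :=
  ⟨(a (l 3) (l 3)), by decide +kernel⟩

def k1_pm_112_s : ∃ t, chk3 f_pm_112_s t 10 4 1 = true :=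
  ⟨(a (a (l 3) (a (l 3) (a (b (b (a (l 3) (a (l 3) (b (b (l 16779744) (l 16780976)) (l 3)))) (l 3)) (l 3)) (b (a (a (b (b (b (l 16776752) (c (l 16777032) (l 16776928))) (b (a (l 16777128) (l 16777104)) (l 109152576967))) (l 3)) (a (b (b (b (l 16776496) (l 16776704)) (c (l 16781640) (l 16781536))) (b (l 16777112) (l 3))) (b (b (b (l 16776200) (l 16776504)) (b (l 16776728) (l 16776912))) (b (c (l 16782400) (l 16782360)) (l 16782336))))) (b (a (a (a (b (l 16775952) (b (l 16776568) (l 16776792))) (a (b (l 16775392) (b (l 16776296) (l 16776688))) (b (b (l 16774376) (l 16775064)) (b (l 16786256) (l 16776440))))) (b (b (l 16774016) (l 16774712)) (l 16781032))) (b (l 16779400) (l 16775576))) (b (a (a (a (l 16777008) (a (l 16776960) (l 16782144))) (l 16776792)) (l 16776536)) (l 16776936)))) (a (b (l 3) (a (l 3) (a (b (l 3) (l 16777152)) (b (l 16782352) (a (l 16777144) (l 16777056)))))) (b (b (l 16777024) (l 16777024)) (b (l 16782168) (a (a (a (l 16776984) (a (l 16776928) (c (l 16782168) (l 16782040)))) (l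 16776760)) (l 16776520))))))))) (b (b (a (b (b (l 16773000) (l 16773848)) (a (b (l 16773592) (l 16774248)) (l 16778648))) (b (b (l 16762928) (l 16764200)) (b (l 16765360) (l 16766424)))) (a (b (a (b (l 16774784) (l 16775136)) (l 16772144)) (a (l 16775376) (l 16772880))) (b (a (l 16769264) (l 16766304)) (l 16779552)))) (b (a (a (b (l 16775544) (l 16775560)) (b (l 16773208) (l 16773304))) (b (l 16769776) (l 16770064))) (b (a (a (l 16775432) (l 16773152)) (l 16769968)) (a (a (l 16775112) (l 16772752)) (l 16769488)))))), by decide +kernel⟩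

def k2_pm_112_s : ∃ t, chk3 f_pm_112_s t 10 5 1 = true :=
  ⟨(b (b (a (a (l 3) (a (l 3) (a (a (l 3) (a (b (l 3) (c (l 172503343975) (l 168208377111))) (b (b (l 3) (l 16779576)) (b (l 16781096) (l 16776992))))) (a (a (b (a (c (l 226727306215) (l 208473695799)) (c (l 16782144) (l 161765926839))) (b (a (l 16776976) (l 16776808)) (l 16776648))) (a (b (c (l 16782240) (l 16781464)) (b (l 16776632) (l 16776408))) (b (b (l 16776856) (l 16776688)) (b (l 16776432) (l 16770848))))) (a (a (a (b (b (l 16776752) (l 16776496)) (l 16775824)) (a (b (b (l 16776632) (l 16776176)) (l 16775264)) (b (b (l 16776320) (l 16770392)) (b (l 16774928) (l 16774248))))) (b (l 16780928) (l 16776216))) (b (l 16780776) (l 16779360))))))) (a (b (a (b (l 16774528) (l 16773928)) (b (l 16772144) (l 16771520))) (a (b (l 16773232) (l 16772480)) (b (l 16770792) (l 16769960)))) (b (l 16768520) (b (l 16767360) (l 16766416))))) (a (a (l 1) (a (l 1) (a (l 1) (a (l 1) (a (l 1) (b (l 16772728) (l 1))))))) (a (b (a (c (l 16782168) (l 16781392))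 (l 16789544)) (a (l 1) (l 16787488))) (b (b (l 16765360) (l 16764184)) (b (l 16762912) (l 16761544)))))) (a (l 1) (b (a (l 1) (b (l 64458074903) (l 1))) (l 1)))), by decide +kernel⟩

def k3_pm_112_s : ∃ t, chk3 f_pm_112_s t 11 2 1 = true :=
  ⟨(b (b (a (b (b (a (l 16776592) (l 16746872)) (a (l 16759048) (l 16751576))) (a (b (l 16761784) (l 16763928)) (b (l 16755496) (l 16758528)))) (b (b (a (l 16737016) (l 16725632)) (a (l 16743360) (l 16734152))) (a (l 16771864) (l 16764992)))) (a (b (a (b (l 16765248) (l 16765984)) (b (l 16760752) (l 16762056))) (a (l 16786928) (l 16762632))) (b (a (l 16757344) (l 16753040)) (a (l 16759656) (l 16757024))))) (b (a (b (b (a (l 16764664) (l 16761496)) (l 16776960)) (a (b (l 16760488) (l 16757424)) (b (l 16757112) (l 16753656)))) (b (b (l 16757920) (l 16756360)) (b (l 16753736) (l 16749952)))) (a (b (b (a (l 16753704) (l 16749336)) (a (l 16770288) (l 16744176))) (a (l 1) (b (l 16737904) (l 1)))) (b (b (l 16776432) (a (l 16740352) (l 16737784))) (b (a (l 16733392) (l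 16730192)) (l 41372594359)))))), by decide +kernel⟩

def k4_pm_112_s : ∃ t, chk3 f_pm_112_s t 2 3 1 = true :=
  ⟨(a (l 1) (b (a (l 1) (b (a (l 1) (b (b (l 61773679735) (l 1)) (l 1))) (l 1))) (l 1))), by decide +kernel⟩

def k5_pm_112_s : ∃ t, chk3 f_pm_112_s t 3 1 1 = true :=
  ⟨(a (a (b (b (b (b (a (b (a (l 16712584) (l 16697952)) (a (l 16723456) (l 16711200))) (b (a (l 16682024) (l 16664664)) (l 16689664))) (a (b (l 16727816) (l 16736464)) (b (l 16705064) (l 16718272)))) (a (b (a (l 16748504) (l 16743432)) (a (l 16754656) (l 16752344))) (b (l 16755688) (l 16748672)))) (b (b (a (b (l 16755064) (l 16754344)) (l 16775544)) (a (l 16750568) (l 16752632))) (b (a (l 16740008) (l 16742824)) (a (b (l 16727904) (l 16749080)) (l 16724456))))) (b (b (b (a (b (l 16737000) (l 69826688887)) (b (l 16705008) (l 16689720))) (a (b (l 80564095319) (l 1)) (b (l 16715560) (a (l 16658656) (l 16656016))))) (b (a (l 1) (b (l 87543337223) (l 1))) (l 1))) (l 1))) (a (b (b (b (b (b (a (l 16646040) (l 6)) (a (l 16665000) (l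 16646792))) (b (l 16675672) (l 16694320))) (b (b (l 16711048) (l 16725392)) (l 16742496))) (b (b (l 16755184) (l 16757736)) (b (l 16750288) (l 16732032)))) (b (b (b (l 16702952) (b (l 16675616) (l 16677080))) (a (b (b (l 16636656) (l 16618528)) (l 1)) (l 6))) (l 1))) (b (b (b (l 6) (l 6)) (l 6)) (b (l 6) (l 6))))) (b (b (l 6) (l 6)) (l 6))), by decide +kernel⟩

theorem s6_pm_112_s : ∃ t, chk3 f_pm_112_s t 10 2 1 = true := ex3_b k1_pm_112_s k2_pm_112_s

theorem s7_pm_112_s : ∃ t, chk3 f_pm_112_s t 5 2 1 = true := ex3_a s6_pm_112_s k3_pm_112_s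

theorem s8_pm_112_s : ∃ t, chk3 f_pm_112_s t 2 2 1 = true := ex3_a k0_pm_112_s s7_pm_112_s

theorem s9_pm_112_s : ∃ t, chk3 f_pm_112_s t 2 1 1 = true := ex3_b s8_pm_112_s k4_pm_112_s

theorem s10_pm_112_s : ∃ t, chk3 f_pm_112_s t 1 1 1 = true := ex3_a s9_pm_112_s k5_pm_112_s

theorem c_pm_112_s : CertNE 536870912 536870912 536870912 536870912 587336777 62277027 3 eng mog cd0q1 cd0q1 pd2 true true false .dn 1 1 2
    ndB0q1 ndB0q1 pcB2 cut_pm_112_s Ext.none :=
  certNE2 (fam := true) (s1 := true) (s2 := false) (a := 1) (b := 1) (c := 2) (cn := .dn) (n1 := ndB0q1) (n2 := ndB0q1) (pc := pcB2) (cut := cut_pm_112_s) (xt := Ext.none) (P1 := 536870912) (W1 := 536870912) (P2 := 536870912) (W2 := 536870912) (P3 := 587336777) (W3 := 62277027) (N0 := 3) (En := eng) (mo := mog) (C1 := cd0q1) (C2 := cd0q1) (C3 := pd2)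
    rfl (fun _ => rfl) s10_pm_112_s

noncomputable def cut_pm_112_t : Cut := Cut.of [[⟨3, 0, 0, 2845415833⟩]]

noncomputable def f_pm_112_t : ℕ → ℕ → ℕ → ℕ → Bool := onCell 536870912 536870912 1073741824 536870912 587336777 62277027
    (rowNE 3 eng mog cd0q1 cd0q1 pd2 1 true true false .dn 1 1 2 (qsf 536870912 536870912 536870912 536870912 2) ndB0q1 ndB0q1 pcB2 cut_pm_112_t Ext.none)

def k0_pm_112_t : ∃ t, chk3 f_pm_112_t t 1 1 1 = true :=
  ⟨(l 6), by decide +kernel⟩

theorem c_pm_112_t : CertNE 536870912 536870912 536870912 536870912 587336777 62277027 3 eng mog cd0q1 cd0q1 pd2 true true false .dn 1 1 2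
    ndB0q1 ndB0q1 pcB2 cut_pm_112_t Ext.none :=
  certNE1 (fam := true) (s1 := true) (s2 := false) (a := 1) (b := 1) (c := 2) (cn := .dn) (n1 := ndB0q1) (n2 := ndB0q1) (pc := pcB2) (cut := cut_pm_112_t) (xt := Ext.none) (P1 := 536870912) (W1 := 536870912) (P2 := 536870912) (W2 := 536870912) (P3 := 587336777) (W3 := 62277027) (N0 := 3) (En := eng) (mo := mog) (C1 := cd0q1) (C2 := cd0q1) (C3 := pd2)
    rfl (fun _ => rfl) k0_pm_112_t

noncomputable def cut_pm_113_s : Cut := Cut.of [[⟨4, 0, 0, 1449551462⟩], [⟨0, 1, 0, 67108864⟩, ⟨1, 1, 0, 67108864⟩, ⟨2, 2, 0, 16777216⟩], [⟨0, 0, 1, 20971520⟩, ⟨1, 1, 0, 29360128⟩, ⟨2, 1, 1, 20971520⟩], [⟨0, 1, 0, 29360128⟩, ⟨1, 0, 1, 20971520⟩, ⟨2, 1, 1, 20971520⟩]]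

noncomputable def f_pm_113_s : ℕ → ℕ → ℕ → ℕ → Bool := onCell 1610612736 536870912 536870912 536870912 587336777 62277027
    (rowNE 3 eng mog cd0q1 cd0q1 pd3 2 true true false .nn 1 1 3 (qsf 536870912 536870912 536870912 536870912 3) ndB0q1 ndB0q1 pcB3 cut_pm_113_s Ext.none)

def k0_pm_113_s : ∃ t, chk3 f_pm_113_s t 1 1 1 = true :=
  ⟨(a (b (a (l 6) (l 6)) (l 6)) (l 6)), by decide +kernel⟩

theorem c_pm_113_s : CertNE 536870912 536870912 536870912 536870912 587336777 62277027 3 eng mog cd0q1 cd0q1 pd3 true true false .nn 1 1 3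
    ndB0q1 ndB0q1 pcB3 cut_pm_113_s Ext.none :=
  certNE2 (fam := true) (s1 := true) (s2 := false) (a := 1) (b := 1) (c := 3) (cn := .nn) (n1 := ndB0q1) (n2 := ndB0q1) (pc := pcB3) (cut := cut_pm_113_s) (xt := Ext.none) (P1 := 536870912) (W1 := 536870912) (P2 := 536870912) (W2 := 536870912) (P3 := 587336777) (W3 := 62277027) (N0 := 3) (En := eng) (mo := mog) (C1 := cd0q1) (C2 := cd0q1) (C3 := pd3)
    rfl (fun _ => rfl) k0_pm_113_s

noncomputable def cut_pm_113_t : Cut := Cut.of [[⟨3, 0, 0, 2845415833⟩], [⟨0, 1, 0, 67108864⟩, ⟨1, 1, 0, 67108864⟩, ⟨2, 2, 0, 16777216⟩], [⟨0, 0, 1, 20971520⟩, ⟨1, 1, 0, 29360128⟩, ⟨2, 1, 1, 20971520⟩], [⟨0, 1, 0, 29360128⟩, ⟨1, 0, 1, 20971520⟩, ⟨2, 1, 1, 20971520⟩]]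

noncomputable def f_pm_113_t : ℕ → ℕ → ℕ → ℕ → Bool := onCell 536870912 536870912 536870912 536870912 587336777 62277027
    (rowNE 3 eng mog cd0q1 cd0q1 pd3 0 true true false .nn 1 1 3 (qsf 536870912 536870912 536870912 536870912 3) ndB0q1 ndB0q1 pcB3 cut_pm_113_t Ext.none)

def k0_pm_113_t : ∃ t, chk3 f_pm_113_t t 2 1 1 = true :=
  ⟨(l 6), by decide +kernel⟩

def k1_pm_113_t : ∃ t, chk3 f_pm_113_t t 3 2 1 = true :=
  ⟨(l 6), by decide +kernel⟩

def k2_pm_113_t : ∃ t, chk3 f_pm_113_t t 6 3 1 = true :=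
  ⟨(b (l 6) (b (l 6) (a (l 6) (b (l 6) (a (l 6) (b (l 6) (a (l 6) (b (l 6) (l 16855688))))))))), by decide +kernel⟩

def k3_pm_113_t : ∃ t, chk3 f_pm_113_t t 7 6 1 = true :=
  ⟨(a (l 6) (b (l 6) (a (l 6) (b (l 6) (a (l 6) (b (l 6) (a (l 6) (l 16855688)))))))), by decide +kernel⟩

def k4_pm_113_t : ∃ t, chk3 f_pm_113_t t 14 7 1 = true :=
  ⟨(b (l 6) (a (b (l 6) (b (a (l 16875160) (l 16873480)) (b (a (l 16863512) (l 16861048)) (a (l 16855008) (l 16852064))))) (b (b (l 16901792) (a (l 16886448) (l 16879592))) (b (b (l 16870272) (l 16861296)) (b (a (l 16855864) (l 16806160)) (a (l 16846520) (b (l 16841096) (l 16835976)))))))), by decide +kernel⟩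

def k5_pm_113_t : ∃ t, chk3 f_pm_113_t t 15 7 1 = true :=
  ⟨(b (b (a (l 6) (a (b (l 16875160) (l 16873480)) (a (b (l 16863512) (l 16861048)) (b (l 16855008) (l 16852064))))) (a (a (l 16901792) (b (l 16886448) (l 16879592))) (a (a (l 16870272) (l 16861296)) (a (b (l 16855864) (l 16806160)) (b (l 16846520) (a (l 16841096) (l 16835976))))))) (a (b (b (l 16847800) (a (l 16870008) (l 16858184))) (b (b (a (l 16856520) (l 16844496)) (a (l 16847544) (a (l 16838792) (l 16832336)))) (a (b (l 16838200) (b (l 16831064) (l 16825872))) (b (b (l 16828880) (l 16824104)) (b (l 16819264) (a (l 16817184) (l 16810992))))))) (b (a (a (b (l 16856520) (l 16844496)) (b (l 16847544) (b (l 16838792) (l 16832336)))) (b (a (l 16838200) (a (l 16831064) (l 16825872))) (a (a (l 16828880) (l 16824104)) (a (l 16819264) (b (l 16817184) (l 16810992)))))) (b (a (b (l 16829768) (l 16821752)) (a (b (a (l 16818824) (l 16814288)) (a (l 16811504) (b (l 16808968) (l 16805280)))) (b (a (l 16809464) (a (l 16805768) (l 16803064))) (a (a (l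 16803728) (l 16801312)) (a (l 16798856) (b (l 16797960) (l 16794504))))))) (a (b (a (b (l 16818824) (l 16814288)) (b (l 16811504) (a (l 16808968) (l 16805280)))) (a (b (l 16809464) (b (l 16805768) (l 16803064))) (b (b (l 16803728) (l 16801312)) (b (l 16798856) (a (l 16797960) (l 16794504)))))) (b (a (l 16791256) (a (a (b (l 16798240) (l 16794432)) (b (l 16795960) (a (l 16792808) (l 16791688)))) (b (a (l 16793536) (c (l 16780568) (l 16791024))) (a (b (l 16790832) (l 14)) (l 14))))) (a (b (a (b (l 16798240) (l 16795960)) (b (l 16794432) (a (l 16793192) (l 16791296)))) (a (b (l 16793536) (c (l 16780568) (l 16791024))) (b (a (l 16790832) (l 14)) (l 14)))) (b (a (l 16784248) (l 14)) (l 14))))))))), by decide +kernel⟩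

theorem s6_pm_113_t : ∃ t, chk3 f_pm_113_t t 7 7 1 = true := ex3_a k4_pm_113_t k5_pm_113_t

theorem s7_pm_113_t : ∃ t, chk3 f_pm_113_t t 7 3 1 = true := ex3_b k3_pm_113_t s6_pm_113_t

theorem s8_pm_113_t : ∃ t, chk3 f_pm_113_t t 3 3 1 = true := ex3_a k2_pm_113_t s7_pm_113_t

theorem s9_pm_113_t : ∃ t, chk3 f_pm_113_t t 3 1 1 = true := ex3_b k1_pm_113_t s8_pm_113_t

theorem s10_pm_113_t : ∃ t, chk3 f_pm_113_t t 1 1 1 = true := ex3_a k0_pm_113_t s9_pm_113_t

theorem c_pm_113_t : CertNE 536870912 536870912 536870912 536870912 587336777 62277027 3 eng mog cd0q1 cd0q1 pd3 true true false .nn 1 1 3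
    ndB0q1 ndB0q1 pcB3 cut_pm_113_t Ext.none :=
  certNE0 (fam := true) (s1 := true) (s2 := false) (a := 1) (b := 1) (c := 3) (cn := .nn) (n1 := ndB0q1) (n2 := ndB0q1) (pc := pcB3) (cut := cut_pm_113_t) (xt := Ext.none) (P1 := 536870912) (W1 := 536870912) (P2 := 536870912) (W2 := 536870912) (P3 := 587336777) (W3 := 62277027) (N0 := 3) (En := eng) (mo := mog) (C1 := cd0q1) (C2 := cd0q1) (C3 := pd3)
    rfl s10_pm_113_t

noncomputable def cut_pm_123_s : Cut := Cut.of [[⟨4, 0, 0, 1449551462⟩], [⟨0, 1, 0, 67108864⟩, ⟨1, 1, 0, 67108864⟩, ⟨2, 2, 0, 16777216⟩], [⟨0, 0, 1, 20971520⟩, ⟨1, 1, 0, 29360128⟩, ⟨2, 1, 1, 20971520⟩]]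

noncomputable def f_pm_123_s : ℕ → ℕ → ℕ → ℕ → Bool := onCell 536870912 536870912 0 536870912 587336777 62277027
    (rowNE 3 eng mog cd0q1 cd0q2 pd3 0 true true false .npn 1 2 3 (qsf 536870912 536870912 0 536870912 3) ndB0q1 ndB0q2 pcB3 cut_pm_123_s Ext.none)

def k0_pm_123_s : ∃ t, chk3 f_pm_123_s t 1 1 1 = true :=
  ⟨(l 6), by decide +kernel⟩

theorem c_pm_123_s : CertNE 536870912 536870912 0 536870912 587336777 62277027 3 eng mog cd0q1 cd0q2 pd3 true true false .npn 1 2 3
    ndB0q1 ndB0q2 pcB3 cut_pm_123_s Ext.none :=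
  certNE0 (fam := true) (s1 := true) (s2 := false) (a := 1) (b := 2) (c := 3) (cn := .npn) (n1 := ndB0q1) (n2 := ndB0q2) (pc := pcB3) (cut := cut_pm_123_s) (xt := Ext.none) (P1 := 536870912) (W1 := 536870912) (P2 := 0) (W2 := 536870912) (P3 := 587336777) (W3 := 62277027) (N0 := 3) (En := eng) (mo := mog) (C1 := cd0q1) (C2 := cd0q2) (C3 := pd3)
    rfl k0_pm_123_s

end Pool.Agent.Strip051.G.I5470_6050.Tab.CS.BA00

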