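import Pool.Agent.Strip051.G.I5470_6050.StH
import Pool.Agent.Strip051.G.I5470_6050.StF

/-! # Unit strips 24 (generated) -/

set_option linter.all false
set_option maxRecDepth 100000

namespace Pool.Agent.Strip051.G.I5470_6050.Tab.St.C

open Pool.Agent.Strip051.PB Pool.Agent.Strip051.PB.T Pool.Agent.StripNear Pool.Agent.Strip051.LC
open Pool.Agent.Strip051.G.I5470_6050.Tab Pool.Agent.Strip051.G.I5470_6050.Tab.St

noncomputable def cut_B00pp_012_s1 : Cut := Cut.of [[⟨4, 0, 0, 1449551462⟩], [⟨0, 0, 0, 44739242⟩, ⟨1, 1, 0, 44739242⟩, ⟨2, 1, 0, 44739242⟩]]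

noncomputable def xt_B00pp_012_s1 : Ext := strExt0 dd false true true .u0 .u2 .u0m .pnp 0 1 2 rfl rfl gf1 vv ww kz ndB0q0 ndB0q2

noncomputable def f_B00pp_012_s1 : ℕ → ℕ → ℕ → ℕ → Bool := onCell 536870912 536870912 0 536870912 587336777 62277027
    (rowF 2 false true true .pnp 0 1 2 (qsf 0 536870912 0 536870912 1) ndB0q0 ndB0q2 pcB1 cut_B00pp_012_s1 xt_B00pp_012_s1)

def k0_B00pp_012_s1 : ∃ t, chk3 f_B00pp_012_s1 t 4 2 1 = true :=
  ⟨(b (l 2) (l 3)), by decide +kernel⟩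

def k1_B00pp_012_s1 : ∃ t, chk3 f_B00pp_012_s1 t 10 4 1 = true :=
  ⟨(b (a (a (l 2) (a (l 2) (a (l 2) (b (b (l 16731544) (l 16741760)) (b (l 16752000) (l 1069103631)))))) (b (a (a (b (l 16728080) (l 16738248)) (l 16728568)) (l 16732224)) (b (a (a (b (l 16745880) (l 16750944)) (b (l 16741176) (l 16746200))) (a (l 16739024) (l 16734320))) (a (a (l 1069143055) (l 16774680)) (a (b (l 16767448) (l 16751424)) (b (l 16741776) (c (l 16747672) (l 16745624)))))))) (a (a (l 2) (b (a (l 2) (b (b (l 1069109775) (l 1069121551)) (l 1069136399))) (l 3))) (b (a (b (b (l 1069179919) (l 1069187087)) (l 1069195279)) (a (b (c (l 16769728) (l 16768624)) (c (l 1069367311) (l 1069107215))) (b (c (l 16754624) (l 16753144)) (b (l 1069250063) (l 1069240847))))) (b (a (c (b (l 1069320719) (l 3)) (l 1069078031)) (c (a (c (l 1069416975) (l 1069287951)) (b (l 1069370383) (l 1069328399))) (c (l 1069158927) (l 1069027343)))) (a (l 3) (a (l 3) (l 1069115407))))))), by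 decide +kernel⟩

def k2_B00pp_012_s1 : ∃ t, chk3 f_B00pp_012_s1 t 11 4 1 = true :=
  ⟨(b (a (a (b (c (l 16714984) (l 16710184)) (b (l 16727200) (a (c (a (l 16741880) (l 16739576)) (l 16738152)) (l 16734520)))) (b (l 16724160) (b (l 16717504) (l 16748048)))) (a (b (l 16714608) (b (l 16707624) (l 16758936))) (b (l 16683760) (c (l 16705328) (l 16698712))))) (a (a (b (b (c (a (b (a (l 16748848) (l 16746520)) (l 16752256)) (b (a (l 16744200) (l 16741840)) (c (l 16758600) (l 16746968)))) (a (b (l 16745528) (l 16750496)) (b (l 16740464) (l 16745224)))) (c (a (l 16769504) (l 16754280)) (a (l 16778712) (l 16752528)))) (b (c (b (l 1069350927) (l 1069314063)) (l 1068997647)) (l 1069077519))) (b (a (b (c (b (l 16738288) (l 16753304)) (l 16737632)) (b (a (l 16747296) (a (l 16745352) (l 16744088))) (l 16750640))) (b (l 16733960) (c (b (l 16752936) (c (l 16747504) (l 16746112))) (b (l 16739368) (l 16743968))))) (b (c (l 1069298703) (l 1068897295)) (l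 1069006351)))) (b (a (c (b (l 16728504) (a (b (l 16737536) (l 16752424)) (l 16734784))) (a (b (l 16726696) (l 16736264)) (l 16725936))) (b (l 16715672) (l 16745568))) (b (b (a (c (a (c (l 16747008) (l 16745464)) (l 16762256)) (a (l 16743088) (l 16737592))) (l 16731200)) (a (a (l 16749296) (a (l 16745248) (l 16742488))) (c (a (l 16740408) (l 16735008)) (l 16754576)))) (a (a (l 1068940815) (l 1068887567)) (a (a (l 16746584) (b (l 16741424) (l 16746048))) (b (l 16758224) (c (l 16743536) (l 16739736))))))))), by decide +kernel⟩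

def k3_B00pp_012_s1 : ∃ t, chk3 f_B00pp_012_s1 t 5 5 1 = true :=
  ⟨(a (l 3) (b (a (b (a (b (l 1068982799) (l 3)) (b (l 1068908559) (b (l 1068833295) (l 3)))) (l 3)) (b (a (a (b (c (l 1069083663) (l 1068587023)) (c (l 1068977167) (b (l 1068498447) (l 1068424207)))) (b (c (l 1069033999) (l 1068507151)) (b (l 1068669455) (l 1068537871)))) (b (a (l 1068687887) (l 16759112)) (b (l 1068504591) (l 1068374031)))) (a (a (a (l 3) (l 1068255247)) (a (l 1068196367) (l 1068140047))) (b (l 1068156431) (c (l 1068139535) (l 1067593231)))))) (l 3))), by decide +kernel⟩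

def k4_B00pp_012_s1 : ∃ t, chk3 f_B00pp_012_s1 t 2 3 1 = true :=
  ⟨(l 3), by decide +kernel⟩

def k5_B00pp_012_s1 : ∃ t, chk3 f_B00pp_012_s1 t 6 4 1 = true :=
  ⟨(a (b (a (a (b (b (c (l 16673352) (l 16664304)) (l 16677712)) (l 16712120)) (b (b (l 16657992) (l 16666488)) (l 16679696))) (b (a (b (l 16646464) (l 16654944)) (l 16638736)) (b (a (l 16663328) (l 16651184)) (a (l 16672008) (l 16659472))))) (b (a (a (c (l 16711992) (l 16705864)) (l 16739096)) (a (l 16684848) (l 16672088))) (a (a (b (l 16763904) (a (b (l 16731416) (l 16735896)) (l 16727704))) (b (l 16709968) (l 16718552))) (a (b (l 16697448) (l 16705912)) (l 16688632))))) (b (a (b (l 16662344) (a (l 16642808) (l 16629944))) (b (l 6) (l 16610760))) (b (a (a (l 16658984) (l 16645824)) (b (l 16622192) (l 16629904))) (a (b (l 16664336) (l 16672376)) (b (l 16721328) (l 16645136)))))), by decide +kernel⟩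

def k6_B00pp_012_s1 : ∃ t, chk3 f_B00pp_012_s1 t 12 5 1 = true :=
  ⟨(b (a (b (a (b (a (b (c (l 16742208) (l 16738376)) (l 16744944)) (b (l 16734376) (l 16749280))) (c (l 1068528655) (l 1067994639))) (b (a (b (l 16728208) (l 16732696)) (l 16724168)) (a (b (l 16758096) (l 16741744)) (b (l 16730856) (l 16756272))))) (a (b (l 1067979791) (c (l 1067959823) (l 1067431439))) (a (b (l 1067872271) (l 1067590159)) (b (l 16742456) (l 1067534863))))) (b (a (b (l 16714536) (a (l 16747592) (l 16720032))) (b (l 16701248) (l 16709896))) (b (a (a (c (l 16758296) (l 16755344)) (b (l 16726872) (l 16731640))) (a (l 16722480) (l 16715504))) (a (a (l 16756464) (l 16739224)) (a (b (l 16729832) (l 16734976)) (l 16746360)))))) (a (b (a (b (a (b (l 1067520015) (l 3)) (b (l 1067445775) (b (l 1067340815) (a (l 3) (a (l 3) (l 1067248143)))))) (l 3)) (b (a (a (b (l 1067396623) (b (l 1067293199) (l 1067226639))) (b (l 1067368463) (l 1067234831))) (b (l 1067334159)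 (l 1067212303))) (a (b (l 1067137039) (l 3)) (l 1067043855)))) (l 3)) (b (a (b (b (l 1067279375) (l 1067161103)) (l 1066996239)) (b (a (l 1067173903) (l 16735984)) (l 1066935311))) (a (b (a (b (l 1066849807) (a (l 3) (l 1066737167))) (l 1066769423)) (a (l 3) (b (l 1066615311) (l 3)))) (b (l 1067800079) (a (b (l 1066590735) (l 1066491407)) (b (l 1066561039) (l 1066463759)))))))), by decide +kernel⟩

def k7_B00pp_012_s1 : ∃ t, chk3 f_B00pp_012_s1 t 13 5 1 = true :=
  ⟨(b (a (a (b (l 16733640) (a (l 16755256) (l 16706232))) (b (l 16698784) (a (l 16699144) (l 16692040)))) (a (b (l 16705888) (b (l 16676760) (l 16686184))) (b (l 16692160) (b (l 16662808) (l 16672072))))) (a (b (a (a (b (l 16749792) (l 16755776)) (b (l 16742632) (l 16753728))) (b (a (l 16714416) (l 16707184)) (a (b (l 16722656) (l 16728288)) (l 16718152)))) (a (a (b (l 1066682895) (l 1066485263)) (b (l 1066658319) (a (l 1066467855) (l 1066457103)))) (a (b (l 1066638351) (l 1066444303))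 (b (b (l 16726656) (l 16732488)) (l 1066433039))))) (b (b (a (a (l 16699952) (l 16692752)) (a (l 16685600) (l 16678512))) (a (a (l 16710808) (l 16703504)) (a (l 16696248) (l 16689056)))) (b (a (a (l 16743120) (l 16714760)) (a (l 16707384) (l 16700080))) (a (a (l 1066428943) (c (l 16747976) (l 16746824))) (a (l 16718944) (l 16711536))))))), by decide +kernel⟩

def k8_B00pp_012_s1 : ∃ t, chk3 f_B00pp_012_s1 t 7 4 1 = true :=
  ⟨(b (l 6) (a (b (a (l 16600200) (l 6)) (a (b (l 16611264) (l 16702584)) (l 16590464))) (l 6))), by decide +kernel⟩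

def k9_B00pp_012_s1 : ∃ t, chk3 f_B00pp_012_s1 t 14 5 1 = true :=
  ⟨(b (b (a (a (l 16678736) (l 16665776)) (b (l 16601800) (l 16630536))) (a (a (b (l 16649176) (l 16700216)) (b (l 16636064) (l 16645008))) (a (l 16649024) (a (l 16640600) (l 16656752))))) (b (b (a (a (c (l 16689880) (l 16667400)) (c (l 16655104) (l 16654352))) (a (l 16662856) (l 16641936))) (a (a (a (l 16681960) (l 16674976)) (a (l 16668152) (l 16661488))) (a (a (l 16655008) (l 16649472)) (b (l 16638800) (a (l 16646552) (l 16641040)))))) (a (a (b (a (l 16692880) (l 16685792)) (a (l 16704224) (l 16697032))) (a (b (l 16678856) (l 16689976)) (b (l 16682560) (a (l 16684784) (l 16681536))))) (a (a (b (a (l 16667264) (l 16664376)) (b (l 16674128) (l 16679760))) (b (a (l 16671976) (l 16663856)) (a (c (l 16672128) (l 16672456)) (c (l 16674440) (b (l 16666632) (l 16672024)))))) (c (b (a (a (l 16655528) (l 16652760)) (a (l 16650008) (l 16647248))) (a (b (a (l 16663544) (l 16660664))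 (a (l 16668976) (l 16666024))) (a (b (l 16657800) (l 16663080)) (b (l 16654928) (l 16660136))))) (b (b (a (l 16651648) (l 16645752)) (a (l 16656792) (l 16650776))) (b (a (l 16662016) (l 16655864)) (a (a (l 16668880) (l 16665736)) (a (l 16662600) (l 16659464)))))))))), by decide +kernel⟩

def k10_B00pp_012_s1 : ∃ t, chk3 f_B00pp_012_s1 t 15 5 1 = true :=
  ⟨(b (b (a (a (l 16589392) (l 6)) (l 6)) (a (a (a (l 16609856) (l 16604816)) (l 16586720)) (a (a (l 16589496) (l 6)) (l 6)))) (a (b (b (a (l 16621168) (c (l 16652936) (l 16630440))) (a (a (a (l 16634488) (l 16631752)) (l 16627640)) (b (l 16638152) (l 16621616)))) (b (a (b (a (l 16640376) (l 16634696)) (a (l 16645304) (l 16639504))) (a (b (l 16629008) (l 16633696)) (l 16636104))) (a (b (a (b (l 16649048) (l 16651560)) (b (l 16643144) (l 16645600))) (a (b (a (l 16655608) (l 16652592)) (a (l 16658176) (l 16655128))) (c (b (l 16648592) (l 16651088)) (b (l 16647288) (l 16649784))))) (a (a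 (b (l 16639936) (l 16644792)) (b (l 16636976) (l 16641784))) (b (l 16632552) (a (l 16638776) (l 16635776))))))) (b (a (b (l 16599464) (a (l 16611008) (l 16605328))) (b (l 16588552) (a (l 16599688) (l 16594064)))) (a (b (a (l 16619888) (l 16635152)) (a (b (l 16626664) (l 16631280)) (b (l 16620792) (l 16625320)))) (b (a (l 16608336) (l 16602560)) (a (l 16617184) (l 16632264))))))), by decide +kernel⟩

def k11_B00pp_012_s1 : ∃ t, chk3 f_B00pp_012_s1 t 12 6 1 = true :=
  ⟨(b (a (l 3) (b (a (l 3) (a (l 3) (a (l 3) (b (b (a (l 1066363919) (l 1066354703)) (l 3)) (l 3))))) (l 3))) (l 3)), by decide +kernel⟩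

def k12_B00pp_012_s1 : ∃ t, chk3 f_B00pp_012_s1 t 26 12 1 = true :=
  ⟨(b (b (a (c (b (a (l 1066488847) (l 1066458639)) (a (b (a (l 1066424847) (l 1066409487)) (a (l 3) (l 1066362895))) (b (l 1066387983) (l 1066341903)))) (b (a (b (l 1066222607) (l 1066172431)) (l 1066183183)) (a (a (b (b (l 1066139151) (l 3)) (l 3)) (b (b (l 1066130959) (l 1066106383)) (c (l 1066138639) (l 1066003471)))) (b (a (l 1066112015) (l 1066107919)) (l 1066061839))))) (b (a (l 1066299919) (l 1066291215)) (a (l 1066205711) (l 1066198543)))) (a (b (a (l 3) (c (b (l 1066296847) (a (l 3) (l 1066246671))) (b (a (c (l 1066083855) (l 1065951247)) (l 1066012687)) (a (l 3) (c (l 1066032143) (a (l 1065903631) (l 1065904143))))))) (l 3)) (a (b (a (b (l 1066140175) (l 1066095119)) (l 1066113039)) (a (b (a (b (l 1066062863) (l 3)) (l 1066049551)) (l 3)) (b (l 1066046991) (c (l 1066141199) (a (l 1065878031) (l 1065879567)))))) (b (l 1066109455) (a (l 1066023439) (l 1066023439))))))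 (a (l 3) (b (a (b (a (l 3) (a (l 3) (a (l 3) (b (b (l 1065971215) (l 3)) (l 3))))) (l 3)) (b (a (b (a (c (l 1066094607) (l 1065839119)) (l 1065960463)) (a (l 3) (b (l 1065728015) (l 3)))) (b (l 1065960975) (a (l 1065651215) (l 1065921039)))) (a (l 3) (b (a (a (l 3) (b (l 1065889807) (l 3))) (c (l 1066007055) (l 1065767951))) (l 3))))) (l 3)))), by decide +kernel⟩

def k13_B00pp_012_s1 : ∃ t, chk3 f_B00pp_012_s1 t 27 12 1 = true :=
  ⟨(b (a (b (a (l 1066243599) (l 1066251279)) (a (b (l 1066111503) (l 1066026511)) (l 1066616335))) (a (b (l 1066266639) (l 1066099727)) (b (l 16739080) (l 1066130447)))) (a (a (b (b (a (l 1065943055) (l 1065947663)) (a (a (b (l 1065882639) (b (a (l 3) (l 1065853967)) (l 3))) (c (l 1065984527) (l 1065759247))) (a (l 1065867791) (l 1065870863)))) (a (l 3) (b (a (b (b (l 1066088463) (l 3)) (l 3)) (b (a (b (l 1065822735) (b (l 1065808911) (l 3))) (b (l 1065824783) (c (l 1065918991) (l 1065707535)))) (a (l 3) (c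 (l 1065899023) (l 1065684495))))) (l 3)))) (b (a (b (l 1065954319) (a (l 1065874447) (l 1065879567))) (b (l 1065963535) (l 1065889807))) (a (b (a (b (b (l 1065828367) (l 1065810447)) (l 1065789967)) (b (l 1065825807) (l 1065797647))) (a (l 3) (c (l 1065864719) (l 1065661455)))) (b (b (l 1065835535) (l 1065809423)) (l 1065767439))))) (b (a (b (l 1065983503) (l 1065912335)) (l 1066521103)) (a (a (b (l 1065841167) (l 1065784847)) (l 1066368527)) (a (l 1065852431) (l 1065874447)))))), by decide +kernel⟩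

def k14_B00pp_012_s1 : ∃ t, chk3 f_B00pp_012_s1 t 13 13 1 = true :=
  ⟨(a (l 3) (a (l 3) (b (b (b (a (a (c (l 1065827343) (l 1065649167)) (l 1065749519)) (l 1065780751)) (a (l 3) (l 1065728015))) (a (l 3) (l 1065650703))) (l 3)))), by decide +kernel⟩

def k15_B00pp_012_s1 : ∃ t, chk3 f_B00pp_012_s1 t 6 7 1 = true :=
  ⟨(l 3), by decide +kernel⟩

def k16_B00pp_012_s1 : ∃ t, chk3 f_B00pp_012_s1 t 14 12 1 = true :=
  ⟨(a (b (a (b (a (l 16715952) (l 16708656)) (a (l 16748944) (l 16731072))) (b (a (l 16701472) (a (l 16696376) (l 16693144))) (a (l 16713448) (l 16706656)))) (b (a (a (l 1066030607) (l 1066084367)) (a (l 16746560) (b (l 16715688) (l 16721696)))) (a (a (l 1065910287) (l 1065965583)) (l 1066629647)))) (b (a (b (b (a (l 16685448) (a (l 16680728) (c (l 16677496) (l 16677488)))) (a (l 16691200) (a (l 16686368) (c (l 16683112) (l 16683016))))) (a (a (l 16701616) (l 16698280)) (a (l 16689712) (b (l 16688800) (l 16694480))))) (b (a (b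 (c (a (l 16674464) (l 16671432)) (a (l 16674272) (l 16671072))) (a (a (l 16680776) (l 16679184)) (a (l 16677592) (l 16676000)))) (a (b (c (l 16668416) (l 16667872)) (c (l 16673808) (l 16673208))) (b (b (l 16663840) (l 16666472)) (c (l 16670712) (l 16669960))))) (a (b (a (l 16685536) (l 16682288)) (a (l 16691160) (l 16687840))) (a (b (c (l 16679248) (l 16678624)) (c (l 16684752) (l 16684112))) (b (c (l 16676088) (l 16675320)) (c (l 16681520) (l 16680744))))))) (a (b (a (a (l 16713488) (l 16710032)) (b (l 16701928) (l 16707752))) (a (b (l 16720672) (l 16726544)) (b (l 16713624) (l 16719488)))) (b (a (a (b (l 16696832) (l 16702552)) (b (l 16693448) (l 16699112))) (b (a (l 16690080) (l 16686728)) (a (l 16695688) (l 16692272)))) (a (b (l 16706576) (l 16712368)) (a (l 16704208) (b (l 16697872) (l 16703528)))))))), by decide +kernel⟩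

def k17_B00pp_012_s1 : ∃ t, chk3 f_B00pp_012_s1 t 14 13 1 = true :=
  ⟨(a (b (a (a (b (a (l 1066326543) (l 1065815567)) (l 1065697807)) (l 1066875407)) (a (l 1068012047) (l 1067573263))) (a (a (l 3) (b (l 1065656847) (l 3))) (b (l 1068438031) (l 1065713679)))) (b (a (b (a (l 16756304) (l 16728232)) (l 1066053135)) (b (a (b (l 16718168) (l 16723984)) (b (l 16700520) (l 16716744))) (a (l 16732608) (b (l 16722520) (l 16728232))))) (a (b (l 1065950223) (l 1065865743)) (b (l 1067433487) (l 1067608591))))), by decide +kernel⟩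

def k18_B00pp_012_s1 : ∃ t, chk3 f_B00pp_012_s1 t 30 12 1 = true :=
  ⟨(b (b (a (b (a (a (b (l 16660760) (l 16663360)) (b (l 16657680) (l 16660248))) (c (a (l 16656360) (l 16653360)) (a (l 16655136) (l 16651976)))) (a (a (c (l 16667632) (l 16666720)) (c (l 16664552) (l 16663488))) (c (a (l 16661480) (l 16658416)) (a (l 16660264) (l 16657048))))) (a (c (b (a (l 16650368) (l 16647376)) (a (l 16655360) (l 16652312))) (b (a (l 16648816) (l 16645672)) (a (l 16653840) (l 16650648)))) (b (a (c (l 16644392) (l 16642536)) (l 16640544)) (a (c (l 16649264) (l 16647464)) (l 16645392))))) (a (a (b (a (c (l 16672936) (l 16672024)) (c (l 16669792) (l 16668736))) (a (c (l 16678304) (l 16677400)) (c (l 16675088) (l 16674064)))) (b (a (c (l 16666656) (l 16665464)) (c (l 16663528) (l 16662200))) (a (c (l 16671896) (l 16670736)) (c (l 16668704) (l 16667432))))) (a (b (a (c (l 16660416) (l 16658944)) (c (l 16657304) (l 16655704))) (b (a (l 16663648) (l 16660440))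 (a (l 16666240) (l 16663000)))) (a (b (c (l 16654208) (l 16652480)) (a (l 16659312) (l 16657712))) (b (l 16650312) (l 16655312)))))) (b (a (a (b (a (b (l 16682016) (l 16684744)) (b (l 16678704) (l 16681408))) (a (l 16688872) (l 16685496))) (b (a (b (l 16675408) (l 16678080)) (b (l 16672120) (l 16674768))) (a (b (l 16680768) (l 16683480)) (b (l 16677432) (l 16680112))))) (a (a (b (a (l 16670976) (l 16669336)) (l 16675440)) (b (a (l 16667704) (l 16666072)) (l 16672120))) (a (b (l 16663624) (l 16668808)) (b (l 16660376) (l 16665512))))) (b (a (a (a (l 16694424) (l 16690984)) (a (l 16687568) (l 16684168))) (a (b (l 16677760) (l 16680432)) (b (l 16671072) (l 16673704)))) (a (a (a (l 16700024) (l 16696536)) (b (l 16689968) (l 16692712))) (a (b (l 16683128) (l 16685832)) (b (l 16676352) (l 16679008))))))), by decide +kernel⟩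

def k19_B00pp_012_s1 : ∃ t, chk3 f_B00pp_012_s1 t 31 12 1 = true :=
  ⟨(a (b (a (b (a (b (l 16637504) (l 16642296)) (b (l 16634464) (l 16639216))) (a (b (l 16647176) (l 16652120)) (b (l 16644040) (l 16648944)))) (b (b (l 16629920) (l 16634600)) (a (l 16643352) (l 16640224)))) (b (a (b (a (l 16657144) (l 16653920)) (a (l 16662232) (l 16658968))) (b (l 16649104) (l 16654096))) (a (b (a (l 16667400) (l 16664088)) (l 16670952)) (b (l 16659152) (l 16664280))))) (b (a (b (a (l 16627712) (l 16624688)) (a (l 16637096) (l 16633984))) (b (l 16620160) (l 16629336))) (a (b (a (l 16646792) (l 16643600)) (b (l 16652616) (l 16657672))) (b (l 16638832) (l 16648632))))), by decide +kernel⟩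

def k20_B00pp_012_s1 : ∃ t, chk3 f_B00pp_012_s1 t 15 13 1 = true :=
  ⟨(a (b (a (b (a (b (a (l 16705664) (l 16702136)) (l 16699080)) (c (l 16699960) (a (l 16701000) (l 16697456)))) (a (b (l 16715264) (l 16720984)) (l 16710896))) (a (b (b (l 16689912) (l 16695400)) (l 16703736)) (b (b (l 16683032) (l 16688440)) (l 16696656)))) (a (b (a (l 16729568) (b (l 16719392) (l 16725104))) (l 1067705359)) (b (a (b (l 16712136) (l 16717768)) (l 16707752)) (a (l 16736768) (l 16718936))))) (a (b (a (b (b (l 16676216) (l 16681544)) (l 16689656)) (b (a (l 16673800) (l 16670424)) (l 16682728))) (b (b (l 16694320) (l 16699808)) (b (l 16705320) (l 16710736)))) (b (b (a (b (l 16662784) (l 16667960)) (l 16658720)) (a (l 16675864) (l 16669056))) (b (l 16698816) (l 16704256))))), by decide +kernel⟩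

def k21_B00pp_012_s1 : ∃ t, chk3 f_B00pp_012_s1 t 7 14 1 = true :=
  ⟨(a (a (l 3) (b (a (b (l 1066855951) (l 3)) (a (b (l 1065881615) (l 1065776143)) (b (l 1065936399) (l 1065823247)))) (a (l 3) (a (l 3) (b (l 1065701903) (l 3)))))) (a (b (b (a (l 1067605519) (b (l 16741456) (l 1067645967))) (a (b (l 1065908751) (l 1065843215)) (a (l 1065924623) (l 1066480655)))) (a (a (b (l 1065735183) (l 3)) (b (l 1065760271) (b (l 1065659919) (l 1065585167)))) (b (a (l 1066314255) (b (l 16754408) (l 1065760271))) (a (a (l 1065630735) (b (l 1065683471) (l 1065605135))) (b (b (l 1065705487) (l 1065665551)) (a (l 1066144271) (l 1067219983))))))) (b (a (b (a (l 16732976) (l 16714880)) (a (l 16743720) (b (l 16722928) (l 16728216)))) (b (b (l 16701280) (l 16706368)) (a (b (l 16715240) (l 16730992)) (l 16710296)))) (b (a (a (b (l 16741384) (l 1066304527)) (b (l 16733592) (l 16741640))) (a (a (l 16730432) (a (l 16737968) (l 16736056))) (b (a (l 16740904)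 (l 16716040)) (a (l 16725184) (l 16731768))))) (a (a (b (b (l 16753648) (l 1065671183)) (a (l 1067223055) (l 1067226127))) (b (a (l 16751720) (l 16742488)) (a (b (l 16750616) (l 16756016)) (b (l 16746600) (l 16749360))))) (a (a (b (l 16738496) (a (l 16744960) (l 16742936))) (b (l 16734496) (l 16739896))) (b (a (l 16730488) (l 16726488)) (a (l 16735832) (l 16731784))))))))), by decide +kernel⟩

def k22_B00pp_012_s1 : ∃ t, chk3 f_B00pp_012_s1 t 7 15 1 = true :=
  ⟨(a (l 3) (a (b (a (l 3) (b (a (b (a (l 1066059791) (a (l 1065528335) (l 1065529359))) (l 3)) (b (a (b (l 1065550863) (l 1065509903)) (l 1067673615)) (a (l 1068126735) (b (l 1066005519) (l 1066500111))))) (a (l 3) (a (l 3) (a (l 3) (b (l 1066435087) (l 3))))))) (l 3)) (a (b (b (a (b (b (a (l 1065556495) (l 1065559567)) (a (l 1065516047) (l 1065517583))) (a (a (l 1066525711) (l 1067063311)) (a (l 1067600399) (l 1067595791)))) (b (a (a (l 1066610191) (l 1067145231)) (b (l 16754744)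 (l 1067118095))) (b (a (l 1066542607) (a (l 16758720) (l 16756672))) (a (l 1067569167) (a (l 1065421327) (l 16762088)))))) (a (b (a (b (l 1065922063) (l 1066950671)) (b (l 1066992143) (a (l 1065343503) (l 1065340431)))) (a (l 3) (a (b (l 1065298447) (l 3)) (b (l 1065294863) (l 1066323983))))) (b (a (a (b (l 1065382415) (l 1065336335)) (b (l 1065378319) (l 1065868303))) (a (b (l 1065373199) (l 1065862671)) (b (l 1065904143) (l 1066393103)))) (a (a (b (l 1065827343) (l 1066855951)) (b (l 1066358799) (a (l 1065244687) (l 1065241615)))) (a (b (b (l 1065294351) (l 1065271311)) (b (l 1065248783) (l 14))) (b (b (l 1065288207) (l 14)) (l 14))))))) (a (l 3) (a (a (l 3) (b (l 14) (l 3))) (l 14)))) (b (a (b (a (b (a (l 16753088) (l 16748416)) (b (a (l 16754616) (l 16752560)) (a (l 16757408) (l 16755336)))) (b (a (l 16746368) (l 16744320)) (b (l 16752088) (a (l 16753264) (l 14))))) (a (b (b (a (l 1066435087) (l 16760752)) (b (a (l 16762320) (l 14))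 (l 14))) (l 14)) (l 14))) (b (b (a (a (l 16742264) (l 16740216)) (c (l 16737512) (l 16741976))) (a (b (l 16745328) (l 14)) (l 14))) (l 14))) (l 14))))), by decide +kernel⟩

theorem t23_B00pp_012_s1 : ∃ t, chk3 f_B00pp_012_s1 t 7 7 1 = true := ex3_b k21_B00pp_012_s1 k22_B00pp_012_s1

theorem t24_B00pp_012_s1 : ∃ t, chk3 f_B00pp_012_s1 t 15 12 1 = true := ex3_a k18_B00pp_012_s1 k19_B00pp_012_s1

theorem t25_B00pp_012_s1 : ∃ t, chk3 f_B00pp_012_s1 t 15 6 1 = true := ex3_b t24_B00pp_012_s1 k20_B00pp_012_s1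

theorem t26_B00pp_012_s1 : ∃ t, chk3 f_B00pp_012_s1 t 14 6 1 = true := ex3_b k16_B00pp_012_s1 k17_B00pp_012_s1

theorem t27_B00pp_012_s1 : ∃ t, chk3 f_B00pp_012_s1 t 7 6 1 = true := ex3_a t26_B00pp_012_s1 t25_B00pp_012_s1

theorem t28_B00pp_012_s1 : ∃ t, chk3 f_B00pp_012_s1 t 7 3 1 = true := ex3_b t27_B00pp_012_s1 t23_B00pp_012_s1

theorem t29_B00pp_012_s1 : ∃ t, chk3 f_B00pp_012_s1 t 13 12 1 = true := ex3_a k12_B00pp_012_s1 k13_B00pp_012_s1

theorem t30_B00pp_012_s1 : ∃ t, chk3 f_B00pp_012_s1 t 13 6 1 = true := ex3_b t29_B00pp_012_s1 k14_B00pp_012_s1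

theorem t31_B00pp_012_s1 : ∃ t, chk3 f_B00pp_012_s1 t 6 6 1 = true := ex3_a k11_B00pp_012_s1 t30_B00pp_012_s1

theorem t32_B00pp_012_s1 : ∃ t, chk3 f_B00pp_012_s1 t 6 3 1 = true := ex3_b t31_B00pp_012_s1 k15_B00pp_012_s1

theorem t33_B00pp_012_s1 : ∃ t, chk3 f_B00pp_012_s1 t 3 3 1 = true := ex3_a t32_B00pp_012_s1 t28_B00pp_012_s1

theorem t34_B00pp_012_s1 : ∃ t, chk3 f_B00pp_012_s1 t 7 5 1 = true := ex3_a k9_B00pp_012_s1 k10_B00pp_012_s1

theorem t35_B00pp_012_s1 : ∃ t, chk3 f_B00pp_012_s1 t 7 2 1 = true := ex3_b k8_B00pp_012_s1 t34_B00pp_012_s1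

theorem t36_B00pp_012_s1 : ∃ t, chk3 f_B00pp_012_s1 t 6 5 1 = true := ex3_a k6_B00pp_012_s1 k7_B00pp_012_s1

theorem t37_B00pp_012_s1 : ∃ t, chk3 f_B00pp_012_s1 t 6 2 1 = true := ex3_b k5_B00pp_012_s1 t36_B00pp_012_s1

theorem t38_B00pp_012_s1 : ∃ t, chk3 f_B00pp_012_s1 t 3 2 1 = true := ex3_a t37_B00pp_012_s1 t35_B00pp_012_s1

theorem t39_B00pp_012_s1 : ∃ t, chk3 f_B00pp_012_s1 t 3 1 1 = true := ex3_b t38_B00pp_012_s1 t33_B00pp_012_s1

theorem t40_B00pp_012_s1 : ∃ t, chk3 f_B00pp_012_s1 t 5 4 1 = true := ex3_a k1_B00pp_012_s1 k2_B00pp_012_s1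

theorem t41_B00pp_012_s1 : ∃ t, chk3 f_B00pp_012_s1 t 5 2 1 = true := ex3_b t40_B00pp_012_s1 k3_B00pp_012_s1

theorem t42_B00pp_012_s1 : ∃ t, chk3 f_B00pp_012_s1 t 2 2 1 = true := ex3_a k0_B00pp_012_s1 t41_B00pp_012_s1

theorem t43_B00pp_012_s1 : ∃ t, chk3 f_B00pp_012_s1 t 2 1 1 = true := ex3_b t42_B00pp_012_s1 k4_B00pp_012_s1

theorem t44_B00pp_012_s1 : ∃ t, chk3 f_B00pp_012_s1 t 1 1 1 = true := ex3_a t43_B00pp_012_s1 t39_B00pp_012_s1

theorem c_B00pp_012_s1 : CertF 0 536870912 0 536870912 587336777 62277027 false true true .pnp 0 1 2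
    ndB0q0 ndB0q2 pcB1 cut_B00pp_012_s1 xt_B00pp_012_s1 :=
  certF2 (fam := false) (s1 := true) (s2 := true) (a := 0) (b := 1) (c := 2) (cn := .pnp) (n1 := ndB0q0) (n2 := ndB0q2) (pc := pcB1) (cut := cut_B00pp_012_s1) (xt := xt_B00pp_012_s1) (P1 := 0) (W1 := 536870912) (P2 := 0) (W2 := 536870912) (P3 := 587336777) (W3 := 62277027)
    rfl (fun _ => rfl) t44_B00pp_012_s1

theorem s_B00pp_012_s1 {κ x : ℝ} (hκ : κ * h0 = ken x) (hx : ((587336777 : ℕ) : ℝ) / S ≤ x)
    (hx' : x ≤ (((587336777 : ℕ) : ℝ) + (62277027 : ℕ)) / S)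
    (H : CutB (VFD κ) PP tK tL pcB (Cut.of [[⟨0, 0, 0, 44739242⟩, ⟨1, 1, 0, 44739242⟩, ⟨2, 1, 0, 44739242⟩]]) 0 1 2 0 0 (sgb true) (sgb true) x) :
    AltB (VFD κ) PP tK tL pcB [⟨3, 0, 0, 1449551462⟩] 0 1 2 0 0 (sgb true) (sgb true) x :=
  strip_altBD (m := 1449551462) true rfl hκ (SH.κ0 hκ (SH.hx1 hx).le (SH.hx2 hx').le) (SH.hx1 hx).le (SH.hx2 hx') (covB00).cov (covB02).cov hx hx' c_B00pp_012_s1 H ((okx6 hx hx').ext0B (T := tt) (zx hx hx') (okx hx hx') (sideB hx hx') hκ rfl rfl (.O 0 true) (.O 2 true) (Or.inr rfl))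

noncomputable def cut_B00pp_012_s3 : Cut := Cut.of [[⟨3, 0, 0, 2845415833⟩], [⟨0, 0, 0, 44739242⟩, ⟨1, 1, 0, 44739242⟩, ⟨2, 1, 0, 44739242⟩]]

noncomputable def f_B00pp_012_s3 : ℕ → ℕ → ℕ → ℕ → Bool := onCell 0 536870912 0 536870912 587336777 62277027
    (rowF 0 false true true .pnp 0 1 2 (qsf 0 536870912 0 536870912 1) ndB0q0 ndB0q2 pcB1 cut_B00pp_012_s3 Ext.none)

def k0_B00pp_012_s3 : ∃ t, chk3 f_B00pp_012_s3 t 1 1 1 = true :=
  ⟨(l 6), by decide +kernel⟩

theorem c_B00pp_012_s3 : CertF 0 536870912 0 536870912 587336777 62277027 false true true .pnp 0 1 2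
    ndB0q0 ndB0q2 pcB1 cut_B00pp_012_s3 Ext.none :=
  certF0 (fam := false) (s1 := true) (s2 := true) (a := 0) (b := 1) (c := 2) (cn := .pnp) (n1 := ndB0q0) (n2 := ndB0q2) (pc := pcB1) (cut := cut_B00pp_012_s3) (xt := Ext.none) (P1 := 0) (W1 := 536870912) (P2 := 0) (W2 := 536870912) (P3 := 587336777) (W3 := 62277027)
    rfl k0_B00pp_012_s3

theorem s_B00pp_012_s3 {κ x : ℝ} (hκ : κ * h0 = ken x) (hx : ((587336777 : ℕ) : ℝ) / S ≤ x)
    (hx' : x ≤ (((587336777 : ℕ) : ℝ) + (62277027 : ℕ)) / S)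
    (H : CutB (VFD κ) PP tK tL pcB (Cut.of [[⟨0, 0, 0, 44739242⟩, ⟨1, 1, 0, 44739242⟩, ⟨2, 1, 0, 44739242⟩]]) 0 1 2 0 0 (sgb true) (sgb true) x) :
    AltB (VFD κ) PP tK tL pcB [⟨4, 0, 0, 2845415833⟩] 0 1 2 0 0 (sgb true) (sgb true) x :=
  strip_altBD (m := 2845415833) false rfl hκ (SH.κ0 hκ (SH.hx1 hx).le (SH.hx2 hx').le) (SH.hx1 hx).le (SH.hx2 hx') (covB00).cov (covB02).cov hx hx' c_B00pp_012_s3 H (noExt_B)

noncomputable def cut_B00pp_022_s1 : Cut := Cut.of [[⟨4, 0, 0, 1449551462⟩], [⟨0, 0, 0, 67108864⟩, ⟨1, 1, 0, 67108864⟩, ⟨2, 1, 0, 67108864⟩]]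

noncomputable def f_B00pp_022_s1 : ℕ → ℕ → ℕ → ℕ → Bool := onCell 1073741824 536870912 0 536870912 587336777 62277027
    (rowF 2 false true true .pp 0 2 2 (qsf 0 536870912 0 536870912 2) ndB0q0 ndB0q2 pcB2 cut_B00pp_022_s1 Ext.none)

def k0_B00pp_022_s1 : ∃ t, chk3 f_B00pp_022_s1 t 4 2 1 = true :=
  ⟨(b (l 6) (a (a (a (b (l 6) (b (l 6) (c (b (c (l 16610680) (l 16590056)) (c (a (l 16611336) (l 16596728)) (l 16599088))) (b (l 16589624) (l 16603840))))) (b (l 6) (b (l 6) (b (l 6) (a (l 16591832) (l 16586816)))))) (l 6)) (l 6))), by decide +kernel⟩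

def k1_B00pp_022_s1 : ∃ t, chk3 f_B00pp_022_s1 t 8 6 1 = true :=
  ⟨(a (b (a (c (a (b (c (b (c (a (l 16616472) (l 16609072)) (l 16620912)) (a (c (a (b (l 16619064) (l 16623984)) (l 16620400)) (l 16621184)) (l 16618824))) (b (l 16610704) (l 16620368))) (c (a (b (b (a (l 16629000) (l 16627864)) (c (l 16633360) (l 16633472))) (b (l 16638400) (l 16643424))) (b (c (l 16628520) (l 16628760)) (l 16638568))) (a (b (l 16631376) (l 16641176)) (b (l 16629016) (l 16639048))))) (b (b (l 16606032) (l 16615456)) (b (l 16625104) (l 16634976)))) (b (b (a (l 16610528) (l 16605200)) (a (l 16620272) (l 16614680))) (a (b (l 16630320) (l 16640672)) (b (l 16624456) (l 16634520))))) (b (c (b (a (l 16601312) (l 16596416)) (a (l 16610496) (l 16605360))) (b (l 16596888) (l 16605976))) (b (c (a (l 16625136) (l 16614504)) (l 16615336)) (c (l 16626680) (l 16645920))))) (b (b (a (c (a (a (c (l 16651016) (l 16630088)) (l 16648704)) (l 16645048)) (a (l 16650760) (l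 16644808))) (a (l 16638896) (l 16632520))) (a (a (c (a (l 16661080) (l 16658728)) (l 16660336)) (l 16655432)) (l 16645592))) (a (a (a (b (a (l 16671520) (l 16670456)) (l 16681080)) (b (l 16668832) (l 16678864))) (b (l 16665464) (l 16675408))) (b (l 16655584) (l 16665608))))) (b (b (a (b (l 16608344) (a (l 16598784) (l 16593000))) (b (l 6) (l 16584144))) (a (b (a (l 16607664) (l 16601608)) (b (l 16611320) (l 16615840))) (b (l 16592328) (l 16600672)))) (b (a (b (l 16643672) (l 16631904)) (b (l 16609136) (l 16617656))) (a (b (l 16662184) (l 16692424)) (b (l 16626192) (l 16634616)))))), by decide +kernel⟩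

def k2_B00pp_022_s1 : ∃ t, chk3 f_B00pp_022_s1 t 8 7 1 = true :=
  ⟨(a (b (b (a (a (a (b (l 16691368) (l 16701856)) (b (l 16689096) (l 16699520))) (b (l 16685544) (l 16695872))) (b (l 16675584) (l 16685440))) (l 14)) (l 14)) (a (b (b (b (l 16680592) (a (l 16672872) (l 16664184))) (l 14)) (l 14)) (b (b (b (l 16642808) (a (l 16655256) (l 16646048))) (a (l 14) (a (l 14) (l 1)))) (l 1)))), by decide +kernel⟩

def k3_B00pp_022_s1 : ∃ t, chk3 f_B00pp_022_s1 t 9 3 1 = true :=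
  ⟨(b (b (b (l 6) (a (a (b (l 16579624) (l 16587312)) (b (l 6) (l 16573416))) (l 6))) (a (a (b (b (l 16595048) (l 16602776)) (b (l 16610432) (l 16617872))) (b (b (l 16580320) (l 16587128)) (b (l 16593760) (l 1)))) (a (a (a (b (l 16573872) (l 1)) (l 1)) (l 1)) (l 1)))) (b (a (b (a (b (l 16624976) (l 16631624)) (l 1)) (l 1)) (l 1)) (l 1))), by decide +kernel⟩

def k4_B00pp_022_s1 : ∃ t, chk3 f_B00pp_022_s1 t 5 1 1 = true :=
  ⟨(b (l 6) (b (l 1) (l 1))), by decide +kernel⟩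

def k5_B00pp_022_s1 : ∃ t, chk3 f_B00pp_022_s1 t 3 1 1 = true :=
  ⟨(l 1), by decide +kernel⟩

theorem t6_B00pp_022_s1 : ∃ t, chk3 f_B00pp_022_s1 t 8 3 1 = true := ex3_b k1_B00pp_022_s1 k2_B00pp_022_s1

theorem t7_B00pp_022_s1 : ∃ t, chk3 f_B00pp_022_s1 t 4 3 1 = true := ex3_a t6_B00pp_022_s1 k3_B00pp_022_s1

theorem t8_B00pp_022_s1 : ∃ t, chk3 f_B00pp_022_s1 t 4 1 1 = true := ex3_b k0_B00pp_022_s1 t7_B00pp_022_s1

theorem t9_B00pp_022_s1 : ∃ t, chk3 f_B00pp_022_s1 t 2 1 1 = true := ex3_a t8_B00pp_022_s1 k4_B00pp_022_s1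

theorem t10_B00pp_022_s1 : ∃ t, chk3 f_B00pp_022_s1 t 1 1 1 = true := ex3_a t9_B00pp_022_s1 k5_B00pp_022_s1

theorem c_B00pp_022_s1 : CertF 0 536870912 0 536870912 587336777 62277027 false true true .pp 0 2 2
    ndB0q0 ndB0q2 pcB2 cut_B00pp_022_s1 Ext.none :=
  certF2 (fam := false) (s1 := true) (s2 := true) (a := 0) (b := 2) (c := 2) (cn := .pp) (n1 := ndB0q0) (n2 := ndB0q2) (pc := pcB2) (cut := cut_B00pp_022_s1) (xt := Ext.none) (P1 := 0) (W1 := 536870912) (P2 := 0) (W2 := 536870912) (P3 := 587336777) (W3 := 62277027)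
    rfl (fun _ => rfl) t10_B00pp_022_s1

theorem s_B00pp_022_s1 {κ x : ℝ} (hκ : κ * h0 = ken x) (hx : ((587336777 : ℕ) : ℝ) / S ≤ x)
    (hx' : x ≤ (((587336777 : ℕ) : ℝ) + (62277027 : ℕ)) / S)
    (H : CutB (VFD κ) PP tK tL pcB (Cut.of [[⟨0, 0, 0, 67108864⟩, ⟨1, 1, 0, 67108864⟩, ⟨2, 1, 0, 67108864⟩]]) 0 2 2 0 0 (sgb true) (sgb true) x) :
    AltB (VFD κ) PP tK tL pcB [⟨3, 0, 0, 1449551462⟩] 0 2 2 0 0 (sgb true) (sgb true) x :=
  strip_altBD (m := 1449551462) true rfl hκ (SH.κ0 hκ (SH.hx1 hx).le (SH.hx2 hx').le) (SH.hx1 hx).le (SH.hx2 hx') (covB00).cov (covB02).cov hx hx' c_B00pp_022_s1 H (noExt_B)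

noncomputable def cut_B00pp_022_s3 : Cut := Cut.of [[⟨3, 0, 0, 2845415833⟩], [⟨0, 0, 0, 67108864⟩, ⟨1, 1, 0, 67108864⟩, ⟨2, 1, 0, 67108864⟩]]

noncomputable def f_B00pp_022_s3 : ℕ → ℕ → ℕ → ℕ → Bool := onCell 0 536870912 0 536870912 587336777 62277027
    (rowF 0 false true true .pp 0 2 2 (qsf 0 536870912 0 536870912 2) ndB0q0 ndB0q2 pcB2 cut_B00pp_022_s3 Ext.none)

def k0_B00pp_022_s3 : ∃ t, chk3 f_B00pp_022_s3 t 1 1 1 = true :=
  ⟨(l 6), by decide +kernel⟩

theorem c_B00pp_022_s3 : CertF 0 536870912 0 536870912 587336777 62277027 false true true .pp 0 2 2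
    ndB0q0 ndB0q2 pcB2 cut_B00pp_022_s3 Ext.none :=
  certF0 (fam := false) (s1 := true) (s2 := true) (a := 0) (b := 2) (c := 2) (cn := .pp) (n1 := ndB0q0) (n2 := ndB0q2) (pc := pcB2) (cut := cut_B00pp_022_s3) (xt := Ext.none) (P1 := 0) (W1 := 536870912) (P2 := 0) (W2 := 536870912) (P3 := 587336777) (W3 := 62277027)
    rfl k0_B00pp_022_s3

theorem s_B00pp_022_s3 {κ x : ℝ} (hκ : κ * h0 = ken x) (hx : ((587336777 : ℕ) : ℝ) / S ≤ x)
    (hx' : x ≤ (((587336777 : ℕ) : ℝ) + (62277027 : ℕ)) / S)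
    (H : CutB (VFD κ) PP tK tL pcB (Cut.of [[⟨0, 0, 0, 67108864⟩, ⟨1, 1, 0, 67108864⟩, ⟨2, 1, 0, 67108864⟩]]) 0 2 2 0 0 (sgb true) (sgb true) x) :
    AltB (VFD κ) PP tK tL pcB [⟨4, 0, 0, 2845415833⟩] 0 2 2 0 0 (sgb true) (sgb true) x :=
  strip_altBD (m := 2845415833) false rfl hκ (SH.κ0 hκ (SH.hx1 hx).le (SH.hx2 hx').le) (SH.hx1 hx).le (SH.hx2 hx') (covB00).cov (covB02).cov hx hx' c_B00pp_022_s3 H (noExt_B)

noncomputable def cut_B00pp_101_s1 : Cut := Cut.of [[⟨4, 0, 0, 1449551462⟩]]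

noncomputable def f_B00pp_101_s1 : ℕ → ℕ → ℕ → ℕ → Bool := onCell 536870912 536870912 536870912 536870912 587336777 62277027
    (rowF 0 false true true .npn 1 0 1 (qsf 536870912 536870912 536870912 536870912 0) ndB0q1 ndB0q1 pcB0 cut_B00pp_101_s1 Ext.none)

def k0_B00pp_101_s1 : ∃ t, chk3 f_B00pp_101_s1 t 1 1 1 = true :=
  ⟨(l 3), by decide +kernel⟩

theorem c_B00pp_101_s1 : CertF 536870912 536870912 536870912 536870912 587336777 62277027 false true true .npn 1 0 1
    ndB0q1 ndB0q1 pcB0 cut_B00pp_101_s1 Ext.none :=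
  certF0 (fam := false) (s1 := true) (s2 := true) (a := 1) (b := 0) (c := 1) (cn := .npn) (n1 := ndB0q1) (n2 := ndB0q1) (pc := pcB0) (cut := cut_B00pp_101_s1) (xt := Ext.none) (P1 := 536870912) (W1 := 536870912) (P2 := 536870912) (W2 := 536870912) (P3 := 587336777) (W3 := 62277027)
    rfl k0_B00pp_101_s1

theorem s_B00pp_101_s1 {κ x : ℝ} (hκ : κ * h0 = ken x) (hx : ((587336777 : ℕ) : ℝ) / S ≤ x)
    (hx' : x ≤ (((587336777 : ℕ) : ℝ) + (62277027 : ℕ)) / S) :
    AltB (VFD κ) PP tK tL pcB [⟨3, 0, 0, 1449551462⟩] 1 0 1 0 0 (sgb true) (sgb true) x :=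
  strip_altBD (m := 1449551462) true rfl hκ (SH.κ0 hκ (SH.hx1 hx).le (SH.hx2 hx').le) (SH.hx1 hx).le (SH.hx2 hx') (covB01).cov (covB01).cov hx hx' c_B00pp_101_s1 cutB_nil (noExt_B)

noncomputable def cut_B00pp_101_s3 : Cut := Cut.of [[⟨3, 0, 0, 2845415833⟩]]

noncomputable def f_B00pp_101_s3 : ℕ → ℕ → ℕ → ℕ → Bool := onCell 536870912 536870912 536870912 536870912 587336777 62277027
    (rowF 0 false true true .npn 1 0 1 (qsf 536870912 536870912 536870912 536870912 0) ndB0q1 ndB0q1 pcB0 cut_B00pp_101_s3 Ext.none)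

def k0_B00pp_101_s3 : ∃ t, chk3 f_B00pp_101_s3 t 1 1 1 = true :=
  ⟨(l 3), by decide +kernel⟩

theorem c_B00pp_101_s3 : CertF 536870912 536870912 536870912 536870912 587336777 62277027 false true true .npn 1 0 1
    ndB0q1 ndB0q1 pcB0 cut_B00pp_101_s3 Ext.none :=
  certF0 (fam := false) (s1 := true) (s2 := true) (a := 1) (b := 0) (c := 1) (cn := .npn) (n1 := ndB0q1) (n2 := ndB0q1) (pc := pcB0) (cut := cut_B00pp_101_s3) (xt := Ext.none) (P1 := 536870912) (W1 := 536870912) (P2 := 536870912) (W2 := 536870912) (P3 := 587336777) (W3 := 62277027)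
    rfl k0_B00pp_101_s3

theorem s_B00pp_101_s3 {κ x : ℝ} (hκ : κ * h0 = ken x) (hx : ((587336777 : ℕ) : ℝ) / S ≤ x)
    (hx' : x ≤ (((587336777 : ℕ) : ℝ) + (62277027 : ℕ)) / S) :
    AltB (VFD κ) PP tK tL pcB [⟨4, 0, 0, 2845415833⟩] 1 0 1 0 0 (sgb true) (sgb true) x :=
  strip_altBD (m := 2845415833) false rfl hκ (SH.κ0 hκ (SH.hx1 hx).le (SH.hx2 hx').le) (SH.hx1 hx).le (SH.hx2 hx') (covB01).cov (covB01).cov hx hx' c_B00pp_101_s3 cutB_nil (noExt_B)

noncomputable def cut_B00pp_102_s1 : Cut := Cut.of [[⟨4, 0, 0, 1449551462⟩]]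

noncomputable def f_B00pp_102_s1 : ℕ → ℕ → ℕ → ℕ → Bool := onCell 0 536870912 0 536870912 587336777 62277027
    (rowF 2 false true true .npp 1 0 2 (qsf 536870912 536870912 0 536870912 0) ndB0q1 ndB0q2 pcB0 cut_B00pp_102_s1 Ext.none)

def k0_B00pp_102_s1 : ∃ t, chk3 f_B00pp_102_s1 t 1 1 1 = true :=
  ⟨(a (b (l 3) (l 3)) (l 3)), by decide +kernel⟩

theorem c_B00pp_102_s1 : CertF 536870912 536870912 0 536870912 587336777 62277027 false true true .npp 1 0 2
    ndB0q1 ndB0q2 pcB0 cut_B00pp_102_s1 Ext.none :=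
  certF2 (fam := false) (s1 := true) (s2 := true) (a := 1) (b := 0) (c := 2) (cn := .npp) (n1 := ndB0q1) (n2 := ndB0q2) (pc := pcB0) (cut := cut_B00pp_102_s1) (xt := Ext.none) (P1 := 536870912) (W1 := 536870912) (P2 := 0) (W2 := 536870912) (P3 := 587336777) (W3 := 62277027)
    rfl (fun _ => rfl) k0_B00pp_102_s1

theorem s_B00pp_102_s1 {κ x : ℝ} (hκ : κ * h0 = ken x) (hx : ((587336777 : ℕ) : ℝ) / S ≤ x)
    (hx' : x ≤ (((587336777 : ℕ) : ℝ) + (62277027 : ℕ)) / S) :
    AltB (VFD κ) PP tK tL pcB [⟨3, 0, 0, 1449551462⟩] 1 0 2 0 0 (sgb true) (sgb true) x :=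
  strip_altBD (m := 1449551462) true rfl hκ (SH.κ0 hκ (SH.hx1 hx).le (SH.hx2 hx').le) (SH.hx1 hx).le (SH.hx2 hx') (covB01).cov (covB02).cov hx hx' c_B00pp_102_s1 cutB_nil (noExt_B)

noncomputable def cut_B00pp_102_s3 : Cut := Cut.of [[⟨3, 0, 0, 2845415833⟩]]

noncomputable def f_B00pp_102_s3 : ℕ → ℕ → ℕ → ℕ → Bool := onCell 536870912 536870912 0 536870912 587336777 62277027
    (rowF 0 false true true .npp 1 0 2 (qsf 536870912 536870912 0 536870912 0) ndB0q1 ndB0q2 pcB0 cut_B00pp_102_s3 Ext.none)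

def k0_B00pp_102_s3 : ∃ t, chk3 f_B00pp_102_s3 t 1 1 1 = true :=
  ⟨(l 6), by decide +kernel⟩

theorem c_B00pp_102_s3 : CertF 536870912 536870912 0 536870912 587336777 62277027 false true true .npp 1 0 2
    ndB0q1 ndB0q2 pcB0 cut_B00pp_102_s3 Ext.none :=
  certF0 (fam := false) (s1 := true) (s2 := true) (a := 1) (b := 0) (c := 2) (cn := .npp) (n1 := ndB0q1) (n2 := ndB0q2) (pc := pcB0) (cut := cut_B00pp_102_s3) (xt := Ext.none) (P1 := 536870912) (W1 := 536870912) (P2 := 0) (W2 := 536870912) (P3 := 587336777) (W3 := 62277027)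
    rfl k0_B00pp_102_s3

theorem s_B00pp_102_s3 {κ x : ℝ} (hκ : κ * h0 = ken x) (hx : ((587336777 : ℕ) : ℝ) / S ≤ x)
    (hx' : x ≤ (((587336777 : ℕ) : ℝ) + (62277027 : ℕ)) / S) :
    AltB (VFD κ) PP tK tL pcB [⟨4, 0, 0, 2845415833⟩] 1 0 2 0 0 (sgb true) (sgb true) x :=
  strip_altBD (m := 2845415833) false rfl hκ (SH.κ0 hκ (SH.hx1 hx).le (SH.hx2 hx').le) (SH.hx1 hx).le (SH.hx2 hx') (covB01).cov (covB02).cov hx hx' c_B00pp_102_s3 cutB_nil (noExt_B)

noncomputable def cut_B00pp_112_s1 : Cut := Cut.of [[⟨4, 0, 0, 1449551462⟩]]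

noncomputable def xt_B00pp_112_s1 : Ext := strExt0 dd false true true .u0 .u2 .u0m .dn 1 1 2 rfl rfl gf1 vv ww kz ndB0q1 ndB0q2

noncomputable def f_B00pp_112_s1 : ℕ → ℕ → ℕ → ℕ → Bool := onCell 536870912 536870912 0 536870912 587336777 62277027
    (rowF 0 false true true .dn 1 1 2 (qsf 536870912 536870912 0 536870912 1) ndB0q1 ndB0q2 pcB1 cut_B00pp_112_s1 xt_B00pp_112_s1)

def k0_B00pp_112_s1 : ∃ t, chk3 f_B00pp_112_s1 t 1 1 1 = true :=
  ⟨(a (b (b (a (a (b (a (b (b (a (a (l 16733664) (l 16738344)) (a (b (l 16740560) (l 16745952)) (b (l 16756136) (l 16751016)))) (a (a (b (l 16741456) (l 16746776)) (b (l 16746328) (l 16751640))) (a (l 16764464) (l 1068939791)))) (a (b (a (l 16775712) (l 1068998159)) (a (b (l 1069059599) (l 1069071887)) (l 1069007375))) (b (a (l 1068946447) (a (l 1068912655) (l 1068896271))) (a (l 1068915727) (b (l 1068878351) (l 3)))))) (b (a (l 1068912143) (l 1068851215)) (b (a (l 1068865039) (l 3)) (l 3)))) (a (a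 (b (b (a (b (l 1069082639) (l 1069091855)) (a (l 1069047311) (l 1069020175))) (l 3)) (l 3)) (l 3)) (l 3))) (b (a (b (a (l 1068768783) (l 3)) (l 3)) (l 3)) (l 3))) (l 3)) (l 3)) (l 3)) (l 1)), by decide +kernel⟩

theorem c_B00pp_112_s1 : CertF 536870912 536870912 0 536870912 587336777 62277027 false true true .dn 1 1 2
    ndB0q1 ndB0q2 pcB1 cut_B00pp_112_s1 xt_B00pp_112_s1 :=
  certF0 (fam := false) (s1 := true) (s2 := true) (a := 1) (b := 1) (c := 2) (cn := .dn) (n1 := ndB0q1) (n2 := ndB0q2) (pc := pcB1) (cut := cut_B00pp_112_s1) (xt := xt_B00pp_112_s1) (P1 := 536870912) (W1 := 536870912) (P2 := 0) (W2 := 536870912) (P3 := 587336777) (W3 := 62277027)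
    rfl k0_B00pp_112_s1

theorem s_B00pp_112_s1 {κ x : ℝ} (hκ : κ * h0 = ken x) (hx : ((587336777 : ℕ) : ℝ) / S ≤ x)
    (hx' : x ≤ (((587336777 : ℕ) : ℝ) + (62277027 : ℕ)) / S) :
    AltB (VFD κ) PP tK tL pcB [⟨3, 0, 0, 1449551462⟩] 1 1 2 0 0 (sgb true) (sgb true) x :=
  strip_altBD (m := 1449551462) true rfl hκ (SH.κ0 hκ (SH.hx1 hx).le (SH.hx2 hx').le) (SH.hx1 hx).le (SH.hx2 hx') (covB01).cov (covB02).cov hx hx' c_B00pp_112_s1 cutB_nil ((okx6 hx hx').ext0B (T := tt) (zx hx hx') (okx hx hx') (sideB hx hx') hκ rfl rfl (.O 1 true) (.O 2 true) (Or.inr rfl))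

noncomputable def cut_B00pp_112_s3 : Cut := Cut.of [[⟨3, 0, 0, 2845415833⟩]]

noncomputable def f_B00pp_112_s3 : ℕ → ℕ → ℕ → ℕ → Bool := onCell 536870912 536870912 0 536870912 587336777 62277027
    (rowF 0 false true true .dn 1 1 2 (qsf 536870912 536870912 0 536870912 1) ndB0q1 ndB0q2 pcB1 cut_B00pp_112_s3 Ext.none)

def k0_B00pp_112_s3 : ∃ t, chk3 f_B00pp_112_s3 t 1 1 1 = true :=
  ⟨(l 6), by decide +kernel⟩

theorem c_B00pp_112_s3 : CertF 536870912 536870912 0 536870912 587336777 62277027 false true true .dn 1 1 2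
    ndB0q1 ndB0q2 pcB1 cut_B00pp_112_s3 Ext.none :=
  certF0 (fam := false) (s1 := true) (s2 := true) (a := 1) (b := 1) (c := 2) (cn := .dn) (n1 := ndB0q1) (n2 := ndB0q2) (pc := pcB1) (cut := cut_B00pp_112_s3) (xt := Ext.none) (P1 := 536870912) (W1 := 536870912) (P2 := 0) (W2 := 536870912) (P3 := 587336777) (W3 := 62277027)
    rfl k0_B00pp_112_s3

theorem s_B00pp_112_s3 {κ x : ℝ} (hκ : κ * h0 = ken x) (hx : ((587336777 : ℕ) : ℝ) / S ≤ x)
    (hx' : x ≤ (((587336777 : ℕ) : ℝ) + (62277027 : ℕ)) / S) :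
    AltB (VFD κ) PP tK tL pcB [⟨4, 0, 0, 2845415833⟩] 1 1 2 0 0 (sgb true) (sgb true) x :=
  strip_altBD (m := 2845415833) false rfl hκ (SH.κ0 hκ (SH.hx1 hx).le (SH.hx2 hx').le) (SH.hx1 hx).le (SH.hx2 hx') (covB01).cov (covB02).cov hx hx' c_B00pp_112_s3 cutB_nil (noExt_B)

noncomputable def cut_B00pp_202_s1 : Cut := Cut.of [[⟨4, 0, 0, 1449551462⟩]]

noncomputable def f_B00pp_202_s1 : ℕ → ℕ → ℕ → ℕ → Bool := onCell 0 536870912 0 536870912 587336777 62277027
    (rowF 0 false true true .pp 2 0 2 (qsf 0 536870912 0 536870912 0) ndB0q2 ndB0q2 pcB0 cut_B00pp_202_s1 Ext.none)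

def k0_B00pp_202_s1 : ∃ t, chk3 f_B00pp_202_s1 t 1 1 1 = true :=
  ⟨(l 3), by decide +kernel⟩

theorem c_B00pp_202_s1 : CertF 0 536870912 0 536870912 587336777 62277027 false true true .pp 2 0 2
    ndB0q2 ndB0q2 pcB0 cut_B00pp_202_s1 Ext.none :=
  certF0 (fam := false) (s1 := true) (s2 := true) (a := 2) (b := 0) (c := 2) (cn := .pp) (n1 := ndB0q2) (n2 := ndB0q2) (pc := pcB0) (cut := cut_B00pp_202_s1) (xt := Ext.none) (P1 := 0) (W1 := 536870912) (P2 := 0) (W2 := 536870912) (P3 := 587336777) (W3 := 62277027)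
    rfl k0_B00pp_202_s1

theorem s_B00pp_202_s1 {κ x : ℝ} (hκ : κ * h0 = ken x) (hx : ((587336777 : ℕ) : ℝ) / S ≤ x)
    (hx' : x ≤ (((587336777 : ℕ) : ℝ) + (62277027 : ℕ)) / S) :
    AltB (VFD κ) PP tK tL pcB [⟨3, 0, 0, 1449551462⟩] 2 0 2 0 0 (sgb true) (sgb true) x :=
  strip_altBD (m := 1449551462) true rfl hκ (SH.κ0 hκ (SH.hx1 hx).le (SH.hx2 hx').le) (SH.hx1 hx).le (SH.hx2 hx') (covB02).cov (covB02).cov hx hx' c_B00pp_202_s1 cutB_nil (noExt_B)

noncomputable def cut_B00pp_202_s3 : Cut := Cut.of [[⟨3, 0, 0, 2845415833⟩]]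

noncomputable def f_B00pp_202_s3 : ℕ → ℕ → ℕ → ℕ → Bool := onCell 0 536870912 0 536870912 587336777 62277027
    (rowF 0 false true true .pp 2 0 2 (qsf 0 536870912 0 536870912 0) ndB0q2 ndB0q2 pcB0 cut_B00pp_202_s3 Ext.none)

def k0_B00pp_202_s3 : ∃ t, chk3 f_B00pp_202_s3 t 1 1 1 = true :=
  ⟨(l 3), by decide +kernel⟩

theorem c_B00pp_202_s3 : CertF 0 536870912 0 536870912 587336777 62277027 false true true .pp 2 0 2
    ndB0q2 ndB0q2 pcB0 cut_B00pp_202_s3 Ext.none :=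
  certF0 (fam := false) (s1 := true) (s2 := true) (a := 2) (b := 0) (c := 2) (cn := .pp) (n1 := ndB0q2) (n2 := ndB0q2) (pc := pcB0) (cut := cut_B00pp_202_s3) (xt := Ext.none) (P1 := 0) (W1 := 536870912) (P2 := 0) (W2 := 536870912) (P3 := 587336777) (W3 := 62277027)
    rfl k0_B00pp_202_s3

theorem s_B00pp_202_s3 {κ x : ℝ} (hκ : κ * h0 = ken x) (hx : ((587336777 : ℕ) : ℝ) / S ≤ x)
    (hx' : x ≤ (((587336777 : ℕ) : ℝ) + (62277027 : ℕ)) / S) :
    AltB (VFD κ) PP tK tL pcB [⟨4, 0, 0, 2845415833⟩] 2 0 2 0 0 (sgb true) (sgb true) x :=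
  strip_altBD (m := 2845415833) false rfl hκ (SH.κ0 hκ (SH.hx1 hx).le (SH.hx2 hx').le) (SH.hx1 hx).le (SH.hx2 hx') (covB02).cov (covB02).cov hx hx' c_B00pp_202_s3 cutB_nil (noExt_B)

noncomputable def cut_B00pm_001_s1 : Cut := Cut.of [[⟨4, 0, 0, 1449551462⟩]]

noncomputable def f_B00pm_001_s1 : ℕ → ℕ → ℕ → ℕ → Bool := onCell 0 536870912 536870912 536870912 587336777 62277027
    (rowF 0 false true false .up 0 0 1 (qsf 0 536870912 536870912 536870912 0) ndB0q0 ndB0q1 pcB0 cut_B00pm_001_s1 Ext.none)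

def k0_B00pm_001_s1 : ∃ t, chk3 f_B00pm_001_s1 t 1 1 1 = true :=
  ⟨(l 6), by decide +kernel⟩

theorem c_B00pm_001_s1 : CertF 0 536870912 536870912 536870912 587336777 62277027 false true false .up 0 0 1
    ndB0q0 ndB0q1 pcB0 cut_B00pm_001_s1 Ext.none :=
  certF0 (fam := false) (s1 := true) (s2 := false) (a := 0) (b := 0) (c := 1) (cn := .up) (n1 := ndB0q0) (n2 := ndB0q1) (pc := pcB0) (cut := cut_B00pm_001_s1) (xt := Ext.none) (P1 := 0) (W1 := 536870912) (P2 := 536870912) (W2 := 536870912) (P3 := 587336777) (W3 := 62277027)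
    rfl k0_B00pm_001_s1

theorem s_B00pm_001_s1 {κ x : ℝ} (hκ : κ * h0 = ken x) (hx : ((587336777 : ℕ) : ℝ) / S ≤ x)
    (hx' : x ≤ (((587336777 : ℕ) : ℝ) + (62277027 : ℕ)) / S) :
    AltB (VFD κ) PP tK tL pcB [⟨3, 0, 0, 1449551462⟩] 0 0 1 0 0 (sgb true) (sgb false) x :=
  strip_altBD (m := 1449551462) true rfl hκ (SH.κ0 hκ (SH.hx1 hx).le (SH.hx2 hx').le) (SH.hx1 hx).le (SH.hx2 hx') (covB00).cov (covB01).cov hx hx' c_B00pm_001_s1 cutB_nil (noExt_B)

noncomputable def cut_B00pm_001_s3 : Cut := Cut.of [[⟨3, 0, 0, 2845415833⟩]]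

noncomputable def xt_B00pm_001_s3 : Ext := strExt0 dd false true false .u0 .u0m .s0m .up 0 0 1 rfl rfl gl0 vv ww kz ndB0q0 ndB0q1

noncomputable def f_B00pm_001_s3 : ℕ → ℕ → ℕ → ℕ → Bool := onCell 0 536870912 536870912 536870912 587336777 62277027
    (rowF 0 false true false .up 0 0 1 (qsf 0 536870912 536870912 536870912 0) ndB0q0 ndB0q1 pcB0 cut_B00pm_001_s3 xt_B00pm_001_s3)

def k0_B00pm_001_s3 : ∃ t, chk3 f_B00pm_001_s3 t 2 1 1 = true :=
  ⟨(b (l 4) (b (b (l 4) (l 2)) (l 2))), by decide +kernel⟩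

def k1_B00pm_001_s3 : ∃ t, chk3 f_B00pm_001_s3 t 3 4 1 = true :=
  ⟨(l 4), by decide +kernel⟩

def k2_B00pm_001_s3 : ∃ t, chk3 f_B00pm_001_s3 t 6 5 1 = true :=
  ⟨(l 4), by decide +kernel⟩

def k3_B00pm_001_s3 : ∃ t, chk3 f_B00pm_001_s3 t 7 10 1 = true :=
  ⟨(a (l 4) (b (a (l 4) (a (l 4) (b (l 4) (b (l 4) (c (c (l 1073657871) (l 1073429519)) (l 1073137167)))))) (a (a (l 4) (b (l 4) (b (b (l 4) (l 1072485391)) (l 1072420879)))) (a (a (a (b (l 4) (b (b (l 4) (l 1072730127)) (l 1072664591))) (a (b (l 4) (b (b (c (c (l 1073180175) (l 1072950287)) (l 1072669711)) (l 1072803343)) (l 1072737807))) (b (l 4) (b (c (b (l 1073096719) (l 1073063951)) (b (l 1072709647) (l 1072675855))) (c (l 1073005071) (l 1072599567)))))) (a (b (c (l 1073223183) (l 1072827407)) (b (b (l 1073475599) (b (l 1073452559) (l 1072897551))) (c (b (l 1073080335) (l 1073043471)) (b (l 1072689679) (l 1072645647))))) (b (c (l 1073289743) (l 1072897551)) (b (b (l 1073008143)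 (l 1072977935)) (b (l 1072943119) (l 1072906255)))))) (b (c (b (l 1073483279) (l 1073425935)) (c (l 1073159695) (l 1072997903))) (b (b (c (l 1073381391) (l 1073011215)) (c (l 1073351695) (l 1072984591))) (a (c (b (l 1073251855) (l 1073218575)) (b (l 1072879631) (l 1072842767))) (c (l 1073367567) (l 1073003535))))))))), by decide +kernel⟩

def k4_B00pm_001_s3 : ∃ t, chk3 f_B00pm_001_s3 t 14 11 1 = true :=
  ⟨(a (b (l 4) (b (b (l 4) (l 1068587023)) (l 1068373007))) (b (a (l 4) (b (l 4) (l 1071137295))) (a (b (a (c (l 1070372367) (l 1069328911)) (b (a (l 1070299151) (b (l 1070053391) (l 1070481935))) (l 1069640719))) (a (l 1069386767) (l 1069839375))) (a (a (b (b (c (l 1071148047) (l 1070265871)) (l 1070499343)) (l 1070167055)) (b (b (b (l 1070883343) (l 1070805007)) (l 1070661135)) (l 1070357007))) (b (b (l 1070515215) (l 1070888975)) (b (l 1070705679) (l 16758152))))))), by decide +kernel⟩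

def k5_B00pm_001_s3 : ∃ t, chk3 f_B00pm_001_s3 t 15 11 1 = true :=
  ⟨(b (b (a (a (c (l 1072217103) (l 1071578639)) (l 1071759887)) (a (a (c (a (l 1072787471) (l 1072871951)) (l 1071837199)) (a (b (a (l 1072743951) (l 1072786447)) (l 1072682511)) (a (b (l 1072827407) (l 1072745999)) (b (l 1072866831) (l 1072786447))))) (b (a (c (a (l 1073133583) (l 1073201167)) (c (l 1072868879) (l 1072709135))) (c (l 1073301519) (l 1072931343))) (a (c (l 1073099279) (l 1072701967)) (c (l 1073234447) (l 1072855055)))))) (a (a (l 1071135759) (c (l 1072432143) (l 1071854607))) (a (a (c (l 1072687631) (l 1072186895)) (c (c (l 1072979983) (l 1072725519)) (c (l 1072498191) (l 1072298511)))) (a (c (c (l 1073120783) (l 1072881167)) (b (l 16763904) (l 16766984))) (c (b (l 16772424) (l 16771056)) (b (l 16769200) (l 16767184))))))) (b (a (a (b (l 1070933007) (l 1071311887)) (b (c (l 1072302607) (l 1071689743)) (l 1071312911))) (a (a (b (l 1072306191) (l 1072213007))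 (c (b (l 16779112) (l 16766624)) (l 1071677455))) (b (c (a (l 16768952) (l 16769512)) (c (l 16755184) (l 16763696))) (c (a (l 16767064) (l 16767720)) (l 16761984))))) (a (a (a (b (l 1070997519) (l 16756808)) (b (l 16760528) (l 16755928))) (c (a (l 1071840271) (l 1072079887)) (l 1071265807))) (a (a (b (l 1072078351) (l 16777344)) (c (b (l 1072587279) (l 16761232)) (l 1071967247))) (a (c (b (l 16764912) (l 16762400)) (l 1071649807)) (b (a (l 16762192) (l 16762576)) (l 16759536))))))), by decide +kernel⟩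

def k6_B00pm_001_s3 : ∃ t, chk3 f_B00pm_001_s3 t 6 6 1 = true :=
  ⟨(b (a (a (l 4) (a (l 4) (b (l 4) (b (l 4) (a (l 1063825423) (l 1063349775)))))) (b (a (l 4) (a (b (l 4) (l 1065760783)) (b (a (b (l 4) (c (l 1067644431) (l 1066767887))) (l 1067609103)) (a (b (l 1066802191) (l 1066415119)) (b (l 1068506639) (l 1067036175)))))) (b (a (l 1065568783) (a (l 1065126927) (a (l 1065869839) (l 1066429455)))) (a (a (l 1063541263) (l 1063985167)) (a (l 1064645647) (a (l 1065264143) (l 1065742863))))))) (a (b (a (l 2) (b (a (l 2) (c (b (l 1063694863) (l 2)) (l 1064491023))) (l 2))) (l 2)) (a (a (b (a (b (l 1063604239) (l 2)) (b (l 1063667727) (l 1064440847))) (l 2)) (b (b (l 1063869967) (c (l 1064144911) (l 1063777807))) (a (l 2) (b (b (l 34997089255) (l 2)) (l 2))))) (b (a (b (l 1064329231) (l 1064204815)) (b (l 1066619919) (c (l 1064904207) (l 1064462863)))) (b (a (c (b (l 1064430607) (l 1064525839)) (l 1064103439)) (a (l 1064990735) (l 1064642575)))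 (c (b (a (c (l 69893639223) (l 67209278423)) (a (l 16619560) (l 16611760))) (a (l 2) (a (l 68819811543) (l 63987956007)))) (a (b (l 65598667031) (l 2)) (a (l 66135486039) (l 16597832))))))))), by decide +kernel⟩

def k7_B00pm_001_s3 : ∃ t, chk3 f_B00pm_001_s3 t 7 12 1 = true :=
  ⟨(a (a (b (b (l 1068246543) (a (b (l 1067969551) (a (l 1067674127) (l 1068103183))) (l 1068456975))) (a (b (b (c (l 1068029967) (l 1067152911)) (l 1067718671)) (c (l 1066956303) (l 1066231311))) (b (b (l 1068465679) (l 1068351503)) (b (l 1069154831) (l 16725488))))) (b (b (a (l 1069214223) (a (l 1069847567) (l 1070219791))) (a (l 1069025807) (a (l 16737024) (l 16735992)))) (a (b (l 1068966415) (b (l 1068978191) (c (l 1069341199) (l 1068388879)))) (b (l 16722808) (l 16710080))))) (b (a (b (a (a (l 1070549519) (l 1070314511)) (b (c (l 16754960) (l 16746576)) (l 16745400))) (a (b (l 16738976) (l 16732312)) (b (l 16739656) (l 16733528)))) (b (a (a (b (l 16751808)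 (l 16746792)) (b (l 16753112) (l 16748264))) (a (b (a (l 16754360) (l 16755256)) (l 16750080)) (c (b (l 16760744) (l 16757304)) (l 16749752)))) (a (c (b (l 16747968) (l 16743064)) (l 16733128)) (c (a (l 16748440) (l 16750784)) (l 16737352))))) (a (b (a (l 16721648) (l 16723592)) (a (l 16708400) (l 16709728))) (a (b (c (l 16777008) (l 16719232)) (l 16713888)) (a (b (l 16730576) (l 16717848)) (b (l 16775160) (l 16720736))))))), by decide +kernel⟩

def k8_B00pm_001_s3 : ∃ t, chk3 f_B00pm_001_s3 t 7 13 1 = true :=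
  ⟨(a (a (b (b (a (c (l 1066228751) (l 16711360)) (c (l 16719280) (l 16719360))) (a (c (l 1065668623) (l 16690976)) (a (l 16650784) (l 16651736)))) (b (a (a (l 1064898575) (l 16619912)) (b (l 16626200) (l 16609456))) (a (b (c (l 16602992) (l 16594624)) (c (a (l 16591848) (l 16586792)) (a (l 16583560) (l 16577648)))) (b (l 16592816) (a (a (l 16579112) (l 16577640)) (l 16597536)))))) (b (b (a (b (c (l 1069050383) (l 1068129807)) (l 16682104)) (a (b (l 16701984) (l 16691992)) (a (l 16698264) (l 16698000)))) (a (c (l 16664752) (l 16650096)) (b (a (l 16676560) (l 16685096)) (l 16663720)))) (b (a (a (l 16620336) (l 16624872)) (b (l 16645440) (l 16627040))) (a (b (a (l 16594496) (l 16598136)) (a (l 16577752) (l 16581992))) (b (l 16607208) (l 16590944)))))) (a (b (a (b (l 16696704) (b (l 16689040) (a (l 16678960) (l 16684328)))) (b (l 16696672) (l 16686288))) (b (a (b (a (l 16661552) (l 16673632)) (l 16689904)) (b (a (l 16680688) (l 16680480))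 (a (l 16667232) (l 6)))) (a (b (l 16627720) (l 16608520)) (l 6)))) (a (b (b (l 16700392) (l 16710232)) (b (b (l 16679488) (l 6)) (l 6))) (b (b (l 16789904) (a (l 16692936) (l 6))) (l 6))))), by decide +kernel⟩

def k9_B00pm_001_s3 : ∃ t, chk3 f_B00pm_001_s3 t 3 7 1 = true :=
  ⟨(a (b (a (l 2) (b (b (b (b (a (l 2) (a (l 2) (a (l 2) (l 79557197175)))) (l 2)) (l 2)) (l 2)) (l 2))) (l 2)) (b (a (a (a (b (b (b (b (c (a (a (l 47881799367) (l 16580760)) (l 16576368)) (l 27480708055)) (c (a (l 46808052695) (l 16571032)) (l 16564672))) (c (a (l 45734294855) (l 16562512)) (l 16577368))) (a (l 2) (b (l 33386229879) (l 2)))) (l 2)) (b (b (a (b (l 16565336) (l 16553448)) (b (l 16563904) (l 16551344))) (a (b (l 16541544) (l 16529632)) (b (l 16538800) (l 6)))) (l 6))) (b (b (a (a (c (l 16564968) (l 16551280)) (c (l 16568536) (l 16552920))) (b (l 16575328) (l 6))) (l 6)) (l 6))) (l 6)) (l 6))), by decide +kernel⟩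

theorem t10_B00pm_001_s3 : ∃ t, chk3 f_B00pm_001_s3 t 7 6 1 = true := ex3_b k7_B00pm_001_s3 k8_B00pm_001_s3

theorem t11_B00pm_001_s3 : ∃ t, chk3 f_B00pm_001_s3 t 3 6 1 = true := ex3_a k6_B00pm_001_s3 t10_B00pm_001_s3

theorem t12_B00pm_001_s3 : ∃ t, chk3 f_B00pm_001_s3 t 3 3 1 = true := ex3_b t11_B00pm_001_s3 k9_B00pm_001_s3

theorem t13_B00pm_001_s3 : ∃ t, chk3 f_B00pm_001_s3 t 7 11 1 = true := ex3_a k4_B00pm_001_s3 k5_B00pm_001_s3

theorem t14_B00pm_001_s3 : ∃ t, chk3 f_B00pm_001_s3 t 7 5 1 = true := ex3_b k3_B00pm_001_s3 t13_B00pm_001_s3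

theorem t15_B00pm_001_s3 : ∃ t, chk3 f_B00pm_001_s3 t 3 5 1 = true := ex3_a k2_B00pm_001_s3 t14_B00pm_001_s3

theorem t16_B00pm_001_s3 : ∃ t, chk3 f_B00pm_001_s3 t 3 2 1 = true := ex3_b k1_B00pm_001_s3 t15_B00pm_001_s3

theorem t17_B00pm_001_s3 : ∃ t, chk3 f_B00pm_001_s3 t 3 1 1 = true := ex3_b t16_B00pm_001_s3 t12_B00pm_001_s3

theorem t18_B00pm_001_s3 : ∃ t, chk3 f_B00pm_001_s3 t 1 1 1 = true := ex3_a k0_B00pm_001_s3 t17_B00pm_001_s3

theorem c_B00pm_001_s3 : CertF 0 536870912 536870912 536870912 587336777 62277027 false true false .up 0 0 1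
    ndB0q0 ndB0q1 pcB0 cut_B00pm_001_s3 xt_B00pm_001_s3 :=
  certF0 (fam := false) (s1 := true) (s2 := false) (a := 0) (b := 0) (c := 1) (cn := .up) (n1 := ndB0q0) (n2 := ndB0q1) (pc := pcB0) (cut := cut_B00pm_001_s3) (xt := xt_B00pm_001_s3) (P1 := 0) (W1 := 536870912) (P2 := 536870912) (W2 := 536870912) (P3 := 587336777) (W3 := 62277027)
    rfl t18_B00pm_001_s3

theorem s_B00pm_001_s3 {κ x : ℝ} (hκ : κ * h0 = ken x) (hx : ((587336777 : ℕ) : ℝ) / S ≤ x)
    (hx' : x ≤ (((587336777 : ℕ) : ℝ) + (62277027 : ℕ)) / S) :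
    AltB (VFD κ) PP tK tL pcB [⟨4, 0, 0, 2845415833⟩] 0 0 1 0 0 (sgb true) (sgb false) x :=
  strip_altBD (m := 2845415833) false rfl hκ (SH.κ0 hκ (SH.hx1 hx).le (SH.hx2 hx').le) (SH.hx1 hx).le (SH.hx2 hx') (covB00).cov (covB01).cov hx hx' c_B00pm_001_s3 cutB_nil ((okx6 hx hx').ext0B (T := tt) (zx hx hx') (okx hx hx') (sideB hx hx') hκ rfl rfl (.O 0 true) (.O 1 false) (Or.inl rfl))

noncomputable def cut_B00pm_011_s1 : Cut := Cut.of [[⟨4, 0, 0, 1449551462⟩], [⟨0, 0, 0, 67108864⟩, ⟨1, 1, 0, 67108864⟩, ⟨2, 1, 0, 67108864⟩]]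

noncomputable def f_B00pm_011_s1 : ℕ → ℕ → ℕ → ℕ → Bool := onCell 0 536870912 536870912 536870912 587336777 62277027
    (rowF 0 false true false .pnn 0 1 1 (qsf 0 536870912 536870912 536870912 1) ndB0q0 ndB0q1 pcB1 cut_B00pm_011_s1 Ext.none)

def k0_B00pm_011_s1 : ∃ t, chk3 f_B00pm_011_s1 t 1 1 1 = true :=
  ⟨(l 6), by decide +kernel⟩

theorem c_B00pm_011_s1 : CertF 0 536870912 536870912 536870912 587336777 62277027 false true false .pnn 0 1 1
    ndB0q0 ndB0q1 pcB1 cut_B00pm_011_s1 Ext.none :=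
  certF0 (fam := false) (s1 := true) (s2 := false) (a := 0) (b := 1) (c := 1) (cn := .pnn) (n1 := ndB0q0) (n2 := ndB0q1) (pc := pcB1) (cut := cut_B00pm_011_s1) (xt := Ext.none) (P1 := 0) (W1 := 536870912) (P2 := 536870912) (W2 := 536870912) (P3 := 587336777) (W3 := 62277027)
    rfl k0_B00pm_011_s1

theorem s_B00pm_011_s1 {κ x : ℝ} (hκ : κ * h0 = ken x) (hx : ((587336777 : ℕ) : ℝ) / S ≤ x)
    (hx' : x ≤ (((587336777 : ℕ) : ℝ) + (62277027 : ℕ)) / S)
    (H : CutB (VFD κ) PP tK tL pcB (Cut.of [[⟨0, 0, 0, 67108864⟩, ⟨1, 1, 0, 67108864⟩, ⟨2, 1, 0, 67108864⟩]]) 0 1 1 0 0 (sgb true) (sgb false) x) :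
    AltB (VFD κ) PP tK tL pcB [⟨3, 0, 0, 1449551462⟩] 0 1 1 0 0 (sgb true) (sgb false) x :=
  strip_altBD (m := 1449551462) true rfl hκ (SH.κ0 hκ (SH.hx1 hx).le (SH.hx2 hx').le) (SH.hx1 hx).le (SH.hx2 hx') (covB00).cov (covB01).cov hx hx' c_B00pm_011_s1 H (noExt_B)

noncomputable def cut_B00pm_011_s3 : Cut := Cut.of [[⟨3, 0, 0, 2845415833⟩], [⟨0, 0, 0, 67108864⟩, ⟨1, 1, 0, 67108864⟩, ⟨2, 1, 0, 67108864⟩]]

noncomputable def xt_B00pm_011_s3 : Ext := strExt0 dd false true false .u0 .u0m .s0m .pnn 0 1 1 rfl rfl gl1 vv ww kz ndB0q0 ndB0q1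

noncomputable def f_B00pm_011_s3 : ℕ → ℕ → ℕ → ℕ → Bool := onCell 0 536870912 536870912 536870912 587336777 62277027
    (rowF 0 false true false .pnn 0 1 1 (qsf 0 536870912 536870912 536870912 1) ndB0q0 ndB0q1 pcB1 cut_B00pm_011_s3 xt_B00pm_011_s3)

def k0_B00pm_011_s3 : ∃ t, chk3 f_B00pm_011_s3 t 1 2 1 = true :=
  ⟨(a (l 4) (a (a (l 4) (l 1)) (l 1))), by decide +kernel⟩

def k1_B00pm_011_s3 : ∃ t, chk3 f_B00pm_011_s3 t 2 6 1 = true :=
  ⟨(b (l 4) (b (l 4) (a (l 4) (a (l 4) (a (b (l 4) (a (l 4) (b (l 4) (l 1063566351)))) (b (a (l 4) (b (b (l 4) (a (l 4) (b (l 4) (b (l 4) (l 1063399951))))) (a (b (l 4) (l 1063373839)) (b (l 1063305743) (l 1063369231))))) (a (b (a (l 4) (l 1063467023)) (a (l 1063581711) (l 1063587343))) (b (a (l 1063467023) (l 1063464975)) (a (l 1063590927) (l 1063591951)))))))))), by decide +kernel⟩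

def k2_B00pm_011_s3 : ∃ t, chk3 f_B00pm_011_s3 t 4 14 1 = true :=
  ⟨(b (l 4) (a (l 4) (a (l 4) (a (l 4) (a (a (l 4) (b (l 4) (b (l 4) (a (l 1064422415) (l 1064433679))))) (b (l 4) (b (l 4) (c (a (l 1064595983) (l 1064625679)) (l 1064289295))))))))), by decide +kernel⟩

def k3_B00pm_011_s3 : ∃ t, chk3 f_B00pm_011_s3 t 8 30 1 = true :=
  ⟨(b (l 4) (a (l 4) (a (l 4) (a (l 4) (a (l 4) (b (l 4) (b (l 4) (l 1064975887)))))))), by decide +kernel⟩

def k4_B00pm_011_s3 : ∃ t, chk3 f_B00pm_011_s3 t 9 60 1 = true :=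
  ⟨(a (a (l 4) (a (l 4) (b (l 4) (b (l 4) (a (l 1064533519) (l 1064562191)))))) (a (b (a (l 4) (a (l 1064489999) (l 1065041935))) (a (a (c (l 1064710159) (l 1064396303)) (l 1065122831)) (a (l 1064607759) (l 1064626703)))) (a (a (b (c (l 1064628751) (l 1064389647)) (l 1064643599)) (b (c (l 1064648207) (l 1064403471)) (l 1064657935))) (a (b (l 1064556047) (c (l 1064771087) (l 1064553999))) (b (l 1064578063) (l 1065494543)))))), by decide +kernel⟩

def k5_B00pm_011_s3 : ∃ t, chk3 f_B00pm_011_s3 t 9 61 1 = true :=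
  ⟨(a (b (b (a (l 4) (a (a (l 1064516111) (l 1064550415)) (a (l 1064582671) (l 1064612879)))) (a (a (l 4) (a (l 1064484879) (a (l 1064516111) (l 1064535055)))) (a (a (a (l 1064553487) (l 1064571407)) (l 1065133071)) (a (l 1064630287) (l 1064662543))))) (b (a (a (a (l 4) (l 1064484367)) (a (l 1064525839) (l 1064565775))) (a (a (a (l 1064596495) (l 1064615439)) (a (l 1064633871) (l 1064652303))) (a (l 1064677391) (l 1064711183)))) (a (a (a (a (l 1064471567) (l 1064494607)) (c (l 1064738831) (l 1064297999))) (a (c (l 1064775695) (l 1064346127)) (a (l 1064599567) (l 1064619535)))) (a (a (a (l 1064639503) (l 1064658959)) (a (l 1064678415) (l 1064696847))) (a (a (l 1064715791) (l 1064733711)) (l 1064758799)))))) (b (a (a (a (b (l 1064641551) (l 1064693263)) (b (l 1064668175) (l 1064721423))) (a (c (l 1064859151) (l 1064563215)) (l 1065280527))) (a (a (l 1064764943) (l 1064783887)) (a (l 1064800271) (l 1064814095)))) (a (a (b (a (l 1064743439)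 (l 1064773647)) (a (l 1064792591) (a (l 1064817679) (a (l 1064829967) (b (l 16736736) (l 16738048)))))) (b (a (l 1064801807) (l 1064828431)) (b (a (l 16736664) (b (l 16730712) (a (l 16729840) (b (l 16728184) (l 16727216))))) (a (b (a (l 16732184) (b (l 16730528) (l 16729552))) (a (b (l 16730712) (l 16729736)) (l 16728088))) (b (a (b (l 16728384) (l 16727408)) (l 16725752)) (l 16724880)))))) (b (b (a (l 1064846351) (a (c (l 16730384) (l 16734216)) (a (a (l 16727024) (l 16725936)) (l 16724304)))) (b (a (a (l 16730280) (l 16731200)) (a (a (l 16722712) (l 16720552)) (l 16717304))) (a (a (l 16728344) (a (l 16725112) (l 16722960))) (l 16717568)))) (a (a (b (b (a (l 16727488) (l 16730584)) (l 16734968)) (l 16721576)) (c (l 16720072) (l 16718272))) (c (l 16724168) (l 16711816))))))), by decide +kernel⟩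

def k6_B00pm_011_s3 : ∃ t, chk3 f_B00pm_011_s3 t 8 62 1 = true :=
  ⟨(a (b (l 4) (l 14)) (b (b (a (l 4) (a (a (l 4) (a (l 1064388623) (l 1064410127))) (a (l 1064975375) (l 1064482319)))) (a (a (l 4) (a (l 4) (a (l 4) (l 1064369167)))) (a (a (a (l 1064389647) (l 1064410127)) (a (l 1064431119) (l 1064452111))) (a (a (l 1064473615) (l 1064495119)) (l 1065061391))))) (a (a (b (b (l 4) (l 14)) (l 14)) (a (a (b (l 1064354831) (l 14)) (a (l 1064390671) (l 1064399887))) (c (a (l 1064647695) (l 1064667151)) (a (l 1064170511) (l 1064189455))))) (a (b (a (a (l 1064431119) (l 1064451599)) (a (l 1064472079) (l 1064493071))) (a (a (l 1064472079) (l 1064492047)) (a (b (l 1064502287) (b (l 16755880) (b (l 16754264) (l 16753200)))) (b (l 16759480) (b (c (l 16754240) (l 16753024)) (c (l 16752184) (l 16756112))))))) (b (a (a (l 1064514063) (l 1064535567)) (c (l 1064793615) (l 1064327183))) (b (b (a (l 16757208) (a (l 16751264) (b (l 16749592) (l 16748552))))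 (a (a (l 16753568) (a (l 16751904) (l 16753424))) (a (b (l 16749688) (l 16748640)) (l 16746976)))) (a (b (a (b (l 16751960) (l 16750920)) (l 16749256)) (l 16748216)) (l 16744904)))))))), by decide +kernel⟩

def k7_B00pm_011_s3 : ∃ t, chk3 f_B00pm_011_s3 t 8 63 1 = true :=
  ⟨(a (l 14) (a (b (b (b (a (l 14) (a (l 14) (b (l 1064464399) (l 14)))) (l 14)) (l 14)) (l 14)) (a (b (b (b (b (a (a (a (l 16756592) (l 16755472)) (b (l 16754344) (l 16753288))) (l 16750496)) (a (a (l 16753904) (l 16751664)) (l 16748352))) (a (l 16752168) (l 16745136))) (b (a (l 16745216) (l 16740832)) (a (l 14) (l 16736512)))) (b (b (a (l 14) (c (l 16733312) (l 16730968))) (l 14)) (l 14))) (b (b (a (b (l 16745032) (l 16740760)) (b (l 16740672) (l 16736432))) (a (b (l 16736480) (l 16732184)) (b (l 16732168) (l 16727896)))) (b (b (a (b (l 16728944) (l 16726776)) (b (l 16724672) (l 16722528))) (l 16721392)) (b (l 16717032) (l 16712648))))))), by decide +kernel⟩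

def k8_B00pm_011_s3 : ∃ t, chk3 f_B00pm_011_s3 t 18 124 1 = true :=
  ⟨(a (b (a (a (l 1065062927) (a (l 1064561167) (l 1064582159))) (a (a (l 1064603151) (l 1064623631)) (a (l 1064644623) (l 1064665103)))) (a (a (c (l 1064792079) (l 1064335375)) (a (l 1064604175) (l 1064625679))) (a (a (l 1064647183) (l 1064668175)) (b (l 1064686607) (b (l 16745208) (a (l 16744240) (b (l 16742584) (l 16744192)))))))) (b (a (a (a (l 1064685071) (l 1064705039)) (a (l 1064724495) (l 1064743951))) (b (a (l 1064758799) (l 1064795151)) (a (b (l 16740360) (a (l 16739432) (b (l 16737784) (a (l 16737312) (l 16736248))))) (b (a (l 16737136) (b (l 16735488) (a (l 16735032) (l 16733968)))) (a (b (a (l 16736176) (l 16735104)) (l 16734640)) (l 16733000)))))) (a (b (a (l 1064728079) (a (b (l 16741720) (a (l 16740224) (b (l 16739656) (l 16738648)))) (b (c (l 16740368) (l 16738688)) (b (a (l 16738584) (l 16737520)) (l 16737040))))) (a (a (b (b (l 16742472) (l 16741448))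 (c (l 16740776) (l 16739040))) (b (b (a (l 16740856) (l 16739784)) (l 16739312)) (l 16737776))) (c (l 16736496) (l 16734616)))) (a (b (b (a (b (l 16737912) (l 16736920)) (l 16735280)) (l 16734336)) (l 16731312)) (c (l 16735304) (l 16733240)))))), by decide +kernel⟩

def k9_B00pm_011_s3 : ∃ t, chk3 f_B00pm_011_s3 t 18 125 1 = true :=
  ⟨(a (b (a (a (b (l 1064599567) (b (l 16749992) (a (a (l 16749536) (l 16748432)) (b (l 16747328) (l 16746296))))) (a (b (l 16749840) (b (b (l 16747232) (l 16746192)) (l 16744640))) (b (b (l 16748696) (l 16749232)) (a (b (l 16747712) (l 16743008)) (l 16742976))))) (a (a (b (b (l 16746520) (b (l 16744960) (l 16743936))) (l 16741344)) (b (b (b (l 16744864) (l 16746448)) (l 16742296)) (l 16739192))) (b (b (a (c (l 16748248) (b (l 16741848) (l 16740800))) (l 16740032)) (l 16739056)) (l 16735976)))) (b (a (a (a (a (b (l 16747448) (l 16745336)) (l 16745296)) (l 16743672)) (l 16740424)) (a (l 16736128) (l 16731856)))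 (a (a (l 16740560) (l 16736256)) (c (l 16730976) (l 16731288))))) (a (b (a (b (l 16735792) (l 16731704)) (c (l 16735800) (l 16733608))) (a (c (l 16726752) (l 16724296)) (c (l 16722616) (l 16720008)))) (a (a (b (l 16726320) (l 16718216)) (b (l 16724208) (l 16716128))) (b (a (l 16722104) (l 16720000)) (l 16713008))))), by decide +kernel⟩

def k10_B00pm_011_s3 : ∃ t, chk3 f_B00pm_011_s3 t 19 62 1 = true :=
  ⟨(b (a (a (b (b (a (b (l 16735752) (a (b (l 16735336) (l 16734344)) (b (l 16738440) (l 16732208)))) (b (a (b (l 16733032) (l 16737288)) (b (l 16730896) (l 16729904))) (l 16729496))) (a (b (a (l 16738104) (l 16730720)) (l 16729800)) (l 16726536))) (a (b (l 16726816) (l 16722840)) (l 16725848))) (b (a (b (l 16726208) (l 16722288)) (l 16725248)) (a (l 16716400) (l 16712200)))) (a (b (c (l 16725160) (l 16722992)) (a (l 16708016) (l 16703848))) (b (l 16715688) (l 16697592)))) (a (a (b (a (l 16722104) (l 16712688)) (a (l 16708864) (l 16704744)))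 (b (a (l 16708528) (l 16704392)) (a (l 16700640) (l 16696552)))) (a (b (l 16708680) (l 16690440)) (b (l 16689968) (l 16682336))))), by decide +kernel⟩

def k11_B00pm_011_s3 : ∃ t, chk3 f_B00pm_011_s3 t 9 63 1 = true :=
  ⟨(a (b (a (b (a (a (b (l 16736352) (l 16732136)) (c (l 16731128) (l 16731384))) (c (a (l 16726968) (l 16722840)) (a (l 16724424) (l 16720120)))) (a (b (c (l 16727048) (l 16724440)) (c (l 16722912) (l 16720088))) (b (c (l 16718800) (l 16715840)) (b (l 16714216) (c (l 16713688) (l 16715688)))))) (b (a (c (a (l 16718728) (l 16714640)) (a (l 16715848) (l 16711616))) (a (l 16709032) (l 16704928))) (a (b (c (l 16710656) (l 16707368)) (b (c (l 16707624) (l 16709416)) (l 16703880))) (a (b (l 16702904) (l 16698808)) (b (l 16698824) (l 16694752)))))) (b (a (a (b (b (a (l 16720432) (l 16716248)) (l 16716200)) (l 16712984)) (b (a (l 16711024) (l 16706888)) (l 16704712))) (a (c (l 16700528) (l 16696688)) (l 16695832))) (a (a (b (l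 16708672) (l 16704336)) (b (l 16700448) (l 16696168))) (a (b (l 16692352) (l 16688120)) (l 16692776))))) (b (a (b (a (a (l 16700832) (l 16696768)) (a (l 16692720) (l 16688680))) (a (b (a (l 16694776) (l 16690760)) (l 16688728)) (b (l 16695240) (l 16680760)))) (b (a (b (l 16684608) (l 16680704)) (b (l 16676584) (l 16672752))) (a (l 16674832) (l 16666960)))) (a (b (a (l 16682632) (l 16674752)) (a (l 16674440) (l 16666680))) (a (b (l 16666952) (l 16659000)) (c (l 16657696) (l 16652728)))))), by decide +kernel⟩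

def k12_B00pm_011_s3 : ∃ t, chk3 f_B00pm_011_s3 t 10 14 1 = true :=
  ⟨(a (b (l 4) (a (b (l 4) (c (c (a (b (b (l 4) (a (l 1064673807) (l 1064703503))) (a (l 1064726543) (b (l 1064739343) (l 1064775183)))) (a (b (l 1064714767) (a (l 1064780815) (l 1064796175))) (b (l 1064741391) (l 1064817679)))) (a (b (a (l 1064487439) (l 1064513039)) (a (l 1064577551) (l 1064603663))) (b (l 1064549391) (a (l 1064630287) (l 1064656911))))) (a (a (b (l 1064198671) (l 1064319503)) (b (l 1064219663) (l 1064338447))) (b (l 1064250895) (c (l 1064464399) (l 1064269327)))))) (b (b (a (l 4) (a (l 4) (l 1064331791))) (a (a (l 1064388623) (l 1064408079)) (a (l 1064427023) (l 1064443919)))) (c (c (a (b (a (l 1064766991) (l 1064791055)) (a (l 1064846351) (l 1064873487))) (b (l 1064822287) (c (l 1065486351) (l 1064869391)))) (a (b (l 1064597007) (l 1064693263)) (b (l 1064640015) (l 1064740879)))) (a (b (l 1064294927) (l 1064413199)) (b (l 1064337423) (l 1064457743)))))))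 (b (b (l 4) (b (a (l 4) (l 1064608783)) (a (c (l 1064979471) (l 1063998991)) (l 1064757263)))) (b (c (a (a (a (l 1064608271) (l 1064617999)) (l 1065164815)) (a (l 1064632847) (l 1064626191))) (a (a (l 1064188943) (l 1064213519)) (l 1064768527))) (c (a (b (a (l 1064769551) (l 1064798223)) (a (c (l 1064954383) (l 1064783887)) (l 1064907279))) (a (b (l 1064817167) (l 1064934927)) (a (l 1064889359) (l 1064893455)))) (a (b (a (l 1064376335) (l 1064410127)) (a (l 1064499727) (l 1064538639))) (b (l 1064444943) (l 1064583183))))))), by decide +kernel⟩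

def k13_B00pm_011_s3 : ∃ t, chk3 f_B00pm_011_s3 t 11 14 1 = true :=
  ⟨(b (a (b (a (a (c (l 1063998991) (l 1063599631)) (l 1063781903)) (b (l 1063688207) (l 1063824911))) (b (a (a (l 1065091087) (l 1064005647)) (l 1063979535)) (a (a (l 1064180751) (l 1064166415)) (l 1064142863)))) (b (a (a (l 1063756815) (l 1063768079)) (b (a (l 1063714319) (l 1063718927)) (l 1064377871))) (a (b (l 1063950351) (l 1064103439)) (b (l 1063967247) (l 1064098831))))) (a (b (a (c (a (l 1064607759) (l 1064586767)) (a (l 1064235023) (l 1064229391))) (a (l 1065474575) (l 1064390159))) (a (a (b (l 1064650255) (l 1064795151)) (b (l 1064649231) (b (l 16691536) (a (l 16686888) (a (l 16683512) (l 16681224)))))) (b (c (l 1064801807) (l 16696872)) (c (a (b (l 16684024) (a (l 16700448) (l 16674864))) (b (l 16695816) (l 16668064))) (b (a (l 16680624) (l 16671264)) (a (l 16673584) (l 16664320))))))) (b (a (c (l 1065055247) (l 1064211471)) (a (l 1064334351) (b (l 16671576)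 (l 16678864)))) (a (a (b (c (l 16691344) (l 16672144)) (l 16681112)) (b (a (l 16687664) (l 16682744)) (l 16650824))) (b (a (a (l 16677776) (l 16693752)) (l 16644352)) (l 16636464)))))), by decide +kernel⟩

def k14_B00pm_011_s3 : ∃ t, chk3 f_B00pm_011_s3 t 20 30 1 = true :=
  ⟨(b (a (a (a (b (l 1065137679) (l 1064709647)) (b (a (l 1064619023) (l 1064630799)) (l 1064731663))) (a (b (a (l 1064643087) (l 1064655375)) (l 1065292303)) (c (b (l 1064824335) (l 1064909327)) (b (l 1064504335) (l 1064631311))))) (b (b (c (a (l 1064843791) (l 1064897039)) (a (l 1064504335) (l 1064548879))) (c (a (l 1064887311) (l 1064943119)) (a (l 1064566287) (l 1064610831)))) (a (c (a (l 1064939535) (l 1064969231)) (l 1064659983)) (b (c (l 1064988687) (l 16725168)) (a (b (l 16712416) (a (l 16709768) (b (l 16708552) (l 16717184)))) (b (l 16708120) (b (a (l 16706416) (l 16704264)) (l 16703480)))))))) (a (b (b (a (c (l 1064897039) (l 1064690191)) (a (l 1064838159)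 (b (l 16717864) (a (l 16715176) (b (l 16713960) (l 16712080)))))) (a (b (a (l 16723336) (c (l 16719544) (l 16718264))) (a (a (l 16720656) (l 16723712)) (a (l 16721520) (l 16714104)))) (b (a (b (l 16715584) (l 16713696)) (l 16710336)) (l 16708736)))) (a (b (a (l 16724400) (l 16720064)) (l 16704256)) (b (c (l 16714432) (l 16702168)) (c (l 16707096) (l 16715600))))) (a (a (b (b (b (l 16718792) (c (b (l 16722104) (l 16709760)) (l 16719256))) (l 16704200)) (l 16703536)) (b (b (b (c (b (l 16711176) (l 16719784)) (b (l 16709080) (l 16707200))) (l 16705528)) (l 16699952)) (l 16688848))) (b (b (a (b (c (l 16711288) (l 16703752)) (l 16701272)) (l 16698872)) (l 16693616)) (l 16703552))))), by decide +kernel⟩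

def k15_B00pm_011_s3 : ∃ t, chk3 f_B00pm_011_s3 t 21 30 1 = true :=
  ⟨(b (a (b (a (a (l 1065331727) (l 1065353743)) (c (l 1065550351) (l 1064666639))) (b (a (a (l 1064877071) (a (l 16706120) (b (l 16705800) (b (l 16703056) (l 16701232))))) (c (a (b (l 16703896) (c (b (l 16712328) (l 16700008)) (l 16710104))) (b (b (l 16700584) (l 16709264)) (l 16696064))) (b (a (l 16701104) (l 16696712)) (a (l 16697408) (l 16693024))))) (a (b (b (a (l 16710008) (a (l 16701536) (l 16699392))) (a (a (l 16703984) (l 16701832)) (l 16698632))) (l 16708504)) (l 16701792)))) (b (a (b (l 1064853007) (b (l 16709448) (a (a (l 16698624) (l 16696472)) (b (l 16704600) (l 16692280))))) (a (b (l 16697744) (b (a (l 16693520) (l 16691320)) (l 16688808))) (b (l 16703832) (b (l 16698464) (l 16684432))))) (c (a (b (b (c (a (l 16706584) (l 16691904)) (l 16713480)) (l 16689728)) (l 16684376)) (l 16700408)) (a (b (l 16709224) (l 16680992)) (l 16675864))))) (b (b (a (a (l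 16713480) (l 16684048)) (l 16692304)) (a (c (l 16703480) (l 16679344)) (l 16664224))) (a (a (l 16674272) (l 16666008)) (l 16674592)))), by decide +kernel⟩

def k16_B00pm_011_s3 : ∃ t, chk3 f_B00pm_011_s3 t 11 30 1 = true :=
  ⟨(a (b (b (b (a (b (a (a (l 16690632) (l 16686176)) (a (l 16681616) (l 16677112))) (a (a (a (l 16688240) (l 16685984)) (l 16682608)) (l 16675880))) (l 16684968)) (a (c (l 16697880) (l 16673232)) (l 16657160))) (a (a (l 16669000) (l 16660224)) (l 16667960))) (a (b (l 16671728) (l 16637008)) (a (l 16652104) (l 16622608)))) (a (b (a (l 16661200) (l 16631112)) (l 16630696)) (b (l 16638256) (l 16634264)))), by decide +kernel⟩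

def k17_B00pm_011_s3 : ∃ t, chk3 f_B00pm_011_s3 t 5 31 1 = true :=
  ⟨(a (a (b (b (a (b (a (l 16696760) (l 16688296)) (a (l 16689264) (l 16680920))) (a (b (l 16679888) (l 16672576)) (l 16667976))) (a (a (b (l 16681760) (l 16674240)) (l 16669848)) (a (b (l 16665304) (l 16658048)) (b (l 16657120) (l 16670904))))) (a (b (b (a (l 16687672) (l 16658744)) (l 16655208)) (a (l 16647656) (l 16640040))) (b (a (l 16647120) (l 16639192)) (l 16649584)))) (a (b (b (l 16676736) (b (l 16645072) (l 16637976))) (b (l 16648352) (a (l 16617112) (l 16609440)))) (b (b (l 16639608) (b (l 16629208) (l 16622256))) (b (l 16611928) (l 16598152))))) (a (a (b (b (l 16623416) (l 16651880)) (l 16631880)) (b (b (l 16607136) (l 16594080)) (l 16574840))) (b (b (a (l 16590792) (l 16574168)) (l 16612096)) (c (l 16596680) (l 16549312))))), by decide +kernel⟩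

def k18_B00pm_011_s3 : ∃ t, chk3 f_B00pm_011_s3 t 12 6 1 = true :=
  ⟨(b (a (l 4) (a (l 4) (b (l 1) (b (l 4) (b (l 4) (a (l 1062935567) (l 1063008783))))))) (a (b (b (l 4) (a (a (l 4) (b (l 4) (l 1063663119))) (b (a (l 1063043087) (l 1063077391)) (a (l 1063153679) (l 1063185935))))) (b (a (b (a (b (a (l 4) (l 1063194127)) (a (a (b (l 4) (c (l 1063411215) (l 1063363087))) (l 1063512591)) (c (l 1063405071) (l 1063096335)))) (b (l 1063211023) (c (l 1063417359) (l 1063117327)))) (a (b (a (a (c (l 1063457295) (l 1063139343)) (b (l 1063287823) (l 1063319055))) (b (l 1063295503) (l 1063325199))) (a (a (l 1063365647) (l 1063366159)) (b (l 1063355407) (l 1063386127)))) (b (c (l 1063476751) (l 1063174159)) (c (l 1063536655) (l 1063233039))))) (b (a (b (l 1063237647) (l 1063294479)) (b (l 1063268367) (l 1063324687))) (a (b (l 1063452175) (l 1063410191)) (c (l 1063549967) (l 1063267855))))) (a (b (a (a (l 1063462927) (b (l 1063433231) (l 1063497231)))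 (b (a (l 1063441423) (l 1063452175)) (l 1063776783))) (a (b (l 1063559695) (l 1063624719)) (b (l 1063571471) (l 1063635471)))) (b (a (b (l 1063604239) (l 1063531023)) (b (l 1063497743) (l 1063557647))) (a (b (l 1063592463) (l 1063654927)) (b (l 1063618575) (l 1063680527))))))) (b (a (b (a (l 1062963727) (b (l 1062965775) (l 1063063567))) (b (l 1063139855) (a (l 1063223823) (l 1063267343)))) (b (a (b (l 1063026703) (l 1063120911)) (b (l 1063099407) (l 1063185423))) (a (b (l 1063217679) (l 1063317519)) (b (l 1063278607) (l 1063374351))))) (b (a (b (a (l 1063332367) (l 1063373327)) (a (c (l 1063577615) (l 1063306767)) (l 1063481871))) (a (b (l 1063419919) (l 1063525903)) (b (l 1063473167) (l 1063844367)))) (a (b (a (b (l 1063529999) (l 1063588879)) (l 1063595535)) (a (b (l 1063648783) (l 1063709711)) (l 1063713295))) (a (b (l 1063637007) (l 1063752207)) (b (l 1063683599) (l 1063795727)))))))), by decide +kernel⟩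

def k19_B00pm_011_s3 : ∃ t, chk3 f_B00pm_011_s3 t 13 6 1 = true :=
  ⟨(b (b (l 1) (a (b (l 1) (a (b (l 1) (l 1063113231)) (l 1))) (l 1))) (a (b (a (b (b (l 1063199247) (l 1064359951)) (a (b (l 1063343119) (l 1063435791)) (l 1063455247))) (b (l 1063395855) (a (l 1063524367) (l 1063599631)))) (a (b (a (b (l 1063531023) (l 1063630351)) (b (l 1063591951) (l 1063688207))) (a (b (l 1063734799) (l 1063843855)) (b (l 1063789071) (l 1063895055)))) (b (b (l 1063691791) (a (l 1063750159) (l 16672248))) (a (b (l 1063847439) (l 16654224)) (c (l 1064065039) (l 1063851535)))))) (b (a (b (l 1) (l 1063726095)) (l 1)) (a (b (b (l 1063843855) (l 1063928335)) (a (l 1064027663) (l 1064100879))) (b (c (l 16658200) (l 16655184)) (c (l 16621072) (l 16638256))))))), by decide +kernel⟩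

def k20_B00pm_011_s3 : ∃ t, chk3 f_B00pm_011_s3 t 7 6 1 = true :=
  ⟨(b (l 1) (a (b (l 1) (b (l 1) (a (a (l 41372308023) (l 1)) (l 1)))) (l 1))), by decide +kernel⟩

def k21_B00pm_011_s3 : ∃ t, chk3 f_B00pm_011_s3 t 6 14 1 = true :=
  ⟨(a (b (a (b (b (a (a (l 1063722511) (l 1063733263)) (a (l 1063751183) (l 1063774735))) (a (a (l 1063852559) (l 1063864335)) (a (l 1063881231) (l 1063903759)))) (a (a (l 1064051727) (l 1064602639)) (b (a (l 1064014351) (l 16665616)) (l 1064162831)))) (b (b (a (a (l 1063803407) (l 1063835151)) (a (l 1063871503) (l 1063912463))) (a (a (l 1063930383) (l 1063961103)) (a (l 1063995407) (l 1064033807)))) (a (b (a (l 16660968) (l 16640656)) (a (l 16636712) (l 16627176))) (b (b (l 1064108559) (l 1064174095)) (a (b (l 16620720) (l 16613992)) (b (l 16611232) (l 16604456))))))) (a (b (b (a (l 1064265743) (a (l 16642616) (l 16632944))) (a (a (l 16669056) (l 16680264)) (a (l 16628728) (l 16619448)))) (a (b (l 16671840)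 (l 16659000)) (a (l 16609200) (l 16599968)))) (a (b (b (a (l 16633584) (l 16613440)) (l 16605312)) (a (l 16590768) (l 16581616))) (b (a (l 16618680) (l 16609360)) (a (l 16572520) (l 16563496)))))) (b (a (a (b (a (b (l 1063958031) (l 16635640)) (b (l 16639656) (l 16615536))) (b (a (l 16622288) (b (l 16605440) (l 16598752))) (a (l 16598144) (l 16589024)))) (b (b (a (l 16619552) (l 16610064)) (b (l 16625648) (l 16619160))) (b (b (a (l 16596120) (l 16586576)) (l 16584712)) (l 16585696)))) (b (a (b (l 16617128) (b (l 16607392) (l 16600400))) (b (a (l 16582896) (l 16574224)) (l 16585960))) (a (b (l 16569944) (l 16557280)) (a (l 16550536) (l 16542152))))) (b (b (a (a (l 16580856) (l 16562624)) (a (l 16544936) (l 16527968))) (a (a (l 16568320) (l 16550360)) (a (l 16532920) (l 16516176)))) (a (a (a (l 16554552) (l 16545688)) (a (l 16536928) (l 16528272))) (a (c (l 16518432) (l 16512600)) (l 6)))))), by decide +kernel⟩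

def k22_B00pm_011_s3 : ∃ t, chk3 f_B00pm_011_s3 t 6 15 1 = true :=
  ⟨(a (b (a (a (b (l 16640496) (l 16574632)) (b (c (l 16603136) (l 16619448)) (l 16556744))) (a (b (l 16561760) (c (l 16583424) (l 16536488))) (b (l 16544256) (c (l 16524728) (l 16519504))))) (a (b (a (l 16593232) (l 16534456)) (l 16563168)) (a (l 6) (l 6)))) (b (a (b (a (l 16527032) (l 16510144)) (l 6)) (l 6)) (l 6))), by decide +kernel⟩

def k23_B00pm_011_s3 : ∃ t, chk3 f_B00pm_011_s3 t 7 7 1 = true :=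
  ⟨(b (a (b (a (b (a (b (l 16561616) (l 16549080)) (l 16583104)) (a (c (l 16533128) (l 16527360)) (l 16547656))) (b (l 1) (l 6))) (a (a (b (a (l 16510152) (l 6)) (l 6)) (l 6)) (l 6))) (l 6)) (l 6)), by decide +kernel⟩

theorem t24_B00pm_011_s3 : ∃ t, chk3 f_B00pm_011_s3 t 6 7 1 = true := ex3_b k21_B00pm_011_s3 k22_B00pm_011_s3

theorem t25_B00pm_011_s3 : ∃ t, chk3 f_B00pm_011_s3 t 3 7 1 = true := ex3_a t24_B00pm_011_s3 k23_B00pm_011_s3

theorem t26_B00pm_011_s3 : ∃ t, chk3 f_B00pm_011_s3 t 6 6 1 = true := ex3_a k18_B00pm_011_s3 k19_B00pm_011_s3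

theorem t27_B00pm_011_s3 : ∃ t, chk3 f_B00pm_011_s3 t 3 6 1 = true := ex3_a t26_B00pm_011_s3 k20_B00pm_011_s3

theorem t28_B00pm_011_s3 : ∃ t, chk3 f_B00pm_011_s3 t 3 3 1 = true := ex3_b t27_B00pm_011_s3 t25_B00pm_011_s3

theorem t29_B00pm_011_s3 : ∃ t, chk3 f_B00pm_011_s3 t 10 30 1 = true := ex3_a k14_B00pm_011_s3 k15_B00pm_011_s3

theorem t30_B00pm_011_s3 : ∃ t, chk3 f_B00pm_011_s3 t 5 30 1 = true := ex3_a t29_B00pm_011_s3 k16_B00pm_011_s3

theorem t31_B00pm_011_s3 : ∃ t, chk3 f_B00pm_011_s3 t 5 15 1 = true := ex3_b t30_B00pm_011_s3 k17_B00pm_011_s3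

theorem t32_B00pm_011_s3 : ∃ t, chk3 f_B00pm_011_s3 t 5 14 1 = true := ex3_a k12_B00pm_011_s3 k13_B00pm_011_s3

theorem t33_B00pm_011_s3 : ∃ t, chk3 f_B00pm_011_s3 t 5 7 1 = true := ex3_b t32_B00pm_011_s3 t31_B00pm_011_s3

theorem t34_B00pm_011_s3 : ∃ t, chk3 f_B00pm_011_s3 t 18 62 1 = true := ex3_b k8_B00pm_011_s3 k9_B00pm_011_s3

theorem t35_B00pm_011_s3 : ∃ t, chk3 f_B00pm_011_s3 t 9 62 1 = true := ex3_a t34_B00pm_011_s3 k10_B00pm_011_s3

theorem t36_B00pm_011_s3 : ∃ t, chk3 f_B00pm_011_s3 t 9 31 1 = true := ex3_b t35_B00pm_011_s3 k11_B00pm_011_s3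

theorem t37_B00pm_011_s3 : ∃ t, chk3 f_B00pm_011_s3 t 8 31 1 = true := ex3_b k6_B00pm_011_s3 k7_B00pm_011_s3

theorem t38_B00pm_011_s3 : ∃ t, chk3 f_B00pm_011_s3 t 4 31 1 = true := ex3_a t37_B00pm_011_s3 t36_B00pm_011_s3

theorem t39_B00pm_011_s3 : ∃ t, chk3 f_B00pm_011_s3 t 9 30 1 = true := ex3_b k4_B00pm_011_s3 k5_B00pm_011_s3

theorem t40_B00pm_011_s3 : ∃ t, chk3 f_B00pm_011_s3 t 4 30 1 = true := ex3_a k3_B00pm_011_s3 t39_B00pm_011_s3

theorem t41_B00pm_011_s3 : ∃ t, chk3 f_B00pm_011_s3 t 4 15 1 = true := ex3_b t40_B00pm_011_s3 t38_B00pm_011_s3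

theorem t42_B00pm_011_s3 : ∃ t, chk3 f_B00pm_011_s3 t 4 7 1 = true := ex3_b k2_B00pm_011_s3 t41_B00pm_011_s3

theorem t43_B00pm_011_s3 : ∃ t, chk3 f_B00pm_011_s3 t 2 7 1 = true := ex3_a t42_B00pm_011_s3 t33_B00pm_011_s3

theorem t44_B00pm_011_s3 : ∃ t, chk3 f_B00pm_011_s3 t 2 3 1 = true := ex3_b k1_B00pm_011_s3 t43_B00pm_011_s3

theorem t45_B00pm_011_s3 : ∃ t, chk3 f_B00pm_011_s3 t 1 3 1 = true := ex3_a t44_B00pm_011_s3 t28_B00pm_011_s3

theorem t46_B00pm_011_s3 : ∃ t, chk3 f_B00pm_011_s3 t 1 1 1 = true := ex3_b k0_B00pm_011_s3 t45_B00pm_011_s3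

theorem c_B00pm_011_s3 : CertF 0 536870912 536870912 536870912 587336777 62277027 false true false .pnn 0 1 1
    ndB0q0 ndB0q1 pcB1 cut_B00pm_011_s3 xt_B00pm_011_s3 :=
  certF0 (fam := false) (s1 := true) (s2 := false) (a := 0) (b := 1) (c := 1) (cn := .pnn) (n1 := ndB0q0) (n2 := ndB0q1) (pc := pcB1) (cut := cut_B00pm_011_s3) (xt := xt_B00pm_011_s3) (P1 := 0) (W1 := 536870912) (P2 := 536870912) (W2 := 536870912) (P3 := 587336777) (W3 := 62277027)
    rfl t46_B00pm_011_s3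

theorem s_B00pm_011_s3 {κ x : ℝ} (hκ : κ * h0 = ken x) (hx : ((587336777 : ℕ) : ℝ) / S ≤ x)
    (hx' : x ≤ (((587336777 : ℕ) : ℝ) + (62277027 : ℕ)) / S)
    (H : CutB (VFD κ) PP tK tL pcB (Cut.of [[⟨0, 0, 0, 67108864⟩, ⟨1, 1, 0, 67108864⟩, ⟨2, 1, 0, 67108864⟩]]) 0 1 1 0 0 (sgb true) (sgb false) x) :
    AltB (VFD κ) PP tK tL pcB [⟨4, 0, 0, 2845415833⟩] 0 1 1 0 0 (sgb true) (sgb false) x :=
  strip_altBD (m := 2845415833) false rfl hκ (SH.κ0 hκ (SH.hx1 hx).le (SH.hx2 hx').le) (SH.hx1 hx).le (SH.hx2 hx') (covB00).cov (covB01).cov hx hx' c_B00pm_011_s3 H ((okx6 hx hx').ext0B (T := tt) (zx hx hx') (okx hx hx') (sideB hx hx') hκ rfl rfl (.O 0 true) (.O 1 false) (Or.inr rfl))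

noncomputable def cut_B00pm_012_s1 : Cut := Cut.of [[⟨4, 0, 0, 1449551462⟩], [⟨0, 0, 0, 67108864⟩, ⟨1, 1, 0, 67108864⟩, ⟨2, 1, 0, 67108864⟩]]

noncomputable def f_B00pm_012_s1 : ℕ → ℕ → ℕ → ℕ → Bool := onCell 0 536870912 0 536870912 587336777 62277027
    (rowF 0 false true false .pnp 0 1 2 (qsf 0 536870912 0 536870912 1) ndB0q0 ndB0q2 pcB1 cut_B00pm_012_s1 Ext.none)

def k0_B00pm_012_s1 : ∃ t, chk3 f_B00pm_012_s1 t 1 1 1 = true :=
  ⟨(a (l 6) (b (a (b (b (a (l 6) (a (l 6) (b (a (l 6) (l 6)) (l 6)))) (l 6)) (l 6)) (b (a (b (a (b (a (l 16646360) (b (l 16661216) (l 16652592))) (l 6)) (a (b (b (a (l 16668768) (l 16673568)) (l 16662400)) (c (l 16675592) (l 16644568))) (b (b (l 16680656) (c (a (l 16673624) (l 16677872)) (l 16667440))) (c (l 16673400) (l 16653792))))) (l 6)) (b (a (b (a (a (l 16682928) (l 16687448)) (l 16715056)) (b (a (c (b (l 16688008) (l 16673104)) (b (l 16669752) (l 16665152))) (a (l 16677688) (l 16681896))) (a (l 16662328)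 (a (l 16668488) (b (l 16674816) (l 16670184)))))) (b (a (l 16723744) (l 16711480)) (a (b (l 16688096) (a (b (l 16678840) (l 16674120)) (l 16680448))) (b (l 16696408) (l 16686472))))) (a (b (a (b (l 16653640) (l 6)) (b (l 16661472) (l 16652856))) (l 6)) (b (a (b (a (l 16667232) (b (l 16673344) (l 16668744))) (l 16660192)) (b (a (b (l 16677240) (l 16672528)) (l 16678800)) (a (l 16665688) (l 16669384)))) (a (b (l 16672552) (l 6)) (b (l 16658592) (l 16649712))))))) (l 6))) (l 6))), by decide +kernel⟩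

theorem c_B00pm_012_s1 : CertF 0 536870912 0 536870912 587336777 62277027 false true false .pnp 0 1 2
    ndB0q0 ndB0q2 pcB1 cut_B00pm_012_s1 Ext.none :=
  certF0 (fam := false) (s1 := true) (s2 := false) (a := 0) (b := 1) (c := 2) (cn := .pnp) (n1 := ndB0q0) (n2 := ndB0q2) (pc := pcB1) (cut := cut_B00pm_012_s1) (xt := Ext.none) (P1 := 0) (W1 := 536870912) (P2 := 0) (W2 := 536870912) (P3 := 587336777) (W3 := 62277027)
    rfl k0_B00pm_012_s1

theorem s_B00pm_012_s1 {κ x : ℝ} (hκ : κ * h0 = ken x) (hx : ((587336777 : ℕ) : ℝ) / S ≤ x)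
    (hx' : x ≤ (((587336777 : ℕ) : ℝ) + (62277027 : ℕ)) / S)
    (H : CutB (VFD κ) PP tK tL pcB (Cut.of [[⟨0, 0, 0, 67108864⟩, ⟨1, 1, 0, 67108864⟩, ⟨2, 1, 0, 67108864⟩]]) 0 1 2 0 0 (sgb true) (sgb false) x) :
    AltB (VFD κ) PP tK tL pcB [⟨3, 0, 0, 1449551462⟩] 0 1 2 0 0 (sgb true) (sgb false) x :=
  strip_altBD (m := 1449551462) true rfl hκ (SH.κ0 hκ (SH.hx1 hx).le (SH.hx2 hx').le) (SH.hx1 hx).le (SH.hx2 hx') (covB00).cov (covB02).cov hx hx' c_B00pm_012_s1 H (noExt_B)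

noncomputable def cut_B00pm_012_s3 : Cut := Cut.of [[⟨3, 0, 0, 2845415833⟩], [⟨0, 0, 0, 67108864⟩, ⟨1, 1, 0, 67108864⟩, ⟨2, 1, 0, 67108864⟩]]

noncomputable def f_B00pm_012_s3 : ℕ → ℕ → ℕ → ℕ → Bool := onCell 536870912 536870912 0 536870912 587336777 62277027
    (rowF 2 false true false .pnp 0 1 2 (qsf 0 536870912 0 536870912 1) ndB0q0 ndB0q2 pcB1 cut_B00pm_012_s3 Ext.none)

def k0_B00pm_012_s3 : ∃ t, chk3 f_B00pm_012_s3 t 1 1 1 = true :=
  ⟨(a (b (l 6) (a (l 6) (l 6))) (b (l 6) (a (b (l 6) (b (l 6) (a (b (l 6) (a (b (l 6) (l 16615024)) (b (l 16625168) (a (l 16552544) (l 16566760))))) (a (a (b (l 6) (b (l 16561448) (l 16622952))) (b (b (l 6) (l 16556680)) (b (l 16617288) (b (l 16590336) (l 16600840))))) (b (b (l 16559448) (a (l 16570408) (l 16583712))) (a (b (l 16589536) (b (l 16604928) (l 16615728))) (b (l 16624408) (b (l 16619336) (b (l 16627648) (l 16633320)))))))))) (b (l 6) (b (a (b (l 6) (a (b (l 6) (l 16567288)) (b (l 16573520)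 (l 16590368)))) (a (b (l 16592024) (a (l 16598896) (l 16610600))) (b (a (l 16586128) (l 16595928)) (a (l 16643688) (a (l 16632168) (l 16638472)))))) (a (b (a (b (a (l 16578232) (l 16590520)) (a (l 16596792) (l 16609848))) (b (a (l 16602840) (l 16615336)) (a (l 16623024) (l 16636464)))) (b (a (b (a (l 16611904) (l 16625568)) (a (l 16622592) (l 16636680))) (a (b (l 16639424) (l 16651016)) (b (l 16653616) (l 16665712)))) (a (b (a (l 16633720) (l 16669232)) (a (a (l 16641576) (l 16669984)) (b (l 16657224) (a (l 16659544) (l 16667184))))) (b (a (b (l 16660008) (l 16666160)) (b (l 16675104) (l 16681520))) (b (a (l 16682912) (a (l 16684104) (l 16692040))) (a (a (l 16674904) (l 16682736)) (a (l 16690688) (l 16698760)))))))) (b (a (a (b (l 16628152) (l 16671264)) (b (l 16683312) (a (l 16660968) (l 16668256)))) (a (b (l 16655120) (l 14)) (l 14))) (a (a (a (b (l 16691736) (b (l 16690040) (b (l 16700104) (l 16706968)))) (b (l 16699312) (b (l 16698040)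 (l 14)))) (b (b (l 16683376) (l 14)) (l 14))) (l 14))))))))), by decide +kernel⟩

theorem c_B00pm_012_s3 : CertF 0 536870912 0 536870912 587336777 62277027 false true false .pnp 0 1 2
    ndB0q0 ndB0q2 pcB1 cut_B00pm_012_s3 Ext.none :=
  certF2 (fam := false) (s1 := true) (s2 := false) (a := 0) (b := 1) (c := 2) (cn := .pnp) (n1 := ndB0q0) (n2 := ndB0q2) (pc := pcB1) (cut := cut_B00pm_012_s3) (xt := Ext.none) (P1 := 0) (W1 := 536870912) (P2 := 0) (W2 := 536870912) (P3 := 587336777) (W3 := 62277027)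
    rfl (fun _ => rfl) k0_B00pm_012_s3

theorem s_B00pm_012_s3 {κ x : ℝ} (hκ : κ * h0 = ken x) (hx : ((587336777 : ℕ) : ℝ) / S ≤ x)
    (hx' : x ≤ (((587336777 : ℕ) : ℝ) + (62277027 : ℕ)) / S)
    (H : CutB (VFD κ) PP tK tL pcB (Cut.of [[⟨0, 0, 0, 67108864⟩, ⟨1, 1, 0, 67108864⟩, ⟨2, 1, 0, 67108864⟩]]) 0 1 2 0 0 (sgb true) (sgb false) x) :
    AltB (VFD κ) PP tK tL pcB [⟨4, 0, 0, 2845415833⟩] 0 1 2 0 0 (sgb true) (sgb false) x :=
  strip_altBD (m := 2845415833) false rfl hκ (SH.κ0 hκ (SH.hx1 hx).le (SH.hx2 hx').le) (SH.hx1 hx).le (SH.hx2 hx') (covB00).cov (covB02).cov hx hx' c_B00pm_012_s3 H (noExt_B)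

noncomputable def cut_B00pm_022_s1 : Cut := Cut.of [[⟨4, 0, 0, 1449551462⟩], [⟨0, 0, 0, 67108864⟩, ⟨1, 1, 0, 67108864⟩, ⟨2, 1, 0, 67108864⟩]]

noncomputable def f_B00pm_022_s1 : ℕ → ℕ → ℕ → ℕ → Bool := onCell 1073741824 536870912 0 536870912 587336777 62277027
    (rowF 2 false true false .pp 0 2 2 (qsf 0 536870912 0 536870912 2) ndB0q0 ndB0q2 pcB2 cut_B00pm_022_s1 Ext.none)

def k0_B00pm_022_s1 : ∃ t, chk3 f_B00pm_022_s1 t 1 1 1 = true :=
  ⟨(l 6), by decide +kernel⟩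

theorem c_B00pm_022_s1 : CertF 0 536870912 0 536870912 587336777 62277027 false true false .pp 0 2 2
    ndB0q0 ndB0q2 pcB2 cut_B00pm_022_s1 Ext.none :=
  certF2 (fam := false) (s1 := true) (s2 := false) (a := 0) (b := 2) (c := 2) (cn := .pp) (n1 := ndB0q0) (n2 := ndB0q2) (pc := pcB2) (cut := cut_B00pm_022_s1) (xt := Ext.none) (P1 := 0) (W1 := 536870912) (P2 := 0) (W2 := 536870912) (P3 := 587336777) (W3 := 62277027)
    rfl (fun _ => rfl) k0_B00pm_022_s1

theorem s_B00pm_022_s1 {κ x : ℝ} (hκ : κ * h0 = ken x) (hx : ((587336777 : ℕ) : ℝ) / S ≤ x)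
    (hx' : x ≤ (((587336777 : ℕ) : ℝ) + (62277027 : ℕ)) / S)
    (H : CutB (VFD κ) PP tK tL pcB (Cut.of [[⟨0, 0, 0, 67108864⟩, ⟨1, 1, 0, 67108864⟩, ⟨2, 1, 0, 67108864⟩]]) 0 2 2 0 0 (sgb true) (sgb false) x) :
    AltB (VFD κ) PP tK tL pcB [⟨3, 0, 0, 1449551462⟩] 0 2 2 0 0 (sgb true) (sgb false) x :=
  strip_altBD (m := 1449551462) true rfl hκ (SH.κ0 hκ (SH.hx1 hx).le (SH.hx2 hx').le) (SH.hx1 hx).le (SH.hx2 hx') (covB00).cov (covB02).cov hx hx' c_B00pm_022_s1 H (noExt_B)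

noncomputable def cut_B00pm_022_s3 : Cut := Cut.of [[⟨3, 0, 0, 2845415833⟩], [⟨0, 0, 0, 67108864⟩, ⟨1, 1, 0, 67108864⟩, ⟨2, 1, 0, 67108864⟩]]

noncomputable def f_B00pm_022_s3 : ℕ → ℕ → ℕ → ℕ → Bool := onCell 0 536870912 0 536870912 587336777 62277027
    (rowF 0 false true false .pp 0 2 2 (qsf 0 536870912 0 536870912 2) ndB0q0 ndB0q2 pcB2 cut_B00pm_022_s3 Ext.none)

def k0_B00pm_022_s3 : ∃ t, chk3 f_B00pm_022_s3 t 1 1 1 = true :=
  ⟨(a (b (l 6) (a (b (b (l 6) (a (a (b (b (a (a (c (l 16577432) (a (l 16574312) (l 6))) (l 6)) (l 6)) (a (a (b (l 16584776) (l 16591000)) (l 16585192)) (a (l 16582200) (l 6)))) (a (a (b (b (l 16597384) (l 16603960)) (a (l 16615016) (l 16613480))) (b (l 16597720) (l 16611024))) (a (b (l 16594464) (l 16607496)) (b (l 16590952) (l 16603712))))) (a (b (l 6) (b (l 16585288) (l 16597608))) (b (l 6) (b (l 6) (l 16586240))))) (b (l 6) (a (l 6) (l 1))))) (a (a (b (b (a (a (b (a (l 16629552) (l 16627888)) (a (l 16645064)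 (l 16643264))) (b (l 16625232) (l 16640408))) (a (b (l 16621432) (l 16636328)) (b (l 16617352) (l 16631968)))) (l 14)) (l 14)) (a (b (b (b (l 16610808) (l 16624976)) (l 14)) (l 14)) (b (b (b (l 16598208) (l 16610472)) (b (l 16622960) (l 16630336))) (l 1)))) (b (a (b (a (b (l 16583432) (l 16594320)) (l 1)) (l 1)) (l 1)) (l 1)))) (b (l 1) (l 1)))) (l 1)), by decide +kernel⟩

theorem c_B00pm_022_s3 : CertF 0 536870912 0 536870912 587336777 62277027 false true false .pp 0 2 2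
    ndB0q0 ndB0q2 pcB2 cut_B00pm_022_s3 Ext.none :=
  certF0 (fam := false) (s1 := true) (s2 := false) (a := 0) (b := 2) (c := 2) (cn := .pp) (n1 := ndB0q0) (n2 := ndB0q2) (pc := pcB2) (cut := cut_B00pm_022_s3) (xt := Ext.none) (P1 := 0) (W1 := 536870912) (P2 := 0) (W2 := 536870912) (P3 := 587336777) (W3 := 62277027)
    rfl k0_B00pm_022_s3

theorem s_B00pm_022_s3 {κ x : ℝ} (hκ : κ * h0 = ken x) (hx : ((587336777 : ℕ) : ℝ) / S ≤ x)
    (hx' : x ≤ (((587336777 : ℕ) : ℝ) + (62277027 : ℕ)) / S)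
    (H : CutB (VFD κ) PP tK tL pcB (Cut.of [[⟨0, 0, 0, 67108864⟩, ⟨1, 1, 0, 67108864⟩, ⟨2, 1, 0, 67108864⟩]]) 0 2 2 0 0 (sgb true) (sgb false) x) :
    AltB (VFD κ) PP tK tL pcB [⟨4, 0, 0, 2845415833⟩] 0 2 2 0 0 (sgb true) (sgb false) x :=
  strip_altBD (m := 2845415833) false rfl hκ (SH.κ0 hκ (SH.hx1 hx).le (SH.hx2 hx').le) (SH.hx1 hx).le (SH.hx2 hx') (covB00).cov (covB02).cov hx hx' c_B00pm_022_s3 H (noExt_B)

noncomputable def cut_B00pm_101_s1 : Cut := Cut.of [[⟨4, 0, 0, 1449551462⟩], [⟨0, 1, 0, 67108864⟩, ⟨1, 0, 0, 67108864⟩, ⟨2, 1, 0, 67108864⟩], [⟨0, 0, 1, 20971520⟩, ⟨1, 1, 2, 20971520⟩, ⟨2, 1, 0, 29360128⟩]]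

noncomputable def f_B00pm_101_s1 : ℕ → ℕ → ℕ → ℕ → Bool := onCell 536870912 536870912 536870912 536870912 587336777 62277027
    (rowF 0 false true false .npn 1 0 1 (qsf 536870912 536870912 536870912 536870912 0) ndB0q1 ndB0q1 pcB0 cut_B00pm_101_s1 Ext.none)

def k0_B00pm_101_s1 : ∃ t, chk3 f_B00pm_101_s1 t 2 1 1 = true :=
  ⟨(l 6), by decide +kernel⟩

def k1_B00pm_101_s1 : ∃ t, chk3 f_B00pm_101_s1 t 3 2 1 = true :=
  ⟨(l 6), by decide +kernel⟩

def k2_B00pm_101_s1 : ∃ t, chk3 f_B00pm_101_s1 t 6 3 1 = true :=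
  ⟨(b (l 6) (b (l 6) (a (l 6) (b (l 6) (a (l 6) (b (l 6) (a (l 6) (b (l 6) (a (l 6) (b (l 6) (l 16824920))))))))))), by decide +kernel⟩

def k3_B00pm_101_s1 : ∃ t, chk3 f_B00pm_101_s1 t 7 3 1 = true :=
  ⟨(b (a (l 6) (l 1)) (b (a (l 6) (a (a (a (a (a (l 6) (l 1)) (l 1)) (l 1)) (l 1)) (l 1))) (a (b (a (l 6) (b (a (l 6) (b (l 16837560) (l 16832952))) (c (b (a (l 16837056) (l 16833112)) (a (l 16833288) (l 16829184))) (a (b (l 16827904) (l 16823832)) (b (l 16824928) (b (l 16821784) (l 16819768))))))) (a (b (a (b (l 6) (l 6)) (a (b (l 6) (l 16825808)) (b (l 16827240) (l 16823968)))) (a (a (b (l 16826536) (c (l 16829328) (l 16818944))) (a (b (l 16825184) (l 16822320)) (b (l 16824232) (l 16821320)))) (b (c (a (l 16828264) (l 16826168)) (a (l 16817944) (l 16816128))) (a (c (l 16825136) (l 16815072)) (c (l 16822928) (l 16813152)))))) (b (b (a (a (l 16825504) (l 16823728)) (c (l 16825424) (a (l 16817760) (l 16816064)))) (a (c (b (l 16827144) (l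 16825448)) (a (l 16817568) (l 16815920))) (c (a (l 16823008) (l 16820616)) (a (l 16814224) (l 16812448))))) (a (b (c (a (l 16824032) (l 16821808)) (a (l 16814392) (l 16812648))) (c (a (l 16820680) (l 16818336)) (a (l 16811312) (l 16809472)))) (b (c (a (l 16819456) (l 16816952)) (a (l 16810872) (l 16809000))) (a (c (l 16815864) (l 16807584)) (c (l 16813232) (l 16805616)))))))) (b (b (a (a (b (l 16833896) (c (l 16832792) (l 16826200))) (b (l 1) (l 14))) (l 1)) (a (a (a (b (l 16825800) (l 16821664)) (l 14)) (l 14)) (l 14))) (a (a (a (a (a (b (b (l 16818608) (l 16814928)) (b (l 16811336) (l 16807736))) (l 14)) (l 14)) (l 14)) (l 14)) (l 14)))))), by decide +kernel⟩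

theorem t4_B00pm_101_s1 : ∃ t, chk3 f_B00pm_101_s1 t 3 3 1 = true := ex3_a k2_B00pm_101_s1 k3_B00pm_101_s1

theorem t5_B00pm_101_s1 : ∃ t, chk3 f_B00pm_101_s1 t 3 1 1 = true := ex3_b k1_B00pm_101_s1 t4_B00pm_101_s1

theorem t6_B00pm_101_s1 : ∃ t, chk3 f_B00pm_101_s1 t 1 1 1 = true := ex3_a k0_B00pm_101_s1 t5_B00pm_101_s1

theorem c_B00pm_101_s1 : CertF 536870912 536870912 536870912 536870912 587336777 62277027 false true false .npn 1 0 1
    ndB0q1 ndB0q1 pcB0 cut_B00pm_101_s1 Ext.none :=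
  certF0 (fam := false) (s1 := true) (s2 := false) (a := 1) (b := 0) (c := 1) (cn := .npn) (n1 := ndB0q1) (n2 := ndB0q1) (pc := pcB0) (cut := cut_B00pm_101_s1) (xt := Ext.none) (P1 := 536870912) (W1 := 536870912) (P2 := 536870912) (W2 := 536870912) (P3 := 587336777) (W3 := 62277027)
    rfl t6_B00pm_101_s1

theorem s_B00pm_101_s1 {κ x : ℝ} (hκ : κ * h0 = ken x) (hx : ((587336777 : ℕ) : ℝ) / S ≤ x)
    (hx' : x ≤ (((587336777 : ℕ) : ℝ) + (62277027 : ℕ)) / S)
    (H : CutB (VFD κ) PP tK tL pcB (Cut.of [[⟨0, 1, 0, 67108864⟩, ⟨1, 0, 0, 67108864⟩, ⟨2, 1, 0, 67108864⟩], [⟨0, 0, 1, 20971520⟩, ⟨1, 1, 2, 20971520⟩, ⟨2, 1, 0, 29360128⟩]]) 1 0 1 0 0 (sgb true) (sgb false) x) :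
    AltB (VFD κ) PP tK tL pcB [⟨3, 0, 0, 1449551462⟩] 1 0 1 0 0 (sgb true) (sgb false) x :=
  strip_altBD (m := 1449551462) true rfl hκ (SH.κ0 hκ (SH.hx1 hx).le (SH.hx2 hx').le) (SH.hx1 hx).le (SH.hx2 hx') (covB01).cov (covB01).cov hx hx' c_B00pm_101_s1 H (noExt_B)

noncomputable def cut_B00pm_101_s3 : Cut := Cut.of [[⟨3, 0, 0, 2845415833⟩], [⟨0, 1, 0, 67108864⟩, ⟨1, 0, 0, 67108864⟩, ⟨2, 1, 0, 67108864⟩], [⟨0, 0, 1, 20971520⟩, ⟨1, 1, 2, 20971520⟩, ⟨2, 1, 0, 29360128⟩]]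

noncomputable def xt_B00pm_101_s3 : Ext := strExt0 dd false true false .u0 .u0m .s0m .npn 1 0 1 rfl rfl gl0 vv ww kz ndB0q1 ndB0q1

noncomputable def f_B00pm_101_s3 : ℕ → ℕ → ℕ → ℕ → Bool := onCell 536870912 536870912 536870912 536870912 587336777 62277027
    (rowF 0 false true false .npn 1 0 1 (qsf 536870912 536870912 536870912 536870912 0) ndB0q1 ndB0q1 pcB0 cut_B00pm_101_s3 xt_B00pm_101_s3)

def k0_B00pm_101_s3 : ∃ t, chk3 f_B00pm_101_s3 t 4 4 1 = true :=
  ⟨(a (b (l 4) (a (b (l 4) (a (l 4) (a (l 4) (a (l 4) (b (l 4) (b (l 4) (a (a (l 4) (l 1074256399)) (l 1074292239)))))))) (b (a (l 4) (a (l 4) (a (l 4) (b (l 4) (b (l 4) (l 1075346959)))))) (a (b (a (l 4) (b (l 4) (c (l 1074895887) (l 1074709519)))) (a (b (c (l 1074653199) (l 1074390543)) (l 1074680847)) (b (c (l 1074813967) (l 1074604047)) (l 1074600975)))) (b (a (b (c (l 1075127311) (l 1075013135)) (c (l 1075051535) (l 1074916367))) (b (c (l 1075276303) (l 1075212303)) (l 1075148303)))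 (a (b (l 1074881039) (l 1074786319)) (b (l 1075060751) (l 1074968591)))))))) (b (a (a (l 4) (l 1)) (l 1)) (b (a (a (a (b (l 4) (c (l 1075516431) (b (l 1075559951) (l 1075487247)))) (b (a (l 4) (b (l 1) (l 1075776015))) (c (l 1075651087) (b (l 1075737615) (l 1075671567))))) (b (a (c (l 1075859983) (b (l 1) (l 1075958287))) (l 1)) (c (l 1075845647) (a (l 1075881999) (l 1076049423))))) (a (b (l 1) (a (l 1076096527) (l 1))) (l 1))) (a (a (b (a (b (l 1075399183) (l 1075320847)) (b (l 1075563535) (l 1075489295))) (a (b (l 1075236879) (l 1075147791)) (l 1075368975))) (b (a (l 1076227599) (l 1075847183)) (a (l 1075538959) (l 1075704335)))) (b (a (a (l 1075997711) (l 1076141583)) (l 1076348431)) (a (a (l 1075864591) (l 1076019727)) (l 1076245519))))))), by decide +kernel⟩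

def k1_B00pm_101_s3 : ∃ t, chk3 f_B00pm_101_s3 t 16 20 1 = true :=
  ⟨(a (b (a (l 4) (b (l 4) (b (l 4) (a (l 1073695759) (l 1073771023))))) (b (b (a (a (l 4) (a (l 4) (c (l 1073838607) (l 1073422863)))) (l 1073702415)) (b (a (a (l 4) (a (c (c (l 1073904143) (l 1073676815)) (l 1073377807)) (c (l 1073818639) (l 1073409039)))) (l 1073680911)) (a (a (l 1073512975) (a (l 1073560079) (c (l 1073804815) (l 1073399823)))) (a (a (l 1073622031) (l 1073653263)) (l 1073699343))))) (a (a (l 1073483279) (a (l 1073530383) (b (c (l 1073784847) (l 1073385487)) (l 1073549327)))) (a (b (a (b (l 1073610255) (l 1073598479)) (l 1073635855)) (a (l 1073580559) (l 1073611791))) (b (l 1073681935) (l 1073658383)))))) (b (b (a (b (l 4) (a (l 4) (l 1073995791))) (a (b (b (a (l 4) (c (l 1074322447) (l 1073959439))) (a (l 1074076687) (b (l 1074115087) (l 1074108431)))) (a (l 1074051087) (l 1074087951))) (b (b (a (b (a (l 1074173967) (l 1074198031)) (a (l 1074161167)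 (l 1074185231))) (b (l 1074233871) (l 1074221071))) (a (a (l 1074144271) (l 1074167823)) (b (l 1074208783) (l 1074197519)))) (a (b (l 1074136591) (l 1074118671)) (b (l 1074182159) (l 1074162191)))))) (a (c (l 1074108431) (l 1073721359)) (a (b (l 1074034703) (l 1073998351)) (b (a (l 1074091535) (l 1074134031)) (l 1074076175))))) (a (b (b (l 1073848335) (l 1073810959)) (b (l 1073778703) (l 1073751055))) (b (a (l 1073943055) (l 1074020879)) (a (l 1073867279) (l 1073943567)))))), by decide +kernel⟩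

def k2_B00pm_101_s3 : ∃ t, chk3 f_B00pm_101_s3 t 17 20 1 = true :=
  ⟨(b (b (a (b (a (b (l 1074348047) (a (l 1074274831) (l 1074370063))) (b (l 1074536975) (l 1074512399))) (a (a (b (l 1074252303) (l 1074231311)) (l 1074336271)) (l 1074477583))) (b (a (l 1074711567) (l 1074895887)) (a (l 1074664463) (l 1074849295)))) (a (a (b (a (b (l 1074211343) (l 1074191375)) (l 1074293775)) (a (l 1074162191) (l 1074252815))) (b (l 1074434063) (l 1074392079))) (b (a (l 1074619919) (l 1074804751)) (l 1074671631)))) (a (b (a (b (l 1074436623) (l 1074128911)) (b (l 1074350095) (l 1074308623))) (a (l 1074070031) (l 1074247183))) (a (b (l 1074514447) (l 1074429455)) (b (l 1074698255) (l 1074613263))))), by decide +kernel⟩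

def k3_B00pm_101_s3 : ∃ t, chk3 f_B00pm_101_s3 t 8 21 1 = true :=
  ⟨(a (a (b (a (a (b (l 1073433615) (l 1073382415)) (b (c (l 1073700879) (l 1073319439)) (l 1073446415))) (c (b (a (l 1073762831) (l 1073823759)) (a (l 1073706511) (l 1073767439))) (a (b (l 1073382927) (l 1073340431)) (b (l 1073445903) (l 1073403919))))) (a (c (b (l 1073557007) (l 1073495055)) (b (l 1073198095) (l 1073139727))) (c (b (l 1073680911) (l 1073619983)) (b (c (l 1073405967) (l 1073256975)) (l 1073272335))))) (b (a (b (c (l 1073914895) (l 1073540111)) (c (l 1073859087) (l 1073498639))) (c (b (l 1074035727) (l 1073978383)) (a (l 1073612815) (l 1073678351)))) (b (a (c (l 1073802767) (c (l 1073531919) (l 1073383951))) (c (l 16778512) (l 1073579023))) (a (c (l 16777136) (l 1073400847)) (c (l 16778200) (l 1073526799)))))) (c (b (a (a (l 1074142223) (l 1074289167)) (b (l 1074565135) (l 1074484239))) (a (a (l 1074018831) (l 1074148367)) (b (l 1074402831) (l 1074323983))))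 (a (b (a (b (l 1073827343) (l 1073759247)) (l 1073980943)) (a (b (l 16776840) (l 16776288)) (b (l 1073860623) (l 16777792)))) (b (b (l 1074333199) (l 1074239503)) (b (l 1074144271) (l 1074054671)))))), by decide +kernel⟩

def k4_B00pm_101_s3 : ∃ t, chk3 f_B00pm_101_s3 t 9 10 1 = true :=
  ⟨(b (b (a (b (a (a (l 1075054607) (l 1075232783)) (a (l 1075407375) (l 1075578383))) (a (b (l 1075079183) (l 1075036175)) (l 1075412495))) (b (a (l 1075829263) (l 1076142607)) (a (l 1075751439) (l 1076072975)))) (a (b (a (l 1074974223) (l 1075330575)) (a (l 1074889743) (l 1075248143))) (a (b (l 1075674127) (l 1075595791)) (b (l 1076002319) (l 1075929615))))) (a (a (b (b (l 1074803727) (l 1074715663)) (b (l 1075162127) (l 1074529295))) (b (b (l 1075164175) (l 1075077647)) (c (l 1074991119) (l 1074928655)))) (b (c (l 1076152847) (b (l 1075778063) (l 1075690511))) (a (c (l 16827960) (l 1075340815)) (b (l 1075692047) (l 16818856)))))), by decide +kernel⟩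

def k5_B00pm_101_s3 : ∃ t, chk3 f_B00pm_101_s3 t 4 11 1 = true :=
  ⟨(a (a (b (a (b (a (c (b (l 1073430031) (l 16774096)) (b (l 1073071119) (l 16760656))) (c (b (l 16775664) (l 16774824)) (b (l 1073205775) (l 16771560)))) (a (c (b (l 16773000) (l 16771736)) (b (l 16769488) (l 16767608))) (b (a (l 16771616) (l 16772008)) (c (l 16772648) (l 16768256))))) (b (a (c (c (l 16777128) (l 16785680)) (b (l 1073336847) (l 16772232))) (b (c (l 16777712) (l 16774304)) (c (l 16777048) (l 16773176)))) (a (b (c (l 16774888) (l 16770792)) (l 16771304)) (c (l 16775648) (l 16760504))))) (a (a (b (b (a (l 16767576) (l 16767960)) (l 16776136)) (b (l 16763232) (l 16760520))) (b (b (l 16789584) (l 16766632)) (c (l 16766744) (l 16759600)))) (b (a (b (l 16769720) (l 16767848)) (b (l 16771064) (l 16769272))) (a (c (l 16768184) (l 16760872)) (l 16765896))))) (a (b (b (a (b (l 16777192) (l 16776368)) (c (l 16780656) (l 16776584))) (c (l 16778152) (a (l 16772424)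 (l 16774288)))) (b (a (l 16750856) (l 16773896)) (a (l 16767752) (l 16769976)))) (b (b (b (a (l 16780952) (l 1074170383)) (l 16781448)) (c (l 16782800) (l 16777744))) (b (a (l 16776352) (l 16779176)) (l 16773904))))) (a (b (b (a (c (l 1074504207) (c (l 16766056) (l 1074258447))) (c (l 16797744) (l 16774544))) (a (c (l 16788776) (a (l 16782360) (l 16785936))) (c (l 16796472) (l 16750784)))) (b (a (l 16783976) (c (l 16794672) (l 16789528))) (a (l 16780504) (l 16788536)))) (b (b (a (c (l 16807136) (l 16806992)) (l 1075189263)) (a (c (l 16806096) (l 16804456)) (l 16806968))) (b (a (c (l 16803992) (l 16800424)) (l 16814536)) (a (l 16798008) (l 6)))))), by decide +kernel⟩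

def k6_B00pm_101_s3 : ∃ t, chk3 f_B00pm_101_s3 t 5 2 1 = true :=
  ⟨(b (a (b (l 1) (a (b (l 1) (a (a (b (l 1) (l 1076449295)) (l 1)) (l 1))) (l 1))) (l 1)) (b (a (a (b (a (b (a (l 1076332047) (l 1076479503)) (a (l 1076203023) (l 1076359695))) (a (b (l 1076626959) (l 1076516367)) (b (l 1) (l 1076671503)))) (b (a (b (l 1076179471) (l 1076106255)) (b (l 1077041167) (l 1076437519))) (a (c (l 16828960) (l 16793080)) (c (l 16842080) (l 16851768))))) (b (a (b (l 1) (c (l 16848264) (l 56405061783))) (l 1)) (a (b (c (l 16852888) (l 16782272)) (c (l 16856616) (l 16870720))) (b (c (l 16867896) (l 16885720)) (l 6))))) (a (b (l 1) (l 6)) (l 1))) (a (b (a (b (a (c (l 16830104) (l 16835752)) (c (l 16843808) (l 16853376))) (a (l 16831664) (l 6))) (l 6)) (l 6)) (l 6)))), by decide +kernel⟩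

def k7_B00pm_101_s3 : ∃ t, chk3 f_B00pm_101_s3 t 2 3 1 = true :=
  ⟨(b (a (b (a (a (b (a (a (b (b (l 16757552) (a (l 16753832) (l 16754680))) (b (l 16791800) (l 16744656))) (b (c (l 16762088) (l 16752768)) (b (l 16794152) (l 16747712)))) (b (c (a (l 16763672) (l 16765456)) (l 16733960)) (c (a (l 16779328) (l 16760376)) (l 16726240)))) (a (a (b (l 16778088) (l 16723904)) (b (l 16781352) (l 16727360))) (b (c (a (l 16750656) (l 16753992)) (l 16737152)) (a (l 16731120) (l 16735208))))) (b (a (b (l 16805456) (l 16799304)) (b (l 16768904) (l 16762944))) (a (c (b (l 16758168) (l 16750744)) (b (l 16743392) (l 16732880))) (b (l 16756368) (l 6))))) (a (b (a (b (l 16775704) (l 16769872)) (b (l 16783880) (l 6))) (l 6)) (l 6))) (a (a (a (b (b (a (l 16710912) (l 16714488)) (l 6)) (l 6)) (l 6)) (l 6)) (l 6))) (l 6)) (l 6)), by decide +kernel⟩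

def k8_B00pm_101_s3 : ∃ t, chk3 f_B00pm_101_s3 t 3 1 1 = true :=
  ⟨(b (a (b (l 1) (l 6)) (l 1)) (l 6)), by decide +kernel⟩

theorem t9_B00pm_101_s3 : ∃ t, chk3 f_B00pm_101_s3 t 8 20 1 = true := ex3_a k1_B00pm_101_s3 k2_B00pm_101_s3

theorem t10_B00pm_101_s3 : ∃ t, chk3 f_B00pm_101_s3 t 8 10 1 = true := ex3_b t9_B00pm_101_s3 k3_B00pm_101_s3

theorem t11_B00pm_101_s3 : ∃ t, chk3 f_B00pm_101_s3 t 4 10 1 = true := ex3_a t10_B00pm_101_s3 k4_B00pm_101_s3

theorem t12_B00pm_101_s3 : ∃ t, chk3 f_B00pm_101_s3 t 4 5 1 = true := ex3_b t11_B00pm_101_s3 k5_B00pm_101_s3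

theorem t13_B00pm_101_s3 : ∃ t, chk3 f_B00pm_101_s3 t 4 2 1 = true := ex3_b k0_B00pm_101_s3 t12_B00pm_101_s3

theorem t14_B00pm_101_s3 : ∃ t, chk3 f_B00pm_101_s3 t 2 2 1 = true := ex3_a t13_B00pm_101_s3 k6_B00pm_101_s3

theorem t15_B00pm_101_s3 : ∃ t, chk3 f_B00pm_101_s3 t 2 1 1 = true := ex3_b t14_B00pm_101_s3 k7_B00pm_101_s3

theorem t16_B00pm_101_s3 : ∃ t, chk3 f_B00pm_101_s3 t 1 1 1 = true := ex3_a t15_B00pm_101_s3 k8_B00pm_101_s3

theorem c_B00pm_101_s3 : CertF 536870912 536870912 536870912 536870912 587336777 62277027 false true false .npn 1 0 1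
    ndB0q1 ndB0q1 pcB0 cut_B00pm_101_s3 xt_B00pm_101_s3 :=
  certF0 (fam := false) (s1 := true) (s2 := false) (a := 1) (b := 0) (c := 1) (cn := .npn) (n1 := ndB0q1) (n2 := ndB0q1) (pc := pcB0) (cut := cut_B00pm_101_s3) (xt := xt_B00pm_101_s3) (P1 := 536870912) (W1 := 536870912) (P2 := 536870912) (W2 := 536870912) (P3 := 587336777) (W3 := 62277027)
    rfl t16_B00pm_101_s3

theorem s_B00pm_101_s3 {κ x : ℝ} (hκ : κ * h0 = ken x) (hx : ((587336777 : ℕ) : ℝ) / S ≤ x)
    (hx' : x ≤ (((587336777 : ℕ) : ℝ) + (62277027 : ℕ)) / S)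
    (H : CutB (VFD κ) PP tK tL pcB (Cut.of [[⟨0, 1, 0, 67108864⟩, ⟨1, 0, 0, 67108864⟩, ⟨2, 1, 0, 67108864⟩], [⟨0, 0, 1, 20971520⟩, ⟨1, 1, 2, 20971520⟩, ⟨2, 1, 0, 29360128⟩]]) 1 0 1 0 0 (sgb true) (sgb false) x) :
    AltB (VFD κ) PP tK tL pcB [⟨4, 0, 0, 2845415833⟩] 1 0 1 0 0 (sgb true) (sgb false) x :=
  strip_altBD (m := 2845415833) false rfl hκ (SH.κ0 hκ (SH.hx1 hx).le (SH.hx2 hx').le) (SH.hx1 hx).le (SH.hx2 hx') (covB01).cov (covB01).cov hx hx' c_B00pm_101_s3 H ((okx6 hx hx').ext0B (T := tt) (zx hx hx') (okx hx hx') (sideB hx hx') hκ rfl rfl (.O 1 true) (.O 1 false) (Or.inl rfl))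

end Pool.Agent.Strip051.G.I5470_6050.Tab.St.C
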