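import Pool.Agent.Strip051.G.I5470_6050.StH
import Pool.Agent.Strip051.G.I5470_6050.StF

/-! # Unit strips 25 (generated) -/

set_option linter.all false
set_option maxRecDepth 100000

namespace Pool.Agent.Strip051.G.I5470_6050.Tab.St.C

open Pool.Agent.Strip051.PB Pool.Agent.Strip051.PB.T Pool.Agent.StripNear Pool.Agent.Strip051.LC
open Pool.Agent.Strip051.G.I5470_6050.Tab Pool.Agent.Strip051.G.I5470_6050.Tab.St

noncomputable def cut_B00pm_102_s1 : Cut := Cut.of [[⟨4, 0, 0, 1449551462⟩], [⟨0, 1, 0, 67108864⟩, ⟨1, 0, 0, 67108864⟩, ⟨2, 1, 0, 67108864⟩], [⟨0, 0, 1, 20971520⟩, ⟨1, 1, 2, 20971520⟩, ⟨2, 1, 0, 29360128⟩]]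

noncomputable def xt_B00pm_102_s1 : Ext := strExt0 dd false true false .u0 .u2 .u0m .npp 1 0 2 rfl rfl gf0 vv ww kz ndB0q1 ndB0q2

noncomputable def f_B00pm_102_s1 : ℕ → ℕ → ℕ → ℕ → Bool := onCell 536870912 536870912 0 536870912 587336777 62277027
    (rowF 0 false true false .npp 1 0 2 (qsf 536870912 536870912 0 536870912 0) ndB0q1 ndB0q2 pcB0 cut_B00pm_102_s1 xt_B00pm_102_s1)

def k0_B00pm_102_s1 : ∃ t, chk3 f_B00pm_102_s1 t 4 2 1 = true :=
  ⟨(b (l 2) (a (l 2) (a (l 2) (a (l 2) (b (l 2) (b (l 2) (b (l 139150081799) (l 16709936)))))))), by decide +kernel⟩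

def k1_B00pm_102_s1 : ∃ t, chk3 f_B00pm_102_s1 t 5 8 1 = true :=
  ⟨(a (a (a (l 2) (l 3)) (l 3)) (l 3)), by decide +kernel⟩

def k2_B00pm_102_s1 : ∃ t, chk3 f_B00pm_102_s1 t 20 9 1 = true :=
  ⟨(a (l 2) (b (a (l 2) (b (b (l 3) (c (l 1071698447) (l 1070666767))) (c (l 1071751695) (l 1070739471)))) (b (b (a (l 2) (a (l 1071333391) (l 1070759439))) (a (a (l 2) (l 1071419919)) (c (l 1071298063) (l 1070315535)))) (a (a (l 2) (b (b (a (l 2) (l 16763624)) (l 16762176)) (l 16759816))) (b (a (b (l 16764592) (a (l 16762976) (l 16763504))) (a (l 1071373839) (l 1070824975))) (a (c (l 16764568) (l 16758104)) (b (a (l 16762928) (l 16763488)) (l 16762056)))))))), by decide +kernel⟩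

def k3_B00pm_102_s1 : ∃ t, chk3 f_B00pm_102_s1 t 21 18 1 = true :=
  ⟨(b (l 3) (a (b (a (c (a (l 1071677967) (l 1071657487)) (a (l 1070687759) (l 1070689807))) (l 3)) (a (c (l 1071704079) (a (l 1070738447) (l 1070743567))) (a (c (l 1071691279) (l 1069690895)) (a (b (l 3) (l 1070185487)) (l 3))))) (l 3))), by decide +kernel⟩

def k4_B00pm_102_s1 : ∃ t, chk3 f_B00pm_102_s1 t 42 19 1 = true :=
  ⟨(b (c (a (b (a (l 1071752207) (l 1070661647)) (a (l 1071787023) (b (l 1071763471) (l 1071780879)))) (a (b (b (l 1071721999) (l 1071741967)) (b (c (l 1071982095) (l 1071538703)) (c (l 1071999503) (l 1071557647)))) (b (b (l 1071730191) (b (l 1071746063) (a (l 1071753231) (l 1071760911)))) (b (a (c (l 1071983631) (l 1071550479)) (b (l 1071770639) (l 1071780367))) (a (l 1071786511) (l 1071794191)))))) (a (b (a (l 1070789135) (b (l 1070783503) (l 1070809615))) (a (l 1070835727) (b (l 1070834191) (l 1070855695)))) (a (b (b (l 1070806543) (a (l 1070826511) (l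 1070842895))) (b (a (l 1070851599) (l 1070868495)) (c (l 1071108623) (l 1070652943)))) (b (b (l 1070845455) (b (l 1070866959) (a (l 1070870031) (l 1070894095)))) (b (a (b (l 1070882831) (l 1070894095)) (b (l 1070906383) (l 1070918159))) (a (l 1070910479) (l 1070934543))))))) (b (a (c (a (l 1071818767) (c (l 16768016) (l 1071579151))) (a (l 1070337039) (b (l 1070876175) (l 16765440)))) (a (c (b (l 1071797263) (l 1071814159)) (b (l 1070633999) (l 1070922767))) (c (c (l 1072029711) (l 1071603727)) (b (l 1070943247) (l 1070964751))))) (a (a (b (l 16759384) (a (l 16752504) (l 16758344))) (a (l 1070846479) (l 1070313999))) (a (c (l 1071840271) (l 1070952975)) (c (l 1071854095) (l 1070997007)))))), by decide +kernel⟩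

def k5_B00pm_102_s1 : ∃ t, chk3 f_B00pm_102_s1 t 43 19 1 = true :=
  ⟨(c (a (b (a (b (b (a (l 1071744015) (l 3)) (b (a (l 1071760911) (a (a (l 1071768591) (l 3)) (l 3))) (b (a (l 1071500303) (a (c (l 1071985679) (l 1071570959)) (b (l 3) (l 1071788047)))) (a (a (l 1071771151) (l 1071777295)) (a (a (l 1071781903) (l 1071785487)) (l 1071791631)))))) (a (b (b (a (l 1071778319) (l 1071784463)) (l 1071791119)) (l 1071804943)) (a (c (l 1072011279) (l 1071598607)) (l 1071813647)))) (a (b (b (l 3) (b (l 3) (b (l 3) (l 1071804431)))) (l 1071826447)) (b (l 3) (l 1071845391)))) (a (b (a (l 1071833103) (l 1071848463)) (a (l 1071871503) (l 1071888399))) (b (l 1071876111) (l 1071917071)))) (b (b (l 3) (a (b (l 3) (a (l 1071876623) (l 1071898639))) (l 3))) (a (b (b (l 1071908367) (l 1071929359)) (l 1071961103)) (b (a (l 1071954959) (l 1071980559)) (l 1072011791))))) (a (b (b (b (a (a (l 1070884367) (l 3)) (l 3)) (b (a (a (l 1070906895) (a (a (l 1070926351)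 (l 3)) (l 3))) (l 3)) (a (a (b (l 1070918159) (a (l 1070917647) (l 1070932495))) (c (a (l 1071154703) (l 1071169551)) (a (l 1070732815) (l 1070752271)))) (b (l 3) (l 1071008271))))) (a (a (b (b (a (l 1070926863) (l 1070940687)) (l 1070944783)) (l 1070961167)) (a (c (l 1071181839) (l 1070761487)) (l 1070989327))) (b (l 1071022607) (l 1071045647)))) (a (b (a (l 1070992399) (l 1071026191)) (a (l 1071037967) (l 1071072783))) (b (l 1071080975) (l 1071128591)))) (b (b (l 3) (a (b (l 3) (l 1071122447)) (l 3))) (b (a (l 1071158799) (b (l 1071229455) (l 1071255055))) (a (l 1071208463) (l 1071293455)))))), by decide +kernel⟩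

def k6_B00pm_102_s1 : ∃ t, chk3 f_B00pm_102_s1 t 11 9 1 = true :=
  ⟨(a (b (l 3) (b (l 3) (a (b (a (a (b (l 3) (c (l 1072033807) (l 1071344143))) (l 3)) (l 3)) (b (a (a (c (l 1072056847) (l 1071370767)) (c (l 1072119823) (l 1071467023))) (l 3)) (a (a (l 1072543247) (c (l 1072144399) (l 1071495695))) (c (a (l 1072220687) (l 3)) (l 1072199695))))) (l 3)))) (l 3)), by decide +kernel⟩

def k7_B00pm_102_s1 : ∃ t, chk3 f_B00pm_102_s1 t 20 10 1 = true :=
  ⟨(a (a (l 2) (b (b (l 2) (c (l 79020626279) (c (l 16743472) (l 16737720)))) (c (b (l 16747432) (l 16743184)) (b (l 16734376) (l 16728280))))) (a (b (b (c (b (l 16760248) (l 16757848)) (c (l 16752680) (l 16748328))) (c (b (l 16755560) (l 16753384)) (c (l 16746872) (l 16741696)))) (c (b (l 16750248) (l 16746264)) (b (c (l 16741368) (l 16735336)) (l 16732584)))) (b (b (c (b (l 16762600) (l 16760336)) (c (l 16755936) (l 16752160))) (b (c (l 16758168) (l 16749552)) (c (l 16756112) (l 16741448)))) (c (b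 (l 16753168) (l 16749432)) (b (c (l 16745200) (l 16739800)) (l 16737040)))))), by decide +kernel⟩

def k8_B00pm_102_s1 : ∃ t, chk3 f_B00pm_102_s1 t 21 10 1 = true :=
  ⟨(b (a (b (a (b (a (c (l 16764568) (l 16758440)) (b (a (l 16757912) (l 16758536)) (l 16757144))) (c (l 16762888) (l 16756248))) (b (a (b (l 1071428111) (a (l 16758184) (l 16758832))) (c (l 1071891471) (l 1071040527))) (a (c (l 16764976) (l 16754016)) (b (a (l 16758552) (l 16759224)) (c (l 16765768) (l 16760480)))))) (c (a (b (l 16760848) (l 16758912)) (b (l 16763568) (l 16761752))) (a (c (b (l 16755304) (l 16752792)) (c (l 16751096) (l 16749104))) (b (c (l 16758944) (l 16755816)) (c (l 16756576) (l 16753072)))))) (b (a (a (b (a (l 1071500815) (l 1071526927)) (b (l 1070473231) (a (l 16759024) (l 16759712)))) (b (l 1071569935) (l 1071617039))) (a (c (l 1072026639) (l 1071285775)) (c (l 1072079887) (l 1071373839)))) (a (b (a (c (l 16765752) (l 16755296)) (b (a (l 16759576) (b (l 16765888)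 (l 16765280))) (l 16759040))) (c (c (l 16765992) (l 16763200)) (a (l 16757944) (l 16760008)))) (b (a (b (l 1071718927) (a (l 16760176) (b (l 16766464) (l 16765896)))) (l 1071804431)) (a (b (l 16759696) (l 16763872)) (b (c (a (l 16768088) (l 16768608)) (a (l 16764048) (l 16764856))) (l 16760392))))))) (a (c (b (a (l 16745672) (b (l 16760008) (l 16758320))) (a (l 16752672) (l 16755944))) (b (a (c (l 16749136) (l 16744384)) (a (l 16744776) (l 16746960))) (a (c (l 16744400) (l 16738808)) (b (l 16747432) (l 16745072))))) (b (a (c (b (l 16762976) (l 16761416)) (b (l 16756624) (l 16754312))) (c (b (l 16765848) (l 16764416)) (b (l 16760784) (l 16758632)))) (a (c (l 16748736) (b (l 16752048) (l 16749848))) (c (b (l 16763048) (l 16761760)) (b (l 16756536) (l 16754504))))))), by decide +kernel⟩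

def k9_B00pm_102_s1 : ∃ t, chk3 f_B00pm_102_s1 t 10 11 1 = true :=
  ⟨(c (b (a (a (b (a (l 16715616) (l 16718576)) (l 16734296)) (a (b (l 16731744) (l 16739376)) (b (l 16745848) (l 16722448)))) (a (b (a (l 16749496) (l 16753024)) (a (l 16725640) (l 16729112))) (b (a (l 16756560) (l 16760016)) (a (l 16754320) (l 16758040))))) (a (a (l 16709048) (a (l 16735520) (l 16739416))) (b (a (b (l 16747256) (l 16745840)) (a (l 16731736) (b (l 16756864) (l 16756160)))) (a (l 16744552) (l 16753152))))) (b (a (a (b (b (a (l 16720456) (l 16723696)) (c (l 16723736) (l 16715640))) (c (l 16720008) (l 16711352))) (b (b (c (l 16734320) (l 16727016)) (a (l 16725696) (l 16730368))) (b (a (l 16723216) (l 16707296)) (l 16723312)))) (b (a (a (l 16726216) (l 16736440)) (a (b (l 16747720) (l 16745672)) (l 16746376))) (a (a (b (l 16732928) (l 16731368)) (a (l 16725232) (l 16738720))) (b (l 16735808) (l 16744576))))) (b (a (a (l 16710392) (l 16720088)) (a (b (l 16721736)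 (l 16729936)) (b (a (l 16740024) (l 16745768)) (a (l 16738880) (l 16744296))))) (a (a (l 16706096) (l 16716192)) (a (l 16727416) (l 16739312)))))), by decide +kernel⟩

def k10_B00pm_102_s1 : ∃ t, chk3 f_B00pm_102_s1 t 22 20 1 = true :=
  ⟨(b (b (b (a (a (a (l 1071763471) (l 1072382991)) (c (a (l 1072247311) (c (l 1072478735) (l 1072184335))) (l 1071694351))) (l 3)) (a (a (a (l 1071789583) (l 1071874063)) (c (a (l 1072273935) (l 1072358927)) (l 1071726095))) (a (a (a (a (l 1072136207) (l 1072163343)) (l 3)) (l 3)) (l 3)))) (a (a (a (l 1071829519) (l 1072453647)) (c (a (l 1072315407) (l 1072401935)) (l 1071775247))) (c (a (c (a (l 1072631823) (l 1072722959)) (l 1072410639)) (a (b (l 3) (l 1072713743)) (l 3))) (a (l 1072564239) (c (l 1072411663) (l 1072197647)))))) (b (a (a (a (l 1071884815) (l 1071976463)) (c (l 1072952335) (l 1071842831))) (a (c (a (l 1072555535) (l 1072656911)) (l 1072099855)) (c (a (l 1072763919) (l 1072877071)) (l 1072380943))))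 (b (a (a (a (l 1071927823) (l 1072022031)) (c (l 1072460303) (l 1071895055))) (a (c (c (l 1072782351) (l 1072526351)) (l 1072156175)) (b (a (l 1072577551) (b (l 1072704015) (l 1072713743))) (a (l 1072595471) (a (l 1072693775) (a (l 1072743439) (l 1072777231))))))) (a (a (a (a (b (l 16766896) (l 16766592)) (l 16767432)) (l 16768736)) (c (l 1072488463) (l 1071927823))) (a (c (c (l 1072811535) (l 1072557583)) (l 1072190479)) (a (c (l 1072845327) (l 1072401935)) (c (c (l 1073069583) (l 1072853007)) (l 1072548367)))))))), by decide +kernel⟩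

def k11_B00pm_102_s1 : ∃ t, chk3 f_B00pm_102_s1 t 22 21 1 = true :=
  ⟨(a (b (a (b (a (a (l 16765432) (l 16766392)) (b (a (l 16772768) (b (l 16768496) (l 16768024))) (l 16767192))) (a (l 16764168) (l 16765880))) (b (a (b (l 16769448) (a (b (l 16768416) (l 16768168)) (b (l 16769256) (l 16768816)))) (c (l 1072574991) (l 16769304))) (a (b (l 16778512) (l 16767152)) (b (c (a (l 16775928) (l 16776424)) (c (l 16763416) (l 16756720))) (c (l 16770536) (l 16767272)))))) (a (b (c (l 16766064) (l 16760824)) (l 16751432)) (b (c (l 16768928) (l 16764872)) (c (l 16767880) (l 16763152))))) (b (a (c (b (c (a (l 1072803855) (l 1072900623)) (l 1072598543)) (a (b (l 16772176) (a (b (l 16771464) (l 16771352)) (b (l 16772120) (l 16771832)))) (l 1072828431))) (b (c (l 1072353295) (l 1072116239)) (a (b (l 16769720) (c (l 16764296) (l 16768192))) (l 16770920)))) (c (b (a (c (l 1073001999) (l 1072771599)) (c (l 1073110031) (l 1072893455))) (a (l 1072937999) (l 1073052687)))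 (b (a (l 1072443919) (l 1072589327)) (a (l 1072497167) (l 1072642063))))) (a (b (a (b (c (l 16771320) (l 16768272)) (l 16769000)) (a (b (b (l 16770888) (l 16770736)) (l 16770184)) (b (b (l 16771640) (l 16771320)) (l 16771064)))) (c (l 16770680) (l 16767080))) (b (c (a (b (l 16773552) (a (b (l 16772984) (l 16772936)) (b (l 16773592) (l 16773384)))) (l 1073098767)) (a (b (l 16771448) (c (l 16766104) (l 16770208))) (l 16772568))) (a (b (c (l 16772984) (l 16770336)) (l 16770944)) (a (b (b (l 16772640) (l 16772568)) (l 16772096)) (b (a (l 16778240) (l 16773392)) (l 16772944)))))))), by decide +kernel⟩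

def k12_B00pm_102_s1 : ∃ t, chk3 f_B00pm_102_s1 t 23 10 1 = true :=
  ⟨(b (b (l 3) (a (a (a (a (b (c (l 1072966671) (l 1072569871)) (c (b (c (b (l 1073119759) (l 1073128463)) (l 1072914959)) (l 1073042959)) (c (b (l 1072720399) (l 1072745999)) (l 1072550415)))) (b (l 3) (c (b (c (l 1073187855) (l 1072988687)) (l 1073113615)) (c (l 1072814607) (l 1072640527))))) (b (l 3) (b (b (l 3) (l 1073015823)) (l 1073034255)))) (l 3)) (l 3))) (a (b (a (a (a (b (a (l 1072865295) (l 1072903183)) (l 1072941583)) (l 1072988175)) (l 1073902095)) (c (l 1073453071) (l 1073134607))) (a (a (b (l 1073035791) (b (l 16779344) (c (a (b (l 16774616) (l 16774632)) (l 16775024)) (l 16767496)))) (l 1073200143)) (c (l 1073541647) (l 1073217039)))) (a (b (c (l 1073630223) (l 1073346063)) (a (l 1073506831) (l 1073590287))) (b (l 3) (a (l 1073710607) (l 1073848847)))))), by decide +kernel⟩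

def k13_B00pm_102_s1 : ∃ t, chk3 f_B00pm_102_s1 t 11 11 1 = true :=
  ⟨(a (b (b (b (a (a (l 16760472) (l 16764184)) (a (c (l 16769824) (l 16765568)) (c (l 16772552) (l 16769360)))) (a (a (l 16759120) (l 16762960)) (a (l 16777056) (c (l 16771896) (l 16768072))))) (a (a (l 16741592) (b (l 16761848) (l 16760856))) (a (b (l 16765584) (l 16764720)) (b (l 16769080) (l 16768336))))) (b (a (b (l 16742168) (l 16736016)) (a (l 16763712) (l 16767512))) (a (b (a (l 16754256) (l 16758504)) (a (l 16753376) (l 16758456))) (b (l 16765008) (a (l 16762416) (l 16766856)))))) (b (a (b (b (a (a (c (b (l 16774744) (l 16774312)) (l 16772184)) (b (c (b (l 16775592) (l 16775624)) (l 16768432)) (l 16779736))) (a (b (l 16775544) (c (b (l 16776248) (l 16776304)) (l 16769208))) (l 1073481231))) (a (c (l 16774496) (l 16771672)) (a (b (l 16785760) (l 16774776)) (b (a (l 16781056) (l 16776064)) (l 16775912))))) (a (b (l 16782776) (l 16771664)) (b (c (l 16776144) (l 16773600))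 (l 16774344)))) (b (a (b (l 1073617423) (a (b (l 16776528) (a (l 16771072) (l 16776632))) (l 1073736207))) (b (l 1073875471) (a (l 1073875983) (l 1074000399)))) (a (b (a (b (l 16771360) (l 16776296)) (b (a (b (l 16777160) (l 16777320)) (l 16777544)) (l 16772360))) (l 16787216)) (b (a (b (l 16778024) (a (b (l 16778040) (l 16778216)) (l 16778344))) (l 1074063887)) (a (b (a (l 16778128) (l 16773432)) (l 16778272)) (b (a (b (l 16778800) (l 16779000)) (l 16779032)) (a (l 16778944) (b (l 16779336) (l 16779320))))))))) (a (a (b (l 16760520) (l 16770680)) (b (b (l 16774032) (l 16773888)) (l 16774000))) (b (a (b (l 16776592) (l 16776568)) (b (a (l 16778200) (l 16779072)) (l 16778632))) (a (l 16776760) (b (l 16778728) (l 16778944))))))), by decide +kernel⟩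

def k14_B00pm_102_s1 : ∃ t, chk3 f_B00pm_102_s1 t 2 3 1 = true :=
  ⟨(b (a (l 6) (b (a (b (a (b (a (l 16714536) (l 16723800)) (a (l 6) (l 16721736))) (b (a (l 16733912) (l 16744520)) (a (l 16732424) (l 16743392)))) (a (l 6) (b (a (l 16730872) (l 16742928)) (a (l 6) (l 16742736))))) (b (a (b (a (l 16754864) (b (a (l 16762744) (l 16766592)) (l 16764768))) (a (l 16754072) (l 16764088))) (b (a (a (b (l 16770872) (l 16770984)) (l 16774600)) (b (l 16778280) (l 16778736))) (a (a (l 16771384) (l 16754736)) (b (l 16779120) (a (l 16778864) (l 16780696)))))) (a (a (b (l 16753920) (l 16753824)) (l 16722704)) (a (l 16753136) (b (b (l 16780904) (l 16780752)) (l 16781624)))))) (a (l 6) (b (a (b (a (l 16671472) (l 16765808)) (a (l 6) (l 16767040))) (b (a (l 16776328) (l 16783432)) (a (l 16778448) (l 16785088)))) (a (l 6) (a (l 16779632) (l 16706000))))))) (a (l 6) (l 6))), by decide +kernel⟩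

def k15_B00pm_102_s1 : ∃ t, chk3 f_B00pm_102_s1 t 6 4 1 = true :=
  ⟨(l 3), by decide +kernel⟩

def k16_B00pm_102_s1 : ∃ t, chk3 f_B00pm_102_s1 t 24 10 1 = true :=
  ⟨(a (b (l 3) (a (b (l 3) (a (l 1073972751) (l 1074618383))) (l 3))) (l 3)), by decide +kernel⟩

def k17_B00pm_102_s1 : ∃ t, chk3 f_B00pm_102_s1 t 24 22 1 = true :=
  ⟨(a (b (a (b (a (l 1074054671) (l 1074155023)) (b (l 1074145807) (a (l 1074123791) (l 1074216975)))) (b (a (l 1074241039) (l 3)) (b (a (l 1074273807) (l 1074340879)) (b (a (l 1074290191) (a (l 1074340367) (c (l 1074464271) (a (l 1074289167) (l 1074304527))))) (a (l 1074301455) (a (l 1074351119) (c (l 1074475535) (a (l 1074299407) (l 1074315279))))))))) (b (a (a (l 1074167823) (b (l 1074243599) (l 1074271247))) (a (b (c (l 1074420239) (l 1074240527)) (l 1074345487)) (a (b (l 1074368527) (l 1074392079)) (c (l 1074502671) (b (l 1074325007) (l 1074347023)))))) (a (a (b (l 16779208) (a (b (l 16779448) (l 16779656)) (l 16779608)))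 (l 1074313231)) (a (c (l 1074482703) (l 1074304527)) (a (l 1074429967) (l 1074451471)))))) (b (b (l 3) (b (l 3) (a (a (b (a (b (a (a (l 1074382351) (l 3)) (l 3)) (l 1074395663)) (l 3)) (a (l 1074403343) (l 1074421775))) (l 3)) (l 3)))) (c (a (b (a (l 1074530319) (l 1074561039)) (l 1074586127)) (b (a (l 1074586127) (l 3)) (l 1074630159))) (a (b (a (a (l 1074358287) (l 1074377743)) (c (l 1074434063) (b (l 1074367503) (l 1074386959)))) (a (l 1074408975) (l 1074441231))) (a (b (c (l 1074460687) (b (l 3) (l 1074415119))) (c (l 1074496527) (l 1074441231))) (b (l 3) (c (l 1074513935) (l 1074460175)))))))), by decide +kernel⟩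

def k18_B00pm_102_s1 : ∃ t, chk3 f_B00pm_102_s1 t 24 23 1 = true :=
  ⟨(a (b (a (b (a (b (a (l 16779640) (b (l 16779936) (l 16779952))) (l 16779768)) (b (a (b (l 16779984) (l 16774944)) (l 16780088)) (a (l 16780216) (b (l 16775176) (l 16780472))))) (a (l 16779784) (l 16780360))) (b (a (b (l 1074421775) (a (b (l 16780416) (l 16775368)) (l 16780448))) (l 1074484751)) (a (b (a (l 16780704) (b (a (l 16780840) (l 16780760)) (l 16780904))) (l 16780808)) (b (a (b (l 16780720) (a (l 16780992) (l 16780896))) (l 16780696)) (a (l 16781088) (b (a (l 16781120) (l 16781008)) (l 16781224))))))) (a (b (l 16780184) (l 16780408)) (b (a (l 16780904) (l 16781208)) (l 16781288)))) (b (a (a (b (l 1074520591) (b (l 1074551311) (a (b (l 16780928) (a (l 16781224) (l 16781096))) (l 16780856)))) (c (l 1074657295) (l 1074498063))) (a (b (l 1074568207) (l 1074603535)) (b (a (l 1074579983) (l 1074585615)) (l 1074615823)))) (b (a (a (b (a (l 16781368) (b (a (b (l 16781232)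 (l 16781384)) (l 16781176)) (l 16781456))) (l 16781424)) (b (a (b (l 16781064) (a (b (l 16781304) (l 16781464)) (l 16781240))) (l 16780968)) (b (a (l 16781544) (a (b (l 16781360) (l 16781528)) (l 16781296))) (a (l 16781520) (l 16781616))))) (a (b (l 1074630159) (a (b (l 16781152) (a (b (l 16781408) (l 16781576)) (l 16781344))) (l 16781032))) (l 1074648591))) (a (c (l 16782384) (l 16775832)) (b (a (a (c (l 16782232) (l 16781360)) (a (b (b (l 16781448) (l 16781616)) (l 16781656)) (b (l 16781384) (l 16781688)))) (b (l 16781048) (a (b (l 16781400) (l 16784144)) (l 16781208)))) (a (l 16781768) (b (a (b (l 16781712) (l 16781704)) (b (l 16781432) (l 16781528))) (a (l 16781768) (b (l 16781720) (l 16781744)))))))))), by decide +kernel⟩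

def k19_B00pm_102_s1 : ∃ t, chk3 f_B00pm_102_s1 t 25 5 1 = true :=
  ⟨(b (l 3) (b (b (l 3) (b (l 3) (b (l 3) (a (a (a (a (l 1074566671) (l 3)) (l 3)) (l 3)) (l 3))))) (b (a (b (a (c (l 1074682895) (a (l 1074526223) (l 1074530319))) (l 3)) (a (c (l 1074713103) (l 1074557455)) (c (l 1074707983) (l 1074550287)))) (l 3)) (a (a (b (l 1075189263) (b (l 1074674191) (a (b (l 16781040) (a (b (l 16781440) (l 16781528)) (l 16781192))) (l 16775304)))) (b (l 1074641935) (l 1074667023))) (a (l 1075162639) (a (l 1074597391) (l 1074576911))))))), by decide +kernel⟩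

def k20_B00pm_102_s1 : ∃ t, chk3 f_B00pm_102_s1 t 13 5 1 = true :=
  ⟨(l 3), by decide +kernel⟩

def k21_B00pm_102_s1 : ∃ t, chk3 f_B00pm_102_s1 t 7 2 1 = true :=
  ⟨(l 3), by decide +kernel⟩

def k22_B00pm_102_s1 : ∃ t, chk3 f_B00pm_102_s1 t 12 12 1 = true :=
  ⟨(b (a (a (b (b (a (l 16780752) (l 16781632)) (l 16771216)) (l 16761704)) (a (b (b (l 16782008) (l 16782472)) (l 16783440)) (b (b (a (l 16782040) (l 16781976)) (l 16782472)) (l 16783424)))) (a (b (b (a (b (a (b (a (b (l 16781728) (l 16781784)) (b (l 16781432) (l 16781512))) (a (l 16781824) (b (l 16781712) (l 16781800)))) (b (l 16781008) (a (l 16781400) (l 16781152)))) (a (l 16781928) (b (a (l 16781776) (l 16781376)) (a (l 16781832) (l 16781752))))) (b (l 1074686479) (a (b (l 16780936) (l 16781160)) (l 16780392)))) (a (b (l 16782056) (l 16782312)) (b (a (b (a (l 16781712) (l 16781320)) (a (l 16781816) (l 16781672))) (l 16780952)) (a (l 16781936) (b (a (l 16781616) (l 16781248)) (l 16771272))))))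 (b (a (l 16782760) (l 16782208)) (l 16772696))) (b (b (a (l 1074660367) (l 1074615823)) (a (b (l 1074675215) (a (l 16780880) (l 16780160))) (l 1074633231))) (b (a (b (a (b (l 16770720) (l 16781640)) (l 16780752)) (a (l 16781864) (b (l 16781056) (l 16781496)))) (l 1074652175)) (a (l 16771776) (a (b (b (l 16780896) (l 16781336)) (l 16781736)) (b (l 16780456) (a (l 16781200) (l 16780704))))))))) (a (b (a (b (a (l 16783016) (l 16784296)) (a (l 16784432) (l 16784968))) (l 16764224)) (a (l 16786128) (b (a (l 16786592) (l 16786776)) (a (l 16787688) (l 16787992))))) (b (a (b (l 16784016) (l 16784984)) (a (l 16783400) (b (a (l 16782208) (l 16781888)) (l 16782872)))) (a (b (l 16786104) (l 16787088)) (a (l 16785584) (l 16784552)))))), by decide +kernel⟩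

def k23_B00pm_102_s1 : ∃ t, chk3 f_B00pm_102_s1 t 12 13 1 = true :=
  ⟨(b (a (a (l 16788888) (l 16769672)) (b (a (b (a (l 16789224) (l 16788104)) (l 16748696)) (a (b (l 16787624) (l 16788800)) (l 16787336))) (a (l 16792040) (b (a (l 16791104) (l 16789504)) (l 16792240))))) (a (b (a (l 16793056) (l 16794600)) (a (l 16795528) (l 16715672))) (a (b (l 16795408) (b (l 16798336) (l 16800608))) (b (l 16794312) (l 16798520))))), by decide +kernel⟩

def k24_B00pm_102_s1 : ∃ t, chk3 f_B00pm_102_s1 t 13 12 1 = true :=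
  ⟨(a (b (a (b (a (b (l 1074566671) (l 1074583567)) (l 1074518543)) (a (l 1074609167) (l 1074552335))) (b (l 3) (l 1075527695))) (a (b (a (b (a (b (a (l 16781032) (l 16780568)) (l 16781544)) (b (l 16780160) (a (l 16780840) (l 16780432)))) (a (l 16782048) (b (l 16770928) (l 16781688)))) (b (l 1074579471) (a (b (a (l 16770152) (l 16780304)) (a (l 16781224) (l 16781024))) (b (l 16779840) (a (b (l 16780408) (l 16780688)) (l 16780200)))))) (a (l 16772896) (b (a (l 16781832) (b (a (l 16781096) (l 16770344)) (l 16781432))) (l 16782640)))) (b (l 1075565583) (a (b (a (b (a (b (l 16780248) (l 16780472)) (l 16780040)) (a (l 16781008) (b (l 16780376) (l 16780808)))) (b (l 16779536) (a (b (l 16780088) (l 16780280)) (l 16779888)))) (a (l 16781600) (b (a (l 16780912) (b (l 16780184) (l 16780672))) (l 16781176)))) (b (l 1074502159) (a (b (a (b (l 16779944) (l 16780104)) (l 16779752)) (a (l 16780800) (b (l 16780040) (l 16780520)))) (b (l 16779272) (a (l 16779816)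 (l 16779632))))))))) (b (l 3) (a (b (a (l 1074416143) (l 3)) (a (l 1074470927) (l 1074432015))) (b (l 3) (a (l 1074418191) (l 3)))))), by decide +kernel⟩

def k25_B00pm_102_s1 : ∃ t, chk3 f_B00pm_102_s1 t 26 13 1 = true :=
  ⟨(b (b (a (a (l 16786080) (l 16784688)) (a (b (l 16782496) (l 16783904)) (b (a (l 16781384) (b (a (l 16780688) (b (l 16779944) (l 16780376))) (l 16780960))) (l 16782328)))) (a (a (b (l 16788536) (l 16790200)) (l 16787984)) (a (l 16786296) (l 16784576)))) (b (a (b (a (l 16792120) (l 16790768)) (l 16793104)) (a (b (l 16788584) (l 16791016)) (b (l 16787056) (l 16788424)))) (a (l 16796144) (a (l 16793712) (b (l 16791264) (l 16792952)))))), by decide +kernel⟩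

def k26_B00pm_102_s1 : ∃ t, chk3 f_B00pm_102_s1 t 27 13 1 = true :=
  ⟨(b (a (b (a (b (a (b (a (l 16779768) (l 16779536)) (a (b (l 16780304) (l 16780576)) (b (l 16779920) (l 16780240)))) (l 1074524687)) (a (l 16781240) (b (a (b (l 16780176) (l 16780584)) (b (l 16779888) (l 16780128))) (l 16780968)))) (b (l 1074509327) (a (b (l 16779568) (a (b (l 16780088) (l 16780600)) (b (l 16779864) (l 16780072)))) (l 1074576399)))) (a (b (l 16782200) (l 16783688)) (b (a (b (l 16781016) (l 16781496)) (b (a (b (l 16780072) (l 16780632)) (b (l 16779888) (l 16780104))) (b (l 16791376) (l 16781032)))) (l 16782224)))) (b (a (l 1074559503) (l 1074621455)) (a (b (a (b (l 16779600) (a (b (l 16780152) (l 16780688)) (l 16780032))) (l 1074709007)) (a (b (a (l 16781128) (b (l 16780736) (l 16781032))) (l 16781680)) (b (a (b (l 16780336) (l 16780792)) (l 16780280)) (a (l 16781304) (b (l 16780856) (l 16781312)))))) (b (l 1074781199) (a (b (l 16779784) (a (b (l 16780576)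 (l 16780944)) (l 16780456))) (l 1074938383)))))) (a (b (a (l 16786184) (l 16784568)) (a (b (l 16809448) (l 16791528)) (b (l 16787192) (b (l 16788432) (l 16789584))))) (b (a (b (l 16782488) (l 16784024)) (b (a (b (a (l 16781656) (b (l 16781040) (l 16781648))) (l 16782144)) (b (a (b (l 16780792) (l 16781160)) (l 16780672)) (a (l 16782032) (b (l 16781304) (l 16781984))))) (l 16783032))) (a (l 16786656) (b (l 16784608) (l 16786232)))))), by decide +kernel⟩

def k27_B00pm_102_s1 : ∃ t, chk3 f_B00pm_102_s1 t 6 7 1 = true :=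
  ⟨(b (a (b (a (b (l 16758184) (l 16741128)) (a (b (l 16803680) (l 16807008)) (b (a (l 16741192) (b (l 16801352) (l 16804520))) (l 16807024)))) (a (l 6) (a (b (l 16811856) (l 6)) (l 16814568)))) (a (b (a (b (b (l 16799720) (l 16801728)) (a (l 16806216) (l 16806056))) (b (l 16797528) (b (l 16800984) (l 16846744)))) (a (l 16854984) (b (l 16807856) (l 16813160)))) (b (b (a (a (l 16794600) (b (l 16791816) (l 16793848))) (b (a (b (l 16788688) (l 16790232)) (l 16788016)) (a (l 16792184) (a (l 16790856) (l 16810408))))) (a (a (l 16799456) (l 16798048)) (a (l 16796008) (l 16794104)))) (b (a (b (a (l 16804944) (l 16802288)) (l 16805968)) (b (l 16799264) (a (l 16803816) (l 16801072)))) (a (l 16809816) (a (l 16807248) (l 16848192))))))) (a (l 6) (b (a (a (b (l 16822360) (l 6)) (b (l 16819336) (l 16826296))) (a (b (l 16815584) (l 16822008)) (b (l 16811664) (l 16817456)))) (a (b (a (l 6) (b (b (l 16830440) (l 6)) (l 6))) (l 6)) (b (a (b (b (l 16826264) (l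 16827616)) (l 16828136)) (b (l 16821552) (a (l 16825536) (l 16823328)))) (a (b (l 16828392) (l 6)) (b (l 16824248) (a (l 16825936) (b (l 16823616) (l 16824032)))))))))), by decide +kernel⟩

def k28_B00pm_102_s1 : ∃ t, chk3 f_B00pm_102_s1 t 7 6 1 = true :=
  ⟨(a (b (l 3) (a (b (a (b (l 3) (a (l 1074991119) (l 1075080207))) (l 3)) (a (b (a (b (b (l 1075185167) (a (a (l 16786400) (l 16780912)) (l 1075302927))) (a (b (a (l 16771952) (b (l 16781664) (l 16782360))) (l 16782888)) (b (a (l 16781480) (l 16780824)) (a (b (l 16782280) (l 16782464)) (b (l 16781440) (l 16781768)))))) (a (l 1075153935) (l 1074977807))) (a (b (a (l 16783736) (l 16782776)) (l 16784416)) (b (a (b (a (b (l 16781272) (l 16781696)) (b (l 16780576) (l 16780816))) (a (l 16781976) (l 16781496))) (b (l 16779712) (a (b (l 16780400) (l 16780936)) (a (l 16785248) (l 16779848))))) (a (l 16782648) (b (a (l 16781304) (b (l 16780568) (l 16780808))) (l 16781744)))))) (b (a (b (l 1074720783)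 (l 1074662415)) (l 3)) (a (b (l 1074622991) (a (b (a (b (l 16779696) (l 16785456)) (b (l 16779272) (l 16779440))) (a (l 16780720) (b (a (l 16780088) (l 16779640)) (l 16780240)))) (b (l 1074544143) (a (b (l 16779256) (a (l 16779808) (l 16784608))) (l 16778976))))) (b (l 1074383887) (l 1075476495)))))) (a (b (l 3) (b (l 3) (a (b (l 3) (a (l 1074323471) (a (l 1074304527) (l 3)))) (l 3)))) (l 3)))) (l 3)), by decide +kernel⟩

def k29_B00pm_102_s1 : ∃ t, chk3 f_B00pm_102_s1 t 28 28 1 = true :=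
  ⟨(a (b (a (b (l 16786104) (a (l 16788664) (l 16787800))) (b (a (l 16784400) (l 16783152)) (l 16786088))) (a (b (a (l 16791792) (b (l 16789608) (l 16791448))) (l 16793704)) (b (a (l 16810144) (l 16788368)) (a (l 16792864) (b (l 16790648) (l 16792664)))))) (b (a (b (a (b (l 16781296) (l 16782344)) (b (a (l 16780312) (b (a (l 16784800) (l 16784392)) (l 16779904))) (l 16780968))) (a (l 16784184) (b (l 16782176) (l 16783520)))) (b (a (b (a (b (l 16778936) (a (b (l 16779160) (l 16779480)) (l 16784248))) (l 16778696)) (a (b (a (l 16779816) (b (l 16779384) (l 16779600))) (l 16780208)) (b (a (b (l 16779032) (l 16779296)) (l 16778928)) (a (l 16779672) (b (a (l 16779312) (l 16779096)) (l 16779464)))))) (a (b (l 1074417679) (b (l 16778720) (a (b (l 16778984) (a (l 16779240) (l 16779040))) (l 16778888)))) (l 1074410511))) (a (b (a (l 16781128) (l 16780424)) (l 16782136)) (b (a (b (a (l 16779608) (b (a (l 16779168) (l 16779000)) (l 16779416))) (l 16780024))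 (b (a (b (l 16778928) (a (l 16784352) (l 16778992))) (l 16778840)) (a (b (a (l 16779400) (l 16784512)) (l 16779640)) (b (a (b (l 16779040) (l 16779136)) (l 16779008)) (a (l 16779376) (b (l 16779112) (l 16779288))))))) (a (l 16781064) (b (l 16779968) (l 16780696))))))) (b (a (a (l 16787112) (l 16785800)) (a (l 16789688) (b (l 16787448) (l 16783872)))) (a (a (b (l 16789688) (l 16791352)) (l 16789360)) (a (l 16788040) (l 16786656)))))), by decide +kernel⟩

def k30_B00pm_102_s1 : ∃ t, chk3 f_B00pm_102_s1 t 28 29 1 = true :=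
  ⟨(b (a (a (l 16798136) (l 16796376)) (b (a (b (a (l 16793288) (l 16792200)) (l 16794304)) (a (b (l 16791136) (l 16793176)) (l 16790776))) (a (l 16796296) (a (l 16795424) (b (l 16794248) (l 16795672)))))) (a (a (b (l 16844616) (l 16805216)) (b (l 16800360) (l 16846192))) (a (b (l 16799232) (b (l 16801232) (l 16802936))) (l 16809896)))), by decide +kernel⟩

def k31_B00pm_102_s1 : ∃ t, chk3 f_B00pm_102_s1 t 58 56 1 = true :=
  ⟨(a (b (a (b (l 1074374671) (l 1074415119)) (b (a (l 1074368527) (l 1074372111)) (a (l 1074417679) (c (l 1074758671) (l 1074106383))))) (b (a (a (b (l 1074449423) (a (b (l 16778896) (a (b (l 16779032) (l 16779096)) (l 16779000))) (l 16778816))) (l 1074463247)) (a (l 1074471951) (l 1074487311))) (a (a (b (a (b (a (l 16779376) (b (l 16779088) (l 16779264))) (l 16779592)) (b (a (b (l 16779032) (l 16779080)) (l 16779000)) (a (b (l 16779248) (l 16779392)) (b (l 16779088) (l 16784480))))) (l 16782568)) (b (a (c (l 16779688) (l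 16778232)) (l 16778824)) (a (b (a (b (a (l 16779272) (l 16779168)) (l 16779384)) (b (l 16779120) (a (l 16779256) (l 16779160)))) (l 16782208)) (b (l 16779056) (a (b (a (l 16779248) (l 16779168)) (l 16779400)) (b (l 16779136) (a (l 16784480) (l 16779192)))))))) (a (l 1074532367) (l 1074554383))))) (b (a (b (l 3) (a (b (l 1075232271) (l 1074458639)) (l 1075538447))) (l 3)) (b (a (a (l 1074509327) (l 1074537999)) (a (a (l 1074563599) (l 1074583055)) (l 3))) (a (a (l 1074582543) (l 1075153935)) (c (a (l 1074977295) (l 1075022351)) (a (l 1074351119) (l 1074402831))))))), by decide +kernel⟩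

def k32_B00pm_102_s1 : ∃ t, chk3 f_B00pm_102_s1 t 116 57 1 = true :=
  ⟨(b (a (b (a (l 16783720) (b (a (l 16780136) (b (a (l 16779648) (b (a (l 16779408) (l 16779336)) (l 16779552))) (l 16779944))) (l 16780736))) (a (l 16782768) (l 16782008))) (b (a (b (a (b (a (b (a (b (l 16779224) (l 16779272)) (l 16779208)) (a (l 16779416) (b (l 16779272) (l 16779376)))) (b (l 16779160) (c (l 16779992) (l 16778464)))) (a (l 16779648) (b (a (l 16779424) (b (l 16779280) (l 16779376))) (l 16779552)))) (b (l 16779096) (a (b (l 16779240) (a (l 16782056) (b (l 16779296) (l 16779368)))) (l 16779232)))) (a (l 16780152) (b (a (l 16779656) (b (a (c (l 16780216) (l 16778680)) (c (l 16780104) (l 16778584))) (l 16779576))) (l 16779968)))) (b (l 1074608655) (a (b (a (b (l 16779296) (a (b (l 16779376) (l 16779480)) (c (l 16780112) (l 16778608)))) (l 16779264)) (a (b (a (l 16779616) (l 16782160)) (l 16779768)) (b (a (b (l 16779384) (l 16779480)) (l 16779376)) (a (l 16779616)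 (b (l 16779480) (l 16779568)))))) (b (l 16779160) (a (b (l 16779336) (a (b (l 16779416) (l 16782104)) (l 16779408))) (l 16779312)))))) (a (b (l 16780792) (l 16781672)) (b (a (b (l 16779984) (l 16780416)) (b (a (b (a (l 16779632) (c (b (l 16780248) (l 16780352)) (l 16778816))) (l 16779784)) (a (b (c (b (l 16780192) (l 16780248)) (l 16778728)) (l 16782280)) (b (l 16779432) (b (l 16782120) (l 16779600))))) (l 16780008))) (a (l 16781072) (l 16780672)))))) (a (b (l 16784216) (l 16786200)) (b (c (l 16783464) (l 16781936)) (l 16784664)))), by decide +kernel⟩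

def k33_B00pm_102_s1 : ∃ t, chk3 f_B00pm_102_s1 t 117 114 1 = true :=
  ⟨(a (b (c (a (l 1074977807) (l 1075017231)) (l 1074377743)) (a (b (a (a (b (c (c (b (l 16780456) (l 16780568)) (l 16779760)) (l 16778712)) (b (a (b (l 16782232) (l 16779696)) (b (l 16779520) (c (l 16780360) (l 16778888)))) (l 16779808))) (b (l 16779352) (b (l 16779496) (b (a (c (l 16780360) (l 16778896)) (l 16779560)) (a (l 16779712) (a (l 16779640) (l 16779600))))))) (l 1074737679)) (a (a (l 16780360) (b (c (l 16780696) (l 16779240)) (l 16780384))) (b (a (b (a (b (a (l 16779648) (l 16779616)) (l 16779736)) (c (b (l 16780312) (l 16780368)) (l 16778904))) (a (l 16779888) (c (b (l 16780480) (l 16780576)) (l 16779104)))) (b (l 16779560) (a (c (b (l 16780368) (l 16780480)) (b (l 16778952) (l 16779048))) (l 16782256)))) (a (l 16780176) (a (l 16780016) (b (a (l 16782464) (b (l 16782344) (l 16779824))) (l 16780024))))))) (b (l 1074773007) (a (b (l 1074796559) (b (a (a (b (l 16779688)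 (a (l 16779792) (l 16779736))) (l 16779680)) (l 16779624)) (b (a (a (l 16779864) (a (l 16779792) (l 16779744))) (l 16779704)) (a (l 16782560) (a (a (l 16782424) (l 16779768)) (l 16779744)))))) (l 1074835471))))) (a (c (a (l 1075094031) (l 1075656207)) (l 1075042319)) (a (b (l 1074792975) (l 1074898447)) (b (l 1074822159) (l 1074931215))))), by decide +kernel⟩

def k34_B00pm_102_s1 : ∃ t, chk3 f_B00pm_102_s1 t 234 115 1 = true :=
  ⟨(b (a (b (c (l 16781712) (l 16780272)) (l 16781928)) (b (a (b (a (l 16780208) (b (a (c (l 16780664) (l 16779272)) (a (b (l 16782432) (l 16779912)) (b (l 16779792) (l 16779872)))) (l 16780112))) (l 16780576)) (b (a (b (c (c (a (l 16780824) (l 16780768)) (l 16780088)) (l 16779088)) (a (a (l 16779992) (b (l 16782504) (l 16779984))) (b (l 16779824) (a (l 16779944) (l 16782512))))) (c (l 16780400) (l 16779104))) (a (l 16780256) (b (b (a (a (l 16779952) (l 16782520)) (l 16779872)) (a (l 16780040) (a (l 16779960) (l 16779912))))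 (c (l 16780864) (l 16779512)))))) (a (l 16781296) (b (l 16780624) (l 16781120))))) (a (l 16783448) (b (l 16782088) (l 16783128)))), by decide +kernel⟩

def k35_B00pm_102_s1 : ∃ t, chk3 f_B00pm_102_s1 t 235 115 1 = true :=
  ⟨(b (a (b (a (b (l 1074903567) (a (b (l 16779840) (a (b (a (l 16782592) (l 16779936)) (l 16782688)) (a (b (l 16779920) (l 16782608)) (l 16779928)))) (l 16779816))) (l 1074949135)) (a (b (a (b (a (l 16780232) (c (b (l 16780760) (l 16780864)) (l 16779496))) (l 16780424)) (b (a (a (b (l 16780000) (l 16780112)) (b (l 16779984) (l 16782680))) (c (l 16780624) (l 16779336))) (a (l 16780256) (a (l 16782808) (b (l 16782688) (l 16780184)))))) (l 16780680)) (b (a (a (b (l 16779936) (b (l 16780024) (a (l 16780136) (l 16782704)))) (l 16779960)) (l 16779888)) (a (b (a (l 16780288) (b (a (l 16780152) (l 16780096)) (l 16780248))) (l 16780472)) (a (b (a (b (l 16780088) (l 16782784)) (l 16780088)) (c (l 16780976) (l 16779704))) (b (l 16780064)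 (c (b (l 16780800) (l 16780920)) (b (l 16779536) (l 16779656))))))))) (a (a (a (b (l 1074970127) (b (l 16779816) (b (l 16780016) (b (l 16780120) (l 16782792))))) (l 1075008015)) (l 1075021327)) (l 1075048975))) (a (b (a (l 16781440) (c (l 16781640) (l 16780384))) (l 16782264)) (b (a (b (a (b (a (a (l 16780368) (b (l 16780256) (l 16780368))) (b (l 16780192) (a (l 16780328) (l 16780264)))) (l 16780528)) (b (l 16780160) (a (b (a (l 16780336) (l 16780280)) (l 16780432)) (a (b (l 16780264) (l 16780352)) (l 16780264))))) (a (l 16780912) (c (l 16781328) (l 16780112)))) (b (l 1075127311) (a (b (a (b (a (l 16780368) (l 16780328)) (l 16780472)) (c (c (l 16781232) (l 16780616)) (l 16779736))) (c (a (l 16781264) (l 16781168)) (l 16780032))) (b (l 16780256) (a (b (l 16780384) (l 16783120)) (l 16780368)))))) (a (l 16781592) (b (a (l 16780984) (b (a (l 16780680) (c (b (l 16781112) (l 16781232)) (l 16780016))) (l 16780888))) (l 16781400)))))), by decide +kernel⟩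

def k36_B00pm_102_s1 : ∃ t, chk3 f_B00pm_102_s1 t 59 28 1 = true :=
  ⟨(b (a (a (a (a (b (l 3) (b (l 3) (l 1075285007))) (l 3)) (l 3)) (l 3)) (l 3)) (a (b (b (a (c (a (l 1075169807) (l 1075233295)) (a (l 1074579471) (l 1074655247))) (l 3)) (a (c (a (l 1075273743) (l 1075343375)) (a (l 1074705423) (l 1074789903))) (a (c (l 1075419151) (l 1074883087)) (c (l 1075502607) (l 1074985999))))) (b (a (c (a (l 1075384335) (l 1075460623)) (a (l 1074840591) (l 1074934287))) (a (c (l 1075543567) (l 1075035663)) (c (l 1075633679) (l 1075147791)))) (a (a (b (l 1075206159) (a (b (b (a (a (a (b (l 16780448) (l 16780552)) (l 16783072)) (l 16780424)) (l 16780344)) (b (a (c (a (l 16781248) (l 16781128)) (l 16780048)) (l 16780464)) (a (l 16780736) (a (l 16783184) (l 16780512))))) (a (l 16781056) (b (a (l 16783384) (b (l 16780584) (l 16780712))) (l 16780960)))) (b (l 16780256) (a (a (b (l 16780560) (a (l 16780824) (l 16783392))) (b (l 16780520) (b (l 16780632) (l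 16780744)))) (l 16780520))))) (c (l 1075586575) (l 1075089423))) (a (c (l 1075676687) (l 1075201039)) (c (l 1075774479) (l 1075322383)))))) (b (l 3) (a (b (a (c (l 1075729935) (l 1075267599)) (l 3)) (a (l 1075659791) (l 1075786255))) (b (l 3) (l 1076530703)))))), by decide +kernel⟩

def k37_B00pm_102_s1 : ∃ t, chk3 f_B00pm_102_s1 t 58 29 1 = true :=
  ⟨(b (b (a (a (l 16789488) (l 16787976)) (a (b (l 16785200) (l 16787544)) (b (a (l 16783912) (b (l 16782456) (l 16783584))) (a (l 16786264) (l 16790600))))) (a (b (a (l 16792912) (l 16791640)) (a (l 16795384) (l 16794016))) (a (b (l 16790048) (l 16792704)) (b (a (l 16788760) (l 16787704)) (l 16790488))))) (a (b (a (l 16797360) (b (l 16796568) (l 16797680))) (a (l 16799984) (l 16798976))) (b (a (a (b (l 16795648) (l 16797072)) (b (l 16794624) (l 16796336))) (b (l 16792560) (a (l 16794968) (l 16793600)))) (a (l 16797400) (b (l 16795632) (l 16796000)))))), by decide +kernel⟩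

def k38_B00pm_102_s1 : ∃ t, chk3 f_B00pm_102_s1 t 118 58 1 = true :=
  ⟨(b (a (b (a (b (a (l 16781760) (b (a (l 16781128) (b (a (a (l 16780864) (l 16783424)) (b (l 16780696) (l 16780776))) (l 16781048))) (l 16781568))) (a (l 16782896) (b (l 16782136) (l 16782704)))) (b (a (b (a (b (l 16780648) (a (a (l 16780896) (l 16783456)) (l 16780776))) (l 16780616)) (a (b (c (l 16781632) (l 16780584)) (l 16781344)) (a (b (b (l 16780848) (l 16780968)) (l 16781168)) (b (l 16780832) (l 16783688))))) (a (a (b (l 16780520) (a (b (l 16780792) (l 16780968)) (l 16780832))) (l 16780632)) (l 16780536))) (a (b (a (l 16781768) (l 16781520)) (l 16782200)) (b (a (a (l 16781352) (b (l 16783728) (l 16781360))) (b (l 16783576) (a (l 16781256) (l 16783760)))) (l 16781712))))) (a (a (l 16789864) (l 16784096)) (c (l 16783792) (l 16782896)))) (b (a (a (b (l 1075524623) (b (c (l 16781304) (l 16780424)) (a (b (a (l 16781304) (l 16781184)) (l 16781504)) (b (l 16781088) (a (l 16781344)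 (l 16781232)))))) (l 1075621903)) (l 1075710479)) (a (b (a (b (b (l 16784296) (l 16781920)) (l 16782320)) (b (a (b (c (l 16784400) (l 16780904)) (l 16781608)) (b (l 16781192) (c (l 16781808) (l 16780968)))) (a (l 16781984) (b (l 16784280) (l 16781896))))) (a (l 16783120) (l 16782656))) (b (a (b (l 16781072) (a (b (l 16781432) (l 16784328)) (l 16781384))) (l 16780960)) (a (b (a (l 16782072) (b (l 16784376) (l 16781992))) (l 16782480)) (b (a (b (l 16781560) (l 16781800)) (l 16781520)) (a (l 16782184) (b (l 16781848) (l 16782120))))))))) (a (b (a (l 16786536) (l 16785432)) (l 16788024)) (a (b (l 16784432) (l 16786416)) (b (c (l 16783912) (l 16783200)) (l 16785472))))), by decide +kernel⟩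

def k39_B00pm_102_s1 : ∃ t, chk3 f_B00pm_102_s1 t 119 58 1 = true :=
  ⟨(b (a (b (a (l 1075837455) (l 1075973647)) (a (b (l 1075978255) (b (l 16781088) (a (b (l 16781600) (a (l 16781896) (l 16781744))) (l 16781360)))) (l 1076172815))) (a (l 1076222479) (l 1076384271))) (a (a (b (b (a (b (a (l 16782320) (a (l 16784776) (l 16784656))) (l 16782680)) (b (l 16781792) (b (a (l 16782296) (l 16782080)) (a (l 16782528) (l 16782352))))) (b (l 16783000) (l 16783464))) (l 16784632)) (b (b (l 1076331023) (a (b (b (l 16784896) (a (l 16782672) (l 16782456))) (l 16782960)) (b (l 16782040) (a (b (l 16782520) (l 16782816)) (l 16782440))))) (b (a (l 16783616) (b (b (l 16782984) (l 16783176)) (l 16783512))) (l 16784344)))) (b (l 1076640783) (a (b (b (a (a (l 16782776) (l 16782584)) (l 16782240)) (a (b (l 16788352) (l 16783336)) (l 16785384))) (a (l 16783864) (b (b (l 16788480) (l 16783504)) (l 16783792)))) (b (l 1076916751) (a (b (l 16782888) (a (l 16783624) (l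 16783400))) (l 16782728))))))), by decide +kernel⟩

def k40_B00pm_102_s1 : ∃ t, chk3 f_B00pm_102_s1 t 59 59 1 = true :=
  ⟨(b (a (a (l 16790920) (b (l 16787792) (l 16789528))) (a (b (a (l 16786416) (l 16785640)) (l 16787648)) (a (b (l 16784976) (l 16786536)) (b (a (l 16784552) (b (b (a (l 16783776) (l 16783520)) (l 16784144)) (l 16784696))) (l 16785936))))) (a (a (b (c (l 16814712) (l 16777184)) (l 16794480)) (b (l 16791136) (b (l 16792040) (l 16813840)))) (a (b (l 16789152) (l 16790392)) (b (l 16787608) (l 16788840))))), by decide +kernel⟩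

def k41_B00pm_102_s1 : ∃ t, chk3 f_B00pm_102_s1 t 15 14 1 = true :=
  ⟨(a (b (l 3) (a (b (a (b (a (l 1077720591) (l 3)) (a (b (l 1077021199) (l 1075678223)) (l 1074375183))) (a (b (l 3) (l 1078462991)) (l 3))) (a (b (a (b (a (a (b (a (b (l 16783296) (l 16778672)) (l 16778064)) (l 16784528)) (b (l 16782904) (b (l 16783888) (l 16784512)))) (a (a (b (l 16782440) (l 16783800)) (l 16780200)) (l 1077748239))) (a (l 16785456) (b (a (b (l 16784680) (l 16785024)) (b (l 16784136) (l 16784832))) (l 16785440)))) (b (l 1077960207) (a (b (a (l 16783624) (l 16782544)) (a (b (l 16784544) (l 16785416)) (b (l 16783312) (l 16783976)))) (l 1077669391)))) (a (b (c (l 16786608) (l 16786512)) (c (l 16787720) (l 16787400))) (b (a (b (a (l 16785816) (l 16785488)) (l 16785976)) (b (a (b (l 16783792) (l 16784680)) (l 16783352)) (a (l 16785376) (b (l 16784512) (l 16785032))))) (c (l 16786048) (l 16786016))))) (b (a (l 1077755407) (l 1077918735)) (a (b (a (b (l 16779448)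 (a (b (l 16783536) (l 16784352)) (l 16783048))) (l 1077919247)) (a (b (a (l 16784832) (b (l 16784192) (l 16784512))) (l 16784920)) (b (a (b (l 16783224) (l 16783880)) (l 16782680)) (a (l 16784352) (a (l 16786584) (l 16786184)))))) (b (l 1077903887) (a (b (l 16778608) (a (b (l 16782656) (l 16783208)) (l 16782016))) (l 1077776399))))))) (a (a (b (l 3) (l 1077726223)) (l 3)) (l 3)))) (l 3)), by decide +kernel⟩

def k42_B00pm_102_s1 : ∃ t, chk3 f_B00pm_102_s1 t 14 15 1 = true :=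
  ⟨(b (a (b (a (l 16849960) (a (l 16826960) (b (b (l 16834184) (l 16804344)) (l 16805064)))) (a (a (l 16814168) (l 16812048)) (a (l 16851776) (b (l 16806544) (l 16808256))))) (a (b (a (b (b (l 16800848) (a (l 16802392) (l 16800624))) (b (l 16834080) (l 16802784))) (b (l 16797888) (a (b (l 16799736) (l 16800888)) (b (l 16798336) (l 16799304))))) (a (b (l 16803800) (l 16805592)) (b (l 16801056) (l 16802912)))) (b (a (b (a (l 16795384) (l 16793816)) (a (b (l 16796672) (l 16797368)) (l 16795504))) (b (a (b (a (l 16813208) (l 16801544)) (l 16792464)) (b (a (l 16790128) (l 16789520)) (a (l 16791440) (l 16800848)))) (a (l 16793840) (l 16792184)))) (b (a (b (a (l 16798864) (l 16796944)) (l 16798704)) (b (a (l 16795312) (l 16793792)) (a (l 16817712) (l 16815696)))) (a (l 16800176) (a (l 16798072) (b (l 16796328) (l 16797192)))))))) (a (b (a (b (l 16816856) (a (b (l 16819760) (l 16820560)) (b (l 16817280) (l 16818704)))) (b (a (l 16813056) (l 16810448))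 (b (l 16813680) (a (l 16816208) (l 16813504))))) (b (a (a (l 16820976) (l 16818904)) (l 16836720)) (a (a (l 16842800) (l 16819824)) (a (l 16817720) (l 16815632))))) (b (b (a (a (l 16807856) (l 16805240)) (a (l 16802552) (l 16799752))) (a (a (l 16810384) (l 16808032)) (a (l 16805384) (l 16802608)))) (b (a (b (a (l 16812744) (b (l 16809792) (l 16810624))) (l 16811768)) (a (b (b (l 16807376) (l 16808072)) (l 16808560)) (b (l 16804904) (b (l 16806232) (l 16806368))))) (a (a (l 16813552) (l 16811440)) (a (l 16809232) (a (l 16807520) (l 16806320)))))))), by decide +kernel⟩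

def k43_B00pm_102_s1 : ∃ t, chk3 f_B00pm_102_s1 t 60 30 1 = true :=
  ⟨(b (a (a (b (b (l 16788328) (a (l 16799824) (l 16788712))) (b (b (a (l 16790352) (l 16789264)) (l 16790408)) (l 16791016))) (b (b (a (l 16787088) (l 16786256)) (l 16787456)) (b (a (b (l 16788536) (l 16788928)) (l 16787920)) (b (a (l 16789584) (l 16788616)) (l 16789616))))) (b (a (b (c (l 16785088) (l 16784992)) (a (l 16786200) (l 16785352))) (b (a (b (a (b (l 16783704) (l 16783880)) (b (l 16782888) (l 16783400))) (l 16783936)) (b (a (l 16782272) (l 16781384)) (a (b (l 16783096) (l 16783416)) (b (l 16782288) (l 16782784))))) (a (l 16784512) (c (l 16783784) (l 16783752))))) (a (b (l 16786656) (b (l 16787376) (a (l 16788328) (l 16787384)))) (b (c (l 16785200) (l 16784776)) (l 16785912))))) (b (a (a (l 16792712) (l 16791016)) (a (b (a (l 16789144) (b (l 16788048) (l 16788568))) (l 16789904)) (b (b (l 16797024) (a (l 16787784) (l 16786696))) (a (l 16788600) (b (l 16787520) (l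 16788024)))))) (a (b (a (b (l 16794104) (l 16795040)) (l 16792672)) (a (l 16795720) (b (l 16794008) (l 16794504)))) (b (a (l 16791200) (l 16789448)) (a (b (l 16792080) (l 16792944)) (l 16790832)))))), by decide +kernel⟩

def k44_B00pm_102_s1 : ∃ t, chk3 f_B00pm_102_s1 t 61 30 1 = true :=
  ⟨(b (a (b (a (b (l 1077565455) (a (b (a (b (l 16782480) (l 16782952)) (b (l 16781672) (l 16782184))) (c (l 16783088) (l 16783120))) (b (l 1077475855) (a (b (l 16781904) (l 16782408)) (l 16781352))))) (l 1077362191)) (a (b (a (c (l 16783792) (l 16783584)) (b (a (l 16782784) (b (l 16782128) (l 16782488))) (l 16783008))) (c (l 16784424) (l 16783992))) (b (b (a (a (b (l 16781368) (l 16781840)) (l 16780816)) (l 1077261327)) (a (a (l 16782416) (b (a (l 16776544) (l 16781432)) (l 16782048))) (a (b (l 16780816) (b (l 16781224) (l 16776200))) (l 16780288)))) (a (c (l 16782976) (l 16782776)) (b (a (b (l 16781800) (l 16782056)) (b (l 16781056) (l 16781544))) (l 16782216))))))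 (b (a (l 1077206031) (l 3)) (a (b (l 1077142031) (a (b (l 1077145103) (a (a (l 16781672) (b (l 16781112) (l 16781568))) (b (l 16780568) (a (l 16775992) (l 16780872))))) (l 1077067279))) (l 1076987919)))) (a (b (a (b (l 16785224) (a (b (l 16786400) (l 16787264)) (b (l 16785632) (l 16786128)))) (b (a (l 16783888) (l 16782984)) (l 16787200))) (a (b (a (l 16788104) (l 16797856)) (l 16789032)) (b (a (b (l 16796360) (l 16786720)) (b (l 16785040) (l 16796120))) (a (l 16787648) (l 16786808))))) (b (a (b (a (b (a (l 16782040) (l 16781648)) (l 16782352)) (b (a (b (b (l 16780704) (l 16775672)) (a (l 16781392) (b (l 16781000) (l 16781224)))) (b (l 16780072) (a (l 16780736) (l 16780400)))) (a (l 16781656) (b (a (l 16781208) (l 16775616)) (l 16781336))))) (c (a (l 16783472) (l 16782464)) (l 16779968))) (b (a (b (l 1076987407) (a (b (l 16780328) (b (a (l 16780880) (l 14)) (l 14))) (l 14))) (l 1076927503)) (l 14))) (b (a (a (l 16784432) (l 14)) (l 14)) (l 14))))),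 by decide +kernel⟩

def k45_B00pm_102_s1 : ∃ t, chk3 f_B00pm_102_s1 t 30 31 1 = true :=
  ⟨(b (a (b (a (a (l 16797584) (l 16796072)) (b (a (l 16793936) (a (l 16792872) (l 16812824))) (l 16794392))) (a (a (l 16800448) (l 16798944)) (a (l 16797384) (l 16795776)))) (b (a (a (a (b (l 16811744) (l 16792352)) (b (l 16789928) (l 16812680))) (b (l 16788648) (l 14))) (l 14)) (l 14))) (a (a (b (b (l 16802120) (b (l 16803224) (l 16804088))) (b (l 16804216) (l 16804680))) (b (b (l 16799000) (l 14)) (l 14))) (l 14))), by decide +kernel⟩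

def k46_B00pm_102_s1 : ∃ t, chk3 f_B00pm_102_s1 t 31 15 1 = true :=
  ⟨(b (b (l 3) (l 14)) (l 14)), by decide +kernel⟩

theorem t47_B00pm_102_s1 : ∃ t, chk3 f_B00pm_102_s1 t 30 30 1 = true := ex3_a k43_B00pm_102_s1 k44_B00pm_102_s1

theorem t48_B00pm_102_s1 : ∃ t, chk3 f_B00pm_102_s1 t 30 15 1 = true := ex3_b t47_B00pm_102_s1 k45_B00pm_102_s1

theorem t49_B00pm_102_s1 : ∃ t, chk3 f_B00pm_102_s1 t 15 15 1 = true := ex3_a t48_B00pm_102_s1 k46_B00pm_102_s1

theorem t50_B00pm_102_s1 : ∃ t, chk3 f_B00pm_102_s1 t 7 15 1 = true := ex3_a k42_B00pm_102_s1 t49_B00pm_102_s1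

theorem t51_B00pm_102_s1 : ∃ t, chk3 f_B00pm_102_s1 t 59 58 1 = true := ex3_a k38_B00pm_102_s1 k39_B00pm_102_s1

theorem t52_B00pm_102_s1 : ∃ t, chk3 f_B00pm_102_s1 t 59 29 1 = true := ex3_b t51_B00pm_102_s1 k40_B00pm_102_s1

theorem t53_B00pm_102_s1 : ∃ t, chk3 f_B00pm_102_s1 t 29 29 1 = true := ex3_a k37_B00pm_102_s1 t52_B00pm_102_s1

theorem t54_B00pm_102_s1 : ∃ t, chk3 f_B00pm_102_s1 t 117 115 1 = true := ex3_a k34_B00pm_102_s1 k35_B00pm_102_s1

theorem t55_B00pm_102_s1 : ∃ t, chk3 f_B00pm_102_s1 t 117 57 1 = true := ex3_b k33_B00pm_102_s1 t54_B00pm_102_s1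

theorem t56_B00pm_102_s1 : ∃ t, chk3 f_B00pm_102_s1 t 58 57 1 = true := ex3_a k32_B00pm_102_s1 t55_B00pm_102_s1

theorem t57_B00pm_102_s1 : ∃ t, chk3 f_B00pm_102_s1 t 58 28 1 = true := ex3_b k31_B00pm_102_s1 t56_B00pm_102_s1

theorem t58_B00pm_102_s1 : ∃ t, chk3 f_B00pm_102_s1 t 29 28 1 = true := ex3_a t57_B00pm_102_s1 k36_B00pm_102_s1

theorem t59_B00pm_102_s1 : ∃ t, chk3 f_B00pm_102_s1 t 29 14 1 = true := ex3_b t58_B00pm_102_s1 t53_B00pm_102_s1

theorem t60_B00pm_102_s1 : ∃ t, chk3 f_B00pm_102_s1 t 28 14 1 = true := ex3_b k29_B00pm_102_s1 k30_B00pm_102_s1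

theorem t61_B00pm_102_s1 : ∃ t, chk3 f_B00pm_102_s1 t 14 14 1 = true := ex3_a t60_B00pm_102_s1 t59_B00pm_102_s1

theorem t62_B00pm_102_s1 : ∃ t, chk3 f_B00pm_102_s1 t 7 14 1 = true := ex3_a t61_B00pm_102_s1 k41_B00pm_102_s1

theorem t63_B00pm_102_s1 : ∃ t, chk3 f_B00pm_102_s1 t 7 7 1 = true := ex3_b t62_B00pm_102_s1 t50_B00pm_102_s1

theorem t64_B00pm_102_s1 : ∃ t, chk3 f_B00pm_102_s1 t 7 3 1 = true := ex3_b k28_B00pm_102_s1 t63_B00pm_102_s1

theorem t65_B00pm_102_s1 : ∃ t, chk3 f_B00pm_102_s1 t 13 13 1 = true := ex3_a k25_B00pm_102_s1 k26_B00pm_102_s1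

theorem t66_B00pm_102_s1 : ∃ t, chk3 f_B00pm_102_s1 t 13 6 1 = true := ex3_b k24_B00pm_102_s1 t65_B00pm_102_s1

theorem t67_B00pm_102_s1 : ∃ t, chk3 f_B00pm_102_s1 t 12 6 1 = true := ex3_b k22_B00pm_102_s1 k23_B00pm_102_s1

theorem t68_B00pm_102_s1 : ∃ t, chk3 f_B00pm_102_s1 t 6 6 1 = true := ex3_a t67_B00pm_102_s1 t66_B00pm_102_s1

theorem t69_B00pm_102_s1 : ∃ t, chk3 f_B00pm_102_s1 t 6 3 1 = true := ex3_b t68_B00pm_102_s1 k27_B00pm_102_s1

theorem t70_B00pm_102_s1 : ∃ t, chk3 f_B00pm_102_s1 t 3 3 1 = true := ex3_a t69_B00pm_102_s1 t64_B00pm_102_s1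

theorem t71_B00pm_102_s1 : ∃ t, chk3 f_B00pm_102_s1 t 24 11 1 = true := ex3_b k17_B00pm_102_s1 k18_B00pm_102_s1

theorem t72_B00pm_102_s1 : ∃ t, chk3 f_B00pm_102_s1 t 24 5 1 = true := ex3_b k16_B00pm_102_s1 t71_B00pm_102_s1

theorem t73_B00pm_102_s1 : ∃ t, chk3 f_B00pm_102_s1 t 12 5 1 = true := ex3_a t72_B00pm_102_s1 k19_B00pm_102_s1

theorem t74_B00pm_102_s1 : ∃ t, chk3 f_B00pm_102_s1 t 6 5 1 = true := ex3_a t73_B00pm_102_s1 k20_B00pm_102_s1

theorem t75_B00pm_102_s1 : ∃ t, chk3 f_B00pm_102_s1 t 6 2 1 = true := ex3_b k15_B00pm_102_s1 t74_B00pm_102_s1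

theorem t76_B00pm_102_s1 : ∃ t, chk3 f_B00pm_102_s1 t 3 2 1 = true := ex3_a t75_B00pm_102_s1 k21_B00pm_102_s1

theorem t77_B00pm_102_s1 : ∃ t, chk3 f_B00pm_102_s1 t 3 1 1 = true := ex3_b t76_B00pm_102_s1 t70_B00pm_102_s1

theorem t78_B00pm_102_s1 : ∃ t, chk3 f_B00pm_102_s1 t 22 10 1 = true := ex3_b k10_B00pm_102_s1 k11_B00pm_102_s1

theorem t79_B00pm_102_s1 : ∃ t, chk3 f_B00pm_102_s1 t 11 10 1 = true := ex3_a t78_B00pm_102_s1 k12_B00pm_102_s1

theorem t80_B00pm_102_s1 : ∃ t, chk3 f_B00pm_102_s1 t 11 5 1 = true := ex3_b t79_B00pm_102_s1 k13_B00pm_102_s1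

theorem t81_B00pm_102_s1 : ∃ t, chk3 f_B00pm_102_s1 t 10 10 1 = true := ex3_a k7_B00pm_102_s1 k8_B00pm_102_s1

theorem t82_B00pm_102_s1 : ∃ t, chk3 f_B00pm_102_s1 t 10 5 1 = true := ex3_b t81_B00pm_102_s1 k9_B00pm_102_s1

theorem t83_B00pm_102_s1 : ∃ t, chk3 f_B00pm_102_s1 t 5 5 1 = true := ex3_a t82_B00pm_102_s1 t80_B00pm_102_s1

theorem t84_B00pm_102_s1 : ∃ t, chk3 f_B00pm_102_s1 t 21 19 1 = true := ex3_a k4_B00pm_102_s1 k5_B00pm_102_s1

theorem t85_B00pm_102_s1 : ∃ t, chk3 f_B00pm_102_s1 t 21 9 1 = true := ex3_b k3_B00pm_102_s1 t84_B00pm_102_s1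

theorem t86_B00pm_102_s1 : ∃ t, chk3 f_B00pm_102_s1 t 10 9 1 = true := ex3_a k2_B00pm_102_s1 t85_B00pm_102_s1

theorem t87_B00pm_102_s1 : ∃ t, chk3 f_B00pm_102_s1 t 5 9 1 = true := ex3_a t86_B00pm_102_s1 k6_B00pm_102_s1

theorem t88_B00pm_102_s1 : ∃ t, chk3 f_B00pm_102_s1 t 5 4 1 = true := ex3_b k1_B00pm_102_s1 t87_B00pm_102_s1

theorem t89_B00pm_102_s1 : ∃ t, chk3 f_B00pm_102_s1 t 5 2 1 = true := ex3_b t88_B00pm_102_s1 t83_B00pm_102_s1

theorem t90_B00pm_102_s1 : ∃ t, chk3 f_B00pm_102_s1 t 2 2 1 = true := ex3_a k0_B00pm_102_s1 t89_B00pm_102_s1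

theorem t91_B00pm_102_s1 : ∃ t, chk3 f_B00pm_102_s1 t 2 1 1 = true := ex3_b t90_B00pm_102_s1 k14_B00pm_102_s1

theorem t92_B00pm_102_s1 : ∃ t, chk3 f_B00pm_102_s1 t 1 1 1 = true := ex3_a t91_B00pm_102_s1 t77_B00pm_102_s1

theorem c_B00pm_102_s1 : CertF 536870912 536870912 0 536870912 587336777 62277027 false true false .npp 1 0 2
    ndB0q1 ndB0q2 pcB0 cut_B00pm_102_s1 xt_B00pm_102_s1 :=
  certF0 (fam := false) (s1 := true) (s2 := false) (a := 1) (b := 0) (c := 2) (cn := .npp) (n1 := ndB0q1) (n2 := ndB0q2) (pc := pcB0) (cut := cut_B00pm_102_s1) (xt := xt_B00pm_102_s1) (P1 := 536870912) (W1 := 536870912) (P2 := 0) (W2 := 536870912) (P3 := 587336777) (W3 := 62277027)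
    rfl t92_B00pm_102_s1

theorem s_B00pm_102_s1 {κ x : ℝ} (hκ : κ * h0 = ken x) (hx : ((587336777 : ℕ) : ℝ) / S ≤ x)
    (hx' : x ≤ (((587336777 : ℕ) : ℝ) + (62277027 : ℕ)) / S)
    (H : CutB (VFD κ) PP tK tL pcB (Cut.of [[⟨0, 1, 0, 67108864⟩, ⟨1, 0, 0, 67108864⟩, ⟨2, 1, 0, 67108864⟩], [⟨0, 0, 1, 20971520⟩, ⟨1, 1, 2, 20971520⟩, ⟨2, 1, 0, 29360128⟩]]) 1 0 2 0 0 (sgb true) (sgb false) x) :
    AltB (VFD κ) PP tK tL pcB [⟨3, 0, 0, 1449551462⟩] 1 0 2 0 0 (sgb true) (sgb false) x :=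
  strip_altBD (m := 1449551462) true rfl hκ (SH.κ0 hκ (SH.hx1 hx).le (SH.hx2 hx').le) (SH.hx1 hx).le (SH.hx2 hx') (covB01).cov (covB02).cov hx hx' c_B00pm_102_s1 H ((okx6 hx hx').ext0B (T := tt) (zx hx hx') (okx hx hx') (sideB hx hx') hκ rfl rfl (.O 1 true) (.O 2 false) (Or.inl rfl))

noncomputable def cut_B00pm_102_s3 : Cut := Cut.of [[⟨3, 0, 0, 2845415833⟩], [⟨0, 1, 0, 67108864⟩, ⟨1, 0, 0, 67108864⟩, ⟨2, 1, 0, 67108864⟩], [⟨0, 0, 1, 20971520⟩, ⟨1, 1, 2, 20971520⟩, ⟨2, 1, 0, 29360128⟩]]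

noncomputable def f_B00pm_102_s3 : ℕ → ℕ → ℕ → ℕ → Bool := onCell 536870912 536870912 0 536870912 587336777 62277027
    (rowF 0 false true false .npp 1 0 2 (qsf 536870912 536870912 0 536870912 0) ndB0q1 ndB0q2 pcB0 cut_B00pm_102_s3 Ext.none)

def k0_B00pm_102_s3 : ∃ t, chk3 f_B00pm_102_s3 t 1 1 1 = true :=
  ⟨(l 6), by decide +kernel⟩

theorem c_B00pm_102_s3 : CertF 536870912 536870912 0 536870912 587336777 62277027 false true false .npp 1 0 2
    ndB0q1 ndB0q2 pcB0 cut_B00pm_102_s3 Ext.none :=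
  certF0 (fam := false) (s1 := true) (s2 := false) (a := 1) (b := 0) (c := 2) (cn := .npp) (n1 := ndB0q1) (n2 := ndB0q2) (pc := pcB0) (cut := cut_B00pm_102_s3) (xt := Ext.none) (P1 := 536870912) (W1 := 536870912) (P2 := 0) (W2 := 536870912) (P3 := 587336777) (W3 := 62277027)
    rfl k0_B00pm_102_s3

theorem s_B00pm_102_s3 {κ x : ℝ} (hκ : κ * h0 = ken x) (hx : ((587336777 : ℕ) : ℝ) / S ≤ x)
    (hx' : x ≤ (((587336777 : ℕ) : ℝ) + (62277027 : ℕ)) / S)
    (H : CutB (VFD κ) PP tK tL pcB (Cut.of [[⟨0, 1, 0, 67108864⟩, ⟨1, 0, 0, 67108864⟩, ⟨2, 1, 0, 67108864⟩], [⟨0, 0, 1, 20971520⟩, ⟨1, 1, 2, 20971520⟩, ⟨2, 1, 0, 29360128⟩]]) 1 0 2 0 0 (sgb true) (sgb false) x) :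
    AltB (VFD κ) PP tK tL pcB [⟨4, 0, 0, 2845415833⟩] 1 0 2 0 0 (sgb true) (sgb false) x :=
  strip_altBD (m := 2845415833) false rfl hκ (SH.κ0 hκ (SH.hx1 hx).le (SH.hx2 hx').le) (SH.hx1 hx).le (SH.hx2 hx') (covB01).cov (covB02).cov hx hx' c_B00pm_102_s3 H (noExt_B)

noncomputable def cut_B00pm_112_s1 : Cut := Cut.of [[⟨4, 0, 0, 1449551462⟩]]

noncomputable def xt_B00pm_112_s1 : Ext := strExt0 dd false true false .u0 .u2 .u0m .dn 1 1 2 rfl rfl gf1 vv ww kz ndB0q1 ndB0q2

noncomputable def f_B00pm_112_s1 : ℕ → ℕ → ℕ → ℕ → Bool := onCell 536870912 536870912 0 536870912 587336777 62277027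
    (rowF 2 false true false .dn 1 1 2 (qsf 536870912 536870912 0 536870912 1) ndB0q1 ndB0q2 pcB1 cut_B00pm_112_s1 xt_B00pm_112_s1)

def k0_B00pm_112_s1 : ∃ t, chk3 f_B00pm_112_s1 t 8 8 1 = true :=
  ⟨(b (a (l 3) (a (l 1068532751) (l 1068621839))) (a (a (b (l 3) (a (l 3) (b (l 3) (l 1068448783)))) (b (a (l 3) (a (l 3) (l 1068467215))) (b (a (b (l 3) (l 1068446735)) (c (a (l 1068687887) (l 1068691471)) (a (l 1068216335) (l 1068236815)))) (a (l 1068476943) (a (l 1068489743) (l 1068498959)))))) (b (a (l 1068529679) (l 1068620815)) (a (b (b (l 1068527631) (a (l 1068506127) (l 1068551695))) (a (l 1068525071) (l 1068565007))) (b (l 1068619791) (a (l 16751880) (b (l 16747744) (a (l 16746080) (l 16743200))))))))), by decide +kernel⟩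

def k1_B00pm_112_s1 : ∃ t, chk3 f_B00pm_112_s1 t 16 18 1 = true :=
  ⟨(a (a (b (a (b (l 3) (c (l 1068728335) (a (l 1068200975) (l 1068219919)))) (a (a (b (l 3) (l 1068485135)) (b (b (l 3) (c (l 1068721167) (l 1068206095))) (c (l 1068741135) (l 1068242959)))) (b (b (l 3) (c (l 1068725775) (a (l 1068214799) (l 1068222991)))) (b (b (a (l 1068483087) (l 1068489231)) (l 1068495887)) (l 1068509711))))) (a (c (a (l 1068763151) (l 1068771343)) (b (l 1068258319) (l 1068305423))) (a (b (l 1068525583) (l 1068562447)) (b (l 1068537871) (l 1068574223))))) (a (b (b (c (l 1068727311) (l 1068230159)) (c (b (l 1068747279) (l 1068760591)) (b (a (l 1068259343) (l 1068274191)) (l 1068291087)))) (b (l 1068151311) (l 1068590607))) (b (b (c (l 1068734991) (l 1068257807)) (b (l 1068525071) (l 1068544015))) (b (l 1068572175) (l 1068609039))))) (b (a (b (l 1068515855) (c (l 1068768271) (l 1068341263))) (b (l 1068533263) (l 1068572175))) (a (b (a (l 1068586511) (l 16755264))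 (a (l 16751904) (b (l 16750512) (l 16747360)))) (b (a (l 16752256) (l 16749272)) (b (a (l 16747544) (l 16744544)) (a (l 16744344) (l 16741384))))))), by decide +kernel⟩

def k2_B00pm_112_s1 : ∃ t, chk3 f_B00pm_112_s1 t 16 19 1 = true :=
  ⟨(c (a (b (a (a (b (l 1068805647) (l 1068826639)) (b (l 1068819983) (b (l 16750688) (a (b (l 16749040) (l 16747464)) (l 16752048))))) (b (a (l 16752488) (b (l 16751144) (a (l 16748776) (l 16747344)))) (a (b (a (l 16748552) (l 16747096)) (l 16744584)) (b (l 16744848) (l 16741680))))) (a (b (a (b (a (b (l 16748720) (l 16747120)) (b (l 16747296) (l 16745664))) (l 16743936)) (l 16742632)) (a (l 16738920) (l 16735992))) (a (l 16736392) (l 16733448)))) (a (b (b (b (a (l 16748288) (l 16745280)) (a (l 16745080) (l 16742168))) (l 16738856)) (l 16729048)) (b (l 16736144) (l 16723264)))) (a (b (a (a (b (l 1068351503) (l 1068390415)) (b (l 1068388367) (b (l 16748432) (a (b (l 16746648) (l 16744936)) (b (l 16745144) (l 16743488))))))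 (b (a (l 16750424) (b (l 16749048) (a (l 16746504) (l 16745000)))) (b (a (a (l 16746168) (l 16749936)) (l 16742488)) (a (l 16742128) (l 16739168))))) (a (b (b (a (a (b (l 16746200) (a (l 16744832) (l 16744120))) (b (l 16744712) (l 16743032))) (l 16741704)) (l 16739752)) (a (l 16736032) (l 16733128))) (a (l 16733648) (l 16730712)))) (a (b (b (b (a (l 16751264) (l 16743016)) (a (l 16742776) (l 16739768))) (l 16736360)) (a (l 16727760) (l 16724816))) (b (l 16733640) (l 16720440))))), by decide +kernel⟩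

def k3_B00pm_112_s1 : ∃ t, chk3 f_B00pm_112_s1 t 17 9 1 = true :=
  ⟨(b (a (a (b (b (l 1068558863) (l 16751096)) (b (b (a (l 16747872) (l 16744944)) (a (l 16744736) (l 16741768))) (l 16738536))) (b (b (l 16761944) (b (a (l 16748240) (l 16745368)) (a (l 16745152) (l 16742176)))) (b (l 16738944) (l 16732768)))) (b (b (a (b (l 16747272) (a (l 16745592) (l 16742648))) (b (l 16741472) (l 16738496))) (a (b (l 16740952) (l 16737944)) (l 16733920))) (c (l 16749880) (l 16736592)))) (b (a (b (a (l 16732248) (l 16726552)) (a (l 16725920) (l 16720304))) (a (l 16717944) (l 16712664))) (a (a (l 16716192) (l 16710712)) (a (l 16705424) (l 16700320))))), by decide +kernel⟩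

def k4_B00pm_112_s1 : ∃ t, chk3 f_B00pm_112_s1 t 9 4 1 = true :=
  ⟨(b (b (a (a (l 1068710415) (b (l 1068801039) (a (l 1068786703) (b (l 16754200) (a (l 16749768) (l 16757656)))))) (b (a (a (l 1068873743) (a (l 16763840) (b (l 16753480) (l 16747952)))) (a (b (l 16749528) (a (l 16745352) (l 16742704))) (b (a (l 16745656) (l 16743032)) (l 16738920)))) (a (a (b (a (l 16750224) (a (l 16748256) (l 16746976))) (a (b (l 16745976) (l 16743048)) (b (l 16748576) (l 16740520)))) (b (a (b (l 16746400) (l 16743552)) (l 16752808)) (l 16738056))) (l 16733240)))) (a (a (b (a (l 1068691471) (b (l 16753360) (a (l 16748712) (l 16756536)))) (a (b (b (l 16748288) (a (l 16746608) (l 16743832))) (a (b (l 16743504) (l 16740464)) (l 16739264))) (b (b (a (l 16744168) (l 16741440)) (l 16739768)) (l 16735272)))) (b (a (b (a (l 16749264) (l 16757120)) (a (b (l 16744832) (l 16741784)) (l 16740624))) (b (a (b (l 16745432) (l 16742440)) (l 16741280)) (l 16736800))) (c (l 16752960)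 (l 16750032)))) (a (b (a (l 16734616) (l 16729552)) (a (l 16722984) (l 16718064))) (b (l 16722128) (l 16710856))))) (b (a (a (b (c (l 16751336) (l 16737960)) (a (l 16719504) (l 16714408))) (b (a (l 16721184) (l 16716232)) (l 16707048))) (a (b (a (l 16711400) (l 16706632)) (l 16697672)) (b (l 16699640) (l 16688664)))) (a (a (b (a (l 16707552) (l 16702616)) (l 16693000)) (b (l 16695504) (l 16704848))) (b (a (l 16686472) (b (l 16680584) (l 16675208))) (a (b (l 16678120) (l 16672224)) (l 16666928)))))), by decide +kernel⟩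

def k5_B00pm_112_s1 : ∃ t, chk3 f_B00pm_112_s1 t 4 10 1 = true :=
  ⟨(a (b (a (a (a (b (a (b (c (l 16732104) (l 16729000)) (c (l 16725120) (l 16721792))) (b (c (l 16729176) (l 16726104)) (c (l 16722200) (l 16718920)))) (a (b (c (a (l 16718696) (l 16717240)) (a (l 16715136) (l 16713712))) (b (a (l 16711376) (l 16709944)) (l 16706864))) (b (c (l 16715072) (l 16711576)) (c (l 16707760) (l 16704048))))) (b (a (b (l 16724736) (l 16717680)) (c (l 16719856) (l 16716736))) (a (b (l 16710464) (l 16703072)) (b (l 16707600) (l 16700240))))) (b (a (b (l 16717472) (l 16710480)) (c (l 16709888) (l 16706720))) (a (b (l 16703352) (l 16696040)) (b (l 16697808) (l 16690608))))) (a (b (a (l 16702816) (l 16697528)) (a (l 16688952) (l 16683872))) (b (l 16705696) (b (a (l 16682400) (l 16677760)) (a (l 16675624) (l 16670792)))))) (a (a (b (b (a (a (b (l 16702936) (l 16698880)) (l 16698088)) (l 16693872)) (a (a (a (l 16693248) (l 16691848)) (l 16689752)) (l 16685584)))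 (a (a (b (l 16683664) (l 16674248)) (b (l 16680896) (b (l 16673912) (a (l 16669824) (l 16668408))))) (b (l 16676800) (a (b (l 16671256) (l 16666272)) (l 16686928))))) (b (a (l 16705264) (b (l 16683016) (a (l 16676256) (l 16673736)))) (b (a (a (l 16683336) (l 16670104)) (l 16666144)) (l 16659592)))) (a (b (a (b (l 16677976) (l 16669800)) (b (l 16672992) (l 16665096))) (l 16654576)) (b (l 16662088) (l 16645912))))) (a (b (a (b (a (l 16682808) (b (l 16681400) (l 16675160))) (b (l 16686496) (l 16664352))) (b (b (l 16695792) (l 16668576)) (l 16659432))) (a (l 16688104) (l 16638856))) (b (a (l 16699808) (l 16692408)) (a (l 16632120) (l 6))))), by decide +kernel⟩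

def k6_B00pm_112_s1 : ∃ t, chk3 f_B00pm_112_s1 t 4 11 1 = true :=
  ⟨(b (a (a (a (b (a (b (a (b (a (l 16678016) (l 16666088)) (l 16661648)) (l 16661472)) (l 16652216)) (l 16673176)) (a (a (l 16657512) (l 16633920)) (l 16630120))) (b (a (l 16647104) (l 16642296)) (l 16665048))) (a (b (l 16635648) (l 16614856)) (b (l 16627720) (l 6)))) (l 6)) (a (a (a (b (a (b (l 16617248) (l 16604672)) (l 16606248)) (a (l 16585000) (l 6))) (b (l 16599856) (l 6))) (l 6)) (l 6))), by decide +kernel⟩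

def k7_B00pm_112_s1 : ∃ t, chk3 f_B00pm_112_s1 t 5 2 1 = true :=
  ⟨(a (b (b (a (b (a (a (l 16752160) (l 16726384)) (l 16719416)) (a (b (l 16712608) (l 16701648)) (l 16708752))) (l 1)) (a (b (a (b (l 16690808) (l 16701224)) (b (l 16682504) (a (l 16674192) (l 16670320)))) (a (b (b (l 16672328) (l 16667232)) (l 16659424)) (b (l 16662304) (l 16652368)))) (l 1))) (b (a (b (a (l 16664576) (l 6)) (l 6)) (l 1)) (l 6))) (l 1)), by decide +kernel⟩

def k8_B00pm_112_s1 : ∃ t, chk3 f_B00pm_112_s1 t 2 3 1 = true :=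
  ⟨(a (b (l 6) (l 6)) (l 6)), by decide +kernel⟩

def k9_B00pm_112_s1 : ∃ t, chk3 f_B00pm_112_s1 t 3 1 1 = true :=
  ⟨(l 1), by decide +kernel⟩

theorem t10_B00pm_112_s1 : ∃ t, chk3 f_B00pm_112_s1 t 4 5 1 = true := ex3_b k5_B00pm_112_s1 k6_B00pm_112_s1

theorem t11_B00pm_112_s1 : ∃ t, chk3 f_B00pm_112_s1 t 16 9 1 = true := ex3_b k1_B00pm_112_s1 k2_B00pm_112_s1

theorem t12_B00pm_112_s1 : ∃ t, chk3 f_B00pm_112_s1 t 8 9 1 = true := ex3_a t11_B00pm_112_s1 k3_B00pm_112_s1

theorem t13_B00pm_112_s1 : ∃ t, chk3 f_B00pm_112_s1 t 8 4 1 = true := ex3_b k0_B00pm_112_s1 t12_B00pm_112_s1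

theorem t14_B00pm_112_s1 : ∃ t, chk3 f_B00pm_112_s1 t 4 4 1 = true := ex3_a t13_B00pm_112_s1 k4_B00pm_112_s1

theorem t15_B00pm_112_s1 : ∃ t, chk3 f_B00pm_112_s1 t 4 2 1 = true := ex3_b t14_B00pm_112_s1 t10_B00pm_112_s1

theorem t16_B00pm_112_s1 : ∃ t, chk3 f_B00pm_112_s1 t 2 2 1 = true := ex3_a t15_B00pm_112_s1 k7_B00pm_112_s1

theorem t17_B00pm_112_s1 : ∃ t, chk3 f_B00pm_112_s1 t 2 1 1 = true := ex3_b t16_B00pm_112_s1 k8_B00pm_112_s1

theorem t18_B00pm_112_s1 : ∃ t, chk3 f_B00pm_112_s1 t 1 1 1 = true := ex3_a t17_B00pm_112_s1 k9_B00pm_112_s1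

theorem c_B00pm_112_s1 : CertF 536870912 536870912 0 536870912 587336777 62277027 false true false .dn 1 1 2
    ndB0q1 ndB0q2 pcB1 cut_B00pm_112_s1 xt_B00pm_112_s1 :=
  certF2 (fam := false) (s1 := true) (s2 := false) (a := 1) (b := 1) (c := 2) (cn := .dn) (n1 := ndB0q1) (n2 := ndB0q2) (pc := pcB1) (cut := cut_B00pm_112_s1) (xt := xt_B00pm_112_s1) (P1 := 536870912) (W1 := 536870912) (P2 := 0) (W2 := 536870912) (P3 := 587336777) (W3 := 62277027)
    rfl (fun _ => rfl) t18_B00pm_112_s1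

theorem s_B00pm_112_s1 {κ x : ℝ} (hκ : κ * h0 = ken x) (hx : ((587336777 : ℕ) : ℝ) / S ≤ x)
    (hx' : x ≤ (((587336777 : ℕ) : ℝ) + (62277027 : ℕ)) / S) :
    AltB (VFD κ) PP tK tL pcB [⟨3, 0, 0, 1449551462⟩] 1 1 2 0 0 (sgb true) (sgb false) x :=
  strip_altBD (m := 1449551462) true rfl hκ (SH.κ0 hκ (SH.hx1 hx).le (SH.hx2 hx').le) (SH.hx1 hx).le (SH.hx2 hx') (covB01).cov (covB02).cov hx hx' c_B00pm_112_s1 cutB_nil ((okx6 hx hx').ext0B (T := tt) (zx hx hx') (okx hx hx') (sideB hx hx') hκ rfl rfl (.O 1 true) (.O 2 false) (Or.inr rfl))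

noncomputable def cut_B00pm_112_s3 : Cut := Cut.of [[⟨3, 0, 0, 2845415833⟩]]

noncomputable def f_B00pm_112_s3 : ℕ → ℕ → ℕ → ℕ → Bool := onCell 536870912 536870912 0 536870912 587336777 62277027
    (rowF 0 false true false .dn 1 1 2 (qsf 536870912 536870912 0 536870912 1) ndB0q1 ndB0q2 pcB1 cut_B00pm_112_s3 Ext.none)

def k0_B00pm_112_s3 : ∃ t, chk3 f_B00pm_112_s3 t 1 1 1 = true :=
  ⟨(l 6), by decide +kernel⟩

theorem c_B00pm_112_s3 : CertF 536870912 536870912 0 536870912 587336777 62277027 false true false .dn 1 1 2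
    ndB0q1 ndB0q2 pcB1 cut_B00pm_112_s3 Ext.none :=
  certF0 (fam := false) (s1 := true) (s2 := false) (a := 1) (b := 1) (c := 2) (cn := .dn) (n1 := ndB0q1) (n2 := ndB0q2) (pc := pcB1) (cut := cut_B00pm_112_s3) (xt := Ext.none) (P1 := 536870912) (W1 := 536870912) (P2 := 0) (W2 := 536870912) (P3 := 587336777) (W3 := 62277027)
    rfl k0_B00pm_112_s3

theorem s_B00pm_112_s3 {κ x : ℝ} (hκ : κ * h0 = ken x) (hx : ((587336777 : ℕ) : ℝ) / S ≤ x)
    (hx' : x ≤ (((587336777 : ℕ) : ℝ) + (62277027 : ℕ)) / S) :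
    AltB (VFD κ) PP tK tL pcB [⟨4, 0, 0, 2845415833⟩] 1 1 2 0 0 (sgb true) (sgb false) x :=
  strip_altBD (m := 2845415833) false rfl hκ (SH.κ0 hκ (SH.hx1 hx).le (SH.hx2 hx').le) (SH.hx1 hx).le (SH.hx2 hx') (covB01).cov (covB02).cov hx hx' c_B00pm_112_s3 cutB_nil (noExt_B)

noncomputable def cut_B00pm_202_s1 : Cut := Cut.of [[⟨4, 0, 0, 1449551462⟩], [⟨0, 1, 0, 67108864⟩, ⟨1, 0, 0, 67108864⟩, ⟨2, 1, 0, 67108864⟩]]

noncomputable def f_B00pm_202_s1 : ℕ → ℕ → ℕ → ℕ → Bool := onCell 0 536870912 0 536870912 587336777 62277027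
    (rowF 0 false true false .pp 2 0 2 (qsf 0 536870912 0 536870912 0) ndB0q2 ndB0q2 pcB0 cut_B00pm_202_s1 Ext.none)

def k0_B00pm_202_s1 : ∃ t, chk3 f_B00pm_202_s1 t 1 1 1 = true :=
  ⟨(a (l 3) (b (l 3) (b (l 3) (a (l 3) (b (l 3) (a (l 3) (l 14))))))), by decide +kernel⟩

theorem c_B00pm_202_s1 : CertF 0 536870912 0 536870912 587336777 62277027 false true false .pp 2 0 2
    ndB0q2 ndB0q2 pcB0 cut_B00pm_202_s1 Ext.none :=
  certF0 (fam := false) (s1 := true) (s2 := false) (a := 2) (b := 0) (c := 2) (cn := .pp) (n1 := ndB0q2) (n2 := ndB0q2) (pc := pcB0) (cut := cut_B00pm_202_s1) (xt := Ext.none) (P1 := 0) (W1 := 536870912) (P2 := 0) (W2 := 536870912) (P3 := 587336777) (W3 := 62277027)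
    rfl k0_B00pm_202_s1

theorem s_B00pm_202_s1 {κ x : ℝ} (hκ : κ * h0 = ken x) (hx : ((587336777 : ℕ) : ℝ) / S ≤ x)
    (hx' : x ≤ (((587336777 : ℕ) : ℝ) + (62277027 : ℕ)) / S)
    (H : CutB (VFD κ) PP tK tL pcB (Cut.of [[⟨0, 1, 0, 67108864⟩, ⟨1, 0, 0, 67108864⟩, ⟨2, 1, 0, 67108864⟩]]) 2 0 2 0 0 (sgb true) (sgb false) x) :
    AltB (VFD κ) PP tK tL pcB [⟨3, 0, 0, 1449551462⟩] 2 0 2 0 0 (sgb true) (sgb false) x :=
  strip_altBD (m := 1449551462) true rfl hκ (SH.κ0 hκ (SH.hx1 hx).le (SH.hx2 hx').le) (SH.hx1 hx).le (SH.hx2 hx') (covB02).cov (covB02).cov hx hx' c_B00pm_202_s1 H (noExt_B)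

noncomputable def cut_B00pm_202_s3 : Cut := Cut.of [[⟨3, 0, 0, 2845415833⟩], [⟨0, 1, 0, 67108864⟩, ⟨1, 0, 0, 67108864⟩, ⟨2, 1, 0, 67108864⟩]]

noncomputable def f_B00pm_202_s3 : ℕ → ℕ → ℕ → ℕ → Bool := onCell 0 536870912 0 536870912 587336777 62277027
    (rowF 0 false true false .pp 2 0 2 (qsf 0 536870912 0 536870912 0) ndB0q2 ndB0q2 pcB0 cut_B00pm_202_s3 Ext.none)

def k0_B00pm_202_s3 : ∃ t, chk3 f_B00pm_202_s3 t 1 1 1 = true :=
  ⟨(l 6), by decide +kernel⟩

theorem c_B00pm_202_s3 : CertF 0 536870912 0 536870912 587336777 62277027 false true false .pp 2 0 2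
    ndB0q2 ndB0q2 pcB0 cut_B00pm_202_s3 Ext.none :=
  certF0 (fam := false) (s1 := true) (s2 := false) (a := 2) (b := 0) (c := 2) (cn := .pp) (n1 := ndB0q2) (n2 := ndB0q2) (pc := pcB0) (cut := cut_B00pm_202_s3) (xt := Ext.none) (P1 := 0) (W1 := 536870912) (P2 := 0) (W2 := 536870912) (P3 := 587336777) (W3 := 62277027)
    rfl k0_B00pm_202_s3

theorem s_B00pm_202_s3 {κ x : ℝ} (hκ : κ * h0 = ken x) (hx : ((587336777 : ℕ) : ℝ) / S ≤ x)
    (hx' : x ≤ (((587336777 : ℕ) : ℝ) + (62277027 : ℕ)) / S)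
    (H : CutB (VFD κ) PP tK tL pcB (Cut.of [[⟨0, 1, 0, 67108864⟩, ⟨1, 0, 0, 67108864⟩, ⟨2, 1, 0, 67108864⟩]]) 2 0 2 0 0 (sgb true) (sgb false) x) :
    AltB (VFD κ) PP tK tL pcB [⟨4, 0, 0, 2845415833⟩] 2 0 2 0 0 (sgb true) (sgb false) x :=
  strip_altBD (m := 2845415833) false rfl hκ (SH.κ0 hκ (SH.hx1 hx).le (SH.hx2 hx').le) (SH.hx1 hx).le (SH.hx2 hx') (covB02).cov (covB02).cov hx hx' c_B00pm_202_s3 H (noExt_B)

noncomputable def cut_B00mm_001_s1 : Cut := Cut.of [[⟨4, 0, 0, 1449551462⟩]]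

noncomputable def f_B00mm_001_s1 : ℕ → ℕ → ℕ → ℕ → Bool := onCell 0 536870912 0 536870912 587336777 62277027
    (rowF 1 false false false .up 0 0 1 (qsf 0 536870912 536870912 536870912 0) ndB0q0 ndB0q1 pcB0 cut_B00mm_001_s1 Ext.none)

def k0_B00mm_001_s1 : ∃ t, chk3 f_B00mm_001_s1 t 1 1 1 = true :=
  ⟨(l 3), by decide +kernel⟩

theorem c_B00mm_001_s1 : CertF 0 536870912 536870912 536870912 587336777 62277027 false false false .up 0 0 1
    ndB0q0 ndB0q1 pcB0 cut_B00mm_001_s1 Ext.none :=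
  certF1 (fam := false) (s1 := false) (s2 := false) (a := 0) (b := 0) (c := 1) (cn := .up) (n1 := ndB0q0) (n2 := ndB0q1) (pc := pcB0) (cut := cut_B00mm_001_s1) (xt := Ext.none) (P1 := 0) (W1 := 536870912) (P2 := 536870912) (W2 := 536870912) (P3 := 587336777) (W3 := 62277027)
    rfl (fun _ => rfl) k0_B00mm_001_s1

theorem s_B00mm_001_s1 {κ x : ℝ} (hκ : κ * h0 = ken x) (hx : ((587336777 : ℕ) : ℝ) / S ≤ x)
    (hx' : x ≤ (((587336777 : ℕ) : ℝ) + (62277027 : ℕ)) / S) :
    AltB (VFD κ) PP tK tL pcB [⟨3, 0, 0, 1449551462⟩] 0 0 1 0 0 (sgb false) (sgb false) x :=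
  strip_altBD (m := 1449551462) true rfl hκ (SH.κ0 hκ (SH.hx1 hx).le (SH.hx2 hx').le) (SH.hx1 hx).le (SH.hx2 hx') (covB00).cov (covB01).cov hx hx' c_B00mm_001_s1 cutB_nil (noExt_B)

noncomputable def cut_B00mm_001_s3 : Cut := Cut.of [[⟨3, 0, 0, 2845415833⟩]]

noncomputable def f_B00mm_001_s3 : ℕ → ℕ → ℕ → ℕ → Bool := onCell 0 536870912 536870912 536870912 587336777 62277027
    (rowF 0 false false false .up 0 0 1 (qsf 0 536870912 536870912 536870912 0) ndB0q0 ndB0q1 pcB0 cut_B00mm_001_s3 Ext.none)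

def k0_B00mm_001_s3 : ∃ t, chk3 f_B00mm_001_s3 t 1 1 1 = true :=
  ⟨(l 6), by decide +kernel⟩

theorem c_B00mm_001_s3 : CertF 0 536870912 536870912 536870912 587336777 62277027 false false false .up 0 0 1
    ndB0q0 ndB0q1 pcB0 cut_B00mm_001_s3 Ext.none :=
  certF0 (fam := false) (s1 := false) (s2 := false) (a := 0) (b := 0) (c := 1) (cn := .up) (n1 := ndB0q0) (n2 := ndB0q1) (pc := pcB0) (cut := cut_B00mm_001_s3) (xt := Ext.none) (P1 := 0) (W1 := 536870912) (P2 := 536870912) (W2 := 536870912) (P3 := 587336777) (W3 := 62277027)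
    rfl k0_B00mm_001_s3

theorem s_B00mm_001_s3 {κ x : ℝ} (hκ : κ * h0 = ken x) (hx : ((587336777 : ℕ) : ℝ) / S ≤ x)
    (hx' : x ≤ (((587336777 : ℕ) : ℝ) + (62277027 : ℕ)) / S) :
    AltB (VFD κ) PP tK tL pcB [⟨4, 0, 0, 2845415833⟩] 0 0 1 0 0 (sgb false) (sgb false) x :=
  strip_altBD (m := 2845415833) false rfl hκ (SH.κ0 hκ (SH.hx1 hx).le (SH.hx2 hx').le) (SH.hx1 hx).le (SH.hx2 hx') (covB00).cov (covB01).cov hx hx' c_B00mm_001_s3 cutB_nil (noExt_B)

noncomputable def cut_B00mm_011_s1 : Cut := Cut.of [[⟨4, 0, 0, 1449551462⟩]]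

noncomputable def f_B00mm_011_s1 : ℕ → ℕ → ℕ → ℕ → Bool := onCell 0 536870912 536870912 536870912 587336777 62277027
    (rowF 1 false false false .pnn 0 1 1 (qsf 0 536870912 536870912 536870912 1) ndB0q0 ndB0q1 pcB1 cut_B00mm_011_s1 Ext.none)

def k0_B00mm_011_s1 : ∃ t, chk3 f_B00mm_011_s1 t 1 1 1 = true :=
  ⟨(l 5), by decide +kernel⟩

theorem c_B00mm_011_s1 : CertF 0 536870912 536870912 536870912 587336777 62277027 false false false .pnn 0 1 1
    ndB0q0 ndB0q1 pcB1 cut_B00mm_011_s1 Ext.none :=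
  certF1 (fam := false) (s1 := false) (s2 := false) (a := 0) (b := 1) (c := 1) (cn := .pnn) (n1 := ndB0q0) (n2 := ndB0q1) (pc := pcB1) (cut := cut_B00mm_011_s1) (xt := Ext.none) (P1 := 0) (W1 := 536870912) (P2 := 536870912) (W2 := 536870912) (P3 := 587336777) (W3 := 62277027)
    rfl (fun _ => rfl) k0_B00mm_011_s1

theorem s_B00mm_011_s1 {κ x : ℝ} (hκ : κ * h0 = ken x) (hx : ((587336777 : ℕ) : ℝ) / S ≤ x)
    (hx' : x ≤ (((587336777 : ℕ) : ℝ) + (62277027 : ℕ)) / S) :
    AltB (VFD κ) PP tK tL pcB [⟨3, 0, 0, 1449551462⟩] 0 1 1 0 0 (sgb false) (sgb false) x :=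
  strip_altBD (m := 1449551462) true rfl hκ (SH.κ0 hκ (SH.hx1 hx).le (SH.hx2 hx').le) (SH.hx1 hx).le (SH.hx2 hx') (covB00).cov (covB01).cov hx hx' c_B00mm_011_s1 cutB_nil (noExt_B)

noncomputable def cut_B00mm_011_s3 : Cut := Cut.of [[⟨3, 0, 0, 2845415833⟩]]

noncomputable def f_B00mm_011_s3 : ℕ → ℕ → ℕ → ℕ → Bool := onCell 0 536870912 536870912 536870912 587336777 62277027
    (rowF 0 false false false .pnn 0 1 1 (qsf 0 536870912 536870912 536870912 1) ndB0q0 ndB0q1 pcB1 cut_B00mm_011_s3 Ext.none)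

def k0_B00mm_011_s3 : ∃ t, chk3 f_B00mm_011_s3 t 1 1 1 = true :=
  ⟨(l 6), by decide +kernel⟩

theorem c_B00mm_011_s3 : CertF 0 536870912 536870912 536870912 587336777 62277027 false false false .pnn 0 1 1
    ndB0q0 ndB0q1 pcB1 cut_B00mm_011_s3 Ext.none :=
  certF0 (fam := false) (s1 := false) (s2 := false) (a := 0) (b := 1) (c := 1) (cn := .pnn) (n1 := ndB0q0) (n2 := ndB0q1) (pc := pcB1) (cut := cut_B00mm_011_s3) (xt := Ext.none) (P1 := 0) (W1 := 536870912) (P2 := 536870912) (W2 := 536870912) (P3 := 587336777) (W3 := 62277027)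
    rfl k0_B00mm_011_s3

theorem s_B00mm_011_s3 {κ x : ℝ} (hκ : κ * h0 = ken x) (hx : ((587336777 : ℕ) : ℝ) / S ≤ x)
    (hx' : x ≤ (((587336777 : ℕ) : ℝ) + (62277027 : ℕ)) / S) :
    AltB (VFD κ) PP tK tL pcB [⟨4, 0, 0, 2845415833⟩] 0 1 1 0 0 (sgb false) (sgb false) x :=
  strip_altBD (m := 2845415833) false rfl hκ (SH.κ0 hκ (SH.hx1 hx).le (SH.hx2 hx').le) (SH.hx1 hx).le (SH.hx2 hx') (covB00).cov (covB01).cov hx hx' c_B00mm_011_s3 cutB_nil (noExt_B)

noncomputable def cut_B00mm_012_s1 : Cut := Cut.of [[⟨4, 0, 0, 1449551462⟩]]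

noncomputable def f_B00mm_012_s1 : ℕ → ℕ → ℕ → ℕ → Bool := onCell 0 536870912 0 536870912 587336777 62277027
    (rowF 0 false false false .pnp 0 1 2 (qsf 0 536870912 0 536870912 1) ndB0q0 ndB0q2 pcB1 cut_B00mm_012_s1 Ext.none)

def k0_B00mm_012_s1 : ∃ t, chk3 f_B00mm_012_s1 t 1 1 1 = true :=
  ⟨(l 5), by decide +kernel⟩

theorem c_B00mm_012_s1 : CertF 0 536870912 0 536870912 587336777 62277027 false false false .pnp 0 1 2
    ndB0q0 ndB0q2 pcB1 cut_B00mm_012_s1 Ext.none :=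
  certF0 (fam := false) (s1 := false) (s2 := false) (a := 0) (b := 1) (c := 2) (cn := .pnp) (n1 := ndB0q0) (n2 := ndB0q2) (pc := pcB1) (cut := cut_B00mm_012_s1) (xt := Ext.none) (P1 := 0) (W1 := 536870912) (P2 := 0) (W2 := 536870912) (P3 := 587336777) (W3 := 62277027)
    rfl k0_B00mm_012_s1

theorem s_B00mm_012_s1 {κ x : ℝ} (hκ : κ * h0 = ken x) (hx : ((587336777 : ℕ) : ℝ) / S ≤ x)
    (hx' : x ≤ (((587336777 : ℕ) : ℝ) + (62277027 : ℕ)) / S) :
    AltB (VFD κ) PP tK tL pcB [⟨3, 0, 0, 1449551462⟩] 0 1 2 0 0 (sgb false) (sgb false) x :=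
  strip_altBD (m := 1449551462) true rfl hκ (SH.κ0 hκ (SH.hx1 hx).le (SH.hx2 hx').le) (SH.hx1 hx).le (SH.hx2 hx') (covB00).cov (covB02).cov hx hx' c_B00mm_012_s1 cutB_nil (noExt_B)

noncomputable def cut_B00mm_012_s3 : Cut := Cut.of [[⟨3, 0, 0, 2845415833⟩]]

noncomputable def f_B00mm_012_s3 : ℕ → ℕ → ℕ → ℕ → Bool := onCell 0 536870912 0 536870912 587336777 62277027
    (rowF 0 false false false .pnp 0 1 2 (qsf 0 536870912 0 536870912 1) ndB0q0 ndB0q2 pcB1 cut_B00mm_012_s3 Ext.none)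

def k0_B00mm_012_s3 : ∃ t, chk3 f_B00mm_012_s3 t 1 1 1 = true :=
  ⟨(l 5), by decide +kernel⟩

theorem c_B00mm_012_s3 : CertF 0 536870912 0 536870912 587336777 62277027 false false false .pnp 0 1 2
    ndB0q0 ndB0q2 pcB1 cut_B00mm_012_s3 Ext.none :=
  certF0 (fam := false) (s1 := false) (s2 := false) (a := 0) (b := 1) (c := 2) (cn := .pnp) (n1 := ndB0q0) (n2 := ndB0q2) (pc := pcB1) (cut := cut_B00mm_012_s3) (xt := Ext.none) (P1 := 0) (W1 := 536870912) (P2 := 0) (W2 := 536870912) (P3 := 587336777) (W3 := 62277027)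
    rfl k0_B00mm_012_s3

theorem s_B00mm_012_s3 {κ x : ℝ} (hκ : κ * h0 = ken x) (hx : ((587336777 : ℕ) : ℝ) / S ≤ x)
    (hx' : x ≤ (((587336777 : ℕ) : ℝ) + (62277027 : ℕ)) / S) :
    AltB (VFD κ) PP tK tL pcB [⟨4, 0, 0, 2845415833⟩] 0 1 2 0 0 (sgb false) (sgb false) x :=
  strip_altBD (m := 2845415833) false rfl hκ (SH.κ0 hκ (SH.hx1 hx).le (SH.hx2 hx').le) (SH.hx1 hx).le (SH.hx2 hx') (covB00).cov (covB02).cov hx hx' c_B00mm_012_s3 cutB_nil (noExt_B)

noncomputable def cut_B00mm_022_s1 : Cut := Cut.of [[⟨4, 0, 0, 1449551462⟩]]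

noncomputable def f_B00mm_022_s1 : ℕ → ℕ → ℕ → ℕ → Bool := onCell 0 536870912 0 536870912 587336777 62277027
    (rowF 0 false false false .pp 0 2 2 (qsf 0 536870912 0 536870912 2) ndB0q0 ndB0q2 pcB2 cut_B00mm_022_s1 Ext.none)

def k0_B00mm_022_s1 : ∃ t, chk3 f_B00mm_022_s1 t 1 1 1 = true :=
  ⟨(l 5), by decide +kernel⟩

theorem c_B00mm_022_s1 : CertF 0 536870912 0 536870912 587336777 62277027 false false false .pp 0 2 2
    ndB0q0 ndB0q2 pcB2 cut_B00mm_022_s1 Ext.none :=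
  certF0 (fam := false) (s1 := false) (s2 := false) (a := 0) (b := 2) (c := 2) (cn := .pp) (n1 := ndB0q0) (n2 := ndB0q2) (pc := pcB2) (cut := cut_B00mm_022_s1) (xt := Ext.none) (P1 := 0) (W1 := 536870912) (P2 := 0) (W2 := 536870912) (P3 := 587336777) (W3 := 62277027)
    rfl k0_B00mm_022_s1

theorem s_B00mm_022_s1 {κ x : ℝ} (hκ : κ * h0 = ken x) (hx : ((587336777 : ℕ) : ℝ) / S ≤ x)
    (hx' : x ≤ (((587336777 : ℕ) : ℝ) + (62277027 : ℕ)) / S) :
    AltB (VFD κ) PP tK tL pcB [⟨3, 0, 0, 1449551462⟩] 0 2 2 0 0 (sgb false) (sgb false) x :=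
  strip_altBD (m := 1449551462) true rfl hκ (SH.κ0 hκ (SH.hx1 hx).le (SH.hx2 hx').le) (SH.hx1 hx).le (SH.hx2 hx') (covB00).cov (covB02).cov hx hx' c_B00mm_022_s1 cutB_nil (noExt_B)

noncomputable def cut_B00mm_022_s3 : Cut := Cut.of [[⟨3, 0, 0, 2845415833⟩]]

noncomputable def f_B00mm_022_s3 : ℕ → ℕ → ℕ → ℕ → Bool := onCell 0 536870912 0 536870912 587336777 62277027
    (rowF 0 false false false .pp 0 2 2 (qsf 0 536870912 0 536870912 2) ndB0q0 ndB0q2 pcB2 cut_B00mm_022_s3 Ext.none)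

def k0_B00mm_022_s3 : ∃ t, chk3 f_B00mm_022_s3 t 1 1 1 = true :=
  ⟨(l 5), by decide +kernel⟩

theorem c_B00mm_022_s3 : CertF 0 536870912 0 536870912 587336777 62277027 false false false .pp 0 2 2
    ndB0q0 ndB0q2 pcB2 cut_B00mm_022_s3 Ext.none :=
  certF0 (fam := false) (s1 := false) (s2 := false) (a := 0) (b := 2) (c := 2) (cn := .pp) (n1 := ndB0q0) (n2 := ndB0q2) (pc := pcB2) (cut := cut_B00mm_022_s3) (xt := Ext.none) (P1 := 0) (W1 := 536870912) (P2 := 0) (W2 := 536870912) (P3 := 587336777) (W3 := 62277027)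
    rfl k0_B00mm_022_s3

theorem s_B00mm_022_s3 {κ x : ℝ} (hκ : κ * h0 = ken x) (hx : ((587336777 : ℕ) : ℝ) / S ≤ x)
    (hx' : x ≤ (((587336777 : ℕ) : ℝ) + (62277027 : ℕ)) / S) :
    AltB (VFD κ) PP tK tL pcB [⟨4, 0, 0, 2845415833⟩] 0 2 2 0 0 (sgb false) (sgb false) x :=
  strip_altBD (m := 2845415833) false rfl hκ (SH.κ0 hκ (SH.hx1 hx).le (SH.hx2 hx').le) (SH.hx1 hx).le (SH.hx2 hx') (covB00).cov (covB02).cov hx hx' c_B00mm_022_s3 cutB_nil (noExt_B)

noncomputable def cut_B00mm_101_s1 : Cut := Cut.of [[⟨4, 0, 0, 1449551462⟩]]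

noncomputable def f_B00mm_101_s1 : ℕ → ℕ → ℕ → ℕ → Bool := onCell 536870912 536870912 536870912 536870912 587336777 62277027
    (rowF 0 false false false .npn 1 0 1 (qsf 536870912 536870912 536870912 536870912 0) ndB0q1 ndB0q1 pcB0 cut_B00mm_101_s1 Ext.none)

def k0_B00mm_101_s1 : ∃ t, chk3 f_B00mm_101_s1 t 1 1 1 = true :=
  ⟨(l 3), by decide +kernel⟩

theorem c_B00mm_101_s1 : CertF 536870912 536870912 536870912 536870912 587336777 62277027 false false false .npn 1 0 1
    ndB0q1 ndB0q1 pcB0 cut_B00mm_101_s1 Ext.none :=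
  certF0 (fam := false) (s1 := false) (s2 := false) (a := 1) (b := 0) (c := 1) (cn := .npn) (n1 := ndB0q1) (n2 := ndB0q1) (pc := pcB0) (cut := cut_B00mm_101_s1) (xt := Ext.none) (P1 := 536870912) (W1 := 536870912) (P2 := 536870912) (W2 := 536870912) (P3 := 587336777) (W3 := 62277027)
    rfl k0_B00mm_101_s1

theorem s_B00mm_101_s1 {κ x : ℝ} (hκ : κ * h0 = ken x) (hx : ((587336777 : ℕ) : ℝ) / S ≤ x)
    (hx' : x ≤ (((587336777 : ℕ) : ℝ) + (62277027 : ℕ)) / S) :
    AltB (VFD κ) PP tK tL pcB [⟨3, 0, 0, 1449551462⟩] 1 0 1 0 0 (sgb false) (sgb false) x :=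
  strip_altBD (m := 1449551462) true rfl hκ (SH.κ0 hκ (SH.hx1 hx).le (SH.hx2 hx').le) (SH.hx1 hx).le (SH.hx2 hx') (covB01).cov (covB01).cov hx hx' c_B00mm_101_s1 cutB_nil (noExt_B)

noncomputable def cut_B00mm_101_s3 : Cut := Cut.of [[⟨3, 0, 0, 2845415833⟩]]

noncomputable def f_B00mm_101_s3 : ℕ → ℕ → ℕ → ℕ → Bool := onCell 536870912 536870912 536870912 536870912 587336777 62277027
    (rowF 0 false false false .npn 1 0 1 (qsf 536870912 536870912 536870912 536870912 0) ndB0q1 ndB0q1 pcB0 cut_B00mm_101_s3 Ext.none)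

def k0_B00mm_101_s3 : ∃ t, chk3 f_B00mm_101_s3 t 1 1 1 = true :=
  ⟨(l 3), by decide +kernel⟩

theorem c_B00mm_101_s3 : CertF 536870912 536870912 536870912 536870912 587336777 62277027 false false false .npn 1 0 1
    ndB0q1 ndB0q1 pcB0 cut_B00mm_101_s3 Ext.none :=
  certF0 (fam := false) (s1 := false) (s2 := false) (a := 1) (b := 0) (c := 1) (cn := .npn) (n1 := ndB0q1) (n2 := ndB0q1) (pc := pcB0) (cut := cut_B00mm_101_s3) (xt := Ext.none) (P1 := 536870912) (W1 := 536870912) (P2 := 536870912) (W2 := 536870912) (P3 := 587336777) (W3 := 62277027)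
    rfl k0_B00mm_101_s3

theorem s_B00mm_101_s3 {κ x : ℝ} (hκ : κ * h0 = ken x) (hx : ((587336777 : ℕ) : ℝ) / S ≤ x)
    (hx' : x ≤ (((587336777 : ℕ) : ℝ) + (62277027 : ℕ)) / S) :
    AltB (VFD κ) PP tK tL pcB [⟨4, 0, 0, 2845415833⟩] 1 0 1 0 0 (sgb false) (sgb false) x :=
  strip_altBD (m := 2845415833) false rfl hκ (SH.κ0 hκ (SH.hx1 hx).le (SH.hx2 hx').le) (SH.hx1 hx).le (SH.hx2 hx') (covB01).cov (covB01).cov hx hx' c_B00mm_101_s3 cutB_nil (noExt_B)

noncomputable def cut_B00mm_102_s1 : Cut := Cut.of [[⟨4, 0, 0, 1449551462⟩]]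

noncomputable def f_B00mm_102_s1 : ℕ → ℕ → ℕ → ℕ → Bool := onCell 536870912 536870912 0 536870912 587336777 62277027
    (rowF 0 false false false .npp 1 0 2 (qsf 536870912 536870912 0 536870912 0) ndB0q1 ndB0q2 pcB0 cut_B00mm_102_s1 Ext.none)

def k0_B00mm_102_s1 : ∃ t, chk3 f_B00mm_102_s1 t 1 1 1 = true :=
  ⟨(a (l 5) (l 3)), by decide +kernel⟩

theorem c_B00mm_102_s1 : CertF 536870912 536870912 0 536870912 587336777 62277027 false false false .npp 1 0 2
    ndB0q1 ndB0q2 pcB0 cut_B00mm_102_s1 Ext.none :=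
  certF0 (fam := false) (s1 := false) (s2 := false) (a := 1) (b := 0) (c := 2) (cn := .npp) (n1 := ndB0q1) (n2 := ndB0q2) (pc := pcB0) (cut := cut_B00mm_102_s1) (xt := Ext.none) (P1 := 536870912) (W1 := 536870912) (P2 := 0) (W2 := 536870912) (P3 := 587336777) (W3 := 62277027)
    rfl k0_B00mm_102_s1

theorem s_B00mm_102_s1 {κ x : ℝ} (hκ : κ * h0 = ken x) (hx : ((587336777 : ℕ) : ℝ) / S ≤ x)
    (hx' : x ≤ (((587336777 : ℕ) : ℝ) + (62277027 : ℕ)) / S) :
    AltB (VFD κ) PP tK tL pcB [⟨3, 0, 0, 1449551462⟩] 1 0 2 0 0 (sgb false) (sgb false) x :=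
  strip_altBD (m := 1449551462) true rfl hκ (SH.κ0 hκ (SH.hx1 hx).le (SH.hx2 hx').le) (SH.hx1 hx).le (SH.hx2 hx') (covB01).cov (covB02).cov hx hx' c_B00mm_102_s1 cutB_nil (noExt_B)

noncomputable def cut_B00mm_102_s3 : Cut := Cut.of [[⟨3, 0, 0, 2845415833⟩]]

noncomputable def f_B00mm_102_s3 : ℕ → ℕ → ℕ → ℕ → Bool := onCell 536870912 536870912 0 536870912 587336777 62277027
    (rowF 0 false false false .npp 1 0 2 (qsf 536870912 536870912 0 536870912 0) ndB0q1 ndB0q2 pcB0 cut_B00mm_102_s3 Ext.none)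

def k0_B00mm_102_s3 : ∃ t, chk3 f_B00mm_102_s3 t 1 1 1 = true :=
  ⟨(l 6), by decide +kernel⟩

theorem c_B00mm_102_s3 : CertF 536870912 536870912 0 536870912 587336777 62277027 false false false .npp 1 0 2
    ndB0q1 ndB0q2 pcB0 cut_B00mm_102_s3 Ext.none :=
  certF0 (fam := false) (s1 := false) (s2 := false) (a := 1) (b := 0) (c := 2) (cn := .npp) (n1 := ndB0q1) (n2 := ndB0q2) (pc := pcB0) (cut := cut_B00mm_102_s3) (xt := Ext.none) (P1 := 536870912) (W1 := 536870912) (P2 := 0) (W2 := 536870912) (P3 := 587336777) (W3 := 62277027)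
    rfl k0_B00mm_102_s3

theorem s_B00mm_102_s3 {κ x : ℝ} (hκ : κ * h0 = ken x) (hx : ((587336777 : ℕ) : ℝ) / S ≤ x)
    (hx' : x ≤ (((587336777 : ℕ) : ℝ) + (62277027 : ℕ)) / S) :
    AltB (VFD κ) PP tK tL pcB [⟨4, 0, 0, 2845415833⟩] 1 0 2 0 0 (sgb false) (sgb false) x :=
  strip_altBD (m := 2845415833) false rfl hκ (SH.κ0 hκ (SH.hx1 hx).le (SH.hx2 hx').le) (SH.hx1 hx).le (SH.hx2 hx') (covB01).cov (covB02).cov hx hx' c_B00mm_102_s3 cutB_nil (noExt_B)

noncomputable def cut_B00mm_112_s1 : Cut := Cut.of [[⟨4, 0, 0, 1449551462⟩]]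

noncomputable def f_B00mm_112_s1 : ℕ → ℕ → ℕ → ℕ → Bool := onCell 536870912 536870912 0 536870912 587336777 62277027
    (rowF 2 false false false .dn 1 1 2 (qsf 536870912 536870912 0 536870912 1) ndB0q1 ndB0q2 pcB1 cut_B00mm_112_s1 Ext.none)

def k0_B00mm_112_s1 : ∃ t, chk3 f_B00mm_112_s1 t 1 1 1 = true :=
  ⟨(l 5), by decide +kernel⟩

theorem c_B00mm_112_s1 : CertF 536870912 536870912 0 536870912 587336777 62277027 false false false .dn 1 1 2
    ndB0q1 ndB0q2 pcB1 cut_B00mm_112_s1 Ext.none :=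
  certF2 (fam := false) (s1 := false) (s2 := false) (a := 1) (b := 1) (c := 2) (cn := .dn) (n1 := ndB0q1) (n2 := ndB0q2) (pc := pcB1) (cut := cut_B00mm_112_s1) (xt := Ext.none) (P1 := 536870912) (W1 := 536870912) (P2 := 0) (W2 := 536870912) (P3 := 587336777) (W3 := 62277027)
    rfl (fun _ => rfl) k0_B00mm_112_s1

theorem s_B00mm_112_s1 {κ x : ℝ} (hκ : κ * h0 = ken x) (hx : ((587336777 : ℕ) : ℝ) / S ≤ x)
    (hx' : x ≤ (((587336777 : ℕ) : ℝ) + (62277027 : ℕ)) / S) :
    AltB (VFD κ) PP tK tL pcB [⟨3, 0, 0, 1449551462⟩] 1 1 2 0 0 (sgb false) (sgb false) x :=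
  strip_altBD (m := 1449551462) true rfl hκ (SH.κ0 hκ (SH.hx1 hx).le (SH.hx2 hx').le) (SH.hx1 hx).le (SH.hx2 hx') (covB01).cov (covB02).cov hx hx' c_B00mm_112_s1 cutB_nil (noExt_B)

noncomputable def cut_B00mm_112_s3 : Cut := Cut.of [[⟨3, 0, 0, 2845415833⟩]]

noncomputable def f_B00mm_112_s3 : ℕ → ℕ → ℕ → ℕ → Bool := onCell 536870912 536870912 0 536870912 587336777 62277027
    (rowF 0 false false false .dn 1 1 2 (qsf 536870912 536870912 0 536870912 1) ndB0q1 ndB0q2 pcB1 cut_B00mm_112_s3 Ext.none)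

def k0_B00mm_112_s3 : ∃ t, chk3 f_B00mm_112_s3 t 1 1 1 = true :=
  ⟨(l 6), by decide +kernel⟩

theorem c_B00mm_112_s3 : CertF 536870912 536870912 0 536870912 587336777 62277027 false false false .dn 1 1 2
    ndB0q1 ndB0q2 pcB1 cut_B00mm_112_s3 Ext.none :=
  certF0 (fam := false) (s1 := false) (s2 := false) (a := 1) (b := 1) (c := 2) (cn := .dn) (n1 := ndB0q1) (n2 := ndB0q2) (pc := pcB1) (cut := cut_B00mm_112_s3) (xt := Ext.none) (P1 := 536870912) (W1 := 536870912) (P2 := 0) (W2 := 536870912) (P3 := 587336777) (W3 := 62277027)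
    rfl k0_B00mm_112_s3

theorem s_B00mm_112_s3 {κ x : ℝ} (hκ : κ * h0 = ken x) (hx : ((587336777 : ℕ) : ℝ) / S ≤ x)
    (hx' : x ≤ (((587336777 : ℕ) : ℝ) + (62277027 : ℕ)) / S) :
    AltB (VFD κ) PP tK tL pcB [⟨4, 0, 0, 2845415833⟩] 1 1 2 0 0 (sgb false) (sgb false) x :=
  strip_altBD (m := 2845415833) false rfl hκ (SH.κ0 hκ (SH.hx1 hx).le (SH.hx2 hx').le) (SH.hx1 hx).le (SH.hx2 hx') (covB01).cov (covB02).cov hx hx' c_B00mm_112_s3 cutB_nil (noExt_B)

noncomputable def cut_B00mm_202_s1 : Cut := Cut.of [[⟨4, 0, 0, 1449551462⟩]]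

noncomputable def f_B00mm_202_s1 : ℕ → ℕ → ℕ → ℕ → Bool := onCell 0 536870912 0 536870912 587336777 62277027
    (rowF 0 false false false .pp 2 0 2 (qsf 0 536870912 0 536870912 0) ndB0q2 ndB0q2 pcB0 cut_B00mm_202_s1 Ext.none)

def k0_B00mm_202_s1 : ∃ t, chk3 f_B00mm_202_s1 t 1 1 1 = true :=
  ⟨(l 3), by decide +kernel⟩

theorem c_B00mm_202_s1 : CertF 0 536870912 0 536870912 587336777 62277027 false false false .pp 2 0 2
    ndB0q2 ndB0q2 pcB0 cut_B00mm_202_s1 Ext.none :=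
  certF0 (fam := false) (s1 := false) (s2 := false) (a := 2) (b := 0) (c := 2) (cn := .pp) (n1 := ndB0q2) (n2 := ndB0q2) (pc := pcB0) (cut := cut_B00mm_202_s1) (xt := Ext.none) (P1 := 0) (W1 := 536870912) (P2 := 0) (W2 := 536870912) (P3 := 587336777) (W3 := 62277027)
    rfl k0_B00mm_202_s1

theorem s_B00mm_202_s1 {κ x : ℝ} (hκ : κ * h0 = ken x) (hx : ((587336777 : ℕ) : ℝ) / S ≤ x)
    (hx' : x ≤ (((587336777 : ℕ) : ℝ) + (62277027 : ℕ)) / S) :
    AltB (VFD κ) PP tK tL pcB [⟨3, 0, 0, 1449551462⟩] 2 0 2 0 0 (sgb false) (sgb false) x :=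
  strip_altBD (m := 1449551462) true rfl hκ (SH.κ0 hκ (SH.hx1 hx).le (SH.hx2 hx').le) (SH.hx1 hx).le (SH.hx2 hx') (covB02).cov (covB02).cov hx hx' c_B00mm_202_s1 cutB_nil (noExt_B)

noncomputable def cut_B00mm_202_s3 : Cut := Cut.of [[⟨3, 0, 0, 2845415833⟩]]

noncomputable def f_B00mm_202_s3 : ℕ → ℕ → ℕ → ℕ → Bool := onCell 0 536870912 0 536870912 587336777 62277027
    (rowF 0 false false false .pp 2 0 2 (qsf 0 536870912 0 536870912 0) ndB0q2 ndB0q2 pcB0 cut_B00mm_202_s3 Ext.none)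

def k0_B00mm_202_s3 : ∃ t, chk3 f_B00mm_202_s3 t 1 1 1 = true :=
  ⟨(l 3), by decide +kernel⟩

theorem c_B00mm_202_s3 : CertF 0 536870912 0 536870912 587336777 62277027 false false false .pp 2 0 2
    ndB0q2 ndB0q2 pcB0 cut_B00mm_202_s3 Ext.none :=
  certF0 (fam := false) (s1 := false) (s2 := false) (a := 2) (b := 0) (c := 2) (cn := .pp) (n1 := ndB0q2) (n2 := ndB0q2) (pc := pcB0) (cut := cut_B00mm_202_s3) (xt := Ext.none) (P1 := 0) (W1 := 536870912) (P2 := 0) (W2 := 536870912) (P3 := 587336777) (W3 := 62277027)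
    rfl k0_B00mm_202_s3

theorem s_B00mm_202_s3 {κ x : ℝ} (hκ : κ * h0 = ken x) (hx : ((587336777 : ℕ) : ℝ) / S ≤ x)
    (hx' : x ≤ (((587336777 : ℕ) : ℝ) + (62277027 : ℕ)) / S) :
    AltB (VFD κ) PP tK tL pcB [⟨4, 0, 0, 2845415833⟩] 2 0 2 0 0 (sgb false) (sgb false) x :=
  strip_altBD (m := 2845415833) false rfl hκ (SH.κ0 hκ (SH.hx1 hx).le (SH.hx2 hx').le) (SH.hx1 hx).le (SH.hx2 hx') (covB02).cov (covB02).cov hx hx' c_B00mm_202_s3 cutB_nil (noExt_B)

noncomputable def cut_B07pp_001_s1 : Cut := Cut.of [[⟨4, 0, 0, 1449551462⟩]]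

noncomputable def f_B07pp_001_s1 : ℕ → ℕ → ℕ → ℕ → Bool := onCell 0 536870912 0 536870912 587336777 62277027
    (rowF 1 false true true .up 0 0 1 (qsf 0 536870912 536870912 536870912 0) ndB0q0 ndB7q1 pcB0 cut_B07pp_001_s1 Ext.none)

def k0_B07pp_001_s1 : ∃ t, chk3 f_B07pp_001_s1 t 1 1 1 = true :=
  ⟨(l 3), by decide +kernel⟩

theorem c_B07pp_001_s1 : CertF 0 536870912 536870912 536870912 587336777 62277027 false true true .up 0 0 1
    ndB0q0 ndB7q1 pcB0 cut_B07pp_001_s1 Ext.none :=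
  certF1 (fam := false) (s1 := true) (s2 := true) (a := 0) (b := 0) (c := 1) (cn := .up) (n1 := ndB0q0) (n2 := ndB7q1) (pc := pcB0) (cut := cut_B07pp_001_s1) (xt := Ext.none) (P1 := 0) (W1 := 536870912) (P2 := 536870912) (W2 := 536870912) (P3 := 587336777) (W3 := 62277027)
    rfl (fun _ => rfl) k0_B07pp_001_s1

theorem s_B07pp_001_s1 {κ x : ℝ} (hκ : κ * h0 = ken x) (hx : ((587336777 : ℕ) : ℝ) / S ≤ x)
    (hx' : x ≤ (((587336777 : ℕ) : ℝ) + (62277027 : ℕ)) / S) :
    AltB (VFD κ) PP tK tL pcB [⟨3, 0, 0, 1449551462⟩] 0 0 1 0 7 (sgb true) (sgb true) x :=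
  strip_altBD (m := 1449551462) true rfl hκ (SH.κ0 hκ (SH.hx1 hx).le (SH.hx2 hx').le) (SH.hx1 hx).le (SH.hx2 hx') (covB00).cov (covB71).cov hx hx' c_B07pp_001_s1 cutB_nil (noExt_B)

noncomputable def cut_B07pp_011_s1 : Cut := Cut.of [[⟨4, 0, 0, 1449551462⟩], [⟨0, 0, 0, 67108864⟩, ⟨1, 1, 0, 67108864⟩, ⟨2, 1, 0, 67108864⟩]]

noncomputable def f_B07pp_011_s1 : ℕ → ℕ → ℕ → ℕ → Bool := onCell 0 536870912 536870912 536870912 587336777 62277027
    (rowF 1 false true true .pnn 0 1 1 (qsf 0 536870912 536870912 536870912 1) ndB0q0 ndB7q1 pcB1 cut_B07pp_011_s1 Ext.none)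

def k0_B07pp_011_s1 : ∃ t, chk3 f_B07pp_011_s1 t 1 1 1 = true :=
  ⟨(b (l 3) (a (b (l 3) (a (b (l 3) (a (b (l 3) (a (l 14) (l 3))) (l 3))) (l 3))) (l 3))), by decide +kernel⟩

theorem c_B07pp_011_s1 : CertF 0 536870912 536870912 536870912 587336777 62277027 false true true .pnn 0 1 1
    ndB0q0 ndB7q1 pcB1 cut_B07pp_011_s1 Ext.none :=
  certF1 (fam := false) (s1 := true) (s2 := true) (a := 0) (b := 1) (c := 1) (cn := .pnn) (n1 := ndB0q0) (n2 := ndB7q1) (pc := pcB1) (cut := cut_B07pp_011_s1) (xt := Ext.none) (P1 := 0) (W1 := 536870912) (P2 := 536870912) (W2 := 536870912) (P3 := 587336777) (W3 := 62277027)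
    rfl (fun _ => rfl) k0_B07pp_011_s1

theorem s_B07pp_011_s1 {κ x : ℝ} (hκ : κ * h0 = ken x) (hx : ((587336777 : ℕ) : ℝ) / S ≤ x)
    (hx' : x ≤ (((587336777 : ℕ) : ℝ) + (62277027 : ℕ)) / S)
    (H : CutB (VFD κ) PP tK tL pcB (Cut.of [[⟨0, 0, 0, 67108864⟩, ⟨1, 1, 0, 67108864⟩, ⟨2, 1, 0, 67108864⟩]]) 0 1 1 0 7 (sgb true) (sgb true) x) :
    AltB (VFD κ) PP tK tL pcB [⟨3, 0, 0, 1449551462⟩] 0 1 1 0 7 (sgb true) (sgb true) x :=
  strip_altBD (m := 1449551462) true rfl hκ (SH.κ0 hκ (SH.hx1 hx).le (SH.hx2 hx').le) (SH.hx1 hx).le (SH.hx2 hx') (covB00).cov (covB71).cov hx hx' c_B07pp_011_s1 H (noExt_B)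

noncomputable def cut_B07pp_012_s1 : Cut := Cut.of [[⟨4, 0, 0, 1449551462⟩], [⟨0, 0, 0, 67108864⟩, ⟨1, 1, 0, 67108864⟩, ⟨2, 1, 0, 67108864⟩]]

noncomputable def f_B07pp_012_s1 : ℕ → ℕ → ℕ → ℕ → Bool := onCell 0 536870912 536870912 536870912 587336777 62277027
    (rowF 1 false true true .pnp 0 1 2 (qsf 0 536870912 1073741824 536870912 1) ndB0q0 ndB7q2 pcB1 cut_B07pp_012_s1 Ext.none)

def k0_B07pp_012_s1 : ∃ t, chk3 f_B07pp_012_s1 t 1 1 1 = true :=
  ⟨(b (l 3) (a (a (a (a (b (l 1) (b (l 1) (b (l 3) (l 14)))) (l 3)) (l 3)) (l 3)) (l 3))), by decide +kernel⟩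

theorem c_B07pp_012_s1 : CertF 0 536870912 1073741824 536870912 587336777 62277027 false true true .pnp 0 1 2
    ndB0q0 ndB7q2 pcB1 cut_B07pp_012_s1 Ext.none :=
  certF1 (fam := false) (s1 := true) (s2 := true) (a := 0) (b := 1) (c := 2) (cn := .pnp) (n1 := ndB0q0) (n2 := ndB7q2) (pc := pcB1) (cut := cut_B07pp_012_s1) (xt := Ext.none) (P1 := 0) (W1 := 536870912) (P2 := 1073741824) (W2 := 536870912) (P3 := 587336777) (W3 := 62277027)
    rfl (fun _ => rfl) k0_B07pp_012_s1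

theorem s_B07pp_012_s1 {κ x : ℝ} (hκ : κ * h0 = ken x) (hx : ((587336777 : ℕ) : ℝ) / S ≤ x)
    (hx' : x ≤ (((587336777 : ℕ) : ℝ) + (62277027 : ℕ)) / S)
    (H : CutB (VFD κ) PP tK tL pcB (Cut.of [[⟨0, 0, 0, 67108864⟩, ⟨1, 1, 0, 67108864⟩, ⟨2, 1, 0, 67108864⟩]]) 0 1 2 0 7 (sgb true) (sgb true) x) :
    AltB (VFD κ) PP tK tL pcB [⟨3, 0, 0, 1449551462⟩] 0 1 2 0 7 (sgb true) (sgb true) x :=
  strip_altBD (m := 1449551462) true rfl hκ (SH.κ0 hκ (SH.hx1 hx).le (SH.hx2 hx').le) (SH.hx1 hx).le (SH.hx2 hx') (covB00).cov (covB72).cov hx hx' c_B07pp_012_s1 H (noExt_B)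

noncomputable def cut_B07pp_022_s1 : Cut := Cut.of [[⟨4, 0, 0, 1449551462⟩], [⟨0, 0, 0, 67108864⟩, ⟨1, 1, 0, 67108864⟩, ⟨2, 1, 0, 67108864⟩]]

noncomputable def xt_B07pp_022_s1 : Ext := strExt0 dd false true true .u0 .s2 .u2 .pp 0 2 2 rfl rfl gf2 vv ww kz ndB0q0 ndB7q2

noncomputable def f_B07pp_022_s1 : ℕ → ℕ → ℕ → ℕ → Bool := onCell 0 536870912 1073741824 536870912 587336777 62277027
    (rowF 1 false true true .pp 0 2 2 (qsf 0 536870912 1073741824 536870912 2) ndB0q0 ndB7q2 pcB2 cut_B07pp_022_s1 xt_B07pp_022_s1)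

def k0_B07pp_022_s1 : ∃ t, chk3 f_B07pp_022_s1 t 16 16 1 = true :=
  ⟨(b (l 14) (a (l 14) (b (l 14) (a (l 14) (b (l 14) (a (l 14) (l 16745520))))))), by decide +kernel⟩

def k1_B07pp_022_s1 : ∃ t, chk3 f_B07pp_022_s1 t 17 16 1 = true :=
  ⟨(b (a (a (l 14) (l 3)) (l 3)) (a (b (a (a (l 14) (b (l 14) (b (l 14) (b (l 14) (l 16769344))))) (a (b (b (l 3) (l 1048164479)) (b (a (a (l 14) (l 1048272511)) (l 1048265855)) (b (a (b (a (l 14) (l 16772704)) (c (l 16773832) (l 16773784))) (b (l 1048327807) (a (l 16772648) (l 16773640)))) (a (l 16769632) (a (l 16773712) (b (l 16772584) (l 16771536))))))) (b (l 3) (l 1048287359)))) (b (a (a (b (l 14) (l 16755648)) (b (a (l 16762648) (l 16764592)) (l 16764704))) (b (a (a (l 16769152) (l 16771088)) (b (a (a (l 16773584) (b (l 16772448) (l 16771400))) (l 1048451199)) (a (l 16771992) (a (l 16773448) (b (l 16772312) (l 16771264)))))) (a (a (l 16762392) (l 16764336)) (b (l 16770896) (l 16766200))))) (a (a (l 16749472)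 (c (l 16758600) (l 16758544))) (a (a (l 16761408) (l 16763328)) (c (a (l 16765320) (l 16767248)) (l 16766216)))))) (b (a (b (l 3) (a (l 1048286847) (l 3))) (l 3)) (a (b (a (a (b (l 1048479871) (b (a (l 16773304) (b (l 16772168) (l 16771120))) (l 16771720))) (b (l 1048477311) (b (l 1048579199) (a (l 16773160) (b (l 16772024) (l 16770976)))))) (l 1048524415)) (b (b (a (a (l 16767024) (l 16771576)) (a (a (l 16773008) (b (l 16771872) (l 16770824))) (l 1048724607))) (a (l 16765912) (a (l 16771424) (a (l 16772856) (b (l 16771712) (l 16770672)))))) (b (b (a (l 16764352) (a (l 16767240) (l 16769168))) (a (l 16763320) (l 16767168))) (a (l 16761760) (l 16770848))))) (b (a (l 1048519807) (l 3)) (b (l 1048704127) (a (a (b (a (l 16772704) (b (l 16771552) (l 16770512))) (l 16771096)) (b (l 1048885887) (b (a (l 16770424) (l 16771376)) (l 16772472)))) (l 1048870527)))))))), by decide +kernel⟩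

def k2_B07pp_022_s1 : ∃ t, chk3 f_B07pp_022_s1 t 8 17 1 = true :=
  ⟨(a (b (a (a (l 14) (b (l 14) (l 16698184))) (b (a (l 16733488) (a (l 16729096) (l 16743592))) (a (l 16706464) (l 16714536)))) (a (a (l 16686040) (l 16694472)) (a (l 16702664) (l 16710648)))) (b (a (b (a (b (l 16748384) (l 16734864)) (b (a (l 16754120) (c (l 16757936) (l 16757832))) (l 16747704))) (a (l 16732888) (b (l 16734192) (l 16725912)))) (b (b (a (a (a (l 16760744) (l 16762688)) (b (l 16762440) (l 16758208))) (b (a (a (l 16765320) (b (l 16770912) (l 16766168))) (b (a (a (l 16772328) (a (l 16773040) (l 16770896))) (l 1048893567)) (a (l 16770704) (a (l 16772120) (l 16773064))))) (a (l 16767272) (b (a (l 16765952) (l 16770480)) (l 16764776))))) (a (a (l 16753352) (c (l 16757168) (l 16757008))) (a (c (l 16760984) (l 16755608)) (b (l 16766840) (l 16757376))))) (a (a (l 16746152) (b (l 16743552) (l 16735248))) (b (a (l 16752512) (l 16756264)) (c (l 16746144) (l 16751232))))))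 (a (b (a (l 16705776) (l 16723912)) (l 16713944)) (b (a (l 16731432) (l 16738840)) (a (l 16704232) (l 16722096)))))), by decide +kernel⟩

def k3_B07pp_022_s1 : ∃ t, chk3 f_B07pp_022_s1 t 9 16 1 = true :=
  ⟨(a (b (l 3) (b (l 3) (a (b (l 3) (a (b (l 3) (l 1049336447)) (l 3))) (l 3)))) (l 3)), by decide +kernel⟩

def k4_B07pp_022_s1 : ∃ t, chk3 f_B07pp_022_s1 t 18 34 1 = true :=
  ⟨(b (a (b (a (b (l 1048826495) (a (b (a (a (l 16771896) (l 16772832)) (l 1048800383)) (a (l 16767640) (a (l 16769048) (l 16769984)))) (l 1048757375))) (l 1049311359)) (a (b (b (a (l 16769088) (a (l 16771896) (l 16773800))) (a (l 16764328) (a (l 16767168) (l 16771656)))) (a (l 16766400) (a (l 16763984) (l 16768496)))) (b (l 1048633471) (a (b (a (l 16771416) (l 16773312)) (a (l 16766688) (c (l 16771216) (l 16768496)))) (l 1048609407))))) (b (l 3) (a (l 1051266175) (l 3)))) (a (b (a (a (l 16760056) (b (l 16765928) (l 16756456))) (b (b (a (l 16768128) (a (c (l 16770960) (l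 16768240)) (l 1048603263))) (a (l 16763376) (a (l 16766184) (c (l 16770712) (l 16767976))))) (a (l 16765448) (a (l 16763000) (l 16767496))))) (a (a (l 16751600) (l 16755360)) (a (l 16759096) (c (l 16762880) (l 16762744))))) (b (a (a (b (l 1048586879) (b (a (c (l 16770448) (l 16767720)) (l 16772280)) (a (l 16765672) (c (l 16767560) (l 16767448))))) (l 1048576639)) (l 1048530559)) (b (b (a (a (l 16767096) (a (l 16769864) (l 16771736))) (l 1048579711)) (a (a (l 16762352) (a (l 16765128) (l 16769592))) (l 1048610431))) (a (a (l 16764416) (c (b (l 16763976) (l 16761848)) (l 16768048))) (a (b (a (l 16769312) (l 16771168)) (a (l 16764568) (l 16769032))) (a (b (l 1048659583) (l 16770872)) (l 1048667263)))))))), by decide +kernel⟩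

def k5_B07pp_022_s1 : ∃ t, chk3 f_B07pp_022_s1 t 18 35 1 = true :=
  ⟨(b (a (a (b (c (l 16745184) (l 16750264)) (l 16731520)) (b (a (l 16755864) (l 16754352)) (c (l 16749368) (l 16749208)))) (b (a (b (c (l 16762072) (l 16761944)) (l 16757776)) (b (a (c (l 16767584) (l 16762240)) (b (a (l 16768744) (l 16770576)) (a (l 16763992) (l 16768448)))) (c (l 16765168) (l 16765072)))) (a (c (l 16751456) (l 16756568)) (a (l 16756920) (l 16760576))))) (a (b (c (l 16737352) (l 16737256)) (l 16728832)) (a (b (c (l 16748216) (l 16737592)) (l 16729120)) (b (c (l 16755536) (l 16744928)) (l 16741496))))), by decide +kernel⟩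

def k6_B07pp_022_s1 : ∃ t, chk3 f_B07pp_022_s1 t 19 17 1 = true :=
  ⟨(b (b (l 3) (a (b (l 3) (a (l 1048580223) (l 3))) (l 3))) (b (a (b (a (b (a (a (b (l 16772416) (l 16770272)) (l 1048732287)) (l 1048707711)) (b (a (a (l 16765528) (l 16769968)) (l 1048787071)) (a (a (l 16763400) (l 16765224)) (a (l 16769656) (l 16771472))))) (l 1048702591)) (a (a (c (l 16764288) (l 16764184)) (b (b (a (l 16764912) (l 16766712)) (l 16768944)) (l 16765736))) (a (a (b (b (l 16768528) (l 16766400)) (l 16768472)) (b (l 1048911999) (a (l 16769824) (l 16770712)))) (a (b (l 1048901247) (a (l 16771600) (l 16772512))) (l 1048969343))))) (b (l 1049114239) (l 1048887423))) (a (b (b (a (l 16759648) (a (l 16759856) (c (l 16768848) (l 16768648)))) (a (l 16760616) (l 16762640))) (a (l 16748728) (a (l 16748904) (l 16757752)))) (b (a (a (b (b (l 16773352) (c (l 16771344) (l 16771144))) (b (l 16769152) (l 16761784))) (a (b (l 1049233535) (b (l 16766560) (l 16764472))) (l 1049342079)))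 (l 1049337471)) (a (b (a (l 16758392) (b (l 16768392) (l 16760856))) (l 16760872)) (a (b (b (c (l 16766784) (l 16771792)) (c (l 16769784) (l 16769552))) (b (l 16762168) (l 16759856))) (b (l 1049316479) (b (l 16770912) (l 16768656))))))))), by decide +kernel⟩

def k7_B07pp_022_s1 : ∃ t, chk3 f_B07pp_022_s1 t 5 8 1 = true :=
  ⟨(a (b (l 3) (a (a (b (l 3) (b (l 3) (b (b (l 1049199743) (l 1049467519)) (l 1051234431)))) (l 3)) (l 3))) (l 3)), by decide +kernel⟩

def k8_B07pp_022_s1 : ∃ t, chk3 f_B07pp_022_s1 t 4 9 1 = true :=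
  ⟨(a (b (b (a (a (a (l 16632440) (l 16640736)) (l 16673696)) (a (b (l 16676360) (l 16659728)) (b (l 16712144) (l 16674432)))) (a (a (l 16603992) (l 16661720)) (a (l 16676752) (l 16670280)))) (a (b (a (l 16571424) (l 16586816)) (a (l 16538872) (l 16553768))) (b (a (l 16601528) (l 16657696)) (c (l 16617280) (l 16616760))))) (b (b (a (a (b (c (l 16726616) (l 16715976)) (l 16709672)) (b (a (l 16726696) (c (l 16733856) (l 16733600))) (l 16718360))) (b (a (b (a (l 16739840) (l 16752240)) (a (l 16725888) (l 16743336))) (a (b (c (l 16754168) (l 16759240)) (l 16750408)) (a (b (l 16759416) (l 16745192)) (b (b (l 16765240) (l 16755448)) (l 16759184))))) (a (b (c (l 16731328) (l 16730984)) (l 16733016)) (a (b (l 16741480) (l 16722200)) (b (l 16748472) (l 16739512)))))) (a (a (b (l 16671864) (l 16654984)) (b (l 16706616) (l 16668632))) (b (a (l 16720088) (a (l 16730104) (c (l 16726424) (l 16726096)))) (a (l 16681992) (l 16716000))))) (a (b (a (l 16671576)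 (l 16685128)) (a (l 16595616) (l 16651016))) (b (a (b (l 16664976) (l 16647992)) (b (l 16678056) (l 16661024))) (b (l 16679408) (l 16620408)))))), by decide +kernel⟩

def k9_B07pp_022_s1 : ∃ t, chk3 f_B07pp_022_s1 t 10 36 1 = true :=
  ⟨(a (b (a (b (a (a (b (b (c (l 16764736) (l 16764576)) (a (l 16761496) (l 16763240))) (l 16764224)) (b (l 1048598655) (b (a (l 16762744) (l 16764512)) (l 16766616)))) (b (l 1048545919) (c (a (a (l 16770416) (l 1048422527)) (l 1048397439)) (a (b (l 16767112) (l 16764816)) (l 1048175743))))) (b (a (c (l 16761528) (l 16761344)) (a (b (a (l 16761728) (l 16763480)) (l 16765584)) (a (b (l 16765248) (l 16762952)) (l 1048187007)))) (a (l 16756936) (a (l 16756928) (a (l 16764800) (b (l 16762424) (l 16760160))))))) (b (l 1049332863) (a (a (a (b (l 1048155263) (a (l 16767840) (l 16768720))) (l 1048087679)) (l 1048035967)) (l 1047925375)))) (a (a (b (l 16755424) (l 16746424)) (b (a (l 16760624) (l 16758848)) (l 16753304)))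 (b (a (a (a (l 16761456) (b (l 16765464) (l 16755656))) (b (b (l 16769232) (a (l 16760808) (l 16762552))) (l 16763504))) (b (l 1047864447) (a (a (l 16766088) (l 16767816)) (l 16770448)))) (a (c (l 16760280) (l 16760024)) (b (a (l 16762376) (b (l 16766960) (l 16759424))) (l 16764744)))))) (b (b (l 3) (a (l 1047676543) (l 3))) (a (b (l 1047603327) (a (a (b (l 16769288) (b (l 16765792) (l 16758256))) (a (b (l 16771896) (l 16767216)) (l 1047684735))) (l 1047567999))) (b (l 3) (l 1047263359))))), by decide +kernel⟩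

def k10_B07pp_022_s1 : ∃ t, chk3 f_B07pp_022_s1 t 10 37 1 = true :=
  ⟨(a (b (a (a (b (l 16726928) (l 16717992)) (b (l 16733760) (l 16724664))) (b (a (l 16751056) (l 16757856)) (c (l 16745360) (l 16745080)))) (a (b (l 16722888) (l 16703552)) (b (c (l 16736144) (l 16746336)) (l 16726864)))) (b (a (b (a (a (l 16762960) (b (a (l 16757352) (l 16764296)) (l 16753560))) (a (b (b (l 16762792) (l 16765688)) (l 16762216)) (b (l 1047613567) (b (l 16761528) (a (l 16758344) (l 16760040)))))) (a (l 16755304) (b (a (l 16752232) (l 16760864)) (l 16749160)))) (b (l 1047385727) (a (b (a (b (l 16765432) (l 16757800)) (l 16767632)) (a (l 16754192) (b (l 16764008) (l 16756360)))) (b (l 1047301247) (a (b (l 16762160) (l 16759720)) (l 16769592)))))) (b (a (a (l 16735448) (l 16752544)) (a (l 16759176) (b (a (l 16761344) (b (l 16760672) (l 16758224))) (l 16758176)))) (a (c (l 16750496) (l 16750248)) (a (l 16749696) (l 16756232)))))), by decide +kernel⟩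

def k11_B07pp_022_s1 : ∃ t, chk3 f_B07pp_022_s1 t 11 18 1 = true :=
  ⟨(b (l 3) (a (b (b (a (l 1048172671) (l 3)) (a (l 1047046783) (l 1046955135))) (a (b (a (b (l 1047049343) (a (c (l 16763264) (l 16763088)) (l 16766576))) (l 1046924415)) (a (b (a (l 16753072) (c (l 16761744) (l 16761576))) (l 16760408)) (b (a (l 16765024) (l 16768416)) (a (l 16760120) (b (l 16759448) (l 16756968)))))) (b (l 1046737535) (l 1046772863)))) (b (l 3) (b (l 3) (a (l 1047079551) (l 3)))))), by decide +kernel⟩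

def k12_B07pp_022_s1 : ∃ t, chk3 f_B07pp_022_s1 t 5 19 1 = true :=
  ⟨(a (b (a (b (a (l 16711864) (l 16724536)) (a (l 16674000) (l 16686888))) (b (a (b (l 16730968) (l 16732960)) (b (c (l 16744248) (l 16754272)) (l 16745816))) (a (l 16720576) (b (a (l 16713208) (l 16719528)) (l 16708200))))) (a (b (a (l 16657000) (l 16670128)) (a (l 16640056) (l 16653184))) (b (a (l 16683256) (l 16717120)) (a (l 16708464) (l 16721880))))) (b (a (b (a (a (b (l 16753648) (l 16734440)) (b (b (l 16756992) (l 16747256)) (l 16751192))) (b (a (b (a (l 16761840) (l 16765168)) (a (l 16751912) (l 16760304))) (b (l 1046782591) (a (l 16763488) (l 16766800)))) (a (l 16757368) (b (a (l 16753680) (l 16761984)) (l 16750808))))) (a (b (l 16749872) (l 16741496)) (b (a (l 16738056) (l 16754512)) (l 16742896)))) (b (a (a (b (l 1046693503) (b (a (l 16765232) (l 16768488)) (a (c (l 16760752) (l 16760472)) (b (l 16759632) (l 16762512))))) (b (l 1046633087) (l 1047225471))) (b (l 1046573695)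 (l 1047207551))) (a (b (a (b (a (l 16750760) (l 16758984)) (l 16747592)) (b (a (b (l 16757944) (l 16755432)) (l 16770296)) (a (l 16751864) (b (l 16761184) (l 16753536))))) (a (l 16741008) (l 16757056))) (b (a (b (l 1047407231) (a (b (l 16759072) (l 16761688)) (l 16771416))) (l 1047280767)) (a (b (a (l 16763408) (b (l 16756960) (l 16754504))) (l 16749824)) (b (a (l 16764048) (l 16767248)) (a (l 16759120) (b (l 16758024) (l 16755440))))))))) (a (b (a (b (l 16733600) (l 16746768)) (b (l 16745352) (l 16737856))) (a (l 16734960) (b (l 16730392) (l 16701904)))) (b (a (b (l 16746072) (l 16748952)) (b (a (l 16754112) (b (l 16761320) (l 16746776))) (a (l 16735952) (l 16741032)))) (a (b (l 16720952) (a (l 16711160) (l 16717032))) (b (l 16752376) (l 16745856))))))), by decide +kernel⟩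

def k13_B07pp_022_s1 : ∃ t, chk3 f_B07pp_022_s1 t 2 20 1 = true :=
  ⟨(a (b (a (a (l 16565688) (l 16593192)) (a (b (l 16576464) (l 16558768)) (b (l 16603120) (l 16585464)))) (b (a (a (l 16488352) (l 16515112)) (a (l 16540304) (l 16567000))) (b (a (a (l 16475968) (l 16502336)) (a (l 16526328) (l 16551816))) (a (a (b (l 16469792) (b (b (b (l 16467464) (b (l 16467064) (l 16466792))) (l 16466160)) (l 16464656))) (b (l 16495936) (b (b (b (l 16493512) (b (l 16493088) (l 16492784))) (l 16492128)) (l 16490568)))) (a (b (l 16519696) (a (l 16551512) (l 16520888))) (b (l 16542392) (b (l 16590368) (l 16535648)))))))) (b (a (a (b (l 16629632) (l 16612400)) (b (a (l 16691464) (l 16704936)) (a (l 16632552) (l 16687656)))) (a (b (a (l 16718504) (l 16731816)) (a (b (l 16663552) (l 16654616)) (b (l 16677288) (l 16668216)))) (b (b (a (l 16706712) (a (l 16715784) (l 16721304))) (a (l 16698896) (l 16753296))) (a (l 16728224) (l 16741360))))) (b (a (a (l 16678104)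 (a (l 16698672) (l 16712104))) (a (a (l 16683280) (b (l 16658920) (l 16649888))) (b (a (l 16672336) (l 16686008)) (a (l 16704472) (l 16717464))))) (b (a (a (l 16579248) (l 16669752)) (a (b (l 16720344) (l 16715032)) (b (l 16703376) (l 16656248)))) (a (a (b (l 16569664) (a (l 16554200) (l 16588816))) (b (l 16660224) (b (b (b (l 16592488) (b (l 16590904) (l 16589096))) (l 16588272)) (l 16586792)))) (a (b (b (l 16710520) (l 16664672)) (b (b (b (l 16619608) (b (l 16618016) (l 73077571224351147839))) (l 16615336)) (l 16613952))) (b (b (l 16693864) (l 16700568)) (b (b (b (l 16645104) (b (l 16643528) (l 73189633476230514495))) (l 16640856)) (l 16639568))))))))), by decide +kernel⟩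

def k14_B07pp_022_s1 : ∃ t, chk3 f_B07pp_022_s1 t 2 21 1 = true :=
  ⟨(a (a (a (b (a (l 16440808) (l 16538184)) (a (l 16409400) (l 16422320))) (b (a (l 16466944) (l 16478864)) (l 16439808))) (a (b (l 16495672) (l 16460408)) (l 16581312))) (a (a (a (l 16518592) (l 16533136)) (a (l 16631800) (l 16646568))) (a (b (c (l 16638712) (l 16683496)) (l 16654992)) (b (a (l 16618816) (l 16631568)) (a (l 16592920) (l 16606672)))))), by decide +kernel⟩

def k15_B07pp_022_s1 : ∃ t, chk3 f_B07pp_022_s1 t 2 11 1 = true :=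
  ⟨(a (a (a (b (a (l 16446504) (l 16374256)) (l 16304088)) (b (l 16389320) (l 16319248))) (a (a (l 16470496) (l 16516144)) (b (l 16517712) (l 16377432)))) (a (a (b (b (l 16480608) (l 16452792)) (l 16540552)) (b (a (l 16491728) (l 16592600)) (b (l 16464328) (l 16443040)))) (a (b (a (l 16609368) (l 16625744)) (b (l 16501120) (l 16482264))) (b (a (l 16641648) (l 16657072)) (b (l 16536992) (l 16522064)))))), by decide +kernel⟩

def k16_B07pp_022_s1 : ∃ t, chk3 f_B07pp_022_s1 t 2 3 1 = true :=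
  ⟨(b (a (b (b (a (a (l 16236088) (l 16253448)) (a (l 16289056) (l 16412976))) (a (a (l 16164704) (l 16200736)) (a (l 16242792) (l 16373232)))) (a (l 6) (b (a (l 16206736) (l 16260360)) (l 6)))) (b (a (a (b (l 16497624) (l 16422304)) (b (b (l 16424032) (l 16407496)) (l 16472552))) (b (a (b (l 16466424) (l 16453776)) (l 16504280)) (a (l 16439312) (l 16486248)))) (b (a (a (l 16316408) (l 16372544)) (a (l 16425592) (l 2))) (l 6)))) (l 6)), by decide +kernel⟩

def k17_B07pp_022_s1 : ∃ t, chk3 f_B07pp_022_s1 t 3 4 1 = true :=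
  ⟨(b (l 3) (a (a (b (l 3) (b (a (b (b (l 3) (c (l 1047962239) (l 1047570559))) (b (a (l 1047325311) (l 3)) (l 1047407231))) (l 3)) (a (b (a (b (a (b (a (l 16760016) (l 16762912)) (a (l 16750472) (l 16758208))) (b (l 1046667391) (a (b (l 16756808) (l 16754368)) (l 16769064)))) (a (l 16756384) (b (a (l 16751328) (l 16758984)) (l 16748704)))) (b (l 1046687871) (a (b (a (l 16761648) (l 16769896)) (a (l 16752064) (l 16759688))) (b (l 1046659199) (a (l 16762384) (l 16770632)))))) (a (b (b (l 16753328) (l 16739464)) (l 16755616)) (b (a (b (l 16749536) (l 16746184)) (b (b (l 16760192) (l 16763384)) (l 16750336))) (a (l 16741408) (l 16745608))))) (b (b (a (l 1046777471) (l 3)) (a (b (l 1046732927) (l 1046763135)) (c (l 1046934143) (l 1046916223)))) (a (b (a (b (a (l 16768296) (l 16766000)) (b (l 16760824) (l 16758784))) (b (l 1046875775) (a (l 16768912) (l 16766544)))) (a (b (l 16751072) (l 16748056)) (b (a (l 16759224) (b (l 16757384) (l 16755064)))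 (l 16751728)))) (b (c (l 1047151743) (l 1047022207)) (a (b (l 1047288959) (a (l 16759736) (b (l 16757824) (l 16755512)))) (l 1047493247)))))))) (b (l 3) (b (l 3) (b (l 3) (a (b (b (l 1047311487) (l 1047375999)) (l 1048271487)) (l 3)))))) (l 3))), by decide +kernel⟩

def k18_B07pp_022_s1 : ∃ t, chk3 f_B07pp_022_s1 t 6 40 1 = true :=
  ⟨(a (a (b (a (b (l 16749544) (a (l 16720112) (l 16725256))) (b (l 16753304) (l 16753000))) (b (a (l 16757744) (a (l 16724336) (l 16729248))) (a (l 16707968) (l 16761800)))) (b (a (a (b (l 16743736) (l 16738360)) (b (l 16757992) (l 16763240))) (b (a (b (l 16762840) (l 16749664)) (b (a (b (l 16755696) (l 16754040)) (b (l 16758160) (l 16755872))) (l 16752904))) (a (l 16756400) (l 16759784)))) (b (a (l 16756712) (a (l 16741752) (l 16745456))) (a (b (l 16732136) (l 16729080)) (l 16760224))))) (b (a (b (b (l 1048086655) (a (a (a (l 16760544) (a (l 16761960) (l 16768328))) (b (l 16767528) (l 16770216))) (l 1048495743)))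 (a (b (a (l 16753432) (b (a (l 16756280) (l 16758480)) (l 16760912))) (a (l 16751352) (l 16754200))) (b (a (b (l 16767496) (l 16770216)) (l 1048827007)) (a (b (a (l 16756544) (l 16758544)) (l 16756504)) (b (l 16767392) (l 16765424)))))) (b (a (l 1048718463) (l 3)) (a (b (l 1049105023) (b (l 1049369727) (l 1050193023))) (b (a (l 1049437311) (l 3)) (a (b (l 1049689727) (l 1050672255)) (b (l 1050012799) (l 1051038335))))))) (a (b (a (b (l 16751328) (l 16770632)) (a (l 16755032) (b (a (l 16757560) (l 16764352)) (l 16757064)))) (a (l 16757280) (b (l 16764704) (l 16752496)))) (b (a (b (a (b (l 16773296) (l 16766384)) (l 1051737215)) (a (b (l 16765176) (l 16759240)) (b (l 16763472) (l 16767288)))) (a (b (a (l 1052043391) (l 1052279423)) (l 1053821055)) (b (l 1052623487) (l 2)))) (a (b (a (l 16758360) (a (l 16760184) (l 16761320))) (l 16768728)) (a (b (a (l 16767960) (l 16769536)) (l 16761776)) (l 2))))))), by decide +kernel⟩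

def k19_B07pp_022_s1 : ∃ t, chk3 f_B07pp_022_s1 t 6 41 1 = true :=
  ⟨(b (a (a (a (b (l 16699104) (l 16688888)) (b (l 16711576) (l 16701800))) (b (a (l 16765144) (b (l 16735496) (l 16732240))) (a (l 16714064) (l 16725640)))) (a (b (a (b (l 16743576) (l 16741416)) (l 16770816)) (a (b (l 16738368) (l 16734176)) (b (l 16746760) (l 16743704)))) (b (a (b (l 16777720) (l 16755504)) (b (l 41976584503) (l 2))) (a (l 16773656) (l 2))))) (a (a (b (b (a (l 16679920) (l 16693016)) (a (l 16673680) (l 16727664))) (b (a (l 16709000) (b (l 16679968) (l 16676120))) (b (b (b (l 16667968) (b (l 16666448) (l 73290401541968234303))) (l 16663800)) (l 16662608)))) (b (a (b (l 16705632) (l 16698448)) (b (l 16717616) (l 16710728))) (b (a (b (l 16691664) (l 16686496)) (b (l 16704104) (l 16697608))) (b (b (b (a (l 16683080) (l 16692632)) (b (l 16686232) (l 73377236593036887871))) (l 16683592)) (l 16682504))))) (a (a (b (b (l 16728864) (l 16722328)) (b (b (l 16715976)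 (l 16793440)) (b (b (b (l 16703792) (b (l 16700632) (l 73433320496096741183))) (l 16696416)) (l 16695512)))) (b (b (l 16739248) (l 16733160)) (b (b (l 16727128) (l 16762904)) (b (b (b (l 16715360) (b (l 16712080) (l 16729352))) (l 16706960)) (l 16706256))))) (a (b (b (l 16769120) (l 16743064)) (b (b (l 16737392) (l 16773464)) (b (b (b (l 16726128) (b (l 16722936) (l 16740288))) (l 16717936)) (l 16717256)))) (l 2))))), by decide +kernel⟩

def k20_B07pp_022_s1 : ∃ t, chk3 f_B07pp_022_s1 t 6 21 1 = true :=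
  ⟨(a (a (b (a (l 16643624) (l 16654936)) (a (l 16619744) (l 16632072))) (a (b (l 16665448) (l 16644224)) (b (l 16675512) (l 16657168)))) (a (a (b (l 16728344) (l 16670592)) (b (l 16698136) (l 16683192))) (a (b (l 16709304) (l 2)) (l 2)))), by decide +kernel⟩

def k21_B07pp_022_s1 : ∃ t, chk3 f_B07pp_022_s1 t 7 10 1 = true :=
  ⟨(b (b (b (b (l 3) (l 2)) (l 2)) (l 2)) (l 2)), by decide +kernel⟩

def k22_B07pp_022_s1 : ∃ t, chk3 f_B07pp_022_s1 t 3 11 1 = true :=
  ⟨(a (b (a (a (b (l 16689040) (l 16587928)) (b (l 16718440) (l 16620552))) (b (a (l 16746544) (l 2)) (l 2))) (a (a (l 16650976) (b (l 16608088) (l 2))) (l 2))) (l 2)), by decide +kernel⟩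

def k23_B07pp_022_s1 : ∃ t, chk3 f_B07pp_022_s1 t 3 3 1 = true :=
  ⟨(a (b (b (a (b (a (l 16544720) (l 2)) (l 2)) (l 2)) (l 2)) (l 2)) (l 2)), by decide +kernel⟩

theorem t24_B07pp_022_s1 : ∃ t, chk3 f_B07pp_022_s1 t 6 20 1 = true := ex3_b k18_B07pp_022_s1 k19_B07pp_022_s1

theorem t25_B07pp_022_s1 : ∃ t, chk3 f_B07pp_022_s1 t 6 10 1 = true := ex3_b t24_B07pp_022_s1 k20_B07pp_022_s1

theorem t26_B07pp_022_s1 : ∃ t, chk3 f_B07pp_022_s1 t 3 10 1 = true := ex3_a t25_B07pp_022_s1 k21_B07pp_022_s1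

theorem t27_B07pp_022_s1 : ∃ t, chk3 f_B07pp_022_s1 t 3 5 1 = true := ex3_b t26_B07pp_022_s1 k22_B07pp_022_s1

theorem t28_B07pp_022_s1 : ∃ t, chk3 f_B07pp_022_s1 t 3 2 1 = true := ex3_b k17_B07pp_022_s1 t27_B07pp_022_s1

theorem t29_B07pp_022_s1 : ∃ t, chk3 f_B07pp_022_s1 t 3 1 1 = true := ex3_b t28_B07pp_022_s1 k23_B07pp_022_s1

theorem t30_B07pp_022_s1 : ∃ t, chk3 f_B07pp_022_s1 t 2 10 1 = true := ex3_b k13_B07pp_022_s1 k14_B07pp_022_s1

theorem t31_B07pp_022_s1 : ∃ t, chk3 f_B07pp_022_s1 t 2 5 1 = true := ex3_b t30_B07pp_022_s1 k15_B07pp_022_s1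

theorem t32_B07pp_022_s1 : ∃ t, chk3 f_B07pp_022_s1 t 10 18 1 = true := ex3_b k9_B07pp_022_s1 k10_B07pp_022_s1

theorem t33_B07pp_022_s1 : ∃ t, chk3 f_B07pp_022_s1 t 5 18 1 = true := ex3_a t32_B07pp_022_s1 k11_B07pp_022_s1

theorem t34_B07pp_022_s1 : ∃ t, chk3 f_B07pp_022_s1 t 5 9 1 = true := ex3_b t33_B07pp_022_s1 k12_B07pp_022_s1

theorem t35_B07pp_022_s1 : ∃ t, chk3 f_B07pp_022_s1 t 2 9 1 = true := ex3_a k8_B07pp_022_s1 t34_B07pp_022_s1

theorem t36_B07pp_022_s1 : ∃ t, chk3 f_B07pp_022_s1 t 18 17 1 = true := ex3_b k4_B07pp_022_s1 k5_B07pp_022_s1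

theorem t37_B07pp_022_s1 : ∃ t, chk3 f_B07pp_022_s1 t 9 17 1 = true := ex3_a t36_B07pp_022_s1 k6_B07pp_022_s1

theorem t38_B07pp_022_s1 : ∃ t, chk3 f_B07pp_022_s1 t 9 8 1 = true := ex3_b k3_B07pp_022_s1 t37_B07pp_022_s1

theorem t39_B07pp_022_s1 : ∃ t, chk3 f_B07pp_022_s1 t 8 16 1 = true := ex3_a k0_B07pp_022_s1 k1_B07pp_022_s1

theorem t40_B07pp_022_s1 : ∃ t, chk3 f_B07pp_022_s1 t 8 8 1 = true := ex3_b t39_B07pp_022_s1 k2_B07pp_022_s1

theorem t41_B07pp_022_s1 : ∃ t, chk3 f_B07pp_022_s1 t 4 8 1 = true := ex3_a t40_B07pp_022_s1 t38_B07pp_022_s1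

theorem t42_B07pp_022_s1 : ∃ t, chk3 f_B07pp_022_s1 t 2 8 1 = true := ex3_a t41_B07pp_022_s1 k7_B07pp_022_s1

theorem t43_B07pp_022_s1 : ∃ t, chk3 f_B07pp_022_s1 t 2 4 1 = true := ex3_b t42_B07pp_022_s1 t35_B07pp_022_s1

theorem t44_B07pp_022_s1 : ∃ t, chk3 f_B07pp_022_s1 t 2 2 1 = true := ex3_b t43_B07pp_022_s1 t31_B07pp_022_s1

theorem t45_B07pp_022_s1 : ∃ t, chk3 f_B07pp_022_s1 t 2 1 1 = true := ex3_b t44_B07pp_022_s1 k16_B07pp_022_s1

theorem t46_B07pp_022_s1 : ∃ t, chk3 f_B07pp_022_s1 t 1 1 1 = true := ex3_a t45_B07pp_022_s1 t29_B07pp_022_s1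

theorem c_B07pp_022_s1 : CertF 0 536870912 1073741824 536870912 587336777 62277027 false true true .pp 0 2 2
    ndB0q0 ndB7q2 pcB2 cut_B07pp_022_s1 xt_B07pp_022_s1 :=
  certF1 (fam := false) (s1 := true) (s2 := true) (a := 0) (b := 2) (c := 2) (cn := .pp) (n1 := ndB0q0) (n2 := ndB7q2) (pc := pcB2) (cut := cut_B07pp_022_s1) (xt := xt_B07pp_022_s1) (P1 := 0) (W1 := 536870912) (P2 := 1073741824) (W2 := 536870912) (P3 := 587336777) (W3 := 62277027)
    rfl (fun _ => rfl) t46_B07pp_022_s1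

theorem s_B07pp_022_s1 {κ x : ℝ} (hκ : κ * h0 = ken x) (hx : ((587336777 : ℕ) : ℝ) / S ≤ x)
    (hx' : x ≤ (((587336777 : ℕ) : ℝ) + (62277027 : ℕ)) / S)
    (H : CutB (VFD κ) PP tK tL pcB (Cut.of [[⟨0, 0, 0, 67108864⟩, ⟨1, 1, 0, 67108864⟩, ⟨2, 1, 0, 67108864⟩]]) 0 2 2 0 7 (sgb true) (sgb true) x) :
    AltB (VFD κ) PP tK tL pcB [⟨3, 0, 0, 1449551462⟩] 0 2 2 0 7 (sgb true) (sgb true) x :=
  strip_altBD (m := 1449551462) true rfl hκ (SH.κ0 hκ (SH.hx1 hx).le (SH.hx2 hx').le) (SH.hx1 hx).le (SH.hx2 hx') (covB00).cov (covB72).cov hx hx' c_B07pp_022_s1 H ((okx6 hx hx').ext0B (T := tt) (zx hx hx') (okx hx hx') (sideB hx hx') hκ rfl rfl (.O 0 true) (.N 2 true) rfl)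

noncomputable def cut_B07pp_023_s1 : Cut := Cut.of [[⟨4, 0, 0, 1449551462⟩]]

noncomputable def xt_B07pp_023_s1 : Ext := strExt0 dd false true true .u0 .s2 .u2 .up 0 2 3 rfl rfl gf2 vv ww kz ndB0q0 ndB7q3

noncomputable def f_B07pp_023_s1 : ℕ → ℕ → ℕ → ℕ → Bool := onCell 1073741824 536870912 0 1230186008 587336777 62277027
    (rowF 2 false true true .up 0 2 3 (qsf 0 536870912 0 1230186008 2) ndB0q0 ndB7q3 pcB2 cut_B07pp_023_s1 xt_B07pp_023_s1)

def k0_B07pp_023_s1 : ∃ t, chk3 f_B07pp_023_s1 t 1 2 1 = true :=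
  ⟨(a (l 2) (a (l 2) (l 6))), by decide +kernel⟩

def k1_B07pp_023_s1 : ∃ t, chk3 f_B07pp_023_s1 t 4 3 1 = true :=
  ⟨(b (l 2) (b (l 2) (l 3))), by decide +kernel⟩

def k2_B07pp_023_s1 : ∃ t, chk3 f_B07pp_023_s1 t 5 6 1 = true :=
  ⟨(a (l 2) (b (l 2) (a (l 2) (b (l 2) (l 250819474535))))), by decide +kernel⟩

def k3_B07pp_023_s1 : ∃ t, chk3 f_B07pp_023_s1 t 40 7 1 = true :=
  ⟨(b (l 3) (b (l 3) (a (b (l 3) (a (l 3) (b (l 3) (a (l 3) (a (l 3) (l 1051321983)))))) (a (b (l 3) (b (a (l 3) (b (l 1056191103) (l 1055496319))) (b (a (l 1053151871) (l 1054830207)) (a (a (l 1052109439) (l 1053016703)) (l 1055265919))))) (b (b (b (l 3) (a (l 3) (a (l 3) (l 1061035647)))) (a (b (l 3) (l 1058319999)) (l 1062751247))) (b (a (l 1059284095) (a (l 1057718911) (b (l 1058359935) (l 16772696)))) (b (a (l 1056026751) (a (b (l 16766752) (l 16764920)) (b (l 16764920) (l 16763536)))) (a (a (l 1055057535) (a (l 16769680) (l 16768840))) (b (l 16762872) (l 16761648)))))))))),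 by decide +kernel⟩

def k4_B07pp_023_s1 : ∃ t, chk3 f_B07pp_023_s1 t 82 7 1 = true :=
  ⟨(b (l 3) (b (a (b (l 3) (b (l 3) (a (a (l 3) (b (l 3) (l 1065119247))) (a (l 1065169535) (l 1063416447))))) (b (b (a (l 3) (b (l 3) (a (l 3) (b (l 3) (l 1066251391))))) (a (l 3) (a (b (l 1065798271) (l 1065474175)) (b (l 1066009215) (l 1065680511))))) (a (b (b (a (l 3) (l 1064883327)) (l 1065993231)) (a (l 1063766143) (l 1064067711))) (b (a (b (l 1065146495) (l 1064815743)) (b (l 1065348735) (l 1065013375))) (b (a (l 1064482431) (b (l 16772848) (l 16772152))) (a (b (l 16772536) (l 16771768)) (b (l 16771504) (l 16770912)))))))) (b (a (b (a (b (a (c (l 1062974591) (l 1061214847)) (b (l 1062228095) (l 1065251343))) (a (l 1061159551) (c (l 1062581375) (l 1060885631)))) (b (a (b (l 1062636671) (l 1062470271)) (l 1064006271)) (a (l 1062116991) (l 1062543487)))) (a (a (b (l 1060213375) (l 1059302527)) (b (l 1060642943) (l 1059730047))) (b (a (l 1061333119) (l 16775408))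 (a (l 16774128) (l 16768064))))) (b (a (b (a (l 1063274111) (b (l 16772112) (l 16771280))) (a (b (l 16771576) (l 16770592)) (l 16780656))) (b (a (b (l 16771048) (l 16770416)) (l 16770144)) (l 16769272))) (a (b (a (l 16779752) (l 16768728)) (l 16767368)) (b (l 16767704) (l 16765752))))) (a (b (a (b (a (l 16774048) (b (l 16767912) (l 16766480))) (a (b (l 16766344) (l 16764912)) (l 16764840))) (b (a (l 16766576) (l 16766240)) (l 16764392))) (a (b (a (l 16763288) (l 16762712)) (l 16760536)) (b (l 16761904) (l 16758984)))) (b (b (l 16774976) (l 16772368)) (a (l 16768944) (l 16776656))))))), by decide +kernel⟩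

def k5_B07pp_023_s1 : ∃ t, chk3 f_B07pp_023_s1 t 166 14 1 = true :=
  ⟨(b (l 2) (b (l 2) (a (b (l 3) (a (l 3) (b (a (l 3) (l 1066580607)) (a (l 1066598015) (l 1066650751))))) (b (b (l 2) (a (a (l 3) (l 1066627199)) (a (l 1066756735) (a (b (l 1066803327) (l 1066879615)) (b (l 1066904703) (l 1066982527)))))) (a (b (a (l 1066648191) (l 1066745471)) (a (l 1066726015) (l 1066830463))) (b (a (l 1066882687) (a (l 1066977407) (l 1067082879))) (a (l 1066973823) (b (l 16775416) (l 16775128))))))))), by decide +kernel⟩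

def k6_B07pp_023_s1 : ∃ t, chk3 f_B07pp_023_s1 t 167 14 1 = true :=
  ⟨(a (b (l 2) (b (l 2) (a (a (b (b (b (l 2) (l 1068681855)) (b (a (l 1067025535) (l 16775960)) (l 1068766223))) (c (b (l 16775592) (l 16775096)) (b (l 16777920) (l 16774784)))) (b (b (b (l 2) (a (l 16776000) (l 16775816))) (b (a (l 16775776) (l 16775608)) (l 16775464))) (b (b (l 16775240) (l 16774992)) (b (l 16774704) (l 16774368))))) (b (b (b (l 2) (a (l 18891147063) (a (l 16775168) (l 16774648)))) (a (b (l 16775304) (l 16775048)) (b (a (l 16774848) (l 16774192)) (l 16774072)))) (b (a (b (l 16774744) (l 16774376)) (l 16773376)) (a (l 16773720) (l 16772416))))))) (a (b (l 2) (b (l 2) (a (a (b (b (l 16779216) (l 16772984)) (b (l 16771968) (l 16770928))) (a (b (b (l 16778080) (l 16771784)) (b (l 16770712) (l 16769632))) (a (b (b (l 73764405514997579071) (l 73759690808021998399)) (b (l 73754483519711345471) (l 73748713281321442111))) (b (b (l 16772000) (l 16770928)) (b (l 16769736)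 (l 16768416)))))) (a (a (b (b (l 16771880) (l 16770800)) (b (l 16769600) (l 16768280))) (a (b (b (l 16771752) (l 16770672)) (b (l 16769472) (l 16768144))) (b (b (l 16771672) (l 16770584)) (b (l 16769384) (l 16768048))))) (b (b (l 16771464) (l 16770368)) (b (l 16769160) (l 16767816))))))) (b (l 2) (b (l 2) (b (b (l 16770648) (l 16769520)) (b (l 16768272) (l 16766896))))))), by decide +kernel⟩

def k7_B07pp_023_s1 : ∃ t, chk3 f_B07pp_023_s1 t 166 30 1 = true :=
  ⟨(b (a (b (a (a (b (l 3) (b (a (l 1066452095) (l 1066545791)) (l 1066319999))) (b (b (l 1066586751) (l 1066594943)) (c (b (l 1066667647) (l 1066603647)) (l 1068565119)))) (b (b (l 1066713727) (a (l 1067710079) (l 1066698879))) (a (b (l 1066629247) (l 1066546815)) (b (l 1066698367) (l 1066638463))))) (a (b (a (l 1066075775) (l 1066209407)) (a (l 1065745535) (l 1065886847))) (b (a (b (l 1066424959) (l 16775088)) (l 1067558015)) (c (l 16779456) (l 16774064))))) (a (b (b (a (l 1069459583)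 (l 1067959423)) (a (l 1066770559) (l 1066889855))) (b (b (l 16779664) (l 16774000)) (a (l 16773496) (l 16773144)))) (b (b (a (c (l 16777792) (l 16774960)) (b (l 16774832) (l 16774536))) (a (b (l 16774568) (l 16774216)) (b (l 16774192) (l 16773824)))) (b (a (l 16773632) (l 16773184)) (l 16772496))))) (a (b (a (b (a (l 1065411711) (l 16778976)) (b (l 16773080) (l 16772472))) (b (b (l 16773360) (l 16772832)) (l 16772064))) (b (a (b (l 16771896) (l 16771344)) (l 16771040)) (l 16775512))) (b (b (a (l 16772352) (l 16771440)) (l 16781336)) (b (l 16780072) (l 16768160))))), by decide +kernel⟩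

def k8_B07pp_023_s1 : ∃ t, chk3 f_B07pp_023_s1 t 167 30 1 = true :=
  ⟨(a (b (a (b (b (a (b (l 16774472) (l 16774136)) (l 16773744)) (a (l 16773528) (l 16772856))) (b (l 16772248) (l 16771168))) (b (b (a (l 16772808) (l 16771424)) (a (l 16771840) (l 16770384))) (b (l 16775208) (l 16779208)))) (b (a (b (l 16769952) (l 16768592)) (a (l 16788488) (l 16786784))) (a (b (l 16767080) (l 16765416)) (b (l 16764176) (l 16762360))))) (a (a (a (b (b (b (l 16769872) (l 16768776)) (l 16777432)) (b (l 16764048) (l 16781288))) (a (b (b (b (l 16768536) (l 16767432)) (l 16786544)) (b (l 16762632) (b (l 16759776) (l 16757072)))) (a (a (b (b (b (l 16767552) (l 16766440)) (l 16764584)) (b (l 16761488) (l 16777488))) (b (b (b (l 16767072) (l 16765776)) (l 16763928)) (c (b (l 73711241917111706431) (l 16774840)) (b (l 73715780701966803775) (l 16755976))))) (b (b (b (l 16766952) (l 16765560)) (l 16763720)) (b (l 16760472) (l 16754432)))))) (a (a (b (b (b (l 16766800)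 (l 16765472)) (l 16763616)) (b (l 16760352) (l 16754312))) (a (b (b (b (l 16766656) (l 16765376)) (l 16763512)) (b (l 16760240) (l 16754200))) (a (b (b (b (l 16766584) (l 16765328)) (l 16763456)) (b (l 16760184) (l 16754144))) (b (b (b (l 16766536) (l 16765296)) (l 16763424)) (b (l 16760144) (l 16754104)))))) (b (b (b (l 16766320) (l 16765152)) (l 16763264)) (b (l 16759968) (l 16753928))))) (b (b (b (l 16765672) (l 16764496)) (l 16762544)) (b (l 16759192) (l 16753144))))), by decide +kernel⟩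

def k9_B07pp_023_s1 : ∃ t, chk3 f_B07pp_023_s1 t 83 31 1 = true :=
  ⟨(a (b (b (a (b (l 16769008) (l 16767488)) (b (l 16766576) (l 16764744))) (a (l 16774984) (l 16782240))) (b (a (l 16780112) (a (l 16756384) (l 16795760))) (a (l 16772968) (b (l 16749024) (l 16744040))))) (b (b (a (a (l 16783560) (a (l 16802280) (l 16768520))) (a (a (a (l 16755168) (a (l 16752120) (l 73657304263594382655))) (l 16747328)) (l 16746360))) (a (a (l 16778480) (a (l 16754720) (l 16793344))) (a (a (a (l 16747768) (a (l 16744680) (l 73624090208532799807))) (l 16739744)) (l 16738720)))) (b (a (a (l 16792176) (l 16765216)) (a (a (a (l 16738768) (a (l 16735576) (l 73583452249215647039))) (l 16730488)) (l 16729400))) (a (a (l 16740224) (l 16775768)) (a (a (a (l 16728072) (a (l 16724768) (l 73535320016856804159))) (l 16719512)) (l 16718352)))))), by decide +kernel⟩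

def k10_B07pp_023_s1 : ∃ t, chk3 f_B07pp_023_s1 t 21 7 1 = true :=
  ⟨(b (b (b (l 2) (l 337792505335)) (a (a (a (b (b (l 2) (l 347993010679)) (b (b (l 16768320) (l 16767056)) (a (l 16771288) (l 16764136)))) (b (b (l 2) (l 16766912)) (b (l 16764136) (l 16761200)))) (b (b (l 2) (l 16761968)) (b (l 16758720) (l 16755264)))) (b (a (l 16757176) (l 16750928)) (a (l 16791352) (l 16741856))))) (b (a (a (b (b (b (l 16761064) (l 16759624)) (l 16778272)) (b (l 16774472) (l 16747456))) (b (b (l 16751680) (l 16747824)) (b (l 16743328) (l 16737144)))) (b (a (l 16824552) (l 16731584)) (a (l 16729880) (l 16719496)))) (a (b (b (a (l 16740408) (l 16729536)) (l 16758192)) (b (l 16758600) (l 16704816))) (b (a (l 16713776) (l 16702184)) (a (l 16691464) (l 16762136)))))), by decide +kernel⟩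

def k11_B07pp_023_s1 : ∃ t, chk3 f_B07pp_023_s1 t 11 7 1 = true :=
  ⟨(b (b (a (b (l 16751808) (l 16744736)) (a (l 16736176) (l 16728656))) (a (b (l 16777408) (a (l 16730632) (l 16715824))) (b (l 16711736) (l 16693728)))) (a (b (b (a (l 16718112) (l 16700192)) (l 16756144)) (b (a (l 16684536) (l 16660480)) (a (l 16741960) (l 16630536)))) (b (b (l 16673192) (l 16650416)) (b (l 16623328) (l 16671848))))), by decide +kernel⟩

def k12_B07pp_023_s1 : ∃ t, chk3 f_B07pp_023_s1 t 3 3 1 = true :=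
  ⟨(a (b (b (a (l 2) (b (l 16761120) (l 16769400))) (a (b (a (l 16758576) (l 16758600)) (a (l 16745240) (l 16740800))) (b (l 16847776) (l 16821304)))) (b (a (b (a (l 16718496) (l 16704888)) (b (l 16676136) (l 16648128))) (b (l 16766600) (l 16751456))) (b (a (b (l 16617016) (l 16666792)) (b (l 16535552) (l 16486040))) (b (a (a (l 16571512) (l 16517512)) (l 16432512)) (a (b (l 16511176) (l 16569496)) (b (l 16388232) (l 16355864))))))) (l 6)), by decide +kernel⟩

theorem t13_B07pp_023_s1 : ∃ t, chk3 f_B07pp_023_s1 t 83 30 1 = true := ex3_a k7_B07pp_023_s1 k8_B07pp_023_s1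

theorem t14_B07pp_023_s1 : ∃ t, chk3 f_B07pp_023_s1 t 83 15 1 = true := ex3_b t13_B07pp_023_s1 k9_B07pp_023_s1

theorem t15_B07pp_023_s1 : ∃ t, chk3 f_B07pp_023_s1 t 83 14 1 = true := ex3_a k5_B07pp_023_s1 k6_B07pp_023_s1

theorem t16_B07pp_023_s1 : ∃ t, chk3 f_B07pp_023_s1 t 83 7 1 = true := ex3_b t15_B07pp_023_s1 t14_B07pp_023_s1

theorem t17_B07pp_023_s1 : ∃ t, chk3 f_B07pp_023_s1 t 41 7 1 = true := ex3_a k4_B07pp_023_s1 t16_B07pp_023_s1

theorem t18_B07pp_023_s1 : ∃ t, chk3 f_B07pp_023_s1 t 20 7 1 = true := ex3_a k3_B07pp_023_s1 t17_B07pp_023_s1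

theorem t19_B07pp_023_s1 : ∃ t, chk3 f_B07pp_023_s1 t 10 7 1 = true := ex3_a t18_B07pp_023_s1 k10_B07pp_023_s1

theorem t20_B07pp_023_s1 : ∃ t, chk3 f_B07pp_023_s1 t 5 7 1 = true := ex3_a t19_B07pp_023_s1 k11_B07pp_023_s1

theorem t21_B07pp_023_s1 : ∃ t, chk3 f_B07pp_023_s1 t 5 3 1 = true := ex3_b k2_B07pp_023_s1 t20_B07pp_023_s1

theorem t22_B07pp_023_s1 : ∃ t, chk3 f_B07pp_023_s1 t 2 3 1 = true := ex3_a k1_B07pp_023_s1 t21_B07pp_023_s1

theorem t23_B07pp_023_s1 : ∃ t, chk3 f_B07pp_023_s1 t 1 3 1 = true := ex3_a t22_B07pp_023_s1 k12_B07pp_023_s1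

theorem t24_B07pp_023_s1 : ∃ t, chk3 f_B07pp_023_s1 t 1 1 1 = true := ex3_b k0_B07pp_023_s1 t23_B07pp_023_s1

theorem c_B07pp_023_s1 : CertF 0 536870912 0 1230186008 587336777 62277027 false true true .up 0 2 3
    ndB0q0 ndB7q3 pcB2 cut_B07pp_023_s1 xt_B07pp_023_s1 :=
  certF2 (fam := false) (s1 := true) (s2 := true) (a := 0) (b := 2) (c := 3) (cn := .up) (n1 := ndB0q0) (n2 := ndB7q3) (pc := pcB2) (cut := cut_B07pp_023_s1) (xt := xt_B07pp_023_s1) (P1 := 0) (W1 := 536870912) (P2 := 0) (W2 := 1230186008) (P3 := 587336777) (W3 := 62277027)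
    rfl (fun _ => rfl) t24_B07pp_023_s1

theorem s_B07pp_023_s1 {κ x : ℝ} (hκ : κ * h0 = ken x) (hx : ((587336777 : ℕ) : ℝ) / S ≤ x)
    (hx' : x ≤ (((587336777 : ℕ) : ℝ) + (62277027 : ℕ)) / S) :
    AltB (VFD κ) PP tK tL pcB [⟨3, 0, 0, 1449551462⟩] 0 2 3 0 7 (sgb true) (sgb true) x :=
  strip_altBD (m := 1449551462) true rfl hκ (SH.κ0 hκ (SH.hx1 hx).le (SH.hx2 hx').le) (SH.hx1 hx).le (SH.hx2 hx') (covB00).cov (covB73).cov hx hx' c_B07pp_023_s1 cutB_nil ((okx6 hx hx').ext0B (T := tt) (zx hx hx') (okx hx hx') (sideB hx hx') hκ rfl rfl (.O 0 true) (.N 3 true) rfl)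

noncomputable def cut_B07pp_033_s1 : Cut := Cut.of [[⟨4, 0, 0, 1449551462⟩]]

noncomputable def f_B07pp_033_s1 : ℕ → ℕ → ℕ → ℕ → Bool := onCell 1610612736 536870912 0 1230186008 587336777 62277027
    (rowF 2 false true true .pnn 0 3 3 (qsf 0 536870912 0 1230186008 3) ndB0q0 ndB7q3 pcB3 cut_B07pp_033_s1 Ext.none)

def k0_B07pp_033_s1 : ∃ t, chk3 f_B07pp_033_s1 t 1 1 1 = true :=
  ⟨(b (l 6) (l 6)), by decide +kernel⟩

theorem c_B07pp_033_s1 : CertF 0 536870912 0 1230186008 587336777 62277027 false true true .pnn 0 3 3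
    ndB0q0 ndB7q3 pcB3 cut_B07pp_033_s1 Ext.none :=
  certF2 (fam := false) (s1 := true) (s2 := true) (a := 0) (b := 3) (c := 3) (cn := .pnn) (n1 := ndB0q0) (n2 := ndB7q3) (pc := pcB3) (cut := cut_B07pp_033_s1) (xt := Ext.none) (P1 := 0) (W1 := 536870912) (P2 := 0) (W2 := 1230186008) (P3 := 587336777) (W3 := 62277027)
    rfl (fun _ => rfl) k0_B07pp_033_s1

theorem s_B07pp_033_s1 {κ x : ℝ} (hκ : κ * h0 = ken x) (hx : ((587336777 : ℕ) : ℝ) / S ≤ x)
    (hx' : x ≤ (((587336777 : ℕ) : ℝ) + (62277027 : ℕ)) / S) :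
    AltB (VFD κ) PP tK tL pcB [⟨3, 0, 0, 1449551462⟩] 0 3 3 0 7 (sgb true) (sgb true) x :=
  strip_altBD (m := 1449551462) true rfl hκ (SH.κ0 hκ (SH.hx1 hx).le (SH.hx2 hx').le) (SH.hx1 hx).le (SH.hx2 hx') (covB00).cov (covB73).cov hx hx' c_B07pp_033_s1 cutB_nil (noExt_B)

noncomputable def cut_B07pp_101_s1 : Cut := Cut.of [[⟨4, 0, 0, 1449551462⟩]]

noncomputable def f_B07pp_101_s1 : ℕ → ℕ → ℕ → ℕ → Bool := onCell 536870912 536870912 536870912 536870912 587336777 62277027
    (rowF 0 false true true .npn 1 0 1 (qsf 536870912 536870912 536870912 536870912 0) ndB0q1 ndB7q1 pcB0 cut_B07pp_101_s1 Ext.none)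

def k0_B07pp_101_s1 : ∃ t, chk3 f_B07pp_101_s1 t 1 1 1 = true :=
  ⟨(a (l 3) (l 5)), by decide +kernel⟩

theorem c_B07pp_101_s1 : CertF 536870912 536870912 536870912 536870912 587336777 62277027 false true true .npn 1 0 1
    ndB0q1 ndB7q1 pcB0 cut_B07pp_101_s1 Ext.none :=
  certF0 (fam := false) (s1 := true) (s2 := true) (a := 1) (b := 0) (c := 1) (cn := .npn) (n1 := ndB0q1) (n2 := ndB7q1) (pc := pcB0) (cut := cut_B07pp_101_s1) (xt := Ext.none) (P1 := 536870912) (W1 := 536870912) (P2 := 536870912) (W2 := 536870912) (P3 := 587336777) (W3 := 62277027)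
    rfl k0_B07pp_101_s1

theorem s_B07pp_101_s1 {κ x : ℝ} (hκ : κ * h0 = ken x) (hx : ((587336777 : ℕ) : ℝ) / S ≤ x)
    (hx' : x ≤ (((587336777 : ℕ) : ℝ) + (62277027 : ℕ)) / S) :
    AltB (VFD κ) PP tK tL pcB [⟨3, 0, 0, 1449551462⟩] 1 0 1 0 7 (sgb true) (sgb true) x :=
  strip_altBD (m := 1449551462) true rfl hκ (SH.κ0 hκ (SH.hx1 hx).le (SH.hx2 hx').le) (SH.hx1 hx).le (SH.hx2 hx') (covB01).cov (covB71).cov hx hx' c_B07pp_101_s1 cutB_nil (noExt_B)

noncomputable def cut_B07pp_102_s1 : Cut := Cut.of [[⟨4, 0, 0, 1449551462⟩]]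

noncomputable def f_B07pp_102_s1 : ℕ → ℕ → ℕ → ℕ → Bool := onCell 536870912 536870912 1073741824 536870912 587336777 62277027
    (rowF 0 false true true .npp 1 0 2 (qsf 536870912 536870912 1073741824 536870912 0) ndB0q1 ndB7q2 pcB0 cut_B07pp_102_s1 Ext.none)

def k0_B07pp_102_s1 : ∃ t, chk3 f_B07pp_102_s1 t 1 1 1 = true :=
  ⟨(a (l 3) (b (l 5) (l 3))), by decide +kernel⟩

theorem c_B07pp_102_s1 : CertF 536870912 536870912 1073741824 536870912 587336777 62277027 false true true .npp 1 0 2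
    ndB0q1 ndB7q2 pcB0 cut_B07pp_102_s1 Ext.none :=
  certF0 (fam := false) (s1 := true) (s2 := true) (a := 1) (b := 0) (c := 2) (cn := .npp) (n1 := ndB0q1) (n2 := ndB7q2) (pc := pcB0) (cut := cut_B07pp_102_s1) (xt := Ext.none) (P1 := 536870912) (W1 := 536870912) (P2 := 1073741824) (W2 := 536870912) (P3 := 587336777) (W3 := 62277027)
    rfl k0_B07pp_102_s1

theorem s_B07pp_102_s1 {κ x : ℝ} (hκ : κ * h0 = ken x) (hx : ((587336777 : ℕ) : ℝ) / S ≤ x)
    (hx' : x ≤ (((587336777 : ℕ) : ℝ) + (62277027 : ℕ)) / S) :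
    AltB (VFD κ) PP tK tL pcB [⟨3, 0, 0, 1449551462⟩] 1 0 2 0 7 (sgb true) (sgb true) x :=
  strip_altBD (m := 1449551462) true rfl hκ (SH.κ0 hκ (SH.hx1 hx).le (SH.hx2 hx').le) (SH.hx1 hx).le (SH.hx2 hx') (covB01).cov (covB72).cov hx hx' c_B07pp_102_s1 cutB_nil (noExt_B)

noncomputable def cut_B07pp_112_s1 : Cut := Cut.of [[⟨4, 0, 0, 1449551462⟩]]

noncomputable def f_B07pp_112_s1 : ℕ → ℕ → ℕ → ℕ → Bool := onCell 536870912 536870912 1073741824 536870912 587336777 62277027
    (rowF 0 false true true .dn 1 1 2 (qsf 536870912 536870912 1073741824 536870912 1) ndB0q1 ndB7q2 pcB1 cut_B07pp_112_s1 Ext.none)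

def k0_B07pp_112_s1 : ∃ t, chk3 f_B07pp_112_s1 t 1 1 1 = true :=
  ⟨(a (l 3) (b (l 5) (l 3))), by decide +kernel⟩

theorem c_B07pp_112_s1 : CertF 536870912 536870912 1073741824 536870912 587336777 62277027 false true true .dn 1 1 2
    ndB0q1 ndB7q2 pcB1 cut_B07pp_112_s1 Ext.none :=
  certF0 (fam := false) (s1 := true) (s2 := true) (a := 1) (b := 1) (c := 2) (cn := .dn) (n1 := ndB0q1) (n2 := ndB7q2) (pc := pcB1) (cut := cut_B07pp_112_s1) (xt := Ext.none) (P1 := 536870912) (W1 := 536870912) (P2 := 1073741824) (W2 := 536870912) (P3 := 587336777) (W3 := 62277027)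
    rfl k0_B07pp_112_s1

theorem s_B07pp_112_s1 {κ x : ℝ} (hκ : κ * h0 = ken x) (hx : ((587336777 : ℕ) : ℝ) / S ≤ x)
    (hx' : x ≤ (((587336777 : ℕ) : ℝ) + (62277027 : ℕ)) / S) :
    AltB (VFD κ) PP tK tL pcB [⟨3, 0, 0, 1449551462⟩] 1 1 2 0 7 (sgb true) (sgb true) x :=
  strip_altBD (m := 1449551462) true rfl hκ (SH.κ0 hκ (SH.hx1 hx).le (SH.hx2 hx').le) (SH.hx1 hx).le (SH.hx2 hx') (covB01).cov (covB72).cov hx hx' c_B07pp_112_s1 cutB_nil (noExt_B)

noncomputable def cut_B07pp_113_s1 : Cut := Cut.of [[⟨4, 0, 0, 1449551462⟩], [⟨0, 1, 0, 67108864⟩, ⟨1, 1, 0, 67108864⟩, ⟨2, 2, 0, 16777216⟩]]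

noncomputable def f_B07pp_113_s1 : ℕ → ℕ → ℕ → ℕ → Bool := onCell 536870912 536870912 0 1230186008 587336777 62277027
    (rowF 2 false true true .nn 1 1 3 (qsf 536870912 536870912 0 1230186008 1) ndB0q1 ndB7q3 pcB1 cut_B07pp_113_s1 Ext.none)

def k0_B07pp_113_s1 : ∃ t, chk3 f_B07pp_113_s1 t 1 1 1 = true :=
  ⟨(b (a (l 2) (a (l 2) (b (a (l 2) (b (a (l 2) (l 14)) (l 3))) (l 3)))) (a (a (b (l 2) (b (l 2) (l 3))) (b (b (l 2) (a (l 2) (l 3))) (l 3))) (b (a (l 3) (l 3)) (l 3)))), by decide +kernel⟩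

theorem c_B07pp_113_s1 : CertF 536870912 536870912 0 1230186008 587336777 62277027 false true true .nn 1 1 3
    ndB0q1 ndB7q3 pcB1 cut_B07pp_113_s1 Ext.none :=
  certF2 (fam := false) (s1 := true) (s2 := true) (a := 1) (b := 1) (c := 3) (cn := .nn) (n1 := ndB0q1) (n2 := ndB7q3) (pc := pcB1) (cut := cut_B07pp_113_s1) (xt := Ext.none) (P1 := 536870912) (W1 := 536870912) (P2 := 0) (W2 := 1230186008) (P3 := 587336777) (W3 := 62277027)
    rfl (fun _ => rfl) k0_B07pp_113_s1

theorem s_B07pp_113_s1 {κ x : ℝ} (hκ : κ * h0 = ken x) (hx : ((587336777 : ℕ) : ℝ) / S ≤ x)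
    (hx' : x ≤ (((587336777 : ℕ) : ℝ) + (62277027 : ℕ)) / S)
    (H : CutB (VFD κ) PP tK tL pcB (Cut.of [[⟨0, 1, 0, 67108864⟩, ⟨1, 1, 0, 67108864⟩, ⟨2, 2, 0, 16777216⟩]]) 1 1 3 0 7 (sgb true) (sgb true) x) :
    AltB (VFD κ) PP tK tL pcB [⟨3, 0, 0, 1449551462⟩] 1 1 3 0 7 (sgb true) (sgb true) x :=
  strip_altBD (m := 1449551462) true rfl hκ (SH.κ0 hκ (SH.hx1 hx).le (SH.hx2 hx').le) (SH.hx1 hx).le (SH.hx2 hx') (covB01).cov (covB73).cov hx hx' c_B07pp_113_s1 H (noExt_B)

end Pool.Agent.Strip051.G.I5470_6050.Tab.St.C
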