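import Pool.Agent.Strip051.G.I5470_6050.Tab
import Pool.Agent.Strip051.PB.StripB

/-! # Strips, near vertex: certificates 3 (generated) -/

set_option linter.all false
set_option maxRecDepth 100000

namespace Pool.Agent.Strip051.G.I5470_6050.Tab.CS.BA00

open Pool.Agent.Strip051.PB Pool.Agent.Strip051.PB.T
open Pool.Agent.Strip051.G.I5470_6050.Tab

noncomputable def cut_pm_123_t : Cut := Cut.of [[⟨3, 0, 0, 2845415833⟩], [⟨0, 1, 0, 67108864⟩, ⟨1, 1, 0, 67108864⟩, ⟨2, 2, 0, 16777216⟩], [⟨0, 0, 1, 20971520⟩, ⟨1, 1, 0, 29360128⟩, ⟨2, 1, 1, 20971520⟩]]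

noncomputable def f_pm_123_t : ℕ → ℕ → ℕ → ℕ → Bool := onCell 1610612736 536870912 0 536870912 587336777 62277027
    (rowNE 3 eng mog cd0q1 cd0q2 pd3 2 true true false .npn 1 2 3 (qsf 536870912 536870912 0 536870912 3) ndB0q1 ndB0q2 pcB3 cut_pm_123_t Ext.none)

def k0_pm_123_t : ∃ t, chk3 f_pm_123_t t 2 1 1 = true :=
  ⟨(a (b (b (l 1) (l 6)) (l 6)) (b (a (b (a (a (l 1) (b (l 16731824) (l 16713472))) (b (a (l 16742880) (l 16765224)) (a (l 16727656) (l 16739568)))) (b (a (a (l 6) (l 16699552)) (b (l 16726944) (l 16721520))) (l 6))) (b (b (a (b (l 16786832) (l 16759360)) (b (a (l 16772784) (b (a (l 16787360) (l 132841993847)) (l 16774808))) (a (l 16767160) (l 16771088)))) (a (b (l 16754320) (l 16750888)) (a (l 16761592) (b (l 16767216) (l 16764784))))) (b (a (b (l 16748496) (l 16746544)) (b (l 16761224) (l 16760552))) (a (l 16742408) (b (l 16759920) (l 16759600)))))) (a (l 6) (b (l 6) (l 6))))), by decide +kernel⟩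

def k1_pm_123_t : ∃ t, chk3 f_pm_123_t t 6 2 1 = true :=
  ⟨(a (b (a (b (b (a (b (l 4) (a (l 16777064) (l 135526348135))) (l 4)) (a (l 16784976) (b (a (l 101703500151) (l 138210702199)) (l 36742125607)))) (a (b (l 16771328) (l 16769592)) (b (l 16774288) (l 16773104)))) (b (b (l 4) (a (b (l 4) (a (l 107609084679) (l 143579410663))) (l 4))) (b (a (a (l 16775800) (l 34057766135)) (b (a (l 115125278983) (l 150558731703)) (a (l 16776672) (l 16785080)))) (a (l 16775280) (b (l 16776472) (l 16776296)))))) (b (a (b (a (l 16769000) (l 16773016)) (a (l 16769000) (l 16773312))) (b (a (l 16775384) (l 16776456)) (l 16786712))) (a (b (l 16771352) (l 16771408)) (b (a (l 16775696) (l 16776344)) (l 16754600))))) (b (b (l 4) (b (a (a (b (l 4) (a (l 125862672295) (l 4))) (l 4)) (l 4)) (a (a (b (a (l 16776976) (l 61975056743)) (l 16776800)) (b (a (l 135526347399) (l 4)) (a (l 16777152) (l 113514668487)))) (l 4)))) (a (b (b (a (l 16776776) (b (l 16782176) (l 16776832))) (a (l 16776776)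 (l 16776640))) (b (a (l 16776056) (l 16775624)) (a (l 16775200) (l 16774272)))) (b (b (a (b (a (l 64122539527) (l 128547046855)) (a (l 16776960) (l 50700761687))) (b (l 4) (a (b (l 130694509943) (l 72175600215)) (l 4)))) (a (a (l 16776568) (l 16776544)) (a (b (l 16776912) (l 16776336)) (b (b (l 106535345127) (l 16777088)) (l 16776720))))) (a (b (a (l 16775240) (l 16775160)) (l 16773664)) (b (a (l 16775320) (l 16775840)) (a (l 16773864) (l 16774584)))))))), by decide +kernel⟩

def k2_pm_123_t : ∃ t, chk3 f_pm_123_t t 7 2 1 = true :=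
  ⟨(a (b (l 4) (a (b (a (b (l 4) (b (a (b (l 4) (l 122641446647)) (l 4)) (a (b (l 71101858615) (l 16777032)) (b (l 153779957655) (l 93650443591))))) (l 4)) (a (b (b (a (l 16776776) (a (l 16777112) (l 16777256))) (l 16781992)) (c (l 16777832) (l 16775256))) (b (b (a (b (a (l 105461596599) (l 4)) (a (l 16777280) (l 92039821959))) (b (l 4) (l 165054256583))) (a (l 16777424) (a (l 46405793463) (a (l 75933697175) (l 101166634007))))) (a (l 16777832) (b (l 16777848) (l 16778416)))))) (b (l 4) (a (b (a (b (l 4) (b (l 4) (a (l 124252079463) (l 4)))) (l 4)) (a (b (b (a (l 16777496) (l 118883370119)) (l 16777744)) (l 16778432)) (b (b (l 4) (a (l 98482275191) (l 202635210823))) (a (l 16778072) (b (a (l 16777528) (l 112440915895)) (l 16777952)))))) (b (l 4) (a (b (l 4) (a (b (l 191360922183) (b (l 113514657223) (l 16777616))) (b (l 4) (a (l 174181054503) (l 4))))) (l 4))))))) (l 4)), by decide +kernel⟩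

def k3_pm_123_t : ∃ t, chk3 f_pm_123_t t 6 3 1 = true :=
  ⟨(b (a (b (a (a (l 16749064) (l 16752392)) (b (l 16796440) (a (l 16774936) (l 16775464)))) (a (l 6) (b (a (l 16775352) (l 16776000)) (a (l 6) (l 16778424))))) (b (a (b (a (l 16775040) (l 16773792)) (a (l 16775176) (l 16775008))) (b (a (l 16772968) (a (l 16773144) (l 16773912))) (a (l 16774904) (l 16775520)))) (a (b (a (l 16776536) (l 16777216)) (a (l 16779936) (l 16782152))) (a (b (l 16778544) (l 16784408)) (b (l 16779912) (l 16786416)))))) (a (l 6) (b (a (b (a (l 16787184) (l 16790496)) (a (l 6) (l 16802712))) (b (a (l 16793504) (b (l 16793000) (l 16798488))) (a (b (l 16802408) (l 16809688)) (b (l 16804832) (l 16812192))))) (a (l 6) (b (a (b (l 16817720) (l 16826488)) (b (l 16820240) (l 16828928))) (a (l 6) (b (l 16838016) (c (l 16851904) (l 16842888))))))))), by decide +kernel⟩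

def k4_pm_123_t : ∃ t, chk3 f_pm_123_t t 14 3 1 = true :=
  ⟨(b (a (b (b (a (a (l 16775544) (l 16777160)) (a (l 16778528) (l 16784704))) (a (b (l 16777008) (l 16778648)) (b (l 16779920) (l 16781144)))) (b (a (l 16782296) (l 16784680)) (a (l 16809680) (b (l 16789056) (l 16792768))))) (b (a (b (a (l 16778128) (b (l 16779128) (l 16780448))) (a (b (l 16781504) (l 16782888)) (b (l 16781864) (l 16783440)))) (b (a (b (a (l 16778552) (b (a (l 16777704) (l 94187302855)) (l 16778360))) (l 16779912)) (b (a (b (a (l 153243089319) (l 4)) (a (l 16777824) (l 85597367479))) (b (l 4) (a (b (l 4) (l 116199008295)) (l 4)))) (a (l 16779064) (b (a (l 16777952) (b (l 114051524471) (l 16777736))) (l 16778768))))) (a (b (l 16781640) (l 16783512)) (b (l 16780736) (l 16776352))))) (b (a (b (a (l 16784528) (l 16785424)) (l 16787520)) (b (a (l 16785680) (l 16785304)) (a (l 16787960) (b (l 16787256) (l 16788712))))) (a (b (l 16790496) (l 16794064)) (a (l 16813584) (b (l 16790584) (l 16793896)))))))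 (b (b (a (a (b (l 16795168) (l 16800496)) (b (l 16797192) (l 16802336))) (a (b (l 16798200) (l 16802920)) (b (a (l 16798072) (l 16797488)) (a (l 16802384) (l 16801496))))) (a (a (b (l 16806632) (l 16813824)) (b (l 16808080) (l 16814576))) (a (b (l 16808120) (a (l 16814144) (l 16813344))) (b (a (l 16807064) (l 16805824)) (a (l 16812160) (l 16810432)))))) (a (b (a (b (l 16821648) (l 16829896)) (b (l 16821920) (l 16829424))) (a (b (l 16838384) (c (l 16850288) (l 16843560))) (b (l 16837032) (l 16844176)))) (b (a (b (l 16820400) (l 16826952)) (b (a (l 16817776) (l 16815368)) (l 16822160))) (a (b (l 16833320) (l 16839136)) (b (l 16827224) (l 16852584))))))), by decide +kernel⟩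

def k5_pm_123_t : ∃ t, chk3 f_pm_123_t t 60 12 1 = true :=
  ⟨(b (a (b (l 4) (a (b (a (b (l 4) (l 113514653383)) (l 259543527927)) (a (l 16778064) (b (l 114588395415) (l 16777808)))) (b (l 4) (a (b (l 261691012775) (c (l 115125265879) (l 118883362151))) (l 267596591543))))) (l 4)) (a (b (a (l 16779552) (b (a (l 16778152) (a (l 63585654663) (b (l 156464322679) (l 16777696)))) (l 16779104))) (a (l 16781960) (l 16781056))) (b (a (b (a (b (l 4) (a (l 94187296295) (l 164517385943))) (l 4)) (a (l 16778192) (b (a (a (l 16777488) (l 117809616679)) (a (l 162906772567) (l 220351953767))) (l 16777856)))) (b (l 4) (b (l 4) (a (a (b (l 154853708439) (l 16777496)) (b (l 4) (l 164517384599))) (l 4))))) (a (b (l 16779216) (l 16775368)) (b (a (b (c (l 16777872) (l 16777800)) (l 16778536)) (a (b (b (c (l 175254797895) (l 179549765031)) (l 16778120)) (l 16777976)) (a (b (b (l 4) (l 167201737959)) (l 16777688)) (b (l 4) (b (l 85597359143) (l 16777664)))))) (a (l 16779640) (l 16778904))))))),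 by decide +kernel⟩

def k6_pm_123_t : ∃ t, chk3 f_pm_123_t t 61 12 1 = true :=
  ⟨(b (l 4) (a (b (l 4) (a (b (a (b (l 4) (a (a (b (l 183844732503) (l 16777464)) (b (l 4) (c (l 120493968759) (l 124252065127)))) (a (b (l 4) (l 205856439751)) (l 4)))) (l 4)) (a (b (a (l 16777928) (a (l 16777624) (b (b (l 195655894791) (l 16777336)) (l 16777592)))) (l 16778488)) (a (b (a (b (l 253101079847) (l 72712456343)) (b (l 4) (b (l 254174821911) (l 119957096807)))) (l 16777856)) (b (c (l 291218913719) (l 296050754007)) (b (b (a (c (l 131768257063) (l 135526353463)) (l 4)) (a (l 16777424) (a (l 85597357655) (l 195655894311)))) (l 16777608)))))) (b (l 4) (b (l 4) (b (l 4) (a (a (a (b (a (l 134452611047) (l 225183792823)) (l 16777376)) (a (b (l 4) (b (l 160222410295) (l 16777264))) (l 289608301847))) (l 4)) (l 4))))))) (l 4))), by decide +kernel⟩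

def k7_pm_123_t : ∃ t, chk3 f_pm_123_t t 60 13 1 = true :=
  ⟨(b (a (b (a (l 16784560) (l 16783808)) (a (l 16787424) (l 16786776))) (b (a (b (l 16782056) (l 16783552)) (a (l 16776672) (l 16778608))) (a (l 16785896) (b (l 16783928) (l 16785552))))) (a (b (b (l 16789528) (l 16790736)) (l 16793160)) (b (a (b (l 16788304) (l 16790112)) (l 16788112)) (b (a (l 16791448) (l 16790816)) (l 16792536))))), by decide +kernel⟩

def k8_pm_123_t : ∃ t, chk3 f_pm_123_t t 244 52 1 = true :=
  ⟨(a (b (l 16779664) (l 16781256)) (b (c (l 16777592) (l 16777456)) (c (l 16780584) (l 16780328)))), by decide +kernel⟩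

def k9_pm_123_t : ∃ t, chk3 f_pm_123_t t 245 104 1 = true :=
  ⟨(a (a (b (a (l 16777872) (a (l 16777696) (b (b (l 78081164599) (l 16777480)) (l 16777784)))) (l 16775944)) (b (b (a (a (b (a (l 162369897831) (l 223573180167)) (l 16777360)) (b (l 4) (b (l 162906768599) (l 16777304)))) (a (b (l 4) (b (l 4) (l 181697250391))) (l 4))) (b (a (l 16777504) (a (l 16777336) (b (a (l 180086637287) (l 4)) (l 77544293303)))) (l 16777592))) (l 16777456))) (a (a (b (b (l 4) (b (c (l 277260271127) (l 283702721911)) (a (a (l 16777328) (b (l 146263770119) (l 16777312))) (b (l 277260271335) (a (l 16777264) (l 170422961047)))))) (c (l 16777768) (l 16777080))) (b (b (l 4) (l 4)) (b (b (b (a (a (l 85060485927) (l 203708957287)) (l 4)) (a (l 16777312) (a (c (l 141431931847) (l 144653157303)) (l 241289920327)))) (a (l 16777464) (b (l 65196261959) (l 16777392)))) (l 16777712)))) (b (l 4) (b (b (l 4) (a (a (a (b (b (l 165054249655) (l 131231384215)) (l 16777304)) (b (l 301956333335) (b (l 148948124359)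 (l 16777264)))) (a (b (l 4) (b (l 4) (l 169349218919))) (l 4))) (l 4))) (b (a (a (l 16777424) (a (l 16777336) (b (b (l 191360926199) (l 16777256)) (l 16777320)))) (a (a (b (c (l 240216178535) (l 246121758519)) (c (l 16777272) (c (l 16777272) (l 67343745511)))) (b (l 4) (b (a (a (l 142505671991) (l 4)) (l 4)) (a (l 16777248) (l 163980509655))))) (c (l 304640687719) (l 308398783959)))) (a (l 16777576) (a (l 16777384) (b (b (a (a (l 80765518199) (l 195655893351)) (l 4)) (a (l 16777264) (a (c (l 16777216) (l 139821318631)) (b (l 4) (l 140358188439))))) (c (l 16777320) (c (l 16777312) (l 16777312))))))))))), by decide +kernel⟩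

def k10_pm_123_t : ∃ t, chk3 f_pm_123_t t 245 105 1 = true :=
  ⟨(a (c (l 16779672) (l 16778192)) (a (c (l 16777632) (l 16777856)) (c (b (c (l 16777360) (l 16777336)) (l 16778880)) (b (c (l 16777312) (b (l 16777088) (l 16778144))) (l 16778776))))), by decide +kernel⟩

def k11_pm_123_t : ∃ t, chk3 f_pm_123_t t 122 53 1 = true :=
  ⟨(b (a (c (l 16782720) (l 16777048)) (a (l 16777984) (c (l 16777832) (l 16777640)))) (a (l 16784176) (a (l 16782976) (l 16782088)))), by decide +kernel⟩

def k12_pm_123_t : ∃ t, chk3 f_pm_123_t t 246 104 1 = true :=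
  ⟨(b (l 4) (b (l 4) (b (l 4) (b (l 4) (a (a (a (a (b (b (c (l 284239593303) (l 289071431447)) (a (a (l 130157641991) (l 158611799335)) (l 4))) (a (a (l 16777264) (c (l 16777240) (l 71638712695))) (b (l 4) (a (l 173107314999) (l 4))))) (l 4)) (l 4)) (l 4)) (l 4)))))), by decide +kernel⟩

def k13_pm_123_t : ∃ t, chk3 f_pm_123_t t 984 210 1 = true :=
  ⟨(a (a (b (b (a (l 16777376) (a (l 35131490135) (b (b (b (l 195655893255) (l 16777232)) (l 16777272)) (l 16777352)))) (l 16776904)) (l 16777872)) (b (b (b (b (c (l 274575916871) (c (l 281018367767) (l 283165851367))) (a (a (l 61975036167) (b (a (l 152169348679) (l 4)) (l 138210705751))) (l 294977011543))) (b (a (l 16777280) (a (c (l 16777232) (l 72712454519)) (b (l 4) (l 177939153207)))) (l 45868908791))) (l 16777432)) (l 16777096))) (b (b (a (b (l 4) (a (a (b (l 4) (b (l 201561473239) (l 16777232))) (c (l 271354691447) (l 278334013255))) (l 4))) (l 4)) (b (a (a (c (l 16777288) (l 35131489943)) (a (b (b (l 155390573911)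 (l 142505673031)) (l 16777256)) (b (l 299271978887) (a (l 16777240) (l 145726898583))))) (a (a (b (l 4) (b (l 4) (l 183844733239))) (l 4)) (l 4))) (a (l 16777352) (a (a (l 16777272) (b (a (l 131768254823) (l 181697249623)) (l 16777272))) (b (l 270817820535) (a (l 66270003511) (b (l 161296153943) (l 150021865831)))))))) (a (l 16777296) (c (l 16777504) (l 16777160))))), by decide +kernel⟩

def k14_pm_123_t : ∃ t, chk3 f_pm_123_t t 985 210 1 = true :=
  ⟨(b (l 4) (a (b (b (a (a (b (b (a (l 170959831351) (l 4)) (a (l 16777240) (l 195119022343))) (l 16777264)) (a (b (l 4) (a (l 138747576695) (b (l 4) (l 16777216)))) (l 285850206023))) (l 4)) (a (a (l 16777344) (a (l 16777296) (c (l 16777264) (l 55532585303)))) (a (a (b (b (l 160222412071) (l 159148671335)) (l 16777256)) (b (l 4) (a (l 16777240) (l 160759284103)))) (c (l 268670336855) (c (l 275649658663) (l 278334013191)))))) (a (l 16777472) (b (a (l 16777320) (a (l 52848230679) (b (b (l 152169348503) (l 16777224)) (l 16777264))))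 (l 16777392)))) (a (b (l 4) (a (b (b (l 292292656999) (a (c (l 16777240) (l 71638712695)) (b (l 4) (l 172033573175)))) (l 16777296)) (b (l 4) (b (a (a (l 73786196247) (l 170959831431)) (b (l 4) (l 149484993943))) (l 57680068903))))) (b (l 4) (b (l 4) (a (a (b (l 4) (b (l 155390573911) (l 142505673047))) (l 301956333367)) (l 4))))))), by decide +kernel⟩

def k15_pm_123_t : ∃ t, chk3 f_pm_123_t t 492 211 1 = true :=
  ⟨(b (a (l 16777456) (a (l 16777400) (b (a (l 16777424) (b (a (a (l 16777288) (a (l 16777264) (b (l 146800640407) (l 16777272)))) (a (b (b (l 4) (l 185992216887)) (l 16777248)) (b (l 4) (a (l 135526351239) (l 186529087831))))) (l 16777344))) (l 16777576)))) (a (l 16777232) (l 16777616))), by decide +kernel⟩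

def k16_pm_123_t : ∃ t, chk3 f_pm_123_t t 493 105 1 = true :=
  ⟨(b (l 4) (a (a (b (b (a (b (c (l 293366398711) (l 296587624087)) (b (a (a (l 68417487159) (b (l 159685541159) (l 157001187687))) (l 4)) (a (l 16777272) (a (c (l 16777224) (l 140895060391)) (b (l 4) (l 208003924183)))))) (l 4)) (a (c (l 16777376) (c (l 16777376) (l 16777368))) (b (b (a (a (b (l 152169348487) (l 16777224)) (a (l 161833024711) (l 4))) (l 4)) (a (c (l 16777256) (l 61975036231)) (a (b (l 4) (l 175254798647)) (l 4)))) (a (l 16777328) (a (l 16777280) (b (a (l 76470550855) (l 174717927815)) (l 16777272))))))) (c (l 16777648) (l 16776968))) (a (b (a (b (l 4) (b (l 4) (b (l 268133465975) (a (l 16777240) (b (l 157538057559) (l 148948124023)))))) (l 4)) (b (b (b (a (l 16777272) (b (c (l 209077666151) (l 208003924311)) (a (l 16777240) (l 198877118727)))) (l 49090134263)) (l 16777376)) (l 16777544))) (b (l 4) (b (b (a (a (b (l 4) (b (l 150021864855) (l 16777232))) (l 293366398791)) (l 4)) (a (c (l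 16777280) (c (l 16777280) (l 52311359831))) (a (b (b (l 4) (l 169886089527)) (l 16777256)) (b (l 4) (c (l 16777216) (l 151095607783)))))) (l 16777408))))) (a (b (l 4) (b (a (c (l 294977011319) (c (l 296587623943) (b (l 4) (l 293903269511)))) (l 4)) (b (a (b (a (a (l 16777248) (c (l 16777200) (l 186529087863))) (l 4)) (a (l 16777280) (c (l 166127993463) (a (l 134989480375) (l 223573180135))))) (l 4)) (a (c (l 16777328) (l 16777320)) (a (b (a (b (l 150021864855) (l 16777232)) (a (l 160222411975) (l 4))) (c (l 16777256) (l 61438165319))) (a (b (l 4) (a (l 185455346007) (l 153779961047))) (l 4))))))) (l 4)))), by decide +kernel⟩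

def k17_pm_123_t : ∃ t, chk3 f_pm_123_t t 247 52 1 = true :=
  ⟨(l 4), by decide +kernel⟩

def k18_pm_123_t : ∃ t, chk3 f_pm_123_t t 246 53 1 = true :=
  ⟨(b (a (c (l 16778128) (c (l 16778040) (l 16778312))) (a (b (c (l 16777528) (c (l 16776832) (l 16777472))) (l 16777728)) (a (b (b (b (a (l 16777488) (a (l 16777384) (a (l 16777336) (b (a (l 61438165335) (b (l 173107315079) (l 16777264))) (l 16777352))))) (l 16777640)) (l 16777312)) (l 16777328)) (b (b (b (a (a (b (b (l 267596595063) (a (l 16777248) (c (l 16777200) (l 189213442423)))) (l 16777304)) (b (l 4) (b (a (l 134989480359) (b (l 4) (l 202635215063))) (l 16777264)))) (a (b (l 4) (a (b (l 4) (b (l 151632477591) (l 16777224))) (l 298735107911))) (l 4))) (b (a (l 16777376) (a (c (l 16777280) (c (l 16777280) (l 54458843511))) (a (b (l 210151407975) (l 16777248)) (b (l 4) (c (l 16777208) (l 157538058711)))))) (l 16777096))) (c (l 16777712) (l 16777688))) (l 16778368))))) (c (a (l 16781240) (l 16780176)) (a (l 16775800)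 (l 16778744)))), by decide +kernel⟩

def k19_pm_123_t : ∃ t, chk3 f_pm_123_t t 494 106 1 = true :=
  ⟨(b (b (b (l 4) (a (a (a (b (c (l 295513882359) (l 299271978647)) (a (a (l 59290681703) (b (l 192434667895) (l 16777256))) (a (b (l 4) (l 142505673207)) (l 266522853223)))) (l 4)) (l 4)) (l 4))) (a (a (b (a (c (l 16777384) (l 31910264455)) (a (b (c (l 151632479175) (b (a (l 181160378743) (l 162906766231)) (l 66270003607))) (l 16777328)) (b (c (l 263301627735) (l 271354691367)) (a (l 16777280) (b (l 164517380567) (l 16777264)))))) (l 16777200)) (a (b (b (l 4) (b (l 298735107847) (a (a (l 16777400) (l 206393311591)) (l 4)))) (a (l 16777352) (b (b (a (l 153243091431) (c (l 154316831879) (l 158074928231))) (l 16777256)) (l 16777336)))) (b (l 4) (a (b (a (b (l 4) (l 188676571591)) (l 4)) (a (l 16777288) (b (l 143042544119) (l 16777280)))) (b (l 4) (b (c (l 152169347783) (l 269207207783)) (a (l 16777248) (l 178476024279)))))))) (a (b (l 4) (l 4)) (l 4)))) (a (b (c (l 16777080)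 (c (l 16777064) (l 16777056))) (l 16778168)) (a (b (a (b (a (b (b (b (l 208003924327) (l 143579415111)) (l 16777264)) (l 16777344)) (b (a (b (l 4) (l 168812347863)) (l 301419462471)) (c (l 16777280) (l 57143198087)))) (l 16777480)) (b (b (l 4) (a (a (b (l 213372633447) (l 16777248)) (b (l 4) (l 159148671447))) (l 296050753303))) (b (a (l 16777320) (a (l 61438165351) (b (l 201561473383) (l 16777256)))) (l 16777392)))) (l 16777416)) (b (b (l 4) (a (b (a (a (b (l 4) (l 147874382391)) (l 282628980567)) (l 4)) (a (l 16777368) (a (b (l 188676571591) (l 16777256)) (b (l 4) (l 143579415031))))) (c (l 298198236791) (c (l 302493203975) (l 302493203911))))) (b (a (l 16777416) (b (a (a (l 16777272) (b (l 180623507927) (l 16777264))) (a (b (l 4) (l 135526351271)) (l 261691015015))) (l 16777328))) (l 16777568)))))), by decide +kernel⟩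

def k20_pm_123_t : ∃ t, chk3 f_pm_123_t t 494 107 1 = true :=
  ⟨(b (a (l 16778848) (b (l 16777728) (l 16777192))) (l 16778816)), by decide +kernel⟩

def k21_pm_123_t : ∃ t, chk3 f_pm_123_t t 495 53 1 = true :=
  ⟨(b (a (b (l 4) (b (l 4) (b (b (l 4) (a (a (a (b (a (l 174717927895) (l 161296153527)) (l 70028100039)) (a (l 254174822263) (l 4))) (l 4)) (l 4))) (a (a (a (l 16777384) (a (l 16777336) (b (b (l 167738606039) (l 16777264)) (l 16777352)))) (a (b (a (b (l 159685540791) (l 16777232)) (l 248269242231)) (l 16777296)) (b (l 4) (b (a (l 161833026007) (l 160759282631)) (l 16777256))))) (a (c (l 284776464007) (c (l 290682043943) (b (l 4) (l 283702722215)))) (l 4)))))) (l 4)) (a (b (a (b (a (l 16777688) (l 16777216)) (l 16776760)) (b (b (b (a (a (c (l 16777272) (c (l 16777272) (l 64659390999))) (b (l 287997689703) (a (l 16777240) (l 202635215207)))) (l 4)) (a (l 16777336) (a (b (a (l 152706220519) (l 154853702679)) (l 16777264)) (c (l 248269242791) (l 255785434935)))))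 (a (l 16777512) (a (l 16777400) (a (l 16777344) (b (l 72712454727) (l 16777360)))))) (l 16777776))) (l 16777952)) (b (b (b (l 4) (a (b (a (b (l 291755785991) (a (c (l 16777208) (l 151632478935)) (l 4))) (l 4)) (a (a (l 16777304) (a (l 72175583815) (b (l 152706219047) (l 16777248)))) (c (l 262227885847) (c (l 270817820391) (c (l 275649658567) (l 277797142183)))))) (l 4))) (b (b (a (a (l 16777384) (a (c (l 16777280) (l 64122520087)) (c (l 181697250055) (b (a (l 155390573671) (l 4)) (l 149484995287))))) (l 4)) (a (l 16777424) (a (a (a (l 70564970999) (b (l 153243090039) (l 16777248))) (a (b (l 4) (l 185992217031)) (l 4))) (l 4)))) (a (l 16777592) (b (a (c (l 16777312) (l 58216940087)) (b (l 282092109591) (a (l 146263769831) (l 4)))) (a (l 16777424) (a (l 16777312) (a (l 70564970999) (a (l 146263769831) (l 176328540823))))))))) (c (l 16777376) (c (l 16776704) (b (l 16777120) (l 16776920))))))), by decide +kernel⟩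

def k22_pm_123_t : ∃ t, chk3 f_pm_123_t t 61 27 1 = true :=
  ⟨(a (b (a (b (l 16785896) (l 16787672)) (b (l 16779048) (l 16786104))) (a (b (l 16789544) (l 16801808)) (l 16789176))) (b (a (a (b (l 16782920) (l 16784760)) (b (l 16776672) (l 16783768))) (b (a (l 16779536) (c (l 16778432) (b (l 16779208) (l 16777504)))) (a (l 16777472) (c (l 16781640) (l 16776304))))) (a (c (l 16776896) (l 16779264)) (b (l 16784112) (l 16780880))))), by decide +kernel⟩

def k23_pm_123_t : ∃ t, chk3 f_pm_123_t t 30 7 1 = true :=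
  ⟨(b (a (b (a (b (l 16796480) (l 16800168)) (b (l 16795032) (l 16798400))) (a (b (l 16804144) (l 16808152)) (b (l 16801880) (l 16805400)))) (b (a (b (a (l 16793656) (l 16792280)) (l 16785560)) (b (a (b (l 16790392) (l 16791760)) (b (l 16777696) (l 16790264))) (a (l 16793944) (l 16792104)))) (a (b (l 16799088) (l 16802048)) (b (l 16795680) (l 16777200))))) (b (b (a (a (l 16812376) (l 16808896)) (b (l 16802080) (l 16803432))) (a (a (l 16816936) (l 16812784)) (a (l 16808128) (b (l 16802272) (l 16803704))))) (a (b (a (l 16821088) (l 16816384)) (a (l 16824560) (l 16819296))) (b (a (l 16811216) (b (l 16805016) (l 16806184))) (a (l 16813632) (b (l 16807168) (l 16807960))))))), by decide +kernel⟩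

def k24_pm_123_t : ∃ t, chk3 f_pm_123_t t 62 12 1 = true :=
  ⟨(l 4), by decide +kernel⟩

def k25_pm_123_t : ∃ t, chk3 f_pm_123_t t 62 26 1 = true :=
  ⟨(a (b (l 4) (a (a (b (l 4) (b (a (a (a (b (l 4) (a (b (l 4) (b (l 4) (c (l 241826791911) (l 248806113095)))) (l 4))) (l 4)) (l 4)) (l 4)) (a (a (b (b (b (a (a (l 66270003751) (b (a (l 151632477223) (l 4)) (l 147337511655))) (l 4)) (a (l 16777344) (a (b (l 177939153559) (l 16777264)) (c (l 243974275511) (l 251490467655))))) (a (l 16777520) (a (l 16777408) (b (l 67343745575) (l 16777384))))) (l 16777792)) (b (b (l 4) (b (a (b (l 291218915079) (a (l 149484995287) (l 4))) (l 4)) (a (a (l 16777304) (b (l 182234120839) (l 16777264))) (c (l 267596594967) (c (l 276186529495) (l 280481496743)))))) (b (b (a (l 16777384) (a (l 69491229303) (b (a (l 154316831767) (l 4)) (l 154316833495)))) (l 16777424)) (l 16777592)))) (b (l 4) (b (b (l 4) (a (a (a (b (l 188676571735) (l 16777264)) (l 256322305863)) (l 4)) (l 4))) (a (b (a (c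 (l 16777312) (l 61438165607)) (b (l 306251300599) (a (l 160759284423) (l 4)))) (a (l 16777416) (a (l 16777304) (b (l 197266506327) (l 16777256))))) (a (c (l 299271978615) (l 304103816695)) (l 4)))))))) (l 4)) (l 4))) (l 4)), by decide +kernel⟩

def k26_pm_123_t : ∃ t, chk3 f_pm_123_t t 248 54 1 = true :=
  ⟨(a (b (a (b (c (l 16778344) (l 16777008)) (l 16776640)) (b (a (c (l 16777872) (l 16777040)) (b (b (b (a (a (l 73249325751) (b (l 162906765799) (l 168812348103))) (l 4)) (a (l 16777336) (a (a (l 131768255207) (l 188139700903)) (l 286387076903)))) (a (l 16777512) (a (l 16777392) (b (l 77007422231) (l 16777368))))) (l 16777784))) (l 16777984))) (c (l 16780416) (l 16779056))) (a (b (a (b (b (b (l 4) (a (a (b (b (l 4) (l 182234120839)) (l 16777296)) (b (l 4) (a (l 141968802631) (a (l 188676571751) (l 147874380503))))) (l 313230622231))) (b (a (l 16777424) (b (a (c (l 16777248) (l 78618034983)) (b (l 4) (l 197803377239))) (l 16777328))) (l 16777576))) (l 16777512)) (b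 (b (l 4) (b (b (l 4) (a (a (b (l 151095605863) (l 16777552)) (l 321820557063)) (l 4))) (b (a (a (l 16777320) (a (l 16777264) (l 159685542679))) (c (l 265985982231) (l 274039045831))) (a (l 16777392) (a (l 16777280) (c (l 188676571895) (l 194582151895))))))) (c (l 16777848) (c (l 16777840) (l 16777184))))) (b (l 16778952) (l 16777304))) (b (b (l 4) (a (b (b (b (a (a (c (l 16777208) (l 152169350087)) (l 267596595015)) (l 4)) (a (l 68417487623) (a (c (l 205856441047) (l 212835762871)) (l 4)))) (a (l 16777480) (a (l 16777352) (a (l 70564971335) (b (l 133915738087) (l 16777312)))))) (l 16777752)) (b (b (l 4) (a (b (l 309472526007) (a (l 80765518711) (l 228405019303))) (l 4))) (b (a (l 16777384) (a (b (a (l 154853704471) (l 143579413031)) (l 16777312)) (b (l 4) (l 142505673783)))) (l 16777536))))) (b (a (l 16778464) (l 16777480)) (l 16779264))))), by decide +kernel⟩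

def k27_pm_123_t : ∃ t, chk3 f_pm_123_t t 249 54 1 = true :=
  ⟨(b (b (l 4) (b (l 4) (a (a (a (b (a (c (l 294977011335) (l 298735107591)) (l 4)) (a (a (l 16777336) (b (l 197803377527) (l 16777304))) (a (b (l 4) (l 155927446615)) (l 310009396871)))) (l 4)) (l 4)) (l 4)))) (a (a (b (b (b (a (c (l 16777448) (c (l 16777448) (l 58216940391))) (a (b (c (l 149484991815) (l 258469789415)) (a (l 16777288) (l 179012895639))) (l 4))) (a (l 16777672) (b (a (l 16777360) (a (l 144116286519) (a (l 150021863879) (l 4)))) (l 63585649511)))) (c (l 16777864) (l 16776552))) (l 16777608)) (b (b (a (a (a (b (l 4) (b (l 4) (l 204782699223))) (l 4)) (l 4)) (l 4)) (b (a (a (a (l 16777360) (b (l 163980510199) (l 16777328))) (a (b (l 309472526103) (l 16777240)) (l 268670336727))) (l 4)) (a (l 62511907735) (a (a (b (l 190287184775) (l 16777312)) (b (l 4) (l 151095608423))) (l 312693751335))))) (b (b (a (l 16777704) (a (l 16777448) (a (l 16777328) (b (l 224110052023) (l 16777288))))) (l 16777120))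 (l 16778136)))) (b (l 4) (a (b (a (b (a (a (b (l 4) (l 180623508375)) (l 4)) (l 4)) (b (a (l 79691777207) (l 286923947735)) (a (l 16777392) (a (l 16777264) (l 215520117447))))) (l 4)) (a (l 16776952) (b (a (b (a (l 175254799271) (l 331484233463)) (l 78081164391)) (l 303566945847)) (a (l 16777456) (a (l 16777336) (b (l 212298891975) (l 16777296))))))) (b (l 4) (a (a (a (b (l 4) (a (l 205319570503) (l 259006660375))) (l 335242329399)) (l 4)) (l 4))))))), by decide +kernel⟩

def k28_pm_123_t : ∃ t, chk3 f_pm_123_t t 124 55 1 = true :=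
  ⟨(a (b (a (l 16782352) (c (l 16781080) (l 16781072))) (a (l 16773872) (l 16783064))) (a (b (a (l 16778752) (c (l 16779360) (l 16778064))) (l 16779072)) (b (a (b (c (l 16778160) (l 16776848)) (l 16779136)) (b (b (b (a (a (l 71101842519) (a (a (l 152706221479) (l 191360926903)) (l 251490467575))) (l 4)) (a (l 16777496) (a (a (l 83986744775) (b (l 167201732263) (l 16777216))) (l 310009396791)))) (a (l 16777856) (a (l 16777584) (a (l 16777448) (b (a (l 137136964871) (l 169886090519)) (l 16777472)))))) (c (l 16778400) (l 16778416)))) (c (l 16777624) (c (l 16777648) (l 16777672)))))), by decide +kernel⟩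

def k29_pm_123_t : ∃ t, chk3 f_pm_123_t t 125 27 1 = true :=
  ⟨(b (l 4) (a (a (b (b (b (l 4) (a (a (a (b (a (b (l 4) (l 182770992023)) (l 4)) (l 73786197239)) (b (l 4) (b (l 307861913271) (l 168812348775)))) (l 4)) (l 4))) (b (a (a (l 16777608) (b (a (a (l 143579416199) (b (l 4) (l 16777192))) (l 331484233223)) (a (l 16777448) (b (l 178476025207) (l 16777328))))) (a (c (l 308398783735) (b (l 4) (c (l 297661365607) (l 303030074631)))) (l 4))) (a (l 16776592) (b (a (a (l 78618035767) (a (l 199950861623) (l 314304364183))) (l 4)) (a (l 16777464) (a (a (l 161833027111) (b (l 4) (l 199413990279))) (l 4))))))) (b (a (l 16777328) (a (l 16778072) (a (l 16777784) (b (a (l 73249326615) (b (l 195119023431) (l 16777416))) (l 16777832))))) (c (l 16779232) (l 16777296)))) (b (l 4) (a (b (b (a (b (l 326115523895) (a (a (l 16777336) (l 160222414391)) (l 259006660263))) (l 4)) (a (c (l 16777552) (l 67880617543)) (a (b (a (l 195655894343) (l 310546267815)) (l 16777384)) (a (b (l 4)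 (l 162369898023)) (a (l 279944625703) (l 332557974951)))))) (c (l 16778072) (l 16776776))) (b (l 4) (b (a (a (a (l 73786197495) (b (l 202098345271) (l 16777416))) (b (l 331484233239) (l 144653158519))) (c (l 317525589223) (b (l 4) (l 307325041959)))) (a (l 16777728) (a (l 74323068695) (b (l 239679309207) (l 16777360))))))))) (a (a (a (a (b (l 4) (b (l 4) (b (l 4) (c (l 247732371047) (b (l 4) (l 215520118311)))))) (l 4)) (l 4)) (l 4)) (l 4)))), by decide +kernel⟩

def k30_pm_123_t : ∃ t, chk3 f_pm_123_t t 63 6 1 = true :=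
  ⟨(l 4), by decide +kernel⟩

def k31_pm_123_t : ∃ t, chk3 f_pm_123_t t 124 14 1 = true :=
  ⟨(b (b (a (b (l 16785736) (l 16787776)) (b (a (l 16783704) (l 16782248)) (c (l 16784920) (l 16779840)))) (a (b (a (l 16790256) (l 16789240)) (l 16790928)) (b (l 16786992) (a (l 16789424) (l 16788312))))) (b (a (l 16792752) (b (l 16789968) (l 16791112))) (l 16793784))), by decide +kernel⟩

def k32_pm_123_t : ∃ t, chk3 f_pm_123_t t 125 14 1 = true :=
  ⟨(b (a (b (a (b (c (l 16780704) (l 16778152)) (l 16782720)) (b (a (c (l 16779536) (l 16776968)) (b (l 16776952) (l 16779240))) (c (l 16781072) (l 16778560)))) (b (a (l 16784696) (l 16783080)) (a (l 16786664) (l 16785024)))) (a (b (a (b (b (a (a (l 16777760) (b (c (l 88281713671) (b (l 189750314775) (l 16777432))) (l 16777792))) (a (b (b (l 4) (l 165054253063)) (l 16777592)) (b (l 346516618471) (c (l 16777376) (l 76470552727))))) (l 16777112)) (l 16777264)) (b (b (b (l 4) (a (b (l 314304363879) (a (l 16777280) (l 255785436455)))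 (l 4))) (b (a (l 16778224) (a (b (l 228941891095) (l 16777368)) (b (l 4) (l 206393313015)))) (l 16776520))) (c (l 16779024) (l 16776456)))) (b (c (l 16781336) (l 16778776)) (l 16783168))) (b (b (b (l 4) (b (l 4) (a (a (a (b (l 187065960391) (l 16777424)) (b (l 4) (l 171496703975))) (l 363159616423)) (l 4)))) (b (a (b (a (l 16777680) (a (l 81839262359) (b (l 329336749607) (l 16777232)))) (l 16777952)) (a (a (b (l 327189265719) (l 16777400)) (b (l 4) (b (l 271354692871) (l 16777296)))) (a (b (l 4) (l 287460819655)) (l 4)))) (a (l 16778672) (a (l 16778024) (a (l 16777696) (b (b (l 234847471111) (l 16777352)) (l 16777712))))))) (a (b (l 16777464) (l 16781808)) (b (a (l 16779416) (l 16776352)) (l 16780912)))))) (b (b (a (a (c (l 16788096) (l 16793704)) (c (l 16786680) (l 16791632))) (a (l 16784744) (l 16782928))) (b (a (l 16788400) (a (l 16785824) (l 16784016))) (a (l 16789024) (a (l 16786800) (l 16789896))))) (a (l 16790168) (a (l 16788256) (a (l 16787232) (b (l 16790752)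 (l 16786960))))))), by decide +kernel⟩

def k33_pm_123_t : ∃ t, chk3 f_pm_123_t t 62 15 1 = true :=
  ⟨(b (a (b (l 16795704) (l 16797600)) (b (a (l 16791824) (l 16789096)) (a (l 16793352) (l 16790448)))) (b (a (l 16799744) (b (l 16793024) (l 16793808))) (a (b (l 16785208) (a (l 16803144) (l 16799840))) (b (l 16794392) (a (l 16796464) (l 16793032)))))), by decide +kernel⟩

def k34_pm_123_t : ∃ t, chk3 f_pm_123_t t 126 28 1 = true :=
  ⟨(a (b (b (l 4) (b (l 4) (a (a (a (a (b (c (l 261154146279) (l 270817822695)) (l 16777488)) (b (l 4) (a (l 16777296) (l 172570446423)))) (a (a (b (l 4) (l 228405020775)) (l 349200972663)) (l 4))) (l 4)) (l 4)))) (b (a (a (a (l 16776560) (b (a (l 16777744) (a (l 16777568) (b (l 161833028247) (l 16777704)))) (l 16778536))) (b (a (a (b (a (l 214446377239) (l 292292656647)) (l 16777536)) (b (l 4) (l 88281713815))) (a (b (l 4) (b (l 4) (l 175254800503))) (l 387855677991))) (a (l 16778096) (c (l 16778952) (b (l 80765521127) (l 16777864))))))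 (b (l 4) (a (b (a (a (b (l 387318807991) (l 16778472)) (l 388392549527)) (l 4)) (a (l 83449875879) (a (b (l 386781937079) (l 16778472)) (l 391613774983)))) (l 4)))) (a (a (l 16777400) (c (l 16779168) (l 16776488))) (a (a (l 16776528) (b (b (l 83986746951) (l 16777856)) (l 16778464))) (b (b (a (a (b (l 394835000743) (l 16778464)) (l 4)) (l 4)) (a (l 84523617991) (a (c (l 231626246727) (l 240753052263)) (l 4)))) (a (l 16778032) (c (l 16779224) (b (l 83986747159) (l 16777792))))))))) (b (l 4) (b (l 4) (b (l 4) (a (a (a (a (b (c (l 246658632055) (l 257396050311)) (l 16777480)) (b (l 4) (l 155927448903))) (a (b (l 4) (l 272428435767)) (l 4))) (l 4)) (l 4)))))), by decide +kernel⟩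

def k35_pm_123_t : ∃ t, chk3 f_pm_123_t t 126 29 1 = true :=
  ⟨(b (a (a (b (c (l 16781216) (l 16778448)) (l 16782576)) (a (b (l 16779840) (l 16781264)) (b (c (l 16779008) (l 16778944)) (l 16780408)))) (a (b (a (b (a (l 16777960) (a (l 16777632) (b (l 169349221767) (l 16777616)))) (l 16778496)) (b (a (a (b (l 304640687511) (l 16777392)) (b (l 4) (c (l 188676574215) (l 197803379623)))) (b (l 4) (l 368528325559))) (a (l 16777856) (a (l 16778832) (b (b (l 169349212615) (l 16777176)) (l 14)))))) (a (l 16776928) (l 14))) (b (b (l 4) (b (b (l 4) (l 14)) (l 14))) (l 14)))) (a (a (a (b (b (l 16783968) (l 16784832)) (l 16786088)) (l 14)) (l 14)) (l 14))), by decide +kernel⟩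

def k36_pm_123_t : ∃ t, chk3 f_pm_123_t t 127 14 1 = true :=
  ⟨(b (l 4) (b (b (l 4) (l 14)) (l 14))), by decide +kernel⟩

def k37_pm_123_t : ∃ t, chk3 f_pm_123_t t 63 15 1 = true :=
  ⟨(a (a (a (b (b (l 16786984) (l 16788208)) (b (l 16789376) (b (l 16790160) (l 16790432)))) (l 14)) (l 14)) (l 14)), by decide +kernel⟩

theorem s38_pm_123_t : ∃ t, chk3 f_pm_123_t t 126 14 1 = true := ex3_b k34_pm_123_t k35_pm_123_t

theorem s39_pm_123_t : ∃ t, chk3 f_pm_123_t t 63 14 1 = true := ex3_a s38_pm_123_t k36_pm_123_t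

theorem s40_pm_123_t : ∃ t, chk3 f_pm_123_t t 63 7 1 = true := ex3_b s39_pm_123_t k37_pm_123_t

theorem s41_pm_123_t : ∃ t, chk3 f_pm_123_t t 62 14 1 = true := ex3_a k31_pm_123_t k32_pm_123_t

theorem s42_pm_123_t : ∃ t, chk3 f_pm_123_t t 62 7 1 = true := ex3_b s41_pm_123_t k33_pm_123_t

theorem s43_pm_123_t : ∃ t, chk3 f_pm_123_t t 31 7 1 = true := ex3_a s42_pm_123_t s40_pm_123_t

theorem s44_pm_123_t : ∃ t, chk3 f_pm_123_t t 124 54 1 = true := ex3_a k26_pm_123_t k27_pm_123_t

theorem s45_pm_123_t : ∃ t, chk3 f_pm_123_t t 124 27 1 = true := ex3_b s44_pm_123_t k28_pm_123_t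

theorem s46_pm_123_t : ∃ t, chk3 f_pm_123_t t 62 27 1 = true := ex3_a s45_pm_123_t k29_pm_123_t

theorem s47_pm_123_t : ∃ t, chk3 f_pm_123_t t 62 13 1 = true := ex3_b k25_pm_123_t s46_pm_123_t

theorem s48_pm_123_t : ∃ t, chk3 f_pm_123_t t 62 6 1 = true := ex3_b k24_pm_123_t s47_pm_123_t

theorem s49_pm_123_t : ∃ t, chk3 f_pm_123_t t 31 6 1 = true := ex3_a s48_pm_123_t k30_pm_123_t

theorem s50_pm_123_t : ∃ t, chk3 f_pm_123_t t 31 3 1 = true := ex3_b s49_pm_123_t s43_pm_123_t

theorem s51_pm_123_t : ∃ t, chk3 f_pm_123_t t 494 53 1 = true := ex3_b k19_pm_123_t k20_pm_123_t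

theorem s52_pm_123_t : ∃ t, chk3 f_pm_123_t t 247 53 1 = true := ex3_a s51_pm_123_t k21_pm_123_t

theorem s53_pm_123_t : ∃ t, chk3 f_pm_123_t t 123 53 1 = true := ex3_a k18_pm_123_t s52_pm_123_t

theorem s54_pm_123_t : ∃ t, chk3 f_pm_123_t t 492 210 1 = true := ex3_a k13_pm_123_t k14_pm_123_t

theorem s55_pm_123_t : ∃ t, chk3 f_pm_123_t t 492 105 1 = true := ex3_b s54_pm_123_t k15_pm_123_t

theorem s56_pm_123_t : ∃ t, chk3 f_pm_123_t t 246 105 1 = true := ex3_a s55_pm_123_t k16_pm_123_t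

theorem s57_pm_123_t : ∃ t, chk3 f_pm_123_t t 246 52 1 = true := ex3_b k12_pm_123_t s56_pm_123_t

theorem s58_pm_123_t : ∃ t, chk3 f_pm_123_t t 123 52 1 = true := ex3_a s57_pm_123_t k17_pm_123_t

theorem s59_pm_123_t : ∃ t, chk3 f_pm_123_t t 123 26 1 = true := ex3_b s58_pm_123_t s53_pm_123_t

theorem s60_pm_123_t : ∃ t, chk3 f_pm_123_t t 245 52 1 = true := ex3_b k9_pm_123_t k10_pm_123_t

theorem s61_pm_123_t : ∃ t, chk3 f_pm_123_t t 122 52 1 = true := ex3_a k8_pm_123_t s60_pm_123_t

theorem s62_pm_123_t : ∃ t, chk3 f_pm_123_t t 122 26 1 = true := ex3_b s61_pm_123_t k11_pm_123_t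

theorem s63_pm_123_t : ∃ t, chk3 f_pm_123_t t 61 26 1 = true := ex3_a s62_pm_123_t s59_pm_123_t

theorem s64_pm_123_t : ∃ t, chk3 f_pm_123_t t 61 13 1 = true := ex3_b s63_pm_123_t k22_pm_123_t

theorem s65_pm_123_t : ∃ t, chk3 f_pm_123_t t 30 13 1 = true := ex3_a k7_pm_123_t s64_pm_123_t

theorem s66_pm_123_t : ∃ t, chk3 f_pm_123_t t 30 12 1 = true := ex3_a k5_pm_123_t k6_pm_123_t

theorem s67_pm_123_t : ∃ t, chk3 f_pm_123_t t 30 6 1 = true := ex3_b s66_pm_123_t s65_pm_123_t

theorem s68_pm_123_t : ∃ t, chk3 f_pm_123_t t 30 3 1 = true := ex3_b s67_pm_123_t k23_pm_123_t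

theorem s69_pm_123_t : ∃ t, chk3 f_pm_123_t t 15 3 1 = true := ex3_a s68_pm_123_t s50_pm_123_t

theorem s70_pm_123_t : ∃ t, chk3 f_pm_123_t t 7 3 1 = true := ex3_a k4_pm_123_t s69_pm_123_t

theorem s71_pm_123_t : ∃ t, chk3 f_pm_123_t t 3 3 1 = true := ex3_a k3_pm_123_t s70_pm_123_t

theorem s72_pm_123_t : ∃ t, chk3 f_pm_123_t t 3 2 1 = true := ex3_a k1_pm_123_t k2_pm_123_t

theorem s73_pm_123_t : ∃ t, chk3 f_pm_123_t t 3 1 1 = true := ex3_b s72_pm_123_t s71_pm_123_t

theorem s74_pm_123_t : ∃ t, chk3 f_pm_123_t t 1 1 1 = true := ex3_a k0_pm_123_t s73_pm_123_t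

theorem c_pm_123_t : CertNE 536870912 536870912 0 536870912 587336777 62277027 3 eng mog cd0q1 cd0q2 pd3 true true false .npn 1 2 3
    ndB0q1 ndB0q2 pcB3 cut_pm_123_t Ext.none :=
  certNE2 (fam := true) (s1 := true) (s2 := false) (a := 1) (b := 2) (c := 3) (cn := .npn) (n1 := ndB0q1) (n2 := ndB0q2) (pc := pcB3) (cut := cut_pm_123_t) (xt := Ext.none) (P1 := 536870912) (W1 := 536870912) (P2 := 0) (W2 := 536870912) (P3 := 587336777) (W3 := 62277027) (N0 := 3) (En := eng) (mo := mog) (C1 := cd0q1) (C2 := cd0q2) (C3 := pd3)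
    rfl (fun _ => rfl) s74_pm_123_t

noncomputable def cut_pm_202_s : Cut := Cut.of [[⟨4, 0, 0, 1449551462⟩], [⟨0, 1, 0, 67108864⟩, ⟨1, 0, 0, 67108864⟩, ⟨2, 1, 0, 67108864⟩]]

noncomputable def f_pm_202_s : ℕ → ℕ → ℕ → ℕ → Bool := onCell 0 536870912 1073741824 536870912 587336777 62277027
    (rowNE 3 eng mog cd0q2 cd0q0 pd2 1 true true false .pp 2 0 2 (qsf 0 536870912 0 536870912 2) ndB0q2 ndB0q0 pcB2 cut_pm_202_s Ext.none)

def k0_pm_202_s : ∃ t, chk3 f_pm_202_s t 1 8 1 = true :=
  ⟨(a (l 1) (a (l 1) (a (b (l 1) (a (b (l 1) (b (l 1) (a (l 1) (a (l 16642456) (l 16648904))))) (b (l 14) (b (l 14) (b (l 14) (a (l 16657240) (l 16669288))))))) (b (l 14) (b (l 14) (b (l 14) (b (l 14) (a (a (l 16680912) (l 16692096)) (a (a (l 16698088) (l 16701576)) (a (l 16704864) (c (l 16708992) (l 16706984)))))))))))), by decide +kernel⟩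

def k1_pm_202_s : ∃ t, chk3 f_pm_202_s t 2 9 1 = true :=
  ⟨(l 6), by decide +kernel⟩

def k2_pm_202_s : ∃ t, chk3 f_pm_202_s t 6 9 1 = true :=
  ⟨(a (b (l 1) (l 6)) (b (b (a (l 1) (b (l 1) (a (l 16601224) (l 25803038695)))) (a (b (a (l 1) (l 16586808)) (a (c (l 16577904) (l 16568064)) (c (l 16588752) (l 16580280)))) (a (b (l 38687910583) (l 16596184)) (b (l 16610608) (l 16607280))))) (a (b (a (b (c (l 16575784) (l 16567016)) (l 6)) (b (l 16582608) (l 16580112))) (l 6)) (b (a (b (l 16593296) (l 16590168)) (b (l 16603744) (l 16600000))) (a (c (l 16586752) (l 16582752)) (l 16594056)))))), by decide +kernel⟩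

def k3_pm_202_s : ∃ t, chk3 f_pm_202_s t 14 9 1 = true :=
  ⟨(b (a (b (a (b (c (l 16632512) (l 16625704)) (l 16625792)) (b (l 16646960) (l 16637512))) (a (b (l 16622032) (l 16618064)) (b (l 16633120) (l 16628536)))) (b (a (b (l 16653704) (l 16648856)) (b (a (l 16662400) (l 16668088)) (l 16659824))) (a (b (l 16643856) (l 16638688)) (l 16672344)))) (a (b (a (c (l 16613208) (l 16609784)) (l 16621368)) (c (l 16607640) (l 16606208))) (a (b (l 16630688) (l 16618992)) (b (l 16660048) (l 16646848))))), by decide +kernel⟩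

def k4_pm_202_s : ∃ t, chk3 f_pm_202_s t 15 9 1 = true :=
  ⟨(a (b (b (a (a (l 16670720) (l 16686536)) (b (l 16707680) (l 16699896))) (a (l 16681392) (c (c (l 16710176) (l 16667656)) (l 16667360)))) (a (b (c (l 16646552) (l 16645984)) (c (l 16654416) (l 16631728))) (b (a (l 16692984) (b (l 16657880) (l 16650568))) (b (l 16641944) (l 16634992))))) (b (b (b (a (a (l 16692088) (l 16695496)) (b (a (l 16700752) (c (l 16704912) (l 16702728))) (a (l 16696648) (c (l 16700856) (l 16698472))))) (a (a (l 16705120) (l 16687440)) (b (a (l 16692560) (c (l 16696816) (l 16694240))) (a (l 16688496) (c (l 16692800) (l 16690008)))))) (a (c (b (l 16678792) (l 16671272)) (a (l 16692848) (l 16674688))) (a (b (l 16687688) (l 16674488)) (b (c (b (l 16688808) (l 16684856)) (l 16688952)) (c (b (l 16680944) (l 16682296)) (l 16675424)))))) (a (b (b (a (l 16660984) (l 16663912)) (a (l 16653544) (l 16656344))) (b (c (l 16649544) (l 16646040)) (c (l 16642584) (l 16638560)))) (b (a (b (c (l 16668472)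 (l 16665080)) (c (l 16661032) (l 16657136))) (c (b (a (l 16670600) (c (l 16673152) (l 16670784))) (a (l 16663056) (c (l 16665672) (l 16663048)))) (b (l 16667208) (l 16659136)))) (a (b (c (l 16653736) (l 16649336)) (c (l 16646560) (l 16641656))) (c (a (b (l 16655648) (l 16648368)) (b (c (l 16658320) (l 16655448)) (c (l 16661568) (l 16647968)))) (b (l 16651200) (c (l 16644680) (l 16642152))))))))), by decide +kernel⟩

def k5_pm_202_s : ∃ t, chk3 f_pm_202_s t 2 5 1 = true :=
  ⟨(l 6), by decide +kernel⟩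

def k6_pm_202_s : ∃ t, chk3 f_pm_202_s t 6 5 1 = true :=
  ⟨(b (b (b (a (l 6) (a (l 6) (c (l 16582376) (l 16580592)))) (l 6)) (l 6)) (l 6)), by decide +kernel⟩

def k7_pm_202_s : ∃ t, chk3 f_pm_202_s t 14 5 1 = true :=
  ⟨(b (b (b (a (l 16638928) (a (l 16606992) (l 16676272))) (b (a (l 16589072) (c (l 16602944) (l 16600544))) (a (b (l 16585272) (b (l 16583400) (l 16582160))) (b (l 16639232) (b (l 16616168) (c (l 16616144) (l 16592728))))))) (a (b (l 6) (l 6)) (a (b (l 16584912) (l 6)) (b (l 16611032) (l 16578984))))) (l 6)), by decide +kernel⟩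

def k8_pm_202_s : ∃ t, chk3 f_pm_202_s t 15 20 1 = true :=
  ⟨(b (a (a (b (l 16622520) (l 16616144)) (b (l 16628200) (l 16621544))) (a (b (c (l 16635752) (l 16631232)) (c (l 16629016) (l 16624048))) (a (b (c (l 16639496) (l 16634120)) (c (l 16632528) (l 16626720))) (b (b (c (l 16643520) (l 16637608)) (c (l 16639936) (l 16633792))) (b (c (l 16636376) (l 16630016)) (c (l 16632824) (l 16626280))))))) (b (a (a (l 16609928) (l 16636000)) (a (b (l 16621264) (l 16617888)) (b (a (l 16624208) (c (l 16629288) (l 16622576))) (a (l 16620704) (c (a (l 16625288) (l 16626152)) (l 16618912)))))) (a (b (a (l 16605344) (l 16610216)) (b (a (l 16603080) (l 16607832)) (a (c (l 16624320) (l 16620944)) (a (l 16647032) (c (l 16630448) (l 16626192)))))) (b (a (c (l 16617320) (l 16611888)) (a (c (l 16620368) (l 16614160)) (c (b (l 16623048) (l 16631704)) (b (l 16616208) (l 16614432))))) (b (a (c (l 16614688) (l 16609432)) (a (c (l 16617624) (l 16611624)) (c (b (l 16619816) (b (l 16619080) (l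 16618568))) (b (l 16613128) (b (l 16612488) (l 16612088)))))) (b (a (b (b (l 16611064) (b (l 16610904) (l 16631768))) (l 16610536)) (a (b (b (l 16613624) (b (l 16613456) (c (l 16616080) (l 16610568)))) (l 16613064)) (b (b (c (l 16618152) (l 16611800)) (b (c (l 16617912) (l 16611680)) (b (b (c (l 16617784) (l 16611656)) (a (l 16614408) (c (l 16618072) (l 16611872)))) (l 16625168)))) (l 16622296)))) (a (l 16609896) (a (l 16612408) (c (l 16616776) (l 16610656)))))))))), by decide +kernel⟩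

def k9_pm_202_s : ∃ t, chk3 f_pm_202_s t 15 21 1 = true :=
  ⟨(a (a (b (l 16615784) (l 16583064)) (b (a (l 16598048) (l 16600064)) (l 16586664))) (b (a (b (l 16606120) (a (l 16598696) (l 16600272))) (b (a (l 16608480) (a (l 16619920) (c (l 16613224) (l 16606680)))) (a (c (l 16604856) (l 16598416)) (b (c (l 16607832) (l 16601008)) (a (l 16621680) (c (l 16615240) (l 16608000))))))) (a (a (l 16588976) (l 16590288)) (a (c (l 16594776) (l 16588024)) (c (b (l 16599288) (l 16592400)) (b (l 16613032) (l 16584984))))))), by decide +kernel⟩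

def k10_pm_202_s : ∃ t, chk3 f_pm_202_s t 15 11 1 = true :=
  ⟨(b (b (a (a (l 16571384) (l 16574352)) (a (c (l 16580048) (l 16573600)) (c (a (l 16581592) (b (l 16585656) (l 16579048))) (b (l 16598888) (l 16571064))))) (a (l 6) (a (c (l 16567896) (l 16560792)) (a (l 16585936) (c (b (l 16572608) (l 16566328)) (l 16560816)))))) (a (l 6) (a (l 6) (a (l 6) (b (b (l 16555496) (l 6)) (l 6)))))), by decide +kernel⟩

def k11_pm_202_s : ∃ t, chk3 f_pm_202_s t 1 3 1 = true :=
  ⟨(a (l 6) (l 6)), by decide +kernel⟩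

theorem s12_pm_202_s : ∃ t, chk3 f_pm_202_s t 15 10 1 = true := ex3_b k8_pm_202_s k9_pm_202_s

theorem s13_pm_202_s : ∃ t, chk3 f_pm_202_s t 15 5 1 = true := ex3_b s12_pm_202_s k10_pm_202_s

theorem s14_pm_202_s : ∃ t, chk3 f_pm_202_s t 7 5 1 = true := ex3_a k7_pm_202_s s13_pm_202_s

theorem s15_pm_202_s : ∃ t, chk3 f_pm_202_s t 3 5 1 = true := ex3_a k6_pm_202_s s14_pm_202_s

theorem s16_pm_202_s : ∃ t, chk3 f_pm_202_s t 1 5 1 = true := ex3_a k5_pm_202_s s15_pm_202_s

theorem s17_pm_202_s : ∃ t, chk3 f_pm_202_s t 7 9 1 = true := ex3_a k3_pm_202_s k4_pm_202_s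

theorem s18_pm_202_s : ∃ t, chk3 f_pm_202_s t 3 9 1 = true := ex3_a k2_pm_202_s s17_pm_202_s

theorem s19_pm_202_s : ∃ t, chk3 f_pm_202_s t 1 9 1 = true := ex3_a k1_pm_202_s s18_pm_202_s

theorem s20_pm_202_s : ∃ t, chk3 f_pm_202_s t 1 4 1 = true := ex3_b k0_pm_202_s s19_pm_202_s

theorem s21_pm_202_s : ∃ t, chk3 f_pm_202_s t 1 2 1 = true := ex3_b s20_pm_202_s s16_pm_202_s

theorem s22_pm_202_s : ∃ t, chk3 f_pm_202_s t 1 1 1 = true := ex3_b s21_pm_202_s k11_pm_202_s

theorem c_pm_202_s : CertNE 0 536870912 0 536870912 587336777 62277027 3 eng mog cd0q2 cd0q0 pd2 true true false .pp 2 0 2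
    ndB0q2 ndB0q0 pcB2 cut_pm_202_s Ext.none :=
  certNE1 (fam := true) (s1 := true) (s2 := false) (a := 2) (b := 0) (c := 2) (cn := .pp) (n1 := ndB0q2) (n2 := ndB0q0) (pc := pcB2) (cut := cut_pm_202_s) (xt := Ext.none) (P1 := 0) (W1 := 536870912) (P2 := 0) (W2 := 536870912) (P3 := 587336777) (W3 := 62277027) (N0 := 3) (En := eng) (mo := mog) (C1 := cd0q2) (C2 := cd0q0) (C3 := pd2)
    rfl (fun _ => rfl) s22_pm_202_s

noncomputable def cut_pm_202_t : Cut := Cut.of [[⟨3, 0, 0, 2845415833⟩], [⟨0, 1, 0, 67108864⟩, ⟨1, 0, 0, 67108864⟩, ⟨2, 1, 0, 67108864⟩]]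

noncomputable def f_pm_202_t : ℕ → ℕ → ℕ → ℕ → Bool := onCell 0 536870912 1073741824 536870912 587336777 62277027
    (rowNE 3 eng mog cd0q2 cd0q0 pd2 1 true true false .pp 2 0 2 (qsf 0 536870912 0 536870912 2) ndB0q2 ndB0q0 pcB2 cut_pm_202_t Ext.none)

def k0_pm_202_t : ∃ t, chk3 f_pm_202_t t 1 1 1 = true :=
  ⟨(b (l 6) (a (l 6) (l 6))), by decide +kernel⟩

theorem c_pm_202_t : CertNE 0 536870912 0 536870912 587336777 62277027 3 eng mog cd0q2 cd0q0 pd2 true true false .pp 2 0 2
    ndB0q2 ndB0q0 pcB2 cut_pm_202_t Ext.none :=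
  certNE1 (fam := true) (s1 := true) (s2 := false) (a := 2) (b := 0) (c := 2) (cn := .pp) (n1 := ndB0q2) (n2 := ndB0q0) (pc := pcB2) (cut := cut_pm_202_t) (xt := Ext.none) (P1 := 0) (W1 := 536870912) (P2 := 0) (W2 := 536870912) (P3 := 587336777) (W3 := 62277027) (N0 := 3) (En := eng) (mo := mog) (C1 := cd0q2) (C2 := cd0q0) (C3 := pd2)
    rfl (fun _ => rfl) k0_pm_202_t

noncomputable def cut_pm_203_s : Cut := Cut.of [[⟨4, 0, 0, 1449551462⟩]]

noncomputable def f_pm_203_s : ℕ → ℕ → ℕ → ℕ → Bool := onCell 0 536870912 1610612736 536870912 587336777 62277027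
    (rowNE 3 eng mog cd0q2 cd0q0 pd3 1 true true false .up 2 0 3 (qsf 0 536870912 0 536870912 3) ndB0q2 ndB0q0 pcB3 cut_pm_203_s Ext.none)

def k0_pm_203_s : ∃ t, chk3 f_pm_203_s t 1 1 1 = true :=
  ⟨(l 6), by decide +kernel⟩

theorem c_pm_203_s : CertNE 0 536870912 0 536870912 587336777 62277027 3 eng mog cd0q2 cd0q0 pd3 true true false .up 2 0 3
    ndB0q2 ndB0q0 pcB3 cut_pm_203_s Ext.none :=
  certNE1 (fam := true) (s1 := true) (s2 := false) (a := 2) (b := 0) (c := 3) (cn := .up) (n1 := ndB0q2) (n2 := ndB0q0) (pc := pcB3) (cut := cut_pm_203_s) (xt := Ext.none) (P1 := 0) (W1 := 536870912) (P2 := 0) (W2 := 536870912) (P3 := 587336777) (W3 := 62277027) (N0 := 3) (En := eng) (mo := mog) (C1 := cd0q2) (C2 := cd0q0) (C3 := pd3)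
    rfl (fun _ => rfl) k0_pm_203_s

noncomputable def cut_pm_203_t : Cut := Cut.of [[⟨3, 0, 0, 2845415833⟩]]

noncomputable def f_pm_203_t : ℕ → ℕ → ℕ → ℕ → Bool := onCell 0 536870912 0 536870912 587336777 62277027
    (rowNE 3 eng mog cd0q2 cd0q0 pd3 0 true true false .up 2 0 3 (qsf 0 536870912 0 536870912 3) ndB0q2 ndB0q0 pcB3 cut_pm_203_t Ext.none)

def k0_pm_203_t : ∃ t, chk3 f_pm_203_t t 1 1 1 = true :=
  ⟨(a (b (l 1) (b (a (b (l 1) (a (b (l 1) (a (l 16675560) (l 6))) (l 6))) (l 6)) (a (b (a (b (a (l 16679408) (l 6)) (l 16692152)) (l 6)) (a (b (a (l 16700064) (l 16684080)) (b (l 16716536) (l 16729960))) (b (a (l 16667600) (l 6)) (a (l 16705080) (l 16692408))))) (b (l 6) (l 6))))) (l 6)), by decide +kernel⟩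

theorem c_pm_203_t : CertNE 0 536870912 0 536870912 587336777 62277027 3 eng mog cd0q2 cd0q0 pd3 true true false .up 2 0 3
    ndB0q2 ndB0q0 pcB3 cut_pm_203_t Ext.none :=
  certNE0 (fam := true) (s1 := true) (s2 := false) (a := 2) (b := 0) (c := 3) (cn := .up) (n1 := ndB0q2) (n2 := ndB0q0) (pc := pcB3) (cut := cut_pm_203_t) (xt := Ext.none) (P1 := 0) (W1 := 536870912) (P2 := 0) (W2 := 536870912) (P3 := 587336777) (W3 := 62277027) (N0 := 3) (En := eng) (mo := mog) (C1 := cd0q2) (C2 := cd0q0) (C3 := pd3)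
    rfl k0_pm_203_t

noncomputable def cut_pm_213_s : Cut := Cut.of [[⟨4, 0, 0, 1449551462⟩], [⟨0, 1, 0, 67108864⟩, ⟨1, 1, 0, 67108864⟩, ⟨2, 2, 0, 16777216⟩], [⟨0, 1, 0, 29360128⟩, ⟨1, 0, 1, 20971520⟩, ⟨2, 1, 1, 20971520⟩]]

noncomputable def f_pm_213_s : ℕ → ℕ → ℕ → ℕ → Bool := onCell 0 536870912 536870912 536870912 587336777 62277027
    (rowNE 3 eng mog cd0q2 cd0q1 pd3 0 true true false .pnn 2 1 3 (qsf 0 536870912 536870912 536870912 3) ndB0q2 ndB0q1 pcB3 cut_pm_213_s Ext.none)

def k0_pm_213_s : ∃ t, chk3 f_pm_213_s t 1 1 1 = true :=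
  ⟨(l 6), by decide +kernel⟩

theorem c_pm_213_s : CertNE 0 536870912 536870912 536870912 587336777 62277027 3 eng mog cd0q2 cd0q1 pd3 true true false .pnn 2 1 3
    ndB0q2 ndB0q1 pcB3 cut_pm_213_s Ext.none :=
  certNE0 (fam := true) (s1 := true) (s2 := false) (a := 2) (b := 1) (c := 3) (cn := .pnn) (n1 := ndB0q2) (n2 := ndB0q1) (pc := pcB3) (cut := cut_pm_213_s) (xt := Ext.none) (P1 := 0) (W1 := 536870912) (P2 := 536870912) (W2 := 536870912) (P3 := 587336777) (W3 := 62277027) (N0 := 3) (En := eng) (mo := mog) (C1 := cd0q2) (C2 := cd0q1) (C3 := pd3)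
    rfl k0_pm_213_s

noncomputable def cut_pm_213_t : Cut := Cut.of [[⟨3, 0, 0, 2845415833⟩], [⟨0, 1, 0, 67108864⟩, ⟨1, 1, 0, 67108864⟩, ⟨2, 2, 0, 16777216⟩], [⟨0, 1, 0, 29360128⟩, ⟨1, 0, 1, 20971520⟩, ⟨2, 1, 1, 20971520⟩]]

noncomputable def f_pm_213_t : ℕ → ℕ → ℕ → ℕ → Bool := onCell 0 536870912 1610612736 536870912 587336777 62277027
    (rowNE 3 eng mog cd0q2 cd0q1 pd3 1 true true false .pnn 2 1 3 (qsf 0 536870912 536870912 536870912 3) ndB0q2 ndB0q1 pcB3 cut_pm_213_t Ext.none)

def k0_pm_213_t : ∃ t, chk3 f_pm_213_t t 4 1 1 = true :=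
  ⟨(b (b (l 1) (b (b (b (l 1) (a (l 16731824) (l 16713472))) (a (b (l 16742880) (l 16765224)) (b (l 16727656) (l 16739568)))) (a (b (a (l 16786832) (l 16759360)) (a (b (l 16772784) (a (b (l 16787360) (l 132841993847)) (l 16774808))) (b (l 16767160) (l 16771088)))) (b (a (l 16754320) (l 16750888)) (b (l 16761592) (a (l 16767216) (l 16764784))))))) (b (a (b (b (a (b (a (l 4) (b (l 16777064) (l 135526348135))) (l 4)) (b (l 16784976) (a (b (l 101703500151) (l 138210702199)) (l 36742125607)))) (a (l 4) (b (a (l 4) (b (l 107609084679) (l 143579410663))) (l 4)))) (l 4)) (a (b (b (b (l 16771328) (l 16774288)) (b (b (l 16775800) (l 34057766135)) (a (b (l 115125278983) (l 150558731703)) (b (l 16776672) (l 16782464))))) (b (b (a (l 4) (b (l 125862672295) (l 4))) (l 4)) (l 4))) (b (b (b (l 16769592) (l 16773104)) (b (l 16775280) (a (l 16776472) (l 16776296)))) (b (b (a (b (l 16776976) (l 61975056743)) (l 16776800)) (a (b (l 135526347399) (l 4)) (b (l 16777152) (l 113514668487))))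 (l 4))))) (l 4))), by decide +kernel⟩

def k1_pm_213_t : ∃ t, chk3 f_pm_213_t t 5 2 1 = true :=
  ⟨(b (l 6) (b (a (b (b (l 6) (l 16699552)) (a (l 16726944) (l 16721520))) (l 6)) (a (b (a (l 16748496) (l 16746544)) (a (l 16761224) (l 16760552))) (b (l 16742408) (a (l 16759920) (l 16759600)))))), by decide +kernel⟩

def k2_pm_213_t : ∃ t, chk3 f_pm_213_t t 5 3 1 = true :=
  ⟨(b (b (a (b (a (b (l 16769000) (l 16773016)) (b (l 16769000) (l 16773312))) (a (b (l 16775384) (l 16776456)) (l 16786712))) (b (a (l 16771352) (l 16771408)) (a (b (l 16775696) (l 16776344)) (l 16754600)))) (b (a (a (b (l 16776776) (a (l 16787416) (l 16776832))) (b (l 16776776) (l 16776640))) (a (b (l 16776056) (l 16775624)) (b (l 16775200) (l 16774272)))) (a (a (b (a (b (l 64122539527) (l 128547046855)) (b (l 16776960) (l 50700761687))) (a (l 4) (b (a (l 130694509943) (l 72175600215)) (l 4)))) (b (b (l 16776568) (l 16776544)) (b (a (l 16776912) (l 16776336)) (a (a (l 106535345127) (l 16777088)) (l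 16776720))))) (b (a (b (l 16775240) (l 16775160)) (l 16773664)) (a (b (l 16775320) (l 16775840)) (b (l 16773864) (l 16774584))))))) (b (b (a (b (a (l 4) (a (b (a (l 4) (l 122641446647)) (l 4)) (b (a (l 71101858615) (l 16777032)) (a (l 153779957655) (l 93650443591))))) (l 4)) (b (a (a (b (l 16776776) (l 29762796231)) (l 16781992)) (b (l 16775880) (l 16779656))) (a (a (b (a (b (l 105461596599) (l 4)) (b (l 16777280) (l 92039821959))) (a (l 4) (l 165054246103))) (b (l 16777424) (a (b (l 16777432) (l 148411250343)) (l 42110825991)))) (b (l 16777832) (a (l 16777848) (l 16778416)))))) (a (l 4) (b (a (b (a (l 4) (a (l 4) (b (l 124252079463) (l 4)))) (l 4)) (b (a (a (b (l 16777496) (l 118883370119)) (l 16777744)) (l 16778432)) (a (a (l 4) (b (l 98482275191) (l 202635210823))) (b (l 16778072) (a (b (l 16777528) (l 112440915895)) (l 16777952)))))) (a (l 4) (b (a (l 4) (b (a (l 191360922183) (a (l 113514657223) (l 16777616))) (a (l 4) (b (l 174717925415) (l 4))))) (l 4)))))) (l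 4))), by decide +kernel⟩

def k3_pm_213_t : ∃ t, chk3 f_pm_213_t t 3 2 1 = true :=
  ⟨(b (l 6) (b (l 6) (a (l 6) (l 6)))), by decide +kernel⟩

def k4_pm_213_t : ∃ t, chk3 f_pm_213_t t 6 6 1 = true :=
  ⟨(b (a (b (b (l 16749064) (l 16752392)) (a (l 16796440) (b (l 16774936) (l 16775464)))) (b (l 6) (a (b (l 16775352) (l 16776000)) (b (l 6) (l 16778424))))) (a (b (a (b (l 16775040) (l 16773792)) (b (l 16775176) (l 16775008))) (a (b (l 16772968) (b (l 16773144) (l 16773912))) (b (l 16774904) (l 16775520)))) (b (a (b (l 16776536) (l 16777216)) (b (l 16779936) (l 16782152))) (b (a (l 16778544) (l 16784408)) (a (b (l 16779528) (l 16780304)) (b (l 16785920) (l 16786832))))))), by decide +kernel⟩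

def k5_pm_213_t : ∃ t, chk3 f_pm_213_t t 6 14 1 = true :=
  ⟨(b (a (a (b (b (l 16775544) (l 16777160)) (b (l 16778528) (l 16784704))) (b (a (l 16777008) (l 16778648)) (a (l 16779920) (b (l 16780464) (l 16781816))))) (a (b (l 16782296) (l 16805648)) (b (l 16809680) (a (l 16789056) (l 16792768))))) (a (b (a (b (a (l 16779368) (l 16780376)) (a (l 16779128) (l 16780448))) (b (a (l 16781504) (l 16782888)) (a (l 16781864) (l 16783440)))) (a (b (a (b (l 16778552) (a (b (l 16777704) (l 94187302855)) (l 16778360))) (l 16779912)) (a (b (a (b (l 153779960231) (l 4)) (b (l 16777824) (l 85597367479))) (a (l 4) (b (a (l 4) (l 116199008295)) (l 4)))) (b (l 16779064) (a (b (l 16777952) (a (l 114051524471) (l 16777736))) (l 16778768))))) (b (a (l 16781640) (l 16783512)) (a (l 16780736) (l 16776352))))) (a (b (a (b (l 16784528) (l 16785424)) (l 16787520)) (a (b (l 16785680) (l 16785304)) (b (l 16787960) (a (l 16787256) (l 16788712))))) (b (a (l 16790496) (l 16794064)) (b (l 16813584)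 (a (l 16790584) (l 16793896))))))), by decide +kernel⟩

def k6_pm_213_t : ∃ t, chk3 f_pm_213_t t 12 60 1 = true :=
  ⟨(a (b (a (l 4) (b (a (b (a (l 4) (l 113514653383)) (l 259543527927)) (b (l 16778064) (a (l 114588395415) (l 16777808)))) (a (l 4) (b (a (l 261691012775) (c (l 115125265879) (l 118883362151))) (l 267596591543))))) (l 4)) (b (a (b (l 16779552) (a (b (l 16778152) (a (a (l 177402288583) (l 90429200135)) (l 16777856))) (l 16779104))) (b (l 16781960) (l 16781056))) (a (b (a (a (l 4) (b (b (l 94187296295) (l 164517384631)) (l 4))) (b (l 16778192) (a (a (b (l 139284452359) (l 4)) (b (l 16777520) (l 146263774039))) (l 16777856)))) (a (l 4) (a (l 4) (b (b (a (l 154853708439) (l 16777496)) (a (l 4) (l 164517384599))) (l 4))))) (b (a (l 16779216) (l 16775368)) (a (b (a (c (l 16777872) (l 16777800)) (l 16778536)) (b (a (a (c (l 175254797895) (l 179549765031)) (l 16778776)) (l 16777976)) (b (a (a (l 4) (l 167201737959)) (l 16777688)) (a (l 4) (a (l 85597359143) (l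 16777664)))))) (b (l 16779640) (l 16778904))))))), by decide +kernel⟩

def k7_pm_213_t : ∃ t, chk3 f_pm_213_t t 12 61 1 = true :=
  ⟨(a (l 4) (b (a (l 4) (b (a (b (a (l 4) (b (b (a (l 183844732503) (l 16777464)) (a (l 4) (c (l 120493968759) (l 124252065127)))) (a (l 4) (b (l 205856439751) (l 4))))) (l 4)) (b (a (b (l 16777928) (b (l 16777624) (a (a (l 195655894791) (l 16777336)) (l 16777592)))) (l 16778488)) (b (a (b (a (l 253101079847) (l 72175585431)) (a (l 4) (a (l 254174821911) (l 119957096807)))) (l 16777856)) (a (a (l 4) (l 287460817687)) (a (a (b (a (l 163980511031) (l 16777312)) (l 4)) (b (l 16777424) (a (l 185992218167) (l 120493967207)))) (l 16777608)))))) (a (l 4) (a (l 4) (a (l 4) (b (b (b (a (b (l 134452611047) (l 225183792823)) (l 16777376)) (b (a (l 4) (a (l 160222410295) (l 16777264))) (l 289608301847))) (l 4)) (l 4))))))) (l 4))), by decide +kernel⟩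

def k8_pm_213_t : ∃ t, chk3 f_pm_213_t t 13 60 1 = true :=
  ⟨(a (b (a (b (l 16784560) (l 16783808)) (b (l 16787424) (l 16786776))) (a (b (a (l 16782056) (l 16783552)) (b (l 16776672) (l 16781232))) (b (l 16785896) (a (l 16783928) (l 16785552))))) (b (a (a (l 16789528) (l 16790736)) (l 16793160)) (a (b (a (l 16788304) (l 16790112)) (l 16788112)) (a (b (l 16791448) (l 16790816)) (l 16792536))))), by decide +kernel⟩

def k9_pm_213_t : ∃ t, chk3 f_pm_213_t t 52 244 1 = true :=
  ⟨(b (a (l 16779664) (l 16781256)) (a (c (l 16777592) (l 16777456)) (c (l 16780584) (l 16780328)))), by decide +kernel⟩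

def k10_pm_213_t : ∃ t, chk3 f_pm_213_t t 52 245 1 = true :=
  ⟨(b (b (a (a (b (l 16777872) (a (a (a (l 99019130183) (l 16777384)) (l 16777536)) (l 16777840))) (l 16775944)) (l 16777184)) (a (a (a (b (b (a (a (l 296050753223) (l 145190028679)) (l 16777360)) (a (l 4) (a (l 162906768599) (l 16777304)))) (b (a (l 4) (a (l 4) (l 181697250391))) (l 4))) (b (l 16777608) (a (b (l 16777336) (a (a (l 297124495111) (l 184381604647)) (l 77544293303))) (l 16777472)))) (l 16777456)) (l 16778048))) (a (a (a (l 4) (b (b (a (c (l 277260271127) (l 283702721911)) (b (a (a (l 140895061095) (l 16777272)) (l 16777344)) (a (l 277260271335) (a (l 164517381031) (l 16777592))))) (l 4)) (l 4))) (b (a (b (l 16777544) (a (a (b (b (l 85060485927) (l 203708957287)) (l 4)) (b (l 16777312) (b (c (l 141431931847) (l 144653157303)) (l 241289920327)))) (c (l 16777416) (c (l 16777400) (l 23857200455))))) (l 16777512)) (a (a (l 4) (b (b (b (a (a (l 165054249655) (l 131231384215)) (l 16777304)) (a (l 301956333335)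 (a (l 148948124359) (l 16777264)))) (b (a (l 4) (a (l 4) (l 169349218919))) (l 4))) (l 4))) (a (b (b (l 16777424) (b (l 16777336) (a (a (l 191360926199) (l 16777256)) (l 16777320)))) (b (b (a (c (l 240216178535) (l 246121758519)) (c (l 16777272) (c (l 16777272) (l 67343745511)))) (a (l 4) (a (a (l 4) (a (l 168812346471) (l 161833024727))) (a (l 154316833319) (l 16777240))))) (c (l 304640687719) (l 308398783959)))) (b (l 16777576) (b (l 16777384) (a (a (b (b (l 80765518199) (l 195655893351)) (l 4)) (b (l 16777264) (b (c (l 16777216) (l 139821318631)) (a (l 4) (l 140358188439))))) (c (l 16777320) (c (l 16777312) (l 16777312)))))))))) (a (b (l 16777808) (b (l 16777608) (a (a (l 16777368) (l 16777088)) (l 16778064)))) (a (b (l 16779096) (l 16778608)) (l 16777312))))), by decide +kernel⟩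

def k11_pm_213_t : ∃ t, chk3 f_pm_213_t t 53 122 1 = true :=
  ⟨(a (b (c (l 16782720) (l 16777048)) (c (l 16778968) (b (l 16781128) (l 16777640)))) (b (l 16784176) (c (l 16777464) (l 16778448)))), by decide +kernel⟩

def k12_pm_213_t : ∃ t, chk3 f_pm_213_t t 104 246 1 = true :=
  ⟨(a (l 4) (a (l 4) (a (l 4) (a (l 4) (b (b (b (b (a (a (c (l 284776464215) (l 289071431447)) (b (b (l 130157641991) (l 158611799335)) (l 4))) (b (a (b (l 16777248) (l 153243091303)) (l 16777256)) (a (l 4) (b (l 173107314999) (l 4))))) (l 4)) (l 4)) (l 4)) (l 4)))))), by decide +kernel⟩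

def k13_pm_213_t : ∃ t, chk3 f_pm_213_t t 210 984 1 = true :=
  ⟨(a (a (b (b (b (l 16777376) (b (l 35131490135) (a (a (a (l 195655893255) (l 16777232)) (l 16777272)) (l 16777352)))) (a (b (a (c (a (l 4) (l 151632477239)) (l 267596595047)) (b (l 61975036167) (a (a (l 4) (l 151095606759)) (l 138210705751)))) (l 297124495127)) (a (b (l 16777280) (b (a (l 156464316775) (l 16777240)) (a (l 4) (l 177939153207)))) (l 16777296)))) (b (a (l 4) (b (b (a (l 4) (a (l 201561473239) (l 16777232))) (b (l 266522853239) (l 4))) (l 4))) (l 4))) (a (b (l 16777280) (b (b (c (l 16777288) (l 35131489943)) (a (b (a (l 155390573911) (l 142505673031)) (l 299271978887)) (a (b (l 16777248) (l 161296154983)) (l 16777256)))) (b (a (l 4) (a (l 4) (b (l 183844733239) (l 4)))) (l 4)))) (b (l 16777544) (b (l 16777352) (b (b (l 16777272) (a (b (l 131768254823) (l 181697249623)) (l 16777272))) (a (l 270817820535) (b (l 66270003511) (a (l 161296153943) (l 150021865831))))))))) (a (b (l 16777048) (c (l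 16777456) (l 16777112))) (l 16777544))), by decide +kernel⟩

def k14_pm_213_t : ∃ t, chk3 f_pm_213_t t 210 985 1 = true :=
  ⟨(a (l 4) (b (a (a (b (b (a (a (b (l 170959831351) (l 4)) (b (l 16777240) (l 195119022343))) (l 16777264)) (b (a (l 4) (a (a (l 4) (l 202635215063)) (l 16777232))) (l 285850206023))) (l 4)) (b (a (b (l 16777312) (b (l 16777264) (l 68417487159))) (l 16777336)) (b (b (a (a (l 160222412071) (l 159148671335)) (l 16777256)) (a (l 4) (a (l 181697249591) (l 16777240)))) (c (l 268670336855) (c (l 275649658663) (l 278334013191)))))) (a (a (b (l 16777392) (b (l 16777288) (b (l 16777248) (a (l 152169348503) (l 16777224))))) (l 16777216)) (l 16777456))) (b (a (l 4) (b (a (a (l 292292656999) (b (c (l 16777240) (l 71638712695)) (a (l 4) (l 172033573175)))) (l 16777296)) (a (l 4) (a (b (a (l 196729635079) (l 16777232)) (a (l 4) (l 149484993943))) (l 57680068903))))) (a (l 4) (a (l 4) (b (b (a (l 4) (a (l 155390573911) (l 142505673047))) (l 301956333367)) (l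 4))))))), by decide +kernel⟩

def k15_pm_213_t : ∃ t, chk3 f_pm_213_t t 211 492 1 = true :=
  ⟨(a (b (l 16777456) (b (l 16777400) (a (b (l 16777424) (a (b (a (a (b (l 16777248) (l 162369896807)) (l 16777256)) (l 16777296)) (b (a (a (l 4) (l 185992216887)) (l 16777248)) (a (l 4) (a (l 145726897559) (l 16777232))))) (l 16777344))) (l 16777576)))) (b (l 16778544) (l 16777704))), by decide +kernel⟩

def k16_pm_213_t : ∃ t, chk3 f_pm_213_t t 105 493 1 = true :=
  ⟨(a (l 4) (b (b (a (a (b (a (c (l 293366398711) (l 296587624087)) (a (b (b (l 68417487159) (a (l 159685541159) (l 157001187687))) (l 4)) (b (l 16777272) (b (c (l 16777224) (l 140895060391)) (a (l 4) (l 208003924183)))))) (l 4)) (b (c (l 16777376) (c (l 16777376) (l 16777368))) (a (a (b (b (a (l 152169348487) (l 16777224)) (a (l 4) (l 158074928391))) (l 4)) (b (c (l 16777256) (l 61975036231)) (b (a (l 4) (l 175254798647)) (l 4)))) (b (l 16777328) (b (l 16777280) (a (a (l 202098344151) (l 16777232)) (l 16777272)))))))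 (c (l 16777648) (l 16776968))) (b (a (b (a (l 4) (a (l 4) (a (l 268133465975) (b (l 16777240) (a (l 157538057559) (l 148948124023)))))) (l 4)) (a (a (a (b (l 16777272) (a (c (l 209077666151) (l 208003923655)) (b (l 16777240) (l 198877118727)))) (l 49090134263)) (l 16777376)) (l 16777544))) (a (l 4) (a (a (b (b (a (l 4) (a (l 150021864855) (l 16777232))) (l 293366398791)) (l 4)) (b (c (l 16777280) (c (l 16777280) (l 52311359831))) (b (a (a (l 4) (l 169886089527)) (l 16777256)) (a (l 4) (c (l 16777216) (l 151095607783)))))) (l 16777408))))) (b (a (l 4) (a (b (c (l 294977011319) (c (l 298735107591) (a (l 4) (l 293903269511)))) (l 4)) (a (b (a (b (b (l 16777248) (c (l 16777200) (l 186529087863))) (l 4)) (b (l 16777280) (c (l 166127993463) (b (l 134989480375) (l 223573180135))))) (l 4)) (b (c (l 16777328) (l 16777320)) (b (a (b (a (l 150021864855) (l 16777232)) (a (l 4) (l 155927444791))) (c (l 16777256) (l 61438165319))) (b (a (l 4) (l 203708957031)) (l 4))))))) (l 4)))),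 by decide +kernel⟩

def k17_pm_213_t : ∃ t, chk3 f_pm_213_t t 52 247 1 = true :=
  ⟨(l 4), by decide +kernel⟩

def k18_pm_213_t : ∃ t, chk3 f_pm_213_t t 53 246 1 = true :=
  ⟨(a (b (c (l 16778128) (c (l 16778040) (l 16778312))) (b (a (c (l 16777528) (c (l 16776832) (l 16777472))) (l 16777728)) (a (a (b (a (a (b (l 16777432) (b (l 16777328) (b (l 16777280) (a (a (l 198877118727) (l 16777232)) (l 16777272))))) (l 16777472)) (l 16777640)) (a (b (b (a (a (l 267596595063) (b (l 16777248) (c (l 16777200) (l 189213442423)))) (l 16777304)) (a (l 4) (a (b (l 134989480359) (a (l 4) (l 202635215063))) (l 16777264)))) (b (a (l 4) (b (a (l 4) (a (l 151632477591) (l 16777224))) (l 298735107911))) (l 4))) (a (b (l 16777376) (b (c (l 16777280) (l 55532585335)) (b (a (l 210151407975) (l 16777248)) (a (l 4) (c (l 16777208) (l 157538058711)))))) (l 16777096)))) (c (l 16777848) (l 16777496))) (l 16778008)))) (c (b (l 16781240) (l 16780176)) (b (l 16775800) (l 16780056)))), by decide +kernel⟩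

def k19_pm_213_t : ∃ t, chk3 f_pm_213_t t 106 494 1 = true :=
  ⟨(a (a (a (l 4) (b (b (b (a (c (l 295513882359) (l 299271978647)) (b (b (l 59290681703) (a (l 192434667895) (l 16777256))) (b (a (l 4) (l 142505673207)) (l 266522853223)))) (l 4)) (l 4)) (l 4))) (b (a (b (b (c (l 16777384) (l 16777048)) (b (a (c (l 151632479175) (a (b (l 181160378743) (l 162906766231)) (l 66270003607))) (l 16777328)) (a (c (l 263301627735) (l 271354691367)) (b (l 16777280) (a (l 164517380567) (l 16777264)))))) (b (a (l 4) (a (l 298735107847) (b (b (l 16777400) (l 206393311591)) (l 4)))) (l 4))) (b (l 16777200) (b (b (l 16777352) (a (a (b (l 152706220519) (c (l 154316831879) (l 158074928231))) (l 16777256)) (l 16777336))) (b (a (b (a (l 4) (l 188676571591)) (l 4)) (a (a (l 136063222279) (l 16777256)) (l 16777296))) (a (l 4) (a (c (l 152169347783) (l 269207207783)) (b (l 16777248) (l 178476024279)))))))) (b (a (l 4) (l 4)) (l 4)))) (b (a (c (l 16777080) (c (l 16777064) (l 16777056))) (l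 16778168)) (a (b (b (a (b (a (a (a (l 208003924327) (l 143579415111)) (l 16777264)) (l 16777344)) (a (b (a (l 4) (l 168812347863)) (l 301419462471)) (c (l 16777280) (l 57143198087)))) (l 16777480)) (a (a (l 4) (b (b (a (l 213372633447) (l 16777248)) (a (l 4) (l 159148671447))) (l 296050753303))) (a (b (l 16777320) (b (l 16777392) (a (l 201561473383) (l 16777256)))) (l 16777392)))) (a (l 4) (b (a (b (b (a (l 4) (l 147874382391)) (l 282628980567)) (l 4)) (b (l 16777288) (b (a (l 188676571591) (l 16777256)) (a (l 4) (l 143579415031))))) (c (l 298198236791) (c (l 302493203975) (l 302493203911)))))) (b (l 16777088) (a (b (l 16777416) (a (b (a (a (l 168812347943) (l 16777248)) (l 16777280)) (b (a (l 4) (l 135526351271)) (l 261691015015))) (l 16777328))) (l 16777568)))))), by decide +kernel⟩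

def k20_pm_213_t : ∃ t, chk3 f_pm_213_t t 107 494 1 = true :=
  ⟨(a (b (l 16778848) (a (l 16777728) (l 16777192))) (l 16778816)), by decide +kernel⟩

def k21_pm_213_t : ∃ t, chk3 f_pm_213_t t 53 495 1 = true :=
  ⟨(a (b (a (l 4) (a (l 4) (a (a (l 4) (b (b (b (a (c (l 202635215367) (l 192434667607)) (l 70028100039)) (b (l 254174822263) (l 4))) (l 4)) (l 4))) (b (b (b (l 16777384) (a (a (a (l 157538058791) (l 16777248)) (l 16777288)) (l 16777368))) (b (a (a (l 300345720663) (a (l 197803377079) (l 135526351367))) (l 16777296)) (a (l 4) (a (b (l 161833026007) (l 160759282631)) (l 16777256))))) (b (c (l 284776464007) (c (l 290682043943) (a (l 4) (l 283702722215)))) (l 4)))))) (l 4)) (b (a (b (a (a (l 16777176) (l 16777728)) (l 16776760)) (a (a (a (b (b (a (a (l 147337511399) (l 16777248)) (l 16777288)) (a (l 287997689703) (a (l 186529087943) (l 16777400)))) (l 4)) (b (l 16777336) (b (a (b (l 152706220519) (l 154853702679)) (l 16777264)) (c (l 248269242791) (l 255785434935)))))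 (a (a (b (l 16777424) (b (l 16777312) (l 76470551079))) (l 16777408)) (l 16777488))) (l 16777776))) (l 16777952)) (a (a (a (l 4) (b (c (b (a (l 213909504839) (l 74323067847)) (l 278334013079)) (a (a (l 305714430087) (b (b (l 151632478935) (l 4)) (l 4))) (b (b (l 16777304) (a (l 184918475351) (l 16777264))) (c (l 270817820391) (c (l 275649658567) (l 277797142183)))))) (l 4))) (a (a (b (b (l 16777384) (b (c (l 16777280) (l 64122520087)) (c (l 181697250055) (a (a (l 4) (l 154853702583)) (l 149484995287))))) (l 4)) (b (l 16777424) (b (b (a (a (l 222499438935) (l 153243091511)) (l 16777264)) (c (l 241289920999) (l 248806113095))) (l 4)))) (b (l 16777592) (a (b (c (l 16777312) (l 58216940087)) (a (l 282092109591) (b (l 146263769831) (l 4)))) (b (l 16777424) (b (l 16777312) (a (a (l 220888826199) (l 152706220599)) (l 16777264)))))))) (c (l 16777376) (c (l 16776704) (a (l 16777120) (l 16776920))))))), by decide +kernel⟩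

def k22_pm_213_t : ∃ t, chk3 f_pm_213_t t 27 61 1 = true :=
  ⟨(b (a (a (b (l 16785896) (l 16779048)) (b (l 16787672) (l 16786104))) (b (a (l 16789544) (l 16801808)) (l 16789176))) (a (b (a (b (l 16782920) (l 16776672)) (c (l 16784416) (l 16778904))) (a (b (l 16779536) (c (l 16778432) (a (l 16779208) (l 16777504)))) (a (l 16781008) (l 16782632)))) (b (c (l 16776896) (l 16779264)) (a (l 16784112) (l 16780880))))), by decide +kernel⟩

def k23_pm_213_t : ∃ t, chk3 f_pm_213_t t 12 62 1 = true :=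
  ⟨(l 4), by decide +kernel⟩

def k24_pm_213_t : ∃ t, chk3 f_pm_213_t t 26 62 1 = true :=
  ⟨(b (a (l 4) (b (b (a (l 4) (a (b (b (b (a (l 4) (a (l 4) (a (l 4) (b (c (l 241826791911) (l 248806113095)) (l 4))))) (l 4)) (l 4)) (l 4)) (b (b (a (a (a (b (b (l 66270003751) (a (a (l 4) (l 152706218951)) (l 147337511655))) (l 4)) (b (l 16777344) (b (a (l 177939153559) (l 16777264)) (c (l 243974275511) (l 251490467655))))) (a (a (b (l 16777432) (l 65733132855)) (l 16777416)) (l 16777504))) (l 16777792)) (a (a (l 4) (a (b (a (l 291218915079) (b (l 149484995287) (l 4))) (l 4)) (b (b (l 16777304) (a (l 182234120839) (l 16777264))) (c (l 267596594967) (c (l 276186529495) (l 280481496743)))))) (a (a (b (l 16777384) (b (l 69491229303) (a (a (l 4) (l 154316831591)) (l 154316833495)))) (l 16777424)) (l 16777592)))) (a (l 4) (a (a (l 4) (b (b (b (a (l 188676571735) (l 16777264)) (l 256322305863)) (l 4)) (l 4))) (b (a (a (b (l 68417487479) (l 306251300599)) (b (l 16777328) (b (l 160759284423)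 (l 4)))) (b (l 16777416) (b (l 16777304) (a (l 197266506327) (l 16777256))))) (b (c (l 299271978615) (l 304103816695)) (l 4)))))))) (l 4)) (l 4))) (l 4)), by decide +kernel⟩

def k25_pm_213_t : ∃ t, chk3 f_pm_213_t t 54 248 1 = true :=
  ⟨(b (a (b (a (c (l 16778344) (l 16777008)) (l 16776640)) (a (a (b (l 16777056) (a (a (b (b (l 73249325751) (a (l 162906765799) (l 168812348103))) (l 4)) (b (l 16777336) (b (b (l 131768255207) (l 188139700903)) (l 286387076903)))) (b (l 16777512) (a (b (l 16777336) (l 77007422231)) (l 16777408))))) (a (l 16777328) (l 16778056))) (l 16777984))) (c (l 16780416) (l 16779056))) (b (a (b (a (a (a (l 4) (b (b (a (a (l 4) (l 182234120839)) (l 16777296)) (a (l 4) (a (a (l 161833024263) (l 208540795319)) (l 16777240)))) (l 313230622231))) (a (b (l 16777424) (a (b (a (l 159148671687) (l 16777272)) (a (l 4) (l 197803377239))) (l 16777328))) (l 16777576))) (l 16777512)) (a (a (l 4) (b (b (a (a (l 4) (a (l 151095605863) (l 16777224))) (l 16777376))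 (a (l 321820556903) (a (a (l 172570444487) (l 16777264)) (l 16777352)))) (a (l 4) (a (c (l 265985982231) (l 274575916743)) (b (l 16777280) (c (l 188676571895) (l 194582151895))))))) (c (l 16777848) (c (l 16777840) (l 16777184))))) (a (l 16778952) (l 16777304))) (a (b (a (l 4) (a (a (a (b (b (a (l 194045280855) (l 16777264)) (l 267596595015)) (l 4)) (b (l 67880616711) (b (a (l 163980507623) (l 172570444487)) (l 4)))) (b (l 16777480) (b (l 16777352) (a (a (l 143042542295) (l 16777248)) (l 16777328))))) (l 16777752))) (a (l 4) (a (a (l 4) (b (a (l 309472526007) (b (l 80765518711) (l 228405019303))) (l 4))) (a (b (l 16777384) (b (a (a (l 151632476775) (l 16777216)) (l 16777312)) (a (l 4) (l 142505673783)))) (l 16777536))))) (a (a (l 16777400) (l 16778536)) (l 16779264))))), by decide +kernel⟩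

def k26_pm_213_t : ∃ t, chk3 f_pm_213_t t 54 249 1 = true :=
  ⟨(a (a (l 4) (a (l 4) (b (b (b (a (c (l 304640687559) (c (l 306251300151) (l 309472525527))) (b (b (l 16777336) (a (l 197803377527) (l 16777304))) (b (a (l 4) (l 155927446615)) (l 310009396871)))) (l 4)) (l 4)) (l 4)))) (b (b (a (a (a (b (c (l 16777448) (c (l 16777448) (l 58216940391))) (b (a (c (l 149484991815) (l 258469789415)) (b (l 16777288) (l 179012895639))) (l 4))) (b (l 16777672) (a (b (l 16777360) (a (l 224110052087) (c (l 16777200) (l 160222413895)))) (l 63585649511)))) (c (l 16777864) (l 16776552))) (l 16777280)) (a (a (b (b (a (l 4) (a (l 4) (a (l 320746815207) (l 215520117591)))) (l 4)) (l 4)) (a (b (b (a (a (l 151632479415) (l 16777296)) (l 16777376)) (b (a (l 309472526103) (l 16777240)) (l 268670336727))) (l 4)) (b (l 16777632) (b (b (a (l 190287184775) (l 16777312)) (a (l 4) (l 151095608423))) (l 312693751335))))) (a (b (l 16777832) (b (l 16777568) (b (l 63585649591) (a (a (l 224110052023)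 (l 16777288)) (l 16777464))))) (l 16778136)))) (a (l 4) (b (a (b (b (b (a (a (l 4) (l 180623508375)) (l 16777376)) (a (l 4) (l 76470551687))) (a (l 4) (b (a (l 154853701607) (l 16777264)) (l 252027338487)))) (l 4)) (b (l 16776952) (a (b (a (b (l 175254799271) (l 331484233463)) (l 78081164391)) (l 303566945847)) (b (l 16777456) (a (a (l 187602830375) (l 16777240)) (l 16777344)))))) (a (l 4) (b (b (b (a (l 4) (a (l 4) (l 172570444791))) (l 335242329399)) (l 4)) (l 4))))))), by decide +kernel⟩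

def k27_pm_213_t : ∃ t, chk3 f_pm_213_t t 55 124 1 = true :=
  ⟨(b (a (b (l 16782352) (c (l 16781080) (l 16781072))) (b (l 16773872) (l 16783064))) (b (a (a (c (l 16779216) (l 16777904)) (l 16780200)) (l 16779072)) (a (b (a (c (l 16778160) (l 16776848)) (l 16779136)) (a (a (a (b (b (l 71101842519) (a (l 283702722263) (a (l 188676572199) (l 16777240)))) (l 4)) (b (l 16777496) (b (b (l 83986744775) (a (l 167201732263) (l 16777216))) (l 310009396791)))) (b (l 16777856) (b (l 16777584) (a (a (a (l 192434668583) (l 16777232)) (l 16777344)) (l 16777520))))) (c (l 16778400) (l 16778416)))) (b (l 16780624) (l 16777920))))), by decide +kernel⟩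

def k28_pm_213_t : ∃ t, chk3 f_pm_213_t t 27 125 1 = true :=
  ⟨(a (l 4) (b (b (a (a (a (l 4) (b (b (b (a (b (a (l 4) (l 182770992023)) (l 4)) (l 73786197239)) (a (l 4) (a (l 307861913271) (l 168812348775)))) (l 4)) (l 4))) (a (b (b (l 16777608) (b (a (b (l 143579416199) (a (l 4) (l 16777192))) (l 16777448)) (a (l 331484233223) (a (l 178476025207) (l 16777328))))) (b (a (l 4) (b (l 268133465735) (l 4))) (l 4))) (b (l 16776592) (a (b (b (l 78618035767) (a (l 344906006135) (l 190287185239))) (l 4)) (b (l 16777464) (a (l 291755785735) (b (l 153243092407) (l 4)))))))) (a (b (l 16777328) (b (l 16778072) (b (l 16777784) (a (a (a (l 208003925223) (l 16777288)) (l 16777464)) (l 16777832))))) (c (l 16779232) (l 16777296)))) (a (l 4) (b (a (a (b (a (l 326115523895) (b (a (l 167738606967) (l 16777336)) (l 259006660263))) (l 4)) (b (c (l 16777552) (l 67343746631)) (b (a (a (l 340611038855) (l 187602830695)) (l 16777384)) (a (l 4) (a (a (l 4) (l 151095604823)) (l 154316834231))))))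 (c (l 16778072) (l 16776776))) (a (l 4) (a (b (b (a (b (l 16777256) (l 202098345271)) (l 16777464)) (a (l 331484233239) (l 144653158519))) (c (l 317525589223) (a (l 4) (l 307325041959)))) (b (l 16777728) (b (l 74323068695) (a (l 239679309207) (l 16777360))))))))) (b (b (b (b (a (l 4) (a (l 4) (a (l 4) (c (l 247732371047) (a (l 4) (l 215520118311)))))) (l 4)) (l 4)) (l 4)) (l 4)))), by decide +kernel⟩

def k29_pm_213_t : ∃ t, chk3 f_pm_213_t t 6 63 1 = true :=
  ⟨(l 4), by decide +kernel⟩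

def k30_pm_213_t : ∃ t, chk3 f_pm_213_t t 7 6 1 = true :=
  ⟨(b (l 6) (a (b (a (b (a (l 16784808) (l 6)) (a (l 16787904) (l 16792992))) (b (l 6) (l 16802712))) (a (b (l 16793504) (a (l 16793000) (l 16798488))) (b (a (l 16802408) (l 16809688)) (a (l 16804832) (l 16812192))))) (b (l 6) (a (b (a (l 16817720) (l 16826488)) (a (l 16820240) (l 16828928))) (b (l 6) (a (l 16838016) (c (l 16851904) (l 16842888)))))))), by decide +kernel⟩

def k31_pm_213_t : ∃ t, chk3 f_pm_213_t t 7 14 1 = true :=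
  ⟨(a (b (a (b (a (l 16795168) (l 16800496)) (a (l 16797192) (l 16802336))) (b (a (l 16806632) (l 16813824)) (a (l 16808080) (l 16814576)))) (a (b (a (l 16798200) (l 16802920)) (a (b (l 16798072) (l 16797488)) (b (l 16802384) (l 16801496)))) (b (a (l 16808120) (b (l 16814144) (l 16813344))) (a (l 16817000) (b (l 16812160) (l 16810432)))))) (b (a (b (a (l 16821648) (l 16829896)) (a (l 16821920) (l 16829424))) (b (a (l 16838384) (c (l 16850288) (l 16843560))) (a (l 16837032) (l 16844176)))) (a (b (a (l 16820400) (l 16826952)) (a (b (l 16817776) (l 16815368)) (l 16822160))) (b (a (l 16833320) (l 16839136)) (a (l 16827224) (l 16852584)))))), by decide +kernel⟩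

def k32_pm_213_t : ∃ t, chk3 f_pm_213_t t 7 30 1 = true :=
  ⟨(b (a (a (b (a (l 16796480) (l 16800168)) (a (l 16795032) (l 16798400))) (b (a (l 16804144) (l 16808152)) (a (l 16801880) (l 16805400)))) (a (a (b (l 16812376) (l 16808896)) (b (l 16816936) (l 16812784))) (a (b (l 16821088) (l 16816384)) (b (l 16824560) (l 16819296))))) (a (a (b (a (b (l 16793656) (l 16792280)) (l 16796048)) (a (b (a (l 16790392) (l 16791760)) (a (l 16777696) (l 16790264))) (b (l 16793944) (l 16792104)))) (b (a (l 16799088) (l 16802048)) (a (l 16795680) (l 16777200)))) (a (c (a (l 16803344) (b (l 16808696) (l 16803432))) (a (l 16799864) (l 16799984))) (a (b (l 16811216) (a (l 16805016) (l 16806184))) (b (l 16813632) (a (l 16807168) (l 16807960))))))), by decide +kernel⟩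

def k33_pm_213_t : ∃ t, chk3 f_pm_213_t t 14 124 1 = true :=
  ⟨(a (a (b (a (l 16785736) (l 16787776)) (a (b (l 16783704) (l 16782248)) (b (l 16785720) (l 16784256)))) (b (a (a (l 16789392) (l 16790072)) (l 16790928)) (a (l 16786992) (b (l 16789424) (l 16788312))))) (a (b (l 16792752) (a (l 16789968) (l 16791112))) (l 16793784))), by decide +kernel⟩

def k34_pm_213_t : ∃ t, chk3 f_pm_213_t t 14 125 1 = true :=
  ⟨(b (a (a (b (a (c (l 16780704) (l 16778152)) (l 16782720)) (a (a (b (l 16779064) (l 16776952)) (a (l 16778080) (l 16779880))) (c (l 16781072) (l 16778560)))) (a (b (l 16784696) (l 16783080)) (b (l 16786664) (l 16785024)))) (a (a (b (c (l 16788096) (l 16793704)) (c (l 16786680) (l 16791632))) (l 16793832)) (l 16790168))) (a (b (a (b (a (a (b (b (l 16777760) (a (c (l 88281713671) (a (l 189750314775) (l 16777432))) (l 16777792))) (b (a (a (l 4) (l 165054253063)) (l 16777592)) (a (l 346516618471) (c (l 16777376) (l 76470552727))))) (l 16777112)) (l 16777264))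 (a (a (a (l 4) (b (a (l 314304363879) (b (l 16777280) (l 255785436455))) (l 4))) (a (b (l 16777568) (b (a (l 228941891095) (l 16777368)) (a (l 4) (l 206393313015)))) (l 16776520))) (c (l 16779024) (l 16776456)))) (a (c (l 16781336) (l 16778776)) (l 16783168))) (a (a (a (l 4) (a (l 4) (b (b (b (a (l 187065960391) (l 16777424)) (a (l 4) (l 171496703975))) (l 363696487335)) (l 4)))) (a (b (a (b (l 16777680) (b (l 81839262359) (a (l 329336749607) (l 16777232)))) (l 16777952)) (b (b (a (l 327189265719) (l 16777400)) (a (l 4) (a (l 271354692871) (l 16777296)))) (a (l 4) (b (l 287460818343) (l 4))))) (b (l 16778672) (b (l 16778024) (b (l 16777696) (a (a (l 234847471111) (l 16777352)) (l 16777712))))))) (a (b (l 16777464) (a (l 16778744) (l 16779640))) (c (l 16781408) (l 16778672))))) (b (a (a (l 16784744) (a (l 16785824) (l 16786800))) (l 16788256)) (a (a (l 16782928) (a (l 16784016) (l 16789896))) (a (a (l 16790824) (l 16786400)) (l 16787304)))))), by decide +kernel⟩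

def k35_pm_213_t : ∃ t, chk3 f_pm_213_t t 15 62 1 = true :=
  ⟨(a (b (a (l 16795704) (l 16797600)) (a (b (l 16791824) (l 16789096)) (b (l 16793352) (l 16790448)))) (a (b (l 16799744) (a (l 16793024) (l 16793808))) (b (a (l 16785208) (b (l 16803144) (l 16799840))) (a (l 16794392) (b (l 16796464) (l 16793032)))))), by decide +kernel⟩

def k36_pm_213_t : ∃ t, chk3 f_pm_213_t t 28 126 1 = true :=
  ⟨(b (a (a (l 4) (a (l 4) (b (b (b (b (a (c (l 261154146279) (l 270817820071)) (l 16777488)) (a (l 4) (a (l 208540796823) (l 16777384)))) (b (a (l 4) (a (l 4) (l 199950862263))) (l 4))) (l 4)) (l 4)))) (a (b (b (b (l 16777216) (a (c (l 80765521751) (a (a (l 88281713719) (l 16777520)) (l 16777856))) (l 16778536))) (a (b (b (a (a (l 4) (l 185455347655)) (l 16777536)) (a (l 4) (l 88281713815))) (b (a (l 4) (a (l 4) (l 175254800503))) (l 387855677991))) (b (l 16778096) (c (l 16778952) (a (l 80765521127) (l 16777864)))))) (a (l 4) (b (a (b (b (a (l 387318807991) (l 16778472)) (l 388392549527))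 (l 4)) (b (l 83449875879) (b (a (l 386781937079) (l 16777160)) (l 391613774983)))) (l 4)))) (b (b (l 16777400) (c (l 16779168) (l 16779112))) (b (b (l 16777184) (a (a (l 83986746951) (l 16777856)) (l 16778464))) (a (a (b (b (a (l 394835000743) (l 16778464)) (l 4)) (l 4)) (b (l 84523617991) (b (c (l 231626246727) (l 240753052263)) (l 4)))) (b (l 16778032) (c (l 16778896) (a (l 83986747159) (l 16777792))))))))) (a (l 4) (a (l 4) (a (l 4) (b (b (b (b (a (c (l 247195502967) (l 257396050311)) (l 16777480)) (a (l 4) (l 155927448903))) (a (l 4) (b (l 272428435767) (l 4)))) (l 4)) (l 4)))))), by decide +kernel⟩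

def k37_pm_213_t : ∃ t, chk3 f_pm_213_t t 29 126 1 = true :=
  ⟨(b (b (a (a (c (l 16781216) (l 16778448)) (l 16782576)) (a (b (a (l 16783968) (l 16784832)) (l 14)) (l 16785544))) (a (b (a (l 16779840) (l 16781264)) (a (c (l 16779008) (l 16778944)) (l 16780408))) (l 14))) (a (a (b (b (a (b (l 16777960) (b (l 16777632) (a (l 169349221767) (l 16777616)))) (l 16778496)) (a (b (b (a (l 304640687511) (l 16777392)) (a (l 4) (c (l 188676574215) (l 197803379623)))) (a (l 4) (l 368528325559))) (b (l 16777856) (b (l 16778832) (a (a (l 169349212615) (l 16777176)) (l 14)))))) (a (l 4) (a (a (l 4) (l 14)) (l 14)))) (b (b (l 16776928) (l 14)) (l 14))) (l 14))), by decide +kernel⟩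

def k38_pm_213_t : ∃ t, chk3 f_pm_213_t t 14 127 1 = true :=
  ⟨(a (l 4) (a (a (l 4) (l 14)) (l 14))), by decide +kernel⟩

def k39_pm_213_t : ∃ t, chk3 f_pm_213_t t 15 63 1 = true :=
  ⟨(b (b (b (a (a (l 16786984) (l 16788208)) (a (l 16789376) (a (l 16790160) (l 16790432)))) (l 14)) (l 14)) (l 14)), by decide +kernel⟩

theorem s40_pm_213_t : ∃ t, chk3 f_pm_213_t t 14 126 1 = true := ex3_a k36_pm_213_t k37_pm_213_t

theorem s41_pm_213_t : ∃ t, chk3 f_pm_213_t t 14 63 1 = true := ex3_b s40_pm_213_t k38_pm_213_t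

theorem s42_pm_213_t : ∃ t, chk3 f_pm_213_t t 7 63 1 = true := ex3_a s41_pm_213_t k39_pm_213_t

theorem s43_pm_213_t : ∃ t, chk3 f_pm_213_t t 14 62 1 = true := ex3_b k33_pm_213_t k34_pm_213_t

theorem s44_pm_213_t : ∃ t, chk3 f_pm_213_t t 7 62 1 = true := ex3_a s43_pm_213_t k35_pm_213_t

theorem s45_pm_213_t : ∃ t, chk3 f_pm_213_t t 7 31 1 = true := ex3_b s44_pm_213_t s42_pm_213_t

theorem s46_pm_213_t : ∃ t, chk3 f_pm_213_t t 7 15 1 = true := ex3_b k32_pm_213_t s45_pm_213_t

theorem s47_pm_213_t : ∃ t, chk3 f_pm_213_t t 7 7 1 = true := ex3_b k31_pm_213_t s46_pm_213_t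

theorem s48_pm_213_t : ∃ t, chk3 f_pm_213_t t 7 3 1 = true := ex3_b k30_pm_213_t s47_pm_213_t

theorem s49_pm_213_t : ∃ t, chk3 f_pm_213_t t 54 124 1 = true := ex3_b k25_pm_213_t k26_pm_213_t

theorem s50_pm_213_t : ∃ t, chk3 f_pm_213_t t 27 124 1 = true := ex3_a s49_pm_213_t k27_pm_213_t

theorem s51_pm_213_t : ∃ t, chk3 f_pm_213_t t 27 62 1 = true := ex3_b s50_pm_213_t k28_pm_213_t

theorem s52_pm_213_t : ∃ t, chk3 f_pm_213_t t 13 62 1 = true := ex3_a k24_pm_213_t s51_pm_213_t

theorem s53_pm_213_t : ∃ t, chk3 f_pm_213_t t 6 62 1 = true := ex3_a k23_pm_213_t s52_pm_213_t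

theorem s54_pm_213_t : ∃ t, chk3 f_pm_213_t t 6 31 1 = true := ex3_b s53_pm_213_t k29_pm_213_t

theorem s55_pm_213_t : ∃ t, chk3 f_pm_213_t t 53 494 1 = true := ex3_a k19_pm_213_t k20_pm_213_t

theorem s56_pm_213_t : ∃ t, chk3 f_pm_213_t t 53 247 1 = true := ex3_b s55_pm_213_t k21_pm_213_t

theorem s57_pm_213_t : ∃ t, chk3 f_pm_213_t t 53 123 1 = true := ex3_b k18_pm_213_t s56_pm_213_t

theorem s58_pm_213_t : ∃ t, chk3 f_pm_213_t t 210 492 1 = true := ex3_b k13_pm_213_t k14_pm_213_t

theorem s59_pm_213_t : ∃ t, chk3 f_pm_213_t t 105 492 1 = true := ex3_a s58_pm_213_t k15_pm_213_t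

theorem s60_pm_213_t : ∃ t, chk3 f_pm_213_t t 105 246 1 = true := ex3_b s59_pm_213_t k16_pm_213_t

theorem s61_pm_213_t : ∃ t, chk3 f_pm_213_t t 52 246 1 = true := ex3_a k12_pm_213_t s60_pm_213_t

theorem s62_pm_213_t : ∃ t, chk3 f_pm_213_t t 52 123 1 = true := ex3_b s61_pm_213_t k17_pm_213_t

theorem s63_pm_213_t : ∃ t, chk3 f_pm_213_t t 26 123 1 = true := ex3_a s62_pm_213_t s57_pm_213_t

theorem s64_pm_213_t : ∃ t, chk3 f_pm_213_t t 52 122 1 = true := ex3_b k9_pm_213_t k10_pm_213_t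

theorem s65_pm_213_t : ∃ t, chk3 f_pm_213_t t 26 122 1 = true := ex3_a s64_pm_213_t k11_pm_213_t

theorem s66_pm_213_t : ∃ t, chk3 f_pm_213_t t 26 61 1 = true := ex3_b s65_pm_213_t s63_pm_213_t

theorem s67_pm_213_t : ∃ t, chk3 f_pm_213_t t 13 61 1 = true := ex3_a s66_pm_213_t k22_pm_213_t

theorem s68_pm_213_t : ∃ t, chk3 f_pm_213_t t 13 30 1 = true := ex3_b k8_pm_213_t s67_pm_213_t

theorem s69_pm_213_t : ∃ t, chk3 f_pm_213_t t 12 30 1 = true := ex3_b k6_pm_213_t k7_pm_213_t

theorem s70_pm_213_t : ∃ t, chk3 f_pm_213_t t 6 30 1 = true := ex3_a s69_pm_213_t s68_pm_213_t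

theorem s71_pm_213_t : ∃ t, chk3 f_pm_213_t t 6 15 1 = true := ex3_b s70_pm_213_t s54_pm_213_t

theorem s72_pm_213_t : ∃ t, chk3 f_pm_213_t t 6 7 1 = true := ex3_b k5_pm_213_t s71_pm_213_t

theorem s73_pm_213_t : ∃ t, chk3 f_pm_213_t t 6 3 1 = true := ex3_b k4_pm_213_t s72_pm_213_t

theorem s74_pm_213_t : ∃ t, chk3 f_pm_213_t t 3 3 1 = true := ex3_a s73_pm_213_t s48_pm_213_t

theorem s75_pm_213_t : ∃ t, chk3 f_pm_213_t t 3 1 1 = true := ex3_b k3_pm_213_t s74_pm_213_t

theorem s76_pm_213_t : ∃ t, chk3 f_pm_213_t t 5 1 1 = true := ex3_b k1_pm_213_t k2_pm_213_t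

theorem s77_pm_213_t : ∃ t, chk3 f_pm_213_t t 2 1 1 = true := ex3_a k0_pm_213_t s76_pm_213_t

theorem s78_pm_213_t : ∃ t, chk3 f_pm_213_t t 1 1 1 = true := ex3_a s77_pm_213_t s75_pm_213_t

theorem c_pm_213_t : CertNE 0 536870912 536870912 536870912 587336777 62277027 3 eng mog cd0q2 cd0q1 pd3 true true false .pnn 2 1 3
    ndB0q2 ndB0q1 pcB3 cut_pm_213_t Ext.none :=
  certNE1 (fam := true) (s1 := true) (s2 := false) (a := 2) (b := 1) (c := 3) (cn := .pnn) (n1 := ndB0q2) (n2 := ndB0q1) (pc := pcB3) (cut := cut_pm_213_t) (xt := Ext.none) (P1 := 0) (W1 := 536870912) (P2 := 536870912) (W2 := 536870912) (P3 := 587336777) (W3 := 62277027) (N0 := 3) (En := eng) (mo := mog) (C1 := cd0q2) (C2 := cd0q1) (C3 := pd3)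
    rfl (fun _ => rfl) s78_pm_213_t

noncomputable def cut_mm_001_s : Cut := Cut.of [[⟨4, 0, 0, 1449551462⟩]]

noncomputable def f_mm_001_s : ℕ → ℕ → ℕ → ℕ → Bool := onCell 0 536870912 0 536870912 587336777 62277027
    (rowNE 3 eng mog cd0q0 cd0q0 pd1 0 true false false .up 0 0 1 (qsf 0 536870912 0 536870912 1) ndB0q0 ndB0q0 pcB1 cut_mm_001_s Ext.none)

def k0_mm_001_s : ∃ t, chk3 f_mm_001_s t 1 1 1 = true :=
  ⟨(l 4), by decide +kernel⟩

theorem c_mm_001_s : CertNE 0 536870912 0 536870912 587336777 62277027 3 eng mog cd0q0 cd0q0 pd1 true false false .up 0 0 1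
    ndB0q0 ndB0q0 pcB1 cut_mm_001_s Ext.none :=
  certNE0 (fam := true) (s1 := false) (s2 := false) (a := 0) (b := 0) (c := 1) (cn := .up) (n1 := ndB0q0) (n2 := ndB0q0) (pc := pcB1) (cut := cut_mm_001_s) (xt := Ext.none) (P1 := 0) (W1 := 536870912) (P2 := 0) (W2 := 536870912) (P3 := 587336777) (W3 := 62277027) (N0 := 3) (En := eng) (mo := mog) (C1 := cd0q0) (C2 := cd0q0) (C3 := pd1)
    rfl k0_mm_001_s

noncomputable def cut_mm_001_t : Cut := Cut.of [[⟨3, 0, 0, 2845415833⟩]]

noncomputable def f_mm_001_t : ℕ → ℕ → ℕ → ℕ → Bool := onCell 0 536870912 0 536870912 587336777 62277027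
    (rowNE 3 eng mog cd0q0 cd0q0 pd1 0 true false false .up 0 0 1 (qsf 0 536870912 0 536870912 1) ndB0q0 ndB0q0 pcB1 cut_mm_001_t Ext.none)

def k0_mm_001_t : ∃ t, chk3 f_mm_001_t t 1 1 1 = true :=
  ⟨(l 4), by decide +kernel⟩

theorem c_mm_001_t : CertNE 0 536870912 0 536870912 587336777 62277027 3 eng mog cd0q0 cd0q0 pd1 true false false .up 0 0 1
    ndB0q0 ndB0q0 pcB1 cut_mm_001_t Ext.none :=
  certNE0 (fam := true) (s1 := false) (s2 := false) (a := 0) (b := 0) (c := 1) (cn := .up) (n1 := ndB0q0) (n2 := ndB0q0) (pc := pcB1) (cut := cut_mm_001_t) (xt := Ext.none) (P1 := 0) (W1 := 536870912) (P2 := 0) (W2 := 536870912) (P3 := 587336777) (W3 := 62277027) (N0 := 3) (En := eng) (mo := mog) (C1 := cd0q0) (C2 := cd0q0) (C3 := pd1)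
    rfl k0_mm_001_t

noncomputable def cut_mm_011_s : Cut := Cut.of [[⟨4, 0, 0, 1449551462⟩]]

noncomputable def f_mm_011_s : ℕ → ℕ → ℕ → ℕ → Bool := onCell 0 536870912 536870912 536870912 587336777 62277027
    (rowNE 3 eng mog cd0q0 cd0q1 pd1 0 true false false .pnn 0 1 1 (qsf 0 536870912 536870912 536870912 1) ndB0q0 ndB0q1 pcB1 cut_mm_011_s Ext.none)

def k0_mm_011_s : ∃ t, chk3 f_mm_011_s t 1 1 1 = true :=
  ⟨(l 6), by decide +kernel⟩

theorem c_mm_011_s : CertNE 0 536870912 536870912 536870912 587336777 62277027 3 eng mog cd0q0 cd0q1 pd1 true false false .pnn 0 1 1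
    ndB0q0 ndB0q1 pcB1 cut_mm_011_s Ext.none :=
  certNE0 (fam := true) (s1 := false) (s2 := false) (a := 0) (b := 1) (c := 1) (cn := .pnn) (n1 := ndB0q0) (n2 := ndB0q1) (pc := pcB1) (cut := cut_mm_011_s) (xt := Ext.none) (P1 := 0) (W1 := 536870912) (P2 := 536870912) (W2 := 536870912) (P3 := 587336777) (W3 := 62277027) (N0 := 3) (En := eng) (mo := mog) (C1 := cd0q0) (C2 := cd0q1) (C3 := pd1)
    rfl k0_mm_011_s

noncomputable def cut_mm_011_t : Cut := Cut.of [[⟨3, 0, 0, 2845415833⟩]]

noncomputable def f_mm_011_t : ℕ → ℕ → ℕ → ℕ → Bool := onCell 0 536870912 536870912 536870912 587336777 62277027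
    (rowNE 3 eng mog cd0q0 cd0q1 pd1 0 true false false .pnn 0 1 1 (qsf 0 536870912 536870912 536870912 1) ndB0q0 ndB0q1 pcB1 cut_mm_011_t Ext.none)

def k0_mm_011_t : ∃ t, chk3 f_mm_011_t t 1 1 1 = true :=
  ⟨(b (l 4) (l 5)), by decide +kernel⟩

theorem c_mm_011_t : CertNE 0 536870912 536870912 536870912 587336777 62277027 3 eng mog cd0q0 cd0q1 pd1 true false false .pnn 0 1 1
    ndB0q0 ndB0q1 pcB1 cut_mm_011_t Ext.none :=
  certNE0 (fam := true) (s1 := false) (s2 := false) (a := 0) (b := 1) (c := 1) (cn := .pnn) (n1 := ndB0q0) (n2 := ndB0q1) (pc := pcB1) (cut := cut_mm_011_t) (xt := Ext.none) (P1 := 0) (W1 := 536870912) (P2 := 536870912) (W2 := 536870912) (P3 := 587336777) (W3 := 62277027) (N0 := 3) (En := eng) (mo := mog) (C1 := cd0q0) (C2 := cd0q1) (C3 := pd1)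
    rfl k0_mm_011_t

noncomputable def cut_mm_012_s : Cut := Cut.of [[⟨4, 0, 0, 1449551462⟩]]

noncomputable def f_mm_012_s : ℕ → ℕ → ℕ → ℕ → Bool := onCell 0 536870912 536870912 536870912 587336777 62277027
    (rowNE 3 eng mog cd0q0 cd0q1 pd2 0 true false false .pnp 0 1 2 (qsf 0 536870912 536870912 536870912 2) ndB0q0 ndB0q1 pcB2 cut_mm_012_s Ext.none)

def k0_mm_012_s : ∃ t, chk3 f_mm_012_s t 1 1 1 = true :=
  ⟨(l 6), by decide +kernel⟩

theorem c_mm_012_s : CertNE 0 536870912 536870912 536870912 587336777 62277027 3 eng mog cd0q0 cd0q1 pd2 true false false .pnp 0 1 2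
    ndB0q0 ndB0q1 pcB2 cut_mm_012_s Ext.none :=
  certNE0 (fam := true) (s1 := false) (s2 := false) (a := 0) (b := 1) (c := 2) (cn := .pnp) (n1 := ndB0q0) (n2 := ndB0q1) (pc := pcB2) (cut := cut_mm_012_s) (xt := Ext.none) (P1 := 0) (W1 := 536870912) (P2 := 536870912) (W2 := 536870912) (P3 := 587336777) (W3 := 62277027) (N0 := 3) (En := eng) (mo := mog) (C1 := cd0q0) (C2 := cd0q1) (C3 := pd2)
    rfl k0_mm_012_s

noncomputable def cut_mm_012_t : Cut := Cut.of [[⟨3, 0, 0, 2845415833⟩]]

noncomputable def f_mm_012_t : ℕ → ℕ → ℕ → ℕ → Bool := onCell 0 536870912 536870912 536870912 587336777 62277027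
    (rowNE 3 eng mog cd0q0 cd0q1 pd2 0 true false false .pnp 0 1 2 (qsf 0 536870912 536870912 536870912 2) ndB0q0 ndB0q1 pcB2 cut_mm_012_t Ext.none)

def k0_mm_012_t : ∃ t, chk3 f_mm_012_t t 1 1 1 = true :=
  ⟨(b (l 4) (l 5)), by decide +kernel⟩

theorem c_mm_012_t : CertNE 0 536870912 536870912 536870912 587336777 62277027 3 eng mog cd0q0 cd0q1 pd2 true false false .pnp 0 1 2
    ndB0q0 ndB0q1 pcB2 cut_mm_012_t Ext.none :=
  certNE0 (fam := true) (s1 := false) (s2 := false) (a := 0) (b := 1) (c := 2) (cn := .pnp) (n1 := ndB0q0) (n2 := ndB0q1) (pc := pcB2) (cut := cut_mm_012_t) (xt := Ext.none) (P1 := 0) (W1 := 536870912) (P2 := 536870912) (W2 := 536870912) (P3 := 587336777) (W3 := 62277027) (N0 := 3) (En := eng) (mo := mog) (C1 := cd0q0) (C2 := cd0q1) (C3 := pd2)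
    rfl k0_mm_012_t

noncomputable def cut_mm_022_s : Cut := Cut.of [[⟨4, 0, 0, 1449551462⟩]]

noncomputable def f_mm_022_s : ℕ → ℕ → ℕ → ℕ → Bool := onCell 0 536870912 0 536870912 587336777 62277027
    (rowNE 3 eng mog cd0q0 cd0q2 pd2 0 true false false .pp 0 2 2 (qsf 0 536870912 0 536870912 2) ndB0q0 ndB0q2 pcB2 cut_mm_022_s Ext.none)

def k0_mm_022_s : ∃ t, chk3 f_mm_022_s t 1 1 1 = true :=
  ⟨(l 5), by decide +kernel⟩

theorem c_mm_022_s : CertNE 0 536870912 0 536870912 587336777 62277027 3 eng mog cd0q0 cd0q2 pd2 true false false .pp 0 2 2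
    ndB0q0 ndB0q2 pcB2 cut_mm_022_s Ext.none :=
  certNE0 (fam := true) (s1 := false) (s2 := false) (a := 0) (b := 2) (c := 2) (cn := .pp) (n1 := ndB0q0) (n2 := ndB0q2) (pc := pcB2) (cut := cut_mm_022_s) (xt := Ext.none) (P1 := 0) (W1 := 536870912) (P2 := 0) (W2 := 536870912) (P3 := 587336777) (W3 := 62277027) (N0 := 3) (En := eng) (mo := mog) (C1 := cd0q0) (C2 := cd0q2) (C3 := pd2)
    rfl k0_mm_022_s

noncomputable def cut_mm_022_t : Cut := Cut.of [[⟨3, 0, 0, 2845415833⟩]]

noncomputable def f_mm_022_t : ℕ → ℕ → ℕ → ℕ → Bool := onCell 0 536870912 0 536870912 587336777 62277027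
    (rowNE 3 eng mog cd0q0 cd0q2 pd2 0 true false false .pp 0 2 2 (qsf 0 536870912 0 536870912 2) ndB0q0 ndB0q2 pcB2 cut_mm_022_t Ext.none)

def k0_mm_022_t : ∃ t, chk3 f_mm_022_t t 1 1 1 = true :=
  ⟨(l 5), by decide +kernel⟩

theorem c_mm_022_t : CertNE 0 536870912 0 536870912 587336777 62277027 3 eng mog cd0q0 cd0q2 pd2 true false false .pp 0 2 2
    ndB0q0 ndB0q2 pcB2 cut_mm_022_t Ext.none :=
  certNE0 (fam := true) (s1 := false) (s2 := false) (a := 0) (b := 2) (c := 2) (cn := .pp) (n1 := ndB0q0) (n2 := ndB0q2) (pc := pcB2) (cut := cut_mm_022_t) (xt := Ext.none) (P1 := 0) (W1 := 536870912) (P2 := 0) (W2 := 536870912) (P3 := 587336777) (W3 := 62277027) (N0 := 3) (En := eng) (mo := mog) (C1 := cd0q0) (C2 := cd0q2) (C3 := pd2)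
    rfl k0_mm_022_t

noncomputable def cut_mm_023_s : Cut := Cut.of [[⟨4, 0, 0, 1449551462⟩]]

noncomputable def f_mm_023_s : ℕ → ℕ → ℕ → ℕ → Bool := onCell 0 536870912 0 536870912 587336777 62277027
    (rowNE 3 eng mog cd0q0 cd0q2 pd3 0 true false false .up 0 2 3 (qsf 0 536870912 0 536870912 3) ndB0q0 ndB0q2 pcB3 cut_mm_023_s Ext.none)

def k0_mm_023_s : ∃ t, chk3 f_mm_023_s t 1 1 1 = true :=
  ⟨(l 5), by decide +kernel⟩

theorem c_mm_023_s : CertNE 0 536870912 0 536870912 587336777 62277027 3 eng mog cd0q0 cd0q2 pd3 true false false .up 0 2 3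
    ndB0q0 ndB0q2 pcB3 cut_mm_023_s Ext.none :=
  certNE0 (fam := true) (s1 := false) (s2 := false) (a := 0) (b := 2) (c := 3) (cn := .up) (n1 := ndB0q0) (n2 := ndB0q2) (pc := pcB3) (cut := cut_mm_023_s) (xt := Ext.none) (P1 := 0) (W1 := 536870912) (P2 := 0) (W2 := 536870912) (P3 := 587336777) (W3 := 62277027) (N0 := 3) (En := eng) (mo := mog) (C1 := cd0q0) (C2 := cd0q2) (C3 := pd3)
    rfl k0_mm_023_s

noncomputable def cut_mm_023_t : Cut := Cut.of [[⟨3, 0, 0, 2845415833⟩]]

noncomputable def f_mm_023_t : ℕ → ℕ → ℕ → ℕ → Bool := onCell 0 536870912 0 536870912 587336777 62277027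
    (rowNE 3 eng mog cd0q0 cd0q2 pd3 0 true false false .up 0 2 3 (qsf 0 536870912 0 536870912 3) ndB0q0 ndB0q2 pcB3 cut_mm_023_t Ext.none)

def k0_mm_023_t : ∃ t, chk3 f_mm_023_t t 1 1 1 = true :=
  ⟨(l 5), by decide +kernel⟩

theorem c_mm_023_t : CertNE 0 536870912 0 536870912 587336777 62277027 3 eng mog cd0q0 cd0q2 pd3 true false false .up 0 2 3
    ndB0q0 ndB0q2 pcB3 cut_mm_023_t Ext.none :=
  certNE0 (fam := true) (s1 := false) (s2 := false) (a := 0) (b := 2) (c := 3) (cn := .up) (n1 := ndB0q0) (n2 := ndB0q2) (pc := pcB3) (cut := cut_mm_023_t) (xt := Ext.none) (P1 := 0) (W1 := 536870912) (P2 := 0) (W2 := 536870912) (P3 := 587336777) (W3 := 62277027) (N0 := 3) (En := eng) (mo := mog) (C1 := cd0q0) (C2 := cd0q2) (C3 := pd3)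
    rfl k0_mm_023_t

noncomputable def cut_mm_101_s : Cut := Cut.of [[⟨4, 0, 0, 1449551462⟩], [⟨0, 1, 0, 67108864⟩, ⟨1, 0, 0, 67108864⟩, ⟨2, 1, 0, 67108864⟩]]

noncomputable def f_mm_101_s : ℕ → ℕ → ℕ → ℕ → Bool := onCell 536870912 536870912 0 536870912 587336777 62277027
    (rowNE 3 eng mog cd0q1 cd0q0 pd1 0 true false false .npn 1 0 1 (qsf 536870912 536870912 0 536870912 1) ndB0q1 ndB0q0 pcB1 cut_mm_101_s Ext.none)

def k0_mm_101_s : ∃ t, chk3 f_mm_101_s t 1 1 1 = true :=
  ⟨(l 6), by decide +kernel⟩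

theorem c_mm_101_s : CertNE 536870912 536870912 0 536870912 587336777 62277027 3 eng mog cd0q1 cd0q0 pd1 true false false .npn 1 0 1
    ndB0q1 ndB0q0 pcB1 cut_mm_101_s Ext.none :=
  certNE0 (fam := true) (s1 := false) (s2 := false) (a := 1) (b := 0) (c := 1) (cn := .npn) (n1 := ndB0q1) (n2 := ndB0q0) (pc := pcB1) (cut := cut_mm_101_s) (xt := Ext.none) (P1 := 536870912) (W1 := 536870912) (P2 := 0) (W2 := 536870912) (P3 := 587336777) (W3 := 62277027) (N0 := 3) (En := eng) (mo := mog) (C1 := cd0q1) (C2 := cd0q0) (C3 := pd1)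
    rfl k0_mm_101_s

noncomputable def cut_mm_101_t : Cut := Cut.of [[⟨3, 0, 0, 2845415833⟩], [⟨0, 1, 0, 67108864⟩, ⟨1, 0, 0, 67108864⟩, ⟨2, 1, 0, 67108864⟩]]

noncomputable def f_mm_101_t : ℕ → ℕ → ℕ → ℕ → Bool := onCell 536870912 536870912 0 536870912 587336777 62277027
    (rowNE 3 eng mog cd0q1 cd0q0 pd1 0 true false false .npn 1 0 1 (qsf 536870912 536870912 0 536870912 1) ndB0q1 ndB0q0 pcB1 cut_mm_101_t Ext.none)

def k0_mm_101_t : ∃ t, chk3 f_mm_101_t t 1 1 1 = true :=
  ⟨(a (l 4) (b (a (l 4) (b (a (l 4) (b (a (l 4) (b (l 14) (l 4))) (l 4))) (l 4))) (l 4))), by decide +kernel⟩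

theorem c_mm_101_t : CertNE 536870912 536870912 0 536870912 587336777 62277027 3 eng mog cd0q1 cd0q0 pd1 true false false .npn 1 0 1
    ndB0q1 ndB0q0 pcB1 cut_mm_101_t Ext.none :=
  certNE0 (fam := true) (s1 := false) (s2 := false) (a := 1) (b := 0) (c := 1) (cn := .npn) (n1 := ndB0q1) (n2 := ndB0q0) (pc := pcB1) (cut := cut_mm_101_t) (xt := Ext.none) (P1 := 536870912) (W1 := 536870912) (P2 := 0) (W2 := 536870912) (P3 := 587336777) (W3 := 62277027) (N0 := 3) (En := eng) (mo := mog) (C1 := cd0q1) (C2 := cd0q0) (C3 := pd1)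
    rfl k0_mm_101_t

noncomputable def cut_mm_102_s : Cut := Cut.of [[⟨4, 0, 0, 1449551462⟩], [⟨0, 1, 0, 67108864⟩, ⟨1, 0, 0, 67108864⟩, ⟨2, 1, 0, 67108864⟩]]

noncomputable def f_mm_102_s : ℕ → ℕ → ℕ → ℕ → Bool := onCell 536870912 536870912 0 536870912 587336777 62277027
    (rowNE 3 eng mog cd0q1 cd0q0 pd2 0 true false false .npp 1 0 2 (qsf 536870912 536870912 0 536870912 2) ndB0q1 ndB0q0 pcB2 cut_mm_102_s Ext.none)

def k0_mm_102_s : ∃ t, chk3 f_mm_102_s t 1 1 1 = true :=
  ⟨(l 6), by decide +kernel⟩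

theorem c_mm_102_s : CertNE 536870912 536870912 0 536870912 587336777 62277027 3 eng mog cd0q1 cd0q0 pd2 true false false .npp 1 0 2
    ndB0q1 ndB0q0 pcB2 cut_mm_102_s Ext.none :=
  certNE0 (fam := true) (s1 := false) (s2 := false) (a := 1) (b := 0) (c := 2) (cn := .npp) (n1 := ndB0q1) (n2 := ndB0q0) (pc := pcB2) (cut := cut_mm_102_s) (xt := Ext.none) (P1 := 536870912) (W1 := 536870912) (P2 := 0) (W2 := 536870912) (P3 := 587336777) (W3 := 62277027) (N0 := 3) (En := eng) (mo := mog) (C1 := cd0q1) (C2 := cd0q0) (C3 := pd2)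
    rfl k0_mm_102_s

noncomputable def cut_mm_102_t : Cut := Cut.of [[⟨3, 0, 0, 2845415833⟩], [⟨0, 1, 0, 67108864⟩, ⟨1, 0, 0, 67108864⟩, ⟨2, 1, 0, 67108864⟩]]

noncomputable def f_mm_102_t : ℕ → ℕ → ℕ → ℕ → Bool := onCell 536870912 536870912 0 536870912 587336777 62277027
    (rowNE 3 eng mog cd0q1 cd0q0 pd2 0 true false false .npp 1 0 2 (qsf 536870912 536870912 0 536870912 2) ndB0q1 ndB0q0 pcB2 cut_mm_102_t Ext.none)

def k0_mm_102_t : ∃ t, chk3 f_mm_102_t t 1 1 1 = true :=
  ⟨(a (l 4) (b (a (l 4) (b (a (l 4) (b (a (l 4) (b (l 14) (l 4))) (l 4))) (l 4))) (l 4))), by decide +kernel⟩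

theorem c_mm_102_t : CertNE 536870912 536870912 0 536870912 587336777 62277027 3 eng mog cd0q1 cd0q0 pd2 true false false .npp 1 0 2
    ndB0q1 ndB0q0 pcB2 cut_mm_102_t Ext.none :=
  certNE0 (fam := true) (s1 := false) (s2 := false) (a := 1) (b := 0) (c := 2) (cn := .npp) (n1 := ndB0q1) (n2 := ndB0q0) (pc := pcB2) (cut := cut_mm_102_t) (xt := Ext.none) (P1 := 536870912) (W1 := 536870912) (P2 := 0) (W2 := 536870912) (P3 := 587336777) (W3 := 62277027) (N0 := 3) (En := eng) (mo := mog) (C1 := cd0q1) (C2 := cd0q0) (C3 := pd2)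
    rfl k0_mm_102_t

noncomputable def cut_mm_112_s : Cut := Cut.of [[⟨4, 0, 0, 1449551462⟩]]

noncomputable def f_mm_112_s : ℕ → ℕ → ℕ → ℕ → Bool := onCell 536870912 536870912 536870912 536870912 587336777 62277027
    (rowNE 3 eng mog cd0q1 cd0q1 pd2 0 true false false .dn 1 1 2 (qsf 536870912 536870912 536870912 536870912 2) ndB0q1 ndB0q1 pcB2 cut_mm_112_s Ext.none)

def k0_mm_112_s : ∃ t, chk3 f_mm_112_s t 1 1 1 = true :=
  ⟨(l 4), by decide +kernel⟩

theorem c_mm_112_s : CertNE 536870912 536870912 536870912 536870912 587336777 62277027 3 eng mog cd0q1 cd0q1 pd2 true false false .dn 1 1 2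
    ndB0q1 ndB0q1 pcB2 cut_mm_112_s Ext.none :=
  certNE0 (fam := true) (s1 := false) (s2 := false) (a := 1) (b := 1) (c := 2) (cn := .dn) (n1 := ndB0q1) (n2 := ndB0q1) (pc := pcB2) (cut := cut_mm_112_s) (xt := Ext.none) (P1 := 536870912) (W1 := 536870912) (P2 := 536870912) (W2 := 536870912) (P3 := 587336777) (W3 := 62277027) (N0 := 3) (En := eng) (mo := mog) (C1 := cd0q1) (C2 := cd0q1) (C3 := pd2)
    rfl k0_mm_112_s

noncomputable def cut_mm_112_t : Cut := Cut.of [[⟨3, 0, 0, 2845415833⟩]]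

noncomputable def f_mm_112_t : ℕ → ℕ → ℕ → ℕ → Bool := onCell 536870912 536870912 536870912 536870912 587336777 62277027
    (rowNE 3 eng mog cd0q1 cd0q1 pd2 0 true false false .dn 1 1 2 (qsf 536870912 536870912 536870912 536870912 2) ndB0q1 ndB0q1 pcB2 cut_mm_112_t Ext.none)

def k0_mm_112_t : ∃ t, chk3 f_mm_112_t t 1 1 1 = true :=
  ⟨(l 4), by decide +kernel⟩

theorem c_mm_112_t : CertNE 536870912 536870912 536870912 536870912 587336777 62277027 3 eng mog cd0q1 cd0q1 pd2 true false false .dn 1 1 2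
    ndB0q1 ndB0q1 pcB2 cut_mm_112_t Ext.none :=
  certNE0 (fam := true) (s1 := false) (s2 := false) (a := 1) (b := 1) (c := 2) (cn := .dn) (n1 := ndB0q1) (n2 := ndB0q1) (pc := pcB2) (cut := cut_mm_112_t) (xt := Ext.none) (P1 := 536870912) (W1 := 536870912) (P2 := 536870912) (W2 := 536870912) (P3 := 587336777) (W3 := 62277027) (N0 := 3) (En := eng) (mo := mog) (C1 := cd0q1) (C2 := cd0q1) (C3 := pd2)
    rfl k0_mm_112_t

noncomputable def cut_mm_113_s : Cut := Cut.of [[⟨4, 0, 0, 1449551462⟩]]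

noncomputable def f_mm_113_s : ℕ → ℕ → ℕ → ℕ → Bool := onCell 536870912 536870912 536870912 536870912 587336777 62277027
    (rowNE 3 eng mog cd0q1 cd0q1 pd3 0 true false false .nn 1 1 3 (qsf 536870912 536870912 536870912 536870912 3) ndB0q1 ndB0q1 pcB3 cut_mm_113_s Ext.none)

def k0_mm_113_s : ∃ t, chk3 f_mm_113_s t 1 1 1 = true :=
  ⟨(l 4), by decide +kernel⟩

theorem c_mm_113_s : CertNE 536870912 536870912 536870912 536870912 587336777 62277027 3 eng mog cd0q1 cd0q1 pd3 true false false .nn 1 1 3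
    ndB0q1 ndB0q1 pcB3 cut_mm_113_s Ext.none :=
  certNE0 (fam := true) (s1 := false) (s2 := false) (a := 1) (b := 1) (c := 3) (cn := .nn) (n1 := ndB0q1) (n2 := ndB0q1) (pc := pcB3) (cut := cut_mm_113_s) (xt := Ext.none) (P1 := 536870912) (W1 := 536870912) (P2 := 536870912) (W2 := 536870912) (P3 := 587336777) (W3 := 62277027) (N0 := 3) (En := eng) (mo := mog) (C1 := cd0q1) (C2 := cd0q1) (C3 := pd3)
    rfl k0_mm_113_s

noncomputable def cut_mm_113_t : Cut := Cut.of [[⟨3, 0, 0, 2845415833⟩]]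

noncomputable def f_mm_113_t : ℕ → ℕ → ℕ → ℕ → Bool := onCell 536870912 536870912 536870912 536870912 587336777 62277027
    (rowNE 3 eng mog cd0q1 cd0q1 pd3 0 true false false .nn 1 1 3 (qsf 536870912 536870912 536870912 536870912 3) ndB0q1 ndB0q1 pcB3 cut_mm_113_t Ext.none)

def k0_mm_113_t : ∃ t, chk3 f_mm_113_t t 1 1 1 = true :=
  ⟨(l 4), by decide +kernel⟩

theorem c_mm_113_t : CertNE 536870912 536870912 536870912 536870912 587336777 62277027 3 eng mog cd0q1 cd0q1 pd3 true false false .nn 1 1 3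
    ndB0q1 ndB0q1 pcB3 cut_mm_113_t Ext.none :=
  certNE0 (fam := true) (s1 := false) (s2 := false) (a := 1) (b := 1) (c := 3) (cn := .nn) (n1 := ndB0q1) (n2 := ndB0q1) (pc := pcB3) (cut := cut_mm_113_t) (xt := Ext.none) (P1 := 536870912) (W1 := 536870912) (P2 := 536870912) (W2 := 536870912) (P3 := 587336777) (W3 := 62277027) (N0 := 3) (En := eng) (mo := mog) (C1 := cd0q1) (C2 := cd0q1) (C3 := pd3)
    rfl k0_mm_113_t

noncomputable def cut_mm_123_s : Cut := Cut.of [[⟨4, 0, 0, 1449551462⟩]]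

noncomputable def f_mm_123_s : ℕ → ℕ → ℕ → ℕ → Bool := onCell 536870912 536870912 0 536870912 587336777 62277027
    (rowNE 3 eng mog cd0q1 cd0q2 pd3 0 true false false .npn 1 2 3 (qsf 536870912 536870912 0 536870912 3) ndB0q1 ndB0q2 pcB3 cut_mm_123_s Ext.none)

def k0_mm_123_s : ∃ t, chk3 f_mm_123_s t 1 1 1 = true :=
  ⟨(l 6), by decide +kernel⟩

theorem c_mm_123_s : CertNE 536870912 536870912 0 536870912 587336777 62277027 3 eng mog cd0q1 cd0q2 pd3 true false false .npn 1 2 3
    ndB0q1 ndB0q2 pcB3 cut_mm_123_s Ext.none :=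
  certNE0 (fam := true) (s1 := false) (s2 := false) (a := 1) (b := 2) (c := 3) (cn := .npn) (n1 := ndB0q1) (n2 := ndB0q2) (pc := pcB3) (cut := cut_mm_123_s) (xt := Ext.none) (P1 := 536870912) (W1 := 536870912) (P2 := 0) (W2 := 536870912) (P3 := 587336777) (W3 := 62277027) (N0 := 3) (En := eng) (mo := mog) (C1 := cd0q1) (C2 := cd0q2) (C3 := pd3)
    rfl k0_mm_123_s

noncomputable def cut_mm_123_t : Cut := Cut.of [[⟨3, 0, 0, 2845415833⟩]]

noncomputable def f_mm_123_t : ℕ → ℕ → ℕ → ℕ → Bool := onCell 536870912 536870912 0 536870912 587336777 62277027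
    (rowNE 3 eng mog cd0q1 cd0q2 pd3 0 true false false .npn 1 2 3 (qsf 536870912 536870912 0 536870912 3) ndB0q1 ndB0q2 pcB3 cut_mm_123_t Ext.none)

def k0_mm_123_t : ∃ t, chk3 f_mm_123_t t 1 1 1 = true :=
  ⟨(a (l 5) (l 4)), by decide +kernel⟩

theorem c_mm_123_t : CertNE 536870912 536870912 0 536870912 587336777 62277027 3 eng mog cd0q1 cd0q2 pd3 true false false .npn 1 2 3
    ndB0q1 ndB0q2 pcB3 cut_mm_123_t Ext.none :=
  certNE0 (fam := true) (s1 := false) (s2 := false) (a := 1) (b := 2) (c := 3) (cn := .npn) (n1 := ndB0q1) (n2 := ndB0q2) (pc := pcB3) (cut := cut_mm_123_t) (xt := Ext.none) (P1 := 536870912) (W1 := 536870912) (P2 := 0) (W2 := 536870912) (P3 := 587336777) (W3 := 62277027) (N0 := 3) (En := eng) (mo := mog) (C1 := cd0q1) (C2 := cd0q2) (C3 := pd3)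
    rfl k0_mm_123_t

noncomputable def cut_mm_202_s : Cut := Cut.of [[⟨4, 0, 0, 1449551462⟩], [⟨0, 1, 0, 67108864⟩, ⟨1, 0, 0, 67108864⟩, ⟨2, 1, 0, 67108864⟩]]

noncomputable def f_mm_202_s : ℕ → ℕ → ℕ → ℕ → Bool := onCell 0 536870912 0 536870912 587336777 62277027
    (rowNE 3 eng mog cd0q2 cd0q0 pd2 0 true false false .pp 2 0 2 (qsf 0 536870912 0 536870912 2) ndB0q2 ndB0q0 pcB2 cut_mm_202_s Ext.none)

def k0_mm_202_s : ∃ t, chk3 f_mm_202_s t 1 1 1 = true :=
  ⟨(l 6), by decide +kernel⟩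

theorem c_mm_202_s : CertNE 0 536870912 0 536870912 587336777 62277027 3 eng mog cd0q2 cd0q0 pd2 true false false .pp 2 0 2
    ndB0q2 ndB0q0 pcB2 cut_mm_202_s Ext.none :=
  certNE0 (fam := true) (s1 := false) (s2 := false) (a := 2) (b := 0) (c := 2) (cn := .pp) (n1 := ndB0q2) (n2 := ndB0q0) (pc := pcB2) (cut := cut_mm_202_s) (xt := Ext.none) (P1 := 0) (W1 := 536870912) (P2 := 0) (W2 := 536870912) (P3 := 587336777) (W3 := 62277027) (N0 := 3) (En := eng) (mo := mog) (C1 := cd0q2) (C2 := cd0q0) (C3 := pd2)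
    rfl k0_mm_202_s

noncomputable def cut_mm_202_t : Cut := Cut.of [[⟨3, 0, 0, 2845415833⟩], [⟨0, 1, 0, 67108864⟩, ⟨1, 0, 0, 67108864⟩, ⟨2, 1, 0, 67108864⟩]]

noncomputable def f_mm_202_t : ℕ → ℕ → ℕ → ℕ → Bool := onCell 0 536870912 0 536870912 587336777 62277027
    (rowNE 3 eng mog cd0q2 cd0q0 pd2 0 true false false .pp 2 0 2 (qsf 0 536870912 0 536870912 2) ndB0q2 ndB0q0 pcB2 cut_mm_202_t Ext.none)

def k0_mm_202_t : ∃ t, chk3 f_mm_202_t t 2 2 1 = true :=
  ⟨(b (a (l 6) (b (l 6) (a (l 6) (a (l 6) (b (a (l 6) (b (l 6) (l 16580920))) (b (l 16627744) (l 16617520))))))) (a (b (l 6) (a (l 6) (b (l 6) (a (l 6) (l 16616040))))) (b (a (a (l 6) (b (l 6) (l 16611224))) (b (a (b (l 16583912) (l 16594768)) (b (l 16628632) (l 16640168))) (a (b (l 16606296) (l 16618704)) (b (l 16652264) (l 16665128))))) (a (b (b (a (l 16586792) (l 16608200)) (l 16663680)) (a (l 16628360) (b (l 16635800) (l 16651808)))) (b (a (b (l 16679008) (l 16664296)) (b (a (l 16651032) (l 16664752)) (b (c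 (l 16690480) (l 16688256)) (l 16695560)))) (a (b (l 16677960) (l 16693920)) (a (b (l 16676288) (l 16692240)) (b (l 16712248) (l 16727504))))))))), by decide +kernel⟩

def k1_mm_202_t : ∃ t, chk3 f_mm_202_t t 6 8 1 = true :=
  ⟨(a (b (a (l 6) (a (l 6) (b (b (l 6) (l 16564848)) (b (l 16581720) (l 16587912))))) (b (a (l 6) (a (l 16599456) (l 16617872))) (a (a (l 6) (b (l 16579720) (c (l 16608040) (l 16626168)))) (a (b (l 16592272) (c (l 16599352) (l 16618264))) (c (l 16609232) (l 16608296)))))) (b (a (b (a (b (l 16580496) (l 16587496)) (b (l 16603400) (l 16600288))) (a (b (a (l 16591048) (l 16597464)) (l 16600848)) (b (l 16607424) (a (l 16610904) (l 16617816))))) (b (a (b (c (l 16608184) (l 16603600)) (c (l 16615560) (l 16611664))) (a (b (l 16616288) (l 16624256)) (b (l 16623440) (l 16631552)))) (a (b (l 16631704) (l 16639000)) (b (c (l 16637416) (l 16633832)) (a (l 16639528) (l 16647128)))))) (a (a (b (b (l 16607280) (l 16613584)) (l 16633360)) (b (b (l 16621176) (l 16627856))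 (b (l 16634456) (l 16641000)))) (b (a (b (a (l 16631952) (l 16639352)) (a (l 16638904) (l 16646472))) (b (a (l 16646920) (l 16654664)) (a (l 16654200) (l 16662096)))) (a (b (l 16649656) (l 16656552)) (b (a (l 16661400) (l 16669432)) (l 16675264))))))), by decide +kernel⟩

def k2_mm_202_t : ∃ t, chk3 f_mm_202_t t 6 9 1 = true :=
  ⟨(a (b (a (a (b (l 16597592) (l 16613928)) (b (b (l 16591296) (l 16597064)) (b (l 16602832) (l 16608616)))) (b (a (b (a (l 16600896) (l 16638992)) (l 16610224)) (b (a (l 16614360) (l 16621376)) (l 16633632))) (a (l 16619224) (l 16643960)))) (a (b (a (l 16604136) (l 16617352)) (b (l 16640432) (l 16646312))) (b (a (l 16631304) (l 16646000)) (a (l 16643576) (l 16679680))))) (b (a (b (a (b (l 16632288) (a (l 16635000) (l 16642480))) (b (l 16647504) (l 16654096))) (b (a (l 16645224) (c (l 16682176) (l 16681504))) (a (l 16651680) (l 16667480)))) (a (b (b (l 16663416) (l 16670248)) (b (l 16698024) (a (l 16679752) (l 16709136)))) (b (b (l 16685064)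 (l 16697448)) (b (l 16704568) (a (l 16696784) (l 16705544)))))) (a (b (a (l 16682384) (b (l 16674176) (l 16680912))) (a (l 16685056) (c (l 16712384) (l 16701488)))) (b (a (c (l 16715504) (l 16704808)) (b (a (l 16724840) (a (l 16731464) (l 16735920))) (l 16726024))) (a (b (l 16715440) (l 16722624)) (b (c (l 16722848) (l 16733216)) (c (l 16740712) (l 16740560)))))))), by decide +kernel⟩

def k3_mm_202_t : ∃ t, chk3 f_mm_202_t t 14 16 1 = true :=
  ⟨(b (a (a (a (b (b (l 16628704) (l 16632896)) (l 16639064)) (b (b (l 16636272) (l 16640536)) (l 16646800))) (b (b (a (l 16644088) (l 16652160)) (a (l 16648408) (l 16656536))) (b (a (l 16652664) (l 16660848)) (a (l 16656856) (l 16665104))))) (a (a (b (b (l 14) (l 16664936)) (b (l 16669296) (l 16673592))) (b (l 14) (b (l 16678008) (l 16682352)))) (b (l 14) (b (l 14) (a (c (l 16693064) (l 16689624)) (l 14)))))) (a (a (b (c (l 16652792) (l 16659584)) (a (l 16654920) (l 16662920))) (a (b (l 16663048) (l 16671136)) (b (a (l 16669264)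 (l 16673488)) (l 16690056)))) (a (b (a (b (l 16677840) (l 16682040)) (b (l 16686648) (l 16690888))) (a (b (l 16686184) (l 16690296)) (b (l 16695088) (l 16699240)))) (b (a (b (l 16695728) (l 16700008)) (b (l 14) (c (l 16710696) (l 16708032)))) (a (b (l 16704248) (l 16708440)) (b (c (l 16714856) (l 16712424)) (c (l 16718984) (l 16716768)))))))), by decide +kernel⟩

def k4_mm_202_t : ∃ t, chk3 f_mm_202_t t 14 17 1 = true :=
  ⟨(a (a (b (b (a (l 16662600) (l 16670728)) (a (l 16670160) (l 16678416))) (b (c (l 16693200) (l 16691312)) (a (l 16685056) (l 16693552)))) (a (b (b (l 16679056) (l 16686864)) (b (l 16694576) (l 16702232))) (b (b (l 16687608) (l 16706008)) (b (l 16713824) (c (l 16711808) (l 16710280)))))) (b (a (a (b (b (l 16694368) (l 16698400)) (b (l 16702400) (l 16706384))) (b (b (l 16703360) (l 16707440)) (b (l 16711488) (l 16715512)))) (b (b (a (l 16712600) (c (l 16723072) (l 16721072))) (a (l 16716720) (c (l 16727136) (l 16725336)))) (a (b (l 16720816) (l 16735368))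 (b (c (l 16731176) (l 16729560)) (c (l 16735184) (l 16733752)))))) (a (b (a (b (l 16710336) (l 16714272)) (c (l 16732760) (l 16725904))) (a (b (l 16718200) (l 16722112)) (b (l 16727456) (l 16741888)))) (b (a (b (l 16734160) (c (l 16733576) (l 16732240))) (b (c (l 16739184) (l 16743160)) (c (l 16748400) (l 16747296)))) (a (b (c (l 16737504) (l 16736320)) (c (l 16741416) (l 16740384))) (a (b (l 16744200) (l 16748208)) (b (l 16754360) (c (l 16753504) (l 16752760))))))))), by decide +kernel⟩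

def k5_mm_202_t : ∃ t, chk3 f_mm_202_t t 15 16 1 = true :=
  ⟨(a (b (l 14) (a (b (l 14) (a (a (b (l 16720928) (l 16725184)) (b (l 16725856) (l 16730128))) (b (l 14) (c (a (l 16735960) (l 16740968)) (a (l 16734296) (l 16739480)))))) (l 14))) (l 14)), by decide +kernel⟩

def k6_mm_202_t : ∃ t, chk3 f_mm_202_t t 30 68 1 = true :=
  ⟨(a (a (a (b (l 16729408) (l 16733592)) (b (l 16734368) (l 16743808))) (a (b (c (l 16740112) (l 16738648)) (c (l 16744232) (l 16742960))) (b (c (l 16745136) (l 16743840)) (c (l 16749264) (l 16750792))))) (a (b (a (b (l 16751240) (a (l 16749448) (l 16752056))) (l 14)) (a (c (c (l 16759832) (l 16756776)) (c (l 16756320) (l 16755840))) (a (c (l 16760872) (l 16760104)) (b (l 16759472) (l 16764208))))) (a (b (l 14) (b (l 14) (a (a (l 16763592) (l 16764936)) (a (l 16767600) (l 14))))) (l 14)))), by decide +kernel⟩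

def k7_mm_202_t : ∃ t, chk3 f_mm_202_t t 60 69 1 = true :=
  ⟨(a (a (b (l 16737744) (l 16741872)) (b (l 16747976) (c (l 16747400) (l 16746328)))) (a (b (c (l 16748328) (l 16747240)) (c (l 16752400) (l 16756728))) (b (b (l 16754504) (l 16756600)) (c (c (l 16762880) (l 16759904)) (c (l 16759536) (l 16759144)))))), by decide +kernel⟩

def k8_mm_202_t : ∃ t, chk3 f_mm_202_t t 122 69 1 = true :=
  ⟨(b (a (a (c (l 16757208) (l 16756424)) (c (l 16762408) (l 16761720))) (b (a (l 16761040) (a (l 16763032) (l 16764368))) (a (l 16764456) (a (l 16765136) (l 16766472))))) (b (a (c (l 16764192) (l 16763592)) (a (c (l 16765464) (l 16765000)) (c (l 16770696) (l 16769032)))) (a (a (l 16762048) (l 16765984)) (a (c (l 16767504) (l 16767136)) (c (c (l 16772816) (l 16771368)) (c (l 16771232) (l 16771088))))))), by decide +kernel⟩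

def k9_mm_202_t : ∃ t, chk3 f_mm_202_t t 246 69 1 = true :=
  ⟨(b (a (c (b (l 16766592) (l 16769968)) (b (l 16768784) (c (l 16768400) (l 16768224)))) (a (c (b (l 16768576) (l 16770640)) (b (l 16768224) (l 16771688))) (b (c (l 16769904) (l 16769608)) (b (l 16771336) (l 16773048))))) (b (a (a (c (l 16770048) (l 16769768)) (b (l 16770736) (l 16771784))) (a (b (l 16773400) (a (l 16772800) (l 16773472))) (b (c (l 16773520) (l 16774680)) (a (l 16774808) (a (l 16775320) (l 16775656)))))) (a (a (b (l 16771480) (l 16773840)) (b (l 16773488) (a (l 16773536) (l 16774872)))) (a (a (b (l 16773848) (a (l 16776032) (l 16775712))) (c (l 16775744) (b (l 16774472) (b (l 16775272) (l 16777112))))) (b (c (l 16776232) (l 16776160)) (a (a (l 16776080) (l 16776744)) (b (l 16777320) (a (l 16777672) (b (l 49627005735) (l 102240355751)))))))))), by decide +kernel⟩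

def k10_mm_202_t : ∃ t, chk3 f_mm_202_t t 247 138 1 = true :=
  ⟨(b (b (l 14) (a (a (l 16772952) (a (l 16772664) (l 14))) (l 14))) (b (a (c (a (l 16772784) (l 16774784)) (a (l 16772608) (c (l 16775344) (l 16775280)))) (a (a (c (l 16775792) (l 16775704)) (a (c (l 16776296) (l 16776232)) (l 16776280))) (a (a (c (l 16776312) (l 16776272)) (l 14)) (l 14)))) (a (a (c (l 16775128) (l 16774336)) (a (a (l 16775264) (l 16775600)) (b (l 16775856) (a (l 16775552) (l 16776552))))) (a (a (c (l 16776168) (l 16776456)) (b (l 16776896) (a (l 16777416) (b (l 16777624) (a (l 85597356679) (l 4)))))) (a (b (a (a (l 16777328) (b (l 16777040) (l 81302389367))) (b (c (l 68954358551) (l 70564971271)) (l 4))) (c (l 164517381063) (l 168812348327))) (l 4)))))), by decide +kernel⟩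

def k11_mm_202_t : ∃ t, chk3 f_mm_202_t t 247 139 1 = true :=
  ⟨(a (a (b (b (a (a (l 16774296) (l 16775288)) (b (l 16774880) (l 16776064))) (c (l 16776376) (c (l 16776496) (l 16776144)))) (b (a (b (l 16776304) (c (l 16777488) (l 16777472))) (a (b (l 16776816) (b (l 42647683863) (l 96334775687))) (b (b (l 16777024) (l 63048778647)) (l 4)))) (b (a (a (b (l 16777048) (l 69491229639)) (a (l 104387838967) (l 4))) (l 4)) (l 4)))) (b (b (a (a (b (l 16775392) (l 16776576)) (l 16776328)) (b (l 16776248) (c (l 16777440) (l 16777256)))) (b (a (l 16776616) (a (b (l 16777000) (l 57680069479)) (b (l 83449873239) (l 4)))) (a (a (l 16777624) (b (l 16777664) (c (l 123715191543) (l 126399546087)))) (l 4)))) (a (b (b (b (c (l 145726898727) (l 147337511431)) (l 4)) (l 4)) (l 4)) (l 4)))) (b (a (b (a (a (b (l 16776768) (b (l 16777648) (c (l 82376131815) (l 116198998759)))) (b (b (l 16776976) (l 51237618503)) (l 168275477191))) (b (b (a (a (l 16777544) (l 98482258983)) (l 4)) (l 4)) (l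 4))) (l 4)) (l 4)) (l 4))), by decide +kernel⟩

def k12_mm_202_t : ∃ t, chk3 f_mm_202_t t 60 35 1 = true :=
  ⟨(b (a (a (b (l 16751216) (c (l 16750480) (l 16749584))) (b (c (l 16751432) (l 16750528)) (c (l 16755448) (l 16759944)))) (a (b (c (l 16759064) (l 16758976)) (c (c (l 16763232) (l 16762960)) (c (l 16762664) (l 16762352)))) (a (b (c (l 16760248) (l 16759624)) (b (l 16763032) (l 16767712))) (b (c (l 16765424) (l 16764888)) (b (l 16768256) (c (l 16767856) (l 16767520))))))) (b (b (a (a (l 16753096) (l 16760768)) (c (a (l 16766112) (a (l 16767304) (l 16772496))) (a (l 16765632) (a (l 16766960) (l 16770920))))) (a (a (l 16755120) (l 16762960)) (a (a (l 16764008) (l 16769208)) (b (a (l 16768672) (c (l 16771384) (l 16773792))) (a (l 16772312) (c (l 16775008) (l 16773528))))))) (a (a (c (l 16763680) (l 16760456)) (a (c (l 16762176) (l 16761688)) (c (l 16767312) (l 16766896)))) (a (b (a (l 16768664) (c (l 16768760) (l 16768472))) (a (a (l 16767424) (l 16768712)) (c (l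 16772072) (l 16771848)))) (a (b (a (l 16771880) (a (l 16772856) (l 16773504))) (b (a (l 16772096) (l 16774712)) (l 16774744))) (a (c (b (l 16775536) (l 16776560)) (b (b (l 16772584) (l 16773624)) (l 16775832))) (b (b (c (l 16776656) (l 16775232)) (l 16775000)) (b (l 16776672) (a (c (l 16778024) (l 16777352)) (b (l 21709718919) (l 145726898855))))))))))), by decide +kernel⟩

def k13_mm_202_t : ∃ t, chk3 f_mm_202_t t 122 70 1 = true :=
  ⟨(b (b (a (a (l 16766744) (a (l 16766096) (l 16767416))) (a (c (l 16770864) (c (l 16769336) (l 16769176))) (a (b (l 16770888) (l 16771928)) (b (l 16773536) (a (l 16772928) (l 16773600)))))) (b (a (a (l 16765672) (l 16768312)) (a (a (l 16770296) (l 16771632)) (a (l 16774280) (a (l 16773968) (l 16775296))))) (a (a (l 16766712) (l 16770656)) (c (a (l 16773408) (l 16775704)) (a (l 16773208) (a (l 16775256) (a (l 16776280) (b (l 16775384) (l 16777224))))))))) (a (b (a (c (l 16768416) (l 16768088)) (c (a (l 16770360) (l 16772968)) (c (l 16772152)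 (l 16772024)))) (a (c (l 16771744) (c (l 16772872) (l 16772744))) (a (b (l 16771784) (l 16774120)) (b (l 16774416) (a (l 16773800) (l 16775776)))))) (a (b (a (b (l 16772368) (l 16774056)) (c (c (l 16775608) (l 16775560)) (b (l 16774944) (c (l 16776024) (l 16775976))))) (a (b (a (l 16775416) (l 16776080)) (l 16776120)) (b (c (l 16775792) (l 16776400)) (b (a (l 16776208) (l 16777528)) (a (l 16776720) (a (l 49627006055) (l 130157642887))))))) (b (b (a (l 16775696) (b (l 16776448) (a (l 16776304) (a (l 16776808) (l 21172847671))))) (b (a (l 16776472) (a (l 16777472) (a (c (l 71101842471) (l 69491229815)) (l 4)))) (a (l 16776824) (a (a (l 25467815015) (l 109219677463)) (l 4))))) (a (a (a (b (l 16777264) (b (l 81302389975) (l 4))) (b (b (l 16776680) (l 44795167815)) (l 4))) (b (a (b (l 16777672) (l 122104579239)) (b (a (l 60364424135) (l 105998451719)) (l 4))) (l 4))) (l 4)))))), by decide +kernel⟩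

def k14_mm_202_t : ∃ t, chk3 f_mm_202_t t 122 71 1 = true :=
  ⟨(a (b (b (a (a (a (l 16772696) (l 16773024)) (b (l 16772520) (l 16774856))) (a (c (c (l 16775736) (l 16775688)) (b (l 16775088) (c (l 16776152) (l 16776112)))) (b (l 16775824) (c (l 16776864) (l 16776912))))) (b (a (a (l 16774560) (c (l 16775928) (l 16775832))) (b (a (l 16775632) (a (l 16776632) (a (l 16777776) (l 101166613703)))) (a (l 16776144) (a (a (l 16776976) (l 65196262647)) (l 4))))) (a (c (l 16775624) (a (l 16775528) (l 16775560))) (b (a (a (l 16776328) (l 16777808)) (a (l 152706220775) (l 4))) (a (a (l 16777496) (a (l 72175584487) (l 4))) (l 4)))))) (a (a (b (b (l 16775952) (c (l 16777640) (c (l 16777616) (l 16776944)))) (a (b (b (l 16776752) (c (l 53385102823) (l 54458844615))) (l 169349219671)) (b (a (b (l 16777872) (l 4)) (l 165054252039)) (l 4)))) (b (a (b (l 16776288) (b (l 14193526039) (c (l 78618036567) (l 104924710407)))) (a (b (l 16777432) (l 161833026519)) (b (b (l 16776856) (l 79154906311))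 (l 4)))) (l 4))) (a (a (b (b (b (a (l 16777832) (l 114588386519)) (l 4)) (l 4)) (l 4)) (l 4)) (l 4)))) (b (a (b (a (a (b (l 16776160) (b (l 16777912) (a (l 59827553479) (l 166664864423)))) (a (b (l 16777320) (b (l 93650420967) (l 4))) (b (b (l 16776736) (l 54458844311)) (l 4)))) (a (b (b (a (l 16777720) (l 88281711799)) (l 165054251911)) (l 4)) (l 4))) (l 4)) (l 4)) (l 4))), by decide +kernel⟩

def k15_mm_202_t : ∃ t, chk3 f_mm_202_t t 123 35 1 = true :=
  ⟨(b (a (b (b (a (b (a (a (l 16773232) (l 16773904)) (a (l 16775240) (b (l 16775000) (l 16776832)))) (a (c (l 16775312) (c (l 16775896) (l 16775848))) (c (l 16776640) (c (l 16776608) (l 16776584))))) (b (a (a (l 16776264) (b (l 16776352) (c (l 16777536) (l 16777520)))) (a (a (b (l 16776864) (b (l 55532585815) (l 151632478951))) (b (b (l 16777072) (l 81302389575)) (l 4))) (b (a (l 153243091495) (l 4)) (l 4)))) (a (b (a (l 16777368) (a (a (l 16777624) (l 71638713287)) (l 157538058823))) (a (a (l 8287945639) (a (l 74323067863)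 (l 128010159031))) (l 4))) (l 4)))) (a (a (b (c (l 16776336) (l 16776280)) (b (c (l 16777104) (l 16777072)) (a (l 16776616) (a (l 16341009415) (b (l 80228647751) (l 4)))))) (b (a (b (l 16776408) (c (l 16777584) (l 16777736))) (a (b (l 16776912) (a (l 79691777031) (l 99556001479))) (b (a (l 16777648) (l 77007422439)) (l 4)))) (a (b (a (a (l 16777672) (l 82913002519)) (l 165591122599)) (l 4)) (l 4)))) (a (a (a (b (b (l 161296155255) (l 4)) (l 4)) (l 4)) (l 4)) (l 4)))) (a (a (b (b (a (b (a (l 16777616) (c (l 63585649751) (l 64659391559))) (c (l 150021866215) (l 150558737095))) (c (l 167738607031) (l 172570445175))) (l 4)) (l 4)) (l 4)) (l 4))) (l 4)) (l 4)), by decide +kernel⟩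

def k16_mm_202_t : ∃ t, chk3 f_mm_202_t t 31 17 1 = true :=
  ⟨(a (b (a (b (l 14) (b (b (l 14) (b (l 14) (l 4))) (l 4))) (l 4)) (l 4)) (l 4)), by decide +kernel⟩

def k17_mm_202_t : ∃ t, chk3 f_mm_202_t t 28 18 1 = true :=
  ⟨(a (b (b (a (l 16692432) (l 16701056)) (b (l 16702320) (l 16706016))) (b (a (l 16707096) (l 16715952)) (c (l 16729568) (l 16729112)))) (a (b (b (l 16716392) (b (l 16715528) (l 16719304))) (b (l 16724960) (l 16737720))) (b (b (b (l 16716880) (l 16720728)) (a (l 16724184) (l 16734008))) (b (c (l 16734440) (b (l 16731784) (l 16735656))) (c (l 16741944) (l 16741440)))))), by decide +kernel⟩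

def k18_mm_202_t : ∃ t, chk3 f_mm_202_t t 29 36 1 = true :=
  ⟨(a (b (a (c (l 16733736) (l 16732600)) (b (l 16740592) (a (l 16736904) (l 16741648)))) (b (a (l 16739024) (c (l 16743576) (l 16742768))) (a (c (l 16738032) (l 16737216)) (c (l 16750048) (l 16751984))))) (b (a (a (c (l 16750120) (l 16749248)) (b (l 16747312) (l 16756528))) (a (b (l 16757448) (c (l 16756480) (l 16755888))) (b (c (l 16757448) (l 16762088)) (b (l 16762784) (l 16764784))))) (a (b (a (l 16750384) (c (l 16755520) (l 16754944))) (a (l 16756936) (a (l 16757968) (l 16763040)))) (a (c (b (l 16763016) (a (l 16763064) (l 16770768))) (b (l 16762552) (a (l 16762696) (l 16767832)))) (a (b (c (l 16769320) (l 16768944)) (b (l 16772120) (a (l 16768232) (l 16769488)))) (b (b (l 16765408) (l 16770024)) (c (l 16773088) (c (l 16772952) (l 16772848))))))))), by decide +kernel⟩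

def k19_mm_202_t : ∃ t, chk3 f_mm_202_t t 29 37 1 = true :=
  ⟨(b (a (a (c (l 16746352) (a (l 16751208) (l 16750696))) (a (b (l 16748600) (l 16760344)) (b (l 16756016) (c (l 16767968) (l 16762304))))) (b (a (c (c (l 16766200) (l 16766024)) (a (l 16763240) (l 16764912))) (b (c (a (l 16772464) (l 16774784)) (a (a (l 16765696) (l 16768216)) (l 16773992))) (a (l 16771688) (a (l 16775440) (c (l 16776672) (c (l 16776632) (l 16776600))))))) (b (a (a (l 16766408) (a (l 16764840) (l 16772552))) (b (a (l 16773168) (a (l 16774296) (a (l 16776184) (a (l 16778272) (l 112977774935))))) (a (l 16774152) (a (l 16775280) (a (a (l 16776856) (l 81302391031)) (l 4)))))) (a (a (l 16769672) (l 16770656)) (a (a (l 16771752) (l 16775560)) (a (c (a (l 16778768) (b (l 16778208) (l 137136964711))) (a (l 16777424) (b (l 16778192) (l 140895061047)))) (a (c (l 162369898903) (l 166664866103)) (l 4)))))))) (b (a (a (l 16754448) (c (l 16764176) (l 16761192))) (a (a (c (l 16766160) (a (l 16769928) (l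 16772400))) (c (l 16773656) (c (l 16773560) (l 16773480)))) (a (a (b (l 16776336) (c (l 16778312) (c (l 16778288) (l 16777608)))) (a (b (l 16775592) (b (a (l 16776744) (l 71101843575)) (l 153779963239))) (a (b (l 16778496) (l 169886091351)) (b (b (l 16776664) (l 100629743911)) (l 4))))) (a (a (b (a (b (l 60901296263) (l 4)) (l 166664865751)) (l 4)) (l 4)) (l 4))))) (a (a (l 16758288) (a (l 16760216) (l 16767680))) (a (a (c (l 16772632) (l 16772488)) (a (c (l 16776296) (l 16774912)) (b (c (l 16775168) (l 16775120)) (a (b (l 16775984) (l 23857203591)) (b (a (l 16776920) (l 89892325639)) (l 165054252663)))))) (a (a (b (a (b (l 16776520) (c (l 77544294983) (l 78081165943))) (b (l 132841997191) (l 4))) (l 4)) (l 4)) (l 4)))))), by decide +kernel⟩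

def k20_mm_202_t : ∃ t, chk3 f_mm_202_t t 28 19 1 = true :=
  ⟨(b (b (a (a (c (l 16742736) (l 16732024)) (l 16730784)) (a (l 16745224) (c (l 16754704) (l 16754368)))) (b (a (a (l 16737680) (c (l 16736416) (l 16746696))) (a (l 16745624) (l 16760264))) (a (a (l 16730888) (l 16750560)) (a (a (l 16757520) (l 16751720)) (c (l 16764136) (l 16763968)))))) (a (b (a (l 16746944) (l 16750936)) (a (l 16749168) (c (l 16763776) (l 16758384)))) (a (b (a (l 16757936) (b (c (l 16766048) (l 16765904)) (l 16759304))) (b (l 16765992) (c (l 16769840) (l 16769744)))) (b (b (b (c (l 16766968) (l 16766840)) (a (l 16766440) (l 16771208))) (a (l 16764056) (b (a (l 16766680) (l 16774320)) (l 16769792)))) (a (b (l 16773120) (c (l 16771720) (l 16774296))) (b (c (l 16775312) (l 16774616)) (a (a (l 16777328) (b (l 16774944) (l 27615300615))) (a (b (l 16776152) (l 140358190423)) (b (c (l 70564973895) (l 72175586567)) (l 4)))))))))), by decide +kernel⟩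

def k21_mm_202_t : ∃ t, chk3 f_mm_202_t t 29 38 1 = true :=
  ⟨(a (a (b (c (b (l 16757016) (l 16766064)) (b (l 16761952) (l 16765832))) (a (b (l 16762152) (l 16771224)) (b (l 16769576) (c (l 16776072) (l 16773376))))) (b (b (a (l 16766696) (c (l 16774248) (l 16771472))) (b (a (l 16766968) (l 16774464)) (a (l 16768904) (a (l 16772552) (l 16775000))))) (a (b (c (l 16774456) (c (l 16774400) (l 16774344))) (a (b (l 16773472) (l 16778024)) (b (c (l 16778544) (l 16778520)) (a (b (l 16776744) (l 97945390087)) (l 157538060279))))) (b (b (a (l 16774488) (a (l 16778944) (b (l 16778376) (l 154853705031)))) (b (a (l 16775936) (c (l 145726900151) (l 150021867367))) (a (a (l 16776288) (l 82376133447)) (l 4)))) (a (a (b (b (l 63048780391) (l 167738607239)) (l 4)) (l 4)) (l 4)))))) (a (b (a (b (a (c (l 16772640) (l 16775176)) (b (l 16774096) (a (l 16775424) (b (l 16776168) (l 51237620295))))) (a (b (c (l 16775528) (l 16778120)) (a (b (l 16776360) (l 65733135159)) (b (l 86134229959)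 (l 4)))) (b (a (b (l 16778192) (a (l 91502938375) (l 4))) (l 163443640583)) (l 4)))) (b (a (a (b (l 16777256) (b (l 71101844263) (l 4))) (b (b (l 16778008) (l 92039809991)) (l 4))) (a (b (b (l 144116286631) (l 4)) (l 4)) (l 4))) (l 4))) (a (b (a (b (c (l 168812351095) (l 173107318247)) (l 4)) (l 4)) (l 4)) (l 4))) (l 4))), by decide +kernel⟩

def k22_mm_202_t : ∃ t, chk3 f_mm_202_t t 29 39 1 = true :=
  ⟨(a (b (a (b (b (a (l 16768856) (a (l 16772472) (l 16774896))) (a (l 16776016) (a (l 16774392) (a (l 16778840) (a (l 38352718871) (l 95261036039)))))) (a (b (a (l 16776728) (l 16773896)) (b (a (l 16772920) (l 16777960)) (a (l 16773888) (b (l 16778688) (l 16779168))))) (a (a (b (l 16775712) (b (l 16778464) (l 159148672455))) (b (c (l 16779560) (l 28689042375)) (l 4))) (b (c (l 147874384391) (a (l 144116286903) (l 4))) (l 4))))) (a (b (a (b (c (a (l 16779352) (l 130694513815)) (a (l 16778680) (l 134452610135))) (c (l 167738609015) (l 172033576167))) (l 4)) (l 4)) (l 4)))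 (a (a (b (b (a (l 16775328) (a (a (l 16778152) (l 77544295415)) (l 152169350967))) (a (a (l 16778616) (a (l 85597359127) (l 153779963383))) (l 4))) (a (b (l 167738608759) (l 4)) (l 4))) (l 4)) (l 4))) (l 4)), by decide +kernel⟩

def k23_mm_202_t : ∃ t, chk3 f_mm_202_t t 60 72 1 = true :=
  ⟨(a (b (b (a (l 16763792) (a (l 16764968) (l 16770144))) (a (a (l 16761920) (l 16764440)) (a (l 16769608) (a (l 16768896) (l 16772800))))) (a (a (c (l 16767720) (l 16767360)) (b (l 16766456) (l 16769768))) (a (b (c (l 16769120) (l 16768864)) (c (l 16773720) (l 16772216))) (b (a (l 16773536) (b (l 16771696) (l 16772704))) (b (c (l 16775752) (l 16775624)) (l 16775384)))))) (a (a (b (c (b (l 16772824) (a (l 16771560) (l 16775448))) (b (l 16772592) (a (l 16771376) (l 16775304)))) (b (c (l 16775488) (a (l 16776048) (l 16774736))) (b (a (l 16775000) (l 16777272)) (a (l 16776000) (a (c (l 16778280) (l 16777944)) (b (l 71101843111) (l 4))))))) (b (b (c (a (l 16774736) (l 16776016)) (a (l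 16774568) (c (l 16775920) (l 16775848)))) (a (l 16775040) (c (l 16775384) (l 16775976)))) (b (a (b (l 16775568) (c (l 16777896) (c (l 16777880) (l 16777864)))) (b (a (l 16776544) (b (l 16776944) (l 84523615895))) (b (a (l 61975037479) (l 4)) (l 4)))) (b (a (a (b (l 16777008) (l 96334775911)) (l 160222413975)) (l 4)) (l 4))))) (b (b (b (b (a (l 16775832) (a (l 16777144) (a (a (l 65196262647) (l 4)) (l 4)))) (a (l 16776344) (a (a (l 16776664) (c (l 64659391927) (l 65733133719))) (l 4)))) (a (a (l 16775136) (c (l 16777768) (c (l 16777744) (l 16777728)))) (a (a (b (l 42110813703) (l 157001188119)) (l 4)) (l 4)))) (a (b (a (l 16776808) (a (b (l 16776880) (l 73249326775)) (c (l 143579415495) (l 146800640935)))) (a (a (c (l 16778152) (l 16778136)) (b (l 51237619287) (l 165591122807))) (l 4))) (l 4))) (a (a (a (a (b (b (l 145726898967) (l 4)) (l 4)) (l 4)) (l 4)) (l 4)) (l 4))))), by decide +kernel⟩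

def k24_mm_202_t : ∃ t, chk3 f_mm_202_t t 60 73 1 = true :=
  ⟨(a (a (a (b (b (l 16770544) (a (l 16769288) (l 16773176))) (a (c (l 16772336) (b (l 16771192) (l 16775832))) (c (l 16774904) (l 16774632)))) (b (b (c (l 16773176) (l 16772976)) (l 16773768)) (b (c (l 16774488) (l 16775720)) (a (c (l 16775824) (l 16777096)) (b (l 16778216) (a (a (l 16778408) (l 77007423383)) (l 160222413943))))))) (b (a (b (a (a (l 16774672) (l 16775312)) (l 16773648)) (c (l 16776352) (c (l 16776304) (l 16776272)))) (b (a (l 16775912) (b (l 16775720) (c (l 16778032) (c (l 16778024) (l 16778176))))) (b (a (l 16777744) (a (a (l 53921973991) (l 95261034487)) (l 4))) (a (a (c (l 16778424) (l 25467815783)) (l 142505673607)) (l 4))))) (a (b (b (a (l 16775864) (b (l 16778208) (a (l 16777072) (l 139284448823)))) (a (a (l 16776544) (a (l 16778328) (l 66270005175))) (a (l 153779962871) (l 4)))) (a (a (b (a (l 72175585111) (l 117809612711)) (l 4)) (l 4)) (l 4))) (l 4)))) (a (b (a (b (a (a (b (l 16777992)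 (a (l 90966067127) (l 168812348455))) (b (b (l 16778384) (l 83449874967)) (l 4))) (a (b (l 166127994119) (l 4)) (l 4))) (l 4)) (l 4)) (l 4)) (l 4))), by decide +kernel⟩

def k25_mm_202_t : ∃ t, chk3 f_mm_202_t t 60 37 1 = true :=
  ⟨(a (b (a (b (a (a (b (l 16776560) (a (b (l 16776424) (l 72712456375)) (b (l 16778360) (l 4)))) (a (b (l 16777512) (b (l 102777227639) (l 4))) (b (b (l 16776344) (l 63585650903)) (l 4)))) (a (b (b (a (l 16778280) (l 95797905639)) (l 168275478279)) (l 4)) (l 4))) (l 4)) (l 4)) (l 4)) (l 4)), by decide +kernel⟩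

def k26_mm_202_t : ∃ t, chk3 f_mm_202_t t 61 18 1 = true :=
  ⟨(l 4), by decide +kernel⟩

def k27_mm_202_t : ∃ t, chk3 f_mm_202_t t 30 19 1 = true :=
  ⟨(l 4), by decide +kernel⟩

def k28_mm_202_t : ∃ t, chk3 f_mm_202_t t 31 9 1 = true :=
  ⟨(l 4), by decide +kernel⟩

def k29_mm_202_t : ∃ t, chk3 f_mm_202_t t 12 10 1 = true :=
  ⟨(b (a (b (b (l 16652280) (l 16658336)) (b (l 16664496) (l 16670752))) (b (a (l 16656152) (l 16692688)) (a (l 16690064) (l 16700816)))) (a (b (a (l 16651968) (l 16687784)) (c (l 16694712) (l 16700928))) (a (b (l 16703416) (l 16714688)) (b (c (l 16720296) (l 16719608)) (b (l 16730464) (l 16727256)))))), by decide +kernel⟩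

def k30_mm_202_t : ∃ t, chk3 f_mm_202_t t 13 20 1 = true :=
  ⟨(a (b (a (b (l 16684616) (l 16691424)) (c (l 16726200) (l 16715552))) (a (c (l 16723136) (l 16712240)) (b (l 16726376) (l 16733664)))) (b (a (b (l 16729872) (c (l 16737192) (l 16737096))) (b (c (l 16748128) (l 16746008)) (a (l 16750912) (l 16756224)))) (a (a (b (l 16729464) (l 16736872)) (b (l 16749144) (l 16756616))) (b (a (l 16755768) (c (l 16767744) (l 16762384))) (a (c (l 16765968) (l 16760608)) (b (l 16768144) (a (l 16764352) (l 16774296)))))))), by decide +kernel⟩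

def k31_mm_202_t : ∃ t, chk3 f_mm_202_t t 26 21 1 = true :=
  ⟨(b (b (a (l 16723024) (c (l 16741024) (l 16740976))) (a (l 16730336) (c (l 16748480) (l 16748424)))) (a (b (l 16737744) (c (l 16745200) (l 16745200))) (b (a (l 16751384) (l 16760624)) (a (l 16758976) (c (l 16768288) (l 16762984)))))), by decide +kernel⟩

def k32_mm_202_t : ∃ t, chk3 f_mm_202_t t 54 21 1 = true :=
  ⟨(b (b (a (l 16754824) (c (l 16764184) (l 16758840))) (a (l 16759088) (b (l 16764600) (l 16768416)))) (a (b (c (l 16770000) (l 16766000)) (b (c (l 16775752) (l 16770464)) (a (l 16771992) (c (l 16771480) (l 16774080))))) (b (b (c (l 16772256) (l 16772208)) (a (l 16773720) (c (l 16773208) (l 16775808)))) (a (b (c (l 16772344) (l 16774944)) (a (c (l 16780280) (l 16778304)) (b (c (l 16779072) (c (l 16779064) (l 15267269495))) (c (l 145190028983) (l 148948123959))))) (b (a (a (l 16777920) (b (l 16775504) (a (l 40500202087) (l 108682808439)))) (b (a (l 16778672) (l 138210706327)) (l 175254801367)))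 (a (b (c (l 159148673399) (l 163443640567)) (l 4)) (l 4))))))), by decide +kernel⟩

def k33_mm_202_t : ∃ t, chk3 f_mm_202_t t 55 21 1 = true :=
  ⟨(b (a (b (c (l 16770920) (a (l 16765864) (l 16770568))) (a (c (l 16773568) (l 16772864)) (b (l 16773728) (a (l 16776384) (b (l 16775160) (a (l 16779120) (a (l 83986746199) (l 103314101527)))))))) (b (a (b (l 16773408) (c (l 16772000) (l 16774584))) (b (c (l 16772888) (l 16775480)) (a (a (l 16777560) (b (l 16775160) (a (l 16776792) (l 82376133463)))) (a (b (l 16776344) (l 154853705287)) (b (c (l 88281713911) (l 90966068407)) (l 4)))))) (a (b (b (c (l 16780120) (l 16778128)) (a (l 16775600) (c (l 131231384615) (a (l 81839262967) (l 172570445799))))) (a (b (c (l 85060489511) (a (l 16778576) (l 151095608615))) (l 4)) (l 4))) (a (a (b (b (l 134989480791) (l 4)) (l 4)) (l 4)) (l 4))))) (a (b (a (a (b (l 16775512) (b (l 16778408) (c (l 93650424247) (a (l 38889589607) (l 160222414391))))) (b (c (l 16777888) (b (l 16774272) (l 16778840)))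 (b (c (l 137673835847) (a (l 93650423015) (l 178476026071))) (l 4)))) (b (a (a (b (l 16776056) (l 143042544743)) (b (a (l 16778264) (l 94187293639)) (l 4))) (b (l 167201737415) (l 4))) (l 4))) (l 4)) (l 4))), by decide +kernel⟩

def k34_mm_202_t : ∃ t, chk3 f_mm_202_t t 12 11 1 = true :=
  ⟨(b (a (b (a (l 16700280) (l 16715680)) (b (c (l 16719832) (l 16718320)) (a (l 16718336) (l 16734208)))) (b (a (c (l 16732456) (l 16731472)) (b (l 16734720) (c (l 16753128) (l 16742128)))) (b (a (l 16732696) (c (l 16750264) (l 16749728))) (a (l 16740272) (a (l 16753208) (l 16762112)))))) (a (a (b (l 16732192) (b (l 16738936) (l 16746832))) (b (b (c (l 16741960) (l 16740912)) (l 16748360)) (b (l 16750200) (l 16759024)))) (b (a (b (b (l 16751216) (a (l 16734912) (l 16754040))) (a (l 16750792) (c (l 16759864) (l 16759392)))) (a (b (l 16760904) (b (c (l 16766864) (l 16766496)) (l 16770456))) (a (b (l 16762360) (b (l 16768184) (c (l 16777376) (l 16771960)))) (b (l 16766904) (b (l 16772744)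 (b (l 16775664) (a (l 16771208) (l 16778768)))))))) (a (b (c (l 16768032) (c (l 16767768) (l 16765008))) (a (l 16765792) (b (l 16772784) (l 16774104)))) (a (b (b (l 16769016) (c (l 16778168) (l 16772792))) (a (b (l 16774408) (l 16775728)) (b (c (l 16773824) (l 16777736)) (b (a (l 16775600) (c (l 109219680919) (l 136600093415))) (a (c (l 96334778791) (l 96871649639)) (l 4)))))) (b (a (b (l 16775896) (a (l 16773376) (a (l 16775120) (b (l 16775304) (l 87207972439))))) (a (b (l 16776744) (b (a (l 16776480) (l 104387842007)) (l 169349220727))) (b (b (l 16775464) (a (l 16779480) (l 123178324007))) (l 4)))) (a (b (a (b (l 16778960) (l 146263770423)) (b (l 157538060119) (l 4))) (l 4)) (l 4)))))))), by decide +kernel⟩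

def k35_mm_202_t : ∃ t, chk3 f_mm_202_t t 26 22 1 = true :=
  ⟨(b (a (b (a (l 16748200) (l 16757376)) (a (l 16755776) (c (l 16765000) (l 16765016)))) (a (b (c (l 16766640) (l 16761360)) (c (l 16771728) (b (l 16767160) (l 16771048)))) (b (b (l 16769472) (c (l 16772696) (l 16772672))) (a (b (l 16774216) (c (l 16772872) (l 16775488))) (b (c (l 16778944) (b (l 16772712) (l 16777296))) (b (a (l 16775448) (c (l 100092875175) (a (l 79691778871) (l 165591123607)))) (a (a (l 26004687639) (l 144653157431)) (l 4)))))))) (a (b (a (c (l 16763584) (l 16763432)) (b (l 16765568) (l 16770752))) (a (c (l 16771344) (l 16768544)) (a (c (l 16773000) (l 16772944)) (b (l 16775696) (a (l 16775816) (b (l 16774576) (c (l 16776576) (l 21709720647)))))))) (a (b (a (b (l 16772592) (c (l 16771248) (l 16771248))) (b (c (l 16772056) (l 16772056)) (b (c (l 16780248) (l 16778936)) (a (l 16778408) (c (l 139821319415) (l 142505673895)))))) (a (a (b (l 16776616) (b (a (l 16776360) (l 96871647303)) (l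 166127995207))) (b (b (l 16775376) (a (l 16778736) (l 116735872663))) (b (l 177939155863) (l 4)))) (a (b (b (b (l 82913003319) (l 153243092359)) (l 4)) (l 4)) (l 4)))) (b (a (b (a (c (l 16779232) (c (l 6140465079) (b (l 16774616) (l 21709720535)))) (b (a (l 16776408) (l 96871647559)) (l 166664866247))) (a (b (c (l 152706221959) (l 155927447319)) (l 4)) (l 4))) (b (a (b (l 177402285095) (l 4)) (l 4)) (l 4))) (l 4))))), by decide +kernel⟩

def k36_mm_202_t : ∃ t, chk3 f_mm_202_t t 27 22 1 = true :=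
  ⟨(a (b (a (b (a (b (l 16775872) (b (l 16776168) (a (l 16774320) (a (l 16776096) (a (l 16778312) (l 99019131895)))))) (a (b (l 16775488) (b (a (l 16779144) (a (l 87744842615) (l 107072197895))) (l 169349221031))) (b (b (l 16775576) (a (a (l 16776640) (l 77007424167)) (l 149484995863))) (l 4)))) (a (b (a (b (c (l 16776288) (l 16778904)) (c (l 141431932311) (l 144653156391))) (b (c (l 154853705799) (l 158611802071)) (l 4))) (l 4)) (l 4))) (b (a (b (a (b (c (l 131768255463) (a (l 82913004759) (l 172033574791))) (l 4)) (l 4)) (l 4)) (l 4)) (l 4))) (l 4)) (l 4)), by decide +kernel⟩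

def k37_mm_202_t : ∃ t, chk3 f_mm_202_t t 13 23 1 = true :=
  ⟨(a (a (b (a (b (b (c (l 16777176) (l 16771784)) (a (l 16773448) (c (l 16772888) (l 16772824)))) (a (b (c (l 16772160) (l 16772080)) (b (c (l 16775056) (l 16777648)) (b (a (l 16775352) (l 106535325079)) (a (l 16778944) (l 168812349367))))) (b (a (c (l 16779536) (b (l 16774608) (l 16778896))) (b (a (l 16776384) (l 100092874103)) (l 168275478839))) (a (b (l 155927447303) (l 4)) (l 4))))) (b (a (b (c (l 16778872) (l 16776216)) (a (b (l 16775384) (a (l 16778088) (l 118346485399))) (b (c (l 102240358503) (l 130157639623)) (l 4)))) (b (a (b (c (l 16776168) (l 16776168)) (c (l 115125260855) (l 142505673831))) (b (c (l 152706221863) (l 155390576327)) (l 4))) (l 4))) (a (b (a (b (l 178476026727) (l 4)) (l 4)) (l 4)) (l 4)))) (b (a (a (b (a (b (c (l 105461584375) (l 133378867799)) (l 4)) (l 4)) (l 4)) (l 4)) (l 4)) (l 4))) (l 4)) (l 4)), by decide +kernel⟩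

def k38_mm_202_t : ∃ t, chk3 f_mm_202_t t 56 20 1 = true :=
  ⟨(b (b (a (c (l 16761984) (l 16756584)) (c (l 16768720) (b (l 16758832) (l 16767888)))) (a (c (l 16764288) (l 16764824)) (b (c (l 16771792) (l 16771712)) (a (l 16773200) (c (l 16772712) (l 16775296)))))) (b (a (a (c (l 16769520) (l 16769424)) (b (l 16767048) (l 16773480))) (a (b (c (l 16771792) (l 16774368)) (a (l 16776704) (b (l 16778448) (c (l 89892327975) (a (l 66806877239) (l 159685543607)))))) (b (a (a (l 16774736) (b (l 16774968) (l 28152171415))) (a (b (l 16776160) (l 144116286775)) (b (a (l 16778368) (l 97408519175)) (l 4)))) (a (b (c (l 136600094215) (a (l 92039810407) (l 4))) (l 4)) (l 4))))) (a (a (b (l 16775200) (a (l 16772592) (b (l 16774000) (l 16778536)))) (a (b (l 16776120) (b (c (l 16779008) (l 12582915063)) (c (l 140895061623) (a (l 97945390567) (l 4))))) (a (b (l 16777896) (b (l 149484995991) (l 4))) (b (b (l 16775504) (a (l 16778432) (l 103314099303))) (l 4))))) (a (a (b (b (a (l 16778656)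 (l 136600093639)) (l 172570446919)) (l 4)) (l 4)) (l 4))))), by decide +kernel⟩

def k39_mm_202_t : ∃ t, chk3 f_mm_202_t t 57 20 1 = true :=
  ⟨(b (a (b (b (a (l 16765992) (l 16774680)) (a (l 16772432) (b (l 16776240) (a (l 16774336) (a (l 16776136) (a (l 16778344) (l 93650422775))))))) (a (b (c (l 16777576) (a (l 16772416) (l 16777432))) (b (a (l 16775312) (a (a (l 16776808) (l 79154908055)) (l 153243092663))) (a (a (l 16779256) (l 100629744759)) (l 4)))) (b (a (b (c (l 16778888) (l 16778872)) (c (l 133915739607) (a (l 87744843063) (l 174717929879)))) (b (c (l 148411255079) (l 153243093175)) (l 4))) (l 4)))) (b (a (b (a (c (l 16774344) (l 16774320)) (b (l 16778400) (a (a (l 16776800) (l 77007424407)) (l 151095609047)))) (a (b (a (l 16779240) (a (l 84523617383) (l 152706221479))) (l 167738608663)) (l 4))) (b (a (b (c (l 132305126919) (a (l 86134230359) (l 4))) (l 4)) (l 4)) (l 4))) (l 4))) (a (b (a (b (a (b (l 169349221383) (l 4)) (l 4)) (l 4)) (l 4)) (l 4)) (l 4))),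 by decide +kernel⟩

def k40_mm_202_t : ∃ t, chk3 f_mm_202_t t 28 21 1 = true :=
  ⟨(a (b (a (b (a (b (b (a (l 16775464) (c (l 126399546199) (a (l 73786199111) (l 165591123767)))) (a (a (l 23320333015) (l 141968802919)) (l 4))) (a (b (l 174717930679) (l 4)) (l 4))) (l 4)) (l 4)) (l 4)) (l 4)) (l 4)), by decide +kernel⟩

def k41_mm_202_t : ∃ t, chk3 f_mm_202_t t 29 10 1 = true :=
  ⟨(l 4), by decide +kernel⟩

def k42_mm_202_t : ∃ t, chk3 f_mm_202_t t 15 10 1 = true :=
  ⟨(l 4), by decide +kernel⟩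

def k43_mm_202_t : ∃ t, chk3 f_mm_202_t t 7 11 1 = true :=
  ⟨(l 4), by decide +kernel⟩

def k44_mm_202_t : ∃ t, chk3 f_mm_202_t t 4 6 1 = true :=
  ⟨(b (a (b (l 6) (a (l 6) (l 16653344))) (b (a (l 16636136) (l 16647312)) (a (l 16664704) (l 16676008)))) (b (a (l 16736072) (a (l 16690384) (l 16722880))) (b (a (l 16690096) (l 16734528)) (l 2)))), by decide +kernel⟩

def k45_mm_202_t : ∃ t, chk3 f_mm_202_t t 5 6 1 = true :=
  ⟨(b (a (b (a (l 16654920) (b (l 16667304) (l 16703224))) (a (l 16730176) (b (l 16717584) (l 16710368)))) (b (a (b (l 16725120) (a (l 16718480) (l 16709528))) (b (a (l 16728712) (l 16740408)) (a (l 16743728) (b (l 16754384) (l 16761800))))) (a (b (a (l 16732880) (l 16723960)) (a (l 16725720) (l 16758808))) (b (a (c (l 16758608) (l 16757832)) (b (l 16769080) (l 16770992))) (a (c (l 16772488) (l 16766592)) (b (a (l 16758536) (l 16776560)) (a (l 16775888) (a (l 16771040) (a (l 16779184) (b (l 16774160) (l 84523621607))))))))))) (a (b (a (b (l 16708088)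 (l 16720448)) (b (l 16723504) (l 16756944))) (b (a (l 16732080) (a (l 16743312) (l 16752560))) (a (l 16742912) (b (l 16777104) (l 2))))) (b (a (b (a (l 16738928) (l 16772088)) (a (l 16772480) (b (l 16781664) (l 16777360)))) (b (a (b (l 16771768) (a (l 16764336) (l 16781872))) (a (b (c (l 16782720) (l 16781592)) (a (b (l 16775256) (l 94187300791)) (b (l 124788934375) (l 4)))) (b (a (b (l 16780800) (l 134452611575)) (b (l 153779965175) (l 4))) (l 4)))) (a (a (b (l 16770712) (a (l 37278985255) (b (l 16782344) (l 155927448247)))) (b (a (b (l 16774408) (l 79691785351)) (b (l 85060494839) (l 4))) (l 4))) (l 4)))) (a (b (a (c (l 16784776) (l 16784040)) (a (b (l 16769664) (c (l 49627020119) (l 48016407399))) (b (b (l 16774776) (l 74859951959)) (l 143042546935)))) (a (a (b (l 16769024) (l 16785032)) (b (c (l 16785664) (l 32984020903)) (a (l 92039824007) (l 4)))) (a (b (a (l 99019146343) (l 4)) (l 4)) (l 4)))) (b (a (a (b (l 153779966631) (l 4)) (l 4)) (l 4)) (l 4)))))), by decide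 +kernel⟩

def k46_mm_202_t : ∃ t, chk3 f_mm_202_t t 2 7 1 = true :=
  ⟨(a (l 2) (a (l 2) (a (l 2) (l 4)))), by decide +kernel⟩

def k47_mm_202_t : ∃ t, chk3 f_mm_202_t t 12 24 1 = true :=
  ⟨(a (a (b (b (l 16754616) (l 16751800)) (b (l 16761984) (a (l 16752336) (l 16770840)))) (a (b (b (l 16766864) (l 16764072)) (b (l 16771664) (b (l 16777280) (l 16775744)))) (b (b (l 16764880) (l 16772592)) (b (b (l 16778304) (c (l 16771624) (l 16776816))) (a (b (l 16773176) (a (l 16778480) (a (l 87744845783) (l 141431932423)))) (b (a (c (l 16779128) (l 29225915687)) (b (l 97945391927) (l 4))) (l 173644190743))))))) (b (a (a (a (b (l 16771416) (c (l 16773904) (l 16771248))) (b (l 16773224) (b (l 16771168) (a (l 16773888) (b (l 16775168) (l 44258300199)))))) (b (a (b (l 16767896) (l 16777032)) (b (l 16775056) (a (l 16779136) (b (l 16779160) (l 150021867015))))) (a (a (b (l 16774528) (b (l 90429198951) (l 4))) (b (b (l 16775832) (l 102240359383)) (l 4))) (b (a (b (l 138747577335) (l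 4)) (l 4)) (l 4))))) (a (b (a (b (a (b (l 16774896) (l 35131494583)) (b (c (l 16779808) (l 83986747463)) (l 176328542711))) (b (l 171496705527) (l 4))) (l 4)) (l 4)) (l 4))) (a (a (b (a (a (b (l 16773272) (b (l 16776128) (l 109756552167))) (b (l 16779432) (l 152169351687))) (b (a (b (l 16779416) (l 154316834583)) (l 173107318199)) (l 4))) (l 4)) (l 4)) (l 4)))), by decide +kernel⟩

def k48_mm_202_t : ∃ t, chk3 f_mm_202_t t 12 25 1 = true :=
  ⟨(a (b (a (b (a (l 16770136) (c (l 16778240) (l 16772864))) (a (c (l 16777408) (l 16771984)) (a (c (l 16778152) (l 16780696)) (b (l 16877885623) (a (l 90966072823) (l 167738608775)))))) (a (b (b (a (l 16772080) (c (l 36205239383) (a (l 16775240) (l 84523615511)))) (a (a (l 16774680) (l 41037076807)) (a (l 141968803783) (l 4)))) (a (b (a (l 128547030055) (l 4)) (l 4)) (l 4))) (b (a (b (l 166664868007) (l 4)) (l 4)) (l 4)))) (a (a (b (a (l 16777144) (b (l 16774136) (a (l 16780640) (l 132841997863)))) (a (b (a (l 16776176) (l 97408524007))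 (l 163443642327)) (l 4))) (b (a (b (a (l 51774495639) (l 146263771495)) (l 4)) (l 4)) (l 4))) (l 4))) (l 4)), by decide +kernel⟩

def k49_mm_202_t : ∃ t, chk3 f_mm_202_t t 12 13 1 = true :=
  ⟨(l 4), by decide +kernel⟩

def k50_mm_202_t : ∃ t, chk3 f_mm_202_t t 13 6 1 = true :=
  ⟨(l 4), by decide +kernel⟩

def k51_mm_202_t : ∃ t, chk3 f_mm_202_t t 7 6 1 = true :=
  ⟨(l 4), by decide +kernel⟩

def k52_mm_202_t : ∃ t, chk3 f_mm_202_t t 3 7 1 = true :=
  ⟨(l 4), by decide +kernel⟩

theorem s53_mm_202_t : ∃ t, chk3 f_mm_202_t t 12 12 1 = true := ex3_b k47_mm_202_t k48_mm_202_t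

theorem s54_mm_202_t : ∃ t, chk3 f_mm_202_t t 12 6 1 = true := ex3_b s53_mm_202_t k49_mm_202_t

theorem s55_mm_202_t : ∃ t, chk3 f_mm_202_t t 6 6 1 = true := ex3_a s54_mm_202_t k50_mm_202_t

theorem s56_mm_202_t : ∃ t, chk3 f_mm_202_t t 3 6 1 = true := ex3_a s55_mm_202_t k51_mm_202_t

theorem s57_mm_202_t : ∃ t, chk3 f_mm_202_t t 3 3 1 = true := ex3_b s56_mm_202_t k52_mm_202_t

theorem s58_mm_202_t : ∃ t, chk3 f_mm_202_t t 2 6 1 = true := ex3_a k44_mm_202_t k45_mm_202_t

theorem s59_mm_202_t : ∃ t, chk3 f_mm_202_t t 2 3 1 = true := ex3_b s58_mm_202_t k46_mm_202_t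

theorem s60_mm_202_t : ∃ t, chk3 f_mm_202_t t 1 3 1 = true := ex3_a s59_mm_202_t s57_mm_202_t

theorem s61_mm_202_t : ∃ t, chk3 f_mm_202_t t 28 20 1 = true := ex3_a k38_mm_202_t k39_mm_202_t

theorem s62_mm_202_t : ∃ t, chk3 f_mm_202_t t 28 10 1 = true := ex3_b s61_mm_202_t k40_mm_202_t

theorem s63_mm_202_t : ∃ t, chk3 f_mm_202_t t 14 10 1 = true := ex3_a s62_mm_202_t k41_mm_202_t

theorem s64_mm_202_t : ∃ t, chk3 f_mm_202_t t 7 10 1 = true := ex3_a s63_mm_202_t k42_mm_202_t

theorem s65_mm_202_t : ∃ t, chk3 f_mm_202_t t 7 5 1 = true := ex3_b s64_mm_202_t k43_mm_202_t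

theorem s66_mm_202_t : ∃ t, chk3 f_mm_202_t t 13 22 1 = true := ex3_a k35_mm_202_t k36_mm_202_t

theorem s67_mm_202_t : ∃ t, chk3 f_mm_202_t t 13 11 1 = true := ex3_b s66_mm_202_t k37_mm_202_t

theorem s68_mm_202_t : ∃ t, chk3 f_mm_202_t t 6 11 1 = true := ex3_a k34_mm_202_t s67_mm_202_t

theorem s69_mm_202_t : ∃ t, chk3 f_mm_202_t t 27 21 1 = true := ex3_a k32_mm_202_t k33_mm_202_t

theorem s70_mm_202_t : ∃ t, chk3 f_mm_202_t t 13 21 1 = true := ex3_a k31_mm_202_t s69_mm_202_t

theorem s71_mm_202_t : ∃ t, chk3 f_mm_202_t t 13 10 1 = true := ex3_b k30_mm_202_t s70_mm_202_t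

theorem s72_mm_202_t : ∃ t, chk3 f_mm_202_t t 6 10 1 = true := ex3_a k29_mm_202_t s71_mm_202_t

theorem s73_mm_202_t : ∃ t, chk3 f_mm_202_t t 6 5 1 = true := ex3_b s72_mm_202_t s68_mm_202_t

theorem s74_mm_202_t : ∃ t, chk3 f_mm_202_t t 3 5 1 = true := ex3_a s73_mm_202_t s65_mm_202_t

theorem s75_mm_202_t : ∃ t, chk3 f_mm_202_t t 60 36 1 = true := ex3_b k23_mm_202_t k24_mm_202_t

theorem s76_mm_202_t : ∃ t, chk3 f_mm_202_t t 60 18 1 = true := ex3_b s75_mm_202_t k25_mm_202_t

theorem s77_mm_202_t : ∃ t, chk3 f_mm_202_t t 30 18 1 = true := ex3_a s76_mm_202_t k26_mm_202_t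

theorem s78_mm_202_t : ∃ t, chk3 f_mm_202_t t 30 9 1 = true := ex3_b s77_mm_202_t k27_mm_202_t

theorem s79_mm_202_t : ∃ t, chk3 f_mm_202_t t 15 9 1 = true := ex3_a s78_mm_202_t k28_mm_202_t

theorem s80_mm_202_t : ∃ t, chk3 f_mm_202_t t 29 19 1 = true := ex3_b k21_mm_202_t k22_mm_202_t

theorem s81_mm_202_t : ∃ t, chk3 f_mm_202_t t 14 19 1 = true := ex3_a k20_mm_202_t s80_mm_202_t

theorem s82_mm_202_t : ∃ t, chk3 f_mm_202_t t 29 18 1 = true := ex3_b k18_mm_202_t k19_mm_202_t

theorem s83_mm_202_t : ∃ t, chk3 f_mm_202_t t 14 18 1 = true := ex3_a k17_mm_202_t s82_mm_202_t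

theorem s84_mm_202_t : ∃ t, chk3 f_mm_202_t t 14 9 1 = true := ex3_b s83_mm_202_t s81_mm_202_t

theorem s85_mm_202_t : ∃ t, chk3 f_mm_202_t t 7 9 1 = true := ex3_a s84_mm_202_t s79_mm_202_t

theorem s86_mm_202_t : ∃ t, chk3 f_mm_202_t t 122 35 1 = true := ex3_b k13_mm_202_t k14_mm_202_t

theorem s87_mm_202_t : ∃ t, chk3 f_mm_202_t t 61 35 1 = true := ex3_a s86_mm_202_t k15_mm_202_t

theorem s88_mm_202_t : ∃ t, chk3 f_mm_202_t t 30 35 1 = true := ex3_a k12_mm_202_t s87_mm_202_t

theorem s89_mm_202_t : ∃ t, chk3 f_mm_202_t t 247 69 1 = true := ex3_b k10_mm_202_t k11_mm_202_t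

theorem s90_mm_202_t : ∃ t, chk3 f_mm_202_t t 123 69 1 = true := ex3_a k9_mm_202_t s89_mm_202_t

theorem s91_mm_202_t : ∃ t, chk3 f_mm_202_t t 61 69 1 = true := ex3_a k8_mm_202_t s90_mm_202_t

theorem s92_mm_202_t : ∃ t, chk3 f_mm_202_t t 30 69 1 = true := ex3_a k7_mm_202_t s91_mm_202_t

theorem s93_mm_202_t : ∃ t, chk3 f_mm_202_t t 30 34 1 = true := ex3_b k6_mm_202_t s92_mm_202_t

theorem s94_mm_202_t : ∃ t, chk3 f_mm_202_t t 30 17 1 = true := ex3_b s93_mm_202_t s88_mm_202_t

theorem s95_mm_202_t : ∃ t, chk3 f_mm_202_t t 15 17 1 = true := ex3_a s94_mm_202_t k16_mm_202_t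

theorem s96_mm_202_t : ∃ t, chk3 f_mm_202_t t 15 8 1 = true := ex3_b k5_mm_202_t s95_mm_202_t

theorem s97_mm_202_t : ∃ t, chk3 f_mm_202_t t 14 8 1 = true := ex3_b k3_mm_202_t k4_mm_202_t

theorem s98_mm_202_t : ∃ t, chk3 f_mm_202_t t 7 8 1 = true := ex3_a s97_mm_202_t s96_mm_202_t

theorem s99_mm_202_t : ∃ t, chk3 f_mm_202_t t 7 4 1 = true := ex3_b s98_mm_202_t s85_mm_202_t

theorem s100_mm_202_t : ∃ t, chk3 f_mm_202_t t 6 4 1 = true := ex3_b k1_mm_202_t k2_mm_202_t

theorem s101_mm_202_t : ∃ t, chk3 f_mm_202_t t 3 4 1 = true := ex3_a s100_mm_202_t s99_mm_202_t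

theorem s102_mm_202_t : ∃ t, chk3 f_mm_202_t t 3 2 1 = true := ex3_b s101_mm_202_t s74_mm_202_t

theorem s103_mm_202_t : ∃ t, chk3 f_mm_202_t t 1 2 1 = true := ex3_a k0_mm_202_t s102_mm_202_t

theorem s104_mm_202_t : ∃ t, chk3 f_mm_202_t t 1 1 1 = true := ex3_b s103_mm_202_t s60_mm_202_t

theorem c_mm_202_t : CertNE 0 536870912 0 536870912 587336777 62277027 3 eng mog cd0q2 cd0q0 pd2 true false false .pp 2 0 2
    ndB0q2 ndB0q0 pcB2 cut_mm_202_t Ext.none :=
  certNE0 (fam := true) (s1 := false) (s2 := false) (a := 2) (b := 0) (c := 2) (cn := .pp) (n1 := ndB0q2) (n2 := ndB0q0) (pc := pcB2) (cut := cut_mm_202_t) (xt := Ext.none) (P1 := 0) (W1 := 536870912) (P2 := 0) (W2 := 536870912) (P3 := 587336777) (W3 := 62277027) (N0 := 3) (En := eng) (mo := mog) (C1 := cd0q2) (C2 := cd0q0) (C3 := pd2)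
    rfl s104_mm_202_t

noncomputable def cut_mm_203_s : Cut := Cut.of [[⟨4, 0, 0, 1449551462⟩]]

noncomputable def f_mm_203_s : ℕ → ℕ → ℕ → ℕ → Bool := onCell 0 536870912 0 536870912 587336777 62277027
    (rowNE 3 eng mog cd0q2 cd0q0 pd3 0 true false false .up 2 0 3 (qsf 0 536870912 0 536870912 3) ndB0q2 ndB0q0 pcB3 cut_mm_203_s Ext.none)

def k0_mm_203_s : ∃ t, chk3 f_mm_203_s t 1 1 1 = true :=
  ⟨(l 6), by decide +kernel⟩

theorem c_mm_203_s : CertNE 0 536870912 0 536870912 587336777 62277027 3 eng mog cd0q2 cd0q0 pd3 true false false .up 2 0 3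
    ndB0q2 ndB0q0 pcB3 cut_mm_203_s Ext.none :=
  certNE0 (fam := true) (s1 := false) (s2 := false) (a := 2) (b := 0) (c := 3) (cn := .up) (n1 := ndB0q2) (n2 := ndB0q0) (pc := pcB3) (cut := cut_mm_203_s) (xt := Ext.none) (P1 := 0) (W1 := 536870912) (P2 := 0) (W2 := 536870912) (P3 := 587336777) (W3 := 62277027) (N0 := 3) (En := eng) (mo := mog) (C1 := cd0q2) (C2 := cd0q0) (C3 := pd3)
    rfl k0_mm_203_s

noncomputable def cut_mm_203_t : Cut := Cut.of [[⟨3, 0, 0, 2845415833⟩]]

noncomputable def f_mm_203_t : ℕ → ℕ → ℕ → ℕ → Bool := onCell 0 536870912 1610612736 536870912 587336777 62277027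
    (rowNE 3 eng mog cd0q2 cd0q0 pd3 1 true false false .up 2 0 3 (qsf 0 536870912 0 536870912 3) ndB0q2 ndB0q0 pcB3 cut_mm_203_t Ext.none)

def k0_mm_203_t : ∃ t, chk3 f_mm_203_t t 1 1 1 = true :=
  ⟨(b (a (b (b (a (a (b (b (l 16691896) (l 16696720)) (a (l 16694656) (l 16710656))) (b (a (l 16735664) (b (l 16725472) (l 16733024))) (a (l 16748144) (b (l 16740448) (l 16747616))))) (a (b (a (b (l 16741296) (l 16770720)) (b (a (l 16755408) (b (l 16764448) (l 16769360))) (a (l 16785608) (a (b (l 16771096) (l 50163893527)) (b (l 72175604087) (l 140358190167)))))) (a (b (l 16779160) (a (l 16761584) (b (l 16769672) (l 57680088583)))) (b (a (a (l 16781568) (b (l 16774736) (l 94187311143))) (b (l 132305126247) (l 4))) (a (a (b (l 82913020423) (l 4)) (l 4)) (l 4))))) (b (a (a (b (a (b (l 26004700407) (a (l 70564987015) (l 136600094071))) (b (a (l 94187308967) (l 4)) (l 4))) (l 4)) (l 4)) (l 4)) (l 4)))) (a (a (b (a (l 16700288) (l 16740896)) (b (l 16740416) (l 16759920))) (b (a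 (l 16781528) (b (l 16775768) (a (l 16757520) (l 16767672)))) (a (b (l 16770976) (l 16781200)) (b (a (l 16765736) (b (l 16785008) (l 88818607879))) (a (b (l 16772496) (l 81302410087)) (b (l 133378865351) (l 4))))))) (a (a (b (b (a (b (l 16767664) (l 16771920)) (b (a (l 16775808) (l 128547028647)) (l 126936415447))) (a (b (l 68954379639) (l 109219675095)) (l 4))) (l 4)) (l 4)) (l 4)))) (b (a (a (b (b (l 16766752) (a (l 16748912) (l 16762344))) (l 2)) (b (a (b (a (l 16765328) (b (l 16771824) (l 54458860807))) (a (b (l 16771464) (l 16774944)) (a (l 104387867463) (l 4)))) (b (a (b (l 119957092759) (l 4)) (l 4)) (l 4))) (l 2))) (l 4)) (l 2))) (l 4)) (l 2)), by decide +kernel⟩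

theorem c_mm_203_t : CertNE 0 536870912 0 536870912 587336777 62277027 3 eng mog cd0q2 cd0q0 pd3 true false false .up 2 0 3
    ndB0q2 ndB0q0 pcB3 cut_mm_203_t Ext.none :=
  certNE1 (fam := true) (s1 := false) (s2 := false) (a := 2) (b := 0) (c := 3) (cn := .up) (n1 := ndB0q2) (n2 := ndB0q0) (pc := pcB3) (cut := cut_mm_203_t) (xt := Ext.none) (P1 := 0) (W1 := 536870912) (P2 := 0) (W2 := 536870912) (P3 := 587336777) (W3 := 62277027) (N0 := 3) (En := eng) (mo := mog) (C1 := cd0q2) (C2 := cd0q0) (C3 := pd3)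
    rfl (fun _ => rfl) k0_mm_203_t

noncomputable def cut_mm_213_s : Cut := Cut.of [[⟨4, 0, 0, 1449551462⟩]]

noncomputable def f_mm_213_s : ℕ → ℕ → ℕ → ℕ → Bool := onCell 0 536870912 536870912 536870912 587336777 62277027
    (rowNE 3 eng mog cd0q2 cd0q1 pd3 0 true false false .pnn 2 1 3 (qsf 0 536870912 536870912 536870912 3) ndB0q2 ndB0q1 pcB3 cut_mm_213_s Ext.none)

def k0_mm_213_s : ∃ t, chk3 f_mm_213_s t 1 1 1 = true :=
  ⟨(l 6), by decide +kernel⟩

theorem c_mm_213_s : CertNE 0 536870912 536870912 536870912 587336777 62277027 3 eng mog cd0q2 cd0q1 pd3 true false false .pnn 2 1 3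
    ndB0q2 ndB0q1 pcB3 cut_mm_213_s Ext.none :=
  certNE0 (fam := true) (s1 := false) (s2 := false) (a := 2) (b := 1) (c := 3) (cn := .pnn) (n1 := ndB0q2) (n2 := ndB0q1) (pc := pcB3) (cut := cut_mm_213_s) (xt := Ext.none) (P1 := 0) (W1 := 536870912) (P2 := 536870912) (W2 := 536870912) (P3 := 587336777) (W3 := 62277027) (N0 := 3) (En := eng) (mo := mog) (C1 := cd0q2) (C2 := cd0q1) (C3 := pd3)
    rfl k0_mm_213_s

noncomputable def cut_mm_213_t : Cut := Cut.of [[⟨3, 0, 0, 2845415833⟩]]

noncomputable def f_mm_213_t : ℕ → ℕ → ℕ → ℕ → Bool := onCell 0 536870912 536870912 536870912 587336777 62277027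
    (rowNE 3 eng mog cd0q2 cd0q1 pd3 0 true false false .pnn 2 1 3 (qsf 0 536870912 536870912 536870912 3) ndB0q2 ndB0q1 pcB3 cut_mm_213_t Ext.none)

def k0_mm_213_t : ∃ t, chk3 f_mm_213_t t 1 1 1 = true :=
  ⟨(a (b (a (b (b (a (b (a (b (l 16756968) (l 16764544)) (b (a (l 16765552) (l 16771672)) (a (l 16772240) (b (l 54458860519) (l 119957092615))))) (a (b (l 16770656) (a (l 16773440) (a (l 16786832) (l 112440928711)))) (b (a (a (l 16786744) (l 110830315943)) (l 4)) (l 4)))) (b (a (b (a (b (l 83449889975) (l 124252059927)) (l 4)) (l 4)) (l 4)) (l 4))) (a (b (a (b (a (a (l 16786936) (l 114051541767)) (l 4)) (l 4)) (l 4)) (l 4)) (l 4))) (l 4)) (l 4)) (l 4)) (l 4)), by decide +kernel⟩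

theorem c_mm_213_t : CertNE 0 536870912 536870912 536870912 587336777 62277027 3 eng mog cd0q2 cd0q1 pd3 true false false .pnn 2 1 3
    ndB0q2 ndB0q1 pcB3 cut_mm_213_t Ext.none :=
  certNE0 (fam := true) (s1 := false) (s2 := false) (a := 2) (b := 1) (c := 3) (cn := .pnn) (n1 := ndB0q2) (n2 := ndB0q1) (pc := pcB3) (cut := cut_mm_213_t) (xt := Ext.none) (P1 := 0) (W1 := 536870912) (P2 := 536870912) (W2 := 536870912) (P3 := 587336777) (W3 := 62277027) (N0 := 3) (En := eng) (mo := mog) (C1 := cd0q2) (C2 := cd0q1) (C3 := pd3)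
    rfl k0_mm_213_t

end Pool.Agent.Strip051.G.I5470_6050.Tab.CS.BA00

namespace Pool.Agent.Strip051.G.I5470_6050.Tab.CS.BA07

open Pool.Agent.Strip051.PB Pool.Agent.Strip051.PB.T
open Pool.Agent.Strip051.G.I5470_6050.Tab

noncomputable def cut_pp_001_s : Cut := Cut.of [[⟨4, 0, 0, 1449551462⟩]]

noncomputable def f_pp_001_s : ℕ → ℕ → ℕ → ℕ → Bool := onCell 0 536870912 0 536870912 587336777 62277027
    (rowNE 3 eng mog cd0q0 cd7q0 pd1 0 true true true .up 0 0 1 (qsf 0 536870912 0 536870912 1) ndB0q0 ndB7q0 pcB1 cut_pp_001_s Ext.none)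

def k0_pp_001_s : ∃ t, chk3 f_pp_001_s t 1 1 1 = true :=
  ⟨(l 4), by decide +kernel⟩

theorem c_pp_001_s : CertNE 0 536870912 0 536870912 587336777 62277027 3 eng mog cd0q0 cd7q0 pd1 true true true .up 0 0 1
    ndB0q0 ndB7q0 pcB1 cut_pp_001_s Ext.none :=
  certNE0 (fam := true) (s1 := true) (s2 := true) (a := 0) (b := 0) (c := 1) (cn := .up) (n1 := ndB0q0) (n2 := ndB7q0) (pc := pcB1) (cut := cut_pp_001_s) (xt := Ext.none) (P1 := 0) (W1 := 536870912) (P2 := 0) (W2 := 536870912) (P3 := 587336777) (W3 := 62277027) (N0 := 3) (En := eng) (mo := mog) (C1 := cd0q0) (C2 := cd7q0) (C3 := pd1)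
    rfl k0_pp_001_s

noncomputable def cut_pp_011_s : Cut := Cut.of [[⟨4, 0, 0, 1449551462⟩]]

noncomputable def f_pp_011_s : ℕ → ℕ → ℕ → ℕ → Bool := onCell 0 536870912 536870912 536870912 587336777 62277027
    (rowNE 3 eng mog cd0q0 cd7q1 pd1 0 true true true .pnn 0 1 1 (qsf 0 536870912 536870912 536870912 1) ndB0q0 ndB7q1 pcB1 cut_pp_011_s Ext.none)

def k0_pp_011_s : ∃ t, chk3 f_pp_011_s t 1 1 1 = true :=
  ⟨(l 4), by decide +kernel⟩

theorem c_pp_011_s : CertNE 0 536870912 536870912 536870912 587336777 62277027 3 eng mog cd0q0 cd7q1 pd1 true true true .pnn 0 1 1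
    ndB0q0 ndB7q1 pcB1 cut_pp_011_s Ext.none :=
  certNE0 (fam := true) (s1 := true) (s2 := true) (a := 0) (b := 1) (c := 1) (cn := .pnn) (n1 := ndB0q0) (n2 := ndB7q1) (pc := pcB1) (cut := cut_pp_011_s) (xt := Ext.none) (P1 := 0) (W1 := 536870912) (P2 := 536870912) (W2 := 536870912) (P3 := 587336777) (W3 := 62277027) (N0 := 3) (En := eng) (mo := mog) (C1 := cd0q0) (C2 := cd7q1) (C3 := pd1)
    rfl k0_pp_011_s

noncomputable def cut_pp_012_s : Cut := Cut.of [[⟨4, 0, 0, 1449551462⟩]]

noncomputable def f_pp_012_s : ℕ → ℕ → ℕ → ℕ → Bool := onCell 0 536870912 536870912 536870912 587336777 62277027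
    (rowNE 3 eng mog cd0q0 cd7q1 pd2 0 true true true .pnp 0 1 2 (qsf 0 536870912 536870912 536870912 2) ndB0q0 ndB7q1 pcB2 cut_pp_012_s Ext.none)

def k0_pp_012_s : ∃ t, chk3 f_pp_012_s t 1 1 1 = true :=
  ⟨(l 4), by decide +kernel⟩

theorem c_pp_012_s : CertNE 0 536870912 536870912 536870912 587336777 62277027 3 eng mog cd0q0 cd7q1 pd2 true true true .pnp 0 1 2
    ndB0q0 ndB7q1 pcB2 cut_pp_012_s Ext.none :=
  certNE0 (fam := true) (s1 := true) (s2 := true) (a := 0) (b := 1) (c := 2) (cn := .pnp) (n1 := ndB0q0) (n2 := ndB7q1) (pc := pcB2) (cut := cut_pp_012_s) (xt := Ext.none) (P1 := 0) (W1 := 536870912) (P2 := 536870912) (W2 := 536870912) (P3 := 587336777) (W3 := 62277027) (N0 := 3) (En := eng) (mo := mog) (C1 := cd0q0) (C2 := cd7q1) (C3 := pd2)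
    rfl k0_pp_012_s

noncomputable def cut_pp_022_s : Cut := Cut.of [[⟨4, 0, 0, 1449551462⟩]]

noncomputable def f_pp_022_s : ℕ → ℕ → ℕ → ℕ → Bool := onCell 0 536870912 1073741824 536870912 587336777 62277027
    (rowNE 3 eng mog cd0q0 cd7q2 pd2 0 true true true .pp 0 2 2 (qsf 0 536870912 1073741824 536870912 2) ndB0q0 ndB7q2 pcB2 cut_pp_022_s Ext.none)

def k0_pp_022_s : ∃ t, chk3 f_pp_022_s t 1 1 1 = true :=
  ⟨(l 4), by decide +kernel⟩

theorem c_pp_022_s : CertNE 0 536870912 1073741824 536870912 587336777 62277027 3 eng mog cd0q0 cd7q2 pd2 true true true .pp 0 2 2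
    ndB0q0 ndB7q2 pcB2 cut_pp_022_s Ext.none :=
  certNE0 (fam := true) (s1 := true) (s2 := true) (a := 0) (b := 2) (c := 2) (cn := .pp) (n1 := ndB0q0) (n2 := ndB7q2) (pc := pcB2) (cut := cut_pp_022_s) (xt := Ext.none) (P1 := 0) (W1 := 536870912) (P2 := 1073741824) (W2 := 536870912) (P3 := 587336777) (W3 := 62277027) (N0 := 3) (En := eng) (mo := mog) (C1 := cd0q0) (C2 := cd7q2) (C3 := pd2)
    rfl k0_pp_022_s

noncomputable def cut_pp_023_s : Cut := Cut.of [[⟨4, 0, 0, 1449551462⟩]]

noncomputable def f_pp_023_s : ℕ → ℕ → ℕ → ℕ → Bool := onCell 0 536870912 1073741824 536870912 587336777 62277027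
    (rowNE 3 eng mog cd0q0 cd7q2 pd3 0 true true true .up 0 2 3 (qsf 0 536870912 1073741824 536870912 3) ndB0q0 ndB7q2 pcB3 cut_pp_023_s Ext.none)

def k0_pp_023_s : ∃ t, chk3 f_pp_023_s t 1 1 1 = true :=
  ⟨(l 4), by decide +kernel⟩

theorem c_pp_023_s : CertNE 0 536870912 1073741824 536870912 587336777 62277027 3 eng mog cd0q0 cd7q2 pd3 true true true .up 0 2 3
    ndB0q0 ndB7q2 pcB3 cut_pp_023_s Ext.none :=
  certNE0 (fam := true) (s1 := true) (s2 := true) (a := 0) (b := 2) (c := 3) (cn := .up) (n1 := ndB0q0) (n2 := ndB7q2) (pc := pcB3) (cut := cut_pp_023_s) (xt := Ext.none) (P1 := 0) (W1 := 536870912) (P2 := 1073741824) (W2 := 536870912) (P3 := 587336777) (W3 := 62277027) (N0 := 3) (En := eng) (mo := mog) (C1 := cd0q0) (C2 := cd7q2) (C3 := pd3)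
    rfl k0_pp_023_s

noncomputable def cut_pp_033_s : Cut := Cut.of [[⟨4, 0, 0, 1449551462⟩]]

noncomputable def f_pp_033_s : ℕ → ℕ → ℕ → ℕ → Bool := onCell 0 536870912 0 1230186008 587336777 62277027
    (rowNE 3 eng mog cd0q0 cd7q3 pd3 0 true true true .pnn 0 3 3 (qsf 0 536870912 0 1230186008 3) ndB0q0 ndB7q3 pcB3 cut_pp_033_s Ext.none)

def k0_pp_033_s : ∃ t, chk3 f_pp_033_s t 1 1 1 = true :=
  ⟨(l 4), by decide +kernel⟩

theorem c_pp_033_s : CertNE 0 536870912 0 1230186008 587336777 62277027 3 eng mog cd0q0 cd7q3 pd3 true true true .pnn 0 3 3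
    ndB0q0 ndB7q3 pcB3 cut_pp_033_s Ext.none :=
  certNE0 (fam := true) (s1 := true) (s2 := true) (a := 0) (b := 3) (c := 3) (cn := .pnn) (n1 := ndB0q0) (n2 := ndB7q3) (pc := pcB3) (cut := cut_pp_033_s) (xt := Ext.none) (P1 := 0) (W1 := 536870912) (P2 := 0) (W2 := 1230186008) (P3 := 587336777) (W3 := 62277027) (N0 := 3) (En := eng) (mo := mog) (C1 := cd0q0) (C2 := cd7q3) (C3 := pd3)
    rfl k0_pp_033_s

noncomputable def cut_pp_101_s : Cut := Cut.of [[⟨4, 0, 0, 1449551462⟩]]

noncomputable def f_pp_101_s : ℕ → ℕ → ℕ → ℕ → Bool := onCell 536870912 536870912 0 536870912 587336777 62277027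
    (rowNE 3 eng mog cd0q1 cd7q0 pd1 0 true true true .npn 1 0 1 (qsf 536870912 536870912 0 536870912 1) ndB0q1 ndB7q0 pcB1 cut_pp_101_s Ext.none)

def k0_pp_101_s : ∃ t, chk3 f_pp_101_s t 1 1 1 = true :=
  ⟨(l 4), by decide +kernel⟩

theorem c_pp_101_s : CertNE 536870912 536870912 0 536870912 587336777 62277027 3 eng mog cd0q1 cd7q0 pd1 true true true .npn 1 0 1
    ndB0q1 ndB7q0 pcB1 cut_pp_101_s Ext.none :=
  certNE0 (fam := true) (s1 := true) (s2 := true) (a := 1) (b := 0) (c := 1) (cn := .npn) (n1 := ndB0q1) (n2 := ndB7q0) (pc := pcB1) (cut := cut_pp_101_s) (xt := Ext.none) (P1 := 536870912) (W1 := 536870912) (P2 := 0) (W2 := 536870912) (P3 := 587336777) (W3 := 62277027) (N0 := 3) (En := eng) (mo := mog) (C1 := cd0q1) (C2 := cd7q0) (C3 := pd1)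
    rfl k0_pp_101_s

noncomputable def cut_pp_102_s : Cut := Cut.of [[⟨4, 0, 0, 1449551462⟩]]

noncomputable def f_pp_102_s : ℕ → ℕ → ℕ → ℕ → Bool := onCell 536870912 536870912 0 536870912 587336777 62277027
    (rowNE 3 eng mog cd0q1 cd7q0 pd2 0 true true true .npp 1 0 2 (qsf 536870912 536870912 0 536870912 2) ndB0q1 ndB7q0 pcB2 cut_pp_102_s Ext.none)

def k0_pp_102_s : ∃ t, chk3 f_pp_102_s t 1 1 1 = true :=
  ⟨(l 4), by decide +kernel⟩

theorem c_pp_102_s : CertNE 536870912 536870912 0 536870912 587336777 62277027 3 eng mog cd0q1 cd7q0 pd2 true true true .npp 1 0 2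
    ndB0q1 ndB7q0 pcB2 cut_pp_102_s Ext.none :=
  certNE0 (fam := true) (s1 := true) (s2 := true) (a := 1) (b := 0) (c := 2) (cn := .npp) (n1 := ndB0q1) (n2 := ndB7q0) (pc := pcB2) (cut := cut_pp_102_s) (xt := Ext.none) (P1 := 536870912) (W1 := 536870912) (P2 := 0) (W2 := 536870912) (P3 := 587336777) (W3 := 62277027) (N0 := 3) (En := eng) (mo := mog) (C1 := cd0q1) (C2 := cd7q0) (C3 := pd2)
    rfl k0_pp_102_s

noncomputable def cut_pp_112_s : Cut := Cut.of [[⟨4, 0, 0, 1449551462⟩]]

noncomputable def f_pp_112_s : ℕ → ℕ → ℕ → ℕ → Bool := onCell 536870912 536870912 536870912 536870912 587336777 62277027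
    (rowNE 3 eng mog cd0q1 cd7q1 pd2 0 true true true .dn 1 1 2 (qsf 536870912 536870912 536870912 536870912 2) ndB0q1 ndB7q1 pcB2 cut_pp_112_s Ext.none)

def k0_pp_112_s : ∃ t, chk3 f_pp_112_s t 1 1 1 = true :=
  ⟨(l 4), by decide +kernel⟩

theorem c_pp_112_s : CertNE 536870912 536870912 536870912 536870912 587336777 62277027 3 eng mog cd0q1 cd7q1 pd2 true true true .dn 1 1 2
    ndB0q1 ndB7q1 pcB2 cut_pp_112_s Ext.none :=
  certNE0 (fam := true) (s1 := true) (s2 := true) (a := 1) (b := 1) (c := 2) (cn := .dn) (n1 := ndB0q1) (n2 := ndB7q1) (pc := pcB2) (cut := cut_pp_112_s) (xt := Ext.none) (P1 := 536870912) (W1 := 536870912) (P2 := 536870912) (W2 := 536870912) (P3 := 587336777) (W3 := 62277027) (N0 := 3) (En := eng) (mo := mog) (C1 := cd0q1) (C2 := cd7q1) (C3 := pd2)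
    rfl k0_pp_112_s

noncomputable def cut_pp_113_s : Cut := Cut.of [[⟨4, 0, 0, 1449551462⟩]]

noncomputable def f_pp_113_s : ℕ → ℕ → ℕ → ℕ → Bool := onCell 536870912 536870912 536870912 536870912 587336777 62277027
    (rowNE 3 eng mog cd0q1 cd7q1 pd3 0 true true true .nn 1 1 3 (qsf 536870912 536870912 536870912 536870912 3) ndB0q1 ndB7q1 pcB3 cut_pp_113_s Ext.none)

def k0_pp_113_s : ∃ t, chk3 f_pp_113_s t 1 1 1 = true :=
  ⟨(l 4), by decide +kernel⟩

theorem c_pp_113_s : CertNE 536870912 536870912 536870912 536870912 587336777 62277027 3 eng mog cd0q1 cd7q1 pd3 true true true .nn 1 1 3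
    ndB0q1 ndB7q1 pcB3 cut_pp_113_s Ext.none :=
  certNE0 (fam := true) (s1 := true) (s2 := true) (a := 1) (b := 1) (c := 3) (cn := .nn) (n1 := ndB0q1) (n2 := ndB7q1) (pc := pcB3) (cut := cut_pp_113_s) (xt := Ext.none) (P1 := 536870912) (W1 := 536870912) (P2 := 536870912) (W2 := 536870912) (P3 := 587336777) (W3 := 62277027) (N0 := 3) (En := eng) (mo := mog) (C1 := cd0q1) (C2 := cd7q1) (C3 := pd3)
    rfl k0_pp_113_s

noncomputable def cut_pp_123_s : Cut := Cut.of [[⟨4, 0, 0, 1449551462⟩]]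

noncomputable def f_pp_123_s : ℕ → ℕ → ℕ → ℕ → Bool := onCell 536870912 536870912 1073741824 536870912 587336777 62277027
    (rowNE 3 eng mog cd0q1 cd7q2 pd3 0 true true true .npn 1 2 3 (qsf 536870912 536870912 1073741824 536870912 3) ndB0q1 ndB7q2 pcB3 cut_pp_123_s Ext.none)

def k0_pp_123_s : ∃ t, chk3 f_pp_123_s t 1 1 1 = true :=
  ⟨(l 4), by decide +kernel⟩

theorem c_pp_123_s : CertNE 536870912 536870912 1073741824 536870912 587336777 62277027 3 eng mog cd0q1 cd7q2 pd3 true true true .npn 1 2 3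
    ndB0q1 ndB7q2 pcB3 cut_pp_123_s Ext.none :=
  certNE0 (fam := true) (s1 := true) (s2 := true) (a := 1) (b := 2) (c := 3) (cn := .npn) (n1 := ndB0q1) (n2 := ndB7q2) (pc := pcB3) (cut := cut_pp_123_s) (xt := Ext.none) (P1 := 536870912) (W1 := 536870912) (P2 := 1073741824) (W2 := 536870912) (P3 := 587336777) (W3 := 62277027) (N0 := 3) (En := eng) (mo := mog) (C1 := cd0q1) (C2 := cd7q2) (C3 := pd3)
    rfl k0_pp_123_s

noncomputable def cut_pp_133_s : Cut := Cut.of [[⟨4, 0, 0, 1449551462⟩]]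

noncomputable def f_pp_133_s : ℕ → ℕ → ℕ → ℕ → Bool := onCell 536870912 536870912 0 1230186008 587336777 62277027
    (rowNE 3 eng mog cd0q1 cd7q3 pd3 0 true true true .dn 1 3 3 (qsf 536870912 536870912 0 1230186008 3) ndB0q1 ndB7q3 pcB3 cut_pp_133_s Ext.none)

def k0_pp_133_s : ∃ t, chk3 f_pp_133_s t 1 1 1 = true :=
  ⟨(l 4), by decide +kernel⟩

theorem c_pp_133_s : CertNE 536870912 536870912 0 1230186008 587336777 62277027 3 eng mog cd0q1 cd7q3 pd3 true true true .dn 1 3 3
    ndB0q1 ndB7q3 pcB3 cut_pp_133_s Ext.none :=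
  certNE0 (fam := true) (s1 := true) (s2 := true) (a := 1) (b := 3) (c := 3) (cn := .dn) (n1 := ndB0q1) (n2 := ndB7q3) (pc := pcB3) (cut := cut_pp_133_s) (xt := Ext.none) (P1 := 536870912) (W1 := 536870912) (P2 := 0) (W2 := 1230186008) (P3 := 587336777) (W3 := 62277027) (N0 := 3) (En := eng) (mo := mog) (C1 := cd0q1) (C2 := cd7q3) (C3 := pd3)
    rfl k0_pp_133_s

noncomputable def cut_pp_202_s : Cut := Cut.of [[⟨4, 0, 0, 1449551462⟩]]

noncomputable def f_pp_202_s : ℕ → ℕ → ℕ → ℕ → Bool := onCell 0 536870912 0 536870912 587336777 62277027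
    (rowNE 3 eng mog cd0q2 cd7q0 pd2 0 true true true .pp 2 0 2 (qsf 0 536870912 0 536870912 2) ndB0q2 ndB7q0 pcB2 cut_pp_202_s Ext.none)

def k0_pp_202_s : ∃ t, chk3 f_pp_202_s t 1 1 1 = true :=
  ⟨(l 4), by decide +kernel⟩

theorem c_pp_202_s : CertNE 0 536870912 0 536870912 587336777 62277027 3 eng mog cd0q2 cd7q0 pd2 true true true .pp 2 0 2
    ndB0q2 ndB7q0 pcB2 cut_pp_202_s Ext.none :=
  certNE0 (fam := true) (s1 := true) (s2 := true) (a := 2) (b := 0) (c := 2) (cn := .pp) (n1 := ndB0q2) (n2 := ndB7q0) (pc := pcB2) (cut := cut_pp_202_s) (xt := Ext.none) (P1 := 0) (W1 := 536870912) (P2 := 0) (W2 := 536870912) (P3 := 587336777) (W3 := 62277027) (N0 := 3) (En := eng) (mo := mog) (C1 := cd0q2) (C2 := cd7q0) (C3 := pd2)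
    rfl k0_pp_202_s

noncomputable def cut_pp_203_s : Cut := Cut.of [[⟨4, 0, 0, 1449551462⟩]]

noncomputable def f_pp_203_s : ℕ → ℕ → ℕ → ℕ → Bool := onCell 0 536870912 0 536870912 587336777 62277027
    (rowNE 3 eng mog cd0q2 cd7q0 pd3 0 true true true .up 2 0 3 (qsf 0 536870912 0 536870912 3) ndB0q2 ndB7q0 pcB3 cut_pp_203_s Ext.none)

def k0_pp_203_s : ∃ t, chk3 f_pp_203_s t 1 1 1 = true :=
  ⟨(l 4), by decide +kernel⟩

theorem c_pp_203_s : CertNE 0 536870912 0 536870912 587336777 62277027 3 eng mog cd0q2 cd7q0 pd3 true true true .up 2 0 3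
    ndB0q2 ndB7q0 pcB3 cut_pp_203_s Ext.none :=
  certNE0 (fam := true) (s1 := true) (s2 := true) (a := 2) (b := 0) (c := 3) (cn := .up) (n1 := ndB0q2) (n2 := ndB7q0) (pc := pcB3) (cut := cut_pp_203_s) (xt := Ext.none) (P1 := 0) (W1 := 536870912) (P2 := 0) (W2 := 536870912) (P3 := 587336777) (W3 := 62277027) (N0 := 3) (En := eng) (mo := mog) (C1 := cd0q2) (C2 := cd7q0) (C3 := pd3)
    rfl k0_pp_203_s

noncomputable def cut_pp_213_s : Cut := Cut.of [[⟨4, 0, 0, 1449551462⟩]]

noncomputable def f_pp_213_s : ℕ → ℕ → ℕ → ℕ → Bool := onCell 0 536870912 536870912 536870912 587336777 62277027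
    (rowNE 3 eng mog cd0q2 cd7q1 pd3 0 true true true .pnn 2 1 3 (qsf 0 536870912 536870912 536870912 3) ndB0q2 ndB7q1 pcB3 cut_pp_213_s Ext.none)

def k0_pp_213_s : ∃ t, chk3 f_pp_213_s t 1 1 1 = true :=
  ⟨(l 4), by decide +kernel⟩

theorem c_pp_213_s : CertNE 0 536870912 536870912 536870912 587336777 62277027 3 eng mog cd0q2 cd7q1 pd3 true true true .pnn 2 1 3
    ndB0q2 ndB7q1 pcB3 cut_pp_213_s Ext.none :=
  certNE0 (fam := true) (s1 := true) (s2 := true) (a := 2) (b := 1) (c := 3) (cn := .pnn) (n1 := ndB0q2) (n2 := ndB7q1) (pc := pcB3) (cut := cut_pp_213_s) (xt := Ext.none) (P1 := 0) (W1 := 536870912) (P2 := 536870912) (W2 := 536870912) (P3 := 587336777) (W3 := 62277027) (N0 := 3) (En := eng) (mo := mog) (C1 := cd0q2) (C2 := cd7q1) (C3 := pd3)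
    rfl k0_pp_213_s

noncomputable def cut_pm_001_s : Cut := Cut.of [[⟨4, 0, 0, 1449551462⟩]]

noncomputable def f_pm_001_s : ℕ → ℕ → ℕ → ℕ → Bool := onCell 0 536870912 536870912 536870912 587336777 62277027
    (rowNE 3 eng mog cd0q0 cd7q0 pd1 1 true true false .up 0 0 1 (qsf 0 536870912 0 536870912 1) ndB0q0 ndB7q0 pcB1 cut_pm_001_s Ext.none)

def k0_pm_001_s : ∃ t, chk3 f_pm_001_s t 2 1 1 = true :=
  ⟨(b (l 3) (b (b (l 3) (l 2)) (l 2))), by decide +kernel⟩

def k1_pm_001_s : ∃ t, chk3 f_pm_001_s t 3 4 1 = true :=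
  ⟨(l 3), by decide +kernel⟩

def k2_pm_001_s : ∃ t, chk3 f_pm_001_s t 6 5 1 = true :=
  ⟨(l 3), by decide +kernel⟩

def k3_pm_001_s : ∃ t, chk3 f_pm_001_s t 7 10 1 = true :=
  ⟨(a (l 3) (b (a (l 3) (b (l 3) (a (l 3) (b (l 3) (a (l 3) (b (l 513953231847) (a (l 468856076711) (b (l 258402692679) (l 16776000))))))))) (a (b (l 3) (a (l 3) (b (a (l 3) (b (l 3) (l 536501810055))) (a (b (l 3) (l 494089008679)) (b (a (l 503752685783) (b (l 305110463975) (l 16776232))) (a (b (l 265918885751) (l 16775872)) (l 16774160))))))) (b (a (b (l 3) (a (l 3) (b (a (l 3) (b (l 511268878903) (l 293299303415))) (a (b (l 473151044439) (l 258939563495)) (l 16775576))))) (b (a (b (a (l 3) (l 443086273207)) (a (l 416779598807) (l 125795575287))) (b (a (b (l 227801049415) (l 16775776)) (l 16774296)) (l 16772992))) (a (b (a (l 16781088) (l 16773744)) (l 16772352)) (l 16769392)))) (a (b (a (b (a (l 3) (b (l 433959468167) (l 224579823623))) (a (b (l 320142851335) (l 16776560)) (l 16774952))) (b (l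 16774168) (l 16771584))) (a (l 16777272) (l 16767528))) (b (l 16766416) (l 16761056))))))), by decide +kernel⟩

def k4_pm_001_s : ∃ t, chk3 f_pm_001_s t 7 11 1 = true :=
  ⟨(a (b (a (l 3) (b (l 3) (a (l 3) (b (a (l 3) (b (l 530059359735) (a (l 483888462519) (l 204178731975)))) (a (b (a (l 3) (l 440938789911)) (a (l 396915375479) (l 16781936))) (b (a (l 144586058503) (l 16772968)) (l 16770656))))))) (a (b (a (l 3) (b (l 3) (a (l 3) (b (l 3) (a (l 3) (l 452213079303)))))) (a (b (l 3) (a (l 3) (b (l 563882228679) (a (l 486035947063) (b (l 231022277047) (l 16774456)))))) (b (a (b (l 3) (a (l 3) (b (l 475298528775) (l 185925118279)))) (b (a (l 398525988423) (l 16780064)) (l 16782064))) (a (b (a (b (l 300278627623) (l 16775680)) (l 16772528)) (l 16768792)) (l 16773464))))) (b (a (b (a (l 557976646791) (b (a (l 3) (b (l 471540432087) (l 222969211703))) (a (l 242833440631) (l 16773896)))) (a (b (a (l 502678944695) (l 197199410695)) (a (l 148881025975) (l 16771936))) (l 16779320)))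 (b (a (b (l 16780896) (l 16768840)) (l 16764584)) (l 16779824))) (a (b (a (l 16776656) (l 16758896)) (l 16772384)) (b (l 16749128) (l 16738512)))))) (b (a (b (a (b (a (l 3) (b (l 3) (a (l 3) (l 403894697127)))) (a (b (l 3) (a (l 3) (l 275582567527))) (b (a (l 366850604551) (l 16775312)) (l 16773432)))) (b (a (b (a (l 438254435175) (l 142438574695)) (a (l 16781008) (l 16773216))) (l 16770992)) (a (l 16769768) (l 16764784)))) (a (b (a (b (a (l 241222826887) (l 16774256)) (l 16772168)) (l 16768312)) (a (l 16766600) (l 16761000))) (c (l 16780424) (l 16775296)))) (b (a (b (l 16784944) (l 16757792)) (l 16752264)) (a (l 16747520) (l 16739008)))) (a (b (a (b (l 16755776) (l 16747088)) (l 16741096)) (a (l 16732520) (l 16722592))) (b (a (l 16731976) (l 16723688)) (l 16730688))))), by decide +kernel⟩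

def k5_pm_001_s : ∃ t, chk3 f_pm_001_s t 12 12 1 = true :=
  ⟨(b (l 3) (a (l 3) (b (l 3) (a (l 3) (b (l 3) (a (b (l 3) (l 2)) (b (a (l 3) (a (l 515563851095) (b (l 569787812279) (l 16776144)))) (a (b (l 442549405927) (l 2)) (l 16776256))))))))), by decide +kernel⟩

def k6_pm_001_s : ∃ t, chk3 f_pm_001_s t 13 12 1 = true :=
  ⟨(b (a (l 3) (b (a (l 3) (b (l 3) (a (b (l 3) (a (l 3) (l 494625882343))) (b (a (l 570324680775) (a (l 268603244551) (l 129553671623))) (a (b (l 218674246791) (l 16773768)) (l 16769728)))))) (a (b (a (l 3) (b (l 3) (a (l 3) (b (l 492478398887) (l 155860347463))))) (a (b (l 554755426135) (a (b (l 3) (l 402820956695)) (b (l 171966475767) (l 16772680)))) (b (a (b (l 258939567591) (l 16774648)) (l 16770048)) (l 16769912)))) (b (a (b (a (b (l 3) (l 241759697095)) (b (l 132238026487) (l 16771864))) (a (l 16771952) (l 16765448))) (b (l 16775136) (l 16756256))) (a (a (l 16779888) (l 16773176)) (l 16763944)))))) (a (b (a (b (l 3) (a (l 3) (b (l 3) (a (l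 3) (b (l 582135843207) (a (l 474224788631) (l 16776184))))))) (b (a (b (l 3) (l 582672715607)) (b (a (l 3) (b (l 544554878199) (a (l 288467464263) (l 16775760)))) (a (b (l 426980148039) (l 16781280)) (l 16770800)))) (a (b (a (b (l 3) (l 442012533943)) (b (a (l 292225561111) (l 16776032)) (l 16773264))) (a (a (l 82309030599) (l 16771648)) (l 16766560))) (b (l 16770520) (l 16777352))))) (a (b (a (b (a (l 3) (l 585357070583)) (a (b (l 3) (l 450602469287)) (a (b (l 477982885319) (l 16775088)) (l 16779208)))) (b (a (b (l 449528727095) (c (l 16780912) (l 95730803479))) (l 16776368)) (b (l 16772992) (l 16784224)))) (a (b (a (c (l 16781888) (b (l 81235288791) (l 16771072))) (l 16766616)) (l 16781880)) (l 16772880))) (b (a (b (l 16771440) (l 16772960)) (l 16763904)) (a (l 16759424) (l 16745984))))) (b (a (b (a (b (a (c (l 16783376) (l 16778064)) (l 16766088)) (l 16781584)) (l 16772440)) (a (l 16768248) (l 16754816))) (b (l 16757456) (l 16734680))) (a (b (l 16748832) (l 16725744))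 (b (l 16717040) (l 16699304)))))), by decide +kernel⟩

def k7_pm_001_s : ∃ t, chk3 f_pm_001_s t 6 13 1 = true :=
  ⟨(a (b (a (l 2) (b (a (l 2) (a (l 2) (a (l 2) (b (l 16767848) (l 2))))) (l 2))) (l 2)) (b (a (b (a (b (a (l 16768232) (l 16754816)) (a (l 16750056) (l 16736672))) (b (l 16734520) (l 16716448))) (a (b (l 16725000) (l 2)) (c (l 16710408) (l 16709520)))) (b (a (l 16714304) (l 16693224)) (a (l 16683424) (l 16636256)))) (a (b (a (l 2) (l 16673512)) (l 2)) (b (a (l 16626152) (l 16600120)) (a (l 16589880) (l 16563960)))))), by decide +kernel⟩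

def k8_pm_001_s : ∃ t, chk3 f_pm_001_s t 7 6 1 = true :=
  ⟨(b (a (b (a (b (a (b (a (b (a (l 3) (l 421074566951)) (a (b (l 510195138407) (l 190220086631)) (l 16773208))) (b (a (l 96267675367) (l 16769624)) (l 16775856))) (a (a (l 16773048) (l 16783304)) (l 16775592))) (b (a (l 16780136) (l 16750544)) (l 16761920))) (a (b (a (l 16770224) (l 16739176)) (l 16748040)) (b (l 16726016) (l 16709864)))) (b (a (a (l 16736264) (l 16729584)) (l 16720728)) (a (l 16725360) (l 16693776)))) (a (b (a (b (l 16729712) (l 16709944)) (l 16704128)) (a (l 16692936) (l 16663320))) (b (a (l 16671480) (l 16662816)) (a (l 16633040) (l 16626680))))) (b (a (b (a (l 16710328) (l 16701280)) (a (l 16684840) (l 16677064))) (b (a (l 16693416) (l 16686280)) (a (l 16670344) (l 16664328)))) (a (b (a (l 16655728) (l 16649784)) (a (l 16622000) (l 16617816))) (a (l 16629504) (l 16625520))))) (a (b (a (b (a (l 16646968) (l 16623432)) (a (l 16611120) (l 16587688))) (b (a (l 16608136) (l 16583880)) (b (l 16589272)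 (l 16568352)))) (a (b (a (l 16575056) (l 16530736)) (a (l 16538976) (l 16494632))) (a (l 16553680) (l 16513176)))) (a (b (b (l 16580360) (l 16535576)) (b (l 16484304) (l 16446384))) (b (a (l 16559128) (l 16559320)) (l 16469544))))), by decide +kernel⟩

def k9_pm_001_s : ∃ t, chk3 f_pm_001_s t 3 7 1 = true :=
  ⟨(a (b (a (l 2) (a (l 2) (a (l 2) (b (l 16561808) (l 2))))) (l 2)) (a (b (b (a (b (l 16532392) (l 16496736)) (a (l 16460688) (l 16398976))) (a (a (l 2) (l 16413704)) (a (l 16368968) (l 16348784)))) (a (l 2) (b (l 16347400) (l 2)))) (b (a (b (l 16431064) (l 16359584)) (b (a (l 16345896) (l 16361344)) (l 16295984))) (a (b (l 16290208) (l 16230880)) (b (l 16226256) (l 16182064)))))), by decide +kernel⟩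

theorem s10_pm_001_s : ∃ t, chk3 f_pm_001_s t 6 12 1 = true := ex3_a k5_pm_001_s k6_pm_001_s

theorem s11_pm_001_s : ∃ t, chk3 f_pm_001_s t 6 6 1 = true := ex3_b s10_pm_001_s k7_pm_001_s

theorem s12_pm_001_s : ∃ t, chk3 f_pm_001_s t 3 6 1 = true := ex3_a s11_pm_001_s k8_pm_001_s

theorem s13_pm_001_s : ∃ t, chk3 f_pm_001_s t 3 3 1 = true := ex3_b s12_pm_001_s k9_pm_001_s

theorem s14_pm_001_s : ∃ t, chk3 f_pm_001_s t 7 5 1 = true := ex3_b k3_pm_001_s k4_pm_001_s

theorem s15_pm_001_s : ∃ t, chk3 f_pm_001_s t 3 5 1 = true := ex3_a k2_pm_001_s s14_pm_001_s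

theorem s16_pm_001_s : ∃ t, chk3 f_pm_001_s t 3 2 1 = true := ex3_b k1_pm_001_s s15_pm_001_s

theorem s17_pm_001_s : ∃ t, chk3 f_pm_001_s t 3 1 1 = true := ex3_b s16_pm_001_s s13_pm_001_s

theorem s18_pm_001_s : ∃ t, chk3 f_pm_001_s t 1 1 1 = true := ex3_a k0_pm_001_s s17_pm_001_s

theorem c_pm_001_s : CertNE 0 536870912 0 536870912 587336777 62277027 3 eng mog cd0q0 cd7q0 pd1 true true false .up 0 0 1
    ndB0q0 ndB7q0 pcB1 cut_pm_001_s Ext.none :=
  certNE1 (fam := true) (s1 := true) (s2 := false) (a := 0) (b := 0) (c := 1) (cn := .up) (n1 := ndB0q0) (n2 := ndB7q0) (pc := pcB1) (cut := cut_pm_001_s) (xt := Ext.none) (P1 := 0) (W1 := 536870912) (P2 := 0) (W2 := 536870912) (P3 := 587336777) (W3 := 62277027) (N0 := 3) (En := eng) (mo := mog) (C1 := cd0q0) (C2 := cd7q0) (C3 := pd1)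
    rfl (fun _ => rfl) s18_pm_001_s

end Pool.Agent.Strip051.G.I5470_6050.Tab.CS.BA07

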