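import Pool.Agent.Strip051.G.I5470_6050.Tab
import Pool.Agent.Strip051.PB.StripB

/-! # Strips, near vertex: certificates 4 (generated) -/

set_option linter.all false
set_option maxRecDepth 100000

namespace Pool.Agent.Strip051.G.I5470_6050.Tab.CS.BA07

open Pool.Agent.Strip051.PB Pool.Agent.Strip051.PB.T
open Pool.Agent.Strip051.G.I5470_6050.Tab

noncomputable def cut_pm_011_s : Cut := Cut.of [[⟨4, 0, 0, 1449551462⟩], [⟨0, 0, 0, 67108864⟩, ⟨1, 1, 0, 67108864⟩, ⟨2, 1, 0, 67108864⟩]]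

noncomputable def f_pm_011_s : ℕ → ℕ → ℕ → ℕ → Bool := onCell 0 536870912 536870912 536870912 587336777 62277027
    (rowNE 3 eng mog cd0q0 cd7q1 pd1 1 true true false .pnn 0 1 1 (qsf 0 536870912 536870912 536870912 1) ndB0q0 ndB7q1 pcB1 cut_pm_011_s Ext.none)

def k0_pm_011_s : ∃ t, chk3 f_pm_011_s t 1 2 1 = true :=
  ⟨(a (l 3) (b (l 1) (a (l 3) (l 1)))), by decide +kernel⟩

def k1_pm_011_s : ∃ t, chk3 f_pm_011_s t 4 6 1 = true :=
  ⟨(l 3), by decide +kernel⟩

def k2_pm_011_s : ∃ t, chk3 f_pm_011_s t 5 12 1 = true :=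
  ⟨(l 3), by decide +kernel⟩

def k3_pm_011_s : ∃ t, chk3 f_pm_011_s t 10 13 1 = true :=
  ⟨(l 3), by decide +kernel⟩

def k4_pm_011_s : ∃ t, chk3 f_pm_011_s t 11 26 1 = true :=
  ⟨(l 3), by decide +kernel⟩

def k5_pm_011_s : ∃ t, chk3 f_pm_011_s t 22 27 1 = true :=
  ⟨(b (l 3) (a (l 3) (b (l 3) (a (l 3) (b (l 3) (a (l 3) (b (b (l 3) (a (l 3) (a (l 3) (b (c (l 518248204647) (l 523616913767)) (a (c (l 281488132935) (l 435033211815)) (c (l 16776936) (l 16777912))))))) (b (b (a (l 3) (a (b (l 487109690823) (a (l 517174461527) (l 16777024))) (l 16777488))) (b (a (l 3) (a (a (l 159081563511) (l 16776464)) (l 16775336))) (a (a (l 3) (a (l 3) (l 228337911527))) (l 16776176)))) (a (b (b (a (l 3) (a (l 298131130439) (l 16776832))) (a (l 520932558631) (l 16777960))) (a (a (c (l 277730036535) (l 432885728135)) (c (l 16776928) (l 16777904))) (l 16775800))) (c (l 16775440) (l 16775416))))))))))), by decide +kernel⟩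

def k6_pm_011_s : ∃ t, chk3 f_pm_011_s t 23 54 1 = true :=
  ⟨(a (l 3) (b (a (l 3) (b (l 3) (a (l 3) (b (l 3) (a (l 3) (l 518248207367)))))) (a (b (l 3) (a (a (l 3) (a (l 3) (b (l 3) (b (l 3) (l 519858818615))))) (b (b (l 3) (a (l 3) (a (l 519321947479) (a (l 232096010503) (l 16778288))))) (a (a (b (l 3) (a (l 250349621751) (l 101099506663))) (b (l 413558376391) (l 16775928))) (a (b (l 51170511927) (l 16774360)) (l 16773936)))))) (b (a (b (l 3) (b (a (l 3) (c (l 450065599447) (l 427517021159))) (a (l 519321948791) (a (l 147807277223) (l 16775656))))) (b (b (a (l 3) (a (l 218674238727) (l 16776200))) (a (a (l 497847110471) (l 16779040)) (l 16774696))) (a (l 16776848) (l 16771256)))) (a (a (b (b (a (l 396915377879) (l 16779136)) (l 16775008)) (l 16776824)) (b (l 16773008) (l 16768424))) (b (l 16773504) (l 16768920))))))), by decide +kernel⟩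

def k7_pm_011_s : ∃ t, chk3 f_pm_011_s t 46 110 1 = true :=
  ⟨(a (l 3) (b (a (l 3) (b (l 3) (a (l 3) (a (b (l 3) (b (l 502678947847) (a (l 218674235879) (l 16776720)))) (a (b (l 3) (l 16777832)) (b (l 417316472391) (l 16775744))))))) (a (b (b (l 3) (a (l 3) (a (l 3) (b (l 516637591687) (a (c (l 231559137895) (l 231022266983)) (l 16776800)))))) (a (a (b (l 3) (b (c (l 516637591783) (l 522543171831)) (a (c (l 255718329047) (l 405505311527)) (l 34527511783)))) (a (b (l 3) (b (a (l 210621171623) (l 16777688)) (l 16776088))) (b (b (l 3) (a (l 472077304935) (l 207399946119))) (l 16775888)))) (a (b (b (a (l 507510785479) (a (l 202031236983) (l 16777000))) (l 16777752)) (l 16775400)) (b (l 16776128) (l 16773208))))) (b (b (a (b (a (l 3) (a (l 489257174359) (l 16778112))) (a (a (l 3) (l 228337912359)) (l 16776376))) (l 16775616)) (a (a (a (b (l 134922372935) (l 16776024)) (l 16775824)) (l 16774672)) (l 16774976))) (a (c (l 16774680) (l 16774632)) (l 16771568)))))), by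 decide +kernel⟩

def k8_pm_011_s : ∃ t, chk3 f_pm_011_s t 46 111 1 = true :=
  ⟨(a (b (a (b (l 3) (a (l 3) (a (b (l 3) (b (c (l 518248204631) (l 522543171943)) (a (c (l 428053889943) (l 434496340887)) (c (l 16776920) (l 37748737383))))) (a (b (l 3) (b (b (l 297057388615) (l 16777016)) (l 16776168))) (b (b (l 3) (b (l 3) (l 227264169671))) (l 16776624)))))) (a (a (b (l 3) (b (b (a (l 517711332967) (b (l 294373034023) (l 16777000))) (a (a (l 84456506679) (l 16776720)) (l 16776152))) (l 16776144))) (b (b (l 3) (b (c (l 513953237303) (l 523080042807)) (a (c (l 423222051687) (l 429664502631)) (c (l 16778208) (l 16777880))))) (b (a (l 16776616) (l 16775200)) (l 16773312)))) (b (a (a (b (l 3) (b (b (l 290078066695) (l 16776984)) (l 16776136))) (b (b (l 3) (c (l 418927084359) (l 425369535303))) (l 16776592))) (b (b (a (l 517174461991) (b (l 283098744807) (l 16776968))) (c (l 16777808) (c (l 16777808) (l 16777800)))) (l 16775448))) (a (l 16775544) (l 16774024))))) (a (a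 (b (a (a (b (l 3) (b (b (l 300278614103) (l 16777024)) (l 16776176))) (b (b (l 3) (b (l 3) (l 230485395175))) (l 16776648))) (b (b (b (l 486572819911) (a (l 517174461527) (l 16777024))) (c (l 16777864) (c (l 16777864) (l 16777896)))) (l 16776168))) (a (l 16775608) (l 16774096))) (b (a (c (l 16775960) (b (l 16776256) (l 16773336))) (l 16775584)) (l 16771824))) (b (c (l 16774440) (l 16773232)) (l 16769888)))) (a (b (b (a (a (b (a (l 16776576) (l 16775152)) (l 16773272)) (l 16775496)) (l 16774504)) (c (l 16772856) (l 16772784))) (c (l 16766096) (l 16765976))) (b (b (l 16771192) (l 16766656)) (l 16759864)))), by decide +kernel⟩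

def k9_pm_011_s : ∃ t, chk3 f_pm_011_s t 47 55 1 = true :=
  ⟨(b (a (b (a (a (a (b (l 3) (b (b (a (l 301889227879) (l 16777040)) (l 16776296)) (l 16774584))) (b (b (l 3) (b (l 487109691223) (l 110226311607))) (l 16775152))) (b (a (b (a (l 519858817943) (l 401210344855)) (l 16777344)) (a (b (l 108615699543) (l 16774872)) (l 16776544))) (l 16774464))) (b (a (c (l 16775920) (l 16774576)) (l 16775392)) (l 16772400))) (a (b (a (l 16773016) (l 16772528)) (l 16769528)) (b (l 16767840) (l 16763280)))) (a (b (a (l 16769968) (l 16766808)) (l 16759264)) (b (l 16762056) (l 16758160)))) (a (b (a (l 16765336) (l 16761704)) (l 16755768)) (c (l 16753072) (l 16752808)))), by decide +kernel⟩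

def k10_pm_011_s : ∃ t, chk3 f_pm_011_s t 4 14 1 = true :=
  ⟨(a (l 3) (b (l 3) (a (l 3) (b (l 3) (a (l 3) (b (l 3) (a (b (l 3) (a (l 3) (b (l 3) (b (a (l 3) (l 465634856007)) (a (l 504289562343) (a (l 166597758503) (l 16776200))))))) (b (a (l 3) (b (a (l 3) (c (l 513416370295) (l 523080046631))) (b (a (l 3) (a (l 403894699447) (l 16778072))) (a (a (l 461876758679) (l 134922374231)) (l 16775304))))) (a (a (b (b (l 3) (l 426980149655)) (a (b (l 118816246679) (l 16774984)) (l 16774792))) (b (b (a (l 515026979687) (l 190220078855)) (l 16778688)) (l 16772968))) (b (c (l 16776048) (l 16776376)) (l 16774528))))))))))), by decide +kernel⟩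

def k11_pm_011_s : ∃ t, chk3 f_pm_011_s t 8 30 1 = true :=
  ⟨(a (l 3) (b (l 3) (a (l 3) (b (l 3) (a (l 3) (b (l 3) (a (l 3) (b (l 3) (a (a (l 3) (b (l 3) (b (l 3) (a (l 440401920951) (b (l 258939552951) (l 16776912)))))) (a (b (l 3) (b (a (c (l 410874020631) (l 416242729735)) (b (l 207936816215) (l 16776824))) (l 16776984))) (b (b (l 516637591495) (a (b (l 3) (l 178945786967)) (l 55465477271))) (l 16776376)))))))))))), by decide +kernel⟩

def k12_pm_011_s : ∃ t, chk3 f_pm_011_s t 16 31 1 = true :=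
  ⟨(b (b (l 3) (l 14)) (l 14)), by decide +kernel⟩

def k13_pm_011_s : ∃ t, chk3 f_pm_011_s t 34 124 1 = true :=
  ⟨(a (l 3) (b (l 3) (a (l 3) (a (l 3) (b (l 3) (b (l 3) (b (a (l 3) (b (a (l 3) (l 433422598775)) (a (l 449528726199) (c (l 16777696) (l 46875542151))))) (a (b (a (l 3) (l 465097982711)) (a (l 480130368311) (a (l 164450271943) (l 16776976)))) (a (b (a (c (l 16777544) (l 137606726279)) (l 16776936)) (l 16776560)) (l 16776272)))))))))), by decide +kernel⟩

def k14_pm_011_s : ∃ t, chk3 f_pm_011_s t 34 125 1 = true :=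
  ⟨(b (a (b (l 3) (l 14)) (a (a (b (l 3) (b (b (b (l 3) (l 14)) (l 14)) (l 14))) (b (b (l 3) (a (a (l 3) (b (l 3) (b (l 3) (b (l 453823693351) (a (l 334638350983) (l 16777120)))))) (b (b (l 3) (a (l 3) (b (a (l 3) (l 175187690343)) (a (l 188609463207) (l 16777048))))) (a (b (a (l 444160016887) (a (l 187535721143) (l 16777472))) (l 16777160)) (c (l 16777200) (l 16776872)))))) (a (b (b (a (b (b (l 471003562599) (a (l 268066358375) (l 16777152))) (l 16777392)) (b (l 16777192) (l 16776352))) (l 16776184)) (l 16774968)) (b (b (l 16776120) (l 16774760)) (l 16773216))))) (b (a (b (a (a (l 3) (b (l 3) (b (l 3) (b (a (l 3) (l 16777568)) (l 75866571383))))) (b (b (a (l 3) (l 495162753911)) (a (l 510195139511) (b (c (l 152102241415) (l 206863074103)) (l 16777384)))) (a (b (b (a (l 304573580503) (l 16777208)) (l 16777416)) (l 16776704)) (l 16776408)))) (a (b (b (a (b (a (l 3) (l 148344144647)) (a (l 161765917511) (l 16777016))) (l 16776736)) (l 16776824)) (l 16776376)) (c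 (l 16775800) (l 16775712)))) (b (b (a (b (a (a (c (l 131164275799) (l 182703883015)) (l 16777008)) (l 16776600)) (l 16776360)) (l 16775520)) (c (l 16775696) (l 16775688))) (c (l 16774160) (l 16774136)))) (b (a (a (l 16774832) (l 16773080)) (l 16772752)) (a (l 16772880) (l 16769384)))))) (a (l 14) (b (b (a (a (l 14) (l 16773016)) (l 16769896)) (a (l 14) (l 16768984))) (a (l 14) (l 16765240))))), by decide +kernel⟩

def k15_pm_011_s : ∃ t, chk3 f_pm_011_s t 35 248 1 = true :=
  ⟨(a (a (l 3) (b (l 3) (a (a (l 3) (a (l 3) (b (l 3) (b (l 3) (c (l 474224788679) (l 483888465063)))))) (b (b (l 3) (a (l 3) (a (l 3) (a (l 511268881543) (b (l 3) (l 198810010423)))))) (b (b (a (l 3) (a (a (l 3) (l 234243490695)) (l 16776928))) (a (a (l 3) (l 423222051399)) (l 16777352))) (a (a (b (l 440401920663) (l 16777712)) (l 16777576)) (l 16775928))))))) (a (b (b (a (l 3) (a (l 3) (b (l 3) (b (l 480130368743) (a (l 478519755575) (l 16777752)))))) (b (a (l 3) (b (a (l 505900172679) (a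 (l 16777800) (l 16776584))) (a (a (l 514490106839) (l 122574341031)) (l 16776352)))) (b (a (l 3) (a (a (l 152102241255) (l 16776672)) (l 16775840))) (a (a (l 3) (a (l 3) (l 170892723271))) (l 16776536))))) (b (b (a (b (a (l 3) (a (l 197199397959) (l 16776760))) (a (a (l 3) (l 217063621783)) (l 16776528))) (l 16775768)) (a (a (a (b (a (l 285783099015) (l 16777584)) (l 16776888)) (l 16776592)) (l 16775752)) (l 16774088))) (a (a (l 16775984) (l 16774216)) (l 16772544)))) (a (a (b (b (b (a (l 466708595815) (b (l 231559137191) (l 16777008))) (c (l 16777832) (l 16777168))) (l 16774976)) (l 16773208)) (b (b (b (l 16777080) (l 16775400)) (l 16773864)) (l 16770784))) (b (b (l 16775544) (l 16772184)) (l 16771728))))), by decide +kernel⟩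

def k16_pm_011_s : ∃ t, chk3 f_pm_011_s t 35 249 1 = true :=
  ⟨(b (a (a (a (l 3) (b (l 3) (b (a (l 3) (a (b (l 3) (a (l 222432331191) (l 16777480))) (a (b (l 272361325447) (l 16776880)) (l 16777520)))) (a (a (a (l 482814723063) (b (l 3) (l 103246988279))) (b (a (l 243370296839) (l 16777520)) (l 16776816))) (l 16776736))))) (b (b (b (a (a (l 3) (a (l 476372271911) (l 79087796983))) (l 16776368)) (a (a (l 500531463543) (a (l 96804537159) (l 16776584))) (l 16775200))) (a (a (b (a (l 511268881335) (c (l 83919635623) (l 120963728183))) (b (a (l 231559136119) (l 16776792)) (l 16777464))) (l 16776088)) (l 16775736))) (a (a (c (l 16776312) (l 16776144)) (l 16775208)) (l 16774200)))) (a (a (a (l 16773560) (l 16772448)) (l 16770784)) (l 16768096))) (a (a (a (b (a (b (l 3) (b (b (l 513416365271) (a (l 3) (l 235854103447))) (a (c (l 415168987703) (l 422685180455)) (l 16777624)))) (b (b (b (l 488183432279) (a (l 3) (l 191293817607))) (a (a (l 503215817383) (l 199883752247))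 (l 16777552))) (a (a (l 16777464) (l 16776536)) (l 16776120)))) (a (a (b (b (l 24326963927) (l 16776488)) (l 16775720)) (l 16776176)) (l 16775512))) (b (a (b (c (l 16776984) (l 16776976)) (l 16775296)) (l 16775360)) (l 16774184))) (a (b (l 16774360) (l 16770992)) (l 16771120))) (a (c (l 16769128) (l 16769080)) (l 16762032)))), by decide +kernel⟩

def k17_pm_011_s : ∃ t, chk3 f_pm_011_s t 35 125 1 = true :=
  ⟨(a (b (b (b (a (a (a (l 16773904) (l 16772800)) (l 16771152)) (l 16769144)) (a (c (l 16771528) (l 16771488)) (l 16765784))) (a (a (l 16769520) (l 16766008)) (l 16765328))) (a (b (l 16765624) (l 16758888)) (c (l 16759224) (l 16759104)))) (b (a (b (l 16765000) (l 16758280)) (l 16758512)) (a (l 16757368) (l 16747696)))), by decide +kernel⟩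

def k18_pm_011_s : ∃ t, chk3 f_pm_011_s t 17 63 1 = true :=
  ⟨(b (a (a (l 14) (a (l 14) (a (l 14) (b (l 16758616) (l 14))))) (a (b (a (l 16755328) (l 16748320)) (c (l 16747632) (l 16747400))) (b (l 16745640) (l 16733488)))) (a (l 14) (a (b (l 16739264) (l 14)) (b (l 16725256) (l 16717016))))), by decide +kernel⟩

def k19_pm_011_s : ∃ t, chk3 f_pm_011_s t 18 60 1 = true :=
  ⟨(a (l 3) (b (l 3) (a (l 3) (b (l 3) (b (a (l 3) (b (a (l 3) (a (l 3) (l 414095246871))) (b (a (l 3) (a (l 256792070839) (l 16776504))) (a (l 457581791415) (l 16776064))))) (a (a (l 3) (a (b (l 3) (b (l 511805753207) (l 144049178695))) (b (l 496773368375) (l 16778200)))) (a (b (b (a (l 452213081463) (l 16776792)) (l 16777664)) (l 16774808)) (l 16774816)))))))), by decide +kernel⟩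

def k20_pm_011_s : ∃ t, chk3 f_pm_011_s t 36 122 1 = true :=
  ⟨(a (l 3) (b (l 3) (a (b (l 3) (b (l 3) (a (l 3) (a (l 3) (a (l 3) (l 483351594967)))))) (b (b (l 3) (a (l 3) (b (l 3) (b (l 493552142535) (a (l 3) (l 188609463959)))))) (b (b (a (l 3) (a (l 400136602519) (l 16776568))) (a (a (l 3) (l 424832664695)) (l 16777752))) (a (b (a (l 448991855959) (l 16778112)) (a (l 65666024967) (l 16775776))) (l 16774576))))))), by decide +kernel⟩

def k21_pm_011_s : ∃ t, chk3 f_pm_011_s t 36 123 1 = true :=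
  ⟨(a (b (a (l 3) (b (l 3) (b (a (l 3) (a (b (l 3) (b (l 467782337671) (l 182703883911))) (b (a (l 450602468343) (l 128479921559)) (l 16776448)))) (b (a (a (l 3) (a (l 511805752711) (a (l 269676971671) (l 116668761783)))) (c (l 16777304) (l 16777296))) (a (a (a (l 3) (a (l 326048417543) (l 151028500343))) (l 16777976)) (l 16774968)))))) (a (a (b (b (l 3) (a (b (l 3) (l 501068334871)) (b (c (l 476372272759) (l 484425336407)) (a (a (l 243907167863) (l 96804537943)) (l 16776784))))) (b (a (b (b (a (l 502142075783) (l 16777144)) (l 16777728)) (l 16776136)) (l 16776184)) (l 16775352))) (b (a (a (b (l 3) (b (b (l 293299291479) (l 16776992)) (l 16776224))) (b (b (l 3) (l 435570082727)) (l 16776832))) (b (b (a (l 3) (l 406579053287)) (a (l 115058148679) (l 16776584))) (l 16775328))) (c (l 16774136) (l 16774120)))) (b (b (a (a (a (b (l 75866572071) (l 16776024)) (l 16775968)) (l 16775120)) (l 16773424)) (c (l 16773824) (l 16773808))) (c (l 16772072) (l 16771392))))) (a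 (b (b (b (b (a (l 3) (a (l 498383980279) (a (l 130090535015) (l 16776752)))) (b (a (l 3) (a (l 206326204183) (l 16776264))) (a (l 518248204807) (l 16777632)))) (a (a (b (l 3) (a (l 420000826151) (l 16777736))) (a (b (l 256792070007) (l 16776512)) (l 16777768))) (l 16776352))) (a (a (b (l 16777136) (l 16773776)) (l 16774976)) (l 16773272))) (b (c (l 16771640) (l 16771608)) (l 16767528))) (b (b (a (c (l 16775104) (l 16774928)) (l 16774120)) (l 16771168)) (a (l 16766168) (l 16766512))))), by decide +kernel⟩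

def k22_pm_011_s : ∃ t, chk3 f_pm_011_s t 37 61 1 = true :=
  ⟨(b (a (b (a (a (l 3) (b (l 3) (b (l 3) (b (l 501605206743) (a (l 516100720535) (l 108615698295)))))) (b (b (l 3) (a (l 3) (a (c (l 442549405607) (l 448454985607)) (b (l 242833426999) (l 16776584))))) (b (a (a (l 482814724471) (b (l 434496341191) (l 16778160))) (l 16777432)) (a (a (a (l 16778064) (l 16776176)) (l 16775312)) (l 16773576))))) (b (a (a (a (b (l 3) (b (c (l 169282112535) (l 213305526487)) (l 16776448))) (b (b (l 3) (c (l 145122921271) (l 180556400711))) (l 16775808))) (a (b (b (l 147807275095) (l 16776200)) (l 16774664)) (l 16775848))) (a (l 16775432) (l 16770504))) (a (a (c (l 16774624) (l 16774616)) (l 16771016)) (l 16770184)))) (b (a (b (a (b (a (a (l 482814724055) (l 369534960519)) (a (l 117742504247) (l 16776544))) (l 16776672)) (l 16775376)) (l 16773752)) (b (l 16773192) (l 16766472))) (a (c (l 16770240) (l 16767600)) (l 16765584)))) (a (a (b (b (l 16770688) (l 16763976)) (l 16763080))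 (b (l 16764048) (l 16753256))) (b (l 16759896) (l 16751576)))), by decide +kernel⟩

def k23_pm_011_s : ∃ t, chk3 f_pm_011_s t 19 30 1 = true :=
  ⟨(b (a (b (a (l 3) (b (a (l 3) (b (l 3) (a (l 3) (a (l 515026981719) (b (l 3) (l 193441304471)))))) (a (b (a (l 3) (b (l 3) (l 466171726887))) (a (b (l 501068336759) (a (l 357186929575) (l 16777840))) (a (b (a (l 228337913111) (l 16778416)) (l 16775336)) (l 16777800)))) (b (a (a (b (l 3) (l 113447537607)) (b (l 389399184711) (l 16775880))) (b (l 16778768) (l 16774080))) (l 16774160))))) (a (b (a (b (l 3) (a (a (l 3) (b (l 3) (a (l 440938792487) (l 184851368791)))) (b (a (l 499457722999) (a (l 242833427687) (l 126869309847))) (l 16778288)))) (b (b (a (l 3) (a (l 410874021367) (l 79087798775))) (a (a (l 455971178551) (a (l 182703885127) (l 16778176))) (l 16775384))) (a (c (l 16777288) (l 16776632)) (l 16772304)))) (a (b (a (a (a (b (l 127406180759) (l 16775120)) (l 16777520)) (l 16774680)) (l 16772912)) (l 16772608)) (c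 (l 16772576) (l 16771256)))) (b (a (a (b (l 16776664) (l 16769936)) (l 16772232)) (l 16769960)) (b (l 16767512) (l 16763416))))) (b (a (b (b (b (a (l 3) (a (a (l 221895462967) (l 16776560)) (l 16774736))) (a (a (l 3) (a (l 415705859751) (l 16778232))) (l 16776512))) (a (a (b (a (l 473151047991) (l 142975438087)) (l 16778424)) (l 16777048)) (l 16773416))) (a (b (l 16774128) (l 16767392)) (l 16769864))) (b (a (c (l 16773240) (l 16773240)) (l 16768336)) (l 16762560))) (a (b (c (l 16764072) (l 16764072)) (l 16761120)) (a (l 16757944) (l 16753056))))) (a (b (a (b (a (l 16766464) (l 16759144)) (l 16758568)) (a (l 16756880) (l 16756056))) (a (a (l 16748664) (l 16749224)) (l 16742152))) (b (a (l 16748880) (l 16739192)) (b (l 16731864) (l 16713280))))), by decide +kernel⟩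

def k24_pm_011_s : ∃ t, chk3 f_pm_011_s t 9 31 1 = true :=
  ⟨(a (b (a (b (a (b (b (a (a (l 16772280) (l 16768720)) (l 16767960)) (a (l 16768368) (l 16761256))) (a (a (l 16763352) (l 16763736)) (l 16760368))) (b (a (l 16761400) (l 16759480)) (l 16752936))) (a (b (c (l 16754488) (l 16754384)) (l 16746264)) (b (l 16745440) (l 16732048)))) (b (a (b (l 16752632) (l 16739248)) (a (l 16746912) (l 16731808))) (a (c (l 16737600) (l 16732240)) (l 16728392)))) (a (b (a (b (l 16732840) (l 16724648)) (c (l 16730400) (l 16730192))) (b (l 16719880) (l 16714312))) (b (a (l 16721296) (l 16701712)) (a (l 16694552) (l 16685520))))) (b (a (b (b (l 16734696) (l 16726608)) (a (l 16708664) (l 16699328))) (b (l 16711656) (l 16685072))) (b (a (l 16698376) (l 16669024)) (a (l 16692792) (l 16653008))))), by decide +kernel⟩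

def k25_pm_011_s : ∃ t, chk3 f_pm_011_s t 20 28 1 = true :=
  ⟨(l 3), by decide +kernel⟩

def k26_pm_011_s : ∃ t, chk3 f_pm_011_s t 21 56 1 = true :=
  ⟨(l 3), by decide +kernel⟩

def k27_pm_011_s : ∃ t, chk3 f_pm_011_s t 42 57 1 = true :=
  ⟨(b (l 3) (a (l 3) (b (l 3) (a (b (l 3) (b (l 3) (a (l 3) (a (c (l 465097984231) (l 464561113319)) (b (l 221358591079) (l 16776512)))))) (b (b (b (l 3) (a (l 3) (c (l 425906407351) (a (l 3) (l 213305527335))))) (b (a (l 3) (a (l 421074568375) (l 16776480))) (a (l 505900174311) (l 16778048)))) (a (b (a (b (l 520932559079) (l 167671499335)) (a (l 81235282071) (l 16776160))) (l 16775024)) (l 16775352))))))), by decide +kernel⟩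

def k28_pm_011_s : ∃ t, chk3 f_pm_011_s t 43 57 1 = true :=
  ⟨(b (a (b (l 3) (a (l 3) (b (l 3) (b (l 3) (b (l 3) (a (l 3) (a (l 3) (a (l 300815485751) (l 16778384))))))))) (a (b (l 3) (b (a (l 3) (a (b (l 3) (a (l 520395688407) (b (l 3) (l 166060885863)))) (a (b (l 3) (b (l 271824456311) (l 16776568))) (b (l 521469430423) (l 16777728))))) (a (b (b (a (l 3) (l 436643824983)) (a (l 502142076823) (l 68887250743))) (b (a (a (l 219211106551) (l 16776776)) (l 16775728)) (l 16775336))) (c (l 16776808) (b (l 16776912) (l 16773088)))))) (b (b (l 3) (b (a (l 3) (a (l 3) (b (l 512879495191) (a (l 239075330407) (l 16776824))))) (b (a (l 3) (a (a (l 469392950471) (l 16778120)) (l 16776072))) (a (c (l 458118662599) (a (l 3) (l 416779600999))) (l 16776992))))) (b (b (a (b (a (l 473687918279) (l 16778008)) (a (a (l 191293818903) (l 16776656)) (l 16775600))) (l 16775344)) (a (l 16775968) (l 16771840))) (l 16773896))))) (a (b (a (a (b (l 3) (b (l 3) (a (l 521469430967) (b (l 474761660039)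 (l 102173247543))))) (b (l 3) (a (b (a (l 3) (l 430201374167)) (l 16778128)) (b (a (b (l 477446014151) (l 16776760)) (l 16778256)) (l 16774792))))) (a (a (b (b (l 3) (b (l 519858817079) (a (l 242296555943) (l 16776872)))) (l 16775808)) (b (b (a (l 3) (l 473687918471)) (b (l 87140861911) (l 16775832))) (l 16775744))) (b (b (a (b (l 397452248007) (l 16777936)) (l 16775784)) (l 16775616)) (l 16776288)))) (a (b (b (b (a (a (l 158007822935) (l 16775912)) (l 16773856)) (l 16775784)) (l 16774496)) (l 16774536)) (c (l 16771200) (l 16771184)))) (b (a (b (a (c (l 16775240) (l 16773920)) (l 16775064)) (l 16772112)) (l 16769320)) (c (l 16768064) (l 16765496))))), by decide +kernel⟩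

def k29_pm_011_s : ∃ t, chk3 f_pm_011_s t 20 58 1 = true :=
  ⟨(a (l 3) (b (a (l 3) (b (l 3) (a (l 3) (b (l 3) (b (a (l 3) (a (l 3) (l 412484634167))) (b (a (l 3) (a (l 261087038743) (l 16776456))) (a (l 493015272167) (l 16776048)))))))) (a (b (a (l 3) (b (l 3) (a (l 3) (a (l 3) (b (l 3) (l 386714830055)))))) (a (b (a (l 3) (b (l 3) (l 520395690135))) (b (a (l 3) (a (l 401210344871) (l 16778008))) (a (a (l 471540435207) (l 139754212455)) (l 16775232)))) (b (b (a (c (l 479056629063) (l 486572821799)) (a (l 118279376103) (l 16775760))) (a (a (a (l 258402684647) (l 140827953863)) (l 16776232)) (l 16774304))) (l 16774896)))) (b (b (b (a (l 3) (a (a (a (l 448454985287) (l 178945788983)) (l 16777736)) (l 16774456))) (a (a (l 3) (a (l 443086276471) (l 100025764807))) (l 16776272))) (a (a (b (a (l 510195141399) (a (l 235854106199) (l 16778392))) (l 16778552)) (l 16777016)) (l 16775720))) (a (b (l 16774096) (l 16767264)) (l 16769392)))))), by decide +kernel⟩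

def k30_pm_011_s : ∃ t, chk3 f_pm_011_s t 20 59 1 = true :=
  ⟨(a (b (a (b (l 3) (a (a (l 3) (a (l 3) (b (l 3) (b (l 3) (l 410874021415))))) (b (a (l 3) (a (l 499994595623) (b (l 3) (l 148881018055)))) (a (b (a (l 3) (l 206326206439)) (l 16778800)) (l 16777344))))) (b (a (b (l 3) (a (l 3) (b (l 493552143879) (a (l 206863077351) (l 16776376))))) (a (a (b (l 3) (b (l 146733534407) (l 16775112))) (b (b (l 3) (l 410337150487)) (l 16774896))) (b (b (b (l 504826432391) (l 359334413223)) (l 16778592)) (l 16773000)))) (b (a (b (a (a (l 413021505095) (l 16778120)) (l 16774920)) (l 16776712)) (l 16775328)) (a (l 16773584) (l 16765920))))) (a (a (b (b (b (a (l 488720305591) (c (l 16779208) (l 70497865063))) (a (a (l 202031239063) (l 16776368)) (l 16774504))) (l 16775256)) (l 16771008)) (b (b (l 16774432) (l 16767664)) (l 16766696))) (b (c (l 16767448) (l 16768768)) (l 16764408)))) (b (a (b (a (a (b (l 16777424) (l 16770456)) (l 16772944)) (l 16771384)) (c (l 16765600) (l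 16765616))) (b (l 16766232) (l 16760544))) (a (b (l 16762536) (l 16743808)) (l 16748176)))), by decide +kernel⟩

def k31_pm_011_s : ∃ t, chk3 f_pm_011_s t 21 29 1 = true :=
  ⟨(b (a (b (a (b (a (l 3) (b (b (l 3) (a (l 3) (a (l 3) (a (l 518785075543) (l 395304764503))))) (b (b (a (l 3) (a (l 425369535687) (l 16776520))) (a (l 506437045191) (l 16777424))) (a (a (b (l 522006300855) (l 163376532039)) (l 16778312)) (l 16774512))))) (a (a (b (b (l 3) (a (l 522006301783) (a (l 409263408375) (l 148344146647)))) (a (b (l 76403444311) (l 16774608)) (l 16774352))) (b (b (a (l 462413629591) (a (l 173577079799) (l 16778008))) (l 16778184)) (l 16772376))) (a (b (l 16775288) (l 16769720)) (l 16774424)))) (a (b (b (a (a (b (l 522006301943) (a (l 130090535559) (l 16776448))) (b (b (l 486572820199) (l 16778368)) (l 16775448))) (a (b (l 16777560) (l 16774104)) (l 16773824))) (c (l 16774192) (l 16774184))) (l 16770408)) (b (b (l 16775688) (l 16771400)) (l 16765008)))) (a (b (a (l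 16772744) (l 16767272)) (l 16764136)) (b (l 16764512) (l 16756160)))) (b (a (b (c (l 16770592) (l 16767344)) (l 16762128)) (a (l 16758136) (l 16752624))) (a (l 16749600) (l 16738776)))) (a (b (a (l 16754936) (l 16743760)) (b (l 16736736) (l 16739080))) (b (l 16733064) (l 16722144)))), by decide +kernel⟩

def k32_pm_011_s : ∃ t, chk3 f_pm_011_s t 44 56 1 = true :=
  ⟨(b (l 3) (a (b (l 3) (a (b (l 3) (b (l 3) (b (l 3) (a (l 3) (a (l 3) (l 475835401959)))))) (b (a (l 3) (b (l 3) (b (a (l 3) (b (l 522006300567) (l 408189666135))) (a (l 506973915127) (a (l 138680469351) (l 16776456)))))) (b (b (a (l 3) (a (a (a (l 311016032599) (l 191830689431)) (l 16776784)) (l 16775704))) (a (a (l 3) (a (l 466708595895) (l 120426858215))) (l 16776624))) (a (a (b (a (l 3) (l 207399946599)) (l 28085061239)) (l 16777120)) (l 16776272)))))) (b (b (a (l 3) (b (a (l 3) (b (a (l 3) (a (l 467782337703) (c (l 16777096) (l 115058149063)))) (a (a (l 3) (a (l 293836163303) (l 174113949207)))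 (l 16777656)))) (b (a (c (l 503752690855) (a (l 3) (l 486572820263))) (a (a (l 109689439847) (l 16776320)) (l 16775224))) (a (a (l 522543172023) (a (a (l 278266906759) (l 158007821767)) (l 16776664))) (l 16776152))))) (a (b (b (l 3) (a (l 3) (a (l 3) (a (l 522006300295) (a (l 261087037479) (l 16777816)))))) (a (a (l 3) (b (l 3) (l 520932559079))) (b (c (a (l 459729274455) (l 16776592)) (a (l 466708596311) (l 16777904))) (b (a (a (l 290078066647) (l 16776848)) (l 16775760)) (l 16777240))))) (a (b (a (b (a (l 442012533751) (l 96267666967)) (l 16776256)) (l 16776672)) (l 16775168)) (l 16774680)))) (a (b (b (a (b (a (l 3) (a (c (l 262697650743) (l 415705858855)) (l 16777560))) (a (a (l 506437043623) (l 155323467735)) (l 16776152))) (l 16775848)) (a (a (a (l 16777600) (l 16775568)) (l 16774488)) (l 16774936))) (a (l 16774504) (l 16774232))) (c (l 16772768) (b (l 16774288) (l 16769840))))))), by decide +kernel⟩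

def k33_pm_011_s : ∃ t, chk3 f_pm_011_s t 90 112 1 = true :=
  ⟨(b (a (l 3) (b (l 3) (a (l 3) (a (b (l 3) (b (c (l 517711333575) (l 522543171783)) (a (l 410337149703) (l 16777848)))) (a (b (l 3) (b (a (l 236927846263) (l 16777720)) (l 16776128))) (b (b (l 3) (l 416242729783)) (l 16775944))))))) (a (b (b (l 3) (a (l 3) (a (l 3) (b (l 516100720727) (a (c (l 248202135975) (l 397989118615)) (l 16777472)))))) (b (a (b (l 3) (a (l 3) (a (l 3) (a (l 466708595639) (l 200957494967))))) (a (b (a (l 487646561607) (a (l 206863075031) (l 16776984))) (l 16777728)) (l 16776816))) (a (b (c (a (l 496236496839) (l 16778080)) (a (l 504289560519) (a (l 126869309191) (l 16776400)))) (a (b (a (l 517174461479) (l 16777024)) (l 16777816)) (l 16775648))) (l 16775232)))) (b (a (a (a (b (l 3) (a (b (l 217600493335) (l 16776264)) (l 16777768))) (b (b (l 3) (l 402820956887)) (l 16775904))) (b (b (b (l 465634854167) (a (l 323364063495) (l 16776944))) (l 16777864)) (l 16776104))) (a (b (l 16776208)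 (l 16773312)) (l 16775576))) (a (c (l 16774816) (l 16774784)) (l 16771840))))), by decide +kernel⟩

def k34_pm_011_s : ∃ t, chk3 f_pm_011_s t 91 112 1 = true :=
  ⟨(b (a (a (a (b (l 3) (b (b (a (l 519321945639) (a (l 244980909975) (l 16777736))) (c (l 16776520) (l 16777824))) (l 16776144))) (b (b (l 3) (b (c (l 518248204567) (l 522006300967)) (a (l 421611438935) (l 43117446471)))) (b (l 16776576) (l 16773344)))) (b (a (a (b (l 3) (b (a (l 242833426455) (l 16777872)) (l 16776160))) (b (b (l 3) (l 425369535351)) (l 16777288))) (b (b (a (l 519858816615) (a (l 247665264679) (l 126332437831))) (a (l 46875542871) (l 16776168))) (l 16776168))) (a (l 16775600) (l 16774104)))) (b (a (a (b (a (l 16777296) (l 16775240)) (l 16773360)) (l 16775608)) (l 16773360)) (c (l 16773016) (l 16772952)))) (a (a (b (l 16773344) (l 16766248)) (l 16770744)) (c (l 16766304) (l 16766208)))), by decide +kernel⟩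

def k35_pm_011_s : ∃ t, chk3 f_pm_011_s t 45 113 1 = true :=
  ⟨(a (a (b (b (a (a (b (l 16776752) (l 16773208)) (l 16775480)) (l 16773272)) (l 16771592)) (l 16767536)) (b (c (l 16769280) (l 16769856)) (l 16765568))) (b (c (l 16765608) (l 16764176)) (l 16756624))), by decide +kernel⟩

def k36_pm_011_s : ∃ t, chk3 f_pm_011_s t 22 57 1 = true :=
  ⟨(a (b (b (b (a (b (a (a (l 3) (b (a (l 521469430103) (a (l 188072593623) (l 16776648))) (a (a (l 428053889943) (l 16777632)) (l 16775904)))) (a (l 16775616) (l 16771440))) (a (b (a (a (l 3) (a (l 518785074695) (l 167671498823))) (l 16776824)) (a (a (l 445770630583) (l 16777856)) (l 16774408))) (l 16773280))) (c (l 16771000) (l 16769296))) (a (a (a (a (a (b (b (l 145659791287) (l 16776112)) (l 16774464)) (l 16776160)) (l 16775096)) (l 16774272)) (l 16772592)) (l 16766544))) (a (a (a (l 16773144) (l 16770288)) (l 16765984)) (l 16762568))) (a (b (c (l 16765376) (l 16765456)) (l 16756896)) (a (l 16752624) (l 16746904)))) (b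 (a (b (l 16759648) (l 16750944)) (l 16748728)) (b (l 16741904) (l 16738856)))), by decide +kernel⟩

def k37_pm_011_s : ∃ t, chk3 f_pm_011_s t 23 28 1 = true :=
  ⟨(b (a (b (a (a (b (b (l 16771456) (l 16766952)) (l 16760216)) (b (l 16765744) (l 16759376))) (b (l 16759160) (l 16750160))) (a (c (l 16754328) (l 16754168)) (l 16741952))) (b (a (l 16747448) (l 16740056)) (a (l 16734920) (l 16722568)))) (a (b (a (l 16742112) (l 16730144)) (l 16719608)) (b (l 16712032) (l 16695896)))), by decide +kernel⟩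

def k38_pm_011_s : ∃ t, chk3 f_pm_011_s t 11 29 1 = true :=
  ⟨(a (b (a (b (a (l 16744312) (l 16743616)) (l 16732848)) (b (l 16726616) (l 16710608))) (a (b (l 16716760) (l 16679896)) (c (l 16687288) (l 16686768)))) (b (a (b (l 16703600) (l 16687984)) (l 16677848)) (a (l 16665000) (l 16642632)))), by decide +kernel⟩

def k39_pm_011_s : ∃ t, chk3 f_pm_011_s t 5 15 1 = true :=
  ⟨(a (b (a (b (a (a (b (b (l 16760928) (l 16747456)) (l 16745680)) (b (l 16752080) (l 16725280))) (b (a (l 16742016) (l 16721368)) (l 16731208))) (a (b (l 16729744) (l 16718824)) (a (l 16712032) (l 16702040)))) (b (a (b (l 16726944) (l 16689904)) (a (l 16703392) (l 16692992))) (a (c (l 16687152) (l 16686680)) (l 16666624)))) (b (a (a (b (l 16681776) (l 16665760)) (l 16675104)) (a (l 16655272) (l 16614408))) (a (a (l 16662792) (l 16643392)) (a (l 16613464) (l 16583192))))) (b (a (b (a (l 16677304) (l 16656200)) (a (l 16625208) (l 16604768))) (b (a (l 16613872) (l 16592320)) (a (l 16583816)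 (l 16604600)))) (a (b (b (l 16602400) (l 16586920)) (a (l 16584648) (l 16544104))) (b (a (l 16553912) (l 16533528)) (a (l 16524528) (l 16504912)))))), by decide +kernel⟩

def k40_pm_011_s : ∃ t, chk3 f_pm_011_s t 6 12 1 = true :=
  ⟨(a (b (l 3) (a (l 3) (b (l 3) (a (l 3) (b (l 3) (a (b (l 3) (a (l 3) (l 575693396135))) (b (a (l 3) (a (l 517174463847) (l 1))) (a (b (l 443623147751) (c (l 16780736) (l 65129161143))) (l 16776288))))))))) (b (l 1) (a (b (l 1) (a (b (l 1) (a (b (l 1) (l 16781944)) (l 1))) (l 1))) (l 1)))), by decide +kernel⟩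

def k41_pm_011_s : ∃ t, chk3 f_pm_011_s t 12 26 1 = true :=
  ⟨(a (b (l 3) (a (b (l 3) (a (l 3) (b (l 3) (a (b (l 3) (a (l 3) (l 435033215655))) (a (b (l 513953242455) (l 79624674039)) (b (a (l 257328948375) (l 16779584)) (l 16773176))))))) (b (a (b (l 3) (a (l 3) (b (l 3) (a (l 3) (l 378124896503))))) (a (b (l 3) (b (a (l 470466695463) (c (l 16776616) (l 86067125063))) (c (l 16773680) (l 16778880)))) (b (a (b (l 3) (c (l 201494373895) (l 209010566327))) (b (l 432885730183) (l 16774640))) (c (l 16769440) (l 16769352))))) (a (b (b (a (l 520395694951) (c (l 66202902999) (a (l 158007828455) (l 16773944)))) (a (a (l 407115927127) (l 16778504)) (l 16771000))) (a (b (l 16772912) (l 16768312)) (l 16774584))) (b (a (l 16769384) (l 16770688)) (l 16764776)))))) (b (a (b (a (l 3) (a (l 3) (b (l 3) (a (l 488720306455) (b (l 522543172663) (l 16775640)))))) (b (a (a (l 3) (b (l 3) (l 515026982071))) (a (b (a (l 563345363367) (l 207936824503)) (l 16781032)) (l 16770448))) (a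 (a (b (l 3) (a (l 539186172439) (l 164987150631))) (a (b (l 247128402855) (l 16773920)) (l 16778152))) (b (l 16769536) (l 16772824))))) (b (a (b (b (a (l 3) (a (l 454360565623) (l 16775952))) (a (a (l 3) (l 229411661927)) (l 16773080))) (a (c (l 16780808) (b (l 44728065927) (l 16770608))) (l 16766248))) (b (b (l 16772832) (l 16773536)) (l 16777200))) (a (b (l 16770952) (l 16772296)) (l 16763536)))) (a (a (b (b (a (b (c (l 16774312) (l 16779512)) (l 16769704)) (l 16765392)) (l 16770008)) (c (l 16766872) (l 16756072))) (b (c (l 16771992) (l 16766472)) (l 16743008))) (b (a (l 16753328) (l 16745272)) (a (l 16740240) (l 16726968)))))), by decide +kernel⟩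

def k42_pm_011_s : ∃ t, chk3 f_pm_011_s t 12 27 1 = true :=
  ⟨(a (b (a (b (a (b (a (l 3) (b (l 3) (a (l 494625887799) (b (l 217600499111) (l 16775720))))) (a (a (b (l 3) (b (l 393157282103) (l 16778736))) (b (b (l 517174465623) (l 173577083319)) (l 16774072))) (b (c (l 16779136) (a (l 16779392) (l 16772240))) (l 16774512)))) (a (b (b (a (c (l 349670737831) (l 353965705127)) (l 16775032)) (l 16772048)) (l 16775632)) (b (b (l 16770192) (l 16765592)) (l 16769176)))) (a (b (a (b (l 16773696) (l 16771720)) (l 16767616)) (c (l 16766984) (l 16766792))) (b (l 16763208) (l 16754024)))) (b (a (b (l 16768640) (l 16759448)) (b (l 16755584) (l 16756872))) (a (l 16750896) (l 16743088)))) (a (b (a (b (l 16757720) (l 16748568)) (l 16745504)) (a (l 16740136) (l 16732472))) (b (a (l 16737784) (l 16724736)) (l 16718224)))) (b (a (b (a (l 16737840) (l 16735128)) (l 16725336)) (b (l 16715272) (l 16696936))) (a (b (l 16705040) (l 16686768)) (b (l 16678640) (l 16660400))))), by decide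 +kernel⟩

def k43_pm_011_s : ∃ t, chk3 f_pm_011_s t 13 13 1 = true :=
  ⟨(b (a (b (a (b (a (l 16768352) (l 16754936)) (l 16748728)) (b (l 1) (l 16716720))) (a (b (l 16725264) (l 16707016)) (l 16705192))) (b (l 1) (a (l 16662944) (l 1)))) (a (b (a (b (l 16688728) (l 16670448)) (l 16653024)) (a (l 16653552) (l 16616640))) (b (a (l 16626640) (l 16600632)) (a (l 16590368) (l 16564456))))), by decide +kernel⟩

def k44_pm_011_s : ∃ t, chk3 f_pm_011_s t 7 6 1 = true :=
  ⟨(b (l 1) (a (b (l 1) (a (b (l 1) (l 16559064)) (l 1))) (l 1))), by decide +kernel⟩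

def k45_pm_011_s : ∃ t, chk3 f_pm_011_s t 3 7 1 = true :=
  ⟨(a (b (a (b (a (b (a (b (l 16726056) (l 16703840)) (b (l 16694800) (l 16678432))) (a (b (l 16687552) (l 16671848)) (l 16665456))) (a (b (l 16676040) (l 16629760)) (b (l 16643992) (l 16604240)))) (a (b (a (l 16649184) (l 16625400)) (a (l 16620080) (l 16575872))) (b (a (l 16601256) (l 16575816)) (a (l 16551880) (l 16527152))))) (b (a (b (b (l 16623648) (l 16605792)) (a (l 16577360) (l 16528640))) (b (l 16572688) (l 16526544))) (a (b (l 16577928) (l 16509648)) (l 16512104)))) (a (b (a (b (a (l 16569944) (l 16547288)) (b (l 16600248) (l 16565232))) (b (l 16522752) (l 16548680))) (b (a (a (l 16512952) (l 16492056)) (l 16522952)) (a (a (l 16485200) (l 16465288)) (l 16476688)))) (a (b (b (l 16463432) (l 16481056)) (b (l 16436432) (l 16392368))) (b (a (l 16413496) (l 16387184)) (b (l 16389160) (l 16347480)))))) (a (b (b (a (b (l 16512568) (l 16476888)) (l 16488544)) (a (l 16449688) (l 16401752))) (a (b (l 16366184)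 (l 16286648)) (b (l 16303568) (l 16250280)))) (b (b (l 1) (a (l 16319824) (l 1))) (b (a (l 16250344) (l 16186528)) (a (l 16187096) (l 16140648)))))), by decide +kernel⟩

theorem s46_pm_011_s : ∃ t, chk3 f_pm_011_s t 12 13 1 = true := ex3_b k41_pm_011_s k42_pm_011_s

theorem s47_pm_011_s : ∃ t, chk3 f_pm_011_s t 6 13 1 = true := ex3_a s46_pm_011_s k43_pm_011_s

theorem s48_pm_011_s : ∃ t, chk3 f_pm_011_s t 6 6 1 = true := ex3_b k40_pm_011_s s47_pm_011_s

theorem s49_pm_011_s : ∃ t, chk3 f_pm_011_s t 3 6 1 = true := ex3_a s48_pm_011_s k44_pm_011_s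

theorem s50_pm_011_s : ∃ t, chk3 f_pm_011_s t 3 3 1 = true := ex3_b s49_pm_011_s k45_pm_011_s

theorem s51_pm_011_s : ∃ t, chk3 f_pm_011_s t 45 112 1 = true := ex3_a k33_pm_011_s k34_pm_011_s

theorem s52_pm_011_s : ∃ t, chk3 f_pm_011_s t 45 56 1 = true := ex3_b s51_pm_011_s k35_pm_011_s

theorem s53_pm_011_s : ∃ t, chk3 f_pm_011_s t 22 56 1 = true := ex3_a k32_pm_011_s s52_pm_011_s

theorem s54_pm_011_s : ∃ t, chk3 f_pm_011_s t 22 28 1 = true := ex3_b s53_pm_011_s k36_pm_011_s

theorem s55_pm_011_s : ∃ t, chk3 f_pm_011_s t 11 28 1 = true := ex3_a s54_pm_011_s k37_pm_011_s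

theorem s56_pm_011_s : ∃ t, chk3 f_pm_011_s t 11 14 1 = true := ex3_b s55_pm_011_s k38_pm_011_s

theorem s57_pm_011_s : ∃ t, chk3 f_pm_011_s t 20 29 1 = true := ex3_b k29_pm_011_s k30_pm_011_s

theorem s58_pm_011_s : ∃ t, chk3 f_pm_011_s t 10 29 1 = true := ex3_a s57_pm_011_s k31_pm_011_s

theorem s59_pm_011_s : ∃ t, chk3 f_pm_011_s t 21 57 1 = true := ex3_a k27_pm_011_s k28_pm_011_s

theorem s60_pm_011_s : ∃ t, chk3 f_pm_011_s t 21 28 1 = true := ex3_b k26_pm_011_s s59_pm_011_s

theorem s61_pm_011_s : ∃ t, chk3 f_pm_011_s t 10 28 1 = true := ex3_a k25_pm_011_s s60_pm_011_s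

theorem s62_pm_011_s : ∃ t, chk3 f_pm_011_s t 10 14 1 = true := ex3_b s61_pm_011_s s58_pm_011_s

theorem s63_pm_011_s : ∃ t, chk3 f_pm_011_s t 5 14 1 = true := ex3_a s62_pm_011_s s56_pm_011_s

theorem s64_pm_011_s : ∃ t, chk3 f_pm_011_s t 5 7 1 = true := ex3_b s63_pm_011_s k39_pm_011_s

theorem s65_pm_011_s : ∃ t, chk3 f_pm_011_s t 36 61 1 = true := ex3_b k20_pm_011_s k21_pm_011_s

theorem s66_pm_011_s : ∃ t, chk3 f_pm_011_s t 18 61 1 = true := ex3_a s65_pm_011_s k22_pm_011_s

theorem s67_pm_011_s : ∃ t, chk3 f_pm_011_s t 18 30 1 = true := ex3_b k19_pm_011_s s66_pm_011_s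

theorem s68_pm_011_s : ∃ t, chk3 f_pm_011_s t 9 30 1 = true := ex3_a s67_pm_011_s k23_pm_011_s

theorem s69_pm_011_s : ∃ t, chk3 f_pm_011_s t 9 15 1 = true := ex3_b s68_pm_011_s k24_pm_011_s

theorem s70_pm_011_s : ∃ t, chk3 f_pm_011_s t 35 124 1 = true := ex3_b k15_pm_011_s k16_pm_011_s

theorem s71_pm_011_s : ∃ t, chk3 f_pm_011_s t 35 62 1 = true := ex3_b s70_pm_011_s k17_pm_011_s

theorem s72_pm_011_s : ∃ t, chk3 f_pm_011_s t 34 62 1 = true := ex3_b k13_pm_011_s k14_pm_011_s

theorem s73_pm_011_s : ∃ t, chk3 f_pm_011_s t 17 62 1 = true := ex3_a s72_pm_011_s s71_pm_011_s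

theorem s74_pm_011_s : ∃ t, chk3 f_pm_011_s t 17 31 1 = true := ex3_b s73_pm_011_s k18_pm_011_s

theorem s75_pm_011_s : ∃ t, chk3 f_pm_011_s t 8 31 1 = true := ex3_a k12_pm_011_s s74_pm_011_s

theorem s76_pm_011_s : ∃ t, chk3 f_pm_011_s t 8 15 1 = true := ex3_b k11_pm_011_s s75_pm_011_s

theorem s77_pm_011_s : ∃ t, chk3 f_pm_011_s t 4 15 1 = true := ex3_a s76_pm_011_s s69_pm_011_s

theorem s78_pm_011_s : ∃ t, chk3 f_pm_011_s t 4 7 1 = true := ex3_b k10_pm_011_s s77_pm_011_s

theorem s79_pm_011_s : ∃ t, chk3 f_pm_011_s t 2 7 1 = true := ex3_a s78_pm_011_s s64_pm_011_s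

theorem s80_pm_011_s : ∃ t, chk3 f_pm_011_s t 46 55 1 = true := ex3_b k7_pm_011_s k8_pm_011_s

theorem s81_pm_011_s : ∃ t, chk3 f_pm_011_s t 23 55 1 = true := ex3_a s80_pm_011_s k9_pm_011_s

theorem s82_pm_011_s : ∃ t, chk3 f_pm_011_s t 23 27 1 = true := ex3_b k6_pm_011_s s81_pm_011_s

theorem s83_pm_011_s : ∃ t, chk3 f_pm_011_s t 11 27 1 = true := ex3_a k5_pm_011_s s82_pm_011_s

theorem s84_pm_011_s : ∃ t, chk3 f_pm_011_s t 11 13 1 = true := ex3_b k4_pm_011_s s83_pm_011_s

theorem s85_pm_011_s : ∃ t, chk3 f_pm_011_s t 5 13 1 = true := ex3_a k3_pm_011_s s84_pm_011_s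

theorem s86_pm_011_s : ∃ t, chk3 f_pm_011_s t 5 6 1 = true := ex3_b k2_pm_011_s s85_pm_011_s

theorem s87_pm_011_s : ∃ t, chk3 f_pm_011_s t 2 6 1 = true := ex3_a k1_pm_011_s s86_pm_011_s

theorem s88_pm_011_s : ∃ t, chk3 f_pm_011_s t 2 3 1 = true := ex3_b s87_pm_011_s s79_pm_011_s

theorem s89_pm_011_s : ∃ t, chk3 f_pm_011_s t 1 3 1 = true := ex3_a s88_pm_011_s s50_pm_011_s

theorem s90_pm_011_s : ∃ t, chk3 f_pm_011_s t 1 1 1 = true := ex3_b k0_pm_011_s s89_pm_011_s

theorem c_pm_011_s : CertNE 0 536870912 536870912 536870912 587336777 62277027 3 eng mog cd0q0 cd7q1 pd1 true true false .pnn 0 1 1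
    ndB0q0 ndB7q1 pcB1 cut_pm_011_s Ext.none :=
  certNE1 (fam := true) (s1 := true) (s2 := false) (a := 0) (b := 1) (c := 1) (cn := .pnn) (n1 := ndB0q0) (n2 := ndB7q1) (pc := pcB1) (cut := cut_pm_011_s) (xt := Ext.none) (P1 := 0) (W1 := 536870912) (P2 := 536870912) (W2 := 536870912) (P3 := 587336777) (W3 := 62277027) (N0 := 3) (En := eng) (mo := mog) (C1 := cd0q0) (C2 := cd7q1) (C3 := pd1)
    rfl (fun _ => rfl) s90_pm_011_s

noncomputable def cut_pm_012_s : Cut := Cut.of [[⟨4, 0, 0, 1449551462⟩], [⟨0, 0, 0, 67108864⟩, ⟨1, 1, 0, 67108864⟩, ⟨2, 1, 0, 67108864⟩]]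

noncomputable def f_pm_012_s : ℕ → ℕ → ℕ → ℕ → Bool := onCell 1073741824 536870912 536870912 536870912 587336777 62277027
    (rowNE 3 eng mog cd0q0 cd7q1 pd2 2 true true false .pnp 0 1 2 (qsf 0 536870912 536870912 536870912 2) ndB0q0 ndB7q1 pcB2 cut_pm_012_s Ext.none)

def k0_pm_012_s : ∃ t, chk3 f_pm_012_s t 4 2 1 = true :=
  ⟨(b (a (b (a (b (l 16095808) (l 16124136)) (l 6)) (a (b (l 16192472) (a (l 16225848) (l 16237968))) (b (l 16130664) (l 16275616)))) (l 6)) (a (b (a (b (a (l 16342096) (l 16270072)) (a (l 16389464) (l 16316488))) (b (l 16328800) (l 16396112))) (b (a (a (l 16496448) (l 16379760)) (a (l 16326632) (l 16295160))) (a (a (b (l 16423000) (l 16443312)) (l 16440240)) (a (l 16364352) (l 16331336))))) (b (a (b (l 16224488) (l 16229360)) (l 6)) (a (b (l 16269696) (l 16388352)) (b (l 16187512) (l 16222504)))))), by decide +kernel⟩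

def k1_pm_012_s : ∃ t, chk3 f_pm_012_s t 4 6 1 = true :=
  ⟨(a (b (a (b (a (b (l 16463344) (l 16504152)) (b (l 16426712) (l 16445304))) (a (b (l 16544872) (l 16522608)) (b (l 16463744) (l 16482112)))) (b (a (l 16420872) (l 16365024)) (a (l 16476344) (l 16397264)))) (a (a (a (b (l 16583904) (l 16623656)) (b (l 16541376) (l 16579880))) (b (a (l 16541088) (l 16499176)) (l 16572424))) (a (b (b (l 16459992) (l 16477000)) (b (l 16494016) (l 16511000))) (b (l 16428864) (l 16481256))))) (b (a (b (a (l 16331280) (l 16298640)) (a (l 16361504) (l 16327152))) (b (l 16294136) (a (l 16294240) (l 16262976)))) (a (b (a (l 16390784) (l 16354288)) (a (l 16440624) (l 16380744))) (b (a (l 16319456) (l 16286592)) (a (l 16343656) (l 16308664)))))), by decide +kernel⟩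

def k2_pm_012_s : ∃ t, chk3 f_pm_012_s t 8 7 1 = true :=
  ⟨(b (a (b (a (b (l 16662056) (a (l 16650952) (l 16626928))) (b (l 16636296) (a (l 16603032) (l 16579416)))) (a (b (a (l 16690400) (l 16645160)) (a (a (l 16703504) (l 16681808)) (l 16683960))) (b (a (l 16641744) (l 16596656)) (a (l 16659104) (l 16613536))))) (b (a (b (l 16527888) (l 16565568)) (b (l 16483808) (l 16499352))) (a (b (l 16582024) (a (l 16589232) (l 16565232))) (b (l 16514712) (l 16550784))))) (a (b (b (a (a (a (b (l 16706400) (l 14)) (l 16709992)) (b (l 16676064) (l 16684608))) (a (b (l 16650856) (l 16659184)) (l 16650952))) (a (a (l 14) (b (l 16703480) (l 14))) (a (b (l 16688328) (a (l 14) (l 16668936))) (b (l 16641968) (l 16649760))))) (a (l 14) (b (a (l 14) (b (l 16678344) (l 14))) (l 14)))) (b (a (b (a (l 16605200) (l 16580712)) (a (b (l 16616840) (l 16624408)) (l 16616648))) (b (a (l 16556520) (l 16532648)) (a (l 16571008) (l 16546640)))) (b (a (a (b (l 16631800) (l 16659960)) (b (l 16606480)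 (l 16613448))) (b (a (l 16581448) (l 16556728)) (a (l 16588184) (l 16563216)))) (a (b (a (l 14) (l 16635920)) (l 14)) (b (a (l 16594704) (l 16569512)) (a (b (l 16599440) (l 14)) (c (l 16580184) (l 16570744))))))))), by decide +kernel⟩

def k3_pm_012_s : ∃ t, chk3 f_pm_012_s t 9 7 1 = true :=
  ⟨(b (b (a (a (b (l 16441272) (l 16455576)) (l 16448856)) (a (l 16409192) (l 16329808))) (a (a (b (l 16469776) (l 16483776)) (b (l 16426392) (l 16439216))) (a (b (l 16384792) (l 16396336)) (b (l 16345288) (l 16355464))))) (b (a (a (b (l 16518424) (a (l 16522584) (l 16498864))) (b (l 16451776) (a (l 16475480) (l 16452456)))) (a (b (l 16407680) (l 16439632)) (b (l 16365456) (l 16396096)))) (a (b (a (b (l 16520208) (l 16547304)) (b (l 16472664) (l 16478280))) (a (b (a (l 16544584) (l 16519984)) (a (l 16571368) (l 16525544))) (b (c (l 16490504) (l 16476600)) (a (l 16501016) (l 16476792))))) (a (b (b (l 16426552) (l 16431608)) (b (l 16457432) (c (l 16449432) (l 16432456)))) (b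 (a (l 16395328) (l 16373368)) (a (b (l 16402008) (l 16406192)) (c (l 16391800) (l 16370928)))))))), by decide +kernel⟩

def k4_pm_012_s : ∃ t, chk3 f_pm_012_s t 5 1 1 = true :=
  ⟨(b (b (l 6) (l 6)) (b (a (a (a (b (b (l 6) (l 16233416)) (b (l 16255736) (l 16275920))) (b (l 6) (a (b (l 16233944) (l 16252968)) (a (l 16359144) (b (l 6) (l 16237280)))))) (b (l 6) (b (l 6) (a (l 16218880) (l 6))))) (l 6)) (b (a (a (a (b (l 16315688) (b (l 16308184) (l 16316912))) (a (b (l 16270072) (l 16285888)) (b (a (l 16258624) (a (l 16253528) (l 16250808))) (a (l 16273384) (a (l 16267680) (l 16264448)))))) (b (a (l 16233448) (l 6)) (a (l 16308808) (l 16217088)))) (l 6)) (a (a (a (b (b (l 16325432) (l 16375584)) (b (a (l 16351896) (l 16330960)) (a (c (l 16370520) (l 16347872)) (c (l 16349808) (l 16325248))))) (a (b (b (l 16297064) (l 16304080)) (b (l 16310632) (c (l 16329736) (l 16303080)))) (b (a (b (l 16283648) (l 16290008)) (a (l 16343336) (b (l 16273688) (l 16279288)))) (a (b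 (l 16295872) (c (l 16315224) (l 16286768))) (a (b (l 16288792) (c (l 16308304) (l 16278688))) (b (c (l 16299736) (l 16268832)) (a (a (a (l 16290784) (a (l 16290344) (l 16311048))) (l 16289296)) (l 16287424)))))))) (b (a (b (l 16254048) (l 16258840)) (b (l 16222640) (l 16225640))) (a (b (c (l 16279568) (l 16246400)) (c (b (l 16282208) (l 16283720)) (l 16250024))) (b (l 16248952) (c (l 16269360) (l 16210584)))))) (a (a (b (b (l 6) (l 16196176)) (b (l 16196448) (c (b (l 16217616) (l 16217104)) (l 16174168)))) (l 6)) (l 6)))))), by decide +kernel⟩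

def k5_pm_012_s : ∃ t, chk3 f_pm_012_s t 3 1 1 = true :=
  ⟨(b (l 6) (l 6)), by decide +kernel⟩

theorem s6_pm_012_s : ∃ t, chk3 f_pm_012_s t 4 7 1 = true := ex3_a k2_pm_012_s k3_pm_012_s

theorem s7_pm_012_s : ∃ t, chk3 f_pm_012_s t 4 3 1 = true := ex3_b k1_pm_012_s s6_pm_012_s

theorem s8_pm_012_s : ∃ t, chk3 f_pm_012_s t 4 1 1 = true := ex3_b k0_pm_012_s s7_pm_012_s

theorem s9_pm_012_s : ∃ t, chk3 f_pm_012_s t 2 1 1 = true := ex3_a s8_pm_012_s k4_pm_012_s

theorem s10_pm_012_s : ∃ t, chk3 f_pm_012_s t 1 1 1 = true := ex3_a s9_pm_012_s k5_pm_012_s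

theorem c_pm_012_s : CertNE 0 536870912 536870912 536870912 587336777 62277027 3 eng mog cd0q0 cd7q1 pd2 true true false .pnp 0 1 2
    ndB0q0 ndB7q1 pcB2 cut_pm_012_s Ext.none :=
  certNE2 (fam := true) (s1 := true) (s2 := false) (a := 0) (b := 1) (c := 2) (cn := .pnp) (n1 := ndB0q0) (n2 := ndB7q1) (pc := pcB2) (cut := cut_pm_012_s) (xt := Ext.none) (P1 := 0) (W1 := 536870912) (P2 := 536870912) (W2 := 536870912) (P3 := 587336777) (W3 := 62277027) (N0 := 3) (En := eng) (mo := mog) (C1 := cd0q0) (C2 := cd7q1) (C3 := pd2)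
    rfl (fun _ => rfl) s10_pm_012_s

noncomputable def cut_pm_022_s : Cut := Cut.of [[⟨4, 0, 0, 1449551462⟩], [⟨0, 0, 0, 67108864⟩, ⟨1, 1, 0, 67108864⟩, ⟨2, 1, 0, 67108864⟩]]

noncomputable def f_pm_022_s : ℕ → ℕ → ℕ → ℕ → Bool := onCell 1073741824 536870912 1073741824 536870912 587336777 62277027
    (rowNE 3 eng mog cd0q0 cd7q2 pd2 2 true true false .pp 0 2 2 (qsf 0 536870912 1073741824 536870912 2) ndB0q0 ndB7q2 pcB2 cut_pm_022_s Ext.none)

def k0_pm_022_s : ∃ t, chk3 f_pm_022_s t 4 1 1 = true :=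
  ⟨(b (a (b (b (a (b (l 14) (b (l 14) (l 1))) (b (a (l 14) (a (l 14) (b (b (l 16605536) (l 16596304)) (b (l 16607496) (l 16618184))))) (a (b (l 14) (a (l 1) (l 556768517975))) (b (a (l 14) (b (l 16628384) (l 16638096))) (a (b (l 14) (l 461742330023)) (b (l 16647336) (l 352220617495))))))) (a (l 1) (a (l 1) (b (b (a (l 1) (l 568579612071)) (l 1)) (l 1))))) (l 1)) (b (b (a (b (b (a (b (a (l 16559328) (l 16534400)) (a (l 16571144) (l 16546288))) (b (c (l 16504168) (l 16490704)) (l 16530544))) (a (b (l 16590944) (l 16580744)) (b (l 16521016) (l 16531920)))) (a (a (b (l 16629296) (l 16626912)) (b (l 16583696) (l 16602384))) (b (l 16568296) (a (l 16599144) (l 16554272))))) (b (b (a (b (c (l 16457600) (l 16441312)) (l 16461728)) (a (l 16441672) (c (l 16407376) (l 16387984)))) (a (b (l 16473304) (l 16484344)) (a (l 16444032) (l 16421256)))) (a (b (l 16499936) (l 16519024)) (b (l 16453856) (l 16473168))))) (a (b (a (b (a (l 390875279495) (l 188474959799)) (l 529924860247))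 (b (l 16625120) (a (l 396780812743) (l 16585632)))) (a (l 1) (b (l 529387923671) (l 1)))) (a (b (b (l 16557248) (l 16551664)) (b (b (l 16561440) (l 399465084215)) (l 532609083671))) (b (b (l 16490624) (l 16506304)) (b (l 16520096) (l 223371426471)))))) (a (l 1) (b (b (a (l 1) (l 542809569399)) (l 1)) (l 1))))) (l 1)), by decide +kernel⟩

def k1_pm_022_s : ∃ t, chk3 f_pm_022_s t 5 4 1 = true :=
  ⟨(a (b (a (a (b (b (a (c (l 16385784) (l 16364664)) (c (l 16364704) (l 16341744))) (a (l 16398888) (l 16376960))) (b (l 16409304) (l 16428800))) (a (b (b (c (l 16344232) (l 16319240)) (l 16355504)) (b (l 16377080) (l 16396696))) (a (b (b (c (l 16329360) (l 16302624)) (l 16339768)) (l 16371416)) (b (b (a (c (l 16322200) (l 16294336)) (c (a (a (a (l 16319616) (l 16319168)) (l 16318264)) (l 16316456)) (l 16330680))) (a (l 16332008) (c (l 16339752) (l 16314088)))) (a (l 16363656) (b (l 16348472) (l 16368128))))))) (b (b (a (c (b (l 16290400) (l 16301992)) (l 16265080)) (c (l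 16260648) (l 16224744))) (a (c (l 16318392) (l 16290512)) (l 16266504))) (a (b (l 16326096) (l 16345808)) (b (l 16288160) (l 16307904))))) (a (a (b (b (l 16446456) (l 16462344)) (b (l 16497424) (l 16530568))) (a (b (l 16422680) (l 16472208)) (a (b (l 16407080) (l 16435800)) (b (a (l 16399352) (l 16415160)) (a (l 16428136) (l 16443984)))))) (b (a (l 16413888) (l 16334184)) (a (l 16421968) (l 16363408))))) (a (b (b (b (c (b (a (l 16222664) (l 16193680)) (l 16219024)) (a (l 16187224) (l 16152784))) (a (l 16231464) (l 16199448))) (b (l 16278360) (l 16255944))) (b (b (l 16273768) (l 16289968)) (b (l 16304600) (l 16317528)))) (b (b (l 6) (b (l 6) (l 16196608))) (b (l 16305560) (l 16250128))))), by decide +kernel⟩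

def k2_pm_022_s : ∃ t, chk3 f_pm_022_s t 5 5 1 = true :=
  ⟨(b (a (a (a (b (a (l 350072917975) (l 176126775239)) (l 1)) (a (b (c (l 16541216) (l 16533952)) (l 1)) (a (b (l 16477912) (l 1)) (a (b (l 16449488) (l 1)) (b (b (l 16439928) (l 16448536)) (b (l 16454584) (l 1))))))) (b (a (b (l 16418176) (l 16427128)) (l 16385864)) (a (b (l 16433704) (l 16500328)) (l 16410888)))) (b (a (l 16375960) (l 16272328)) (a (l 16433672) (l 16288648)))) (a (a (l 1) (b (a (l 1) (l 194917189287)) (l 1))) (b (a (a (l 16434712) (l 16320056)) (l 16381120)) (a (l 286722012215) (l 16293992))))), by decide +kernel⟩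

def k3_pm_022_s : ∃ t, chk3 f_pm_022_s t 5 3 1 = true :=
  ⟨(b (a (l 1) (b (b (a (l 1) (l 319470966903)) (l 1)) (l 1))) (l 1)), by decide +kernel⟩

def k4_pm_022_s : ∃ t, chk3 f_pm_022_s t 3 1 1 = true :=
  ⟨(a (a (b (b (l 6) (a (b (b (l 16220656) (l 16235800)) (b (l 16245048) (l 16244032))) (l 6))) (b (b (a (a (l 218539346231) (l 126734321815)) (b (l 16188712) (l 16159808))) (b (l 495564307943) (l 1))) (l 1))) (b (l 6) (a (b (l 6) (l 1)) (l 6)))) (b (l 6) (l 6))), by decide +kernel⟩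

theorem s5_pm_022_s : ∃ t, chk3 f_pm_022_s t 5 2 1 = true := ex3_b k1_pm_022_s k2_pm_022_s

theorem s6_pm_022_s : ∃ t, chk3 f_pm_022_s t 5 1 1 = true := ex3_b s5_pm_022_s k3_pm_022_s

theorem s7_pm_022_s : ∃ t, chk3 f_pm_022_s t 2 1 1 = true := ex3_a k0_pm_022_s s6_pm_022_s

theorem s8_pm_022_s : ∃ t, chk3 f_pm_022_s t 1 1 1 = true := ex3_a s7_pm_022_s k4_pm_022_s

theorem c_pm_022_s : CertNE 0 536870912 1073741824 536870912 587336777 62277027 3 eng mog cd0q0 cd7q2 pd2 true true false .pp 0 2 2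
    ndB0q0 ndB7q2 pcB2 cut_pm_022_s Ext.none :=
  certNE2 (fam := true) (s1 := true) (s2 := false) (a := 0) (b := 2) (c := 2) (cn := .pp) (n1 := ndB0q0) (n2 := ndB7q2) (pc := pcB2) (cut := cut_pm_022_s) (xt := Ext.none) (P1 := 0) (W1 := 536870912) (P2 := 1073741824) (W2 := 536870912) (P3 := 587336777) (W3 := 62277027) (N0 := 3) (En := eng) (mo := mog) (C1 := cd0q0) (C2 := cd7q2) (C3 := pd2)
    rfl (fun _ => rfl) s8_pm_022_s

noncomputable def cut_pm_023_s : Cut := Cut.of [[⟨4, 0, 0, 1449551462⟩]]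

noncomputable def f_pm_023_s : ℕ → ℕ → ℕ → ℕ → Bool := onCell 1610612736 536870912 1073741824 536870912 587336777 62277027
    (rowNE 3 eng mog cd0q0 cd7q2 pd3 2 true true false .up 0 2 3 (qsf 0 536870912 1073741824 536870912 3) ndB0q0 ndB7q2 pcB3 cut_pm_023_s Ext.none)

def k0_pm_023_s : ∃ t, chk3 f_pm_023_s t 1 1 1 = true :=
  ⟨(a (l 6) (l 6)), by decide +kernel⟩

theorem c_pm_023_s : CertNE 0 536870912 1073741824 536870912 587336777 62277027 3 eng mog cd0q0 cd7q2 pd3 true true false .up 0 2 3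
    ndB0q0 ndB7q2 pcB3 cut_pm_023_s Ext.none :=
  certNE2 (fam := true) (s1 := true) (s2 := false) (a := 0) (b := 2) (c := 3) (cn := .up) (n1 := ndB0q0) (n2 := ndB7q2) (pc := pcB3) (cut := cut_pm_023_s) (xt := Ext.none) (P1 := 0) (W1 := 536870912) (P2 := 1073741824) (W2 := 536870912) (P3 := 587336777) (W3 := 62277027) (N0 := 3) (En := eng) (mo := mog) (C1 := cd0q0) (C2 := cd7q2) (C3 := pd3)
    rfl (fun _ => rfl) k0_pm_023_s

noncomputable def cut_pm_033_s : Cut := Cut.of [[⟨4, 0, 0, 1449551462⟩]]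

noncomputable def f_pm_033_s : ℕ → ℕ → ℕ → ℕ → Bool := onCell 1610612736 536870912 0 1230186008 587336777 62277027
    (rowNE 3 eng mog cd0q0 cd7q3 pd3 2 true true false .pnn 0 3 3 (qsf 0 536870912 0 1230186008 3) ndB0q0 ndB7q3 pcB3 cut_pm_033_s Ext.none)

def k0_pm_033_s : ∃ t, chk3 f_pm_033_s t 1 1 1 = true :=
  ⟨(b (l 6) (l 6)), by decide +kernel⟩

theorem c_pm_033_s : CertNE 0 536870912 0 1230186008 587336777 62277027 3 eng mog cd0q0 cd7q3 pd3 true true false .pnn 0 3 3
    ndB0q0 ndB7q3 pcB3 cut_pm_033_s Ext.none :=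
  certNE2 (fam := true) (s1 := true) (s2 := false) (a := 0) (b := 3) (c := 3) (cn := .pnn) (n1 := ndB0q0) (n2 := ndB7q3) (pc := pcB3) (cut := cut_pm_033_s) (xt := Ext.none) (P1 := 0) (W1 := 536870912) (P2 := 0) (W2 := 1230186008) (P3 := 587336777) (W3 := 62277027) (N0 := 3) (En := eng) (mo := mog) (C1 := cd0q0) (C2 := cd7q3) (C3 := pd3)
    rfl (fun _ => rfl) k0_pm_033_s

noncomputable def cut_pm_101_s : Cut := Cut.of [[⟨4, 0, 0, 1449551462⟩]]

noncomputable def f_pm_101_s : ℕ → ℕ → ℕ → ℕ → Bool := onCell 536870912 536870912 536870912 536870912 587336777 62277027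
    (rowNE 3 eng mog cd0q1 cd7q0 pd1 1 true true false .npn 1 0 1 (qsf 536870912 536870912 0 536870912 1) ndB0q1 ndB7q0 pcB1 cut_pm_101_s Ext.none)

def k0_pm_101_s : ∃ t, chk3 f_pm_101_s t 4 8 1 = true :=
  ⟨(a (l 3) (a (a (l 3) (l 1)) (l 1))), by decide +kernel⟩

def k1_pm_101_s : ∃ t, chk3 f_pm_101_s t 8 18 1 = true :=
  ⟨(a (l 3) (b (l 3) (a (l 3) (b (l 3) (a (l 3) (b (l 3) (a (l 3) (b (l 3) (a (l 3) (a (a (l 539723038023) (l 409263406775)) (b (l 372219314007) (l 16776880)))))))))))), by decide +kernel⟩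

def k2_pm_101_s : ∃ t, chk3 f_pm_101_s t 8 19 1 = true :=
  ⟨(a (b (l 3) (a (l 3) (b (l 3) (a (l 3) (b (l 3) (a (l 3) (b (l 498383977015) (a (l 445233757495) (l 16776776))))))))) (b (a (b (l 3) (a (l 3) (b (l 3) (a (l 3) (a (l 568714066007) (b (l 569787808487) (a (l 315847877079) (l 16776904)))))))) (b (a (b (l 3) (a (l 3) (a (l 3) (b (l 3) (b (l 406042181239) (l 176261425223)))))) (b (a (b (l 3) (a (l 3) (a (l 421611437623) (a (l 291688671047) (l 129553657991))))) (b (a (a (l 429127627735) (b (l 314774120231) (l 16776864))) (l 16776424)) (l 16775952))) (a (b (a (a (l 413021503079) (a (l 282561865671) (l 16776936))) (l 16776376)) (l 16775904)) (l 16774560)))) (a (b (a (a (l 575156516839) (b (l 3) (a (l 381882990311) (l 162302782007)))) (a (b (a (l 392620408503) (l 171429587223)) (l 16776296)) (l 16775856))) (a (a (b (a (l 370071830295) (l 16779552)) (l 16776232)) (l 16775792)) (l 16774440))) (b (a (l 16774504) (l 16772712)) (l 16771744))))) (a (b (a (b (l 3) (a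 (l 3) (b (l 534891198743) (a (l 501068332039) (l 167134633143))))) (b (a (b (l 550460455079) (a (l 525764393863) (c (l 237464723159) (l 269676960711)))) (b (a (c (l 248739002391) (l 280414378551)) (l 16776192)) (l 16775696))) (a (b (a (l 177335180887) (l 16776112)) (l 16775608)) (l 16774264)))) (a (b (a (b (l 517174458791) (a (l 474224786583) (l 145659795671))) (b (a (l 156397214503) (l 16776016)) (l 16775504))) (a (b (l 87677737143) (l 16775384)) (l 16774032))) (b (l 16773240) (l 16771288)))) (b (a (b (a (l 16774360) (l 16772560)) (l 16771552)) (l 16768928)) (l 16766872))))), by decide +kernel⟩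

def k3_pm_101_s : ∃ t, chk3 f_pm_101_s t 18 36 1 = true :=
  ⟨(a (b (l 3) (a (l 3) (b (l 3) (a (l 3) (b (l 3) (b (a (l 3) (a (l 3) (a (c (l 561734745751) (l 571935292903)) (l 1)))) (a (l 3) (a (a (l 565492842039) (b (l 526301265639) (b (a (l 475298529175) (l 146196659335)) (l 84993375335)))) (a (b (a (b (l 475835400087) (l 146196659335)) (c (l 120829508743) (l 16777104))) (l 16776952)) (c (l 16776912) (l 16776768))))))))))) (b (l 1) (a (b (l 1) (a (a (b (l 1) (b (l 1) (l 16776280))) (l 1)) (l 1))) (l 1)))), by decide +kernel⟩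

def k4_pm_101_s : ∃ t, chk3 f_pm_101_s t 36 74 1 = true :=
  ⟨(a (b (l 3) (a (l 3) (b (l 3) (a (l 3) (a (a (l 567103454455) (b (l 3) (a (l 403894697831) (l 295983641367)))) (c (b (a (l 547239231143) (l 340007056791)) (l 16776984)) (b (l 403357824167) (l 16776880)))))))) (b (a (b (l 3) (a (l 3) (a (a (l 572472163559) (b (l 3) (b (l 520395685607) (a (l 308868544439) (l 16777112))))) (a (b (l 561734745655) (a (b (l 309405415351) (l 16777000)) (l 16777000))) (b (b (l 523080040167) (c (l 191830685543) (l 188072589207))) (l 16776832)))))) (b (b (a (b (l 552071068887) (a (l 3) (a (l 525227523815) (a (c (l 308331673511) (l 311016028071)) (l 16777120))))) (a (a (b (a (c (l 308331673511) (l 311016028071)) (l 85530246247)) (l 16776952)) (c (l 16776912) (l 16776768))) (l 16776504))) (a (b (a (l 542407392823) (a (a (a (l 313163511831) (l 266455743015)) (l 16777120)) (l 16776952))) (a (a (l 523616911079) (a (l 309942286247) (l 16777120))) (l 16776840))) (l 16776280))) (a (a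 (b (b (a (a (l 309405415335) (l 16777120)) (l 16776952)) (l 16776840)) (l 16776496)) (l 16776272)) (l 16775600)))) (a (a (a (a (b (l 570861550823) (b (l 111300048807) (l 16776600))) (b (b (l 3) (b (l 513953234679) (l 183240751079))) (l 16776600))) (b (a (b (l 557439778375) (a (l 142438561655) (l 16777000))) (b (b (l 517174460151) (l 185925105559)) (l 16776832))) (l 16776264))) (b (a (a (b (b (l 187535718295) (l 16776944)) (l 16776608)) (l 16776608)) (l 16776272)) (l 16775592))) (l 16774696)))), by decide +kernel⟩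

def k5_pm_101_s : ∃ t, chk3 f_pm_101_s t 36 75 1 = true :=
  ⟨(a (b (a (b (l 3) (a (l 3) (a (b (l 3) (l 385104213239)) (b (a (l 533817458279) (l 316384735047)) (l 16776912))))) (b (b (a (a (l 3) (a (l 543481134679) (l 313163512007))) (c (l 16776800) (l 16776608))) (a (a (a (l 538649296487) (l 312089767575)) (l 16776920)) (l 16776256))) (a (c (l 16776608) (l 16776328)) (l 16775576)))) (a (b (a (a (c (l 439328175127) (l 446844370295)) (b (l 380809248583) (l 16776896))) (l 16776456)) (a (l 16776440) (l 16775544))) (l 16774656))) (a (b (l 16774680) (l 16772864)) (l 16771984))), by decide +kernel⟩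

def k6_pm_101_s : ∃ t, chk3 f_pm_101_s t 37 37 1 = true :=
  ⟨(a (b (a (b (l 16774712) (l 16772904)) (l 16772048)) (l 16769304)) (l 16778160)), by decide +kernel⟩

def k7_pm_101_s : ∃ t, chk3 f_pm_101_s t 19 18 1 = true :=
  ⟨(b (l 1) (l 132103802071)), by decide +kernel⟩

def k8_pm_101_s : ∃ t, chk3 f_pm_101_s t 9 19 1 = true :=
  ⟨(a (b (a (b (a (b (a (l 16774616) (l 16772824)) (l 16771872)) (l 16769232)) (l 16767328)) (b (l 16763880) (l 16760272))) (a (l 16761752) (l 16754816))) (b (a (l 16755192) (l 16749336)) (l 16744384))), by decide +kernel⟩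

def k9_pm_101_s : ∃ t, chk3 f_pm_101_s t 5 4 1 = true :=
  ⟨(b (l 1) (a (b (l 1) (a (a (l 140156864023) (l 1)) (l 1))) (l 1))), by decide +kernel⟩

def k10_pm_101_s : ∃ t, chk3 f_pm_101_s t 2 5 1 = true :=
  ⟨(a (b (a (b (a (b (a (b (l 3) (a (l 3) (b (l 3) (a (l 573545903543) (b (l 402284084535) (l 165524022871)))))) (b (a (b (l 3) (a (l 3) (b (l 448991853479) (a (l 319069105335) (l 16776544))))) (b (a (b (l 469929818855) (a (l 408726535655) (l 16776664))) (b (l 16776248) (l 16775256))) (a (l 16775624) (l 16773736)))) (a (b (a (b (l 426443275367) (l 185925118855)) (l 16775480)) (l 16774368)) (l 16771600)))) (a (b (a (b (l 546702356935) (a (l 517711329191) (b (l 315847883223) (l 16776392)))) (b (a (b (l 377051151895) (l 16781800)) (l 16775160)) (l 16773992))) (a (b (a (b (l 287393723479) (l 16776208)) (l 16774768)) (l 16773536)) (l 16770696))) (b (a (l 16771192) (l 16767408)) (l 16764920)))) (b (a (b (a (b (l 16772960) (l 16770952)) (l 16768312)) (l 16766048))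 (l 16760960)) (a (l 16759712) (l 16752696)))) (a (b (a (b (a (l 16770104) (l 16766152)) (l 16763328)) (l 16758000)) (a (l 16755624) (l 16747936))) (b (l 16768056) (l 16737096)))) (b (a (b (l 16750608) (l 16742488)) (b (l 16736896) (l 16729336))) (a (b (l 16733536) (l 16724056)) (l 16715904)))) (a (b (a (b (a (l 16744192) (l 16736568)) (l 16748048)) (b (l 16725648) (l 16713208))) (a (b (a (l 16715952) (l 16708640)) (l 16758360)) (l 16691248))) (a (b (l 16707072) (l 16679944)) (l 16682752)))) (b (a (a (b (l 16720264) (l 16702640)) (l 16701824)) (a (l 16696288) (l 1))) (a (a (l 16671960) (l 16660920)) (a (l 16650048) (l 16642128))))), by decide +kernel⟩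

def k11_pm_101_s : ∃ t, chk3 f_pm_101_s t 3 2 1 = true :=
  ⟨(a (b (l 1) (a (b (l 1) (a (l 16636744) (l 1))) (l 1))) (l 1)), by decide +kernel⟩

def k12_pm_101_s : ∃ t, chk3 f_pm_101_s t 1 3 1 = true :=
  ⟨(a (b (a (a (b (b (a (a (l 16669576) (l 16663744)) (l 16655784)) (a (l 16682216) (l 16612168))) (a (b (l 16600080) (l 16480472)) (b (l 16556728) (l 16487528)))) (b (a (l 16669016) (l 16620744)) (b (l 16659048) (a (l 16493360) (l 16498144))))) (a (b (a (l 16614784) (l 16608872)) (a (l 16571096) (l 16531352))) (b (a (l 16602640) (l 16592544)) (a (l 16531392) (l 6))))) (a (a (b (a (b (l 16359040) (l 16248824)) (b (l 16400272) (l 16287280))) (a (b (l 16176592) (l 16109920)) (b (l 16139088) (l 16008680)))) (b (a (b (l 16415792) (l 16317632)) (l 16385992)) (a (l 16119680) (l 6)))) (a (b (a (l 16400216) (l 6)) (l 6)) (l 6)))) (a (b (a (l 6) (l 6)) (l 6)) (l 6))), by decide +kernel⟩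

theorem s13_pm_101_s : ∃ t, chk3 f_pm_101_s t 36 37 1 = true := ex3_b k4_pm_101_s k5_pm_101_s

theorem s14_pm_101_s : ∃ t, chk3 f_pm_101_s t 18 37 1 = true := ex3_a s13_pm_101_s k6_pm_101_s

theorem s15_pm_101_s : ∃ t, chk3 f_pm_101_s t 18 18 1 = true := ex3_b k3_pm_101_s s14_pm_101_s

theorem s16_pm_101_s : ∃ t, chk3 f_pm_101_s t 9 18 1 = true := ex3_a s15_pm_101_s k7_pm_101_s

theorem s17_pm_101_s : ∃ t, chk3 f_pm_101_s t 9 9 1 = true := ex3_b s16_pm_101_s k8_pm_101_s

theorem s18_pm_101_s : ∃ t, chk3 f_pm_101_s t 8 9 1 = true := ex3_b k1_pm_101_s k2_pm_101_s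

theorem s19_pm_101_s : ∃ t, chk3 f_pm_101_s t 4 9 1 = true := ex3_a s18_pm_101_s s17_pm_101_s

theorem s20_pm_101_s : ∃ t, chk3 f_pm_101_s t 4 4 1 = true := ex3_b k0_pm_101_s s19_pm_101_s

theorem s21_pm_101_s : ∃ t, chk3 f_pm_101_s t 2 4 1 = true := ex3_a s20_pm_101_s k9_pm_101_s

theorem s22_pm_101_s : ∃ t, chk3 f_pm_101_s t 2 2 1 = true := ex3_b s21_pm_101_s k10_pm_101_s

theorem s23_pm_101_s : ∃ t, chk3 f_pm_101_s t 1 2 1 = true := ex3_a s22_pm_101_s k11_pm_101_s

theorem s24_pm_101_s : ∃ t, chk3 f_pm_101_s t 1 1 1 = true := ex3_b s23_pm_101_s k12_pm_101_s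

theorem c_pm_101_s : CertNE 536870912 536870912 0 536870912 587336777 62277027 3 eng mog cd0q1 cd7q0 pd1 true true false .npn 1 0 1
    ndB0q1 ndB7q0 pcB1 cut_pm_101_s Ext.none :=
  certNE1 (fam := true) (s1 := true) (s2 := false) (a := 1) (b := 0) (c := 1) (cn := .npn) (n1 := ndB0q1) (n2 := ndB7q0) (pc := pcB1) (cut := cut_pm_101_s) (xt := Ext.none) (P1 := 536870912) (W1 := 536870912) (P2 := 0) (W2 := 536870912) (P3 := 587336777) (W3 := 62277027) (N0 := 3) (En := eng) (mo := mog) (C1 := cd0q1) (C2 := cd7q0) (C3 := pd1)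
    rfl (fun _ => rfl) s24_pm_101_s

noncomputable def cut_pm_102_s : Cut := Cut.of [[⟨4, 0, 0, 1449551462⟩]]

noncomputable def f_pm_102_s : ℕ → ℕ → ℕ → ℕ → Bool := onCell 536870912 536870912 1073741824 536870912 587336777 62277027
    (rowNE 3 eng mog cd0q1 cd7q0 pd2 1 true true false .npp 1 0 2 (qsf 536870912 536870912 0 536870912 2) ndB0q1 ndB7q0 pcB2 cut_pm_102_s Ext.none)

def k0_pm_102_s : ∃ t, chk3 f_pm_102_s t 1 1 1 = true :=
  ⟨(a (b (a (b (a (b (a (b (l 6) (l 6)) (l 6)) (l 6)) (l 6)) (l 6)) (l 6)) (l 6)) (l 6)), by decide +kernel⟩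

theorem c_pm_102_s : CertNE 536870912 536870912 0 536870912 587336777 62277027 3 eng mog cd0q1 cd7q0 pd2 true true false .npp 1 0 2
    ndB0q1 ndB7q0 pcB2 cut_pm_102_s Ext.none :=
  certNE1 (fam := true) (s1 := true) (s2 := false) (a := 1) (b := 0) (c := 2) (cn := .npp) (n1 := ndB0q1) (n2 := ndB7q0) (pc := pcB2) (cut := cut_pm_102_s) (xt := Ext.none) (P1 := 536870912) (W1 := 536870912) (P2 := 0) (W2 := 536870912) (P3 := 587336777) (W3 := 62277027) (N0 := 3) (En := eng) (mo := mog) (C1 := cd0q1) (C2 := cd7q0) (C3 := pd2)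
    rfl (fun _ => rfl) k0_pm_102_s

noncomputable def cut_pm_112_s : Cut := Cut.of [[⟨4, 0, 0, 1449551462⟩]]

noncomputable def f_pm_112_s : ℕ → ℕ → ℕ → ℕ → Bool := onCell 536870912 536870912 536870912 536870912 587336777 62277027
    (rowNE 3 eng mog cd0q1 cd7q1 pd2 0 true true false .dn 1 1 2 (qsf 536870912 536870912 536870912 536870912 2) ndB0q1 ndB7q1 pcB2 cut_pm_112_s Ext.none)

def k0_pm_112_s : ∃ t, chk3 f_pm_112_s t 1 1 1 = true :=
  ⟨(a (b (a (b (a (b (a (l 16086400) (l 6)) (l 6)) (l 6)) (l 6)) (l 6)) (l 6)) (l 6)), by decide +kernel⟩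

theorem c_pm_112_s : CertNE 536870912 536870912 536870912 536870912 587336777 62277027 3 eng mog cd0q1 cd7q1 pd2 true true false .dn 1 1 2
    ndB0q1 ndB7q1 pcB2 cut_pm_112_s Ext.none :=
  certNE0 (fam := true) (s1 := true) (s2 := false) (a := 1) (b := 1) (c := 2) (cn := .dn) (n1 := ndB0q1) (n2 := ndB7q1) (pc := pcB2) (cut := cut_pm_112_s) (xt := Ext.none) (P1 := 536870912) (W1 := 536870912) (P2 := 536870912) (W2 := 536870912) (P3 := 587336777) (W3 := 62277027) (N0 := 3) (En := eng) (mo := mog) (C1 := cd0q1) (C2 := cd7q1) (C3 := pd2)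
    rfl k0_pm_112_s

noncomputable def cut_pm_113_s : Cut := Cut.of [[⟨4, 0, 0, 1449551462⟩]]

noncomputable def f_pm_113_s : ℕ → ℕ → ℕ → ℕ → Bool := onCell 536870912 536870912 1610612736 536870912 587336777 62277027
    (rowNE 3 eng mog cd0q1 cd7q1 pd3 1 true true false .nn 1 1 3 (qsf 536870912 536870912 536870912 536870912 3) ndB0q1 ndB7q1 pcB3 cut_pm_113_s Ext.none)

def k0_pm_113_s : ∃ t, chk3 f_pm_113_s t 1 1 1 = true :=
  ⟨(l 6), by decide +kernel⟩

theorem c_pm_113_s : CertNE 536870912 536870912 536870912 536870912 587336777 62277027 3 eng mog cd0q1 cd7q1 pd3 true true false .nn 1 1 3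
    ndB0q1 ndB7q1 pcB3 cut_pm_113_s Ext.none :=
  certNE1 (fam := true) (s1 := true) (s2 := false) (a := 1) (b := 1) (c := 3) (cn := .nn) (n1 := ndB0q1) (n2 := ndB7q1) (pc := pcB3) (cut := cut_pm_113_s) (xt := Ext.none) (P1 := 536870912) (W1 := 536870912) (P2 := 536870912) (W2 := 536870912) (P3 := 587336777) (W3 := 62277027) (N0 := 3) (En := eng) (mo := mog) (C1 := cd0q1) (C2 := cd7q1) (C3 := pd3)
    rfl (fun _ => rfl) k0_pm_113_s

noncomputable def cut_pm_123_s : Cut := Cut.of [[⟨4, 0, 0, 1449551462⟩]]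

noncomputable def f_pm_123_s : ℕ → ℕ → ℕ → ℕ → Bool := onCell 536870912 536870912 1073741824 536870912 587336777 62277027
    (rowNE 3 eng mog cd0q1 cd7q2 pd3 0 true true false .npn 1 2 3 (qsf 536870912 536870912 1073741824 536870912 3) ndB0q1 ndB7q2 pcB3 cut_pm_123_s Ext.none)

def k0_pm_123_s : ∃ t, chk3 f_pm_123_s t 1 1 1 = true :=
  ⟨(l 6), by decide +kernel⟩

theorem c_pm_123_s : CertNE 536870912 536870912 1073741824 536870912 587336777 62277027 3 eng mog cd0q1 cd7q2 pd3 true true false .npn 1 2 3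
    ndB0q1 ndB7q2 pcB3 cut_pm_123_s Ext.none :=
  certNE0 (fam := true) (s1 := true) (s2 := false) (a := 1) (b := 2) (c := 3) (cn := .npn) (n1 := ndB0q1) (n2 := ndB7q2) (pc := pcB3) (cut := cut_pm_123_s) (xt := Ext.none) (P1 := 536870912) (W1 := 536870912) (P2 := 1073741824) (W2 := 536870912) (P3 := 587336777) (W3 := 62277027) (N0 := 3) (En := eng) (mo := mog) (C1 := cd0q1) (C2 := cd7q2) (C3 := pd3)
    rfl k0_pm_123_s

noncomputable def cut_pm_133_s : Cut := Cut.of [[⟨4, 0, 0, 1449551462⟩]]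

noncomputable def f_pm_133_s : ℕ → ℕ → ℕ → ℕ → Bool := onCell 536870912 536870912 0 1230186008 587336777 62277027
    (rowNE 3 eng mog cd0q1 cd7q3 pd3 0 true true false .dn 1 3 3 (qsf 536870912 536870912 0 1230186008 3) ndB0q1 ndB7q3 pcB3 cut_pm_133_s Ext.none)

def k0_pm_133_s : ∃ t, chk3 f_pm_133_s t 1 1 1 = true :=
  ⟨(l 6), by decide +kernel⟩

theorem c_pm_133_s : CertNE 536870912 536870912 0 1230186008 587336777 62277027 3 eng mog cd0q1 cd7q3 pd3 true true false .dn 1 3 3
    ndB0q1 ndB7q3 pcB3 cut_pm_133_s Ext.none :=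
  certNE0 (fam := true) (s1 := true) (s2 := false) (a := 1) (b := 3) (c := 3) (cn := .dn) (n1 := ndB0q1) (n2 := ndB7q3) (pc := pcB3) (cut := cut_pm_133_s) (xt := Ext.none) (P1 := 536870912) (W1 := 536870912) (P2 := 0) (W2 := 1230186008) (P3 := 587336777) (W3 := 62277027) (N0 := 3) (En := eng) (mo := mog) (C1 := cd0q1) (C2 := cd7q3) (C3 := pd3)
    rfl k0_pm_133_s

noncomputable def cut_pm_202_s : Cut := Cut.of [[⟨4, 0, 0, 1449551462⟩]]

noncomputable def f_pm_202_s : ℕ → ℕ → ℕ → ℕ → Bool := onCell 0 536870912 0 536870912 587336777 62277027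
    (rowNE 3 eng mog cd0q2 cd7q0 pd2 0 true true false .pp 2 0 2 (qsf 0 536870912 0 536870912 2) ndB0q2 ndB7q0 pcB2 cut_pm_202_s Ext.none)

def k0_pm_202_s : ∃ t, chk3 f_pm_202_s t 1 1 1 = true :=
  ⟨(l 6), by decide +kernel⟩

theorem c_pm_202_s : CertNE 0 536870912 0 536870912 587336777 62277027 3 eng mog cd0q2 cd7q0 pd2 true true false .pp 2 0 2
    ndB0q2 ndB7q0 pcB2 cut_pm_202_s Ext.none :=
  certNE0 (fam := true) (s1 := true) (s2 := false) (a := 2) (b := 0) (c := 2) (cn := .pp) (n1 := ndB0q2) (n2 := ndB7q0) (pc := pcB2) (cut := cut_pm_202_s) (xt := Ext.none) (P1 := 0) (W1 := 536870912) (P2 := 0) (W2 := 536870912) (P3 := 587336777) (W3 := 62277027) (N0 := 3) (En := eng) (mo := mog) (C1 := cd0q2) (C2 := cd7q0) (C3 := pd2)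
    rfl k0_pm_202_s

noncomputable def cut_pm_203_s : Cut := Cut.of [[⟨4, 0, 0, 1449551462⟩]]

noncomputable def f_pm_203_s : ℕ → ℕ → ℕ → ℕ → Bool := onCell 0 536870912 0 536870912 587336777 62277027
    (rowNE 3 eng mog cd0q2 cd7q0 pd3 0 true true false .up 2 0 3 (qsf 0 536870912 0 536870912 3) ndB0q2 ndB7q0 pcB3 cut_pm_203_s Ext.none)

def k0_pm_203_s : ∃ t, chk3 f_pm_203_s t 1 1 1 = true :=
  ⟨(l 6), by decide +kernel⟩

theorem c_pm_203_s : CertNE 0 536870912 0 536870912 587336777 62277027 3 eng mog cd0q2 cd7q0 pd3 true true false .up 2 0 3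
    ndB0q2 ndB7q0 pcB3 cut_pm_203_s Ext.none :=
  certNE0 (fam := true) (s1 := true) (s2 := false) (a := 2) (b := 0) (c := 3) (cn := .up) (n1 := ndB0q2) (n2 := ndB7q0) (pc := pcB3) (cut := cut_pm_203_s) (xt := Ext.none) (P1 := 0) (W1 := 536870912) (P2 := 0) (W2 := 536870912) (P3 := 587336777) (W3 := 62277027) (N0 := 3) (En := eng) (mo := mog) (C1 := cd0q2) (C2 := cd7q0) (C3 := pd3)
    rfl k0_pm_203_s

noncomputable def cut_pm_213_s : Cut := Cut.of [[⟨4, 0, 0, 1449551462⟩]]

noncomputable def f_pm_213_s : ℕ → ℕ → ℕ → ℕ → Bool := onCell 0 536870912 536870912 536870912 587336777 62277027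
    (rowNE 3 eng mog cd0q2 cd7q1 pd3 0 true true false .pnn 2 1 3 (qsf 0 536870912 536870912 536870912 3) ndB0q2 ndB7q1 pcB3 cut_pm_213_s Ext.none)

def k0_pm_213_s : ∃ t, chk3 f_pm_213_s t 1 1 1 = true :=
  ⟨(l 6), by decide +kernel⟩

theorem c_pm_213_s : CertNE 0 536870912 536870912 536870912 587336777 62277027 3 eng mog cd0q2 cd7q1 pd3 true true false .pnn 2 1 3
    ndB0q2 ndB7q1 pcB3 cut_pm_213_s Ext.none :=
  certNE0 (fam := true) (s1 := true) (s2 := false) (a := 2) (b := 1) (c := 3) (cn := .pnn) (n1 := ndB0q2) (n2 := ndB7q1) (pc := pcB3) (cut := cut_pm_213_s) (xt := Ext.none) (P1 := 0) (W1 := 536870912) (P2 := 536870912) (W2 := 536870912) (P3 := 587336777) (W3 := 62277027) (N0 := 3) (En := eng) (mo := mog) (C1 := cd0q2) (C2 := cd7q1) (C3 := pd3)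
    rfl k0_pm_213_s

noncomputable def cut_mm_001_s : Cut := Cut.of [[⟨4, 0, 0, 1449551462⟩]]

noncomputable def f_mm_001_s : ℕ → ℕ → ℕ → ℕ → Bool := onCell 0 536870912 0 536870912 587336777 62277027
    (rowNE 3 eng mog cd0q0 cd7q0 pd1 0 true false false .up 0 0 1 (qsf 0 536870912 0 536870912 1) ndB0q0 ndB7q0 pcB1 cut_mm_001_s Ext.none)

def k0_mm_001_s : ∃ t, chk3 f_mm_001_s t 1 1 1 = true :=
  ⟨(l 4), by decide +kernel⟩

theorem c_mm_001_s : CertNE 0 536870912 0 536870912 587336777 62277027 3 eng mog cd0q0 cd7q0 pd1 true false false .up 0 0 1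
    ndB0q0 ndB7q0 pcB1 cut_mm_001_s Ext.none :=
  certNE0 (fam := true) (s1 := false) (s2 := false) (a := 0) (b := 0) (c := 1) (cn := .up) (n1 := ndB0q0) (n2 := ndB7q0) (pc := pcB1) (cut := cut_mm_001_s) (xt := Ext.none) (P1 := 0) (W1 := 536870912) (P2 := 0) (W2 := 536870912) (P3 := 587336777) (W3 := 62277027) (N0 := 3) (En := eng) (mo := mog) (C1 := cd0q0) (C2 := cd7q0) (C3 := pd1)
    rfl k0_mm_001_s

noncomputable def cut_mm_011_s : Cut := Cut.of [[⟨4, 0, 0, 1449551462⟩]]

noncomputable def f_mm_011_s : ℕ → ℕ → ℕ → ℕ → Bool := onCell 0 536870912 536870912 536870912 587336777 62277027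
    (rowNE 3 eng mog cd0q0 cd7q1 pd1 0 true false false .pnn 0 1 1 (qsf 0 536870912 536870912 536870912 1) ndB0q0 ndB7q1 pcB1 cut_mm_011_s Ext.none)

def k0_mm_011_s : ∃ t, chk3 f_mm_011_s t 1 1 1 = true :=
  ⟨(l 4), by decide +kernel⟩

theorem c_mm_011_s : CertNE 0 536870912 536870912 536870912 587336777 62277027 3 eng mog cd0q0 cd7q1 pd1 true false false .pnn 0 1 1
    ndB0q0 ndB7q1 pcB1 cut_mm_011_s Ext.none :=
  certNE0 (fam := true) (s1 := false) (s2 := false) (a := 0) (b := 1) (c := 1) (cn := .pnn) (n1 := ndB0q0) (n2 := ndB7q1) (pc := pcB1) (cut := cut_mm_011_s) (xt := Ext.none) (P1 := 0) (W1 := 536870912) (P2 := 536870912) (W2 := 536870912) (P3 := 587336777) (W3 := 62277027) (N0 := 3) (En := eng) (mo := mog) (C1 := cd0q0) (C2 := cd7q1) (C3 := pd1)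
    rfl k0_mm_011_s

noncomputable def cut_mm_012_s : Cut := Cut.of [[⟨4, 0, 0, 1449551462⟩]]

noncomputable def f_mm_012_s : ℕ → ℕ → ℕ → ℕ → Bool := onCell 0 536870912 536870912 536870912 587336777 62277027
    (rowNE 3 eng mog cd0q0 cd7q1 pd2 0 true false false .pnp 0 1 2 (qsf 0 536870912 536870912 536870912 2) ndB0q0 ndB7q1 pcB2 cut_mm_012_s Ext.none)

def k0_mm_012_s : ∃ t, chk3 f_mm_012_s t 1 1 1 = true :=
  ⟨(l 4), by decide +kernel⟩

theorem c_mm_012_s : CertNE 0 536870912 536870912 536870912 587336777 62277027 3 eng mog cd0q0 cd7q1 pd2 true false false .pnp 0 1 2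
    ndB0q0 ndB7q1 pcB2 cut_mm_012_s Ext.none :=
  certNE0 (fam := true) (s1 := false) (s2 := false) (a := 0) (b := 1) (c := 2) (cn := .pnp) (n1 := ndB0q0) (n2 := ndB7q1) (pc := pcB2) (cut := cut_mm_012_s) (xt := Ext.none) (P1 := 0) (W1 := 536870912) (P2 := 536870912) (W2 := 536870912) (P3 := 587336777) (W3 := 62277027) (N0 := 3) (En := eng) (mo := mog) (C1 := cd0q0) (C2 := cd7q1) (C3 := pd2)
    rfl k0_mm_012_s

noncomputable def cut_mm_022_s : Cut := Cut.of [[⟨4, 0, 0, 1449551462⟩]]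

noncomputable def f_mm_022_s : ℕ → ℕ → ℕ → ℕ → Bool := onCell 0 536870912 1073741824 536870912 587336777 62277027
    (rowNE 3 eng mog cd0q0 cd7q2 pd2 0 true false false .pp 0 2 2 (qsf 0 536870912 1073741824 536870912 2) ndB0q0 ndB7q2 pcB2 cut_mm_022_s Ext.none)

def k0_mm_022_s : ∃ t, chk3 f_mm_022_s t 1 1 1 = true :=
  ⟨(l 4), by decide +kernel⟩

theorem c_mm_022_s : CertNE 0 536870912 1073741824 536870912 587336777 62277027 3 eng mog cd0q0 cd7q2 pd2 true false false .pp 0 2 2
    ndB0q0 ndB7q2 pcB2 cut_mm_022_s Ext.none :=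
  certNE0 (fam := true) (s1 := false) (s2 := false) (a := 0) (b := 2) (c := 2) (cn := .pp) (n1 := ndB0q0) (n2 := ndB7q2) (pc := pcB2) (cut := cut_mm_022_s) (xt := Ext.none) (P1 := 0) (W1 := 536870912) (P2 := 1073741824) (W2 := 536870912) (P3 := 587336777) (W3 := 62277027) (N0 := 3) (En := eng) (mo := mog) (C1 := cd0q0) (C2 := cd7q2) (C3 := pd2)
    rfl k0_mm_022_s

noncomputable def cut_mm_023_s : Cut := Cut.of [[⟨4, 0, 0, 1449551462⟩]]

noncomputable def f_mm_023_s : ℕ → ℕ → ℕ → ℕ → Bool := onCell 0 536870912 1073741824 536870912 587336777 62277027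
    (rowNE 3 eng mog cd0q0 cd7q2 pd3 0 true false false .up 0 2 3 (qsf 0 536870912 1073741824 536870912 3) ndB0q0 ndB7q2 pcB3 cut_mm_023_s Ext.none)

def k0_mm_023_s : ∃ t, chk3 f_mm_023_s t 1 1 1 = true :=
  ⟨(l 4), by decide +kernel⟩

theorem c_mm_023_s : CertNE 0 536870912 1073741824 536870912 587336777 62277027 3 eng mog cd0q0 cd7q2 pd3 true false false .up 0 2 3
    ndB0q0 ndB7q2 pcB3 cut_mm_023_s Ext.none :=
  certNE0 (fam := true) (s1 := false) (s2 := false) (a := 0) (b := 2) (c := 3) (cn := .up) (n1 := ndB0q0) (n2 := ndB7q2) (pc := pcB3) (cut := cut_mm_023_s) (xt := Ext.none) (P1 := 0) (W1 := 536870912) (P2 := 1073741824) (W2 := 536870912) (P3 := 587336777) (W3 := 62277027) (N0 := 3) (En := eng) (mo := mog) (C1 := cd0q0) (C2 := cd7q2) (C3 := pd3)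
    rfl k0_mm_023_s

noncomputable def cut_mm_033_s : Cut := Cut.of [[⟨4, 0, 0, 1449551462⟩]]

noncomputable def f_mm_033_s : ℕ → ℕ → ℕ → ℕ → Bool := onCell 0 536870912 0 1230186008 587336777 62277027
    (rowNE 3 eng mog cd0q0 cd7q3 pd3 0 true false false .pnn 0 3 3 (qsf 0 536870912 0 1230186008 3) ndB0q0 ndB7q3 pcB3 cut_mm_033_s Ext.none)

def k0_mm_033_s : ∃ t, chk3 f_mm_033_s t 1 1 1 = true :=
  ⟨(l 4), by decide +kernel⟩

theorem c_mm_033_s : CertNE 0 536870912 0 1230186008 587336777 62277027 3 eng mog cd0q0 cd7q3 pd3 true false false .pnn 0 3 3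
    ndB0q0 ndB7q3 pcB3 cut_mm_033_s Ext.none :=
  certNE0 (fam := true) (s1 := false) (s2 := false) (a := 0) (b := 3) (c := 3) (cn := .pnn) (n1 := ndB0q0) (n2 := ndB7q3) (pc := pcB3) (cut := cut_mm_033_s) (xt := Ext.none) (P1 := 0) (W1 := 536870912) (P2 := 0) (W2 := 1230186008) (P3 := 587336777) (W3 := 62277027) (N0 := 3) (En := eng) (mo := mog) (C1 := cd0q0) (C2 := cd7q3) (C3 := pd3)
    rfl k0_mm_033_s

noncomputable def cut_mm_101_s : Cut := Cut.of [[⟨4, 0, 0, 1449551462⟩]]

noncomputable def f_mm_101_s : ℕ → ℕ → ℕ → ℕ → Bool := onCell 536870912 536870912 0 536870912 587336777 62277027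
    (rowNE 3 eng mog cd0q1 cd7q0 pd1 0 true false false .npn 1 0 1 (qsf 536870912 536870912 0 536870912 1) ndB0q1 ndB7q0 pcB1 cut_mm_101_s Ext.none)

def k0_mm_101_s : ∃ t, chk3 f_mm_101_s t 1 1 1 = true :=
  ⟨(l 4), by decide +kernel⟩

theorem c_mm_101_s : CertNE 536870912 536870912 0 536870912 587336777 62277027 3 eng mog cd0q1 cd7q0 pd1 true false false .npn 1 0 1
    ndB0q1 ndB7q0 pcB1 cut_mm_101_s Ext.none :=
  certNE0 (fam := true) (s1 := false) (s2 := false) (a := 1) (b := 0) (c := 1) (cn := .npn) (n1 := ndB0q1) (n2 := ndB7q0) (pc := pcB1) (cut := cut_mm_101_s) (xt := Ext.none) (P1 := 536870912) (W1 := 536870912) (P2 := 0) (W2 := 536870912) (P3 := 587336777) (W3 := 62277027) (N0 := 3) (En := eng) (mo := mog) (C1 := cd0q1) (C2 := cd7q0) (C3 := pd1)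
    rfl k0_mm_101_s

noncomputable def cut_mm_102_s : Cut := Cut.of [[⟨4, 0, 0, 1449551462⟩]]

noncomputable def f_mm_102_s : ℕ → ℕ → ℕ → ℕ → Bool := onCell 536870912 536870912 0 536870912 587336777 62277027
    (rowNE 3 eng mog cd0q1 cd7q0 pd2 0 true false false .npp 1 0 2 (qsf 536870912 536870912 0 536870912 2) ndB0q1 ndB7q0 pcB2 cut_mm_102_s Ext.none)

def k0_mm_102_s : ∃ t, chk3 f_mm_102_s t 1 1 1 = true :=
  ⟨(l 4), by decide +kernel⟩

theorem c_mm_102_s : CertNE 536870912 536870912 0 536870912 587336777 62277027 3 eng mog cd0q1 cd7q0 pd2 true false false .npp 1 0 2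
    ndB0q1 ndB7q0 pcB2 cut_mm_102_s Ext.none :=
  certNE0 (fam := true) (s1 := false) (s2 := false) (a := 1) (b := 0) (c := 2) (cn := .npp) (n1 := ndB0q1) (n2 := ndB7q0) (pc := pcB2) (cut := cut_mm_102_s) (xt := Ext.none) (P1 := 536870912) (W1 := 536870912) (P2 := 0) (W2 := 536870912) (P3 := 587336777) (W3 := 62277027) (N0 := 3) (En := eng) (mo := mog) (C1 := cd0q1) (C2 := cd7q0) (C3 := pd2)
    rfl k0_mm_102_s

noncomputable def cut_mm_112_s : Cut := Cut.of [[⟨4, 0, 0, 1449551462⟩]]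

noncomputable def f_mm_112_s : ℕ → ℕ → ℕ → ℕ → Bool := onCell 536870912 536870912 536870912 536870912 587336777 62277027
    (rowNE 3 eng mog cd0q1 cd7q1 pd2 0 true false false .dn 1 1 2 (qsf 536870912 536870912 536870912 536870912 2) ndB0q1 ndB7q1 pcB2 cut_mm_112_s Ext.none)

def k0_mm_112_s : ∃ t, chk3 f_mm_112_s t 1 1 1 = true :=
  ⟨(l 4), by decide +kernel⟩

theorem c_mm_112_s : CertNE 536870912 536870912 536870912 536870912 587336777 62277027 3 eng mog cd0q1 cd7q1 pd2 true false false .dn 1 1 2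
    ndB0q1 ndB7q1 pcB2 cut_mm_112_s Ext.none :=
  certNE0 (fam := true) (s1 := false) (s2 := false) (a := 1) (b := 1) (c := 2) (cn := .dn) (n1 := ndB0q1) (n2 := ndB7q1) (pc := pcB2) (cut := cut_mm_112_s) (xt := Ext.none) (P1 := 536870912) (W1 := 536870912) (P2 := 536870912) (W2 := 536870912) (P3 := 587336777) (W3 := 62277027) (N0 := 3) (En := eng) (mo := mog) (C1 := cd0q1) (C2 := cd7q1) (C3 := pd2)
    rfl k0_mm_112_s

noncomputable def cut_mm_113_s : Cut := Cut.of [[⟨4, 0, 0, 1449551462⟩]]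

noncomputable def f_mm_113_s : ℕ → ℕ → ℕ → ℕ → Bool := onCell 536870912 536870912 536870912 536870912 587336777 62277027
    (rowNE 3 eng mog cd0q1 cd7q1 pd3 0 true false false .nn 1 1 3 (qsf 536870912 536870912 536870912 536870912 3) ndB0q1 ndB7q1 pcB3 cut_mm_113_s Ext.none)

def k0_mm_113_s : ∃ t, chk3 f_mm_113_s t 1 1 1 = true :=
  ⟨(l 4), by decide +kernel⟩

theorem c_mm_113_s : CertNE 536870912 536870912 536870912 536870912 587336777 62277027 3 eng mog cd0q1 cd7q1 pd3 true false false .nn 1 1 3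
    ndB0q1 ndB7q1 pcB3 cut_mm_113_s Ext.none :=
  certNE0 (fam := true) (s1 := false) (s2 := false) (a := 1) (b := 1) (c := 3) (cn := .nn) (n1 := ndB0q1) (n2 := ndB7q1) (pc := pcB3) (cut := cut_mm_113_s) (xt := Ext.none) (P1 := 536870912) (W1 := 536870912) (P2 := 536870912) (W2 := 536870912) (P3 := 587336777) (W3 := 62277027) (N0 := 3) (En := eng) (mo := mog) (C1 := cd0q1) (C2 := cd7q1) (C3 := pd3)
    rfl k0_mm_113_s

noncomputable def cut_mm_123_s : Cut := Cut.of [[⟨4, 0, 0, 1449551462⟩]]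

noncomputable def f_mm_123_s : ℕ → ℕ → ℕ → ℕ → Bool := onCell 536870912 536870912 1073741824 536870912 587336777 62277027
    (rowNE 3 eng mog cd0q1 cd7q2 pd3 0 true false false .npn 1 2 3 (qsf 536870912 536870912 1073741824 536870912 3) ndB0q1 ndB7q2 pcB3 cut_mm_123_s Ext.none)

def k0_mm_123_s : ∃ t, chk3 f_mm_123_s t 1 1 1 = true :=
  ⟨(l 4), by decide +kernel⟩

theorem c_mm_123_s : CertNE 536870912 536870912 1073741824 536870912 587336777 62277027 3 eng mog cd0q1 cd7q2 pd3 true false false .npn 1 2 3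
    ndB0q1 ndB7q2 pcB3 cut_mm_123_s Ext.none :=
  certNE0 (fam := true) (s1 := false) (s2 := false) (a := 1) (b := 2) (c := 3) (cn := .npn) (n1 := ndB0q1) (n2 := ndB7q2) (pc := pcB3) (cut := cut_mm_123_s) (xt := Ext.none) (P1 := 536870912) (W1 := 536870912) (P2 := 1073741824) (W2 := 536870912) (P3 := 587336777) (W3 := 62277027) (N0 := 3) (En := eng) (mo := mog) (C1 := cd0q1) (C2 := cd7q2) (C3 := pd3)
    rfl k0_mm_123_s

noncomputable def cut_mm_133_s : Cut := Cut.of [[⟨4, 0, 0, 1449551462⟩]]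

noncomputable def f_mm_133_s : ℕ → ℕ → ℕ → ℕ → Bool := onCell 536870912 536870912 0 1230186008 587336777 62277027
    (rowNE 3 eng mog cd0q1 cd7q3 pd3 0 true false false .dn 1 3 3 (qsf 536870912 536870912 0 1230186008 3) ndB0q1 ndB7q3 pcB3 cut_mm_133_s Ext.none)

def k0_mm_133_s : ∃ t, chk3 f_mm_133_s t 1 1 1 = true :=
  ⟨(l 4), by decide +kernel⟩

theorem c_mm_133_s : CertNE 536870912 536870912 0 1230186008 587336777 62277027 3 eng mog cd0q1 cd7q3 pd3 true false false .dn 1 3 3
    ndB0q1 ndB7q3 pcB3 cut_mm_133_s Ext.none :=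
  certNE0 (fam := true) (s1 := false) (s2 := false) (a := 1) (b := 3) (c := 3) (cn := .dn) (n1 := ndB0q1) (n2 := ndB7q3) (pc := pcB3) (cut := cut_mm_133_s) (xt := Ext.none) (P1 := 536870912) (W1 := 536870912) (P2 := 0) (W2 := 1230186008) (P3 := 587336777) (W3 := 62277027) (N0 := 3) (En := eng) (mo := mog) (C1 := cd0q1) (C2 := cd7q3) (C3 := pd3)
    rfl k0_mm_133_s

noncomputable def cut_mm_202_s : Cut := Cut.of [[⟨4, 0, 0, 1449551462⟩]]

noncomputable def f_mm_202_s : ℕ → ℕ → ℕ → ℕ → Bool := onCell 0 536870912 0 536870912 587336777 62277027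
    (rowNE 3 eng mog cd0q2 cd7q0 pd2 0 true false false .pp 2 0 2 (qsf 0 536870912 0 536870912 2) ndB0q2 ndB7q0 pcB2 cut_mm_202_s Ext.none)

def k0_mm_202_s : ∃ t, chk3 f_mm_202_s t 1 1 1 = true :=
  ⟨(l 4), by decide +kernel⟩

theorem c_mm_202_s : CertNE 0 536870912 0 536870912 587336777 62277027 3 eng mog cd0q2 cd7q0 pd2 true false false .pp 2 0 2
    ndB0q2 ndB7q0 pcB2 cut_mm_202_s Ext.none :=
  certNE0 (fam := true) (s1 := false) (s2 := false) (a := 2) (b := 0) (c := 2) (cn := .pp) (n1 := ndB0q2) (n2 := ndB7q0) (pc := pcB2) (cut := cut_mm_202_s) (xt := Ext.none) (P1 := 0) (W1 := 536870912) (P2 := 0) (W2 := 536870912) (P3 := 587336777) (W3 := 62277027) (N0 := 3) (En := eng) (mo := mog) (C1 := cd0q2) (C2 := cd7q0) (C3 := pd2)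
    rfl k0_mm_202_s

noncomputable def cut_mm_203_s : Cut := Cut.of [[⟨4, 0, 0, 1449551462⟩]]

noncomputable def f_mm_203_s : ℕ → ℕ → ℕ → ℕ → Bool := onCell 0 536870912 0 536870912 587336777 62277027
    (rowNE 3 eng mog cd0q2 cd7q0 pd3 0 true false false .up 2 0 3 (qsf 0 536870912 0 536870912 3) ndB0q2 ndB7q0 pcB3 cut_mm_203_s Ext.none)

def k0_mm_203_s : ∃ t, chk3 f_mm_203_s t 1 1 1 = true :=
  ⟨(l 4), by decide +kernel⟩

theorem c_mm_203_s : CertNE 0 536870912 0 536870912 587336777 62277027 3 eng mog cd0q2 cd7q0 pd3 true false false .up 2 0 3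
    ndB0q2 ndB7q0 pcB3 cut_mm_203_s Ext.none :=
  certNE0 (fam := true) (s1 := false) (s2 := false) (a := 2) (b := 0) (c := 3) (cn := .up) (n1 := ndB0q2) (n2 := ndB7q0) (pc := pcB3) (cut := cut_mm_203_s) (xt := Ext.none) (P1 := 0) (W1 := 536870912) (P2 := 0) (W2 := 536870912) (P3 := 587336777) (W3 := 62277027) (N0 := 3) (En := eng) (mo := mog) (C1 := cd0q2) (C2 := cd7q0) (C3 := pd3)
    rfl k0_mm_203_s

noncomputable def cut_mm_213_s : Cut := Cut.of [[⟨4, 0, 0, 1449551462⟩]]

noncomputable def f_mm_213_s : ℕ → ℕ → ℕ → ℕ → Bool := onCell 0 536870912 536870912 536870912 587336777 62277027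
    (rowNE 3 eng mog cd0q2 cd7q1 pd3 0 true false false .pnn 2 1 3 (qsf 0 536870912 536870912 536870912 3) ndB0q2 ndB7q1 pcB3 cut_mm_213_s Ext.none)

def k0_mm_213_s : ∃ t, chk3 f_mm_213_s t 1 1 1 = true :=
  ⟨(l 4), by decide +kernel⟩

theorem c_mm_213_s : CertNE 0 536870912 536870912 536870912 587336777 62277027 3 eng mog cd0q2 cd7q1 pd3 true false false .pnn 2 1 3
    ndB0q2 ndB7q1 pcB3 cut_mm_213_s Ext.none :=
  certNE0 (fam := true) (s1 := false) (s2 := false) (a := 2) (b := 1) (c := 3) (cn := .pnn) (n1 := ndB0q2) (n2 := ndB7q1) (pc := pcB3) (cut := cut_mm_213_s) (xt := Ext.none) (P1 := 0) (W1 := 536870912) (P2 := 536870912) (W2 := 536870912) (P3 := 587336777) (W3 := 62277027) (N0 := 3) (En := eng) (mo := mog) (C1 := cd0q2) (C2 := cd7q1) (C3 := pd3)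
    rfl k0_mm_213_s

end Pool.Agent.Strip051.G.I5470_6050.Tab.CS.BA07

namespace Pool.Agent.Strip051.G.I5470_6050.Tab.CS.BB00

open Pool.Agent.Strip051.PB Pool.Agent.Strip051.PB.T
open Pool.Agent.Strip051.G.I5470_6050.Tab

noncomputable def cut_pp_001_s : Cut := Cut.of [[⟨4, 0, 0, 1449551462⟩]]

noncomputable def f_pp_001_s : ℕ → ℕ → ℕ → ℕ → Bool := onCell 0 536870912 0 536870912 587336777 62277027
    (rowNE 3 eng mog cd0q0 cd0q1 pd0 1 false true true .up 0 0 1 (qsf 0 536870912 536870912 536870912 0) ndB0q0 ndB0q1 pcB0 cut_pp_001_s Ext.none)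

def k0_pp_001_s : ∃ t, chk3 f_pp_001_s t 1 1 1 = true :=
  ⟨(l 3), by decide +kernel⟩

theorem c_pp_001_s : CertNE 0 536870912 536870912 536870912 587336777 62277027 3 eng mog cd0q0 cd0q1 pd0 false true true .up 0 0 1
    ndB0q0 ndB0q1 pcB0 cut_pp_001_s Ext.none :=
  certNE1 (fam := false) (s1 := true) (s2 := true) (a := 0) (b := 0) (c := 1) (cn := .up) (n1 := ndB0q0) (n2 := ndB0q1) (pc := pcB0) (cut := cut_pp_001_s) (xt := Ext.none) (P1 := 0) (W1 := 536870912) (P2 := 536870912) (W2 := 536870912) (P3 := 587336777) (W3 := 62277027) (N0 := 3) (En := eng) (mo := mog) (C1 := cd0q0) (C2 := cd0q1) (C3 := pd0)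
    rfl (fun _ => rfl) k0_pp_001_s

noncomputable def cut_pp_001_t : Cut := Cut.of [[⟨3, 0, 0, 2845415833⟩]]

noncomputable def f_pp_001_t : ℕ → ℕ → ℕ → ℕ → Bool := onCell 0 536870912 536870912 536870912 587336777 62277027
    (rowNE 3 eng mog cd0q0 cd0q1 pd0 0 false true true .up 0 0 1 (qsf 0 536870912 536870912 536870912 0) ndB0q0 ndB0q1 pcB0 cut_pp_001_t Ext.none)

def k0_pp_001_t : ∃ t, chk3 f_pp_001_t t 1 1 1 = true :=
  ⟨(l 6), by decide +kernel⟩

theorem c_pp_001_t : CertNE 0 536870912 536870912 536870912 587336777 62277027 3 eng mog cd0q0 cd0q1 pd0 false true true .up 0 0 1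
    ndB0q0 ndB0q1 pcB0 cut_pp_001_t Ext.none :=
  certNE0 (fam := false) (s1 := true) (s2 := true) (a := 0) (b := 0) (c := 1) (cn := .up) (n1 := ndB0q0) (n2 := ndB0q1) (pc := pcB0) (cut := cut_pp_001_t) (xt := Ext.none) (P1 := 0) (W1 := 536870912) (P2 := 536870912) (W2 := 536870912) (P3 := 587336777) (W3 := 62277027) (N0 := 3) (En := eng) (mo := mog) (C1 := cd0q0) (C2 := cd0q1) (C3 := pd0)
    rfl k0_pp_001_t

noncomputable def cut_pp_011_s : Cut := Cut.of [[⟨4, 0, 0, 1449551462⟩], [⟨0, 0, 0, 67108864⟩, ⟨1, 1, 0, 67108864⟩, ⟨2, 1, 0, 67108864⟩]]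

noncomputable def f_pp_011_s : ℕ → ℕ → ℕ → ℕ → Bool := onCell 536870912 536870912 536870912 536870912 587336777 62277027
    (rowNE 3 eng mog cd0q0 cd0q1 pd1 2 false true true .pnn 0 1 1 (qsf 0 536870912 536870912 536870912 1) ndB0q0 ndB0q1 pcB1 cut_pp_011_s Ext.none)

def k0_pp_011_s : ∃ t, chk3 f_pp_011_s t 1 1 1 = true :=
  ⟨(a (l 3) (b (l 3) (a (l 3) (b (l 3) (a (l 3) (b (l 3) (b (l 3) (a (l 3) (l 14))))))))), by decide +kernel⟩

theorem c_pp_011_s : CertNE 0 536870912 536870912 536870912 587336777 62277027 3 eng mog cd0q0 cd0q1 pd1 false true true .pnn 0 1 1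
    ndB0q0 ndB0q1 pcB1 cut_pp_011_s Ext.none :=
  certNE2 (fam := false) (s1 := true) (s2 := true) (a := 0) (b := 1) (c := 1) (cn := .pnn) (n1 := ndB0q0) (n2 := ndB0q1) (pc := pcB1) (cut := cut_pp_011_s) (xt := Ext.none) (P1 := 0) (W1 := 536870912) (P2 := 536870912) (W2 := 536870912) (P3 := 587336777) (W3 := 62277027) (N0 := 3) (En := eng) (mo := mog) (C1 := cd0q0) (C2 := cd0q1) (C3 := pd1)
    rfl (fun _ => rfl) k0_pp_011_s

noncomputable def cut_pp_011_t : Cut := Cut.of [[⟨3, 0, 0, 2845415833⟩], [⟨0, 0, 0, 67108864⟩, ⟨1, 1, 0, 67108864⟩, ⟨2, 1, 0, 67108864⟩]]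

noncomputable def f_pp_011_t : ℕ → ℕ → ℕ → ℕ → Bool := onCell 0 536870912 536870912 536870912 587336777 62277027
    (rowNE 3 eng mog cd0q0 cd0q1 pd1 0 false true true .pnn 0 1 1 (qsf 0 536870912 536870912 536870912 1) ndB0q0 ndB0q1 pcB1 cut_pp_011_t Ext.none)

def k0_pp_011_t : ∃ t, chk3 f_pp_011_t t 1 1 1 = true :=
  ⟨(l 6), by decide +kernel⟩

theorem c_pp_011_t : CertNE 0 536870912 536870912 536870912 587336777 62277027 3 eng mog cd0q0 cd0q1 pd1 false true true .pnn 0 1 1
    ndB0q0 ndB0q1 pcB1 cut_pp_011_t Ext.none :=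
  certNE0 (fam := false) (s1 := true) (s2 := true) (a := 0) (b := 1) (c := 1) (cn := .pnn) (n1 := ndB0q0) (n2 := ndB0q1) (pc := pcB1) (cut := cut_pp_011_t) (xt := Ext.none) (P1 := 0) (W1 := 536870912) (P2 := 536870912) (W2 := 536870912) (P3 := 587336777) (W3 := 62277027) (N0 := 3) (En := eng) (mo := mog) (C1 := cd0q0) (C2 := cd0q1) (C3 := pd1)
    rfl k0_pp_011_t

noncomputable def cut_pp_012_s : Cut := Cut.of [[⟨4, 0, 0, 1449551462⟩], [⟨0, 0, 0, 44739242⟩, ⟨1, 1, 0, 44739242⟩, ⟨2, 1, 0, 44739242⟩]]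

noncomputable def f_pp_012_s : ℕ → ℕ → ℕ → ℕ → Bool := onCell 536870912 536870912 0 536870912 587336777 62277027
    (rowNE 3 eng mog cd0q0 cd0q2 pd1 2 false true true .pnp 0 1 2 (qsf 0 536870912 0 536870912 1) ndB0q0 ndB0q2 pcB1 cut_pp_012_s Ext.none)

def k0_pp_012_s : ∃ t, chk3 f_pp_012_s t 4 4 1 = true :=
  ⟨(l 2), by decide +kernel⟩

def k1_pp_012_s : ∃ t, chk3 f_pp_012_s t 5 4 1 = true :=
  ⟨(a (a (a (l 2) (b (a (l 2) (a (l 2) (b (l 16757584) (l 16778080)))) (b (a (l 2) (b (b (l 16770848) (a (b (l 16775744) (l 119889993399)) (l 16774448))) (b (a (l 3) (l 146196660663)) (l 3)))) (l 3)))) (b (b (a (l 16751824) (l 16721736)) (a (b (b (l 16764488) (l 16769536)) (l 16777072)) (b (l 16736688) (a (l 16769904) (l 16765184))))) (b (a (b (a (l 16778832) (l 16763488)) (a (b (a (b (l 16775552) (l 112373800903)) (l 16774272)) (a (l 3) (b (l 107541963063) (l 3)))) (b (l 16770616) (a (b (l 16775336) (l 103783866903)) (l 16774064))))) (b (l 16777248) (a (l 16778600) (l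 16784248)))) (a (b (a (l 3) (b (a (l 3) (b (l 99488899703) (l 3))) (l 3))) (l 3)) (b (a (b (a (b (l 16775096) (l 95193932359)) (l 16773816)) (a (l 3) (b (l 90898964503) (l 169818982183)))) (b (l 16770168) (a (b (l 16774800) (l 86603996695)) (l 16773504)))) (a (l 3) (b (a (l 167134628679) (b (l 81235287335) (l 157470951239))) (l 3)))))))) (b (a (b (l 16749832) (a (b (l 16727200) (l 16757992)) (l 16722312))) (b (l 16730672) (a (l 16712336) (l 16702032)))) (a (b (a (b (a (l 16769936) (l 16765056)) (l 16776872)) (b (l 16757560) (a (l 16769240) (l 16764152)))) (a (b (a (l 16778024) (l 16783528)) (a (b (a (b (l 16774472) (l 16780632)) (l 16773144)) (a (l 157470952439) (b (l 16781792) (l 147270403815)))) (b (l 16769400) (a (l 29158807783) (l 16772752))))) (b (l 16775880) (a (l 16766640) (l 16761472))))) (b (a (b (l 16726256) (a (l 16738032) (l 16732696))) (l 16720168)) (a (b (a (l 16767904) (b (l 16739456) (l 16743832))) (a (l 16756208) (l 16750784))) (b (a (l 16736272)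 (l 16730600)) (a (b (l 16742824) (l 16747480)) (b (l 16737256) (l 16741640))))))))), by decide +kernel⟩

def k2_pp_012_s : ∃ t, chk3 f_pp_012_s t 2 5 1 = true :=
  ⟨(a (l 3) (a (l 3) (b (a (b (a (b (a (l 3) (b (a (l 149417888727) (b (l 16776200) (l 116668769815))) (l 3))) (l 3)) (b (a (b (a (l 16780096) (l 16772312)) (a (l 141364824583) (b (l 16775808) (l 102710126663)))) (c (l 16781576) (l 16780960))) (a (l 3) (b (a (b (l 96804546039) (l 3)) (b (l 16775376) (l 91435836343))) (l 3))))) (l 3)) (b (a (b (a (l 16776024) (l 16760112)) (a (b (l 16777872) (a (b (l 84993384919) (l 3)) (b (l 16774880) (l 77477191383)))) (c (l 16780456) (l 16779656)))) (a (b (l 16754464) (l 16774368)) (b (l 16748624) (l 16757992)))) (a (b (a (b (l 156934085607) (l 3)) (b (a (b (l 68887256327) (l 152102243559)) (l 41506839719)) (l 152102246999))) (l 3)) (b (a (b (l 16771200) (a (b (l 16781680) (l 113984415959)) (l 16780096))) (c (l 16768264) (l 16777832))) (a (b (a (l 3) (l 139754213335))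 (l 3)) (b (a (b (l 16775840) (l 95193934663)) (l 16774160)) (a (l 3) (l 128479923175)))))))) (l 3)))), by decide +kernel⟩

def k3_pp_012_s : ∃ t, chk3 f_pp_012_s t 2 3 1 = true :=
  ⟨(l 3), by decide +kernel⟩

def k4_pp_012_s : ∃ t, chk3 f_pp_012_s t 12 4 1 = true :=
  ⟨(b (a (b (a (l 16673176) (l 16662264)) (a (l 16691144) (l 16679696))) (b (a (l 16650784) (l 16638736)) (a (l 16667632) (l 16655328)))) (a (b (a (l 16708936) (l 16697152)) (a (b (l 16721960) (l 16751768)) (l 16735248))) (b (a (l 16684848) (l 16672088)) (a (l 16701712) (l 16688632))))), by decide +kernel⟩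

def k5_pp_012_s : ∃ t, chk3 f_pp_012_s t 12 10 1 = true :=
  ⟨(a (b (a (b (a (b (l 16740296) (l 16744944)) (b (l 16734376) (l 16738792))) (c (l 16771208) (l 16768440))) (b (l 16748368) (a (b (l 16737128) (l 16741744)) (b (l 16730856) (l 16735304))))) (a (b (a (l 16772160) (l 16776352)) (a (b (l 16769504) (a (b (l 16775160) (l 78014064887)) (l 16773392))) (c (l 16776808) (l 16770600)))) (a (b (l 16748968) (l 16769792)) (b (l 16742456) (l 16773648))))) (b (a (b (l 16714536) (l 16744344)) (l 16726472)) (a (b (a (l 16756800) (l 16750216)) (c (l 16764680) (l 16762520))) (b (l 16740016) (a (l 16753336) (l 16725384)))))), by decide +kernel⟩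

def k6_pp_012_s : ∃ t, chk3 f_pp_012_s t 12 11 1 = true :=
  ⟨(a (b (a (b (a (b (a (l 3) (b (l 69961000583) (l 3))) (l 3)) (b (a (b (l 16774392) (l 61371065319)) (l 16772552)) (a (l 150491634167) (b (l 48486162567) (l 142438567751))))) (l 3)) (b (a (b (l 16778064) (a (a (l 33990646983) (l 16774168)) (l 16771656))) (c (l 16774672) (l 16773728))) (a (b (a (l 139217344023) (b (l 16781288) (l 123648084487))) (l 3)) (a (b (l 16779384) (b (l 80698420231) (l 3))) (b (l 16770720) (b (l 16775184) (l 68350389223))))))) (l 3)) (a (b (b (a (l 16772624) (l 16770992)) (a (a (a (l 16776344) (l 16774616)) (l 16772000)) (c (l 16782904) (l 16771584)))) (b (a (b (a (b (l 58686711927) (l 3)) (b (l 16774256) (l 49559905367))) (a (l 3) (l 149954764359))) (b (b (l 16768952) (l 16771984)) (a (b (l 39896227879) (l 145122922855)) (b (l 16773248) (l 30232550455))))) (a (l 3) (b (a (l 3) (l 146196666519)) (l 3))))) (b (a (b (l 16743072) (a (l 16777192) (l 16752664))) (b (l 16735984) (l 16768248)))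 (b (a (a (c (l 16778848) (l 16773192)) (l 16775024)) (l 16766952)) (a (b (a (b (l 16781056) (l 125795568247)) (l 16778976)) (a (l 3) (b (l 119889987207) (l 3)))) (b (b (l 16766696) (l 16769784)) (a (b (l 16774744) (a (l 103246995863) (l 16779560))) (l 16772616)))))))), by decide +kernel⟩

def k7_pp_012_s : ∃ t, chk3 f_pp_012_s t 13 2 1 = true :=
  ⟨(b (b (a (b (l 16620408) (a (l 16642808) (l 16629944))) (b (l 6) (l 16610760))) (a (b (a (l 16658984) (l 16645824)) (a (l 16675160) (l 16661608))) (b (a (l 16632696) (l 16619496)) (a (l 16648064) (l 16634600))))) (b (a (a (b (l 16691696) (c (l 16732408) (l 16729184))) (b (l 16698784) (b (l 16690856) (l 16700448)))) (a (b (l 16663944) (l 16702384)) (b (l 16650216) (l 16709336)))) (a (b (a (b (a (l 16749792) (l 16721664)) (a (l 16740048) (l 16753728))) (b (l 16710800) (a (l 16746432) (l 16718152)))) (a (a (a (b (l 16774576) (a (l 16777208) (l 16775352))) (b (l 16749936) (l 16772560))) (b (l 16765368) (c (l 16767352) (l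 16766576)))) (b (a (l 16757960) (l 16750528)) (a (a (l 16761320) (l 16768040)) (b (l 16738416) (l 16744440)))))) (b (a (b (l 16696344) (l 16728120)) (b (l 16682048) (l 16713616))) (a (b (a (l 16743120) (l 16714760)) (a (l 16733896) (b (l 16723440) (l 16729352)))) (b (l 16703720) (a (l 16718944) (l 16711536)))))))), by decide +kernel⟩

def k8_pp_012_s : ∃ t, chk3 f_pp_012_s t 7 2 1 = true :=
  ⟨(a (b (b (l 6) (a (a (b (l 16606544) (l 16621440)) (l 16664304)) (b (l 6) (l 16590464)))) (b (a (a (b (l 16636792) (l 16653688)) (b (l 16623832) (l 16640504))) (b (a (l 16611504) (l 16599880)) (c (l 16658848) (l 16666736)))) (a (a (b (b (l 16668064) (l 16678456)) (a (l 16709024) (l 16712376))) (b (l 16680664) (a (l 16705384) (l 16698544)))) (a (b (l 16667992) (a (l 16692408) (l 16686488))) (b (l 16657408) (b (l 16651456) (l 16672344))))))) (b (l 6) (b (a (b (l 16605872) (a (l 16607304) (l 16597208))) (b (l 6) (a (l 16607904) (l 6)))) (a (b (a (b (l 16621168) (l 16630384))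 (a (l 16659664) (l 16654120))) (b (a (l 16660952) (l 16628496)) (a (a (l 16652856) (l 16646856)) (a (l 16640880) (l 16634920))))) (b (a (b (l 16599464) (l 16608152)) (b (l 16588552) (l 16596872))) (a (b (l 16638064) (l 16646992)) (b (l 16626384) (a (l 16617184) (l 16611288))))))))), by decide +kernel⟩

def k9_pp_012_s : ∃ t, chk3 f_pp_012_s t 12 6 1 = true :=
  ⟨(b (a (l 3) (b (a (l 3) (b (a (l 3) (a (l 3) (b (b (a (l 89288352087) (l 16776400)) (l 162839664343)) (l 3)))) (l 3))) (l 3))) (l 3)), by decide +kernel⟩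

def k10_pp_012_s : ∃ t, chk3 f_pp_012_s t 26 12 1 = true :=
  ⟨(b (a (b (a (b (a (a (b (l 16774544) (l 75866578455)) (l 16779496)) (l 16771432)) (a (b (l 157470954263) (l 3)) (a (b (l 61907933511) (l 3)) (b (l 16775240) (l 90898965079))))) (a (b (l 16767656) (b (l 16772392) (l 16780824))) (b (l 16774360) (l 16770176)))) (a (l 3) (b (a (b (a (l 168745243175) (l 77477191223)) (l 3)) (b (l 16780208) (a (l 160155307479) (l 64592288039)))) (l 3)))) (b (a (b (l 16763416) (a (l 16766360) (l 16773016))) (b (l 16761048) (l 16762016))) (a (b (a (l 16775344) (l 16768872)) (b (a (a (l 137069857047) (l 16779856)) (l 16773680)) (a (l 3) (a (a (l 96267672807) (l 68887254295)) (l 16775928))))) (b (l 16768320) (a (l 16774024) (l 16772752)))))) (a (l 3) (b (a (b (a (l 3) (b (l 169818985927) (l 3))) (l 3)) (b (b (a (a (a (l 77477189527) (l 16779344)) (l 16775264)) (l 16772328)) (a (a (l 3) (l 135996115303)) (c (l 12515808407) (a (l 15200162551) (l 16774544))))) (a (l 3) (b (a (l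 178408919975) (b (l 16779624) (l 171966466775))) (l 3))))) (l 3)))), by decide +kernel⟩

def k11_pp_012_s : ∃ t, chk3 f_pp_012_s t 27 24 1 = true :=
  ⟨(a (b (b (a (l 16742944) (l 16735360)) (a (l 16749104) (l 16741456))) (a (b (l 16760592) (a (l 16763624) (l 16759728))) (c (l 16766824) (l 16758360)))) (b (a (l 16751816) (l 16733832)) (a (a (l 16755480) (l 16751656)) (c (l 16756752) (l 16745736))))), by decide +kernel⟩

def k12_pp_012_s : ∃ t, chk3 f_pp_012_s t 27 25 1 = true :=
  ⟨(a (b (a (b (a (c (l 16770136) (l 16772552)) (l 16771352)) (b (a (a (l 16778472) (l 16773888)) (l 16770928)) (a (a (l 168745242231) (b (l 16776312) (l 131164276055))) (c (l 16776832) (l 16776744))))) (a (b (l 16762192) (l 16773848)) (b (l 16758288) (l 16769912)))) (a (b (a (l 3) (b (b (a (c (l 77477188199) (l 76403445223)) (l 16775600)) (a (l 3) (a (l 88751476727) (l 16776728)))) (a (l 3) (b (l 181093272759) (l 3))))) (l 3)) (b (a (b (c (l 16776112) (l 16776024)) (a (a (b (l 72645348599)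 (l 3)) (b (l 16776368) (l 145122919943))) (a (a (b (l 16775624) (l 66739767783)) (l 16778560)) (l 16775192)))) (a (b (l 16770480) (l 16776328)) (l 16774048))) (a (b (a (l 3) (a (l 3) (b (a (l 163376530711) (l 75329702567)) (l 3)))) (l 3)) (b (a (a (b (l 16777944) (l 175187691511)) (b (l 16775640) (b (l 16776848) (l 97341410247)))) (a (l 16777416) (l 16774464))) (a (l 3) (a (b (b (l 84456507975) (l 3)) (l 3)) (b (b (l 16776480) (c (l 71571605527) (l 70497863047))) (l 183777626567))))))))) (b (a (b (l 16762944) (a (l 16771232) (l 16756848))) (c (l 16763848) (l 16758216))) (a (a (b (c (l 16772512) (l 16772304)) (b (c (l 16774664) (l 16774552)) (a (b (l 16776704) (a (b (a (l 79624668855) (l 16776848)) (l 174113948999)) (c (l 16777824) (c (l 16777816) (l 16777888))))) (a (l 16776184) (l 16776336))))) (b (l 16768464) (b (l 16770648) (a (l 16774848) (l 16772864))))) (a (b (l 16769792) (c (l 16771040) (l 16770848))) (c (l 16769224) (l 16767008)))))), by decide +kernel⟩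

def k13_pp_012_s : ∃ t, chk3 f_pp_012_s t 26 13 1 = true :=
  ⟨(l 3), by decide +kernel⟩

def k14_pp_012_s : ∃ t, chk3 f_pp_012_s t 54 26 1 = true :=
  ⟨(l 3), by decide +kernel⟩

def k15_pp_012_s : ∃ t, chk3 f_pp_012_s t 110 52 1 = true :=
  ⟨(b (b (b (a (b (a (a (l 3) (a (l 3) (l 93046441831))) (a (l 16777704) (l 16775728))) (a (l 3) (a (a (l 180556399687) (a (l 89825215991) (l 16777808))) (l 16777840)))) (a (l 16775944) (l 16775272))) (b (a (a (l 3) (a (l 3) (a (l 146733531863) (a (l 66202895479) (l 16776960))))) (a (a (l 16776344) (l 16775344)) (l 16773856))) (a (l 3) (a (a (a (b (l 65129153447) (l 180019528423)) (l 16777712)) (l 16776152)) (l 16775968))))) (a (l 3) (b (a (a (a (l 3) (b (l 173577077671) (l 3))) (a (b (b (l 16777000) (a (l 136532985063) (l 79087797095))) (l 3)) (b (l 16776704) (a (l 177335173927) (b (l 16777512) (l 3)))))) (a (a (b (l 16776208) (b (l 16776808) (a (l 91972699047) (l 16777088)))) (l 16776768)) (l 16776672))) (a (l 3) (b (a (a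 (l 184851367047) (b (a (l 71571604231) (l 16776992)) (c (l 154249724487) (l 156397208135)))) (a (c (l 16777480) (c (l 16777472) (l 16777464))) (l 16776320))) (a (l 3) (b (a (a (l 3) (a (l 103246988119) (l 71571604055))) (l 16777408)) (a (l 3) (a (l 170892722631) (b (l 16777096) (l 104320729751))))))))))) (l 3)), by decide +kernel⟩

def k16_pp_012_s : ∃ t, chk3 f_pp_012_s t 222 52 1 = true :=
  ⟨(a (b (b (l 16774096) (b (l 16775840) (a (a (b (l 16775824) (l 16777280)) (l 16777032)) (l 16776288)))) (b (a (b (a (b (b (a (b (l 90362085943) (l 3)) (c (l 16777104) (l 16777424))) (l 187535721239)) (l 3)) (a (b (b (l 16776848) (a (l 105394471687) (l 73182216711))) (l 3)) (b (l 16777456) (b (l 162302787943) (l 3))))) (l 3)) (b (b (l 16776832) (a (b (a (a (l 79624667719) (l 16777088)) (l 16776904)) (a (l 3) (a (l 119353115495) (l 86603989623)))) (c (l 16776736) (l 16777384)))) (b (b (a (l 3) (b (a (l 123648082679) (l 16777104)) (l 164450271655))) (l 3)) (l 3)))) (l 3)))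 (b (b (l 16772112) (a (l 16775808) (l 16774816))) (a (b (b (c (l 16776912) (l 16776224)) (b (a (b (l 16776832) (a (a (l 137069855607) (l 100562633431)) (c (l 16777112) (l 16777432)))) (l 16777192)) (a (a (l 3) (l 188072592311)) (b (a (a (l 107005084439) (l 73719087655)) (l 16777008)) (c (l 170355851879) (l 173577077351)))))) (l 3)) (b (b (l 16775896) (a (a (b (l 16776160) (a (b (l 16776824) (l 81235280455)) (l 16777552))) (l 16776968)) (l 16776760))) (b (b (a (a (l 3) (b (a (l 124184953639) (l 87677731463)) (l 3))) (b (l 16777432) (a (l 175187689943) (a (l 94120182455) (l 16777480))))) (l 3)) (l 3)))))), by decide +kernel⟩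

def k17_pp_012_s : ∃ t, chk3 f_pp_012_s t 223 52 1 = true :=
  ⟨(a (b (c (l 16774432) (l 16772992)) (a (b (b (l 16773592) (l 16776504)) (b (b (c (l 16776400) (l 16777040)) (a (b (a (c (l 111836922759) (l 112373793671)) (l 18958254615)) (l 188609463079)) (a (b (l 16776864) (a (l 111836922567) (l 74255958567))) (l 16777472)))) (a (l 3) (a (l 3) (b (b (l 163913400711) (l 3)) (l 3)))))) (b (l 16776024) (a (b (l 16776864) (b (b (a (a (l 80698409559) (l 16777104)) (l 16776912)) (a (l 3) (a (l 124721824551) (l 87677731463)))) (l 3))) (b (l 16776856) (a (b (l 16777520) (l 181630141271)) (b (l 16776616) (b (c (l 16777216) (l 76940313239)) (l 3))))))))) (b (l 16772384) (b (l 16774536) (b (l 16776264) (a (a (b (l 16776240) (b (l 16776840) (a (a (l 138143597447) (l 104857600663)) (l 16777440)))) (l 16776960)) (l 16776704)))))), by decide +kernel⟩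

def k18_pp_012_s : ∃ t, chk3 f_pp_012_s t 55 53 1 = true :=
  ⟨(a (l 3) (b (a (l 3) (b (a (l 3) (b (b (a (a (c (l 188072592535) (l 190756947095)) (a (b (a (l 110763180743) (l 16777488)) (l 3)) (b (l 16777016) (l 124184953831)))) (a (a (b (l 16776768) (l 28085060183)) (l 16776720)) (l 16776344))) (a (l 3) (a (c (l 165524013863) (c (l 168208368423) (b (l 158007820711) (l 3)))) (b (l 16777592) (a (l 174650819031) (a (l 96267666023) (l 16777152))))))) (l 3))) (l 3))) (l 3))), by decide +kernel⟩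

def k19_pp_012_s : ∃ t, chk3 f_pp_012_s t 27 27 1 = true :=
  ⟨(l 3), by decide +kernel⟩

def k20_pp_012_s : ∃ t, chk3 f_pp_012_s t 6 7 1 = true :=
  ⟨(l 3), by decide +kernel⟩

def k21_pp_012_s : ∃ t, chk3 f_pp_012_s t 28 12 1 = true :=
  ⟨(b (a (b (a (l 16715952) (l 16708656)) (a (l 16738456) (l 16731072))) (b (l 16698008) (a (l 16713448) (l 16706656)))) (a (b (a (c (l 16750944) (l 16750624)) (l 16753712)) (a (a (l 16764216) (l 16761336)) (l 16758544))) (a (b (l 16736072) (l 16748104)) (b (l 16718664) (l 16730568))))), by decide +kernel⟩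

def k22_pp_012_s : ∃ t, chk3 f_pp_012_s t 56 52 1 = true :=
  ⟨(b (a (a (l 16769432) (l 16770760)) (l 16764944)) (a (a (b (l 16772880) (c (l 16776096) (c (l 16776032) (l 16775680)))) (c (l 16771904) (l 16771784))) (c (l 16771280) (l 16768536)))), by decide +kernel⟩

def k23_pp_012_s : ∃ t, chk3 f_pp_012_s t 112 53 1 = true :=
  ⟨(b (a (b (a (b (a (c (l 16777312) (l 16776968)) (l 16776312)) (b (a (a (b (a (l 111836922759) (l 16777440)) (l 189146333975)) (a (b (l 16776864) (l 88214602471)) (l 16777472))) (l 16776848)) (a (a (l 3) (b (l 170892722775) (l 3))) (a (b (c (l 16777040) (l 16777528)) (c (l 113984406743) (l 156397207959))) (l 16777392))))) (a (b (l 16774000) (l 16776576)) (l 16776424))) (a (a (l 3) (a (l 3) (b (b (a (l 181093270327) (b (l 75329700487) (l 3))) (l 3)) (l 3)))) (a (b (b (a (a (b (l 16776960) (l 109689439095)) (l 16777560)) (l 16776536)) (a (l 189683205239) (b (a (l 85530247895) (l 16777000)) (l 169282110023)))) (l 3)) (b (a (b (l 16776032)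 (b (l 16776632) (l 16810771047))) (l 16777248)) (b (b (a (c (l 112373793975) (l 154249724295)) (l 16776928)) (a (l 3) (a (l 132238017527) (l 72645345895)))) (l 3)))))) (b (c (l 16776608) (l 16775232)) (a (a (b (l 16776496) (b (l 16777032) (b (a (a (l 107005084503) (l 16777096)) (l 16776720)) (a (l 187535721191) (a (l 81772151495) (l 16776992)))))) (b (l 16774192) (l 16776760))) (c (l 16776144) (l 16776096))))) (a (l 3) (b (b (b (a (a (a (l 3) (a (l 3) (l 170355851959))) (a (b (l 16777504) (a (l 190220075607) (l 91972698903))) (l 16777368))) (l 16776776)) (a (a (l 3) (a (l 3) (a (l 176798302983) (b (l 16777512) (l 3))))) (a (a (a (b (l 16776936) (l 103246988087)) (l 16777536)) (l 16776504)) (l 16775760)))) (a (l 3) (b (a (a (l 188072592439) (b (a (l 77477184167) (l 16776976)) (l 163913400839))) (c (l 16776552) (l 16777528))) (a (l 3) (b (a (a (l 189146333751) (l 87140860663)) (l 16776896)) (a (l 3) (a (l 124184953783) (l 16777160)))))))) (l 3)))), by decide +kernel⟩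

def k24_pp_012_s : ∃ t, chk3 f_pp_012_s t 113 53 1 = true :=
  ⟨(a (b (b (l 16772624) (l 16774784)) (b (a (a (b (l 16774368) (l 16776928)) (l 16776792)) (l 16775304)) (b (a (b (a (a (a (l 159081562647) (b (l 16777056) (l 134385501175))) (a (l 17884512999) (l 16776760))) (l 16776136)) (b (a (a (l 3) (l 159618433511)) (l 16777384)) (a (l 3) (a (a (l 145659790407) (l 16777568)) (l 16776872))))) (c (l 16775048) (l 16776336))) (b (a (a (l 3) (a (l 3) (a (l 169818981047) (b (l 16777136) (l 190220075607))))) (a (a (b (l 16776768) (l 63518540647)) (l 16776464)) (l 16775720))) (a (l 3) (a (a (l 182703883223) (b (l 16777712) (l 116668761319))) (l 16777816))))))) (b (l 16770264) (a (b (l 16775944) (a (l 16776296) (l 16775960))) (l 16775208)))), by decide +kernel⟩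

def k25_pp_012_s : ∃ t, chk3 f_pp_012_s t 57 26 1 = true :=
  ⟨(b (a (a (l 16762304) (l 16758488)) (l 16753008)) (b (a (l 16768352) (l 16762064)) (a (a (l 16773896) (l 16768680)) (l 16768152)))), by decide +kernel⟩

def k26_pp_012_s : ∃ t, chk3 f_pp_012_s t 56 27 1 = true :=
  ⟨(b (a (l 3) (b (a (b (a (l 3) (a (l 3) (b (a (b (b (l 98952021031) (l 3)) (l 3)) (b (b (l 16776840) (l 78550926247)) (l 190756947047))) (l 3)))) (l 3)) (b (b (a (b (l 16777104) (a (a (b (l 58149831479) (l 168208368183)) (l 16777488)) (l 16776080))) (l 16776824)) (b (a (a (a (l 3) (a (l 3) (l 155860337143))) (a (b (l 16776920) (l 93583311847)) (l 16776616))) (l 16776688)) (a (a (l 3) (a (l 3) (b (l 72108475255) (l 184314495687)))) (c (l 16777472) (c (l 16777464) (l 16777624)))))) (a (l 3) (b (b (a (a (l 170892723047) (a (l 88751473799) (l 16777720))) (l 16776440)) (a (l 3) (a (a (l 171966464695) (l 94120182983)) (l 21642609639)))) (a (l 3) (b (l 186998850983) (l 3))))))) (l 3))) (l 3)),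 by decide +kernel⟩

def k27_pp_012_s : ∃ t, chk3 f_pp_012_s t 57 54 1 = true :=
  ⟨(a (b (a (b (c (l 16777280) (l 16775936)) (b (a (l 16776976) (l 16773360)) (a (a (a (b (a (l 99488892167) (l 57612960727)) (l 3)) (b (l 16776760) (l 153175982679))) (a (a (b (l 16776384) (l 62444799015)) (l 16777840)) (l 16776152))) (l 16776224)))) (c (l 16774904) (l 16774872))) (a (b (a (a (l 3) (b (a (l 191830689559) (b (a (l 111836923175) (l 68887249943)) (l 3))) (l 3))) (a (b (b (l 16777888) (a (l 161229046471) (a (l 75866571767) (l 16776984)))) (l 3)) (b (l 16777288) (b (a (a (l 123648083287) (l 80698410023)) (l 16776888)) (l 179482658039))))) (l 3)) (b (a (a (a (b (l 16775232) (b (l 16776392) (l 66202895527))) (l 16777480)) (l 16777392)) (l 16775920)) (a (b (b (a (a (l 3) (l 104320730647)) (l 16777688)) (a (l 3) (a (l 181093270423) (l 73719088391)))) (l 3)) (b (l 16777576) (a (b (a (l 111836923527) (l 16777664)) (l 190756947383)) (a (b (l 16776520) (l 81235281223)) (l 16776408))))))))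 (b (c (l 16771680) (l 16771680)) (a (a (b (l 16771336) (a (l 16777520) (l 16776544))) (l 16776160)) (l 16773240)))), by decide +kernel⟩

def k28_pp_012_s : ∃ t, chk3 f_pp_012_s t 57 55 1 = true :=
  ⟨(a (b (a (l 3) (b (a (l 3) (a (l 3) (b (b (l 166060885031) (l 3)) (l 3)))) (l 3))) (l 3)) (b (a (b (b (a (a (b (l 21105738919) (a (l 192904430679) (l 89825215831))) (l 16777528)) (l 16777368)) (a (a (l 3) (a (l 174113949047) (b (l 16777776) (l 3)))) (a (a (b (l 16776624) (l 96804537767)) (l 16777832)) (l 16775776)))) (a (l 3) (b (a (c (l 183777626007) (l 188609464167)) (b (l 42580575591) (l 154249724743))) (l 3)))) (b (c (l 16777824) (l 16775192)) (a (b (c (l 16775832) (l 16777800)) (c (a (l 149954757735) (l 46875543255)) (a (b (l 135459242407) (l 3)) (b (l 16776480) (l 74255959671))))) (l 16777256)))) (a (l 3) (b (a (b (c (l 190756948887) (l 196125657943)) (l 3)) (a (b (b (l 52781122951) (l 163376530391)) (l 3)) (b (l 16777728) (a (l 193978173079) (l 148881015591)))))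 (l 3))))), by decide +kernel⟩

def k29_pp_012_s : ∃ t, chk3 f_pp_012_s t 29 6 1 = true :=
  ⟨(b (b (a (b (l 16693016) (a (l 16699944) (l 16693304))) (b (a (l 16675672) (l 16690360)) (a (l 16686712) (l 16701144)))) (a (b (a (l 16711752) (l 16704848)) (a (l 16723616) (l 16716528))) (b (b (l 16691768) (l 16697400)) (a (l 16709488) (l 16702456))))) (b (a (a (b (l 16735336) (l 16757696)) (b (l 16728232) (l 16750360))) (b (a (l 16721072) (l 16713864)) (a (l 16732608) (l 16725408)))) (a (b (a (b (l 16766680) (l 16770744)) (c (l 16762152) (l 16762160))) (a (b (a (c (l 16775448) (l 16775448)) (l 16771576)) (b (a (a (a (b (l 16775432) (a (a (l 81772152567) (l 56539219431)) (l 16778008))) (l 16777832)) (l 16776368)) (l 16776072)) (a (a (b (a (l 195051915399) (b (l 59223574055) (l 175724561495))) (l 3)) (b (c (l 16778632) (l 16777968)) (a (c (l 160692176231) (l 164987143495)) (a (a (l 91435828951) (l 64592283095)) (l 16778088))))) (c (l 16776456) (l 16776776))))) (b (l 16768464)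 (a (l 16773712) (l 16769872))))) (b (a (l 16754752) (l 16736888)) (a (a (l 16768376) (l 16764600)) (l 16758968)))))), by decide +kernel⟩

def k30_pp_012_s : ∃ t, chk3 f_pp_012_s t 15 6 1 = true :=
  ⟨(b (a (b (b (a (a (l 16663128) (l 16656896)) (a (l 16650688) (l 16644520))) (a (a (l 16673664) (l 16667200)) (a (l 16660784) (l 16654408)))) (a (b (a (b (l 16681720) (l 16687184)) (l 16677784)) (b (a (l 16692704) (l 16685872)) (l 16694800))) (b (a (l 16671160) (l 16664592)) (a (b (l 16679096) (l 16684480)) (l 16675048))))) (b (a (b (a (l 16638376) (l 16632272)) (a (l 16648080) (l 16641784))) (a (b (l 16626200) (l 16635536)) (b (l 16620160) (l 16629336)))) (a (b (a (l 16658072) (l 16651608)) (a (l 16668360) (l 16661728))) (a (b (l 16645192) (l 16655152)) (b (l 16638832) (l 16648632)))))) (a (b (a (b (a (l 16706744) (l 16699664)) (a (l 16718104) (l 16710896))) (b (b (a (l 16689912) (l 16683032)) (l 16691912)) (a (l 16703736) (l 16696656)))) (a (b (a (l 16729568) (l 16722264))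 (a (l 16751512) (l 16733624))) (b (a (l 16714944) (l 16707752)) (a (l 16736768) (l 16729416))))) (a (b (a (a (l 16686040) (l 16682600)) (b (l 16693080) (l 16682728))) (b (a (l 16700616) (l 16693560)) (a (l 16711688) (l 16704496)))) (b (b (a (l 16665384) (l 16658720)) (l 16682936)) (b (l 16698816) (a (l 16697320) (l 16690224))))))), by decide +kernel⟩

def k31_pp_012_s : ∃ t, chk3 f_pp_012_s t 28 14 1 = true :=
  ⟨(l 3), by decide +kernel⟩

def k32_pp_012_s : ∃ t, chk3 f_pp_012_s t 29 28 1 = true :=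
  ⟨(a (b (a (b (a (l 3) (b (a (a (b (a (l 158007821271) (l 80161539959)) (l 3)) (b (l 16777872) (l 167134627255))) (a (a (b (l 16775832) (l 82845894567)) (l 16778056)) (l 16775360))) (a (l 3) (a (l 3) (b (a (l 162839659575) (l 87677732663)) (l 3)))))) (l 3)) (b (a (b (l 16776200) (a (b (c (l 16776136) (l 16778096)) (a (l 175724561927) (a (l 89288345431) (l 16776888)))) (l 16777544))) (a (l 16776752) (l 16774816))) (a (b (a (l 3) (b (a (l 138143597255) (l 16777976)) (l 183777626503))) (l 3)) (a (a (b (c (l 35601254727) (b (l 16775688) (l 68887250935))) (l 3)) (b (l 16775456) (b (l 139754210039) (l 3)))) (b (l 16774000) (b (l 16778176) (a (l 179482658407) (l 71571605559)))))))) (l 3)) (b (a (b (c (l 16770016) (l 16772664)) (a (b (l 16776336) (c (l 16776656) (l 16776656))) (l 16773944))) (b (l 16767648) (c (l 16768184) (l 16768208)))) (a (b (a (b (a (b (a (l 140291080983) (l 16778032)) (l 184851368375)) (a (b (l 16775744) (l 72108476455)) (l 16775504))) (a (l 3) (b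 (c (l 153712854679) (l 157470950983)) (l 3)))) (b (l 16775696) (a (b (l 16778864) (a (l 179482658423) (l 72108476455))) (l 16777648)))) (a (l 3) (b (a (l 3) (b (b (l 44191189175) (l 98415151927)) (l 183777626519))) (l 3)))) (b (a (c (l 16775912) (l 16773288)) (l 16772048)) (a (b (a (a (b (l 16775752) (l 52244254343)) (l 16775512)) (l 16774048)) (a (b (c (l 153175983719) (l 157470950935)) (l 3)) (b (l 16778856) (a (l 177335174711) (l 50096770695))))) (a (a (l 16776832) (l 16775696)) (l 16774896))))))), by decide +kernel⟩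

def k33_pp_012_s : ∃ t, chk3 f_pp_012_s t 29 29 1 = true :=
  ⟨(a (l 3) (b (a (l 3) (b (a (l 3) (b (b (a (a (l 80161542871) (l 16776696)) (l 16775224)) (a (l 181093271863) (a (l 46338674263) (l 16776192)))) (a (l 3) (b (b (l 137606726519) (l 191293818935)) (l 3))))) (l 3))) (l 3))), by decide +kernel⟩

def k34_pp_012_s : ∃ t, chk3 f_pp_012_s t 14 15 1 = true :=
  ⟨(l 3), by decide +kernel⟩

def k35_pp_012_s : ∃ t, chk3 f_pp_012_s t 30 28 1 = true :=
  ⟨(a (b (a (a (l 16764864) (l 16761088)) (l 16755440)) (a (b (c (l 16766288) (l 16766296)) (a (c (l 16773960) (l 16773944)) (l 16770080))) (b (l 16763872) (c (l 16764312) (l 16764280))))) (a (b (l 16747936) (a (l 16755728) (l 16757136))) (b (l 16729976) (c (l 16746216) (l 16746096))))), by decide +kernel⟩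

def k36_pp_012_s : ∃ t, chk3 f_pp_012_s t 30 29 1 = true :=
  ⟨(a (b (a (b (b (a (c (l 16773032) (l 16775640)) (l 16769128)) (a (a (b (l 16778792) (a (l 170892723639) (l 39896223079))) (l 16777560)) (l 16774624))) (a (b (a (l 3) (b (a (a (l 149954758199) (l 89825215943)) (l 16776616)) (l 175187691655))) (l 3)) (b (b (l 16775472) (a (a (l 40433093895) (l 16776088)) (l 16774616))) (b (a (c (l 139754210615) (a (l 3) (l 101636376295))) (l 16778680)) (a (l 3) (a (l 162839659751) (l 56539219559))))))) (a (b (l 16769296) (b (l 16773584) (a (l 16776120) (l 16772848)))) (b (l 16762784) (c (l 16771128) (l 16771072))))) (a (l 3) (b (a (b (b (a (a (l 98952021799) (l 16776480)) (l 16775000)) (a (c (l 166597756871) (l 170892724055)) (a (l 49559897639) (l 16775944)))) (a (l 3) (a (l 198273141719) (b (a (l 129553663255) (l 66202895655)) (l 3))))) (b (c (l 16775400) (l 16774056)) (a (b (l 16777208) (a (l 150491628503) (l 35601253751))) (l 16775944)))) (a (l 3) (b (a (b (l 192367561175)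 (l 3)) (a (b (a (l 115595019719) (l 57076089959)) (l 3)) (b (l 16776296) (c (l 141901693767) (l 145122919175))))) (l 3)))))) (b (b (a (c (l 16762248) (l 16762152)) (l 16754408)) (a (a (l 16767176) (l 16765872)) (a (l 16756704) (l 16752776)))) (a (b (a (a (a (l 16774344) (l 16773360)) (l 16771880)) (c (l 16768960) (l 16768864))) (a (b (a (a (a (b (l 16775552) (l 28085061927)) (l 16777080)) (l 16775024)) (l 16774848)) (a (b (a (l 179482658311) (a (l 104320730375) (l 23253223607))) (l 3)) (b (l 16776992) (a (b (l 75866571927) (l 192904430791)) (c (l 16777936) (l 16777936)))))) (b (c (l 16773208) (l 16771832)) (a (a (l 16774904) (l 16773912)) (l 16773720))))) (b (a (c (l 16765024) (l 16764888)) (l 16760992)) (b (a (l 16769192) (l 16762584)) (a (c (l 16772080) (l 16770680)) (l 16766720))))))), by decide +kernel⟩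

def k37_pp_012_s : ∃ t, chk3 f_pp_012_s t 31 14 1 = true :=
  ⟨(b (a (b (a (c (l 16733000) (l 16732960)) (l 16725368)) (a (l 16741104) (a (l 16727512) (l 16734192)))) (b (a (l 16707520) (l 16700168)) (a (a (l 16730280) (l 16726400)) (b (l 16697232) (l 16723320))))) (a (a (b (b (l 16741384) (a (l 16754088) (l 16750160))) (b (a (l 16754408) (l 16751752)) (a (c (l 16762736) (l 16762528)) (b (l 16757232) (l 16758720))))) (a (b (l 16741560) (b (l 16749096) (a (l 16755632) (l 16751000)))) (b (l 16737312) (b (l 16742488) (c (l 16750816) (l 16750392)))))) (a (a (b (l 16731744) (b (l 16738496) (c (l 16744200) (l 16743680)))) (b (b (l 16734360) (l 16729144)) (b (l 16734496) (l 16742520)))) (a (b (b (l 16730416) (l 16725184)) (b (l 16730488) (l 16741080))) (b (b (l 16716040) (c (l 16732152) (l 16731352))) (b (l 16726488) (l 16737024))))))), by decide +kernel⟩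

def k38_pp_012_s : ∃ t, chk3 f_pp_012_s t 60 30 1 = true :=
  ⟨(l 3), by decide +kernel⟩

def k39_pp_012_s : ∃ t, chk3 f_pp_012_s t 61 30 1 = true :=
  ⟨(b (a (b (a (a (l 3) (a (l 3) (b (b (l 169818981687) (l 3)) (l 3)))) (b (b (a (a (a (b (l 16776952) (l 177872044679)) (l 16778128)) (l 16776056)) (l 16774552)) (a (a (l 3) (a (l 155323466567) (b (l 16776888) (l 163376530071)))) (a (a (l 16778056) (l 16776240)) (l 16775488)))) (a (l 3) (b (a (c (l 157470950535) (b (l 144049177095) (l 3))) (a (b (l 16776816) (l 148344144535)) (l 16777984))) (c (l 202031237767) (l 207399946711)))))) (l 3)) (b (a (b (a (c (l 16773288) (l 16773248)) (l 16772576)) (a (a (b (l 16775920) (b (a (l 86067118791) (l 16776744)) (l 159081562887))) (a (b (l 16775168) (l 16777256)) (l 16776032))) (b (l 16773400) (l 16775488)))) (b (b (l 16767536) (l 16770272)) (a (a (l 16772608) (l 16771600)) (l 16771400)))) (a (b (a (b (a (l 3) (a (l 190756947223) (b (l 69960991463) (l 3)))) (l 3)) (b (a (a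 (b (l 16776672) (c (l 66202896647) (l 117742502535))) (l 16777184)) (l 16775768)) (b (a (l 177872045031) (a (l 47949284007) (l 16776592))) (a (l 3) (a (l 209010557879) (a (l 140291080695) (l 16777832))))))) (l 3)) (b (b (a (l 16774904) (l 16772232)) (a (a (a (l 16777104) (l 16775936)) (l 16775176)) (l 16774312))) (a (a (b (b (a (l 146196660871) (l 32380027479)) (l 197736268983)) (l 3)) (a (b (b (l 16776504) (c (l 83919634999) (l 83382764119))) (l 3)) (b (l 16777016) (b (l 129553662535) (l 3))))) (b (c (l 16775104) (l 16775408)) (b (a (c (l 16777992) (l 16777328)) (l 16775656)) (a (a (l 175724561063) (c (l 65129153111) (l 65129153095))) (l 16776376))))))))) (a (l 3) (b (a (l 3) (b (b (a (l 3) (a (l 3) (b (a (a (l 156397207943) (l 82845893095)) (l 16777496)) (a (l 3) (l 158544691735))))) (l 3)) (l 3))) (l 3)))), by decide +kernel⟩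

def k40_pp_012_s : ∃ t, chk3 f_pp_012_s t 30 31 1 = true :=
  ⟨(l 3), by decide +kernel⟩

def k41_pp_012_s : ∃ t, chk3 f_pp_012_s t 62 60 1 = true :=
  ⟨(b (a (b (a (l 16765544) (l 16761360)) (a (c (l 16768448) (l 16767936)) (a (l 16765352) (l 16762016)))) (a (b (l 16757488) (c (l 16760424) (l 16760144))) (a (l 16756832) (l 16755120)))) (b (a (a (a (c (l 16770968) (l 16770880)) (b (l 16768184) (l 16770264))) (a (l 16767848) (l 16766152))) (a (a (l 16762800) (l 16760760)) (c (l 16759168) (l 16758840)))) (a (a (b (a (l 16773720) (a (l 16771536) (l 16770520))) (a (a (l 16775000) (l 16773984)) (l 16773112))) (a (b (l 16770304) (c (l 16771128) (l 16771024))) (l 16768648))) (a (a (c (l 16767032) (l 16766840)) (l 16764888)) (a (l 16761528) (l 16759464)))))), by decide +kernel⟩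

def k42_pp_012_s : ∃ t, chk3 f_pp_012_s t 62 122 1 = true :=
  ⟨(a (b (a (a (a (a (b (b (l 16776336) (a (l 70497862135) (l 16776928))) (l 205789331575)) (b (l 16776184) (b (a (l 129553662375) (l 58149831159)) (l 3)))) (b (l 16775416) (a (b (l 16776752) (a (l 186461979223) (l 116668760487))) (b (l 16776240) (c (l 16777288) (l 21105738215)))))) (b (c (l 16773912) (l 16774520)) (a (a (l 16776088) (l 16775576)) (l 16774808)))) (b (a (a (l 16773008) (l 16771336)) (l 16770456)) (c (a (l 16773304) (l 16771928)) (a (l 16773896) (l 16771832))))) (a (a (a (l 3) (a (l 3) (b (b (l 182703882951) (l 3)) (l 3)))) (a (b (b (a (b (l 16776984) (l 123648082279)) (l 16776656)) (a (l 3) (b (a (l 130090533111) (l 16777064)) (l 185925108231)))) (l 3)) (a (a (b (b (l 16776272) (l 16777648)) (l 3)) (b (l 16776376) (b (l 150491627879) (l 3)))) (b (l 16775992) (b (a (b (l 16777016) (l 155860336855)) (l 16777600)) (l 206326203255)))))) (b (a (a (l 16775552) (l 16774192)) (a (l 16773824)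 (l 16772792))) (a (a (b (l 16776624) (a (b (l 38822478247) (l 158544691527)) (l 16777088))) (a (l 16775888) (l 16775376))) (a (l 16775256) (a (l 16774320) (l 16773968))))))) (b (a (a (b (l 16767752) (l 16769824)) (c (l 16767816) (l 16766968))) (a (c (l 16764464) (l 16764224)) (l 16763592))) (b (a (a (c (l 16771312) (l 16771360)) (l 16769192)) (a (l 16766472) (l 16764400))) (a (a (a (l 16773032) (l 16772168)) (c (l 16770680) (l 16770552))) (a (l 16768544) (l 16765816)))))), by decide +kernel⟩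

def k43_pp_012_s : ∃ t, chk3 f_pp_012_s t 124 123 1 = true :=
  ⟨(a (l 3) (b (b (a (a (b (a (l 3) (a (l 190220075623) (b (l 16777336) (l 3)))) (l 3)) (b (a (a (b (l 16776912) (l 109152567543)) (l 16776840)) (l 16776448)) (a (c (l 183240753911) (l 188609462967)) (b (l 16777320) (c (l 125795565863) (a (l 201494364551) (l 86603989223))))))) (a (a (c (l 16776632) (l 16776616)) (l 16776104)) (c (l 16775024) (l 16774984)))) (a (l 3) (a (b (a (b (a (l 131164274935) (l 16777064)) (l 187535720967)) (a (b (l 16776808) (l 59223572807)) (l 16776728))) (a (l 3) (b (a (l 3) (l 107005083895)) (l 3)))) (b (l 16776248) (a (b (l 16776880) (a (l 155323465927) (l 16777280))) (l 16776544)))))) (b (b (a (l 3) (a (l 3) (a (l 206863073495) (a (b (l 81772151063) (l 3)) (b (l 16776960) (l 129016791271)))))) (l 3)) (l 3)))), by decide +kernel⟩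

def k44_pp_012_s : ∃ t, chk3 f_pp_012_s t 125 123 1 = true :=
  ⟨(b (a (a (b (a (a (a (l 16774688) (l 16774760)) (l 16774208)) (c (l 16773640) (l 16773560))) (a (c (l 16775752) (l 16775720)) (a (b (l 16774272) (l 16774992)) (l 16774528)))) (a (b (l 16772560) (c (l 16773872) (l 16773880))) (b (l 16770872) (l 16772712)))) (a (a (b (l 16769832) (l 16771920)) (b (l 16768800) (l 16770224))) (a (c (l 16769216) (l 16769040)) (l 14)))) (b (a (a (b (a (a (c (l 16777080) (l 16777152)) (l 16776232)) (l 16775456)) (b (a (a (a (l 180019527831) (l 51170509111)) (l 16776768)) (l 16775992)) (a (a (l 216526750375) (a (l 103783858407) (l 16777000))) (l 16776520)))) (a (c (l 16775128) (b (l 16774880) (a (l 16776032) (l 16774856)))) (c (l 16774264) (b (l 16773344) (l 16774720))))) (a (a (a (l 16773616) (l 14)) (l 14)) (l 14))) (a (b (a (a (a (l 3) (a (l 3) (b (l 152102240439) (l 3)))) (a (b (c (l 16777304) (l 16777384)) (a (l 191830688135) (c (l 78014054631) (l 79624667351)))) (l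 16776880))) (a (c (l 16775872) (l 16775840)) (a (l 16775400) (l 14)))) (a (a (l 3) (a (l 3) (a (b (c (l 123648082135) (l 125795565783)) (l 3)) (b (l 16777376) (l 175187689607))))) (a (a (b (l 16776656) (b (l 16776928) (l 14))) (l 14)) (l 14)))) (l 14)))), by decide +kernel⟩

def k45_pp_012_s : ∃ t, chk3 f_pp_012_s t 63 30 1 = true :=
  ⟨(a (b (a (a (b (l 16753088) (a (l 16758656) (l 16758120))) (b (l 16751040) (c (l 16756792) (l 16756352)))) (a (b (l 16746368) (c (l 16754744) (l 16754256))) (b (l 16744320) (c (l 16752696) (l 16752160))))) (b (a (a (b (l 16761520) (c (l 16764480) (l 16764200))) (b (l 16758136) (l 14))) (l 14)) (l 14))) (b (b (b (a (l 16739880) (l 16735784)) (a (l 16742592) (l 14))) (a (b (l 16746632) (l 14)) (l 14))) (l 14))), by decide +kernel⟩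

def k46_pp_012_s : ∃ t, chk3 f_pp_012_s t 31 31 1 = true :=
  ⟨(a (b (a (l 3) (a (a (l 3) (l 14)) (l 14))) (l 3)) (l 14)), by decide +kernel⟩

theorem s47_pp_012_s : ∃ t, chk3 f_pp_012_s t 62 123 1 = true := ex3_a k43_pp_012_s k44_pp_012_s

theorem s48_pp_012_s : ∃ t, chk3 f_pp_012_s t 62 61 1 = true := ex3_b k42_pp_012_s s47_pp_012_s

theorem s49_pp_012_s : ∃ t, chk3 f_pp_012_s t 62 30 1 = true := ex3_b k41_pp_012_s s48_pp_012_s

theorem s50_pp_012_s : ∃ t, chk3 f_pp_012_s t 31 30 1 = true := ex3_a s49_pp_012_s k45_pp_012_s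

theorem s51_pp_012_s : ∃ t, chk3 f_pp_012_s t 31 15 1 = true := ex3_b s50_pp_012_s k46_pp_012_s

theorem s52_pp_012_s : ∃ t, chk3 f_pp_012_s t 30 30 1 = true := ex3_a k38_pp_012_s k39_pp_012_s

theorem s53_pp_012_s : ∃ t, chk3 f_pp_012_s t 30 15 1 = true := ex3_b s52_pp_012_s k40_pp_012_s

theorem s54_pp_012_s : ∃ t, chk3 f_pp_012_s t 15 15 1 = true := ex3_a s53_pp_012_s s51_pp_012_s

theorem s55_pp_012_s : ∃ t, chk3 f_pp_012_s t 30 14 1 = true := ex3_b k35_pp_012_s k36_pp_012_s

theorem s56_pp_012_s : ∃ t, chk3 f_pp_012_s t 15 14 1 = true := ex3_a s55_pp_012_s k37_pp_012_s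

theorem s57_pp_012_s : ∃ t, chk3 f_pp_012_s t 15 7 1 = true := ex3_b s56_pp_012_s s54_pp_012_s

theorem s58_pp_012_s : ∃ t, chk3 f_pp_012_s t 29 14 1 = true := ex3_b k32_pp_012_s k33_pp_012_s

theorem s59_pp_012_s : ∃ t, chk3 f_pp_012_s t 14 14 1 = true := ex3_a k31_pp_012_s s58_pp_012_s

theorem s60_pp_012_s : ∃ t, chk3 f_pp_012_s t 14 7 1 = true := ex3_b s59_pp_012_s k34_pp_012_s

theorem s61_pp_012_s : ∃ t, chk3 f_pp_012_s t 7 7 1 = true := ex3_a s60_pp_012_s s57_pp_012_s

theorem s62_pp_012_s : ∃ t, chk3 f_pp_012_s t 57 27 1 = true := ex3_b k27_pp_012_s k28_pp_012_s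

theorem s63_pp_012_s : ∃ t, chk3 f_pp_012_s t 28 27 1 = true := ex3_a k26_pp_012_s s62_pp_012_s

theorem s64_pp_012_s : ∃ t, chk3 f_pp_012_s t 56 53 1 = true := ex3_a k23_pp_012_s k24_pp_012_s

theorem s65_pp_012_s : ∃ t, chk3 f_pp_012_s t 56 26 1 = true := ex3_b k22_pp_012_s s64_pp_012_s

theorem s66_pp_012_s : ∃ t, chk3 f_pp_012_s t 28 26 1 = true := ex3_a s65_pp_012_s k25_pp_012_s

theorem s67_pp_012_s : ∃ t, chk3 f_pp_012_s t 28 13 1 = true := ex3_b s66_pp_012_s s63_pp_012_s

theorem s68_pp_012_s : ∃ t, chk3 f_pp_012_s t 28 6 1 = true := ex3_b k21_pp_012_s s67_pp_012_s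

theorem s69_pp_012_s : ∃ t, chk3 f_pp_012_s t 14 6 1 = true := ex3_a s68_pp_012_s k29_pp_012_s

theorem s70_pp_012_s : ∃ t, chk3 f_pp_012_s t 7 6 1 = true := ex3_a s69_pp_012_s k30_pp_012_s

theorem s71_pp_012_s : ∃ t, chk3 f_pp_012_s t 7 3 1 = true := ex3_b s70_pp_012_s s61_pp_012_s

theorem s72_pp_012_s : ∃ t, chk3 f_pp_012_s t 111 52 1 = true := ex3_a k16_pp_012_s k17_pp_012_s

theorem s73_pp_012_s : ∃ t, chk3 f_pp_012_s t 55 52 1 = true := ex3_a k15_pp_012_s s72_pp_012_s

theorem s74_pp_012_s : ∃ t, chk3 f_pp_012_s t 55 26 1 = true := ex3_b s73_pp_012_s k18_pp_012_s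

theorem s75_pp_012_s : ∃ t, chk3 f_pp_012_s t 27 26 1 = true := ex3_a k14_pp_012_s s74_pp_012_s

theorem s76_pp_012_s : ∃ t, chk3 f_pp_012_s t 27 13 1 = true := ex3_b s75_pp_012_s k19_pp_012_s

theorem s77_pp_012_s : ∃ t, chk3 f_pp_012_s t 13 13 1 = true := ex3_a k13_pp_012_s s76_pp_012_s

theorem s78_pp_012_s : ∃ t, chk3 f_pp_012_s t 27 12 1 = true := ex3_b k11_pp_012_s k12_pp_012_s

theorem s79_pp_012_s : ∃ t, chk3 f_pp_012_s t 13 12 1 = true := ex3_a k10_pp_012_s s78_pp_012_s

theorem s80_pp_012_s : ∃ t, chk3 f_pp_012_s t 13 6 1 = true := ex3_b s79_pp_012_s s77_pp_012_s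

theorem s81_pp_012_s : ∃ t, chk3 f_pp_012_s t 6 6 1 = true := ex3_a k9_pp_012_s s80_pp_012_s

theorem s82_pp_012_s : ∃ t, chk3 f_pp_012_s t 6 3 1 = true := ex3_b s81_pp_012_s k20_pp_012_s

theorem s83_pp_012_s : ∃ t, chk3 f_pp_012_s t 3 3 1 = true := ex3_a s82_pp_012_s s71_pp_012_s

theorem s84_pp_012_s : ∃ t, chk3 f_pp_012_s t 12 5 1 = true := ex3_b k5_pp_012_s k6_pp_012_s

theorem s85_pp_012_s : ∃ t, chk3 f_pp_012_s t 12 2 1 = true := ex3_b k4_pp_012_s s84_pp_012_s

theorem s86_pp_012_s : ∃ t, chk3 f_pp_012_s t 6 2 1 = true := ex3_a s85_pp_012_s k7_pp_012_s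

theorem s87_pp_012_s : ∃ t, chk3 f_pp_012_s t 3 2 1 = true := ex3_a s86_pp_012_s k8_pp_012_s

theorem s88_pp_012_s : ∃ t, chk3 f_pp_012_s t 3 1 1 = true := ex3_b s87_pp_012_s s83_pp_012_s

theorem s89_pp_012_s : ∃ t, chk3 f_pp_012_s t 2 4 1 = true := ex3_a k0_pp_012_s k1_pp_012_s

theorem s90_pp_012_s : ∃ t, chk3 f_pp_012_s t 2 2 1 = true := ex3_b s89_pp_012_s k2_pp_012_s

theorem s91_pp_012_s : ∃ t, chk3 f_pp_012_s t 2 1 1 = true := ex3_b s90_pp_012_s k3_pp_012_s

theorem s92_pp_012_s : ∃ t, chk3 f_pp_012_s t 1 1 1 = true := ex3_a s91_pp_012_s s88_pp_012_s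

theorem c_pp_012_s : CertNE 0 536870912 0 536870912 587336777 62277027 3 eng mog cd0q0 cd0q2 pd1 false true true .pnp 0 1 2
    ndB0q0 ndB0q2 pcB1 cut_pp_012_s Ext.none :=
  certNE2 (fam := false) (s1 := true) (s2 := true) (a := 0) (b := 1) (c := 2) (cn := .pnp) (n1 := ndB0q0) (n2 := ndB0q2) (pc := pcB1) (cut := cut_pp_012_s) (xt := Ext.none) (P1 := 0) (W1 := 536870912) (P2 := 0) (W2 := 536870912) (P3 := 587336777) (W3 := 62277027) (N0 := 3) (En := eng) (mo := mog) (C1 := cd0q0) (C2 := cd0q2) (C3 := pd1)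
    rfl (fun _ => rfl) s92_pp_012_s

noncomputable def cut_pp_012_t : Cut := Cut.of [[⟨3, 0, 0, 2845415833⟩], [⟨0, 0, 0, 44739242⟩, ⟨1, 1, 0, 44739242⟩, ⟨2, 1, 0, 44739242⟩]]

noncomputable def f_pp_012_t : ℕ → ℕ → ℕ → ℕ → Bool := onCell 0 536870912 0 536870912 587336777 62277027
    (rowNE 3 eng mog cd0q0 cd0q2 pd1 0 false true true .pnp 0 1 2 (qsf 0 536870912 0 536870912 1) ndB0q0 ndB0q2 pcB1 cut_pp_012_t Ext.none)

def k0_pp_012_t : ∃ t, chk3 f_pp_012_t t 1 1 1 = true :=
  ⟨(l 6), by decide +kernel⟩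

theorem c_pp_012_t : CertNE 0 536870912 0 536870912 587336777 62277027 3 eng mog cd0q0 cd0q2 pd1 false true true .pnp 0 1 2
    ndB0q0 ndB0q2 pcB1 cut_pp_012_t Ext.none :=
  certNE0 (fam := false) (s1 := true) (s2 := true) (a := 0) (b := 1) (c := 2) (cn := .pnp) (n1 := ndB0q0) (n2 := ndB0q2) (pc := pcB1) (cut := cut_pp_012_t) (xt := Ext.none) (P1 := 0) (W1 := 536870912) (P2 := 0) (W2 := 536870912) (P3 := 587336777) (W3 := 62277027) (N0 := 3) (En := eng) (mo := mog) (C1 := cd0q0) (C2 := cd0q2) (C3 := pd1)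
    rfl k0_pp_012_t

noncomputable def cut_pp_022_s : Cut := Cut.of [[⟨4, 0, 0, 1449551462⟩], [⟨0, 0, 0, 67108864⟩, ⟨1, 1, 0, 67108864⟩, ⟨2, 1, 0, 67108864⟩]]

noncomputable def f_pp_022_s : ℕ → ℕ → ℕ → ℕ → Bool := onCell 1073741824 536870912 0 536870912 587336777 62277027
    (rowNE 3 eng mog cd0q0 cd0q2 pd2 2 false true true .pp 0 2 2 (qsf 0 536870912 0 536870912 2) ndB0q0 ndB0q2 pcB2 cut_pp_022_s Ext.none)

def k0_pp_022_s : ∃ t, chk3 f_pp_022_s t 4 2 1 = true :=
  ⟨(b (l 6) (a (b (l 6) (a (b (l 6) (a (c (l 16594536) (l 16594136)) (c (l 16627704) (l 16583880)))) (l 6))) (l 6))), by decide +kernel⟩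

def k1_pp_022_s : ∃ t, chk3 f_pp_022_s t 8 3 1 = true :=
  ⟨(a (b (a (a (b (b (l 16636608) (c (l 16645520) (l 16635536))) (b (b (l 16650168) (l 16665248)) (b (c (l 16670040) (l 16670008)) (c (l 16680272) (l 16679872))))) (b (b (l 16610608) (l 16630000)) (b (b (l 16645088) (l 16655432)) (b (l 16665464) (l 16675408))))) (b (b (c (l 16603472) (l 16622440)) (b (l 16616504) (l 16626024))) (b (b (a (l 16638896) (l 16632520)) (l 16645592)) (b (l 16655584) (l 16665608))))) (b (b (b (a (a (a (l 16691368) (l 16689096)) (l 16685544)) (a (l 16679448) (l 16671672))) (b (a (a (l 16698040) (l 16693248)) (l 16682976)) (l 14))) (l 14)) (l 14))) (a (b (b (b (b (l 16587376) (l 16595904)) (b (l 16604648) (l 16613592))) (b (b (l 16622696) (a (l 16635384) (l 16628400))) (b (a (l 16644864) (l 16637520)) (a (l 16654336) (l 16646592))))) (b (b (b (a (l 16663696) (l 16655504)) (a (l 16672872) (l 16664184))) (l 14)) (l 14))) (b (b (b (b (l 6) (l 16584144)) (b (l 16592328) (l 16600672)))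 (b (b (l 16609136) (l 16617656)) (b (l 16636680) (a (l 16638664) (l 16630528))))) (b (a (b (b (l 16647104) (l 16655256)) (l 14)) (b (b (l 16638464) (l 16667016)) (b (l 16653176) (l 1)))) (l 1))))), by decide +kernel⟩

def k2_pp_022_s : ∃ t, chk3 f_pp_022_s t 9 3 1 = true :=
  ⟨(b (b (b (l 6) (a (a (b (l 16579624) (l 16587312)) (b (l 6) (c (l 16577128) (l 16568976)))) (l 6))) (a (b (a (b (l 16595048) (c (l 16605816) (l 16599176))) (a (b (l 16584080) (l 16591136)) (b (l 16576520) (l 16583080)))) (a (b (a (l 16614456) (l 16606368)) (a (l 16622160) (l 16613544))) (b (a (l 16598040) (l 1)) (l 1)))) (a (a (b (b (l 16568744) (l 1)) (l 1)) (l 1)) (l 1)))) (b (a (b (a (b (a (l 16629544) (l 16620344)) (a (l 16636520) (l 1))) (l 1)) (l 1)) (l 1)) (l 1))), by decide +kernel⟩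

def k3_pp_022_s : ∃ t, chk3 f_pp_022_s t 5 1 1 = true :=
  ⟨(b (l 6) (b (l 1) (l 1))), by decide +kernel⟩

def k4_pp_022_s : ∃ t, chk3 f_pp_022_s t 3 1 1 = true :=
  ⟨(l 1), by decide +kernel⟩

theorem s5_pp_022_s : ∃ t, chk3 f_pp_022_s t 4 3 1 = true := ex3_a k1_pp_022_s k2_pp_022_s

theorem s6_pp_022_s : ∃ t, chk3 f_pp_022_s t 4 1 1 = true := ex3_b k0_pp_022_s s5_pp_022_s

theorem s7_pp_022_s : ∃ t, chk3 f_pp_022_s t 2 1 1 = true := ex3_a s6_pp_022_s k3_pp_022_s

theorem s8_pp_022_s : ∃ t, chk3 f_pp_022_s t 1 1 1 = true := ex3_a s7_pp_022_s k4_pp_022_s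

theorem c_pp_022_s : CertNE 0 536870912 0 536870912 587336777 62277027 3 eng mog cd0q0 cd0q2 pd2 false true true .pp 0 2 2
    ndB0q0 ndB0q2 pcB2 cut_pp_022_s Ext.none :=
  certNE2 (fam := false) (s1 := true) (s2 := true) (a := 0) (b := 2) (c := 2) (cn := .pp) (n1 := ndB0q0) (n2 := ndB0q2) (pc := pcB2) (cut := cut_pp_022_s) (xt := Ext.none) (P1 := 0) (W1 := 536870912) (P2 := 0) (W2 := 536870912) (P3 := 587336777) (W3 := 62277027) (N0 := 3) (En := eng) (mo := mog) (C1 := cd0q0) (C2 := cd0q2) (C3 := pd2)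
    rfl (fun _ => rfl) s8_pp_022_s

noncomputable def cut_pp_022_t : Cut := Cut.of [[⟨3, 0, 0, 2845415833⟩], [⟨0, 0, 0, 67108864⟩, ⟨1, 1, 0, 67108864⟩, ⟨2, 1, 0, 67108864⟩]]

noncomputable def f_pp_022_t : ℕ → ℕ → ℕ → ℕ → Bool := onCell 0 536870912 0 536870912 587336777 62277027
    (rowNE 3 eng mog cd0q0 cd0q2 pd2 0 false true true .pp 0 2 2 (qsf 0 536870912 0 536870912 2) ndB0q0 ndB0q2 pcB2 cut_pp_022_t Ext.none)

def k0_pp_022_t : ∃ t, chk3 f_pp_022_t t 1 1 1 = true :=
  ⟨(l 6), by decide +kernel⟩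

theorem c_pp_022_t : CertNE 0 536870912 0 536870912 587336777 62277027 3 eng mog cd0q0 cd0q2 pd2 false true true .pp 0 2 2
    ndB0q0 ndB0q2 pcB2 cut_pp_022_t Ext.none :=
  certNE0 (fam := false) (s1 := true) (s2 := true) (a := 0) (b := 2) (c := 2) (cn := .pp) (n1 := ndB0q0) (n2 := ndB0q2) (pc := pcB2) (cut := cut_pp_022_t) (xt := Ext.none) (P1 := 0) (W1 := 536870912) (P2 := 0) (W2 := 536870912) (P3 := 587336777) (W3 := 62277027) (N0 := 3) (En := eng) (mo := mog) (C1 := cd0q0) (C2 := cd0q2) (C3 := pd2)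
    rfl k0_pp_022_t

noncomputable def cut_pp_101_s : Cut := Cut.of [[⟨4, 0, 0, 1449551462⟩]]

noncomputable def f_pp_101_s : ℕ → ℕ → ℕ → ℕ → Bool := onCell 536870912 536870912 536870912 536870912 587336777 62277027
    (rowNE 3 eng mog cd0q1 cd0q1 pd0 0 false true true .npn 1 0 1 (qsf 536870912 536870912 536870912 536870912 0) ndB0q1 ndB0q1 pcB0 cut_pp_101_s Ext.none)

def k0_pp_101_s : ∃ t, chk3 f_pp_101_s t 1 1 1 = true :=
  ⟨(l 3), by decide +kernel⟩

theorem c_pp_101_s : CertNE 536870912 536870912 536870912 536870912 587336777 62277027 3 eng mog cd0q1 cd0q1 pd0 false true true .npn 1 0 1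
    ndB0q1 ndB0q1 pcB0 cut_pp_101_s Ext.none :=
  certNE0 (fam := false) (s1 := true) (s2 := true) (a := 1) (b := 0) (c := 1) (cn := .npn) (n1 := ndB0q1) (n2 := ndB0q1) (pc := pcB0) (cut := cut_pp_101_s) (xt := Ext.none) (P1 := 536870912) (W1 := 536870912) (P2 := 536870912) (W2 := 536870912) (P3 := 587336777) (W3 := 62277027) (N0 := 3) (En := eng) (mo := mog) (C1 := cd0q1) (C2 := cd0q1) (C3 := pd0)
    rfl k0_pp_101_s

noncomputable def cut_pp_101_t : Cut := Cut.of [[⟨3, 0, 0, 2845415833⟩]]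

noncomputable def f_pp_101_t : ℕ → ℕ → ℕ → ℕ → Bool := onCell 536870912 536870912 536870912 536870912 587336777 62277027
    (rowNE 3 eng mog cd0q1 cd0q1 pd0 0 false true true .npn 1 0 1 (qsf 536870912 536870912 536870912 536870912 0) ndB0q1 ndB0q1 pcB0 cut_pp_101_t Ext.none)

def k0_pp_101_t : ∃ t, chk3 f_pp_101_t t 1 1 1 = true :=
  ⟨(l 3), by decide +kernel⟩

theorem c_pp_101_t : CertNE 536870912 536870912 536870912 536870912 587336777 62277027 3 eng mog cd0q1 cd0q1 pd0 false true true .npn 1 0 1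
    ndB0q1 ndB0q1 pcB0 cut_pp_101_t Ext.none :=
  certNE0 (fam := false) (s1 := true) (s2 := true) (a := 1) (b := 0) (c := 1) (cn := .npn) (n1 := ndB0q1) (n2 := ndB0q1) (pc := pcB0) (cut := cut_pp_101_t) (xt := Ext.none) (P1 := 536870912) (W1 := 536870912) (P2 := 536870912) (W2 := 536870912) (P3 := 587336777) (W3 := 62277027) (N0 := 3) (En := eng) (mo := mog) (C1 := cd0q1) (C2 := cd0q1) (C3 := pd0)
    rfl k0_pp_101_t

noncomputable def cut_pp_102_s : Cut := Cut.of [[⟨4, 0, 0, 1449551462⟩]]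

noncomputable def f_pp_102_s : ℕ → ℕ → ℕ → ℕ → Bool := onCell 0 536870912 0 536870912 587336777 62277027
    (rowNE 3 eng mog cd0q1 cd0q2 pd0 2 false true true .npp 1 0 2 (qsf 536870912 536870912 0 536870912 0) ndB0q1 ndB0q2 pcB0 cut_pp_102_s Ext.none)

def k0_pp_102_s : ∃ t, chk3 f_pp_102_s t 1 1 1 = true :=
  ⟨(a (b (l 3) (l 3)) (l 3)), by decide +kernel⟩

theorem c_pp_102_s : CertNE 536870912 536870912 0 536870912 587336777 62277027 3 eng mog cd0q1 cd0q2 pd0 false true true .npp 1 0 2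
    ndB0q1 ndB0q2 pcB0 cut_pp_102_s Ext.none :=
  certNE2 (fam := false) (s1 := true) (s2 := true) (a := 1) (b := 0) (c := 2) (cn := .npp) (n1 := ndB0q1) (n2 := ndB0q2) (pc := pcB0) (cut := cut_pp_102_s) (xt := Ext.none) (P1 := 536870912) (W1 := 536870912) (P2 := 0) (W2 := 536870912) (P3 := 587336777) (W3 := 62277027) (N0 := 3) (En := eng) (mo := mog) (C1 := cd0q1) (C2 := cd0q2) (C3 := pd0)
    rfl (fun _ => rfl) k0_pp_102_s

noncomputable def cut_pp_102_t : Cut := Cut.of [[⟨3, 0, 0, 2845415833⟩]]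

noncomputable def f_pp_102_t : ℕ → ℕ → ℕ → ℕ → Bool := onCell 536870912 536870912 0 536870912 587336777 62277027
    (rowNE 3 eng mog cd0q1 cd0q2 pd0 0 false true true .npp 1 0 2 (qsf 536870912 536870912 0 536870912 0) ndB0q1 ndB0q2 pcB0 cut_pp_102_t Ext.none)

def k0_pp_102_t : ∃ t, chk3 f_pp_102_t t 1 1 1 = true :=
  ⟨(l 6), by decide +kernel⟩

theorem c_pp_102_t : CertNE 536870912 536870912 0 536870912 587336777 62277027 3 eng mog cd0q1 cd0q2 pd0 false true true .npp 1 0 2
    ndB0q1 ndB0q2 pcB0 cut_pp_102_t Ext.none :=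
  certNE0 (fam := false) (s1 := true) (s2 := true) (a := 1) (b := 0) (c := 2) (cn := .npp) (n1 := ndB0q1) (n2 := ndB0q2) (pc := pcB0) (cut := cut_pp_102_t) (xt := Ext.none) (P1 := 536870912) (W1 := 536870912) (P2 := 0) (W2 := 536870912) (P3 := 587336777) (W3 := 62277027) (N0 := 3) (En := eng) (mo := mog) (C1 := cd0q1) (C2 := cd0q2) (C3 := pd0)
    rfl k0_pp_102_t

noncomputable def cut_pp_112_s : Cut := Cut.of [[⟨4, 0, 0, 1449551462⟩]]

noncomputable def f_pp_112_s : ℕ → ℕ → ℕ → ℕ → Bool := onCell 536870912 536870912 0 536870912 587336777 62277027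
    (rowNE 3 eng mog cd0q1 cd0q2 pd1 0 false true true .dn 1 1 2 (qsf 536870912 536870912 0 536870912 1) ndB0q1 ndB0q2 pcB1 cut_pp_112_s Ext.none)

def k0_pp_112_s : ∃ t, chk3 f_pp_112_s t 1 1 1 = true :=
  ⟨(a (b (a (b (a (b (a (b (a (b (l 16756936) (a (l 16765088) (l 16769984))) (b (a (l 16764216) (l 16769360)) (a (l 16753976) (l 16759144)))) (a (b (c (l 16778832) (l 16777568)) (a (l 16775968) (b (l 16767816) (a (l 16771944) (l 28621936551))))) (b (a (l 16775280) (b (l 16767304) (a (l 16771440) (l 16779352)))) (a (b (a (l 16771672) (l 28621936263)) (a (b (l 16775744) (l 142438563623)) (b (l 140291079863) (l 3)))) (b (a (b (l 16780800) (a (l 110763185799) (l 168745238519))) (b (l 134922370535) (l 3))) (l 3)))))) (b (a (b (l 16771872) (a (l 16785392) (b (l 16767008) (l 16777744)))) (b (a (l 16785104) (b (l 16766760) (l 16772304))) (a (b (l 16777640) (a (b (l 16775176) (l 115058154359)) (b (l 115058154471) (l 3)))) (b (a (b (l 16775088) (l 114521283239)) (b (l 113984412167)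 (l 3))) (l 3))))) (a (b (a (b (l 16780496) (b (a (l 16775408) (l 131701144871)) (a (l 132774886791) (l 3)))) (b (a (b (l 16775280) (l 131164273847)) (b (l 115595025175) (l 3))) (l 3))) (l 3)) (l 3)))) (a (b (a (b (a (b (a (l 16772224) (b (l 16773408) (l 16778680))) (a (b (l 16778784) (l 151028498743)) (l 158544691783))) (b (a (b (l 16775952) (l 146733531159)) (l 155860336855)) (l 3))) (l 3)) (l 3)) (l 3)) (l 3))) (b (a (b (a (b (a (b (l 16772216) (a (b (l 16775024) (l 113447541367)) (b (l 113447541111) (l 3)))) (b (a (b (l 16774976) (l 112910670247)) (b (l 112910670279) (l 3))) (l 3))) (l 3)) (l 3)) (l 3)) (l 3)) (l 3))) (l 3)) (l 3)) (l 3)) (l 1)), by decide +kernel⟩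

theorem c_pp_112_s : CertNE 536870912 536870912 0 536870912 587336777 62277027 3 eng mog cd0q1 cd0q2 pd1 false true true .dn 1 1 2
    ndB0q1 ndB0q2 pcB1 cut_pp_112_s Ext.none :=
  certNE0 (fam := false) (s1 := true) (s2 := true) (a := 1) (b := 1) (c := 2) (cn := .dn) (n1 := ndB0q1) (n2 := ndB0q2) (pc := pcB1) (cut := cut_pp_112_s) (xt := Ext.none) (P1 := 536870912) (W1 := 536870912) (P2 := 0) (W2 := 536870912) (P3 := 587336777) (W3 := 62277027) (N0 := 3) (En := eng) (mo := mog) (C1 := cd0q1) (C2 := cd0q2) (C3 := pd1)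
    rfl k0_pp_112_s

noncomputable def cut_pp_112_t : Cut := Cut.of [[⟨3, 0, 0, 2845415833⟩]]

noncomputable def f_pp_112_t : ℕ → ℕ → ℕ → ℕ → Bool := onCell 536870912 536870912 0 536870912 587336777 62277027
    (rowNE 3 eng mog cd0q1 cd0q2 pd1 0 false true true .dn 1 1 2 (qsf 536870912 536870912 0 536870912 1) ndB0q1 ndB0q2 pcB1 cut_pp_112_t Ext.none)

def k0_pp_112_t : ∃ t, chk3 f_pp_112_t t 1 1 1 = true :=
  ⟨(l 6), by decide +kernel⟩

theorem c_pp_112_t : CertNE 536870912 536870912 0 536870912 587336777 62277027 3 eng mog cd0q1 cd0q2 pd1 false true true .dn 1 1 2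
    ndB0q1 ndB0q2 pcB1 cut_pp_112_t Ext.none :=
  certNE0 (fam := false) (s1 := true) (s2 := true) (a := 1) (b := 1) (c := 2) (cn := .dn) (n1 := ndB0q1) (n2 := ndB0q2) (pc := pcB1) (cut := cut_pp_112_t) (xt := Ext.none) (P1 := 536870912) (W1 := 536870912) (P2 := 0) (W2 := 536870912) (P3 := 587336777) (W3 := 62277027) (N0 := 3) (En := eng) (mo := mog) (C1 := cd0q1) (C2 := cd0q2) (C3 := pd1)
    rfl k0_pp_112_t

noncomputable def cut_pp_202_s : Cut := Cut.of [[⟨4, 0, 0, 1449551462⟩]]

noncomputable def f_pp_202_s : ℕ → ℕ → ℕ → ℕ → Bool := onCell 0 536870912 0 536870912 587336777 62277027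
    (rowNE 3 eng mog cd0q2 cd0q2 pd0 0 false true true .pp 2 0 2 (qsf 0 536870912 0 536870912 0) ndB0q2 ndB0q2 pcB0 cut_pp_202_s Ext.none)

def k0_pp_202_s : ∃ t, chk3 f_pp_202_s t 1 1 1 = true :=
  ⟨(l 3), by decide +kernel⟩

theorem c_pp_202_s : CertNE 0 536870912 0 536870912 587336777 62277027 3 eng mog cd0q2 cd0q2 pd0 false true true .pp 2 0 2
    ndB0q2 ndB0q2 pcB0 cut_pp_202_s Ext.none :=
  certNE0 (fam := false) (s1 := true) (s2 := true) (a := 2) (b := 0) (c := 2) (cn := .pp) (n1 := ndB0q2) (n2 := ndB0q2) (pc := pcB0) (cut := cut_pp_202_s) (xt := Ext.none) (P1 := 0) (W1 := 536870912) (P2 := 0) (W2 := 536870912) (P3 := 587336777) (W3 := 62277027) (N0 := 3) (En := eng) (mo := mog) (C1 := cd0q2) (C2 := cd0q2) (C3 := pd0)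
    rfl k0_pp_202_s

noncomputable def cut_pp_202_t : Cut := Cut.of [[⟨3, 0, 0, 2845415833⟩]]

noncomputable def f_pp_202_t : ℕ → ℕ → ℕ → ℕ → Bool := onCell 0 536870912 0 536870912 587336777 62277027
    (rowNE 3 eng mog cd0q2 cd0q2 pd0 0 false true true .pp 2 0 2 (qsf 0 536870912 0 536870912 0) ndB0q2 ndB0q2 pcB0 cut_pp_202_t Ext.none)

def k0_pp_202_t : ∃ t, chk3 f_pp_202_t t 1 1 1 = true :=
  ⟨(l 3), by decide +kernel⟩

theorem c_pp_202_t : CertNE 0 536870912 0 536870912 587336777 62277027 3 eng mog cd0q2 cd0q2 pd0 false true true .pp 2 0 2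
    ndB0q2 ndB0q2 pcB0 cut_pp_202_t Ext.none :=
  certNE0 (fam := false) (s1 := true) (s2 := true) (a := 2) (b := 0) (c := 2) (cn := .pp) (n1 := ndB0q2) (n2 := ndB0q2) (pc := pcB0) (cut := cut_pp_202_t) (xt := Ext.none) (P1 := 0) (W1 := 536870912) (P2 := 0) (W2 := 536870912) (P3 := 587336777) (W3 := 62277027) (N0 := 3) (En := eng) (mo := mog) (C1 := cd0q2) (C2 := cd0q2) (C3 := pd0)
    rfl k0_pp_202_t

noncomputable def cut_pm_001_s : Cut := Cut.of [[⟨4, 0, 0, 1449551462⟩]]

noncomputable def f_pm_001_s : ℕ → ℕ → ℕ → ℕ → Bool := onCell 0 536870912 536870912 536870912 587336777 62277027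
    (rowNE 3 eng mog cd0q0 cd0q1 pd0 0 false true false .up 0 0 1 (qsf 0 536870912 536870912 536870912 0) ndB0q0 ndB0q1 pcB0 cut_pm_001_s Ext.none)

def k0_pm_001_s : ∃ t, chk3 f_pm_001_s t 1 1 1 = true :=
  ⟨(l 6), by decide +kernel⟩

theorem c_pm_001_s : CertNE 0 536870912 536870912 536870912 587336777 62277027 3 eng mog cd0q0 cd0q1 pd0 false true false .up 0 0 1
    ndB0q0 ndB0q1 pcB0 cut_pm_001_s Ext.none :=
  certNE0 (fam := false) (s1 := true) (s2 := false) (a := 0) (b := 0) (c := 1) (cn := .up) (n1 := ndB0q0) (n2 := ndB0q1) (pc := pcB0) (cut := cut_pm_001_s) (xt := Ext.none) (P1 := 0) (W1 := 536870912) (P2 := 536870912) (W2 := 536870912) (P3 := 587336777) (W3 := 62277027) (N0 := 3) (En := eng) (mo := mog) (C1 := cd0q0) (C2 := cd0q1) (C3 := pd0)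
    rfl k0_pm_001_s

noncomputable def cut_pm_001_t : Cut := Cut.of [[⟨3, 0, 0, 2845415833⟩]]

noncomputable def f_pm_001_t : ℕ → ℕ → ℕ → ℕ → Bool := onCell 0 536870912 536870912 536870912 587336777 62277027
    (rowNE 3 eng mog cd0q0 cd0q1 pd0 0 false true false .up 0 0 1 (qsf 0 536870912 536870912 536870912 0) ndB0q0 ndB0q1 pcB0 cut_pm_001_t Ext.none)

def k0_pm_001_t : ∃ t, chk3 f_pm_001_t t 2 1 1 = true :=
  ⟨(b (l 4) (b (b (l 4) (l 2)) (l 2))), by decide +kernel⟩

def k1_pm_001_t : ∃ t, chk3 f_pm_001_t t 3 4 1 = true :=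
  ⟨(l 4), by decide +kernel⟩

def k2_pm_001_t : ∃ t, chk3 f_pm_001_t t 6 5 1 = true :=
  ⟨(l 4), by decide +kernel⟩

def k3_pm_001_t : ∃ t, chk3 f_pm_001_t t 7 10 1 = true :=
  ⟨(a (l 4) (b (a (l 4) (b (l 4) (a (l 4) (b (l 4) (a (l 4) (b (a (l 4) (l 181697247479)) (a (b (l 4) (l 118883369335)) (b (l 81302401639) (l 16777128))))))))) (a (b (l 4) (a (l 4) (b (a (l 4) (c (l 201024599079) (l 199950855175))) (a (b (l 4) (a (l 4) (l 170422958711))) (b (a (l 182234118487) (c (l 69491242951) (l 67343758823))) (a (l 61438178823) (l 16776392))))))) (b (a (b (l 4) (a (l 4) (b (a (l 4) (b (l 186529086103) (l 119957108231))) (a (b (l 172033571735) (l 78618046871)) (l 16776976))))) (b (a (b (a (l 4) (b (l 4) (l 117272756807))) (a (b (l 201561471367) (l 118883368247)) (l 45332048983))) (b (a (l 53921985015) (l 16776920)) (l 16776712))) (a (b (a (l 16777104) (l 16776720)) (l 16776440)) (l 16776216)))) (a (b (a (b (a (l 4) (b (l 117809626935) (l 16782664))) (a (b (l 115125272615)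 (l 16777288)) (l 16776720))) (b (l 16781872) (l 16776104))) (a (l 16781176) (l 16775216))) (b (a (l 16775768) (l 16775496)) (a (l 16774768) (l 16774592)))))))), by decide +kernel⟩

def k4_pm_001_t : ∃ t, chk3 f_pm_001_t t 14 11 1 = true :=
  ⟨(b (a (l 4) (b (l 4) (a (l 4) (b (a (l 4) (b (l 190824052439) (a (l 174181055271) (l 62511920695)))) (a (b (a (l 4) (l 158611799127)) (a (l 143579424359) (l 16781776))) (b (a (l 51237629623) (l 16775440)) (l 16774392))))))) (a (b (a (l 4) (b (l 4) (a (l 4) (b (l 4) (a (l 4) (l 162369895751)))))) (a (b (l 4) (a (l 4) (b (l 202098342999) (a (l 172570443383) (l 57143212071))))) (b (a (b (l 4) (a (l 4) (l 98482277607))) (b (a (l 143579414087) (l 16776032)) (l 16774056))) (a (b (a (l 73249342103) (l 16774520)) (l 16772392)) (l 16769144))))) (b (a (b (a (b (l 4) (l 201024600215)) (b (a (l 4) (l 108682824471)) (a (l 97408533159) (l 16775616)))) (a (b (a (l 180623506471) (l 65733146711)) (a (l 50700758711) (l 16774424))) (l 16783472)))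 (b (a (b (l 16781880) (l 16773336)) (l 16771712)) (l 16779272))) (a (b (a (l 16771232) (l 16767880)) (l 16774040)) (a (l 16762608) (l 16760656)))))), by decide +kernel⟩

def k5_pm_001_t : ∃ t, chk3 f_pm_001_t t 15 11 1 = true :=
  ⟨(b (a (b (a (b (a (l 4) (b (l 4) (a (l 4) (l 146800649639)))) (a (b (l 4) (a (l 4) (b (l 112977788183) (l 16782528)))) (b (a (l 113514663655) (l 16776640)) (l 16775896)))) (b (a (b (a (l 158611798935) (l 51237629687)) (a (l 16782144) (l 16775984))) (l 16775408)) (a (l 16774784) (l 16773584)))) (a (b (a (b (a (l 73786211863) (l 16776112)) (l 16775240)) (l 16784520)) (a (l 16772992) (l 16771344))) (a (b (l 16772592) (l 16770152)) (l 16770344)))) (a (b (a (l 16781424) (b (l 16773888) (l 16772336))) (c (l 16771024) (l 16768096))) (b (a (l 16772784) (l 16772784)) (b (l 16770488) (l 16768728))))) (a (b (a (b (l 16768808) (l 16765128)) (b (l 16766872) (l 16763648))) (a (l 16769024) (l 16757592))) (b (a (b (l 16766336) (l 16763760)) (l 16765528))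 (a (a (l 16758392) (l 16759240)) (l 16760352))))), by decide +kernel⟩

def k6_pm_001_t : ∃ t, chk3 f_pm_001_t t 12 12 1 = true :=
  ⟨(a (l 4) (b (l 4) (b (l 4) (a (l 4) (b (l 4) (a (b (l 4) (l 2)) (a (b (l 4) (b (a (l 2) (l 93113558695)) (l 2))) (b (a (l 189750316247) (b (l 211762022743) (l 16776480))) (l 16777632))))))))), by decide +kernel⟩

def k7_pm_001_t : ∃ t, chk3 f_pm_001_t t 13 24 1 = true :=
  ⟨(a (l 4) (b (a (l 4) (b (l 4) (a (b (l 4) (a (l 4) (b (l 4) (l 104924726727)))) (b (a (l 202635214967) (a (l 97408533783) (l 16782008))) (a (b (a (l 102777243319) (l 16776832)) (c (l 16783512) (l 36742118375))) (l 16773352)))))) (a (b (a (l 4) (b (l 4) (a (l 4) (b (l 177402282423) (l 58216951367))))) (a (b (a (l 4) (l 198877119623)) (a (b (l 4) (l 105461595719)) (a (l 53385114231) (l 16774728)))) (b (a (b (l 97408531783) (l 16775784)) (l 16773040)) (l 16769600)))) (b (a (b (a (b (l 219278213559) (l 90966080615)) (l 32984018679)) (a (l 16774408) (l 16770912))) (b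 (a (l 16772296) (a (l 16770120) (l 16768680))) (l 16766376))) (a (a (l 16766784) (l 16763472)) (l 16759112)))))), by decide +kernel⟩

def k8_pm_001_t : ∃ t, chk3 f_pm_001_t t 13 25 1 = true :=
  ⟨(a (b (a (b (l 4) (a (l 4) (b (l 4) (a (l 4) (b (l 216593860903) (c (l 75933692375) (l 75933692215))))))) (a (b (b (l 4) (a (l 4) (l 211762022855))) (b (a (b (l 4) (l 160759284903)) (b (l 74859950823) (l 16774384))) (a (c (l 16779760) (l 16782248)) (l 16769424)))) (b (b (a (l 4) (b (l 201561474263) (l 70564983495))) (a (b (l 155390575431) (l 16781320)) (l 16772816))) (b (l 16771424) (l 16762360))))) (a (b (b (a (a (l 4) (l 219815088215)) (a (b (l 163980510727) (l 31373403303)) (l 16772632))) (b (a (a (l 4) (a (l 118883363671) (l 16776560))) (l 16769984)) (a (a (l 163980511079) (l 16774288)) (l 16766528)))) (a (b (a (b (l 35131499575) (l 16772448)) (l 16769000)) (l 16772400)) (l 16773496))) (b (a (b (l 16775616) (l 16758328)) (l 16773320)) (a (l 16768888) (l 16738640)))))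 (a (b (b (a (b (a (l 16782304) (l 16770016)) (l 16776640)) (l 16782040)) (a (l 16777768) (l 16748952))) (b (c (l 16761688) (l 16762232)) (c (l 16748344) (l 16745776)))) (b (a (c (l 16770352) (l 16767928)) (l 16763560)) (b (l 16747384) (l 16733888))))), by decide +kernel⟩

def k9_pm_001_t : ∃ t, chk3 f_pm_001_t t 6 13 1 = true :=
  ⟨(a (b (a (l 2) (b (a (l 2) (a (l 2) (a (l 2) (b (l 16772264) (l 2))))) (l 2))) (l 2)) (a (b (b (a (a (b (l 16767072) (l 16750576)) (b (l 16764752) (l 16729872))) (b (c (l 16750984) (l 16749192)) (c (l 16737200) (l 16734952)))) (a (a (l 2) (b (l 16737208) (l 2))) (a (a (l 44123972359) (l 42513349655)) (a (l 39828985191) (l 16708304))))) (b (a (l 2) (b (c (l 60766925399) (l 54861338615)) (l 2))) (l 2))) (b (b (a (b (l 16732984) (l 16718672)) (b (l 16719776) (l 16705192))) (a (b (l 16704344) (l 16690224)) (b (l 16669328) (l 16675368)))) (a (a (b (b (l 16660168) (l 62377466199)) (l 2)) (b (b (l 16651248) (l 16637904)) (b (l 71504226343)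 (l 2)))) (b (b (l 16660672) (c (l 16628728) (l 16622328))) (a (b (c (l 16619560) (l 16612928)) (l 88147177959)) (b (l 16608128) (c (l 16599064) (l 16591352))))))))), by decide +kernel⟩

def k10_pm_001_t : ∃ t, chk3 f_pm_001_t t 6 7 1 = true :=
  ⟨(b (a (l 2) (b (a (l 2) (b (a (l 2) (a (l 2) (b (b (l 92978972599) (l 2)) (l 2)))) (l 2))) (l 2))) (l 2)), by decide +kernel⟩

def k11_pm_001_t : ∃ t, chk3 f_pm_001_t t 7 12 1 = true :=
  ⟨(a (b (a (b (a (b (a (b (a (l 4) (b (l 4) (l 97408531559))) (a (b (l 181160378263) (l 71101854167)) (l 16775112))) (b (a (l 16781264) (l 16772936)) (l 16770656))) (a (c (l 16781688) (l 16780744)) (l 16765064))) (b (a (l 16767104) (l 16762440)) (l 16768024))) (a (a (b (b (l 16765008) (a (l 16783488) (l 16759832))) (a (l 16755648) (l 16764056))) (b (l 16757632) (a (l 16751424) (l 16749072)))) (c (l 16759672) (l 16765216)))) (b (a (a (l 16755120) (l 16752392)) (l 16749840)) (a (l 16750440) (l 16736200)))) (a (b (a (a (l 16759512) (b (a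 (l 16742184) (l 16740920)) (l 16730344))) (a (b (l 16738312) (l 16729304)) (b (l 16734480) (l 16727536)))) (a (b (l 16718704) (l 16705232)) (b (a (l 16717432) (l 16718280)) (l 16704512)))) (a (b (l 16726392) (a (b (l 16717872) (l 16708368)) (l 16712392))) (b (l 16722808) (l 16710080))))) (a (b (b (a (l 16748016) (l 16748000)) (a (l 16735600) (l 16736520))) (b (a (l 16721648) (l 16723592)) (a (l 16708400) (l 16709728)))) (b (a (b (l 16749832) (l 16739184)) (b (l 16753088) (l 16743264))) (a (b (l 16727032) (l 16713888)) (b (l 16731792) (l 16719192)))))), by decide +kernel⟩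

def k12_pm_001_t : ∃ t, chk3 f_pm_001_t t 7 13 1 = true :=
  ⟨(a (a (b (b (a (b (l 16690968) (l 16676104)) (l 16703552)) (a (b (l 16660784) (l 16645144)) (b (l 16659104) (l 16642800)))) (b (a (b (l 16629384) (l 16613808)) (b (l 16626200) (l 16609456))) (a (b (c (l 16602992) (l 16594624)) (b (l 16608960) (a (l 16584360) (l 16578544)))) (b (l 16592816) (a (b (l 16581664) (l 16574336)) (b (l 16580464) (l 16573288))))))) (b (a (b (a (l 16687208) (b (l 16699648) (l 16685144))) (b (l 16665856) (l 16648840))) (b (a (b (l 16701984) (l 16691992)) (l 16697944)) (b (a (l 16676560) (l 16685096)) (l 16663720)))) (b (a (b (l 16631288) (l 16613480)) (b (l 16645440) (l 16627040))) (a (b (a (l 16594496) (l 16598136)) (a (l 16577752) (l 16581992))) (b (a (l 16603592) (l 16611664)) (l 16590944)))))) (b (a (b (a (l 16696704) (l 16696672)) (a (b (l 16689040) (a (l 16678960) (l 16684328))) (l 16686288))) (b (a (l 16700392) (l 16706024)) (a (l 16689264) (l 16694168)))) (a (b (a (b (l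 16667120) (l 16647960)) (b (a (l 16680688) (l 16680480)) (a (l 16667232) (l 6)))) (a (b (l 16627720) (l 16608520)) (l 6))) (b (a (b (l 16679488) (l 6)) (l 6)) (l 6))))), by decide +kernel⟩

def k13_pm_001_t : ∃ t, chk3 f_pm_001_t t 7 7 1 = true :=
  ⟨(b (a (b (a (b (a (b (a (c (b (c (l 28017576231) (l 16580400)) (l 40902471015)) (b (l 16573936) (l 16568016))) (c (b (l 16576368) (l 16571032)) (l 16564120))) (c (a (l 34996873655) (l 36070600407)) (a (l 16560032) (l 16553200)))) (b (a (c (l 16570576) (l 16560168)) (l 16584872)) (c (a (l 16558640) (l 16557296)) (l 16546592)))) (b (b (a (c (a (l 2) (l 30165002967)) (l 43049912919)) (c (a (l 16549512) (l 16547688)) (l 16537560))) (a (l 2) (c (a (l 16543352) (l 16541224)) (l 16531608)))) (a (l 2) (a (a (l 2) (l 6)) (l 6))))) (b (a (b (a (l 16564688) (l 16567616)) (a (c (l 16558568) (l 16544800)) (c (l 16561936) (l 16546152)))) (b (c (l 16584656) (l 16566080)) (l 6))) (l 6))) (a (a (l 2) (l 6)) (l 6))) (l 6)) (l 6)), by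 decide +kernel⟩

theorem s14_pm_001_t : ∃ t, chk3 f_pm_001_t t 7 6 1 = true := ex3_b k11_pm_001_t k12_pm_001_t

theorem s15_pm_001_t : ∃ t, chk3 f_pm_001_t t 7 3 1 = true := ex3_b s14_pm_001_t k13_pm_001_t

theorem s16_pm_001_t : ∃ t, chk3 f_pm_001_t t 13 12 1 = true := ex3_b k7_pm_001_t k8_pm_001_t

theorem s17_pm_001_t : ∃ t, chk3 f_pm_001_t t 6 12 1 = true := ex3_a k6_pm_001_t s16_pm_001_t

theorem s18_pm_001_t : ∃ t, chk3 f_pm_001_t t 6 6 1 = true := ex3_b s17_pm_001_t k9_pm_001_t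

theorem s19_pm_001_t : ∃ t, chk3 f_pm_001_t t 6 3 1 = true := ex3_b s18_pm_001_t k10_pm_001_t

theorem s20_pm_001_t : ∃ t, chk3 f_pm_001_t t 3 3 1 = true := ex3_a s19_pm_001_t s15_pm_001_t

theorem s21_pm_001_t : ∃ t, chk3 f_pm_001_t t 7 11 1 = true := ex3_a k4_pm_001_t k5_pm_001_t

theorem s22_pm_001_t : ∃ t, chk3 f_pm_001_t t 7 5 1 = true := ex3_b k3_pm_001_t s21_pm_001_t

theorem s23_pm_001_t : ∃ t, chk3 f_pm_001_t t 3 5 1 = true := ex3_a k2_pm_001_t s22_pm_001_t

theorem s24_pm_001_t : ∃ t, chk3 f_pm_001_t t 3 2 1 = true := ex3_b k1_pm_001_t s23_pm_001_t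

theorem s25_pm_001_t : ∃ t, chk3 f_pm_001_t t 3 1 1 = true := ex3_b s24_pm_001_t s20_pm_001_t

theorem s26_pm_001_t : ∃ t, chk3 f_pm_001_t t 1 1 1 = true := ex3_a k0_pm_001_t s25_pm_001_t

theorem c_pm_001_t : CertNE 0 536870912 536870912 536870912 587336777 62277027 3 eng mog cd0q0 cd0q1 pd0 false true false .up 0 0 1
    ndB0q0 ndB0q1 pcB0 cut_pm_001_t Ext.none :=
  certNE0 (fam := false) (s1 := true) (s2 := false) (a := 0) (b := 0) (c := 1) (cn := .up) (n1 := ndB0q0) (n2 := ndB0q1) (pc := pcB0) (cut := cut_pm_001_t) (xt := Ext.none) (P1 := 0) (W1 := 536870912) (P2 := 536870912) (W2 := 536870912) (P3 := 587336777) (W3 := 62277027) (N0 := 3) (En := eng) (mo := mog) (C1 := cd0q0) (C2 := cd0q1) (C3 := pd0)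
    rfl s26_pm_001_t

noncomputable def cut_pm_011_s : Cut := Cut.of [[⟨4, 0, 0, 1449551462⟩], [⟨0, 0, 0, 67108864⟩, ⟨1, 1, 0, 67108864⟩, ⟨2, 1, 0, 67108864⟩]]

noncomputable def f_pm_011_s : ℕ → ℕ → ℕ → ℕ → Bool := onCell 0 536870912 536870912 536870912 587336777 62277027
    (rowNE 3 eng mog cd0q0 cd0q1 pd1 0 false true false .pnn 0 1 1 (qsf 0 536870912 536870912 536870912 1) ndB0q0 ndB0q1 pcB1 cut_pm_011_s Ext.none)

def k0_pm_011_s : ∃ t, chk3 f_pm_011_s t 1 1 1 = true :=
  ⟨(l 6), by decide +kernel⟩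

theorem c_pm_011_s : CertNE 0 536870912 536870912 536870912 587336777 62277027 3 eng mog cd0q0 cd0q1 pd1 false true false .pnn 0 1 1
    ndB0q0 ndB0q1 pcB1 cut_pm_011_s Ext.none :=
  certNE0 (fam := false) (s1 := true) (s2 := false) (a := 0) (b := 1) (c := 1) (cn := .pnn) (n1 := ndB0q0) (n2 := ndB0q1) (pc := pcB1) (cut := cut_pm_011_s) (xt := Ext.none) (P1 := 0) (W1 := 536870912) (P2 := 536870912) (W2 := 536870912) (P3 := 587336777) (W3 := 62277027) (N0 := 3) (En := eng) (mo := mog) (C1 := cd0q0) (C2 := cd0q1) (C3 := pd1)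
    rfl k0_pm_011_s

end Pool.Agent.Strip051.G.I5470_6050.Tab.CS.BB00

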