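import Pool.Agent.Strip051.G.I5470_6050.Tab
import Pool.Agent.Strip051.PB.StripB

/-! # Strips, near vertex: certificates 5 (generated) -/

set_option linter.all false
set_option maxRecDepth 100000

namespace Pool.Agent.Strip051.G.I5470_6050.Tab.CS.BB00

open Pool.Agent.Strip051.PB Pool.Agent.Strip051.PB.T
open Pool.Agent.Strip051.G.I5470_6050.Tab

noncomputable def cut_pm_011_t : Cut := Cut.of [[⟨3, 0, 0, 2845415833⟩], [⟨0, 0, 0, 67108864⟩, ⟨1, 1, 0, 67108864⟩, ⟨2, 1, 0, 67108864⟩]]

noncomputable def f_pm_011_t : ℕ → ℕ → ℕ → ℕ → Bool := onCell 0 536870912 536870912 536870912 587336777 62277027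
    (rowNE 3 eng mog cd0q0 cd0q1 pd1 0 false true false .pnn 0 1 1 (qsf 0 536870912 536870912 536870912 1) ndB0q0 ndB0q1 pcB1 cut_pm_011_t Ext.none)

def k0_pm_011_t : ∃ t, chk3 f_pm_011_t t 1 2 1 = true :=
  ⟨(a (l 4) (b (l 1) (a (l 4) (l 1)))), by decide +kernel⟩

def k1_pm_011_t : ∃ t, chk3 f_pm_011_t t 4 6 1 = true :=
  ⟨(l 4), by decide +kernel⟩

def k2_pm_011_t : ∃ t, chk3 f_pm_011_t t 5 12 1 = true :=
  ⟨(l 4), by decide +kernel⟩

def k3_pm_011_t : ∃ t, chk3 f_pm_011_t t 10 13 1 = true :=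
  ⟨(l 4), by decide +kernel⟩

def k4_pm_011_t : ∃ t, chk3 f_pm_011_t t 11 26 1 = true :=
  ⟨(l 4), by decide +kernel⟩

def k5_pm_011_t : ∃ t, chk3 f_pm_011_t t 22 27 1 = true :=
  ⟨(b (l 4) (a (l 4) (b (l 4) (a (l 4) (b (l 4) (a (l 4) (b (b (l 4) (a (l 4) (a (l 4) (b (c (l 197266507575) (l 201561474839)) (a (c (l 109756549543) (l 160222413447)) (c (l 16777000) (l 5603591655))))))) (b (b (a (l 4) (a (a (l 197803377911) (b (l 118883354391) (l 16777064))) (l 16777008))) (a (a (l 4) (a (l 4) (b (l 4) (l 87207970391)))) (a (a (a (l 43184555495) (l 16776824)) (l 16776344)) (l 16775400)))) (a (b (b (a (l 4) (a (l 117809612567) (l 16776904))) (a (l 197266507127) (l 16777728))) (a (a (c (l 108145936807) (l 158611800711)) (c (l 16776992) (l 16777960))) (l 16776032))) (a (l 16775568) (l 16773984))))))))))), by decide +kernel⟩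

def k6_pm_011_t : ∃ t, chk3 f_pm_011_t t 23 54 1 = true :=
  ⟨(a (l 4) (b (a (l 4) (b (l 4) (a (l 4) (b (l 4) (a (l 4) (c (l 196192768663) (l 200487735863))))))) (a (b (l 4) (a (a (l 4) (a (l 4) (a (l 4) (b (l 4) (l 202098346439))))) (b (b (l 4) (a (l 4) (a (l 199950862823) (a (l 88281714567) (l 16777048))))) (a (a (b (l 4) (a (l 97408520103) (l 28152171511))) (b (l 152169350519) (l 16776160))) (a (b (l 16778744) (l 16774856)) (l 16774504)))))) (b (a (b (l 4) (a (c (l 199413994615) (l 204245831399)) (a (b (l 4) (l 52848234583)) (b (l 91502941111) (l 16775928))))) (b (b (a (l 4) (a (l 83986748071) (l 16776400))) (a (a (l 187602831415) (l 16778456)) (l 16775144))) (a (c (l 16774968) (l 16776200)) (l 16772312)))) (b (b (a (a (a (l 100092875767) (l 16776664)) (l 16774688)) (l 16770784)) (a (c (l 16774152) (l 16774544)) (l 16768896))) (a (a (l 16775184) (l 16769976)) (c (l 16766248) (l 16765904)))))))), by decide +kernel⟩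

def k7_pm_011_t : ∃ t, chk3 f_pm_011_t t 46 110 1 = true :=
  ⟨(a (l 4) (b (a (l 4) (b (l 4) (a (l 4) (a (b (l 4) (b (l 188139701751) (a (l 80765520295) (l 16776816)))) (a (b (l 4) (l 16777968)) (b (b (l 4) (l 76470552919)) (l 16776000))))))) (a (b (b (l 4) (a (l 4) (a (l 4) (b (l 193508410983) (a (c (l 88818583863) (l 89892325655)) (l 16776880)))))) (b (b (a (l 4) (a (a (l 189750314071) (c (l 16777864) (l 46942652311))) (l 16776240))) (a (a (l 4) (a (l 4) (a (l 125862676663) (l 75933681463)))) (a (a (l 16777560) (l 16776256)) (l 16775296)))) (b (b (a (a (l 4) (a (l 96334776071) (l 16776824))) (l 16775560)) (a (a (l 193508410647) (l 16777328)) (l 16776064))) (a (a (a (b (l 4) (l 77007423031)) (c (l 16776936) (l 16777576))) (l 16775960)) (l 16774704))))) (b (b (b (a (a (l 4) (a (l 134989482743) (l 16777816))) (l 16775544)) (a (a (a (l 4) (l 85060487575)) (l 16776528)) (l 16774600))) (a (a (a (b (l 45868910455) (l 16776232)) (l 16776064)) (l 16775104)) (l 16774496))) (a (a (c (l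 16774920) (l 16774144)) (c (l 16772360) (l 16773504))) (b (l 16772608) (l 16769416))))))), by decide +kernel⟩

def k8_pm_011_t : ∃ t, chk3 f_pm_011_t t 47 110 1 = true :=
  ⟨(a (b (a (b (a (b (l 4) (a (l 4) (b (l 181697250663) (l 36205234743)))) (b (a (b (l 4) (l 93650423207)) (b (l 61438167975) (l 16776368))) (c (l 16775632) (l 16776232)))) (b (a (a (b (c (l 67343748007) (l 68417489799)) (l 16776456)) (l 16775640)) (l 16773712)) (a (l 16774560) (l 16771824)))) (a (b (a (l 16774608) (l 16773320)) (l 16771504)) (b (l 16772696) (l 16767616)))) (a (a (c (b (l 16774280) (l 16767952)) (b (l 16772784) (l 16768296))) (b (a (l 16769640) (l 16768360)) (b (l 16766176) (l 16764296)))) (c (b (l 16766648) (a (l 16762904) (l 16760376))) (b (a (l 16766256) (l 16763640)) (a (l 16762440) (l 16759824)))))) (b (c (a (b (l 16770280) (l 16763952)) (a (l 16761976) (l 16759416))) (a (b (l 16768656) (l 16764840)) (a (l 16762800) (l 16758856)))) (b (a (a (l 16761280) (l 16758696)) (c (l 16755168) (l 16754792)))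 (a (a (l 16757536) (l 16754952)) (c (l 16751488) (l 16750672)))))), by decide +kernel⟩

def k9_pm_011_t : ∃ t, chk3 f_pm_011_t t 23 222 1 = true :=
  ⟨(a (a (b (a (l 4) (b (a (l 4) (a (b (l 4) (a (l 4) (b (l 4) (l 81302390359)))) (b (a (l 194045281447) (b (l 109756548903) (l 16777016))) (a (a (l 16341009815) (l 16776776)) (l 16776296))))) (a (a (l 4) (b (c (l 195655894791) (l 201024603879)) (a (b (l 4) (l 83449874039)) (c (l 16778280) (l 16777936))))) (a (a (b (b (l 112977774375) (l 16777032)) (l 16776312)) (l 16776480)) (c (l 16775232) (l 16775168)))))) (b (b (a (l 4) (a (a (a (l 197803377879) (b (l 115662128919) (l 16777048))) (l 16776976)) (l 16775072))) (a (a (l 4) (a (l 4) (a (l 4) (b (l 4) (l 85060486791))))) (a (a (a (a (l 42110813639) (l 16776808)) (l 16776328)) (l 16775376)) (l 16774784)))) (a (a (l 4) (b (b (a (l 4) (a (l 117272741671) (l 16776888))) (a (l 197803378039) (l 16777720))) (a (a (c (l 109756549543) (l 159685542535)) (c (l 16776992) (l 3992978903))) (l 16776024))))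 (a (a (a (l 16775544) (l 16774912)) (l 16773960)) (l 16773048))))) (b (a (a (a (b (a (l 16776464) (l 16775496)) (l 16773928)) (b (l 16775856) (l 16772656))) (b (a (l 16773272) (l 16772000)) (l 16771408))) (a (a (l 16770440) (l 16768792)) (c (l 16766768) (l 16766744)))) (a (a (b (l 16772064) (l 16769528)) (c (l 16768736) (l 16768424))) (a (a (l 16766344) (l 16764744)) (a (l 16763472) (l 16762200)))))) (b (a (a (c (a (l 16764256) (l 16761736)) (a (l 16763824) (l 16761224))) (a (l 16759576) (l 16756360))) (c (a (l 16752896) (l 16747816)) (a (l 16752768) (l 16746880)))) (a (a (a (l 16760944) (l 16757736)) (c (l 16754272) (l 16754176))) (a (c (l 16749224) (l 16748320)) (c (l 16744160) (l 16743104)))))), by decide +kernel⟩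

def k10_pm_011_t : ∃ t, chk3 f_pm_011_t t 23 223 1 = true :=
  ⟨(b (a (a (b (a (a (a (b (l 4) (a (l 4) (b (l 4) (l 88281712215)))) (b (a (l 197803377911) (b (l 118346483511) (l 16777064))) (a (a (l 43721426407) (l 16776824)) (l 16776344)))) (a (a (l 16776680) (l 16775552)) (l 16775912))) (a (a (l 16773344) (l 16772072)) (l 16770504))) (a (a (a (a (b (b (l 119420225303) (l 16777064)) (l 16776344)) (l 16776680)) (l 16775568)) (c (l 16773416) (l 16774592))) (a (l 16771480) (l 16768456)))) (a (c (a (l 16766880) (l 16764384)) (a (l 16766848) (l 16763944))) (a (a (l 16762264) (l 16760992)) (l 16760400)))) (a (a (a (l 16756544) (l 16753992)) (c (l 16750600) (l 16749728))) (a (a (l 16746328) (l 16743768)) (l 16741232)))) (a (a (a (a (b (a (l 16775928) (l 16773352)) (l 16773408)) (a (l 16772464) (l 16770544))) (c (c (l 16769624) (l 16768136)) (a (l 16768496) (l 16765928)))) (a (a (a (l 16763576) (l 16762312)) (l 16761720)) (a (l 16757880) (l 16755344)))) (a (a (c (l 16751952) (l 16751104))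 (c (l 16746936) (l 16745936))) (a (l 16742640) (l 16736208))))), by decide +kernel⟩

def k11_pm_011_t : ∃ t, chk3 f_pm_011_t t 4 14 1 = true :=
  ⟨(a (l 4) (b (l 4) (a (l 4) (b (l 4) (a (l 4) (b (l 4) (a (b (l 4) (a (l 4) (b (l 4) (b (a (l 4) (c (l 162369899175) (l 165591124551))) (b (a (l 4) (a (l 111904033991) (l 16776744))) (a (l 175254800775) (l 16778968))))))) (b (a (l 4) (b (a (l 4) (a (l 4) (l 186529091799))) (b (a (l 4) (a (l 141968802967) (l 16778760))) (a (a (l 162369898311) (l 41573945367)) (l 16775440))))) (b (b (a (a (l 4) (a (l 183844735431) (a (l 93113552695) (l 16778480)))) (a (l 16778416) (l 16773520))) (a (a (c (l 148948125735) (a (l 4) (l 87744844279))) (c (l 16778792) (l 16778744))) (l 16775360))) (a (a (a (b (a (l 54458846503) (l 16776776)) (l 16775128)) (l 16776264)) (l 16773912)) (b (l 16773440) (a (l 16770024) (l 16767760))))))))))))), by decide +kernel⟩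

def k12_pm_011_t : ∃ t, chk3 f_pm_011_t t 8 30 1 = true :=
  ⟨(a (l 4) (b (l 4) (a (l 4) (b (l 4) (a (l 4) (b (l 4) (a (l 4) (b (l 4) (a (a (l 4) (b (l 4) (b (l 4) (a (a (l 4) (b (l 4) (l 70028100743))) (b (c (l 81839261143) (l 79691777559)) (l 16776904)))))) (b (a (l 4) (b (c (l 177939154759) (l 182234121991)) (b (a (l 4) (l 46405780903)) (a (l 53385102855) (l 16776720))))) (a (a (b (a (l 169349219271) (b (l 4) (l 16777864))) (l 16777256)) (b (b (a (l 86671099527) (l 16777184)) (l 16776816)) (l 16776032))) (c (l 16776400) (c (l 16776344) (l 16776304)))))))))))))), by decide +kernel⟩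

def k13_pm_011_t : ∃ t, chk3 f_pm_011_t t 16 31 1 = true :=
  ⟨(b (b (l 4) (l 14)) (l 14)), by decide +kernel⟩

def k14_pm_011_t : ∃ t, chk3 f_pm_011_t t 34 124 1 = true :=
  ⟨(a (l 4) (b (l 4) (a (l 4) (a (l 4) (b (l 4) (b (l 4) (b (a (l 4) (b (a (l 4) (a (l 4) (b (l 4) (l 65733133095)))) (a (a (l 4) (a (l 104924710375) (l 91502936999))) (a (a (l 43721425895) (l 16777760)) (l 16776888))))) (a (b (a (l 4) (c (l 158074929879) (c (l 160759284423) (l 162369897143)))) (b (a (l 4) (a (l 103850967815) (l 16777096))) (a (l 160759284263) (l 16777624)))) (a (a (b (a (l 58753811335) (l 16777464)) (l 16776680)) (l 16777152)) (c (l 16776256) (l 16776208))))))))))), by decide +kernel⟩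

def k15_pm_011_t : ∃ t, chk3 f_pm_011_t t 68 125 1 = true :=
  ⟨(b (b (l 4) (l 14)) (l 14)), by decide +kernel⟩

def k16_pm_011_t : ∃ t, chk3 f_pm_011_t t 69 500 1 = true :=
  ⟨(b (a (l 4) (a (b (a (l 4) (b (a (l 4) (c (l 168275477335) (l 172570444599))) (b (a (l 4) (a (l 137673835223) (l 16777496))) (a (l 174717928103) (l 8287945511))))) (a (a (l 4) (b (l 4) (b (a (l 4) (l 46405780215)) (a (l 51774489367) (l 16776976))))) (b (a (b (a (l 104924710151) (l 16777528)) (c (l 16777736) (l 16777648))) (l 16776648)) (c (l 16776416) (l 16776704))))) (a (b (b (a (b (a (l 116198998855) (l 16777128)) (l 16777664)) (l 16776576)) (c (l 16776344) (l 16776304))) (a (c (l 16777152) (l 16776424)) (l 16775888))) (b (a (c (l 16777080) (l 16776352)) (l 16775816)) (c (l 16774456) (l 16774960)))))) (a (a (l 4) (a (a (l 4) (b (l 4) (b (l 4) (b (c (l 154853704199) (l 158074929655)) (a (l 108145935127) (l 16777440)))))) (a (b (l 4) (b (a (b (l 4) (l 93113549623)) (b (l 87207969559) (l 16777072))) (c (l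 16777480) (l 16777464)))) (b (b (l 4) (a (b (l 4) (l 78081164055)) (b (l 73249325863) (l 16777040)))) (c (l 16777184) (c (l 16777160) (l 16776976))))))) (a (a (b (b (a (a (b (l 4) (l 65196262151)) (b (l 57143198519) (l 16777008))) (l 16777368)) (a (l 16777080) (l 16776832))) (a (b (l 16776864) (l 16775672)) (c (l 16775416) (l 16775976)))) (b (a (c (l 16776568) (l 16776496)) (l 16775960)) (c (l 16775896) (l 16775104)))) (a (b (c (l 16774520) (l 16775032)) (l 16774032)) (b (l 16773968) (l 16772240)))))), by decide +kernel⟩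

def k17_pm_011_t : ∃ t, chk3 f_pm_011_t t 69 501 1 = true :=
  ⟨(b (b (a (a (b (l 4) (l 14)) (a (a (a (b (l 166127993415) (c (l 16777688) (l 16777512))) (b (b (l 114051515191) (l 16777472)) (l 16776744))) (a (b (l 16777480) (l 16777112)) (l 16776768))) (b (a (c (l 16776960) (l 16776912)) (l 16775704)) (c (l 16776152) (l 16776064))))) (a (a (c (l 16775960) (l 16775168)) (l 16773768)) (a (l 16772304) (l 16771168)))) (a (a (l 14) (b (a (a (a (l 14) (l 16776200)) (l 16775776)) (l 16775248)) (a (a (l 14) (l 16775232)) (l 16774376)))) (a (a (a (l 16773792) (l 16773224)) (l 16772368)) (c (l 16770832) (l 16771152))))) (a (a (l 14) (a (a (l 14) (b (l 16774424) (l 14))) (b (c (l 16773664) (l 16773480)) (l 16773144)))) (a (a (b (l 16772432) (l 16771352)) (a (l 16771696) (l 16770472))) (c (l 16770080) (a (l 16769424) (l 16768264)))))), by decide +kernel⟩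

def k18_pm_011_t : ∃ t, chk3 f_pm_011_t t 69 251 1 = true :=
  ⟨(a (a (l 14) (a (l 14) (b (b (c (l 16771032) (l 16771368)) (l 14)) (l 14)))) (b (b (c (a (c (l 16770784) (l 16769272)) (l 16767168)) (a (a (l 16769544) (l 16768384)) (c (l 16766776) (l 16766504)))) (c (a (l 16768584) (l 16765072)) (a (c (l 16766880) (l 16766616)) (l 16765744)))) (b (a (a (l 14) (l 16764288)) (a (l 16763160) (l 16762032))) (a (l 14) (a (l 16761000) (l 16759880)))))), by decide +kernel⟩

def k19_pm_011_t : ∃ t, chk3 f_pm_011_t t 70 248 1 = true :=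
  ⟨(a (l 4) (b (l 4) (b (a (l 4) (a (l 4) (a (l 4) (b (l 4) (a (l 176865412151) (b (l 4) (l 61438166183))))))) (a (b (l 4) (b (l 4) (a (l 4) (a (l 4) (c (l 156464317111) (l 159685542551)))))) (a (a (b (l 4) (b (c (l 108682806839) (l 153243091543)) (a (l 31373395015) (l 16776904)))) (b (b (l 4) (c (l 101703484919) (l 146800640519))) (b (l 8287945767) (l 16776480)))) (b (b (a (a (l 4) (l 72712455335)) (l 16777576)) (a (l 16777616) (l 16776400))) (c (l 16775928) (l 16775856)))))))), by decide +kernel⟩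

def k20_pm_011_t : ∃ t, chk3 f_pm_011_t t 70 498 1 = true :=
  ⟨(b (a (l 4) (a (b (a (a (l 4) (c (l 171496703239) (l 175791670487))) (a (b (l 164517380839) (a (l 49627006135) (l 16776992))) (b (a (l 41037071479) (l 16776952)) (l 16776568)))) (a (b (a (l 176865411959) (a (l 62511907943) (l 16777032))) (a (a (c (l 72175584359) (l 72175584343)) (l 16777720)) (l 16776648))) (c (l 16776088) (l 16776680)))) (a (b (c (l 16776008) (l 16775944)) (c (l 16776288) (l 16776168))) (b (c (l 16776208) (l 16776088)) (l 16773784))))) (a (a (l 4) (a (b (l 4) (b (a (l 4) (a (c (l 109219677255) (l 110293419063)) (l 31373395015))) (a (b (c (l 88281712311) (l 115662128247)) (c (l 42647684231) (l 43721426039))) (l 16777456)))) (b (a (b (l 4) (a (a (l 101703484871) (l 79154906151)) (l 23857202167))) (b (a (c (l 82913002599) (l 86134228055)) (l 16777760)) (l 16776728))) (c (l 16776896) (c (l 16776856) (l 16776832)))))) (a (b (a (c (l 16776160) (l 16776760)) (a (l 16776592) (l 16774712))) (a (a (l 16776016)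 (l 16774792)) (l 16773944))) (a (b (l 16773864) (l 16772808)) (c (l 16772328) (l 16772072)))))), by decide +kernel⟩

def k21_pm_011_t : ∃ t, chk3 f_pm_011_t t 70 499 1 = true :=
  ⟨(b (a (a (a (b (l 4) (a (b (l 4) (a (l 4) (b (l 4) (l 16777560)))) (b (a (l 4) (a (l 99019129831) (l 56606327687))) (c (l 16777616) (l 16777600))))) (a (b (b (l 4) (a (l 173107315335) (a (l 85597357047) (l 41573942231)))) (a (c (l 16777464) (l 16777440)) (l 16776512))) (b (b (a (l 166127993399) (c (l 51774489623) (l 48553264215))) (l 16777536)) (l 16776088)))) (b (a (b (c (l 16777232) (l 16777152)) (l 16776680)) (a (l 16776096) (l 16774872))) (a (a (l 16776168) (l 16774944)) (l 16774744)))) (a (a (b (l 16774672) (l 16772960)) (c (l 16772472) (l 16772224))) (a (a (l 16771504) (l 16770936)) (l 16770744)))) (a (a (b (a (b (a (c (l 16777656) (c (l 16777640) (l 16777720))) (l 16776424)) (c (l 16776208) (l 16776152))) (a (l 16776248) (l 16775016))) (a (a (a (l 16776464) (l 16775520)) (l 16775752)) (c (l 16774312)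 (l 16774160)))) (a (b (a (l 16774448) (l 16773880)) (l 16773104)) (c (l 16772616) (l 16773032)))) (a (a (a (l 16771648) (l 16771080)) (a (l 16770520) (l 16769952))) (a (l 16769760) (l 16767976))))), by decide +kernel⟩

def k22_pm_011_t : ∃ t, chk3 f_pm_011_t t 142 124 1 = true :=
  ⟨(a (b (b (a (l 4) (a (l 4) (b (l 4) (b (l 4) (b (l 4) (a (l 74323068439) (l 16777784))))))) (b (a (b (b (l 4) (a (l 4) (a (l 117809611895) (l 16777856)))) (a (b (a (l 99019130631) (l 49090135127)) (l 16777536)) (l 16777232))) (a (b (b (a (l 82376132199) (l 16777824)) (l 16776792)) (l 16776008)) (b (l 16776488) (l 16776752)))) (b (a (a (l 16776096) (l 16776832)) (l 16775328)) (a (c (l 16774816) (l 16776000)) (l 16773624))))) (a (b (c (b (l 16774592) (l 16771224)) (b (l 16773728) (l 16770912))) (b (l 16768960) (l 16766848))) (b (b (c (l 16772176) (l 16771912)) (l 16770600)) (b (l 16767840) (l 16765728))))) (b (a (b (b (l 4) (a (b (l 179012896071) (b (c (l 43721426343) (l 41573942679)) (l 16776704))) (b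 (b (l 172033573703) (c (l 16777832) (l 34057749863))) (l 16776400)))) (b (b (l 16775800) (l 16775248)) (c (l 16773120) (l 16773560)))) (b (b (b (l 4) (b (a (l 4) (l 158611800743)) (a (l 165591122679) (l 21172847815)))) (b (a (c (l 16777864) (c (l 16777848) (l 16777920))) (l 16776312)) (l 16775552))) (b (b (l 16775816) (l 16773456)) (a (l 16772168) (l 16771608))))) (b (a (b (l 16771576) (l 16768816)) (b (l 16769792) (l 16767688))) (a (b (l 16766712) (l 16764608)) (c (l 16764856) (l 16764864)))))), by decide +kernel⟩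

def k23_pm_011_t : ∃ t, chk3 f_pm_011_t t 143 124 1 = true :=
  ⟨(b (b (b (a (a (b (b (a (l 4) (a (l 4) (l 68417488423))) (a (l 109756548647) (l 16777656))) (a (a (l 16777904) (l 16776648)) (l 16776224))) (b (a (l 16777680) (l 16776128)) (a (l 16776968) (l 16775088)))) (a (b (a (l 16776872) (l 16775000)) (l 16775552)) (a (l 16774568) (l 16773344)))) (a (b (a (b (l 16777032) (l 16776512)) (l 16775640)) (a (l 16775728) (l 16773288))) (a (c (l 16772792) (l 16772560)) (l 16772208)))) (b (a (a (c (l 16772960) (l 16772736)) (l 16772048)) (c (l 16770208) (l 16770504))) (a (a (l 16770760) (l 16769632)) (a (l 16768512) (l 16767384))))) (b (c (a (a (l 16767856) (l 16766760)) (l 16765776)) (b (a (l 16767872) (l 16765568)) (a (l 16765720) (l 16763424)))) (c (a (l 16764528) (l 16761040)) (a (a (l 16763064) (l 16761920)) (c (l 16760424) (l 16759992)))))), by decide +kernel⟩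

def k24_pm_011_t : ∃ t, chk3 f_pm_011_t t 35 250 1 = true :=
  ⟨(a (a (b (b (b (a (a (c (l 16774384) (l 16774232)) (l 16773176)) (c (l 16771616) (l 16771976))) (a (a (l 16773240) (l 16772104)) (c (l 16770576) (l 16770224)))) (a (a (c (l 16771784) (l 16772152)) (c (l 16770672) (l 16770328))) (c (l 16769016) (c (l 16768696) (l 16769784))))) (b (c (a (l 16769800) (l 16766936)) (a (c (l 16768824) (l 16769264)) (l 16767056))) (a (a (l 16768008) (l 16766224)) (a (l 16765096) (l 16763976))))) (b (b (a (a (l 16769736) (l 16768112)) (a (l 16766984) (l 16765856))) (c (a (l 16766816) (l 16764624)) (a (l 16766928) (l 16763968)))) (c (a (c (l 16763880) (l 16764840)) (l 16762832)) (a (b (l 16764088) (l 16761904)) (a (l 16761920) (l 16760120)))))) (a (a (b (a (b (l 16764736) (l 16762624)) (b (l 16763616) (l 16761504))) (c (l 16759344) (c (l 16758648) (l 16759472)))) (c (b (l 16761296) (l 16757176)) (b (c (l 16760672) (l 16760896)) (c (l 16756392) (l 16755848))))) (a (b (b (a (l 16760264) (l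 16759152)) (l 16758264)) (b (l 16755496) (l 16753384))) (b (b (l 16757488) (l 16755392)) (b (l 16753288) (l 16751184)))))), by decide +kernel⟩

def k25_pm_011_t : ∃ t, chk3 f_pm_011_t t 35 251 1 = true :=
  ⟨(b (b (a (a (a (a (l 16765208) (l 16764080)) (a (l 16762960) (l 16761832))) (c (l 16760648) (a (l 16759712) (l 16757416)))) (a (a (l 16756520) (l 16753480)) (c (a (l 16751920) (a (l 16750312) (l 16749248))) (a (l 16750592) (b (l 16751496) (a (l 16748368) (l 16747256))))))) (a (a (a (a (l 16763064) (l 16761936)) (a (l 16760816) (l 16759696))) (c (l 16758728) (a (l 16757520) (l 16755232)))) (a (a (l 16754880) (b (l 16751888) (a (l 16751376) (a (l 16750552) (l 16750008))))) (a (b (c (l 16750384) (a (l 16749528) (l 16748416))) (l 16748640)) (l 16746976))))) (a (a (c (a (c (l 16759952) (l 16759504)) (l 16757544)) (a (a (l 16760200) (l 16759544)) (a (l 16757080) (l 16755936)))) (b (c (a (l 16756416) (l 16756864)) (a (l 16755320) (c (l 16755952) (a (l 16753304) (l 16752128))))) (b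 (a (a (l 16754824) (l 16753712)) (a (a (l 16752880) (l 16752328)) (l 16751504))) (a (c (l 16756432) (a (l 16753136) (l 16752016))) (l 16750984))))) (a (c (a (b (a (l 16755248) (l 16756800)) (l 16750024)) (l 16751544)) (b (a (a (b (l 16751880) (l 16750792)) (b (l 16750744) (l 16749656))) (c (l 16748896) (l 16750776))) (l 16747464))) (c (l 16745712) (c (l 16744488) (l 16743632)))))), by decide +kernel⟩

def k26_pm_011_t : ∃ t, chk3 f_pm_011_t t 17 126 1 = true :=
  ⟨(a (a (l 14) (a (l 14) (a (l 14) (a (l 14) (b (b (b (l 16757720) (l 14)) (l 14)) (l 14)))))) (b (a (a (a (b (b (b (l 16756584) (a (l 16756056) (b (l 16755208) (l 16754680)))) (a (a (l 14) (l 16754176)) (l 16753328))) (c (l 16751320) (l 16749960))) (b (b (b (c (l 16757544) (a (l 16754312) (l 16755808))) (c (l 16753888) (l 16752664))) (l 16751664)) (c (l 16749168) (l 16747688)))) (b (a (b (l 16752584) (l 16749456)) (b (l 16749384) (l 16747248))) (c (l 16746600) (a (l 16745424) (l 16743168))))) (c (a (b (l 16745840) (l 16741680))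 (b (l 16741584) (l 16737448))) (a (a (b (l 16745312) (l 16740928)) (b (l 16743072) (l 16738696))) (b (c (l 16740200) (l 16739232)) (c (l 16735904) (l 16734824)))))) (a (a (a (l 14) (b (b (l 16745200) (l 14)) (l 14))) (a (b (b (l 16743008) (l 16740848)) (b (l 16738680) (l 14))) (c (b (l 16740688) (l 16736488)) (b (l 16738760) (c (l 16734880) (l 16733760)))))) (c (b (a (l 16737512) (l 16733304)) (a (c (l 16733872) (l 16732760)) (l 16729136))) (b (a (a (l 16736528) (l 16734304)) (a (l 16732096) (l 16729896))) (a (a (l 16730792) (l 16729896)) (a (l 16727696) (l 16725512)))))))), by decide +kernel⟩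

def k27_pm_011_t : ∃ t, chk3 f_pm_011_t t 17 127 1 = true :=
  ⟨(a (l 14) (b (a (a (l 14) (a (l 14) (a (l 14) (b (b (l 16731640) (l 14)) (l 14))))) (b (c (a (b (l 16730168) (a (l 16729104) (l 16727024))) (b (l 16726000) (c (l 16724576) (l 16723224)))) (b (a (c (l 16728320) (l 16727016)) (c (l 16723992) (l 16722576))) (b (a (c (l 16726664) (l 16725320)) (c (l 16722352) (l 16723520))) (a (c (l 16725576) (l 16726824)) (l 16720528))))) (c (a (l 16724888) (l 16720744)) (a (c (l 16722816) (l 16721368)) (l 16717752))))) (a (l 14) (a (b (c (l 16720632) (l 16717616)) (l 14)) (c (b (l 16716512) (l 16712256)) (b (l 16713288) (l 16711416))))))), by decide +kernel⟩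

def k28_pm_011_t : ∃ t, chk3 f_pm_011_t t 18 60 1 = true :=
  ⟨(a (l 4) (b (l 4) (a (l 4) (b (l 4) (a (b (l 4) (a (l 4) (a (b (l 4) (b (l 179549767335) (a (l 80228649143) (l 16776928)))) (b (a (l 4) (l 170959832887)) (b (l 27078429287) (l 16776088)))))) (a (b (a (l 4) (a (l 4) (b (l 4) (l 152169350471)))) (b (a (b (l 156464317639) (l 16778248)) (l 16777952)) (l 16774896))) (b (b (a (l 4) (b (l 4) (l 72712457223))) (b (a (l 86134230119) (l 16776536)) (l 16777424))) (c (l 16773704) (l 16774232))))))))), by decide +kernel⟩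

def k29_pm_011_t : ∃ t, chk3 f_pm_011_t t 36 122 1 = true :=
  ⟨(a (l 4) (b (l 4) (a (b (l 4) (b (l 4) (b (l 4) (a (l 4) (a (l 4) (a (l 4) (l 157538059175))))))) (b (b (l 4) (a (l 4) (b (l 4) (a (l 4) (a (l 169349219415) (l 49090136215)))))) (b (a (b (l 4) (a (l 4) (a (l 4) (l 84523616519)))) (a (b (a (l 181697250599) (l 64659392727)) (l 16778000)) (a (l 16777664) (l 16775792)))) (a (b (c (a (l 154316834007) (l 16778128)) (a (l 157001188519) (l 16778096))) (a (a (l 37278976023) (l 16776640)) (l 16775792))) (c (l 16774672) (l 16775208)))))))), by decide +kernel⟩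

def k30_pm_011_t : ∃ t, chk3 f_pm_011_t t 36 246 1 = true :=
  ⟨(a (a (l 4) (b (l 4) (b (a (l 4) (b (a (l 4) (a (l 155390575511) (c (l 16778168) (l 33520879607)))) (a (a (l 167201735751) (a (l 71101843383) (l 29762782855))) (l 16777432)))) (a (a (b (l 4) (a (l 4) (b (l 4) (l 16778032)))) (b (b (l 172570445015) (a (l 146263770599) (l 16777792))) (a (l 7751075543) (l 16776376)))) (a (b (a (l 16778144) (l 16776272)) (l 16775536)) (l 16775576)))))) (a (a (a (b (b (l 4) (b (l 4) (a (c (l 80228650023) (l 100629743751)) (c (l 16778392) (l 16778048))))) (c (b (l 16777176) (l 16776488)) (b (l 16776456) (l 16775016)))) (b (b (b (l 4) (l 180623509271)) (b (a (c (l 85060487287) (l 82376132855)) (l 16777952)) (l 16776240))) (b (l 16774712) (l 16773976)))) (b (b (a (b (l 173107316311) (a (c (l 70028101703) (l 64659392631)) (l 16778168))) (b (a (c (l 51237619735) (l 49627007047)) (l 16776752)) (l 16776016))) (c (l 16776416) (l 16775744))) (a (b (a (l 16775176) (l 16773304)) (l 16771544)) (b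 (l 16772464) (l 16770424))))) (b (b (a (c (l 16774888) (l 16775440)) (a (l 16774464) (l 16772032))) (a (a (l 16774680) (l 16772248)) (c (l 16770712) (l 16770416)))) (a (b (a (l 16771344) (l 16770224)) (l 16769408)) (b (l 16768544) (l 16766520)))))), by decide +kernel⟩

def k31_pm_011_t : ∃ t, chk3 f_pm_011_t t 36 247 1 = true :=
  ⟨(a (a (b (b (a (l 4) (b (a (l 4) (a (l 4) (b (l 4) (l 66806875703)))) (b (a (l 4) (a (l 76470552135) (l 16776840))) (a (a (l 4) (l 86671099479)) (l 16777920))))) (a (a (b (l 4) (c (l 172570445463) (l 175791670887))) (a (b (l 4) (b (l 119957095959) (l 16777744))) (b (a (l 4) (l 156464317191)) (l 16777760)))) (a (b (a (b (l 96871646807) (l 16776992)) (l 16777336)) (l 16775936)) (c (l 16775368) (l 16775272))))) (b (a (a (b (b (a (l 173644186439) (l 16777784)) (a (l 37815846263) (l 16776624))) (l 16776128)) (a (l 16776456) (l 16775232))) (a (b (l 16776216) (l 16773872)) (a (l 16774848) (l 16772976)))) (a (a (b (l 16776080) (l 16774056)) (c (l 16774848) (l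 16774664))) (a (l 16772976) (l 16771192))))) (b (b (a (b (a (a (a (l 34057750199) (l 16778216)) (l 16776480)) (l 16775632)) (a (l 16775736) (l 16775920))) (a (a (l 16775584) (l 16775024)) (l 16773528))) (b (a (a (l 16776016) (l 16773584)) (l 16773208)) (a (c (l 16773208) (l 16774328)) (l 16770864)))) (b (a (a (l 16772136) (l 16771008)) (c (l 16769512) (l 16769136))) (c (a (l 16769696) (l 16767504)) (a (l 16769320) (l 16767032)))))) (b (b (a (c (a (l 16771320) (l 16769136)) (a (l 16771040) (l 16768752))) (a (l 16766712) (l 16764488))) (a (a (a (l 16769696) (l 16768584)) (l 16766904)) (a (l 16764680) (l 16762464)))) (b (a (a (l 16768400) (l 16764864)) (c (l 16761880) (l 16762472))) (a (a (l 16765040) (l 16762824)) (c (l 16759896) (l 16759080)))))), by decide +kernel⟩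

def k32_pm_011_t : ∃ t, chk3 f_pm_011_t t 74 61 1 = true :=
  ⟨(b (b (b (b (l 4) (a (l 4) (a (l 4) (b (a (l 4) (a (l 107072196119) (l 16778576))) (a (a (l 4) (l 72175585543)) (l 16776600)))))) (b (a (l 4) (b (a (a (l 4) (l 149484995639)) (c (l 16777496) (l 16777456))) (a (a (l 159685543191) (l 16778160)) (l 16775168)))) (a (a (l 4) (b (a (l 4) (l 169886090743)) (a (l 180623509191) (a (l 64122521815) (l 16776816))))) (a (a (a (b (l 16778352) (l 16776256)) (l 16776200)) (l 16775360)) (l 16774984))))) (a (b (a (b (b (l 4) (a (l 4) (a (l 80228650135) (l 16778368)))) (a (b (a (l 92039810423) (l 34594621447)) (l 16776456)) (l 16776496))) (b (a (b (a (l 81839261911) (l 16776944)) (l 16776224)) (l 16775600)) (l 16774808))) (b (c (a (l 16774448) (l 16774872)) (a (l 16774320) (l 16773344))) (a (c (l 16775096) (l 16773576)) (l 16771448)))) (a (b (b (l 16775224) (c (l 16774640) (l 16774424))) (b (l 16769912) (l 16767904))) (b (b (c (l 16771784) (l 16774184)) (l 16769680)) (a (l 16767240)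 (l 16766128)))))) (b (a (b (a (b (a (l 16770912) (l 16769800)) (l 16768336)) (c (l 16767328) (l 16768200))) (a (c (l 16765560) (l 16765032)) (c (l 16763384) (l 16762768)))) (a (b (c (l 16765144) (l 16764624)) (c (l 16761216) (l 16760512))) (b (a (l 16763232) (l 16762128)) (l 16759984)))) (a (c (b (c (l 16760696) (l 16760344)) (l 16756568)) (a (b (l 16760896) (l 16756744)) (b (l 16758640) (l 16754504)))) (c (b (l 16756200) (l 16752264)) (b (c (l 16755520) (l 16755024)) (l 16752464)))))), by decide +kernel⟩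

def k33_pm_011_t : ∃ t, chk3 f_pm_011_t t 75 61 1 = true :=
  ⟨(a (b (a (a (b (b (b (a (l 168275478263) (b (l 4) (l 16778488))) (l 16777288)) (l 16773976)) (b (a (l 16769288) (l 16768728)) (l 16765016))) (b (b (b (b (a (l 80228650135) (l 16777056)) (l 16776344)) (l 16774856)) (b (l 16775488) (l 16770880))) (b (l 16767896) (l 16763904)))) (b (b (c (l 16775536) (b (l 16775120) (l 16776040))) (b (l 16772504) (l 16769208))) (b (a (l 16766776) (l 16765664)) (l 16763560)))) (b (a (b (l 16760472) (l 16756472)) (b (l 16758264) (l 16754280))) (c (b (l 16751888) (l 16747976)) (b (l 16750816) (l 16746720))))) (a (b (b (b (b (c (l 16775616) (l 16775456)) (l 16772248)) (c (l 16770752) (l 16770400))) (b (l 16764656) (l 16760032))) (b (b (l 16756064) (l 16752088)) (b (l 16748104) (l 16744120)))) (b (b (b (b (l 16771992) (l 16768704)) (c (l 16765944) (l 16765520))) (b (l 16761784) (l 16757832))) (b (b (l 16753864) (l 16749904)) (c (l 16744584) (l 16743248)))))), by decide +kernel⟩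

def k34_pm_011_t : ∃ t, chk3 f_pm_011_t t 38 60 1 = true :=
  ⟨(b (a (l 4) (b (a (l 4) (b (l 4) (b (l 4) (a (l 4) (a (l 183307864615) (a (l 99556003447) (l 48016395479))))))) (a (b (a (l 4) (a (l 4) (b (l 4) (l 154316834471)))) (a (a (b (l 4) (a (l 150558737671) (l 56069459367))) (b (l 172570446039) (l 16778528))) (b (a (a (l 78081166935) (l 32447138807)) (l 16776256)) (l 16774872)))) (b (a (a (b (l 4) (a (l 52848233815) (l 16778104))) (b (a (l 166127994503) (l 74323070439)) (l 16775952))) (a (b (l 14193527943) (l 16774816)) (l 16774664))) (c (l 16773832) (a (l 16773536) (l 16773872))))))) (a (b (a (b (l 4) (b (a (l 4) (a (l 175254800695) (b (l 117272743047) (l 16778264)))) (b (a (l 182234122919) (c (l 16779168) (l 16778488))) (a (a (l 4) (l 46942653095)) (l 16775552))))) (b (b (a (l 4) (c (a (l 140895061287) (l 16778184)) (a (l 143042544887) (l 17414753415)))) (a (a (c (l 157538060103) (l 160222414599)) (b (l 85597359191) (l 16776664))) (l 16776776))) (a (b (c (l 16778408) (l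 16777040)) (l 16773800)) (l 16773848)))) (a (a (b (a (b (b (l 58753813399) (l 16776400)) (l 16774920)) (l 16775440)) (b (a (l 16775568) (l 16771832)) (l 16771728))) (b (c (l 16773168) (l 16773024)) (c (l 16770608) (l 16770328)))) (b (a (b (a (l 16772400) (l 16771280)) (l 16772496)) (a (l 16770488) (l 16770680))) (a (c (l 16767096) (l 16766752)) (l 16764704))))) (b (a (a (b (a (l 16774760) (l 16773632)) (b (l 16773888) (l 16769312))) (b (l 16773256) (c (l 16773416) (l 16770520)))) (b (c (l 16768688) (c (l 16771136) (l 16771000))) (a (l 16767120) (l 16763568)))) (a (b (a (c (l 16766544) (l 16766208)) (l 16764152)) (c (l 16761600) (l 16761104))) (c (b (l 16761024) (l 16757200)) (b (l 16760552) (l 16756600))))))), by decide +kernel⟩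

def k35_pm_011_t : ∃ t, chk3 f_pm_011_t t 39 60 1 = true :=
  ⟨(b (b (a (a (a (b (l 4) (b (a (a (l 4) (l 159685543431)) (a (l 68417490599) (l 16778288))) (a (l 16779072) (l 16775312)))) (b (b (l 4) (a (l 146800641431) (l 24394075607))) (b (l 16776872) (l 16773616)))) (b (a (b (a (a (l 112977776375) (l 60364426743)) (l 16779224)) (l 16775232)) (l 16775240)) (c (l 16773888) (l 16772416)))) (b (a (c (l 16770624) (l 16771736)) (a (l 16768448) (l 16764880))) (a (a (a (l 16773608) (l 16767240)) (l 16768168)) (a (l 16763296) (l 16761048))))) (b (a (a (a (l 16774280) (c (l 16770776) (l 16773240))) (a (b (l 16774664) (l 16767480)) (a (l 16766760) (l 16765632)))) (a (c (l 16764312) (l 16765224)) (c (l 16758584) (l 16758032)))) (a (a (b (l 16770240) (a (l 16768112) (l 16765864))) (c (l 16766232) (a (c (l 16769744) (l 16765632)) (l 16762128)))) (a (c (l 16759184) (l 16758704)) (l 16754488))))) (a (b (a (b (a (l 16766520) (l 16762960)) (c (l 16760416) (l 16759968))) (b (a (l 16760712) (a (l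 16759032) (l 16757912))) (l 16758360))) (a (b (l 16757656) (l 16752480)) (c (l 16750272) (l 16752208)))) (a (a (b (b (l 16756232) (l 16752376)) (l 16746624)) (b (c (l 16752352) (l 16751736)) (c (l 16744728) (l 16749232)))) (b (c (l 16749064) (l 16750952)) (b (l 16742976) (l 16741776)))))), by decide +kernel⟩

def k36_pm_011_t : ∃ t, chk3 f_pm_011_t t 19 61 1 = true :=
  ⟨(a (a (a (b (a (b (b (c (l 16767632) (l 16767280)) (l 16763520)) (b (l 16759576) (l 16755624))) (b (b (l 16766544) (l 16761304)) (b (l 16757368) (l 16753432)))) (b (c (b (l 16751056) (l 16747184)) (b (l 16750056) (l 16746016))) (c (l 16741376) (b (l 16741976) (l 16737928))))) (b (b (c (b (l 16762144) (l 16758296)) (b (l 16764248) (l 16757632))) (b (c (l 16754440) (l 16753640)) (l 16751448))) (b (b (l 16746216) (l 16742288)) (b (l 16738352) (a (l 16735496) (l 16733344)))))) (a (b (b (b (a (l 16758576) (l 16756360)) (l 16754880)) (b (l 16749664) (l 16745760))) (b (b (l 16741856) (l 16737952)) (b (l 16734040) (a (b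 (l 16732184) (l 16730224)) (b (l 16730040) (l 16728088)))))) (b (b (b (l 16753040) (l 16749160)) (b (l 16745280) (l 16741392))) (b (c (l 16736208) (l 16734848)) (b (c (l 16730496) (c (l 16729320) (l 16738904))) (c (l 16726680) (l 16735408))))))) (a (b (b (c (a (l 16747088) (l 16742696)) (a (l 16746224) (l 16741776))) (c (a (l 16739488) (l 16735128)) (a (l 16738360) (l 16733960)))) (b (a (a (l 16732320) (l 16730160)) (b (l 16728832) (a (l 16726072) (l 16723920)))) (b (a (c (l 16726216) (c (l 16735512) (l 16734584))) (l 16721152)) (l 16719440)))) (a (b (b (c (l 16738288) (l 16737336)) (l 16730216)) (b (b (l 16724496) (l 16731168)) (l 16714952))) (b (b (c (l 16733872) (l 16738144)) (l 16725840)) (b (b (c (l 16720784) (l 16719384)) (l 16716360)) (l 16710672)))))), by decide +kernel⟩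

def k37_pm_011_t : ∃ t, chk3 f_pm_011_t t 36 124 1 = true :=
  ⟨(a (b (a (b (b (a (a (a (l 16772784) (l 16772216)) (l 16771376)) (c (l 16769872) (l 16769504))) (c (a (l 16770040) (l 16767848)) (a (l 16769680) (l 16767384)))) (c (a (c (l 16767128) (l 16766880)) (l 16764816)) (a (b (l 16767552) (l 16765416)) (c (l 16764360) (l 16765336))))) (a (b (b (a (l 16768008) (l 16766888)) (l 16766040)) (b (l 16763320) (l 16761256))) (b (b (l 16765216) (l 16763160)) (c (l 16760472) (l 16759648))))) (a (a (b (b (a (l 16764184) (l 16763072)) (l 16762200)) (b (l 16759456) (l 16757368))) (b (b (l 16761400) (l 16759328)) (b (l 16757248) (l 16755160)))) (a (c (b (l 16758608) (l 16754560)) (b (l 16757672) (l 16753416))) (c (b (l 16756448) (l 16752416)) (b (l 16755416) (l 16751168)))))) (b (a (a (c (b (l 16762320) (l 16758312)) (b (l 16761592) (l 16757384))) (c (b (l 16760152) (l 16756152)) (b (l 16759328) (l 16755128)))) (c (b (l 16758224) (l 16752928)) (a (b (l 16757072) (l 16752888)) (b (l 16754824)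 (l 16750648))))) (a (c (b (l 16753224) (l 16749200)) (a (b (l 16753160) (l 16748928)) (b (l 16750920) (l 16746704)))) (b (c (l 16748936) (c (l 16747936) (l 16747216))) (a (c (l 16746000) (l 16745784)) (b (l 16744128) (c (l 16742880) (b (l 16741736) (l 16743328))))))))), by decide +kernel⟩

def k38_pm_011_t : ∃ t, chk3 f_pm_011_t t 36 125 1 = true :=
  ⟨(b (a (b (a (a (b (l 16755280) (l 16753184)) (b (l 16753080) (l 16750992))) (c (a (l 16750504) (l 16750984)) (a (l 16749144) (c (l 16749896) (b (l 16747608) (l 16745432)))))) (b (a (c (l 16750664) (l 16750600)) (a (b (l 16747232) (a (l 16746736) (l 16745656))) (c (l 16745336) (c (l 16749392) (b (l 16749080) (l 16742752)))))) (a (b (a (l 16749512) (a (l 16747872) (a (l 16747056) (l 16746512)))) (c (a (l 16749176) (l 16747048)) (a (c (l 16748088) (l 16747328)) (l 16745504)))) (c (l 16744368) (l 16745328))))) (b (b (a (a (l 16746520) (a (l 16744880) (b (l 16744320) (l 16743296)))) (a (b (a (l 16743232) (l 16742160)) (l 16741672)) (l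 16740032))) (a (b (a (a (l 16745512) (l 16744424)) (l 16745432)) (c (l 16743672) (a (l 16745728) (l 16740888)))) (l 16739056))) (c (a (l 16741144) (l 16736936)) (a (l 16739344) (l 16734960))))) (a (a (a (b (a (c (l 16749784) (b (c (l 16747072) (l 16748912)) (l 16744512))) (l 16745296)) (c (l 16742528) (l 16740728))) (c (l 16743112) (b (l 16742808) (l 16738512)))) (c (b (l 16741320) (l 16737248)) (b (c (l 16739968) (l 16739008)) (l 16735864)))) (c (a (b (l 16737104) (l 16733064)) (b (l 16732920) (l 16728896))) (a (b (l 16735096) (l 16730840)) (b (l 16730736) (l 16726504)))))), by decide +kernel⟩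

def k39_pm_011_t : ∃ t, chk3 f_pm_011_t t 37 62 1 = true :=
  ⟨(a (b (b (a (c (b (l 16752608) (l 16748648)) (b (c (l 16751768) (l 16751160)) (c (l 16747664) (l 16746952)))) (c (b (l 16748328) (l 16744384)) (b (l 16747032) (l 16742896)))) (b (a (c (l 16744680) (c (l 16743552) (l 16742736))) (a (b (l 16741720) (a (l 16740224) (b (l 16739656) (l 16738648)))) (c (b (l 16740368) (l 16738400)) (b (l 16738688) (c (l 16737104) (l 16736160)))))) (a (a (c (b (l 16742760) (l 16740776)) (b (c (l 16741536) (l 16740656)) (l 16742976))) (b (b (a (l 16740856) (l 16739784)) (l 16739312)) (l 16737776))) (c (l 16736496) (l 16737240))))) (b (c (a (l 16737360) (l 16730552)) (a (b (l 16734792) (l 16730600)) (c (l 16728936) (l 16729080)))) (c (a (l 16726752) (l 16722616)) (b (a (l 16726408) (l 16722104)) (a (l 16722192) (l 16717920)))))) (b (b (b (c (a (l 16744064) (l 16739808)) (a (l 16742616) (l 16738232))) (b (a (l 16740360) (a (l 16737136) (a (l 16735528) (l 16734464)))) (a (c (l 16739160) (a (l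 16738576) (l 16736376))) (c (l 16734936) (a (l 16739464) (l 16732040)))))) (a (b (b (a (b (l 16737912) (l 16736920)) (l 16735280)) (l 16734336)) (l 16732624)) (b (l 16731072) (l 16727064)))) (b (a (b (l 16727280) (l 16723240)) (c (l 16722240) (l 16719776))) (a (b (l 16719192) (l 16715136)) (b (l 16715024) (l 16710992)))))), by decide +kernel⟩

def k40_pm_011_t : ∃ t, chk3 f_pm_011_t t 19 62 1 = true :=
  ⟨(a (b (a (a (b (b (b (l 16735752) (a (l 16734840) (a (l 16733232) (l 16732168)))) (c (l 16731696) (l 16735072))) (c (l 16725872) (l 16723696))) (b (b (b (a (l 16732536) (l 16730400)) (l 16729496)) (l 16726536)) (c (l 16721704) (l 16719416)))) (b (c (l 16723088) (a (l 16723208) (l 16718912))) (c (l 16715456) (a (l 16715152) (l 16710912))))) (a (b (c (a (l 16718104) (l 16713976)) (a (l 16715520) (l 16711288))) (c (a (l 16710304) (l 16706232)) (a (l 16707320) (l 16703136)))) (a (b (l 16709840) (a (l 16701664) (l 16699616))) (b (l 16704392) (l 16696552))))) (b (a (b (c (l 16714680)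 (l 16712504)) (c (l 16707152) (l 16704584))) (b (c (l 16706264) (l 16704008)) (l 16702832))) (b (a (c (l 16699608) (l 16696648)) (l 16689968)) (c (a (l 16692056) (l 16683976)) (a (l 16688688) (l 16680528)))))), by decide +kernel⟩

def k41_pm_011_t : ∃ t, chk3 f_pm_011_t t 18 126 1 = true :=
  ⟨(a (a (b (c (a (b (l 16737368) (l 16733248)) (b (l 16733168) (l 16729080))) (a (b (c (l 16735832) (l 16734760)) (c (l 16731560) (l 16730368))) (b (c (l 16731504) (l 16730320)) (c (l 16727248) (l 16725952))))) (c (b (a (l 16729120) (l 16724976)) (a (l 16724976) (l 16720856))) (b (a (c (l 16727264) (l 16725960)) (c (l 16722976) (l 16721568))) (a (c (l 16722952) (l 16721528)) (c (l 16718688) (l 16717160)))))) (b (c (b (a (l 16729000) (l 16724856)) (a (l 16724936) (l 16720816))) (b (a (l 16726568) (l 16722256)) (a (l 16722280) (l 16717992)))) (c (b (a (l 16720848) (l 16716752)) (b (l 16715736) (a (l 16715728) (l 16711664)))) (b (a (c (l 16718720) (l 16717216)) (l 16713712)) (b (c (l 16713424)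 (l 16714400)) (a (c (l 16713384) (l 16711720)) (c (l 16709200) (l 16707456)))))))) (b (a (c (b (l 16718680) (l 16717296)) (a (b (l 16717968) (l 16713728)) (a (l 16712672) (l 16710560)))) (a (c (l 16710568) (a (l 16708456) (l 16706352))) (b (l 16706952) (l 16702896)))) (a (a (c (b (l 16712680) (b (l 16709648) (l 16707624))) (b (l 16709480) (b (l 16706264) (l 16704144)))) (c (b (l 16708632) (l 16709856)) (b (l 16705272) (b (l 16702088) (l 16699968))))) (a (c (b (l 16704600) (l 16700600)) (b (l 16701104) (l 16702144))) (b (c (l 16700584) (c (l 16697904) (l 16695968))) (l 16694752)))))), by decide +kernel⟩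

def k42_pm_011_t : ∃ t, chk3 f_pm_011_t t 18 127 1 = true :=
  ⟨(b (a (a (b (c (b (a (c (l 16722544) (l 16721152)) (l 16717760)) (l 16717720)) (b (b (a (l 16719504) (c (l 16716000) (l 16714392))) (a (c (l 16719160) (l 16717632)) (l 16714120))) (c (l 16715408) (l 16716408)))) (c (a (l 16716632) (l 16712552)) (a (l 16713440) (l 16709176)))) (a (c (b (l 16712648) (l 16708504)) (b (c (l 16710184) (l 16708448)) (l 16704952))) (c (l 16706536) (c (l 16703864) (l 16701968))))) (a (c (a (l 16702528) (l 16698536)) (a (c (l 16699736) (l 16697760)) (l 16694624))) (c (a (l 16694568) (l 16690624)) (a (l 16690520) (l 16686448))))) (a (a (c (b (a (l 16712424) (l 16708376)) (a (l 16708200) (l 16704168))) (b (a (l 16709000) (l 16704760)) (a (l 16704536) (l 16700320)))) (a (c (b (l 16704344) (l 16700168)) (b (l 16700560) (l 16696144))) (c (b (l 16700352) (l 16696200)) (b (l 16696392) (l 16692000))))) (a (c (b (l 16694400) (l 16690288)) (b (c (l 16691296) (l 16689096)) (a (l 16687896) (l 16683832))))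 (c (a (l 16686472) (l 16682576)) (b (l 16682080) (l 16677784)))))), by decide +kernel⟩

def k43_pm_011_t : ∃ t, chk3 f_pm_011_t t 19 63 1 = true :=
  ⟨(b (a (b (a (c (a (l 16702480) (l 16698464)) (a (l 16699072) (l 16694944))) (c (a (l 16694456) (l 16690456)) (a (l 16690848) (l 16686760)))) (a (c (b (a (l 16696584) (l 16692608)) (l 16690664)) (b (b (l 16697080) (l 16700264)) (l 16686656))) (a (b (l 16691992) (l 16682744)) (l 16683400)))) (b (a (b (l 16684608) (a (l 16682704) (l 16678712))) (b (l 16676584) (l 16683232))) (a (l 16674832) (l 16666960)))) (a (b (a (c (l 16684736) (a (l 16682400) (l 16678384))) (c (l 16676944) (l 16672416))) (a (c (a (l 16678712) (l 16674856)) (a (l 16673944) (l 16669992))) (c (l 16669104) (l 16664104)))) (a (b (c (l 16669200) (l 16664544)) (c (l 16661480) (l 16656352))) (b (l 16659208) (l 16651384))))), by decide +kernel⟩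

def k44_pm_011_t : ∃ t, chk3 f_pm_011_t t 20 28 1 = true :=
  ⟨(l 4), by decide +kernel⟩

def k45_pm_011_t : ∃ t, chk3 f_pm_011_t t 21 56 1 = true :=
  ⟨(l 4), by decide +kernel⟩

def k46_pm_011_t : ∃ t, chk3 f_pm_011_t t 42 57 1 = true :=
  ⟨(b (l 4) (a (l 4) (b (l 4) (b (a (l 4) (a (a (l 4) (b (l 4) (l 183307864247))) (a (b (l 4) (b (l 151095608215) (l 16778144))) (b (a (l 188139702119) (b (l 4) (l 16778496))) (l 16777432))))) (a (a (l 4) (b (l 4) (b (c (l 153243092535) (a (l 4) (l 80228650071))) (a (l 152169350071) (l 16776608))))) (a (b (b (a (l 192971540263) (l 34594621991)) (a (a (l 101166614919) (l 16777016)) (l 16776128))) (l 16775320)) (c (l 16773984) (l 16775144)))))))), by decide +kernel⟩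

def k47_pm_011_t : ∃ t, chk3 f_pm_011_t t 86 57 1 = true :=
  ⟨(b (b (l 4) (a (l 4) (b (l 4) (b (l 4) (b (l 4) (a (l 4) (a (l 4) (a (l 118346484135) (l 16778416))))))))) (b (a (b (l 4) (b (a (l 4) (a (b (l 4) (l 147874382647)) (a (b (l 129083902503) (l 16776832)) (l 16778352)))) (a (a (l 193508411959) (b (l 172033574183) (l 31373396439))) (a (l 16777960) (l 16775136))))) (b (b (a (a (l 4) (b (l 4) (l 164517381303))) (a (b (c (l 92039810231) (l 144116286119)) (l 16778032)) (l 16775992))) (a (b (a (l 190287185559) (l 26004687207)) (b (a (l 78081165879) (l 16776264)) (l 16778032))) (l 16774728))) (b (a (l 16776536) (l 16775488)) (l 16774160)))) (a (a (b (b (b (a (a (l 98482260295) (l 16776984)) (l 16776096)) (l 16775752)) (l 16774360)) (l 16774192)) (b (l 16775560) (l 16771856))) (a (b (l 16771736) (l 16766888)) (b (l 16768232) (l 16764536)))))), by decide +kernel⟩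

def k48_pm_011_t : ∃ t, chk3 f_pm_011_t t 87 57 1 = true :=
  ⟨(b (b (b (l 4) (a (l 4) (a (a (l 4) (b (l 4) (a (l 4) (b (l 4) (l 75933682007))))) (a (b (l 4) (b (a (l 173107315639) (l 42647684935)) (l 16776512))) (b (b (l 189213443671) (a (l 87207971143) (l 16776888))) (l 16775776)))))) (a (a (b (l 4) (a (a (b (l 4) (b (l 79154907447) (l 16776504))) (b (l 187065960247) (l 16776376))) (b (b (c (l 156464317479) (l 160222413815)) (l 19025365175)) (l 16775480)))) (a (b (b (l 4) (a (l 193508411351) (b (l 4) (l 56069457975)))) (b (l 16777472) (l 16776912))) (b (a (b (l 4) (b (l 103850969495) (l 16776664))) (b (l 195119024231) (l 16777848))) (l 16774688)))) (b (a (b (b (a (l 172570445127) (l 16778096)) (b (a (l 58216941799) (l 16776072)) (l 16777520))) (l 16775696)) (b (l 16775160) (l 16775264))) (c (l 16773800) (a (a (l 16775368) (l 16774144)) (l 16771000)))))) (b (a (b (a (b (l 16774216) (l 16774976)) (l 16772216)) (a (l 16770880) (l 16767200))) (b (a (l 16769840) (l 16766136)) (l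 16764944))) (a (a (a (l 16767232) (l 16766056)) (l 16764280)) (c (l 16761112) (l 16760312))))), by decide +kernel⟩

def k49_pm_011_t : ∃ t, chk3 f_pm_011_t t 20 58 1 = true :=
  ⟨(a (l 4) (b (a (l 4) (b (l 4) (a (l 4) (b (l 4) (b (a (l 4) (a (l 4) (b (l 4) (l 72175586535)))) (b (a (l 4) (a (l 96334777607) (l 16776552))) (a (l 177402284263) (l 16778816)))))))) (a (b (a (l 4) (b (l 4) (b (l 4) (a (l 4) (a (l 4) (a (l 168812348919) (l 74323070535))))))) (a (b (a (l 4) (b (l 4) (l 188676574679))) (a (b (l 4) (a (l 167738607479) (a (l 65196265223) (l 16778184)))) (b (a (a (l 175254800039) (l 80228650775)) (l 16778888)) (l 16775440)))) (b (a (a (b (l 4) (a (l 96334778135) (l 45332041175))) (b (l 163980510935) (l 16776344))) (a (a (b (l 59290685015) (l 16775480)) (l 16778144)) (l 16774984))) (b (l 16774872) (l 16772008))))) (b (b (a (b (l 4) (a (l 4) (a (a (l 190287185975) (l 100092874599)) (a (l 47479524791) (l 16776664))))) (a (b (a (a (l 159685543175) (l 59290685063)) (l 16777832))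 (l 16775224)) (l 16775168))) (a (b (a (b (l 172033574999) (a (l 177939154391) (l 16776912))) (l 16776960)) (b (a (l 16778848) (l 16776872)) (l 16775768))) (c (l 16774024) (l 16773752)))) (b (a (c (l 16773536) (l 16773312)) (c (l 16770368) (l 16769936))) (a (a (l 16772136) (l 16767232)) (l 16763816))))))), by decide +kernel⟩

def k50_pm_011_t : ∃ t, chk3 f_pm_011_t t 40 59 1 = true :=
  ⟨(b (a (b (l 4) (a (b (l 4) (a (l 4) (a (l 4) (b (l 4) (l 145190028535))))) (b (b (l 4) (a (l 4) (a (l 169349220311) (a (l 70564974167) (l 16778256))))) (a (a (b (l 4) (l 16778808)) (b (a (l 103314100055) (l 53385104935)) (l 16775696))) (b (l 16778512) (l 16773984)))))) (a (b (b (l 4) (a (l 4) (a (b (l 4) (a (l 104387841863) (l 53921975831))) (b (l 169886091207) (l 16779080))))) (b (a (b (a (l 146800641287) (l 16779144)) (l 16775512)) (l 16774184)) (c (l 16771632) (l 16772712)))) (b (b (b (a (l 4) (a (l 188676573783) (a (l 100629745575) (l 51237621207)))) (a (a (l 4) (l 146263770327)) (c (l 16778896)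 (l 16779008)))) (a (a (a (b (l 71101845031) (l 16775600)) (l 16778680)) (l 16775120)) (l 16773408))) (a (c (l 16772768) (l 16772472)) (b (l 16772248) (l 16765848)))))) (b (a (a (a (b (a (b (l 4) (a (l 99019132855) (l 50700750327))) (b (l 166664865719) (l 16776432))) (l 16774128)) (b (a (b (l 45332041815) (l 16775288)) (l 16775112)) (l 16771856))) (b (c (l 16774976) (l 16773472)) (a (c (l 16774960) (l 16774680)) (l 16767320)))) (a (b (a (l 16774104) (l 16766592)) (c (l 16764168) (l 16763656))) (b (l 16765816) (l 16759416)))) (b (a (a (a (c (l 16775656) (l 16775408)) (l 16770648)) (c (l 16767480) (l 16767016))) (a (l 16761440) (l 16755632))) (a (a (a (l 16769080) (l 16764208)) (c (l 16761104) (l 16760512))) (a (l 16756328) (l 16751848)))))), by decide +kernel⟩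

def k51_pm_011_t : ∃ t, chk3 f_pm_011_t t 41 59 1 = true :=
  ⟨(b (b (a (a (b (a (b (l 16778464) (l 16773952)) (l 16772616)) (l 16771296)) (a (b (l 16772952) (l 16766576)) (b (l 16768048) (l 16764304)))) (a (b (l 16767256) (l 16760896)) (c (l 16758624) (l 16760416)))) (a (b (a (c (l 16771680) (l 16768600)) (l 16761680)) (a (l 16762448) (l 16757928))) (a (c (l 16755736) (l 16754808)) (l 16752088)))) (a (b (c (a (l 16757192) (l 16752792)) (a (l 16757680) (l 16751776))) (a (c (l 16749784) (l 16748696)) (c (l 16745416) (l 16744136)))) (b (a (c (l 16748400) (l 16747192)) (l 16745968)) (c (a (l 16741056) (l 16736712)) (a (l 16739592) (l 16735048)))))), by decide +kernel⟩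

def k52_pm_011_t : ∃ t, chk3 f_pm_011_t t 21 58 1 = true :=
  ⟨(a (b (a (b (a (l 4) (b (b (l 4) (b (l 4) (a (l 4) (a (l 4) (l 79691779255))))) (b (b (a (l 4) (a (l 104387841351) (l 16776616))) (a (l 183307864471) (l 16778232))) (a (a (b (l 191897798439) (l 56069458807)) (a (l 16778544) (l 16776312))) (l 16774864))))) (a (b (b (a (l 4) (a (c (l 164517381879) (l 168275478199)) (b (l 77544295575) (l 16776592)))) (a (b (l 181160380759) (a (l 190824056535) (l 16778360))) (c (l 16775808) (l 16777048)))) (a (a (c (l 16778856) (b (l 19025366199) (l 16777496))) (l 16774704)) (l 16775600))) (b (b (c (l 16775544) (l 16775072)) (l 16774920)) (a (l 16771976) (l 16768360))))) (a (b (b (a (a (b (l 192971541127) (b (l 57680071559) (l 16776376))) (b (b (l 176328541575) (l 35668363831)) (l 16775680))) (a (b (l 16778352) (l 16777136)) (l 16774280))) (a (l 16774784) (l 16772464))) (b (a (l 16772384) (l 16767448)) (l 16767520))) (b (a (b (a (l 16775736) (l 16774576)) (l 16768832)) (b (l 16771512)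 (l 16766504))) (b (l 16766592) (l 16760280))))) (b (a (b (a (a (l 16774176) (l 16771872)) (c (l 16766048) (l 16765536))) (a (c (l 16772152) (l 16769064)) (l 16762096))) (a (c (l 16762360) (l 16761568)) (l 16756064))) (a (a (a (l 16763560) (l 16759968)) (c (l 16756984) (l 16756072))) (a (l 16754600) (l 16747400))))) (a (a (b (b (b (c (l 16769552) (l 16769088)) (l 16763008)) (c (l 16757904) (l 16759664))) (b (l 16750136) (l 16742824))) (b (b (a (l 16763968) (l 16759008)) (l 16755448)) (b (l 16745512) (l 16738224)))) (a (b (b (c (l 16755928) (l 16755008)) (l 16748160)) (b (l 16740872) (l 16733616))) (b (b (l 16756000) (l 16743464)) (c (l 16736104) (l 16736896)))))), by decide +kernel⟩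

def k53_pm_011_t : ∃ t, chk3 f_pm_011_t t 21 59 1 = true :=
  ⟨(b (a (a (a (b (l 16755000) (l 16746272)) (b (l 16749152) (l 16741776))) (a (b (l 16744616) (l 16737272)) (b (l 16740072) (l 16732768)))) (a (b (c (l 16734144) (l 16732296)) (c (l 16727016) (l 16724896))) (b (c (l 16725144) (l 16722984)) (c (l 16718096) (l 16715664))))) (a (a (a (b (l 16738872) (c (l 16732368) (l 16730520))) (b (l 16734408) (c (l 16728024) (l 16726000)))) (b (a (l 16729944) (l 16725472)) (c (b (l 16723312) (l 16719720)) (l 16724464)))) (a (b (c (l 16722528) (l 16717528)) (c (c (l 16713408) (l 16712192)) (l 16710184))) (c (b (l 16711064) (l 16704048)) (b (l 16708376) (l 16701128)))))), by decide +kernel⟩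

def k54_pm_011_t : ∃ t, chk3 f_pm_011_t t 44 112 1 = true :=
  ⟨(a (l 4) (l 4)), by decide +kernel⟩

def k55_pm_011_t : ∃ t, chk3 f_pm_011_t t 44 113 1 = true :=
  ⟨(a (b (l 4) (a (b (l 4) (b (l 4) (b (l 4) (a (l 4) (c (l 182770993607) (a (l 4) (l 176865412423))))))) (b (b (l 4) (a (l 4) (b (a (l 4) (a (l 4) (a (l 134989481975) (l 75933681447)))) (a (l 187602830887) (a (l 48016394119) (l 16776576)))))) (a (a (b (l 4) (b (a (l 4) (a (l 110293420039) (l 16778184))) (c (l 16776792) (l 16778080)))) (b (b (l 4) (a (l 170959831959) (l 40500201255))) (l 16777008))) (b (b (a (a (a (l 121030838311) (l 67880617655)) (l 16776856)) (l 16775936)) (l 16776264)) (l 16775504)))))) (b (a (b (l 4) (b (b (l 4) (a (l 4) (a (l 4) (a (l 196729636119) (a (l 98482259831) (l 16777840)))))) (b (a (l 4) (a (b (l 4) (l 158611800871)) (a (l 16777992) (l 16776384)))) (a (a (l 4) (l 195655894759)) (a (a (a (l 88281712567) (l 16777792)) (l 16776672)) (l 16775744)))))) (b (b (a (l 4) (b (a (l 4) (a (l 171496702855)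 (c (l 16777136) (l 38352717559)))) (a (b (l 192971539751) (a (l 4) (l 16777176))) (l 16777792)))) (b (a (c (l 185992219111) (a (l 4) (l 180086637927))) (a (a (l 35131492023) (l 16776464)) (l 16775536))) (a (a (l 198340249479) (a (a (l 105461581767) (l 51774490199)) (l 16776752))) (l 16775864)))) (a (b (a (b (a (l 160759284471) (l 30299653735)) (l 16776408)) (l 16775648)) (l 16775032)) (c (l 16775560) (l 16774080))))) (a (a (b (b (b (a (l 4) (a (c (l 99556002135) (l 101166614855)) (l 16777616))) (a (a (l 187065959527) (a (l 80228648791) (l 16777088))) (l 16776320))) (a (a (l 16777584) (l 16775824)) (l 16774904))) (c (l 16775408) (l 16773920))) (b (c (l 16775384) (a (l 16775224) (l 16775944))) (l 16771568))) (a (b (l 16773192) (l 16768464)) (c (l 16770032) (b (l 16769600) (l 16765120))))))), by decide +kernel⟩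

def k56_pm_011_t : ∃ t, chk3 f_pm_011_t t 90 112 1 = true :=
  ⟨(a (b (l 4) (b (b (l 4) (a (l 4) (a (l 4) (b (l 191897798247) (a (a (l 131768256519) (l 74859939591)) (l 16777544)))))) (b (a (b (l 4) (a (l 4) (a (l 4) (a (l 126399547383) (l 70564972231))))) (a (b (a (l 180086637575) (a (l 72712455911) (l 16777032))) (l 16777528)) (l 16776424))) (b (a (a (c (l 182770992663) (l 187602830823)) (a (a (l 67880617639) (l 16777000)) (l 16776528))) (l 16775632)) (a (a (b (a (l 143579416343) (l 16777064)) (l 16778048)) (l 16775888)) (l 16774032)))))) (b (b (l 4) (a (l 4) (a (b (l 4) (a (a (l 195655894711) (b (l 4) (l 83986745191))) (b (l 191360926871) (l 16777912)))) (a (b (l 4) (b (a (l 85597357943) (l 16777752)) (l 16776296))) (b (a (l 197266507479) (b (l 4) (l 87207970695))) (l 16776144)))))) (b (b (a (a (b (l 4) (a (l 4) (a (l 180623508279) (l 80228648679)))) (b (a (l 187602830439) (a (l 82376132343) (l 16777736))) (c (l 16776608) (l 16777568)))) (a (b (l 16776944) (l 16775344)) (l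 16774568))) (a (a (a (b (a (l 77544294167) (l 16777712)) (l 16776256)) (l 16776104)) (l 16775168)) (c (l 16775984) (l 16774536)))) (c (a (l 16774344) (l 16773208)) (a (l 16774440) (l 16771656)))))), by decide +kernel⟩

def k57_pm_011_t : ∃ t, chk3 f_pm_011_t t 91 112 1 = true :=
  ⟨(b (a (b (b (a (l 4) (a (b (l 4) (a (l 4) (a (l 194045281207) (l 92576679863)))) (b (a (l 197266506967) (a (l 93650421703) (l 41037071831))) (a (a (l 40500200903) (l 16776808)) (l 16776336))))) (a (a (l 4) (a (a (l 197266507511) (b (l 4) (l 90429196199))) (b (l 196192765127) (c (l 16776976) (l 16777944))))) (a (a (b (a (l 91502938039) (l 38889588167)) (l 16776328)) (l 16776832)) (l 16775560)))) (b (b (a (a (a (l 193508410551) (a (l 88818583447) (l 16777936))) (l 16776320)) (l 16775752)) (a (a (a (l 5066720839) (l 16776312)) (l 16775376)) (l 16773496))) (a (a (l 16775864) (l 16773952)) (l 16773392)))) (b (a (b (a (a (l 16776840) (l 16775552)) (l 16775920)) (l 16774496)) (b (l 16774040) (l 16771496)))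 (a (c (l 16773256) (l 16771712)) (b (l 16769280) (l 16767064))))) (a (a (c (b (l 16774464) (l 16768128)) (b (l 16772960) (l 16768792))) (c (c (l 16770232) (l 16770064)) (b (l 16770416) (l 16765264)))) (a (c (l 16767040) (b (l 16767216) (l 16762728))) (b (l 16764896) (l 16760480))))), by decide +kernel⟩

def k58_pm_011_t : ∃ t, chk3 f_pm_011_t t 45 113 1 = true :=
  ⟨(a (b (a (b (a (a (b (l 16775712) (l 16773832)) (l 16774848)) (a (l 16773608) (l 16771056))) (a (l 16771696) (l 16768408))) (a (b (l 16769848) (l 16765432)) (c (l 16766352) (l 16766568)))) (a (a (b (l 16767944) (l 16762896)) (b (l 16764168) (l 16760432))) (b (l 16761760) (l 16756720)))) (b (b (a (a (l 16764856) (a (l 16762328) (l 16761080))) (c (l 16758296) (l 16757632))) (a (c (l 16759520) (l 16760200)) (c (l 16754600) (l 16756432)))) (a (c (l 16756648) (l 16754496)) (a (l 16752480) (l 16749976))))), by decide +kernel⟩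

def k59_pm_011_t : ∃ t, chk3 f_pm_011_t t 22 57 1 = true :=
  ⟨(a (a (b (b (a (a (b (b (l 4) (b (a (l 4) (a (l 191897797815) (l 59827554391))) (a (a (l 4) (l 97408518535)) (l 16777960)))) (b (a (a (b (l 50163877927) (l 16776280)) (l 16776144)) (l 16775240)) (l 16773968))) (b (a (b (b (l 196192765783) (a (l 107072194999) (l 16777680))) (l 16775904)) (b (a (b (l 67880618199) (l 16776400)) (l 16776272)) (l 16774696))) (l 16774128))) (b (a (c (l 16775192) (b (l 16774696) (l 16775408))) (l 16772696)) (a (c (l 16772832) (l 16770904)) (l 16768952)))) (b (a (c (l 16772736) (a (l 16772352) (l 16771200))) (c (l 16766680) (l 16766192))) (a (a (l 16767448) (l 16765040)) (l 16764032)))) (a (b (b (l 16765160) (l 16758840)) (l 16755944)) (b (c (l 16756288) (l 16758056)) (l 16753768)))) (a (b (b (b (a (c (l 16774352) (l 16770096)) (l 16766512)) (c (l 16764256) (l 16765040))) (a (l 16761600) (l 16759832))) (b (l 16753656) (l 16743712))) (b (b (b (a (l 16764064) (l 16761616)) (l 16761744)) (c (l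 16754008) (l 16755712))) (b (l 16746192) (l 16738888))))) (b (a (a (b (a (l 16759928) (l 16754848)) (l 16751296)) (b (c (l 16751616) (l 16750664)) (l 16743768))) (a (b (l 16748816) (l 16738832)) (b (l 16741208) (l 16733872)))) (b (a (c (l 16742216) (l 16743416)) (l 16733000)) (a (c (l 16732456) (l 16730760)) (l 16727096))))), by decide +kernel⟩

def k60_pm_011_t : ∃ t, chk3 f_pm_011_t t 23 28 1 = true :=
  ⟨(b (a (b (b (b (a (a (a (b (l 16770208) (l 16768328)) (a (l 16767712) (l 16766120))) (a (a (l 16764864) (l 16763600)) (l 16762368))) (a (a (l 16759192) (l 16756664)) (c (l 16753272) (l 16752456)))) (a (a (a (a (l 16766128) (l 16764872)) (l 16763640)) (a (l 16760472) (l 16757960))) (c (a (l 16754560) (l 16749592)) (a (l 16753792) (l 16748664))))) (b (a (a (a (l 16761736) (l 16759232)) (c (l 16755832) (l 16755096))) (a (c (l 16750888) (l 16749984)) (l 16745400))) (a (a (c (l 16757072) (l 16756376)) (l 16753032)) (a (l 16746704) (l 16741680))))) (a (a (a (b (l 16754312) (l 16747480))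 (b (l 16752472) (l 16742376))) (b (c (l 16746632) (l 16748200)) (l 16741264))) (a (b (c (l 16741712) (l 16740504)) (l 16733672)) (b (c (l 16736776) (l 16735416)) (l 16728688))))) (b (a (a (b (b (a (l 16749064) (l 16746528)) (l 16744072)) (c (l 16739128) (l 16737856))) (a (b (l 16743768) (l 16734704)) (b (l 16742208) (l 16732176)))) (a (b (c (l 16736424) (l 16737720)) (c (l 16729152) (l 16727584))) (b (c (l 16731392) (l 16729920)) (l 16725912)))) (a (b (a (l 16733704) (l 16726048)) (a (l 16723688) (l 16718688))) (a (b (l 16721008) (l 16713672)) (b (l 16715952) (l 16708640)))))) (a (b (a (b (a (l 16740136) (l 16736456)) (c (l 16729848) (l 16729448))) (b (c (l 16724648) (l 16728136)) (a (l 16718880) (l 16713944)))) (a (a (l 16723280) (l 16718296)) (b (c (l 16710224) (l 16708032)) (l 16712456)))) (b (b (a (c (l 16714856) (l 16712816)) (c (l 16705016) (l 16702696))) (a (l 16706528) (l 16696608))) (a (a (l 16703336) (l 16693184)) (c (l 16687208) (l 16684408)))))), by decide +kernel⟩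

def k61_pm_011_t : ∃ t, chk3 f_pm_011_t t 11 29 1 = true :=
  ⟨(b (a (a (b (a (a (b (l 16746008) (l 16738736)) (b (l 16741232) (l 16733984))) (b (c (l 16734856) (l 16733200)) (l 16732080))) (a (b (c (l 16730088) (l 16728176)) (l 16727224)) (b (l 16724928) (l 16723072)))) (b (b (a (l 16729656) (l 16714696)) (a (l 16727744) (l 16707600))) (a (c (l 16713152) (l 16705336)) (c (l 16698464) (l 16695664))))) (a (b (a (c (l 16707856) (l 16700064)) (c (l 16692784) (l 16690056))) (a (c (l 16688904) (l 16685920)) (l 16682896))) (b (a (c (l 16693368) (l 16679984)) (c (l 16673128) (l 16670016))) (a (l 16678216) (b (l 16661112) (l 16664936)))))) (a (b (b (a (a (l 16720088) (l 16705528)) (a (l 16696152) (l 16686704))) (a (a (c (l 16709064) (l 16706360)) (l 16703752)) (a (l 16689224) (l 16679856)))) (a (a (c (b (l 16702120) (l 16695192)) (b (l 16699168) (l 16692008))) (b (c (l 16693088) (l 16689904)) (b (l 16686328) (a (l 16685144) (a (l 16681752) (l 16679448)))))) (a (b (c (l 16684024) (l 16680624))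 (c (b (l 16689424) (l 16675456)) (b (l 16675384) (l 16671840)))) (b (c (b (l 16676552) (l 16694072)) (l 16692232)) (l 16666232))))) (a (b (a (b (l 16677168) (c (l 16685344) (l 16668688))) (b (l 16667504) (b (l 16678240) (l 16659080)))) (a (b (c (l 16675848) (l 16661696)) (l 16656912)) (c (l 16652752) (l 16648840)))) (a (b (b (c (l 16680504) (l 16655952)) (l 16651072)) (l 16651760)) (b (b (l 16658144) (l 16641280)) (l 16642112)))))), by decide +kernel⟩

def k62_pm_011_t : ∃ t, chk3 f_pm_011_t t 20 30 1 = true :=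
  ⟨(b (b (a (b (a (b (a (a (l 16762632) (l 16760384)) (l 16757008)) (a (l 16758992) (l 16753200))) (a (c (l 16751080) (l 16752760)) (c (l 16746712) (l 16745584)))) (a (a (b (l 16753848) (l 16750024)) (a (l 16748592) (l 16746368))) (c (a (l 16743576) (l 16739240)) (a (l 16742440) (l 16737920))))) (a (a (b (c (l 16742360) (l 16741048)) (l 16736840)) (b (l 16738624) (l 16732448))) (a (b (l 16735520) (l 16725448)) (b (l 16728496) (l 16721080))))) (b (a (a (a (c (l 16744712) (l 16743800)) (c (l 16740376) (l 16739280))) (a (a (l 16736560) (l 16734360)) (l 16731064))) (a (a (l 16726696) (l 16722336)) (c (l 16716864) (l 16719928)))) (a (a (a (a (l 16737752) (l 16735552)) (l 16734872)) (a (l 16727880) (l 16723520))) (a (c (l 16717912) (l 16721240)) (b (c (l 16711360) (l 16709056)) (c (a (l 16709776) (l 16705560)) (a (l 16707504) (l 16703112)))))))) (a (b (a (a (b (c (l 16729512) (l 16728440)) (b (l 16723336) (l 16724808))) (b (l 16724656) (b (l 16718968) (l 16720432)))) (b (a (l 16720304)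 (b (l 16717864) (l 16714104))) (b (a (l 16719880) (l 16710336)) (l 16708736)))) (a (b (a (l 16713920) (l 16709576)) (l 16704256)) (b (a (l 16705264) (l 16701000)) (c (l 16707096) (l 16705112))))) (b (b (b (a (a (l 16713552) (c (l 16710240) (l 16708136))) (c (l 16703960) (l 16701568))) (a (a (l 16720280) (l 16705528)) (l 16699152))) (a (l 16702080) (l 16693616))) (a (b (l 16694648) (l 16687248)) (c (l 16683880) (l 16681120)))))), by decide +kernel⟩

def k63_pm_011_t : ∃ t, chk3 f_pm_011_t t 21 30 1 = true :=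
  ⟨(a (b (b (a (b (c (l 16722944) (l 16726016)) (c (l 16715680) (l 16713304))) (c (b (l 16714344) (l 16707168)) (b (l 16711816) (l 16704432)))) (b (a (a (l 16709352) (c (l 16716832) (l 16714152))) (a (b (l 16702568) (c (l 16700280) (l 16697408))) (b (c (l 16699696) (l 16696712)) (l 16694608)))) (a (b (c (a (l 16705064) (l 16700840)) (a (l 16702472) (l 16698088))) (l 16698016)) (l 16701792)))) (b (a (c (l 16700728) (l 16697800)) (c (l 16681992) (l 16678712))) (a (c (l 16675768) (l 16672608)) (l 16676488)))) (a (b (b (b (c (l 16705728) (l 16702864)) (a (c (l 16700808) (l 16697800)) (b (l 16696776) (b (l 16704600) (l 16692280))))) (b (a (c (l 16704072) (l 16711424)) (l 16687792)) (l 16682752))) (b (c (l 16673712) (l 16670136)) (l 16668232))) (b (b (b (c (a (l 16699224) (l 16694904)) (l 16704408)) (a (b (a (l 16693520) (l 16701808)) (l 16688808)) (c (l 16698288) (l 16684424)))) (c (l 16689928) (l 16675864))) (b (c (l 16665392) (l 16661552)) (l 16649480))))), by decide +kernel⟩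

def k64_pm_011_t : ∃ t, chk3 f_pm_011_t t 10 31 1 = true :=
  ⟨(a (b (b (a (a (b (l 16696760) (l 16689264)) (b (l 16698784) (l 16680920))) (a (b (l 16679888) (a (l 16674648) (l 16670496))) (l 16667976))) (b (a (a (l 16681760) (l 16673544)) (a (l 16665304) (l 16657120))) (a (a (l 16674240) (l 16666152)) (a (l 16658048) (c (l 16672464) (l 16669144)))))) (b (a (a (b (a (l 16668696) (l 16664712)) (l 16659120)) (b (l 16658744) (l 16651296))) (a (b (l 16650768) (l 16643464)) (l 16639192))) (a (a (b (l 16651496) (l 16643808)) (b (l 16643808) (l 16636256))) (a (l 16632424) (l 16624784))))) (b (b (a (a (l 16659816) (l 16651712)) (c (l 16641600) (l 16637440))) (a (b (l 16645072) (l 16648456)) (b (l 16650176) (l 16622256)))) (a (b (a (l 16631272) (l 16623480)) (b (l 16637776) (l 16630720))) (b (l 16611928) (l 16598152))))), by decide +kernel⟩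

def k65_pm_011_t : ∃ t, chk3 f_pm_011_t t 11 15 1 = true :=
  ⟨(b (a (b (a (b (b (a (c (b (l 16700560) (a (l 16688752) (l 16684296))) (b (l 16707664) (l 16698808))) (c (a (l 16702512) (l 16677136)) (l 16696696))) (a (l 16690056) (l 16670640))) (c (a (l 16670840) (l 16662160)) (a (l 16667048) (l 16658184)))) (b (c (a (l 16666984) (l 16657976)) (l 16674304)) (c (l 16659520) (l 16665816)))) (a (a (b (l 16665512) (l 16641168)) (b (l 16667432) (l 16632824))) (b (c (l 16656680) (l 16631280)) (c (l 16622520) (l 16617872))))) (b (a (b (c (l 16654792) (l 16640152)) (c (l 16652264) (l 16626880))) (b (c (l 16625768) (l 16621440)) (c (l 16613224) (l 16608656)))) (a (b (c (l 16618432) (l 16613792)) (l 16619072)) (b (l 16619464) (l 16586192))))) (b (a (b (a (c (l 16625616) (l 16621064)) (l 16628104)) (a (b (l 16634312) (l 16606616)) (b (l 16597360) (l 16590920)))) (b (a (c (l 16614232) (l 16588216)) (b (l 16577104) (l 16571088))) (a (l 16578200) (l 16562136)))) (a (a (b (l 16596592) (l 16583264))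 (b (l 16581256) (l 16568408))) (a (b (l 16565848) (l 16553536)) (l 16565400))))), by decide +kernel⟩

def k66_pm_011_t : ∃ t, chk3 f_pm_011_t t 6 12 1 = true :=
  ⟨(a (b (l 4) (a (l 4) (b (l 4) (a (l 4) (b (l 4) (a (b (l 4) (a (l 4) (l 212835768199))) (a (b (l 4) (b (a (l 4) (l 94187300359)) (c (l 16775944) (l 16781144)))) (b (a (l 190824058071) (l 1)) (l 16777480))))))))) (b (l 1) (a (b (l 1) (a (b (l 1) (a (b (l 1) (l 16774608)) (l 1))) (l 1))) (l 1)))), by decide +kernel⟩

def k67_pm_011_t : ∃ t, chk3 f_pm_011_t t 24 26 1 = true :=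
  ⟨(b (l 4) (a (b (l 4) (a (l 4) (b (l 4) (a (b (l 4) (a (l 4) (l 162369899863))) (a (b (l 202098349447) (l 19562240903)) (b (c (l 67343753479) (l 69491235911)) (l 16773904))))))) (b (a (b (l 4) (a (l 4) (b (l 4) (a (l 4) (c (l 89892332727) (l 95261041943)))))) (a (b (l 4) (b (a (l 172570447559) (a (l 65196268087) (l 16776096))) (l 16777616))) (b (b (a (l 4) (l 157001190071)) (c (l 27078436263) (a (l 77544301143) (l 16775104)))) (c (l 16770912) (l 16770752))))) (a (b (b (a (l 199413996439) (a (l 56069463943) (l 16774560))) (a (a (l 150558738983) (l 16778816)) (l 16772128))) (a (b (l 16773704) (l 16769928)) (l 16771744))) (b (a (l 16769992) (l 16763352)) (c (l 16769264) (l 16763544))))))), by decide +kernel⟩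

def k68_pm_011_t : ∃ t, chk3 f_pm_011_t t 25 26 1 = true :=
  ⟨(b (a (b (a (l 4) (a (l 4) (b (l 4) (a (l 179549769815) (b (l 192434670503) (l 16775992)))))) (a (b (a (l 4) (b (l 4) (l 189213447111))) (b (a (l 4) (a (l 96871654935) (l 16775608))) (a (a (l 197803381047) (l 60364431239)) (l 16773192)))) (a (b (b (a (l 207467057367) (l 78618042999)) (l 16780576)) (l 16769664)) (b (l 16771720) (l 16764296))))) (b (a (b (b (a (l 4) (a (l 120493976007) (l 16776272))) (a (a (l 4) (l 88818590695)) (l 16773880))) (a (c (l 16779088) (b (l 16780896) (l 16771824))) (l 16768328))) (b (b (l 16772048) (l 16776248)) (l 16770744))) (a (b (l 16774120) (l 16766752)) (b (l 16763424) (l 16756104))))) (a (b (b (a (a (b (l 16780128) (l 16771088)) (l 16778080)) (l 16766112)) (a (c (l 16773464) (l 16767888)) (l 16757400))) (b (a (c (l 16755632) (l 16760352)) (l 16748040)) (a (l 16751880) (l 16737392)))) (a (b (c (l 16756040) (l 16752744)) (c (l 16736304) (a (l 16732672) (l 16737872)))) (b (c (l 16745568)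 (l 16744720)) (b (l 16734232) (l 16726968)))))), by decide +kernel⟩

def k69_pm_011_t : ∃ t, chk3 f_pm_011_t t 24 54 1 = true :=
  ⟨(a (b (a (b (a (l 4) (b (l 4) (a (l 187065962519) (a (l 67343750919) (l 16776320))))) (a (a (b (l 4) (b (l 144116287047) (l 16778968))) (b (b (l 202098347751) (l 64122525271)) (l 16774632))) (b (a (c (l 16778480) (l 16778424)) (l 16773152)) (l 16770688)))) (b (b (a (a (a (l 160222415399) (l 59827559159)) (l 16775456)) (l 16771456)) (a (l 16772976) (l 16767696))) (a (c (l 16772704) (l 16769800)) (l 16764680)))) (a (b (a (b (c (l 16772240) (l 16772088)) (l 16771008)) (a (l 16768968) (l 16763728))) (a (b (l 16767240) (l 16760864)) (a (l 16758832) (l 16756216)))) (b (a (b (l 16761680) (l 16763168)) (l 16755872)) (b (a (l 16754176) (l 16748960)) (a (l 16750440) (l 16745232)))))) (b (a (a (b (l 16764288) (l 16756800)) (b (l 16759008) (l 16751536))) (b (a (l 16753728) (l 16753688)) (a (l 16754144) (l 16741024)))) (a (a (b (c (l 16754960) (l 16747616)) (c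 (l 16742376) (l 16741368))) (b (c (l 16744544) (l 16743624)) (c (l 16737232) (l 16736088)))) (a (b (l 16738856) (l 16731456)) (b (l 16733624) (l 16726248)))))), by decide +kernel⟩

def k70_pm_011_t : ∃ t, chk3 f_pm_011_t t 24 55 1 = true :=
  ⟨(a (b (a (b (a (c (b (l 16757416) (l 16753736)) (b (l 16756800) (l 16753000))) (b (c (l 16752288) (l 16751528)) (l 16748832))) (b (a (c (l 16750056) (l 16749208)) (l 16744936)) (a (c (l 16746384) (l 16745424)) (c (l 16741280) (l 16740176))))) (b (b (a (l 16746704) (l 16741504)) (a (l 16742984) (l 16737792))) (a (b (l 16739264) (l 16735552)) (c (l 16732896) (l 16731568))))) (a (a (b (b (a (l 16743480) (l 16740896)) (l 16739784)) (c (l 16733608) (l 16733544))) (b (b (l 16737016) (l 16733320)) (c (l 16728528) (l 16727024)))) (b (c (a (l 16730712) (l 16725624)) (a (l 16729296) (l 16724080))) (c (a (l 16723456) (l 16718392)) (a (l 16721816) (l 16716616)))))) (b (a (b (a (c (l 16735072) (l 16733840)) (c (l 16729944) (l 16728584))) (c (a (l 16727792)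 (l 16722688)) (a (l 16726336) (l 16721104)))) (a (b (l 16724080) (c (l 16717584) (l 16715888))) (b (l 16718904) (l 16711592)))) (a (b (c (a (l 16720544) (l 16715464)) (a (l 16718864) (l 16713664))) (a (l 16713696) (l 16707264))) (b (a (l 16712056) (l 16704304)) (a (l 16702160) (l 16697056)))))), by decide +kernel⟩

def k71_pm_011_t : ∃ t, chk3 f_pm_011_t t 25 27 1 = true :=
  ⟨(b (a (b (a (a (a (l 16740792) (l 16738160)) (b (l 16737912) (l 16730536))) (b (c (l 16730600) (l 16739952)) (c (l 16723368) (l 16722024)))) (a (a (b (l 16728400) (l 16721056)) (b (l 16723192) (l 16715864))) (b (c (l 16716160) (l 16714608)) (c (l 16708976) (l 16707216))))) (b (b (a (c (l 16720248) (l 16718920)) (l 16709232)) (a (a (l 16714904) (l 16709728)) (l 16702008))) (a (c (b (l 16705912) (l 16698784)) (b (l 16704176) (l 16696840))) (b (l 16694800) (l 16687624))))) (a (b (a (b (a (l 16713736) (l 16708576)) (a (l 16706440) (l 16701312))) (b (c (l 16701824) (l 16699856)) (c (l 16694704) (l 16695144))))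 (a (a (b (l 16699184) (l 16691960)) (b (l 16694080) (l 16686880))) (c (b (l 16687616) (l 16680568)) (b (l 16685232) (l 16677968))))) (b (b (a (c (l 16691680) (l 16689528)) (l 16680472)) (a (c (l 16684608) (l 16682248)) (c (l 16674592) (l 16672072)))) (b (a (c (l 16677576) (l 16675008)) (l 16668888)) (a (c (l 16670576) (l 16667800)) (l 16664456)))))), by decide +kernel⟩

def k72_pm_011_t : ∃ t, chk3 f_pm_011_t t 13 13 1 = true :=
  ⟨(b (a (b (a (b (a (l 16763696) (l 16763544)) (a (c (l 16759992) (l 16748816)) (b (l 16752744) (l 16745552)))) (b (l 1) (c (l 16734136) (l 16733040)))) (a (a (b (l 16726816) (c (l 16731392) (l 16719544))) (b (l 16724288) (c (l 16700224) (l 16698704)))) (a (b (l 16724496) (l 16699800)) (b (l 16693384) (l 16679288))))) (a (b (l 1) (b (l 1) (l 16685560))) (l 1))) (a (a (a (a (b (b (l 16697928) (l 16683600)) (b (l 16669376) (l 16655280))) (b (b (l 16692824) (l 16678544)) (b (l 16664376) (l 16650344)))) (b (b (a (l 16687744) (l 16682688)) (b (l 16674560) (l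 16667488))) (b (b (l 16660440) (l 16653432)) (c (l 16644496) (l 16641392))))) (a (b (b (l 16696136) (l 16682056)) (b (c (l 16648496) (l 16645648)) (l 16634560))) (b (b (l 16665248) (l 16651280)) (b (l 16637408) (l 16623664))))) (b (a (b (c (l 16672872) (l 16670416)) (c (l 16659256) (l 16656408))) (b (l 1) (l 16639456))) (a (b (c (l 16645728) (l 16642496)) (c (l 16632336) (l 16607736))) (b (a (l 16609416) (l 16600592)) (a (l 16595968) (l 16587248))))))), by decide +kernel⟩

def k73_pm_011_t : ∃ t, chk3 f_pm_011_t t 7 6 1 = true :=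
  ⟨(b (l 1) (a (b (l 1) (a (a (b (l 1) (b (l 1) (l 31171717879))) (l 1)) (l 1))) (l 1))), by decide +kernel⟩

def k74_pm_011_t : ∃ t, chk3 f_pm_011_t t 12 28 1 = true :=
  ⟨(a (b (a (a (b (b (c (a (l 16726344) (l 16721288)) (a (l 16724736) (l 16719552))) (a (l 16718200) (l 16713104))) (a (b (l 16710880) (l 16703600)) (b (l 16705816) (l 16698560)))) (b (b (a (l 16717928) (l 16710200)) (a (l 16708016) (l 16702928))) (c (b (l 16699400) (l 16692296)) (a (l 16701152) (l 16696048))))) (b (a (a (b (l 16705096) (l 16697848)) (b (l 16700000) (l 16692776))) (c (b (l 16693576) (l 16686488)) (b (l 16693784) (l 16683872)))) (b (a (c (l 16689408) (l 16686800)) (c (l 16679448) (l 16676616))) (a (l 16683576) (l 16670936))))) (a (b (b (a (c (l 16695120) (l 16692552)) (l 16683824)) (a (l 16686656) (l 16676696))) (a (c (l 16677472) (l 16674424)) (c (l 16667728) (l 16664448)))) (b (a (a (l 16678032) (l 16667816)) (c (l 16662032) (l 16663928))) (a (c (l 16658000) (l 16654512)) (c (l 16648304) (l 16644608))))))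 (b (b (b (a (a (c (l 16683544) (l 16680928)) (a (l 16674680) (l 16669648))) (a (l 16664760) (l 16652208))) (a (a (c (l 16676512) (l 16673688)) (l 16670328)) (a (l 16660360) (l 16645232)))) (b (a (a (l 16673264) (l 16658040)) (a (l 16648136) (l 16638312))) (a (a (l 16660968) (l 16651048)) (a (l 16641200) (l 16631432))))) (a (b (a (c (l 16652240) (l 16648704)) (c (l 16642496) (l 16638784))) (a (c (l 16638640) (l 16634760)) (b (l 16630392) (l 16623768)))) (b (a (c (l 16632808) (l 16628936)) (c (l 16623192) (l 16619176))) (a (b (l 16620720) (c (l 16616104) (l 16611840))) (b (c (l 16613344) (l 16609064)) (l 16604456))))))), by decide +kernel⟩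

def k75_pm_011_t : ∃ t, chk3 f_pm_011_t t 12 29 1 = true :=
  ⟨(a (b (b (a (a (l 16661856) (l 16652144)) (a (b (l 16645888) (l 16639160)) (b (l 16636200) (l 16629392)))) (a (a (b (l 16651408) (c (l 16646288) (l 16642680))) (b (l 16641888) (l 16634992))) (a (b (l 16632144) (l 16625584)) (l 16619448)))) (a (b (a (c (l 16636552) (l 16632712)) (l 16635520)) (c (a (l 16623936) (l 16614264)) (l 16625448))) (b (a (l 16615696) (l 16606384)) (c (l 16600392) (l 16595952))))) (b (a (b (a (b (l 16626632) (l 16619808)) (b (l 16616824) (l 16610368))) (a (l 16610008) (l 16600616))) (b (a (l 16604176) (l 16594784)) (a (l 16591288) (l 16582032)))) (a (b (a (l 16597096) (l 16587864)) (a (l 16584480) (l 16575408))) (a (b (l 16578688) (l 16566400)) (b (l 16569584) (l 16557456)))))), by decide +kernel⟩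

def k76_pm_011_t : ∃ t, chk3 f_pm_011_t t 13 14 1 = true :=
  ⟨(b (a (a (a (b (b (c (l 16640552) (l 16637184)) (c (l 16627008) (l 16623240))) (b (c (l 16613864) (l 16614928)) (b (l 16601496) (l 16595120)))) (b (b (c (l 16630888) (l 16627384)) (l 16620776)) (b (b (l 16605440) (l 16598752)) (l 16589024)))) (a (b (b (l 16619552) (l 16606024)) (b (b (l 16596120) (l 16589376)) (l 16579776))) (b (b (l 16610064) (c (l 16598904) (l 16594696))) (b (b (l 16586576) (l 16580248)) (l 16570664))))) (a (a (b (b (l 16600744) (b (l 16590728) (l 16584080))) (b (l 16574408) (l 16561696))) (b (b (l 16591600) (b (l 16581776) (l 16575080))) (b (l 16565512) (l 16552896)))) (a (b (b (l 16582896) (l 16569336)) (b (l 16556800) (l 16544296))) (b (b (l 16574224) (l 16561080)) (b (l 16548368) (l 16535952)))))) (a (b (a (a (b (l 16585472) (l 16572864)) (b (l 16576248) (l 16563776))) (a (b (l 16567136) (l 16554800)) (b (l 16558136) (l 16545936)))) (a (a (b (l 16560568) (l 16548592)) (b (l 16562112) (l 16539808)))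 (b (c (a (l 16545448) (l 16536792)) (l 16535648)) (c (l 16529576) (l 16524008))))) (a (b (a (b (l 16549288) (l 16547696)) (b (l 16540608) (l 16533896))) (b (c (a (l 16528272) (l 16519920)) (l 16518312)) (c (l 16512824) (l 16506960)))) (b (c (b (l 16536040) (a (l 16523160) (l 16515120))) (b (l 16525024) (l 16513136))) (l 6))))), by decide +kernel⟩

def k77_pm_011_t : ∃ t, chk3 f_pm_011_t t 6 15 1 = true :=
  ⟨(a (b (a (b (b (a (c (l 16606840) (l 16602416)) (c (l 16598536) (l 16583480))) (a (l 16602968) (a (l 16578472) (l 16569184)))) (a (b (l 16580528) (l 16568776)) (b (l 16562368) (l 16551160)))) (b (b (a (l 16567728) (a (l 16554440) (l 16545664))) (a (c (l 16558280) (l 16553392)) (l 16538512))) (a (b (c (l 16546888) (l 16541952)) (a (l 16537880) (l 16529096))) (b (l 16527328) (l 6))))) (a (b (b (a (b (l 16560160) (l 16554296)) (b (l 16542928) (l 16537440))) (a (l 16545816) (l 6))) (a (l 16549944) (l 6))) (b (l 6) (l 6)))) (b (b (a (a (b (c (l 16535320) (l 16529944)) (l 16521472))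 (b (c (l 16518384) (l 16512752)) (l 6))) (l 6)) (l 6)) (l 6))), by decide +kernel⟩

def k78_pm_011_t : ∃ t, chk3 f_pm_011_t t 7 7 1 = true :=
  ⟨(b (a (b (a (b (a (b (b (l 16586080) (l 16558568)) (c (l 16551600) (l 16546416))) (b (l 1) (l 16534800))) (a (b (c (l 16539200) (l 16533616)) (c (l 16527080) (l 16521152))) (b (l 16543272) (c (l 16513248) (l 16506832))))) (b (l 1) (l 6))) (a (b (b (a (c (l 16515264) (l 16509064)) (l 6)) (l 6)) (l 6)) (l 6))) (l 6)) (l 6)), by decide +kernel⟩

theorem s79_pm_011_t : ∃ t, chk3 f_pm_011_t t 12 14 1 = true := ex3_b k74_pm_011_t k75_pm_011_t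

theorem s80_pm_011_t : ∃ t, chk3 f_pm_011_t t 6 14 1 = true := ex3_a s79_pm_011_t k76_pm_011_t

theorem s81_pm_011_t : ∃ t, chk3 f_pm_011_t t 6 7 1 = true := ex3_b s80_pm_011_t k77_pm_011_t

theorem s82_pm_011_t : ∃ t, chk3 f_pm_011_t t 3 7 1 = true := ex3_a s81_pm_011_t k78_pm_011_t

theorem s83_pm_011_t : ∃ t, chk3 f_pm_011_t t 24 27 1 = true := ex3_b k69_pm_011_t k70_pm_011_t

theorem s84_pm_011_t : ∃ t, chk3 f_pm_011_t t 12 27 1 = true := ex3_a s83_pm_011_t k71_pm_011_t

theorem s85_pm_011_t : ∃ t, chk3 f_pm_011_t t 12 26 1 = true := ex3_a k67_pm_011_t k68_pm_011_t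

theorem s86_pm_011_t : ∃ t, chk3 f_pm_011_t t 12 13 1 = true := ex3_b s85_pm_011_t s84_pm_011_t

theorem s87_pm_011_t : ∃ t, chk3 f_pm_011_t t 6 13 1 = true := ex3_a s86_pm_011_t k72_pm_011_t

theorem s88_pm_011_t : ∃ t, chk3 f_pm_011_t t 6 6 1 = true := ex3_b k66_pm_011_t s87_pm_011_t

theorem s89_pm_011_t : ∃ t, chk3 f_pm_011_t t 3 6 1 = true := ex3_a s88_pm_011_t k73_pm_011_t

theorem s90_pm_011_t : ∃ t, chk3 f_pm_011_t t 3 3 1 = true := ex3_b s89_pm_011_t s82_pm_011_t

theorem s91_pm_011_t : ∃ t, chk3 f_pm_011_t t 10 30 1 = true := ex3_a k62_pm_011_t k63_pm_011_t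

theorem s92_pm_011_t : ∃ t, chk3 f_pm_011_t t 10 15 1 = true := ex3_b s91_pm_011_t k64_pm_011_t

theorem s93_pm_011_t : ∃ t, chk3 f_pm_011_t t 5 15 1 = true := ex3_a s92_pm_011_t k65_pm_011_t

theorem s94_pm_011_t : ∃ t, chk3 f_pm_011_t t 45 112 1 = true := ex3_a k56_pm_011_t k57_pm_011_t

theorem s95_pm_011_t : ∃ t, chk3 f_pm_011_t t 45 56 1 = true := ex3_b s94_pm_011_t k58_pm_011_t

theorem s96_pm_011_t : ∃ t, chk3 f_pm_011_t t 44 56 1 = true := ex3_b k54_pm_011_t k55_pm_011_t

theorem s97_pm_011_t : ∃ t, chk3 f_pm_011_t t 22 56 1 = true := ex3_a s96_pm_011_t s95_pm_011_t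

theorem s98_pm_011_t : ∃ t, chk3 f_pm_011_t t 22 28 1 = true := ex3_b s97_pm_011_t k59_pm_011_t

theorem s99_pm_011_t : ∃ t, chk3 f_pm_011_t t 11 28 1 = true := ex3_a s98_pm_011_t k60_pm_011_t

theorem s100_pm_011_t : ∃ t, chk3 f_pm_011_t t 11 14 1 = true := ex3_b s99_pm_011_t k61_pm_011_t

theorem s101_pm_011_t : ∃ t, chk3 f_pm_011_t t 21 29 1 = true := ex3_b k52_pm_011_t k53_pm_011_t

theorem s102_pm_011_t : ∃ t, chk3 f_pm_011_t t 20 59 1 = true := ex3_a k50_pm_011_t k51_pm_011_t

theorem s103_pm_011_t : ∃ t, chk3 f_pm_011_t t 20 29 1 = true := ex3_b k49_pm_011_t s102_pm_011_t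

theorem s104_pm_011_t : ∃ t, chk3 f_pm_011_t t 10 29 1 = true := ex3_a s103_pm_011_t s101_pm_011_t

theorem s105_pm_011_t : ∃ t, chk3 f_pm_011_t t 43 57 1 = true := ex3_a k47_pm_011_t k48_pm_011_t

theorem s106_pm_011_t : ∃ t, chk3 f_pm_011_t t 21 57 1 = true := ex3_a k46_pm_011_t s105_pm_011_t

theorem s107_pm_011_t : ∃ t, chk3 f_pm_011_t t 21 28 1 = true := ex3_b k45_pm_011_t s106_pm_011_t

theorem s108_pm_011_t : ∃ t, chk3 f_pm_011_t t 10 28 1 = true := ex3_a k44_pm_011_t s107_pm_011_t

theorem s109_pm_011_t : ∃ t, chk3 f_pm_011_t t 10 14 1 = true := ex3_b s108_pm_011_t s104_pm_011_t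

theorem s110_pm_011_t : ∃ t, chk3 f_pm_011_t t 5 14 1 = true := ex3_a s109_pm_011_t s100_pm_011_t

theorem s111_pm_011_t : ∃ t, chk3 f_pm_011_t t 5 7 1 = true := ex3_b s110_pm_011_t s93_pm_011_t

theorem s112_pm_011_t : ∃ t, chk3 f_pm_011_t t 18 63 1 = true := ex3_b k41_pm_011_t k42_pm_011_t

theorem s113_pm_011_t : ∃ t, chk3 f_pm_011_t t 9 63 1 = true := ex3_a s112_pm_011_t k43_pm_011_t

theorem s114_pm_011_t : ∃ t, chk3 f_pm_011_t t 36 62 1 = true := ex3_b k37_pm_011_t k38_pm_011_t

theorem s115_pm_011_t : ∃ t, chk3 f_pm_011_t t 18 62 1 = true := ex3_a s114_pm_011_t k39_pm_011_t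

theorem s116_pm_011_t : ∃ t, chk3 f_pm_011_t t 9 62 1 = true := ex3_a s115_pm_011_t k40_pm_011_t

theorem s117_pm_011_t : ∃ t, chk3 f_pm_011_t t 9 31 1 = true := ex3_b s116_pm_011_t s113_pm_011_t

theorem s118_pm_011_t : ∃ t, chk3 f_pm_011_t t 19 60 1 = true := ex3_a k34_pm_011_t k35_pm_011_t

theorem s119_pm_011_t : ∃ t, chk3 f_pm_011_t t 19 30 1 = true := ex3_b s118_pm_011_t k36_pm_011_t

theorem s120_pm_011_t : ∃ t, chk3 f_pm_011_t t 37 61 1 = true := ex3_a k32_pm_011_t k33_pm_011_t

theorem s121_pm_011_t : ∃ t, chk3 f_pm_011_t t 36 123 1 = true := ex3_b k30_pm_011_t k31_pm_011_t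

theorem s122_pm_011_t : ∃ t, chk3 f_pm_011_t t 36 61 1 = true := ex3_b k29_pm_011_t s121_pm_011_t

theorem s123_pm_011_t : ∃ t, chk3 f_pm_011_t t 18 61 1 = true := ex3_a s122_pm_011_t s120_pm_011_t

theorem s124_pm_011_t : ∃ t, chk3 f_pm_011_t t 18 30 1 = true := ex3_b k28_pm_011_t s123_pm_011_t

theorem s125_pm_011_t : ∃ t, chk3 f_pm_011_t t 9 30 1 = true := ex3_a s124_pm_011_t s119_pm_011_t

theorem s126_pm_011_t : ∃ t, chk3 f_pm_011_t t 9 15 1 = true := ex3_b s125_pm_011_t s117_pm_011_t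

theorem s127_pm_011_t : ∃ t, chk3 f_pm_011_t t 17 63 1 = true := ex3_b k26_pm_011_t k27_pm_011_t

theorem s128_pm_011_t : ∃ t, chk3 f_pm_011_t t 35 125 1 = true := ex3_b k24_pm_011_t k25_pm_011_t

theorem s129_pm_011_t : ∃ t, chk3 f_pm_011_t t 71 124 1 = true := ex3_a k22_pm_011_t k23_pm_011_t

theorem s130_pm_011_t : ∃ t, chk3 f_pm_011_t t 70 249 1 = true := ex3_b k20_pm_011_t k21_pm_011_t

theorem s131_pm_011_t : ∃ t, chk3 f_pm_011_t t 70 124 1 = true := ex3_b k19_pm_011_t s130_pm_011_t

theorem s132_pm_011_t : ∃ t, chk3 f_pm_011_t t 35 124 1 = true := ex3_a s131_pm_011_t s129_pm_011_t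

theorem s133_pm_011_t : ∃ t, chk3 f_pm_011_t t 35 62 1 = true := ex3_b s132_pm_011_t s128_pm_011_t

theorem s134_pm_011_t : ∃ t, chk3 f_pm_011_t t 69 250 1 = true := ex3_b k16_pm_011_t k17_pm_011_t

theorem s135_pm_011_t : ∃ t, chk3 f_pm_011_t t 69 125 1 = true := ex3_b s134_pm_011_t k18_pm_011_t

theorem s136_pm_011_t : ∃ t, chk3 f_pm_011_t t 34 125 1 = true := ex3_a k15_pm_011_t s135_pm_011_t

theorem s137_pm_011_t : ∃ t, chk3 f_pm_011_t t 34 62 1 = true := ex3_b k14_pm_011_t s136_pm_011_t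

theorem s138_pm_011_t : ∃ t, chk3 f_pm_011_t t 17 62 1 = true := ex3_a s137_pm_011_t s133_pm_011_t

theorem s139_pm_011_t : ∃ t, chk3 f_pm_011_t t 17 31 1 = true := ex3_b s138_pm_011_t s127_pm_011_t

theorem s140_pm_011_t : ∃ t, chk3 f_pm_011_t t 8 31 1 = true := ex3_a k13_pm_011_t s139_pm_011_t

theorem s141_pm_011_t : ∃ t, chk3 f_pm_011_t t 8 15 1 = true := ex3_b k12_pm_011_t s140_pm_011_t

theorem s142_pm_011_t : ∃ t, chk3 f_pm_011_t t 4 15 1 = true := ex3_a s141_pm_011_t s126_pm_011_t

theorem s143_pm_011_t : ∃ t, chk3 f_pm_011_t t 4 7 1 = true := ex3_b k11_pm_011_t s142_pm_011_t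

theorem s144_pm_011_t : ∃ t, chk3 f_pm_011_t t 2 7 1 = true := ex3_a s143_pm_011_t s111_pm_011_t

theorem s145_pm_011_t : ∃ t, chk3 f_pm_011_t t 23 111 1 = true := ex3_b k9_pm_011_t k10_pm_011_t

theorem s146_pm_011_t : ∃ t, chk3 f_pm_011_t t 23 110 1 = true := ex3_a k7_pm_011_t k8_pm_011_t

theorem s147_pm_011_t : ∃ t, chk3 f_pm_011_t t 23 55 1 = true := ex3_b s146_pm_011_t s145_pm_011_t

theorem s148_pm_011_t : ∃ t, chk3 f_pm_011_t t 23 27 1 = true := ex3_b k6_pm_011_t s147_pm_011_t

theorem s149_pm_011_t : ∃ t, chk3 f_pm_011_t t 11 27 1 = true := ex3_a k5_pm_011_t s148_pm_011_t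

theorem s150_pm_011_t : ∃ t, chk3 f_pm_011_t t 11 13 1 = true := ex3_b k4_pm_011_t s149_pm_011_t

theorem s151_pm_011_t : ∃ t, chk3 f_pm_011_t t 5 13 1 = true := ex3_a k3_pm_011_t s150_pm_011_t

theorem s152_pm_011_t : ∃ t, chk3 f_pm_011_t t 5 6 1 = true := ex3_b k2_pm_011_t s151_pm_011_t

theorem s153_pm_011_t : ∃ t, chk3 f_pm_011_t t 2 6 1 = true := ex3_a k1_pm_011_t s152_pm_011_t

theorem s154_pm_011_t : ∃ t, chk3 f_pm_011_t t 2 3 1 = true := ex3_b s153_pm_011_t s144_pm_011_t

theorem s155_pm_011_t : ∃ t, chk3 f_pm_011_t t 1 3 1 = true := ex3_a s154_pm_011_t s90_pm_011_t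

theorem s156_pm_011_t : ∃ t, chk3 f_pm_011_t t 1 1 1 = true := ex3_b k0_pm_011_t s155_pm_011_t

theorem c_pm_011_t : CertNE 0 536870912 536870912 536870912 587336777 62277027 3 eng mog cd0q0 cd0q1 pd1 false true false .pnn 0 1 1
    ndB0q0 ndB0q1 pcB1 cut_pm_011_t Ext.none :=
  certNE0 (fam := false) (s1 := true) (s2 := false) (a := 0) (b := 1) (c := 1) (cn := .pnn) (n1 := ndB0q0) (n2 := ndB0q1) (pc := pcB1) (cut := cut_pm_011_t) (xt := Ext.none) (P1 := 0) (W1 := 536870912) (P2 := 536870912) (W2 := 536870912) (P3 := 587336777) (W3 := 62277027) (N0 := 3) (En := eng) (mo := mog) (C1 := cd0q0) (C2 := cd0q1) (C3 := pd1)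
    rfl s156_pm_011_t

noncomputable def cut_pm_012_s : Cut := Cut.of [[⟨4, 0, 0, 1449551462⟩], [⟨0, 0, 0, 67108864⟩, ⟨1, 1, 0, 67108864⟩, ⟨2, 1, 0, 67108864⟩]]

noncomputable def f_pm_012_s : ℕ → ℕ → ℕ → ℕ → Bool := onCell 0 536870912 0 536870912 587336777 62277027
    (rowNE 3 eng mog cd0q0 cd0q2 pd1 0 false true false .pnp 0 1 2 (qsf 0 536870912 0 536870912 1) ndB0q0 ndB0q2 pcB1 cut_pm_012_s Ext.none)

def k0_pm_012_s : ∃ t, chk3 f_pm_012_s t 1 1 1 = true :=
  ⟨(a (l 6) (b (a (b (a (l 6) (b (a (l 6) (b (l 16629656) (l 6))) (l 6))) (l 6)) (b (b (a (a (b (a (l 16646360) (l 16656968)) (l 6)) (b (a (l 16687824) (l 16697024)) (l 16674984))) (a (b (a (l 16685176) (l 16694088)) (a (b (l 16671368) (l 16662328)) (b (l 16679784) (l 16670512)))) (b (a (l 16702776) (l 16711480)) (a (l 16704224) (l 16691424))))) (a (l 6) (a (b (l 16653320) (l 6)) (b (a (l 16685600) (b (l 16676840) (l 16667512))) (a (l 16647312) (l 16654136)))))) (l 6))) (l 6))), by decide +kernel⟩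

theorem c_pm_012_s : CertNE 0 536870912 0 536870912 587336777 62277027 3 eng mog cd0q0 cd0q2 pd1 false true false .pnp 0 1 2
    ndB0q0 ndB0q2 pcB1 cut_pm_012_s Ext.none :=
  certNE0 (fam := false) (s1 := true) (s2 := false) (a := 0) (b := 1) (c := 2) (cn := .pnp) (n1 := ndB0q0) (n2 := ndB0q2) (pc := pcB1) (cut := cut_pm_012_s) (xt := Ext.none) (P1 := 0) (W1 := 536870912) (P2 := 0) (W2 := 536870912) (P3 := 587336777) (W3 := 62277027) (N0 := 3) (En := eng) (mo := mog) (C1 := cd0q0) (C2 := cd0q2) (C3 := pd1)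
    rfl k0_pm_012_s

noncomputable def cut_pm_012_t : Cut := Cut.of [[⟨3, 0, 0, 2845415833⟩], [⟨0, 0, 0, 67108864⟩, ⟨1, 1, 0, 67108864⟩, ⟨2, 1, 0, 67108864⟩]]

noncomputable def f_pm_012_t : ℕ → ℕ → ℕ → ℕ → Bool := onCell 0 536870912 0 536870912 587336777 62277027
    (rowNE 3 eng mog cd0q0 cd0q2 pd1 0 false true false .pnp 0 1 2 (qsf 0 536870912 0 536870912 1) ndB0q0 ndB0q2 pcB1 cut_pm_012_t Ext.none)

def k0_pm_012_t : ∃ t, chk3 f_pm_012_t t 1 2 1 = true :=
  ⟨(l 6), by decide +kernel⟩

def k1_pm_012_t : ∃ t, chk3 f_pm_012_t t 4 3 1 = true :=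
  ⟨(b (a (l 2) (a (a (a (l 2) (l 6)) (l 6)) (l 6))) (b (a (a (l 2) (b (a (l 2) (b (l 2) (l 16612184))) (a (l 14) (a (l 14) (l 16642616))))) (a (b (a (b (l 16589128) (l 16602928)) (l 16586376)) (a (b (l 16615864) (l 16629424)) (b (l 16604128) (l 16616904)))) (a (b (l 16576224) (l 16593608)) (b (l 6) (l 16587472))))) (a (a (l 14) (a (l 14) (a (l 14) (a (l 14) (a (l 14) (b (b (l 16651352) (l 16666680)) (b (l 16682648) (b (l 16694896) (b (l 16701096) (c (l 16706976) (l 16703456))))))))))) (b (a (a (b (a (l 16647048) (l 16640272)) (a (l 16662128) (l 16654968))) (b (l 16630336) (b (l 16640816) (l 16648040)))) (b (a (l 16617456) (l 16604912)) (a (l 16630784) (l 16617472)))) (b (b (a (a (l 16670080) (l 16655408)) (a (l 16641176) (l 16627280))) (a (a (a (l 16681824) (l 16674168)) (l 16662912)) (a (l 16648288) (l 16634008)))) (a (b (a (a (l 16700400) (l 16682064)) (a (l 16674336) (l 16666728))) (a (b (a (l 16696024) (l 16688024)) (a (a (c (l 16703960) (l 16702912)) (c (l 16699968) (l 16696120)))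 (b (l 16691016) (c (l 16695064) (l 16690888))))) (b (a (l 16680152) (l 16672400)) (a (b (l 16683072) (a (l 16687008) (l 16683048))) (c (l 16678496) (l 16679032)))))) (b (a (a (l 16659224) (l 16651816)) (l 16661816)) (a (b (a (l 16664752) (l 16657200)) (c (a (l 16670856) (l 16663288)) (a (l 16665928) (l 16658176)))) (a (b (l 16649720) (l 16653240)) (l 16649272)))))))))), by decide +kernel⟩

def k2_pm_012_t : ∃ t, chk3 f_pm_012_t t 5 3 1 = true :=
  ⟨(b (l 6) (a (b (a (b (l 6) (b (l 6) (l 16561936))) (l 6)) (b (b (a (a (l 16592576) (l 16580288)) (l 16561584)) (a (a (l 16604360) (l 16591320)) (a (l 16578160) (l 16564704)))) (a (b (a (l 16637768) (l 16602984)) (a (b (l 16626400) (a (l 16636624) (l 16629240))) (b (l 16612024) (l 16639144)))) (a (b (l 16589080) (b (l 16597552) (l 16624288))) (b (a (l 16578464) (l 16571344)) (b (l 16582960) (l 16588480))))))) (b (l 6) (b (l 6) (a (a (b (a (l 16564392) (l 16557632)) (l 16592392)) (b (l 6) (l 16557200))) (b (l 6) (a (l 16542976) (l 6)))))))),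 by decide +kernel⟩

def k3_pm_012_t : ∃ t, chk3 f_pm_012_t t 3 3 1 = true :=
  ⟨(a (l 6) (l 6)), by decide +kernel⟩

theorem s4_pm_012_t : ∃ t, chk3 f_pm_012_t t 2 3 1 = true := ex3_a k1_pm_012_t k2_pm_012_t

theorem s5_pm_012_t : ∃ t, chk3 f_pm_012_t t 1 3 1 = true := ex3_a s4_pm_012_t k3_pm_012_t

theorem s6_pm_012_t : ∃ t, chk3 f_pm_012_t t 1 1 1 = true := ex3_b k0_pm_012_t s5_pm_012_t

theorem c_pm_012_t : CertNE 0 536870912 0 536870912 587336777 62277027 3 eng mog cd0q0 cd0q2 pd1 false true false .pnp 0 1 2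
    ndB0q0 ndB0q2 pcB1 cut_pm_012_t Ext.none :=
  certNE0 (fam := false) (s1 := true) (s2 := false) (a := 0) (b := 1) (c := 2) (cn := .pnp) (n1 := ndB0q0) (n2 := ndB0q2) (pc := pcB1) (cut := cut_pm_012_t) (xt := Ext.none) (P1 := 0) (W1 := 536870912) (P2 := 0) (W2 := 536870912) (P3 := 587336777) (W3 := 62277027) (N0 := 3) (En := eng) (mo := mog) (C1 := cd0q0) (C2 := cd0q2) (C3 := pd1)
    rfl s6_pm_012_t

noncomputable def cut_pm_022_s : Cut := Cut.of [[⟨4, 0, 0, 1449551462⟩], [⟨0, 0, 0, 67108864⟩, ⟨1, 1, 0, 67108864⟩, ⟨2, 1, 0, 67108864⟩]]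

noncomputable def f_pm_022_s : ℕ → ℕ → ℕ → ℕ → Bool := onCell 1073741824 536870912 0 536870912 587336777 62277027
    (rowNE 3 eng mog cd0q0 cd0q2 pd2 2 false true false .pp 0 2 2 (qsf 0 536870912 0 536870912 2) ndB0q0 ndB0q2 pcB2 cut_pm_022_s Ext.none)

def k0_pm_022_s : ∃ t, chk3 f_pm_022_s t 1 1 1 = true :=
  ⟨(l 6), by decide +kernel⟩

theorem c_pm_022_s : CertNE 0 536870912 0 536870912 587336777 62277027 3 eng mog cd0q0 cd0q2 pd2 false true false .pp 0 2 2
    ndB0q0 ndB0q2 pcB2 cut_pm_022_s Ext.none :=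
  certNE2 (fam := false) (s1 := true) (s2 := false) (a := 0) (b := 2) (c := 2) (cn := .pp) (n1 := ndB0q0) (n2 := ndB0q2) (pc := pcB2) (cut := cut_pm_022_s) (xt := Ext.none) (P1 := 0) (W1 := 536870912) (P2 := 0) (W2 := 536870912) (P3 := 587336777) (W3 := 62277027) (N0 := 3) (En := eng) (mo := mog) (C1 := cd0q0) (C2 := cd0q2) (C3 := pd2)
    rfl (fun _ => rfl) k0_pm_022_s

noncomputable def cut_pm_022_t : Cut := Cut.of [[⟨3, 0, 0, 2845415833⟩], [⟨0, 0, 0, 67108864⟩, ⟨1, 1, 0, 67108864⟩, ⟨2, 1, 0, 67108864⟩]]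

noncomputable def f_pm_022_t : ℕ → ℕ → ℕ → ℕ → Bool := onCell 0 536870912 0 536870912 587336777 62277027
    (rowNE 3 eng mog cd0q0 cd0q2 pd2 0 false true false .pp 0 2 2 (qsf 0 536870912 0 536870912 2) ndB0q0 ndB0q2 pcB2 cut_pm_022_t Ext.none)

def k0_pm_022_t : ∃ t, chk3 f_pm_022_t t 1 1 1 = true :=
  ⟨(a (b (l 6) (b (a (b (l 6) (b (a (a (a (b (a (l 16575784) (l 6)) (a (l 16587896) (l 16585192))) (b (l 6) (l 16580616))) (l 6)) (l 6)) (a (a (a (a (b (l 16600688) (c (l 16616504) (l 16611808))) (b (l 16597720) (l 16611024))) (a (b (l 16594464) (l 16607496)) (l 16602608))) (a (b (l 16585288) (l 16597608)) (b (l 6) (l 16586240)))) (a (l 6) (l 1))))) (l 1)) (a (a (b (b (a (b (a (a (c (l 16631016) (l 16626264)) (l 16625232)) (a (l 16621432) (l 16617352))) (b (a (a (l 16640184) (l 16636488)) (a (l 16632472) (l 16628184))) (l 14))) (a (b (l 16610808) (l 16624976)) (b (l 16598208) (l 16610472)))) (a (l 14) (a (l 14) (b (l 36003611127) (l 51572871671))))) (a (l 14) (a (l 14) (l 1)))) (b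 (a (b (a (b (l 16604400) (l 16615288)) (l 1)) (l 1)) (l 1)) (l 1))) (l 1)))) (l 1)), by decide +kernel⟩

theorem c_pm_022_t : CertNE 0 536870912 0 536870912 587336777 62277027 3 eng mog cd0q0 cd0q2 pd2 false true false .pp 0 2 2
    ndB0q0 ndB0q2 pcB2 cut_pm_022_t Ext.none :=
  certNE0 (fam := false) (s1 := true) (s2 := false) (a := 0) (b := 2) (c := 2) (cn := .pp) (n1 := ndB0q0) (n2 := ndB0q2) (pc := pcB2) (cut := cut_pm_022_t) (xt := Ext.none) (P1 := 0) (W1 := 536870912) (P2 := 0) (W2 := 536870912) (P3 := 587336777) (W3 := 62277027) (N0 := 3) (En := eng) (mo := mog) (C1 := cd0q0) (C2 := cd0q2) (C3 := pd2)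
    rfl k0_pm_022_t

noncomputable def cut_pm_101_s : Cut := Cut.of [[⟨4, 0, 0, 1449551462⟩], [⟨0, 1, 0, 67108864⟩, ⟨1, 0, 0, 67108864⟩, ⟨2, 1, 0, 67108864⟩], [⟨0, 0, 1, 20971520⟩, ⟨1, 1, 2, 20971520⟩, ⟨2, 1, 0, 29360128⟩]]

noncomputable def f_pm_101_s : ℕ → ℕ → ℕ → ℕ → Bool := onCell 536870912 536870912 536870912 536870912 587336777 62277027
    (rowNE 3 eng mog cd0q1 cd0q1 pd0 0 false true false .npn 1 0 1 (qsf 536870912 536870912 536870912 536870912 0) ndB0q1 ndB0q1 pcB0 cut_pm_101_s Ext.none)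

def k0_pm_101_s : ∃ t, chk3 f_pm_101_s t 2 1 1 = true :=
  ⟨(l 6), by decide +kernel⟩

def k1_pm_101_s : ∃ t, chk3 f_pm_101_s t 3 2 1 = true :=
  ⟨(l 6), by decide +kernel⟩

def k2_pm_101_s : ∃ t, chk3 f_pm_101_s t 6 3 1 = true :=
  ⟨(b (l 6) (b (l 6) (a (l 6) (b (l 6) (a (l 6) (b (l 6) (a (l 6) (b (l 6) (b (l 6) (a (l 6) (c (a (l 16831000) (l 16830056)) (a (l 16820576) (l 16819680))))))))))))), by decide +kernel⟩

def k3_pm_101_s : ∃ t, chk3 f_pm_101_s t 7 6 1 = true :=
  ⟨(a (l 6) (l 1)), by decide +kernel⟩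

def k4_pm_101_s : ∃ t, chk3 f_pm_101_s t 7 14 1 = true :=
  ⟨(a (l 6) (b (l 1) (b (l 1) (a (a (b (l 1) (l 16839072)) (l 1)) (l 1))))), by decide +kernel⟩

def k5_pm_101_s : ∃ t, chk3 f_pm_101_s t 7 15 1 = true :=
  ⟨(a (a (b (l 6) (b (a (b (l 6) (l 6)) (b (a (l 6) (l 16827240)) (a (c (l 16831384) (l 16820944)) (c (l 16829392) (l 16819216))))) (a (b (c (a (l 16832248) (l 16830312)) (a (l 16821616) (l 16819808))) (c (a (b (l 16830072) (l 16828600)) (b (l 16828064) (l 16826536))) (a (b (l 16819608) (l 16818288)) (b (l 16817736) (l 16816360))))) (b (a (c (l 16828264) (l 16817944)) (c (l 16826168) (l 16816128))) (a (c (b (l 16825928) (l 16824352)) (b (l 16815792) (c (l 16816616) (l 16812280)))) (c (b (l 16823752) (l 16822112)) (b (l 16813904) (l 16812424)))))))) (b (b (a (l 6) (b (l 16837560) (l 16832952))) (a (b (l 16832096) (c (l 16833288) (l 16823832))) (b (l 16828656) (c (l 16829184) (l 16820728))))) (b (a (b (c (l 16829712) (l 16820112)) (c (a (l 16827360) (l 16825248)) (a (l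 16817568) (l 16815920)))) (a (b (l 16821872) (c (l 16823008) (l 16814224))) (b (l 16819888) (c (l 16820616) (l 16812448))))) (a (b (c (a (l 16824032) (l 16821808)) (a (l 16814392) (l 16812648))) (c (a (b (l 16821528) (l 16819832)) (b (l 16819224) (l 16817464))) (a (b (l 16812088) (l 16810552)) (b (l 16810272) (l 16808688))))) (b (c (a (l 16819456) (l 16816952)) (a (l 16810872) (l 16809000))) (c (a (b (l 16816784) (l 16814960)) (b (l 16814184) (l 16812296))) (a (b (l 16808416) (l 16806776)) (b (l 16806480) (l 16804784))))))))) (b (a (b (a (b (l 16833896) (l 16829120)) (b (l 1) (l 14))) (a (a (b (l 16825800) (l 16821664)) (l 14)) (l 14))) (b (l 1) (l 14))) (a (a (a (a (b (b (l 16818328) (l 16814640)) (b (c (l 16814968) (l 16807552)) (c (l 16811152) (l 16804080)))) (l 14)) (l 14)) (l 14)) (l 14)))), by decide +kernel⟩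

theorem s6_pm_101_s : ∃ t, chk3 f_pm_101_s t 7 7 1 = true := ex3_b k4_pm_101_s k5_pm_101_s

theorem s7_pm_101_s : ∃ t, chk3 f_pm_101_s t 7 3 1 = true := ex3_b k3_pm_101_s s6_pm_101_s

theorem s8_pm_101_s : ∃ t, chk3 f_pm_101_s t 3 3 1 = true := ex3_a k2_pm_101_s s7_pm_101_s

theorem s9_pm_101_s : ∃ t, chk3 f_pm_101_s t 3 1 1 = true := ex3_b k1_pm_101_s s8_pm_101_s

theorem s10_pm_101_s : ∃ t, chk3 f_pm_101_s t 1 1 1 = true := ex3_a k0_pm_101_s s9_pm_101_s

theorem c_pm_101_s : CertNE 536870912 536870912 536870912 536870912 587336777 62277027 3 eng mog cd0q1 cd0q1 pd0 false true false .npn 1 0 1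
    ndB0q1 ndB0q1 pcB0 cut_pm_101_s Ext.none :=
  certNE0 (fam := false) (s1 := true) (s2 := false) (a := 1) (b := 0) (c := 1) (cn := .npn) (n1 := ndB0q1) (n2 := ndB0q1) (pc := pcB0) (cut := cut_pm_101_s) (xt := Ext.none) (P1 := 536870912) (W1 := 536870912) (P2 := 536870912) (W2 := 536870912) (P3 := 587336777) (W3 := 62277027) (N0 := 3) (En := eng) (mo := mog) (C1 := cd0q1) (C2 := cd0q1) (C3 := pd0)
    rfl s10_pm_101_s

noncomputable def cut_pm_101_t : Cut := Cut.of [[⟨3, 0, 0, 2845415833⟩], [⟨0, 1, 0, 67108864⟩, ⟨1, 0, 0, 67108864⟩, ⟨2, 1, 0, 67108864⟩], [⟨0, 0, 1, 20971520⟩, ⟨1, 1, 2, 20971520⟩, ⟨2, 1, 0, 29360128⟩]]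

noncomputable def f_pm_101_t : ℕ → ℕ → ℕ → ℕ → Bool := onCell 536870912 536870912 536870912 536870912 587336777 62277027
    (rowNE 3 eng mog cd0q1 cd0q1 pd0 0 false true false .npn 1 0 1 (qsf 536870912 536870912 536870912 536870912 0) ndB0q1 ndB0q1 pcB0 cut_pm_101_t Ext.none)

def k0_pm_101_t : ∃ t, chk3 f_pm_101_t t 8 8 1 = true :=
  ⟨(l 4), by decide +kernel⟩

def k1_pm_101_t : ∃ t, chk3 f_pm_101_t t 16 9 1 = true :=
  ⟨(b (l 4) (a (l 4) (b (l 4) (b (l 4) (a (l 4) (b (l 4) (a (l 4) (a (c (l 179012898855) (l 182234125079)) (b (l 165054255463) (l 60364431607)))))))))), by decide +kernel⟩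

def k2_pm_101_t : ∃ t, chk3 f_pm_101_t t 17 18 1 = true :=
  ⟨(b (l 4) (a (l 4) (b (l 4) (a (l 4) (b (l 4) (a (l 4) (b (l 4) (a (l 4) (a (a (c (l 203172085207) (l 206393310407)) (b (l 4) (l 122104582807))) (b (a (a (l 4) (l 114588390247)) (l 121030841079)) (l 16777400))))))))))), by decide +kernel⟩

def k3_pm_101_t : ∃ t, chk3 f_pm_101_t t 17 38 1 = true :=
  ⟨(a (b (l 4) (a (l 4) (b (l 4) (a (l 4) (a (c (l 214446373383) (l 218204469015)) (a (b (l 4) (a (l 115125265463) (l 120493973383))) (b (l 206393310295) (l 65733138983)))))))) (b (a (b (l 4) (a (l 4) (b (l 4) (a (l 4) (a (b (l 4) (l 121030842711)) (b (l 121030842727) (l 16777392))))))) (b (a (b (l 4) (a (l 4) (a (b (l 4) (a (l 116735863799) (l 16779256))) (b (a (l 117272734711) (l 88818586167)) (l 16777392))))) (a (a (b (b (l 4) (a (l 117809605607) (l 121567711719))) (l 16777496)) (b (b (a (l 118346486983) (l 119957099239)) (l 16777400)) (l 16777704))) (b (c (l 16777616) (l 16777608)) (l 16778040)))) (a (a (b (a (b (l 4) (l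 121567713719)) (b (l 121567711127) (l 16777392))) (l 16777584)) (c (l 16777808) (l 16777776))) (c (c (l 16778496) (l 16778448)) (c (l 16778416) (l 16778416)))))) (a (b (a (a (c (l 220351953335) (l 224646919847)) (b (l 4) (c (b (l 123178323319) (l 16780088)) (b (l 125325801767) (l 16777496))))) (b (a (a (b (l 4) (l 119957100759)) (b (l 120493971719) (l 16777392))) (l 16777576)) (c (l 16777776) (l 16777720)))) (b (a (a (a (b (l 125862682007) (l 16777336)) (l 71101848471)) (l 16777560)) (l 16778096)) (a (l 16780328) (l 16773192)))) (b (a (a (l 16781264) (l 16774640)) (c (l 16779304) (l 16779208))) (c (a (l 16779176) (l 16780112)) (l 16774200)))))), by decide +kernel⟩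

def k4_pm_101_t : ∃ t, chk3 f_pm_101_t t 17 39 1 = true :=
  ⟨(a (b (a (b (l 4) (a (l 4) (a (c (l 193508408007) (l 196729632807)) (a (b (l 4) (l 119957103543)) (b (l 176865410359) (l 16777368)))))) (b (b (a (c (l 202635213383) (l 206393309047)) (a (a (a (l 115125265335) (l 119957102247)) (l 16780048)) (l 16777536))) (a (a (c (l 193508408455) (l 197266504407)) (a (l 121567711415) (l 16777400))) (l 16777664))) (a (a (b (a (l 119957103911) (l 16777384)) (l 16777504)) (l 16777632)) (c (l 16778168) (l 16777984))))) (b (a (a (b (a (l 4) (l 174181059527)) (a (l 169886093607) (l 71101850823))) (b (a (c (l 66270011047) (l 45868901703)) (l 16777488)) (l 16777576))) (a (c (l 16778080) (l 16777856)) (l 16773320))) (a (a (b (a (l 65733141287) (l 16777456)) (l 16777520)) (l 16777848)) (l 16783888)))) (b (a (a (b (c (l 16778248) (l 16778096)) (l 16773496)) (c (l 16774096) (l 16773840))) (c (b (l 16780344) (l 16781048)) (c (l 16780424) (l 16780352)))) (c (a (b (l 16779856) (l 16780416)) (l 16781976))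 (a (c (l 16779720) (l 16779536)) (l 16781488))))), by decide +kernel⟩

def k5_pm_101_t : ∃ t, chk3 f_pm_101_t t 9 8 1 = true :=
  ⟨(a (a (l 4) (l 1)) (l 1)), by decide +kernel⟩

def k6_pm_101_t : ∃ t, chk3 f_pm_101_t t 18 36 1 = true :=
  ⟨(a (b (l 4) (a (l 4) (b (l 4) (a (l 4) (b (l 4) (a (l 4) (b (a (l 4) (a (a (l 4) (l 1)) (l 1))) (b (b (a (l 4) (a (a (c (c (l 111367158103) (l 111904028983)) (l 119957092791)) (l 210486953207)) (l 1))) (c (a (c (l 205856440055) (l 208003923639)) (c (a (l 16777296) (l 16777416)) (l 16777360))) (a (l 204782698055) (l 16777040)))) (c (a (a (l 208540795319) (b (a (l 119420221927) (l 16777272)) (l 22783458519))) (c (l 16777456) (l 16777456))) (a (a (l 211762020023) (a (a (l 107609061527) (l 82376129207)) (l 16777304))) (l 16777464))))))))))) (b (l 1) (a (b (l 1) (a (b (l 1) (a (a (a (b (l 1) (l 80564192999)) (l 1)) (l 1)) (l 1))) (l 1))) (l 1)))), by decide +kernel⟩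

def k7_pm_101_t : ∃ t, chk3 f_pm_101_t t 72 74 1 = true :=
  ⟨(b (l 4) (a (l 4) (b (l 4) (a (l 4) (a (a (c (l 214983246519) (l 218741341303)) (b (l 4) (b (a (l 4) (l 117809608135)) (l 90429196967)))) (a (c (b (l 209077665447) (l 28152166615)) (b (l 212298890759) (l 16777376))) (b (b (a (l 4) (l 118346479031)) (l 92039809719)) (l 16777440)))))))), by decide +kernel⟩

def k8_pm_101_t : ∃ t, chk3 f_pm_101_t t 73 148 1 = true :=
  ⟨(a (b (l 4) (a (l 4) (a (b (l 4) (a (c (l 212835761815) (l 216593858039)) (b (c (l 205856440103) (l 209077665463)) (c (a (l 94187288759) (l 16777296)) (l 48016390327))))) (b (a (c (l 213909503639) (l 217130728935)) (b (c (l 206930181927) (l 210151407287)) (a (b (l 113514645479) (l 16777272)) (l 16777992)))) (a (b (a (a (l 123178322087) (l 121567709031)) (l 16777296)) (l 16777376)) (l 16778104)))))) (b (b (a (a (l 4) (a (c (c (l 219815083719) (l 221962567271)) (l 218741341671)) (b (c (l 208540794663) (l 211762020023)) (a (b (a (l 4) (l 114588383991)) (l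 82913002743)) (c (l 16777296) (l 16777304)))))) (a (a (b (a (b (a (l 4) (l 114588386615)) (l 83449873655)) (c (l 16777296) (l 16777304))) (l 16777384)) (c (l 16777448) (l 16777464))) (c (l 16777664) (l 16777680)))) (a (b (b (a (l 4) (a (c (c (l 101703484391) (l 95797901559)) (l 94187288727)) (l 16777344))) (c (a (l 200487730903) (l 16777032)) (a (l 204245827159) (l 16777360)))) (a (a (c (l 207467052839) (l 210688278199)) (b (c (c (l 101703481767) (l 95797901559)) (l 94187288727)) (l 60364424727))) (c (l 16777448) (l 16777456)))) (c (a (l 16777656) (l 16777944)) (a (l 16777680) (l 16777976))))) (a (a (a (b (b (a (b (l 113514645479) (l 16777272)) (l 60364424727)) (l 16777376)) (l 16777584)) (c (c (l 16777584) (l 16777584)) (l 16777592))) (b (a (l 16777592) (l 16776424)) (l 16776624))) (c (l 16778216) (l 16778256))))), by decide +kernel⟩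

def k9_pm_101_t : ∃ t, chk3 f_pm_101_t t 73 149 1 = true :=
  ⟨(b (a (a (b (a (l 4) (b (c (l 201024601767) (l 204782697975)) (a (l 185992216311) (c (l 49090132167) (l 16777352))))) (a (a (c (l 210151407271) (l 213909503479)) (b (l 185455345399) (c (l 48016390343) (l 16777360)))) (a (a (b (l 121030838727) (l 16777344)) (l 16778176)) (l 16777440)))) (a (a (b (b (a (l 121567708295) (l 16777296)) (l 16777376)) (l 16777576)) (c (l 16777576) (l 16777584))) (c (b (l 16777648) (l 16777920)) (l 16777800)))) (c (c (l 16778472) (l 16778472)) (l 16778520))) (a (a (a (b (a (b (l 92576680647) (l 16777376)) (l 16777440)) (l 16778952)) (c (l 16777768) (l 16777784))) (c (l 16778176) (l 16778200))) (c (c (l 16779016) (l 16779016)) (l 16776456)))), by decide +kernel⟩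

def k10_pm_101_t : ∃ t, chk3 f_pm_101_t t 36 75 1 = true :=
  ⟨(a (b (a (b (l 4) (a (l 4) (a (b (l 4) (a (l 182770990711) (b (l 114051518407) (l 16777328)))) (a (b (l 184918474359) (l 16778672)) (b (b (l 114051518391) (l 16777328)) (l 16777440)))))) (b (b (a (b (c (l 203708956055) (l 207467052151)) (a (l 4) (a (l 114588389303) (l 16778488)))) (a (c (l 19025361207) (l 16777424)) (l 16777632))) (a (a (a (l 197266506631) (b (l 114588389303) (l 16777336))) (c (l 16777408) (l 16777416))) (c (l 16777760) (l 16777768)))) (a (c (c (l 16777640) (l 16777640)) (c (l 16777640) (l 16777648))) (l 16778136)))) (a (b (b (a (a (l 4) (a (l 180623507079) (a (l 113514648215) (l 121030839975)))) (c (l 16777520) (l 16777520))) (a (a (a (a (l 4) (l 114588390279)) (l 121567709383)) (l 44795170215)) (l 16779048))) (a (c (l 16777624) (l 16777624)) (l 16778088))) (c (a (l 16778352) (l 16778880)) (a (l 16778352) (l 16778888))))) (b (a (c (a (l 16778408) (l 16778960)) (a (l 16778424) (l 16776376))) (c (c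 (l 16779816) (l 16779808)) (c (l 16779856) (l 16779944)))) (a (c (l 16779360) (l 16774488)) (c (l 16780856) (l 16780960))))), by decide +kernel⟩

def k11_pm_101_t : ∃ t, chk3 f_pm_101_t t 37 37 1 = true :=
  ⟨(b (b (a (a (c (a (c (l 16777856) (l 16778520)) (c (l 16779112) (l 16779128))) (a (c (l 16778544) (l 16778600)) (c (l 16779176) (l 16779256)))) (a (c (l 90227872375) (l 76269223047)) (l 1))) (l 1)) (a (c (c (a (l 16779920) (l 16781184)) (a (l 16779936) (l 16781224))) (c (a (l 16780000) (l 16781336)) (a (l 16780104) (l 16781512)))) (a (c (l 90227879607) (l 75732354375)) (l 1)))) (a (a (b (c (l 16781024) (l 16775944)) (c (l 16782104) (l 16782296))) (c (b (l 16782320) (l 16783424)) (b (l 16782592) (l 16783736)))) (a (c (b (l 16783696) (l 16784824)) (b (l 16784096) (l 16785272))) (c (l 35467055207) (b (l 16785712) (l 16786920)))))), by decide +kernel⟩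

def k12_pm_101_t : ∃ t, chk3 f_pm_101_t t 19 18 1 = true :=
  ⟨(b (l 1) (b (l 1) (b (l 1) (a (a (c (l 16788656) (l 79490479495)) (l 1)) (l 1))))), by decide +kernel⟩

def k13_pm_101_t : ∃ t, chk3 f_pm_101_t t 9 19 1 = true :=
  ⟨(a (b (a (b (b (a (a (a (a (l 16778168) (l 16778408)) (l 16780080)) (c (l 16779568) (l 16779560))) (c (a (l 16780680) (l 16781872)) (a (l 16780728) (l 16781992)))) (a (c (a (l 16779440) (l 16780496)) (a (l 16779392) (l 16780480))) (c (l 16782200) (l 16777032)))) (c (a (c (l 16781256) (l 16775888)) (c (l 16783600) (l 16783512))) (a (c (l 16775840) (l 16775864)) (c (l 16783536) (l 16783672))))) (c (b (a (a (l 16783624) (l 16784984)) (c (l 16787080) (l 16787216))) (a (c (l 16786248) (l 16786240)) (l 16789224))) (b (a (c (b (l 16783944) (l 16784976)) (l 16776816)) (c (l 16787512) (l 16777496))) (a (c (l 16786392) (l 16786696)) (c (l 16789640) (l 16790176)))))) (a (c (b (a (l 16782784) (l 16785248)) (a (l 16784208) (l 16786776))) (b (a (c (l 16782584) (l 16782584))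 (l 16774736)) (a (l 16783824) (l 16786616)))) (b (c (a (l 16788048) (l 16791160)) (a (l 16788312) (l 16791832))) (c (a (l 16789688) (l 16792920)) (a (l 16789864) (l 16793552)))))) (a (c (b (b (a (c (l 16790208) (l 16790496)) (l 16799104)) (a (l 16792528) (l 16796136))) (b (a (l 16794592) (l 16798312)) (a (l 16796472) (l 16800328)))) (b (b (a (c (l 16791000) (l 16791720)) (l 79490495527)) (a (c (l 16793272) (l 16794088)) (l 16797808))) (b (a (l 16795768) (l 16800096)) (a (l 16797656) (l 16802176))))) (a (a (b (b (l 1) (l 84322351895)) (b (l 16802304) (l 16804448))) (b (l 1) (c (l 16804448) (l 42983307079)))) (b (l 1) (b (l 83785505991) (l 16831352)))))), by decide +kernel⟩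

def k14_pm_101_t : ∃ t, chk3 f_pm_101_t t 8 20 1 = true :=
  ⟨(a (b (a (b (l 4) (a (l 4) (b (l 4) (a (b (l 4) (l 204245825751)) (b (a (l 4) (l 120493977447)) (a (l 120493976807) (l 16777224))))))) (b (a (b (l 4) (a (l 4) (b (a (l 4) (l 123178332807)) (a (l 115662141079) (l 16777304))))) (b (a (b (a (l 4) (c (l 115662139703) (l 162906772807))) (a (c (l 115125268759) (l 124788944199)) (l 16777352))) (b (a (l 16780008) (l 16777408)) (l 16777456))) (a (a (l 39963338119) (l 16777408)) (l 16777600)))) (a (a (b (b (a (l 4) (l 121567719751)) (a (l 120493977831) (l 16777264))) (l 16777256)) (b (c (l 16777416) (l 16777224)) (l 16777392))) (c (a (l 16777792) (l 16778184)) (a (l 16777296) (l 16777512)))))) (a (a (b (b (a (l 4) (l 201024599847)) (a (l 190824052743) (b (l 124252076519) (l 16777296)))) (a (b (a (l 121030850359) (l 16777240)) (l 16777000)) (l 16776976))) (b (b (a (b (a (l 209077664663) (l 88818593431)) (l 16777392)) (l 16777192)) (a (l 16777136) (l 16777152))) (l 16776944)))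 (b (a (c (a (l 16777536) (l 16777816)) (a (l 16776968) (l 16777048))) (c (l 16778336) (l 16777304))) (c (a (l 16777792) (l 16778568)) (a (l 16776664) (l 16777072)))))) (b (a (a (b (a (b (l 16777720) (l 16777976)) (l 16782224)) (c (l 16778912) (l 16778024))) (c (b (l 16774272) (l 16780264)) (b (l 16773576) (l 16779200)))) (b (c (a (l 16781128) (l 16783104)) (a (l 16780344) (l 16782344))) (c (a (l 16781984) (l 16784064)) (a (l 16780872) (l 16783016))))) (a (b (a (c (l 16779400) (l 16778096)) (l 16769592)) (a (l 16778800) (l 16780272))) (b (c (l 16783608) (l 16761208)) (a (l 16782184) (l 16784536)))))), by decide +kernel⟩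

def k15_pm_101_t : ∃ t, chk3 f_pm_101_t t 8 21 1 = true :=
  ⟨(b (a (a (a (b (l 16776608) (l 16776120)) (b (l 16776680) (l 16776288))) (a (b (l 16777016) (l 16776728)) (b (c (l 16778656) (l 16776728)) (l 16777424)))) (a (b (a (l 16778688) (l 16780264)) (a (l 16778472) (l 16780048))) (c (l 16784528) (b (l 16782392) (l 16782144))))) (a (a (b (a (l 16775496) (l 16775768)) (l 16774752)) (b (l 16776560) (l 16776008))) (a (b (a (l 16778216) (l 16779752)) (l 16778472)) (c (l 16784528) (l 16760288))))), by decide +kernel⟩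

def k16_pm_101_t : ∃ t, chk3 f_pm_101_t t 9 10 1 = true :=
  ⟨(a (b (a (a (b (b (c (l 16785432) (l 16784824)) (l 16785984)) (b (l 16786744) (l 16787312))) (b (b (c (l 16788112) (l 16787768)) (l 16788904)) (b (l 16789800) (l 16790504)))) (b (c (b (a (l 16791136) (l 16794496)) (l 16794016)) (b (a (l 16791176) (l 16795024)) (l 16773152))) (c (b (l 16795208) (l 16796224)) (b (l 16795176) (l 16796024))))) (b (a (c (l 16790160) (l 16788440)) (c (l 16797248) (l 16796712))) (a (b (l 16789336) (l 16788992)) (b (l 16797360) (l 16797280))))) (b (b (a (c (b (l 16800008) (l 16801608)) (b (a (l 16799304) (l 16804000)) (l 16803024))) (a (b (l 16807528) (l 16809336)) (b (l 16812504) (l 16814496)))) (a (c (l 16824528) (b (l 16804424) (l 16805640))) (c (l 16812808) (b (l 16815392) (l 16817000))))) (b (a (c (l 16805720) (l 16806856)) (c (l 16815520) (l 16818800))) (a (c (l 16806984) (l 16807736)) (c (l 16817312) (l 16820448)))))), by decide +kernel⟩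

def k17_pm_101_t : ∃ t, chk3 f_pm_101_t t 4 11 1 = true :=
  ⟨(a (b (a (a (b (a (l 16773040) (l 16773552)) (l 16770464)) (b (c (l 16776568) (l 16773040)) (l 16772392))) (a (b (l 16777416) (l 16775488)) (b (b (l 16782072) (l 16781448)) (l 16780072)))) (a (a (b (l 16766968) (l 16762288)) (b (l 16769272) (l 16764984))) (b (a (l 16772720) (l 16777608)) (l 16749912)))) (b (a (b (a (c (l 16789920) (l 16786264)) (l 16796368)) (a (l 16786160) (l 16794328))) (b (a (l 16806728) (l 16818752)) (a (l 16804936) (l 16817448)))) (a (b (a (l 16783976) (l 16791824)) (l 16784104)) (b (a (l 16801880) (l 16814536)) (l 16782656))))), by decide +kernel⟩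

def k18_pm_101_t : ∃ t, chk3 f_pm_101_t t 5 2 1 = true :=
  ⟨(b (a (b (l 1) (a (b (l 1) (a (a (b (l 1) (b (l 1) (l 16836552))) (l 1)) (l 1))) (l 1))) (l 1)) (b (a (a (b (b (a (a (b (l 16817832) (l 16819976)) (b (l 16823600) (l 16825880))) (c (l 87006797927) (b (l 1) (l 16839904)))) (a (c (l 16823264) (b (l 16828000) (l 16830056))) (c (l 16835088) (b (l 16842576) (l 16845096))))) (b (a (c (l 16826592) (l 16832520)) (c (l 16839040) (l 16848288))) (a (c (l 16828960) (l 16835024)) (c (l 16842080) (l 16851768))))) (b (a (b (l 1) (c (l 16848264) (l 16818496))) (l 1)) (b (a (c (l 16852888) (l 16866160)) (l 82174828503)) (a (l 16800024) (l 6))))) (b (l 1) (a (l 6) (l 1)))) (a (b (a (b (a (l 16832416) (l 16847960)) (a (l 16831664) (l 6))) (l 6)) (l 6)) (l 6)))), by decide +kernel⟩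

def k19_pm_101_t : ∃ t, chk3 f_pm_101_t t 2 3 1 = true :=
  ⟨(b (a (b (a (a (b (a (b (l 16756376) (l 16748344)) (b (l 16759480) (l 16753008))) (a (b (l 16737680) (l 16725552)) (b (l 16744424) (l 16733072)))) (b (b (l 16744840) (l 16738832)) (b (l 16732160) (a (l 16741584) (l 6))))) (a (b (b (l 16779424) (l 16773688)) (l 6)) (l 6))) (a (b (a (b (a (l 16712632) (l 6)) (l 6)) (l 6)) (l 6)) (l 6))) (l 6)) (l 6)), by decide +kernel⟩

def k20_pm_101_t : ∃ t, chk3 f_pm_101_t t 3 1 1 = true :=
  ⟨(b (a (b (l 1) (l 6)) (l 1)) (l 6)), by decide +kernel⟩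

theorem s21_pm_101_t : ∃ t, chk3 f_pm_101_t t 8 10 1 = true := ex3_b k14_pm_101_t k15_pm_101_t

theorem s22_pm_101_t : ∃ t, chk3 f_pm_101_t t 4 10 1 = true := ex3_a s21_pm_101_t k16_pm_101_t

theorem s23_pm_101_t : ∃ t, chk3 f_pm_101_t t 4 5 1 = true := ex3_b s22_pm_101_t k17_pm_101_t

theorem s24_pm_101_t : ∃ t, chk3 f_pm_101_t t 73 74 1 = true := ex3_b k8_pm_101_t k9_pm_101_t

theorem s25_pm_101_t : ∃ t, chk3 f_pm_101_t t 36 74 1 = true := ex3_a k7_pm_101_t s24_pm_101_t

theorem s26_pm_101_t : ∃ t, chk3 f_pm_101_t t 36 37 1 = true := ex3_b s25_pm_101_t k10_pm_101_t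

theorem s27_pm_101_t : ∃ t, chk3 f_pm_101_t t 18 37 1 = true := ex3_a s26_pm_101_t k11_pm_101_t

theorem s28_pm_101_t : ∃ t, chk3 f_pm_101_t t 18 18 1 = true := ex3_b k6_pm_101_t s27_pm_101_t

theorem s29_pm_101_t : ∃ t, chk3 f_pm_101_t t 9 18 1 = true := ex3_a s28_pm_101_t k12_pm_101_t

theorem s30_pm_101_t : ∃ t, chk3 f_pm_101_t t 9 9 1 = true := ex3_b s29_pm_101_t k13_pm_101_t

theorem s31_pm_101_t : ∃ t, chk3 f_pm_101_t t 9 4 1 = true := ex3_b k5_pm_101_t s30_pm_101_t

theorem s32_pm_101_t : ∃ t, chk3 f_pm_101_t t 17 19 1 = true := ex3_b k3_pm_101_t k4_pm_101_t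

theorem s33_pm_101_t : ∃ t, chk3 f_pm_101_t t 17 9 1 = true := ex3_b k2_pm_101_t s32_pm_101_t

theorem s34_pm_101_t : ∃ t, chk3 f_pm_101_t t 8 9 1 = true := ex3_a k1_pm_101_t s33_pm_101_t

theorem s35_pm_101_t : ∃ t, chk3 f_pm_101_t t 8 4 1 = true := ex3_b k0_pm_101_t s34_pm_101_t

theorem s36_pm_101_t : ∃ t, chk3 f_pm_101_t t 4 4 1 = true := ex3_a s35_pm_101_t s31_pm_101_t

theorem s37_pm_101_t : ∃ t, chk3 f_pm_101_t t 4 2 1 = true := ex3_b s36_pm_101_t s23_pm_101_t

theorem s38_pm_101_t : ∃ t, chk3 f_pm_101_t t 2 2 1 = true := ex3_a s37_pm_101_t k18_pm_101_t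

theorem s39_pm_101_t : ∃ t, chk3 f_pm_101_t t 2 1 1 = true := ex3_b s38_pm_101_t k19_pm_101_t

theorem s40_pm_101_t : ∃ t, chk3 f_pm_101_t t 1 1 1 = true := ex3_a s39_pm_101_t k20_pm_101_t

theorem c_pm_101_t : CertNE 536870912 536870912 536870912 536870912 587336777 62277027 3 eng mog cd0q1 cd0q1 pd0 false true false .npn 1 0 1
    ndB0q1 ndB0q1 pcB0 cut_pm_101_t Ext.none :=
  certNE0 (fam := false) (s1 := true) (s2 := false) (a := 1) (b := 0) (c := 1) (cn := .npn) (n1 := ndB0q1) (n2 := ndB0q1) (pc := pcB0) (cut := cut_pm_101_t) (xt := Ext.none) (P1 := 536870912) (W1 := 536870912) (P2 := 536870912) (W2 := 536870912) (P3 := 587336777) (W3 := 62277027) (N0 := 3) (En := eng) (mo := mog) (C1 := cd0q1) (C2 := cd0q1) (C3 := pd0)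
    rfl s40_pm_101_t

noncomputable def cut_pm_102_s : Cut := Cut.of [[⟨4, 0, 0, 1449551462⟩], [⟨0, 1, 0, 67108864⟩, ⟨1, 0, 0, 67108864⟩, ⟨2, 1, 0, 67108864⟩], [⟨0, 0, 1, 20971520⟩, ⟨1, 1, 2, 20971520⟩, ⟨2, 1, 0, 29360128⟩]]

noncomputable def f_pm_102_s : ℕ → ℕ → ℕ → ℕ → Bool := onCell 536870912 536870912 0 536870912 587336777 62277027
    (rowNE 3 eng mog cd0q1 cd0q2 pd0 0 false true false .npp 1 0 2 (qsf 536870912 536870912 0 536870912 0) ndB0q1 ndB0q2 pcB0 cut_pm_102_s Ext.none)

def k0_pm_102_s : ∃ t, chk3 f_pm_102_s t 4 2 1 = true :=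
  ⟨(b (l 2) (a (l 2) (b (l 2) (a (l 2) (l 37681554775))))), by decide +kernel⟩

def k1_pm_102_s : ∃ t, chk3 f_pm_102_s t 10 2 1 = true :=
  ⟨(b (a (a (l 2) (b (l 3) (a (b (l 2) (b (b (l 2) (l 16764504)) (l 16761080))) (b (b (b (l 3) (a (b (l 148344142279) (a (l 2) (l 16776864))) (l 151565366423))) (b (a (l 16774560) (b (a (l 16776336) (l 16778280)) (l 16775304))) (l 16772496))) (b (l 16768488) (b (l 16764232) (l 16762136))))))) (b (l 3) (b (a (b (l 3) (a (b (a (b (l 148881012951) (l 63518543463)) (l 151028495207)) (a (l 16774672) (b (a (l 16776456) (l 131164276855)) (l 16775456)))) (b (l 3) (a (b (l 149417883559) (a (l 16776528) (l 133311760455))) (l 153712849415))))) (l 3)) (a (b (a (l 16781776) (b (a (l 16774864) (b (a (l 16776592) (l 135459243927)) (l 16775664))) (l 16772896))) (a (b (l 16767280) (l 16764368)) (l 16768968))) (b (a (b (a (b (l 149417883223) (a (l 16776664) (l 137606727287))) (l 151565365335)) (a (l 16775120) (b (a (l 16776728) (l 139217339719)) (l 16775904))))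 (b (l 3) (a (b (l 3) (l 131164277687)) (l 3)))) (a (l 16777264) (b (a (l 16775416) (b (l 132238019239) (l 16776152))) (l 16773704)))))))) (b (a (b (a (l 16747784) (l 16753704)) (a (l 16735976) (l 16743760))) (b (a (b (a (l 16761352) (b (l 16764872) (l 16763072))) (l 16757688)) (b (a (b (l 16768352) (l 16765720)) (l 16770304)) (a (l 16763328) (b (l 16766800) (l 16765456))))) (a (l 16751256) (l 16758872)))) (a (b (a (l 16728032) (l 16735016)) (l 16723480)) (b (a (l 16742544) (l 16752288)) (a (l 16737960) (l 16727032)))))), by decide +kernel⟩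

def k2_pm_102_s : ∃ t, chk3 f_pm_102_s t 11 2 1 = true :=
  ⟨(b (b (l 3) (a (b (l 3) (a (b (l 3) (a (b (a (b (l 3) (l 133311760583)) (l 3)) (a (l 16775712) (b (l 134385502055) (l 16776384)))) (b (l 3) (a (l 138143593863) (l 3))))) (l 3))) (l 3))) (b (a (b (a (b (a (l 16778400) (b (a (l 16776008) (b (l 137069856487) (l 16776584))) (l 16774720))) (a (b (l 16770192) (l 16768040)) (l 16772152))) (b (a (b (a (l 137606722455) (l 3)) (a (b (l 16776672) (l 16775944)) (b (l 139754211415) (l 63518542775)))) (b (l 3) (l 137606730615))) (a (b (l 16775272) (l 16773840)) (b (a (b (l 67813510039) (l 16776320)) (b (l 135459239463) (l 72108477271))) (l 16775824))))) (a (b (a (l 16776840) (b (l 16769456) (l 16768592))) (l 16764448)) (b (a (b (l 16772528) (l 16770944)) (l 16774224)) (a (l 16769960) (b (l 16772496) (l 16772184)))))) (b (a (b (l 3) (a (b (l 136532977511) (a (b (l 75866573431) (l 16776664)) (b (l 134922367831) (l 80161540039)))) (l 3))) (l 3)) (a (b (a (a (l 16775600) (l 16778928))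 (b (a (b (l 124184954935) (l 16776928)) (l 127406186183)) (a (l 16776536) (l 16776920)))) (a (b (l 16774976) (l 16774136)) (l 16776200))) (b (a (b (l 3) (a (b (l 127943051591) (l 16777064)) (l 127943045767))) (l 3)) (a (b (a (l 16776904) (l 58149835111)) (l 16776856)) (b (a (b (l 117205624327) (l 16777104)) (l 127943044759)) (a (l 16777224) (b (l 74255960583) (l 16777336))))))))) (a (b (a (l 16760552) (l 16767896)) (a (l 16735160) (l 16764600))) (b (a (b (a (b (l 16774080) (l 16773048)) (b (l 16775496) (l 16775640))) (l 16773296)) (b (a (b (l 16776808) (l 16776568)) (b (l 16777488) (l 16777840))) (a (b (l 16777120) (l 16776728)) (b (l 16778008) (l 16757888))))) (a (l 16772496) (b (l 16777672) (l 16777856))))))), by decide +kernel⟩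

def k3_pm_102_s : ∃ t, chk3 f_pm_102_s t 2 3 1 = true :=
  ⟨(b (a (l 6) (a (b (a (b (l 16716824) (l 6)) (b (l 16738504) (l 16715248))) (l 6)) (b (a (b (a (l 16754488) (l 16744360)) (a (l 16753320) (l 16764640))) (b (a (b (l 16772056) (l 16773872)) (b (l 16778512) (l 16778936))) (a (l 16774112) (l 16761032)))) (b (a (a (l 16734576) (b (l 16765808) (l 16767040))) (a (b (l 16776328) (l 16778448)) (l 16804248))) (a (l 6) (a (l 16779632) (b (l 16788752) (l 16789560)))))))) (a (l 6) (l 6))), by decide +kernel⟩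

def k4_pm_102_s : ∃ t, chk3 f_pm_102_s t 3 2 1 = true :=
  ⟨(a (b (l 3) (a (b (a (b (l 3) (a (b (l 3) (a (b (l 3) (a (b (l 126332433447) (l 80161540791)) (l 128479914503))) (l 3))) (l 3))) (l 3)) (a (b (a (b (a (b (a (l 16777544) (b (l 86603992215) (l 16777496))) (l 16777992)) (b (a (b (l 127943045031) (l 92509572407)) (l 3)) (a (l 16777696) (b (l 100025765479) (l 16777520))))) (a (b (l 16778640) (l 16768632)) (b (l 16778280) (l 16779144)))) (b (a (a (a (b (l 3) (l 118279375815)) (l 126332427543)) (l 3)) (l 3)) (a (b (a (l 49023029095) (b (l 94120174791) (l 16777408))) (l 16778400)) (b (a (l 116668755303) (l 3)) (a (b (l 71571605959) (l 16777896)) (b (l 116131885975) (l 79624670135))))))) (a (b (a (b (l 16759168) (l 16780080)) (b (l 16769352) (l 16770488))) (l 16780792)) (b (a (b (l 16779384) (l 16769728)) (b (l 16775760) (l 16779440))) (a (b (a (l 16781592) (l 16781176)) (l 16781664)) (b (l 16769896) (c (l 16761120) (l 16760272))))))) (b (a (b (l 3) (a (b (l 3) (a (l 126332430263)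 (l 3))) (l 3))) (l 3)) (a (b (a (b (a (b (l 87677734119) (l 16777800)) (b (l 128479915479) (l 96267668967))) (a (l 16778592) (l 16778008))) (b (l 3) (a (b (a (l 16777128) (l 103783852071)) (l 16777648)) (b (l 3) (l 108615695047))))) (a (b (l 16779392) (l 16769936)) (b (a (l 16778472) (b (l 16777536) (l 16778120))) (l 16779272)))) (b (l 3) (a (b (a (b (l 115595015959) (l 67813509895)) (b (l 3) (l 123648078727))) (a (l 16778304) (b (l 79087799047) (l 16777936)))) (b (l 3) (a (b (l 131164270647) (a (l 16777432) (l 92509563447))) (l 139754201767))))))))) (l 3))) (l 3)), by decide +kernel⟩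

def k5_pm_102_s : ∃ t, chk3 f_pm_102_s t 12 6 1 = true :=
  ⟨(b (a (b (a (l 16761144) (b (l 16761320) (l 16783472))) (a (b (l 16762872) (l 16786128)) (b (l 16785192) (l 16766232)))) (b (a (b (a (b (c (l 16761128) (l 16760312)) (l 16782184)) (b (l 16769880) (c (l 16771480) (l 16760192)))) (l 16761872)) (b (a (b (l 16779080) (l 16769768)) (b (a (l 16778112) (b (a (l 16777272) (l 101636367879)) (l 16777744))) (l 16778856))) (a (b (b (l 16759880) (l 16760760)) (l 16782264)) (b (l 16758992) (a (l 16781520) (l 16759480)))))) (a (b (l 16784512) (l 16786248)) (b (a (l 16783400) (l 16777408)) (l 16785064))))) (a (b (a (l 16788888) (l 16790640)) (a (b (l 16793056) (l 16795528)) (b (l 16794600) (l 16820528)))) (b (a (b (l 16747728) (l 16792040)) (b (a (l 16787752) (l 16787336)) (a (l 16791984) (l 16769872)))) (a (b (l 16795408) (b (l 16798336) (l 16800608))) (b (l 16794312) (l 16798520)))))), by decide +kernel⟩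

def k6_pm_102_s : ∃ t, chk3 f_pm_102_s t 26 12 1 = true :=
  ⟨(b (a (b (a (b (a (b (l 3) (a (l 93583313303) (l 129016788743))) (l 3)) (a (b (l 16778936) (l 16778152)) (b (a (l 109689441031) (l 144049173287)) (a (l 16777696) (l 16777304))))) (b (l 3) (a (b (l 3) (a (l 107541947799) (l 3))) (l 3)))) (a (b (a (l 16778944) (l 16778304)) (l 16769200)) (b (a (b (a (l 16777600) (l 90898958375)) (l 16777936)) (b (l 138680463703) (a (l 16777472) (l 108078828167)))) (a (l 16778696) (l 16778080))))) (b (l 3) (a (b (a (b (l 3) (l 148344139015)) (l 3)) (a (b (a (l 71571606103) (b (l 148881012375) (l 108078827143))) (l 16777720)) (b (l 155860330695) (a (b (l 122037471079) (l 16777408)) (l 137069852631))))) (l 3)))) (a (b (a (b (a (l 16760232) (l 16759152)) (l 16761112)) (b (l 16779392) (a (l 16770336) (l 16769312)))) (a (l 16783376) (b (b (l 16760576) (l 16781760)) (l 16782640)))) (b (a (b (a (l 16778440) (b (a (l 16777760) (l 16777456)) (l 16778080))) (l 16779104)) (b (a (b (a (b (l 118279367239)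 (l 16777240)) (l 151565366087)) (a (l 16777656) (b (l 88751474279) (l 16777496)))) (b (l 3) (a (b (l 156397205079) (l 101636376151)) (l 3)))) (a (l 16778200) (b (a (l 16777560) (b (l 116668762055) (l 16777384))) (l 16777856))))) (a (b (a (b (l 16780000) (l 16780920)) (l 16769032)) (a (l 16781600) (b (l 16780752) (l 16781176)))) (b (a (l 16779152) (l 16778544)) (a (b (l 16779728) (l 16780584)) (l 16768856))))))), by decide +kernel⟩

def k7_pm_102_s : ∃ t, chk3 f_pm_102_s t 27 12 1 = true :=
  ⟨(b (l 3) (a (b (a (b (l 3) (a (b (a (b (l 3) (l 133311757479)) (l 3)) (a (b (l 61371058279) (l 16777568)) (b (l 142975433287) (c (l 73719088535) (l 76403442919))))) (b (l 3) (a (l 158007816839) (l 3))))) (l 3)) (a (b (a (b (l 16777760) (l 16778200)) (b (a (a (l 43654318407) (b (l 116668761415) (l 16777408))) (b (l 162839655799) (a (l 79087797671) (l 125795564807)))) (a (l 16777792) (c (l 16777600) (l 16777472))))) (a (l 16778928) (l 16778344))) (b (a (b (l 3) (a (a (b (a (l 80698410071) (l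 117205631959)) (l 16777440)) (b (l 151028497031) (l 61907928647))) (a (b (l 3) (a (l 107541955511) (l 130090532119))) (l 163913396935)))) (l 3)) (a (b (a (l 16777704) (a (l 16777504) (b (a (l 16777272) (l 97341408039)) (l 16777480)))) (l 16778016)) (a (b (a (b (b (l 3) (l 126332437511)) (l 43117446599)) (b (l 3) (b (l 128479919543) (l 71034733575)))) (l 16776960)) (a (b (b (l 3) (l 154786594535)) (b (a (l 16777336) (b (l 109152567895) (l 16777320))) (l 16777520))) (b (l 3) (b (b (l 159081560887) (a (l 16777232) (l 103246985191))) (l 16777392))))))))) (b (l 3) (a (b (l 3) (a (b (l 3) (a (b (l 3) (a (b (a (l 94120182327) (l 136532983207)) (l 46338671671)) (a (b (l 3) (l 117742502519)) (l 163376527799)))) (l 3))) (l 3))) (l 3))))), by decide +kernel⟩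

def k8_pm_102_s : ∃ t, chk3 f_pm_102_s t 26 13 1 = true :=
  ⟨(b (a (b (l 16764392) (a (l 16767832) (l 16787984))) (b (a (l 16783208) (b (a (l 16781384) (b (l 16780416) (l 16780960))) (l 16782328))) (a (l 16786296) (l 16784576)))) (b (a (a (l 16793032) (b (l 16790768) (l 16792440))) (a (b (l 16788584) (l 16791016)) (b (l 16787056) (l 16788424)))) (a (l 16796144) (a (l 16793712) (b (l 16791264) (l 16792952)))))), by decide +kernel⟩

def k9_pm_102_s : ∃ t, chk3 f_pm_102_s t 54 26 1 = true :=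
  ⟨(b (a (b (a (b (l 16779616) (l 16769792)) (l 16779352)) (a (l 16781240) (b (a (l 16780472) (l 16779872)) (l 16780968)))) (b (a (c (l 16779096) (l 16778480)) (b (c (l 16778104) (l 16777800)) (l 16778432))) (a (b (l 16779568) (a (l 16780384) (l 16779840))) (l 16779272)))) (a (b (l 16782200) (l 16783688)) (b (a (b (l 16781016) (l 16781496)) (b (a (l 16780352) (l 16779896)) (l 16786352))) (l 16782224)))), by decide +kernel⟩

def k10_pm_102_s : ∃ t, chk3 f_pm_102_s t 110 52 1 = true :=
  ⟨(b (a (b (b (a (a (l 16777480) (a (l 16777376) (a (l 16777320) (b (l 90898956727) (l 16777344))))) (a (a (b (a (l 101636372871) (l 143512305047)) (l 16777288)) (b (l 3) (a (l 82309022167) (l 120426856999)))) (c (l 158544689399) (b (l 3) (l 157470948215))))) (a (l 16777640) (a (l 16777432) (b (a (c (l 16777264) (l 62444798407)) (b (l 154249723351) (l 97878278487))) (l 16777352))))) (c (l 16778016) (l 16777904))) (b (a (a (b (l 3) (b (l 163913398855) (a (b (l 115058147767) (l 16777272)) (a (b (l 3)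 (l 109689438487)) (l 160155303191))))) (l 3)) (l 3)) (a (a (b (a (l 16777416) (a (l 16777368) (b (l 53854863943) (l 16777392)))) (l 16777632)) (b (b (a (b (c (l 108615694823) (l 133311757975)) (c (l 16777392) (l 76403441911))) (c (l 156397206711) (l 158544690343))) (a (l 16777336) (a (l 43117445655) (b (l 119353114935) (l 16777272))))) (l 16777480))) (a (a (b (b (l 3) (b (l 162839657815) (a (l 82309022023) (c (l 107541953543) (l 107541953527))))) (c (l 16777400) (l 16777344))) (b (l 3) (b (b (a (a (l 85530247399) (l 98415148263)) (l 152639110791)) (c (l 16777264) (l 53854863671))) (l 16777352)))) (b (l 3) (a (a (b (b (l 3) (a (l 114521276631) (l 111300049991))) (l 16777296)) (b (l 164450270359) (b (b (l 119353114839) (l 16777240)) (l 16777288)))) (b (l 3) (b (a (c (l 109689437031) (l 136532983527)) (l 3)) (a (c (l 16777256) (l 16777240)) (b (l 111300050103) (l 83382763767))))))))))) (b (a (c (l 16778640) (l 16778184)) (a (l 16777952) (a (a (l 16776936) (l 16777680)) (b (c (l 16777480)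 (l 16777064)) (l 16777696))))) (a (l 16778968) (c (l 16778584) (l 16776208))))), by decide +kernel⟩

def k11_pm_102_s : ∃ t, chk3 f_pm_102_s t 111 104 1 = true :=
  ⟨(a (b (l 3) (a (a (a (b (l 3) (c (l 153712851335) (b (l 3) (l 155323464727)))) (l 3)) (l 3)) (l 3))) (l 3)), by decide +kernel⟩

def k12_pm_102_s : ∃ t, chk3 f_pm_102_s t 222 105 1 = true :=
  ⟨(b (a (a (b (a (b (a (b (b (l 98415149223) (l 16777256)) (l 16777304)) (b (b (l 154249723543) (l 115595018455)) (l 16777264))) (l 16777376)) (b (b (l 3) (a (b (a (l 111300051095) (l 124184952295)) (l 16777232)) (l 140291079847))) (c (l 37211865527) (c (l 37211865399) (b (l 49023025383) (l 16777304)))))) (l 16777536)) (b (b (l 3) (a (b (a (b (l 119353113783) (l 96804536503)) (l 154249723383)) (a (l 16777272) (b (l 113984405719) (l 16777248)))) (a (a (b (l 3) (b (l 3) (l 109152567447))) (l 153712852279)) (l 3)))) (b (b (a (l 16777320) (a (l 47412412743) (b (l 107541953735) (l 78014054663)))) (l 16777344)) (l 16777448)))) (b (l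 3) (b (a (a (b (l 151028497799) (a (b (l 95193923767) (l 16777256)) (b (l 153712852647) (l 112910663895)))) (l 3)) (l 3)) (a (a (c (l 16777344) (l 16777304)) (a (b (b (a (l 107005083783) (l 119353114023)) (l 16777232)) (l 16777288)) (b (l 138680467111) (c (l 16777248) (l 59223572695))))) (a (a (b (l 3) (b (l 117205630151) (l 94120181943))) (l 154786593975)) (l 3)))))) (a (c (l 16778008) (l 16777776)) (b (b (a (l 16777416) (a (a (l 16777312) (b (b (l 111836922071) (l 16777248)) (l 16777304))) (b (a (c (l 107005082583) (l 132238016263)) (l 3)) (a (l 16777336) (b (l 104857599143) (l 75866571015)))))) (c (l 16777520) (l 16777024))) (c (l 16777784) (l 16777624))))), by decide +kernel⟩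

def k13_pm_102_s : ∃ t, chk3 f_pm_102_s t 223 105 1 = true :=
  ⟨(b (l 3) (b (a (a (a (b (c (l 152102239303) (l 153712852007)) (b (a (b (l 93046440119) (l 16777256)) (b (l 153175981751) (l 110763180247))) (l 16777288))) (b (l 3) (b (l 3) (a (b (l 98415148983) (l 16777240)) (l 137606725303))))) (l 3)) (l 3)) (a (a (a (l 16777472) (b (b (c (l 16777280) (l 47949283623)) (l 16777344)) (l 16777464))) (b (a (b (a (b (l 116131888327) (l 92509569207)) (l 153712852487)) (a (l 16777280) (a (l 16777240) (l 98952020183)))) (a (b (l 3) (b (l 3) (l 98415148327))) (l 3))) (a (l 16777368) (b (a (l 16777256) (b (l 104320728231) (l 75329700103))) (l 16777312))))) (a (a (b (l 3) (b (l 149417885063) (a (c (l 16777232) (l 72108474551)) (b (l 119889984583) (l 110763180247))))) (l 3)) (l 3))))), by decide +kernel⟩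

def k14_pm_102_s : ∃ t, chk3 f_pm_102_s t 55 53 1 = true :=
  ⟨(a (b (a (b (l 16779600) (a (l 16780376) (l 16780032))) (c (l 16779704) (l 16779016))) (a (b (a (l 16781128) (l 16781024)) (l 16781680)) (b (a (b (l 16780336) (l 16780792)) (l 16780280)) (a (l 16781304) (b (l 16780856) (l 16781312)))))) (b (a (a (b (l 16778504) (l 16779192)) (c (l 16778720) (l 16777016))) (b (a (c (l 16777904) (b (l 16777584) (l 16777864))) (a (b (a (c (l 16777448) (l 16777384)) (b (a (b (a (l 76403441927) (l 113447534807)) (l 16777304)) (b (l 137606725303) (l 60297314615))) (l 16777400))) (l 16777032)) (b (a (a (b (b (l 3) (a (l 106468212935) (l 105394469991))) (l 16777320)) (b (l 153712852151) (b (a (l 16777240) (l 99488891095)) (l 16777312)))) (b (l 3) (b (c (l 135996112439) (c (l 138143596087) (l 139217337895))) (a (l 16777264) (b (l 105394470087) (l 16777224)))))) (c (l 16777536) (l 16777456))))) (c (l 16778472) (l 16777512)))) (b (a (l 16779784) (c (l 16779328) (l 16778848))) (a (a (b (l 16780576)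 (l 16780944)) (l 16780456)) (l 16779912))))), by decide +kernel⟩

def k15_pm_102_s : ∃ t, chk3 f_pm_102_s t 27 27 1 = true :=
  ⟨(a (b (a (l 16786184) (l 16784568)) (a (b (a (l 16789144) (l 16788384)) (l 16791528)) (b (l 16787192) (b (l 16788432) (l 16789584))))) (b (a (b (l 16782488) (l 16784024)) (b (a (b (a (l 16781656) (b (l 16781040) (l 16781648))) (l 16782144)) (b (a (l 16770360) (l 16780672)) (a (l 16782032) (b (l 16781304) (l 16781984))))) (l 16783032))) (a (l 16786656) (b (l 16784608) (l 16786232))))), by decide +kernel⟩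

def k16_pm_102_s : ∃ t, chk3 f_pm_102_s t 6 7 1 = true :=
  ⟨(b (a (a (b (a (l 16800256) (l 16824576)) (l 6)) (b (a (b (l 16803680) (l 16807008)) (b (b (l 16843696) (l 16804856)) (l 16807024))) (a (b (l 16811856) (l 6)) (l 16814568)))) (a (b (b (a (b (l 16799720) (l 16801728)) (l 16797528)) (a (a (l 16806216) (l 16806056)) (b (l 16821952) (a (l 16805552) (l 16803656))))) (a (l 16834016) (b (l 16807856) (l 16813160)))) (b (b (a (a (l 16794600) (b (l 16791816) (l 16793848))) (a (b (a (l 16790064) (l 16809760)) (l 16792184)) (b (l 16788016) (a (l 16812480) (b (l 16789144) (l 16790360)))))) (a (a (l 16820432) (l 16798048)) (a (l 16796008) (l 16794104)))) (a (b (b (a (l 16804944) (l 16802288)) (l 16805968)) (l 16809816)) (b (b (a (l 16800352) (l 16798480)) (a (l 16835272) (b (l 16800856) (l 16802168)))) (a (l 16807248) (b (l 16804856) (l 16806816)))))))) (a (l 6) (a (b (a (b (l 16822360) (l 6)) (b (l 16819336) (l 16826296))) (b (a (l 6) (b (b (l 16830440) (l 6)) (l 6))) (l 6))) (b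 (a (b (l 16815584) (l 16822008)) (b (a (l 16812664) (l 16810752)) (a (l 16818624) (l 16816368)))) (b (a (b (a (l 16827736) (l 16825216)) (l 16828136)) (b (a (l 16822992) (l 16820720)) (b (a (l 16825320) (l 16822712)) (l 16823976)))) (a (b (a (l 6) (l 16827440)) (l 6)) (b (a (l 16825368) (l 16823168)) (a (c (l 16831296) (l 16821408)) (a (c (l 16829592) (l 16819912)) (b (l 16823080) (a (l 16823760) (l 16823288)))))))))))), by decide +kernel⟩

def k17_pm_102_s : ∃ t, chk3 f_pm_102_s t 14 12 1 = true :=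
  ⟨(l 3), by decide +kernel⟩

def k18_pm_102_s : ∃ t, chk3 f_pm_102_s t 56 52 1 = true :=
  ⟨(l 3), by decide +kernel⟩

def k19_pm_102_s : ∃ t, chk3 f_pm_102_s t 112 106 1 = true :=
  ⟨(a (b (a (a (a (b (c (l 152639109543) (b (l 3) (l 153712852007))) (b (b (a (c (l 16777232) (l 73182216375)) (b (l 119889984583) (l 111836922071))) (l 16777304)) (l 16777424))) (b (l 3) (b (b (l 3) (a (a (l 78014054663) (l 116668760359)) (l 137606725287))) (c (l 16777336) (c (l 16777312) (l 38822478087)))))) (b (l 3) (b (l 3) (a (b (a (a (l 109689438487) (l 105394469991)) (l 153712852487)) (a (l 16777288) (a (l 16777240) (l 101099503815)))) (a (b (l 3) (l 130627403527)) (l 3)))))) (l 3)) (b (b (a (a (l 16777544) (a (l 16777392) (b (a (l 16777264) (b (l 105931340999) (l 16777224))) (l 16777328)))) (a (a (b (l 149954755959) (a (c (l 16777232) (l 75329700023)) (a (l 94120181527) (l 117742501031)))) (l 3)) (l 3))) (a (l 16777616) (a (a (c (l 16777368) (l 16777336)) (a (b (a (l 80161538263) (l 92509568903))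 (l 16777312)) (b (l 139217338023) (l 64592281911)))) (a (a (a (b (l 3) (l 112373793063)) (l 140827950551)) (l 153712852119)) (l 3))))) (a (l 16777888) (a (c (l 16777616) (l 16777528)) (b (a (a (l 16777336) (b (a (l 16777240) (l 105394471159)) (l 16777328))) (b (c (l 137069854247) (l 139754208775)) (a (l 16777264) (a (l 97878278359) (l 97878277191))))) (l 16777112)))))) (b (l 3) (b (l 3) (a (a (a (b (l 153175981079) (b (a (l 79624667415) (a (l 94657051767) (l 119353113751))) (l 16777312))) (b (l 3) (a (b (l 3) (a (l 84456505559) (l 91972697239))) (l 147807272247)))) (l 3)) (l 3))))), by decide +kernel⟩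

def k20_pm_102_s : ∃ t, chk3 f_pm_102_s t 112 107 1 = true :=
  ⟨(a (b (c (l 16778064) (a (l 16778336) (l 16777952))) (c (l 16779328) (l 16778928))) (b (a (a (b (a (l 16777552) (a (l 16777464) (b (b (l 59223572791) (l 16777352)) (l 16777504)))) (l 16777896)) (b (a (b (b (a (a (l 89825213687) (l 109152566375)) (l 3)) (a (l 16777296) (l 94120181991))) (l 16777408)) (c (b (l 142975433911) (l 72108474807)) (b (l 145659788439) (a (l 16777304) (b (l 91972697223) (l 16777296)))))) (l 16777656))) (a (a (b (b (l 3) (b (l 152639110471) (a (l 83919634695) (a (l 96267664471) (l 118279371735))))) (c (l 16777496) (l 16777448))) (b (l 3) (b (b (a (l 110226309479) (l 142438563431)) (c (l 16777288) (l 51707379991))) (l 16777448)))) (b (l 3) (b (a (b (l 3) (c (l 105394469415) (l 131701145223))) (l 3)) (a (a (l 16777344) (b (l 100025762119) (l 16777336))) (b (l 140827950551) (a (l 16777264) (a (l 84456504567) (l 103783857255))))))))) (a (l 16778432) (a (l 16778056) (c (l 16777856) (b (l 16777544)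 (l 16777968))))))), by decide +kernel⟩

def k21_pm_102_s : ∃ t, chk3 f_pm_102_s t 113 53 1 = true :=
  ⟨(b (l 3) (a (b (a (a (b (l 3) (b (l 3) (l 153712851511))) (l 3)) (l 3)) (a (b (a (a (b (b (a (l 89288343799) (l 107541953479)) (l 16777312)) (l 16777480)) (c (b (l 130090532311) (l 16777344)) (a (b (b (l 3) (l 88214600871)) (l 16777368)) (b (l 152102239463) (l 51707380023))))) (b (l 3) (a (b (c (l 108078824007) (l 133848628839)) (a (l 16777296) (l 106468213095))) (l 148881013863)))) (a (l 16777760) (a (l 16777552) (b (a (l 49559896599) (b (l 94120180647) (l 16777312))) (l 16777520))))) (b (l 3) (a (a (b (b (l 3) (a (l 98952020439) (l 110226307991))) (l 40433091111)) (b (l 3) (b (c (l 98415147575) (l 124721823463)) (l 59223572839)))) (a (c (l 147270400615) (b (l 3) (l 141901692119))) (l 3)))))) (l 3))), by decide +kernel⟩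

def k22_pm_102_s : ∃ t, chk3 f_pm_102_s t 57 26 1 = true :=
  ⟨(l 3), by decide +kernel⟩

def k23_pm_102_s : ∃ t, chk3 f_pm_102_s t 56 27 1 = true :=
  ⟨(b (a (a (b (b (l 16780064) (a (l 16781160) (l 16780912))) (b (a (l 16771952) (b (l 16781664) (l 16782360))) (l 16782888))) (b (a (b (l 16779392) (l 16780456)) (c (l 16779576) (l 16777920))) (b (a (l 16781480) (l 16780824)) (a (b (l 16782280) (l 16782464)) (b (l 16781440) (l 16781768)))))) (b (a (b (a (c (l 16778416) (l 16778240)) (b (a (l 16777632) (b (a (a (l 16777344) (b (l 87140859047) (l 16777328))) (b (l 148344143239) (a (l 16777240) (l 96804535175)))) (l 16777448))) (l 16777920))) (c (l 16776416) (a (l 16779048) (l 16778408)))) (a (b (b (b (l 3) (a (a (b (a (l 101636374807) (l 116668759063)) (l 16777288)) (b (l 3) (l 126332436167))) (l 3))) (a (a (l 16777560) (b (b (l 61371056519) (l 16777368)) (l 16777520))) (a (b (b (l 137606725127) (a (l 16777264) (l 88214600695))) (l 16777392)) (b (l 152102239223) (b (a (l 16777224)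 (l 103783857127)) (l 16777312)))))) (c (l 16778040) (l 16777200))) (a (b (a (b (l 3) (a (b (l 3) (b (l 3) (l 108615696695))) (l 152102238839))) (l 3)) (b (b (a (c (l 16777336) (l 16777304)) (b (l 129553661575) (l 63518540135))) (l 16777456)) (l 16777728))) (b (l 3) (b (b (l 149417884359) (a (a (l 16777296) (b (l 91972697015) (l 16777288))) (a (b (l 152102239719) (l 16777200)) (l 139217337735)))) (c (l 16777528) (l 16777440))))))) (a (c (l 16780392) (l 16775824)) (b (c (l 16778584) (l 16776912)) (c (l 16779392) (l 16778784)))))) (a (b (a (l 16783736) (b (l 16782480) (l 16782904))) (l 16784416)) (b (a (b (a (b (l 16781272) (l 16781696)) (b (l 16780576) (l 16780816))) (a (l 16781976) (l 16781496))) (b (l 16779712) (a (b (l 16780400) (l 16780936)) (b (l 16779856) (l 16780024))))) (a (l 16782648) (b (a (l 16781304) (b (l 16780568) (l 16780808))) (l 16781744)))))), by decide +kernel⟩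

def k24_pm_102_s : ∃ t, chk3 f_pm_102_s t 57 54 1 = true :=
  ⟨(a (b (a (b (l 3) (a (b (l 3) (a (a (b (b (a (l 88214600695) (l 118279371431)) (l 52781121975)) (l 16777392)) (b (l 139754208503) (b (l 84456505655) (l 16777328)))) (a (b (l 3) (b (l 147270401415) (l 104857600391))) (l 3)))) (l 3))) (l 3)) (a (b (b (a (a (l 16777592) (a (l 16777424) (b (b (a (l 97878278327) (l 116668759047)) (l 16777272)) (l 16777392)))) (a (a (c (b (l 133311757687) (l 16777296)) (b (l 135459241303) (l 42580574663))) (b (l 3) (b (l 137606725111) (l 90898956551)))) (l 152102238103))) (a (l 16777792) (a (l 16777472) (a (b (b (l 111300051287) (l 16777280)) (l 16777392)) (b (c (l 128479919591) (l 130627403207)) (l 34527511175)))))) (c (l 16776896) (a (l 16778048) (l 16777664)))) (b (b (l 3) (b (l 3) (a (a (a (b (l 108078823911) (l 60834185607)) (l 148344142935)) (l 3)) (l 3)))) (a (b (a (a (l 16777416) (b (b (l 98952020231) (l 16777288)) (l 16777392))) (a (b (b (l 3) (l 90898956087)) (l 16777296)) (b (l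 3) (b (l 100562631127) (l 16777224))))) (l 16777544)) (a (b (c (l 148344141975) (l 150491625543)) (b (a (a (l 16777280) (l 59760443847)) (b (l 150491626839) (l 108078825767))) (l 16777344))) (b (l 3) (b (l 3) (a (a (l 55465476583) (l 113984405879)) (l 136532983079))))))))) (l 3)), by decide +kernel⟩

def k25_pm_102_s : ∃ t, chk3 f_pm_102_s t 57 55 1 = true :=
  ⟨(a (b (b (a (c (l 16778928) (l 16778280)) (a (c (l 16778144) (l 16777728)) (b (a (l 16777528) (a (l 16777408) (a (l 16777344) (b (l 50633638391) (l 16777360))))) (l 16777680)))) (a (l 16779136) (c (l 16778560) (l 16777904)))) (a (b (a (b (l 16779696) (l 16780216)) (l 16779280)) (a (l 16780720) (b (l 16785128) (l 16780240)))) (b (l 16778704) (a (b (l 16779256) (c (l 16780368) (l 16778872))) (l 16778976))))) (b (a (b (b (a (b (a (a (a (l 109152567623) (l 130090532391)) (l 3)) (l 3)) (a (a (l 16777304) (a (l 16777224) (l 104857600311))) (c (l 137069853671) (l 139217337271)))) (l 3)) (b (a (a (l 16777384) (a (l 34527511191)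 (a (l 99488891079) (l 102710114583)))) (l 151565367015)) (a (l 16777416) (a (a (a (l 16777240) (l 95193923831)) (l 128479919575)) (l 3))))) (a (b (l 16777584) (l 16777800)) (b (c (a (l 16777416) (b (l 119353114135) (l 16777272))) (a (l 16777296) (a (b (l 111300051287) (l 16777272)) (b (l 149417884727) (l 52244251031))))) (c (l 16777624) (l 16777376))))) (b (l 3) (a (a (a (b (b (l 3) (l 124721823271)) (l 16777328)) (b (l 3) (b (a (l 83382763927) (l 93046438071)) (l 16777312)))) (b (l 3) (b (l 147270400759) (a (l 46875542151) (a (l 91435825383) (l 110226306871)))))) (l 3)))) (a (b (c (l 16778288) (l 16777664)) (l 16778408)) (b (b (b (a (l 16777376) (a (a (a (l 16777192) (l 116668760407)) (l 138143595751)) (l 3))) (a (l 16777472) (c (a (l 16777296) (l 126332435751)) (a (l 27011318471) (c (l 127943048455) (l 129016790247)))))) (a (l 16777624) (a (l 16777424) (a (l 16777336) (b (l 91435827543) (l 16777320)))))) (a (l 16777936) (b (l 16777552) (l 16777752))))))), by decide +kernel⟩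

def k26_pm_102_s : ∃ t, chk3 f_pm_102_s t 29 13 1 = true :=
  ⟨(b (l 3) (a (b (l 3) (a (b (l 3) (a (b (a (a (b (l 3) (b (l 139754208135) (a (l 16777232) (l 91972698423)))) (l 3)) (l 3)) (a (a (c (l 16777592) (l 16775376)) (b (b (a (l 60834185671) (l 132238015863)) (l 16777280)) (l 16777432))) (a (b (c (l 130627402535) (b (l 3) (l 124184953495))) (a (l 16777344) (b (l 56002347559) (l 16777328)))) (b (l 3) (b (l 135459240967) (a (l 16777256) (l 112910664087))))))) (b (l 3) (a (b (l 3) (l 151565366375)) (l 3))))) (l 3))) (l 3))), by decide +kernel⟩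

def k27_pm_102_s : ∃ t, chk3 f_pm_102_s t 15 6 1 = true :=
  ⟨(l 3), by decide +kernel⟩

def k28_pm_102_s : ∃ t, chk3 f_pm_102_s t 28 14 1 = true :=
  ⟨(b (a (b (a (b (l 16786104) (a (l 16788664) (l 16787800))) (b (l 16783784) (l 16786088))) (a (b (b (a (l 16790880) (l 16789608)) (l 16807752)) (l 16793704)) (b (a (l 16807528) (l 16788368)) (a (l 16813840) (b (l 16790648) (l 16792664)))))) (b (a (b (a (l 16781808) (b (a (l 16780312) (b (c (l 16780128) (l 16778608)) (l 16779904))) (l 16780968))) (a (l 16784184) (l 16782832))) (b (a (b (a (a (b (l 16779032) (l 16779328)) (l 16778856)) (l 16778696)) (a (b (l 16779760) (l 16780208)) (a (b (l 16779144) (l 16779672)) (b (l 16778928) (l 16779416))))) (b (l 16778216) (a (a (b (l 16778800) (l 16779000)) (l 16778768)) (l 16778536)))) (a (b (l 16780776) (l 16782136)) (b (a (a (l 16779936) (b (l 16779280) (l 16779840))) (a (b (l 16778912) (l 16779568)) (b (l 16778840) (a (l 16779272) (l 16779064))))) (l 16780696))))) (a (b (l 16786472) (a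 (b (l 16789688) (l 16791352)) (l 16789360))) (b (a (l 16784448) (l 16783024)) (a (l 16788040) (l 16786656)))))) (b (a (a (l 16798136) (l 16796376)) (b (a (b (a (l 16793288) (l 16792200)) (l 16794304)) (b (l 16790464) (a (l 16793176) (l 16791952)))) (a (l 16796296) (b (a (l 16794736) (l 16794248)) (l 16795872))))) (a (b (a (b (l 16801664) (l 16803768)) (l 16821328)) (a (l 16805216) (b (l 16803336) (l 16804304)))) (b (a (l 16799232) (l 16797960)) (a (b (l 16801232) (l 16823904)) (l 16800816)))))), by decide +kernel⟩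

def k29_pm_102_s : ∃ t, chk3 f_pm_102_s t 58 56 1 = true :=
  ⟨(a (b (a (b (a (l 16777800) (b (c (l 16777560) (l 16777328)) (l 16777640))) (c (l 16778544) (l 16777696))) (b (a (a (b (b (a (l 51707380295) (l 106468210727)) (l 16777296)) (l 16777456)) (b (c (l 127943048087) (b (l 3) (l 119889986295))) (c (l 16777360) (b (l 31843156759) (l 16777296))))) (a (b (l 3) (b (l 131701144679) (a (l 16777272) (l 104320729367)))) (l 151028495095))) (a (c (l 16775328) (l 16774856)) (a (c (l 16777656) (l 16774752)) (b (b (a (l 16777200) (l 100562630551)) (l 16777320)) (l 16777488)))))) (a (b (a (c (l 16779352) (l 16777984)) (l 16778472)) (a (b (a (l 16779520) (a (l 16779192) (l 16779016))) (l 16779944)) (b (l 16778872) (c (a (l 16780288) (l 16779856)) (a (l 16778704) (l 16778336)))))) (b (c (l 16778432) (l 16777696)) (l 16778624)))) (b (a (b (l 3) (a (a (a (b (b (l 3) (l 100562632903)) (l 16777384)) (b (l 147270400535) (l 21105738775))) (b (l 3) (b (l 129016790215) (a (l 16777296) (l 97878278391)))))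 (b (l 3) (l 148881011975)))) (l 3)) (a (b (a (b (c (l 16777632) (l 16777384)) (l 16777760)) (a (b (a (l 16777296) (b (l 96804534151) (l 16777304))) (l 16777536)) (b (c (l 124184951863) (b (l 3) (l 91972697671))) (l 10905191591)))) (a (l 16778192) (c (l 16778120) (l 16777640)))) (b (a (a (b (l 3) (b (l 126332435719) (l 45264929559))) (l 148344140663)) (l 3)) (a (b (a (l 16777480) (a (l 16777328) (a (l 44728058679) (l 95730794855)))) (l 16777688)) (a (b (a (l 116668760839) (l 142438562439)) (l 16777400)) (b (l 3) (b (l 105931339143) (l 43654316887))))))))), by decide +kernel⟩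

def k30_pm_102_s : ∃ t, chk3 f_pm_102_s t 58 57 1 = true :=
  ⟨(a (b (a (b (a (l 16781096) (b (l 16780000) (l 16780736))) (l 16782392)) (b (a (a (b (a (l 16779544) (l 16779328)) (l 16780152)) (b (l 16779104) (l 16779864))) (a (b (l 16779040) (a (l 16779536) (l 16779336))) (l 16779008))) (a (l 16781232) (a (l 16780632) (a (l 16780416) (b (l 16779776) (l 16780568))))))) (a (l 16785192) (b (l 16782664) (l 16784664)))) (b (b (a (c (l 16779184) (l 16778216)) (a (l 16778192) (b (l 16775016) (l 16777992)))) (a (a (a (b (a (l 16779560) (l 16779400)) (l 16780280)) (b (l 16779344) (a (l 16780032) (l 16779816)))) (a (a (b (l 16779224) (l 16779616)) (l 16779312)) (l 16779232))) (c (l 16779200) (l 16778392)))) (a (b (a (l 16781448) (b (a (l 16780416) (a (l 16780104) (l 16782496))) (l 16781088))) (l 16783032)) (b (a (a (b (l 16779672) (l 16783160)) (b (l 16779560) (a (l 16780176) (l 16779976)))) (l 16779496)) (a (l 16781736) (b (a (c (l 16781264) (l 16780056)) (c (l 16780784) (l 16779632)))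 (l 16781408))))))), by decide +kernel⟩

def k31_pm_102_s : ∃ t, chk3 f_pm_102_s t 59 28 1 = true :=
  ⟨(b (a (b (l 3) (a (b (l 3) (a (b (l 3) (l 145659786599)) (l 3))) (l 3))) (l 3)) (a (b (a (b (a (b (a (b (l 62981669175) (l 16777408)) (b (l 3) (l 88214601287))) (c (l 16777648) (l 16777472))) (a (b (l 3) (b (l 104320726423) (l 16777248))) (l 146196657063))) (a (c (l 16778392) (l 16775336)) (a (l 16774536) (b (a (l 16777400) (l 56539218471)) (l 16777776))))) (b (l 3) (a (a (b (c (l 120963726487) (l 122574341751)) (l 16777496)) (b (l 3) (a (l 57076089271) (l 94120179879)))) (b (l 3) (l 144049173863))))) (a (a (b (l 16779104) (b (l 16779920) (a (a (l 16780872) (l 16780624)) (l 16780352)))) (b (l 16778632) (l 16779752))) (b (a (c (l 16778232) (l 16777952)) (b (a (a (l 16777448) (l 58686702023)) (a (l 94657050839) (l 137069853351))) (c (l 16777800) (l 16777656)))) (a (l 16779216) (l 16775984))))) (b (l 3) (a (b (a (a (b (l 3) (a (l 61371056855) (l 95193923175))) (l 145659786119)) (l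 3)) (a (a (l 16778088) (a (l 16273900951) (b (l 64592282583) (l 16777936)))) (a (b (l 122574340455) (l 16777624)) (b (l 3) (b (l 109689435991) (l 16777320)))))) (b (l 3) (a (b (l 3) (l 145659786503)) (l 3))))))), by decide +kernel⟩

def k32_pm_102_s : ∃ t, chk3 f_pm_102_s t 58 29 1 = true :=
  ⟨(b (b (a (a (l 16789488) (l 16787976)) (a (l 16786360) (b (l 16783464) (l 16785808)))) (a (b (a (l 16792912) (l 16791640)) (a (l 16795384) (l 16794016))) (a (l 16791360) (b (l 16788200) (l 16790488))))) (a (b (a (l 16797360) (b (l 16796568) (l 16797680))) (a (l 16799984) (l 16798976))) (a (b (b (b (l 16794688) (l 16816624)) (a (l 16797072) (l 16796336))) (l 16797400)) (b (b (l 16792560) (l 16804640)) (b (l 16795632) (l 16796000)))))), by decide +kernel⟩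

def k33_pm_102_s : ∃ t, chk3 f_pm_102_s t 59 29 1 = true :=
  ⟨(b (a (b (b (a (a (b (c (l 16782168) (l 16781104)) (l 16782656)) (a (b (a (l 16781000) (l 16780768)) (l 16781920)) (b (l 16780560) (l 16781528)))) (a (a (b (l 16780336) (l 16783656)) (l 16780416)) (l 16779960))) (a (a (l 16784352) (l 16783320)) (a (a (l 16782608) (b (l 16781672) (l 16782656))) (a (b (l 16781216) (l 16782296)) (b (l 16780960) (l 16781840)))))) (a (b (l 16785968) (l 16788024)) (b (l 16783968) (l 16785936)))) (b (a (b (a (l 16776648) (l 16778472)) (a (b (l 16780440) (l 16781224)) (l 16780096))) (b (a (a (b (b (l 46338668199) (l 16777616)) (l 16778184)) (b (l 123648083527) (l 16777696))) (a (b (l 3) (b (l 115595016295) (l 16777336))) (l 152102236935))) (a (l 16779200) (a (l 16778448) (b (a (l 16777592) (l 47412409991)) (l 16778360)))))) (a (b (a (b (a (l 16782504) (l 16782024)) (l 16783248)) (b (l 16781488) (a (l 16777480) (l 16782232)))) (a (l 16784632) (b (l 16783536) (l 16784344)))) (b (c (l 16780760)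 (l 16780528)) (a (a (b (l 16777696) (l 16783864)) (b (l 16782464) (l 16783632))) (b (l 16781784) (c (l 16777720) (l 16777528)))))))) (b (a (a (l 16790920) (l 16788680)) (a (b (l 16786016) (l 16787648)) (b (a (l 16784976) (b (l 16784096) (l 16784816))) (l 16786216)))) (a (a (b (c (l 16793744) (l 16813880)) (l 16794480)) (b (l 16791136) (a (l 16793088) (l 16791808)))) (a (b (l 16789152) (l 16790392)) (b (l 16787608) (l 16788840)))))), by decide +kernel⟩

def k34_pm_102_s : ∃ t, chk3 f_pm_102_s t 30 28 1 = true :=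
  ⟨(l 3), by decide +kernel⟩

def k35_pm_102_s : ∃ t, chk3 f_pm_102_s t 60 58 1 = true :=
  ⟨(a (b (a (b (l 3) (a (a (b (l 126332435399) (l 16777768)) (b (l 3) (b (l 122037467655) (l 16776032)))) (l 155323463975))) (l 3)) (a (a (b (c (l 16779008) (l 16778936)) (l 16781256)) (b (a (b (b (l 88214599815) (l 16777736)) (l 16778544)) (b (l 127943048039) (l 16776520))) (l 16777344))) (b (a (a (b (l 3) (b (l 132238015543) (l 48486152615))) (l 157470945815)) (l 3)) (a (a (l 16776264) (b (b (l 95730792983) (l 16777784)) (l 16778744))) (a (b (l 130627402487) (l 32916895879)) (b (l 3) (a (l 92509570135) (l 127406177415)))))))) (b (l 3) (a (b (l 3) (a (b (l 3) (l 158007816999)) (l 3))) (l 3)))), by decide +kernel⟩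

def k36_pm_102_s : ∃ t, chk3 f_pm_102_s t 60 59 1 = true :=
  ⟨(a (b (a (b (a (b (l 16783056) (l 16784368)) (l 16779960)) (a (l 16785456) (b (c (l 16784568) (l 16784736)) (l 16785440)))) (b (a (l 16775968) (b (l 16776136) (l 16779952))) (a (b (l 16783144) (a (l 16784976) (l 16783728))) (l 16777816)))) (a (b (l 16786520) (l 16787512)) (b (a (b (l 16785712) (l 16785976)) (b (c (l 16784040) (l 16783688)) (l 16785232))) (l 16786000)))) (b (a (b (a (a (b (b (l 104320727879) (l 16777736)) (l 16778632)) (b (c (l 133311756935) (l 135459243111)) (l 39359347335))) (a (b (l 3) (a (l 99488892343) (l 131701144551))) (l 3))) (a (l 16777488) (a (l 16776240) (b (a (l 37748733655) (l 101099503687)) (l 16778648))))) (b (l 3) (a (b (c (l 142438561319) (l 145122915719)) (a (c (l 16776448) (l 43117443799)) (b (l 152639109719) (l 95730795911)))) (l 3)))) (a (b (a (b (l 16782072) (c (l 16783584) (l 16783448))) (l 16775840)) (a (b (c (l 16784544) (l 16784792)) (l 16784920)) (b (l 16780408) (a (l 16784352)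 (l 16783736))))) (b (a (c (l 16776648) (b (l 16776000) (l 16779952))) (a (b (b (l 120426855863) (l 43117443911)) (l 16778568)) (b (l 142438562007) (a (l 16777888) (b (l 82309019207) (l 16777768)))))) (a (a (l 16776984) (l 16781392)) (c (l 16779968) (l 16774816))))))), by decide +kernel⟩

def k37_pm_102_s : ∃ t, chk3 f_pm_102_s t 61 29 1 = true :=
  ⟨(b (l 3) (a (b (l 3) (a (b (a (a (b (l 3) (a (a (l 100025761799) (l 123111210295)) (l 141901691479))) (l 3)) (l 3)) (a (b (a (l 30232541607) (b (l 124721822951) (a (l 16777704) (l 60834184119)))) (l 16776216)) (a (b (l 151565367287) (a (l 35601250855) (b (l 88214598855) (l 16777640)))) (a (b (l 3) (b (l 3) (l 89288342519))) (l 156934077959))))) (l 3))) (l 3))), by decide +kernel⟩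

def k38_pm_102_s : ∃ t, chk3 f_pm_102_s t 31 14 1 = true :=
  ⟨(l 3), by decide +kernel⟩

def k39_pm_102_s : ∃ t, chk3 f_pm_102_s t 14 30 1 = true :=
  ⟨(a (a (b (a (l 16808928) (l 16807216)) (a (l 16814168) (b (l 16810808) (l 16813248)))) (b (b (a (l 16804760) (b (a (l 16803344) (l 16802328)) (a (l 16804280) (l 16804008)))) (a (l 16806776) (l 16805064))) (a (b (l 16808888) (l 16810896)) (b (l 16806544) (l 16808256))))) (a (b (a (b (b (l 16800848) (a (l 16802392) (l 16800624))) (a (l 16803224) (b (l 16801784) (l 16802096)))) (b (l 16797888) (b (a (l 16799736) (l 16798336)) (a (l 16800888) (l 16820280))))) (a (b (l 16803800) (l 16805592)) (b (l 16801056) (l 16802912)))) (b (a (b (a (l 16795384) (l 16793816)) (a (b (l 16796672) (l 16797368)) (l 16795504))) (b (a (b (b (l 16801736) (l 16792024)) (l 16792464)) (b (l 16797536) (b (l 16801016) (l 16791208)))) (a (l 16793840) (l 16792184)))) (a (b (b (a (l 16798864) (b (l 16796624) (l 16797408))) (l 16798704)) (l 16821144)) (b (b (a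 (l 16795312) (l 16793792)) (a (b (l 16796288) (l 16796888)) (b (l 16794688) (l 16795184)))) (a (l 16798072) (b (l 16796328) (l 16797192)))))))), by decide +kernel⟩

def k40_pm_102_s : ∃ t, chk3 f_pm_102_s t 14 31 1 = true :=
  ⟨(a (b (a (b (a (l 16818160) (l 16815632)) (b (a (b (l 16819792) (l 16820312)) (l 16817280)) (a (l 16820560) (b (l 16818440) (l 16818464))))) (b (a (l 16813056) (l 16810448)) (b (a (l 16814936) (l 16812400)) (a (b (l 16815760) (l 16816528)) (b (l 16813472) (l 16814088)))))) (a (b (a (c (l 16825368) (l 16817352)) (l 16818904)) (b (a (c (l 16826512) (l 16817408)) (l 16819568)) (a (c (l 16827400) (l 16817544)) (c (l 16825304) (l 16815584))))) (b (a (l 16816800) (l 16814704)) (b (a (l 16817472) (l 16815376)) (a (c (l 16823088) (l 16813552)) (c (l 16820816) (l 16811584))))))) (b (b (a (a (l 16807856) (l 16805240)) (a (l 16823520) (a (l 16800472) (l 16799048)))) (a (a (b (l 16809864) (l 16811184)) (l 16829008)) (a (b (l 16804632) (l 16806160)) (b (l 16801856) (l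 16803392))))) (b (a (b (a (b (l 16833424) (l 16812544)) (b (l 16809792) (l 16810624))) (a (l 16812840) (l 16810744))) (b (a (b (l 16807376) (a (l 16808808) (l 16807392))) (a (l 16805656) (l 16804336))) (a (l 16808560) (b (a (l 16806904) (l 16805536)) (l 16806368))))) (b (a (a (l 16813304) (l 16811192)) (a (l 16809000) (l 16806680))) (a (a (c (l 16818504) (l 16809688)) (c (l 16816112) (l 16807800))) (a (c (l 16813576) (l 16805864)) (c (l 16810880) (l 16803848)))))))), by decide +kernel⟩

def k41_pm_102_s : ∃ t, chk3 f_pm_102_s t 60 30 1 = true :=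
  ⟨(b (a (a (b (b (l 16788328) (b (l 16788920) (l 16799616))) (b (b (a (l 16790352) (l 16789264)) (l 16790408)) (l 16791016))) (b (b (l 16786672) (l 16787456)) (b (a (b (l 16788536) (l 16788928)) (l 16787920)) (b (a (l 16789584) (l 16788616)) (l 16789616))))) (b (a (b (l 16785008) (l 16785776)) (b (a (b (a (l 16783832) (l 16783096)) (l 16783936)) (b (l 16781824) (a (l 16783272) (l 16782464)))) (a (l 16784512) (b (l 16783520) (l 16783864))))) (a (b (l 16786656) (b (l 16787376) (a (l 16788328) (l 16787384)))) (b (c (l 16785200) (l 16784776)) (l 16785912))))) (b (a (a (l 16792712) (l 16791016)) (a (b (a (l 16789144) (b (l 16788048) (l 16788568))) (l 16789904)) (b (b (l 16791784) (a (l 16787784) (l 16786696))) (a (l 16788600) (b (l 16787520) (l 16788024)))))) (a (b (a (a (l 16816080) (l 16815048)) (a (l 16793144) (l 16792504))) (a (l 16795720) (b (l 16814984) (l 16794504)))) (b (a (l 16791200) (l 16789448)) (a (b (l 16792080) (a (l 16793464) (l 16792432))) (l 16790832)))))), by decide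 +kernel⟩

def k42_pm_102_s : ∃ t, chk3 f_pm_102_s t 122 60 1 = true :=
  ⟨(b (a (b (a (l 16778024) (a (l 16776720) (b (c (l 16776416) (l 35064379879)) (l 16779080)))) (a (a (b (l 16782696) (l 16783224)) (b (l 16781880) (l 16782840))) (a (b (l 16781088) (l 16782104)) (l 16780768)))) (b (a (a (b (b (l 131164273639) (a (l 16777584) (l 93583309735))) (l 16778248)) (b (l 158544688871) (b (a (l 53854862103) (l 127406177639)) (l 35064379991)))) (a (a (b (l 3) (b (l 3) (l 98415149127))) (l 3)) (l 3))) (b (a (l 16777016) (b (a (a (l 16777696) (a (l 16777384) (l 90898955383))) (l 144586046167)) (a (l 16778056) (a (l 44728056695) (l 106468212343))))) (a (l 16780112) (c (l 16777184) (l 16776544)))))) (a (b (a (l 16783656) (a (l 16783008) (b (l 16783632) (l 16782792)))) (c (l 16784424) (l 16783992))) (b (a (a (b (l 16781536) (l 16782416)) (b (l 16780816) (a (l 16782000) (l 16781608)))) (a (b (l 16780000) (l 16781016)) (l 16777120))) (a (l 16780224) (b (a (l 16781976) (a (l 16781464) (l 16776160)))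 (l 16782216)))))), by decide +kernel⟩

def k43_pm_102_s : ∃ t, chk3 f_pm_102_s t 123 60 1 = true :=
  ⟨(b (a (b (l 3) (a (b (l 3) (a (a (b (a (l 52781120503) (l 97878277191)) (l 16777792)) (b (l 145659788359) (a (l 16777496) (l 56002345911)))) (a (b (l 3) (l 120426855911)) (l 3)))) (l 3))) (l 3)) (a (b (a (b (a (l 16778416) (b (a (l 16777560) (a (l 60297313223) (l 108615695543))) (l 16777912))) (l 16777792)) (b (a (b (l 155860335015) (a (b (l 84993375223) (l 16777472)) (l 126332435799))) (l 3)) (a (a (l 16778144) (c (l 16776448) (l 36674992903))) (a (b (b (l 139217337751) (l 75329698807)) (l 16777656)) (b (l 3) (b (l 96267664471) (l 16777408))))))) (b (a (l 16780168) (c (l 16778632) (l 16777328))) (a (a (a (l 16781672) (l 16781328)) (a (b (l 16780768) (l 16781232)) (l 16780608))) (l 16779672)))) (b (a (a (a (b (l 3) (b (l 3) (l 133848628391))) (l 3)) (l 3)) (l 3)) (a (b (b (a (a (b (l 54928604103) (l 16777568)) (a (b (l 108078823479) (l 16777280)) (l 133848628567))) (l 3)) (a (c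 (l 16777776) (l 16777776)) (a (b (l 109152566439) (l 50096765911)) (l 147270401031)))) (a (l 16778544) (a (l 16777992) (b (a (l 16777464) (b (l 100025761111) (l 16777408))) (l 16777888))))) (b (l 3) (b (b (l 3) (a (a (a (l 78014053639) (l 104320727223)) (l 3)) (l 3))) (a (a (c (l 16777520) (l 16776864)) (b (l 127406177767) (l 14))) (l 14)))))))), by decide +kernel⟩

def k44_pm_102_s : ∃ t, chk3 f_pm_102_s t 61 61 1 = true :=
  ⟨(a (b (a (b (l 16785224) (a (b (l 16786400) (l 16787264)) (b (l 16785632) (l 16796608)))) (b (c (l 16783680) (l 16783272)) (l 16784576))) (a (b (a (l 16788104) (b (l 16786992) (l 16787528))) (l 16789032)) (b (a (b (c (l 16786432) (l 16785440)) (l 16786720)) (b (l 16785040) (c (l 16796672) (l 16795696)))) (a (l 16787648) (l 16786808))))) (b (a (a (b (a (l 16782304) (b (l 16781648) (l 16782120))) (l 16783208)) (a (b (b (a (l 16781448) (b (l 16780648) (l 16775864))) (l 16781656)) (l 16782512)) (b (b (l 16780264) (b (a (l 16781208) (l 16780864)) (l 16781336)))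 (l 16782048)))) (b (a (b (l 16777888) (a (b (l 16780328) (a (l 16775744) (l 14))) (l 14))) (a (a (a (l 16777576) (l 14)) (l 14)) (l 14))) (l 14))) (b (a (a (l 16784432) (l 14)) (l 14)) (l 14)))), by decide +kernel⟩

def k45_pm_102_s : ∃ t, chk3 f_pm_102_s t 30 31 1 = true :=
  ⟨(b (a (a (a (b (l 16797584) (l 16800448)) (b (l 16796072) (l 16798944))) (b (b (a (l 16793936) (b (a (l 16792416) (l 16791360)) (l 16792720))) (a (l 16795192) (l 16793592))) (a (l 16818360) (b (l 16795024) (l 16796552))))) (b (a (b (a (b (l 16790128) (a (l 16791304) (l 16790336))) (l 16788648)) (a (a (l 16792352) (b (l 14) (l 14))) (l 14))) (l 14)) (l 14))) (a (b (a (b (l 16802120) (b (a (l 16804016) (l 16802608)) (a (l 16804560) (l 16803416)))) (b (a (l 16799808) (l 14)) (l 14))) (a (c (l 16807560) (l 16806904)) (l 14))) (l 14))), by decide +kernel⟩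

def k46_pm_102_s : ∃ t, chk3 f_pm_102_s t 31 15 1 = true :=
  ⟨(b (b (l 3) (l 14)) (l 14)), by decide +kernel⟩

theorem s47_pm_102_s : ∃ t, chk3 f_pm_102_s t 61 60 1 = true := ex3_a k42_pm_102_s k43_pm_102_s

theorem s48_pm_102_s : ∃ t, chk3 f_pm_102_s t 61 30 1 = true := ex3_b s47_pm_102_s k44_pm_102_s

theorem s49_pm_102_s : ∃ t, chk3 f_pm_102_s t 30 30 1 = true := ex3_a k41_pm_102_s s48_pm_102_s

theorem s50_pm_102_s : ∃ t, chk3 f_pm_102_s t 30 15 1 = true := ex3_b s49_pm_102_s k45_pm_102_s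

theorem s51_pm_102_s : ∃ t, chk3 f_pm_102_s t 15 15 1 = true := ex3_a s50_pm_102_s k46_pm_102_s

theorem s52_pm_102_s : ∃ t, chk3 f_pm_102_s t 14 15 1 = true := ex3_b k39_pm_102_s k40_pm_102_s

theorem s53_pm_102_s : ∃ t, chk3 f_pm_102_s t 7 15 1 = true := ex3_a s52_pm_102_s s51_pm_102_s

theorem s54_pm_102_s : ∃ t, chk3 f_pm_102_s t 60 29 1 = true := ex3_b k35_pm_102_s k36_pm_102_s

theorem s55_pm_102_s : ∃ t, chk3 f_pm_102_s t 30 29 1 = true := ex3_a s54_pm_102_s k37_pm_102_s

theorem s56_pm_102_s : ∃ t, chk3 f_pm_102_s t 30 14 1 = true := ex3_b k34_pm_102_s s55_pm_102_s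

theorem s57_pm_102_s : ∃ t, chk3 f_pm_102_s t 15 14 1 = true := ex3_a s56_pm_102_s k38_pm_102_s

theorem s58_pm_102_s : ∃ t, chk3 f_pm_102_s t 29 29 1 = true := ex3_a k32_pm_102_s k33_pm_102_s

theorem s59_pm_102_s : ∃ t, chk3 f_pm_102_s t 58 28 1 = true := ex3_b k29_pm_102_s k30_pm_102_s

theorem s60_pm_102_s : ∃ t, chk3 f_pm_102_s t 29 28 1 = true := ex3_a s59_pm_102_s k31_pm_102_s

theorem s61_pm_102_s : ∃ t, chk3 f_pm_102_s t 29 14 1 = true := ex3_b s60_pm_102_s s58_pm_102_s

theorem s62_pm_102_s : ∃ t, chk3 f_pm_102_s t 14 14 1 = true := ex3_a k28_pm_102_s s61_pm_102_s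

theorem s63_pm_102_s : ∃ t, chk3 f_pm_102_s t 7 14 1 = true := ex3_a s62_pm_102_s s57_pm_102_s

theorem s64_pm_102_s : ∃ t, chk3 f_pm_102_s t 7 7 1 = true := ex3_b s63_pm_102_s s53_pm_102_s

theorem s65_pm_102_s : ∃ t, chk3 f_pm_102_s t 57 27 1 = true := ex3_b k24_pm_102_s k25_pm_102_s

theorem s66_pm_102_s : ∃ t, chk3 f_pm_102_s t 28 27 1 = true := ex3_a k23_pm_102_s s65_pm_102_s

theorem s67_pm_102_s : ∃ t, chk3 f_pm_102_s t 112 53 1 = true := ex3_b k19_pm_102_s k20_pm_102_s

theorem s68_pm_102_s : ∃ t, chk3 f_pm_102_s t 56 53 1 = true := ex3_a s67_pm_102_s k21_pm_102_s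

theorem s69_pm_102_s : ∃ t, chk3 f_pm_102_s t 56 26 1 = true := ex3_b k18_pm_102_s s68_pm_102_s

theorem s70_pm_102_s : ∃ t, chk3 f_pm_102_s t 28 26 1 = true := ex3_a s69_pm_102_s k22_pm_102_s

theorem s71_pm_102_s : ∃ t, chk3 f_pm_102_s t 28 13 1 = true := ex3_b s70_pm_102_s s66_pm_102_s

theorem s72_pm_102_s : ∃ t, chk3 f_pm_102_s t 14 13 1 = true := ex3_a s71_pm_102_s k26_pm_102_s

theorem s73_pm_102_s : ∃ t, chk3 f_pm_102_s t 14 6 1 = true := ex3_b k17_pm_102_s s72_pm_102_s

theorem s74_pm_102_s : ∃ t, chk3 f_pm_102_s t 7 6 1 = true := ex3_a s73_pm_102_s k27_pm_102_s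

theorem s75_pm_102_s : ∃ t, chk3 f_pm_102_s t 7 3 1 = true := ex3_b s74_pm_102_s s64_pm_102_s

theorem s76_pm_102_s : ∃ t, chk3 f_pm_102_s t 111 105 1 = true := ex3_a k12_pm_102_s k13_pm_102_s

theorem s77_pm_102_s : ∃ t, chk3 f_pm_102_s t 111 52 1 = true := ex3_b k11_pm_102_s s76_pm_102_s

theorem s78_pm_102_s : ∃ t, chk3 f_pm_102_s t 55 52 1 = true := ex3_a k10_pm_102_s s77_pm_102_s

theorem s79_pm_102_s : ∃ t, chk3 f_pm_102_s t 55 26 1 = true := ex3_b s78_pm_102_s k14_pm_102_s

theorem s80_pm_102_s : ∃ t, chk3 f_pm_102_s t 27 26 1 = true := ex3_a k9_pm_102_s s79_pm_102_s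

theorem s81_pm_102_s : ∃ t, chk3 f_pm_102_s t 27 13 1 = true := ex3_b s80_pm_102_s k15_pm_102_s

theorem s82_pm_102_s : ∃ t, chk3 f_pm_102_s t 13 13 1 = true := ex3_a k8_pm_102_s s81_pm_102_s

theorem s83_pm_102_s : ∃ t, chk3 f_pm_102_s t 13 12 1 = true := ex3_a k6_pm_102_s k7_pm_102_s

theorem s84_pm_102_s : ∃ t, chk3 f_pm_102_s t 13 6 1 = true := ex3_b s83_pm_102_s s82_pm_102_s

theorem s85_pm_102_s : ∃ t, chk3 f_pm_102_s t 6 6 1 = true := ex3_a k5_pm_102_s s84_pm_102_s

theorem s86_pm_102_s : ∃ t, chk3 f_pm_102_s t 6 3 1 = true := ex3_b s85_pm_102_s k16_pm_102_s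

theorem s87_pm_102_s : ∃ t, chk3 f_pm_102_s t 3 3 1 = true := ex3_a s86_pm_102_s s75_pm_102_s

theorem s88_pm_102_s : ∃ t, chk3 f_pm_102_s t 3 1 1 = true := ex3_b k4_pm_102_s s87_pm_102_s

theorem s89_pm_102_s : ∃ t, chk3 f_pm_102_s t 5 2 1 = true := ex3_a k1_pm_102_s k2_pm_102_s

theorem s90_pm_102_s : ∃ t, chk3 f_pm_102_s t 2 2 1 = true := ex3_a k0_pm_102_s s89_pm_102_s

theorem s91_pm_102_s : ∃ t, chk3 f_pm_102_s t 2 1 1 = true := ex3_b s90_pm_102_s k3_pm_102_s

theorem s92_pm_102_s : ∃ t, chk3 f_pm_102_s t 1 1 1 = true := ex3_a s91_pm_102_s s88_pm_102_s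

theorem c_pm_102_s : CertNE 536870912 536870912 0 536870912 587336777 62277027 3 eng mog cd0q1 cd0q2 pd0 false true false .npp 1 0 2
    ndB0q1 ndB0q2 pcB0 cut_pm_102_s Ext.none :=
  certNE0 (fam := false) (s1 := true) (s2 := false) (a := 1) (b := 0) (c := 2) (cn := .npp) (n1 := ndB0q1) (n2 := ndB0q2) (pc := pcB0) (cut := cut_pm_102_s) (xt := Ext.none) (P1 := 536870912) (W1 := 536870912) (P2 := 0) (W2 := 536870912) (P3 := 587336777) (W3 := 62277027) (N0 := 3) (En := eng) (mo := mog) (C1 := cd0q1) (C2 := cd0q2) (C3 := pd0)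
    rfl s92_pm_102_s

noncomputable def cut_pm_102_t : Cut := Cut.of [[⟨3, 0, 0, 2845415833⟩], [⟨0, 1, 0, 67108864⟩, ⟨1, 0, 0, 67108864⟩, ⟨2, 1, 0, 67108864⟩], [⟨0, 0, 1, 20971520⟩, ⟨1, 1, 2, 20971520⟩, ⟨2, 1, 0, 29360128⟩]]

noncomputable def f_pm_102_t : ℕ → ℕ → ℕ → ℕ → Bool := onCell 536870912 536870912 0 536870912 587336777 62277027
    (rowNE 3 eng mog cd0q1 cd0q2 pd0 0 false true false .npp 1 0 2 (qsf 536870912 536870912 0 536870912 0) ndB0q1 ndB0q2 pcB0 cut_pm_102_t Ext.none)

def k0_pm_102_t : ∃ t, chk3 f_pm_102_t t 1 1 1 = true :=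
  ⟨(l 6), by decide +kernel⟩

theorem c_pm_102_t : CertNE 536870912 536870912 0 536870912 587336777 62277027 3 eng mog cd0q1 cd0q2 pd0 false true false .npp 1 0 2
    ndB0q1 ndB0q2 pcB0 cut_pm_102_t Ext.none :=
  certNE0 (fam := false) (s1 := true) (s2 := false) (a := 1) (b := 0) (c := 2) (cn := .npp) (n1 := ndB0q1) (n2 := ndB0q2) (pc := pcB0) (cut := cut_pm_102_t) (xt := Ext.none) (P1 := 536870912) (W1 := 536870912) (P2 := 0) (W2 := 536870912) (P3 := 587336777) (W3 := 62277027) (N0 := 3) (En := eng) (mo := mog) (C1 := cd0q1) (C2 := cd0q2) (C3 := pd0)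
    rfl k0_pm_102_t

noncomputable def cut_pm_112_s : Cut := Cut.of [[⟨4, 0, 0, 1449551462⟩]]

noncomputable def f_pm_112_s : ℕ → ℕ → ℕ → ℕ → Bool := onCell 536870912 536870912 0 536870912 587336777 62277027
    (rowNE 3 eng mog cd0q1 cd0q2 pd1 2 false true false .dn 1 1 2 (qsf 536870912 536870912 0 536870912 1) ndB0q1 ndB0q2 pcB1 cut_pm_112_s Ext.none)

def k0_pm_112_s : ∃ t, chk3 f_pm_112_s t 8 8 1 = true :=
  ⟨(a (b (l 3) (a (b (l 3) (a (l 3) (b (l 3) (a (l 3) (l 138680464887))))) (b (a (l 3) (a (l 3) (l 162839654039))) (a (b (a (l 3) (l 140827948551)) (a (b (l 130090531287) (l 8757714183)) (b (b (l 16780560) (l 16775080)) (l 16772704)))) (b (a (b (l 138143594999) (a (l 16780296) (l 16775208))) (b (a (l 29695677831) (l 16775304)) (l 16772904))) (a (l 16771216) (l 16768168))))))) (b (a (b (l 3) (a (l 3) (l 168208362663))) (b (a (l 3) (l 171966459751)) (a (b (l 166597751863) (a (b (l 156934077079) (l 28621937127)) (b (l 29158807975) (l 16773504)))) (b (a (b (l 160155302631) (l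 29695678807)) (b (l 30232549783) (l 16773640))) (l 16770632))))) (a (b (a (b (l 161229042375) (a (b (l 149417884183) (b (l 16780136) (l 16775384))) (b (l 25400711591) (l 16773136)))) (b (a (b (l 153712851543) (l 26474453559)) (b (l 27548195191) (l 16773336))) (l 16770200))) (a (b (l 16769936) (l 16763648)) (l 16781808))) (b (a (l 16769992) (l 16761576)) (a (l 16754992) (b (l 16752368) (l 16756736))))))), by decide +kernel⟩

def k1_pm_112_s : ∃ t, chk3 f_pm_112_s t 8 9 1 = true :=
  ⟨(a (b (a (b (a (b (a (l 3) (b (l 3) (l 124184958983))) (a (b (b (l 153712851399) (l 95193930727)) (l 16775256)) (b (l 16780640) (l 16772176)))) (b (a (b (l 126332434839) (l 16780768)) (b (l 16780896) (l 16772456))) (a (l 16768088) (l 16767664)))) (b (a (a (l 16770384) (l 16767328)) (l 16773272)) (a (a (l 16763888) (l 16760872)) (l 16756384)))) (b (a (b (a (l 16770992) (l 16767936)) (l 16773600)) (c (l 16781840) (l 16770032))) (a (a (l 16755072) (b (l 16755264) (l 16748944))) (b (l 16750776) (a (b (l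 16747544) (l 16744344)) (l 16753400)))))) (a (b (a (b (c (l 16756816) (l 16754984)) (a (l 16750864) (b (l 16749560) (b (l 16747120) (a (l 16746208) (l 16744744)))))) (b (a (l 16751456) (b (l 16750104) (b (l 16747704) (l 16746112)))) (a (b (a (l 16747368) (l 16745896)) (l 16743360)) (b (l 16743672) (l 16740424))))) (a (b (a (b (a (b (l 16747464) (c (l 16747120) (l 16744480))) (b (l 16746008) (l 16744352))) (l 16742568)) (l 16741328)) (l 16736032)) (l 16733560))) (b (a (b (a (b (l 16747160) (l 16743928)) (b (l 16744144) (l 16740968))) (l 16737616)) (l 16734888)) (a (l 16727680) (l 16721856))))) (b (a (b (a (l 16775184) (b (l 16751456) (a (l 16746744) (l 16743752)))) (a (b (b (l 16756928) (l 16753704)) (l 16738536)) (l 16735808))) (b (a (b (b (l 16747272) (l 16744120)) (l 16739400)) (l 16757792)) (l 16727488))) (a (b (l 16726232) (l 16713440)) (b (l 16715288) (l 16702856))))), by decide +kernel⟩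

def k2_pm_112_s : ∃ t, chk3 f_pm_112_s t 9 4 1 = true :=
  ⟨(b (a (b (a (b (a (b (l 169818977799) (a (b (l 162302786375) (l 30769420423)) (b (l 30232549559) (l 16773744)))) (b (a (b (l 163913399223) (l 16780392)) (b (l 16780232) (l 16773816))) (l 16770936))) (a (l 16778336) (l 16762216))) (b (a (l 16778680) (l 16762720)) (a (l 16756704) (l 16772352)))) (a (b (a (l 16755904) (l 16760952)) (a (b (l 16746840) (l 16740520)) (l 16748616))) (b (a (b (l 16747992) (l 16741920)) (l 16760568)) (l 16730496)))) (b (b (a (a (l 16757344) (l 16752048)) (a (b (l 16749528) (l 16744024)) (l 16762544))) (a (a (b (l 16748944) (l 16743192)) (l 16761752)) (l 16733240))) (a (l 16747224) (l 16716456)))) (a (b (a (l 16743824) (l 16733784)) (a (l 16719952) (l 16710664))) (b (a (l 16703272) (l 16694096)) (a (b (l 16686472) (l 16675200)) (b (l 16677960) (l 16666928)))))), by decide +kernel⟩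

def k3_pm_112_s : ∃ t, chk3 f_pm_112_s t 4 5 1 = true :=
  ⟨(a (b (b (a (a (b (a (c (l 16727152) (l 16723960)) (l 16719760)) (a (l 16711080) (l 16705360))) (b (l 16732120) (l 16717976))) (a (b (l 16700160) (l 16686400)) (b (l 16689968) (b (l 16680112) (l 16673176))))) (a (a (b (a (l 16695376) (l 16689776)) (b (l 16679504) (a (l 16673008) (l 16667352)))) (b (a (l 16684296) (l 16679200)) (b (a (l 16671488) (l 16666144)) (l 16659592)))) (a (b (a (l 16695000) (l 16668912)) (l 16654576)) (l 16654080)))) (b (a (a (b (a (b (l 16662704) (l 16652216)) (l 16652200)) (l 16632680)) (l 16655016)) (a (l 16625400) (l 16617896))) (a (a (b (l 16608664) (l 16582824)) (b (l 16599856) (l 6))) (l 6)))) (b (a (b (a (b (l 16680720) (l 16667432)) (b (l 16671648) (l 16659432))) (l 16663416)) (b (a (l 16657864) (l 16650464)) (l 16649944))) (a (l 6) (l 6)))), by decide +kernel⟩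

def k4_pm_112_s : ∃ t, chk3 f_pm_112_s t 5 2 1 = true :=
  ⟨(a (b (b (a (a (b (l 16749744) (l 16707088)) (b (l 16719416) (l 16698264))) (l 1)) (a (b (a (l 16706528) (b (l 16682504) (l 16672232))) (a (b (l 16669704) (l 16659424)) (l 16657296))) (l 1))) (b (a (b (l 16661336) (l 6)) (l 1)) (l 6))) (l 1)), by decide +kernel⟩

def k5_pm_112_s : ∃ t, chk3 f_pm_112_s t 2 3 1 = true :=
  ⟨(a (b (l 6) (l 6)) (l 6)), by decide +kernel⟩

def k6_pm_112_s : ∃ t, chk3 f_pm_112_s t 3 1 1 = true :=
  ⟨(l 1), by decide +kernel⟩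

theorem s7_pm_112_s : ∃ t, chk3 f_pm_112_s t 8 4 1 = true := ex3_b k0_pm_112_s k1_pm_112_s

theorem s8_pm_112_s : ∃ t, chk3 f_pm_112_s t 4 4 1 = true := ex3_a s7_pm_112_s k2_pm_112_s

theorem s9_pm_112_s : ∃ t, chk3 f_pm_112_s t 4 2 1 = true := ex3_b s8_pm_112_s k3_pm_112_s

theorem s10_pm_112_s : ∃ t, chk3 f_pm_112_s t 2 2 1 = true := ex3_a s9_pm_112_s k4_pm_112_s

theorem s11_pm_112_s : ∃ t, chk3 f_pm_112_s t 2 1 1 = true := ex3_b s10_pm_112_s k5_pm_112_s

theorem s12_pm_112_s : ∃ t, chk3 f_pm_112_s t 1 1 1 = true := ex3_a s11_pm_112_s k6_pm_112_s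

theorem c_pm_112_s : CertNE 536870912 536870912 0 536870912 587336777 62277027 3 eng mog cd0q1 cd0q2 pd1 false true false .dn 1 1 2
    ndB0q1 ndB0q2 pcB1 cut_pm_112_s Ext.none :=
  certNE2 (fam := false) (s1 := true) (s2 := false) (a := 1) (b := 1) (c := 2) (cn := .dn) (n1 := ndB0q1) (n2 := ndB0q2) (pc := pcB1) (cut := cut_pm_112_s) (xt := Ext.none) (P1 := 536870912) (W1 := 536870912) (P2 := 0) (W2 := 536870912) (P3 := 587336777) (W3 := 62277027) (N0 := 3) (En := eng) (mo := mog) (C1 := cd0q1) (C2 := cd0q2) (C3 := pd1)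
    rfl (fun _ => rfl) s12_pm_112_s

noncomputable def cut_pm_112_t : Cut := Cut.of [[⟨3, 0, 0, 2845415833⟩]]

noncomputable def f_pm_112_t : ℕ → ℕ → ℕ → ℕ → Bool := onCell 536870912 536870912 0 536870912 587336777 62277027
    (rowNE 3 eng mog cd0q1 cd0q2 pd1 0 false true false .dn 1 1 2 (qsf 536870912 536870912 0 536870912 1) ndB0q1 ndB0q2 pcB1 cut_pm_112_t Ext.none)

def k0_pm_112_t : ∃ t, chk3 f_pm_112_t t 1 1 1 = true :=
  ⟨(l 6), by decide +kernel⟩

theorem c_pm_112_t : CertNE 536870912 536870912 0 536870912 587336777 62277027 3 eng mog cd0q1 cd0q2 pd1 false true false .dn 1 1 2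
    ndB0q1 ndB0q2 pcB1 cut_pm_112_t Ext.none :=
  certNE0 (fam := false) (s1 := true) (s2 := false) (a := 1) (b := 1) (c := 2) (cn := .dn) (n1 := ndB0q1) (n2 := ndB0q2) (pc := pcB1) (cut := cut_pm_112_t) (xt := Ext.none) (P1 := 536870912) (W1 := 536870912) (P2 := 0) (W2 := 536870912) (P3 := 587336777) (W3 := 62277027) (N0 := 3) (En := eng) (mo := mog) (C1 := cd0q1) (C2 := cd0q2) (C3 := pd1)
    rfl k0_pm_112_t

noncomputable def cut_pm_202_s : Cut := Cut.of [[⟨4, 0, 0, 1449551462⟩], [⟨0, 1, 0, 67108864⟩, ⟨1, 0, 0, 67108864⟩, ⟨2, 1, 0, 67108864⟩]]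

noncomputable def f_pm_202_s : ℕ → ℕ → ℕ → ℕ → Bool := onCell 0 536870912 0 536870912 587336777 62277027
    (rowNE 3 eng mog cd0q2 cd0q2 pd0 0 false true false .pp 2 0 2 (qsf 0 536870912 0 536870912 0) ndB0q2 ndB0q2 pcB0 cut_pm_202_s Ext.none)

def k0_pm_202_s : ∃ t, chk3 f_pm_202_s t 1 1 1 = true :=
  ⟨(a (l 3) (b (l 3) (a (l 3) (b (l 3) (b (l 3) (a (l 3) (l 14))))))), by decide +kernel⟩

theorem c_pm_202_s : CertNE 0 536870912 0 536870912 587336777 62277027 3 eng mog cd0q2 cd0q2 pd0 false true false .pp 2 0 2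
    ndB0q2 ndB0q2 pcB0 cut_pm_202_s Ext.none :=
  certNE0 (fam := false) (s1 := true) (s2 := false) (a := 2) (b := 0) (c := 2) (cn := .pp) (n1 := ndB0q2) (n2 := ndB0q2) (pc := pcB0) (cut := cut_pm_202_s) (xt := Ext.none) (P1 := 0) (W1 := 536870912) (P2 := 0) (W2 := 536870912) (P3 := 587336777) (W3 := 62277027) (N0 := 3) (En := eng) (mo := mog) (C1 := cd0q2) (C2 := cd0q2) (C3 := pd0)
    rfl k0_pm_202_s

noncomputable def cut_pm_202_t : Cut := Cut.of [[⟨3, 0, 0, 2845415833⟩], [⟨0, 1, 0, 67108864⟩, ⟨1, 0, 0, 67108864⟩, ⟨2, 1, 0, 67108864⟩]]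

noncomputable def f_pm_202_t : ℕ → ℕ → ℕ → ℕ → Bool := onCell 0 536870912 0 536870912 587336777 62277027
    (rowNE 3 eng mog cd0q2 cd0q2 pd0 0 false true false .pp 2 0 2 (qsf 0 536870912 0 536870912 0) ndB0q2 ndB0q2 pcB0 cut_pm_202_t Ext.none)

def k0_pm_202_t : ∃ t, chk3 f_pm_202_t t 1 1 1 = true :=
  ⟨(l 6), by decide +kernel⟩

theorem c_pm_202_t : CertNE 0 536870912 0 536870912 587336777 62277027 3 eng mog cd0q2 cd0q2 pd0 false true false .pp 2 0 2
    ndB0q2 ndB0q2 pcB0 cut_pm_202_t Ext.none :=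
  certNE0 (fam := false) (s1 := true) (s2 := false) (a := 2) (b := 0) (c := 2) (cn := .pp) (n1 := ndB0q2) (n2 := ndB0q2) (pc := pcB0) (cut := cut_pm_202_t) (xt := Ext.none) (P1 := 0) (W1 := 536870912) (P2 := 0) (W2 := 536870912) (P3 := 587336777) (W3 := 62277027) (N0 := 3) (En := eng) (mo := mog) (C1 := cd0q2) (C2 := cd0q2) (C3 := pd0)
    rfl k0_pm_202_t

noncomputable def cut_mm_001_s : Cut := Cut.of [[⟨4, 0, 0, 1449551462⟩]]

noncomputable def f_mm_001_s : ℕ → ℕ → ℕ → ℕ → Bool := onCell 0 536870912 0 536870912 587336777 62277027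
    (rowNE 3 eng mog cd0q0 cd0q1 pd0 1 false false false .up 0 0 1 (qsf 0 536870912 536870912 536870912 0) ndB0q0 ndB0q1 pcB0 cut_mm_001_s Ext.none)

def k0_mm_001_s : ∃ t, chk3 f_mm_001_s t 1 1 1 = true :=
  ⟨(l 3), by decide +kernel⟩

theorem c_mm_001_s : CertNE 0 536870912 536870912 536870912 587336777 62277027 3 eng mog cd0q0 cd0q1 pd0 false false false .up 0 0 1
    ndB0q0 ndB0q1 pcB0 cut_mm_001_s Ext.none :=
  certNE1 (fam := false) (s1 := false) (s2 := false) (a := 0) (b := 0) (c := 1) (cn := .up) (n1 := ndB0q0) (n2 := ndB0q1) (pc := pcB0) (cut := cut_mm_001_s) (xt := Ext.none) (P1 := 0) (W1 := 536870912) (P2 := 536870912) (W2 := 536870912) (P3 := 587336777) (W3 := 62277027) (N0 := 3) (En := eng) (mo := mog) (C1 := cd0q0) (C2 := cd0q1) (C3 := pd0)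
    rfl (fun _ => rfl) k0_mm_001_s

noncomputable def cut_mm_001_t : Cut := Cut.of [[⟨3, 0, 0, 2845415833⟩]]

noncomputable def f_mm_001_t : ℕ → ℕ → ℕ → ℕ → Bool := onCell 0 536870912 536870912 536870912 587336777 62277027
    (rowNE 3 eng mog cd0q0 cd0q1 pd0 0 false false false .up 0 0 1 (qsf 0 536870912 536870912 536870912 0) ndB0q0 ndB0q1 pcB0 cut_mm_001_t Ext.none)

def k0_mm_001_t : ∃ t, chk3 f_mm_001_t t 1 1 1 = true :=
  ⟨(l 6), by decide +kernel⟩

theorem c_mm_001_t : CertNE 0 536870912 536870912 536870912 587336777 62277027 3 eng mog cd0q0 cd0q1 pd0 false false false .up 0 0 1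
    ndB0q0 ndB0q1 pcB0 cut_mm_001_t Ext.none :=
  certNE0 (fam := false) (s1 := false) (s2 := false) (a := 0) (b := 0) (c := 1) (cn := .up) (n1 := ndB0q0) (n2 := ndB0q1) (pc := pcB0) (cut := cut_mm_001_t) (xt := Ext.none) (P1 := 0) (W1 := 536870912) (P2 := 536870912) (W2 := 536870912) (P3 := 587336777) (W3 := 62277027) (N0 := 3) (En := eng) (mo := mog) (C1 := cd0q0) (C2 := cd0q1) (C3 := pd0)
    rfl k0_mm_001_t

noncomputable def cut_mm_011_s : Cut := Cut.of [[⟨4, 0, 0, 1449551462⟩]]

noncomputable def f_mm_011_s : ℕ → ℕ → ℕ → ℕ → Bool := onCell 0 536870912 536870912 536870912 587336777 62277027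
    (rowNE 3 eng mog cd0q0 cd0q1 pd1 1 false false false .pnn 0 1 1 (qsf 0 536870912 536870912 536870912 1) ndB0q0 ndB0q1 pcB1 cut_mm_011_s Ext.none)

def k0_mm_011_s : ∃ t, chk3 f_mm_011_s t 1 1 1 = true :=
  ⟨(l 5), by decide +kernel⟩

theorem c_mm_011_s : CertNE 0 536870912 536870912 536870912 587336777 62277027 3 eng mog cd0q0 cd0q1 pd1 false false false .pnn 0 1 1
    ndB0q0 ndB0q1 pcB1 cut_mm_011_s Ext.none :=
  certNE1 (fam := false) (s1 := false) (s2 := false) (a := 0) (b := 1) (c := 1) (cn := .pnn) (n1 := ndB0q0) (n2 := ndB0q1) (pc := pcB1) (cut := cut_mm_011_s) (xt := Ext.none) (P1 := 0) (W1 := 536870912) (P2 := 536870912) (W2 := 536870912) (P3 := 587336777) (W3 := 62277027) (N0 := 3) (En := eng) (mo := mog) (C1 := cd0q0) (C2 := cd0q1) (C3 := pd1)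
    rfl (fun _ => rfl) k0_mm_011_s

noncomputable def cut_mm_011_t : Cut := Cut.of [[⟨3, 0, 0, 2845415833⟩]]

noncomputable def f_mm_011_t : ℕ → ℕ → ℕ → ℕ → Bool := onCell 0 536870912 536870912 536870912 587336777 62277027
    (rowNE 3 eng mog cd0q0 cd0q1 pd1 0 false false false .pnn 0 1 1 (qsf 0 536870912 536870912 536870912 1) ndB0q0 ndB0q1 pcB1 cut_mm_011_t Ext.none)

def k0_mm_011_t : ∃ t, chk3 f_mm_011_t t 1 1 1 = true :=
  ⟨(l 6), by decide +kernel⟩

theorem c_mm_011_t : CertNE 0 536870912 536870912 536870912 587336777 62277027 3 eng mog cd0q0 cd0q1 pd1 false false false .pnn 0 1 1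
    ndB0q0 ndB0q1 pcB1 cut_mm_011_t Ext.none :=
  certNE0 (fam := false) (s1 := false) (s2 := false) (a := 0) (b := 1) (c := 1) (cn := .pnn) (n1 := ndB0q0) (n2 := ndB0q1) (pc := pcB1) (cut := cut_mm_011_t) (xt := Ext.none) (P1 := 0) (W1 := 536870912) (P2 := 536870912) (W2 := 536870912) (P3 := 587336777) (W3 := 62277027) (N0 := 3) (En := eng) (mo := mog) (C1 := cd0q0) (C2 := cd0q1) (C3 := pd1)
    rfl k0_mm_011_t

noncomputable def cut_mm_012_s : Cut := Cut.of [[⟨4, 0, 0, 1449551462⟩]]

noncomputable def f_mm_012_s : ℕ → ℕ → ℕ → ℕ → Bool := onCell 0 536870912 0 536870912 587336777 62277027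
    (rowNE 3 eng mog cd0q0 cd0q2 pd1 0 false false false .pnp 0 1 2 (qsf 0 536870912 0 536870912 1) ndB0q0 ndB0q2 pcB1 cut_mm_012_s Ext.none)

def k0_mm_012_s : ∃ t, chk3 f_mm_012_s t 1 1 1 = true :=
  ⟨(l 5), by decide +kernel⟩

theorem c_mm_012_s : CertNE 0 536870912 0 536870912 587336777 62277027 3 eng mog cd0q0 cd0q2 pd1 false false false .pnp 0 1 2
    ndB0q0 ndB0q2 pcB1 cut_mm_012_s Ext.none :=
  certNE0 (fam := false) (s1 := false) (s2 := false) (a := 0) (b := 1) (c := 2) (cn := .pnp) (n1 := ndB0q0) (n2 := ndB0q2) (pc := pcB1) (cut := cut_mm_012_s) (xt := Ext.none) (P1 := 0) (W1 := 536870912) (P2 := 0) (W2 := 536870912) (P3 := 587336777) (W3 := 62277027) (N0 := 3) (En := eng) (mo := mog) (C1 := cd0q0) (C2 := cd0q2) (C3 := pd1)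
    rfl k0_mm_012_s

noncomputable def cut_mm_012_t : Cut := Cut.of [[⟨3, 0, 0, 2845415833⟩]]

noncomputable def f_mm_012_t : ℕ → ℕ → ℕ → ℕ → Bool := onCell 0 536870912 0 536870912 587336777 62277027
    (rowNE 3 eng mog cd0q0 cd0q2 pd1 0 false false false .pnp 0 1 2 (qsf 0 536870912 0 536870912 1) ndB0q0 ndB0q2 pcB1 cut_mm_012_t Ext.none)

def k0_mm_012_t : ∃ t, chk3 f_mm_012_t t 1 1 1 = true :=
  ⟨(l 5), by decide +kernel⟩

theorem c_mm_012_t : CertNE 0 536870912 0 536870912 587336777 62277027 3 eng mog cd0q0 cd0q2 pd1 false false false .pnp 0 1 2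
    ndB0q0 ndB0q2 pcB1 cut_mm_012_t Ext.none :=
  certNE0 (fam := false) (s1 := false) (s2 := false) (a := 0) (b := 1) (c := 2) (cn := .pnp) (n1 := ndB0q0) (n2 := ndB0q2) (pc := pcB1) (cut := cut_mm_012_t) (xt := Ext.none) (P1 := 0) (W1 := 536870912) (P2 := 0) (W2 := 536870912) (P3 := 587336777) (W3 := 62277027) (N0 := 3) (En := eng) (mo := mog) (C1 := cd0q0) (C2 := cd0q2) (C3 := pd1)
    rfl k0_mm_012_t

noncomputable def cut_mm_022_s : Cut := Cut.of [[⟨4, 0, 0, 1449551462⟩]]

noncomputable def f_mm_022_s : ℕ → ℕ → ℕ → ℕ → Bool := onCell 0 536870912 0 536870912 587336777 62277027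
    (rowNE 3 eng mog cd0q0 cd0q2 pd2 0 false false false .pp 0 2 2 (qsf 0 536870912 0 536870912 2) ndB0q0 ndB0q2 pcB2 cut_mm_022_s Ext.none)

def k0_mm_022_s : ∃ t, chk3 f_mm_022_s t 1 1 1 = true :=
  ⟨(l 5), by decide +kernel⟩

theorem c_mm_022_s : CertNE 0 536870912 0 536870912 587336777 62277027 3 eng mog cd0q0 cd0q2 pd2 false false false .pp 0 2 2
    ndB0q0 ndB0q2 pcB2 cut_mm_022_s Ext.none :=
  certNE0 (fam := false) (s1 := false) (s2 := false) (a := 0) (b := 2) (c := 2) (cn := .pp) (n1 := ndB0q0) (n2 := ndB0q2) (pc := pcB2) (cut := cut_mm_022_s) (xt := Ext.none) (P1 := 0) (W1 := 536870912) (P2 := 0) (W2 := 536870912) (P3 := 587336777) (W3 := 62277027) (N0 := 3) (En := eng) (mo := mog) (C1 := cd0q0) (C2 := cd0q2) (C3 := pd2)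
    rfl k0_mm_022_s

noncomputable def cut_mm_022_t : Cut := Cut.of [[⟨3, 0, 0, 2845415833⟩]]

noncomputable def f_mm_022_t : ℕ → ℕ → ℕ → ℕ → Bool := onCell 0 536870912 0 536870912 587336777 62277027
    (rowNE 3 eng mog cd0q0 cd0q2 pd2 0 false false false .pp 0 2 2 (qsf 0 536870912 0 536870912 2) ndB0q0 ndB0q2 pcB2 cut_mm_022_t Ext.none)

def k0_mm_022_t : ∃ t, chk3 f_mm_022_t t 1 1 1 = true :=
  ⟨(l 5), by decide +kernel⟩

theorem c_mm_022_t : CertNE 0 536870912 0 536870912 587336777 62277027 3 eng mog cd0q0 cd0q2 pd2 false false false .pp 0 2 2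
    ndB0q0 ndB0q2 pcB2 cut_mm_022_t Ext.none :=
  certNE0 (fam := false) (s1 := false) (s2 := false) (a := 0) (b := 2) (c := 2) (cn := .pp) (n1 := ndB0q0) (n2 := ndB0q2) (pc := pcB2) (cut := cut_mm_022_t) (xt := Ext.none) (P1 := 0) (W1 := 536870912) (P2 := 0) (W2 := 536870912) (P3 := 587336777) (W3 := 62277027) (N0 := 3) (En := eng) (mo := mog) (C1 := cd0q0) (C2 := cd0q2) (C3 := pd2)
    rfl k0_mm_022_t

noncomputable def cut_mm_101_s : Cut := Cut.of [[⟨4, 0, 0, 1449551462⟩]]

noncomputable def f_mm_101_s : ℕ → ℕ → ℕ → ℕ → Bool := onCell 536870912 536870912 536870912 536870912 587336777 62277027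
    (rowNE 3 eng mog cd0q1 cd0q1 pd0 0 false false false .npn 1 0 1 (qsf 536870912 536870912 536870912 536870912 0) ndB0q1 ndB0q1 pcB0 cut_mm_101_s Ext.none)

def k0_mm_101_s : ∃ t, chk3 f_mm_101_s t 1 1 1 = true :=
  ⟨(l 3), by decide +kernel⟩

theorem c_mm_101_s : CertNE 536870912 536870912 536870912 536870912 587336777 62277027 3 eng mog cd0q1 cd0q1 pd0 false false false .npn 1 0 1
    ndB0q1 ndB0q1 pcB0 cut_mm_101_s Ext.none :=
  certNE0 (fam := false) (s1 := false) (s2 := false) (a := 1) (b := 0) (c := 1) (cn := .npn) (n1 := ndB0q1) (n2 := ndB0q1) (pc := pcB0) (cut := cut_mm_101_s) (xt := Ext.none) (P1 := 536870912) (W1 := 536870912) (P2 := 536870912) (W2 := 536870912) (P3 := 587336777) (W3 := 62277027) (N0 := 3) (En := eng) (mo := mog) (C1 := cd0q1) (C2 := cd0q1) (C3 := pd0)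
    rfl k0_mm_101_s

noncomputable def cut_mm_101_t : Cut := Cut.of [[⟨3, 0, 0, 2845415833⟩]]

noncomputable def f_mm_101_t : ℕ → ℕ → ℕ → ℕ → Bool := onCell 536870912 536870912 536870912 536870912 587336777 62277027
    (rowNE 3 eng mog cd0q1 cd0q1 pd0 0 false false false .npn 1 0 1 (qsf 536870912 536870912 536870912 536870912 0) ndB0q1 ndB0q1 pcB0 cut_mm_101_t Ext.none)

def k0_mm_101_t : ∃ t, chk3 f_mm_101_t t 1 1 1 = true :=
  ⟨(l 3), by decide +kernel⟩

theorem c_mm_101_t : CertNE 536870912 536870912 536870912 536870912 587336777 62277027 3 eng mog cd0q1 cd0q1 pd0 false false false .npn 1 0 1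
    ndB0q1 ndB0q1 pcB0 cut_mm_101_t Ext.none :=
  certNE0 (fam := false) (s1 := false) (s2 := false) (a := 1) (b := 0) (c := 1) (cn := .npn) (n1 := ndB0q1) (n2 := ndB0q1) (pc := pcB0) (cut := cut_mm_101_t) (xt := Ext.none) (P1 := 536870912) (W1 := 536870912) (P2 := 536870912) (W2 := 536870912) (P3 := 587336777) (W3 := 62277027) (N0 := 3) (En := eng) (mo := mog) (C1 := cd0q1) (C2 := cd0q1) (C3 := pd0)
    rfl k0_mm_101_t

noncomputable def cut_mm_102_s : Cut := Cut.of [[⟨4, 0, 0, 1449551462⟩]]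

noncomputable def f_mm_102_s : ℕ → ℕ → ℕ → ℕ → Bool := onCell 536870912 536870912 0 536870912 587336777 62277027
    (rowNE 3 eng mog cd0q1 cd0q2 pd0 0 false false false .npp 1 0 2 (qsf 536870912 536870912 0 536870912 0) ndB0q1 ndB0q2 pcB0 cut_mm_102_s Ext.none)

def k0_mm_102_s : ∃ t, chk3 f_mm_102_s t 1 1 1 = true :=
  ⟨(a (l 5) (l 3)), by decide +kernel⟩

theorem c_mm_102_s : CertNE 536870912 536870912 0 536870912 587336777 62277027 3 eng mog cd0q1 cd0q2 pd0 false false false .npp 1 0 2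
    ndB0q1 ndB0q2 pcB0 cut_mm_102_s Ext.none :=
  certNE0 (fam := false) (s1 := false) (s2 := false) (a := 1) (b := 0) (c := 2) (cn := .npp) (n1 := ndB0q1) (n2 := ndB0q2) (pc := pcB0) (cut := cut_mm_102_s) (xt := Ext.none) (P1 := 536870912) (W1 := 536870912) (P2 := 0) (W2 := 536870912) (P3 := 587336777) (W3 := 62277027) (N0 := 3) (En := eng) (mo := mog) (C1 := cd0q1) (C2 := cd0q2) (C3 := pd0)
    rfl k0_mm_102_s

noncomputable def cut_mm_102_t : Cut := Cut.of [[⟨3, 0, 0, 2845415833⟩]]

noncomputable def f_mm_102_t : ℕ → ℕ → ℕ → ℕ → Bool := onCell 536870912 536870912 0 536870912 587336777 62277027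
    (rowNE 3 eng mog cd0q1 cd0q2 pd0 0 false false false .npp 1 0 2 (qsf 536870912 536870912 0 536870912 0) ndB0q1 ndB0q2 pcB0 cut_mm_102_t Ext.none)

def k0_mm_102_t : ∃ t, chk3 f_mm_102_t t 1 1 1 = true :=
  ⟨(l 6), by decide +kernel⟩

theorem c_mm_102_t : CertNE 536870912 536870912 0 536870912 587336777 62277027 3 eng mog cd0q1 cd0q2 pd0 false false false .npp 1 0 2
    ndB0q1 ndB0q2 pcB0 cut_mm_102_t Ext.none :=
  certNE0 (fam := false) (s1 := false) (s2 := false) (a := 1) (b := 0) (c := 2) (cn := .npp) (n1 := ndB0q1) (n2 := ndB0q2) (pc := pcB0) (cut := cut_mm_102_t) (xt := Ext.none) (P1 := 536870912) (W1 := 536870912) (P2 := 0) (W2 := 536870912) (P3 := 587336777) (W3 := 62277027) (N0 := 3) (En := eng) (mo := mog) (C1 := cd0q1) (C2 := cd0q2) (C3 := pd0)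
    rfl k0_mm_102_t

noncomputable def cut_mm_112_s : Cut := Cut.of [[⟨4, 0, 0, 1449551462⟩]]

noncomputable def f_mm_112_s : ℕ → ℕ → ℕ → ℕ → Bool := onCell 536870912 536870912 0 536870912 587336777 62277027
    (rowNE 3 eng mog cd0q1 cd0q2 pd1 2 false false false .dn 1 1 2 (qsf 536870912 536870912 0 536870912 1) ndB0q1 ndB0q2 pcB1 cut_mm_112_s Ext.none)

def k0_mm_112_s : ∃ t, chk3 f_mm_112_s t 1 1 1 = true :=
  ⟨(l 5), by decide +kernel⟩

theorem c_mm_112_s : CertNE 536870912 536870912 0 536870912 587336777 62277027 3 eng mog cd0q1 cd0q2 pd1 false false false .dn 1 1 2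
    ndB0q1 ndB0q2 pcB1 cut_mm_112_s Ext.none :=
  certNE2 (fam := false) (s1 := false) (s2 := false) (a := 1) (b := 1) (c := 2) (cn := .dn) (n1 := ndB0q1) (n2 := ndB0q2) (pc := pcB1) (cut := cut_mm_112_s) (xt := Ext.none) (P1 := 536870912) (W1 := 536870912) (P2 := 0) (W2 := 536870912) (P3 := 587336777) (W3 := 62277027) (N0 := 3) (En := eng) (mo := mog) (C1 := cd0q1) (C2 := cd0q2) (C3 := pd1)
    rfl (fun _ => rfl) k0_mm_112_s

noncomputable def cut_mm_112_t : Cut := Cut.of [[⟨3, 0, 0, 2845415833⟩]]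

noncomputable def f_mm_112_t : ℕ → ℕ → ℕ → ℕ → Bool := onCell 536870912 536870912 0 536870912 587336777 62277027
    (rowNE 3 eng mog cd0q1 cd0q2 pd1 0 false false false .dn 1 1 2 (qsf 536870912 536870912 0 536870912 1) ndB0q1 ndB0q2 pcB1 cut_mm_112_t Ext.none)

def k0_mm_112_t : ∃ t, chk3 f_mm_112_t t 1 1 1 = true :=
  ⟨(l 6), by decide +kernel⟩

theorem c_mm_112_t : CertNE 536870912 536870912 0 536870912 587336777 62277027 3 eng mog cd0q1 cd0q2 pd1 false false false .dn 1 1 2
    ndB0q1 ndB0q2 pcB1 cut_mm_112_t Ext.none :=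
  certNE0 (fam := false) (s1 := false) (s2 := false) (a := 1) (b := 1) (c := 2) (cn := .dn) (n1 := ndB0q1) (n2 := ndB0q2) (pc := pcB1) (cut := cut_mm_112_t) (xt := Ext.none) (P1 := 536870912) (W1 := 536870912) (P2 := 0) (W2 := 536870912) (P3 := 587336777) (W3 := 62277027) (N0 := 3) (En := eng) (mo := mog) (C1 := cd0q1) (C2 := cd0q2) (C3 := pd1)
    rfl k0_mm_112_t

noncomputable def cut_mm_202_s : Cut := Cut.of [[⟨4, 0, 0, 1449551462⟩]]

noncomputable def f_mm_202_s : ℕ → ℕ → ℕ → ℕ → Bool := onCell 0 536870912 0 536870912 587336777 62277027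
    (rowNE 3 eng mog cd0q2 cd0q2 pd0 0 false false false .pp 2 0 2 (qsf 0 536870912 0 536870912 0) ndB0q2 ndB0q2 pcB0 cut_mm_202_s Ext.none)

def k0_mm_202_s : ∃ t, chk3 f_mm_202_s t 1 1 1 = true :=
  ⟨(l 3), by decide +kernel⟩

theorem c_mm_202_s : CertNE 0 536870912 0 536870912 587336777 62277027 3 eng mog cd0q2 cd0q2 pd0 false false false .pp 2 0 2
    ndB0q2 ndB0q2 pcB0 cut_mm_202_s Ext.none :=
  certNE0 (fam := false) (s1 := false) (s2 := false) (a := 2) (b := 0) (c := 2) (cn := .pp) (n1 := ndB0q2) (n2 := ndB0q2) (pc := pcB0) (cut := cut_mm_202_s) (xt := Ext.none) (P1 := 0) (W1 := 536870912) (P2 := 0) (W2 := 536870912) (P3 := 587336777) (W3 := 62277027) (N0 := 3) (En := eng) (mo := mog) (C1 := cd0q2) (C2 := cd0q2) (C3 := pd0)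
    rfl k0_mm_202_s

noncomputable def cut_mm_202_t : Cut := Cut.of [[⟨3, 0, 0, 2845415833⟩]]

noncomputable def f_mm_202_t : ℕ → ℕ → ℕ → ℕ → Bool := onCell 0 536870912 0 536870912 587336777 62277027
    (rowNE 3 eng mog cd0q2 cd0q2 pd0 0 false false false .pp 2 0 2 (qsf 0 536870912 0 536870912 0) ndB0q2 ndB0q2 pcB0 cut_mm_202_t Ext.none)

def k0_mm_202_t : ∃ t, chk3 f_mm_202_t t 1 1 1 = true :=
  ⟨(l 3), by decide +kernel⟩

theorem c_mm_202_t : CertNE 0 536870912 0 536870912 587336777 62277027 3 eng mog cd0q2 cd0q2 pd0 false false false .pp 2 0 2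
    ndB0q2 ndB0q2 pcB0 cut_mm_202_t Ext.none :=
  certNE0 (fam := false) (s1 := false) (s2 := false) (a := 2) (b := 0) (c := 2) (cn := .pp) (n1 := ndB0q2) (n2 := ndB0q2) (pc := pcB0) (cut := cut_mm_202_t) (xt := Ext.none) (P1 := 0) (W1 := 536870912) (P2 := 0) (W2 := 536870912) (P3 := 587336777) (W3 := 62277027) (N0 := 3) (En := eng) (mo := mog) (C1 := cd0q2) (C2 := cd0q2) (C3 := pd0)
    rfl k0_mm_202_t

end Pool.Agent.Strip051.G.I5470_6050.Tab.CS.BB00

namespace Pool.Agent.Strip051.G.I5470_6050.Tab.CS.BB07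

open Pool.Agent.Strip051.PB Pool.Agent.Strip051.PB.T
open Pool.Agent.Strip051.G.I5470_6050.Tab

noncomputable def cut_pp_001_s : Cut := Cut.of [[⟨4, 0, 0, 1449551462⟩]]

noncomputable def f_pp_001_s : ℕ → ℕ → ℕ → ℕ → Bool := onCell 0 536870912 0 536870912 587336777 62277027
    (rowNE 3 eng mog cd0q0 cd7q1 pd0 1 false true true .up 0 0 1 (qsf 0 536870912 536870912 536870912 0) ndB0q0 ndB7q1 pcB0 cut_pp_001_s Ext.none)

def k0_pp_001_s : ∃ t, chk3 f_pp_001_s t 1 1 1 = true :=
  ⟨(l 3), by decide +kernel⟩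

theorem c_pp_001_s : CertNE 0 536870912 536870912 536870912 587336777 62277027 3 eng mog cd0q0 cd7q1 pd0 false true true .up 0 0 1
    ndB0q0 ndB7q1 pcB0 cut_pp_001_s Ext.none :=
  certNE1 (fam := false) (s1 := true) (s2 := true) (a := 0) (b := 0) (c := 1) (cn := .up) (n1 := ndB0q0) (n2 := ndB7q1) (pc := pcB0) (cut := cut_pp_001_s) (xt := Ext.none) (P1 := 0) (W1 := 536870912) (P2 := 536870912) (W2 := 536870912) (P3 := 587336777) (W3 := 62277027) (N0 := 3) (En := eng) (mo := mog) (C1 := cd0q0) (C2 := cd7q1) (C3 := pd0)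
    rfl (fun _ => rfl) k0_pp_001_s

noncomputable def cut_pp_011_s : Cut := Cut.of [[⟨4, 0, 0, 1449551462⟩], [⟨0, 0, 0, 67108864⟩, ⟨1, 1, 0, 67108864⟩, ⟨2, 1, 0, 67108864⟩]]

noncomputable def f_pp_011_s : ℕ → ℕ → ℕ → ℕ → Bool := onCell 0 536870912 536870912 536870912 587336777 62277027
    (rowNE 3 eng mog cd0q0 cd7q1 pd1 1 false true true .pnn 0 1 1 (qsf 0 536870912 536870912 536870912 1) ndB0q0 ndB7q1 pcB1 cut_pp_011_s Ext.none)

def k0_pp_011_s : ∃ t, chk3 f_pp_011_s t 1 1 1 = true :=
  ⟨(b (l 3) (a (b (l 3) (a (b (l 3) (a (b (l 3) (a (l 14) (l 3))) (l 3))) (l 3))) (l 3))), by decide +kernel⟩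

theorem c_pp_011_s : CertNE 0 536870912 536870912 536870912 587336777 62277027 3 eng mog cd0q0 cd7q1 pd1 false true true .pnn 0 1 1
    ndB0q0 ndB7q1 pcB1 cut_pp_011_s Ext.none :=
  certNE1 (fam := false) (s1 := true) (s2 := true) (a := 0) (b := 1) (c := 1) (cn := .pnn) (n1 := ndB0q0) (n2 := ndB7q1) (pc := pcB1) (cut := cut_pp_011_s) (xt := Ext.none) (P1 := 0) (W1 := 536870912) (P2 := 536870912) (W2 := 536870912) (P3 := 587336777) (W3 := 62277027) (N0 := 3) (En := eng) (mo := mog) (C1 := cd0q0) (C2 := cd7q1) (C3 := pd1)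
    rfl (fun _ => rfl) k0_pp_011_s

noncomputable def cut_pp_012_s : Cut := Cut.of [[⟨4, 0, 0, 1449551462⟩], [⟨0, 0, 0, 67108864⟩, ⟨1, 1, 0, 67108864⟩, ⟨2, 1, 0, 67108864⟩]]

noncomputable def f_pp_012_s : ℕ → ℕ → ℕ → ℕ → Bool := onCell 0 536870912 536870912 536870912 587336777 62277027
    (rowNE 3 eng mog cd0q0 cd7q2 pd1 1 false true true .pnp 0 1 2 (qsf 0 536870912 1073741824 536870912 1) ndB0q0 ndB7q2 pcB1 cut_pp_012_s Ext.none)

def k0_pp_012_s : ∃ t, chk3 f_pp_012_s t 1 1 1 = true :=
  ⟨(b (l 3) (a (b (l 3) (a (a (a (b (l 1) (b (l 3) (l 14))) (l 3)) (l 3)) (l 3))) (l 3))), by decide +kernel⟩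

theorem c_pp_012_s : CertNE 0 536870912 1073741824 536870912 587336777 62277027 3 eng mog cd0q0 cd7q2 pd1 false true true .pnp 0 1 2
    ndB0q0 ndB7q2 pcB1 cut_pp_012_s Ext.none :=
  certNE1 (fam := false) (s1 := true) (s2 := true) (a := 0) (b := 1) (c := 2) (cn := .pnp) (n1 := ndB0q0) (n2 := ndB7q2) (pc := pcB1) (cut := cut_pp_012_s) (xt := Ext.none) (P1 := 0) (W1 := 536870912) (P2 := 1073741824) (W2 := 536870912) (P3 := 587336777) (W3 := 62277027) (N0 := 3) (En := eng) (mo := mog) (C1 := cd0q0) (C2 := cd7q2) (C3 := pd1)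
    rfl (fun _ => rfl) k0_pp_012_s

end Pool.Agent.Strip051.G.I5470_6050.Tab.CS.BB07

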