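import Pool.Agent.Strip051.G.I5470_6050.St23
import Pool.Agent.Strip051.G.I5470_6050.St24
import Pool.Agent.Strip051.G.I5470_6050.St25
import Pool.Agent.Strip051.G.I5470_6050.StD
import Pool.Agent.Strip051.G.I5470_6050.StN3
import Pool.Agent.Strip051.G.I5470_6050.StN4
import Pool.Agent.Strip051.G.I5470_6050.StN5

/-! # Strips as alternatives for both vertices 1 (generated) -/

set_option linter.all false
set_option maxRecDepth 100000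

namespace Pool.Agent.Strip051.G.I5470_6050.Tab.SE

open Pool.Agent.Strip051.PB Pool.Agent.StripNear Pool.Agent.StripSquare Pool.Agent.Strip051.LC
open Pool.Agent.Strip051.G.I5470_6050.Tab Pool.Agent.Strip051.G.I5470_6050.Tab.SH

theorem se_A07pp_012_s {κ x : ℝ} (hκ : κ * h0 = ken x) (hx : ((587336777 : ℕ) : ℝ) / S ≤ x) (hx' : x ≤ (((587336777 : ℕ) : ℝ) + (62277027 : ℕ)) / S)
    (H : CutEA 3 κ (eng.v x) (3 / 40) (tnt (h0 * x) (3 / 10)) PP tK tL tC pcB (scP esg pd) (Cut.of []) 0 1 2 0 7 (sgb true) (sgb true) x) :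
    AltEA 3 κ (eng.v x) (3 / 40) (tnt (h0 * x) (3 / 10)) PP tK tL tC pcB (scP esg pd) [⟨3, 0, 0, 1449551462⟩] 0 1 2 0 7 (sgb true) (sgb true) x :=
  strip_altEA (m := 1449551462) (L := []) true rfl hκ (κ0 hκ (hx1 hx).le (hx2 hx').le) (hx1 hx).le (hx2 hx') (en_pos (hx1 hx).le)
    (esg_rng (hx1 hx).le (hx2 hx').le).1 (mo_v x) (tnt_den (by norm_num) (by norm_num) (hx1 hx) (hx2 hx')).cont
    (fun u v => (tnt_osc' (th := 3 / 10) (by norm_num) (by norm_num) (hx1 hx) (hx2 hx') u v).trans (le_of_eq (by ring)))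
    covB00 covB71 hx hx' Pool.Agent.Strip051.G.I5470_6050.Tab.CS.BA07.c_pp_012_s noExt_EA
    (Pool.Agent.Strip051.G.I5470_6050.Tab.St.C.s_A07pp_012_s1 hκ hx hx') H

theorem se_A07pp_022_s {κ x : ℝ} (hκ : κ * h0 = ken x) (hx : ((587336777 : ℕ) : ℝ) / S ≤ x) (hx' : x ≤ (((587336777 : ℕ) : ℝ) + (62277027 : ℕ)) / S)
    (H : CutEA 3 κ (eng.v x) (3 / 40) (tnt (h0 * x) (3 / 10)) PP tK tL tC pcB (scP esg pd) (Cut.of []) 0 2 2 0 7 (sgb true) (sgb true) x) :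
    AltEA 3 κ (eng.v x) (3 / 40) (tnt (h0 * x) (3 / 10)) PP tK tL tC pcB (scP esg pd) [⟨3, 0, 0, 1449551462⟩] 0 2 2 0 7 (sgb true) (sgb true) x :=
  strip_altEA (m := 1449551462) (L := []) true rfl hκ (κ0 hκ (hx1 hx).le (hx2 hx').le) (hx1 hx).le (hx2 hx') (en_pos (hx1 hx).le)
    (esg_rng (hx1 hx).le (hx2 hx').le).1 (mo_v x) (tnt_den (by norm_num) (by norm_num) (hx1 hx) (hx2 hx')).cont
    (fun u v => (tnt_osc' (th := 3 / 10) (by norm_num) (by norm_num) (hx1 hx) (hx2 hx') u v).trans (le_of_eq (by ring)))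
    covB00 covB72 hx hx' Pool.Agent.Strip051.G.I5470_6050.Tab.CS.BA07.c_pp_022_s noExt_EA
    (Pool.Agent.Strip051.G.I5470_6050.Tab.St.C.s_A07pp_022_s1 hκ hx hx') H

theorem se_A07pp_023_s {κ x : ℝ} (hκ : κ * h0 = ken x) (hx : ((587336777 : ℕ) : ℝ) / S ≤ x) (hx' : x ≤ (((587336777 : ℕ) : ℝ) + (62277027 : ℕ)) / S)
    (H : CutEA 3 κ (eng.v x) (3 / 40) (tnt (h0 * x) (3 / 10)) PP tK tL tC pcB (scP esg pd) (Cut.of []) 0 2 3 0 7 (sgb true) (sgb true) x) :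
    AltEA 3 κ (eng.v x) (3 / 40) (tnt (h0 * x) (3 / 10)) PP tK tL tC pcB (scP esg pd) [⟨3, 0, 0, 1449551462⟩] 0 2 3 0 7 (sgb true) (sgb true) x :=
  strip_altEA (m := 1449551462) (L := []) true rfl hκ (κ0 hκ (hx1 hx).le (hx2 hx').le) (hx1 hx).le (hx2 hx') (en_pos (hx1 hx).le)
    (esg_rng (hx1 hx).le (hx2 hx').le).1 (mo_v x) (tnt_den (by norm_num) (by norm_num) (hx1 hx) (hx2 hx')).cont
    (fun u v => (tnt_osc' (th := 3 / 10) (by norm_num) (by norm_num) (hx1 hx) (hx2 hx') u v).trans (le_of_eq (by ring)))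
    covB00 covB72 hx hx' Pool.Agent.Strip051.G.I5470_6050.Tab.CS.BA07.c_pp_023_s noExt_EA
    (Pool.Agent.Strip051.G.I5470_6050.Tab.St.C.s_A07pp_023_s1 hκ hx hx') H

theorem se_A07pp_033_s {κ x : ℝ} (hκ : κ * h0 = ken x) (hx : ((587336777 : ℕ) : ℝ) / S ≤ x) (hx' : x ≤ (((587336777 : ℕ) : ℝ) + (62277027 : ℕ)) / S)
    (H : CutEA 3 κ (eng.v x) (3 / 40) (tnt (h0 * x) (3 / 10)) PP tK tL tC pcB (scP esg pd) (Cut.of []) 0 3 3 0 7 (sgb true) (sgb true) x) :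
    AltEA 3 κ (eng.v x) (3 / 40) (tnt (h0 * x) (3 / 10)) PP tK tL tC pcB (scP esg pd) [⟨3, 0, 0, 1449551462⟩] 0 3 3 0 7 (sgb true) (sgb true) x :=
  strip_altEA (m := 1449551462) (L := []) true rfl hκ (κ0 hκ (hx1 hx).le (hx2 hx').le) (hx1 hx).le (hx2 hx') (en_pos (hx1 hx).le)
    (esg_rng (hx1 hx).le (hx2 hx').le).1 (mo_v x) (tnt_den (by norm_num) (by norm_num) (hx1 hx) (hx2 hx')).cont
    (fun u v => (tnt_osc' (th := 3 / 10) (by norm_num) (by norm_num) (hx1 hx) (hx2 hx') u v).trans (le_of_eq (by ring)))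
    covB00 covB73 hx hx' Pool.Agent.Strip051.G.I5470_6050.Tab.CS.BA07.c_pp_033_s noExt_EA
    (Pool.Agent.Strip051.G.I5470_6050.Tab.St.C.s_A07pp_033_s1 hκ hx hx') H

theorem se_A07pp_101_s {κ x : ℝ} (hκ : κ * h0 = ken x) (hx : ((587336777 : ℕ) : ℝ) / S ≤ x) (hx' : x ≤ (((587336777 : ℕ) : ℝ) + (62277027 : ℕ)) / S)
    (H : CutEA 3 κ (eng.v x) (3 / 40) (tnt (h0 * x) (3 / 10)) PP tK tL tC pcB (scP esg pd) (Cut.of []) 1 0 1 0 7 (sgb true) (sgb true) x) :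
    AltEA 3 κ (eng.v x) (3 / 40) (tnt (h0 * x) (3 / 10)) PP tK tL tC pcB (scP esg pd) [⟨3, 0, 0, 1449551462⟩] 1 0 1 0 7 (sgb true) (sgb true) x :=
  strip_altEA (m := 1449551462) (L := []) true rfl hκ (κ0 hκ (hx1 hx).le (hx2 hx').le) (hx1 hx).le (hx2 hx') (en_pos (hx1 hx).le)
    (esg_rng (hx1 hx).le (hx2 hx').le).1 (mo_v x) (tnt_den (by norm_num) (by norm_num) (hx1 hx) (hx2 hx')).cont
    (fun u v => (tnt_osc' (th := 3 / 10) (by norm_num) (by norm_num) (hx1 hx) (hx2 hx') u v).trans (le_of_eq (by ring)))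
    covB01 covB70 hx hx' Pool.Agent.Strip051.G.I5470_6050.Tab.CS.BA07.c_pp_101_s noExt_EA
    (Pool.Agent.Strip051.G.I5470_6050.Tab.St.C.s_A07pp_101_s1 hκ hx hx') H

theorem se_A07pp_102_s {κ x : ℝ} (hκ : κ * h0 = ken x) (hx : ((587336777 : ℕ) : ℝ) / S ≤ x) (hx' : x ≤ (((587336777 : ℕ) : ℝ) + (62277027 : ℕ)) / S)
    (H : CutEA 3 κ (eng.v x) (3 / 40) (tnt (h0 * x) (3 / 10)) PP tK tL tC pcB (scP esg pd) (Cut.of []) 1 0 2 0 7 (sgb true) (sgb true) x) :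
    AltEA 3 κ (eng.v x) (3 / 40) (tnt (h0 * x) (3 / 10)) PP tK tL tC pcB (scP esg pd) [⟨3, 0, 0, 1449551462⟩] 1 0 2 0 7 (sgb true) (sgb true) x :=
  strip_altEA (m := 1449551462) (L := []) true rfl hκ (κ0 hκ (hx1 hx).le (hx2 hx').le) (hx1 hx).le (hx2 hx') (en_pos (hx1 hx).le)
    (esg_rng (hx1 hx).le (hx2 hx').le).1 (mo_v x) (tnt_den (by norm_num) (by norm_num) (hx1 hx) (hx2 hx')).cont
    (fun u v => (tnt_osc' (th := 3 / 10) (by norm_num) (by norm_num) (hx1 hx) (hx2 hx') u v).trans (le_of_eq (by ring)))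
    covB01 covB70 hx hx' Pool.Agent.Strip051.G.I5470_6050.Tab.CS.BA07.c_pp_102_s noExt_EA
    (Pool.Agent.Strip051.G.I5470_6050.Tab.St.C.s_A07pp_102_s1 hκ hx hx') H

theorem se_A07pp_112_s {κ x : ℝ} (hκ : κ * h0 = ken x) (hx : ((587336777 : ℕ) : ℝ) / S ≤ x) (hx' : x ≤ (((587336777 : ℕ) : ℝ) + (62277027 : ℕ)) / S)
    (H : CutEA 3 κ (eng.v x) (3 / 40) (tnt (h0 * x) (3 / 10)) PP tK tL tC pcB (scP esg pd) (Cut.of []) 1 1 2 0 7 (sgb true) (sgb true) x) :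
    AltEA 3 κ (eng.v x) (3 / 40) (tnt (h0 * x) (3 / 10)) PP tK tL tC pcB (scP esg pd) [⟨3, 0, 0, 1449551462⟩] 1 1 2 0 7 (sgb true) (sgb true) x :=
  strip_altEA (m := 1449551462) (L := []) true rfl hκ (κ0 hκ (hx1 hx).le (hx2 hx').le) (hx1 hx).le (hx2 hx') (en_pos (hx1 hx).le)
    (esg_rng (hx1 hx).le (hx2 hx').le).1 (mo_v x) (tnt_den (by norm_num) (by norm_num) (hx1 hx) (hx2 hx')).cont
    (fun u v => (tnt_osc' (th := 3 / 10) (by norm_num) (by norm_num) (hx1 hx) (hx2 hx') u v).trans (le_of_eq (by ring)))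
    covB01 covB71 hx hx' Pool.Agent.Strip051.G.I5470_6050.Tab.CS.BA07.c_pp_112_s noExt_EA
    (Pool.Agent.Strip051.G.I5470_6050.Tab.St.C.s_A07pp_112_s1 hκ hx hx') H

theorem se_A07pp_113_s {κ x : ℝ} (hκ : κ * h0 = ken x) (hx : ((587336777 : ℕ) : ℝ) / S ≤ x) (hx' : x ≤ (((587336777 : ℕ) : ℝ) + (62277027 : ℕ)) / S)
    (H : CutEA 3 κ (eng.v x) (3 / 40) (tnt (h0 * x) (3 / 10)) PP tK tL tC pcB (scP esg pd) (Cut.of []) 1 1 3 0 7 (sgb true) (sgb true) x) :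
    AltEA 3 κ (eng.v x) (3 / 40) (tnt (h0 * x) (3 / 10)) PP tK tL tC pcB (scP esg pd) [⟨3, 0, 0, 1449551462⟩] 1 1 3 0 7 (sgb true) (sgb true) x :=
  strip_altEA (m := 1449551462) (L := []) true rfl hκ (κ0 hκ (hx1 hx).le (hx2 hx').le) (hx1 hx).le (hx2 hx') (en_pos (hx1 hx).le)
    (esg_rng (hx1 hx).le (hx2 hx').le).1 (mo_v x) (tnt_den (by norm_num) (by norm_num) (hx1 hx) (hx2 hx')).cont
    (fun u v => (tnt_osc' (th := 3 / 10) (by norm_num) (by norm_num) (hx1 hx) (hx2 hx') u v).trans (le_of_eq (by ring)))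
    covB01 covB71 hx hx' Pool.Agent.Strip051.G.I5470_6050.Tab.CS.BA07.c_pp_113_s noExt_EA
    (Pool.Agent.Strip051.G.I5470_6050.Tab.St.C.s_A07pp_113_s1 hκ hx hx') H

theorem se_A07pp_123_s {κ x : ℝ} (hκ : κ * h0 = ken x) (hx : ((587336777 : ℕ) : ℝ) / S ≤ x) (hx' : x ≤ (((587336777 : ℕ) : ℝ) + (62277027 : ℕ)) / S)
    (H : CutEA 3 κ (eng.v x) (3 / 40) (tnt (h0 * x) (3 / 10)) PP tK tL tC pcB (scP esg pd) (Cut.of []) 1 2 3 0 7 (sgb true) (sgb true) x) :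
    AltEA 3 κ (eng.v x) (3 / 40) (tnt (h0 * x) (3 / 10)) PP tK tL tC pcB (scP esg pd) [⟨3, 0, 0, 1449551462⟩] 1 2 3 0 7 (sgb true) (sgb true) x :=
  strip_altEA (m := 1449551462) (L := []) true rfl hκ (κ0 hκ (hx1 hx).le (hx2 hx').le) (hx1 hx).le (hx2 hx') (en_pos (hx1 hx).le)
    (esg_rng (hx1 hx).le (hx2 hx').le).1 (mo_v x) (tnt_den (by norm_num) (by norm_num) (hx1 hx) (hx2 hx')).cont
    (fun u v => (tnt_osc' (th := 3 / 10) (by norm_num) (by norm_num) (hx1 hx) (hx2 hx') u v).trans (le_of_eq (by ring)))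
    covB01 covB72 hx hx' Pool.Agent.Strip051.G.I5470_6050.Tab.CS.BA07.c_pp_123_s noExt_EA
    (Pool.Agent.Strip051.G.I5470_6050.Tab.St.C.s_A07pp_123_s1 hκ hx hx') H

theorem se_A07pp_133_s {κ x : ℝ} (hκ : κ * h0 = ken x) (hx : ((587336777 : ℕ) : ℝ) / S ≤ x) (hx' : x ≤ (((587336777 : ℕ) : ℝ) + (62277027 : ℕ)) / S)
    (H : CutEA 3 κ (eng.v x) (3 / 40) (tnt (h0 * x) (3 / 10)) PP tK tL tC pcB (scP esg pd) (Cut.of []) 1 3 3 0 7 (sgb true) (sgb true) x) :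
    AltEA 3 κ (eng.v x) (3 / 40) (tnt (h0 * x) (3 / 10)) PP tK tL tC pcB (scP esg pd) [⟨3, 0, 0, 1449551462⟩] 1 3 3 0 7 (sgb true) (sgb true) x :=
  strip_altEA (m := 1449551462) (L := []) true rfl hκ (κ0 hκ (hx1 hx).le (hx2 hx').le) (hx1 hx).le (hx2 hx') (en_pos (hx1 hx).le)
    (esg_rng (hx1 hx).le (hx2 hx').le).1 (mo_v x) (tnt_den (by norm_num) (by norm_num) (hx1 hx) (hx2 hx')).cont
    (fun u v => (tnt_osc' (th := 3 / 10) (by norm_num) (by norm_num) (hx1 hx) (hx2 hx') u v).trans (le_of_eq (by ring)))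
    covB01 covB73 hx hx' Pool.Agent.Strip051.G.I5470_6050.Tab.CS.BA07.c_pp_133_s noExt_EA
    (Pool.Agent.Strip051.G.I5470_6050.Tab.St.C.s_A07pp_133_s1 hκ hx hx') H

theorem se_A07pp_202_s {κ x : ℝ} (hκ : κ * h0 = ken x) (hx : ((587336777 : ℕ) : ℝ) / S ≤ x) (hx' : x ≤ (((587336777 : ℕ) : ℝ) + (62277027 : ℕ)) / S)
    (H : CutEA 3 κ (eng.v x) (3 / 40) (tnt (h0 * x) (3 / 10)) PP tK tL tC pcB (scP esg pd) (Cut.of []) 2 0 2 0 7 (sgb true) (sgb true) x) :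
    AltEA 3 κ (eng.v x) (3 / 40) (tnt (h0 * x) (3 / 10)) PP tK tL tC pcB (scP esg pd) [⟨3, 0, 0, 1449551462⟩] 2 0 2 0 7 (sgb true) (sgb true) x :=
  strip_altEA (m := 1449551462) (L := []) true rfl hκ (κ0 hκ (hx1 hx).le (hx2 hx').le) (hx1 hx).le (hx2 hx') (en_pos (hx1 hx).le)
    (esg_rng (hx1 hx).le (hx2 hx').le).1 (mo_v x) (tnt_den (by norm_num) (by norm_num) (hx1 hx) (hx2 hx')).cont
    (fun u v => (tnt_osc' (th := 3 / 10) (by norm_num) (by norm_num) (hx1 hx) (hx2 hx') u v).trans (le_of_eq (by ring)))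
    covB02 covB70 hx hx' Pool.Agent.Strip051.G.I5470_6050.Tab.CS.BA07.c_pp_202_s noExt_EA
    (Pool.Agent.Strip051.G.I5470_6050.Tab.St.C.s_A07pp_202_s1 hκ hx hx') H

theorem se_A07pp_203_s {κ x : ℝ} (hκ : κ * h0 = ken x) (hx : ((587336777 : ℕ) : ℝ) / S ≤ x) (hx' : x ≤ (((587336777 : ℕ) : ℝ) + (62277027 : ℕ)) / S)
    (H : CutEA 3 κ (eng.v x) (3 / 40) (tnt (h0 * x) (3 / 10)) PP tK tL tC pcB (scP esg pd) (Cut.of []) 2 0 3 0 7 (sgb true) (sgb true) x) :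
    AltEA 3 κ (eng.v x) (3 / 40) (tnt (h0 * x) (3 / 10)) PP tK tL tC pcB (scP esg pd) [⟨3, 0, 0, 1449551462⟩] 2 0 3 0 7 (sgb true) (sgb true) x :=
  strip_altEA (m := 1449551462) (L := []) true rfl hκ (κ0 hκ (hx1 hx).le (hx2 hx').le) (hx1 hx).le (hx2 hx') (en_pos (hx1 hx).le)
    (esg_rng (hx1 hx).le (hx2 hx').le).1 (mo_v x) (tnt_den (by norm_num) (by norm_num) (hx1 hx) (hx2 hx')).cont
    (fun u v => (tnt_osc' (th := 3 / 10) (by norm_num) (by norm_num) (hx1 hx) (hx2 hx') u v).trans (le_of_eq (by ring)))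
    covB02 covB70 hx hx' Pool.Agent.Strip051.G.I5470_6050.Tab.CS.BA07.c_pp_203_s noExt_EA
    (Pool.Agent.Strip051.G.I5470_6050.Tab.St.C.s_A07pp_203_s1 hκ hx hx') H

theorem se_A07pp_213_s {κ x : ℝ} (hκ : κ * h0 = ken x) (hx : ((587336777 : ℕ) : ℝ) / S ≤ x) (hx' : x ≤ (((587336777 : ℕ) : ℝ) + (62277027 : ℕ)) / S)
    (H : CutEA 3 κ (eng.v x) (3 / 40) (tnt (h0 * x) (3 / 10)) PP tK tL tC pcB (scP esg pd) (Cut.of []) 2 1 3 0 7 (sgb true) (sgb true) x) :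
    AltEA 3 κ (eng.v x) (3 / 40) (tnt (h0 * x) (3 / 10)) PP tK tL tC pcB (scP esg pd) [⟨3, 0, 0, 1449551462⟩] 2 1 3 0 7 (sgb true) (sgb true) x :=
  strip_altEA (m := 1449551462) (L := []) true rfl hκ (κ0 hκ (hx1 hx).le (hx2 hx').le) (hx1 hx).le (hx2 hx') (en_pos (hx1 hx).le)
    (esg_rng (hx1 hx).le (hx2 hx').le).1 (mo_v x) (tnt_den (by norm_num) (by norm_num) (hx1 hx) (hx2 hx')).cont
    (fun u v => (tnt_osc' (th := 3 / 10) (by norm_num) (by norm_num) (hx1 hx) (hx2 hx') u v).trans (le_of_eq (by ring)))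
    covB02 covB71 hx hx' Pool.Agent.Strip051.G.I5470_6050.Tab.CS.BA07.c_pp_213_s noExt_EA
    (Pool.Agent.Strip051.G.I5470_6050.Tab.St.C.s_A07pp_213_s1 hκ hx hx') H

theorem se_A07pm_001_s {κ x : ℝ} (hκ : κ * h0 = ken x) (hx : ((587336777 : ℕ) : ℝ) / S ≤ x) (hx' : x ≤ (((587336777 : ℕ) : ℝ) + (62277027 : ℕ)) / S)
    (H : CutEA 3 κ (eng.v x) (3 / 40) (tnt (h0 * x) (3 / 10)) PP tK tL tC pcB (scP esg pd) (Cut.of []) 0 0 1 0 7 (sgb true) (sgb false) x) :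
    AltEA 3 κ (eng.v x) (3 / 40) (tnt (h0 * x) (3 / 10)) PP tK tL tC pcB (scP esg pd) [⟨3, 0, 0, 1449551462⟩] 0 0 1 0 7 (sgb true) (sgb false) x :=
  strip_altEA (m := 1449551462) (L := []) true rfl hκ (κ0 hκ (hx1 hx).le (hx2 hx').le) (hx1 hx).le (hx2 hx') (en_pos (hx1 hx).le)
    (esg_rng (hx1 hx).le (hx2 hx').le).1 (mo_v x) (tnt_den (by norm_num) (by norm_num) (hx1 hx) (hx2 hx')).cont
    (fun u v => (tnt_osc' (th := 3 / 10) (by norm_num) (by norm_num) (hx1 hx) (hx2 hx') u v).trans (le_of_eq (by ring)))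
    covB00 covB70 hx hx' Pool.Agent.Strip051.G.I5470_6050.Tab.CS.BA07.c_pm_001_s noExt_EA
    (Pool.Agent.Strip051.G.I5470_6050.Tab.St.C.s_A07pm_001_s1 hκ hx hx') H

theorem se_A07pm_011_s {κ x : ℝ} (hκ : κ * h0 = ken x) (hx : ((587336777 : ℕ) : ℝ) / S ≤ x) (hx' : x ≤ (((587336777 : ℕ) : ℝ) + (62277027 : ℕ)) / S)
    (H : CutEA 3 κ (eng.v x) (3 / 40) (tnt (h0 * x) (3 / 10)) PP tK tL tC pcB (scP esg pd) (Cut.of [[⟨0, 0, 0, 67108864⟩, ⟨1, 1, 0, 67108864⟩, ⟨2, 1, 0, 67108864⟩]]) 0 1 1 0 7 (sgb true) (sgb false) x) :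
    AltEA 3 κ (eng.v x) (3 / 40) (tnt (h0 * x) (3 / 10)) PP tK tL tC pcB (scP esg pd) [⟨3, 0, 0, 1449551462⟩] 0 1 1 0 7 (sgb true) (sgb false) x :=
  strip_altEA (m := 1449551462) (L := [[⟨0, 0, 0, 67108864⟩, ⟨1, 1, 0, 67108864⟩, ⟨2, 1, 0, 67108864⟩]]) true rfl hκ (κ0 hκ (hx1 hx).le (hx2 hx').le) (hx1 hx).le (hx2 hx') (en_pos (hx1 hx).le)
    (esg_rng (hx1 hx).le (hx2 hx').le).1 (mo_v x) (tnt_den (by norm_num) (by norm_num) (hx1 hx) (hx2 hx')).cont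
    (fun u v => (tnt_osc' (th := 3 / 10) (by norm_num) (by norm_num) (hx1 hx) (hx2 hx') u v).trans (le_of_eq (by ring)))
    covB00 covB71 hx hx' Pool.Agent.Strip051.G.I5470_6050.Tab.CS.BA07.c_pm_011_s noExt_EA
    (Pool.Agent.Strip051.G.I5470_6050.Tab.St.C.s_A07pm_011_s1 hκ hx hx' (H.dir (κ0 hκ (hx1 hx).le (hx2 hx').le) (hx1 hx).le (hx2 hx'))) H

theorem se_A07pm_012_s {κ x : ℝ} (hκ : κ * h0 = ken x) (hx : ((587336777 : ℕ) : ℝ) / S ≤ x) (hx' : x ≤ (((587336777 : ℕ) : ℝ) + (62277027 : ℕ)) / S)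
    (H : CutEA 3 κ (eng.v x) (3 / 40) (tnt (h0 * x) (3 / 10)) PP tK tL tC pcB (scP esg pd) (Cut.of [[⟨0, 0, 0, 67108864⟩, ⟨1, 1, 0, 67108864⟩, ⟨2, 1, 0, 67108864⟩]]) 0 1 2 0 7 (sgb true) (sgb false) x) :
    AltEA 3 κ (eng.v x) (3 / 40) (tnt (h0 * x) (3 / 10)) PP tK tL tC pcB (scP esg pd) [⟨3, 0, 0, 1449551462⟩] 0 1 2 0 7 (sgb true) (sgb false) x :=
  strip_altEA (m := 1449551462) (L := [[⟨0, 0, 0, 67108864⟩, ⟨1, 1, 0, 67108864⟩, ⟨2, 1, 0, 67108864⟩]]) true rfl hκ (κ0 hκ (hx1 hx).le (hx2 hx').le) (hx1 hx).le (hx2 hx') (en_pos (hx1 hx).le)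
    (esg_rng (hx1 hx).le (hx2 hx').le).1 (mo_v x) (tnt_den (by norm_num) (by norm_num) (hx1 hx) (hx2 hx')).cont
    (fun u v => (tnt_osc' (th := 3 / 10) (by norm_num) (by norm_num) (hx1 hx) (hx2 hx') u v).trans (le_of_eq (by ring)))
    covB00 covB71 hx hx' Pool.Agent.Strip051.G.I5470_6050.Tab.CS.BA07.c_pm_012_s noExt_EA
    (Pool.Agent.Strip051.G.I5470_6050.Tab.St.C.s_A07pm_012_s1 hκ hx hx' (H.dir (κ0 hκ (hx1 hx).le (hx2 hx').le) (hx1 hx).le (hx2 hx'))) H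

theorem se_A07pm_022_s {κ x : ℝ} (hκ : κ * h0 = ken x) (hx : ((587336777 : ℕ) : ℝ) / S ≤ x) (hx' : x ≤ (((587336777 : ℕ) : ℝ) + (62277027 : ℕ)) / S)
    (H : CutEA 3 κ (eng.v x) (3 / 40) (tnt (h0 * x) (3 / 10)) PP tK tL tC pcB (scP esg pd) (Cut.of [[⟨0, 0, 0, 67108864⟩, ⟨1, 1, 0, 67108864⟩, ⟨2, 1, 0, 67108864⟩]]) 0 2 2 0 7 (sgb true) (sgb false) x) :
    AltEA 3 κ (eng.v x) (3 / 40) (tnt (h0 * x) (3 / 10)) PP tK tL tC pcB (scP esg pd) [⟨3, 0, 0, 1449551462⟩] 0 2 2 0 7 (sgb true) (sgb false) x :=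
  strip_altEA (m := 1449551462) (L := [[⟨0, 0, 0, 67108864⟩, ⟨1, 1, 0, 67108864⟩, ⟨2, 1, 0, 67108864⟩]]) true rfl hκ (κ0 hκ (hx1 hx).le (hx2 hx').le) (hx1 hx).le (hx2 hx') (en_pos (hx1 hx).le)
    (esg_rng (hx1 hx).le (hx2 hx').le).1 (mo_v x) (tnt_den (by norm_num) (by norm_num) (hx1 hx) (hx2 hx')).cont
    (fun u v => (tnt_osc' (th := 3 / 10) (by norm_num) (by norm_num) (hx1 hx) (hx2 hx') u v).trans (le_of_eq (by ring)))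
    covB00 covB72 hx hx' Pool.Agent.Strip051.G.I5470_6050.Tab.CS.BA07.c_pm_022_s noExt_EA
    (Pool.Agent.Strip051.G.I5470_6050.Tab.St.C.s_A07pm_022_s1 hκ hx hx' (H.dir (κ0 hκ (hx1 hx).le (hx2 hx').le) (hx1 hx).le (hx2 hx'))) H

theorem se_A07pm_023_s {κ x : ℝ} (hκ : κ * h0 = ken x) (hx : ((587336777 : ℕ) : ℝ) / S ≤ x) (hx' : x ≤ (((587336777 : ℕ) : ℝ) + (62277027 : ℕ)) / S)
    (H : CutEA 3 κ (eng.v x) (3 / 40) (tnt (h0 * x) (3 / 10)) PP tK tL tC pcB (scP esg pd) (Cut.of []) 0 2 3 0 7 (sgb true) (sgb false) x) :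
    AltEA 3 κ (eng.v x) (3 / 40) (tnt (h0 * x) (3 / 10)) PP tK tL tC pcB (scP esg pd) [⟨3, 0, 0, 1449551462⟩] 0 2 3 0 7 (sgb true) (sgb false) x :=
  strip_altEA (m := 1449551462) (L := []) true rfl hκ (κ0 hκ (hx1 hx).le (hx2 hx').le) (hx1 hx).le (hx2 hx') (en_pos (hx1 hx).le)
    (esg_rng (hx1 hx).le (hx2 hx').le).1 (mo_v x) (tnt_den (by norm_num) (by norm_num) (hx1 hx) (hx2 hx')).cont
    (fun u v => (tnt_osc' (th := 3 / 10) (by norm_num) (by norm_num) (hx1 hx) (hx2 hx') u v).trans (le_of_eq (by ring)))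
    covB00 covB72 hx hx' Pool.Agent.Strip051.G.I5470_6050.Tab.CS.BA07.c_pm_023_s noExt_EA
    (Pool.Agent.Strip051.G.I5470_6050.Tab.St.C.s_A07pm_023_s1 hκ hx hx') H

theorem se_A07pm_033_s {κ x : ℝ} (hκ : κ * h0 = ken x) (hx : ((587336777 : ℕ) : ℝ) / S ≤ x) (hx' : x ≤ (((587336777 : ℕ) : ℝ) + (62277027 : ℕ)) / S)
    (H : CutEA 3 κ (eng.v x) (3 / 40) (tnt (h0 * x) (3 / 10)) PP tK tL tC pcB (scP esg pd) (Cut.of []) 0 3 3 0 7 (sgb true) (sgb false) x) :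
    AltEA 3 κ (eng.v x) (3 / 40) (tnt (h0 * x) (3 / 10)) PP tK tL tC pcB (scP esg pd) [⟨3, 0, 0, 1449551462⟩] 0 3 3 0 7 (sgb true) (sgb false) x :=
  strip_altEA (m := 1449551462) (L := []) true rfl hκ (κ0 hκ (hx1 hx).le (hx2 hx').le) (hx1 hx).le (hx2 hx') (en_pos (hx1 hx).le)
    (esg_rng (hx1 hx).le (hx2 hx').le).1 (mo_v x) (tnt_den (by norm_num) (by norm_num) (hx1 hx) (hx2 hx')).cont
    (fun u v => (tnt_osc' (th := 3 / 10) (by norm_num) (by norm_num) (hx1 hx) (hx2 hx') u v).trans (le_of_eq (by ring)))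
    covB00 covB73 hx hx' Pool.Agent.Strip051.G.I5470_6050.Tab.CS.BA07.c_pm_033_s noExt_EA
    (Pool.Agent.Strip051.G.I5470_6050.Tab.St.C.s_A07pm_033_s1 hκ hx hx') H

theorem se_A07pm_101_s {κ x : ℝ} (hκ : κ * h0 = ken x) (hx : ((587336777 : ℕ) : ℝ) / S ≤ x) (hx' : x ≤ (((587336777 : ℕ) : ℝ) + (62277027 : ℕ)) / S)
    (H : CutEA 3 κ (eng.v x) (3 / 40) (tnt (h0 * x) (3 / 10)) PP tK tL tC pcB (scP esg pd) (Cut.of []) 1 0 1 0 7 (sgb true) (sgb false) x) :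
    AltEA 3 κ (eng.v x) (3 / 40) (tnt (h0 * x) (3 / 10)) PP tK tL tC pcB (scP esg pd) [⟨3, 0, 0, 1449551462⟩] 1 0 1 0 7 (sgb true) (sgb false) x :=
  strip_altEA (m := 1449551462) (L := []) true rfl hκ (κ0 hκ (hx1 hx).le (hx2 hx').le) (hx1 hx).le (hx2 hx') (en_pos (hx1 hx).le)
    (esg_rng (hx1 hx).le (hx2 hx').le).1 (mo_v x) (tnt_den (by norm_num) (by norm_num) (hx1 hx) (hx2 hx')).cont
    (fun u v => (tnt_osc' (th := 3 / 10) (by norm_num) (by norm_num) (hx1 hx) (hx2 hx') u v).trans (le_of_eq (by ring)))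
    covB01 covB70 hx hx' Pool.Agent.Strip051.G.I5470_6050.Tab.CS.BA07.c_pm_101_s noExt_EA
    (Pool.Agent.Strip051.G.I5470_6050.Tab.St.C.s_A07pm_101_s1 hκ hx hx') H

theorem se_A07pm_102_s {κ x : ℝ} (hκ : κ * h0 = ken x) (hx : ((587336777 : ℕ) : ℝ) / S ≤ x) (hx' : x ≤ (((587336777 : ℕ) : ℝ) + (62277027 : ℕ)) / S)
    (H : CutEA 3 κ (eng.v x) (3 / 40) (tnt (h0 * x) (3 / 10)) PP tK tL tC pcB (scP esg pd) (Cut.of []) 1 0 2 0 7 (sgb true) (sgb false) x) :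
    AltEA 3 κ (eng.v x) (3 / 40) (tnt (h0 * x) (3 / 10)) PP tK tL tC pcB (scP esg pd) [⟨3, 0, 0, 1449551462⟩] 1 0 2 0 7 (sgb true) (sgb false) x :=
  strip_altEA (m := 1449551462) (L := []) true rfl hκ (κ0 hκ (hx1 hx).le (hx2 hx').le) (hx1 hx).le (hx2 hx') (en_pos (hx1 hx).le)
    (esg_rng (hx1 hx).le (hx2 hx').le).1 (mo_v x) (tnt_den (by norm_num) (by norm_num) (hx1 hx) (hx2 hx')).cont
    (fun u v => (tnt_osc' (th := 3 / 10) (by norm_num) (by norm_num) (hx1 hx) (hx2 hx') u v).trans (le_of_eq (by ring)))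
    covB01 covB70 hx hx' Pool.Agent.Strip051.G.I5470_6050.Tab.CS.BA07.c_pm_102_s noExt_EA
    (Pool.Agent.Strip051.G.I5470_6050.Tab.St.C.s_A07pm_102_s1 hκ hx hx') H

theorem se_A07pm_112_s {κ x : ℝ} (hκ : κ * h0 = ken x) (hx : ((587336777 : ℕ) : ℝ) / S ≤ x) (hx' : x ≤ (((587336777 : ℕ) : ℝ) + (62277027 : ℕ)) / S)
    (H : CutEA 3 κ (eng.v x) (3 / 40) (tnt (h0 * x) (3 / 10)) PP tK tL tC pcB (scP esg pd) (Cut.of []) 1 1 2 0 7 (sgb true) (sgb false) x) :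
    AltEA 3 κ (eng.v x) (3 / 40) (tnt (h0 * x) (3 / 10)) PP tK tL tC pcB (scP esg pd) [⟨3, 0, 0, 1449551462⟩] 1 1 2 0 7 (sgb true) (sgb false) x :=
  strip_altEA (m := 1449551462) (L := []) true rfl hκ (κ0 hκ (hx1 hx).le (hx2 hx').le) (hx1 hx).le (hx2 hx') (en_pos (hx1 hx).le)
    (esg_rng (hx1 hx).le (hx2 hx').le).1 (mo_v x) (tnt_den (by norm_num) (by norm_num) (hx1 hx) (hx2 hx')).cont
    (fun u v => (tnt_osc' (th := 3 / 10) (by norm_num) (by norm_num) (hx1 hx) (hx2 hx') u v).trans (le_of_eq (by ring)))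
    covB01 covB71 hx hx' Pool.Agent.Strip051.G.I5470_6050.Tab.CS.BA07.c_pm_112_s noExt_EA
    (Pool.Agent.Strip051.G.I5470_6050.Tab.St.C.s_A07pm_112_s1 hκ hx hx') H

theorem se_A07pm_113_s {κ x : ℝ} (hκ : κ * h0 = ken x) (hx : ((587336777 : ℕ) : ℝ) / S ≤ x) (hx' : x ≤ (((587336777 : ℕ) : ℝ) + (62277027 : ℕ)) / S)
    (H : CutEA 3 κ (eng.v x) (3 / 40) (tnt (h0 * x) (3 / 10)) PP tK tL tC pcB (scP esg pd) (Cut.of []) 1 1 3 0 7 (sgb true) (sgb false) x) :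
    AltEA 3 κ (eng.v x) (3 / 40) (tnt (h0 * x) (3 / 10)) PP tK tL tC pcB (scP esg pd) [⟨3, 0, 0, 1449551462⟩] 1 1 3 0 7 (sgb true) (sgb false) x :=
  strip_altEA (m := 1449551462) (L := []) true rfl hκ (κ0 hκ (hx1 hx).le (hx2 hx').le) (hx1 hx).le (hx2 hx') (en_pos (hx1 hx).le)
    (esg_rng (hx1 hx).le (hx2 hx').le).1 (mo_v x) (tnt_den (by norm_num) (by norm_num) (hx1 hx) (hx2 hx')).cont
    (fun u v => (tnt_osc' (th := 3 / 10) (by norm_num) (by norm_num) (hx1 hx) (hx2 hx') u v).trans (le_of_eq (by ring)))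
    covB01 covB71 hx hx' Pool.Agent.Strip051.G.I5470_6050.Tab.CS.BA07.c_pm_113_s noExt_EA
    (Pool.Agent.Strip051.G.I5470_6050.Tab.St.C.s_A07pm_113_s1 hκ hx hx') H

theorem se_A07pm_123_s {κ x : ℝ} (hκ : κ * h0 = ken x) (hx : ((587336777 : ℕ) : ℝ) / S ≤ x) (hx' : x ≤ (((587336777 : ℕ) : ℝ) + (62277027 : ℕ)) / S)
    (H : CutEA 3 κ (eng.v x) (3 / 40) (tnt (h0 * x) (3 / 10)) PP tK tL tC pcB (scP esg pd) (Cut.of []) 1 2 3 0 7 (sgb true) (sgb false) x) :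
    AltEA 3 κ (eng.v x) (3 / 40) (tnt (h0 * x) (3 / 10)) PP tK tL tC pcB (scP esg pd) [⟨3, 0, 0, 1449551462⟩] 1 2 3 0 7 (sgb true) (sgb false) x :=
  strip_altEA (m := 1449551462) (L := []) true rfl hκ (κ0 hκ (hx1 hx).le (hx2 hx').le) (hx1 hx).le (hx2 hx') (en_pos (hx1 hx).le)
    (esg_rng (hx1 hx).le (hx2 hx').le).1 (mo_v x) (tnt_den (by norm_num) (by norm_num) (hx1 hx) (hx2 hx')).cont
    (fun u v => (tnt_osc' (th := 3 / 10) (by norm_num) (by norm_num) (hx1 hx) (hx2 hx') u v).trans (le_of_eq (by ring)))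
    covB01 covB72 hx hx' Pool.Agent.Strip051.G.I5470_6050.Tab.CS.BA07.c_pm_123_s noExt_EA
    (Pool.Agent.Strip051.G.I5470_6050.Tab.St.C.s_A07pm_123_s1 hκ hx hx') H

theorem se_A07pm_133_s {κ x : ℝ} (hκ : κ * h0 = ken x) (hx : ((587336777 : ℕ) : ℝ) / S ≤ x) (hx' : x ≤ (((587336777 : ℕ) : ℝ) + (62277027 : ℕ)) / S)
    (H : CutEA 3 κ (eng.v x) (3 / 40) (tnt (h0 * x) (3 / 10)) PP tK tL tC pcB (scP esg pd) (Cut.of []) 1 3 3 0 7 (sgb true) (sgb false) x) :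
    AltEA 3 κ (eng.v x) (3 / 40) (tnt (h0 * x) (3 / 10)) PP tK tL tC pcB (scP esg pd) [⟨3, 0, 0, 1449551462⟩] 1 3 3 0 7 (sgb true) (sgb false) x :=
  strip_altEA (m := 1449551462) (L := []) true rfl hκ (κ0 hκ (hx1 hx).le (hx2 hx').le) (hx1 hx).le (hx2 hx') (en_pos (hx1 hx).le)
    (esg_rng (hx1 hx).le (hx2 hx').le).1 (mo_v x) (tnt_den (by norm_num) (by norm_num) (hx1 hx) (hx2 hx')).cont
    (fun u v => (tnt_osc' (th := 3 / 10) (by norm_num) (by norm_num) (hx1 hx) (hx2 hx') u v).trans (le_of_eq (by ring)))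
    covB01 covB73 hx hx' Pool.Agent.Strip051.G.I5470_6050.Tab.CS.BA07.c_pm_133_s noExt_EA
    (Pool.Agent.Strip051.G.I5470_6050.Tab.St.C.s_A07pm_133_s1 hκ hx hx') H

theorem se_A07pm_202_s {κ x : ℝ} (hκ : κ * h0 = ken x) (hx : ((587336777 : ℕ) : ℝ) / S ≤ x) (hx' : x ≤ (((587336777 : ℕ) : ℝ) + (62277027 : ℕ)) / S)
    (H : CutEA 3 κ (eng.v x) (3 / 40) (tnt (h0 * x) (3 / 10)) PP tK tL tC pcB (scP esg pd) (Cut.of []) 2 0 2 0 7 (sgb true) (sgb false) x) :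
    AltEA 3 κ (eng.v x) (3 / 40) (tnt (h0 * x) (3 / 10)) PP tK tL tC pcB (scP esg pd) [⟨3, 0, 0, 1449551462⟩] 2 0 2 0 7 (sgb true) (sgb false) x :=
  strip_altEA (m := 1449551462) (L := []) true rfl hκ (κ0 hκ (hx1 hx).le (hx2 hx').le) (hx1 hx).le (hx2 hx') (en_pos (hx1 hx).le)
    (esg_rng (hx1 hx).le (hx2 hx').le).1 (mo_v x) (tnt_den (by norm_num) (by norm_num) (hx1 hx) (hx2 hx')).cont
    (fun u v => (tnt_osc' (th := 3 / 10) (by norm_num) (by norm_num) (hx1 hx) (hx2 hx') u v).trans (le_of_eq (by ring)))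
    covB02 covB70 hx hx' Pool.Agent.Strip051.G.I5470_6050.Tab.CS.BA07.c_pm_202_s noExt_EA
    (Pool.Agent.Strip051.G.I5470_6050.Tab.St.C.s_A07pm_202_s1 hκ hx hx') H

theorem se_A07pm_203_s {κ x : ℝ} (hκ : κ * h0 = ken x) (hx : ((587336777 : ℕ) : ℝ) / S ≤ x) (hx' : x ≤ (((587336777 : ℕ) : ℝ) + (62277027 : ℕ)) / S)
    (H : CutEA 3 κ (eng.v x) (3 / 40) (tnt (h0 * x) (3 / 10)) PP tK tL tC pcB (scP esg pd) (Cut.of []) 2 0 3 0 7 (sgb true) (sgb false) x) :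
    AltEA 3 κ (eng.v x) (3 / 40) (tnt (h0 * x) (3 / 10)) PP tK tL tC pcB (scP esg pd) [⟨3, 0, 0, 1449551462⟩] 2 0 3 0 7 (sgb true) (sgb false) x :=
  strip_altEA (m := 1449551462) (L := []) true rfl hκ (κ0 hκ (hx1 hx).le (hx2 hx').le) (hx1 hx).le (hx2 hx') (en_pos (hx1 hx).le)
    (esg_rng (hx1 hx).le (hx2 hx').le).1 (mo_v x) (tnt_den (by norm_num) (by norm_num) (hx1 hx) (hx2 hx')).cont
    (fun u v => (tnt_osc' (th := 3 / 10) (by norm_num) (by norm_num) (hx1 hx) (hx2 hx') u v).trans (le_of_eq (by ring)))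
    covB02 covB70 hx hx' Pool.Agent.Strip051.G.I5470_6050.Tab.CS.BA07.c_pm_203_s noExt_EA
    (Pool.Agent.Strip051.G.I5470_6050.Tab.St.C.s_A07pm_203_s1 hκ hx hx') H

theorem se_A07pm_213_s {κ x : ℝ} (hκ : κ * h0 = ken x) (hx : ((587336777 : ℕ) : ℝ) / S ≤ x) (hx' : x ≤ (((587336777 : ℕ) : ℝ) + (62277027 : ℕ)) / S)
    (H : CutEA 3 κ (eng.v x) (3 / 40) (tnt (h0 * x) (3 / 10)) PP tK tL tC pcB (scP esg pd) (Cut.of []) 2 1 3 0 7 (sgb true) (sgb false) x) :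
    AltEA 3 κ (eng.v x) (3 / 40) (tnt (h0 * x) (3 / 10)) PP tK tL tC pcB (scP esg pd) [⟨3, 0, 0, 1449551462⟩] 2 1 3 0 7 (sgb true) (sgb false) x :=
  strip_altEA (m := 1449551462) (L := []) true rfl hκ (κ0 hκ (hx1 hx).le (hx2 hx').le) (hx1 hx).le (hx2 hx') (en_pos (hx1 hx).le)
    (esg_rng (hx1 hx).le (hx2 hx').le).1 (mo_v x) (tnt_den (by norm_num) (by norm_num) (hx1 hx) (hx2 hx')).cont
    (fun u v => (tnt_osc' (th := 3 / 10) (by norm_num) (by norm_num) (hx1 hx) (hx2 hx') u v).trans (le_of_eq (by ring)))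
    covB02 covB71 hx hx' Pool.Agent.Strip051.G.I5470_6050.Tab.CS.BA07.c_pm_213_s noExt_EA
    (Pool.Agent.Strip051.G.I5470_6050.Tab.St.C.s_A07pm_213_s1 hκ hx hx') H

theorem se_A07mm_001_s {κ x : ℝ} (hκ : κ * h0 = ken x) (hx : ((587336777 : ℕ) : ℝ) / S ≤ x) (hx' : x ≤ (((587336777 : ℕ) : ℝ) + (62277027 : ℕ)) / S)
    (H : CutEA 3 κ (eng.v x) (3 / 40) (tnt (h0 * x) (3 / 10)) PP tK tL tC pcB (scP esg pd) (Cut.of []) 0 0 1 0 7 (sgb false) (sgb false) x) :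
    AltEA 3 κ (eng.v x) (3 / 40) (tnt (h0 * x) (3 / 10)) PP tK tL tC pcB (scP esg pd) [⟨3, 0, 0, 1449551462⟩] 0 0 1 0 7 (sgb false) (sgb false) x :=
  strip_altEA (m := 1449551462) (L := []) true rfl hκ (κ0 hκ (hx1 hx).le (hx2 hx').le) (hx1 hx).le (hx2 hx') (en_pos (hx1 hx).le)
    (esg_rng (hx1 hx).le (hx2 hx').le).1 (mo_v x) (tnt_den (by norm_num) (by norm_num) (hx1 hx) (hx2 hx')).cont
    (fun u v => (tnt_osc' (th := 3 / 10) (by norm_num) (by norm_num) (hx1 hx) (hx2 hx') u v).trans (le_of_eq (by ring)))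
    covB00 covB70 hx hx' Pool.Agent.Strip051.G.I5470_6050.Tab.CS.BA07.c_mm_001_s noExt_EA
    (Pool.Agent.Strip051.G.I5470_6050.Tab.St.C.s_A07mm_001_s1 hκ hx hx') H

theorem se_A07mm_011_s {κ x : ℝ} (hκ : κ * h0 = ken x) (hx : ((587336777 : ℕ) : ℝ) / S ≤ x) (hx' : x ≤ (((587336777 : ℕ) : ℝ) + (62277027 : ℕ)) / S)
    (H : CutEA 3 κ (eng.v x) (3 / 40) (tnt (h0 * x) (3 / 10)) PP tK tL tC pcB (scP esg pd) (Cut.of []) 0 1 1 0 7 (sgb false) (sgb false) x) :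
    AltEA 3 κ (eng.v x) (3 / 40) (tnt (h0 * x) (3 / 10)) PP tK tL tC pcB (scP esg pd) [⟨3, 0, 0, 1449551462⟩] 0 1 1 0 7 (sgb false) (sgb false) x :=
  strip_altEA (m := 1449551462) (L := []) true rfl hκ (κ0 hκ (hx1 hx).le (hx2 hx').le) (hx1 hx).le (hx2 hx') (en_pos (hx1 hx).le)
    (esg_rng (hx1 hx).le (hx2 hx').le).1 (mo_v x) (tnt_den (by norm_num) (by norm_num) (hx1 hx) (hx2 hx')).cont
    (fun u v => (tnt_osc' (th := 3 / 10) (by norm_num) (by norm_num) (hx1 hx) (hx2 hx') u v).trans (le_of_eq (by ring)))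
    covB00 covB71 hx hx' Pool.Agent.Strip051.G.I5470_6050.Tab.CS.BA07.c_mm_011_s noExt_EA
    (Pool.Agent.Strip051.G.I5470_6050.Tab.St.C.s_A07mm_011_s1 hκ hx hx') H

theorem se_A07mm_012_s {κ x : ℝ} (hκ : κ * h0 = ken x) (hx : ((587336777 : ℕ) : ℝ) / S ≤ x) (hx' : x ≤ (((587336777 : ℕ) : ℝ) + (62277027 : ℕ)) / S)
    (H : CutEA 3 κ (eng.v x) (3 / 40) (tnt (h0 * x) (3 / 10)) PP tK tL tC pcB (scP esg pd) (Cut.of []) 0 1 2 0 7 (sgb false) (sgb false) x) :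
    AltEA 3 κ (eng.v x) (3 / 40) (tnt (h0 * x) (3 / 10)) PP tK tL tC pcB (scP esg pd) [⟨3, 0, 0, 1449551462⟩] 0 1 2 0 7 (sgb false) (sgb false) x :=
  strip_altEA (m := 1449551462) (L := []) true rfl hκ (κ0 hκ (hx1 hx).le (hx2 hx').le) (hx1 hx).le (hx2 hx') (en_pos (hx1 hx).le)
    (esg_rng (hx1 hx).le (hx2 hx').le).1 (mo_v x) (tnt_den (by norm_num) (by norm_num) (hx1 hx) (hx2 hx')).cont
    (fun u v => (tnt_osc' (th := 3 / 10) (by norm_num) (by norm_num) (hx1 hx) (hx2 hx') u v).trans (le_of_eq (by ring)))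
    covB00 covB71 hx hx' Pool.Agent.Strip051.G.I5470_6050.Tab.CS.BA07.c_mm_012_s noExt_EA
    (Pool.Agent.Strip051.G.I5470_6050.Tab.St.C.s_A07mm_012_s1 hκ hx hx') H

theorem se_A07mm_022_s {κ x : ℝ} (hκ : κ * h0 = ken x) (hx : ((587336777 : ℕ) : ℝ) / S ≤ x) (hx' : x ≤ (((587336777 : ℕ) : ℝ) + (62277027 : ℕ)) / S)
    (H : CutEA 3 κ (eng.v x) (3 / 40) (tnt (h0 * x) (3 / 10)) PP tK tL tC pcB (scP esg pd) (Cut.of []) 0 2 2 0 7 (sgb false) (sgb false) x) :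
    AltEA 3 κ (eng.v x) (3 / 40) (tnt (h0 * x) (3 / 10)) PP tK tL tC pcB (scP esg pd) [⟨3, 0, 0, 1449551462⟩] 0 2 2 0 7 (sgb false) (sgb false) x :=
  strip_altEA (m := 1449551462) (L := []) true rfl hκ (κ0 hκ (hx1 hx).le (hx2 hx').le) (hx1 hx).le (hx2 hx') (en_pos (hx1 hx).le)
    (esg_rng (hx1 hx).le (hx2 hx').le).1 (mo_v x) (tnt_den (by norm_num) (by norm_num) (hx1 hx) (hx2 hx')).cont
    (fun u v => (tnt_osc' (th := 3 / 10) (by norm_num) (by norm_num) (hx1 hx) (hx2 hx') u v).trans (le_of_eq (by ring)))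
    covB00 covB72 hx hx' Pool.Agent.Strip051.G.I5470_6050.Tab.CS.BA07.c_mm_022_s noExt_EA
    (Pool.Agent.Strip051.G.I5470_6050.Tab.St.C.s_A07mm_022_s1 hκ hx hx') H

theorem se_A07mm_023_s {κ x : ℝ} (hκ : κ * h0 = ken x) (hx : ((587336777 : ℕ) : ℝ) / S ≤ x) (hx' : x ≤ (((587336777 : ℕ) : ℝ) + (62277027 : ℕ)) / S)
    (H : CutEA 3 κ (eng.v x) (3 / 40) (tnt (h0 * x) (3 / 10)) PP tK tL tC pcB (scP esg pd) (Cut.of []) 0 2 3 0 7 (sgb false) (sgb false) x) :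
    AltEA 3 κ (eng.v x) (3 / 40) (tnt (h0 * x) (3 / 10)) PP tK tL tC pcB (scP esg pd) [⟨3, 0, 0, 1449551462⟩] 0 2 3 0 7 (sgb false) (sgb false) x :=
  strip_altEA (m := 1449551462) (L := []) true rfl hκ (κ0 hκ (hx1 hx).le (hx2 hx').le) (hx1 hx).le (hx2 hx') (en_pos (hx1 hx).le)
    (esg_rng (hx1 hx).le (hx2 hx').le).1 (mo_v x) (tnt_den (by norm_num) (by norm_num) (hx1 hx) (hx2 hx')).cont
    (fun u v => (tnt_osc' (th := 3 / 10) (by norm_num) (by norm_num) (hx1 hx) (hx2 hx') u v).trans (le_of_eq (by ring)))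
    covB00 covB72 hx hx' Pool.Agent.Strip051.G.I5470_6050.Tab.CS.BA07.c_mm_023_s noExt_EA
    (Pool.Agent.Strip051.G.I5470_6050.Tab.St.C.s_A07mm_023_s1 hκ hx hx') H

theorem se_A07mm_033_s {κ x : ℝ} (hκ : κ * h0 = ken x) (hx : ((587336777 : ℕ) : ℝ) / S ≤ x) (hx' : x ≤ (((587336777 : ℕ) : ℝ) + (62277027 : ℕ)) / S)
    (H : CutEA 3 κ (eng.v x) (3 / 40) (tnt (h0 * x) (3 / 10)) PP tK tL tC pcB (scP esg pd) (Cut.of []) 0 3 3 0 7 (sgb false) (sgb false) x) :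
    AltEA 3 κ (eng.v x) (3 / 40) (tnt (h0 * x) (3 / 10)) PP tK tL tC pcB (scP esg pd) [⟨3, 0, 0, 1449551462⟩] 0 3 3 0 7 (sgb false) (sgb false) x :=
  strip_altEA (m := 1449551462) (L := []) true rfl hκ (κ0 hκ (hx1 hx).le (hx2 hx').le) (hx1 hx).le (hx2 hx') (en_pos (hx1 hx).le)
    (esg_rng (hx1 hx).le (hx2 hx').le).1 (mo_v x) (tnt_den (by norm_num) (by norm_num) (hx1 hx) (hx2 hx')).cont
    (fun u v => (tnt_osc' (th := 3 / 10) (by norm_num) (by norm_num) (hx1 hx) (hx2 hx') u v).trans (le_of_eq (by ring)))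
    covB00 covB73 hx hx' Pool.Agent.Strip051.G.I5470_6050.Tab.CS.BA07.c_mm_033_s noExt_EA
    (Pool.Agent.Strip051.G.I5470_6050.Tab.St.C.s_A07mm_033_s1 hκ hx hx') H

theorem se_A07mm_101_s {κ x : ℝ} (hκ : κ * h0 = ken x) (hx : ((587336777 : ℕ) : ℝ) / S ≤ x) (hx' : x ≤ (((587336777 : ℕ) : ℝ) + (62277027 : ℕ)) / S)
    (H : CutEA 3 κ (eng.v x) (3 / 40) (tnt (h0 * x) (3 / 10)) PP tK tL tC pcB (scP esg pd) (Cut.of []) 1 0 1 0 7 (sgb false) (sgb false) x) :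
    AltEA 3 κ (eng.v x) (3 / 40) (tnt (h0 * x) (3 / 10)) PP tK tL tC pcB (scP esg pd) [⟨3, 0, 0, 1449551462⟩] 1 0 1 0 7 (sgb false) (sgb false) x :=
  strip_altEA (m := 1449551462) (L := []) true rfl hκ (κ0 hκ (hx1 hx).le (hx2 hx').le) (hx1 hx).le (hx2 hx') (en_pos (hx1 hx).le)
    (esg_rng (hx1 hx).le (hx2 hx').le).1 (mo_v x) (tnt_den (by norm_num) (by norm_num) (hx1 hx) (hx2 hx')).cont
    (fun u v => (tnt_osc' (th := 3 / 10) (by norm_num) (by norm_num) (hx1 hx) (hx2 hx') u v).trans (le_of_eq (by ring)))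
    covB01 covB70 hx hx' Pool.Agent.Strip051.G.I5470_6050.Tab.CS.BA07.c_mm_101_s noExt_EA
    (Pool.Agent.Strip051.G.I5470_6050.Tab.St.C.s_A07mm_101_s1 hκ hx hx') H

theorem se_A07mm_102_s {κ x : ℝ} (hκ : κ * h0 = ken x) (hx : ((587336777 : ℕ) : ℝ) / S ≤ x) (hx' : x ≤ (((587336777 : ℕ) : ℝ) + (62277027 : ℕ)) / S)
    (H : CutEA 3 κ (eng.v x) (3 / 40) (tnt (h0 * x) (3 / 10)) PP tK tL tC pcB (scP esg pd) (Cut.of []) 1 0 2 0 7 (sgb false) (sgb false) x) :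
    AltEA 3 κ (eng.v x) (3 / 40) (tnt (h0 * x) (3 / 10)) PP tK tL tC pcB (scP esg pd) [⟨3, 0, 0, 1449551462⟩] 1 0 2 0 7 (sgb false) (sgb false) x :=
  strip_altEA (m := 1449551462) (L := []) true rfl hκ (κ0 hκ (hx1 hx).le (hx2 hx').le) (hx1 hx).le (hx2 hx') (en_pos (hx1 hx).le)
    (esg_rng (hx1 hx).le (hx2 hx').le).1 (mo_v x) (tnt_den (by norm_num) (by norm_num) (hx1 hx) (hx2 hx')).cont
    (fun u v => (tnt_osc' (th := 3 / 10) (by norm_num) (by norm_num) (hx1 hx) (hx2 hx') u v).trans (le_of_eq (by ring)))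
    covB01 covB70 hx hx' Pool.Agent.Strip051.G.I5470_6050.Tab.CS.BA07.c_mm_102_s noExt_EA
    (Pool.Agent.Strip051.G.I5470_6050.Tab.St.C.s_A07mm_102_s1 hκ hx hx') H

theorem se_A07mm_112_s {κ x : ℝ} (hκ : κ * h0 = ken x) (hx : ((587336777 : ℕ) : ℝ) / S ≤ x) (hx' : x ≤ (((587336777 : ℕ) : ℝ) + (62277027 : ℕ)) / S)
    (H : CutEA 3 κ (eng.v x) (3 / 40) (tnt (h0 * x) (3 / 10)) PP tK tL tC pcB (scP esg pd) (Cut.of []) 1 1 2 0 7 (sgb false) (sgb false) x) :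
    AltEA 3 κ (eng.v x) (3 / 40) (tnt (h0 * x) (3 / 10)) PP tK tL tC pcB (scP esg pd) [⟨3, 0, 0, 1449551462⟩] 1 1 2 0 7 (sgb false) (sgb false) x :=
  strip_altEA (m := 1449551462) (L := []) true rfl hκ (κ0 hκ (hx1 hx).le (hx2 hx').le) (hx1 hx).le (hx2 hx') (en_pos (hx1 hx).le)
    (esg_rng (hx1 hx).le (hx2 hx').le).1 (mo_v x) (tnt_den (by norm_num) (by norm_num) (hx1 hx) (hx2 hx')).cont
    (fun u v => (tnt_osc' (th := 3 / 10) (by norm_num) (by norm_num) (hx1 hx) (hx2 hx') u v).trans (le_of_eq (by ring)))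
    covB01 covB71 hx hx' Pool.Agent.Strip051.G.I5470_6050.Tab.CS.BA07.c_mm_112_s noExt_EA
    (Pool.Agent.Strip051.G.I5470_6050.Tab.St.C.s_A07mm_112_s1 hκ hx hx') H

theorem se_A07mm_113_s {κ x : ℝ} (hκ : κ * h0 = ken x) (hx : ((587336777 : ℕ) : ℝ) / S ≤ x) (hx' : x ≤ (((587336777 : ℕ) : ℝ) + (62277027 : ℕ)) / S)
    (H : CutEA 3 κ (eng.v x) (3 / 40) (tnt (h0 * x) (3 / 10)) PP tK tL tC pcB (scP esg pd) (Cut.of []) 1 1 3 0 7 (sgb false) (sgb false) x) :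
    AltEA 3 κ (eng.v x) (3 / 40) (tnt (h0 * x) (3 / 10)) PP tK tL tC pcB (scP esg pd) [⟨3, 0, 0, 1449551462⟩] 1 1 3 0 7 (sgb false) (sgb false) x :=
  strip_altEA (m := 1449551462) (L := []) true rfl hκ (κ0 hκ (hx1 hx).le (hx2 hx').le) (hx1 hx).le (hx2 hx') (en_pos (hx1 hx).le)
    (esg_rng (hx1 hx).le (hx2 hx').le).1 (mo_v x) (tnt_den (by norm_num) (by norm_num) (hx1 hx) (hx2 hx')).cont
    (fun u v => (tnt_osc' (th := 3 / 10) (by norm_num) (by norm_num) (hx1 hx) (hx2 hx') u v).trans (le_of_eq (by ring)))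
    covB01 covB71 hx hx' Pool.Agent.Strip051.G.I5470_6050.Tab.CS.BA07.c_mm_113_s noExt_EA
    (Pool.Agent.Strip051.G.I5470_6050.Tab.St.C.s_A07mm_113_s1 hκ hx hx') H

theorem se_A07mm_123_s {κ x : ℝ} (hκ : κ * h0 = ken x) (hx : ((587336777 : ℕ) : ℝ) / S ≤ x) (hx' : x ≤ (((587336777 : ℕ) : ℝ) + (62277027 : ℕ)) / S)
    (H : CutEA 3 κ (eng.v x) (3 / 40) (tnt (h0 * x) (3 / 10)) PP tK tL tC pcB (scP esg pd) (Cut.of []) 1 2 3 0 7 (sgb false) (sgb false) x) :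
    AltEA 3 κ (eng.v x) (3 / 40) (tnt (h0 * x) (3 / 10)) PP tK tL tC pcB (scP esg pd) [⟨3, 0, 0, 1449551462⟩] 1 2 3 0 7 (sgb false) (sgb false) x :=
  strip_altEA (m := 1449551462) (L := []) true rfl hκ (κ0 hκ (hx1 hx).le (hx2 hx').le) (hx1 hx).le (hx2 hx') (en_pos (hx1 hx).le)
    (esg_rng (hx1 hx).le (hx2 hx').le).1 (mo_v x) (tnt_den (by norm_num) (by norm_num) (hx1 hx) (hx2 hx')).cont
    (fun u v => (tnt_osc' (th := 3 / 10) (by norm_num) (by norm_num) (hx1 hx) (hx2 hx') u v).trans (le_of_eq (by ring)))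
    covB01 covB72 hx hx' Pool.Agent.Strip051.G.I5470_6050.Tab.CS.BA07.c_mm_123_s noExt_EA
    (Pool.Agent.Strip051.G.I5470_6050.Tab.St.C.s_A07mm_123_s1 hκ hx hx') H

theorem se_A07mm_133_s {κ x : ℝ} (hκ : κ * h0 = ken x) (hx : ((587336777 : ℕ) : ℝ) / S ≤ x) (hx' : x ≤ (((587336777 : ℕ) : ℝ) + (62277027 : ℕ)) / S)
    (H : CutEA 3 κ (eng.v x) (3 / 40) (tnt (h0 * x) (3 / 10)) PP tK tL tC pcB (scP esg pd) (Cut.of []) 1 3 3 0 7 (sgb false) (sgb false) x) :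
    AltEA 3 κ (eng.v x) (3 / 40) (tnt (h0 * x) (3 / 10)) PP tK tL tC pcB (scP esg pd) [⟨3, 0, 0, 1449551462⟩] 1 3 3 0 7 (sgb false) (sgb false) x :=
  strip_altEA (m := 1449551462) (L := []) true rfl hκ (κ0 hκ (hx1 hx).le (hx2 hx').le) (hx1 hx).le (hx2 hx') (en_pos (hx1 hx).le)
    (esg_rng (hx1 hx).le (hx2 hx').le).1 (mo_v x) (tnt_den (by norm_num) (by norm_num) (hx1 hx) (hx2 hx')).cont
    (fun u v => (tnt_osc' (th := 3 / 10) (by norm_num) (by norm_num) (hx1 hx) (hx2 hx') u v).trans (le_of_eq (by ring)))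
    covB01 covB73 hx hx' Pool.Agent.Strip051.G.I5470_6050.Tab.CS.BA07.c_mm_133_s noExt_EA
    (Pool.Agent.Strip051.G.I5470_6050.Tab.St.C.s_A07mm_133_s1 hκ hx hx') H

theorem se_A07mm_202_s {κ x : ℝ} (hκ : κ * h0 = ken x) (hx : ((587336777 : ℕ) : ℝ) / S ≤ x) (hx' : x ≤ (((587336777 : ℕ) : ℝ) + (62277027 : ℕ)) / S)
    (H : CutEA 3 κ (eng.v x) (3 / 40) (tnt (h0 * x) (3 / 10)) PP tK tL tC pcB (scP esg pd) (Cut.of []) 2 0 2 0 7 (sgb false) (sgb false) x) :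
    AltEA 3 κ (eng.v x) (3 / 40) (tnt (h0 * x) (3 / 10)) PP tK tL tC pcB (scP esg pd) [⟨3, 0, 0, 1449551462⟩] 2 0 2 0 7 (sgb false) (sgb false) x :=
  strip_altEA (m := 1449551462) (L := []) true rfl hκ (κ0 hκ (hx1 hx).le (hx2 hx').le) (hx1 hx).le (hx2 hx') (en_pos (hx1 hx).le)
    (esg_rng (hx1 hx).le (hx2 hx').le).1 (mo_v x) (tnt_den (by norm_num) (by norm_num) (hx1 hx) (hx2 hx')).cont
    (fun u v => (tnt_osc' (th := 3 / 10) (by norm_num) (by norm_num) (hx1 hx) (hx2 hx') u v).trans (le_of_eq (by ring)))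
    covB02 covB70 hx hx' Pool.Agent.Strip051.G.I5470_6050.Tab.CS.BA07.c_mm_202_s noExt_EA
    (Pool.Agent.Strip051.G.I5470_6050.Tab.St.C.s_A07mm_202_s1 hκ hx hx') H

theorem se_A07mm_203_s {κ x : ℝ} (hκ : κ * h0 = ken x) (hx : ((587336777 : ℕ) : ℝ) / S ≤ x) (hx' : x ≤ (((587336777 : ℕ) : ℝ) + (62277027 : ℕ)) / S)
    (H : CutEA 3 κ (eng.v x) (3 / 40) (tnt (h0 * x) (3 / 10)) PP tK tL tC pcB (scP esg pd) (Cut.of []) 2 0 3 0 7 (sgb false) (sgb false) x) :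
    AltEA 3 κ (eng.v x) (3 / 40) (tnt (h0 * x) (3 / 10)) PP tK tL tC pcB (scP esg pd) [⟨3, 0, 0, 1449551462⟩] 2 0 3 0 7 (sgb false) (sgb false) x :=
  strip_altEA (m := 1449551462) (L := []) true rfl hκ (κ0 hκ (hx1 hx).le (hx2 hx').le) (hx1 hx).le (hx2 hx') (en_pos (hx1 hx).le)
    (esg_rng (hx1 hx).le (hx2 hx').le).1 (mo_v x) (tnt_den (by norm_num) (by norm_num) (hx1 hx) (hx2 hx')).cont
    (fun u v => (tnt_osc' (th := 3 / 10) (by norm_num) (by norm_num) (hx1 hx) (hx2 hx') u v).trans (le_of_eq (by ring)))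
    covB02 covB70 hx hx' Pool.Agent.Strip051.G.I5470_6050.Tab.CS.BA07.c_mm_203_s noExt_EA
    (Pool.Agent.Strip051.G.I5470_6050.Tab.St.C.s_A07mm_203_s1 hκ hx hx') H

theorem se_A07mm_213_s {κ x : ℝ} (hκ : κ * h0 = ken x) (hx : ((587336777 : ℕ) : ℝ) / S ≤ x) (hx' : x ≤ (((587336777 : ℕ) : ℝ) + (62277027 : ℕ)) / S)
    (H : CutEA 3 κ (eng.v x) (3 / 40) (tnt (h0 * x) (3 / 10)) PP tK tL tC pcB (scP esg pd) (Cut.of []) 2 1 3 0 7 (sgb false) (sgb false) x) :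
    AltEA 3 κ (eng.v x) (3 / 40) (tnt (h0 * x) (3 / 10)) PP tK tL tC pcB (scP esg pd) [⟨3, 0, 0, 1449551462⟩] 2 1 3 0 7 (sgb false) (sgb false) x :=
  strip_altEA (m := 1449551462) (L := []) true rfl hκ (κ0 hκ (hx1 hx).le (hx2 hx').le) (hx1 hx).le (hx2 hx') (en_pos (hx1 hx).le)
    (esg_rng (hx1 hx).le (hx2 hx').le).1 (mo_v x) (tnt_den (by norm_num) (by norm_num) (hx1 hx) (hx2 hx')).cont
    (fun u v => (tnt_osc' (th := 3 / 10) (by norm_num) (by norm_num) (hx1 hx) (hx2 hx') u v).trans (le_of_eq (by ring)))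
    covB02 covB71 hx hx' Pool.Agent.Strip051.G.I5470_6050.Tab.CS.BA07.c_mm_213_s noExt_EA
    (Pool.Agent.Strip051.G.I5470_6050.Tab.St.C.s_A07mm_213_s1 hκ hx hx') H

theorem se_B00pp_001_s {κ x : ℝ} (hκ : κ * h0 = ken x) (hx : ((587336777 : ℕ) : ℝ) / S ≤ x) (hx' : x ≤ (((587336777 : ℕ) : ℝ) + (62277027 : ℕ)) / S)
    (H : CutEB 3 κ (eng.v x) (3 / 40) (tnt (h0 * x) (3 / 10)) PP tK tL tC pcB (scP esg pd) (Cut.of []) 0 0 1 0 0 (sgb true) (sgb true) x) :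
    AltEB 3 κ (eng.v x) (3 / 40) (tnt (h0 * x) (3 / 10)) PP tK tL tC pcB (scP esg pd) [⟨3, 0, 0, 1449551462⟩] 0 0 1 0 0 (sgb true) (sgb true) x :=
  strip_altEB (m := 1449551462) (L := []) true rfl hκ (κ0 hκ (hx1 hx).le (hx2 hx').le) (hx1 hx).le (hx2 hx') (en_pos (hx1 hx).le)
    (esg_rng (hx1 hx).le (hx2 hx').le).1 (mo_v x) (tnt_den (by norm_num) (by norm_num) (hx1 hx) (hx2 hx')).cont
    (fun u v => (tnt_osc' (th := 3 / 10) (by norm_num) (by norm_num) (hx1 hx) (hx2 hx') u v).trans (le_of_eq (by ring)))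
    covB00 covB01 hx hx' Pool.Agent.Strip051.G.I5470_6050.Tab.CS.BB00.c_pp_001_s noExt_EB
    (Pool.Agent.Strip051.G.I5470_6050.Tab.St.C.s_B00pp_001_s1 hκ hx hx') H

theorem se_B00pp_001_t {κ x : ℝ} (hκ : κ * h0 = ken x) (hx : ((587336777 : ℕ) : ℝ) / S ≤ x) (hx' : x ≤ (((587336777 : ℕ) : ℝ) + (62277027 : ℕ)) / S)
    (H : CutEB 3 κ (eng.v x) (3 / 40) (tnt (h0 * x) (3 / 10)) PP tK tL tC pcB (scP esg pd) (Cut.of []) 0 0 1 0 0 (sgb true) (sgb true) x) :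
    AltEB 3 κ (eng.v x) (3 / 40) (tnt (h0 * x) (3 / 10)) PP tK tL tC pcB (scP esg pd) [⟨4, 0, 0, 2845415833⟩] 0 0 1 0 0 (sgb true) (sgb true) x :=
  strip_altEB (m := 2845415833) (L := []) false rfl hκ (κ0 hκ (hx1 hx).le (hx2 hx').le) (hx1 hx).le (hx2 hx') (en_pos (hx1 hx).le)
    (esg_rng (hx1 hx).le (hx2 hx').le).1 (mo_v x) (tnt_den (by norm_num) (by norm_num) (hx1 hx) (hx2 hx')).cont
    (fun u v => (tnt_osc' (th := 3 / 10) (by norm_num) (by norm_num) (hx1 hx) (hx2 hx') u v).trans (le_of_eq (by ring)))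
    covB00 covB01 hx hx' Pool.Agent.Strip051.G.I5470_6050.Tab.CS.BB00.c_pp_001_t noExt_EB
    (Pool.Agent.Strip051.G.I5470_6050.Tab.St.C.s_B00pp_001_s3 hκ hx hx') H

theorem se_B00pp_011_s {κ x : ℝ} (hκ : κ * h0 = ken x) (hx : ((587336777 : ℕ) : ℝ) / S ≤ x) (hx' : x ≤ (((587336777 : ℕ) : ℝ) + (62277027 : ℕ)) / S)
    (H : CutEB 3 κ (eng.v x) (3 / 40) (tnt (h0 * x) (3 / 10)) PP tK tL tC pcB (scP esg pd) (Cut.of [[⟨0, 0, 0, 67108864⟩, ⟨1, 1, 0, 67108864⟩, ⟨2, 1, 0, 67108864⟩]]) 0 1 1 0 0 (sgb true) (sgb true) x) :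
    AltEB 3 κ (eng.v x) (3 / 40) (tnt (h0 * x) (3 / 10)) PP tK tL tC pcB (scP esg pd) [⟨3, 0, 0, 1449551462⟩] 0 1 1 0 0 (sgb true) (sgb true) x :=
  strip_altEB (m := 1449551462) (L := [[⟨0, 0, 0, 67108864⟩, ⟨1, 1, 0, 67108864⟩, ⟨2, 1, 0, 67108864⟩]]) true rfl hκ (κ0 hκ (hx1 hx).le (hx2 hx').le) (hx1 hx).le (hx2 hx') (en_pos (hx1 hx).le)
    (esg_rng (hx1 hx).le (hx2 hx').le).1 (mo_v x) (tnt_den (by norm_num) (by norm_num) (hx1 hx) (hx2 hx')).cont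
    (fun u v => (tnt_osc' (th := 3 / 10) (by norm_num) (by norm_num) (hx1 hx) (hx2 hx') u v).trans (le_of_eq (by ring)))
    covB00 covB01 hx hx' Pool.Agent.Strip051.G.I5470_6050.Tab.CS.BB00.c_pp_011_s noExt_EB
    (Pool.Agent.Strip051.G.I5470_6050.Tab.St.C.s_B00pp_011_s1 hκ hx hx' (H.dir (κ0 hκ (hx1 hx).le (hx2 hx').le) (hx1 hx).le (hx2 hx'))) H

theorem se_B00pp_011_t {κ x : ℝ} (hκ : κ * h0 = ken x) (hx : ((587336777 : ℕ) : ℝ) / S ≤ x) (hx' : x ≤ (((587336777 : ℕ) : ℝ) + (62277027 : ℕ)) / S)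
    (H : CutEB 3 κ (eng.v x) (3 / 40) (tnt (h0 * x) (3 / 10)) PP tK tL tC pcB (scP esg pd) (Cut.of [[⟨0, 0, 0, 67108864⟩, ⟨1, 1, 0, 67108864⟩, ⟨2, 1, 0, 67108864⟩]]) 0 1 1 0 0 (sgb true) (sgb true) x) :
    AltEB 3 κ (eng.v x) (3 / 40) (tnt (h0 * x) (3 / 10)) PP tK tL tC pcB (scP esg pd) [⟨4, 0, 0, 2845415833⟩] 0 1 1 0 0 (sgb true) (sgb true) x :=
  strip_altEB (m := 2845415833) (L := [[⟨0, 0, 0, 67108864⟩, ⟨1, 1, 0, 67108864⟩, ⟨2, 1, 0, 67108864⟩]]) false rfl hκ (κ0 hκ (hx1 hx).le (hx2 hx').le) (hx1 hx).le (hx2 hx') (en_pos (hx1 hx).le)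
    (esg_rng (hx1 hx).le (hx2 hx').le).1 (mo_v x) (tnt_den (by norm_num) (by norm_num) (hx1 hx) (hx2 hx')).cont
    (fun u v => (tnt_osc' (th := 3 / 10) (by norm_num) (by norm_num) (hx1 hx) (hx2 hx') u v).trans (le_of_eq (by ring)))
    covB00 covB01 hx hx' Pool.Agent.Strip051.G.I5470_6050.Tab.CS.BB00.c_pp_011_t noExt_EB
    (Pool.Agent.Strip051.G.I5470_6050.Tab.St.C.s_B00pp_011_s3 hκ hx hx' (H.dir (κ0 hκ (hx1 hx).le (hx2 hx').le) (hx1 hx).le (hx2 hx'))) H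

theorem se_B00pp_012_s {κ x : ℝ} (hκ : κ * h0 = ken x) (hx : ((587336777 : ℕ) : ℝ) / S ≤ x) (hx' : x ≤ (((587336777 : ℕ) : ℝ) + (62277027 : ℕ)) / S)
    (H : CutEB 3 κ (eng.v x) (3 / 40) (tnt (h0 * x) (3 / 10)) PP tK tL tC pcB (scP esg pd) (Cut.of [[⟨0, 0, 0, 44739242⟩, ⟨1, 1, 0, 44739242⟩, ⟨2, 1, 0, 44739242⟩]]) 0 1 2 0 0 (sgb true) (sgb true) x) :
    AltEB 3 κ (eng.v x) (3 / 40) (tnt (h0 * x) (3 / 10)) PP tK tL tC pcB (scP esg pd) [⟨3, 0, 0, 1449551462⟩] 0 1 2 0 0 (sgb true) (sgb true) x :=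
  strip_altEB (m := 1449551462) (L := [[⟨0, 0, 0, 44739242⟩, ⟨1, 1, 0, 44739242⟩, ⟨2, 1, 0, 44739242⟩]]) true rfl hκ (κ0 hκ (hx1 hx).le (hx2 hx').le) (hx1 hx).le (hx2 hx') (en_pos (hx1 hx).le)
    (esg_rng (hx1 hx).le (hx2 hx').le).1 (mo_v x) (tnt_den (by norm_num) (by norm_num) (hx1 hx) (hx2 hx')).cont
    (fun u v => (tnt_osc' (th := 3 / 10) (by norm_num) (by norm_num) (hx1 hx) (hx2 hx') u v).trans (le_of_eq (by ring)))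
    covB00 covB02 hx hx' Pool.Agent.Strip051.G.I5470_6050.Tab.CS.BB00.c_pp_012_s noExt_EB
    (Pool.Agent.Strip051.G.I5470_6050.Tab.St.C.s_B00pp_012_s1 hκ hx hx' (H.dir (κ0 hκ (hx1 hx).le (hx2 hx').le) (hx1 hx).le (hx2 hx'))) H

theorem se_B00pp_012_t {κ x : ℝ} (hκ : κ * h0 = ken x) (hx : ((587336777 : ℕ) : ℝ) / S ≤ x) (hx' : x ≤ (((587336777 : ℕ) : ℝ) + (62277027 : ℕ)) / S)
    (H : CutEB 3 κ (eng.v x) (3 / 40) (tnt (h0 * x) (3 / 10)) PP tK tL tC pcB (scP esg pd) (Cut.of [[⟨0, 0, 0, 44739242⟩, ⟨1, 1, 0, 44739242⟩, ⟨2, 1, 0, 44739242⟩]]) 0 1 2 0 0 (sgb true) (sgb true) x) :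
    AltEB 3 κ (eng.v x) (3 / 40) (tnt (h0 * x) (3 / 10)) PP tK tL tC pcB (scP esg pd) [⟨4, 0, 0, 2845415833⟩] 0 1 2 0 0 (sgb true) (sgb true) x :=
  strip_altEB (m := 2845415833) (L := [[⟨0, 0, 0, 44739242⟩, ⟨1, 1, 0, 44739242⟩, ⟨2, 1, 0, 44739242⟩]]) false rfl hκ (κ0 hκ (hx1 hx).le (hx2 hx').le) (hx1 hx).le (hx2 hx') (en_pos (hx1 hx).le)
    (esg_rng (hx1 hx).le (hx2 hx').le).1 (mo_v x) (tnt_den (by norm_num) (by norm_num) (hx1 hx) (hx2 hx')).cont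
    (fun u v => (tnt_osc' (th := 3 / 10) (by norm_num) (by norm_num) (hx1 hx) (hx2 hx') u v).trans (le_of_eq (by ring)))
    covB00 covB02 hx hx' Pool.Agent.Strip051.G.I5470_6050.Tab.CS.BB00.c_pp_012_t noExt_EB
    (Pool.Agent.Strip051.G.I5470_6050.Tab.St.C.s_B00pp_012_s3 hκ hx hx' (H.dir (κ0 hκ (hx1 hx).le (hx2 hx').le) (hx1 hx).le (hx2 hx'))) H

theorem se_B00pp_022_s {κ x : ℝ} (hκ : κ * h0 = ken x) (hx : ((587336777 : ℕ) : ℝ) / S ≤ x) (hx' : x ≤ (((587336777 : ℕ) : ℝ) + (62277027 : ℕ)) / S)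
    (H : CutEB 3 κ (eng.v x) (3 / 40) (tnt (h0 * x) (3 / 10)) PP tK tL tC pcB (scP esg pd) (Cut.of [[⟨0, 0, 0, 67108864⟩, ⟨1, 1, 0, 67108864⟩, ⟨2, 1, 0, 67108864⟩]]) 0 2 2 0 0 (sgb true) (sgb true) x) :
    AltEB 3 κ (eng.v x) (3 / 40) (tnt (h0 * x) (3 / 10)) PP tK tL tC pcB (scP esg pd) [⟨3, 0, 0, 1449551462⟩] 0 2 2 0 0 (sgb true) (sgb true) x :=
  strip_altEB (m := 1449551462) (L := [[⟨0, 0, 0, 67108864⟩, ⟨1, 1, 0, 67108864⟩, ⟨2, 1, 0, 67108864⟩]]) true rfl hκ (κ0 hκ (hx1 hx).le (hx2 hx').le) (hx1 hx).le (hx2 hx') (en_pos (hx1 hx).le)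
    (esg_rng (hx1 hx).le (hx2 hx').le).1 (mo_v x) (tnt_den (by norm_num) (by norm_num) (hx1 hx) (hx2 hx')).cont
    (fun u v => (tnt_osc' (th := 3 / 10) (by norm_num) (by norm_num) (hx1 hx) (hx2 hx') u v).trans (le_of_eq (by ring)))
    covB00 covB02 hx hx' Pool.Agent.Strip051.G.I5470_6050.Tab.CS.BB00.c_pp_022_s noExt_EB
    (Pool.Agent.Strip051.G.I5470_6050.Tab.St.C.s_B00pp_022_s1 hκ hx hx' (H.dir (κ0 hκ (hx1 hx).le (hx2 hx').le) (hx1 hx).le (hx2 hx'))) H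

theorem se_B00pp_022_t {κ x : ℝ} (hκ : κ * h0 = ken x) (hx : ((587336777 : ℕ) : ℝ) / S ≤ x) (hx' : x ≤ (((587336777 : ℕ) : ℝ) + (62277027 : ℕ)) / S)
    (H : CutEB 3 κ (eng.v x) (3 / 40) (tnt (h0 * x) (3 / 10)) PP tK tL tC pcB (scP esg pd) (Cut.of [[⟨0, 0, 0, 67108864⟩, ⟨1, 1, 0, 67108864⟩, ⟨2, 1, 0, 67108864⟩]]) 0 2 2 0 0 (sgb true) (sgb true) x) :
    AltEB 3 κ (eng.v x) (3 / 40) (tnt (h0 * x) (3 / 10)) PP tK tL tC pcB (scP esg pd) [⟨4, 0, 0, 2845415833⟩] 0 2 2 0 0 (sgb true) (sgb true) x :=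
  strip_altEB (m := 2845415833) (L := [[⟨0, 0, 0, 67108864⟩, ⟨1, 1, 0, 67108864⟩, ⟨2, 1, 0, 67108864⟩]]) false rfl hκ (κ0 hκ (hx1 hx).le (hx2 hx').le) (hx1 hx).le (hx2 hx') (en_pos (hx1 hx).le)
    (esg_rng (hx1 hx).le (hx2 hx').le).1 (mo_v x) (tnt_den (by norm_num) (by norm_num) (hx1 hx) (hx2 hx')).cont
    (fun u v => (tnt_osc' (th := 3 / 10) (by norm_num) (by norm_num) (hx1 hx) (hx2 hx') u v).trans (le_of_eq (by ring)))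
    covB00 covB02 hx hx' Pool.Agent.Strip051.G.I5470_6050.Tab.CS.BB00.c_pp_022_t noExt_EB
    (Pool.Agent.Strip051.G.I5470_6050.Tab.St.C.s_B00pp_022_s3 hκ hx hx' (H.dir (κ0 hκ (hx1 hx).le (hx2 hx').le) (hx1 hx).le (hx2 hx'))) H

theorem se_B00pp_101_s {κ x : ℝ} (hκ : κ * h0 = ken x) (hx : ((587336777 : ℕ) : ℝ) / S ≤ x) (hx' : x ≤ (((587336777 : ℕ) : ℝ) + (62277027 : ℕ)) / S)
    (H : CutEB 3 κ (eng.v x) (3 / 40) (tnt (h0 * x) (3 / 10)) PP tK tL tC pcB (scP esg pd) (Cut.of []) 1 0 1 0 0 (sgb true) (sgb true) x) :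
    AltEB 3 κ (eng.v x) (3 / 40) (tnt (h0 * x) (3 / 10)) PP tK tL tC pcB (scP esg pd) [⟨3, 0, 0, 1449551462⟩] 1 0 1 0 0 (sgb true) (sgb true) x :=
  strip_altEB (m := 1449551462) (L := []) true rfl hκ (κ0 hκ (hx1 hx).le (hx2 hx').le) (hx1 hx).le (hx2 hx') (en_pos (hx1 hx).le)
    (esg_rng (hx1 hx).le (hx2 hx').le).1 (mo_v x) (tnt_den (by norm_num) (by norm_num) (hx1 hx) (hx2 hx')).cont
    (fun u v => (tnt_osc' (th := 3 / 10) (by norm_num) (by norm_num) (hx1 hx) (hx2 hx') u v).trans (le_of_eq (by ring)))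
    covB01 covB01 hx hx' Pool.Agent.Strip051.G.I5470_6050.Tab.CS.BB00.c_pp_101_s noExt_EB
    (Pool.Agent.Strip051.G.I5470_6050.Tab.St.C.s_B00pp_101_s1 hκ hx hx') H

theorem se_B00pp_101_t {κ x : ℝ} (hκ : κ * h0 = ken x) (hx : ((587336777 : ℕ) : ℝ) / S ≤ x) (hx' : x ≤ (((587336777 : ℕ) : ℝ) + (62277027 : ℕ)) / S)
    (H : CutEB 3 κ (eng.v x) (3 / 40) (tnt (h0 * x) (3 / 10)) PP tK tL tC pcB (scP esg pd) (Cut.of []) 1 0 1 0 0 (sgb true) (sgb true) x) :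
    AltEB 3 κ (eng.v x) (3 / 40) (tnt (h0 * x) (3 / 10)) PP tK tL tC pcB (scP esg pd) [⟨4, 0, 0, 2845415833⟩] 1 0 1 0 0 (sgb true) (sgb true) x :=
  strip_altEB (m := 2845415833) (L := []) false rfl hκ (κ0 hκ (hx1 hx).le (hx2 hx').le) (hx1 hx).le (hx2 hx') (en_pos (hx1 hx).le)
    (esg_rng (hx1 hx).le (hx2 hx').le).1 (mo_v x) (tnt_den (by norm_num) (by norm_num) (hx1 hx) (hx2 hx')).cont
    (fun u v => (tnt_osc' (th := 3 / 10) (by norm_num) (by norm_num) (hx1 hx) (hx2 hx') u v).trans (le_of_eq (by ring)))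
    covB01 covB01 hx hx' Pool.Agent.Strip051.G.I5470_6050.Tab.CS.BB00.c_pp_101_t noExt_EB
    (Pool.Agent.Strip051.G.I5470_6050.Tab.St.C.s_B00pp_101_s3 hκ hx hx') H

theorem se_B00pp_102_s {κ x : ℝ} (hκ : κ * h0 = ken x) (hx : ((587336777 : ℕ) : ℝ) / S ≤ x) (hx' : x ≤ (((587336777 : ℕ) : ℝ) + (62277027 : ℕ)) / S)
    (H : CutEB 3 κ (eng.v x) (3 / 40) (tnt (h0 * x) (3 / 10)) PP tK tL tC pcB (scP esg pd) (Cut.of []) 1 0 2 0 0 (sgb true) (sgb true) x) :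
    AltEB 3 κ (eng.v x) (3 / 40) (tnt (h0 * x) (3 / 10)) PP tK tL tC pcB (scP esg pd) [⟨3, 0, 0, 1449551462⟩] 1 0 2 0 0 (sgb true) (sgb true) x :=
  strip_altEB (m := 1449551462) (L := []) true rfl hκ (κ0 hκ (hx1 hx).le (hx2 hx').le) (hx1 hx).le (hx2 hx') (en_pos (hx1 hx).le)
    (esg_rng (hx1 hx).le (hx2 hx').le).1 (mo_v x) (tnt_den (by norm_num) (by norm_num) (hx1 hx) (hx2 hx')).cont
    (fun u v => (tnt_osc' (th := 3 / 10) (by norm_num) (by norm_num) (hx1 hx) (hx2 hx') u v).trans (le_of_eq (by ring)))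
    covB01 covB02 hx hx' Pool.Agent.Strip051.G.I5470_6050.Tab.CS.BB00.c_pp_102_s noExt_EB
    (Pool.Agent.Strip051.G.I5470_6050.Tab.St.C.s_B00pp_102_s1 hκ hx hx') H

theorem se_B00pp_102_t {κ x : ℝ} (hκ : κ * h0 = ken x) (hx : ((587336777 : ℕ) : ℝ) / S ≤ x) (hx' : x ≤ (((587336777 : ℕ) : ℝ) + (62277027 : ℕ)) / S)
    (H : CutEB 3 κ (eng.v x) (3 / 40) (tnt (h0 * x) (3 / 10)) PP tK tL tC pcB (scP esg pd) (Cut.of []) 1 0 2 0 0 (sgb true) (sgb true) x) :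
    AltEB 3 κ (eng.v x) (3 / 40) (tnt (h0 * x) (3 / 10)) PP tK tL tC pcB (scP esg pd) [⟨4, 0, 0, 2845415833⟩] 1 0 2 0 0 (sgb true) (sgb true) x :=
  strip_altEB (m := 2845415833) (L := []) false rfl hκ (κ0 hκ (hx1 hx).le (hx2 hx').le) (hx1 hx).le (hx2 hx') (en_pos (hx1 hx).le)
    (esg_rng (hx1 hx).le (hx2 hx').le).1 (mo_v x) (tnt_den (by norm_num) (by norm_num) (hx1 hx) (hx2 hx')).cont
    (fun u v => (tnt_osc' (th := 3 / 10) (by norm_num) (by norm_num) (hx1 hx) (hx2 hx') u v).trans (le_of_eq (by ring)))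
    covB01 covB02 hx hx' Pool.Agent.Strip051.G.I5470_6050.Tab.CS.BB00.c_pp_102_t noExt_EB
    (Pool.Agent.Strip051.G.I5470_6050.Tab.St.C.s_B00pp_102_s3 hκ hx hx') H

theorem se_B00pp_112_s {κ x : ℝ} (hκ : κ * h0 = ken x) (hx : ((587336777 : ℕ) : ℝ) / S ≤ x) (hx' : x ≤ (((587336777 : ℕ) : ℝ) + (62277027 : ℕ)) / S)
    (H : CutEB 3 κ (eng.v x) (3 / 40) (tnt (h0 * x) (3 / 10)) PP tK tL tC pcB (scP esg pd) (Cut.of []) 1 1 2 0 0 (sgb true) (sgb true) x) :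
    AltEB 3 κ (eng.v x) (3 / 40) (tnt (h0 * x) (3 / 10)) PP tK tL tC pcB (scP esg pd) [⟨3, 0, 0, 1449551462⟩] 1 1 2 0 0 (sgb true) (sgb true) x :=
  strip_altEB (m := 1449551462) (L := []) true rfl hκ (κ0 hκ (hx1 hx).le (hx2 hx').le) (hx1 hx).le (hx2 hx') (en_pos (hx1 hx).le)
    (esg_rng (hx1 hx).le (hx2 hx').le).1 (mo_v x) (tnt_den (by norm_num) (by norm_num) (hx1 hx) (hx2 hx')).cont
    (fun u v => (tnt_osc' (th := 3 / 10) (by norm_num) (by norm_num) (hx1 hx) (hx2 hx') u v).trans (le_of_eq (by ring)))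
    covB01 covB02 hx hx' Pool.Agent.Strip051.G.I5470_6050.Tab.CS.BB00.c_pp_112_s noExt_EB
    (Pool.Agent.Strip051.G.I5470_6050.Tab.St.C.s_B00pp_112_s1 hκ hx hx') H

theorem se_B00pp_112_t {κ x : ℝ} (hκ : κ * h0 = ken x) (hx : ((587336777 : ℕ) : ℝ) / S ≤ x) (hx' : x ≤ (((587336777 : ℕ) : ℝ) + (62277027 : ℕ)) / S)
    (H : CutEB 3 κ (eng.v x) (3 / 40) (tnt (h0 * x) (3 / 10)) PP tK tL tC pcB (scP esg pd) (Cut.of []) 1 1 2 0 0 (sgb true) (sgb true) x) :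
    AltEB 3 κ (eng.v x) (3 / 40) (tnt (h0 * x) (3 / 10)) PP tK tL tC pcB (scP esg pd) [⟨4, 0, 0, 2845415833⟩] 1 1 2 0 0 (sgb true) (sgb true) x :=
  strip_altEB (m := 2845415833) (L := []) false rfl hκ (κ0 hκ (hx1 hx).le (hx2 hx').le) (hx1 hx).le (hx2 hx') (en_pos (hx1 hx).le)
    (esg_rng (hx1 hx).le (hx2 hx').le).1 (mo_v x) (tnt_den (by norm_num) (by norm_num) (hx1 hx) (hx2 hx')).cont
    (fun u v => (tnt_osc' (th := 3 / 10) (by norm_num) (by norm_num) (hx1 hx) (hx2 hx') u v).trans (le_of_eq (by ring)))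
    covB01 covB02 hx hx' Pool.Agent.Strip051.G.I5470_6050.Tab.CS.BB00.c_pp_112_t noExt_EB
    (Pool.Agent.Strip051.G.I5470_6050.Tab.St.C.s_B00pp_112_s3 hκ hx hx') H

theorem se_B00pp_202_s {κ x : ℝ} (hκ : κ * h0 = ken x) (hx : ((587336777 : ℕ) : ℝ) / S ≤ x) (hx' : x ≤ (((587336777 : ℕ) : ℝ) + (62277027 : ℕ)) / S)
    (H : CutEB 3 κ (eng.v x) (3 / 40) (tnt (h0 * x) (3 / 10)) PP tK tL tC pcB (scP esg pd) (Cut.of []) 2 0 2 0 0 (sgb true) (sgb true) x) :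
    AltEB 3 κ (eng.v x) (3 / 40) (tnt (h0 * x) (3 / 10)) PP tK tL tC pcB (scP esg pd) [⟨3, 0, 0, 1449551462⟩] 2 0 2 0 0 (sgb true) (sgb true) x :=
  strip_altEB (m := 1449551462) (L := []) true rfl hκ (κ0 hκ (hx1 hx).le (hx2 hx').le) (hx1 hx).le (hx2 hx') (en_pos (hx1 hx).le)
    (esg_rng (hx1 hx).le (hx2 hx').le).1 (mo_v x) (tnt_den (by norm_num) (by norm_num) (hx1 hx) (hx2 hx')).cont
    (fun u v => (tnt_osc' (th := 3 / 10) (by norm_num) (by norm_num) (hx1 hx) (hx2 hx') u v).trans (le_of_eq (by ring)))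
    covB02 covB02 hx hx' Pool.Agent.Strip051.G.I5470_6050.Tab.CS.BB00.c_pp_202_s noExt_EB
    (Pool.Agent.Strip051.G.I5470_6050.Tab.St.C.s_B00pp_202_s1 hκ hx hx') H

theorem se_B00pp_202_t {κ x : ℝ} (hκ : κ * h0 = ken x) (hx : ((587336777 : ℕ) : ℝ) / S ≤ x) (hx' : x ≤ (((587336777 : ℕ) : ℝ) + (62277027 : ℕ)) / S)
    (H : CutEB 3 κ (eng.v x) (3 / 40) (tnt (h0 * x) (3 / 10)) PP tK tL tC pcB (scP esg pd) (Cut.of []) 2 0 2 0 0 (sgb true) (sgb true) x) :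
    AltEB 3 κ (eng.v x) (3 / 40) (tnt (h0 * x) (3 / 10)) PP tK tL tC pcB (scP esg pd) [⟨4, 0, 0, 2845415833⟩] 2 0 2 0 0 (sgb true) (sgb true) x :=
  strip_altEB (m := 2845415833) (L := []) false rfl hκ (κ0 hκ (hx1 hx).le (hx2 hx').le) (hx1 hx).le (hx2 hx') (en_pos (hx1 hx).le)
    (esg_rng (hx1 hx).le (hx2 hx').le).1 (mo_v x) (tnt_den (by norm_num) (by norm_num) (hx1 hx) (hx2 hx')).cont
    (fun u v => (tnt_osc' (th := 3 / 10) (by norm_num) (by norm_num) (hx1 hx) (hx2 hx') u v).trans (le_of_eq (by ring)))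
    covB02 covB02 hx hx' Pool.Agent.Strip051.G.I5470_6050.Tab.CS.BB00.c_pp_202_t noExt_EB
    (Pool.Agent.Strip051.G.I5470_6050.Tab.St.C.s_B00pp_202_s3 hκ hx hx') H

theorem se_B00pm_001_s {κ x : ℝ} (hκ : κ * h0 = ken x) (hx : ((587336777 : ℕ) : ℝ) / S ≤ x) (hx' : x ≤ (((587336777 : ℕ) : ℝ) + (62277027 : ℕ)) / S)
    (H : CutEB 3 κ (eng.v x) (3 / 40) (tnt (h0 * x) (3 / 10)) PP tK tL tC pcB (scP esg pd) (Cut.of []) 0 0 1 0 0 (sgb true) (sgb false) x) :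
    AltEB 3 κ (eng.v x) (3 / 40) (tnt (h0 * x) (3 / 10)) PP tK tL tC pcB (scP esg pd) [⟨3, 0, 0, 1449551462⟩] 0 0 1 0 0 (sgb true) (sgb false) x :=
  strip_altEB (m := 1449551462) (L := []) true rfl hκ (κ0 hκ (hx1 hx).le (hx2 hx').le) (hx1 hx).le (hx2 hx') (en_pos (hx1 hx).le)
    (esg_rng (hx1 hx).le (hx2 hx').le).1 (mo_v x) (tnt_den (by norm_num) (by norm_num) (hx1 hx) (hx2 hx')).cont
    (fun u v => (tnt_osc' (th := 3 / 10) (by norm_num) (by norm_num) (hx1 hx) (hx2 hx') u v).trans (le_of_eq (by ring)))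
    covB00 covB01 hx hx' Pool.Agent.Strip051.G.I5470_6050.Tab.CS.BB00.c_pm_001_s noExt_EB
    (Pool.Agent.Strip051.G.I5470_6050.Tab.St.C.s_B00pm_001_s1 hκ hx hx') H

theorem se_B00pm_001_t {κ x : ℝ} (hκ : κ * h0 = ken x) (hx : ((587336777 : ℕ) : ℝ) / S ≤ x) (hx' : x ≤ (((587336777 : ℕ) : ℝ) + (62277027 : ℕ)) / S)
    (H : CutEB 3 κ (eng.v x) (3 / 40) (tnt (h0 * x) (3 / 10)) PP tK tL tC pcB (scP esg pd) (Cut.of []) 0 0 1 0 0 (sgb true) (sgb false) x) :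
    AltEB 3 κ (eng.v x) (3 / 40) (tnt (h0 * x) (3 / 10)) PP tK tL tC pcB (scP esg pd) [⟨4, 0, 0, 2845415833⟩] 0 0 1 0 0 (sgb true) (sgb false) x :=
  strip_altEB (m := 2845415833) (L := []) false rfl hκ (κ0 hκ (hx1 hx).le (hx2 hx').le) (hx1 hx).le (hx2 hx') (en_pos (hx1 hx).le)
    (esg_rng (hx1 hx).le (hx2 hx').le).1 (mo_v x) (tnt_den (by norm_num) (by norm_num) (hx1 hx) (hx2 hx')).cont
    (fun u v => (tnt_osc' (th := 3 / 10) (by norm_num) (by norm_num) (hx1 hx) (hx2 hx') u v).trans (le_of_eq (by ring)))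
    covB00 covB01 hx hx' Pool.Agent.Strip051.G.I5470_6050.Tab.CS.BB00.c_pm_001_t noExt_EB
    (Pool.Agent.Strip051.G.I5470_6050.Tab.St.C.s_B00pm_001_s3 hκ hx hx') H

theorem se_B00pm_011_s {κ x : ℝ} (hκ : κ * h0 = ken x) (hx : ((587336777 : ℕ) : ℝ) / S ≤ x) (hx' : x ≤ (((587336777 : ℕ) : ℝ) + (62277027 : ℕ)) / S)
    (H : CutEB 3 κ (eng.v x) (3 / 40) (tnt (h0 * x) (3 / 10)) PP tK tL tC pcB (scP esg pd) (Cut.of [[⟨0, 0, 0, 67108864⟩, ⟨1, 1, 0, 67108864⟩, ⟨2, 1, 0, 67108864⟩]]) 0 1 1 0 0 (sgb true) (sgb false) x) :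
    AltEB 3 κ (eng.v x) (3 / 40) (tnt (h0 * x) (3 / 10)) PP tK tL tC pcB (scP esg pd) [⟨3, 0, 0, 1449551462⟩] 0 1 1 0 0 (sgb true) (sgb false) x :=
  strip_altEB (m := 1449551462) (L := [[⟨0, 0, 0, 67108864⟩, ⟨1, 1, 0, 67108864⟩, ⟨2, 1, 0, 67108864⟩]]) true rfl hκ (κ0 hκ (hx1 hx).le (hx2 hx').le) (hx1 hx).le (hx2 hx') (en_pos (hx1 hx).le)
    (esg_rng (hx1 hx).le (hx2 hx').le).1 (mo_v x) (tnt_den (by norm_num) (by norm_num) (hx1 hx) (hx2 hx')).cont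
    (fun u v => (tnt_osc' (th := 3 / 10) (by norm_num) (by norm_num) (hx1 hx) (hx2 hx') u v).trans (le_of_eq (by ring)))
    covB00 covB01 hx hx' Pool.Agent.Strip051.G.I5470_6050.Tab.CS.BB00.c_pm_011_s noExt_EB
    (Pool.Agent.Strip051.G.I5470_6050.Tab.St.C.s_B00pm_011_s1 hκ hx hx' (H.dir (κ0 hκ (hx1 hx).le (hx2 hx').le) (hx1 hx).le (hx2 hx'))) H

theorem se_B00pm_011_t {κ x : ℝ} (hκ : κ * h0 = ken x) (hx : ((587336777 : ℕ) : ℝ) / S ≤ x) (hx' : x ≤ (((587336777 : ℕ) : ℝ) + (62277027 : ℕ)) / S)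
    (H : CutEB 3 κ (eng.v x) (3 / 40) (tnt (h0 * x) (3 / 10)) PP tK tL tC pcB (scP esg pd) (Cut.of [[⟨0, 0, 0, 67108864⟩, ⟨1, 1, 0, 67108864⟩, ⟨2, 1, 0, 67108864⟩]]) 0 1 1 0 0 (sgb true) (sgb false) x) :
    AltEB 3 κ (eng.v x) (3 / 40) (tnt (h0 * x) (3 / 10)) PP tK tL tC pcB (scP esg pd) [⟨4, 0, 0, 2845415833⟩] 0 1 1 0 0 (sgb true) (sgb false) x :=
  strip_altEB (m := 2845415833) (L := [[⟨0, 0, 0, 67108864⟩, ⟨1, 1, 0, 67108864⟩, ⟨2, 1, 0, 67108864⟩]]) false rfl hκ (κ0 hκ (hx1 hx).le (hx2 hx').le) (hx1 hx).le (hx2 hx') (en_pos (hx1 hx).le)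
    (esg_rng (hx1 hx).le (hx2 hx').le).1 (mo_v x) (tnt_den (by norm_num) (by norm_num) (hx1 hx) (hx2 hx')).cont
    (fun u v => (tnt_osc' (th := 3 / 10) (by norm_num) (by norm_num) (hx1 hx) (hx2 hx') u v).trans (le_of_eq (by ring)))
    covB00 covB01 hx hx' Pool.Agent.Strip051.G.I5470_6050.Tab.CS.BB00.c_pm_011_t noExt_EB
    (Pool.Agent.Strip051.G.I5470_6050.Tab.St.C.s_B00pm_011_s3 hκ hx hx' (H.dir (κ0 hκ (hx1 hx).le (hx2 hx').le) (hx1 hx).le (hx2 hx'))) H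

theorem se_B00pm_012_s {κ x : ℝ} (hκ : κ * h0 = ken x) (hx : ((587336777 : ℕ) : ℝ) / S ≤ x) (hx' : x ≤ (((587336777 : ℕ) : ℝ) + (62277027 : ℕ)) / S)
    (H : CutEB 3 κ (eng.v x) (3 / 40) (tnt (h0 * x) (3 / 10)) PP tK tL tC pcB (scP esg pd) (Cut.of [[⟨0, 0, 0, 67108864⟩, ⟨1, 1, 0, 67108864⟩, ⟨2, 1, 0, 67108864⟩]]) 0 1 2 0 0 (sgb true) (sgb false) x) :
    AltEB 3 κ (eng.v x) (3 / 40) (tnt (h0 * x) (3 / 10)) PP tK tL tC pcB (scP esg pd) [⟨3, 0, 0, 1449551462⟩] 0 1 2 0 0 (sgb true) (sgb false) x :=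
  strip_altEB (m := 1449551462) (L := [[⟨0, 0, 0, 67108864⟩, ⟨1, 1, 0, 67108864⟩, ⟨2, 1, 0, 67108864⟩]]) true rfl hκ (κ0 hκ (hx1 hx).le (hx2 hx').le) (hx1 hx).le (hx2 hx') (en_pos (hx1 hx).le)
    (esg_rng (hx1 hx).le (hx2 hx').le).1 (mo_v x) (tnt_den (by norm_num) (by norm_num) (hx1 hx) (hx2 hx')).cont
    (fun u v => (tnt_osc' (th := 3 / 10) (by norm_num) (by norm_num) (hx1 hx) (hx2 hx') u v).trans (le_of_eq (by ring)))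
    covB00 covB02 hx hx' Pool.Agent.Strip051.G.I5470_6050.Tab.CS.BB00.c_pm_012_s noExt_EB
    (Pool.Agent.Strip051.G.I5470_6050.Tab.St.C.s_B00pm_012_s1 hκ hx hx' (H.dir (κ0 hκ (hx1 hx).le (hx2 hx').le) (hx1 hx).le (hx2 hx'))) H

theorem se_B00pm_012_t {κ x : ℝ} (hκ : κ * h0 = ken x) (hx : ((587336777 : ℕ) : ℝ) / S ≤ x) (hx' : x ≤ (((587336777 : ℕ) : ℝ) + (62277027 : ℕ)) / S)
    (H : CutEB 3 κ (eng.v x) (3 / 40) (tnt (h0 * x) (3 / 10)) PP tK tL tC pcB (scP esg pd) (Cut.of [[⟨0, 0, 0, 67108864⟩, ⟨1, 1, 0, 67108864⟩, ⟨2, 1, 0, 67108864⟩]]) 0 1 2 0 0 (sgb true) (sgb false) x) :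
    AltEB 3 κ (eng.v x) (3 / 40) (tnt (h0 * x) (3 / 10)) PP tK tL tC pcB (scP esg pd) [⟨4, 0, 0, 2845415833⟩] 0 1 2 0 0 (sgb true) (sgb false) x :=
  strip_altEB (m := 2845415833) (L := [[⟨0, 0, 0, 67108864⟩, ⟨1, 1, 0, 67108864⟩, ⟨2, 1, 0, 67108864⟩]]) false rfl hκ (κ0 hκ (hx1 hx).le (hx2 hx').le) (hx1 hx).le (hx2 hx') (en_pos (hx1 hx).le)
    (esg_rng (hx1 hx).le (hx2 hx').le).1 (mo_v x) (tnt_den (by norm_num) (by norm_num) (hx1 hx) (hx2 hx')).cont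
    (fun u v => (tnt_osc' (th := 3 / 10) (by norm_num) (by norm_num) (hx1 hx) (hx2 hx') u v).trans (le_of_eq (by ring)))
    covB00 covB02 hx hx' Pool.Agent.Strip051.G.I5470_6050.Tab.CS.BB00.c_pm_012_t noExt_EB
    (Pool.Agent.Strip051.G.I5470_6050.Tab.St.C.s_B00pm_012_s3 hκ hx hx' (H.dir (κ0 hκ (hx1 hx).le (hx2 hx').le) (hx1 hx).le (hx2 hx'))) H

theorem se_B00pm_022_s {κ x : ℝ} (hκ : κ * h0 = ken x) (hx : ((587336777 : ℕ) : ℝ) / S ≤ x) (hx' : x ≤ (((587336777 : ℕ) : ℝ) + (62277027 : ℕ)) / S)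
    (H : CutEB 3 κ (eng.v x) (3 / 40) (tnt (h0 * x) (3 / 10)) PP tK tL tC pcB (scP esg pd) (Cut.of [[⟨0, 0, 0, 67108864⟩, ⟨1, 1, 0, 67108864⟩, ⟨2, 1, 0, 67108864⟩]]) 0 2 2 0 0 (sgb true) (sgb false) x) :
    AltEB 3 κ (eng.v x) (3 / 40) (tnt (h0 * x) (3 / 10)) PP tK tL tC pcB (scP esg pd) [⟨3, 0, 0, 1449551462⟩] 0 2 2 0 0 (sgb true) (sgb false) x :=
  strip_altEB (m := 1449551462) (L := [[⟨0, 0, 0, 67108864⟩, ⟨1, 1, 0, 67108864⟩, ⟨2, 1, 0, 67108864⟩]]) true rfl hκ (κ0 hκ (hx1 hx).le (hx2 hx').le) (hx1 hx).le (hx2 hx') (en_pos (hx1 hx).le)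
    (esg_rng (hx1 hx).le (hx2 hx').le).1 (mo_v x) (tnt_den (by norm_num) (by norm_num) (hx1 hx) (hx2 hx')).cont
    (fun u v => (tnt_osc' (th := 3 / 10) (by norm_num) (by norm_num) (hx1 hx) (hx2 hx') u v).trans (le_of_eq (by ring)))
    covB00 covB02 hx hx' Pool.Agent.Strip051.G.I5470_6050.Tab.CS.BB00.c_pm_022_s noExt_EB
    (Pool.Agent.Strip051.G.I5470_6050.Tab.St.C.s_B00pm_022_s1 hκ hx hx' (H.dir (κ0 hκ (hx1 hx).le (hx2 hx').le) (hx1 hx).le (hx2 hx'))) H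

theorem se_B00pm_022_t {κ x : ℝ} (hκ : κ * h0 = ken x) (hx : ((587336777 : ℕ) : ℝ) / S ≤ x) (hx' : x ≤ (((587336777 : ℕ) : ℝ) + (62277027 : ℕ)) / S)
    (H : CutEB 3 κ (eng.v x) (3 / 40) (tnt (h0 * x) (3 / 10)) PP tK tL tC pcB (scP esg pd) (Cut.of [[⟨0, 0, 0, 67108864⟩, ⟨1, 1, 0, 67108864⟩, ⟨2, 1, 0, 67108864⟩]]) 0 2 2 0 0 (sgb true) (sgb false) x) :
    AltEB 3 κ (eng.v x) (3 / 40) (tnt (h0 * x) (3 / 10)) PP tK tL tC pcB (scP esg pd) [⟨4, 0, 0, 2845415833⟩] 0 2 2 0 0 (sgb true) (sgb false) x :=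
  strip_altEB (m := 2845415833) (L := [[⟨0, 0, 0, 67108864⟩, ⟨1, 1, 0, 67108864⟩, ⟨2, 1, 0, 67108864⟩]]) false rfl hκ (κ0 hκ (hx1 hx).le (hx2 hx').le) (hx1 hx).le (hx2 hx') (en_pos (hx1 hx).le)
    (esg_rng (hx1 hx).le (hx2 hx').le).1 (mo_v x) (tnt_den (by norm_num) (by norm_num) (hx1 hx) (hx2 hx')).cont
    (fun u v => (tnt_osc' (th := 3 / 10) (by norm_num) (by norm_num) (hx1 hx) (hx2 hx') u v).trans (le_of_eq (by ring)))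
    covB00 covB02 hx hx' Pool.Agent.Strip051.G.I5470_6050.Tab.CS.BB00.c_pm_022_t noExt_EB
    (Pool.Agent.Strip051.G.I5470_6050.Tab.St.C.s_B00pm_022_s3 hκ hx hx' (H.dir (κ0 hκ (hx1 hx).le (hx2 hx').le) (hx1 hx).le (hx2 hx'))) H

theorem se_B00pm_101_s {κ x : ℝ} (hκ : κ * h0 = ken x) (hx : ((587336777 : ℕ) : ℝ) / S ≤ x) (hx' : x ≤ (((587336777 : ℕ) : ℝ) + (62277027 : ℕ)) / S)
    (H : CutEB 3 κ (eng.v x) (3 / 40) (tnt (h0 * x) (3 / 10)) PP tK tL tC pcB (scP esg pd) (Cut.of [[⟨0, 1, 0, 67108864⟩, ⟨1, 0, 0, 67108864⟩, ⟨2, 1, 0, 67108864⟩], [⟨0, 0, 1, 20971520⟩, ⟨1, 1, 2, 20971520⟩, ⟨2, 1, 0, 29360128⟩]]) 1 0 1 0 0 (sgb true) (sgb false) x) :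
    AltEB 3 κ (eng.v x) (3 / 40) (tnt (h0 * x) (3 / 10)) PP tK tL tC pcB (scP esg pd) [⟨3, 0, 0, 1449551462⟩] 1 0 1 0 0 (sgb true) (sgb false) x :=
  strip_altEB (m := 1449551462) (L := [[⟨0, 1, 0, 67108864⟩, ⟨1, 0, 0, 67108864⟩, ⟨2, 1, 0, 67108864⟩], [⟨0, 0, 1, 20971520⟩, ⟨1, 1, 2, 20971520⟩, ⟨2, 1, 0, 29360128⟩]]) true rfl hκ (κ0 hκ (hx1 hx).le (hx2 hx').le) (hx1 hx).le (hx2 hx') (en_pos (hx1 hx).le)
    (esg_rng (hx1 hx).le (hx2 hx').le).1 (mo_v x) (tnt_den (by norm_num) (by norm_num) (hx1 hx) (hx2 hx')).cont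
    (fun u v => (tnt_osc' (th := 3 / 10) (by norm_num) (by norm_num) (hx1 hx) (hx2 hx') u v).trans (le_of_eq (by ring)))
    covB01 covB01 hx hx' Pool.Agent.Strip051.G.I5470_6050.Tab.CS.BB00.c_pm_101_s noExt_EB
    (Pool.Agent.Strip051.G.I5470_6050.Tab.St.C.s_B00pm_101_s1 hκ hx hx' (H.dir (κ0 hκ (hx1 hx).le (hx2 hx').le) (hx1 hx).le (hx2 hx'))) H

theorem se_B00pm_101_t {κ x : ℝ} (hκ : κ * h0 = ken x) (hx : ((587336777 : ℕ) : ℝ) / S ≤ x) (hx' : x ≤ (((587336777 : ℕ) : ℝ) + (62277027 : ℕ)) / S)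
    (H : CutEB 3 κ (eng.v x) (3 / 40) (tnt (h0 * x) (3 / 10)) PP tK tL tC pcB (scP esg pd) (Cut.of [[⟨0, 1, 0, 67108864⟩, ⟨1, 0, 0, 67108864⟩, ⟨2, 1, 0, 67108864⟩], [⟨0, 0, 1, 20971520⟩, ⟨1, 1, 2, 20971520⟩, ⟨2, 1, 0, 29360128⟩]]) 1 0 1 0 0 (sgb true) (sgb false) x) :
    AltEB 3 κ (eng.v x) (3 / 40) (tnt (h0 * x) (3 / 10)) PP tK tL tC pcB (scP esg pd) [⟨4, 0, 0, 2845415833⟩] 1 0 1 0 0 (sgb true) (sgb false) x :=
  strip_altEB (m := 2845415833) (L := [[⟨0, 1, 0, 67108864⟩, ⟨1, 0, 0, 67108864⟩, ⟨2, 1, 0, 67108864⟩], [⟨0, 0, 1, 20971520⟩, ⟨1, 1, 2, 20971520⟩, ⟨2, 1, 0, 29360128⟩]]) false rfl hκ (κ0 hκ (hx1 hx).le (hx2 hx').le) (hx1 hx).le (hx2 hx') (en_pos (hx1 hx).le)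
    (esg_rng (hx1 hx).le (hx2 hx').le).1 (mo_v x) (tnt_den (by norm_num) (by norm_num) (hx1 hx) (hx2 hx')).cont
    (fun u v => (tnt_osc' (th := 3 / 10) (by norm_num) (by norm_num) (hx1 hx) (hx2 hx') u v).trans (le_of_eq (by ring)))
    covB01 covB01 hx hx' Pool.Agent.Strip051.G.I5470_6050.Tab.CS.BB00.c_pm_101_t noExt_EB
    (Pool.Agent.Strip051.G.I5470_6050.Tab.St.C.s_B00pm_101_s3 hκ hx hx' (H.dir (κ0 hκ (hx1 hx).le (hx2 hx').le) (hx1 hx).le (hx2 hx'))) H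

theorem se_B00pm_102_s {κ x : ℝ} (hκ : κ * h0 = ken x) (hx : ((587336777 : ℕ) : ℝ) / S ≤ x) (hx' : x ≤ (((587336777 : ℕ) : ℝ) + (62277027 : ℕ)) / S)
    (H : CutEB 3 κ (eng.v x) (3 / 40) (tnt (h0 * x) (3 / 10)) PP tK tL tC pcB (scP esg pd) (Cut.of [[⟨0, 1, 0, 67108864⟩, ⟨1, 0, 0, 67108864⟩, ⟨2, 1, 0, 67108864⟩], [⟨0, 0, 1, 20971520⟩, ⟨1, 1, 2, 20971520⟩, ⟨2, 1, 0, 29360128⟩]]) 1 0 2 0 0 (sgb true) (sgb false) x) :
    AltEB 3 κ (eng.v x) (3 / 40) (tnt (h0 * x) (3 / 10)) PP tK tL tC pcB (scP esg pd) [⟨3, 0, 0, 1449551462⟩] 1 0 2 0 0 (sgb true) (sgb false) x :=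
  strip_altEB (m := 1449551462) (L := [[⟨0, 1, 0, 67108864⟩, ⟨1, 0, 0, 67108864⟩, ⟨2, 1, 0, 67108864⟩], [⟨0, 0, 1, 20971520⟩, ⟨1, 1, 2, 20971520⟩, ⟨2, 1, 0, 29360128⟩]]) true rfl hκ (κ0 hκ (hx1 hx).le (hx2 hx').le) (hx1 hx).le (hx2 hx') (en_pos (hx1 hx).le)
    (esg_rng (hx1 hx).le (hx2 hx').le).1 (mo_v x) (tnt_den (by norm_num) (by norm_num) (hx1 hx) (hx2 hx')).cont
    (fun u v => (tnt_osc' (th := 3 / 10) (by norm_num) (by norm_num) (hx1 hx) (hx2 hx') u v).trans (le_of_eq (by ring)))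
    covB01 covB02 hx hx' Pool.Agent.Strip051.G.I5470_6050.Tab.CS.BB00.c_pm_102_s noExt_EB
    (Pool.Agent.Strip051.G.I5470_6050.Tab.St.C.s_B00pm_102_s1 hκ hx hx' (H.dir (κ0 hκ (hx1 hx).le (hx2 hx').le) (hx1 hx).le (hx2 hx'))) H

theorem se_B00pm_102_t {κ x : ℝ} (hκ : κ * h0 = ken x) (hx : ((587336777 : ℕ) : ℝ) / S ≤ x) (hx' : x ≤ (((587336777 : ℕ) : ℝ) + (62277027 : ℕ)) / S)
    (H : CutEB 3 κ (eng.v x) (3 / 40) (tnt (h0 * x) (3 / 10)) PP tK tL tC pcB (scP esg pd) (Cut.of [[⟨0, 1, 0, 67108864⟩, ⟨1, 0, 0, 67108864⟩, ⟨2, 1, 0, 67108864⟩], [⟨0, 0, 1, 20971520⟩, ⟨1, 1, 2, 20971520⟩, ⟨2, 1, 0, 29360128⟩]]) 1 0 2 0 0 (sgb true) (sgb false) x) :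
    AltEB 3 κ (eng.v x) (3 / 40) (tnt (h0 * x) (3 / 10)) PP tK tL tC pcB (scP esg pd) [⟨4, 0, 0, 2845415833⟩] 1 0 2 0 0 (sgb true) (sgb false) x :=
  strip_altEB (m := 2845415833) (L := [[⟨0, 1, 0, 67108864⟩, ⟨1, 0, 0, 67108864⟩, ⟨2, 1, 0, 67108864⟩], [⟨0, 0, 1, 20971520⟩, ⟨1, 1, 2, 20971520⟩, ⟨2, 1, 0, 29360128⟩]]) false rfl hκ (κ0 hκ (hx1 hx).le (hx2 hx').le) (hx1 hx).le (hx2 hx') (en_pos (hx1 hx).le)
    (esg_rng (hx1 hx).le (hx2 hx').le).1 (mo_v x) (tnt_den (by norm_num) (by norm_num) (hx1 hx) (hx2 hx')).cont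
    (fun u v => (tnt_osc' (th := 3 / 10) (by norm_num) (by norm_num) (hx1 hx) (hx2 hx') u v).trans (le_of_eq (by ring)))
    covB01 covB02 hx hx' Pool.Agent.Strip051.G.I5470_6050.Tab.CS.BB00.c_pm_102_t noExt_EB
    (Pool.Agent.Strip051.G.I5470_6050.Tab.St.C.s_B00pm_102_s3 hκ hx hx' (H.dir (κ0 hκ (hx1 hx).le (hx2 hx').le) (hx1 hx).le (hx2 hx'))) H

theorem se_B00pm_112_s {κ x : ℝ} (hκ : κ * h0 = ken x) (hx : ((587336777 : ℕ) : ℝ) / S ≤ x) (hx' : x ≤ (((587336777 : ℕ) : ℝ) + (62277027 : ℕ)) / S)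
    (H : CutEB 3 κ (eng.v x) (3 / 40) (tnt (h0 * x) (3 / 10)) PP tK tL tC pcB (scP esg pd) (Cut.of []) 1 1 2 0 0 (sgb true) (sgb false) x) :
    AltEB 3 κ (eng.v x) (3 / 40) (tnt (h0 * x) (3 / 10)) PP tK tL tC pcB (scP esg pd) [⟨3, 0, 0, 1449551462⟩] 1 1 2 0 0 (sgb true) (sgb false) x :=
  strip_altEB (m := 1449551462) (L := []) true rfl hκ (κ0 hκ (hx1 hx).le (hx2 hx').le) (hx1 hx).le (hx2 hx') (en_pos (hx1 hx).le)
    (esg_rng (hx1 hx).le (hx2 hx').le).1 (mo_v x) (tnt_den (by norm_num) (by norm_num) (hx1 hx) (hx2 hx')).cont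
    (fun u v => (tnt_osc' (th := 3 / 10) (by norm_num) (by norm_num) (hx1 hx) (hx2 hx') u v).trans (le_of_eq (by ring)))
    covB01 covB02 hx hx' Pool.Agent.Strip051.G.I5470_6050.Tab.CS.BB00.c_pm_112_s noExt_EB
    (Pool.Agent.Strip051.G.I5470_6050.Tab.St.C.s_B00pm_112_s1 hκ hx hx') H

theorem se_B00pm_112_t {κ x : ℝ} (hκ : κ * h0 = ken x) (hx : ((587336777 : ℕ) : ℝ) / S ≤ x) (hx' : x ≤ (((587336777 : ℕ) : ℝ) + (62277027 : ℕ)) / S)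
    (H : CutEB 3 κ (eng.v x) (3 / 40) (tnt (h0 * x) (3 / 10)) PP tK tL tC pcB (scP esg pd) (Cut.of []) 1 1 2 0 0 (sgb true) (sgb false) x) :
    AltEB 3 κ (eng.v x) (3 / 40) (tnt (h0 * x) (3 / 10)) PP tK tL tC pcB (scP esg pd) [⟨4, 0, 0, 2845415833⟩] 1 1 2 0 0 (sgb true) (sgb false) x :=
  strip_altEB (m := 2845415833) (L := []) false rfl hκ (κ0 hκ (hx1 hx).le (hx2 hx').le) (hx1 hx).le (hx2 hx') (en_pos (hx1 hx).le)
    (esg_rng (hx1 hx).le (hx2 hx').le).1 (mo_v x) (tnt_den (by norm_num) (by norm_num) (hx1 hx) (hx2 hx')).cont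
    (fun u v => (tnt_osc' (th := 3 / 10) (by norm_num) (by norm_num) (hx1 hx) (hx2 hx') u v).trans (le_of_eq (by ring)))
    covB01 covB02 hx hx' Pool.Agent.Strip051.G.I5470_6050.Tab.CS.BB00.c_pm_112_t noExt_EB
    (Pool.Agent.Strip051.G.I5470_6050.Tab.St.C.s_B00pm_112_s3 hκ hx hx') H

theorem se_B00pm_202_s {κ x : ℝ} (hκ : κ * h0 = ken x) (hx : ((587336777 : ℕ) : ℝ) / S ≤ x) (hx' : x ≤ (((587336777 : ℕ) : ℝ) + (62277027 : ℕ)) / S)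
    (H : CutEB 3 κ (eng.v x) (3 / 40) (tnt (h0 * x) (3 / 10)) PP tK tL tC pcB (scP esg pd) (Cut.of [[⟨0, 1, 0, 67108864⟩, ⟨1, 0, 0, 67108864⟩, ⟨2, 1, 0, 67108864⟩]]) 2 0 2 0 0 (sgb true) (sgb false) x) :
    AltEB 3 κ (eng.v x) (3 / 40) (tnt (h0 * x) (3 / 10)) PP tK tL tC pcB (scP esg pd) [⟨3, 0, 0, 1449551462⟩] 2 0 2 0 0 (sgb true) (sgb false) x :=
  strip_altEB (m := 1449551462) (L := [[⟨0, 1, 0, 67108864⟩, ⟨1, 0, 0, 67108864⟩, ⟨2, 1, 0, 67108864⟩]]) true rfl hκ (κ0 hκ (hx1 hx).le (hx2 hx').le) (hx1 hx).le (hx2 hx') (en_pos (hx1 hx).le)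
    (esg_rng (hx1 hx).le (hx2 hx').le).1 (mo_v x) (tnt_den (by norm_num) (by norm_num) (hx1 hx) (hx2 hx')).cont
    (fun u v => (tnt_osc' (th := 3 / 10) (by norm_num) (by norm_num) (hx1 hx) (hx2 hx') u v).trans (le_of_eq (by ring)))
    covB02 covB02 hx hx' Pool.Agent.Strip051.G.I5470_6050.Tab.CS.BB00.c_pm_202_s noExt_EB
    (Pool.Agent.Strip051.G.I5470_6050.Tab.St.C.s_B00pm_202_s1 hκ hx hx' (H.dir (κ0 hκ (hx1 hx).le (hx2 hx').le) (hx1 hx).le (hx2 hx'))) H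

theorem se_B00pm_202_t {κ x : ℝ} (hκ : κ * h0 = ken x) (hx : ((587336777 : ℕ) : ℝ) / S ≤ x) (hx' : x ≤ (((587336777 : ℕ) : ℝ) + (62277027 : ℕ)) / S)
    (H : CutEB 3 κ (eng.v x) (3 / 40) (tnt (h0 * x) (3 / 10)) PP tK tL tC pcB (scP esg pd) (Cut.of [[⟨0, 1, 0, 67108864⟩, ⟨1, 0, 0, 67108864⟩, ⟨2, 1, 0, 67108864⟩]]) 2 0 2 0 0 (sgb true) (sgb false) x) :
    AltEB 3 κ (eng.v x) (3 / 40) (tnt (h0 * x) (3 / 10)) PP tK tL tC pcB (scP esg pd) [⟨4, 0, 0, 2845415833⟩] 2 0 2 0 0 (sgb true) (sgb false) x :=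
  strip_altEB (m := 2845415833) (L := [[⟨0, 1, 0, 67108864⟩, ⟨1, 0, 0, 67108864⟩, ⟨2, 1, 0, 67108864⟩]]) false rfl hκ (κ0 hκ (hx1 hx).le (hx2 hx').le) (hx1 hx).le (hx2 hx') (en_pos (hx1 hx).le)
    (esg_rng (hx1 hx).le (hx2 hx').le).1 (mo_v x) (tnt_den (by norm_num) (by norm_num) (hx1 hx) (hx2 hx')).cont
    (fun u v => (tnt_osc' (th := 3 / 10) (by norm_num) (by norm_num) (hx1 hx) (hx2 hx') u v).trans (le_of_eq (by ring)))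
    covB02 covB02 hx hx' Pool.Agent.Strip051.G.I5470_6050.Tab.CS.BB00.c_pm_202_t noExt_EB
    (Pool.Agent.Strip051.G.I5470_6050.Tab.St.C.s_B00pm_202_s3 hκ hx hx' (H.dir (κ0 hκ (hx1 hx).le (hx2 hx').le) (hx1 hx).le (hx2 hx'))) H

theorem se_B00mm_001_s {κ x : ℝ} (hκ : κ * h0 = ken x) (hx : ((587336777 : ℕ) : ℝ) / S ≤ x) (hx' : x ≤ (((587336777 : ℕ) : ℝ) + (62277027 : ℕ)) / S)
    (H : CutEB 3 κ (eng.v x) (3 / 40) (tnt (h0 * x) (3 / 10)) PP tK tL tC pcB (scP esg pd) (Cut.of []) 0 0 1 0 0 (sgb false) (sgb false) x) :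
    AltEB 3 κ (eng.v x) (3 / 40) (tnt (h0 * x) (3 / 10)) PP tK tL tC pcB (scP esg pd) [⟨3, 0, 0, 1449551462⟩] 0 0 1 0 0 (sgb false) (sgb false) x :=
  strip_altEB (m := 1449551462) (L := []) true rfl hκ (κ0 hκ (hx1 hx).le (hx2 hx').le) (hx1 hx).le (hx2 hx') (en_pos (hx1 hx).le)
    (esg_rng (hx1 hx).le (hx2 hx').le).1 (mo_v x) (tnt_den (by norm_num) (by norm_num) (hx1 hx) (hx2 hx')).cont
    (fun u v => (tnt_osc' (th := 3 / 10) (by norm_num) (by norm_num) (hx1 hx) (hx2 hx') u v).trans (le_of_eq (by ring)))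
    covB00 covB01 hx hx' Pool.Agent.Strip051.G.I5470_6050.Tab.CS.BB00.c_mm_001_s noExt_EB
    (Pool.Agent.Strip051.G.I5470_6050.Tab.St.C.s_B00mm_001_s1 hκ hx hx') H

theorem se_B00mm_001_t {κ x : ℝ} (hκ : κ * h0 = ken x) (hx : ((587336777 : ℕ) : ℝ) / S ≤ x) (hx' : x ≤ (((587336777 : ℕ) : ℝ) + (62277027 : ℕ)) / S)
    (H : CutEB 3 κ (eng.v x) (3 / 40) (tnt (h0 * x) (3 / 10)) PP tK tL tC pcB (scP esg pd) (Cut.of []) 0 0 1 0 0 (sgb false) (sgb false) x) :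
    AltEB 3 κ (eng.v x) (3 / 40) (tnt (h0 * x) (3 / 10)) PP tK tL tC pcB (scP esg pd) [⟨4, 0, 0, 2845415833⟩] 0 0 1 0 0 (sgb false) (sgb false) x :=
  strip_altEB (m := 2845415833) (L := []) false rfl hκ (κ0 hκ (hx1 hx).le (hx2 hx').le) (hx1 hx).le (hx2 hx') (en_pos (hx1 hx).le)
    (esg_rng (hx1 hx).le (hx2 hx').le).1 (mo_v x) (tnt_den (by norm_num) (by norm_num) (hx1 hx) (hx2 hx')).cont
    (fun u v => (tnt_osc' (th := 3 / 10) (by norm_num) (by norm_num) (hx1 hx) (hx2 hx') u v).trans (le_of_eq (by ring)))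
    covB00 covB01 hx hx' Pool.Agent.Strip051.G.I5470_6050.Tab.CS.BB00.c_mm_001_t noExt_EB
    (Pool.Agent.Strip051.G.I5470_6050.Tab.St.C.s_B00mm_001_s3 hκ hx hx') H

theorem se_B00mm_011_s {κ x : ℝ} (hκ : κ * h0 = ken x) (hx : ((587336777 : ℕ) : ℝ) / S ≤ x) (hx' : x ≤ (((587336777 : ℕ) : ℝ) + (62277027 : ℕ)) / S)
    (H : CutEB 3 κ (eng.v x) (3 / 40) (tnt (h0 * x) (3 / 10)) PP tK tL tC pcB (scP esg pd) (Cut.of []) 0 1 1 0 0 (sgb false) (sgb false) x) :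
    AltEB 3 κ (eng.v x) (3 / 40) (tnt (h0 * x) (3 / 10)) PP tK tL tC pcB (scP esg pd) [⟨3, 0, 0, 1449551462⟩] 0 1 1 0 0 (sgb false) (sgb false) x :=
  strip_altEB (m := 1449551462) (L := []) true rfl hκ (κ0 hκ (hx1 hx).le (hx2 hx').le) (hx1 hx).le (hx2 hx') (en_pos (hx1 hx).le)
    (esg_rng (hx1 hx).le (hx2 hx').le).1 (mo_v x) (tnt_den (by norm_num) (by norm_num) (hx1 hx) (hx2 hx')).cont
    (fun u v => (tnt_osc' (th := 3 / 10) (by norm_num) (by norm_num) (hx1 hx) (hx2 hx') u v).trans (le_of_eq (by ring)))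
    covB00 covB01 hx hx' Pool.Agent.Strip051.G.I5470_6050.Tab.CS.BB00.c_mm_011_s noExt_EB
    (Pool.Agent.Strip051.G.I5470_6050.Tab.St.C.s_B00mm_011_s1 hκ hx hx') H

theorem se_B00mm_011_t {κ x : ℝ} (hκ : κ * h0 = ken x) (hx : ((587336777 : ℕ) : ℝ) / S ≤ x) (hx' : x ≤ (((587336777 : ℕ) : ℝ) + (62277027 : ℕ)) / S)
    (H : CutEB 3 κ (eng.v x) (3 / 40) (tnt (h0 * x) (3 / 10)) PP tK tL tC pcB (scP esg pd) (Cut.of []) 0 1 1 0 0 (sgb false) (sgb false) x) :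
    AltEB 3 κ (eng.v x) (3 / 40) (tnt (h0 * x) (3 / 10)) PP tK tL tC pcB (scP esg pd) [⟨4, 0, 0, 2845415833⟩] 0 1 1 0 0 (sgb false) (sgb false) x :=
  strip_altEB (m := 2845415833) (L := []) false rfl hκ (κ0 hκ (hx1 hx).le (hx2 hx').le) (hx1 hx).le (hx2 hx') (en_pos (hx1 hx).le)
    (esg_rng (hx1 hx).le (hx2 hx').le).1 (mo_v x) (tnt_den (by norm_num) (by norm_num) (hx1 hx) (hx2 hx')).cont
    (fun u v => (tnt_osc' (th := 3 / 10) (by norm_num) (by norm_num) (hx1 hx) (hx2 hx') u v).trans (le_of_eq (by ring)))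
    covB00 covB01 hx hx' Pool.Agent.Strip051.G.I5470_6050.Tab.CS.BB00.c_mm_011_t noExt_EB
    (Pool.Agent.Strip051.G.I5470_6050.Tab.St.C.s_B00mm_011_s3 hκ hx hx') H

theorem se_B00mm_012_s {κ x : ℝ} (hκ : κ * h0 = ken x) (hx : ((587336777 : ℕ) : ℝ) / S ≤ x) (hx' : x ≤ (((587336777 : ℕ) : ℝ) + (62277027 : ℕ)) / S)
    (H : CutEB 3 κ (eng.v x) (3 / 40) (tnt (h0 * x) (3 / 10)) PP tK tL tC pcB (scP esg pd) (Cut.of []) 0 1 2 0 0 (sgb false) (sgb false) x) :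
    AltEB 3 κ (eng.v x) (3 / 40) (tnt (h0 * x) (3 / 10)) PP tK tL tC pcB (scP esg pd) [⟨3, 0, 0, 1449551462⟩] 0 1 2 0 0 (sgb false) (sgb false) x :=
  strip_altEB (m := 1449551462) (L := []) true rfl hκ (κ0 hκ (hx1 hx).le (hx2 hx').le) (hx1 hx).le (hx2 hx') (en_pos (hx1 hx).le)
    (esg_rng (hx1 hx).le (hx2 hx').le).1 (mo_v x) (tnt_den (by norm_num) (by norm_num) (hx1 hx) (hx2 hx')).cont
    (fun u v => (tnt_osc' (th := 3 / 10) (by norm_num) (by norm_num) (hx1 hx) (hx2 hx') u v).trans (le_of_eq (by ring)))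
    covB00 covB02 hx hx' Pool.Agent.Strip051.G.I5470_6050.Tab.CS.BB00.c_mm_012_s noExt_EB
    (Pool.Agent.Strip051.G.I5470_6050.Tab.St.C.s_B00mm_012_s1 hκ hx hx') H

end Pool.Agent.Strip051.G.I5470_6050.Tab.SE
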