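import Pool.Agent.Strip051.G.I5470_6050.Tab
import Pool.Agent.Strip051.PB.ExtD2

/-! # Certificates B4 (generated) -/

set_option linter.all false
set_option maxRecDepth 100000

namespace Pool.Agent.Strip051.G.I5470_6050.Tab.C.BA01

open Pool.Agent.Strip051.PB Pool.Agent.Strip051.PB.T
open Pool.Agent.Strip051.G.I5470_6050.Tab

noncomputable def cut_pp_022_a : Cut := Cut.of [[⟨0, 0, 0, 67108864⟩, ⟨1, 1, 0, 67108864⟩, ⟨2, 1, 0, 67108864⟩]]

noncomputable def f_pp_022_a : ℕ → ℕ → ℕ → ℕ → Bool := onCell 0 536870912 0 536870912 587336777 62277027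
    (rowB 3 eng mog cd0q0 cd1q2a pd2 0 true true true .pp 0 2 2 (qsf 0 536870912 0 536870912 2) ndB0q0 ndB1q2a pcB2 cut_pp_022_a Ext.none)

def k0_pp_022_a : ∃ t, chk3 f_pp_022_a t 4 4 1 = true :=
  ⟨(a (a (b (a (l 16457552) (l 16463744)) (a (b (l 16463816) (l 16492048)) (b (l 16471256) (b (l 16518816) (l 16481328))))) (b (l 16471904) (b (l 16502664) (l 16490824)))) (b (a (l 16485448) (l 16542912)) (a (b (l 16495152) (l 16505864)) (l 16515992)))), by decide +kernel⟩

def k1_pp_022_a : ∃ t, chk3 f_pp_022_a t 8 5 1 = true :=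
  ⟨(a (b (a (b (a (l 16478648) (l 16482712)) (a (l 16493216) (b (l 16491464) (l 16498176)))) (b (a (l 16486968) (l 16491384)) (b (a (l 16495864) (l 16500448)) (l 16525968)))) (a (b (a (b (c (l 16502104) (l 16500544)) (l 16509072)) (b (l 16505536) (l 16513608))) (a (b (l 16528248) (l 16537656)) (b (c (l 16523392) (l 16521824)) (c (l 16532624) (l 16531624))))) (b (b (a (l 16510136) (l 16514912)) (a (l 16518320) (l 16523208))) (a (b (c (l 16528616) (l 16526248)) (b (l 16534384) (l 16539400))) (b (l 16547976) (c (l 16543416) (l 16540952))))))) (b (b (a (l 16497872) (l 16506232)) (a (a (b (l 16505120) (l 16512192)) (l 16513360)) (b (l 16516392) (l 16524008)))) (a (b (b (a (a (l 16518616) (l 16521128)) (l 16524864)) (a (l 16528264) (a (b (l 16529928) (l 16534376)) (l 16534752)))) (a (b (c (l 16539496) (l 16535680)) (c (l 16549016) (l 16545896))) (b (a (l 16541392) (b (l 16541664) (l 16546496))) (c (l 16554752) (l 16551024))))) (b (b (a (l 16529784) (l 16534672)) (a (l 16538592) (l 16543696)))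 (b (a (a (a (l 16556592) (l 16547440)) (l 16549440)) (c (l 16555696) (l 16551480))) (a (a (b (c (l 16556576) (l 16552312)) (l 16568688)) (b (l 16557032) (c (l 16564504) (l 16560480)))) (c (l 16565968) (l 16562024)))))))), by decide +kernel⟩

def k2_pp_022_a : ∃ t, chk3 f_pp_022_a t 9 5 1 = true :=
  ⟨(b (a (b (a (l 16514568) (l 16523008)) (a (l 16571344) (l 16533888))) (b (l 16536040) (a (l 16548016) (l 16557680)))) (a (b (a (b (l 16562992) (a (l 16548808) (l 16553936))) (b (l 16551872) (a (l 16559064) (l 16564208)))) (a (a (b (l 16558752) (c (l 16571392) (l 16567672))) (b (l 16564088) (c (l 16576832) (l 16573304)))) (b (a (l 16569424) (l 16574784)) (a (l 16601448) (l 16586048))))) (b (a (a (l 16606344) (l 16611480)) (b (l 16593040) (l 16603584))) (a (b (a (l 16580176) (l 16585616)) (a (l 16591648) (l 16597296))) (a (b (l 16591112) (l 16603000)) (a (l 16632792) (l 16635656))))))), by decide +kernel⟩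

def k3_pp_022_a : ∃ t, chk3 f_pp_022_a t 5 2 1 = true :=
  ⟨(b (a (b (a (b (l 16514456) (l 16520792)) (b (a (l 16525808) (l 16536264)) (l 16539672))) (a (l 16534920) (l 16618888))) (a (b (b (l 16551632) (l 16571112)) (l 16607048)) (b (l 16663048) (a (l 16611416) (l 16648688))))) (a (b (b (a (l 16554992) (l 16618832)) (a (a (l 16567752) (l 16578376)) (a (l 16589720) (l 16601976)))) (a (b (a (b (l 16582648) (l 16593568)) (b (l 16593720) (l 16604952))) (b (a (l 16615712) (l 16637912)) (a (a (l 16635600) (l 16620584)) (b (l 16626392) (l 16653920))))) (b (a (b (l 16605408) (l 16616904)) (b (l 16617928) (l 16629632))) (b (a (l 16650160) (l 16663120)) (a (c (l 16664352) (l 16662232)) (a (l 16673048) (l 16679848))))))) (b (a (b (l 16666160) (a (l 16656048) (l 16627216))) (b (l 16699192) (a (l 16664568) (l 16680560)))) (a (b (a (a (l 16654880) (b (l 16634384) (l 16646680))) (c (l 16681704) (l 16679864))) (b (a (l 16667760) (a (l 16687296) (l 16672560))) (a (a (l 16686880) (l 16694056)) (a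 (b (l 16697696) (l 16704800)) (c (l 16708792) (l 16707344)))))) (b (a (c (l 16689624) (l 16689312)) (b (l 16694512) (l 16705944))) (a (b (l 16705024) (a (l 16714592) (l 16716080))) (a (b (l 16715016) (l 16723800)) (b (l 16722840) (l 16730328))))))))), by decide +kernel⟩

def k4_pp_022_a : ∃ t, chk3 f_pp_022_a t 8 12 1 = true :=
  ⟨(a (b (a (b (a (c (l 16537288) (l 16536912)) (c (l 16542584) (l 16542208))) (a (c (l 16547800) (l 16546760)) (l 16553296))) (b (a (c (b (l 16545400) (l 16550624)) (l 16546912)) (b (l 16549808) (l 16555264))) (a (l 16568984) (b (c (l 16561680) (l 16560456)) (l 16566784))))) (b (a (a (c (l 16558824) (l 16557104)) (l 16564376)) (a (l 16570424) (l 16575992))) (a (a (c (l 16570400) (l 16568040)) (l 16575992)) (a (l 16582424) (l 16588672))))) (b (a (b (a (b (l 16555168) (l 16560688)) (b (l 16560688) (l 16566272))) (a (b (l 16566408) (c (l 16573176) (l 16571760))) (b (l 16572048) (l 16578032)))) (a (b (b (a (l 16564936) (c (l 16569840) (l 16566072))) (a (l 16570552)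 (l 16573464))) (b (l 16577840) (l 16583880))) (a (b (b (l 16570672) (c (l 16578288) (l 16574768))) (b (a (l 16581544) (l 16583032)) (l 16588376))) (b (l 16576416) (b (l 16585264) (c (l 16593000) (l 16590064))))))) (b (a (a (b (l 16578464) (l 16584800)) (b (l 16584224) (l 16590624))) (a (b (l 16590136) (l 16596600)) (b (a (l 16594672) (l 16597744)) (l 16602728)))) (a (c (l 16608352) (l 16605424)) (a (l 16606656) (b (l 16609448) (l 16616280))))))), by decide +kernel⟩

def k5_pp_022_a : ∃ t, chk3 f_pp_022_a t 8 13 1 = true :=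
  ⟨(a (b (a (a (b (l 16581280) (l 16593776)) (b (c (l 16589232) (l 16587080)) (l 16601112))) (b (a (l 16595040) (l 16601632)) (a (b (l 16604848) (l 16611592)) (l 16615176)))) (b (a (a (l 16606896) (l 16614584)) (a (l 16622048) (a (l 16627528) (l 16631136)))) (a (a (l 16620920) (l 16628896)) (a (l 16636648) (l 16644224))))) (b (b (a (a (l 16608080) (l 16614424)) (a (l 16620616) (l 16626952))) (b (a (l 16621736) (l 16634808)) (a (l 16628928) (l 16642384)))) (a (b (b (l 16636272) (l 16643752)) (a (l 16656896) (b (l 16655024) (l 16662912)))) (b (a (l 16650520) (l 16657448)) (a (l 16666232) (l 16673440)))))), by decide +kernel⟩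

def k6_pp_022_a : ∃ t, chk3 f_pp_022_a t 9 12 1 = true :=
  ⟨(a (b (b (a (a (c (l 16582552) (l 16579168)) (c (l 16588216) (l 16585016))) (a (c (l 16593888) (l 16590864)) (l 16601968))) (a (a (c (l 16594432) (l 16591456)) (c (l 16600312) (l 16597512))) (a (c (l 16606200) (l 16603560)) (c (l 16612104) (l 16609624))))) (a (b (a (a (b (l 16600832) (l 16607416)) (b (l 16603904) (l 16610560))) (b (l 16608496) (l 16615232))) (b (a (a (l 16614184) (l 16627864)) (l 16622152)) (a (l 16622680) (a (l 16632792) (l 16630776))))) (b (a (b (l 16614632) (l 16621472)) (b (l 16620784) (l 16627728))) (a (b (l 16628488) (l 16635608)) (b (l 16634848) (l 16642072)))))) (b (a (b (a (l 16609088) (l 16614936)) (b (a (l 16613448) (l 16619456)) (a (l 16620104) (l 16626224)))) (b (a (b (l 16612352) (l 16618840)) (l 16642552)) (a (b (l 16625520) (l 16632392)) (l 16635144)))) (a (b (a (b (l 16626960) (l 16634008)) (a (l 16653544) (l 16659312))) (a (l 16644912) (l 16651392))) (b (a (l 16643088) (l 16649480)) (c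 (l 16672376) (l 16665912)))))), by decide +kernel⟩

def k7_pp_022_a : ∃ t, chk3 f_pp_022_a t 9 13 1 = true :=
  ⟨(a (b (a (a (b (l 16633440) (l 16648504)) (b (b (a (l 16634704) (l 16658968)) (l 16643728)) (l 16655240))) (b (a (b (l 16642912) (l 16650416)) (l 16653288)) (a (b (l 16663352) (l 16676496)) (l 16668896)))) (a (b (a (l 16664360) (l 16671256)) (b (l 16690496) (l 16695896))) (a (b (b (l 16674120) (l 16682304)) (l 16705408)) (b (b (l 16702080) (l 16710352)) (b (l 16708264) (l 16706392)))))) (b (a (b (a (l 16659936) (l 16666616)) (b (l 16685584) (l 16693744))) (b (b (l 16683248) (l 16685968)) (a (l 16689576) (l 16701824)))) (a (b (b (l 16702104) (l 16710528)) (b (a (l 16715472) (l 16712208)) (a (a (l 16711848) (l 16715504)) (l 16720992)))) (a (b (l 16714392) (c (l 16734544) (l 16734328))) (b (c (l 16724384) (l 16724096)) (b (l 16726832) (l 16746288))))))), by decide +kernel⟩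

def k8_pp_022_a : ∃ t, chk3 f_pp_022_a t 8 14 1 = true :=
  ⟨(a (a (a (b (b (a (l 16633520) (l 16637720)) (a (l 16659392) (l 16674216))) (b (a (l 6) (b (l 16665768) (l 6))) (l 6))) (b (b (b (l 16640056) (l 16647720)) (a (l 16678496) (l 16682712))) (b (b (l 16672264) (a (l 16678912) (l 16683232))) (a (l 6) (b (l 16692296) (l 6)))))) (b (b (a (l 16662432) (l 16672912)) (a (a (l 16686880) (l 16690992)) (b (l 16671912) (l 16680288)))) (b (a (a (b (l 16678640) (l 16687504)) (l 16700392)) (b (l 16689016) (l 16708464))) (a (b (a (l 16696600) (l 16700864)) (a (l 6) (l 16710240))) (b (a (l 16705080) (l 16709248)) (a (l 16714488) (l 16718696))))))) (a (b (a (b (b (l 16663448) (l 16671552)) (b (l 16679840) (l 16688344))) (b (b (l 16670976) (l 16679224)) (b (l 16687648) (l 16696272)))) (a (b (b (l 16697144) (l 16716664)) (b (a (l 16713384) (l 16717488)) (a (l 16722872) (l 16727008)))) (b (b (l 16705152) (a (l 16712240) (l 16716256))) (b (c (l 16734696) (l 16733416)) (a (l 16741600) (l 16740440))))))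 (a (b (b (b (l 16678432) (l 16686816)) (b (l 16695384) (l 16704120))) (b (b (l 16723544) (c (l 16733296) (l 16732104))) (a (b (l 16729632) (b (l 16736816) (l 16741688))) (b (l 16738872) (c (l 16748872) (l 16748184)))))) (b (b (l 16690112) (b (l 16703056) (l 16722400))) (a (b (b (l 16718952) (l 16728168)) (b (l 16742864) (b (l 16744856) (l 16755000)))) (b (b (l 16722872) (l 16742600)) (b (a (l 16751088) (l 16753072)) (b (l 16759336) (a (l 16752768) (l 16760016)))))))))), by decide +kernel⟩

def k9_pp_022_a : ∃ t, chk3 f_pp_022_a t 16 15 1 = true :=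
  ⟨(b (a (l 6) (b (a (l 6) (b (a (l 16729384) (l 16733624)) (a (l 6) (a (l 16742504) (l 16744632))))) (l 6))) (l 6)), by decide +kernel⟩

def k10_pp_022_a : ∃ t, chk3 f_pp_022_a t 34 30 1 = true :=
  ⟨(b (a (b (a (c (l 16733216) (l 16731936)) (c (l 16737304) (l 16736208))) (b (a (l 16740040) (l 16744240)) (a (l 16750344) (l 16754560)))) (a (b (c (l 16746608) (l 16745688)) (b (l 16753656) (c (l 16753800) (l 16753200)))) (b (a (l 16749248) (l 16751296)) (b (l 16755176) (a (l 16761872) (l 16763944)))))) (b (b (a (a (c (l 16750656) (l 16749888)) (c (l 16760040) (l 16759448))) (a (a (l 16762896) (l 16762368)) (c (l 16765616) (l 16765368)))) (a (a (l 6) (a (l 16761328) (a (l 16765536) (l 16763968)))) (a (c (b (l 16767368) (l 16768008)) (l 16766472)) (a (c (l 16769776) (l 16769672)) (b (l 16767856) (a (l 16772608) (a (l 16773336) (l 16773176)))))))) (a (a (l 6) (a (l 6) (b (c (l 16768848) (l 16768688)) (l 6)))) (b (b (a (c (l 16769968) (l 16770544)) (a (a (l 16772512) (b (l 16770880) (l 16773464)))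 (b (a (l 16773176) (l 4)) (l 4)))) (a (a (l 16771560) (b (l 16772928) (a (l 16773032) (l 16774048)))) (b (a (c (l 22246582711) (l 20635970103)) (l 4)) (l 4)))) (a (b (a (a (l 6) (b (l 16773320) (l 4))) (l 4)) (l 4)) (l 4)))))), by decide +kernel⟩

def k11_pp_022_a : ∃ t, chk3 f_pp_022_a t 35 30 1 = true :=
  ⟨(b (b (a (a (b (l 16746624) (l 16756856)) (b (l 16755928) (b (l 16754432) (l 16762200)))) (a (c (c (l 16762720) (l 16762560)) (l 16760688)) (b (l 16761376) (a (l 16762784) (l 16767424))))) (a (a (b (b (l 16755400) (l 16763184)) (c (b (l 16765912) (l 16768456)) (b (l 16765584) (a (l 16761920) (l 16764024))))) (a (b (l 16764992) (l 16767504)) (b (b (l 16760512) (l 16768304)) (c (l 16770920) (l 16770816))))) (b (b (a (l 16766184) (c (l 16771560) (l 16771520))) (a (l 16770056) (a (c (l 16771784) (l 16772408)) (a (l 46942640119) (l 4))))) (a (a (b (l 16770304) (a (l 16772368) (c (l 25467804215) (l 20635966455)))) (b (a (l 16771816) (a (l 19025352423) (l 28689029063))) (l 4))) (a (b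 (b (l 53385091047) (l 4)) (l 4)) (l 4)))))) (b (a (a (b (a (l 16768600) (a (l 16770152) (b (l 16767248) (l 16772480)))) (b (b (a (l 16769264) (c (l 16773888) (l 16773544))) (a (l 16772520) (l 4))) (b (a (c (l 12046034247) (l 8824809063)) (l 4)) (l 4)))) (b (b (a (l 16771408) (b (l 16772776) (a (l 16773552) (l 4)))) (a (b (a (l 16770224) (l 16772520)) (a (l 16772792) (l 4))) (l 4))) (l 4))) (l 4)) (l 4))), by decide +kernel⟩

def k12_pp_022_a : ∃ t, chk3 f_pp_022_a t 17 31 1 = true :=
  ⟨(a (a (l 6) (l 4)) (l 4)), by decide +kernel⟩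

def k13_pp_022_a : ∃ t, chk3 f_pp_022_a t 18 14 1 = true :=
  ⟨(b (b (a (a (l 16702800) (l 16710224)) (a (b (l 16707912) (l 16716816)) (c (l 16730368) (l 16724856)))) (a (a (a (l 16715896) (l 16721048)) (a (l 16726200) (l 16731664))) (a (b (l 16725912) (l 16740328)) (b (l 16733488) (l 16748008))))) (b (a (a (a (b (l 16726776) (l 16746536)) (a (b (l 16729704) (l 16749480)) (l 16743520))) (a (c (l 16747400) (l 16746792)) (b (l 16748936) (l 16753040)))) (a (b (c (l 16754968) (l 16754504)) (a (l 16756936) (a (l 16759856) (l 16761800)))) (b (c (l 16760000) (l 16759688)) (a (b (l 16762320) (l 16767088)) (b (l 16766200) (c (a (l 16770040) (l 16770008)) (b (l 16769744) (l 16769432)))))))) (a (a (a (b (b (l 16743152) (l 16758448)) (c (l 16760696) (l 16760400))) (b (l 16754752) (b (l 16762048) (l 16765688)))) (b (c (a (l 16758840) (l 16762720)) (a (l 16758552) (l 16761880))) (b (a (l 16764704) (a (l 16766352) (b (l 16764464) (l 16769512)))) (b (a (l 16767104) (a (l 16770024) (a (l 16768864)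 (l 4)))) (a (a (l 16765984) (l 16770536)) (a (a (l 16769384) (l 4)) (l 4))))))) (b (a (a (b (l 16764112) (c (c (l 16766400) (l 16766360)) (l 16766992))) (a (b (l 16767040) (b (l 16768048) (a (l 16767360) (l 16768336)))) (b (l 16766368) (b (l 16769328) (l 4))))) (b (b (a (c (l 16768096) (l 16768032)) (a (l 16769656) (l 4))) (a (a (l 16769504) (l 4)) (l 4))) (l 4))) (a (b (a (b (a (l 16769016) (a (l 16767848) (l 16768832))) (a (a (l 16768352) (l 4)) (l 4))) (l 4)) (l 4)) (l 4)))))), by decide +kernel⟩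

def k14_pp_022_a : ∃ t, chk3 f_pp_022_a t 19 14 1 = true :=
  ⟨(b (b (a (b (a (c (l 16733104) (l 16733008)) (a (l 16738616) (l 16731840))) (a (l 16731736) (a (c (l 16747904) (l 16747744)) (c (l 16751664) (l 16751512))))) (a (b (l 16742680) (c (l 16752096) (l 16751936))) (a (b (l 16743080) (l 16757704)) (b (l 16752104) (a (l 16760552) (l 16762464)))))) (a (a (b (l 16746312) (a (l 16759000) (l 16762840))) (a (b (l 16746768) (l 16761440)) (b (b (l 16758664) (l 16752960)) (b (l 16757744) (l 16767600))))) (a (b (b (l 16759136) (a (a (l 16766320) (l 16757752)) (l 16765880))) (a (a (b (l 16765872) (l 34594600391)) (b (a (l 16770272) (c (l 19025344103) (l 16768152))) (c (l 71101823367) (l 61438149959)))) (b (a (c (l 21709705191) (l 23320317303)) (l 75933658327)) (l 4)))) (b (b (a (l 16759632) (a (l 16765144) (l 34057725607))) (a (b (l 17951601271) (a (l 16770000) (l 4))) (l 4))) (l 4))))) (a (b (a (b (b (c (l 16762720) (l 16762480)) (a (l 16765344) (c (l 16769288) (l 16769136)))) (b (b (a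 (l 16768880) (a (l 16771776) (l 4))) (a (c (l 16768688) (l 16768592)) (l 4))) (a (a (b (l 16770048) (l 4)) (l 4)) (l 4)))) (b (b (a (l 16768544) (b (c (l 16772512) (l 16771632)) (l 4))) (b (a (a (l 16765680) (l 4)) (l 4)) (l 4))) (l 4))) (l 4)) (l 4))), by decide +kernel⟩

def k15_pp_022_a : ∃ t, chk3 f_pp_022_a t 9 15 1 = true :=
  ⟨(a (b (b (a (b (a (a (b (c (l 16768072) (l 16767952)) (a (c (l 16769456) (l 16769416)) (b (l 16770168) (a (l 16772176) (l 49090123319))))) (a (b (l 16768384) (b (c (l 16772136) (l 16772112)) (l 4))) (b (b (l 16766496) (a (l 16768472) (l 16772080))) (l 4)))) (b (a (a (b (l 16771056) (l 4)) (l 4)) (l 4)) (l 4))) (a (b (a (a (a (b (l 35131480055) (l 4)) (l 4)) (l 4)) (l 4)) (l 4)) (l 4))) (l 4)) (l 4)) (l 4)) (l 4)), by decide +kernel⟩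

def k16_pp_022_a : ∃ t, chk3 f_pp_022_a t 10 12 1 = true :=
  ⟨(a (b (a (b (a (l 16627640) (l 16633792)) (c (l 16650816) (l 16654224))) (a (b (l 16640024) (l 16654192)) (b (l 16667320) (l 16671208)))) (a (b (b (l 16660688) (l 16673456)) (b (l 16681144) (l 16688944))) (b (a (l 16669136) (l 16686352)) (a (l 16695288) (l 16702216))))) (b (a (a (b (l 16673768) (l 16677832)) (b (l 16680344) (l 16681960))) (b (a (l 16676608) (l 16683544)) (b (c (l 16691880) (l 16690512)) (c (l 16699456) (l 16698272))))) (c (b (a (b (l 16693296) (l 16701104)) (a (l 16707672) (l 16714848))) (a (a (l 16709672) (l 16716752)) (a (l 16723952) (l 16731280)))) (a (b (b (l 16692120) (l 16700136)) (b (l 16708328) (l 16716584))) (b (a (l 16696248) (l 16714000)) (a (l 16723344) (l 16728240))))))), by decide +kernel⟩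

def k17_pp_022_a : ∃ t, chk3 f_pp_022_a t 10 13 1 = true :=
  ⟨(a (b (a (b (a (l 16697536) (l 16704496)) (a (l 16710216) (b (l 16706520) (l 16715128)))) (b (a (l 16706304) (c (l 16719040) (l 16718392))) (a (c (l 16728824) (l 16717880)) (c (l 16736144) (l 16730488))))) (a (a (b (c (l 16731640) (l 16731400)) (b (l 16744736) (l 16749872))) (b (a (l 16737008) (l 16740712)) (b (l 16747008) (a (l 16754248) (l 16758072))))) (b (b (a (l 16731360) (l 16749344)) (a (l 16750784) (l 16758384))) (a (b (c (l 16759952) (l 16759744)) (b (c (l 16761600) (l 16761392)) (a (l 16764232) (a (l 16767088) (l 11509154215))))) (a (b (l 16760360) (b (c (l 16767280) (l 16767136)) (l 4))) (b (a (l 16765856) (b (l 16757640) (l 16767400))) (l 4))))))) (b (a (b (a (c (l 16726240) (l 16725656)) (b (l 16718456) (l 16737568))) (a (b (l 16738896) (l 16747816)) (b (l 16741152) (c (l 16755544) (l 16744800))))) (b (a (b (l 16736328) (l 16739816)) (b (l 16738600) (c (l 16752840) (l 16752520)))) (b (a (c (l 16754152) (l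 16753840)) (a (l 16754520) (a (l 16752192) (l 16759360)))) (b (a (l 16755568) (a (l 16766608) (b (l 16764024) (l 4)))) (a (c (l 16762856) (l 16762680)) (a (b (l 16764784) (l 4)) (l 4))))))) (a (b (b (a (l 16756920) (a (l 16762688) (b (l 16753752) (l 37815821719)))) (b (a (l 16763784) (a (l 34057722967) (l 86134198759))) (a (a (l 16755944) (l 32983983031)) (l 4)))) (a (b (a (b (l 17414727863) (l 4)) (l 4)) (l 4)) (l 4))) (b (b (a (a (b (l 16762832) (l 90429164823)) (c (l 94187264951) (l 96871618711))) (l 4)) (l 4)) (l 4))))), by decide +kernel⟩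

def k18_pp_022_a : ∃ t, chk3 f_pp_022_a t 11 12 1 = true :=
  ⟨(a (b (a (b (a (l 16690680) (c (l 16709224) (l 16686800))) (b (a (l 16691432) (l 16698800)) (a (l 16699208) (l 16717128)))) (b (b (a (l 16691080) (a (l 16717512) (l 16699976))) (a (l 16698544) (a (l 16704104) (l 16718200)))) (a (c (l 16721200) (l 16720208)) (b (a (l 16711824) (l 16726040)) (l 16732144))))) (b (a (a (c (l 16716968) (l 16716200)) (b (l 16725184) (l 16733456))) (a (b (l 16732736) (l 16741072)) (b (l 16735080) (l 16743480)))) (a (a (b (l 16734320) (l 16742808)) (b (l 16741968) (l 16747896))) (a (b (l 16744472) (c (l 16758384) (l 16752944))) (b (c (l 16757640) (l 16757448)) (a (c (l 16764376) (l 16764144)) (b (l 16766080) (l 50700727543)))))))) (b (a (b (a (b (l 16715568) (l 16723424)) (b (l 16722504) (l 16730512))) (a (a (b (l 16729656) (a (l 16726360) (l 16728208))) (a (l 16736440) (l 16738256))) (b (l 16738664) (c (l 16747184) (l 16746776))))) (b (a (b (l 16729816) (l 16737768)) (b (l 16737672) (l 16740352)))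 (a (b (c (l 16746240) (l 16745904)) (c (l 16754624) (l 16754376))) (a (b (l 16741360) (l 16755120)) (b (l 16745272) (b (l 16751640) (l 28152141223))))))) (a (b (a (a (b (l 16740784) (l 16743984)) (b (c (l 16750000) (l 16749600)) (b (l 16750912) (l 16750152)))) (b (c (l 16755568) (l 16750064)) (a (a (l 16758712) (l 16763376)) (b (l 16764072) (l 56606305351))))) (a (b (a (c (l 16763672) (l 16763424)) (b (l 16762736) (l 56606306183))) (a (l 95797873399) (l 4))) (b (a (b (a (l 55532562967) (l 4)) (l 4)) (l 4)) (l 4)))) (b (a (b (a (l 16758640) (b (l 16752512) (l 30836498487))) (b (a (l 57143174663) (l 4)) (l 4))) (b (b (a (l 27615271623) (l 4)) (l 4)) (l 4))) (l 4))))), by decide +kernel⟩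

def k19_pp_022_a : ∃ t, chk3 f_pp_022_a t 11 13 1 = true :=
  ⟨(a (b (a (b (a (b (c (l 16751688) (l 16751368)) (a (l 16753232) (l 16757144))) (b (a (l 16752112) (l 16756016)) (b (c (l 16762056) (l 16761904)) (a (l 16765848) (l 4))))) (b (a (b (a (l 16754768) (l 17414722183)) (a (c (l 16765992) (l 16765720)) (l 4))) (l 4)) (l 4))) (b (b (a (a (c (l 16759976) (l 16759768)) (b (l 16761632) (l 4))) (a (l 90429165975) (l 4))) (l 4)) (l 4))) (l 4)) (l 4)), by decide +kernel⟩

def k20_pp_022_a : ∃ t, chk3 f_pp_022_a t 5 7 1 = true :=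
  ⟨(a (b (a (b (a (b (b (b (a (l 16755472) (a (l 16755968) (l 16763088))) (a (c (l 16760208) (l 16760064)) (a (c (l 16765960) (l 16765816)) (c (l 33520855319) (l 27615276487))))) (a (b (a (l 16762944) (c (l 16766864) (l 16766712))) (a (c (l 16767856) (l 16767656)) (a (l 41573920631) (l 4)))) (b (a (c (l 36742082407) (l 34057730119)) (l 4)) (l 4)))) (b (a (a (a (b (l 54995696743) (l 4)) (l 4)) (l 4)) (l 4)) (l 4))) (b (b (a (a (a (b (l 16767904) (l 4)) (l 4)) (l 4)) (l 4)) (l 4)) (l 4))) (l 4)) (l 4)) (l 4)) (l 4)), by decide +kernel⟩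

def k21_pp_022_a : ∃ t, chk3 f_pp_022_a t 12 2 1 = true :=
  ⟨(b (a (b (l 16631488) (b (l 16645920) (l 16677016))) (b (l 16681048) (b (l 16674768) (l 16726896)))) (b (a (b (a (l 16659912) (l 16674952)) (a (l 16696064) (l 16721512))) (b (a (l 16689384) (l 16724168)) (a (a (l 16721896) (l 16728944)) (b (l 16734920) (l 16743616))))) (a (b (a (b (l 16709936) (c (l 16721888) (l 16720800))) (b (a (l 16721184) (l 16728504)) (a (l 16711624) (l 16739920)))) (a (a (b (l 16730552) (c (l 16734264) (l 16733952))) (b (l 16727656) (b (l 16738096) (l 16745400)))) (a (b (l 16735120) (b (l 16745576) (l 16752888))) (b (l 16742464) (b (l 16752928) (c (l 16760416) (l 16760216))))))) (b (a (b (c (l 16740112) (l 16738328)) (a (l 16747104) (l 16743648))) (b (a (l 16749600) (l 16745848)) (a (l 16750528) (b (l 16764624) (l 16760416))))) (a (b (a (c (l 16750016) (l 16749320)) (c (l 16759672) (l 16759056))) (a (b (l 16758872) (a (c (l 28689014695) (l 16764736)) (l 67880581399))) (b (a (c (l 16764760) (l 16764408))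 (l 67880580727)) (l 4)))) (b (a (b (l 16760240) (a (c (l 16765968) (l 16762864)) (l 67880580231))) (b (a (l 27078401175) (l 37278957575)) (l 4))) (l 4))))))), by decide +kernel⟩

def k22_pp_022_a : ∃ t, chk3 f_pp_022_a t 13 2 1 = true :=
  ⟨(b (a (b (a (l 16679624) (l 16691704)) (b (l 16700808) (l 16753104))) (a (b (l 16702992) (l 16765696)) (l 2))) (b (a (b (a (l 16737336) (l 16749824)) (a (b (l 16748112) (c (l 16757888) (l 16755776))) (b (l 16760640) (a (l 16766288) (l 16761888))))) (a (b (b (l 16737576) (l 16764640)) (b (a (l 16748616) (l 16767456)) (b (a (l 16755080) (c (l 32447126583) (l 29762769639))) (a (c (l 26004673479) (l 29225896743)) (l 60901271975))))) (a (a (b (l 16768600) (b (l 27615282359) (b (l 54995682151) (l 4)))) (b (l 2) (b (l 2) (l 4)))) (l 2)))) (b (a (a (a (b (l 16749808) (b (l 16760680) (a (l 16764344) (l 37815828023)))) (b (c (l 16759488) (l 16758200)) (b (a (l 16765760) (l 24394055239)) (l 4)))) (b (a (b (l 16773128) (a (l 16766136) (l 23320313623))) (b (c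 (l 27078413015) (l 24930927047)) (a (l 39426448215) (l 4)))) (l 4))) (a (b (b (a (l 60901272679) (l 4)) (l 4)) (l 4)) (l 4))) (l 4)))), by decide +kernel⟩

def k23_pp_022_a : ∃ t, chk3 f_pp_022_a t 7 2 1 = true :=
  ⟨(b (l 2) (b (l 2) (l 4))), by decide +kernel⟩

def k24_pp_022_a : ∃ t, chk3 f_pp_022_a t 3 3 1 = true :=
  ⟨(a (b (a (b (a (b (a (b (a (b (l 16740160) (c (l 16753392) (l 16753272))) (b (l 16749088) (a (l 16748592) (l 16760384)))) (a (b (a (l 16759640) (c (l 16763728) (l 16763576))) (a (b (l 16763632) (l 4)) (l 4))) (b (b (a (l 16765448) (l 4)) (l 4)) (l 4)))) (b (a (b (b (l 16758576) (l 16759976)) (a (b (l 16764792) (l 58216917447)) (l 90429161895))) (b (a (a (l 16762856) (l 28152144951)) (l 71638678727)) (l 4))) (l 4))) (l 4)) (l 4)) (l 4)) (l 4)) (l 4)) (l 4)), by decide +kernel⟩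

theorem s25_pp_022_a : ∃ t, chk3 f_pp_022_a t 6 2 1 = true := ex3_a k21_pp_022_a k22_pp_022_a

theorem s26_pp_022_a : ∃ t, chk3 f_pp_022_a t 3 2 1 = true := ex3_a s25_pp_022_a k23_pp_022_a

theorem s27_pp_022_a : ∃ t, chk3 f_pp_022_a t 3 1 1 = true := ex3_b s26_pp_022_a k24_pp_022_a

theorem s28_pp_022_a : ∃ t, chk3 f_pp_022_a t 11 6 1 = true := ex3_b k18_pp_022_a k19_pp_022_a

theorem s29_pp_022_a : ∃ t, chk3 f_pp_022_a t 10 6 1 = true := ex3_b k16_pp_022_a k17_pp_022_a

theorem s30_pp_022_a : ∃ t, chk3 f_pp_022_a t 5 6 1 = true := ex3_a s29_pp_022_a s28_pp_022_a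

theorem s31_pp_022_a : ∃ t, chk3 f_pp_022_a t 5 3 1 = true := ex3_b s30_pp_022_a k20_pp_022_a

theorem s32_pp_022_a : ∃ t, chk3 f_pp_022_a t 9 14 1 = true := ex3_a k13_pp_022_a k14_pp_022_a

theorem s33_pp_022_a : ∃ t, chk3 f_pp_022_a t 9 7 1 = true := ex3_b s32_pp_022_a k15_pp_022_a

theorem s34_pp_022_a : ∃ t, chk3 f_pp_022_a t 17 30 1 = true := ex3_a k10_pp_022_a k11_pp_022_a

theorem s35_pp_022_a : ∃ t, chk3 f_pp_022_a t 17 15 1 = true := ex3_b s34_pp_022_a k12_pp_022_a

theorem s36_pp_022_a : ∃ t, chk3 f_pp_022_a t 8 15 1 = true := ex3_a k9_pp_022_a s35_pp_022_a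

theorem s37_pp_022_a : ∃ t, chk3 f_pp_022_a t 8 7 1 = true := ex3_b k8_pp_022_a s36_pp_022_a

theorem s38_pp_022_a : ∃ t, chk3 f_pp_022_a t 4 7 1 = true := ex3_a s37_pp_022_a s33_pp_022_a

theorem s39_pp_022_a : ∃ t, chk3 f_pp_022_a t 9 6 1 = true := ex3_b k6_pp_022_a k7_pp_022_a

theorem s40_pp_022_a : ∃ t, chk3 f_pp_022_a t 8 6 1 = true := ex3_b k4_pp_022_a k5_pp_022_a

theorem s41_pp_022_a : ∃ t, chk3 f_pp_022_a t 4 6 1 = true := ex3_a s40_pp_022_a s39_pp_022_a

theorem s42_pp_022_a : ∃ t, chk3 f_pp_022_a t 4 3 1 = true := ex3_b s41_pp_022_a s38_pp_022_a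

theorem s43_pp_022_a : ∃ t, chk3 f_pp_022_a t 2 3 1 = true := ex3_a s42_pp_022_a s31_pp_022_a

theorem s44_pp_022_a : ∃ t, chk3 f_pp_022_a t 4 5 1 = true := ex3_a k1_pp_022_a k2_pp_022_a

theorem s45_pp_022_a : ∃ t, chk3 f_pp_022_a t 4 2 1 = true := ex3_b k0_pp_022_a s44_pp_022_a

theorem s46_pp_022_a : ∃ t, chk3 f_pp_022_a t 2 2 1 = true := ex3_a s45_pp_022_a k3_pp_022_a

theorem s47_pp_022_a : ∃ t, chk3 f_pp_022_a t 2 1 1 = true := ex3_b s46_pp_022_a s43_pp_022_a

theorem s48_pp_022_a : ∃ t, chk3 f_pp_022_a t 1 1 1 = true := ex3_a s47_pp_022_a s27_pp_022_a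

theorem c_pp_022_a : CertB 0 536870912 0 536870912 587336777 62277027 3 eng mog cd0q0 cd1q2a pd2 true true true .pp 0 2 2
    ndB0q0 ndB1q2a pcB2 cut_pp_022_a Ext.none :=
  certB0 (fam := true) (s1 := true) (s2 := true) (a := 0) (b := 2) (c := 2) (cn := .pp) (n1 := ndB0q0) (n2 := ndB1q2a) (pc := pcB2) (cut := cut_pp_022_a) (xt := Ext.none) (P1 := 0) (W1 := 536870912) (P2 := 0) (W2 := 536870912) (P3 := 587336777) (W3 := 62277027) (N0 := 3) (En := eng) (mo := mog) (C1 := cd0q0) (C2 := cd1q2a) (C3 := pd2)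
    rfl s48_pp_022_a

noncomputable def cut_pp_022_b : Cut := Cut.of [[⟨0, 0, 0, 67108864⟩, ⟨1, 1, 0, 67108864⟩, ⟨2, 1, 0, 67108864⟩]]

noncomputable def f_pp_022_b : ℕ → ℕ → ℕ → ℕ → Bool := onCell 0 536870912 1073741824 536870912 587336777 62277027
    (rowB 3 eng mog cd0q0 cd1q2b pd2 1 true true true .pp 0 2 2 (qsf 0 536870912 1239849684 370763052 2) ndB0q0 ndB1q2b pcB2 cut_pp_022_b Ext.none)

def k0_pp_022_b : ∃ t, chk3 f_pp_022_b t 1 1 1 = true :=
  ⟨(b (a (a (b (l 1) (a (b (a (b (a (l 16521656) (l 1)) (b (l 16512936) (l 16438528))) (b (l 1) (b (l 1) (l 122976493095)))) (a (b (l 16392832) (l 16377568)) (b (l 16507592) (l 16408472)))) (b (l 1) (a (b (l 111165394359) (l 16521248)) (b (l 1) (l 114923523015)))))) (l 1)) (l 1)) (a (b (a (b (a (a (l 16277984) (l 16455280)) (a (l 16473768) (a (l 16494208) (l 16569736)))) (a (b (a (l 16187432) (l 16259152)) (l 16199712)) (b (a (l 16329584) (l 16419440)) (a (l 16303288) (l 16370728))))) (b (a (a (b (l 152504504087) (l 16573040)) (b (l 1)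 (l 196527908311))) (l 1)) (a (b (a (l 16532952) (b (l 115997255447) (l 16580136))) (a (l 16436328) (b (l 16504440) (l 16493216)))) (b (a (b (l 1) (l 258268086551)) (l 1)) (a (b (l 98817475703) (l 16572184)) (b (l 1) (l 235719621223))))))) (a (b (a (l 16267336) (b (l 16320016) (l 16308056))) (a (l 16179832) (l 16360672))) (b (a (b (a (l 16416416) (l 16478048)) (l 16431128)) (b (a (l 16536496) (l 66068420055)) (a (l 16518320) (l 16572240)))) (a (b (l 16418440) (l 16408928)) (b (l 16571784) (l 16516672)))))) (b (l 1) (a (b (a (b (a (b (l 1) (l 157873458423)) (l 1)) (a (l 76805822183) (l 250752034183))) (l 1)) (a (b (a (l 16605208) (l 144451706967)) (a (l 16590672) (l 16635104))) (a (b (l 278669413719) (a (l 16665272) (l 167537131511))) (b (l 1) (a (l 266858241911) (l 1)))))) (l 1))))), by decide +kernel⟩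

theorem c_pp_022_b : CertB 0 536870912 1239849684 370763052 587336777 62277027 3 eng mog cd0q0 cd1q2b pd2 true true true .pp 0 2 2
    ndB0q0 ndB1q2b pcB2 cut_pp_022_b Ext.none :=
  certB1 (fam := true) (s1 := true) (s2 := true) (a := 0) (b := 2) (c := 2) (cn := .pp) (n1 := ndB0q0) (n2 := ndB1q2b) (pc := pcB2) (cut := cut_pp_022_b) (xt := Ext.none) (P1 := 0) (W1 := 536870912) (P2 := 1239849684) (W2 := 370763052) (P3 := 587336777) (W3 := 62277027) (N0 := 3) (En := eng) (mo := mog) (C1 := cd0q0) (C2 := cd1q2b) (C3 := pd2)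
    rfl (fun _ => rfl) k0_pp_022_b

noncomputable def f_pp_023_a : ℕ → ℕ → ℕ → ℕ → Bool := onCell 1610612736 536870912 0 536870912 587336777 62277027
    (rowB 3 eng mog cd0q0 cd1q2a pd3 2 true true true .up 0 2 3 (qsf 0 536870912 0 536870912 3) ndB0q0 ndB1q2a pcB3 Cut.none Ext.none)

def k0_pp_023_a : ∃ t, chk3 f_pp_023_a t 8 2 1 = true :=
  ⟨(b (a (b (l 16749976) (a (b (l 16722112) (l 16756048)) (b (l 16730040) (l 16764824)))) (b (a (l 16717344) (l 16723064)) (b (a (l 16737848) (l 16766384)) (a (a (l 16771400) (l 16775760)) (a (b (l 16754944) (l 16784208)) (b (l 16759064) (a (l 16777096) (b (l 16766512) (l 63048778327))))))))) (b (a (b (a (b (l 16766936) (a (l 16772376) (l 16766792))) (b (a (l 16753048) (l 16757776)) (a (b (l 16759032) (c (l 31910260439) (l 30836516583))) (b (l 31373388327) (a (l 59290658151) (l 4)))))) (b (a (a (b (l 16758440) (a (l 29225899415) (l 48553235447))) (b (c (l 32447132935) (l 32447131031)) (l 4))) (a (b (a (l 60364395943) (l 4)) (l 4)) (l 4))) (l 4)))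 (b (a (b (a (l 29762776103) (b (l 16765088) (a (l 53385098487) (l 73249313367)))) (b (a (b (l 54995714023) (l 77007398983)) (l 4)) (l 4))) (b (a (b (a (l 16774016) (l 71638700663)) (l 4)) (a (l 92576663991) (l 4))) (l 4))) (l 4))) (l 4))), by decide +kernel⟩

def k1_pp_023_a : ∃ t, chk3 f_pp_023_a t 9 2 1 = true :=
  ⟨(b (a (b (a (l 16749616) (l 16755936)) (b (a (b (l 16748904) (l 16777968)) (b (l 16777816) (a (l 16763256) (b (l 16765416) (l 59290682247))))) (a (b (a (l 16773696) (a (l 16776896) (l 53921974327))) (a (b (a (l 16768704) (l 60901294279)) (a (l 89355445271) (l 4))) (b (a (l 88281703047) (l 4)) (l 4)))) (b (a (b (a (l 16768536) (l 65733130631)) (a (l 86671100423) (l 4))) (b (a (l 86134229271) (l 103850962823)) (l 4))) (l 4))))) (b (a (b (l 16732272) (b (l 16746856) (l 16777344))) (b (l 16764592) (a (l 16778632) (b (l 16757680) (c (l 16777712) (l 16777472)))))) (b (a (b (a (l 16763216) (a (l 16766496) (l 16779160))) (a (b (l 16777656) (a (l 85597347879) (l 103314091927)))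 (b (a (l 83449874695) (b (l 87207971735) (l 4))) (l 4)))) (b (a (b (l 16780184) (a (l 74323069639) (b (l 86671101175) (l 4)))) (b (a (l 72712456391) (b (l 82913002743) (l 123178317175))) (l 4))) (l 4))) (l 4)))) (l 4)), by decide +kernel⟩

def k2_pp_023_a : ∃ t, chk3 f_pp_023_a t 5 2 1 = true :=
  ⟨(a (b (a (b (b (a (a (l 16752016) (l 16756920)) (a (l 16782352) (b (l 16762560) (l 65062041207)))) (a (b (a (l 16762544) (b (l 16765144) (l 16779272))) (a (b (l 16777128) (a (b (l 16771752) (l 81839261175)) (b (l 81302390071) (l 119420220823)))) (b (a (b (l 16771608) (l 80765519127)) (b (l 82376130647) (l 117809613415))) (a (l 121567700167) (l 4))))) (b (a (b (l 16779704) (a (l 49090135015) (b (l 56069455927) (l 116198990215)))) (b (a (l 49627005735) (b (l 144518938423) (a (l 104924705399) (l 2)))) (a (c (l 120493958919) (l 123715183735)) (l 4)))) (a (b (a (b (l 116735861143) (l 4)) (l 4)) (l 4)) (l 4))))) (b (a (a (a (a (b (l 139284434503) (l 4)) (l 4)) (l 4)) (l 4)) (l 4)) (l 4))) (b (l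 2) (l 2))) (l 4)) (l 2)), by decide +kernel⟩

def k3_pp_023_a : ∃ t, chk3 f_pp_023_a t 2 3 1 = true :=
  ⟨(l 4), by decide +kernel⟩

def k4_pp_023_a : ∃ t, chk3 f_pp_023_a t 3 1 1 = true :=
  ⟨(l 2), by decide +kernel⟩

theorem s5_pp_023_a : ∃ t, chk3 f_pp_023_a t 4 2 1 = true := ex3_a k0_pp_023_a k1_pp_023_a

theorem s6_pp_023_a : ∃ t, chk3 f_pp_023_a t 2 2 1 = true := ex3_a s5_pp_023_a k2_pp_023_a

theorem s7_pp_023_a : ∃ t, chk3 f_pp_023_a t 2 1 1 = true := ex3_b s6_pp_023_a k3_pp_023_a

theorem s8_pp_023_a : ∃ t, chk3 f_pp_023_a t 1 1 1 = true := ex3_a s7_pp_023_a k4_pp_023_a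

theorem c_pp_023_a : CertB 0 536870912 0 536870912 587336777 62277027 3 eng mog cd0q0 cd1q2a pd3 true true true .up 0 2 3
    ndB0q0 ndB1q2a pcB3 Cut.none Ext.none :=
  certB2 (fam := true) (s1 := true) (s2 := true) (a := 0) (b := 2) (c := 3) (cn := .up) (n1 := ndB0q0) (n2 := ndB1q2a) (pc := pcB3) (cut := Cut.none) (xt := Ext.none) (P1 := 0) (W1 := 536870912) (P2 := 0) (W2 := 536870912) (P3 := 587336777) (W3 := 62277027) (N0 := 3) (En := eng) (mo := mog) (C1 := cd0q0) (C2 := cd1q2a) (C3 := pd3)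
    rfl (fun _ => rfl) s8_pp_023_a

noncomputable def f_pp_023_b : ℕ → ℕ → ℕ → ℕ → Bool := onCell 0 536870912 1610612736 536870912 587336777 62277027
    (rowB 3 eng mog cd0q0 cd1q2b pd3 1 true true true .up 0 2 3 (qsf 0 536870912 1239849684 370763052 3) ndB0q0 ndB1q2b pcB3 Cut.none Ext.none)

def k0_pp_023_b : ∃ t, chk3 f_pp_023_b t 1 1 1 = true :=
  ⟨(b (b (a (a (b (a (l 16171064) (l 16279672)) (b (l 16215616) (l 16256408))) (b (a (l 16387616) (b (l 16502784) (l 16483568))) (a (l 16368504) (l 16529568)))) (a (b (a (b (l 16597960) (l 16577944)) (b (a (l 16659432) (l 248604733639)) (a (l 16639240) (l 16674664)))) (a (b (l 16562792) (l 16553128)) (b (l 16641816) (l 16630968)))) (b (a (b (a (l 342020215159) (l 1)) (a (l 263637117463) (l 364031929031))) (l 1)) (a (b (a (l 16689408) (a (l 16723856) (l 294775564359))) (a (l 16678936) (b (l 16707296) (l 16703624)))) (b (a (a (l 415034693911) (l 1)) (l 1)) (b (a (l 402149776679) (l 1)) (a (l 295312512343) (a (l 432751470199) (l 1)))))))))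 (b (a (l 4) (b (a (a (l 16554928) (l 16628072)) (a (a (l 16674296) (l 16700752)) (a (b (l 16723712) (l 16723880)) (a (b (l 313029233447) (l 16738088)) (b (l 398391755527) (b (l 411276635655) (l 287796355335))))))) (a (l 4) (a (l 16755264) (a (l 16747272) (b (a (l 16740368) (l 16770328)) (l 16746984))))))) (l 4))) (l 4)), by decide +kernel⟩

theorem c_pp_023_b : CertB 0 536870912 1239849684 370763052 587336777 62277027 3 eng mog cd0q0 cd1q2b pd3 true true true .up 0 2 3
    ndB0q0 ndB1q2b pcB3 Cut.none Ext.none :=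
  certB1 (fam := true) (s1 := true) (s2 := true) (a := 0) (b := 2) (c := 3) (cn := .up) (n1 := ndB0q0) (n2 := ndB1q2b) (pc := pcB3) (cut := Cut.none) (xt := Ext.none) (P1 := 0) (W1 := 536870912) (P2 := 1239849684) (W2 := 370763052) (P3 := 587336777) (W3 := 62277027) (N0 := 3) (En := eng) (mo := mog) (C1 := cd0q0) (C2 := cd1q2b) (C3 := pd3)
    rfl (fun _ => rfl) k0_pp_023_b

noncomputable def f_pp_033 : ℕ → ℕ → ℕ → ℕ → Bool := onCell 1610612736 536870912 1610612736 536870912 587336777 62277027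
    (rowB 3 eng mog cd0q0 cd1q3 pd3 2 true true true .pnn 0 3 3 (qsf 0 536870912 1610612736 536870912 3) ndB0q0 ndB1q3 pcB3 Cut.none Ext.none)

def k0_pp_033 : ∃ t, chk3 f_pp_033 t 1 1 1 = true :=
  ⟨(a (a (b (b (a (b (l 16133400) (l 301216832471)) (a (l 16160360) (l 16261456))) (a (l 1) (b (l 300680017335) (l 1)))) (l 1)) (a (b (l 4) (l 1)) (l 4))) (l 4)), by decide +kernel⟩

theorem c_pp_033 : CertB 0 536870912 1610612736 536870912 587336777 62277027 3 eng mog cd0q0 cd1q3 pd3 true true true .pnn 0 3 3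
    ndB0q0 ndB1q3 pcB3 Cut.none Ext.none :=
  certB2 (fam := true) (s1 := true) (s2 := true) (a := 0) (b := 3) (c := 3) (cn := .pnn) (n1 := ndB0q0) (n2 := ndB1q3) (pc := pcB3) (cut := Cut.none) (xt := Ext.none) (P1 := 0) (W1 := 536870912) (P2 := 1610612736) (W2 := 536870912) (P3 := 587336777) (W3 := 62277027) (N0 := 3) (En := eng) (mo := mog) (C1 := cd0q0) (C2 := cd1q3) (C3 := pd3)
    rfl (fun _ => rfl) k0_pp_033

noncomputable def f_pp_101 : ℕ → ℕ → ℕ → ℕ → Bool := onCell 536870912 536870912 0 536870912 587336777 62277027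
    (rowB 3 eng mog cd0q1 cd1q0 pd1 0 true true true .npn 1 0 1 (qsf 536870912 536870912 0 536870912 1) ndB0q1 ndB1q0 pcB1 Cut.none Ext.none)

def k0_pp_101 : ∃ t, chk3 f_pp_101 t 1 1 1 = true :=
  ⟨(a (l 4) (l 5)), by decide +kernel⟩

theorem c_pp_101 : CertB 536870912 536870912 0 536870912 587336777 62277027 3 eng mog cd0q1 cd1q0 pd1 true true true .npn 1 0 1
    ndB0q1 ndB1q0 pcB1 Cut.none Ext.none :=
  certB0 (fam := true) (s1 := true) (s2 := true) (a := 1) (b := 0) (c := 1) (cn := .npn) (n1 := ndB0q1) (n2 := ndB1q0) (pc := pcB1) (cut := Cut.none) (xt := Ext.none) (P1 := 536870912) (W1 := 536870912) (P2 := 0) (W2 := 536870912) (P3 := 587336777) (W3 := 62277027) (N0 := 3) (En := eng) (mo := mog) (C1 := cd0q1) (C2 := cd1q0) (C3 := pd1)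
    rfl k0_pp_101

noncomputable def f_pp_102 : ℕ → ℕ → ℕ → ℕ → Bool := onCell 536870912 536870912 0 536870912 587336777 62277027
    (rowB 3 eng mog cd0q1 cd1q0 pd2 0 true true true .npp 1 0 2 (qsf 536870912 536870912 0 536870912 2) ndB0q1 ndB1q0 pcB2 Cut.none Ext.none)

def k0_pp_102 : ∃ t, chk3 f_pp_102 t 1 1 1 = true :=
  ⟨(a (l 4) (l 5)), by decide +kernel⟩

theorem c_pp_102 : CertB 536870912 536870912 0 536870912 587336777 62277027 3 eng mog cd0q1 cd1q0 pd2 true true true .npp 1 0 2
    ndB0q1 ndB1q0 pcB2 Cut.none Ext.none :=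
  certB0 (fam := true) (s1 := true) (s2 := true) (a := 1) (b := 0) (c := 2) (cn := .npp) (n1 := ndB0q1) (n2 := ndB1q0) (pc := pcB2) (cut := Cut.none) (xt := Ext.none) (P1 := 536870912) (W1 := 536870912) (P2 := 0) (W2 := 536870912) (P3 := 587336777) (W3 := 62277027) (N0 := 3) (En := eng) (mo := mog) (C1 := cd0q1) (C2 := cd1q0) (C3 := pd2)
    rfl k0_pp_102

noncomputable def f_pp_112 : ℕ → ℕ → ℕ → ℕ → Bool := onCell 536870912 536870912 536870912 536870912 587336777 62277027
    (rowB 3 eng mog cd0q1 cd1q1 pd2 0 true true true .dn 1 1 2 (qsf 536870912 536870912 536870912 536870912 2) ndB0q1 ndB1q1 pcB2 Cut.none Ext.none)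

def k0_pp_112 : ∃ t, chk3 f_pp_112 t 1 1 1 = true :=
  ⟨(l 4), by decide +kernel⟩

theorem c_pp_112 : CertB 536870912 536870912 536870912 536870912 587336777 62277027 3 eng mog cd0q1 cd1q1 pd2 true true true .dn 1 1 2
    ndB0q1 ndB1q1 pcB2 Cut.none Ext.none :=
  certB0 (fam := true) (s1 := true) (s2 := true) (a := 1) (b := 1) (c := 2) (cn := .dn) (n1 := ndB0q1) (n2 := ndB1q1) (pc := pcB2) (cut := Cut.none) (xt := Ext.none) (P1 := 536870912) (W1 := 536870912) (P2 := 536870912) (W2 := 536870912) (P3 := 587336777) (W3 := 62277027) (N0 := 3) (En := eng) (mo := mog) (C1 := cd0q1) (C2 := cd1q1) (C3 := pd2)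
    rfl k0_pp_112

noncomputable def f_pp_113 : ℕ → ℕ → ℕ → ℕ → Bool := onCell 536870912 536870912 536870912 536870912 587336777 62277027
    (rowB 3 eng mog cd0q1 cd1q1 pd3 0 true true true .nn 1 1 3 (qsf 536870912 536870912 536870912 536870912 3) ndB0q1 ndB1q1 pcB3 Cut.none Ext.none)

def k0_pp_113 : ∃ t, chk3 f_pp_113 t 1 1 1 = true :=
  ⟨(l 4), by decide +kernel⟩

theorem c_pp_113 : CertB 536870912 536870912 536870912 536870912 587336777 62277027 3 eng mog cd0q1 cd1q1 pd3 true true true .nn 1 1 3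
    ndB0q1 ndB1q1 pcB3 Cut.none Ext.none :=
  certB0 (fam := true) (s1 := true) (s2 := true) (a := 1) (b := 1) (c := 3) (cn := .nn) (n1 := ndB0q1) (n2 := ndB1q1) (pc := pcB3) (cut := Cut.none) (xt := Ext.none) (P1 := 536870912) (W1 := 536870912) (P2 := 536870912) (W2 := 536870912) (P3 := 587336777) (W3 := 62277027) (N0 := 3) (En := eng) (mo := mog) (C1 := cd0q1) (C2 := cd1q1) (C3 := pd3)
    rfl k0_pp_113

noncomputable def f_pp_123_a : ℕ → ℕ → ℕ → ℕ → Bool := onCell 536870912 536870912 0 536870912 587336777 62277027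
    (rowB 3 eng mog cd0q1 cd1q2a pd3 0 true true true .npn 1 2 3 (qsf 536870912 536870912 0 536870912 3) ndB0q1 ndB1q2a pcB3 Cut.none Ext.none)

def k0_pp_123_a : ∃ t, chk3 f_pp_123_a t 1 1 1 = true :=
  ⟨(a (b (a (a (b (b (a (b (a (b (a (l 16765624) (l 16777016)) (a (a (l 16775384) (b (l 16770488) (b (l 16772592) (a (l 16774224) (l 102240350807))))) (b (a (l 16772176) (b (l 16773144) (a (l 16774408) (l 103850960087)))) (a (b (a (l 16774312) (l 103314087607)) (l 123715186935)) (a (l 136063215463) (l 4)))))) (b (a (b (l 16776408) (a (l 16772792) (b (l 16773704) (a (l 16777248) (b (l 16775376) (l 119957092839)))))) (b (a (l 16778656) (b (l 16774280) (a (l 16777712) (b (l 16776992) (l 117809607111))))) (a (b (a (l 16777464) (b (l 16778152) (l 116198996727))) (a (b (l 115662125687) (l 4)) (l 4))) (b (a (b (l 116735867783) (l 4)) (l 4)) (l 4))))) (a (b (a (b (a (l 16779752) (b (l 16775232) (l 121567705303))) (c (l 128010152103) (l 131231377127))) (a (c (l 140358182903) (l 144653149911))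 (l 4))) (l 4)) (l 4)))) (a (b (a (b (c (a (b (l 93650411367) (l 117272733399)) (l 137673828167)) (a (b (l 68417486871) (l 131768252615)) (l 140895053239))) (l 4)) (l 4)) (l 4)) (l 4))) (b (a (b (a (b (a (b (a (l 24930942823) (b (l 53385101303) (c (l 116735865671) (l 121567704903)))) (a (b (l 118346478151) (l 4)) (l 4))) (a (b (a (b (l 112977771543) (l 4)) (l 155927444743)) (l 4)) (l 4))) (l 4)) (l 4)) (l 4)) (l 4)) (l 4))) (l 4)) (l 4)) (l 4)) (l 4)) (l 4)) (l 4)), by decide +kernel⟩

theorem c_pp_123_a : CertB 536870912 536870912 0 536870912 587336777 62277027 3 eng mog cd0q1 cd1q2a pd3 true true true .npn 1 2 3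
    ndB0q1 ndB1q2a pcB3 Cut.none Ext.none :=
  certB0 (fam := true) (s1 := true) (s2 := true) (a := 1) (b := 2) (c := 3) (cn := .npn) (n1 := ndB0q1) (n2 := ndB1q2a) (pc := pcB3) (cut := Cut.none) (xt := Ext.none) (P1 := 536870912) (W1 := 536870912) (P2 := 0) (W2 := 536870912) (P3 := 587336777) (W3 := 62277027) (N0 := 3) (En := eng) (mo := mog) (C1 := cd0q1) (C2 := cd1q2a) (C3 := pd3)
    rfl k0_pp_123_a

noncomputable def f_pp_123_b : ℕ → ℕ → ℕ → ℕ → Bool := onCell 1610612736 536870912 1239849684 370763052 587336777 62277027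
    (rowB 3 eng mog cd0q1 cd1q2b pd3 2 true true true .npn 1 2 3 (qsf 536870912 536870912 1239849684 370763052 3) ndB0q1 ndB1q2b pcB3 Cut.none Ext.none)

def k0_pp_123_b : ∃ t, chk3 f_pp_123_b t 1 1 1 = true :=
  ⟨(a (b (a (l 1) (b (a (b (a (b (a (l 1) (b (a (l 1) (l 16753112)) (l 1))) (l 1)) (a (b (b (a (l 16757272) (b (l 16764136) (l 16758224))) (l 16749856)) (l 1)) (b (b (a (a (l 16763800) (l 16776032)) (b (a (l 16769944) (l 16776944)) (l 16767944))) (l 16782104)) (l 16772872)))) (l 1)) (b (a (b (a (b (a (b (a (b (a (l 16774376) (l 60901294487)) (l 16773680)) (l 4)) (l 123178322855)) (l 4)) (l 4)) (l 4)) (l 4)) (l 4)) (l 4))) (a (l 1) (l 4)))) (l 1)) (a (l 4) (l 4))), by decide +kernel⟩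

theorem c_pp_123_b : CertB 536870912 536870912 1239849684 370763052 587336777 62277027 3 eng mog cd0q1 cd1q2b pd3 true true true .npn 1 2 3
    ndB0q1 ndB1q2b pcB3 Cut.none Ext.none :=
  certB2 (fam := true) (s1 := true) (s2 := true) (a := 1) (b := 2) (c := 3) (cn := .npn) (n1 := ndB0q1) (n2 := ndB1q2b) (pc := pcB3) (cut := Cut.none) (xt := Ext.none) (P1 := 536870912) (W1 := 536870912) (P2 := 1239849684) (W2 := 370763052) (P3 := 587336777) (W3 := 62277027) (N0 := 3) (En := eng) (mo := mog) (C1 := cd0q1) (C2 := cd1q2b) (C3 := pd3)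
    rfl (fun _ => rfl) k0_pp_123_b

noncomputable def f_pp_133 : ℕ → ℕ → ℕ → ℕ → Bool := onCell 536870912 536870912 1610612736 536870912 587336777 62277027
    (rowB 3 eng mog cd0q1 cd1q3 pd3 0 true true true .dn 1 3 3 (qsf 536870912 536870912 1610612736 536870912 3) ndB0q1 ndB1q3 pcB3 Cut.none Ext.none)

def k0_pp_133 : ∃ t, chk3 f_pp_133 t 1 1 1 = true :=
  ⟨(l 4), by decide +kernel⟩

theorem c_pp_133 : CertB 536870912 536870912 1610612736 536870912 587336777 62277027 3 eng mog cd0q1 cd1q3 pd3 true true true .dn 1 3 3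
    ndB0q1 ndB1q3 pcB3 Cut.none Ext.none :=
  certB0 (fam := true) (s1 := true) (s2 := true) (a := 1) (b := 3) (c := 3) (cn := .dn) (n1 := ndB0q1) (n2 := ndB1q3) (pc := pcB3) (cut := Cut.none) (xt := Ext.none) (P1 := 536870912) (W1 := 536870912) (P2 := 1610612736) (W2 := 536870912) (P3 := 587336777) (W3 := 62277027) (N0 := 3) (En := eng) (mo := mog) (C1 := cd0q1) (C2 := cd1q3) (C3 := pd3)
    rfl k0_pp_133

noncomputable def f_pp_202 : ℕ → ℕ → ℕ → ℕ → Bool := onCell 0 536870912 0 536870912 587336777 62277027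
    (rowB 3 eng mog cd0q2 cd1q0 pd2 0 true true true .pp 2 0 2 (qsf 0 536870912 0 536870912 2) ndB0q2 ndB1q0 pcB2 Cut.none Ext.none)

def k0_pp_202 : ∃ t, chk3 f_pp_202 t 1 1 1 = true :=
  ⟨(l 5), by decide +kernel⟩

theorem c_pp_202 : CertB 0 536870912 0 536870912 587336777 62277027 3 eng mog cd0q2 cd1q0 pd2 true true true .pp 2 0 2
    ndB0q2 ndB1q0 pcB2 Cut.none Ext.none :=
  certB0 (fam := true) (s1 := true) (s2 := true) (a := 2) (b := 0) (c := 2) (cn := .pp) (n1 := ndB0q2) (n2 := ndB1q0) (pc := pcB2) (cut := Cut.none) (xt := Ext.none) (P1 := 0) (W1 := 536870912) (P2 := 0) (W2 := 536870912) (P3 := 587336777) (W3 := 62277027) (N0 := 3) (En := eng) (mo := mog) (C1 := cd0q2) (C2 := cd1q0) (C3 := pd2)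
    rfl k0_pp_202

noncomputable def f_pp_203 : ℕ → ℕ → ℕ → ℕ → Bool := onCell 0 536870912 0 536870912 587336777 62277027
    (rowB 3 eng mog cd0q2 cd1q0 pd3 0 true true true .up 2 0 3 (qsf 0 536870912 0 536870912 3) ndB0q2 ndB1q0 pcB3 Cut.none Ext.none)

def k0_pp_203 : ∃ t, chk3 f_pp_203 t 1 1 1 = true :=
  ⟨(l 5), by decide +kernel⟩

theorem c_pp_203 : CertB 0 536870912 0 536870912 587336777 62277027 3 eng mog cd0q2 cd1q0 pd3 true true true .up 2 0 3
    ndB0q2 ndB1q0 pcB3 Cut.none Ext.none :=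
  certB0 (fam := true) (s1 := true) (s2 := true) (a := 2) (b := 0) (c := 3) (cn := .up) (n1 := ndB0q2) (n2 := ndB1q0) (pc := pcB3) (cut := Cut.none) (xt := Ext.none) (P1 := 0) (W1 := 536870912) (P2 := 0) (W2 := 536870912) (P3 := 587336777) (W3 := 62277027) (N0 := 3) (En := eng) (mo := mog) (C1 := cd0q2) (C2 := cd1q0) (C3 := pd3)
    rfl k0_pp_203

noncomputable def f_pp_213 : ℕ → ℕ → ℕ → ℕ → Bool := onCell 0 536870912 536870912 536870912 587336777 62277027
    (rowB 3 eng mog cd0q2 cd1q1 pd3 0 true true true .pnn 2 1 3 (qsf 0 536870912 536870912 536870912 3) ndB0q2 ndB1q1 pcB3 Cut.none Ext.none)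

def k0_pp_213 : ∃ t, chk3 f_pp_213 t 1 1 1 = true :=
  ⟨(l 5), by decide +kernel⟩

theorem c_pp_213 : CertB 0 536870912 536870912 536870912 587336777 62277027 3 eng mog cd0q2 cd1q1 pd3 true true true .pnn 2 1 3
    ndB0q2 ndB1q1 pcB3 Cut.none Ext.none :=
  certB0 (fam := true) (s1 := true) (s2 := true) (a := 2) (b := 1) (c := 3) (cn := .pnn) (n1 := ndB0q2) (n2 := ndB1q1) (pc := pcB3) (cut := Cut.none) (xt := Ext.none) (P1 := 0) (W1 := 536870912) (P2 := 536870912) (W2 := 536870912) (P3 := 587336777) (W3 := 62277027) (N0 := 3) (En := eng) (mo := mog) (C1 := cd0q2) (C2 := cd1q1) (C3 := pd3)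
    rfl k0_pp_213

noncomputable def f_pm_001 : ℕ → ℕ → ℕ → ℕ → Bool := onCell 0 536870912 0 536870912 587336777 62277027
    (rowB 3 eng mog cd0q0 cd1q0 pd1 0 true true false .up 0 0 1 (qsf 0 536870912 0 536870912 1) ndB0q0 ndB1q0 pcB1 Cut.none Ext.none)

def k0_pm_001 : ∃ t, chk3 f_pm_001 t 1 1 1 = true :=
  ⟨(l 3), by decide +kernel⟩

theorem c_pm_001 : CertB 0 536870912 0 536870912 587336777 62277027 3 eng mog cd0q0 cd1q0 pd1 true true false .up 0 0 1
    ndB0q0 ndB1q0 pcB1 Cut.none Ext.none :=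
  certB0 (fam := true) (s1 := true) (s2 := false) (a := 0) (b := 0) (c := 1) (cn := .up) (n1 := ndB0q0) (n2 := ndB1q0) (pc := pcB1) (cut := Cut.none) (xt := Ext.none) (P1 := 0) (W1 := 536870912) (P2 := 0) (W2 := 536870912) (P3 := 587336777) (W3 := 62277027) (N0 := 3) (En := eng) (mo := mog) (C1 := cd0q0) (C2 := cd1q0) (C3 := pd1)
    rfl k0_pm_001

noncomputable def f_pm_011 : ℕ → ℕ → ℕ → ℕ → Bool := onCell 536870912 536870912 536870912 536870912 587336777 62277027
    (rowB 3 eng mog cd0q0 cd1q1 pd1 2 true true false .pnn 0 1 1 (qsf 0 536870912 536870912 536870912 1) ndB0q0 ndB1q1 pcB1 Cut.none Ext.none)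

def k0_pm_011 : ∃ t, chk3 f_pm_011 t 1 1 1 = true :=
  ⟨(a (l 3) (l 3)), by decide +kernel⟩

theorem c_pm_011 : CertB 0 536870912 536870912 536870912 587336777 62277027 3 eng mog cd0q0 cd1q1 pd1 true true false .pnn 0 1 1
    ndB0q0 ndB1q1 pcB1 Cut.none Ext.none :=
  certB2 (fam := true) (s1 := true) (s2 := false) (a := 0) (b := 1) (c := 1) (cn := .pnn) (n1 := ndB0q0) (n2 := ndB1q1) (pc := pcB1) (cut := Cut.none) (xt := Ext.none) (P1 := 0) (W1 := 536870912) (P2 := 536870912) (W2 := 536870912) (P3 := 587336777) (W3 := 62277027) (N0 := 3) (En := eng) (mo := mog) (C1 := cd0q0) (C2 := cd1q1) (C3 := pd1)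
    rfl (fun _ => rfl) k0_pm_011

noncomputable def f_pm_012 : ℕ → ℕ → ℕ → ℕ → Bool := onCell 1073741824 536870912 536870912 536870912 587336777 62277027
    (rowB 3 eng mog cd0q0 cd1q1 pd2 2 true true false .pnp 0 1 2 (qsf 0 536870912 536870912 536870912 2) ndB0q0 ndB1q1 pcB2 Cut.none Ext.none)

def k0_pm_012 : ∃ t, chk3 f_pm_012 t 4 2 1 = true :=
  ⟨(l 3), by decide +kernel⟩

def k1_pm_012 : ∃ t, chk3 f_pm_012 t 8 3 1 = true :=
  ⟨(b (l 3) (b (l 3) (a (l 3) (b (l 3) (a (l 3) (b (a (l 3) (a (l 3) (b (l 3) (b (l 3) (l 16732200))))) (a (b (a (l 3) (b (l 3) (l 67276548887))) (a (b (l 3) (c (l 16732520) (l 11978834599))) (b (l 15200059335) (c (c (l 16727992) (l 16727688)) (a (l 16723152) (l 16720688)))))) (b (b (a (l 63518450791) (a (l 16719400) (l 16727624))) (a (a (l 16720672) (l 16728768)) (c (l 16725600) (l 16731672)))) (a (a (b (l 16722328) (a (l 16714168) (l 16713104))) (b (l 16715688) (l 16711464))) (b (l 16711640) (l 16718864))))))))))), by decide +kernel⟩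

def k2_pm_012 : ∃ t, chk3 f_pm_012 t 9 6 1 = true :=
  ⟨(a (l 3) (b (l 3) (a (l 3) (b (l 3) (a (b (l 3) (a (l 3) (b (l 3) (a (l 3) (l 16720992))))) (b (a (b (l 3) (a (l 3) (l 16723992))) (b (a (l 3) (l 16722928)) (a (l 16721456) (l 16718672)))) (a (a (b (l 16722536) (l 16718248)) (b (l 16719896) (l 16715296))) (b (a (l 16717024) (l 16714080)) (a (l 16712400) (l 16709976)))))))))), by decide +kernel⟩

def k3_pm_012 : ∃ t, chk3 f_pm_012 t 18 14 1 = true :=
  ⟨(a (l 3) (b (l 3) (a (l 3) (b (l 3) (a (b (l 3) (b (l 3) (a (l 3) (l 16721072)))) (b (b (l 3) (a (l 3) (l 16721088))) (a (b (l 16721112) (l 16718504)) (b (l 16718528) (l 16715856))))))))), by decide +kernel⟩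

def k4_pm_012 : ∃ t, chk3 f_pm_012 t 18 15 1 = true :=
  ⟨(b (a (b (l 3) (a (a (l 3) (c (l 193978063687) (l 207399840039))) (b (a (l 3) (a (l 119889876071) (b (l 16722480) (l 16719704)))) (b (a (l 105931268359) (a (l 16719272) (l 16716712))) (a (l 16730280) (a (l 16716208) (l 16713752))))))) (a (b (a (a (l 245517666615) (b (l 3) (b (l 16723048) (l 16720384)))) (b (a (l 3) (b (l 3) (l 16720832))) (a (l 16719096) (b (l 16718088) (l 16715240))))) (a (b (a (l 16718528) (b (l 16717560) (l 16714656))) (b (a (l 16714224) (l 16711776)) (l 16710056))) (b (a (b (l 16714984) (l 16712152)) (b (l 16712448) (l 16709600))) (l 16706560)))) (b (a (b (a (b (l 16720976) (l 16718280)) (b (l 16718416) (l 16715648))) (a (b (l 16715464) (l 16712696)) (b (l 16712896) (l 16710160)))) (b (a (b (l 16715784) (l 16713056)) (b (l 16713168) (l 16710536))) (l 16707792))) (b (l 16704808) (a (l 16701656) (l 16696944)))))) (a (b (a (a (b (a (l 3) (l 145659691751)) (b (l 16730800) (l 16730200))) (a (b (l 16726560) (l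 16728352)) (b (b (l 16720680) (l 16717632)) (l 16728672)))) (b (a (a (l 16726440) (a (l 16725384) (l 16724208))) (a (b (l 16713232) (l 16710192)) (l 16709256))) (a (l 16709272) (l 16704392)))) (a (b (a (b (l 16724248) (l 16710664)) (l 16707872)) (b (l 16715792) (l 16701928))) (b (a (l 16703096) (l 16698504)) (a (l 16696904) (l 16692280))))) (b (a (a (b (l 16705608) (l 16699712)) (b (l 16700760) (l 16695136))) (b (l 16693848) (l 16688384))) (a (b (l 16691768) (l 16685296)) (b (l 16682488) (l 16676024)))))), by decide +kernel⟩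

def k5_pm_012 : ∃ t, chk3 f_pm_012 t 19 14 1 = true :=
  ⟨(a (b (a (l 3) (b (l 3) (a (b (l 3) (a (l 16723168) (l 16720464))) (b (a (l 16721960) (l 16719176)) (a (l 16717696) (l 16714872)))))) (a (b (a (a (l 3) (b (l 3) (l 16722024))) (a (b (l 3) (l 16719408)) (b (l 16721424) (l 16716744)))) (a (b (a (b (l 16721008) (l 16718488)) (l 16717112)) (a (l 16714544) (l 16711992))) (b (b (l 16714384) (l 16732904)) (a (l 16709472) (l 16706976))))) (b (a (b (a (l 16718736) (l 16715984)) (b (l 16713856) (l 16695792))) (b (a (l 16713208) (l 16710496)) (a (l 16708720) (l 16706120)))) (a (b (a (l 16709296) (l 16706712)) (l 16703208)) (l 16700600))))) (b (a (b (a (b (a (l 3) (l 16722016)) (a (l 16720448) (l 16717704))) (b (a (l 16719384) (l 16716528)) (a (l 16714752) (l 16711800)))) (a (b (a (l 16716320) (l 16713440)) (a (l 16712056) (l 16709312))) (b (a (l 16710600) (l 16707816)) (l 16705280)))) (b (a (b (a (l 16713528) (l 16710768)) (a (l 16709192) (l 16707000))) (a (b (l 16708464) (l 16705072))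 (l 16704952))) (c (l 16721984) (l 16721424)))) (a (b (a (b (a (l 16707832) (l 16705208)) (l 16702264)) (l 16699232)) (a (b (l 16697864) (l 16693312)) (b (l 16692952) (l 16688448)))) (b (a (b (l 16696944) (l 16692856)) (b (l 16692848) (l 16688408))) (a (l 16686104) (l 16681448)))))), by decide +kernel⟩

def k6_pm_012 : ∃ t, chk3 f_pm_012 t 19 15 1 = true :=
  ⟨(a (b (a (b (a (b (a (l 16709360) (l 16706880)) (l 16702904)) (b (l 16703200) (l 16698072))) (b (a (l 16687120) (l 16692920)) (l 16690040))) (b (a (b (l 16698304) (l 16693312)) (b (l 16693456) (l 16688560))) (b (l 16685904) (l 16680768)))) (b (a (b (l 16684744) (l 16679152)) (b (l 16675400) (l 16669760))) (a (b (l 16673120) (l 16666776)) (l 16660776)))) (a (b (b (l 16694248) (b (l 16676400) (l 16671288))) (b (l 16663264) (l 16651640))) (b (b (a (l 16676664) (l 16671896)) (a (l 16666800) (l 16662120))) (b (l 16653976) (b (l 16645504) (l 16639568)))))), by decide +kernel⟩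

def k7_pm_012 : ∃ t, chk3 f_pm_012 t 20 2 1 = true :=
  ⟨(a (l 3) (b (l 2) (a (b (l 3) (a (l 3) (b (l 3) (a (a (l 3) (b (l 3) (l 115058097223))) (a (b (l 3) (l 64055362055)) (b (l 97878227703) (l 43654267191))))))) (a (b (l 3) (a (a (b (l 3) (b (c (l 16754360) (l 16740424)) (l 16749864))) (b (b (l 3) (l 78014004823)) (b (c (l 16743536) (l 16740024)) (c (l 16741024) (l 16736840))))) (a (b (b (l 3) (c (l 16744856) (l 16742000))) (b (c (l 16743176) (l 16739552)) (c (l 16740728) (l 16736456)))) (a (b (b (l 16744504) (l 16743176)) (b (l 16741088) (l 16738352))) (b (b (l 16744352) (l 16742976)) (b (l 16740904) (l 16738112))))))) (b (b (b (l 2) (a (a (l 3) (a (l 3) (l 16744072))) (l 16744008))) (a (a (b (l 3) (c (l 16745672) (l 16743616))) (a (b (l 16744384) (l 16744376)) (b (l 16744248) (l 16744200)))) (a (a (b (a (l 16744176) (l 16759848)) (a (l 16744088) (a (l 16743888) (l 16743504)))) (b (l 16744112) (l 16743128))) (b (l 16743976) (l 16742912))))) (a (a (b (a (b (l 16744168) (l 16742800))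 (b (l 16743984) (l 16742640))) (b (a (l 16740736) (l 16740464)) (l 16737600))) (a (b (b (l 16743808) (l 16742376)) (b (l 16739936) (l 16736792))) (b (b (c (l 16744864) (l 16742192)) (l 16741792)) (b (l 16739176) (l 16735984))))) (a (a (a (b (b (l 16743120) (l 16741008)) (b (l 16738376) (l 16735160))) (a (b (b (l 16742496) (l 16740360)) (b (l 16737728) (l 16734512))) (b (b (l 16741864) (l 16760688)) (b (c (l 16738776) (l 16735352)) (l 16733864))))) (b (b (l 16741496) (l 16739360)) (b (l 16736736) (l 16733480)))) (b (b (l 16741208) (l 16739008)) (b (l 16736304) (l 16733056)))))))))), by decide +kernel⟩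

def k8_pm_012 : ∃ t, chk3 f_pm_012 t 21 2 1 = true :=
  ⟨(b (l 2) (b (b (a (b (l 2) (l 16743640)) (l 2)) (a (b (l 16742360) (l 16761552)) (b (l 16739672) (l 16736608)))) (b (a (b (a (l 16739504) (l 16736688)) (a (l 16736968) (l 16733544))) (b (l 16732912) (l 16728856))) (a (b (a (l 16733960) (l 16729992)) (a (l 16730480) (l 16726080))) (b (l 16724528) (l 16719864)))))), by decide +kernel⟩

def k9_pm_012 : ∃ t, chk3 f_pm_012 t 11 2 1 = true :=
  ⟨(b (l 2) (b (a (b (l 2) (a (l 16735576) (l 2))) (l 2)) (a (b (a (l 16747296) (l 16722976)) (a (b (l 16718232) (l 16712592)) (l 16709856))) (b (b (l 2) (l 16716520)) (a (l 16705696) (l 16703024)))))), by decide +kernel⟩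

def k10_pm_012 : ∃ t, chk3 f_pm_012 t 40 3 1 = true :=
  ⟨(b (b (a (l 3) (b (l 3) (a (b (l 3) (a (b (l 3) (l 16729192)) (b (l 16730376) (l 16727128)))) (b (a (b (l 3) (l 16731504)) (b (l 16732672) (l 16729872))) (a (l 28084990503) (b (l 16726744) (l 16723368))))))) (a (b (a (b (l 3) (b (a (l 3) (l 16725624)) (a (l 16724312) (l 16721696)))) (b (a (b (l 3) (l 16726856)) (b (l 16728032) (l 16724416))) (a (b (l 16723080) (l 16718864)) (b (l 16720368) (l 16716208))))) (b (a (b (a (l 16720232) (l 16717344)) (a (l 16715744) (l 16713072))) (a (b (l 16714600) (l 16711032)) (b (l 16712624) (l 16709728)))) (a (b (a (l 16711520) (l 16709568)) (l 16707288)) (l 16705832)))) (b (a (b (a (b (l 16725760) (l 16721968)) (b (l 16723552) (l 16719856))) (a (b (l 16718048) (l 16714536)) (b (l 16716464) (l 16713632)))) (b (a (b (l 16721632) (l 16718360)) (l 16739904)) (l 16713776))) (b (a (l 16709728) (l 16707504)) (a (l 16703240) (b (l 16702224) (l 16698120))))))) (b (b (a (b (a (l 16702336) (b (l 16700808)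 (l 16697224))) (a (b (l 16696984) (l 16692920)) (b (l 16693072) (l 16688584)))) (b (a (b (l 16697704) (l 16693360)) (l 16691216)) (a (l 16686344) (l 16681464)))) (a (b (a (l 16686168) (l 16681504)) (b (l 16676672) (l 16671888))) (b (a (l 16676656) (b (l 16674008) (l 16669232))) (a (l 16688096) (l 16662424))))) (b (a (b (a (l 16667152) (l 16662488)) (l 16655112)) (b (b (l 16678776) (l 16674032)) (a (l 16648104) (l 16643384)))) (a (b (a (l 16647048) (l 16642432)) (l 16654568)) (b (l 16656448) (l 16645608)))))), by decide +kernel⟩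

def k11_pm_012 : ∃ t, chk3 f_pm_012 t 82 6 1 = true :=
  ⟨(b (a (b (a (b (l 3) (a (l 133311701335) (l 63518484583))) (b (c (l 116131836615) (l 16736504)) (c (l 16756920) (l 16732064)))) (b (a (c (l 16731536) (l 16728064)) (b (l 16729952) (l 16727216))) (a (b (l 16746128) (l 16722176)) (b (l 16724592) (l 16722056))))) (b (a (b (c (l 57612907783) (l 16735368)) (b (l 16734096) (l 16731648))) (a (b (l 16736648) (l 16742752)) (b (l 16736144) (l 16731984)))) (b (a (b (l 16729184) (l 16726776)) (l 16727664)) (a (l 16723080) (l 16722304))))) (b (a (b (a (l 16718248) (l 16717768)) (l 16732848)) (b (a (l 16716968) (l 16715744)) (a (b (l 16711880) (l 16708168)) (b (l 16710176) (l 16705928))))) (a (b (a (l 16726536) (b (l 16705976) (l 16701800))) (a (l 16697160) (l 16694752))) (b (a (l 16701680) (l 16698920)) (a (l 16692080) (l 16689104)))))), by decide +kernel⟩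

def k12_pm_012 : ∃ t, chk3 f_pm_012 t 166 6 1 = true :=
  ⟨(b (b (a (a (b (a (l 16735792) (l 16735632)) (l 16731720)) (b (l 16735464) (l 16731408))) (b (c (l 16737168) (l 16732616)) (c (l 16732832) (l 16728296)))) (a (b (l 16737320) (l 16742024)) (a (b (l 16725864) (b (l 16721480) (l 16717968))) (b (l 16724952) (b (l 16720328) (l 16716528)))))) (b (b (a (b (l 16715792) (l 16711904)) (a (l 16711880) (l 16709960))) (a (l 16715760) (c (l 16703144) (l 16700048)))) (b (a (l 16695736) (l 16712856)) (a (l 16685736) (a (l 16682864) (l 16701768)))))), by decide +kernel⟩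

def k13_pm_012 : ∃ t, chk3 f_pm_012 t 167 6 1 = true :=
  ⟨(b (a (a (b (b (l 16733792) (l 16729176)) (b (b (l 16725160) (l 16722088)) (b (l 16718600) (l 16714344)))) (a (b (b (l 16732872) (l 16728136)) (b (l 16743216) (l 16714456))) (b (b (l 16732008) (b (l 16728488) (l 16725720))) (b (b (l 16722496) (l 16718760)) (l 16712608))))) (b (a (a (a (b (l 16731144) (l 16746872)) (a (b (l 16751320) (l 16735152)) (a (a (b (l 16729800) (l 16723648)) (b (b (l 16730728) (l 16727912)) (c (l 16724488) (l 16721328)))) (b (l 16729216) (l 16722720))))) (b (l 16729056) (l 16722552))) (b (l 16728608) (l 16722104))) (a (a (a (b (l 16718864) (l 16710696)) (a (b (l 16717384) (l 16709120)) (a (a (b (l 16716312) (l 16707976)) (b (c (l 16716496) (l 16714456)) (c (l 16728480) (l 16706584)))) (b (l 16715280) (l 16706848))))) (b (l 16715112) (l 16706672))) (b (l 16714648) (l 16706192))))) (a (a (b (b (l 16707624) (l 16698184)) (b (l 16688256) (b (l 16680800) (l 16676464)))) (a (b (b (l 16705464) (l 16695920))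 (b (l 16685968) (l 16677152))) (b (b (l 16703520) (l 16693888)) (b (b (l 16686416) (l 16681944)) (l 16676080))))) (b (a (a (a (b (l 16701520) (l 16691808)) (a (b (l 16699888) (l 16700744)) (a (a (b (l 16698720) (l 16689248)) (b (l 16697824) (b (l 16690520) (l 16686384)))) (b (l 16697528) (l 16688256))))) (b (l 16697336) (l 16688040))) (b (l 16696824) (l 16687480))) (a (a (a (b (l 16682840) (l 16675064)) (a (b (l 16681984) (l 16674304)) (b (a (a (l 16681472) (l 16681000)) (l 16680888)) (a (a (l 16673784) (l 16673320)) (l 16673216))))) (b (l 16680656) (l 16672960))) (b (l 16680032) (l 16672288)))))), by decide +kernel⟩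

def k14_pm_012 : ∃ t, chk3 f_pm_012 t 41 7 1 = true :=
  ⟨(a (b (a (b (b (l 16686208) (b (l 16678680) (l 16694640))) (b (b (l 16668936) (l 16664464)) (l 16657728))) (b (b (a (l 16682056) (l 16678960)) (a (b (l 16674408) (l 16669672)) (l 16690424))) (b (l 16661888) (l 16652832)))) (b (b (a (l 16648360) (l 16643424)) (a (l 16638616) (l 16633696))) (b (l 16628680) (l 16636592)))) (b (a (b (b (a (b (l 16678064) (l 16673336)) (c (l 16673080) (l 16672064))) (a (l 16666880) (l 16664128))) (b (a (l 16658088) (l 16655264)) (a (l 16648960) (l 16646104)))) (a (a (b (b (l 16670360) (l 16661808)) (b (l 16652888) (l 16643720))) (b (b (l 16668424) (c (l 16659680) (l 16659640))) (b (l 16671856) (l 16641752)))) (b (a (a (a (b (l 16666880) (l 16658248)) (a (b (l 16666096) (l 16657456)) (a (a (b (l 16665560) (l 16656920)) (b (l 16665112) (c (l 16655672) (l 16656888)))) (b (l 16665008) (l 16656384))))) (b (l 16664736) (l 16656104))) (b (l 16664024) (l 16655344))) (a (a (a (b (l 16649320) (l 16640216))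 (a (b (l 16648536) (l 16639472)) (b (b (l 16649864) (l 16645392)) (l 16638656)))) (b (l 16647216) (l 16638216))) (b (l 16646416) (l 16637376)))))) (a (b (b (l 16630208) (l 16628440)) (b (l 16618656) (l 16629680))) (a (b (b (c (l 16632944) (l 16633312)) (l 16644872)) (b (l 16635432) (a (l 16605704) (l 16625496)))) (a (a (a (b (l 16642184) (b (l 16612960) (l 16603808))) (a (b (b (l 16630344) (l 16621248)) (b (l 16612736) (l 16619320))) (b (b (l 16629624) (l 16621096)) (b (l 16644040) (b (l 16647696) (l 16601056)))))) (b (l 16645760) (b (l 16612208) (l 16603088)))) (b (l 16650048) (b (l 16611328) (l 16602240)))))))), by decide +kernel⟩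

def k15_pm_012 : ∃ t, chk3 f_pm_012 t 21 3 1 = true :=
  ⟨(a (b (b (b (b (b (l 16724952) (l 16722224)) (c (l 16740176) (l 16714880))) (b (b (l 16711488) (l 16728424)) (b (l 16724120) (l 16698456)))) (a (b (b (l 16693760) (l 16684128)) (b (l 16676296) (l 16668296))) (b (b (l 16688440) (l 16678288)) (b (l 16669840) (l 16661376))))) (b (b (b (a (l 16659768) (l 16652400)) (a (c (l 16650336) (l 16650920)) (b (l 16645400) (l 16640648)))) (b (b (c (l 16639488) (l 16639832)) (l 16635144)) (a (l 16632408) (l 16623760)))) (b (b (l 16618632) (l 16630320)) (b (l 16622176) (b (c (l 16595728) (l 16594424)) (l 16611264)))))) (b (b (b (b (l 16735680) (b (l 16709896) (l 16706232))) (b (b (l 16702280) (l 16698096)) (b (l 16693624) (l 16688632)))) (a (b (b (l 16683304) (l 16672664)) (b (l 16663592) (l 16654680))) (b (b (l 16678336) (l 16667272)) (b (l 16657576) (l 16648232))))) (b (a (b (b (b (l 16647664) (l 16642848)) (b (l 16637952) (l 16632976))) (b (l 16625440) (l 16615360))) (b (b (b (l 16640888)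 (l 16635864)) (b (l 16630744) (l 16625560))) (b (l 16617720) (l 16607216)))) (b (b (b (l 16603600) (l 16598592)) (l 16591264)) (b (l 16581864) (l 16600456)))))), by decide +kernel⟩

def k16_pm_012 : ∃ t, chk3 f_pm_012 t 11 6 1 = true :=
  ⟨(b (b (a (b (l 16723824) (a (l 16699704) (l 16691976))) (b (l 16691200) (l 16682216))) (a (b (a (l 16712328) (l 16683288)) (a (l 16703056) (l 16673456))) (b (l 16693560) (a (l 16665616) (l 16658416))))) (b (a (b (a (l 16692184) (l 16662352)) (a (b (l 16662576) (l 16656680)) (l 16650232))) (b (a (l 16653904) (l 16646248)) (a (l 16641584) (l 16633336)))) (a (b (a (b (l 16651400) (l 16646544)) (b (l 16641120) (l 16635776))) (a (b (l 16641552) (l 16636416)) (b (l 16630352) (l 16645776)))) (b (a (b (l 16631840) (l 16625928)) (l 16620208)) (a (b (l 16620152) (a (l 16616768) (l 16611720))) (b (l 16610832) (l 16604560))))))), by decide +kernel⟩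

def k17_pm_012 : ∃ t, chk3 f_pm_012 t 11 7 1 = true :=
  ⟨(b (b (a (b (a (b (a (l 16634352) (l 16628080)) (a (l 16629120) (l 16622624))) (b (c (l 16622312) (l 16615648)) (c (l 16616432) (l 16609984)))) (a (b (a (l 16623792) (l 16617088)) (a (l 16618400) (l 16611488))) (b (a (l 16610648) (l 16604464)) (a (c (l 16607344) (l 16601992)) (c (l 16601464) (l 16595088)))))) (b (a (b (c (l 16612336) (l 16603616)) (c (l 16606040) (l 16597536))) (b (c (l 16603336) (l 16592624)) (a (l 16594056) (l 16589104)))) (a (a (b (l 16598536) (c (l 16595840) (l 16588448))) (b (l 16603360) (c (l 16590480) (l 16582064)))) (a (b (l 16600576) (l 16601776)) (b (l 16582312) (l 16596416)))))) (a (b (a (b (a (l 16612960) (l 16605848)) (l 16603800)) (b (a (l 16598984) (l 16592376)) (l 16610632))) (a (b (l 16598240) (l 16592688)) (b (l 16583680) (l 16577720)))) (b (a (b (a (l 16586024) (l 16579936)) (a (l 16579728) (l 16573424))) (b (c (l 16575912) (l 16566360)) (l 16564440))) (a (b (l 16570128) (l 16563760)) (b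 (l 16557608) (l 16550800)))))) (b (a (b (a (a (l 16588568) (l 16580528)) (b (l 16571832) (l 16566016))) (a (l 16573960) (l 16599528))) (b (a (l 16575304) (l 16561696)) (a (l 16542160) (l 16527736)))) (a (b (c (l 16576360) (l 16617984)) (c (l 16588360) (l 16599184))) (a (b (l 16530816) (l 16521528)) (b (l 16515536) (l 16505648)))))), by decide +kernel⟩

def k18_pm_012 : ∃ t, chk3 f_pm_012 t 3 2 1 = true :=
  ⟨(a (b (l 2) (a (b (l 2) (b (l 2) (a (l 16743928) (l 2)))) (l 2))) (l 2)), by decide +kernel⟩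

def k19_pm_012 : ∃ t, chk3 f_pm_012 t 3 6 1 = true :=
  ⟨(a (b (a (b (a (l 16701056) (l 16680080)) (a (b (l 16662456) (l 16670752)) (b (l 16658744) (l 16643648)))) (b (l 2) (a (l 16653960) (l 2)))) (a (b (a (b (l 16636152) (a (l 16625872) (l 16619048))) (b (l 16627392) (l 16611216))) (a (b (a (l 16611960) (l 16604608)) (a (l 16619944) (b (l 16594000) (l 16587408)))) (b (l 16595176) (a (l 16583088) (l 16576328))))) (b (a (b (l 16625640) (l 16606424)) (l 16621216)) (a (b (l 16587432) (a (l 16571024) (l 16567200))) (b (l 16587296) (a (l 16565224) (l 16565328))))))) (a (b (l 2) (b (l 2) (a (b (l 2) (l 16570544)) (l 2)))) (l 2))), by decide +kernel⟩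

def k20_pm_012 : ∃ t, chk3 f_pm_012 t 12 7 1 = true :=
  ⟨(b (b (a (b (a (b (l 16589000) (c (l 16588184) (l 16575720))) (b (l 16580472) (l 16594288))) (a (a (b (l 16577408) (l 16570336)) (b (l 16572728) (l 16565472))) (b (c (l 16572872) (l 16558816)) (a (l 16560808) (l 16556168))))) (b (a (b (l 16572248) (l 16564928)) (a (l 16562728) (l 16559000))) (a (b (c (l 16564936) (l 16549360)) (c (l 16556936) (l 16541680))) (b (a (l 16551072) (l 16546992)) (c (l 16549120) (l 16532464)))))) (a (b (a (b (c (l 16566288) (l 16554728)) (l 16553376)) (a (b (l 16553288) (l 16545696)) (l 16565512))) (a (b (l 16546104) (l 16538856)) (a (l 16534312) (l 16528856)))) (b (a (b (l 16572904) (l 16554280)) (c (b (l 16540584) (l 16531848)) (l 16520296))) (a (b (l 16525112) (l 16516912)) (a (l 16534600) (l 16508920)))))) (b (a (b (a (l 16549096) (a (l 16519272) (l 16513312))) (a (l 16514248) (l 16522432))) (b (a (l 16525648) (b (l 16498248) (l 16489656))) (a (l 16488824) (l 16476992)))) (b (a (a (l 16501216)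 (l 16487504)) (a (l 16473888) (l 16460976))) (a (a (l 16532536) (l 16539096)) (b (a (l 16463656) (l 16449936)) (l 16452784)))))), by decide +kernel⟩

def k21_pm_012 : ∃ t, chk3 f_pm_012 t 13 7 1 = true :=
  ⟨(a (b (c (b (b (a (l 16563224) (l 16558704)) (a (b (l 16550296) (c (l 16545920) (l 16537168))) (b (l 16544248) (l 16534696)))) (b (a (a (l 16530264) (l 16526200)) (a (l 16522440) (l 16518752))) (a (b (l 16514488) (l 16505072)) (a (l 16503528) (l 16499232))))) (b (b (l 16540856) (a (l 16527760) (l 16519800))) (b (a (l 16510880) (l 16502168)) (a (l 16494000) (l 16484344))))) (b (b (a (b (l 16488472) (l 16479392)) (c (l 16481680) (l 16466760))) (a (l 16465984) (l 16455576))) (b (a (l 16448824) (l 16437392)) (a (b (l 16436888) (l 16432400)) (b (l 16424560) (l 16419456)))))) (b (b (b (a (c (l 16555968) (l 16532808)) (l 16542512)) (b (a (l 16529040) (l 16525400)) (a (l 16539864) (l 16535160)))) (b (a (b (l 16529832) (l 16519936)) (c (l 16508336) (l 16486968))) (a (a (l 16507528) (l 16503296))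 (c (l 16485712) (l 16466672))))) (b (b (a (c (l 16493464) (l 16456760)) (c (l 16463928) (l 16447304))) (a (l 16445616) (l 16456408))) (b (a (l 16426488) (l 16415920)) (b (l 16407176) (a (l 16407032) (l 16395016))))))), by decide +kernel⟩

def k22_pm_012 : ∃ t, chk3 f_pm_012 t 7 7 1 = true :=
  ⟨(b (a (b (a (a (b (l 16543008) (a (l 16518016) (l 16518192))) (b (l 16546544) (l 16519848))) (b (l 2) (a (l 16524312) (l 2)))) (a (a (a (b (l 16515216) (l 16471360)) (b (l 16493752) (l 16470280))) (b (l 16494392) (l 16470040))) (b (a (l 16497080) (l 16502536)) (a (l 16471416) (l 16474968))))) (b (l 2) (a (b (l 2) (a (l 16481448) (l 2))) (l 2)))) (a (b (a (b (a (c (l 16457336) (l 16439296)) (l 16446880)) (a (a (l 16428456) (l 16426408)) (l 16424824))) (b (a (l 16447064) (l 16449200)) (a (l 16424128) (l 16425000)))) (b (a (a (l 16427840) (l 16404240)) (a (l 16402552) (l 16402464))) (a (a (b (l 16392432) (l 16385176)) (b (l 16389424) (l 16381816))) (a (b (l 16387568) (l 16379336)) (c (l 16391704)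 (l 16372864)))))) (b (a (b (a (l 16453648) (l 16461192)) (a (l 16427936) (l 16433312))) (b (l 2) (a (l 16441952) (l 2)))) (a (b (a (l 16404040) (l 16407800)) (a (c (l 16394104) (l 16371352)) (c (l 16398480) (l 16371424)))) (b (a (l 16414128) (l 16423904)) (a (l 16426064) (l 16396544))))))), by decide +kernel⟩

theorem s23_pm_012 : ∃ t, chk3 f_pm_012 t 6 7 1 = true := ex3_a k20_pm_012 k21_pm_012

theorem s24_pm_012 : ∃ t, chk3 f_pm_012 t 3 7 1 = true := ex3_a s23_pm_012 k22_pm_012

theorem s25_pm_012 : ∃ t, chk3 f_pm_012 t 3 3 1 = true := ex3_b k19_pm_012 s24_pm_012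

theorem s26_pm_012 : ∃ t, chk3 f_pm_012 t 3 1 1 = true := ex3_b k18_pm_012 s25_pm_012

theorem s27_pm_012 : ∃ t, chk3 f_pm_012 t 11 3 1 = true := ex3_b k16_pm_012 k17_pm_012

theorem s28_pm_012 : ∃ t, chk3 f_pm_012 t 83 6 1 = true := ex3_a k12_pm_012 k13_pm_012

theorem s29_pm_012 : ∃ t, chk3 f_pm_012 t 41 6 1 = true := ex3_a k11_pm_012 s28_pm_012

theorem s30_pm_012 : ∃ t, chk3 f_pm_012 t 41 3 1 = true := ex3_b s29_pm_012 k14_pm_012

theorem s31_pm_012 : ∃ t, chk3 f_pm_012 t 20 3 1 = true := ex3_a k10_pm_012 s30_pm_012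

theorem s32_pm_012 : ∃ t, chk3 f_pm_012 t 10 3 1 = true := ex3_a s31_pm_012 k15_pm_012

theorem s33_pm_012 : ∃ t, chk3 f_pm_012 t 5 3 1 = true := ex3_a s32_pm_012 s27_pm_012

theorem s34_pm_012 : ∃ t, chk3 f_pm_012 t 10 2 1 = true := ex3_a k7_pm_012 k8_pm_012

theorem s35_pm_012 : ∃ t, chk3 f_pm_012 t 5 2 1 = true := ex3_a s34_pm_012 k9_pm_012

theorem s36_pm_012 : ∃ t, chk3 f_pm_012 t 5 1 1 = true := ex3_b s35_pm_012 s33_pm_012

theorem s37_pm_012 : ∃ t, chk3 f_pm_012 t 19 7 1 = true := ex3_b k5_pm_012 k6_pm_012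

theorem s38_pm_012 : ∃ t, chk3 f_pm_012 t 18 7 1 = true := ex3_b k3_pm_012 k4_pm_012

theorem s39_pm_012 : ∃ t, chk3 f_pm_012 t 9 7 1 = true := ex3_a s38_pm_012 s37_pm_012

theorem s40_pm_012 : ∃ t, chk3 f_pm_012 t 9 3 1 = true := ex3_b k2_pm_012 s39_pm_012

theorem s41_pm_012 : ∃ t, chk3 f_pm_012 t 4 3 1 = true := ex3_a k1_pm_012 s40_pm_012

theorem s42_pm_012 : ∃ t, chk3 f_pm_012 t 4 1 1 = true := ex3_b k0_pm_012 s41_pm_012

theorem s43_pm_012 : ∃ t, chk3 f_pm_012 t 2 1 1 = true := ex3_a s42_pm_012 s36_pm_012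

theorem s44_pm_012 : ∃ t, chk3 f_pm_012 t 1 1 1 = true := ex3_a s43_pm_012 s26_pm_012

theorem c_pm_012 : CertB 0 536870912 536870912 536870912 587336777 62277027 3 eng mog cd0q0 cd1q1 pd2 true true false .pnp 0 1 2
    ndB0q0 ndB1q1 pcB2 Cut.none Ext.none :=
  certB2 (fam := true) (s1 := true) (s2 := false) (a := 0) (b := 1) (c := 2) (cn := .pnp) (n1 := ndB0q0) (n2 := ndB1q1) (pc := pcB2) (cut := Cut.none) (xt := Ext.none) (P1 := 0) (W1 := 536870912) (P2 := 536870912) (W2 := 536870912) (P3 := 587336777) (W3 := 62277027) (N0 := 3) (En := eng) (mo := mog) (C1 := cd0q0) (C2 := cd1q1) (C3 := pd2)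
    rfl (fun _ => rfl) s44_pm_012

noncomputable def cut_pm_022_a : Cut := Cut.of [[⟨0, 0, 0, 67108864⟩, ⟨1, 1, 0, 67108864⟩, ⟨2, 1, 0, 67108864⟩]]

noncomputable def xt_pm_022_a : Ext := extD2 3 ⟨7, 3, 3, 10, 1815, 1000, 17, 20, 37, 100, 3, 16⟩ eng cd0q0 cd1q2a pd2 true true false .pp 0 2 2 rfl ndB0q0 ndB1q2a pcB2

noncomputable def f_pm_022_a : ℕ → ℕ → ℕ → ℕ → Bool := onCell 1073741824 536870912 0 536870912 587336777 62277027
    (rowB 3 eng mog cd0q0 cd1q2a pd2 2 true true false .pp 0 2 2 (qsf 0 536870912 0 536870912 2) ndB0q0 ndB1q2a pcB2 cut_pm_022_a xt_pm_022_a)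

def k0_pm_022_a : ∃ t, chk3 f_pm_022_a t 8 1 1 = true :=
  ⟨(b (l 1) (b (l 1) (b (a (l 1) (b (a (l 1) (a (l 1) (b (l 1) (b (l 16642032) (l 16648560))))) (a (l 6) (a (l 6) (a (l 6) (b (l 16656680) (l 16668672))))))) (a (l 6) (a (l 6) (a (l 6) (a (l 6) (b (b (l 16680416) (l 16691688)) (b (b (l 16698280) (l 16701704)) (b (l 16704928) (c (l 16708992) (l 16707000)))))))))))), by decide +kernel⟩

def k1_pm_022_a : ∃ t, chk3 f_pm_022_a t 9 2 1 = true :=
  ⟨(b (l 1) (a (l 1) (b (l 1) (b (l 1) (a (l 1) (a (l 1) (c (l 16520376) (b (l 16504456) (l 16513336))))))))), by decide +kernel⟩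

def k2_pm_022_a : ∃ t, chk3 f_pm_022_a t 9 6 1 = true :=
  ⟨(b (a (l 1) (a (b (b (l 1) (a (l 1) (c (l 16543880) (l 16531872)))) (c (b (l 16554248) (l 50499000087)) (b (a (l 1) (l 16542704)) (a (l 16554392) (l 16553584))))) (b (a (c (l 16538384) (b (l 16522056) (l 16532056))) (c (l 16537288) (b (l 16522512) (l 16531928)))) (b (a (l 16547544) (l 16546264)) (a (l 16557216) (l 16555368)))))) (a (b (a (l 1) (a (b (l 1) (l 16586064)) (b (l 16572576) (l 60162709687)))) (a (a (l 1) (b (l 16600544) (l 16612848))) (b (a (l 36003555303) (l 16595352)) (a (l 16609720) (l 16606352))))) (b (a (b (a (c (l 16575336) (l 16565792)) (l 16569000)) (a (l 16581712) (l 16579160))) (b (a (l 16566816) (l 16564424)) (l 16574920))) (a (b (a (l 16592392) (l 16589208)) (l 16600920)) (c (b (l 16586136) (l 16594632)) (b (l 16581352) (l 16590896))))))), by decide +kernel⟩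

def k3_pm_022_a : ∃ t, chk3 f_pm_022_a t 9 7 1 = true :=
  ⟨(b (a (b (a (b (a (l 16628592) (l 16625008)) (a (b (l 16638120) (l 16644296)) (l 16636944))) (b (a (l 16621208) (l 16617192)) (a (l 16632464) (l 16627808)))) (a (b (a (l 16653112) (l 16648208)) (a (l 16664648) (l 16659168))) (b (a (l 16643160) (l 16637960)) (l 16661192)))) (b (a (b (a (l 16613024) (l 16608672)) (l 16620544)) (b (l 16601872) (l 16610408))) (a (c (l 16655960) (l 16633784)) (c (l 16643496) (l 16622736))))) (b (b (a (a (a (l 16675936) (l 16669872)) (l 16681496)) (a (l 16667040) (l 16684672))) (a (a (c (l 16703784) (l 16683088)) (a (l 16671368) (l 16663800))) (a (c (l 16695480) (l 16652192)) (a (l 16641896) (l 16634904))))) (a (b (a (a (b (l 16692256) (c (l 16696104) (l 16695304))) (b (l 16684296) (l 16687536))) (b (a (l 16676424) (l 16668680)) (a (l 16679552) (l 16671704)))) (b (a (a (l 16709240) (l 16690576)) (a (l 16682472) (l 16674512))) (a (b (a (l 16700960) (l 16692696)) (a (c (l 16708904) (l 16701208))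 (c (l 16695552) (l 16692696)))) (a (c (a (l 16688800) (l 16684848)) (l 16683720)) (c (a (l 16680928) (l 16677040)) (l 16675424)))))) (b (a (a (b (l 16661048) (l 16663960)) (l 16655016)) (a (l 16647632) (c (l 16642464) (l 16638616)))) (a (b (a (l 16666648) (l 16658936)) (c (a (b (l 16670576) (c (l 16673136) (l 16670776))) (a (l 16670800) (l 16667048))) (a (l 16667208) (l 16659128)))) (b (a (l 16651376) (c (l 16646480) (l 16641664))) (c (a (a (l 16663328) (l 16659632)) (b (l 16648320) (a (l 16651304) (l 16647648)))) (a (l 16651192) (l 16643376))))))))), by decide +kernel⟩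

def k4_pm_022_a : ∃ t, chk3 f_pm_022_a t 5 2 1 = true :=
  ⟨(a (b (a (a (l 1) (b (l 16448048) (b (l 16459664) (l 16467072)))) (b (a (c (l 16457464) (l 16455144)) (l 16460064)) (a (c (b (l 16463552) (l 16470632)) (b (l 16460168) (l 16466664))) (b (l 16464944) (c (l 16472168) (l 16469032)))))) (a (b (a (b (l 16473656) (c (l 16490664) (l 16480088))) (b (c (l 16479672) (l 16472168)) (c (l 16490936) (l 16483552)))) (b (b (a (a (l 16495880) (l 16496720)) (l 16497344)) (a (a (l 16503456) (l 16503960)) (a (l 16504112) (a (l 16504024) (a (l 16503912) (l 16503816)))))) (a (a (c (l 16519856) (l 16509888)) (l 16515336)) (a (l 16514944) (a (l 16514464) (a (l 16514168) (l 16513952))))))) (b (a (c (b (l 16479584) (l 16489912)) (b (l 16475256) (l 16485712))) (c (b (l 16480480) (l 16489944)) (b (l 16477000) (l 16486576)))) (a (b (c (l 16501328) (b (l 16494480) (l 16500760))) (c (l 16513832) (l 16510432))) (b (c (l 16500208) (l 16497416)) (l 16510824)))))) (b (b (b (a (l 16465744) (l 16476960)) (a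 (a (l 16464680) (l 16469256)) (a (l 16474472) (l 16480208)))) (a (b (a (l 16468376) (l 16472520)) (a (l 16474176) (l 16477840))) (b (a (l 16477320) (l 16482616)) (a (c (l 16484000) (l 16479136)) (c (l 16488992) (l 16483808)))))) (b (a (b (a (l 16481760) (l 16484864)) (a (l 16490488) (c (l 16494384) (l 16489784)))) (b (a (c (l 16490544) (l 16485392)) (b (l 16491152) (l 16494408))) (a (c (l 16497528) (l 16492496)) (c (l 16501080) (l 16495760))))) (a (b (a (c (l 16500960) (l 16497536)) (l 16501144)) (c (a (l 16510600) (l 16510464)) (a (l 16507736) (l 16507272)))) (a (b (l 16502944) (l 16520280)) (b (b (l 16503760) (l 16506552)) (l 16510552))))))), by decide +kernel⟩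

def k5_pm_022_a : ∃ t, chk3 f_pm_022_a t 5 6 1 = true :=
  ⟨(a (a (a (a (b (b (c (l 16535912) (l 16527184)) (b (l 16544736) (l 16553296))) (b (l 16566176) (l 16582840))) (b (b (c (l 16534280) (l 16526800)) (l 16552360)) (b (c (l 16564872) (l 16560672)) (l 16578784)))) (b (a (b (l 16529816) (b (l 16541048) (l 16548600))) (a (b (l 16528752) (c (l 16544752) (l 16540680))) (a (b (l 16528168) (l 16521296)) (c (b (l 16529568) (l 16543024)) (b (l 16524904) (l 16539376)))))) (a (b (l 16567872) (l 16574608)) (a (b (l 16557560) (l 16571408)) (a (b (l 16556312) (l 16569792)) (b (l 16555472) (l 16568720))))))) (b (a (b (c (l 16526832) (l 16523688)) (c (l 16539456) (l 16526680))) (b (l 16522512) (l 16533840))) (a (b (l 16572592) (l 16563776)) (c (l 16571152) (l 16592104))))) (b (a (b (a (l 16499160) (l 16518336)) (c (l 16528432) (l 16547304))) (b (a (l 16517016) (l 16516072)) (c (l 16522096) (l 16520016)))) (a (b (l 16557192) (l 16543384)) (b (l 16525920) (l 16528608))))), by decide +kernel⟩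

def k6_pm_022_a : ∃ t, chk3 f_pm_022_a t 20 7 1 = true :=
  ⟨(a (b (b (l 16638176) (c (l 16610640) (l 16609696))) (b (b (a (l 16622280) (l 16615824)) (a (l 16628056) (l 16621344))) (b (a (c (l 16635592) (l 16631264)) (c (l 16628816) (l 16624048))) (b (a (c (l 16639400) (l 16634112)) (c (l 16632416) (l 16626696))) (a (c (c (b (l 16642736) (l 16643904)) (l 16650584)) (l 16646176)) (a (c (l 16646816) (l 16630000)) (c (l 16632776) (l 16626256)))))))) (b (a (b (l 16588344) (l 16601008)) (b (a (l 16584416) (c (l 16626712) (l 16634264))) (a (l 16596672) (a (l 16594528) (c (l 16594104) (l 16592384)))))) (a (b (b (l 16609528) (l 16614768)) (b (c (l 16622104) (l 16617000)) (c (b (l 16646440) (a (l 16629232) (b (l 16625208) (l 16626120)))) (b (l 16619440) (a (l 16622552) (l 16618888)))))) (b (a (b (l 16604880) (l 16609912)) (a (b (l 16602576) (l 16607496)) (a (a (a (l 16604296) (b (l 16601520) (l 16627360))) (l 16603800)) (l 16603208)))) (a (b (c (l 16617048) (l 16611832)) (c (b (l 16620216)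 (a (l 16622992) (l 16631648))) (b (l 16614120) (a (l 16616176) (c (l 16616080) (l 16612736)))))) (a (b (c (l 16614400) (l 16609368)) (b (c (l 16617464) (l 16632544)) (c (a (l 16619752) (a (l 16619016) (l 16618504))) (a (l 16613096) (c (l 16613896) (l 16610624)))))) (b (a (a (a (l 16610888) (a (l 16610728) (l 16631592))) (l 16610352)) (l 16609712)) (b (a (a (a (l 16613512) (a (l 16613344) (c (l 16615912) (l 16610512)))) (l 16612952)) (l 16612296)) (c (a (a (a (l 16618088) (a (l 16617848) (a (a (l 16617720) (b (l 16617232) (l 16618032))) (l 16617608)))) (l 16617360)) (l 16616712)) (a (a (a (l 16611768) (a (b (l 16611400) (l 16611880)) (a (a (l 16611624) (b (l 16611376) (c (l 16613432) (l 16610248)))) (l 16611584)))) (l 16611320)) (l 16610624))))))))))), by decide +kernel⟩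

def k7_pm_022_a : ∃ t, chk3 f_pm_022_a t 21 7 1 = true :=
  ⟨(a (b (b (l 16575528) (c (l 16588168) (l 16585696))) (b (b (l 16636120) (a (l 16601848) (l 16595536))) (b (a (l 16605904) (c (l 16602088) (l 16596560))) (a (b (l 16629320) (c (b (l 16612448) (l 16613192)) (c (l 16608072) (l 16604840)))) (b (c (l 16604640) (l 16598328)) (c (a (l 16607752) (a (l 16605256) (l 16603560))) (a (l 16600968) (a (l 16598248) (l 16596448))))))))) (b (b (l 16565688) (l 16638632)) (b (b (l 16582224) (l 16586096)) (b (c (l 16592320) (l 16586528)) (b (c (l 16594536) (l 16587904)) (c (a (l 16620168) (l 16592304)) (a (l 16592008) (l 16584928)))))))), by decide +kernel⟩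

def k8_pm_022_a : ∃ t, chk3 f_pm_022_a t 11 7 1 = true :=
  ⟨(b (b (a (l 16592744) (l 16553464)) (a (b (l 16557112) (l 16582096)) (l 16622896))) (b (b (a (a (l 16570344) (l 16558848)) (l 16605704)) (a (a (l 16573640) (l 16561632)) (a (l 16550216) (l 16539544)))) (a (b (a (c (l 16579504) (l 16573320)) (l 16563744)) (b (a (c (l 16581304) (l 16574200)) (l 16564696)) (a (c (a (l 16585552) (l 16578944)) (l 16574424)) (a (l 16589232) (l 16561744))))) (b (a (l 16551792) (l 16540504)) (a (b (l 16552280) (c (l 16557096) (l 16547536))) (b (l 16540552) (a (l 16543176) (l 16558328)))))))), by decide +kernel⟩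

def k9_pm_022_a : ∃ t, chk3 f_pm_022_a t 12 2 1 = true :=
  ⟨(b (b (a (b (a (l 16486608) (l 16493360)) (a (l 16486320) (l 16492688))) (b (a (l 16500232) (l 16507072)) (a (b (l 16499160) (l 16499168)) (b (l 16505760) (l 16505576))))) (a (b (a (c (l 16490160) (l 16485376)) (a (l 16492752) (l 16495784))) (a (c (l 16494280) (b (l 16487824) (l 16489992))) (c (b (l 16498656) (l 16500736)) (b (l 16493488) (l 16495392))))) (b (a (c (l 16502072) (b (l 16497160) (l 16498080))) (c (l 16507912) (b (l 16503680) (l 16504400)))) (a (c (b (l 16504280) (l 16506080)) (b (l 16499432) (l 16501080))) (c (b (l 16509784) (l 16511312)) (b (l 16505528) (l 16506912))))))) (b (a (b (a (c (l 16499608) (b (l 16492560) (l 16495448))) (c (b (l 16503104) (l 16505688)) (b (l 16497680) (l 16500256)))) (a (b (l 16501472) (l 16504080)) (b (l 16505760) (l 16507872)))) (b (a (b (c (l 16508144) (l 16503080)) (c (l 16510384) (l 16505336))) (b (c (l 16513064) (l 16508632)) (c (l 16514952) (l 16510568)))) (a (b (l 16510192)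 (l 16511800)) (b (l 16514632) (l 16515720))))) (b (a (a (b (l 16506752) (l 16508888)) (l 16510832)) (a (l 16524352) (b (l 16516712) (l 16516800)))) (a (b (l 16511512) (l 16512800)) (b (l 16515240) (l 16514696)))))), by decide +kernel⟩

def k10_pm_022_a : ∃ t, chk3 f_pm_022_a t 13 2 1 = true :=
  ⟨(b (a (b (a (b (l 16513696) (b (l 16512176) (l 16511832))) (b (a (l 16519464) (l 16526128)) (a (c (l 16518008) (l 16516184)) (l 16523808)))) (b (b (a (l 16512088) (a (l 16517360) (l 16523328))) (a (c (l 16513864) (l 16510728)) (a (c (l 16518776) (l 16516048)) (l 16523640)))) (a (c (b (l 16515016) (l 16516264)) (b (l 16511640) (l 16512776))) (a (c (b (l 16519728) (l 16520728)) (b (l 16516776) (l 16517696))) (c (l 16526128) (l 16522320)))))) (b (a (b (l 16536336) (c (l 16535128) (l 16531008))) (b (l 16549960) (l 16546248))) (a (a (b (l 16529496) (l 16530200)) (b (l 16535488) (l 16535728))) (b (l 16544464) (c (l 16546864) (l 16540512)))))) (b (a (b (a (b (c (l 16517704) (l 16514208)) (c (l 16519240)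 (l 16515824))) (a (b (a (l 16519712) (l 16522112)) (c (l 16523144) (l 16520248))) (b (l 16525960) (l 16527008)))) (a (b (l 16518920) (l 16519480)) (a (b (c (l 16523504) (l 16520792)) (l 16522800)) (l 16527136)))) (b (a (b (l 16533688) (l 16534328)) (b (l 16543976) (l 16544064))) (a (b (l 16534016) (l 16533304)) (l 16542528)))) (a (a (b (b (l 16519872) (l 16519216)) (l 16516704)) (b (b (a (l 16522720) (l 16526504)) (l 16523160)) (b (l 16520696) (l 16517488)))) (b (a (l 16531304) (l 16538624)) (a (l 16524736) (l 16530240)))))), by decide +kernel⟩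

def k11_pm_022_a : ∃ t, chk3 f_pm_022_a t 7 2 1 = true :=
  ⟨(a (b (a (b (a (b (l 16563480) (l 16558968)) (l 16574240)) (a (b (l 16556336) (l 16554960)) (b (l 16568032) (l 16565736)))) (b (a (l 16586896) (l 16599240)) (a (b (l 16579480) (l 16576280)) (l 16588664)))) (b (a (b (a (l 16553976) (l 16563728)) (a (l 16551216) (l 16559752))) (b (a (l 16573256) (l 16582520)) (l 16572160))) (a (b (l 16549424) (l 16538328)) (b (l 16563192) (l 16548504))))) (b (a (b (a (l 16611208) (l 16622784)) (b (a (l 16601464) (l 16611920)) (a (l 16596488) (l 16606104)))) (b (a (b (l 16638328) (l 16629416)) (b (l 16649328) (c (l 16645624) (l 16634112)))) (b (a (l 16621992) (c (l 16637520) (l 16625936))) (a (l 16615352) (c (l 16629936) (l 16618640)))))) (b (a (b (l 16616840) (l 16587792)) (b (a (l 16608480) (l 16616464)) (a (l 16598744) (l 16605656)))) (a (b (l 16576048) (l 16557880)) (b (a (l 16584992) (l 16590616)) (l 16566296)))))), by decide +kernel⟩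

def k12_pm_022_a : ∃ t, chk3 f_pm_022_a t 6 6 1 = true :=
  ⟨(a (b (a (b (l 16515064) (l 16495168)) (b (l 16492720) (l 16510368))) (a (b (l 16515992) (l 16513496)) (b (l 16505168) (l 16501880)))) (b (a (b (a (l 16511608) (l 16511536)) (l 16503424)) (b (l 16495288) (l 16502104))) (a (a (l 16517560) (l 16514840)) (b (l 16485432) (l 16486368))))), by decide +kernel⟩

def k13_pm_022_a : ∃ t, chk3 f_pm_022_a t 6 7 1 = true :=
  ⟨(a (a (b (b (l 16538128) (l 16605792)) (b (b (l 16545096) (a (l 16529624) (l 16520440))) (b (a (l 16530016) (l 16520216)) (b (a (l 16529616) (c (l 16525656) (l 16513256))) (a (c (a (l 16537656) (l 16532592)) (l 16523080)) (c (a (b (l 16527832) (l 16527528)) (l 16543552)) (l 16511872))))))) (b (b (l 16505456) (l 16570656)) (b (b (l 16508032) (l 16528544)) (b (a (l 16510776) (l 16501976)) (b (a (l 16509360) (l 16520952)) (a (a (c (l 16517544) (l 16503744)) (c (l 16512656) (l 16498512))) (a (c (l 16507920) (l 16493432)) (b (l 16496400) (c (l 16502920) (l 16487896))))))))))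 (b (a (b (l 16559600) (a (l 16499352) (l 16493552))) (b (l 16506320) (l 16545608))) (a (b (a (l 16518280) (b (l 16491112) (l 16488712))) (b (a (l 16493824) (a (l 16487824) (l 16483144))) (c (a (b (l 16498480) (a (b (l 16499328) (l 16498416)) (a (l 16495640) (l 16504000)))) (b (l 16489696) (a (a (a (l 16502440) (l 16490776)) (l 16499320)) (b (l 16485576) (c (l 16488232) (l 16480464)))))) (a (b (l 16483912) (a (l 16483728) (l 16479096))) (b (l 16474768) (a (a (l 16475672) (l 16473160)) (b (l 16470128) (l 16468552)))))))) (b (a (b (l 16483024) (l 16480032)) (l 16515440)) (b (a (l 16497160) (b (l 16468336) (l 16465824))) (c (b (a (l 16479840) (l 16470128)) (a (a (b (l 16480520) (c (l 16483048) (l 16475368))) (c (a (l 16479832) (l 16477280)) (l 16471056))) (a (b (l 16470520) (c (b (l 16473128) (l 16472416)) (l 16465304))) (b (l 16465552) (c (b (l 16468016) (l 16467256)) (l 16460280)))))) (a (b (l 16465072) (b (l 16462696) (a (l 16463504) (l 16458520)))) (b (l 16455632) (b (l 16453000) (a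 (l 16453592) (l 16448688))))))))))), by decide +kernel⟩

def k14_pm_022_a : ∃ t, chk3 f_pm_022_a t 7 6 1 = true :=
  ⟨(a (b (a (b (l 16522632) (l 16501600)) (b (l 16507544) (l 16500120))) (a (l 16558848) (b (l 16473440) (l 16473504)))) (b (b (a (l 16533184) (l 16537504)) (a (l 16498568) (l 16498360))) (a (b (l 16468064) (l 16468224)) (b (l 16459728) (l 16459288))))), by decide +kernel⟩

def k15_pm_022_a : ∃ t, chk3 f_pm_022_a t 14 14 1 = true :=
  ⟨(a (b (l 16517720) (a (l 16473192) (l 16470224))) (b (l 16470872) (a (l 16467608) (l 16465016)))), by decide +kernel⟩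

def k16_pm_022_a : ∃ t, chk3 f_pm_022_a t 28 15 1 = true :=
  ⟨(b (b (a (l 16468408) (l 16465160)) (a (l 16464392) (l 16460888))) (b (a (a (l 16460592) (l 16458232)) (c (b (l 16464400) (l 16461784)) (l 16447880))) (a (b (c (a (l 16463064) (l 16460928)) (l 16463024)) (a (c (b (l 16460768) (c (a (l 16463744) (l 141055487087607823)) (a (l 16456496) (l 16454368)))) (c (l 16448808) (l 16440968))) (c (c (l 141050058248536079) (b (l 16454760) (b (l 16453416) (c (l 140985324487131151) (l 16450512))))) (c (l 16445984) (l 16437784))))) (a (b (c (b (l 16460296) (l 16458736)) (l 16443560)) (c (b (c (l 141040093923590159) (l 16453048)) (c (l 141023463806812175) (b (c (l 140974672966778895) (l 16449592)) (l 140948696998412303)))) (b (l 16440528) (a (l 16439000) (a (l 16438072) (l 16447936)))))) (b (c (c (l 141043804777709583) (l 16453992)) (l 16441240)) (c (c (b (l 141020440150786063) (c (l 141022845333356559) (l 140984912173432847))) (l 140941137855332367)) (b (l 16438112) (c (c (l 140883207320764431)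 (l 16438200)) (l 16431248))))))))), by decide +kernel⟩

def k17_pm_022_a : ∃ t, chk3 f_pm_022_a t 29 15 1 = true :=
  ⟨(b (b (a (l 16462344) (l 16459280)) (a (l 16457776) (l 16475328))) (b (a (c (b (l 16461816) (c (l 141038994416549903) (l 16454792))) (l 16443552)) (c (b (l 16458744) (c (l 140985118341234703) (l 16451224))) (b (l 16440752) (l 16436952)))) (c (b (a (c (a (l 141022433017987087) (l 140998518637494287)) (l 140941275296432143)) (c (a (l 140971237002330127) (b (l 140949590365880335) (l 140934472077770767))) (a (l 140900524641107983) (l 140870769103912975)))) (a (c (a (b (l 140998724793581583) (c (a (l 141006971132493839) (l 140995632417619983)) (l 140962440901656591))) (b (l 140974398096113679) (c (a (l 140983606507929615) (b (l 140975154011865103) (l 140966357917024271))) (l 140937014692151311)))) (a (l 140917910668574735) (l 140891591105118223))) (a (c (b (l 140947185180377103) (c (a (b (l 140961684993064975) (l 140953095056687119)) (a (l 140947322620575759) (l 140940725550235663)))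 (l 140910007934713871))) (l 140863622274269199)) (a (c (b (l 140926088298954767) (c (b (l 140934953114238991) (c (a (l 140941206587883535) (b (l 140936602382925839) (l 140932341774549007))) (l 140915917814824975))) (l 140889117211656207))) (l 140841700758405135)) (c (b (l 140911794646630415) (c (b (l 140920453303746575) (c (l 140922652328181775) (l 140901074406932495))) (l 140874548681408527))) (l 140827132227682319)))))) (b (a (a (l 16438904) (l 16436512)) (c (l 140823971121659919) (l 16427664))) (c (a (b (a (l 16440384) (l 140837852456615951)) (l 140829743556001807)) (a (l 140798751067226127) (l 140768995529195535))) (b (a (l 16429584) (a (l 16425448) (l 16422752))) (a (a (l 16428536) (b (l 16426392) (l 16425120))) (l 140717868216549391)))))))), by decide +kernel⟩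

def k18_pm_022_a : ∃ t, chk3 f_pm_022_a t 15 14 1 = true :=
  ⟨(a (b (l 16465480) (a (l 16461880) (l 16457736))) (b (l 16477248) (b (l 16452552) (l 16449200)))), by decide +kernel⟩

def k19_pm_022_a : ∃ t, chk3 f_pm_022_a t 15 15 1 = true :=
  ⟨(b (a (b (a (l 16455480) (l 16451384)) (a (c (l 16459224) (l 16441336)) (c (l 16455912) (l 16436664)))) (b (c (l 16455096) (l 16436392)) (a (c (l 16453736) (l 16432824)) (c (l 16452848) (l 16429904))))) (a (a (b (c (b (b (l 16456208) (l 16454952)) (c (a (l 140938114214838287) (l 140903067279441935)) (l 16447632))) (b (l 16436080) (l 16432144))) (c (b (c (a (c (l 140930348913737743) (l 140892003434971151)) (l 140876610275885071)) (a (l 140839364299554831) (l 140807547179040783))) (c (a (c (b (l 140908152518557711) (c (b (l 140906778129711119) (a (l 140906709409005583) (l 140890835209502735))) (l 140881764233691151))) (b (l 140868363930304527) (l 140851596374753295))) (c (b (l 140874892290899983) (a (a (l 140872418387296271) (l 140864515647373327))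 (l 140852695897325583))) (l 140828918947659791))) (a (l 140804798395564047) (l 140775180298780687)))) (b (c (l 140762535900741647) (l 16422560)) (c (l 140905541123604495) (l 140669420977799183))))) (b (c (c (a (l 140875716928225295) (l 140835309874724879)) (l 140977765328109583)) (b (l 16431712) (l 16428152))) (c (b (c (a (l 140841769500229647) (l 140806928725393423)) (l 140759374822866959)) (c (a (c (b (l 140841769503014927) (c (l 140839089444421647) (l 140819573106573327))) (l 140798132621475855)) (c (b (l 140808990313381903) (l 140798407512145935)) (l 140767621174018063))) (a (l 140745699641655311) (l 140716631302127631)))) (b (a (l 140690036835745807) (l 140659800262770703)) (a (l 140653340626796559) (l 140624959480086543)))))) (a (b (b (c (l 141025525375205391) (l 16428400)) (c (a (l 140759580997091343) (l 140902792386723855)) (l 16425208))) (c (b (c (a (l 140772225390346255) (l 140737728214646799)) (l 140875442017632271)) (c (a (c (l 140828644084711439) (l 140737522044289039))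 (c (l 140741988827545615) (l 140708522427236367))) (a (l 140687837841293327) (l 140660212612546575)))) (b (a (l 140629632409862159) (l 140599601996546063)) (a (l 140596784492396559) (l 140749891485188111))))) (c (c (b (b (l 16458304) (l 140780746612228111)) (b (l 140868638822449167) (a (l 140787206239420431) (l 140761711318761487)))) (b (l 140835790885863439) (b (l 140815449916899343) (a (l 140634374091325455) (l 140701581743030287))))) (b (b (l 16426184) (l 140759718381748239)) (b (b (l 140743706739556367) (l 140731543389192207)) (a (l 140724946314805263) (b (l 140528683491590159) (l 140607779606675471))))))))), by decide +kernel⟩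

theorem s20_pm_022_a : ∃ t, chk3 f_pm_022_a t 15 7 1 = true := ex3_b k18_pm_022_a k19_pm_022_a

theorem s21_pm_022_a : ∃ t, chk3 f_pm_022_a t 14 15 1 = true := ex3_a k16_pm_022_a k17_pm_022_a

theorem s22_pm_022_a : ∃ t, chk3 f_pm_022_a t 14 7 1 = true := ex3_b k15_pm_022_a s21_pm_022_a

theorem s23_pm_022_a : ∃ t, chk3 f_pm_022_a t 7 7 1 = true := ex3_a s22_pm_022_a s20_pm_022_a

theorem s24_pm_022_a : ∃ t, chk3 f_pm_022_a t 7 3 1 = true := ex3_b k14_pm_022_a s23_pm_022_a

theorem s25_pm_022_a : ∃ t, chk3 f_pm_022_a t 6 3 1 = true := ex3_b k12_pm_022_a k13_pm_022_a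

theorem s26_pm_022_a : ∃ t, chk3 f_pm_022_a t 3 3 1 = true := ex3_a s25_pm_022_a s24_pm_022_a

theorem s27_pm_022_a : ∃ t, chk3 f_pm_022_a t 6 2 1 = true := ex3_a k9_pm_022_a k10_pm_022_a

theorem s28_pm_022_a : ∃ t, chk3 f_pm_022_a t 3 2 1 = true := ex3_a s27_pm_022_a k11_pm_022_a

theorem s29_pm_022_a : ∃ t, chk3 f_pm_022_a t 3 1 1 = true := ex3_b s28_pm_022_a s26_pm_022_a

theorem s30_pm_022_a : ∃ t, chk3 f_pm_022_a t 10 7 1 = true := ex3_a k6_pm_022_a k7_pm_022_a

theorem s31_pm_022_a : ∃ t, chk3 f_pm_022_a t 5 7 1 = true := ex3_a s30_pm_022_a k8_pm_022_a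

theorem s32_pm_022_a : ∃ t, chk3 f_pm_022_a t 5 3 1 = true := ex3_b k5_pm_022_a s31_pm_022_a

theorem s33_pm_022_a : ∃ t, chk3 f_pm_022_a t 5 1 1 = true := ex3_b k4_pm_022_a s32_pm_022_a

theorem s34_pm_022_a : ∃ t, chk3 f_pm_022_a t 9 3 1 = true := ex3_b k2_pm_022_a k3_pm_022_a

theorem s35_pm_022_a : ∃ t, chk3 f_pm_022_a t 9 1 1 = true := ex3_b k1_pm_022_a s34_pm_022_a

theorem s36_pm_022_a : ∃ t, chk3 f_pm_022_a t 4 1 1 = true := ex3_a k0_pm_022_a s35_pm_022_a

theorem s37_pm_022_a : ∃ t, chk3 f_pm_022_a t 2 1 1 = true := ex3_a s36_pm_022_a s33_pm_022_a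

theorem s38_pm_022_a : ∃ t, chk3 f_pm_022_a t 1 1 1 = true := ex3_a s37_pm_022_a s29_pm_022_a

theorem c_pm_022_a : CertB 0 536870912 0 536870912 587336777 62277027 3 eng mog cd0q0 cd1q2a pd2 true true false .pp 0 2 2
    ndB0q0 ndB1q2a pcB2 cut_pm_022_a xt_pm_022_a :=
  certB2 (fam := true) (s1 := true) (s2 := false) (a := 0) (b := 2) (c := 2) (cn := .pp) (n1 := ndB0q0) (n2 := ndB1q2a) (pc := pcB2) (cut := cut_pm_022_a) (xt := xt_pm_022_a) (P1 := 0) (W1 := 536870912) (P2 := 0) (W2 := 536870912) (P3 := 587336777) (W3 := 62277027) (N0 := 3) (En := eng) (mo := mog) (C1 := cd0q0) (C2 := cd1q2a) (C3 := pd2)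
    rfl (fun _ => rfl) s38_pm_022_a

noncomputable def cut_pm_022_b : Cut := Cut.of [[⟨0, 0, 0, 67108864⟩, ⟨1, 1, 0, 67108864⟩, ⟨2, 1, 0, 67108864⟩]]

noncomputable def f_pm_022_b : ℕ → ℕ → ℕ → ℕ → Bool := onCell 1073741824 536870912 1239849684 370763052 587336777 62277027
    (rowB 3 eng mog cd0q0 cd1q2b pd2 2 true true false .pp 0 2 2 (qsf 0 536870912 1239849684 370763052 2) ndB0q0 ndB1q2b pcB2 cut_pm_022_b Ext.none)

def k0_pm_022_b : ∃ t, chk3 f_pm_022_b t 2 1 1 = true :=
  ⟨(b (a (l 1) (b (b (a (a (b (l 16443392) (l 1)) (a (b (l 16430504) (l 1)) (b (l 16434912) (l 16385480)))) (a (b (l 16463840) (a (l 16392168) (l 16399152))) (b (a (l 16452168) (l 16459040)) (l 16410496)))) (a (l 1) (a (b (a (l 16342192) (l 16350800)) (l 1)) (b (l 16364024) (l 16316016))))) (a (l 1) (b (a (l 1) (b (l 16266024) (l 1))) (l 1))))) (l 1)), by decide +kernel⟩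

def k1_pm_022_b : ∃ t, chk3 f_pm_022_b t 3 1 1 = true :=
  ⟨(a (b (b (a (b (a (b (a (l 16466360) (l 16473944)) (l 16427208)) (b (a (l 16481696) (l 16489488)) (l 16445264))) (a (b (l 16382856) (l 16337208)) (b (l 16403000) (l 16359424)))) (a (b (b (a (l 16497160) (a (l 16503784) (l 16511032))) (a (l 16459048) (l 16470896))) (a (l 16397928) (l 16432744))) (b (b (a (l 16522152) (l 16537024)) (a (l 16487200) (l 16503736))) (b (l 16458744) (l 16420152))))) (a (b (a (b (l 16290264) (l 16241648)) (l 16291888)) (a (l 1) (l 16197008))) (a (b (a (l 16311256) (l 16327376)) (l 16271312)) (b (b (l 16380096) (l 16338744)) (l 16275088))))) (b (a (l 1) (b (a (l 16133992) (l 16186744)) (a (l 1) (l 16092600)))) (l 1))) (b (b (a (b (a (b (a (l 16551816) (l 16566416)) (l 16528472)) (b (a (l 16580720) (l 16594680)) (l 16560704))) (a (b (l 16495024) (l 16459504)) (l 16535848))) (b (b (a (a (l 16608232) (l 16621312)) (a (l 16633896) (b (l 16650280) (l 16641400)))) (a (l 16591320) (l 16619696))) (a (l 16550960)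 (l 16626696)))) (a (b (a (l 16403552) (l 16447392)) (a (l 16324968) (l 16375152))) (b (a (l 16489856) (l 16530896)) (a (l 16423880) (l 16471208))))) (a (b (b (a (l 16243264) (l 16299656)) (a (l 16157704) (l 16221672))) (b (l 16103256) (l 1))) (b (b (a (l 16355296) (l 16408240)) (l 16314656)) (a (l 16172824) (l 16242728)))))), by decide +kernel⟩

theorem s2_pm_022_b : ∃ t, chk3 f_pm_022_b t 1 1 1 = true := ex3_a k0_pm_022_b k1_pm_022_b

theorem c_pm_022_b : CertB 0 536870912 1239849684 370763052 587336777 62277027 3 eng mog cd0q0 cd1q2b pd2 true true false .pp 0 2 2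
    ndB0q0 ndB1q2b pcB2 cut_pm_022_b Ext.none :=
  certB2 (fam := true) (s1 := true) (s2 := false) (a := 0) (b := 2) (c := 2) (cn := .pp) (n1 := ndB0q0) (n2 := ndB1q2b) (pc := pcB2) (cut := cut_pm_022_b) (xt := Ext.none) (P1 := 0) (W1 := 536870912) (P2 := 1239849684) (W2 := 370763052) (P3 := 587336777) (W3 := 62277027) (N0 := 3) (En := eng) (mo := mog) (C1 := cd0q0) (C2 := cd1q2b) (C3 := pd2)
    rfl (fun _ => rfl) s2_pm_022_b

noncomputable def xt_pm_023_a : Ext := extD2 3 ⟨7, 3, 3, 10, 1815, 1000, 17, 20, 37, 100, 3, 16⟩ eng cd0q0 cd1q2a pd3 true true false .up 0 2 3 rfl ndB0q0 ndB1q2a pcB3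

noncomputable def f_pm_023_a : ℕ → ℕ → ℕ → ℕ → Bool := onCell 1610612736 536870912 0 536870912 587336777 62277027
    (rowB 3 eng mog cd0q0 cd1q2a pd3 2 true true false .up 0 2 3 (qsf 0 536870912 0 536870912 3) ndB0q0 ndB1q2a pcB3 Cut.none xt_pm_023_a)

def k0_pm_023_a : ∃ t, chk3 f_pm_023_a t 2 2 1 = true :=
  ⟨(a (a (b (a (a (a (b (l 16656416) (b (l 16645216) (l 16638888))) (b (l 16655512) (l 16637712))) (b (b (l 16660136) (l 16646520)) (a (l 16630680) (l 16621936)))) (b (b (l 16660768) (l 16644128)) (l 16618176))) (a (b (a (a (c (l 16631224) (b (l 16627192) (l 16618504))) (b (l 16624944) (l 16613032))) (a (b (l 16612648) (l 16595800)) (l 16584600))) (a (a (c (l 16665368) (b (c (l 16608856) (l 16603824)) (l 16589416))) (b (l 16638576) (l 16572608))) (a (l 16556056) (l 16553176)))) (b (l 16628320) (l 16641744)))) (b (a (b (b (l 16658096) (l 16638920)) (l 16610536)) (b (a (l 16665304) (l 16685368)) (a (l 16642296) (l 16664176)))) (a (b (l 16614896) (l 16647704)) (b (a (l 16623896)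 (l 16645704)) (a (l 16606736) (l 16628648)))))) (a (b (b (a (a (l 16703136) (l 16718000)) (l 2)) (a (a (l 16684424) (l 16702000)) (l 2))) (a (b (a (l 16667152) (l 16687808)) (a (l 16651760) (l 2))) (l 2))) (l 2))), by decide +kernel⟩

def k1_pm_023_a : ∃ t, chk3 f_pm_023_a t 2 6 1 = true :=
  ⟨(a (a (a (b (a (a (a (b (l 16572728) (l 16668184)) (b (l 16562608) (l 16528672))) (b (l 16540984) (l 16499352))) (b (l 16594424) (a (l 16504776) (l 16553744)))) (a (b (a (l 16484584) (l 16453344)) (b (l 16542208) (l 16568672))) (a (b (l 16505936) (l 16506744)) (b (l 16550728) (l 16546480))))) (b (b (l 16566552) (l 16563096)) (b (l 16559920) (l 16556752)))) (a (b (l 16576432) (b (l 16570840) (l 16571216))) (b (a (l 16591400) (l 16613728)) (b (l 300211218119) (l 2))))) (l 2)), by decide +kernel⟩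

def k2_pm_023_a : ∃ t, chk3 f_pm_023_a t 8 7 1 = true :=
  ⟨(a (b (a (a (b (l 16557720) (c (l 16484280) (l 16466968))) (b (l 16531168) (c (l 16492040) (l 16457392)))) (b (a (l 16507008) (b (l 16543328) (l 16541064))) (a (c (l 16523296) (l 16492696)) (a (c (l 16548344) (l 16520984)) (l 16543776))))) (a (b (c (b (a (l 16494064) (l 16519984)) (a (c (l 141224743221657615) (l 16489200)) (c (l 141412072562999311) (l 141230240781598735)))) (a (b (l 16430992) (l 141457908289126415)) (b (l 16459592) (a (l 16454608) (l 16489488))))) (b (c (a (c (b (l 141253811572768783) (l 141273946388201487)) (b (l 141044423275675663) (l 141064489370173455))) (c (b (l 141427328297222159) (l 141438254701428751)) (b (l 141243641087328271) (l 141253261819658255)))) (a (c (l 140861010946785295) (l 140683371053416463)) (c (l 141434131432161295) (l 140908770987081743)))) (a (a (c (c (a (b (l 141240411277623311) (b (l 141258896824385551) (c (b (l 141324661382168591) (c (b (l 141357784179441679) (a (c (b (l 141366923872321551)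 (l 141368504420990991)) (l 141339023757606927)) (l 2))) (l 141302739864387599))) (l 141216084581007375)))) (b (l 141276420293427215) (b (l 141293325291995151) (c (b (l 141356822106832911) (l 2)) (l 141250787926491151))))) (b (l 141043461207310351) (b (l 141061328277536783) (c (l 141126062042890255) (l 141021814568992783))))) (b (l 140748723295027215) (c (b (l 140859911438155791) (l 141051432623308815)) (l 140676430386479119)))) (b (c (c (l 141512196833591311) (l 141128123624128527)) (l 141024425857761295)) (b (a (b (c (l 141491237365858319) (l 140830087175094287)) (l 2)) (l 2)) (l 2)))) (a (b (c (c (l 141409529956843535) (l 141217184088588303)) (l 141305625979944975)) (l 2)) (l 2))))) (b (a (b (a (l 16564128) (l 16559040)) (a (c (l 141484777786621967) (l 141181656091017231)) (c (l 141601807084109839) (l 141324317756325903)))) (a (b (b (l 16533800) (l 16565000)) (c (l 156329655335) (l 162772083063))) (c (l 164382712311) (l 169751417079)))) (b (b (a (c (c (l 141618505931669519) (l 141464024502894607))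 (c (l 141313185207255055) (l 141165713166811151))) (l 2)) (l 2)) (l 2))))) (b (b (a (l 16550720) (l 16558192)) (a (l 16548968) (l 16559656))) (b (a (b (l 176730741607) (l 2)) (l 2)) (l 2)))), by decide +kernel⟩

def k3_pm_023_a : ∃ t, chk3 f_pm_023_a t 9 7 1 = true :=
  ⟨(a (b (b (l 205721915111) (l 2)) (l 2)) (l 2)), by decide +kernel⟩

def k4_pm_023_a : ∃ t, chk3 f_pm_023_a t 5 7 1 = true :=
  ⟨(l 2), by decide +kernel⟩

def k5_pm_023_a : ∃ t, chk3 f_pm_023_a t 3 1 1 = true :=
  ⟨(l 2), by decide +kernel⟩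

theorem s6_pm_023_a : ∃ t, chk3 f_pm_023_a t 4 7 1 = true := ex3_a k2_pm_023_a k3_pm_023_a

theorem s7_pm_023_a : ∃ t, chk3 f_pm_023_a t 2 7 1 = true := ex3_a s6_pm_023_a k4_pm_023_a

theorem s8_pm_023_a : ∃ t, chk3 f_pm_023_a t 2 3 1 = true := ex3_b k1_pm_023_a s7_pm_023_a

theorem s9_pm_023_a : ∃ t, chk3 f_pm_023_a t 2 1 1 = true := ex3_b k0_pm_023_a s8_pm_023_a

theorem s10_pm_023_a : ∃ t, chk3 f_pm_023_a t 1 1 1 = true := ex3_a s9_pm_023_a k5_pm_023_a

theorem c_pm_023_a : CertB 0 536870912 0 536870912 587336777 62277027 3 eng mog cd0q0 cd1q2a pd3 true true false .up 0 2 3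
    ndB0q0 ndB1q2a pcB3 Cut.none xt_pm_023_a :=
  certB2 (fam := true) (s1 := true) (s2 := false) (a := 0) (b := 2) (c := 3) (cn := .up) (n1 := ndB0q0) (n2 := ndB1q2a) (pc := pcB3) (cut := Cut.none) (xt := xt_pm_023_a) (P1 := 0) (W1 := 536870912) (P2 := 0) (W2 := 536870912) (P3 := 587336777) (W3 := 62277027) (N0 := 3) (En := eng) (mo := mog) (C1 := cd0q0) (C2 := cd1q2a) (C3 := pd3)
    rfl (fun _ => rfl) s10_pm_023_a

noncomputable def f_pm_023_b : ℕ → ℕ → ℕ → ℕ → Bool := onCell 0 536870912 1610612736 536870912 587336777 62277027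
    (rowB 3 eng mog cd0q0 cd1q2b pd3 1 true true false .up 0 2 3 (qsf 0 536870912 1239849684 370763052 3) ndB0q0 ndB1q2b pcB3 Cut.none Ext.none)

def k0_pm_023_b : ∃ t, chk3 f_pm_023_b t 1 1 1 = true :=
  ⟨(b (b (a (a (b (a (l 16250496) (l 16341400)) (a (l 16267480) (l 16337168))) (b (a (l 16429832) (l 16514072)) (a (l 16419904) (l 16499832)))) (a (b (a (b (l 16596632) (l 16582816)) (b (a (l 16642608) (b (l 306049759159) (l 16661912))) (l 16704040))) (a (l 16572296) (b (l 16632584) (l 16629400)))) (b (a (b (a (b (l 1) (l 408592116263)) (l 1)) (a (l 336651476567) (l 433288163543))) (l 1)) (a (b (a (l 16660832) (l 350610038695)) (a (l 16659824) (l 16670616))) (b (a (l 454226198327) (l 1)) (a (l 355978810775) (l 468184901863))))))) (b (a (a (b (l 16376112) (l 2)) (a (l 16471456) (l 16520472))) (a (a (l 16580888) (l 16635272)) (a (b (l 16669960) (l 16680160)) (b (a (l 16686928) (a (l 349536428983) (l 374232484151))) (a (l 16697824) (b (l 16713520) (l 16712640))))))) (a (l 4) (a (a (l 16639976)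 (b (l 16662208) (l 4))) (a (b (l 16696048) (l 4)) (b (l 16719168) (l 16733760))))))) (l 4)), by decide +kernel⟩

theorem c_pm_023_b : CertB 0 536870912 1239849684 370763052 587336777 62277027 3 eng mog cd0q0 cd1q2b pd3 true true false .up 0 2 3
    ndB0q0 ndB1q2b pcB3 Cut.none Ext.none :=
  certB1 (fam := true) (s1 := true) (s2 := false) (a := 0) (b := 2) (c := 3) (cn := .up) (n1 := ndB0q0) (n2 := ndB1q2b) (pc := pcB3) (cut := Cut.none) (xt := Ext.none) (P1 := 0) (W1 := 536870912) (P2 := 1239849684) (W2 := 370763052) (P3 := 587336777) (W3 := 62277027) (N0 := 3) (En := eng) (mo := mog) (C1 := cd0q0) (C2 := cd1q2b) (C3 := pd3)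
    rfl (fun _ => rfl) k0_pm_023_b

noncomputable def f_pm_033 : ℕ → ℕ → ℕ → ℕ → Bool := onCell 0 536870912 1610612736 536870912 587336777 62277027
    (rowB 3 eng mog cd0q0 cd1q3 pd3 1 true true false .pnn 0 3 3 (qsf 0 536870912 1610612736 536870912 3) ndB0q0 ndB1q3 pcB3 Cut.none Ext.none)

def k0_pm_033 : ∃ t, chk3 f_pm_033 t 1 1 1 = true :=
  ⟨(b (b (a (a (b (l 178274173463) (l 56941225335)) (b (l 1) (l 264710770615))) (l 1)) (b (a (a (b (l 16359624) (l 16414536)) (a (l 16458968) (l 16511984))) (l 1)) (a (l 4) (a (a (l 16632896) (l 1)) (l 1))))) (l 4)), by decide +kernel⟩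

theorem c_pm_033 : CertB 0 536870912 1610612736 536870912 587336777 62277027 3 eng mog cd0q0 cd1q3 pd3 true true false .pnn 0 3 3
    ndB0q0 ndB1q3 pcB3 Cut.none Ext.none :=
  certB1 (fam := true) (s1 := true) (s2 := false) (a := 0) (b := 3) (c := 3) (cn := .pnn) (n1 := ndB0q0) (n2 := ndB1q3) (pc := pcB3) (cut := Cut.none) (xt := Ext.none) (P1 := 0) (W1 := 536870912) (P2 := 1610612736) (W2 := 536870912) (P3 := 587336777) (W3 := 62277027) (N0 := 3) (En := eng) (mo := mog) (C1 := cd0q0) (C2 := cd1q3) (C3 := pd3)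
    rfl (fun _ => rfl) k0_pm_033

noncomputable def cut_pm_101 : Cut := Cut.of [[⟨0, 1, 0, 67108864⟩, ⟨1, 0, 0, 67108864⟩, ⟨2, 1, 0, 67108864⟩]]

noncomputable def f_pm_101 : ℕ → ℕ → ℕ → ℕ → Bool := onCell 536870912 536870912 0 536870912 587336777 62277027
    (rowB 3 eng mog cd0q1 cd1q0 pd1 2 true true false .npn 1 0 1 (qsf 536870912 536870912 0 536870912 1) ndB0q1 ndB1q0 pcB1 cut_pm_101 Ext.none)

def k0_pm_101 : ∃ t, chk3 f_pm_101 t 1 1 1 = true :=
  ⟨(a (l 3) (b (a (l 3) (b (a (l 3) (b (a (l 3) (a (l 3) (b (l 6) (l 3)))) (l 3))) (l 3))) (l 3))), by decide +kernel⟩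

theorem c_pm_101 : CertB 536870912 536870912 0 536870912 587336777 62277027 3 eng mog cd0q1 cd1q0 pd1 true true false .npn 1 0 1
    ndB0q1 ndB1q0 pcB1 cut_pm_101 Ext.none :=
  certB2 (fam := true) (s1 := true) (s2 := false) (a := 1) (b := 0) (c := 1) (cn := .npn) (n1 := ndB0q1) (n2 := ndB1q0) (pc := pcB1) (cut := cut_pm_101) (xt := Ext.none) (P1 := 536870912) (W1 := 536870912) (P2 := 0) (W2 := 536870912) (P3 := 587336777) (W3 := 62277027) (N0 := 3) (En := eng) (mo := mog) (C1 := cd0q1) (C2 := cd1q0) (C3 := pd1)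
    rfl (fun _ => rfl) k0_pm_101

end Pool.Agent.Strip051.G.I5470_6050.Tab.C.BA01

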