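import Pool.Agent.Strip051.G.I5470_6050.Tab
import Pool.Agent.Strip051.PB.ExtD2

/-! # Certificates B5 (generated) -/

set_option linter.all false
set_option maxRecDepth 100000

namespace Pool.Agent.Strip051.G.I5470_6050.Tab.C.BA01

open Pool.Agent.Strip051.PB Pool.Agent.Strip051.PB.T
open Pool.Agent.Strip051.G.I5470_6050.Tab

noncomputable def cut_pm_102 : Cut := Cut.of [[⟨0, 1, 0, 67108864⟩, ⟨1, 0, 0, 67108864⟩, ⟨2, 1, 0, 67108864⟩]]

noncomputable def f_pm_102 : ℕ → ℕ → ℕ → ℕ → Bool := onCell 536870912 536870912 1073741824 536870912 587336777 62277027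
    (rowB 3 eng mog cd0q1 cd1q0 pd2 1 true true false .npp 1 0 2 (qsf 536870912 536870912 0 536870912 2) ndB0q1 ndB1q0 pcB2 cut_pm_102 Ext.none)

def k0_pm_102 : ∃ t, chk3 f_pm_102 t 2 4 1 = true :=
  ⟨(b (l 3) (a (l 3) (l 3))), by decide +kernel⟩

def k1_pm_102 : ∃ t, chk3 f_pm_102 t 6 8 1 = true :=
  ⟨(l 3), by decide +kernel⟩

def k2_pm_102 : ∃ t, chk3 f_pm_102 t 28 8 1 = true :=
  ⟨(l 3), by decide +kernel⟩

def k3_pm_102 : ∃ t, chk3 f_pm_102 t 29 16 1 = true :=
  ⟨(l 3), by decide +kernel⟩

def k4_pm_102 : ∃ t, chk3 f_pm_102 t 29 34 1 = true :=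
  ⟨(b (l 3) (a (l 3) (a (l 3) (b (l 3) (a (l 3) (a (l 3) (b (l 3) (b (l 3) (l 234780380759))))))))), by decide +kernel⟩

def k5_pm_102 : ∃ t, chk3 f_pm_102 t 58 70 1 = true :=
  ⟨(l 3), by decide +kernel⟩

def k6_pm_102 : ∃ t, chk3 f_pm_102 t 58 142 1 = true :=
  ⟨(a (l 3) (a (b (l 3) (b (l 3) (a (l 3) (b (l 3) (b (l 232096013607) (a (l 3) (c (l 193978179911) (l 206326206887)))))))) (a (b (l 3) (b (b (l 3) (a (l 3) (a (b (l 3) (l 199346890935)) (b (l 192367569063) (l 141364831671))))) (b (a (a (l 224579819975) (b (l 206863083559) (a (l 169282119047) (l 16779816)))) (c (l 131701155207) (l 137069861719))) (a (b (a (b (l 180019537383) (l 146196669703)) (l 16779544)) (l 16779368)) (l 16778824))))) (b (b (l 3) (a (l 230485401975) (b (l 222432340087) (a (b (l 212231793239) (l 164450281623)) (b (l 157470959607) (l 16779920)))))) (b (b (a (a (b (l 232632883991) (l 185388247207)) (b (l 171429603479) (l 16779912))) (l 16779560)) (c (l 120426866295) (l 16778576))) (c (l 16778784) (l 16777480))))))), by decide +kernel⟩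

def k7_pm_102 : ∃ t, chk3 f_pm_102 t 58 143 1 = true :=
  ⟨(a (b (l 3) (a (l 3) (b (a (l 3) (b (a (l 3) (a (l 228337915047) (b (l 207399953815) (l 161765925559)))) (c (a (c (l 210621176951) (l 217063626343)) (l 157470958327)) (a (l 226727300535) (l 16780840))))) (b (a (c (l 228874788087) (l 243370299735)) (c (a (l 164987151335) (l 16779072)) (l 166597761463))) (a (a (l 236390978599) (b (l 180019537367) (l 16778848))) (l 16778000)))))) (b (b (b (a (a (l 3) (c (a (l 211158048231) (a (a (l 175187699095) (l 155323474967)) (l 16780080))) (a (l 225116689239) (c (l 162302794567) (l 166060889799))))) (c (l 16783720) (l 16777128))) (a (a (c (l 224042951015) (l 239612204759)) (a (a (b (l 204715599543) (l 160155313255)) (c (l 144586056567) (l 16778704))) (l 16778864))) (l 16777128))) (b (a (a (a (l 238001592567) (a (c (a (l 209547434647) (l 186998859079)) (l 205252467911)) (c (l 157470958519) (l 166597761159)))) (c (l 16779256) (l 16777840))) (l 16776504)) (a (a (a (a (b (l 3) (l 199883761015)) (b (l 184851375447) (l 16779256)))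 (l 16781528)) (l 16777872)) (l 16781168)))) (b (b (a (a (c (l 146196669223) (l 16777864)) (l 16777232)) (l 16785840)) (a (l 16782504) (l 16774792))) (a (l 16776352) (l 16774008))))), by decide +kernel⟩

def k8_pm_102 : ∃ t, chk3 f_pm_102 t 59 35 1 = true :=
  ⟨(b (a (b (l 3) (a (b (l 3) (a (l 3) (b (l 231559146263) (b (a (l 3) (a (l 206326214743) (l 165524024855))) (a (a (l 220821725095) (l 173040217751)) (l 16780352)))))) (b (b (a (l 3) (c (l 217063632407) (l 230485403863))) (a (c (l 220284857927) (l 234243500103)) (a (b (l 206863087767) (l 161229058567)) (l 16786096)))) (b (a (a (b (l 224579822743) (a (l 183240765719) (l 16780920))) (b (l 165524026135) (l 16780416))) (l 16779776)) (c (l 16782120) (l 16783840)))))) (b (a (b (a (l 3) (l 236927860679)) (b (a (l 3) (c (l 216526761479) (l 206863091399))) (a (c (l 215989890567) (l 228874791335)) (l 153712868215)))) (b (a (b (l 232632891735) (a (l 183240771207) (l 16782584))) (c (l 144586066999) (l 145122938071))) (a (l 16786056) (c (l 16790232) (l 16790008))))) (a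 (b (a (b (b (l 161765932727) (l 16780920)) (l 16779872)) (c (l 16779608) (l 16779056))) (a (c (l 16788704) (l 16787960)) (l 16776560))) (b (a (l 16788544) (l 16776840)) (l 16775120))))) (a (b (a (b (b (b (a (c (a (l 3) (l 204715598439)) (l 226190433639)) (c (l 140827962311) (l 146733540247))) (a (c (a (l 209547436695) (l 153175993015)) (a (l 223506078199) (l 160155312823))) (l 16779272))) (a (b (a (a (b (l 198810020599) (l 151028508599)) (l 16782736)) (l 16779592)) (l 16784472)) (l 16778208))) (b (c (l 16778080) (l 16776888)) (a (l 16776736) (l 16775464)))) (b (a (c (l 16783360) (l 16782352)) (l 16784200)) (a (l 16782800) (l 16774024)))) (b (a (a (b (l 16775512) (l 16774408)) (l 16773896)) (l 16773184)) (l 16773544))) (b (a (b (a (l 16775200) (l 16774400)) (l 16774208)) (l 16773760)) (a (l 16772264) (l 16769440))))), by decide +kernel⟩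

def k9_pm_102 : ∃ t, chk3 f_pm_102 t 15 16 1 = true :=
  ⟨(a (b (l 3) (a (l 3) (b (l 3) (a (b (l 3) (a (l 3) (b (l 3) (b (l 3) (a (l 3) (a (l 137069869207) (l 222969201319))))))) (a (b (l 3) (b (b (a (l 3) (a (l 3) (l 147807284455))) (b (a (l 3) (l 16783536)) (a (l 132238030487) (l 16780336)))) (b (b (a (l 121500609783) (l 16779792)) (a (l 16783744) (l 16774032))) (b (a (l 16780536) (l 16773456)) (a (l 16779984) (l 16778120)))))) (a (a (b (a (a (l 3) (l 6)) (l 6)) (b (b (l 16780328) (l 16779264)) (b (l 16778136) (l 16777088)))) (b (l 6) (b (b (l 16779424) (l 16778336)) (l 16776760)))) (b (l 6) (b (b (l 6) (l 16777016)) (l 16775936))))))))) (b (l 6) (a (b (l 6) (a (b (l 6) (a (b (l 6) (l 16773216)) (l 6))) (l 6))) (l 6)))), by decide +kernel⟩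

def k10_pm_102 : ∃ t, chk3 f_pm_102 t 30 34 1 = true :=
  ⟨(a (b (a (l 3) (b (l 3) (a (a (l 3) (b (l 3) (b (l 3) (l 256255207127)))) (b (a (l 3) (b (l 210084313335) (l 133311777223))) (b (a (l 169818999191) (l 16782096)) (a (l 16782920) (l 16781136))))))) (a (b (a (l 3) (b (l 3) (b (a (l 3) (l 260550178983)) (a (l 293836175447) (l 16783128))))) (a (b (a (l 3) (a (l 237464732055) (l 200957513959))) (a (b (l 199883770407) (l 242296557559)) (l 16782656))) (a (b (a (l 192367576519) (l 16782824)) (l 16781512)) (b (a (l 16781808) (l 16780840)) (l 16779496))))) (b (a (b (b (a (l 286856854135) (l 155860354471)) (a (l 206326218375) (l 16782440))) (b (a (l 16782816) (l 16781120)) (a (l 16781560) (l 16779992)))) (b (a (a (l 16781768) (l 16780928)) (a (l 16780008) (l 16779064))) (c (l 16788448) (l 16788744)))) (a (a (b (a (l 16780104) (l 16779408)) (l 16777528)) (l 16788024)) (l 16774904))))) (b (b (a (a (b (l 3) (b (a (l 3) (l 139754226215)) (a (l 148881034935) (l 16781552)))) (b (b (b (a (l 3) (l 16783952)) (a (l 138680482919)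 (l 16780768))) (a (a (l 139217351479) (l 16781360)) (l 16780008))) (b (a (l 16780760) (l 16778936)) (a (l 16779760) (l 16777904))))) (a (b (b (a (a (l 16779664) (l 16778728)) (a (l 16777816) (l 16776952))) (a (l 16778120) (l 16776512))) (l 16776224)) (b (l 16774768) (l 16772616)))) (a (b (b (a (a (l 16784992) (l 16780560)) (a (l 16778672) (l 16776936))) (a (a (l 16781304) (l 16779496)) (l 16776832))) (a (a (a (l 16780264) (l 16779296)) (l 16785568)) (l 16775576))) (a (b (l 16774144) (l 16771976)) (b (l 16770456) (l 16768296))))) (a (b (a (b (l 16776960) (l 16774824)) (l 16772344)) (a (l 16771552) (l 16767992))) (a (b (l 16768712) (l 16764368)) (b (l 16765024) (l 16760640)))))), by decide +kernel⟩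

def k11_pm_102 : ∃ t, chk3 f_pm_102 t 30 35 1 = true :=
  ⟨(a (b (b (a (a (b (a (l 16783768) (l 16779888)) (b (l 16778376) (l 16777088))) (b (l 16785616) (l 16775984))) (a (l 16773896) (l 16770600))) (a (a (l 16775376) (l 16772504)) (a (l 16769360) (l 16766160)))) (a (b (l 16769432) (l 16764848)) (b (l 16763128) (l 16758528)))) (a (b (b (a (l 16767184) (l 16763632)) (a (l 16762800) (l 16759256))) (b (l 16756576) (l 16752056))) (b (b (a (l 16759984) (l 16756256)) (l 16753760)) (l 16747240)))), by decide +kernel⟩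

def k12_pm_102 : ∃ t, chk3 f_pm_102 t 31 17 1 = true :=
  ⟨(a (b (a (b (b (a (b (l 16771040) (l 16768888)) (b (l 6) (l 16765048))) (a (l 16765616) (l 16761736))) (a (b (l 16761216) (l 16756824)) (l 16765608))) (b (b (l 6) (a (l 16757744) (l 6))) (a (l 16751136) (l 16747072)))) (a (b (l 16758816) (l 16739696)) (b (a (l 16742432) (l 16738392)) (a (l 16733840) (l 16729824))))) (a (b (b (l 6) (a (b (l 6) (l 16740736)) (l 6))) (b (a (l 16734256) (l 16730040)) (l 16723624))) (b (l 6) (a (c (l 16743608) (l 16741344)) (c (l 16739240) (l 16736784)))))), by decide +kernel⟩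

def k13_pm_102 : ∃ t, chk3 f_pm_102 t 6 18 1 = true :=
  ⟨(a (l 3) (b (l 3) (a (l 3) (b (a (l 3) (b (a (l 3) (a (l 3) (b (l 3) (l 278266917783)))) (a (b (l 3) (a (l 3) (l 221358611207))) (b (a (l 232632889047) (l 16780600)) (a (l 16780064) (l 16777832)))))) (a (b (a (l 3) (b (l 3) (a (l 3) (l 181093290727)))) (a (b (l 3) (a (l 3) (l 88214621463))) (b (a (l 180556418871) (l 16778664)) (l 16777152)))) (b (a (b (a (l 180556420823) (l 16779568)) (l 16777992)) (b (a (l 16777360) (l 16775352)) (l 16773904))) (a (b (l 16775504) (l 16773096)) (b (l 16771816) (l 16770736))))))))), by decide +kernel⟩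

def k14_pm_102 : ∃ t, chk3 f_pm_102 t 12 19 1 = true :=
  ⟨(b (a (l 3) (b (l 3) (a (l 3) (b (l 3) (a (l 3) (b (l 3) (l 72645374919))))))) (a (b (l 3) (b (a (l 3) (b (a (l 3) (c (l 16773736) (l 16778360))) (a (c (l 16774136) (a (l 3) (l 16783104))) (c (a (l 38822497079) (l 16780464)) (a (l 53317995207) (l 16775784)))))) (a (a (l 3) (b (c (l 16784656) (l 16783992)) (c (b (l 16782344) (l 96804533191)) (a (l 16781480) (l 96804537095))))) (b (a (c (a (l 16787616) (l 111836937655)) (a (l 28621934919) (l 132238016039))) (c (l 16778616) (l 16777848))) (a (c (l 16784152) (a (l 16778792) (l 16777432))) (l 16775664)))))) (b (a (b (b (l 3) (a (l 3) (l 16785304))) (b (a (l 3) (a (l 16783184) (l 16781152))) (a (c (l 16783528) (l 16777648)) (a (l 16780280) (l 16778488))))) (b (a (b (l 181093299799) (l 16781000)) (b (l 16779648) (l 16777080))) (b (a (l 16778312) (l 16774688)) (a (l 16775856) (l 16772328))))) (a (a (b (b (a (c (l 16786768) (l 83919634727)) (l 16779376)) (l 16777624)) (b (l 16775152) (l 16772656))) (b (b (l 16776840)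 (l 16774400)) (b (l 16771952) (l 16769680)))) (b (a (b (l 16773440) (l 16771096)) (l 16769264)) (l 16767720)))))), by decide +kernel⟩

def k15_pm_102 : ∃ t, chk3 f_pm_102 t 13 19 1 = true :=
  ⟨(b (a (b (a (l 3) (b (a (l 3) (b (l 280951273367) (a (l 195051934439) (l 16779832)))) (a (b (l 209010579495) (l 46338696263)) (b (l 16778240) (l 16775608))))) (a (b (a (b (l 3) (l 247665276167)) (b (a (l 223506093895) (l 16780856)) (l 16779208))) (a (b (l 16780928) (l 16778184)) (b (l 16776616) (l 16774256)))) (b (a (b (l 16777400) (l 16774960)) (b (l 16773224) (l 16771112))) (a (b (l 16772664) (l 16770624)) (l 16769048))))) (b (a (a (b (b (l 65129176055) (l 16776392)) (b (l 16773944) (l 16771600))) (b (b (l 16774704) (l 16772336)) (b (l 16770408) (l 16769384)))) (b (a (b (l 16771088) (l 16770024)) (l 16772168)) (l 16771208))) (a (b (b (a (l 16769856) (l 16770920)) (l 16770848)) (l 16770936)) (b (a (l 16769920) (l 16766392)) (a (l 16766768) (l 16762760)))))) (a (b (a (b (a (b (l 16775728) (l 16773376)) (b (l 16771976) (l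 16770024))) (a (b (l 16771144) (l 16769304)) (l 16768464))) (b (l 16770000) (l 16770616))) (a (b (l 16770160) (l 16770112)) (b (a (l 16769704) (l 16767432)) (l 16766120)))) (b (a (b (a (l 16769920) (l 16767064)) (a (l 16767280) (l 16763840))) (l 16759416)) (a (l 16760672) (b (l 16753912) (l 16750144)))))), by decide +kernel⟩

def k16_pm_102 : ∃ t, chk3 f_pm_102 t 28 18 1 = true :=
  ⟨(b (a (b (l 3) (b (a (l 3) (b (l 3) (a (l 3) (l 284172495063)))) (a (b (l 3) (a (l 3) (l 296520529399))) (b (a (l 290614947607) (l 166060901415)) (a (l 161229065271) (l 16777384)))))) (b (b (a (l 3) (b (l 3) (a (l 3) (a (c (l 254107722823) (l 270750718151)) (c (b (l 245517786391) (l 182703894615)) (b (l 261623910679) (l 192367568151))))))) (a (a (l 3) (b (l 3) (b (l 285783106663) (l 220821728551)))) (b (b (a (l 272898203815) (a (c (l 185925120551) (l 196662535927)) (l 16777504))) (a (a (l 279340653399) (l 191830701607)) (l 16777008))) (a (a (b (l 195051926823) (l 16778024)) (l 16777264)) (c (l 16776200) (l 16785184)))))) (b (a (b (a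 (c (l 269140109431) (l 284709363319)) (a (l 231022278359) (l 16777688))) (a (c (l 167134641607) (l 175187703575)) (l 16776168))) (a (b (l 16775760) (l 16773704)) (b (l 16773368) (l 16771920)))) (a (b (a (l 16776720) (l 16774120)) (a (l 16774632) (l 16772328))) (b (a (l 16772080) (l 16772560)) (l 16772824)))))) (b (a (b (a (b (a (l 273971951767) (l 157470973671)) (a (l 16786424) (l 16778720))) (b (a (l 16778120) (l 16775232)) (a (l 16775904) (l 16773184)))) (a (b (a (l 16778320) (l 16776240)) (a (l 16775800) (l 16773832))) (a (b (l 16773864) (l 16772424)) (l 16772160)))) (b (a (b (a (l 16772704) (l 16771664)) (l 16772488)) (l 16771200)) (a (l 16772104) (l 16767344)))) (a (b (a (b (a (l 16773416) (l 16772112)) (l 16771552)) (l 16772800)) (l 16781800)) (a (b (l 16768464) (l 16764384)) (l 16761160))))), by decide +kernel⟩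

def k17_pm_102 : ∃ t, chk3 f_pm_102 t 29 18 1 = true :=
  ⟨(a (a (b (b (b (b (a (b (a (l 3) (a (l 251960236039) (b (l 243907171463) (a (l 217063630647) (l 16781536))))) (b (a (l 258939558087) (c (l 177335183815) (l 186998857079))) (a (c (l 209547434263) (l 224042945751)) (l 16778160)))) (b (a (a (b (a (l 207399954135) (l 16778880)) (l 16778408)) (l 16778056)) (l 16777072)) (l 16776520))) (b (a (a (a (b (l 227801050183) (l 16778600)) (l 16778240)) (l 16777264)) (l 16775432)) (a (l 16776736) (l 16774376)))) (a (b (a (l 16775688) (l 16774560)) (l 16773112)) (b (l 16772928) (l 16771976)))) (b (l 16772928) (l 16770232))) (b (b (l 16766160) (l 16761952)) (l 16755688))) (b (b (b (a (b (a (a (l 16775560) (l 16775008)) (l 16774128)) (l 16772824)) (b (l 16772824) (l 16773192))) (l 16772768)) (b (l 16769136) (l 16764880))) (b (l 16758472) (l 16750064)))) (b (b (a (b (l 16772064) (l 16767872)) (b (l 16766440) (l 16761952))) (a (b (l 16763480) (l 16759120)) (l 16755328))) (b (a (l 16752688) (l 16746696)) (a (l 16744248) (l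 16738248))))), by decide +kernel⟩

def k18_pm_102 : ∃ t, chk3 f_pm_102 t 15 18 1 = true :=
  ⟨(a (b (a (b (a (b (l 16760288) (l 16755792)) (b (l 16753976) (l 16749472))) (a (l 16749160) (l 16742816))) (b (a (l 16745232) (l 16738456)) (a (l 16736280) (l 16729552)))) (a (b (l 16737352) (l 16728880)) (a (b (l 16727560) (l 16719048)) (b (l 16720776) (l 16712232))))) (a (b (a (b (l 16731176) (l 16722544)) (b (l 16723384) (l 16715016))) (a (b (l 16713808) (l 16705224)) (b (l 16706544) (l 16697992)))) (b (a (a (l 16734096) (l 16729912)) (a (l 16725592) (l 16721144))) (a (b (l 16698672) (l 16690392)) (b (l 16690112) (l 16682080)))))), by decide +kernel⟩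

def k19_pm_102 : ∃ t, chk3 f_pm_102 t 7 19 1 = true :=
  ⟨(a (b (a (a (b (a (b (l 16769656) (l 16765896)) (l 16784232)) (l 16757768)) (b (a (l 16758248) (l 16752976)) (a (l 16750184) (l 16744840)))) (b (a (a (l 16747472) (l 16741840)) (l 16733032)) (a (l 16736592) (l 16724928)))) (a (b (a (a (l 16752456) (l 16747440)) (a (l 16742232) (l 16736904))) (a (b (l 16744192) (l 16740400)) (l 16731840))) (a (b (l 16728584) (l 16720664)) (b (l 16716896) (l 16708904))))) (a (b (a (b (l 16720608) (l 16712480)) (a (b (l 16710752) (l 16702624)) (b (l 16703912) (l 16695784)))) (a (b (l 16704456) (l 16696504)) (b (a (l 16694632) (l 16687840)) (a (l 16686736) (l 16680048))))) (b (a (a (l 16692776) (l 16685496)) (a (l 16677904) (b (l 16673960) (l 16665816)))) (b (a (l 16677216) (a (l 16665920) (l 16657864))) (a (l 16669504) (a (l 16658240) (l 16650184))))))), by decide +kernel⟩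

def k20_pm_102 : ∃ t, chk3 f_pm_102 t 4 5 1 = true :=
  ⟨(b (b (b (l 3) (l 2)) (l 2)) (l 2)), by decide +kernel⟩

def k21_pm_102 : ∃ t, chk3 f_pm_102 t 10 20 1 = true :=
  ⟨(b (l 3) (a (b (b (l 3) (a (l 2) (a (b (l 3) (a (l 2) (b (l 16763584) (l 16762440)))) (b (c (l 33990621335) (b (l 3) (l 16760680))) (b (a (l 16762840) (l 16762232)) (l 16761456)))))) (a (l 2) (b (b (c (b (l 12985542823) (l 16763016)) (b (l 16760552) (l 16756904))) (a (l 2) (b (l 16758480) (l 16757584)))) (b (b (l 16757320) (l 16757032)) (b (b (b (l 16757176) (b (l 16757424) (l 16757736))) (l 16757696)) (l 16757376)))))) (a (b (a (b (l 3) (b (c (b (l 16766448) (l 16765344)) (b (l 16760904) (l 16754528))) (b (l 16756296) (l 16760552)))) (b (b (l 3) (b (l 3) (c (l 16761376) (l 58149796279)))) (b (b (c (l 16765520) (l 16755144)) (l 16756696)) (b (l 16760960) (l 16760032))))) (b (b (b (a (l 16759608) (l 16759096)) (a (l 16758640) (l 16758120))) (a (l 16757280) (l 16756912))) (b (b (l 16756280) (l 16756344)) (b (b (b (l 16756768) (b (l 16758328)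 (b (b (l 16759512) (a (l 16758688) (l 16761920))) (l 16760688)))) (l 16761064)) (l 16761968))))) (b (b (b (b (a (l 3) (c (l 16768784) (l 16764736))) (a (c (l 16768208) (l 16763640)) (c (l 75329685255) (l 97878243271)))) (b (a (c (l 46338653863) (l 79624632023)) (c (l 16766544) (l 16762432))) (a (c (l 16765960) (l 16756088)) (l 16763448)))) (b (a (c (l 16764448) (l 16754536)) (c (l 16764064) (l 16759840))) (a (c (l 16762576) (l 16768272)) (c (l 16762240) (l 16757768))))) (b (b (a (l 16758304) (l 16758184)) (l 16756864)) (b (b (l 16756536) (c (l 16780568) (l 16767808))) (b (b (b (l 16772040) (b (l 16774072) (a (c (l 16765904) (l 16773376)) (l 16766816)))) (l 16766528)) (l 16766960)))))))), by decide +kernel⟩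

def k22_pm_102 : ∃ t, chk3 f_pm_102 t 10 21 1 = true :=
  ⟨(a (b (a (l 2) (l 16765064)) (l 2)) (b (a (b (l 16765496) (l 16767528)) (l 16768720)) (a (l 16766976) (l 16766448)))), by decide +kernel⟩

def k23_pm_102 : ∃ t, chk3 f_pm_102 t 10 11 1 = true :=
  ⟨(a (l 2) (b (l 16803744) (l 2))), by decide +kernel⟩

def k24_pm_102 : ∃ t, chk3 f_pm_102 t 22 5 1 = true :=
  ⟨(b (b (b (b (l 3) (b (a (l 3) (b (l 3) (a (c (l 16768832) (l 16771464)) (c (b (l 52244254599) (l 97341408759)) (l 81772134023))))) (a (b (a (l 3) (c (b (l 3) (l 16771424)) (l 24863831095))) (b (a (l 3) (c (l 73719083447) (l 16761856))) (a (c (l 16769464) (l 16761960)) (c (l 16769088) (l 16765944))))) (b (a (c (b (l 61371056087) (l 116131886567)) (b (l 16764264) (l 16768288))) (c (b (l 16771800) (l 16770664)) (l 16768864))) (a (c (b (l 16769872) (l 16768808)) (l 16766584)) (c (l 16769072) (l 16766672))))))) (b (b (b (b (a (a (c (l 16768312) (l 16759472)) (l 16766424)) (a (l 16766392) (l 16766328))) (a (a (c (l 16767232) (l 16763624)) (l 16765392)) (a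 (l 16765400) (l 16765216)))) (a (a (c (l 16765696) (l 16762016)) (c (l 16765488) (l 16762160))) (a (l 16774176) (l 16763392)))) (a (b (a (c (l 16763768) (l 16759880)) (l 16761688)) (l 16759720)) (b (l 16761392) (l 16759784)))) (b (b (a (l 16758216) (l 16758800)) (a (l 16757424) (l 16781488))) (b (a (b (l 16759344) (b (l 16761888) (l 16764232))) (b (l 16764384) (l 16788832))) (b (b (b (a (l 16766584) (l 16769872)) (b (a (l 16768128) (l 16770672)) (a (c (l 16771312) (l 16767544)) (l 16792240)))) (l 16791832)) (l 16791800)))))) (a (l 16767456) (l 16765768))) (b (l 16756120) (l 16747744))), by decide +kernel⟩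

def k25_pm_102 : ∃ t, chk3 f_pm_102 t 23 5 1 = true :=
  ⟨(b (a (b (b (b (a (l 3) (b (l 3) (b (l 3) (b (l 16782144) (l 103247000775))))) (b (b (a (c (b (l 16776208) (l 119889991815)) (l 88751461527)) (c (l 136532993863) (l 16767712))) (a (c (b (l 16773728) (l 16772552)) (l 16765888)) (l 16771432))) (b (a (l 16769792) (l 16769136)) (a (l 16767592) (l 16766848))))) (b (b (b (l 16785936) (l 16762856)) (l 16760632)) (b (b (l 16761528) (a (l 16764336) (l 16766936))) (b (b (l 16768712) (l 16770376)) (b (b (b (l 16770992) (b (l 16771056) (l 16770880))) (l 16770656)) (l 16770336)))))) (l 16762744)) (b (b (b (b (b (l 3) (a (l 3) (c (b (l 16780840) (l 16779400)) (l 57076089719)))) (b (a (c (l 59760436583) (l 61371052551)) (c (l 128479935543) (l 16773544))) (a (b (l 144049166391) (l 16774464)) (l 16774184)))) (b (b (a (l 16772632) (l 16771576)) (a (l 16770216) (l 16768952))) (b (l 16788128) (l 16764992)))) (b (b (l 16783480) (l 16783976)) (b (b (l 16767008) (l 16769272)) (b (b (l 16770128) (l 16770072)) (b (b (b (l 16769376)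 (b (l 16768760) (c (c (l 16789136) (l 16789040)) (l 16788320)))) (l 16767440)) (l 16767024)))))) (b (l 16762296) (l 16753896)))) (b (l 16788032) (l 16735032))), by decide +kernel⟩

def k26_pm_102 : ∃ t, chk3 f_pm_102 t 6 40 1 = true :=
  ⟨(a (b (a (b (a (b (b (a (l 16778736) (a (l 16779632) (l 16778448))) (a (c (l 63518558631) (l 61907943975)) (l 16777736))) (a (c (l 138680484871) (l 141901687383)) (l 16775832))) (a (b (l 16775920) (l 16773408)) (b (l 16773152) (l 16770656)))) (a (b (a (l 16775288) (l 16773344)) (a (l 16772776) (l 16770752))) (b (l 16790568) (l 16767520)))) (a (b (l 16789048) (l 16767704)) (b (l 16769840) (a (l 16769648) (l 16769056))))) (a (b (a (b (l 16769080) (l 16766704)) (l 16765304)) (a (l 16764120) (l 16788120))) (a (b (l 16768984) (a (l 16768912) (l 16768592))) (b (l 16768200) (l 16766160))))) (a (b (a (b (l 16779008) (l 16766296)) (l 16761608)) (a (l 16761984) (b (l 16756432) (l 16752664)))) (b (a (b (l 16755432) (l 16751744)) (b (l 16746344) (l 16742632))) (a (b (l 16747960) (l 16744264))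 (l 16737000))))), by decide +kernel⟩

def k27_pm_102 : ∃ t, chk3 f_pm_102 t 6 41 1 = true :=
  ⟨(b (a (a (b (a (l 16785768) (b (l 16768328) (l 16768752))) (a (b (l 16767072) (l 16768432)) (l 16768688))) (b (a (l 16767792) (l 16763320)) (a (l 16765432) (l 16759584)))) (a (b (a (l 16756584) (l 16748832)) (a (l 16752552) (l 16744976))) (a (b (l 16740488) (l 16736432)) (b (l 16731184) (l 16726944))))) (a (b (a (b (l 16773984) (a (l 16769080) (l 16765720))) (b (a (l 16762616) (l 16756272)) (a (l 16760192) (l 16754040)))) (b (b (a (a (l 16768216) (l 16763712)) (l 16755312)) (a (a (l 16766816) (l 16782968)) (l 16774680))) (b (b (b (a (a (l 16765328) (l 16760720)) (l 16752368)) (b (a (a (l 16764608) (l 16760136)) (l 16751656)) (a (b (b (l 16762080) (l 16782672)) (l 16761616)) (l 16792664)))) (a (l 16761424) (l 16750392))) (a (l 16760928) (l 16749824))))) (b (a (a (l 16748304) (l 16740520)) (a (l 16731736) (l 16722048))) (b (a (a (l 16744128) (l 16736056)) (a (l 16727032) (c (l 16719248) (l 16714696)))) (b (b (b (a (l 16737824)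 (l 16719576)) (b (a (l 16736976) (l 16718648)) (a (a (l 16739976) (l 16731656)) (a (l 16722456) (l 16712464))))) (a (l 16735544) (l 16717136))) (a (l 16734912) (l 16716448))))))), by decide +kernel⟩

def k28_pm_102 : ∃ t, chk3 f_pm_102 t 6 21 1 = true :=
  ⟨(a (a (a (l 16794704) (l 16768488)) (c (l 16780784) (l 16799240))) (a (a (l 16725832) (l 16716744)) (a (l 16706824) (b (l 16703416) (l 16689128))))), by decide +kernel⟩

def k29_pm_102 : ∃ t, chk3 f_pm_102 t 6 11 1 = true :=
  ⟨(a (a (b (a (l 16735504) (l 16728536)) (l 16738712)) (b (l 16737824) (l 16699088))) (a (b (l 16739816) (l 16677488)) (b (a (l 16681176) (l 16669160)) (a (l 16658944) (l 16645464))))), by decide +kernel⟩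

def k30_pm_102 : ∃ t, chk3 f_pm_102 t 7 20 1 = true :=
  ⟨(b (a (a (b (a (l 16734712) (l 16724072)) (a (l 16727000) (l 16716152))) (a (b (l 16712736) (l 16704664)) (b (l 16700840) (l 16692632)))) (a (a (b (a (l 16691608) (l 16685312)) (a (l 16683400) (l 16677296))) (b (l 16675688) (l 16668008))) (a (b (l 16682920) (l 16654528)) (b (a (l 16650768) (l 16642744)) (a (l 16643488) (l 16635528)))))) (a (b (a (a (b (l 16720976) (l 16716600)) (b (l 16709968) (l 16705480))) (a (b (l 16698368) (l 16693816)) (b (l 16686264) (l 16681800)))) (b (a (a (l 16711536) (l 16700320)) (a (l 16688608) (b (l 16678176) (l 16675536)))) (b (b (a (a (l 16707776) (l 16696496)) (a (l 16684776) (l 16673360))) (a (a (l 16705600) (l 16694304)) (a (l 16682648) (a (l 16674128) (l 16669256))))) (b (b (b (a (a (l 16703800) (l 16692512)) (a (l 16680928) (l 16670552))) (b (a (a (l 16702848) (l 16691568)) (a (l 16680072) (l 16670008))) (a (a (l 16701776) (l 16690520)) (a (a (l 16681840) (c (l 16677616) (l 16695248))) (l 16669416))))) (a (l 16695752)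 (a (l 16678688) (l 16669104)))) (a (l 16695008) (a (l 16677920) (l 16668360))))))) (b (a (a (b (l 16674216) (l 16670080)) (l 16681232)) (a (b (l 16649016) (l 16645328)) (a (l 16636336) (l 16628504)))) (a (b (a (l 16665768) (l 16654264)) (b (a (l 16662120) (l 16671896)) (b (b (b (a (l 16660496) (l 16649496)) (b (a (l 16660056) (l 16649136)) (a (l 16659584) (l 16648776)))) (a (l 16659288) (l 16648480))) (a (l 16658568) (l 16647776))))) (b (a (l 16641568) (a (l 16631008) (l 16623312))) (b (a (l 16659560) (a (l 16628256) (l 16620704))) (b (b (b (a (l 16637360) (l 16623512)) (b (a (l 16637088) (l 16623312)) (a (l 16636832) (l 16623152)))) (a (l 16636552) (l 16622888))) (a (l 16635880) (l 16622232))))))))), by decide +kernel⟩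

def k31_pm_102 : ∃ t, chk3 f_pm_102 t 7 21 1 = true :=
  ⟨(a (a (a (b (l 16692400) (l 16677536)) (b (l 16680864) (l 16665480))) (a (b (a (l 16672008) (l 16687384)) (l 16653520)) (b (b (l 16663904) (l 16656112)) (l 16644504)))) (a (a (b (b (l 16654312) (l 16646888)) (l 16635680)) (b (a (l 16642720) (l 16658136)) (l 16625560))) (b (a (b (l 16631856) (l 16645792)) (a (l 16639504) (b (l 16614648) (l 16607992)))) (a (a (l 16617120) (l 16611160)) (a (l 16604832) (l 16597992)))))), by decide +kernel⟩

def k32_pm_102 : ∃ t, chk3 f_pm_102 t 7 11 1 = true :=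
  ⟨(a (a (b (a (l 16656616) (l 16643696)) (a (l 16631464) (l 16617184))) (b (a (b (l 16638360) (l 16623840)) (b (l 16629488) (l 16615072))) (a (l 16603320) (l 16594560)))) (a (b (a (b (l 16621136) (l 16607224)) (b (l 16611528) (l 16598128))) (a (l 16587512) (l 16579240))) (b (a (b (l 16600616) (l 16587760)) (b (a (l 16591464) (l 16584856)) (l 16575872))) (a (b (l 16575576) (l 16564064)) (b (l 16564272) (l 16553368)))))), by decide +kernel⟩

def k33_pm_102 : ∃ t, chk3 f_pm_102 t 1 3 1 = true :=
  ⟨(a (a (l 2) (b (b (a (l 2) (a (l 2) (b (l 16727560) (l 2)))) (l 2)) (l 2))) (a (b (a (b (a (b (l 16707256) (l 16701040)) (b (l 16684816) (l 16674248))) (a (l 2) (l 16667104))) (b (a (b (l 16659960) (l 16644960)) (b (a (l 16639344) (l 16624680)) (l 16612768))) (a (l 16629976) (b (l 16596376) (l 16583936))))) (a (l 2) (b (a (l 2) (b (l 16580400) (l 2))) (l 2)))) (b (a (b (a (b (a (l 16609352) (l 16593536)) (l 16578752)) (a (b (l 16578144) (l 16553168)) (b (l 16569208) (l 16543880)))) (a (b (l 16557480) (l 16539128)) (b (a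 (l 16528848) (l 16519224)) (a (l 16506080) (l 16494400))))) (b (a (b (a (l 16563336) (l 16556264)) (a (l 16539632) (l 16534200))) (b (a (l 16568960) (l 16580208)) (a (l 16527576) (l 16519528)))) (a (b (a (l 16517280) (l 16513712)) (a (l 16494352) (l 16492728))) (b (b (l 16510560) (l 16501728)) (a (l 16489584) (l 16484776)))))) (a (b (a (b (l 16531016) (l 16538920)) (a (l 16497488) (b (l 16479424) (l 16483400)))) (a (l 2) (b (l 16504064) (l 2)))) (b (a (b (l 16520288) (l 16478208)) (b (l 16536432) (l 16469752))) (a (b (l 16482792) (l 16492064)) (b (l 16469408) (l 16472616)))))))), by decide +kernel⟩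

theorem s34_pm_102 : ∃ t, chk3 f_pm_102 t 7 10 1 = true := ex3_b k30_pm_102 k31_pm_102

theorem s35_pm_102 : ∃ t, chk3 f_pm_102 t 7 5 1 = true := ex3_b s34_pm_102 k32_pm_102

theorem s36_pm_102 : ∃ t, chk3 f_pm_102 t 6 20 1 = true := ex3_b k26_pm_102 k27_pm_102

theorem s37_pm_102 : ∃ t, chk3 f_pm_102 t 6 10 1 = true := ex3_b s36_pm_102 k28_pm_102

theorem s38_pm_102 : ∃ t, chk3 f_pm_102 t 6 5 1 = true := ex3_b s37_pm_102 k29_pm_102

theorem s39_pm_102 : ∃ t, chk3 f_pm_102 t 3 5 1 = true := ex3_a s38_pm_102 s35_pm_102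

theorem s40_pm_102 : ∃ t, chk3 f_pm_102 t 11 5 1 = true := ex3_a k24_pm_102 k25_pm_102

theorem s41_pm_102 : ∃ t, chk3 f_pm_102 t 10 10 1 = true := ex3_b k21_pm_102 k22_pm_102

theorem s42_pm_102 : ∃ t, chk3 f_pm_102 t 10 5 1 = true := ex3_b s41_pm_102 k23_pm_102

theorem s43_pm_102 : ∃ t, chk3 f_pm_102 t 5 5 1 = true := ex3_a s42_pm_102 s40_pm_102

theorem s44_pm_102 : ∃ t, chk3 f_pm_102 t 2 5 1 = true := ex3_a k20_pm_102 s43_pm_102

theorem s45_pm_102 : ∃ t, chk3 f_pm_102 t 1 5 1 = true := ex3_a s44_pm_102 s39_pm_102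

theorem s46_pm_102 : ∃ t, chk3 f_pm_102 t 14 18 1 = true := ex3_a k16_pm_102 k17_pm_102

theorem s47_pm_102 : ∃ t, chk3 f_pm_102 t 7 18 1 = true := ex3_a s46_pm_102 k18_pm_102

theorem s48_pm_102 : ∃ t, chk3 f_pm_102 t 7 9 1 = true := ex3_b s47_pm_102 k19_pm_102

theorem s49_pm_102 : ∃ t, chk3 f_pm_102 t 6 19 1 = true := ex3_a k14_pm_102 k15_pm_102

theorem s50_pm_102 : ∃ t, chk3 f_pm_102 t 6 9 1 = true := ex3_b k13_pm_102 s49_pm_102

theorem s51_pm_102 : ∃ t, chk3 f_pm_102 t 3 9 1 = true := ex3_a s50_pm_102 s48_pm_102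

theorem s52_pm_102 : ∃ t, chk3 f_pm_102 t 30 17 1 = true := ex3_b k10_pm_102 k11_pm_102

theorem s53_pm_102 : ∃ t, chk3 f_pm_102 t 15 17 1 = true := ex3_a s52_pm_102 k12_pm_102

theorem s54_pm_102 : ∃ t, chk3 f_pm_102 t 15 8 1 = true := ex3_b k9_pm_102 s53_pm_102

theorem s55_pm_102 : ∃ t, chk3 f_pm_102 t 58 71 1 = true := ex3_b k6_pm_102 k7_pm_102

theorem s56_pm_102 : ∃ t, chk3 f_pm_102 t 58 35 1 = true := ex3_b k5_pm_102 s55_pm_102

theorem s57_pm_102 : ∃ t, chk3 f_pm_102 t 29 35 1 = true := ex3_a s56_pm_102 k8_pm_102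

theorem s58_pm_102 : ∃ t, chk3 f_pm_102 t 29 17 1 = true := ex3_b k4_pm_102 s57_pm_102

theorem s59_pm_102 : ∃ t, chk3 f_pm_102 t 29 8 1 = true := ex3_b k3_pm_102 s58_pm_102

theorem s60_pm_102 : ∃ t, chk3 f_pm_102 t 14 8 1 = true := ex3_a k2_pm_102 s59_pm_102

theorem s61_pm_102 : ∃ t, chk3 f_pm_102 t 7 8 1 = true := ex3_a s60_pm_102 s54_pm_102

theorem s62_pm_102 : ∃ t, chk3 f_pm_102 t 3 8 1 = true := ex3_a k1_pm_102 s61_pm_102

theorem s63_pm_102 : ∃ t, chk3 f_pm_102 t 3 4 1 = true := ex3_b s62_pm_102 s51_pm_102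

theorem s64_pm_102 : ∃ t, chk3 f_pm_102 t 1 4 1 = true := ex3_a k0_pm_102 s63_pm_102

theorem s65_pm_102 : ∃ t, chk3 f_pm_102 t 1 2 1 = true := ex3_b s64_pm_102 s45_pm_102

theorem s66_pm_102 : ∃ t, chk3 f_pm_102 t 1 1 1 = true := ex3_b s65_pm_102 k33_pm_102

theorem c_pm_102 : CertB 536870912 536870912 0 536870912 587336777 62277027 3 eng mog cd0q1 cd1q0 pd2 true true false .npp 1 0 2
    ndB0q1 ndB1q0 pcB2 cut_pm_102 Ext.none :=
  certB1 (fam := true) (s1 := true) (s2 := false) (a := 1) (b := 0) (c := 2) (cn := .npp) (n1 := ndB0q1) (n2 := ndB1q0) (pc := pcB2) (cut := cut_pm_102) (xt := Ext.none) (P1 := 536870912) (W1 := 536870912) (P2 := 0) (W2 := 536870912) (P3 := 587336777) (W3 := 62277027) (N0 := 3) (En := eng) (mo := mog) (C1 := cd0q1) (C2 := cd1q0) (C3 := pd2)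
    rfl (fun _ => rfl) s66_pm_102

noncomputable def f_pm_112 : ℕ → ℕ → ℕ → ℕ → Bool := onCell 536870912 536870912 1073741824 536870912 587336777 62277027
    (rowB 3 eng mog cd0q1 cd1q1 pd2 1 true true false .dn 1 1 2 (qsf 536870912 536870912 536870912 536870912 2) ndB0q1 ndB1q1 pcB2 Cut.none Ext.none)

def k0_pm_112 : ∃ t, chk3 f_pm_112 t 1 4 1 = true :=
  ⟨(a (b (l 3) (a (l 3) (l 3))) (l 1)), by decide +kernel⟩

def k1_pm_112 : ∃ t, chk3 f_pm_112 t 4 5 1 = true :=
  ⟨(a (b (b (b (l 3) (b (l 3) (b (l 3) (b (b (l 3) (b (l 3) (b (l 3) (a (a (l 16744032) (l 3)) (a (l 3) (l 16744056)))))) (a (a (l 16744016) (l 16744048)) (a (l 16754776) (b (a (l 16744320) (l 16744424)) (l 16744760)))))))) (a (b (a (l 16743064) (l 16744304)) (l 16739688)) (b (a (l 16745568) (b (l 16746120) (l 16746960))) (l 16744992)))) (a (b (l 16750832) (l 16712544)) (b (l 16739016) (l 16727240)))) (b (b (b (l 3) (b (l 3) (b (a (l 3) (a (b (l 3) (b (l 16743320) (a (l 16743664) (l 66202830087)))) (b (b (l 3) (l 67276567959)) (c (b (l 16746016) (l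 16746808)) (b (l 16743808) (l 16744432)))))) (b (b (a (a (l 3) (b (l 16743504) (l 16743928))) (b (a (l 16744592) (l 16746064)) (a (l 16744968) (l 16746336)))) (a (a (b (l 16743816) (b (l 16744112) (l 16744296))) (b (l 16744368) (l 16744752))) (b (a (l 16745328) (l 16746784)) (a (l 16745856) (l 16747728))))) (b (b (b (a (a (l 16744448) (l 16745056)) (a (l 16746592) (l 16748840))) (b (a (a (l 16744520) (l 16745440)) (l 16759160)) (a (a (a (l 16744440) (l 16744768)) (l 16746104)) (a (l 16748392) (l 16750552))))) (a (a (l 16744840) (l 16746680)) (l 16750000))) (a (a (l 16745248) (l 16747104)) (l 16750400))))))) (a (b (a (b (l 16747088) (l 16748448)) (l 16750016)) (l 16749576)) (b (a (l 16752312) (l 16754264)) (l 16754328)))) (b (a (l 16746160) (l 16751736)) (a (l 16738640) (l 16746624))))), by decide +kernel⟩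

def k2_pm_112 : ∃ t, chk3 f_pm_112 t 5 5 1 = true :=
  ⟨(a (b (b (b (l 3) (a (b (b (l 3) (b (a (l 3) (a (l 3) (l 1))) (b (a (l 3) (a (c (l 16746576) (l 16744152)) (l 1))) (a (a (l 3) (l 16745264)) (a (c (l 16747328) (l 16744656)) (l 168074087543)))))) (b (b (b (a (a (l 16744992) (a (l 16745624) (l 16746056))) (a (c (l 16748120) (l 16745208)) (c (l 16749008) (l 16745632)))) (a (a (l 16745600) (l 16746504)) (a (l 16747248) (l 33319491479)))) (b (a (c (l 16748072) (l 16745328)) (a (l 16747712) (l 20434589271))) (a (a (l 16746848) (l 16747544)) (a (l 16748112) (l 16748512))))) (b (b (a (a (l 16747352) (l 16748216)) (l 16749072)) (a (l 16749240) (l 16750600))) (b (b (b (a (l 16750736) (l 16752000)) (b (a (l 16751552) (l 16752736)) (a (l 16752328) (a (l 16753240) (l 16753632))))) (a (l 16752704) (l 16753776))) (a (l 16753048) (l 16754096)))))) (a (b (l 1) (b (l 1) (b (l 1) (b (l 1) (l 16754872))))) (l 1)))) (a (b (a (l 16755712) (l 16756552)) (l 16757280)) (a (b (b (l 21508353623) (l 16757504)) (l 16757856)) (l 134251284167))))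 (b (a (l 16755168) (l 16755584)) (a (l 16751072) (l 16751544)))) (b (b (l 1) (a (l 150357368823) (l 1))) (a (b (l 16773816) (l 16747704)) (b (l 132103844711) (l 16739064))))), by decide +kernel⟩

def k3_pm_112 : ∃ t, chk3 f_pm_112 t 3 5 1 = true :=
  ⟨(a (b (l 1) (a (a (b (l 1) (l 104186539703)) (l 1)) (l 1))) (l 1)), by decide +kernel⟩

def k4_pm_112 : ∃ t, chk3 f_pm_112 t 2 3 1 = true :=
  ⟨(a (b (a (b (a (b (l 16691168) (l 16665792)) (b (l 16712232) (l 16693752))) (a (b (l 16635008) (l 16598496)) (b (l 16671472) (l 16643744)))) (b (a (l 16786624) (l 16738704)) (a (l 16736944) (l 16725016)))) (a (b (a (b (a (b (l 16555472) (l 16533000)) (l 16570352)) (a (l 16499432) (b (l 16538304) (l 16516752)))) (b (l 16610136) (a (l 16557104) (l 16587208)))) (a (b (a (l 16457032) (l 16485736)) (a (b (l 16427720) (l 16409832)) (b (l 16456608) (l 16438568)))) (b (a (l 16516856) (b (l 16557504) (l 16537496))) (a (l 16478400) (l 16510616))))) (b (a (b (l 16662064) (l 16632672)) (b (l 16708368) (l 16691240))) (a (b (a (l 16581320)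 (l 16615928)) (a (a (l 16536064) (l 16552744)) (a (l 16570984) (l 16590032)))) (b (l 16668280) (a (l 16619472) (l 16659160))))))) (b (a (b (a (l 16747392) (l 16749528)) (a (l 16746480) (l 16757304))) (b (a (b (l 16744952) (l 16746264)) (l 16733400)) (a (l 16756928) (l 16745120)))) (a (b (a (l 16743472) (l 16772856)) (a (b (l 16732480) (l 16718608)) (l 16785272))) (b (a (l 16786408) (l 16782480)) (a (l 16826296) (l 16844624)))))), by decide +kernel⟩

def k5_pm_112 : ∃ t, chk3 f_pm_112 t 3 3 1 = true :=
  ⟨(a (b (a (b (a (b (l 16717832) (l 16714008)) (b (l 105797109239) (l 16690552))) (a (l 16721544) (l 16689016))) (b (a (l 124050692087) (l 1)) (a (l 16694944) (l 97743838119)))) (a (b (a (l 16760248) (l 16721904)) (a (l 16815320) (l 16758832))) (b (a (b (l 16662128) (l 16686424)) (b (l 16611496) (l 16630072))) (a (b (l 16722024) (l 16771728)) (l 16682232))))) (b (a (b (l 1) (a (l 126734814759) (l 1))) (l 1)) (a (b (a (b (l 16564056) (l 16574936)) (a (l 65531451767) (b (l 1) (l 16521776)))) (a (b (l 16599264) (l 16638928))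 (a (l 16569856) (b (l 16532904) (l 16559168))))) (b (a (b (l 1) (l 77879436551)) (l 1)) (a (b (l 16565128) (l 16536744)) (b (l 54257118071) (l 46204066375))))))), by decide +kernel⟩

theorem s6_pm_112 : ∃ t, chk3 f_pm_112 t 1 3 1 = true := ex3_a k4_pm_112 k5_pm_112

theorem s7_pm_112 : ∃ t, chk3 f_pm_112 t 2 5 1 = true := ex3_a k1_pm_112 k2_pm_112

theorem s8_pm_112 : ∃ t, chk3 f_pm_112 t 1 5 1 = true := ex3_a s7_pm_112 k3_pm_112

theorem s9_pm_112 : ∃ t, chk3 f_pm_112 t 1 2 1 = true := ex3_b k0_pm_112 s8_pm_112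

theorem s10_pm_112 : ∃ t, chk3 f_pm_112 t 1 1 1 = true := ex3_b s9_pm_112 s6_pm_112

theorem c_pm_112 : CertB 536870912 536870912 536870912 536870912 587336777 62277027 3 eng mog cd0q1 cd1q1 pd2 true true false .dn 1 1 2
    ndB0q1 ndB1q1 pcB2 Cut.none Ext.none :=
  certB1 (fam := true) (s1 := true) (s2 := false) (a := 1) (b := 1) (c := 2) (cn := .dn) (n1 := ndB0q1) (n2 := ndB1q1) (pc := pcB2) (cut := Cut.none) (xt := Ext.none) (P1 := 536870912) (W1 := 536870912) (P2 := 536870912) (W2 := 536870912) (P3 := 587336777) (W3 := 62277027) (N0 := 3) (En := eng) (mo := mog) (C1 := cd0q1) (C2 := cd1q1) (C3 := pd2)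
    rfl (fun _ => rfl) s10_pm_112

noncomputable def xt_pm_113 : Ext := extD2 3 ⟨7, 3, 3, 10, 1815, 1000, 17, 20, 37, 100, 3, 16⟩ eng cd0q1 cd1q1 pd3 true true false .nn 1 1 3 rfl ndB0q1 ndB1q1 pcB3

noncomputable def f_pm_113 : ℕ → ℕ → ℕ → ℕ → Bool := onCell 536870912 536870912 536870912 536870912 587336777 62277027
    (rowB 3 eng mog cd0q1 cd1q1 pd3 0 true true false .nn 1 1 3 (qsf 536870912 536870912 536870912 536870912 3) ndB0q1 ndB1q1 pcB3 Cut.none xt_pm_113)

def k0_pm_113 : ∃ t, chk3 f_pm_113 t 2 1 1 = true :=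
  ⟨(b (a (l 1) (b (l 1) (a (l 1) (b (l 1) (l 58552556023))))) (a (b (a (l 1) (b (l 1) (a (l 1) (l 16694096)))) (a (b (a (l 1) (b (l 1) (l 16569216))) (b (a (a (l 1) (l 16520176)) (l 16548760)) (b (a (l 31171518567) (l 16533968)) (a (a (a (b (l 16472792) (a (b (l 16466256) (l 16484080)) (l 16468456))) (l 16477520)) (l 16491080)) (l 16524512))))) (b (b (l 113313077559) (a (l 16612744) (l 16671056))) (b (a (l 16598856) (l 16660680)) (a (l 16585880) (l 16629256)))))) (b (a (b (l 63921230903) (a (l 16745128) (l 16807992))) (b (l 38151432919) (l 16773936))) (a (b (a (l 16731904) (l 16771224)) (a (b (l 16711776) (b (l 16703784) (l 16699328))) (b (l 16749944) (l 16739416)))) (b (a (l 16780856) (l 16807256)) (b (a (l 16778144) (l 16802008)) (a (l 16766992) (l 16789336)))))))), by decide +kernel⟩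

def k1_pm_113 : ∃ t, chk3 f_pm_113 t 6 2 1 = true :=
  ⟨(b (a (l 1) (b (l 1) (a (l 1) (l 16710104)))) (a (b (a (l 1) (l 16797800)) (a (l 16865800) (l 16911312))) (b (a (l 16811320) (l 16826840)) (a (l 16962528) (l 16930248))))), by decide +kernel⟩

def k2_pm_113 : ∃ t, chk3 f_pm_113 t 7 4 1 = true :=
  ⟨(a (a (b (l 1) (l 16703520)) (a (b (l 1) (l 16699984)) (a (b (l 1) (b (b (l 841412370594921654809575455) (l 16683792)) (l 16733832))) (b (b (l 1) (c (l 63920956359) (b (l 1) (l 16594880)))) (b (b (c (l 16686840) (l 16620200)) (c (l 16719560) (l 16649472))) (b (b (l 16709704) (l 16727032)) (l 16749968))))))) (b (a (a (b (l 1) (b (c (l 16625024) (l 1402353950895701879022092319)) (c (l 16654512) (l 142251618558132255)))) (b (a (l 1) (a (l 1) (b (l 1) (l 1595782082033903046426460191)))) (b (c (l 142601263327871007) (c (l 16571976) (l 16539352))) (a (c (l 16658936) (l 16591576)) (c (l 16667104) (l 16600696)))))) (b (a (c (b (l 1644139114818373314455322655) (b (l 16583712) (l 16603784))) (b (c (l 16504432) (l 16471768))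 (a (l 16522760) (l 16529384)))) (a (b (c (l 16562280) (l 16493096)) (c (l 16607832) (l 16542136))) (b (c (l 16571072) (l 16545376)) (c (l 142276151483744287) (b (l 16545928) (l 16577096)))))) (b (a (c (a (l 16632336) (l 16644152)) (a (l 16565792) (l 142027318169370655))) (c (a (l 142440734697259039) (l 142477843230801951)) (a (l 142123869062299679) (l 142171766556459039)))) (a (b (c (l 16670960) (l 142292987721433119)) (a (l 142638371908714527) (l 16658056))) (l 16655088))))) (a (b (b (a (c (l 16691904) (a (l 16619384) (l 16623824))) (c (l 143017703515602975) (a (l 16631104) (l 16637976)))) (a (c (l 16725528) (l 142885212269723679)) (l 16700840))) (l 16742216)) (a (b (l 16692056) (l 16743176)) (b (l 16697712) (l 16720400)))))), by decide +kernel⟩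

def k3_pm_113 : ∃ t, chk3 f_pm_113 t 7 5 1 = true :=
  ⟨(a (a (b (l 16826784) (l 16902992)) (b (b (l 16789408) (a (l 16833768) (l 16825824))) (b (b (l 16856304) (l 16872928)) (l 16895128)))) (b (a (b (a (l 16783480) (l 16782504)) (a (l 16820640) (l 16817688))) (b (a (a (l 16780432) (l 16779064)) (b (l 16767624) (l 16786464))) (a (b (l 16806504) (l 16822856)) (l 16812192)))) (b (a (a (l 16853456) (l 16848968)) (a (l 16844648) (l 16840392))) (a (l 16898672) (a (l 16868488) (l 16862256)))))), by decide +kernel⟩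

def k4_pm_113 : ∃ t, chk3 f_pm_113 t 3 3 1 = true :=
  ⟨(a (b (b (a (a (l 16977312) (l 17031496)) (a (l 17044984) (l 16996464))) (a (a (l 16908472) (l 16946712)) (l 16897232))) (a (b (a (l 16835280) (l 16885000)) (b (a (l 16826448) (l 16850112)) (a (l 16811144) (l 16831232)))) (b (a (l 16910416) (l 16930376)) (b (l 16730568) (a (l 16846840) (l 16897848)))))) (b (a (b (a (l 16957600) (l 16906848)) (a (l 17001960) (l 16959864))) (b (a (b (c (l 16906456) (l 16888192)) (l 16846504)) (b (c (l 16888600) (l 16870760)) (l 16948592))) (a (a (l 16933248) (l 16916560)) (b (l 16891336) (l 16890904))))) (a (b (a (l 16941288) (l 16876424)) (a (b (l 16886128) (l 16960808)) (b (l 16878208) (l 16844680)))) (b (a (b (l 16924224) (l 16902824)) (b (l 16883160) (l 16868600))) (b (a (l 16860584) (a (l 16844912) (l 16834496))) (a (a (l 16829408) (l 16817664)) (a (l 16807216) (b (l 16805520) (a (l 16790352) (b (l 16788736) (a (l 16781456) (b (a (l 16781672) (l 16781600)) (a (a (l 16778872) (l 16840232)) (b (l 16776760) (a (l 16774256)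 (b (l 16772800) (l 4))))))))))))))))), by decide +kernel⟩

theorem s5_pm_113 : ∃ t, chk3 f_pm_113 t 7 2 1 = true := ex3_b k2_pm_113 k3_pm_113

theorem s6_pm_113 : ∃ t, chk3 f_pm_113 t 3 2 1 = true := ex3_a k1_pm_113 s5_pm_113

theorem s7_pm_113 : ∃ t, chk3 f_pm_113 t 3 1 1 = true := ex3_b s6_pm_113 k4_pm_113

theorem s8_pm_113 : ∃ t, chk3 f_pm_113 t 1 1 1 = true := ex3_a k0_pm_113 s7_pm_113

theorem c_pm_113 : CertB 536870912 536870912 536870912 536870912 587336777 62277027 3 eng mog cd0q1 cd1q1 pd3 true true false .nn 1 1 3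
    ndB0q1 ndB1q1 pcB3 Cut.none xt_pm_113 :=
  certB0 (fam := true) (s1 := true) (s2 := false) (a := 1) (b := 1) (c := 3) (cn := .nn) (n1 := ndB0q1) (n2 := ndB1q1) (pc := pcB3) (cut := Cut.none) (xt := xt_pm_113) (P1 := 536870912) (W1 := 536870912) (P2 := 536870912) (W2 := 536870912) (P3 := 587336777) (W3 := 62277027) (N0 := 3) (En := eng) (mo := mog) (C1 := cd0q1) (C2 := cd1q1) (C3 := pd3)
    rfl s8_pm_113

noncomputable def cut_pm_123_a : Cut := Cut.of [[⟨0, 1, 0, 67108864⟩, ⟨1, 1, 0, 67108864⟩, ⟨2, 2, 0, 16777216⟩], [⟨0, 0, 1, 20971520⟩, ⟨1, 1, 0, 29360128⟩, ⟨2, 1, 1, 20971520⟩]]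

noncomputable def xt_pm_123_a : Ext := extD2 3 ⟨7, 3, 3, 10, 1815, 1000, 17, 20, 37, 100, 3, 16⟩ eng cd0q1 cd1q2a pd3 true true false .npn 1 2 3 rfl ndB0q1 ndB1q2a pcB3

noncomputable def f_pm_123_a : ℕ → ℕ → ℕ → ℕ → Bool := onCell 1610612736 536870912 0 536870912 587336777 62277027
    (rowB 3 eng mog cd0q1 cd1q2a pd3 2 true true false .npn 1 2 3 (qsf 536870912 536870912 0 536870912 3) ndB0q1 ndB1q2a pcB3 cut_pm_123_a xt_pm_123_a)

def k0_pm_123_a : ∃ t, chk3 f_pm_123_a t 4 2 1 = true :=
  ⟨(a (l 1) (b (l 1) (a (l 1) (b (l 1) (a (l 1) (l 16628608)))))), by decide +kernel⟩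

def k1_pm_123_a : ∃ t, chk3 f_pm_123_a t 8 6 1 = true :=
  ⟨(l 1), by decide +kernel⟩

def k2_pm_123_a : ∃ t, chk3 f_pm_123_a t 16 14 1 = true :=
  ⟨(l 1), by decide +kernel⟩

def k3_pm_123_a : ∃ t, chk3 f_pm_123_a t 32 15 1 = true :=
  ⟨(b (l 1) (b (a (l 1) (c (c (b (l 141427328297205775) (l 141438185981935631)) (b (l 141243572367835151) (l 141253193100165135))) (c (b (l 141070399239946255) (l 141077202471862287)) (l 141088816016113679)))) (b (a (a (l 1) (c (c (l 141512196833574927) (l 141128054904635407)) (l 141024425857761295))) (c (a (c (l 141589643705368591) (l 141217184088588303)) (c (l 141490756400873487) (l 141310848759169039))) (c (a (l 141033771754487823) (l 141136850994135055)) (l 141093282785083407)))) (c (a (c (c (b (a (l 141331739489075215) (l 141399222034989071)) (a (c (b (l 141368779298357263) (a (b (l 141357784179441679) (b (l 141360120642682895) (c (a (l 141368504420990991) (l 141383485271539727)) (l 141347476255916047)))) (c (a (l 141396473256296463) (l 141411935143297039)) (l 141376407164026895))))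 (a (l 141299578767130639) (l 141332220528148495))) (c (b (l 141433100747997199) (b (l 141436742882197519) (c (a (l 141436674162819087) (l 141468491290345487)) (l 141425953921990671)))) (a (l 141365618203639823) (l 141399840513097743))))) (b (a (l 141221101102727183) (l 141294424804704271)) (a (c (l 141260614813990927) (l 141206188974014479)) (c (l 141330296383258639) (l 141278619322581007))))) (a (b (l 141061328277536783) (c (l 141126062042890255) (l 141021814568992783))) (b (l 141142279842021391) (c (l 141382385711480847) (l 141102422535847951))))) (c (a (c (b (l 141469934397243407) (c (b (l 141500445855514639) (b (l 141503263355879439) (a (l 141488351225544719) (l 141522092498927631)))) (a (l 141434818737029135) (l 141470690314403855)))) (b (l 141371459359424527) (a (l 141359983205728271) (l 141398191245525007)))) (b (c (l 141543945295364111) (l 141452273486413839)) (b (c (l 141547793589338127) (l 141455915621580815)) (c (c (a (l 141555902491426831) (l 141591293032726543)) (a (l 141508829635854351) (l 141546006883729423)))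 (a (l 141438735748792335) (l 141478386898075663)))))) (c (b (l 141498040619761679) (a (a (l 141261920484704271) (l 141302877303816207)) (a (l 141344933634818063) (l 141387952038789135)))) (a (a (l 141161864897708047) (l 141206051532521487)) (b (l 141272434563072015) (a (l 141253674142941199) (l 141299372606717967))))))) (a (c (a (b (l 140859911438155791) (l 141051432623292431)) (c (l 141180625271947279) (l 140905884778037263))) (a (l 140856544135004175) (b (l 140765215970459663) (l 140771813042290703)))) (c (a (b (l 141042018095349775) (c (l 141093901315932175) (l 141002229507932175))) (b (l 141140561848778767) (c (b (l 141186603912626191) (l 141188253181263887)) (l 141099398871400463)))) (a (b (l 140864172039569423) (l 141047859202424847)) (a (l 140942580980924431) (l 141175608738709519))))))))), by decide +kernel⟩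

def k4_pm_123_a : ∃ t, chk3 f_pm_123_a t 33 30 1 = true :=
  ⟨(b (a (l 1) (a (l 1) (l 16542248))) (a (a (l 1) (c (l 141601738364616719) (l 141324249036832783))) (a (c (l 141723784185102351) (l 141473370334412815)) (l 141664204377456655)))), by decide +kernel⟩

def k5_pm_123_a : ∃ t, chk3 f_pm_123_a t 33 62 1 = true :=
  ⟨(a (c (c (b (l 141618505931653135) (l 141618986973921295)) (b (l 141463955783417871) (l 141461894202851343))) (c (b (l 141313185207238671) (l 141307206614368271)) (b (l 141165713166811151) (l 141154718050009103)))) (a (a (c (l 141856275335446543) (l 141401008714776591)) (b (l 141880189684334607) (c (l 141726189381845007) (l 141459007967985679)))) (b (l 141640015122481167) (l 141804392111800335)))), by decide +kernel⟩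

def k6_pm_123_a : ∃ t, chk3 f_pm_123_a t 66 63 1 = true :=
  ⟨(b (c (c (a (l 141575899856158735) (l 141665097761652751)) (a (l 141409255074840591) (l 141512540474621967))) (c (a (l 141245359073771535) (l 141359502151876623)) (a (l 141084005694504975) (l 141205776634986511)))) (c (c (a (b (c (l 141621529607258127) (l 141536935905165327)) (c (b (l 141713476270161935) (c (a (l 141627576927469583) (b (l 141664341858271247) (l 141664891615133711))) (a (l 141584077485064207) (l 141622972720365583)))) (a (a (l 141507936280707087) (l 141528689568514063)) (a (l 141594660272062479) (a (l 141565523218399247) (l 141576174740291599)))))) (b (c (l 141702618613497871) (l 141625584054665231)) (c (b (a (l 141682346364665871) (l 141722753428946959)) (a (b (l 141682552524537871) (c (b (l 141702549899640847) (l 141702618619625487)) (l 141662898748538895))) (a (a (l 141707360263520271) (l 141717324590628879)) (c (l 141750997145239567) (l 141713819895349263))))) (b (l 141625034301145103) (a (a (l 141592392542142479) (l 141613901744439311))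 (b (l 141646749663166479) (c (l 141665441368113167) (l 141627302045515791)))))))) (a (b (l 141410835626557455) (c (b (l 141453991472988175) (a (l 141432619711250447) (l 141567447336632335))) (a (l 141346170582401039) (l 141394068070023183)))) (b (c (l 141548274618105871) (l 141470552864833551)) (c (b (l 141547175108313103) (a (c (l 141543189380186127) (l 141503125912207375)) (c (l 141589231442133007) (l 141550748522266639)))) (b (l 141468766159831055) (a (l 141442858911662095) (l 141492680545173519))))))) (c (c (b (l 141518656460374031) (a (a (l 141260683527340047) (l 141311054916304911)) (a (l 141362731975655439) (l 141415645985898511)))) (a (a (l 141175746227699727) (l 141229072554442767)) (b (l 141313941127708687) (a (l 141281849126125583) (l 141337030879264783))))) (a (b (l 141079057892638735) (c (l 141117815690477583) (l 141034115342778383))) (b (l 141195331274063887) (c (b (l 141230446938947599) (l 141227492001513487)) (l 141148052261371919))))))), by decide +kernel⟩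

def k7_pm_123_a : ∃ t, chk3 f_pm_123_a t 67 126 1 = true :=
  ⟨(a (c (c (b (l 141759861944467471) (l 141756219814920207)) (b (l 141623247578365967) (l 141617750021652495))) (c (a (l 141448906212458511) (l 141509448085962767)) (l 141513639919894543))) (b (l 141792847240658959) (c (l 141918810089734159) (l 141466223520907279)))), by decide +kernel⟩

def k8_pm_123_a : ∃ t, chk3 f_pm_123_a t 134 127 1 = true :=
  ⟨(c (b (c (a (l 141730450007654415) (l 141775255119233039)) (a (l 141586482654543887) (l 141638572031459343))) (a (c (b (c (l 141764122566180879) (l 141692516846190607)) (a (b (l 141716706112667663) (c (c (l 141770582202581007) (l 141734367025446927)) (l 141724540120956943))) (b (l 141828375268622351) (a (c (l 141812844678905871) (l 141696296420769807)) (a (c (l 141775530005348367) (l 141704748918784015)) (b (l 141745843180011535) (b (l 141835659536384015) (c (a (l 141779240858566671) (l 141782333235789839)) (l 141710383917744143))))))))) (b (l 141583115401510927) (c (a (l 141605861558697999) (a (l 141624072224915471)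 (c (l 141654377523773455) (l 141618162346868751)))) (b (l 141544357604671503) (a (l 141530338828484623) (l 141556108638928911)))))) (a (b (c (l 141761579942428687) (l 141621735757529103)) (a (c (b (l 141754707994296335) (b (a (l 141841500693200911) (l 141847685447680015)) (b (c (l 141789961099427855) (l 141720142085668879)) (c (l 141790854452838415) (l 141720760561123343))))) (b (l 141613214541348879) (c (b (l 141648673804304399) (l 141649154840903695)) (l 141576380889612303)))) (c (b (c (l 141800612620484623) (l 141732099277078543)) (c (c (l 141820266397990927) (l 141786044085944335)) (l 141733954703622159))) (b (l 141626614842687503) (l 141717393271865359))))) (b (a (c (l 141778622377476111) (l 141641458252464143)) (c (b (l 141787968228704271) (l 141788861582606351)) (l 141652590810562575))) (a (b (c (l 141779790609678351) (l 141640977216716815)) (c (c (c (l 141834079015927823) (l 141800062862344207)) (l 141748317077487631)) (l 141732374121168911))) (c (a (c (b (l 141823633650614287) (a (l 141825832674377743)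 (l 141828512734609423))) (l 141802468027187215)) (c (l 141873730150383631) (l 141760686586134543))) (c (l 141689424463347727) (l 141618231060447247)))))))) (a (c (b (l 141438529572077583) (b (l 141433513050652687) (a (l 141416264458862607) (c (l 141481960298070031) (l 141405956531601423))))) (b (l 141286590760222735) (a (l 141261989183356943) (l 141382042116210703)))) (a (b (l 141408567866556431) (b (l 141581534789238799) (c (b (l 141473507796713487) (c (l 141509929132064783) (l 141434543840903183))) (c (l 141358814952456207) (l 141280818321309711))))) (b (l 141617956119117839) (a (b (l 141604143502458895) (c (l 141495704192991247) (l 141343421782491151))) (b (c (l 141510135285923855) (l 141361082691485711)) (c (l 141508417299103759) (l 141356272327573519)))))))), by decide +kernel⟩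

def k9_pm_123_a : ∃ t, chk3 f_pm_123_a t 135 127 1 = true :=
  ⟨(c (b (a (b (l 141730793600663567) (c (l 141796283287502863) (l 141662280258994191))) (b (l 141742269758013455) (l 141746049330413583))) (b (a (b (l 141911250948489231) (l 141733130065346575)) (l 141750722256027663)) (b (c (l 141814219076091919) (l 141673756415344655)) (a (c (c (c (l 141858818033582095) (l 141824664441045007)) (l 141772781217202191)) (l 141666197270953999)) (c (c (a (l 141902248740552719) (l 141912625384226831)) (l 141792366273183759)) (l 141684270498136079)))))) (b (c (b (l 141531300889346063) (l 141528964427268111)) (l 141563805153017871)) (c (b (l 141527452598943759) (c (l 141564217531777039) (l 141488694801612815))) (b (l 141376544578174991) (l 141372283970142223))))), by decide +kernel⟩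

def k10_pm_123_a : ∃ t, chk3 f_pm_123_a t 17 14 1 = true :=
  ⟨(b (a (l 1) (l 16558152)) (a (l 16548920) (l 16559632))), by decide +kernel⟩

def k11_pm_123_a : ∃ t, chk3 f_pm_123_a t 34 15 1 = true :=
  ⟨(a (b (b (l 16546224) (a (l 141675130780614671) (l 141687019256872975))) (b (b (l 141840744725004303) (a (l 141819785282404367) (b (l 141659600189849615) (l 141837652355301391)))) (b (c (a (b (l 141759587069214735) (a (l 141754295669489679) (l 141771338104569871))) (b (l 141789342612242447) (l 141800406450733071))) (a (b (l 141496391379206159) (l 141490137906659343)) (l 141521336557305871))) (c (b (c (l 141859917540179983) (l 141721516464062479)) (c (b (l 141961003893096463) (b (a (l 141855107175317519) (l 141898194298257423)) (c (b (a (l 141893246498390031) (l 141937639291666447)) (a (a (a (l 141924170259267599) (l 141934890500390927)) (c (l 14) (l 141888298692870159))) (l 14))) (a (a (l 141812501085077519) (l 141878128190701583)) (b (l 141864246864396303) (a (l 141900187148386319) (c (l 141895651675062287) (l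 141858130827608079)))))))) (b (l 141727151462744079) (b (a (l 141710727503577103) (l 141749760176537615)) (a (a (l 141792984715231247) (l 141812157454270479)) (c (a (l 141779653159927823) (l 141800406447243279)) (l 141713201402413071))))))) (b (c (l 141576518318080015) (l 141424648224374799)) (c (b (l 141576930635546639) (a (l 141559750762135567) (l 141684957658103823))) (a (l 141403207742963727) (l 141433994076995599)))))))) (b (b (l 16552216) (b (l 16553384) (l 141882869777842191))) (b (b (c (l 141815249860050959) (l 141576655747317775)) (c (l 142010894215954447) (l 141571295628853263))) (b (c (l 141855656924168207) (l 141569783801430031)) (c (b (l 141965264494444559) (b (c (l 142050614113484815) (l 141808515344203791)) (b (c (a (l 141943549164388367) (l 141991103054233615)) (a (l 141790923153719311) (l 141834285154615311))) (c (a (c (l 14) (b (l 141908777096642575) (c (l 14) (a (l 141880189785276431) (l 141902867218350095))))) (l 14)) (b (a (l 141882732375130127) (l 141926369253998607)) (a (c (a (l 141822327965958159)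 (l 141844180765147151)) (l 141754158221180943)) (c (a (l 141911663297003535) (c (l 141909807883747343) (l 141869332098351119))) (c (l 141817311438028815) (l 141776354616360975))))))))) (b (l 141568684290719759) (c (b (l 141650048178077711) (a (c (l 141672725614297103) (l 141591086849425423)) (c (l 141803155191611407) (l 141629363607994383)))) (a (l 141466704556769295) (l 141681659089289231))))))))), by decide +kernel⟩

def k12_pm_123_a : ∃ t, chk3 f_pm_123_a t 35 15 1 = true :=
  ⟨(b (a (b (l 16559024) (b (l 16561056) (a (l 141733954684207119) (l 141766733883490319)))) (b (l 16566720) (l 141813806736736271))) (b (b (l 141802399301091343) (c (l 141959423360040975) (l 141674374871007247))) (a (b (c (l 141944167632420879) (l 141641252075978767)) (c (b (c (l 142044429381582863) (l 141889329469145103)) (c (l 14) (b (l 141988835273998351) (b (a (l 141879914898718735) (l 141927881105522703)) (a (c (c (l 14) (a (l 141891872092389391) (l 141960729014075407))) (a (l 141829818384367631) (l 141942930648907791))) (c (l 14)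 (a (c (l 141897781965602831) (l 141855038437146639)) (c (l 141967326082187279) (l 141878952821063695))))))))) (b (l 141824183324901391) (c (b (l 141731686937509903) (a (c (b (l 141754845410099215) (l 141824114643222543)) (l 141669839390261263)) (c (a (l 141789136437772303) (l 141812157468295183)) (l 141802605430243343)))) (b (l 141557964045729807) (a (l 141537897953820687) (l 141757456692232207))))))) (b (c (l 142041818032947215) (l 141721172847902735)) (c (c (l 14) (b (l 141986704991911951) (b (l 142088478540054543) (a (b (l 141978252494487567) (c (l 14) (c (l 14) (a (l 141903485680402447) (l 141973716991885327))))) (l 14))))) (b (l 141908295985905679) (c (b (l 141822465389215759) (b (a (l 141801849541246991) (l 141850159345483791)) (a (c (a (l 141836965205704719) (l 141951314421071887)) (l 141848372613464079)) (c (a (c (l 141909051956297743) (l 141863216050929679)) (c (l 141979901743218703) (l 141888504824643599))) (c (l 141919359852101647) (l 141782401920516111)))))) (b (l 141639877683085327) (a (c (l 141665578776723471)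 (l 141571982821081103)) (c (l 141710727484375055) (l 141614863785525263))))))))))), by decide +kernel⟩

def k13_pm_123_a : ∃ t, chk3 f_pm_123_a t 18 6 1 = true :=
  ⟨(b (l 1) (b (l 16570728) (l 16571144))), by decide +kernel⟩

def k14_pm_123_a : ∃ t, chk3 f_pm_123_a t 18 14 1 = true :=
  ⟨(b (a (l 16568256) (l 16581400)) (a (l 16573504) (l 16590368))), by decide +kernel⟩

def k15_pm_123_a : ∃ t, chk3 f_pm_123_a t 18 30 1 = true :=
  ⟨(b (a (c (l 16600472) (l 16558768)) (l 16599976)) (c (a (l 142088341123678223) (l 142231896167219215)) (a (l 141804392151269391) (l 141979695578759183)))), by decide +kernel⟩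

def k16_pm_123_a : ∃ t, chk3 f_pm_123_a t 18 62 1 = true :=
  ⟨(a (b (l 141977152973389839) (c (l 142205988893999119) (l 141840950924525583))) (b (l 142218976863076367) (a (l 142182761694756879) (l 142163863867129871)))), by decide +kernel⟩

def k17_pm_123_a : ∃ t, chk3 f_pm_123_a t 18 126 1 = true :=
  ⟨(a (a (c (l 142171010676277263) (l 141809958434144271)) (c (l 142160702784962575) (l 141908296029585423))) (a (c (l 142142423432839183) (l 142016597951201295)) (a (l 142261926564151311) (l 142276082790285327)))), by decide +kernel⟩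

def k18_pm_123_a : ∃ t, chk3 f_pm_123_a t 36 127 1 = true :=
  ⟨(c (c (a (a (l 14) (b (l 142395998291116047) (b (l 142417163894505615) (b (l 142067587918643343) (c (a (l 142485539768516751) (l 142526908922347663)) (l 14)))))) (b (l 142159328435224719) (b (l 142180425276178575) (a (a (c (l 142564086165749903) (l 14)) (c (l 142604493225246863) (a (l 14) (l 142474682082558095)))) (c (l 142664073022177423) (b (l 142522098551275663) (a (l 142508835690168463) (l 142549242749665423)))))))) (l 14)) (b (a (l 142001685778186255) (l 142082362469285903)) (a (c (b (l 142012887084171279) (b (a (l 141900943051407375) (l 141954269378478095)) (a (c (a (c (l 14) (l 141914412073795599)) (l 14)) (a (l 141843218673958927) (l 141958942279139343))) (c (l 14) (a (c (l 141919566032896015) (l 141870569031106575)) (c (l 14) (l 141897232194650127))))))) (b (l 141730999732240399) (a (c (b (l 141757525459664911) (l 141759037288742927)) (l 141660081212653583)) (c (a (l 141795527339868175) (l 141821159711047695)) (l 141707772541452303))))) (c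 (b (l 142123388029779983) (a (b (l 142010138326728719) (c (l 14) (a (c (l 14) (l 141924513833615375)) (l 14)))) (l 14))) (b (l 142012131136585743) (b (a (l 141808584041070607) (l 141862322685083663)) (a (c (a (l 141848578789130255) (l 141965676784123919)) (l 141758624967016463)) (c (a (c (l 141929324195414031) (l 141877166097186831)) (c (l 14) (l 141905203650543631))) (c (l 141838202141835279) (l 141784875812454415)))))))))), by decide +kernel⟩

def k19_pm_123_a : ∃ t, chk3 f_pm_123_a t 37 127 1 = true :=
  ⟨(a (c (c (b (l 142677473317798031) (c (a (l 142734647920918671) (l 142810582972252303)) (b (l 142630744062869647) (a (a (l 142585664078676111) (l 142625040345841807)) (l 142683314472435855))))) (c (b (l 142474132340506767) (b (l 142133764776575119) (a (a (l 14) (a (l 142477362147082383) (l 142497428248592527))) (b (l 142543745183989903) (a (l 142530757200855183) (l 142570202187497615)))))) (l 14))) (c (l 14) (b (l 141934478152204303) (b (l 142033434201538575) (b (a (l 141918672669753359) (l 141977840153542671))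 (a (c (a (c (l 14) (l 141933997118291983)) (l 14)) (a (l 141853045551235087) (l 141971655375028239))) (c (l 14) (a (c (l 141938463882788879) (l 141882938529677327)) (c (l 14) (l 141912556631310351)))))))))) (c (b (l 142246052396728463) (b (c (l 142848516126457999) (l 142222756425760911)) (c (a (l 142825701213765775) (l 142898750073389199)) (a (a (c (l 142605798882623631) (l 14)) (c (l 142644281796411535) (a (l 142499146208329871) (l 142518800003629199)))) (c (l 142701181533208719) (b (l 142564086146695311) (a (l 142551304322023567) (l 142589855955304591)))))))) (c (l 14) (c (l 14) (b (l 141998799595274255) (a (b (l 141978321187029007) (b (l 141983406429896719) (b (l 141985949051338767) (l 14)))) (l 14))))))), by decide +kernel⟩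

def k20_pm_123_a : ∃ t, chk3 f_pm_123_a t 19 6 1 = true :=
  ⟨(b (a (l 16591344) (l 16613696)) (b (a (l 16584992) (l 16606408)) (a (l 16590024) (l 16611656)))), by decide +kernel⟩

def k21_pm_123_a : ∃ t, chk3 f_pm_123_a t 19 14 1 = true :=
  ⟨(b (a (l 16599320) (l 16600880)) (a (l 16612912) (l 16616120))), by decide +kernel⟩

def k22_pm_123_a : ∃ t, chk3 f_pm_123_a t 19 30 1 = true :=
  ⟨(a (b (l 16604024) (b (l 16568880) (l 142301577717760015))) (b (l 16606272) (b (l 16592272) (a (l 16591584) (l 16602680))))), by decide +kernel⟩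

def k23_pm_123_a : ∃ t, chk3 f_pm_123_a t 19 62 1 = true :=
  ⟨(a (a (b (l 142451798491185167) (l 142137544334606351)) (a (l 142315184196108303) (l 142341228890226703))) (b (a (l 142736228455088143) (l 142867757556416527)) (a (c (l 143026087273660559) (l 142533643393515535)) (c (l 143152256254869647) (l 142671425968406543))))), by decide +kernel⟩

def k24_pm_123_a : ∃ t, chk3 f_pm_123_a t 19 63 1 = true :=
  ⟨(b (a (a (c (b (l 142790997904507023) (l 142816767714017423)) (l 142101260404097039)) (c (b (l 142930842064191631) (l 142956474434748559)) (l 142254848418693135))) (a (c (l 143076252503015567) (l 142220557468336143)) (b (l 142411047890337871) (a (l 142583533819871311) (l 142287765160329295))))) (c (a (c (a (b (l 142970699376754831) (a (l 142963140234150031) (l 143032615637368975))) (a (a (l 143069999038677135) (l 143103465429713039)) (l 143152874742136975))) (a (b (l 142713894634143887) (c (a (l 142768732790489231) (l 142841094412255375)) (b (l 142667990013444239) (a (b (l 142640296059863183) (l 142646824390115471))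 (l 142717880362942607))))) (b (l 142857037329367183) (a (a (l 142830236729933967) (l 142865558547185807)) (b (l 142911119567962255) (l 142924313710428303)))))) (a (b (l 142934827828560015) (c (l 143262276168859727) (a (l 142985680213622927) (l 143051925800812687)))) (a (b (l 143209774471528527) (a (l 143220632152031311) (l 143251555921969231))) (c (l 143400471059988559) (l 143166412468437135))))) (a (c (a (c (b (l 142517082009256079) (b (l 142175477494579343) (a (c (a (l 142524297558425743) (l 142562643033227407)) (l 14)) (a (l 142567384655085711) (l 142605042956451983))))) (l 14)) (b (l 142240829724803215) (b (a (l 142582709119221903) (l 142656238972272783)) (a (c (a (l 142642288919412879) (l 142679053845954703)) (c (a (l 142543607729275023) (l 142581128570192015)) (l 14))) (b (l 142665653542699151) (c (l 142736572058255503) (a (l 142588618993287311) (l 142625452639305871)))))))) (l 14)) (a (c (b (l 142564017449025679) (a (b (l 142727844679630991) (a (a (l 142713894624018575) (l 142731692971622543)) (l 142758287370846351)))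 (a (a (l 142778147345760399) (l 142795533376422031)) (l 142821371877376143)))) (c (b (l 142553297169137807) (b (l 142211486496030863) (a (c (a (l 142561612230099087) (l 142598239717654671)) (l 14)) (a (a (l 142593291913183375) (l 142611365138743439)) (l 142638303178358927))))) (l 14))) (b (c (l 142880333224312975) (l 142271753484238991)) (a (c (a (l 142855525490147471) (l 142889198039646351)) (b (l 142615488304939151) (b (l 142264744097824911) (a (c (l 142677060970201231) (a (l 142540515340976271) (l 142558657286029455))) (c (l 142712176628990095) (l 142585664023658639)))))) (c (b (l 142932422597771407) (l 142945479301283983)) (b (l 142685650902974607) (b (l 142515089163894927) (c (l 142764059843035279) (a (l 142621260740345999) (l 142656445118611599)))))))))))), by decide +kernel⟩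

def k25_pm_123_a : ∃ t, chk3 f_pm_123_a t 10 2 1 = true :=
  ⟨(a (a (b (l 1) (b (l 16667128) (l 16651744))) (b (b (l 16717992) (l 16701984)) (b (l 16687800) (l 16675432)))) (b (b (a (l 16730664) (b (l 16744760) (l 16737744))) (b (a (l 16719872) (l 16732368)) (l 16721600))) (b (b (l 16716448) (l 16711824)) (b (l 16707560) (l 16703512))))), by decide +kernel⟩

def k26_pm_123_a : ∃ t, chk3 f_pm_123_a t 10 6 1 = true :=
  ⟨(a (b (a (l 16638216) (l 16664624)) (a (b (l 16631152) (l 16636064)) (b (l 16658792) (l 16662872)))) (b (l 16698424) (b (l 16694448) (l 16697568)))), by decide +kernel⟩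

def k27_pm_123_a : ∃ t, chk3 f_pm_123_a t 80 7 1 = true :=
  ⟨(b (b (l 16639128) (l 16653064)) (b (b (l 16665480) (c (l 16700320) (l 16607616))) (a (b (b (l 142965957706236047) (l 142832985529647183)) (c (b (l 143293955843571791) (b (a (l 143316633276629071) (l 143348038083248207)) (a (b (l 143336287051382863) (c (l 143465479697219791) (l 143234376043741327))) (c (l 143490905907544271) (l 143262757192155215))))) (b (b (l 142811819886346383) (l 142836490184130703)) (b (a (l 142842881097678991) (c (l 142999836415787151) (l 142760005389435023))) (a (b (c (l 142983068861169807) (a (l 142729837534380175) (l 142749560027840655))) (c (a (l 142987398189465743) (l 143006570926801039)) (a (b (l 142739526982779023) (c (l 142808109035372687) (a (b (l 142677267123683471) (l 142680703098257551)) (l 142689567912247439)))) (b (l 142759936671006863) (c (l 142828931040379023) (l 142705923150495887)))))) (c (b (l 143020727141023887) (l 143036189026189455)) (b (a (l 142769969716052111) (l 142790997879537807)) (b (l 142791891233095823)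 (c (l 142860335846506639) (a (l 142727707228307599) (l 142749285136908431))))))))))) (b (l 142878202952843343) (b (b (l 143117621623308367) (c (l 143369203684851791) (a (l 142892427848597647) (l 142930429726048399)))) (c (b (c (l 143509185290518735) (l 143285709500465231)) (l 143429608073379919)) (c (b (l 143056461274398863) (a (l 143067456393134223) (l 143105801867509903))) (b (b (l 142813881468518543) (l 142828450000371855)) (b (l 142843362129625231) (c (a (l 142897719248044175) (l 142937988868194447)) (b (l 142794777448792207) (b (l 142800343727456399) (a (c (l 142813331712196751) (a (l 142742138319503503) (l 142763372641419407))) (c (l 142854632124694671) (c (l 142809827016229007) (a (l 142769419955716239) (l 142790310680199311))))))))))))))))), by decide +kernel⟩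

def k28_pm_123_a : ∃ t, chk3 f_pm_123_a t 81 7 1 = true :=
  ⟨(b (b (l 16652920) (l 16666368)) (b (b (l 16678352) (l 143069655413342223)) (b (b (l 143134801492328527) (a (l 142968156765618255) (b (l 143202352751722575) (l 143228741036032079)))) (b (c (b (l 143439022684127311) (l 143468297186672719)) (a (b (l 142961216056197263) (l 142989047449682063)) (l 143051650903212175))) (b (c (l 143498877359341647) (c (l 143169023796035727) (l 142942524350890127))) (c (a (l 143496884494827727) (l 143561274654834895)) (b (a (l 142859854842937487) (l 143114597955698831)) (c (a (l 143169092494753935) (l 143240560783884367)) (b (a (l 142935102646763663) (l 143011999754223759)) (c (a (a (l 142981075987398799) (l 143019558900842639)) (l 143075702722789519)) (a (b (l 142882051199123599) (a (c (l 142895039183831183) (c (l 142850783831310479) (a (l 142810926526726287) (l 142831404934250639)))) (c (l 142934552889639055) (a (l 142866245715525775) (l 142886105647677583))))) (a (b (l 142940943800664207) (c (l 142973104522625167) (l 142915517577986191)))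 (l 142980732363014287))))))))))))), by decide +kernel⟩

def k29_pm_123_a : ∃ t, chk3 f_pm_123_a t 41 7 1 = true :=
  ⟨(b (b (l 16672088) (l 16684840)) (c (b (b (l 16718632) (l 16727424)) (b (b (l 16734448) (l 143584845436403791)) (b (a (l 143580790987833551) (l 143697407958581455)) (a (b (l 143623809388069071) (c (l 143756506727039183) (l 143548080505897167))) (a (l 143724414718460111) (l 143778634394321103)))))) (b (b (l 16674144) (a (l 16676376) (l 16688504))) (a (b (b (c (l 16694864) (l 16671864)) (l 143108619357929615)) (b (c (l 143267979858198607) (l 143053643762811023)) (c (b (l 143308180759576655) (a (l 143301996006178895) (l 143367485678403791))) (b (l 143092126677090447) (b (l 143111368134213775) (c (a (l 143144216052580495) (l 143212935540932751)) (a (a (l 143014679811702927) (l 143051101140566159)) (l 143104221305127055)))))))) (b (l 143224068097867855) (b (l 143296017403674703) (b (l 143152050106777679) (a (c (l 143429951693193423) (l 143219395170140239)) (a (l 143371608842092623) (l 143401639258521679)))))))))),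 by decide +kernel⟩

def k30_pm_123_a : ∃ t, chk3 f_pm_123_a t 21 7 1 = true :=
  ⟨(b (b (a (l 16694976) (l 16715192)) (a (b (l 16703352) (l 16710216)) (l 16726000))) (b (a (b (l 16717392) (c (l 16745744) (l 143328178120851535))) (b (l 16735416) (c (l 16761048) (l 16723920)))) (b (a (c (a (l 16750264) (l 16758224)) (a (l 143352436102168655) (l 143468915635093583))) (c (l 143963008777404623) (a (l 143574262611001423) (l 143668339590922447)))) (b (c (a (l 143853676073877711) (l 144028842048520463)) (a (a (l 143418406812500047) (l 143529182627889231)) (a (l 143628413569368271) (l 143718298660634831)))) (a (a (c (l 143855394062205135) (b (l 143451529606627407) (c (l 143573575423672527) (l 143373051946418255)))) (c (l 143949333602107663) (a (l 143543819879874767) (l 143594397423468751)))) (a (c (l 144034064730734863) (a (l 143642226187534543) (l 143687787208540367))) (c (l 144110824398881039) (l 143752177369579727)))))))), by decide +kernel⟩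

def k31_pm_123_a : ∃ t, chk3 f_pm_123_a t 11 2 1 = true :=
  ⟨(b (b (a (a (b (l 16753000) (l 16746872)) (b (l 16780424) (l 16754008))) (a (b (a (l 16763344) (l 16765560)) (l 16759496)) (b (a (b (l 16768856) (l 16766184)) (b (l 16776056) (l 16768304))) (a (l 16762808) (l 16765160))))) (a (b (l 16746408) (l 16722400)) (a (b (l 16755976) (l 16753792)) (b (l 16750368) (l 16758952))))) (b (a (b (l 16741488) (l 16738944)) (b (a (l 16752728) (l 16758136)) (l 16734448))) (a (b (l 16736936) (l 16734832)) (a (l 16730528) (b (l 16758840) (l 16759328)))))), by decide +kernel⟩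

def k32_pm_123_a : ∃ t, chk3 f_pm_123_a t 11 3 1 = true :=
  ⟨(b (b (a (b (l 16733064) (l 16731736)) (b (l 16734840) (l 16735264))) (a (b (l 16731968) (a (l 16725936) (l 16741624))) (b (l 16778608) (a (l 16754664) (l 16764864))))) (b (a (b (a (l 16732576) (l 16747264)) (a (l 16742176) (b (l 16752952) (l 16757560)))) (b (a (l 16759048) (b (l 16767544) (l 16769592))) (a (b (l 16763920) (l 16768144)) (b (l 16772888) (l 16776864))))) (b (a (a (b (l 16750280) (c (l 16773624) (l 16739360))) (b (l 16762424) (c (l 16784096) (l 16752456)))) (b (a (l 16772600) (c (l 16794056) (l 16768800))) (a (c (l 16792752) (l 16763600)) (a (l 16784360) (l 16788184))))) (a (a (b (c (l 16780856) (a (l 16741816) (l 16748528))) (b (a (l 143969743278309583) (l 144039356120531215)) (a (c (l 144180712118436175) (l 143831891976929551)) (c (l 16793016) (l 143905009513693455))))) (a (b (l 16771536) (b (l 144102509331104015) (c (l 16797896) (l 143971667418824975)))) (b (l 16776816) (b (l 16781784) (c (l 16802392) (a (l 16767024) (l 16769840)))))))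 (b (a (a (c (l 16797416) (l 16766352)) (c (l 16801224) (l 16771464))) (a (c (l 16804896) (l 16776472)) (c (l 16808224) (l 16781088)))) (c (a (b (a (l 16802680) (l 16806616)) (a (l 16806504) (b (l 16809480) (l 16811520)))) (a (b (l 16810440) (a (l 16813584) (l 16815656))) (b (l 16814176) (b (l 16817440) (l 16819736))))) (a (a (b (l 16770680) (a (l 16772544) (l 16775232))) (b (l 16775960) (b (l 16778384) (a (l 16778760) (l 16781544))))) (a (b (l 16781168) (c (a (l 16790840) (l 16793448)) (b (l 16776672) (a (l 16777024) (a (l 16779320) (l 16780768)))))) (b (l 16786248) (c (a (l 16795904) (l 16798368)) (b (l 16782320) (b (l 16783808) (a (l 16783392) (l 16786264)))))))))))))), by decide +kernel⟩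

def k33_pm_123_a : ∃ t, chk3 f_pm_123_a t 24 4 1 = true :=
  ⟨(b (b (a (a (b (c (l 16773200) (l 16777176)) (l 16770224)) (b (c (a (l 16774168) (l 16774736)) (a (l 16773200) (l 16773968))) (l 16777088))) (b (a (a (b (c (l 16775752) (l 16777944)) (l 16774400)) (b (b (a (a (l 29225910935) (b (a (l 93650418935) (l 144653155879)) (l 16776344))) (a (b (l 4) (l 40500199767)) (l 167738604695))) (a (l 16775696) (l 16778680))) (l 16774992))) (b (a (b (l 4) (a (b (a (l 88818581335) (l 153779961223)) (l 16777664)) (b (l 4) (c (l 145190026775) (l 150558735639))))) (l 4)) (a (b (a (l 16775736) (b (l 38889587511) (l 16775944))) (l 16775304)) (b (a (b (l 155927444759) (c (l 41573942007) (l 54995710247))) (l 4)) (a (l 16775800) (a (l 16776176) (a (l 39426458503) (l 92576674407)))))))) (a (c (l 16773768) (l 16772672)) (a (l 16774080) (c (l 16774960) (l 16774296)))))) (a (a (l 16767344) (b (l 16769960) (l 16768408))) (a (b (l 16771456) (l 16770032)) (b (a (l 16772408) (l 16772968)) (l 16766136))))) (a (b (a (l 16764664) (l 16766824))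 (l 16764520)) (b (a (l 16768640) (b (l 16770448) (l 16769832))) (a (l 16767784) (l 16769472))))), by decide +kernel⟩

def k34_pm_123_a : ∃ t, chk3 f_pm_123_a t 25 4 1 = true :=
  ⟨(b (b (a (b (a (b (l 4) (a (b (l 4) (a (b (l 4) (c (l 86671097255) (l 89892322391))) (l 4))) (l 4))) (l 4)) (a (b (a (b (a (l 16775920) (b (l 90429193463) (l 16776432))) (l 16775424)) (b (a (l 159148669863) (l 4)) (a (l 28689040567) (b (l 150021864519) (l 42110812887))))) (a (l 16774680) (l 16777840))) (b (l 4) (a (b (a (b (l 89355451767) (l 16776152)) (b (l 4) (l 97408513879))) (l 16775632)) (b (l 4) (a (b (l 108145933367) (l 16776488)) (l 157001186007))))))) (l 4)) (a (a (b (c (l 16774208) (l 16778536)) (c (l 16773176) (l 16771848))) (a (b (l 16777040) (l 16773160)) (b (a (l 16774760) (b (l 15267263543) (l 16774584))) (l 16773552)))) (b (a (b (a (b (a (l 85597352375) (l 4)) (a (l 16775712) (c (l 16777968) (l 41037070743)))) (c (l 173107306567) (l 180623499079))) (a (l 16774952) (a (l 16778088) (b (l 95261031271) (l 16775560))))) (b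 (l 4) (a (b (l 4) (a (l 16779016) (l 92039805735))) (l 4)))) (a (a (l 16773928) (l 16776920)) (b (a (l 16777768) (b (a (l 92039807255) (l 4)) (l 19562235703))) (a (l 16774368) (l 16774792))))))) (a (b (a (b (l 16771616) (l 16771064)) (b (l 16772520) (l 16772008))) (a (l 16770792) (b (l 16771768) (l 16771720)))) (b (b (a (c (l 16773832) (l 16772720)) (c (l 16774304) (l 16773416))) (a (l 16772712) (l 16773256))) (a (b (l 16772464) (l 16772408)) (b (l 16772968) (l 16772872)))))), by decide +kernel⟩

def k35_pm_123_a : ∃ t, chk3 f_pm_123_a t 13 4 1 = true :=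
  ⟨(a (b (b (l 4) (a (b (l 4) (a (b (a (a (l 154853701975) (l 4)) (l 4)) (a (a (l 16775296) (l 46405776183)) (b (l 4) (a (l 16776240) (l 101166610567))))) (l 4))) (l 4))) (a (a (b (a (b (l 16774280) (l 16773592)) (c (l 16774584) (l 16773800))) (b (l 16773336) (l 16773160))) (b (b (b (a (a (l 46942646759) (l 81839252919)) (b (l 4) (l 142505671031))) (a (l 16774760) (a (l 16775288) (l 47479517239)))) (a (l 16774024) (l 16774280))) (c (l 16774184) (l 16769664)))) (b (b (a (a (a (b (l 4) (l 87207963431)) (l 165054247095)) (l 4)) (l 4)) (a (a (l 16774640) (b (a (l 16773528) (l 87207962855)) (l 16774784))) (b (a (l 149484991815) (l 4)) (a (l 45332035175) (l 95797896071))))) (a (b (c (l 16774456) (l 16773520)) (l 16773584)) (b (a (l 16774320) (l 16774736)) (l 16773832)))))) (b (l 4) (b (l 4) (a (b (a (b (a (l 41573936999) (l 4)) (a (l 16774944) (l 16776224))) (b (l 4) (a (l 99555996951) (l 4)))) (a (a (l 16774104) (l 16774392)) (a (l 16774936) (b (l 86671094967) (l 16775296))))) (a (b (l 4) (b (l 4) (a (l 46405775335)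 (l 130694508631)))) (l 4)))))), by decide +kernel⟩

def k36_pm_123_a : ∃ t, chk3 f_pm_123_a t 7 4 1 = true :=
  ⟨(l 4), by decide +kernel⟩

def k37_pm_123_a : ∃ t, chk3 f_pm_123_a t 3 10 1 = true :=
  ⟨(a (a (a (b (a (l 16764304) (l 16758408)) (a (l 16764696) (l 16769416))) (a (b (b (l 16771472) (l 16771880)) (l 16772296)) (b (c (l 16795072) (l 16751216)) (l 16752368)))) (a (a (b (a (l 16773360) (l 16762968)) (a (l 16773504) (l 16773456))) (b (a (l 16765680) (b (l 16773616) (l 16773616))) (a (l 16773384) (l 16773304)))) (a (b (a (b (l 16773800) (l 16773680)) (b (l 16774104) (l 16773808))) (a (l 16773224) (l 16773168))) (b (a (b (a (l 16774576) (l 16775440)) (a (l 16773968) (l 16774152))) (b (a (b (l 94724149463) (l 16776064)) (l 111367155095)) (a (l 16774416) (l 16774992)))) (a (b (l 16773504) (l 16773024)) (a (l 16773504) (l 16773800))))))) (a (a (a (b (b (l 4) (a (a (l 44795168823) (l 86134236215)) (b (l 4) (l 116735882823)))) (a (b (l 16774488) (l 16774104)) (b (a (l 16775896) (l 66270010935)) (l 16774648))))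 (b (l 4) (a (a (b (l 105998444007) (l 16775400)) (b (l 4) (l 61438171735))) (b (l 4) (a (l 103314112423) (l 4)))))) (l 4)) (l 4))), by decide +kernel⟩

def k38_pm_123_a : ∃ t, chk3 f_pm_123_a t 3 11 1 = true :=
  ⟨(a (a (a (b (a (l 16765672) (l 16770296)) (a (l 16766280) (l 16770664))) (b (a (l 16772792) (l 16773656)) (a (l 16772952) (l 16773712)))) (a (b (a (l 16773552) (l 16772952)) (a (l 16773272) (l 16772152))) (a (b (b (l 16772664) (l 16772112)) (l 16771496)) (b (a (l 16772496) (l 16773024)) (a (l 16771368) (l 16772080)))))) (a (a (a (b (a (l 16779256) (l 16774840)) (a (l 16773552) (l 16774928))) (b (a (b (l 16775216) (l 16775496)) (b (a (l 16775560) (l 62511915367)) (l 16775784))) (a (l 16786472) (l 16776672)))) (a (b (a (b (a (b (l 151632470903) (l 16775320)) (l 174717918599)) (a (l 16775816) (l 56606336743))) (b (l 4) (a (b (l 169349211319) (l 16775752)) (l 188139691671)))) (a (l 16776864) (b (a (l 16776136) (l 16776608)) (l 16777080)))) (b (l 4) (a (b (a (b (l 177402271207) (l 16776056)) (l 205319582087))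 (a (l 16776584) (l 63048787895))) (b (l 4) (a (b (l 200487724871) (l 16776200)) (b (l 4) (l 214446368551)))))))) (l 4))), by decide +kernel⟩

def k39_pm_123_a : ∃ t, chk3 f_pm_123_a t 12 3 1 = true :=
  ⟨(b (b (a (b (a (l 16766944) (l 16770872)) (c (l 16774824) (l 16764448))) (b (a (l 16772912) (l 16773648)) (b (l 16773408) (l 16773384)))) (a (b (c (l 16777312) (l 16764600)) (a (l 16771160) (l 16774128))) (b (b (l 16773456) (l 16774520)) (b (l 16775704) (l 16777768))))) (b (a (b (a (l 16774664) (l 16777648)) (a (b (l 16778848) (l 16782640)) (b (l 16782320) (l 16786936)))) (b (a (l 16780376) (l 16783040)) (a (l 16788640) (b (l 16790088) (l 16796536))))) (a (b (b (a (a (l 16785912) (l 16788336)) (l 16792136)) (a (a (l 16791488) (l 16794280)) (l 16799064))) (a (a (b (c (l 16811432) (l 16785376)) (c (b (l 16817744) (c (l 16829408) (l 16815440))) (b (l 16791000) (c (b (l 16800736) (l 16802984)) (b (l 16787600) (a (c (l 16791768) (l 16785176)) (l 16791032))))))) (b (l 16801760) (c (b (l 16821208) (l 16826064)) (b (l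 16795520) (b (l 16798880) (a (l 16799992) (l 16802464))))))) (b (a (l 16805448) (l 16809208)) (c (b (l 16826480) (a (l 16829744) (l 16833312))) (b (a (l 16800160) (l 16804800)) (a (b (l 16803720) (a (l 16804952) (l 16807416))) (c (l 16815512) (b (l 16802888) (l 16805408))))))))) (b (a (b (l 16797904) (c (l 16816512) (l 16795392))) (b (l 16803744) (l 16812224))) (b (a (c (l 16825672) (b (l 16801928) (l 16806648))) (a (l 16819968) (l 16823176))) (b (a (a (l 16820200) (l 16823928)) (a (l 16827432) (l 16830688))) (a (c (l 16838328) (a (a (l 16813264) (l 16815528)) (c (l 16823928) (l 16813848)))) (c (l 16844128) (c (l 16829632) (a (l 16818336) (l 16822544))))))))))), by decide +kernel⟩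

def k40_pm_123_a : ∃ t, chk3 f_pm_123_a t 13 3 1 = true :=
  ⟨(a (a (b (b (b (l 16773488) (l 16773632)) (b (l 16775488) (l 16779200))) (b (a (b (l 16785472) (l 16796904)) (b (l 16787248) (l 16799168))) (b (b (l 16809240) (c (l 16826608) (l 16809752))) (b (c (l 16836128) (b (l 16816864) (l 16821840))) (b (a (l 16833664) (l 16836344)) (c (l 16848792) (a (c (l 16834648) (l 16826472)) (l 16833808)))))))) (b (b (b (l 16772584) (l 16773696)) (b (l 16776360) (l 16781576))) (b (b (b (l 16787432) (l 16792128)) (b (l 16798696) (l 16806032))) (b (b (c (l 16821528) (l 16806656)) (c (l 16830312) (l 16815632))) (b (c (l 16839784) (a (l 16823960) (l 16826664))) (c (l 16849664) (b (a (l 16831544) (l 16834224)) (a (l 16836784) (l 16839408))))))))) (b (b (a (b (l 16771784) (l 16773816)) (b (a (l 16771592) (l 16772112)) (a (l 16774344) (l 16774912)))) (a (b (l 16777880) (b (l 16781944) (l 16785960))) (b (a (l 16779000) (l 16779840)) (a (l 16785600) (b (l 16784400) (l 16788632)))))) (b (b (a (b (l 16790400) (a (l 16794608) (l 16796040)))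 (a (b (l 16792216) (l 16797272)) (b (l 16793240) (c (l 16804000) (l 16792848))))) (a (b (l 16802080) (l 16809624)) (b (a (l 16804040) (l 16805024)) (c (l 16817928) (l 16806832))))) (b (a (a (b (l 16816752) (l 16825632)) (b (l 16818336) (l 16827184))) (b (c (l 16825744) (a (l 16814176) (l 16815688))) (c (l 16834248) (a (l 16823216) (l 16824664))))) (c (a (b (l 16842152) (l 16851664)) (b (l 16843072) (l 16851904))) (a (b (a (l 16829056) (l 16831104)) (a (b (l 16836544) (l 16841656)) (b (l 16838480) (l 16843448)))) (b (a (l 16832784) (l 16833992)) (a (b (l 16839952) (l 16844736)) (c (l 16845184) (l 16841408)))))))))), by decide +kernel⟩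

def k41_pm_123_a : ∃ t, chk3 f_pm_123_a t 14 6 1 = true :=
  ⟨(a (b (a (b (b (l 16774144) (l 16774656)) (l 16776872)) (b (a (l 16776840) (l 16778040)) (b (l 16778584) (l 16780032)))) (b (a (l 16802816) (l 16805256)) (a (b (l 16786304) (l 16790464)) (b (l 16788656) (l 16792696))))) (b (a (b (a (l 16778792) (l 16779016)) (b (l 16780624) (a (l 16781680) (l 16782600)))) (b (a (b (l 16777808) (l 16779360)) (b (a (l 16777016) (l 77007433463)) (l 16778464))) (a (l 16771448) (l 16781464)))) (b (a (b (l 16784256) (l 16787200)) (b (a (l 16785304) (l 16785272)) (a (l 16787800) (l 16787696)))) (a (b (l 16790144) (l 16794048)) (b (l 16790576) (l 16794128)))))), by decide +kernel⟩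

def k42_pm_123_a : ∃ t, chk3 f_pm_123_a t 14 7 1 = true :=
  ⟨(b (a (b (a (b (a (l 16794304) (l 16795504)) (c (l 16804856) (a (l 16794192) (l 16795744)))) (b (l 16797024) (a (l 16801256) (l 16801928)))) (a (a (b (l 16805832) (l 16813440)) (b (l 16806760) (l 16814208))) (a (b (l 16807520) (l 16814664)) (b (l 16807936) (l 16814712))))) (b (a (b (l 16819040) (a (l 16802248) (l 16802216))) (b (l 16818720) (a (l 16801760) (l 16800888)))) (a (a (b (l 16807976) (l 16814272)) (b (l 16807600) (l 16813424))) (a (b (l 16806808) (l 16812224)) (b (l 16805584) (l 16810504)))))) (a (b (a (b (c (l 16826144) (a (b (l 16814792) (l 16818928)) (l 16817968))) (c (l 16834152) (a (l 16825696) (l 16826464)))) (b (c (l 16825400) (a (l 16818656) (l 16818840))) (c (l 16832648) (a (l 16826760) (l 16826528))))) (a (b (c (l 16842328) (a (l 16834736) (l 16835072))) (c (l 16850296) (a (c (l 16845200) (l 16841984)) (l 16843360)))) (b (c (l 16839928) (a (l 16834896) (l 16834192))) (c (l 16846744) (a (l 16842640) (l 16841208)))))) (b (a (a (b (l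 16820936) (l 16827872)) (b (l 16819696) (l 16826080))) (a (b (l 16817872) (l 16823712)) (b (l 16815504) (l 16820688)))) (a (a (b (l 16834576) (l 16840632)) (b (l 16832160) (l 16837456))) (a (b (l 16829088) (l 16833696)) (b (l 16825424) (l 16829384))))))), by decide +kernel⟩

def k43_pm_123_a : ∃ t, chk3 f_pm_123_a t 30 6 1 = true :=
  ⟨(b (a (b (a (b (a (b (l 231626237607) (l 117272750535)) (b (l 4) (l 253101073863))) (a (l 16777328) (b (l 134989492727) (l 16776872)))) (b (l 4) (a (b (l 279944619127) (l 145190043031)) (l 322357428967)))) (a (b (l 16778952) (l 16781352)) (b (a (l 16777400) (b (a (l 16776264) (l 242363673863)) (l 16776736))) (l 16779392)))) (b (l 4) (a (b (a (b (l 4) (a (l 16775992) (l 273502170279))) (l 4)) (a (l 16777360) (b (a (l 173644199191) (l 305177553271)) (l 91502946855)))) (b (l 4) (a (b (l 4) (a (l 250416721735) (l 4))) (l 4)))))) (a (b (a (b (l 16784344) (b (l 16786544) (l 16788048))) (l 16784288)) (b (a (b (l 16789048) (l 16790744)) (b (l 16788128) (l 16766008))) (a (l 16793240) (l 16791960))))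 (b (a (b (l 16782512) (l 16783216)) (b (a (b (a (l 16776976) (l 214983259415)) (l 16778032)) (b (a (l 347053484423) (l 4)) (a (l 16783120) (l 290682040039)))) (a (l 16780616) (b (l 16777712) (l 16779344))))) (a (b (l 16786544) (a (l 16790704) (l 16789808))) (b (a (l 16784032) (l 16782024)) (a (l 16788344) (l 16786152))))))), by decide +kernel⟩

def k44_pm_123_a : ∃ t, chk3 f_pm_123_a t 30 7 1 = true :=
  ⟨(b (a (a (b (b (l 16796424) (l 16799568)) (b (l 16803912) (l 16808240))) (b (b (l 16795000) (l 16797808)) (b (l 16801664) (l 16805464)))) (b (a (b (l 16793120) (l 16795472)) (b (a (l 16791040) (b (l 16789160) (l 16790192))) (l 16792592))) (a (b (l 16798888) (l 16802128)) (b (l 16795496) (l 16777296))))) (b (a (b (a (l 16812464) (l 16808936)) (a (l 16817080) (l 16812936))) (b (c (l 16792880) (a (l 16804496) (l 16779328))) (a (l 16808288) (b (l 16802392) (l 16803888))))) (a (b (a (l 16821216) (l 16816512)) (a (l 16824576) (l 16829800))) (b (a (l 16821840) (b (l 16805184) (l 16806296))) (a (c (l 16814104) (l 16823904))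 (b (l 16807216) (c (l 16808320) (l 16807792)))))))), by decide +kernel⟩

def k45_pm_123_a : ∃ t, chk3 f_pm_123_a t 31 6 1 = true :=
  ⟨(b (l 4) (a (a (b (b (l 4) (a (b (a (b (l 233236830583) (l 16776272)) (l 4)) (a (l 16777616) (b (l 210151417271) (l 16776928)))) (b (l 4) (a (l 343295388855) (l 4))))) (b (a (l 16779680) (b (a (l 16782272) (b (l 4) (l 198340259751))) (l 16783368))) (a (l 16783832) (l 16781176)))) (b (l 4) (a (b (a (b (l 4) (a (l 163443649031) (l 275649664279))) (l 4)) (a (l 16778768) (a (l 92039825975) (b (l 294440147959) (l 16777488))))) (b (l 4) (b (l 4) (a (b (l 284239603063) (l 16783032)) (l 439932152215))))))) (l 4))), by decide +kernel⟩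

def k46_pm_123_a : ∃ t, chk3 f_pm_123_a t 31 7 1 = true :=
  ⟨(b (b (a (a (b (a (l 16787792) (l 16784864)) (a (b (l 16789280) (l 16790424)) (b (l 16787312) (l 16788184)))) (a (b (l 16781848) (a (l 16795184) (l 16784216))) (a (b (l 16779352) (l 16782536)) (b (b (a (l 16776960) (a (l 258469799559) (l 333094854055))) (l 16778512)) (l 16780800))))) (a (a (b (a (a (b (l 432415960871) (l 16782400)) (b (l 4) (b (l 409330513015) (l 16776840)))) (a (a (l 451206441255) (l 4)) (l 4))) (b (a (l 16778184) (a (l 70564982407) (b (l 422215415175) (l 16776808)))) (a (l 16779768) (l 16777928)))) (b (l 4) (a (a (b (l 461406990583) (b (l 16781984) (l 16777072))) (b (l 4) (b (l 4) (l 167201747879)))) (l 4)))) (l 4))) (a (a (b (l 16791552) (l 16793904)) (b (a (a (l 16788744) (l 16797824)) (a (a (l 16796960) (l 16796288)) (a (l 16795208) (l 16783720)))) (l 16794936))) (a (a (a (a (b (l 16782824) (l 16785680)) (b (l 16782016) (l 6))) (b (l 16780704) (l 6))) (b (b (a (l 16783328) (a (b (l 248269254711) (l 16777232)) (b (l 4) (l 6))))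 (a (l 16779512) (l 6))) (l 6))) (b (b (l 4) (l 6)) (l 6))))) (a (b (a (b (l 16795720) (l 16797712)) (a (b (l 16791848) (l 16793456)) (b (l 16789136) (l 16790552)))) (a (a (b (l 16811848) (b (l 16802576) (l 16803144))) (b (b (l 16797848) (l 16798712)) (b (l 16799376) (l 16799848)))) (b (b (l 16793200) (l 16793920)) (b (a (l 16796104) (c (l 16792904) (l 16792688))) (a (c (l 16796680) (l 16796376)) (c (l 16793216) (l 16795584))))))) (a (a (a (b (b (l 16787032) (l 16788320)) (b (l 16789520) (b (l 16790208) (c (l 16790584) (l 16790368))))) (l 6)) (l 6)) (l 6)))), by decide +kernel⟩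

theorem s47_pm_123_a : ∃ t, chk3 f_pm_123_a t 31 3 1 = true := ex3_b k45_pm_123_a k46_pm_123_a

theorem s48_pm_123_a : ∃ t, chk3 f_pm_123_a t 30 3 1 = true := ex3_b k43_pm_123_a k44_pm_123_a

theorem s49_pm_123_a : ∃ t, chk3 f_pm_123_a t 15 3 1 = true := ex3_a s48_pm_123_a s47_pm_123_a

theorem s50_pm_123_a : ∃ t, chk3 f_pm_123_a t 14 3 1 = true := ex3_b k41_pm_123_a k42_pm_123_a

theorem s51_pm_123_a : ∃ t, chk3 f_pm_123_a t 7 3 1 = true := ex3_a s50_pm_123_a s49_pm_123_a

theorem s52_pm_123_a : ∃ t, chk3 f_pm_123_a t 6 3 1 = true := ex3_a k39_pm_123_a k40_pm_123_a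

theorem s53_pm_123_a : ∃ t, chk3 f_pm_123_a t 3 3 1 = true := ex3_a s52_pm_123_a s51_pm_123_a

theorem s54_pm_123_a : ∃ t, chk3 f_pm_123_a t 3 5 1 = true := ex3_b k37_pm_123_a k38_pm_123_a

theorem s55_pm_123_a : ∃ t, chk3 f_pm_123_a t 12 4 1 = true := ex3_a k33_pm_123_a k34_pm_123_a

theorem s56_pm_123_a : ∃ t, chk3 f_pm_123_a t 6 4 1 = true := ex3_a s55_pm_123_a k35_pm_123_a

theorem s57_pm_123_a : ∃ t, chk3 f_pm_123_a t 3 4 1 = true := ex3_a s56_pm_123_a k36_pm_123_a

theorem s58_pm_123_a : ∃ t, chk3 f_pm_123_a t 3 2 1 = true := ex3_b s57_pm_123_a s54_pm_123_a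

theorem s59_pm_123_a : ∃ t, chk3 f_pm_123_a t 3 1 1 = true := ex3_b s58_pm_123_a s53_pm_123_a

theorem s60_pm_123_a : ∃ t, chk3 f_pm_123_a t 11 1 1 = true := ex3_b k31_pm_123_a k32_pm_123_a

theorem s61_pm_123_a : ∃ t, chk3 f_pm_123_a t 40 7 1 = true := ex3_a k27_pm_123_a k28_pm_123_a

theorem s62_pm_123_a : ∃ t, chk3 f_pm_123_a t 20 7 1 = true := ex3_a s61_pm_123_a k29_pm_123_a

theorem s63_pm_123_a : ∃ t, chk3 f_pm_123_a t 10 7 1 = true := ex3_a s62_pm_123_a k30_pm_123_a

theorem s64_pm_123_a : ∃ t, chk3 f_pm_123_a t 10 3 1 = true := ex3_b k26_pm_123_a s63_pm_123_a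

theorem s65_pm_123_a : ∃ t, chk3 f_pm_123_a t 10 1 1 = true := ex3_b k25_pm_123_a s64_pm_123_a

theorem s66_pm_123_a : ∃ t, chk3 f_pm_123_a t 5 1 1 = true := ex3_a s65_pm_123_a s60_pm_123_a

theorem s67_pm_123_a : ∃ t, chk3 f_pm_123_a t 19 31 1 = true := ex3_b k23_pm_123_a k24_pm_123_a

theorem s68_pm_123_a : ∃ t, chk3 f_pm_123_a t 19 15 1 = true := ex3_b k22_pm_123_a s67_pm_123_a

theorem s69_pm_123_a : ∃ t, chk3 f_pm_123_a t 19 7 1 = true := ex3_b k21_pm_123_a s68_pm_123_a

theorem s70_pm_123_a : ∃ t, chk3 f_pm_123_a t 19 3 1 = true := ex3_b k20_pm_123_a s69_pm_123_a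

theorem s71_pm_123_a : ∃ t, chk3 f_pm_123_a t 18 127 1 = true := ex3_a k18_pm_123_a k19_pm_123_a

theorem s72_pm_123_a : ∃ t, chk3 f_pm_123_a t 18 63 1 = true := ex3_b k17_pm_123_a s71_pm_123_a

theorem s73_pm_123_a : ∃ t, chk3 f_pm_123_a t 18 31 1 = true := ex3_b k16_pm_123_a s72_pm_123_a

theorem s74_pm_123_a : ∃ t, chk3 f_pm_123_a t 18 15 1 = true := ex3_b k15_pm_123_a s73_pm_123_a

theorem s75_pm_123_a : ∃ t, chk3 f_pm_123_a t 18 7 1 = true := ex3_b k14_pm_123_a s74_pm_123_a

theorem s76_pm_123_a : ∃ t, chk3 f_pm_123_a t 18 3 1 = true := ex3_b k13_pm_123_a s75_pm_123_a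

theorem s77_pm_123_a : ∃ t, chk3 f_pm_123_a t 9 3 1 = true := ex3_a s76_pm_123_a s70_pm_123_a

theorem s78_pm_123_a : ∃ t, chk3 f_pm_123_a t 17 15 1 = true := ex3_a k11_pm_123_a k12_pm_123_a

theorem s79_pm_123_a : ∃ t, chk3 f_pm_123_a t 17 7 1 = true := ex3_b k10_pm_123_a s78_pm_123_a

theorem s80_pm_123_a : ∃ t, chk3 f_pm_123_a t 67 127 1 = true := ex3_a k8_pm_123_a k9_pm_123_a

theorem s81_pm_123_a : ∃ t, chk3 f_pm_123_a t 67 63 1 = true := ex3_b k7_pm_123_a s80_pm_123_a

theorem s82_pm_123_a : ∃ t, chk3 f_pm_123_a t 33 63 1 = true := ex3_a k6_pm_123_a s81_pm_123_a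

theorem s83_pm_123_a : ∃ t, chk3 f_pm_123_a t 33 31 1 = true := ex3_b k5_pm_123_a s82_pm_123_a

theorem s84_pm_123_a : ∃ t, chk3 f_pm_123_a t 33 15 1 = true := ex3_b k4_pm_123_a s83_pm_123_a

theorem s85_pm_123_a : ∃ t, chk3 f_pm_123_a t 16 15 1 = true := ex3_a k3_pm_123_a s84_pm_123_a

theorem s86_pm_123_a : ∃ t, chk3 f_pm_123_a t 16 7 1 = true := ex3_b k2_pm_123_a s85_pm_123_a

theorem s87_pm_123_a : ∃ t, chk3 f_pm_123_a t 8 7 1 = true := ex3_a s86_pm_123_a s79_pm_123_a

theorem s88_pm_123_a : ∃ t, chk3 f_pm_123_a t 8 3 1 = true := ex3_b k1_pm_123_a s87_pm_123_a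

theorem s89_pm_123_a : ∃ t, chk3 f_pm_123_a t 4 3 1 = true := ex3_a s88_pm_123_a s77_pm_123_a

theorem s90_pm_123_a : ∃ t, chk3 f_pm_123_a t 4 1 1 = true := ex3_b k0_pm_123_a s89_pm_123_a

theorem s91_pm_123_a : ∃ t, chk3 f_pm_123_a t 2 1 1 = true := ex3_a s90_pm_123_a s66_pm_123_a

theorem s92_pm_123_a : ∃ t, chk3 f_pm_123_a t 1 1 1 = true := ex3_a s91_pm_123_a s59_pm_123_a

theorem c_pm_123_a : CertB 536870912 536870912 0 536870912 587336777 62277027 3 eng mog cd0q1 cd1q2a pd3 true true false .npn 1 2 3
    ndB0q1 ndB1q2a pcB3 cut_pm_123_a xt_pm_123_a :=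
  certB2 (fam := true) (s1 := true) (s2 := false) (a := 1) (b := 2) (c := 3) (cn := .npn) (n1 := ndB0q1) (n2 := ndB1q2a) (pc := pcB3) (cut := cut_pm_123_a) (xt := xt_pm_123_a) (P1 := 536870912) (W1 := 536870912) (P2 := 0) (W2 := 536870912) (P3 := 587336777) (W3 := 62277027) (N0 := 3) (En := eng) (mo := mog) (C1 := cd0q1) (C2 := cd1q2a) (C3 := pd3)
    rfl (fun _ => rfl) s92_pm_123_a

noncomputable def cut_pm_123_b : Cut := Cut.of [[⟨0, 1, 0, 67108864⟩, ⟨1, 1, 0, 67108864⟩, ⟨2, 2, 0, 16777216⟩], [⟨0, 0, 1, 20971520⟩, ⟨1, 1, 0, 29360128⟩, ⟨2, 1, 1, 20971520⟩]]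

noncomputable def f_pm_123_b : ℕ → ℕ → ℕ → ℕ → Bool := onCell 1610612736 536870912 1239849684 370763052 587336777 62277027
    (rowB 3 eng mog cd0q1 cd1q2b pd3 2 true true false .npn 1 2 3 (qsf 536870912 536870912 1239849684 370763052 3) ndB0q1 ndB1q2b pcB3 cut_pm_123_b Ext.none)

def k0_pm_123_b : ∃ t, chk3 f_pm_123_b t 1 1 1 = true :=
  ⟨(a (b (a (l 1) (b (a (b (b (a (a (l 1) (l 16715360)) (a (l 16737416) (b (l 16742504) (l 16731560)))) (a (l 1) (l 16712944))) (l 1)) (b (b (a (a (b (l 16750464) (l 16740184)) (b (l 16756976) (l 16747608))) (a (a (l 16777408) (a (l 16758456) (l 16780736))) (b (b (a (l 16767752) (l 16769728)) (l 16764672)) (l 16760160)))) (a (l 16732608) (a (l 16746560) (l 16757848)))) (a (b (l 16725416) (l 1)) (a (l 16740848) (l 16750552))))) (a (l 1) (a (l 1) (b (l 16755424) (l 1)))))) (l 1)) (a (b (a (b (a (b (a (b (b (b (a (a (l 16771096) (l 16771968)) (b (a (l 16773760) (l 16774536)) (l 16772600))) (l 16780096)) (l 16769096)) (l 16765688)) (b (b (a (b (a (b (a (l 16775248) (l 16776232)) (l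 16775368)) (b (a (l 147337509783) (l 4)) (l 4))) (l 145190027767)) (l 4)) (l 4)) (l 4))) (a (l 4) (l 4))) (l 4)) (l 4)) (l 4)) (l 4)) (l 4))), by decide +kernel⟩

theorem c_pm_123_b : CertB 536870912 536870912 1239849684 370763052 587336777 62277027 3 eng mog cd0q1 cd1q2b pd3 true true false .npn 1 2 3
    ndB0q1 ndB1q2b pcB3 cut_pm_123_b Ext.none :=
  certB2 (fam := true) (s1 := true) (s2 := false) (a := 1) (b := 2) (c := 3) (cn := .npn) (n1 := ndB0q1) (n2 := ndB1q2b) (pc := pcB3) (cut := cut_pm_123_b) (xt := Ext.none) (P1 := 536870912) (W1 := 536870912) (P2 := 1239849684) (W2 := 370763052) (P3 := 587336777) (W3 := 62277027) (N0 := 3) (En := eng) (mo := mog) (C1 := cd0q1) (C2 := cd1q2b) (C3 := pd3)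
    rfl (fun _ => rfl) k0_pm_123_b

noncomputable def f_pm_133 : ℕ → ℕ → ℕ → ℕ → Bool := onCell 536870912 536870912 1610612736 536870912 587336777 62277027
    (rowB 3 eng mog cd0q1 cd1q3 pd3 0 true true false .dn 1 3 3 (qsf 536870912 536870912 1610612736 536870912 3) ndB0q1 ndB1q3 pcB3 Cut.none Ext.none)

def k0_pm_133 : ∃ t, chk3 f_pm_133 t 1 1 1 = true :=
  ⟨(l 4), by decide +kernel⟩

theorem c_pm_133 : CertB 536870912 536870912 1610612736 536870912 587336777 62277027 3 eng mog cd0q1 cd1q3 pd3 true true false .dn 1 3 3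
    ndB0q1 ndB1q3 pcB3 Cut.none Ext.none :=
  certB0 (fam := true) (s1 := true) (s2 := false) (a := 1) (b := 3) (c := 3) (cn := .dn) (n1 := ndB0q1) (n2 := ndB1q3) (pc := pcB3) (cut := Cut.none) (xt := Ext.none) (P1 := 536870912) (W1 := 536870912) (P2 := 1610612736) (W2 := 536870912) (P3 := 587336777) (W3 := 62277027) (N0 := 3) (En := eng) (mo := mog) (C1 := cd0q1) (C2 := cd1q3) (C3 := pd3)
    rfl k0_pm_133

noncomputable def cut_pm_202 : Cut := Cut.of [[⟨0, 1, 0, 67108864⟩, ⟨1, 0, 0, 67108864⟩, ⟨2, 1, 0, 67108864⟩]]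

noncomputable def f_pm_202 : ℕ → ℕ → ℕ → ℕ → Bool := onCell 0 536870912 1073741824 536870912 587336777 62277027
    (rowB 3 eng mog cd0q2 cd1q0 pd2 1 true true false .pp 2 0 2 (qsf 0 536870912 0 536870912 2) ndB0q2 ndB1q0 pcB2 cut_pm_202 Ext.none)

def k0_pm_202 : ∃ t, chk3 f_pm_202 t 2 2 1 = true :=
  ⟨(a (b (l 1) (b (b (b (l 1) (a (a (l 16451608) (l 16454432)) (a (l 16441320) (a (l 16464976) (l 16469264))))) (a (b (l 16498992) (l 16460648)) (a (b (l 16462680) (l 16465456)) (b (c (l 16470384) (l 16446608)) (l 16471784))))) (a (b (a (l 16466824) (l 16467824)) (a (l 16477848) (l 16477896))) (b (a (c (l 16471504) (l 16469584)) (c (l 16456256) (l 16474736))) (a (l 16480136) (b (l 16482384) (l 16486760))))))) (b (b (l 1) (a (l 1) (b (l 1) (b (l 1) (a (l 1) (b (l 1) (a (l 16511576) (l 16520176)))))))) (b (b (a (b (b (l 1) (a (l 16474688) (l 16486840))) (a (a (l 16474072) (l 16479368)) (c (l 16490864) (l 16484416)))) (b (a (a (l 16496672) (l 61236297511)) (a (b (l 16511992) (l 16512104)) (l 16520104))) (a (c (a (l 16500128)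 (l 16506664)) (l 16497816)) (b (c (l 16517704) (l 16512456)) (b (c (l 16516568) (l 16512576)) (a (l 16511240) (b (l 16518320) (l 16518032)))))))) (b (a (a (c (l 16479488) (l 16476280)) (c (l 16490040) (l 16486872))) (a (c (l 16501360) (b (l 16498816) (l 16499096))) (a (l 16552016) (l 16516488)))) (a (c (l 16501344) (a (l 16478304) (l 16488000))) (a (c (l 16500184) (l 16498824)) (l 16511088))))) (a (b (a (c (b (l 16483144) (l 16486296)) (l 16481776)) (c (b (l 16491936) (l 16494232)) (l 16490120))) (a (b (l 16488704) (l 16492616)) (b (l 16495792) (l 16499168)))) (b (a (c (l 16506456) (b (l 16498808) (l 16499344))) (b (l 16509728) (l 16519424))) (a (b (l 16502640) (l 16505128)) (c (l 16509440) (l 16508608)))))))), by decide +kernel⟩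

def k1_pm_202 : ∃ t, chk3 f_pm_202 t 2 3 1 = true :=
  ⟨(b (a (b (a (a (l 16543688) (b (l 16490096) (l 16502768))) (a (b (l 16491512) (l 16566192)) (b (a (l 16493936) (l 16496152)) (a (l 16504936) (l 16506552))))) (a (b (a (l 16516880) (b (l 16510872) (l 16518832))) (a (l 16542296) (l 16538712))) (b (b (a (l 16510816) (l 16554576)) (a (c (l 16516848) (l 16518720)) (c (l 16518240) (l 16519656)))) (a (b (l 16530520) (l 16542816)) (b (l 16530696) (l 16541960)))))) (b (a (b (a (b (l 16497584) (l 16502576)) (b (l 16503344) (l 16507352))) (a (a (l 16508352) (l 16510304)) (b (l 16511072) (l 16514440)))) (a (b (a (l 16508384) (l 16509928)) (a (l 16513816) (l 16513752))) (b (l 16511608) (l 16512656)))) (a (b (b (a (l 16515400) (l 16517400)) (a (b (l 16560896) (l 16523944)) (b (l 16562192) (l 16524592)))) (a (b (l 16531576) (l 16541712)) (b (l 16531208) (l 16540016)))) (b (a (b (l 16516488) (a (l 16520896) (l 16518744))) (b (l 16512488) (l 16513872))) (a (b (l 16527072) (l 16534224)) (l 16521496)))))) (a (b (a (a (b (l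 16570048) (l 16640440)) (b (l 16565112) (l 16590960))) (a (b (l 16561144) (l 16585056)) (b (l 16558760) (l 16580632)))) (a (b (a (l 16625728) (l 16615136)) (a (l 16649136) (a (l 16641624) (l 16636256)))) (a (b (l 16607960) (l 16629496)) (b (l 16601528) (l 16621160))))) (a (b (a (b (l 16556824) (l 16576456)) (b (l 16553144) (l 16570184))) (a (b (l 16595176) (l 16612704)) (b (l 16586384) (l 16601480)))) (b (b (a (l 16544896) (l 16531768)) (a (l 16558736) (l 16541696))) (b (a (l 16571816) (l 16550928)) (a (l 16583832) (l 16559072))))))), by decide +kernel⟩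

def k2_pm_202 : ∃ t, chk3 f_pm_202 t 3 8 1 = true :=
  ⟨(a (l 1) (a (b (l 1) (a (b (l 1) (b (l 1) (a (l 1) (a (l 16642456) (l 16648912))))) (b (l 6) (b (l 6) (b (l 6) (a (l 16657328) (l 16669544))))))) (b (l 6) (b (l 6) (b (l 6) (a (a (l 16682792) (l 16693936)) (b (l 6) (a (l 16699008) (l 16705440))))))))), by decide +kernel⟩

def k3_pm_202 : ∃ t, chk3 f_pm_202 t 3 9 1 = true :=
  ⟨(a (a (b (l 1) (b (a (a (l 1) (b (l 1) (l 16539096))) (c (b (l 16560432) (l 90227435175)) (b (a (l 1) (l 16555440)) (a (l 16543856) (l 16554768))))) (a (b (a (l 16529176) (l 50498938215)) (a (l 16529024) (l 16538056))) (a (b (l 16548384) (l 16547216)) (b (l 16558136) (l 16556424)))))) (b (b (a (l 1) (b (l 1) (a (l 16601272) (l 64994609719)))) (a (b (a (l 1) (l 16586848)) (a (l 16573368) (l 98280545783))) (a (b (l 78953223911) (l 16596232)) (b (l 16610656) (l 16607408))))) (a (b (a (b (l 125660936919) (l 16569944)) (b (l 16582648) (l 16580224))) (a (l 16566776) (c (l 16578160) (l 16573368)))) (b (a (b (l 16593408) (l 16590368)) (b (l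 16603968) (l 16600312))) (a (l 16595872) (l 16594424)))))) (a (b (a (b (a (b (l 55867837447) (l 16625840)) (b (l 16641784) (l 16637680))) (a (b (l 16622176) (l 16618312)) (c (l 16632704) (l 16629192)))) (b (a (b (l 16653896) (l 16649176)) (b (l 16665640) (l 16660320))) (a (l 16641776) (l 16652008)))) (b (a (a (l 16612160) (l 16621872)) (l 16676776)) (a (l 16607608) (l 16642848)))) (a (b (b (a (l 16695016) (l 16702976)) (a (l 16659632) (c (l 16667368) (l 16666192)))) (a (b (l 16645280) (l 16631632)) (b (l 16651840) (l 16658704)))) (b (b (a (c (l 16710656) (l 16688368)) (a (l 16693624) (c (l 16698144) (l 16695144)))) (a (c (l 16674456) (l 16672128)) (b (l 16682968) (l 16675064)))) (a (b (l 16657968) (b (l 16646944) (l 16639696))) (b (b (l 16667264) (l 16659496)) (b (l 16651752) (l 16644168)))))))), by decide +kernel⟩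

def k4_pm_202 : ∃ t, chk3 f_pm_202 t 3 5 1 = true :=
  ⟨(a (b (b (b (a (a (a (l 16528280) (a (l 16534488) (l 16538672))) (c (b (l 16552584) (l 16549968)) (b (l 16546928) (l 16545624)))) (a (a (a (l 16559624) (l 16563768)) (l 16569944)) (l 16582040))) (b (a (a (c (l 16532392) (l 16528064)) (l 16546096)) (a (l 16561120) (l 16575352))) (a (b (a (l 16529704) (l 16544272)) (a (b (l 16529088) (l 16528648)) (c (l 16543240) (l 16562640)))) (b (l 16586688) (a (l 16598640) (l 16590760)))))) (a (a (c (l 16524520) (l 16554072)) (l 16610032)) (a (l 16611672) (b (l 16564472) (l 16556728))))) (b (a (a (l 16559968) (l 16527024)) (a (l 16536264) (l 16546800))) (a (a (l 16514832) (l 16519792)) (l 16578776)))) (b (b (a (b (a (l 16596464) (l 16683008)) (b (a (l 16588504) (l 16600888)) (b (a (l 16584664) (l 16596752)) (a (b (l 16582776) (l 16581520)) (b (l 16594768) (l 16614456)))))) (b (a (a (l 16681560) (l 16645208)) (a (l 16650184) (b (l 16636856) (l 16629792)))) (b (a (l 16612240) (a (l 16619264) (l 16643920))) (b (a (l 16607792)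 (a (l 16614480) (l 16617944))) (b (a (l 16605624) (a (l 16612120) (l 16615456))) (a (c (l 16628360) (l 16622192)) (b (b (b (l 16613072) (a (l 16611048) (c (l 16618904) (l 16609760)))) (l 16612568)) (l 16611960)))))))) (b (a (a (l 16576400) (a (l 16585000) (l 16590472))) (a (l 16639728) (a (l 16603576) (b (l 16609672) (l 16603256))))) (a (a (l 16568072) (l 16578400)) (a (l 16586848) (a (l 16591560) (l 16593696)))))) (b (a (a (l 16556344) (l 16564480)) (a (a (l 16569304) (l 16571872)) (a (l 16594824) (b (l 16581072) (l 16569048))))) (a (a (l 16541568) (l 16546928)) (a (l 16613880) (a (l 16552608) (l 16552824))))))), by decide +kernel⟩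

def k5_pm_202 : ∃ t, chk3 f_pm_202 t 3 3 1 = true :=
  ⟨(a (b (b (b (a (a (l 16512320) (l 16513440)) (l 16569712)) (a (a (l 16508904) (l 16510816)) (l 16549568))) (a (b (a (b (l 16506504) (l 16508656)) (b (l 16512864) (l 16514008))) (a (l 16507608) (l 16510216))) (b (a (l 16515600) (l 16516512)) (l 16511168)))) (b (a (b (l 16566784) (l 16503584)) (b (l 16505176) (l 16500160))) (a (a (l 16524712) (l 16493216)) (a (l 16489672) (l 16487912))))) (b (a (b (a (b (l 16529016) (l 16521200)) (b (l 16532792) (l 16522480))) (b (a (l 16516136) (l 16514264)) (l 16526608))) (b (a (b (l 16535024) (l 16521672)) (b (a (l 16534896) (l 16533704)) (l 16581032))) (a (b (l 16510352) (l 16496704)) (b (b (l 16507400) (l 16500144)) (l 16487712))))) (a (b (b (l 16496600) (l 16491592)) (a (l 16485208) (l 16480808))) (b (a (l 16525064) (b (l 16475616) (l 16470776))) (a (l 16474608) (a (l 16468752) (l 16464088))))))), by decide +kernel⟩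

theorem s6_pm_202 : ∃ t, chk3 f_pm_202 t 3 4 1 = true := ex3_b k2_pm_202 k3_pm_202

theorem s7_pm_202 : ∃ t, chk3 f_pm_202 t 3 2 1 = true := ex3_b s6_pm_202 k4_pm_202

theorem s8_pm_202 : ∃ t, chk3 f_pm_202 t 3 1 1 = true := ex3_b s7_pm_202 k5_pm_202

theorem s9_pm_202 : ∃ t, chk3 f_pm_202 t 2 1 1 = true := ex3_b k0_pm_202 k1_pm_202

theorem s10_pm_202 : ∃ t, chk3 f_pm_202 t 1 1 1 = true := ex3_a s9_pm_202 s8_pm_202

theorem c_pm_202 : CertB 0 536870912 0 536870912 587336777 62277027 3 eng mog cd0q2 cd1q0 pd2 true true false .pp 2 0 2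
    ndB0q2 ndB1q0 pcB2 cut_pm_202 Ext.none :=
  certB1 (fam := true) (s1 := true) (s2 := false) (a := 2) (b := 0) (c := 2) (cn := .pp) (n1 := ndB0q2) (n2 := ndB1q0) (pc := pcB2) (cut := cut_pm_202) (xt := Ext.none) (P1 := 0) (W1 := 536870912) (P2 := 0) (W2 := 536870912) (P3 := 587336777) (W3 := 62277027) (N0 := 3) (En := eng) (mo := mog) (C1 := cd0q2) (C2 := cd1q0) (C3 := pd2)
    rfl (fun _ => rfl) s10_pm_202

noncomputable def f_pm_203 : ℕ → ℕ → ℕ → ℕ → Bool := onCell 0 536870912 1610612736 536870912 587336777 62277027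
    (rowB 3 eng mog cd0q2 cd1q0 pd3 1 true true false .up 2 0 3 (qsf 0 536870912 0 536870912 3) ndB0q2 ndB1q0 pcB3 Cut.none Ext.none)

def k0_pm_203 : ∃ t, chk3 f_pm_203 t 1 1 1 = true :=
  ⟨(b (b (a (b (a (b (a (a (l 16665912) (l 16654968)) (a (b (l 16644936) (l 16641168)) (b (l 16637288) (l 16626264)))) (a (l 16655880) (a (l 16633880) (l 16613600)))) (b (a (b (a (b (l 16632088) (l 16625000)) (l 16701608)) (a (l 16609096) (l 16586480))) (b (c (l 16691744) (a (l 16663064) (l 16662016))) (b (l 16548704) (l 16579648)))) (a (l 16600728) (l 16600264)))) (a (a (b (l 16679720) (l 16716144)) (b (l 16651288) (l 16690928))) (a (b (l 16638120) (l 16674792)) (b (l 16628856) (l 16657216))))) (b (a (b (a (b (a (c (l 16537744) (l 16549584)) (l 16505208)) (b (l 16540968) (l 16581160))) (a (b (l 16457200) (l 16556680)) (b (l 16452112) (l 16574800)))) (a (l 16597272) (l 16591448))) (b (a (b (a (l 16463232) (l 16556968)) (b (l 16533360) (l 16573440))) (b (a (l 16524192) (a (l 16489192) (l 16493968))) (a (l 16615616) (l 157940340743))))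 (a (l 16587064) (l 147202924999)))) (b (a (a (l 16618328) (l 16606136)) (a (l 16602896) (l 2))) (a (a (l 16641024) (l 16625920)) (l 2))))) (a (b (b (a (a (l 16746320) (l 16727320)) (a (l 16713536) (l 16696664))) (a (a (l 2) (l 2)) (l 2))) (l 2)) (a (l 2) (l 2)))) (l 2)), by decide +kernel⟩

theorem c_pm_203 : CertB 0 536870912 0 536870912 587336777 62277027 3 eng mog cd0q2 cd1q0 pd3 true true false .up 2 0 3
    ndB0q2 ndB1q0 pcB3 Cut.none Ext.none :=
  certB1 (fam := true) (s1 := true) (s2 := false) (a := 2) (b := 0) (c := 3) (cn := .up) (n1 := ndB0q2) (n2 := ndB1q0) (pc := pcB3) (cut := Cut.none) (xt := Ext.none) (P1 := 0) (W1 := 536870912) (P2 := 0) (W2 := 536870912) (P3 := 587336777) (W3 := 62277027) (N0 := 3) (En := eng) (mo := mog) (C1 := cd0q2) (C2 := cd1q0) (C3 := pd3)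
    rfl (fun _ => rfl) k0_pm_203

noncomputable def f_pm_213 : ℕ → ℕ → ℕ → ℕ → Bool := onCell 0 536870912 1610612736 536870912 587336777 62277027
    (rowB 3 eng mog cd0q2 cd1q1 pd3 1 true true false .pnn 2 1 3 (qsf 0 536870912 536870912 536870912 3) ndB0q2 ndB1q1 pcB3 Cut.none Ext.none)

def k0_pm_213 : ∃ t, chk3 f_pm_213 t 1 2 1 = true :=
  ⟨(b (a (b (l 1) (a (l 1) (b (l 1) (a (l 1) (l 16717144))))) (b (a (l 1) (b (a (l 1) (b (a (l 1) (c (l 16571928) (a (l 16508072) (l 16509696)))) (a (b (l 16585904) (l 16619024)) (b (l 16586320) (b (l 16612728) (l 16622392)))))) (a (l 16638120) (a (l 16635488) (a (l 16638408) (l 16642288)))))) (b (a (a (l 1) (l 16659904)) (a (l 16655568) (a (l 16668032) (l 16686608)))) (a (a (l 16695760) (l 16679048)) (a (b (l 16677536) (l 16692232)) (a (l 16707312) (l 16706656))))))) (a (b (a (a (b (l 16789512) (l 16797512)) (b (l 16775568) (l 16791792))) (a (b (l 16761880) (l 16781784)) (b (l 16743952) (l 16770824)))) (a (a (b (l 30836650279) (a (l 152169418007) (l 16797344))) (b (l 16801688)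 (l 16809720))) (a (b (l 16794536) (l 16803048)) (b (l 16790560) (l 16800536))))) (b (a (b (a (l 16726504) (a (l 16716472) (l 16712632))) (a (l 16760280) (l 16755024))) (b (a (b (l 16711320) (l 16734168)) (a (l 16682096) (b (l 16754912) (l 16774696)))) (a (b (l 16754016) (l 16771072)) (a (l 16782096) (l 16800512))))) (a (a (l 16792760) (a (l 16793048) (l 16795216))) (a (b (b (l 16785912) (l 16798984)) (a (l 16810528) (l 16820176))) (a (c (l 16834672) (l 16811584)) (b (l 16828464) (l 16849864)))))))), by decide +kernel⟩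

def k1_pm_213 : ∃ t, chk3 f_pm_213 t 1 6 1 = true :=
  ⟨(a (b (a (a (l 4) (a (b (l 49627016247) (l 4)) (b (l 16793312) (l 100092909703)))) (a (b (l 16810008) (l 16796304)) (b (l 16807808) (l 16812224)))) (a (l 4) (b (a (b (l 16776384) (l 100092799223)) (l 16815560)) (a (b (a (l 4) (l 16764456)) (l 4)) (b (l 16791288) (l 87208084791)))))) (a (b (a (b (l 16808296) (l 16812184)) (c (l 16778912) (l 16728000))) (b (a (l 16813136) (l 16818272)) (a (b (l 16812488) (l 16811592)) (a (l 16811432) (l 16815648))))) (b (a (b (b (l 16826336) (l 16829864)) (l 16832776)) (b (b (l 16852280) (l 16855528)) (a (l 16850120) (l 16864944)))) (a (b (l 16853088) (a (l 16822976) (l 16833920))) (b (a (l 16849696) (l 16866440)) (a (l 16848208) (l 16864432))))))), by decide +kernel⟩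

def k2_pm_213 : ∃ t, chk3 f_pm_213 t 1 7 1 = true :=
  ⟨(a (b (a (l 4) (b (a (l 4) (b (l 117809677159) (l 140358210887))) (l 4))) (l 4)) (a (b (b (a (a (l 50164060743) (l 16809032)) (a (l 16808544) (l 16812008))) (a (b (a (l 16771232) (l 16793024)) (a (l 4) (l 16775216))) (b (l 16809432) (a (l 16796024) (l 16807352))))) (b (a (l 4) (b (a (l 16819696) (l 16796264)) (a (l 4) (b (l 16782928) (l 16773240))))) (l 4))) (a (b (b (l 16825568) (a (l 16814120) (l 16822960))) (b (b (a (l 16806800) (l 16812632)) (a (b (l 16796760) (l 16788408)) (b (l 16806552) (l 16797328)))) (b (a (b (l 298198336263) (l 4)) (b (b (l 16791472) (l 16787680)) (l 278334144087))) (b (a (l 4) (l 394835063239)) (l 4))))) (b (b (l 16849544) (a (l 16831976) (l 16841368))) (a (b (b (l 16820016) (b (l 16812840) (l 16805240))) (b (b (l 16819040) (b (l 16790728) (l 16805816))) (b (b (l 16841304) (l 16794376)) (b (l 536032074455) (l 4))))) (b (l 16821760) (b (l 16796760) (b (a (l 16867024) (l 16807784)) (b (l 287997825415) (b (l 16769912) (l 4))))))))))),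 by decide +kernel⟩

theorem s3_pm_213 : ∃ t, chk3 f_pm_213 t 1 3 1 = true := ex3_b k1_pm_213 k2_pm_213

theorem s4_pm_213 : ∃ t, chk3 f_pm_213 t 1 1 1 = true := ex3_b k0_pm_213 s3_pm_213

theorem c_pm_213 : CertB 0 536870912 536870912 536870912 587336777 62277027 3 eng mog cd0q2 cd1q1 pd3 true true false .pnn 2 1 3
    ndB0q2 ndB1q1 pcB3 Cut.none Ext.none :=
  certB1 (fam := true) (s1 := true) (s2 := false) (a := 2) (b := 1) (c := 3) (cn := .pnn) (n1 := ndB0q2) (n2 := ndB1q1) (pc := pcB3) (cut := Cut.none) (xt := Ext.none) (P1 := 0) (W1 := 536870912) (P2 := 536870912) (W2 := 536870912) (P3 := 587336777) (W3 := 62277027) (N0 := 3) (En := eng) (mo := mog) (C1 := cd0q2) (C2 := cd1q1) (C3 := pd3)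
    rfl (fun _ => rfl) s4_pm_213

noncomputable def f_mm_001 : ℕ → ℕ → ℕ → ℕ → Bool := onCell 0 536870912 0 536870912 587336777 62277027
    (rowB 3 eng mog cd0q0 cd1q0 pd1 0 true false false .up 0 0 1 (qsf 0 536870912 0 536870912 1) ndB0q0 ndB1q0 pcB1 Cut.none Ext.none)

def k0_mm_001 : ∃ t, chk3 f_mm_001 t 1 1 1 = true :=
  ⟨(l 4), by decide +kernel⟩

theorem c_mm_001 : CertB 0 536870912 0 536870912 587336777 62277027 3 eng mog cd0q0 cd1q0 pd1 true false false .up 0 0 1
    ndB0q0 ndB1q0 pcB1 Cut.none Ext.none :=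
  certB0 (fam := true) (s1 := false) (s2 := false) (a := 0) (b := 0) (c := 1) (cn := .up) (n1 := ndB0q0) (n2 := ndB1q0) (pc := pcB1) (cut := Cut.none) (xt := Ext.none) (P1 := 0) (W1 := 536870912) (P2 := 0) (W2 := 536870912) (P3 := 587336777) (W3 := 62277027) (N0 := 3) (En := eng) (mo := mog) (C1 := cd0q0) (C2 := cd1q0) (C3 := pd1)
    rfl k0_mm_001

noncomputable def f_mm_011 : ℕ → ℕ → ℕ → ℕ → Bool := onCell 0 536870912 536870912 536870912 587336777 62277027
    (rowB 3 eng mog cd0q0 cd1q1 pd1 0 true false false .pnn 0 1 1 (qsf 0 536870912 536870912 536870912 1) ndB0q0 ndB1q1 pcB1 Cut.none Ext.none)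

def k0_mm_011 : ∃ t, chk3 f_mm_011 t 1 1 1 = true :=
  ⟨(l 4), by decide +kernel⟩

theorem c_mm_011 : CertB 0 536870912 536870912 536870912 587336777 62277027 3 eng mog cd0q0 cd1q1 pd1 true false false .pnn 0 1 1
    ndB0q0 ndB1q1 pcB1 Cut.none Ext.none :=
  certB0 (fam := true) (s1 := false) (s2 := false) (a := 0) (b := 1) (c := 1) (cn := .pnn) (n1 := ndB0q0) (n2 := ndB1q1) (pc := pcB1) (cut := Cut.none) (xt := Ext.none) (P1 := 0) (W1 := 536870912) (P2 := 536870912) (W2 := 536870912) (P3 := 587336777) (W3 := 62277027) (N0 := 3) (En := eng) (mo := mog) (C1 := cd0q0) (C2 := cd1q1) (C3 := pd1)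
    rfl k0_mm_011

noncomputable def f_mm_012 : ℕ → ℕ → ℕ → ℕ → Bool := onCell 0 536870912 536870912 536870912 587336777 62277027
    (rowB 3 eng mog cd0q0 cd1q1 pd2 0 true false false .pnp 0 1 2 (qsf 0 536870912 536870912 536870912 2) ndB0q0 ndB1q1 pcB2 Cut.none Ext.none)

def k0_mm_012 : ∃ t, chk3 f_mm_012 t 1 1 1 = true :=
  ⟨(l 4), by decide +kernel⟩

theorem c_mm_012 : CertB 0 536870912 536870912 536870912 587336777 62277027 3 eng mog cd0q0 cd1q1 pd2 true false false .pnp 0 1 2
    ndB0q0 ndB1q1 pcB2 Cut.none Ext.none :=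
  certB0 (fam := true) (s1 := false) (s2 := false) (a := 0) (b := 1) (c := 2) (cn := .pnp) (n1 := ndB0q0) (n2 := ndB1q1) (pc := pcB2) (cut := Cut.none) (xt := Ext.none) (P1 := 0) (W1 := 536870912) (P2 := 536870912) (W2 := 536870912) (P3 := 587336777) (W3 := 62277027) (N0 := 3) (En := eng) (mo := mog) (C1 := cd0q0) (C2 := cd1q1) (C3 := pd2)
    rfl k0_mm_012

noncomputable def f_mm_022_a : ℕ → ℕ → ℕ → ℕ → Bool := onCell 0 536870912 0 536870912 587336777 62277027
    (rowB 3 eng mog cd0q0 cd1q2a pd2 0 true false false .pp 0 2 2 (qsf 0 536870912 0 536870912 2) ndB0q0 ndB1q2a pcB2 Cut.none Ext.none)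

def k0_mm_022_a : ∃ t, chk3 f_mm_022_a t 1 1 1 = true :=
  ⟨(l 5), by decide +kernel⟩

theorem c_mm_022_a : CertB 0 536870912 0 536870912 587336777 62277027 3 eng mog cd0q0 cd1q2a pd2 true false false .pp 0 2 2
    ndB0q0 ndB1q2a pcB2 Cut.none Ext.none :=
  certB0 (fam := true) (s1 := false) (s2 := false) (a := 0) (b := 2) (c := 2) (cn := .pp) (n1 := ndB0q0) (n2 := ndB1q2a) (pc := pcB2) (cut := Cut.none) (xt := Ext.none) (P1 := 0) (W1 := 536870912) (P2 := 0) (W2 := 536870912) (P3 := 587336777) (W3 := 62277027) (N0 := 3) (En := eng) (mo := mog) (C1 := cd0q0) (C2 := cd1q2a) (C3 := pd2)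
    rfl k0_mm_022_a

noncomputable def f_mm_022_b : ℕ → ℕ → ℕ → ℕ → Bool := onCell 0 536870912 1239849684 370763052 587336777 62277027
    (rowB 3 eng mog cd0q0 cd1q2b pd2 0 true false false .pp 0 2 2 (qsf 0 536870912 1239849684 370763052 2) ndB0q0 ndB1q2b pcB2 Cut.none Ext.none)

def k0_mm_022_b : ∃ t, chk3 f_mm_022_b t 1 1 1 = true :=
  ⟨(l 5), by decide +kernel⟩

theorem c_mm_022_b : CertB 0 536870912 1239849684 370763052 587336777 62277027 3 eng mog cd0q0 cd1q2b pd2 true false false .pp 0 2 2
    ndB0q0 ndB1q2b pcB2 Cut.none Ext.none :=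
  certB0 (fam := true) (s1 := false) (s2 := false) (a := 0) (b := 2) (c := 2) (cn := .pp) (n1 := ndB0q0) (n2 := ndB1q2b) (pc := pcB2) (cut := Cut.none) (xt := Ext.none) (P1 := 0) (W1 := 536870912) (P2 := 1239849684) (W2 := 370763052) (P3 := 587336777) (W3 := 62277027) (N0 := 3) (En := eng) (mo := mog) (C1 := cd0q0) (C2 := cd1q2b) (C3 := pd2)
    rfl k0_mm_022_b

noncomputable def f_mm_023_a : ℕ → ℕ → ℕ → ℕ → Bool := onCell 0 536870912 0 536870912 587336777 62277027
    (rowB 3 eng mog cd0q0 cd1q2a pd3 0 true false false .up 0 2 3 (qsf 0 536870912 0 536870912 3) ndB0q0 ndB1q2a pcB3 Cut.none Ext.none)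

def k0_mm_023_a : ∃ t, chk3 f_mm_023_a t 1 1 1 = true :=
  ⟨(l 5), by decide +kernel⟩

theorem c_mm_023_a : CertB 0 536870912 0 536870912 587336777 62277027 3 eng mog cd0q0 cd1q2a pd3 true false false .up 0 2 3
    ndB0q0 ndB1q2a pcB3 Cut.none Ext.none :=
  certB0 (fam := true) (s1 := false) (s2 := false) (a := 0) (b := 2) (c := 3) (cn := .up) (n1 := ndB0q0) (n2 := ndB1q2a) (pc := pcB3) (cut := Cut.none) (xt := Ext.none) (P1 := 0) (W1 := 536870912) (P2 := 0) (W2 := 536870912) (P3 := 587336777) (W3 := 62277027) (N0 := 3) (En := eng) (mo := mog) (C1 := cd0q0) (C2 := cd1q2a) (C3 := pd3)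
    rfl k0_mm_023_a

noncomputable def f_mm_023_b : ℕ → ℕ → ℕ → ℕ → Bool := onCell 0 536870912 1239849684 370763052 587336777 62277027
    (rowB 3 eng mog cd0q0 cd1q2b pd3 0 true false false .up 0 2 3 (qsf 0 536870912 1239849684 370763052 3) ndB0q0 ndB1q2b pcB3 Cut.none Ext.none)

def k0_mm_023_b : ∃ t, chk3 f_mm_023_b t 1 1 1 = true :=
  ⟨(l 5), by decide +kernel⟩

theorem c_mm_023_b : CertB 0 536870912 1239849684 370763052 587336777 62277027 3 eng mog cd0q0 cd1q2b pd3 true false false .up 0 2 3
    ndB0q0 ndB1q2b pcB3 Cut.none Ext.none :=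
  certB0 (fam := true) (s1 := false) (s2 := false) (a := 0) (b := 2) (c := 3) (cn := .up) (n1 := ndB0q0) (n2 := ndB1q2b) (pc := pcB3) (cut := Cut.none) (xt := Ext.none) (P1 := 0) (W1 := 536870912) (P2 := 1239849684) (W2 := 370763052) (P3 := 587336777) (W3 := 62277027) (N0 := 3) (En := eng) (mo := mog) (C1 := cd0q0) (C2 := cd1q2b) (C3 := pd3)
    rfl k0_mm_023_b

noncomputable def f_mm_033 : ℕ → ℕ → ℕ → ℕ → Bool := onCell 0 536870912 1610612736 536870912 587336777 62277027
    (rowB 3 eng mog cd0q0 cd1q3 pd3 0 true false false .pnn 0 3 3 (qsf 0 536870912 1610612736 536870912 3) ndB0q0 ndB1q3 pcB3 Cut.none Ext.none)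

def k0_mm_033 : ∃ t, chk3 f_mm_033 t 1 1 1 = true :=
  ⟨(l 5), by decide +kernel⟩

theorem c_mm_033 : CertB 0 536870912 1610612736 536870912 587336777 62277027 3 eng mog cd0q0 cd1q3 pd3 true false false .pnn 0 3 3
    ndB0q0 ndB1q3 pcB3 Cut.none Ext.none :=
  certB0 (fam := true) (s1 := false) (s2 := false) (a := 0) (b := 3) (c := 3) (cn := .pnn) (n1 := ndB0q0) (n2 := ndB1q3) (pc := pcB3) (cut := Cut.none) (xt := Ext.none) (P1 := 0) (W1 := 536870912) (P2 := 1610612736) (W2 := 536870912) (P3 := 587336777) (W3 := 62277027) (N0 := 3) (En := eng) (mo := mog) (C1 := cd0q0) (C2 := cd1q3) (C3 := pd3)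
    rfl k0_mm_033

noncomputable def cut_mm_101 : Cut := Cut.of [[⟨0, 1, 0, 67108864⟩, ⟨1, 0, 0, 67108864⟩, ⟨2, 1, 0, 67108864⟩]]

noncomputable def f_mm_101 : ℕ → ℕ → ℕ → ℕ → Bool := onCell 536870912 536870912 0 536870912 587336777 62277027
    (rowB 3 eng mog cd0q1 cd1q0 pd1 0 true false false .npn 1 0 1 (qsf 536870912 536870912 0 536870912 1) ndB0q1 ndB1q0 pcB1 cut_mm_101 Ext.none)

def k0_mm_101 : ∃ t, chk3 f_mm_101 t 1 1 1 = true :=
  ⟨(a (l 4) (b (a (l 4) (b (a (l 4) (b (a (l 4) (b (l 6) (l 4))) (l 4))) (l 4))) (l 4))), by decide +kernel⟩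

theorem c_mm_101 : CertB 536870912 536870912 0 536870912 587336777 62277027 3 eng mog cd0q1 cd1q0 pd1 true false false .npn 1 0 1
    ndB0q1 ndB1q0 pcB1 cut_mm_101 Ext.none :=
  certB0 (fam := true) (s1 := false) (s2 := false) (a := 1) (b := 0) (c := 1) (cn := .npn) (n1 := ndB0q1) (n2 := ndB1q0) (pc := pcB1) (cut := cut_mm_101) (xt := Ext.none) (P1 := 536870912) (W1 := 536870912) (P2 := 0) (W2 := 536870912) (P3 := 587336777) (W3 := 62277027) (N0 := 3) (En := eng) (mo := mog) (C1 := cd0q1) (C2 := cd1q0) (C3 := pd1)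
    rfl k0_mm_101

noncomputable def cut_mm_102 : Cut := Cut.of [[⟨0, 1, 0, 67108864⟩, ⟨1, 0, 0, 67108864⟩, ⟨2, 1, 0, 67108864⟩]]

noncomputable def f_mm_102 : ℕ → ℕ → ℕ → ℕ → Bool := onCell 536870912 536870912 0 536870912 587336777 62277027
    (rowB 3 eng mog cd0q1 cd1q0 pd2 0 true false false .npp 1 0 2 (qsf 536870912 536870912 0 536870912 2) ndB0q1 ndB1q0 pcB2 cut_mm_102 Ext.none)

def k0_mm_102 : ∃ t, chk3 f_mm_102 t 1 1 1 = true :=
  ⟨(a (l 4) (b (a (l 4) (b (a (l 4) (b (a (l 4) (b (l 6) (l 4))) (l 4))) (l 4))) (l 4))), by decide +kernel⟩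

theorem c_mm_102 : CertB 536870912 536870912 0 536870912 587336777 62277027 3 eng mog cd0q1 cd1q0 pd2 true false false .npp 1 0 2
    ndB0q1 ndB1q0 pcB2 cut_mm_102 Ext.none :=
  certB0 (fam := true) (s1 := false) (s2 := false) (a := 1) (b := 0) (c := 2) (cn := .npp) (n1 := ndB0q1) (n2 := ndB1q0) (pc := pcB2) (cut := cut_mm_102) (xt := Ext.none) (P1 := 536870912) (W1 := 536870912) (P2 := 0) (W2 := 536870912) (P3 := 587336777) (W3 := 62277027) (N0 := 3) (En := eng) (mo := mog) (C1 := cd0q1) (C2 := cd1q0) (C3 := pd2)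
    rfl k0_mm_102

noncomputable def f_mm_112 : ℕ → ℕ → ℕ → ℕ → Bool := onCell 536870912 536870912 536870912 536870912 587336777 62277027
    (rowB 3 eng mog cd0q1 cd1q1 pd2 0 true false false .dn 1 1 2 (qsf 536870912 536870912 536870912 536870912 2) ndB0q1 ndB1q1 pcB2 Cut.none Ext.none)

def k0_mm_112 : ∃ t, chk3 f_mm_112 t 1 1 1 = true :=
  ⟨(l 4), by decide +kernel⟩

theorem c_mm_112 : CertB 536870912 536870912 536870912 536870912 587336777 62277027 3 eng mog cd0q1 cd1q1 pd2 true false false .dn 1 1 2
    ndB0q1 ndB1q1 pcB2 Cut.none Ext.none :=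
  certB0 (fam := true) (s1 := false) (s2 := false) (a := 1) (b := 1) (c := 2) (cn := .dn) (n1 := ndB0q1) (n2 := ndB1q1) (pc := pcB2) (cut := Cut.none) (xt := Ext.none) (P1 := 536870912) (W1 := 536870912) (P2 := 536870912) (W2 := 536870912) (P3 := 587336777) (W3 := 62277027) (N0 := 3) (En := eng) (mo := mog) (C1 := cd0q1) (C2 := cd1q1) (C3 := pd2)
    rfl k0_mm_112

noncomputable def f_mm_113 : ℕ → ℕ → ℕ → ℕ → Bool := onCell 536870912 536870912 536870912 536870912 587336777 62277027
    (rowB 3 eng mog cd0q1 cd1q1 pd3 0 true false false .nn 1 1 3 (qsf 536870912 536870912 536870912 536870912 3) ndB0q1 ndB1q1 pcB3 Cut.none Ext.none)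

def k0_mm_113 : ∃ t, chk3 f_mm_113 t 1 1 1 = true :=
  ⟨(l 4), by decide +kernel⟩

theorem c_mm_113 : CertB 536870912 536870912 536870912 536870912 587336777 62277027 3 eng mog cd0q1 cd1q1 pd3 true false false .nn 1 1 3
    ndB0q1 ndB1q1 pcB3 Cut.none Ext.none :=
  certB0 (fam := true) (s1 := false) (s2 := false) (a := 1) (b := 1) (c := 3) (cn := .nn) (n1 := ndB0q1) (n2 := ndB1q1) (pc := pcB3) (cut := Cut.none) (xt := Ext.none) (P1 := 536870912) (W1 := 536870912) (P2 := 536870912) (W2 := 536870912) (P3 := 587336777) (W3 := 62277027) (N0 := 3) (En := eng) (mo := mog) (C1 := cd0q1) (C2 := cd1q1) (C3 := pd3)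
    rfl k0_mm_113

noncomputable def f_mm_123_a : ℕ → ℕ → ℕ → ℕ → Bool := onCell 536870912 536870912 0 536870912 587336777 62277027
    (rowB 3 eng mog cd0q1 cd1q2a pd3 0 true false false .npn 1 2 3 (qsf 536870912 536870912 0 536870912 3) ndB0q1 ndB1q2a pcB3 Cut.none Ext.none)

def k0_mm_123_a : ∃ t, chk3 f_mm_123_a t 1 1 1 = true :=
  ⟨(a (l 5) (l 4)), by decide +kernel⟩

theorem c_mm_123_a : CertB 536870912 536870912 0 536870912 587336777 62277027 3 eng mog cd0q1 cd1q2a pd3 true false false .npn 1 2 3
    ndB0q1 ndB1q2a pcB3 Cut.none Ext.none :=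
  certB0 (fam := true) (s1 := false) (s2 := false) (a := 1) (b := 2) (c := 3) (cn := .npn) (n1 := ndB0q1) (n2 := ndB1q2a) (pc := pcB3) (cut := Cut.none) (xt := Ext.none) (P1 := 536870912) (W1 := 536870912) (P2 := 0) (W2 := 536870912) (P3 := 587336777) (W3 := 62277027) (N0 := 3) (En := eng) (mo := mog) (C1 := cd0q1) (C2 := cd1q2a) (C3 := pd3)
    rfl k0_mm_123_a

noncomputable def f_mm_123_b : ℕ → ℕ → ℕ → ℕ → Bool := onCell 536870912 536870912 1239849684 370763052 587336777 62277027
    (rowB 3 eng mog cd0q1 cd1q2b pd3 0 true false false .npn 1 2 3 (qsf 536870912 536870912 1239849684 370763052 3) ndB0q1 ndB1q2b pcB3 Cut.none Ext.none)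

def k0_mm_123_b : ∃ t, chk3 f_mm_123_b t 1 1 1 = true :=
  ⟨(l 5), by decide +kernel⟩

theorem c_mm_123_b : CertB 536870912 536870912 1239849684 370763052 587336777 62277027 3 eng mog cd0q1 cd1q2b pd3 true false false .npn 1 2 3
    ndB0q1 ndB1q2b pcB3 Cut.none Ext.none :=
  certB0 (fam := true) (s1 := false) (s2 := false) (a := 1) (b := 2) (c := 3) (cn := .npn) (n1 := ndB0q1) (n2 := ndB1q2b) (pc := pcB3) (cut := Cut.none) (xt := Ext.none) (P1 := 536870912) (W1 := 536870912) (P2 := 1239849684) (W2 := 370763052) (P3 := 587336777) (W3 := 62277027) (N0 := 3) (En := eng) (mo := mog) (C1 := cd0q1) (C2 := cd1q2b) (C3 := pd3)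
    rfl k0_mm_123_b

noncomputable def f_mm_133 : ℕ → ℕ → ℕ → ℕ → Bool := onCell 536870912 536870912 1610612736 536870912 587336777 62277027
    (rowB 3 eng mog cd0q1 cd1q3 pd3 0 true false false .dn 1 3 3 (qsf 536870912 536870912 1610612736 536870912 3) ndB0q1 ndB1q3 pcB3 Cut.none Ext.none)

def k0_mm_133 : ∃ t, chk3 f_mm_133 t 1 1 1 = true :=
  ⟨(l 4), by decide +kernel⟩

theorem c_mm_133 : CertB 536870912 536870912 1610612736 536870912 587336777 62277027 3 eng mog cd0q1 cd1q3 pd3 true false false .dn 1 3 3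
    ndB0q1 ndB1q3 pcB3 Cut.none Ext.none :=
  certB0 (fam := true) (s1 := false) (s2 := false) (a := 1) (b := 3) (c := 3) (cn := .dn) (n1 := ndB0q1) (n2 := ndB1q3) (pc := pcB3) (cut := Cut.none) (xt := Ext.none) (P1 := 536870912) (W1 := 536870912) (P2 := 1610612736) (W2 := 536870912) (P3 := 587336777) (W3 := 62277027) (N0 := 3) (En := eng) (mo := mog) (C1 := cd0q1) (C2 := cd1q3) (C3 := pd3)
    rfl k0_mm_133

end Pool.Agent.Strip051.G.I5470_6050.Tab.C.BA01

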