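import Pool.Agent.Strip051.G.I5470_6050.Tab
import Pool.Agent.Strip051.PB.ExtD2

/-! # Certificates B6 (generated) -/

set_option linter.all false
set_option maxRecDepth 100000

namespace Pool.Agent.Strip051.G.I5470_6050.Tab.C.BA01

open Pool.Agent.Strip051.PB Pool.Agent.Strip051.PB.T
open Pool.Agent.Strip051.G.I5470_6050.Tab

noncomputable def cut_mm_202 : Cut := Cut.of [[⟨0, 1, 0, 67108864⟩, ⟨1, 0, 0, 67108864⟩, ⟨2, 1, 0, 67108864⟩]]

noncomputable def f_mm_202 : ℕ → ℕ → ℕ → ℕ → Bool := onCell 0 536870912 0 536870912 587336777 62277027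
    (rowB 3 eng mog cd0q2 cd1q0 pd2 0 true false false .pp 2 0 2 (qsf 0 536870912 0 536870912 2) ndB0q2 ndB1q0 pcB2 cut_mm_202 Ext.none)

def k0_mm_202 : ∃ t, chk3 f_mm_202 t 2 4 1 = true :=
  ⟨(a (b (a (b (b (l 16456976) (l 16462040)) (l 16469456)) (b (a (b (l 16463296) (l 16469824)) (b (l 16470680) (l 16477976))) (a (l 16479072) (b (l 16485328) (l 16492272))))) (a (a (l 16517568) (l 16511440)) (b (a (l 16490728) (l 16502000)) (l 16584384)))) (b (a (b (a (a (b (l 16477576) (l 16485312)) (b (l 16483000) (l 16490944))) (b (a (l 16489040) (l 16495744)) (a (l 16497184) (l 16504096)))) (a (b (l 16496392) (l 16504216)) (b (a (l 16506000) (l 16513232)) (l 16518368)))) (b (a (b (a (c (l 16483152) (l 16502680)) (b (l 16509176) (l 16513320))) (a (l 16511704) (b (l 16517720) (l 16522360)))) (a (b (b (c (l 16518112) (l 16517888)) (l 16532672)) (b (c (l 16527944) (l 16525920)) (l 16531448))) (c (b (b (l 16527296) (l 16532192)) (b (l 16537320) (l 16542640))) (b (b (a (l 16524376) (a (l 16527736) (l 16509056))) (l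 16531776)) (b (l 16535936) (l 16540336)))))) (a (a (b (b (l 16518728) (l 16523528)) (l 16530536)) (b (b (l 16527208) (l 16532200)) (l 16539560))) (a (b (b (l 16536408) (b (l 16540240) (l 16542848))) (b (l 16546720) (l 16551784))) (b (b (l 16546352) (l 16551600)) (b (a (l 16554320) (l 16559624)) (l 16562288))))))) (a (b (a (l 16515296) (b (l 16526728) (l 16534736))) (a (l 16532072) (l 16549136))) (b (a (b (a (l 16539584) (l 16549072)) (l 16595232)) (b (a (l 16559240) (l 16570104)) (a (l 16568880) (l 16580216)))) (a (b (l 16562608) (l 16596072)) (b (c (l 16628584) (l 16583280)) (l 16639880))))))), by decide +kernel⟩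

def k1_mm_202 : ∃ t, chk3 f_mm_202 t 2 5 1 = true :=
  ⟨(a (b (b (a (a (l 16506728) (l 16515128)) (l 16533440)) (a (a (l 16524352) (l 16557776)) (a (l 16549056) (l 16562984)))) (a (b (a (l 16545768) (l 16555080)) (a (l 16577464) (l 16587440))) (b (l 16571832) (l 16603832)))) (b (a (b (a (l 16555568) (l 16573632)) (a (l 16579336) (l 16598184))) (b (a (l 16597120) (b (l 16653424) (l 16645928))) (a (l 16619976) (b (l 16638256) (l 16651288))))) (a (b (a (l 16598552) (l 16620384)) (l 16673656)) (a (b (b (l 16638184) (l 16650920)) (l 16670816)) (b (b (l 16664008) (l 16678312)) (l 16700048)))))), by decide +kernel⟩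

def k2_mm_202 : ∃ t, chk3 f_mm_202 t 12 8 1 = true :=
  ⟨(b (a (b (a (b (a (c (l 16534608) (b (l 16532032) (l 16535008))) (c (l 16539680) (b (l 16536768) (l 16539832)))) (c (l 16542208) (b (l 16540392) (l 16543288)))) (b (b (c (a (l 16543536) (l 16548840)) (a (l 16541624) (l 16546624))) (c (l 16548952) (a (l 16544784) (l 16549872)))) (c (l 16552976) (a (l 16549408) (l 16532352))))) (a (b (c (l 16547432) (l 16546712)) (c (l 16552856) (l 16551264))) (b (c (l 16558312) (l 16558064)) (l 16573720)))) (b (a (b (c (b (l 16557072) (l 16560032)) (b (a (l 16551752) (l 16557016)) (l 16557792))) (c (b (l 16562936) (l 16565784)) (b (l 16561120) (l 16543416)))) (b (c (b (l 16568496) (l 16571656)) (b (a (l 16562424) (l 16567976)) (l 16568792))) (a (c (l 16573240) (l 16571144)) (l 16580904)))) (a (b (c (l 16569984) (l 16569176)) (l 16575384)) (b (a (l 16578656) (l 16584800)) (l 16587960))))) (a (b (a (b (a (l 16554272) (l 16559824)) (l 16562424)) (b (c (l 16569528) (l 16567896)) (a (l 16571024) (l 16577024)))) (a (a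 (b (l 16565104) (l 16570608)) (b (l 16570768) (l 16576392))) (b (l 16579664) (b (l 16594464) (a (l 16583776) (l 16589952)))))) (b (a (b (l 16580824) (l 16586432)) (b (l 16593904) (l 16599648))) (a (b (a (l 16588960) (l 16595424)) (a (l 16594824) (l 16601352))) (a (l 16594592) (l 16611984)))))), by decide +kernel⟩

def k3_mm_202 : ∃ t, chk3 f_mm_202 t 13 8 1 = true :=
  ⟨(b (b (a (a (a (b (c (l 16579072) (l 16575560)) (l 16584376)) (b (c (l 16585264) (l 16581488)) (l 16590624))) (b (c (l 16594872) (b (l 16588736) (l 16592688))) (c (l 16601888) (l 16598504)))) (a (b (c (l 16608184) (b (l 16601544) (l 16605672))) (c (l 16615584) (l 16611760))) (a (b (l 16616312) (l 16624336)) (b (l 16623456) (l 16631648))))) (a (a (b (c (l 16595248) (l 16593128)) (l 16600944)) (b (c (l 16608720) (l 16606056)) (l 16614512))) (b (a (c (l 16622792) (l 16619664)) (l 16635896)) (a (a (l 16625056) (l 16632320)) (l 16643584))))) (b (a (a (b (l 16607384) (l 16613648)) (b (l 16621328) (l 16628000))) (a (b (l 16635888) (l 16642912))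 (b (l 16651096) (l 16658448)))) (a (a (l 16622744) (l 16637728)) (a (l 16653208) (l 16669232))))), by decide +kernel⟩

def k4_mm_202 : ∃ t, chk3 f_mm_202 t 6 9 1 = true :=
  ⟨(a (b (a (b (a (b (l 16578968) (l 16584344)) (b (l 16591144) (l 16596760))) (a (l 16613240) (b (l 16602304) (l 16607760)))) (b (a (b (a (l 16600728) (a (l 16605680) (l 16609040))) (l 16609920)) (b (b (l 16616152) (l 16619224)) (a (l 16620248) (l 16658832)))) (a (b (l 16615704) (l 16621408)) (l 16632832)))) (a (b (a (l 16603176) (l 16616424)) (a (l 16616816) (l 16630400))) (b (a (l 16630416) (l 16645144)) (a (l 16665688) (l 16659768))))) (b (a (b (a (b (l 16632096) (l 16648912)) (l 16650528)) (b (a (l 16644720) (l 16660296)) (l 16654616))) (a (b (l 16666568) (a (l 16705232) (l 16705088))) (b (l 16683240) (b (l 16693576) (l 16700448))))) (a (a (b (l 16660600) (l 16675536)) (b (l 16676760) (l 16692000))) (b (b (a (l 16689928) (l 16728320)) (l 16716648)) (a (l 16709136) (l 16726864)))))), by decide +kernel⟩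

def k5_mm_202 : ∃ t, chk3 f_mm_202 t 7 8 1 = true :=
  ⟨(a (b (a (b (a (b (b (a (l 16628712) (l 16636288)) (l 16636768)) (b (l 16640976) (l 16645120))) (a (b (b (l 16644104) (l 16648472)) (l 16654912)) (b (b (l 16652184) (l 16656608)) (l 16663144)))) (a (b (l 16661736) (l 16659232)) (b (a (l 16663304) (l 16671656)) (a (l 16671488) (l 16679960))))) (a (a (b (b (b (l 6) (l 16665008)) (b (l 16669432) (l 16673800))) (b (l 16680256) (l 16688672))) (b (b (l 6) (b (l 16678160) (l 16682584))) (b (l 16689112) (l 16697632)))) (b (b (l 6) (b (l 6) (a (l 16691640) (l 6)))) (b (a (b (l 16696048) (l 16700408)) (b (l 6) (l 16709832))) (a (l 16706848) (l 16724208)))))) (a (a (b (b (l 16667040) (a (l 16670512) (l 16678808))) (b (l 16682168) (l 16689544))) (b (b (a (l 16679480) (l 16688072)) (a (l 16687312) (l 16696016))) (b (l 16699408) (l 16707016)))) (b (a (b (a (l 16696896) (l 16705960)) (a (l 16704944) (l 16735072))) (a (b (l 16715272) (b (l 16721464) (l 16725536))) (b (l 16735328) (l 16733160)))) (a (b (l 16717472)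 (l 16725264)) (b (a (l 16731576) (l 16741312)) (l 16754896)))))) (b (a (b (l 6) (a (b (l 6) (a (b (l 16723936) (l 16728272)) (b (l 6) (l 16748848)))) (l 6))) (l 6)) (a (a (b (b (a (b (l 16732568) (l 16757776)) (a (l 16742256) (l 16747392))) (a (l 16743088) (l 16753280))) (b (a (l 16751304) (c (l 16771768) (l 16771744))) (a (l 16769552) (b (l 16777488) (l 16781488))))) (b (a (b (b (l 16753104) (l 16757400)) (b (l 16761632) (l 16770616))) (a (b (l 16768520) (b (l 16769000) (l 4))) (b (l 6) (l 4)))) (a (a (b (l 16779176) (l 4)) (l 4)) (l 4)))) (b (b (l 6) (l 4)) (l 4))))), by decide +kernel⟩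

def k6_mm_202 : ∃ t, chk3 f_mm_202 t 7 9 1 = true :=
  ⟨(a (b (a (b (a (l 16700424) (b (l 16714512) (l 16721928))) (a (l 16714712) (l 16748672))) (a (b (c (l 16757888) (l 16747024)) (b (l 16748064) (l 16776496))) (b (b (a (l 16747296) (l 16756960)) (a (l 16754888) (l 16764648))) (a (b (l 16762504) (l 4)) (l 4))))) (a (b (b (a (l 16725392) (l 16743920)) (a (l 16753984) (a (l 16746936) (l 16756392)))) (a (l 16755584) (b (a (l 16755000) (l 16785400)) (l 16788712)))) (b (a (b (a (l 16758144) (l 4)) (l 53385116743)) (l 4)) (l 4)))) (a (b (a (b (a (b (l 16775320) (l 4)) (l 4)) (l 4)) (l 4)) (l 4)) (l 4))), by decide +kernel⟩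

def k7_mm_202 : ∃ t, chk3 f_mm_202 t 3 5 1 = true :=
  ⟨(a (b (a (b (a (b (l 16637928) (l 16693928)) (b (a (l 16659416) (l 16674800)) (l 16682000))) (a (b (l 16707880) (l 16679576)) (b (l 16696672) (l 16711024)))) (b (a (b (b (l 16695416) (l 16703184)) (l 16720088)) (b (a (l 16725048) (l 16742976)) (a (l 16761952) (l 16769288)))) (a (b (l 16735464) (a (l 16736352) (l 16753680))) (a (b (l 16756408) (l 4)) (l 4))))) (a (a (b (b (l 16692880) (l 16729056)) (b (l 16723720) (l 16759792))) (b (b (l 16724992) (l 16761360)) (b (a (l 16768832) (l 67880648103)) (l 87744912407)))) (b (a (a (b (l 16750456) (l 69491240103)) (l 4)) (l 4)) (l 4)))) (b (a (a (b (a (b (b (l 16757176) (l 68954281415)) (l 4)) (l 4)) (l 4)) (l 4)) (l 4)) (l 4))), by decide +kernel⟩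

def k8_mm_202 : ∃ t, chk3 f_mm_202 t 1 3 1 = true :=
  ⟨(a (b (a (b (a (b (a (l 16606856) (l 16617648)) (l 16681856)) (b (l 16633896) (l 16661544))) (b (a (a (l 16658776) (l 16670000)) (l 16707344)) (b (a (l 16680984) (l 16702952)) (l 2)))) (b (a (b (l 16699328) (a (l 16677752) (l 16696224))) (b (a (l 16698280) (l 16802704)) (a (l 16790376) (b (l 16771592) (l 55532624647))))) (a (b (a (l 16701896) (l 16768184)) (a (l 16768520) (b (l 16748544) (l 16761328)))) (a (b (b (l 16748832) (l 16782184)) (l 4)) (l 4))))) (a (l 2) (a (l 2) (l 4)))) (b (a (b (a (b (a (b (l 36205237735) (l 73786249751)) (l 4)) (l 4)) (l 4)) (l 4)) (l 4)) (l 4))), by decide +kernel⟩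

theorem s9_mm_202 : ∃ t, chk3 f_mm_202 t 7 4 1 = true := ex3_b k5_mm_202 k6_mm_202

theorem s10_mm_202 : ∃ t, chk3 f_mm_202 t 6 8 1 = true := ex3_a k2_mm_202 k3_mm_202

theorem s11_mm_202 : ∃ t, chk3 f_mm_202 t 6 4 1 = true := ex3_b s10_mm_202 k4_mm_202

theorem s12_mm_202 : ∃ t, chk3 f_mm_202 t 3 4 1 = true := ex3_a s11_mm_202 s9_mm_202

theorem s13_mm_202 : ∃ t, chk3 f_mm_202 t 3 2 1 = true := ex3_b s12_mm_202 k7_mm_202

theorem s14_mm_202 : ∃ t, chk3 f_mm_202 t 2 2 1 = true := ex3_b k0_mm_202 k1_mm_202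

theorem s15_mm_202 : ∃ t, chk3 f_mm_202 t 1 2 1 = true := ex3_a s14_mm_202 s13_mm_202

theorem s16_mm_202 : ∃ t, chk3 f_mm_202 t 1 1 1 = true := ex3_b s15_mm_202 k8_mm_202

theorem c_mm_202 : CertB 0 536870912 0 536870912 587336777 62277027 3 eng mog cd0q2 cd1q0 pd2 true false false .pp 2 0 2
    ndB0q2 ndB1q0 pcB2 cut_mm_202 Ext.none :=
  certB0 (fam := true) (s1 := false) (s2 := false) (a := 2) (b := 0) (c := 2) (cn := .pp) (n1 := ndB0q2) (n2 := ndB1q0) (pc := pcB2) (cut := cut_mm_202) (xt := Ext.none) (P1 := 0) (W1 := 536870912) (P2 := 0) (W2 := 536870912) (P3 := 587336777) (W3 := 62277027) (N0 := 3) (En := eng) (mo := mog) (C1 := cd0q2) (C2 := cd1q0) (C3 := pd2)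
    rfl s16_mm_202

noncomputable def f_mm_203 : ℕ → ℕ → ℕ → ℕ → Bool := onCell 0 536870912 1610612736 536870912 587336777 62277027
    (rowB 3 eng mog cd0q2 cd1q0 pd3 1 true false false .up 2 0 3 (qsf 0 536870912 0 536870912 3) ndB0q2 ndB1q0 pcB3 Cut.none Ext.none)

def k0_mm_203 : ∃ t, chk3 f_mm_203 t 1 1 1 = true :=
  ⟨(b (a (b (a (b (a (b (l 16684328) (l 16686920)) (b (a (l 16703616) (l 16715920)) (a (l 16716224) (l 16766528)))) (b (a (l 16717896) (a (l 16752176) (l 30299722631))) (a (a (l 16740704) (l 16759696)) (b (l 28152221111) (l 74323145927))))) (b (a (b (a (l 16782688) (a (l 16805048) (l 4))) (a (b (l 16763848) (l 16774152)) (l 4))) (l 4)) (l 4))) (b (a (a (b (a (l 16765312) (l 16777576)) (l 2)) (l 4)) (l 4)) (l 2))) (l 4)) (l 2)), by decide +kernel⟩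

theorem c_mm_203 : CertB 0 536870912 0 536870912 587336777 62277027 3 eng mog cd0q2 cd1q0 pd3 true false false .up 2 0 3
    ndB0q2 ndB1q0 pcB3 Cut.none Ext.none :=
  certB1 (fam := true) (s1 := false) (s2 := false) (a := 2) (b := 0) (c := 3) (cn := .up) (n1 := ndB0q2) (n2 := ndB1q0) (pc := pcB3) (cut := Cut.none) (xt := Ext.none) (P1 := 0) (W1 := 536870912) (P2 := 0) (W2 := 536870912) (P3 := 587336777) (W3 := 62277027) (N0 := 3) (En := eng) (mo := mog) (C1 := cd0q2) (C2 := cd1q0) (C3 := pd3)
    rfl (fun _ => rfl) k0_mm_203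

noncomputable def f_mm_213 : ℕ → ℕ → ℕ → ℕ → Bool := onCell 0 536870912 536870912 536870912 587336777 62277027
    (rowB 3 eng mog cd0q2 cd1q1 pd3 0 true false false .pnn 2 1 3 (qsf 0 536870912 536870912 536870912 3) ndB0q2 ndB1q1 pcB3 Cut.none Ext.none)

def k0_mm_213 : ∃ t, chk3 f_mm_213 t 1 1 1 = true :=
  ⟨(a (b (b (a (b (a (b (a (l 16825088) (b (l 16784792) (l 4))) (a (l 127473264599) (l 4))) (l 4)) (l 4)) (l 4)) (l 4)) (l 4)) (l 4)), by decide +kernel⟩

theorem c_mm_213 : CertB 0 536870912 536870912 536870912 587336777 62277027 3 eng mog cd0q2 cd1q1 pd3 true false false .pnn 2 1 3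
    ndB0q2 ndB1q1 pcB3 Cut.none Ext.none :=
  certB0 (fam := true) (s1 := false) (s2 := false) (a := 2) (b := 1) (c := 3) (cn := .pnn) (n1 := ndB0q2) (n2 := ndB1q1) (pc := pcB3) (cut := Cut.none) (xt := Ext.none) (P1 := 0) (W1 := 536870912) (P2 := 536870912) (W2 := 536870912) (P3 := 587336777) (W3 := 62277027) (N0 := 3) (En := eng) (mo := mog) (C1 := cd0q2) (C2 := cd1q1) (C3 := pd3)
    rfl k0_mm_213

end Pool.Agent.Strip051.G.I5470_6050.Tab.C.BA01

namespace Pool.Agent.Strip051.G.I5470_6050.Tab.C.BA02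

open Pool.Agent.Strip051.PB Pool.Agent.Strip051.PB.T
open Pool.Agent.Strip051.G.I5470_6050.Tab

noncomputable def f_pp_001 : ℕ → ℕ → ℕ → ℕ → Bool := onCell 0 536870912 0 536870912 587336777 62277027
    (rowB 3 eng mog cd0q0 cd2q0 pd1 0 true true true .up 0 0 1 (qsf 0 536870912 0 536870912 1) ndB0q0 ndB2q0 pcB1 Cut.none Ext.none)

def k0_pp_001 : ∃ t, chk3 f_pp_001 t 1 1 1 = true :=
  ⟨(l 4), by decide +kernel⟩

theorem c_pp_001 : CertB 0 536870912 0 536870912 587336777 62277027 3 eng mog cd0q0 cd2q0 pd1 true true true .up 0 0 1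
    ndB0q0 ndB2q0 pcB1 Cut.none Ext.none :=
  certB0 (fam := true) (s1 := true) (s2 := true) (a := 0) (b := 0) (c := 1) (cn := .up) (n1 := ndB0q0) (n2 := ndB2q0) (pc := pcB1) (cut := Cut.none) (xt := Ext.none) (P1 := 0) (W1 := 536870912) (P2 := 0) (W2 := 536870912) (P3 := 587336777) (W3 := 62277027) (N0 := 3) (En := eng) (mo := mog) (C1 := cd0q0) (C2 := cd2q0) (C3 := pd1)
    rfl k0_pp_001

noncomputable def f_pp_011 : ℕ → ℕ → ℕ → ℕ → Bool := onCell 0 536870912 536870912 536870912 587336777 62277027
    (rowB 3 eng mog cd0q0 cd2q1 pd1 0 true true true .pnn 0 1 1 (qsf 0 536870912 536870912 536870912 1) ndB0q0 ndB2q1 pcB1 Cut.none Ext.none)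

def k0_pp_011 : ∃ t, chk3 f_pp_011 t 1 1 1 = true :=
  ⟨(l 4), by decide +kernel⟩

theorem c_pp_011 : CertB 0 536870912 536870912 536870912 587336777 62277027 3 eng mog cd0q0 cd2q1 pd1 true true true .pnn 0 1 1
    ndB0q0 ndB2q1 pcB1 Cut.none Ext.none :=
  certB0 (fam := true) (s1 := true) (s2 := true) (a := 0) (b := 1) (c := 1) (cn := .pnn) (n1 := ndB0q0) (n2 := ndB2q1) (pc := pcB1) (cut := Cut.none) (xt := Ext.none) (P1 := 0) (W1 := 536870912) (P2 := 536870912) (W2 := 536870912) (P3 := 587336777) (W3 := 62277027) (N0 := 3) (En := eng) (mo := mog) (C1 := cd0q0) (C2 := cd2q1) (C3 := pd1)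
    rfl k0_pp_011

noncomputable def f_pp_012 : ℕ → ℕ → ℕ → ℕ → Bool := onCell 0 536870912 536870912 536870912 587336777 62277027
    (rowB 3 eng mog cd0q0 cd2q1 pd2 0 true true true .pnp 0 1 2 (qsf 0 536870912 536870912 536870912 2) ndB0q0 ndB2q1 pcB2 Cut.none Ext.none)

def k0_pp_012 : ∃ t, chk3 f_pp_012 t 1 1 1 = true :=
  ⟨(l 4), by decide +kernel⟩

theorem c_pp_012 : CertB 0 536870912 536870912 536870912 587336777 62277027 3 eng mog cd0q0 cd2q1 pd2 true true true .pnp 0 1 2
    ndB0q0 ndB2q1 pcB2 Cut.none Ext.none :=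
  certB0 (fam := true) (s1 := true) (s2 := true) (a := 0) (b := 1) (c := 2) (cn := .pnp) (n1 := ndB0q0) (n2 := ndB2q1) (pc := pcB2) (cut := Cut.none) (xt := Ext.none) (P1 := 0) (W1 := 536870912) (P2 := 536870912) (W2 := 536870912) (P3 := 587336777) (W3 := 62277027) (N0 := 3) (En := eng) (mo := mog) (C1 := cd0q0) (C2 := cd2q1) (C3 := pd2)
    rfl k0_pp_012

noncomputable def cut_pp_022_a : Cut := Cut.of [[⟨0, 0, 0, 67108864⟩, ⟨1, 1, 0, 67108864⟩, ⟨2, 1, 0, 67108864⟩]]

noncomputable def f_pp_022_a : ℕ → ℕ → ℕ → ℕ → Bool := onCell 0 536870912 0 536870912 587336777 62277027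
    (rowB 3 eng mog cd0q0 cd2q2a pd2 0 true true true .pp 0 2 2 (qsf 0 536870912 0 536870912 2) ndB0q0 ndB2q2a pcB2 cut_pp_022_a Ext.none)

def k0_pp_022_a : ∃ t, chk3 f_pp_022_a t 4 2 1 = true :=
  ⟨(a (b (a (b (a (b (l 16457136) (l 16459720)) (b (l 16465168) (l 16468296))) (a (b (l 16464608) (l 16471864)) (b (l 16473712) (a (l 16479040) (l 16483864))))) (b (l 16504616) (a (b (l 16482408) (l 16490808)) (l 16495472)))) (a (b (a (b (l 16481536) (l 16504184)) (a (b (l 16489000) (l 16501440)) (b (l 16515080) (b (l 16503256) (l 16510200))))) (a (b (a (l 16505824) (l 16511072)) (b (l 16521104) (l 16530472))) (b (b (l 16504552) (l 16512768)) (b (l 16532144) (l 16541712))))) (b (a (b (l 16501592) (a (c (l 16514040) (l 16531608)) (l 16517408))) (b (l 16511312) (l 16567160))) (a (a (b (c (l 16571120) (l 16568248)) (l 16545632)) (b (c (l 16555856) (l 16573848)) (b (l 16567592) (l 16556440)))) (a (b (l 16538816) (b (l 16552504) (l 16604440))) (b (l 16544368) (l 16563464))))))) (b (a (b (l 16493392) (b (l 16503344)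 (l 16513352))) (b (l 16509480) (l 16568840))) (a (b (a (a (l 16578376) (l 16572936)) (b (l 16530768) (l 16546056))) (a (b (l 16594656) (a (l 16611344) (l 16575344))) (b (l 16563880) (l 16594752)))) (b (a (l 16590712) (l 16601808)) (a (b (l 16575120) (l 16596248)) (b (l 16586568) (l 16608384))))))), by decide +kernel⟩

def k1_pp_022_a : ∃ t, chk3 f_pp_022_a t 4 6 1 = true :=
  ⟨(a (b (a (b (a (b (l 16540536) (l 16550992)) (b (l 16551976) (l 16562960))) (a (b (l 16562024) (l 16573680)) (b (l 16574664) (l 16587056)))) (a (b (b (l 16563904) (l 16575096)) (b (l 16587016) (l 16599664))) (b (a (b (l 16615088) (l 16584496)) (b (l 16600352) (l 16590888))) (b (l 16605056) (l 16612688))))) (a (b (b (a (l 16585976) (l 16599856)) (a (l 16598904) (l 16613304))) (a (a (b (l 16608640) (l 16622776)) (l 16631416)) (b (l 16627416) (l 16652688)))) (b (a (c (l 16641208) (l 16641192)) (a (l 16630160) (l 16657920))) (a (b (l 16641792) (l 16667560)) (b (l 16676832) (l 16692640)))))) (b (b (a (a (c (l 16595584) (l 16593832))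 (b (l 16601144) (l 16613312))) (a (l 16640968) (l 16653856))) (b (a (a (a (l 16609680) (l 16616264)) (l 16626160)) (a (l 16639432) (l 16652880))) (a (a (a (l 16622744) (l 16629520)) (l 16639680)) (a (l 16653320) (l 16667136))))) (a (b (a (a (l 16664824) (b (l 16643472) (l 16658160))) (a (b (l 16650432) (l 16686240)) (l 16675424))) (a (b (l 16680496) (a (l 16682528) (l 16689816))) (b (a (l 16680848) (c (l 16709448) (l 16708792))) (a (l 16697176) (c (l 16725808) (l 16725328)))))) (b (a (b (l 16667896) (l 16693656)) (b (l 16703048) (l 16708184))) (a (b (b (l 16695064) (l 16724200)) (a (b (l 16728808) (c (l 16737504) (l 16737048))) (c (l 16730288) (l 16719352)))) (a (b (l 16710272) (c (l 16737688) (l 16737408))) (b (l 16728200) (a (l 16741248) (l 4))))))))), by decide +kernel⟩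

def k2_pp_022_a : ∃ t, chk3 f_pp_022_a t 8 14 1 = true :=
  ⟨(a (a (b (b (a (l 16637608) (l 16645792)) (a (l 16674160) (l 16677360))) (b (a (a (l 6) (l 16672152)) (c (l 16690096) (l 16698504))) (a (l 6) (b (l 16702416) (l 6))))) (b (b (a (l 16674744) (b (l 16657568) (l 16665552))) (a (b (l 16665712) (l 16673984)) (c (l 16699584) (l 16698160)))) (b (a (a (l 16684920) (l 16710056)) (b (l 16690784) (l 16720656))) (a (b (l 16710944) (a (l 6) (l 16711856))) (b (a (l 16706736) (l 16710872)) (a (l 16716072) (l 16730728))))))) (b (b (a (a (l 16669248) (l 16676832)) (a (l 16684360) (l 16691856))) (a (a (l 16685840) (l 16704144)) (a (l 16711888) (l 16719600)))) (b (a (a (l 16712512) (c (l 16722104) (l 16721480))) (a (a (l 16727728) (l 16731656)) (b (l 16722456) (l 16742112)))) (a (a (a (l 16727552) (a (l 16733240) (l 16730032))) (b (l 16735584) (c (l 16739960) (l 16734472)))) (a (b (l 16743576) (a (l 16740648) (l 16749816))) (a (b (l 16739040) (c (l 16753760) (l 16753664))) (b (l 16748136) (c (l 16757624) (l 16757568))))))))),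 by decide +kernel⟩

def k3_pp_022_a : ∃ t, chk3 f_pp_022_a t 8 15 1 = true :=
  ⟨(a (b (a (l 6) (b (a (l 6) (a (b (l 16736128) (l 6)) (a (b (l 16728800) (l 16749128)) (b (l 16741376) (b (l 16738248) (l 16743248)))))) (l 6))) (l 6)) (b (a (b (a (b (b (l 16733648) (l 16743784)) (a (l 16749152) (c (l 16753384) (l 16753264)))) (b (a (l 16747520) (c (l 16751608) (l 16746352))) (a (b (l 16749696) (c (l 16759888) (l 16754648))) (b (l 16758920) (l 4))))) (a (a (b (b (l 16751504) (l 6)) (l 6)) (b (b (c (l 16760864) (l 16760864)) (c (l 16763192) (l 16763152))) (l 4))) (b (a (b (c (l 16762152) (l 16762104)) (l 4)) (l 4)) (l 4)))) (b (b (a (a (b (l 16747832) (l 16757952)) (b (l 16757016) (l 4))) (l 4)) (l 4)) (l 4))) (l 4))), by decide +kernel⟩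

def k4_pp_022_a : ∃ t, chk3 f_pp_022_a t 9 7 1 = true :=
  ⟨(b (a (b (a (b (a (l 16699336) (l 16717288)) (a (c (l 16727424) (l 16727184)) (b (l 16719992) (l 16739448)))) (b (a (l 16724776) (c (l 16732464) (l 16732152))) (a (b (l 16727608) (a (l 16734736) (l 16738568))) (b (l 16745744) (l 4))))) (a (b (b (a (l 16740736) (c (l 16748512) (l 16748424))) (a (b (l 16747592) (l 16752200)) (a (l 16750456) (l 4)))) (b (a (a (a (l 16756304) (l 16753016)) (l 4)) (l 4)) (l 4))) (b (a (a (b (l 16748984) (l 4)) (l 4)) (l 4)) (l 4)))) (b (a (b (a (b (c (l 16735648) (l 16735280)) (l 16744344)) (b (a (l 16741168) (l 4)) (l 4))) (l 4)) (l 4)) (l 4))) (l 4)), by decide +kernel⟩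

def k5_pp_022_a : ∃ t, chk3 f_pp_022_a t 5 1 1 = true :=
  ⟨(b (a (b (a (b (l 16530392) (l 16592360)) (b (l 16574600) (a (l 16569440) (l 16604184)))) (a (b (a (l 16614664) (l 16628128)) (a (b (l 16600064) (l 16621848)) (b (l 16614184) (l 16657288)))) (b (a (l 16626368) (b (l 16605576) (l 16623688))) (a (b (l 16628880) (l 16672344)) (b (l 16644056) (l 16687888)))))) (b (a (b (l 16585976) (a (l 16599768) (l 16617032))) (b (l 16661672) (a (l 16675920) (l 16671432)))) (b (a (a (b (l 16621568) (l 16702280)) (b (l 16659736) (l 16677280))) (b (a (l 16655688) (l 16672192)) (a (l 16694152) (l 16710632)))) (a (a (b (a (l 16676712) (l 16684760)) (b (l 16697792) (l 16688968))) (a (b (l 16693120) (a (l 16714072) (l 16718224))) (b (l 16701584) (b (l 16697496) (l 16730720))))) (b (a (l 16693160) (b (l 16704288) (l 14730345847))) (b (a (l 16746880) (a (l 16749344) (l 4))) (a (a (l 16739456) (l 4)) (l 4)))))))) (b (a (b (a (a (b (l 16667344) (a (l 16691416) (l 16698432))) (b (l 16682088) (a (l 16705904) (l 16713504))))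 (b (a (c (l 16697728) (l 16696984)) (b (l 16685584) (l 16698944))) (a (b (l 16696920) (a (l 16707648) (l 16736848))) (b (a (l 16709048) (l 75396683479)) (l 4))))) (a (b (a (b (l 16717496) (a (l 16708760) (l 16726592))) (b (a (l 16707512) (l 16736296)) (a (c (l 16745072) (l 39963261191)) (l 4)))) (a (b (a (c (l 16746136) (l 16745944)) (l 4)) (l 4)) (l 4))) (b (a (b (a (l 41037006647) (l 4)) (l 4)) (l 4)) (l 4)))) (b (a (b (b (a (l 16701800) (a (l 16735488) (b (l 51774428151) (l 4)))) (a (a (l 16732352) (l 51774419847)) (l 4))) (l 4)) (l 4)) (l 4))) (l 4))), by decide +kernel⟩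

def k6_pp_022_a : ∃ t, chk3 f_pp_022_a t 3 1 1 = true :=
  ⟨(b (b (a (a (a (b (l 16693336) (a (l 16708360) (l 16723728))) (b (l 16722496) (a (l 16738480) (l 16752584)))) (a (b (b (l 16702016) (l 16754152)) (b (a (l 16717512) (l 16730192)) (a (l 16751968) (a (l 16762080) (l 16779408))))) (a (b (l 16745880) (b (l 28689031879) (b (l 43184558887) (l 4)))) (l 2)))) (l 2)) (a (a (b (a (a (b (l 16688184) (l 16726624)) (b (l 16703624) (b (l 16716480) (l 35668324567)))) (b (a (l 16739464) (b (l 16728736) (l 37278954711))) (a (b (l 40500172535) (l 4)) (l 4)))) (a (b (a (b (l 34057708887) (l 74859911191)) (b (l 4) (l 4))) (l 4)) (l 4))) (b (a (b (a (b (l 46942641063) (l 4)) (l 4)) (l 4)) (l 4)) (l 4))) (l 4))) (l 4)), by decide +kernel⟩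

theorem s7_pp_022_a : ∃ t, chk3 f_pp_022_a t 8 7 1 = true := ex3_b k2_pp_022_a k3_pp_022_a

theorem s8_pp_022_a : ∃ t, chk3 f_pp_022_a t 4 7 1 = true := ex3_a s7_pp_022_a k4_pp_022_a

theorem s9_pp_022_a : ∃ t, chk3 f_pp_022_a t 4 3 1 = true := ex3_b k1_pp_022_a s8_pp_022_a

theorem s10_pp_022_a : ∃ t, chk3 f_pp_022_a t 4 1 1 = true := ex3_b k0_pp_022_a s9_pp_022_a

theorem s11_pp_022_a : ∃ t, chk3 f_pp_022_a t 2 1 1 = true := ex3_a s10_pp_022_a k5_pp_022_a

theorem s12_pp_022_a : ∃ t, chk3 f_pp_022_a t 1 1 1 = true := ex3_a s11_pp_022_a k6_pp_022_a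

theorem c_pp_022_a : CertB 0 536870912 0 536870912 587336777 62277027 3 eng mog cd0q0 cd2q2a pd2 true true true .pp 0 2 2
    ndB0q0 ndB2q2a pcB2 cut_pp_022_a Ext.none :=
  certB0 (fam := true) (s1 := true) (s2 := true) (a := 0) (b := 2) (c := 2) (cn := .pp) (n1 := ndB0q0) (n2 := ndB2q2a) (pc := pcB2) (cut := cut_pp_022_a) (xt := Ext.none) (P1 := 0) (W1 := 536870912) (P2 := 0) (W2 := 536870912) (P3 := 587336777) (W3 := 62277027) (N0 := 3) (En := eng) (mo := mog) (C1 := cd0q0) (C2 := cd2q2a) (C3 := pd2)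
    rfl s12_pp_022_a

noncomputable def cut_pp_022_b : Cut := Cut.of [[⟨0, 0, 0, 67108864⟩, ⟨1, 1, 0, 67108864⟩, ⟨2, 1, 0, 67108864⟩]]

noncomputable def f_pp_022_b : ℕ → ℕ → ℕ → ℕ → Bool := onCell 1073741824 536870912 1239849684 370763052 587336777 62277027
    (rowB 3 eng mog cd0q0 cd2q2b pd2 2 true true true .pp 0 2 2 (qsf 0 536870912 1239849684 370763052 2) ndB0q0 ndB2q2b pcB2 cut_pp_022_b Ext.none)

def k0_pp_022_b : ∃ t, chk3 f_pp_022_b t 1 1 1 = true :=
  ⟨(a (a (l 1) (b (b (a (b (a (b (l 16502304) (l 1)) (b (a (b (l 16443688) (l 16416168)) (l 16437808)) (a (l 1) (l 16382512)))) (l 1)) (b (a (b (l 16469240) (l 16393168)) (b (l 16461400) (l 16407440))) (a (b (l 16337096) (l 1)) (l 16417624)))) (a (l 1) (a (l 1) (b (l 16238224) (l 1))))) (l 1))) (a (b (b (a (b (a (b (l 16478784) (l 16426408)) (l 16536696)) (a (l 16368024) (l 16390752))) (a (b (a (l 16490856) (l 16505272)) (a (l 16388952) (l 16446968))) (b (b (l 16556232) (l 16551192)) (b (l 16460472) (l 16410568))))) (a (b (a (l 16271448) (l 16369064))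 (a (l 1) (l 16240920))) (a (b (a (l 16284288) (l 16301392)) (l 16313496)) (b (b (l 16359880) (l 16308632)) (l 16231600))))) (a (l 1) (b (a (b (l 16164392) (l 1)) (b (l 16128184) (l 16021896))) (l 1)))) (b (b (a (a (b (b (l 16633056) (l 16546712)) (b (l 16500384) (l 16452608))) (b (b (l 16644888) (l 16582408)) (l 16579352))) (b (a (b (l 16675120) (l 16615560)) (b (l 16723512) (l 16645856))) (a (l 16595984) (l 16672600)))) (a (b (a (l 16379264) (l 16423688)) (a (l 16279648) (l 16327952))) (b (a (l 16466336) (l 16506392)) (a (l 16374752) (l 16419408))))) (a (b (a (b (l 16179480) (l 16078432)) (b (l 16230912) (l 16133856))) (a (l 1) (b (l 16035640) (l 1)))) (b (b (a (l 16281416) (l 16329592)) (a (l 16187504) (l 16238864))) (a (l 16047056) (l 16104208))))))), by decide +kernel⟩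

theorem c_pp_022_b : CertB 0 536870912 1239849684 370763052 587336777 62277027 3 eng mog cd0q0 cd2q2b pd2 true true true .pp 0 2 2
    ndB0q0 ndB2q2b pcB2 cut_pp_022_b Ext.none :=
  certB2 (fam := true) (s1 := true) (s2 := true) (a := 0) (b := 2) (c := 2) (cn := .pp) (n1 := ndB0q0) (n2 := ndB2q2b) (pc := pcB2) (cut := cut_pp_022_b) (xt := Ext.none) (P1 := 0) (W1 := 536870912) (P2 := 1239849684) (W2 := 370763052) (P3 := 587336777) (W3 := 62277027) (N0 := 3) (En := eng) (mo := mog) (C1 := cd0q0) (C2 := cd2q2b) (C3 := pd2)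
    rfl (fun _ => rfl) k0_pp_022_b

noncomputable def f_pp_023_a : ℕ → ℕ → ℕ → ℕ → Bool := onCell 1610612736 536870912 0 536870912 587336777 62277027
    (rowB 3 eng mog cd0q0 cd2q2a pd3 2 true true true .up 0 2 3 (qsf 0 536870912 0 536870912 3) ndB0q0 ndB2q2a pcB3 Cut.none Ext.none)

def k0_pp_023_a : ∃ t, chk3 f_pp_023_a t 1 1 1 = true :=
  ⟨(b (a (b (a (a (a (b (a (l 16747672) (b (l 16729952) (l 16763224))) (b (a (b (l 16742200) (l 29762783847)) (b (l 32447139815) (l 4))) (l 4))) (b (a (b (l 16738704) (a (l 16749848) (l 16776152))) (b (l 16768184) (b (a (l 16755936) (l 16776960)) (l 4)))) (b (l 4) (l 4)))) (a (b (b (a (a (l 16753152) (b (l 16754144) (l 74859934695))) (b (a (l 53921930999) (l 89892277015)) (l 4))) (l 4)) (l 4)) (l 4))) (l 4)) (l 4)) (l 2)) (l 4)), by decide +kernel⟩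

theorem c_pp_023_a : CertB 0 536870912 0 536870912 587336777 62277027 3 eng mog cd0q0 cd2q2a pd3 true true true .up 0 2 3
    ndB0q0 ndB2q2a pcB3 Cut.none Ext.none :=
  certB2 (fam := true) (s1 := true) (s2 := true) (a := 0) (b := 2) (c := 3) (cn := .up) (n1 := ndB0q0) (n2 := ndB2q2a) (pc := pcB3) (cut := Cut.none) (xt := Ext.none) (P1 := 0) (W1 := 536870912) (P2 := 0) (W2 := 536870912) (P3 := 587336777) (W3 := 62277027) (N0 := 3) (En := eng) (mo := mog) (C1 := cd0q0) (C2 := cd2q2a) (C3 := pd3)
    rfl (fun _ => rfl) k0_pp_023_a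

noncomputable def f_pp_023_b : ℕ → ℕ → ℕ → ℕ → Bool := onCell 1610612736 536870912 1239849684 370763052 587336777 62277027
    (rowB 3 eng mog cd0q0 cd2q2b pd3 2 true true true .up 0 2 3 (qsf 0 536870912 1239849684 370763052 3) ndB0q0 ndB2q2b pcB3 Cut.none Ext.none)

def k0_pp_023_b : ∃ t, chk3 f_pp_023_b t 1 1 1 = true :=
  ⟨(a (a (b (a (b (b (a (b (a (l 16700192) (l 16709160)) (l 16692672)) (b (a (l 16718048) (l 16747576)) (l 16734048))) (a (l 16681712) (b (l 16660152) (l 16626384)))) (a (b (l 16542064) (l 16459560)) (b (l 16572696) (l 16496240)))) (b (b (a (b (a (b (l 16762800) (l 16728160)) (a (l 16762776) (b (l 16774288) (l 16740800)))) (a (l 16706968) (l 16718400))) (l 4)) (a (b (l 16684688) (l 16654768)) (l 4))) (a (b (l 16607024) (l 4)) (l 4)))) (a (b (a (l 16455784) (b (l 16414952) (l 16331048))) (a (l 16154696) (l 16203792))) (l 4))) (l 4)) (l 4)), by decide +kernel⟩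

theorem c_pp_023_b : CertB 0 536870912 1239849684 370763052 587336777 62277027 3 eng mog cd0q0 cd2q2b pd3 true true true .up 0 2 3
    ndB0q0 ndB2q2b pcB3 Cut.none Ext.none :=
  certB2 (fam := true) (s1 := true) (s2 := true) (a := 0) (b := 2) (c := 3) (cn := .up) (n1 := ndB0q0) (n2 := ndB2q2b) (pc := pcB3) (cut := Cut.none) (xt := Ext.none) (P1 := 0) (W1 := 536870912) (P2 := 1239849684) (W2 := 370763052) (P3 := 587336777) (W3 := 62277027) (N0 := 3) (En := eng) (mo := mog) (C1 := cd0q0) (C2 := cd2q2b) (C3 := pd3)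
    rfl (fun _ => rfl) k0_pp_023_b

noncomputable def f_pp_033 : ℕ → ℕ → ℕ → ℕ → Bool := onCell 0 536870912 1610612736 536870912 587336777 62277027
    (rowB 3 eng mog cd0q0 cd2q3 pd3 1 true true true .pnn 0 3 3 (qsf 0 536870912 1610612736 536870912 3) ndB0q0 ndB2q3 pcB3 Cut.none Ext.none)

def k0_pp_033 : ∃ t, chk3 f_pp_033 t 1 1 1 = true :=
  ⟨(b (b (a (b (a (b (l 210486182711) (l 97206438151)) (l 1)) (l 4)) (l 1)) (l 4)) (l 4)), by decide +kernel⟩

theorem c_pp_033 : CertB 0 536870912 1610612736 536870912 587336777 62277027 3 eng mog cd0q0 cd2q3 pd3 true true true .pnn 0 3 3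
    ndB0q0 ndB2q3 pcB3 Cut.none Ext.none :=
  certB1 (fam := true) (s1 := true) (s2 := true) (a := 0) (b := 3) (c := 3) (cn := .pnn) (n1 := ndB0q0) (n2 := ndB2q3) (pc := pcB3) (cut := Cut.none) (xt := Ext.none) (P1 := 0) (W1 := 536870912) (P2 := 1610612736) (W2 := 536870912) (P3 := 587336777) (W3 := 62277027) (N0 := 3) (En := eng) (mo := mog) (C1 := cd0q0) (C2 := cd2q3) (C3 := pd3)
    rfl (fun _ => rfl) k0_pp_033

noncomputable def f_pp_101 : ℕ → ℕ → ℕ → ℕ → Bool := onCell 536870912 536870912 0 536870912 587336777 62277027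
    (rowB 3 eng mog cd0q1 cd2q0 pd1 0 true true true .npn 1 0 1 (qsf 536870912 536870912 0 536870912 1) ndB0q1 ndB2q0 pcB1 Cut.none Ext.none)

def k0_pp_101 : ∃ t, chk3 f_pp_101 t 1 1 1 = true :=
  ⟨(l 5), by decide +kernel⟩

theorem c_pp_101 : CertB 536870912 536870912 0 536870912 587336777 62277027 3 eng mog cd0q1 cd2q0 pd1 true true true .npn 1 0 1
    ndB0q1 ndB2q0 pcB1 Cut.none Ext.none :=
  certB0 (fam := true) (s1 := true) (s2 := true) (a := 1) (b := 0) (c := 1) (cn := .npn) (n1 := ndB0q1) (n2 := ndB2q0) (pc := pcB1) (cut := Cut.none) (xt := Ext.none) (P1 := 536870912) (W1 := 536870912) (P2 := 0) (W2 := 536870912) (P3 := 587336777) (W3 := 62277027) (N0 := 3) (En := eng) (mo := mog) (C1 := cd0q1) (C2 := cd2q0) (C3 := pd1)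
    rfl k0_pp_101

noncomputable def f_pp_102 : ℕ → ℕ → ℕ → ℕ → Bool := onCell 536870912 536870912 0 536870912 587336777 62277027
    (rowB 3 eng mog cd0q1 cd2q0 pd2 0 true true true .npp 1 0 2 (qsf 536870912 536870912 0 536870912 2) ndB0q1 ndB2q0 pcB2 Cut.none Ext.none)

def k0_pp_102 : ∃ t, chk3 f_pp_102 t 1 1 1 = true :=
  ⟨(l 5), by decide +kernel⟩

theorem c_pp_102 : CertB 536870912 536870912 0 536870912 587336777 62277027 3 eng mog cd0q1 cd2q0 pd2 true true true .npp 1 0 2
    ndB0q1 ndB2q0 pcB2 Cut.none Ext.none :=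
  certB0 (fam := true) (s1 := true) (s2 := true) (a := 1) (b := 0) (c := 2) (cn := .npp) (n1 := ndB0q1) (n2 := ndB2q0) (pc := pcB2) (cut := Cut.none) (xt := Ext.none) (P1 := 536870912) (W1 := 536870912) (P2 := 0) (W2 := 536870912) (P3 := 587336777) (W3 := 62277027) (N0 := 3) (En := eng) (mo := mog) (C1 := cd0q1) (C2 := cd2q0) (C3 := pd2)
    rfl k0_pp_102

noncomputable def f_pp_112 : ℕ → ℕ → ℕ → ℕ → Bool := onCell 536870912 536870912 536870912 536870912 587336777 62277027
    (rowB 3 eng mog cd0q1 cd2q1 pd2 0 true true true .dn 1 1 2 (qsf 536870912 536870912 536870912 536870912 2) ndB0q1 ndB2q1 pcB2 Cut.none Ext.none)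

def k0_pp_112 : ∃ t, chk3 f_pp_112 t 1 1 1 = true :=
  ⟨(l 4), by decide +kernel⟩

theorem c_pp_112 : CertB 536870912 536870912 536870912 536870912 587336777 62277027 3 eng mog cd0q1 cd2q1 pd2 true true true .dn 1 1 2
    ndB0q1 ndB2q1 pcB2 Cut.none Ext.none :=
  certB0 (fam := true) (s1 := true) (s2 := true) (a := 1) (b := 1) (c := 2) (cn := .dn) (n1 := ndB0q1) (n2 := ndB2q1) (pc := pcB2) (cut := Cut.none) (xt := Ext.none) (P1 := 536870912) (W1 := 536870912) (P2 := 536870912) (W2 := 536870912) (P3 := 587336777) (W3 := 62277027) (N0 := 3) (En := eng) (mo := mog) (C1 := cd0q1) (C2 := cd2q1) (C3 := pd2)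
    rfl k0_pp_112

noncomputable def f_pp_113 : ℕ → ℕ → ℕ → ℕ → Bool := onCell 536870912 536870912 536870912 536870912 587336777 62277027
    (rowB 3 eng mog cd0q1 cd2q1 pd3 0 true true true .nn 1 1 3 (qsf 536870912 536870912 536870912 536870912 3) ndB0q1 ndB2q1 pcB3 Cut.none Ext.none)

def k0_pp_113 : ∃ t, chk3 f_pp_113 t 1 1 1 = true :=
  ⟨(l 4), by decide +kernel⟩

theorem c_pp_113 : CertB 536870912 536870912 536870912 536870912 587336777 62277027 3 eng mog cd0q1 cd2q1 pd3 true true true .nn 1 1 3
    ndB0q1 ndB2q1 pcB3 Cut.none Ext.none :=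
  certB0 (fam := true) (s1 := true) (s2 := true) (a := 1) (b := 1) (c := 3) (cn := .nn) (n1 := ndB0q1) (n2 := ndB2q1) (pc := pcB3) (cut := Cut.none) (xt := Ext.none) (P1 := 536870912) (W1 := 536870912) (P2 := 536870912) (W2 := 536870912) (P3 := 587336777) (W3 := 62277027) (N0 := 3) (En := eng) (mo := mog) (C1 := cd0q1) (C2 := cd2q1) (C3 := pd3)
    rfl k0_pp_113

noncomputable def f_pp_123_a : ℕ → ℕ → ℕ → ℕ → Bool := onCell 536870912 536870912 0 536870912 587336777 62277027
    (rowB 3 eng mog cd0q1 cd2q2a pd3 0 true true true .npn 1 2 3 (qsf 536870912 536870912 0 536870912 3) ndB0q1 ndB2q2a pcB3 Cut.none Ext.none)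

def k0_pp_123_a : ∃ t, chk3 f_pp_123_a t 1 1 1 = true :=
  ⟨(a (l 4) (l 4)), by decide +kernel⟩

theorem c_pp_123_a : CertB 536870912 536870912 0 536870912 587336777 62277027 3 eng mog cd0q1 cd2q2a pd3 true true true .npn 1 2 3
    ndB0q1 ndB2q2a pcB3 Cut.none Ext.none :=
  certB0 (fam := true) (s1 := true) (s2 := true) (a := 1) (b := 2) (c := 3) (cn := .npn) (n1 := ndB0q1) (n2 := ndB2q2a) (pc := pcB3) (cut := Cut.none) (xt := Ext.none) (P1 := 536870912) (W1 := 536870912) (P2 := 0) (W2 := 536870912) (P3 := 587336777) (W3 := 62277027) (N0 := 3) (En := eng) (mo := mog) (C1 := cd0q1) (C2 := cd2q2a) (C3 := pd3)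
    rfl k0_pp_123_a

noncomputable def f_pp_123_b : ℕ → ℕ → ℕ → ℕ → Bool := onCell 536870912 536870912 1239849684 370763052 587336777 62277027
    (rowB 3 eng mog cd0q1 cd2q2b pd3 0 true true true .npn 1 2 3 (qsf 536870912 536870912 1239849684 370763052 3) ndB0q1 ndB2q2b pcB3 Cut.none Ext.none)

def k0_pp_123_b : ∃ t, chk3 f_pp_123_b t 1 1 1 = true :=
  ⟨(a (l 4) (l 4)), by decide +kernel⟩

theorem c_pp_123_b : CertB 536870912 536870912 1239849684 370763052 587336777 62277027 3 eng mog cd0q1 cd2q2b pd3 true true true .npn 1 2 3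
    ndB0q1 ndB2q2b pcB3 Cut.none Ext.none :=
  certB0 (fam := true) (s1 := true) (s2 := true) (a := 1) (b := 2) (c := 3) (cn := .npn) (n1 := ndB0q1) (n2 := ndB2q2b) (pc := pcB3) (cut := Cut.none) (xt := Ext.none) (P1 := 536870912) (W1 := 536870912) (P2 := 1239849684) (W2 := 370763052) (P3 := 587336777) (W3 := 62277027) (N0 := 3) (En := eng) (mo := mog) (C1 := cd0q1) (C2 := cd2q2b) (C3 := pd3)
    rfl k0_pp_123_b

noncomputable def f_pp_133 : ℕ → ℕ → ℕ → ℕ → Bool := onCell 536870912 536870912 1610612736 536870912 587336777 62277027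
    (rowB 3 eng mog cd0q1 cd2q3 pd3 0 true true true .dn 1 3 3 (qsf 536870912 536870912 1610612736 536870912 3) ndB0q1 ndB2q3 pcB3 Cut.none Ext.none)

def k0_pp_133 : ∃ t, chk3 f_pp_133 t 1 1 1 = true :=
  ⟨(l 4), by decide +kernel⟩

theorem c_pp_133 : CertB 536870912 536870912 1610612736 536870912 587336777 62277027 3 eng mog cd0q1 cd2q3 pd3 true true true .dn 1 3 3
    ndB0q1 ndB2q3 pcB3 Cut.none Ext.none :=
  certB0 (fam := true) (s1 := true) (s2 := true) (a := 1) (b := 3) (c := 3) (cn := .dn) (n1 := ndB0q1) (n2 := ndB2q3) (pc := pcB3) (cut := Cut.none) (xt := Ext.none) (P1 := 536870912) (W1 := 536870912) (P2 := 1610612736) (W2 := 536870912) (P3 := 587336777) (W3 := 62277027) (N0 := 3) (En := eng) (mo := mog) (C1 := cd0q1) (C2 := cd2q3) (C3 := pd3)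
    rfl k0_pp_133

noncomputable def f_pp_202 : ℕ → ℕ → ℕ → ℕ → Bool := onCell 0 536870912 0 536870912 587336777 62277027
    (rowB 3 eng mog cd0q2 cd2q0 pd2 0 true true true .pp 2 0 2 (qsf 0 536870912 0 536870912 2) ndB0q2 ndB2q0 pcB2 Cut.none Ext.none)

def k0_pp_202 : ∃ t, chk3 f_pp_202 t 1 1 1 = true :=
  ⟨(l 5), by decide +kernel⟩

theorem c_pp_202 : CertB 0 536870912 0 536870912 587336777 62277027 3 eng mog cd0q2 cd2q0 pd2 true true true .pp 2 0 2
    ndB0q2 ndB2q0 pcB2 Cut.none Ext.none :=
  certB0 (fam := true) (s1 := true) (s2 := true) (a := 2) (b := 0) (c := 2) (cn := .pp) (n1 := ndB0q2) (n2 := ndB2q0) (pc := pcB2) (cut := Cut.none) (xt := Ext.none) (P1 := 0) (W1 := 536870912) (P2 := 0) (W2 := 536870912) (P3 := 587336777) (W3 := 62277027) (N0 := 3) (En := eng) (mo := mog) (C1 := cd0q2) (C2 := cd2q0) (C3 := pd2)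
    rfl k0_pp_202

noncomputable def f_pp_203 : ℕ → ℕ → ℕ → ℕ → Bool := onCell 0 536870912 0 536870912 587336777 62277027
    (rowB 3 eng mog cd0q2 cd2q0 pd3 0 true true true .up 2 0 3 (qsf 0 536870912 0 536870912 3) ndB0q2 ndB2q0 pcB3 Cut.none Ext.none)

def k0_pp_203 : ∃ t, chk3 f_pp_203 t 1 1 1 = true :=
  ⟨(l 5), by decide +kernel⟩

theorem c_pp_203 : CertB 0 536870912 0 536870912 587336777 62277027 3 eng mog cd0q2 cd2q0 pd3 true true true .up 2 0 3
    ndB0q2 ndB2q0 pcB3 Cut.none Ext.none :=
  certB0 (fam := true) (s1 := true) (s2 := true) (a := 2) (b := 0) (c := 3) (cn := .up) (n1 := ndB0q2) (n2 := ndB2q0) (pc := pcB3) (cut := Cut.none) (xt := Ext.none) (P1 := 0) (W1 := 536870912) (P2 := 0) (W2 := 536870912) (P3 := 587336777) (W3 := 62277027) (N0 := 3) (En := eng) (mo := mog) (C1 := cd0q2) (C2 := cd2q0) (C3 := pd3)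
    rfl k0_pp_203

noncomputable def f_pp_213 : ℕ → ℕ → ℕ → ℕ → Bool := onCell 0 536870912 536870912 536870912 587336777 62277027
    (rowB 3 eng mog cd0q2 cd2q1 pd3 0 true true true .pnn 2 1 3 (qsf 0 536870912 536870912 536870912 3) ndB0q2 ndB2q1 pcB3 Cut.none Ext.none)

def k0_pp_213 : ∃ t, chk3 f_pp_213 t 1 1 1 = true :=
  ⟨(l 5), by decide +kernel⟩

theorem c_pp_213 : CertB 0 536870912 536870912 536870912 587336777 62277027 3 eng mog cd0q2 cd2q1 pd3 true true true .pnn 2 1 3
    ndB0q2 ndB2q1 pcB3 Cut.none Ext.none :=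
  certB0 (fam := true) (s1 := true) (s2 := true) (a := 2) (b := 1) (c := 3) (cn := .pnn) (n1 := ndB0q2) (n2 := ndB2q1) (pc := pcB3) (cut := Cut.none) (xt := Ext.none) (P1 := 0) (W1 := 536870912) (P2 := 536870912) (W2 := 536870912) (P3 := 587336777) (W3 := 62277027) (N0 := 3) (En := eng) (mo := mog) (C1 := cd0q2) (C2 := cd2q1) (C3 := pd3)
    rfl k0_pp_213

noncomputable def f_pm_001 : ℕ → ℕ → ℕ → ℕ → Bool := onCell 0 536870912 0 536870912 587336777 62277027
    (rowB 3 eng mog cd0q0 cd2q0 pd1 0 true true false .up 0 0 1 (qsf 0 536870912 0 536870912 1) ndB0q0 ndB2q0 pcB1 Cut.none Ext.none)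

def k0_pm_001 : ∃ t, chk3 f_pm_001 t 1 1 1 = true :=
  ⟨(l 3), by decide +kernel⟩

theorem c_pm_001 : CertB 0 536870912 0 536870912 587336777 62277027 3 eng mog cd0q0 cd2q0 pd1 true true false .up 0 0 1
    ndB0q0 ndB2q0 pcB1 Cut.none Ext.none :=
  certB0 (fam := true) (s1 := true) (s2 := false) (a := 0) (b := 0) (c := 1) (cn := .up) (n1 := ndB0q0) (n2 := ndB2q0) (pc := pcB1) (cut := Cut.none) (xt := Ext.none) (P1 := 0) (W1 := 536870912) (P2 := 0) (W2 := 536870912) (P3 := 587336777) (W3 := 62277027) (N0 := 3) (En := eng) (mo := mog) (C1 := cd0q0) (C2 := cd2q0) (C3 := pd1)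
    rfl k0_pm_001

noncomputable def f_pm_011 : ℕ → ℕ → ℕ → ℕ → Bool := onCell 0 536870912 536870912 536870912 587336777 62277027
    (rowB 3 eng mog cd0q0 cd2q1 pd1 1 true true false .pnn 0 1 1 (qsf 0 536870912 536870912 536870912 1) ndB0q0 ndB2q1 pcB1 Cut.none Ext.none)

def k0_pm_011 : ∃ t, chk3 f_pm_011 t 1 1 1 = true :=
  ⟨(l 3), by decide +kernel⟩

theorem c_pm_011 : CertB 0 536870912 536870912 536870912 587336777 62277027 3 eng mog cd0q0 cd2q1 pd1 true true false .pnn 0 1 1
    ndB0q0 ndB2q1 pcB1 Cut.none Ext.none :=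
  certB1 (fam := true) (s1 := true) (s2 := false) (a := 0) (b := 1) (c := 1) (cn := .pnn) (n1 := ndB0q0) (n2 := ndB2q1) (pc := pcB1) (cut := Cut.none) (xt := Ext.none) (P1 := 0) (W1 := 536870912) (P2 := 536870912) (W2 := 536870912) (P3 := 587336777) (W3 := 62277027) (N0 := 3) (En := eng) (mo := mog) (C1 := cd0q0) (C2 := cd2q1) (C3 := pd1)
    rfl (fun _ => rfl) k0_pm_011

noncomputable def f_pm_012 : ℕ → ℕ → ℕ → ℕ → Bool := onCell 1073741824 536870912 536870912 536870912 587336777 62277027
    (rowB 3 eng mog cd0q0 cd2q1 pd2 2 true true false .pnp 0 1 2 (qsf 0 536870912 536870912 536870912 2) ndB0q0 ndB2q1 pcB2 Cut.none Ext.none)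

def k0_pm_012 : ∃ t, chk3 f_pm_012 t 4 1 1 = true :=
  ⟨(b (l 3) (a (l 3) (b (l 3) (a (l 3) (b (l 3) (a (l 3) (b (l 3) (a (l 3) (b (a (l 3) (b (l 3) (l 16615088))) (a (b (l 3) (a (l 3) (l 16611128))) (b (a (l 16612616) (l 16609952)) (a (l 16608472) (l 16605784))))))))))))), by decide +kernel⟩

def k1_pm_012 : ∃ t, chk3 f_pm_012 t 40 1 1 = true :=
  ⟨(b (b (b (l 2) (l 3)) (l 3)) (b (l 3) (b (a (l 3) (b (l 3) (a (l 3) (b (l 16618760) (l 16613160))))) (b (a (a (l 3) (b (l 3) (a (l 16614760) (b (l 16613736) (l 16610384))))) (a (b (l 16614000) (a (b (l 16610928) (l 16607616)) (b (l 16608120) (l 16604888)))) (a (b (l 16609704) (a (l 16604496) (l 16603136))) (b (l 16606816) (l 16590640))))) (a (b (a (b (a (l 3) (l 16612312)) (a (l 16611232) (l 16608520))) (a (b (l 16609568) (l 16605792)) (b (l 16606816) (l 16603128)))) (a (b (a (l 16607256) (l 16604552)) (a (l 16603120) (l 16600544))) (b (a (l 16601928) (l 16599408)) (l 16596840)))) (b (a (a (b (l 16604136) (l 16600584)) (b (l 16601536) (l 16598080))) (l 16595992))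 (a (l 16593864) (l 16588840)))))))), by decide +kernel⟩

def k2_pm_012 : ∃ t, chk3 f_pm_012 t 82 1 1 = true :=
  ⟨(b (b (l 2) (b (l 3) (l 3))) (b (b (l 3) (a (l 3) (b (l 3) (l 117205479415)))) (b (b (a (b (l 3) (l 16621176)) (a (l 16622072) (l 16662256))) (a (b (l 16656256) (a (l 16608792) (l 16606536))) (a (b (l 16611288) (l 16604608)) (l 16606104)))) (b (a (b (a (l 16614424) (l 16601056)) (l 16597024)) (l 16615152)) (a (b (l 16590728) (b (l 16585480) (l 16581752))) (b (l 16585280) (l 16578320))))))), by decide +kernel⟩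

def k3_pm_012 : ∃ t, chk3 f_pm_012 t 83 2 1 = true :=
  ⟨(b (l 2) (a (b (b (b (l 2) (a (c (l 16698840) (l 16672056)) (a (l 16674096) (l 16674160)))) (a (l 3) (a (b (l 16674184) (l 3)) (b (l 16674056) (l 16674088))))) (l 3)) (a (a (b (b (b (l 2) (l 16674136)) (b (l 16674024) (c (l 16677544) (l 16670488)))) (b (b (l 16694656) (l 3)) (l 3))) (a (b (b (l 16674888) (b (l 16673984) (l 16673896))) (b (b (l 16673576) (l 16672824)) (l 3))) (b (b (l 16675768) (b (l 16674200) (l 16673864))) (b (b (l 16673512) (l 16672728)) (b (l 16671488) (l 3)))))) (b (a (a (a (b (l 16676776) (b (l 16674856) (l 16673960))) (b (b (l 2) (l 16677336)) (b (l 16675968) (c (l 16678464) (l 16671008))))) (b (l 16678864) (l 16675976))) (b (l 16679080) (l 16675992))) (b (a (a (a (l 16673088) (a (l 16694072) (b (l 16673656) (l 16672504)))) (l 16673168)) (l 16673008)) (b (l 16671072) (l 16669104))))))), by decide +kernel⟩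

def k4_pm_012 : ∃ t, chk3 f_pm_012 t 83 3 1 = true :=
  ⟨(b (a (b (l 3) (a (b (l 3) (l 16633576)) (b (c (l 16649712) (l 16642392)) (l 16674184)))) (b (a (b (l 3) (a (l 720648381799) (a (l 16656416) (l 16677104)))) (b (l 68887094327) (b (l 16657992) (c (l 16656976) (l 16648224))))) (a (a (b (l 16645192) (l 16631264)) (a (b (l 16644704) (l 16630544)) (b (l 16644296) (l 16629736)))) (b (b (l 16646376) (l 16639304)) (c (l 16651936) (l 16645752)))))) (a (b (b (a (b (l 16622496) (l 16615024)) (b (l 16621048) (l 16613248))) (b (l 16606656) (l 16599320))) (b (b (l 16592064) (l 16606584)) (b (l 16579696) (l 16572912)))) (b (a (b (b (l 16618800) (l 16610752)) (b (l 16623600) (l 16594752))) (a (a (a (b (l 16612856) (l 16596280)) (a (b (l 16612216) (l 16595352)) (b (l 16653552) (l 16594472)))) (b (l 16611176) (l 16593872))) (b (l 16610456) (l 16593040)))) (a (a (b (l 16584584) (b (l 16576176) (l 16569512))) (b (l 16583048) (b (l 16574744) (l 16568144)))) (a (a (a (b (l 16582120) (b (l 16573824) (l 16567280))) (a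 (b (l 16581840) (b (l 16573528) (l 16567016))) (b (b (l 16583816) (l 16579056)) (b (c (l 16595344) (l 16593288)) (l 16566816))))) (b (l 16581176) (l 16569808))) (b (l 16580080) (l 16568824))))))), by decide +kernel⟩

def k5_pm_012 : ∃ t, chk3 f_pm_012 t 21 1 1 = true :=
  ⟨(b (b (l 2) (b (b (a (b (l 2) (l 16680144)) (l 2)) (a (b (l 16677456) (l 16675016)) (l 16677408))) (b (a (b (l 16672544) (l 16670112)) (l 16669088)) (a (b (l 16667872) (l 16665344)) (l 16661384))))) (a (b (b (b (b (l 16662000) (l 16657968)) (b (l 16652976) (l 16647072))) (b (l 16636240) (l 16620048))) (b (b (l 16644360) (l 16583816)) (b (l 16609376) (b (l 16560312) (l 16554400))))) (b (b (b (l 16652904) (l 16641552)) (b (l 16626280) (l 16608120))) (b (b (l 16609408) (l 16609464)) (b (l 16548352) (l 16566816)))))), by decide +kernel⟩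

def k6_pm_012 : ∃ t, chk3 f_pm_012 t 11 1 1 = true :=
  ⟨(b (b (l 2) (b (a (b (l 2) (l 16680664)) (l 2)) (a (b (l 16668288) (l 16655896)) (b (l 16671568) (l 16654152))))) (b (b (a (b (l 16707072) (a (l 16633744) (l 16627248))) (b (l 16636648) (l 16619368))) (b (a (b (l 16618104) (l 16608432)) (b (l 16604944) (l 16594048))) (a (b (l 16598024) (l 16587040)) (b (l 16582528) (l 16569976))))) (a (a (b (b (l 16575760) (l 16552624)) (b (l 16520400) (l 16534648))) (b (b (l 16564432) (l 16539240)) (b (l 16535872) (l 16516040)))) (b (b (b (l 16556800) (l 16543112)) (b (l 16529024) (l 16514600))) (b (b (l 16500544) (l 16487136)) (a (l 16561728) (l 16546008))))))), by decide +kernel⟩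

def k7_pm_012 : ∃ t, chk3 f_pm_012 t 3 1 1 = true :=
  ⟨(b (a (b (l 2) (a (b (l 2) (a (b (l 2) (l 16658800)) (l 2))) (l 2))) (l 2)) (b (a (a (b (a (b (l 16636264) (l 16613280)) (b (l 16643192) (l 16614960))) (b (a (l 16590248) (l 16585888)) (a (l 16606168) (l 16556728)))) (b (b (l 2) (a (l 16624856) (l 2))) (b (a (l 16590008) (l 16603240)) (a (l 16554192) (l 16560840))))) (b (l 2) (a (b (l 2) (a (l 16577480) (l 2))) (l 2)))) (a (b (a (b (a (b (l 16542936) (l 16527664)) (l 16566848)) (a (b (l 16511760) (l 16495264)) (b (l 16499648) (l 16481680)))) (b (a (l 16519008) (l 16518128)) (a (b (l 16491368) (l 16472072)) (l 16477232)))) (a (b (a (b (l 16478928) (l 16463064)) (b (l 16463320) (l 16445064))) (a (b (l 16448088) (l 16434936)) (b (l 16427504) (l 16411352)))) (b (a (b (l 16452848) (l 16432880)) (b (l 16445888) (l 16424528))) (a (b (l 16413032) (a (l 16397696) (l 16390512))) (b (a (l 16405696) (l 16402128)) (a (l 16384816) (l 16380376))))))) (b (a (b (a (l 16527144) (l 16547016)) (a (l 16477656) (l 16488744)))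 (b (l 2) (a (l 16511496) (l 2)))) (a (b (a (b (l 16442480) (l 16420176)) (l 16432992)) (a (b (a (l 16398912) (l 16396720)) (a (c (l 16390608) (l 16363280)) (l 16394960))) (a (b (l 16395216) (l 16371928)) (l 16403808)))) (b (a (l 16445536) (l 16470552)) (a (b (l 16399624) (l 16371544)) (l 16419792)))))))), by decide +kernel⟩

theorem s8_pm_012 : ∃ t, chk3 f_pm_012 t 83 1 1 = true := ex3_b k3_pm_012 k4_pm_012

theorem s9_pm_012 : ∃ t, chk3 f_pm_012 t 41 1 1 = true := ex3_a k2_pm_012 s8_pm_012

theorem s10_pm_012 : ∃ t, chk3 f_pm_012 t 20 1 1 = true := ex3_a k1_pm_012 s9_pm_012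

theorem s11_pm_012 : ∃ t, chk3 f_pm_012 t 10 1 1 = true := ex3_a s10_pm_012 k5_pm_012

theorem s12_pm_012 : ∃ t, chk3 f_pm_012 t 5 1 1 = true := ex3_a s11_pm_012 k6_pm_012

theorem s13_pm_012 : ∃ t, chk3 f_pm_012 t 2 1 1 = true := ex3_a k0_pm_012 s12_pm_012

theorem s14_pm_012 : ∃ t, chk3 f_pm_012 t 1 1 1 = true := ex3_a s13_pm_012 k7_pm_012

theorem c_pm_012 : CertB 0 536870912 536870912 536870912 587336777 62277027 3 eng mog cd0q0 cd2q1 pd2 true true false .pnp 0 1 2
    ndB0q0 ndB2q1 pcB2 Cut.none Ext.none :=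
  certB2 (fam := true) (s1 := true) (s2 := false) (a := 0) (b := 1) (c := 2) (cn := .pnp) (n1 := ndB0q0) (n2 := ndB2q1) (pc := pcB2) (cut := Cut.none) (xt := Ext.none) (P1 := 0) (W1 := 536870912) (P2 := 536870912) (W2 := 536870912) (P3 := 587336777) (W3 := 62277027) (N0 := 3) (En := eng) (mo := mog) (C1 := cd0q0) (C2 := cd2q1) (C3 := pd2)
    rfl (fun _ => rfl) s14_pm_012

noncomputable def cut_pm_022_a : Cut := Cut.of [[⟨0, 0, 0, 67108864⟩, ⟨1, 1, 0, 67108864⟩, ⟨2, 1, 0, 67108864⟩]]

noncomputable def xt_pm_022_a : Ext := extD2 3 ⟨7, 3, 3, 10, 1815, 1000, 17, 20, 37, 100, 3, 16⟩ eng cd0q0 cd2q2a pd2 true true false .pp 0 2 2 rfl ndB0q0 ndB2q2a pcB2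

noncomputable def f_pm_022_a : ℕ → ℕ → ℕ → ℕ → Bool := onCell 1073741824 536870912 0 536870912 587336777 62277027
    (rowB 3 eng mog cd0q0 cd2q2a pd2 2 true true false .pp 0 2 2 (qsf 0 536870912 0 536870912 2) ndB0q0 ndB2q2a pcB2 cut_pm_022_a xt_pm_022_a)

def k0_pm_022_a : ∃ t, chk3 f_pm_022_a t 8 1 1 = true :=
  ⟨(b (l 1) (b (l 1) (b (a (l 1) (b (a (l 1) (a (l 1) (b (l 1) (b (l 16640712) (a (l 6) (l 16646128)))))) (a (l 6) (a (l 6) (a (l 6) (b (l 16655384) (l 16667512))))))) (a (l 6) (a (l 6) (a (l 6) (a (l 6) (b (b (l 16679400) (l 16690912)) (b (l 16707944) (b (l 16704904) (c (l 16708960) (l 16706992)))))))))))), by decide +kernel⟩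

def k1_pm_022_a : ∃ t, chk3 f_pm_022_a t 9 2 1 = true :=
  ⟨(b (l 1) (a (l 1) (b (l 1) (a (l 1) (b (l 1) (a (l 1) (c (l 16520472) (l 16508472)))))))), by decide +kernel⟩

def k2_pm_022_a : ∃ t, chk3 f_pm_022_a t 9 6 1 = true :=
  ⟨(b (a (l 1) (a (b (a (l 1) (b (l 1) (l 16538120))) (a (b (l 1) (l 16559296)) (b (l 16547776) (l 16557568)))) (b (a (b (l 16528104) (l 16537120)) (b (l 16527280) (l 16535848))) (a (b (l 16546296) (l 16555592)) (l 16549072))))) (a (a (b (l 1) (a (l 1) (b (l 16599288) (l 16611456)))) (b (a (b (l 1) (l 16585024)) (b (l 16571688) (l 16582696))) (b (a (l 16596624) (l 16593696)) (a (l 16608152) (l 16604624))))) (b (a (a (b (l 16569696) (l 16580136)) (b (l 16567440) (l 16577344))) (a (l 16569752) (l 16566848))) (a (b (l 16588912) (l 16598992)) (b (l 16581904) (l 16590936)))))), by decide +kernel⟩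

def k3_pm_022_a : ∃ t, chk3 f_pm_022_a t 9 7 1 = true :=
  ⟨(b (a (b (a (b (a (b (l 16624048) (l 16630384)) (l 16623512)) (a (b (l 16636672) (l 16642824)) (l 16635376))) (b (a (l 16619576) (l 16615440)) (a (l 16630816) (l 16626080)))) (a (b (a (l 16651744) (l 16646760)) (a (l 16663424) (l 16657880))) (b (a (l 16641640) (l 16636368)) (a (l 16652216) (l 16646432))))) (b (a (b (l 16608952) (a (l 16621224) (l 16616232))) (b (l 16578856) (l 16608536))) (a (b (l 16628264) (l 16637584)) (l 16663312)))) (b (b (a (a (a (b (l 16672016) (l 16677664)) (l 16668760)) (l 16680376)) (a (l 16645984) (l 16631888))) (a (a (c (l 16682816) (l 16682104)) (l 16693816)) (a (c (l 16653160) (l 16652232)) (b (l 16636520) (l 16681440))))) (a (b (a (b (l 16709272) (c (a (l 16696024) (l 16688128)) (l 16696448))) (b (c (l 16673088) (l 16672096)) (a (l 16679464) (l 16671568)))) (b (a (a (l 16698712) (l 16690504)) (a (l 16682384) (l 16674400))) (a (b (a (l 16700928) (l 16692648)) (a (c (l 16703648) (l 16701200)) (c (l 16695528) (l 16692688))))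 (a (b (l 16684456) (a (l 16693064) (l 16688976))) (c (a (l 16680872) (l 16676976)) (l 16675392)))))) (b (a (a (l 16664984) (l 16654776)) (a (l 16647336) (l 16640024))) (a (b (a (l 16666512) (l 16658768)) (a (c (b (l 16670464) (c (l 16673096) (l 16670744))) (l 16667160)) (c (a (l 16670720) (l 16661720)) (l 16659080)))) (b (a (l 16651176) (l 16654192)) (c (a (a (l 16657992) (l 16654288)) (b (l 16648160) (a (l 16651248) (l 16647592)))) (a (l 16651128) (l 16643304))))))))), by decide +kernel⟩

def k4_pm_022_a : ∃ t, chk3 f_pm_022_a t 5 2 1 = true :=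
  ⟨(a (b (a (a (l 1) (b (l 16453672) (b (l 16459800) (l 16466912)))) (b (a (c (l 16458528) (l 16453152)) (l 16458904)) (a (a (l 16464720) (b (l 16461864) (l 16467960))) (l 16466104)))) (a (a (b (b (l 16474520) (a (l 1) (l 16486472))) (b (a (l 16499512) (l 16499440)) (a (l 16514432) (l 16513664)))) (a (b (b (l 16475736) (l 16486680)) (b (l 16499072) (l 16512656))) (b (a (b (l 16476032) (l 16486624)) (a (b (l 16476112) (l 16486528)) (b (l 16476136) (l 16486448)))) (b (a (l 16498624) (a (l 16498344) (l 16498144))) (a (l 16511752) (a (l 16511264) (l 16510920))))))) (b (a (b (c (l 16477944) (l 16472776)) (c (l 16487928) (l 16482520))) (b (l 16475872) (l 16484816))) (a (b (l 16497048) (l 16509264)) (b (l 16495200) (l 16506448)))))) (b (a (b (a (l 16462280) (l 16466352)) (a (l 16468248) (b (l 16468888) (l 16472968)))) (b (a (b (l 16470840) (l 16470960)) (b (l 16476344) (l 16475992))) (a (b (l 16472808) (l 16476192)) (b (l 16477248) (l 16479936))))) (b (a (b (a (l 16476776) (l 16478480)) (a (l 16484760) (l 16485440)))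 (b (l 16482272) (l 16487712))) (a (b (l 16494096) (l 16503768)) (b (l 16494704) (l 16502168)))))), by decide +kernel⟩

def k5_pm_022_a : ∃ t, chk3 f_pm_022_a t 5 6 1 = true :=
  ⟨(a (a (a (b (b (a (l 16530344) (l 16528824)) (a (l 16546920) (l 16544592))) (b (a (l 16563784) (l 16560600)) (a (l 16580568) (l 16576472)))) (b (a (b (l 16527112) (l 16542112)) (a (b (l 16525712) (l 16540176)) (a (b (l 16524984) (l 16539184)) (b (l 16524488) (l 16538512))))) (a (b (l 16557304) (l 16572280)) (a (b (l 16554784) (l 16569096)) (a (b (l 16553496) (l 16567496)) (b (l 16552640) (l 16566424))))))) (b (a (b (l 16522184) (a (l 16536856) (l 16534104))) (b (l 16518256) (l 16530248))) (a (b (a (l 16550520) (l 16547032)) (l 16561600)) (b (l 16542056) (l 16553144))))) (b (a (b (l 16513800) (l 16523720)) (b (l 16509600) (l 16516544))) (a (b (l 16512168) (l 16541512)) (b (l 16522536) (l 16526920))))), by decide +kernel⟩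

def k6_pm_022_a : ∃ t, chk3 f_pm_022_a t 20 7 1 = true :=
  ⟨(a (b (b (l 16625712) (l 16651048)) (b (b (l 16660336) (a (l 16627544) (l 16620712))) (b (a (l 16653824) (c (l 16628168) (l 16623704))) (b (a (c (l 16639072) (l 16633912)) (c (l 16632040) (l 16626464))) (a (c (c (b (l 16642536) (l 16643832)) (l 16650472)) (l 16635608)) (a (c (l 16646680) (l 16629912)) (c (l 16632640) (l 16626160)))))))) (b (b (a (l 16586520) (a (l 16582584) (a (l 16580600) (l 16579296)))) (a (l 16599816) (a (l 16595280) (a (l 16593032) (l 16612488))))) (a (b (b (l 16608608) (l 16614016)) (b (c (l 16621360) (l 16616592)) (c (b (l 16625048) (a (l 16639568) (b (l 16624984) (l 16626040)))) (b (l 16619176) (a (l 16622456) (l 16618784)))))) (b (a (b (l 16603824) (l 16609056)) (a (b (l 16601448) (l 16606592)) (b (l 16641792) (c (l 16648416) (a (l 16645848) (l 16603048)))))) (a (b (c (l 16616232) (l 16611376)) (c (b (l 16619760) (a (l 16622824) (l 16620992))) (b (l 16613824) (a (l 16616072) (c (l 16615960) (l 16612632)))))) (a (b (c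 (l 16613544) (l 16608880)) (b (c (l 16616984) (l 16611272)) (c (a (l 16619584) (a (l 16618848) (l 16618336))) (a (l 16612984) (a (l 16612344) (l 16622424)))))) (b (a (a (a (l 16610216) (a (l 16610048) (l 16609936))) (l 16609672)) (l 16609024)) (b (a (a (a (l 16613120) (a (l 16612952) (c (l 16615424) (l 16610200)))) (l 16612560)) (l 16611896)) (c (a (a (a (l 16617920) (a (l 16617672) (a (a (l 16617544) (b (l 16616976) (l 16617944))) (l 16617432)))) (l 16617192)) (l 16616536)) (a (a (a (l 16611656) (a (b (l 16611232) (l 16611816)) (a (a (l 16611504) (b (l 16611208) (c (l 16613368) (l 16610192)))) (l 16611464)))) (l 16611208)) (l 16610504))))))))))), by decide +kernel⟩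

def k7_pm_022_a : ∃ t, chk3 f_pm_022_a t 21 7 1 = true :=
  ⟨(b (b (c (l 16609968) (l 16609736)) (a (l 16605824) (l 16573200))) (b (a (b (l 16592760) (a (l 16600808) (l 16594352))) (b (l 16580384) (l 16584672))) (a (b (a (l 16605168) (c (l 16601032) (l 16595928))) (a (b (l 16607928) (c (b (l 16612176) (l 16613096)) (c (l 16607936) (l 16604728)))) (b (c (l 16604064) (l 16597952)) (c (a (l 16607552) (b (l 16603776) (l 16615096))) (a (l 16600832) (a (l 16598104) (l 16596312))))))) (b (c (l 16591120) (l 16585760)) (b (c (l 16593888) (l 16587464)) (c (a (l 16619952) (l 16592072)) (a (l 16591856) (l 16584760)))))))), by decide +kernel⟩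

def k8_pm_022_a : ∃ t, chk3 f_pm_022_a t 11 7 1 = true :=
  ⟨(b (b (a (l 16548184) (l 16528856)) (a (l 16618728) (l 16555368))) (b (a (b (a (l 16568072) (l 16556160)) (a (l 16571912) (l 16559600))) (a (l 16609464) (b (l 16534368) (l 16536928)))) (a (b (a (l 16596136) (l 16562408)) (b (a (l 16598032) (l 16563976)) (a (c (a (l 16585304) (l 16578672)) (l 16574232)) (a (l 16588992) (l 16561488))))) (b (a (l 16550272) (l 16538808)) (a (b (l 16551464) (c (l 16556776) (l 16547288))) (b (l 16539648) (a (l 16542864) (l 16558000)))))))), by decide +kernel⟩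

def k9_pm_022_a : ∃ t, chk3 f_pm_022_a t 3 2 1 = true :=
  ⟨(a (a (b (b (a (a (b (l 16482232) (l 16481424)) (b (c (l 16491512) (l 16484288)) (c (l 16490520) (l 16482744)))) (b (a (c (l 16497808) (l 16490760)) (c (l 16504040) (l 16497424))) (a (c (l 16496392) (l 16488768)) (c (l 16502216) (l 16495000))))) (a (b (a (l 16482112) (l 16487280)) (a (l 16484104) (l 16488584))) (b (a (l 16492648) (l 16498104)) (a (l 16493264) (l 16498024))))) (b (a (b (l 16488936) (l 16492368)) (b (l 16496600) (l 16497888))) (a (b (l 16496856) (l 16501944)) (b (l 16499656) (l 16502264))))) (b (a (b (a (b (c (l 16510056) (l 16504168)) (l 16505048)) (b (a (c (l 16515376) (l 16509784)) (l 16518840)) (a (l 16518024) (l 16515640)))) (a (b (l 16503504) (l 16502736)) (b (a (l 16508168) (l 16513256)) (a (l 16506840) (l 16511472))))) (b (a (b (c (l 16531240) (l 16523544)) (l 16524032)) (b (l 16539624) (l 16535224))) (a (b (l 16521048) (l 16518560)) (l 16529952)))) (a (b (b (a (l 16502400) (l 16507864)) (a (l 16502088) (l 16506400)))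 (b (a (l 16501752) (l 16504656)) (l 16502568))) (b (b (l 16520400) (l 16517072)) (b (l 16513224) (l 16508352)))))) (a (b (b (a (a (b (l 16551392) (l 16546320)) (l 16560304)) (a (l 16571328) (l 16582056))) (a (a (l 16539784) (l 16549472)) (l 16584568))) (b (a (l 16534384) (l 16549064)) (a (b (l 16524152) (l 16515024)) (l 16571144)))) (b (b (a (b (l 16601328) (l 16593392)) (b (a (l 16616408) (l 16625960)) (l 16612144))) (a (l 16581432) (l 16618936))) (b (a (l 16562776) (l 16575312)) (a (l 16537240) (l 16543872)))))), by decide +kernel⟩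

def k10_pm_022_a : ∃ t, chk3 f_pm_022_a t 6 3 1 = true :=
  ⟨(b (a (b (a (b (l 16506584) (l 16510264)) (b (l 16503856) (l 16503888))) (a (b (l 16512392) (l 16512144)) (l 16552008))) (b (a (b (l 16500680) (l 16496528)) (l 16498504)) (a (l 16547104) (l 16493392)))) (a (b (a (b (l 16509256) (l 16537136)) (b (l 16495968) (l 16542784))) (b (a (a (l 16525824) (l 16537560)) (b (l 16503112) (l 16503928))) (a (b (a (l 16528144) (l 16518168)) (b (a (l 16528624) (l 16539240)) (a (c (a (l 16537288) (l 16532208)) (l 16522776)) (c (a (b (l 16527232) (l 16527328)) (l 16522160)) (l 16511528))))) (b (a (l 16508552) (l 16499568)) (b (a (l 16508184) (l 16498712)) (a (a (c (l 16517112) (l 16503384)) (c (l 16512208) (l 16498136))) (a (c (l 16507456) (l 16493040)) (b (l 16495736) (c (l 16502680) (l 16487688)))))))))) (b (a (b (l 16485648) (a (l 16491584) (l 16485280))) (b (l 16473240) (l 16494872))) (b (a (a (l 16492496) (l 16505912)) (b (l 16472760) (l 16492096))) (a (a (b (l 16491224) (b (l 16510808) (c (b (l 16496424)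 (a (l 16498160) (l 16501656))) (a (l 16483304) (l 16478656))))) (a (b (l 16485096) (b (l 16483312) (a (c (a (l 16491424) (l 16490248)) (l 16475224)) (c (l 16488304) (l 16472704))))) (b (l 16480360) (b (l 16478376) (b (l 16477168) (c (c (l 16487952) (l 16480200)) (l 16468320))))))) (a (b (l 16473328) (b (c (l 16478232) (l 16463688)) (b (c (l 16487664) (l 16461984)) (c (a (c (l 16482760) (l 16475104)) (a (l 16485616) (l 16483072))) (a (l 16463264) (l 16458280)))))) (b (l 16464152) (b (c (l 16468480) (l 16454192)) (c (a (b (l 16469688) (c (b (l 16472688) (l 16472272)) (l 16465024))) (c (a (l 16469080) (l 16466528)) (l 16460560))) (a (b (l 16454672) (l 16453344)) (l 16470128))))))))))), by decide +kernel⟩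

def k11_pm_022_a : ∃ t, chk3 f_pm_022_a t 7 6 1 = true :=
  ⟨(a (b (a (l 16498056) (l 16495952)) (a (l 16502736) (l 16499056))) (b (a (l 16493560) (l 16490736)) (a (l 16495016) (l 16529632)))), by decide +kernel⟩

def k12_pm_022_a : ∃ t, chk3 f_pm_022_a t 14 14 1 = true :=
  ⟨(a (b (l 16463256) (l 16525552)) (b (l 16458904) (l 16520424))), by decide +kernel⟩

def k13_pm_022_a : ∃ t, chk3 f_pm_022_a t 14 30 1 = true :=
  ⟨(b (a (l 16481208) (l 16475560)) (a (a (l 16459592) (l 16456144)) (a (l 16453128) (l 16449840)))), by decide +kernel⟩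

def k14_pm_022_a : ∃ t, chk3 f_pm_022_a t 14 31 1 = true :=
  ⟨(a (b (a (a (l 16457568) (l 16455216)) (c (b (l 16460736) (l 16459104)) (l 16445064))) (a (a (b (l 16475464) (c (b (l 16459912) (c (a (l 16463448) (l 141052669588455439)) (l 16455152))) (l 16454912))) (b (c (l 16459256) (l 16444424)) (c (c (l 141044560689184783) (b (l 16453936) (b (l 16453000) (c (l 140983881377841167) (l 16450376))))) (c (l 16445464) (l 16437288))))) (b (c (b (l 16457688) (c (l 141033084536061967) (l 16452616))) (l 16440912)) (a (c (b (c (l 141032053743042575) (l 16452224)) (c (l 141020783746629647) (b (c (l 140970618516799503) (l 16449184)) (l 140947322608599055)))) (b (l 16439768) (a (l 16438744) (a (l 16437816) (l 16447680))))) (c (c (b (l 141012606128685071) (c (l 141020165273157647) (l 140982232113266703))) (l 140935846454509583)) (b (l 16437360) (c (c (l 140880527260631055) (l 16437944)) (l 16431000)))))))) (a (b (c (a (l 16458072) (l 16456736)) (l 16440768)) (a (b (c (l 140971924190478351) (l 16437432)) (c (c (b (l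 140991096929959951) (c (a (l 141004359791788047) (l 140993089796390927)) (l 140959829560967183))) (l 140912687987245071)) (b (l 16445416) (c (l 140841150991187983) (l 16428288))))) (b (c (c (l 140984156263546895) (l 140913924939726863)) (l 16435056)) (c (c (b (l 140967045110415375) (c (b (l 140977902790737935) (a (l 140977971509641231) (l 140965120966148111))) (l 140934540790415375))) (l 140886505862758415)) (c (l 140822046973575183) (a (l 16427208) (l 16425808))))))) (b (c (a (l 140953301212725263) (l 141104003021897743)) (l 16436144)) (c (a (b (a (l 140927943719911439) (l 140913512628092943)) (c (b (l 140940038353158159) (c (c (a (l 140965602004320271) (l 140952407863623695)) (l 140937976768970767)) (l 140907534032994319))) (l 140858674470879247))) (b (c (l 140929180676603919) (l 140856887766548495)) (a (c (b (l 140919216349675535) (c (b (l 140931517139582991) (c (a (l 140940038356500495) (b (l 140934884395581455) (l 140931792018604047))) (l 140914818302918671))) (l 140886780748906511))) (l 140836890393985039))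 (c (b (l 140905060136321039) (c (b (l 140917086048567311) (c (l 140921552816275471) (l 140899906175549455))) (l 140872280938151951))) (l 140822390582755343))))) (b (c (l 140809540028547087) (l 16426256)) (c (a (l 140793734544392207) (l 140764116445331471)) (b (l 16423384) (l 140715325595402255)))))))), by decide +kernel⟩

def k15_pm_022_a : ∃ t, chk3 f_pm_022_a t 15 7 1 = true :=
  ⟨(a (b (b (l 16454480) (a (l 16453656) (l 16449928))) (a (b (b (l 16449600) (l 16466968)) (b (b (a (l 16443640) (l 16441704)) (c (a (l 140882313984589839) (l 140849122474704911)) (l 16429880))) (c (b (c (a (b (l 140903617029799951) (l 140892965509005327)) (l 140864653083951119)) (a (l 140825963998593039) (l 140794696633958415))) (c (a (c (b (l 140901761605648399) (c (b (l 140903548313501711) (a (l 140905609897115663) (l 140889804417089551))) (l 140879633929388047))) (b (l 140861766858981391) (l 140849397350973455))) (b (l 140849259918639119) (c (a (a (l 140870356802469903) (l 140862454062546959)) (l 140850703031992335)) (l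 140819092060504079)))) (a (l 140800194189606927) (l 140770713531793423)))) (b (c (l 140748860721971215) (l 16421176)) (c (l 140720685730185231) (l 140664610613461007)))))) (b (b (l 16445808) (c (l 16451712) (l 16432640))) (b (c (b (l 16449840) (c (l 140828163043098639) (l 16442840))) (l 16448360)) (c (b (c (a (l 140830499503177743) (l 140796483362144271)) (l 140747417631113231)) (c (a (c (b (l 140836134504448015) (c (l 140837165298581519) (l 140817580241256463))) (l 140794146890842127)) (c (b (l 140803767631740943) (l 140796620805259279)) (l 140763910321324047))) (a (l 140741507752591375) (l 140712576852066319)))) (b (l 141021951903907855) (a (l 140648736420904975) (l 140620492713148431)))))))) (b (b (l 16446648) (a (l 16445976) (l 16441992))) (b (b (c (l 16450064) (l 16431384)) (c (a (l 16449856) (l 16449336)) (l 16469240))) (a (b (c (b (l 16448776) (b (l 140907740185067535) (l 140902861101350927))) (l 140904304162488335)) (b (c (c (a (l 140762604660949007) (l 140729000838561807)) (l 140684676747608079))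 (a (l 140617194181902351) (l 140587644804988943))) (a (c (c (c (l 140769133016956943) (l 140734086069534735)) (l 140684058269171727)) (l 140592455164444687)) (c (c (c (l 140739102608654351) (l 140705292610961423)) (l 140656639198871567)) (l 140745768315699215))))) (c (b (c (l 140880664727191567) (l 140813388331843599)) (b (c (l 140861285836095503) (l 140626127756083215)) (a (c (l 140694366225530895) (l 140631075555606543)) (c (l 140669146182828047) (l 140608466851250191))))) (b (b (l 16423544) (l 140742057472229391)) (a (b (l 140559607257497615) (l 140720960584286223)) (c (l 140706392073895951) (l 140589362773557263))))))))), by decide +kernel⟩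

theorem s16_pm_022_a : ∃ t, chk3 f_pm_022_a t 14 15 1 = true := ex3_b k13_pm_022_a k14_pm_022_a

theorem s17_pm_022_a : ∃ t, chk3 f_pm_022_a t 14 7 1 = true := ex3_b k12_pm_022_a s16_pm_022_a

theorem s18_pm_022_a : ∃ t, chk3 f_pm_022_a t 7 7 1 = true := ex3_a s17_pm_022_a k15_pm_022_a

theorem s19_pm_022_a : ∃ t, chk3 f_pm_022_a t 7 3 1 = true := ex3_b k11_pm_022_a s18_pm_022_a

theorem s20_pm_022_a : ∃ t, chk3 f_pm_022_a t 3 3 1 = true := ex3_a k10_pm_022_a s19_pm_022_a

theorem s21_pm_022_a : ∃ t, chk3 f_pm_022_a t 3 1 1 = true := ex3_b k9_pm_022_a s20_pm_022_a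

theorem s22_pm_022_a : ∃ t, chk3 f_pm_022_a t 10 7 1 = true := ex3_a k6_pm_022_a k7_pm_022_a

theorem s23_pm_022_a : ∃ t, chk3 f_pm_022_a t 5 7 1 = true := ex3_a s22_pm_022_a k8_pm_022_a

theorem s24_pm_022_a : ∃ t, chk3 f_pm_022_a t 5 3 1 = true := ex3_b k5_pm_022_a s23_pm_022_a

theorem s25_pm_022_a : ∃ t, chk3 f_pm_022_a t 5 1 1 = true := ex3_b k4_pm_022_a s24_pm_022_a

theorem s26_pm_022_a : ∃ t, chk3 f_pm_022_a t 9 3 1 = true := ex3_b k2_pm_022_a k3_pm_022_a

theorem s27_pm_022_a : ∃ t, chk3 f_pm_022_a t 9 1 1 = true := ex3_b k1_pm_022_a s26_pm_022_a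

theorem s28_pm_022_a : ∃ t, chk3 f_pm_022_a t 4 1 1 = true := ex3_a k0_pm_022_a s27_pm_022_a

theorem s29_pm_022_a : ∃ t, chk3 f_pm_022_a t 2 1 1 = true := ex3_a s28_pm_022_a s25_pm_022_a

theorem s30_pm_022_a : ∃ t, chk3 f_pm_022_a t 1 1 1 = true := ex3_a s29_pm_022_a s21_pm_022_a

theorem c_pm_022_a : CertB 0 536870912 0 536870912 587336777 62277027 3 eng mog cd0q0 cd2q2a pd2 true true false .pp 0 2 2
    ndB0q0 ndB2q2a pcB2 cut_pm_022_a xt_pm_022_a :=
  certB2 (fam := true) (s1 := true) (s2 := false) (a := 0) (b := 2) (c := 2) (cn := .pp) (n1 := ndB0q0) (n2 := ndB2q2a) (pc := pcB2) (cut := cut_pm_022_a) (xt := xt_pm_022_a) (P1 := 0) (W1 := 536870912) (P2 := 0) (W2 := 536870912) (P3 := 587336777) (W3 := 62277027) (N0 := 3) (En := eng) (mo := mog) (C1 := cd0q0) (C2 := cd2q2a) (C3 := pd2)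
    rfl (fun _ => rfl) s30_pm_022_a

noncomputable def cut_pm_022_b : Cut := Cut.of [[⟨0, 0, 0, 67108864⟩, ⟨1, 1, 0, 67108864⟩, ⟨2, 1, 0, 67108864⟩]]

noncomputable def f_pm_022_b : ℕ → ℕ → ℕ → ℕ → Bool := onCell 0 536870912 1239849684 370763052 587336777 62277027
    (rowB 3 eng mog cd0q0 cd2q2b pd2 0 true true false .pp 0 2 2 (qsf 0 536870912 1239849684 370763052 2) ndB0q0 ndB2q2b pcB2 cut_pm_022_b Ext.none)

def k0_pm_022_b : ∃ t, chk3 f_pm_022_b t 2 1 1 = true :=
  ⟨(b (a (b (a (a (b (b (a (b (a (l 16443256) (l 16444848)) (l 16423576)) (l 16438016)) (l 16398208)) (a (l 16343296) (l 16353488))) (b (b (a (l 16443016) (l 16448624)) (l 16412848)) (b (l 16383032) (l 16356128)))) (a (b (b (a (l 16454840) (l 16461544)) (a (l 16425088) (l 16433752))) (b (l 16403304) (l 16379872))) (b (b (a (b (l 16475464) (l 16461880)) (b (l 16482296) (l 16469656))) (a (l 16442672) (l 16451768))) (b (a (l 16419168) (l 16430864)) (a (l 16400072) (l 16416872)))))) (a (a (b (l 16293032) (b (l 16259136) (l 16243160))) (b (b (l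 16331976) (l 16311440)) (b (l 16297536) (l 16291360)))) (b (a (b (l 16361296) (l 16349440)) (l 16395504)) (a (l 16342688) (l 16391376))))) (b (a (b (a (b (a (b (c (l 16492688) (l 16484952)) (l 16477568)) (b (c (l 16499544) (l 16492256)) (b (l 16488184) (l 16482936)))) (a (b (l 16466360) (l 16456152)) (b (a (l 16473240) (l 16479024)) (l 16469216)))) (b (b (a (a (l 16501624) (b (l 16512872) (l 16503336))) (a (b (a (l 16510720) (l 16513568)) (l 16509264)) (l 16516944))) (a (a (l 16492448) (l 16498528)) (l 16508704))) (a (l 16486968) (l 16501952)))) (a (b (a (l 16445056) (l 16461464)) (l 16444496)) (b (l 16486552) (l 16481224)))) (b (a (b (a (b (c (l 16530680) (l 16521560)) (l 16522352)) (b (l 16539120) (l 16535928))) (l 16524376)) (b (a (l 16550448) (l 16563192)) (l 16553520))) (a (l 16518128) (l 16551336)))) (a (b (a (l 16437360) (l 16478240)) (l 16461152)) (b (l 16536424) (l 16545840))))) (a (b (a (b (a (l 16234384) (l 16291360)) (l 16273848)) (b (l 16373776) (l 16393368))) (a (b (l 16299608) (l 16335248))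 (b (l 16421984) (l 2)))) (b (a (b (l 16474848) (l 16497336)) (l 2)) (l 2)))), by decide +kernel⟩

def k1_pm_022_b : ∃ t, chk3 f_pm_022_b t 3 1 1 = true :=
  ⟨(b (a (b (a (b (b (a (a (l 16575648) (l 16587760)) (l 16605152)) (a (l 16581232) (l 16607080))) (a (l 16582544) (l 16611344))) (b (b (a (b (l 16625784) (l 16627800)) (a (l 79557284919) (l 2))) (a (l 16630768) (l 2))) (l 2))) (a (b (l 16605064) (l 2)) (l 2))) (l 2)) (l 2)), by decide +kernel⟩

theorem s2_pm_022_b : ∃ t, chk3 f_pm_022_b t 1 1 1 = true := ex3_a k0_pm_022_b k1_pm_022_b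

theorem c_pm_022_b : CertB 0 536870912 1239849684 370763052 587336777 62277027 3 eng mog cd0q0 cd2q2b pd2 true true false .pp 0 2 2
    ndB0q0 ndB2q2b pcB2 cut_pm_022_b Ext.none :=
  certB0 (fam := true) (s1 := true) (s2 := false) (a := 0) (b := 2) (c := 2) (cn := .pp) (n1 := ndB0q0) (n2 := ndB2q2b) (pc := pcB2) (cut := cut_pm_022_b) (xt := Ext.none) (P1 := 0) (W1 := 536870912) (P2 := 1239849684) (W2 := 370763052) (P3 := 587336777) (W3 := 62277027) (N0 := 3) (En := eng) (mo := mog) (C1 := cd0q0) (C2 := cd2q2b) (C3 := pd2)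
    rfl s2_pm_022_b

noncomputable def xt_pm_023_a : Ext := extD2 3 ⟨7, 3, 3, 10, 1815, 1000, 17, 20, 37, 100, 3, 16⟩ eng cd0q0 cd2q2a pd3 true true false .up 0 2 3 rfl ndB0q0 ndB2q2a pcB3

noncomputable def f_pm_023_a : ℕ → ℕ → ℕ → ℕ → Bool := onCell 1610612736 536870912 0 536870912 587336777 62277027
    (rowB 3 eng mog cd0q0 cd2q2a pd3 2 true true false .up 0 2 3 (qsf 0 536870912 0 536870912 3) ndB0q0 ndB2q2a pcB3 Cut.none xt_pm_023_a)

def k0_pm_023_a : ∃ t, chk3 f_pm_023_a t 2 2 1 = true :=
  ⟨(a (a (a (b (b (a (c (l 16639224) (a (l 16629272) (l 16626192))) (l 16703080)) (a (a (c (l 16623960) (l 16612376)) (l 16610432)) (a (l 16596296) (l 16577408)))) (a (b (b (a (l 16604280) (l 16591856)) (l 16732744)) (b (l 16717496) (l 16698928))) (b (l 16588120) (l 16590512)))) (b (b (l 16610816) (l 16570048)) (b (l 16541808) (l 16544480)))) (b (a (b (l 16605344) (l 16569704)) (b (l 16638904) (l 16618016))) (a (b (l 16562448) (l 16556608)) (b (l 16601080) (l 16588040))))) (a (b (a (b (l 16701008) (l 16661784))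 (b (l 2) (l 2))) (a (b (l 16647064) (l 16636600)) (l 2))) (l 2))), by decide +kernel⟩

def k1_pm_023_a : ∃ t, chk3 f_pm_023_a t 2 6 1 = true :=
  ⟨(a (a (a (a (b (a (c (l 16517320) (l 16651328)) (l 16487304)) (c (l 16571272) (l 16577824))) (b (a (l 16488232) (l 16536344)) (a (l 16560208) (l 16577144)))) (b (l 16609584) (b (l 16545040) (l 16545016)))) (a (b (l 16575736) (l 9764013095)) (b (a (l 16568536) (l 16591168)) (l 184247105175)))) (l 2)), by decide +kernel⟩

def k2_pm_023_a : ∃ t, chk3 f_pm_023_a t 2 7 1 = true :=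
  ⟨(a (a (a (b (a (a (b (l 16514928) (c (l 16462128) (l 16424464))) (b (l 16485376) (c (l 16489048) (l 16454584)))) (b (a (l 16500096) (l 16532696)) (a (b (l 16501920) (l 16503592)) (b (l 16532144) (l 16553296))))) (a (b (a (c (b (l 16472216) (c (l 16491520) (l 16467632))) (b (l 16430544) (l 141095756645908495))) (b (a (l 16469928) (l 16483648)) (c (a (l 16517608) (l 16508872)) (l 141147914780377103)))) (b (c (a (c (b (l 141250032000253967) (l 141270854010781711)) (l 141231683852501007)) (c (b (l 141417432690065423) (l 141430695557120015)) (l 141419700387381263))) (a (c (l 140858468325392399) (l 140680897151565839)) (c (l 141064695523115023) (l 140899287697178639)))) (b (a (c (c (c (l 141347132653518863) (l 141239105608187919)) (c (l 141134445817921551) (l 141033153282736143))) (c (l 140887330514731023) (l 140704261780045839))) (a (b (c (l 141303976810840079) (l 140938114216312847)) (l 2)) (l 2))) (a (b (c (c (c (a (l 141330914855075855) (l 141397710206091279)) (l 141436399233056783)) (c (l 141151556974182415)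 (l 141049783402020879))) (c (l 141082837430960143) (l 140716768728317967))) (a (c (a (c (c (b (l 141324317784653839) (c (b (l 141357646740406287) (a (c (b (l 141366855152812047) (l 141368504420974607)) (l 141338955038113807)) (l 2))) (l 141302602425401359))) (l 141215809703018511)) (l 141054318890221583)) (c (c (b (l 141356341070331919) (l 2)) (l 141250444329009167)) (l 141092458209771535))) (c (l 141051157745336335) (l 140680897153695759))) (l 2))) (l 2))))) (b (a (c (b (l 16523864) (l 141699457440759823)) (b (l 16487424) (l 141586757416353807))) (a (b (l 16528816) (c (l 183173193447) (l 188541900967))) (l 187468153623))) (b (b (a (c (l 141703580617293839) (l 141399840441417743)) (l 2)) (l 2)) (l 2))))) (b (b (l 16545160) (a (l 16542040) (l 16553192))) (b (a (b (l 16544160) (l 2)) (l 2)) (l 2)))) (a (b (b (l 16566840) (l 2)) (l 2)) (l 2))) (l 2)), by decide +kernel⟩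

def k3_pm_023_a : ∃ t, chk3 f_pm_023_a t 3 1 1 = true :=
  ⟨(l 2), by decide +kernel⟩

theorem s4_pm_023_a : ∃ t, chk3 f_pm_023_a t 2 3 1 = true := ex3_b k1_pm_023_a k2_pm_023_a

theorem s5_pm_023_a : ∃ t, chk3 f_pm_023_a t 2 1 1 = true := ex3_b k0_pm_023_a s4_pm_023_a

theorem s6_pm_023_a : ∃ t, chk3 f_pm_023_a t 1 1 1 = true := ex3_a s5_pm_023_a k3_pm_023_a

theorem c_pm_023_a : CertB 0 536870912 0 536870912 587336777 62277027 3 eng mog cd0q0 cd2q2a pd3 true true false .up 0 2 3
    ndB0q0 ndB2q2a pcB3 Cut.none xt_pm_023_a :=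
  certB2 (fam := true) (s1 := true) (s2 := false) (a := 0) (b := 2) (c := 3) (cn := .up) (n1 := ndB0q0) (n2 := ndB2q2a) (pc := pcB3) (cut := Cut.none) (xt := xt_pm_023_a) (P1 := 0) (W1 := 536870912) (P2 := 0) (W2 := 536870912) (P3 := 587336777) (W3 := 62277027) (N0 := 3) (En := eng) (mo := mog) (C1 := cd0q0) (C2 := cd2q2a) (C3 := pd3)
    rfl (fun _ => rfl) s6_pm_023_a

noncomputable def f_pm_023_b : ℕ → ℕ → ℕ → ℕ → Bool := onCell 1610612736 536870912 1239849684 370763052 587336777 62277027
    (rowB 3 eng mog cd0q0 cd2q2b pd3 2 true true false .up 0 2 3 (qsf 0 536870912 1239849684 370763052 3) ndB0q0 ndB2q2b pcB3 Cut.none Ext.none)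

def k0_pm_023_b : ∃ t, chk3 f_pm_023_b t 1 1 1 = true :=
  ⟨(a (a (b (a (b (a (b (b (a (l 16638616) (l 16631672)) (l 16731696)) (l 16711600)) (b (b (l 16630560) (l 16629600)) (l 16617488))) (a (b (l 16571648) (l 16529920)) (l 16571432))) (b (b (a (b (l 16631152) (l 16636952)) (b (l 16640360) (l 16642976))) (a (l 16632352) (l 16645712))) (b (l 16684664) (l 16593024)))) (a (b (a (l 16461872) (l 16487112)) (a (l 16368000) (l 16394552))) (b (a (l 16519752) (l 16552832)) (a (l 16428608) (l 16470344))))) (b (a (b (b (a (b (l 16679280) (l 16661048)) (b (l 16709520) (l 16692032))) (a (l 16656904) (l 16675472))) (b (a (l 16651272) (l 16673544)) (l 16646416))) (b (b (a (l 472010077191) (l 2)) (a (l 16700632) (l 16723184))) (b (a (l 16699408) (l 16724736)) (l 16790656)))) (a (b (a (l 16587880) (l 16626472)) (a (l 16513400) (l 16569040))) (b (a (l 16668464) (l 16707968)) (a (l 16622168) (l 16671368)))))) (a (b (b (l 2) (a (a (b (l 16745560) (l 16743344)) (b (l 16757984) (l 16757832))) (l 4))) (a (b (a (l 16825664)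 (l 4)) (l 4)) (l 4))) (l 4))), by decide +kernel⟩

theorem c_pm_023_b : CertB 0 536870912 1239849684 370763052 587336777 62277027 3 eng mog cd0q0 cd2q2b pd3 true true false .up 0 2 3
    ndB0q0 ndB2q2b pcB3 Cut.none Ext.none :=
  certB2 (fam := true) (s1 := true) (s2 := false) (a := 0) (b := 2) (c := 3) (cn := .up) (n1 := ndB0q0) (n2 := ndB2q2b) (pc := pcB3) (cut := Cut.none) (xt := Ext.none) (P1 := 0) (W1 := 536870912) (P2 := 1239849684) (W2 := 370763052) (P3 := 587336777) (W3 := 62277027) (N0 := 3) (En := eng) (mo := mog) (C1 := cd0q0) (C2 := cd2q2b) (C3 := pd3)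
    rfl (fun _ => rfl) k0_pm_023_b

noncomputable def f_pm_033 : ℕ → ℕ → ℕ → ℕ → Bool := onCell 1610612736 536870912 1610612736 536870912 587336777 62277027
    (rowB 3 eng mog cd0q0 cd2q3 pd3 2 true true false .pnn 0 3 3 (qsf 0 536870912 1610612736 536870912 3) ndB0q0 ndB2q3 pcB3 Cut.none Ext.none)

def k0_pm_033 : ∃ t, chk3 f_pm_033 t 1 1 1 = true :=
  ⟨(a (a (b (b (a (a (b (l 16227840) (l 1)) (l 16209848)) (b (l 16316024) (l 16260208))) (a (l 1) (b (l 16202680) (l 1)))) (l 1)) (b (b (a (b (l 16449592) (l 16404200)) (a (b (l 16541200) (l 16496952)) (l 16593256))) (a (b (l 16360792) (l 376379635047)) (a (l 16439064) (l 4)))) (a (l 1) (a (l 1) (l 4))))) (a (b (l 4) (l 4)) (l 4))), by decide +kernel⟩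

theorem c_pm_033 : CertB 0 536870912 1610612736 536870912 587336777 62277027 3 eng mog cd0q0 cd2q3 pd3 true true false .pnn 0 3 3
    ndB0q0 ndB2q3 pcB3 Cut.none Ext.none :=
  certB2 (fam := true) (s1 := true) (s2 := false) (a := 0) (b := 3) (c := 3) (cn := .pnn) (n1 := ndB0q0) (n2 := ndB2q3) (pc := pcB3) (cut := Cut.none) (xt := Ext.none) (P1 := 0) (W1 := 536870912) (P2 := 1610612736) (W2 := 536870912) (P3 := 587336777) (W3 := 62277027) (N0 := 3) (En := eng) (mo := mog) (C1 := cd0q0) (C2 := cd2q3) (C3 := pd3)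
    rfl (fun _ => rfl) k0_pm_033

noncomputable def cut_pm_101 : Cut := Cut.of [[⟨0, 1, 0, 67108864⟩, ⟨1, 0, 0, 67108864⟩, ⟨2, 1, 0, 67108864⟩]]

noncomputable def f_pm_101 : ℕ → ℕ → ℕ → ℕ → Bool := onCell 536870912 536870912 0 536870912 587336777 62277027
    (rowB 3 eng mog cd0q1 cd2q0 pd1 2 true true false .npn 1 0 1 (qsf 536870912 536870912 0 536870912 1) ndB0q1 ndB2q0 pcB1 cut_pm_101 Ext.none)

def k0_pm_101 : ∃ t, chk3 f_pm_101 t 1 1 1 = true :=
  ⟨(a (l 3) (b (a (l 3) (b (a (l 3) (b (a (l 3) (a (l 3) (b (l 6) (l 3)))) (l 3))) (l 3))) (l 3))), by decide +kernel⟩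

theorem c_pm_101 : CertB 536870912 536870912 0 536870912 587336777 62277027 3 eng mog cd0q1 cd2q0 pd1 true true false .npn 1 0 1
    ndB0q1 ndB2q0 pcB1 cut_pm_101 Ext.none :=
  certB2 (fam := true) (s1 := true) (s2 := false) (a := 1) (b := 0) (c := 1) (cn := .npn) (n1 := ndB0q1) (n2 := ndB2q0) (pc := pcB1) (cut := cut_pm_101) (xt := Ext.none) (P1 := 536870912) (W1 := 536870912) (P2 := 0) (W2 := 536870912) (P3 := 587336777) (W3 := 62277027) (N0 := 3) (En := eng) (mo := mog) (C1 := cd0q1) (C2 := cd2q0) (C3 := pd1)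
    rfl (fun _ => rfl) k0_pm_101

noncomputable def cut_pm_102 : Cut := Cut.of [[⟨0, 1, 0, 67108864⟩, ⟨1, 0, 0, 67108864⟩, ⟨2, 1, 0, 67108864⟩]]

noncomputable def f_pm_102 : ℕ → ℕ → ℕ → ℕ → Bool := onCell 536870912 536870912 1073741824 536870912 587336777 62277027
    (rowB 3 eng mog cd0q1 cd2q0 pd2 1 true true false .npp 1 0 2 (qsf 536870912 536870912 0 536870912 2) ndB0q1 ndB2q0 pcB2 cut_pm_102 Ext.none)

def k0_pm_102 : ∃ t, chk3 f_pm_102 t 2 4 1 = true :=
  ⟨(b (l 3) (a (l 3) (b (l 3) (b (a (l 3) (b (l 3) (a (l 3) (b (l 3) (a (l 3) (l 16783184)))))) (a (a (l 3) (b (l 3) (b (l 3) (a (l 3) (a (l 16728256) (l 75866483367)))))) (b (a (b (l 3) (a (l 3) (l 16747168))) (b (a (l 16755704) (l 16756032)) (a (a (l 16749040) (l 16770800)) (a (l 16771128) (l 16770528))))) (a (b (a (b (l 16760200) (l 16757360)) (a (l 16740216) (l 16762832))) (a (a (l 16731656) (l 16754416)) (a (l 16756064) (l 16757424)))) (a (b (a (l 16764312) (l 16765104)) (a (l 16758408) (l 16758840))) (b (a (l 16764984) (l 16764176)) (l 16758312)))))))))),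 by decide +kernel⟩

def k1_pm_102 : ∃ t, chk3 f_pm_102 t 6 8 1 = true :=
  ⟨(a (l 3) (l 3)), by decide +kernel⟩

def k2_pm_102 : ∃ t, chk3 f_pm_102 t 14 8 1 = true :=
  ⟨(b (l 3) (b (a (l 3) (b (a (l 3) (b (a (l 3) (b (l 3) (l 210084355495))) (a (b (l 3) (l 213842456135)) (b (a (l 193441355815) (l 141901749767)) (a (l 138143658039) (l 16808320)))))) (a (b (a (l 3) (b (l 3) (l 196125727255))) (a (l 222432399527) (a (l 189146408791) (l 131164349479)))) (b (a (a (l 194515110311) (b (l 16808032) (l 16810344))) (a (b (l 16809312) (l 16786048)) (l 16783888))) (a (b (l 16809560) (l 16786064)) (a (l 16782520) (l 16779056))))))) (a (b (a (l 3) (b (a (l 3) (l 224579857399)) (a (l 224043002935) (b (l 189146401063) (c (l 16811616) (l 16809848)))))) (a (b (a (l 3) (b (l 207936888839) (l 204715664535))) (a (b (l 246054729287) (l 212231858871)) (b (a (l 16790280) (l 16787752)) (a (l 16787040) (l 16784576))))) (b (a (b (l 196125725655) (a (l 16788504) (l 16786080))) (b (l 16806936) (l 16782680))) (a (b (l 16804920) (l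 16781232)) (l 16778560))))) (b (a (b (a (b (l 16812672) (l 172503411671)) (a (l 16811208) (l 16787488))) (a (b (l 16809352) (l 16785024)) (l 16783040))) (a (b (a (l 16784528) (l 16781048)) (l 16777592)) (b (b (l 16777024) (l 16774672)) (l 16771360)))) (a (b (a (l 16780576) (l 16776520)) (a (l 16774512) (l 16770768))) (b (l 16790696) (l 16767520))))))), by decide +kernel⟩

def k3_pm_102 : ∃ t, chk3 f_pm_102 t 15 8 1 = true :=
  ⟨(b (a (b (l 3) (b (a (l 3) (a (b (l 3) (a (l 3) (b (l 3) (l 160155338423)))) (a (a (b (l 3) (b (l 6) (l 118279404695))) (l 6)) (l 6)))) (a (b (a (l 3) (b (l 3) (l 177335211911))) (a (b (l 3) (l 190220122583)) (b (a (l 173577118055) (a (l 16787264) (l 16796016))) (a (a (l 16798616) (l 16796856)) (l 16804648))))) (a (b (b (a (l 159618469991) (a (l 147270435751) (l 16794304))) (b (a (l 146733566151) (l 16782680)) (a (l 16795384) (l 16781640)))) (b (a (a (l 16783704) (l 16782240)) (l 16779856)) (a (l 16780680) (l 16777312)))) (b (a (b (a (l 16782064) (l 16780616)) (l 16799928)) (l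 16797536)) (b (l 16795328) (l 16772448))))))) (b (l 6) (a (a (b (l 6) (a (l 16792856) (l 6))) (l 6)) (l 6)))) (a (b (a (a (a (b (b (b (l 193978218135) (l 145659840903)) (b (l 16807360) (l 16784152))) (b (l 16780624) (l 16775696))) (b (b (b (c (l 147807320487) (l 151028545287)) (l 16806432)) (b (l 16783240) (l 16780944))) (b (l 16777200) (l 16772576)))) (b (b (a (b (l 16805512) (l 16782352)) (b (l 16781480) (l 16779144))) (b (l 16799144) (l 16796408))) (l 16791384))) (b (a (b (a (l 16797680) (l 16773848)) (l 16770936)) (l 16790824)) (a (l 16768376) (l 16761576)))) (a (b (l 16790216) (l 16762560)) (a (l 16756184) (l 16748680)))) (a (b (a (b (l 16762800) (l 16753920)) (b (l 16754920) (l 16745960))) (a (l 16740864) (l 16732832))) (b (a (b (l 6) (l 16737744)) (l 6)) (a (l 16724504) (l 16736776)))))), by decide +kernel⟩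

def k4_pm_102 : ∃ t, chk3 f_pm_102 t 6 18 1 = true :=
  ⟨(a (b (l 3) (a (l 3) (b (l 3) (a (b (l 3) (l 285783109543)) (b (l 282561880311) (a (l 16789304) (l 16785408))))))) (b (a (b (l 3) (a (l 3) (b (l 3) (a (l 3) (l 287393789687))))) (b (a (b (l 3) (a (l 3) (l 290078123015))) (b (a (l 278803837015) (l 215989961415)) (a (b (l 227801123751) (l 16809080)) (b (a (l 16787296) (l 16785048)) (l 16803952))))) (a (b (a (l 278803857143) (b (l 238538540263) (a (l 16787760) (l 16785432)))) (a (b (l 16809776) (a (l 16786592) (l 16784296))) (b (l 16804568) (l 16780312)))) (b (b (a (a (l 16786032) (l 16783768)) (l 16779824)) (l 16821120)) (l 16795784))))) (b (a (a (b (a (l 3) (l 317995390903)) (a (l 384030470023) (l 137069940055))) (b (a (l 249812828375) (b (l 16787288) (l 16784208))) (b (a (l 16785952) (l 16781224)) (l 16801432)))) (a (b (a (b (l 16782432) (l 16779384)) (l 16776264)) (l 16772912)) (b (l 16769624) (l 16764168)))) (a (a (b (a (b (l 16788704) (l 16785784)) (l 16804048)) (l 16757952)) (b (l 16797024)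 (l 16770720))) (a (b (l 16767440) (l 16762048)) (a (l 16758688) (l 16755608))))))), by decide +kernel⟩

def k5_pm_102 : ∃ t, chk3 f_pm_102 t 6 19 1 = true :=
  ⟨(a (b (a (a (b (l 3) (b (l 16786856) (l 16759624))) (b (b (l 287393725943) (l 16767352)) (b (l 16760960) (l 16758576)))) (b (b (a (l 16788312) (l 16759880)) (a (l 16760888) (l 16753552))) (a (b (l 16754528) (l 16769696)) (l 16765736)))) (a (b (a (b (l 16759168) (l 16768184)) (l 16766528)) (a (l 16758672) (l 16754768))) (b (a (l 16760672) (l 16754952)) (a (l 16750488) (l 16746664))))) (a (b (b (a (b (l 16773192) (l 16767272)) (b (l 16765072) (l 16759664))) (a (l 16758888) (l 16752688))) (b (a (l 16749824) (l 16746872)) (a (l 16744584) (l 16748648)))) (b (b (a (l 16754936) (l 16751232)) (a (l 16749056) (l 16754888))) (b (a (l 16751768) (l 16755512)) (l 16754496))))), by decide +kernel⟩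

def k6_pm_102 : ∃ t, chk3 f_pm_102 t 7 9 1 = true :=
  ⟨(a (b (b (a (b (a (b (a (b (a (l 16788704) (l 16786360)) (l 16815840)) (l 16822992)) (a (l 16800648) (l 16775616))) (b (a (l 16776976) (l 16772840)) (a (l 16771360) (l 16767352)))) (b (a (a (l 16774320) (l 16770040)) (l 16784408)) (a (l 16766520) (l 16759928)))) (b (a (l 16765096) (l 16765968)) (a (l 16763864) (l 16758496)))) (a (b (a (b (l 16761424) (l 16757232)) (l 16758048)) (a (l 16754048) (l 16759312))) (a (l 16756608) (l 16746632)))) (a (b (a (b (l 16757552) (l 16755568)) (l 16752144)) (l 16744824)) (b (a (l 16742984) (l 16731464)) (a (l 16729392) (l 16717104))))) (a (b (b (a (l 16771424) (l 16756840)) (a (l 16734080) (l 16719760))) (b (a (l 16718336) (l 16704040)) (a (l 16703696) (l 16689144)))) (b (a (b (l 16741016) (l 16703936)) (b (a (l 16707488) (l 16698640)) (l 16707776))) (a (b (l 16688480) (l 16673584)) (b (l 16671352) (l 16656688)))))), by decide +kernel⟩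

def k7_pm_102 : ∃ t, chk3 f_pm_102 t 2 5 1 = true :=
  ⟨(a (b (b (b (b (l 3) (l 2)) (l 2)) (l 2)) (l 2)) (b (b (b (b (a (a (b (l 3) (a (b (l 3) (c (l 16741352) (l 99488783927))) (b (c (l 16722912) (l 96804429687)) (a (c (l 16741376) (l 138143485015)) (l 16713328))))) (b (a (b (l 57075995575) (a (l 16718952) (l 16741328))) (b (l 172503239863) (l 16743976))) (a (b (a (l 16737648) (l 16739168)) (l 16715240)) (b (l 16741648) (l 16739072))))) (a (b (a (b (l 16749832) (l 16747208)) (a (l 16750424) (l 16751424))) (l 16722928)) (b (l 16731176) (l 16725656)))) (a (a (b (a (b (a (l 48418921303) (l 159618322071)) (l 76336227575)) (b (l 16721136) (l 16729320))) (a (b (l 16726200) (l 16723832)) (b (l 16726832) (l 16724152)))) (b (a (b (l 16733752) (l 16731048)) (l 16734664)) (l 16707008))) (a (b (l 16738152) (l 16733312)) (a (l 16739568) (l 16740712))))) (b (a (a (b (a (b (l 16721248) (l 2)) (l 16720232)) (l 41976482087)) (b (l 16702208) (l 16698784))) (a (b (l 16729648) (l 16727392)) (b (l 16735560) (l 16734112))))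 (b (a (a (b (l 16712664) (l 59156336583)) (l 16697560)) (a (l 16747960) (l 16754912))) (a (b (a (l 70967498247) (c (l 16790352) (l 16691408))) (b (b (b (a (l 16714304) (l 16721872)) (b (a (l 16715176) (l 16722576)) (a (l 16716232) (a (l 16721776) (l 16725264))))) (a (l 16716424) (l 16723488))) (a (l 16716040) (l 16723272)))) (b (a (c (l 16766080) (l 16742664)) (l 16735264)) (a (a (a (l 16748720) (l 16750536)) (l 16753352)) (l 16804792))))))) (a (a (l 16730168) (l 16741712)) (a (l 16748384) (l 16754768)))) (a (a (l 2) (l 16752424)) (a (l 16752688) (l 16750024))))), by decide +kernel⟩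

def k8_pm_102 : ∃ t, chk3 f_pm_102 t 3 5 1 = true :=
  ⟨(a (b (b (b (a (a (b (a (l 16748104) (l 16745632)) (a (l 16740688) (l 16740128))) (b (a (l 16743376) (l 16742360)) (a (l 16740328) (l 16745608)))) (a (b (a (l 16746400) (l 16753840)) (l 16754248)) (b (l 16751656) (l 16747664)))) (b (a (a (b (l 16738000) (l 16737928)) (l 16750720)) (a (l 16753840) (l 16742744))) (b (a (a (l 16742480) (l 16755096)) (a (l 16752088) (l 16738128))) (a (a (b (l 16749888) (l 16776224)) (b (l 16756784) (l 16799600))) (b (a (l 16750536) (l 16734808)) (a (l 16769640) (a (l 16736328) (a (l 16728784) (a (l 16724720) (l 16764000)))))))))) (a (a (l 16757064) (l 16751232)) (a (l 16737544) (a (l 16723032) (l 16712040))))) (a (a (l 16741920) (l 16727272)) (a (l 16706880) (b (l 16693696) (l 16671832))))) (b (a (b (b (a (b (l 16736056) (l 16729888)) (a (l 16715920) (l 16703464))) (b (a (l 16723256) (l 16699824)) (b (a (l 16717560) (l 16694616)) (b (a (l 16713968) (l 16691584)) (a (b (b (b (l 16712312) (a (l 16716336) (l 16706248)))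 (l 16711112)) (l 16710504)) (l 16688984)))))) (a (b (l 16703664) (l 16691104)) (b (l 16682056) (l 16669936)))) (b (b (a (a (l 16689976) (l 16675344)) (a (l 16659632) (l 16642712))) (b (a (l 16672960) (l 16662576)) (b (a (l 16668048) (l 16636920)) (a (b (l 16665344) (a (l 16670080) (l 16656088))) (b (l 16634536) (a (l 16640912) (l 16624320))))))) (a (b (l 16656592) (l 16645032)) (b (a (l 16634464) (l 16617864)) (l 16615416))))) (a (a (b (l 16673168) (l 16651720)) (b (l 16652544) (l 16632088))) (a (b (l 16628408) (l 16609112)) (b (l 16641872) (l 16582128)))))), by decide +kernel⟩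

def k9_pm_102 : ∃ t, chk3 f_pm_102 t 1 3 1 = true :=
  ⟨(a (a (l 2) (b (a (l 2) (b (l 16827152) (l 2))) (l 2))) (a (b (a (b (a (l 16722384) (l 16700168)) (l 16698504)) (b (a (l 16672472) (l 16642408)) (a (l 16645072) (l 16607216)))) (a (l 2) (b (l 16711008) (l 2)))) (b (a (b (a (l 16623592) (l 16627248)) (a (l 16590992) (l 16577744))) (b (a (b (l 16593216) (l 16579480)) (b (l 16567848) (l 16556472))) (a (l 16645632) (b (l 16547936) (l 16537656))))) (a (b (b (l 16572472) (l 16582488)) (l 16605760)) (b (a (l 16551248) (l 16531728)) (l 16554504)))))), by decide +kernel⟩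

theorem s10_pm_102 : ∃ t, chk3 f_pm_102 t 1 5 1 = true := ex3_a k7_pm_102 k8_pm_102

theorem s11_pm_102 : ∃ t, chk3 f_pm_102 t 6 9 1 = true := ex3_b k4_pm_102 k5_pm_102

theorem s12_pm_102 : ∃ t, chk3 f_pm_102 t 3 9 1 = true := ex3_a s11_pm_102 k6_pm_102

theorem s13_pm_102 : ∃ t, chk3 f_pm_102 t 7 8 1 = true := ex3_a k2_pm_102 k3_pm_102

theorem s14_pm_102 : ∃ t, chk3 f_pm_102 t 3 8 1 = true := ex3_a k1_pm_102 s13_pm_102

theorem s15_pm_102 : ∃ t, chk3 f_pm_102 t 3 4 1 = true := ex3_b s14_pm_102 s12_pm_102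

theorem s16_pm_102 : ∃ t, chk3 f_pm_102 t 1 4 1 = true := ex3_a k0_pm_102 s15_pm_102

theorem s17_pm_102 : ∃ t, chk3 f_pm_102 t 1 2 1 = true := ex3_b s16_pm_102 s10_pm_102

theorem s18_pm_102 : ∃ t, chk3 f_pm_102 t 1 1 1 = true := ex3_b s17_pm_102 k9_pm_102

theorem c_pm_102 : CertB 536870912 536870912 0 536870912 587336777 62277027 3 eng mog cd0q1 cd2q0 pd2 true true false .npp 1 0 2
    ndB0q1 ndB2q0 pcB2 cut_pm_102 Ext.none :=
  certB1 (fam := true) (s1 := true) (s2 := false) (a := 1) (b := 0) (c := 2) (cn := .npp) (n1 := ndB0q1) (n2 := ndB2q0) (pc := pcB2) (cut := cut_pm_102) (xt := Ext.none) (P1 := 536870912) (W1 := 536870912) (P2 := 0) (W2 := 536870912) (P3 := 587336777) (W3 := 62277027) (N0 := 3) (En := eng) (mo := mog) (C1 := cd0q1) (C2 := cd2q0) (C3 := pd2)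
    rfl (fun _ => rfl) s18_pm_102

noncomputable def f_pm_112 : ℕ → ℕ → ℕ → ℕ → Bool := onCell 536870912 536870912 1073741824 536870912 587336777 62277027
    (rowB 3 eng mog cd0q1 cd2q1 pd2 1 true true false .dn 1 1 2 (qsf 536870912 536870912 536870912 536870912 2) ndB0q1 ndB2q1 pcB2 Cut.none Ext.none)

def k0_pm_112 : ∃ t, chk3 f_pm_112 t 1 4 1 = true :=
  ⟨(a (a (l 3) (a (a (l 3) (l 1)) (l 1))) (l 1)), by decide +kernel⟩

def k1_pm_112 : ∃ t, chk3 f_pm_112 t 4 5 1 = true :=
  ⟨(b (b (b (a (l 3) (b (l 3) (a (b (l 3) (b (l 3) (a (l 3) (l 16671840)))) (b (a (l 3) (b (l 3) (l 16679528))) (a (b (l 16670504) (l 16673392)) (b (l 16672616) (l 16675864))))))) (b (a (b (a (l 3) (b (l 3) (a (l 3) (l 16673472)))) (a (b (l 3) (a (l 3) (l 16674232))) (b (l 16695888) (a (l 16674616) (l 16675488))))) (b (a (b (a (l 16672776) (l 16673928)) (a (l 16674192) (l 16675768))) (b (a (l 16676072) (l 16678192)) (a (l 16677616) (l 16678488)))) (a (b (a (l 16675592) (l 16677048)) (a (l 16676616) (l 16677544))) (b (a (l 16677928)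 (l 16678256)) (l 16678408))))) (b (a (b (a (a (l 240685767143) (l 16674440)) (a (l 16675232) (l 16676136))) (b (a (a (l 16674152) (l 16674656)) (l 16675608)) (a (a (l 16674240) (l 16674752)) (l 16675824)))) (a (b (a (l 16677064) (l 16677704)) (l 16678280)) (b (l 16679648) (l 16682296)))) (a (a (b (b (a (l 16674224) (l 16674960)) (b (l 16675040) (l 16675936))) (b (b (b (l 16676928) (a (l 16677488) (l 16679152))) (l 16678984)) (l 16679136))) (b (c (l 16681368) (l 16674520)) (b (b (b (l 16680416) (b (l 16681496) (l 16682712))) (l 16683080)) (l 16683392)))) (b (b (a (l 16680248) (l 16685576)) (a (l 16683088) (l 16689776))) (b (b (b (a (l 16685552) (l 16694048)) (b (a (l 16687376) (l 16696360)) (a (l 16689688) (l 16698776)))) (a (l 16690616) (l 16699704))) (a (l 16690992) (l 16700128)))))))) (a (a (b (l 16680216) (l 16679576)) (l 16687880)) (a (l 16696880) (l 16707088)))) (a (a (l 16669400) (l 16684392)) (a (l 16698736) (l 16712232)))), by decide +kernel⟩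

def k2_pm_112 : ∃ t, chk3 f_pm_112 t 5 5 1 = true :=
  ⟨(a (a (b (b (b (b (a (a (l 3) (a (l 3) (l 1))) (l 1)) (b (a (b (a (c (l 16669040) (l 16664648)) (c (l 19360714663) (l 23118787911))) (a (l 16671040) (l 16672640))) (l 1)) (a (b (l 16675344) (l 16677728)) (b (l 1) (l 16677488))))) (b (b (a (b (l 16678720) (l 16678504)) (l 16678312)) (a (l 16679448) (l 16680848))) (b (b (a (l 16682544) (l 16685088)) (a (l 16686576) (l 16690440))) (b (a (l 16694536) (l 16698552)) (b (b (b (l 16702600) (b (l 16704848) (l 16707248))) (l 16708136)) (l 16708568)))))) (l 16715880)) (l 16723256)) (b (b (b (l 1) (b (l 1) (b (l 1) (b (l 1) (b (l 1) (l 16712776)))))) (l 16721000)) (l 16730496))) (b (b (l 1) (l 257194791319)) (b (l 133177656535) (l 16735360)))), by decide +kernel⟩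

def k3_pm_112 : ∃ t, chk3 f_pm_112 t 3 5 1 = true :=
  ⟨(a (b (l 1) (a (l 203507733783) (l 1))) (l 1)), by decide +kernel⟩

def k4_pm_112 : ∃ t, chk3 f_pm_112 t 1 3 1 = true :=
  ⟨(a (a (b (a (b (a (l 16638832) (l 16663984)) (a (l 16595088) (l 16633632))) (b (a (l 16687144) (l 16707272)) (a (l 16669392) (l 16700840)))) (a (b (a (l 16535336) (l 16590656)) (a (b (l 16478384) (l 16432968)) (a (l 16510808) (l 16547480)))) (b (a (l 16644152) (l 16692952)) (a (l 16603960) (b (l 16682488) (l 16670520)))))) (b (a (b (a (l 16723352) (l 16733960)) (a (l 16726144) (l 16743640))) (b (a (l 16738632) (l 16737624)) (a (l 16752488) (l 16751632)))) (a (b (a (l 16734208) (l 16765024)) (a (b (l 16741096) (l 16743880)) (b (l 16787752) (l 16804352)))) (b (a (l 16784056) (l 16790200)) (a (l 16834256) (l 16856536)))))) (a (b (a (b (a (l 16730264) (l 16717024)) (l 16729520)) (b (a (l 16699920) (l 1)) (a (l 16688408) (l 16659632)))) (a (b (a (l 16780760) (l 16754584)) (a (l 16860712) (l 16844096))) (b (a (l 16715344) (l 16672496))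 (a (l 16806968) (l 16756928))))) (b (a (b (l 1) (a (l 180958937623) (l 1))) (l 1)) (a (b (l 71974187047) (l 16700656)) (b (l 161631669623) (l 16650064)))))), by decide +kernel⟩

theorem s5_pm_112 : ∃ t, chk3 f_pm_112 t 2 5 1 = true := ex3_a k1_pm_112 k2_pm_112

theorem s6_pm_112 : ∃ t, chk3 f_pm_112 t 1 5 1 = true := ex3_a s5_pm_112 k3_pm_112

theorem s7_pm_112 : ∃ t, chk3 f_pm_112 t 1 2 1 = true := ex3_b k0_pm_112 s6_pm_112

theorem s8_pm_112 : ∃ t, chk3 f_pm_112 t 1 1 1 = true := ex3_b s7_pm_112 k4_pm_112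

theorem c_pm_112 : CertB 536870912 536870912 536870912 536870912 587336777 62277027 3 eng mog cd0q1 cd2q1 pd2 true true false .dn 1 1 2
    ndB0q1 ndB2q1 pcB2 Cut.none Ext.none :=
  certB1 (fam := true) (s1 := true) (s2 := false) (a := 1) (b := 1) (c := 2) (cn := .dn) (n1 := ndB0q1) (n2 := ndB2q1) (pc := pcB2) (cut := Cut.none) (xt := Ext.none) (P1 := 536870912) (W1 := 536870912) (P2 := 536870912) (W2 := 536870912) (P3 := 587336777) (W3 := 62277027) (N0 := 3) (En := eng) (mo := mog) (C1 := cd0q1) (C2 := cd2q1) (C3 := pd2)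
    rfl (fun _ => rfl) s8_pm_112

noncomputable def f_pm_113 : ℕ → ℕ → ℕ → ℕ → Bool := onCell 536870912 536870912 1610612736 536870912 587336777 62277027
    (rowB 3 eng mog cd0q1 cd2q1 pd3 1 true true false .nn 1 1 3 (qsf 536870912 536870912 536870912 536870912 3) ndB0q1 ndB2q1 pcB3 Cut.none Ext.none)

def k0_pm_113 : ∃ t, chk3 f_pm_113 t 2 1 1 = true :=
  ⟨(a (b (b (b (a (a (b (l 16445144) (l 266387948167)) (l 16502584)) (a (l 16577376) (l 16654552))) (b (a (a (l 2) (l 16470768)) (l 16597304)) (a (l 2) (l 74725087127)))) (b (a (l 2) (b (a (l 2) (l 16610688)) (l 2))) (l 2))) (l 2)) (b (b (a (b (a (l 16723536) (l 16779056)) (b (l 16728184) (l 16692336))) (b (a (l 16828240) (l 16878384)) (a (l 16791376) (l 16835720)))) (b (a (a (l 16710304) (l 16717296)) (a (l 16758928) (l 16798232))) (a (a (l 2) (a (l 2) (l 16705784))) (a (l 16732592) (l 16766824))))) (b (b (a (l 2) (b (a (l 2) (l 16747912)) (l 2))) (l 2)) (l 2)))), by decide +kernel⟩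

def k1_pm_113 : ∃ t, chk3 f_pm_113 t 3 1 1 = true :=
  ⟨(b (b (a (a (b (a (l 16941312) (l 16988792)) (a (l 16887432) (l 16950920))) (b (a (l 16987248) (b (l 16914040) (l 17009904))) (b (l 17106216) (l 17052920)))) (b (a (b (b (l 16813792) (l 16872968)) (l 16948000)) (b (b (l 16698816) (l 16784768)) (l 16853032))) (b (a (l 17002472) (l 16913624)) (a (l 17029280) (l 16933656))))) (a (b (a (a (l 16842584) (l 16893800)) (a (l 16952288) (l 17022528))) (a (b (l 16814072) (l 16857952)) (a (l 16892032) (l 16900280)))) (b (a (b (l 17053528) (l 17074744)) (b (l 16914392) (l 16980104))) (a (a (l 16997304) (l 17053688)) (a (l 17020232) (l 16983128)))))) (a (b (a (b (a (l 16774432) (l 16808184)) (a (l 2) (b (l 16784728) (l 2)))) (b (a (l 16843512) (l 16880968)) (a (l 16804352) (l 16830720)))) (b (a (l 2) (a (l 2) (b (l 16798784) (l 2)))) (l 2))) (a (b (b (a (l 16920248) (l 16958632)) (l 16915200)) (b (a (l 16891176) (l 16826120)) (b (a (l 2) (l 16786952)) (l 2)))) (b (b (c (l 16997544) (l 16999072)) (c (l 16926392)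 (l 17066720))) (b (l 16953752) (b (a (l 16795992) (l 16806632)) (b (l 16837816) (a (l 2) (b (l 16763136) (l 4)))))))))), by decide +kernel⟩

theorem s2_pm_113 : ∃ t, chk3 f_pm_113 t 1 1 1 = true := ex3_a k0_pm_113 k1_pm_113

theorem c_pm_113 : CertB 536870912 536870912 536870912 536870912 587336777 62277027 3 eng mog cd0q1 cd2q1 pd3 true true false .nn 1 1 3
    ndB0q1 ndB2q1 pcB3 Cut.none Ext.none :=
  certB1 (fam := true) (s1 := true) (s2 := false) (a := 1) (b := 1) (c := 3) (cn := .nn) (n1 := ndB0q1) (n2 := ndB2q1) (pc := pcB3) (cut := Cut.none) (xt := Ext.none) (P1 := 536870912) (W1 := 536870912) (P2 := 536870912) (W2 := 536870912) (P3 := 587336777) (W3 := 62277027) (N0 := 3) (En := eng) (mo := mog) (C1 := cd0q1) (C2 := cd2q1) (C3 := pd3)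
    rfl (fun _ => rfl) s2_pm_113

noncomputable def cut_pm_123_a : Cut := Cut.of [[⟨0, 1, 0, 67108864⟩, ⟨1, 1, 0, 67108864⟩, ⟨2, 2, 0, 16777216⟩], [⟨0, 0, 1, 20971520⟩, ⟨1, 1, 0, 29360128⟩, ⟨2, 1, 1, 20971520⟩]]

noncomputable def xt_pm_123_a : Ext := extD2 3 ⟨7, 3, 3, 10, 1815, 1000, 17, 20, 37, 100, 3, 16⟩ eng cd0q1 cd2q2a pd3 true true false .npn 1 2 3 rfl ndB0q1 ndB2q2a pcB3

noncomputable def f_pm_123_a : ℕ → ℕ → ℕ → ℕ → Bool := onCell 1610612736 536870912 0 536870912 587336777 62277027
    (rowB 3 eng mog cd0q1 cd2q2a pd3 2 true true false .npn 1 2 3 (qsf 536870912 536870912 0 536870912 3) ndB0q1 ndB2q2a pcB3 cut_pm_123_a xt_pm_123_a)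

def k0_pm_123_a : ∃ t, chk3 f_pm_123_a t 4 2 1 = true :=
  ⟨(a (l 1) (b (l 1) (a (l 1) (b (l 1) (l 16587920))))), by decide +kernel⟩

def k1_pm_123_a : ∃ t, chk3 f_pm_123_a t 8 6 1 = true :=
  ⟨(l 1), by decide +kernel⟩

def k2_pm_123_a : ∃ t, chk3 f_pm_123_a t 16 14 1 = true :=
  ⟨(l 1), by decide +kernel⟩

def k3_pm_123_a : ∃ t, chk3 f_pm_123_a t 32 15 1 = true :=
  ⟨(b (l 1) (a (b (l 1) (b (a (l 1) (c (c (l 141329334305226767) (l 141125443563847695)) (l 140841632049020943))) (c (c (c (b (a (l 141330914855059471) (l 141397710206091279)) (a (c (b (l 141368298261872655) (c (b (l 141387127404331023) (c (a (a (l 141374826614358031) (l 141389738745430031)) (l 141412484899258383)) (a (l 141368023384702991) (l 141398534841745423)))) (a (l 141345002353672207) (l 141376201005547535)))) (a (l 141299303889125391) (l 141331876930666511))) (c (b (l 141432276114063375) (b (l 141436330565222415) (c (a (l 141436605443309583) (l 141468353851359247)) (l 141425816483004431)))) (a (l 141365137167187983) (l 141399290757136399)))))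 (b (l 141436399233056783) (a (c (l 141260339936002063) (l 141205914096025615)) (c (l 141329815346790415) (l 141278138286112783))))) (a (b (l 141060641082556431) (c (l 141125787164917775) (l 141021608410497039))) (b (l 141140836732649487) (c (l 141381904675012623) (l 141101941499379727))))) (c (a (b (l 140859292962684943) (l 141051157745336335)) (a (l 140929730443755535) (l 141154443143479311))) (a (l 140856063098568719) (b (l 140763704141627407) (l 140771263286362127))))))) (b (c (b (l 141684339113181199) (a (l 141292157054959631) (l 141382729348808719))) (c (l 141064626803621903) (l 140899150258192399))) (b (c (c (c (l 141492680547024911) (l 141397641484107791)) (a (l 141213060918984719) (l 141305145041272847))) (c (l 141259721404973071) (l 140907740196732943))) (c (c (c (b (a (l 141467804092923919) (l 141541127796129807)) (b (a (l 141474469885952015) (l 141546350479982607)) (a (b (c (l 141502713599934479) (l 141453098123509775)) (c (a (l 141488213786542095) (l 141521886340448271)) (l 141455365867520015)))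 (a (c (l 141555421454974991) (l 141508348599418895)) (c (l 141590811996274703) (l 141545525847277583)))))) (b (a (l 141369329055121423) (l 141449387267719183)) (a (a (l 141359364730273807) (l 141397435331084303)) (b (l 141454472512225295) (a (l 141438254712356879) (l 141477905861623823)))))) (a (b (l 141225224271921167) (c (a (l 141261233289773071) (l 141302121389391887)) (l 141276557711458319))) (b (l 141313941139374095) (a (a (l 141287277977321487) (l 141489313244659727)) (c (l 141386852526915599) (l 141298273094844431)))))) (c (a (b (l 141039750352109583) (c (l 141093145401507855) (l 141001404874047503))) (b (l 141137400752144399) (c (l 141321431526342671) (l 141098299359526927)))) (a (b (l 140861766857359375) (l 141047034568523791)) (a (l 140940519396179983) (l 141173203556515855))))))))), by decide +kernel⟩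

def k4_pm_123_a : ∃ t, chk3 f_pm_123_a t 33 30 1 = true :=
  ⟨(a (b (l 1) (c (l 141879502469775375) (l 141586619977383951))) (a (b (l 1) (c (l 141692035779854351) (l 141437567479349263))) (b (l 16537080) (l 16538328)))), by decide +kernel⟩

def k5_pm_123_a : ∃ t, chk3 f_pm_123_a t 33 62 1 = true :=
  ⟨(b (a (c (l 141703511897817103) (l 141399771721941007)) (a (c (l 141685369997017103) (l 141417982428233743)) (l 141613145801310223))) (a (c (c (l 141606548745781263) (l 141448631340892175)) (c (l 141293119118573583) (l 141139874639855631))) (a (c (l 141681727869583375) (l 141405750361620495)) (l 141604418430238735)))), by decide +kernel⟩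

def k6_pm_123_a : ∃ t, chk3 f_pm_123_a t 66 63 1 = true :=
  ⟨(c (b (c (a (l 141568959187402767) (l 141656576544620559)) (a (l 141401833369698319) (l 141503332062707727))) (c (a (a (b (l 141555077853446159) (b (l 141559063586373647) (a (c (l 141595897238929423) (l 141508211159416847)) (c (l 141704680176222223) (l 141528689569284111))))) (b (l 141596240831725583) (b (l 141599333211357199) (c (c (l 141709009518526479) (l 141622354244927503)) (a (l 141549442857107471) (l 141570471022919695)))))) (b (c (l 141698289285496847) (l 141621117287677967)) (c (b (l 141700282153549839) (a (b (l 141681521732157455) (c (b (l 141702000143695887) (l 141702481180622863)) (l 141662486431596559))) (a (a (l 141706604349112335) (l 141716568676220943)) (c (l 141750241230815247) (l 141712995261448207))))) (b (l 141622766557921295) (a (a (l 141591636627750927) (l 141613145830031375)) (b (l 141645581431799823) (c (l 141665029051154447) (l 141626958448050191)))))))) (a (b (l 141406987335008271) (c (b (l 141452067327213583) (a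 (l 141432001235812367) (l 141476668907716623))) (a (l 141344864912064527) (l 141392693680177167)))) (b (l 141504706456256527) (c (a (a (l 141510204020719631) (l 141533499929575439)) (a (l 141616169466396687) (a (l 141574869065678863) (l 141586826257842191)))) (b (l 141466292258127887) (a (l 141442034277761039) (l 141491855911256079)))))))) (b (c (a (l 141237456332226575) (l 141349675264573455)) (a (l 141075690636050447) (l 141195331272327183))) (c (a (b (l 141240136394752015) (a (a (l 141204127381733391) (l 141229484874842127)) (a (l 141255117245939727) (l 141281093214502927)))) (b (l 141348163438379023) (a (c (l 141361082707853327) (l 141280199858323471)) (c (l 141413859279126543) (l 141335175452999695))))) (a (b (l 141074728564686863) (c (l 141116372581154831) (l 141032603513978895))) (b (l 141189971153731599) (c (b (l 141227766878781455) (l 141226598648119311)) (l 141146196835106831))))))), by decide +kernel⟩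

def k7_pm_123_a : ∃ t, chk3 f_pm_123_a t 67 126 1 = true :=
  ⟨(a (c (c (l 141747836035137551) (l 141609366242361359)) (c (l 141467048158969871) (l 141320881784995855))) (c (b (l 141730449999085583) (l 141729144331878415)) (l 141638365807591439))), by decide +kernel⟩

def k8_pm_123_a : ∃ t, chk3 f_pm_123_a t 134 127 1 = true :=
  ⟨(c (b (c (a (l 141725433484738575) (l 141769826279391247)) (a (l 141580985095225359) (l 141632662155182095))) (a (c (b (l 141906028272451599) (a (b (l 141715400442331151) (c (c (l 141770169885638671) (l 141733954708488207)) (l 141769207780753423))) (b (l 141736978364268559) (a (c (l 141812432361947151) (l 141695884103811087)) (a (c (l 141775048968912911) (l 141704267882348559)) (b (l 141745224704573455) (b (l 141745293424410639) (c (a (l 141779103419596815) (l 141782195796819983)) (l 141710315198234639))))))))) (b (l 141580366621851663) (c (a (l 141604968205303823) (a (l 141623110152044559) (c (l 141653415450902543) (l 141617200273997839)))) (b (l 141542914495365135) (a (l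 141529857792049167) (l 141555627602477071)))))) (c (b (a (l 141758899882246159) (a (l 141775804878323727) (l 141875860439187471))) (b (a (a (l 141753333604466703) (c (l 141799238230654991) (l 141730724887232527))) (c (l 141817998652276751) (l 141750241223262223))) (a (b (a (a (l 141750722264285199) (l 141756907018764303)) (l 141767283662127119)) (b (c (c (l 141813669326733327) (l 141779240856190991)) (l 141771887853174799)) (c (c (l 141814837558099983) (l 141780271648604175)) (l 141772849926078479)))) (c (a (c (l 141833597979475983) (l 141799581825908751)) (a (a (l 141825351637942287) (l 141828100417650703)) (l 141830024563490831))) (a (l 141747836041052175) (c (l 141777110547169295) (l 141742475918344207))))))) (b (a (l 141618780819390479) (b (l 141643725995671567) (l 141824252061646863))) (a (a (b (l 141611771432026127) (c (b (l 141647917889896463) (l 141648879962947599)) (l 141575899853160463))) (b (l 141625103013871631) (l 141716912235413519))) (a (b (l 141639465387884559) (l 141731824365240335))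 (c (l 141688393670983695) (l 141617200268066831)))))))) (a (c (b (l 141432688415293455) (b (l 141430489393037327) (a (l 141415302385991695) (c (l 141480998225182735) (l 141404925739237391))))) (b (l 141280406005989391) (a (l 141259927598612495) (l 141470003045974031)))) (a (b (l 141402108234366991) (b (l 141398122505125903) (c (b (l 141471858528927759) (c (l 141509379376152591) (l 141433994084974607))) (c (l 141357715440582671) (l 141279650089975823))))) (b (l 141431039140970511) (c (b (l 141500858154385423) (a (l 141494604681134095) (l 141507317787230223))) (b (l 141351255804084239) (c (l 141387333541855247) (l 141309611788632079)))))))), by decide +kernel⟩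

def k9_pm_123_a : ∃ t, chk3 f_pm_123_a t 135 127 1 = true :=
  ⟨(c (b (a (b (l 141723990370992143) (c (l 141791679081545743) (l 141657195016617999))) (b (l 141735535247835151) (l 141741170246500367))) (b (a (c (l 141796970483122191) (l 141659875077423119)) (l 141747767317889039)) (c (b (l 141812775966769167) (a (c (a (l 141836278037495823) (l 141846448522690575)) (l 141772300180750351)) (c (a (l 141901767704117263) (l 141912213067268111)) (l 141791885236731919)))) (b (l 141672175867052047) (c (l 141710864945774607) (l 141638090994581519)))))) (b (c (b (l 141523741745283087) (l 141523466867965967)) (l 141376750735867919)) (b (c (l 141524154063355919) (l 141372971164647439)) (c (b (l 141525184855982095) (l 141525940770553871)) (l 141371115738791951))))), by decide +kernel⟩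

def k10_pm_123_a : ∃ t, chk3 f_pm_123_a t 17 14 1 = true :=
  ⟨(b (l 16566008) (a (l 16542000) (l 16553168))), by decide +kernel⟩

def k11_pm_123_a : ∃ t, chk3 f_pm_123_a t 34 15 1 = true :=
  ⟨(b (b (l 16544144) (a (l 141825282832941071) (a (l 16548440) (l 16552296)))) (a (b (b (l 141634311411253263) (c (a (l 141746049325006863) (l 141764122556579855)) (l 141679391345491983))) (b (c (a (b (l 141746599085293583) (l 141753677194575887)) (l 141783776333594639)) (a (b (l 141481341810622479) (l 141479280227024911)) (l 141508554731929615))) (c (b (c (l 141854419980861455) (l 141715606587785231)) (c (b (l 141868163879436303) (b (a (l 141853732785487887) (l 141896819908427791)) (b (a (l 141947191274635279) (a (l 141889398202974223) (l 141911594599612431))) (a (a (c (a (l 141923964100788239) (l 141934684341911567)) (l 141812982121545743)) (c (c (l 14) (l 141888023814914063)) (l 141833666689384463))) (c (l 14) (a (l 141899980989890575) (c (l 141895445516582927) (l 141857855949651983)))))))) (b (l 141724127805128719)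 (a (b (l 141709146955284495) (a (l 141792503678795791) (l 141811607698341903))) (a (c (l 141777454136131599) (l 141701656527306767)) (c (l 141888161218478095) (l 141721241583288335))))))) (b (l 141674924582322191) (b (l 141676024094752783) (a (c (l 141558651250262031) (l 141400252805054479)) (c (l 141683858146246671) (l 141431314017058831)))))))) (b (b (c (l 141791404196511759) (l 141549442828763151)) (c (l 141813188277616655) (l 141551160817926159))) (b (c (l 141844730525024271) (l 141557208134533135)) (c (b (l 141869606981648399) (c (b (l 141957842819301391) (a (b (l 141942174774558735) (c (l 14) (c (l 14) (a (l 141878884114890767) (l 141946504085733391))))) (b (l 141989728664420367) (l 14)))) (b (l 141805629125558287) (a (b (l 141789411324919823) (c (a (l 141821159734575119) (l 141933035048271887)) (l 141798207405506575))) (b (l 141832773325815823) (a (c (b (l 141864315576975375) (l 141911388419047439)) (l 141784944554672143)) (c (a (l 141882526242914319) (l 141939151094677519)) (l 141806866073337871))))))))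 (b (l 141562224658546703) (c (b (l 141646818361999375) (a (b (l 141630188244451343) (l 141721928746434575)) (a (l 141660287383175183) (l 141860673382563855)))) (a (l 141464436813561871) (l 141679391346081807))))))))), by decide +kernel⟩

def k12_pm_123_a : ∃ t, chk3 f_pm_123_a t 35 15 1 = true :=
  ⟨(b (b (l 16558168) (a (a (l 16556312) (l 16560568)) (l 141780752661512207))) (a (b (l 141930286235189263) (b (c (l 141933584830742543) (l 141629020006563855)) (c (b (l 141962240859537423) (c (l 14) (b (l 141895926540845071) (a (b (l 141878471789395983) (c (c (l 14) (a (l 141891391055953935) (l 141960247977639951))) (a (l 141829268628455439) (l 141942380892995599)))) (b (l 141926437996199951) (c (l 14) (a (b (l 141874967092002831) (l 141966982471860239)) (a (l 141894071111335951) (l 141996394415259663))))))))) (b (l 141637747383205903) (c (b (l 141728594560401423) (a (b (l 141710727492042767) (c (l 141846104875663375) (l 141669701951389711))) (c (a (l 141788105645408271) (l 141811126675931151)) (l 141711483403878415))))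 (b (l 141554665510158351) (a (l 141536798441963535) (l 141756357180375055)))))))) (b (l 142011993713541135) (b (c (l 142031441389781007) (l 141709284375953423)) (c (c (l 14) (c (l 14) (b (l 141939082379526159) (b (l 141952207802990607) (c (l 14) (a (b (l 141911388422144015) (a (l 141903004643966991) (l 141973235955449871))) (l 14))))))) (b (l 141722066202689551) (c (b (l 141819441731600399) (a (b (l 141800337712447503) (c (a (l 141836484169252879) (l 141950833384636431)) (l 141847891577012239))) (b (l 141848647516684303) (a (c (b (l 141884725253980175) (l 141976740633837583)) (l 141793259601920015)) (c (a (l 141904791346184207) (l 142007801845022735)) (l 141817655022272527)))))) (b (l 141636647867023375) (a (b (l 141617268969914383) (l 141798757108514831)) (a (l 141650666644226063) (l 141673275357806607))))))))))), by decide +kernel⟩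

def k13_pm_123_a : ∃ t, chk3 f_pm_123_a t 18 6 1 = true :=
  ⟨(b (l 1) (b (l 16557424) (l 16561048))), by decide +kernel⟩

def k14_pm_123_a : ∃ t, chk3 f_pm_123_a t 18 14 1 = true :=
  ⟨(b (l 16566800) (a (l 16567544) (l 16584952))), by decide +kernel⟩

def k15_pm_123_a : ∃ t, chk3 f_pm_123_a t 18 30 1 = true :=
  ⟨(a (b (l 16575440) (l 141906509334609935)) (b (l 16596104) (l 142125999390228495))), by decide +kernel⟩

def k16_pm_123_a : ∃ t, chk3 f_pm_123_a t 18 62 1 = true :=
  ⟨(a (a (l 142102428567224335) (l 142021958084116495)) (a (l 142141117682892815) (l 142213410601123855))), by decide +kernel⟩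

def k17_pm_123_a : ∃ t, chk3 f_pm_123_a t 18 63 2 = true :=
  ⟨(b (a (a (l 142161046350086159) (l 142151356934209551)) (a (l 142313809806065679) (l 142648817282547727))) (b (a (a (l 142115554066104335) (l 142195612286812175)) (a (l 142222550350479375) (l 142151769316769935))) (c (a (a (a (l 14) (b (l 142414827431805071) (b (l 142246602155294863) (c (a (l 142485196192530575) (l 142526565324882063)) (l 14))))) (b (l 142178157575929999) (a (a (c (l 142563398970835087) (l 14)) (c (l 142603737310855311) (a (l 14) (l 142473926189629583)))) (c (l 142663385827262607) (b (l 142520930319941775) (a (l 142508423373226127) (l 142548830432739471))))))) (a (c (a (l 142733342266704015) (l 142809277301932175)) (b (l 142628545039188111) (a (a (l 142584908164284559) (l 142624284431450255)) (l 142682558558044303)))) (a (b (l 142809620895727759) (l 142825014018867343)) (l 142890503691468943)))) (a (l 14) (b (a (l 142197467715747855) (l 142220488768471183)) (a (c (a (a (l 14) (a (l 142476537502449807) (l 142496603614707855)))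 (b (l 142542645672132751) (a (l 142530344883912847) (l 142569789870555279)))) (l 14)) (a (a (c (l 142605042968232079) (l 14)) (b (l 142572401207787663) (c (l 142647305454043279) (l 142511859313918095)))) (c (l 142700494338293903) (b (l 142562917915361423) (a (l 142550892005081231) (l 142589443638362255))))))))))), by decide +kernel⟩

def k18_pm_123_a : ∃ t, chk3 f_pm_123_a t 18 63 3 = true :=
  ⟨(b (a (a (l 141798482279153679) (l 141897163472076815)) (a (l 142005808991158287) (l 142125174750806031))) (a (b (a (l 141815593433956367) (l 141919016271904783)) (a (a (b (l 141799787950817295) (a (b (l 141971930238271503) (c (c (c (l 14) (l 141913862317867023)) (l 141842668918030351)) (l 141697464619810831))) (b (l 141996806738001935) (c (c (l 14) (l 141868301289209871)) (l 141901561471713295))))) (b (l 141850159339765775) (c (b (l 141952757549694991) (c (l 14) (a (b (l 141893658782367759) (l 141985605442764815)) (a (l 141914755666935823) (l 142018453360689167))))) (c (a (l 141794496547504143) (l 141820128918683663))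 (l 141706673029611535))))) (a (b (l 141903073349861391) (c (b (l 142008695217422351) (a (c (l 14) (c (l 14) (l 141924032797163535))) (l 14))) (b (l 141807072212271119) (c (a (l 141848029033218063) (l 141875104513687567)) (l 141758143930564623))))) (b (l 141958598700630031) (c (l 14) (b (l 141860810856284175) (a (c (b (l 141901836396642319) (l 141993783057072143)) (l 141797588919943183)) (c (a (l 141924032793083919) (l 142028417681735695)) (l 141824733119922191))))))))) (c (l 14) (b (a (l 141928774434471951) (l 142048483791732751)) (b (a (l 141940456748924943) (l 142063052324896783)) (c (a (a (a (b (l 141956056076861455) (c (l 14) (l 141933447362379791))) (l 14)) (l 14)) (l 14)) (a (b (l 142072123252342799) (a (a (l 141852564514799631) (l 141881083104591887)) (b (l 141924170226892815) (a (l 142001273476759567) (c (l 14) (l 141912968948367375)))))) (a (b (l 141981963320590351) (b (l 141985261856423951) (l 14))) (l 14))))))))), by decide +kernel⟩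

def k19_pm_123_a : ∃ t, chk3 f_pm_123_a t 38 3 1 = true :=
  ⟨(b (b (l 16568480) (l 16577440)) (b (b (l 16592896) (l 16608312)) (b (b (l 16621768) (l 142255810536439823)) (b (a (l 142278281814491151) (b (l 142580303934849039) (l 142631156359168015))) (b (a (c (l 142796220586131599) (l 142091433516990479)) (c (l 142936477062791311) (l 142245777488953359))) (c (a (a (b (l 142803023817359503) (b (l 142825082774192271) (c (l 142969393707925647) (a (l 142510141350674575) (l 142727432374878351))))) (b (l 142874698244210831) (c (l 143031378686541967) (b (l 142767701994750095) (c (l 142847073008058511) (l 142717124448551055)))))) (b (c (l 143103053112115343) (l 142853120318439567)) (a (c (l 143099204821991567) (a (l 142828862340120719) (l 142864252876865679))) (c (l 143165244250718351) (b (l 142909126702776463) (l 142923626515529871)))))) (c (b (a (l 142445819896446991) (l 142416545425965199)) (a (c (b (l 142173141031911567) (a (c (a (l 142523541644034191) (l 142561887118835855)) (l 14)) (a (l 142566628740677775)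 (l 142604287042060431)))) (l 14)) (b (l 142257253602967695) (a (c (a (l 142641533005021327) (l 142678297931563151)) (c (a (l 142542851814883471) (l 142580303936323727)) (l 14))) (b (l 142664554030858383) (c (l 142736159741329551) (a (l 142588275395838095) (l 142625109041856655)))))))) (l 14)))))))), by decide +kernel⟩

def k20_pm_123_a : ∃ t, chk3 f_pm_123_a t 39 3 1 = true :=
  ⟨(b (b (l 16591144) (l 16600232)) (b (b (l 16616632) (l 16632064)) (b (b (l 16645616) (c (l 16682336) (l 16608280))) (b (b (l 142427609293864975) (a (l 142770931799326735) (c (l 143142154489954447) (l 142659468777193487)))) (b (a (c (l 143069449273557135) (l 142212242410061839)) (c (l 143195893132787791) (l 142351880411267215))) (b (a (c (l 143111505602609295) (l 142320269350649871)) (c (l 143237468425453647) (a (l 142718567542243471) (l 142786874714079375)))) (c (c (a (l 143261176657018959) (l 143383291188478031)) (a (a (l 142984443262812303) (l 143050757569478799)) (a (l 143115353888931983) (l 143178300940632207)))) (b (a (a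 (l 142237256263942287) (l 142309136849240207)) (c (l 142717468068429967) (l 142288589679411343))) (a (a (c (a (b (l 142718567549075599) (l 142725645613793423)) (l 142757531456454799)) (c (c (a (l 142560856315707535) (l 142597552522739855)) (l 14)) (l 14))) (c (a (l 142792578438709391) (l 142827144341569679)) (c (a (l 142601606949847183) (l 142637615983460495)) (l 14)))) (c (a (l 142878202900283535) (l 142944860825878671)) (a (b (l 142623940802510991) (a (c (l 142676717372752015) (a (l 142540103024050319) (l 142558244969103503))) (c (l 142711833031540879) (l 142585320426209423)))) (a (c (l 142742962959794319) (l 142617343707840655)) (a (l 142706404146299023) (l 142723721457467535)))))))))))))), by decide +kernel⟩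

def k21_pm_123_a : ∃ t, chk3 f_pm_123_a t 10 2 1 = true :=
  ⟨(b (a (b (l 16700960) (l 16661736)) (b (l 16712960) (l 16699016))) (a (b (l 16647016) (l 16636568)) (b (l 16689072) (l 16682888)))), by decide +kernel⟩

def k22_pm_123_a : ∃ t, chk3 f_pm_123_a t 10 6 1 = true :=
  ⟨(a (b (a (l 16616512) (l 16644536)) (a (l 16604560) (l 16652928))) (b (l 16681088) (b (l 16684480) (l 16691896)))), by decide +kernel⟩

def k23_pm_123_a : ∃ t, chk3 f_pm_123_a t 20 14 1 = true :=
  ⟨(a (b (l 16641512) (b (l 16652256) (l 16660680))) (b (l 16667792) (l 16681800))), by decide +kernel⟩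

def k24_pm_123_a : ∃ t, chk3 f_pm_123_a t 20 30 1 = true :=
  ⟨(a (b (c (l 16694600) (l 16644848)) (a (b (l 16670624) (l 16675872)) (l 16685872))) (b (l 16694232) (c (l 16726024) (l 16680864)))), by decide +kernel⟩

def k25_pm_123_a : ∃ t, chk3 f_pm_123_a t 40 31 1 = true :=
  ⟨(a (a (b (b (l 142951870210916495) (l 143002653915775055)) (b (c (l 143287908528537679) (l 142817111287562383)) (c (b (l 143149232633626703) (c (l 143474138352353487) (a (b (l 143218501841354895) (l 143233826287812751)) (l 143261657680330831)))) (b (a (l 142839238964723855) (b (l 142869750417817743) (l 142884044072059023))) (a (b (c (l 142981282154430607) (l 142737808995139727)) (c (a (l 142986779714060431) (l 143005952451395727)) (a (b (l 142738564909924495) (c (l 142807834157400207) (a (b (l 142676786087248015) (l 142680496939794575)) (l 142689224314798223)))) (b (l 142758974598152335) (c (l 142828587442929807) (l 142705579553046671)))))) (b (c (l 143018940434301071) (l 142688537137561743)) (b (l 142731761717067919) (c (l 143039831159128207)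 (c (l 142859992249073807) (a (l 142727363630858383) (l 142748941539459215))))))))))) (b (l 143046290790711375) (b (b (l 143110131198951503) (c (l 143364255881642063) (a (l 142886517972484239) (l 142924519849934991)))) (b (c (l 143395110932725839) (a (b (l 142907889734287503) (l 142923626497507471)) (l 142955718498369679))) (c (l 143428577281048655) (b (l 142723652826628239) (b (c (l 143089721507332239) (l 142853670053068943)) (c (l 143097967846080655) (c (a (l 142901155222536335) (l 142941424842653839)) (b (l 142799862691020943) (a (c (l 142813125553733775) (a (l 142741932161040527) (l 142763235202433167))) (c (l 142854494685708431) (c (l 142809689577242767) (a (l 142769213797253263) (l 142790104521736335))))))))))))))) (b (b (l 143121401191858255) (a (l 143138168749178959) (a (l 143188471415226447) (l 143222831159509071)))) (b (c (a (l 143414902144106575) (l 143480460535562319)) (a (b (l 142953313314865295) (l 142983275012538511)) (l 143044847673720975))) (c (b (l 143495922421301327) (a (l 143495922421973199)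 (l 143560312581980367))) (c (b (l 143165656541036687) (b (l 143189021167468687) (a (l 143168542717345935) (l 143240011027972175)))) (b (l 142938813498441871) (b (l 142961697088503951) (c (a (a (l 142976815379054735) (l 143015367011975311)) (b (l 143067799981490319) (l 143075359125340303))) (b (l 142915380150878351) (a (b (l 142881570162688143) (a (c (l 142894833025384591) (c (l 142850646392324239) (a (l 142810789087740047) (l 142831198775787663)))) (c (l 142934346731176079) (a (l 142866108276555919) (l 142885968208707727))))) (a (a (l 142932628729184399) (l 142951938918826127)) (l 142980457485041807)))))))))))), by decide +kernel⟩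

def k26_pm_123_a : ∃ t, chk3 f_pm_123_a t 41 31 1 = true :=
  ⟨(a (b (b (a (l 16702376) (l 16707960)) (l 143308936678146127)) (c (b (l 143575293428678863) (b (l 143620923169521871) (c (l 143755613373677775) (l 143547049713549519)))) (b (l 143154798854996047) (c (b (l 143304882224070735) (a (l 143300896494338127) (l 143366386166563023))) (b (l 143088553263612047) (b (l 143109581427474575) (c (a (l 143143666296651919) (l 143212385785004175)) (a (a (l 143014061336281231) (l 143050482665160847)) (l 143103602829721743))))))))) (b (c (l 16740656) (l 143212248345575503)) (c (b (l 143692116557889743) (b (l 143735409836130511) (l 143764684295618767))) (b (l 143289626491093071) (a (b (l 143297048196661327) (c (l 143428852181352655) (l 143218226938806351))) (c (l 143475237835636943) (l 143269560374935631))))))), by decide +kernel⟩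

def k27_pm_123_a : ∃ t, chk3 f_pm_123_a t 21 7 1 = true :=
  ⟨(b (b (a (l 16690904) (l 16711328)) (a (l 16704072) (l 16723280))) (b (a (b (l 16715400) (c (l 16744440) (l 16703456))) (b (l 16733536) (l 16740960))) (b (a (c (l 143771143967047887) (b (l 16709768) (l 143423492053434447))) (c (l 16768016) (b (l 16727760) (l 143630406433358031)))) (a (b (c (l 143848728270618831) (a (l 143412222058365007) (l 143523204032233551))) (a (c (l 143853676074959055) (a (b (l 143419506324930639) (l 143444314060783695)) (l 143488294490177743))) (c (l 143947615614861583) (a (l 143541689575686351) (l 143592335838740687))))) (b (c (l 144024306562187535) (a (l 143622572412666063) (l 143712663662395599))) (a (c (l 144032484182458639) (b (l 143653083866415311) (l 143673424835592399))) (c (l 144109312570097935) (l 143750184504361167)))))))), by decide +kernel⟩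

def k28_pm_123_a : ∃ t, chk3 f_pm_123_a t 11 1 1 = true :=
  ⟨(b (b (a (b (l 16735576) (l 16726360)) (b (a (l 16746744) (l 16752400)) (l 16743392))) (a (b (l 16720216) (l 16717752)) (b (l 16740696) (l 16720904)))) (b (b (a (l 16719056) (l 16725144)) (a (b (l 16722952) (l 16728992)) (b (l 16750872) (a (l 16749936) (l 16760608))))) (a (b (b (b (l 16734528) (l 16738560)) (b (l 16743880) (l 16770128))) (b (a (b (l 16748520) (l 16755032)) (b (l 16760768) (l 16766872))) (b (a (a (l 143907552139395279) (l 16765008)) (b (l 16771664) (l 16775160))) (b (c (a (l 16786080) (l 16796016)) (a (l 143832647890223311) (l 16761888))) (c (a (a (l 144179200289669455) (l 16792880)) (a (l 16797768) (l 16802264))) (a (a (l 143829967831204111) (l 143903154087428367)) (a (l 143969811992576271) (b (l 16767360) (l 16769168))))))))) (a (b (b (l 16755768) (l 16763832)) (a (b (l 16771560) (b (l 16780928) (b (l 16786096) (c (l 16806384) (a (l 16772368) (l 16775056)))))) (b (l 16776280) (b (l 16785400) (c (b (l 16806280) (b (l 16809304)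 (l 16811464))) (b (l 16775464) (b (l 16778128) (a (l 16778672) (l 16781456))))))))) (b (b (l 16765536) (l 16772784)) (b (b (l 16779736) (a (l 16783248) (l 16787096))) (b (a (a (l 16788672) (l 16790792)) (l 16793720)) (c (a (b (l 16810120) (a (l 16813472) (l 16815544))) (b (l 16813856) (c (l 16825832) (l 16811216)))) (a (b (l 16780680) (b (l 16783608) (a (c (l 16791736) (l 16776928)) (c (l 16794384) (a (l 16779224) (l 16780680)))))) (b (l 16785768) (b (l 16788896) (b (c (l 16797536) (l 16783664)) (c (l 16798704) (a (l 16783344) (l 16786216))))))))))))))), by decide +kernel⟩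

def k29_pm_123_a : ∃ t, chk3 f_pm_123_a t 3 2 1 = true :=
  ⟨(a (a (a (b (b (a (l 16758296) (b (l 16764232) (l 16761176))) (a (l 16753088) (l 16758360))) (b (l 16733864) (l 16735800))) (b (b (a (b (l 16767200) (l 16764464)) (b (l 16769208) (l 16766520))) (a (l 16761920) (l 16763888))) (b (a (l 16760664) (l 16762312)) (l 16763048)))) (a (b (b (a (a (l 16779488) (l 16769632)) (b (a (l 16772192) (l 16774816)) (l 16769024))) (a (l 16764880) (l 16765472))) (b (a (l 16762896) (l 16762832)) (a (l 16763792) (l 16762976)))) (b (b (a (b (a (b (l 145190019479) (l 16775072)) (l 157538047751)) (a (l 16770504) (l 16773016))) (b (l 4) (a (l 77544286999) (l 122641440183)))) (a (b (l 16767448) (l 16764984)) (a (l 16767208) (l 35668337255)))) (b (a (l 16762448) (a (l 16762712) (l 16763160))) (a (l 16762128) (b (l 16761344) (l 16762352))))))) (a (a (b (b (l 4) (a (a (l 43721413655) (a (l 53385090935) (l 68954355127))) (b (l 4) (a (l 16762328) (l 82376118727))))) (b (a (b (l 16765400) (l 16763928)) (b (a (l 16767544) (l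 16771240)) (l 16765944))) (a (b (l 16763576) (l 16764560)) (b (l 16765944) (l 16767400))))) (b (l 4) (b (a (a (b (l 16761616) (l 16768272)) (b (l 106535291127) (l 16772120))) (b (l 4) (a (l 93113531543) (l 4)))) (a (b (l 16767472) (l 16769072)) (b (a (l 16770088) (l 16772176)) (a (l 16769448) (l 16769744))))))) (a (b (l 4) (a (b (l 4) (a (b (l 160222363191) (l 16772960)) (b (l 4) (l 152706234823)))) (l 4))) (l 4)))), by decide +kernel⟩

def k30_pm_123_a : ∃ t, chk3 f_pm_123_a t 6 6 1 = true :=
  ⟨(a (b (a (l 16844976) (l 16829472)) (a (b (l 16765544) (c (l 16777896) (l 16761552))) (b (l 16769768) (l 16774088)))) (a (b (b (l 16765696) (l 16768480)) (b (l 16772824) (l 16820464))) (a (b (l 16767464) (b (l 16774960) (l 16782432))) (b (l 16768312) (b (l 16776832) (l 16784856)))))), by decide +kernel⟩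

def k31_pm_123_a : ∃ t, chk3 f_pm_123_a t 12 7 1 = true :=
  ⟨(b (a (a (b (l 16771792) (l 16778616)) (b (l 16775160) (l 16782952))) (a (b (l 16778272) (l 16787208)) (b (l 16781312) (l 16792200)))) (a (b (a (b (l 16785800) (a (l 16790440) (l 16793312))) (b (l 16790992) (l 16798192))) (b (a (a (l 16797488) (l 16801096)) (b (l 16804496) (l 16809056))) (b (a (a (c (l 16817440) (l 16790528)) (l 16807792)) (c (l 16826216) (l 16802104))) (a (c (a (c (l 16829320) (l 16815320)) (l 16825960)) (a (b (l 16793872) (c (l 16802912) (a (b (l 16787784) (l 16788952)) (l 16790944)))) (b (l 16798640) (a (l 16799912) (l 16802384))))) (c (a (l 16829648) (l 16833224)) (c (a (l 16810872) (l 16815384)) (b (l 16800128) (a (l 16800152) (l 16805328))))))))) (b (a (c (l 16811872) (l 16811536)) (b (l 16802960) (l 16811608))) (b (a (b (l 16811792) (l 16816696)) (b (l 16818656) (l 16823656))) (b (a (c (l 16832872) (l 16811192)) (c (l 16838688) (l 16819464))) (a (c (l 16838248) (a (a (l 16813128) (l 16815400)) (c (l 16823816) (l 16813704))))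 (c (l 16844056) (c (l 16829528) (a (l 16818208) (l 16822424)))))))))), by decide +kernel⟩

def k32_pm_123_a : ∃ t, chk3 f_pm_123_a t 13 7 1 = true :=
  ⟨(b (a (b (b (l 16784400) (l 16789408)) (a (l 16797160) (l 16801736))) (b (a (l 16792080) (a (l 16794096) (l 16795240))) (a (l 16805456) (l 16808256)))) (a (b (a (b (l 16808624) (l 16817480)) (b (l 16813448) (l 16822392))) (b (a (c (l 16835848) (l 16818904)) (c (l 16839552) (l 16825008))) (a (c (b (l 16843432) (l 16848728)) (b (l 16826680) (a (c (l 16834552) (l 16826360)) (l 16833704)))) (c (l 16849568) (b (l 16832720) (a (l 16836696) (l 16839328))))))) (a (b (b (l 16817312) (l 16826208)) (b (c (l 16841968) (l 16829840)) (c (l 16851584) (b (l 16837408) (a (l 16841576) (l 16843368)))))) (b (b (l 16820040) (l 16828784)) (b (a (l 16837464) (l 16838120)) (c (l 16851840) (b (l 16840328) (a (l 16844672) (l 16845408))))))))), by decide +kernel⟩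

def k33_pm_123_a : ∃ t, chk3 f_pm_123_a t 14 3 1 = true :=
  ⟨(b (a (b (a (l 16770472) (b (l 16770224) (l 16775376))) (b (l 16822640) (a (l 16787248) (l 16789640)))) (b (a (b (l 16772552) (l 16776968)) (b (l 16772904) (a (l 16777976) (l 16778328)))) (b (a (l 16783584) (l 16784224)) (a (l 16791184) (l 16791496))))) (b (a (b (a (l 16796936) (l 16798984)) (a (b (l 16806256) (l 16813824)) (b (l 16807600) (l 16814744)))) (b (a (l 16799768) (l 16799248)) (a (b (l 16807640) (l 16814000)) (b (l 16806040) (l 16811360))))) (a (b (a (b (l 16821624) (c (l 16834120) (l 16826008))) (b (l 16822000) (l 16829480))) (a (b (a (l 16838320) (l 16838120)) (c (l 16850240) (a (b (l 16841176) (l 16845584)) (l 16843264)))) (b (c (l 16839848) (l 16834552)) (c (l 16846696) (a (l 16842552) (l 16841128)))))) (b (a (b (l 16820584) (l 16827072)) (b (l 16816912) (l 16822328))) (a (b (c (l 16835272) (l 16831752)) (c (l 16840824) (l 16858712))) (b (l 16848240) (a (l 16833632) (l 16829328)))))))), by decide +kernel⟩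

def k34_pm_123_a : ∃ t, chk3 f_pm_123_a t 30 3 1 = true :=
  ⟨(b (a (b (b (a (l 16772024) (l 16751160)) (l 16776880)) (b (a (l 16783888) (l 16783384)) (l 16790416))) (b (b (a (a (l 16773136) (l 172033581255)) (a (l 263301612807) (l 4))) (a (l 16774200) (a (l 16774880) (l 123715210791)))) (a (b (l 16781592) (l 16787920)) (b (l 16778136) (l 16786024))))) (b (a (b (b (l 16795232) (l 16798576)) (b (l 16802640) (l 16806736))) (b (l 16792864) (l 16798856))) (b (a (a (l 16836056) (b (l 16809104) (l 16813000))) (b (l 16802864) (l 16805872))) (a (b (a (l 16821144) (l 16816440)) (a (l 16824520) (l 16829744))) (b (a (l 16811288) (b (l 16805144) (l 16806216))) (a (b (l 16813056) (l 16814056)) (b (l 16807144) (c (l 16808296) (l 16807752))))))))), by decide +kernel⟩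

def k35_pm_123_a : ∃ t, chk3 f_pm_123_a t 31 3 1 = true :=
  ⟨(a (b (b (a (b (l 4) (a (l 247732419175) (l 4))) (l 4)) (a (b (a (l 16775784) (l 137673878759)) (l 16813848)) (b (a (b (l 4) (l 228405056567)) (l 4)) (a (l 16778120) (b (l 228405058295) (l 16776960)))))) (b (a (b (b (l 16786744) (l 16789056)) (l 16792784)) (b (a (l 16816256) (b (l 16780056) (l 16783312))) (b (l 16807320) (l 16788976)))) (b (a (b (l 16795736) (l 16776776)) (b (l 16790496) (l 16791992))) (b (a (l 16799824) (l 16793544)) (a (b (c (l 16801168) (l 16800800)) (a (l 16803112) (l 16799816))) (b (l 16794368) (a (l 16799064) (c (l 16793184) (l 16792920))))))))) (b (a (b (l 4) (a (b (l 4) (a (l 269207243479) (l 4))) (l 4))) (l 4)) (b (b (a (a (b (l 93113601607) (l 16779568)) (b (a (l 356180322903) (l 4)) (a (l 16777096) (l 202098386519)))) (l 4)) (a (a (b (l 16782608) (l 16784760)) (b (a (l 16779832) (l 16778080)) (l 6))) (a (a (a (b (l 16776640) (l 6)) (l 6)) (l 6)) (l 6)))) (a (a (a (b (l 16808840) (b (l 16778984) (b (l 16790136) (l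 16793024)))) (l 6)) (l 6)) (l 6))))), by decide +kernel⟩

theorem s36_pm_123_a : ∃ t, chk3 f_pm_123_a t 15 3 1 = true := ex3_a k34_pm_123_a k35_pm_123_a

theorem s37_pm_123_a : ∃ t, chk3 f_pm_123_a t 7 3 1 = true := ex3_a k33_pm_123_a s36_pm_123_a

theorem s38_pm_123_a : ∃ t, chk3 f_pm_123_a t 6 7 1 = true := ex3_a k31_pm_123_a k32_pm_123_a

theorem s39_pm_123_a : ∃ t, chk3 f_pm_123_a t 6 3 1 = true := ex3_b k30_pm_123_a s38_pm_123_a

theorem s40_pm_123_a : ∃ t, chk3 f_pm_123_a t 3 3 1 = true := ex3_a s39_pm_123_a s37_pm_123_a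

theorem s41_pm_123_a : ∃ t, chk3 f_pm_123_a t 3 1 1 = true := ex3_b k29_pm_123_a s40_pm_123_a

theorem s42_pm_123_a : ∃ t, chk3 f_pm_123_a t 20 31 1 = true := ex3_a k25_pm_123_a k26_pm_123_a

theorem s43_pm_123_a : ∃ t, chk3 f_pm_123_a t 20 15 1 = true := ex3_b k24_pm_123_a s42_pm_123_a

theorem s44_pm_123_a : ∃ t, chk3 f_pm_123_a t 20 7 1 = true := ex3_b k23_pm_123_a s43_pm_123_a

theorem s45_pm_123_a : ∃ t, chk3 f_pm_123_a t 10 7 1 = true := ex3_a s44_pm_123_a k27_pm_123_a

theorem s46_pm_123_a : ∃ t, chk3 f_pm_123_a t 10 3 1 = true := ex3_b k22_pm_123_a s45_pm_123_a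

theorem s47_pm_123_a : ∃ t, chk3 f_pm_123_a t 10 1 1 = true := ex3_b k21_pm_123_a s46_pm_123_a

theorem s48_pm_123_a : ∃ t, chk3 f_pm_123_a t 5 1 1 = true := ex3_a s47_pm_123_a k28_pm_123_a

theorem s49_pm_123_a : ∃ t, chk3 f_pm_123_a t 19 3 1 = true := ex3_a k19_pm_123_a k20_pm_123_a

theorem s50_pm_123_a : ∃ t, chk3 f_pm_123_a t 18 63 1 = true := ex3_c k17_pm_123_a k18_pm_123_a

theorem s51_pm_123_a : ∃ t, chk3 f_pm_123_a t 18 31 1 = true := ex3_b k16_pm_123_a s50_pm_123_a

theorem s52_pm_123_a : ∃ t, chk3 f_pm_123_a t 18 15 1 = true := ex3_b k15_pm_123_a s51_pm_123_a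

theorem s53_pm_123_a : ∃ t, chk3 f_pm_123_a t 18 7 1 = true := ex3_b k14_pm_123_a s52_pm_123_a

theorem s54_pm_123_a : ∃ t, chk3 f_pm_123_a t 18 3 1 = true := ex3_b k13_pm_123_a s53_pm_123_a

theorem s55_pm_123_a : ∃ t, chk3 f_pm_123_a t 9 3 1 = true := ex3_a s54_pm_123_a s49_pm_123_a

theorem s56_pm_123_a : ∃ t, chk3 f_pm_123_a t 17 15 1 = true := ex3_a k11_pm_123_a k12_pm_123_a

theorem s57_pm_123_a : ∃ t, chk3 f_pm_123_a t 17 7 1 = true := ex3_b k10_pm_123_a s56_pm_123_a

theorem s58_pm_123_a : ∃ t, chk3 f_pm_123_a t 67 127 1 = true := ex3_a k8_pm_123_a k9_pm_123_a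

theorem s59_pm_123_a : ∃ t, chk3 f_pm_123_a t 67 63 1 = true := ex3_b k7_pm_123_a s58_pm_123_a

theorem s60_pm_123_a : ∃ t, chk3 f_pm_123_a t 33 63 1 = true := ex3_a k6_pm_123_a s59_pm_123_a

theorem s61_pm_123_a : ∃ t, chk3 f_pm_123_a t 33 31 1 = true := ex3_b k5_pm_123_a s60_pm_123_a

theorem s62_pm_123_a : ∃ t, chk3 f_pm_123_a t 33 15 1 = true := ex3_b k4_pm_123_a s61_pm_123_a

theorem s63_pm_123_a : ∃ t, chk3 f_pm_123_a t 16 15 1 = true := ex3_a k3_pm_123_a s62_pm_123_a

theorem s64_pm_123_a : ∃ t, chk3 f_pm_123_a t 16 7 1 = true := ex3_b k2_pm_123_a s63_pm_123_a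

theorem s65_pm_123_a : ∃ t, chk3 f_pm_123_a t 8 7 1 = true := ex3_a s64_pm_123_a s57_pm_123_a

theorem s66_pm_123_a : ∃ t, chk3 f_pm_123_a t 8 3 1 = true := ex3_b k1_pm_123_a s65_pm_123_a

theorem s67_pm_123_a : ∃ t, chk3 f_pm_123_a t 4 3 1 = true := ex3_a s66_pm_123_a s55_pm_123_a

theorem s68_pm_123_a : ∃ t, chk3 f_pm_123_a t 4 1 1 = true := ex3_b k0_pm_123_a s67_pm_123_a

theorem s69_pm_123_a : ∃ t, chk3 f_pm_123_a t 2 1 1 = true := ex3_a s68_pm_123_a s48_pm_123_a

theorem s70_pm_123_a : ∃ t, chk3 f_pm_123_a t 1 1 1 = true := ex3_a s69_pm_123_a s41_pm_123_a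

theorem c_pm_123_a : CertB 536870912 536870912 0 536870912 587336777 62277027 3 eng mog cd0q1 cd2q2a pd3 true true false .npn 1 2 3
    ndB0q1 ndB2q2a pcB3 cut_pm_123_a xt_pm_123_a :=
  certB2 (fam := true) (s1 := true) (s2 := false) (a := 1) (b := 2) (c := 3) (cn := .npn) (n1 := ndB0q1) (n2 := ndB2q2a) (pc := pcB3) (cut := cut_pm_123_a) (xt := xt_pm_123_a) (P1 := 536870912) (W1 := 536870912) (P2 := 0) (W2 := 536870912) (P3 := 587336777) (W3 := 62277027) (N0 := 3) (En := eng) (mo := mog) (C1 := cd0q1) (C2 := cd2q2a) (C3 := pd3)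
    rfl (fun _ => rfl) s70_pm_123_a

noncomputable def cut_pm_123_b : Cut := Cut.of [[⟨0, 1, 0, 67108864⟩, ⟨1, 1, 0, 67108864⟩, ⟨2, 2, 0, 16777216⟩], [⟨0, 0, 1, 20971520⟩, ⟨1, 1, 0, 29360128⟩, ⟨2, 1, 1, 20971520⟩]]

noncomputable def f_pm_123_b : ℕ → ℕ → ℕ → ℕ → Bool := onCell 1610612736 536870912 1239849684 370763052 587336777 62277027
    (rowB 3 eng mog cd0q1 cd2q2b pd3 2 true true false .npn 1 2 3 (qsf 536870912 536870912 1239849684 370763052 3) ndB0q1 ndB2q2b pcB3 cut_pm_123_b Ext.none)

def k0_pm_123_b : ∃ t, chk3 f_pm_123_b t 1 1 1 = true :=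
  ⟨(a (b (a (l 1) (a (b (b (a (b (b (l 16684472) (l 1)) (l 1)) (b (l 16719952) (l 16691944))) (l 1)) (l 1)) (b (b (a (b (a (l 16726176) (l 16735008)) (l 16714688)) (b (a (l 16742032) (l 16747992)) (l 16731920))) (a (l 16700520) (l 16723168))) (b (a (l 1) (l 16724648)) (l 1))))) (l 1)) (a (b (a (b (b (b (a (a (l 16753784) (l 16758416)) (a (b (l 16765176) (l 16760032)) (a (l 16785984) (l 16788120)))) (a (l 16746656) (l 16763088))) (a (l 16788576) (a (l 16758960) (l 16763200)))) (a (b (l 16745528) (l 1)) (b (l 16778952) (l 16757800)))) (b (a (b (a (b (b (a (l 16770240) (l 16773344)) (l 16771936)) (l 16769408)) (b (b (a (l 16774568) (l 53921970279)) (l 74323054679)) (l 4))) (a (l 16785384) (l 4))) (l 4)) (l 4))) (a (l 1) (l 4))) (l 4))), by decide +kernel⟩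

theorem c_pm_123_b : CertB 536870912 536870912 1239849684 370763052 587336777 62277027 3 eng mog cd0q1 cd2q2b pd3 true true false .npn 1 2 3
    ndB0q1 ndB2q2b pcB3 cut_pm_123_b Ext.none :=
  certB2 (fam := true) (s1 := true) (s2 := false) (a := 1) (b := 2) (c := 3) (cn := .npn) (n1 := ndB0q1) (n2 := ndB2q2b) (pc := pcB3) (cut := cut_pm_123_b) (xt := Ext.none) (P1 := 536870912) (W1 := 536870912) (P2 := 1239849684) (W2 := 370763052) (P3 := 587336777) (W3 := 62277027) (N0 := 3) (En := eng) (mo := mog) (C1 := cd0q1) (C2 := cd2q2b) (C3 := pd3)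
    rfl (fun _ => rfl) k0_pm_123_b

noncomputable def f_pm_133 : ℕ → ℕ → ℕ → ℕ → Bool := onCell 536870912 536870912 1610612736 536870912 587336777 62277027
    (rowB 3 eng mog cd0q1 cd2q3 pd3 0 true true false .dn 1 3 3 (qsf 536870912 536870912 1610612736 536870912 3) ndB0q1 ndB2q3 pcB3 Cut.none Ext.none)

def k0_pm_133 : ∃ t, chk3 f_pm_133 t 1 1 1 = true :=
  ⟨(l 4), by decide +kernel⟩

theorem c_pm_133 : CertB 536870912 536870912 1610612736 536870912 587336777 62277027 3 eng mog cd0q1 cd2q3 pd3 true true false .dn 1 3 3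
    ndB0q1 ndB2q3 pcB3 Cut.none Ext.none :=
  certB0 (fam := true) (s1 := true) (s2 := false) (a := 1) (b := 3) (c := 3) (cn := .dn) (n1 := ndB0q1) (n2 := ndB2q3) (pc := pcB3) (cut := Cut.none) (xt := Ext.none) (P1 := 536870912) (W1 := 536870912) (P2 := 1610612736) (W2 := 536870912) (P3 := 587336777) (W3 := 62277027) (N0 := 3) (En := eng) (mo := mog) (C1 := cd0q1) (C2 := cd2q3) (C3 := pd3)
    rfl k0_pm_133

end Pool.Agent.Strip051.G.I5470_6050.Tab.C.BA02

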