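import Pool.Agent.Strip051.G.I5470_6050.Tab
import Pool.Agent.Strip051.PB.ExtD2

/-! # Certificates B7 (generated) -/

set_option linter.all false
set_option maxRecDepth 100000

namespace Pool.Agent.Strip051.G.I5470_6050.Tab.C.BA02

open Pool.Agent.Strip051.PB Pool.Agent.Strip051.PB.T
open Pool.Agent.Strip051.G.I5470_6050.Tab

noncomputable def cut_pm_202 : Cut := Cut.of [[⟨0, 1, 0, 67108864⟩, ⟨1, 0, 0, 67108864⟩, ⟨2, 1, 0, 67108864⟩]]

noncomputable def f_pm_202 : ℕ → ℕ → ℕ → ℕ → Bool := onCell 0 536870912 1073741824 536870912 587336777 62277027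
    (rowB 3 eng mog cd0q2 cd2q0 pd2 1 true true false .pp 2 0 2 (qsf 0 536870912 0 536870912 2) ndB0q2 ndB2q0 pcB2 cut_pm_202 Ext.none)

def k0_pm_202 : ∃ t, chk3 f_pm_202 t 2 2 1 = true :=
  ⟨(a (b (l 1) (b (b (b (l 1) (a (a (l 16451512) (l 16454352)) (a (l 168610358775) (c (l 16469608) (l 16463632))))) (a (b (l 16499120) (l 16460792)) (a (b (l 16462848) (l 16465632)) (b (c (l 16470352) (l 16468032)) (l 16472000))))) (a (b (l 16467240) (l 16476344)) (b (a (l 16470896) (l 16476392)) (a (l 16478560) (l 16482968)))))) (a (b (l 1) (b (b (b (b (l 1) (a (l 16474544) (l 16486832))) (c (a (l 16479424) (b (l 16490920) (l 16490816))) (a (l 16473128) (l 16484800)))) (b (a (b (l 16478456) (l 16479072)) (b (l 16489384) (l 16489528))) (a (l 16480312) (l 16490064)))) (b (a (l 16483688) (l 16492048)) (a (l 16488952) (l 16495528))))) (a (b (l 1) (b (b (c (b (l 114386510743) (b (l 16503912) (l 16503144))) (b (b (l 113312759415) (l 16496408)) (l 16498464))) (b (b (l 16501568) (l 16501024)) (l 16500544)))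 (b (l 16500528) (l 16501400)))) (b (b (l 1) (b (l 1) (b (l 1) (b (l 1) (a (l 16511456) (l 16520208)))))) (b (b (b (a (b (l 16512120) (l 16512432)) (b (l 16520480) (l 16483712))) (b (c (l 16517832) (l 16513352)) (a (l 16511968) (b (l 16519344) (l 16586976))))) (b (l 16597824) (l 16512168))) (a (l 16526808) (l 16509080))))))), by decide +kernel⟩

def k1_pm_202 : ∃ t, chk3 f_pm_202 t 2 3 1 = true :=
  ⟨(b (a (b (a (b (l 16485448) (l 16500968)) (a (l 16575816) (b (l 16489840) (l 16496600)))) (a (b (a (l 16533040) (l 16524264)) (a (l 16549904) (l 16541112))) (b (a (l 16518688) (l 16515984)) (l 16531400)))) (b (b (a (a (l 16494672) (l 16499648)) (a (l 16503096) (l 16504800))) (a (l 16565072) (l 16574240))) (a (b (b (l 16513336) (l 16521664)) (l 16527368)) (b (a (l 16522304) (l 16527400)) (l 16531504))))) (a (b (a (b (l 16599840) (l 16572544)) (a (l 16624360) (l 16545904))) (a (b (l 16593600) (l 16611824)) (b (l 16597888) (l 16596720)))) (b (a (b (l 16534736) (l 16547664)) (b (l 16535888)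 (l 16541616))) (a (l 16568824) (l 16552880))))), by decide +kernel⟩

def k2_pm_202 : ∃ t, chk3 f_pm_202 t 3 4 1 = true :=
  ⟨(b (a (l 1) (a (b (l 1) (a (b (l 1) (b (l 1) (a (l 1) (a (l 124050464807) (l 190622476359))))) (b (l 6) (b (l 6) (b (l 6) (a (l 16657928) (l 16670664))))))) (b (l 6) (b (l 6) (b (l 6) (a (a (l 16684352) (l 16692080)) (a (l 16698592) (l 16704376)))))))) (b (a (a (l 1) (a (b (l 1) (b (a (l 1) (l 98817416503)) (a (l 123513449879) (l 202433507047)))) (b (b (l 1) (a (l 80026964407) (l 168610699703))) (a (b (l 182032443223) (l 16596688)) (b (l 16611096) (l 16608232)))))) (a (a (b (a (b (b (l 16630040) (l 16628568)) (l 16626272)) (b (l 221224112007) (c (l 16640440) (l 16636224)))) (a (b (l 16602056) (l 16619520)) (l 16632632))) (b (a (b (a (l 16651680) (l 16657896)) (l 16650528)) (l 16696088)) (c (l 16647272) (l 16647496)))) (a (b (a (l 16672936) (l 16679736)) (a (l 16657560) (l 16664040))) (a (b (l 16686040) (l 16670024)) (b (l 16691624) (l 16675320)))))) (b (a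 (a (a (b (l 1) (a (l 1) (l 87543026423))) (c (b (l 128882146663) (l 195991005175)) (b (a (l 1) (l 139082665863)) (a (l 169684284951) (l 16555112))))) (a (a (b (c (l 16575896) (l 224982038791)) (l 16570472)) (b (l 16583136) (l 16581040))) (a (b (l 16594224) (l 16591488)) (l 16603464)))) (a (a (l 16618792) (l 16633288)) (a (l 16667328) (l 16678576)))) (a (a (a (b (a (l 135324520791) (c (l 16543128) (l 160020592567))) (a (l 16529224) (l 16538448))) (b (a (l 16548704) (l 16558704)) (c (l 16492368) (l 16549008)))) (a (b (a (l 16568704) (l 16578648)) (l 16571432)) (l 16591608))) (a (a (l 16606888) (l 16620544)) (a (l 16632824) (l 16643344))))))), by decide +kernel⟩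

def k3_pm_202 : ∃ t, chk3 f_pm_202 t 3 5 1 = true :=
  ⟨(a (b (b (b (a (a (c (b (l 16536312) (l 16534608)) (b (l 16529584) (l 16529688))) (c (l 16551672) (b (l 16548304) (l 16547288)))) (a (l 16567288) (l 16582376))) (a (b (a (l 16531608) (l 16547144)) (a (b (l 16530496) (l 16571576)) (a (l 16624760) (l 16610968)))) (b (l 16590360) (b (l 16566584) (a (l 16557824) (l 16570912)))))) (a (a (b (l 16527592) (l 16524872)) (l 16580968)) (a (l 16551400) (l 16552520)))) (a (b (a (l 16520288) (l 16531016)) (a (l 16514440) (l 16524800))) (b (a (l 16540856) (l 16550528)) (l 16539184)))) (b (b (a (b (a (l 16596120) (l 16608864)) (b (a (l 16588768) (l 16600760)) (b (a (l 16585336) (l 16596936)) (a (l 16646080) (b (l 16595080) (l 16593872)))))) (b (a (l 16620288) (l 16671912)) (b (a (l 16611480) (l 16620512)) (b (a (l 16607280) (l 16616016)) (a (b (l 16605240) (l 16603912)) (b (l 16613840) (l 16612408))))))) (a (a (b (l 16577848) (l 16569952)) (b (l 16588456) (l 16579832))) (a (b (l 16598168)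 (l 16588936)) (b (l 16606168) (l 16595936))))) (a (a (b (l 16560048) (l 16551072)) (l 16584048)) (a (l 16653280) (b (l 16581912) (l 16566040)))))), by decide +kernel⟩

def k4_pm_202 : ∃ t, chk3 f_pm_202 t 3 3 1 = true :=
  ⟨(a (b (b (a (a (l 16518784) (l 16527736)) (a (l 16639992) (l 16539976))) (a (b (a (l 16532816) (l 16537856)) (l 16538256)) (b (a (l 16541624) (l 16543632)) (l 16542088)))) (b (a (l 16519784) (l 16538952)) (a (l 16548192) (l 16540288)))) (b (b (a (b (l 16548216) (l 16544576)) (a (l 16548648) (l 16569520))) (a (b (l 16543960) (l 16540232)) (b (l 16561600) (l 16533240)))) (a (b (l 16536600) (l 16532472)) (b (l 16527224) (l 16528104))))), by decide +kernel⟩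

theorem s5_pm_202 : ∃ t, chk3 f_pm_202 t 3 2 1 = true := ex3_b k2_pm_202 k3_pm_202

theorem s6_pm_202 : ∃ t, chk3 f_pm_202 t 3 1 1 = true := ex3_b s5_pm_202 k4_pm_202

theorem s7_pm_202 : ∃ t, chk3 f_pm_202 t 2 1 1 = true := ex3_b k0_pm_202 k1_pm_202

theorem s8_pm_202 : ∃ t, chk3 f_pm_202 t 1 1 1 = true := ex3_a s7_pm_202 s6_pm_202

theorem c_pm_202 : CertB 0 536870912 0 536870912 587336777 62277027 3 eng mog cd0q2 cd2q0 pd2 true true false .pp 2 0 2
    ndB0q2 ndB2q0 pcB2 cut_pm_202 Ext.none :=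
  certB1 (fam := true) (s1 := true) (s2 := false) (a := 2) (b := 0) (c := 2) (cn := .pp) (n1 := ndB0q2) (n2 := ndB2q0) (pc := pcB2) (cut := cut_pm_202) (xt := Ext.none) (P1 := 0) (W1 := 536870912) (P2 := 0) (W2 := 536870912) (P3 := 587336777) (W3 := 62277027) (N0 := 3) (En := eng) (mo := mog) (C1 := cd0q2) (C2 := cd2q0) (C3 := pd2)
    rfl (fun _ => rfl) s8_pm_202

noncomputable def f_pm_203 : ℕ → ℕ → ℕ → ℕ → Bool := onCell 0 536870912 1610612736 536870912 587336777 62277027
    (rowB 3 eng mog cd0q2 cd2q0 pd3 1 true true false .up 2 0 3 (qsf 0 536870912 0 536870912 3) ndB0q2 ndB2q0 pcB3 Cut.none Ext.none)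

def k0_pm_203 : ∃ t, chk3 f_pm_203 t 1 1 1 = true :=
  ⟨(b (b (a (b (a (b (a (l 16646080) (l 16611568)) (a (l 16695520) (l 16667656))) (b (a (b (l 16584936) (l 16612152)) (b (l 16555640) (l 16609680))) (a (l 16650880) (l 16647000)))) (a (b (l 16704288) (a (l 16767664) (l 16749064))) (a (b (l 16695408) (l 16735592)) (l 16707752)))) (a (b (b (a (b (l 16541368) (l 16608536)) (b (l 16523528) (l 16606232))) (l 16687960)) (a (l 16697832) (l 16692592))) (b (b (a (b (l 16505088) (l 16606232)) (b (l 16520440) (l 16618512))) (l 168141158503)) (b (l 175657330359) (l 2))))) (a (b (a (b (l 16784232) (l 16882536)) (a (l 16783800) (l 16775904))) (l 2)) (a (l 2) (l 2)))) (l 2)), by decide +kernel⟩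

theorem c_pm_203 : CertB 0 536870912 0 536870912 587336777 62277027 3 eng mog cd0q2 cd2q0 pd3 true true false .up 2 0 3
    ndB0q2 ndB2q0 pcB3 Cut.none Ext.none :=
  certB1 (fam := true) (s1 := true) (s2 := false) (a := 2) (b := 0) (c := 3) (cn := .up) (n1 := ndB0q2) (n2 := ndB2q0) (pc := pcB3) (cut := Cut.none) (xt := Ext.none) (P1 := 0) (W1 := 536870912) (P2 := 0) (W2 := 536870912) (P3 := 587336777) (W3 := 62277027) (N0 := 3) (En := eng) (mo := mog) (C1 := cd0q2) (C2 := cd2q0) (C3 := pd3)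
    rfl (fun _ => rfl) k0_pm_203

noncomputable def f_pm_213 : ℕ → ℕ → ℕ → ℕ → Bool := onCell 0 536870912 1610612736 536870912 587336777 62277027
    (rowB 3 eng mog cd0q2 cd2q1 pd3 1 true true false .pnn 2 1 3 (qsf 0 536870912 536870912 536870912 3) ndB0q2 ndB2q1 pcB3 Cut.none Ext.none)

def k0_pm_213 : ∃ t, chk3 f_pm_213 t 1 1 1 = true :=
  ⟨(a (a (b (b (l 1) (b (a (b (l 16753712) (l 16746976)) (l 98281200439)) (a (l 4) (l 17414894407)))) (l 4)) (b (b (b (l 1) (a (l 1) (l 16805824))) (b (a (l 16827176) (l 16861320)) (b (l 16817792) (l 16792608)))) (b (b (a (l 108682898567) (b (l 16791656) (l 16768024))) (b (a (l 4) (l 16748344)) (l 4))) (l 4)))) (a (b (b (b (l 1) (a (l 16800992) (l 16801672))) (b (b (l 16869032) (l 16904720)) (a (l 16918192) (l 16915152)))) (a (b (b (l 16841416) (b (l 16793344) (l 16765776))) (l 4)) (b (b (l 16915632) (b (l 16857440) (l 16821008))) (b (b (l 16785488) (l 16754760)) (l 4))))) (a (b (b (b (b (l 1) (l 16759608)) (b (l 16793776) (l 16844736))) (b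 (b (l 16873504) (l 16902008)) (l 16925344))) (b (b (l 16926712) (b (l 16911848) (l 16874536))) (b (b (l 16834144) (l 16797840)) (b (l 16761408) (l 4))))) (b (b (b (b (b (l 16633248) (l 16730920)) (l 16785264)) (b (l 16838536) (l 16871088))) (b (b (l 16893776) (l 16923368)) (l 16991568))) (b (b (l 16950464) (l 16923064)) (b (b (l 16871448) (l 16915680)) (b (b (l 16802656) (l 16786288)) (b (l 16764200) (l 4))))))))), by decide +kernel⟩

theorem c_pm_213 : CertB 0 536870912 536870912 536870912 587336777 62277027 3 eng mog cd0q2 cd2q1 pd3 true true false .pnn 2 1 3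
    ndB0q2 ndB2q1 pcB3 Cut.none Ext.none :=
  certB1 (fam := true) (s1 := true) (s2 := false) (a := 2) (b := 1) (c := 3) (cn := .pnn) (n1 := ndB0q2) (n2 := ndB2q1) (pc := pcB3) (cut := Cut.none) (xt := Ext.none) (P1 := 0) (W1 := 536870912) (P2 := 536870912) (W2 := 536870912) (P3 := 587336777) (W3 := 62277027) (N0 := 3) (En := eng) (mo := mog) (C1 := cd0q2) (C2 := cd2q1) (C3 := pd3)
    rfl (fun _ => rfl) k0_pm_213

noncomputable def f_mm_001 : ℕ → ℕ → ℕ → ℕ → Bool := onCell 0 536870912 0 536870912 587336777 62277027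
    (rowB 3 eng mog cd0q0 cd2q0 pd1 0 true false false .up 0 0 1 (qsf 0 536870912 0 536870912 1) ndB0q0 ndB2q0 pcB1 Cut.none Ext.none)

def k0_mm_001 : ∃ t, chk3 f_mm_001 t 1 1 1 = true :=
  ⟨(l 4), by decide +kernel⟩

theorem c_mm_001 : CertB 0 536870912 0 536870912 587336777 62277027 3 eng mog cd0q0 cd2q0 pd1 true false false .up 0 0 1
    ndB0q0 ndB2q0 pcB1 Cut.none Ext.none :=
  certB0 (fam := true) (s1 := false) (s2 := false) (a := 0) (b := 0) (c := 1) (cn := .up) (n1 := ndB0q0) (n2 := ndB2q0) (pc := pcB1) (cut := Cut.none) (xt := Ext.none) (P1 := 0) (W1 := 536870912) (P2 := 0) (W2 := 536870912) (P3 := 587336777) (W3 := 62277027) (N0 := 3) (En := eng) (mo := mog) (C1 := cd0q0) (C2 := cd2q0) (C3 := pd1)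
    rfl k0_mm_001

noncomputable def f_mm_011 : ℕ → ℕ → ℕ → ℕ → Bool := onCell 0 536870912 536870912 536870912 587336777 62277027
    (rowB 3 eng mog cd0q0 cd2q1 pd1 0 true false false .pnn 0 1 1 (qsf 0 536870912 536870912 536870912 1) ndB0q0 ndB2q1 pcB1 Cut.none Ext.none)

def k0_mm_011 : ∃ t, chk3 f_mm_011 t 1 1 1 = true :=
  ⟨(l 4), by decide +kernel⟩

theorem c_mm_011 : CertB 0 536870912 536870912 536870912 587336777 62277027 3 eng mog cd0q0 cd2q1 pd1 true false false .pnn 0 1 1
    ndB0q0 ndB2q1 pcB1 Cut.none Ext.none :=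
  certB0 (fam := true) (s1 := false) (s2 := false) (a := 0) (b := 1) (c := 1) (cn := .pnn) (n1 := ndB0q0) (n2 := ndB2q1) (pc := pcB1) (cut := Cut.none) (xt := Ext.none) (P1 := 0) (W1 := 536870912) (P2 := 536870912) (W2 := 536870912) (P3 := 587336777) (W3 := 62277027) (N0 := 3) (En := eng) (mo := mog) (C1 := cd0q0) (C2 := cd2q1) (C3 := pd1)
    rfl k0_mm_011

noncomputable def f_mm_012 : ℕ → ℕ → ℕ → ℕ → Bool := onCell 0 536870912 536870912 536870912 587336777 62277027
    (rowB 3 eng mog cd0q0 cd2q1 pd2 0 true false false .pnp 0 1 2 (qsf 0 536870912 536870912 536870912 2) ndB0q0 ndB2q1 pcB2 Cut.none Ext.none)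

def k0_mm_012 : ∃ t, chk3 f_mm_012 t 1 1 1 = true :=
  ⟨(l 4), by decide +kernel⟩

theorem c_mm_012 : CertB 0 536870912 536870912 536870912 587336777 62277027 3 eng mog cd0q0 cd2q1 pd2 true false false .pnp 0 1 2
    ndB0q0 ndB2q1 pcB2 Cut.none Ext.none :=
  certB0 (fam := true) (s1 := false) (s2 := false) (a := 0) (b := 1) (c := 2) (cn := .pnp) (n1 := ndB0q0) (n2 := ndB2q1) (pc := pcB2) (cut := Cut.none) (xt := Ext.none) (P1 := 0) (W1 := 536870912) (P2 := 536870912) (W2 := 536870912) (P3 := 587336777) (W3 := 62277027) (N0 := 3) (En := eng) (mo := mog) (C1 := cd0q0) (C2 := cd2q1) (C3 := pd2)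
    rfl k0_mm_012

noncomputable def f_mm_022_a : ℕ → ℕ → ℕ → ℕ → Bool := onCell 0 536870912 0 536870912 587336777 62277027
    (rowB 3 eng mog cd0q0 cd2q2a pd2 0 true false false .pp 0 2 2 (qsf 0 536870912 0 536870912 2) ndB0q0 ndB2q2a pcB2 Cut.none Ext.none)

def k0_mm_022_a : ∃ t, chk3 f_mm_022_a t 1 1 1 = true :=
  ⟨(l 5), by decide +kernel⟩

theorem c_mm_022_a : CertB 0 536870912 0 536870912 587336777 62277027 3 eng mog cd0q0 cd2q2a pd2 true false false .pp 0 2 2
    ndB0q0 ndB2q2a pcB2 Cut.none Ext.none :=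
  certB0 (fam := true) (s1 := false) (s2 := false) (a := 0) (b := 2) (c := 2) (cn := .pp) (n1 := ndB0q0) (n2 := ndB2q2a) (pc := pcB2) (cut := Cut.none) (xt := Ext.none) (P1 := 0) (W1 := 536870912) (P2 := 0) (W2 := 536870912) (P3 := 587336777) (W3 := 62277027) (N0 := 3) (En := eng) (mo := mog) (C1 := cd0q0) (C2 := cd2q2a) (C3 := pd2)
    rfl k0_mm_022_a

noncomputable def f_mm_022_b : ℕ → ℕ → ℕ → ℕ → Bool := onCell 0 536870912 1239849684 370763052 587336777 62277027
    (rowB 3 eng mog cd0q0 cd2q2b pd2 0 true false false .pp 0 2 2 (qsf 0 536870912 1239849684 370763052 2) ndB0q0 ndB2q2b pcB2 Cut.none Ext.none)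

def k0_mm_022_b : ∃ t, chk3 f_mm_022_b t 1 1 1 = true :=
  ⟨(l 5), by decide +kernel⟩

theorem c_mm_022_b : CertB 0 536870912 1239849684 370763052 587336777 62277027 3 eng mog cd0q0 cd2q2b pd2 true false false .pp 0 2 2
    ndB0q0 ndB2q2b pcB2 Cut.none Ext.none :=
  certB0 (fam := true) (s1 := false) (s2 := false) (a := 0) (b := 2) (c := 2) (cn := .pp) (n1 := ndB0q0) (n2 := ndB2q2b) (pc := pcB2) (cut := Cut.none) (xt := Ext.none) (P1 := 0) (W1 := 536870912) (P2 := 1239849684) (W2 := 370763052) (P3 := 587336777) (W3 := 62277027) (N0 := 3) (En := eng) (mo := mog) (C1 := cd0q0) (C2 := cd2q2b) (C3 := pd2)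
    rfl k0_mm_022_b

noncomputable def f_mm_023_a : ℕ → ℕ → ℕ → ℕ → Bool := onCell 0 536870912 0 536870912 587336777 62277027
    (rowB 3 eng mog cd0q0 cd2q2a pd3 0 true false false .up 0 2 3 (qsf 0 536870912 0 536870912 3) ndB0q0 ndB2q2a pcB3 Cut.none Ext.none)

def k0_mm_023_a : ∃ t, chk3 f_mm_023_a t 1 1 1 = true :=
  ⟨(l 5), by decide +kernel⟩

theorem c_mm_023_a : CertB 0 536870912 0 536870912 587336777 62277027 3 eng mog cd0q0 cd2q2a pd3 true false false .up 0 2 3
    ndB0q0 ndB2q2a pcB3 Cut.none Ext.none :=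
  certB0 (fam := true) (s1 := false) (s2 := false) (a := 0) (b := 2) (c := 3) (cn := .up) (n1 := ndB0q0) (n2 := ndB2q2a) (pc := pcB3) (cut := Cut.none) (xt := Ext.none) (P1 := 0) (W1 := 536870912) (P2 := 0) (W2 := 536870912) (P3 := 587336777) (W3 := 62277027) (N0 := 3) (En := eng) (mo := mog) (C1 := cd0q0) (C2 := cd2q2a) (C3 := pd3)
    rfl k0_mm_023_a

noncomputable def f_mm_023_b : ℕ → ℕ → ℕ → ℕ → Bool := onCell 0 536870912 1239849684 370763052 587336777 62277027
    (rowB 3 eng mog cd0q0 cd2q2b pd3 0 true false false .up 0 2 3 (qsf 0 536870912 1239849684 370763052 3) ndB0q0 ndB2q2b pcB3 Cut.none Ext.none)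

def k0_mm_023_b : ∃ t, chk3 f_mm_023_b t 1 1 1 = true :=
  ⟨(l 5), by decide +kernel⟩

theorem c_mm_023_b : CertB 0 536870912 1239849684 370763052 587336777 62277027 3 eng mog cd0q0 cd2q2b pd3 true false false .up 0 2 3
    ndB0q0 ndB2q2b pcB3 Cut.none Ext.none :=
  certB0 (fam := true) (s1 := false) (s2 := false) (a := 0) (b := 2) (c := 3) (cn := .up) (n1 := ndB0q0) (n2 := ndB2q2b) (pc := pcB3) (cut := Cut.none) (xt := Ext.none) (P1 := 0) (W1 := 536870912) (P2 := 1239849684) (W2 := 370763052) (P3 := 587336777) (W3 := 62277027) (N0 := 3) (En := eng) (mo := mog) (C1 := cd0q0) (C2 := cd2q2b) (C3 := pd3)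
    rfl k0_mm_023_b

noncomputable def f_mm_033 : ℕ → ℕ → ℕ → ℕ → Bool := onCell 0 536870912 1610612736 536870912 587336777 62277027
    (rowB 3 eng mog cd0q0 cd2q3 pd3 0 true false false .pnn 0 3 3 (qsf 0 536870912 1610612736 536870912 3) ndB0q0 ndB2q3 pcB3 Cut.none Ext.none)

def k0_mm_033 : ∃ t, chk3 f_mm_033 t 1 1 1 = true :=
  ⟨(l 5), by decide +kernel⟩

theorem c_mm_033 : CertB 0 536870912 1610612736 536870912 587336777 62277027 3 eng mog cd0q0 cd2q3 pd3 true false false .pnn 0 3 3
    ndB0q0 ndB2q3 pcB3 Cut.none Ext.none :=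
  certB0 (fam := true) (s1 := false) (s2 := false) (a := 0) (b := 3) (c := 3) (cn := .pnn) (n1 := ndB0q0) (n2 := ndB2q3) (pc := pcB3) (cut := Cut.none) (xt := Ext.none) (P1 := 0) (W1 := 536870912) (P2 := 1610612736) (W2 := 536870912) (P3 := 587336777) (W3 := 62277027) (N0 := 3) (En := eng) (mo := mog) (C1 := cd0q0) (C2 := cd2q3) (C3 := pd3)
    rfl k0_mm_033

noncomputable def cut_mm_101 : Cut := Cut.of [[⟨0, 1, 0, 67108864⟩, ⟨1, 0, 0, 67108864⟩, ⟨2, 1, 0, 67108864⟩]]

noncomputable def f_mm_101 : ℕ → ℕ → ℕ → ℕ → Bool := onCell 536870912 536870912 0 536870912 587336777 62277027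
    (rowB 3 eng mog cd0q1 cd2q0 pd1 0 true false false .npn 1 0 1 (qsf 536870912 536870912 0 536870912 1) ndB0q1 ndB2q0 pcB1 cut_mm_101 Ext.none)

def k0_mm_101 : ∃ t, chk3 f_mm_101 t 1 1 1 = true :=
  ⟨(a (l 4) (b (a (l 4) (b (a (l 4) (b (a (l 4) (b (l 6) (l 4))) (l 4))) (l 4))) (l 4))), by decide +kernel⟩

theorem c_mm_101 : CertB 536870912 536870912 0 536870912 587336777 62277027 3 eng mog cd0q1 cd2q0 pd1 true false false .npn 1 0 1
    ndB0q1 ndB2q0 pcB1 cut_mm_101 Ext.none :=
  certB0 (fam := true) (s1 := false) (s2 := false) (a := 1) (b := 0) (c := 1) (cn := .npn) (n1 := ndB0q1) (n2 := ndB2q0) (pc := pcB1) (cut := cut_mm_101) (xt := Ext.none) (P1 := 536870912) (W1 := 536870912) (P2 := 0) (W2 := 536870912) (P3 := 587336777) (W3 := 62277027) (N0 := 3) (En := eng) (mo := mog) (C1 := cd0q1) (C2 := cd2q0) (C3 := pd1)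
    rfl k0_mm_101

noncomputable def cut_mm_102 : Cut := Cut.of [[⟨0, 1, 0, 67108864⟩, ⟨1, 0, 0, 67108864⟩, ⟨2, 1, 0, 67108864⟩]]

noncomputable def f_mm_102 : ℕ → ℕ → ℕ → ℕ → Bool := onCell 536870912 536870912 0 536870912 587336777 62277027
    (rowB 3 eng mog cd0q1 cd2q0 pd2 0 true false false .npp 1 0 2 (qsf 536870912 536870912 0 536870912 2) ndB0q1 ndB2q0 pcB2 cut_mm_102 Ext.none)

def k0_mm_102 : ∃ t, chk3 f_mm_102 t 1 1 1 = true :=
  ⟨(a (l 4) (b (a (l 4) (b (a (l 4) (a (l 4) (b (b (l 6) (l 4)) (l 4)))) (l 4))) (l 4))), by decide +kernel⟩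

theorem c_mm_102 : CertB 536870912 536870912 0 536870912 587336777 62277027 3 eng mog cd0q1 cd2q0 pd2 true false false .npp 1 0 2
    ndB0q1 ndB2q0 pcB2 cut_mm_102 Ext.none :=
  certB0 (fam := true) (s1 := false) (s2 := false) (a := 1) (b := 0) (c := 2) (cn := .npp) (n1 := ndB0q1) (n2 := ndB2q0) (pc := pcB2) (cut := cut_mm_102) (xt := Ext.none) (P1 := 536870912) (W1 := 536870912) (P2 := 0) (W2 := 536870912) (P3 := 587336777) (W3 := 62277027) (N0 := 3) (En := eng) (mo := mog) (C1 := cd0q1) (C2 := cd2q0) (C3 := pd2)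
    rfl k0_mm_102

noncomputable def f_mm_112 : ℕ → ℕ → ℕ → ℕ → Bool := onCell 536870912 536870912 536870912 536870912 587336777 62277027
    (rowB 3 eng mog cd0q1 cd2q1 pd2 0 true false false .dn 1 1 2 (qsf 536870912 536870912 536870912 536870912 2) ndB0q1 ndB2q1 pcB2 Cut.none Ext.none)

def k0_mm_112 : ∃ t, chk3 f_mm_112 t 1 1 1 = true :=
  ⟨(l 4), by decide +kernel⟩

theorem c_mm_112 : CertB 536870912 536870912 536870912 536870912 587336777 62277027 3 eng mog cd0q1 cd2q1 pd2 true false false .dn 1 1 2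
    ndB0q1 ndB2q1 pcB2 Cut.none Ext.none :=
  certB0 (fam := true) (s1 := false) (s2 := false) (a := 1) (b := 1) (c := 2) (cn := .dn) (n1 := ndB0q1) (n2 := ndB2q1) (pc := pcB2) (cut := Cut.none) (xt := Ext.none) (P1 := 536870912) (W1 := 536870912) (P2 := 536870912) (W2 := 536870912) (P3 := 587336777) (W3 := 62277027) (N0 := 3) (En := eng) (mo := mog) (C1 := cd0q1) (C2 := cd2q1) (C3 := pd2)
    rfl k0_mm_112

noncomputable def f_mm_113 : ℕ → ℕ → ℕ → ℕ → Bool := onCell 536870912 536870912 536870912 536870912 587336777 62277027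
    (rowB 3 eng mog cd0q1 cd2q1 pd3 0 true false false .nn 1 1 3 (qsf 536870912 536870912 536870912 536870912 3) ndB0q1 ndB2q1 pcB3 Cut.none Ext.none)

def k0_mm_113 : ∃ t, chk3 f_mm_113 t 1 1 1 = true :=
  ⟨(l 4), by decide +kernel⟩

theorem c_mm_113 : CertB 536870912 536870912 536870912 536870912 587336777 62277027 3 eng mog cd0q1 cd2q1 pd3 true false false .nn 1 1 3
    ndB0q1 ndB2q1 pcB3 Cut.none Ext.none :=
  certB0 (fam := true) (s1 := false) (s2 := false) (a := 1) (b := 1) (c := 3) (cn := .nn) (n1 := ndB0q1) (n2 := ndB2q1) (pc := pcB3) (cut := Cut.none) (xt := Ext.none) (P1 := 536870912) (W1 := 536870912) (P2 := 536870912) (W2 := 536870912) (P3 := 587336777) (W3 := 62277027) (N0 := 3) (En := eng) (mo := mog) (C1 := cd0q1) (C2 := cd2q1) (C3 := pd3)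
    rfl k0_mm_113

noncomputable def f_mm_123_a : ℕ → ℕ → ℕ → ℕ → Bool := onCell 536870912 536870912 0 536870912 587336777 62277027
    (rowB 3 eng mog cd0q1 cd2q2a pd3 0 true false false .npn 1 2 3 (qsf 536870912 536870912 0 536870912 3) ndB0q1 ndB2q2a pcB3 Cut.none Ext.none)

def k0_mm_123_a : ∃ t, chk3 f_mm_123_a t 1 1 1 = true :=
  ⟨(a (l 4) (l 4)), by decide +kernel⟩

theorem c_mm_123_a : CertB 536870912 536870912 0 536870912 587336777 62277027 3 eng mog cd0q1 cd2q2a pd3 true false false .npn 1 2 3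
    ndB0q1 ndB2q2a pcB3 Cut.none Ext.none :=
  certB0 (fam := true) (s1 := false) (s2 := false) (a := 1) (b := 2) (c := 3) (cn := .npn) (n1 := ndB0q1) (n2 := ndB2q2a) (pc := pcB3) (cut := Cut.none) (xt := Ext.none) (P1 := 536870912) (W1 := 536870912) (P2 := 0) (W2 := 536870912) (P3 := 587336777) (W3 := 62277027) (N0 := 3) (En := eng) (mo := mog) (C1 := cd0q1) (C2 := cd2q2a) (C3 := pd3)
    rfl k0_mm_123_a

noncomputable def f_mm_123_b : ℕ → ℕ → ℕ → ℕ → Bool := onCell 536870912 536870912 1239849684 370763052 587336777 62277027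
    (rowB 3 eng mog cd0q1 cd2q2b pd3 0 true false false .npn 1 2 3 (qsf 536870912 536870912 1239849684 370763052 3) ndB0q1 ndB2q2b pcB3 Cut.none Ext.none)

def k0_mm_123_b : ∃ t, chk3 f_mm_123_b t 1 1 1 = true :=
  ⟨(l 5), by decide +kernel⟩

theorem c_mm_123_b : CertB 536870912 536870912 1239849684 370763052 587336777 62277027 3 eng mog cd0q1 cd2q2b pd3 true false false .npn 1 2 3
    ndB0q1 ndB2q2b pcB3 Cut.none Ext.none :=
  certB0 (fam := true) (s1 := false) (s2 := false) (a := 1) (b := 2) (c := 3) (cn := .npn) (n1 := ndB0q1) (n2 := ndB2q2b) (pc := pcB3) (cut := Cut.none) (xt := Ext.none) (P1 := 536870912) (W1 := 536870912) (P2 := 1239849684) (W2 := 370763052) (P3 := 587336777) (W3 := 62277027) (N0 := 3) (En := eng) (mo := mog) (C1 := cd0q1) (C2 := cd2q2b) (C3 := pd3)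
    rfl k0_mm_123_b

noncomputable def f_mm_133 : ℕ → ℕ → ℕ → ℕ → Bool := onCell 536870912 536870912 1610612736 536870912 587336777 62277027
    (rowB 3 eng mog cd0q1 cd2q3 pd3 0 true false false .dn 1 3 3 (qsf 536870912 536870912 1610612736 536870912 3) ndB0q1 ndB2q3 pcB3 Cut.none Ext.none)

def k0_mm_133 : ∃ t, chk3 f_mm_133 t 1 1 1 = true :=
  ⟨(l 4), by decide +kernel⟩

theorem c_mm_133 : CertB 536870912 536870912 1610612736 536870912 587336777 62277027 3 eng mog cd0q1 cd2q3 pd3 true false false .dn 1 3 3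
    ndB0q1 ndB2q3 pcB3 Cut.none Ext.none :=
  certB0 (fam := true) (s1 := false) (s2 := false) (a := 1) (b := 3) (c := 3) (cn := .dn) (n1 := ndB0q1) (n2 := ndB2q3) (pc := pcB3) (cut := Cut.none) (xt := Ext.none) (P1 := 536870912) (W1 := 536870912) (P2 := 1610612736) (W2 := 536870912) (P3 := 587336777) (W3 := 62277027) (N0 := 3) (En := eng) (mo := mog) (C1 := cd0q1) (C2 := cd2q3) (C3 := pd3)
    rfl k0_mm_133

noncomputable def cut_mm_202 : Cut := Cut.of [[⟨0, 1, 0, 67108864⟩, ⟨1, 0, 0, 67108864⟩, ⟨2, 1, 0, 67108864⟩]]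

noncomputable def f_mm_202 : ℕ → ℕ → ℕ → ℕ → Bool := onCell 0 536870912 0 536870912 587336777 62277027
    (rowB 3 eng mog cd0q2 cd2q0 pd2 0 true false false .pp 2 0 2 (qsf 0 536870912 0 536870912 2) ndB0q2 ndB2q0 pcB2 cut_mm_202 Ext.none)

def k0_mm_202 : ∃ t, chk3 f_mm_202 t 2 2 1 = true :=
  ⟨(b (a (b (a (b (a (l 16479064) (l 16524296)) (l 16471560)) (b (b (a (l 16463464) (l 16470824)) (a (l 16470576) (l 16457648))) (a (l 16481592) (l 16490888)))) (a (a (l 16486160) (l 16547208)) (b (l 16522968) (l 16518064)))) (b (a (b (a (b (a (l 16477704) (l 16483112)) (b (l 16486512) (l 16490936))) (b (a (l 16489136) (l 16495824)) (a (l 16497664) (l 16504536)))) (a (l 16502184) (b (l 16531728) (l 16520528)))) (b (b (a (b (c (l 16505864) (l 16531288)) (a (l 16505296) (l 16513416))) (b (b (a (l 16537864) (a (l 16502640) (c (l 16528496) (l 16506552)))) (a (l 16518968) (l 16528456))) (c (l 16527856) (l 16547672)))) (a (a (l 16512096) (l 16520368)) (a (b (l 16526904) (l 16531856)) (b (l 16536568)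 (l 16541624))))) (a (b (b (a (l 16519536) (l 16527944)) (l 16550000)) (l 16536968)) (a (b (b (l 16537080) (l 16542544)) (l 16550944)) (b (l 16549704) (l 16582144)))))) (a (b (a (l 16520168) (l 16535240)) (l 16536136)) (a (b (b (l 16547568) (l 16558184)) (l 16574064)) (b (b (l 16567504) (l 16578960)) (l 16617080)))))) (a (b (a (b (a (l 16512048) (l 16521176)) (a (l 16540360) (l 16549896))) (b (l 16538600) (l 16567992))) (a (b (l 16564544) (l 16581072)) (b (l 16592136) (l 16614056)))) (b (a (b (l 16569176) (l 16599840)) (b (a (l 16598528) (l 16663936)) (l 16621352))) (a (b (l 16628472) (l 16655136)) (b (a (l 16703024) (l 16686232)) (l 16744552)))))), by decide +kernel⟩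

def k1_mm_202 : ∃ t, chk3 f_mm_202 t 6 4 1 = true :=
  ⟨(b (a (a (a (b (b (b (c (a (l 16534672) (l 16547616)) (b (a (l 16532128) (l 16536864)) (l 16537704))) (c (l 16542440) (l 16542192))) (b (l 16546984) (l 16552144))) (b (l 16560376) (b (l 16569112) (l 16575120)))) (b (b (b (c (b (a (l 16522608) (l 16548880)) (l 16549064)) (b (a (l 16541728) (l 16546728)) (a (l 16545072) (l 16550168)))) (c (l 16553176) (l 16552576))) (b (l 16558160) (l 16563424))) (b (l 16571816) (b (l 16580712) (l 16586872))))) (a (b (b (b (b (c (l 16559744) (a (l 16551856) (l 16557128))) (c (l 16560160) (l 16558096))) (c (l 16564600) (l 16563344))) (b (l 16570120) (l 16575488))) (b (l 16584040) (l 16596224))) (b (b (b (b (c (l 16568552) (a (l 16562536) (l 16568096))) (c (l 16571808) (l 16569128))) (c (l 16576576) (b (l 16572848) (l 16576488)))) (b (l 16582416) (l 16588336))) (b (l 16597056) (l 16609464))))) (b (b (a (b (a (b (a (l 16575776) (l 16581784)) (l 16582536)) (b (c (l 16593152) (l 16588864)) (l 16595080)))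 (a (b (l 16586200) (l 16589800)) (b (l 16598952) (l 16602752)))) (b (a (b (c (l 16606376) (l 16601680)) (l 16608296)) (b (c (l 16620320) (l 16615360)) (l 16622288))) (a (l 16614384) (l 16628648)))) (a (b (a (l 16595064) (l 16608328)) (l 16598264)) (a (b (l 16622240) (l 16629832)) (b (l 16636880) (l 16644832))))) (b (a (a (l 16610840) (l 16625368)) (a (l 16640632) (l 16656288))) (a (l 16630880) (l 16661840))))) (a (b (a (b (l 16590216) (l 16602504)) (b (a (l 16629984) (b (l 16619224) (l 16625872))) (l 16628928))) (a (l 16683864) (b (l 16642080) (l 16655200)))) (b (b (a (b (l 16682864) (l 16647784)) (l 16675792)) (a (l 16668704) (a (l 16681888) (l 16719512)))) (a (l 16679216) (b (l 16725920) (l 16719544)))))), by decide +kernel⟩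

def k2_mm_202 : ∃ t, chk3 f_mm_202 t 7 4 1 = true :=
  ⟨(b (a (b (b (a (b (a (b (c (l 16635048) (l 16630032)) (l 16637144)) (b (a (l 16644248) (l 16652328)) (l 16663440))) (a (l 16664736) (b (l 16657544) (l 16662048)))) (a (b (b (l 6) (a (l 16665448) (l 6))) (b (l 16674520) (l 16679168))) (b (l 6) (b (l 6) (l 16718344))))) (a (a (b (l 16652328) (l 16660608)) (b (l 16689648) (l 16677248))) (a (b (a (l 16681528) (l 16690440)) (l 16694824)) (b (b (l 16723024) (a (l 16701904) (l 16711400))) (l 16713432))))) (b (a (a (l 16672544) (l 16689600)) (a (l 16707464) (l 16741072))) (a (a (l 16686560) (l 16703768)) (a (l 16721432) (b (l 16735960) (l 16743600)))))) (b (a (b (l 6) (a (b (l 6) (l 16743640)) (l 6))) (l 6)) (a (b (a (b (l 16740224) (l 16757976)) (b (a (l 16754544) (l 4)) (l 4))) (a (b (l 16755320) (l 4)) (l 4))) (l 4)))) (a (b (a (b (l 16720160) (l 16756200)) (b (a (l 16736488) (l 4)) (l 4))) (a (a (b (l 16730888) (l 4)) (l 4)) (l 4))) (l 4))), by decide +kernel⟩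

def k3_mm_202 : ∃ t, chk3 f_mm_202 t 3 5 1 = true :=
  ⟨(a (b (a (b (a (l 16711240) (l 16677584)) (a (l 16681544) (l 16710736))) (b (a (l 16730040) (b (l 16734336) (l 4))) (l 4))) (a (b (a (l 16712960) (l 4)) (l 4)) (l 4))) (l 4)), by decide +kernel⟩

def k4_mm_202 : ∃ t, chk3 f_mm_202 t 1 3 1 = true :=
  ⟨(a (b (a (b (a (b (l 16599976) (l 16623608)) (b (l 16638592) (l 16667472))) (a (b (l 16652032) (l 16686072)) (b (l 16699248) (l 16729448)))) (b (a (b (l 16683496) (l 16711944)) (b (l 24394114295) (l 4))) (a (b (l 16737952) (l 4)) (l 4)))) (a (l 2) (l 4))) (l 4)), by decide +kernel⟩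

theorem s5_mm_202 : ∃ t, chk3 f_mm_202 t 3 4 1 = true := ex3_a k1_mm_202 k2_mm_202

theorem s6_mm_202 : ∃ t, chk3 f_mm_202 t 3 2 1 = true := ex3_b s5_mm_202 k3_mm_202

theorem s7_mm_202 : ∃ t, chk3 f_mm_202 t 1 2 1 = true := ex3_a k0_mm_202 s6_mm_202

theorem s8_mm_202 : ∃ t, chk3 f_mm_202 t 1 1 1 = true := ex3_b s7_mm_202 k4_mm_202

theorem c_mm_202 : CertB 0 536870912 0 536870912 587336777 62277027 3 eng mog cd0q2 cd2q0 pd2 true false false .pp 2 0 2
    ndB0q2 ndB2q0 pcB2 cut_mm_202 Ext.none :=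
  certB0 (fam := true) (s1 := false) (s2 := false) (a := 2) (b := 0) (c := 2) (cn := .pp) (n1 := ndB0q2) (n2 := ndB2q0) (pc := pcB2) (cut := cut_mm_202) (xt := Ext.none) (P1 := 0) (W1 := 536870912) (P2 := 0) (W2 := 536870912) (P3 := 587336777) (W3 := 62277027) (N0 := 3) (En := eng) (mo := mog) (C1 := cd0q2) (C2 := cd2q0) (C3 := pd2)
    rfl s8_mm_202

noncomputable def f_mm_203 : ℕ → ℕ → ℕ → ℕ → Bool := onCell 0 536870912 1610612736 536870912 587336777 62277027
    (rowB 3 eng mog cd0q2 cd2q0 pd3 1 true false false .up 2 0 3 (qsf 0 536870912 0 536870912 3) ndB0q2 ndB2q0 pcB3 Cut.none Ext.none)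

def k0_mm_203 : ∃ t, chk3 f_mm_203 t 1 1 1 = true :=
  ⟨(a (b (b (a (b (a (b (l 16691024) (l 16731536)) (b (l 16735648) (l 16762104))) (a (b (l 16761920) (l 16782528)) (l 4))) (l 4)) (l 4)) (l 2)) (l 4)), by decide +kernel⟩

theorem c_mm_203 : CertB 0 536870912 0 536870912 587336777 62277027 3 eng mog cd0q2 cd2q0 pd3 true false false .up 2 0 3
    ndB0q2 ndB2q0 pcB3 Cut.none Ext.none :=
  certB1 (fam := true) (s1 := false) (s2 := false) (a := 2) (b := 0) (c := 3) (cn := .up) (n1 := ndB0q2) (n2 := ndB2q0) (pc := pcB3) (cut := Cut.none) (xt := Ext.none) (P1 := 0) (W1 := 536870912) (P2 := 0) (W2 := 536870912) (P3 := 587336777) (W3 := 62277027) (N0 := 3) (En := eng) (mo := mog) (C1 := cd0q2) (C2 := cd2q0) (C3 := pd3)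
    rfl (fun _ => rfl) k0_mm_203

noncomputable def f_mm_213 : ℕ → ℕ → ℕ → ℕ → Bool := onCell 0 536870912 536870912 536870912 587336777 62277027
    (rowB 3 eng mog cd0q2 cd2q1 pd3 0 true false false .pnn 2 1 3 (qsf 0 536870912 536870912 536870912 3) ndB0q2 ndB2q1 pcB3 Cut.none Ext.none)

def k0_mm_213 : ∃ t, chk3 f_mm_213 t 1 1 1 = true :=
  ⟨(a (b (l 4) (l 4)) (l 4)), by decide +kernel⟩

theorem c_mm_213 : CertB 0 536870912 536870912 536870912 587336777 62277027 3 eng mog cd0q2 cd2q1 pd3 true false false .pnn 2 1 3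
    ndB0q2 ndB2q1 pcB3 Cut.none Ext.none :=
  certB0 (fam := true) (s1 := false) (s2 := false) (a := 2) (b := 1) (c := 3) (cn := .pnn) (n1 := ndB0q2) (n2 := ndB2q1) (pc := pcB3) (cut := Cut.none) (xt := Ext.none) (P1 := 0) (W1 := 536870912) (P2 := 536870912) (W2 := 536870912) (P3 := 587336777) (W3 := 62277027) (N0 := 3) (En := eng) (mo := mog) (C1 := cd0q2) (C2 := cd2q1) (C3 := pd3)
    rfl k0_mm_213

end Pool.Agent.Strip051.G.I5470_6050.Tab.C.BA02

namespace Pool.Agent.Strip051.G.I5470_6050.Tab.C.BA03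

open Pool.Agent.Strip051.PB Pool.Agent.Strip051.PB.T
open Pool.Agent.Strip051.G.I5470_6050.Tab

noncomputable def f_pp_001 : ℕ → ℕ → ℕ → ℕ → Bool := onCell 0 536870912 0 536870912 587336777 62277027
    (rowB 3 eng mog cd0q0 cd3q0 pd1 0 true true true .up 0 0 1 (qsf 0 536870912 0 536870912 1) ndB0q0 ndB3q0 pcB1 Cut.none Ext.none)

def k0_pp_001 : ∃ t, chk3 f_pp_001 t 1 1 1 = true :=
  ⟨(l 4), by decide +kernel⟩

theorem c_pp_001 : CertB 0 536870912 0 536870912 587336777 62277027 3 eng mog cd0q0 cd3q0 pd1 true true true .up 0 0 1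
    ndB0q0 ndB3q0 pcB1 Cut.none Ext.none :=
  certB0 (fam := true) (s1 := true) (s2 := true) (a := 0) (b := 0) (c := 1) (cn := .up) (n1 := ndB0q0) (n2 := ndB3q0) (pc := pcB1) (cut := Cut.none) (xt := Ext.none) (P1 := 0) (W1 := 536870912) (P2 := 0) (W2 := 536870912) (P3 := 587336777) (W3 := 62277027) (N0 := 3) (En := eng) (mo := mog) (C1 := cd0q0) (C2 := cd3q0) (C3 := pd1)
    rfl k0_pp_001

noncomputable def f_pp_011 : ℕ → ℕ → ℕ → ℕ → Bool := onCell 0 536870912 536870912 536870912 587336777 62277027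
    (rowB 3 eng mog cd0q0 cd3q1 pd1 0 true true true .pnn 0 1 1 (qsf 0 536870912 536870912 536870912 1) ndB0q0 ndB3q1 pcB1 Cut.none Ext.none)

def k0_pp_011 : ∃ t, chk3 f_pp_011 t 1 1 1 = true :=
  ⟨(l 4), by decide +kernel⟩

theorem c_pp_011 : CertB 0 536870912 536870912 536870912 587336777 62277027 3 eng mog cd0q0 cd3q1 pd1 true true true .pnn 0 1 1
    ndB0q0 ndB3q1 pcB1 Cut.none Ext.none :=
  certB0 (fam := true) (s1 := true) (s2 := true) (a := 0) (b := 1) (c := 1) (cn := .pnn) (n1 := ndB0q0) (n2 := ndB3q1) (pc := pcB1) (cut := Cut.none) (xt := Ext.none) (P1 := 0) (W1 := 536870912) (P2 := 536870912) (W2 := 536870912) (P3 := 587336777) (W3 := 62277027) (N0 := 3) (En := eng) (mo := mog) (C1 := cd0q0) (C2 := cd3q1) (C3 := pd1)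
    rfl k0_pp_011

noncomputable def f_pp_012 : ℕ → ℕ → ℕ → ℕ → Bool := onCell 0 536870912 536870912 536870912 587336777 62277027
    (rowB 3 eng mog cd0q0 cd3q1 pd2 0 true true true .pnp 0 1 2 (qsf 0 536870912 536870912 536870912 2) ndB0q0 ndB3q1 pcB2 Cut.none Ext.none)

def k0_pp_012 : ∃ t, chk3 f_pp_012 t 1 1 1 = true :=
  ⟨(l 4), by decide +kernel⟩

theorem c_pp_012 : CertB 0 536870912 536870912 536870912 587336777 62277027 3 eng mog cd0q0 cd3q1 pd2 true true true .pnp 0 1 2
    ndB0q0 ndB3q1 pcB2 Cut.none Ext.none :=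
  certB0 (fam := true) (s1 := true) (s2 := true) (a := 0) (b := 1) (c := 2) (cn := .pnp) (n1 := ndB0q0) (n2 := ndB3q1) (pc := pcB2) (cut := Cut.none) (xt := Ext.none) (P1 := 0) (W1 := 536870912) (P2 := 536870912) (W2 := 536870912) (P3 := 587336777) (W3 := 62277027) (N0 := 3) (En := eng) (mo := mog) (C1 := cd0q0) (C2 := cd3q1) (C3 := pd2)
    rfl k0_pp_012

noncomputable def cut_pp_022_a : Cut := Cut.of [[⟨0, 0, 0, 67108864⟩, ⟨1, 1, 0, 67108864⟩, ⟨2, 1, 0, 67108864⟩]]

noncomputable def f_pp_022_a : ℕ → ℕ → ℕ → ℕ → Bool := onCell 0 536870912 0 536870912 587336777 62277027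
    (rowB 3 eng mog cd0q0 cd3q2a pd2 0 true true true .pp 0 2 2 (qsf 0 536870912 0 536870912 2) ndB0q0 ndB3q2a pcB2 cut_pp_022_a Ext.none)

def k0_pp_022_a : ∃ t, chk3 f_pp_022_a t 4 2 1 = true :=
  ⟨(a (b (a (b (a (b (l 16457728) (l 16460296)) (b (l 16467488) (l 16470496))) (b (a (l 16465168) (l 16543288)) (a (l 16472400) (a (l 16480664) (l 16486184))))) (b (a (l 16499704) (l 16530024)) (a (b (l 16486104) (l 16494264)) (l 16505872)))) (a (b (a (b (l 16482048) (l 16494200)) (b (c (l 16537520) (l 16533720)) (l 16495464))) (a (b (l 16508928) (l 16526312)) (b (l 16521032) (l 16538768)))) (b (a (b (l 16504832) (l 16517856)) (l 16543856)) (a (b (l 16551728) (l 16572480)) (b (l 16545688) (l 16585376)))))) (b (b (a (a (l 16497432) (l 16506856)) (l 16542152)) (a (a (l 16510928) (l 16521272)) (l 16589296))) (a (a (b (l 16555240) (b (l 16557952) (l 16577280))) (b (l 16545688) (l 16622320))) (b (c (l 16605400) (l 16604720)) (a (l 16634984) (l 16638776)))))), by decide +kernel⟩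

def k1_pp_022_a : ∃ t, chk3 f_pp_022_a t 4 6 1 = true :=
  ⟨(a (b (a (a (a (l 16585696) (l 16603088)) (b (l 16559240) (l 16582496))) (a (b (l 16572360) (l 16596016)) (b (b (l 16580048) (l 16591384)) (l 16630792)))) (a (b (a (l 16614144) (l 16628944)) (a (a (l 16616536) (l 16624512)) (a (l 16632304) (l 16660928)))) (a (b (l 16643344) (a (l 16668488) (l 16675992))) (b (l 16657656) (a (l 16683472) (l 16690960)))))) (b (a (a (b (l 16599240) (a (l 16641328) (l 16627416))) (b (l 16612776) (l 16638016))) (a (b (l 16626848) (l 16673776)) (b (l 16641816) (a (l 16664368) (l 16682904))))) (a (b (b (a (l 16664952) (l 16679576)) (a (l 16658344) (a (l 16690472) (l 16677088)))) (a (b (l 16694384) (b (l 16706032) (l 16703528))) (b (a (l 16684768) (l 4)) (l 4)))) (b (a (b (l 16673848) (l 4)) (l 4)) (l 4))))), by decide +kernel⟩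

def k2_pp_022_a : ∃ t, chk3 f_pp_022_a t 4 7 1 = true :=
  ⟨(a (b (b (b (a (a (a (l 16638736) (l 16667968)) (l 16669536)) (a (a (l 16670800) (l 16678536)) (a (l 16686232) (l 16714872)))) (a (a (a (l 16675544) (l 16684008)) (b (l 16671168) (l 16690016))) (a (b (l 16697536) (l 16706056)) (a (l 16713528) (b (l 16706432) (l 4)))))) (b (a (a (a (c (l 16693192) (l 16691528)) (a (l 16677872) (l 16703096))) (a (b (l 16684016) (a (l 16690704) (l 16694880))) (l 16707152))) (a (a (l 16715272) (b (l 16708280) (l 16727632))) (a (a (l 16728984) (l 4)) (l 4)))) (a (a (a (l 6) (b (l 16714256) (l 6))) (c (a (l 16717240) (l 16725456)) (a (l 16716592) (l 16722528)))) (a (a (b (l 16728824) (c (l 16738080) (l 16737968))) (b (l 16731352) (l 4))) (l 4))))) (a (b (a (l 6) (b (a (l 6) (b (c (l 16739480) (l 16739304)) (a (l 6) (l 16745648)))) (l 6))) (l 6)) (b (a (b (a (b (c (l 16741480) (l 16741920)) (l 4)) (l 4)) (l 4)) (l 4)) (l 4)))) (b (a (b (a (b (a (l 16722504) (l 4)) (l 4)) (l 4)) (l 4)) (l 4))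 (l 4))), by decide +kernel⟩

def k3_pp_022_a : ∃ t, chk3 f_pp_022_a t 5 1 1 = true :=
  ⟨(b (a (b (a (b (l 16562272) (l 16601944)) (b (a (l 16557776) (l 16571448)) (a (l 16581808) (l 16660240)))) (b (a (a (l 16583448) (l 16619560)) (a (l 16635360) (b (l 16621496) (l 16661160)))) (a (a (l 16656544) (b (l 16627304) (l 16667912))) (b (a (l 16643856) (b (l 16676720) (l 16688136))) (a (l 75396589111) (l 4)))))) (b (a (b (a (l 16588192) (l 16604960)) (a (l 16614184) (l 16631264))) (b (a (l 16621416) (l 16637440)) (a (b (l 16640600) (l 16676824)) (b (l 16656904) (l 16725808))))) (b (a (a (b (l 16638504) (a (l 51237387159) (l 16704328))) (b (l 65732859271) (b (l 16712952) (l 4)))) (b (a (l 35131397319) (l 4)) (l 4))) (l 4)))) (b (a (b (a (b (a (l 16699640) (l 85597134055)) (l 4)) (l 4)) (l 4)) (l 4)) (l 4))), by decide +kernel⟩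

def k4_pp_022_a : ∃ t, chk3 f_pp_022_a t 3 1 1 = true :=
  ⟨(b (b (a (a (a (b (a (l 16652912) (l 16730824)) (b (a (l 51774249879) (l 65732945255)) (a (l 46942587879) (l 4)))) (b (b (a (l 16675904) (l 16690032)) (a (l 48016241975) (l 57143066151))) (l 4))) (a (b (b (a (l 16747392) (l 4)) (l 4)) (l 4)) (l 4))) (l 2)) (l 4)) (l 4)), by decide +kernel⟩

theorem s5_pp_022_a : ∃ t, chk3 f_pp_022_a t 4 3 1 = true := ex3_b k1_pp_022_a k2_pp_022_a

theorem s6_pp_022_a : ∃ t, chk3 f_pp_022_a t 4 1 1 = true := ex3_b k0_pp_022_a s5_pp_022_a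

theorem s7_pp_022_a : ∃ t, chk3 f_pp_022_a t 2 1 1 = true := ex3_a s6_pp_022_a k3_pp_022_a

theorem s8_pp_022_a : ∃ t, chk3 f_pp_022_a t 1 1 1 = true := ex3_a s7_pp_022_a k4_pp_022_a

theorem c_pp_022_a : CertB 0 536870912 0 536870912 587336777 62277027 3 eng mog cd0q0 cd3q2a pd2 true true true .pp 0 2 2
    ndB0q0 ndB3q2a pcB2 cut_pp_022_a Ext.none :=
  certB0 (fam := true) (s1 := true) (s2 := true) (a := 0) (b := 2) (c := 2) (cn := .pp) (n1 := ndB0q0) (n2 := ndB3q2a) (pc := pcB2) (cut := cut_pp_022_a) (xt := Ext.none) (P1 := 0) (W1 := 536870912) (P2 := 0) (W2 := 536870912) (P3 := 587336777) (W3 := 62277027) (N0 := 3) (En := eng) (mo := mog) (C1 := cd0q0) (C2 := cd3q2a) (C3 := pd2)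
    rfl s8_pp_022_a

noncomputable def cut_pp_022_b : Cut := Cut.of [[⟨0, 0, 0, 67108864⟩, ⟨1, 1, 0, 67108864⟩, ⟨2, 1, 0, 67108864⟩]]

noncomputable def f_pp_022_b : ℕ → ℕ → ℕ → ℕ → Bool := onCell 1073741824 536870912 1239849684 370763052 587336777 62277027
    (rowB 3 eng mog cd0q0 cd3q2b pd2 2 true true true .pp 0 2 2 (qsf 0 536870912 1239849684 370763052 2) ndB0q0 ndB3q2b pcB2 cut_pp_022_b Ext.none)

def k0_pp_022_b : ∃ t, chk3 f_pp_022_b t 2 1 1 = true :=
  ⟨(a (l 1) (b (b (a (b (a (b (a (l 1) (b (l 16416320) (l 1))) (l 1)) (a (b (b (a (b (l 16448696) (l 16434616)) (l 16446464)) (a (l 1) (l 16418296))) (l 1)) (b (b (l 16453616) (l 16425552)) (b (l 16397328) (l 16368848))))) (l 1)) (b (a (b (a (a (l 16446440) (l 16450864)) (l 16520240)) (a (b (l 16406520) (l 16378288)) (l 16400960))) (b (a (l 16465872) (l 16474408)) (l 16433888))) (a (b (b (l 16354312) (l 16325680)) (l 1)) (b (l 16356112) (l 16299248))))) (a (l 1) (b (a (l 1) (l 16253264)) (l 1)))) (l 1))), by decide +kernel⟩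

def k1_pp_022_b : ∃ t, chk3 f_pp_022_b t 3 1 1 = true :=
  ⟨(a (b (b (a (b (a (b (l 16529440) (l 16428104)) (a (l 16533224) (l 16544928))) (a (l 16425048) (l 16427616))) (b (a (a (l 16558000) (l 16594168)) (b (l 16604392) (l 16510712))) (a (a (l 16385296) (l 16401648)) (a (l 16420768) (l 16482168))))) (a (b (a (l 16292848) (l 16253672)) (a (l 1) (l 16142800))) (a (b (a (l 16274304) (l 16291088)) (a (l 16164152) (l 16181208))) (b (b (l 16348624) (l 16293776)) (l 16275008))))) (a (l 1) (b (a (b (l 16072496) (l 1)) (b (l 16166760) (l 15994240))) (l 1)))) (a (b (b (b (a (b (a (l 16587888) (l 16604328)) (l 16609688)) (b (a (l 16620256) (l 16635568)) (a (l 16572872) (l 16589552)))) (a (b (l 16495528) (l 16443008)) (b (l 16532456) (l 16482096)))) (a (b (l 16446816) (l 16276408)) (b (l 16509472) (l 16299672)))) (b (a (b (l 16148800) (l 16042904)) (b (l 16194632) (l 16091072))) (a (l 1) (b (l 15988016) (l 1))))) (a (b (b (b (b (a (l 16650192) (l 16685072)) (l 16615912)) (b (l 16609184)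 (l 16519488))) (b (b (l 16470312) (l 16420112)) (l 16343816))) (b (b (l 16241200) (l 16139048)) (b (l 16038640) (l 15938600)))) (a (b (b (b (b (l 16730624) (l 16637304)) (l 16614088)) (l 4)) (b (l 4) (l 16031320))) (l 4))))), by decide +kernel⟩

theorem s2_pp_022_b : ∃ t, chk3 f_pp_022_b t 1 1 1 = true := ex3_a k0_pp_022_b k1_pp_022_b

theorem c_pp_022_b : CertB 0 536870912 1239849684 370763052 587336777 62277027 3 eng mog cd0q0 cd3q2b pd2 true true true .pp 0 2 2
    ndB0q0 ndB3q2b pcB2 cut_pp_022_b Ext.none :=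
  certB2 (fam := true) (s1 := true) (s2 := true) (a := 0) (b := 2) (c := 2) (cn := .pp) (n1 := ndB0q0) (n2 := ndB3q2b) (pc := pcB2) (cut := cut_pp_022_b) (xt := Ext.none) (P1 := 0) (W1 := 536870912) (P2 := 1239849684) (W2 := 370763052) (P3 := 587336777) (W3 := 62277027) (N0 := 3) (En := eng) (mo := mog) (C1 := cd0q0) (C2 := cd3q2b) (C3 := pd2)
    rfl (fun _ => rfl) s2_pp_022_b

noncomputable def f_pp_023_a : ℕ → ℕ → ℕ → ℕ → Bool := onCell 1610612736 536870912 0 536870912 587336777 62277027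
    (rowB 3 eng mog cd0q0 cd3q2a pd3 2 true true true .up 0 2 3 (qsf 0 536870912 0 536870912 3) ndB0q0 ndB3q2a pcB3 Cut.none Ext.none)

def k0_pp_023_a : ∃ t, chk3 f_pp_023_a t 1 1 1 = true :=
  ⟨(a (b (l 4) (l 4)) (l 2)), by decide +kernel⟩

theorem c_pp_023_a : CertB 0 536870912 0 536870912 587336777 62277027 3 eng mog cd0q0 cd3q2a pd3 true true true .up 0 2 3
    ndB0q0 ndB3q2a pcB3 Cut.none Ext.none :=
  certB2 (fam := true) (s1 := true) (s2 := true) (a := 0) (b := 2) (c := 3) (cn := .up) (n1 := ndB0q0) (n2 := ndB3q2a) (pc := pcB3) (cut := Cut.none) (xt := Ext.none) (P1 := 0) (W1 := 536870912) (P2 := 0) (W2 := 536870912) (P3 := 587336777) (W3 := 62277027) (N0 := 3) (En := eng) (mo := mog) (C1 := cd0q0) (C2 := cd3q2a) (C3 := pd3)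
    rfl (fun _ => rfl) k0_pp_023_a

noncomputable def f_pp_023_b : ℕ → ℕ → ℕ → ℕ → Bool := onCell 1610612736 536870912 1239849684 370763052 587336777 62277027
    (rowB 3 eng mog cd0q0 cd3q2b pd3 2 true true true .up 0 2 3 (qsf 0 536870912 1239849684 370763052 3) ndB0q0 ndB3q2b pcB3 Cut.none Ext.none)

def k0_pp_023_b : ∃ t, chk3 f_pp_023_b t 1 1 1 = true :=
  ⟨(a (b (a (l 4) (l 4)) (l 4)) (l 4)), by decide +kernel⟩

theorem c_pp_023_b : CertB 0 536870912 1239849684 370763052 587336777 62277027 3 eng mog cd0q0 cd3q2b pd3 true true true .up 0 2 3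
    ndB0q0 ndB3q2b pcB3 Cut.none Ext.none :=
  certB2 (fam := true) (s1 := true) (s2 := true) (a := 0) (b := 2) (c := 3) (cn := .up) (n1 := ndB0q0) (n2 := ndB3q2b) (pc := pcB3) (cut := Cut.none) (xt := Ext.none) (P1 := 0) (W1 := 536870912) (P2 := 1239849684) (W2 := 370763052) (P3 := 587336777) (W3 := 62277027) (N0 := 3) (En := eng) (mo := mog) (C1 := cd0q0) (C2 := cd3q2b) (C3 := pd3)
    rfl (fun _ => rfl) k0_pp_023_b

noncomputable def f_pp_033 : ℕ → ℕ → ℕ → ℕ → Bool := onCell 0 536870912 1610612736 536870912 587336777 62277027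
    (rowB 3 eng mog cd0q0 cd3q3 pd3 0 true true true .pnn 0 3 3 (qsf 0 536870912 1610612736 536870912 3) ndB0q0 ndB3q3 pcB3 Cut.none Ext.none)

def k0_pp_033 : ∃ t, chk3 f_pp_033 t 1 1 1 = true :=
  ⟨(a (b (a (l 4) (l 4)) (l 4)) (l 4)), by decide +kernel⟩

theorem c_pp_033 : CertB 0 536870912 1610612736 536870912 587336777 62277027 3 eng mog cd0q0 cd3q3 pd3 true true true .pnn 0 3 3
    ndB0q0 ndB3q3 pcB3 Cut.none Ext.none :=
  certB0 (fam := true) (s1 := true) (s2 := true) (a := 0) (b := 3) (c := 3) (cn := .pnn) (n1 := ndB0q0) (n2 := ndB3q3) (pc := pcB3) (cut := Cut.none) (xt := Ext.none) (P1 := 0) (W1 := 536870912) (P2 := 1610612736) (W2 := 536870912) (P3 := 587336777) (W3 := 62277027) (N0 := 3) (En := eng) (mo := mog) (C1 := cd0q0) (C2 := cd3q3) (C3 := pd3)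
    rfl k0_pp_033

noncomputable def f_pp_101 : ℕ → ℕ → ℕ → ℕ → Bool := onCell 536870912 536870912 0 536870912 587336777 62277027
    (rowB 3 eng mog cd0q1 cd3q0 pd1 0 true true true .npn 1 0 1 (qsf 536870912 536870912 0 536870912 1) ndB0q1 ndB3q0 pcB1 Cut.none Ext.none)

def k0_pp_101 : ∃ t, chk3 f_pp_101 t 1 1 1 = true :=
  ⟨(l 5), by decide +kernel⟩

theorem c_pp_101 : CertB 536870912 536870912 0 536870912 587336777 62277027 3 eng mog cd0q1 cd3q0 pd1 true true true .npn 1 0 1
    ndB0q1 ndB3q0 pcB1 Cut.none Ext.none :=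
  certB0 (fam := true) (s1 := true) (s2 := true) (a := 1) (b := 0) (c := 1) (cn := .npn) (n1 := ndB0q1) (n2 := ndB3q0) (pc := pcB1) (cut := Cut.none) (xt := Ext.none) (P1 := 536870912) (W1 := 536870912) (P2 := 0) (W2 := 536870912) (P3 := 587336777) (W3 := 62277027) (N0 := 3) (En := eng) (mo := mog) (C1 := cd0q1) (C2 := cd3q0) (C3 := pd1)
    rfl k0_pp_101

noncomputable def f_pp_102 : ℕ → ℕ → ℕ → ℕ → Bool := onCell 536870912 536870912 0 536870912 587336777 62277027
    (rowB 3 eng mog cd0q1 cd3q0 pd2 0 true true true .npp 1 0 2 (qsf 536870912 536870912 0 536870912 2) ndB0q1 ndB3q0 pcB2 Cut.none Ext.none)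

def k0_pp_102 : ∃ t, chk3 f_pp_102 t 1 1 1 = true :=
  ⟨(l 5), by decide +kernel⟩

theorem c_pp_102 : CertB 536870912 536870912 0 536870912 587336777 62277027 3 eng mog cd0q1 cd3q0 pd2 true true true .npp 1 0 2
    ndB0q1 ndB3q0 pcB2 Cut.none Ext.none :=
  certB0 (fam := true) (s1 := true) (s2 := true) (a := 1) (b := 0) (c := 2) (cn := .npp) (n1 := ndB0q1) (n2 := ndB3q0) (pc := pcB2) (cut := Cut.none) (xt := Ext.none) (P1 := 536870912) (W1 := 536870912) (P2 := 0) (W2 := 536870912) (P3 := 587336777) (W3 := 62277027) (N0 := 3) (En := eng) (mo := mog) (C1 := cd0q1) (C2 := cd3q0) (C3 := pd2)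
    rfl k0_pp_102

noncomputable def f_pp_112 : ℕ → ℕ → ℕ → ℕ → Bool := onCell 536870912 536870912 536870912 536870912 587336777 62277027
    (rowB 3 eng mog cd0q1 cd3q1 pd2 0 true true true .dn 1 1 2 (qsf 536870912 536870912 536870912 536870912 2) ndB0q1 ndB3q1 pcB2 Cut.none Ext.none)

def k0_pp_112 : ∃ t, chk3 f_pp_112 t 1 1 1 = true :=
  ⟨(l 4), by decide +kernel⟩

theorem c_pp_112 : CertB 536870912 536870912 536870912 536870912 587336777 62277027 3 eng mog cd0q1 cd3q1 pd2 true true true .dn 1 1 2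
    ndB0q1 ndB3q1 pcB2 Cut.none Ext.none :=
  certB0 (fam := true) (s1 := true) (s2 := true) (a := 1) (b := 1) (c := 2) (cn := .dn) (n1 := ndB0q1) (n2 := ndB3q1) (pc := pcB2) (cut := Cut.none) (xt := Ext.none) (P1 := 536870912) (W1 := 536870912) (P2 := 536870912) (W2 := 536870912) (P3 := 587336777) (W3 := 62277027) (N0 := 3) (En := eng) (mo := mog) (C1 := cd0q1) (C2 := cd3q1) (C3 := pd2)
    rfl k0_pp_112

noncomputable def f_pp_113 : ℕ → ℕ → ℕ → ℕ → Bool := onCell 536870912 536870912 536870912 536870912 587336777 62277027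
    (rowB 3 eng mog cd0q1 cd3q1 pd3 0 true true true .nn 1 1 3 (qsf 536870912 536870912 536870912 536870912 3) ndB0q1 ndB3q1 pcB3 Cut.none Ext.none)

def k0_pp_113 : ∃ t, chk3 f_pp_113 t 1 1 1 = true :=
  ⟨(l 4), by decide +kernel⟩

theorem c_pp_113 : CertB 536870912 536870912 536870912 536870912 587336777 62277027 3 eng mog cd0q1 cd3q1 pd3 true true true .nn 1 1 3
    ndB0q1 ndB3q1 pcB3 Cut.none Ext.none :=
  certB0 (fam := true) (s1 := true) (s2 := true) (a := 1) (b := 1) (c := 3) (cn := .nn) (n1 := ndB0q1) (n2 := ndB3q1) (pc := pcB3) (cut := Cut.none) (xt := Ext.none) (P1 := 536870912) (W1 := 536870912) (P2 := 536870912) (W2 := 536870912) (P3 := 587336777) (W3 := 62277027) (N0 := 3) (En := eng) (mo := mog) (C1 := cd0q1) (C2 := cd3q1) (C3 := pd3)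
    rfl k0_pp_113

noncomputable def f_pp_123_a : ℕ → ℕ → ℕ → ℕ → Bool := onCell 536870912 536870912 0 536870912 587336777 62277027
    (rowB 3 eng mog cd0q1 cd3q2a pd3 0 true true true .npn 1 2 3 (qsf 536870912 536870912 0 536870912 3) ndB0q1 ndB3q2a pcB3 Cut.none Ext.none)

def k0_pp_123_a : ∃ t, chk3 f_pp_123_a t 1 1 1 = true :=
  ⟨(l 4), by decide +kernel⟩

theorem c_pp_123_a : CertB 536870912 536870912 0 536870912 587336777 62277027 3 eng mog cd0q1 cd3q2a pd3 true true true .npn 1 2 3
    ndB0q1 ndB3q2a pcB3 Cut.none Ext.none :=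
  certB0 (fam := true) (s1 := true) (s2 := true) (a := 1) (b := 2) (c := 3) (cn := .npn) (n1 := ndB0q1) (n2 := ndB3q2a) (pc := pcB3) (cut := Cut.none) (xt := Ext.none) (P1 := 536870912) (W1 := 536870912) (P2 := 0) (W2 := 536870912) (P3 := 587336777) (W3 := 62277027) (N0 := 3) (En := eng) (mo := mog) (C1 := cd0q1) (C2 := cd3q2a) (C3 := pd3)
    rfl k0_pp_123_a

noncomputable def f_pp_123_b : ℕ → ℕ → ℕ → ℕ → Bool := onCell 536870912 536870912 1239849684 370763052 587336777 62277027
    (rowB 3 eng mog cd0q1 cd3q2b pd3 0 true true true .npn 1 2 3 (qsf 536870912 536870912 1239849684 370763052 3) ndB0q1 ndB3q2b pcB3 Cut.none Ext.none)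

def k0_pp_123_b : ∃ t, chk3 f_pp_123_b t 1 1 1 = true :=
  ⟨(a (l 4) (l 4)), by decide +kernel⟩

theorem c_pp_123_b : CertB 536870912 536870912 1239849684 370763052 587336777 62277027 3 eng mog cd0q1 cd3q2b pd3 true true true .npn 1 2 3
    ndB0q1 ndB3q2b pcB3 Cut.none Ext.none :=
  certB0 (fam := true) (s1 := true) (s2 := true) (a := 1) (b := 2) (c := 3) (cn := .npn) (n1 := ndB0q1) (n2 := ndB3q2b) (pc := pcB3) (cut := Cut.none) (xt := Ext.none) (P1 := 536870912) (W1 := 536870912) (P2 := 1239849684) (W2 := 370763052) (P3 := 587336777) (W3 := 62277027) (N0 := 3) (En := eng) (mo := mog) (C1 := cd0q1) (C2 := cd3q2b) (C3 := pd3)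
    rfl k0_pp_123_b

noncomputable def f_pp_133 : ℕ → ℕ → ℕ → ℕ → Bool := onCell 536870912 536870912 1610612736 536870912 587336777 62277027
    (rowB 3 eng mog cd0q1 cd3q3 pd3 0 true true true .dn 1 3 3 (qsf 536870912 536870912 1610612736 536870912 3) ndB0q1 ndB3q3 pcB3 Cut.none Ext.none)

def k0_pp_133 : ∃ t, chk3 f_pp_133 t 1 1 1 = true :=
  ⟨(l 4), by decide +kernel⟩

theorem c_pp_133 : CertB 536870912 536870912 1610612736 536870912 587336777 62277027 3 eng mog cd0q1 cd3q3 pd3 true true true .dn 1 3 3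
    ndB0q1 ndB3q3 pcB3 Cut.none Ext.none :=
  certB0 (fam := true) (s1 := true) (s2 := true) (a := 1) (b := 3) (c := 3) (cn := .dn) (n1 := ndB0q1) (n2 := ndB3q3) (pc := pcB3) (cut := Cut.none) (xt := Ext.none) (P1 := 536870912) (W1 := 536870912) (P2 := 1610612736) (W2 := 536870912) (P3 := 587336777) (W3 := 62277027) (N0 := 3) (En := eng) (mo := mog) (C1 := cd0q1) (C2 := cd3q3) (C3 := pd3)
    rfl k0_pp_133

noncomputable def f_pp_202 : ℕ → ℕ → ℕ → ℕ → Bool := onCell 0 536870912 0 536870912 587336777 62277027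
    (rowB 3 eng mog cd0q2 cd3q0 pd2 0 true true true .pp 2 0 2 (qsf 0 536870912 0 536870912 2) ndB0q2 ndB3q0 pcB2 Cut.none Ext.none)

def k0_pp_202 : ∃ t, chk3 f_pp_202 t 1 1 1 = true :=
  ⟨(l 5), by decide +kernel⟩

theorem c_pp_202 : CertB 0 536870912 0 536870912 587336777 62277027 3 eng mog cd0q2 cd3q0 pd2 true true true .pp 2 0 2
    ndB0q2 ndB3q0 pcB2 Cut.none Ext.none :=
  certB0 (fam := true) (s1 := true) (s2 := true) (a := 2) (b := 0) (c := 2) (cn := .pp) (n1 := ndB0q2) (n2 := ndB3q0) (pc := pcB2) (cut := Cut.none) (xt := Ext.none) (P1 := 0) (W1 := 536870912) (P2 := 0) (W2 := 536870912) (P3 := 587336777) (W3 := 62277027) (N0 := 3) (En := eng) (mo := mog) (C1 := cd0q2) (C2 := cd3q0) (C3 := pd2)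
    rfl k0_pp_202

noncomputable def f_pp_203 : ℕ → ℕ → ℕ → ℕ → Bool := onCell 0 536870912 0 536870912 587336777 62277027
    (rowB 3 eng mog cd0q2 cd3q0 pd3 0 true true true .up 2 0 3 (qsf 0 536870912 0 536870912 3) ndB0q2 ndB3q0 pcB3 Cut.none Ext.none)

def k0_pp_203 : ∃ t, chk3 f_pp_203 t 1 1 1 = true :=
  ⟨(l 5), by decide +kernel⟩

theorem c_pp_203 : CertB 0 536870912 0 536870912 587336777 62277027 3 eng mog cd0q2 cd3q0 pd3 true true true .up 2 0 3
    ndB0q2 ndB3q0 pcB3 Cut.none Ext.none :=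
  certB0 (fam := true) (s1 := true) (s2 := true) (a := 2) (b := 0) (c := 3) (cn := .up) (n1 := ndB0q2) (n2 := ndB3q0) (pc := pcB3) (cut := Cut.none) (xt := Ext.none) (P1 := 0) (W1 := 536870912) (P2 := 0) (W2 := 536870912) (P3 := 587336777) (W3 := 62277027) (N0 := 3) (En := eng) (mo := mog) (C1 := cd0q2) (C2 := cd3q0) (C3 := pd3)
    rfl k0_pp_203

noncomputable def f_pp_213 : ℕ → ℕ → ℕ → ℕ → Bool := onCell 0 536870912 536870912 536870912 587336777 62277027
    (rowB 3 eng mog cd0q2 cd3q1 pd3 0 true true true .pnn 2 1 3 (qsf 0 536870912 536870912 536870912 3) ndB0q2 ndB3q1 pcB3 Cut.none Ext.none)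

def k0_pp_213 : ∃ t, chk3 f_pp_213 t 1 1 1 = true :=
  ⟨(l 4), by decide +kernel⟩

theorem c_pp_213 : CertB 0 536870912 536870912 536870912 587336777 62277027 3 eng mog cd0q2 cd3q1 pd3 true true true .pnn 2 1 3
    ndB0q2 ndB3q1 pcB3 Cut.none Ext.none :=
  certB0 (fam := true) (s1 := true) (s2 := true) (a := 2) (b := 1) (c := 3) (cn := .pnn) (n1 := ndB0q2) (n2 := ndB3q1) (pc := pcB3) (cut := Cut.none) (xt := Ext.none) (P1 := 0) (W1 := 536870912) (P2 := 536870912) (W2 := 536870912) (P3 := 587336777) (W3 := 62277027) (N0 := 3) (En := eng) (mo := mog) (C1 := cd0q2) (C2 := cd3q1) (C3 := pd3)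
    rfl k0_pp_213

noncomputable def f_pm_001 : ℕ → ℕ → ℕ → ℕ → Bool := onCell 0 536870912 0 536870912 587336777 62277027
    (rowB 3 eng mog cd0q0 cd3q0 pd1 0 true true false .up 0 0 1 (qsf 0 536870912 0 536870912 1) ndB0q0 ndB3q0 pcB1 Cut.none Ext.none)

def k0_pm_001 : ∃ t, chk3 f_pm_001 t 1 1 1 = true :=
  ⟨(l 3), by decide +kernel⟩

theorem c_pm_001 : CertB 0 536870912 0 536870912 587336777 62277027 3 eng mog cd0q0 cd3q0 pd1 true true false .up 0 0 1
    ndB0q0 ndB3q0 pcB1 Cut.none Ext.none :=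
  certB0 (fam := true) (s1 := true) (s2 := false) (a := 0) (b := 0) (c := 1) (cn := .up) (n1 := ndB0q0) (n2 := ndB3q0) (pc := pcB1) (cut := Cut.none) (xt := Ext.none) (P1 := 0) (W1 := 536870912) (P2 := 0) (W2 := 536870912) (P3 := 587336777) (W3 := 62277027) (N0 := 3) (En := eng) (mo := mog) (C1 := cd0q0) (C2 := cd3q0) (C3 := pd1)
    rfl k0_pm_001

noncomputable def f_pm_011 : ℕ → ℕ → ℕ → ℕ → Bool := onCell 0 536870912 536870912 536870912 587336777 62277027
    (rowB 3 eng mog cd0q0 cd3q1 pd1 1 true true false .pnn 0 1 1 (qsf 0 536870912 536870912 536870912 1) ndB0q0 ndB3q1 pcB1 Cut.none Ext.none)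

def k0_pm_011 : ∃ t, chk3 f_pm_011 t 1 1 1 = true :=
  ⟨(l 3), by decide +kernel⟩

theorem c_pm_011 : CertB 0 536870912 536870912 536870912 587336777 62277027 3 eng mog cd0q0 cd3q1 pd1 true true false .pnn 0 1 1
    ndB0q0 ndB3q1 pcB1 Cut.none Ext.none :=
  certB1 (fam := true) (s1 := true) (s2 := false) (a := 0) (b := 1) (c := 1) (cn := .pnn) (n1 := ndB0q0) (n2 := ndB3q1) (pc := pcB1) (cut := Cut.none) (xt := Ext.none) (P1 := 0) (W1 := 536870912) (P2 := 536870912) (W2 := 536870912) (P3 := 587336777) (W3 := 62277027) (N0 := 3) (En := eng) (mo := mog) (C1 := cd0q0) (C2 := cd3q1) (C3 := pd1)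
    rfl (fun _ => rfl) k0_pm_011

noncomputable def f_pm_012 : ℕ → ℕ → ℕ → ℕ → Bool := onCell 0 536870912 1073741824 536870912 587336777 62277027
    (rowB 3 eng mog cd0q0 cd3q1 pd2 1 true true false .pnp 0 1 2 (qsf 0 536870912 536870912 536870912 2) ndB0q0 ndB3q1 pcB2 Cut.none Ext.none)

def k0_pm_012 : ∃ t, chk3 f_pm_012 t 1 4 1 = true :=
  ⟨(a (b (l 3) (a (b (l 3) (a (l 2) (l 3))) (l 3))) (l 3)), by decide +kernel⟩

def k1_pm_012 : ∃ t, chk3 f_pm_012 t 2 5 1 = true :=
  ⟨(a (b (b (b (a (l 2) (a (l 2) (l 3))) (l 2)) (l 2)) (l 2)) (b (b (b (l 3) (b (l 3) (b (a (a (b (l 16530504) (l 16526920)) (b (l 3) (l 16534160))) (l 3)) (a (b (a (b (l 16524224) (l 16522416)) (c (l 16571896) (l 16573184))) (a (l 16519712) (l 16527000))) (a (b (a (l 16557200) (l 3)) (l 16534960)) (b (l 3) (l 16544920))))))) (a (a (a (l 2) (l 16491256)) (l 16565192)) (a (l 16527880) (l 16561184)))) (a (a (l 2) (b (l 16482096) (l 2))) (a (b (a (l 16448152) (l 16455200)) (l 16500704)) (b (l 16467648) (a (l 16408352)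 (l 16418696))))))), by decide +kernel⟩

def k2_pm_012 : ∃ t, chk3 f_pm_012 t 3 40 1 = true :=
  ⟨(a (l 3) (a (l 3) (b (l 3) (a (b (l 3) (c (a (l 16615824) (l 16615112)) (a (l 16606664) (l 16606272)))) (b (a (l 16608120) (l 16606296)) (a (l 16609728) (l 16608552))))))), by decide +kernel⟩

def k3_pm_012 : ∃ t, chk3 f_pm_012 t 3 82 1 = true :=
  ⟨(a (a (l 3) (b (l 3) (a (l 3) (b (l 3) (a (l 3) (l 16597824)))))) (a (b (a (l 3) (b (a (l 3) (l 146733236663)) (a (l 121500301463) (l 122037172439)))) (a (b (a (l 3) (l 82845589671)) (a (c (l 16607440) (l 16595424)) (c (l 16610392) (l 16598384)))) (b (a (c (l 16613216) (l 16601880)) (l 16608832)) (a (l 16606528) (l 16607696))))) (b (a (b (a (l 16610552) (l 16610856)) (a (l 16610256) (l 16610400))) (b (a (l 16610544) (l 16608936)) (a (l 16609488) (l 16607328)))) (a (b (a (l 16609408) (l 16609128)) (a (l 16608104) (l 16607560))) (l 16606632))))), by decide +kernel⟩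

def k4_pm_012 : ∃ t, chk3 f_pm_012 t 3 83 1 = true :=
  ⟨(a (b (a (l 3) (b (a (l 3) (a (l 109689123623) (c (l 16602240) (l 16590008)))) (b (a (l 16625160) (a (l 16590304) (l 16594816))) (a (a (l 16579208) (l 16584440)) (a (l 16589408) (l 16593944)))))) (a (b (b (a (l 3) (l 16570352)) (a (c (l 16582480) (l 16575584)) (b (l 16569400) (l 16568856)))) (a (l 16555984) (a (l 16564648) (l 16570448)))) (b (b (a (a (l 16578192) (l 16583456)) (a (l 16588456) (l 16593160))) (b (a (l 16580152) (l 16590488)) (a (l 16600760) (l 16590560)))) (b (b (b (a (l 16579728) (l 16590816)) (a (l 16601104) (a (l 16588728) (l 16593992)))) (a (l 16580120) (l 16591496))) (a (l 16579392) (l 16590912)))))) (b (a (b (a (a (c (l 16606184) (l 16593752)) (c (l 16609280) (l 16596848))) (a (l 16626120) (l 16606176))) (a (b (a (l 16598736) (l 16601808)) (l 16599592)) (l 16604584))) (a (b (l 16606816) (l 16606672)) (b (l 16606584) (l 16608160)))) (a (b (b (a (l 16599176) (l 16604520)) (a (l 16599384) (l 16605400)))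 (b (b (b (a (l 16599936) (l 16606424)) (b (a (l 16600408) (l 16607336)) (a (a (l 16598840) (l 16602928)) (a (c (l 16613952) (l 16599360)) (l 16610440))))) (a (l 16600992) (l 16609032))) (a (l 16600552) (l 16608712)))) (b (b (a (l 16607664) (l 16610776)) (a (l 16609592) (l 16614528))) (b (b (b (a (l 16612136) (l 16617888)) (a (b (l 16613816) (l 16615616)) (c (l 16629856) (l 16613304)))) (a (l 16616160) (l 16622760))) (a (l 16615984) (l 16622728))))))), by decide +kernel⟩

def k5_pm_012 : ∃ t, chk3 f_pm_012 t 3 21 1 = true :=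
  ⟨(a (a (a (l 16575104) (a (l 16544072) (l 16551536))) (a (b (l 16571032) (l 16554208)) (b (l 16584064) (l 16570024)))) (a (a (b (l 16595400) (l 16584376)) (b (l 16604856) (l 16596520))) (a (l 16611192) (l 16620928)))), by decide +kernel⟩

def k6_pm_012 : ∃ t, chk3 f_pm_012 t 3 11 1 = true :=
  ⟨(a (a (a (b (l 16486488) (l 16436200)) (b (l 16506704) (l 16461488))) (a (b (l 16527088) (l 16487472)) (b (l 16547056) (l 16513072)))) (a (a (b (l 16565568) (l 16537072)) (b (l 16581864) (l 16558528))) (a (l 16588512) (l 16606144)))), by decide +kernel⟩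

def k7_pm_012 : ∃ t, chk3 f_pm_012 t 1 3 1 = true :=
  ⟨(a (b (a (l 2) (b (a (l 2) (a (l 2) (b (l 16358728) (l 2)))) (l 2))) (l 2)) (a (b (a (b (a (b (l 16488248) (l 16329736)) (b (l 16412896) (l 16361680))) (a (l 2) (b (l 16309264) (l 2)))) (b (a (b (l 16444256) (l 16397712)) (l 16497856)) (a (b (l 16348296) (l 16297208)) (b (l 16390592) (l 16343184))))) (b (a (l 2) (a (l 2) (b (l 16293464) (l 2)))) (l 2))) (b (a (b (a (l 16488720) (l 16518144)) (a (l 16412192) (l 16453760))) (b (a (l 16545696) (l 16572912)) (a (l 16492664) (l 16530824)))) (a (b (a (l 16321880) (l 16374840)) (a (l 2) (l 16323112))) (b (a (l 16427232) (l 16521856)) (a (l 16343864) (l 16516872))))))), by decide +kernel⟩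

theorem s8_pm_012 : ∃ t, chk3 f_pm_012 t 3 41 1 = true := ex3_b k3_pm_012 k4_pm_012

theorem s9_pm_012 : ∃ t, chk3 f_pm_012 t 3 20 1 = true := ex3_b k2_pm_012 s8_pm_012

theorem s10_pm_012 : ∃ t, chk3 f_pm_012 t 3 10 1 = true := ex3_b s9_pm_012 k5_pm_012

theorem s11_pm_012 : ∃ t, chk3 f_pm_012 t 3 5 1 = true := ex3_b s10_pm_012 k6_pm_012

theorem s12_pm_012 : ∃ t, chk3 f_pm_012 t 1 5 1 = true := ex3_a k1_pm_012 s11_pm_012

theorem s13_pm_012 : ∃ t, chk3 f_pm_012 t 1 2 1 = true := ex3_b k0_pm_012 s12_pm_012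

theorem s14_pm_012 : ∃ t, chk3 f_pm_012 t 1 1 1 = true := ex3_b s13_pm_012 k7_pm_012

theorem c_pm_012 : CertB 0 536870912 536870912 536870912 587336777 62277027 3 eng mog cd0q0 cd3q1 pd2 true true false .pnp 0 1 2
    ndB0q0 ndB3q1 pcB2 Cut.none Ext.none :=
  certB1 (fam := true) (s1 := true) (s2 := false) (a := 0) (b := 1) (c := 2) (cn := .pnp) (n1 := ndB0q0) (n2 := ndB3q1) (pc := pcB2) (cut := Cut.none) (xt := Ext.none) (P1 := 0) (W1 := 536870912) (P2 := 536870912) (W2 := 536870912) (P3 := 587336777) (W3 := 62277027) (N0 := 3) (En := eng) (mo := mog) (C1 := cd0q0) (C2 := cd3q1) (C3 := pd2)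
    rfl (fun _ => rfl) s14_pm_012

noncomputable def cut_pm_022_a : Cut := Cut.of [[⟨0, 0, 0, 67108864⟩, ⟨1, 1, 0, 67108864⟩, ⟨2, 1, 0, 67108864⟩]]

noncomputable def xt_pm_022_a : Ext := extD2 3 ⟨7, 3, 3, 10, 1815, 1000, 17, 20, 37, 100, 3, 16⟩ eng cd0q0 cd3q2a pd2 true true false .pp 0 2 2 rfl ndB0q0 ndB3q2a pcB2

noncomputable def f_pm_022_a : ℕ → ℕ → ℕ → ℕ → Bool := onCell 1073741824 536870912 0 536870912 587336777 62277027
    (rowB 3 eng mog cd0q0 cd3q2a pd2 2 true true false .pp 0 2 2 (qsf 0 536870912 0 536870912 2) ndB0q0 ndB3q2a pcB2 cut_pm_022_a xt_pm_022_a)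

def k0_pm_022_a : ∃ t, chk3 f_pm_022_a t 8 1 1 = true :=
  ⟨(b (l 1) (b (l 1) (b (a (l 1) (a (b (l 1) (l 6)) (b (a (l 1) (b (l 1) (b (l 16650728) (a (l 6) (l 16645432))))) (a (l 6) (a (l 6) (b (l 16654624) (l 16666720))))))) (a (l 6) (a (l 6) (a (l 6) (a (l 6) (b (b (l 16678648) (l 16690288)) (b (l 16720944) (b (l 16704824) (c (l 16708928) (l 16706968)))))))))))), by decide +kernel⟩

def k1_pm_022_a : ∃ t, chk3 f_pm_022_a t 9 2 1 = true :=
  ⟨(b (l 1) (a (l 1) (b (l 1) (a (l 1) (b (l 1) (a (l 1) (l 16514112))))))), by decide +kernel⟩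

def k2_pm_022_a : ∃ t, chk3 f_pm_022_a t 9 6 1 = true :=
  ⟨(b (a (l 1) (a (b (a (l 1) (l 16533264)) (a (b (l 1) (l 16558992)) (b (l 16547200) (l 16556728)))) (b (a (l 16531944) (l 16530368)) (a (l 16549792) (l 16547336))))) (a (a (b (l 1) (a (l 1) (b (l 16599448) (l 16621632)))) (b (a (b (l 1) (l 16585088)) (b (l 16571584) (l 16582264))) (a (b (l 16596320) (l 16607464)) (b (l 16592952) (l 16603568))))) (a (b (a (b (l 16569072) (l 16579232)) (l 16571240)) (a (l 16594552) (l 16590568))) (b (a (l 16568048) (l 16564704)) (a (l 16586448) (l 16582216)))))), by decide +kernel⟩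

def k3_pm_022_a : ∃ t, chk3 f_pm_022_a t 9 7 1 = true :=
  ⟨(b (a (b (a (b (a (a (l 16627824) (l 16625848)) (l 16633280)) (a (b (l 16635944) (l 16641952)) (l 16634352))) (b (a (l 16618560) (l 16614136)) (a (l 16629568) (l 16624624)))) (a (b (a (l 16650832) (l 16645664)) (a (l 16662520) (l 16656824))) (b (a (l 16640368) (l 16634944)) (a (l 16651024) (l 16645112))))) (b (a (b (l 16607240) (l 16616992)) (b (l 16597632) (l 16606464))) (a (b (l 16605640) (l 16636088)) (b (l 16615184) (l 16623712))))) (b (b (a (a (a (b (l 16671152) (l 16676856)) (l 16667816)) (l 16668784)) (a (l 16645336) (l 16631024))) (a (a (c (l 16682280) (l 16681296)) (l 16688248)) (a (a (l 16655768) (l 16648288)) (c (l 16680256) (l 16636712))))) (a (b (a (b (l 16709104) (a (l 16695472) (l 16687320))) (b (c (l 16672728) (l 16671896)) (a (l 16679256) (l 16671320)))) (b (a (a (l 16698624) (l 16690392)) (a (l 16682248) (l 16674240))) (a (b (a (l 16700872) (l 16692584)) (a (c (l 16703624) (l 16701184)) (c (l 16695504)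 (l 16692664)))) (a (b (l 16684384) (a (l 16693040) (l 16694192))) (c (a (l 16680800) (l 16676904)) (l 16675344)))))) (b (a (a (a (l 16663968) (l 16660096)) (l 16654392)) (a (l 16646888) (l 16639520))) (a (b (a (l 16666320) (l 16658552)) (a (c (a (l 16673032) (l 16674432)) (l 16667104)) (c (a (l 16675872) (l 16661624)) (l 16659016)))) (b (a (l 16650928) (l 16664400)) (c (a (a (l 16657888) (l 16654184)) (b (l 16647984) (a (l 16651192) (l 16647536)))) (a (l 16651056) (l 16643224))))))))), by decide +kernel⟩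

def k4_pm_022_a : ∃ t, chk3 f_pm_022_a t 5 2 1 = true :=
  ⟨(a (a (b (a (l 1) (a (b (l 1) (b (l 1) (l 16466168))) (a (b (l 1) (l 16463576)) (b (b (l 16453704) (a (l 16455872) (l 16456176))) (a (l 16463880) (b (l 16460648) (l 16467088))))))) (a (b (b (l 16474136) (a (l 1) (l 16485624))) (b (a (l 16498648) (l 16498184)) (a (l 16513136) (l 16511936)))) (a (b (b (l 16475040) (l 16485560)) (b (l 16497472) (l 16510528))) (a (b (b (l 16475248) (l 16485344)) (b (l 16496800) (l 16509376))) (a (b (l 16480464) (b (l 16496432) (l 16508760))) (b (b (l 16475304) (l 16485080)) (b (l 16496168) (l 16508352)))))))) (b (b (a (b (l 16455400) (l 16457304)) (l 16458872)) (a (b (l 16461400) (l 16467440)) (l 16465568))) (b (a (b (l 16475176) (l 16484408)) (l 16479352)) (a (b (l 16494904) (l 16506440)) (l 16519232))))) (b (a (b (a (l 16462096) (l 16465992)) (b (l 16466136) (l 16470408))) (b (b (l 16489064) (l 16472296)) (b (l 16473000) (l 16475608)))) (a (b (b (l 16476104) (l 16483024)) (b (l 16490952)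 (l 16499656))) (b (l 16503384) (b (l 16490472) (l 16496800)))))), by decide +kernel⟩

def k5_pm_022_a : ∃ t, chk3 f_pm_022_a t 5 6 1 = true :=
  ⟨(a (a (a (b (b (a (l 16528584) (l 16526608)) (a (l 16544704) (l 16541936))) (b (l 16580408) (a (l 16577888) (l 16573504)))) (a (b (b (l 16524480) (l 16539056)) (b (l 16554008) (l 16569056))) (b (b (a (l 16522808) (a (l 16521944) (l 16521360))) (a (l 16536840) (a (l 16535712) (l 16534960)))) (a (b (l 16551248) (l 16565688)) (a (b (l 16549848) (l 16564000)) (b (l 16548912) (l 16583840))))))) (b (b (a (l 16518768) (l 16514312)) (a (l 16531632) (l 16525856))) (a (b (l 16544784) (l 16536888)) (b (l 16537600) (l 16549080))))) (b (a (b (l 16508936) (l 16518408)) (b (l 16503408) (l 16509960))) (a (b (l 16527880) (l 16515896)) (b (l 16516184) (l 16521520))))), by decide +kernel⟩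

def k6_pm_022_a : ∃ t, chk3 f_pm_022_a t 20 7 1 = true :=
  ⟨(a (b (b (a (l 16594416) (l 16589152)) (l 16628304)) (b (b (l 16617224) (a (l 16626680) (l 16619736))) (b (a (l 16632280) (l 16646136)) (c (b (a (l 16638696) (l 16631624)) (a (c (b (l 16642328) (l 16643760)) (l 16639872)) (a (l 16646544) (l 16632488)))) (a (b (l 16633656) (l 16635520)) (a (l 16628960) (l 16635720))))))) (b (b (a (l 16583840) (a (l 16579824) (a (l 16577808) (l 16576464)))) (a (l 16597968) (a (l 16593248) (a (l 16590896) (l 16610320))))) (a (b (b (l 16607184) (l 16612912)) (b (c (l 16620496) (l 16616000)) (c (b (l 16624592) (a (l 16628928) (l 16635848))) (b (l 16618856) (a (l 16622344) (l 16618672)))))) (b (a (b (l 16602256) (l 16607856)) (a (b (l 16599808) (l 16605336)) (b (l 16598152) (a (a (a (l 16604384) (l 16625144)) (l 16603848)) (l 16603216))))) (a (b (c (l 16615296) (l 16610736)) (c (b (l 16619272) (a (l 16622656) (l 16620824))) (b (l 16613480) (a (l 16615952) (b (l 16613792) (l 16614528))))))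 (a (b (c (l 16612568) (l 16608216)) (b (c (l 16616472) (l 16610912)) (c (a (l 16619408) (b (l 16617816) (l 16624216))) (a (l 16612856) (a (l 16612224) (l 16611816)))))) (b (a (a (a (l 16609384) (a (l 16609224) (l 16609112))) (l 16608832)) (l 16608184)) (b (a (a (a (l 16612688) (a (l 16612512) (c (l 16614896) (l 16609840)))) (l 16612120)) (l 16611448)) (c (a (a (a (l 16617736) (a (l 16617496) (a (a (l 16617368) (b (l 16616712) (l 16617856))) (l 16617256)))) (l 16617008)) (l 16616352)) (a (a (a (l 16611528) (a (l 16616656) (a (a (l 16611376) (b (l 16611016) (c (l 16613296) (l 16610136)))) (l 16611336)))) (l 16611080)) (l 16610376))))))))))), by decide +kernel⟩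

def k7_pm_022_a : ∃ t, chk3 f_pm_022_a t 21 7 1 = true :=
  ⟨(b (a (b (l 16570488) (l 16582304)) (b (l 16559968) (l 16570024))) (b (b (a (l 16590832) (l 16578016)) (a (c (l 16597648) (l 16594640)) (l 16582896))) (a (b (a (l 16604272) (l 16618424)) (a (b (l 16607456) (b (l 16619384) (c (l 16613000) (c (l 16608168) (l 16604864))))) (b (c (l 16603456) (l 16597520)) (c (a (l 16607344) (b (l 16603456) (l 16614984))) (a (l 16600688) (a (l 16597952) (l 16596152))))))) (b (b (l 16586208) (l 16588224)) (b (c (l 16593200) (l 16586960)) (c (a (l 16598752) (l 16591832)) (a (l 16591696) (l 16584584)))))))), by decide +kernel⟩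

def k8_pm_022_a : ∃ t, chk3 f_pm_022_a t 11 7 1 = true :=
  ⟨(b (a (b (l 16545000) (l 16572728)) (a (l 16595472) (l 16584248))) (b (a (a (b (l 16565280) (l 16569832)) (l 16618160)) (a (l 16606304) (l 16595216))) (b (a (a (l 16573856) (l 16560920)) (a (l 16548608) (l 16536968))) (a (b (a (l 16597352) (l 16563200)) (a (c (a (l 16585040) (l 16578400)) (l 16574024)) (c (l 16579224) (l 16560280)))) (a (b (l 16550600) (c (l 16556448) (l 16547024))) (b (l 16538696) (c (l 16555432) (l 16534384)))))))), by decide +kernel⟩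

def k9_pm_022_a : ∃ t, chk3 f_pm_022_a t 3 2 1 = true :=
  ⟨(a (a (b (b (a (b (l 16484888) (l 16482656)) (b (l 16497464) (l 16494088))) (a (b (l 16481848) (l 16482464)) (b (l 16491800) (l 16490648)))) (b (a (l 16486616) (l 16491792)) (a (l 16514656) (l 16494248)))) (b (a (b (a (l 16505248) (b (l 16515144) (l 16510352))) (a (l 16498760) (l 16504880))) (b (a (l 16523192) (l 16533464)) (l 16517816))) (a (b (a (l 16495768) (l 16499504)) (l 16495024)) (b (l 16508704) (l 16500200))))) (a (b (a (b (l 16548672) (l 16535136)) (b (l 16568248) (l 16551760))) (b (a (l 16521352) (l 16533712)) (a (l 16505768) (l 16510088)))) (b (b (a (l 16586656) (l 16603672)) (l 16658544)) (b (a (l 16545256) (l 16555296)) (a (l 16514080) (l 16517280)))))), by decide +kernel⟩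

def k10_pm_022_a : ∃ t, chk3 f_pm_022_a t 6 3 1 = true :=
  ⟨(b (a (b (a (b (l 16499064) (l 16502408)) (b (l 16495184) (l 16494952))) (a (b (l 16505000) (l 16506048)) (l 16492056))) (b (a (l 16552256) (l 16486576)) (a (l 16497080) (l 16462824)))) (a (b (a (b (l 16504888) (l 16530720)) (b (l 16485472) (l 16493256))) (b (a (b (l 16536352) (l 16581384)) (a (l 16503248) (l 16494880))) (a (b (a (l 16526128) (l 16515968)) (b (a (l 16527584) (l 16517144)) (a (c (a (l 16536904) (l 16531816)) (l 16522448)) (c (a (b (l 16526624) (l 16527120)) (l 16521736)) (l 16511184))))) (b (a (l 16506168) (l 16497000)) (b (a (l 16506968) (l 16497392)) (a (c (a (l 16516672) (l 16511752)) (l 16510840)) (a (c (l 16506984) (l 16492640)) (c (l 16512848) (l 16487680))))))))) (b (a (b (l 16473576) (l 16542496)) (b (l 16460088) (l 16485360))) (b (a (a (l 16487200) (l 16479336)) (a (l 16470536) (l 16461952))) (a (a (b (l 16488472) (b (l 16488432) (c (b (l 16495656) (a (l 16497912) (l 16504016))) (a (l 16482864)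 (l 16478200))))) (b (l 16500776) (a (b (l 16481840) (a (c (a (l 16490896) (l 16489712)) (l 16474760)) (c (l 16487768) (l 16472232)))) (b (l 16476872) (b (l 16476408) (c (c (l 16487664) (l 16479936)) (l 16468080))))))) (a (b (l 16470304) (b (c (l 16476584) (l 16462240)) (b (c (l 16476344) (l 16461256)) (c (a (c (l 16482472) (l 16474832)) (a (l 16485336) (l 16482792))) (a (l 16463024) (l 16458032)))))) (b (l 16461040) (a (b (l 16462256) (b (l 16482480) (c (c (b (l 16472248) (l 16472120)) (l 16464752)) (l 16453088)))) (b (l 16457472) (c (c (a (l 16468488) (l 16465936)) (l 16460008)) (l 16469616))))))))))), by decide +kernel⟩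

def k11_pm_022_a : ∃ t, chk3 f_pm_022_a t 7 6 1 = true :=
  ⟨(a (a (b (l 16483048) (l 16447000)) (b (l 16476400) (l 16459728))) (b (a (l 16468560) (l 16460312)) (a (l 16457120) (l 16472784)))), by decide +kernel⟩

def k12_pm_022_a : ∃ t, chk3 f_pm_022_a t 14 14 1 = true :=
  ⟨(b (a (l 16449680) (l 16445872)) (a (l 16515728) (l 16469040))), by decide +kernel⟩

def k13_pm_022_a : ∃ t, chk3 f_pm_022_a t 14 15 1 = true :=
  ⟨(b (a (a (l 16496744) (b (l 16451696) (l 16451024))) (b (l 16447800) (a (l 16448104) (l 16444960)))) (c (a (b (a (l 16459480) (l 16456664)) (a (a (b (l 16459672) (b (l 16459040) (c (a (l 16463152) (l 141049852089286671)) (l 16454864)))) (b (l 16457552) (c (l 141038994410356751) (a (l 16458440) (c (l 140982781866115087) (l 16450368)))))) (b (c (l 141022089417228303) (l 16451560)) (a (b (c (l 141023876123525135) (l 16451392)) (c (l 141018034966953999) (b (c (l 140966495347326991) (l 16448768)) (l 140945948218769423)))) (c (b (l 141004634667614223) (c (l 141017553932451855)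 (l 140979552053084175))) (l 140930486334177295)))))) (b (a (b (l 16454544) (l 16453768)) (a (l 16452176) (l 140896538915389455))) (b (a (a (l 140956531024314383) (l 140932891521335311)) (c (a (l 140943199449268239) (l 140915574216982543)) (l 141037138952650767))) (a (c (a (b (l 140983400346828815) (c (b (l 140997900160073743) (l 141016935454523407)) (l 140957218220277775))) (b (l 140959554685747215) (c (b (l 140974191938142223) (a (l 140976665839288335) (l 140963884015288335))) (l 140931998169219087)))) (a (l 140907465305899023) (l 140881351900889103))) (a (c (b (l 140932822806429711) (c (c (a (l 140963196822077455) (l 140950071400841231)) (l 140935571586711567)) (l 140905128850751503))) (l 140853657947979791)) (c (b (c (l 140925882141982735) (l 140885062762201103)) (c (a (b (l 140928012445450255) (c (a (l 140938870125117455) (b (l 140933166408253455) (l 140931173543165967))) (l 140913581352058895))) (b (l 140913650073911311) (c (l 140920453304369167) (l 140898806663659535))))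 (a (l 140884375566663695) (l 140869944475402255)))) (b (l 140829262531051535) (l 140820054119350287)))))))) (a (b (a (l 16446632) (l 16442056)) (b (a (l 16444280) (l 16439376)) (a (a (l 16454392) (b (l 16441424) (l 16440352))) (c (b (l 16442104) (a (a (l 16442760) (l 16441640)) (c (l 140877847200481295) (l 16437680)))) (a (l 16434088) (l 16431424)))))) (a (b (l 16437792) (a (b (l 16435904) (b (l 16434160) (c (l 140838470931054607) (l 16428032)))) (b (l 16433536) (c (l 140816824292261903) (a (l 16426704) (l 16425304)))))) (b (l 16433216) (b (c (l 140794559179522063) (l 16424776)) (c (a (l 140788580582588431) (l 140759099922481167)) (b (l 16422640) (l 140712782974255119))))))))), by decide +kernel⟩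

def k14_pm_022_a : ∃ t, chk3 f_pm_022_a t 15 7 1 = true :=
  ⟨(b (a (b (l 16442408) (l 16505576)) (b (l 16435944) (a (l 16437928) (l 16434512)))) (b (a (b (l 16483312) (a (l 16441288) (l 16437704))) (b (l 16456088) (a (l 16435184) (b (l 16433912) (l 16433744))))) (a (a (b (c (b (l 16448928) (a (l 16448568) (l 140828094309842959))) (l 16428736)) (c (c (b (a (l 140885131486461967) (l 140852283575091215)) (b (a (l 140874823563591695) (l 140843006444716047)) (a (c (c (b (l 140900318497292303) (a (l 140904510385209359) (l 140888704905199631))) (l 140877366186131471)) (l 140847129607716879)) (c (a (c (l 140874617412452367) (l 140854139002372111)) (l 140848641447165967)) (l 140816961756217359))))) (b (l 140976734526029839) (a (l 140795452544663567) (l 140766178045313039)))) (b (c (l 140734635787288591) (l 16419736)) (c (l 140715806646321167) (l 140659594090659855))))) (b (c (b (l 16446632) (c (l 140809814938042383) (l 16440520))) (l 16424632)) (c (b (c (a (l 140818885908660239) (l 140785625681985551))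 (l 140734910683463695)) (c (a (c (b (l 140830430786387983) (c (l 140835309872218127) (l 140815656095416335))) (l 140790023721238543)) (c (b (l 140798407511113743) (l 140794834098389007)) (l 140760062029660175))) (a (l 140737109705097231) (l 140708453682495503)))) (b (l 140828094257168399) (a (l 140643994776027151) (l 140615888507256847)))))) (a (c (a (b (l 140908015058173967) (b (l 140900181037285391) (c (c (l 140765834481156111) (l 140730512655826959)) (l 140680141258063887)))) (b (l 140872349649928207) (c (b (l 140719861145550863) (c (l 140736078950793231) (l 140701994075193359))) (l 140836134471598095)))) (b (l 16421744) (b (l 140859292894560271) (a (l 140587988397522959) (l 140741438987747343))))) (c (b (b (l 16446520) (l 140865958741180431)) (b (a (l 140838814547771407) (l 140720410892730383)) (a (c (l 140691548726149135) (l 140627639580901391)) (c (l 140666672280862735) (l 140605305754501135))))) (b (l 140771744283099151) (b (l 140760336846487567) (a (l 140716837414797327)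 (l 140695671817043983))))))))), by decide +kernel⟩

theorem s15_pm_022_a : ∃ t, chk3 f_pm_022_a t 14 7 1 = true := ex3_b k12_pm_022_a k13_pm_022_a

theorem s16_pm_022_a : ∃ t, chk3 f_pm_022_a t 7 7 1 = true := ex3_a s15_pm_022_a k14_pm_022_a

theorem s17_pm_022_a : ∃ t, chk3 f_pm_022_a t 7 3 1 = true := ex3_b k11_pm_022_a s16_pm_022_a

theorem s18_pm_022_a : ∃ t, chk3 f_pm_022_a t 3 3 1 = true := ex3_a k10_pm_022_a s17_pm_022_a

theorem s19_pm_022_a : ∃ t, chk3 f_pm_022_a t 3 1 1 = true := ex3_b k9_pm_022_a s18_pm_022_a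

theorem s20_pm_022_a : ∃ t, chk3 f_pm_022_a t 10 7 1 = true := ex3_a k6_pm_022_a k7_pm_022_a

theorem s21_pm_022_a : ∃ t, chk3 f_pm_022_a t 5 7 1 = true := ex3_a s20_pm_022_a k8_pm_022_a

theorem s22_pm_022_a : ∃ t, chk3 f_pm_022_a t 5 3 1 = true := ex3_b k5_pm_022_a s21_pm_022_a

theorem s23_pm_022_a : ∃ t, chk3 f_pm_022_a t 5 1 1 = true := ex3_b k4_pm_022_a s22_pm_022_a

theorem s24_pm_022_a : ∃ t, chk3 f_pm_022_a t 9 3 1 = true := ex3_b k2_pm_022_a k3_pm_022_a

theorem s25_pm_022_a : ∃ t, chk3 f_pm_022_a t 9 1 1 = true := ex3_b k1_pm_022_a s24_pm_022_a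

theorem s26_pm_022_a : ∃ t, chk3 f_pm_022_a t 4 1 1 = true := ex3_a k0_pm_022_a s25_pm_022_a

theorem s27_pm_022_a : ∃ t, chk3 f_pm_022_a t 2 1 1 = true := ex3_a s26_pm_022_a s23_pm_022_a

theorem s28_pm_022_a : ∃ t, chk3 f_pm_022_a t 1 1 1 = true := ex3_a s27_pm_022_a s19_pm_022_a

theorem c_pm_022_a : CertB 0 536870912 0 536870912 587336777 62277027 3 eng mog cd0q0 cd3q2a pd2 true true false .pp 0 2 2
    ndB0q0 ndB3q2a pcB2 cut_pm_022_a xt_pm_022_a :=
  certB2 (fam := true) (s1 := true) (s2 := false) (a := 0) (b := 2) (c := 2) (cn := .pp) (n1 := ndB0q0) (n2 := ndB3q2a) (pc := pcB2) (cut := cut_pm_022_a) (xt := xt_pm_022_a) (P1 := 0) (W1 := 536870912) (P2 := 0) (W2 := 536870912) (P3 := 587336777) (W3 := 62277027) (N0 := 3) (En := eng) (mo := mog) (C1 := cd0q0) (C2 := cd3q2a) (C3 := pd2)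
    rfl (fun _ => rfl) s28_pm_022_a

noncomputable def cut_pm_022_b : Cut := Cut.of [[⟨0, 0, 0, 67108864⟩, ⟨1, 1, 0, 67108864⟩, ⟨2, 1, 0, 67108864⟩]]

noncomputable def f_pm_022_b : ℕ → ℕ → ℕ → ℕ → Bool := onCell 0 536870912 1239849684 370763052 587336777 62277027
    (rowB 3 eng mog cd0q0 cd3q2b pd2 0 true true false .pp 0 2 2 (qsf 0 536870912 1239849684 370763052 2) ndB0q0 ndB3q2b pcB2 cut_pm_022_b Ext.none)

def k0_pm_022_b : ∃ t, chk3 f_pm_022_b t 1 1 1 = true :=
  ⟨(a (b (a (b (a (a (b (b (a (b (a (l 16444016) (l 16445672)) (l 16446496)) (l 16439560)) (a (l 16398760) (l 16406096))) (a (l 16352152) (l 16363120))) (a (b (l 16449760) (l 16374232)) (b (l 16456720) (l 16385552)))) (b (a (b (a (l 16456752) (l 16463520)) (l 16434888)) (b (a (l 16470616) (l 16477984)) (l 16453176))) (b (a (l 16412848) (a (l 16429296) (l 16441120))) (a (l 16393848) (a (l 16414416) (l 16430696)))))) (a (b (a (b (l 16321232) (l 16301240)) (b (l 16349320) (l 16375576))) (a (b (l 16284480) (l 16273632))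 (b (l 16324312) (l 16322352)))) (b (a (b (a (l 16370976) (l 16387712)) (l 16371856)) (l 16414680)) (a (l 16370688) (l 16417544))))) (b (a (b (a (b (a (l 16485536) (b (l 16497672) (l 16488904))) (a (b (l 16471608) (l 16463456)) (b (l 16481528) (l 16475976)))) (b (a (b (a (l 16503072) (l 16507040)) (l 16498648)) (b (l 16514696) (l 16510640))) (l 16498824))) (a (b (a (l 16454880) (l 16470280)) (l 16456816)) (l 16492056))) (b (a (b (a (l 16524480) (l 16536336)) (l 16526320)) (b (l 16553792) (l 16553048))) (a (l 16524256) (l 16555112)))) (a (b (a (l 16454440) (l 16492904)) (l 16483608)) (b (l 16547344) (l 16563536))))) (a (b (a (a (b (l 16271976) (l 16288920)) (b (l 16328640) (l 16350904))) (b (l 16408496) (l 16435832))) (a (b (l 16355056) (l 16402248)) (b (l 16474288) (l 2)))) (b (a (b (l 16504488) (l 16535240)) (l 2)) (l 2)))) (b (a (b (a (b (a (l 16577160) (l 16599552)) (l 16597600)) (b (a (l 16620120) (l 16638784)) (l 2))) (a (b (l 16611960) (l 2)) (l 2))) (l 2)) (l 2))), by decide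 +kernel⟩

theorem c_pm_022_b : CertB 0 536870912 1239849684 370763052 587336777 62277027 3 eng mog cd0q0 cd3q2b pd2 true true false .pp 0 2 2
    ndB0q0 ndB3q2b pcB2 cut_pm_022_b Ext.none :=
  certB0 (fam := true) (s1 := true) (s2 := false) (a := 0) (b := 2) (c := 2) (cn := .pp) (n1 := ndB0q0) (n2 := ndB3q2b) (pc := pcB2) (cut := cut_pm_022_b) (xt := Ext.none) (P1 := 0) (W1 := 536870912) (P2 := 1239849684) (W2 := 370763052) (P3 := 587336777) (W3 := 62277027) (N0 := 3) (En := eng) (mo := mog) (C1 := cd0q0) (C2 := cd3q2b) (C3 := pd2)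
    rfl k0_pm_022_b

noncomputable def xt_pm_023_a : Ext := extD2 3 ⟨7, 3, 3, 10, 1815, 1000, 17, 20, 37, 100, 3, 16⟩ eng cd0q0 cd3q2a pd3 true true false .up 0 2 3 rfl ndB0q0 ndB3q2a pcB3

noncomputable def f_pm_023_a : ℕ → ℕ → ℕ → ℕ → Bool := onCell 1610612736 536870912 0 536870912 587336777 62277027
    (rowB 3 eng mog cd0q0 cd3q2a pd3 2 true true false .up 0 2 3 (qsf 0 536870912 0 536870912 3) ndB0q0 ndB3q2a pcB3 Cut.none xt_pm_023_a)

def k0_pm_023_a : ∃ t, chk3 f_pm_023_a t 2 2 1 = true :=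
  ⟨(a (a (a (b (a (a (b (l 16623624) (l 16603800)) (l 16668688)) (a (l 16590040) (l 16567776))) (a (b (l 16719736) (a (l 16545848) (l 16519464))) (b (l 16513296) (l 16588464)))) (b (l 16561664) (b (l 16516584) (l 16521856)))) (a (b (l 16555072) (b (l 16532072) (l 16530112))) (b (l 16597000) (b (l 16571648) (l 16561104))))) (a (b (a (l 16658272) (l 16683264)) (a (b (l 16620616) (l 16612424)) (l 2))) (l 2))), by decide +kernel⟩

def k1_pm_023_a : ∃ t, chk3 f_pm_023_a t 2 3 1 = true :=
  ⟨(b (a (a (a (a (b (l 16569984) (b (l 16484024) (l 16580424))) (a (b (l 16473328) (l 16506648)) (b (l 16516352) (l 16519664)))) (b (l 16527040) (b (l 16528632) (l 16531280)))) (a (b (l 16536232) (l 16546456)) (b (l 16562976) (l 159551021703)))) (l 2)) (a (a (a (b (a (a (b (l 16491968) (l 16545680)) (b (l 16459368) (l 16572488))) (b (a (l 16491952) (l 16521888)) (a (l 16517920) (c (l 16538696) (l 16509968))))) (b (a (c (a (b (l 16470872) (l 141467185507041295)) (b (l 16494256) (l 141290026741874703)))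 (a (b (l 16429392) (l 16433880)) (b (l 16454872) (l 16499912)))) (a (b (b (l 16500448) (l 16523032)) (c (l 141492336931897359) (l 141195399989755919))) (a (c (l 201426825399) (l 210553608919)) (l 205184905575)))) (a (a (b (b (c (l 141318407852146703) (l 140753877254717455)) (c (c (l 141266868279984143) (l 141058029737541647)) (l 141132521576824847))) (b (c (c (c (l 141344590032158735) (l 141236700425814031)) (l 141261164519079951)) (c (l 140884925332471823) (l 140701719158849551))) (b (c (c (c (a (l 141329952782090255) (l 141396129657700367)) (l 141254979814146063)) (c (l 141150320023273487) (l 141048615170605071))) (c (l 141081600480083983) (l 140715463057981455))) (a (c (a (c (c (b (l 141323905467662351) (c (b (l 141357371862433807) (a (c (b (l 141366717713825807) (l 141368435701481487)) (l 141338886318604303)) (l 2))) (l 141302464986398735))) (l 141215603544506383)) (l 141054112731725839)) (b (c (l 141390975671894031) (l 141088884795736079)) (l 2))) (c (l 141050882867363855)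 (l 140680553556246543))) (l 2))))) (b (c (c (l 141594110466342927) (l 141229003837014031)) (c (l 141053562965426191) (l 140887399225163791))) (a (b (c (c (l 141401008739614735) (l 141208456712978447)) (l 140935983912517647)) (l 2)) (l 2)))) (a (b (b (c (l 141504156691546127) (l 141197530297204751)) (l 2)) (l 2)) (l 2))))) (b (b (l 16534688) (a (l 16534288) (l 16545896))) (b (a (l 210553604663) (l 2)) (l 2)))) (a (b (b (l 16557680) (l 2)) (l 2)) (l 2))) (l 2))), by decide +kernel⟩

def k2_pm_023_a : ∃ t, chk3 f_pm_023_a t 3 1 1 = true :=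
  ⟨(l 2), by decide +kernel⟩

theorem s3_pm_023_a : ∃ t, chk3 f_pm_023_a t 2 1 1 = true := ex3_b k0_pm_023_a k1_pm_023_a

theorem s4_pm_023_a : ∃ t, chk3 f_pm_023_a t 1 1 1 = true := ex3_a s3_pm_023_a k2_pm_023_a

theorem c_pm_023_a : CertB 0 536870912 0 536870912 587336777 62277027 3 eng mog cd0q0 cd3q2a pd3 true true false .up 0 2 3
    ndB0q0 ndB3q2a pcB3 Cut.none xt_pm_023_a :=
  certB2 (fam := true) (s1 := true) (s2 := false) (a := 0) (b := 2) (c := 3) (cn := .up) (n1 := ndB0q0) (n2 := ndB3q2a) (pc := pcB3) (cut := Cut.none) (xt := xt_pm_023_a) (P1 := 0) (W1 := 536870912) (P2 := 0) (W2 := 536870912) (P3 := 587336777) (W3 := 62277027) (N0 := 3) (En := eng) (mo := mog) (C1 := cd0q0) (C2 := cd3q2a) (C3 := pd3)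
    rfl (fun _ => rfl) s4_pm_023_a

noncomputable def f_pm_023_b : ℕ → ℕ → ℕ → ℕ → Bool := onCell 1610612736 536870912 1239849684 370763052 587336777 62277027
    (rowB 3 eng mog cd0q0 cd3q2b pd3 2 true true false .up 0 2 3 (qsf 0 536870912 1239849684 370763052 3) ndB0q0 ndB3q2b pcB3 Cut.none Ext.none)

def k0_pm_023_b : ∃ t, chk3 f_pm_023_b t 1 1 1 = true :=
  ⟨(b (b (a (a (a (a (a (b (a (l 16627136) (l 16624240)) (l 16607128)) (b (l 16614656) (l 16602776))) (b (l 16613376) (l 16611104))) (b (a (l 16618960) (l 16622728)) (a (l 16627104) (l 16641288)))) (a (b (a (l 16644392) (l 16680696)) (a (l 16650936) (l 16662896))) (b (a (l 16707736) (l 2)) (a (l 16689736) (l 16712336))))) (l 2)) (a (a (a (a (b (l 16579392) (l 16546808)) (l 16577728)) (b (l 16625576) (l 16604504))) (a (b (a (l 16654264) (l 16671744)) (l 16654680)) (b (a (l 16693504) (l 16717792)) (l 16707592)))) (a (a (a (l 16950784) (l 16756344)) (a (l 65062049911) (l 2))) (l 2)))) (a (a (a (b (a (b (l 16511824) (l 16475744))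 (l 16510424)) (a (l 16441168) (l 16436352))) (b (a (l 16544304) (l 16577792)) (a (l 16474288) (l 16513928)))) (a (b (a (l 16608896) (l 16642992)) (a (l 16552680) (l 16597160))) (b (b (l 16701664) (l 16694112)) (a (l 16643800) (l 16688816))))) (a (a (b (a (l 16745920) (l 16788304)) (a (l 16728296) (l 16764800))) (b (a (b (l 16770672) (l 4)) (l 4)) (l 4))) (l 4)))), by decide +kernel⟩

theorem c_pm_023_b : CertB 0 536870912 1239849684 370763052 587336777 62277027 3 eng mog cd0q0 cd3q2b pd3 true true false .up 0 2 3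
    ndB0q0 ndB3q2b pcB3 Cut.none Ext.none :=
  certB2 (fam := true) (s1 := true) (s2 := false) (a := 0) (b := 2) (c := 3) (cn := .up) (n1 := ndB0q0) (n2 := ndB3q2b) (pc := pcB3) (cut := Cut.none) (xt := Ext.none) (P1 := 0) (W1 := 536870912) (P2 := 1239849684) (W2 := 370763052) (P3 := 587336777) (W3 := 62277027) (N0 := 3) (En := eng) (mo := mog) (C1 := cd0q0) (C2 := cd3q2b) (C3 := pd3)
    rfl (fun _ => rfl) k0_pm_023_b

noncomputable def f_pm_033 : ℕ → ℕ → ℕ → ℕ → Bool := onCell 1610612736 536870912 1610612736 536870912 587336777 62277027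
    (rowB 3 eng mog cd0q0 cd3q3 pd3 2 true true false .pnn 0 3 3 (qsf 0 536870912 1610612736 536870912 3) ndB0q0 ndB3q3 pcB3 Cut.none Ext.none)

def k0_pm_033 : ∃ t, chk3 f_pm_033 t 1 1 1 = true :=
  ⟨(a (a (b (a (b (a (b (l 16277320) (l 1)) (b (l 16293336) (l 16202584))) (l 1)) (b (b (l 16352744) (l 16298360)) (b (l 347387772327) (l 1)))) (l 1)) (b (b (a (b (l 16465688) (l 16420544)) (b (l 16574320) (a (l 16504160) (l 16554552)))) (a (b (l 16377064) (l 379064041959)) (a (l 16697016) (l 16706536)))) (a (l 1) (a (l 1) (a (l 1) (l 4)))))) (a (b (b (a (a (b (l 16642312) (l 16598840)) (l 4)) (l 4)) (l 4)) (l 4)) (l 4))), by decide +kernel⟩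

theorem c_pm_033 : CertB 0 536870912 1610612736 536870912 587336777 62277027 3 eng mog cd0q0 cd3q3 pd3 true true false .pnn 0 3 3
    ndB0q0 ndB3q3 pcB3 Cut.none Ext.none :=
  certB2 (fam := true) (s1 := true) (s2 := false) (a := 0) (b := 3) (c := 3) (cn := .pnn) (n1 := ndB0q0) (n2 := ndB3q3) (pc := pcB3) (cut := Cut.none) (xt := Ext.none) (P1 := 0) (W1 := 536870912) (P2 := 1610612736) (W2 := 536870912) (P3 := 587336777) (W3 := 62277027) (N0 := 3) (En := eng) (mo := mog) (C1 := cd0q0) (C2 := cd3q3) (C3 := pd3)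
    rfl (fun _ => rfl) k0_pm_033

noncomputable def cut_pm_101 : Cut := Cut.of [[⟨0, 1, 0, 67108864⟩, ⟨1, 0, 0, 67108864⟩, ⟨2, 1, 0, 67108864⟩]]

noncomputable def f_pm_101 : ℕ → ℕ → ℕ → ℕ → Bool := onCell 536870912 536870912 0 536870912 587336777 62277027
    (rowB 3 eng mog cd0q1 cd3q0 pd1 2 true true false .npn 1 0 1 (qsf 536870912 536870912 0 536870912 1) ndB0q1 ndB3q0 pcB1 cut_pm_101 Ext.none)

def k0_pm_101 : ∃ t, chk3 f_pm_101 t 1 1 1 = true :=
  ⟨(a (l 3) (b (a (l 3) (b (a (l 3) (b (a (l 3) (a (l 3) (b (l 6) (l 3)))) (l 3))) (l 3))) (l 3))), by decide +kernel⟩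

theorem c_pm_101 : CertB 536870912 536870912 0 536870912 587336777 62277027 3 eng mog cd0q1 cd3q0 pd1 true true false .npn 1 0 1
    ndB0q1 ndB3q0 pcB1 cut_pm_101 Ext.none :=
  certB2 (fam := true) (s1 := true) (s2 := false) (a := 1) (b := 0) (c := 1) (cn := .npn) (n1 := ndB0q1) (n2 := ndB3q0) (pc := pcB1) (cut := cut_pm_101) (xt := Ext.none) (P1 := 536870912) (W1 := 536870912) (P2 := 0) (W2 := 536870912) (P3 := 587336777) (W3 := 62277027) (N0 := 3) (En := eng) (mo := mog) (C1 := cd0q1) (C2 := cd3q0) (C3 := pd1)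
    rfl (fun _ => rfl) k0_pm_101

noncomputable def cut_pm_102 : Cut := Cut.of [[⟨0, 1, 0, 67108864⟩, ⟨1, 0, 0, 67108864⟩, ⟨2, 1, 0, 67108864⟩]]

noncomputable def f_pm_102 : ℕ → ℕ → ℕ → ℕ → Bool := onCell 536870912 536870912 1073741824 536870912 587336777 62277027
    (rowB 3 eng mog cd0q1 cd3q0 pd2 1 true true false .npp 1 0 2 (qsf 536870912 536870912 0 536870912 2) ndB0q1 ndB3q0 pcB2 cut_pm_102 Ext.none)

def k0_pm_102 : ∃ t, chk3 f_pm_102 t 2 4 1 = true :=
  ⟨(b (l 3) (a (b (l 3) (a (l 2) (b (l 3) (a (l 2) (b (b (l 16707896) (l 34997085655)) (b (l 44660779431) (l 74725549383))))))) (b (a (l 3) (b (l 3) (b (a (l 3) (a (l 3) (l 337859685751))) (a (l 103246932599) (a (b (l 16780512) (l 16773416)) (b (l 16782368) (l 16775160))))))) (b (a (b (a (l 3) (l 16723488)) (a (a (l 16719464) (l 16723152)) (a (l 16707456) (l 16734160)))) (a (b (b (b (l 16760928) (l 16757664)) (l 16773368)) (a (l 16760792) (l 16745416))) (b (b (l 16809056) (l 16760632)) (b (l 16753880) (l 16747224))))) (a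 (a (b (b (l 16712104) (a (l 16704416) (l 16708056))) (b (a (l 16698440) (l 16702232)) (l 16694336))) (b (a (l 16694872) (l 16721760)) (a (l 16703800) (l 16709472)))) (a (b (a (l 16727184) (l 16732384)) (a (l 16715216) (l 16720528))) (b (a (l 16736752) (l 16738912)) (l 16726200)))))))), by decide +kernel⟩

def k1_pm_102 : ∃ t, chk3 f_pm_102 t 6 8 1 = true :=
  ⟨(b (l 3) (a (l 3) (b (a (l 3) (b (l 3) (a (l 3) (l 182167109559)))) (a (b (l 3) (a (l 269140193655) (b (l 229411781367) (a (l 16802688) (l 16797680))))) (b (a (b (l 3) (a (l 16808528) (l 16803232))) (b (a (l 16805896) (b (l 16802432) (l 16798640))) (a (l 16797944) (l 16793016)))) (a (b (a (l 16800304) (l 16795184)) (l 16853088)) (b (l 16852120) (l 16781616)))))))), by decide +kernel⟩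

def k2_pm_102 : ∃ t, chk3 f_pm_102 t 7 8 1 = true :=
  ⟨(a (b (b (l 3) (a (l 3) (b (l 3) (a (b (l 3) (l 172503416407)) (a (b (l 153712939687) (b (l 102173328759) (l 16816528))) (b (b (l 16819584) (l 102710189639)) (b (l 16813112) (l 16789784)))))))) (b (a (a (b (l 3) (b (l 159081678823) (a (b (l 16805248) (l 16801384)) (l 123111329079)))) (b (b (l 3) (a (l 153176099623) (b (l 16805200) (l 16801464)))) (b (a (l 126869419399) (l 16816752)) (a (l 16813968) (l 16789360))))) (b (a (a (b (b (l 16805848) (l 93046538903)) (b (l 16820440) (l 16796048))) (b (b (l 98415238135) (l 16816688)) (l 16812944))) (a (b (b (l 16813104) (l 16789992)) (l 16785128)) (l 16802848))) (a (b (l 16830408) (l 16802576)) (l 16773424)))) (a (b (a (b (a (l 16837624) (l 16791304)) (l 16807592)) (l 16822488)) (a (b (l 16799848) (l 16772896)) (l 16767136))) (b (a (l 16772088) (l 16762648)) (l 16777176))))) (b (a (b (a (l 3) (a (a (l 3) (l 6)) (l 6))) (a (b (b (a (l 3) (l 163913439639)) (a (b (l 154249790695) (l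 100562701255)) (b (l 104857659351) (a (l 16790504) (l 16787896))))) (b (a (b (l 16813160) (a (l 16790600) (l 16787952))) (l 16805768)) (a (l 16805784) (l 16778960)))) (b (b (a (a (a (l 142438620759) (l 107542008023)) (a (l 109152617287) (l 6))) (l 6)) (a (b (c (l 16807632) (a (l 16807296) (l 16783440))) (l 16782880)) (l 16778200))) (b (l 16796368) (l 16769936))))) (b (l 6) (a (b (l 6) (a (l 16767392) (l 6))) (l 6)))) (a (b (a (b (l 16773056) (l 16762736)) (b (l 16784448) (l 16760544))) (a (l 16759096) (l 16748712))) (a (b (a (l 16754984) (l 16747368)) (l 16754464)) (a (b (l 16760320) (l 16721104)) (b (l 6) (l 16712440))))))), by decide +kernel⟩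

def k3_pm_102 : ∃ t, chk3 f_pm_102 t 3 9 1 = true :=
  ⟨(a (b (b (a (a (b (l 3) (a (l 3) (l 250886616935))) (b (a (l 292762493063) (b (l 279340777415) (l 16844744))) (a (b (l 16801608) (l 16794176)) (b (l 16795032) (l 16787912))))) (a (b (a (b (a (l 16803976) (l 16799728)) (l 16794488)) (b (l 16855728) (l 16786672))) (a (b (l 16788072) (l 16781432)) (l 16775968))) (b (a (l 16822720) (l 16770968)) (l 16762912)))) (a (a (b (b (a (l 16795672) (l 16792016)) (a (l 16788328) (l 16784800))) (a (b (l 16781160) (l 16774744)) (b (l 16778504) (l 16771736)))) (b (a (b (l 16786888) (l 16780608)) (b (l 16781624) (l 16774752))) (l 16829928))) (a (b (a (l 16770360) (l 16762768)) (l 16753768)) (l 16786824)))) (b (a (a (b (a (l 16764416) (l 16761288)) (l 16749464)) (b (l 16753856) (l 16741856))) (a (l 16778824) (l 16729256))) (a (a (b (l 16737560) (l 16726952)) (l 16726648)) (a (l 16721928) (l 16729712))))) (a (b (a (b (a (l 16756472) (l 16749840)) (l 16737448)) (b (a (l 16747200) (l 16754144))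 (l 16746344))) (a (b (l 16741656) (l 16738960)) (b (l 16735144) (l 16723848)))) (b (a (a (b (l 16746568) (l 16731848)) (b (l 16732720) (l 16717440))) (a (b (l 16716696) (l 16700968)) (b (l 16699408) (l 16683120)))) (a (a (l 16711072) (l 16696016)) (a (l 16742192) (b (l 16668064) (l 16654240))))))), by decide +kernel⟩

def k4_pm_102 : ∃ t, chk3 f_pm_102 t 1 5 1 = true :=
  ⟨(a (b (a (b (b (a (l 2) (b (a (l 2) (b (l 16685904) (l 2))) (l 2))) (l 2)) (l 2)) (b (b (a (a (b (b (l 16688456) (l 16683256)) (l 16676736)) (b (l 16696032) (l 16687600))) (a (b (l 16707672) (l 16699320)) (b (l 16716384) (l 16708112)))) (b (a (b (l 16677032) (l 16674464)) (l 16718888)) (b (a (l 16672616) (l 16695344)) (a (b (l 16672344) (l 16673704)) (b (l 16695848) (l 16781824)))))) (a (l 16669952) (l 16703912)))) (a (l 2) (a (l 16723616) (l 16739736)))) (a (b (b (b (a (a (l 16714536) (l 16714200)) (a (l 16719616) (l 16738104))) (b (a (l 16709496) (a (l 16733280) (l 16737952))) (b (a (l 16711216) (a (l 16738448)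 (l 16736872))) (a (b (l 16714864) (a (l 16713720) (l 16736200))) (a (b (l 16740920) (l 16742536)) (l 16736272)))))) (a (a (l 16733864) (l 16743400)) (a (l 16740184) (l 16729288)))) (a (a (l 16743136) (l 16736344)) (a (l 16725328) (l 16709944)))) (b (a (a (b (b (l 16732256) (b (l 16726520) (b (l 16723504) (l 16762936)))) (l 16711888)) (b (b (l 16713200) (b (l 16705696) (b (l 16701968) (l 16782704)))) (l 16688944))) (b (b (a (l 16685512) (l 16714072)) (b (a (l 16677488) (l 16642792)) (a (b (l 16673608) (b (l 16671560) (l 16669976))) (b (l 16638888) (b (l 16636944) (l 16635576)))))) (a (b (l 16664976) (l 16656408)) (b (l 16630472) (l 16622064))))) (a (a (l 16689968) (l 16666032)) (a (b (l 16644560) (l 16632296)) (b (l 16610792) (l 16599456))))))), by decide +kernel⟩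

def k5_pm_102 : ∃ t, chk3 f_pm_102 t 1 3 1 = true :=
  ⟨(a (a (l 2) (b (a (l 2) (b (l 16745904) (l 2))) (l 2))) (a (b (b (a (l 16727312) (l 16699440)) (a (l 16715088) (l 16687968))) (a (l 2) (b (l 16696560) (l 2)))) (b (a (b (a (l 16670872) (l 16647760)) (l 16714256)) (b (a (l 16621336) (l 16590552)) (a (l 16616968) (l 16590000)))) (a (b (l 16656672) (l 16686104)) (b (l 16607928) (l 16625248)))))), by decide +kernel⟩

theorem s6_pm_102 : ∃ t, chk3 f_pm_102 t 3 8 1 = true := ex3_a k1_pm_102 k2_pm_102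

theorem s7_pm_102 : ∃ t, chk3 f_pm_102 t 3 4 1 = true := ex3_b s6_pm_102 k3_pm_102

theorem s8_pm_102 : ∃ t, chk3 f_pm_102 t 1 4 1 = true := ex3_a k0_pm_102 s7_pm_102

theorem s9_pm_102 : ∃ t, chk3 f_pm_102 t 1 2 1 = true := ex3_b s8_pm_102 k4_pm_102

theorem s10_pm_102 : ∃ t, chk3 f_pm_102 t 1 1 1 = true := ex3_b s9_pm_102 k5_pm_102

theorem c_pm_102 : CertB 536870912 536870912 0 536870912 587336777 62277027 3 eng mog cd0q1 cd3q0 pd2 true true false .npp 1 0 2
    ndB0q1 ndB3q0 pcB2 cut_pm_102 Ext.none :=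
  certB1 (fam := true) (s1 := true) (s2 := false) (a := 1) (b := 0) (c := 2) (cn := .npp) (n1 := ndB0q1) (n2 := ndB3q0) (pc := pcB2) (cut := cut_pm_102) (xt := Ext.none) (P1 := 536870912) (W1 := 536870912) (P2 := 0) (W2 := 536870912) (P3 := 587336777) (W3 := 62277027) (N0 := 3) (En := eng) (mo := mog) (C1 := cd0q1) (C2 := cd3q0) (C3 := pd2)
    rfl (fun _ => rfl) s10_pm_102

noncomputable def f_pm_112 : ℕ → ℕ → ℕ → ℕ → Bool := onCell 536870912 536870912 1073741824 536870912 587336777 62277027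
    (rowB 3 eng mog cd0q1 cd3q1 pd2 1 true true false .dn 1 1 2 (qsf 536870912 536870912 536870912 536870912 2) ndB0q1 ndB3q1 pcB2 Cut.none Ext.none)

def k0_pm_112 : ∃ t, chk3 f_pm_112 t 1 4 1 = true :=
  ⟨(a (b (l 3) (a (b (l 3) (b (l 3) (a (b (l 3) (a (l 3) (b (l 3) (l 16581400)))) (b (a (l 3) (b (a (l 3) (l 62310245927)) (a (l 16576424) (b (l 16551184) (l 16559000))))) (a (b (a (l 16568744) (l 16567088)) (a (l 16578208) (l 16578120))) (b (a (b (l 16562944) (l 16570208)) (b (l 16566192) (l 16571552))) (a (b (l 16576064) (l 16580104)) (l 16576608)))))))) (b (l 1) (a (a (b (l 1) (b (l 1) (b (l 1) (l 16574984)))) (l 1)) (l 1))))) (l 1)), by decide +kernel⟩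

def k1_pm_112 : ∃ t, chk3 f_pm_112 t 1 5 1 = true :=
  ⟨(a (b (a (b (b (a (b (a (b (l 16593952) (a (l 16600640) (l 16598640))) (b (l 16589264) (b (l 16595432) (l 16597976)))) (a (b (a (l 16604624) (l 16603088)) (a (l 16606712) (l 16604152))) (b (l 16599304) (l 16599984)))) (b (a (b (a (l 16587616) (l 16585416)) (b (l 16590256) (l 16592416))) (b (l 16582512) (l 16586152))) (a (b (l 16593312) (l 16595448)) (b (l 16590088) (l 16596416))))) (b (a (a (b (l 16604616) (l 16604864)) (b (l 16600856) (l 16605120))) (a (b (l 16600592) (l 16608600)) (b (l 16604696) (l 16614592)))) (b (a (a (l 16609592) (l 16613968)) (a (l 16620056) (l 16625096))) (a (b (a (l 16618512) (l 16624936)) (b (b (b (l 16627432) (b (l 16671368) (a (l 16629256) (l 16634472)))) (l 16632336)) (l 16632544))) (b (a (l 16629896) (l 16633352)) (a (l 16637496) (l 16640760))))))) (a (a (l 16631184) (l 16640088)) (l 16649568))) (a (b (b (a (b (a (l 16582800) (l 1)) (l 16597880)) (l 1)) (b (a (b (l 16611360) (l 16620464)) (l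 1)) (b (l 16651336) (b (l 16638528) (a (l 16644928) (l 16649376)))))) (l 16662392)) (b (l 1) (l 297996977943)))) (a (a (a (l 16623640) (l 16640528)) (l 16661840)) (a (l 16685984) (l 16703704)))) (a (b (l 1) (a (l 262563572263) (l 1))) (l 1))), by decide +kernel⟩

def k2_pm_112 : ∃ t, chk3 f_pm_112 t 1 3 1 = true :=
  ⟨(a (a (b (a (b (a (l 16600496) (l 16627272)) (a (b (l 16577240) (l 16560296)) (b (l 16612560) (l 16601464)))) (b (b (l 16662656) (l 16661776)) (a (l 16643232) (l 16675792)))) (a (b (a (b (l 16542080) (l 16521320)) (b (l 16589944) (l 16577832))) (a (a (l 16465448) (l 16501328)) (b (l 16563624) (l 16545960)))) (b (b (a (l 16635840) (l 16678944)) (a (l 16631216) (l 16681232))) (a (b (l 16626608) (l 16620840)) (b (l 16685200) (l 16690240)))))) (b (a (b (l 16699960) (a (l 16703648) (l 16725688))) (b (l 16723584) (l 16746088))) (a (b (a (b (l 16716720) (l 16725504)) (l 16753744)) (a (b (a (l 16724688) (l 16748576)) (a (l 16737704) (l 16765048))) (b (l 16780432) (l 16802720))))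 (b (a (l 16777736) (l 16791752)) (a (l 16829904) (l 16859352)))))) (a (b (a (b (l 16747256) (l 16743776)) (b (l 245920724871) (l 16728928))) (a (b (l 16790576) (a (l 16876936) (l 16880328))) (b (l 16769176) (l 16863888)))) (b (a (b (l 1) (l 242699584807)) (l 1)) (a (b (l 16741784) (l 16813912)) (b (l 236256938071) (l 16764200)))))), by decide +kernel⟩

theorem s3_pm_112 : ∃ t, chk3 f_pm_112 t 1 2 1 = true := ex3_b k0_pm_112 k1_pm_112

theorem s4_pm_112 : ∃ t, chk3 f_pm_112 t 1 1 1 = true := ex3_b s3_pm_112 k2_pm_112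

theorem c_pm_112 : CertB 536870912 536870912 536870912 536870912 587336777 62277027 3 eng mog cd0q1 cd3q1 pd2 true true false .dn 1 1 2
    ndB0q1 ndB3q1 pcB2 Cut.none Ext.none :=
  certB1 (fam := true) (s1 := true) (s2 := false) (a := 1) (b := 1) (c := 2) (cn := .dn) (n1 := ndB0q1) (n2 := ndB3q1) (pc := pcB2) (cut := Cut.none) (xt := Ext.none) (P1 := 536870912) (W1 := 536870912) (P2 := 536870912) (W2 := 536870912) (P3 := 587336777) (W3 := 62277027) (N0 := 3) (En := eng) (mo := mog) (C1 := cd0q1) (C2 := cd3q1) (C3 := pd2)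
    rfl (fun _ => rfl) s4_pm_112

noncomputable def f_pm_113 : ℕ → ℕ → ℕ → ℕ → Bool := onCell 536870912 536870912 1610612736 536870912 587336777 62277027
    (rowB 3 eng mog cd0q1 cd3q1 pd3 1 true true false .nn 1 1 3 (qsf 536870912 536870912 536870912 536870912 3) ndB0q1 ndB3q1 pcB3 Cut.none Ext.none)

def k0_pm_113 : ∃ t, chk3 f_pm_113 t 2 1 1 = true :=
  ⟨(b (b (a (a (a (b (l 16407976) (l 2)) (b (l 16482784) (l 16438936))) (a (b (l 16559032) (l 16531376)) (b (b (l 16637760) (l 16631296)) (l 16610080)))) (a (b (a (b (l 16707360) (l 16694120)) (b (l 16758280) (l 16743680))) (a (l 16652544) (l 16701816))) (b (a (l 16794000) (l 16837352)) (a (l 16783592) (l 16779952))))) (b (a (a (l 2) (a (l 2) (l 16584568))) (a (a (l 16647056) (l 16695552)) (a (l 16733912) (l 16768544)))) (a (l 2) (a (a (l 2) (l 16671680)) (a (l 16812600) (l 16739760)))))) (a (l 2) (b (b (a (l 2) (a (l 2) (l 16716224))) (l 2)) (l 2)))), by decide +kernel⟩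

def k1_pm_113 : ∃ t, chk3 f_pm_113 t 3 1 1 = true :=
  ⟨(b (b (a (b (a (b (a (a (l 16887056) (l 16917152)) (l 16925240)) (l 16839752)) (b (b (l 16969800) (l 17021704)) (l 17029536))) (b (a (a (l 16855248) (l 16905608)) (l 16998192)) (a (a (l 16835112) (l 16882320)) (l 16968432)))) (b (a (b (l 16946776) (l 17081784)) (b (b (l 16796760) (l 16919752)) (l 17012824))) (b (a (l 17157320) (l 17101952)) (a (l 17111008) (l 17104736))))) (a (b (a (a (a (l 16796824) (l 16817696)) (l 16828720)) (b (l 16895880) (l 16907368))) (a (a (l 16773616) (l 16810160)) (a (l 16847832) (l 16888016)))) (b (a (b (l 17063032) (l 17013504)) (b (l 17114696) (l 17109960))) (a (l 16951176) (l 17023160))))) (a (b (b (a (a (l 16746624) (l 16778848)) (a (l 16810768) (l 16843056))) (a (a (l 2) (l 16753064)) (l 16795920))) (b (a (l 2) (a (l 2) (l 16778080))) (l 2))) (a (b (b (b (l 16901984) (l 16876984)) (b (l 16854072) (l 16832944))) (b (b (l 16811568) (a (l 16786384) (l 16800688))) (b (a (l 2) (l 16903888)) (l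 2)))) (b (b (l 16938256) (b (l 16888712) (l 16861888))) (b (b (l 16832712) (l 16802888)) (b (l 20502277943) (b (l 16747360) (l 4)))))))), by decide +kernel⟩

theorem s2_pm_113 : ∃ t, chk3 f_pm_113 t 1 1 1 = true := ex3_a k0_pm_113 k1_pm_113

theorem c_pm_113 : CertB 536870912 536870912 536870912 536870912 587336777 62277027 3 eng mog cd0q1 cd3q1 pd3 true true false .nn 1 1 3
    ndB0q1 ndB3q1 pcB3 Cut.none Ext.none :=
  certB1 (fam := true) (s1 := true) (s2 := false) (a := 1) (b := 1) (c := 3) (cn := .nn) (n1 := ndB0q1) (n2 := ndB3q1) (pc := pcB3) (cut := Cut.none) (xt := Ext.none) (P1 := 536870912) (W1 := 536870912) (P2 := 536870912) (W2 := 536870912) (P3 := 587336777) (W3 := 62277027) (N0 := 3) (En := eng) (mo := mog) (C1 := cd0q1) (C2 := cd3q1) (C3 := pd3)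
    rfl (fun _ => rfl) s2_pm_113

noncomputable def cut_pm_123_a : Cut := Cut.of [[⟨0, 1, 0, 67108864⟩, ⟨1, 1, 0, 67108864⟩, ⟨2, 2, 0, 16777216⟩], [⟨0, 0, 1, 20971520⟩, ⟨1, 1, 0, 29360128⟩, ⟨2, 1, 1, 20971520⟩]]

noncomputable def xt_pm_123_a : Ext := extD2 3 ⟨7, 3, 3, 10, 1815, 1000, 17, 20, 37, 100, 3, 16⟩ eng cd0q1 cd3q2a pd3 true true false .npn 1 2 3 rfl ndB0q1 ndB3q2a pcB3

noncomputable def f_pm_123_a : ℕ → ℕ → ℕ → ℕ → Bool := onCell 1610612736 536870912 0 536870912 587336777 62277027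
    (rowB 3 eng mog cd0q1 cd3q2a pd3 2 true true false .npn 1 2 3 (qsf 536870912 536870912 0 536870912 3) ndB0q1 ndB3q2a pcB3 cut_pm_123_a xt_pm_123_a)

def k0_pm_123_a : ∃ t, chk3 f_pm_123_a t 4 2 1 = true :=
  ⟨(a (l 1) (a (l 1) (b (l 1) (b (l 1) (l 16560984))))), by decide +kernel⟩

def k1_pm_123_a : ∃ t, chk3 f_pm_123_a t 8 6 1 = true :=
  ⟨(l 1), by decide +kernel⟩

def k2_pm_123_a : ∃ t, chk3 f_pm_123_a t 16 14 1 = true :=
  ⟨(l 1), by decide +kernel⟩

def k3_pm_123_a : ∃ t, chk3 f_pm_123_a t 32 15 1 = true :=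
  ⟨(b (l 1) (a (b (l 1) (b (a (l 1) (c (c (l 141326241927954447) (l 141122351186624527)) (l 140838402232877071))) (b (c (c (c (a (l 141329884062613519) (l 141396129657700367)) (l 141254979814129679)) (c (l 141150320023273487) (l 141048546451128335))) (c (l 141081600480083983) (l 140715463057965071))) (a (c (c (c (c (b (l 141367817225388047) (b (l 141372765029892111) (c (b (l 141389326428618767) (a (a (l 141368435701481487) (l 141383416552046607)) (c (l 141413172094369807) (l 141399290756333583)))) (a (l 141346582902325263) (l 141377644115230735))))) (a (l 141299029011136527) (l 141331464613691407))) (c (l 141259996338520079) (l 141205639218036751))) (c (l 141125443567435791) (l 141021264813031439))) (c (l 141050882867347471) (l 140680553556246543))) (c (c (c (b (l 141404925754867727) (b (c (l 141435918248263695) (l 141383072956137487)) (c (c (a (l 141436468004323343) (l 141468216412356623)) (l 141425679044018191)) (l 141386096614506511)))) (c (l 141329265590829071) (l 141277588530151439)))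 (c (l 141201172451065871) (l 141101391743451151))) (c (c (l 141004016218128399) (l 140908908436176911)) (l 140770713530417167))))))) (c (b (c (b (l 141405750376202255) (l 141422243059433487)) (l 141228866398027791)) (b (c (c (l 141487595304517647) (l 141392418802630671)) (a (l 141208456712978447) (l 141298891567497231))) (c (a (b (c (l 141465536349634575) (l 141367061311832079)) (c (b (l 141473301654568975) (c (a (b (l 141485327567061007) (l 141488007628079119)) (l 141520443230666767)) (a (l 141436193127579663) (l 141471652388028431)))) (a (l 141358608815849487) (l 141396610697166863)))) (b (l 141582222028980239) (c (b (l 141544838651133967) (a (a (l 141612527330344975) (l 141540371885129743)) (a (l 141558445112950799) (l 141576793218727951)))) (b (l 141452960683376655) (a (l 141437773675905039) (l 141477356105678863)))))) (a (b (l 141222887809171471) (c (b (l 141278138285178895) (l 141373452201689103)) (l 141365824311558159))) (b (l 141310780042723343) (a (a (l 141286315904434191)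 (l 141308099984277519)) (c (l 141385753015025679) (l 141297104863477775)))))))) (b (c (l 141053425526456335) (l 140887330505654287)) (b (c (l 141073835219140623) (l 140901692881485839)) (b (c (a (l 141037345169883151) (l 141134033497063439)) (l 141180075484676111)) (c (a (c (l 141092320767606799) (l 141000580240146447)) (c (l 141365411991224335) (l 141097131128176655))) (a (l 141046209934622735) (c (l 141009994806231055) (l 140923751837892623)))))))))), by decide +kernel⟩

def k4_pm_123_a : ∃ t, chk3 f_pm_123_a t 33 30 1 = true :=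
  ⟨(a (b (l 1) (c (l 141492268212387855) (l 141195262550769679))) (a (b (l 1) (a (l 16543512) (l 141558101480013839))) (b (l 16531296) (l 16534096)))), by decide +kernel⟩

def k5_pm_123_a : ∃ t, chk3 f_pm_123_a t 33 62 1 = true :=
  ⟨(a (c (c (l 141768245667463183) (l 141430008356503567)) (c (l 141275183329820687) (l 141123175802568719))) (a (c (b (l 141660081224122383) (l 141663517204299791)) (b (l 141388570486030351) (l 141384516038836239))) (b (l 141584008736997391) (l 141583321546407951)))), by decide +kernel⟩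

def k6_pm_123_a : ∃ t, chk3 f_pm_123_a t 66 63 1 = true :=
  ⟨(b (c (c (a (l 141561606201720847) (l 141647574291185679)) (a (l 141393930628120591) (l 141493642614374415))) (c (a (l 141229003834769423) (l 141339229901897743)) (l 141485052570320911))) (c (c (a (b (l 141751959159275535) (a (b (l 141557276879568911) (a (c (l 141595278763507727) (l 141507592683995151)) (c (l 141614039186276367) (l 141528071093846031)))) (b (l 141597409065566223) (c (c (l 141708391043088399) (l 141621735769489423)) (a (l 141548824381669391) (l 141569783827988495)))))) (b (l 141835384627838991) (c (b (l 141698083129802767) (a (b (l 141680490939760655) (c (b (l 141701519107244047) (l 141702275022159887)) (l 141662142834130959))) (a (a (l 141705848434704399) (l 141715812761813007)) (c (l 141749485316390927) (l 141712239347023887))))) (b (l 141620430095187983) (a (a (l 141590949432819727) (l 141612389915607055)) (b (l 141644344480940047) (c (l 141664685453688847) (l 141626546131107855)))))))) (a (b (l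 141403001604472847) (c (b (l 141450074461945871) (a (l 141431382760390671) (l 141475981712785423))) (a (l 141343627961204751) (l 141391250570854415)))) (b (l 141499758652850191) (c (a (a (l 141508692191903759) (l 141531919381266447)) (a (l 141645443963125775) (a (l 141573151078383631) (l 141585108270546959)))) (b (l 141463818356424719) (a (l 141441278363353103) (l 141490962557878287))))))) (c (a (b (l 141235875786276879) (c (a (l 141258072186650639) (l 141308099978166287)) (l 141288858492780559))) (b (l 141342872037539855) (a (a (l 141305763512745999) (l 141332289237270543)) (c (l 141412003852861455) (l 141333320026718223))))) (a (b (l 141070193078255631) (c (l 141114860752355343) (l 141031091685163023))) (b (l 141184336155459599) (a (l 141156298603642895) (l 141348850590810127))))))), by decide +kernel⟩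

def k7_pm_123_a : ∃ t, chk3 f_pm_123_a t 67 126 1 = true :=
  ⟨(a (c (c (l 141737253233410063) (l 141597752648302607)) (c (l 141454609931042831) (l 141307550203723791))) (c (b (l 141716774820249615) (l 141719248725098511)) (l 141444508160819215))), by decide +kernel⟩

def k8_pm_123_a : ∃ t, chk3 f_pm_123_a t 134 127 1 = true :=
  ⟨(c (b (c (a (l 141720279522852879) (l 141764260000546831)) (a (l 141575350096920591) (l 141626546120441871))) (a (c (b (l 141723303183237135) (a (b (l 141714163491471375) (c (c (l 141769757568679951) (l 141733542391529487)) (l 141768726744317967))) (b (l 141735672693932047) (a (c (l 141766940068265999) (l 141695403067375631)) (a (c (l 141774636651954191) (l 141703855565389839)) (b (l 141744537509658639) (b (l 141744949826961423) (c (a (l 141779034700087311) (l 141782058357850127)) (l 141710177759264783))))))))) (b (l 141577549122699279) (a (c (l 141604074851909647) (l 141528964438343695)) (b (l 141591293022633999) (c (b (l 141628470272901135) (a (l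 141622835274645519) (l 141635067344781327))) (l 141555146566041615)))))) (a (a (b (l 141680628371079183) (c (b (l 141751959214637071) (c (b (l 141787899514519567) (b (l 141789273904513039) (l 141790579574882319))) (b (l 141718286659223567) (c (l 141737596839100431) (l 141702275015344143))))) (b (l 141610259603210255) (c (b (l 141647230694981647) (l 141648673804451855)) (l 141575350097231887))))) (b (l 141692585563308047) (c (b (c (l 141797932560302095) (l 141729281777926159)) (c (a (l 141798894633435151) (l 141805766582665231)) (l 141733061350211599))) (b (l 141623591185055759) (l 141716431198978063))))) (a (b (c (l 141772987379171343) (l 141635273498247183)) (c (b (l 141776973110525967) (c (c (l 141833116943040527) (l 141799100789473295)) (l 141747355004616719))) (b (l 141637884839591951) (l 141731343328788495)))) (b (c (l 141782951706017807) (l 141646337336836111)) (c (a (b (l 141787212314869775) (c (a (l 141824870601506831) (l 141827619381198863)) (l 141757731647946767))) (c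 (l 141871874724102159) (l 141758693720883215))) (c (l 141687362878603279) (l 141616100756209679)))))))) (a (b (l 141530888521777167) (c (b (l 141427465735421967) (a (l 141414340313104399) (c (l 141479967432818703) (l 141403894946856975)))) (a (l 141257797294391311) (l 141467735302782991)))) (a (b (l 141395442443714575) (b (l 141394755250061327) (c (b (l 141470277980618767) (c (l 141508829620224015) (l 141433444329046031))) (b (l 141317651972751375) (l 141317583253536783))))) (b (l 141424167191838735) (a (b (l 141417157804802063) (c (l 141493505169260559) (l 141341085319774223))) (b (l 141609572342595599) (c (l 141506149555879951) (l 141353867145379855)))))))), by decide +kernel⟩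

def k9_pm_123_a : ∃ t, chk3 f_pm_123_a t 135 127 1 = true :=
  ⟨(c (b (b (l 141903416925618191) (a (l 141720210800197647) (l 141736222443110415))) (a (b (c (l 141794084264476687) (l 141656782700281871)) (b (l 141912487899561999) (c (c (a (l 141835797001060367) (l 141845967486255119)) (l 141771750424838159)) (l 141665166478573583)))) (b (l 141744812379750415) (b (l 141751340731596815) (c (c (a (l 141901286667681807) (l 141911732030832655)) (l 141791404200296463)) (l 141683239705755663)))))) (b (a (l 141437636213309455) (l 141450280601026575)) (b (c (l 141520786808274959) (l 141369397751103503)) (c (l 141614451456180239) (l 141369947507441679))))), by decide +kernel⟩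

def k10_pm_123_a : ∃ t, chk3 f_pm_123_a t 17 14 1 = true :=
  ⟨(b (l 16534568) (a (l 16534240) (l 16545864))), by decide +kernel⟩

def k11_pm_123_a : ∃ t, chk3 f_pm_123_a t 17 30 1 = true :=
  ⟨(a (b (l 16538560) (a (l 16539000) (l 16546360))) (b (l 16552920) (a (l 16554512) (l 16563536)))), by decide +kernel⟩

def k12_pm_123_a : ∃ t, chk3 f_pm_123_a t 34 31 1 = true :=
  ⟨(a (b (b (l 141605586663915535) (c (l 141916954664124431) (l 141477012481851407))) (b (a (b (l 141895101824237583) (b (l 141786662492012559) (l 141881357932396559))) (b (l 141630875445067791) (l 141642970076069903))) (c (b (c (l 141848853702049807) (l 141709490553045007)) (c (b (l 141865346380283919) (a (b (l 141852358395641871) (a (b (l 141845898763075599) (c (a (l 141923757942308879) (l 141934478183432207)) (l 141812707243589647))) (c (c (l 14) (l 141920184529633295)) (l 141877166117814287)))) (b (l 141895445518581775) (b (l 141989797361139727) (c (l 14) (a (l 141899706111934479) (a (l 141870981374836751)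 (l 141881976493916175)))))))) (b (l 141721104147496975) (b (l 141850777801539599) (a (a (l 141791953922867215) (l 141811126661890063)) (c (a (l 141778691087040527) (l 141799375654879247)) (l 141712170610049039))))))) (b (l 141487938884681743) (b (l 141672588120195087) (a (c (l 141557551738404879) (l 141399084573704207)) (c (l 141682758634389519) (l 141430145785708559)))))))) (b (b (c (l 141765565667786767) (l 141519343691694095)) (c (l 141794496575995919) (l 141529376739262479))) (b (c (l 141833460528431119) (l 141544013992247311)) (c (b (l 141863903263850511) (c (c (l 14) (b (l 141917573192155151) (b (l 141926163128778767) (a (c (l 14) (a (l 141878403078455311) (l 141946023049297935))) (l 14))))) (b (l 141802605467942927) (a (b (l 141787899496103951) (c (a (l 141820678698123279) (l 141932554011820047)) (l 141842737626333199))) (b (l 141831330216493071) (a (c (b (l 141863628382044175) (l 141956193517830159)) (l 141784463518220303)) (c (a (l 141882045206462479) (l 141983750034964495))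 (l 141806316317409295)))))))) (b (l 141555558867894287) (b (l 141741788651733007) (c (a (b (l 141628538976665615) (l 141721378990505999)) (a (l 141659256590794767) (l 141859573870706703))) (a (l 141463268582440975) (l 141498384244424719))))))))), by decide +kernel⟩

def k13_pm_123_a : ∃ t, chk3 f_pm_123_a t 35 31 1 = true :=
  ⟨(a (b (l 141726532981751823) (b (a (l 141751546877427727) (l 141794015524814863)) (c (b (l 141956605861265423) (c (l 14) (b (l 141892971602722831) (c (a (b (l 141917916782395407) (c (l 14) (a (l 141890910019518479) (l 141959766941204495)))) (l 14)) (b (l 141858818010923023) (a (a (l 141828787592019983) (l 141941899856543759)) (a (b (l 141874211177594895) (l 141966776313380879)) (a (l 141893590074900495) (l 141995913378824207))))))))) (b (l 141631287751032847) (c (b (l 141725433463816207) (a (c (b (l 141751753032990735) (l 141845623839211535)) (l 141667709086023695)) (c (a (l 141787074853044239) (l 141810095883567119)) (l 141710383892021263)))) (b (l 141551298255110159)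 (a (l 141535630210613263) (l 141575143919992847)))))))) (b (l 141808790216081423) (b (l 142064564121747471) (c (c (l 14) (b (l 141975503714861071) (b (l 141992752307781647) (a (b (l 141975366275874831) (c (l 14) (c (l 14) (a (l 141902523607515151) (l 141972686199537679))))) (l 14))))) (b (l 141715744009519119) (a (b (l 141703168342376463) (b (l 141910632444018703) (c (c (a (l 141835934413340687) (l 141860261114200079)) (l 141757250587082767)) (l 141798207352586255)))) (b (l 141748729366953999) (c (b (l 141847135687884815) (a (c (b (l 141883969339572239) (l 141976465755881487)) (l 141792778565484559)) (c (a (l 141904310309748751) (l 142007320808570895)) (l 141817173985820687)))) (c (l 141708597180153871) (l 141612664761810959)))))))))), by decide +kernel⟩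

def k14_pm_123_a : ∃ t, chk3 f_pm_123_a t 18 6 1 = true :=
  ⟨(b (l 1) (l 16567264)), by decide +kernel⟩

def k15_pm_123_a : ∃ t, chk3 f_pm_123_a t 18 14 1 = true :=
  ⟨(b (l 16557640) (a (l 16560744) (l 16578696))), by decide +kernel⟩

def k16_pm_123_a : ∃ t, chk3 f_pm_123_a t 18 30 1 = true :=
  ⟨(b (a (l 16570552) (l 16591616)) (a (l 16557752) (l 16601936))), by decide +kernel⟩

def k17_pm_123_a : ∃ t, chk3 f_pm_123_a t 18 62 1 = true :=
  ⟨(a (b (l 141928155976482831) (l 141969662550671375)) (b (l 142174103035756559) (l 142231896128552975))), by decide +kernel⟩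

def k18_pm_123_a : ∃ t, chk3 f_pm_123_a t 18 126 1 = true :=
  ⟨(a (a (l 142140705326317583) (l 142159122172461071)) (a (l 142209493577678863) (l 142237324994674703))), by decide +kernel⟩

def k19_pm_123_a : ∃ t, chk3 f_pm_123_a t 18 127 2 = true :=
  ⟨(a (c (a (a (l 14) (b (l 142386652440363023) (b (l 142412490969120911) (b (l 142425547672469647) (c (a (l 142484783875588239) (l 142526153007956111)) (l 14)))))) (b (l 142510691117957263) (b (l 142175889832738959) (b (a (l 142508423376175247) (l 142589237495185551)) (a (b (l 142154655468372111) (c (l 142589512355365007) (a (l 14) (l 142469321962586255)))) (c (l 142667027960316047) (a (l 142508079775760527) (l 142548486835273871)))))))) (l 14)) (b (a (l 142172934887358479) (l 142147439988883599)) (b (a (c (l 142694172154331279) (l 142149913837338639)) (c (l 142844530396037263) (l 142218152305803407))) (a (c (c (a (l 142740489093824655) (l 142816424129052815)) (a (a (l 142584152249876623) (l 142623597236535439)) (l 142681871363129487)))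 (c (b (l 142141461359673487) (a (b (l 142467741429399695) (a (l 14) (l 142492068107157647))) (a (l 142529932566970511) (l 142569446273089679)))) (l 14))) (a (c (l 142824326866911375) (b (l 142551785361096847) (c (l 142627720379564175) (a (l 14) (l 142511446996975759))))) (c (l 142897444403085455) (c (l 142699738423918735) (a (l 142546425222037647) (l 142585045590900879))))))))), by decide +kernel⟩

def k20_pm_123_a : ∃ t, chk3 f_pm_123_a t 18 127 3 = true :=
  ⟨(a (b (a (l 141809477399265295) (l 141913037676216335)) (a (a (b (l 141796695573725199) (a (b (l 141970349689995279) (c (c (c (l 14) (l 141913381281431567)) (l 141842187881594895)) (l 141696983583358991))) (b (l 141995226146766863) (c (c (l 14) (l 141867820252774415)) (l 141901011715784719))))) (b (l 141847066962673679) (c (b (l 141951314440372239) (b (l 142045322685562895) (c (l 14) (a (l 141985399284285455) (a (l 141915442861932559) (l 141929118041145359)))))) (c (a (l 141793465755140111) (l 141819098126319631)) (l 141705642237247503)))))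 (b (c (l 142027593078030351) (l 141825901353385999)) (c (a (b (l 142007252108115983) (a (c (l 14) (c (l 14) (l 141923483041251343))) (l 14))) (l 14)) (a (b (l 141805491663994895) (c (a (l 141847547996766223) (l 141874554757775375)) (l 141757594174652431))) (b (l 141859299027484687) (a (c (b (l 141901080482250767) (l 141993576898592783)) (l 141797107883507727)) (c (a (l 141923483037171727) (l 142027936645300239)) (l 141824252083486735))))))))) (c (l 14) (b (a (l 141922864558276623) (l 142042780074033167)) (b (a (l 141937501810819087) (l 142060166106300431)) (c (a (a (a (b (l 141954544248061967) (c (l 14) (l 141932966325944335))) (l 14)) (l 14)) (l 14)) (b (a (l 141890497675034639) (l 142102084973182991)) (a (a (a (l 141852083478364175) (l 141880602068140047)) (b (l 141923414312484879) (a (l 142001067318280207) (c (l 14) (l 141912762789888015))))) (a (b (l 141984505942032399) (l 14)) (l 14))))))))), by decide +kernel⟩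

def k21_pm_123_a : ∃ t, chk3 f_pm_123_a t 19 3 1 = true :=
  ⟨(b (b (l 16604832) (a (l 16565504) (l 16589968))) (b (b (a (l 16585072) (l 16610016)) (b (l 16610816) (l 16599424))) (b (a (b (l 16617920) (l 16608144)) (b (l 16642400) (l 16590568))) (b (a (b (l 142306731681218575) (l 142273471381241871)) (b (l 142409604787617807) (a (l 142757531498856463) (l 142891465782460431)))) (b (a (a (l 142302608525049871) (c (l 142928780479938703) (l 142416270508867599))) (a (c (l 143062302446649487) (l 142563673812402191)) (c (l 143189089903378511) (l 142343771511472271)))) (c (a (a (b (l 142654933350580367) (c (a (l 142960597613019279) (l 143030141735731343)) (b (l 142729150361452687) (a (a (l 142509385436283023) (l 142726745179963535)) (b (l 142777597601579151) (l 142605455281864847)))))) (b (l 142794846229840015) (a (c (l 143097967871180943) (a (l 142827487950323855) (l 142862809767592079))) (c (l 143164076019384463) (b (l 142907133837557903) (l 142922939320631439)))))) (a (b (l 143107863469670543)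 (c (l 143260008425717839) (a (l 142983137592508559) (l 143049451899191439)))) (a (c (l 143336768093962319) (l 143098723771990159)) (b (l 143264475184496719) (l 143115010329280591))))) (a (c (b (a (l 142440872093155343) (l 142592054968664207)) (a (c (b (l 142531032066277519) (a (c (a (l 142522717010149519) (l 142561131204427919)) (l 14)) (a (l 142565804106809487) (l 142603531127668879)))) (l 14)) (b (l 142254917134942351) (a (c (a (l 142640777090629775) (l 142677542017171599)) (c (a (l 142542027180998799) (l 142579548021932175)) (l 14))) (b (l 142663454519017615) (c (l 142735816143880335) (a (l 142587863078895759) (l 142624696724914319)))))))) (l 14)) (b (a (l 142248251424079887) (a (l 142714375653359759) (l 142782888983675023))) (b (a (c (l 142578792139997327) (l 142142285968212111)) (c (l 142895657671245967) (l 142286459455750287))) (a (a (c (a (b (l 142717468037251215) (l 142725302016344207)) (l 142756844261556367)) (c (c (a (l 142560100401315983) (l 142596727888871567)) (l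 14)) (l 14))) (c (a (l 142791891243794575) (l 142826457146671247)) (c (a (l 142600851035455631) (l 142636860069068943)) (l 14)))) (c (a (l 142877584424861839) (l 142944173630980239)) (a (b (l 142622841290686607) (a (c (l 142676373775302799) (a (l 142539759426601103) (l 142557901371637903))) (c (l 142711489434091663) (l 142584908109283471)))) (c (l 142759524340482191) (a (l 142616656512942223) (l 142651840912687247))))))))))))))), by decide +kernel⟩

def k22_pm_123_a : ∃ t, chk3 f_pm_123_a t 10 2 1 = true :=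
  ⟨(a (b (a (l 1) (l 16653608)) (b (l 16620568) (l 16612384))) (b (l 16683248) (l 16665864))), by decide +kernel⟩

def k23_pm_123_a : ∃ t, chk3 f_pm_123_a t 10 6 1 = true :=
  ⟨(a (b (a (l 16599640) (l 16628168)) (b (l 16624536) (l 16614440))) (b (l 16665688) (l 16679784))), by decide +kernel⟩

def k24_pm_123_a : ∃ t, chk3 f_pm_123_a t 10 14 1 = true :=
  ⟨(b (a (l 16627968) (l 16696424)) (a (a (l 16652504) (l 16677920)) (a (l 16700344) (l 16719704)))), by decide +kernel⟩

def k25_pm_123_a : ∃ t, chk3 f_pm_123_a t 20 30 1 = true :=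
  ⟨(a (a (b (l 16660328) (l 16671200)) (l 16678664)) (b (l 16691504) (c (l 16724296) (l 16678672)))), by decide +kernel⟩

def k26_pm_123_a : ∃ t, chk3 f_pm_123_a t 40 31 1 = true :=
  ⟨(a (b (b (l 142970287034237007) (c (l 143255404208078927) (l 142789417331228815))) (b (c (a (l 143281448896561231) (l 143344258509799503)) (a (l 142809414704726159) (b (l 142869406818599055) (l 142899574675308687)))) (c (a (b (l 143326116566171727) (c (l 143473107560022223) (a (b (l 143216783854125199) (l 143233276531900559)) (l 143260489449013327)))) (b (l 143391949836222543) (l 143427546488701007))) (b (a (a (l 142835321953829007) (l 142873186392473743)) (b (l 142923489058078863) (l 142940600211046543))) (b (a (a (c (l 142979426728214671) (l 142735816129937551)) (c (l 143017085008085135) (l 142776635506360463))) (l 142958192400367759)) (a (a (c (a (l 142986161238655119) (l 143005333975990415)) (a (b (l 142737534117576847) (c (l 142807490559967375) (a (b (l 142676305050828943) (l 142680359500808335))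 (l 142688880717349007)))) (b (l 142757943805804687) (c (l 142828243845480591) (l 142705235955597455))))) (b (l 142910913392738447) (c (l 143039556281172111) (c (l 142859717371101327) (a (l 142727088752885903) (l 142748666661486735)))))) (b (c (l 143088759434494095) (l 142852707980214415)) (c (l 143097692968108175) (c (a (l 142900811625087119) (l 142941081245221007)) (b (l 142799381654585487) (a (c (l 142812988114747535) (a (l 142741794722054287) (l 142763097763446927))) (c (l 142854288527245455) (c (l 142809483418796175) (a (l 142769076358267023) (l 142789967082750095))))))))))))))) (b (a (l 142919572085604431) (b (l 16695160) (c (l 16725176) (l 142974685074505871)))) (b (a (b (l 142810583010689103) (l 143023544675336271)) (c (l 143474344501018703) (l 143037494688317583))) (c (b (l 143492830044291151) (a (l 143494822910148815) (l 143559281789632719))) (c (b (l 143162083127574671) (b (l 143187234460729487) (a (l 143167924263420047) (l 143239392552566863)))) (b (l 142934965207007375)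 (b (l 142959772942778511) (b (a (l 142933178501038223) (l 143010144327991439)) (a (b (l 142939569392091279) (c (c (l 143030897617879183) (l 142972898366898319)) (a (c (l 142894695586398351) (c (l 142850440233861263) (a (l 142810582929277071) (l 142831061336801423)))) (c (l 142934209292189839) (a (l 142865902118092943) (l 142885830769721487)))))) (c (l 143075084247384207) (a (b (l 142939913008316559) (c (l 142972829644652687) (l 142915173980536975))) (l 142980113887592591)))))))))))), by decide +kernel⟩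

def k27_pm_123_a : ∃ t, chk3 f_pm_123_a t 41 31 1 = true :=
  ⟨(b (a (b (l 16703800) (l 143298010279280719)) (c (l 16739632) (l 143198160850141263))) (c (b (l 143629444384915663) (a (b (l 143617968231481551) (c (l 143754720020299983) (l 143546018921201871))) (b (l 143732523617583311) (l 143763722222764239)))) (a (b (l 143147514589085775) (b (l 143193694086152271) (a (c (l 143299728263004239) (b (l 143071923147784335) (a (a (l 143060446950588559) (l 143078520218992783)) (l 143105320819458191)))) (c (l 143365217935245519) (a (l 143132739873702031) (l 143167030919889039)))))) (b (l 143282617103106127) (b (l 143325360625778767) (a (c (l 143427752669511887) (l 143216989987979343)) (a (l 143369341098917967) (l 143399371515347023)))))))), by decide +kernel⟩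

def k28_pm_123_a : ∃ t, chk3 f_pm_123_a t 21 15 1 = true :=
  ⟨(b (a (b (l 16712784) (l 16721976)) (a (l 16731056) (l 16739104))) (b (a (b (l 16729048) (c (l 16754976) (l 143412222057054287))) (a (l 143727507079577679) (l 16751168))) (a (b (c (l 143843368150417615) (a (l 143405418828841039) (l 143516538241679439))) (a (c (l 143851889368219855) (b (l 143444932535566415) (c (l 143571445119484111) (l 143370715483750479)))) (c (l 143945897627615503) (a (l 143539490551988431) (l 143590136815059151))))) (b (a (l 143798288154247375) (l 143883019283431631)) (a (c (l 144030766195212559) (b (l 143649854050369743) (l 143672325323751631))) (c (l 144107663302344975) (l 143748122919633103))))))), by decide +kernel⟩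

def k29_pm_123_a : ∃ t, chk3 f_pm_123_a t 11 1 1 = true :=
  ⟨(b (b (a (l 16714560) (l 16735848)) (a (l 16703616) (l 16709816))) (b (b (a (l 16705704) (l 16756792)) (a (b (l 16713768) (l 16721904)) (b (l 16742552) (l 16748752)))) (b (a (b (l 16731696) (c (l 16759112) (l 16727448))) (b (l 16756384) (c (l 16779000) (l 16752856)))) (b (a (b (l 16752640) (a (l 16753312) (l 16765232))) (a (l 16772136) (b (l 16777632) (l 16783720)))) (a (c (b (a (l 16779248) (l 16789416)) (a (a (l 144153980236775695) (l 144218370397421903)) (b (l 16795600) (a (l 16797624) (l 16802128))))) (a (b (l 16743128) (b (l 143826669294518479) (a (l 143827974965952783) (l 143901161222209807)))) (b (l 16755792) (b (l 16761312) (a (l 143967887846834447) (b (l 16767072) (l 16769072))))))) (a (b (b (l 16780472) (l 16784032)) (b (a (l 16785616) (l 16790232)) (a (c (l 16806248) (a (l 16772176) (l 16774864))) (b (c (l 16809112) (l 16777848)) (c (l 16811400) (a (l 16778584) (l 16781360))))))) (a (b (l 16788840) (b (l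 16794760) (b (a (l 16796880) (l 16799272)) (c (l 16815600) (a (c (l 16791656) (l 16776832)) (c (l 16794296) (a (l 16779128) (l 16780576)))))))) (b (l 16792824) (b (l 16799168) (b (c (l 16817096) (l 16788624)) (c (l 16819616) (b (c (l 16797416) (l 16783520)) (c (l 16798664) (a (l 16783296) (l 16786168))))))))))))))), by decide +kernel⟩

def k30_pm_123_a : ∃ t, chk3 f_pm_123_a t 3 2 1 = true :=
  ⟨(a (a (b (a (b (l 16752976) (l 16748096)) (b (l 16761360) (l 16756824))) (a (b (l 16746400) (l 16747952)) (b (l 16754808) (l 16755568)))) (a (b (b (l 16764432) (l 16759368)) (b (l 16757168) (l 16756872))) (b (a (l 16763136) (b (l 16767552) (l 16760376))) (b (a (l 16756192) (l 16756064)) (l 16757064))))) (a (a (b (a (b (l 16772832) (l 16762496)) (b (b (l 100092918343) (l 16771448)) (l 16766272))) (b (a (l 16758008) (l 16760560)) (a (l 16758408) (l 16760864)))) (b (a (b (l 204245881095) (l 16781288)) (b (l 4) (a (l 140358105303) (l 191360849655)))) (b (a (l 16763280) (l 16770184)) (a (l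 16763424) (l 16764808))))) (a (b (l 4) (a (b (a (l 16767544) (l 203172127543)) (a (l 16766088) (l 16770472))) (b (l 4) (a (l 111904034151) (b (l 4) (l 16766976)))))) (l 4)))), by decide +kernel⟩

def k31_pm_123_a : ∃ t, chk3 f_pm_123_a t 6 3 1 = true :=
  ⟨(b (a (b (a (l 16752768) (l 16759272)) (a (b (l 16758336) (l 16763360)) (a (l 16765040) (l 16767448)))) (b (a (l 16761000) (a (l 16761928) (l 16763208))) (a (b (l 16767336) (l 16774096)) (a (l 16774424) (l 16776776))))) (a (b (a (b (l 16768936) (c (l 16789968) (l 16766888))) (b (l 16776768) (l 16787696))) (b (a (a (b (l 16783816) (l 16790720)) (l 16793064)) (a (l 16799624) (l 16806064))) (a (b (a (a (l 16796616) (l 16800264)) (l 16806024)) (b (a (a (l 16803344) (l 16807376)) (c (l 16825912) (l 16801640))) (a (a (b (c (l 16820840) (l 16793608)) (c (l 16823464) (a (c (l 16801680) (b (l 16787632) (l 16788904))) (l 16786880)))) (b (l 16811240) (c (l 16827208) (a (l 16799824) (l 16802304))))) (c (a (l 16829544) (l 16833128)) (a (b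 (l 16803256) (c (l 16812112) (l 16800064))) (a (l 16797800) (l 16810656))))))) (b (a (l 16813544) (l 16820568)) (b (a (l 16810992) (l 16828552)) (a (c (l 16838152) (a (a (l 16812984) (l 16815256)) (b (l 16817120) (l 16820008)))) (c (l 16843976) (b (l 16823304) (a (l 16824200) (l 16828104)))))))))) (b (a (b (l 16784248) (a (l 16795312) (l 16800104))) (b (a (l 16789776) (l 16792576)) (a (l 16804040) (l 16807032)))) (a (a (b (l 16812032) (b (l 16826616) (c (b (l 16843224) (l 16848664)) (b (l 16826344) (a (c (l 16834448) (l 16826232)) (l 16833600)))))) (b (l 16817040) (b (l 16831592) (c (l 16849448) (b (l 16832416) (a (l 16836592) (l 16839232))))))) (b (a (l 16842008) (b (l 16819192) (l 16828176))) (b (a (l 16835272) (l 16837512)) (a (c (l 16851480) (b (l 16837144) (a (l 16841488) (l 16843288)))) (c (l 16851752) (b (l 16840096) (a (l 16844592) (l 16845336))))))))))), by decide +kernel⟩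

def k32_pm_123_a : ∃ t, chk3 f_pm_123_a t 14 3 1 = true :=
  ⟨(b (a (b (l 16808648) (b (l 16776080) (l 16784864))) (b (a (l 16770000) (b (l 16768512) (l 16773392))) (a (l 16783560) (l 16784104)))) (b (a (b (a (l 16794776) (l 16796824)) (a (l 16809144) (l 16810336))) (b (a (l 16797648) (l 16797080)) (a (l 16809984) (l 16807840)))) (a (b (a (b (l 16820888) (l 16829344)) (b (l 16821320) (l 16828992))) (b (a (c (l 16842000) (l 16834408)) (l 16836704)) (c (a (l 16850160) (l 16846624)) (a (a (b (l 16840968) (l 16845520)) (l 16843128)) (b (l 16839912) (l 16843624)))))) (b (a (b (l 16819952) (l 16826616)) (b (l 16816328) (l 16821904))) (a (b (l 16833056) (c (l 16840760) (l 16858592))) (b (l 16827000) (a (l 16833544) (l 16829240)))))))), by decide +kernel⟩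

def k33_pm_123_a : ∃ t, chk3 f_pm_123_a t 15 3 1 = true :=
  ⟨(a (b (a (b (l 16771152) (b (l 16778936) (l 16786704))) (b (a (l 16769536) (b (l 16770776) (l 16770264))) (a (l 16781016) (b (l 16776200) (l 16782408))))) (b (a (b (l 16794928) (l 16761800)) (b (l 16790736) (l 16797688))) (b (a (b (l 16810424) (l 16814760)) (l 16804000)) (a (a (b (l 16820888) (l 16824432)) (b (l 16816200) (l 16819176))) (b (l 16808328) (a (b (l 16812928) (l 16814008)) (b (l 16807024) (c (l 16808256) (l 16807704))))))))) (a (b (a (b (b (l 197803425463) (l 16771800)) (b (l 16772936) (l 16779832))) (b (b (l 4) (a (l 16769320) (l 4))) (a (b (l 16773280) (l 16776848)) (b (l 16771696) (l 16774488))))) (b (b (a (l 16786216) (a (l 16782848) (l 16780768))) (l 16810288)) (b (a (l 16796312) (l 16801312)) (b (a (l 16778616) (l 16793312)) (a (b (l 16800792) (a (l 16803072) (l 16799768))) (a (b (l 16795912) (l 16796392)) (b (l 16792560) (a (l 16793824) (l 16792096))))))))) (b (a (b (l 4) (b (l 4) (a (a (l 16774248)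 (l 16773440)) (a (b (l 4) (l 16773424)) (l 4))))) (l 4)) (b (b (b (a (a (l 16776136) (a (l 16775032) (l 16774360))) (l 4)) (a (a (l 16779504) (a (l 16776712) (l 16775880))) (a (a (a (l 16775000) (l 16774952)) (l 4)) (l 4)))) (b (a (a (l 16781736) (a (l 16779920) (l 16778160))) (a (a (l 16776344) (l 6)) (l 4))) (a (a (l 16784080) (l 6)) (l 6)))) (a (a (a (b (l 16787248) (b (l 16789240) (b (l 16790008) (l 16790360)))) (l 6)) (l 6)) (l 6)))))), by decide +kernel⟩

theorem s34_pm_123_a : ∃ t, chk3 f_pm_123_a t 7 3 1 = true := ex3_a k32_pm_123_a k33_pm_123_a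

theorem s35_pm_123_a : ∃ t, chk3 f_pm_123_a t 3 3 1 = true := ex3_a k31_pm_123_a s34_pm_123_a

theorem s36_pm_123_a : ∃ t, chk3 f_pm_123_a t 3 1 1 = true := ex3_b k30_pm_123_a s35_pm_123_a

theorem s37_pm_123_a : ∃ t, chk3 f_pm_123_a t 20 31 1 = true := ex3_a k26_pm_123_a k27_pm_123_a

theorem s38_pm_123_a : ∃ t, chk3 f_pm_123_a t 20 15 1 = true := ex3_b k25_pm_123_a s37_pm_123_a

theorem s39_pm_123_a : ∃ t, chk3 f_pm_123_a t 10 15 1 = true := ex3_a s38_pm_123_a k28_pm_123_a

theorem s40_pm_123_a : ∃ t, chk3 f_pm_123_a t 10 7 1 = true := ex3_b k24_pm_123_a s39_pm_123_a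

theorem s41_pm_123_a : ∃ t, chk3 f_pm_123_a t 10 3 1 = true := ex3_b k23_pm_123_a s40_pm_123_a

theorem s42_pm_123_a : ∃ t, chk3 f_pm_123_a t 10 1 1 = true := ex3_b k22_pm_123_a s41_pm_123_a

theorem s43_pm_123_a : ∃ t, chk3 f_pm_123_a t 5 1 1 = true := ex3_a s42_pm_123_a k29_pm_123_a

theorem s44_pm_123_a : ∃ t, chk3 f_pm_123_a t 18 127 1 = true := ex3_c k19_pm_123_a k20_pm_123_a

theorem s45_pm_123_a : ∃ t, chk3 f_pm_123_a t 18 63 1 = true := ex3_b k18_pm_123_a s44_pm_123_a

theorem s46_pm_123_a : ∃ t, chk3 f_pm_123_a t 18 31 1 = true := ex3_b k17_pm_123_a s45_pm_123_a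

theorem s47_pm_123_a : ∃ t, chk3 f_pm_123_a t 18 15 1 = true := ex3_b k16_pm_123_a s46_pm_123_a

theorem s48_pm_123_a : ∃ t, chk3 f_pm_123_a t 18 7 1 = true := ex3_b k15_pm_123_a s47_pm_123_a

theorem s49_pm_123_a : ∃ t, chk3 f_pm_123_a t 18 3 1 = true := ex3_b k14_pm_123_a s48_pm_123_a

theorem s50_pm_123_a : ∃ t, chk3 f_pm_123_a t 9 3 1 = true := ex3_a s49_pm_123_a k21_pm_123_a

theorem s51_pm_123_a : ∃ t, chk3 f_pm_123_a t 17 31 1 = true := ex3_a k12_pm_123_a k13_pm_123_a

theorem s52_pm_123_a : ∃ t, chk3 f_pm_123_a t 17 15 1 = true := ex3_b k11_pm_123_a s51_pm_123_a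

theorem s53_pm_123_a : ∃ t, chk3 f_pm_123_a t 17 7 1 = true := ex3_b k10_pm_123_a s52_pm_123_a

theorem s54_pm_123_a : ∃ t, chk3 f_pm_123_a t 67 127 1 = true := ex3_a k8_pm_123_a k9_pm_123_a

theorem s55_pm_123_a : ∃ t, chk3 f_pm_123_a t 67 63 1 = true := ex3_b k7_pm_123_a s54_pm_123_a

theorem s56_pm_123_a : ∃ t, chk3 f_pm_123_a t 33 63 1 = true := ex3_a k6_pm_123_a s55_pm_123_a

theorem s57_pm_123_a : ∃ t, chk3 f_pm_123_a t 33 31 1 = true := ex3_b k5_pm_123_a s56_pm_123_a

theorem s58_pm_123_a : ∃ t, chk3 f_pm_123_a t 33 15 1 = true := ex3_b k4_pm_123_a s57_pm_123_a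

theorem s59_pm_123_a : ∃ t, chk3 f_pm_123_a t 16 15 1 = true := ex3_a k3_pm_123_a s58_pm_123_a

theorem s60_pm_123_a : ∃ t, chk3 f_pm_123_a t 16 7 1 = true := ex3_b k2_pm_123_a s59_pm_123_a

theorem s61_pm_123_a : ∃ t, chk3 f_pm_123_a t 8 7 1 = true := ex3_a s60_pm_123_a s53_pm_123_a

theorem s62_pm_123_a : ∃ t, chk3 f_pm_123_a t 8 3 1 = true := ex3_b k1_pm_123_a s61_pm_123_a

theorem s63_pm_123_a : ∃ t, chk3 f_pm_123_a t 4 3 1 = true := ex3_a s62_pm_123_a s50_pm_123_a

theorem s64_pm_123_a : ∃ t, chk3 f_pm_123_a t 4 1 1 = true := ex3_b k0_pm_123_a s63_pm_123_a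

theorem s65_pm_123_a : ∃ t, chk3 f_pm_123_a t 2 1 1 = true := ex3_a s64_pm_123_a s43_pm_123_a

theorem s66_pm_123_a : ∃ t, chk3 f_pm_123_a t 1 1 1 = true := ex3_a s65_pm_123_a s36_pm_123_a

theorem c_pm_123_a : CertB 536870912 536870912 0 536870912 587336777 62277027 3 eng mog cd0q1 cd3q2a pd3 true true false .npn 1 2 3
    ndB0q1 ndB3q2a pcB3 cut_pm_123_a xt_pm_123_a :=
  certB2 (fam := true) (s1 := true) (s2 := false) (a := 1) (b := 2) (c := 3) (cn := .npn) (n1 := ndB0q1) (n2 := ndB3q2a) (pc := pcB3) (cut := cut_pm_123_a) (xt := xt_pm_123_a) (P1 := 536870912) (W1 := 536870912) (P2 := 0) (W2 := 536870912) (P3 := 587336777) (W3 := 62277027) (N0 := 3) (En := eng) (mo := mog) (C1 := cd0q1) (C2 := cd3q2a) (C3 := pd3)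
    rfl (fun _ => rfl) s66_pm_123_a

noncomputable def cut_pm_123_b : Cut := Cut.of [[⟨0, 1, 0, 67108864⟩, ⟨1, 1, 0, 67108864⟩, ⟨2, 2, 0, 16777216⟩], [⟨0, 0, 1, 20971520⟩, ⟨1, 1, 0, 29360128⟩, ⟨2, 1, 1, 20971520⟩]]

noncomputable def f_pm_123_b : ℕ → ℕ → ℕ → ℕ → Bool := onCell 1610612736 536870912 1239849684 370763052 587336777 62277027
    (rowB 3 eng mog cd0q1 cd3q2b pd3 2 true true false .npn 1 2 3 (qsf 536870912 536870912 1239849684 370763052 3) ndB0q1 ndB3q2b pcB3 cut_pm_123_b Ext.none)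

def k0_pm_123_b : ∃ t, chk3 f_pm_123_b t 1 1 1 = true :=
  ⟨(a (b (a (l 1) (a (b (b (a (l 16696504) (l 16680560)) (l 1)) (l 1)) (b (b (a (l 16686736) (b (l 16734464) (l 16721296))) (l 16743704)) (b (l 16727184) (l 1))))) (l 1)) (a (b (a (b (b (a (b (l 16748648) (l 16737512)) (b (l 16758048) (l 16749984))) (a (l 16732048) (l 16752512))) (a (l 16740872) (l 16756296))) (b (a (b (b (l 16763472) (l 16763064)) (l 16764704)) (b (a (l 16770768) (b (l 16772432) (l 16766968))) (a (l 16763912) (l 16759736)))) (a (b (l 16761816) (l 16763064)) (a (l 16759304) (l 4))))) (a (l 1) (b (a (b (l 16770664) (l 1)) (l 4)) (l 1)))) (a (b (b (a (b (a (b (l 16767752) (l 16761184)) (b (l 136600158407) (l 4))) (l 4)) (l 4)) (l 4)) (l 4)) (l 4)))), by decide +kernel⟩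

theorem c_pm_123_b : CertB 536870912 536870912 1239849684 370763052 587336777 62277027 3 eng mog cd0q1 cd3q2b pd3 true true false .npn 1 2 3
    ndB0q1 ndB3q2b pcB3 cut_pm_123_b Ext.none :=
  certB2 (fam := true) (s1 := true) (s2 := false) (a := 1) (b := 2) (c := 3) (cn := .npn) (n1 := ndB0q1) (n2 := ndB3q2b) (pc := pcB3) (cut := cut_pm_123_b) (xt := Ext.none) (P1 := 536870912) (W1 := 536870912) (P2 := 1239849684) (W2 := 370763052) (P3 := 587336777) (W3 := 62277027) (N0 := 3) (En := eng) (mo := mog) (C1 := cd0q1) (C2 := cd3q2b) (C3 := pd3)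
    rfl (fun _ => rfl) k0_pm_123_b

noncomputable def f_pm_133 : ℕ → ℕ → ℕ → ℕ → Bool := onCell 536870912 536870912 1610612736 536870912 587336777 62277027
    (rowB 3 eng mog cd0q1 cd3q3 pd3 0 true true false .dn 1 3 3 (qsf 536870912 536870912 1610612736 536870912 3) ndB0q1 ndB3q3 pcB3 Cut.none Ext.none)

def k0_pm_133 : ∃ t, chk3 f_pm_133 t 1 1 1 = true :=
  ⟨(l 4), by decide +kernel⟩

theorem c_pm_133 : CertB 536870912 536870912 1610612736 536870912 587336777 62277027 3 eng mog cd0q1 cd3q3 pd3 true true false .dn 1 3 3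
    ndB0q1 ndB3q3 pcB3 Cut.none Ext.none :=
  certB0 (fam := true) (s1 := true) (s2 := false) (a := 1) (b := 3) (c := 3) (cn := .dn) (n1 := ndB0q1) (n2 := ndB3q3) (pc := pcB3) (cut := Cut.none) (xt := Ext.none) (P1 := 536870912) (W1 := 536870912) (P2 := 1610612736) (W2 := 536870912) (P3 := 587336777) (W3 := 62277027) (N0 := 3) (En := eng) (mo := mog) (C1 := cd0q1) (C2 := cd3q3) (C3 := pd3)
    rfl k0_pm_133

noncomputable def cut_pm_202 : Cut := Cut.of [[⟨0, 1, 0, 67108864⟩, ⟨1, 0, 0, 67108864⟩, ⟨2, 1, 0, 67108864⟩]]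

noncomputable def f_pm_202 : ℕ → ℕ → ℕ → ℕ → Bool := onCell 0 536870912 1073741824 536870912 587336777 62277027
    (rowB 3 eng mog cd0q2 cd3q0 pd2 1 true true false .pp 2 0 2 (qsf 0 536870912 0 536870912 2) ndB0q2 ndB3q0 pcB2 cut_pm_202 Ext.none)

def k0_pm_202 : ∃ t, chk3 f_pm_202 t 2 1 1 = true :=
  ⟨(b (a (b (l 1) (b (b (b (l 1) (a (a (l 16451440) (l 16454288)) (a (l 279742642727) (c (l 254509721383) (l 16463656))))) (b (a (l 16520192) (a (l 16462976) (c (l 16470272) (l 16468440)))) (a (l 16461536) (l 16469144)))) (a (b (l 16469120) (l 16481416)) (b (l 16536496) (l 16482008))))) (a (b (l 1) (b (b (b (b (l 1) (a (l 16474424) (l 131566351335))) (a (b (l 16476208) (c (l 16479560) (l 16474448))) (b (l 16488152) (c (l 16490832) (l 16486088))))) (b (a (c (l 16479352) (l 16477416)) (c (l 16489880) (l 16488368))) (l 16553176))) (b (a (l 16483360) (l 16491680)) (l 16492144)))) (b (b (l 1) (b (l 1) (b (l 1) (a (l 1) (b (l 1) (a (l 204580848711) (l 300143881511))))))) (b (b (b (a (c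 (l 224445047927) (b (l 184179723127) (l 227129396903))) (b (a (l 16512232) (l 16520736)) (c (l 16524424) (l 16513256)))) (a (c (l 16529864) (b (l 16498328) (l 16499656))) (a (l 16512680) (b (l 16520480) (b (l 16519904) (l 16519368)))))) (a (b (c (l 16502408) (l 16500920)) (l 16501664)) (b (l 16515024) (l 16514312)))) (b (a (l 16502072) (l 16513528)) (l 16530384)))))) (b (a (b (a (b (l 16496704) (l 16519424)) (b (l 16493376) (l 16512968))) (a (b (a (l 16550464) (l 16545464)) (l 16567528)) (b (l 16539656) (a (l 16560864) (l 16556632))))) (b (a (b (l 16500360) (l 16517576)) (b (l 16515592) (l 16529712))) (a (b (b (l 16535040) (l 16545488)) (l 16555808)) (b (b (l 16543512) (l 16551768)) (l 16559480))))) (a (b (a (l 16597480) (b (a (l 16576856) (l 16573920)) (l 16591864))) (a (l 16650008) (l 16626296))) (b (a (b (l 16570104) (l 16586736)) (b (l 16570528) (l 16583136))) (a (b (l 16604032) (l 16621808)) (l 16606064)))))), by decide +kernel⟩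

def k1_pm_202 : ∃ t, chk3 f_pm_202 t 3 4 1 = true :=
  ⟨(b (a (l 1) (a (b (l 1) (a (b (l 1) (b (l 1) (a (l 1) (b (l 232498400471) (l 253973240759))))) (b (l 6) (b (l 6) (a (a (l 16655952) (l 16652256)) (a (l 16669448) (l 16676064))))))) (b (l 6) (b (l 6) (b (l 6) (b (l 6) (a (l 16684984) (l 16696648)))))))) (a (a (b (l 1) (b (a (b (l 1) (c (l 200822804375) (a (l 1) (l 187937877399)))) (b (a (l 1) (b (l 187401056711) (l 274374148967))) (a (c (l 286722172615) (l 273837248279)) (c (l 16563920) (l 16555432))))) (a (b (c (l 202433413687) (a (l 235182500743) (l 266321038007))) (a (l 281890295975) (l 16538808))) (b (a (l 16549008) (l 16559224)) (c (l 16555600) (l 16549976)))))) (b (b (a (l 1) (b (l 1) (a (l 187401147751) (b (l 237330167655) (l 297996584839))))) (a (b (a (l 1) (l 208339086439)) (a (b (l 1) (l 240551304023)) (b (l 282964136023) (l 16584728)))) (a (b (b (l 255046878375) (l 325913842615)) (l 16597120)) (b (l 16611512) (l 16546096))))) (a (b (b (a (b (l 315176364999) (l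 16571864)) (l 16583600)) (a (l 16570960) (l 16518888))) (a (b (l 16569472) (l 16567624)) (l 16578472))) (b (a (b (l 16532080) (l 16592544)) (l 16604704)) (l 16591632))))) (a (b (a (a (b (b (b (l 226592782567) (l 275984910023)) (l 348999357975)) (b (l 16560912) (l 16620672))) (b (b (a (l 16639304) (l 16645912)) (b (l 16640232) (l 16638544))) (l 16634008))) (b (a (b (l 16634752) (l 16651816)) (l 16664448)) (l 16666640))) (a (b (l 16617800) (l 16605944)) (b (l 16631664) (l 16619048)))) (b (b (a (a (l 16671216) (l 16677480)) (a (l 16683192) (l 16688136))) (a (a (l 16655456) (l 16661440)) (l 16669416))) (a (b (l 16643936) (l 16630656)) (b (l 16654264) (l 16640464))))))), by decide +kernel⟩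

def k2_pm_202 : ∃ t, chk3 f_pm_202 t 3 5 1 = true :=
  ⟨(a (b (b (b (a (a (b (c (l 16536496) (l 16530344)) (c (l 16534768) (l 16530768))) (b (l 16551984) (l 16550264))) (a (l 16567696) (l 16582136))) (a (b (a (l 16532320) (l 16547776)) (a (b (l 16531168) (l 16551336)) (l 16618744))) (b (l 16569664) (b (l 16567136) (a (l 16558648) (l 16571616)))))) (a (b (a (l 16528848) (l 16542464)) (a (l 16527264) (l 16539808))) (a (l 16553472) (l 16565088)))) (a (b (a (l 16525320) (l 16536632)) (l 16530048)) (a (b (l 16546904) (l 16544440)) (l 16617416)))) (b (b (a (b (a (l 16595536) (l 16607840)) (b (l 16594992) (b (l 16591720) (b (l 16590184) (l 16589208))))) (b (a (l 16618760) (l 16628008)) (b (a (l 16610736) (l 16619552)) (b (l 16653872) (a (l 16604752) (l 16634168)))))) (a (b (l 16584856) (l 16578392)) (a (l 16595384) (l 16603176)))) (a (b (l 16570912) (l 16564800)) (a (l 16577720) (l 16583304))))), by decide +kernel⟩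

def k3_pm_202 : ∃ t, chk3 f_pm_202 t 3 3 1 = true :=
  ⟨(b (a (b (a (b (l 16534448) (l 16544136)) (b (l 16551056) (l 16556208))) (a (b (a (l 16554152) (l 16558680)) (l 16565056)) (b (l 16564896) (l 16569560)))) (b (a (l 16689352) (a (l 16568768) (l 16571808))) (a (b (l 16571312) (l 16573288)) (l 16784192)))) (a (b (a (l 16577232) (l 16576832)) (a (l 16599240) (l 16592648))) (a (b (l 16575656) (l 16587576)) (b (l 16579584) (l 16587312))))), by decide +kernel⟩

theorem s4_pm_202 : ∃ t, chk3 f_pm_202 t 3 2 1 = true := ex3_b k1_pm_202 k2_pm_202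

theorem s5_pm_202 : ∃ t, chk3 f_pm_202 t 3 1 1 = true := ex3_b s4_pm_202 k3_pm_202

theorem s6_pm_202 : ∃ t, chk3 f_pm_202 t 1 1 1 = true := ex3_a k0_pm_202 s5_pm_202

theorem c_pm_202 : CertB 0 536870912 0 536870912 587336777 62277027 3 eng mog cd0q2 cd3q0 pd2 true true false .pp 2 0 2
    ndB0q2 ndB3q0 pcB2 cut_pm_202 Ext.none :=
  certB1 (fam := true) (s1 := true) (s2 := false) (a := 2) (b := 0) (c := 2) (cn := .pp) (n1 := ndB0q2) (n2 := ndB3q0) (pc := pcB2) (cut := cut_pm_202) (xt := Ext.none) (P1 := 0) (W1 := 536870912) (P2 := 0) (W2 := 536870912) (P3 := 587336777) (W3 := 62277027) (N0 := 3) (En := eng) (mo := mog) (C1 := cd0q2) (C2 := cd3q0) (C3 := pd2)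
    rfl (fun _ => rfl) s6_pm_202

noncomputable def f_pm_203 : ℕ → ℕ → ℕ → ℕ → Bool := onCell 0 536870912 1610612736 536870912 587336777 62277027
    (rowB 3 eng mog cd0q2 cd3q0 pd3 1 true true false .up 2 0 3 (qsf 0 536870912 0 536870912 3) ndB0q2 ndB3q0 pcB3 Cut.none Ext.none)

def k0_pm_203 : ∃ t, chk3 f_pm_203 t 1 1 1 = true :=
  ⟨(b (b (a (b (a (b (l 16689792) (l 16709464)) (b (a (l 16655112) (l 16643480)) (l 16698200))) (a (b (l 16762952) (l 16788168)) (b (l 16741568) (l 16779576)))) (b (a (b (a (l 16633288) (l 16625808)) (l 16692816)) (b (a (l 16622096) (b (l 16568936) (l 16682200))) (l 16723248))) (a (a (l 16754824) (l 16757944)) (a (l 16773296) (l 2))))) (a (b (a (l 16928168) (b (l 16812376) (l 2))) (l 2)) (a (l 2) (l 2)))) (l 2)), by decide +kernel⟩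

theorem c_pm_203 : CertB 0 536870912 0 536870912 587336777 62277027 3 eng mog cd0q2 cd3q0 pd3 true true false .up 2 0 3
    ndB0q2 ndB3q0 pcB3 Cut.none Ext.none :=
  certB1 (fam := true) (s1 := true) (s2 := false) (a := 2) (b := 0) (c := 3) (cn := .up) (n1 := ndB0q2) (n2 := ndB3q0) (pc := pcB3) (cut := Cut.none) (xt := Ext.none) (P1 := 0) (W1 := 536870912) (P2 := 0) (W2 := 536870912) (P3 := 587336777) (W3 := 62277027) (N0 := 3) (En := eng) (mo := mog) (C1 := cd0q2) (C2 := cd3q0) (C3 := pd3)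
    rfl (fun _ => rfl) k0_pm_203

noncomputable def f_pm_213 : ℕ → ℕ → ℕ → ℕ → Bool := onCell 0 536870912 1610612736 536870912 587336777 62277027
    (rowB 3 eng mog cd0q2 cd3q1 pd3 1 true true false .pnn 2 1 3 (qsf 0 536870912 536870912 536870912 3) ndB0q2 ndB3q1 pcB3 Cut.none Ext.none)

def k0_pm_213 : ∃ t, chk3 f_pm_213 t 1 1 1 = true :=
  ⟨(a (b (b (b (l 1) (a (l 1) (l 551400559559))) (b (a (b (l 16726224) (l 4)) (b (l 16783760) (l 16766376))) (a (l 4) (l 16786136)))) (b (b (a (l 4) (l 4)) (l 4)) (l 4))) (a (b (b (b (l 1) (l 277596476903)) (b (a (l 16877656) (l 16979816)) (l 16855784))) (b (b (b (l 16808632) (l 16780848)) (b (a (l 4) (l 16783296)) (l 4))) (l 4))) (b (b (b (b (a (l 1) (c (l 16838528) (l 16741736))) (l 16889144)) (a (l 16953824) (l 17053368))) (b (a (l 17061160) (l 17074152)) (b (l 17024328) (l 16975568)))) (b (b (a (l 16888616) (l 16937728)) (b (l 16859152) (l 16929632))) (b (b (l 16877384) (a (l 4) (l 16781880))) (l 4)))))), by decide +kernel⟩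

theorem c_pm_213 : CertB 0 536870912 536870912 536870912 587336777 62277027 3 eng mog cd0q2 cd3q1 pd3 true true false .pnn 2 1 3
    ndB0q2 ndB3q1 pcB3 Cut.none Ext.none :=
  certB1 (fam := true) (s1 := true) (s2 := false) (a := 2) (b := 1) (c := 3) (cn := .pnn) (n1 := ndB0q2) (n2 := ndB3q1) (pc := pcB3) (cut := Cut.none) (xt := Ext.none) (P1 := 0) (W1 := 536870912) (P2 := 536870912) (W2 := 536870912) (P3 := 587336777) (W3 := 62277027) (N0 := 3) (En := eng) (mo := mog) (C1 := cd0q2) (C2 := cd3q1) (C3 := pd3)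
    rfl (fun _ => rfl) k0_pm_213

noncomputable def f_mm_001 : ℕ → ℕ → ℕ → ℕ → Bool := onCell 0 536870912 0 536870912 587336777 62277027
    (rowB 3 eng mog cd0q0 cd3q0 pd1 0 true false false .up 0 0 1 (qsf 0 536870912 0 536870912 1) ndB0q0 ndB3q0 pcB1 Cut.none Ext.none)

def k0_mm_001 : ∃ t, chk3 f_mm_001 t 1 1 1 = true :=
  ⟨(l 4), by decide +kernel⟩

theorem c_mm_001 : CertB 0 536870912 0 536870912 587336777 62277027 3 eng mog cd0q0 cd3q0 pd1 true false false .up 0 0 1
    ndB0q0 ndB3q0 pcB1 Cut.none Ext.none :=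
  certB0 (fam := true) (s1 := false) (s2 := false) (a := 0) (b := 0) (c := 1) (cn := .up) (n1 := ndB0q0) (n2 := ndB3q0) (pc := pcB1) (cut := Cut.none) (xt := Ext.none) (P1 := 0) (W1 := 536870912) (P2 := 0) (W2 := 536870912) (P3 := 587336777) (W3 := 62277027) (N0 := 3) (En := eng) (mo := mog) (C1 := cd0q0) (C2 := cd3q0) (C3 := pd1)
    rfl k0_mm_001

noncomputable def f_mm_011 : ℕ → ℕ → ℕ → ℕ → Bool := onCell 0 536870912 536870912 536870912 587336777 62277027
    (rowB 3 eng mog cd0q0 cd3q1 pd1 0 true false false .pnn 0 1 1 (qsf 0 536870912 536870912 536870912 1) ndB0q0 ndB3q1 pcB1 Cut.none Ext.none)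

def k0_mm_011 : ∃ t, chk3 f_mm_011 t 1 1 1 = true :=
  ⟨(l 4), by decide +kernel⟩

theorem c_mm_011 : CertB 0 536870912 536870912 536870912 587336777 62277027 3 eng mog cd0q0 cd3q1 pd1 true false false .pnn 0 1 1
    ndB0q0 ndB3q1 pcB1 Cut.none Ext.none :=
  certB0 (fam := true) (s1 := false) (s2 := false) (a := 0) (b := 1) (c := 1) (cn := .pnn) (n1 := ndB0q0) (n2 := ndB3q1) (pc := pcB1) (cut := Cut.none) (xt := Ext.none) (P1 := 0) (W1 := 536870912) (P2 := 536870912) (W2 := 536870912) (P3 := 587336777) (W3 := 62277027) (N0 := 3) (En := eng) (mo := mog) (C1 := cd0q0) (C2 := cd3q1) (C3 := pd1)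
    rfl k0_mm_011

noncomputable def f_mm_012 : ℕ → ℕ → ℕ → ℕ → Bool := onCell 0 536870912 536870912 536870912 587336777 62277027
    (rowB 3 eng mog cd0q0 cd3q1 pd2 0 true false false .pnp 0 1 2 (qsf 0 536870912 536870912 536870912 2) ndB0q0 ndB3q1 pcB2 Cut.none Ext.none)

def k0_mm_012 : ∃ t, chk3 f_mm_012 t 1 1 1 = true :=
  ⟨(l 4), by decide +kernel⟩

theorem c_mm_012 : CertB 0 536870912 536870912 536870912 587336777 62277027 3 eng mog cd0q0 cd3q1 pd2 true false false .pnp 0 1 2
    ndB0q0 ndB3q1 pcB2 Cut.none Ext.none :=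
  certB0 (fam := true) (s1 := false) (s2 := false) (a := 0) (b := 1) (c := 2) (cn := .pnp) (n1 := ndB0q0) (n2 := ndB3q1) (pc := pcB2) (cut := Cut.none) (xt := Ext.none) (P1 := 0) (W1 := 536870912) (P2 := 536870912) (W2 := 536870912) (P3 := 587336777) (W3 := 62277027) (N0 := 3) (En := eng) (mo := mog) (C1 := cd0q0) (C2 := cd3q1) (C3 := pd2)
    rfl k0_mm_012

noncomputable def f_mm_022_a : ℕ → ℕ → ℕ → ℕ → Bool := onCell 0 536870912 0 536870912 587336777 62277027
    (rowB 3 eng mog cd0q0 cd3q2a pd2 0 true false false .pp 0 2 2 (qsf 0 536870912 0 536870912 2) ndB0q0 ndB3q2a pcB2 Cut.none Ext.none)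

def k0_mm_022_a : ∃ t, chk3 f_mm_022_a t 1 1 1 = true :=
  ⟨(l 5), by decide +kernel⟩

theorem c_mm_022_a : CertB 0 536870912 0 536870912 587336777 62277027 3 eng mog cd0q0 cd3q2a pd2 true false false .pp 0 2 2
    ndB0q0 ndB3q2a pcB2 Cut.none Ext.none :=
  certB0 (fam := true) (s1 := false) (s2 := false) (a := 0) (b := 2) (c := 2) (cn := .pp) (n1 := ndB0q0) (n2 := ndB3q2a) (pc := pcB2) (cut := Cut.none) (xt := Ext.none) (P1 := 0) (W1 := 536870912) (P2 := 0) (W2 := 536870912) (P3 := 587336777) (W3 := 62277027) (N0 := 3) (En := eng) (mo := mog) (C1 := cd0q0) (C2 := cd3q2a) (C3 := pd2)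
    rfl k0_mm_022_a

noncomputable def f_mm_022_b : ℕ → ℕ → ℕ → ℕ → Bool := onCell 0 536870912 1239849684 370763052 587336777 62277027
    (rowB 3 eng mog cd0q0 cd3q2b pd2 0 true false false .pp 0 2 2 (qsf 0 536870912 1239849684 370763052 2) ndB0q0 ndB3q2b pcB2 Cut.none Ext.none)

def k0_mm_022_b : ∃ t, chk3 f_mm_022_b t 1 1 1 = true :=
  ⟨(l 5), by decide +kernel⟩

theorem c_mm_022_b : CertB 0 536870912 1239849684 370763052 587336777 62277027 3 eng mog cd0q0 cd3q2b pd2 true false false .pp 0 2 2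
    ndB0q0 ndB3q2b pcB2 Cut.none Ext.none :=
  certB0 (fam := true) (s1 := false) (s2 := false) (a := 0) (b := 2) (c := 2) (cn := .pp) (n1 := ndB0q0) (n2 := ndB3q2b) (pc := pcB2) (cut := Cut.none) (xt := Ext.none) (P1 := 0) (W1 := 536870912) (P2 := 1239849684) (W2 := 370763052) (P3 := 587336777) (W3 := 62277027) (N0 := 3) (En := eng) (mo := mog) (C1 := cd0q0) (C2 := cd3q2b) (C3 := pd2)
    rfl k0_mm_022_b

noncomputable def f_mm_023_a : ℕ → ℕ → ℕ → ℕ → Bool := onCell 0 536870912 0 536870912 587336777 62277027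
    (rowB 3 eng mog cd0q0 cd3q2a pd3 0 true false false .up 0 2 3 (qsf 0 536870912 0 536870912 3) ndB0q0 ndB3q2a pcB3 Cut.none Ext.none)

def k0_mm_023_a : ∃ t, chk3 f_mm_023_a t 1 1 1 = true :=
  ⟨(l 5), by decide +kernel⟩

theorem c_mm_023_a : CertB 0 536870912 0 536870912 587336777 62277027 3 eng mog cd0q0 cd3q2a pd3 true false false .up 0 2 3
    ndB0q0 ndB3q2a pcB3 Cut.none Ext.none :=
  certB0 (fam := true) (s1 := false) (s2 := false) (a := 0) (b := 2) (c := 3) (cn := .up) (n1 := ndB0q0) (n2 := ndB3q2a) (pc := pcB3) (cut := Cut.none) (xt := Ext.none) (P1 := 0) (W1 := 536870912) (P2 := 0) (W2 := 536870912) (P3 := 587336777) (W3 := 62277027) (N0 := 3) (En := eng) (mo := mog) (C1 := cd0q0) (C2 := cd3q2a) (C3 := pd3)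
    rfl k0_mm_023_a

noncomputable def f_mm_023_b : ℕ → ℕ → ℕ → ℕ → Bool := onCell 0 536870912 1239849684 370763052 587336777 62277027
    (rowB 3 eng mog cd0q0 cd3q2b pd3 0 true false false .up 0 2 3 (qsf 0 536870912 1239849684 370763052 3) ndB0q0 ndB3q2b pcB3 Cut.none Ext.none)

def k0_mm_023_b : ∃ t, chk3 f_mm_023_b t 1 1 1 = true :=
  ⟨(l 5), by decide +kernel⟩

theorem c_mm_023_b : CertB 0 536870912 1239849684 370763052 587336777 62277027 3 eng mog cd0q0 cd3q2b pd3 true false false .up 0 2 3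
    ndB0q0 ndB3q2b pcB3 Cut.none Ext.none :=
  certB0 (fam := true) (s1 := false) (s2 := false) (a := 0) (b := 2) (c := 3) (cn := .up) (n1 := ndB0q0) (n2 := ndB3q2b) (pc := pcB3) (cut := Cut.none) (xt := Ext.none) (P1 := 0) (W1 := 536870912) (P2 := 1239849684) (W2 := 370763052) (P3 := 587336777) (W3 := 62277027) (N0 := 3) (En := eng) (mo := mog) (C1 := cd0q0) (C2 := cd3q2b) (C3 := pd3)
    rfl k0_mm_023_b

noncomputable def f_mm_033 : ℕ → ℕ → ℕ → ℕ → Bool := onCell 0 536870912 1610612736 536870912 587336777 62277027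
    (rowB 3 eng mog cd0q0 cd3q3 pd3 0 true false false .pnn 0 3 3 (qsf 0 536870912 1610612736 536870912 3) ndB0q0 ndB3q3 pcB3 Cut.none Ext.none)

def k0_mm_033 : ∃ t, chk3 f_mm_033 t 1 1 1 = true :=
  ⟨(l 5), by decide +kernel⟩

theorem c_mm_033 : CertB 0 536870912 1610612736 536870912 587336777 62277027 3 eng mog cd0q0 cd3q3 pd3 true false false .pnn 0 3 3
    ndB0q0 ndB3q3 pcB3 Cut.none Ext.none :=
  certB0 (fam := true) (s1 := false) (s2 := false) (a := 0) (b := 3) (c := 3) (cn := .pnn) (n1 := ndB0q0) (n2 := ndB3q3) (pc := pcB3) (cut := Cut.none) (xt := Ext.none) (P1 := 0) (W1 := 536870912) (P2 := 1610612736) (W2 := 536870912) (P3 := 587336777) (W3 := 62277027) (N0 := 3) (En := eng) (mo := mog) (C1 := cd0q0) (C2 := cd3q3) (C3 := pd3)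
    rfl k0_mm_033

noncomputable def cut_mm_101 : Cut := Cut.of [[⟨0, 1, 0, 67108864⟩, ⟨1, 0, 0, 67108864⟩, ⟨2, 1, 0, 67108864⟩]]

noncomputable def f_mm_101 : ℕ → ℕ → ℕ → ℕ → Bool := onCell 536870912 536870912 0 536870912 587336777 62277027
    (rowB 3 eng mog cd0q1 cd3q0 pd1 0 true false false .npn 1 0 1 (qsf 536870912 536870912 0 536870912 1) ndB0q1 ndB3q0 pcB1 cut_mm_101 Ext.none)

def k0_mm_101 : ∃ t, chk3 f_mm_101 t 1 1 1 = true :=
  ⟨(a (l 4) (b (a (l 4) (b (a (l 4) (b (a (l 4) (b (l 6) (l 4))) (l 4))) (l 4))) (l 4))), by decide +kernel⟩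

theorem c_mm_101 : CertB 536870912 536870912 0 536870912 587336777 62277027 3 eng mog cd0q1 cd3q0 pd1 true false false .npn 1 0 1
    ndB0q1 ndB3q0 pcB1 cut_mm_101 Ext.none :=
  certB0 (fam := true) (s1 := false) (s2 := false) (a := 1) (b := 0) (c := 1) (cn := .npn) (n1 := ndB0q1) (n2 := ndB3q0) (pc := pcB1) (cut := cut_mm_101) (xt := Ext.none) (P1 := 536870912) (W1 := 536870912) (P2 := 0) (W2 := 536870912) (P3 := 587336777) (W3 := 62277027) (N0 := 3) (En := eng) (mo := mog) (C1 := cd0q1) (C2 := cd3q0) (C3 := pd1)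
    rfl k0_mm_101

noncomputable def cut_mm_102 : Cut := Cut.of [[⟨0, 1, 0, 67108864⟩, ⟨1, 0, 0, 67108864⟩, ⟨2, 1, 0, 67108864⟩]]

noncomputable def f_mm_102 : ℕ → ℕ → ℕ → ℕ → Bool := onCell 536870912 536870912 0 536870912 587336777 62277027
    (rowB 3 eng mog cd0q1 cd3q0 pd2 0 true false false .npp 1 0 2 (qsf 536870912 536870912 0 536870912 2) ndB0q1 ndB3q0 pcB2 cut_mm_102 Ext.none)

def k0_mm_102 : ∃ t, chk3 f_mm_102 t 1 1 1 = true :=
  ⟨(a (l 4) (b (a (l 4) (b (a (l 4) (a (l 4) (b (b (l 6) (l 4)) (l 4)))) (l 4))) (l 4))), by decide +kernel⟩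

theorem c_mm_102 : CertB 536870912 536870912 0 536870912 587336777 62277027 3 eng mog cd0q1 cd3q0 pd2 true false false .npp 1 0 2
    ndB0q1 ndB3q0 pcB2 cut_mm_102 Ext.none :=
  certB0 (fam := true) (s1 := false) (s2 := false) (a := 1) (b := 0) (c := 2) (cn := .npp) (n1 := ndB0q1) (n2 := ndB3q0) (pc := pcB2) (cut := cut_mm_102) (xt := Ext.none) (P1 := 536870912) (W1 := 536870912) (P2 := 0) (W2 := 536870912) (P3 := 587336777) (W3 := 62277027) (N0 := 3) (En := eng) (mo := mog) (C1 := cd0q1) (C2 := cd3q0) (C3 := pd2)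
    rfl k0_mm_102

noncomputable def f_mm_112 : ℕ → ℕ → ℕ → ℕ → Bool := onCell 536870912 536870912 536870912 536870912 587336777 62277027
    (rowB 3 eng mog cd0q1 cd3q1 pd2 0 true false false .dn 1 1 2 (qsf 536870912 536870912 536870912 536870912 2) ndB0q1 ndB3q1 pcB2 Cut.none Ext.none)

def k0_mm_112 : ∃ t, chk3 f_mm_112 t 1 1 1 = true :=
  ⟨(l 4), by decide +kernel⟩

theorem c_mm_112 : CertB 536870912 536870912 536870912 536870912 587336777 62277027 3 eng mog cd0q1 cd3q1 pd2 true false false .dn 1 1 2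
    ndB0q1 ndB3q1 pcB2 Cut.none Ext.none :=
  certB0 (fam := true) (s1 := false) (s2 := false) (a := 1) (b := 1) (c := 2) (cn := .dn) (n1 := ndB0q1) (n2 := ndB3q1) (pc := pcB2) (cut := Cut.none) (xt := Ext.none) (P1 := 536870912) (W1 := 536870912) (P2 := 536870912) (W2 := 536870912) (P3 := 587336777) (W3 := 62277027) (N0 := 3) (En := eng) (mo := mog) (C1 := cd0q1) (C2 := cd3q1) (C3 := pd2)
    rfl k0_mm_112

noncomputable def f_mm_113 : ℕ → ℕ → ℕ → ℕ → Bool := onCell 536870912 536870912 536870912 536870912 587336777 62277027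
    (rowB 3 eng mog cd0q1 cd3q1 pd3 0 true false false .nn 1 1 3 (qsf 536870912 536870912 536870912 536870912 3) ndB0q1 ndB3q1 pcB3 Cut.none Ext.none)

def k0_mm_113 : ∃ t, chk3 f_mm_113 t 1 1 1 = true :=
  ⟨(l 4), by decide +kernel⟩

theorem c_mm_113 : CertB 536870912 536870912 536870912 536870912 587336777 62277027 3 eng mog cd0q1 cd3q1 pd3 true false false .nn 1 1 3
    ndB0q1 ndB3q1 pcB3 Cut.none Ext.none :=
  certB0 (fam := true) (s1 := false) (s2 := false) (a := 1) (b := 1) (c := 3) (cn := .nn) (n1 := ndB0q1) (n2 := ndB3q1) (pc := pcB3) (cut := Cut.none) (xt := Ext.none) (P1 := 536870912) (W1 := 536870912) (P2 := 536870912) (W2 := 536870912) (P3 := 587336777) (W3 := 62277027) (N0 := 3) (En := eng) (mo := mog) (C1 := cd0q1) (C2 := cd3q1) (C3 := pd3)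
    rfl k0_mm_113

noncomputable def f_mm_123_a : ℕ → ℕ → ℕ → ℕ → Bool := onCell 536870912 536870912 0 536870912 587336777 62277027
    (rowB 3 eng mog cd0q1 cd3q2a pd3 0 true false false .npn 1 2 3 (qsf 536870912 536870912 0 536870912 3) ndB0q1 ndB3q2a pcB3 Cut.none Ext.none)

def k0_mm_123_a : ∃ t, chk3 f_mm_123_a t 1 1 1 = true :=
  ⟨(l 4), by decide +kernel⟩

theorem c_mm_123_a : CertB 536870912 536870912 0 536870912 587336777 62277027 3 eng mog cd0q1 cd3q2a pd3 true false false .npn 1 2 3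
    ndB0q1 ndB3q2a pcB3 Cut.none Ext.none :=
  certB0 (fam := true) (s1 := false) (s2 := false) (a := 1) (b := 2) (c := 3) (cn := .npn) (n1 := ndB0q1) (n2 := ndB3q2a) (pc := pcB3) (cut := Cut.none) (xt := Ext.none) (P1 := 536870912) (W1 := 536870912) (P2 := 0) (W2 := 536870912) (P3 := 587336777) (W3 := 62277027) (N0 := 3) (En := eng) (mo := mog) (C1 := cd0q1) (C2 := cd3q2a) (C3 := pd3)
    rfl k0_mm_123_a

noncomputable def f_mm_123_b : ℕ → ℕ → ℕ → ℕ → Bool := onCell 536870912 536870912 1239849684 370763052 587336777 62277027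
    (rowB 3 eng mog cd0q1 cd3q2b pd3 0 true false false .npn 1 2 3 (qsf 536870912 536870912 1239849684 370763052 3) ndB0q1 ndB3q2b pcB3 Cut.none Ext.none)

def k0_mm_123_b : ∃ t, chk3 f_mm_123_b t 1 1 1 = true :=
  ⟨(l 5), by decide +kernel⟩

theorem c_mm_123_b : CertB 536870912 536870912 1239849684 370763052 587336777 62277027 3 eng mog cd0q1 cd3q2b pd3 true false false .npn 1 2 3
    ndB0q1 ndB3q2b pcB3 Cut.none Ext.none :=
  certB0 (fam := true) (s1 := false) (s2 := false) (a := 1) (b := 2) (c := 3) (cn := .npn) (n1 := ndB0q1) (n2 := ndB3q2b) (pc := pcB3) (cut := Cut.none) (xt := Ext.none) (P1 := 536870912) (W1 := 536870912) (P2 := 1239849684) (W2 := 370763052) (P3 := 587336777) (W3 := 62277027) (N0 := 3) (En := eng) (mo := mog) (C1 := cd0q1) (C2 := cd3q2b) (C3 := pd3)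
    rfl k0_mm_123_b

noncomputable def f_mm_133 : ℕ → ℕ → ℕ → ℕ → Bool := onCell 536870912 536870912 1610612736 536870912 587336777 62277027
    (rowB 3 eng mog cd0q1 cd3q3 pd3 0 true false false .dn 1 3 3 (qsf 536870912 536870912 1610612736 536870912 3) ndB0q1 ndB3q3 pcB3 Cut.none Ext.none)

def k0_mm_133 : ∃ t, chk3 f_mm_133 t 1 1 1 = true :=
  ⟨(l 4), by decide +kernel⟩

theorem c_mm_133 : CertB 536870912 536870912 1610612736 536870912 587336777 62277027 3 eng mog cd0q1 cd3q3 pd3 true false false .dn 1 3 3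
    ndB0q1 ndB3q3 pcB3 Cut.none Ext.none :=
  certB0 (fam := true) (s1 := false) (s2 := false) (a := 1) (b := 3) (c := 3) (cn := .dn) (n1 := ndB0q1) (n2 := ndB3q3) (pc := pcB3) (cut := Cut.none) (xt := Ext.none) (P1 := 536870912) (W1 := 536870912) (P2 := 1610612736) (W2 := 536870912) (P3 := 587336777) (W3 := 62277027) (N0 := 3) (En := eng) (mo := mog) (C1 := cd0q1) (C2 := cd3q3) (C3 := pd3)
    rfl k0_mm_133

noncomputable def cut_mm_202 : Cut := Cut.of [[⟨0, 1, 0, 67108864⟩, ⟨1, 0, 0, 67108864⟩, ⟨2, 1, 0, 67108864⟩]]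

noncomputable def f_mm_202 : ℕ → ℕ → ℕ → ℕ → Bool := onCell 0 536870912 0 536870912 587336777 62277027
    (rowB 3 eng mog cd0q2 cd3q0 pd2 0 true false false .pp 2 0 2 (qsf 0 536870912 0 536870912 2) ndB0q2 ndB3q0 pcB2 cut_mm_202 Ext.none)

def k0_mm_202 : ∃ t, chk3 f_mm_202 t 2 2 1 = true :=
  ⟨(b (a (b (b (a (b (l 16499192) (l 16463656)) (b (a (l 16463608) (l 16470936)) (a (l 16471224) (l 16458192)))) (a (l 16474056) (a (l 16483792) (l 16555680)))) (a (b (l 16490336) (l 16508376)) (b (l 16507104) (l 16527616)))) (b (a (b (b (a (b (l 16499592) (l 16482528)) (a (l 16489208) (l 16495880))) (a (b (l 16486848) (l 16491528)) (a (l 16498064) (l 16504896)))) (a (l 16503832) (b (l 16511744) (l 16522488)))) (b (b (a (a (a (l 16501304) (l 16505152)) (b (l 16509192) (l 16513480))) (b (b (a (l 16537856) (a (l 16502696) (c (l 16528528) (l 16506632)))) (c (l 16524136) (l 16544736))) (a (l 16522288) (l 16531816)))) (a (a (l 16512416) (l 16520648)) (b (l 16531888) (l 16537064)))) (a (b (b (l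 16524432) (l 16530032)) (l 16538664)) (b (b (l 16542568) (l 16548368)) (l 16578464))))) (a (b (a (l 16524648) (l 16539312)) (l 16554976)) (b (a (l 16556544) (l 16576440)) (a (l 16581432) (l 16602752)))))) (a (b (a (b (l 16531112) (l 16560632)) (b (l 16551968) (l 16603464))) (a (l 16595552) (l 16623864))) (b (a (b (l 16581208) (l 16612912)) (b (l 16683568) (l 16695248))) (a (b (l 16685696) (l 16715208)) (b (l 16705272) (l 16712808)))))), by decide +kernel⟩

def k1_mm_202 : ∃ t, chk3 f_mm_202 t 6 4 1 = true :=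
  ⟨(b (b (a (b (a (b (a (c (b (b (l 16535264) (l 16536616)) (l 16538592)) (b (a (a (l 16510064) (l 16533376)) (l 16536952)) (l 16537952))) (b (a (c (l 16522640) (l 16541816)) (c (l 16548920) (l 16546816))) (c (l 16549168) (l 16547904)))) (a (l 16542088) (l 16553128))) (b (a (b (a (c (l 16554360) (l 16551952)) (a (l 16557368) (l 16560112))) (c (l 16560272) (l 16558392))) (b (c (l 16568600) (a (l 16562640) (l 16568208))) (c (l 16571944) (l 16569440)))) (a (l 16564512) (l 16565712)))) (a (a (l 16549648) (l 16560808)) (a (l 16572744) (l 16585456)))) (b (a (b (a (b (a (l 16575864) (l 16581872)) (l 16582784)) (b (c (l 16593208) (l 16588992)) (l 16595352))) (a (l 16588464) (l 16601368))) (b (a (b (c (l 16606448) (l 16601816)) (l 16608592)) (b (c (l 16620392) (l 16615504)) (l 16622608))) (a (l 16625424) (l 16629264)))) (a (b (l 16581496) (l 16608944)) (b (l 16630488) (l 16638496))))) (a (a (b (a (l 16560912) (l 16572256)) (b (l 16575880) (l 16582352))) (b (l 16590832) (a (l 16597136)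 (l 16610200)))) (b (a (l 16618096) (l 16648200)) (a (l 16631320) (l 16661760))))) (a (b (a (l 16641016) (b (b (l 16613928) (l 16620960)) (l 16631672))) (a (l 16626792) (l 16653600))) (b (a (b (b (l 16641856) (l 16649112)) (l 16723176)) (b (l 16676272) (l 16691512))) (a (l 16787800) (b (l 16707064) (l 4)))))), by decide +kernel⟩

def k2_mm_202 : ∃ t, chk3 f_mm_202 t 7 4 1 = true :=
  ⟨(b (a (b (b (a (b (a (b (c (l 16635144) (l 16630192)) (l 16637504)) (b (a (l 16644384) (l 16652472)) (l 16653352))) (a (l 16644440) (l 16671032))) (a (b (b (l 6) (l 16680720)) (b (l 16675216) (l 16680096))) (a (b (l 6) (l 16691192)) (l 6)))) (b (a (a (l 16653360) (l 16669808)) (a (l 16687240) (l 16705736))) (a (l 16670336) (a (l 16696416) (l 16714008))))) (b (a (l 16712104) (a (l 16706088) (l 16723888))) (a (l 16694496) (a (l 16720496) (l 16739216))))) (b (a (b (l 6) (b (l 6) (a (l 16731944) (l 6)))) (l 6)) (a (b (a (b (l 16738928) (l 4)) (l 4)) (l 4)) (l 4)))) (a (a (b (b (l 16709600) (l 16725424))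 (l 4)) (l 4)) (l 4))), by decide +kernel⟩

def k3_mm_202 : ∃ t, chk3 f_mm_202 t 3 5 1 = true :=
  ⟨(a (b (a (b (a (l 16656992) (l 16705328)) (l 16703136)) (l 4)) (l 4)) (l 4)), by decide +kernel⟩

def k4_mm_202 : ∃ t, chk3 f_mm_202 t 1 3 1 = true :=
  ⟨(a (b (a (b (a (l 16649248) (b (l 16668024) (l 16698088))) (a (b (l 16697944) (l 16728648)) (b (l 16725472) (l 4)))) (b (a (b (l 16701424) (l 4)) (l 4)) (l 4))) (a (l 2) (l 4))) (l 4)), by decide +kernel⟩

theorem s5_mm_202 : ∃ t, chk3 f_mm_202 t 3 4 1 = true := ex3_a k1_mm_202 k2_mm_202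

theorem s6_mm_202 : ∃ t, chk3 f_mm_202 t 3 2 1 = true := ex3_b s5_mm_202 k3_mm_202

theorem s7_mm_202 : ∃ t, chk3 f_mm_202 t 1 2 1 = true := ex3_a k0_mm_202 s6_mm_202

theorem s8_mm_202 : ∃ t, chk3 f_mm_202 t 1 1 1 = true := ex3_b s7_mm_202 k4_mm_202

theorem c_mm_202 : CertB 0 536870912 0 536870912 587336777 62277027 3 eng mog cd0q2 cd3q0 pd2 true false false .pp 2 0 2
    ndB0q2 ndB3q0 pcB2 cut_mm_202 Ext.none :=
  certB0 (fam := true) (s1 := false) (s2 := false) (a := 2) (b := 0) (c := 2) (cn := .pp) (n1 := ndB0q2) (n2 := ndB3q0) (pc := pcB2) (cut := cut_mm_202) (xt := Ext.none) (P1 := 0) (W1 := 536870912) (P2 := 0) (W2 := 536870912) (P3 := 587336777) (W3 := 62277027) (N0 := 3) (En := eng) (mo := mog) (C1 := cd0q2) (C2 := cd3q0) (C3 := pd2)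
    rfl s8_mm_202

noncomputable def f_mm_203 : ℕ → ℕ → ℕ → ℕ → Bool := onCell 0 536870912 1610612736 536870912 587336777 62277027
    (rowB 3 eng mog cd0q2 cd3q0 pd3 1 true false false .up 2 0 3 (qsf 0 536870912 0 536870912 3) ndB0q2 ndB3q0 pcB3 Cut.none Ext.none)

def k0_mm_203 : ∃ t, chk3 f_mm_203 t 1 1 1 = true :=
  ⟨(b (a (b (a (b (a (b (l 16730920) (l 16757608)) (l 4)) (l 4)) (l 4)) (l 4)) (l 4)) (l 2)), by decide +kernel⟩

theorem c_mm_203 : CertB 0 536870912 0 536870912 587336777 62277027 3 eng mog cd0q2 cd3q0 pd3 true false false .up 2 0 3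
    ndB0q2 ndB3q0 pcB3 Cut.none Ext.none :=
  certB1 (fam := true) (s1 := false) (s2 := false) (a := 2) (b := 0) (c := 3) (cn := .up) (n1 := ndB0q2) (n2 := ndB3q0) (pc := pcB3) (cut := Cut.none) (xt := Ext.none) (P1 := 0) (W1 := 536870912) (P2 := 0) (W2 := 536870912) (P3 := 587336777) (W3 := 62277027) (N0 := 3) (En := eng) (mo := mog) (C1 := cd0q2) (C2 := cd3q0) (C3 := pd3)
    rfl (fun _ => rfl) k0_mm_203

noncomputable def f_mm_213 : ℕ → ℕ → ℕ → ℕ → Bool := onCell 0 536870912 536870912 536870912 587336777 62277027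
    (rowB 3 eng mog cd0q2 cd3q1 pd3 0 true false false .pnn 2 1 3 (qsf 0 536870912 536870912 536870912 3) ndB0q2 ndB3q1 pcB3 Cut.none Ext.none)

def k0_mm_213 : ∃ t, chk3 f_mm_213 t 1 1 1 = true :=
  ⟨(l 4), by decide +kernel⟩

theorem c_mm_213 : CertB 0 536870912 536870912 536870912 587336777 62277027 3 eng mog cd0q2 cd3q1 pd3 true false false .pnn 2 1 3
    ndB0q2 ndB3q1 pcB3 Cut.none Ext.none :=
  certB0 (fam := true) (s1 := false) (s2 := false) (a := 2) (b := 1) (c := 3) (cn := .pnn) (n1 := ndB0q2) (n2 := ndB3q1) (pc := pcB3) (cut := Cut.none) (xt := Ext.none) (P1 := 0) (W1 := 536870912) (P2 := 536870912) (W2 := 536870912) (P3 := 587336777) (W3 := 62277027) (N0 := 3) (En := eng) (mo := mog) (C1 := cd0q2) (C2 := cd3q1) (C3 := pd3)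
    rfl k0_mm_213

end Pool.Agent.Strip051.G.I5470_6050.Tab.C.BA03

namespace Pool.Agent.Strip051.G.I5470_6050.Tab.C.BA04

open Pool.Agent.Strip051.PB Pool.Agent.Strip051.PB.T
open Pool.Agent.Strip051.G.I5470_6050.Tab

noncomputable def f_pp_001 : ℕ → ℕ → ℕ → ℕ → Bool := onCell 0 536870912 0 536870912 587336777 62277027
    (rowB 3 eng mog cd0q0 cd4q0 pd1 0 true true true .up 0 0 1 (qsf 0 536870912 0 536870912 1) ndB0q0 ndB4q0 pcB1 Cut.none Ext.none)

def k0_pp_001 : ∃ t, chk3 f_pp_001 t 1 1 1 = true :=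
  ⟨(l 4), by decide +kernel⟩

theorem c_pp_001 : CertB 0 536870912 0 536870912 587336777 62277027 3 eng mog cd0q0 cd4q0 pd1 true true true .up 0 0 1
    ndB0q0 ndB4q0 pcB1 Cut.none Ext.none :=
  certB0 (fam := true) (s1 := true) (s2 := true) (a := 0) (b := 0) (c := 1) (cn := .up) (n1 := ndB0q0) (n2 := ndB4q0) (pc := pcB1) (cut := Cut.none) (xt := Ext.none) (P1 := 0) (W1 := 536870912) (P2 := 0) (W2 := 536870912) (P3 := 587336777) (W3 := 62277027) (N0 := 3) (En := eng) (mo := mog) (C1 := cd0q0) (C2 := cd4q0) (C3 := pd1)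
    rfl k0_pp_001

noncomputable def f_pp_011 : ℕ → ℕ → ℕ → ℕ → Bool := onCell 0 536870912 536870912 536870912 587336777 62277027
    (rowB 3 eng mog cd0q0 cd4q1 pd1 0 true true true .pnn 0 1 1 (qsf 0 536870912 536870912 536870912 1) ndB0q0 ndB4q1 pcB1 Cut.none Ext.none)

def k0_pp_011 : ∃ t, chk3 f_pp_011 t 1 1 1 = true :=
  ⟨(l 4), by decide +kernel⟩

theorem c_pp_011 : CertB 0 536870912 536870912 536870912 587336777 62277027 3 eng mog cd0q0 cd4q1 pd1 true true true .pnn 0 1 1
    ndB0q0 ndB4q1 pcB1 Cut.none Ext.none :=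
  certB0 (fam := true) (s1 := true) (s2 := true) (a := 0) (b := 1) (c := 1) (cn := .pnn) (n1 := ndB0q0) (n2 := ndB4q1) (pc := pcB1) (cut := Cut.none) (xt := Ext.none) (P1 := 0) (W1 := 536870912) (P2 := 536870912) (W2 := 536870912) (P3 := 587336777) (W3 := 62277027) (N0 := 3) (En := eng) (mo := mog) (C1 := cd0q0) (C2 := cd4q1) (C3 := pd1)
    rfl k0_pp_011

noncomputable def f_pp_012 : ℕ → ℕ → ℕ → ℕ → Bool := onCell 0 536870912 536870912 536870912 587336777 62277027
    (rowB 3 eng mog cd0q0 cd4q1 pd2 0 true true true .pnp 0 1 2 (qsf 0 536870912 536870912 536870912 2) ndB0q0 ndB4q1 pcB2 Cut.none Ext.none)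

def k0_pp_012 : ∃ t, chk3 f_pp_012 t 1 1 1 = true :=
  ⟨(l 4), by decide +kernel⟩

theorem c_pp_012 : CertB 0 536870912 536870912 536870912 587336777 62277027 3 eng mog cd0q0 cd4q1 pd2 true true true .pnp 0 1 2
    ndB0q0 ndB4q1 pcB2 Cut.none Ext.none :=
  certB0 (fam := true) (s1 := true) (s2 := true) (a := 0) (b := 1) (c := 2) (cn := .pnp) (n1 := ndB0q0) (n2 := ndB4q1) (pc := pcB2) (cut := Cut.none) (xt := Ext.none) (P1 := 0) (W1 := 536870912) (P2 := 536870912) (W2 := 536870912) (P3 := 587336777) (W3 := 62277027) (N0 := 3) (En := eng) (mo := mog) (C1 := cd0q0) (C2 := cd4q1) (C3 := pd2)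
    rfl k0_pp_012

noncomputable def cut_pp_022_a : Cut := Cut.of [[⟨0, 0, 0, 67108864⟩, ⟨1, 1, 0, 67108864⟩, ⟨2, 1, 0, 67108864⟩]]

noncomputable def f_pp_022_a : ℕ → ℕ → ℕ → ℕ → Bool := onCell 0 536870912 0 536870912 587336777 62277027
    (rowB 3 eng mog cd0q0 cd4q2a pd2 0 true true true .pp 0 2 2 (qsf 0 536870912 0 536870912 2) ndB0q0 ndB4q2a pcB2 cut_pp_022_a Ext.none)

def k0_pp_022_a : ∃ t, chk3 f_pp_022_a t 1 1 1 = true :=
  ⟨(a (a (b (a (b (a (a (b (b (l 16460048) (l 16462552)) (l 16471104)) (b (b (l 16473888) (l 16476496)) (l 16527136))) (b (a (l 16488560) (l 4)) (l 4))) (a (b (a (l 16490480) (l 4)) (l 4)) (l 4))) (l 4)) (a (b (l 4) (b (l 4) (a (b (l 4) (l 6)) (l 4)))) (l 4))) (l 4)) (l 4)), by decide +kernel⟩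

theorem c_pp_022_a : CertB 0 536870912 0 536870912 587336777 62277027 3 eng mog cd0q0 cd4q2a pd2 true true true .pp 0 2 2
    ndB0q0 ndB4q2a pcB2 cut_pp_022_a Ext.none :=
  certB0 (fam := true) (s1 := true) (s2 := true) (a := 0) (b := 2) (c := 2) (cn := .pp) (n1 := ndB0q0) (n2 := ndB4q2a) (pc := pcB2) (cut := cut_pp_022_a) (xt := Ext.none) (P1 := 0) (W1 := 536870912) (P2 := 0) (W2 := 536870912) (P3 := 587336777) (W3 := 62277027) (N0 := 3) (En := eng) (mo := mog) (C1 := cd0q0) (C2 := cd4q2a) (C3 := pd2)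
    rfl k0_pp_022_a

noncomputable def cut_pp_022_b : Cut := Cut.of [[⟨0, 0, 0, 67108864⟩, ⟨1, 1, 0, 67108864⟩, ⟨2, 1, 0, 67108864⟩]]

noncomputable def f_pp_022_b : ℕ → ℕ → ℕ → ℕ → Bool := onCell 0 536870912 1239849684 370763052 587336777 62277027
    (rowB 3 eng mog cd0q0 cd4q2b pd2 0 true true true .pp 0 2 2 (qsf 0 536870912 1239849684 370763052 2) ndB0q0 ndB4q2b pcB2 cut_pp_022_b Ext.none)

def k0_pp_022_b : ∃ t, chk3 f_pp_022_b t 1 1 1 = true :=
  ⟨(a (b (a (b (a (b (a (b (a (a (c (l 16521496) (l 16515512)) (l 16546088)) (c (l 16474952) (l 16490952))) (a (l 16436568) (l 16448888))) (b (a (b (l 16496248) (l 4)) (l 4)) (l 4))) (l 4)) (l 4)) (l 4)) (l 4)) (l 4)) (l 4)), by decide +kernel⟩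

theorem c_pp_022_b : CertB 0 536870912 1239849684 370763052 587336777 62277027 3 eng mog cd0q0 cd4q2b pd2 true true true .pp 0 2 2
    ndB0q0 ndB4q2b pcB2 cut_pp_022_b Ext.none :=
  certB0 (fam := true) (s1 := true) (s2 := true) (a := 0) (b := 2) (c := 2) (cn := .pp) (n1 := ndB0q0) (n2 := ndB4q2b) (pc := pcB2) (cut := cut_pp_022_b) (xt := Ext.none) (P1 := 0) (W1 := 536870912) (P2 := 1239849684) (W2 := 370763052) (P3 := 587336777) (W3 := 62277027) (N0 := 3) (En := eng) (mo := mog) (C1 := cd0q0) (C2 := cd4q2b) (C3 := pd2)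
    rfl k0_pp_022_b

noncomputable def f_pp_023_a : ℕ → ℕ → ℕ → ℕ → Bool := onCell 1610612736 536870912 0 536870912 587336777 62277027
    (rowB 3 eng mog cd0q0 cd4q2a pd3 2 true true true .up 0 2 3 (qsf 0 536870912 0 536870912 3) ndB0q0 ndB4q2a pcB3 Cut.none Ext.none)

def k0_pp_023_a : ∃ t, chk3 f_pp_023_a t 1 1 1 = true :=
  ⟨(l 4), by decide +kernel⟩

theorem c_pp_023_a : CertB 0 536870912 0 536870912 587336777 62277027 3 eng mog cd0q0 cd4q2a pd3 true true true .up 0 2 3
    ndB0q0 ndB4q2a pcB3 Cut.none Ext.none :=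
  certB2 (fam := true) (s1 := true) (s2 := true) (a := 0) (b := 2) (c := 3) (cn := .up) (n1 := ndB0q0) (n2 := ndB4q2a) (pc := pcB3) (cut := Cut.none) (xt := Ext.none) (P1 := 0) (W1 := 536870912) (P2 := 0) (W2 := 536870912) (P3 := 587336777) (W3 := 62277027) (N0 := 3) (En := eng) (mo := mog) (C1 := cd0q0) (C2 := cd4q2a) (C3 := pd3)
    rfl (fun _ => rfl) k0_pp_023_a

noncomputable def f_pp_023_b : ℕ → ℕ → ℕ → ℕ → Bool := onCell 1610612736 536870912 1239849684 370763052 587336777 62277027
    (rowB 3 eng mog cd0q0 cd4q2b pd3 2 true true true .up 0 2 3 (qsf 0 536870912 1239849684 370763052 3) ndB0q0 ndB4q2b pcB3 Cut.none Ext.none)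

def k0_pp_023_b : ∃ t, chk3 f_pp_023_b t 1 1 1 = true :=
  ⟨(l 4), by decide +kernel⟩

theorem c_pp_023_b : CertB 0 536870912 1239849684 370763052 587336777 62277027 3 eng mog cd0q0 cd4q2b pd3 true true true .up 0 2 3
    ndB0q0 ndB4q2b pcB3 Cut.none Ext.none :=
  certB2 (fam := true) (s1 := true) (s2 := true) (a := 0) (b := 2) (c := 3) (cn := .up) (n1 := ndB0q0) (n2 := ndB4q2b) (pc := pcB3) (cut := Cut.none) (xt := Ext.none) (P1 := 0) (W1 := 536870912) (P2 := 1239849684) (W2 := 370763052) (P3 := 587336777) (W3 := 62277027) (N0 := 3) (En := eng) (mo := mog) (C1 := cd0q0) (C2 := cd4q2b) (C3 := pd3)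
    rfl (fun _ => rfl) k0_pp_023_b

noncomputable def f_pp_033 : ℕ → ℕ → ℕ → ℕ → Bool := onCell 0 536870912 1610612736 536870912 587336777 62277027
    (rowB 3 eng mog cd0q0 cd4q3 pd3 0 true true true .pnn 0 3 3 (qsf 0 536870912 1610612736 536870912 3) ndB0q0 ndB4q3 pcB3 Cut.none Ext.none)

def k0_pp_033 : ∃ t, chk3 f_pp_033 t 1 1 1 = true :=
  ⟨(l 4), by decide +kernel⟩

theorem c_pp_033 : CertB 0 536870912 1610612736 536870912 587336777 62277027 3 eng mog cd0q0 cd4q3 pd3 true true true .pnn 0 3 3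
    ndB0q0 ndB4q3 pcB3 Cut.none Ext.none :=
  certB0 (fam := true) (s1 := true) (s2 := true) (a := 0) (b := 3) (c := 3) (cn := .pnn) (n1 := ndB0q0) (n2 := ndB4q3) (pc := pcB3) (cut := Cut.none) (xt := Ext.none) (P1 := 0) (W1 := 536870912) (P2 := 1610612736) (W2 := 536870912) (P3 := 587336777) (W3 := 62277027) (N0 := 3) (En := eng) (mo := mog) (C1 := cd0q0) (C2 := cd4q3) (C3 := pd3)
    rfl k0_pp_033

noncomputable def f_pp_101 : ℕ → ℕ → ℕ → ℕ → Bool := onCell 536870912 536870912 0 536870912 587336777 62277027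
    (rowB 3 eng mog cd0q1 cd4q0 pd1 0 true true true .npn 1 0 1 (qsf 536870912 536870912 0 536870912 1) ndB0q1 ndB4q0 pcB1 Cut.none Ext.none)

def k0_pp_101 : ∃ t, chk3 f_pp_101 t 1 1 1 = true :=
  ⟨(l 5), by decide +kernel⟩

theorem c_pp_101 : CertB 536870912 536870912 0 536870912 587336777 62277027 3 eng mog cd0q1 cd4q0 pd1 true true true .npn 1 0 1
    ndB0q1 ndB4q0 pcB1 Cut.none Ext.none :=
  certB0 (fam := true) (s1 := true) (s2 := true) (a := 1) (b := 0) (c := 1) (cn := .npn) (n1 := ndB0q1) (n2 := ndB4q0) (pc := pcB1) (cut := Cut.none) (xt := Ext.none) (P1 := 536870912) (W1 := 536870912) (P2 := 0) (W2 := 536870912) (P3 := 587336777) (W3 := 62277027) (N0 := 3) (En := eng) (mo := mog) (C1 := cd0q1) (C2 := cd4q0) (C3 := pd1)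
    rfl k0_pp_101

noncomputable def f_pp_102 : ℕ → ℕ → ℕ → ℕ → Bool := onCell 536870912 536870912 0 536870912 587336777 62277027
    (rowB 3 eng mog cd0q1 cd4q0 pd2 0 true true true .npp 1 0 2 (qsf 536870912 536870912 0 536870912 2) ndB0q1 ndB4q0 pcB2 Cut.none Ext.none)

def k0_pp_102 : ∃ t, chk3 f_pp_102 t 1 1 1 = true :=
  ⟨(l 5), by decide +kernel⟩

theorem c_pp_102 : CertB 536870912 536870912 0 536870912 587336777 62277027 3 eng mog cd0q1 cd4q0 pd2 true true true .npp 1 0 2
    ndB0q1 ndB4q0 pcB2 Cut.none Ext.none :=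
  certB0 (fam := true) (s1 := true) (s2 := true) (a := 1) (b := 0) (c := 2) (cn := .npp) (n1 := ndB0q1) (n2 := ndB4q0) (pc := pcB2) (cut := Cut.none) (xt := Ext.none) (P1 := 536870912) (W1 := 536870912) (P2 := 0) (W2 := 536870912) (P3 := 587336777) (W3 := 62277027) (N0 := 3) (En := eng) (mo := mog) (C1 := cd0q1) (C2 := cd4q0) (C3 := pd2)
    rfl k0_pp_102

noncomputable def f_pp_112 : ℕ → ℕ → ℕ → ℕ → Bool := onCell 536870912 536870912 536870912 536870912 587336777 62277027
    (rowB 3 eng mog cd0q1 cd4q1 pd2 0 true true true .dn 1 1 2 (qsf 536870912 536870912 536870912 536870912 2) ndB0q1 ndB4q1 pcB2 Cut.none Ext.none)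

def k0_pp_112 : ∃ t, chk3 f_pp_112 t 1 1 1 = true :=
  ⟨(l 4), by decide +kernel⟩

theorem c_pp_112 : CertB 536870912 536870912 536870912 536870912 587336777 62277027 3 eng mog cd0q1 cd4q1 pd2 true true true .dn 1 1 2
    ndB0q1 ndB4q1 pcB2 Cut.none Ext.none :=
  certB0 (fam := true) (s1 := true) (s2 := true) (a := 1) (b := 1) (c := 2) (cn := .dn) (n1 := ndB0q1) (n2 := ndB4q1) (pc := pcB2) (cut := Cut.none) (xt := Ext.none) (P1 := 536870912) (W1 := 536870912) (P2 := 536870912) (W2 := 536870912) (P3 := 587336777) (W3 := 62277027) (N0 := 3) (En := eng) (mo := mog) (C1 := cd0q1) (C2 := cd4q1) (C3 := pd2)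
    rfl k0_pp_112

noncomputable def f_pp_113 : ℕ → ℕ → ℕ → ℕ → Bool := onCell 536870912 536870912 536870912 536870912 587336777 62277027
    (rowB 3 eng mog cd0q1 cd4q1 pd3 0 true true true .nn 1 1 3 (qsf 536870912 536870912 536870912 536870912 3) ndB0q1 ndB4q1 pcB3 Cut.none Ext.none)

def k0_pp_113 : ∃ t, chk3 f_pp_113 t 1 1 1 = true :=
  ⟨(l 4), by decide +kernel⟩

theorem c_pp_113 : CertB 536870912 536870912 536870912 536870912 587336777 62277027 3 eng mog cd0q1 cd4q1 pd3 true true true .nn 1 1 3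
    ndB0q1 ndB4q1 pcB3 Cut.none Ext.none :=
  certB0 (fam := true) (s1 := true) (s2 := true) (a := 1) (b := 1) (c := 3) (cn := .nn) (n1 := ndB0q1) (n2 := ndB4q1) (pc := pcB3) (cut := Cut.none) (xt := Ext.none) (P1 := 536870912) (W1 := 536870912) (P2 := 536870912) (W2 := 536870912) (P3 := 587336777) (W3 := 62277027) (N0 := 3) (En := eng) (mo := mog) (C1 := cd0q1) (C2 := cd4q1) (C3 := pd3)
    rfl k0_pp_113

noncomputable def f_pp_123_a : ℕ → ℕ → ℕ → ℕ → Bool := onCell 536870912 536870912 0 536870912 587336777 62277027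
    (rowB 3 eng mog cd0q1 cd4q2a pd3 0 true true true .npn 1 2 3 (qsf 536870912 536870912 0 536870912 3) ndB0q1 ndB4q2a pcB3 Cut.none Ext.none)

def k0_pp_123_a : ∃ t, chk3 f_pp_123_a t 1 1 1 = true :=
  ⟨(l 4), by decide +kernel⟩

theorem c_pp_123_a : CertB 536870912 536870912 0 536870912 587336777 62277027 3 eng mog cd0q1 cd4q2a pd3 true true true .npn 1 2 3
    ndB0q1 ndB4q2a pcB3 Cut.none Ext.none :=
  certB0 (fam := true) (s1 := true) (s2 := true) (a := 1) (b := 2) (c := 3) (cn := .npn) (n1 := ndB0q1) (n2 := ndB4q2a) (pc := pcB3) (cut := Cut.none) (xt := Ext.none) (P1 := 536870912) (W1 := 536870912) (P2 := 0) (W2 := 536870912) (P3 := 587336777) (W3 := 62277027) (N0 := 3) (En := eng) (mo := mog) (C1 := cd0q1) (C2 := cd4q2a) (C3 := pd3)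
    rfl k0_pp_123_a

noncomputable def f_pp_123_b : ℕ → ℕ → ℕ → ℕ → Bool := onCell 536870912 536870912 1239849684 370763052 587336777 62277027
    (rowB 3 eng mog cd0q1 cd4q2b pd3 0 true true true .npn 1 2 3 (qsf 536870912 536870912 1239849684 370763052 3) ndB0q1 ndB4q2b pcB3 Cut.none Ext.none)

def k0_pp_123_b : ∃ t, chk3 f_pp_123_b t 1 1 1 = true :=
  ⟨(l 4), by decide +kernel⟩

theorem c_pp_123_b : CertB 536870912 536870912 1239849684 370763052 587336777 62277027 3 eng mog cd0q1 cd4q2b pd3 true true true .npn 1 2 3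
    ndB0q1 ndB4q2b pcB3 Cut.none Ext.none :=
  certB0 (fam := true) (s1 := true) (s2 := true) (a := 1) (b := 2) (c := 3) (cn := .npn) (n1 := ndB0q1) (n2 := ndB4q2b) (pc := pcB3) (cut := Cut.none) (xt := Ext.none) (P1 := 536870912) (W1 := 536870912) (P2 := 1239849684) (W2 := 370763052) (P3 := 587336777) (W3 := 62277027) (N0 := 3) (En := eng) (mo := mog) (C1 := cd0q1) (C2 := cd4q2b) (C3 := pd3)
    rfl k0_pp_123_b

noncomputable def f_pp_133 : ℕ → ℕ → ℕ → ℕ → Bool := onCell 536870912 536870912 1610612736 536870912 587336777 62277027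
    (rowB 3 eng mog cd0q1 cd4q3 pd3 0 true true true .dn 1 3 3 (qsf 536870912 536870912 1610612736 536870912 3) ndB0q1 ndB4q3 pcB3 Cut.none Ext.none)

def k0_pp_133 : ∃ t, chk3 f_pp_133 t 1 1 1 = true :=
  ⟨(l 4), by decide +kernel⟩

theorem c_pp_133 : CertB 536870912 536870912 1610612736 536870912 587336777 62277027 3 eng mog cd0q1 cd4q3 pd3 true true true .dn 1 3 3
    ndB0q1 ndB4q3 pcB3 Cut.none Ext.none :=
  certB0 (fam := true) (s1 := true) (s2 := true) (a := 1) (b := 3) (c := 3) (cn := .dn) (n1 := ndB0q1) (n2 := ndB4q3) (pc := pcB3) (cut := Cut.none) (xt := Ext.none) (P1 := 536870912) (W1 := 536870912) (P2 := 1610612736) (W2 := 536870912) (P3 := 587336777) (W3 := 62277027) (N0 := 3) (En := eng) (mo := mog) (C1 := cd0q1) (C2 := cd4q3) (C3 := pd3)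
    rfl k0_pp_133

noncomputable def f_pp_202 : ℕ → ℕ → ℕ → ℕ → Bool := onCell 0 536870912 0 536870912 587336777 62277027
    (rowB 3 eng mog cd0q2 cd4q0 pd2 0 true true true .pp 2 0 2 (qsf 0 536870912 0 536870912 2) ndB0q2 ndB4q0 pcB2 Cut.none Ext.none)

def k0_pp_202 : ∃ t, chk3 f_pp_202 t 1 1 1 = true :=
  ⟨(l 5), by decide +kernel⟩

theorem c_pp_202 : CertB 0 536870912 0 536870912 587336777 62277027 3 eng mog cd0q2 cd4q0 pd2 true true true .pp 2 0 2
    ndB0q2 ndB4q0 pcB2 Cut.none Ext.none :=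
  certB0 (fam := true) (s1 := true) (s2 := true) (a := 2) (b := 0) (c := 2) (cn := .pp) (n1 := ndB0q2) (n2 := ndB4q0) (pc := pcB2) (cut := Cut.none) (xt := Ext.none) (P1 := 0) (W1 := 536870912) (P2 := 0) (W2 := 536870912) (P3 := 587336777) (W3 := 62277027) (N0 := 3) (En := eng) (mo := mog) (C1 := cd0q2) (C2 := cd4q0) (C3 := pd2)
    rfl k0_pp_202

noncomputable def f_pp_203 : ℕ → ℕ → ℕ → ℕ → Bool := onCell 0 536870912 0 536870912 587336777 62277027
    (rowB 3 eng mog cd0q2 cd4q0 pd3 0 true true true .up 2 0 3 (qsf 0 536870912 0 536870912 3) ndB0q2 ndB4q0 pcB3 Cut.none Ext.none)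

def k0_pp_203 : ∃ t, chk3 f_pp_203 t 1 1 1 = true :=
  ⟨(l 5), by decide +kernel⟩

theorem c_pp_203 : CertB 0 536870912 0 536870912 587336777 62277027 3 eng mog cd0q2 cd4q0 pd3 true true true .up 2 0 3
    ndB0q2 ndB4q0 pcB3 Cut.none Ext.none :=
  certB0 (fam := true) (s1 := true) (s2 := true) (a := 2) (b := 0) (c := 3) (cn := .up) (n1 := ndB0q2) (n2 := ndB4q0) (pc := pcB3) (cut := Cut.none) (xt := Ext.none) (P1 := 0) (W1 := 536870912) (P2 := 0) (W2 := 536870912) (P3 := 587336777) (W3 := 62277027) (N0 := 3) (En := eng) (mo := mog) (C1 := cd0q2) (C2 := cd4q0) (C3 := pd3)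
    rfl k0_pp_203

noncomputable def f_pp_213 : ℕ → ℕ → ℕ → ℕ → Bool := onCell 0 536870912 536870912 536870912 587336777 62277027
    (rowB 3 eng mog cd0q2 cd4q1 pd3 0 true true true .pnn 2 1 3 (qsf 0 536870912 536870912 536870912 3) ndB0q2 ndB4q1 pcB3 Cut.none Ext.none)

def k0_pp_213 : ∃ t, chk3 f_pp_213 t 1 1 1 = true :=
  ⟨(l 4), by decide +kernel⟩

theorem c_pp_213 : CertB 0 536870912 536870912 536870912 587336777 62277027 3 eng mog cd0q2 cd4q1 pd3 true true true .pnn 2 1 3
    ndB0q2 ndB4q1 pcB3 Cut.none Ext.none :=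
  certB0 (fam := true) (s1 := true) (s2 := true) (a := 2) (b := 1) (c := 3) (cn := .pnn) (n1 := ndB0q2) (n2 := ndB4q1) (pc := pcB3) (cut := Cut.none) (xt := Ext.none) (P1 := 0) (W1 := 536870912) (P2 := 536870912) (W2 := 536870912) (P3 := 587336777) (W3 := 62277027) (N0 := 3) (En := eng) (mo := mog) (C1 := cd0q2) (C2 := cd4q1) (C3 := pd3)
    rfl k0_pp_213

noncomputable def f_pm_001 : ℕ → ℕ → ℕ → ℕ → Bool := onCell 0 536870912 0 536870912 587336777 62277027
    (rowB 3 eng mog cd0q0 cd4q0 pd1 0 true true false .up 0 0 1 (qsf 0 536870912 0 536870912 1) ndB0q0 ndB4q0 pcB1 Cut.none Ext.none)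

def k0_pm_001 : ∃ t, chk3 f_pm_001 t 1 1 1 = true :=
  ⟨(a (l 3) (l 3)), by decide +kernel⟩

theorem c_pm_001 : CertB 0 536870912 0 536870912 587336777 62277027 3 eng mog cd0q0 cd4q0 pd1 true true false .up 0 0 1
    ndB0q0 ndB4q0 pcB1 Cut.none Ext.none :=
  certB0 (fam := true) (s1 := true) (s2 := false) (a := 0) (b := 0) (c := 1) (cn := .up) (n1 := ndB0q0) (n2 := ndB4q0) (pc := pcB1) (cut := Cut.none) (xt := Ext.none) (P1 := 0) (W1 := 536870912) (P2 := 0) (W2 := 536870912) (P3 := 587336777) (W3 := 62277027) (N0 := 3) (En := eng) (mo := mog) (C1 := cd0q0) (C2 := cd4q0) (C3 := pd1)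
    rfl k0_pm_001

noncomputable def f_pm_011 : ℕ → ℕ → ℕ → ℕ → Bool := onCell 536870912 536870912 536870912 536870912 587336777 62277027
    (rowB 3 eng mog cd0q0 cd4q1 pd1 2 true true false .pnn 0 1 1 (qsf 0 536870912 536870912 536870912 1) ndB0q0 ndB4q1 pcB1 Cut.none Ext.none)

def k0_pm_011 : ∃ t, chk3 f_pm_011 t 1 1 1 = true :=
  ⟨(l 3), by decide +kernel⟩

theorem c_pm_011 : CertB 0 536870912 536870912 536870912 587336777 62277027 3 eng mog cd0q0 cd4q1 pd1 true true false .pnn 0 1 1
    ndB0q0 ndB4q1 pcB1 Cut.none Ext.none :=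
  certB2 (fam := true) (s1 := true) (s2 := false) (a := 0) (b := 1) (c := 1) (cn := .pnn) (n1 := ndB0q0) (n2 := ndB4q1) (pc := pcB1) (cut := Cut.none) (xt := Ext.none) (P1 := 0) (W1 := 536870912) (P2 := 536870912) (W2 := 536870912) (P3 := 587336777) (W3 := 62277027) (N0 := 3) (En := eng) (mo := mog) (C1 := cd0q0) (C2 := cd4q1) (C3 := pd1)
    rfl (fun _ => rfl) k0_pm_011

end Pool.Agent.Strip051.G.I5470_6050.Tab.C.BA04

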