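import Pool.Agent.Strip051.G.I5470_6050.Tab
import Pool.Agent.Strip051.PB.ExtD2

/-! # Certificates B9 (generated) -/

set_option linter.all false
set_option maxRecDepth 100000

namespace Pool.Agent.Strip051.G.I5470_6050.Tab.C.BA05

open Pool.Agent.Strip051.PB Pool.Agent.Strip051.PB.T
open Pool.Agent.Strip051.G.I5470_6050.Tab

noncomputable def xt_pm_101 : Ext := extD2 3 ⟨7, 3, 3, 10, 1815, 1000, 17, 20, 37, 100, 3, 16⟩ eng cd0q1 cd5q0 pd1 true true false .npn 1 0 1 rfl ndB0q1 ndB5q0 pcB1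

noncomputable def f_pm_101 : ℕ → ℕ → ℕ → ℕ → Bool := onCell 536870912 536870912 0 536870912 587336777 62277027
    (rowB 3 eng mog cd0q1 cd5q0 pd1 2 true true false .npn 1 0 1 (qsf 536870912 536870912 0 536870912 1) ndB0q1 ndB5q0 pcB1 Cut.none xt_pm_101)

def k0_pm_101 : ∃ t, chk3 f_pm_101 t 2 1 1 = true :=
  ⟨(l 3), by decide +kernel⟩

def k1_pm_101 : ∃ t, chk3 f_pm_101 t 6 1 1 = true :=
  ⟨(l 3), by decide +kernel⟩

def k2_pm_101 : ∃ t, chk3 f_pm_101 t 14 1 1 = true :=
  ⟨(b (a (b (l 3) (l 3)) (a (b (a (b (l 3) (l 3)) (b (b (l 16875664) (l 16862080)) (b (l 16868536) (l 16872240)))) (b (b (l 3) (l 3)) (l 3))) (b (b (b (b (l 16822248) (l 16825656)) (b (l 16828896) (l 16832304))) (b (l 16920616) (b (l 16840336) (l 16841512)))) (a (b (b (l 16893392) (l 16899168)) (b (b (l 16837704) (l 16828632)) (b (l 483351693015) (l 3)))) (b (b (l 16832008) (l 16828504)) (b (b (l 16821000) (l 16812552)) (b (l 90899020807) (c (l 16801336) (b (l 16783576) (a (c (l 16785872)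 (b (l 16778216) (l 84993374407))) (l 16772824))))))))))) (b (a (l 3) (a (l 3) (a (l 3) (b (b (b (c (l 66739830423) (a (a (l 3) (b (b (l 16773648) (l 16769960)) (l 79624640487))) (b (l 16765736) (l 16758240)))) (c (l 16779304) (a (b (l 55465443543) (l 3)) (c (l 16753768) (l 16740120))))) (a (l 3) (b (b (l 89825136631) (l 16744912)) (a (l 3) (l 1695517320472893762643632239))))) (b (b (l 2295144492125840508966641711) (l 3)) (l 3)))))) (l 3))), by decide +kernel⟩

def k3_pm_101 : ∃ t, chk3 f_pm_101 t 15 2 1 = true :=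
  ⟨(b (b (a (a (b (l 16786376) (l 16792248)) (b (l 16751288) (l 16756576))) (b (a (l 16719512) (l 16688920)) (a (l 16723576) (l 16692320)))) (a (a (b (l 16797936) (l 16802080)) (b (l 16760832) (l 16764896))) (b (a (l 16726312) (l 16693280)) (a (l 16729032) (l 16693552))))) (b (a (a (b (l 16803816) (l 16801656)) (b (l 16767136) (l 16766336))) (b (a (l 16730712) (l 16694352)) (a (l 16730240) (l 16693736)))) (a (a (a (b (l 16821304) (b (l 16787040) (c (l 16787776) (l 16764040)))) (b (l 16784616) (b (l 16772048) (l 16760632)))) (b (l 16759624) (b (l 16748856) (l 16738624)))) (b (b (l 16709160) (l 16705432)) (b (l 16699640) (a (l 16707600) (l 16675032))))))), by decide +kernel⟩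

def k4_pm_101 : ∃ t, chk3 f_pm_101 t 15 6 1 = true :=
  ⟨(b (a (a (b (b (a (b (l 16766056) (l 16759584)) (l 16748152)) (a (c (l 16765416) (l 16734648)) (l 16734776))) (c (b (l 16746832) (l 143833266379849839)) (a (b (l 16719224) (l 601990036804223245492335)) (l 143482384605069423)))) (b (b (l 16726112) (l 16712512)) (b (l 16698240) (l 16683488)))) (b (a (b (l 16696368) (l 16682720)) (l 16658640)) (a (a (l 16667928) (l 16652288)) (l 16628488)))) (b (a (a (b (a (b (l 602496169411747160629359) (l 143634048517750895)) (c (l 16716584) (l 16672016))) (a (c (l 143722627950936175) (l 143364942983168047)) (l 143341578370547759))) (b (a (l 16677488) (l 16660880)) (a (a (l 16668416) (l 16659720)) (l 16646640)))) (a (b (a (l 16644464) (l 16628024)) (a (l 16629320) (l 16611896))) (b (l 16603456) (l 16585832)))) (a (a (a (b (a (l 1192000858283505307701821487) (l 143374426283524143)) (b (l 143343364987191343) (c (l 1008244133702096860215001135) (l 143080169371385903))))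 (b (l 143216646336888879) (b (l 143125524292894767) (l 142887136330989615)))) (b (a (l 143007120615096367) (l 16633000)) (b (l 142800824707498031) (a (l 142846110849859631) (l 142625177692749871))))) (b (a (a (l 16614688) (l 16596416)) (l 16568840)) (a (c (b (l 16627280) (l 16621064)) (l 141846723298508847)) (b (l 16556392) (a (l 16558328) (l 16538568)))))))), by decide +kernel⟩

def k5_pm_101 : ∃ t, chk3 f_pm_101 t 30 14 1 = true :=
  ⟨(b (a (a (a (l 3) (b (b (b (l 143185172807139375) (l 143142635441176623)) (c (l 979229914031138639398125615) (l 921201474689203162678673455))) (a (l 3) (b (b (c (l 143189570784624687) (l 142749422502461487)) (b (c (l 853501628791076880041099311) (l 142709084203352111)) (a (l 1095286792713763090191401007) (l 142878615152902191)))) (c (b (l 892187255018655540916060207) (l 969558507473918209557397551)) (c (l 902457109981753975242482223) (l 597586163735812363002415))))))) (b (b (a (l 143049795326689327) (l 142936545608761391))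 (c (l 143131434089840687) (l 142665790888755247))) (b (b (c (a (l 143109375215796271) (l 143002860007440431)) (l 142591848714600495)) (c (a (c (l 143162289226973231) (l 142936683129225263)) (l 142941905817518127)) (a (l 142596590399242287) (l 142468909545996335)))) (a (c (b (l 142976746595270703) (l 142901842348589103)) (l 597599710579090824143407)) (b (l 598068949766705737621551) (l 597785042765244739805231)))))) (b (b (a (l 142766739751419951) (l 142540652718473263)) (a (l 142668745776578607) (l 142437298558959663))) (a (b (b (l 142588893747773487) (c (l 142780277578760239) (l 142272165649383471))) (a (l 597393049372658135949359) (l 596857517211928601337903))) (b (b (l 142353117223731247) (l 142284947487457327)) (l 596053354279602765029423))))) (a (b (a (a (l 3) (b (b (c (l 1115229108292661137165673007) (l 1076541810040156604698616367)) (l 3)) (l 3))) (c (b (a (b (l 599005122229863327343151) (l 598718332927320867004975)) (l 598368132946354330837551)) (c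 (a (b (l 598918076621630866514479) (c (l 631658135387060926257455663) (l 598355308136693832192559))) (l 598287428408390094037551)) (b (l 597723937879527235543599) (l 496257068300325291938910767)))) (b (a (l 597158717969094659629615) (l 596590039308029528039983)) (b (l 596564244579286990000687) (l 596360465703347759878703))))) (a (l 3) (c (b (a (a (c (b (l 786400044813644252346769967) (l 795473189448961014683385903)) (l 597282945316329089131055)) (b (l 597684162076485743534639) (l 597232504992599760118319))) (b (l 597329350393695331885615) (l 596981168024949576049199))) (a (a (b (l 805144596005712434140315695) (l 3)) (b (l 596765859929360089588271) (l 142235538212831279))) (b (l 596531240325038490346031) (l 596072953944974919770671)))) (b (b (l 596099471058423180960303) (l 595770888367693969187375)) (c (l 595510328100643439567407) (l 594867574188239638815279)))))) (b (a (b (c (l 597625363097136792035375) (l 595718142222258471723567)) (c (c (l 597564546458906594959919)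 (l 596472153062743008256559)) (l 595304819737924880867887))) (b (l 595415788510052730691631) (l 594906485290944326705199))) (a (b (c (b (l 596497517334538689339951) (l 596254539063327553233455)) (l 594918160901084485571119)) (c (a (c (l 596295756042507748303407) (l 595640031768537283420719)) (l 595558174310992587366959)) (l 594401793741911332889135))) (b (c (l 595273690870975687221807) (l 593727481217201715237423)) (c (l 594766981735423133639215) (l 593371228472278176813615))))))), by decide +kernel⟩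

def k6_pm_101 : ∃ t, chk3 f_pm_101 t 31 14 1 = true :=
  ⟨(b (a (b (b (a (l 16525264) (l 16568288)) (l 141909464152752175)) (b (a (l 142082087471300655) (l 16499616)) (l 141791266672017455))) (b (c (b (l 16575280) (l 16561936)) (l 141323286911778863)) (b (b (l 16471944) (l 16463400)) (l 16468768)))) (a (b (b (l 593761057543845556805679) (a (l 593695340973002931920943) (l 16480184))) (b (a (l 593268759894252580151343) (l 16498064)) (c (l 592979088298737615527983) (l 591535200976191696687663)))) (a (b (l 591724132995781888860207) (b (l 16440352) (l 16428200))) (b (l 16445256) (l 16407224))))), by decide +kernel⟩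

def k7_pm_101 : ∃ t, chk3 f_pm_101 t 15 15 1 = true :=
  ⟨(a (b (a (a (l 3) (b (b (c (a (c (b (l 495659586184246625273675823) (l 505330992741081607599751215)) (l 142079201370554415)) (b (l 142077689501270063) (l 142000861114105903))) (l 331840102885474791081501231)) (c (c (a (l 515002399297880168609054767) (l 141946022973145135)) (l 311902861602461457488527407)) (l 141697602025193519))) (a (l 1) (b (b (l 141676505156223023) (l 1)) (l 1))))) (b (a (b (c (b (c (l 595446629175075658424879) (l 594828663092888014348847)) (l 594697518273388303688239)) (l 593699952662251160068655)) (c (b (l 141765840498540591) (l 141693753713311791)) (l 592964676865073423753775))) (c (b (c (l 594491721679056639107631) (l 593854732382353536934447)) (l 593379440433186854937135)) (b (l 592884548675024085738031) (l 592212395333865706938927)))) (c (b (a (c (l 141633418012868655) (l 141529170531532847)) (l 141363487841026095)) (a (l 141440041365504047) (l 141221238502047791))) (a (b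 (l 141349056730169391) (l 141248863715049519)) (l 591120290463709452542511))))) (b (b (a (l 1) (a (l 1) (b (l 141034321479286831) (l 1)))) (l 1)) (l 1))) (b (a (a (b (c (b (l 593170473297501929726511) (l 592612747400832369386031)) (b (l 591830348881371054805551) (l 591375085832416104227375))) (b (c (l 591822131339478944391727) (l 590708120641945467134511)) (l 590483013110009520693807))) (b (b (l 591284869719664101155375) (l 590950234160455570694703)) (b (a (l 590693997319291729093167) (l 590235422661091957449263)) (l 589730154762082538512943)))) (b (a (b (l 16417184) (l 589718049018595467813423)) (b (l 16390536) (l 16380784))) (a (b (l 589388025148360260117039) (l 588898033771616890937903)) (b (l 16371336) (l 587831580746811684217391))))) (a (b (b (a (b (l 140795177650454575) (l 140922995866058799)) (c (l 140999137029210159) (l 588610091289184619733551))) (c (l 589686055972271780930095) (l 589102100584981183832623))) (a (l 1) (c (l 589329802529501895287343)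 (l 16390408)))) (b (b (a (c (l 588792829352612611416623) (l 16366128)) (a (l 16402296) (l 16347288))) (a (l 588275743832259064914479) (l 587529375208434990158383))) (a (c (l 588631279936463016792623) (l 16344928)) (c (l 587938085881818097406511) (l 16320152))))))), by decide +kernel⟩

theorem s8_pm_101 : ∃ t, chk3 f_pm_101 t 15 14 1 = true := ex3_a k5_pm_101 k6_pm_101

theorem s9_pm_101 : ∃ t, chk3 f_pm_101 t 15 7 1 = true := ex3_b s8_pm_101 k7_pm_101

theorem s10_pm_101 : ∃ t, chk3 f_pm_101 t 15 3 1 = true := ex3_b k4_pm_101 s9_pm_101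

theorem s11_pm_101 : ∃ t, chk3 f_pm_101 t 15 1 1 = true := ex3_b k3_pm_101 s10_pm_101

theorem s12_pm_101 : ∃ t, chk3 f_pm_101 t 7 1 1 = true := ex3_a k2_pm_101 s11_pm_101

theorem s13_pm_101 : ∃ t, chk3 f_pm_101 t 3 1 1 = true := ex3_a k1_pm_101 s12_pm_101

theorem s14_pm_101 : ∃ t, chk3 f_pm_101 t 1 1 1 = true := ex3_a k0_pm_101 s13_pm_101

theorem c_pm_101 : CertB 536870912 536870912 0 536870912 587336777 62277027 3 eng mog cd0q1 cd5q0 pd1 true true false .npn 1 0 1
    ndB0q1 ndB5q0 pcB1 Cut.none xt_pm_101 :=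
  certB2 (fam := true) (s1 := true) (s2 := false) (a := 1) (b := 0) (c := 1) (cn := .npn) (n1 := ndB0q1) (n2 := ndB5q0) (pc := pcB1) (cut := Cut.none) (xt := xt_pm_101) (P1 := 536870912) (W1 := 536870912) (P2 := 0) (W2 := 536870912) (P3 := 587336777) (W3 := 62277027) (N0 := 3) (En := eng) (mo := mog) (C1 := cd0q1) (C2 := cd5q0) (C3 := pd1)
    rfl (fun _ => rfl) s14_pm_101

noncomputable def xt_pm_102 : Ext := extD2 3 ⟨7, 3, 3, 10, 1815, 1000, 17, 20, 37, 100, 3, 16⟩ eng cd0q1 cd5q0 pd2 true true false .npp 1 0 2 rfl ndB0q1 ndB5q0 pcB2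

noncomputable def f_pm_102 : ℕ → ℕ → ℕ → ℕ → Bool := onCell 1073741824 536870912 0 536870912 587336777 62277027
    (rowB 3 eng mog cd0q1 cd5q0 pd2 2 true true false .npp 1 0 2 (qsf 536870912 536870912 0 536870912 2) ndB0q1 ndB5q0 pcB2 Cut.none xt_pm_102)

def k0_pm_102 : ∃ t, chk3 f_pm_102 t 2 2 1 = true :=
  ⟨(a (b (a (a (b (b (a (b (l 16652392) (l 16655968)) (l 16692928)) (a (l 16653584) (b (l 16645640) (l 16632136)))) (b (a (l 16653176) (l 16626200)) (a (l 16652056) (l 16622120)))) (b (b (a (b (l 2) (l 16609728)) (l 2)) (a (l 16616096) (l 16596600))) (b (a (l 16618016) (l 16632440)) (a (l 16602664) (l 16599736))))) (b (a (b (l 2) (a (l 16598824) (l 2))) (l 2)) (a (b (b (l 16594840) (l 16615184)) (a (l 16619496) (l 16623160))) (b (b (l 2) (l 16565688)) (l 16602328))))) (a (b (a (b (a (l 16651864) (l 16619416)) (l 16759784)) (b (l 16586648) (l 16579880))) (a (b (l 16673056) (a (l 16639776) (l 16609304))) (b (l 16575360) (l 16569544)))) (b (a (b (l 16588464)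 (l 16561968)) (b (l 16621608) (l 16593896))) (a (b (l 16545976) (l 16534976)) (b (l 16553552) (l 16528392)))))) (b (a (b (l 2) (a (b (l 2) (l 16563704)) (l 2))) (l 2)) (a (a (b (b (l 16611336) (l 16627896)) (a (l 16563688) (b (l 16616800) (a (l 16559976) (l 16573512))))) (b (b (a (l 16595512) (l 2)) (l 16632680)) (b (l 16644736) (l 16618928)))) (b (a (b (l 2) (l 16622424)) (l 2)) (b (a (l 16660840) (l 16660960)) (a (l 16670984) (l 16694440))))))), by decide +kernel⟩

def k1_pm_102 : ∃ t, chk3 f_pm_102 t 2 3 1 = true :=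
  ⟨(b (a (b (a (a (b (a (l 16623056) (l 16596992)) (a (l 16597424) (l 16575328))) (b (l 16560504) (l 16543224))) (a (b (l 16524648) (l 16512448)) (l 16501552))) (a (b (a (a (l 16562840) (l 16543520)) (l 16520224)) (a (b (a (l 16535664) (l 16517392)) (a (c (l 16557208) (l 16479808)) (l 16499472))) (b (l 16495584) (l 16478656)))) (b (a (l 16493288) (l 16478584)) (a (l 16470176) (l 16457976))))) (b (a (a (a (l 16504312) (a (l 16510144) (l 16516416))) (b (l 16563808) (l 16523744))) (a (b (l 16651552) (l 16596176)) (l 16695488))) (a (a (b (a (l 16475304) (l 16478936)) (a (l 16456536) (l 16459056))) (b (l 16492936) (l 16468776))) (b (l 16588200) (l 16545736))))) (a (b (a (b (a (b (a (b (l 16502752) (l 16489040)) (l 16476864)) (a (b (l 16473712) (l 16453528)) (l 16445256))) (b (l 16456384) (l 16426096))) (a (a (b (l 16399000) (l 587717441569257792675887)) (l 16359240)) (b (l 16385984) (l 16341896)))) (b (a (a (l 16428968) (l 16425168)) (l 16424528)) (a (l 16358656)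 (l 16364752)))) (a (b (a (a (b (l 587047305752153045213231) (l 586440868872160929767471)) (b (l 16309160) (l 16291360))) (b (l 16293592) (l 16238584))) (a (a (b (b (a (c (l 16340928) (l 16315568)) (l 16308952)) (a (l 587551568947398619812399) (l 16296840))) (a (c (l 587292161608862058713647) (l 16295568)) (l 16281688))) (b (l 16272336) (l 16272008))) (b (l 16206368) (l 16225976)))) (b (a (b (l 16293952) (l 16244808)) (l 16286968)) (a (l 16194504) (b (l 16213496) (l 16153208)))))) (b (a (a (a (b (l 16426544) (l 16375920)) (b (l 16431544) (l 16385856))) (b (l 16441240) (l 16400168))) (b (l 16506256) (l 16464568))) (a (a (b (a (l 16305568) (a (l 16316344) (l 16325224))) (a (l 16213144) (a (l 16229056) (l 16241576)))) (b (l 16345800) (l 16270392))) (b (l 16417680) (l 16360288)))))), by decide +kernel⟩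

def k2_pm_102 : ∃ t, chk3 f_pm_102 t 3 1 1 = true :=
  ⟨(b (a (b (l 2) (b (l 2) (a (a (b (l 2) (l 16706944)) (l 2)) (l 2)))) (l 2)) (b (a (b (a (a (l 16739016) (l 212701455671)) (a (b (l 2) (l 16822320)) (l 2))) (a (b (l 16750256) (l 16719176)) (b (a (l 16834752) (l 16873648)) (l 16854864)))) (b (l 2) (a (b (l 2) (a (l 16919632) (l 2))) (l 2)))) (a (b (a (b (l 16658584) (l 16601680)) (b (l 16840184) (l 16778416))) (a (b (l 16546128) (l 16492704)) (b (l 16712928) (l 16650936)))) (b (a (b (l 16960088) (l 16958072)) (a (l 17054408) (l 2))) (a (l 16857512) (a (l 16955472) (l 17019072))))))), by decide +kernel⟩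

theorem s3_pm_102 : ∃ t, chk3 f_pm_102 t 2 1 1 = true := ex3_b k0_pm_102 k1_pm_102

theorem s4_pm_102 : ∃ t, chk3 f_pm_102 t 1 1 1 = true := ex3_a s3_pm_102 k2_pm_102

theorem c_pm_102 : CertB 536870912 536870912 0 536870912 587336777 62277027 3 eng mog cd0q1 cd5q0 pd2 true true false .npp 1 0 2
    ndB0q1 ndB5q0 pcB2 Cut.none xt_pm_102 :=
  certB2 (fam := true) (s1 := true) (s2 := false) (a := 1) (b := 0) (c := 2) (cn := .npp) (n1 := ndB0q1) (n2 := ndB5q0) (pc := pcB2) (cut := Cut.none) (xt := xt_pm_102) (P1 := 536870912) (W1 := 536870912) (P2 := 0) (W2 := 536870912) (P3 := 587336777) (W3 := 62277027) (N0 := 3) (En := eng) (mo := mog) (C1 := cd0q1) (C2 := cd5q0) (C3 := pd2)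
    rfl (fun _ => rfl) s4_pm_102

noncomputable def f_pm_112 : ℕ → ℕ → ℕ → ℕ → Bool := onCell 536870912 536870912 1073741824 536870912 587336777 62277027
    (rowB 3 eng mog cd0q1 cd5q1 pd2 1 true true false .dn 1 1 2 (qsf 536870912 536870912 536870912 536870912 2) ndB0q1 ndB5q1 pcB2 Cut.none Ext.none)

def k0_pm_112 : ∃ t, chk3 f_pm_112 t 1 1 1 = true :=
  ⟨(b (a (b (a (b (a (b (a (a (b (l 195990454711) (l 16204048)) (a (l 191695460295) (l 194916668631))) (l 305512076119)) (a (l 16198536) (l 16137296))) (b (l 1) (l 185252817463))) (a (b (a (l 16179552) (l 16145864)) (a (l 16188680) (l 16160968))) (b (a (l 16116120) (l 16117280)) (l 16188208)))) (b (l 1) (a (b (l 1) (l 154651195431)) (l 1)))) (a (b (b (a (b (l 16240216) (b (l 16178000) (a (l 16258560) (l 16175408)))) (b (l 16134608) (b (l 16138408) (b (l 16140896) (l 16146792))))) (a (a (l 16193256) (l 16176848)) (l 16154144))) (a (a (l 16211880) (l 16208904)) (l 16205656))) (b (b (a (b (l 16180600) (b (l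 16173656) (b (l 16170592) (l 16169768)))) (l 1)) (a (l 16163072) (l 16290368))) (a (l 16208256) (l 16310040))))) (a (b (l 1) (b (l 1) (a (l 16401536) (l 1)))) (l 1))) (a (a (b (a (b (l 16213880) (l 16203976)) (b (l 16238528) (l 16255808))) (a (b (l 16311872) (a (l 16184192) (l 16241760))) (b (l 16287216) (l 16327496)))) (b (b (a (l 16268160) (l 16347152)) (a (l 16310680) (l 16402448))) (a (b (l 16378992) (l 16440392)) (l 16513400)))) (a (b (b (a (l 16452688) (l 16542536)) (a (l 16509832) (l 16608048))) (a (l 16611176) (l 16710320))) (a (b (l 350073413367) (l 16804088)) (b (l 1) (l 324840131703)))))), by decide +kernel⟩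

theorem c_pm_112 : CertB 536870912 536870912 536870912 536870912 587336777 62277027 3 eng mog cd0q1 cd5q1 pd2 true true false .dn 1 1 2
    ndB0q1 ndB5q1 pcB2 Cut.none Ext.none :=
  certB1 (fam := true) (s1 := true) (s2 := false) (a := 1) (b := 1) (c := 2) (cn := .dn) (n1 := ndB0q1) (n2 := ndB5q1) (pc := pcB2) (cut := Cut.none) (xt := Ext.none) (P1 := 536870912) (W1 := 536870912) (P2 := 536870912) (W2 := 536870912) (P3 := 587336777) (W3 := 62277027) (N0 := 3) (En := eng) (mo := mog) (C1 := cd0q1) (C2 := cd5q1) (C3 := pd2)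
    rfl (fun _ => rfl) k0_pm_112

noncomputable def f_pm_113 : ℕ → ℕ → ℕ → ℕ → Bool := onCell 536870912 536870912 1610612736 536870912 587336777 62277027
    (rowB 3 eng mog cd0q1 cd5q1 pd3 1 true true false .nn 1 1 3 (qsf 536870912 536870912 536870912 536870912 3) ndB0q1 ndB5q1 pcB3 Cut.none Ext.none)

def k0_pm_113 : ∃ t, chk3 f_pm_113 t 1 1 1 = true :=
  ⟨(a (b (b (a (b (a (b (b (a (l 182635839863) (l 16289384)) (a (c (l 165455835111) (l 186393494087)) (l 16187176))) (a (l 265313781671) (l 16125640))) (b (b (l 16384688) (l 16273024)) (l 16242864))) (b (a (l 291620163815) (l 16251936)) (a (l 2) (l 264240017415)))) (b (b (a (b (l 16498320) (l 16414296)) (l 16549504)) (a (l 16397192) (l 16505624))) (a (b (l 16400720) (l 16400544)) (b (l 16502528) (l 16498408))))) (b (a (a (l 2) (b (l 323832689367) (l 2))) (a (b (l 286252113975) (l 16380520)) (b (l 16488224) (l 16478128)))) (a (l 2) (a (l 361951224311) (c (l 16559656) (l 353361378007)))))) (b (a (l 2) (b (a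 (l 2) (l 404364380695)) (l 2))) (l 2))) (b (b (a (b (a (b (l 16640792) (l 16607736)) (l 16720808)) (a (l 16593424) (l 16687360))) (b (a (l 16811344) (l 16868600)) (a (l 16770280) (l 16819224)))) (a (b (a (l 16571264) (l 16658712)) (a (l 16561448) (l 16638416))) (b (a (l 16729904) (l 16775400)) (a (l 16699016) (l 16735672))))) (b (a (b (a (b (l 16560112) (l 16560600)) (l 16623096)) (a (b (l 16558512) (l 2)) (l 4))) (l 4)) (l 4)))), by decide +kernel⟩

theorem c_pm_113 : CertB 536870912 536870912 536870912 536870912 587336777 62277027 3 eng mog cd0q1 cd5q1 pd3 true true false .nn 1 1 3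
    ndB0q1 ndB5q1 pcB3 Cut.none Ext.none :=
  certB1 (fam := true) (s1 := true) (s2 := false) (a := 1) (b := 1) (c := 3) (cn := .nn) (n1 := ndB0q1) (n2 := ndB5q1) (pc := pcB3) (cut := Cut.none) (xt := Ext.none) (P1 := 536870912) (W1 := 536870912) (P2 := 536870912) (W2 := 536870912) (P3 := 587336777) (W3 := 62277027) (N0 := 3) (En := eng) (mo := mog) (C1 := cd0q1) (C2 := cd5q1) (C3 := pd3)
    rfl (fun _ => rfl) k0_pm_113

noncomputable def f_pm_123 : ℕ → ℕ → ℕ → ℕ → Bool := onCell 536870912 536870912 1610612736 536870912 587336777 62277027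
    (rowB 3 eng mog cd0q1 cd5q2 pd3 1 true true false .npn 1 2 3 (qsf 536870912 536870912 1073741824 536870912 3) ndB0q1 ndB5q2 pcB3 Cut.none Ext.none)

def k0_pm_123 : ∃ t, chk3 f_pm_123 t 1 1 1 = true :=
  ⟨(a (b (a (b (a (b (l 195991073895) (l 16449496)) (l 264710511575)) (a (b (l 16482704) (l 16529360)) (b (l 16576096) (l 16580720)))) (a (b (b (l 1) (l 274374430295)) (b (l 254510671303) (l 16653144))) (b (l 1) (b (l 273837726727) (l 249141967655))))) (a (b (a (b (l 16584256) (l 16633776)) (b (l 16600552) (l 16633816))) (b (a (l 16682768) (l 16667784)) (b (a (l 16727096) (l 16698880)) (b (l 16737376) (b (l 16743368) (b (l 16743768) (l 4))))))) (b (a (b (l 16636368) (l 16639328)) (b (l 16691432) (l 16661176))) (b (a (l 16660408) (l 16655872)) (b (a (l 16680736) (l 16669016)) (b (a (l 16694520) (l 16679208)) (b (a (l 16703720) (l 16685080)) (b (a (l 16708656) (l 16688336)) (a (l 16710704) (b (l 16690552) (l 16755696))))))))))) (b (b (l 1) (a (a (b (l 1)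 (l 241626088999)) (l 1)) (l 1))) (a (b (a (b (l 114387554551) (l 16716536)) (b (l 216393182663) (l 17010248))) (b (a (l 16675128) (l 16838552)) (b (a (l 16663944) (l 16697352)) (b (a (l 16668040) (l 16687832)) (b (a (l 16673424) (l 16686136)) (a (b (l 16676848) (b (l 16678664) (a (l 16682480) (l 16677904)))) (b (l 16683888) (b (l 16683136) (l 71639102359))))))))) (b (a (b (l 1) (l 206729560951)) (l 1)) (b (a (a (l 16787080) (l 16838928)) (l 256658010871)) (b (a (l 16750208) (b (l 236794179911) (l 16781952))) (b (a (l 16858136) (l 16757824)) (b (a (l 16718528) (l 16737664)) (a (b (l 16711152) (l 4)) (l 4)))))))))), by decide +kernel⟩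

theorem c_pm_123 : CertB 536870912 536870912 1073741824 536870912 587336777 62277027 3 eng mog cd0q1 cd5q2 pd3 true true false .npn 1 2 3
    ndB0q1 ndB5q2 pcB3 Cut.none Ext.none :=
  certB1 (fam := true) (s1 := true) (s2 := false) (a := 1) (b := 2) (c := 3) (cn := .npn) (n1 := ndB0q1) (n2 := ndB5q2) (pc := pcB3) (cut := Cut.none) (xt := Ext.none) (P1 := 536870912) (W1 := 536870912) (P2 := 1073741824) (W2 := 536870912) (P3 := 587336777) (W3 := 62277027) (N0 := 3) (En := eng) (mo := mog) (C1 := cd0q1) (C2 := cd5q2) (C3 := pd3)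
    rfl (fun _ => rfl) k0_pm_123

noncomputable def f_pm_133 : ℕ → ℕ → ℕ → ℕ → Bool := onCell 536870912 536870912 0 1230186008 587336777 62277027
    (rowB 3 eng mog cd0q1 cd5q3 pd3 0 true true false .dn 1 3 3 (qsf 536870912 536870912 0 1230186008 3) ndB0q1 ndB5q3 pcB3 Cut.none Ext.none)

def k0_pm_133 : ∃ t, chk3 f_pm_133 t 1 1 1 = true :=
  ⟨(b (l 2) (b (l 2) (a (b (l 2) (l 4)) (l 2)))), by decide +kernel⟩

theorem c_pm_133 : CertB 536870912 536870912 0 1230186008 587336777 62277027 3 eng mog cd0q1 cd5q3 pd3 true true false .dn 1 3 3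
    ndB0q1 ndB5q3 pcB3 Cut.none Ext.none :=
  certB0 (fam := true) (s1 := true) (s2 := false) (a := 1) (b := 3) (c := 3) (cn := .dn) (n1 := ndB0q1) (n2 := ndB5q3) (pc := pcB3) (cut := Cut.none) (xt := Ext.none) (P1 := 536870912) (W1 := 536870912) (P2 := 0) (W2 := 1230186008) (P3 := 587336777) (W3 := 62277027) (N0 := 3) (En := eng) (mo := mog) (C1 := cd0q1) (C2 := cd5q3) (C3 := pd3)
    rfl k0_pm_133

noncomputable def f_pm_202 : ℕ → ℕ → ℕ → ℕ → Bool := onCell 0 536870912 0 536870912 587336777 62277027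
    (rowB 3 eng mog cd0q2 cd5q0 pd2 0 true true false .pp 2 0 2 (qsf 0 536870912 0 536870912 2) ndB0q2 ndB5q0 pcB2 Cut.none Ext.none)

def k0_pm_202 : ∃ t, chk3 f_pm_202 t 1 1 1 = true :=
  ⟨(a (a (b (b (b (a (b (l 16499024) (l 16526664)) (b (a (l 16501128) (l 16504192)) (l 16526568))) (a (l 16571936) (l 16568128))) (b (a (l 16844320) (l 16773048)) (a (l 4) (l 16725368)))) (l 4)) (b (b (b (b (a (l 16512704) (l 16526552)) (a (a (l 16528808) (l 16531280)) (l 16536456))) (a (b (l 16554304) (l 16579832)) (b (l 16554392) (l 16576232)))) (b (a (l 16704232) (b (l 16600120) (l 16625304))) (a (b (l 16661848) (l 16688768)) (b (l 16652120) (l 16679808))))) (b (b (a (b (l 16714048) (l 4)) (l 16720152)) (b (a (l 4) (l 16758528)) (l 4))) (l 4)))) (b (b (a (b (a (b (l 16542952) (l 16543984)) (b (l 16562976) (l 16555408))) (a (b (l 16554304) (l 16571528)) (b (l 16555952) (l 16566680)))) (b (a (b (a (l 16582016) (l 16597752)) (l 16573504)) (a (b (b (l 16622920) (l 16609376))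 (l 16593224)) (b (a (b (l 16637912) (l 16623688)) (l 16641808)) (l 16610928)))) (a (b (l 16565760) (l 16568184)) (b (a (l 16580560) (l 16595872)) (l 16585048))))) (a (b (a (b (l 16591328) (l 16614376)) (l 16594112)) (a (b (l 16640072) (l 16668400)) (b (l 16629760) (l 16658848)))) (b (a (b (l 16581464) (l 16601864)) (b (a (l 16587952) (l 16601048)) (a (l 16608240) (l 16621440)))) (a (l 16641608) (l 16656512))))) (b (b (a (a (l 16712880) (b (l 16690968) (l 16724264))) (a (b (l 16693224) (l 16731400)) (b (l 16712304) (l 16756936)))) (a (b (l 16759088) (l 16940712)) (a (b (l 16769144) (l 16809024)) (b (l 16802880) (l 16847424))))) (a (b (a (b (l 16824232) (l 2)) (l 16866936)) (l 2)) (b (a (l 16889776) (l 16931976)) (a (l 16895952) (l 16944704))))))), by decide +kernel⟩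

theorem c_pm_202 : CertB 0 536870912 0 536870912 587336777 62277027 3 eng mog cd0q2 cd5q0 pd2 true true false .pp 2 0 2
    ndB0q2 ndB5q0 pcB2 Cut.none Ext.none :=
  certB0 (fam := true) (s1 := true) (s2 := false) (a := 2) (b := 0) (c := 2) (cn := .pp) (n1 := ndB0q2) (n2 := ndB5q0) (pc := pcB2) (cut := Cut.none) (xt := Ext.none) (P1 := 0) (W1 := 536870912) (P2 := 0) (W2 := 536870912) (P3 := 587336777) (W3 := 62277027) (N0 := 3) (En := eng) (mo := mog) (C1 := cd0q2) (C2 := cd5q0) (C3 := pd2)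
    rfl k0_pm_202

noncomputable def f_pm_203 : ℕ → ℕ → ℕ → ℕ → Bool := onCell 0 536870912 1610612736 536870912 587336777 62277027
    (rowB 3 eng mog cd0q2 cd5q0 pd3 1 true true false .up 2 0 3 (qsf 0 536870912 0 536870912 3) ndB0q2 ndB5q0 pcB3 Cut.none Ext.none)

def k0_pm_203 : ∃ t, chk3 f_pm_203 t 1 1 1 = true :=
  ⟨(b (a (l 4) (b (a (b (b (l 16921744) (l 16854968)) (l 4)) (b (a (l 16856720) (l 16881032)) (l 16813816))) (a (l 2) (l 2)))) (l 2)), by decide +kernel⟩

theorem c_pm_203 : CertB 0 536870912 0 536870912 587336777 62277027 3 eng mog cd0q2 cd5q0 pd3 true true false .up 2 0 3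
    ndB0q2 ndB5q0 pcB3 Cut.none Ext.none :=
  certB1 (fam := true) (s1 := true) (s2 := false) (a := 2) (b := 0) (c := 3) (cn := .up) (n1 := ndB0q2) (n2 := ndB5q0) (pc := pcB3) (cut := Cut.none) (xt := Ext.none) (P1 := 0) (W1 := 536870912) (P2 := 0) (W2 := 536870912) (P3 := 587336777) (W3 := 62277027) (N0 := 3) (En := eng) (mo := mog) (C1 := cd0q2) (C2 := cd5q0) (C3 := pd3)
    rfl (fun _ => rfl) k0_pm_203

noncomputable def f_pm_213 : ℕ → ℕ → ℕ → ℕ → Bool := onCell 0 536870912 1610612736 536870912 587336777 62277027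
    (rowB 3 eng mog cd0q2 cd5q1 pd3 1 true true false .pnn 2 1 3 (qsf 0 536870912 536870912 536870912 3) ndB0q2 ndB5q1 pcB3 Cut.none Ext.none)

def k0_pm_213 : ∃ t, chk3 f_pm_213 t 1 1 1 = true :=
  ⟨(b (a (l 4) (b (a (b (l 1) (l 4)) (b (l 16833920) (l 16789320))) (a (l 4) (b (l 16761360) (l 4))))) (l 4)), by decide +kernel⟩

theorem c_pm_213 : CertB 0 536870912 536870912 536870912 587336777 62277027 3 eng mog cd0q2 cd5q1 pd3 true true false .pnn 2 1 3
    ndB0q2 ndB5q1 pcB3 Cut.none Ext.none :=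
  certB1 (fam := true) (s1 := true) (s2 := false) (a := 2) (b := 1) (c := 3) (cn := .pnn) (n1 := ndB0q2) (n2 := ndB5q1) (pc := pcB3) (cut := Cut.none) (xt := Ext.none) (P1 := 0) (W1 := 536870912) (P2 := 536870912) (W2 := 536870912) (P3 := 587336777) (W3 := 62277027) (N0 := 3) (En := eng) (mo := mog) (C1 := cd0q2) (C2 := cd5q1) (C3 := pd3)
    rfl (fun _ => rfl) k0_pm_213

noncomputable def f_mm_001 : ℕ → ℕ → ℕ → ℕ → Bool := onCell 0 536870912 0 536870912 587336777 62277027
    (rowB 3 eng mog cd0q0 cd5q0 pd1 0 true false false .up 0 0 1 (qsf 0 536870912 0 536870912 1) ndB0q0 ndB5q0 pcB1 Cut.none Ext.none)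

def k0_mm_001 : ∃ t, chk3 f_mm_001 t 1 1 1 = true :=
  ⟨(l 4), by decide +kernel⟩

theorem c_mm_001 : CertB 0 536870912 0 536870912 587336777 62277027 3 eng mog cd0q0 cd5q0 pd1 true false false .up 0 0 1
    ndB0q0 ndB5q0 pcB1 Cut.none Ext.none :=
  certB0 (fam := true) (s1 := false) (s2 := false) (a := 0) (b := 0) (c := 1) (cn := .up) (n1 := ndB0q0) (n2 := ndB5q0) (pc := pcB1) (cut := Cut.none) (xt := Ext.none) (P1 := 0) (W1 := 536870912) (P2 := 0) (W2 := 536870912) (P3 := 587336777) (W3 := 62277027) (N0 := 3) (En := eng) (mo := mog) (C1 := cd0q0) (C2 := cd5q0) (C3 := pd1)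
    rfl k0_mm_001

noncomputable def f_mm_011 : ℕ → ℕ → ℕ → ℕ → Bool := onCell 0 536870912 536870912 536870912 587336777 62277027
    (rowB 3 eng mog cd0q0 cd5q1 pd1 0 true false false .pnn 0 1 1 (qsf 0 536870912 536870912 536870912 1) ndB0q0 ndB5q1 pcB1 Cut.none Ext.none)

def k0_mm_011 : ∃ t, chk3 f_mm_011 t 1 1 1 = true :=
  ⟨(l 4), by decide +kernel⟩

theorem c_mm_011 : CertB 0 536870912 536870912 536870912 587336777 62277027 3 eng mog cd0q0 cd5q1 pd1 true false false .pnn 0 1 1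
    ndB0q0 ndB5q1 pcB1 Cut.none Ext.none :=
  certB0 (fam := true) (s1 := false) (s2 := false) (a := 0) (b := 1) (c := 1) (cn := .pnn) (n1 := ndB0q0) (n2 := ndB5q1) (pc := pcB1) (cut := Cut.none) (xt := Ext.none) (P1 := 0) (W1 := 536870912) (P2 := 536870912) (W2 := 536870912) (P3 := 587336777) (W3 := 62277027) (N0 := 3) (En := eng) (mo := mog) (C1 := cd0q0) (C2 := cd5q1) (C3 := pd1)
    rfl k0_mm_011

noncomputable def f_mm_012 : ℕ → ℕ → ℕ → ℕ → Bool := onCell 0 536870912 536870912 536870912 587336777 62277027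
    (rowB 3 eng mog cd0q0 cd5q1 pd2 0 true false false .pnp 0 1 2 (qsf 0 536870912 536870912 536870912 2) ndB0q0 ndB5q1 pcB2 Cut.none Ext.none)

def k0_mm_012 : ∃ t, chk3 f_mm_012 t 1 1 1 = true :=
  ⟨(l 4), by decide +kernel⟩

theorem c_mm_012 : CertB 0 536870912 536870912 536870912 587336777 62277027 3 eng mog cd0q0 cd5q1 pd2 true false false .pnp 0 1 2
    ndB0q0 ndB5q1 pcB2 Cut.none Ext.none :=
  certB0 (fam := true) (s1 := false) (s2 := false) (a := 0) (b := 1) (c := 2) (cn := .pnp) (n1 := ndB0q0) (n2 := ndB5q1) (pc := pcB2) (cut := Cut.none) (xt := Ext.none) (P1 := 0) (W1 := 536870912) (P2 := 536870912) (W2 := 536870912) (P3 := 587336777) (W3 := 62277027) (N0 := 3) (En := eng) (mo := mog) (C1 := cd0q0) (C2 := cd5q1) (C3 := pd2)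
    rfl k0_mm_012

noncomputable def f_mm_022 : ℕ → ℕ → ℕ → ℕ → Bool := onCell 0 536870912 1073741824 536870912 587336777 62277027
    (rowB 3 eng mog cd0q0 cd5q2 pd2 0 true false false .pp 0 2 2 (qsf 0 536870912 1073741824 536870912 2) ndB0q0 ndB5q2 pcB2 Cut.none Ext.none)

def k0_mm_022 : ∃ t, chk3 f_mm_022 t 1 1 1 = true :=
  ⟨(l 4), by decide +kernel⟩

theorem c_mm_022 : CertB 0 536870912 1073741824 536870912 587336777 62277027 3 eng mog cd0q0 cd5q2 pd2 true false false .pp 0 2 2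
    ndB0q0 ndB5q2 pcB2 Cut.none Ext.none :=
  certB0 (fam := true) (s1 := false) (s2 := false) (a := 0) (b := 2) (c := 2) (cn := .pp) (n1 := ndB0q0) (n2 := ndB5q2) (pc := pcB2) (cut := Cut.none) (xt := Ext.none) (P1 := 0) (W1 := 536870912) (P2 := 1073741824) (W2 := 536870912) (P3 := 587336777) (W3 := 62277027) (N0 := 3) (En := eng) (mo := mog) (C1 := cd0q0) (C2 := cd5q2) (C3 := pd2)
    rfl k0_mm_022

noncomputable def f_mm_023 : ℕ → ℕ → ℕ → ℕ → Bool := onCell 0 536870912 1073741824 536870912 587336777 62277027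
    (rowB 3 eng mog cd0q0 cd5q2 pd3 0 true false false .up 0 2 3 (qsf 0 536870912 1073741824 536870912 3) ndB0q0 ndB5q2 pcB3 Cut.none Ext.none)

def k0_mm_023 : ∃ t, chk3 f_mm_023 t 1 1 1 = true :=
  ⟨(l 4), by decide +kernel⟩

theorem c_mm_023 : CertB 0 536870912 1073741824 536870912 587336777 62277027 3 eng mog cd0q0 cd5q2 pd3 true false false .up 0 2 3
    ndB0q0 ndB5q2 pcB3 Cut.none Ext.none :=
  certB0 (fam := true) (s1 := false) (s2 := false) (a := 0) (b := 2) (c := 3) (cn := .up) (n1 := ndB0q0) (n2 := ndB5q2) (pc := pcB3) (cut := Cut.none) (xt := Ext.none) (P1 := 0) (W1 := 536870912) (P2 := 1073741824) (W2 := 536870912) (P3 := 587336777) (W3 := 62277027) (N0 := 3) (En := eng) (mo := mog) (C1 := cd0q0) (C2 := cd5q2) (C3 := pd3)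
    rfl k0_mm_023

noncomputable def f_mm_033 : ℕ → ℕ → ℕ → ℕ → Bool := onCell 0 536870912 0 1230186008 587336777 62277027
    (rowB 3 eng mog cd0q0 cd5q3 pd3 0 true false false .pnn 0 3 3 (qsf 0 536870912 0 1230186008 3) ndB0q0 ndB5q3 pcB3 Cut.none Ext.none)

def k0_mm_033 : ∃ t, chk3 f_mm_033 t 1 1 1 = true :=
  ⟨(l 5), by decide +kernel⟩

theorem c_mm_033 : CertB 0 536870912 0 1230186008 587336777 62277027 3 eng mog cd0q0 cd5q3 pd3 true false false .pnn 0 3 3
    ndB0q0 ndB5q3 pcB3 Cut.none Ext.none :=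
  certB0 (fam := true) (s1 := false) (s2 := false) (a := 0) (b := 3) (c := 3) (cn := .pnn) (n1 := ndB0q0) (n2 := ndB5q3) (pc := pcB3) (cut := Cut.none) (xt := Ext.none) (P1 := 0) (W1 := 536870912) (P2 := 0) (W2 := 1230186008) (P3 := 587336777) (W3 := 62277027) (N0 := 3) (En := eng) (mo := mog) (C1 := cd0q0) (C2 := cd5q3) (C3 := pd3)
    rfl k0_mm_033

noncomputable def f_mm_101 : ℕ → ℕ → ℕ → ℕ → Bool := onCell 536870912 536870912 0 536870912 587336777 62277027
    (rowB 3 eng mog cd0q1 cd5q0 pd1 0 true false false .npn 1 0 1 (qsf 536870912 536870912 0 536870912 1) ndB0q1 ndB5q0 pcB1 Cut.none Ext.none)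

def k0_mm_101 : ∃ t, chk3 f_mm_101 t 1 1 1 = true :=
  ⟨(l 4), by decide +kernel⟩

theorem c_mm_101 : CertB 536870912 536870912 0 536870912 587336777 62277027 3 eng mog cd0q1 cd5q0 pd1 true false false .npn 1 0 1
    ndB0q1 ndB5q0 pcB1 Cut.none Ext.none :=
  certB0 (fam := true) (s1 := false) (s2 := false) (a := 1) (b := 0) (c := 1) (cn := .npn) (n1 := ndB0q1) (n2 := ndB5q0) (pc := pcB1) (cut := Cut.none) (xt := Ext.none) (P1 := 536870912) (W1 := 536870912) (P2 := 0) (W2 := 536870912) (P3 := 587336777) (W3 := 62277027) (N0 := 3) (En := eng) (mo := mog) (C1 := cd0q1) (C2 := cd5q0) (C3 := pd1)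
    rfl k0_mm_101

noncomputable def f_mm_102 : ℕ → ℕ → ℕ → ℕ → Bool := onCell 536870912 536870912 0 536870912 587336777 62277027
    (rowB 3 eng mog cd0q1 cd5q0 pd2 0 true false false .npp 1 0 2 (qsf 536870912 536870912 0 536870912 2) ndB0q1 ndB5q0 pcB2 Cut.none Ext.none)

def k0_mm_102 : ∃ t, chk3 f_mm_102 t 1 1 1 = true :=
  ⟨(l 4), by decide +kernel⟩

theorem c_mm_102 : CertB 536870912 536870912 0 536870912 587336777 62277027 3 eng mog cd0q1 cd5q0 pd2 true false false .npp 1 0 2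
    ndB0q1 ndB5q0 pcB2 Cut.none Ext.none :=
  certB0 (fam := true) (s1 := false) (s2 := false) (a := 1) (b := 0) (c := 2) (cn := .npp) (n1 := ndB0q1) (n2 := ndB5q0) (pc := pcB2) (cut := Cut.none) (xt := Ext.none) (P1 := 536870912) (W1 := 536870912) (P2 := 0) (W2 := 536870912) (P3 := 587336777) (W3 := 62277027) (N0 := 3) (En := eng) (mo := mog) (C1 := cd0q1) (C2 := cd5q0) (C3 := pd2)
    rfl k0_mm_102

noncomputable def f_mm_112 : ℕ → ℕ → ℕ → ℕ → Bool := onCell 536870912 536870912 536870912 536870912 587336777 62277027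
    (rowB 3 eng mog cd0q1 cd5q1 pd2 0 true false false .dn 1 1 2 (qsf 536870912 536870912 536870912 536870912 2) ndB0q1 ndB5q1 pcB2 Cut.none Ext.none)

def k0_mm_112 : ∃ t, chk3 f_mm_112 t 1 1 1 = true :=
  ⟨(l 4), by decide +kernel⟩

theorem c_mm_112 : CertB 536870912 536870912 536870912 536870912 587336777 62277027 3 eng mog cd0q1 cd5q1 pd2 true false false .dn 1 1 2
    ndB0q1 ndB5q1 pcB2 Cut.none Ext.none :=
  certB0 (fam := true) (s1 := false) (s2 := false) (a := 1) (b := 1) (c := 2) (cn := .dn) (n1 := ndB0q1) (n2 := ndB5q1) (pc := pcB2) (cut := Cut.none) (xt := Ext.none) (P1 := 536870912) (W1 := 536870912) (P2 := 536870912) (W2 := 536870912) (P3 := 587336777) (W3 := 62277027) (N0 := 3) (En := eng) (mo := mog) (C1 := cd0q1) (C2 := cd5q1) (C3 := pd2)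
    rfl k0_mm_112

noncomputable def f_mm_113 : ℕ → ℕ → ℕ → ℕ → Bool := onCell 536870912 536870912 536870912 536870912 587336777 62277027
    (rowB 3 eng mog cd0q1 cd5q1 pd3 0 true false false .nn 1 1 3 (qsf 536870912 536870912 536870912 536870912 3) ndB0q1 ndB5q1 pcB3 Cut.none Ext.none)

def k0_mm_113 : ∃ t, chk3 f_mm_113 t 1 1 1 = true :=
  ⟨(l 4), by decide +kernel⟩

theorem c_mm_113 : CertB 536870912 536870912 536870912 536870912 587336777 62277027 3 eng mog cd0q1 cd5q1 pd3 true false false .nn 1 1 3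
    ndB0q1 ndB5q1 pcB3 Cut.none Ext.none :=
  certB0 (fam := true) (s1 := false) (s2 := false) (a := 1) (b := 1) (c := 3) (cn := .nn) (n1 := ndB0q1) (n2 := ndB5q1) (pc := pcB3) (cut := Cut.none) (xt := Ext.none) (P1 := 536870912) (W1 := 536870912) (P2 := 536870912) (W2 := 536870912) (P3 := 587336777) (W3 := 62277027) (N0 := 3) (En := eng) (mo := mog) (C1 := cd0q1) (C2 := cd5q1) (C3 := pd3)
    rfl k0_mm_113

noncomputable def f_mm_123 : ℕ → ℕ → ℕ → ℕ → Bool := onCell 536870912 536870912 1073741824 536870912 587336777 62277027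
    (rowB 3 eng mog cd0q1 cd5q2 pd3 0 true false false .npn 1 2 3 (qsf 536870912 536870912 1073741824 536870912 3) ndB0q1 ndB5q2 pcB3 Cut.none Ext.none)

def k0_mm_123 : ∃ t, chk3 f_mm_123 t 1 1 1 = true :=
  ⟨(l 4), by decide +kernel⟩

theorem c_mm_123 : CertB 536870912 536870912 1073741824 536870912 587336777 62277027 3 eng mog cd0q1 cd5q2 pd3 true false false .npn 1 2 3
    ndB0q1 ndB5q2 pcB3 Cut.none Ext.none :=
  certB0 (fam := true) (s1 := false) (s2 := false) (a := 1) (b := 2) (c := 3) (cn := .npn) (n1 := ndB0q1) (n2 := ndB5q2) (pc := pcB3) (cut := Cut.none) (xt := Ext.none) (P1 := 536870912) (W1 := 536870912) (P2 := 1073741824) (W2 := 536870912) (P3 := 587336777) (W3 := 62277027) (N0 := 3) (En := eng) (mo := mog) (C1 := cd0q1) (C2 := cd5q2) (C3 := pd3)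
    rfl k0_mm_123

noncomputable def f_mm_133 : ℕ → ℕ → ℕ → ℕ → Bool := onCell 536870912 536870912 0 1230186008 587336777 62277027
    (rowB 3 eng mog cd0q1 cd5q3 pd3 0 true false false .dn 1 3 3 (qsf 536870912 536870912 0 1230186008 3) ndB0q1 ndB5q3 pcB3 Cut.none Ext.none)

def k0_mm_133 : ∃ t, chk3 f_mm_133 t 1 1 1 = true :=
  ⟨(l 4), by decide +kernel⟩

theorem c_mm_133 : CertB 536870912 536870912 0 1230186008 587336777 62277027 3 eng mog cd0q1 cd5q3 pd3 true false false .dn 1 3 3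
    ndB0q1 ndB5q3 pcB3 Cut.none Ext.none :=
  certB0 (fam := true) (s1 := false) (s2 := false) (a := 1) (b := 3) (c := 3) (cn := .dn) (n1 := ndB0q1) (n2 := ndB5q3) (pc := pcB3) (cut := Cut.none) (xt := Ext.none) (P1 := 536870912) (W1 := 536870912) (P2 := 0) (W2 := 1230186008) (P3 := 587336777) (W3 := 62277027) (N0 := 3) (En := eng) (mo := mog) (C1 := cd0q1) (C2 := cd5q3) (C3 := pd3)
    rfl k0_mm_133

noncomputable def f_mm_202 : ℕ → ℕ → ℕ → ℕ → Bool := onCell 0 536870912 0 536870912 587336777 62277027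
    (rowB 3 eng mog cd0q2 cd5q0 pd2 0 true false false .pp 2 0 2 (qsf 0 536870912 0 536870912 2) ndB0q2 ndB5q0 pcB2 Cut.none Ext.none)

def k0_mm_202 : ∃ t, chk3 f_mm_202 t 1 1 1 = true :=
  ⟨(b (a (b (b (a (b (a (l 16500360) (l 16505736)) (l 16534144)) (b (a (l 16515560) (l 16534752)) (a (l 16550576) (l 4)))) (a (a (l 16579320) (l 16590512)) (l 4))) (a (b (b (l 16635856) (l 4)) (l 4)) (l 4))) (l 4)) (l 4)), by decide +kernel⟩

theorem c_mm_202 : CertB 0 536870912 0 536870912 587336777 62277027 3 eng mog cd0q2 cd5q0 pd2 true false false .pp 2 0 2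
    ndB0q2 ndB5q0 pcB2 Cut.none Ext.none :=
  certB0 (fam := true) (s1 := false) (s2 := false) (a := 2) (b := 0) (c := 2) (cn := .pp) (n1 := ndB0q2) (n2 := ndB5q0) (pc := pcB2) (cut := Cut.none) (xt := Ext.none) (P1 := 0) (W1 := 536870912) (P2 := 0) (W2 := 536870912) (P3 := 587336777) (W3 := 62277027) (N0 := 3) (En := eng) (mo := mog) (C1 := cd0q2) (C2 := cd5q0) (C3 := pd2)
    rfl k0_mm_202

noncomputable def f_mm_203 : ℕ → ℕ → ℕ → ℕ → Bool := onCell 0 536870912 1610612736 536870912 587336777 62277027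
    (rowB 3 eng mog cd0q2 cd5q0 pd3 1 true false false .up 2 0 3 (qsf 0 536870912 0 536870912 3) ndB0q2 ndB5q0 pcB3 Cut.none Ext.none)

def k0_mm_203 : ∃ t, chk3 f_mm_203 t 1 1 1 = true :=
  ⟨(l 4), by decide +kernel⟩

theorem c_mm_203 : CertB 0 536870912 0 536870912 587336777 62277027 3 eng mog cd0q2 cd5q0 pd3 true false false .up 2 0 3
    ndB0q2 ndB5q0 pcB3 Cut.none Ext.none :=
  certB1 (fam := true) (s1 := false) (s2 := false) (a := 2) (b := 0) (c := 3) (cn := .up) (n1 := ndB0q2) (n2 := ndB5q0) (pc := pcB3) (cut := Cut.none) (xt := Ext.none) (P1 := 0) (W1 := 536870912) (P2 := 0) (W2 := 536870912) (P3 := 587336777) (W3 := 62277027) (N0 := 3) (En := eng) (mo := mog) (C1 := cd0q2) (C2 := cd5q0) (C3 := pd3)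
    rfl (fun _ => rfl) k0_mm_203

noncomputable def f_mm_213 : ℕ → ℕ → ℕ → ℕ → Bool := onCell 0 536870912 536870912 536870912 587336777 62277027
    (rowB 3 eng mog cd0q2 cd5q1 pd3 0 true false false .pnn 2 1 3 (qsf 0 536870912 536870912 536870912 3) ndB0q2 ndB5q1 pcB3 Cut.none Ext.none)

def k0_mm_213 : ∃ t, chk3 f_mm_213 t 1 1 1 = true :=
  ⟨(l 4), by decide +kernel⟩

theorem c_mm_213 : CertB 0 536870912 536870912 536870912 587336777 62277027 3 eng mog cd0q2 cd5q1 pd3 true false false .pnn 2 1 3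
    ndB0q2 ndB5q1 pcB3 Cut.none Ext.none :=
  certB0 (fam := true) (s1 := false) (s2 := false) (a := 2) (b := 1) (c := 3) (cn := .pnn) (n1 := ndB0q2) (n2 := ndB5q1) (pc := pcB3) (cut := Cut.none) (xt := Ext.none) (P1 := 0) (W1 := 536870912) (P2 := 536870912) (W2 := 536870912) (P3 := 587336777) (W3 := 62277027) (N0 := 3) (En := eng) (mo := mog) (C1 := cd0q2) (C2 := cd5q1) (C3 := pd3)
    rfl k0_mm_213

end Pool.Agent.Strip051.G.I5470_6050.Tab.C.BA05

namespace Pool.Agent.Strip051.G.I5470_6050.Tab.C.BA06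

open Pool.Agent.Strip051.PB Pool.Agent.Strip051.PB.T
open Pool.Agent.Strip051.G.I5470_6050.Tab

noncomputable def f_pp_001 : ℕ → ℕ → ℕ → ℕ → Bool := onCell 0 536870912 0 536870912 587336777 62277027
    (rowB 3 eng mog cd0q0 cd6q0 pd1 0 true true true .up 0 0 1 (qsf 0 536870912 0 536870912 1) ndB0q0 ndB6q0 pcB1 Cut.none Ext.none)

def k0_pp_001 : ∃ t, chk3 f_pp_001 t 1 1 1 = true :=
  ⟨(l 4), by decide +kernel⟩

theorem c_pp_001 : CertB 0 536870912 0 536870912 587336777 62277027 3 eng mog cd0q0 cd6q0 pd1 true true true .up 0 0 1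
    ndB0q0 ndB6q0 pcB1 Cut.none Ext.none :=
  certB0 (fam := true) (s1 := true) (s2 := true) (a := 0) (b := 0) (c := 1) (cn := .up) (n1 := ndB0q0) (n2 := ndB6q0) (pc := pcB1) (cut := Cut.none) (xt := Ext.none) (P1 := 0) (W1 := 536870912) (P2 := 0) (W2 := 536870912) (P3 := 587336777) (W3 := 62277027) (N0 := 3) (En := eng) (mo := mog) (C1 := cd0q0) (C2 := cd6q0) (C3 := pd1)
    rfl k0_pp_001

noncomputable def f_pp_011 : ℕ → ℕ → ℕ → ℕ → Bool := onCell 0 536870912 536870912 536870912 587336777 62277027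
    (rowB 3 eng mog cd0q0 cd6q1 pd1 0 true true true .pnn 0 1 1 (qsf 0 536870912 536870912 536870912 1) ndB0q0 ndB6q1 pcB1 Cut.none Ext.none)

def k0_pp_011 : ∃ t, chk3 f_pp_011 t 1 1 1 = true :=
  ⟨(l 4), by decide +kernel⟩

theorem c_pp_011 : CertB 0 536870912 536870912 536870912 587336777 62277027 3 eng mog cd0q0 cd6q1 pd1 true true true .pnn 0 1 1
    ndB0q0 ndB6q1 pcB1 Cut.none Ext.none :=
  certB0 (fam := true) (s1 := true) (s2 := true) (a := 0) (b := 1) (c := 1) (cn := .pnn) (n1 := ndB0q0) (n2 := ndB6q1) (pc := pcB1) (cut := Cut.none) (xt := Ext.none) (P1 := 0) (W1 := 536870912) (P2 := 536870912) (W2 := 536870912) (P3 := 587336777) (W3 := 62277027) (N0 := 3) (En := eng) (mo := mog) (C1 := cd0q0) (C2 := cd6q1) (C3 := pd1)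
    rfl k0_pp_011

noncomputable def f_pp_012 : ℕ → ℕ → ℕ → ℕ → Bool := onCell 0 536870912 536870912 536870912 587336777 62277027
    (rowB 3 eng mog cd0q0 cd6q1 pd2 0 true true true .pnp 0 1 2 (qsf 0 536870912 536870912 536870912 2) ndB0q0 ndB6q1 pcB2 Cut.none Ext.none)

def k0_pp_012 : ∃ t, chk3 f_pp_012 t 1 1 1 = true :=
  ⟨(l 4), by decide +kernel⟩

theorem c_pp_012 : CertB 0 536870912 536870912 536870912 587336777 62277027 3 eng mog cd0q0 cd6q1 pd2 true true true .pnp 0 1 2
    ndB0q0 ndB6q1 pcB2 Cut.none Ext.none :=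
  certB0 (fam := true) (s1 := true) (s2 := true) (a := 0) (b := 1) (c := 2) (cn := .pnp) (n1 := ndB0q0) (n2 := ndB6q1) (pc := pcB2) (cut := Cut.none) (xt := Ext.none) (P1 := 0) (W1 := 536870912) (P2 := 536870912) (W2 := 536870912) (P3 := 587336777) (W3 := 62277027) (N0 := 3) (En := eng) (mo := mog) (C1 := cd0q0) (C2 := cd6q1) (C3 := pd2)
    rfl k0_pp_012

noncomputable def f_pp_022 : ℕ → ℕ → ℕ → ℕ → Bool := onCell 0 536870912 1073741824 536870912 587336777 62277027
    (rowB 3 eng mog cd0q0 cd6q2 pd2 0 true true true .pp 0 2 2 (qsf 0 536870912 1073741824 536870912 2) ndB0q0 ndB6q2 pcB2 Cut.none Ext.none)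

def k0_pp_022 : ∃ t, chk3 f_pp_022 t 1 1 1 = true :=
  ⟨(l 4), by decide +kernel⟩

theorem c_pp_022 : CertB 0 536870912 1073741824 536870912 587336777 62277027 3 eng mog cd0q0 cd6q2 pd2 true true true .pp 0 2 2
    ndB0q0 ndB6q2 pcB2 Cut.none Ext.none :=
  certB0 (fam := true) (s1 := true) (s2 := true) (a := 0) (b := 2) (c := 2) (cn := .pp) (n1 := ndB0q0) (n2 := ndB6q2) (pc := pcB2) (cut := Cut.none) (xt := Ext.none) (P1 := 0) (W1 := 536870912) (P2 := 1073741824) (W2 := 536870912) (P3 := 587336777) (W3 := 62277027) (N0 := 3) (En := eng) (mo := mog) (C1 := cd0q0) (C2 := cd6q2) (C3 := pd2)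
    rfl k0_pp_022

noncomputable def f_pp_023 : ℕ → ℕ → ℕ → ℕ → Bool := onCell 0 536870912 1073741824 536870912 587336777 62277027
    (rowB 3 eng mog cd0q0 cd6q2 pd3 0 true true true .up 0 2 3 (qsf 0 536870912 1073741824 536870912 3) ndB0q0 ndB6q2 pcB3 Cut.none Ext.none)

def k0_pp_023 : ∃ t, chk3 f_pp_023 t 1 1 1 = true :=
  ⟨(l 4), by decide +kernel⟩

theorem c_pp_023 : CertB 0 536870912 1073741824 536870912 587336777 62277027 3 eng mog cd0q0 cd6q2 pd3 true true true .up 0 2 3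
    ndB0q0 ndB6q2 pcB3 Cut.none Ext.none :=
  certB0 (fam := true) (s1 := true) (s2 := true) (a := 0) (b := 2) (c := 3) (cn := .up) (n1 := ndB0q0) (n2 := ndB6q2) (pc := pcB3) (cut := Cut.none) (xt := Ext.none) (P1 := 0) (W1 := 536870912) (P2 := 1073741824) (W2 := 536870912) (P3 := 587336777) (W3 := 62277027) (N0 := 3) (En := eng) (mo := mog) (C1 := cd0q0) (C2 := cd6q2) (C3 := pd3)
    rfl k0_pp_023

noncomputable def f_pp_033 : ℕ → ℕ → ℕ → ℕ → Bool := onCell 0 536870912 0 1230186008 587336777 62277027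
    (rowB 3 eng mog cd0q0 cd6q3 pd3 0 true true true .pnn 0 3 3 (qsf 0 536870912 0 1230186008 3) ndB0q0 ndB6q3 pcB3 Cut.none Ext.none)

def k0_pp_033 : ∃ t, chk3 f_pp_033 t 1 1 1 = true :=
  ⟨(b (l 4) (l 4)), by decide +kernel⟩

theorem c_pp_033 : CertB 0 536870912 0 1230186008 587336777 62277027 3 eng mog cd0q0 cd6q3 pd3 true true true .pnn 0 3 3
    ndB0q0 ndB6q3 pcB3 Cut.none Ext.none :=
  certB0 (fam := true) (s1 := true) (s2 := true) (a := 0) (b := 3) (c := 3) (cn := .pnn) (n1 := ndB0q0) (n2 := ndB6q3) (pc := pcB3) (cut := Cut.none) (xt := Ext.none) (P1 := 0) (W1 := 536870912) (P2 := 0) (W2 := 1230186008) (P3 := 587336777) (W3 := 62277027) (N0 := 3) (En := eng) (mo := mog) (C1 := cd0q0) (C2 := cd6q3) (C3 := pd3)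
    rfl k0_pp_033

noncomputable def f_pp_101 : ℕ → ℕ → ℕ → ℕ → Bool := onCell 536870912 536870912 0 536870912 587336777 62277027
    (rowB 3 eng mog cd0q1 cd6q0 pd1 0 true true true .npn 1 0 1 (qsf 536870912 536870912 0 536870912 1) ndB0q1 ndB6q0 pcB1 Cut.none Ext.none)

def k0_pp_101 : ∃ t, chk3 f_pp_101 t 1 1 1 = true :=
  ⟨(l 4), by decide +kernel⟩

theorem c_pp_101 : CertB 536870912 536870912 0 536870912 587336777 62277027 3 eng mog cd0q1 cd6q0 pd1 true true true .npn 1 0 1
    ndB0q1 ndB6q0 pcB1 Cut.none Ext.none :=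
  certB0 (fam := true) (s1 := true) (s2 := true) (a := 1) (b := 0) (c := 1) (cn := .npn) (n1 := ndB0q1) (n2 := ndB6q0) (pc := pcB1) (cut := Cut.none) (xt := Ext.none) (P1 := 536870912) (W1 := 536870912) (P2 := 0) (W2 := 536870912) (P3 := 587336777) (W3 := 62277027) (N0 := 3) (En := eng) (mo := mog) (C1 := cd0q1) (C2 := cd6q0) (C3 := pd1)
    rfl k0_pp_101

noncomputable def f_pp_102 : ℕ → ℕ → ℕ → ℕ → Bool := onCell 536870912 536870912 0 536870912 587336777 62277027
    (rowB 3 eng mog cd0q1 cd6q0 pd2 0 true true true .npp 1 0 2 (qsf 536870912 536870912 0 536870912 2) ndB0q1 ndB6q0 pcB2 Cut.none Ext.none)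

def k0_pp_102 : ∃ t, chk3 f_pp_102 t 1 1 1 = true :=
  ⟨(l 4), by decide +kernel⟩

theorem c_pp_102 : CertB 536870912 536870912 0 536870912 587336777 62277027 3 eng mog cd0q1 cd6q0 pd2 true true true .npp 1 0 2
    ndB0q1 ndB6q0 pcB2 Cut.none Ext.none :=
  certB0 (fam := true) (s1 := true) (s2 := true) (a := 1) (b := 0) (c := 2) (cn := .npp) (n1 := ndB0q1) (n2 := ndB6q0) (pc := pcB2) (cut := Cut.none) (xt := Ext.none) (P1 := 536870912) (W1 := 536870912) (P2 := 0) (W2 := 536870912) (P3 := 587336777) (W3 := 62277027) (N0 := 3) (En := eng) (mo := mog) (C1 := cd0q1) (C2 := cd6q0) (C3 := pd2)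
    rfl k0_pp_102

noncomputable def f_pp_112 : ℕ → ℕ → ℕ → ℕ → Bool := onCell 536870912 536870912 536870912 536870912 587336777 62277027
    (rowB 3 eng mog cd0q1 cd6q1 pd2 0 true true true .dn 1 1 2 (qsf 536870912 536870912 536870912 536870912 2) ndB0q1 ndB6q1 pcB2 Cut.none Ext.none)

def k0_pp_112 : ∃ t, chk3 f_pp_112 t 1 1 1 = true :=
  ⟨(l 4), by decide +kernel⟩

theorem c_pp_112 : CertB 536870912 536870912 536870912 536870912 587336777 62277027 3 eng mog cd0q1 cd6q1 pd2 true true true .dn 1 1 2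
    ndB0q1 ndB6q1 pcB2 Cut.none Ext.none :=
  certB0 (fam := true) (s1 := true) (s2 := true) (a := 1) (b := 1) (c := 2) (cn := .dn) (n1 := ndB0q1) (n2 := ndB6q1) (pc := pcB2) (cut := Cut.none) (xt := Ext.none) (P1 := 536870912) (W1 := 536870912) (P2 := 536870912) (W2 := 536870912) (P3 := 587336777) (W3 := 62277027) (N0 := 3) (En := eng) (mo := mog) (C1 := cd0q1) (C2 := cd6q1) (C3 := pd2)
    rfl k0_pp_112

noncomputable def f_pp_113 : ℕ → ℕ → ℕ → ℕ → Bool := onCell 536870912 536870912 536870912 536870912 587336777 62277027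
    (rowB 3 eng mog cd0q1 cd6q1 pd3 0 true true true .nn 1 1 3 (qsf 536870912 536870912 536870912 536870912 3) ndB0q1 ndB6q1 pcB3 Cut.none Ext.none)

def k0_pp_113 : ∃ t, chk3 f_pp_113 t 1 1 1 = true :=
  ⟨(l 4), by decide +kernel⟩

theorem c_pp_113 : CertB 536870912 536870912 536870912 536870912 587336777 62277027 3 eng mog cd0q1 cd6q1 pd3 true true true .nn 1 1 3
    ndB0q1 ndB6q1 pcB3 Cut.none Ext.none :=
  certB0 (fam := true) (s1 := true) (s2 := true) (a := 1) (b := 1) (c := 3) (cn := .nn) (n1 := ndB0q1) (n2 := ndB6q1) (pc := pcB3) (cut := Cut.none) (xt := Ext.none) (P1 := 536870912) (W1 := 536870912) (P2 := 536870912) (W2 := 536870912) (P3 := 587336777) (W3 := 62277027) (N0 := 3) (En := eng) (mo := mog) (C1 := cd0q1) (C2 := cd6q1) (C3 := pd3)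
    rfl k0_pp_113

noncomputable def f_pp_123 : ℕ → ℕ → ℕ → ℕ → Bool := onCell 536870912 536870912 1073741824 536870912 587336777 62277027
    (rowB 3 eng mog cd0q1 cd6q2 pd3 0 true true true .npn 1 2 3 (qsf 536870912 536870912 1073741824 536870912 3) ndB0q1 ndB6q2 pcB3 Cut.none Ext.none)

def k0_pp_123 : ∃ t, chk3 f_pp_123 t 1 1 1 = true :=
  ⟨(l 4), by decide +kernel⟩

theorem c_pp_123 : CertB 536870912 536870912 1073741824 536870912 587336777 62277027 3 eng mog cd0q1 cd6q2 pd3 true true true .npn 1 2 3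
    ndB0q1 ndB6q2 pcB3 Cut.none Ext.none :=
  certB0 (fam := true) (s1 := true) (s2 := true) (a := 1) (b := 2) (c := 3) (cn := .npn) (n1 := ndB0q1) (n2 := ndB6q2) (pc := pcB3) (cut := Cut.none) (xt := Ext.none) (P1 := 536870912) (W1 := 536870912) (P2 := 1073741824) (W2 := 536870912) (P3 := 587336777) (W3 := 62277027) (N0 := 3) (En := eng) (mo := mog) (C1 := cd0q1) (C2 := cd6q2) (C3 := pd3)
    rfl k0_pp_123

noncomputable def f_pp_133 : ℕ → ℕ → ℕ → ℕ → Bool := onCell 536870912 536870912 0 1230186008 587336777 62277027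
    (rowB 3 eng mog cd0q1 cd6q3 pd3 0 true true true .dn 1 3 3 (qsf 536870912 536870912 0 1230186008 3) ndB0q1 ndB6q3 pcB3 Cut.none Ext.none)

def k0_pp_133 : ∃ t, chk3 f_pp_133 t 1 1 1 = true :=
  ⟨(l 4), by decide +kernel⟩

theorem c_pp_133 : CertB 536870912 536870912 0 1230186008 587336777 62277027 3 eng mog cd0q1 cd6q3 pd3 true true true .dn 1 3 3
    ndB0q1 ndB6q3 pcB3 Cut.none Ext.none :=
  certB0 (fam := true) (s1 := true) (s2 := true) (a := 1) (b := 3) (c := 3) (cn := .dn) (n1 := ndB0q1) (n2 := ndB6q3) (pc := pcB3) (cut := Cut.none) (xt := Ext.none) (P1 := 536870912) (W1 := 536870912) (P2 := 0) (W2 := 1230186008) (P3 := 587336777) (W3 := 62277027) (N0 := 3) (En := eng) (mo := mog) (C1 := cd0q1) (C2 := cd6q3) (C3 := pd3)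
    rfl k0_pp_133

noncomputable def f_pp_202 : ℕ → ℕ → ℕ → ℕ → Bool := onCell 0 536870912 0 536870912 587336777 62277027
    (rowB 3 eng mog cd0q2 cd6q0 pd2 0 true true true .pp 2 0 2 (qsf 0 536870912 0 536870912 2) ndB0q2 ndB6q0 pcB2 Cut.none Ext.none)

def k0_pp_202 : ∃ t, chk3 f_pp_202 t 1 1 1 = true :=
  ⟨(l 4), by decide +kernel⟩

theorem c_pp_202 : CertB 0 536870912 0 536870912 587336777 62277027 3 eng mog cd0q2 cd6q0 pd2 true true true .pp 2 0 2
    ndB0q2 ndB6q0 pcB2 Cut.none Ext.none :=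
  certB0 (fam := true) (s1 := true) (s2 := true) (a := 2) (b := 0) (c := 2) (cn := .pp) (n1 := ndB0q2) (n2 := ndB6q0) (pc := pcB2) (cut := Cut.none) (xt := Ext.none) (P1 := 0) (W1 := 536870912) (P2 := 0) (W2 := 536870912) (P3 := 587336777) (W3 := 62277027) (N0 := 3) (En := eng) (mo := mog) (C1 := cd0q2) (C2 := cd6q0) (C3 := pd2)
    rfl k0_pp_202

noncomputable def f_pp_203 : ℕ → ℕ → ℕ → ℕ → Bool := onCell 0 536870912 0 536870912 587336777 62277027
    (rowB 3 eng mog cd0q2 cd6q0 pd3 0 true true true .up 2 0 3 (qsf 0 536870912 0 536870912 3) ndB0q2 ndB6q0 pcB3 Cut.none Ext.none)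

def k0_pp_203 : ∃ t, chk3 f_pp_203 t 1 1 1 = true :=
  ⟨(l 4), by decide +kernel⟩

theorem c_pp_203 : CertB 0 536870912 0 536870912 587336777 62277027 3 eng mog cd0q2 cd6q0 pd3 true true true .up 2 0 3
    ndB0q2 ndB6q0 pcB3 Cut.none Ext.none :=
  certB0 (fam := true) (s1 := true) (s2 := true) (a := 2) (b := 0) (c := 3) (cn := .up) (n1 := ndB0q2) (n2 := ndB6q0) (pc := pcB3) (cut := Cut.none) (xt := Ext.none) (P1 := 0) (W1 := 536870912) (P2 := 0) (W2 := 536870912) (P3 := 587336777) (W3 := 62277027) (N0 := 3) (En := eng) (mo := mog) (C1 := cd0q2) (C2 := cd6q0) (C3 := pd3)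
    rfl k0_pp_203

noncomputable def f_pp_213 : ℕ → ℕ → ℕ → ℕ → Bool := onCell 0 536870912 536870912 536870912 587336777 62277027
    (rowB 3 eng mog cd0q2 cd6q1 pd3 0 true true true .pnn 2 1 3 (qsf 0 536870912 536870912 536870912 3) ndB0q2 ndB6q1 pcB3 Cut.none Ext.none)

def k0_pp_213 : ∃ t, chk3 f_pp_213 t 1 1 1 = true :=
  ⟨(l 4), by decide +kernel⟩

theorem c_pp_213 : CertB 0 536870912 536870912 536870912 587336777 62277027 3 eng mog cd0q2 cd6q1 pd3 true true true .pnn 2 1 3
    ndB0q2 ndB6q1 pcB3 Cut.none Ext.none :=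
  certB0 (fam := true) (s1 := true) (s2 := true) (a := 2) (b := 1) (c := 3) (cn := .pnn) (n1 := ndB0q2) (n2 := ndB6q1) (pc := pcB3) (cut := Cut.none) (xt := Ext.none) (P1 := 0) (W1 := 536870912) (P2 := 536870912) (W2 := 536870912) (P3 := 587336777) (W3 := 62277027) (N0 := 3) (En := eng) (mo := mog) (C1 := cd0q2) (C2 := cd6q1) (C3 := pd3)
    rfl k0_pp_213

noncomputable def f_pm_001 : ℕ → ℕ → ℕ → ℕ → Bool := onCell 0 536870912 536870912 536870912 587336777 62277027
    (rowB 3 eng mog cd0q0 cd6q0 pd1 1 true true false .up 0 0 1 (qsf 0 536870912 0 536870912 1) ndB0q0 ndB6q0 pcB1 Cut.none Ext.none)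

def k0_pm_001 : ∃ t, chk3 f_pm_001 t 1 2 1 = true :=
  ⟨(l 3), by decide +kernel⟩

def k1_pm_001 : ∃ t, chk3 f_pm_001 t 2 3 1 = true :=
  ⟨(b (l 3) (l 2)), by decide +kernel⟩

def k2_pm_001 : ∃ t, chk3 f_pm_001 t 3 6 1 = true :=
  ⟨(a (l 3) (b (l 3) (a (b (l 3) (a (b (l 3) (b (l 3) (a (a (l 3) (l 83919264503)) (c (l 16603016) (l 16571312))))) (b (a (l 3) (l 118279187671)) (a (b (l 16619384) (l 16571952)) (b (l 16603592) (l 16574608)))))) (b (a (l 3) (b (l 3) (a (l 61907864087) (l 55465375511)))) (a (b (a (b (l 3) (l 16647864)) (b (l 203104811591) (a (l 16662040) (l 16664792)))) (a (l 16599840) (b (l 16634328) (l 16600896)))) (b (a (l 16666832) (l 16661168)) (a (b (l 16640440) (l 16617312)) (l 16622944)))))))), by decide +kernel⟩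

def k3_pm_001 : ∃ t, chk3 f_pm_001 t 6 7 1 = true :=
  ⟨(b (b (b (b (b (b (l 3) (l 2)) (l 2)) (l 2)) (l 2)) (l 2)) (l 2)), by decide +kernel⟩

def k4_pm_001 : ∃ t, chk3 f_pm_001 t 7 14 1 = true :=
  ⟨(a (b (a (b (a (a (b (c (b (a (l 118279012663) (l 16580720)) (l 39291845479)) (l 16569576)) (c (c (l 46271131367) (l 43049900183)) (l 16551176))) (b (b (l 16569688) (l 16570096)) (c (l 38754917335) (l 16540704)))) (a (b (l 16557000) (c (l 16540856) (l 16531664))) (b (l 16551208) (l 16529072)))) (b (a (a (l 2) (c (l 40902360343) (l 16522448))) (c (a (a (l 38217988471) (l 16518944)) (l 16512968)) (l 16507864))) (a (l 2) (c (c (a (l 37144213399) (l 32849224375)) (l 29091144487)) (l 33386086855))))) (b (a (b (c (l 16552568) (l 16540360)) (c (l 16527760) (l 16516568))) (b (l 16546544) (l 16519512))) (a (a (c (b (l 16506664) (l 16485592)) (l 16486464)) (b (l 16497048) (a (l 16476216) (l 16473680)))) (c (b (l 16499936) (l 16474872)) (l 16475400))))) (a (a (l 2) (a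 (l 2) (a (l 2) (b (b (l 34996661335) (l 2)) (l 2))))) (b (a (c (b (a (l 16465952) (l 16458792)) (l 21038006327)) (l 24259251495)) (c (a (l 16463720) (l 16438200)) (l 16430744))) (b (a (c (l 21037973783) (l 16418008)) (c (l 16430224) (l 16401000))) (a (l 2) (l 37680910455)))))) (b (a (b (a (c (l 16546912) (l 16529024)) (l 16550144)) (a (b (l 16494520) (l 16467144)) (b (l 16501720) (l 16471216)))) (b (a (a (l 16564608) (l 16575736)) (a (l 16582032) (l 16582080))) (a (b (l 16516776) (l 16482520)) (b (c (l 16559200) (l 16524992)) (l 16522880))))) (a (b (a (b (l 16441112) (l 16437576)) (c (a (l 16455232) (l 16478120)) (l 16421240))) (a (c (l 16429104) (l 16378232)) (l 16417448))) (a (b (b (a (l 16447192) (l 16452856)) (l 16439552)) (l 16395584)) (c (b (l 16478256) (l 16387600)) (l 16487488)))))), by decide +kernel⟩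

def k5_pm_001 : ∃ t, chk3 f_pm_001 t 7 15 1 = true :=
  ⟨(a (b (a (l 2) (a (l 2) (b (l 16381856) (l 2)))) (l 2)) (a (b (a (b (l 16342744) (l 16308488)) (l 16371800)) (a (l 2) (l 16283432))) (b (a (l 16360968) (l 16334568)) (a (l 16261920) (l 16244088))))), by decide +kernel⟩

theorem s6_pm_001 : ∃ t, chk3 f_pm_001 t 7 7 1 = true := ex3_b k4_pm_001 k5_pm_001

theorem s7_pm_001 : ∃ t, chk3 f_pm_001 t 3 7 1 = true := ex3_a k3_pm_001 s6_pm_001

theorem s8_pm_001 : ∃ t, chk3 f_pm_001 t 3 3 1 = true := ex3_b k2_pm_001 s7_pm_001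

theorem s9_pm_001 : ∃ t, chk3 f_pm_001 t 1 3 1 = true := ex3_a k1_pm_001 s8_pm_001

theorem s10_pm_001 : ∃ t, chk3 f_pm_001 t 1 1 1 = true := ex3_b k0_pm_001 s9_pm_001

theorem c_pm_001 : CertB 0 536870912 0 536870912 587336777 62277027 3 eng mog cd0q0 cd6q0 pd1 true true false .up 0 0 1
    ndB0q0 ndB6q0 pcB1 Cut.none Ext.none :=
  certB1 (fam := true) (s1 := true) (s2 := false) (a := 0) (b := 0) (c := 1) (cn := .up) (n1 := ndB0q0) (n2 := ndB6q0) (pc := pcB1) (cut := Cut.none) (xt := Ext.none) (P1 := 0) (W1 := 536870912) (P2 := 0) (W2 := 536870912) (P3 := 587336777) (W3 := 62277027) (N0 := 3) (En := eng) (mo := mog) (C1 := cd0q0) (C2 := cd6q0) (C3 := pd1)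
    rfl (fun _ => rfl) s10_pm_001

noncomputable def cut_pm_011 : Cut := Cut.of [[⟨0, 0, 0, 67108864⟩, ⟨1, 1, 0, 67108864⟩, ⟨2, 1, 0, 67108864⟩]]

noncomputable def f_pm_011 : ℕ → ℕ → ℕ → ℕ → Bool := onCell 0 536870912 536870912 536870912 587336777 62277027
    (rowB 3 eng mog cd0q0 cd6q1 pd1 1 true true false .pnn 0 1 1 (qsf 0 536870912 536870912 536870912 1) ndB0q0 ndB6q1 pcB1 cut_pm_011 Ext.none)

def k0_pm_011 : ∃ t, chk3 f_pm_011 t 1 2 1 = true :=
  ⟨(l 3), by decide +kernel⟩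

def k1_pm_011 : ∃ t, chk3 f_pm_011 t 2 6 1 = true :=
  ⟨(l 3), by decide +kernel⟩

def k2_pm_011 : ∃ t, chk3 f_pm_011 t 4 14 1 = true :=
  ⟨(l 3), by decide +kernel⟩

def k3_pm_011 : ∃ t, chk3 f_pm_011 t 8 15 1 = true :=
  ⟨(b (l 3) (b (a (l 3) (b (l 3) (a (l 3) (b (l 3) (a (b (l 3) (a (l 3) (a (b (l 3) (l 71034688711)) (b (l 73719042935) (l 68887200535))))) (b (b (a (l 3) (a (l 79624617991) (l 78014001111))) (a (a (l 3) (l 74792780199)) (a (l 72108421255) (l 16747016)))) (a (b (a (l 72108425815) (l 16749280)) (l 16750928)) (c (l 16745704) (l 16744288))))))))) (a (l 6) (a (b (b (b (b (l 3) (l 6)) (l 6)) (l 6)) (l 6)) (a (b (b (b (b (a (a (l 69960951479) (l 67813463591)) (a (l 16751656) (l 16749496))) (a (a (l 16753944) (l 16751768)) (l 16748520))) (a (a (l 16750856) (l 16748688)) (l 16745432))) (b (c (l 16749320) (l 16748128)) (l 16739368))) (a (l 6) (b (l 16731016) (l 6)))) (b (b (b (a (l 16750464) (l 16740896)) (l 16744184)) (c (l 16738672) (l 16737312)))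 (b (l 16724512) (l 16716256)))))))), by decide +kernel⟩

def k4_pm_011 : ∃ t, chk3 f_pm_011 t 9 30 1 = true :=
  ⟨(a (l 3) (b (l 3) (b (l 3) (b (a (l 3) (b (a (l 3) (c (l 85530148087) (l 111836826375))) (a (a (l 126869222567) (l 106468118983)) (c (l 16729408) (l 16717504))))) (a (a (b (l 3) (a (l 3) (l 152102155143))) (a (b (l 3) (a (l 96267582919) (l 87140772951))) (b (l 108615612935) (l 16730968)))) (a (a (b (l 80698316343) (l 16721272)) (l 16729344)) (c (l 16712744) (l 16711328)))))))), by decide +kernel⟩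

def k5_pm_011 : ∃ t, chk3 f_pm_011 t 9 31 1 = true :=
  ⟨(b (a (a (b (a (l 3) (b (l 3) (b (l 3) (a (l 3) (c (l 93046384151) (b (l 3) (l 75329636023))))))) (b (a (b (a (l 3) (c (l 107541899287) (l 105931283511))) (b (a (l 3) (c (l 16746408) (l 67813448583))) (a (a (l 82308968071) (l 74792770935)) (l 16746192)))) (b (a (c (l 53854808215) (a (l 72108415271) (l 69960927207))) (c (l 16740880) (l 58686633783))) (c (l 16745464) (a (l 16739456) (l 16735112))))) (b (a (a (a (a (l 69960932423) (l 16745344)) (l 16743720)) (l 16740488)) (c (l 16734792) (l 16733176))) (a (c (l 16744512) (l 16743000)) (l 16729888))))) (b (b (a (l 3) (b (l 3) (a (l 126869231991) (c (l 84456431287) (l 93583233319))))) (a (a (b (l 3) (c (l 78550861143) (c (l 62981602679) (l 66739697271)))) (b (a (l 95193854999) (l 87677657991)) (l 62981591719))) (a (b (a (l 72108396999) (l 16734208)) (l 16731176)) (a (l 16729976) (l 16727792))))) (b (a (a (b (l 16735744) (l 16731624)) (l 16734592)) (c (l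 16723656) (l 16721936))) (a (l 16733768) (l 16714600))))) (a (b (a (b (a (b (c (l 93583236343) (l 107541876439)) (l 16735936)) (b (l 75866488999) (l 16726304))) (c (l 16733632) (l 16731904))) (b (a (l 16731824) (l 16719536)) (l 16713520))) (a (b (l 16714096) (l 16705872)) (b (l 16705304) (l 16697096)))) (b (a (b (l 16723352) (l 16704648)) (b (l 16703880) (l 16695680))) (a (l 16692352) (l 16683416))))) (a (b (a (b (a (c (l 16738328) (l 16736832)) (l 16723712)) (a (l 16724112) (l 16715472))) (b (a (l 16715056) (l 16706376)) (l 16712976))) (a (b (a (l 16715864) (l 16707232)) (a (l 16707616) (l 16698984))) (b (l 16694256) (l 16686024)))) (b (a (a (l 16693552) (l 16684792)) (l 16671552)) (a (b (l 16676872) (l 16668680)) (l 16655232))))), by decide +kernel⟩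

def k6_pm_011 : ∃ t, chk3 f_pm_011 t 5 14 1 = true :=
  ⟨(a (l 3) (b (l 3) (a (b (l 3) (b (l 3) (a (a (l 3) (b (l 3) (c (l 67276481015) (l 83919472855)))) (a (b (c (l 71571445351) (l 88214436663)) (c (l 16697848) (l 16673368))) (b (c (l 60297136103) (l 16671568)) (l 16685688)))))) (b (a (l 3) (a (l 3) (b (l 3) (b (l 3) (l 44190974743))))) (a (b (b (l 3) (a (l 58686520231) (l 16676264))) (a (c (l 42043496551) (l 16656664)) (c (l 16649168) (l 16645888)))) (a (b (c (l 27011098327) (l 16652016)) (l 16657456)) (b (c (l 16644120) (l 16640736)) (l 16625200)))))))), by decide +kernel⟩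

def k7_pm_011 : ∃ t, chk3 f_pm_011 t 10 15 1 = true :=
  ⟨(b (a (b (b (l 3) (a (l 3) (b (l 3) (a (l 3) (b (l 175724427911) (c (l 144049037703) (l 115058021431))))))) (b (a (a (b (l 3) (b (a (l 3) (l 132774780743)) (a (l 16724944) (l 16715064)))) (a (b (l 3) (l 102173118135)) (b (l 156933956935) (l 16707984)))) (b (a (c (b (l 146733401895) (l 16718776)) (l 79087675463)) (c (l 62981537415) (l 16699144))) (a (l 16711592) (l 16691896)))) (a (a (b (a (l 16713480) (l 16708872)) (l 16702960)) (b (c (l 16702512) (l 16701280)) (l 16693712))) (a (a (l 16690912) (l 16686304)) (l 16682640))))) (b (b (a (l 3) (b (a (l 3) (l 146196499399)) (a (c (l 174113791879) (l 75866432871)) (c (l 62981517671) (l 16707384))))) (a (a (b (c (l 167671361143) (l 155860195575)) (c (b (l 103783726567) (l 16698568)) (l 16708640))) (b (c (b (l 167671346791) (l 98415008119)) (l 74255821527)) (l 16700624))) (a (b (a (l 16702040) (l 16686768)) (l 16680656)) (c (l 16697616) (l 16673760))))) (b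 (a (b (a (l 16691032) (l 16681672)) (l 16688424)) (a (l 16667944) (l 16658288))) (a (a (l 16670048) (l 16660648)) (a (l 16651136) (l 16641480)))))) (b (b (a (a (a (a (l 16692968) (l 16688384)) (l 16681456)) (a (l 16672136) (l 16683792))) (a (l 16648776) (l 16650688))) (a (a (l 16672432) (l 16661720)) (l 16643880))) (a (a (b (l 16653584) (l 16637408)) (l 16649408)) (a (l 16629232) (l 16589104))))), by decide +kernel⟩

def k8_pm_011 : ∃ t, chk3 f_pm_011 t 11 15 1 = true :=
  ⟨(b (a (b (a (b (b (c (a (l 93583158343) (l 16678408)) (a (l 16695576) (l 16675024))) (a (l 16699192) (l 16668176))) (a (l 16675888) (l 16655368))) (a (b (c (l 16663792) (l 16660608)) (l 16645152)) (b (l 16672792) (l 16634768)))) (b (a (a (l 16648440) (l 16638424)) (l 16644056)) (a (l 16647648) (l 16606360)))) (b (b (a (a (l 16641216) (l 16630400)) (l 16634760)) (a (l 16639808) (l 16617864))) (b (a (l 16622984) (l 16601152)) (l 16585120)))) (a (b (a (l 16607128) (l 16581680)) (l 16601856))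 (b (l 16581648) (l 16563344)))), by decide +kernel⟩

def k9_pm_011 : ∃ t, chk3 f_pm_011 t 3 6 1 = true :=
  ⟨(a (l 3) (b (l 1) (a (a (a (a (l 3) (l 1)) (l 1)) (l 1)) (l 1)))), by decide +kernel⟩

def k10_pm_011 : ∃ t, chk3 f_pm_011 t 6 14 1 = true :=
  ⟨(a (b (a (l 3) (b (l 3) (b (l 3) (a (a (l 3) (c (l 43654039879) (l 45264645191))) (a (b (l 3) (l 16613800)) (b (l 49022712007) (l 16602488))))))) (a (a (b (b (l 3) (a (b (l 3) (l 16644264)) (l 15199904391))) (a (b (l 16650632) (l 16613688)) (b (l 16619696) (l 16602096)))) (b (b (a (l 54391481063) (b (l 3) (l 16629192))) (a (l 16626672) (l 16615496))) (b (l 16623992) (l 16606136)))) (b (a (b (b (a (l 16627160) (l 16615856)) (a (l 16617944) (l 16606672))) (a (l 16604264) (l 16592984))) (b (a (l 16620928) (l 16588648)) (l 16597008))) (a (b (l 16601536) (l 16583680)) (b (l 16557968) (l 16561088)))))) (b (b (a (a (l 3) (a (l 3) (b (l 3) (l 28621582615)))) (a (b (l 3) (c (a (l 16590704) (l 16579720)) (a (l 16586328)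 (l 16575328)))) (b (c (l 68350046471) (l 71571265799)) (a (l 16566720) (l 16556088))))) (b (a (a (b (l 3) (a (l 16620328) (l 16598536))) (c (a (l 16615072) (l 16582888)) (a (l 40969613479) (l 16578592)))) (a (a (l 16590640) (l 16558672)) (l 16563424))) (a (a (a (c (l 16618872) (l 16614672)) (l 16605512)) (c (l 16590664) (l 16586584))) (a (l 16566416) (l 16523680))))) (b (a (a (b (l 16592680) (l 16553424)) (b (l 16549184) (l 16530880))) (a (l 16559664) (l 16537832))) (b (a (a (l 16535344) (l 16512784)) (a (l 16490456) (l 16468552))) (a (l 16514088) (l 16472000)))))), by decide +kernel⟩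

def k11_pm_011 : ∃ t, chk3 f_pm_011 t 6 15 1 = true :=
  ⟨(a (b (a (b (a (b (l 16611880) (l 16563648)) (b (l 16562480) (l 16550752))) (a (l 16549344) (l 16526112))) (b (c (l 16583544) (l 16566416)) (l 16536304))) (a (b (l 16530488) (l 16503488)) (b (l 16500840) (l 16444384)))) (b (a (b (l 16532312) (l 16492160)) (b (a (l 16446144) (l 16424144)) (l 16423584))) (a (b (l 16427232) (l 16404752)) (l 16413856)))), by decide +kernel⟩

def k12_pm_011 : ∃ t, chk3 f_pm_011 t 7 7 1 = true :=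
  ⟨(b (a (b (a (b (a (b (a (l 16564912) (l 16555080)) (l 16540816)) (c (l 53183355671) (l 16571064))) (b (a (l 16521808) (l 16502872)) (a (l 16502968) (l 16483920)))) (b (l 1) (a (c (l 72510588391) (l 16516088)) (l 1)))) (b (a (a (l 16517008) (l 16497784)) (a (l 26876510919) (l 75731735975))) (a (a (b (l 16447600) (l 16429560)) (l 16440064)) (a (l 16443568) (l 16427752))))) (b (l 1) (b (l 1) (a (l 109554517127) (l 1))))) (a (b (a (b (l 16445216) (l 16378808)) (b (a (l 16365104) (l 16348728)) (l 16320888))) (a (l 16365936) (l 16311488))) (b (a (a (l 16356352) (l 16340248)) (l 70899671591)) (a (l 16297936) (l 44592815559))))), by decide +kernel⟩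

theorem s13_pm_011 : ∃ t, chk3 f_pm_011 t 6 7 1 = true := ex3_b k10_pm_011 k11_pm_011

theorem s14_pm_011 : ∃ t, chk3 f_pm_011 t 3 7 1 = true := ex3_a s13_pm_011 k12_pm_011

theorem s15_pm_011 : ∃ t, chk3 f_pm_011 t 3 3 1 = true := ex3_b k9_pm_011 s14_pm_011

theorem s16_pm_011 : ∃ t, chk3 f_pm_011 t 5 15 1 = true := ex3_a k7_pm_011 k8_pm_011

theorem s17_pm_011 : ∃ t, chk3 f_pm_011 t 5 7 1 = true := ex3_b k6_pm_011 s16_pm_011

theorem s18_pm_011 : ∃ t, chk3 f_pm_011 t 9 15 1 = true := ex3_b k4_pm_011 k5_pm_011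

theorem s19_pm_011 : ∃ t, chk3 f_pm_011 t 4 15 1 = true := ex3_a k3_pm_011 s18_pm_011

theorem s20_pm_011 : ∃ t, chk3 f_pm_011 t 4 7 1 = true := ex3_b k2_pm_011 s19_pm_011

theorem s21_pm_011 : ∃ t, chk3 f_pm_011 t 2 7 1 = true := ex3_a s20_pm_011 s17_pm_011

theorem s22_pm_011 : ∃ t, chk3 f_pm_011 t 2 3 1 = true := ex3_b k1_pm_011 s21_pm_011

theorem s23_pm_011 : ∃ t, chk3 f_pm_011 t 1 3 1 = true := ex3_a s22_pm_011 s15_pm_011

theorem s24_pm_011 : ∃ t, chk3 f_pm_011 t 1 1 1 = true := ex3_b k0_pm_011 s23_pm_011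

theorem c_pm_011 : CertB 0 536870912 536870912 536870912 587336777 62277027 3 eng mog cd0q0 cd6q1 pd1 true true false .pnn 0 1 1
    ndB0q0 ndB6q1 pcB1 cut_pm_011 Ext.none :=
  certB1 (fam := true) (s1 := true) (s2 := false) (a := 0) (b := 1) (c := 1) (cn := .pnn) (n1 := ndB0q0) (n2 := ndB6q1) (pc := pcB1) (cut := cut_pm_011) (xt := Ext.none) (P1 := 0) (W1 := 536870912) (P2 := 536870912) (W2 := 536870912) (P3 := 587336777) (W3 := 62277027) (N0 := 3) (En := eng) (mo := mog) (C1 := cd0q0) (C2 := cd6q1) (C3 := pd1)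
    rfl (fun _ => rfl) s24_pm_011

noncomputable def cut_pm_012 : Cut := Cut.of [[⟨0, 0, 0, 67108864⟩, ⟨1, 1, 0, 67108864⟩, ⟨2, 1, 0, 67108864⟩]]

noncomputable def f_pm_012 : ℕ → ℕ → ℕ → ℕ → Bool := onCell 1073741824 536870912 536870912 536870912 587336777 62277027
    (rowB 3 eng mog cd0q0 cd6q1 pd2 2 true true false .pnp 0 1 2 (qsf 0 536870912 536870912 536870912 2) ndB0q0 ndB6q1 pcB2 cut_pm_012 Ext.none)

def k0_pm_012 : ∃ t, chk3 f_pm_012 t 4 2 1 = true :=
  ⟨(b (a (b (a (b (c (l 16192256) (l 16175664)) (l 16253992)) (b (l 16110072) (l 16124728))) (a (b (b (l 16191480) (l 16221416)) (a (l 16274040) (l 16250320))) (b (l 16148808) (b (l 16199848) (l 16246424))))) (b (a (b (l 2) (l 16031520)) (l 2)) (a (b (l 16176152) (l 16203720)) (a (l 16249224) (l 16162712))))) (a (b (a (b (a (l 16323488) (l 16319616)) (a (l 16367256) (l 16361704))) (b (a (l 16272928) (l 16247376)) (a (l 16314280) (l 16287880)))) (a (b (a (l 16407040) (l 16378224)) (a (l 16445552) (l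 16435120))) (b (a (l 16349888) (l 16322168)) (a (l 16383472) (l 16353640))))) (b (a (b (l 16292024) (l 16352712)) (b (l 16155488) (l 16237128))) (b (a (l 16302360) (l 16249224)) (a (l 16352536) (l 16256368)))))), by decide +kernel⟩

def k1_pm_012 : ∃ t, chk3 f_pm_012 t 4 6 1 = true :=
  ⟨(a (b (a (a (b (l 16504704) (l 16563656)) (b (l 16491192) (l 16546872))) (b (a (l 16415784) (l 16383504)) (a (l 16468392) (l 16412240)))) (a (b (b (c (l 16593896) (l 16570552)) (c (l 16611624) (l 16614736))) (a (b (l 16608296) (a (l 16616832) (l 16594656))) (l 16584048))) (b (a (b (l 16470800) (l 16486264)) (l 16461248)) (a (b (l 16501976) (l 16517840)) (l 16489680))))) (b (a (b (l 16442072) (a (l 16378448) (l 16346120))) (b (l 16342976) (a (l 16315304) (l 16286312)))) (a (b (a (l 16403616) (l 16368576)) (a (l 16450112) (l 16391344))) (b (a (l 16335288) (l 16304112)) (a (l 16355432) (l 16321728)))))), by decide +kernel⟩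

def k2_pm_012 : ∃ t, chk3 f_pm_012 t 8 7 1 = true :=
  ⟨(b (a (a (b (a (b (l 16634872) (a (l 16657968) (l 16626240))) (l 16642848)) (a (a (b (l 16685984) (b (l 16688600) (l 16697320))) (a (l 16685360) (l 16681288))) (b (l 16648488) (l 16665696)))) (b (b (l 16578472) (l 16616520)) (b (l 16633320) (a (l 16641000) (l 16616576))))) (b (a (b (l 16533744) (l 16570544)) (b (l 16490456) (l 16504960))) (a (b (l 16586160) (a (l 16592440) (l 16568616))) (b (l 16519344) (l 16554440))))) (a (b (a (a (b (a (b (l 16706048) (l 6)) (l 16710144)) (l 6)) (b (l 16692888) (a (l 6) (l 16692040)))) (b (a (l 16657192) (l 16653216)) (a (b (l 16689920) (a (l 6) (l 16670184))) (b (l 16643640) (l 16651056))))) (a (l 6) (b (a (l 6) (b (l 16658304) (l 6))) (l 6)))) (b (a (b (a (l 16607584) (l 16583208)) (a (b (l 16618592) (l 16625760)) (l 16597304))) (b (a (l 16559152) (l 16535400)) (a (l 16572712) (l 16548432)))) (b (a (a (b (l 16632776) (l 16639616)) (b (l 16607504) (l 16614104)))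 (a (b (l 16582528) (l 16588880)) (b (l 16557856) (l 16563952)))) (a (b (a (l 6) (l 16641512)) (l 6)) (b (a (l 16595072) (l 16569896)) (a (b (l 16599600) (l 6)) (l 16591400)))))))), by decide +kernel⟩

def k3_pm_012 : ∃ t, chk3 f_pm_012 t 9 7 1 = true :=
  ⟨(b (b (a (a (l 16497248) (l 16435568)) (a (l 16375784) (l 16339256))) (a (a (b (l 16474936) (l 16487824)) (b (l 16432120) (l 16443696))) (a (b (l 16391128) (l 16401280)) (b (l 16352296) (l 16360912))))) (b (a (a (b (l 16500424) (a (l 16524464) (l 16500832))) (b (l 16455040) (l 16487016))) (a (b (l 16411272) (l 16420992)) (b (l 16369408) (l 16377688)))) (a (b (a (b (l 16521416) (l 16548088)) (b (l 16474000) (l 16479144))) (a (b (a (l 16544992) (l 16520416)) (a (l 16550512) (l 16525672))) (b (l 16505120) (a (l 16501152) (l 16476928))))) (a (b (a (l 16441744) (l 16418984)) (b (l 16457952) (c (l 16449576) (l 16432616)))) (b (a (l 16396640) (l 16374744)) (c (b (l 16401128) (l 16404824)) (l 16414416))))))), by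 decide +kernel⟩

def k4_pm_012 : ∃ t, chk3 f_pm_012 t 5 2 1 = true :=
  ⟨(b (a (a (a (b (l 2) (l 16161648)) (l 2)) (l 2)) (l 2)) (a (a (b (a (l 16262952) (a (l 16119016) (a (l 16110880) (l 16212544)))) (a (l 16392912) (a (l 16185856) (a (l 16177352) (l 16300136))))) (b (b (l 16069592) (l 16104336)) (b (l 16135632) (l 16164216)))) (b (b (l 2) (l 16272992)) (a (l 16199304) (l 16133096))))), by decide +kernel⟩

def k5_pm_012 : ∃ t, chk3 f_pm_012 t 5 6 1 = true :=
  ⟨(a (a (a (b (b (l 16240696) (l 16259264)) (b (l 16275128) (l 16290400))) (b (a (l 16231808) (a (l 16223392) (b (l 16211208) (l 16228552)))) (a (b (l 16254880) (l 16268616)) (a (b (l 16245688) (l 16258648)) (b (l 16242008) (l 16317176)))))) (b (b (l 16186800) (l 16203776)) (b (a (l 16225536) (l 16206168)) (a (l 16236872) (l 16214984))))) (b (a (b (l 16165152) (l 16178008)) (b (l 16150528) (l 16159488))) (b (a (l 16185656) (l 16163272)) (a (l 16190360) (l 16164288))))), by decide +kernel⟩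

def k6_pm_012 : ∃ t, chk3 f_pm_012 t 5 7 1 = true :=
  ⟨(a (b (a (a (b (l 16305184) (b (l 16315920) (l 16322920))) (a (b (l 16281384) (l 16293296)) (a (b (l 16270408) (l 16281096)) (b (a (l 16265592) (l 16263120)) (a (l 16275568) (l 16272480)))))) (b (a (l 16246424) (l 16221648)) (a (l 16275336) (l 16226176)))) (a (a (b (b (l 16329792) (l 16357440)) (b (a (l 16353344) (l 16332480)) (a (c (l 16370920) (l 16348272)) (c (l 16350224) (l 16325672))))) (a (b (b (l 16301752) (l 16307136)) (b (l 16312232) (c (l 16330192) (l 16303520)))) (b (a (l 16311856) (a (l 16284520) (b (l 16278768) (l 16282576)))) (a (b (l 16297544) (c (l 16315696) (l 16287224))) (a (b (l 16290496) (c (l 16308784) (l 16279152))) (b (c (l 16301496) (l 16270552)) (a (a (a (l 16291256) (a (l 16290824) (l 16290552))) (l 16289776)) (l 16287904)))))))) (b (a (b (l 16259400) (l 16262320)) (b (l 16228408) (l 16229408))) (a (b (c (l 16281448) (l 16248216)) (c (b (l 16283032) (l 16283976)) (l 16250520)))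 (b (l 16229984) (c (l 16248984) (l 16211136))))))) (b (b (a (l 16192104) (l 16160928)) (a (b (l 16191664) (l 16190528)) (b (l 16155864) (l 16151448)))) (b (a (b (l 16188888) (a (l 16200200) (l 16174024))) (b (l 16146240) (l 16182184))) (a (b (a (l 16198608) (l 16170304)) (a (c (b (l 16218616) (l 16217416)) (l 16174768)) (c (b (l 16191336) (l 16189072)) (l 16141568)))) (b (a (l 16145112) (l 16122976)) (a (c (l 16165552) (l 16111552)) (b (l 16116864) (l 16112560)))))))), by decide +kernel⟩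

def k7_pm_012 : ∃ t, chk3 f_pm_012 t 3 1 1 = true :=
  ⟨(b (a (b (l 2) (a (b (l 2) (a (l 16135528) (l 2))) (l 2))) (l 2)) (a (b (a (b (a (l 16144744) (l 16142656)) (b (a (l 16146352) (l 16135248)) (a (l 16144416) (l 16131096)))) (b (a (l 16148408) (l 2)) (a (b (l 16133992) (l 16124400)) (l 16149384)))) (a (b (b (a (l 16138048) (l 16122472)) (a (l 16126256) (l 16108360))) (b (a (b (l 16114480) (l 16105416)) (b (l 16093672) (l 16082112))) (a (b (a (l 16103872) (l 16087768)) (a (l 16114744) (l 16076064))) (b (l 16069416) (a (l 16061680) (l 16050208)))))) (b (a (b (l 16113992) (l 16098096)) (b (l 16122744) (l 16103784))) (b (a (a (l 16077776) (l 16075064)) (l 16078920)) (a (a (b (l 16057032) (l 16041440)) (b (l 16053280) (l 16036600))) (b (l 16056080) (a (l 16036888) (l 16040104)))))))) (b (a (b (l 2) (a (l 16182536) (l 2))) (l 2)) (a (b (a (b (l 16145656) (l 16118864)) (a (l 16155664) (l 16175008))) (b (a (l 16090864) (l 16110512)) (a (a (l 16054128) (l 16059752))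 (b (l 16082176) (l 16062216))))) (b (a (b (l 2) (l 16193560)) (l 2)) (a (b (l 16148792) (l 16101664)) (b (l 16206224) (l 16151080)))))))), by decide +kernel⟩

theorem s8_pm_012 : ∃ t, chk3 f_pm_012 t 5 3 1 = true := ex3_b k5_pm_012 k6_pm_012

theorem s9_pm_012 : ∃ t, chk3 f_pm_012 t 5 1 1 = true := ex3_b k4_pm_012 s8_pm_012

theorem s10_pm_012 : ∃ t, chk3 f_pm_012 t 4 7 1 = true := ex3_a k2_pm_012 k3_pm_012

theorem s11_pm_012 : ∃ t, chk3 f_pm_012 t 4 3 1 = true := ex3_b k1_pm_012 s10_pm_012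

theorem s12_pm_012 : ∃ t, chk3 f_pm_012 t 4 1 1 = true := ex3_b k0_pm_012 s11_pm_012

theorem s13_pm_012 : ∃ t, chk3 f_pm_012 t 2 1 1 = true := ex3_a s12_pm_012 s9_pm_012

theorem s14_pm_012 : ∃ t, chk3 f_pm_012 t 1 1 1 = true := ex3_a s13_pm_012 k7_pm_012

theorem c_pm_012 : CertB 0 536870912 536870912 536870912 587336777 62277027 3 eng mog cd0q0 cd6q1 pd2 true true false .pnp 0 1 2
    ndB0q0 ndB6q1 pcB2 cut_pm_012 Ext.none :=
  certB2 (fam := true) (s1 := true) (s2 := false) (a := 0) (b := 1) (c := 2) (cn := .pnp) (n1 := ndB0q0) (n2 := ndB6q1) (pc := pcB2) (cut := cut_pm_012) (xt := Ext.none) (P1 := 0) (W1 := 536870912) (P2 := 536870912) (W2 := 536870912) (P3 := 587336777) (W3 := 62277027) (N0 := 3) (En := eng) (mo := mog) (C1 := cd0q0) (C2 := cd6q1) (C3 := pd2)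
    rfl (fun _ => rfl) s14_pm_012

noncomputable def f_pm_022 : ℕ → ℕ → ℕ → ℕ → Bool := onCell 1073741824 536870912 1073741824 536870912 587336777 62277027
    (rowB 3 eng mog cd0q0 cd6q2 pd2 2 true true false .pp 0 2 2 (qsf 0 536870912 1073741824 536870912 2) ndB0q0 ndB6q2 pcB2 Cut.none Ext.none)

def k0_pm_022 : ∃ t, chk3 f_pm_022 t 4 1 1 = true :=
  ⟨(b (l 3) (l 1)), by decide +kernel⟩

def k1_pm_022 : ∃ t, chk3 f_pm_022 t 40 2 1 = true :=
  ⟨(b (b (a (b (a (l 3) (a (b (b (l 16480328) (l 16483336)) (l 3)) (b (b (l 16475896) (l 16478920)) (l 16482992)))) (l 3)) (a (b (a (b (l 16473064) (l 16478632)) (b (b (l 16467216) (l 16470232)) (l 16474320))) (a (l 16485320) (l 16481024))) (b (a (b (l 16464544) (l 16470072)) (l 16484240)) (a (l 16476768) (l 16472576))))) (a (l 3) (b (a (c (l 16511360) (l 16488960)) (a (l 16483112) (l 16478904))) (a (l 3) (l 16526856))))) (l 3)), by decide +kernel⟩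

def k2_pm_022 : ∃ t, chk3 f_pm_022 t 41 2 1 = true :=
  ⟨(b (a (b (a (b (b (l 16454136) (l 16459712)) (a (l 16468432) (l 16464344))) (b (b (l 16445872) (l 16451480)) (l 16458208))) (a (b (a (l 16474736) (l 16470632)) (a (l 16478688) (l 16474560))) (b (l 16464528) (a (l 16470472) (l 16466400))))) (a (b (b (a (b (l 16439712) (l 16445336)) (l 16438584)) (a (l 16452080) (l 16448000))) (b (a (l 16458416) (l 16454344)) (l 16460304))) (b (a (a (b (l 16435560) (l 16444952)) (b (a (l 16434064) (l 16454048)) (l 16442928))) (a (a (a (b (b (l 16429448) (l 16434976)) (l 16441656)) (a (b (b (l 16429088) (l 16434600)) (l 16441264)) (b (b (a (a (l 16428936) (b (c (l 16455600) (l 16420664)) (l 16430344))) (l 16428792)) (l 16455320)) (l 16441000)))) (b (b (l 16428248) (l 16433744)) (l 16440384))) (b (b (l 16426800) (l 16432288)) (l 16438912)))) (a (b (c (l 16473920) (l 16469144)) (c (l 16477088) (l 16452936))) (a (a (a (b (l 16447960) (l 16451896)) (b (c (l 16492776) (l 16465672))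 (c (l 16453888) (l 16470528)))) (b (l 16446664) (l 16450592))) (b (l 16445184) (l 16449104))))))) (b (b (a (a (l 16498984) (l 16490896)) (a (a (l 16463896) (l 16459880)) (a (l 16455856) (a (a (a (l 16453592) (c (l 16434080) (l 16451888))) (l 16452312)) (l 16450832))))) (b (a (l 1) (a (l 1) (a (l 1) (a (l 1) (l 16450032))))) (l 1))) (l 1))), by decide +kernel⟩

def k3_pm_022 : ∃ t, chk3 f_pm_022 t 21 2 1 = true :=
  ⟨(b (b (b (b (a (b (l 16409184) (l 16412136)) (l 16382128)) (a (l 16416096) (l 16387296))) (a (l 16422600) (l 16393408))) (b (a (l 16428672) (l 16399080)) (a (l 16432488) (l 16402384)))) (b (b (l 16445040) (a (l 16516608) (l 16444832))) (b (l 307123125367) (l 1)))), by decide +kernel⟩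

def k4_pm_022 : ∃ t, chk3 f_pm_022 t 11 2 1 = true :=
  ⟨(b (b (b (a (b (a (l 16356040) (l 16332584)) (l 16369496)) (b (l 16302664) (l 16305864))) (a (b (l 16352136) (l 16355016)) (l 16330200))) (b (a (l 16358160) (l 16311152)) (a (l 16381232) (l 16311256)))) (b (b (a (l 16360952) (l 16309504)) (a (b (l 16360328) (l 16358984)) (l 16432992))) (b (c (l 16474080) (l 39224522343)) (a (l 388190388759) (l 16312168))))), by decide +kernel⟩

def k5_pm_022 : ∃ t, chk3 f_pm_022 t 5 3 1 = true :=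
  ⟨(a (l 1) (b (b (b (l 424160614407) (l 1)) (l 1)) (l 1))), by decide +kernel⟩

def k6_pm_022 : ∃ t, chk3 f_pm_022 t 3 1 1 = true :=
  ⟨(b (a (b (a (b (b (a (a (l 16280448) (l 16268176)) (b (l 16255816) (l 16255072))) (a (l 16338192) (l 16253080))) (a (b (l 16274240) (l 16270864)) (b (l 16247792) (l 16240872)))) (b (b (a (b (l 16251120) (l 16247784)) (b (l 16259120) (l 16252576))) (a (l 16242032) (l 16242816))) (b (a (l 16233080) (l 16228872)) (a (l 16221400) (l 16213640))))) (b (a (b (a (l 16266456) (l 16232200)) (a (l 16302984) (l 16223728))) (b (l 16347656) (a (l 16195480) (l 16178448)))) (b (a (a (l 16252696) (l 16212568)) (l 16316544)) (a (l 16296488) (a (l 16158872) (l 16134984)))))) (b (a (b (a (b (a (l 16268048) (l 16276872)) (l 16253904)) (b (b (l 16297480) (l 16286736)) (l 16271440))) (a (b (l 16235232) (l 16215592)) (b (l 16249648) (l 16226880)))) (b (b (b (a (l 16323088) (a (l 16347504) (l 16366784))) (a (l 16311408) (l 16341016))) (a (l 16293992)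 (l 16384352))) (a (b (l 16270856) (l 16245776)) (b (l 16296040) (l 16270520))))) (b (a (b (a (l 16194600) (l 16202328)) (a (l 16172024) (l 16177184))) (b (l 16355456) (l 16221288))) (a (a (l 16347056) (l 16136888)) (b (l 16173528) (l 16135952)))))) (b (a (b (a (b (l 186326731671) (a (l 299606476359) (l 16208944))) (b (l 16110984) (l 16114240))) (a (b (a (l 1) (l 302290717383)) (l 1)) (b (a (l 16147848) (l 16106344)) (l 283500181927)))) (b (a (b (l 16076536) (l 16021856)) (b (l 16088872) (l 16027040))) (a (b (l 16038064) (l 16086192)) (b (l 15947624) (l 16015184))))) (a (b (a (l 1) (a (l 1) (l 367252017783))) (l 1)) (b (a (b (l 16125640) (l 339334742503)) (l 16238320)) (a (l 455298914119) (l 362420441095)))))), by decide +kernel⟩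

theorem s7_pm_022 : ∃ t, chk3 f_pm_022 t 20 2 1 = true := ex3_a k1_pm_022 k2_pm_022

theorem s8_pm_022 : ∃ t, chk3 f_pm_022 t 10 2 1 = true := ex3_a s7_pm_022 k3_pm_022

theorem s9_pm_022 : ∃ t, chk3 f_pm_022 t 5 2 1 = true := ex3_a s8_pm_022 k4_pm_022

theorem s10_pm_022 : ∃ t, chk3 f_pm_022 t 5 1 1 = true := ex3_b s9_pm_022 k5_pm_022

theorem s11_pm_022 : ∃ t, chk3 f_pm_022 t 2 1 1 = true := ex3_a k0_pm_022 s10_pm_022

theorem s12_pm_022 : ∃ t, chk3 f_pm_022 t 1 1 1 = true := ex3_a s11_pm_022 k6_pm_022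

theorem c_pm_022 : CertB 0 536870912 1073741824 536870912 587336777 62277027 3 eng mog cd0q0 cd6q2 pd2 true true false .pp 0 2 2
    ndB0q0 ndB6q2 pcB2 Cut.none Ext.none :=
  certB2 (fam := true) (s1 := true) (s2 := false) (a := 0) (b := 2) (c := 2) (cn := .pp) (n1 := ndB0q0) (n2 := ndB6q2) (pc := pcB2) (cut := Cut.none) (xt := Ext.none) (P1 := 0) (W1 := 536870912) (P2 := 1073741824) (W2 := 536870912) (P3 := 587336777) (W3 := 62277027) (N0 := 3) (En := eng) (mo := mog) (C1 := cd0q0) (C2 := cd6q2) (C3 := pd2)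
    rfl (fun _ => rfl) s12_pm_022

noncomputable def f_pm_023 : ℕ → ℕ → ℕ → ℕ → Bool := onCell 0 536870912 1073741824 536870912 587336777 62277027
    (rowB 3 eng mog cd0q0 cd6q2 pd3 0 true true false .up 0 2 3 (qsf 0 536870912 1073741824 536870912 3) ndB0q0 ndB6q2 pcB3 Cut.none Ext.none)

def k0_pm_023 : ∃ t, chk3 f_pm_023 t 1 1 1 = true :=
  ⟨(a (b (a (l 1) (b (l 1) (a (l 1) (b (l 1) (l 16147504))))) (a (b (a (l 1) (l 216391554567)) (b (l 275447503383) (l 16339024))) (b (b (a (l 16036056) (l 16058000)) (l 224981245623)) (a (l 16123160) (l 16265920))))) (b (a (b (a (l 1) (b (l 1) (l 183642655719))) (a (b (l 213170509127) (l 16154048)) (b (l 16354512) (l 16205848)))) (b (a (b (l 192232388759) (l 109554476999)) (b (a (l 133713675239) (b (l 16408616) (l 16307784))) (a (l 16284632) (l 16314712)))) (a (b (l 16252080) (l 16268000)) (b (l 16307064) (l 16387216))))) (a (b (b (a (l 16119192) (l 16199304)) (l 16283880)) (a (l 16411016) (l 16521336))) (b (a (b (l 16353648)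 (l 16459376)) (b (l 16468496) (l 16541776))) (a (l 16596288) (b (l 16612808) (a (l 16658440) (b (l 16662368) (b (l 16678616) (a (l 16685136) (b (l 16689040) (a (l 16692024) (l 16694960))))))))))))), by decide +kernel⟩

theorem c_pm_023 : CertB 0 536870912 1073741824 536870912 587336777 62277027 3 eng mog cd0q0 cd6q2 pd3 true true false .up 0 2 3
    ndB0q0 ndB6q2 pcB3 Cut.none Ext.none :=
  certB0 (fam := true) (s1 := true) (s2 := false) (a := 0) (b := 2) (c := 3) (cn := .up) (n1 := ndB0q0) (n2 := ndB6q2) (pc := pcB3) (cut := Cut.none) (xt := Ext.none) (P1 := 0) (W1 := 536870912) (P2 := 1073741824) (W2 := 536870912) (P3 := 587336777) (W3 := 62277027) (N0 := 3) (En := eng) (mo := mog) (C1 := cd0q0) (C2 := cd6q2) (C3 := pd3)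
    rfl k0_pm_023

noncomputable def f_pm_033 : ℕ → ℕ → ℕ → ℕ → Bool := onCell 1610612736 536870912 0 1230186008 587336777 62277027
    (rowB 3 eng mog cd0q0 cd6q3 pd3 2 true true false .pnn 0 3 3 (qsf 0 536870912 0 1230186008 3) ndB0q0 ndB6q3 pcB3 Cut.none Ext.none)

def k0_pm_033 : ∃ t, chk3 f_pm_033 t 1 1 1 = true :=
  ⟨(a (b (l 1) (a (b (l 1) (b (l 1) (b (a (l 1) (l 354367514711)) (a (l 337724475127) (l 16263544))))) (b (a (l 1) (b (l 1) (b (l 1) (l 351683895671)))) (b (a (b (a (l 1) (l 354904720967)) (a (l 16385904) (l 16412720))) (b (l 251825821751) (l 16450464))) (b (a (l 16379672) (l 16446416)) (a (l 16568224) (l 16448144))))))) (b (a (l 1) (a (b (l 1) (a (b (l 1) (l 16557408)) (l 4))) (l 4))) (b (a (b (a (l 1) (a (l 256121026167) (l 16564488))) (a (b (l 387654330023) (l 16510320)) (b (l 16551856) (l 16551104)))) (a (b (a (l 16572640) (l 16580640)) (a (b (l 16580248) (l 16582960)) (l 16599440))) (a (b (l 16583568) (l 16611552)) (a (b (l 4) (l 16619176))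 (l 4))))) (b (a (a (b (l 16504072) (l 16503184)) (b (l 16553216) (l 16560048))) (a (b (l 16601496) (l 16614376)) (a (b (l 16639800) (l 16652584)) (a (l 16659000) (a (l 16661072) (l 548916943175)))))) (a (b (a (l 16513232) (l 16575808)) (a (l 16528288) (l 16597328))) (a (b (l 16631600) (l 16648408)) (a (l 16669128) (a (l 16932952) (a (l 16686688) (b (l 16685408) (l 16694384))))))))))), by decide +kernel⟩

theorem c_pm_033 : CertB 0 536870912 0 1230186008 587336777 62277027 3 eng mog cd0q0 cd6q3 pd3 true true false .pnn 0 3 3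
    ndB0q0 ndB6q3 pcB3 Cut.none Ext.none :=
  certB2 (fam := true) (s1 := true) (s2 := false) (a := 0) (b := 3) (c := 3) (cn := .pnn) (n1 := ndB0q0) (n2 := ndB6q3) (pc := pcB3) (cut := Cut.none) (xt := Ext.none) (P1 := 0) (W1 := 536870912) (P2 := 0) (W2 := 1230186008) (P3 := 587336777) (W3 := 62277027) (N0 := 3) (En := eng) (mo := mog) (C1 := cd0q0) (C2 := cd6q3) (C3 := pd3)
    rfl (fun _ => rfl) k0_pm_033

noncomputable def f_pm_101 : ℕ → ℕ → ℕ → ℕ → Bool := onCell 536870912 536870912 536870912 536870912 587336777 62277027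
    (rowB 3 eng mog cd0q1 cd6q0 pd1 1 true true false .npn 1 0 1 (qsf 536870912 536870912 0 536870912 1) ndB0q1 ndB6q0 pcB1 Cut.none Ext.none)

def k0_pm_101 : ∃ t, chk3 f_pm_101 t 2 2 1 = true :=
  ⟨(a (l 3) (b (a (b (l 1) (l 3)) (l 1)) (l 3))), by decide +kernel⟩

def k1_pm_101 : ∃ t, chk3 f_pm_101 t 2 6 1 = true :=
  ⟨(a (b (a (l 3) (b (l 3) (a (b (l 3) (l 224579789671)) (b (l 263234568887) (l 16791880))))) (a (b (a (b (a (l 3) (l 110226234935)) (a (c (l 51170355783) (l 16682984)) (c (l 29158768231) (l 16682488)))) (b (a (l 71034632951) (b (l 16766392) (l 16727776))) (a (l 16697392) (l 16700272)))) (a (b (a (l 16659344) (l 16638200)) (a (l 16621240) (l 16621272))) (b (a (l 16660584) (l 16663664)) (a (l 16622968) (l 16626400))))) (b (a (b (a (l 16737416) (l 16737344)) (a (l 16703944) (l 16706184))) (b (l 16738848) (l 16708016))) (a (b (l 16691360) (l 16676040)) (b (l 16677552) (l 16645400)))))) (b (a (b (a (l 3) (b (l 3) (b (l 3) (l 16857360)))) (a (b (l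 83919690183) (l 16776216)) (b (l 16823944) (l 16785376)))) (b (b (b (a (l 3) (a (l 3) (b (l 3) (b (l 3) (l 17013000))))) (a (l 98415594695) (a (l 16989648) (a (l 16975432) (l 17020704))))) (a (b (l 16987136) (l 16876888)) (a (l 16966360) (l 16994248)))) (a (b (l 16840864) (l 16799584)) (b (l 16918856) (l 16813240))))) (a (b (a (l 16770480) (l 16798968)) (a (l 16668424) (l 16677304))) (b (a (l 16788800) (l 16800440)) (a (l 16686576) (l 16695856)))))), by decide +kernel⟩

def k2_pm_101 : ∃ t, chk3 f_pm_101 t 2 7 1 = true :=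
  ⟨(a (b (a (b (a (b (a (l 16581696) (l 16581952)) (a (b (l 16550208) (a (l 16519984) (l 16528440))) (c (l 16632320) (l 16512112)))) (b (a (l 16583984) (l 16587776)) (a (l 16542816) (l 16546864)))) (a (a (a (l 16508128) (b (l 16474352) (l 16396320))) (b (c (l 16502864) (l 16462008)) (l 16416560))) (b (l 16500968) (l 16450840)))) (a (b (b (l 16596112) (l 16555920)) (l 16491136)) (b (l 16612184) (l 16509336)))) (a (b (a (a (l 16334680) (l 16299168)) (b (l 16382672) (l 16293056))) (a (a (l 16230352) (l 16200248)) (l 16239112))) (b (a (l 16370288) (l 16415400)) (a (b (l 16267128) (l 16188568)) (b (l 16335320) (l 16272624)))))) (a (b (a (b (l 16605096) (l 16530560)) (l 16584720)) (a (b (l 16440856) (l 16335904)) (b (l 16469520) (l 16369400)))) (b (a (l 16598968) (b (l 16639120) (l 16580256))) (a (l 16450808) (l 16473560))))), by decide +kernel⟩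

def k3_pm_101 : ∃ t, chk3 f_pm_101 t 3 2 1 = true :=
  ⟨(a (b (l 1) (a (a (a (b (l 1) (l 3)) (l 1)) (l 1)) (l 1))) (l 1)), by decide +kernel⟩

def k4_pm_101 : ∃ t, chk3 f_pm_101 t 6 3 1 = true :=
  ⟨(b (b (a (a (c (b (b (b (c (l 17005720) (l 70364127095)) (l 17007552)) (l 16967528)) (b (l 16859936) (l 16822576))) (b (b (b (a (b (a (l 3) (l 1)) (c (l 16999056) (a (b (b (l 3) (l 75732825207)) (l 17019776)) (l 383896716119)))) (l 1)) (a (b (c (l 16980872) (l 85396525495)) (l 17015792)) (b (l 1) (l 323230308263)))) (a (l 17014424) (b (l 100428880327) (l 16918992)))) (b (l 16957648) (l 16823864)))) (b (a (b (l 1) (b (l 1) (l 153042167095))) (l 1)) (b (c (l 114924304599) (a (l 100428773927) (l 192233716439))) (a (l 16825344) (l 16826464))))) (b (l 1) (a (b (l 1) (c (l 141767721543) (l 179885483607))) (l 1)))) (a (b (a (l 16807296) (c (l 16776096) (a (l 16761856) (l 16763040)))) (a (l 16702592) (a (l 16705168) (l 16705848)))) (a (b (a (b (l 16807816) (l 16751448))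 (c (l 101502297751) (b (l 182569780263) (l 16765040)))) (a (l 16705808) (b (l 16719512) (l 16691168)))) (a (b (c (l 164853067655) (b (l 1) (l 135861913383))) (c (l 16721208) (b (l 88617181031) (l 16673152)))) (b (l 1) (c (l 84859153943) (b (l 114386919463) (l 102575743751)))))))) (a (b (a (b (l 16645680) (l 16588456)) (b (l 16649816) (l 16593384))) (a (l 16487280) (b (l 16530352) (l 16455104)))) (b (a (b (b (l 16664664) (l 16638312)) (l 16597536)) (b (b (a (l 16663656) (c (l 16685488) (l 16641200))) (a (l 16638176) (l 16637048))) (a (l 16599048) (l 16599480)))) (a (b (l 16536256) (l 16462648)) (b (a (l 16540928) (l 16544064)) (a (l 16468640) (l 16473656))))))), by decide +kernel⟩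

def k5_pm_101 : ∃ t, chk3 f_pm_101 t 7 3 1 = true :=
  ⟨(b (a (b (l 1) (b (l 1) (a (a (a (b (l 1) (l 113313165255)) (l 1)) (l 1)) (l 1)))) (l 1)) (a (b (a (b (c (a (l 56404886231) (l 70900392423)) (a (b (l 91838259031) (l 16610296)) (b (l 91301383895) (l 82174505271)))) (c (a (l 16632800) (l 16632104)) (a (l 16568072) (b (l 16581136) (l 16554000))))) (b (a (c (l 82711552151) (b (l 1) (l 69289605671))) (l 1)) (c (a (l 42982999511) (l 48351714663)) (a (b (l 59088989607) (l 16553888)) (b (l 67678930215) (l 57478317783)))))) (b (a (a (l 16546960) (c (l 16590400) (l 16510624))) (a (b (l 16564016) (l 16538960)) (b (c (l 16603008) (l 16528392)) (l 16541880)))) (b (a (l 16501088) (a (l 16509592) (c (l 16560496) (l 16470896)))) (a (l 16461976) (a (l 16472624) (l 16479208)))))) (b (b (l 1) (b (l 1) (a (a (a (l 63920771639) (l 1)) (l 1)) (l 1)))) (b (b (a (a (c (l 16603656) (l 16530088)) (a (l 62310103639) (l 1))) (l 1)) (a (a (c (l 16585120) (l 16504048)) (b (c (l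 16590392) (l 16512264)) (l 16538016))) (a (a (a (l 16544416) (l 1)) (l 1)) (l 1)))) (a (a (b (c (l 16564072) (l 16475176)) (l 16485408)) (b (c (l 16565528) (l 16477184)) (c (l 16540208) (l 16443744)))) (c (a (b (l 16571072) (l 16543160)) (l 18286804391)) (a (b (l 16483128) (l 16447344)) (b (l 26876554791) (l 16451792))))))))), by decide +kernel⟩

theorem s6_pm_101 : ∃ t, chk3 f_pm_101 t 3 3 1 = true := ex3_a k4_pm_101 k5_pm_101

theorem s7_pm_101 : ∃ t, chk3 f_pm_101 t 3 1 1 = true := ex3_b k3_pm_101 s6_pm_101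

theorem s8_pm_101 : ∃ t, chk3 f_pm_101 t 2 3 1 = true := ex3_b k1_pm_101 k2_pm_101

theorem s9_pm_101 : ∃ t, chk3 f_pm_101 t 2 1 1 = true := ex3_b k0_pm_101 s8_pm_101

theorem s10_pm_101 : ∃ t, chk3 f_pm_101 t 1 1 1 = true := ex3_a s9_pm_101 s7_pm_101

theorem c_pm_101 : CertB 536870912 536870912 0 536870912 587336777 62277027 3 eng mog cd0q1 cd6q0 pd1 true true false .npn 1 0 1
    ndB0q1 ndB6q0 pcB1 Cut.none Ext.none :=
  certB1 (fam := true) (s1 := true) (s2 := false) (a := 1) (b := 0) (c := 1) (cn := .npn) (n1 := ndB0q1) (n2 := ndB6q0) (pc := pcB1) (cut := Cut.none) (xt := Ext.none) (P1 := 536870912) (W1 := 536870912) (P2 := 0) (W2 := 536870912) (P3 := 587336777) (W3 := 62277027) (N0 := 3) (En := eng) (mo := mog) (C1 := cd0q1) (C2 := cd6q0) (C3 := pd1)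
    rfl (fun _ => rfl) s10_pm_101

noncomputable def f_pm_102 : ℕ → ℕ → ℕ → ℕ → Bool := onCell 536870912 536870912 1073741824 536870912 587336777 62277027
    (rowB 3 eng mog cd0q1 cd6q0 pd2 1 true true false .npp 1 0 2 (qsf 536870912 536870912 0 536870912 2) ndB0q1 ndB6q0 pcB2 Cut.none Ext.none)

def k0_pm_102 : ∃ t, chk3 f_pm_102 t 2 1 1 = true :=
  ⟨(b (b (a (a (b (a (b (c (l 16164752) (l 16123080)) (l 16120696)) (b (l 16130104) (l 16032088))) (a (l 2) (b (l 16024528) (l 2)))) (b (b (a (l 16080344) (a (l 16153632) (l 16203200))) (a (l 15984576) (l 16080648))) (a (b (l 15984128) (l 15991552)) (b (l 16008384) (l 15962200))))) (a (b (a (b (l 16245920) (l 16184576)) (b (l 16283496) (l 16250960))) (a (b (l 16112272) (l 16058624)) (b (l 16205120) (l 16151120)))) (b (b (l 16441312) (l 16304192)) (a (l 16370088) (l 16290536))))) (a (b (a (l 2) (b (b (l 16016000) (l 2)) (l 2))) (l 2)) (b (a (b (b (l 16202648) (b (l 16066168) (a (l 16017496) (l 16102032)))) (a (l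 16012704) (l 16094000))) (b (l 16229672) (l 16207648))) (a (l 218606127863) (l 16224072))))) (a (l 2) (b (b (a (l 2) (l 16282656)) (l 2)) (l 2)))), by decide +kernel⟩

def k1_pm_102 : ∃ t, chk3 f_pm_102 t 3 1 1 = true :=
  ⟨(b (a (b (a (b (b (l 16440000) (l 16350584)) (l 16327384)) (b (a (l 16377128) (b (b (l 16403592) (l 16390248)) (l 16378112))) (l 16573000))) (b (a (b (l 16320184) (l 16318216)) (l 16372984)) (a (l 16337120) (l 16421464)))) (b (a (b (b (a (b (a (l 16410768) (l 16417408)) (l 16400432)) (b (a (l 16424992) (l 16433096)) (l 16416056))) (a (l 16390504) (b (l 16409512) (l 16407784)))) (a (l 16392040) (b (l 16411392) (l 16422544)))) (b (b (a (c (b (a (l 16496416) (l 16504048)) (l 16491704)) (b (a (l 16388240) (l 16396992)) (l 16380328))) (b (a (b (c (l 16514376) (l 16409536)) (l 16454944)) (a (b (b (l 16467720) (l 16464616)) (l 16463048)) (b (c (l 16523168) (b (l 16421152) (l 16418232))) (a (l 16469472) (l 16475768))))) (a (l 16452488) (a (l 16465424)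 (l 16457840))))) (a (a (l 16425936) (l 16440144)) (a (b (l 16455336) (l 16461400)) (b (l 16480288) (l 16490032))))) (a (b (l 16441200) (l 16455896)) (b (a (l 16472656) (l 16502688)) (l 16502080))))) (a (b (b (l 16421536) (l 16439480)) (l 16492536)) (b (b (a (l 16472920) (l 16518120)) (a (l 16493808) (l 16537296))) (l 16567808))))) (a (b (b (a (l 16381248) (l 16475712)) (a (l 16450808) (l 16535000))) (b (l 16590424) (l 2))) (b (a (b (l 16562808) (l 16623824)) (b (l 16635424) (l 16622352))) (b (a (l 16695880) (l 16770672)) (a (l 16767024) (l 16801176)))))), by decide +kernel⟩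

theorem s2_pm_102 : ∃ t, chk3 f_pm_102 t 1 1 1 = true := ex3_a k0_pm_102 k1_pm_102

theorem c_pm_102 : CertB 536870912 536870912 0 536870912 587336777 62277027 3 eng mog cd0q1 cd6q0 pd2 true true false .npp 1 0 2
    ndB0q1 ndB6q0 pcB2 Cut.none Ext.none :=
  certB1 (fam := true) (s1 := true) (s2 := false) (a := 1) (b := 0) (c := 2) (cn := .npp) (n1 := ndB0q1) (n2 := ndB6q0) (pc := pcB2) (cut := Cut.none) (xt := Ext.none) (P1 := 536870912) (W1 := 536870912) (P2 := 0) (W2 := 536870912) (P3 := 587336777) (W3 := 62277027) (N0 := 3) (En := eng) (mo := mog) (C1 := cd0q1) (C2 := cd6q0) (C3 := pd2)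
    rfl (fun _ => rfl) s2_pm_102

noncomputable def f_pm_112 : ℕ → ℕ → ℕ → ℕ → Bool := onCell 536870912 536870912 1073741824 536870912 587336777 62277027
    (rowB 3 eng mog cd0q1 cd6q1 pd2 1 true true false .dn 1 1 2 (qsf 536870912 536870912 536870912 536870912 2) ndB0q1 ndB6q1 pcB2 Cut.none Ext.none)

def k0_pm_112 : ∃ t, chk3 f_pm_112 t 1 1 1 = true :=
  ⟨(a (b (b (a (a (b (a (a (l 16163232) (l 16157272)) (l 131028784503)) (b (a (l 16088136) (l 16039208)) (a (l 16090880) (l 16046976)))) (b (b (l 1) (l 16035512)) (b (l 15964984) (l 16025360)))) (a (b (l 1) (a (l 16163280) (l 1))) (l 1))) (a (b (b (a (b (l 16088512) (b (l 16065976) (a (l 16087552) (l 16048680)))) (b (l 15987248) (b (l 15987728) (l 16073560)))) (a (a (l 16087416) (l 16052496)) (l 15998528))) (a (a (l 16125152) (l 16106792)) (l 16161216))) (b (a (b (b (l 16067136) (b (l 16059144) (a (l 16009552) (l 16094328)))) (a (l 15999608) (l 16088464))) (l 178810909671)) (a (l 16086904) (l 16220296)))))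 (a (b (a (b (l 16142632) (l 16152816)) (b (l 16140880) (l 16185528))) (a (b (a (l 16161760) (l 16192096)) (a (l 16175216) (l 16226352))) (b (l 16245248) (l 16298032)))) (b (b (a (l 16154288) (l 16267120)) (a (l 16227848) (l 16328520))) (a (l 16358576) (l 16458056))))) (b (a (b (l 1) (b (l 1) (a (l 16325136) (l 1)))) (l 1)) (a (a (b (a (l 16384168) (l 16434208)) (l 16552272)) (b (l 250751935367) (l 16643168))) (a (b (l 293164889639) (l 16577936)) (b (l 1) (b (l 16753824) (l 16796592))))))), by decide +kernel⟩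

theorem c_pm_112 : CertB 536870912 536870912 536870912 536870912 587336777 62277027 3 eng mog cd0q1 cd6q1 pd2 true true false .dn 1 1 2
    ndB0q1 ndB6q1 pcB2 Cut.none Ext.none :=
  certB1 (fam := true) (s1 := true) (s2 := false) (a := 1) (b := 1) (c := 2) (cn := .dn) (n1 := ndB0q1) (n2 := ndB6q1) (pc := pcB2) (cut := Cut.none) (xt := Ext.none) (P1 := 536870912) (W1 := 536870912) (P2 := 536870912) (W2 := 536870912) (P3 := 587336777) (W3 := 62277027) (N0 := 3) (En := eng) (mo := mog) (C1 := cd0q1) (C2 := cd6q1) (C3 := pd2)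
    rfl (fun _ => rfl) k0_pm_112

noncomputable def f_pm_113 : ℕ → ℕ → ℕ → ℕ → Bool := onCell 536870912 536870912 1610612736 536870912 587336777 62277027
    (rowB 3 eng mog cd0q1 cd6q1 pd3 1 true true false .nn 1 1 3 (qsf 536870912 536870912 536870912 536870912 3) ndB0q1 ndB6q1 pcB3 Cut.none Ext.none)

def k0_pm_113 : ∃ t, chk3 f_pm_113 t 1 1 1 = true :=
  ⟨(a (b (b (a (b (a (b (b (a (l 200889461847) (l 16280456)) (a (c (l 181561975383) (l 205183990791)) (l 16161648))) (a (l 265850663543) (l 16125632))) (b (b (l 16362712) (l 16259944)) (l 16234576))) (b (a (a (l 2) (l 314169006103)) (l 16249008)) (a (l 2) (l 296452263671)))) (b (a (b (l 16427696) (l 16380888)) (b (l 16514528) (l 16483448))) (a (b (l 16388408) (l 16392968)) (l 16483384)))) (b (b (a (a (l 2) (l 336180777367)) (a (l 352824116103) (l 16477488))) (a (l 2) (a (l 16382808) (l 16472032)))) (a (l 2) (a (l 367856770871) (l 370004456391))))) (b (a (l 2) (b (a (l 2) (l 430134195703)) (l 2))) (l 2)))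 (b (b (a (b (a (l 16589144) (l 16677952)) (a (l 16569480) (l 16657968))) (b (a (l 16751968) (l 16795320)) (a (l 16728104) (l 16772304)))) (a (b (a (l 16557272) (l 16637336)) (a (l 16555528) (l 16627304))) (b (a (l 16703992) (l 16742768)) (a (l 16682056) (l 4))))) (b (a (b (a (b (l 16558712) (l 16561944)) (l 16617472)) (a (b (l 16563008) (l 2)) (l 4))) (l 4)) (l 4)))), by decide +kernel⟩

theorem c_pm_113 : CertB 536870912 536870912 536870912 536870912 587336777 62277027 3 eng mog cd0q1 cd6q1 pd3 true true false .nn 1 1 3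
    ndB0q1 ndB6q1 pcB3 Cut.none Ext.none :=
  certB1 (fam := true) (s1 := true) (s2 := false) (a := 1) (b := 1) (c := 3) (cn := .nn) (n1 := ndB0q1) (n2 := ndB6q1) (pc := pcB3) (cut := Cut.none) (xt := Ext.none) (P1 := 536870912) (W1 := 536870912) (P2 := 536870912) (W2 := 536870912) (P3 := 587336777) (W3 := 62277027) (N0 := 3) (En := eng) (mo := mog) (C1 := cd0q1) (C2 := cd6q1) (C3 := pd3)
    rfl (fun _ => rfl) k0_pm_113

noncomputable def f_pm_123 : ℕ → ℕ → ℕ → ℕ → Bool := onCell 536870912 536870912 1610612736 536870912 587336777 62277027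
    (rowB 3 eng mog cd0q1 cd6q2 pd3 1 true true false .npn 1 2 3 (qsf 536870912 536870912 1073741824 536870912 3) ndB0q1 ndB6q2 pcB3 Cut.none Ext.none)

def k0_pm_123 : ∃ t, chk3 f_pm_123 t 2 1 1 = true :=
  ⟨(b (b (a (b (b (a (a (a (l 127808195335) (a (l 124586952183) (b (l 1) (c (l 127808173831) (l 146061662823))))) (b (l 1) (b (l 1) (b (l 1) (l 215854891159))))) (l 1)) (a (a (a (l 16334096) (l 16395648)) (b (l 129418717319) (l 98817134903))) (a (b (l 1) (l 229813614407)) (l 1)))) (b (a (a (l 16350424) (l 16393016)) (a (l 150893444039) (l 237866769431))) (a (a (l 16357688) (l 16406560)) (a (l 16414264) (a (l 16410136) (l 156262362199)))))) (b (l 1) (b (l 1) (a (a (b (l 1) (l 244309323351)) (l 1)) (l 1))))) (a (b (a (a (l 16369952) (l 16429912)) (b (a (l 16465824) (a (l 16499208) (l 16522056))) (l 16492480))) (a (a (l 16447688) (l 16464912)) (b (l 16497624) (l 16504512)))) (b (a (a (b (b (l 190622250055) (l 16554968)) (l 16550696)) (b (c (l 259878954695)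 (l 265247453447)) (l 16590160))) (b (l 1) (c (l 259342184231) (l 262563222903)))) (a (a (l 16545040) (l 16575560)) (a (l 34393056327) (a (l 16634904) (l 182569521495))))))) (b (a (a (b (l 16514104) (l 16569136)) (b (b (l 16518400) (l 16537752)) (l 16570648))) (b (a (b (l 16556712) (l 16560144)) (a (l 16591424) (l 16618544))) (a (a (l 16573568) (l 16578864)) (b (l 16597656) (l 16596712))))) (b (a (a (l 16624096) (l 16613064)) (a (l 16606824) (b (l 16600312) (l 16611768)))) (b (a (a (l 16662712) (l 16644656)) (a (l 16634120) (l 16619880))) (a (b (a (l 16679240) (l 16663176)) (b (l 16763232) (b (l 16681952) (l 16724152)))) (b (a (l 16641504) (l 16624272)) (b (l 16863880) (l 4)))))))), by decide +kernel⟩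

def k1_pm_123 : ∃ t, chk3 f_pm_123 t 3 1 1 = true :=
  ⟨(b (b (l 1) (a (b (l 1) (a (b (l 1) (c (l 16761672) (l 272763948487))) (l 1))) (l 1))) (b (a (b (a (b (l 16686656) (l 16669408)) (l 258805828359)) (a (l 16648488) (b (l 16740960) (l 16713728)))) (a (b (l 1) (b (l 1) (l 16782104))) (l 1))) (b (a (a (b (l 16632816) (l 16620152)) (b (l 16684048) (l 16658264))) (a (b (l 16743648) (l 4)) (l 4))) (a (b (a (l 16614408) (l 4)) (l 4)) (l 4))))), by decide +kernel⟩

theorem s2_pm_123 : ∃ t, chk3 f_pm_123 t 1 1 1 = true := ex3_a k0_pm_123 k1_pm_123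

theorem c_pm_123 : CertB 536870912 536870912 1073741824 536870912 587336777 62277027 3 eng mog cd0q1 cd6q2 pd3 true true false .npn 1 2 3
    ndB0q1 ndB6q2 pcB3 Cut.none Ext.none :=
  certB1 (fam := true) (s1 := true) (s2 := false) (a := 1) (b := 2) (c := 3) (cn := .npn) (n1 := ndB0q1) (n2 := ndB6q2) (pc := pcB3) (cut := Cut.none) (xt := Ext.none) (P1 := 536870912) (W1 := 536870912) (P2 := 1073741824) (W2 := 536870912) (P3 := 587336777) (W3 := 62277027) (N0 := 3) (En := eng) (mo := mog) (C1 := cd0q1) (C2 := cd6q2) (C3 := pd3)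
    rfl (fun _ => rfl) s2_pm_123

noncomputable def f_pm_133 : ℕ → ℕ → ℕ → ℕ → Bool := onCell 536870912 536870912 0 1230186008 587336777 62277027
    (rowB 3 eng mog cd0q1 cd6q3 pd3 0 true true false .dn 1 3 3 (qsf 536870912 536870912 0 1230186008 3) ndB0q1 ndB6q3 pcB3 Cut.none Ext.none)

def k0_pm_133 : ∃ t, chk3 f_pm_133 t 1 1 1 = true :=
  ⟨(b (l 2) (b (l 2) (a (b (l 2) (a (b (l 2) (a (l 16718016) (l 2))) (l 2))) (l 2)))), by decide +kernel⟩

theorem c_pm_133 : CertB 536870912 536870912 0 1230186008 587336777 62277027 3 eng mog cd0q1 cd6q3 pd3 true true false .dn 1 3 3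
    ndB0q1 ndB6q3 pcB3 Cut.none Ext.none :=
  certB0 (fam := true) (s1 := true) (s2 := false) (a := 1) (b := 3) (c := 3) (cn := .dn) (n1 := ndB0q1) (n2 := ndB6q3) (pc := pcB3) (cut := Cut.none) (xt := Ext.none) (P1 := 536870912) (W1 := 536870912) (P2 := 0) (W2 := 1230186008) (P3 := 587336777) (W3 := 62277027) (N0 := 3) (En := eng) (mo := mog) (C1 := cd0q1) (C2 := cd6q3) (C3 := pd3)
    rfl k0_pm_133

noncomputable def f_pm_202 : ℕ → ℕ → ℕ → ℕ → Bool := onCell 0 536870912 0 536870912 587336777 62277027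
    (rowB 3 eng mog cd0q2 cd6q0 pd2 0 true true false .pp 2 0 2 (qsf 0 536870912 0 536870912 2) ndB0q2 ndB6q0 pcB2 Cut.none Ext.none)

def k0_pm_202 : ∃ t, chk3 f_pm_202 t 1 2 1 = true :=
  ⟨(a (b (b (a (a (l 4) (b (l 16479768) (l 16509952))) (a (b (l 16474248) (l 16498704)) (b (a (l 16471592) (l 16468920)) (l 16488760)))) (a (l 4) (a (l 16665072) (b (l 16511624) (l 16536128))))) (a (l 4) (b (a (l 4) (l 16577872)) (l 4)))) (b (a (b (a (b (a (l 16466056) (l 16463280)) (a (l 16479072) (l 16472744))) (b (a (l 16461136) (b (l 16460144) (l 16460264))) (a (l 16467312) (l 16463704)))) (a (b (l 16495240) (l 16520024)) (b (a (l 16481816) (l 16474784)) (l 16502424)))) (a (b (b (b (a (l 16460616) (b (l 16462928) (l 16461264))) (a (l 16459424) (l 16459912))) (a (b (l 16460080) (l 16462904)) (l 16461728))) (b (a (l 16471824) (l 16472720)) (a (l 16493040) (l 16493664)))) (b (a (b (b (b (a (l 16464968) (l 16466592)) (l 16463624)) (a (l 16461344) (l 16463096))) (b (l 16463232)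 (l 16467456))) (b (a (b (b (b (a (l 16468952) (l 16469984)) (l 16468024)) (l 16466592)) (l 16466008)) (b (a (b (b (b (l 16471496) (l 16470752)) (l 16469848)) (l 16469016)) (a (b (b (b (l 16472328) (l 16471712)) (l 16471152)) (l 16471120)) (b (b (c (l 16525856) (a (l 16422360) (l 16423272))) (l 16472896)) (l 16473816)))) (a (l 16469952) (b (l 16473984) (l 16476576))))) (a (b (l 16468928) (l 16475288)) (b (l 16478056) (l 16486864))))) (a (b (l 16479136) (l 16503904)) (b (a (l 16490440) (l 16505384)) (l 16528808)))))) (a (b (a (l 16562480) (l 16550856)) (a (b (l 16611504) (l 16646960)) (l 16627456))) (b (a (b (a (l 16527432) (l 16528856)) (l 16569752)) (b (a (l 16540272) (l 16571072)) (a (l 16588584) (l 16589408)))) (a (l 16639568) (a (l 16667992) (l 16633272))))))), by decide +kernel⟩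

def k1_pm_202 : ∃ t, chk3 f_pm_202 t 1 3 1 = true :=
  ⟨(a (l 4) (b (a (b (a (l 16700088) (l 16713640)) (a (l 4) (l 16752056))) (a (b (l 16735952) (l 16772984)) (b (b (l 16691048) (l 16715160)) (l 16765496)))) (a (l 4) (b (a (l 16792696) (l 16813336)) (a (b (l 16769376) (l 2)) (l 16801696)))))), by decide +kernel⟩

theorem s2_pm_202 : ∃ t, chk3 f_pm_202 t 1 1 1 = true := ex3_b k0_pm_202 k1_pm_202

theorem c_pm_202 : CertB 0 536870912 0 536870912 587336777 62277027 3 eng mog cd0q2 cd6q0 pd2 true true false .pp 2 0 2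
    ndB0q2 ndB6q0 pcB2 Cut.none Ext.none :=
  certB0 (fam := true) (s1 := true) (s2 := false) (a := 2) (b := 0) (c := 2) (cn := .pp) (n1 := ndB0q2) (n2 := ndB6q0) (pc := pcB2) (cut := Cut.none) (xt := Ext.none) (P1 := 0) (W1 := 536870912) (P2 := 0) (W2 := 536870912) (P3 := 587336777) (W3 := 62277027) (N0 := 3) (En := eng) (mo := mog) (C1 := cd0q2) (C2 := cd6q0) (C3 := pd2)
    rfl s2_pm_202

noncomputable def f_pm_203 : ℕ → ℕ → ℕ → ℕ → Bool := onCell 0 536870912 1610612736 536870912 587336777 62277027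
    (rowB 3 eng mog cd0q2 cd6q0 pd3 1 true true false .up 2 0 3 (qsf 0 536870912 0 536870912 3) ndB0q2 ndB6q0 pcB3 Cut.none Ext.none)

def k0_pm_203 : ∃ t, chk3 f_pm_203 t 1 1 1 = true :=
  ⟨(b (a (l 4) (b (a (l 4) (b (l 16567176) (l 4))) (l 4))) (l 2)), by decide +kernel⟩

theorem c_pm_203 : CertB 0 536870912 0 536870912 587336777 62277027 3 eng mog cd0q2 cd6q0 pd3 true true false .up 2 0 3
    ndB0q2 ndB6q0 pcB3 Cut.none Ext.none :=
  certB1 (fam := true) (s1 := true) (s2 := false) (a := 2) (b := 0) (c := 3) (cn := .up) (n1 := ndB0q2) (n2 := ndB6q0) (pc := pcB3) (cut := Cut.none) (xt := Ext.none) (P1 := 0) (W1 := 536870912) (P2 := 0) (W2 := 536870912) (P3 := 587336777) (W3 := 62277027) (N0 := 3) (En := eng) (mo := mog) (C1 := cd0q2) (C2 := cd6q0) (C3 := pd3)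
    rfl (fun _ => rfl) k0_pm_203

noncomputable def f_pm_213 : ℕ → ℕ → ℕ → ℕ → Bool := onCell 0 536870912 1610612736 536870912 587336777 62277027
    (rowB 3 eng mog cd0q2 cd6q1 pd3 1 true true false .pnn 2 1 3 (qsf 0 536870912 536870912 536870912 3) ndB0q2 ndB6q1 pcB3 Cut.none Ext.none)

def k0_pm_213 : ∃ t, chk3 f_pm_213 t 1 1 1 = true :=
  ⟨(b (a (l 4) (b (a (l 4) (b (l 16751192) (l 4))) (l 4))) (l 4)), by decide +kernel⟩

theorem c_pm_213 : CertB 0 536870912 536870912 536870912 587336777 62277027 3 eng mog cd0q2 cd6q1 pd3 true true false .pnn 2 1 3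
    ndB0q2 ndB6q1 pcB3 Cut.none Ext.none :=
  certB1 (fam := true) (s1 := true) (s2 := false) (a := 2) (b := 1) (c := 3) (cn := .pnn) (n1 := ndB0q2) (n2 := ndB6q1) (pc := pcB3) (cut := Cut.none) (xt := Ext.none) (P1 := 0) (W1 := 536870912) (P2 := 536870912) (W2 := 536870912) (P3 := 587336777) (W3 := 62277027) (N0 := 3) (En := eng) (mo := mog) (C1 := cd0q2) (C2 := cd6q1) (C3 := pd3)
    rfl (fun _ => rfl) k0_pm_213

noncomputable def f_mm_001 : ℕ → ℕ → ℕ → ℕ → Bool := onCell 0 536870912 0 536870912 587336777 62277027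
    (rowB 3 eng mog cd0q0 cd6q0 pd1 0 true false false .up 0 0 1 (qsf 0 536870912 0 536870912 1) ndB0q0 ndB6q0 pcB1 Cut.none Ext.none)

def k0_mm_001 : ∃ t, chk3 f_mm_001 t 1 1 1 = true :=
  ⟨(l 4), by decide +kernel⟩

theorem c_mm_001 : CertB 0 536870912 0 536870912 587336777 62277027 3 eng mog cd0q0 cd6q0 pd1 true false false .up 0 0 1
    ndB0q0 ndB6q0 pcB1 Cut.none Ext.none :=
  certB0 (fam := true) (s1 := false) (s2 := false) (a := 0) (b := 0) (c := 1) (cn := .up) (n1 := ndB0q0) (n2 := ndB6q0) (pc := pcB1) (cut := Cut.none) (xt := Ext.none) (P1 := 0) (W1 := 536870912) (P2 := 0) (W2 := 536870912) (P3 := 587336777) (W3 := 62277027) (N0 := 3) (En := eng) (mo := mog) (C1 := cd0q0) (C2 := cd6q0) (C3 := pd1)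
    rfl k0_mm_001

noncomputable def f_mm_011 : ℕ → ℕ → ℕ → ℕ → Bool := onCell 0 536870912 536870912 536870912 587336777 62277027
    (rowB 3 eng mog cd0q0 cd6q1 pd1 0 true false false .pnn 0 1 1 (qsf 0 536870912 536870912 536870912 1) ndB0q0 ndB6q1 pcB1 Cut.none Ext.none)

def k0_mm_011 : ∃ t, chk3 f_mm_011 t 1 1 1 = true :=
  ⟨(l 4), by decide +kernel⟩

theorem c_mm_011 : CertB 0 536870912 536870912 536870912 587336777 62277027 3 eng mog cd0q0 cd6q1 pd1 true false false .pnn 0 1 1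
    ndB0q0 ndB6q1 pcB1 Cut.none Ext.none :=
  certB0 (fam := true) (s1 := false) (s2 := false) (a := 0) (b := 1) (c := 1) (cn := .pnn) (n1 := ndB0q0) (n2 := ndB6q1) (pc := pcB1) (cut := Cut.none) (xt := Ext.none) (P1 := 0) (W1 := 536870912) (P2 := 536870912) (W2 := 536870912) (P3 := 587336777) (W3 := 62277027) (N0 := 3) (En := eng) (mo := mog) (C1 := cd0q0) (C2 := cd6q1) (C3 := pd1)
    rfl k0_mm_011

noncomputable def f_mm_012 : ℕ → ℕ → ℕ → ℕ → Bool := onCell 0 536870912 536870912 536870912 587336777 62277027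
    (rowB 3 eng mog cd0q0 cd6q1 pd2 0 true false false .pnp 0 1 2 (qsf 0 536870912 536870912 536870912 2) ndB0q0 ndB6q1 pcB2 Cut.none Ext.none)

def k0_mm_012 : ∃ t, chk3 f_mm_012 t 1 1 1 = true :=
  ⟨(l 4), by decide +kernel⟩

theorem c_mm_012 : CertB 0 536870912 536870912 536870912 587336777 62277027 3 eng mog cd0q0 cd6q1 pd2 true false false .pnp 0 1 2
    ndB0q0 ndB6q1 pcB2 Cut.none Ext.none :=
  certB0 (fam := true) (s1 := false) (s2 := false) (a := 0) (b := 1) (c := 2) (cn := .pnp) (n1 := ndB0q0) (n2 := ndB6q1) (pc := pcB2) (cut := Cut.none) (xt := Ext.none) (P1 := 0) (W1 := 536870912) (P2 := 536870912) (W2 := 536870912) (P3 := 587336777) (W3 := 62277027) (N0 := 3) (En := eng) (mo := mog) (C1 := cd0q0) (C2 := cd6q1) (C3 := pd2)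
    rfl k0_mm_012

noncomputable def f_mm_022 : ℕ → ℕ → ℕ → ℕ → Bool := onCell 0 536870912 1073741824 536870912 587336777 62277027
    (rowB 3 eng mog cd0q0 cd6q2 pd2 0 true false false .pp 0 2 2 (qsf 0 536870912 1073741824 536870912 2) ndB0q0 ndB6q2 pcB2 Cut.none Ext.none)

def k0_mm_022 : ∃ t, chk3 f_mm_022 t 1 1 1 = true :=
  ⟨(l 4), by decide +kernel⟩

theorem c_mm_022 : CertB 0 536870912 1073741824 536870912 587336777 62277027 3 eng mog cd0q0 cd6q2 pd2 true false false .pp 0 2 2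
    ndB0q0 ndB6q2 pcB2 Cut.none Ext.none :=
  certB0 (fam := true) (s1 := false) (s2 := false) (a := 0) (b := 2) (c := 2) (cn := .pp) (n1 := ndB0q0) (n2 := ndB6q2) (pc := pcB2) (cut := Cut.none) (xt := Ext.none) (P1 := 0) (W1 := 536870912) (P2 := 1073741824) (W2 := 536870912) (P3 := 587336777) (W3 := 62277027) (N0 := 3) (En := eng) (mo := mog) (C1 := cd0q0) (C2 := cd6q2) (C3 := pd2)
    rfl k0_mm_022

noncomputable def f_mm_023 : ℕ → ℕ → ℕ → ℕ → Bool := onCell 0 536870912 1073741824 536870912 587336777 62277027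
    (rowB 3 eng mog cd0q0 cd6q2 pd3 0 true false false .up 0 2 3 (qsf 0 536870912 1073741824 536870912 3) ndB0q0 ndB6q2 pcB3 Cut.none Ext.none)

def k0_mm_023 : ∃ t, chk3 f_mm_023 t 1 1 1 = true :=
  ⟨(l 4), by decide +kernel⟩

theorem c_mm_023 : CertB 0 536870912 1073741824 536870912 587336777 62277027 3 eng mog cd0q0 cd6q2 pd3 true false false .up 0 2 3
    ndB0q0 ndB6q2 pcB3 Cut.none Ext.none :=
  certB0 (fam := true) (s1 := false) (s2 := false) (a := 0) (b := 2) (c := 3) (cn := .up) (n1 := ndB0q0) (n2 := ndB6q2) (pc := pcB3) (cut := Cut.none) (xt := Ext.none) (P1 := 0) (W1 := 536870912) (P2 := 1073741824) (W2 := 536870912) (P3 := 587336777) (W3 := 62277027) (N0 := 3) (En := eng) (mo := mog) (C1 := cd0q0) (C2 := cd6q2) (C3 := pd3)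
    rfl k0_mm_023

noncomputable def f_mm_033 : ℕ → ℕ → ℕ → ℕ → Bool := onCell 0 536870912 0 1230186008 587336777 62277027
    (rowB 3 eng mog cd0q0 cd6q3 pd3 0 true false false .pnn 0 3 3 (qsf 0 536870912 0 1230186008 3) ndB0q0 ndB6q3 pcB3 Cut.none Ext.none)

def k0_mm_033 : ∃ t, chk3 f_mm_033 t 1 1 1 = true :=
  ⟨(l 5), by decide +kernel⟩

theorem c_mm_033 : CertB 0 536870912 0 1230186008 587336777 62277027 3 eng mog cd0q0 cd6q3 pd3 true false false .pnn 0 3 3
    ndB0q0 ndB6q3 pcB3 Cut.none Ext.none :=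
  certB0 (fam := true) (s1 := false) (s2 := false) (a := 0) (b := 3) (c := 3) (cn := .pnn) (n1 := ndB0q0) (n2 := ndB6q3) (pc := pcB3) (cut := Cut.none) (xt := Ext.none) (P1 := 0) (W1 := 536870912) (P2 := 0) (W2 := 1230186008) (P3 := 587336777) (W3 := 62277027) (N0 := 3) (En := eng) (mo := mog) (C1 := cd0q0) (C2 := cd6q3) (C3 := pd3)
    rfl k0_mm_033

noncomputable def f_mm_101 : ℕ → ℕ → ℕ → ℕ → Bool := onCell 536870912 536870912 0 536870912 587336777 62277027
    (rowB 3 eng mog cd0q1 cd6q0 pd1 0 true false false .npn 1 0 1 (qsf 536870912 536870912 0 536870912 1) ndB0q1 ndB6q0 pcB1 Cut.none Ext.none)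

def k0_mm_101 : ∃ t, chk3 f_mm_101 t 1 1 1 = true :=
  ⟨(l 4), by decide +kernel⟩

theorem c_mm_101 : CertB 536870912 536870912 0 536870912 587336777 62277027 3 eng mog cd0q1 cd6q0 pd1 true false false .npn 1 0 1
    ndB0q1 ndB6q0 pcB1 Cut.none Ext.none :=
  certB0 (fam := true) (s1 := false) (s2 := false) (a := 1) (b := 0) (c := 1) (cn := .npn) (n1 := ndB0q1) (n2 := ndB6q0) (pc := pcB1) (cut := Cut.none) (xt := Ext.none) (P1 := 536870912) (W1 := 536870912) (P2 := 0) (W2 := 536870912) (P3 := 587336777) (W3 := 62277027) (N0 := 3) (En := eng) (mo := mog) (C1 := cd0q1) (C2 := cd6q0) (C3 := pd1)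
    rfl k0_mm_101

noncomputable def f_mm_102 : ℕ → ℕ → ℕ → ℕ → Bool := onCell 536870912 536870912 0 536870912 587336777 62277027
    (rowB 3 eng mog cd0q1 cd6q0 pd2 0 true false false .npp 1 0 2 (qsf 536870912 536870912 0 536870912 2) ndB0q1 ndB6q0 pcB2 Cut.none Ext.none)

def k0_mm_102 : ∃ t, chk3 f_mm_102 t 1 1 1 = true :=
  ⟨(l 4), by decide +kernel⟩

theorem c_mm_102 : CertB 536870912 536870912 0 536870912 587336777 62277027 3 eng mog cd0q1 cd6q0 pd2 true false false .npp 1 0 2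
    ndB0q1 ndB6q0 pcB2 Cut.none Ext.none :=
  certB0 (fam := true) (s1 := false) (s2 := false) (a := 1) (b := 0) (c := 2) (cn := .npp) (n1 := ndB0q1) (n2 := ndB6q0) (pc := pcB2) (cut := Cut.none) (xt := Ext.none) (P1 := 536870912) (W1 := 536870912) (P2 := 0) (W2 := 536870912) (P3 := 587336777) (W3 := 62277027) (N0 := 3) (En := eng) (mo := mog) (C1 := cd0q1) (C2 := cd6q0) (C3 := pd2)
    rfl k0_mm_102

noncomputable def f_mm_112 : ℕ → ℕ → ℕ → ℕ → Bool := onCell 536870912 536870912 536870912 536870912 587336777 62277027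
    (rowB 3 eng mog cd0q1 cd6q1 pd2 0 true false false .dn 1 1 2 (qsf 536870912 536870912 536870912 536870912 2) ndB0q1 ndB6q1 pcB2 Cut.none Ext.none)

def k0_mm_112 : ∃ t, chk3 f_mm_112 t 1 1 1 = true :=
  ⟨(l 4), by decide +kernel⟩

theorem c_mm_112 : CertB 536870912 536870912 536870912 536870912 587336777 62277027 3 eng mog cd0q1 cd6q1 pd2 true false false .dn 1 1 2
    ndB0q1 ndB6q1 pcB2 Cut.none Ext.none :=
  certB0 (fam := true) (s1 := false) (s2 := false) (a := 1) (b := 1) (c := 2) (cn := .dn) (n1 := ndB0q1) (n2 := ndB6q1) (pc := pcB2) (cut := Cut.none) (xt := Ext.none) (P1 := 536870912) (W1 := 536870912) (P2 := 536870912) (W2 := 536870912) (P3 := 587336777) (W3 := 62277027) (N0 := 3) (En := eng) (mo := mog) (C1 := cd0q1) (C2 := cd6q1) (C3 := pd2)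
    rfl k0_mm_112

noncomputable def f_mm_113 : ℕ → ℕ → ℕ → ℕ → Bool := onCell 536870912 536870912 536870912 536870912 587336777 62277027
    (rowB 3 eng mog cd0q1 cd6q1 pd3 0 true false false .nn 1 1 3 (qsf 536870912 536870912 536870912 536870912 3) ndB0q1 ndB6q1 pcB3 Cut.none Ext.none)

def k0_mm_113 : ∃ t, chk3 f_mm_113 t 1 1 1 = true :=
  ⟨(l 4), by decide +kernel⟩

theorem c_mm_113 : CertB 536870912 536870912 536870912 536870912 587336777 62277027 3 eng mog cd0q1 cd6q1 pd3 true false false .nn 1 1 3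
    ndB0q1 ndB6q1 pcB3 Cut.none Ext.none :=
  certB0 (fam := true) (s1 := false) (s2 := false) (a := 1) (b := 1) (c := 3) (cn := .nn) (n1 := ndB0q1) (n2 := ndB6q1) (pc := pcB3) (cut := Cut.none) (xt := Ext.none) (P1 := 536870912) (W1 := 536870912) (P2 := 536870912) (W2 := 536870912) (P3 := 587336777) (W3 := 62277027) (N0 := 3) (En := eng) (mo := mog) (C1 := cd0q1) (C2 := cd6q1) (C3 := pd3)
    rfl k0_mm_113

noncomputable def f_mm_123 : ℕ → ℕ → ℕ → ℕ → Bool := onCell 536870912 536870912 1073741824 536870912 587336777 62277027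
    (rowB 3 eng mog cd0q1 cd6q2 pd3 0 true false false .npn 1 2 3 (qsf 536870912 536870912 1073741824 536870912 3) ndB0q1 ndB6q2 pcB3 Cut.none Ext.none)

def k0_mm_123 : ∃ t, chk3 f_mm_123 t 1 1 1 = true :=
  ⟨(l 4), by decide +kernel⟩

theorem c_mm_123 : CertB 536870912 536870912 1073741824 536870912 587336777 62277027 3 eng mog cd0q1 cd6q2 pd3 true false false .npn 1 2 3
    ndB0q1 ndB6q2 pcB3 Cut.none Ext.none :=
  certB0 (fam := true) (s1 := false) (s2 := false) (a := 1) (b := 2) (c := 3) (cn := .npn) (n1 := ndB0q1) (n2 := ndB6q2) (pc := pcB3) (cut := Cut.none) (xt := Ext.none) (P1 := 536870912) (W1 := 536870912) (P2 := 1073741824) (W2 := 536870912) (P3 := 587336777) (W3 := 62277027) (N0 := 3) (En := eng) (mo := mog) (C1 := cd0q1) (C2 := cd6q2) (C3 := pd3)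
    rfl k0_mm_123

noncomputable def f_mm_133 : ℕ → ℕ → ℕ → ℕ → Bool := onCell 536870912 536870912 0 1230186008 587336777 62277027
    (rowB 3 eng mog cd0q1 cd6q3 pd3 0 true false false .dn 1 3 3 (qsf 536870912 536870912 0 1230186008 3) ndB0q1 ndB6q3 pcB3 Cut.none Ext.none)

def k0_mm_133 : ∃ t, chk3 f_mm_133 t 1 1 1 = true :=
  ⟨(l 4), by decide +kernel⟩

theorem c_mm_133 : CertB 536870912 536870912 0 1230186008 587336777 62277027 3 eng mog cd0q1 cd6q3 pd3 true false false .dn 1 3 3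
    ndB0q1 ndB6q3 pcB3 Cut.none Ext.none :=
  certB0 (fam := true) (s1 := false) (s2 := false) (a := 1) (b := 3) (c := 3) (cn := .dn) (n1 := ndB0q1) (n2 := ndB6q3) (pc := pcB3) (cut := Cut.none) (xt := Ext.none) (P1 := 536870912) (W1 := 536870912) (P2 := 0) (W2 := 1230186008) (P3 := 587336777) (W3 := 62277027) (N0 := 3) (En := eng) (mo := mog) (C1 := cd0q1) (C2 := cd6q3) (C3 := pd3)
    rfl k0_mm_133

noncomputable def f_mm_202 : ℕ → ℕ → ℕ → ℕ → Bool := onCell 0 536870912 0 536870912 587336777 62277027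
    (rowB 3 eng mog cd0q2 cd6q0 pd2 0 true false false .pp 2 0 2 (qsf 0 536870912 0 536870912 2) ndB0q2 ndB6q0 pcB2 Cut.none Ext.none)

def k0_mm_202 : ∃ t, chk3 f_mm_202 t 1 1 1 = true :=
  ⟨(l 4), by decide +kernel⟩

theorem c_mm_202 : CertB 0 536870912 0 536870912 587336777 62277027 3 eng mog cd0q2 cd6q0 pd2 true false false .pp 2 0 2
    ndB0q2 ndB6q0 pcB2 Cut.none Ext.none :=
  certB0 (fam := true) (s1 := false) (s2 := false) (a := 2) (b := 0) (c := 2) (cn := .pp) (n1 := ndB0q2) (n2 := ndB6q0) (pc := pcB2) (cut := Cut.none) (xt := Ext.none) (P1 := 0) (W1 := 536870912) (P2 := 0) (W2 := 536870912) (P3 := 587336777) (W3 := 62277027) (N0 := 3) (En := eng) (mo := mog) (C1 := cd0q2) (C2 := cd6q0) (C3 := pd2)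
    rfl k0_mm_202

noncomputable def f_mm_203 : ℕ → ℕ → ℕ → ℕ → Bool := onCell 0 536870912 0 536870912 587336777 62277027
    (rowB 3 eng mog cd0q2 cd6q0 pd3 0 true false false .up 2 0 3 (qsf 0 536870912 0 536870912 3) ndB0q2 ndB6q0 pcB3 Cut.none Ext.none)

def k0_mm_203 : ∃ t, chk3 f_mm_203 t 1 1 1 = true :=
  ⟨(l 4), by decide +kernel⟩

theorem c_mm_203 : CertB 0 536870912 0 536870912 587336777 62277027 3 eng mog cd0q2 cd6q0 pd3 true false false .up 2 0 3
    ndB0q2 ndB6q0 pcB3 Cut.none Ext.none :=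
  certB0 (fam := true) (s1 := false) (s2 := false) (a := 2) (b := 0) (c := 3) (cn := .up) (n1 := ndB0q2) (n2 := ndB6q0) (pc := pcB3) (cut := Cut.none) (xt := Ext.none) (P1 := 0) (W1 := 536870912) (P2 := 0) (W2 := 536870912) (P3 := 587336777) (W3 := 62277027) (N0 := 3) (En := eng) (mo := mog) (C1 := cd0q2) (C2 := cd6q0) (C3 := pd3)
    rfl k0_mm_203

noncomputable def f_mm_213 : ℕ → ℕ → ℕ → ℕ → Bool := onCell 0 536870912 536870912 536870912 587336777 62277027
    (rowB 3 eng mog cd0q2 cd6q1 pd3 0 true false false .pnn 2 1 3 (qsf 0 536870912 536870912 536870912 3) ndB0q2 ndB6q1 pcB3 Cut.none Ext.none)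

def k0_mm_213 : ∃ t, chk3 f_mm_213 t 1 1 1 = true :=
  ⟨(l 4), by decide +kernel⟩

theorem c_mm_213 : CertB 0 536870912 536870912 536870912 587336777 62277027 3 eng mog cd0q2 cd6q1 pd3 true false false .pnn 2 1 3
    ndB0q2 ndB6q1 pcB3 Cut.none Ext.none :=
  certB0 (fam := true) (s1 := false) (s2 := false) (a := 2) (b := 1) (c := 3) (cn := .pnn) (n1 := ndB0q2) (n2 := ndB6q1) (pc := pcB3) (cut := Cut.none) (xt := Ext.none) (P1 := 0) (W1 := 536870912) (P2 := 536870912) (W2 := 536870912) (P3 := 587336777) (W3 := 62277027) (N0 := 3) (En := eng) (mo := mog) (C1 := cd0q2) (C2 := cd6q1) (C3 := pd3)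
    rfl k0_mm_213

end Pool.Agent.Strip051.G.I5470_6050.Tab.C.BA06

namespace Pool.Agent.Strip051.G.I5470_6050.Tab.C.BA07

open Pool.Agent.Strip051.PB Pool.Agent.Strip051.PB.T
open Pool.Agent.Strip051.G.I5470_6050.Tab

noncomputable def cut_pp_001 : Cut := Cut.of [[⟨3, 0, 0, 1449551462⟩]]

noncomputable def f_pp_001 : ℕ → ℕ → ℕ → ℕ → Bool := onCell 0 536870912 0 536870912 587336777 62277027
    (rowB 3 eng mog cd0q0 cd7q0 pd1 0 true true true .up 0 0 1 (qsf 0 536870912 0 536870912 1) ndB0q0 ndB7q0 pcB1 cut_pp_001 Ext.none)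

def k0_pp_001 : ∃ t, chk3 f_pp_001 t 1 1 1 = true :=
  ⟨(l 4), by decide +kernel⟩

theorem c_pp_001 : CertB 0 536870912 0 536870912 587336777 62277027 3 eng mog cd0q0 cd7q0 pd1 true true true .up 0 0 1
    ndB0q0 ndB7q0 pcB1 cut_pp_001 Ext.none :=
  certB0 (fam := true) (s1 := true) (s2 := true) (a := 0) (b := 0) (c := 1) (cn := .up) (n1 := ndB0q0) (n2 := ndB7q0) (pc := pcB1) (cut := cut_pp_001) (xt := Ext.none) (P1 := 0) (W1 := 536870912) (P2 := 0) (W2 := 536870912) (P3 := 587336777) (W3 := 62277027) (N0 := 3) (En := eng) (mo := mog) (C1 := cd0q0) (C2 := cd7q0) (C3 := pd1)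
    rfl k0_pp_001

noncomputable def cut_pp_011 : Cut := Cut.of [[⟨3, 0, 0, 1449551462⟩]]

noncomputable def f_pp_011 : ℕ → ℕ → ℕ → ℕ → Bool := onCell 0 536870912 536870912 536870912 587336777 62277027
    (rowB 3 eng mog cd0q0 cd7q1 pd1 0 true true true .pnn 0 1 1 (qsf 0 536870912 536870912 536870912 1) ndB0q0 ndB7q1 pcB1 cut_pp_011 Ext.none)

def k0_pp_011 : ∃ t, chk3 f_pp_011 t 1 1 1 = true :=
  ⟨(l 4), by decide +kernel⟩

theorem c_pp_011 : CertB 0 536870912 536870912 536870912 587336777 62277027 3 eng mog cd0q0 cd7q1 pd1 true true true .pnn 0 1 1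
    ndB0q0 ndB7q1 pcB1 cut_pp_011 Ext.none :=
  certB0 (fam := true) (s1 := true) (s2 := true) (a := 0) (b := 1) (c := 1) (cn := .pnn) (n1 := ndB0q0) (n2 := ndB7q1) (pc := pcB1) (cut := cut_pp_011) (xt := Ext.none) (P1 := 0) (W1 := 536870912) (P2 := 536870912) (W2 := 536870912) (P3 := 587336777) (W3 := 62277027) (N0 := 3) (En := eng) (mo := mog) (C1 := cd0q0) (C2 := cd7q1) (C3 := pd1)
    rfl k0_pp_011

noncomputable def cut_pp_012 : Cut := Cut.of [[⟨3, 0, 0, 1449551462⟩]]

noncomputable def f_pp_012 : ℕ → ℕ → ℕ → ℕ → Bool := onCell 0 536870912 536870912 536870912 587336777 62277027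
    (rowB 3 eng mog cd0q0 cd7q1 pd2 0 true true true .pnp 0 1 2 (qsf 0 536870912 536870912 536870912 2) ndB0q0 ndB7q1 pcB2 cut_pp_012 Ext.none)

def k0_pp_012 : ∃ t, chk3 f_pp_012 t 1 1 1 = true :=
  ⟨(l 4), by decide +kernel⟩

theorem c_pp_012 : CertB 0 536870912 536870912 536870912 587336777 62277027 3 eng mog cd0q0 cd7q1 pd2 true true true .pnp 0 1 2
    ndB0q0 ndB7q1 pcB2 cut_pp_012 Ext.none :=
  certB0 (fam := true) (s1 := true) (s2 := true) (a := 0) (b := 1) (c := 2) (cn := .pnp) (n1 := ndB0q0) (n2 := ndB7q1) (pc := pcB2) (cut := cut_pp_012) (xt := Ext.none) (P1 := 0) (W1 := 536870912) (P2 := 536870912) (W2 := 536870912) (P3 := 587336777) (W3 := 62277027) (N0 := 3) (En := eng) (mo := mog) (C1 := cd0q0) (C2 := cd7q1) (C3 := pd2)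
    rfl k0_pp_012

noncomputable def cut_pp_022 : Cut := Cut.of [[⟨3, 0, 0, 1449551462⟩]]

noncomputable def f_pp_022 : ℕ → ℕ → ℕ → ℕ → Bool := onCell 0 536870912 1073741824 536870912 587336777 62277027
    (rowB 3 eng mog cd0q0 cd7q2 pd2 0 true true true .pp 0 2 2 (qsf 0 536870912 1073741824 536870912 2) ndB0q0 ndB7q2 pcB2 cut_pp_022 Ext.none)

def k0_pp_022 : ∃ t, chk3 f_pp_022 t 1 1 1 = true :=
  ⟨(l 4), by decide +kernel⟩

theorem c_pp_022 : CertB 0 536870912 1073741824 536870912 587336777 62277027 3 eng mog cd0q0 cd7q2 pd2 true true true .pp 0 2 2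
    ndB0q0 ndB7q2 pcB2 cut_pp_022 Ext.none :=
  certB0 (fam := true) (s1 := true) (s2 := true) (a := 0) (b := 2) (c := 2) (cn := .pp) (n1 := ndB0q0) (n2 := ndB7q2) (pc := pcB2) (cut := cut_pp_022) (xt := Ext.none) (P1 := 0) (W1 := 536870912) (P2 := 1073741824) (W2 := 536870912) (P3 := 587336777) (W3 := 62277027) (N0 := 3) (En := eng) (mo := mog) (C1 := cd0q0) (C2 := cd7q2) (C3 := pd2)
    rfl k0_pp_022

noncomputable def cut_pp_023 : Cut := Cut.of [[⟨3, 0, 0, 1449551462⟩]]

noncomputable def f_pp_023 : ℕ → ℕ → ℕ → ℕ → Bool := onCell 0 536870912 1073741824 536870912 587336777 62277027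
    (rowB 3 eng mog cd0q0 cd7q2 pd3 0 true true true .up 0 2 3 (qsf 0 536870912 1073741824 536870912 3) ndB0q0 ndB7q2 pcB3 cut_pp_023 Ext.none)

def k0_pp_023 : ∃ t, chk3 f_pp_023 t 1 1 1 = true :=
  ⟨(l 4), by decide +kernel⟩

theorem c_pp_023 : CertB 0 536870912 1073741824 536870912 587336777 62277027 3 eng mog cd0q0 cd7q2 pd3 true true true .up 0 2 3
    ndB0q0 ndB7q2 pcB3 cut_pp_023 Ext.none :=
  certB0 (fam := true) (s1 := true) (s2 := true) (a := 0) (b := 2) (c := 3) (cn := .up) (n1 := ndB0q0) (n2 := ndB7q2) (pc := pcB3) (cut := cut_pp_023) (xt := Ext.none) (P1 := 0) (W1 := 536870912) (P2 := 1073741824) (W2 := 536870912) (P3 := 587336777) (W3 := 62277027) (N0 := 3) (En := eng) (mo := mog) (C1 := cd0q0) (C2 := cd7q2) (C3 := pd3)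
    rfl k0_pp_023

noncomputable def cut_pp_033 : Cut := Cut.of [[⟨3, 0, 0, 1449551462⟩]]

noncomputable def f_pp_033 : ℕ → ℕ → ℕ → ℕ → Bool := onCell 0 536870912 0 1230186008 587336777 62277027
    (rowB 3 eng mog cd0q0 cd7q3 pd3 0 true true true .pnn 0 3 3 (qsf 0 536870912 0 1230186008 3) ndB0q0 ndB7q3 pcB3 cut_pp_033 Ext.none)

def k0_pp_033 : ∃ t, chk3 f_pp_033 t 1 1 1 = true :=
  ⟨(l 4), by decide +kernel⟩

theorem c_pp_033 : CertB 0 536870912 0 1230186008 587336777 62277027 3 eng mog cd0q0 cd7q3 pd3 true true true .pnn 0 3 3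
    ndB0q0 ndB7q3 pcB3 cut_pp_033 Ext.none :=
  certB0 (fam := true) (s1 := true) (s2 := true) (a := 0) (b := 3) (c := 3) (cn := .pnn) (n1 := ndB0q0) (n2 := ndB7q3) (pc := pcB3) (cut := cut_pp_033) (xt := Ext.none) (P1 := 0) (W1 := 536870912) (P2 := 0) (W2 := 1230186008) (P3 := 587336777) (W3 := 62277027) (N0 := 3) (En := eng) (mo := mog) (C1 := cd0q0) (C2 := cd7q3) (C3 := pd3)
    rfl k0_pp_033

noncomputable def cut_pp_101 : Cut := Cut.of [[⟨3, 0, 0, 1449551462⟩]]

noncomputable def f_pp_101 : ℕ → ℕ → ℕ → ℕ → Bool := onCell 536870912 536870912 0 536870912 587336777 62277027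
    (rowB 3 eng mog cd0q1 cd7q0 pd1 0 true true true .npn 1 0 1 (qsf 536870912 536870912 0 536870912 1) ndB0q1 ndB7q0 pcB1 cut_pp_101 Ext.none)

def k0_pp_101 : ∃ t, chk3 f_pp_101 t 1 1 1 = true :=
  ⟨(l 4), by decide +kernel⟩

theorem c_pp_101 : CertB 536870912 536870912 0 536870912 587336777 62277027 3 eng mog cd0q1 cd7q0 pd1 true true true .npn 1 0 1
    ndB0q1 ndB7q0 pcB1 cut_pp_101 Ext.none :=
  certB0 (fam := true) (s1 := true) (s2 := true) (a := 1) (b := 0) (c := 1) (cn := .npn) (n1 := ndB0q1) (n2 := ndB7q0) (pc := pcB1) (cut := cut_pp_101) (xt := Ext.none) (P1 := 536870912) (W1 := 536870912) (P2 := 0) (W2 := 536870912) (P3 := 587336777) (W3 := 62277027) (N0 := 3) (En := eng) (mo := mog) (C1 := cd0q1) (C2 := cd7q0) (C3 := pd1)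
    rfl k0_pp_101

noncomputable def cut_pp_102 : Cut := Cut.of [[⟨3, 0, 0, 1449551462⟩]]

noncomputable def f_pp_102 : ℕ → ℕ → ℕ → ℕ → Bool := onCell 536870912 536870912 0 536870912 587336777 62277027
    (rowB 3 eng mog cd0q1 cd7q0 pd2 0 true true true .npp 1 0 2 (qsf 536870912 536870912 0 536870912 2) ndB0q1 ndB7q0 pcB2 cut_pp_102 Ext.none)

def k0_pp_102 : ∃ t, chk3 f_pp_102 t 1 1 1 = true :=
  ⟨(l 4), by decide +kernel⟩

theorem c_pp_102 : CertB 536870912 536870912 0 536870912 587336777 62277027 3 eng mog cd0q1 cd7q0 pd2 true true true .npp 1 0 2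
    ndB0q1 ndB7q0 pcB2 cut_pp_102 Ext.none :=
  certB0 (fam := true) (s1 := true) (s2 := true) (a := 1) (b := 0) (c := 2) (cn := .npp) (n1 := ndB0q1) (n2 := ndB7q0) (pc := pcB2) (cut := cut_pp_102) (xt := Ext.none) (P1 := 536870912) (W1 := 536870912) (P2 := 0) (W2 := 536870912) (P3 := 587336777) (W3 := 62277027) (N0 := 3) (En := eng) (mo := mog) (C1 := cd0q1) (C2 := cd7q0) (C3 := pd2)
    rfl k0_pp_102

noncomputable def cut_pp_112 : Cut := Cut.of [[⟨3, 0, 0, 1449551462⟩]]

noncomputable def f_pp_112 : ℕ → ℕ → ℕ → ℕ → Bool := onCell 536870912 536870912 536870912 536870912 587336777 62277027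
    (rowB 3 eng mog cd0q1 cd7q1 pd2 0 true true true .dn 1 1 2 (qsf 536870912 536870912 536870912 536870912 2) ndB0q1 ndB7q1 pcB2 cut_pp_112 Ext.none)

def k0_pp_112 : ∃ t, chk3 f_pp_112 t 1 1 1 = true :=
  ⟨(l 4), by decide +kernel⟩

theorem c_pp_112 : CertB 536870912 536870912 536870912 536870912 587336777 62277027 3 eng mog cd0q1 cd7q1 pd2 true true true .dn 1 1 2
    ndB0q1 ndB7q1 pcB2 cut_pp_112 Ext.none :=
  certB0 (fam := true) (s1 := true) (s2 := true) (a := 1) (b := 1) (c := 2) (cn := .dn) (n1 := ndB0q1) (n2 := ndB7q1) (pc := pcB2) (cut := cut_pp_112) (xt := Ext.none) (P1 := 536870912) (W1 := 536870912) (P2 := 536870912) (W2 := 536870912) (P3 := 587336777) (W3 := 62277027) (N0 := 3) (En := eng) (mo := mog) (C1 := cd0q1) (C2 := cd7q1) (C3 := pd2)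
    rfl k0_pp_112

noncomputable def cut_pp_113 : Cut := Cut.of [[⟨3, 0, 0, 1449551462⟩]]

noncomputable def f_pp_113 : ℕ → ℕ → ℕ → ℕ → Bool := onCell 536870912 536870912 536870912 536870912 587336777 62277027
    (rowB 3 eng mog cd0q1 cd7q1 pd3 0 true true true .nn 1 1 3 (qsf 536870912 536870912 536870912 536870912 3) ndB0q1 ndB7q1 pcB3 cut_pp_113 Ext.none)

def k0_pp_113 : ∃ t, chk3 f_pp_113 t 1 1 1 = true :=
  ⟨(l 4), by decide +kernel⟩

theorem c_pp_113 : CertB 536870912 536870912 536870912 536870912 587336777 62277027 3 eng mog cd0q1 cd7q1 pd3 true true true .nn 1 1 3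
    ndB0q1 ndB7q1 pcB3 cut_pp_113 Ext.none :=
  certB0 (fam := true) (s1 := true) (s2 := true) (a := 1) (b := 1) (c := 3) (cn := .nn) (n1 := ndB0q1) (n2 := ndB7q1) (pc := pcB3) (cut := cut_pp_113) (xt := Ext.none) (P1 := 536870912) (W1 := 536870912) (P2 := 536870912) (W2 := 536870912) (P3 := 587336777) (W3 := 62277027) (N0 := 3) (En := eng) (mo := mog) (C1 := cd0q1) (C2 := cd7q1) (C3 := pd3)
    rfl k0_pp_113

noncomputable def cut_pp_123 : Cut := Cut.of [[⟨3, 0, 0, 1449551462⟩]]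

noncomputable def f_pp_123 : ℕ → ℕ → ℕ → ℕ → Bool := onCell 536870912 536870912 1073741824 536870912 587336777 62277027
    (rowB 3 eng mog cd0q1 cd7q2 pd3 0 true true true .npn 1 2 3 (qsf 536870912 536870912 1073741824 536870912 3) ndB0q1 ndB7q2 pcB3 cut_pp_123 Ext.none)

def k0_pp_123 : ∃ t, chk3 f_pp_123 t 1 1 1 = true :=
  ⟨(l 4), by decide +kernel⟩

theorem c_pp_123 : CertB 536870912 536870912 1073741824 536870912 587336777 62277027 3 eng mog cd0q1 cd7q2 pd3 true true true .npn 1 2 3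
    ndB0q1 ndB7q2 pcB3 cut_pp_123 Ext.none :=
  certB0 (fam := true) (s1 := true) (s2 := true) (a := 1) (b := 2) (c := 3) (cn := .npn) (n1 := ndB0q1) (n2 := ndB7q2) (pc := pcB3) (cut := cut_pp_123) (xt := Ext.none) (P1 := 536870912) (W1 := 536870912) (P2 := 1073741824) (W2 := 536870912) (P3 := 587336777) (W3 := 62277027) (N0 := 3) (En := eng) (mo := mog) (C1 := cd0q1) (C2 := cd7q2) (C3 := pd3)
    rfl k0_pp_123

noncomputable def cut_pp_133 : Cut := Cut.of [[⟨3, 0, 0, 1449551462⟩]]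

noncomputable def f_pp_133 : ℕ → ℕ → ℕ → ℕ → Bool := onCell 536870912 536870912 0 1230186008 587336777 62277027
    (rowB 3 eng mog cd0q1 cd7q3 pd3 0 true true true .dn 1 3 3 (qsf 536870912 536870912 0 1230186008 3) ndB0q1 ndB7q3 pcB3 cut_pp_133 Ext.none)

def k0_pp_133 : ∃ t, chk3 f_pp_133 t 1 1 1 = true :=
  ⟨(l 4), by decide +kernel⟩

theorem c_pp_133 : CertB 536870912 536870912 0 1230186008 587336777 62277027 3 eng mog cd0q1 cd7q3 pd3 true true true .dn 1 3 3
    ndB0q1 ndB7q3 pcB3 cut_pp_133 Ext.none :=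
  certB0 (fam := true) (s1 := true) (s2 := true) (a := 1) (b := 3) (c := 3) (cn := .dn) (n1 := ndB0q1) (n2 := ndB7q3) (pc := pcB3) (cut := cut_pp_133) (xt := Ext.none) (P1 := 536870912) (W1 := 536870912) (P2 := 0) (W2 := 1230186008) (P3 := 587336777) (W3 := 62277027) (N0 := 3) (En := eng) (mo := mog) (C1 := cd0q1) (C2 := cd7q3) (C3 := pd3)
    rfl k0_pp_133

noncomputable def cut_pp_202 : Cut := Cut.of [[⟨3, 0, 0, 1449551462⟩]]

noncomputable def f_pp_202 : ℕ → ℕ → ℕ → ℕ → Bool := onCell 0 536870912 0 536870912 587336777 62277027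
    (rowB 3 eng mog cd0q2 cd7q0 pd2 0 true true true .pp 2 0 2 (qsf 0 536870912 0 536870912 2) ndB0q2 ndB7q0 pcB2 cut_pp_202 Ext.none)

def k0_pp_202 : ∃ t, chk3 f_pp_202 t 1 1 1 = true :=
  ⟨(l 4), by decide +kernel⟩

theorem c_pp_202 : CertB 0 536870912 0 536870912 587336777 62277027 3 eng mog cd0q2 cd7q0 pd2 true true true .pp 2 0 2
    ndB0q2 ndB7q0 pcB2 cut_pp_202 Ext.none :=
  certB0 (fam := true) (s1 := true) (s2 := true) (a := 2) (b := 0) (c := 2) (cn := .pp) (n1 := ndB0q2) (n2 := ndB7q0) (pc := pcB2) (cut := cut_pp_202) (xt := Ext.none) (P1 := 0) (W1 := 536870912) (P2 := 0) (W2 := 536870912) (P3 := 587336777) (W3 := 62277027) (N0 := 3) (En := eng) (mo := mog) (C1 := cd0q2) (C2 := cd7q0) (C3 := pd2)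
    rfl k0_pp_202

noncomputable def cut_pp_203 : Cut := Cut.of [[⟨3, 0, 0, 1449551462⟩]]

noncomputable def f_pp_203 : ℕ → ℕ → ℕ → ℕ → Bool := onCell 0 536870912 0 536870912 587336777 62277027
    (rowB 3 eng mog cd0q2 cd7q0 pd3 0 true true true .up 2 0 3 (qsf 0 536870912 0 536870912 3) ndB0q2 ndB7q0 pcB3 cut_pp_203 Ext.none)

def k0_pp_203 : ∃ t, chk3 f_pp_203 t 1 1 1 = true :=
  ⟨(l 4), by decide +kernel⟩

theorem c_pp_203 : CertB 0 536870912 0 536870912 587336777 62277027 3 eng mog cd0q2 cd7q0 pd3 true true true .up 2 0 3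
    ndB0q2 ndB7q0 pcB3 cut_pp_203 Ext.none :=
  certB0 (fam := true) (s1 := true) (s2 := true) (a := 2) (b := 0) (c := 3) (cn := .up) (n1 := ndB0q2) (n2 := ndB7q0) (pc := pcB3) (cut := cut_pp_203) (xt := Ext.none) (P1 := 0) (W1 := 536870912) (P2 := 0) (W2 := 536870912) (P3 := 587336777) (W3 := 62277027) (N0 := 3) (En := eng) (mo := mog) (C1 := cd0q2) (C2 := cd7q0) (C3 := pd3)
    rfl k0_pp_203

noncomputable def cut_pp_213 : Cut := Cut.of [[⟨3, 0, 0, 1449551462⟩]]

noncomputable def f_pp_213 : ℕ → ℕ → ℕ → ℕ → Bool := onCell 0 536870912 536870912 536870912 587336777 62277027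
    (rowB 3 eng mog cd0q2 cd7q1 pd3 0 true true true .pnn 2 1 3 (qsf 0 536870912 536870912 536870912 3) ndB0q2 ndB7q1 pcB3 cut_pp_213 Ext.none)

def k0_pp_213 : ∃ t, chk3 f_pp_213 t 1 1 1 = true :=
  ⟨(l 4), by decide +kernel⟩

theorem c_pp_213 : CertB 0 536870912 536870912 536870912 587336777 62277027 3 eng mog cd0q2 cd7q1 pd3 true true true .pnn 2 1 3
    ndB0q2 ndB7q1 pcB3 cut_pp_213 Ext.none :=
  certB0 (fam := true) (s1 := true) (s2 := true) (a := 2) (b := 1) (c := 3) (cn := .pnn) (n1 := ndB0q2) (n2 := ndB7q1) (pc := pcB3) (cut := cut_pp_213) (xt := Ext.none) (P1 := 0) (W1 := 536870912) (P2 := 536870912) (W2 := 536870912) (P3 := 587336777) (W3 := 62277027) (N0 := 3) (En := eng) (mo := mog) (C1 := cd0q2) (C2 := cd7q1) (C3 := pd3)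
    rfl k0_pp_213

noncomputable def cut_pm_001 : Cut := Cut.of [[⟨3, 0, 0, 1449551462⟩]]

noncomputable def f_pm_001 : ℕ → ℕ → ℕ → ℕ → Bool := onCell 0 536870912 0 536870912 587336777 62277027
    (rowB 3 eng mog cd0q0 cd7q0 pd1 0 true true false .up 0 0 1 (qsf 0 536870912 0 536870912 1) ndB0q0 ndB7q0 pcB1 cut_pm_001 Ext.none)

def k0_pm_001 : ∃ t, chk3 f_pm_001 t 1 1 1 = true :=
  ⟨(a (l 3) (b (l 6) (a (l 6) (b (l 6) (a (l 6) (b (l 6) (a (l 6) (b (l 6) (l 16236144))))))))), by decide +kernel⟩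

theorem c_pm_001 : CertB 0 536870912 0 536870912 587336777 62277027 3 eng mog cd0q0 cd7q0 pd1 true true false .up 0 0 1
    ndB0q0 ndB7q0 pcB1 cut_pm_001 Ext.none :=
  certB0 (fam := true) (s1 := true) (s2 := false) (a := 0) (b := 0) (c := 1) (cn := .up) (n1 := ndB0q0) (n2 := ndB7q0) (pc := pcB1) (cut := cut_pm_001) (xt := Ext.none) (P1 := 0) (W1 := 536870912) (P2 := 0) (W2 := 536870912) (P3 := 587336777) (W3 := 62277027) (N0 := 3) (En := eng) (mo := mog) (C1 := cd0q0) (C2 := cd7q0) (C3 := pd1)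
    rfl k0_pm_001

noncomputable def cut_pm_011 : Cut := Cut.of [[⟨3, 0, 0, 1449551462⟩], [⟨0, 0, 0, 67108864⟩, ⟨1, 1, 0, 67108864⟩, ⟨2, 1, 0, 67108864⟩]]

noncomputable def f_pm_011 : ℕ → ℕ → ℕ → ℕ → Bool := onCell 0 536870912 536870912 536870912 587336777 62277027
    (rowB 3 eng mog cd0q0 cd7q1 pd1 1 true true false .pnn 0 1 1 (qsf 0 536870912 536870912 536870912 1) ndB0q0 ndB7q1 pcB1 cut_pm_011 Ext.none)

def k0_pm_011 : ∃ t, chk3 f_pm_011 t 1 1 1 = true :=
  ⟨(b (l 6) (a (l 6) (b (l 6) (a (l 6) (a (l 6) (b (l 6) (b (l 6) (a (l 6) (l 16140648))))))))), by decide +kernel⟩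

theorem c_pm_011 : CertB 0 536870912 536870912 536870912 587336777 62277027 3 eng mog cd0q0 cd7q1 pd1 true true false .pnn 0 1 1
    ndB0q0 ndB7q1 pcB1 cut_pm_011 Ext.none :=
  certB1 (fam := true) (s1 := true) (s2 := false) (a := 0) (b := 1) (c := 1) (cn := .pnn) (n1 := ndB0q0) (n2 := ndB7q1) (pc := pcB1) (cut := cut_pm_011) (xt := Ext.none) (P1 := 0) (W1 := 536870912) (P2 := 536870912) (W2 := 536870912) (P3 := 587336777) (W3 := 62277027) (N0 := 3) (En := eng) (mo := mog) (C1 := cd0q0) (C2 := cd7q1) (C3 := pd1)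
    rfl (fun _ => rfl) k0_pm_011

noncomputable def cut_pm_012 : Cut := Cut.of [[⟨3, 0, 0, 1449551462⟩], [⟨0, 0, 0, 67108864⟩, ⟨1, 1, 0, 67108864⟩, ⟨2, 1, 0, 67108864⟩]]

noncomputable def f_pm_012 : ℕ → ℕ → ℕ → ℕ → Bool := onCell 1073741824 536870912 536870912 536870912 587336777 62277027
    (rowB 3 eng mog cd0q0 cd7q1 pd2 2 true true false .pnp 0 1 2 (qsf 0 536870912 536870912 536870912 2) ndB0q0 ndB7q1 pcB2 cut_pm_012 Ext.none)

def k0_pm_012 : ∃ t, chk3 f_pm_012 t 4 1 1 = true :=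
  ⟨(b (b (a (b (a (b (l 16095808) (l 16124136)) (b (l 16000480) (l 16045680))) (a (b (l 16192472) (l 6)) (b (l 16130664) (l 16275616)))) (b (a (b (l 2) (l 16051144)) (l 2)) (a (b (l 16091072) (l 16149112)) (b (l 16009840) (l 16044920))))) (a (b (a (l 6) (b (l 16328800) (l 6))) (l 6)) (b (a (b (l 16224488) (l 16229360)) (b (l 16097512) (l 16146184))) (a (b (l 16269696) (l 6)) (b (l 16187512) (l 16222504)))))) (b (a (l 6) (b (a (l 6) (b (l 16294136) (a (l 6) (l 16262976)))) (l 6))) (l 6))), by decide +kernel⟩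

def k1_pm_012 : ∃ t, chk3 f_pm_012 t 5 1 1 = true :=
  ⟨(b (b (a (b (l 2) (a (a (l 16119312) (l 2)) (l 2))) (l 2)) (a (b (a (a (l 16158616) (a (l 16051304) (b (l 16012240) (l 16061584)))) (b (l 16003648) (l 16030440))) (a (a (b (l 16141968) (l 16178048)) (a (l 16138696) (b (l 16106496) (l 16145192)))) (b (l 16074024) (l 16113176)))) (b (a (b (l 2) (l 16025448)) (l 2)) (a (l 16223792) (l 16133880))))) (b (a (a (a (b (b (l 16208184) (l 16233416)) (b (l 16255736) (l 6))) (b (a (l 16200264) (b (l 16176792) (l 16348896))) (a (b (l 16233944) (l 16252968)) (a (l 16359144) (b (l 16219256) (l 16237280)))))) (b (b (l 16145096) (l 16170776)) (b (l 16211864) (a (l 16218880) (l 16195896))))) (b (b (a (l 16120664) (l 16103816)) (a (l 16142696) (l 16122264))) (b (a (l 16159104) (l 16135152)) (a (l 16170208) (l 16142736))))) (a (a (l 6) (b (b (a (l 16233448) (l 16207808)) (a (l 16308808) (l 16217088))) (b (a (l 6) (b (l 16222640) (l 16225640))) (l 6)))) (b (b (a (l 16198296)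 (l 16144928)) (a (b (l 16180648) (l 16181928)) (b (l 16143824) (l 16141984)))) (b (a (b (l 16182592) (a (l 16196176) (l 16169736))) (b (l 16139248) (l 16219472))) (a (b (a (l 16196448) (l 16167984)) (a (c (b (l 16217616) (l 16217104)) (l 16174168)) (c (b (l 16190256) (l 16188736)) (l 16140912)))) (b (a (l 16142640) (l 16120352)) (a (c (l 16185768) (l 16110848)) (b (l 16115656) (l 16112184)))))))))), by decide +kernel⟩

def k2_pm_012 : ∃ t, chk3 f_pm_012 t 3 1 1 = true :=
  ⟨(b (a (b (l 2) (a (b (l 2) (a (l 16075888) (l 2))) (l 2))) (l 2)) (b (a (a (b (a (l 16100736) (l 16095568)) (b (a (l 16116648) (l 16103704)) (a (l 16121440) (l 16106528)))) (b (a (l 16104944) (l 2)) (a (l 16204640) (l 16139544)))) (a (b (l 2) (a (l 16157640) (l 2))) (l 2))) (a (a (b (b (a (l 16120848) (l 16103960)) (a (l 16135544) (l 16095696))) (b (a (b (l 16106816) (l 16100264)) (b (l 16085296) (l 16076440))) (a (b (a (l 16101088) (l 16084832)) (a (l 16155856) (l 16075176))) (b (l 16066240)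 (a (l 16060744) (l 16049216)))))) (b (a (b (l 16094216) (l 16084472)) (b (l 16102568) (l 16089760))) (b (a (a (l 16070288) (l 16067320)) (b (l 16076504) (l 16065168))) (a (a (b (l 16053616) (l 16040392)) (b (l 16049736) (l 16035504))) (b (l 16052416) (a (l 16035760) (l 16038952))))))) (a (b (a (b (l 16125840) (l 16104928)) (b (l 16163912) (l 16134144))) (b (a (l 16082904) (l 16102928)) (a (a (l 16030728) (l 16057352)) (b (l 16078616) (l 16061096))))) (b (a (b (l 2) (l 16181552)) (l 2)) (a (b (l 16141744) (l 16099480)) (b (l 16199520) (l 16149512)))))))), by decide +kernel⟩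

theorem s3_pm_012 : ∃ t, chk3 f_pm_012 t 2 1 1 = true := ex3_a k0_pm_012 k1_pm_012

theorem s4_pm_012 : ∃ t, chk3 f_pm_012 t 1 1 1 = true := ex3_a s3_pm_012 k2_pm_012

theorem c_pm_012 : CertB 0 536870912 536870912 536870912 587336777 62277027 3 eng mog cd0q0 cd7q1 pd2 true true false .pnp 0 1 2
    ndB0q0 ndB7q1 pcB2 cut_pm_012 Ext.none :=
  certB2 (fam := true) (s1 := true) (s2 := false) (a := 0) (b := 1) (c := 2) (cn := .pnp) (n1 := ndB0q0) (n2 := ndB7q1) (pc := pcB2) (cut := cut_pm_012) (xt := Ext.none) (P1 := 0) (W1 := 536870912) (P2 := 536870912) (W2 := 536870912) (P3 := 587336777) (W3 := 62277027) (N0 := 3) (En := eng) (mo := mog) (C1 := cd0q0) (C2 := cd7q1) (C3 := pd2)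
    rfl (fun _ => rfl) s4_pm_012

noncomputable def cut_pm_022 : Cut := Cut.of [[⟨3, 0, 0, 1449551462⟩], [⟨0, 0, 0, 67108864⟩, ⟨1, 1, 0, 67108864⟩, ⟨2, 1, 0, 67108864⟩]]

noncomputable def f_pm_022 : ℕ → ℕ → ℕ → ℕ → Bool := onCell 1073741824 536870912 1073741824 536870912 587336777 62277027
    (rowB 3 eng mog cd0q0 cd7q2 pd2 2 true true false .pp 0 2 2 (qsf 0 536870912 1073741824 536870912 2) ndB0q0 ndB7q2 pcB2 cut_pm_022 Ext.none)

def k0_pm_022 : ∃ t, chk3 f_pm_022 t 2 1 1 = true :=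
  ⟨(a (l 6) (b (a (l 6) (a (b (b (b (b (c (b (a (l 16222664) (l 16193680)) (l 16219024)) (a (l 16187224) (l 16152784))) (a (l 6) (l 16199448))) (b (l 16278360) (l 16255944))) (l 6)) (l 6)) (b (b (b (b (a (c (l 16173376) (l 16121544)) (b (l 16116408) (l 16128136))) (a (l 16170504) (l 16144728))) (b (l 16177800) (l 16196608))) (b (l 16305560) (l 16250128))) (b (b (l 16272328) (l 6)) (l 6))))) (l 6))), by decide +kernel⟩

def k1_pm_022 : ∃ t, chk3 f_pm_022 t 3 1 1 = true :=
  ⟨(b (b (a (b (a (b (a (b (a (l 16163080) (l 16081264)) (a (l 16122032) (l 16102592))) (b (a (l 16065840) (l 16053376)) (l 16079608))) (a (b (l 16131528) (l 16149224)) (b (l 16098192) (l 16114928)))) (a (b (b (a (l 16043752) (l 16037968)) (l 16059800)) (a (l 16089232) (l 16081912))) (b (a (l 16046312) (l 16048208)) (l 16078288)))) (a (b (a (l 16172920) (l 16136480)) (a (l 16199392) (l 16160936))) (b (a (l 16113040) (l 16102992)) (a (l 16134360) (l 16121984))))) (a (b (b (a (b (l 16045720)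 (l 16061616)) (b (l 16059464) (l 16073520))) (a (l 16081760) (l 16091816))) (b (a (l 16102992) (l 16109584)) (a (l 16118624) (l 16121832)))) (b (a (b (l 16090728) (l 16111176)) (b (l 16127768) (l 16141424))) (a (l 16131024) (l 16153376))))) (a (a (b (b (a (l 16220656) (l 16179736)) (a (l 16235800) (l 16193712))) (b (a (l 16245048) (l 16201632)) (a (l 16244032) (l 16201432)))) (b (a (b (l 16150920) (l 16162048)) (l 16202216)) (b (l 16281560) (a (l 16167616) (l 16144376))))) (a (b (a (l 16193448) (l 16130176)) (a (l 16131184) (l 16122472))) (b (a (l 16138512) (l 16157232)) (a (l 16123752) (l 16137816)))))) (b (a (b (a (a (a (l 6) (l 126734321815)) (b (l 16188712) (l 16159808))) (b (a (l 16155216) (l 16130608)) (l 16115568))) (a (b (l 495564307943) (l 1)) (b (l 16218808) (l 339871581431)))) (b (a (b (l 16147560) (l 16265208)) (b (l 16101856) (l 16068528))) (a (b (l 16033264) (l 15992608)) (b (l 16021000) (l 15955088))))) (a (b (a (l 1) (b (l 470331090807) (l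 1))) (l 1)) (b (a (b (l 219075361047) (l 208875321863)) (b (l 15885976) (l 15934640))) (a (b (l 361346185655) (l 1)) (b (l 16033664) (l 261488553447))))))), by decide +kernel⟩

theorem s2_pm_022 : ∃ t, chk3 f_pm_022 t 1 1 1 = true := ex3_a k0_pm_022 k1_pm_022

theorem c_pm_022 : CertB 0 536870912 1073741824 536870912 587336777 62277027 3 eng mog cd0q0 cd7q2 pd2 true true false .pp 0 2 2
    ndB0q0 ndB7q2 pcB2 cut_pm_022 Ext.none :=
  certB2 (fam := true) (s1 := true) (s2 := false) (a := 0) (b := 2) (c := 2) (cn := .pp) (n1 := ndB0q0) (n2 := ndB7q2) (pc := pcB2) (cut := cut_pm_022) (xt := Ext.none) (P1 := 0) (W1 := 536870912) (P2 := 1073741824) (W2 := 536870912) (P3 := 587336777) (W3 := 62277027) (N0 := 3) (En := eng) (mo := mog) (C1 := cd0q0) (C2 := cd7q2) (C3 := pd2)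
    rfl (fun _ => rfl) s2_pm_022

noncomputable def cut_pm_023 : Cut := Cut.of [[⟨3, 0, 0, 1449551462⟩]]

noncomputable def f_pm_023 : ℕ → ℕ → ℕ → ℕ → Bool := onCell 0 536870912 1610612736 536870912 587336777 62277027
    (rowB 3 eng mog cd0q0 cd7q2 pd3 1 true true false .up 0 2 3 (qsf 0 536870912 1073741824 536870912 3) ndB0q0 ndB7q2 pcB3 cut_pm_023 Ext.none)

def k0_pm_023 : ∃ t, chk3 f_pm_023 t 1 1 1 = true :=
  ⟨(a (b (b (a (a (b (b (l 16020648) (l 16039672)) (b (l 16072880) (l 2))) (b (a (l 15967864) (l 15911776)) (b (l 15985832) (l 16082464)))) (a (b (b (l 16093064) (l 15835384)) (l 15983720)) (b (b (a (l 16023656) (l 16072568)) (l 16013360)) (b (l 15972176) (l 15956816))))) (a (a (l 2) (b (l 16229072) (l 2))) (b (a (l 16168344) (l 16155000)) (a (l 16364912) (l 16341784))))) (a (l 2) (b (a (l 2) (b (l 16465240) (l 2))) (l 2)))) (b (b (a (b (a (b (l 16182216) (l 16103888)) (b (b (l 16160880) (l 16139944)) (l 16142840))) (b (a (l 16098016) (l 16157160))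 (a (l 16087128) (l 16169648)))) (b (b (a (b (l 16175208) (l 16140608)) (a (a (l 16155104) (l 16300480)) (b (l 16185592) (l 16118016)))) (a (l 16148080) (l 16131288))) (b (a (l 16176616) (l 16173344)) (a (l 16203784) (l 16213544))))) (a (b (a (l 16155512) (l 16193952)) (a (l 16338856) (l 16350704))) (b (a (b (l 16226112) (l 16276912)) (b (l 16253944) (l 16307632))) (a (l 16370096) (l 16530064))))) (a (b (a (b (l 16464584) (l 16548624)) (b (l 16471680) (l 16555080))) (b (a (l 2) (l 16611288)) (l 2))) (a (b (b (l 16477400) (l 16560488)) (b (l 16617128) (b (l 16648400) (l 2)))) (b (b (l 16477280) (l 16557248)) (b (l 16616808) (b (l 16652992) (b (l 16664128) (b (l 16667824) (l 4)))))))))), by decide +kernel⟩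

theorem c_pm_023 : CertB 0 536870912 1073741824 536870912 587336777 62277027 3 eng mog cd0q0 cd7q2 pd3 true true false .up 0 2 3
    ndB0q0 ndB7q2 pcB3 cut_pm_023 Ext.none :=
  certB1 (fam := true) (s1 := true) (s2 := false) (a := 0) (b := 2) (c := 3) (cn := .up) (n1 := ndB0q0) (n2 := ndB7q2) (pc := pcB3) (cut := cut_pm_023) (xt := Ext.none) (P1 := 0) (W1 := 536870912) (P2 := 1073741824) (W2 := 536870912) (P3 := 587336777) (W3 := 62277027) (N0 := 3) (En := eng) (mo := mog) (C1 := cd0q0) (C2 := cd7q2) (C3 := pd3)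
    rfl (fun _ => rfl) k0_pm_023

noncomputable def cut_pm_033 : Cut := Cut.of [[⟨3, 0, 0, 1449551462⟩]]

noncomputable def f_pm_033 : ℕ → ℕ → ℕ → ℕ → Bool := onCell 1610612736 536870912 0 1230186008 587336777 62277027
    (rowB 3 eng mog cd0q0 cd7q3 pd3 2 true true false .pnn 0 3 3 (qsf 0 536870912 0 1230186008 3) ndB0q0 ndB7q3 pcB3 cut_pm_033 Ext.none)

def k0_pm_033 : ∃ t, chk3 f_pm_033 t 1 1 1 = true :=
  ⟨(a (b (l 1) (b (a (l 1) (a (l 1) (b (l 1) (b (l 1) (l 456373729639))))) (b (a (l 1) (b (a (l 495565159287) (l 16447984)) (a (l 16347416) (l 16413048)))) (a (b (a (l 1) (l 16180720)) (a (b (l 16080336) (l 16051416)) (l 16075728))) (b (a (l 16287512) (l 16381056)) (a (b (l 16243176) (l 16211656)) (l 16356520))))))) (a (b (l 1) (b (b (a (l 1) (b (l 16658696) (l 16548680))) (a (b (l 16517208) (l 16504352)) (b (l 16541696) (l 16534120)))) (b (a (b (l 16488200) (l 16473632)) (b (l 16530784) (l 16533384))) (b (a (l 16466888) (l 16541736)) (a (l 16465560) (l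 16552888)))))) (b (b (l 4) (a (b (a (l 1) (l 4)) (a (l 16569248) (l 16573288))) (a (b (l 4) (l 16568560)) (l 4)))) (b (a (b (a (b (l 16571032) (l 16565536)) (l 16682896)) (b (l 16570616) (l 16573744))) (a (b (l 16709264) (l 16789568)) (a (b (l 16587328) (l 16612024)) (b (l 4) (a (l 16618104) (b (l 4) (l 16687648))))))) (a (b (b (l 16577144) (l 16588432)) (b (l 16604304) (l 16614648))) (a (b (l 16660760) (b (l 16640072) (l 16650344))) (b (a (l 16635504) (a (l 16643392) (a (l 16647344) (b (l 16642248) (l 16656304))))) (a (b (l 16654952) (l 16664456)) (b (l 16893864) (l 16918080)))))))))), by decide +kernel⟩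

theorem c_pm_033 : CertB 0 536870912 0 1230186008 587336777 62277027 3 eng mog cd0q0 cd7q3 pd3 true true false .pnn 0 3 3
    ndB0q0 ndB7q3 pcB3 cut_pm_033 Ext.none :=
  certB2 (fam := true) (s1 := true) (s2 := false) (a := 0) (b := 3) (c := 3) (cn := .pnn) (n1 := ndB0q0) (n2 := ndB7q3) (pc := pcB3) (cut := cut_pm_033) (xt := Ext.none) (P1 := 0) (W1 := 536870912) (P2 := 0) (W2 := 1230186008) (P3 := 587336777) (W3 := 62277027) (N0 := 3) (En := eng) (mo := mog) (C1 := cd0q0) (C2 := cd7q3) (C3 := pd3)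
    rfl (fun _ => rfl) k0_pm_033

noncomputable def cut_pm_101 : Cut := Cut.of [[⟨3, 0, 0, 1449551462⟩]]

noncomputable def f_pm_101 : ℕ → ℕ → ℕ → ℕ → Bool := onCell 536870912 536870912 536870912 536870912 587336777 62277027
    (rowB 3 eng mog cd0q1 cd7q0 pd1 1 true true false .npn 1 0 1 (qsf 536870912 536870912 0 536870912 1) ndB0q1 ndB7q0 pcB1 cut_pm_101 Ext.none)

def k0_pm_101 : ∃ t, chk3 f_pm_101 t 1 2 1 = true :=
  ⟨(a (b (l 6) (a (l 6) (b (l 6) (a (l 6) (a (l 6) (l 16642128)))))) (a (b (l 1) (a (b (l 1) (a (l 16636744) (l 1))) (l 1))) (l 1))), by decide +kernel⟩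

def k1_pm_101 : ∃ t, chk3 f_pm_101 t 1 3 1 = true :=
  ⟨(a (b (a (l 6) (a (b (a (l 6) (l 16734696)) (a (l 16634008) (l 16552320))) (b (a (l 16602640) (l 16592544)) (a (l 16531392) (l 16529672))))) (a (a (b (l 6) (a (b (l 6) (l 16109920)) (b (l 16139088) (l 16008680)))) (b (a (b (l 6) (l 16317632)) (l 16385992)) (a (l 16119680) (l 16222936)))) (a (b (a (l 16400216) (l 16413016)) (a (l 16200024) (l 16233888))) (b (a (l 16424728) (l 16433040)) (a (l 16262128) (l 16281552)))))) (a (b (a (b (a (l 16580848) (l 16571256)) (a (l 16523568) (b (l 16526600) (l 16497376)))) (b (a (l 16651000) (l 1)) (b (a (l 16533816) (l 141230263655)) (a (l 16482904) (l 16468072))))) (a (b (a (l 16435880) (b (l 16458608) (l 16406328))) (a (l 16292448) (l 16295848))) (b (a (l 16510728) (b (l 16435040) (l 16395768))) (a (l 16360712) (b (l 16338120) (l 16255920)))))) (b (a (b (l 1) (a (b (l 1) (l 119218331239)) (l 1))) (l 1)) (a (b (a (b (l 16464784) (l 16385648)) (b (a (l 16418664) (l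 1)) (a (l 16376792) (l 16374816)))) (a (b (l 16337504) (l 16260920)) (b (a (l 16336488) (l 16334040)) (a (l 16267552) (l 16272592))))) (b (a (b (l 1) (a (b (l 1) (l 16363040)) (l 1))) (l 1)) (a (b (a (l 16332008) (b (a (l 16339880) (l 1)) (a (l 16317288) (l 16317160)))) (a (l 16277696) (b (l 16296344) (l 16263256)))) (b (b (l 1) (a (c (l 75194808167) (l 83784396679)) (l 1))) (a (b (a (l 16295472) (l 78952439047)) (l 16267160)) (b (c (l 16408992) (l 79489315591)) (l 16254264)))))))))), by decide +kernel⟩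

theorem s2_pm_101 : ∃ t, chk3 f_pm_101 t 1 1 1 = true := ex3_b k0_pm_101 k1_pm_101

theorem c_pm_101 : CertB 536870912 536870912 0 536870912 587336777 62277027 3 eng mog cd0q1 cd7q0 pd1 true true false .npn 1 0 1
    ndB0q1 ndB7q0 pcB1 cut_pm_101 Ext.none :=
  certB1 (fam := true) (s1 := true) (s2 := false) (a := 1) (b := 0) (c := 1) (cn := .npn) (n1 := ndB0q1) (n2 := ndB7q0) (pc := pcB1) (cut := cut_pm_101) (xt := Ext.none) (P1 := 536870912) (W1 := 536870912) (P2 := 0) (W2 := 536870912) (P3 := 587336777) (W3 := 62277027) (N0 := 3) (En := eng) (mo := mog) (C1 := cd0q1) (C2 := cd7q0) (C3 := pd1)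
    rfl (fun _ => rfl) s2_pm_101

noncomputable def cut_pm_102 : Cut := Cut.of [[⟨3, 0, 0, 1449551462⟩]]

noncomputable def f_pm_102 : ℕ → ℕ → ℕ → ℕ → Bool := onCell 536870912 536870912 1073741824 536870912 587336777 62277027
    (rowB 3 eng mog cd0q1 cd7q0 pd2 1 true true false .npp 1 0 2 (qsf 536870912 536870912 0 536870912 2) ndB0q1 ndB7q0 pcB2 cut_pm_102 Ext.none)

def k0_pm_102 : ∃ t, chk3 f_pm_102 t 1 1 1 = true :=
  ⟨(a (b (a (b (a (b (a (b (l 16083056) (l 16014384)) (b (l 15982072) (l 15949560))) (a (l 2) (b (l 15960432) (l 2)))) (b (b (a (l 15882656) (l 15967024)) (a (l 15886160) (l 15929216))) (a (b (l 15903232) (l 15912168)) (b (l 15893472) (l 15865064))))) (b (a (l 2) (b (l 148275709879) (l 2))) (l 2))) (b (a (b (a (b (l 16033824) (l 16008096)) (l 16078040)) (a (l 15969032) (l 16047240))) (b (b (l 16146032) (l 16142544)) (a (l 16110696) (l 16159528)))) (a (b (b (l 15983120) (l 193372782407)) (a (l 2) (l 16041648))) (b (b (l 16130264) (l 16129744))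 (l 16157312))))) (a (l 2) (b (a (l 2) (b (l 16206608) (l 2))) (l 2)))) (b (a (b (a (b (a (l 16182744) (l 16195616)) (l 16226336)) (b (a (l 16205712) (b (l 16205904) (l 16226352))) (a (l 16238224) (l 16256096)))) (b (a (l 16411752) (b (l 16273800) (l 16294064))) (a (l 16268024) (l 16345072)))) (b (a (b (a (b (l 16215480) (l 16239888)) (b (l 16229736) (l 16257256))) (a (l 16275296) (l 16296712))) (b (a (b (a (l 16243608) (l 16253352)) (l 16360880)) (b (a (b (l 16255272) (l 16270672)) (l 16270072)) (l 16297256))) (a (b (l 16305608) (l 16333648)) (b (l 16326224) (l 16355760))))) (a (b (b (l 16322160) (l 16348664)) (l 16512976)) (b (b (l 16373160) (l 16403760)) (l 16466144))))) (a (b (b (a (l 16323352) (l 16411520)) (a (l 16385512) (l 16478144))) (b (a (l 2) (l 16560464)) (l 2))) (b (a (b (l 16485528) (l 16562080)) (b (l 16546728) (l 16624952))) (a (b (l 16642720) (l 16695336)) (b (l 16696792) (l 16739136))))))), by decide +kernel⟩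

theorem c_pm_102 : CertB 536870912 536870912 0 536870912 587336777 62277027 3 eng mog cd0q1 cd7q0 pd2 true true false .npp 1 0 2
    ndB0q1 ndB7q0 pcB2 cut_pm_102 Ext.none :=
  certB1 (fam := true) (s1 := true) (s2 := false) (a := 1) (b := 0) (c := 2) (cn := .npp) (n1 := ndB0q1) (n2 := ndB7q0) (pc := pcB2) (cut := cut_pm_102) (xt := Ext.none) (P1 := 536870912) (W1 := 536870912) (P2 := 0) (W2 := 536870912) (P3 := 587336777) (W3 := 62277027) (N0 := 3) (En := eng) (mo := mog) (C1 := cd0q1) (C2 := cd7q0) (C3 := pd2)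
    rfl (fun _ => rfl) k0_pm_102

noncomputable def cut_pm_112 : Cut := Cut.of [[⟨3, 0, 0, 1449551462⟩]]

noncomputable def f_pm_112 : ℕ → ℕ → ℕ → ℕ → Bool := onCell 536870912 536870912 1073741824 536870912 587336777 62277027
    (rowB 3 eng mog cd0q1 cd7q1 pd2 1 true true false .dn 1 1 2 (qsf 536870912 536870912 536870912 536870912 2) ndB0q1 ndB7q1 pcB2 cut_pm_112 Ext.none)

def k0_pm_112 : ∃ t, chk3 f_pm_112 t 1 1 1 = true :=
  ⟨(a (b (a (b (a (b (a (b (l 16000752) (l 16012720)) (l 16043864)) (b (a (l 16018816) (l 15958968)) (a (l 16017112) (l 15961896)))) (b (l 192231832791) (a (l 15907600) (l 15878224)))) (b (a (b (b (l 16048024) (b (l 15981704) (a (l 16005864) (l 15955744)))) (a (l 16006896) (l 15959960))) (b (l 15892040) (l 15967832))) (a (a (l 16059096) (l 16030904)) (l 16000088)))) (b (a (b (l 1) (a (l 15972504) (l 1))) (l 1)) (a (b (b (l 15986072) (l 15974560)) (l 15997264)) (b (l 186326974071) (l 16160592))))) (a (b (a (b (a (l 16092616) (l 16084096))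 (a (l 16110816) (l 16118552))) (b (l 16079416) (l 16135992))) (a (b (a (l 16142400) (l 16169112)) (a (l 16167792) (l 16213776))) (b (l 16210064) (l 16276032)))) (b (b (a (l 16080112) (l 16209928)) (a (l 16166008) (l 16275576))) (a (b (l 16270792) (l 16365504)) (l 16415448))))) (b (a (b (l 1) (b (l 1) (a (l 16270280) (l 1)))) (l 1)) (a (b (b (a (l 16325544) (l 16413184)) (a (l 16388048) (l 16480048))) (a (l 16508480) (b (l 16563048) (l 16627304)))) (b (b (l 1) (a (l 16563928) (l 1))) (b (a (l 16645120) (l 16699168)) (a (l 16698672) (l 16742128))))))), by decide +kernel⟩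

theorem c_pm_112 : CertB 536870912 536870912 536870912 536870912 587336777 62277027 3 eng mog cd0q1 cd7q1 pd2 true true false .dn 1 1 2
    ndB0q1 ndB7q1 pcB2 cut_pm_112 Ext.none :=
  certB1 (fam := true) (s1 := true) (s2 := false) (a := 1) (b := 1) (c := 2) (cn := .dn) (n1 := ndB0q1) (n2 := ndB7q1) (pc := pcB2) (cut := cut_pm_112) (xt := Ext.none) (P1 := 536870912) (W1 := 536870912) (P2 := 536870912) (W2 := 536870912) (P3 := 587336777) (W3 := 62277027) (N0 := 3) (En := eng) (mo := mog) (C1 := cd0q1) (C2 := cd7q1) (C3 := pd2)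
    rfl (fun _ => rfl) k0_pm_112

noncomputable def cut_pm_113 : Cut := Cut.of [[⟨3, 0, 0, 1449551462⟩]]

noncomputable def f_pm_113 : ℕ → ℕ → ℕ → ℕ → Bool := onCell 1610612736 536870912 536870912 536870912 587336777 62277027
    (rowB 3 eng mog cd0q1 cd7q1 pd3 2 true true false .nn 1 1 3 (qsf 536870912 536870912 536870912 536870912 3) ndB0q1 ndB7q1 pcB3 cut_pm_113 Ext.none)

def k0_pm_113 : ∃ t, chk3 f_pm_113 t 1 1 1 = true :=
  ⟨(b (a (a (b (a (a (b (l 16765600) (l 16727888)) (l 16788416)) (b (l 4) (l 16525152))) (a (b (l 16691128) (a (l 16587328) (l 16623264))) (b (a (l 16718168) (l 16730616)) (a (l 16655928) (l 16681680))))) (b (l 4) (a (b (l 4) (l 16756104)) (l 4)))) (l 4)) (a (a (a (b (b (a (l 16508976) (l 16535600)) (a (l 16429336) (l 16444720))) (a (b (b (l 16356016) (l 16299592)) (b (a (l 16285032) (l 16203824)) (a (b (l 16246752) (l 16211528)) (b (l 16158464) (l 16212328))))) (b (l 16337680) (b (l 16228144) (l 16159712))))) (b (b (l 16681864) (a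 (l 16491648) (l 16533544))) (b (a (l 16404320) (l 16452584)) (a (b (l 16320104) (l 16246736)) (a (l 16345088) (l 16375576)))))) (a (b (b (l 16664808) (a (l 16568488) (l 16604368))) (b (a (l 16489144) (l 16529496)) (a (a (l 16400056) (l 16420912)) (b (l 16468160) (l 16430328))))) (b (b (l 16686136) (l 16652488)) (b (a (l 16567584) (l 16604264)) (a (l 16493664) (l 16537832)))))) (a (b (a (l 4) (l 4)) (a (b (a (l 16629064) (l 4)) (a (l 16574240) (l 16599808))) (l 4))) (b (l 4) (l 4))))), by decide +kernel⟩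

theorem c_pm_113 : CertB 536870912 536870912 536870912 536870912 587336777 62277027 3 eng mog cd0q1 cd7q1 pd3 true true false .nn 1 1 3
    ndB0q1 ndB7q1 pcB3 cut_pm_113 Ext.none :=
  certB2 (fam := true) (s1 := true) (s2 := false) (a := 1) (b := 1) (c := 3) (cn := .nn) (n1 := ndB0q1) (n2 := ndB7q1) (pc := pcB3) (cut := cut_pm_113) (xt := Ext.none) (P1 := 536870912) (W1 := 536870912) (P2 := 536870912) (W2 := 536870912) (P3 := 587336777) (W3 := 62277027) (N0 := 3) (En := eng) (mo := mog) (C1 := cd0q1) (C2 := cd7q1) (C3 := pd3)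
    rfl (fun _ => rfl) k0_pm_113

noncomputable def cut_pm_123 : Cut := Cut.of [[⟨3, 0, 0, 1449551462⟩]]

noncomputable def f_pm_123 : ℕ → ℕ → ℕ → ℕ → Bool := onCell 536870912 536870912 1610612736 536870912 587336777 62277027
    (rowB 3 eng mog cd0q1 cd7q2 pd3 1 true true false .npn 1 2 3 (qsf 536870912 536870912 1073741824 536870912 3) ndB0q1 ndB7q2 pcB3 cut_pm_123 Ext.none)

def k0_pm_123 : ∃ t, chk3 f_pm_123 t 1 1 1 = true :=
  ⟨(a (a (b (b (b (b (a (a (b (c (l 216391789063) (l 198138022071)) (c (l 16273632) (l 184716064535))) (b (l 1) (b (l 1) (l 344166876119)))) (l 1)) (a (a (l 16123360) (l 16261880)) (a (l 380137078535) (l 1)))) (b (a (a (l 16177864) (l 16187016)) (a (l 16204080) (l 16211168))) (a (a (l 16228760) (l 16251136)) (b (l 85931964695) (l 16300832))))) (b (a (b (a (l 16286888) (l 16305232)) (l 16337480)) (b (b (l 16323592) (l 16341096)) (l 16367464))) (a (b (l 16378776) (l 16419088)) (b (l 16402568) (l 16437584))))) (b (b (a (l 16480000)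 (l 16488360)) (a (l 16553312) (b (l 16536528) (l 16566192)))) (b (a (b (l 16601352) (l 16626336)) (b (l 16591712) (l 16615112))) (b (a (l 16645184) (l 16630496)) (b (l 102777467575) (l 4)))))) (b (b (b (l 1) (a (b (l 1) (a (l 405907020695) (l 1))) (l 1))) (b (a (b (a (l 16361288) (l 16378480)) (l 16399784)) (b (l 1) (l 442951829367))) (a (a (l 16439104) (l 16452216)) (b (l 16462352) (l 16488496))))) (b (b (a (b (l 16487504) (l 16513184)) (b (l 16508024) (l 16525800))) (a (b (l 16537736) (l 16560152)) (b (l 16541456) (l 16550848)))) (b (a (b (l 16577680) (l 16593056)) (b (l 16560736) (l 4))) (l 4))))) (a (b (b (l 1) (b (l 1) (a (b (l 1) (l 16544312)) (l 1)))) (b (b (a (b (l 16556120) (l 16562368)) (b (l 1) (l 4))) (a (b (l 16563560) (l 4)) (l 4))) (l 4))) (b (l 1) (l 4)))), by decide +kernel⟩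

theorem c_pm_123 : CertB 536870912 536870912 1073741824 536870912 587336777 62277027 3 eng mog cd0q1 cd7q2 pd3 true true false .npn 1 2 3
    ndB0q1 ndB7q2 pcB3 cut_pm_123 Ext.none :=
  certB1 (fam := true) (s1 := true) (s2 := false) (a := 1) (b := 2) (c := 3) (cn := .npn) (n1 := ndB0q1) (n2 := ndB7q2) (pc := pcB3) (cut := cut_pm_123) (xt := Ext.none) (P1 := 536870912) (W1 := 536870912) (P2 := 1073741824) (W2 := 536870912) (P3 := 587336777) (W3 := 62277027) (N0 := 3) (En := eng) (mo := mog) (C1 := cd0q1) (C2 := cd7q2) (C3 := pd3)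
    rfl (fun _ => rfl) k0_pm_123

noncomputable def cut_pm_133 : Cut := Cut.of [[⟨3, 0, 0, 1449551462⟩]]

noncomputable def f_pm_133 : ℕ → ℕ → ℕ → ℕ → Bool := onCell 536870912 536870912 0 1230186008 587336777 62277027
    (rowB 3 eng mog cd0q1 cd7q3 pd3 0 true true false .dn 1 3 3 (qsf 536870912 536870912 0 1230186008 3) ndB0q1 ndB7q3 pcB3 cut_pm_133 Ext.none)

def k0_pm_133 : ∃ t, chk3 f_pm_133 t 1 1 1 = true :=
  ⟨(b (l 2) (b (l 2) (a (b (l 2) (l 4)) (l 2)))), by decide +kernel⟩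

theorem c_pm_133 : CertB 536870912 536870912 0 1230186008 587336777 62277027 3 eng mog cd0q1 cd7q3 pd3 true true false .dn 1 3 3
    ndB0q1 ndB7q3 pcB3 cut_pm_133 Ext.none :=
  certB0 (fam := true) (s1 := true) (s2 := false) (a := 1) (b := 3) (c := 3) (cn := .dn) (n1 := ndB0q1) (n2 := ndB7q3) (pc := pcB3) (cut := cut_pm_133) (xt := Ext.none) (P1 := 536870912) (W1 := 536870912) (P2 := 0) (W2 := 1230186008) (P3 := 587336777) (W3 := 62277027) (N0 := 3) (En := eng) (mo := mog) (C1 := cd0q1) (C2 := cd7q3) (C3 := pd3)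
    rfl k0_pm_133

noncomputable def cut_pm_202 : Cut := Cut.of [[⟨3, 0, 0, 1449551462⟩]]

noncomputable def f_pm_202 : ℕ → ℕ → ℕ → ℕ → Bool := onCell 0 536870912 0 536870912 587336777 62277027
    (rowB 3 eng mog cd0q2 cd7q0 pd2 0 true true false .pp 2 0 2 (qsf 0 536870912 0 536870912 2) ndB0q2 ndB7q0 pcB2 cut_pm_202 Ext.none)

def k0_pm_202 : ∃ t, chk3 f_pm_202 t 1 1 1 = true :=
  ⟨(a (l 4) (a (b (a (b (b (b (l 16329704) (l 16359264)) (l 4)) (l 4)) (b (b (b (l 16300344) (l 16327824)) (b (l 16363040) (l 16405448))) (b (l 16477840) (l 4)))) (l 4)) (a (b (b (b (b (a (l 16285800) (b (l 16273056) (l 16284240))) (l 16309696)) (b (l 16349128) (l 16397856))) (b (l 16483888) (l 16556032))) (b (b (b (l 16604960) (l 16635912)) (l 16675936)) (l 4))) (b (b (b (a (b (b (a (l 16268504) (l 16265528)) (l 16279624)) (l 16307776)) (b (a (b (b (a (l 16262376) (l 16261248)) (l 16267712)) (l 16281000)) (b (a (b (b (l 16259224) (l 16262480)) (l 16268928)) (b (a (l 16260992) (l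 16264464)) (l 16274648))) (l 16271096))) (a (l 16317672) (l 16317856)))) (a (b (l 16357504) (l 16411128)) (b (l 16355160) (l 16383944)))) (b (a (l 16460136) (b (l 16413896) (l 16448744))) (l 16521744))) (b (b (b (l 16575880) (l 16611840)) (a (l 16668552) (l 16657528))) (b (l 16719248) (b (l 16745056) (l 4)))))))), by decide +kernel⟩

theorem c_pm_202 : CertB 0 536870912 0 536870912 587336777 62277027 3 eng mog cd0q2 cd7q0 pd2 true true false .pp 2 0 2
    ndB0q2 ndB7q0 pcB2 cut_pm_202 Ext.none :=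
  certB0 (fam := true) (s1 := true) (s2 := false) (a := 2) (b := 0) (c := 2) (cn := .pp) (n1 := ndB0q2) (n2 := ndB7q0) (pc := pcB2) (cut := cut_pm_202) (xt := Ext.none) (P1 := 0) (W1 := 536870912) (P2 := 0) (W2 := 536870912) (P3 := 587336777) (W3 := 62277027) (N0 := 3) (En := eng) (mo := mog) (C1 := cd0q2) (C2 := cd7q0) (C3 := pd2)
    rfl k0_pm_202

noncomputable def cut_pm_203 : Cut := Cut.of [[⟨3, 0, 0, 1449551462⟩]]

noncomputable def f_pm_203 : ℕ → ℕ → ℕ → ℕ → Bool := onCell 0 536870912 1610612736 536870912 587336777 62277027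
    (rowB 3 eng mog cd0q2 cd7q0 pd3 1 true true false .up 2 0 3 (qsf 0 536870912 0 536870912 3) ndB0q2 ndB7q0 pcB3 cut_pm_203 Ext.none)

def k0_pm_203 : ∃ t, chk3 f_pm_203 t 1 1 1 = true :=
  ⟨(a (l 4) (b (l 4) (l 2))), by decide +kernel⟩

theorem c_pm_203 : CertB 0 536870912 0 536870912 587336777 62277027 3 eng mog cd0q2 cd7q0 pd3 true true false .up 2 0 3
    ndB0q2 ndB7q0 pcB3 cut_pm_203 Ext.none :=
  certB1 (fam := true) (s1 := true) (s2 := false) (a := 2) (b := 0) (c := 3) (cn := .up) (n1 := ndB0q2) (n2 := ndB7q0) (pc := pcB3) (cut := cut_pm_203) (xt := Ext.none) (P1 := 0) (W1 := 536870912) (P2 := 0) (W2 := 536870912) (P3 := 587336777) (W3 := 62277027) (N0 := 3) (En := eng) (mo := mog) (C1 := cd0q2) (C2 := cd7q0) (C3 := pd3)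
    rfl (fun _ => rfl) k0_pm_203

noncomputable def cut_pm_213 : Cut := Cut.of [[⟨3, 0, 0, 1449551462⟩]]

noncomputable def f_pm_213 : ℕ → ℕ → ℕ → ℕ → Bool := onCell 0 536870912 536870912 536870912 587336777 62277027
    (rowB 3 eng mog cd0q2 cd7q1 pd3 0 true true false .pnn 2 1 3 (qsf 0 536870912 536870912 536870912 3) ndB0q2 ndB7q1 pcB3 cut_pm_213 Ext.none)

def k0_pm_213 : ∃ t, chk3 f_pm_213 t 1 1 1 = true :=
  ⟨(a (l 4) (b (l 4) (l 4))), by decide +kernel⟩

theorem c_pm_213 : CertB 0 536870912 536870912 536870912 587336777 62277027 3 eng mog cd0q2 cd7q1 pd3 true true false .pnn 2 1 3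
    ndB0q2 ndB7q1 pcB3 cut_pm_213 Ext.none :=
  certB0 (fam := true) (s1 := true) (s2 := false) (a := 2) (b := 1) (c := 3) (cn := .pnn) (n1 := ndB0q2) (n2 := ndB7q1) (pc := pcB3) (cut := cut_pm_213) (xt := Ext.none) (P1 := 0) (W1 := 536870912) (P2 := 536870912) (W2 := 536870912) (P3 := 587336777) (W3 := 62277027) (N0 := 3) (En := eng) (mo := mog) (C1 := cd0q2) (C2 := cd7q1) (C3 := pd3)
    rfl k0_pm_213

noncomputable def cut_mm_001 : Cut := Cut.of [[⟨3, 0, 0, 1449551462⟩]]

noncomputable def f_mm_001 : ℕ → ℕ → ℕ → ℕ → Bool := onCell 0 536870912 0 536870912 587336777 62277027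
    (rowB 3 eng mog cd0q0 cd7q0 pd1 0 true false false .up 0 0 1 (qsf 0 536870912 0 536870912 1) ndB0q0 ndB7q0 pcB1 cut_mm_001 Ext.none)

def k0_mm_001 : ∃ t, chk3 f_mm_001 t 1 1 1 = true :=
  ⟨(l 4), by decide +kernel⟩

theorem c_mm_001 : CertB 0 536870912 0 536870912 587336777 62277027 3 eng mog cd0q0 cd7q0 pd1 true false false .up 0 0 1
    ndB0q0 ndB7q0 pcB1 cut_mm_001 Ext.none :=
  certB0 (fam := true) (s1 := false) (s2 := false) (a := 0) (b := 0) (c := 1) (cn := .up) (n1 := ndB0q0) (n2 := ndB7q0) (pc := pcB1) (cut := cut_mm_001) (xt := Ext.none) (P1 := 0) (W1 := 536870912) (P2 := 0) (W2 := 536870912) (P3 := 587336777) (W3 := 62277027) (N0 := 3) (En := eng) (mo := mog) (C1 := cd0q0) (C2 := cd7q0) (C3 := pd1)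
    rfl k0_mm_001

noncomputable def cut_mm_011 : Cut := Cut.of [[⟨3, 0, 0, 1449551462⟩]]

noncomputable def f_mm_011 : ℕ → ℕ → ℕ → ℕ → Bool := onCell 0 536870912 536870912 536870912 587336777 62277027
    (rowB 3 eng mog cd0q0 cd7q1 pd1 0 true false false .pnn 0 1 1 (qsf 0 536870912 536870912 536870912 1) ndB0q0 ndB7q1 pcB1 cut_mm_011 Ext.none)

def k0_mm_011 : ∃ t, chk3 f_mm_011 t 1 1 1 = true :=
  ⟨(l 4), by decide +kernel⟩

theorem c_mm_011 : CertB 0 536870912 536870912 536870912 587336777 62277027 3 eng mog cd0q0 cd7q1 pd1 true false false .pnn 0 1 1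
    ndB0q0 ndB7q1 pcB1 cut_mm_011 Ext.none :=
  certB0 (fam := true) (s1 := false) (s2 := false) (a := 0) (b := 1) (c := 1) (cn := .pnn) (n1 := ndB0q0) (n2 := ndB7q1) (pc := pcB1) (cut := cut_mm_011) (xt := Ext.none) (P1 := 0) (W1 := 536870912) (P2 := 536870912) (W2 := 536870912) (P3 := 587336777) (W3 := 62277027) (N0 := 3) (En := eng) (mo := mog) (C1 := cd0q0) (C2 := cd7q1) (C3 := pd1)
    rfl k0_mm_011

noncomputable def cut_mm_012 : Cut := Cut.of [[⟨3, 0, 0, 1449551462⟩]]

noncomputable def f_mm_012 : ℕ → ℕ → ℕ → ℕ → Bool := onCell 0 536870912 536870912 536870912 587336777 62277027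
    (rowB 3 eng mog cd0q0 cd7q1 pd2 0 true false false .pnp 0 1 2 (qsf 0 536870912 536870912 536870912 2) ndB0q0 ndB7q1 pcB2 cut_mm_012 Ext.none)

def k0_mm_012 : ∃ t, chk3 f_mm_012 t 1 1 1 = true :=
  ⟨(l 4), by decide +kernel⟩

theorem c_mm_012 : CertB 0 536870912 536870912 536870912 587336777 62277027 3 eng mog cd0q0 cd7q1 pd2 true false false .pnp 0 1 2
    ndB0q0 ndB7q1 pcB2 cut_mm_012 Ext.none :=
  certB0 (fam := true) (s1 := false) (s2 := false) (a := 0) (b := 1) (c := 2) (cn := .pnp) (n1 := ndB0q0) (n2 := ndB7q1) (pc := pcB2) (cut := cut_mm_012) (xt := Ext.none) (P1 := 0) (W1 := 536870912) (P2 := 536870912) (W2 := 536870912) (P3 := 587336777) (W3 := 62277027) (N0 := 3) (En := eng) (mo := mog) (C1 := cd0q0) (C2 := cd7q1) (C3 := pd2)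
    rfl k0_mm_012

noncomputable def cut_mm_022 : Cut := Cut.of [[⟨3, 0, 0, 1449551462⟩]]

noncomputable def f_mm_022 : ℕ → ℕ → ℕ → ℕ → Bool := onCell 0 536870912 1073741824 536870912 587336777 62277027
    (rowB 3 eng mog cd0q0 cd7q2 pd2 0 true false false .pp 0 2 2 (qsf 0 536870912 1073741824 536870912 2) ndB0q0 ndB7q2 pcB2 cut_mm_022 Ext.none)

def k0_mm_022 : ∃ t, chk3 f_mm_022 t 1 1 1 = true :=
  ⟨(l 4), by decide +kernel⟩

theorem c_mm_022 : CertB 0 536870912 1073741824 536870912 587336777 62277027 3 eng mog cd0q0 cd7q2 pd2 true false false .pp 0 2 2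
    ndB0q0 ndB7q2 pcB2 cut_mm_022 Ext.none :=
  certB0 (fam := true) (s1 := false) (s2 := false) (a := 0) (b := 2) (c := 2) (cn := .pp) (n1 := ndB0q0) (n2 := ndB7q2) (pc := pcB2) (cut := cut_mm_022) (xt := Ext.none) (P1 := 0) (W1 := 536870912) (P2 := 1073741824) (W2 := 536870912) (P3 := 587336777) (W3 := 62277027) (N0 := 3) (En := eng) (mo := mog) (C1 := cd0q0) (C2 := cd7q2) (C3 := pd2)
    rfl k0_mm_022

noncomputable def cut_mm_023 : Cut := Cut.of [[⟨3, 0, 0, 1449551462⟩]]

noncomputable def f_mm_023 : ℕ → ℕ → ℕ → ℕ → Bool := onCell 0 536870912 1073741824 536870912 587336777 62277027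
    (rowB 3 eng mog cd0q0 cd7q2 pd3 0 true false false .up 0 2 3 (qsf 0 536870912 1073741824 536870912 3) ndB0q0 ndB7q2 pcB3 cut_mm_023 Ext.none)

def k0_mm_023 : ∃ t, chk3 f_mm_023 t 1 1 1 = true :=
  ⟨(l 4), by decide +kernel⟩

theorem c_mm_023 : CertB 0 536870912 1073741824 536870912 587336777 62277027 3 eng mog cd0q0 cd7q2 pd3 true false false .up 0 2 3
    ndB0q0 ndB7q2 pcB3 cut_mm_023 Ext.none :=
  certB0 (fam := true) (s1 := false) (s2 := false) (a := 0) (b := 2) (c := 3) (cn := .up) (n1 := ndB0q0) (n2 := ndB7q2) (pc := pcB3) (cut := cut_mm_023) (xt := Ext.none) (P1 := 0) (W1 := 536870912) (P2 := 1073741824) (W2 := 536870912) (P3 := 587336777) (W3 := 62277027) (N0 := 3) (En := eng) (mo := mog) (C1 := cd0q0) (C2 := cd7q2) (C3 := pd3)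
    rfl k0_mm_023

noncomputable def cut_mm_033 : Cut := Cut.of [[⟨3, 0, 0, 1449551462⟩]]

noncomputable def f_mm_033 : ℕ → ℕ → ℕ → ℕ → Bool := onCell 0 536870912 0 1230186008 587336777 62277027
    (rowB 3 eng mog cd0q0 cd7q3 pd3 0 true false false .pnn 0 3 3 (qsf 0 536870912 0 1230186008 3) ndB0q0 ndB7q3 pcB3 cut_mm_033 Ext.none)

def k0_mm_033 : ∃ t, chk3 f_mm_033 t 1 1 1 = true :=
  ⟨(l 4), by decide +kernel⟩

theorem c_mm_033 : CertB 0 536870912 0 1230186008 587336777 62277027 3 eng mog cd0q0 cd7q3 pd3 true false false .pnn 0 3 3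
    ndB0q0 ndB7q3 pcB3 cut_mm_033 Ext.none :=
  certB0 (fam := true) (s1 := false) (s2 := false) (a := 0) (b := 3) (c := 3) (cn := .pnn) (n1 := ndB0q0) (n2 := ndB7q3) (pc := pcB3) (cut := cut_mm_033) (xt := Ext.none) (P1 := 0) (W1 := 536870912) (P2 := 0) (W2 := 1230186008) (P3 := 587336777) (W3 := 62277027) (N0 := 3) (En := eng) (mo := mog) (C1 := cd0q0) (C2 := cd7q3) (C3 := pd3)
    rfl k0_mm_033

noncomputable def cut_mm_101 : Cut := Cut.of [[⟨3, 0, 0, 1449551462⟩]]

noncomputable def f_mm_101 : ℕ → ℕ → ℕ → ℕ → Bool := onCell 536870912 536870912 0 536870912 587336777 62277027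
    (rowB 3 eng mog cd0q1 cd7q0 pd1 0 true false false .npn 1 0 1 (qsf 536870912 536870912 0 536870912 1) ndB0q1 ndB7q0 pcB1 cut_mm_101 Ext.none)

def k0_mm_101 : ∃ t, chk3 f_mm_101 t 1 1 1 = true :=
  ⟨(l 4), by decide +kernel⟩

theorem c_mm_101 : CertB 536870912 536870912 0 536870912 587336777 62277027 3 eng mog cd0q1 cd7q0 pd1 true false false .npn 1 0 1
    ndB0q1 ndB7q0 pcB1 cut_mm_101 Ext.none :=
  certB0 (fam := true) (s1 := false) (s2 := false) (a := 1) (b := 0) (c := 1) (cn := .npn) (n1 := ndB0q1) (n2 := ndB7q0) (pc := pcB1) (cut := cut_mm_101) (xt := Ext.none) (P1 := 536870912) (W1 := 536870912) (P2 := 0) (W2 := 536870912) (P3 := 587336777) (W3 := 62277027) (N0 := 3) (En := eng) (mo := mog) (C1 := cd0q1) (C2 := cd7q0) (C3 := pd1)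
    rfl k0_mm_101

noncomputable def cut_mm_102 : Cut := Cut.of [[⟨3, 0, 0, 1449551462⟩]]

noncomputable def f_mm_102 : ℕ → ℕ → ℕ → ℕ → Bool := onCell 536870912 536870912 0 536870912 587336777 62277027
    (rowB 3 eng mog cd0q1 cd7q0 pd2 0 true false false .npp 1 0 2 (qsf 536870912 536870912 0 536870912 2) ndB0q1 ndB7q0 pcB2 cut_mm_102 Ext.none)

def k0_mm_102 : ∃ t, chk3 f_mm_102 t 1 1 1 = true :=
  ⟨(l 4), by decide +kernel⟩

theorem c_mm_102 : CertB 536870912 536870912 0 536870912 587336777 62277027 3 eng mog cd0q1 cd7q0 pd2 true false false .npp 1 0 2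
    ndB0q1 ndB7q0 pcB2 cut_mm_102 Ext.none :=
  certB0 (fam := true) (s1 := false) (s2 := false) (a := 1) (b := 0) (c := 2) (cn := .npp) (n1 := ndB0q1) (n2 := ndB7q0) (pc := pcB2) (cut := cut_mm_102) (xt := Ext.none) (P1 := 536870912) (W1 := 536870912) (P2 := 0) (W2 := 536870912) (P3 := 587336777) (W3 := 62277027) (N0 := 3) (En := eng) (mo := mog) (C1 := cd0q1) (C2 := cd7q0) (C3 := pd2)
    rfl k0_mm_102

noncomputable def cut_mm_112 : Cut := Cut.of [[⟨3, 0, 0, 1449551462⟩]]

noncomputable def f_mm_112 : ℕ → ℕ → ℕ → ℕ → Bool := onCell 536870912 536870912 536870912 536870912 587336777 62277027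
    (rowB 3 eng mog cd0q1 cd7q1 pd2 0 true false false .dn 1 1 2 (qsf 536870912 536870912 536870912 536870912 2) ndB0q1 ndB7q1 pcB2 cut_mm_112 Ext.none)

def k0_mm_112 : ∃ t, chk3 f_mm_112 t 1 1 1 = true :=
  ⟨(l 4), by decide +kernel⟩

theorem c_mm_112 : CertB 536870912 536870912 536870912 536870912 587336777 62277027 3 eng mog cd0q1 cd7q1 pd2 true false false .dn 1 1 2
    ndB0q1 ndB7q1 pcB2 cut_mm_112 Ext.none :=
  certB0 (fam := true) (s1 := false) (s2 := false) (a := 1) (b := 1) (c := 2) (cn := .dn) (n1 := ndB0q1) (n2 := ndB7q1) (pc := pcB2) (cut := cut_mm_112) (xt := Ext.none) (P1 := 536870912) (W1 := 536870912) (P2 := 536870912) (W2 := 536870912) (P3 := 587336777) (W3 := 62277027) (N0 := 3) (En := eng) (mo := mog) (C1 := cd0q1) (C2 := cd7q1) (C3 := pd2)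
    rfl k0_mm_112

noncomputable def cut_mm_113 : Cut := Cut.of [[⟨3, 0, 0, 1449551462⟩]]

noncomputable def f_mm_113 : ℕ → ℕ → ℕ → ℕ → Bool := onCell 536870912 536870912 536870912 536870912 587336777 62277027
    (rowB 3 eng mog cd0q1 cd7q1 pd3 0 true false false .nn 1 1 3 (qsf 536870912 536870912 536870912 536870912 3) ndB0q1 ndB7q1 pcB3 cut_mm_113 Ext.none)

def k0_mm_113 : ∃ t, chk3 f_mm_113 t 1 1 1 = true :=
  ⟨(l 4), by decide +kernel⟩

theorem c_mm_113 : CertB 536870912 536870912 536870912 536870912 587336777 62277027 3 eng mog cd0q1 cd7q1 pd3 true false false .nn 1 1 3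
    ndB0q1 ndB7q1 pcB3 cut_mm_113 Ext.none :=
  certB0 (fam := true) (s1 := false) (s2 := false) (a := 1) (b := 1) (c := 3) (cn := .nn) (n1 := ndB0q1) (n2 := ndB7q1) (pc := pcB3) (cut := cut_mm_113) (xt := Ext.none) (P1 := 536870912) (W1 := 536870912) (P2 := 536870912) (W2 := 536870912) (P3 := 587336777) (W3 := 62277027) (N0 := 3) (En := eng) (mo := mog) (C1 := cd0q1) (C2 := cd7q1) (C3 := pd3)
    rfl k0_mm_113

noncomputable def cut_mm_123 : Cut := Cut.of [[⟨3, 0, 0, 1449551462⟩]]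

noncomputable def f_mm_123 : ℕ → ℕ → ℕ → ℕ → Bool := onCell 536870912 536870912 1073741824 536870912 587336777 62277027
    (rowB 3 eng mog cd0q1 cd7q2 pd3 0 true false false .npn 1 2 3 (qsf 536870912 536870912 1073741824 536870912 3) ndB0q1 ndB7q2 pcB3 cut_mm_123 Ext.none)

def k0_mm_123 : ∃ t, chk3 f_mm_123 t 1 1 1 = true :=
  ⟨(l 4), by decide +kernel⟩

theorem c_mm_123 : CertB 536870912 536870912 1073741824 536870912 587336777 62277027 3 eng mog cd0q1 cd7q2 pd3 true false false .npn 1 2 3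
    ndB0q1 ndB7q2 pcB3 cut_mm_123 Ext.none :=
  certB0 (fam := true) (s1 := false) (s2 := false) (a := 1) (b := 2) (c := 3) (cn := .npn) (n1 := ndB0q1) (n2 := ndB7q2) (pc := pcB3) (cut := cut_mm_123) (xt := Ext.none) (P1 := 536870912) (W1 := 536870912) (P2 := 1073741824) (W2 := 536870912) (P3 := 587336777) (W3 := 62277027) (N0 := 3) (En := eng) (mo := mog) (C1 := cd0q1) (C2 := cd7q2) (C3 := pd3)
    rfl k0_mm_123

noncomputable def cut_mm_133 : Cut := Cut.of [[⟨3, 0, 0, 1449551462⟩]]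

noncomputable def f_mm_133 : ℕ → ℕ → ℕ → ℕ → Bool := onCell 536870912 536870912 0 1230186008 587336777 62277027
    (rowB 3 eng mog cd0q1 cd7q3 pd3 0 true false false .dn 1 3 3 (qsf 536870912 536870912 0 1230186008 3) ndB0q1 ndB7q3 pcB3 cut_mm_133 Ext.none)

def k0_mm_133 : ∃ t, chk3 f_mm_133 t 1 1 1 = true :=
  ⟨(l 4), by decide +kernel⟩

theorem c_mm_133 : CertB 536870912 536870912 0 1230186008 587336777 62277027 3 eng mog cd0q1 cd7q3 pd3 true false false .dn 1 3 3
    ndB0q1 ndB7q3 pcB3 cut_mm_133 Ext.none :=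
  certB0 (fam := true) (s1 := false) (s2 := false) (a := 1) (b := 3) (c := 3) (cn := .dn) (n1 := ndB0q1) (n2 := ndB7q3) (pc := pcB3) (cut := cut_mm_133) (xt := Ext.none) (P1 := 536870912) (W1 := 536870912) (P2 := 0) (W2 := 1230186008) (P3 := 587336777) (W3 := 62277027) (N0 := 3) (En := eng) (mo := mog) (C1 := cd0q1) (C2 := cd7q3) (C3 := pd3)
    rfl k0_mm_133

noncomputable def cut_mm_202 : Cut := Cut.of [[⟨3, 0, 0, 1449551462⟩]]

noncomputable def f_mm_202 : ℕ → ℕ → ℕ → ℕ → Bool := onCell 0 536870912 0 536870912 587336777 62277027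
    (rowB 3 eng mog cd0q2 cd7q0 pd2 0 true false false .pp 2 0 2 (qsf 0 536870912 0 536870912 2) ndB0q2 ndB7q0 pcB2 cut_mm_202 Ext.none)

def k0_mm_202 : ∃ t, chk3 f_mm_202 t 1 1 1 = true :=
  ⟨(l 4), by decide +kernel⟩

theorem c_mm_202 : CertB 0 536870912 0 536870912 587336777 62277027 3 eng mog cd0q2 cd7q0 pd2 true false false .pp 2 0 2
    ndB0q2 ndB7q0 pcB2 cut_mm_202 Ext.none :=
  certB0 (fam := true) (s1 := false) (s2 := false) (a := 2) (b := 0) (c := 2) (cn := .pp) (n1 := ndB0q2) (n2 := ndB7q0) (pc := pcB2) (cut := cut_mm_202) (xt := Ext.none) (P1 := 0) (W1 := 536870912) (P2 := 0) (W2 := 536870912) (P3 := 587336777) (W3 := 62277027) (N0 := 3) (En := eng) (mo := mog) (C1 := cd0q2) (C2 := cd7q0) (C3 := pd2)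
    rfl k0_mm_202

noncomputable def cut_mm_203 : Cut := Cut.of [[⟨3, 0, 0, 1449551462⟩]]

noncomputable def f_mm_203 : ℕ → ℕ → ℕ → ℕ → Bool := onCell 0 536870912 0 536870912 587336777 62277027
    (rowB 3 eng mog cd0q2 cd7q0 pd3 0 true false false .up 2 0 3 (qsf 0 536870912 0 536870912 3) ndB0q2 ndB7q0 pcB3 cut_mm_203 Ext.none)

def k0_mm_203 : ∃ t, chk3 f_mm_203 t 1 1 1 = true :=
  ⟨(l 4), by decide +kernel⟩

theorem c_mm_203 : CertB 0 536870912 0 536870912 587336777 62277027 3 eng mog cd0q2 cd7q0 pd3 true false false .up 2 0 3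
    ndB0q2 ndB7q0 pcB3 cut_mm_203 Ext.none :=
  certB0 (fam := true) (s1 := false) (s2 := false) (a := 2) (b := 0) (c := 3) (cn := .up) (n1 := ndB0q2) (n2 := ndB7q0) (pc := pcB3) (cut := cut_mm_203) (xt := Ext.none) (P1 := 0) (W1 := 536870912) (P2 := 0) (W2 := 536870912) (P3 := 587336777) (W3 := 62277027) (N0 := 3) (En := eng) (mo := mog) (C1 := cd0q2) (C2 := cd7q0) (C3 := pd3)
    rfl k0_mm_203

noncomputable def cut_mm_213 : Cut := Cut.of [[⟨3, 0, 0, 1449551462⟩]]

noncomputable def f_mm_213 : ℕ → ℕ → ℕ → ℕ → Bool := onCell 0 536870912 536870912 536870912 587336777 62277027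
    (rowB 3 eng mog cd0q2 cd7q1 pd3 0 true false false .pnn 2 1 3 (qsf 0 536870912 536870912 536870912 3) ndB0q2 ndB7q1 pcB3 cut_mm_213 Ext.none)

def k0_mm_213 : ∃ t, chk3 f_mm_213 t 1 1 1 = true :=
  ⟨(l 4), by decide +kernel⟩

theorem c_mm_213 : CertB 0 536870912 536870912 536870912 587336777 62277027 3 eng mog cd0q2 cd7q1 pd3 true false false .pnn 2 1 3
    ndB0q2 ndB7q1 pcB3 cut_mm_213 Ext.none :=
  certB0 (fam := true) (s1 := false) (s2 := false) (a := 2) (b := 1) (c := 3) (cn := .pnn) (n1 := ndB0q2) (n2 := ndB7q1) (pc := pcB3) (cut := cut_mm_213) (xt := Ext.none) (P1 := 0) (W1 := 536870912) (P2 := 536870912) (W2 := 536870912) (P3 := 587336777) (W3 := 62277027) (N0 := 3) (En := eng) (mo := mog) (C1 := cd0q2) (C2 := cd7q1) (C3 := pd3)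
    rfl k0_mm_213

end Pool.Agent.Strip051.G.I5470_6050.Tab.C.BA07

namespace Pool.Agent.Strip051.G.I5470_6050.Tab.C.BA11

open Pool.Agent.Strip051.PB Pool.Agent.Strip051.PB.T
open Pool.Agent.Strip051.G.I5470_6050.Tab

noncomputable def f_pp_001 : ℕ → ℕ → ℕ → ℕ → Bool := onCell 0 536870912 0 536870912 587336777 62277027
    (rowB 3 eng mog cd1q0 cd1q0 pd1 0 true true true .up 0 0 1 (qsf 0 536870912 0 536870912 1) ndB1q0 ndB1q0 pcB1 Cut.none Ext.none)

def k0_pp_001 : ∃ t, chk3 f_pp_001 t 1 1 1 = true :=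
  ⟨(l 4), by decide +kernel⟩

theorem c_pp_001 : CertB 0 536870912 0 536870912 587336777 62277027 3 eng mog cd1q0 cd1q0 pd1 true true true .up 0 0 1
    ndB1q0 ndB1q0 pcB1 Cut.none Ext.none :=
  certB0 (fam := true) (s1 := true) (s2 := true) (a := 0) (b := 0) (c := 1) (cn := .up) (n1 := ndB1q0) (n2 := ndB1q0) (pc := pcB1) (cut := Cut.none) (xt := Ext.none) (P1 := 0) (W1 := 536870912) (P2 := 0) (W2 := 536870912) (P3 := 587336777) (W3 := 62277027) (N0 := 3) (En := eng) (mo := mog) (C1 := cd1q0) (C2 := cd1q0) (C3 := pd1)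
    rfl k0_pp_001

noncomputable def f_pp_011 : ℕ → ℕ → ℕ → ℕ → Bool := onCell 0 536870912 536870912 536870912 587336777 62277027
    (rowB 3 eng mog cd1q0 cd1q1 pd1 0 true true true .pnn 0 1 1 (qsf 0 536870912 536870912 536870912 1) ndB1q0 ndB1q1 pcB1 Cut.none Ext.none)

def k0_pp_011 : ∃ t, chk3 f_pp_011 t 1 1 1 = true :=
  ⟨(l 4), by decide +kernel⟩

theorem c_pp_011 : CertB 0 536870912 536870912 536870912 587336777 62277027 3 eng mog cd1q0 cd1q1 pd1 true true true .pnn 0 1 1
    ndB1q0 ndB1q1 pcB1 Cut.none Ext.none :=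
  certB0 (fam := true) (s1 := true) (s2 := true) (a := 0) (b := 1) (c := 1) (cn := .pnn) (n1 := ndB1q0) (n2 := ndB1q1) (pc := pcB1) (cut := Cut.none) (xt := Ext.none) (P1 := 0) (W1 := 536870912) (P2 := 536870912) (W2 := 536870912) (P3 := 587336777) (W3 := 62277027) (N0 := 3) (En := eng) (mo := mog) (C1 := cd1q0) (C2 := cd1q1) (C3 := pd1)
    rfl k0_pp_011

noncomputable def f_pp_012 : ℕ → ℕ → ℕ → ℕ → Bool := onCell 0 536870912 536870912 536870912 587336777 62277027
    (rowB 3 eng mog cd1q0 cd1q1 pd2 0 true true true .pnp 0 1 2 (qsf 0 536870912 536870912 536870912 2) ndB1q0 ndB1q1 pcB2 Cut.none Ext.none)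

def k0_pp_012 : ∃ t, chk3 f_pp_012 t 1 1 1 = true :=
  ⟨(l 4), by decide +kernel⟩

theorem c_pp_012 : CertB 0 536870912 536870912 536870912 587336777 62277027 3 eng mog cd1q0 cd1q1 pd2 true true true .pnp 0 1 2
    ndB1q0 ndB1q1 pcB2 Cut.none Ext.none :=
  certB0 (fam := true) (s1 := true) (s2 := true) (a := 0) (b := 1) (c := 2) (cn := .pnp) (n1 := ndB1q0) (n2 := ndB1q1) (pc := pcB2) (cut := Cut.none) (xt := Ext.none) (P1 := 0) (W1 := 536870912) (P2 := 536870912) (W2 := 536870912) (P3 := 587336777) (W3 := 62277027) (N0 := 3) (En := eng) (mo := mog) (C1 := cd1q0) (C2 := cd1q1) (C3 := pd2)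
    rfl k0_pp_012

noncomputable def cut_pp_022_a : Cut := Cut.of [[⟨0, 0, 0, 67108864⟩, ⟨1, 1, 0, 67108864⟩, ⟨2, 1, 0, 67108864⟩]]

noncomputable def f_pp_022_a : ℕ → ℕ → ℕ → ℕ → Bool := onCell 0 536870912 0 536870912 587336777 62277027
    (rowB 3 eng mog cd1q0 cd1q2a pd2 0 true true true .pp 0 2 2 (qsf 0 536870912 0 536870912 2) ndB1q0 ndB1q2a pcB2 cut_pp_022_a Ext.none)

def k0_pp_022_a : ∃ t, chk3 f_pp_022_a t 2 2 1 = true :=
  ⟨(a (b (a (a (b (a (l 16457472) (l 16463712)) (a (b (l 16463720) (l 16470984)) (b (l 16471200) (l 16458064)))) (b (l 16472320) (b (l 16481936) (l 16470032)))) (a (b (l 16483608) (l 16521360)) (b (l 16519576) (l 16516448)))) (a (a (b (a (b (l 16480560) (a (l 16490536) (l 16494728))) (b (a (l 16486840) (l 16491296)) (b (l 16498016) (l 16504880)))) (a (b (b (a (l 16501048) (l 16505400)) (a (l 16509008) (l 16513480))) (a (c (l 16533344) (l 16532864)) (c (b (l 16523328) (l 16532552)) (l 16537040)))) (b (b (l 16512376) (a (l 16518176)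 (l 16523088))) (b (a (l 16527096) (l 16532120)) (a (c (l 16537920) (l 16535920)) (l 16541872)))))) (b (b (a (l 16497904) (l 16506376)) (a (a (l 16529616) (l 16513384)) (l 16520336))) (b (b (a (a (l 16519800) (l 16524864)) (l 16532280)) (a (a (l 16528192) (l 16533424)) (l 16541176))) (a (a (b (l 16537328) (l 16547192)) (a (l 16567312) (b (l 16544056) (l 16554064)))) (a (b (l 16548104) (a (l 16556872) (l 16559664))) (l 16579616)))))) (b (a (b (l 16518440) (a (l 16529296) (l 16537896))) (b (l 16536424) (l 16553120))) (a (b (a (b (l 16541888) (l 16551216)) (l 16577024)) (a (b (l 16561248) (l 16571968)) (b (l 16571384) (l 16582552)))) (a (b (l 16607840) (l 16589664)) (b (l 16578872) (l 16643224))))))) (b (a (b (a (l 16518392) (l 16603032)) (a (l 16539600) (l 16562576))) (a (b (l 16561440) (l 16581040)) (b (l 16593856) (l 16612952)))) (a (b (a (b (l 16560848) (l 16557552)) (b (l 16585200) (l 16603688))) (b (a (l 16661808) (l 16624976)) (a (b (l 16657912) (l 16680776))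 (b (l 16663840) (l 16697792))))) (b (a (b (l 16605704) (l 16626808)) (l 16640816)) (b (a (a (l 16643504) (l 16656856)) (l 16678192)) (a (a (l 16668840) (l 16683472)) (l 16748192))))))), by decide +kernel⟩

def k1_pp_022_a : ∃ t, chk3 f_pp_022_a t 4 6 1 = true :=
  ⟨(a (b (a (a (b (b (a (l 16526768) (l 16542096)) (a (c (l 16547776) (l 16546736)) (l 16553152))) (b (a (c (l 16558800) (l 16557088)) (l 16564352)) (a (c (l 16570376) (l 16568040)) (l 16575992)))) (b (b (a (l 16547136) (b (l 16549656) (l 16555112))) (a (l 16558320) (l 16563696))) (b (a (l 16570312) (l 16575808)) (a (l 16582448) (l 16588688))))) (b (a (b (a (l 16557824) (l 16563416)) (a (l 16569248) (l 16574960))) (b (a (b (l 16566328) (l 16571960)) (l 16585400)) (a (l 16580808) (a (l 16585264) (l 16588240))))) (a (b (a (l 16581488) (l 16587320)) (l 16597448)) (b (a (l 16593288) (l 16599368)) (l 16609640))))) (a (a (b (a (b (l 16581272) (l 16593776)) (b (l 16588280) (l 16601152))) (a (b (l 16606912)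 (l 16620936)) (b (l 16614648) (l 16628984)))) (b (b (a (l 16595088) (l 16601720)) (a (l 16608328) (l 16615312))) (b (a (l 16622176) (l 16629528)) (a (l 16636816) (l 16644464))))) (a (b (b (l 16611184) (l 16625504)) (b (l 16640248) (l 16655624))) (b (b (l 16623624) (l 16638472)) (b (l 16654072) (l 16670016)))))) (b (a (b (a (b (l 16583408) (l 16595592)) (b (l 16594448) (l 16607088))) (a (b (a (c (l 16628096) (l 16646048)) (l 16611560)) (a (l 16619048) (b (l 16621832) (l 16628840)))) (c (l 16628840) (l 16626520)))) (b (a (b (l 16605800) (l 16639848)) (l 16626576)) (a (b (l 16632728) (l 16647288)) (l 16654864)))) (a (a (b (b (a (l 16633232) (l 16639712)) (l 16651592)) (a (l 16693344) (l 16700192))) (b (b (l 16649352) (a (l 16661568) (l 16668168))) (b (a (l 16677744) (l 16684568)) (l 16718920)))) (a (b (b (l 16662448) (l 16678400)) (a (b (l 16691344) (l 16708448)) (l 16728504))) (b (l 16685848) (b (l 16710864) (l 16728224))))))), by decide +kernel⟩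

def k2_pp_022_a : ∃ t, chk3 f_pp_022_a t 4 7 1 = true :=
  ⟨(a (b (a (a (a (b (b (a (l 16633536) (l 16637768)) (a (l 16659408) (l 16653312))) (b (a (l 6) (l 16680720)) (l 6))) (b (b (l 16644016) (b (l 16655704) (l 16663848))) (b (a (l 16674664) (l 16679040)) (a (l 6) (b (l 16692544) (l 6)))))) (a (b (b (l 16652160) (b (l 16664080) (l 16672360))) (b (b (l 16681040) (l 16689952)) (b (l 16699104) (l 16718976)))) (b (b (l 16660104) (l 16686968)) (b (b (l 16689440) (l 16698440)) (b (l 16707664) (l 16727624)))))) (b (b (a (b (l 16667584) (l 16675800)) (l 16686664)) (b (a (l 16684200) (l 16699592)) (a (l 16692808) (l 16708448)))) (a (b (a (b (l 16697656) (l 16706728)) (l 16710272)) (a (b (a (l 16713960) (l 16718104)) (l 16725592)) (l 16739544))) (b (c (l 16743352) (l 16732272)) (a (l 16747608) (b (l 16740112) (l 16749480))))))) (a (b (a (l 6) (a (l 6) (b (b (c (l 16737944) (l 16736672)) (a (l 6) (b (l 16736448) (l 16741528)))) (l 6)))) (l 6)) (b (a (b (a (b (l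 16735384) (l 16745432)) (b (l 16743736) (l 16764216))) (b (a (b (l 16753192) (l 16763528)) (a (l 16772016) (l 16775992))) (a (a (l 6) (c (l 16775656) (l 16774296))) (l 4)))) (b (a (b (l 16751520) (a (l 16759392) (l 16773856))) (b (l 16769728) (l 4))) (l 4))) (l 4)))) (b (a (b (b (a (l 16701216) (l 16715552)) (a (l 16729592) (a (l 16730232) (l 16737616)))) (b (a (a (l 16733672) (l 16741184)) (a (l 16769696) (l 16766688))) (a (a (a (l 16760960) (l 16764824)) (b (l 16755264) (l 4))) (l 4)))) (b (a (a (b (l 16726328) (l 16745024)) (b (l 16755072) (b (l 16748088) (l 4)))) (b (l 16756680) (l 4))) (l 4))) (l 4))), by decide +kernel⟩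

def k3_pp_022_a : ∃ t, chk3 f_pp_022_a t 5 3 1 = true :=
  ⟨(b (a (b (a (b (a (l 16683096) (l 16697576)) (a (l 16670064) (l 16685240))) (b (a (l 16690856) (l 16683768)) (a (l 16700192) (l 16714744)))) (a (b (a (l 16701624) (l 16717392)) (a (b (l 16727000) (l 16744312)) (b (l 16742832) (l 4)))) (b (a (b (l 16724416) (l 67880457111)) (b (l 16738960) (l 4))) (l 4)))) (b (a (a (b (l 16697272) (l 16749400)) (b (l 16733536) (l 35131496391))) (b (a (l 25467797415) (l 16784448)) (l 4))) (l 4))) (a (l 4) (l 4))), by decide +kernel⟩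

def k4_pp_022_a : ∃ t, chk3 f_pp_022_a t 3 1 1 = true :=
  ⟨(b (b (a (a (a (b (l 16624168) (l 16642976)) (b (l 16651920) (l 16670632))) (a (b (l 16676848) (l 16695392)) (b (l 16698424) (l 16768944)))) (l 2)) (a (a (b (a (l 16688200) (b (l 16684896) (l 16709480))) (a (b (l 16728488) (c (l 16807416) (l 32447190807))) (b (a (l 16729192) (l 16742016)) (l 4)))) (b (a (b (l 16712296) (l 16799968)) (b (l 16782824) (l 4))) (l 4))) (l 4))) (a (b (l 4) (l 4)) (l 4))), by decide +kernel⟩

theorem s5_pp_022_a : ∃ t, chk3 f_pp_022_a t 4 3 1 = true := ex3_b k1_pp_022_a k2_pp_022_a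

theorem s6_pp_022_a : ∃ t, chk3 f_pp_022_a t 2 3 1 = true := ex3_a s5_pp_022_a k3_pp_022_a

theorem s7_pp_022_a : ∃ t, chk3 f_pp_022_a t 2 1 1 = true := ex3_b k0_pp_022_a s6_pp_022_a

theorem s8_pp_022_a : ∃ t, chk3 f_pp_022_a t 1 1 1 = true := ex3_a s7_pp_022_a k4_pp_022_a

theorem c_pp_022_a : CertB 0 536870912 0 536870912 587336777 62277027 3 eng mog cd1q0 cd1q2a pd2 true true true .pp 0 2 2
    ndB1q0 ndB1q2a pcB2 cut_pp_022_a Ext.none :=
  certB0 (fam := true) (s1 := true) (s2 := true) (a := 0) (b := 2) (c := 2) (cn := .pp) (n1 := ndB1q0) (n2 := ndB1q2a) (pc := pcB2) (cut := cut_pp_022_a) (xt := Ext.none) (P1 := 0) (W1 := 536870912) (P2 := 0) (W2 := 536870912) (P3 := 587336777) (W3 := 62277027) (N0 := 3) (En := eng) (mo := mog) (C1 := cd1q0) (C2 := cd1q2a) (C3 := pd2)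
    rfl s8_pp_022_a

noncomputable def cut_pp_022_b : Cut := Cut.of [[⟨0, 0, 0, 67108864⟩, ⟨1, 1, 0, 67108864⟩, ⟨2, 1, 0, 67108864⟩]]

noncomputable def f_pp_022_b : ℕ → ℕ → ℕ → ℕ → Bool := onCell 1073741824 536870912 1239849684 370763052 587336777 62277027
    (rowB 3 eng mog cd1q0 cd1q2b pd2 2 true true true .pp 0 2 2 (qsf 0 536870912 1239849684 370763052 2) ndB1q0 ndB1q2b pcB2 cut_pp_022_b Ext.none)

def k0_pp_022_b : ∃ t, chk3 f_pp_022_b t 1 1 1 = true :=
  ⟨(a (b (a (l 1) (b (b (a (a (l 16436888) (a (l 16466768) (l 16451288))) (a (b (l 16443992) (l 16393608)) (l 16433152))) (a (l 1) (a (l 16342600) (b (l 16358864) (l 16308216))))) (a (l 1) (a (l 1) (b (l 16231008) (l 1)))))) (l 1)) (b (a (b (a (b (a (l 16448792) (l 16486344)) (a (l 16352264) (l 16371496))) (a (b (l 16575536) (l 16414856)) (b (l 16516304) (l 16432552)))) (a (a (b (l 16252520) (l 1)) (b (l 16274760) (l 16175160))) (a (b (a (l 16291376) (l 16306968)) (l 16202360)) (b (l 16341432) (l 16248000)))))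 (a (b (b (a (l 16551664) (l 16584832)) (a (l 16473728) (l 16512992))) (a (b (l 16388216) (l 16298656)) (l 16392536))) (b (b (a (l 16615256) (l 16642680)) (a (l 16549800) (l 16583576))) (a (l 16438336) (l 16481000))))) (a (b (a (l 1) (a (b (l 16103184) (l 1)) (b (l 16152456) (l 16055440)))) (l 1)) (a (b (a (l 16162912) (l 16220488)) (a (l 1) (l 16045504))) (b (a (l 16276096) (l 16328664)) (a (l 16111312) (l 16172952))))))), by decide +kernel⟩

theorem c_pp_022_b : CertB 0 536870912 1239849684 370763052 587336777 62277027 3 eng mog cd1q0 cd1q2b pd2 true true true .pp 0 2 2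
    ndB1q0 ndB1q2b pcB2 cut_pp_022_b Ext.none :=
  certB2 (fam := true) (s1 := true) (s2 := true) (a := 0) (b := 2) (c := 2) (cn := .pp) (n1 := ndB1q0) (n2 := ndB1q2b) (pc := pcB2) (cut := cut_pp_022_b) (xt := Ext.none) (P1 := 0) (W1 := 536870912) (P2 := 1239849684) (W2 := 370763052) (P3 := 587336777) (W3 := 62277027) (N0 := 3) (En := eng) (mo := mog) (C1 := cd1q0) (C2 := cd1q2b) (C3 := pd2)
    rfl (fun _ => rfl) k0_pp_022_b

noncomputable def f_pp_023_a : ℕ → ℕ → ℕ → ℕ → Bool := onCell 1610612736 536870912 0 536870912 587336777 62277027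
    (rowB 3 eng mog cd1q0 cd1q2a pd3 2 true true true .up 0 2 3 (qsf 0 536870912 0 536870912 3) ndB1q0 ndB1q2a pcB3 Cut.none Ext.none)

def k0_pp_023_a : ∃ t, chk3 f_pp_023_a t 1 1 1 = true :=
  ⟨(b (a (a (a (b (a (b (l 16697608) (l 16761904)) (b (l 16703872) (a (l 16739552) (l 16754584)))) (b (a (b (l 16814184) (l 4)) (l 4)) (l 4))) (b (a (b (l 16739616) (l 45869040583)) (b (a (l 16761552) (l 16771832)) (l 4))) (l 4))) (a (b (b (a (b (l 16777608) (l 4)) (l 2)) (l 4)) (l 4)) (l 2))) (l 2)) (l 4)), by decide +kernel⟩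

theorem c_pp_023_a : CertB 0 536870912 0 536870912 587336777 62277027 3 eng mog cd1q0 cd1q2a pd3 true true true .up 0 2 3
    ndB1q0 ndB1q2a pcB3 Cut.none Ext.none :=
  certB2 (fam := true) (s1 := true) (s2 := true) (a := 0) (b := 2) (c := 3) (cn := .up) (n1 := ndB1q0) (n2 := ndB1q2a) (pc := pcB3) (cut := Cut.none) (xt := Ext.none) (P1 := 0) (W1 := 536870912) (P2 := 0) (W2 := 536870912) (P3 := 587336777) (W3 := 62277027) (N0 := 3) (En := eng) (mo := mog) (C1 := cd1q0) (C2 := cd1q2a) (C3 := pd3)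
    rfl (fun _ => rfl) k0_pp_023_a

noncomputable def f_pp_023_b : ℕ → ℕ → ℕ → ℕ → Bool := onCell 1610612736 536870912 1239849684 370763052 587336777 62277027
    (rowB 3 eng mog cd1q0 cd1q2b pd3 2 true true true .up 0 2 3 (qsf 0 536870912 1239849684 370763052 3) ndB1q0 ndB1q2b pcB3 Cut.none Ext.none)

def k0_pp_023_b : ∃ t, chk3 f_pp_023_b t 1 1 1 = true :=
  ⟨(a (a (b (a (b (b (a (l 16664416) (l 16675912)) (l 16746528)) (a (l 16517392) (l 16545304))) (b (a (l 16775560) (b (l 16711920) (l 16670232))) (a (l 16573992) (l 16604288)))) (a (b (l 16559552) (l 16243480)) (a (l 16633896) (a (l 16416200) (l 4))))) (b (a (b (a (b (l 16739408) (l 16696728)) (l 4)) (l 4)) (l 4)) (l 4))) (l 4)), by decide +kernel⟩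

theorem c_pp_023_b : CertB 0 536870912 1239849684 370763052 587336777 62277027 3 eng mog cd1q0 cd1q2b pd3 true true true .up 0 2 3
    ndB1q0 ndB1q2b pcB3 Cut.none Ext.none :=
  certB2 (fam := true) (s1 := true) (s2 := true) (a := 0) (b := 2) (c := 3) (cn := .up) (n1 := ndB1q0) (n2 := ndB1q2b) (pc := pcB3) (cut := Cut.none) (xt := Ext.none) (P1 := 0) (W1 := 536870912) (P2 := 1239849684) (W2 := 370763052) (P3 := 587336777) (W3 := 62277027) (N0 := 3) (En := eng) (mo := mog) (C1 := cd1q0) (C2 := cd1q2b) (C3 := pd3)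
    rfl (fun _ => rfl) k0_pp_023_b

noncomputable def f_pp_033 : ℕ → ℕ → ℕ → ℕ → Bool := onCell 0 536870912 1610612736 536870912 587336777 62277027
    (rowB 3 eng mog cd1q0 cd1q3 pd3 1 true true true .pnn 0 3 3 (qsf 0 536870912 1610612736 536870912 3) ndB1q0 ndB1q3 pcB3 Cut.none Ext.none)

def k0_pp_033 : ∃ t, chk3 f_pp_033 t 1 1 1 = true :=
  ⟨(b (b (a (b (a (l 244846045527) (l 1)) (a (b (l 16230632) (l 16274184)) (l 342556590823))) (l 1)) (a (l 4) (b (l 1) (l 4)))) (l 4)), by decide +kernel⟩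

theorem c_pp_033 : CertB 0 536870912 1610612736 536870912 587336777 62277027 3 eng mog cd1q0 cd1q3 pd3 true true true .pnn 0 3 3
    ndB1q0 ndB1q3 pcB3 Cut.none Ext.none :=
  certB1 (fam := true) (s1 := true) (s2 := true) (a := 0) (b := 3) (c := 3) (cn := .pnn) (n1 := ndB1q0) (n2 := ndB1q3) (pc := pcB3) (cut := Cut.none) (xt := Ext.none) (P1 := 0) (W1 := 536870912) (P2 := 1610612736) (W2 := 536870912) (P3 := 587336777) (W3 := 62277027) (N0 := 3) (En := eng) (mo := mog) (C1 := cd1q0) (C2 := cd1q3) (C3 := pd3)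
    rfl (fun _ => rfl) k0_pp_033

noncomputable def f_pp_101 : ℕ → ℕ → ℕ → ℕ → Bool := onCell 536870912 536870912 0 536870912 587336777 62277027
    (rowB 3 eng mog cd1q1 cd1q0 pd1 0 true true true .npn 1 0 1 (qsf 536870912 536870912 0 536870912 1) ndB1q1 ndB1q0 pcB1 Cut.none Ext.none)

def k0_pp_101 : ∃ t, chk3 f_pp_101 t 1 1 1 = true :=
  ⟨(l 4), by decide +kernel⟩

theorem c_pp_101 : CertB 536870912 536870912 0 536870912 587336777 62277027 3 eng mog cd1q1 cd1q0 pd1 true true true .npn 1 0 1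
    ndB1q1 ndB1q0 pcB1 Cut.none Ext.none :=
  certB0 (fam := true) (s1 := true) (s2 := true) (a := 1) (b := 0) (c := 1) (cn := .npn) (n1 := ndB1q1) (n2 := ndB1q0) (pc := pcB1) (cut := Cut.none) (xt := Ext.none) (P1 := 536870912) (W1 := 536870912) (P2 := 0) (W2 := 536870912) (P3 := 587336777) (W3 := 62277027) (N0 := 3) (En := eng) (mo := mog) (C1 := cd1q1) (C2 := cd1q0) (C3 := pd1)
    rfl k0_pp_101

noncomputable def f_pp_102 : ℕ → ℕ → ℕ → ℕ → Bool := onCell 536870912 536870912 0 536870912 587336777 62277027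
    (rowB 3 eng mog cd1q1 cd1q0 pd2 0 true true true .npp 1 0 2 (qsf 536870912 536870912 0 536870912 2) ndB1q1 ndB1q0 pcB2 Cut.none Ext.none)

def k0_pp_102 : ∃ t, chk3 f_pp_102 t 1 1 1 = true :=
  ⟨(l 4), by decide +kernel⟩

theorem c_pp_102 : CertB 536870912 536870912 0 536870912 587336777 62277027 3 eng mog cd1q1 cd1q0 pd2 true true true .npp 1 0 2
    ndB1q1 ndB1q0 pcB2 Cut.none Ext.none :=
  certB0 (fam := true) (s1 := true) (s2 := true) (a := 1) (b := 0) (c := 2) (cn := .npp) (n1 := ndB1q1) (n2 := ndB1q0) (pc := pcB2) (cut := Cut.none) (xt := Ext.none) (P1 := 536870912) (W1 := 536870912) (P2 := 0) (W2 := 536870912) (P3 := 587336777) (W3 := 62277027) (N0 := 3) (En := eng) (mo := mog) (C1 := cd1q1) (C2 := cd1q0) (C3 := pd2)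
    rfl k0_pp_102

noncomputable def f_pp_112 : ℕ → ℕ → ℕ → ℕ → Bool := onCell 536870912 536870912 536870912 536870912 587336777 62277027
    (rowB 3 eng mog cd1q1 cd1q1 pd2 0 true true true .dn 1 1 2 (qsf 536870912 536870912 536870912 536870912 2) ndB1q1 ndB1q1 pcB2 Cut.none Ext.none)

def k0_pp_112 : ∃ t, chk3 f_pp_112 t 1 1 1 = true :=
  ⟨(l 4), by decide +kernel⟩

theorem c_pp_112 : CertB 536870912 536870912 536870912 536870912 587336777 62277027 3 eng mog cd1q1 cd1q1 pd2 true true true .dn 1 1 2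
    ndB1q1 ndB1q1 pcB2 Cut.none Ext.none :=
  certB0 (fam := true) (s1 := true) (s2 := true) (a := 1) (b := 1) (c := 2) (cn := .dn) (n1 := ndB1q1) (n2 := ndB1q1) (pc := pcB2) (cut := Cut.none) (xt := Ext.none) (P1 := 536870912) (W1 := 536870912) (P2 := 536870912) (W2 := 536870912) (P3 := 587336777) (W3 := 62277027) (N0 := 3) (En := eng) (mo := mog) (C1 := cd1q1) (C2 := cd1q1) (C3 := pd2)
    rfl k0_pp_112

noncomputable def f_pp_113 : ℕ → ℕ → ℕ → ℕ → Bool := onCell 536870912 536870912 536870912 536870912 587336777 62277027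
    (rowB 3 eng mog cd1q1 cd1q1 pd3 0 true true true .nn 1 1 3 (qsf 536870912 536870912 536870912 536870912 3) ndB1q1 ndB1q1 pcB3 Cut.none Ext.none)

def k0_pp_113 : ∃ t, chk3 f_pp_113 t 1 1 1 = true :=
  ⟨(l 4), by decide +kernel⟩

theorem c_pp_113 : CertB 536870912 536870912 536870912 536870912 587336777 62277027 3 eng mog cd1q1 cd1q1 pd3 true true true .nn 1 1 3
    ndB1q1 ndB1q1 pcB3 Cut.none Ext.none :=
  certB0 (fam := true) (s1 := true) (s2 := true) (a := 1) (b := 1) (c := 3) (cn := .nn) (n1 := ndB1q1) (n2 := ndB1q1) (pc := pcB3) (cut := Cut.none) (xt := Ext.none) (P1 := 536870912) (W1 := 536870912) (P2 := 536870912) (W2 := 536870912) (P3 := 587336777) (W3 := 62277027) (N0 := 3) (En := eng) (mo := mog) (C1 := cd1q1) (C2 := cd1q1) (C3 := pd3)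
    rfl k0_pp_113

noncomputable def f_pp_123_a : ℕ → ℕ → ℕ → ℕ → Bool := onCell 536870912 536870912 0 536870912 587336777 62277027
    (rowB 3 eng mog cd1q1 cd1q2a pd3 0 true true true .npn 1 2 3 (qsf 536870912 536870912 0 536870912 3) ndB1q1 ndB1q2a pcB3 Cut.none Ext.none)

def k0_pp_123_a : ∃ t, chk3 f_pp_123_a t 1 1 1 = true :=
  ⟨(a (a (b (b (l 4) (l 4)) (l 4)) (l 4)) (l 4)), by decide +kernel⟩

theorem c_pp_123_a : CertB 536870912 536870912 0 536870912 587336777 62277027 3 eng mog cd1q1 cd1q2a pd3 true true true .npn 1 2 3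
    ndB1q1 ndB1q2a pcB3 Cut.none Ext.none :=
  certB0 (fam := true) (s1 := true) (s2 := true) (a := 1) (b := 2) (c := 3) (cn := .npn) (n1 := ndB1q1) (n2 := ndB1q2a) (pc := pcB3) (cut := Cut.none) (xt := Ext.none) (P1 := 536870912) (W1 := 536870912) (P2 := 0) (W2 := 536870912) (P3 := 587336777) (W3 := 62277027) (N0 := 3) (En := eng) (mo := mog) (C1 := cd1q1) (C2 := cd1q2a) (C3 := pd3)
    rfl k0_pp_123_a

noncomputable def f_pp_123_b : ℕ → ℕ → ℕ → ℕ → Bool := onCell 536870912 536870912 1239849684 370763052 587336777 62277027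
    (rowB 3 eng mog cd1q1 cd1q2b pd3 0 true true true .npn 1 2 3 (qsf 536870912 536870912 1239849684 370763052 3) ndB1q1 ndB1q2b pcB3 Cut.none Ext.none)

def k0_pp_123_b : ∃ t, chk3 f_pp_123_b t 1 1 1 = true :=
  ⟨(a (b (a (b (l 4) (l 4)) (l 4)) (l 4)) (l 4)), by decide +kernel⟩

theorem c_pp_123_b : CertB 536870912 536870912 1239849684 370763052 587336777 62277027 3 eng mog cd1q1 cd1q2b pd3 true true true .npn 1 2 3
    ndB1q1 ndB1q2b pcB3 Cut.none Ext.none :=
  certB0 (fam := true) (s1 := true) (s2 := true) (a := 1) (b := 2) (c := 3) (cn := .npn) (n1 := ndB1q1) (n2 := ndB1q2b) (pc := pcB3) (cut := Cut.none) (xt := Ext.none) (P1 := 536870912) (W1 := 536870912) (P2 := 1239849684) (W2 := 370763052) (P3 := 587336777) (W3 := 62277027) (N0 := 3) (En := eng) (mo := mog) (C1 := cd1q1) (C2 := cd1q2b) (C3 := pd3)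
    rfl k0_pp_123_b

noncomputable def f_pp_133 : ℕ → ℕ → ℕ → ℕ → Bool := onCell 536870912 536870912 1610612736 536870912 587336777 62277027
    (rowB 3 eng mog cd1q1 cd1q3 pd3 0 true true true .dn 1 3 3 (qsf 536870912 536870912 1610612736 536870912 3) ndB1q1 ndB1q3 pcB3 Cut.none Ext.none)

def k0_pp_133 : ∃ t, chk3 f_pp_133 t 1 1 1 = true :=
  ⟨(l 4), by decide +kernel⟩

theorem c_pp_133 : CertB 536870912 536870912 1610612736 536870912 587336777 62277027 3 eng mog cd1q1 cd1q3 pd3 true true true .dn 1 3 3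
    ndB1q1 ndB1q3 pcB3 Cut.none Ext.none :=
  certB0 (fam := true) (s1 := true) (s2 := true) (a := 1) (b := 3) (c := 3) (cn := .dn) (n1 := ndB1q1) (n2 := ndB1q3) (pc := pcB3) (cut := Cut.none) (xt := Ext.none) (P1 := 536870912) (W1 := 536870912) (P2 := 1610612736) (W2 := 536870912) (P3 := 587336777) (W3 := 62277027) (N0 := 3) (En := eng) (mo := mog) (C1 := cd1q1) (C2 := cd1q3) (C3 := pd3)
    rfl k0_pp_133

noncomputable def f_pp_202_a : ℕ → ℕ → ℕ → ℕ → Bool := onCell 0 536870912 0 536870912 587336777 62277027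
    (rowB 3 eng mog cd1q2a cd1q0 pd2 0 true true true .pp 2 0 2 (qsf 0 536870912 0 536870912 2) ndB1q2a ndB1q0 pcB2 Cut.none Ext.none)

def k0_pp_202_a : ∃ t, chk3 f_pp_202_a t 1 1 1 = true :=
  ⟨(l 5), by decide +kernel⟩

theorem c_pp_202_a : CertB 0 536870912 0 536870912 587336777 62277027 3 eng mog cd1q2a cd1q0 pd2 true true true .pp 2 0 2
    ndB1q2a ndB1q0 pcB2 Cut.none Ext.none :=
  certB0 (fam := true) (s1 := true) (s2 := true) (a := 2) (b := 0) (c := 2) (cn := .pp) (n1 := ndB1q2a) (n2 := ndB1q0) (pc := pcB2) (cut := Cut.none) (xt := Ext.none) (P1 := 0) (W1 := 536870912) (P2 := 0) (W2 := 536870912) (P3 := 587336777) (W3 := 62277027) (N0 := 3) (En := eng) (mo := mog) (C1 := cd1q2a) (C2 := cd1q0) (C3 := pd2)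
    rfl k0_pp_202_a

noncomputable def f_pp_202_b : ℕ → ℕ → ℕ → ℕ → Bool := onCell 1239849684 370763052 0 536870912 587336777 62277027
    (rowB 3 eng mog cd1q2b cd1q0 pd2 0 true true true .pp 2 0 2 (qsf 1239849684 370763052 0 536870912 2) ndB1q2b ndB1q0 pcB2 Cut.none Ext.none)

def k0_pp_202_b : ∃ t, chk3 f_pp_202_b t 1 1 1 = true :=
  ⟨(l 5), by decide +kernel⟩

theorem c_pp_202_b : CertB 1239849684 370763052 0 536870912 587336777 62277027 3 eng mog cd1q2b cd1q0 pd2 true true true .pp 2 0 2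
    ndB1q2b ndB1q0 pcB2 Cut.none Ext.none :=
  certB0 (fam := true) (s1 := true) (s2 := true) (a := 2) (b := 0) (c := 2) (cn := .pp) (n1 := ndB1q2b) (n2 := ndB1q0) (pc := pcB2) (cut := Cut.none) (xt := Ext.none) (P1 := 1239849684) (W1 := 370763052) (P2 := 0) (W2 := 536870912) (P3 := 587336777) (W3 := 62277027) (N0 := 3) (En := eng) (mo := mog) (C1 := cd1q2b) (C2 := cd1q0) (C3 := pd2)
    rfl k0_pp_202_b

noncomputable def f_pp_203_a : ℕ → ℕ → ℕ → ℕ → Bool := onCell 0 536870912 0 536870912 587336777 62277027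
    (rowB 3 eng mog cd1q2a cd1q0 pd3 0 true true true .up 2 0 3 (qsf 0 536870912 0 536870912 3) ndB1q2a ndB1q0 pcB3 Cut.none Ext.none)

def k0_pp_203_a : ∃ t, chk3 f_pp_203_a t 1 1 1 = true :=
  ⟨(l 5), by decide +kernel⟩

theorem c_pp_203_a : CertB 0 536870912 0 536870912 587336777 62277027 3 eng mog cd1q2a cd1q0 pd3 true true true .up 2 0 3
    ndB1q2a ndB1q0 pcB3 Cut.none Ext.none :=
  certB0 (fam := true) (s1 := true) (s2 := true) (a := 2) (b := 0) (c := 3) (cn := .up) (n1 := ndB1q2a) (n2 := ndB1q0) (pc := pcB3) (cut := Cut.none) (xt := Ext.none) (P1 := 0) (W1 := 536870912) (P2 := 0) (W2 := 536870912) (P3 := 587336777) (W3 := 62277027) (N0 := 3) (En := eng) (mo := mog) (C1 := cd1q2a) (C2 := cd1q0) (C3 := pd3)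
    rfl k0_pp_203_a

noncomputable def f_pp_203_b : ℕ → ℕ → ℕ → ℕ → Bool := onCell 1239849684 370763052 0 536870912 587336777 62277027
    (rowB 3 eng mog cd1q2b cd1q0 pd3 0 true true true .up 2 0 3 (qsf 1239849684 370763052 0 536870912 3) ndB1q2b ndB1q0 pcB3 Cut.none Ext.none)

def k0_pp_203_b : ∃ t, chk3 f_pp_203_b t 1 1 1 = true :=
  ⟨(l 5), by decide +kernel⟩

theorem c_pp_203_b : CertB 1239849684 370763052 0 536870912 587336777 62277027 3 eng mog cd1q2b cd1q0 pd3 true true true .up 2 0 3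
    ndB1q2b ndB1q0 pcB3 Cut.none Ext.none :=
  certB0 (fam := true) (s1 := true) (s2 := true) (a := 2) (b := 0) (c := 3) (cn := .up) (n1 := ndB1q2b) (n2 := ndB1q0) (pc := pcB3) (cut := Cut.none) (xt := Ext.none) (P1 := 1239849684) (W1 := 370763052) (P2 := 0) (W2 := 536870912) (P3 := 587336777) (W3 := 62277027) (N0 := 3) (En := eng) (mo := mog) (C1 := cd1q2b) (C2 := cd1q0) (C3 := pd3)
    rfl k0_pp_203_b

noncomputable def f_pp_213_a : ℕ → ℕ → ℕ → ℕ → Bool := onCell 0 536870912 536870912 536870912 587336777 62277027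
    (rowB 3 eng mog cd1q2a cd1q1 pd3 0 true true true .pnn 2 1 3 (qsf 0 536870912 536870912 536870912 3) ndB1q2a ndB1q1 pcB3 Cut.none Ext.none)

def k0_pp_213_a : ∃ t, chk3 f_pp_213_a t 1 1 1 = true :=
  ⟨(l 5), by decide +kernel⟩

theorem c_pp_213_a : CertB 0 536870912 536870912 536870912 587336777 62277027 3 eng mog cd1q2a cd1q1 pd3 true true true .pnn 2 1 3
    ndB1q2a ndB1q1 pcB3 Cut.none Ext.none :=
  certB0 (fam := true) (s1 := true) (s2 := true) (a := 2) (b := 1) (c := 3) (cn := .pnn) (n1 := ndB1q2a) (n2 := ndB1q1) (pc := pcB3) (cut := Cut.none) (xt := Ext.none) (P1 := 0) (W1 := 536870912) (P2 := 536870912) (W2 := 536870912) (P3 := 587336777) (W3 := 62277027) (N0 := 3) (En := eng) (mo := mog) (C1 := cd1q2a) (C2 := cd1q1) (C3 := pd3)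
    rfl k0_pp_213_a

noncomputable def f_pp_213_b : ℕ → ℕ → ℕ → ℕ → Bool := onCell 1239849684 370763052 536870912 536870912 587336777 62277027
    (rowB 3 eng mog cd1q2b cd1q1 pd3 0 true true true .pnn 2 1 3 (qsf 1239849684 370763052 536870912 536870912 3) ndB1q2b ndB1q1 pcB3 Cut.none Ext.none)

def k0_pp_213_b : ∃ t, chk3 f_pp_213_b t 1 1 1 = true :=
  ⟨(l 5), by decide +kernel⟩

theorem c_pp_213_b : CertB 1239849684 370763052 536870912 536870912 587336777 62277027 3 eng mog cd1q2b cd1q1 pd3 true true true .pnn 2 1 3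
    ndB1q2b ndB1q1 pcB3 Cut.none Ext.none :=
  certB0 (fam := true) (s1 := true) (s2 := true) (a := 2) (b := 1) (c := 3) (cn := .pnn) (n1 := ndB1q2b) (n2 := ndB1q1) (pc := pcB3) (cut := Cut.none) (xt := Ext.none) (P1 := 1239849684) (W1 := 370763052) (P2 := 536870912) (W2 := 536870912) (P3 := 587336777) (W3 := 62277027) (N0 := 3) (En := eng) (mo := mog) (C1 := cd1q2b) (C2 := cd1q1) (C3 := pd3)
    rfl k0_pp_213_b

noncomputable def f_pp_303 : ℕ → ℕ → ℕ → ℕ → Bool := onCell 1610612736 536870912 0 536870912 587336777 62277027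
    (rowB 3 eng mog cd1q3 cd1q0 pd3 0 true true true .npn 3 0 3 (qsf 1610612736 536870912 0 536870912 3) ndB1q3 ndB1q0 pcB3 Cut.none Ext.none)

def k0_pp_303 : ∃ t, chk3 f_pp_303 t 1 1 1 = true :=
  ⟨(l 5), by decide +kernel⟩

theorem c_pp_303 : CertB 1610612736 536870912 0 536870912 587336777 62277027 3 eng mog cd1q3 cd1q0 pd3 true true true .npn 3 0 3
    ndB1q3 ndB1q0 pcB3 Cut.none Ext.none :=
  certB0 (fam := true) (s1 := true) (s2 := true) (a := 3) (b := 0) (c := 3) (cn := .npn) (n1 := ndB1q3) (n2 := ndB1q0) (pc := pcB3) (cut := Cut.none) (xt := Ext.none) (P1 := 1610612736) (W1 := 536870912) (P2 := 0) (W2 := 536870912) (P3 := 587336777) (W3 := 62277027) (N0 := 3) (En := eng) (mo := mog) (C1 := cd1q3) (C2 := cd1q0) (C3 := pd3)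
    rfl k0_pp_303

noncomputable def f_pp_313 : ℕ → ℕ → ℕ → ℕ → Bool := onCell 1610612736 536870912 536870912 536870912 587336777 62277027
    (rowB 3 eng mog cd1q3 cd1q1 pd3 0 true true true .dn 3 1 3 (qsf 1610612736 536870912 536870912 536870912 3) ndB1q3 ndB1q1 pcB3 Cut.none Ext.none)

def k0_pp_313 : ∃ t, chk3 f_pp_313 t 1 1 1 = true :=
  ⟨(l 4), by decide +kernel⟩

theorem c_pp_313 : CertB 1610612736 536870912 536870912 536870912 587336777 62277027 3 eng mog cd1q3 cd1q1 pd3 true true true .dn 3 1 3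
    ndB1q3 ndB1q1 pcB3 Cut.none Ext.none :=
  certB0 (fam := true) (s1 := true) (s2 := true) (a := 3) (b := 1) (c := 3) (cn := .dn) (n1 := ndB1q3) (n2 := ndB1q1) (pc := pcB3) (cut := Cut.none) (xt := Ext.none) (P1 := 1610612736) (W1 := 536870912) (P2 := 536870912) (W2 := 536870912) (P3 := 587336777) (W3 := 62277027) (N0 := 3) (En := eng) (mo := mog) (C1 := cd1q3) (C2 := cd1q1) (C3 := pd3)
    rfl k0_pp_313

noncomputable def f_pm_001 : ℕ → ℕ → ℕ → ℕ → Bool := onCell 0 536870912 0 536870912 587336777 62277027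
    (rowB 3 eng mog cd1q0 cd1q0 pd1 0 true true false .up 0 0 1 (qsf 0 536870912 0 536870912 1) ndB1q0 ndB1q0 pcB1 Cut.none Ext.none)

def k0_pm_001 : ∃ t, chk3 f_pm_001 t 1 1 1 = true :=
  ⟨(l 3), by decide +kernel⟩

theorem c_pm_001 : CertB 0 536870912 0 536870912 587336777 62277027 3 eng mog cd1q0 cd1q0 pd1 true true false .up 0 0 1
    ndB1q0 ndB1q0 pcB1 Cut.none Ext.none :=
  certB0 (fam := true) (s1 := true) (s2 := false) (a := 0) (b := 0) (c := 1) (cn := .up) (n1 := ndB1q0) (n2 := ndB1q0) (pc := pcB1) (cut := Cut.none) (xt := Ext.none) (P1 := 0) (W1 := 536870912) (P2 := 0) (W2 := 536870912) (P3 := 587336777) (W3 := 62277027) (N0 := 3) (En := eng) (mo := mog) (C1 := cd1q0) (C2 := cd1q0) (C3 := pd1)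
    rfl k0_pm_001

noncomputable def f_pm_011 : ℕ → ℕ → ℕ → ℕ → Bool := onCell 0 536870912 536870912 536870912 587336777 62277027
    (rowB 3 eng mog cd1q0 cd1q1 pd1 1 true true false .pnn 0 1 1 (qsf 0 536870912 536870912 536870912 1) ndB1q0 ndB1q1 pcB1 Cut.none Ext.none)

def k0_pm_011 : ∃ t, chk3 f_pm_011 t 1 1 1 = true :=
  ⟨(a (a (l 3) (l 3)) (l 3)), by decide +kernel⟩

theorem c_pm_011 : CertB 0 536870912 536870912 536870912 587336777 62277027 3 eng mog cd1q0 cd1q1 pd1 true true false .pnn 0 1 1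
    ndB1q0 ndB1q1 pcB1 Cut.none Ext.none :=
  certB1 (fam := true) (s1 := true) (s2 := false) (a := 0) (b := 1) (c := 1) (cn := .pnn) (n1 := ndB1q0) (n2 := ndB1q1) (pc := pcB1) (cut := Cut.none) (xt := Ext.none) (P1 := 0) (W1 := 536870912) (P2 := 536870912) (W2 := 536870912) (P3 := 587336777) (W3 := 62277027) (N0 := 3) (En := eng) (mo := mog) (C1 := cd1q0) (C2 := cd1q1) (C3 := pd1)
    rfl (fun _ => rfl) k0_pm_011

end Pool.Agent.Strip051.G.I5470_6050.Tab.C.BA11

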