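import Pool.Agent.Strip051.G.I5470_6050.Tab

/-! # Certificates B10 (generated) -/

set_option linter.all false
set_option maxRecDepth 100000

namespace Pool.Agent.Strip051.G.I5470_6050.Tab.C.BA11

open Pool.Agent.Strip051.PB Pool.Agent.Strip051.PB.T
open Pool.Agent.Strip051.G.I5470_6050.Tab

noncomputable def f_pm_012 : ℕ → ℕ → ℕ → ℕ → Bool := onCell 1073741824 536870912 536870912 536870912 587336777 62277027
    (rowB 3 eng mog cd1q0 cd1q1 pd2 2 true true false .pnp 0 1 2 (qsf 0 536870912 536870912 536870912 2) ndB1q0 ndB1q1 pcB2 Cut.none Ext.none)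

def k0_pm_012 : ∃ t, chk3 f_pm_012 t 4 2 1 = true :=
  ⟨(l 3), by decide +kernel⟩

def k1_pm_012 : ∃ t, chk3 f_pm_012 t 8 3 1 = true :=
  ⟨(b (l 3) (b (l 3) (a (l 3) (b (l 3) (a (b (l 3) (a (l 3) (a (l 3) (b (l 3) (l 16736880))))) (b (a (l 3) (a (l 81772088103) (b (l 16729928) (a (l 16724208) (l 16721904))))) (a (b (a (l 3) (a (l 16726568) (l 16724208))) (a (b (l 16724608) (l 16720936)) (b (l 16719856) (a (l 16738312) (l 16715312))))) (b (a (a (l 16721784) (l 16719400)) (b (l 16717832) (l 16714568))) (a (b (l 16715432) (l 16712096)) (l 16709520)))))))))), by decide +kernel⟩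

def k2_pm_012 : ∃ t, chk3 f_pm_012 t 9 6 1 = true :=
  ⟨(b (l 3) (a (l 3) (b (a (l 3) (a (l 3) (a (b (l 3) (l 16743304)) (b (l 16746088) (l 16759408))))) (a (a (l 3) (a (l 3) (l 116131900359))) (a (a (b (l 3) (l 16736576)) (b (l 16740152) (b (l 16733952) (l 16750320)))) (b (a (a (l 16736664) (l 16734008)) (a (l 16752792) (l 16729800))) (a (a (l 16743840) (l 16726072)) (l 16723008)))))))), by decide +kernel⟩

def k3_pm_012 : ∃ t, chk3 f_pm_012 t 9 7 1 = true :=
  ⟨(a (b (a (l 3) (b (l 3) (a (b (l 3) (a (l 150491571303) (l 16764016))) (b (l 169818922055) (a (l 16759016) (l 16722696)))))) (b (a (a (b (l 3) (a (l 183240686519) (b (l 16732600) (l 16747632)))) (b (l 145122876967) (b (a (l 16727688) (l 16722784)) (a (l 16721880) (l 16716992))))) (a (a (b (b (l 16729296) (l 16723648)) (b (l 16717904) (l 16712128))) (b (b (l 16724384) (l 16718760)) (b (l 16712968) (l 16707264)))) (b (a (l 16716664) (l 16711640)) (b (l 16705688) (l 16700032))))) (a (b (b (a (a (l 16725272)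 (l 16720608)) (a (l 16715784) (l 16710976))) (a (a (l 16718528) (l 16714232)) (a (l 16709640) (l 16704952)))) (a (a (b (l 16712048) (l 16705168)) (b (l 16707640) (l 16700736))) (b (a (l 16703128) (l 16698536)) (l 16693840)))) (b (a (b (l 16703944) (l 16698008)) (l 16701808)) (a (b (l 16691584) (l 16684664)) (l 16678904)))))) (b (a (b (a (b (l 3) (a (l 16769120) (l 16732952))) (b (a (l 16737384) (l 16753224)) (a (l 16727856) (b (l 16725320) (l 16720304))))) (a (b (a (l 16748984) (b (l 16694200) (l 16720744))) (a (a (l 16687576) (l 16716400)) (l 16712760))) (b (a (b (l 16720720) (l 16715576)) (l 16713232)) (a (l 16708000) (l 16703376))))) (b (a (b (a (b (l 16729664) (l 16725200)) (l 16743944)) (a (l 16718088) (l 16713832))) (b (l 16716936) (l 16728680))) (a (b (l 16748456) (l 16696536)) (b (l 16697680) (l 16687472))))) (a (b (b (a (a (l 16706832) (l 16702120)) (b (l 16697840) (l 16692448))) (a (b (l 16696208) (l 16690544)) (l 16684104))) (b (a (b (l 16684728) (l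 16678760)) (l 16672424)) (l 16685752))) (b (a (b (l 16686032) (l 16674944)) (b (l 16676944) (l 16665944))) (b (l 16679704) (l 16667424)))))), by decide +kernel⟩

def k4_pm_012 : ∃ t, chk3 f_pm_012 t 40 1 1 = true :=
  ⟨(b (b (l 3) (b (l 3) (a (l 3) (a (l 3) (b (l 3) (l 16757184)))))) (b (b (a (b (l 3) (a (l 16751328) (b (l 16750008) (l 16744368)))) (b (a (l 16753192) (a (l 16750936) (l 16749416))) (a (b (l 16746416) (a (l 16741368) (l 16739832))) (b (l 16743392) (l 16738368))))) (a (b (a (b (l 16741728) (a (l 16735184) (l 16733200))) (b (a (l 16738208) (l 16736200)) (a (l 16731248) (l 16729936)))) (a (l 16723424) (l 16741288))) (b (a (b (l 16734704) (l 16728240)) (l 16729224)) (a (l 16737888) (l 16712984))))) (b (b (a (b (l 16743160) (l 16699272)) (b (l 16700480) (l 16690144))) (a (b (l 16688808) (l 16678360)) (b (l 16679824) (l 16669480)))) (b (a (l 16683600) (l 16685048)) (b (l 16703808) (a (l 16633192) (l 16624512))))))), by decide +kernel⟩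

def k5_pm_012 : ∃ t, chk3 f_pm_012 t 41 2 1 = true :=
  ⟨(b (l 2) (b (a (l 3) (a (a (b (l 3) (l 16761992)) (b (l 16764600) (l 16761464))) (a (a (l 16783672) (b (l 16763928) (l 16781536))) (b (l 16763320) (l 16759344))))) (a (a (b (l 3) (a (l 16755472) (l 16754552))) (b (a (l 16759272) (l 16758552)) (a (l 16753632) (l 16752912)))) (a (a (b (l 16757824) (l 16752216)) (b (c (l 16760320) (l 16754152)) (l 16751248))) (a (a (b (l 16756592) (l 16750216)) (b (l 16755768) (l 16749000))) (a (a (a (b (l 16755048) (l 16747976)) (a (b (l 16754672) (l 16747304)) (b (l 16754248) (l 16746496)))) (b (l 16754048) (l 16745952))) (b (l 16753704) (l 16745552)))))))), by decide +kernel⟩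

def k6_pm_012 : ∃ t, chk3 f_pm_012 t 41 3 1 = true :=
  ⟨(a (b (b (a (b (a (b (l 16750256) (l 16745920)) (l 16747424)) (l 16739136)) (b (a (l 16746744) (l 16745888)) (l 16736976))) (b (a (l 16747120) (l 16722016)) (a (l 16708400) (l 16703096)))) (b (b (a (l 16688360) (l 16683536)) (b (l 16670832) (l 16660336))) (b (b (l 16649560) (l 16638696)) (b (l 16627440) (l 16636816))))) (b (a (b (b (a (l 16744840) (l 16743264)) (a (l 16734312) (l 16731576))) (b (a (l 16717800) (l 16714176)) (a (l 16698680) (l 16695608)))) (b (a (a (b (l 16741576) (l 16728608)) (b (l 16739576) (l 16725696))) (a (a (a (b (l 16737472) (l 16723096)) (a (b (l 16736288) (l 16721608)) (b (l 16735000) (b (l 16724120) (l 16715752))))) (b (l 16734408) (l 16719352))) (b (l 16733944) (l 16718840)))) (a (a (b (l 16710896) (l 16693184)) (b (l 16708280) (l 16691296))) (a (a (b (a (l 16706152) (a (l 16705272) (l 16704256))) (a (l 16689784) (l 16730072))) (l 16717216)) (l 16716576))))) (b (a (b (l 16678472)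 (l 16658216)) (a (b (l 16673736) (b (l 16658576) (l 16648040))) (a (b (a (a (l 16671288) (l 16732584)) (l 16669120)) (a (a (l 16650984) (a (l 16650208) (l 16649352))) (l 16648920))) (b (l 16668376) (l 16648128))))) (a (b (b (l 16641960) (l 16631192)) (b (l 16620296) (l 16609248))) (a (b (l 16613728) (b (l 16616280) (l 16605840))) (a (a (a (b (l 16629872) (l 16609704)) (b (c (l 16628824) (l 16628176)) (b (l 16634736) (l 16604120)))) (b (l 16628128) (l 16608712))) (b (l 16627280) (l 16607872)))))))), by decide +kernel⟩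

def k7_pm_012 : ∃ t, chk3 f_pm_012 t 21 1 1 = true :=
  ⟨(b (b (l 2) (b (b (l 16758288) (l 16753104)) (b (l 16746488) (l 16758136)))) (b (b (b (l 16724192) (b (l 16712504) (l 16703440))) (b (l 16690560) (l 16672608))) (b (b (l 16715480) (b (l 16636472) (l 16625496))) (b (b (l 16614472) (l 16603680)) (b (a (l 16602712) (l 16584848)) (l 16619000)))))), by decide +kernel⟩

def k8_pm_012 : ∃ t, chk3 f_pm_012 t 11 1 1 = true :=
  ⟨(b (b (l 2) (b (a (l 16748184) (l 2)) (a (b (l 16735280) (l 16723544)) (l 16721024)))) (a (b (b (b (l 16708200) (l 16689776)) (b (l 16668912) (l 16647720))) (b (b (l 16624680) (l 16621432)) (b (b (l 16582112) (l 16570232)) (b (l 16559616) (l 16551384))))) (b (b (l 16685912) (b (l 16651032) (l 16626856))) (b (b (l 16600592) (l 16573320)) (b (l 16546328) (b (l 16528520) (l 16520976))))))), by decide +kernel⟩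

def k9_pm_012 : ∃ t, chk3 f_pm_012 t 3 1 1 = true :=
  ⟨(b (a (b (l 2) (b (l 2) (a (a (l 16716544) (l 2)) (l 2)))) (l 2)) (b (a (b (a (b (l 16685440) (l 16660512)) (l 16672080)) (a (b (l 16673352) (a (l 16609552) (l 16595328))) (b (l 16620888) (l 16582168)))) (b (l 2) (a (b (l 2) (l 16584056)) (l 2)))) (a (b (a (b (a (l 16580368) (l 16562544)) (a (l 16549672) (l 16528240))) (b (l 16541744) (l 16553104))) (a (a (b (l 16519488) (l 16580808)) (b (l 16494008) (l 16491144))) (a (b (l 16471000) (l 16466320)) (b (l 16450288) (l 16422496))))) (b (a (b (l 16536232) (l 16487320)) (b (l 2) (l 16507016))) (b (a (l 16439048) (l 16456560)) (a (a (l 16407400) (l 16406952)) (a (l 16411888) (l 16422264)))))))), by decide +kernel⟩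

theorem s10_pm_012 : ∃ t, chk3 f_pm_012 t 41 1 1 = true := ex3_b k5_pm_012 k6_pm_012

theorem s11_pm_012 : ∃ t, chk3 f_pm_012 t 20 1 1 = true := ex3_a k4_pm_012 s10_pm_012

theorem s12_pm_012 : ∃ t, chk3 f_pm_012 t 10 1 1 = true := ex3_a s11_pm_012 k7_pm_012

theorem s13_pm_012 : ∃ t, chk3 f_pm_012 t 5 1 1 = true := ex3_a s12_pm_012 k8_pm_012

theorem s14_pm_012 : ∃ t, chk3 f_pm_012 t 9 3 1 = true := ex3_b k2_pm_012 k3_pm_012

theorem s15_pm_012 : ∃ t, chk3 f_pm_012 t 4 3 1 = true := ex3_a k1_pm_012 s14_pm_012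

theorem s16_pm_012 : ∃ t, chk3 f_pm_012 t 4 1 1 = true := ex3_b k0_pm_012 s15_pm_012

theorem s17_pm_012 : ∃ t, chk3 f_pm_012 t 2 1 1 = true := ex3_a s16_pm_012 s13_pm_012

theorem s18_pm_012 : ∃ t, chk3 f_pm_012 t 1 1 1 = true := ex3_a s17_pm_012 k9_pm_012

theorem c_pm_012 : CertB 0 536870912 536870912 536870912 587336777 62277027 3 eng mog cd1q0 cd1q1 pd2 true true false .pnp 0 1 2
    ndB1q0 ndB1q1 pcB2 Cut.none Ext.none :=
  certB2 (fam := true) (s1 := true) (s2 := false) (a := 0) (b := 1) (c := 2) (cn := .pnp) (n1 := ndB1q0) (n2 := ndB1q1) (pc := pcB2) (cut := Cut.none) (xt := Ext.none) (P1 := 0) (W1 := 536870912) (P2 := 536870912) (W2 := 536870912) (P3 := 587336777) (W3 := 62277027) (N0 := 3) (En := eng) (mo := mog) (C1 := cd1q0) (C2 := cd1q1) (C3 := pd2)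
    rfl (fun _ => rfl) s18_pm_012

noncomputable def cut_pm_022_a : Cut := Cut.of [[⟨0, 0, 0, 67108864⟩, ⟨1, 1, 0, 67108864⟩, ⟨2, 1, 0, 67108864⟩]]

noncomputable def f_pm_022_a : ℕ → ℕ → ℕ → ℕ → Bool := onCell 1073741824 536870912 0 536870912 587336777 62277027
    (rowB 3 eng mog cd1q0 cd1q2a pd2 2 true true false .pp 0 2 2 (qsf 0 536870912 0 536870912 2) ndB1q0 ndB1q2a pcB2 cut_pm_022_a Ext.none)

def k0_pm_022_a : ∃ t, chk3 f_pm_022_a t 2 2 1 = true :=
  ⟨(a (a (l 1) (b (l 1) (a (l 1) (b (l 1) (b (l 1) (a (l 1) (a (l 1) (c (l 16520408) (b (l 16504504) (l 16513336)))))))))) (a (b (a (a (l 1) (b (l 16442944) (b (l 16459728) (l 16467072)))) (b (a (l 16488192) (l 16459808)) (a (c (l 16467080) (b (l 16460048) (l 16466552))) (c (l 16468688) (l 16466096))))) (a (b (a (b (l 16473920) (c (l 16490760) (l 16480192))) (b (c (l 16479600) (l 16472120)) (c (l 16490816) (l 16483480)))) (a (b (b (a (l 16495944) (l 16496680)) (a (l 16503464) (l 16503896))) (a (c (l 16519800)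 (l 16509872)) (l 16515296))) (a (b (b (l 16497128) (l 16504032)) (l 16514896)) (a (b (l 16500672) (l 16514408)) (a (b (l 16500616) (l 16514096)) (b (c (l 16502488) (l 16497240)) (l 16503384))))))) (b (a (c (b (l 16479352) (l 16489656)) (b (l 16475160) (l 16485648))) (c (l 16485000) (l 16481920))) (a (b (c (l 16501008) (a (l 16497544) (l 16497744))) (c (l 16513296) (l 16510560))) (b (l 16499184) (l 16510248)))))) (b (b (a (b (l 16465176) (l 16466304)) (b (l 16475216) (l 16475504))) (a (b (a (l 16467928) (l 16471672)) (a (l 16473704) (l 16476936))) (b (l 16478072) (a (l 16480600) (l 16484672))))) (b (a (b (a (l 16481248) (l 16483864)) (a (l 16489888) (l 16491624))) (b (a (l 16486920) (l 16490552)) (a (l 16493816) (l 16496920)))) (a (b (c (l 16500304) (l 16497200)) (b (l 16505824) (l 16510328))) (b (a (l 16501000) (l 16503312)) (b (l 16506560) (l 16509472)))))))), by decide +kernel⟩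

def k1_pm_022_a : ∃ t, chk3 f_pm_022_a t 8 3 1 = true :=
  ⟨(b (l 1) (b (a (l 1) (b (a (l 1) (a (l 1) (b (l 1) (b (l 16642032) (l 16648576))))) (a (l 6) (a (l 6) (a (l 6) (b (l 16656776) (l 16668928))))))) (a (l 6) (a (l 6) (a (l 6) (a (l 6) (b (b (l 16680872) (l 16692136)) (b (l 16699168) (l 16705472))))))))), by decide +kernel⟩

def k2_pm_022_a : ∃ t, chk3 f_pm_022_a t 9 3 1 = true :=
  ⟨(b (a (b (l 1) (b (a (l 1) (a (b (l 1) (l 16586096)) (b (l 16572608) (l 100428023431)))) (a (a (l 1) (b (l 16600592) (l 16612856))) (b (a (l 71973901511) (l 16595392)) (a (l 16609768) (l 16606480)))))) (b (a (b (b (l 1) (c (l 16544424) (l 16542280))) (a (b (l 1) (l 36540355383)) (c (l 99354240647) (b (l 16542704) (l 16553592))))) (b (a (c (l 16538392) (b (l 16522088) (l 16532048))) (c (l 16537240) (b (l 16522504) (l 16531944)))) (b (a (l 16547536) (l 16546288)) (a (l 16557240) (l 16555448))))) (b (a (b (a (l 120292220823) (l 16569032)) (a (l 16581752) (l 16579264))) (b (l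 16565768) (l 16575136))) (a (b (l 16590984) (a (l 16603016) (l 16599344))) (b (a (l 16586112) (l 16582608)) (l 16593448)))))) (b (a (b (a (b (a (l 58015316311) (l 16625056)) (a (l 16641296) (l 16637104))) (b (a (l 16621352) (l 16617448)) (a (l 16632752) (l 16628208)))) (a (b (a (l 16653296) (l 16648536)) (a (l 16644040) (l 16659672))) (b (l 16641064) (l 16651344)))) (b (a (b (l 16611256) (l 16621048)) (l 16606696)) (b (l 16676976) (l 16678912)))) (b (a (a (b (l 16694496) (l 16703152)) (b (l 16659736) (l 16666704))) (a (b (l 16645272) (l 16651864)) (b (l 16631496) (l 16658640)))) (a (b (a (b (l 16687368) (l 16690616)) (c (l 16674464) (l 16672288))) (a (b (l 16693680) (l 16717512)) (a (l 16682976) (l 16675064)))) (a (b (l 16658008) (a (l 16667256) (l 16659480))) (b (l 16679976) (a (l 16651720) (l 16644128)))))))), by decide +kernel⟩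

def k3_pm_022_a : ∃ t, chk3 f_pm_022_a t 5 3 1 = true :=
  ⟨(b (a (a (a (b (b (a (c (l 16535832) (l 16527240)) (l 16531072)) (b (l 16543968) (a (l 16553424) (l 16551168)))) (b (c (l 16566560) (b (l 16557888) (l 16566680))) (l 16581056))) (b (a (b (l 16529840) (c (l 16546664) (l 16542384))) (a (b (c (l 16530576) (l 16525784)) (l 16543192)) (a (b (l 16528136) (l 16542224)) (b (l 16527712) (l 16541576))))) (a (b (l 16560088) (l 16574552)) (a (l 16606784) (a (l 16563312) (l 16634376)))))) (b (a (b (l 16551824) (l 16538456)) (l 16580288)) (b (l 16610296) (l 16622104)))) (b (a (a (l 16565904) (l 16552384)) (b (l 16514184) (l 16519104))) (b (l 16604888) (l 16590224)))) (a (a (a (b (b (l 16595984) (l 16609264)) (b (b (l 16681280) (l 16645040)) (b (l 16629144) (a (l 16636808) (l 16629736))))) (b (a (b (l 16587800) (l 16600376)) (b (a (l 16583832) (l 16623168)) (a (l 16596152) (a (l 16594128) (l 16592800))))) (a (b (l 16611928) (b (l 16619136) (l 16649096))) (a (b (l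 16607432) (b (l 16614328) (l 16617864))) (a (b (l 16605224) (b (l 16611952) (l 16615376))) (b (c (l 16606744) (l 16622000)) (a (a (a (l 16612920) (b (l 16610872) (c (l 16618776) (l 16609704)))) (l 16612408)) (l 16611800)))))))) (b (b (a (l 16575248) (l 16566544)) (a (l 16629000) (l 16577304))) (b (a (l 16618248) (l 16586176)) (b (a (l 16603352) (l 16591248)) (a (a (l 16609576) (l 16603144)) (l 16593560)))))) (b (b (a (l 16554232) (l 16538696)) (a (l 16562968) (l 16544864))) (b (a (l 16590784) (l 16570680)) (a (b (l 16573408) (a (l 16580904) (l 16568856))) (b (l 16552000) (l 16552592))))))), by decide +kernel⟩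

def k4_pm_022_a : ∃ t, chk3 f_pm_022_a t 3 2 1 = true :=
  ⟨(a (a (b (b (a (b (l 16487344) (l 16486944)) (b (l 16500152) (l 16499096))) (a (b (l 16488832) (l 16492624)) (b (l 16500200) (l 16502976)))) (b (a (b (l 16497736) (l 16502816)) (b (l 16506752) (l 16509896))) (b (a (l 16507288) (l 16532744)) (a (l 16509880) (l 16510776))))) (b (a (b (a (l 16507816) (b (l 16516416) (l 16514584))) (a (b (l 16507600) (l 16509704)) (b (l 16525192) (l 16516224)))) (b (a (b (l 16529568) (l 16526936)) (l 16541152)) (a (b (l 16526200) (l 16526800)) (l 16537696)))) (b (a (a (b (l 16512568) (l 16514328)) (b (l 16518352) (l 16519088))) (b (a (l 16527896) (l 16537464)) (l 16531512))) (a (b (a (l 16514304) (l 16517672)) (a (l 16510664) (l 16512016))) (b (l 16527744) (l 16519144)))))) (b (a (b (a (l 16602160) (l 16585096)) (a (b (l 16554968) (l 16553232)) (l 16575608))) (a (b (l 16608456) (l 16596040)) (b (b (l 16635720) (l 16626624)) (l 16615200)))) (a (b (a (b (l 16551688) (l 16547960))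 (l 16588224)) (b (a (l 16541120) (l 16554040)) (l 16575296))) (b (a (l 16583536) (l 16619664)) (b (l 16592848) (l 16571056)))))), by decide +kernel⟩

def k5_pm_022_a : ∃ t, chk3 f_pm_022_a t 3 3 1 = true :=
  ⟨(b (a (a (b (a (l 16574888) (b (l 16507496) (l 16502848))) (b (l 16532024) (l 16558440))) (b (a (b (l 16576712) (l 16504448)) (l 16583216)) (a (l 16520312) (l 16503640)))) (a (b (b (l 16513016) (l 16492592)) (l 16528296)) (b (a (l 16502816) (l 16502224)) (b (l 16482408) (l 16481912))))) (a (a (a (b (b (l 16525408) (l 16530208)) (b (l 16533448) (b (l 16534128) (l 16533416)))) (b (l 16644608) (b (l 16519768) (l 16538416)))) (b (a (b (l 16511088) (l 16510632)) (l 16500936)) (b (a (l 16508120) (l 16494248)) (a (a (l 16506648) (l 16499336)) (l 16486856))))) (a (b (b (l 16490456) (l 16486616)) (b (l 16501584) (a (l 16474728) (l 16469928)))) (b (b (l 16480328) (l 16477312)) (b (l 16472488) (l 16507736)))))), by decide +kernel⟩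

theorem s6_pm_022_a : ∃ t, chk3 f_pm_022_a t 3 1 1 = true := ex3_b k4_pm_022_a k5_pm_022_a

theorem s7_pm_022_a : ∃ t, chk3 f_pm_022_a t 4 3 1 = true := ex3_a k1_pm_022_a k2_pm_022_a

theorem s8_pm_022_a : ∃ t, chk3 f_pm_022_a t 2 3 1 = true := ex3_a s7_pm_022_a k3_pm_022_a

theorem s9_pm_022_a : ∃ t, chk3 f_pm_022_a t 2 1 1 = true := ex3_b k0_pm_022_a s8_pm_022_a

theorem s10_pm_022_a : ∃ t, chk3 f_pm_022_a t 1 1 1 = true := ex3_a s9_pm_022_a s6_pm_022_a

theorem c_pm_022_a : CertB 0 536870912 0 536870912 587336777 62277027 3 eng mog cd1q0 cd1q2a pd2 true true false .pp 0 2 2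
    ndB1q0 ndB1q2a pcB2 cut_pm_022_a Ext.none :=
  certB2 (fam := true) (s1 := true) (s2 := false) (a := 0) (b := 2) (c := 2) (cn := .pp) (n1 := ndB1q0) (n2 := ndB1q2a) (pc := pcB2) (cut := cut_pm_022_a) (xt := Ext.none) (P1 := 0) (W1 := 536870912) (P2 := 0) (W2 := 536870912) (P3 := 587336777) (W3 := 62277027) (N0 := 3) (En := eng) (mo := mog) (C1 := cd1q0) (C2 := cd1q2a) (C3 := pd2)
    rfl (fun _ => rfl) s10_pm_022_a

noncomputable def cut_pm_022_b : Cut := Cut.of [[⟨0, 0, 0, 67108864⟩, ⟨1, 1, 0, 67108864⟩, ⟨2, 1, 0, 67108864⟩]]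

noncomputable def f_pm_022_b : ℕ → ℕ → ℕ → ℕ → Bool := onCell 1073741824 536870912 1239849684 370763052 587336777 62277027
    (rowB 3 eng mog cd1q0 cd1q2b pd2 2 true true false .pp 0 2 2 (qsf 0 536870912 1239849684 370763052 2) ndB1q0 ndB1q2b pcB2 cut_pm_022_b Ext.none)

def k0_pm_022_b : ∃ t, chk3 f_pm_022_b t 1 1 1 = true :=
  ⟨(a (b (a (l 1) (a (b (b (a (l 16447904) (a (b (l 16430584) (l 1)) (l 16476040))) (l 1)) (l 1)) (b (a (b (b (l 16442456) (l 16395376)) (b (l 16346792) (l 1))) (b (l 16449216) (b (l 16363520) (l 16315968)))) (a (l 1) (b (l 16242536) (l 1)))))) (l 1)) (b (a (a (b (b (a (b (l 16467664) (l 16425064)) (b (l 16482400) (l 16442184))) (a (l 16359120) (l 16379000))) (b (a (l 16266288) (l 16290752)) (a (l 1) (l 16197872)))) (b (a (b (a (l 16474480) (l 16484760)) (a (l 16394440) (l 16408024))) (b (b (l 16523376) (l 16490696)) (l 16436048))) (a (b (l 16316720) (l 16228480)) (b (l 16355992) (l 16272728))))) (a (b (b (a (b (l 16552320) (l 16523008))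 (l 16568320)) (a (l 16473496) (l 16510392))) (a (l 16403864) (l 16408568))) (b (b (a (l 16638872) (l 16623768)) (a (l 16546368) (l 16579768))) (a (l 16454880) (l 16497944))))) (a (b (a (l 1) (a (b (l 16136248) (l 1)) (l 16142544))) (l 1)) (a (b (a (l 16200480) (l 16258632)) (a (l 1) (l 16102632))) (b (a (l 16317168) (l 16372304)) (a (l 16174072) (l 16241160))))))), by decide +kernel⟩

theorem c_pm_022_b : CertB 0 536870912 1239849684 370763052 587336777 62277027 3 eng mog cd1q0 cd1q2b pd2 true true false .pp 0 2 2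
    ndB1q0 ndB1q2b pcB2 cut_pm_022_b Ext.none :=
  certB2 (fam := true) (s1 := true) (s2 := false) (a := 0) (b := 2) (c := 2) (cn := .pp) (n1 := ndB1q0) (n2 := ndB1q2b) (pc := pcB2) (cut := cut_pm_022_b) (xt := Ext.none) (P1 := 0) (W1 := 536870912) (P2 := 1239849684) (W2 := 370763052) (P3 := 587336777) (W3 := 62277027) (N0 := 3) (En := eng) (mo := mog) (C1 := cd1q0) (C2 := cd1q2b) (C3 := pd2)
    rfl (fun _ => rfl) k0_pm_022_b

noncomputable def f_pm_023_a : ℕ → ℕ → ℕ → ℕ → Bool := onCell 1610612736 536870912 0 536870912 587336777 62277027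
    (rowB 3 eng mog cd1q0 cd1q2a pd3 2 true true false .up 0 2 3 (qsf 0 536870912 0 536870912 3) ndB1q0 ndB1q2a pcB3 Cut.none Ext.none)

def k0_pm_023_a : ∃ t, chk3 f_pm_023_a t 1 1 1 = true :=
  ⟨(a (b (a (a (b (a (b (a (b (l 16652496) (l 16642544)) (l 16645160)) (a (a (l 16633968) (l 16628824)) (l 16617880))) (b (l 16639528) (l 16604264))) (a (b (a (a (l 16640768) (l 16609360)) (l 16583840)) (a (b (l 16698856) (l 16560496)) (l 16593184))) (b (l 16588888) (l 16590192)))) (b (a (b (l 16657208) (l 16635976)) (b (l 16697288) (l 16675368))) (a (b (l 16623952) (l 16617144)) (b (l 16659752) (l 16645512))))) (a (b (a (l 16743016) (l 16764600)) (a (b (l 16701408) (l 16686000)) (l 2))) (l 2))) (b (a (a (a (b (a (b (l 16540504) (l 16501080)) (l 16552648)) (a (c (l 16463976) (l 16454824)) (a (l 16527424) (l 16573008)))) (b (l 16589376) (l 16585992))) (a (b (l 16609232) (l 16600160)) (b (l 16631744) (l 16619352)))) (l 2)) (a (a (a (b (a (b (l 16462048) (l 16535152)) (a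 (l 16530640) (l 16569712))) (a (b (l 16502744) (b (l 16489008) (l 16493880))) (a (l 16536448) (l 166530311047)))) (b (l 16583480) (l 162235302663))) (a (b (l 16599840) (l 2)) (l 2))) (l 2)))) (l 2)), by decide +kernel⟩

theorem c_pm_023_a : CertB 0 536870912 0 536870912 587336777 62277027 3 eng mog cd1q0 cd1q2a pd3 true true false .up 0 2 3
    ndB1q0 ndB1q2a pcB3 Cut.none Ext.none :=
  certB2 (fam := true) (s1 := true) (s2 := false) (a := 0) (b := 2) (c := 3) (cn := .up) (n1 := ndB1q0) (n2 := ndB1q2a) (pc := pcB3) (cut := Cut.none) (xt := Ext.none) (P1 := 0) (W1 := 536870912) (P2 := 0) (W2 := 536870912) (P3 := 587336777) (W3 := 62277027) (N0 := 3) (En := eng) (mo := mog) (C1 := cd1q0) (C2 := cd1q2a) (C3 := pd3)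
    rfl (fun _ => rfl) k0_pm_023_a

noncomputable def f_pm_023_b : ℕ → ℕ → ℕ → ℕ → Bool := onCell 1610612736 536870912 1239849684 370763052 587336777 62277027
    (rowB 3 eng mog cd1q0 cd1q2b pd3 2 true true false .up 0 2 3 (qsf 0 536870912 1239849684 370763052 3) ndB1q0 ndB1q2b pcB3 Cut.none Ext.none)

def k0_pm_023_b : ∃ t, chk3 f_pm_023_b t 1 1 1 = true :=
  ⟨(a (a (b (a (b (a (b (l 16643656) (l 16606384)) (l 16700048)) (l 16713264)) (b (a (l 16709800) (b (l 16676632) (l 16651280))) (l 16595752))) (a (b (l 16433480) (l 16311240)) (b (l 16502600) (l 16392616)))) (b (a (b (b (a (l 16712072) (l 16733776)) (a (l 16667984) (l 16697480))) (l 16693608)) (b (a (l 16773984) (l 296990320055)) (a (l 16702344) (l 4)))) (a (b (l 16583568) (l 16506904)) (l 4)))) (a (a (l 4) (l 4)) (l 4))), by decide +kernel⟩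

theorem c_pm_023_b : CertB 0 536870912 1239849684 370763052 587336777 62277027 3 eng mog cd1q0 cd1q2b pd3 true true false .up 0 2 3
    ndB1q0 ndB1q2b pcB3 Cut.none Ext.none :=
  certB2 (fam := true) (s1 := true) (s2 := false) (a := 0) (b := 2) (c := 3) (cn := .up) (n1 := ndB1q0) (n2 := ndB1q2b) (pc := pcB3) (cut := Cut.none) (xt := Ext.none) (P1 := 0) (W1 := 536870912) (P2 := 1239849684) (W2 := 370763052) (P3 := 587336777) (W3 := 62277027) (N0 := 3) (En := eng) (mo := mog) (C1 := cd1q0) (C2 := cd1q2b) (C3 := pd3)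
    rfl (fun _ => rfl) k0_pm_023_b

noncomputable def f_pm_033 : ℕ → ℕ → ℕ → ℕ → Bool := onCell 0 536870912 1610612736 536870912 587336777 62277027
    (rowB 3 eng mog cd1q0 cd1q3 pd3 1 true true false .pnn 0 3 3 (qsf 0 536870912 1610612736 536870912 3) ndB1q0 ndB1q3 pcB3 Cut.none Ext.none)

def k0_pm_033 : ∃ t, chk3 f_pm_033 t 1 1 1 = true :=
  ⟨(b (b (a (b (a (l 16281368) (l 1)) (a (l 16273520) (l 16451048))) (l 1)) (a (b (a (l 16388856) (l 16486672)) (l 4)) (b (l 1) (a (l 4) (l 1))))) (l 4)), by decide +kernel⟩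

theorem c_pm_033 : CertB 0 536870912 1610612736 536870912 587336777 62277027 3 eng mog cd1q0 cd1q3 pd3 true true false .pnn 0 3 3
    ndB1q0 ndB1q3 pcB3 Cut.none Ext.none :=
  certB1 (fam := true) (s1 := true) (s2 := false) (a := 0) (b := 3) (c := 3) (cn := .pnn) (n1 := ndB1q0) (n2 := ndB1q3) (pc := pcB3) (cut := Cut.none) (xt := Ext.none) (P1 := 0) (W1 := 536870912) (P2 := 1610612736) (W2 := 536870912) (P3 := 587336777) (W3 := 62277027) (N0 := 3) (En := eng) (mo := mog) (C1 := cd1q0) (C2 := cd1q3) (C3 := pd3)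
    rfl (fun _ => rfl) k0_pm_033

noncomputable def f_pm_101 : ℕ → ℕ → ℕ → ℕ → Bool := onCell 536870912 536870912 0 536870912 587336777 62277027
    (rowB 3 eng mog cd1q1 cd1q0 pd1 2 true true false .npn 1 0 1 (qsf 536870912 536870912 0 536870912 1) ndB1q1 ndB1q0 pcB1 Cut.none Ext.none)

def k0_pm_101 : ∃ t, chk3 f_pm_101 t 1 1 1 = true :=
  ⟨(a (l 3) (b (l 3) (l 3))), by decide +kernel⟩

theorem c_pm_101 : CertB 536870912 536870912 0 536870912 587336777 62277027 3 eng mog cd1q1 cd1q0 pd1 true true false .npn 1 0 1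
    ndB1q1 ndB1q0 pcB1 Cut.none Ext.none :=
  certB2 (fam := true) (s1 := true) (s2 := false) (a := 1) (b := 0) (c := 1) (cn := .npn) (n1 := ndB1q1) (n2 := ndB1q0) (pc := pcB1) (cut := Cut.none) (xt := Ext.none) (P1 := 536870912) (W1 := 536870912) (P2 := 0) (W2 := 536870912) (P3 := 587336777) (W3 := 62277027) (N0 := 3) (En := eng) (mo := mog) (C1 := cd1q1) (C2 := cd1q0) (C3 := pd1)
    rfl (fun _ => rfl) k0_pm_101

noncomputable def f_pm_102 : ℕ → ℕ → ℕ → ℕ → Bool := onCell 536870912 536870912 1073741824 536870912 587336777 62277027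
    (rowB 3 eng mog cd1q1 cd1q0 pd2 1 true true false .npp 1 0 2 (qsf 536870912 536870912 0 536870912 2) ndB1q1 ndB1q0 pcB2 Cut.none Ext.none)

def k0_pm_102 : ∃ t, chk3 f_pm_102 t 2 4 1 = true :=
  ⟨(l 3), by decide +kernel⟩

def k1_pm_102 : ∃ t, chk3 f_pm_102 t 3 8 1 = true :=
  ⟨(a (l 3) (a (l 3) (b (l 3) (a (l 3) (b (a (l 3) (a (l 3) (a (l 3) (b (l 3) (b (l 3) (l 16725744)))))) (a (b (l 3) (b (b (l 68887183751) (l 59223507687)) (a (l 16729928) (a (l 16724816) (l 16721304))))) (b (b (a (l 3) (a (l 16724608) (c (a (l 16743256) (l 16741400)) (l 16720520)))) (a (a (l 16727192) (l 16723560)) (a (l 16740824) (b (l 16738312) (l 16715312))))) (a (b (b (l 16721784) (l 16719400)) (a (l 16717832) (l 16714568))) (b (a (l 16715432) (l 16712096)) (l 16709520)))))))))), by decide +kernel⟩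

def k2_pm_102 : ∃ t, chk3 f_pm_102 t 6 9 1 = true :=
  ⟨(a (l 3) (b (l 3) (b (b (l 3) (a (l 3) (b (l 3) (l 116131900359)))) (b (a (l 3) (b (a (l 3) (l 16736576)) (a (l 16740152) (a (l 16733952) (l 16750320))))) (a (b (a (l 3) (l 16743304)) (a (l 16746088) (l 16759408))) (a (b (b (l 16736664) (l 16734008)) (b (l 16752792) (l 16729800))) (b (b (l 16743840) (l 16726072)) (l 16723008)))))))), by decide +kernel⟩

def k3_pm_102 : ∃ t, chk3 f_pm_102 t 7 9 1 = true :=
  ⟨(b (a (b (l 3) (a (l 3) (b (a (l 3) (b (l 150491571303) (l 16764016))) (a (l 169818922055) (b (l 16759016) (l 16722696)))))) (b (a (b (a (l 3) (b (l 118279306167) (a (l 16732600) (l 16747632)))) (a (l 102710074919) (a (b (l 16727688) (l 16722784)) (a (l 16741856) (l 16717976))))) (a (b (a (b (l 16725272) (l 16720608)) (b (l 16739496) (l 16714232))) (a (b (l 16715784) (l 16710976)) (b (l 16709640) (l 16704952)))) (b (a (b (l 16712048) (l 16707640)) (b (l 16705168) (l 16700736))) (a (b (l 16703128) (l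 16698536)) (l 16693840))))) (a (b (a (b (a (l 16729296) (l 16723648)) (a (l 16724384) (l 16718760))) (a (b (l 16717904) (l 16712968)) (b (l 16712128) (l 16707264)))) (a (b (l 16716664) (l 16711640)) (a (l 16705688) (l 16700032)))) (a (b (a (l 16703944) (l 16698008)) (l 16701808)) (b (a (l 16691584) (l 16684664)) (l 16689392)))))) (a (b (a (b (a (l 3) (b (l 16769120) (l 16732952))) (a (b (l 16737384) (l 16753224)) (b (l 16727856) (a (l 16725320) (l 16720304))))) (b (a (b (l 16748984) (a (l 16694200) (l 16720744))) (b (b (l 16687576) (l 16716400)) (l 16712760))) (a (b (a (l 16720720) (l 16715576)) (l 16713232)) (b (l 16708000) (l 16703376))))) (a (b (a (b (a (l 16729664) (l 16725200)) (l 16743944)) (b (l 16718088) (l 16713832))) (a (l 16716936) (l 16728680))) (b (a (l 16748456) (l 16696536)) (a (l 16697680) (l 16687472))))) (b (a (a (b (b (l 16706832) (l 16702120)) (b (l 16697488) (l 16692880))) (b (a (l 16696208) (l 16690544)) (l 16684104))) (a (b (a (l 16684728)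 (l 16678760)) (l 16672424)) (l 16685752))) (a (b (a (l 16686032) (l 16674944)) (a (l 16676944) (l 16665944))) (a (b (l 16663264) (l 16654256)) (b (l 16650952) (l 16641984))))))), by decide +kernel⟩

def k4_pm_102 : ∃ t, chk3 f_pm_102 t 1 40 1 = true :=
  ⟨(a (a (l 3) (a (l 3) (b (l 3) (b (l 3) (a (l 3) (l 16757184)))))) (a (a (b (a (l 3) (b (l 16751328) (a (l 16750008) (l 16744368)))) (a (b (l 16753192) (b (l 16750936) (l 16749416))) (b (a (l 16746416) (b (l 16741368) (l 16739832))) (a (l 16743392) (l 16738368))))) (b (a (b (a (l 16741728) (b (l 16735184) (l 16733200))) (a (b (l 16738208) (l 16736200)) (b (l 16731248) (l 16729936)))) (b (l 16723424) (l 16741288))) (a (b (a (l 16734704) (l 16728240)) (l 16729224)) (b (l 16737888) (l 16712984))))) (a (a (b (a (l 16743160) (l 16699272)) (a (l 16700480) (l 16690144))) (b (a (l 16688808) (l 16678360)) (a (l 16679824) (l 16669480)))) (a (b (l 16683600) (l 16686360)) (a (b (l 16645352) (l 16636480)) (b (l 16633192)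 (l 16624512))))))), by decide +kernel⟩

def k5_pm_102 : ∃ t, chk3 f_pm_102 t 2 41 1 = true :=
  ⟨(a (l 2) (a (b (l 3) (b (b (a (l 3) (l 16761992)) (a (l 16764600) (l 16761464))) (b (b (l 16783672) (a (l 16763928) (l 16781536))) (a (l 16763320) (l 16759344))))) (b (b (a (l 3) (b (l 16755472) (l 16754552))) (a (b (l 16759272) (l 16758552)) (b (l 16753632) (l 16752912)))) (b (b (a (l 16757824) (l 16752216)) (a (c (l 16760320) (l 16754152)) (l 16751248))) (b (b (a (l 16756592) (l 16750216)) (a (l 16755768) (l 16749000))) (b (b (b (a (l 16755048) (l 16747976)) (b (a (l 16754672) (l 16747304)) (a (l 16754248) (l 16746496)))) (a (l 16754048) (l 16745952))) (a (l 16753704) (l 16745552)))))))), by decide +kernel⟩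

def k6_pm_102 : ∃ t, chk3 f_pm_102 t 3 41 1 = true :=
  ⟨(b (a (a (b (a (b (a (l 16750256) (l 16745920)) (l 16747424)) (l 16739136)) (a (b (l 16746744) (l 16745888)) (l 16736976))) (a (b (l 16747120) (l 16722016)) (b (l 16708400) (l 16703096)))) (a (a (b (l 16688360) (l 16683536)) (a (l 16670832) (l 16660336))) (a (a (l 16649560) (l 16638696)) (a (l 16627440) (l 16636816))))) (a (b (a (a (b (l 16744840) (l 16743264)) (b (l 16734312) (l 16731576))) (a (b (l 16717800) (l 16714176)) (b (l 16698680) (l 16695608)))) (a (b (a (b (l 16741576) (l 16739576)) (c (l 16729376) (l 16724416))) (b (b (b (a (l 16737472) (l 16723096)) (b (a (l 16736288) (l 16721608)) (a (l 16735000) (a (l 16724120) (l 16715752))))) (a (l 16734408) (l 16719352))) (a (l 16733944) (l 16718840)))) (b (b (a (l 16710896) (l 16693184)) (a (l 16708280) (l 16691296))) (b (b (a (b (l 16706152) (b (l 16705272) (l 16704256))) (b (l 16689784) (l 16730072))) (l 16717216)) (l 16716576))))) (b (a (a (l 16678472)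 (l 16658216)) (a (a (l 16641960) (l 16631192)) (a (l 16620296) (l 16609248)))) (b (a (a (l 16673736) (a (l 16658576) (l 16648040))) (a (l 16611104) (a (l 16616280) (l 16605840)))) (b (b (b (a (a (l 16671288) (l 16650984)) (a (l 16629872) (l 16609704))) (b (a (a (l 16670480) (l 16650208)) (a (l 16629232) (l 16609368))) (a (a (l 16669528) (l 16649352)) (a (l 16628560) (a (l 16613656) (l 16604056)))))) (a (a (l 16669120) (l 16648920)) (a (l 16628128) (l 16608712)))) (a (a (l 16668376) (l 16648128)) (a (l 16627280) (l 16607872)))))))), by decide +kernel⟩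

def k7_pm_102 : ∃ t, chk3 f_pm_102 t 1 21 1 = true :=
  ⟨(a (a (l 2) (a (a (l 16758288) (l 16753104)) (a (l 16746488) (l 16758136)))) (a (a (a (l 16724192) (a (l 16712504) (l 16703440))) (a (l 16690560) (l 16672608))) (a (a (a (l 16657712) (l 16647248)) (a (l 16636472) (l 16625496))) (a (a (l 16614472) (l 16603680)) (a (b (l 16602712) (l 16584848)) (b (l 16593608) (l 16576304))))))), by decide +kernel⟩

def k8_pm_102 : ∃ t, chk3 f_pm_102 t 1 11 1 = true :=
  ⟨(a (a (l 2) (a (b (l 16748184) (l 2)) (b (a (l 16735280) (l 16723544)) (l 16721024)))) (b (a (a (a (l 16708200) (l 16689776)) (a (l 16668912) (l 16647720))) (a (a (l 16624680) (l 16600456)) (a (a (l 16582112) (l 16570232)) (a (l 16559616) (l 16572352))))) (a (a (l 16685912) (a (l 16651032) (l 16626856))) (a (a (l 16600592) (l 16573320)) (a (l 16546328) (l 16608776)))))), by decide +kernel⟩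

def k9_pm_102 : ∃ t, chk3 f_pm_102 t 1 3 1 = true :=
  ⟨(a (b (a (l 2) (a (l 2) (b (b (l 16716544) (l 2)) (l 2)))) (l 2)) (a (b (a (b (a (l 16685440) (l 16660512)) (l 16672080)) (b (a (l 16673352) (b (l 16609552) (l 16595328))) (a (l 16620888) (l 16582168)))) (a (l 2) (b (a (l 2) (l 16584056)) (l 2)))) (b (a (b (a (b (l 16580368) (l 16562544)) (b (l 16549672) (l 16528240))) (a (l 16541744) (l 16553104))) (b (a (b (l 16519488) (l 16494008)) (a (l 16591032) (l 16522056))) (a (l 16585960) (b (l 16466320) (l 16422496))))) (a (b (a (l 16536232) (l 16487320)) (a (l 2) (l 16507016))) (a (b (l 16439048) (l 16456560)) (b (b (l 16407400) (l 16406952)) (l 16479368))))))), by decide +kernel⟩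

theorem s10_pm_102 : ∃ t, chk3 f_pm_102 t 1 41 1 = true := ex3_a k5_pm_102 k6_pm_102

theorem s11_pm_102 : ∃ t, chk3 f_pm_102 t 1 20 1 = true := ex3_b k4_pm_102 s10_pm_102

theorem s12_pm_102 : ∃ t, chk3 f_pm_102 t 1 10 1 = true := ex3_b s11_pm_102 k7_pm_102

theorem s13_pm_102 : ∃ t, chk3 f_pm_102 t 1 5 1 = true := ex3_b s12_pm_102 k8_pm_102

theorem s14_pm_102 : ∃ t, chk3 f_pm_102 t 3 9 1 = true := ex3_a k2_pm_102 k3_pm_102

theorem s15_pm_102 : ∃ t, chk3 f_pm_102 t 3 4 1 = true := ex3_b k1_pm_102 s14_pm_102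

theorem s16_pm_102 : ∃ t, chk3 f_pm_102 t 1 4 1 = true := ex3_a k0_pm_102 s15_pm_102

theorem s17_pm_102 : ∃ t, chk3 f_pm_102 t 1 2 1 = true := ex3_b s16_pm_102 s13_pm_102

theorem s18_pm_102 : ∃ t, chk3 f_pm_102 t 1 1 1 = true := ex3_b s17_pm_102 k9_pm_102

theorem c_pm_102 : CertB 536870912 536870912 0 536870912 587336777 62277027 3 eng mog cd1q1 cd1q0 pd2 true true false .npp 1 0 2
    ndB1q1 ndB1q0 pcB2 Cut.none Ext.none :=
  certB1 (fam := true) (s1 := true) (s2 := false) (a := 1) (b := 0) (c := 2) (cn := .npp) (n1 := ndB1q1) (n2 := ndB1q0) (pc := pcB2) (cut := Cut.none) (xt := Ext.none) (P1 := 536870912) (W1 := 536870912) (P2 := 0) (W2 := 536870912) (P3 := 587336777) (W3 := 62277027) (N0 := 3) (En := eng) (mo := mog) (C1 := cd1q1) (C2 := cd1q0) (C3 := pd2)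
    rfl (fun _ => rfl) s18_pm_102

noncomputable def f_pm_112 : ℕ → ℕ → ℕ → ℕ → Bool := onCell 1073741824 536870912 536870912 536870912 587336777 62277027
    (rowB 3 eng mog cd1q1 cd1q1 pd2 2 true true false .dn 1 1 2 (qsf 536870912 536870912 536870912 536870912 2) ndB1q1 ndB1q1 pcB2 Cut.none Ext.none)

def k0_pm_112 : ∃ t, chk3 f_pm_112 t 1 2 1 = true :=
  ⟨(a (a (l 3) (b (a (a (a (l 3) (a (l 3) (a (b (a (l 3) (b (l 16758536) (l 3))) (l 3)) (b (a (a (l 16759320) (b (l 16757800) (l 16759768))) (b (l 16757336) (l 16759336))) (a (a (l 3) (a (l 16760384) (l 16760264))) (b (l 16760064) (l 16759288))))))) (b (b (l 16751808) (l 16754824)) (b (l 16755896) (l 16755456)))) (b (b (a (l 16739800) (l 16725088)) (l 16740928)) (a (l 16749528) (l 16744176)))) (b (a (a (a (l 3) (a (l 3) (a (a (l 61773721911) (b (l 16758072) (l 1))) (a (a (l 61236849367) (a (l 60163097767) (l 58552490055))) (b (l 16757240) (l 140156865111)))))) (b (l 16753576) (l 16749440))) (a (l 16745744)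 (l 16742256))) (a (a (l 1) (b (l 153041737351) (l 1))) (b (l 16732792) (l 134251275431)))))) (a (b (a (b (a (l 16714968) (l 16696448)) (b (l 16731032) (l 16740640))) (b (a (l 16673144) (l 16707376)) (l 16721320))) (a (b (l 16743176) (a (l 16722808) (l 16726224))) (b (l 16753888) (l 16742528)))) (b (a (b (a (b (l 16586784) (l 16633824)) (b (l 16549680) (l 16599688))) (a (l 16701760) (b (l 16655520) (l 16708912)))) (b (a (b (l 16514424) (l 16567704)) (b (l 16488024) (l 16537728))) (b (a (l 16626568) (l 16601288)) (a (l 16691312) (l 16669256))))) (a (b (l 16768352) (l 16786288)) (b (b (a (l 16749552) (l 16739840)) (l 16802648)) (l 16850800)))))), by decide +kernel⟩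

def k1_pm_112 : ∃ t, chk3 f_pm_112 t 1 3 1 = true :=
  ⟨(a (a (l 1) (a (l 1) (b (b (a (l 1) (l 134788100839)) (l 1)) (l 1)))) (b (a (b (a (b (l 16696576) (l 94522719463)) (b (l 16707872) (l 16677136))) (a (b (l 132640568247) (l 1)) (b (l 16642456) (l 93985757095)))) (b (a (b (l 16753968) (l 16715952)) (b (l 16840720) (l 16803272))) (a (b (l 16668328) (l 16659272)) (b (l 16745664) (l 16679456))))) (a (b (a (l 1) (a (l 1) (l 99354325687))) (l 1)) (b (a (b (l 33319268247) (l 60699574599)) (b (l 16613320) (l 16552320))) (a (b (l 80026817543) (l 1)) (b (l 16498032) (a (l 16460504) (l 16466968)))))))), by decide +kernel⟩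

theorem s2_pm_112 : ∃ t, chk3 f_pm_112 t 1 1 1 = true := ex3_b k0_pm_112 k1_pm_112

theorem c_pm_112 : CertB 536870912 536870912 536870912 536870912 587336777 62277027 3 eng mog cd1q1 cd1q1 pd2 true true false .dn 1 1 2
    ndB1q1 ndB1q1 pcB2 Cut.none Ext.none :=
  certB2 (fam := true) (s1 := true) (s2 := false) (a := 1) (b := 1) (c := 2) (cn := .dn) (n1 := ndB1q1) (n2 := ndB1q1) (pc := pcB2) (cut := Cut.none) (xt := Ext.none) (P1 := 536870912) (W1 := 536870912) (P2 := 536870912) (W2 := 536870912) (P3 := 587336777) (W3 := 62277027) (N0 := 3) (En := eng) (mo := mog) (C1 := cd1q1) (C2 := cd1q1) (C3 := pd2)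
    rfl (fun _ => rfl) s2_pm_112

noncomputable def f_pm_113 : ℕ → ℕ → ℕ → ℕ → Bool := onCell 536870912 536870912 536870912 536870912 587336777 62277027
    (rowB 3 eng mog cd1q1 cd1q1 pd3 0 true true false .nn 1 1 3 (qsf 536870912 536870912 536870912 536870912 3) ndB1q1 ndB1q1 pcB3 Cut.none Ext.none)

def k0_pm_113 : ∃ t, chk3 f_pm_113 t 2 1 1 = true :=
  ⟨(b (b (l 1) (a (l 1) (b (l 1) (l 93449139575)))) (a (b (a (l 1) (b (l 1) (l 114386920871))) (b (a (l 93985688087) (a (l 16662592) (l 16721568))) (b (a (l 16577760) (l 16685656)) (a (a (b (c (c (l 16594896) (l 16562800)) (c (l 16531384) (l 16500632))) (c (a (l 16560312) (l 16586032)) (c (l 16523040) (l 16533056)))) (b (c (a (l 16610880) (l 16637448)) (c (l 16571928) (l 16538144))) (a (c (l 16613824) (l 16546168)) (l 16606240)))) (a (l 16651200) (b (l 16709872) (l 16709856))))))) (b (a (b (l 16783976) (l 16810712)) (b (l 16892752) (l 16930568))) (b (a (a (l 16784576) (l 16826776)) (l 16879624)) (b (a (l 16785280)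 (l 16851512)) (a (a (c (l 16779800) (l 16729824)) (l 16792952)) (c (l 16853656) (l 16821064)))))))), by decide +kernel⟩

def k1_pm_113 : ∃ t, chk3 f_pm_113 t 3 1 1 = true :=
  ⟨(b (a (b (b (l 1) (a (l 1) (l 114386921527))) (b (a (l 16783976) (l 16810712)) (a (l 16892752) (l 16930568)))) (a (b (b (l 93985688087) (b (l 16662592) (l 16721568))) (b (b (l 16784576) (l 16826776)) (l 16879624))) (b (a (b (l 16577760) (l 16685656)) (b (b (a (c (c (l 16594896) (l 16562800)) (c (l 16531384) (l 16500632))) (c (b (l 16560312) (l 16588896)) (c (l 16523040) (l 16512080)))) (a (c (b (l 16612168) (l 16637632)) (c (l 16571928) (l 16538144))) (b (c (l 16612968) (l 16545112)) (l 16606240)))) (b (l 16651200) (a (l 16709872) (l 16709856))))) (a (b (l 16785280) (l 16851512)) (b (b (c (l 16779584) (l 16729632)) (l 16793224)) (c (l 16853656) (l 16821064))))))) (a (a (b (l 16790760) (b (l 16929088) (b (l 16890760) (a (l 16864472) (l 16872992))))) (b (b (l 16998280) (l 17059408)) (b (l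 16965192) (b (l 16912760) (l 16861688))))) (b (a (b (l 16929088) (l 16965192)) (b (a (l 16890760) (b (l 16864472) (l 16872992))) (a (l 16912760) (l 16861688)))) (a (b (l 16973904) (b (l 16908088) (l 16869832))) (b (a (l 16908088) (l 16869832)) (a (b (l 16882432) (l 16841008)) (b (l 16841008) (b (l 16820792) (a (l 16810760) (b (l 16799280) (a (l 16794336) (b (l 16788312) (a (l 16785856) (b (l 16782776) (b (l 16781128) (b (l 16780232) (a (l 16780600) (a (l 16779080) (l 16987744))))))))))))))))))), by decide +kernel⟩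

theorem s2_pm_113 : ∃ t, chk3 f_pm_113 t 1 1 1 = true := ex3_a k0_pm_113 k1_pm_113

theorem c_pm_113 : CertB 536870912 536870912 536870912 536870912 587336777 62277027 3 eng mog cd1q1 cd1q1 pd3 true true false .nn 1 1 3
    ndB1q1 ndB1q1 pcB3 Cut.none Ext.none :=
  certB0 (fam := true) (s1 := true) (s2 := false) (a := 1) (b := 1) (c := 3) (cn := .nn) (n1 := ndB1q1) (n2 := ndB1q1) (pc := pcB3) (cut := Cut.none) (xt := Ext.none) (P1 := 536870912) (W1 := 536870912) (P2 := 536870912) (W2 := 536870912) (P3 := 587336777) (W3 := 62277027) (N0 := 3) (En := eng) (mo := mog) (C1 := cd1q1) (C2 := cd1q1) (C3 := pd3)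
    rfl s2_pm_113

noncomputable def f_pm_123_a : ℕ → ℕ → ℕ → ℕ → Bool := onCell 1610612736 536870912 0 536870912 587336777 62277027
    (rowB 3 eng mog cd1q1 cd1q2a pd3 2 true true false .npn 1 2 3 (qsf 536870912 536870912 0 536870912 3) ndB1q1 ndB1q2a pcB3 Cut.none Ext.none)

def k0_pm_123_a : ∃ t, chk3 f_pm_123_a t 1 2 1 = true :=
  ⟨(b (a (a (l 1) (a (a (l 16771176) (l 16788584)) (a (l 16797320) (a (l 16802720) (l 16807304))))) (a (a (a (b (a (l 16774752) (l 106535190215)) (l 16805928)) (b (l 4) (a (l 16786336) (l 16774600)))) (a (a (l 173644185447) (l 202098316295)) (l 4))) (l 4))) (a (a (a (l 1) (a (l 1) (l 16736480))) (a (a (b (l 16749616) (l 16732360)) (l 16767656)) (b (l 16811712) (l 16789736)))) (b (a (a (a (l 16803072) (l 16808000)) (a (l 16858688) (a (l 112440822087) (l 136063146647)))) (l 4)) (a (a (a (l 16803440) (l 16808296)) (a (l 16810648) (a (l 16804952) (l 16788016)))) (a (a (a (l 16774008) (l 112977828231)) (a (l 131768363911) (l 4))) (l 4)))))),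 by decide +kernel⟩

def k1_pm_123_a : ∃ t, chk3 f_pm_123_a t 1 6 1 = true :=
  ⟨(a (a (a (l 1) (a (b (l 1) (l 16654176)) (b (l 16686464) (l 16672304)))) (a (a (b (l 16717672) (b (l 16709472) (l 16706912))) (b (l 16753200) (l 16750192))) (b (l 16788352) (b (l 16789656) (l 16792584))))) (b (a (a (l 16807984) (a (l 16810904) (a (l 16810024) (l 16808920)))) (a (a (a (l 16808608) (l 16805632)) (a (l 16787616) (b (l 16764936) (l 16781176)))) (a (a (b (l 4) (l 185992283895)) (l 4)) (l 4)))) (a (a (c (l 16798696) (l 16789536)) (a (l 16817520) (l 16812992))) (a (a (b (l 16807256) (l 16811224)) (a (l 16808840) (b (l 16800232) (l 16807360)))) (a (a (b (l 16781808) (l 16798656)) (b (l 329336797783) (a (l 16785528) (l 16775936)))) (l 4)))))), by decide +kernel⟩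

def k2_pm_123_a : ∃ t, chk3 f_pm_123_a t 1 7 1 = true :=
  ⟨(b (a (a (a (a (l 1) (l 16634624)) (a (l 16652576) (l 16682424))) (a (a (b (l 16713064) (l 16705920)) (b (l 16754792) (l 16766120))) (a (a (l 16784240) (l 16797480)) (a (l 16808960) (l 16818752))))) (a (a (a (a (l 16825376) (l 16829024)) (l 16832120)) (a (l 16831696) (b (l 16822456) (l 16833696)))) (a (a (l 16825416) (b (l 16813584) (l 16822856))) (a (a (b (l 16806504) (l 16812736)) (b (a (l 16798352) (l 16790096)) (a (l 16806472) (l 16798128)))) (a (a (b (l 279944744311) (l 16850856)) (b (l 346516672887) (l 16820384))) (a (b (l 4) (l 386245132423)) (l 4))))))) (a (a (a (a (a (b (l 1) (a (l 16609504) (l 16553992))) (a (b (l 16584528) (l 16585840)) (b (l 16617096) (a (l 16612072) (l 16621688))))) (b (l 16633632) (b (l 16637488) (l 16641944)))) (a (b (l 16666464) (l 16686056)) (b (l 16706200) (l 16706288)))) (a (a (a (c (l 16767160) (l 16700288)) (l 16764656)) (c (l 16808536) (l 16773208))) (a (c (l 16833368)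 (l 16805672)) (c (l 16851816) (l 16831232))))) (a (a (a (l 16895640) (l 16857552)) (a (l 16858512) (l 16898384))) (a (a (l 16849496) (l 16837832)) (a (b (l 16815064) (l 16821768)) (a (b (a (l 16797896) (l 16851088)) (l 16796816)) (a (a (b (l 16800032) (l 16788288)) (b (l 16774056) (l 16782632))) (a (b (l 528515884215) (l 279944758151)) (a (l 433489760359) (b (l 4) (l 4))))))))))), by decide +kernel⟩

theorem s3_pm_123_a : ∃ t, chk3 f_pm_123_a t 1 3 1 = true := ex3_b k1_pm_123_a k2_pm_123_a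

theorem s4_pm_123_a : ∃ t, chk3 f_pm_123_a t 1 1 1 = true := ex3_b k0_pm_123_a s3_pm_123_a

theorem c_pm_123_a : CertB 536870912 536870912 0 536870912 587336777 62277027 3 eng mog cd1q1 cd1q2a pd3 true true false .npn 1 2 3
    ndB1q1 ndB1q2a pcB3 Cut.none Ext.none :=
  certB2 (fam := true) (s1 := true) (s2 := false) (a := 1) (b := 2) (c := 3) (cn := .npn) (n1 := ndB1q1) (n2 := ndB1q2a) (pc := pcB3) (cut := Cut.none) (xt := Ext.none) (P1 := 536870912) (W1 := 536870912) (P2 := 0) (W2 := 536870912) (P3 := 587336777) (W3 := 62277027) (N0 := 3) (En := eng) (mo := mog) (C1 := cd1q1) (C2 := cd1q2a) (C3 := pd3)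
    rfl (fun _ => rfl) s4_pm_123_a

noncomputable def f_pm_123_b : ℕ → ℕ → ℕ → ℕ → Bool := onCell 1610612736 536870912 1239849684 370763052 587336777 62277027
    (rowB 3 eng mog cd1q1 cd1q2b pd3 2 true true false .npn 1 2 3 (qsf 536870912 536870912 1239849684 370763052 3) ndB1q1 ndB1q2b pcB3 Cut.none Ext.none)

def k0_pm_123_b : ∃ t, chk3 f_pm_123_b t 1 1 1 = true :=
  ⟨(a (a (l 1) (b (a (b (a (l 16746392) (l 16771880)) (l 1)) (b (a (l 16755032) (b (l 16780488) (l 4))) (l 79154974359))) (l 1))) (a (a (l 4) (l 4)) (l 4))), by decide +kernel⟩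

theorem c_pm_123_b : CertB 536870912 536870912 1239849684 370763052 587336777 62277027 3 eng mog cd1q1 cd1q2b pd3 true true false .npn 1 2 3
    ndB1q1 ndB1q2b pcB3 Cut.none Ext.none :=
  certB2 (fam := true) (s1 := true) (s2 := false) (a := 1) (b := 2) (c := 3) (cn := .npn) (n1 := ndB1q1) (n2 := ndB1q2b) (pc := pcB3) (cut := Cut.none) (xt := Ext.none) (P1 := 536870912) (W1 := 536870912) (P2 := 1239849684) (W2 := 370763052) (P3 := 587336777) (W3 := 62277027) (N0 := 3) (En := eng) (mo := mog) (C1 := cd1q1) (C2 := cd1q2b) (C3 := pd3)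
    rfl (fun _ => rfl) k0_pm_123_b

noncomputable def f_pm_133 : ℕ → ℕ → ℕ → ℕ → Bool := onCell 536870912 536870912 1610612736 536870912 587336777 62277027
    (rowB 3 eng mog cd1q1 cd1q3 pd3 0 true true false .dn 1 3 3 (qsf 536870912 536870912 1610612736 536870912 3) ndB1q1 ndB1q3 pcB3 Cut.none Ext.none)

def k0_pm_133 : ∃ t, chk3 f_pm_133 t 1 1 1 = true :=
  ⟨(l 4), by decide +kernel⟩

theorem c_pm_133 : CertB 536870912 536870912 1610612736 536870912 587336777 62277027 3 eng mog cd1q1 cd1q3 pd3 true true false .dn 1 3 3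
    ndB1q1 ndB1q3 pcB3 Cut.none Ext.none :=
  certB0 (fam := true) (s1 := true) (s2 := false) (a := 1) (b := 3) (c := 3) (cn := .dn) (n1 := ndB1q1) (n2 := ndB1q3) (pc := pcB3) (cut := Cut.none) (xt := Ext.none) (P1 := 536870912) (W1 := 536870912) (P2 := 1610612736) (W2 := 536870912) (P3 := 587336777) (W3 := 62277027) (N0 := 3) (En := eng) (mo := mog) (C1 := cd1q1) (C2 := cd1q3) (C3 := pd3)
    rfl k0_pm_133

noncomputable def cut_pm_202_a : Cut := Cut.of [[⟨0, 1, 0, 67108864⟩, ⟨1, 0, 0, 67108864⟩, ⟨2, 1, 0, 67108864⟩]]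

noncomputable def f_pm_202_a : ℕ → ℕ → ℕ → ℕ → Bool := onCell 0 536870912 1073741824 536870912 587336777 62277027
    (rowB 3 eng mog cd1q2a cd1q0 pd2 1 true true false .pp 2 0 2 (qsf 0 536870912 0 536870912 2) ndB1q2a ndB1q0 pcB2 cut_pm_202_a Ext.none)

def k0_pm_202_a : ∃ t, chk3 f_pm_202_a t 2 2 1 = true :=
  ⟨(a (b (l 1) (b (b (b (l 1) (a (c (l 16455600) (l 16450192)) (a (l 16459728) (l 16467072)))) (a (b (c (l 16457304) (l 16455032)) (l 16459808)) (b (c (l 16467080) (a (l 16460048) (l 16466552))) (c (l 16468688) (l 16466096))))) (a (b (a (l 16465176) (l 16445328)) (a (l 16475216) (l 16475504))) (b (a (b (l 16467928) (l 16471672)) (b (l 16473704) (l 16476936))) (a (l 16478072) (b (l 16480600) (l 16484672))))))) (b (b (l 1) (b (l 1) (a (l 1) (b (l 1) (a (l 1) (b (l 1) (a (l 16510920) (c (l 16524440) (l 16513336))))))))) (b (b (a (b (a (l 16479168) (b (l 1) (l 16486640))) (a (b (l 16475960) (l 16476968)) (c (l 16490816) (l 16483480)))) (b (a (b (a (l 16495944)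 (l 16503464)) (a (l 16496680) (l 16503896))) (b (c (l 16519800) (l 16509872)) (l 16515296))) (b (a (a (l 16497128) (l 16504032)) (l 16514896)) (b (a (l 16500672) (l 16514408)) (b (a (l 16500616) (l 16514096)) (a (c (l 16502488) (l 16497240)) (l 16503384))))))) (a (b (c (a (l 16479352) (l 16489656)) (a (l 16475160) (l 16485648))) (c (l 16485000) (a (l 16476888) (l 16486472)))) (b (a (c (l 16501008) (b (l 16497544) (l 16497744))) (b (l 16513216) (l 16511904))) (a (l 16499184) (l 16510248))))) (a (b (a (b (l 16481248) (l 16483864)) (b (l 16489888) (l 16491624))) (a (b (l 16486920) (l 16490552)) (b (l 16493816) (l 16496920)))) (b (a (c (l 16500304) (l 16497200)) (a (l 16505824) (l 16510328))) (a (b (l 16501000) (l 16503312)) (a (l 16506560) (l 16509472)))))))), by decide +kernel⟩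

def k1_pm_202_a : ∃ t, chk3 f_pm_202_a t 2 3 1 = true :=
  ⟨(b (b (a (a (b (a (l 16487344) (l 16486944)) (a (l 16500152) (l 16499096))) (b (a (l 16488832) (l 16492624)) (a (l 16500200) (l 16502976)))) (a (b (a (l 16497736) (l 16502816)) (a (l 16506752) (l 16509896))) (a (b (l 16507288) (l 16532744)) (b (l 16509880) (l 16510776))))) (a (b (a (b (l 16507816) (a (l 16516416) (l 16514584))) (a (b (l 16507600) (l 16525192)) (b (l 16509704) (l 16516224)))) (a (b (a (l 16529568) (l 16526936)) (l 16541152)) (b (a (l 16526200) (l 16526800)) (l 16537696)))) (a (b (b (a (l 16512568) (l 16514328)) (a (l 16518352) (l 16519088))) (a (b (l 16527896) (l 16537464)) (l 16531512))) (b (a (b (l 16514304) (l 16517672)) (b (l 16510664) (l 16512016))) (a (l 16527744) (l 16519144)))))) (a (b (a (b (l 16581192) (l 16585096)) (b (a (l 16554968) (l 16553232)) (l 16575608))) (b (a (l 16608456) (l 16596040)) (a (a (l 16635720) (l 16626624)) (l 16615200)))) (b (a (b (a (l 16551688) (l 16547960))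 (l 16588224)) (a (b (l 16541120) (l 16554040)) (l 16554328))) (a (b (l 16583536) (l 16619664)) (a (l 16592848) (l 16571056)))))), by decide +kernel⟩

def k2_pm_202_a : ∃ t, chk3 f_pm_202_a t 3 8 1 = true :=
  ⟨(a (l 1) (a (b (l 1) (a (b (l 1) (b (l 1) (a (l 1) (a (l 16642032) (l 16648576))))) (b (l 6) (b (l 6) (a (b (l 6) (l 16656776)) (l 16670208)))))) (b (l 6) (b (l 6) (b (l 6) (b (l 6) (a (a (l 16680872) (l 16692136)) (a (l 16699168) (l 16705472))))))))), by decide +kernel⟩

def k3_pm_202_a : ∃ t, chk3 f_pm_202_a t 3 9 1 = true :=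
  ⟨(a (a (b (l 1) (b (a (a (l 1) (b (l 1) (c (l 16543944) (l 16531928)))) (c (b (l 23118577415) (l 98280498823)) (a (b (l 1) (l 67141936967)) (b (l 16554408) (l 16553592))))) (a (c (b (l 16538392) (l 16537240)) (b (a (l 16522088) (l 16532048)) (a (l 16522504) (l 16531944)))) (a (b (l 16547536) (l 16546288)) (b (l 16557240) (l 16555448)))))) (b (b (a (l 1) (b (l 1) (a (l 16600592) (l 68215828583)))) (a (b (a (l 1) (l 16586096)) (a (l 10233680759) (l 100428023431))) (a (b (l 71973901671) (l 16595392)) (b (l 16609768) (l 16606480))))) (a (b (a (b (c (l 16575328) (l 16565800)) (l 16569032)) (b (l 16581752) (l 16579264))) (a (l 16565768) (l 16575136))) (b (a (l 16590984) (b (l 16603016) (l 16599344))) (a (b (l 16586112) (l 16582608)) (l 16593448)))))) (a (b (a (b (a (b (l 58552187271) (l 16625056)) (b (l 16641296) (l 16637104))) (a (b (l 16621352) (l 16617448)) (b (l 16632752) (l 16628208)))) (b (a (b (l 16653296) (l 16648536)) (b (l 16644040) (l 16659672))) (a (l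 16641064) (l 16651344)))) (a (b (a (c (l 16612808) (l 16609112)) (l 16621048)) (l 16606696)) (a (l 16676976) (l 16678912)))) (a (b (a (b (l 16694496) (l 16659736)) (b (l 16703152) (l 16666704))) (a (c (l 16702248) (l 16637864)) (b (l 16651864) (l 16658640)))) (b (a (a (b (l 16687368) (l 16671640)) (b (l 16690616) (l 16674728))) (b (a (l 16693680) (l 16718824)) (b (l 16682976) (l 16675064)))) (b (a (l 16658008) (b (l 16667256) (l 16659480))) (a (b (l 16646944) (l 16639664)) (b (l 16651720) (l 16644128)))))))), by decide +kernel⟩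

def k4_pm_202_a : ∃ t, chk3 f_pm_202_a t 3 5 1 = true :=
  ⟨(a (b (b (b (a (a (b (c (l 16535832) (l 16527240)) (l 16531072)) (a (l 16543968) (b (l 16553424) (l 16551168)))) (a (c (l 16566560) (a (l 16557888) (l 16566680))) (l 16581056))) (a (b (a (l 16529840) (c (l 16546664) (l 16542384))) (b (a (l 16518256) (l 16543192)) (a (b (l 16528136) (l 16527712)) (b (l 16542224) (l 16541576))))) (b (a (l 16560088) (l 16574552)) (b (l 16585808) (a (l 16608144) (l 16589824)))))) (a (b (a (l 16546584) (l 16538456)) (l 16580288)) (a (l 16610296) (l 16622104)))) (a (b (b (l 16565904) (l 16552384)) (a (l 16514184) (l 16519104))) (a (l 16604888) (l 16590224)))) (b (b (b (a (a (l 16595984) (l 16609264)) (a (a (l 16660312) (l 16645040)) (a (l 16629144) (b (l 16636808) (l 16629736))))) (a (b (a (l 16587800) (l 16600376)) (a (b (l 16583832) (l 16623168)) (b (l 16596152) (b (l 16594128) (l 16592800))))) (b (a (l 16611928) (a (l 16619136) (l 16643856))) (b (a (l 16607432) (a (l 16614328)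 (l 16617864))) (b (a (l 16605224) (a (l 16611952) (l 16615376))) (a (c (l 16606744) (l 16622000)) (b (b (b (l 16612920) (a (l 16610872) (l 16635192))) (l 16612408)) (l 16611800)))))))) (a (a (b (l 16575248) (l 16566544)) (b (l 16608024) (l 16577304))) (a (b (l 16618248) (l 16586176)) (a (b (l 16603352) (l 16591248)) (b (b (l 16609576) (l 16603144)) (l 16593560)))))) (b (a (a (l 16554232) (l 16562968)) (a (l 16590784) (a (l 16573408) (b (l 16580904) (l 16568856))))) (a (a (l 16538696) (l 16544864)) (a (l 16591648) (a (l 16552000) (l 16552592))))))), by decide +kernel⟩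

def k5_pm_202_a : ∃ t, chk3 f_pm_202_a t 3 3 1 = true :=
  ⟨(a (b (b (a (b (l 16574888) (a (l 16507496) (l 16502848))) (b (l 16538696) (l 16532424))) (a (b (a (l 16576712) (l 16504448)) (l 16583216)) (b (l 16520312) (l 16503640)))) (b (a (a (l 16513016) (l 16492592)) (b (l 16496880) (l 16491496))) (a (l 16554352) (a (l 16482408) (l 16481912))))) (b (b (a (a (b (l 16525408) (l 16516864)) (b (l 16530208) (l 16519368))) (a (b (l 16533448) (l 16519768)) (b (a (l 16534128) (l 16533416)) (l 16538416)))) (b (a (a (l 16511088) (l 16510632)) (a (l 16508120) (b (l 16506648) (l 16499336)))) (a (l 16500936) (a (l 16494248) (l 16486856))))) (b (a (a (l 16490456) (l 16486616)) (a (l 16501584) (b (l 16474728) (l 16469928)))) (a (a (l 16480328) (l 16477312)) (a (l 16472488) (l 16507736)))))), by decide +kernel⟩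

theorem s6_pm_202_a : ∃ t, chk3 f_pm_202_a t 3 4 1 = true := ex3_b k2_pm_202_a k3_pm_202_a

theorem s7_pm_202_a : ∃ t, chk3 f_pm_202_a t 3 2 1 = true := ex3_b s6_pm_202_a k4_pm_202_a

theorem s8_pm_202_a : ∃ t, chk3 f_pm_202_a t 3 1 1 = true := ex3_b s7_pm_202_a k5_pm_202_a

theorem s9_pm_202_a : ∃ t, chk3 f_pm_202_a t 2 1 1 = true := ex3_b k0_pm_202_a k1_pm_202_a

theorem s10_pm_202_a : ∃ t, chk3 f_pm_202_a t 1 1 1 = true := ex3_a s9_pm_202_a s8_pm_202_a

theorem c_pm_202_a : CertB 0 536870912 0 536870912 587336777 62277027 3 eng mog cd1q2a cd1q0 pd2 true true false .pp 2 0 2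
    ndB1q2a ndB1q0 pcB2 cut_pm_202_a Ext.none :=
  certB1 (fam := true) (s1 := true) (s2 := false) (a := 2) (b := 0) (c := 2) (cn := .pp) (n1 := ndB1q2a) (n2 := ndB1q0) (pc := pcB2) (cut := cut_pm_202_a) (xt := Ext.none) (P1 := 0) (W1 := 536870912) (P2 := 0) (W2 := 536870912) (P3 := 587336777) (W3 := 62277027) (N0 := 3) (En := eng) (mo := mog) (C1 := cd1q2a) (C2 := cd1q0) (C3 := pd2)
    rfl (fun _ => rfl) s10_pm_202_a

noncomputable def cut_pm_202_b : Cut := Cut.of [[⟨0, 1, 0, 67108864⟩, ⟨1, 0, 0, 67108864⟩, ⟨2, 1, 0, 67108864⟩]]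

noncomputable def f_pm_202_b : ℕ → ℕ → ℕ → ℕ → Bool := onCell 1239849684 370763052 1073741824 536870912 587336777 62277027
    (rowB 3 eng mog cd1q2b cd1q0 pd2 1 true true false .pp 2 0 2 (qsf 1239849684 370763052 0 536870912 2) ndB1q2b ndB1q0 pcB2 cut_pm_202_b Ext.none)

def k0_pm_202_b : ∃ t, chk3 f_pm_202_b t 1 1 1 = true :=
  ⟨(b (a (b (l 1) (b (a (a (b (b (l 1) (l 16421832)) (b (a (l 16430584) (l 1)) (a (l 16434744) (l 16385768)))) (l 1)) (l 1)) (a (b (a (a (l 16442456) (l 16395376)) (b (l 16317816) (l 16326344))) (a (l 16449216) (a (l 16363520) (l 16315968)))) (b (l 1) (a (l 16263512) (l 1)))))) (l 1)) (a (b (b (a (a (b (a (l 16467664) (l 16425064)) (a (l 16482400) (l 16442184))) (b (l 16359120) (l 16379000))) (b (a (l 16266288) (l 1)) (a (l 16290752) (l 16197872)))) (a (b (a (b (l 16474480) (l 16484760)) (b (l 16394440) (l 16408024))) (a (a (l 16523376) (l 16490696)) (l 16436048))) (b (a (l 16316720) (l 16228480)) (a (l 16355992) (l 16272728))))) (b (a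 (a (b (a (l 16552320) (l 16523008)) (l 16568320)) (b (l 16473496) (l 16510392))) (b (l 16403864) (l 16408568))) (a (a (b (l 16638872) (l 16623768)) (b (l 16546368) (l 16579768))) (b (l 16454880) (l 16497944))))) (b (a (b (l 1) (b (a (l 16136248) (l 1)) (a (l 16186320) (l 16096960)))) (l 1)) (b (a (b (l 16200480) (l 16258632)) (b (l 1) (l 16102632))) (a (b (l 16317168) (l 16372304)) (b (l 16174072) (l 16241160))))))), by decide +kernel⟩

theorem c_pm_202_b : CertB 1239849684 370763052 0 536870912 587336777 62277027 3 eng mog cd1q2b cd1q0 pd2 true true false .pp 2 0 2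
    ndB1q2b ndB1q0 pcB2 cut_pm_202_b Ext.none :=
  certB1 (fam := true) (s1 := true) (s2 := false) (a := 2) (b := 0) (c := 2) (cn := .pp) (n1 := ndB1q2b) (n2 := ndB1q0) (pc := pcB2) (cut := cut_pm_202_b) (xt := Ext.none) (P1 := 1239849684) (W1 := 370763052) (P2 := 0) (W2 := 536870912) (P3 := 587336777) (W3 := 62277027) (N0 := 3) (En := eng) (mo := mog) (C1 := cd1q2b) (C2 := cd1q0) (C3 := pd2)
    rfl (fun _ => rfl) k0_pm_202_b

noncomputable def f_pm_203_a : ℕ → ℕ → ℕ → ℕ → Bool := onCell 0 536870912 1610612736 536870912 587336777 62277027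
    (rowB 3 eng mog cd1q2a cd1q0 pd3 1 true true false .up 2 0 3 (qsf 0 536870912 0 536870912 3) ndB1q2a ndB1q0 pcB3 Cut.none Ext.none)

def k0_pm_203_a : ∃ t, chk3 f_pm_203_a t 1 1 1 = true :=
  ⟨(b (a (b (b (a (b (a (b (a (l 16652496) (l 16642544)) (l 16645160)) (b (b (l 16633968) (l 16628824)) (l 16617880))) (a (l 16639528) (l 16604264))) (b (a (b (a (l 16620384) (l 16651368)) (l 16583840)) (b (a (l 16698856) (l 16560496)) (l 16593184))) (a (l 16588888) (l 16590192)))) (a (b (a (l 16657208) (l 16635976)) (a (l 16697288) (l 16675368))) (b (a (l 16623952) (l 16617144)) (a (l 16659752) (l 16645512))))) (b (a (b (l 16743016) (l 16764600)) (b (a (l 16701408) (l 16686000)) (l 2))) (l 2))) (a (b (b (b (a (b (a (l 16540504) (l 16501080)) (l 16552648)) (b (c (l 16463976) (l 16475800)) (b (l 16527424) (l 16573008)))) (a (l 16589376) (l 16585992))) (b (a (l 16609232) (l 16600160)) (a (l 16631744) (l 16619352)))) (l 2)) (b (b (b (a (b (a (l 16462048) (l 16535152)) (b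 (l 16530640) (l 16569712))) (b (a (l 16502744) (a (l 16489008) (l 16493880))) (b (l 16536448) (l 166530311047)))) (a (l 16583480) (l 162235302663))) (b (a (l 16599840) (l 2)) (l 2))) (l 2)))) (l 2)), by decide +kernel⟩

theorem c_pm_203_a : CertB 0 536870912 0 536870912 587336777 62277027 3 eng mog cd1q2a cd1q0 pd3 true true false .up 2 0 3
    ndB1q2a ndB1q0 pcB3 Cut.none Ext.none :=
  certB1 (fam := true) (s1 := true) (s2 := false) (a := 2) (b := 0) (c := 3) (cn := .up) (n1 := ndB1q2a) (n2 := ndB1q0) (pc := pcB3) (cut := Cut.none) (xt := Ext.none) (P1 := 0) (W1 := 536870912) (P2 := 0) (W2 := 536870912) (P3 := 587336777) (W3 := 62277027) (N0 := 3) (En := eng) (mo := mog) (C1 := cd1q2a) (C2 := cd1q0) (C3 := pd3)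
    rfl (fun _ => rfl) k0_pm_203_a

noncomputable def f_pm_203_b : ℕ → ℕ → ℕ → ℕ → Bool := onCell 1239849684 370763052 1610612736 536870912 587336777 62277027
    (rowB 3 eng mog cd1q2b cd1q0 pd3 1 true true false .up 2 0 3 (qsf 1239849684 370763052 0 536870912 3) ndB1q2b ndB1q0 pcB3 Cut.none Ext.none)

def k0_pm_203_b : ∃ t, chk3 f_pm_203_b t 1 1 1 = true :=
  ⟨(b (b (a (b (a (b (a (l 16643656) (l 16606384)) (l 16700048)) (l 16713264)) (a (b (l 16709800) (a (l 16676632) (l 16651280))) (l 16595752))) (b (a (l 16433480) (l 16311240)) (a (l 16502600) (l 16392616)))) (a (b (a (a (b (l 16712072) (l 16733776)) (b (l 16667984) (l 16697480))) (l 16693608)) (a (b (l 16773984) (l 296990320055)) (b (l 16702344) (l 4)))) (b (a (l 16583568) (l 16506904)) (l 4)))) (b (b (l 4) (l 4)) (l 4))), by decide +kernel⟩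

theorem c_pm_203_b : CertB 1239849684 370763052 0 536870912 587336777 62277027 3 eng mog cd1q2b cd1q0 pd3 true true false .up 2 0 3
    ndB1q2b ndB1q0 pcB3 Cut.none Ext.none :=
  certB1 (fam := true) (s1 := true) (s2 := false) (a := 2) (b := 0) (c := 3) (cn := .up) (n1 := ndB1q2b) (n2 := ndB1q0) (pc := pcB3) (cut := Cut.none) (xt := Ext.none) (P1 := 1239849684) (W1 := 370763052) (P2 := 0) (W2 := 536870912) (P3 := 587336777) (W3 := 62277027) (N0 := 3) (En := eng) (mo := mog) (C1 := cd1q2b) (C2 := cd1q0) (C3 := pd3)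
    rfl (fun _ => rfl) k0_pm_203_b

noncomputable def f_pm_213_a : ℕ → ℕ → ℕ → ℕ → Bool := onCell 0 536870912 1610612736 536870912 587336777 62277027
    (rowB 3 eng mog cd1q2a cd1q1 pd3 1 true true false .pnn 2 1 3 (qsf 0 536870912 536870912 536870912 3) ndB1q2a ndB1q1 pcB3 Cut.none Ext.none)

def k0_pm_213_a : ∃ t, chk3 f_pm_213_a t 2 1 1 = true :=
  ⟨(a (b (b (l 1) (b (b (l 16771176) (l 16788584)) (b (l 16797320) (a (l 16793824) (l 16798552))))) (b (b (b (a (b (l 16774752) (l 106535190215)) (l 16805928)) (a (l 4) (b (l 16786336) (l 16774600)))) (b (b (l 173644185447) (l 202098316295)) (l 4))) (l 4))) (b (b (b (l 1) (b (l 1) (l 16736480))) (b (b (a (l 16749616) (l 16732360)) (l 16767656)) (a (l 16811712) (l 16789736)))) (a (b (b (b (l 16803072) (l 16808000)) (b (l 16858688) (b (l 112440822087) (l 136063146647)))) (l 4)) (b (b (b (l 16803440) (l 16808296)) (b (l 16810648) (b (l 16804952) (l 16788016)))) (b (b (b (l 16774008) (l 112977828231)) (b (l 131768363911)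 (l 4))) (l 4)))))), by decide +kernel⟩

def k1_pm_213_a : ∃ t, chk3 f_pm_213_a t 6 1 1 = true :=
  ⟨(b (b (b (l 1) (b (a (l 1) (l 16654176)) (a (l 16686464) (l 16672304)))) (b (b (a (l 16717672) (a (l 16709472) (l 16706912))) (a (l 16753200) (l 16750192))) (a (l 16788352) (a (l 16789656) (l 16792584))))) (a (b (b (l 16807984) (b (l 16810904) (b (l 16810024) (l 16808920)))) (b (b (b (l 16808608) (l 16805632)) (b (l 16787616) (a (l 16764936) (l 16781176)))) (b (b (a (l 4) (l 185992283895)) (l 4)) (l 4)))) (b (b (c (l 16798696) (l 16789536)) (b (l 16817520) (l 16812992))) (b (b (a (l 16807256) (l 16811224)) (b (l 16808840) (a (l 16800232) (l 16807360)))) (b (b (a (l 16781808) (l 16798656)) (a (l 329336797783) (b (l 16785528) (l 16775936)))) (l 4)))))), by decide +kernel⟩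

def k2_pm_213_a : ∃ t, chk3 f_pm_213_a t 7 1 1 = true :=
  ⟨(a (b (b (b (b (l 1) (l 16634624)) (b (l 16652576) (l 16682424))) (b (b (a (l 16713064) (l 16705920)) (a (l 16754792) (l 16766120))) (b (b (l 16784240) (l 16797480)) (b (l 16808960) (l 16818752))))) (b (b (b (b (l 16825376) (l 16829024)) (l 16832120)) (b (l 16831696) (a (l 16822456) (l 16833696)))) (b (b (l 16825416) (a (l 16813584) (l 16822856))) (b (b (a (l 16806504) (l 16812736)) (a (b (l 16798352) (l 16790096)) (b (l 16806472) (l 16798128)))) (b (b (a (l 279944744311) (l 16850856)) (a (l 345979801975) (l 16820384))) (b (a (l 4) (l 386245132423)) (l 4))))))) (b (b (b (b (b (a (l 1) (b (l 16588536) (l 16553992))) (b (a (l 16584528) (l 16585840)) (a (l 16617096) (b (l 16612072) (l 16621688))))) (a (l 16633632) (a (l 16637488) (l 16641944)))) (b (a (l 16666464) (l 16686056)) (a (l 16706200) (l 16706288)))) (b (b (b (c (l 16767160) (l 16700288)) (l 16764656)) (c (l 16808536) (l 16773208))) (b (c (l 16833368)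 (l 16805672)) (c (l 16851816) (l 16831232))))) (b (b (b (l 16895640) (l 16857552)) (b (l 16858512) (l 16898384))) (b (b (l 16849496) (l 16837832)) (b (a (l 16815064) (l 16821768)) (b (a (b (l 16797896) (l 16851088)) (l 16796816)) (b (a (b (l 16800032) (l 16774056)) (b (l 16788288) (l 16782632))) (b (a (l 528515884215) (l 279944758151)) (b (l 433489760359) (a (l 4) (l 4))))))))))), by decide +kernel⟩

theorem s3_pm_213_a : ∃ t, chk3 f_pm_213_a t 3 1 1 = true := ex3_a k1_pm_213_a k2_pm_213_a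

theorem s4_pm_213_a : ∃ t, chk3 f_pm_213_a t 1 1 1 = true := ex3_a k0_pm_213_a s3_pm_213_a

theorem c_pm_213_a : CertB 0 536870912 536870912 536870912 587336777 62277027 3 eng mog cd1q2a cd1q1 pd3 true true false .pnn 2 1 3
    ndB1q2a ndB1q1 pcB3 Cut.none Ext.none :=
  certB1 (fam := true) (s1 := true) (s2 := false) (a := 2) (b := 1) (c := 3) (cn := .pnn) (n1 := ndB1q2a) (n2 := ndB1q1) (pc := pcB3) (cut := Cut.none) (xt := Ext.none) (P1 := 0) (W1 := 536870912) (P2 := 536870912) (W2 := 536870912) (P3 := 587336777) (W3 := 62277027) (N0 := 3) (En := eng) (mo := mog) (C1 := cd1q2a) (C2 := cd1q1) (C3 := pd3)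
    rfl (fun _ => rfl) s4_pm_213_a

noncomputable def f_pm_213_b : ℕ → ℕ → ℕ → ℕ → Bool := onCell 1239849684 370763052 1610612736 536870912 587336777 62277027
    (rowB 3 eng mog cd1q2b cd1q1 pd3 1 true true false .pnn 2 1 3 (qsf 1239849684 370763052 536870912 536870912 3) ndB1q2b ndB1q1 pcB3 Cut.none Ext.none)

def k0_pm_213_b : ∃ t, chk3 f_pm_213_b t 1 1 1 = true :=
  ⟨(a (b (b (l 1) (b (a (b (l 16746392) (l 16771880)) (l 1)) (a (b (l 16755032) (a (l 16780488) (l 4))) (l 79154974359)))) (b (l 4) (l 4))) (b (l 1) (l 4))), by decide +kernel⟩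

theorem c_pm_213_b : CertB 1239849684 370763052 536870912 536870912 587336777 62277027 3 eng mog cd1q2b cd1q1 pd3 true true false .pnn 2 1 3
    ndB1q2b ndB1q1 pcB3 Cut.none Ext.none :=
  certB1 (fam := true) (s1 := true) (s2 := false) (a := 2) (b := 1) (c := 3) (cn := .pnn) (n1 := ndB1q2b) (n2 := ndB1q1) (pc := pcB3) (cut := Cut.none) (xt := Ext.none) (P1 := 1239849684) (W1 := 370763052) (P2 := 536870912) (W2 := 536870912) (P3 := 587336777) (W3 := 62277027) (N0 := 3) (En := eng) (mo := mog) (C1 := cd1q2b) (C2 := cd1q1) (C3 := pd3)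
    rfl (fun _ => rfl) k0_pm_213_b

noncomputable def f_pm_303 : ℕ → ℕ → ℕ → ℕ → Bool := onCell 1610612736 536870912 0 536870912 587336777 62277027
    (rowB 3 eng mog cd1q3 cd1q0 pd3 2 true true false .npn 3 0 3 (qsf 1610612736 536870912 0 536870912 3) ndB1q3 ndB1q0 pcB3 Cut.none Ext.none)

def k0_pm_303 : ∃ t, chk3 f_pm_303 t 1 1 1 = true :=
  ⟨(a (a (b (a (b (l 16281368) (l 1)) (b (l 16273520) (l 16451048))) (l 1)) (b (a (b (l 16388856) (l 16486672)) (l 4)) (a (l 1) (b (l 4) (l 1))))) (l 4)), by decide +kernel⟩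

theorem c_pm_303 : CertB 1610612736 536870912 0 536870912 587336777 62277027 3 eng mog cd1q3 cd1q0 pd3 true true false .npn 3 0 3
    ndB1q3 ndB1q0 pcB3 Cut.none Ext.none :=
  certB2 (fam := true) (s1 := true) (s2 := false) (a := 3) (b := 0) (c := 3) (cn := .npn) (n1 := ndB1q3) (n2 := ndB1q0) (pc := pcB3) (cut := Cut.none) (xt := Ext.none) (P1 := 1610612736) (W1 := 536870912) (P2 := 0) (W2 := 536870912) (P3 := 587336777) (W3 := 62277027) (N0 := 3) (En := eng) (mo := mog) (C1 := cd1q3) (C2 := cd1q0) (C3 := pd3)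
    rfl (fun _ => rfl) k0_pm_303

noncomputable def f_pm_313 : ℕ → ℕ → ℕ → ℕ → Bool := onCell 1610612736 536870912 536870912 536870912 587336777 62277027
    (rowB 3 eng mog cd1q3 cd1q1 pd3 0 true true false .dn 3 1 3 (qsf 1610612736 536870912 536870912 536870912 3) ndB1q3 ndB1q1 pcB3 Cut.none Ext.none)

def k0_pm_313 : ∃ t, chk3 f_pm_313 t 1 1 1 = true :=
  ⟨(l 4), by decide +kernel⟩

theorem c_pm_313 : CertB 1610612736 536870912 536870912 536870912 587336777 62277027 3 eng mog cd1q3 cd1q1 pd3 true true false .dn 3 1 3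
    ndB1q3 ndB1q1 pcB3 Cut.none Ext.none :=
  certB0 (fam := true) (s1 := true) (s2 := false) (a := 3) (b := 1) (c := 3) (cn := .dn) (n1 := ndB1q3) (n2 := ndB1q1) (pc := pcB3) (cut := Cut.none) (xt := Ext.none) (P1 := 1610612736) (W1 := 536870912) (P2 := 536870912) (W2 := 536870912) (P3 := 587336777) (W3 := 62277027) (N0 := 3) (En := eng) (mo := mog) (C1 := cd1q3) (C2 := cd1q1) (C3 := pd3)
    rfl k0_pm_313

noncomputable def f_mm_001 : ℕ → ℕ → ℕ → ℕ → Bool := onCell 0 536870912 0 536870912 587336777 62277027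
    (rowB 3 eng mog cd1q0 cd1q0 pd1 0 true false false .up 0 0 1 (qsf 0 536870912 0 536870912 1) ndB1q0 ndB1q0 pcB1 Cut.none Ext.none)

def k0_mm_001 : ∃ t, chk3 f_mm_001 t 1 1 1 = true :=
  ⟨(l 4), by decide +kernel⟩

theorem c_mm_001 : CertB 0 536870912 0 536870912 587336777 62277027 3 eng mog cd1q0 cd1q0 pd1 true false false .up 0 0 1
    ndB1q0 ndB1q0 pcB1 Cut.none Ext.none :=
  certB0 (fam := true) (s1 := false) (s2 := false) (a := 0) (b := 0) (c := 1) (cn := .up) (n1 := ndB1q0) (n2 := ndB1q0) (pc := pcB1) (cut := Cut.none) (xt := Ext.none) (P1 := 0) (W1 := 536870912) (P2 := 0) (W2 := 536870912) (P3 := 587336777) (W3 := 62277027) (N0 := 3) (En := eng) (mo := mog) (C1 := cd1q0) (C2 := cd1q0) (C3 := pd1)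
    rfl k0_mm_001

noncomputable def f_mm_011 : ℕ → ℕ → ℕ → ℕ → Bool := onCell 0 536870912 536870912 536870912 587336777 62277027
    (rowB 3 eng mog cd1q0 cd1q1 pd1 0 true false false .pnn 0 1 1 (qsf 0 536870912 536870912 536870912 1) ndB1q0 ndB1q1 pcB1 Cut.none Ext.none)

def k0_mm_011 : ∃ t, chk3 f_mm_011 t 1 1 1 = true :=
  ⟨(l 4), by decide +kernel⟩

theorem c_mm_011 : CertB 0 536870912 536870912 536870912 587336777 62277027 3 eng mog cd1q0 cd1q1 pd1 true false false .pnn 0 1 1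
    ndB1q0 ndB1q1 pcB1 Cut.none Ext.none :=
  certB0 (fam := true) (s1 := false) (s2 := false) (a := 0) (b := 1) (c := 1) (cn := .pnn) (n1 := ndB1q0) (n2 := ndB1q1) (pc := pcB1) (cut := Cut.none) (xt := Ext.none) (P1 := 0) (W1 := 536870912) (P2 := 536870912) (W2 := 536870912) (P3 := 587336777) (W3 := 62277027) (N0 := 3) (En := eng) (mo := mog) (C1 := cd1q0) (C2 := cd1q1) (C3 := pd1)
    rfl k0_mm_011

noncomputable def f_mm_012 : ℕ → ℕ → ℕ → ℕ → Bool := onCell 0 536870912 536870912 536870912 587336777 62277027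
    (rowB 3 eng mog cd1q0 cd1q1 pd2 0 true false false .pnp 0 1 2 (qsf 0 536870912 536870912 536870912 2) ndB1q0 ndB1q1 pcB2 Cut.none Ext.none)

def k0_mm_012 : ∃ t, chk3 f_mm_012 t 1 1 1 = true :=
  ⟨(l 4), by decide +kernel⟩

theorem c_mm_012 : CertB 0 536870912 536870912 536870912 587336777 62277027 3 eng mog cd1q0 cd1q1 pd2 true false false .pnp 0 1 2
    ndB1q0 ndB1q1 pcB2 Cut.none Ext.none :=
  certB0 (fam := true) (s1 := false) (s2 := false) (a := 0) (b := 1) (c := 2) (cn := .pnp) (n1 := ndB1q0) (n2 := ndB1q1) (pc := pcB2) (cut := Cut.none) (xt := Ext.none) (P1 := 0) (W1 := 536870912) (P2 := 536870912) (W2 := 536870912) (P3 := 587336777) (W3 := 62277027) (N0 := 3) (En := eng) (mo := mog) (C1 := cd1q0) (C2 := cd1q1) (C3 := pd2)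
    rfl k0_mm_012

noncomputable def f_mm_022_a : ℕ → ℕ → ℕ → ℕ → Bool := onCell 0 536870912 0 536870912 587336777 62277027
    (rowB 3 eng mog cd1q0 cd1q2a pd2 0 true false false .pp 0 2 2 (qsf 0 536870912 0 536870912 2) ndB1q0 ndB1q2a pcB2 Cut.none Ext.none)

def k0_mm_022_a : ∃ t, chk3 f_mm_022_a t 1 1 1 = true :=
  ⟨(l 5), by decide +kernel⟩

theorem c_mm_022_a : CertB 0 536870912 0 536870912 587336777 62277027 3 eng mog cd1q0 cd1q2a pd2 true false false .pp 0 2 2
    ndB1q0 ndB1q2a pcB2 Cut.none Ext.none :=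
  certB0 (fam := true) (s1 := false) (s2 := false) (a := 0) (b := 2) (c := 2) (cn := .pp) (n1 := ndB1q0) (n2 := ndB1q2a) (pc := pcB2) (cut := Cut.none) (xt := Ext.none) (P1 := 0) (W1 := 536870912) (P2 := 0) (W2 := 536870912) (P3 := 587336777) (W3 := 62277027) (N0 := 3) (En := eng) (mo := mog) (C1 := cd1q0) (C2 := cd1q2a) (C3 := pd2)
    rfl k0_mm_022_a

noncomputable def f_mm_022_b : ℕ → ℕ → ℕ → ℕ → Bool := onCell 0 536870912 1239849684 370763052 587336777 62277027
    (rowB 3 eng mog cd1q0 cd1q2b pd2 0 true false false .pp 0 2 2 (qsf 0 536870912 1239849684 370763052 2) ndB1q0 ndB1q2b pcB2 Cut.none Ext.none)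

def k0_mm_022_b : ∃ t, chk3 f_mm_022_b t 1 1 1 = true :=
  ⟨(l 5), by decide +kernel⟩

theorem c_mm_022_b : CertB 0 536870912 1239849684 370763052 587336777 62277027 3 eng mog cd1q0 cd1q2b pd2 true false false .pp 0 2 2
    ndB1q0 ndB1q2b pcB2 Cut.none Ext.none :=
  certB0 (fam := true) (s1 := false) (s2 := false) (a := 0) (b := 2) (c := 2) (cn := .pp) (n1 := ndB1q0) (n2 := ndB1q2b) (pc := pcB2) (cut := Cut.none) (xt := Ext.none) (P1 := 0) (W1 := 536870912) (P2 := 1239849684) (W2 := 370763052) (P3 := 587336777) (W3 := 62277027) (N0 := 3) (En := eng) (mo := mog) (C1 := cd1q0) (C2 := cd1q2b) (C3 := pd2)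
    rfl k0_mm_022_b

noncomputable def f_mm_023_a : ℕ → ℕ → ℕ → ℕ → Bool := onCell 0 536870912 0 536870912 587336777 62277027
    (rowB 3 eng mog cd1q0 cd1q2a pd3 0 true false false .up 0 2 3 (qsf 0 536870912 0 536870912 3) ndB1q0 ndB1q2a pcB3 Cut.none Ext.none)

def k0_mm_023_a : ∃ t, chk3 f_mm_023_a t 1 1 1 = true :=
  ⟨(l 5), by decide +kernel⟩

theorem c_mm_023_a : CertB 0 536870912 0 536870912 587336777 62277027 3 eng mog cd1q0 cd1q2a pd3 true false false .up 0 2 3
    ndB1q0 ndB1q2a pcB3 Cut.none Ext.none :=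
  certB0 (fam := true) (s1 := false) (s2 := false) (a := 0) (b := 2) (c := 3) (cn := .up) (n1 := ndB1q0) (n2 := ndB1q2a) (pc := pcB3) (cut := Cut.none) (xt := Ext.none) (P1 := 0) (W1 := 536870912) (P2 := 0) (W2 := 536870912) (P3 := 587336777) (W3 := 62277027) (N0 := 3) (En := eng) (mo := mog) (C1 := cd1q0) (C2 := cd1q2a) (C3 := pd3)
    rfl k0_mm_023_a

noncomputable def f_mm_023_b : ℕ → ℕ → ℕ → ℕ → Bool := onCell 0 536870912 1239849684 370763052 587336777 62277027
    (rowB 3 eng mog cd1q0 cd1q2b pd3 0 true false false .up 0 2 3 (qsf 0 536870912 1239849684 370763052 3) ndB1q0 ndB1q2b pcB3 Cut.none Ext.none)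

def k0_mm_023_b : ∃ t, chk3 f_mm_023_b t 1 1 1 = true :=
  ⟨(l 5), by decide +kernel⟩

theorem c_mm_023_b : CertB 0 536870912 1239849684 370763052 587336777 62277027 3 eng mog cd1q0 cd1q2b pd3 true false false .up 0 2 3
    ndB1q0 ndB1q2b pcB3 Cut.none Ext.none :=
  certB0 (fam := true) (s1 := false) (s2 := false) (a := 0) (b := 2) (c := 3) (cn := .up) (n1 := ndB1q0) (n2 := ndB1q2b) (pc := pcB3) (cut := Cut.none) (xt := Ext.none) (P1 := 0) (W1 := 536870912) (P2 := 1239849684) (W2 := 370763052) (P3 := 587336777) (W3 := 62277027) (N0 := 3) (En := eng) (mo := mog) (C1 := cd1q0) (C2 := cd1q2b) (C3 := pd3)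
    rfl k0_mm_023_b

noncomputable def f_mm_033 : ℕ → ℕ → ℕ → ℕ → Bool := onCell 0 536870912 1610612736 536870912 587336777 62277027
    (rowB 3 eng mog cd1q0 cd1q3 pd3 0 true false false .pnn 0 3 3 (qsf 0 536870912 1610612736 536870912 3) ndB1q0 ndB1q3 pcB3 Cut.none Ext.none)

def k0_mm_033 : ∃ t, chk3 f_mm_033 t 1 1 1 = true :=
  ⟨(l 5), by decide +kernel⟩

theorem c_mm_033 : CertB 0 536870912 1610612736 536870912 587336777 62277027 3 eng mog cd1q0 cd1q3 pd3 true false false .pnn 0 3 3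
    ndB1q0 ndB1q3 pcB3 Cut.none Ext.none :=
  certB0 (fam := true) (s1 := false) (s2 := false) (a := 0) (b := 3) (c := 3) (cn := .pnn) (n1 := ndB1q0) (n2 := ndB1q3) (pc := pcB3) (cut := Cut.none) (xt := Ext.none) (P1 := 0) (W1 := 536870912) (P2 := 1610612736) (W2 := 536870912) (P3 := 587336777) (W3 := 62277027) (N0 := 3) (En := eng) (mo := mog) (C1 := cd1q0) (C2 := cd1q3) (C3 := pd3)
    rfl k0_mm_033

noncomputable def f_mm_101 : ℕ → ℕ → ℕ → ℕ → Bool := onCell 536870912 536870912 0 536870912 587336777 62277027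
    (rowB 3 eng mog cd1q1 cd1q0 pd1 0 true false false .npn 1 0 1 (qsf 536870912 536870912 0 536870912 1) ndB1q1 ndB1q0 pcB1 Cut.none Ext.none)

def k0_mm_101 : ∃ t, chk3 f_mm_101 t 1 1 1 = true :=
  ⟨(l 4), by decide +kernel⟩

theorem c_mm_101 : CertB 536870912 536870912 0 536870912 587336777 62277027 3 eng mog cd1q1 cd1q0 pd1 true false false .npn 1 0 1
    ndB1q1 ndB1q0 pcB1 Cut.none Ext.none :=
  certB0 (fam := true) (s1 := false) (s2 := false) (a := 1) (b := 0) (c := 1) (cn := .npn) (n1 := ndB1q1) (n2 := ndB1q0) (pc := pcB1) (cut := Cut.none) (xt := Ext.none) (P1 := 536870912) (W1 := 536870912) (P2 := 0) (W2 := 536870912) (P3 := 587336777) (W3 := 62277027) (N0 := 3) (En := eng) (mo := mog) (C1 := cd1q1) (C2 := cd1q0) (C3 := pd1)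
    rfl k0_mm_101

noncomputable def f_mm_102 : ℕ → ℕ → ℕ → ℕ → Bool := onCell 536870912 536870912 0 536870912 587336777 62277027
    (rowB 3 eng mog cd1q1 cd1q0 pd2 0 true false false .npp 1 0 2 (qsf 536870912 536870912 0 536870912 2) ndB1q1 ndB1q0 pcB2 Cut.none Ext.none)

def k0_mm_102 : ∃ t, chk3 f_mm_102 t 1 1 1 = true :=
  ⟨(l 4), by decide +kernel⟩

theorem c_mm_102 : CertB 536870912 536870912 0 536870912 587336777 62277027 3 eng mog cd1q1 cd1q0 pd2 true false false .npp 1 0 2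
    ndB1q1 ndB1q0 pcB2 Cut.none Ext.none :=
  certB0 (fam := true) (s1 := false) (s2 := false) (a := 1) (b := 0) (c := 2) (cn := .npp) (n1 := ndB1q1) (n2 := ndB1q0) (pc := pcB2) (cut := Cut.none) (xt := Ext.none) (P1 := 536870912) (W1 := 536870912) (P2 := 0) (W2 := 536870912) (P3 := 587336777) (W3 := 62277027) (N0 := 3) (En := eng) (mo := mog) (C1 := cd1q1) (C2 := cd1q0) (C3 := pd2)
    rfl k0_mm_102

noncomputable def f_mm_112 : ℕ → ℕ → ℕ → ℕ → Bool := onCell 536870912 536870912 536870912 536870912 587336777 62277027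
    (rowB 3 eng mog cd1q1 cd1q1 pd2 0 true false false .dn 1 1 2 (qsf 536870912 536870912 536870912 536870912 2) ndB1q1 ndB1q1 pcB2 Cut.none Ext.none)

def k0_mm_112 : ∃ t, chk3 f_mm_112 t 1 1 1 = true :=
  ⟨(l 4), by decide +kernel⟩

theorem c_mm_112 : CertB 536870912 536870912 536870912 536870912 587336777 62277027 3 eng mog cd1q1 cd1q1 pd2 true false false .dn 1 1 2
    ndB1q1 ndB1q1 pcB2 Cut.none Ext.none :=
  certB0 (fam := true) (s1 := false) (s2 := false) (a := 1) (b := 1) (c := 2) (cn := .dn) (n1 := ndB1q1) (n2 := ndB1q1) (pc := pcB2) (cut := Cut.none) (xt := Ext.none) (P1 := 536870912) (W1 := 536870912) (P2 := 536870912) (W2 := 536870912) (P3 := 587336777) (W3 := 62277027) (N0 := 3) (En := eng) (mo := mog) (C1 := cd1q1) (C2 := cd1q1) (C3 := pd2)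
    rfl k0_mm_112

noncomputable def f_mm_113 : ℕ → ℕ → ℕ → ℕ → Bool := onCell 536870912 536870912 536870912 536870912 587336777 62277027
    (rowB 3 eng mog cd1q1 cd1q1 pd3 0 true false false .nn 1 1 3 (qsf 536870912 536870912 536870912 536870912 3) ndB1q1 ndB1q1 pcB3 Cut.none Ext.none)

def k0_mm_113 : ∃ t, chk3 f_mm_113 t 1 1 1 = true :=
  ⟨(l 4), by decide +kernel⟩

theorem c_mm_113 : CertB 536870912 536870912 536870912 536870912 587336777 62277027 3 eng mog cd1q1 cd1q1 pd3 true false false .nn 1 1 3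
    ndB1q1 ndB1q1 pcB3 Cut.none Ext.none :=
  certB0 (fam := true) (s1 := false) (s2 := false) (a := 1) (b := 1) (c := 3) (cn := .nn) (n1 := ndB1q1) (n2 := ndB1q1) (pc := pcB3) (cut := Cut.none) (xt := Ext.none) (P1 := 536870912) (W1 := 536870912) (P2 := 536870912) (W2 := 536870912) (P3 := 587336777) (W3 := 62277027) (N0 := 3) (En := eng) (mo := mog) (C1 := cd1q1) (C2 := cd1q1) (C3 := pd3)
    rfl k0_mm_113

noncomputable def f_mm_123_a : ℕ → ℕ → ℕ → ℕ → Bool := onCell 536870912 536870912 0 536870912 587336777 62277027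
    (rowB 3 eng mog cd1q1 cd1q2a pd3 0 true false false .npn 1 2 3 (qsf 536870912 536870912 0 536870912 3) ndB1q1 ndB1q2a pcB3 Cut.none Ext.none)

def k0_mm_123_a : ∃ t, chk3 f_mm_123_a t 1 1 1 = true :=
  ⟨(l 5), by decide +kernel⟩

theorem c_mm_123_a : CertB 536870912 536870912 0 536870912 587336777 62277027 3 eng mog cd1q1 cd1q2a pd3 true false false .npn 1 2 3
    ndB1q1 ndB1q2a pcB3 Cut.none Ext.none :=
  certB0 (fam := true) (s1 := false) (s2 := false) (a := 1) (b := 2) (c := 3) (cn := .npn) (n1 := ndB1q1) (n2 := ndB1q2a) (pc := pcB3) (cut := Cut.none) (xt := Ext.none) (P1 := 536870912) (W1 := 536870912) (P2 := 0) (W2 := 536870912) (P3 := 587336777) (W3 := 62277027) (N0 := 3) (En := eng) (mo := mog) (C1 := cd1q1) (C2 := cd1q2a) (C3 := pd3)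
    rfl k0_mm_123_a

noncomputable def f_mm_123_b : ℕ → ℕ → ℕ → ℕ → Bool := onCell 536870912 536870912 1239849684 370763052 587336777 62277027
    (rowB 3 eng mog cd1q1 cd1q2b pd3 0 true false false .npn 1 2 3 (qsf 536870912 536870912 1239849684 370763052 3) ndB1q1 ndB1q2b pcB3 Cut.none Ext.none)

def k0_mm_123_b : ∃ t, chk3 f_mm_123_b t 1 1 1 = true :=
  ⟨(l 5), by decide +kernel⟩

theorem c_mm_123_b : CertB 536870912 536870912 1239849684 370763052 587336777 62277027 3 eng mog cd1q1 cd1q2b pd3 true false false .npn 1 2 3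
    ndB1q1 ndB1q2b pcB3 Cut.none Ext.none :=
  certB0 (fam := true) (s1 := false) (s2 := false) (a := 1) (b := 2) (c := 3) (cn := .npn) (n1 := ndB1q1) (n2 := ndB1q2b) (pc := pcB3) (cut := Cut.none) (xt := Ext.none) (P1 := 536870912) (W1 := 536870912) (P2 := 1239849684) (W2 := 370763052) (P3 := 587336777) (W3 := 62277027) (N0 := 3) (En := eng) (mo := mog) (C1 := cd1q1) (C2 := cd1q2b) (C3 := pd3)
    rfl k0_mm_123_b

noncomputable def f_mm_133 : ℕ → ℕ → ℕ → ℕ → Bool := onCell 536870912 536870912 1610612736 536870912 587336777 62277027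
    (rowB 3 eng mog cd1q1 cd1q3 pd3 0 true false false .dn 1 3 3 (qsf 536870912 536870912 1610612736 536870912 3) ndB1q1 ndB1q3 pcB3 Cut.none Ext.none)

def k0_mm_133 : ∃ t, chk3 f_mm_133 t 1 1 1 = true :=
  ⟨(l 4), by decide +kernel⟩

theorem c_mm_133 : CertB 536870912 536870912 1610612736 536870912 587336777 62277027 3 eng mog cd1q1 cd1q3 pd3 true false false .dn 1 3 3
    ndB1q1 ndB1q3 pcB3 Cut.none Ext.none :=
  certB0 (fam := true) (s1 := false) (s2 := false) (a := 1) (b := 3) (c := 3) (cn := .dn) (n1 := ndB1q1) (n2 := ndB1q3) (pc := pcB3) (cut := Cut.none) (xt := Ext.none) (P1 := 536870912) (W1 := 536870912) (P2 := 1610612736) (W2 := 536870912) (P3 := 587336777) (W3 := 62277027) (N0 := 3) (En := eng) (mo := mog) (C1 := cd1q1) (C2 := cd1q3) (C3 := pd3)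
    rfl k0_mm_133

noncomputable def cut_mm_202_a : Cut := Cut.of [[⟨0, 1, 0, 67108864⟩, ⟨1, 0, 0, 67108864⟩, ⟨2, 1, 0, 67108864⟩]]

noncomputable def f_mm_202_a : ℕ → ℕ → ℕ → ℕ → Bool := onCell 0 536870912 0 536870912 587336777 62277027
    (rowB 3 eng mog cd1q2a cd1q0 pd2 0 true false false .pp 2 0 2 (qsf 0 536870912 0 536870912 2) ndB1q2a ndB1q0 pcB2 cut_mm_202_a Ext.none)

def k0_mm_202_a : ∃ t, chk3 f_mm_202_a t 2 4 1 = true :=
  ⟨(a (b (b (a (b (l 16457472) (l 16463712)) (b (a (l 16463720) (l 16470984)) (a (l 16471200) (l 16458064)))) (a (l 16472320) (a (l 16481936) (l 16470032)))) (b (a (l 16483608) (l 16521360)) (a (l 16519576) (l 16516448)))) (b (b (a (b (a (l 16480560) (b (l 16490536) (l 16494728))) (a (b (l 16486840) (l 16491296)) (a (l 16498016) (l 16504880)))) (b (a (a (b (l 16501048) (l 16505400)) (b (l 16509008) (l 16513480))) (a (c (b (l 16518256) (l 16523328)) (l 16530024)) (b (l 16527112) (l 16531816)))) (a (a (l 16512376) (b (l 16518176) (l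 16523088))) (a (b (l 16527096) (l 16532120)) (b (c (l 16537920) (l 16535920)) (l 16541872)))))) (a (a (b (l 16497904) (l 16506376)) (b (b (l 16529616) (l 16513384)) (l 16520336))) (a (a (b (b (l 16519800) (l 16524864)) (l 16532280)) (b (b (l 16528192) (l 16533424)) (l 16541176))) (a (b (b (l 16537328) (b (l 16541344) (l 16544056))) (b (l 16548104) (l 16553416))) (b (b (l 16547192) (l 16552672)) (b (b (l 16556872) (l 16559664)) (l 16563808))))))) (a (b (a (l 16518440) (b (l 16529296) (l 16537896))) (a (l 16536424) (l 16553120))) (b (a (b (a (l 16541888) (l 16551216)) (l 16577024)) (b (a (l 16561248) (l 16571968)) (a (l 16571384) (l 16582552)))) (b (a (l 16607840) (a (l 16581864) (l 16593472))) (a (l 16578872) (l 16643224))))))), by decide +kernel⟩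

def k1_mm_202_a : ∃ t, chk3 f_mm_202_a t 2 5 1 = true :=
  ⟨(a (b (a (b (l 16518392) (l 16603032)) (b (l 16539600) (l 16562576))) (b (a (l 16561440) (l 16581040)) (a (l 16593856) (l 16612952)))) (b (a (b (a (l 16560848) (l 16557552)) (a (l 16585200) (l 16603688))) (a (b (l 16661808) (l 16624976)) (b (a (l 16657912) (l 16680776)) (a (l 16663840) (l 16697792))))) (a (b (a (l 16605704) (l 16626808)) (l 16640816)) (b (b (a (l 16643504) (l 16668840)) (a (l 16656856) (l 16683472))) (a (l 16678192) (l 16748192)))))), by decide +kernel⟩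

def k2_mm_202_a : ∃ t, chk3 f_mm_202_a t 6 4 1 = true :=
  ⟨(b (a (b (b (a (a (b (l 16532016) (l 16542096)) (b (c (l 16547776) (l 16546736)) (l 16553152))) (a (b (c (l 16558800) (l 16557088)) (l 16564352)) (b (c (l 16570376) (l 16568040)) (l 16575992)))) (a (a (b (l 16549760) (a (l 16549656) (l 16555112))) (b (l 16558320) (l 16563696))) (a (b (l 16570312) (l 16575808)) (b (l 16582448) (l 16588688))))) (a (b (a (b (l 16557824) (l 16563416)) (b (l 16569248) (l 16574960))) (a (b (a (l 16566328) (l 16571960)) (l 16585400)) (b (l 16580808) (a (l 16583696) (l 16589800))))) (b (a (b (l 16581488) (l 16587320)) (l 16597448)) (a (b (l 16593288) (l 16599368)) (l 16609640))))) (b (b (a (b (a (l 16581272) (l 16593776)) (a (l 16588280) (l 16601152))) (b (a (l 16606912) (l 16620936)) (a (l 16614648) (l 16628984)))) (a (a (b (l 16595088) (l 16601720)) (b (l 16608328) (l 16615312))) (a (b (l 16622176) (l 16629528)) (b (l 16636816) (l 16644464))))) (b (a (a (l 16611184) (l 16625504))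 (a (l 16640248) (l 16655624))) (a (a (l 16623624) (l 16638472)) (a (l 16654072) (l 16670016)))))) (a (b (a (b (a (l 16583408) (l 16595592)) (a (l 16594448) (l 16607088))) (b (a (b (c (l 16628096) (l 16646048)) (l 16611560)) (b (l 16619048) (a (l 16621832) (l 16628840)))) (c (l 16628840) (l 16626520)))) (a (b (a (l 16605800) (l 16639848)) (l 16626576)) (b (a (l 16632728) (l 16647288)) (l 16654864)))) (b (a (b (a (b (l 16633232) (l 16639712)) (l 16651592)) (a (l 16649352) (b (l 16661568) (l 16668168)))) (b (b (l 16693344) (l 16700192)) (a (b (l 16677744) (l 16684568)) (l 16718920)))) (b (a (a (l 16662448) (l 16678400)) (a (l 16695104) (a (l 16707888) (l 16737616)))) (a (l 16685848) (a (l 16710864) (l 16728224))))))), by decide +kernel⟩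

def k3_mm_202_a : ∃ t, chk3 f_mm_202_a t 7 4 1 = true :=
  ⟨(b (a (b (a (b (a (b (b (l 16633536) (l 16637768)) (l 16644016)) (b (a (l 16647112) (l 16661344)) (a (l 16655704) (l 16663848)))) (a (b (l 16652160) (l 16660104)) (b (a (l 16664080) (l 16672360)) (l 16689592)))) (b (a (b (b (l 6) (l 16680720)) (b (l 16674664) (l 16679040))) (b (l 6) (b (l 6) (a (l 16692544) (l 6))))) (a (b (c (l 16707744) (l 16694632)) (c (l 16715912) (l 16713832))) (b (a (l 16699104) (l 16718976)) (a (l 16707664) (l 16727624)))))) (a (a (b (a (l 16667584) (l 16675800)) (l 16686664)) (a (b (l 16684200) (l 16699592)) (b (l 16692808) (l 16708448)))) (b (a (b (a (l 16697656) (l 16706728)) (l 16710272)) (b (a (b (l 16713960) (l 16718104)) (l 16725592)) (l 16739544))) (a (c (l 16743352) (l 16732272)) (b (l 16747608) (a (l 16740112) (l 16749480))))))) (b (a (b (l 6) (b (l 6) (a (a (c (l 16737944) (l 16736672)) (b (l 6) (a (l 16736448) (l 16741528)))) (l 6)))) (l 6)) (a (b (a (b (a (l 16735384)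 (l 16745432)) (a (l 16743736) (l 16764216))) (a (b (a (l 16753192) (l 16763528)) (b (l 16772016) (l 16775992))) (b (b (l 6) (b (l 6) (l 16774016))) (l 4)))) (a (b (a (l 16751520) (b (l 16759392) (l 16773856))) (a (l 16769728) (l 4))) (l 4))) (l 4)))) (a (b (a (a (b (l 16701216) (l 16715552)) (b (l 16729592) (c (l 16754984) (l 16754776)))) (a (b (b (l 16733672) (l 16741184)) (b (l 16769696) (l 16766688))) (b (b (b (l 16760960) (l 16764824)) (a (l 16755264) (l 4))) (l 4)))) (a (b (b (a (l 16726328) (l 16745024)) (a (l 16755072) (a (l 16748088) (l 4)))) (a (l 16756680) (l 4))) (l 4))) (l 4))), by decide +kernel⟩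

def k4_mm_202_a : ∃ t, chk3 f_mm_202_a t 3 5 1 = true :=
  ⟨(a (b (a (b (a (b (l 16688336) (l 16697576)) (b (l 16670064) (l 16685240))) (a (b (l 16690856) (l 16683768)) (b (l 16700192) (l 16714744)))) (b (a (b (l 16701624) (l 16717392)) (b (a (l 16727000) (l 16744312)) (a (l 16742832) (l 4)))) (a (b (a (l 16724416) (l 67880457111)) (a (l 16738960) (l 4))) (l 4)))) (a (b (a (b (l 16697272) (l 16733536)) (b (l 16749400) (l 35131496391))) (a (b (l 25467792167) (l 16784448)) (l 4))) (l 4))) (b (l 4) (l 4))), by decide +kernel⟩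

def k5_mm_202_a : ∃ t, chk3 f_mm_202_a t 1 3 1 = true :=
  ⟨(a (a (b (b (b (a (l 16624168) (l 16642976)) (a (l 16651920) (l 16670632))) (a (b (l 16676848) (l 16698424)) (b (l 16695392) (l 16768944)))) (l 2)) (b (b (a (b (l 16688200) (a (l 16684896) (l 16709480))) (b (a (l 16728488) (c (l 16807416) (l 32447190807))) (a (b (l 16729192) (l 16742016)) (l 4)))) (a (b (a (l 16712296) (l 16799968)) (a (l 16782824) (l 4))) (l 4))) (l 4))) (b (a (l 4) (l 4)) (l 4))), by decide +kernel⟩

theorem s6_mm_202_a : ∃ t, chk3 f_mm_202_a t 3 4 1 = true := ex3_a k2_mm_202_a k3_mm_202_a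

theorem s7_mm_202_a : ∃ t, chk3 f_mm_202_a t 3 2 1 = true := ex3_b s6_mm_202_a k4_mm_202_a

theorem s8_mm_202_a : ∃ t, chk3 f_mm_202_a t 2 2 1 = true := ex3_b k0_mm_202_a k1_mm_202_a

theorem s9_mm_202_a : ∃ t, chk3 f_mm_202_a t 1 2 1 = true := ex3_a s8_mm_202_a s7_mm_202_a

theorem s10_mm_202_a : ∃ t, chk3 f_mm_202_a t 1 1 1 = true := ex3_b s9_mm_202_a k5_mm_202_a

theorem c_mm_202_a : CertB 0 536870912 0 536870912 587336777 62277027 3 eng mog cd1q2a cd1q0 pd2 true false false .pp 2 0 2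
    ndB1q2a ndB1q0 pcB2 cut_mm_202_a Ext.none :=
  certB0 (fam := true) (s1 := false) (s2 := false) (a := 2) (b := 0) (c := 2) (cn := .pp) (n1 := ndB1q2a) (n2 := ndB1q0) (pc := pcB2) (cut := cut_mm_202_a) (xt := Ext.none) (P1 := 0) (W1 := 536870912) (P2 := 0) (W2 := 536870912) (P3 := 587336777) (W3 := 62277027) (N0 := 3) (En := eng) (mo := mog) (C1 := cd1q2a) (C2 := cd1q0) (C3 := pd2)
    rfl s10_mm_202_a

noncomputable def cut_mm_202_b : Cut := Cut.of [[⟨0, 1, 0, 67108864⟩, ⟨1, 0, 0, 67108864⟩, ⟨2, 1, 0, 67108864⟩]]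

noncomputable def f_mm_202_b : ℕ → ℕ → ℕ → ℕ → Bool := onCell 1239849684 370763052 1073741824 536870912 587336777 62277027
    (rowB 3 eng mog cd1q2b cd1q0 pd2 1 true false false .pp 2 0 2 (qsf 1239849684 370763052 0 536870912 2) ndB1q2b ndB1q0 pcB2 cut_mm_202_b Ext.none)

def k0_mm_202_b : ∃ t, chk3 f_mm_202_b t 1 1 1 = true :=
  ⟨(b (a (b (l 1) (a (a (b (b (a (l 16421416) (l 1)) (b (l 16498224) (l 16472264))) (b (a (l 16443992) (l 16393608)) (l 16433152))) (b (l 1) (b (b (l 16312208) (l 16336224)) (a (l 16358864) (l 16308216))))) (b (l 1) (b (l 1) (a (l 16251976) (l 1)))))) (l 1)) (a (b (b (a (a (b (l 16448792) (l 16486344)) (b (l 16352264) (l 16371496))) (a (b (l 16273488) (l 16274760)) (b (l 1) (l 16175160)))) (a (b (a (l 16575536) (l 16414856)) (a (l 16516304) (l 16432552))) (b (a (b (l 16291376) (l 16306968)) (l 16202360)) (a (l 16341432) (l 16248000))))) (b (a (a (b (l 16551664) (l 16584832)) (b (l 16473728) (l 16512992))) (b (a (l 16388216) (l 16298656))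 (l 16392536))) (a (a (b (l 16615256) (l 16642680)) (b (l 16549800) (l 16583576))) (b (l 16438336) (l 16481000))))) (b (a (b (l 1) (b (a (l 16103184) (l 1)) (a (l 16152456) (l 16055440)))) (l 1)) (b (a (b (l 16162912) (l 16220488)) (b (l 1) (l 16045504))) (a (b (l 16276096) (l 16328664)) (b (l 16111312) (l 16172952))))))), by decide +kernel⟩

theorem c_mm_202_b : CertB 1239849684 370763052 0 536870912 587336777 62277027 3 eng mog cd1q2b cd1q0 pd2 true false false .pp 2 0 2
    ndB1q2b ndB1q0 pcB2 cut_mm_202_b Ext.none :=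
  certB1 (fam := true) (s1 := false) (s2 := false) (a := 2) (b := 0) (c := 2) (cn := .pp) (n1 := ndB1q2b) (n2 := ndB1q0) (pc := pcB2) (cut := cut_mm_202_b) (xt := Ext.none) (P1 := 1239849684) (W1 := 370763052) (P2 := 0) (W2 := 536870912) (P3 := 587336777) (W3 := 62277027) (N0 := 3) (En := eng) (mo := mog) (C1 := cd1q2b) (C2 := cd1q0) (C3 := pd2)
    rfl (fun _ => rfl) k0_mm_202_b

noncomputable def f_mm_203_a : ℕ → ℕ → ℕ → ℕ → Bool := onCell 0 536870912 1610612736 536870912 587336777 62277027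
    (rowB 3 eng mog cd1q2a cd1q0 pd3 1 true false false .up 2 0 3 (qsf 0 536870912 0 536870912 3) ndB1q2a ndB1q0 pcB3 Cut.none Ext.none)

def k0_mm_203_a : ∃ t, chk3 f_mm_203_a t 1 1 1 = true :=
  ⟨(a (b (b (b (a (b (a (l 16697608) (l 16761904)) (a (l 16703872) (b (l 16739552) (l 16754584)))) (a (b (a (l 16814184) (l 4)) (l 4)) (l 4))) (a (b (a (l 16739616) (l 45869040583)) (a (b (l 16761552) (l 16771832)) (l 4))) (l 4))) (b (a (a (b (a (l 16777608) (l 4)) (l 2)) (l 4)) (l 4)) (l 2))) (l 2)) (l 4)), by decide +kernel⟩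

theorem c_mm_203_a : CertB 0 536870912 0 536870912 587336777 62277027 3 eng mog cd1q2a cd1q0 pd3 true false false .up 2 0 3
    ndB1q2a ndB1q0 pcB3 Cut.none Ext.none :=
  certB1 (fam := true) (s1 := false) (s2 := false) (a := 2) (b := 0) (c := 3) (cn := .up) (n1 := ndB1q2a) (n2 := ndB1q0) (pc := pcB3) (cut := Cut.none) (xt := Ext.none) (P1 := 0) (W1 := 536870912) (P2 := 0) (W2 := 536870912) (P3 := 587336777) (W3 := 62277027) (N0 := 3) (En := eng) (mo := mog) (C1 := cd1q2a) (C2 := cd1q0) (C3 := pd3)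
    rfl (fun _ => rfl) k0_mm_203_a

noncomputable def f_mm_203_b : ℕ → ℕ → ℕ → ℕ → Bool := onCell 1239849684 370763052 1610612736 536870912 587336777 62277027
    (rowB 3 eng mog cd1q2b cd1q0 pd3 1 true false false .up 2 0 3 (qsf 1239849684 370763052 0 536870912 3) ndB1q2b ndB1q0 pcB3 Cut.none Ext.none)

def k0_mm_203_b : ∃ t, chk3 f_mm_203_b t 1 1 1 = true :=
  ⟨(b (b (a (b (a (a (b (l 16664416) (l 16675912)) (l 16746528)) (b (l 16517392) (l 16545304))) (a (b (l 16775560) (a (l 16711920) (l 16670232))) (b (l 16573992) (l 16604288)))) (b (a (l 16559552) (l 16243480)) (b (l 16612928) (a (l 16491272) (l 16361312))))) (a (b (a (b (a (l 16739408) (l 16696728)) (l 4)) (l 4)) (l 4)) (l 4))) (l 4)), by decide +kernel⟩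

theorem c_mm_203_b : CertB 1239849684 370763052 0 536870912 587336777 62277027 3 eng mog cd1q2b cd1q0 pd3 true false false .up 2 0 3
    ndB1q2b ndB1q0 pcB3 Cut.none Ext.none :=
  certB1 (fam := true) (s1 := false) (s2 := false) (a := 2) (b := 0) (c := 3) (cn := .up) (n1 := ndB1q2b) (n2 := ndB1q0) (pc := pcB3) (cut := Cut.none) (xt := Ext.none) (P1 := 1239849684) (W1 := 370763052) (P2 := 0) (W2 := 536870912) (P3 := 587336777) (W3 := 62277027) (N0 := 3) (En := eng) (mo := mog) (C1 := cd1q2b) (C2 := cd1q0) (C3 := pd3)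
    rfl (fun _ => rfl) k0_mm_203_b

noncomputable def f_mm_213_a : ℕ → ℕ → ℕ → ℕ → Bool := onCell 0 536870912 536870912 536870912 587336777 62277027
    (rowB 3 eng mog cd1q2a cd1q1 pd3 0 true false false .pnn 2 1 3 (qsf 0 536870912 536870912 536870912 3) ndB1q2a ndB1q1 pcB3 Cut.none Ext.none)

def k0_mm_213_a : ∃ t, chk3 f_mm_213_a t 1 1 1 = true :=
  ⟨(a (a (b (b (l 4) (l 4)) (l 4)) (l 4)) (l 4)), by decide +kernel⟩

theorem c_mm_213_a : CertB 0 536870912 536870912 536870912 587336777 62277027 3 eng mog cd1q2a cd1q1 pd3 true false false .pnn 2 1 3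
    ndB1q2a ndB1q1 pcB3 Cut.none Ext.none :=
  certB0 (fam := true) (s1 := false) (s2 := false) (a := 2) (b := 1) (c := 3) (cn := .pnn) (n1 := ndB1q2a) (n2 := ndB1q1) (pc := pcB3) (cut := Cut.none) (xt := Ext.none) (P1 := 0) (W1 := 536870912) (P2 := 536870912) (W2 := 536870912) (P3 := 587336777) (W3 := 62277027) (N0 := 3) (En := eng) (mo := mog) (C1 := cd1q2a) (C2 := cd1q1) (C3 := pd3)
    rfl k0_mm_213_a

noncomputable def f_mm_213_b : ℕ → ℕ → ℕ → ℕ → Bool := onCell 1239849684 370763052 536870912 536870912 587336777 62277027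
    (rowB 3 eng mog cd1q2b cd1q1 pd3 0 true false false .pnn 2 1 3 (qsf 1239849684 370763052 536870912 536870912 3) ndB1q2b ndB1q1 pcB3 Cut.none Ext.none)

def k0_mm_213_b : ∃ t, chk3 f_mm_213_b t 1 1 1 = true :=
  ⟨(b (a (b (a (l 4) (l 4)) (l 4)) (l 4)) (l 4)), by decide +kernel⟩

theorem c_mm_213_b : CertB 1239849684 370763052 536870912 536870912 587336777 62277027 3 eng mog cd1q2b cd1q1 pd3 true false false .pnn 2 1 3
    ndB1q2b ndB1q1 pcB3 Cut.none Ext.none :=
  certB0 (fam := true) (s1 := false) (s2 := false) (a := 2) (b := 1) (c := 3) (cn := .pnn) (n1 := ndB1q2b) (n2 := ndB1q1) (pc := pcB3) (cut := Cut.none) (xt := Ext.none) (P1 := 1239849684) (W1 := 370763052) (P2 := 536870912) (W2 := 536870912) (P3 := 587336777) (W3 := 62277027) (N0 := 3) (En := eng) (mo := mog) (C1 := cd1q2b) (C2 := cd1q1) (C3 := pd3)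
    rfl k0_mm_213_b

noncomputable def f_mm_303 : ℕ → ℕ → ℕ → ℕ → Bool := onCell 1610612736 536870912 0 536870912 587336777 62277027
    (rowB 3 eng mog cd1q3 cd1q0 pd3 2 true false false .npn 3 0 3 (qsf 1610612736 536870912 0 536870912 3) ndB1q3 ndB1q0 pcB3 Cut.none Ext.none)

def k0_mm_303 : ∃ t, chk3 f_mm_303 t 1 1 1 = true :=
  ⟨(a (a (b (a (b (l 176663439703) (l 1)) (b (a (l 16230632) (l 16274184)) (l 342556590823))) (l 1)) (b (l 4) (a (l 1) (l 4)))) (l 4)), by decide +kernel⟩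

theorem c_mm_303 : CertB 1610612736 536870912 0 536870912 587336777 62277027 3 eng mog cd1q3 cd1q0 pd3 true false false .npn 3 0 3
    ndB1q3 ndB1q0 pcB3 Cut.none Ext.none :=
  certB2 (fam := true) (s1 := false) (s2 := false) (a := 3) (b := 0) (c := 3) (cn := .npn) (n1 := ndB1q3) (n2 := ndB1q0) (pc := pcB3) (cut := Cut.none) (xt := Ext.none) (P1 := 1610612736) (W1 := 536870912) (P2 := 0) (W2 := 536870912) (P3 := 587336777) (W3 := 62277027) (N0 := 3) (En := eng) (mo := mog) (C1 := cd1q3) (C2 := cd1q0) (C3 := pd3)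
    rfl (fun _ => rfl) k0_mm_303

noncomputable def f_mm_313 : ℕ → ℕ → ℕ → ℕ → Bool := onCell 1610612736 536870912 536870912 536870912 587336777 62277027
    (rowB 3 eng mog cd1q3 cd1q1 pd3 0 true false false .dn 3 1 3 (qsf 1610612736 536870912 536870912 536870912 3) ndB1q3 ndB1q1 pcB3 Cut.none Ext.none)

def k0_mm_313 : ∃ t, chk3 f_mm_313 t 1 1 1 = true :=
  ⟨(l 4), by decide +kernel⟩

theorem c_mm_313 : CertB 1610612736 536870912 536870912 536870912 587336777 62277027 3 eng mog cd1q3 cd1q1 pd3 true false false .dn 3 1 3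
    ndB1q3 ndB1q1 pcB3 Cut.none Ext.none :=
  certB0 (fam := true) (s1 := false) (s2 := false) (a := 3) (b := 1) (c := 3) (cn := .dn) (n1 := ndB1q3) (n2 := ndB1q1) (pc := pcB3) (cut := Cut.none) (xt := Ext.none) (P1 := 1610612736) (W1 := 536870912) (P2 := 536870912) (W2 := 536870912) (P3 := 587336777) (W3 := 62277027) (N0 := 3) (En := eng) (mo := mog) (C1 := cd1q3) (C2 := cd1q1) (C3 := pd3)
    rfl k0_mm_313

end Pool.Agent.Strip051.G.I5470_6050.Tab.C.BA11

namespace Pool.Agent.Strip051.G.I5470_6050.Tab.C.BA12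

open Pool.Agent.Strip051.PB Pool.Agent.Strip051.PB.T
open Pool.Agent.Strip051.G.I5470_6050.Tab

noncomputable def f_pp_001 : ℕ → ℕ → ℕ → ℕ → Bool := onCell 0 536870912 0 536870912 587336777 62277027
    (rowB 3 eng mog cd1q0 cd2q0 pd1 0 true true true .up 0 0 1 (qsf 0 536870912 0 536870912 1) ndB1q0 ndB2q0 pcB1 Cut.none Ext.none)

def k0_pp_001 : ∃ t, chk3 f_pp_001 t 1 1 1 = true :=
  ⟨(l 4), by decide +kernel⟩

theorem c_pp_001 : CertB 0 536870912 0 536870912 587336777 62277027 3 eng mog cd1q0 cd2q0 pd1 true true true .up 0 0 1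
    ndB1q0 ndB2q0 pcB1 Cut.none Ext.none :=
  certB0 (fam := true) (s1 := true) (s2 := true) (a := 0) (b := 0) (c := 1) (cn := .up) (n1 := ndB1q0) (n2 := ndB2q0) (pc := pcB1) (cut := Cut.none) (xt := Ext.none) (P1 := 0) (W1 := 536870912) (P2 := 0) (W2 := 536870912) (P3 := 587336777) (W3 := 62277027) (N0 := 3) (En := eng) (mo := mog) (C1 := cd1q0) (C2 := cd2q0) (C3 := pd1)
    rfl k0_pp_001

noncomputable def f_pp_011 : ℕ → ℕ → ℕ → ℕ → Bool := onCell 0 536870912 536870912 536870912 587336777 62277027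
    (rowB 3 eng mog cd1q0 cd2q1 pd1 0 true true true .pnn 0 1 1 (qsf 0 536870912 536870912 536870912 1) ndB1q0 ndB2q1 pcB1 Cut.none Ext.none)

def k0_pp_011 : ∃ t, chk3 f_pp_011 t 1 1 1 = true :=
  ⟨(l 4), by decide +kernel⟩

theorem c_pp_011 : CertB 0 536870912 536870912 536870912 587336777 62277027 3 eng mog cd1q0 cd2q1 pd1 true true true .pnn 0 1 1
    ndB1q0 ndB2q1 pcB1 Cut.none Ext.none :=
  certB0 (fam := true) (s1 := true) (s2 := true) (a := 0) (b := 1) (c := 1) (cn := .pnn) (n1 := ndB1q0) (n2 := ndB2q1) (pc := pcB1) (cut := Cut.none) (xt := Ext.none) (P1 := 0) (W1 := 536870912) (P2 := 536870912) (W2 := 536870912) (P3 := 587336777) (W3 := 62277027) (N0 := 3) (En := eng) (mo := mog) (C1 := cd1q0) (C2 := cd2q1) (C3 := pd1)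
    rfl k0_pp_011

noncomputable def f_pp_012 : ℕ → ℕ → ℕ → ℕ → Bool := onCell 0 536870912 536870912 536870912 587336777 62277027
    (rowB 3 eng mog cd1q0 cd2q1 pd2 0 true true true .pnp 0 1 2 (qsf 0 536870912 536870912 536870912 2) ndB1q0 ndB2q1 pcB2 Cut.none Ext.none)

def k0_pp_012 : ∃ t, chk3 f_pp_012 t 1 1 1 = true :=
  ⟨(l 4), by decide +kernel⟩

theorem c_pp_012 : CertB 0 536870912 536870912 536870912 587336777 62277027 3 eng mog cd1q0 cd2q1 pd2 true true true .pnp 0 1 2
    ndB1q0 ndB2q1 pcB2 Cut.none Ext.none :=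
  certB0 (fam := true) (s1 := true) (s2 := true) (a := 0) (b := 1) (c := 2) (cn := .pnp) (n1 := ndB1q0) (n2 := ndB2q1) (pc := pcB2) (cut := Cut.none) (xt := Ext.none) (P1 := 0) (W1 := 536870912) (P2 := 536870912) (W2 := 536870912) (P3 := 587336777) (W3 := 62277027) (N0 := 3) (En := eng) (mo := mog) (C1 := cd1q0) (C2 := cd2q1) (C3 := pd2)
    rfl k0_pp_012

noncomputable def cut_pp_022_a : Cut := Cut.of [[⟨0, 0, 0, 67108864⟩, ⟨1, 1, 0, 67108864⟩, ⟨2, 1, 0, 67108864⟩]]

noncomputable def f_pp_022_a : ℕ → ℕ → ℕ → ℕ → Bool := onCell 0 536870912 0 536870912 587336777 62277027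
    (rowB 3 eng mog cd1q0 cd2q2a pd2 0 true true true .pp 0 2 2 (qsf 0 536870912 0 536870912 2) ndB1q0 ndB2q2a pcB2 cut_pp_022_a Ext.none)

def k0_pp_022_a : ∃ t, chk3 f_pp_022_a t 2 2 1 = true :=
  ⟨(a (a (b (a (b (a (b (l 16457048) (l 16459624)) (l 16466784)) (a (b (l 16464512) (l 16471768)) (b (l 16473624) (a (l 16478920) (l 16483792))))) (b (l 16478640) (a (l 16528784) (l 16495680)))) (a (b (a (b (l 16481448) (l 16493608)) (a (a (l 16514904) (l 16496520)) (b (l 16494032) (l 16506672)))) (a (b (l 16508328) (l 16525720)) (b (l 16519056) (l 16536824)))) (b (a (b (l 16501640) (a (l 16533080) (l 16517464))) (b (l 16511480) (l 16525336))) (a (a (b (b (l 16523320) (l 16531664)) (l 16545560)) (b (l 16575184) (l 16551536))) (b (l 16541664) (a (b (l 16552536) (l 16562496)) (l 16563480))))))) (b (a (b (l 16493168) (l 16529248)) (b (l 16509728) (l 16526936))) (a (b (a (l 16570352) (l 16537848)) (b (l 16584184) (b (l 16572608) (l 16583256)))) (b (a (l 16547672) (l 16560952))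 (a (l 16616304) (l 16620160)))))) (b (a (a (b (l 16533496) (l 16552192)) (b (l 16556496) (l 16597512))) (a (b (l 16581032) (l 16603704)) (l 16707968))) (a (a (b (l 16623256) (a (l 16634768) (l 16628216))) (b (l 16688608) (c (l 16713112) (l 16711040)))) (b (a (a (l 16626456) (l 16642656)) (l 16740168)) (a (b (a (l 16656144) (l 16672264)) (a (l 16680000) (l 16739472))) (b (l 56069393911) (l 4))))))), by decide +kernel⟩

def k1_pp_022_a : ∃ t, chk3 f_pp_022_a t 4 6 1 = true :=
  ⟨(a (a (a (b (b (a (l 16542656) (l 16548656)) (a (l 16564496) (l 16571232))) (b (a (l 16588832) (l 16596120)) (a (b (l 16608648) (l 16622800)) (l 16634112)))) (b (b (l 16557336) (l 16580712)) (b (l 16616728) (b (l 16627576) (l 16642416))))) (b (a (b (l 16569448) (l 16593232)) (b (a (l 16578816) (l 16585112)) (b (l 16599744) (l 16612584)))) (a (b (l 16619952) (c (l 16670704) (l 16670584))) (b (l 16633376) (b (l 16655616) (l 16671456)))))) (a (b (b (b (l 16594560) (l 16617024)) (a (a (l 16637040)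 (l 16622624)) (l 16632320))) (b (a (b (l 16639744) (l 16654352)) (a (l 16678352) (l 16664192))) (b (a (l 16669712) (l 16715376)) (a (l 16685824) (l 16721304))))) (b (b (a (l 16619064) (l 16634208)) (a (l 16645552) (l 16661184))) (a (b (l 16674776) (a (a (l 16744312) (l 16725576)) (l 16731520))) (b (l 16711672) (b (l 16714264) (l 4))))))), by decide +kernel⟩

def k2_pp_022_a : ∃ t, chk3 f_pp_022_a t 4 7 1 = true :=
  ⟨(a (b (a (a (b (a (b (l 16637640) (l 16674200)) (b (l 16645912) (l 16682752))) (b (a (a (l 6) (l 16672232)) (a (l 16676608) (l 16680928))) (a (l 6) (b (l 16692136) (l 6))))) (b (b (l 16668440) (b (l 16670040) (l 16678400))) (b (a (a (l 16685208) (l 16710400)) (l 16695680)) (a (b (l 16721792) (c (l 16731624) (l 16709568))) (l 16724496))))) (b (a (b (l 16673424) (l 16700704)) (b (l 16688064) (l 16715888))) (a (b (a (l 16703856) (l 16711864)) (a (l 16722352) (l 16740416))) (b (a (l 16719272) (l 16726864)) (a (b (l 16732848) (l 16742368)) (l 4))))))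 (a (b (a (l 6) (b (a (l 6) (a (l 16741608) (l 16745904))) (l 6))) (l 6)) (b (a (b (a (b (l 16736416) (l 16756544)) (b (l 16744112) (l 4))) (b (a (c (l 16766584) (l 16761344)) (l 4)) (l 4))) (l 4)) (l 4)))) (b (a (b (b (a (l 16702704) (l 16738504)) (a (a (l 16716576) (l 16724176)) (l 4))) (a (b (a (l 16734656) (l 4)) (l 4)) (l 4))) (l 4)) (l 4))), by decide +kernel⟩

def k3_pp_022_a : ∃ t, chk3 f_pp_022_a t 5 3 1 = true :=
  ⟨(b (a (b (a (b (l 16678320) (a (l 16677120) (l 16692552))) (b (l 16738824) (a (l 16727968) (l 4)))) (a (b (a (l 16727568) (l 4)) (l 4)) (l 4))) (l 4)) (l 4)), by decide +kernel⟩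

def k4_pp_022_a : ∃ t, chk3 f_pp_022_a t 3 1 1 = true :=
  ⟨(b (b (a (a (a (b (l 16643248) (l 16665920)) (b (l 16670880) (l 13119800007))) (b (a (l 16695640) (a (l 16712776) (l 2))) (a (b (l 16715496) (l 4)) (l 4)))) (l 2)) (a (a (b (a (b (l 16689096) (l 46405791687)) (b (l 40500229095) (l 4))) (l 4)) (l 4)) (l 4))) (l 4)), by decide +kernel⟩

theorem s5_pp_022_a : ∃ t, chk3 f_pp_022_a t 4 3 1 = true := ex3_b k1_pp_022_a k2_pp_022_a

theorem s6_pp_022_a : ∃ t, chk3 f_pp_022_a t 2 3 1 = true := ex3_a s5_pp_022_a k3_pp_022_a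

theorem s7_pp_022_a : ∃ t, chk3 f_pp_022_a t 2 1 1 = true := ex3_b k0_pp_022_a s6_pp_022_a

theorem s8_pp_022_a : ∃ t, chk3 f_pp_022_a t 1 1 1 = true := ex3_a s7_pp_022_a k4_pp_022_a

theorem c_pp_022_a : CertB 0 536870912 0 536870912 587336777 62277027 3 eng mog cd1q0 cd2q2a pd2 true true true .pp 0 2 2
    ndB1q0 ndB2q2a pcB2 cut_pp_022_a Ext.none :=
  certB0 (fam := true) (s1 := true) (s2 := true) (a := 0) (b := 2) (c := 2) (cn := .pp) (n1 := ndB1q0) (n2 := ndB2q2a) (pc := pcB2) (cut := cut_pp_022_a) (xt := Ext.none) (P1 := 0) (W1 := 536870912) (P2 := 0) (W2 := 536870912) (P3 := 587336777) (W3 := 62277027) (N0 := 3) (En := eng) (mo := mog) (C1 := cd1q0) (C2 := cd2q2a) (C3 := pd2)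
    rfl s8_pp_022_a

noncomputable def cut_pp_022_b : Cut := Cut.of [[⟨0, 0, 0, 67108864⟩, ⟨1, 1, 0, 67108864⟩, ⟨2, 1, 0, 67108864⟩]]

noncomputable def f_pp_022_b : ℕ → ℕ → ℕ → ℕ → Bool := onCell 1073741824 536870912 1239849684 370763052 587336777 62277027
    (rowB 3 eng mog cd1q0 cd2q2b pd2 2 true true true .pp 0 2 2 (qsf 0 536870912 1239849684 370763052 2) ndB1q0 ndB2q2b pcB2 cut_pp_022_b Ext.none)

def k0_pp_022_b : ∃ t, chk3 f_pp_022_b t 1 1 1 = true :=
  ⟨(a (b (a (l 1) (b (a (b (a (l 16518248) (b (a (b (l 16443648) (l 16416376)) (l 16437744)) (l 16417056))) (l 1)) (b (a (b (l 16448544) (l 16393200)) (l 16433888)) (a (l 16415040) (l 16348008)))) (a (l 1) (a (l 1) (b (l 16219480) (l 1)))))) (l 1)) (b (a (b (a (b (a (l 16451160) (l 16471840)) (a (l 16346280) (l 16368216))) (a (b (l 16495384) (l 16394984)) (b (l 16529120) (l 16433216)))) (a (a (b (l 16240096) (l 1)) (b (l 16263512) (l 16157720))) (a (a (l 16231136) (l 16248232)) (b (l 16331936) (l 16230096)))))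 (a (a (b (b (l 16564016) (l 16473136)) (b (l 16376232) (l 16276752))) (b (b (l 16596920) (l 16511520)) (l 16435720))) (b (a (b (l 16627224) (l 16547640)) (b (l 16654592) (l 16580768))) (a (l 16437472) (l 16478368))))) (a (b (a (l 1) (a (b (l 16082192) (l 1)) (b (l 16127952) (l 16025376)))) (l 1)) (a (b (a (l 16254672) (l 16180496)) (a (l 1) (l 15990944))) (b (a (l 16231192) (l 16279696)) (a (l 16048240) (l 16102576))))))), by decide +kernel⟩

theorem c_pp_022_b : CertB 0 536870912 1239849684 370763052 587336777 62277027 3 eng mog cd1q0 cd2q2b pd2 true true true .pp 0 2 2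
    ndB1q0 ndB2q2b pcB2 cut_pp_022_b Ext.none :=
  certB2 (fam := true) (s1 := true) (s2 := true) (a := 0) (b := 2) (c := 2) (cn := .pp) (n1 := ndB1q0) (n2 := ndB2q2b) (pc := pcB2) (cut := cut_pp_022_b) (xt := Ext.none) (P1 := 0) (W1 := 536870912) (P2 := 1239849684) (W2 := 370763052) (P3 := 587336777) (W3 := 62277027) (N0 := 3) (En := eng) (mo := mog) (C1 := cd1q0) (C2 := cd2q2b) (C3 := pd2)
    rfl (fun _ => rfl) k0_pp_022_b

noncomputable def f_pp_023_a : ℕ → ℕ → ℕ → ℕ → Bool := onCell 1610612736 536870912 0 536870912 587336777 62277027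
    (rowB 3 eng mog cd1q0 cd2q2a pd3 2 true true true .up 0 2 3 (qsf 0 536870912 0 536870912 3) ndB1q0 ndB2q2a pcB3 Cut.none Ext.none)

def k0_pp_023_a : ∃ t, chk3 f_pp_023_a t 1 1 1 = true :=
  ⟨(a (a (b (a (b (b (a (l 16762968) (l 16341067975)) (l 4)) (l 4)) (l 4)) (l 4)) (l 4)) (l 2)), by decide +kernel⟩

theorem c_pp_023_a : CertB 0 536870912 0 536870912 587336777 62277027 3 eng mog cd1q0 cd2q2a pd3 true true true .up 0 2 3
    ndB1q0 ndB2q2a pcB3 Cut.none Ext.none :=
  certB2 (fam := true) (s1 := true) (s2 := true) (a := 0) (b := 2) (c := 3) (cn := .up) (n1 := ndB1q0) (n2 := ndB2q2a) (pc := pcB3) (cut := Cut.none) (xt := Ext.none) (P1 := 0) (W1 := 536870912) (P2 := 0) (W2 := 536870912) (P3 := 587336777) (W3 := 62277027) (N0 := 3) (En := eng) (mo := mog) (C1 := cd1q0) (C2 := cd2q2a) (C3 := pd3)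
    rfl (fun _ => rfl) k0_pp_023_a

noncomputable def f_pp_023_b : ℕ → ℕ → ℕ → ℕ → Bool := onCell 1610612736 536870912 1239849684 370763052 587336777 62277027
    (rowB 3 eng mog cd1q0 cd2q2b pd3 2 true true true .up 0 2 3 (qsf 0 536870912 1239849684 370763052 3) ndB1q0 ndB2q2b pcB3 Cut.none Ext.none)

def k0_pp_023_b : ∃ t, chk3 f_pp_023_b t 1 1 1 = true :=
  ⟨(a (a (b (a (b (a (b (l 16677408) (l 16609400)) (b (l 16760592) (l 16637896))) (a (l 16535928) (l 16533040))) (l 4)) (a (a (b (l 16324128) (l 16150992)) (b (l 4) (l 16203960))) (l 4))) (l 4)) (l 4)), by decide +kernel⟩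

theorem c_pp_023_b : CertB 0 536870912 1239849684 370763052 587336777 62277027 3 eng mog cd1q0 cd2q2b pd3 true true true .up 0 2 3
    ndB1q0 ndB2q2b pcB3 Cut.none Ext.none :=
  certB2 (fam := true) (s1 := true) (s2 := true) (a := 0) (b := 2) (c := 3) (cn := .up) (n1 := ndB1q0) (n2 := ndB2q2b) (pc := pcB3) (cut := Cut.none) (xt := Ext.none) (P1 := 0) (W1 := 536870912) (P2 := 1239849684) (W2 := 370763052) (P3 := 587336777) (W3 := 62277027) (N0 := 3) (En := eng) (mo := mog) (C1 := cd1q0) (C2 := cd2q2b) (C3 := pd3)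
    rfl (fun _ => rfl) k0_pp_023_b

noncomputable def f_pp_033 : ℕ → ℕ → ℕ → ℕ → Bool := onCell 0 536870912 1610612736 536870912 587336777 62277027
    (rowB 3 eng mog cd1q0 cd2q3 pd3 1 true true true .pnn 0 3 3 (qsf 0 536870912 1610612736 536870912 3) ndB1q0 ndB2q3 pcB3 Cut.none Ext.none)

def k0_pp_033 : ∃ t, chk3 f_pp_033 t 1 1 1 = true :=
  ⟨(b (b (a (b (a (b (l 16189792) (l 16191856)) (l 1)) (l 4)) (l 1)) (l 4)) (l 4)), by decide +kernel⟩

theorem c_pp_033 : CertB 0 536870912 1610612736 536870912 587336777 62277027 3 eng mog cd1q0 cd2q3 pd3 true true true .pnn 0 3 3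
    ndB1q0 ndB2q3 pcB3 Cut.none Ext.none :=
  certB1 (fam := true) (s1 := true) (s2 := true) (a := 0) (b := 3) (c := 3) (cn := .pnn) (n1 := ndB1q0) (n2 := ndB2q3) (pc := pcB3) (cut := Cut.none) (xt := Ext.none) (P1 := 0) (W1 := 536870912) (P2 := 1610612736) (W2 := 536870912) (P3 := 587336777) (W3 := 62277027) (N0 := 3) (En := eng) (mo := mog) (C1 := cd1q0) (C2 := cd2q3) (C3 := pd3)
    rfl (fun _ => rfl) k0_pp_033

noncomputable def f_pp_101 : ℕ → ℕ → ℕ → ℕ → Bool := onCell 536870912 536870912 0 536870912 587336777 62277027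
    (rowB 3 eng mog cd1q1 cd2q0 pd1 0 true true true .npn 1 0 1 (qsf 536870912 536870912 0 536870912 1) ndB1q1 ndB2q0 pcB1 Cut.none Ext.none)

def k0_pp_101 : ∃ t, chk3 f_pp_101 t 1 1 1 = true :=
  ⟨(l 4), by decide +kernel⟩

theorem c_pp_101 : CertB 536870912 536870912 0 536870912 587336777 62277027 3 eng mog cd1q1 cd2q0 pd1 true true true .npn 1 0 1
    ndB1q1 ndB2q0 pcB1 Cut.none Ext.none :=
  certB0 (fam := true) (s1 := true) (s2 := true) (a := 1) (b := 0) (c := 1) (cn := .npn) (n1 := ndB1q1) (n2 := ndB2q0) (pc := pcB1) (cut := Cut.none) (xt := Ext.none) (P1 := 536870912) (W1 := 536870912) (P2 := 0) (W2 := 536870912) (P3 := 587336777) (W3 := 62277027) (N0 := 3) (En := eng) (mo := mog) (C1 := cd1q1) (C2 := cd2q0) (C3 := pd1)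
    rfl k0_pp_101

noncomputable def f_pp_102 : ℕ → ℕ → ℕ → ℕ → Bool := onCell 536870912 536870912 0 536870912 587336777 62277027
    (rowB 3 eng mog cd1q1 cd2q0 pd2 0 true true true .npp 1 0 2 (qsf 536870912 536870912 0 536870912 2) ndB1q1 ndB2q0 pcB2 Cut.none Ext.none)

def k0_pp_102 : ∃ t, chk3 f_pp_102 t 1 1 1 = true :=
  ⟨(l 4), by decide +kernel⟩

theorem c_pp_102 : CertB 536870912 536870912 0 536870912 587336777 62277027 3 eng mog cd1q1 cd2q0 pd2 true true true .npp 1 0 2
    ndB1q1 ndB2q0 pcB2 Cut.none Ext.none :=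
  certB0 (fam := true) (s1 := true) (s2 := true) (a := 1) (b := 0) (c := 2) (cn := .npp) (n1 := ndB1q1) (n2 := ndB2q0) (pc := pcB2) (cut := Cut.none) (xt := Ext.none) (P1 := 536870912) (W1 := 536870912) (P2 := 0) (W2 := 536870912) (P3 := 587336777) (W3 := 62277027) (N0 := 3) (En := eng) (mo := mog) (C1 := cd1q1) (C2 := cd2q0) (C3 := pd2)
    rfl k0_pp_102

noncomputable def f_pp_112 : ℕ → ℕ → ℕ → ℕ → Bool := onCell 536870912 536870912 536870912 536870912 587336777 62277027
    (rowB 3 eng mog cd1q1 cd2q1 pd2 0 true true true .dn 1 1 2 (qsf 536870912 536870912 536870912 536870912 2) ndB1q1 ndB2q1 pcB2 Cut.none Ext.none)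

def k0_pp_112 : ∃ t, chk3 f_pp_112 t 1 1 1 = true :=
  ⟨(l 4), by decide +kernel⟩

theorem c_pp_112 : CertB 536870912 536870912 536870912 536870912 587336777 62277027 3 eng mog cd1q1 cd2q1 pd2 true true true .dn 1 1 2
    ndB1q1 ndB2q1 pcB2 Cut.none Ext.none :=
  certB0 (fam := true) (s1 := true) (s2 := true) (a := 1) (b := 1) (c := 2) (cn := .dn) (n1 := ndB1q1) (n2 := ndB2q1) (pc := pcB2) (cut := Cut.none) (xt := Ext.none) (P1 := 536870912) (W1 := 536870912) (P2 := 536870912) (W2 := 536870912) (P3 := 587336777) (W3 := 62277027) (N0 := 3) (En := eng) (mo := mog) (C1 := cd1q1) (C2 := cd2q1) (C3 := pd2)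
    rfl k0_pp_112

noncomputable def f_pp_113 : ℕ → ℕ → ℕ → ℕ → Bool := onCell 536870912 536870912 536870912 536870912 587336777 62277027
    (rowB 3 eng mog cd1q1 cd2q1 pd3 0 true true true .nn 1 1 3 (qsf 536870912 536870912 536870912 536870912 3) ndB1q1 ndB2q1 pcB3 Cut.none Ext.none)

def k0_pp_113 : ∃ t, chk3 f_pp_113 t 1 1 1 = true :=
  ⟨(l 4), by decide +kernel⟩

theorem c_pp_113 : CertB 536870912 536870912 536870912 536870912 587336777 62277027 3 eng mog cd1q1 cd2q1 pd3 true true true .nn 1 1 3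
    ndB1q1 ndB2q1 pcB3 Cut.none Ext.none :=
  certB0 (fam := true) (s1 := true) (s2 := true) (a := 1) (b := 1) (c := 3) (cn := .nn) (n1 := ndB1q1) (n2 := ndB2q1) (pc := pcB3) (cut := Cut.none) (xt := Ext.none) (P1 := 536870912) (W1 := 536870912) (P2 := 536870912) (W2 := 536870912) (P3 := 587336777) (W3 := 62277027) (N0 := 3) (En := eng) (mo := mog) (C1 := cd1q1) (C2 := cd2q1) (C3 := pd3)
    rfl k0_pp_113

noncomputable def f_pp_123_a : ℕ → ℕ → ℕ → ℕ → Bool := onCell 536870912 536870912 0 536870912 587336777 62277027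
    (rowB 3 eng mog cd1q1 cd2q2a pd3 0 true true true .npn 1 2 3 (qsf 536870912 536870912 0 536870912 3) ndB1q1 ndB2q2a pcB3 Cut.none Ext.none)

def k0_pp_123_a : ∃ t, chk3 f_pp_123_a t 1 1 1 = true :=
  ⟨(a (l 4) (l 4)), by decide +kernel⟩

theorem c_pp_123_a : CertB 536870912 536870912 0 536870912 587336777 62277027 3 eng mog cd1q1 cd2q2a pd3 true true true .npn 1 2 3
    ndB1q1 ndB2q2a pcB3 Cut.none Ext.none :=
  certB0 (fam := true) (s1 := true) (s2 := true) (a := 1) (b := 2) (c := 3) (cn := .npn) (n1 := ndB1q1) (n2 := ndB2q2a) (pc := pcB3) (cut := Cut.none) (xt := Ext.none) (P1 := 536870912) (W1 := 536870912) (P2 := 0) (W2 := 536870912) (P3 := 587336777) (W3 := 62277027) (N0 := 3) (En := eng) (mo := mog) (C1 := cd1q1) (C2 := cd2q2a) (C3 := pd3)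
    rfl k0_pp_123_a

noncomputable def f_pp_123_b : ℕ → ℕ → ℕ → ℕ → Bool := onCell 536870912 536870912 1239849684 370763052 587336777 62277027
    (rowB 3 eng mog cd1q1 cd2q2b pd3 0 true true true .npn 1 2 3 (qsf 536870912 536870912 1239849684 370763052 3) ndB1q1 ndB2q2b pcB3 Cut.none Ext.none)

def k0_pp_123_b : ∃ t, chk3 f_pp_123_b t 1 1 1 = true :=
  ⟨(a (l 4) (l 4)), by decide +kernel⟩

theorem c_pp_123_b : CertB 536870912 536870912 1239849684 370763052 587336777 62277027 3 eng mog cd1q1 cd2q2b pd3 true true true .npn 1 2 3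
    ndB1q1 ndB2q2b pcB3 Cut.none Ext.none :=
  certB0 (fam := true) (s1 := true) (s2 := true) (a := 1) (b := 2) (c := 3) (cn := .npn) (n1 := ndB1q1) (n2 := ndB2q2b) (pc := pcB3) (cut := Cut.none) (xt := Ext.none) (P1 := 536870912) (W1 := 536870912) (P2 := 1239849684) (W2 := 370763052) (P3 := 587336777) (W3 := 62277027) (N0 := 3) (En := eng) (mo := mog) (C1 := cd1q1) (C2 := cd2q2b) (C3 := pd3)
    rfl k0_pp_123_b

noncomputable def f_pp_133 : ℕ → ℕ → ℕ → ℕ → Bool := onCell 536870912 536870912 1610612736 536870912 587336777 62277027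
    (rowB 3 eng mog cd1q1 cd2q3 pd3 0 true true true .dn 1 3 3 (qsf 536870912 536870912 1610612736 536870912 3) ndB1q1 ndB2q3 pcB3 Cut.none Ext.none)

def k0_pp_133 : ∃ t, chk3 f_pp_133 t 1 1 1 = true :=
  ⟨(l 4), by decide +kernel⟩

theorem c_pp_133 : CertB 536870912 536870912 1610612736 536870912 587336777 62277027 3 eng mog cd1q1 cd2q3 pd3 true true true .dn 1 3 3
    ndB1q1 ndB2q3 pcB3 Cut.none Ext.none :=
  certB0 (fam := true) (s1 := true) (s2 := true) (a := 1) (b := 3) (c := 3) (cn := .dn) (n1 := ndB1q1) (n2 := ndB2q3) (pc := pcB3) (cut := Cut.none) (xt := Ext.none) (P1 := 536870912) (W1 := 536870912) (P2 := 1610612736) (W2 := 536870912) (P3 := 587336777) (W3 := 62277027) (N0 := 3) (En := eng) (mo := mog) (C1 := cd1q1) (C2 := cd2q3) (C3 := pd3)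
    rfl k0_pp_133

noncomputable def f_pp_202_a : ℕ → ℕ → ℕ → ℕ → Bool := onCell 0 536870912 0 536870912 587336777 62277027
    (rowB 3 eng mog cd1q2a cd2q0 pd2 0 true true true .pp 2 0 2 (qsf 0 536870912 0 536870912 2) ndB1q2a ndB2q0 pcB2 Cut.none Ext.none)

def k0_pp_202_a : ∃ t, chk3 f_pp_202_a t 1 1 1 = true :=
  ⟨(l 5), by decide +kernel⟩

theorem c_pp_202_a : CertB 0 536870912 0 536870912 587336777 62277027 3 eng mog cd1q2a cd2q0 pd2 true true true .pp 2 0 2
    ndB1q2a ndB2q0 pcB2 Cut.none Ext.none :=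
  certB0 (fam := true) (s1 := true) (s2 := true) (a := 2) (b := 0) (c := 2) (cn := .pp) (n1 := ndB1q2a) (n2 := ndB2q0) (pc := pcB2) (cut := Cut.none) (xt := Ext.none) (P1 := 0) (W1 := 536870912) (P2 := 0) (W2 := 536870912) (P3 := 587336777) (W3 := 62277027) (N0 := 3) (En := eng) (mo := mog) (C1 := cd1q2a) (C2 := cd2q0) (C3 := pd2)
    rfl k0_pp_202_a

noncomputable def f_pp_202_b : ℕ → ℕ → ℕ → ℕ → Bool := onCell 1239849684 370763052 0 536870912 587336777 62277027
    (rowB 3 eng mog cd1q2b cd2q0 pd2 0 true true true .pp 2 0 2 (qsf 1239849684 370763052 0 536870912 2) ndB1q2b ndB2q0 pcB2 Cut.none Ext.none)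

def k0_pp_202_b : ∃ t, chk3 f_pp_202_b t 1 1 1 = true :=
  ⟨(l 5), by decide +kernel⟩

theorem c_pp_202_b : CertB 1239849684 370763052 0 536870912 587336777 62277027 3 eng mog cd1q2b cd2q0 pd2 true true true .pp 2 0 2
    ndB1q2b ndB2q0 pcB2 Cut.none Ext.none :=
  certB0 (fam := true) (s1 := true) (s2 := true) (a := 2) (b := 0) (c := 2) (cn := .pp) (n1 := ndB1q2b) (n2 := ndB2q0) (pc := pcB2) (cut := Cut.none) (xt := Ext.none) (P1 := 1239849684) (W1 := 370763052) (P2 := 0) (W2 := 536870912) (P3 := 587336777) (W3 := 62277027) (N0 := 3) (En := eng) (mo := mog) (C1 := cd1q2b) (C2 := cd2q0) (C3 := pd2)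
    rfl k0_pp_202_b

noncomputable def f_pp_203_a : ℕ → ℕ → ℕ → ℕ → Bool := onCell 0 536870912 0 536870912 587336777 62277027
    (rowB 3 eng mog cd1q2a cd2q0 pd3 0 true true true .up 2 0 3 (qsf 0 536870912 0 536870912 3) ndB1q2a ndB2q0 pcB3 Cut.none Ext.none)

def k0_pp_203_a : ∃ t, chk3 f_pp_203_a t 1 1 1 = true :=
  ⟨(l 5), by decide +kernel⟩

theorem c_pp_203_a : CertB 0 536870912 0 536870912 587336777 62277027 3 eng mog cd1q2a cd2q0 pd3 true true true .up 2 0 3
    ndB1q2a ndB2q0 pcB3 Cut.none Ext.none :=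
  certB0 (fam := true) (s1 := true) (s2 := true) (a := 2) (b := 0) (c := 3) (cn := .up) (n1 := ndB1q2a) (n2 := ndB2q0) (pc := pcB3) (cut := Cut.none) (xt := Ext.none) (P1 := 0) (W1 := 536870912) (P2 := 0) (W2 := 536870912) (P3 := 587336777) (W3 := 62277027) (N0 := 3) (En := eng) (mo := mog) (C1 := cd1q2a) (C2 := cd2q0) (C3 := pd3)
    rfl k0_pp_203_a

noncomputable def f_pp_203_b : ℕ → ℕ → ℕ → ℕ → Bool := onCell 1239849684 370763052 0 536870912 587336777 62277027
    (rowB 3 eng mog cd1q2b cd2q0 pd3 0 true true true .up 2 0 3 (qsf 1239849684 370763052 0 536870912 3) ndB1q2b ndB2q0 pcB3 Cut.none Ext.none)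

def k0_pp_203_b : ∃ t, chk3 f_pp_203_b t 1 1 1 = true :=
  ⟨(l 5), by decide +kernel⟩

theorem c_pp_203_b : CertB 1239849684 370763052 0 536870912 587336777 62277027 3 eng mog cd1q2b cd2q0 pd3 true true true .up 2 0 3
    ndB1q2b ndB2q0 pcB3 Cut.none Ext.none :=
  certB0 (fam := true) (s1 := true) (s2 := true) (a := 2) (b := 0) (c := 3) (cn := .up) (n1 := ndB1q2b) (n2 := ndB2q0) (pc := pcB3) (cut := Cut.none) (xt := Ext.none) (P1 := 1239849684) (W1 := 370763052) (P2 := 0) (W2 := 536870912) (P3 := 587336777) (W3 := 62277027) (N0 := 3) (En := eng) (mo := mog) (C1 := cd1q2b) (C2 := cd2q0) (C3 := pd3)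
    rfl k0_pp_203_b

noncomputable def f_pp_213_a : ℕ → ℕ → ℕ → ℕ → Bool := onCell 0 536870912 536870912 536870912 587336777 62277027
    (rowB 3 eng mog cd1q2a cd2q1 pd3 0 true true true .pnn 2 1 3 (qsf 0 536870912 536870912 536870912 3) ndB1q2a ndB2q1 pcB3 Cut.none Ext.none)

def k0_pp_213_a : ∃ t, chk3 f_pp_213_a t 1 1 1 = true :=
  ⟨(l 5), by decide +kernel⟩

theorem c_pp_213_a : CertB 0 536870912 536870912 536870912 587336777 62277027 3 eng mog cd1q2a cd2q1 pd3 true true true .pnn 2 1 3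
    ndB1q2a ndB2q1 pcB3 Cut.none Ext.none :=
  certB0 (fam := true) (s1 := true) (s2 := true) (a := 2) (b := 1) (c := 3) (cn := .pnn) (n1 := ndB1q2a) (n2 := ndB2q1) (pc := pcB3) (cut := Cut.none) (xt := Ext.none) (P1 := 0) (W1 := 536870912) (P2 := 536870912) (W2 := 536870912) (P3 := 587336777) (W3 := 62277027) (N0 := 3) (En := eng) (mo := mog) (C1 := cd1q2a) (C2 := cd2q1) (C3 := pd3)
    rfl k0_pp_213_a

noncomputable def f_pp_213_b : ℕ → ℕ → ℕ → ℕ → Bool := onCell 1239849684 370763052 536870912 536870912 587336777 62277027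
    (rowB 3 eng mog cd1q2b cd2q1 pd3 0 true true true .pnn 2 1 3 (qsf 1239849684 370763052 536870912 536870912 3) ndB1q2b ndB2q1 pcB3 Cut.none Ext.none)

def k0_pp_213_b : ∃ t, chk3 f_pp_213_b t 1 1 1 = true :=
  ⟨(l 5), by decide +kernel⟩

theorem c_pp_213_b : CertB 1239849684 370763052 536870912 536870912 587336777 62277027 3 eng mog cd1q2b cd2q1 pd3 true true true .pnn 2 1 3
    ndB1q2b ndB2q1 pcB3 Cut.none Ext.none :=
  certB0 (fam := true) (s1 := true) (s2 := true) (a := 2) (b := 1) (c := 3) (cn := .pnn) (n1 := ndB1q2b) (n2 := ndB2q1) (pc := pcB3) (cut := Cut.none) (xt := Ext.none) (P1 := 1239849684) (W1 := 370763052) (P2 := 536870912) (W2 := 536870912) (P3 := 587336777) (W3 := 62277027) (N0 := 3) (En := eng) (mo := mog) (C1 := cd1q2b) (C2 := cd2q1) (C3 := pd3)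
    rfl k0_pp_213_b

noncomputable def f_pp_303 : ℕ → ℕ → ℕ → ℕ → Bool := onCell 1610612736 536870912 0 536870912 587336777 62277027
    (rowB 3 eng mog cd1q3 cd2q0 pd3 0 true true true .npn 3 0 3 (qsf 1610612736 536870912 0 536870912 3) ndB1q3 ndB2q0 pcB3 Cut.none Ext.none)

def k0_pp_303 : ∃ t, chk3 f_pp_303 t 1 1 1 = true :=
  ⟨(l 5), by decide +kernel⟩

theorem c_pp_303 : CertB 1610612736 536870912 0 536870912 587336777 62277027 3 eng mog cd1q3 cd2q0 pd3 true true true .npn 3 0 3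
    ndB1q3 ndB2q0 pcB3 Cut.none Ext.none :=
  certB0 (fam := true) (s1 := true) (s2 := true) (a := 3) (b := 0) (c := 3) (cn := .npn) (n1 := ndB1q3) (n2 := ndB2q0) (pc := pcB3) (cut := Cut.none) (xt := Ext.none) (P1 := 1610612736) (W1 := 536870912) (P2 := 0) (W2 := 536870912) (P3 := 587336777) (W3 := 62277027) (N0 := 3) (En := eng) (mo := mog) (C1 := cd1q3) (C2 := cd2q0) (C3 := pd3)
    rfl k0_pp_303

noncomputable def f_pp_313 : ℕ → ℕ → ℕ → ℕ → Bool := onCell 1610612736 536870912 536870912 536870912 587336777 62277027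
    (rowB 3 eng mog cd1q3 cd2q1 pd3 0 true true true .dn 3 1 3 (qsf 1610612736 536870912 536870912 536870912 3) ndB1q3 ndB2q1 pcB3 Cut.none Ext.none)

def k0_pp_313 : ∃ t, chk3 f_pp_313 t 1 1 1 = true :=
  ⟨(l 4), by decide +kernel⟩

theorem c_pp_313 : CertB 1610612736 536870912 536870912 536870912 587336777 62277027 3 eng mog cd1q3 cd2q1 pd3 true true true .dn 3 1 3
    ndB1q3 ndB2q1 pcB3 Cut.none Ext.none :=
  certB0 (fam := true) (s1 := true) (s2 := true) (a := 3) (b := 1) (c := 3) (cn := .dn) (n1 := ndB1q3) (n2 := ndB2q1) (pc := pcB3) (cut := Cut.none) (xt := Ext.none) (P1 := 1610612736) (W1 := 536870912) (P2 := 536870912) (W2 := 536870912) (P3 := 587336777) (W3 := 62277027) (N0 := 3) (En := eng) (mo := mog) (C1 := cd1q3) (C2 := cd2q1) (C3 := pd3)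
    rfl k0_pp_313

noncomputable def f_pm_001 : ℕ → ℕ → ℕ → ℕ → Bool := onCell 0 536870912 0 536870912 587336777 62277027
    (rowB 3 eng mog cd1q0 cd2q0 pd1 0 true true false .up 0 0 1 (qsf 0 536870912 0 536870912 1) ndB1q0 ndB2q0 pcB1 Cut.none Ext.none)

def k0_pm_001 : ∃ t, chk3 f_pm_001 t 1 1 1 = true :=
  ⟨(l 3), by decide +kernel⟩

theorem c_pm_001 : CertB 0 536870912 0 536870912 587336777 62277027 3 eng mog cd1q0 cd2q0 pd1 true true false .up 0 0 1
    ndB1q0 ndB2q0 pcB1 Cut.none Ext.none :=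
  certB0 (fam := true) (s1 := true) (s2 := false) (a := 0) (b := 0) (c := 1) (cn := .up) (n1 := ndB1q0) (n2 := ndB2q0) (pc := pcB1) (cut := Cut.none) (xt := Ext.none) (P1 := 0) (W1 := 536870912) (P2 := 0) (W2 := 536870912) (P3 := 587336777) (W3 := 62277027) (N0 := 3) (En := eng) (mo := mog) (C1 := cd1q0) (C2 := cd2q0) (C3 := pd1)
    rfl k0_pm_001

noncomputable def f_pm_011 : ℕ → ℕ → ℕ → ℕ → Bool := onCell 0 536870912 536870912 536870912 587336777 62277027
    (rowB 3 eng mog cd1q0 cd2q1 pd1 1 true true false .pnn 0 1 1 (qsf 0 536870912 536870912 536870912 1) ndB1q0 ndB2q1 pcB1 Cut.none Ext.none)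

def k0_pm_011 : ∃ t, chk3 f_pm_011 t 1 1 1 = true :=
  ⟨(l 3), by decide +kernel⟩

theorem c_pm_011 : CertB 0 536870912 536870912 536870912 587336777 62277027 3 eng mog cd1q0 cd2q1 pd1 true true false .pnn 0 1 1
    ndB1q0 ndB2q1 pcB1 Cut.none Ext.none :=
  certB1 (fam := true) (s1 := true) (s2 := false) (a := 0) (b := 1) (c := 1) (cn := .pnn) (n1 := ndB1q0) (n2 := ndB2q1) (pc := pcB1) (cut := Cut.none) (xt := Ext.none) (P1 := 0) (W1 := 536870912) (P2 := 536870912) (W2 := 536870912) (P3 := 587336777) (W3 := 62277027) (N0 := 3) (En := eng) (mo := mog) (C1 := cd1q0) (C2 := cd2q1) (C3 := pd1)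
    rfl (fun _ => rfl) k0_pm_011

noncomputable def f_pm_012 : ℕ → ℕ → ℕ → ℕ → Bool := onCell 1073741824 536870912 536870912 536870912 587336777 62277027
    (rowB 3 eng mog cd1q0 cd2q1 pd2 2 true true false .pnp 0 1 2 (qsf 0 536870912 536870912 536870912 2) ndB1q0 ndB2q1 pcB2 Cut.none Ext.none)

def k0_pm_012 : ∃ t, chk3 f_pm_012 t 4 1 1 = true :=
  ⟨(a (l 3) (b (l 3) (b (l 3) (a (l 3) (b (l 3) (a (l 3) (b (l 3) (a (b (l 3) (l 16612744)) (b (l 16631280) (a (l 16573480) (l 16599664))))))))))), by decide +kernel⟩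

def k1_pm_012 : ∃ t, chk3 f_pm_012 t 20 1 1 = true :=
  ⟨(a (b (b (l 3) (l 3)) (b (l 3) (b (a (l 3) (b (a (l 3) (l 16635944)) (a (l 16625304) (b (l 16624264) (l 16616600))))) (a (b (a (l 16622800) (b (l 16620160) (l 16613856))) (b (a (l 16612584) (l 16607184)) (a (l 16604984) (l 16599864)))) (b (a (b (l 16614712) (l 16608256)) (l 16631456)) (a (l 16598440) (l 16593072))))))) (b (b (l 2) (a (l 3) (a (b (l 3) (l 3)) (b (a (b (l 16744728) (l 16762464)) (l 16701744)) (a (b (l 3) (l 16730224)) (l 16691008)))))) (a (b (b (l 3) (a (b (l 3) (l 16647544)) (b (l 16659232) (l 16644600)))) (a (b (a (b (l 16632888) (l 16606640)) (b (l 16630976) (l 16594320))) (b (l 16601856) (l 16587640))) (b (b (a (l 16629400) (l 16627880)) (b (l 16616400) (l 16608544))) (b (l 16596936) (l 16582112))))) (a (b (b (a (l 3) (l 16675392)) (a (b (l 16657496) (l 16642512)) (b (l 16656344) (l 16641240)))) (b (b (a (l 16626368) (l 16624432)) (a (l 16609456) (l 16606880))) (b (a (l 16592824) (l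 16589632)) (b (l 16579800) (l 16573040))))) (b (b (a (a (l 16674712) (l 16673736)) (l 16693616)) (a (b (a (l 16655512) (l 16654456)) (l 16639048)) (a (a (a (l 16645592) (b (l 16652488) (l 16657104))) (l 16643960)) (l 16643360)))) (a (b (a (b (l 16622608) (l 16604520)) (b (l 16620808) (l 16602240))) (b (l 16611976) (a (l 16572920) (l 16571536)))) (b (a (a (a (b (l 16619352) (l 16600360)) (a (b (l 16618432) (l 16599432)) (b (l 16617408) (l 16598496)))) (b (l 16616800) (l 16597896))) (b (l 16616072) (l 16597072))) (b (a (a (a (l 16583168) (a (l 16582488) (l 16581856))) (l 16581304)) (l 16580368)) (a (b (l 16594064) (l 16566904)) (l 16568784)))))))))), by decide +kernel⟩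

def k2_pm_012 : ∃ t, chk3 f_pm_012 t 21 1 1 = true :=
  ⟨(b (b (l 2) (b (l 16699448) (l 16684816))) (b (b (l 16663064) (b (l 16639736) (l 16621448))) (b (b (l 16600808) (l 16579696)) (b (l 16581608) (l 16567080))))), by decide +kernel⟩

def k3_pm_012 : ∃ t, chk3 f_pm_012 t 11 1 1 = true :=
  ⟨(b (b (l 2) (b (l 16699360) (l 16674464))) (b (b (b (l 16651984) (l 16634080)) (b (l 16613248) (l 16589872))) (b (b (l 16584992) (l 16578784)) (b (a (l 16526256) (l 16497200)) (a (l 16507112) (l 16473512)))))), by decide +kernel⟩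

def k4_pm_012 : ∃ t, chk3 f_pm_012 t 3 1 1 = true :=
  ⟨(b (a (b (l 2) (a (b (l 2) (l 16677592)) (l 2))) (l 2)) (b (a (a (b (l 16634176) (l 16622440)) (b (l 16647064) (l 16580256))) (b (l 2) (a (l 16604040) (l 2)))) (a (b (a (b (l 16533096) (l 16498552)) (b (l 16522328) (l 16481272))) (a (b (l 16484896) (a (l 16445144) (l 16421912))) (b (l 16439016) (l 16397384)))) (b (a (l 16509928) (l 16542864)) (a (b (l 16434472) (a (l 16385672) (l 16384976))) (b (l 16452312) (l 16394088))))))), by decide +kernel⟩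

theorem s5_pm_012 : ∃ t, chk3 f_pm_012 t 10 1 1 = true := ex3_a k1_pm_012 k2_pm_012

theorem s6_pm_012 : ∃ t, chk3 f_pm_012 t 5 1 1 = true := ex3_a s5_pm_012 k3_pm_012

theorem s7_pm_012 : ∃ t, chk3 f_pm_012 t 2 1 1 = true := ex3_a k0_pm_012 s6_pm_012

theorem s8_pm_012 : ∃ t, chk3 f_pm_012 t 1 1 1 = true := ex3_a s7_pm_012 k4_pm_012

theorem c_pm_012 : CertB 0 536870912 536870912 536870912 587336777 62277027 3 eng mog cd1q0 cd2q1 pd2 true true false .pnp 0 1 2
    ndB1q0 ndB2q1 pcB2 Cut.none Ext.none :=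
  certB2 (fam := true) (s1 := true) (s2 := false) (a := 0) (b := 1) (c := 2) (cn := .pnp) (n1 := ndB1q0) (n2 := ndB2q1) (pc := pcB2) (cut := Cut.none) (xt := Ext.none) (P1 := 0) (W1 := 536870912) (P2 := 536870912) (W2 := 536870912) (P3 := 587336777) (W3 := 62277027) (N0 := 3) (En := eng) (mo := mog) (C1 := cd1q0) (C2 := cd2q1) (C3 := pd2)
    rfl (fun _ => rfl) s8_pm_012

noncomputable def cut_pm_022_a : Cut := Cut.of [[⟨0, 0, 0, 67108864⟩, ⟨1, 1, 0, 67108864⟩, ⟨2, 1, 0, 67108864⟩]]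

noncomputable def f_pm_022_a : ℕ → ℕ → ℕ → ℕ → Bool := onCell 1073741824 536870912 0 536870912 587336777 62277027
    (rowB 3 eng mog cd1q0 cd2q2a pd2 2 true true false .pp 0 2 2 (qsf 0 536870912 0 536870912 2) ndB1q0 ndB2q2a pcB2 cut_pm_022_a Ext.none)

def k0_pm_022_a : ∃ t, chk3 f_pm_022_a t 2 2 1 = true :=
  ⟨(a (a (l 1) (b (l 1) (a (l 1) (b (l 1) (a (l 1) (b (l 1) (a (l 1) (l 16520192)))))))) (a (b (a (a (l 1) (b (l 16453808) (l 16463576))) (a (b (c (l 16458376) (l 16453040)) (a (l 16464592) (c (l 16466632) (l 16461920)))) (b (l 16458656) (l 16465856)))) (a (a (b (b (l 16474776) (l 29024009127)) (b (a (l 16499544) (l 16499392)) (a (l 16514400) (l 16513616)))) (a (b (b (l 16475720) (l 16486608)) (b (l 16498992) (l 16512616))) (b (b (a (l 16475952) (a (l 16476000) (l 16476016))) (a (l 16486512) (a (l 16486408) (l 16486312)))) (a (l 16505400) (a (l 16505008) (b (l 16498032) (l 16510848))))))) (b (a (b (c (l 16477688) (l 16472688)) (c (l 16487536) (l 16482512)))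 (b (l 16475600) (l 16484432))) (a (b (l 16496888) (l 16509104)) (l 16500640))))) (b (a (b (a (l 16461864) (l 16465584)) (b (l 16466608) (l 16470992))) (b (a (l 16469728) (l 16474224)) (b (l 16473184) (l 16476136)))) (b (a (b (l 16476832) (l 16463096)) (b (l 16480360) (l 16485704))) (a (b (l 16492832) (l 16502304)) (b (l 16492256) (l 16499912))))))), by decide +kernel⟩

def k1_pm_022_a : ∃ t, chk3 f_pm_022_a t 2 6 1 = true :=
  ⟨(a (a (l 1) (b (a (l 1) (a (b (a (l 1) (l 16533568)) (a (b (l 1) (l 16559312)) (b (l 16547784) (l 16557568)))) (b (a (b (l 16528128) (l 16537104)) (b (l 16527256) (l 16535832))) (a (l 16551048) (l 16549128))))) (a (a (b (l 1) (a (l 1) (b (l 16599336) (l 72510787687)))) (b (a (b (l 1) (l 16585064)) (b (l 16571720) (l 16582704))) (b (a (l 16596632) (l 16593736)) (a (l 16608200) (l 16604752))))) (b (a (a (b (l 16569696) (l 16580176)) (l 16572568)) (a (l 16569904) (l 16567056))) (a (b (l 16589080) (l 16599272)) (b (l 16582216) (l 16591328)))))))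 (a (a (a (b (b (a (l 16530344) (l 16528848)) (a (l 16547016) (l 16544712))) (b (a (l 16564016) (l 16560800)) (l 16578776))) (b (a (b (l 16527136) (l 16542208)) (a (b (l 16525720) (l 16540208)) (b (a (l 16524968) (l 16524448)) (a (l 16539168) (l 16538464))))) (a (b (l 16557408) (l 16572272)) (a (l 16562280) (a (l 16560744) (b (l 16552480) (l 16566040))))))) (b (a (b (l 16501032) (l 16535208)) (l 16523848)) (b (l 16573440) (l 16598440)))) (b (a (b (l 16512176) (l 16522136)) (l 16511392)) (a (l 16578376) (l 16522376))))), by decide +kernel⟩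

def k2_pm_022_a : ∃ t, chk3 f_pm_022_a t 4 7 1 = true :=
  ⟨(a (a (b (l 1) (l 6)) (a (b (b (l 1) (l 6)) (l 6)) (a (b (b (l 1) (l 6)) (l 6)) (b (b (b (l 1) (b (l 16640712) (l 90764477911))) (b (a (l 6) (l 16655480)) (l 16669064))) (a (l 6) (b (b (l 16679848) (l 16691568)) (b (l 16699216) (l 16705448)))))))) (b (b (a (a (b (a (l 68215876071) (l 16623560)) (a (b (l 16636704) (l 16642912)) (l 16635544))) (b (l 16617728) (l 16639288))) (a (b (l 16609360) (l 16619240)) (l 16604752))) (a (a (b (a (l 16651928) (l 16647080)) (a (l 16663792) (l 16658376))) (b (a (l 16642088) (l 16636912)) (l 16649968))) (a (l 16633656) (l 16621336)))) (b (a (a (b (l 16682928) (l 16682352)) (b (l 16659896) (l 16666728))) (a (a (l 16652224) (l 16644960)) (a (l 16637856) (l 16630888)))) (a (b (a (b (l 16687384) (l 16711552)) (a (l 16677024) (l 16669232))) (a (b (l 16693624) (l 16717480)) (a (l 16682912) (l 16674984)))) (a (b (l 16657808) (a (l 16667160) (l 16659360))) (b (a (l 16646648)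 (l 16639312)) (a (l 16651584) (l 16643968)))))))), by decide +kernel⟩

def k3_pm_022_a : ∃ t, chk3 f_pm_022_a t 5 7 1 = true :=
  ⟨(b (a (a (a (a (l 16657688) (l 16654264)) (a (b (l 16586264) (l 16599200)) (a (l 16637520) (a (l 16634104) (b (l 16578624) (l 16591264)))))) (b (l 16630984) (a (l 16585208) (l 16574872)))) (b (l 16583000) (c (l 16658112) (l 16651960)))) (a (a (a (b (a (l 16686992) (l 16701352)) (b (l 16628688) (a (l 16636624) (l 16629528)))) (a (b (l 16611112) (b (l 16618576) (l 16643624))) (a (b (l 16606504) (b (l 16613704) (l 16617608))) (a (b (l 16604240) (b (l 16611304) (l 16615112))) (b (b (l 16599976) (l 16605160)) (a (a (a (l 16612456) (b (l 16610200) (c (l 16618448) (l 16609496)))) (l 16611936)) (l 16611320))))))) (a (b (l 16617024) (b (l 16602576) (a (l 16609288) (l 16602824)))) (b (l 16584592) (b (l 16590288) (l 16593192))))) (a (b (l 16567688) (b (l 16572176) (a (l 16580480) (l 16568368)))) (b (l 16546880) (b (l 16550408) (l 16552016)))))),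 by decide +kernel⟩

def k4_pm_022_a : ∃ t, chk3 f_pm_022_a t 3 1 1 = true :=
  ⟨(b (a (a (b (b (a (b (l 16482872) (l 16481912)) (b (l 16495136) (l 16493296))) (a (b (l 16482400) (l 16484152)) (l 16492936))) (b (a (l 16488816) (l 16494432)) (a (l 16486176) (l 16496552)))) (b (a (b (a (l 16502328) (b (l 16510784) (l 16507856))) (a (l 16499152) (l 16505048))) (b (a (l 16520528) (l 16531712)) (a (l 16514448) (l 16523976)))) (b (a (a (l 16497880) (l 16501840)) (l 16512680)) (a (a (l 16495856) (l 16496936)) (l 16503168))))) (b (a (b (a (l 16548336) (l 16569840)) (a (l 16538112) (l 16556352))) (b (a (l 16590272) (l 16609392)) (l 16623800))) (a (b (a (l 16527000) (l 16540784)) (l 16494120)) (b (l 16559800) (l 16528336))))) (a (b (a (b (a (l 16505152) (l 16497944)) (l 16628320)) (a (a (l 16611256) (l 16594448)) (l 16599320))) (a (b (b (l 16554416) (l 16623144)) (b (a (l 16529936) (l 16515552)) (a (b (l 16532184) (l 16532720)) (l 16515880)))) (b (a (l 16586128) (l 16490728))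 (b (a (l 16503216) (l 16488872)) (a (a (l 16504896) (l 16497480)) (l 16484896)))))) (b (a (b (l 16503040) (l 16476800)) (b (l 16478328) (l 16467336))) (a (b (l 16604504) (a (b (l 16477680) (l 16472696)) (l 16492024))) (b (l 16533200) (b (l 16467816) (l 16464088))))))), by decide +kernel⟩

theorem s5_pm_022_a : ∃ t, chk3 f_pm_022_a t 2 7 1 = true := ex3_a k2_pm_022_a k3_pm_022_a

theorem s6_pm_022_a : ∃ t, chk3 f_pm_022_a t 2 3 1 = true := ex3_b k1_pm_022_a s5_pm_022_a

theorem s7_pm_022_a : ∃ t, chk3 f_pm_022_a t 2 1 1 = true := ex3_b k0_pm_022_a s6_pm_022_a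

theorem s8_pm_022_a : ∃ t, chk3 f_pm_022_a t 1 1 1 = true := ex3_a s7_pm_022_a k4_pm_022_a

theorem c_pm_022_a : CertB 0 536870912 0 536870912 587336777 62277027 3 eng mog cd1q0 cd2q2a pd2 true true false .pp 0 2 2
    ndB1q0 ndB2q2a pcB2 cut_pm_022_a Ext.none :=
  certB2 (fam := true) (s1 := true) (s2 := false) (a := 0) (b := 2) (c := 2) (cn := .pp) (n1 := ndB1q0) (n2 := ndB2q2a) (pc := pcB2) (cut := cut_pm_022_a) (xt := Ext.none) (P1 := 0) (W1 := 536870912) (P2 := 0) (W2 := 536870912) (P3 := 587336777) (W3 := 62277027) (N0 := 3) (En := eng) (mo := mog) (C1 := cd1q0) (C2 := cd2q2a) (C3 := pd2)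
    rfl (fun _ => rfl) s8_pm_022_a

noncomputable def cut_pm_022_b : Cut := Cut.of [[⟨0, 0, 0, 67108864⟩, ⟨1, 1, 0, 67108864⟩, ⟨2, 1, 0, 67108864⟩]]

noncomputable def f_pm_022_b : ℕ → ℕ → ℕ → ℕ → Bool := onCell 1073741824 536870912 1239849684 370763052 587336777 62277027
    (rowB 3 eng mog cd1q0 cd2q2b pd2 2 true true false .pp 0 2 2 (qsf 0 536870912 1239849684 370763052 2) ndB1q0 ndB2q2b pcB2 cut_pm_022_b Ext.none)

def k0_pm_022_b : ∃ t, chk3 f_pm_022_b t 1 1 1 = true :=
  ⟨(a (b (a (l 1) (a (b (b (a (a (l 1) (l 16445312)) (a (b (c (l 16434248) (l 16427600)) (l 1)) (b (l 16435144) (l 16388680)))) (l 1)) (l 1)) (b (a (a (b (b (l 16439656) (l 16394848)) (l 16324216)) (b (l 16444368) (l 16375200))) (b (b (l 16473920) (l 16412280)) (b (l 16369624) (l 16325144)))) (a (l 1) (b (l 16255680) (l 1)))))) (l 1)) (a (b (a (b (a (b (b (a (l 16462024) (l 16468976)) (l 16427560)) (l 16367768)) (b (b (l 16480040) (l 16444664)) (l 16388496))) (b (a (l 16281872) (l 16308632))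 (a (l 1) (l 16222808)))) (b (a (b (a (l 16474776) (b (l 16499112) (l 16469208))) (a (l 16404600) (l 16418168))) (b (a (l 16519240) (l 16512000)) (l 16444728))) (a (b (l 16336440) (l 16256656)) (b (l 16375232) (l 16301872))))) (b (a (l 1) (a (b (l 16171816) (l 1)) (l 16184808))) (l 1))) (b (b (a (b (a (b (l 16543728) (l 16520376)) (l 16559536)) (a (l 16479712) (l 16513872))) (b (a (l 16585072) (l 16608912)) (l 16562920))) (a (a (l 16385056) (l 16429808)) (a (l 16473344) (l 16514736)))) (a (b (a (l 16244368) (l 16302848)) (l 113849057031)) (b (l 16388312) (l 16275024)))))), by decide +kernel⟩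

theorem c_pm_022_b : CertB 0 536870912 1239849684 370763052 587336777 62277027 3 eng mog cd1q0 cd2q2b pd2 true true false .pp 0 2 2
    ndB1q0 ndB2q2b pcB2 cut_pm_022_b Ext.none :=
  certB2 (fam := true) (s1 := true) (s2 := false) (a := 0) (b := 2) (c := 2) (cn := .pp) (n1 := ndB1q0) (n2 := ndB2q2b) (pc := pcB2) (cut := cut_pm_022_b) (xt := Ext.none) (P1 := 0) (W1 := 536870912) (P2 := 1239849684) (W2 := 370763052) (P3 := 587336777) (W3 := 62277027) (N0 := 3) (En := eng) (mo := mog) (C1 := cd1q0) (C2 := cd2q2b) (C3 := pd2)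
    rfl (fun _ => rfl) k0_pm_022_b

noncomputable def f_pm_023_a : ℕ → ℕ → ℕ → ℕ → Bool := onCell 1610612736 536870912 0 536870912 587336777 62277027
    (rowB 3 eng mog cd1q0 cd2q2a pd3 2 true true false .up 0 2 3 (qsf 0 536870912 0 536870912 3) ndB1q0 ndB2q2a pcB3 Cut.none Ext.none)

def k0_pm_023_a : ∃ t, chk3 f_pm_023_a t 1 1 1 = true :=
  ⟨(a (b (a (a (a (b (a (b (l 16626320) (l 16627816)) (b (l 16611008) (l 16577592))) (a (b (l 16603840) (l 16549152)) (b (l 16531952) (l 16526184)))) (b (l 16578032) (l 16565400))) (b (a (l 16606912) (l 16651832)) (a (l 16591384) (l 16621232)))) (a (b (a (l 16693680) (l 16720328)) (a (l 16664824) (l 2))) (l 2))) (b (a (a (a (a (b (l 16540376) (l 16441104)) (b (l 16531312) (l 16558600))) (b (l 16569624) (l 16573032))) (a (l 34460189415) (l 296453146887))) (l 2)) (a (a (a (b (a (l 16633304) (a (l 16524688) (l 16561576))) (a (b (l 16480592) (l 16569664)) (a (l 16534312) (l 187468260215)))) (b (l 16575648) (l 16581744))) (a (l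 181562732343) (l 2))) (l 2)))) (l 2)), by decide +kernel⟩

theorem c_pm_023_a : CertB 0 536870912 0 536870912 587336777 62277027 3 eng mog cd1q0 cd2q2a pd3 true true false .up 0 2 3
    ndB1q0 ndB2q2a pcB3 Cut.none Ext.none :=
  certB2 (fam := true) (s1 := true) (s2 := false) (a := 0) (b := 2) (c := 3) (cn := .up) (n1 := ndB1q0) (n2 := ndB2q2a) (pc := pcB3) (cut := Cut.none) (xt := Ext.none) (P1 := 0) (W1 := 536870912) (P2 := 0) (W2 := 536870912) (P3 := 587336777) (W3 := 62277027) (N0 := 3) (En := eng) (mo := mog) (C1 := cd1q0) (C2 := cd2q2a) (C3 := pd3)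
    rfl (fun _ => rfl) k0_pm_023_a

noncomputable def f_pm_023_b : ℕ → ℕ → ℕ → ℕ → Bool := onCell 1610612736 536870912 1239849684 370763052 587336777 62277027
    (rowB 3 eng mog cd1q0 cd2q2b pd3 2 true true false .up 0 2 3 (qsf 0 536870912 1239849684 370763052 3) ndB1q0 ndB2q2b pcB3 Cut.none Ext.none)

def k0_pm_023_b : ∃ t, chk3 f_pm_023_b t 1 1 1 = true :=
  ⟨(a (a (b (a (b (a (b (a (l 16627536) (l 16623760)) (l 16602696)) (l 16621960)) (a (l 16548760) (l 16569232))) (b (a (l 16671184) (l 16676880)) (l 16605120))) (a (b (a (l 16460528) (l 16486144)) (a (l 16363296) (l 16390712))) (b (l 16533752) (l 16447456)))) (b (a (b (a (l 16663344) (l 16695088)) (l 16652024)) (b (l 311485867543) (l 16711728))) (a (b (l 16605120) (l 16541336)) (b (l 16688920) (l 16650296))))) (a (b (a (b (l 2) (a (l 16747400) (l 4))) (l 4)) (a (l 4) (l 4))) (l 4))), by decide +kernel⟩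

theorem c_pm_023_b : CertB 0 536870912 1239849684 370763052 587336777 62277027 3 eng mog cd1q0 cd2q2b pd3 true true false .up 0 2 3
    ndB1q0 ndB2q2b pcB3 Cut.none Ext.none :=
  certB2 (fam := true) (s1 := true) (s2 := false) (a := 0) (b := 2) (c := 3) (cn := .up) (n1 := ndB1q0) (n2 := ndB2q2b) (pc := pcB3) (cut := Cut.none) (xt := Ext.none) (P1 := 0) (W1 := 536870912) (P2 := 1239849684) (W2 := 370763052) (P3 := 587336777) (W3 := 62277027) (N0 := 3) (En := eng) (mo := mog) (C1 := cd1q0) (C2 := cd2q2b) (C3 := pd3)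
    rfl (fun _ => rfl) k0_pm_023_b

noncomputable def f_pm_033 : ℕ → ℕ → ℕ → ℕ → Bool := onCell 0 536870912 1610612736 536870912 587336777 62277027
    (rowB 3 eng mog cd1q0 cd2q3 pd3 1 true true false .pnn 0 3 3 (qsf 0 536870912 1610612736 536870912 3) ndB1q0 ndB2q3 pcB3 Cut.none Ext.none)

def k0_pm_033 : ∃ t, chk3 f_pm_033 t 1 1 1 = true :=
  ⟨(a (b (b (b (a (b (l 16338896) (l 16321192)) (l 1)) (a (l 16313192) (l 16479664))) (b (a (l 16403416) (l 16501192)) (a (b (l 16467760) (l 4)) (l 60699704343)))) (l 4)) (b (b (l 1) (b (l 1) (a (l 112239581479) (l 1)))) (b (b (a (l 4) (l 1)) (l 4)) (l 4)))), by decide +kernel⟩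

theorem c_pm_033 : CertB 0 536870912 1610612736 536870912 587336777 62277027 3 eng mog cd1q0 cd2q3 pd3 true true false .pnn 0 3 3
    ndB1q0 ndB2q3 pcB3 Cut.none Ext.none :=
  certB1 (fam := true) (s1 := true) (s2 := false) (a := 0) (b := 3) (c := 3) (cn := .pnn) (n1 := ndB1q0) (n2 := ndB2q3) (pc := pcB3) (cut := Cut.none) (xt := Ext.none) (P1 := 0) (W1 := 536870912) (P2 := 1610612736) (W2 := 536870912) (P3 := 587336777) (W3 := 62277027) (N0 := 3) (En := eng) (mo := mog) (C1 := cd1q0) (C2 := cd2q3) (C3 := pd3)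
    rfl (fun _ => rfl) k0_pm_033

noncomputable def f_pm_101 : ℕ → ℕ → ℕ → ℕ → Bool := onCell 536870912 536870912 0 536870912 587336777 62277027
    (rowB 3 eng mog cd1q1 cd2q0 pd1 2 true true false .npn 1 0 1 (qsf 536870912 536870912 0 536870912 1) ndB1q1 ndB2q0 pcB1 Cut.none Ext.none)

def k0_pm_101 : ∃ t, chk3 f_pm_101 t 1 1 1 = true :=
  ⟨(a (l 3) (b (l 3) (l 3))), by decide +kernel⟩

theorem c_pm_101 : CertB 536870912 536870912 0 536870912 587336777 62277027 3 eng mog cd1q1 cd2q0 pd1 true true false .npn 1 0 1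
    ndB1q1 ndB2q0 pcB1 Cut.none Ext.none :=
  certB2 (fam := true) (s1 := true) (s2 := false) (a := 1) (b := 0) (c := 1) (cn := .npn) (n1 := ndB1q1) (n2 := ndB2q0) (pc := pcB1) (cut := Cut.none) (xt := Ext.none) (P1 := 536870912) (W1 := 536870912) (P2 := 0) (W2 := 536870912) (P3 := 587336777) (W3 := 62277027) (N0 := 3) (En := eng) (mo := mog) (C1 := cd1q1) (C2 := cd2q0) (C3 := pd1)
    rfl (fun _ => rfl) k0_pm_101

noncomputable def f_pm_102 : ℕ → ℕ → ℕ → ℕ → Bool := onCell 536870912 536870912 1073741824 536870912 587336777 62277027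
    (rowB 3 eng mog cd1q1 cd2q0 pd2 1 true true false .npp 1 0 2 (qsf 536870912 536870912 0 536870912 2) ndB1q1 ndB2q0 pcB2 Cut.none Ext.none)

def k0_pm_102 : ∃ t, chk3 f_pm_102 t 2 1 1 = true :=
  ⟨(a (b (b (l 3) (b (b (b (l 3) (l 2)) (l 2)) (l 2))) (l 2)) (a (b (b (l 3) (b (b (b (b (l 3) (b (l 16733288) (l 16758664))) (b (b (a (l 16737288) (l 16743168)) (a (l 16738480) (l 16743552))) (b (b (l 16741168) (l 16742368)) (b (a (l 16742136) (l 16747208)) (b (b (b (l 16747048) (a (l 16745536) (l 16751224))) (l 16749648)) (l 16749744)))))) (a (l 16749128) (l 16751096))) (b (l 16748400) (l 2)))) (l 2)) (b (b (b (l 3) (b (l 3) (b (l 3) (b (l 3) (a (l 3) (l 16737040)))))) (b (b (b (b (b (l 16782992) (a (l 16741448) (l 16750512))) (a (b (l 16745728) (l 16747544)) (b (l 16751640) (l 16751496)))) (b (b (a (l 16747744) (l 16750952)) (a (l 16747616) (l 16751056))) (b (a (l 16749168) (l 16751928)) (b (a (l 16751640) (l 16752352)) (b (b (b (l 16753088) (b (l 16753248) (l 16795320)))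 (l 16753336)) (l 16753136)))))) (a (l 16750112) (l 16745432))) (b (l 16738704) (l 16731352)))) (b (b (l 16726424) (l 2)) (l 2))))), by decide +kernel⟩

def k1_pm_102 : ∃ t, chk3 f_pm_102 t 3 8 1 = true :=
  ⟨(a (l 3) (b (l 3) (a (l 3) (b (b (l 3) (a (l 3) (a (l 3) (a (l 16755568) (b (l 16729672) (a (l 16747760) (l 16722880))))))) (a (b (l 3) (a (l 3) (b (l 16742360) (a (l 16741088) (l 16734240))))) (a (b (a (l 16739080) (b (l 16734320) (l 16750616))) (b (a (l 16752944) (l 16745680)) (a (l 16727320) (l 16720560)))) (b (b (a (a (l 16728928) (l 16725280)) (a (l 16721744) (l 16718552))) (a (l 16743208) (a (l 16717464) (l 16713936)))) (b (a (l 16718080) (l 16711048)) (a (l 16713552) (l 16706488)))))))))), by decide +kernel⟩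

def k2_pm_102 : ∃ t, chk3 f_pm_102 t 3 9 1 = true :=
  ⟨(a (b (b (l 3) (a (l 3) (b (l 3) (a (l 3) (l 16761928))))) (b (a (l 3) (b (a (l 16751928) (l 16759952)) (a (l 16780640) (b (l 16755920) (l 16752800))))) (a (a (b (l 3) (b (l 16748744) (l 16753152))) (b (l 16797088) (b (l 16758024) (l 16757640)))) (a (b (b (l 16758824) (l 16757048)) (b (l 16754824) (l 16752416))) (b (a (l 16751208) (l 16744048)) (a (l 16744984) (l 16737096))))))) (b (a (b (a (l 3) (b (l 132774877079) (a (l 16757640) (l 125795528311)))) (a (b (l 16782704) (l 16775288)) (b (a (l 16790592) (b (l 16739856) (l 16734968))) (a (b (l 16741920) (l 16737224)) (l 16728144))))) (a (b (a (b (l 16765112) (b (l 16737232) (l 16732384))) (b (b (l 16754104) (l 16728568)) (l 16763728))) (b (a (l 16725376) (l 16712664)) (a (l 16716056) (l 16703536)))) (a (b (b (a (l 16741664) (l 16734560)) (l 16708168)) (l 16715472)) (b (a (l 16723032) (l 16715664)) (l 16680128))))) (a (b (a (b (a (l 16750744) (l 16741400))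 (l 16738208)) (b (a (l 16730816) (l 16719232)) (l 16716672))) (a (b (a (l 16735280) (l 16725232)) (l 16722816)) (b (l 16708376) (l 16700392)))) (a (b (a (l 16702672) (l 16690000)) (l 16679320)) (b (a (l 16676672) (l 16662416)) (a (l 16659224) (l 16645288))))))), by decide +kernel⟩

def k3_pm_102 : ∃ t, chk3 f_pm_102 t 3 5 1 = true :=
  ⟨(b (b (b (a (a (b (a (b (l 16754824) (l 16755000)) (b (l 16756488) (l 16754888))) (a (b (l 16754176) (l 16753176)) (b (l 16753248) (l 16751512)))) (a (b (b (l 16749920) (l 16747304)) (l 16742992)) (b (l 16734464) (l 16727384)))) (a (a (b (l 16715192) (l 16707680)) (l 16688488)) (a (l 16683776) (a (l 16642384) (l 16628536))))) (a (b (a (a (b (l 16752456) (l 16751712)) (b (l 16749496) (l 16747016))) (a (b (l 16738200) (l 16734760)) (l 16719992))) (b (a (a (l 16750472) (l 16744000)) (l 16723136)) (a (b (a (l 16748752) (l 16741216)) (a (l 16746944) (l 16738608))) (b (l 16719360) (a (l 16724272) (l 16705864)))))) (b (a (a (l 16699776)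 (l 16676256)) (a (l 16650368) (l 16623376))) (a (b (l 16681704) (b (l 16698088) (a (l 16684296) (l 16681376)))) (b (a (l 16643592) (l 16617368)) (b (a (l 16639568) (l 16614240)) (a (a (c (l 16687408) (l 16659024)) (l 16630408)) (l 16611952)))))))) (a (a (l 16733432) (l 16701848)) (a (a (l 16668336) (l 16643384)) (a (l 16724512) (l 16679792))))) (a (a (l 16772512) (a (l 16680536) (l 16656072))) (a (a (l 16629064) (l 16643016)) (a (l 16661488) (b (l 16567928) (l 16543224)))))), by decide +kernel⟩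

def k4_pm_102 : ∃ t, chk3 f_pm_102 t 3 3 1 = true :=
  ⟨(a (b (a (b (l 16689776) (l 16685712)) (b (l 16636016) (l 16615440))) (a (l 2) (b (l 16621616) (l 2)))) (b (a (b (a (l 16586656) (l 16554088)) (a (l 16552488) (l 16514456))) (b (a (l 16532784) (l 16512400)) (b (l 16497936) (l 16482688)))) (a (b (l 16528936) (l 16567208)) (b (l 16478040) (l 16501616))))), by decide +kernel⟩

theorem s5_pm_102 : ∃ t, chk3 f_pm_102 t 3 4 1 = true := ex3_b k1_pm_102 k2_pm_102

theorem s6_pm_102 : ∃ t, chk3 f_pm_102 t 3 2 1 = true := ex3_b s5_pm_102 k3_pm_102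

theorem s7_pm_102 : ∃ t, chk3 f_pm_102 t 3 1 1 = true := ex3_b s6_pm_102 k4_pm_102

theorem s8_pm_102 : ∃ t, chk3 f_pm_102 t 1 1 1 = true := ex3_a k0_pm_102 s7_pm_102

theorem c_pm_102 : CertB 536870912 536870912 0 536870912 587336777 62277027 3 eng mog cd1q1 cd2q0 pd2 true true false .npp 1 0 2
    ndB1q1 ndB2q0 pcB2 Cut.none Ext.none :=
  certB1 (fam := true) (s1 := true) (s2 := false) (a := 1) (b := 0) (c := 2) (cn := .npp) (n1 := ndB1q1) (n2 := ndB2q0) (pc := pcB2) (cut := Cut.none) (xt := Ext.none) (P1 := 536870912) (W1 := 536870912) (P2 := 0) (W2 := 536870912) (P3 := 587336777) (W3 := 62277027) (N0 := 3) (En := eng) (mo := mog) (C1 := cd1q1) (C2 := cd2q0) (C3 := pd2)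
    rfl (fun _ => rfl) s8_pm_102

noncomputable def f_pm_112 : ℕ → ℕ → ℕ → ℕ → Bool := onCell 1073741824 536870912 536870912 536870912 587336777 62277027
    (rowB 3 eng mog cd1q1 cd2q1 pd2 2 true true false .dn 1 1 2 (qsf 536870912 536870912 536870912 536870912 2) ndB1q1 ndB2q1 pcB2 Cut.none Ext.none)

def k0_pm_112 : ∃ t, chk3 f_pm_112 t 1 1 1 = true :=
  ⟨(b (a (a (l 3) (a (a (a (b (l 3) (l 3)) (a (b (b (a (b (l 16719088) (l 3)) (b (l 16719224) (l 16717984))) (a (l 3) (l 16714696))) (l 3)) (b (a (b (a (b (l 16719088) (l 16717912)) (b (l 16719376) (l 16717672))) (a (l 16714232) (l 16714088))) (b (a (b (l 16720904) (l 16718608)) (a (a (a (l 16721352) (b (c (l 16731944) (l 16735848)) (l 16720832))) (l 16722944)) (l 16723104))) (a (a (l 16713712) (l 16713976)) (l 16714816)))) (b (a (l 3) (a (a (l 16707072) (l 16706816)) (l 46741277079))) (l 1))))) (b (b (b (l 16727192) (l 16724112)) (l 16716992)) (b (l 16704336) (l 183643303047)))) (b (b (a (l 16728464) (l 16727208))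 (a (l 16720624) (l 16725000))) (b (l 16725488) (l 114923887975))))) (a (b (a (b (l 16781736) (l 16731672)) (b (l 16690840) (l 16736208))) (a (b (l 16719896) (l 16687744)) (b (l 16748424) (l 16721512)))) (b (a (b (a (l 16653176) (l 16636128)) (l 16729040)) (b (a (l 16627184) (l 16627040)) (a (l 16721976) (l 16722800)))) (a (b (l 16784528) (l 16783112)) (b (l 16823376) (l 16870752)))))) (a (a (l 1) (a (l 1) (b (b (l 172905878471) (l 1)) (l 1)))) (a (b (a (b (l 16646736) (l 156262785559)) (b (l 16666544) (l 16601480))) (a (l 1) (b (l 152504577991) (l 1)))) (b (b (a (l 16726488) (l 16834080)) (a (l 16636208) (l 16727312))) (b (a (l 16541360) (l 16590008)) (a (l 185253627351) (l 96669823191))))))), by decide +kernel⟩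

theorem c_pm_112 : CertB 536870912 536870912 536870912 536870912 587336777 62277027 3 eng mog cd1q1 cd2q1 pd2 true true false .dn 1 1 2
    ndB1q1 ndB2q1 pcB2 Cut.none Ext.none :=
  certB2 (fam := true) (s1 := true) (s2 := false) (a := 1) (b := 1) (c := 2) (cn := .dn) (n1 := ndB1q1) (n2 := ndB2q1) (pc := pcB2) (cut := Cut.none) (xt := Ext.none) (P1 := 536870912) (W1 := 536870912) (P2 := 536870912) (W2 := 536870912) (P3 := 587336777) (W3 := 62277027) (N0 := 3) (En := eng) (mo := mog) (C1 := cd1q1) (C2 := cd2q1) (C3 := pd2)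
    rfl (fun _ => rfl) k0_pm_112

noncomputable def f_pm_113 : ℕ → ℕ → ℕ → ℕ → Bool := onCell 536870912 536870912 1610612736 536870912 587336777 62277027
    (rowB 3 eng mog cd1q1 cd2q1 pd3 1 true true false .nn 1 1 3 (qsf 536870912 536870912 536870912 536870912 3) ndB1q1 ndB2q1 pcB3 Cut.none Ext.none)

def k0_pm_113 : ∃ t, chk3 f_pm_113 t 1 1 1 = true :=
  ⟨(a (b (b (b (a (a (a (l 165456261559) (l 16555528)) (l 16664344)) (a (l 16804152) (l 16926488))) (a (a (b (l 245986936151) (l 2)) (l 131633536055)) (a (l 16770496) (l 16878048)))) (b (a (a (l 2) (b (l 280883648519) (l 2))) (a (l 16722752) (l 16837264))) (a (l 2) (a (b (l 333497694231) (l 2)) (l 16804832))))) (b (b (a (l 2) (a (l 2) (b (l 16807304) (l 2)))) (l 2)) (l 2))) (a (b (b (a (b (l 17004416) (l 16991344)) (b (l 16976272) (l 17131088))) (a (l 16902208) (b (l 17048144) (l 16965080)))) (b (b (a (l 16836352) (l 16899760)) (a (b (l 16999456) (l 2)) (l 16847368))) (b (a (l 2) (a (l 2) (l 252430561671)))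 (l 2)))) (a (b (b (b (b (a (l 16854208) (l 16796024)) (l 16923008)) (b (l 16972040) (l 17004864))) (b (l 17043120) (l 17072008))) (b (b (l 16975160) (l 16895520)) (b (l 16829912) (b (a (l 2) (l 16790304)) (l 2))))) (b (b (b (b (c (l 16759520) (l 16668600)) (l 16809256)) (b (l 16875936) (l 16906752))) (b (b (l 16935264) (l 16960424)) (l 16982968))) (b (b (l 16984544) (l 16955440)) (b (l 16868080) (b (l 16810376) (b (l 16785168) (b (l 16770720) (b (l 16762400) (b (l 16757192) (l 16750936)))))))))))), by decide +kernel⟩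

theorem c_pm_113 : CertB 536870912 536870912 536870912 536870912 587336777 62277027 3 eng mog cd1q1 cd2q1 pd3 true true false .nn 1 1 3
    ndB1q1 ndB2q1 pcB3 Cut.none Ext.none :=
  certB1 (fam := true) (s1 := true) (s2 := false) (a := 1) (b := 1) (c := 3) (cn := .nn) (n1 := ndB1q1) (n2 := ndB2q1) (pc := pcB3) (cut := Cut.none) (xt := Ext.none) (P1 := 536870912) (W1 := 536870912) (P2 := 536870912) (W2 := 536870912) (P3 := 587336777) (W3 := 62277027) (N0 := 3) (En := eng) (mo := mog) (C1 := cd1q1) (C2 := cd2q1) (C3 := pd3)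
    rfl (fun _ => rfl) k0_pm_113

noncomputable def f_pm_123_a : ℕ → ℕ → ℕ → ℕ → Bool := onCell 1610612736 536870912 0 536870912 587336777 62277027
    (rowB 3 eng mog cd1q1 cd2q2a pd3 2 true true false .npn 1 2 3 (qsf 536870912 536870912 0 536870912 3) ndB1q1 ndB2q2a pcB3 Cut.none Ext.none)

def k0_pm_123_a : ∃ t, chk3 f_pm_123_a t 1 2 1 = true :=
  ⟨(b (a (a (l 1) (a (a (l 16743072) (l 16761848)) (a (l 16774792) (l 16783936)))) (a (a (a (l 16791752) (l 16795992)) (a (c (l 100629966247) (l 112978001895)) (a (l 133915956775) (l 175791648711)))) (l 4))) (a (a (a (l 1) (a (l 1) (l 16684200))) (a (a (l 16710112) (l 16740776)) (l 16793160))) (a (a (a (l 16788496) (l 16793512)) (a (b (l 16793648) (l 16795960)) (a (l 16796352) (l 16798408)))) (a (a (a (l 16793880) (l 74860193287)) (b (l 4) (a (l 16780232) (l 237531918535)))) (l 4))))), by decide +kernel⟩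

def k1_pm_123_a : ∃ t, chk3 f_pm_123_a t 1 3 1 = true :=
  ⟨(b (a (a (a (l 1) (a (b (l 1) (l 16641752)) (b (l 16663000) (l 16659160)))) (a (a (b (l 16695728) (l 16695336)) (l 16736704)) (a (l 16768344) (l 16748160)))) (a (a (b (l 16799208) (l 16705808)) (a (l 16809392) (b (l 16800256) (l 16810704)))) (a (a (b (l 16798448) (l 16807120)) (b (a (l 16795192) (l 16792400)) (a (l 16805640) (l 16803416)))) (a (a (b (l 169349357319) (b (l 16793280) (l 16800576))) (b (l 4) (a (l 16781712) (l 198877260359)))) (a (b (l 4) (a (l 332021171927) (l 4))) (l 4)))))) (b (a (a (a (a (l 1) (l 16626976)) (a (l 16646016) (l 16677376))) (a (a (b (l 16708160) (l 16723760)) (l 16756560)) (a (l 16787584) (l 16832256)))) (a (a (a (l 16825184) (l 16830496)) (a (l 16830560) (l 16827968))) (a (a (l 16824856) (l 16818536)) (a (a (b (l 16805816) (l 16812936)) (a (l 16863512) (l 16880128))) (a (a (b (l 16781336) (l 16791072)) (l 189750495127)) (a (l 366380956711) (l 4))))))) (a (a (a (a (a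 (b (l 1) (c (l 16571216) (l 16613080))) (a (b (l 16581416) (l 16584672)) (b (l 16612816) (a (l 16610520) (l 16620040))))) (b (l 16629520) (l 16638048))) (a (a (l 16661472) (l 16686032)) (b (l 16703656) (l 16705360)))) (a (a (a (a (l 16737728) (l 16748576)) (l 16763424)) (c (l 16807544) (l 16771944))) (a (l 16839376) (c (l 16851104) (l 16830176))))) (a (a (a (l 16852960) (l 16857032)) (a (l 16858224) (l 16856280))) (a (a (l 16849368) (l 16836912)) (a (b (l 16814944) (l 16821024)) (a (b (a (l 16797472) (l 16789600)) (l 16797128)) (a (b (a (l 16780688) (l 16775672)) (l 16869560)) (a (b (l 16796192) (l 16818168)) (a (l 350274765367) (b (l 4) (l 4)))))))))))), by decide +kernel⟩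

theorem s2_pm_123_a : ∃ t, chk3 f_pm_123_a t 1 1 1 = true := ex3_b k0_pm_123_a k1_pm_123_a

theorem c_pm_123_a : CertB 536870912 536870912 0 536870912 587336777 62277027 3 eng mog cd1q1 cd2q2a pd3 true true false .npn 1 2 3
    ndB1q1 ndB2q2a pcB3 Cut.none Ext.none :=
  certB2 (fam := true) (s1 := true) (s2 := false) (a := 1) (b := 2) (c := 3) (cn := .npn) (n1 := ndB1q1) (n2 := ndB2q2a) (pc := pcB3) (cut := Cut.none) (xt := Ext.none) (P1 := 536870912) (W1 := 536870912) (P2 := 0) (W2 := 536870912) (P3 := 587336777) (W3 := 62277027) (N0 := 3) (En := eng) (mo := mog) (C1 := cd1q1) (C2 := cd2q2a) (C3 := pd3)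
    rfl (fun _ => rfl) s2_pm_123_a

noncomputable def f_pm_123_b : ℕ → ℕ → ℕ → ℕ → Bool := onCell 1610612736 536870912 1239849684 370763052 587336777 62277027
    (rowB 3 eng mog cd1q1 cd2q2b pd3 2 true true false .npn 1 2 3 (qsf 536870912 536870912 1239849684 370763052 3) ndB1q1 ndB2q2b pcB3 Cut.none Ext.none)

def k0_pm_123_b : ∃ t, chk3 f_pm_123_b t 1 1 1 = true :=
  ⟨(a (b (a (l 1) (a (b (l 16851704) (l 1)) (b (b (l 16762944) (l 16734600)) (a (l 1) (l 16740960))))) (l 1)) (a (a (b (a (b (l 16821472) (l 16758024)) (b (b (l 16777216) (l 16769112)) (l 4))) (l 1)) (b (l 4) (l 4))) (l 4))), by decide +kernel⟩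

theorem c_pm_123_b : CertB 536870912 536870912 1239849684 370763052 587336777 62277027 3 eng mog cd1q1 cd2q2b pd3 true true false .npn 1 2 3
    ndB1q1 ndB2q2b pcB3 Cut.none Ext.none :=
  certB2 (fam := true) (s1 := true) (s2 := false) (a := 1) (b := 2) (c := 3) (cn := .npn) (n1 := ndB1q1) (n2 := ndB2q2b) (pc := pcB3) (cut := Cut.none) (xt := Ext.none) (P1 := 536870912) (W1 := 536870912) (P2 := 1239849684) (W2 := 370763052) (P3 := 587336777) (W3 := 62277027) (N0 := 3) (En := eng) (mo := mog) (C1 := cd1q1) (C2 := cd2q2b) (C3 := pd3)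
    rfl (fun _ => rfl) k0_pm_123_b

noncomputable def f_pm_133 : ℕ → ℕ → ℕ → ℕ → Bool := onCell 536870912 536870912 1610612736 536870912 587336777 62277027
    (rowB 3 eng mog cd1q1 cd2q3 pd3 0 true true false .dn 1 3 3 (qsf 536870912 536870912 1610612736 536870912 3) ndB1q1 ndB2q3 pcB3 Cut.none Ext.none)

def k0_pm_133 : ∃ t, chk3 f_pm_133 t 1 1 1 = true :=
  ⟨(l 4), by decide +kernel⟩

theorem c_pm_133 : CertB 536870912 536870912 1610612736 536870912 587336777 62277027 3 eng mog cd1q1 cd2q3 pd3 true true false .dn 1 3 3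
    ndB1q1 ndB2q3 pcB3 Cut.none Ext.none :=
  certB0 (fam := true) (s1 := true) (s2 := false) (a := 1) (b := 3) (c := 3) (cn := .dn) (n1 := ndB1q1) (n2 := ndB2q3) (pc := pcB3) (cut := Cut.none) (xt := Ext.none) (P1 := 536870912) (W1 := 536870912) (P2 := 1610612736) (W2 := 536870912) (P3 := 587336777) (W3 := 62277027) (N0 := 3) (En := eng) (mo := mog) (C1 := cd1q1) (C2 := cd2q3) (C3 := pd3)
    rfl k0_pm_133

noncomputable def cut_pm_202_a : Cut := Cut.of [[⟨0, 1, 0, 67108864⟩, ⟨1, 0, 0, 67108864⟩, ⟨2, 1, 0, 67108864⟩]]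

noncomputable def f_pm_202_a : ℕ → ℕ → ℕ → ℕ → Bool := onCell 0 536870912 1073741824 536870912 587336777 62277027
    (rowB 3 eng mog cd1q2a cd2q0 pd2 1 true true false .pp 2 0 2 (qsf 0 536870912 0 536870912 2) ndB1q2a ndB2q0 pcB2 cut_pm_202_a Ext.none)

def k0_pm_202_a : ∃ t, chk3 f_pm_202_a t 2 1 1 = true :=
  ⟨(b (a (b (l 1) (b (b (b (l 1) (a (b (l 1) (l 162704779623)) (a (l 16459688) (l 16467096)))) (a (b (l 16501424) (l 16459968)) (b (a (l 16483456) (b (l 16468904) (l 16469696))) (l 16468232)))) (a (b (l 16465704) (l 16473992)) (b (a (l 16469600) (l 16475136)) (l 16479064))))) (a (b (l 1) (b (b (b (b (l 1) (a (l 16474528) (l 16486624))) (a (b (l 16475992) (l 16477144)) (c (l 16490872) (l 16483872)))) (b (b (c (l 16485016) (l 16480712)) (a (l 16478416) (l 16488696))) (a (l 16479432) (l 16489008)))) (b (a (l 16482392) (l 16490576)) (a (l 16487168) (l 16493552))))) (b (b (l 1) (b (l 1) (b (l 1) (a (l 1) (b (l 1) (c (l 16520384) (a (l 16504328) (l 191159064551))))))))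 (b (a (b (a (b (a (l 131566365111) (l 168610468935)) (c (l 16500096) (l 16493696))) (b (b (l 16503472) (l 16504120)) (b (l 16504408) (b (l 16504384) (b (l 16504288) (l 16504200)))))) (b (c (l 16500896) (l 16498712)) (l 16499552))) (b (b (b (c (l 16519888) (l 130492653815)) (l 16515712)) (b (c (l 16517784) (l 16511840)) (b (l 16515016) (b (l 16514712) (l 16514480))))) (b (l 16513120) (l 16510432)))) (b (a (l 16499264) (l 16507632)) (l 16555080)))))) (b (b (a (a (b (l 16482440) (l 16490664)) (b (l 16485952) (l 16492968))) (a (b (a (l 16492496) (l 16497272)) (l 16499680)) (a (l 16588640) (l 16502792)))) (a (b (a (l 16514736) (l 16525976)) (a (l 16530096) (l 16516688))) (a (b (l 16548312) (l 16514536)) (b (l 16568544) (l 16520872))))) (a (a (b (b (l 16543216) (l 16561024)) (b (l 16584520) (l 16601448))) (b (l 16542640) (b (l 16569280) (l 16585368)))) (b (a (l 16535640) (l 16526128)) (a (l 16562112) (l 16538200)))))), by decide +kernel⟩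

def k1_pm_202_a : ∃ t, chk3 f_pm_202_a t 3 8 1 = true :=
  ⟨(a (l 1) (b (a (l 1) (l 6)) (b (a (a (l 1) (l 6)) (l 6)) (b (a (a (l 1) (l 6)) (l 6)) (a (a (a (l 1) (a (l 129956052983) (l 186864391095))) (b (l 6) (a (l 16657368) (l 16670048)))) (a (a (l 16683872) (l 16692304)) (a (l 16698752) (l 16704408)))))))), by decide +kernel⟩

def k2_pm_202_a : ∃ t, chk3 f_pm_202_a t 3 9 1 = true :=
  ⟨(a (a (b (l 1) (b (a (b (l 1) (a (l 1) (c (l 16543816) (l 87006140375)))) (a (b (l 1) (c (l 16553568) (l 173442377559))) (c (l 199212242903) (b (l 140156406439) (l 16553936))))) (a (c (b (l 141767000615) (l 16537392)) (b (a (l 134250763079) (l 198138420279)) (a (l 16522792) (l 16532512)))) (b (a (l 16547864) (l 16557808)) (a (l 16546888) (l 16556264)))))) (b (b (a (l 1) (b (l 1) (a (l 83248190327) (l 172368804391)))) (a (b (a (l 1) (l 119218506135)) (a (c (l 16577416) (l 112239140967)) (c (l 16588360) (l 200285999383)))) (a (b (a (l 160020716055) (l 16601160)) (l 16595856))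 (b (l 16610208) (l 16607312))))) (a (b (a (b (c (l 16575448) (l 225518905463)) (l 16569560)) (b (l 16582240) (l 16580088))) (b (a (l 16567736) (l 16577656)) (c (l 16572288) (l 16567680)))) (b (a (b (l 16593328) (l 16590544)) (b (l 16604184) (l 16600784))) (l 16590624))))) (a (b (a (b (a (b (b (l 127271657255) (l 16627824)) (l 16625496)) (b (a (l 16638480) (l 16644944)) (a (l 16634888) (l 16641024)))) (a (b (l 16622200) (l 16618664)) (l 16605728))) (b (a (b (b (l 16655288) (l 16653160)) (l 16649880)) (l 16695456)) (l 16699760))) (a (b (l 16639072) (l 16606712)) (b (l 16633336) (l 16620416)))) (b (a (b (a (l 16673144) (l 16679920)) (a (l 16657672) (l 16664144))) (a (b (l 16686168) (l 16670120)) (b (l 16691640) (l 16675328)))) (a (b (a (l 16643168) (l 16649320)) (l 16632744)) (b (l 16657592) (l 16643296)))))), by decide +kernel⟩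

def k3_pm_202_a : ∃ t, chk3 f_pm_202_a t 3 5 1 = true :=
  ⟨(a (b (b (b (a (a (b (a (l 16528152) (l 16536832)) (c (l 16534384) (l 16528080))) (b (a (l 16545616) (l 16554432)) (l 16548272))) (a (l 16566256) (l 16582056))) (b (a (a (l 16530656) (l 16546088)) (l 16568832)) (b (a (a (l 16529568) (l 16544216)) (l 16565880)) (a (a (l 16549704) (l 16542864)) (a (l 16556856) (l 16570080)))))) (a (a (l 16587216) (l 16558176)) (a (l 16549840) (l 16561688)))) (a (b (l 16585944) (l 16600016)) (b (l 16564880) (l 16535728)))) (b (b (b (a (a (l 16595688) (l 16608552)) (a (l 16620088) (l 16650856))) (a (b (a (l 16588128) (l 16600296)) (b (a (l 16584584) (l 16596384)) (a (l 16582328) (b (l 16594488) (l 16593256))))) (b (a (l 16611192) (l 16620392)) (b (a (l 16606936) (l 16615880)) (a (b (l 16604864) (l 16603520)) (b (l 16613696) (l 16612248))))))) (a (a (b (l 16576808) (l 16568528)) (b (l 16587696) (l 16578808))) (a (b (l 16597688) (l 16588296)) (b (l 16605984) (l 16595696)))))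 (a (a (b (l 16558064) (l 16548384)) (l 16582368)) (a (l 16610296) (b (l 16581584) (l 16565608)))))), by decide +kernel⟩

def k4_pm_202_a : ∃ t, chk3 f_pm_202_a t 3 3 1 = true :=
  ⟨(b (a (b (a (b (l 16515704) (l 16520816)) (b (l 16533208) (l 16534160))) (a (b (l 16528728) (l 16530048)) (b (a (l 16535840) (l 16537872)) (l 16536352)))) (b (a (b (l 16545408) (l 16541160)) (a (l 16546968) (l 16547944))) (a (b (l 16539968) (l 16535792)) (b (l 16539104) (l 16531568))))) (a (b (a (l 16531096) (l 16532280)) (a (l 16536928) (l 16531904))) (b (a (l 16531288) (l 16525512)) (a (l 16528480) (l 16526648))))), by decide +kernel⟩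

theorem s5_pm_202_a : ∃ t, chk3 f_pm_202_a t 3 4 1 = true := ex3_b k1_pm_202_a k2_pm_202_a

theorem s6_pm_202_a : ∃ t, chk3 f_pm_202_a t 3 2 1 = true := ex3_b s5_pm_202_a k3_pm_202_a

theorem s7_pm_202_a : ∃ t, chk3 f_pm_202_a t 3 1 1 = true := ex3_b s6_pm_202_a k4_pm_202_a

theorem s8_pm_202_a : ∃ t, chk3 f_pm_202_a t 1 1 1 = true := ex3_a k0_pm_202_a s7_pm_202_a

theorem c_pm_202_a : CertB 0 536870912 0 536870912 587336777 62277027 3 eng mog cd1q2a cd2q0 pd2 true true false .pp 2 0 2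
    ndB1q2a ndB2q0 pcB2 cut_pm_202_a Ext.none :=
  certB1 (fam := true) (s1 := true) (s2 := false) (a := 2) (b := 0) (c := 2) (cn := .pp) (n1 := ndB1q2a) (n2 := ndB2q0) (pc := pcB2) (cut := cut_pm_202_a) (xt := Ext.none) (P1 := 0) (W1 := 536870912) (P2 := 0) (W2 := 536870912) (P3 := 587336777) (W3 := 62277027) (N0 := 3) (En := eng) (mo := mog) (C1 := cd1q2a) (C2 := cd2q0) (C3 := pd2)
    rfl (fun _ => rfl) s8_pm_202_a

noncomputable def cut_pm_202_b : Cut := Cut.of [[⟨0, 1, 0, 67108864⟩, ⟨1, 0, 0, 67108864⟩, ⟨2, 1, 0, 67108864⟩]]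

noncomputable def f_pm_202_b : ℕ → ℕ → ℕ → ℕ → Bool := onCell 1073741824 536870912 0 536870912 587336777 62277027
    (rowB 3 eng mog cd1q2b cd2q0 pd2 2 true true false .pp 2 0 2 (qsf 1239849684 370763052 0 536870912 2) ndB1q2b ndB2q0 pcB2 cut_pm_202_b Ext.none)

def k0_pm_202_b : ∃ t, chk3 f_pm_202_b t 1 1 1 = true :=
  ⟨(a (b (a (l 1) (b (b (a (a (b (b (l 36003446407) (l 1)) (l 1)) (b (b (l 16498864) (l 16533920)) (a (l 1) (l 16487840)))) (b (a (l 16394296) (l 16341048)) (a (l 16461992) (l 16407864)))) (a (l 1) (a (b (l 184716640551) (l 1)) (b (l 16471352) (l 173979234135))))) (l 1))) (l 1)) (a (b (b (a (b (b (l 16271024) (l 16357192)) (a (l 49425197623) (l 16427568))) (b (a (l 16244880) (l 16225904)) (a (l 16366632) (l 16343784)))) (a (b (b (a (l 234645663831) (l 16512416)) (a (l 1) (l 275984811959))) (l 1)) (b (a (b (l 16450008) (l 206728384135)) (l 16495224)) (a (b (l 297459691239) (l 1)) (b (l 207802187703) (l 365642331943)))))) (l 1)) (b (b (a (b (l 16217088)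 (l 16327200)) (b (l 16234400) (l 16328656))) (a (b (a (l 16438296) (l 16429400)) (a (b (l 16508448) (l 191159279335)) (l 16521584))) (b (l 16423328) (l 16512968)))) (b (a (b (a (l 362958058983) (l 257194467223)) (l 1)) (b (a (l 16624520) (l 16581688)) (a (l 312492273591) (l 292091129079)))) (l 1))))), by decide +kernel⟩

theorem c_pm_202_b : CertB 1239849684 370763052 0 536870912 587336777 62277027 3 eng mog cd1q2b cd2q0 pd2 true true false .pp 2 0 2
    ndB1q2b ndB2q0 pcB2 cut_pm_202_b Ext.none :=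
  certB2 (fam := true) (s1 := true) (s2 := false) (a := 2) (b := 0) (c := 2) (cn := .pp) (n1 := ndB1q2b) (n2 := ndB2q0) (pc := pcB2) (cut := cut_pm_202_b) (xt := Ext.none) (P1 := 1239849684) (W1 := 370763052) (P2 := 0) (W2 := 536870912) (P3 := 587336777) (W3 := 62277027) (N0 := 3) (En := eng) (mo := mog) (C1 := cd1q2b) (C2 := cd2q0) (C3 := pd2)
    rfl (fun _ => rfl) k0_pm_202_b

noncomputable def f_pm_203_a : ℕ → ℕ → ℕ → ℕ → Bool := onCell 0 536870912 1610612736 536870912 587336777 62277027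
    (rowB 3 eng mog cd1q2a cd2q0 pd3 1 true true false .up 2 0 3 (qsf 0 536870912 0 536870912 3) ndB1q2a ndB2q0 pcB3 Cut.none Ext.none)

def k0_pm_203_a : ∃ t, chk3 f_pm_203_a t 1 1 1 = true :=
  ⟨(b (a (b (b (a (b (a (l 16618648) (l 16591400)) (l 16659640)) (b (a (l 16574520) (l 16695288)) (l 16640200))) (a (b (l 16706648) (l 16744144)) (b (l 16681600) (l 16718816)))) (b (a (b (l 16774480) (l 16793480)) (b (l 16756504) (l 2))) (l 2))) (a (b (b (b (b (a (l 16527408) (l 16513632)) (a (l 16600224) (l 16600304))) (l 16640888)) (b (l 16672216) (l 16705920))) (l 2)) (b (b (b (a (b (l 16501184) (l 16602800)) (b (l 16520080) (l 16617352))) (l 16656488)) (b (l 16684224) (l 2))) (l 2)))) (l 2)), by decide +kernel⟩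

theorem c_pm_203_a : CertB 0 536870912 0 536870912 587336777 62277027 3 eng mog cd1q2a cd2q0 pd3 true true false .up 2 0 3
    ndB1q2a ndB2q0 pcB3 Cut.none Ext.none :=
  certB1 (fam := true) (s1 := true) (s2 := false) (a := 2) (b := 0) (c := 3) (cn := .up) (n1 := ndB1q2a) (n2 := ndB2q0) (pc := pcB3) (cut := Cut.none) (xt := Ext.none) (P1 := 0) (W1 := 536870912) (P2 := 0) (W2 := 536870912) (P3 := 587336777) (W3 := 62277027) (N0 := 3) (En := eng) (mo := mog) (C1 := cd1q2a) (C2 := cd2q0) (C3 := pd3)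
    rfl (fun _ => rfl) k0_pm_203_a

noncomputable def f_pm_203_b : ℕ → ℕ → ℕ → ℕ → Bool := onCell 1239849684 370763052 1610612736 536870912 587336777 62277027
    (rowB 3 eng mog cd1q2b cd2q0 pd3 1 true true false .up 2 0 3 (qsf 1239849684 370763052 0 536870912 3) ndB1q2b ndB2q0 pcB3 Cut.none Ext.none)

def k0_pm_203_b : ∃ t, chk3 f_pm_203_b t 1 1 1 = true :=
  ⟨(b (b (a (b (a (b (l 16606592) (l 16611256)) (l 16532064)) (a (b (l 16614168) (l 16671920)) (l 16583272))) (b (a (l 16420984) (l 16303040)) (a (l 16492664) (l 16383408)))) (b (b (a (a (l 16712184) (l 16629376)) (l 16512360)) (l 4)) (l 4))) (l 4)), by decide +kernel⟩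

theorem c_pm_203_b : CertB 1239849684 370763052 0 536870912 587336777 62277027 3 eng mog cd1q2b cd2q0 pd3 true true false .up 2 0 3
    ndB1q2b ndB2q0 pcB3 Cut.none Ext.none :=
  certB1 (fam := true) (s1 := true) (s2 := false) (a := 2) (b := 0) (c := 3) (cn := .up) (n1 := ndB1q2b) (n2 := ndB2q0) (pc := pcB3) (cut := Cut.none) (xt := Ext.none) (P1 := 1239849684) (W1 := 370763052) (P2 := 0) (W2 := 536870912) (P3 := 587336777) (W3 := 62277027) (N0 := 3) (En := eng) (mo := mog) (C1 := cd1q2b) (C2 := cd2q0) (C3 := pd3)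
    rfl (fun _ => rfl) k0_pm_203_b

noncomputable def f_pm_213_a : ℕ → ℕ → ℕ → ℕ → Bool := onCell 0 536870912 1610612736 536870912 587336777 62277027
    (rowB 3 eng mog cd1q2a cd2q1 pd3 1 true true false .pnn 2 1 3 (qsf 0 536870912 536870912 536870912 3) ndB1q2a ndB2q1 pcB3 Cut.none Ext.none)

def k0_pm_213_a : ∃ t, chk3 f_pm_213_a t 1 1 1 = true :=
  ⟨(b (b (a (b (l 1) (a (l 1) (l 190085959399))) (b (a (l 1) (a (b (l 1) (l 16756432)) (b (b (l 16632888) (l 16729784)) (l 16784000)))) (b (a (l 16780448) (a (l 16790008) (l 16837256))) (a (l 16813792) (a (l 16840720) (l 16869992)))))) (b (a (a (b (l 16792992) (l 16776064)) (b (l 16838256) (l 16864768))) (a (b (l 16863984) (l 16897736)) (b (a (l 16869368) (l 16892784)) (a (l 16898792) (l 16922520))))) (a (a (l 66270208231) (l 16953576)) (a (b (l 16911336) (l 16915032)) (b (l 16930256) (l 16941024)))))) (a (b (a (l 4) (b (b (l 16784496) (l 16761184)) (b (l 102777087543) (l 4)))) (l 4)) (a (b (b (a (l 16852816) (l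 16913464)) (b (l 16868360) (l 16898768))) (b (b (l 16910376) (a (l 4) (l 16758168))) (l 4))) (b (b (b (l 16942040) (l 16934864)) (b (l 16982560) (a (l 16877560) (l 16911624)))) (b (a (b (l 16836968) (l 16800216)) (b (l 16872176) (l 16832488))) (b (a (l 16763232) (b (l 16803288) (l 16786832))) (b (l 125326065911) (l 4)))))))), by decide +kernel⟩

theorem c_pm_213_a : CertB 0 536870912 536870912 536870912 587336777 62277027 3 eng mog cd1q2a cd2q1 pd3 true true false .pnn 2 1 3
    ndB1q2a ndB2q1 pcB3 Cut.none Ext.none :=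
  certB1 (fam := true) (s1 := true) (s2 := false) (a := 2) (b := 1) (c := 3) (cn := .pnn) (n1 := ndB1q2a) (n2 := ndB2q1) (pc := pcB3) (cut := Cut.none) (xt := Ext.none) (P1 := 0) (W1 := 536870912) (P2 := 536870912) (W2 := 536870912) (P3 := 587336777) (W3 := 62277027) (N0 := 3) (En := eng) (mo := mog) (C1 := cd1q2a) (C2 := cd2q1) (C3 := pd3)
    rfl (fun _ => rfl) k0_pm_213_a

noncomputable def f_pm_213_b : ℕ → ℕ → ℕ → ℕ → Bool := onCell 1239849684 370763052 536870912 536870912 587336777 62277027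
    (rowB 3 eng mog cd1q2b cd2q1 pd3 0 true true false .pnn 2 1 3 (qsf 1239849684 370763052 536870912 536870912 3) ndB1q2b ndB2q1 pcB3 Cut.none Ext.none)

def k0_pm_213_b : ∃ t, chk3 f_pm_213_b t 1 1 1 = true :=
  ⟨(b (a (b (l 4) (l 4)) (l 4)) (l 4)), by decide +kernel⟩

theorem c_pm_213_b : CertB 1239849684 370763052 536870912 536870912 587336777 62277027 3 eng mog cd1q2b cd2q1 pd3 true true false .pnn 2 1 3
    ndB1q2b ndB2q1 pcB3 Cut.none Ext.none :=
  certB0 (fam := true) (s1 := true) (s2 := false) (a := 2) (b := 1) (c := 3) (cn := .pnn) (n1 := ndB1q2b) (n2 := ndB2q1) (pc := pcB3) (cut := Cut.none) (xt := Ext.none) (P1 := 1239849684) (W1 := 370763052) (P2 := 536870912) (W2 := 536870912) (P3 := 587336777) (W3 := 62277027) (N0 := 3) (En := eng) (mo := mog) (C1 := cd1q2b) (C2 := cd2q1) (C3 := pd3)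
    rfl k0_pm_213_b

noncomputable def f_pm_303 : ℕ → ℕ → ℕ → ℕ → Bool := onCell 1610612736 536870912 0 536870912 587336777 62277027
    (rowB 3 eng mog cd1q3 cd2q0 pd3 2 true true false .npn 3 0 3 (qsf 1610612736 536870912 0 536870912 3) ndB1q3 ndB2q0 pcB3 Cut.none Ext.none)

def k0_pm_303 : ∃ t, chk3 f_pm_303 t 1 1 1 = true :=
  ⟨(a (a (b (a (b (l 16274400) (l 1)) (b (l 16268120) (l 16441016))) (l 1)) (a (b (b (l 16389960) (l 16487568)) (l 1)) (l 4))) (l 4)), by decide +kernel⟩

theorem c_pm_303 : CertB 1610612736 536870912 0 536870912 587336777 62277027 3 eng mog cd1q3 cd2q0 pd3 true true false .npn 3 0 3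
    ndB1q3 ndB2q0 pcB3 Cut.none Ext.none :=
  certB2 (fam := true) (s1 := true) (s2 := false) (a := 3) (b := 0) (c := 3) (cn := .npn) (n1 := ndB1q3) (n2 := ndB2q0) (pc := pcB3) (cut := Cut.none) (xt := Ext.none) (P1 := 1610612736) (W1 := 536870912) (P2 := 0) (W2 := 536870912) (P3 := 587336777) (W3 := 62277027) (N0 := 3) (En := eng) (mo := mog) (C1 := cd1q3) (C2 := cd2q0) (C3 := pd3)
    rfl (fun _ => rfl) k0_pm_303

noncomputable def f_pm_313 : ℕ → ℕ → ℕ → ℕ → Bool := onCell 1610612736 536870912 536870912 536870912 587336777 62277027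
    (rowB 3 eng mog cd1q3 cd2q1 pd3 0 true true false .dn 3 1 3 (qsf 1610612736 536870912 536870912 536870912 3) ndB1q3 ndB2q1 pcB3 Cut.none Ext.none)

def k0_pm_313 : ∃ t, chk3 f_pm_313 t 1 1 1 = true :=
  ⟨(l 4), by decide +kernel⟩

theorem c_pm_313 : CertB 1610612736 536870912 536870912 536870912 587336777 62277027 3 eng mog cd1q3 cd2q1 pd3 true true false .dn 3 1 3
    ndB1q3 ndB2q1 pcB3 Cut.none Ext.none :=
  certB0 (fam := true) (s1 := true) (s2 := false) (a := 3) (b := 1) (c := 3) (cn := .dn) (n1 := ndB1q3) (n2 := ndB2q1) (pc := pcB3) (cut := Cut.none) (xt := Ext.none) (P1 := 1610612736) (W1 := 536870912) (P2 := 536870912) (W2 := 536870912) (P3 := 587336777) (W3 := 62277027) (N0 := 3) (En := eng) (mo := mog) (C1 := cd1q3) (C2 := cd2q1) (C3 := pd3)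
    rfl k0_pm_313

noncomputable def f_mm_001 : ℕ → ℕ → ℕ → ℕ → Bool := onCell 0 536870912 0 536870912 587336777 62277027
    (rowB 3 eng mog cd1q0 cd2q0 pd1 0 true false false .up 0 0 1 (qsf 0 536870912 0 536870912 1) ndB1q0 ndB2q0 pcB1 Cut.none Ext.none)

def k0_mm_001 : ∃ t, chk3 f_mm_001 t 1 1 1 = true :=
  ⟨(l 4), by decide +kernel⟩

theorem c_mm_001 : CertB 0 536870912 0 536870912 587336777 62277027 3 eng mog cd1q0 cd2q0 pd1 true false false .up 0 0 1
    ndB1q0 ndB2q0 pcB1 Cut.none Ext.none :=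
  certB0 (fam := true) (s1 := false) (s2 := false) (a := 0) (b := 0) (c := 1) (cn := .up) (n1 := ndB1q0) (n2 := ndB2q0) (pc := pcB1) (cut := Cut.none) (xt := Ext.none) (P1 := 0) (W1 := 536870912) (P2 := 0) (W2 := 536870912) (P3 := 587336777) (W3 := 62277027) (N0 := 3) (En := eng) (mo := mog) (C1 := cd1q0) (C2 := cd2q0) (C3 := pd1)
    rfl k0_mm_001

noncomputable def f_mm_011 : ℕ → ℕ → ℕ → ℕ → Bool := onCell 0 536870912 536870912 536870912 587336777 62277027
    (rowB 3 eng mog cd1q0 cd2q1 pd1 0 true false false .pnn 0 1 1 (qsf 0 536870912 536870912 536870912 1) ndB1q0 ndB2q1 pcB1 Cut.none Ext.none)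

def k0_mm_011 : ∃ t, chk3 f_mm_011 t 1 1 1 = true :=
  ⟨(l 4), by decide +kernel⟩

theorem c_mm_011 : CertB 0 536870912 536870912 536870912 587336777 62277027 3 eng mog cd1q0 cd2q1 pd1 true false false .pnn 0 1 1
    ndB1q0 ndB2q1 pcB1 Cut.none Ext.none :=
  certB0 (fam := true) (s1 := false) (s2 := false) (a := 0) (b := 1) (c := 1) (cn := .pnn) (n1 := ndB1q0) (n2 := ndB2q1) (pc := pcB1) (cut := Cut.none) (xt := Ext.none) (P1 := 0) (W1 := 536870912) (P2 := 536870912) (W2 := 536870912) (P3 := 587336777) (W3 := 62277027) (N0 := 3) (En := eng) (mo := mog) (C1 := cd1q0) (C2 := cd2q1) (C3 := pd1)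
    rfl k0_mm_011

noncomputable def f_mm_012 : ℕ → ℕ → ℕ → ℕ → Bool := onCell 0 536870912 536870912 536870912 587336777 62277027
    (rowB 3 eng mog cd1q0 cd2q1 pd2 0 true false false .pnp 0 1 2 (qsf 0 536870912 536870912 536870912 2) ndB1q0 ndB2q1 pcB2 Cut.none Ext.none)

def k0_mm_012 : ∃ t, chk3 f_mm_012 t 1 1 1 = true :=
  ⟨(l 4), by decide +kernel⟩

theorem c_mm_012 : CertB 0 536870912 536870912 536870912 587336777 62277027 3 eng mog cd1q0 cd2q1 pd2 true false false .pnp 0 1 2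
    ndB1q0 ndB2q1 pcB2 Cut.none Ext.none :=
  certB0 (fam := true) (s1 := false) (s2 := false) (a := 0) (b := 1) (c := 2) (cn := .pnp) (n1 := ndB1q0) (n2 := ndB2q1) (pc := pcB2) (cut := Cut.none) (xt := Ext.none) (P1 := 0) (W1 := 536870912) (P2 := 536870912) (W2 := 536870912) (P3 := 587336777) (W3 := 62277027) (N0 := 3) (En := eng) (mo := mog) (C1 := cd1q0) (C2 := cd2q1) (C3 := pd2)
    rfl k0_mm_012

noncomputable def f_mm_022_a : ℕ → ℕ → ℕ → ℕ → Bool := onCell 0 536870912 0 536870912 587336777 62277027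
    (rowB 3 eng mog cd1q0 cd2q2a pd2 0 true false false .pp 0 2 2 (qsf 0 536870912 0 536870912 2) ndB1q0 ndB2q2a pcB2 Cut.none Ext.none)

def k0_mm_022_a : ∃ t, chk3 f_mm_022_a t 1 1 1 = true :=
  ⟨(l 5), by decide +kernel⟩

theorem c_mm_022_a : CertB 0 536870912 0 536870912 587336777 62277027 3 eng mog cd1q0 cd2q2a pd2 true false false .pp 0 2 2
    ndB1q0 ndB2q2a pcB2 Cut.none Ext.none :=
  certB0 (fam := true) (s1 := false) (s2 := false) (a := 0) (b := 2) (c := 2) (cn := .pp) (n1 := ndB1q0) (n2 := ndB2q2a) (pc := pcB2) (cut := Cut.none) (xt := Ext.none) (P1 := 0) (W1 := 536870912) (P2 := 0) (W2 := 536870912) (P3 := 587336777) (W3 := 62277027) (N0 := 3) (En := eng) (mo := mog) (C1 := cd1q0) (C2 := cd2q2a) (C3 := pd2)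
    rfl k0_mm_022_a

noncomputable def f_mm_022_b : ℕ → ℕ → ℕ → ℕ → Bool := onCell 0 536870912 1239849684 370763052 587336777 62277027
    (rowB 3 eng mog cd1q0 cd2q2b pd2 0 true false false .pp 0 2 2 (qsf 0 536870912 1239849684 370763052 2) ndB1q0 ndB2q2b pcB2 Cut.none Ext.none)

def k0_mm_022_b : ∃ t, chk3 f_mm_022_b t 1 1 1 = true :=
  ⟨(l 5), by decide +kernel⟩

theorem c_mm_022_b : CertB 0 536870912 1239849684 370763052 587336777 62277027 3 eng mog cd1q0 cd2q2b pd2 true false false .pp 0 2 2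
    ndB1q0 ndB2q2b pcB2 Cut.none Ext.none :=
  certB0 (fam := true) (s1 := false) (s2 := false) (a := 0) (b := 2) (c := 2) (cn := .pp) (n1 := ndB1q0) (n2 := ndB2q2b) (pc := pcB2) (cut := Cut.none) (xt := Ext.none) (P1 := 0) (W1 := 536870912) (P2 := 1239849684) (W2 := 370763052) (P3 := 587336777) (W3 := 62277027) (N0 := 3) (En := eng) (mo := mog) (C1 := cd1q0) (C2 := cd2q2b) (C3 := pd2)
    rfl k0_mm_022_b

noncomputable def f_mm_023_a : ℕ → ℕ → ℕ → ℕ → Bool := onCell 0 536870912 0 536870912 587336777 62277027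
    (rowB 3 eng mog cd1q0 cd2q2a pd3 0 true false false .up 0 2 3 (qsf 0 536870912 0 536870912 3) ndB1q0 ndB2q2a pcB3 Cut.none Ext.none)

def k0_mm_023_a : ∃ t, chk3 f_mm_023_a t 1 1 1 = true :=
  ⟨(l 5), by decide +kernel⟩

theorem c_mm_023_a : CertB 0 536870912 0 536870912 587336777 62277027 3 eng mog cd1q0 cd2q2a pd3 true false false .up 0 2 3
    ndB1q0 ndB2q2a pcB3 Cut.none Ext.none :=
  certB0 (fam := true) (s1 := false) (s2 := false) (a := 0) (b := 2) (c := 3) (cn := .up) (n1 := ndB1q0) (n2 := ndB2q2a) (pc := pcB3) (cut := Cut.none) (xt := Ext.none) (P1 := 0) (W1 := 536870912) (P2 := 0) (W2 := 536870912) (P3 := 587336777) (W3 := 62277027) (N0 := 3) (En := eng) (mo := mog) (C1 := cd1q0) (C2 := cd2q2a) (C3 := pd3)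
    rfl k0_mm_023_a

noncomputable def f_mm_023_b : ℕ → ℕ → ℕ → ℕ → Bool := onCell 0 536870912 1239849684 370763052 587336777 62277027
    (rowB 3 eng mog cd1q0 cd2q2b pd3 0 true false false .up 0 2 3 (qsf 0 536870912 1239849684 370763052 3) ndB1q0 ndB2q2b pcB3 Cut.none Ext.none)

def k0_mm_023_b : ∃ t, chk3 f_mm_023_b t 1 1 1 = true :=
  ⟨(l 5), by decide +kernel⟩

theorem c_mm_023_b : CertB 0 536870912 1239849684 370763052 587336777 62277027 3 eng mog cd1q0 cd2q2b pd3 true false false .up 0 2 3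
    ndB1q0 ndB2q2b pcB3 Cut.none Ext.none :=
  certB0 (fam := true) (s1 := false) (s2 := false) (a := 0) (b := 2) (c := 3) (cn := .up) (n1 := ndB1q0) (n2 := ndB2q2b) (pc := pcB3) (cut := Cut.none) (xt := Ext.none) (P1 := 0) (W1 := 536870912) (P2 := 1239849684) (W2 := 370763052) (P3 := 587336777) (W3 := 62277027) (N0 := 3) (En := eng) (mo := mog) (C1 := cd1q0) (C2 := cd2q2b) (C3 := pd3)
    rfl k0_mm_023_b

noncomputable def f_mm_033 : ℕ → ℕ → ℕ → ℕ → Bool := onCell 0 536870912 1610612736 536870912 587336777 62277027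
    (rowB 3 eng mog cd1q0 cd2q3 pd3 0 true false false .pnn 0 3 3 (qsf 0 536870912 1610612736 536870912 3) ndB1q0 ndB2q3 pcB3 Cut.none Ext.none)

def k0_mm_033 : ∃ t, chk3 f_mm_033 t 1 1 1 = true :=
  ⟨(l 5), by decide +kernel⟩

theorem c_mm_033 : CertB 0 536870912 1610612736 536870912 587336777 62277027 3 eng mog cd1q0 cd2q3 pd3 true false false .pnn 0 3 3
    ndB1q0 ndB2q3 pcB3 Cut.none Ext.none :=
  certB0 (fam := true) (s1 := false) (s2 := false) (a := 0) (b := 3) (c := 3) (cn := .pnn) (n1 := ndB1q0) (n2 := ndB2q3) (pc := pcB3) (cut := Cut.none) (xt := Ext.none) (P1 := 0) (W1 := 536870912) (P2 := 1610612736) (W2 := 536870912) (P3 := 587336777) (W3 := 62277027) (N0 := 3) (En := eng) (mo := mog) (C1 := cd1q0) (C2 := cd2q3) (C3 := pd3)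
    rfl k0_mm_033

noncomputable def f_mm_101 : ℕ → ℕ → ℕ → ℕ → Bool := onCell 536870912 536870912 0 536870912 587336777 62277027
    (rowB 3 eng mog cd1q1 cd2q0 pd1 0 true false false .npn 1 0 1 (qsf 536870912 536870912 0 536870912 1) ndB1q1 ndB2q0 pcB1 Cut.none Ext.none)

def k0_mm_101 : ∃ t, chk3 f_mm_101 t 1 1 1 = true :=
  ⟨(l 4), by decide +kernel⟩

theorem c_mm_101 : CertB 536870912 536870912 0 536870912 587336777 62277027 3 eng mog cd1q1 cd2q0 pd1 true false false .npn 1 0 1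
    ndB1q1 ndB2q0 pcB1 Cut.none Ext.none :=
  certB0 (fam := true) (s1 := false) (s2 := false) (a := 1) (b := 0) (c := 1) (cn := .npn) (n1 := ndB1q1) (n2 := ndB2q0) (pc := pcB1) (cut := Cut.none) (xt := Ext.none) (P1 := 536870912) (W1 := 536870912) (P2 := 0) (W2 := 536870912) (P3 := 587336777) (W3 := 62277027) (N0 := 3) (En := eng) (mo := mog) (C1 := cd1q1) (C2 := cd2q0) (C3 := pd1)
    rfl k0_mm_101

noncomputable def f_mm_102 : ℕ → ℕ → ℕ → ℕ → Bool := onCell 536870912 536870912 0 536870912 587336777 62277027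
    (rowB 3 eng mog cd1q1 cd2q0 pd2 0 true false false .npp 1 0 2 (qsf 536870912 536870912 0 536870912 2) ndB1q1 ndB2q0 pcB2 Cut.none Ext.none)

def k0_mm_102 : ∃ t, chk3 f_mm_102 t 1 1 1 = true :=
  ⟨(l 4), by decide +kernel⟩

theorem c_mm_102 : CertB 536870912 536870912 0 536870912 587336777 62277027 3 eng mog cd1q1 cd2q0 pd2 true false false .npp 1 0 2
    ndB1q1 ndB2q0 pcB2 Cut.none Ext.none :=
  certB0 (fam := true) (s1 := false) (s2 := false) (a := 1) (b := 0) (c := 2) (cn := .npp) (n1 := ndB1q1) (n2 := ndB2q0) (pc := pcB2) (cut := Cut.none) (xt := Ext.none) (P1 := 536870912) (W1 := 536870912) (P2 := 0) (W2 := 536870912) (P3 := 587336777) (W3 := 62277027) (N0 := 3) (En := eng) (mo := mog) (C1 := cd1q1) (C2 := cd2q0) (C3 := pd2)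
    rfl k0_mm_102

noncomputable def f_mm_112 : ℕ → ℕ → ℕ → ℕ → Bool := onCell 536870912 536870912 536870912 536870912 587336777 62277027
    (rowB 3 eng mog cd1q1 cd2q1 pd2 0 true false false .dn 1 1 2 (qsf 536870912 536870912 536870912 536870912 2) ndB1q1 ndB2q1 pcB2 Cut.none Ext.none)

def k0_mm_112 : ∃ t, chk3 f_mm_112 t 1 1 1 = true :=
  ⟨(l 4), by decide +kernel⟩

theorem c_mm_112 : CertB 536870912 536870912 536870912 536870912 587336777 62277027 3 eng mog cd1q1 cd2q1 pd2 true false false .dn 1 1 2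
    ndB1q1 ndB2q1 pcB2 Cut.none Ext.none :=
  certB0 (fam := true) (s1 := false) (s2 := false) (a := 1) (b := 1) (c := 2) (cn := .dn) (n1 := ndB1q1) (n2 := ndB2q1) (pc := pcB2) (cut := Cut.none) (xt := Ext.none) (P1 := 536870912) (W1 := 536870912) (P2 := 536870912) (W2 := 536870912) (P3 := 587336777) (W3 := 62277027) (N0 := 3) (En := eng) (mo := mog) (C1 := cd1q1) (C2 := cd2q1) (C3 := pd2)
    rfl k0_mm_112

noncomputable def f_mm_113 : ℕ → ℕ → ℕ → ℕ → Bool := onCell 536870912 536870912 536870912 536870912 587336777 62277027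
    (rowB 3 eng mog cd1q1 cd2q1 pd3 0 true false false .nn 1 1 3 (qsf 536870912 536870912 536870912 536870912 3) ndB1q1 ndB2q1 pcB3 Cut.none Ext.none)

def k0_mm_113 : ∃ t, chk3 f_mm_113 t 1 1 1 = true :=
  ⟨(l 4), by decide +kernel⟩

theorem c_mm_113 : CertB 536870912 536870912 536870912 536870912 587336777 62277027 3 eng mog cd1q1 cd2q1 pd3 true false false .nn 1 1 3
    ndB1q1 ndB2q1 pcB3 Cut.none Ext.none :=
  certB0 (fam := true) (s1 := false) (s2 := false) (a := 1) (b := 1) (c := 3) (cn := .nn) (n1 := ndB1q1) (n2 := ndB2q1) (pc := pcB3) (cut := Cut.none) (xt := Ext.none) (P1 := 536870912) (W1 := 536870912) (P2 := 536870912) (W2 := 536870912) (P3 := 587336777) (W3 := 62277027) (N0 := 3) (En := eng) (mo := mog) (C1 := cd1q1) (C2 := cd2q1) (C3 := pd3)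
    rfl k0_mm_113

noncomputable def f_mm_123_a : ℕ → ℕ → ℕ → ℕ → Bool := onCell 536870912 536870912 0 536870912 587336777 62277027
    (rowB 3 eng mog cd1q1 cd2q2a pd3 0 true false false .npn 1 2 3 (qsf 536870912 536870912 0 536870912 3) ndB1q1 ndB2q2a pcB3 Cut.none Ext.none)

def k0_mm_123_a : ∃ t, chk3 f_mm_123_a t 1 1 1 = true :=
  ⟨(l 5), by decide +kernel⟩

theorem c_mm_123_a : CertB 536870912 536870912 0 536870912 587336777 62277027 3 eng mog cd1q1 cd2q2a pd3 true false false .npn 1 2 3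
    ndB1q1 ndB2q2a pcB3 Cut.none Ext.none :=
  certB0 (fam := true) (s1 := false) (s2 := false) (a := 1) (b := 2) (c := 3) (cn := .npn) (n1 := ndB1q1) (n2 := ndB2q2a) (pc := pcB3) (cut := Cut.none) (xt := Ext.none) (P1 := 536870912) (W1 := 536870912) (P2 := 0) (W2 := 536870912) (P3 := 587336777) (W3 := 62277027) (N0 := 3) (En := eng) (mo := mog) (C1 := cd1q1) (C2 := cd2q2a) (C3 := pd3)
    rfl k0_mm_123_a

noncomputable def f_mm_123_b : ℕ → ℕ → ℕ → ℕ → Bool := onCell 536870912 536870912 1239849684 370763052 587336777 62277027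
    (rowB 3 eng mog cd1q1 cd2q2b pd3 0 true false false .npn 1 2 3 (qsf 536870912 536870912 1239849684 370763052 3) ndB1q1 ndB2q2b pcB3 Cut.none Ext.none)

def k0_mm_123_b : ∃ t, chk3 f_mm_123_b t 1 1 1 = true :=
  ⟨(l 5), by decide +kernel⟩

theorem c_mm_123_b : CertB 536870912 536870912 1239849684 370763052 587336777 62277027 3 eng mog cd1q1 cd2q2b pd3 true false false .npn 1 2 3
    ndB1q1 ndB2q2b pcB3 Cut.none Ext.none :=
  certB0 (fam := true) (s1 := false) (s2 := false) (a := 1) (b := 2) (c := 3) (cn := .npn) (n1 := ndB1q1) (n2 := ndB2q2b) (pc := pcB3) (cut := Cut.none) (xt := Ext.none) (P1 := 536870912) (W1 := 536870912) (P2 := 1239849684) (W2 := 370763052) (P3 := 587336777) (W3 := 62277027) (N0 := 3) (En := eng) (mo := mog) (C1 := cd1q1) (C2 := cd2q2b) (C3 := pd3)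
    rfl k0_mm_123_b

noncomputable def f_mm_133 : ℕ → ℕ → ℕ → ℕ → Bool := onCell 536870912 536870912 1610612736 536870912 587336777 62277027
    (rowB 3 eng mog cd1q1 cd2q3 pd3 0 true false false .dn 1 3 3 (qsf 536870912 536870912 1610612736 536870912 3) ndB1q1 ndB2q3 pcB3 Cut.none Ext.none)

def k0_mm_133 : ∃ t, chk3 f_mm_133 t 1 1 1 = true :=
  ⟨(l 4), by decide +kernel⟩

theorem c_mm_133 : CertB 536870912 536870912 1610612736 536870912 587336777 62277027 3 eng mog cd1q1 cd2q3 pd3 true false false .dn 1 3 3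
    ndB1q1 ndB2q3 pcB3 Cut.none Ext.none :=
  certB0 (fam := true) (s1 := false) (s2 := false) (a := 1) (b := 3) (c := 3) (cn := .dn) (n1 := ndB1q1) (n2 := ndB2q3) (pc := pcB3) (cut := Cut.none) (xt := Ext.none) (P1 := 536870912) (W1 := 536870912) (P2 := 1610612736) (W2 := 536870912) (P3 := 587336777) (W3 := 62277027) (N0 := 3) (En := eng) (mo := mog) (C1 := cd1q1) (C2 := cd2q3) (C3 := pd3)
    rfl k0_mm_133

end Pool.Agent.Strip051.G.I5470_6050.Tab.C.BA12

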