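import Pool.Agent.Strip051.G.I5470_6050.Tab
import Pool.Agent.Strip051.PB.ExtD2

/-! # Certificates B11 (generated) -/

set_option linter.all false
set_option maxRecDepth 100000

namespace Pool.Agent.Strip051.G.I5470_6050.Tab.C.BA12

open Pool.Agent.Strip051.PB Pool.Agent.Strip051.PB.T
open Pool.Agent.Strip051.G.I5470_6050.Tab

noncomputable def cut_mm_202_a : Cut := Cut.of [[⟨0, 1, 0, 67108864⟩, ⟨1, 0, 0, 67108864⟩, ⟨2, 1, 0, 67108864⟩]]

noncomputable def f_mm_202_a : ℕ → ℕ → ℕ → ℕ → Bool := onCell 0 536870912 0 536870912 587336777 62277027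
    (rowB 3 eng mog cd1q2a cd2q0 pd2 0 true false false .pp 2 0 2 (qsf 0 536870912 0 536870912 2) ndB1q2a ndB2q0 pcB2 cut_mm_202_a Ext.none)

def k0_mm_202_a : ∃ t, chk3 f_mm_202_a t 2 2 1 = true :=
  ⟨(b (a (b (b (a (b (l 16457656) (l 16464536)) (b (a (l 16463880) (l 16471120)) (a (l 16471904) (b (l 16477432) (l 16481896))))) (a (l 16475056) (a (l 16484120) (l 16493008)))) (b (a (l 16489536) (l 16505896)) (a (l 16504160) (l 16523048)))) (b (b (a (b (a (l 16480672) (b (l 16490560) (l 16494872))) (a (b (l 16487240) (l 16491968)) (a (l 16498488) (l 16505304)))) (b (a (a (b (l 16501064) (l 16505512)) (b (l 16509024) (l 16513560))) (b (a (l 16517704) (l 16527096)) (a (l 16522344) (l 16531840)))) (a (a (l 16512760) (l 16520944)) (b (a (l 16527288) (l 16536880)) (l 16558352))))) (a (a (l 16524976) (b (l 16554072) (l 16522488))) (a (b (b (a (l 16520600) (l 16528920)) (l 16530304)) (l 16538632)) (b (b (l 16542904) (a (l 16543680) (l 16553568))) (b (l 16575520)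 (l 16560488)))))) (a (b (a (l 16523280) (l 16538080)) (l 16550768)) (b (b (a (l 16549760) (l 16569408)) (a (l 16560904) (l 16581328))) (b (l 16645688) (l 16636096)))))) (a (b (b (l 16535040) (a (l 16553176) (l 16574608))) (b (l 16588320) (l 16610568))) (b (a (b (l 16574264) (l 16605576)) (b (l 16617160) (l 16626144))) (b (a (l 16635288) (a (l 16666616) (l 16690240))) (a (l 16663744) (l 25467956503)))))), by decide +kernel⟩

def k1_mm_202_a : ∃ t, chk3 f_mm_202_a t 6 4 1 = true :=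
  ⟨(b (b (a (a (b (b (a (c (l 16537304) (l 16537072)) (c (l 16547856) (l 16546936))) (a (l 16542088) (l 16553104))) (a (l 16544664) (l 16561080))) (b (b (a (c (l 16558888) (l 16557304)) (b (l 16567720) (l 16571264))) (a (l 16564760) (l 16576440))) (a (l 16573056) (l 16585784)))) (b (a (b (a (b (l 16579584) (l 16583312)) (l 16599224)) (a (l 16588776) (l 16601696))) (b (a (l 16617608) (l 16642144)) (a (l 16615240) (l 16629632)))) (a (a (l 16599160) (l 16612768)) (b (l 16640976) (l 16638224))))) (a (b (a (a (l 16561240) (l 16572616)) (a (l 16584800) (l 16597728))) (a (b (a (l 16570296) (l 16581832)) (a (l 16576512) (l 16588184))) (a (l 16597392) (l 16610544)))) (b (a (l 16618528) (a (l 16640880) (l 16656544))) (a (l 16631656) (l 16662296))))) (a (b (a (b (l 16591864) (l 16604568)) (b (a (l 16610544) (l 16686880)) (l 16630752))) (a (l 16665576) (b (l 16644264) (l 16657736)))) (b (a (b (l 16653304) (l 16659600)) (b (l 16676552) (b (l 16708528) (l 16694992))))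 (a (b (l 16673872) (l 16625152)) (b (l 16737600) (l 16720752)))))), by decide +kernel⟩

def k2_mm_202_a : ∃ t, chk3 f_mm_202_a t 7 4 1 = true :=
  ⟨(b (a (b (b (a (a (b (b (l 16633664) (l 16638144)) (l 16644728)) (b (b (a (l 16645064) (l 16653040)) (l 16653720)) (b (l 16658304) (l 16662800)))) (b (a (b (l 6) (l 16670688)) (l 6)) (a (b (l 16675384) (l 16680008)) (b (l 6) (l 16698272))))) (a (a (b (l 16611296) (l 16661472)) (a (l 16669528) (l 16677944))) (a (b (l 16686808) (l 16695608)) (b (l 16715712) (l 16714232))))) (b (a (a (l 16672960) (l 16690128)) (a (l 16707344) (b (l 16721584) (l 16728560)))) (a (l 16716512) (a (l 16721672) (l 16759768))))) (b (a (b (l 6) (a (b (l 6) (l 16733128)) (l 6))) (l 6)) (a (b (a (b (l 16750544) (l 16768672)) (b (a (l 16754760) (l 4)) (l 4))) (l 4)) (l 4)))) (a (b (a (b (a (l 16701424) (l 16719136)) (l 16757128)) (b (b (l 16774168) (l 4)) (l 4))) (l 4)) (l 4))), by decide +kernel⟩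

def k3_mm_202_a : ∃ t, chk3 f_mm_202_a t 3 5 1 = true :=
  ⟨(a (b (a (b (a (l 16693688) (l 16680352)) (a (l 16726904) (l 16713168))) (b (a (l 16710840) (l 4)) (l 4))) (a (b (a (l 16715640) (l 4)) (l 4)) (l 4))) (l 4)), by decide +kernel⟩

def k4_mm_202_a : ∃ t, chk3 f_mm_202_a t 1 3 1 = true :=
  ⟨(a (b (b (a (b (l 16635584) (a (l 16644136) (l 16683112))) (a (b (l 16691856) (l 16718624)) (l 4))) (a (b (a (l 16675984) (l 16712464)) (a (l 16710360) (l 16738752))) (l 4))) (a (l 2) (l 4))) (l 4)), by decide +kernel⟩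

theorem s5_mm_202_a : ∃ t, chk3 f_mm_202_a t 3 4 1 = true := ex3_a k1_mm_202_a k2_mm_202_a

theorem s6_mm_202_a : ∃ t, chk3 f_mm_202_a t 3 2 1 = true := ex3_b s5_mm_202_a k3_mm_202_a

theorem s7_mm_202_a : ∃ t, chk3 f_mm_202_a t 1 2 1 = true := ex3_a k0_mm_202_a s6_mm_202_a

theorem s8_mm_202_a : ∃ t, chk3 f_mm_202_a t 1 1 1 = true := ex3_b s7_mm_202_a k4_mm_202_a

theorem c_mm_202_a : CertB 0 536870912 0 536870912 587336777 62277027 3 eng mog cd1q2a cd2q0 pd2 true false false .pp 2 0 2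
    ndB1q2a ndB2q0 pcB2 cut_mm_202_a Ext.none :=
  certB0 (fam := true) (s1 := false) (s2 := false) (a := 2) (b := 0) (c := 2) (cn := .pp) (n1 := ndB1q2a) (n2 := ndB2q0) (pc := pcB2) (cut := cut_mm_202_a) (xt := Ext.none) (P1 := 0) (W1 := 536870912) (P2 := 0) (W2 := 536870912) (P3 := 587336777) (W3 := 62277027) (N0 := 3) (En := eng) (mo := mog) (C1 := cd1q2a) (C2 := cd2q0) (C3 := pd2)
    rfl s8_mm_202_a

noncomputable def cut_mm_202_b : Cut := Cut.of [[⟨0, 1, 0, 67108864⟩, ⟨1, 0, 0, 67108864⟩, ⟨2, 1, 0, 67108864⟩]]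

noncomputable def f_mm_202_b : ℕ → ℕ → ℕ → ℕ → Bool := onCell 1073741824 536870912 0 536870912 587336777 62277027
    (rowB 3 eng mog cd1q2b cd2q0 pd2 2 true false false .pp 2 0 2 (qsf 1239849684 370763052 0 536870912 2) ndB1q2b ndB2q0 pcB2 cut_mm_202_b Ext.none)

def k0_mm_202_b : ∃ t, chk3 f_mm_202_b t 1 1 1 = true :=
  ⟨(a (b (b (a (l 1) (a (b (b (a (a (l 1) (l 16503408)) (a (l 16471328) (l 16438920))) (a (l 1) (b (l 85395524679) (l 1)))) (l 1)) (b (b (a (l 16392456) (l 16334872)) (a (l 16467272) (l 16406656))) (a (b (l 117607976647) (l 1)) (b (l 16480112) (l 131566625591)))))) (l 1)) (l 1)) (a (b (b (a (b (b (l 16297600) (l 16325760)) (a (l 16516944) (l 16423984))) (b (a (b (l 16186048) (l 16255960)) (l 16197584)) (a (l 16358128) (l 16331216)))) (a (b (a (b (l 177200679271) (l 1)) (l 212097045799)) (l 1)) (b (a (b (l 16454720) (l 16532264)) (l 16458272)) (a (l 317323938487) (l 236793247911))))) (l 1)) (b (b (a (b (l 16179928) (l 16304648)) (b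 (l 16174224) (l 16284424))) (a (b (l 16427168) (a (l 16544896) (l 16528976))) (b (l 16396784) (l 16504664)))) (b (a (b (a (l 308734184055) (l 257731335367)) (l 1)) (b (a (l 16599232) (l 16587776)) (a (l 317861069415) (l 173979774279)))) (l 1))))), by decide +kernel⟩

theorem c_mm_202_b : CertB 1239849684 370763052 0 536870912 587336777 62277027 3 eng mog cd1q2b cd2q0 pd2 true false false .pp 2 0 2
    ndB1q2b ndB2q0 pcB2 cut_mm_202_b Ext.none :=
  certB2 (fam := true) (s1 := false) (s2 := false) (a := 2) (b := 0) (c := 2) (cn := .pp) (n1 := ndB1q2b) (n2 := ndB2q0) (pc := pcB2) (cut := cut_mm_202_b) (xt := Ext.none) (P1 := 1239849684) (W1 := 370763052) (P2 := 0) (W2 := 536870912) (P3 := 587336777) (W3 := 62277027) (N0 := 3) (En := eng) (mo := mog) (C1 := cd1q2b) (C2 := cd2q0) (C3 := pd2)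
    rfl (fun _ => rfl) k0_mm_202_b

noncomputable def f_mm_203_a : ℕ → ℕ → ℕ → ℕ → Bool := onCell 0 536870912 1610612736 536870912 587336777 62277027
    (rowB 3 eng mog cd1q2a cd2q0 pd3 1 true false false .up 2 0 3 (qsf 0 536870912 0 536870912 3) ndB1q2a ndB2q0 pcB3 Cut.none Ext.none)

def k0_mm_203_a : ∃ t, chk3 f_mm_203_a t 1 1 1 = true :=
  ⟨(a (a (b (b (b (b (l 16728336) (l 16778336)) (b (l 16778632) (l 4))) (l 4)) (l 2)) (l 4)) (l 4)), by decide +kernel⟩

theorem c_mm_203_a : CertB 0 536870912 0 536870912 587336777 62277027 3 eng mog cd1q2a cd2q0 pd3 true false false .up 2 0 3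
    ndB1q2a ndB2q0 pcB3 Cut.none Ext.none :=
  certB1 (fam := true) (s1 := false) (s2 := false) (a := 2) (b := 0) (c := 3) (cn := .up) (n1 := ndB1q2a) (n2 := ndB2q0) (pc := pcB3) (cut := Cut.none) (xt := Ext.none) (P1 := 0) (W1 := 536870912) (P2 := 0) (W2 := 536870912) (P3 := 587336777) (W3 := 62277027) (N0 := 3) (En := eng) (mo := mog) (C1 := cd1q2a) (C2 := cd2q0) (C3 := pd3)
    rfl (fun _ => rfl) k0_mm_203_a

noncomputable def f_mm_203_b : ℕ → ℕ → ℕ → ℕ → Bool := onCell 1239849684 370763052 1610612736 536870912 587336777 62277027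
    (rowB 3 eng mog cd1q2b cd2q0 pd3 1 true false false .up 2 0 3 (qsf 1239849684 370763052 0 536870912 3) ndB1q2b ndB2q0 pcB3 Cut.none Ext.none)

def k0_mm_203_b : ∃ t, chk3 f_mm_203_b t 1 1 1 = true :=
  ⟨(b (b (b (a (a (b (l 16614616) (l 16625320)) (b (l 16501592) (l 16529952))) (a (a (l 16412712) (l 16340240)) (l 16234864))) (b (a (a (l 16646264) (l 4)) (l 16629136)) (l 4))) (l 4)) (l 4)), by decide +kernel⟩

theorem c_mm_203_b : CertB 1239849684 370763052 0 536870912 587336777 62277027 3 eng mog cd1q2b cd2q0 pd3 true false false .up 2 0 3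
    ndB1q2b ndB2q0 pcB3 Cut.none Ext.none :=
  certB1 (fam := true) (s1 := false) (s2 := false) (a := 2) (b := 0) (c := 3) (cn := .up) (n1 := ndB1q2b) (n2 := ndB2q0) (pc := pcB3) (cut := Cut.none) (xt := Ext.none) (P1 := 1239849684) (W1 := 370763052) (P2 := 0) (W2 := 536870912) (P3 := 587336777) (W3 := 62277027) (N0 := 3) (En := eng) (mo := mog) (C1 := cd1q2b) (C2 := cd2q0) (C3 := pd3)
    rfl (fun _ => rfl) k0_mm_203_b

noncomputable def f_mm_213_a : ℕ → ℕ → ℕ → ℕ → Bool := onCell 0 536870912 536870912 536870912 587336777 62277027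
    (rowB 3 eng mog cd1q2a cd2q1 pd3 0 true false false .pnn 2 1 3 (qsf 0 536870912 536870912 536870912 3) ndB1q2a ndB2q1 pcB3 Cut.none Ext.none)

def k0_mm_213_a : ∃ t, chk3 f_mm_213_a t 1 1 1 = true :=
  ⟨(a (l 4) (l 4)), by decide +kernel⟩

theorem c_mm_213_a : CertB 0 536870912 536870912 536870912 587336777 62277027 3 eng mog cd1q2a cd2q1 pd3 true false false .pnn 2 1 3
    ndB1q2a ndB2q1 pcB3 Cut.none Ext.none :=
  certB0 (fam := true) (s1 := false) (s2 := false) (a := 2) (b := 1) (c := 3) (cn := .pnn) (n1 := ndB1q2a) (n2 := ndB2q1) (pc := pcB3) (cut := Cut.none) (xt := Ext.none) (P1 := 0) (W1 := 536870912) (P2 := 536870912) (W2 := 536870912) (P3 := 587336777) (W3 := 62277027) (N0 := 3) (En := eng) (mo := mog) (C1 := cd1q2a) (C2 := cd2q1) (C3 := pd3)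
    rfl k0_mm_213_a

noncomputable def f_mm_213_b : ℕ → ℕ → ℕ → ℕ → Bool := onCell 1239849684 370763052 536870912 536870912 587336777 62277027
    (rowB 3 eng mog cd1q2b cd2q1 pd3 0 true false false .pnn 2 1 3 (qsf 1239849684 370763052 536870912 536870912 3) ndB1q2b ndB2q1 pcB3 Cut.none Ext.none)

def k0_mm_213_b : ∃ t, chk3 f_mm_213_b t 1 1 1 = true :=
  ⟨(b (l 4) (l 4)), by decide +kernel⟩

theorem c_mm_213_b : CertB 1239849684 370763052 536870912 536870912 587336777 62277027 3 eng mog cd1q2b cd2q1 pd3 true false false .pnn 2 1 3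
    ndB1q2b ndB2q1 pcB3 Cut.none Ext.none :=
  certB0 (fam := true) (s1 := false) (s2 := false) (a := 2) (b := 1) (c := 3) (cn := .pnn) (n1 := ndB1q2b) (n2 := ndB2q1) (pc := pcB3) (cut := Cut.none) (xt := Ext.none) (P1 := 1239849684) (W1 := 370763052) (P2 := 536870912) (W2 := 536870912) (P3 := 587336777) (W3 := 62277027) (N0 := 3) (En := eng) (mo := mog) (C1 := cd1q2b) (C2 := cd2q1) (C3 := pd3)
    rfl k0_mm_213_b

noncomputable def f_mm_303 : ℕ → ℕ → ℕ → ℕ → Bool := onCell 1610612736 536870912 0 536870912 587336777 62277027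
    (rowB 3 eng mog cd1q3 cd2q0 pd3 2 true false false .npn 3 0 3 (qsf 1610612736 536870912 0 536870912 3) ndB1q3 ndB2q0 pcB3 Cut.none Ext.none)

def k0_mm_303 : ∃ t, chk3 f_mm_303 t 1 1 1 = true :=
  ⟨(a (a (b (a (b (a (l 16234072) (l 16225360)) (l 1)) (b (a (l 16226688) (l 16275208)) (l 391949112247))) (l 1)) (l 4)) (l 4)), by decide +kernel⟩

theorem c_mm_303 : CertB 1610612736 536870912 0 536870912 587336777 62277027 3 eng mog cd1q3 cd2q0 pd3 true false false .npn 3 0 3
    ndB1q3 ndB2q0 pcB3 Cut.none Ext.none :=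
  certB2 (fam := true) (s1 := false) (s2 := false) (a := 3) (b := 0) (c := 3) (cn := .npn) (n1 := ndB1q3) (n2 := ndB2q0) (pc := pcB3) (cut := Cut.none) (xt := Ext.none) (P1 := 1610612736) (W1 := 536870912) (P2 := 0) (W2 := 536870912) (P3 := 587336777) (W3 := 62277027) (N0 := 3) (En := eng) (mo := mog) (C1 := cd1q3) (C2 := cd2q0) (C3 := pd3)
    rfl (fun _ => rfl) k0_mm_303

noncomputable def f_mm_313 : ℕ → ℕ → ℕ → ℕ → Bool := onCell 1610612736 536870912 536870912 536870912 587336777 62277027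
    (rowB 3 eng mog cd1q3 cd2q1 pd3 0 true false false .dn 3 1 3 (qsf 1610612736 536870912 536870912 536870912 3) ndB1q3 ndB2q1 pcB3 Cut.none Ext.none)

def k0_mm_313 : ∃ t, chk3 f_mm_313 t 1 1 1 = true :=
  ⟨(l 4), by decide +kernel⟩

theorem c_mm_313 : CertB 1610612736 536870912 536870912 536870912 587336777 62277027 3 eng mog cd1q3 cd2q1 pd3 true false false .dn 3 1 3
    ndB1q3 ndB2q1 pcB3 Cut.none Ext.none :=
  certB0 (fam := true) (s1 := false) (s2 := false) (a := 3) (b := 1) (c := 3) (cn := .dn) (n1 := ndB1q3) (n2 := ndB2q1) (pc := pcB3) (cut := Cut.none) (xt := Ext.none) (P1 := 1610612736) (W1 := 536870912) (P2 := 536870912) (W2 := 536870912) (P3 := 587336777) (W3 := 62277027) (N0 := 3) (En := eng) (mo := mog) (C1 := cd1q3) (C2 := cd2q1) (C3 := pd3)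
    rfl k0_mm_313

end Pool.Agent.Strip051.G.I5470_6050.Tab.C.BA12

namespace Pool.Agent.Strip051.G.I5470_6050.Tab.C.BA13

open Pool.Agent.Strip051.PB Pool.Agent.Strip051.PB.T
open Pool.Agent.Strip051.G.I5470_6050.Tab

noncomputable def f_pp_001 : ℕ → ℕ → ℕ → ℕ → Bool := onCell 0 536870912 0 536870912 587336777 62277027
    (rowB 3 eng mog cd1q0 cd3q0 pd1 0 true true true .up 0 0 1 (qsf 0 536870912 0 536870912 1) ndB1q0 ndB3q0 pcB1 Cut.none Ext.none)

def k0_pp_001 : ∃ t, chk3 f_pp_001 t 1 1 1 = true :=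
  ⟨(l 4), by decide +kernel⟩

theorem c_pp_001 : CertB 0 536870912 0 536870912 587336777 62277027 3 eng mog cd1q0 cd3q0 pd1 true true true .up 0 0 1
    ndB1q0 ndB3q0 pcB1 Cut.none Ext.none :=
  certB0 (fam := true) (s1 := true) (s2 := true) (a := 0) (b := 0) (c := 1) (cn := .up) (n1 := ndB1q0) (n2 := ndB3q0) (pc := pcB1) (cut := Cut.none) (xt := Ext.none) (P1 := 0) (W1 := 536870912) (P2 := 0) (W2 := 536870912) (P3 := 587336777) (W3 := 62277027) (N0 := 3) (En := eng) (mo := mog) (C1 := cd1q0) (C2 := cd3q0) (C3 := pd1)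
    rfl k0_pp_001

noncomputable def f_pp_011 : ℕ → ℕ → ℕ → ℕ → Bool := onCell 0 536870912 536870912 536870912 587336777 62277027
    (rowB 3 eng mog cd1q0 cd3q1 pd1 0 true true true .pnn 0 1 1 (qsf 0 536870912 536870912 536870912 1) ndB1q0 ndB3q1 pcB1 Cut.none Ext.none)

def k0_pp_011 : ∃ t, chk3 f_pp_011 t 1 1 1 = true :=
  ⟨(l 4), by decide +kernel⟩

theorem c_pp_011 : CertB 0 536870912 536870912 536870912 587336777 62277027 3 eng mog cd1q0 cd3q1 pd1 true true true .pnn 0 1 1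
    ndB1q0 ndB3q1 pcB1 Cut.none Ext.none :=
  certB0 (fam := true) (s1 := true) (s2 := true) (a := 0) (b := 1) (c := 1) (cn := .pnn) (n1 := ndB1q0) (n2 := ndB3q1) (pc := pcB1) (cut := Cut.none) (xt := Ext.none) (P1 := 0) (W1 := 536870912) (P2 := 536870912) (W2 := 536870912) (P3 := 587336777) (W3 := 62277027) (N0 := 3) (En := eng) (mo := mog) (C1 := cd1q0) (C2 := cd3q1) (C3 := pd1)
    rfl k0_pp_011

noncomputable def f_pp_012 : ℕ → ℕ → ℕ → ℕ → Bool := onCell 0 536870912 536870912 536870912 587336777 62277027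
    (rowB 3 eng mog cd1q0 cd3q1 pd2 0 true true true .pnp 0 1 2 (qsf 0 536870912 536870912 536870912 2) ndB1q0 ndB3q1 pcB2 Cut.none Ext.none)

def k0_pp_012 : ∃ t, chk3 f_pp_012 t 1 1 1 = true :=
  ⟨(l 4), by decide +kernel⟩

theorem c_pp_012 : CertB 0 536870912 536870912 536870912 587336777 62277027 3 eng mog cd1q0 cd3q1 pd2 true true true .pnp 0 1 2
    ndB1q0 ndB3q1 pcB2 Cut.none Ext.none :=
  certB0 (fam := true) (s1 := true) (s2 := true) (a := 0) (b := 1) (c := 2) (cn := .pnp) (n1 := ndB1q0) (n2 := ndB3q1) (pc := pcB2) (cut := Cut.none) (xt := Ext.none) (P1 := 0) (W1 := 536870912) (P2 := 536870912) (W2 := 536870912) (P3 := 587336777) (W3 := 62277027) (N0 := 3) (En := eng) (mo := mog) (C1 := cd1q0) (C2 := cd3q1) (C3 := pd2)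
    rfl k0_pp_012

noncomputable def cut_pp_022_a : Cut := Cut.of [[⟨0, 0, 0, 67108864⟩, ⟨1, 1, 0, 67108864⟩, ⟨2, 1, 0, 67108864⟩]]

noncomputable def f_pp_022_a : ℕ → ℕ → ℕ → ℕ → Bool := onCell 0 536870912 0 536870912 587336777 62277027
    (rowB 3 eng mog cd1q0 cd3q2a pd2 0 true true true .pp 0 2 2 (qsf 0 536870912 0 536870912 2) ndB1q0 ndB3q2a pcB2 cut_pp_022_a Ext.none)

def k0_pp_022_a : ∃ t, chk3 f_pp_022_a t 2 2 1 = true :=
  ⟨(a (a (b (a (b (a (b (l 16457624) (l 16460200)) (b (l 16467392) (l 16470400))) (b (a (l 16465072) (l 16496664)) (a (l 16472304) (l 16551480)))) (a (b (l 16478808) (l 16511360)) (b (l 16488272) (l 16500816)))) (a (b (a (b (l 16481952) (l 16494104)) (b (a (l 16490456) (l 16496256)) (l 16505848))) (a (b (l 16508824) (l 16526216)) (b (l 16520912) (l 16538632)))) (b (a (b (l 16504880) (l 16517880)) (l 16523024)) (a (b (l 16533384) (l 16551480)) (b (l 16545776) (l 16564448)))))) (b (a (b (l 16501800) (l 16536752)) (a (l 16586312)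 (l 16578496))) (a (a (b (l 16534208) (l 16567656)) (b (l 16544960) (l 16579696))) (b (l 16605248) (a (l 16592048) (l 16607376)))))) (a (b (a (b (l 16547504) (l 16564592)) (a (l 16596800) (l 16692408))) (a (b (l 16613176) (a (l 16643496) (l 16658432))) (b (a (l 16612512) (l 16670536)) (b (l 16735936) (l 4))))) (b (a (b (l 16593408) (l 16681376)) (b (l 16621680) (l 48553114439))) (b (a (a (l 36205179639) (l 4)) (l 4)) (l 4))))), by decide +kernel⟩

def k1_pp_022_a : ∃ t, chk3 f_pp_022_a t 2 3 1 = true :=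
  ⟨(a (b (a (a (b (a (b (l 16546328) (l 16568512)) (b (l 16559080) (l 16582312))) (a (b (l 16614160) (a (l 16616552) (l 16624584))) (b (l 16608064) (b (l 16628848) (l 16643712))))) (b (a (b (l 16572288) (l 16595880)) (b (l 16606704) (l 16609752))) (a (b (l 16622248) (l 16672360)) (b (l 16636528) (b (l 16658336) (l 16673768)))))) (b (b (a (l 16626640) (l 16685648)) (a (a (l 16665624) (l 16637368)) (a (l 16651832) (l 4)))) (a (a (b (a (l 16647352) (l 16675520)) (b (l 16673144) (l 16688816))) (b (a (l 16682616) (l 16669040)) (l 4))) (l 4)))) (a (b (a (a (b (a (b (l 16638768) (l 16675592)) (a (l 16653104) (l 16657288))) (a (b (a (l 6) (l 16673648)) (l 6)) (b (b (l 16675808) (l 16684544)) (a (l 6) (b (l 16695672) (l 6)))))) (b (a (l 16684448) (l 16692544)) (b (a (l 16688736) (l 16697104)) (a (l 16717288) (l 16725696))))) (b (a (a (l 16700488) (b (l 16678568) (l 16695296))) (b (l 16710976) (l 16717336))) (a (b (a (l 16704944) (l 16712832)) (a (l 16733552)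 (l 4))) (l 4)))) (a (b (a (l 6) (b (a (l 6) (a (l 16742344) (l 4))) (l 6))) (l 6)) (l 4))) (l 4))) (b (l 4) (l 4))), by decide +kernel⟩

def k2_pp_022_a : ∃ t, chk3 f_pp_022_a t 3 1 1 = true :=
  ⟨(b (a (b (a (b (a (l 16715888) (l 28152180039)) (l 4)) (l 4)) (l 4)) (l 4)) (l 4)), by decide +kernel⟩

theorem s3_pp_022_a : ∃ t, chk3 f_pp_022_a t 2 1 1 = true := ex3_b k0_pp_022_a k1_pp_022_a

theorem s4_pp_022_a : ∃ t, chk3 f_pp_022_a t 1 1 1 = true := ex3_a s3_pp_022_a k2_pp_022_a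

theorem c_pp_022_a : CertB 0 536870912 0 536870912 587336777 62277027 3 eng mog cd1q0 cd3q2a pd2 true true true .pp 0 2 2
    ndB1q0 ndB3q2a pcB2 cut_pp_022_a Ext.none :=
  certB0 (fam := true) (s1 := true) (s2 := true) (a := 0) (b := 2) (c := 2) (cn := .pp) (n1 := ndB1q0) (n2 := ndB3q2a) (pc := pcB2) (cut := cut_pp_022_a) (xt := Ext.none) (P1 := 0) (W1 := 536870912) (P2 := 0) (W2 := 536870912) (P3 := 587336777) (W3 := 62277027) (N0 := 3) (En := eng) (mo := mog) (C1 := cd1q0) (C2 := cd3q2a) (C3 := pd2)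
    rfl s4_pp_022_a

noncomputable def cut_pp_022_b : Cut := Cut.of [[⟨0, 0, 0, 67108864⟩, ⟨1, 1, 0, 67108864⟩, ⟨2, 1, 0, 67108864⟩]]

noncomputable def f_pp_022_b : ℕ → ℕ → ℕ → ℕ → Bool := onCell 1073741824 536870912 1239849684 370763052 587336777 62277027
    (rowB 3 eng mog cd1q0 cd3q2b pd2 2 true true true .pp 0 2 2 (qsf 0 536870912 1239849684 370763052 2) ndB1q0 ndB3q2b pcB2 cut_pp_022_b Ext.none)

def k0_pp_022_b : ∃ t, chk3 f_pp_022_b t 1 1 1 = true :=
  ⟨(a (b (a (l 1) (a (b (b (a (b (a (l 1) (b (l 16435040) (l 1))) (l 1)) (a (b (b (a (l 16441672) (l 16446368)) (a (l 1) (l 16418376))) (l 1)) (b (b (l 16453520) (l 16425464)) (b (l 16397400) (l 16369352))))) (l 1)) (l 1)) (b (b (a (b (a (l 16448712) (l 16457600)) (a (l 16371392) (l 16401008))) (b (l 16470288) (l 16413360))) (a (b (l 16340328) (l 1)) (b (l 16356352) (l 16299352)))) (a (l 1) (l 16305344))))) (l 1)) (b (a (b (a (b (a (b (l 16487920) (l 16428120)) (l 16541640)) (a (l 16341768)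 (l 16363088))) (a (b (l 16585504) (l 16412288)) (b (l 16553256) (l 16427640)))) (a (a (b (l 16230032) (l 1)) (b (l 16252968) (l 16143480))) (a (b (l 16281024) (l 16172056)) (b (l 16381640) (l 16210552))))) (a (b (a (b (l 16586296) (l 16465096)) (b (l 16617112) (l 16501240))) (b (a (l 16359512) (l 16399880)) (a (l 16252408) (l 16295416)))) (a (a (b (l 16706944) (l 16464984)) (l 4)) (l 4)))) (a (b (a (l 1) (a (a (l 16002136) (l 16019096)) (b (l 16103608) (l 15997736)))) (l 1)) (a (b (a (b (l 16147200) (l 16043256)) (b (l 16191192) (l 16089552))) (a (l 1) (l 15941440))) (b (a (b (l 16239304) (l 16137392)) (l 4)) (a (l 16033008) (l 16153456))))))), by decide +kernel⟩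

theorem c_pp_022_b : CertB 0 536870912 1239849684 370763052 587336777 62277027 3 eng mog cd1q0 cd3q2b pd2 true true true .pp 0 2 2
    ndB1q0 ndB3q2b pcB2 cut_pp_022_b Ext.none :=
  certB2 (fam := true) (s1 := true) (s2 := true) (a := 0) (b := 2) (c := 2) (cn := .pp) (n1 := ndB1q0) (n2 := ndB3q2b) (pc := pcB2) (cut := cut_pp_022_b) (xt := Ext.none) (P1 := 0) (W1 := 536870912) (P2 := 1239849684) (W2 := 370763052) (P3 := 587336777) (W3 := 62277027) (N0 := 3) (En := eng) (mo := mog) (C1 := cd1q0) (C2 := cd3q2b) (C3 := pd2)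
    rfl (fun _ => rfl) k0_pp_022_b

noncomputable def f_pp_023_a : ℕ → ℕ → ℕ → ℕ → Bool := onCell 1610612736 536870912 0 536870912 587336777 62277027
    (rowB 3 eng mog cd1q0 cd3q2a pd3 2 true true true .up 0 2 3 (qsf 0 536870912 0 536870912 3) ndB1q0 ndB3q2a pcB3 Cut.none Ext.none)

def k0_pp_023_a : ∃ t, chk3 f_pp_023_a t 1 1 1 = true :=
  ⟨(a (l 4) (l 2)), by decide +kernel⟩

theorem c_pp_023_a : CertB 0 536870912 0 536870912 587336777 62277027 3 eng mog cd1q0 cd3q2a pd3 true true true .up 0 2 3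
    ndB1q0 ndB3q2a pcB3 Cut.none Ext.none :=
  certB2 (fam := true) (s1 := true) (s2 := true) (a := 0) (b := 2) (c := 3) (cn := .up) (n1 := ndB1q0) (n2 := ndB3q2a) (pc := pcB3) (cut := Cut.none) (xt := Ext.none) (P1 := 0) (W1 := 536870912) (P2 := 0) (W2 := 536870912) (P3 := 587336777) (W3 := 62277027) (N0 := 3) (En := eng) (mo := mog) (C1 := cd1q0) (C2 := cd3q2a) (C3 := pd3)
    rfl (fun _ => rfl) k0_pp_023_a

noncomputable def f_pp_023_b : ℕ → ℕ → ℕ → ℕ → Bool := onCell 1610612736 536870912 1239849684 370763052 587336777 62277027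
    (rowB 3 eng mog cd1q0 cd3q2b pd3 2 true true true .up 0 2 3 (qsf 0 536870912 1239849684 370763052 3) ndB1q0 ndB3q2b pcB3 Cut.none Ext.none)

def k0_pp_023_b : ∃ t, chk3 f_pp_023_b t 1 1 1 = true :=
  ⟨(a (a (l 4) (l 4)) (l 4)), by decide +kernel⟩

theorem c_pp_023_b : CertB 0 536870912 1239849684 370763052 587336777 62277027 3 eng mog cd1q0 cd3q2b pd3 true true true .up 0 2 3
    ndB1q0 ndB3q2b pcB3 Cut.none Ext.none :=
  certB2 (fam := true) (s1 := true) (s2 := true) (a := 0) (b := 2) (c := 3) (cn := .up) (n1 := ndB1q0) (n2 := ndB3q2b) (pc := pcB3) (cut := Cut.none) (xt := Ext.none) (P1 := 0) (W1 := 536870912) (P2 := 1239849684) (W2 := 370763052) (P3 := 587336777) (W3 := 62277027) (N0 := 3) (En := eng) (mo := mog) (C1 := cd1q0) (C2 := cd3q2b) (C3 := pd3)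
    rfl (fun _ => rfl) k0_pp_023_b

noncomputable def f_pp_033 : ℕ → ℕ → ℕ → ℕ → Bool := onCell 0 536870912 1610612736 536870912 587336777 62277027
    (rowB 3 eng mog cd1q0 cd3q3 pd3 0 true true true .pnn 0 3 3 (qsf 0 536870912 1610612736 536870912 3) ndB1q0 ndB3q3 pcB3 Cut.none Ext.none)

def k0_pp_033 : ∃ t, chk3 f_pp_033 t 1 1 1 = true :=
  ⟨(a (b (a (l 4) (l 4)) (l 4)) (l 4)), by decide +kernel⟩

theorem c_pp_033 : CertB 0 536870912 1610612736 536870912 587336777 62277027 3 eng mog cd1q0 cd3q3 pd3 true true true .pnn 0 3 3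
    ndB1q0 ndB3q3 pcB3 Cut.none Ext.none :=
  certB0 (fam := true) (s1 := true) (s2 := true) (a := 0) (b := 3) (c := 3) (cn := .pnn) (n1 := ndB1q0) (n2 := ndB3q3) (pc := pcB3) (cut := Cut.none) (xt := Ext.none) (P1 := 0) (W1 := 536870912) (P2 := 1610612736) (W2 := 536870912) (P3 := 587336777) (W3 := 62277027) (N0 := 3) (En := eng) (mo := mog) (C1 := cd1q0) (C2 := cd3q3) (C3 := pd3)
    rfl k0_pp_033

noncomputable def f_pp_101 : ℕ → ℕ → ℕ → ℕ → Bool := onCell 536870912 536870912 0 536870912 587336777 62277027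
    (rowB 3 eng mog cd1q1 cd3q0 pd1 0 true true true .npn 1 0 1 (qsf 536870912 536870912 0 536870912 1) ndB1q1 ndB3q0 pcB1 Cut.none Ext.none)

def k0_pp_101 : ∃ t, chk3 f_pp_101 t 1 1 1 = true :=
  ⟨(l 4), by decide +kernel⟩

theorem c_pp_101 : CertB 536870912 536870912 0 536870912 587336777 62277027 3 eng mog cd1q1 cd3q0 pd1 true true true .npn 1 0 1
    ndB1q1 ndB3q0 pcB1 Cut.none Ext.none :=
  certB0 (fam := true) (s1 := true) (s2 := true) (a := 1) (b := 0) (c := 1) (cn := .npn) (n1 := ndB1q1) (n2 := ndB3q0) (pc := pcB1) (cut := Cut.none) (xt := Ext.none) (P1 := 536870912) (W1 := 536870912) (P2 := 0) (W2 := 536870912) (P3 := 587336777) (W3 := 62277027) (N0 := 3) (En := eng) (mo := mog) (C1 := cd1q1) (C2 := cd3q0) (C3 := pd1)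
    rfl k0_pp_101

noncomputable def f_pp_102 : ℕ → ℕ → ℕ → ℕ → Bool := onCell 536870912 536870912 0 536870912 587336777 62277027
    (rowB 3 eng mog cd1q1 cd3q0 pd2 0 true true true .npp 1 0 2 (qsf 536870912 536870912 0 536870912 2) ndB1q1 ndB3q0 pcB2 Cut.none Ext.none)

def k0_pp_102 : ∃ t, chk3 f_pp_102 t 1 1 1 = true :=
  ⟨(l 4), by decide +kernel⟩

theorem c_pp_102 : CertB 536870912 536870912 0 536870912 587336777 62277027 3 eng mog cd1q1 cd3q0 pd2 true true true .npp 1 0 2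
    ndB1q1 ndB3q0 pcB2 Cut.none Ext.none :=
  certB0 (fam := true) (s1 := true) (s2 := true) (a := 1) (b := 0) (c := 2) (cn := .npp) (n1 := ndB1q1) (n2 := ndB3q0) (pc := pcB2) (cut := Cut.none) (xt := Ext.none) (P1 := 536870912) (W1 := 536870912) (P2 := 0) (W2 := 536870912) (P3 := 587336777) (W3 := 62277027) (N0 := 3) (En := eng) (mo := mog) (C1 := cd1q1) (C2 := cd3q0) (C3 := pd2)
    rfl k0_pp_102

noncomputable def f_pp_112 : ℕ → ℕ → ℕ → ℕ → Bool := onCell 536870912 536870912 536870912 536870912 587336777 62277027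
    (rowB 3 eng mog cd1q1 cd3q1 pd2 0 true true true .dn 1 1 2 (qsf 536870912 536870912 536870912 536870912 2) ndB1q1 ndB3q1 pcB2 Cut.none Ext.none)

def k0_pp_112 : ∃ t, chk3 f_pp_112 t 1 1 1 = true :=
  ⟨(l 4), by decide +kernel⟩

theorem c_pp_112 : CertB 536870912 536870912 536870912 536870912 587336777 62277027 3 eng mog cd1q1 cd3q1 pd2 true true true .dn 1 1 2
    ndB1q1 ndB3q1 pcB2 Cut.none Ext.none :=
  certB0 (fam := true) (s1 := true) (s2 := true) (a := 1) (b := 1) (c := 2) (cn := .dn) (n1 := ndB1q1) (n2 := ndB3q1) (pc := pcB2) (cut := Cut.none) (xt := Ext.none) (P1 := 536870912) (W1 := 536870912) (P2 := 536870912) (W2 := 536870912) (P3 := 587336777) (W3 := 62277027) (N0 := 3) (En := eng) (mo := mog) (C1 := cd1q1) (C2 := cd3q1) (C3 := pd2)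
    rfl k0_pp_112

noncomputable def f_pp_113 : ℕ → ℕ → ℕ → ℕ → Bool := onCell 536870912 536870912 536870912 536870912 587336777 62277027
    (rowB 3 eng mog cd1q1 cd3q1 pd3 0 true true true .nn 1 1 3 (qsf 536870912 536870912 536870912 536870912 3) ndB1q1 ndB3q1 pcB3 Cut.none Ext.none)

def k0_pp_113 : ∃ t, chk3 f_pp_113 t 1 1 1 = true :=
  ⟨(l 4), by decide +kernel⟩

theorem c_pp_113 : CertB 536870912 536870912 536870912 536870912 587336777 62277027 3 eng mog cd1q1 cd3q1 pd3 true true true .nn 1 1 3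
    ndB1q1 ndB3q1 pcB3 Cut.none Ext.none :=
  certB0 (fam := true) (s1 := true) (s2 := true) (a := 1) (b := 1) (c := 3) (cn := .nn) (n1 := ndB1q1) (n2 := ndB3q1) (pc := pcB3) (cut := Cut.none) (xt := Ext.none) (P1 := 536870912) (W1 := 536870912) (P2 := 536870912) (W2 := 536870912) (P3 := 587336777) (W3 := 62277027) (N0 := 3) (En := eng) (mo := mog) (C1 := cd1q1) (C2 := cd3q1) (C3 := pd3)
    rfl k0_pp_113

noncomputable def f_pp_123_a : ℕ → ℕ → ℕ → ℕ → Bool := onCell 536870912 536870912 0 536870912 587336777 62277027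
    (rowB 3 eng mog cd1q1 cd3q2a pd3 0 true true true .npn 1 2 3 (qsf 536870912 536870912 0 536870912 3) ndB1q1 ndB3q2a pcB3 Cut.none Ext.none)

def k0_pp_123_a : ∃ t, chk3 f_pp_123_a t 1 1 1 = true :=
  ⟨(l 4), by decide +kernel⟩

theorem c_pp_123_a : CertB 536870912 536870912 0 536870912 587336777 62277027 3 eng mog cd1q1 cd3q2a pd3 true true true .npn 1 2 3
    ndB1q1 ndB3q2a pcB3 Cut.none Ext.none :=
  certB0 (fam := true) (s1 := true) (s2 := true) (a := 1) (b := 2) (c := 3) (cn := .npn) (n1 := ndB1q1) (n2 := ndB3q2a) (pc := pcB3) (cut := Cut.none) (xt := Ext.none) (P1 := 536870912) (W1 := 536870912) (P2 := 0) (W2 := 536870912) (P3 := 587336777) (W3 := 62277027) (N0 := 3) (En := eng) (mo := mog) (C1 := cd1q1) (C2 := cd3q2a) (C3 := pd3)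
    rfl k0_pp_123_a

noncomputable def f_pp_123_b : ℕ → ℕ → ℕ → ℕ → Bool := onCell 536870912 536870912 1239849684 370763052 587336777 62277027
    (rowB 3 eng mog cd1q1 cd3q2b pd3 0 true true true .npn 1 2 3 (qsf 536870912 536870912 1239849684 370763052 3) ndB1q1 ndB3q2b pcB3 Cut.none Ext.none)

def k0_pp_123_b : ∃ t, chk3 f_pp_123_b t 1 1 1 = true :=
  ⟨(l 4), by decide +kernel⟩

theorem c_pp_123_b : CertB 536870912 536870912 1239849684 370763052 587336777 62277027 3 eng mog cd1q1 cd3q2b pd3 true true true .npn 1 2 3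
    ndB1q1 ndB3q2b pcB3 Cut.none Ext.none :=
  certB0 (fam := true) (s1 := true) (s2 := true) (a := 1) (b := 2) (c := 3) (cn := .npn) (n1 := ndB1q1) (n2 := ndB3q2b) (pc := pcB3) (cut := Cut.none) (xt := Ext.none) (P1 := 536870912) (W1 := 536870912) (P2 := 1239849684) (W2 := 370763052) (P3 := 587336777) (W3 := 62277027) (N0 := 3) (En := eng) (mo := mog) (C1 := cd1q1) (C2 := cd3q2b) (C3 := pd3)
    rfl k0_pp_123_b

noncomputable def f_pp_133 : ℕ → ℕ → ℕ → ℕ → Bool := onCell 536870912 536870912 1610612736 536870912 587336777 62277027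
    (rowB 3 eng mog cd1q1 cd3q3 pd3 0 true true true .dn 1 3 3 (qsf 536870912 536870912 1610612736 536870912 3) ndB1q1 ndB3q3 pcB3 Cut.none Ext.none)

def k0_pp_133 : ∃ t, chk3 f_pp_133 t 1 1 1 = true :=
  ⟨(l 4), by decide +kernel⟩

theorem c_pp_133 : CertB 536870912 536870912 1610612736 536870912 587336777 62277027 3 eng mog cd1q1 cd3q3 pd3 true true true .dn 1 3 3
    ndB1q1 ndB3q3 pcB3 Cut.none Ext.none :=
  certB0 (fam := true) (s1 := true) (s2 := true) (a := 1) (b := 3) (c := 3) (cn := .dn) (n1 := ndB1q1) (n2 := ndB3q3) (pc := pcB3) (cut := Cut.none) (xt := Ext.none) (P1 := 536870912) (W1 := 536870912) (P2 := 1610612736) (W2 := 536870912) (P3 := 587336777) (W3 := 62277027) (N0 := 3) (En := eng) (mo := mog) (C1 := cd1q1) (C2 := cd3q3) (C3 := pd3)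
    rfl k0_pp_133

noncomputable def f_pp_202_a : ℕ → ℕ → ℕ → ℕ → Bool := onCell 0 536870912 0 536870912 587336777 62277027
    (rowB 3 eng mog cd1q2a cd3q0 pd2 0 true true true .pp 2 0 2 (qsf 0 536870912 0 536870912 2) ndB1q2a ndB3q0 pcB2 Cut.none Ext.none)

def k0_pp_202_a : ∃ t, chk3 f_pp_202_a t 1 1 1 = true :=
  ⟨(l 5), by decide +kernel⟩

theorem c_pp_202_a : CertB 0 536870912 0 536870912 587336777 62277027 3 eng mog cd1q2a cd3q0 pd2 true true true .pp 2 0 2
    ndB1q2a ndB3q0 pcB2 Cut.none Ext.none :=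
  certB0 (fam := true) (s1 := true) (s2 := true) (a := 2) (b := 0) (c := 2) (cn := .pp) (n1 := ndB1q2a) (n2 := ndB3q0) (pc := pcB2) (cut := Cut.none) (xt := Ext.none) (P1 := 0) (W1 := 536870912) (P2 := 0) (W2 := 536870912) (P3 := 587336777) (W3 := 62277027) (N0 := 3) (En := eng) (mo := mog) (C1 := cd1q2a) (C2 := cd3q0) (C3 := pd2)
    rfl k0_pp_202_a

noncomputable def f_pp_202_b : ℕ → ℕ → ℕ → ℕ → Bool := onCell 1239849684 370763052 0 536870912 587336777 62277027
    (rowB 3 eng mog cd1q2b cd3q0 pd2 0 true true true .pp 2 0 2 (qsf 1239849684 370763052 0 536870912 2) ndB1q2b ndB3q0 pcB2 Cut.none Ext.none)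

def k0_pp_202_b : ∃ t, chk3 f_pp_202_b t 1 1 1 = true :=
  ⟨(l 5), by decide +kernel⟩

theorem c_pp_202_b : CertB 1239849684 370763052 0 536870912 587336777 62277027 3 eng mog cd1q2b cd3q0 pd2 true true true .pp 2 0 2
    ndB1q2b ndB3q0 pcB2 Cut.none Ext.none :=
  certB0 (fam := true) (s1 := true) (s2 := true) (a := 2) (b := 0) (c := 2) (cn := .pp) (n1 := ndB1q2b) (n2 := ndB3q0) (pc := pcB2) (cut := Cut.none) (xt := Ext.none) (P1 := 1239849684) (W1 := 370763052) (P2 := 0) (W2 := 536870912) (P3 := 587336777) (W3 := 62277027) (N0 := 3) (En := eng) (mo := mog) (C1 := cd1q2b) (C2 := cd3q0) (C3 := pd2)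
    rfl k0_pp_202_b

noncomputable def f_pp_203_a : ℕ → ℕ → ℕ → ℕ → Bool := onCell 0 536870912 0 536870912 587336777 62277027
    (rowB 3 eng mog cd1q2a cd3q0 pd3 0 true true true .up 2 0 3 (qsf 0 536870912 0 536870912 3) ndB1q2a ndB3q0 pcB3 Cut.none Ext.none)

def k0_pp_203_a : ∃ t, chk3 f_pp_203_a t 1 1 1 = true :=
  ⟨(l 5), by decide +kernel⟩

theorem c_pp_203_a : CertB 0 536870912 0 536870912 587336777 62277027 3 eng mog cd1q2a cd3q0 pd3 true true true .up 2 0 3
    ndB1q2a ndB3q0 pcB3 Cut.none Ext.none :=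
  certB0 (fam := true) (s1 := true) (s2 := true) (a := 2) (b := 0) (c := 3) (cn := .up) (n1 := ndB1q2a) (n2 := ndB3q0) (pc := pcB3) (cut := Cut.none) (xt := Ext.none) (P1 := 0) (W1 := 536870912) (P2 := 0) (W2 := 536870912) (P3 := 587336777) (W3 := 62277027) (N0 := 3) (En := eng) (mo := mog) (C1 := cd1q2a) (C2 := cd3q0) (C3 := pd3)
    rfl k0_pp_203_a

noncomputable def f_pp_203_b : ℕ → ℕ → ℕ → ℕ → Bool := onCell 1239849684 370763052 0 536870912 587336777 62277027
    (rowB 3 eng mog cd1q2b cd3q0 pd3 0 true true true .up 2 0 3 (qsf 1239849684 370763052 0 536870912 3) ndB1q2b ndB3q0 pcB3 Cut.none Ext.none)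

def k0_pp_203_b : ∃ t, chk3 f_pp_203_b t 1 1 1 = true :=
  ⟨(l 5), by decide +kernel⟩

theorem c_pp_203_b : CertB 1239849684 370763052 0 536870912 587336777 62277027 3 eng mog cd1q2b cd3q0 pd3 true true true .up 2 0 3
    ndB1q2b ndB3q0 pcB3 Cut.none Ext.none :=
  certB0 (fam := true) (s1 := true) (s2 := true) (a := 2) (b := 0) (c := 3) (cn := .up) (n1 := ndB1q2b) (n2 := ndB3q0) (pc := pcB3) (cut := Cut.none) (xt := Ext.none) (P1 := 1239849684) (W1 := 370763052) (P2 := 0) (W2 := 536870912) (P3 := 587336777) (W3 := 62277027) (N0 := 3) (En := eng) (mo := mog) (C1 := cd1q2b) (C2 := cd3q0) (C3 := pd3)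
    rfl k0_pp_203_b

noncomputable def f_pp_213_a : ℕ → ℕ → ℕ → ℕ → Bool := onCell 0 536870912 536870912 536870912 587336777 62277027
    (rowB 3 eng mog cd1q2a cd3q1 pd3 0 true true true .pnn 2 1 3 (qsf 0 536870912 536870912 536870912 3) ndB1q2a ndB3q1 pcB3 Cut.none Ext.none)

def k0_pp_213_a : ∃ t, chk3 f_pp_213_a t 1 1 1 = true :=
  ⟨(l 4), by decide +kernel⟩

theorem c_pp_213_a : CertB 0 536870912 536870912 536870912 587336777 62277027 3 eng mog cd1q2a cd3q1 pd3 true true true .pnn 2 1 3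
    ndB1q2a ndB3q1 pcB3 Cut.none Ext.none :=
  certB0 (fam := true) (s1 := true) (s2 := true) (a := 2) (b := 1) (c := 3) (cn := .pnn) (n1 := ndB1q2a) (n2 := ndB3q1) (pc := pcB3) (cut := Cut.none) (xt := Ext.none) (P1 := 0) (W1 := 536870912) (P2 := 536870912) (W2 := 536870912) (P3 := 587336777) (W3 := 62277027) (N0 := 3) (En := eng) (mo := mog) (C1 := cd1q2a) (C2 := cd3q1) (C3 := pd3)
    rfl k0_pp_213_a

noncomputable def f_pp_213_b : ℕ → ℕ → ℕ → ℕ → Bool := onCell 1239849684 370763052 536870912 536870912 587336777 62277027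
    (rowB 3 eng mog cd1q2b cd3q1 pd3 0 true true true .pnn 2 1 3 (qsf 1239849684 370763052 536870912 536870912 3) ndB1q2b ndB3q1 pcB3 Cut.none Ext.none)

def k0_pp_213_b : ∃ t, chk3 f_pp_213_b t 1 1 1 = true :=
  ⟨(l 4), by decide +kernel⟩

theorem c_pp_213_b : CertB 1239849684 370763052 536870912 536870912 587336777 62277027 3 eng mog cd1q2b cd3q1 pd3 true true true .pnn 2 1 3
    ndB1q2b ndB3q1 pcB3 Cut.none Ext.none :=
  certB0 (fam := true) (s1 := true) (s2 := true) (a := 2) (b := 1) (c := 3) (cn := .pnn) (n1 := ndB1q2b) (n2 := ndB3q1) (pc := pcB3) (cut := Cut.none) (xt := Ext.none) (P1 := 1239849684) (W1 := 370763052) (P2 := 536870912) (W2 := 536870912) (P3 := 587336777) (W3 := 62277027) (N0 := 3) (En := eng) (mo := mog) (C1 := cd1q2b) (C2 := cd3q1) (C3 := pd3)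
    rfl k0_pp_213_b

noncomputable def f_pp_303 : ℕ → ℕ → ℕ → ℕ → Bool := onCell 1610612736 536870912 0 536870912 587336777 62277027
    (rowB 3 eng mog cd1q3 cd3q0 pd3 0 true true true .npn 3 0 3 (qsf 1610612736 536870912 0 536870912 3) ndB1q3 ndB3q0 pcB3 Cut.none Ext.none)

def k0_pp_303 : ∃ t, chk3 f_pp_303 t 1 1 1 = true :=
  ⟨(l 5), by decide +kernel⟩

theorem c_pp_303 : CertB 1610612736 536870912 0 536870912 587336777 62277027 3 eng mog cd1q3 cd3q0 pd3 true true true .npn 3 0 3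
    ndB1q3 ndB3q0 pcB3 Cut.none Ext.none :=
  certB0 (fam := true) (s1 := true) (s2 := true) (a := 3) (b := 0) (c := 3) (cn := .npn) (n1 := ndB1q3) (n2 := ndB3q0) (pc := pcB3) (cut := Cut.none) (xt := Ext.none) (P1 := 1610612736) (W1 := 536870912) (P2 := 0) (W2 := 536870912) (P3 := 587336777) (W3 := 62277027) (N0 := 3) (En := eng) (mo := mog) (C1 := cd1q3) (C2 := cd3q0) (C3 := pd3)
    rfl k0_pp_303

noncomputable def f_pp_313 : ℕ → ℕ → ℕ → ℕ → Bool := onCell 1610612736 536870912 536870912 536870912 587336777 62277027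
    (rowB 3 eng mog cd1q3 cd3q1 pd3 0 true true true .dn 3 1 3 (qsf 1610612736 536870912 536870912 536870912 3) ndB1q3 ndB3q1 pcB3 Cut.none Ext.none)

def k0_pp_313 : ∃ t, chk3 f_pp_313 t 1 1 1 = true :=
  ⟨(l 4), by decide +kernel⟩

theorem c_pp_313 : CertB 1610612736 536870912 536870912 536870912 587336777 62277027 3 eng mog cd1q3 cd3q1 pd3 true true true .dn 3 1 3
    ndB1q3 ndB3q1 pcB3 Cut.none Ext.none :=
  certB0 (fam := true) (s1 := true) (s2 := true) (a := 3) (b := 1) (c := 3) (cn := .dn) (n1 := ndB1q3) (n2 := ndB3q1) (pc := pcB3) (cut := Cut.none) (xt := Ext.none) (P1 := 1610612736) (W1 := 536870912) (P2 := 536870912) (W2 := 536870912) (P3 := 587336777) (W3 := 62277027) (N0 := 3) (En := eng) (mo := mog) (C1 := cd1q3) (C2 := cd3q1) (C3 := pd3)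
    rfl k0_pp_313

noncomputable def f_pm_001 : ℕ → ℕ → ℕ → ℕ → Bool := onCell 0 536870912 0 536870912 587336777 62277027
    (rowB 3 eng mog cd1q0 cd3q0 pd1 0 true true false .up 0 0 1 (qsf 0 536870912 0 536870912 1) ndB1q0 ndB3q0 pcB1 Cut.none Ext.none)

def k0_pm_001 : ∃ t, chk3 f_pm_001 t 1 1 1 = true :=
  ⟨(l 3), by decide +kernel⟩

theorem c_pm_001 : CertB 0 536870912 0 536870912 587336777 62277027 3 eng mog cd1q0 cd3q0 pd1 true true false .up 0 0 1
    ndB1q0 ndB3q0 pcB1 Cut.none Ext.none :=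
  certB0 (fam := true) (s1 := true) (s2 := false) (a := 0) (b := 0) (c := 1) (cn := .up) (n1 := ndB1q0) (n2 := ndB3q0) (pc := pcB1) (cut := Cut.none) (xt := Ext.none) (P1 := 0) (W1 := 536870912) (P2 := 0) (W2 := 536870912) (P3 := 587336777) (W3 := 62277027) (N0 := 3) (En := eng) (mo := mog) (C1 := cd1q0) (C2 := cd3q0) (C3 := pd1)
    rfl k0_pm_001

noncomputable def f_pm_011 : ℕ → ℕ → ℕ → ℕ → Bool := onCell 0 536870912 536870912 536870912 587336777 62277027
    (rowB 3 eng mog cd1q0 cd3q1 pd1 1 true true false .pnn 0 1 1 (qsf 0 536870912 536870912 536870912 1) ndB1q0 ndB3q1 pcB1 Cut.none Ext.none)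

def k0_pm_011 : ∃ t, chk3 f_pm_011 t 1 1 1 = true :=
  ⟨(l 3), by decide +kernel⟩

theorem c_pm_011 : CertB 0 536870912 536870912 536870912 587336777 62277027 3 eng mog cd1q0 cd3q1 pd1 true true false .pnn 0 1 1
    ndB1q0 ndB3q1 pcB1 Cut.none Ext.none :=
  certB1 (fam := true) (s1 := true) (s2 := false) (a := 0) (b := 1) (c := 1) (cn := .pnn) (n1 := ndB1q0) (n2 := ndB3q1) (pc := pcB1) (cut := Cut.none) (xt := Ext.none) (P1 := 0) (W1 := 536870912) (P2 := 536870912) (W2 := 536870912) (P3 := 587336777) (W3 := 62277027) (N0 := 3) (En := eng) (mo := mog) (C1 := cd1q0) (C2 := cd3q1) (C3 := pd1)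
    rfl (fun _ => rfl) k0_pm_011

noncomputable def f_pm_012 : ℕ → ℕ → ℕ → ℕ → Bool := onCell 1073741824 536870912 536870912 536870912 587336777 62277027
    (rowB 3 eng mog cd1q0 cd3q1 pd2 2 true true false .pnp 0 1 2 (qsf 0 536870912 536870912 536870912 2) ndB1q0 ndB3q1 pcB2 Cut.none Ext.none)

def k0_pm_012 : ∃ t, chk3 f_pm_012 t 1 1 1 = true :=
  ⟨(a (a (a (l 3) (b (a (l 3) (b (l 3) (l 3))) (l 3))) (a (a (a (b (b (a (b (l 2) (l 3)) (l 2)) (a (l 3) (b (l 16638152) (l 3)))) (l 3)) (b (b (l 2) (a (b (a (l 16638008) (l 16636048)) (a (l 3) (l 16627672))) (a (b (a (l 16635344) (l 16635296)) (a (l 16626232) (l 16625040))) (b (a (l 16680456) (b (l 16645312) (l 16637176))) (a (b (l 16628376) (l 16663064)) (b (l 16630336) (l 16622096))))))) (a (b (l 3) (l 3)) (b (a (b (a (l 16609976) (l 16608576)) (l 3)) (b (a (b (l 16675312) (l 16622784)) (l 16607256)) (a (b (l 16590216) (l 16578000)) (l 16583240)))) (a (b (l 3) (b (l 3) (l 16556424))) (b (a (b (l 3)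 (l 16636288)) (l 16556792)) (a (b (l 16540600) (c (l 16531464) (l 16530656))) (b (l 16537856) (l 16527840))))))))) (b (b (l 2) (b (l 16645248) (l 16624648))) (b (b (l 16600824) (l 16571288)) (b (b (l 16547680) (l 16531648)) (b (l 16516216) (l 16502984)))))) (b (b (l 2) (b (l 16655056) (l 16624176))) (b (b (l 16589032) (b (l 16558360) (l 16536528))) (b (b (l 16513536) (l 16489720)) (b (l 16465904) (l 16506344))))))) (b (a (b (l 2) (a (b (l 2) (l 16639912)) (l 2))) (l 2)) (a (b (b (a (l 16593176) (l 16620944)) (a (l 16537864) (l 16553912))) (b (a (l 16559280) (l 16476640)) (a (b (l 16424080) (l 16389976)) (l 16452264)))) (b (b (l 2) (a (l 16597672) (l 2))) (b (a (l 16506768) (l 16568632)) (a (l 16401120) (l 16443936))))))), by decide +kernel⟩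

theorem c_pm_012 : CertB 0 536870912 536870912 536870912 587336777 62277027 3 eng mog cd1q0 cd3q1 pd2 true true false .pnp 0 1 2
    ndB1q0 ndB3q1 pcB2 Cut.none Ext.none :=
  certB2 (fam := true) (s1 := true) (s2 := false) (a := 0) (b := 1) (c := 2) (cn := .pnp) (n1 := ndB1q0) (n2 := ndB3q1) (pc := pcB2) (cut := Cut.none) (xt := Ext.none) (P1 := 0) (W1 := 536870912) (P2 := 536870912) (W2 := 536870912) (P3 := 587336777) (W3 := 62277027) (N0 := 3) (En := eng) (mo := mog) (C1 := cd1q0) (C2 := cd3q1) (C3 := pd2)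
    rfl (fun _ => rfl) k0_pm_012

noncomputable def cut_pm_022_a : Cut := Cut.of [[⟨0, 0, 0, 67108864⟩, ⟨1, 1, 0, 67108864⟩, ⟨2, 1, 0, 67108864⟩]]

noncomputable def f_pm_022_a : ℕ → ℕ → ℕ → ℕ → Bool := onCell 1073741824 536870912 0 536870912 587336777 62277027
    (rowB 3 eng mog cd1q0 cd3q2a pd2 2 true true false .pp 0 2 2 (qsf 0 536870912 0 536870912 2) ndB1q0 ndB3q2a pcB2 cut_pm_022_a Ext.none)

def k0_pm_022_a : ∃ t, chk3 f_pm_022_a t 2 2 1 = true :=
  ⟨(a (a (l 1) (b (l 1) (a (l 1) (b (l 1) (a (l 1) (b (l 1) (a (l 1) (l 16514136)))))))) (a (a (a (b (l 1) (b (b (l 16474392) (a (l 1) (l 16485640))) (b (a (l 16498680) (l 16498136)) (a (l 16513104) (l 16511888))))) (b (a (b (l 1) (l 8622897367)) (a (b (l 1) (l 16463560)) (b (b (l 16453704) (a (l 16455872) (l 16456144))) (a (l 16463816) (l 16463968))))) (a (b (b (l 16475024) (l 16485488)) (b (l 16497392) (l 16510496))) (a (b (l 16480424) (l 16503296)) (b (a (l 16480352) (b (l 16475184) (l 16484952)))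 (a (l 16502800) (b (l 16496072) (l 16508288)))))))) (b (b (a (b (l 16455272) (l 16457168)) (l 16458624)) (a (b (l 16461248) (l 16467272)) (l 16465248))) (b (a (b (l 16475008) (l 16484248)) (l 16479024)) (a (b (l 16494768) (l 16506312)) (l 16497832))))) (b (a (b (l 16463448) (b (l 16465472) (l 16469592))) (b (l 16471416) (l 16514504))) (a (b (l 16478872) (l 16494344)) (b (l 16480184) (l 16491912)))))), by decide +kernel⟩

def k1_pm_022_a : ∃ t, chk3 f_pm_022_a t 4 3 1 = true :=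
  ⟨(a (b (l 1) (b (a (l 1) (b (a (l 1) (a (l 1) (b (l 1) (a (l 23118758887) (l 62847201063))))) (a (l 6) (a (l 6) (b (a (l 6) (l 16654720)) (l 16668320)))))) (a (l 6) (a (l 6) (a (l 6) (a (l 6) (b (b (l 16679104) (l 16690944)) (b (l 16699112) (l 16705392))))))))) (b (a (b (l 1) (a (b (l 1) (a (l 1) (b (l 16599496) (l 68752720503)))) (b (a (l 16579656) (b (l 16571616) (l 16582272))) (a (b (l 16596328) (l 16607512)) (b (l 16593000) (l 16603696)))))) (b (a (b (a (l 1) (l 16533376)) (a (l 16554112) (b (l 16547208) (l 16556728)))) (b (a (l 16531952) (l 16530352)) (a (l 16549800) (l 16547392)))) (a (b (a (b (l 16569080) (l 16579272)) (l 16571312)) (a (l 16594736) (l 16590840))) (b (l 16566568) (l 16584688))))) (b (a (b (a (b (a (a (l 16627832) (l 16625856)) (l 16622848)) (a (b (l 16635976) (l 16642040)) (l 16634512))) (b (l 16616560) (l 16627456))) (a (b (a (l 16651024) (l 16645984)) (a (l 16662888) (l 16657328))) (b (a (l 16640816) (l 16635488)) (l 16648712))))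 (b (a (b (l 16607648) (l 16617512)) (l 16602608)) (a (l 16632072) (l 16619944)))) (b (a (a (b (a (l 16674600) (l 16668488)) (l 16682184)) (l 16699808)) (a (l 16669008) (c (l 16634616) (l 16632968)))) (a (b (c (a (l 16689440) (l 16673944)) (a (l 16688536) (l 16672096))) (b (a (l 16693520) (l 16677376)) (a (l 16717440) (l 16680232)))) (a (b (l 16657448) (a (l 16667032) (l 16659208))) (b (a (l 16646208) (l 16638808)) (a (l 16651416) (l 16643776))))))))), by decide +kernel⟩

def k2_pm_022_a : ∃ t, chk3 f_pm_022_a t 5 3 1 = true :=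
  ⟨(a (b (a (a (b (b (a (l 16528576) (l 16526632)) (l 16543448)) (b (l 16559680) (l 16575960))) (a (b (b (l 16524520) (l 16539160)) (b (l 16554136) (l 16569064))) (b (a (l 16530200) (a (l 16529176) (b (l 16521344) (l 16534936)))) (a (l 16558784) (a (l 16557152) (b (l 16548776) (l 16562520))))))) (a (b (b (l 16518616) (l 16531384)) (b (l 16544352) (l 16557136))) (b (l 16519728) (l 16542744)))) (a (a (b (b (l 16591936) (l 16606992)) (b (c (l 16705256) (l 16639440)) (b (l 16628080) (a (l 16636416) (l 16629288))))) (a (b (l 16654056) (b (l 16693736) (b (l 16617856) (l 16643360)))) (a (b (l 16607624) (b (l 16605128) (b (l 16612928) (l 16617328)))) (a (b (l 16605392) (b (l 16602800) (b (l 16610496) (l 16614816)))) (b (c (l 16603840) (l 16624680)) (b (b (l 16598304) (l 16603880)) (a (a (a (l 16611888) (b (l 16609376) (c (l 16618096) (l 16609248)))) (l 16611368)) (l 16610744)))))))) (b (b (l 16606480) (l 16621728)) (b (a (l 16617312) (l 16582544)) (a (b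 (l 16601648) (a (l 16608968) (l 16602472))) (b (l 16589168) (l 16592800))))))) (b (b (a (b (l 16507400) (l 16516920)) (l 16568152)) (a (l 16573512) (l 16516736))) (b (b (l 16555752) (a (l 16555648) (l 16535200))) (b (a (l 16565096) (l 16543584)) (b (a (l 16570784) (l 16548664)) (a (a (l 16580024) (l 16567848)) (l 16551408))))))), by decide +kernel⟩

def k3_pm_022_a : ∃ t, chk3 f_pm_022_a t 3 1 1 = true :=
  ⟨(b (a (a (b (a (b (l 16481832) (l 16480344)) (b (l 16493848) (l 16489120))) (b (a (l 16484128) (l 16488040)) (a (l 16491168) (l 16489864)))) (b (a (b (a (l 16502136) (l 16509064)) (l 16518824)) (b (l 16523840) (l 16512960))) (b (a (a (l 16490528) (l 16493728)) (l 16502896)) (l 16468928)))) (b (a (b (l 16553384) (l 16537648)) (b (l 16589200) (l 16567400))) (a (b (l 16520696) (l 16497392)) (b (l 16541136) (l 16506104))))) (a (b (a (b (a (l 16497904) (l 16489768)) (l 16597368)) (b (l 16477880) (l 16535736))) (b (a (b (l 16502984) (l 16616256)) (a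 (l 16554904) (l 16479536))) (a (b (a (l 16525952) (l 16510864)) (a (b (l 16530088) (l 16531992)) (l 16514216))) (b (a (l 16497824) (l 16483000)) (a (a (l 16503040) (l 16495520)) (l 16482824)))))) (b (a (b (l 16466208) (l 16458096)) (b (l 16450952) (l 16451272))) (a (b (l 16551128) (b (l 16469144) (a (l 16470568) (l 16465920)))) (b (l 16481376) (b (l 16462656) (l 16462280))))))), by decide +kernel⟩

theorem s4_pm_022_a : ∃ t, chk3 f_pm_022_a t 2 3 1 = true := ex3_a k1_pm_022_a k2_pm_022_a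

theorem s5_pm_022_a : ∃ t, chk3 f_pm_022_a t 2 1 1 = true := ex3_b k0_pm_022_a s4_pm_022_a

theorem s6_pm_022_a : ∃ t, chk3 f_pm_022_a t 1 1 1 = true := ex3_a s5_pm_022_a k3_pm_022_a

theorem c_pm_022_a : CertB 0 536870912 0 536870912 587336777 62277027 3 eng mog cd1q0 cd3q2a pd2 true true false .pp 0 2 2
    ndB1q0 ndB3q2a pcB2 cut_pm_022_a Ext.none :=
  certB2 (fam := true) (s1 := true) (s2 := false) (a := 0) (b := 2) (c := 2) (cn := .pp) (n1 := ndB1q0) (n2 := ndB3q2a) (pc := pcB2) (cut := cut_pm_022_a) (xt := Ext.none) (P1 := 0) (W1 := 536870912) (P2 := 0) (W2 := 536870912) (P3 := 587336777) (W3 := 62277027) (N0 := 3) (En := eng) (mo := mog) (C1 := cd1q0) (C2 := cd3q2a) (C3 := pd2)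
    rfl (fun _ => rfl) s6_pm_022_a

noncomputable def cut_pm_022_b : Cut := Cut.of [[⟨0, 0, 0, 67108864⟩, ⟨1, 1, 0, 67108864⟩, ⟨2, 1, 0, 67108864⟩]]

noncomputable def f_pm_022_b : ℕ → ℕ → ℕ → ℕ → Bool := onCell 1073741824 536870912 1239849684 370763052 587336777 62277027
    (rowB 3 eng mog cd1q0 cd3q2b pd2 2 true true false .pp 0 2 2 (qsf 0 536870912 1239849684 370763052 2) ndB1q0 ndB3q2b pcB2 cut_pm_022_b Ext.none)

def k0_pm_022_b : ∃ t, chk3 f_pm_022_b t 1 1 1 = true :=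
  ⟨(a (b (a (l 1) (a (b (b (a (b (a (l 1) (l 16428912)) (l 1)) (a (b (a (l 16431872) (l 16433552)) (l 1)) (b (l 16436584) (l 16392152)))) (l 1)) (l 1)) (b (b (a (b (l 16443856) (a (l 16398808) (l 16405936))) (a (l 16433048) (l 16439856))) (a (b (a (l 16354208) (l 16363232)) (l 1)) (b (l 16377488) (l 16335680)))) (a (l 1) (b (b (l 16292144) (l 1)) (l 1)))))) (l 1)) (a (b (a (b (a (b (b (l 16467888) (l 16433216)) (l 16378432)) (b (b (l 16482800) (l 16450968)) (l 16400344))) (b (a (b (l 16319200) (l 16277624)) (l 16327704)) (a (l 1) (l 16248616)))) (b (a (b (a (l 16479960) (l 16489816)) (l 16508224)) (b (l 16508664) (l 16456264))) (a (b (l 16357160) (l 16285160)) (b (l 16395352) (l 16330792))))) (b (a (l 1) (a (b (l 16207736) (l 1)) (b (l 16261976) (l 16189080)))) (l 1))) (b (b (a (b (a (l 16533720) (l 16558192)) (l 16505608)) (b (l 16592328) (l 16566616))) (a (a (l 16408208) (l 16450944)) (l 16533440))) (a (b (a (l 85932018663) (l 16344256)) (a (l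 1) (l 16229168))) (b (l 16447760) (l 64994256727)))))), by decide +kernel⟩

theorem c_pm_022_b : CertB 0 536870912 1239849684 370763052 587336777 62277027 3 eng mog cd1q0 cd3q2b pd2 true true false .pp 0 2 2
    ndB1q0 ndB3q2b pcB2 cut_pm_022_b Ext.none :=
  certB2 (fam := true) (s1 := true) (s2 := false) (a := 0) (b := 2) (c := 2) (cn := .pp) (n1 := ndB1q0) (n2 := ndB3q2b) (pc := pcB2) (cut := cut_pm_022_b) (xt := Ext.none) (P1 := 0) (W1 := 536870912) (P2 := 1239849684) (W2 := 370763052) (P3 := 587336777) (W3 := 62277027) (N0 := 3) (En := eng) (mo := mog) (C1 := cd1q0) (C2 := cd3q2b) (C3 := pd2)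
    rfl (fun _ => rfl) k0_pm_022_b

noncomputable def f_pm_023_a : ℕ → ℕ → ℕ → ℕ → Bool := onCell 1610612736 536870912 0 536870912 587336777 62277027
    (rowB 3 eng mog cd1q0 cd3q2a pd3 2 true true false .up 0 2 3 (qsf 0 536870912 0 536870912 3) ndB1q0 ndB3q2a pcB3 Cut.none Ext.none)

def k0_pm_023_a : ∃ t, chk3 f_pm_023_a t 1 1 1 = true :=
  ⟨(a (b (a (a (a (a (b (b (l 16614560) (l 16591600)) (b (l 16563528) (l 16526528))) (b (l 16570968) (l 16498552))) (b (l 16547752) (l 16541320))) (b (a (l 16570136) (l 16617880)) (a (l 16563088) (l 16592832)))) (a (a (b (l 16663488) (l 16639120)) (l 16710600)) (l 2))) (b (a (a (a (a (b (l 16462720) (l 16436800)) (b (l 16512552) (l 16523976))) (l 16555848)) (a (l 16571152) (l 199279519415))) (l 2)) (a (a (a (b (a (l 16588184) (l 16555664)) (a (b (l 16478912) (l 16553344)) (a (l 16531832) (l 16562160)))) (b (l 16566672) (l 16578544))) (a (l 198205705671) (l 2))) (l 2)))) (l 2)), by decide +kernel⟩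

theorem c_pm_023_a : CertB 0 536870912 0 536870912 587336777 62277027 3 eng mog cd1q0 cd3q2a pd3 true true false .up 0 2 3
    ndB1q0 ndB3q2a pcB3 Cut.none Ext.none :=
  certB2 (fam := true) (s1 := true) (s2 := false) (a := 0) (b := 2) (c := 3) (cn := .up) (n1 := ndB1q0) (n2 := ndB3q2a) (pc := pcB3) (cut := Cut.none) (xt := Ext.none) (P1 := 0) (W1 := 536870912) (P2 := 0) (W2 := 536870912) (P3 := 587336777) (W3 := 62277027) (N0 := 3) (En := eng) (mo := mog) (C1 := cd1q0) (C2 := cd3q2a) (C3 := pd3)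
    rfl (fun _ => rfl) k0_pm_023_a

noncomputable def f_pm_023_b : ℕ → ℕ → ℕ → ℕ → Bool := onCell 1610612736 536870912 1239849684 370763052 587336777 62277027
    (rowB 3 eng mog cd1q0 cd3q2b pd3 2 true true false .up 0 2 3 (qsf 0 536870912 1239849684 370763052 3) ndB1q0 ndB3q2b pcB3 Cut.none Ext.none)

def k0_pm_023_b : ∃ t, chk3 f_pm_023_b t 1 1 1 = true :=
  ⟨(b (a (a (a (a (b (b (a (l 16621528) (l 16609576)) (l 16602584)) (l 16561712)) (b (l 16610720) (l 16576320))) (b (b (l 16606832) (l 16628264)) (l 16612912))) (a (b (a (l 16643616) (l 16679976)) (l 16656600)) (b (l 370004329351) (l 16708888)))) (a (a (b (l 2) (l 16752432)) (a (l 239008216727) (l 2))) (l 2))) (a (a (a (a (b (l 16491624) (l 16417544)) (b (l 16509992) (l 16434952))) (b (l 16559400) (l 16492504))) (a (b (l 16625312) (l 16573648)) (b (l 16698360) (l 16668960)))) (a (a (a (b (l 16747576) (l 16729944)) (b (l 16768680) (l 4))) (l 4)) (l 4)))), by decide +kernel⟩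

theorem c_pm_023_b : CertB 0 536870912 1239849684 370763052 587336777 62277027 3 eng mog cd1q0 cd3q2b pd3 true true false .up 0 2 3
    ndB1q0 ndB3q2b pcB3 Cut.none Ext.none :=
  certB2 (fam := true) (s1 := true) (s2 := false) (a := 0) (b := 2) (c := 3) (cn := .up) (n1 := ndB1q0) (n2 := ndB3q2b) (pc := pcB3) (cut := Cut.none) (xt := Ext.none) (P1 := 0) (W1 := 536870912) (P2 := 1239849684) (W2 := 370763052) (P3 := 587336777) (W3 := 62277027) (N0 := 3) (En := eng) (mo := mog) (C1 := cd1q0) (C2 := cd3q2b) (C3 := pd3)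
    rfl (fun _ => rfl) k0_pm_023_b

noncomputable def f_pm_033 : ℕ → ℕ → ℕ → ℕ → Bool := onCell 0 536870912 1610612736 536870912 587336777 62277027
    (rowB 3 eng mog cd1q0 cd3q3 pd3 1 true true false .pnn 0 3 3 (qsf 0 536870912 1610612736 536870912 3) ndB1q0 ndB3q3 pcB3 Cut.none Ext.none)

def k0_pm_033 : ∃ t, chk3 f_pm_033 t 1 1 1 = true :=
  ⟨(b (b (a (b (a (b (a (l 16338736) (l 1)) (l 16353080)) (l 1)) (a (l 16350696) (l 16608440))) (l 1)) (b (a (a (l 16419640) (l 16519000)) (l 1)) (a (a (b (l 16474216) (l 16506376)) (l 16576904)) (a (l 16664632) (l 1))))) (b (a (b (a (l 4) (b (l 16612680) (l 4))) (l 4)) (b (a (b (l 16696984) (l 4)) (l 1)) (l 4))) (l 4))), by decide +kernel⟩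

theorem c_pm_033 : CertB 0 536870912 1610612736 536870912 587336777 62277027 3 eng mog cd1q0 cd3q3 pd3 true true false .pnn 0 3 3
    ndB1q0 ndB3q3 pcB3 Cut.none Ext.none :=
  certB1 (fam := true) (s1 := true) (s2 := false) (a := 0) (b := 3) (c := 3) (cn := .pnn) (n1 := ndB1q0) (n2 := ndB3q3) (pc := pcB3) (cut := Cut.none) (xt := Ext.none) (P1 := 0) (W1 := 536870912) (P2 := 1610612736) (W2 := 536870912) (P3 := 587336777) (W3 := 62277027) (N0 := 3) (En := eng) (mo := mog) (C1 := cd1q0) (C2 := cd3q3) (C3 := pd3)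
    rfl (fun _ => rfl) k0_pm_033

noncomputable def f_pm_101 : ℕ → ℕ → ℕ → ℕ → Bool := onCell 536870912 536870912 0 536870912 587336777 62277027
    (rowB 3 eng mog cd1q1 cd3q0 pd1 2 true true false .npn 1 0 1 (qsf 536870912 536870912 0 536870912 1) ndB1q1 ndB3q0 pcB1 Cut.none Ext.none)

def k0_pm_101 : ∃ t, chk3 f_pm_101 t 1 1 1 = true :=
  ⟨(a (l 3) (b (l 3) (l 3))), by decide +kernel⟩

theorem c_pm_101 : CertB 536870912 536870912 0 536870912 587336777 62277027 3 eng mog cd1q1 cd3q0 pd1 true true false .npn 1 0 1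
    ndB1q1 ndB3q0 pcB1 Cut.none Ext.none :=
  certB2 (fam := true) (s1 := true) (s2 := false) (a := 1) (b := 0) (c := 1) (cn := .npn) (n1 := ndB1q1) (n2 := ndB3q0) (pc := pcB1) (cut := Cut.none) (xt := Ext.none) (P1 := 536870912) (W1 := 536870912) (P2 := 0) (W2 := 536870912) (P3 := 587336777) (W3 := 62277027) (N0 := 3) (En := eng) (mo := mog) (C1 := cd1q1) (C2 := cd3q0) (C3 := pd1)
    rfl (fun _ => rfl) k0_pm_101

noncomputable def f_pm_102 : ℕ → ℕ → ℕ → ℕ → Bool := onCell 536870912 536870912 1073741824 536870912 587336777 62277027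
    (rowB 3 eng mog cd1q1 cd3q0 pd2 1 true true false .npp 1 0 2 (qsf 536870912 536870912 0 536870912 2) ndB1q1 ndB3q0 pcB2 Cut.none Ext.none)

def k0_pm_102 : ∃ t, chk3 f_pm_102 t 1 4 1 = true :=
  ⟨(b (a (l 3) (a (l 3) (b (l 3) (a (b (l 3) (a (l 3) (b (l 3) (b (l 16760616) (l 16782680))))) (a (b (l 3) (b (a (l 16759352) (l 16746688)) (a (l 16750752) (b (l 16760640) (l 16735328))))) (a (b (b (l 3) (a (l 16745848) (l 16759976))) (b (a (l 16778168) (l 16770904)) (l 16775760))) (b (b (a (l 3) (b (l 3) (l 16753520))) (a (l 16752704) (b (l 16727064) (l 16722608)))) (b (a (l 16722152) (l 16735864)) (l 16709056))))))))) (a (b (l 3) (a (l 3) (b (a (l 3) (b (l 3) (l 16706896))) (a (b (l 16681640) (l 16663568)) (b (a (l 16695056) (l 16702712)) (a (l 16709808) (l 16696744))))))) (a (b (b (a (l 3) (l 211158254727)) (a (b (l 3) (l 16736880)) (a (l 16865304) (b (l 16740272) (l 16737712))))) (b (a (b (l 16768864) (a (l 16716160) (l 16721880))) (b (a (l 16729176)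 (l 16746528)) (a (l 16731616) (l 16746656)))) (a (b (a (l 16710312) (l 16718896)) (a (l 16706912) (l 16727224))) (a (b (l 16740240) (l 16741992)) (l 16742544))))) (b (a (b (a (l 250349763463) (b (a (l 16759136) (l 16774712)) (l 16750272))) (a (b (l 16752672) (l 16750272)) (b (l 16742536) (l 16734624)))) (b (a (a (b (l 16742280) (l 16733552)) (l 16724088)) (a (l 16709712) (l 16694872))) (a (a (l 16720504) (l 16706720)) (a (l 16691936) (l 16676560))))) (a (b (a (l 16742128) (l 16723160)) (a (l 16730104) (l 16708680))) (a (b (l 16697080) (l 16681464)) (b (a (l 16674976) (l 16659304)) (l 16713920)))))))), by decide +kernel⟩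

def k1_pm_102 : ∃ t, chk3 f_pm_102 t 1 5 1 = true :=
  ⟨(a (a (b (b (b (b (a (l 2) (a (l 2) (l 16652216))) (l 2)) (l 2)) (l 2)) (l 2)) (b (b (b (a (b (a (b (l 16665312) (l 16662736)) (b (l 16675560) (l 16672752))) (a (l 16658112) (l 16669168))) (b (a (l 16683352) (l 16693808)) (a (l 16686704) (l 16706408)))) (b (a (b (l 16669512) (l 16681872)) (b (l 16707976) (l 16715504))) (b (a (a (l 16686456) (l 16702488)) (l 16763024)) (a (b (l 16766560) (a (c (l 43050350615) (l 43587191607)) (l 16717824))) (b (l 16727088) (l 16731560)))))) (a (l 16724256) (l 16736384))) (a (l 16736096) (l 16735888)))) (b (a (b (b (a (b (a (l 16714272) (l 16734288)) (l 16774584)) (a (l 16741320) (l 16734176))) (b (a (b (l 16736208) (l 16737712)) (l 16733480)) (b (a (l 16739128) (l 16730064)) (a (b (l 16740360) (l 16741400)) (b (l 16727736) (l 16725416)))))) (a (l 16737504) (l 16714232))) (b (b (a (a (l 16717960) (l 16694744)) (a (l 16666688) (l 16635760))) (b (a (l 16697192)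 (a (l 16656168) (l 16625048))) (a (b (l 16691480) (b (l 16687880) (a (l 16695696) (l 16672344)))) (a (b (l 16650880) (l 16646336)) (b (l 16619848) (l 16637040)))))) (a (a (l 16682216) (l 16659128)) (a (l 16632384) (l 16601880))))) (a (a (l 16721784) (l 16685840)) (a (a (l 16650032) (l 16627040)) (a (l 16600248) (l 16569856)))))), by decide +kernel⟩

def k2_pm_102 : ∃ t, chk3 f_pm_102 t 1 3 1 = true :=
  ⟨(a (b (a (l 2) (b (l 16950000) (l 2))) (l 2)) (b (a (a (l 16928792) (b (l 16656048) (l 16634168))) (a (b (l 16609520) (l 16591200)) (b (a (l 16571640) (l 16542240)) (l 16543528)))) (a (a (l 2) (b (l 16642960) (l 2))) (a (l 16700104) (b (l 16545664) (l 16573432)))))), by decide +kernel⟩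

theorem s3_pm_102 : ∃ t, chk3 f_pm_102 t 1 2 1 = true := ex3_b k0_pm_102 k1_pm_102

theorem s4_pm_102 : ∃ t, chk3 f_pm_102 t 1 1 1 = true := ex3_b s3_pm_102 k2_pm_102

theorem c_pm_102 : CertB 536870912 536870912 0 536870912 587336777 62277027 3 eng mog cd1q1 cd3q0 pd2 true true false .npp 1 0 2
    ndB1q1 ndB3q0 pcB2 Cut.none Ext.none :=
  certB1 (fam := true) (s1 := true) (s2 := false) (a := 1) (b := 0) (c := 2) (cn := .npp) (n1 := ndB1q1) (n2 := ndB3q0) (pc := pcB2) (cut := Cut.none) (xt := Ext.none) (P1 := 536870912) (W1 := 536870912) (P2 := 0) (W2 := 536870912) (P3 := 587336777) (W3 := 62277027) (N0 := 3) (En := eng) (mo := mog) (C1 := cd1q1) (C2 := cd3q0) (C3 := pd2)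
    rfl (fun _ => rfl) s4_pm_102

noncomputable def f_pm_112 : ℕ → ℕ → ℕ → ℕ → Bool := onCell 536870912 536870912 1073741824 536870912 587336777 62277027
    (rowB 3 eng mog cd1q1 cd3q1 pd2 1 true true false .dn 1 1 2 (qsf 536870912 536870912 536870912 536870912 2) ndB1q1 ndB3q1 pcB2 Cut.none Ext.none)

def k0_pm_112 : ∃ t, chk3 f_pm_112 t 1 1 1 = true :=
  ⟨(a (a (b (b (b (l 3) (l 3)) (b (b (b (b (a (l 3) (a (l 16649304) (b (l 16649752) (l 16654472)))) (a (b (l 16650496) (l 16649896)) (a (l 16653096) (b (l 16656536) (l 16656832))))) (b (a (b (l 16650304) (l 16649624)) (b (l 16655440) (l 16656232))) (b (a (a (l 16647248) (l 16651552)) (a (l 16656864) (l 16663776))) (a (b (a (l 16649336) (l 16655600)) (a (l 16653696) (l 16661624))) (b (l 16666488) (b (b (b (l 16671392) (a (l 16670448) (l 16677736))) (l 16675136)) (l 16675272))))))) (a (l 16657576) (l 16677448))) (a (l 16647736) (l 16677464)))) (b (a (b (l 16628888) (l 16606912)) (b (l 16673208) (l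 16671448))) (a (b (l 16581432) (l 16547000)) (b (l 16674024) (l 16678008))))) (a (b (b (b (l 1) (b (l 1) (b (l 1) (b (l 1) (a (l 412887103527) (l 1)))))) (b (b (b (a (b (b (l 16653152) (l 85932680663)) (l 108481295495)) (l 1)) (b (b (l 16662144) (l 51036157095)) (b (a (l 16670312) (l 1)) (b (a (l 16677256) (l 1)) (b (b (b (l 16682080) (l 16683824)) (l 16684080)) (l 16684368)))))) (l 16689808)) (l 16698424))) (b (a (l 16703968) (l 16718944)) (b (l 16749744) (l 16792344)))) (b (b (l 1) (b (b (l 1) (l 16694688)) (l 16707408))) (b (l 16771488) (b (l 16791936) (l 16868240)))))) (b (b (l 1) (b (l 1) (a (a (l 16787112) (l 1)) (l 1)))) (b (a (a (l 16887048) (b (l 16751008) (l 16691384))) (b (l 1) (a (l 16668224) (l 1)))) (a (a (l 16828864) (b (l 16732384) (l 16841112))) (b (l 96133611767) (l 16745368)))))), by decide +kernel⟩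

theorem c_pm_112 : CertB 536870912 536870912 536870912 536870912 587336777 62277027 3 eng mog cd1q1 cd3q1 pd2 true true false .dn 1 1 2
    ndB1q1 ndB3q1 pcB2 Cut.none Ext.none :=
  certB1 (fam := true) (s1 := true) (s2 := false) (a := 1) (b := 1) (c := 2) (cn := .dn) (n1 := ndB1q1) (n2 := ndB3q1) (pc := pcB2) (cut := Cut.none) (xt := Ext.none) (P1 := 536870912) (W1 := 536870912) (P2 := 536870912) (W2 := 536870912) (P3 := 587336777) (W3 := 62277027) (N0 := 3) (En := eng) (mo := mog) (C1 := cd1q1) (C2 := cd3q1) (C3 := pd2)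
    rfl (fun _ => rfl) k0_pm_112

noncomputable def f_pm_113 : ℕ → ℕ → ℕ → ℕ → Bool := onCell 536870912 536870912 1610612736 536870912 587336777 62277027
    (rowB 3 eng mog cd1q1 cd3q1 pd3 1 true true false .nn 1 1 3 (qsf 536870912 536870912 536870912 536870912 3) ndB1q1 ndB3q1 pcB3 Cut.none Ext.none)

def k0_pm_113 : ∃ t, chk3 f_pm_113 t 1 1 1 = true :=
  ⟨(a (b (b (a (b (b (l 16575216) (l 16564200)) (a (l 16465240) (l 16627712))) (a (b (l 16781424) (l 16750048)) (b (l 16888904) (l 16847696)))) (b (a (a (l 2) (l 16604448)) (a (l 16721288) (l 16811464))) (a (l 2) (a (l 16698816) (l 16779552))))) (a (l 2) (b (b (a (l 2) (l 16754664)) (l 2)) (l 2)))) (b (b (b (a (a (l 17004232) (b (l 16997416) (l 17104040))) (b (b (l 16841520) (l 16929000)) (l 17019496))) (b (a (l 16806584) (l 17110040)) (a (a (l 16926688) (l 17041864)) (l 17123200)))) (b (a (a (l 16888992) (l 16982280)) (b (l 17137608) (l 17125880))) (a (a (l 16845848) (l 16916352)) (a (l 16996000)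 (l 17087176))))) (a (b (b (a (l 16808472) (l 16864376)) (a (l 16778432) (l 16820920))) (b (a (l 2) (a (l 2) (l 16790136))) (l 2))) (b (b (a (l 16921776) (l 16981896)) (a (l 16864560) (l 16903424))) (b (b (l 16840080) (l 16979152)) (b (b (l 16789960) (l 16775248)) (a (l 2) (b (l 16763672) (b (l 16744816) (l 4)))))))))), by decide +kernel⟩

theorem c_pm_113 : CertB 536870912 536870912 536870912 536870912 587336777 62277027 3 eng mog cd1q1 cd3q1 pd3 true true false .nn 1 1 3
    ndB1q1 ndB3q1 pcB3 Cut.none Ext.none :=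
  certB1 (fam := true) (s1 := true) (s2 := false) (a := 1) (b := 1) (c := 3) (cn := .nn) (n1 := ndB1q1) (n2 := ndB3q1) (pc := pcB3) (cut := Cut.none) (xt := Ext.none) (P1 := 536870912) (W1 := 536870912) (P2 := 536870912) (W2 := 536870912) (P3 := 587336777) (W3 := 62277027) (N0 := 3) (En := eng) (mo := mog) (C1 := cd1q1) (C2 := cd3q1) (C3 := pd3)
    rfl (fun _ => rfl) k0_pm_113

noncomputable def f_pm_123_a : ℕ → ℕ → ℕ → ℕ → Bool := onCell 1610612736 536870912 0 536870912 587336777 62277027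
    (rowB 3 eng mog cd1q1 cd3q2a pd3 2 true true false .npn 1 2 3 (qsf 536870912 536870912 0 536870912 3) ndB1q1 ndB3q2a pcB3 Cut.none Ext.none)

def k0_pm_123_a : ∃ t, chk3 f_pm_123_a t 1 2 1 = true :=
  ⟨(a (a (a (l 1) (b (l 1) (a (l 1) (l 16654864)))) (a (b (l 26877289927) (a (l 16683056) (l 16718664))) (b (l 16764888) (l 16757184)))) (a (a (a (b (l 16781744) (l 16778976)) (b (l 16787464) (l 16784848))) (a (b (l 16790616) (l 16786952)) (b (l 74860211879) (l 16787104)))) (a (a (b (b (l 183844818407) (l 16835192)) (b (l 16786424) (l 16786312))) (b (l 4) (b (l 129084119143) (l 16828024)))) (a (b (l 4) (a (l 256859353479) (l 4))) (l 4))))), by decide +kernel⟩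

def k1_pm_123_a : ∃ t, chk3 f_pm_123_a t 1 3 1 = true :=
  ⟨(b (a (a (a (l 1) (a (l 16629688) (b (l 16639288) (l 16646248)))) (a (a (b (l 16674176) (l 16683624)) (l 16722304)) (a (l 16755984) (l 16780488)))) (a (a (a (l 16773688) (l 16801120)) (b (l 16773824) (l 16744536))) (a (a (b (l 16790304) (l 16802696)) (a (b (l 16788392) (l 16800464)) (b (l 16785416) (l 16797840)))) (a (a (b (l 16787688) (l 16792920)) (b (l 268670495223) (l 16788032))) (a (b (l 4) (a (l 16772544) (l 350274789639))) (l 4)))))) (a (a (a (a (b (l 1) (a (b (l 1) (c (l 16570608) (l 16549568))) (b (a (l 16577792) (l 16608024)) (a (l 16583400) (b (l 16611584) (l 16615640)))))) (b (l 16618168) (b (l 16624880) (l 16636408)))) (a (b (l 16638288) (a (l 16658608) (l 16683392))) (b (l 16671176) (b (l 16700592) (l 16704320))))) (a (a (b (l 16710912) (a (a (l 16736048) (l 16746928)) (l 16761832))) (b (l 16751952) (l 16788224))) (b (b (l 16788920) (l 16802472)) (a (l 16817040) (l 16902112)))))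 (a (a (b (a (l 16821696) (l 16827544)) (a (l 16851864) (l 16856144))) (b (a (l 16828064) (l 16825904)) (a (l 16857520) (l 16855784)))) (a (b (a (l 16822864) (l 16816592)) (a (l 16806920) (l 16836392))) (a (b (a (l 16844384) (l 16901264)) (b (l 16814184) (l 16820768))) (a (a (b (l 16790736) (l 16800120)) (b (l 16883144) (b (l 16791680) (l 16793400)))) (b (a (l 333094981511) (l 4)) (b (a (l 16842208) (a (l 16769520) (l 4))) (a (l 16849144) (a (l 16776880) (a (l 16771288) (l 4)))))))))))), by decide +kernel⟩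

theorem s2_pm_123_a : ∃ t, chk3 f_pm_123_a t 1 1 1 = true := ex3_b k0_pm_123_a k1_pm_123_a

theorem c_pm_123_a : CertB 536870912 536870912 0 536870912 587336777 62277027 3 eng mog cd1q1 cd3q2a pd3 true true false .npn 1 2 3
    ndB1q1 ndB3q2a pcB3 Cut.none Ext.none :=
  certB2 (fam := true) (s1 := true) (s2 := false) (a := 1) (b := 2) (c := 3) (cn := .npn) (n1 := ndB1q1) (n2 := ndB3q2a) (pc := pcB3) (cut := Cut.none) (xt := Ext.none) (P1 := 536870912) (W1 := 536870912) (P2 := 0) (W2 := 536870912) (P3 := 587336777) (W3 := 62277027) (N0 := 3) (En := eng) (mo := mog) (C1 := cd1q1) (C2 := cd3q2a) (C3 := pd3)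
    rfl (fun _ => rfl) s2_pm_123_a

noncomputable def f_pm_123_b : ℕ → ℕ → ℕ → ℕ → Bool := onCell 1610612736 536870912 1239849684 370763052 587336777 62277027
    (rowB 3 eng mog cd1q1 cd3q2b pd3 2 true true false .npn 1 2 3 (qsf 536870912 536870912 1239849684 370763052 3) ndB1q1 ndB3q2b pcB3 Cut.none Ext.none)

def k0_pm_123_b : ∃ t, chk3 f_pm_123_b t 1 1 1 = true :=
  ⟨(b (a (a (l 1) (a (b (a (l 16695400) (l 16715808)) (l 1)) (b (l 16735248) (l 16725496)))) (a (a (b (a (l 16751680) (l 16761048)) (l 16761064)) (b (a (l 16773120) (a (l 16764056) (l 4))) (a (l 16762120) (l 4)))) (l 4))) (a (l 1) (a (a (l 1) (l 4)) (l 4)))), by decide +kernel⟩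

theorem c_pm_123_b : CertB 536870912 536870912 1239849684 370763052 587336777 62277027 3 eng mog cd1q1 cd3q2b pd3 true true false .npn 1 2 3
    ndB1q1 ndB3q2b pcB3 Cut.none Ext.none :=
  certB2 (fam := true) (s1 := true) (s2 := false) (a := 1) (b := 2) (c := 3) (cn := .npn) (n1 := ndB1q1) (n2 := ndB3q2b) (pc := pcB3) (cut := Cut.none) (xt := Ext.none) (P1 := 536870912) (W1 := 536870912) (P2 := 1239849684) (W2 := 370763052) (P3 := 587336777) (W3 := 62277027) (N0 := 3) (En := eng) (mo := mog) (C1 := cd1q1) (C2 := cd3q2b) (C3 := pd3)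
    rfl (fun _ => rfl) k0_pm_123_b

noncomputable def f_pm_133 : ℕ → ℕ → ℕ → ℕ → Bool := onCell 536870912 536870912 1610612736 536870912 587336777 62277027
    (rowB 3 eng mog cd1q1 cd3q3 pd3 0 true true false .dn 1 3 3 (qsf 536870912 536870912 1610612736 536870912 3) ndB1q1 ndB3q3 pcB3 Cut.none Ext.none)

def k0_pm_133 : ∃ t, chk3 f_pm_133 t 1 1 1 = true :=
  ⟨(l 4), by decide +kernel⟩

theorem c_pm_133 : CertB 536870912 536870912 1610612736 536870912 587336777 62277027 3 eng mog cd1q1 cd3q3 pd3 true true false .dn 1 3 3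
    ndB1q1 ndB3q3 pcB3 Cut.none Ext.none :=
  certB0 (fam := true) (s1 := true) (s2 := false) (a := 1) (b := 3) (c := 3) (cn := .dn) (n1 := ndB1q1) (n2 := ndB3q3) (pc := pcB3) (cut := Cut.none) (xt := Ext.none) (P1 := 536870912) (W1 := 536870912) (P2 := 1610612736) (W2 := 536870912) (P3 := 587336777) (W3 := 62277027) (N0 := 3) (En := eng) (mo := mog) (C1 := cd1q1) (C2 := cd3q3) (C3 := pd3)
    rfl k0_pm_133

noncomputable def cut_pm_202_a : Cut := Cut.of [[⟨0, 1, 0, 67108864⟩, ⟨1, 0, 0, 67108864⟩, ⟨2, 1, 0, 67108864⟩]]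

noncomputable def f_pm_202_a : ℕ → ℕ → ℕ → ℕ → Bool := onCell 0 536870912 1073741824 536870912 587336777 62277027
    (rowB 3 eng mog cd1q2a cd3q0 pd2 1 true true false .pp 2 0 2 (qsf 0 536870912 0 536870912 2) ndB1q2a ndB3q0 pcB2 cut_pm_202_a Ext.none)

def k0_pm_202_a : ∃ t, chk3 f_pm_202_a t 2 1 1 = true :=
  ⟨(b (a (b (l 1) (b (b (b (l 1) (a (b (l 1) (l 273837061319)) (a (b (l 1) (l 16460520)) (l 157336116535)))) (a (b (l 16509384) (l 16460064)) (b (c (l 16466984) (b (l 16463224) (l 16465200))) (l 16468368)))) (b (a (l 16465440) (l 16472272)) (a (l 16475328) (l 16477272))))) (b (b (l 1) (b (l 1) (a (l 1) (b (l 1) (a (l 1) (b (l 1) (a (l 224981930567) (c (l 16524464) (l 297459507511))))))))) (b (b (b (b (a (l 1) (a (a (l 175052916375) (l 294238274279)) (a (l 16511536) (l 16519912)))) (a (a (l 16474408) (l 209949504567)) (a (a (l 16496880) (l 16504312)) (l 16516088)))) (a (b (a (l 16476024) (l 16487784)) (a (l 16477280) (c (l 16490704) (l 16485080))))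 (b (a (c (l 16503888) (l 16497256)) (c (l 16517816) (l 16512768))) (a (c (l 16502960) (l 16498512)) (b (l 16515560) (b (l 16515256) (l 16515016))))))) (b (a (c (l 16547528) (a (l 16471056) (l 16487152))) (a (l 16542904) (l 16513768))) (a (l 16484688) (l 16506480)))) (a (b (l 16507416) (l 16488648)) (b (l 16505272) (l 16505008)))))) (b (b (a (b (a (l 16488144) (l 16485640)) (l 16538192)) (a (b (l 16493456) (l 16508952)) (b (l 16509736) (l 16522488)))) (a (b (a (l 16536920) (l 16528072)) (a (l 16556520) (l 16545408))) (a (b (l 16529968) (l 16544008)) (b (l 16539032) (l 16549680))))) (b (a (b (a (l 16572552) (l 16561856)) (l 16631616)) (a (l 16563888) (l 16565136))) (a (b (l 16604504) (l 16632568)) (a (l 16598664) (l 16592000)))))), by decide +kernel⟩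

def k1_pm_202_a : ∃ t, chk3 f_pm_202_a t 3 4 1 = true :=
  ⟨(b (a (l 1) (b (a (l 1) (l 6)) (b (a (a (l 1) (l 6)) (l 6)) (b (a (a (l 1) (l 6)) (l 6)) (a (a (a (l 1) (a (l 233035271415) (l 289406735479))) (b (l 6) (a (l 16657936) (l 16671128)))) (a (a (l 16684048) (l 16690472)) (l 16709424))))))) (a (b (a (l 1) (b (a (l 1) (b (l 1) (a (l 189548631671) (b (l 241088257463) (l 278132352999))))) (a (b (a (l 1) (l 230887663255)) (a (b (l 1) (l 237866943639)) (b (l 300680870071) (l 16583880)))) (a (b (a (l 264173674231) (l 275984848103)) (l 16596288)) (b (l 16610624) (l 16566152)))))) (b (a (a (b (l 1) (a (l 1) (c (l 209949606471) (l 194917203799)))) (b (a (l 1) (c (l 259878648551) (l 245383104951))) (a (c (l 292090879351) (l 278669080743)) (c (l 16563528) (l 16554256))))) (a (b (a (b (l 309270777751) (l 16571008)) (l 16582704)) (a (l 16570048) (l 16538912))) (a (b (l 16531192) (l 16591600)) (l 16603760)))) (a (a (c (b (l 249678053847) (l 16537520)) (b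 (a (l 241624946887) (l 305512608679)) (a (l 16523064) (l 16533040)))) (b (a (l 16548160) (l 16558328)) (a (l 16547440) (l 16557032)))) (a (a (b (l 16526560) (l 16566616)) (l 16577472)) (l 16591672))))) (a (b (a (a (b (b (b (l 229814003495) (l 286722323015)) (l 354368066839)) (c (l 16623232) (l 16556152))) (b (b (a (l 16638784) (l 16645480)) (a (l 16635616) (l 16641968))) (l 16633320))) (b (a (b (b (l 16656080) (l 16654160)) (l 16651168)) (l 16664808)) (l 16645880))) (a (b (l 16617880) (l 16605800)) (b (l 16631728) (l 16618952)))) (b (a (b (a (l 16671424) (l 16677664)) (a (l 16655568) (l 16661552))) (a (b (l 16683328) (l 16666984)) (l 16749256))) (a (b (l 16643968) (l 16630592)) (b (l 16654256) (l 16640424))))))), by decide +kernel⟩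

def k2_pm_202_a : ∃ t, chk3 f_pm_202_a t 3 5 1 = true :=
  ⟨(b (a (b (b (a (a (c (b (l 16536248) (l 16534552)) (b (l 16528808) (l 16529160))) (b (a (l 16546368) (l 16555368)) (l 16549232))) (a (l 16567408) (l 16581872))) (a (b (a (l 16531392) (l 16547048)) (a (a (l 16620488) (l 16554392)) (l 16628288))) (b (l 16569200) (b (l 16566536) (l 16591128))))) (a (b (l 16555824) (l 16532168)) (b (l 16561160) (l 16556200)))) (b (b (a (a (l 16595160) (l 16607568)) (a (l 16618592) (l 16627928))) (b (a (l 16594576) (l 16678400)) (b (a (l 16591216) (l 16611656)) (a (a (l 16582952) (l 16594288)) (a (l 16604400) (l 16613056)))))) (a (a (l 16574824) (l 16585336)) (a (l 16594864) (l 16602968))))) (a (a (b (l 16528760) (l 16526328)) (a (b (l 16544432) (l 16541096)) (l 16635912))) (a (b (l 16569440) (l 16562744)) (b (l 16585704) (l 16576032))))), by decide +kernel⟩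

def k3_pm_202_a : ∃ t, chk3 f_pm_202_a t 3 3 1 = true :=
  ⟨(b (a (b (a (l 16512776) (b (l 16547600) (l 16552152))) (a (b (l 16550296) (l 16557472)) (b (l 16559784) (l 16564152)))) (b (a (l 16560504) (b (l 16570720) (l 16569792))) (a (b (l 16567776) (l 16569800)) (l 16614864)))) (a (b (a (l 16568320) (l 16570464)) (a (l 16588904) (l 16585216))) (b (a (l 16571616) (l 16577752)) (a (l 16582760) (l 16585800))))), by decide +kernel⟩

theorem s4_pm_202_a : ∃ t, chk3 f_pm_202_a t 3 2 1 = true := ex3_b k1_pm_202_a k2_pm_202_a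

theorem s5_pm_202_a : ∃ t, chk3 f_pm_202_a t 3 1 1 = true := ex3_b s4_pm_202_a k3_pm_202_a

theorem s6_pm_202_a : ∃ t, chk3 f_pm_202_a t 1 1 1 = true := ex3_a k0_pm_202_a s5_pm_202_a

theorem c_pm_202_a : CertB 0 536870912 0 536870912 587336777 62277027 3 eng mog cd1q2a cd3q0 pd2 true true false .pp 2 0 2
    ndB1q2a ndB3q0 pcB2 cut_pm_202_a Ext.none :=
  certB1 (fam := true) (s1 := true) (s2 := false) (a := 2) (b := 0) (c := 2) (cn := .pp) (n1 := ndB1q2a) (n2 := ndB3q0) (pc := pcB2) (cut := cut_pm_202_a) (xt := Ext.none) (P1 := 0) (W1 := 536870912) (P2 := 0) (W2 := 536870912) (P3 := 587336777) (W3 := 62277027) (N0 := 3) (En := eng) (mo := mog) (C1 := cd1q2a) (C2 := cd3q0) (C3 := pd2)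
    rfl (fun _ => rfl) s6_pm_202_a

noncomputable def cut_pm_202_b : Cut := Cut.of [[⟨0, 1, 0, 67108864⟩, ⟨1, 0, 0, 67108864⟩, ⟨2, 1, 0, 67108864⟩]]

noncomputable def f_pm_202_b : ℕ → ℕ → ℕ → ℕ → Bool := onCell 1073741824 536870912 0 536870912 587336777 62277027
    (rowB 3 eng mog cd1q2b cd3q0 pd2 2 true true false .pp 2 0 2 (qsf 1239849684 370763052 0 536870912 2) ndB1q2b ndB3q0 pcB2 cut_pm_202_b Ext.none)

def k0_pm_202_b : ∃ t, chk3 f_pm_202_b t 1 1 1 = true :=
  ⟨(a (b (a (l 1) (b (a (b (b (a (a (l 1) (l 197064537703)) (b (l 16519880) (l 16534512))) (a (l 1) (a (l 1) (l 16489440)))) (l 1)) (b (b (b (l 16517288) (l 16404656)) (a (l 16462440) (l 16406944))) (a (b (l 113849934231) (l 1)) (b (l 16474096) (l 143377818247))))) (l 1))) (l 1)) (a (b (b (a (b (b (l 16291216) (l 16334256)) (b (l 16395552) (l 16498256))) (b (a (b (l 16211704) (l 16272912)) (l 16223376)) (a (l 16361128) (l 16337656)))) (a (b (b (a (l 233035208871) (l 16510136)) (l 330745714439))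 (l 1)) (b (a (b (l 16446416) (l 293701365831)) (l 16484888)) (a (b (l 298533424455) (l 1)) (l 299607046023))))) (l 1)) (b (b (a (b (a (l 16215040) (l 16216888)) (l 16322704)) (b (l 16230000) (l 16321592))) (a (b (l 16426056) (a (l 16572896) (l 16507056))) (b (l 16414024) (l 16499360)))) (b (a (b (a (l 420940106871) (l 300680898743)) (l 1)) (b (a (l 16577232) (l 16556760)) (a (l 370474403767) (l 339335665527)))) (l 1))))), by decide +kernel⟩

theorem c_pm_202_b : CertB 1239849684 370763052 0 536870912 587336777 62277027 3 eng mog cd1q2b cd3q0 pd2 true true false .pp 2 0 2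
    ndB1q2b ndB3q0 pcB2 cut_pm_202_b Ext.none :=
  certB2 (fam := true) (s1 := true) (s2 := false) (a := 2) (b := 0) (c := 2) (cn := .pp) (n1 := ndB1q2b) (n2 := ndB3q0) (pc := pcB2) (cut := cut_pm_202_b) (xt := Ext.none) (P1 := 1239849684) (W1 := 370763052) (P2 := 0) (W2 := 536870912) (P3 := 587336777) (W3 := 62277027) (N0 := 3) (En := eng) (mo := mog) (C1 := cd1q2b) (C2 := cd3q0) (C3 := pd2)
    rfl (fun _ => rfl) k0_pm_202_b

noncomputable def f_pm_203_a : ℕ → ℕ → ℕ → ℕ → Bool := onCell 0 536870912 1610612736 536870912 587336777 62277027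
    (rowB 3 eng mog cd1q2a cd3q0 pd3 1 true true false .up 2 0 3 (qsf 0 536870912 0 536870912 3) ndB1q2a ndB3q0 pcB3 Cut.none Ext.none)

def k0_pm_203_a : ∃ t, chk3 f_pm_203_a t 1 1 1 = true :=
  ⟨(b (b (b (a (a (b (l 16667880) (l 16713688)) (b (a (l 16635544) (l 16629488)) (l 16685792))) (a (b (a (l 16623128) (l 16618456)) (l 16688120)) (b (b (l 16656288) (l 16670176)) (l 16721440)))) (a (a (b (l 16751472) (l 16781264)) (b (l 16728952) (l 16769648))) (a (l 16774416) (l 235786878455)))) (a (b (a (l 16800968) (l 16900128)) (l 2)) (a (l 2) (l 2)))) (l 2)), by decide +kernel⟩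

theorem c_pm_203_a : CertB 0 536870912 0 536870912 587336777 62277027 3 eng mog cd1q2a cd3q0 pd3 true true false .up 2 0 3
    ndB1q2a ndB3q0 pcB3 Cut.none Ext.none :=
  certB1 (fam := true) (s1 := true) (s2 := false) (a := 2) (b := 0) (c := 3) (cn := .up) (n1 := ndB1q2a) (n2 := ndB3q0) (pc := pcB3) (cut := Cut.none) (xt := Ext.none) (P1 := 0) (W1 := 536870912) (P2 := 0) (W2 := 536870912) (P3 := 587336777) (W3 := 62277027) (N0 := 3) (En := eng) (mo := mog) (C1 := cd1q2a) (C2 := cd3q0) (C3 := pd3)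
    rfl (fun _ => rfl) k0_pm_203_a

noncomputable def f_pm_203_b : ℕ → ℕ → ℕ → ℕ → Bool := onCell 1239849684 370763052 1610612736 536870912 587336777 62277027
    (rowB 3 eng mog cd1q2b cd3q0 pd3 1 true true false .up 2 0 3 (qsf 1239849684 370763052 0 536870912 3) ndB1q2b ndB3q0 pcB3 Cut.none Ext.none)

def k0_pm_203_b : ∃ t, chk3 f_pm_203_b t 1 1 1 = true :=
  ⟨(b (b (a (b (a (b (l 16569360) (l 16624512)) (l 16516312)) (b (a (l 16671880) (l 16555808)) (l 4))) (b (a (l 16409760) (l 16295888)) (b (l 16412224) (l 16459416)))) (l 4)) (l 4)), by decide +kernel⟩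

theorem c_pm_203_b : CertB 1239849684 370763052 0 536870912 587336777 62277027 3 eng mog cd1q2b cd3q0 pd3 true true false .up 2 0 3
    ndB1q2b ndB3q0 pcB3 Cut.none Ext.none :=
  certB1 (fam := true) (s1 := true) (s2 := false) (a := 2) (b := 0) (c := 3) (cn := .up) (n1 := ndB1q2b) (n2 := ndB3q0) (pc := pcB3) (cut := Cut.none) (xt := Ext.none) (P1 := 1239849684) (W1 := 370763052) (P2 := 0) (W2 := 536870912) (P3 := 587336777) (W3 := 62277027) (N0 := 3) (En := eng) (mo := mog) (C1 := cd1q2b) (C2 := cd3q0) (C3 := pd3)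
    rfl (fun _ => rfl) k0_pm_203_b

noncomputable def f_pm_213_a : ℕ → ℕ → ℕ → ℕ → Bool := onCell 0 536870912 1610612736 536870912 587336777 62277027
    (rowB 3 eng mog cd1q2a cd3q1 pd3 1 true true false .pnn 2 1 3 (qsf 0 536870912 536870912 536870912 3) ndB1q2a ndB3q1 pcB3 Cut.none Ext.none)

def k0_pm_213_a : ∃ t, chk3 f_pm_213_a t 1 1 1 = true :=
  ⟨(a (b (b (b (l 1) (a (l 1) (l 548179376663))) (b (b (l 248605276887) (l 16923072)) (l 55532960567))) (b (b (l 116736240215) (l 4)) (l 4))) (a (b (b (b (l 1) (l 16884168)) (b (l 16935856) (l 16859672))) (b (b (l 16944672) (b (l 16757496) (l 16796288))) (l 4))) (b (b (b (b (a (l 1) (l 16787912)) (l 16887504)) (l 16998824)) (b (a (l 17056856) (l 17072920)) (l 17146328))) (b (b (b (l 16934824) (l 16896312)) (b (l 16859728) (l 16825112))) (b (b (l 16793784) (l 16808744)) (l 4)))))), by decide +kernel⟩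

theorem c_pm_213_a : CertB 0 536870912 536870912 536870912 587336777 62277027 3 eng mog cd1q2a cd3q1 pd3 true true false .pnn 2 1 3
    ndB1q2a ndB3q1 pcB3 Cut.none Ext.none :=
  certB1 (fam := true) (s1 := true) (s2 := false) (a := 2) (b := 1) (c := 3) (cn := .pnn) (n1 := ndB1q2a) (n2 := ndB3q1) (pc := pcB3) (cut := Cut.none) (xt := Ext.none) (P1 := 0) (W1 := 536870912) (P2 := 536870912) (W2 := 536870912) (P3 := 587336777) (W3 := 62277027) (N0 := 3) (En := eng) (mo := mog) (C1 := cd1q2a) (C2 := cd3q1) (C3 := pd3)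
    rfl (fun _ => rfl) k0_pm_213_a

noncomputable def f_pm_213_b : ℕ → ℕ → ℕ → ℕ → Bool := onCell 1239849684 370763052 536870912 536870912 587336777 62277027
    (rowB 3 eng mog cd1q2b cd3q1 pd3 0 true true false .pnn 2 1 3 (qsf 1239849684 370763052 536870912 536870912 3) ndB1q2b ndB3q1 pcB3 Cut.none Ext.none)

def k0_pm_213_b : ∃ t, chk3 f_pm_213_b t 1 1 1 = true :=
  ⟨(b (l 4) (l 4)), by decide +kernel⟩

theorem c_pm_213_b : CertB 1239849684 370763052 536870912 536870912 587336777 62277027 3 eng mog cd1q2b cd3q1 pd3 true true false .pnn 2 1 3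
    ndB1q2b ndB3q1 pcB3 Cut.none Ext.none :=
  certB0 (fam := true) (s1 := true) (s2 := false) (a := 2) (b := 1) (c := 3) (cn := .pnn) (n1 := ndB1q2b) (n2 := ndB3q1) (pc := pcB3) (cut := Cut.none) (xt := Ext.none) (P1 := 1239849684) (W1 := 370763052) (P2 := 536870912) (W2 := 536870912) (P3 := 587336777) (W3 := 62277027) (N0 := 3) (En := eng) (mo := mog) (C1 := cd1q2b) (C2 := cd3q1) (C3 := pd3)
    rfl k0_pm_213_b

noncomputable def f_pm_303 : ℕ → ℕ → ℕ → ℕ → Bool := onCell 1610612736 536870912 0 536870912 587336777 62277027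
    (rowB 3 eng mog cd1q3 cd3q0 pd3 2 true true false .npn 3 0 3 (qsf 1610612736 536870912 0 536870912 3) ndB1q3 ndB3q0 pcB3 Cut.none Ext.none)

def k0_pm_303 : ∃ t, chk3 f_pm_303 t 1 1 1 = true :=
  ⟨(a (a (b (a (b (l 16435576) (l 1)) (b (a (l 16260280) (l 16295216)) (l 16478288))) (l 1)) (b (a (b (a (l 16359936) (l 4)) (l 4)) (l 4)) (l 4))) (l 4)), by decide +kernel⟩

theorem c_pm_303 : CertB 1610612736 536870912 0 536870912 587336777 62277027 3 eng mog cd1q3 cd3q0 pd3 true true false .npn 3 0 3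
    ndB1q3 ndB3q0 pcB3 Cut.none Ext.none :=
  certB2 (fam := true) (s1 := true) (s2 := false) (a := 3) (b := 0) (c := 3) (cn := .npn) (n1 := ndB1q3) (n2 := ndB3q0) (pc := pcB3) (cut := Cut.none) (xt := Ext.none) (P1 := 1610612736) (W1 := 536870912) (P2 := 0) (W2 := 536870912) (P3 := 587336777) (W3 := 62277027) (N0 := 3) (En := eng) (mo := mog) (C1 := cd1q3) (C2 := cd3q0) (C3 := pd3)
    rfl (fun _ => rfl) k0_pm_303

noncomputable def f_pm_313 : ℕ → ℕ → ℕ → ℕ → Bool := onCell 1610612736 536870912 536870912 536870912 587336777 62277027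
    (rowB 3 eng mog cd1q3 cd3q1 pd3 0 true true false .dn 3 1 3 (qsf 1610612736 536870912 536870912 536870912 3) ndB1q3 ndB3q1 pcB3 Cut.none Ext.none)

def k0_pm_313 : ∃ t, chk3 f_pm_313 t 1 1 1 = true :=
  ⟨(l 4), by decide +kernel⟩

theorem c_pm_313 : CertB 1610612736 536870912 536870912 536870912 587336777 62277027 3 eng mog cd1q3 cd3q1 pd3 true true false .dn 3 1 3
    ndB1q3 ndB3q1 pcB3 Cut.none Ext.none :=
  certB0 (fam := true) (s1 := true) (s2 := false) (a := 3) (b := 1) (c := 3) (cn := .dn) (n1 := ndB1q3) (n2 := ndB3q1) (pc := pcB3) (cut := Cut.none) (xt := Ext.none) (P1 := 1610612736) (W1 := 536870912) (P2 := 536870912) (W2 := 536870912) (P3 := 587336777) (W3 := 62277027) (N0 := 3) (En := eng) (mo := mog) (C1 := cd1q3) (C2 := cd3q1) (C3 := pd3)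
    rfl k0_pm_313

noncomputable def f_mm_001 : ℕ → ℕ → ℕ → ℕ → Bool := onCell 0 536870912 0 536870912 587336777 62277027
    (rowB 3 eng mog cd1q0 cd3q0 pd1 0 true false false .up 0 0 1 (qsf 0 536870912 0 536870912 1) ndB1q0 ndB3q0 pcB1 Cut.none Ext.none)

def k0_mm_001 : ∃ t, chk3 f_mm_001 t 1 1 1 = true :=
  ⟨(l 4), by decide +kernel⟩

theorem c_mm_001 : CertB 0 536870912 0 536870912 587336777 62277027 3 eng mog cd1q0 cd3q0 pd1 true false false .up 0 0 1
    ndB1q0 ndB3q0 pcB1 Cut.none Ext.none :=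
  certB0 (fam := true) (s1 := false) (s2 := false) (a := 0) (b := 0) (c := 1) (cn := .up) (n1 := ndB1q0) (n2 := ndB3q0) (pc := pcB1) (cut := Cut.none) (xt := Ext.none) (P1 := 0) (W1 := 536870912) (P2 := 0) (W2 := 536870912) (P3 := 587336777) (W3 := 62277027) (N0 := 3) (En := eng) (mo := mog) (C1 := cd1q0) (C2 := cd3q0) (C3 := pd1)
    rfl k0_mm_001

noncomputable def f_mm_011 : ℕ → ℕ → ℕ → ℕ → Bool := onCell 0 536870912 536870912 536870912 587336777 62277027
    (rowB 3 eng mog cd1q0 cd3q1 pd1 0 true false false .pnn 0 1 1 (qsf 0 536870912 536870912 536870912 1) ndB1q0 ndB3q1 pcB1 Cut.none Ext.none)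

def k0_mm_011 : ∃ t, chk3 f_mm_011 t 1 1 1 = true :=
  ⟨(l 4), by decide +kernel⟩

theorem c_mm_011 : CertB 0 536870912 536870912 536870912 587336777 62277027 3 eng mog cd1q0 cd3q1 pd1 true false false .pnn 0 1 1
    ndB1q0 ndB3q1 pcB1 Cut.none Ext.none :=
  certB0 (fam := true) (s1 := false) (s2 := false) (a := 0) (b := 1) (c := 1) (cn := .pnn) (n1 := ndB1q0) (n2 := ndB3q1) (pc := pcB1) (cut := Cut.none) (xt := Ext.none) (P1 := 0) (W1 := 536870912) (P2 := 536870912) (W2 := 536870912) (P3 := 587336777) (W3 := 62277027) (N0 := 3) (En := eng) (mo := mog) (C1 := cd1q0) (C2 := cd3q1) (C3 := pd1)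
    rfl k0_mm_011

noncomputable def f_mm_012 : ℕ → ℕ → ℕ → ℕ → Bool := onCell 0 536870912 536870912 536870912 587336777 62277027
    (rowB 3 eng mog cd1q0 cd3q1 pd2 0 true false false .pnp 0 1 2 (qsf 0 536870912 536870912 536870912 2) ndB1q0 ndB3q1 pcB2 Cut.none Ext.none)

def k0_mm_012 : ∃ t, chk3 f_mm_012 t 1 1 1 = true :=
  ⟨(l 4), by decide +kernel⟩

theorem c_mm_012 : CertB 0 536870912 536870912 536870912 587336777 62277027 3 eng mog cd1q0 cd3q1 pd2 true false false .pnp 0 1 2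
    ndB1q0 ndB3q1 pcB2 Cut.none Ext.none :=
  certB0 (fam := true) (s1 := false) (s2 := false) (a := 0) (b := 1) (c := 2) (cn := .pnp) (n1 := ndB1q0) (n2 := ndB3q1) (pc := pcB2) (cut := Cut.none) (xt := Ext.none) (P1 := 0) (W1 := 536870912) (P2 := 536870912) (W2 := 536870912) (P3 := 587336777) (W3 := 62277027) (N0 := 3) (En := eng) (mo := mog) (C1 := cd1q0) (C2 := cd3q1) (C3 := pd2)
    rfl k0_mm_012

noncomputable def f_mm_022_a : ℕ → ℕ → ℕ → ℕ → Bool := onCell 0 536870912 0 536870912 587336777 62277027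
    (rowB 3 eng mog cd1q0 cd3q2a pd2 0 true false false .pp 0 2 2 (qsf 0 536870912 0 536870912 2) ndB1q0 ndB3q2a pcB2 Cut.none Ext.none)

def k0_mm_022_a : ∃ t, chk3 f_mm_022_a t 1 1 1 = true :=
  ⟨(l 5), by decide +kernel⟩

theorem c_mm_022_a : CertB 0 536870912 0 536870912 587336777 62277027 3 eng mog cd1q0 cd3q2a pd2 true false false .pp 0 2 2
    ndB1q0 ndB3q2a pcB2 Cut.none Ext.none :=
  certB0 (fam := true) (s1 := false) (s2 := false) (a := 0) (b := 2) (c := 2) (cn := .pp) (n1 := ndB1q0) (n2 := ndB3q2a) (pc := pcB2) (cut := Cut.none) (xt := Ext.none) (P1 := 0) (W1 := 536870912) (P2 := 0) (W2 := 536870912) (P3 := 587336777) (W3 := 62277027) (N0 := 3) (En := eng) (mo := mog) (C1 := cd1q0) (C2 := cd3q2a) (C3 := pd2)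
    rfl k0_mm_022_a

noncomputable def f_mm_022_b : ℕ → ℕ → ℕ → ℕ → Bool := onCell 0 536870912 1239849684 370763052 587336777 62277027
    (rowB 3 eng mog cd1q0 cd3q2b pd2 0 true false false .pp 0 2 2 (qsf 0 536870912 1239849684 370763052 2) ndB1q0 ndB3q2b pcB2 Cut.none Ext.none)

def k0_mm_022_b : ∃ t, chk3 f_mm_022_b t 1 1 1 = true :=
  ⟨(l 5), by decide +kernel⟩

theorem c_mm_022_b : CertB 0 536870912 1239849684 370763052 587336777 62277027 3 eng mog cd1q0 cd3q2b pd2 true false false .pp 0 2 2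
    ndB1q0 ndB3q2b pcB2 Cut.none Ext.none :=
  certB0 (fam := true) (s1 := false) (s2 := false) (a := 0) (b := 2) (c := 2) (cn := .pp) (n1 := ndB1q0) (n2 := ndB3q2b) (pc := pcB2) (cut := Cut.none) (xt := Ext.none) (P1 := 0) (W1 := 536870912) (P2 := 1239849684) (W2 := 370763052) (P3 := 587336777) (W3 := 62277027) (N0 := 3) (En := eng) (mo := mog) (C1 := cd1q0) (C2 := cd3q2b) (C3 := pd2)
    rfl k0_mm_022_b

noncomputable def f_mm_023_a : ℕ → ℕ → ℕ → ℕ → Bool := onCell 0 536870912 0 536870912 587336777 62277027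
    (rowB 3 eng mog cd1q0 cd3q2a pd3 0 true false false .up 0 2 3 (qsf 0 536870912 0 536870912 3) ndB1q0 ndB3q2a pcB3 Cut.none Ext.none)

def k0_mm_023_a : ∃ t, chk3 f_mm_023_a t 1 1 1 = true :=
  ⟨(l 5), by decide +kernel⟩

theorem c_mm_023_a : CertB 0 536870912 0 536870912 587336777 62277027 3 eng mog cd1q0 cd3q2a pd3 true false false .up 0 2 3
    ndB1q0 ndB3q2a pcB3 Cut.none Ext.none :=
  certB0 (fam := true) (s1 := false) (s2 := false) (a := 0) (b := 2) (c := 3) (cn := .up) (n1 := ndB1q0) (n2 := ndB3q2a) (pc := pcB3) (cut := Cut.none) (xt := Ext.none) (P1 := 0) (W1 := 536870912) (P2 := 0) (W2 := 536870912) (P3 := 587336777) (W3 := 62277027) (N0 := 3) (En := eng) (mo := mog) (C1 := cd1q0) (C2 := cd3q2a) (C3 := pd3)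
    rfl k0_mm_023_a

noncomputable def f_mm_023_b : ℕ → ℕ → ℕ → ℕ → Bool := onCell 0 536870912 1239849684 370763052 587336777 62277027
    (rowB 3 eng mog cd1q0 cd3q2b pd3 0 true false false .up 0 2 3 (qsf 0 536870912 1239849684 370763052 3) ndB1q0 ndB3q2b pcB3 Cut.none Ext.none)

def k0_mm_023_b : ∃ t, chk3 f_mm_023_b t 1 1 1 = true :=
  ⟨(l 5), by decide +kernel⟩

theorem c_mm_023_b : CertB 0 536870912 1239849684 370763052 587336777 62277027 3 eng mog cd1q0 cd3q2b pd3 true false false .up 0 2 3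
    ndB1q0 ndB3q2b pcB3 Cut.none Ext.none :=
  certB0 (fam := true) (s1 := false) (s2 := false) (a := 0) (b := 2) (c := 3) (cn := .up) (n1 := ndB1q0) (n2 := ndB3q2b) (pc := pcB3) (cut := Cut.none) (xt := Ext.none) (P1 := 0) (W1 := 536870912) (P2 := 1239849684) (W2 := 370763052) (P3 := 587336777) (W3 := 62277027) (N0 := 3) (En := eng) (mo := mog) (C1 := cd1q0) (C2 := cd3q2b) (C3 := pd3)
    rfl k0_mm_023_b

noncomputable def f_mm_033 : ℕ → ℕ → ℕ → ℕ → Bool := onCell 0 536870912 1610612736 536870912 587336777 62277027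
    (rowB 3 eng mog cd1q0 cd3q3 pd3 0 true false false .pnn 0 3 3 (qsf 0 536870912 1610612736 536870912 3) ndB1q0 ndB3q3 pcB3 Cut.none Ext.none)

def k0_mm_033 : ∃ t, chk3 f_mm_033 t 1 1 1 = true :=
  ⟨(l 5), by decide +kernel⟩

theorem c_mm_033 : CertB 0 536870912 1610612736 536870912 587336777 62277027 3 eng mog cd1q0 cd3q3 pd3 true false false .pnn 0 3 3
    ndB1q0 ndB3q3 pcB3 Cut.none Ext.none :=
  certB0 (fam := true) (s1 := false) (s2 := false) (a := 0) (b := 3) (c := 3) (cn := .pnn) (n1 := ndB1q0) (n2 := ndB3q3) (pc := pcB3) (cut := Cut.none) (xt := Ext.none) (P1 := 0) (W1 := 536870912) (P2 := 1610612736) (W2 := 536870912) (P3 := 587336777) (W3 := 62277027) (N0 := 3) (En := eng) (mo := mog) (C1 := cd1q0) (C2 := cd3q3) (C3 := pd3)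
    rfl k0_mm_033

noncomputable def f_mm_101 : ℕ → ℕ → ℕ → ℕ → Bool := onCell 536870912 536870912 0 536870912 587336777 62277027
    (rowB 3 eng mog cd1q1 cd3q0 pd1 0 true false false .npn 1 0 1 (qsf 536870912 536870912 0 536870912 1) ndB1q1 ndB3q0 pcB1 Cut.none Ext.none)

def k0_mm_101 : ∃ t, chk3 f_mm_101 t 1 1 1 = true :=
  ⟨(l 4), by decide +kernel⟩

theorem c_mm_101 : CertB 536870912 536870912 0 536870912 587336777 62277027 3 eng mog cd1q1 cd3q0 pd1 true false false .npn 1 0 1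
    ndB1q1 ndB3q0 pcB1 Cut.none Ext.none :=
  certB0 (fam := true) (s1 := false) (s2 := false) (a := 1) (b := 0) (c := 1) (cn := .npn) (n1 := ndB1q1) (n2 := ndB3q0) (pc := pcB1) (cut := Cut.none) (xt := Ext.none) (P1 := 536870912) (W1 := 536870912) (P2 := 0) (W2 := 536870912) (P3 := 587336777) (W3 := 62277027) (N0 := 3) (En := eng) (mo := mog) (C1 := cd1q1) (C2 := cd3q0) (C3 := pd1)
    rfl k0_mm_101

noncomputable def f_mm_102 : ℕ → ℕ → ℕ → ℕ → Bool := onCell 536870912 536870912 0 536870912 587336777 62277027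
    (rowB 3 eng mog cd1q1 cd3q0 pd2 0 true false false .npp 1 0 2 (qsf 536870912 536870912 0 536870912 2) ndB1q1 ndB3q0 pcB2 Cut.none Ext.none)

def k0_mm_102 : ∃ t, chk3 f_mm_102 t 1 1 1 = true :=
  ⟨(l 4), by decide +kernel⟩

theorem c_mm_102 : CertB 536870912 536870912 0 536870912 587336777 62277027 3 eng mog cd1q1 cd3q0 pd2 true false false .npp 1 0 2
    ndB1q1 ndB3q0 pcB2 Cut.none Ext.none :=
  certB0 (fam := true) (s1 := false) (s2 := false) (a := 1) (b := 0) (c := 2) (cn := .npp) (n1 := ndB1q1) (n2 := ndB3q0) (pc := pcB2) (cut := Cut.none) (xt := Ext.none) (P1 := 536870912) (W1 := 536870912) (P2 := 0) (W2 := 536870912) (P3 := 587336777) (W3 := 62277027) (N0 := 3) (En := eng) (mo := mog) (C1 := cd1q1) (C2 := cd3q0) (C3 := pd2)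
    rfl k0_mm_102

noncomputable def f_mm_112 : ℕ → ℕ → ℕ → ℕ → Bool := onCell 536870912 536870912 536870912 536870912 587336777 62277027
    (rowB 3 eng mog cd1q1 cd3q1 pd2 0 true false false .dn 1 1 2 (qsf 536870912 536870912 536870912 536870912 2) ndB1q1 ndB3q1 pcB2 Cut.none Ext.none)

def k0_mm_112 : ∃ t, chk3 f_mm_112 t 1 1 1 = true :=
  ⟨(l 4), by decide +kernel⟩

theorem c_mm_112 : CertB 536870912 536870912 536870912 536870912 587336777 62277027 3 eng mog cd1q1 cd3q1 pd2 true false false .dn 1 1 2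
    ndB1q1 ndB3q1 pcB2 Cut.none Ext.none :=
  certB0 (fam := true) (s1 := false) (s2 := false) (a := 1) (b := 1) (c := 2) (cn := .dn) (n1 := ndB1q1) (n2 := ndB3q1) (pc := pcB2) (cut := Cut.none) (xt := Ext.none) (P1 := 536870912) (W1 := 536870912) (P2 := 536870912) (W2 := 536870912) (P3 := 587336777) (W3 := 62277027) (N0 := 3) (En := eng) (mo := mog) (C1 := cd1q1) (C2 := cd3q1) (C3 := pd2)
    rfl k0_mm_112

noncomputable def f_mm_113 : ℕ → ℕ → ℕ → ℕ → Bool := onCell 536870912 536870912 536870912 536870912 587336777 62277027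
    (rowB 3 eng mog cd1q1 cd3q1 pd3 0 true false false .nn 1 1 3 (qsf 536870912 536870912 536870912 536870912 3) ndB1q1 ndB3q1 pcB3 Cut.none Ext.none)

def k0_mm_113 : ∃ t, chk3 f_mm_113 t 1 1 1 = true :=
  ⟨(l 4), by decide +kernel⟩

theorem c_mm_113 : CertB 536870912 536870912 536870912 536870912 587336777 62277027 3 eng mog cd1q1 cd3q1 pd3 true false false .nn 1 1 3
    ndB1q1 ndB3q1 pcB3 Cut.none Ext.none :=
  certB0 (fam := true) (s1 := false) (s2 := false) (a := 1) (b := 1) (c := 3) (cn := .nn) (n1 := ndB1q1) (n2 := ndB3q1) (pc := pcB3) (cut := Cut.none) (xt := Ext.none) (P1 := 536870912) (W1 := 536870912) (P2 := 536870912) (W2 := 536870912) (P3 := 587336777) (W3 := 62277027) (N0 := 3) (En := eng) (mo := mog) (C1 := cd1q1) (C2 := cd3q1) (C3 := pd3)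
    rfl k0_mm_113

noncomputable def f_mm_123_a : ℕ → ℕ → ℕ → ℕ → Bool := onCell 536870912 536870912 0 536870912 587336777 62277027
    (rowB 3 eng mog cd1q1 cd3q2a pd3 0 true false false .npn 1 2 3 (qsf 536870912 536870912 0 536870912 3) ndB1q1 ndB3q2a pcB3 Cut.none Ext.none)

def k0_mm_123_a : ∃ t, chk3 f_mm_123_a t 1 1 1 = true :=
  ⟨(l 4), by decide +kernel⟩

theorem c_mm_123_a : CertB 536870912 536870912 0 536870912 587336777 62277027 3 eng mog cd1q1 cd3q2a pd3 true false false .npn 1 2 3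
    ndB1q1 ndB3q2a pcB3 Cut.none Ext.none :=
  certB0 (fam := true) (s1 := false) (s2 := false) (a := 1) (b := 2) (c := 3) (cn := .npn) (n1 := ndB1q1) (n2 := ndB3q2a) (pc := pcB3) (cut := Cut.none) (xt := Ext.none) (P1 := 536870912) (W1 := 536870912) (P2 := 0) (W2 := 536870912) (P3 := 587336777) (W3 := 62277027) (N0 := 3) (En := eng) (mo := mog) (C1 := cd1q1) (C2 := cd3q2a) (C3 := pd3)
    rfl k0_mm_123_a

noncomputable def f_mm_123_b : ℕ → ℕ → ℕ → ℕ → Bool := onCell 536870912 536870912 1239849684 370763052 587336777 62277027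
    (rowB 3 eng mog cd1q1 cd3q2b pd3 0 true false false .npn 1 2 3 (qsf 536870912 536870912 1239849684 370763052 3) ndB1q1 ndB3q2b pcB3 Cut.none Ext.none)

def k0_mm_123_b : ∃ t, chk3 f_mm_123_b t 1 1 1 = true :=
  ⟨(l 4), by decide +kernel⟩

theorem c_mm_123_b : CertB 536870912 536870912 1239849684 370763052 587336777 62277027 3 eng mog cd1q1 cd3q2b pd3 true false false .npn 1 2 3
    ndB1q1 ndB3q2b pcB3 Cut.none Ext.none :=
  certB0 (fam := true) (s1 := false) (s2 := false) (a := 1) (b := 2) (c := 3) (cn := .npn) (n1 := ndB1q1) (n2 := ndB3q2b) (pc := pcB3) (cut := Cut.none) (xt := Ext.none) (P1 := 536870912) (W1 := 536870912) (P2 := 1239849684) (W2 := 370763052) (P3 := 587336777) (W3 := 62277027) (N0 := 3) (En := eng) (mo := mog) (C1 := cd1q1) (C2 := cd3q2b) (C3 := pd3)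
    rfl k0_mm_123_b

noncomputable def f_mm_133 : ℕ → ℕ → ℕ → ℕ → Bool := onCell 536870912 536870912 1610612736 536870912 587336777 62277027
    (rowB 3 eng mog cd1q1 cd3q3 pd3 0 true false false .dn 1 3 3 (qsf 536870912 536870912 1610612736 536870912 3) ndB1q1 ndB3q3 pcB3 Cut.none Ext.none)

def k0_mm_133 : ∃ t, chk3 f_mm_133 t 1 1 1 = true :=
  ⟨(l 4), by decide +kernel⟩

theorem c_mm_133 : CertB 536870912 536870912 1610612736 536870912 587336777 62277027 3 eng mog cd1q1 cd3q3 pd3 true false false .dn 1 3 3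
    ndB1q1 ndB3q3 pcB3 Cut.none Ext.none :=
  certB0 (fam := true) (s1 := false) (s2 := false) (a := 1) (b := 3) (c := 3) (cn := .dn) (n1 := ndB1q1) (n2 := ndB3q3) (pc := pcB3) (cut := Cut.none) (xt := Ext.none) (P1 := 536870912) (W1 := 536870912) (P2 := 1610612736) (W2 := 536870912) (P3 := 587336777) (W3 := 62277027) (N0 := 3) (En := eng) (mo := mog) (C1 := cd1q1) (C2 := cd3q3) (C3 := pd3)
    rfl k0_mm_133

noncomputable def cut_mm_202_a : Cut := Cut.of [[⟨0, 1, 0, 67108864⟩, ⟨1, 0, 0, 67108864⟩, ⟨2, 1, 0, 67108864⟩]]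

noncomputable def f_mm_202_a : ℕ → ℕ → ℕ → ℕ → Bool := onCell 0 536870912 0 536870912 587336777 62277027
    (rowB 3 eng mog cd1q2a cd3q0 pd2 0 true false false .pp 2 0 2 (qsf 0 536870912 0 536870912 2) ndB1q2a ndB3q0 pcB2 cut_mm_202_a Ext.none)

def k0_mm_202_a : ∃ t, chk3 f_mm_202_a t 2 2 1 = true :=
  ⟨(b (a (b (b (a (b (l 16457808) (l 16465248)) (b (a (l 16464008) (l 16492200)) (a (l 16472496) (l 16480168)))) (a (l 16477400) (b (l 16548696) (l 16495528)))) (b (a (l 16495024) (l 16510848)) (l 16524024))) (b (b (a (b (a (l 16480752) (b (l 16490584) (l 16494984))) (a (b (l 16487568) (l 16492552)) (b (l 16499768) (l 16504912)))) (b (a (b (a (l 16501072) (l 16509016)) (a (l 16505592) (l 16513616))) (b (a (l 16517688) (c (l 16527512) (l 16527008))) (a (l 16522368) (l 16531832)))) (a (b (l 16514568) (l 16519848)) (a (l 16530088) (l 16539680))))) (a (b (a (l 16500320) (l 16513112)) (l 16517856)) (b (b (a (l 16525440) (l 16543416)) (a (l 16531296) (l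 16549456))) (a (l 16540304) (l 16579888))))) (a (b (l 16618960) (l 16559064)) (b (b (l 16604352) (l 16575408)) (l 16679320))))) (b (a (b (l 16548688) (l 16579192)) (a (b (l 16586240) (l 16618624)) (b (l 16687616) (l 16741128)))) (a (b (l 16606928) (l 16634840)) (b (a (l 16649864) (l 16750712)) (a (l 16679016) (l 4)))))), by decide +kernel⟩

def k1_mm_202_a : ∃ t, chk3 f_mm_202_a t 3 2 1 = true :=
  ⟨(b (a (b (b (a (b (a (b (a (b (l 16535976) (l 16538384)) (b (l 16546040) (l 16549288))) (a (l 16542048) (l 16553032))) (b (a (b (l 16556632) (l 16560096)) (b (l 16567800) (l 16571488))) (a (l 16564824) (l 16576856)))) (a (a (l 16550008) (l 16561120)) (a (l 16573016) (l 16585656)))) (b (a (b (b (a (l 16579664) (l 16592096)) (l 16588872)) (a (l 16589232) (l 16602200))) (b (a (b (l 16605152) (l 16609472)) (b (l 16619120) (l 16623640))) (a (l 16615792) (l 16588304)))) (a (b (l 16603104) (l 16609000)) (b (l 16631368) (l 16638640))))) (a (b (a (a (l 16561768)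 (l 16573040)) (l 16591528)) (a (b (l 16577008) (l 16583680)) (a (l 16598288) (l 16611264)))) (a (a (l 16597000) (l 16632272)) (a (l 16647328) (l 16668064))))) (a (a (b (l 16600896) (l 16629392)) (b (b (l 16723744) (l 16633464)) (l 16676768))) (b (b (a (l 16730416) (l 16739936)) (a (l 16724512) (l 16692560))) (a (b (l 16676920) (l 4)) (l 4))))) (b (a (b (b (a (b (a (b (l 16633792) (l 16638504)) (b (a (l 16645200) (l 16653184)) (l 16654112))) (a (l 16666376) (l 16671792))) (a (b (b (l 6) (l 16671112)) (c (l 16700608) (l 16698264))) (b (l 6) (b (l 6) (l 16699288))))) (b (a (l 16678192) (a (l 16688048) (l 16706592))) (a (l 16670864) (l 16725848)))) (b (a (l 16701608) (a (l 16706008) (l 16729160))) (a (l 16694912) (b (l 16726416) (l 4))))) (b (a (b (l 6) (b (l 6) (a (l 16731720) (l 6)))) (l 6)) (a (b (a (b (l 16739176) (l 4)) (l 4)) (l 4)) (l 4)))) (a (a (b (b (l 16710448) (l 4)) (l 4)) (l 4)) (l 4)))) (a (b (a (b (b (l 16748800) (l 16723280)) (l 4))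 (l 4)) (l 4)) (l 4))), by decide +kernel⟩

def k2_mm_202_a : ∃ t, chk3 f_mm_202_a t 1 3 1 = true :=
  ⟨(a (a (b (b (a (l 16665272) (b (l 16677912) (l 16705872))) (b (l 16742296) (l 16747104))) (l 2)) (l 4)) (l 4)), by decide +kernel⟩

theorem s3_mm_202_a : ∃ t, chk3 f_mm_202_a t 1 2 1 = true := ex3_a k0_mm_202_a k1_mm_202_a

theorem s4_mm_202_a : ∃ t, chk3 f_mm_202_a t 1 1 1 = true := ex3_b s3_mm_202_a k2_mm_202_a

theorem c_mm_202_a : CertB 0 536870912 0 536870912 587336777 62277027 3 eng mog cd1q2a cd3q0 pd2 true false false .pp 2 0 2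
    ndB1q2a ndB3q0 pcB2 cut_mm_202_a Ext.none :=
  certB0 (fam := true) (s1 := false) (s2 := false) (a := 2) (b := 0) (c := 2) (cn := .pp) (n1 := ndB1q2a) (n2 := ndB3q0) (pc := pcB2) (cut := cut_mm_202_a) (xt := Ext.none) (P1 := 0) (W1 := 536870912) (P2 := 0) (W2 := 536870912) (P3 := 587336777) (W3 := 62277027) (N0 := 3) (En := eng) (mo := mog) (C1 := cd1q2a) (C2 := cd3q0) (C3 := pd2)
    rfl s4_mm_202_a

noncomputable def cut_mm_202_b : Cut := Cut.of [[⟨0, 1, 0, 67108864⟩, ⟨1, 0, 0, 67108864⟩, ⟨2, 1, 0, 67108864⟩]]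

noncomputable def f_mm_202_b : ℕ → ℕ → ℕ → ℕ → Bool := onCell 1073741824 536870912 0 536870912 587336777 62277027
    (rowB 3 eng mog cd1q2b cd3q0 pd2 2 true false false .pp 2 0 2 (qsf 1239849684 370763052 0 536870912 2) ndB1q2b ndB3q0 pcB2 cut_mm_202_b Ext.none)

def k0_mm_202_b : ∃ t, chk3 f_mm_202_b t 1 1 1 = true :=
  ⟨(a (b (a (l 1) (b (a (b (a (b (b (l 16521928) (l 1)) (l 1)) (b (a (l 16471688) (l 16439472)) (a (l 1) (l 16516632)))) (l 1)) (b (b (a (l 16392320) (l 16334488)) (a (l 16469848) (l 16405624))) (a (b (l 172368787527) (l 1)) (b (l 16486584) (l 197064867959))))) (l 1))) (l 1)) (a (b (b (a (b (b (l 16296496) (l 16366000)) (a (l 16484824) (l 16400216))) (b (a (b (l 16185520) (l 16254488)) (l 16196280)) (a (l 16355808) (l 16328176)))) (a (b (a (l 253436406151) (l 209949610439)) (l 1)) (b (a (l 134250751975) (l 16450856)) (a (l 381211548583) (l 281890316615))))) (l 1)) (b (b (a (b (a (l 16182432) (l 16174440)) (l 16299840)) (b (l 16170560)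 (l 16276632))) (a (b (l 16419040) (a (l 16557408) (l 16512560))) (a (l 16447776) (l 16431968)))) (b (a (b (a (l 390875284327) (l 154652380887)) (l 1)) (b (a (l 16618264) (l 16556088)) (l 375842979463))) (l 1))))), by decide +kernel⟩

theorem c_mm_202_b : CertB 1239849684 370763052 0 536870912 587336777 62277027 3 eng mog cd1q2b cd3q0 pd2 true false false .pp 2 0 2
    ndB1q2b ndB3q0 pcB2 cut_mm_202_b Ext.none :=
  certB2 (fam := true) (s1 := false) (s2 := false) (a := 2) (b := 0) (c := 2) (cn := .pp) (n1 := ndB1q2b) (n2 := ndB3q0) (pc := pcB2) (cut := cut_mm_202_b) (xt := Ext.none) (P1 := 1239849684) (W1 := 370763052) (P2 := 0) (W2 := 536870912) (P3 := 587336777) (W3 := 62277027) (N0 := 3) (En := eng) (mo := mog) (C1 := cd1q2b) (C2 := cd3q0) (C3 := pd2)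
    rfl (fun _ => rfl) k0_mm_202_b

noncomputable def f_mm_203_a : ℕ → ℕ → ℕ → ℕ → Bool := onCell 0 536870912 1610612736 536870912 587336777 62277027
    (rowB 3 eng mog cd1q2a cd3q0 pd3 1 true false false .up 2 0 3 (qsf 0 536870912 0 536870912 3) ndB1q2a ndB3q0 pcB3 Cut.none Ext.none)

def k0_mm_203_a : ∃ t, chk3 f_mm_203_a t 1 1 1 = true :=
  ⟨(b (b (a (b (a (l 4) (l 4)) (l 4)) (l 4)) (l 4)) (l 2)), by decide +kernel⟩

theorem c_mm_203_a : CertB 0 536870912 0 536870912 587336777 62277027 3 eng mog cd1q2a cd3q0 pd3 true false false .up 2 0 3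
    ndB1q2a ndB3q0 pcB3 Cut.none Ext.none :=
  certB1 (fam := true) (s1 := false) (s2 := false) (a := 2) (b := 0) (c := 3) (cn := .up) (n1 := ndB1q2a) (n2 := ndB3q0) (pc := pcB3) (cut := Cut.none) (xt := Ext.none) (P1 := 0) (W1 := 536870912) (P2 := 0) (W2 := 536870912) (P3 := 587336777) (W3 := 62277027) (N0 := 3) (En := eng) (mo := mog) (C1 := cd1q2a) (C2 := cd3q0) (C3 := pd3)
    rfl (fun _ => rfl) k0_mm_203_a

noncomputable def f_mm_203_b : ℕ → ℕ → ℕ → ℕ → Bool := onCell 1239849684 370763052 1610612736 536870912 587336777 62277027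
    (rowB 3 eng mog cd1q2b cd3q0 pd3 1 true false false .up 2 0 3 (qsf 1239849684 370763052 0 536870912 3) ndB1q2b ndB3q0 pcB3 Cut.none Ext.none)

def k0_mm_203_b : ∃ t, chk3 f_mm_203_b t 1 1 1 = true :=
  ⟨(b (b (a (b (b (a (l 16609480) (l 16485896)) (l 4)) (l 4)) (b (a (b (l 16347856) (l 16391912)) (b (l 16210408) (l 16248536))) (b (l 16398896) (l 4)))) (l 4)) (l 4)), by decide +kernel⟩

theorem c_mm_203_b : CertB 1239849684 370763052 0 536870912 587336777 62277027 3 eng mog cd1q2b cd3q0 pd3 true false false .up 2 0 3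
    ndB1q2b ndB3q0 pcB3 Cut.none Ext.none :=
  certB1 (fam := true) (s1 := false) (s2 := false) (a := 2) (b := 0) (c := 3) (cn := .up) (n1 := ndB1q2b) (n2 := ndB3q0) (pc := pcB3) (cut := Cut.none) (xt := Ext.none) (P1 := 1239849684) (W1 := 370763052) (P2 := 0) (W2 := 536870912) (P3 := 587336777) (W3 := 62277027) (N0 := 3) (En := eng) (mo := mog) (C1 := cd1q2b) (C2 := cd3q0) (C3 := pd3)
    rfl (fun _ => rfl) k0_mm_203_b

noncomputable def f_mm_213_a : ℕ → ℕ → ℕ → ℕ → Bool := onCell 0 536870912 536870912 536870912 587336777 62277027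
    (rowB 3 eng mog cd1q2a cd3q1 pd3 0 true false false .pnn 2 1 3 (qsf 0 536870912 536870912 536870912 3) ndB1q2a ndB3q1 pcB3 Cut.none Ext.none)

def k0_mm_213_a : ∃ t, chk3 f_mm_213_a t 1 1 1 = true :=
  ⟨(l 4), by decide +kernel⟩

theorem c_mm_213_a : CertB 0 536870912 536870912 536870912 587336777 62277027 3 eng mog cd1q2a cd3q1 pd3 true false false .pnn 2 1 3
    ndB1q2a ndB3q1 pcB3 Cut.none Ext.none :=
  certB0 (fam := true) (s1 := false) (s2 := false) (a := 2) (b := 1) (c := 3) (cn := .pnn) (n1 := ndB1q2a) (n2 := ndB3q1) (pc := pcB3) (cut := Cut.none) (xt := Ext.none) (P1 := 0) (W1 := 536870912) (P2 := 536870912) (W2 := 536870912) (P3 := 587336777) (W3 := 62277027) (N0 := 3) (En := eng) (mo := mog) (C1 := cd1q2a) (C2 := cd3q1) (C3 := pd3)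
    rfl k0_mm_213_a

noncomputable def f_mm_213_b : ℕ → ℕ → ℕ → ℕ → Bool := onCell 1239849684 370763052 536870912 536870912 587336777 62277027
    (rowB 3 eng mog cd1q2b cd3q1 pd3 0 true false false .pnn 2 1 3 (qsf 1239849684 370763052 536870912 536870912 3) ndB1q2b ndB3q1 pcB3 Cut.none Ext.none)

def k0_mm_213_b : ∃ t, chk3 f_mm_213_b t 1 1 1 = true :=
  ⟨(l 4), by decide +kernel⟩

theorem c_mm_213_b : CertB 1239849684 370763052 536870912 536870912 587336777 62277027 3 eng mog cd1q2b cd3q1 pd3 true false false .pnn 2 1 3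
    ndB1q2b ndB3q1 pcB3 Cut.none Ext.none :=
  certB0 (fam := true) (s1 := false) (s2 := false) (a := 2) (b := 1) (c := 3) (cn := .pnn) (n1 := ndB1q2b) (n2 := ndB3q1) (pc := pcB3) (cut := Cut.none) (xt := Ext.none) (P1 := 1239849684) (W1 := 370763052) (P2 := 536870912) (W2 := 536870912) (P3 := 587336777) (W3 := 62277027) (N0 := 3) (En := eng) (mo := mog) (C1 := cd1q2b) (C2 := cd3q1) (C3 := pd3)
    rfl k0_mm_213_b

noncomputable def f_mm_303 : ℕ → ℕ → ℕ → ℕ → Bool := onCell 1610612736 536870912 0 536870912 587336777 62277027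
    (rowB 3 eng mog cd1q3 cd3q0 pd3 2 true false false .npn 3 0 3 (qsf 1610612736 536870912 0 536870912 3) ndB1q3 ndB3q0 pcB3 Cut.none Ext.none)

def k0_mm_303 : ∃ t, chk3 f_mm_303 t 1 1 1 = true :=
  ⟨(a (a (b (a (b (a (l 16226872) (l 16219984)) (l 1)) (b (a (l 16226008) (l 16276912)) (l 4))) (l 1)) (l 4)) (l 4)), by decide +kernel⟩

theorem c_mm_303 : CertB 1610612736 536870912 0 536870912 587336777 62277027 3 eng mog cd1q3 cd3q0 pd3 true false false .npn 3 0 3
    ndB1q3 ndB3q0 pcB3 Cut.none Ext.none :=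
  certB2 (fam := true) (s1 := false) (s2 := false) (a := 3) (b := 0) (c := 3) (cn := .npn) (n1 := ndB1q3) (n2 := ndB3q0) (pc := pcB3) (cut := Cut.none) (xt := Ext.none) (P1 := 1610612736) (W1 := 536870912) (P2 := 0) (W2 := 536870912) (P3 := 587336777) (W3 := 62277027) (N0 := 3) (En := eng) (mo := mog) (C1 := cd1q3) (C2 := cd3q0) (C3 := pd3)
    rfl (fun _ => rfl) k0_mm_303

noncomputable def f_mm_313 : ℕ → ℕ → ℕ → ℕ → Bool := onCell 1610612736 536870912 536870912 536870912 587336777 62277027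
    (rowB 3 eng mog cd1q3 cd3q1 pd3 0 true false false .dn 3 1 3 (qsf 1610612736 536870912 536870912 536870912 3) ndB1q3 ndB3q1 pcB3 Cut.none Ext.none)

def k0_mm_313 : ∃ t, chk3 f_mm_313 t 1 1 1 = true :=
  ⟨(l 4), by decide +kernel⟩

theorem c_mm_313 : CertB 1610612736 536870912 536870912 536870912 587336777 62277027 3 eng mog cd1q3 cd3q1 pd3 true false false .dn 3 1 3
    ndB1q3 ndB3q1 pcB3 Cut.none Ext.none :=
  certB0 (fam := true) (s1 := false) (s2 := false) (a := 3) (b := 1) (c := 3) (cn := .dn) (n1 := ndB1q3) (n2 := ndB3q1) (pc := pcB3) (cut := Cut.none) (xt := Ext.none) (P1 := 1610612736) (W1 := 536870912) (P2 := 536870912) (W2 := 536870912) (P3 := 587336777) (W3 := 62277027) (N0 := 3) (En := eng) (mo := mog) (C1 := cd1q3) (C2 := cd3q1) (C3 := pd3)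
    rfl k0_mm_313

end Pool.Agent.Strip051.G.I5470_6050.Tab.C.BA13

namespace Pool.Agent.Strip051.G.I5470_6050.Tab.C.BA14

open Pool.Agent.Strip051.PB Pool.Agent.Strip051.PB.T
open Pool.Agent.Strip051.G.I5470_6050.Tab

noncomputable def f_pp_001 : ℕ → ℕ → ℕ → ℕ → Bool := onCell 0 536870912 0 536870912 587336777 62277027
    (rowB 3 eng mog cd1q0 cd4q0 pd1 0 true true true .up 0 0 1 (qsf 0 536870912 0 536870912 1) ndB1q0 ndB4q0 pcB1 Cut.none Ext.none)

def k0_pp_001 : ∃ t, chk3 f_pp_001 t 1 1 1 = true :=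
  ⟨(l 4), by decide +kernel⟩

theorem c_pp_001 : CertB 0 536870912 0 536870912 587336777 62277027 3 eng mog cd1q0 cd4q0 pd1 true true true .up 0 0 1
    ndB1q0 ndB4q0 pcB1 Cut.none Ext.none :=
  certB0 (fam := true) (s1 := true) (s2 := true) (a := 0) (b := 0) (c := 1) (cn := .up) (n1 := ndB1q0) (n2 := ndB4q0) (pc := pcB1) (cut := Cut.none) (xt := Ext.none) (P1 := 0) (W1 := 536870912) (P2 := 0) (W2 := 536870912) (P3 := 587336777) (W3 := 62277027) (N0 := 3) (En := eng) (mo := mog) (C1 := cd1q0) (C2 := cd4q0) (C3 := pd1)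
    rfl k0_pp_001

noncomputable def f_pp_011 : ℕ → ℕ → ℕ → ℕ → Bool := onCell 0 536870912 536870912 536870912 587336777 62277027
    (rowB 3 eng mog cd1q0 cd4q1 pd1 0 true true true .pnn 0 1 1 (qsf 0 536870912 536870912 536870912 1) ndB1q0 ndB4q1 pcB1 Cut.none Ext.none)

def k0_pp_011 : ∃ t, chk3 f_pp_011 t 1 1 1 = true :=
  ⟨(l 4), by decide +kernel⟩

theorem c_pp_011 : CertB 0 536870912 536870912 536870912 587336777 62277027 3 eng mog cd1q0 cd4q1 pd1 true true true .pnn 0 1 1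
    ndB1q0 ndB4q1 pcB1 Cut.none Ext.none :=
  certB0 (fam := true) (s1 := true) (s2 := true) (a := 0) (b := 1) (c := 1) (cn := .pnn) (n1 := ndB1q0) (n2 := ndB4q1) (pc := pcB1) (cut := Cut.none) (xt := Ext.none) (P1 := 0) (W1 := 536870912) (P2 := 536870912) (W2 := 536870912) (P3 := 587336777) (W3 := 62277027) (N0 := 3) (En := eng) (mo := mog) (C1 := cd1q0) (C2 := cd4q1) (C3 := pd1)
    rfl k0_pp_011

noncomputable def f_pp_012 : ℕ → ℕ → ℕ → ℕ → Bool := onCell 0 536870912 536870912 536870912 587336777 62277027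
    (rowB 3 eng mog cd1q0 cd4q1 pd2 0 true true true .pnp 0 1 2 (qsf 0 536870912 536870912 536870912 2) ndB1q0 ndB4q1 pcB2 Cut.none Ext.none)

def k0_pp_012 : ∃ t, chk3 f_pp_012 t 1 1 1 = true :=
  ⟨(l 4), by decide +kernel⟩

theorem c_pp_012 : CertB 0 536870912 536870912 536870912 587336777 62277027 3 eng mog cd1q0 cd4q1 pd2 true true true .pnp 0 1 2
    ndB1q0 ndB4q1 pcB2 Cut.none Ext.none :=
  certB0 (fam := true) (s1 := true) (s2 := true) (a := 0) (b := 1) (c := 2) (cn := .pnp) (n1 := ndB1q0) (n2 := ndB4q1) (pc := pcB2) (cut := Cut.none) (xt := Ext.none) (P1 := 0) (W1 := 536870912) (P2 := 536870912) (W2 := 536870912) (P3 := 587336777) (W3 := 62277027) (N0 := 3) (En := eng) (mo := mog) (C1 := cd1q0) (C2 := cd4q1) (C3 := pd2)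
    rfl k0_pp_012

noncomputable def cut_pp_022_a : Cut := Cut.of [[⟨0, 0, 0, 67108864⟩, ⟨1, 1, 0, 67108864⟩, ⟨2, 1, 0, 67108864⟩]]

noncomputable def f_pp_022_a : ℕ → ℕ → ℕ → ℕ → Bool := onCell 0 536870912 0 536870912 587336777 62277027
    (rowB 3 eng mog cd1q0 cd4q2a pd2 0 true true true .pp 0 2 2 (qsf 0 536870912 0 536870912 2) ndB1q0 ndB4q2a pcB2 cut_pp_022_a Ext.none)

def k0_pp_022_a : ∃ t, chk3 f_pp_022_a t 1 1 1 = true :=
  ⟨(a (a (a (b (b (a (a (b (b (l 16459952) (l 16462456)) (l 16471008)) (b (b (l 16473784) (l 16476376)) (l 4))) (l 4)) (a (b (a (l 16490392) (l 4)) (l 4)) (l 4))) (b (l 4) (b (l 4) (a (b (l 4) (l 6)) (l 4))))) (l 4)) (l 4)) (l 4)), by decide +kernel⟩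

theorem c_pp_022_a : CertB 0 536870912 0 536870912 587336777 62277027 3 eng mog cd1q0 cd4q2a pd2 true true true .pp 0 2 2
    ndB1q0 ndB4q2a pcB2 cut_pp_022_a Ext.none :=
  certB0 (fam := true) (s1 := true) (s2 := true) (a := 0) (b := 2) (c := 2) (cn := .pp) (n1 := ndB1q0) (n2 := ndB4q2a) (pc := pcB2) (cut := cut_pp_022_a) (xt := Ext.none) (P1 := 0) (W1 := 536870912) (P2 := 0) (W2 := 536870912) (P3 := 587336777) (W3 := 62277027) (N0 := 3) (En := eng) (mo := mog) (C1 := cd1q0) (C2 := cd4q2a) (C3 := pd2)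
    rfl k0_pp_022_a

noncomputable def cut_pp_022_b : Cut := Cut.of [[⟨0, 0, 0, 67108864⟩, ⟨1, 1, 0, 67108864⟩, ⟨2, 1, 0, 67108864⟩]]

noncomputable def f_pp_022_b : ℕ → ℕ → ℕ → ℕ → Bool := onCell 0 536870912 1239849684 370763052 587336777 62277027
    (rowB 3 eng mog cd1q0 cd4q2b pd2 0 true true true .pp 0 2 2 (qsf 0 536870912 1239849684 370763052 2) ndB1q0 ndB4q2b pcB2 cut_pp_022_b Ext.none)

def k0_pp_022_b : ∃ t, chk3 f_pp_022_b t 1 1 1 = true :=
  ⟨(a (b (a (b (a (b (a (b (a (a (c (l 16521448) (l 16515432)) (l 16545968)) (l 16535024)) (a (l 16436440) (l 4))) (l 4)) (l 4)) (l 4)) (l 4)) (l 4)) (l 4)) (l 4)), by decide +kernel⟩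

theorem c_pp_022_b : CertB 0 536870912 1239849684 370763052 587336777 62277027 3 eng mog cd1q0 cd4q2b pd2 true true true .pp 0 2 2
    ndB1q0 ndB4q2b pcB2 cut_pp_022_b Ext.none :=
  certB0 (fam := true) (s1 := true) (s2 := true) (a := 0) (b := 2) (c := 2) (cn := .pp) (n1 := ndB1q0) (n2 := ndB4q2b) (pc := pcB2) (cut := cut_pp_022_b) (xt := Ext.none) (P1 := 0) (W1 := 536870912) (P2 := 1239849684) (W2 := 370763052) (P3 := 587336777) (W3 := 62277027) (N0 := 3) (En := eng) (mo := mog) (C1 := cd1q0) (C2 := cd4q2b) (C3 := pd2)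
    rfl k0_pp_022_b

noncomputable def f_pp_023_a : ℕ → ℕ → ℕ → ℕ → Bool := onCell 1610612736 536870912 0 536870912 587336777 62277027
    (rowB 3 eng mog cd1q0 cd4q2a pd3 2 true true true .up 0 2 3 (qsf 0 536870912 0 536870912 3) ndB1q0 ndB4q2a pcB3 Cut.none Ext.none)

def k0_pp_023_a : ∃ t, chk3 f_pp_023_a t 1 1 1 = true :=
  ⟨(l 4), by decide +kernel⟩

theorem c_pp_023_a : CertB 0 536870912 0 536870912 587336777 62277027 3 eng mog cd1q0 cd4q2a pd3 true true true .up 0 2 3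
    ndB1q0 ndB4q2a pcB3 Cut.none Ext.none :=
  certB2 (fam := true) (s1 := true) (s2 := true) (a := 0) (b := 2) (c := 3) (cn := .up) (n1 := ndB1q0) (n2 := ndB4q2a) (pc := pcB3) (cut := Cut.none) (xt := Ext.none) (P1 := 0) (W1 := 536870912) (P2 := 0) (W2 := 536870912) (P3 := 587336777) (W3 := 62277027) (N0 := 3) (En := eng) (mo := mog) (C1 := cd1q0) (C2 := cd4q2a) (C3 := pd3)
    rfl (fun _ => rfl) k0_pp_023_a

noncomputable def f_pp_023_b : ℕ → ℕ → ℕ → ℕ → Bool := onCell 1610612736 536870912 1239849684 370763052 587336777 62277027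
    (rowB 3 eng mog cd1q0 cd4q2b pd3 2 true true true .up 0 2 3 (qsf 0 536870912 1239849684 370763052 3) ndB1q0 ndB4q2b pcB3 Cut.none Ext.none)

def k0_pp_023_b : ∃ t, chk3 f_pp_023_b t 1 1 1 = true :=
  ⟨(l 4), by decide +kernel⟩

theorem c_pp_023_b : CertB 0 536870912 1239849684 370763052 587336777 62277027 3 eng mog cd1q0 cd4q2b pd3 true true true .up 0 2 3
    ndB1q0 ndB4q2b pcB3 Cut.none Ext.none :=
  certB2 (fam := true) (s1 := true) (s2 := true) (a := 0) (b := 2) (c := 3) (cn := .up) (n1 := ndB1q0) (n2 := ndB4q2b) (pc := pcB3) (cut := Cut.none) (xt := Ext.none) (P1 := 0) (W1 := 536870912) (P2 := 1239849684) (W2 := 370763052) (P3 := 587336777) (W3 := 62277027) (N0 := 3) (En := eng) (mo := mog) (C1 := cd1q0) (C2 := cd4q2b) (C3 := pd3)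
    rfl (fun _ => rfl) k0_pp_023_b

noncomputable def f_pp_033 : ℕ → ℕ → ℕ → ℕ → Bool := onCell 0 536870912 1610612736 536870912 587336777 62277027
    (rowB 3 eng mog cd1q0 cd4q3 pd3 0 true true true .pnn 0 3 3 (qsf 0 536870912 1610612736 536870912 3) ndB1q0 ndB4q3 pcB3 Cut.none Ext.none)

def k0_pp_033 : ∃ t, chk3 f_pp_033 t 1 1 1 = true :=
  ⟨(l 4), by decide +kernel⟩

theorem c_pp_033 : CertB 0 536870912 1610612736 536870912 587336777 62277027 3 eng mog cd1q0 cd4q3 pd3 true true true .pnn 0 3 3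
    ndB1q0 ndB4q3 pcB3 Cut.none Ext.none :=
  certB0 (fam := true) (s1 := true) (s2 := true) (a := 0) (b := 3) (c := 3) (cn := .pnn) (n1 := ndB1q0) (n2 := ndB4q3) (pc := pcB3) (cut := Cut.none) (xt := Ext.none) (P1 := 0) (W1 := 536870912) (P2 := 1610612736) (W2 := 536870912) (P3 := 587336777) (W3 := 62277027) (N0 := 3) (En := eng) (mo := mog) (C1 := cd1q0) (C2 := cd4q3) (C3 := pd3)
    rfl k0_pp_033

noncomputable def f_pp_101 : ℕ → ℕ → ℕ → ℕ → Bool := onCell 536870912 536870912 0 536870912 587336777 62277027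
    (rowB 3 eng mog cd1q1 cd4q0 pd1 0 true true true .npn 1 0 1 (qsf 536870912 536870912 0 536870912 1) ndB1q1 ndB4q0 pcB1 Cut.none Ext.none)

def k0_pp_101 : ∃ t, chk3 f_pp_101 t 1 1 1 = true :=
  ⟨(l 5), by decide +kernel⟩

theorem c_pp_101 : CertB 536870912 536870912 0 536870912 587336777 62277027 3 eng mog cd1q1 cd4q0 pd1 true true true .npn 1 0 1
    ndB1q1 ndB4q0 pcB1 Cut.none Ext.none :=
  certB0 (fam := true) (s1 := true) (s2 := true) (a := 1) (b := 0) (c := 1) (cn := .npn) (n1 := ndB1q1) (n2 := ndB4q0) (pc := pcB1) (cut := Cut.none) (xt := Ext.none) (P1 := 536870912) (W1 := 536870912) (P2 := 0) (W2 := 536870912) (P3 := 587336777) (W3 := 62277027) (N0 := 3) (En := eng) (mo := mog) (C1 := cd1q1) (C2 := cd4q0) (C3 := pd1)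
    rfl k0_pp_101

noncomputable def f_pp_102 : ℕ → ℕ → ℕ → ℕ → Bool := onCell 536870912 536870912 0 536870912 587336777 62277027
    (rowB 3 eng mog cd1q1 cd4q0 pd2 0 true true true .npp 1 0 2 (qsf 536870912 536870912 0 536870912 2) ndB1q1 ndB4q0 pcB2 Cut.none Ext.none)

def k0_pp_102 : ∃ t, chk3 f_pp_102 t 1 1 1 = true :=
  ⟨(l 5), by decide +kernel⟩

theorem c_pp_102 : CertB 536870912 536870912 0 536870912 587336777 62277027 3 eng mog cd1q1 cd4q0 pd2 true true true .npp 1 0 2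
    ndB1q1 ndB4q0 pcB2 Cut.none Ext.none :=
  certB0 (fam := true) (s1 := true) (s2 := true) (a := 1) (b := 0) (c := 2) (cn := .npp) (n1 := ndB1q1) (n2 := ndB4q0) (pc := pcB2) (cut := Cut.none) (xt := Ext.none) (P1 := 536870912) (W1 := 536870912) (P2 := 0) (W2 := 536870912) (P3 := 587336777) (W3 := 62277027) (N0 := 3) (En := eng) (mo := mog) (C1 := cd1q1) (C2 := cd4q0) (C3 := pd2)
    rfl k0_pp_102

noncomputable def f_pp_112 : ℕ → ℕ → ℕ → ℕ → Bool := onCell 536870912 536870912 536870912 536870912 587336777 62277027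
    (rowB 3 eng mog cd1q1 cd4q1 pd2 0 true true true .dn 1 1 2 (qsf 536870912 536870912 536870912 536870912 2) ndB1q1 ndB4q1 pcB2 Cut.none Ext.none)

def k0_pp_112 : ∃ t, chk3 f_pp_112 t 1 1 1 = true :=
  ⟨(l 4), by decide +kernel⟩

theorem c_pp_112 : CertB 536870912 536870912 536870912 536870912 587336777 62277027 3 eng mog cd1q1 cd4q1 pd2 true true true .dn 1 1 2
    ndB1q1 ndB4q1 pcB2 Cut.none Ext.none :=
  certB0 (fam := true) (s1 := true) (s2 := true) (a := 1) (b := 1) (c := 2) (cn := .dn) (n1 := ndB1q1) (n2 := ndB4q1) (pc := pcB2) (cut := Cut.none) (xt := Ext.none) (P1 := 536870912) (W1 := 536870912) (P2 := 536870912) (W2 := 536870912) (P3 := 587336777) (W3 := 62277027) (N0 := 3) (En := eng) (mo := mog) (C1 := cd1q1) (C2 := cd4q1) (C3 := pd2)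
    rfl k0_pp_112

noncomputable def f_pp_113 : ℕ → ℕ → ℕ → ℕ → Bool := onCell 536870912 536870912 536870912 536870912 587336777 62277027
    (rowB 3 eng mog cd1q1 cd4q1 pd3 0 true true true .nn 1 1 3 (qsf 536870912 536870912 536870912 536870912 3) ndB1q1 ndB4q1 pcB3 Cut.none Ext.none)

def k0_pp_113 : ∃ t, chk3 f_pp_113 t 1 1 1 = true :=
  ⟨(l 4), by decide +kernel⟩

theorem c_pp_113 : CertB 536870912 536870912 536870912 536870912 587336777 62277027 3 eng mog cd1q1 cd4q1 pd3 true true true .nn 1 1 3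
    ndB1q1 ndB4q1 pcB3 Cut.none Ext.none :=
  certB0 (fam := true) (s1 := true) (s2 := true) (a := 1) (b := 1) (c := 3) (cn := .nn) (n1 := ndB1q1) (n2 := ndB4q1) (pc := pcB3) (cut := Cut.none) (xt := Ext.none) (P1 := 536870912) (W1 := 536870912) (P2 := 536870912) (W2 := 536870912) (P3 := 587336777) (W3 := 62277027) (N0 := 3) (En := eng) (mo := mog) (C1 := cd1q1) (C2 := cd4q1) (C3 := pd3)
    rfl k0_pp_113

noncomputable def f_pp_123_a : ℕ → ℕ → ℕ → ℕ → Bool := onCell 536870912 536870912 0 536870912 587336777 62277027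
    (rowB 3 eng mog cd1q1 cd4q2a pd3 0 true true true .npn 1 2 3 (qsf 536870912 536870912 0 536870912 3) ndB1q1 ndB4q2a pcB3 Cut.none Ext.none)

def k0_pp_123_a : ∃ t, chk3 f_pp_123_a t 1 1 1 = true :=
  ⟨(l 4), by decide +kernel⟩

theorem c_pp_123_a : CertB 536870912 536870912 0 536870912 587336777 62277027 3 eng mog cd1q1 cd4q2a pd3 true true true .npn 1 2 3
    ndB1q1 ndB4q2a pcB3 Cut.none Ext.none :=
  certB0 (fam := true) (s1 := true) (s2 := true) (a := 1) (b := 2) (c := 3) (cn := .npn) (n1 := ndB1q1) (n2 := ndB4q2a) (pc := pcB3) (cut := Cut.none) (xt := Ext.none) (P1 := 536870912) (W1 := 536870912) (P2 := 0) (W2 := 536870912) (P3 := 587336777) (W3 := 62277027) (N0 := 3) (En := eng) (mo := mog) (C1 := cd1q1) (C2 := cd4q2a) (C3 := pd3)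
    rfl k0_pp_123_a

noncomputable def f_pp_123_b : ℕ → ℕ → ℕ → ℕ → Bool := onCell 536870912 536870912 1239849684 370763052 587336777 62277027
    (rowB 3 eng mog cd1q1 cd4q2b pd3 0 true true true .npn 1 2 3 (qsf 536870912 536870912 1239849684 370763052 3) ndB1q1 ndB4q2b pcB3 Cut.none Ext.none)

def k0_pp_123_b : ∃ t, chk3 f_pp_123_b t 1 1 1 = true :=
  ⟨(l 4), by decide +kernel⟩

theorem c_pp_123_b : CertB 536870912 536870912 1239849684 370763052 587336777 62277027 3 eng mog cd1q1 cd4q2b pd3 true true true .npn 1 2 3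
    ndB1q1 ndB4q2b pcB3 Cut.none Ext.none :=
  certB0 (fam := true) (s1 := true) (s2 := true) (a := 1) (b := 2) (c := 3) (cn := .npn) (n1 := ndB1q1) (n2 := ndB4q2b) (pc := pcB3) (cut := Cut.none) (xt := Ext.none) (P1 := 536870912) (W1 := 536870912) (P2 := 1239849684) (W2 := 370763052) (P3 := 587336777) (W3 := 62277027) (N0 := 3) (En := eng) (mo := mog) (C1 := cd1q1) (C2 := cd4q2b) (C3 := pd3)
    rfl k0_pp_123_b

noncomputable def f_pp_133 : ℕ → ℕ → ℕ → ℕ → Bool := onCell 536870912 536870912 1610612736 536870912 587336777 62277027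
    (rowB 3 eng mog cd1q1 cd4q3 pd3 0 true true true .dn 1 3 3 (qsf 536870912 536870912 1610612736 536870912 3) ndB1q1 ndB4q3 pcB3 Cut.none Ext.none)

def k0_pp_133 : ∃ t, chk3 f_pp_133 t 1 1 1 = true :=
  ⟨(l 4), by decide +kernel⟩

theorem c_pp_133 : CertB 536870912 536870912 1610612736 536870912 587336777 62277027 3 eng mog cd1q1 cd4q3 pd3 true true true .dn 1 3 3
    ndB1q1 ndB4q3 pcB3 Cut.none Ext.none :=
  certB0 (fam := true) (s1 := true) (s2 := true) (a := 1) (b := 3) (c := 3) (cn := .dn) (n1 := ndB1q1) (n2 := ndB4q3) (pc := pcB3) (cut := Cut.none) (xt := Ext.none) (P1 := 536870912) (W1 := 536870912) (P2 := 1610612736) (W2 := 536870912) (P3 := 587336777) (W3 := 62277027) (N0 := 3) (En := eng) (mo := mog) (C1 := cd1q1) (C2 := cd4q3) (C3 := pd3)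
    rfl k0_pp_133

noncomputable def f_pp_202_a : ℕ → ℕ → ℕ → ℕ → Bool := onCell 0 536870912 0 536870912 587336777 62277027
    (rowB 3 eng mog cd1q2a cd4q0 pd2 0 true true true .pp 2 0 2 (qsf 0 536870912 0 536870912 2) ndB1q2a ndB4q0 pcB2 Cut.none Ext.none)

def k0_pp_202_a : ∃ t, chk3 f_pp_202_a t 1 1 1 = true :=
  ⟨(l 5), by decide +kernel⟩

theorem c_pp_202_a : CertB 0 536870912 0 536870912 587336777 62277027 3 eng mog cd1q2a cd4q0 pd2 true true true .pp 2 0 2
    ndB1q2a ndB4q0 pcB2 Cut.none Ext.none :=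
  certB0 (fam := true) (s1 := true) (s2 := true) (a := 2) (b := 0) (c := 2) (cn := .pp) (n1 := ndB1q2a) (n2 := ndB4q0) (pc := pcB2) (cut := Cut.none) (xt := Ext.none) (P1 := 0) (W1 := 536870912) (P2 := 0) (W2 := 536870912) (P3 := 587336777) (W3 := 62277027) (N0 := 3) (En := eng) (mo := mog) (C1 := cd1q2a) (C2 := cd4q0) (C3 := pd2)
    rfl k0_pp_202_a

noncomputable def f_pp_202_b : ℕ → ℕ → ℕ → ℕ → Bool := onCell 1239849684 370763052 0 536870912 587336777 62277027
    (rowB 3 eng mog cd1q2b cd4q0 pd2 0 true true true .pp 2 0 2 (qsf 1239849684 370763052 0 536870912 2) ndB1q2b ndB4q0 pcB2 Cut.none Ext.none)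

def k0_pp_202_b : ∃ t, chk3 f_pp_202_b t 1 1 1 = true :=
  ⟨(l 5), by decide +kernel⟩

theorem c_pp_202_b : CertB 1239849684 370763052 0 536870912 587336777 62277027 3 eng mog cd1q2b cd4q0 pd2 true true true .pp 2 0 2
    ndB1q2b ndB4q0 pcB2 Cut.none Ext.none :=
  certB0 (fam := true) (s1 := true) (s2 := true) (a := 2) (b := 0) (c := 2) (cn := .pp) (n1 := ndB1q2b) (n2 := ndB4q0) (pc := pcB2) (cut := Cut.none) (xt := Ext.none) (P1 := 1239849684) (W1 := 370763052) (P2 := 0) (W2 := 536870912) (P3 := 587336777) (W3 := 62277027) (N0 := 3) (En := eng) (mo := mog) (C1 := cd1q2b) (C2 := cd4q0) (C3 := pd2)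
    rfl k0_pp_202_b

noncomputable def f_pp_203_a : ℕ → ℕ → ℕ → ℕ → Bool := onCell 0 536870912 0 536870912 587336777 62277027
    (rowB 3 eng mog cd1q2a cd4q0 pd3 0 true true true .up 2 0 3 (qsf 0 536870912 0 536870912 3) ndB1q2a ndB4q0 pcB3 Cut.none Ext.none)

def k0_pp_203_a : ∃ t, chk3 f_pp_203_a t 1 1 1 = true :=
  ⟨(l 5), by decide +kernel⟩

theorem c_pp_203_a : CertB 0 536870912 0 536870912 587336777 62277027 3 eng mog cd1q2a cd4q0 pd3 true true true .up 2 0 3
    ndB1q2a ndB4q0 pcB3 Cut.none Ext.none :=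
  certB0 (fam := true) (s1 := true) (s2 := true) (a := 2) (b := 0) (c := 3) (cn := .up) (n1 := ndB1q2a) (n2 := ndB4q0) (pc := pcB3) (cut := Cut.none) (xt := Ext.none) (P1 := 0) (W1 := 536870912) (P2 := 0) (W2 := 536870912) (P3 := 587336777) (W3 := 62277027) (N0 := 3) (En := eng) (mo := mog) (C1 := cd1q2a) (C2 := cd4q0) (C3 := pd3)
    rfl k0_pp_203_a

noncomputable def f_pp_203_b : ℕ → ℕ → ℕ → ℕ → Bool := onCell 1239849684 370763052 0 536870912 587336777 62277027
    (rowB 3 eng mog cd1q2b cd4q0 pd3 0 true true true .up 2 0 3 (qsf 1239849684 370763052 0 536870912 3) ndB1q2b ndB4q0 pcB3 Cut.none Ext.none)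

def k0_pp_203_b : ∃ t, chk3 f_pp_203_b t 1 1 1 = true :=
  ⟨(l 5), by decide +kernel⟩

theorem c_pp_203_b : CertB 1239849684 370763052 0 536870912 587336777 62277027 3 eng mog cd1q2b cd4q0 pd3 true true true .up 2 0 3
    ndB1q2b ndB4q0 pcB3 Cut.none Ext.none :=
  certB0 (fam := true) (s1 := true) (s2 := true) (a := 2) (b := 0) (c := 3) (cn := .up) (n1 := ndB1q2b) (n2 := ndB4q0) (pc := pcB3) (cut := Cut.none) (xt := Ext.none) (P1 := 1239849684) (W1 := 370763052) (P2 := 0) (W2 := 536870912) (P3 := 587336777) (W3 := 62277027) (N0 := 3) (En := eng) (mo := mog) (C1 := cd1q2b) (C2 := cd4q0) (C3 := pd3)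
    rfl k0_pp_203_b

noncomputable def f_pp_213_a : ℕ → ℕ → ℕ → ℕ → Bool := onCell 0 536870912 536870912 536870912 587336777 62277027
    (rowB 3 eng mog cd1q2a cd4q1 pd3 0 true true true .pnn 2 1 3 (qsf 0 536870912 536870912 536870912 3) ndB1q2a ndB4q1 pcB3 Cut.none Ext.none)

def k0_pp_213_a : ∃ t, chk3 f_pp_213_a t 1 1 1 = true :=
  ⟨(l 4), by decide +kernel⟩

theorem c_pp_213_a : CertB 0 536870912 536870912 536870912 587336777 62277027 3 eng mog cd1q2a cd4q1 pd3 true true true .pnn 2 1 3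
    ndB1q2a ndB4q1 pcB3 Cut.none Ext.none :=
  certB0 (fam := true) (s1 := true) (s2 := true) (a := 2) (b := 1) (c := 3) (cn := .pnn) (n1 := ndB1q2a) (n2 := ndB4q1) (pc := pcB3) (cut := Cut.none) (xt := Ext.none) (P1 := 0) (W1 := 536870912) (P2 := 536870912) (W2 := 536870912) (P3 := 587336777) (W3 := 62277027) (N0 := 3) (En := eng) (mo := mog) (C1 := cd1q2a) (C2 := cd4q1) (C3 := pd3)
    rfl k0_pp_213_a

noncomputable def f_pp_213_b : ℕ → ℕ → ℕ → ℕ → Bool := onCell 1239849684 370763052 536870912 536870912 587336777 62277027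
    (rowB 3 eng mog cd1q2b cd4q1 pd3 0 true true true .pnn 2 1 3 (qsf 1239849684 370763052 536870912 536870912 3) ndB1q2b ndB4q1 pcB3 Cut.none Ext.none)

def k0_pp_213_b : ∃ t, chk3 f_pp_213_b t 1 1 1 = true :=
  ⟨(l 4), by decide +kernel⟩

theorem c_pp_213_b : CertB 1239849684 370763052 536870912 536870912 587336777 62277027 3 eng mog cd1q2b cd4q1 pd3 true true true .pnn 2 1 3
    ndB1q2b ndB4q1 pcB3 Cut.none Ext.none :=
  certB0 (fam := true) (s1 := true) (s2 := true) (a := 2) (b := 1) (c := 3) (cn := .pnn) (n1 := ndB1q2b) (n2 := ndB4q1) (pc := pcB3) (cut := Cut.none) (xt := Ext.none) (P1 := 1239849684) (W1 := 370763052) (P2 := 536870912) (W2 := 536870912) (P3 := 587336777) (W3 := 62277027) (N0 := 3) (En := eng) (mo := mog) (C1 := cd1q2b) (C2 := cd4q1) (C3 := pd3)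
    rfl k0_pp_213_b

noncomputable def f_pp_303 : ℕ → ℕ → ℕ → ℕ → Bool := onCell 1610612736 536870912 0 536870912 587336777 62277027
    (rowB 3 eng mog cd1q3 cd4q0 pd3 0 true true true .npn 3 0 3 (qsf 1610612736 536870912 0 536870912 3) ndB1q3 ndB4q0 pcB3 Cut.none Ext.none)

def k0_pp_303 : ∃ t, chk3 f_pp_303 t 1 1 1 = true :=
  ⟨(l 5), by decide +kernel⟩

theorem c_pp_303 : CertB 1610612736 536870912 0 536870912 587336777 62277027 3 eng mog cd1q3 cd4q0 pd3 true true true .npn 3 0 3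
    ndB1q3 ndB4q0 pcB3 Cut.none Ext.none :=
  certB0 (fam := true) (s1 := true) (s2 := true) (a := 3) (b := 0) (c := 3) (cn := .npn) (n1 := ndB1q3) (n2 := ndB4q0) (pc := pcB3) (cut := Cut.none) (xt := Ext.none) (P1 := 1610612736) (W1 := 536870912) (P2 := 0) (W2 := 536870912) (P3 := 587336777) (W3 := 62277027) (N0 := 3) (En := eng) (mo := mog) (C1 := cd1q3) (C2 := cd4q0) (C3 := pd3)
    rfl k0_pp_303

noncomputable def f_pp_313 : ℕ → ℕ → ℕ → ℕ → Bool := onCell 1610612736 536870912 536870912 536870912 587336777 62277027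
    (rowB 3 eng mog cd1q3 cd4q1 pd3 0 true true true .dn 3 1 3 (qsf 1610612736 536870912 536870912 536870912 3) ndB1q3 ndB4q1 pcB3 Cut.none Ext.none)

def k0_pp_313 : ∃ t, chk3 f_pp_313 t 1 1 1 = true :=
  ⟨(l 4), by decide +kernel⟩

theorem c_pp_313 : CertB 1610612736 536870912 536870912 536870912 587336777 62277027 3 eng mog cd1q3 cd4q1 pd3 true true true .dn 3 1 3
    ndB1q3 ndB4q1 pcB3 Cut.none Ext.none :=
  certB0 (fam := true) (s1 := true) (s2 := true) (a := 3) (b := 1) (c := 3) (cn := .dn) (n1 := ndB1q3) (n2 := ndB4q1) (pc := pcB3) (cut := Cut.none) (xt := Ext.none) (P1 := 1610612736) (W1 := 536870912) (P2 := 536870912) (W2 := 536870912) (P3 := 587336777) (W3 := 62277027) (N0 := 3) (En := eng) (mo := mog) (C1 := cd1q3) (C2 := cd4q1) (C3 := pd3)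
    rfl k0_pp_313

noncomputable def f_pm_001 : ℕ → ℕ → ℕ → ℕ → Bool := onCell 0 536870912 0 536870912 587336777 62277027
    (rowB 3 eng mog cd1q0 cd4q0 pd1 0 true true false .up 0 0 1 (qsf 0 536870912 0 536870912 1) ndB1q0 ndB4q0 pcB1 Cut.none Ext.none)

def k0_pm_001 : ∃ t, chk3 f_pm_001 t 1 1 1 = true :=
  ⟨(a (l 3) (l 3)), by decide +kernel⟩

theorem c_pm_001 : CertB 0 536870912 0 536870912 587336777 62277027 3 eng mog cd1q0 cd4q0 pd1 true true false .up 0 0 1
    ndB1q0 ndB4q0 pcB1 Cut.none Ext.none :=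
  certB0 (fam := true) (s1 := true) (s2 := false) (a := 0) (b := 0) (c := 1) (cn := .up) (n1 := ndB1q0) (n2 := ndB4q0) (pc := pcB1) (cut := Cut.none) (xt := Ext.none) (P1 := 0) (W1 := 536870912) (P2 := 0) (W2 := 536870912) (P3 := 587336777) (W3 := 62277027) (N0 := 3) (En := eng) (mo := mog) (C1 := cd1q0) (C2 := cd4q0) (C3 := pd1)
    rfl k0_pm_001

noncomputable def f_pm_011 : ℕ → ℕ → ℕ → ℕ → Bool := onCell 0 536870912 536870912 536870912 587336777 62277027
    (rowB 3 eng mog cd1q0 cd4q1 pd1 1 true true false .pnn 0 1 1 (qsf 0 536870912 536870912 536870912 1) ndB1q0 ndB4q1 pcB1 Cut.none Ext.none)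

def k0_pm_011 : ∃ t, chk3 f_pm_011 t 1 1 1 = true :=
  ⟨(b (l 3) (l 3)), by decide +kernel⟩

theorem c_pm_011 : CertB 0 536870912 536870912 536870912 587336777 62277027 3 eng mog cd1q0 cd4q1 pd1 true true false .pnn 0 1 1
    ndB1q0 ndB4q1 pcB1 Cut.none Ext.none :=
  certB1 (fam := true) (s1 := true) (s2 := false) (a := 0) (b := 1) (c := 1) (cn := .pnn) (n1 := ndB1q0) (n2 := ndB4q1) (pc := pcB1) (cut := Cut.none) (xt := Ext.none) (P1 := 0) (W1 := 536870912) (P2 := 536870912) (W2 := 536870912) (P3 := 587336777) (W3 := 62277027) (N0 := 3) (En := eng) (mo := mog) (C1 := cd1q0) (C2 := cd4q1) (C3 := pd1)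
    rfl (fun _ => rfl) k0_pm_011

noncomputable def f_pm_012 : ℕ → ℕ → ℕ → ℕ → Bool := onCell 1073741824 536870912 536870912 536870912 587336777 62277027
    (rowB 3 eng mog cd1q0 cd4q1 pd2 2 true true false .pnp 0 1 2 (qsf 0 536870912 536870912 536870912 2) ndB1q0 ndB4q1 pcB2 Cut.none Ext.none)

def k0_pm_012 : ∃ t, chk3 f_pm_012 t 4 1 1 = true :=
  ⟨(a (b (b (l 3) (l 3)) (l 3)) (a (a (b (b (b (l 16374040) (l 16462688)) (b (l 297056937319) (l 3))) (l 3)) (b (b (b (l 2) (b (l 16423616) (l 16434328))) (b (a (l 16454048) (l 16458360)) (a (l 16495696) (l 16471696)))) (a (b (b (l 16530720) (l 3)) (l 3)) (b (b (b (l 16480440) (l 16485504)) (b (l 108078372871) (l 16496512))) (b (b (l 16505320) (l 3)) (l 3)))))) (b (b (b (l 2) (a (l 16438968) (l 16443880))) (a (b (b (l 16454728) (l 16461896)) (a (l 16471360) (l 16468784))) (b (l 16458680) (a (l 16465672) (l 16462888))))) (b (b (a (a (b (l 16477144) (l 16479728)) (l 16472496)) (a (l 16466168) (l 16460552)))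 (a (a (b (l 16481296) (l 16485720)) (b (l 16473304) (l 16475552))) (a (l 16548512) (l 16476312)))) (b (a (b (a (l 16492008) (l 16479680)) (a (l 16500504) (l 16485336))) (a (b (l 16466936) (l 16470616)) (l 16497280))) (a (b (a (l 16510512) (l 16492992)) (a (l 16522184) (b (l 16499600) (l 16504512)))) (b (a (l 16476056) (l 16459352)) (a (b (l 16480792) (l 16484432)) (l 16463824))))))))), by decide +kernel⟩

def k1_pm_012 : ∃ t, chk3 f_pm_012 t 5 1 1 = true :=
  ⟨(b (b (a (a (a (l 16570928) (l 2)) (l 2)) (l 2)) (a (a (a (b (l 16460328) (l 16460264)) (a (b (l 16466400) (l 16460872)) (a (b (l 16473520) (l 16464472)) (b (a (l 16481056) (l 16489536)) (a (l 16469448) (l 16475760)))))) (b (l 16496032) (l 16478152))) (b (l 16508992) (l 16527712)))) (a (a (a (b (b (l 16516216) (a (b (l 16448472) (l 16445576)) (l 16439160))) (b (a (l 16484888) (l 16473472)) (a (b (l 16443432) (l 16445688)) (b (l 16428488) (l 16428256))))) (b (a (b (l 16448608) (l 16516616))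 (a (b (l 16448944) (l 16429616)) (b (a (l 16451584) (l 16455728)) (a (l 16429920) (b (l 16436984) (l 16426672)))))) (a (b (l 16420928) (b (l 16414264) (l 16453552))) (b (a (l 16414216) (a (l 16412104) (b (l 16416784) (l 16407032)))) (a (b (l 16404368) (l 16399664)) (a (b (l 16400144) (l 16394048)) (b (c (l 16412176) (l 16384456)) (b (l 16392352) (l 16451792))))))))) (b (b (l 16451656) (b (l 16427728) (l 16413816))) (b (b (l 16400040) (l 16386008)) (b (l 16372272) (l 16422680))))) (b (b (a (l 16448400) (l 16451384)) (b (l 16413136) (l 16390608))) (b (b (l 16367184) (l 16363400)) (b (a (l 16332328) (l 16304096)) (a (l 16310560) (l 16273984))))))), by decide +kernel⟩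

def k2_pm_012 : ∃ t, chk3 f_pm_012 t 3 1 1 = true :=
  ⟨(b (a (b (l 2) (a (b (l 2) (l 16505984)) (l 2))) (l 2)) (a (b (a (b (a (l 16459320) (l 16471568)) (a (l 16403584) (l 16416024))) (b (l 16519608) (a (l 16433744) (l 16454704)))) (a (b (a (l 16341208) (l 16347384)) (b (a (l 16287768) (l 16284952)) (a (l 16250048) (l 16239912)))) (b (a (b (l 16385232) (l 16343288)) (l 16388632)) (b (l 16305376) (a (l 16243712) (l 16261616)))))) (b (a (b (l 2) (a (l 16476480) (l 2))) (l 2)) (a (b (a (l 16411168) (l 16426384)) (a (b (l 16345248) (l 16287504)) (l 16336536))) (b (l 16465952) (a (l 16359872) (l 16389944))))))), by decide +kernel⟩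

theorem s3_pm_012 : ∃ t, chk3 f_pm_012 t 2 1 1 = true := ex3_a k0_pm_012 k1_pm_012

theorem s4_pm_012 : ∃ t, chk3 f_pm_012 t 1 1 1 = true := ex3_a s3_pm_012 k2_pm_012

theorem c_pm_012 : CertB 0 536870912 536870912 536870912 587336777 62277027 3 eng mog cd1q0 cd4q1 pd2 true true false .pnp 0 1 2
    ndB1q0 ndB4q1 pcB2 Cut.none Ext.none :=
  certB2 (fam := true) (s1 := true) (s2 := false) (a := 0) (b := 1) (c := 2) (cn := .pnp) (n1 := ndB1q0) (n2 := ndB4q1) (pc := pcB2) (cut := Cut.none) (xt := Ext.none) (P1 := 0) (W1 := 536870912) (P2 := 536870912) (W2 := 536870912) (P3 := 587336777) (W3 := 62277027) (N0 := 3) (En := eng) (mo := mog) (C1 := cd1q0) (C2 := cd4q1) (C3 := pd2)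
    rfl (fun _ => rfl) s4_pm_012

noncomputable def cut_pm_022_a : Cut := Cut.of [[⟨0, 0, 0, 67108864⟩, ⟨1, 1, 0, 67108864⟩, ⟨2, 1, 0, 67108864⟩]]

noncomputable def f_pm_022_a : ℕ → ℕ → ℕ → ℕ → Bool := onCell 1073741824 536870912 0 536870912 587336777 62277027
    (rowB 3 eng mog cd1q0 cd4q2a pd2 2 true true false .pp 0 2 2 (qsf 0 536870912 0 536870912 2) ndB1q0 ndB4q2a pcB2 cut_pm_022_a Ext.none)

def k0_pm_022_a : ∃ t, chk3 f_pm_022_a t 2 4 1 = true :=
  ⟨(a (l 1) (a (a (a (l 1) (a (b (l 1) (b (l 1) (c (l 60699406695) (l 16455840)))) (a (b (l 1) (c (b (l 16470760) (l 16475776)) (l 50498780087))) (b (a (b (c (l 16465976) (l 1341673292807)) (c (l 16467448) (l 16444768))) (a (a (a (b (c (l 16466088) (l 16442440)) (l 16456136)) (a (b (c (l 16466136) (l 16442424)) (l 16456136)) (b (c (b (l 16466040) (l 16466296)) (b (c (l 16448008) (l 16436080)) (l 16442680))) (c (l 16467624) (l 16444656))))) (b (c (l 16466200) (l 16442408)) (l 16456144))) (b (c (l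 16466200) (l 16442464)) (l 16456144)))) (a (c (b (l 16470672) (l 16475536)) (b (l 16449016) (l 16455080))) (a (b (a (a (l 16459848) (a (l 16459848) (l 16459840))) (l 16459832)) (c (l 16517504) (l 16454808))) (c (l 16473208) (l 16451928)))))))) (a (a (b (b (c (l 16466200) (l 16442760)) (c (l 16467400) (l 16444808))) (c (l 16472712) (l 16451736))) (b (b (l 16454672) (l 16456008)) (b (l 16459104) (l 16463848)))) (b (b (l 16455168) (l 16456024)) (l 16460800)))) (a (b (a (l 16456368) (l 16457232)) (l 16459720)) (b (l 16458872) (l 16459064))))), by decide +kernel⟩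

def k1_pm_022_a : ∃ t, chk3 f_pm_022_a t 2 5 1 = true :=
  ⟨(b (a (l 1) (a (a (a (a (l 1) (b (c (l 16484648) (l 16465048)) (c (l 83248006503) (l 16475440)))) (a (b (c (l 120292089591) (l 16464120)) (c (l 16491656) (l 16474024))) (a (b (c (l 16482328) (l 16463328)) (l 16481752)) (a (b (l 16472504) (l 16481104)) (b (c (l 16481768) (l 16462424)) (l 16522608)))))) (a (b (l 16470808) (l 16478744)) (l 16472016))) (a (l 16468312) (l 16464576)))) (a (a (l 1) (a (l 1) (a (l 1) (b (l 1) (a (l 1) (c (l 16531248) (l 16505336))))))) (a (a (a (c (b (a (l 80026803415) (l 16503656)) (a (l 16517928) (l 16515024))) (b (l 111165300535) (l 148209419303))) (a (b (l 16514544) (l 16505352)) (a (b (l 16491896) (l 16503248)) (a (l 16517784) (b (l 16490464) (l 16501456)))))) (a (b (l 16487968) (l 16498336)) (l 16488368))) (a (l 16481576) (l 16474616))))), by decide +kernel⟩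

def k2_pm_022_a : ∃ t, chk3 f_pm_022_a t 4 3 1 = true :=
  ⟨(a (b (l 1) (a (b (l 1) (l 6)) (a (b (b (l 1) (l 6)) (l 6)) (a (b (b (l 1) (l 6)) (l 6)) (b (b (b (l 1) (a (l 16644816) (l 60699716279))) (b (a (l 6) (l 16654112)) (l 16667504))) (a (l 6) (b (b (l 16677984) (l 16689880)) (b (l 16698360) (l 16705080))))))))) (b (a (b (l 1) (a (b (l 1) (a (l 1) (b (l 16600272) (l 72510816903)))) (b (a (l 16601696) (b (l 16571888) (l 16581656))) (a (b (l 69289562935) (l 16606456)) (b (l 16591616) (l 16601712)))))) (b (a (b (a (l 1) (l 16534000)) (a (l 38150974711) (b (l 16546528) (l 16555240)))) (b (a (l 83784960743) (b (l 16524128) (l 16531728))) (a (l 16547360) (l 16543656)))) (a (b (a (b (l 16568080) (l 16577512)) (l 16568744)) (a (l 16592064) (l 16587240))) (b (l 16583288) (l 16579768))))) (b (a (b (a (a (b (a (l 16628112) (l 16625704)) (a (l 16639688) (l 16637080))) (b (l 16622040) (l 16633128))) (b (l 16635472) (l 16625016))) (a (b (a (l 16649936) (l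 16644288)) (a (l 16661552) (l 16655488))) (b (l 16635584) (l 16646168)))) (b (a (b (l 16604032) (l 16613776)) (l 16576632)) (a (l 16628504) (l 16615496)))) (b (a (a (a (b (l 16673184) (l 16684744)) (l 16672352)) (l 16703392)) (a (l 16666872) (l 16651896))) (a (b (a (c (l 16688544) (l 16687688)) (a (l 16675776) (l 16667816))) (a (b (l 16693016) (l 16717256)) (a (l 16682416) (l 16674424)))) (a (b (l 16656128) (a (l 16666544) (l 16658688))) (b (a (l 16644696) (l 16637152)) (a (l 16650848) (l 16643160))))))))), by decide +kernel⟩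

def k3_pm_022_a : ∃ t, chk3 f_pm_022_a t 5 3 1 = true :=
  ⟨(a (b (a (a (b (b (a (l 16524816) (l 16521552)) (l 16537896)) (b (l 16553392) (l 16569440))) (a (b (b (l 16518208) (l 16531968)) (l 16575248)) (b (a (l 16522552) (a (l 16521136) (l 16562120))) (a (l 16550504) (a (l 16548592) (l 16589248)))))) (b (a (l 16516072) (l 16508760)) (a (l 16583704) (l 16553224)))) (a (a (b (b (l 16585776) (l 16602048)) (b (b (l 16612936) (l 16619760)) (b (l 16626200) (a (l 16635744) (l 16628576))))) (b (a (l 16626680) (a (l 16579968) (a (l 16577608) (b (l 16568296) (l 16582888))))) (a (b (l 16648056) (b (l 16615736) (l 16621616))) (a (b (l 16601120) (b (l 16610664) (l 16616504))) (b (a (l 16598648) (c (l 16598648) (l 16595456))) (a (b (l 16608160) (l 16613976)) (a (a (a (l 16610248) (a (l 16610088) (l 16630952))) (l 16609712)) (l 16609080)))))))) (a (b (l 16645304) (b (l 16652600) (b (l 16599040) (a (l 16608064) (l 16601496))))) (b (l 16556968) (b (l 16577032)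 (b (l 16586144) (l 16591720))))))) (a (b (b (l 16499000) (b (l 16513720) (l 16524184))) (b (l 16559528) (b (l 16558368) (b (l 16567152) (a (l 16578808) (l 16566496)))))) (b (b (l 16487992) (l 16502288)) (b (l 16536792) (b (l 16556232) (b (l 16544224) (l 16549848))))))), by decide +kernel⟩

def k4_pm_022_a : ∃ t, chk3 f_pm_022_a t 3 1 1 = true :=
  ⟨(b (a (a (b (b (l 16466280) (l 16462736)) (b (l 16463392) (l 16466880))) (b (a (l 16471504) (l 16478936)) (a (l 16482024) (l 16460520)))) (b (a (l 16489544) (l 16499504)) (a (l 16456352) (l 16442624)))) (a (b (a (b (a (l 16477136) (l 16465744)) (l 16495944)) (b (l 16448200) (l 16433456))) (b (a (a (l 16496240) (l 16480536)) (a (l 16467536) (l 16452984))) (a (b (l 16633224) (a (l 16569592) (l 16510112))) (a (b (l 16484784) (l 16557480)) (b (l 16468896) (l 16477832)))))) (b (a (l 16551344) (l 16445520)) (a (b (l 16461136) (a (b (l 16457048) (l 16465424)) (l 16457408))) (b (l 16436776) (b (l 16450104) (l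 16457856))))))), by decide +kernel⟩

theorem s5_pm_022_a : ∃ t, chk3 f_pm_022_a t 2 3 1 = true := ex3_a k2_pm_022_a k3_pm_022_a

theorem s6_pm_022_a : ∃ t, chk3 f_pm_022_a t 2 2 1 = true := ex3_b k0_pm_022_a k1_pm_022_a

theorem s7_pm_022_a : ∃ t, chk3 f_pm_022_a t 2 1 1 = true := ex3_b s6_pm_022_a s5_pm_022_a

theorem s8_pm_022_a : ∃ t, chk3 f_pm_022_a t 1 1 1 = true := ex3_a s7_pm_022_a k4_pm_022_a

theorem c_pm_022_a : CertB 0 536870912 0 536870912 587336777 62277027 3 eng mog cd1q0 cd4q2a pd2 true true false .pp 0 2 2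
    ndB1q0 ndB4q2a pcB2 cut_pm_022_a Ext.none :=
  certB2 (fam := true) (s1 := true) (s2 := false) (a := 0) (b := 2) (c := 2) (cn := .pp) (n1 := ndB1q0) (n2 := ndB4q2a) (pc := pcB2) (cut := cut_pm_022_a) (xt := Ext.none) (P1 := 0) (W1 := 536870912) (P2 := 0) (W2 := 536870912) (P3 := 587336777) (W3 := 62277027) (N0 := 3) (En := eng) (mo := mog) (C1 := cd1q0) (C2 := cd4q2a) (C3 := pd2)
    rfl (fun _ => rfl) s8_pm_022_a

noncomputable def cut_pm_022_b : Cut := Cut.of [[⟨0, 0, 0, 67108864⟩, ⟨1, 1, 0, 67108864⟩, ⟨2, 1, 0, 67108864⟩]]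

noncomputable def f_pm_022_b : ℕ → ℕ → ℕ → ℕ → Bool := onCell 0 536870912 1239849684 370763052 587336777 62277027
    (rowB 3 eng mog cd1q0 cd4q2b pd2 0 true true false .pp 0 2 2 (qsf 0 536870912 1239849684 370763052 2) ndB1q0 ndB4q2b pcB2 cut_pm_022_b Ext.none)

def k0_pm_022_b : ∃ t, chk3 f_pm_022_b t 2 2 1 = true :=
  ⟨(a (b (a (b (a (a (b (a (b (b (c (l 16461936) (c (l 16443616) (l 16431424))) (c (l 16453736) (a (l 16428000) (l 16428504)))) (b (a (c (l 16445608) (l 16418864)) (l 16432928)) (l 16403624))) (b (c (l 16458424) (b (l 16438216) (l 16429144))) (l 16430144))) (b (c (l 16429864) (l 16398696)) (a (c (l 16416184) (l 16381904)) (l 16402256)))) (b (c (l 16453256) (l 16426256)) (c (l 16429440) (l 16395936)))) (b (a (l 16442552) (l 16445416)) (a (l 16418368) (l 16423920)))) (a (a (b (c (a (b (l 16404976) (l 16394968)) (l 16403984)) (a (l 16360784) (l 16364712))) (a (c (l 16403096) (l 16337120)) (l 16365232))) (b (l 16390672) (l 16373104)))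 (b (l 16402760) (l 16388728)))) (b (a (b (l 16449944) (l 16432312)) (l 16450856)) (a (b (l 16418704) (l 16409016)) (l 16433760)))) (a (a (b (a (b (a (c (l 16368960) (l 16318384)) (l 16350488)) (a (c (l 16360784) (l 16304568)) (l 16340640))) (b (l 16360072) (l 16351768))) (a (b (a (c (l 16358888) (l 16295960)) (l 16336288)) (a (b (l 16326816) (l 16327624)) (l 16337040))) (b (l 16348912) (l 16352960)))) (b (b (l 16378888) (l 16373880)) (a (l 16370080) (l 16390048)))) (b (a (l 16446288) (l 16435288)) (a (l 16419072) (l 16457288))))) (b (a (b (a (l 16463832) (l 16477712)) (a (l 16458224) (l 16482536))) (b (l 16500552) (l 16518264))) (a (b (l 16484216) (l 16515264)) (b (l 16544992) (l 16584136))))), by decide +kernel⟩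

def k1_pm_022_b : ∃ t, chk3 f_pm_022_b t 2 3 1 = true :=
  ⟨(a (b (a (b (a (a (b (c (l 16379080) (l 16301088)) (l 16356232)) (l 16372768)) (l 16408728)) (a (b (a (l 16375208) (l 16402408)) (l 16404472)) (l 16449904))) (b (a (l 16453928) (l 16497664)) (a (l 16500264) (l 16545320)))) (a (b (a (b (l 16422920) (l 16444720)) (l 16489712)) (a (l 16481232) (l 16536744))) (b (l 16562504) (l 2)))) (b (a (b (l 16561048) (l 16608232)) (l 2)) (l 2))), by decide +kernel⟩

def k2_pm_022_b : ∃ t, chk3 f_pm_022_b t 3 1 1 = true :=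
  ⟨(b (a (b (a (b (l 16530352) (l 16564816)) (b (l 16557448) (l 2))) (a (b (l 16601368) (l 2)) (l 2))) (l 2)) (l 2)), by decide +kernel⟩

theorem s3_pm_022_b : ∃ t, chk3 f_pm_022_b t 2 1 1 = true := ex3_b k0_pm_022_b k1_pm_022_b

theorem s4_pm_022_b : ∃ t, chk3 f_pm_022_b t 1 1 1 = true := ex3_a s3_pm_022_b k2_pm_022_b

theorem c_pm_022_b : CertB 0 536870912 1239849684 370763052 587336777 62277027 3 eng mog cd1q0 cd4q2b pd2 true true false .pp 0 2 2
    ndB1q0 ndB4q2b pcB2 cut_pm_022_b Ext.none :=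
  certB0 (fam := true) (s1 := true) (s2 := false) (a := 0) (b := 2) (c := 2) (cn := .pp) (n1 := ndB1q0) (n2 := ndB4q2b) (pc := pcB2) (cut := cut_pm_022_b) (xt := Ext.none) (P1 := 0) (W1 := 536870912) (P2 := 1239849684) (W2 := 370763052) (P3 := 587336777) (W3 := 62277027) (N0 := 3) (En := eng) (mo := mog) (C1 := cd1q0) (C2 := cd4q2b) (C3 := pd2)
    rfl s4_pm_022_b

noncomputable def f_pm_023_a : ℕ → ℕ → ℕ → ℕ → Bool := onCell 1610612736 536870912 0 536870912 587336777 62277027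
    (rowB 3 eng mog cd1q0 cd4q2a pd3 2 true true false .up 0 2 3 (qsf 0 536870912 0 536870912 3) ndB1q0 ndB4q2a pcB3 Cut.none Ext.none)

def k0_pm_023_a : ∃ t, chk3 f_pm_023_a t 1 1 1 = true :=
  ⟨(a (b (a (a (a (b (l 16631568) (a (l 16435248) (l 16445304))) (l 16478328)) (a (l 16498312) (l 16519712))) (a (a (b (l 16581544) (l 16579616)) (l 16629344)) (l 2))) (b (a (a (a (a (l 16475128) (l 16588648)) (l 16515072)) (a (l 16533880) (l 16557752))) (l 2)) (a (a (a (b (a (l 16474528) (l 16514752)) (a (b (l 16474112) (l 16488736)) (l 232565384455))) (l 228270432247)) (a (l 232028523735) (l 2))) (l 2)))) (l 2)), by decide +kernel⟩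

theorem c_pm_023_a : CertB 0 536870912 0 536870912 587336777 62277027 3 eng mog cd1q0 cd4q2a pd3 true true false .up 0 2 3
    ndB1q0 ndB4q2a pcB3 Cut.none Ext.none :=
  certB2 (fam := true) (s1 := true) (s2 := false) (a := 0) (b := 2) (c := 3) (cn := .up) (n1 := ndB1q0) (n2 := ndB4q2a) (pc := pcB3) (cut := Cut.none) (xt := Ext.none) (P1 := 0) (W1 := 536870912) (P2 := 0) (W2 := 536870912) (P3 := 587336777) (W3 := 62277027) (N0 := 3) (En := eng) (mo := mog) (C1 := cd1q0) (C2 := cd4q2a) (C3 := pd3)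
    rfl (fun _ => rfl) k0_pm_023_a

noncomputable def f_pm_023_b : ℕ → ℕ → ℕ → ℕ → Bool := onCell 1610612736 536870912 1239849684 370763052 587336777 62277027
    (rowB 3 eng mog cd1q0 cd4q2b pd3 2 true true false .up 0 2 3 (qsf 0 536870912 1239849684 370763052 3) ndB1q0 ndB4q2b pcB3 Cut.none Ext.none)

def k0_pm_023_b : ∃ t, chk3 f_pm_023_b t 1 1 1 = true :=
  ⟨(b (b (a (a (a (a (a (l 16570792) (l 16542144)) (l 16532256)) (a (l 16537848) (l 16539344))) (a (a (l 16573424) (l 16621648)) (l 16672328))) (l 2)) (a (a (a (a (a (l 16576504) (l 16561032)) (l 16571856)) (l 16693568)) (a (a (l 16640800) (l 16655776)) (l 16682360))) (a (a (l 16730392) (a (l 16757352) (l 2))) (l 2)))) (a (a (a (a (b (a (l 16571672) (l 16544552)) (a (b (l 16549160) (l 16529360)) (l 16570640))) (b (l 16559736) (l 16499896))) (b (a (l 16595080) (l 16628080)) (a (l 16541368) (l 16581016)))) (a (b (a (l 16656288) (l 16681304)) (a (l 16614200) (l 16645896))) (b (l 16720960) (l 16697232))))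 (a (a (b (l 16765776) (l 16759176)) (a (l 16795648) (l 16793264))) (a (a (l 16778480) (l 4)) (l 4))))), by decide +kernel⟩

theorem c_pm_023_b : CertB 0 536870912 1239849684 370763052 587336777 62277027 3 eng mog cd1q0 cd4q2b pd3 true true false .up 0 2 3
    ndB1q0 ndB4q2b pcB3 Cut.none Ext.none :=
  certB2 (fam := true) (s1 := true) (s2 := false) (a := 0) (b := 2) (c := 3) (cn := .up) (n1 := ndB1q0) (n2 := ndB4q2b) (pc := pcB3) (cut := Cut.none) (xt := Ext.none) (P1 := 0) (W1 := 536870912) (P2 := 1239849684) (W2 := 370763052) (P3 := 587336777) (W3 := 62277027) (N0 := 3) (En := eng) (mo := mog) (C1 := cd1q0) (C2 := cd4q2b) (C3 := pd3)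
    rfl (fun _ => rfl) k0_pm_023_b

noncomputable def f_pm_033 : ℕ → ℕ → ℕ → ℕ → Bool := onCell 1610612736 536870912 1610612736 536870912 587336777 62277027
    (rowB 3 eng mog cd1q0 cd4q3 pd3 2 true true false .pnn 0 3 3 (qsf 0 536870912 1610612736 536870912 3) ndB1q0 ndB4q3 pcB3 Cut.none Ext.none)

def k0_pm_033 : ∃ t, chk3 f_pm_033 t 1 1 1 = true :=
  ⟨(a (b (a (b (a (a (b (a (l 201896319303) (l 111165344455)) (l 1)) (b (l 16353288) (l 375305590103))) (a (l 70363096935) (l 16418008))) (a (l 1) (b (l 381210995527) (l 1)))) (a (b (a (l 16459760) (l 16498256)) (a (b (l 16390256) (l 1)) (l 16410944))) (b (b (l 16584808) (l 16541136)) (a (l 16458256) (l 16503208))))) (a (l 1) (b (a (l 1) (b (l 16429024) (l 1))) (l 1)))) (b (a (a (b (a (l 16623400) (l 16660240)) (a (l 16542872) (l 16578080))) (b (a (l 16691248) (l 16712336)) (a (l 16606632) (l 4)))) (l 4)) (a (b (a (a (l 16477608) (l 16510984)) (l 4)) (a (l 1) (b (l 4) (l 1)))) (l 4)))), by decide +kernel⟩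

theorem c_pm_033 : CertB 0 536870912 1610612736 536870912 587336777 62277027 3 eng mog cd1q0 cd4q3 pd3 true true false .pnn 0 3 3
    ndB1q0 ndB4q3 pcB3 Cut.none Ext.none :=
  certB2 (fam := true) (s1 := true) (s2 := false) (a := 0) (b := 3) (c := 3) (cn := .pnn) (n1 := ndB1q0) (n2 := ndB4q3) (pc := pcB3) (cut := Cut.none) (xt := Ext.none) (P1 := 0) (W1 := 536870912) (P2 := 1610612736) (W2 := 536870912) (P3 := 587336777) (W3 := 62277027) (N0 := 3) (En := eng) (mo := mog) (C1 := cd1q0) (C2 := cd4q3) (C3 := pd3)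
    rfl (fun _ => rfl) k0_pm_033

noncomputable def f_pm_101 : ℕ → ℕ → ℕ → ℕ → Bool := onCell 536870912 536870912 0 536870912 587336777 62277027
    (rowB 3 eng mog cd1q1 cd4q0 pd1 2 true true false .npn 1 0 1 (qsf 536870912 536870912 0 536870912 1) ndB1q1 ndB4q0 pcB1 Cut.none Ext.none)

def k0_pm_101 : ∃ t, chk3 f_pm_101 t 1 1 1 = true :=
  ⟨(a (l 3) (a (l 3) (b (l 3) (l 3)))), by decide +kernel⟩

theorem c_pm_101 : CertB 536870912 536870912 0 536870912 587336777 62277027 3 eng mog cd1q1 cd4q0 pd1 true true false .npn 1 0 1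
    ndB1q1 ndB4q0 pcB1 Cut.none Ext.none :=
  certB2 (fam := true) (s1 := true) (s2 := false) (a := 1) (b := 0) (c := 1) (cn := .npn) (n1 := ndB1q1) (n2 := ndB4q0) (pc := pcB1) (cut := Cut.none) (xt := Ext.none) (P1 := 536870912) (W1 := 536870912) (P2 := 0) (W2 := 536870912) (P3 := 587336777) (W3 := 62277027) (N0 := 3) (En := eng) (mo := mog) (C1 := cd1q1) (C2 := cd4q0) (C3 := pd1)
    rfl (fun _ => rfl) k0_pm_101

noncomputable def f_pm_102 : ℕ → ℕ → ℕ → ℕ → Bool := onCell 536870912 536870912 1073741824 536870912 587336777 62277027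
    (rowB 3 eng mog cd1q1 cd4q0 pd2 1 true true false .npp 1 0 2 (qsf 536870912 536870912 0 536870912 2) ndB1q1 ndB4q0 pcB2 Cut.none Ext.none)

def k0_pm_102 : ∃ t, chk3 f_pm_102 t 1 4 1 = true :=
  ⟨(b (b (a (l 3) (a (l 3) (a (l 3) (b (l 3) (b (l 3) (a (l 3) (a (l 16755936) (a (l 16746896) (l 91972675303))))))))) (b (a (l 3) (a (a (a (l 3) (l 16764616)) (l 179482893847)) (a (a (l 16816456) (l 16830656)) (a (b (l 137606815543) (l 16748592)) (a (b (l 16744960) (l 16735032)) (b (a (l 16735352) (b (l 16731840) (l 16726520))) (l 16721736))))))) (a (a (a (l 3) (l 16632128)) (a (l 116668487527) (a (l 16687912) (l 16704800)))) (a (a (a (l 16781656) (l 16833272)) (b (l 16736176) (l 16721728))) (a (a (l 16725656) (l 16728184)) (a (l 16737520) (a (l 16719896) (l 16705728)))))))) (a (b (a (a (b (l 16628568) (l 2)) (b (l 16606224) (l 16585536))) (a (b (l 16605848) (l 16603280)) (b (l 16684904) (l 16636056)))) (a (b (l 16718008) (l 16581440)) (a (l 16574720)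 (a (l 16596248) (l 16613208))))) (a (b (a (b (a (l 16687208) (l 16699176)) (l 16667640)) (b (l 16702864) (l 16683336))) (b (a (l 16647232) (l 16672424)) (a (l 16633880) (l 16671832)))) (a (b (b (a (l 16708640) (l 16730064)) (l 16720728)) (a (l 16711392) (l 16708576))) (b (a (b (l 16721360) (l 16706112)) (a (b (l 16701048) (l 16683912)) (l 16676392))) (a (l 16686248) (a (l 16661768) (l 16643616)))))))), by decide +kernel⟩

def k1_pm_102 : ∃ t, chk3 f_pm_102 t 1 5 1 = true :=
  ⟨(a (b (b (b (a (l 16573200) (a (l 16557208) (l 16588608))) (a (l 2) (b (l 16570896) (a (l 16559240) (l 16592040))))) (a (l 2) (l 16556496))) (a (l 2) (l 16645176))) (a (b (b (b (a (l 16627600) (l 16684608)) (b (a (l 16627448) (l 16689912)) (a (l 16642464) (l 16696416)))) (a (l 16659688) (l 16697896))) (a (l 16691400) (l 16704192))) (b (b (a (b (l 16702920) (b (l 16698488) (b (l 16696520) (l 16695392)))) (b (a (l 16670288) (l 16634512)) (b (l 16646704) (a (l 16659480) (l 16622528)))))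 (a (l 16690312) (a (l 16651968) (l 16613912)))) (a (l 16683768) (a (l 16642176) (l 16603008)))))), by decide +kernel⟩

def k2_pm_102 : ∃ t, chk3 f_pm_102 t 1 3 1 = true :=
  ⟨(a (b (a (l 2) (b (l 16699344) (l 2))) (l 2)) (b (a (b (a (l 16721136) (l 16719336)) (l 16750504)) (b (a (l 16692600) (l 16633120)) (a (l 16717296) (l 16664392)))) (a (l 16949736) (b (a (l 16744472) (l 16695120)) (l 16751976))))), by decide +kernel⟩

theorem s3_pm_102 : ∃ t, chk3 f_pm_102 t 1 2 1 = true := ex3_b k0_pm_102 k1_pm_102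

theorem s4_pm_102 : ∃ t, chk3 f_pm_102 t 1 1 1 = true := ex3_b s3_pm_102 k2_pm_102

theorem c_pm_102 : CertB 536870912 536870912 0 536870912 587336777 62277027 3 eng mog cd1q1 cd4q0 pd2 true true false .npp 1 0 2
    ndB1q1 ndB4q0 pcB2 Cut.none Ext.none :=
  certB1 (fam := true) (s1 := true) (s2 := false) (a := 1) (b := 0) (c := 2) (cn := .npp) (n1 := ndB1q1) (n2 := ndB4q0) (pc := pcB2) (cut := Cut.none) (xt := Ext.none) (P1 := 536870912) (W1 := 536870912) (P2 := 0) (W2 := 536870912) (P3 := 587336777) (W3 := 62277027) (N0 := 3) (En := eng) (mo := mog) (C1 := cd1q1) (C2 := cd4q0) (C3 := pd2)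
    rfl (fun _ => rfl) s4_pm_102

noncomputable def f_pm_112 : ℕ → ℕ → ℕ → ℕ → Bool := onCell 536870912 536870912 1073741824 536870912 587336777 62277027
    (rowB 3 eng mog cd1q1 cd4q1 pd2 1 true true false .dn 1 1 2 (qsf 536870912 536870912 536870912 536870912 2) ndB1q1 ndB4q1 pcB2 Cut.none Ext.none)

def k0_pm_112 : ∃ t, chk3 f_pm_112 t 1 1 1 = true :=
  ⟨(a (b (b (b (a (a (l 3) (a (l 3) (l 1))) (l 1)) (b (a (b (a (l 16458536) (a (l 16401776) (l 1))) (a (l 16439224) (l 100964794919))) (l 1)) (a (b (a (l 16453896) (l 16446816)) (a (l 16462944) (l 16461008))) (a (l 333967002183) (l 1))))) (b (b (b (a (a (l 16472840) (l 16477184)) (l 252899634231)) (b (a (l 16569224) (l 68216112775)) (a (b (l 16494624) (b (l 16523456) (a (l 16506632) (l 16516720)))) (a (l 16532104) (l 1))))) (a (a (l 16511696) (l 16525504)) (l 16618424))) (a (a (l 16512656) (l 16539864)) (l 16584648)))) (b (a (b (a (l 16501136) (l 16545344)) (a (b (l 16492328) (l 16490344)) (l 16552080)))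 (b (l 16611200) (l 16641104))) (a (a (b (b (l 16486248) (l 16474872)) (l 16461680)) (b (b (l 16558120) (l 16556248)) (l 16564240))) (a (b (l 16639040) (l 16673840)) (l 16750088))))) (b (b (l 1) (a (b (l 1) (l 369937844135)) (l 1))) (b (a (b (l 16727344) (l 16738440)) (b (l 1) (l 389802291847))) (a (b (l 16814528) (l 16930496)) (b (l 16850656) (l 16963992)))))), by decide +kernel⟩

theorem c_pm_112 : CertB 536870912 536870912 536870912 536870912 587336777 62277027 3 eng mog cd1q1 cd4q1 pd2 true true false .dn 1 1 2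
    ndB1q1 ndB4q1 pcB2 Cut.none Ext.none :=
  certB1 (fam := true) (s1 := true) (s2 := false) (a := 1) (b := 1) (c := 2) (cn := .dn) (n1 := ndB1q1) (n2 := ndB4q1) (pc := pcB2) (cut := Cut.none) (xt := Ext.none) (P1 := 536870912) (W1 := 536870912) (P2 := 536870912) (W2 := 536870912) (P3 := 587336777) (W3 := 62277027) (N0 := 3) (En := eng) (mo := mog) (C1 := cd1q1) (C2 := cd4q1) (C3 := pd2)
    rfl (fun _ => rfl) k0_pm_112

noncomputable def f_pm_113 : ℕ → ℕ → ℕ → ℕ → Bool := onCell 1610612736 536870912 536870912 536870912 587336777 62277027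
    (rowB 3 eng mog cd1q1 cd4q1 pd3 2 true true false .nn 1 1 3 (qsf 536870912 536870912 536870912 536870912 3) ndB1q1 ndB4q1 pcB3 Cut.none Ext.none)

def k0_pm_113 : ∃ t, chk3 f_pm_113 t 1 1 1 = true :=
  ⟨(b (a (a (a (b (a (l 17280728) (l 17116232)) (a (b (l 16996960) (l 16876904)) (l 16909768))) (a (b (l 17076696) (l 16938872)) (b (l 17036176) (l 16951384)))) (a (b (b (l 2) (a (l 17018264) (l 2))) (a (l 16937960) (l 16928752))) (b (l 2) (a (l 16906472) (l 16857976))))) (a (a (b (l 2) (b (l 2) (l 16611432))) (l 2)) (l 2))) (b (a (a (a (a (b (l 16777752) (a (l 16694696) (l 16660648))) (b (l 16766488) (l 16677248))) (a (b (l 16801144) (l 16716816)) (b (l 16830096) (l 16749448)))) (a (a (b (l 16843456) (l 16770624)) (l 16812288)) (a (b (l 16847352) (l 16787944)) (l 16816784)))) (a (a (a (l 16830400) (l 16790272)) (a (l 16753304) (l 16847112))) (l 4))) (a (a (a (a (a (b (l 16555872) (l 16414472)) (b (l 16552656) (l 16414296))) (b (l 16581456) (l 16452056)))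 (a (b (l 16630296) (l 16520952)) (a (l 16616640) (l 16639968)))) (a (a (a (l 16658096) (l 16670200)) (b (l 16719368) (l 16648288))) (b (l 16739488) (b (l 16696992) (l 16664304))))) (a (a (a (l 16736192) (l 16746712)) (a (l 16746856) (l 16736552))) (a (a (l 16711704) (l 4)) (l 4)))))), by decide +kernel⟩

theorem c_pm_113 : CertB 536870912 536870912 536870912 536870912 587336777 62277027 3 eng mog cd1q1 cd4q1 pd3 true true false .nn 1 1 3
    ndB1q1 ndB4q1 pcB3 Cut.none Ext.none :=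
  certB2 (fam := true) (s1 := true) (s2 := false) (a := 1) (b := 1) (c := 3) (cn := .nn) (n1 := ndB1q1) (n2 := ndB4q1) (pc := pcB3) (cut := Cut.none) (xt := Ext.none) (P1 := 536870912) (W1 := 536870912) (P2 := 536870912) (W2 := 536870912) (P3 := 587336777) (W3 := 62277027) (N0 := 3) (En := eng) (mo := mog) (C1 := cd1q1) (C2 := cd4q1) (C3 := pd3)
    rfl (fun _ => rfl) k0_pm_113

noncomputable def xt_pm_123_a : Ext := extD2 3 ⟨7, 3, 3, 10, 1815, 1000, 17, 20, 37, 100, 3, 16⟩ eng cd1q1 cd4q2a pd3 true true false .npn 1 2 3 rfl ndB1q1 ndB4q2a pcB3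

noncomputable def f_pm_123_a : ℕ → ℕ → ℕ → ℕ → Bool := onCell 1610612736 536870912 0 536870912 587336777 62277027
    (rowB 3 eng mog cd1q1 cd4q2a pd3 2 true true false .npn 1 2 3 (qsf 536870912 536870912 0 536870912 3) ndB1q1 ndB4q2a pcB3 Cut.none xt_pm_123_a)

def k0_pm_123_a : ∃ t, chk3 f_pm_123_a t 1 1 1 = true :=
  ⟨(a (a (a (b (l 1) (b (l 1) (a (b (l 1) (b (a (l 1) (l 16582064)) (a (c (l 16568936) (l 16505864)) (a (l 16580168) (l 142639540047937551))))) (b (l 16596624) (a (l 16614824) (l 16630928)))))) (a (b (l 1) (b (l 16592736) (b (l 16619192) (l 16663584)))) (b (l 16594120) (b (l 16609832) (b (l 16655552) (b (l 16692672) (l 16701624))))))) (a (b (a (b (l 16624984) (l 16622528)) (l 16667584)) (b (a (l 16649936) (l 16694520)) (a (b (l 16698128) (a (a (l 16731552) (l 16742512)) (l 16757528))) (b (l 16739840) (l 16784144))))) (b (b (l 16717008) (l 16718496)) (b (l 16744928) (b (l 16784648) (a (l 16813240) (l 16835632))))))) (a (b (a (l 16777280)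 (l 16766408)) (a (b (a (l 16775264) (l 16783696)) (b (l 16815816) (a (l 16848624) (l 16853360)))) (b (a (l 16787552) (l 16786752)) (b (a (l 16820584) (l 16819160)) (a (l 16855144) (l 16853808)))))) (a (b (a (b (l 16764944) (l 16765328)) (b (l 16764640) (l 16759592))) (b (l 16846280) (b (l 16813928) (a (l 16847128) (l 16834440))))) (a (b (a (l 16893808) (l 16919104)) (b (a (l 16772184) (l 16771248)) (b (l 16797680) (b (l 16811432) (l 16819840))))) (a (b (l 253638389399) (b (b (l 16770784) (l 16796896)) (b (l 16908648) (a (l 16801816) (l 16875720))))) (b (l 4) (a (b (l 16772616) (b (l 16779048) (b (l 16785224) (l 16829416)))) (b (l 4) (a (b (l 16771768) (l 16839288)) (b (l 4) (a (l 16770584) (b (l 4) (l 4))))))))))))), by decide +kernel⟩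

theorem c_pm_123_a : CertB 536870912 536870912 0 536870912 587336777 62277027 3 eng mog cd1q1 cd4q2a pd3 true true false .npn 1 2 3
    ndB1q1 ndB4q2a pcB3 Cut.none xt_pm_123_a :=
  certB2 (fam := true) (s1 := true) (s2 := false) (a := 1) (b := 2) (c := 3) (cn := .npn) (n1 := ndB1q1) (n2 := ndB4q2a) (pc := pcB3) (cut := Cut.none) (xt := xt_pm_123_a) (P1 := 536870912) (W1 := 536870912) (P2 := 0) (W2 := 536870912) (P3 := 587336777) (W3 := 62277027) (N0 := 3) (En := eng) (mo := mog) (C1 := cd1q1) (C2 := cd4q2a) (C3 := pd3)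
    rfl (fun _ => rfl) k0_pm_123_a

noncomputable def f_pm_123_b : ℕ → ℕ → ℕ → ℕ → Bool := onCell 1610612736 536870912 1239849684 370763052 587336777 62277027
    (rowB 3 eng mog cd1q1 cd4q2b pd3 2 true true false .npn 1 2 3 (qsf 536870912 536870912 1239849684 370763052 3) ndB1q1 ndB4q2b pcB3 Cut.none Ext.none)

def k0_pm_123_b : ∃ t, chk3 f_pm_123_b t 1 1 1 = true :=
  ⟨(b (a (a (l 1) (a (b (a (l 16623912) (l 16657312)) (l 1)) (b (l 16698288) (l 16705192)))) (a (a (b (l 16733848) (l 16740840)) (a (b (l 16748216) (l 16764816)) (b (l 16753560) (l 16765000)))) (a (a (b (l 16762648) (l 16751968)) (b (l 16766944) (l 16730848))) (a (b (l 234847800279) (l 4)) (l 4))))) (a (l 1) (a (a (l 1) (a (l 16782872) (l 16771304))) (a (a (l 16753224) (l 4)) (l 4))))), by decide +kernel⟩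

theorem c_pm_123_b : CertB 536870912 536870912 1239849684 370763052 587336777 62277027 3 eng mog cd1q1 cd4q2b pd3 true true false .npn 1 2 3
    ndB1q1 ndB4q2b pcB3 Cut.none Ext.none :=
  certB2 (fam := true) (s1 := true) (s2 := false) (a := 1) (b := 2) (c := 3) (cn := .npn) (n1 := ndB1q1) (n2 := ndB4q2b) (pc := pcB3) (cut := Cut.none) (xt := Ext.none) (P1 := 536870912) (W1 := 536870912) (P2 := 1239849684) (W2 := 370763052) (P3 := 587336777) (W3 := 62277027) (N0 := 3) (En := eng) (mo := mog) (C1 := cd1q1) (C2 := cd4q2b) (C3 := pd3)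
    rfl (fun _ => rfl) k0_pm_123_b

noncomputable def f_pm_133 : ℕ → ℕ → ℕ → ℕ → Bool := onCell 536870912 536870912 1610612736 536870912 587336777 62277027
    (rowB 3 eng mog cd1q1 cd4q3 pd3 0 true true false .dn 1 3 3 (qsf 536870912 536870912 1610612736 536870912 3) ndB1q1 ndB4q3 pcB3 Cut.none Ext.none)

def k0_pm_133 : ∃ t, chk3 f_pm_133 t 1 1 1 = true :=
  ⟨(a (l 4) (l 2)), by decide +kernel⟩

theorem c_pm_133 : CertB 536870912 536870912 1610612736 536870912 587336777 62277027 3 eng mog cd1q1 cd4q3 pd3 true true false .dn 1 3 3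
    ndB1q1 ndB4q3 pcB3 Cut.none Ext.none :=
  certB0 (fam := true) (s1 := true) (s2 := false) (a := 1) (b := 3) (c := 3) (cn := .dn) (n1 := ndB1q1) (n2 := ndB4q3) (pc := pcB3) (cut := Cut.none) (xt := Ext.none) (P1 := 536870912) (W1 := 536870912) (P2 := 1610612736) (W2 := 536870912) (P3 := 587336777) (W3 := 62277027) (N0 := 3) (En := eng) (mo := mog) (C1 := cd1q1) (C2 := cd4q3) (C3 := pd3)
    rfl k0_pm_133

noncomputable def cut_pm_202_a : Cut := Cut.of [[⟨0, 1, 0, 67108864⟩, ⟨1, 0, 0, 67108864⟩, ⟨2, 1, 0, 67108864⟩]]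

noncomputable def f_pm_202_a : ℕ → ℕ → ℕ → ℕ → Bool := onCell 0 536870912 0 536870912 587336777 62277027
    (rowB 3 eng mog cd1q2a cd4q0 pd2 0 true true false .pp 2 0 2 (qsf 0 536870912 0 536870912 2) ndB1q2a ndB4q0 pcB2 cut_pm_202_a Ext.none)

def k0_pm_202_a : ∃ t, chk3 f_pm_202_a t 2 4 1 = true :=
  ⟨(b (a (b (b (a (b (l 16455768) (l 16457552)) (c (a (l 16463144) (l 16480864)) (b (l 16461432) (l 16464280)))) (a (l 16461248) (l 16551904))) (a (l 16471408) (l 16475488))) (b (a (b (b (a (l 16476640) (l 16487544)) (c (l 16485528) (l 16480384))) (b (l 16484560) (l 16526976))) (b (b (a (a (l 16497056) (b (l 16503824) (l 16504488))) (b (a (l 16511464) (l 16519712)) (l 16516200))) (a (b (l 16501528) (l 16501976)) (c (l 16519712) (l 16512752)))) (a (l 16502544) (b (l 16538224) (a (l 16513088) (l 16520920)))))) (a (b (l 16487152) (l 16491056)) (b (a (l 16503256) (a (l 16512920) (b (l 16583096) (l 16519944)))) (l 16511696))))) (a (b (l 16490952) (a (l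 16515504) (l 16511672))) (a (b (l 16499584) (l 16516016)) (b (l 16516384) (l 16527144))))), by decide +kernel⟩

def k1_pm_202_a : ∃ t, chk3 f_pm_202_a t 3 8 1 = true :=
  ⟨(a (b (a (b (b (b (a (c (l 16538312) (a (l 16522784) (l 16532504))) (a (l 16548680) (l 16559864))) (a (l 16533848) (l 16554376))) (a (l 16534216) (a (l 16548912) (l 16559720)))) (a (b (l 16534288) (l 16533800)) (b (l 16553904) (l 16552960)))) (a (b (b (b (a (l 16571736) (l 16584520)) (l 16577928)) (c (l 16580320) (l 16573752))) (l 16617704)) (b (b (b (a (l 16598232) (l 16612640)) (l 16625848)) (c (l 16606320) (l 16600800))) (l 16601256)))) (a (b (a (b (a (b (l 16528352) (l 16548768)) (l 16536520)) (a (l 16527216) (l 16576952))) (b (l 16550400) (a (b (l 16543848) (l 16542928)) (l 16552288)))) (a (l 16530504) (b (a (l 16541760) (l 16550040)) (l 16544496)))) (b (a (l 16568904) (l 16590904)) (a (b (l 16563712) (a (l 16556560) (l 16565248))) (l 16581576))))) (a (b (b (b (a (a (a (l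 16623696) (l 16631640)) (a (l 16639888) (l 16658792))) (a (b (l 6) (l 16660456)) (l 6))) (a (b (l 16634416) (l 16633344)) (b (l 16689016) (l 16666640)))) (a (l 16671208) (l 16720568))) (a (b (l 16615256) (l 16603232)) (b (l 16642488) (l 16627840)))) (b (a (b (l 6) (b (l 6) (l 16686184))) (l 6)) (a (b (a (l 16664384) (l 16679904)) (l 16655072)) (b (a (l 16695960) (l 6)) (a (l 16677008) (l 16692240))))))), by decide +kernel⟩

def k2_pm_202_a : ∃ t, chk3 f_pm_202_a t 3 9 1 = true :=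
  ⟨(a (a (b (a (l 16532048) (b (l 16543592) (l 16543936))) (l 16542808)) (b (b (b (a (l 16558720) (a (l 16571224) (l 16580528))) (a (l 16557016) (c (l 16790856) (l 16754752)))) (a (l 16555728) (a (l 16565416) (l 16573008)))) (a (l 16555984) (l 16566088)))) (a (b (a (b (l 16593296) (b (a (b (l 16583488) (l 16581984)) (l 16591496)) (a (l 16579664) (l 16734800)))) (b (l 16615192) (l 16604672))) (a (b (l 16684640) (l 16576584)) (a (b (b (l 16740392) (l 16590120)) (l 16586256)) (b (b (l 16602744) (a (l 16596752) (l 16601016))) (l 16593976))))) (b (a (b (l 16639784) (l 16626528)) (b (l 16666912) (l 16651080))) (b (a (l 16615520) (l 16637416)) (a (a (b (a (l 16601968) (l 16606104)) (l 16600584)) (l 16611296)) (l 16626136)))))), by decide +kernel⟩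

def k3_pm_202_a : ∃ t, chk3 f_pm_202_a t 1 5 1 = true :=
  ⟨(a (b (a (b (a (l 16544456) (l 16538024)) (a (l 16574664) (l 16567880))) (a (b (l 16537680) (l 16563624)) (b (l 16542856) (l 16562992)))) (a (b (a (l 16602040) (l 16593904)) (l 16625472)) (a (b (l 16590528) (l 16614136)) (b (l 16586544) (l 16608896))))) (a (b (a (l 16557984) (b (l 16563840) (l 16570680))) (a (b (l 16583504) (l 16603688)) (b (l 16582400) (l 16598960)))) (b (a (b (a (l 16575080) (l 16585432)) (l 16581216)) (b (b (a (a (l 16596472) (l 16730096)) (a (b (l 16614544) (l 16716024)) (l 16621808))) (a (l 16596472) (a (l 16607040) (b (a (l 16614344) (l 16618560)) (l 16613656))))) (a (l 16594008) (l 16605968)))) (a (l 16592000) (a (l 16599592) (l 16607672)))))), by decide +kernel⟩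

def k4_pm_202_a : ∃ t, chk3 f_pm_202_a t 1 3 1 = true :=
  ⟨(a (b (b (a (b (l 16655392) (l 16687512)) (a (l 16736632) (b (l 16632176) (l 16655152)))) (a (b (l 16719184) (l 16748800)) (a (l 16713160) (l 16697312)))) (b (a (l 2) (a (l 2) (l 16762208))) (l 2))) (b (a (b (a (l 16633496) (l 16625824)) (a (l 16680904) (l 16667368))) (b (a (b (l 16615088) (l 16633120)) (b (l 16620928) (l 16639672))) (a (l 16661704) (l 16669352)))) (a (b (a (l 16737832) (l 16720104)) (l 2)) (b (l 16711008) (a (l 16761896) (l 16756816)))))), by decide +kernel⟩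

theorem s5_pm_202_a : ∃ t, chk3 f_pm_202_a t 3 4 1 = true := ex3_b k1_pm_202_a k2_pm_202_a

theorem s6_pm_202_a : ∃ t, chk3 f_pm_202_a t 1 4 1 = true := ex3_a k0_pm_202_a s5_pm_202_a

theorem s7_pm_202_a : ∃ t, chk3 f_pm_202_a t 1 2 1 = true := ex3_b s6_pm_202_a k3_pm_202_a

theorem s8_pm_202_a : ∃ t, chk3 f_pm_202_a t 1 1 1 = true := ex3_b s7_pm_202_a k4_pm_202_a

theorem c_pm_202_a : CertB 0 536870912 0 536870912 587336777 62277027 3 eng mog cd1q2a cd4q0 pd2 true true false .pp 2 0 2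
    ndB1q2a ndB4q0 pcB2 cut_pm_202_a Ext.none :=
  certB0 (fam := true) (s1 := true) (s2 := false) (a := 2) (b := 0) (c := 2) (cn := .pp) (n1 := ndB1q2a) (n2 := ndB4q0) (pc := pcB2) (cut := cut_pm_202_a) (xt := Ext.none) (P1 := 0) (W1 := 536870912) (P2 := 0) (W2 := 536870912) (P3 := 587336777) (W3 := 62277027) (N0 := 3) (En := eng) (mo := mog) (C1 := cd1q2a) (C2 := cd4q0) (C3 := pd2)
    rfl s8_pm_202_a

noncomputable def cut_pm_202_b : Cut := Cut.of [[⟨0, 1, 0, 67108864⟩, ⟨1, 0, 0, 67108864⟩, ⟨2, 1, 0, 67108864⟩]]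

noncomputable def f_pm_202_b : ℕ → ℕ → ℕ → ℕ → Bool := onCell 1073741824 536870912 0 536870912 587336777 62277027
    (rowB 3 eng mog cd1q2b cd4q0 pd2 2 true true false .pp 2 0 2 (qsf 1239849684 370763052 0 536870912 2) ndB1q2b ndB4q0 pcB2 cut_pm_202_b Ext.none)

def k0_pm_202_b : ∃ t, chk3 f_pm_202_b t 1 1 1 = true :=
  ⟨(a (b (b (a (l 1) (b (a (a (b (b (b (l 16511752) (l 1)) (l 1)) (l 1)) (b (b (b (l 16469088) (l 16445096)) (l 16494408)) (b (l 16497456) (l 1)))) (b (b (a (l 16376664) (l 16323264)) (l 16383120)) (a (l 16469192) (l 16405248)))) (a (l 1) (b (a (l 233035180535) (l 16490104)) (l 222834550887))))) (l 1)) (l 1)) (a (b (b (a (b (b (b (l 16253056) (l 16284048)) (l 16330280)) (b (l 16397032) (a (l 16517136) (l 16461608)))) (b (b (a (l 16209144) (l 16190752)) (l 16275184)) (a (l 16351464) (l 16330400)))) (a (b (a (l 296385886231) (l 274374082887)) (l 1)) (b (a (l 212096944295) (l 16474216)) (a (l 350073162231) (l 16579280))))) (l 1)) (b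 (b (a (b (b (l 16184184) (l 16234760)) (l 16313336)) (b (l 16225280) (l 16306704))) (a (b (l 16406448) (l 231424502023)) (b (l 16391352) (l 16454112)))) (b (a (b (a (l 16665320) (l 16702056)) (l 1)) (a (a (l 332356107703) (l 286185268807)) (l 170959508311))) (l 1))))), by decide +kernel⟩

theorem c_pm_202_b : CertB 1239849684 370763052 0 536870912 587336777 62277027 3 eng mog cd1q2b cd4q0 pd2 true true false .pp 2 0 2
    ndB1q2b ndB4q0 pcB2 cut_pm_202_b Ext.none :=
  certB2 (fam := true) (s1 := true) (s2 := false) (a := 2) (b := 0) (c := 2) (cn := .pp) (n1 := ndB1q2b) (n2 := ndB4q0) (pc := pcB2) (cut := cut_pm_202_b) (xt := Ext.none) (P1 := 1239849684) (W1 := 370763052) (P2 := 0) (W2 := 536870912) (P3 := 587336777) (W3 := 62277027) (N0 := 3) (En := eng) (mo := mog) (C1 := cd1q2b) (C2 := cd4q0) (C3 := pd2)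
    rfl (fun _ => rfl) k0_pm_202_b

noncomputable def f_pm_203_a : ℕ → ℕ → ℕ → ℕ → Bool := onCell 0 536870912 1610612736 536870912 587336777 62277027
    (rowB 3 eng mog cd1q2a cd4q0 pd3 1 true true false .up 2 0 3 (qsf 0 536870912 0 536870912 3) ndB1q2a ndB4q0 pcB3 Cut.none Ext.none)

def k0_pm_203_a : ∃ t, chk3 f_pm_203_a t 1 1 1 = true :=
  ⟨(b (a (b (b (b (a (l 16753696) (l 16747184)) (l 16995656)) (b (l 16790176) (l 16811696))) (l 4)) (a (b (b (b (l 16744648) (l 16792720)) (l 16856120)) (l 2)) (b (b (b (l 16778496) (l 16847512)) (l 16933544)) (l 2)))) (l 2)), by decide +kernel⟩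

theorem c_pm_203_a : CertB 0 536870912 0 536870912 587336777 62277027 3 eng mog cd1q2a cd4q0 pd3 true true false .up 2 0 3
    ndB1q2a ndB4q0 pcB3 Cut.none Ext.none :=
  certB1 (fam := true) (s1 := true) (s2 := false) (a := 2) (b := 0) (c := 3) (cn := .up) (n1 := ndB1q2a) (n2 := ndB4q0) (pc := pcB3) (cut := Cut.none) (xt := Ext.none) (P1 := 0) (W1 := 536870912) (P2 := 0) (W2 := 536870912) (P3 := 587336777) (W3 := 62277027) (N0 := 3) (En := eng) (mo := mog) (C1 := cd1q2a) (C2 := cd4q0) (C3 := pd3)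
    rfl (fun _ => rfl) k0_pm_203_a

noncomputable def f_pm_203_b : ℕ → ℕ → ℕ → ℕ → Bool := onCell 1610612736 536870912 0 536870912 587336777 62277027
    (rowB 3 eng mog cd1q2b cd4q0 pd3 2 true true false .up 2 0 3 (qsf 1239849684 370763052 0 536870912 3) ndB1q2b ndB4q0 pcB3 Cut.none Ext.none)

def k0_pm_203_b : ∃ t, chk3 f_pm_203_b t 1 1 1 = true :=
  ⟨(a (b (a (a (b (b (l 16230800) (l 16300488)) (a (l 16425712) (l 16429368))) (b (b (l 16255752) (l 16318272)) (l 4))) (a (b (l 444092182183) (l 4)) (l 4))) (l 4)) (l 4)), by decide +kernel⟩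

theorem c_pm_203_b : CertB 1239849684 370763052 0 536870912 587336777 62277027 3 eng mog cd1q2b cd4q0 pd3 true true false .up 2 0 3
    ndB1q2b ndB4q0 pcB3 Cut.none Ext.none :=
  certB2 (fam := true) (s1 := true) (s2 := false) (a := 2) (b := 0) (c := 3) (cn := .up) (n1 := ndB1q2b) (n2 := ndB4q0) (pc := pcB3) (cut := Cut.none) (xt := Ext.none) (P1 := 1239849684) (W1 := 370763052) (P2 := 0) (W2 := 536870912) (P3 := 587336777) (W3 := 62277027) (N0 := 3) (En := eng) (mo := mog) (C1 := cd1q2b) (C2 := cd4q0) (C3 := pd3)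
    rfl (fun _ => rfl) k0_pm_203_b

noncomputable def f_pm_213_a : ℕ → ℕ → ℕ → ℕ → Bool := onCell 0 536870912 1610612736 536870912 587336777 62277027
    (rowB 3 eng mog cd1q2a cd4q1 pd3 1 true true false .pnn 2 1 3 (qsf 0 536870912 536870912 536870912 3) ndB1q2a ndB4q1 pcB3 Cut.none Ext.none)

def k0_pm_213_a : ∃ t, chk3 f_pm_213_a t 1 1 1 = true :=
  ⟨(a (b (b (b (l 1) (l 418256352967)) (l 4)) (l 4)) (b (b (b (a (l 1) (b (l 17003752) (l 16991392))) (a (l 16655376) (l 16935600))) (b (a (l 16762568) (l 16863432)) (a (l 4) (l 16804608)))) (b (b (a (l 4) (l 16743640)) (l 4)) (l 4)))), by decide +kernel⟩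

theorem c_pm_213_a : CertB 0 536870912 536870912 536870912 587336777 62277027 3 eng mog cd1q2a cd4q1 pd3 true true false .pnn 2 1 3
    ndB1q2a ndB4q1 pcB3 Cut.none Ext.none :=
  certB1 (fam := true) (s1 := true) (s2 := false) (a := 2) (b := 1) (c := 3) (cn := .pnn) (n1 := ndB1q2a) (n2 := ndB4q1) (pc := pcB3) (cut := Cut.none) (xt := Ext.none) (P1 := 0) (W1 := 536870912) (P2 := 536870912) (W2 := 536870912) (P3 := 587336777) (W3 := 62277027) (N0 := 3) (En := eng) (mo := mog) (C1 := cd1q2a) (C2 := cd4q1) (C3 := pd3)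
    rfl (fun _ => rfl) k0_pm_213_a

noncomputable def f_pm_213_b : ℕ → ℕ → ℕ → ℕ → Bool := onCell 1239849684 370763052 536870912 536870912 587336777 62277027
    (rowB 3 eng mog cd1q2b cd4q1 pd3 0 true true false .pnn 2 1 3 (qsf 1239849684 370763052 536870912 536870912 3) ndB1q2b ndB4q1 pcB3 Cut.none Ext.none)

def k0_pm_213_b : ∃ t, chk3 f_pm_213_b t 1 1 1 = true :=
  ⟨(l 4), by decide +kernel⟩

theorem c_pm_213_b : CertB 1239849684 370763052 536870912 536870912 587336777 62277027 3 eng mog cd1q2b cd4q1 pd3 true true false .pnn 2 1 3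
    ndB1q2b ndB4q1 pcB3 Cut.none Ext.none :=
  certB0 (fam := true) (s1 := true) (s2 := false) (a := 2) (b := 1) (c := 3) (cn := .pnn) (n1 := ndB1q2b) (n2 := ndB4q1) (pc := pcB3) (cut := Cut.none) (xt := Ext.none) (P1 := 1239849684) (W1 := 370763052) (P2 := 536870912) (W2 := 536870912) (P3 := 587336777) (W3 := 62277027) (N0 := 3) (En := eng) (mo := mog) (C1 := cd1q2b) (C2 := cd4q1) (C3 := pd3)
    rfl k0_pm_213_b

noncomputable def f_pm_303 : ℕ → ℕ → ℕ → ℕ → Bool := onCell 1610612736 536870912 0 536870912 587336777 62277027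
    (rowB 3 eng mog cd1q3 cd4q0 pd3 2 true true false .npn 3 0 3 (qsf 1610612736 536870912 0 536870912 3) ndB1q3 ndB4q0 pcB3 Cut.none Ext.none)

def k0_pm_303 : ∃ t, chk3 f_pm_303 t 1 1 1 = true :=
  ⟨(a (b (a (a (b (b (l 16216080) (l 16291032)) (l 1)) (b (b (l 16235744) (l 16301464)) (l 4))) (a (b (b (l 16349200) (l 4)) (l 4)) (l 4))) (l 4)) (l 4)), by decide +kernel⟩

theorem c_pm_303 : CertB 1610612736 536870912 0 536870912 587336777 62277027 3 eng mog cd1q3 cd4q0 pd3 true true false .npn 3 0 3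
    ndB1q3 ndB4q0 pcB3 Cut.none Ext.none :=
  certB2 (fam := true) (s1 := true) (s2 := false) (a := 3) (b := 0) (c := 3) (cn := .npn) (n1 := ndB1q3) (n2 := ndB4q0) (pc := pcB3) (cut := Cut.none) (xt := Ext.none) (P1 := 1610612736) (W1 := 536870912) (P2 := 0) (W2 := 536870912) (P3 := 587336777) (W3 := 62277027) (N0 := 3) (En := eng) (mo := mog) (C1 := cd1q3) (C2 := cd4q0) (C3 := pd3)
    rfl (fun _ => rfl) k0_pm_303

noncomputable def f_pm_313 : ℕ → ℕ → ℕ → ℕ → Bool := onCell 1610612736 536870912 536870912 536870912 587336777 62277027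
    (rowB 3 eng mog cd1q3 cd4q1 pd3 0 true true false .dn 3 1 3 (qsf 1610612736 536870912 536870912 536870912 3) ndB1q3 ndB4q1 pcB3 Cut.none Ext.none)

def k0_pm_313 : ∃ t, chk3 f_pm_313 t 1 1 1 = true :=
  ⟨(l 4), by decide +kernel⟩

theorem c_pm_313 : CertB 1610612736 536870912 536870912 536870912 587336777 62277027 3 eng mog cd1q3 cd4q1 pd3 true true false .dn 3 1 3
    ndB1q3 ndB4q1 pcB3 Cut.none Ext.none :=
  certB0 (fam := true) (s1 := true) (s2 := false) (a := 3) (b := 1) (c := 3) (cn := .dn) (n1 := ndB1q3) (n2 := ndB4q1) (pc := pcB3) (cut := Cut.none) (xt := Ext.none) (P1 := 1610612736) (W1 := 536870912) (P2 := 536870912) (W2 := 536870912) (P3 := 587336777) (W3 := 62277027) (N0 := 3) (En := eng) (mo := mog) (C1 := cd1q3) (C2 := cd4q1) (C3 := pd3)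
    rfl k0_pm_313

noncomputable def f_mm_001 : ℕ → ℕ → ℕ → ℕ → Bool := onCell 0 536870912 0 536870912 587336777 62277027
    (rowB 3 eng mog cd1q0 cd4q0 pd1 0 true false false .up 0 0 1 (qsf 0 536870912 0 536870912 1) ndB1q0 ndB4q0 pcB1 Cut.none Ext.none)

def k0_mm_001 : ∃ t, chk3 f_mm_001 t 1 1 1 = true :=
  ⟨(l 4), by decide +kernel⟩

theorem c_mm_001 : CertB 0 536870912 0 536870912 587336777 62277027 3 eng mog cd1q0 cd4q0 pd1 true false false .up 0 0 1
    ndB1q0 ndB4q0 pcB1 Cut.none Ext.none :=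
  certB0 (fam := true) (s1 := false) (s2 := false) (a := 0) (b := 0) (c := 1) (cn := .up) (n1 := ndB1q0) (n2 := ndB4q0) (pc := pcB1) (cut := Cut.none) (xt := Ext.none) (P1 := 0) (W1 := 536870912) (P2 := 0) (W2 := 536870912) (P3 := 587336777) (W3 := 62277027) (N0 := 3) (En := eng) (mo := mog) (C1 := cd1q0) (C2 := cd4q0) (C3 := pd1)
    rfl k0_mm_001

noncomputable def f_mm_011 : ℕ → ℕ → ℕ → ℕ → Bool := onCell 0 536870912 536870912 536870912 587336777 62277027
    (rowB 3 eng mog cd1q0 cd4q1 pd1 0 true false false .pnn 0 1 1 (qsf 0 536870912 536870912 536870912 1) ndB1q0 ndB4q1 pcB1 Cut.none Ext.none)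

def k0_mm_011 : ∃ t, chk3 f_mm_011 t 1 1 1 = true :=
  ⟨(l 4), by decide +kernel⟩

theorem c_mm_011 : CertB 0 536870912 536870912 536870912 587336777 62277027 3 eng mog cd1q0 cd4q1 pd1 true false false .pnn 0 1 1
    ndB1q0 ndB4q1 pcB1 Cut.none Ext.none :=
  certB0 (fam := true) (s1 := false) (s2 := false) (a := 0) (b := 1) (c := 1) (cn := .pnn) (n1 := ndB1q0) (n2 := ndB4q1) (pc := pcB1) (cut := Cut.none) (xt := Ext.none) (P1 := 0) (W1 := 536870912) (P2 := 536870912) (W2 := 536870912) (P3 := 587336777) (W3 := 62277027) (N0 := 3) (En := eng) (mo := mog) (C1 := cd1q0) (C2 := cd4q1) (C3 := pd1)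
    rfl k0_mm_011

noncomputable def f_mm_012 : ℕ → ℕ → ℕ → ℕ → Bool := onCell 0 536870912 536870912 536870912 587336777 62277027
    (rowB 3 eng mog cd1q0 cd4q1 pd2 0 true false false .pnp 0 1 2 (qsf 0 536870912 536870912 536870912 2) ndB1q0 ndB4q1 pcB2 Cut.none Ext.none)

def k0_mm_012 : ∃ t, chk3 f_mm_012 t 1 1 1 = true :=
  ⟨(l 4), by decide +kernel⟩

theorem c_mm_012 : CertB 0 536870912 536870912 536870912 587336777 62277027 3 eng mog cd1q0 cd4q1 pd2 true false false .pnp 0 1 2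
    ndB1q0 ndB4q1 pcB2 Cut.none Ext.none :=
  certB0 (fam := true) (s1 := false) (s2 := false) (a := 0) (b := 1) (c := 2) (cn := .pnp) (n1 := ndB1q0) (n2 := ndB4q1) (pc := pcB2) (cut := Cut.none) (xt := Ext.none) (P1 := 0) (W1 := 536870912) (P2 := 536870912) (W2 := 536870912) (P3 := 587336777) (W3 := 62277027) (N0 := 3) (En := eng) (mo := mog) (C1 := cd1q0) (C2 := cd4q1) (C3 := pd2)
    rfl k0_mm_012

noncomputable def f_mm_022_a : ℕ → ℕ → ℕ → ℕ → Bool := onCell 0 536870912 0 536870912 587336777 62277027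
    (rowB 3 eng mog cd1q0 cd4q2a pd2 0 true false false .pp 0 2 2 (qsf 0 536870912 0 536870912 2) ndB1q0 ndB4q2a pcB2 Cut.none Ext.none)

def k0_mm_022_a : ∃ t, chk3 f_mm_022_a t 1 1 1 = true :=
  ⟨(l 5), by decide +kernel⟩

theorem c_mm_022_a : CertB 0 536870912 0 536870912 587336777 62277027 3 eng mog cd1q0 cd4q2a pd2 true false false .pp 0 2 2
    ndB1q0 ndB4q2a pcB2 Cut.none Ext.none :=
  certB0 (fam := true) (s1 := false) (s2 := false) (a := 0) (b := 2) (c := 2) (cn := .pp) (n1 := ndB1q0) (n2 := ndB4q2a) (pc := pcB2) (cut := Cut.none) (xt := Ext.none) (P1 := 0) (W1 := 536870912) (P2 := 0) (W2 := 536870912) (P3 := 587336777) (W3 := 62277027) (N0 := 3) (En := eng) (mo := mog) (C1 := cd1q0) (C2 := cd4q2a) (C3 := pd2)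
    rfl k0_mm_022_a

noncomputable def f_mm_022_b : ℕ → ℕ → ℕ → ℕ → Bool := onCell 0 536870912 1239849684 370763052 587336777 62277027
    (rowB 3 eng mog cd1q0 cd4q2b pd2 0 true false false .pp 0 2 2 (qsf 0 536870912 1239849684 370763052 2) ndB1q0 ndB4q2b pcB2 Cut.none Ext.none)

def k0_mm_022_b : ∃ t, chk3 f_mm_022_b t 1 1 1 = true :=
  ⟨(l 5), by decide +kernel⟩

theorem c_mm_022_b : CertB 0 536870912 1239849684 370763052 587336777 62277027 3 eng mog cd1q0 cd4q2b pd2 true false false .pp 0 2 2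
    ndB1q0 ndB4q2b pcB2 Cut.none Ext.none :=
  certB0 (fam := true) (s1 := false) (s2 := false) (a := 0) (b := 2) (c := 2) (cn := .pp) (n1 := ndB1q0) (n2 := ndB4q2b) (pc := pcB2) (cut := Cut.none) (xt := Ext.none) (P1 := 0) (W1 := 536870912) (P2 := 1239849684) (W2 := 370763052) (P3 := 587336777) (W3 := 62277027) (N0 := 3) (En := eng) (mo := mog) (C1 := cd1q0) (C2 := cd4q2b) (C3 := pd2)
    rfl k0_mm_022_b

noncomputable def f_mm_023_a : ℕ → ℕ → ℕ → ℕ → Bool := onCell 0 536870912 0 536870912 587336777 62277027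
    (rowB 3 eng mog cd1q0 cd4q2a pd3 0 true false false .up 0 2 3 (qsf 0 536870912 0 536870912 3) ndB1q0 ndB4q2a pcB3 Cut.none Ext.none)

def k0_mm_023_a : ∃ t, chk3 f_mm_023_a t 1 1 1 = true :=
  ⟨(l 5), by decide +kernel⟩

theorem c_mm_023_a : CertB 0 536870912 0 536870912 587336777 62277027 3 eng mog cd1q0 cd4q2a pd3 true false false .up 0 2 3
    ndB1q0 ndB4q2a pcB3 Cut.none Ext.none :=
  certB0 (fam := true) (s1 := false) (s2 := false) (a := 0) (b := 2) (c := 3) (cn := .up) (n1 := ndB1q0) (n2 := ndB4q2a) (pc := pcB3) (cut := Cut.none) (xt := Ext.none) (P1 := 0) (W1 := 536870912) (P2 := 0) (W2 := 536870912) (P3 := 587336777) (W3 := 62277027) (N0 := 3) (En := eng) (mo := mog) (C1 := cd1q0) (C2 := cd4q2a) (C3 := pd3)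
    rfl k0_mm_023_a

noncomputable def f_mm_023_b : ℕ → ℕ → ℕ → ℕ → Bool := onCell 0 536870912 1239849684 370763052 587336777 62277027
    (rowB 3 eng mog cd1q0 cd4q2b pd3 0 true false false .up 0 2 3 (qsf 0 536870912 1239849684 370763052 3) ndB1q0 ndB4q2b pcB3 Cut.none Ext.none)

def k0_mm_023_b : ∃ t, chk3 f_mm_023_b t 1 1 1 = true :=
  ⟨(l 5), by decide +kernel⟩

theorem c_mm_023_b : CertB 0 536870912 1239849684 370763052 587336777 62277027 3 eng mog cd1q0 cd4q2b pd3 true false false .up 0 2 3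
    ndB1q0 ndB4q2b pcB3 Cut.none Ext.none :=
  certB0 (fam := true) (s1 := false) (s2 := false) (a := 0) (b := 2) (c := 3) (cn := .up) (n1 := ndB1q0) (n2 := ndB4q2b) (pc := pcB3) (cut := Cut.none) (xt := Ext.none) (P1 := 0) (W1 := 536870912) (P2 := 1239849684) (W2 := 370763052) (P3 := 587336777) (W3 := 62277027) (N0 := 3) (En := eng) (mo := mog) (C1 := cd1q0) (C2 := cd4q2b) (C3 := pd3)
    rfl k0_mm_023_b

noncomputable def f_mm_033 : ℕ → ℕ → ℕ → ℕ → Bool := onCell 0 536870912 1610612736 536870912 587336777 62277027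
    (rowB 3 eng mog cd1q0 cd4q3 pd3 0 true false false .pnn 0 3 3 (qsf 0 536870912 1610612736 536870912 3) ndB1q0 ndB4q3 pcB3 Cut.none Ext.none)

def k0_mm_033 : ∃ t, chk3 f_mm_033 t 1 1 1 = true :=
  ⟨(l 4), by decide +kernel⟩

theorem c_mm_033 : CertB 0 536870912 1610612736 536870912 587336777 62277027 3 eng mog cd1q0 cd4q3 pd3 true false false .pnn 0 3 3
    ndB1q0 ndB4q3 pcB3 Cut.none Ext.none :=
  certB0 (fam := true) (s1 := false) (s2 := false) (a := 0) (b := 3) (c := 3) (cn := .pnn) (n1 := ndB1q0) (n2 := ndB4q3) (pc := pcB3) (cut := Cut.none) (xt := Ext.none) (P1 := 0) (W1 := 536870912) (P2 := 1610612736) (W2 := 536870912) (P3 := 587336777) (W3 := 62277027) (N0 := 3) (En := eng) (mo := mog) (C1 := cd1q0) (C2 := cd4q3) (C3 := pd3)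
    rfl k0_mm_033

noncomputable def f_mm_101 : ℕ → ℕ → ℕ → ℕ → Bool := onCell 536870912 536870912 0 536870912 587336777 62277027
    (rowB 3 eng mog cd1q1 cd4q0 pd1 0 true false false .npn 1 0 1 (qsf 536870912 536870912 0 536870912 1) ndB1q1 ndB4q0 pcB1 Cut.none Ext.none)

def k0_mm_101 : ∃ t, chk3 f_mm_101 t 1 1 1 = true :=
  ⟨(a (l 4) (l 4)), by decide +kernel⟩

theorem c_mm_101 : CertB 536870912 536870912 0 536870912 587336777 62277027 3 eng mog cd1q1 cd4q0 pd1 true false false .npn 1 0 1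
    ndB1q1 ndB4q0 pcB1 Cut.none Ext.none :=
  certB0 (fam := true) (s1 := false) (s2 := false) (a := 1) (b := 0) (c := 1) (cn := .npn) (n1 := ndB1q1) (n2 := ndB4q0) (pc := pcB1) (cut := Cut.none) (xt := Ext.none) (P1 := 536870912) (W1 := 536870912) (P2 := 0) (W2 := 536870912) (P3 := 587336777) (W3 := 62277027) (N0 := 3) (En := eng) (mo := mog) (C1 := cd1q1) (C2 := cd4q0) (C3 := pd1)
    rfl k0_mm_101

noncomputable def f_mm_102 : ℕ → ℕ → ℕ → ℕ → Bool := onCell 536870912 536870912 0 536870912 587336777 62277027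
    (rowB 3 eng mog cd1q1 cd4q0 pd2 0 true false false .npp 1 0 2 (qsf 536870912 536870912 0 536870912 2) ndB1q1 ndB4q0 pcB2 Cut.none Ext.none)

def k0_mm_102 : ∃ t, chk3 f_mm_102 t 1 1 1 = true :=
  ⟨(b (l 4) (l 4)), by decide +kernel⟩

theorem c_mm_102 : CertB 536870912 536870912 0 536870912 587336777 62277027 3 eng mog cd1q1 cd4q0 pd2 true false false .npp 1 0 2
    ndB1q1 ndB4q0 pcB2 Cut.none Ext.none :=
  certB0 (fam := true) (s1 := false) (s2 := false) (a := 1) (b := 0) (c := 2) (cn := .npp) (n1 := ndB1q1) (n2 := ndB4q0) (pc := pcB2) (cut := Cut.none) (xt := Ext.none) (P1 := 536870912) (W1 := 536870912) (P2 := 0) (W2 := 536870912) (P3 := 587336777) (W3 := 62277027) (N0 := 3) (En := eng) (mo := mog) (C1 := cd1q1) (C2 := cd4q0) (C3 := pd2)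
    rfl k0_mm_102

noncomputable def f_mm_112 : ℕ → ℕ → ℕ → ℕ → Bool := onCell 536870912 536870912 536870912 536870912 587336777 62277027
    (rowB 3 eng mog cd1q1 cd4q1 pd2 0 true false false .dn 1 1 2 (qsf 536870912 536870912 536870912 536870912 2) ndB1q1 ndB4q1 pcB2 Cut.none Ext.none)

def k0_mm_112 : ∃ t, chk3 f_mm_112 t 1 1 1 = true :=
  ⟨(l 4), by decide +kernel⟩

theorem c_mm_112 : CertB 536870912 536870912 536870912 536870912 587336777 62277027 3 eng mog cd1q1 cd4q1 pd2 true false false .dn 1 1 2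
    ndB1q1 ndB4q1 pcB2 Cut.none Ext.none :=
  certB0 (fam := true) (s1 := false) (s2 := false) (a := 1) (b := 1) (c := 2) (cn := .dn) (n1 := ndB1q1) (n2 := ndB4q1) (pc := pcB2) (cut := Cut.none) (xt := Ext.none) (P1 := 536870912) (W1 := 536870912) (P2 := 536870912) (W2 := 536870912) (P3 := 587336777) (W3 := 62277027) (N0 := 3) (En := eng) (mo := mog) (C1 := cd1q1) (C2 := cd4q1) (C3 := pd2)
    rfl k0_mm_112

noncomputable def f_mm_113 : ℕ → ℕ → ℕ → ℕ → Bool := onCell 536870912 536870912 536870912 536870912 587336777 62277027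
    (rowB 3 eng mog cd1q1 cd4q1 pd3 0 true false false .nn 1 1 3 (qsf 536870912 536870912 536870912 536870912 3) ndB1q1 ndB4q1 pcB3 Cut.none Ext.none)

def k0_mm_113 : ∃ t, chk3 f_mm_113 t 1 1 1 = true :=
  ⟨(l 4), by decide +kernel⟩

theorem c_mm_113 : CertB 536870912 536870912 536870912 536870912 587336777 62277027 3 eng mog cd1q1 cd4q1 pd3 true false false .nn 1 1 3
    ndB1q1 ndB4q1 pcB3 Cut.none Ext.none :=
  certB0 (fam := true) (s1 := false) (s2 := false) (a := 1) (b := 1) (c := 3) (cn := .nn) (n1 := ndB1q1) (n2 := ndB4q1) (pc := pcB3) (cut := Cut.none) (xt := Ext.none) (P1 := 536870912) (W1 := 536870912) (P2 := 536870912) (W2 := 536870912) (P3 := 587336777) (W3 := 62277027) (N0 := 3) (En := eng) (mo := mog) (C1 := cd1q1) (C2 := cd4q1) (C3 := pd3)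
    rfl k0_mm_113

noncomputable def f_mm_123_a : ℕ → ℕ → ℕ → ℕ → Bool := onCell 536870912 536870912 0 536870912 587336777 62277027
    (rowB 3 eng mog cd1q1 cd4q2a pd3 0 true false false .npn 1 2 3 (qsf 536870912 536870912 0 536870912 3) ndB1q1 ndB4q2a pcB3 Cut.none Ext.none)

def k0_mm_123_a : ∃ t, chk3 f_mm_123_a t 1 1 1 = true :=
  ⟨(l 4), by decide +kernel⟩

theorem c_mm_123_a : CertB 536870912 536870912 0 536870912 587336777 62277027 3 eng mog cd1q1 cd4q2a pd3 true false false .npn 1 2 3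
    ndB1q1 ndB4q2a pcB3 Cut.none Ext.none :=
  certB0 (fam := true) (s1 := false) (s2 := false) (a := 1) (b := 2) (c := 3) (cn := .npn) (n1 := ndB1q1) (n2 := ndB4q2a) (pc := pcB3) (cut := Cut.none) (xt := Ext.none) (P1 := 536870912) (W1 := 536870912) (P2 := 0) (W2 := 536870912) (P3 := 587336777) (W3 := 62277027) (N0 := 3) (En := eng) (mo := mog) (C1 := cd1q1) (C2 := cd4q2a) (C3 := pd3)
    rfl k0_mm_123_a

noncomputable def f_mm_123_b : ℕ → ℕ → ℕ → ℕ → Bool := onCell 536870912 536870912 1239849684 370763052 587336777 62277027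
    (rowB 3 eng mog cd1q1 cd4q2b pd3 0 true false false .npn 1 2 3 (qsf 536870912 536870912 1239849684 370763052 3) ndB1q1 ndB4q2b pcB3 Cut.none Ext.none)

def k0_mm_123_b : ∃ t, chk3 f_mm_123_b t 1 1 1 = true :=
  ⟨(l 4), by decide +kernel⟩

theorem c_mm_123_b : CertB 536870912 536870912 1239849684 370763052 587336777 62277027 3 eng mog cd1q1 cd4q2b pd3 true false false .npn 1 2 3
    ndB1q1 ndB4q2b pcB3 Cut.none Ext.none :=
  certB0 (fam := true) (s1 := false) (s2 := false) (a := 1) (b := 2) (c := 3) (cn := .npn) (n1 := ndB1q1) (n2 := ndB4q2b) (pc := pcB3) (cut := Cut.none) (xt := Ext.none) (P1 := 536870912) (W1 := 536870912) (P2 := 1239849684) (W2 := 370763052) (P3 := 587336777) (W3 := 62277027) (N0 := 3) (En := eng) (mo := mog) (C1 := cd1q1) (C2 := cd4q2b) (C3 := pd3)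
    rfl k0_mm_123_b

noncomputable def f_mm_133 : ℕ → ℕ → ℕ → ℕ → Bool := onCell 536870912 536870912 1610612736 536870912 587336777 62277027
    (rowB 3 eng mog cd1q1 cd4q3 pd3 0 true false false .dn 1 3 3 (qsf 536870912 536870912 1610612736 536870912 3) ndB1q1 ndB4q3 pcB3 Cut.none Ext.none)

def k0_mm_133 : ∃ t, chk3 f_mm_133 t 1 1 1 = true :=
  ⟨(l 4), by decide +kernel⟩

theorem c_mm_133 : CertB 536870912 536870912 1610612736 536870912 587336777 62277027 3 eng mog cd1q1 cd4q3 pd3 true false false .dn 1 3 3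
    ndB1q1 ndB4q3 pcB3 Cut.none Ext.none :=
  certB0 (fam := true) (s1 := false) (s2 := false) (a := 1) (b := 3) (c := 3) (cn := .dn) (n1 := ndB1q1) (n2 := ndB4q3) (pc := pcB3) (cut := Cut.none) (xt := Ext.none) (P1 := 536870912) (W1 := 536870912) (P2 := 1610612736) (W2 := 536870912) (P3 := 587336777) (W3 := 62277027) (N0 := 3) (En := eng) (mo := mog) (C1 := cd1q1) (C2 := cd4q3) (C3 := pd3)
    rfl k0_mm_133

noncomputable def cut_mm_202_a : Cut := Cut.of [[⟨0, 1, 0, 67108864⟩, ⟨1, 0, 0, 67108864⟩, ⟨2, 1, 0, 67108864⟩]]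

noncomputable def f_mm_202_a : ℕ → ℕ → ℕ → ℕ → Bool := onCell 0 536870912 0 536870912 587336777 62277027
    (rowB 3 eng mog cd1q2a cd4q0 pd2 0 true false false .pp 2 0 2 (qsf 0 536870912 0 536870912 2) ndB1q2a ndB4q0 pcB2 cut_mm_202_a Ext.none)

def k0_mm_202_a : ∃ t, chk3 f_mm_202_a t 2 2 1 = true :=
  ⟨(b (b (a (b (a (b (l 16479200) (l 16467104)) (b (b (a (l 16462256) (l 16469352)) (l 16488704)) (a (l 16474048) (l 16481560)))) (a (l 16461872) (l 16495424))) (b (b (a (a (l 16481008) (b (l 16490656) (l 16495320))) (b (a (a (l 16501112) (l 16509040)) (a (l 16528176) (b (l 16525936) (l 16528208)))) (a (l 16509856) (l 16527224)))) (a (a (l 16491256) (l 16503344)) (a (l 16517992) (b (l 16532592) (l 16538464))))) (a (b (a (l 16503272) (l 16515664)) (l 16523008)) (a (b (l 16530496) (l 16544480)) (b (l 16548136) (l 16562400)))))) (a (b (l 16515992) (l 16546552)) (a (b (l 16545168) (l 16577824)) (b (l 16597760) (l 16610344))))) (b (a (b (l 16579656) (l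 16613104)) (b (a (l 16612112) (l 16644520)) (a (l 16645240) (l 4)))) (a (b (l 16645568) (l 16677272)) (l 4)))), by decide +kernel⟩

def k1_mm_202_a : ∃ t, chk3 f_mm_202_a t 3 2 1 = true :=
  ⟨(b (a (b (b (a (b (b (a (b (a (l 16536040) (l 16546200)) (a (l 16538320) (l 16549208))) (b (a (l 16556808) (b (l 16566960) (l 16569016))) (l 16545408))) (a (l 16547496) (l 16570848))) (a (l 16545360) (l 16579240))) (b (b (a (b (a (l 16579880) (l 16592328)) (l 16590568)) (a (b (l 16605400) (l 16610192)) (b (l 16619392) (l 16624424)))) (a (l 16596960) (l 16624488))) (a (l 16605408) (l 16655368)))) (a (a (b (l 16568648) (l 16583072)) (b (l 16592152) (l 16606696))) (a (b (l 16618304) (l 16632888)) (b (a (l 16639680) (l 16654560)) (l 16704032))))) (a (b (a (l 16606952) (b (l 16622536) (l 16639344))) (l 16778936)) (a (b (b (l 16670000) (l 4)) (l 4)) (l 4)))) (b (a (b (b (b (a (a (b (l 16634088) (l 16639360)) (b (a (l 16645512) (l 16653512)) (l 16655048))) (a (b (l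 6) (l 16672128)) (l 6))) (a (a (l 16647016) (l 16663072)) (a (l 16680448) (l 16698904)))) (a (b (l 16663064) (l 16668768)) (b (l 16717312) (l 16702344)))) (b (a (l 16678832) (a (l 96334491079) (l 4))) (a (l 16736568) (l 4)))) (b (a (b (l 6) (b (l 6) (l 4))) (l 6)) (l 4))) (l 4))) (l 4)), by decide +kernel⟩

def k2_mm_202_a : ∃ t, chk3 f_mm_202_a t 1 3 1 = true :=
  ⟨(a (a (b (l 4) (l 2)) (l 4)) (l 4)), by decide +kernel⟩

theorem s3_mm_202_a : ∃ t, chk3 f_mm_202_a t 1 2 1 = true := ex3_a k0_mm_202_a k1_mm_202_a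

theorem s4_mm_202_a : ∃ t, chk3 f_mm_202_a t 1 1 1 = true := ex3_b s3_mm_202_a k2_mm_202_a

theorem c_mm_202_a : CertB 0 536870912 0 536870912 587336777 62277027 3 eng mog cd1q2a cd4q0 pd2 true false false .pp 2 0 2
    ndB1q2a ndB4q0 pcB2 cut_mm_202_a Ext.none :=
  certB0 (fam := true) (s1 := false) (s2 := false) (a := 2) (b := 0) (c := 2) (cn := .pp) (n1 := ndB1q2a) (n2 := ndB4q0) (pc := pcB2) (cut := cut_mm_202_a) (xt := Ext.none) (P1 := 0) (W1 := 536870912) (P2 := 0) (W2 := 536870912) (P3 := 587336777) (W3 := 62277027) (N0 := 3) (En := eng) (mo := mog) (C1 := cd1q2a) (C2 := cd4q0) (C3 := pd2)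
    rfl s4_mm_202_a

noncomputable def cut_mm_202_b : Cut := Cut.of [[⟨0, 1, 0, 67108864⟩, ⟨1, 0, 0, 67108864⟩, ⟨2, 1, 0, 67108864⟩]]

noncomputable def f_mm_202_b : ℕ → ℕ → ℕ → ℕ → Bool := onCell 1073741824 536870912 0 536870912 587336777 62277027
    (rowB 3 eng mog cd1q2b cd4q0 pd2 2 true false false .pp 2 0 2 (qsf 1239849684 370763052 0 536870912 2) ndB1q2b ndB4q0 pcB2 cut_mm_202_b Ext.none)

def k0_mm_202_b : ∃ t, chk3 f_mm_202_b t 1 1 1 = true :=
  ⟨(a (b (a (l 1) (b (b (a (a (b (b (l 16585280) (l 1)) (l 1)) (b (b (l 16499584) (l 16476592)) (a (l 1) (l 16520152)))) (b (b (l 16344368) (l 16380352)) (a (l 16476056) (l 16413096)))) (a (l 1) (b (a (l 237330016631) (l 16500624)) (l 258268061895)))) (l 1))) (l 1)) (a (b (b (a (b (b (b (l 16257184) (l 16269928)) (l 16322104)) (a (l 16486232) (l 16424920))) (b (a (b (l 16205576) (l 16252272)) (l 16214688)) (a (l 16355208) (l 16321624)))) (a (b (a (l 277058584567) (l 16527472)) (l 1)) (b (a (l 16552032)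 (l 16490376)) (a (l 306586617287) (l 16663264))))) (l 1)) (b (a (b (b (b (l 16144152) (l 16201456)) (l 16289576)) (b (l 16396024) (a (l 16619760) (l 16564952)))) (b (b (l 16162736) (l 16260240)) (a (l 16421480) (l 16416000)))) (b (a (b (l 463889635079) (l 1)) (l 4)) (l 1))))), by decide +kernel⟩

theorem c_mm_202_b : CertB 1239849684 370763052 0 536870912 587336777 62277027 3 eng mog cd1q2b cd4q0 pd2 true false false .pp 2 0 2
    ndB1q2b ndB4q0 pcB2 cut_mm_202_b Ext.none :=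
  certB2 (fam := true) (s1 := false) (s2 := false) (a := 2) (b := 0) (c := 2) (cn := .pp) (n1 := ndB1q2b) (n2 := ndB4q0) (pc := pcB2) (cut := cut_mm_202_b) (xt := Ext.none) (P1 := 1239849684) (W1 := 370763052) (P2 := 0) (W2 := 536870912) (P3 := 587336777) (W3 := 62277027) (N0 := 3) (En := eng) (mo := mog) (C1 := cd1q2b) (C2 := cd4q0) (C3 := pd2)
    rfl (fun _ => rfl) k0_mm_202_b

noncomputable def f_mm_203_a : ℕ → ℕ → ℕ → ℕ → Bool := onCell 0 536870912 1610612736 536870912 587336777 62277027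
    (rowB 3 eng mog cd1q2a cd4q0 pd3 1 true false false .up 2 0 3 (qsf 0 536870912 0 536870912 3) ndB1q2a ndB4q0 pcB3 Cut.none Ext.none)

def k0_mm_203_a : ∃ t, chk3 f_mm_203_a t 1 1 1 = true :=
  ⟨(l 4), by decide +kernel⟩

theorem c_mm_203_a : CertB 0 536870912 0 536870912 587336777 62277027 3 eng mog cd1q2a cd4q0 pd3 true false false .up 2 0 3
    ndB1q2a ndB4q0 pcB3 Cut.none Ext.none :=
  certB1 (fam := true) (s1 := false) (s2 := false) (a := 2) (b := 0) (c := 3) (cn := .up) (n1 := ndB1q2a) (n2 := ndB4q0) (pc := pcB3) (cut := Cut.none) (xt := Ext.none) (P1 := 0) (W1 := 536870912) (P2 := 0) (W2 := 536870912) (P3 := 587336777) (W3 := 62277027) (N0 := 3) (En := eng) (mo := mog) (C1 := cd1q2a) (C2 := cd4q0) (C3 := pd3)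
    rfl (fun _ => rfl) k0_mm_203_a

noncomputable def f_mm_203_b : ℕ → ℕ → ℕ → ℕ → Bool := onCell 1239849684 370763052 1610612736 536870912 587336777 62277027
    (rowB 3 eng mog cd1q2b cd4q0 pd3 1 true false false .up 2 0 3 (qsf 1239849684 370763052 0 536870912 3) ndB1q2b ndB4q0 pcB3 Cut.none Ext.none)

def k0_mm_203_b : ∃ t, chk3 f_mm_203_b t 1 1 1 = true :=
  ⟨(b (b (a (l 4) (b (a (b (l 16342208) (l 4)) (b (l 16199088) (l 16247600))) (l 4))) (l 4)) (l 4)), by decide +kernel⟩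

theorem c_mm_203_b : CertB 1239849684 370763052 0 536870912 587336777 62277027 3 eng mog cd1q2b cd4q0 pd3 true false false .up 2 0 3
    ndB1q2b ndB4q0 pcB3 Cut.none Ext.none :=
  certB1 (fam := true) (s1 := false) (s2 := false) (a := 2) (b := 0) (c := 3) (cn := .up) (n1 := ndB1q2b) (n2 := ndB4q0) (pc := pcB3) (cut := Cut.none) (xt := Ext.none) (P1 := 1239849684) (W1 := 370763052) (P2 := 0) (W2 := 536870912) (P3 := 587336777) (W3 := 62277027) (N0 := 3) (En := eng) (mo := mog) (C1 := cd1q2b) (C2 := cd4q0) (C3 := pd3)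
    rfl (fun _ => rfl) k0_mm_203_b

noncomputable def f_mm_213_a : ℕ → ℕ → ℕ → ℕ → Bool := onCell 0 536870912 536870912 536870912 587336777 62277027
    (rowB 3 eng mog cd1q2a cd4q1 pd3 0 true false false .pnn 2 1 3 (qsf 0 536870912 536870912 536870912 3) ndB1q2a ndB4q1 pcB3 Cut.none Ext.none)

def k0_mm_213_a : ∃ t, chk3 f_mm_213_a t 1 1 1 = true :=
  ⟨(l 4), by decide +kernel⟩

theorem c_mm_213_a : CertB 0 536870912 536870912 536870912 587336777 62277027 3 eng mog cd1q2a cd4q1 pd3 true false false .pnn 2 1 3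
    ndB1q2a ndB4q1 pcB3 Cut.none Ext.none :=
  certB0 (fam := true) (s1 := false) (s2 := false) (a := 2) (b := 1) (c := 3) (cn := .pnn) (n1 := ndB1q2a) (n2 := ndB4q1) (pc := pcB3) (cut := Cut.none) (xt := Ext.none) (P1 := 0) (W1 := 536870912) (P2 := 536870912) (W2 := 536870912) (P3 := 587336777) (W3 := 62277027) (N0 := 3) (En := eng) (mo := mog) (C1 := cd1q2a) (C2 := cd4q1) (C3 := pd3)
    rfl k0_mm_213_a

noncomputable def f_mm_213_b : ℕ → ℕ → ℕ → ℕ → Bool := onCell 1239849684 370763052 536870912 536870912 587336777 62277027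
    (rowB 3 eng mog cd1q2b cd4q1 pd3 0 true false false .pnn 2 1 3 (qsf 1239849684 370763052 536870912 536870912 3) ndB1q2b ndB4q1 pcB3 Cut.none Ext.none)

def k0_mm_213_b : ∃ t, chk3 f_mm_213_b t 1 1 1 = true :=
  ⟨(l 4), by decide +kernel⟩

theorem c_mm_213_b : CertB 1239849684 370763052 536870912 536870912 587336777 62277027 3 eng mog cd1q2b cd4q1 pd3 true false false .pnn 2 1 3
    ndB1q2b ndB4q1 pcB3 Cut.none Ext.none :=
  certB0 (fam := true) (s1 := false) (s2 := false) (a := 2) (b := 1) (c := 3) (cn := .pnn) (n1 := ndB1q2b) (n2 := ndB4q1) (pc := pcB3) (cut := Cut.none) (xt := Ext.none) (P1 := 1239849684) (W1 := 370763052) (P2 := 536870912) (W2 := 536870912) (P3 := 587336777) (W3 := 62277027) (N0 := 3) (En := eng) (mo := mog) (C1 := cd1q2b) (C2 := cd4q1) (C3 := pd3)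
    rfl k0_mm_213_b

noncomputable def f_mm_303 : ℕ → ℕ → ℕ → ℕ → Bool := onCell 1610612736 536870912 0 536870912 587336777 62277027
    (rowB 3 eng mog cd1q3 cd4q0 pd3 2 true false false .npn 3 0 3 (qsf 1610612736 536870912 0 536870912 3) ndB1q3 ndB4q0 pcB3 Cut.none Ext.none)

def k0_mm_303 : ∃ t, chk3 f_mm_303 t 1 1 1 = true :=
  ⟨(b (a (b (a (a (b (l 16250816) (l 16258952)) (a (l 16228520) (l 16282096))) (l 4)) (l 4)) (l 4)) (l 4)), by decide +kernel⟩

theorem c_mm_303 : CertB 1610612736 536870912 0 536870912 587336777 62277027 3 eng mog cd1q3 cd4q0 pd3 true false false .npn 3 0 3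
    ndB1q3 ndB4q0 pcB3 Cut.none Ext.none :=
  certB2 (fam := true) (s1 := false) (s2 := false) (a := 3) (b := 0) (c := 3) (cn := .npn) (n1 := ndB1q3) (n2 := ndB4q0) (pc := pcB3) (cut := Cut.none) (xt := Ext.none) (P1 := 1610612736) (W1 := 536870912) (P2 := 0) (W2 := 536870912) (P3 := 587336777) (W3 := 62277027) (N0 := 3) (En := eng) (mo := mog) (C1 := cd1q3) (C2 := cd4q0) (C3 := pd3)
    rfl (fun _ => rfl) k0_mm_303

noncomputable def f_mm_313 : ℕ → ℕ → ℕ → ℕ → Bool := onCell 1610612736 536870912 536870912 536870912 587336777 62277027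
    (rowB 3 eng mog cd1q3 cd4q1 pd3 0 true false false .dn 3 1 3 (qsf 1610612736 536870912 536870912 536870912 3) ndB1q3 ndB4q1 pcB3 Cut.none Ext.none)

def k0_mm_313 : ∃ t, chk3 f_mm_313 t 1 1 1 = true :=
  ⟨(l 4), by decide +kernel⟩

theorem c_mm_313 : CertB 1610612736 536870912 536870912 536870912 587336777 62277027 3 eng mog cd1q3 cd4q1 pd3 true false false .dn 3 1 3
    ndB1q3 ndB4q1 pcB3 Cut.none Ext.none :=
  certB0 (fam := true) (s1 := false) (s2 := false) (a := 3) (b := 1) (c := 3) (cn := .dn) (n1 := ndB1q3) (n2 := ndB4q1) (pc := pcB3) (cut := Cut.none) (xt := Ext.none) (P1 := 1610612736) (W1 := 536870912) (P2 := 536870912) (W2 := 536870912) (P3 := 587336777) (W3 := 62277027) (N0 := 3) (En := eng) (mo := mog) (C1 := cd1q3) (C2 := cd4q1) (C3 := pd3)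
    rfl k0_mm_313

end Pool.Agent.Strip051.G.I5470_6050.Tab.C.BA14

namespace Pool.Agent.Strip051.G.I5470_6050.Tab.C.BA15

open Pool.Agent.Strip051.PB Pool.Agent.Strip051.PB.T
open Pool.Agent.Strip051.G.I5470_6050.Tab

noncomputable def f_pp_001 : ℕ → ℕ → ℕ → ℕ → Bool := onCell 0 536870912 0 536870912 587336777 62277027
    (rowB 3 eng mog cd1q0 cd5q0 pd1 0 true true true .up 0 0 1 (qsf 0 536870912 0 536870912 1) ndB1q0 ndB5q0 pcB1 Cut.none Ext.none)

def k0_pp_001 : ∃ t, chk3 f_pp_001 t 1 1 1 = true :=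
  ⟨(l 4), by decide +kernel⟩

theorem c_pp_001 : CertB 0 536870912 0 536870912 587336777 62277027 3 eng mog cd1q0 cd5q0 pd1 true true true .up 0 0 1
    ndB1q0 ndB5q0 pcB1 Cut.none Ext.none :=
  certB0 (fam := true) (s1 := true) (s2 := true) (a := 0) (b := 0) (c := 1) (cn := .up) (n1 := ndB1q0) (n2 := ndB5q0) (pc := pcB1) (cut := Cut.none) (xt := Ext.none) (P1 := 0) (W1 := 536870912) (P2 := 0) (W2 := 536870912) (P3 := 587336777) (W3 := 62277027) (N0 := 3) (En := eng) (mo := mog) (C1 := cd1q0) (C2 := cd5q0) (C3 := pd1)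
    rfl k0_pp_001

noncomputable def f_pp_011 : ℕ → ℕ → ℕ → ℕ → Bool := onCell 0 536870912 536870912 536870912 587336777 62277027
    (rowB 3 eng mog cd1q0 cd5q1 pd1 0 true true true .pnn 0 1 1 (qsf 0 536870912 536870912 536870912 1) ndB1q0 ndB5q1 pcB1 Cut.none Ext.none)

def k0_pp_011 : ∃ t, chk3 f_pp_011 t 1 1 1 = true :=
  ⟨(l 4), by decide +kernel⟩

theorem c_pp_011 : CertB 0 536870912 536870912 536870912 587336777 62277027 3 eng mog cd1q0 cd5q1 pd1 true true true .pnn 0 1 1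
    ndB1q0 ndB5q1 pcB1 Cut.none Ext.none :=
  certB0 (fam := true) (s1 := true) (s2 := true) (a := 0) (b := 1) (c := 1) (cn := .pnn) (n1 := ndB1q0) (n2 := ndB5q1) (pc := pcB1) (cut := Cut.none) (xt := Ext.none) (P1 := 0) (W1 := 536870912) (P2 := 536870912) (W2 := 536870912) (P3 := 587336777) (W3 := 62277027) (N0 := 3) (En := eng) (mo := mog) (C1 := cd1q0) (C2 := cd5q1) (C3 := pd1)
    rfl k0_pp_011

noncomputable def f_pp_012 : ℕ → ℕ → ℕ → ℕ → Bool := onCell 0 536870912 536870912 536870912 587336777 62277027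
    (rowB 3 eng mog cd1q0 cd5q1 pd2 0 true true true .pnp 0 1 2 (qsf 0 536870912 536870912 536870912 2) ndB1q0 ndB5q1 pcB2 Cut.none Ext.none)

def k0_pp_012 : ∃ t, chk3 f_pp_012 t 1 1 1 = true :=
  ⟨(l 4), by decide +kernel⟩

theorem c_pp_012 : CertB 0 536870912 536870912 536870912 587336777 62277027 3 eng mog cd1q0 cd5q1 pd2 true true true .pnp 0 1 2
    ndB1q0 ndB5q1 pcB2 Cut.none Ext.none :=
  certB0 (fam := true) (s1 := true) (s2 := true) (a := 0) (b := 1) (c := 2) (cn := .pnp) (n1 := ndB1q0) (n2 := ndB5q1) (pc := pcB2) (cut := Cut.none) (xt := Ext.none) (P1 := 0) (W1 := 536870912) (P2 := 536870912) (W2 := 536870912) (P3 := 587336777) (W3 := 62277027) (N0 := 3) (En := eng) (mo := mog) (C1 := cd1q0) (C2 := cd5q1) (C3 := pd2)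
    rfl k0_pp_012

noncomputable def f_pp_022 : ℕ → ℕ → ℕ → ℕ → Bool := onCell 0 536870912 1073741824 536870912 587336777 62277027
    (rowB 3 eng mog cd1q0 cd5q2 pd2 0 true true true .pp 0 2 2 (qsf 0 536870912 1073741824 536870912 2) ndB1q0 ndB5q2 pcB2 Cut.none Ext.none)

def k0_pp_022 : ∃ t, chk3 f_pp_022 t 1 1 1 = true :=
  ⟨(l 4), by decide +kernel⟩

theorem c_pp_022 : CertB 0 536870912 1073741824 536870912 587336777 62277027 3 eng mog cd1q0 cd5q2 pd2 true true true .pp 0 2 2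
    ndB1q0 ndB5q2 pcB2 Cut.none Ext.none :=
  certB0 (fam := true) (s1 := true) (s2 := true) (a := 0) (b := 2) (c := 2) (cn := .pp) (n1 := ndB1q0) (n2 := ndB5q2) (pc := pcB2) (cut := Cut.none) (xt := Ext.none) (P1 := 0) (W1 := 536870912) (P2 := 1073741824) (W2 := 536870912) (P3 := 587336777) (W3 := 62277027) (N0 := 3) (En := eng) (mo := mog) (C1 := cd1q0) (C2 := cd5q2) (C3 := pd2)
    rfl k0_pp_022

noncomputable def f_pp_023 : ℕ → ℕ → ℕ → ℕ → Bool := onCell 0 536870912 1073741824 536870912 587336777 62277027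
    (rowB 3 eng mog cd1q0 cd5q2 pd3 0 true true true .up 0 2 3 (qsf 0 536870912 1073741824 536870912 3) ndB1q0 ndB5q2 pcB3 Cut.none Ext.none)

def k0_pp_023 : ∃ t, chk3 f_pp_023 t 1 1 1 = true :=
  ⟨(l 4), by decide +kernel⟩

theorem c_pp_023 : CertB 0 536870912 1073741824 536870912 587336777 62277027 3 eng mog cd1q0 cd5q2 pd3 true true true .up 0 2 3
    ndB1q0 ndB5q2 pcB3 Cut.none Ext.none :=
  certB0 (fam := true) (s1 := true) (s2 := true) (a := 0) (b := 2) (c := 3) (cn := .up) (n1 := ndB1q0) (n2 := ndB5q2) (pc := pcB3) (cut := Cut.none) (xt := Ext.none) (P1 := 0) (W1 := 536870912) (P2 := 1073741824) (W2 := 536870912) (P3 := 587336777) (W3 := 62277027) (N0 := 3) (En := eng) (mo := mog) (C1 := cd1q0) (C2 := cd5q2) (C3 := pd3)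
    rfl k0_pp_023

noncomputable def f_pp_033 : ℕ → ℕ → ℕ → ℕ → Bool := onCell 0 536870912 0 1230186008 587336777 62277027
    (rowB 3 eng mog cd1q0 cd5q3 pd3 0 true true true .pnn 0 3 3 (qsf 0 536870912 0 1230186008 3) ndB1q0 ndB5q3 pcB3 Cut.none Ext.none)

def k0_pp_033 : ∃ t, chk3 f_pp_033 t 1 1 1 = true :=
  ⟨(b (l 4) (l 4)), by decide +kernel⟩

theorem c_pp_033 : CertB 0 536870912 0 1230186008 587336777 62277027 3 eng mog cd1q0 cd5q3 pd3 true true true .pnn 0 3 3
    ndB1q0 ndB5q3 pcB3 Cut.none Ext.none :=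
  certB0 (fam := true) (s1 := true) (s2 := true) (a := 0) (b := 3) (c := 3) (cn := .pnn) (n1 := ndB1q0) (n2 := ndB5q3) (pc := pcB3) (cut := Cut.none) (xt := Ext.none) (P1 := 0) (W1 := 536870912) (P2 := 0) (W2 := 1230186008) (P3 := 587336777) (W3 := 62277027) (N0 := 3) (En := eng) (mo := mog) (C1 := cd1q0) (C2 := cd5q3) (C3 := pd3)
    rfl k0_pp_033

noncomputable def f_pp_101 : ℕ → ℕ → ℕ → ℕ → Bool := onCell 536870912 536870912 0 536870912 587336777 62277027
    (rowB 3 eng mog cd1q1 cd5q0 pd1 0 true true true .npn 1 0 1 (qsf 536870912 536870912 0 536870912 1) ndB1q1 ndB5q0 pcB1 Cut.none Ext.none)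

def k0_pp_101 : ∃ t, chk3 f_pp_101 t 1 1 1 = true :=
  ⟨(l 4), by decide +kernel⟩

theorem c_pp_101 : CertB 536870912 536870912 0 536870912 587336777 62277027 3 eng mog cd1q1 cd5q0 pd1 true true true .npn 1 0 1
    ndB1q1 ndB5q0 pcB1 Cut.none Ext.none :=
  certB0 (fam := true) (s1 := true) (s2 := true) (a := 1) (b := 0) (c := 1) (cn := .npn) (n1 := ndB1q1) (n2 := ndB5q0) (pc := pcB1) (cut := Cut.none) (xt := Ext.none) (P1 := 536870912) (W1 := 536870912) (P2 := 0) (W2 := 536870912) (P3 := 587336777) (W3 := 62277027) (N0 := 3) (En := eng) (mo := mog) (C1 := cd1q1) (C2 := cd5q0) (C3 := pd1)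
    rfl k0_pp_101

noncomputable def f_pp_102 : ℕ → ℕ → ℕ → ℕ → Bool := onCell 536870912 536870912 0 536870912 587336777 62277027
    (rowB 3 eng mog cd1q1 cd5q0 pd2 0 true true true .npp 1 0 2 (qsf 536870912 536870912 0 536870912 2) ndB1q1 ndB5q0 pcB2 Cut.none Ext.none)

def k0_pp_102 : ∃ t, chk3 f_pp_102 t 1 1 1 = true :=
  ⟨(l 4), by decide +kernel⟩

theorem c_pp_102 : CertB 536870912 536870912 0 536870912 587336777 62277027 3 eng mog cd1q1 cd5q0 pd2 true true true .npp 1 0 2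
    ndB1q1 ndB5q0 pcB2 Cut.none Ext.none :=
  certB0 (fam := true) (s1 := true) (s2 := true) (a := 1) (b := 0) (c := 2) (cn := .npp) (n1 := ndB1q1) (n2 := ndB5q0) (pc := pcB2) (cut := Cut.none) (xt := Ext.none) (P1 := 536870912) (W1 := 536870912) (P2 := 0) (W2 := 536870912) (P3 := 587336777) (W3 := 62277027) (N0 := 3) (En := eng) (mo := mog) (C1 := cd1q1) (C2 := cd5q0) (C3 := pd2)
    rfl k0_pp_102

noncomputable def f_pp_112 : ℕ → ℕ → ℕ → ℕ → Bool := onCell 536870912 536870912 536870912 536870912 587336777 62277027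
    (rowB 3 eng mog cd1q1 cd5q1 pd2 0 true true true .dn 1 1 2 (qsf 536870912 536870912 536870912 536870912 2) ndB1q1 ndB5q1 pcB2 Cut.none Ext.none)

def k0_pp_112 : ∃ t, chk3 f_pp_112 t 1 1 1 = true :=
  ⟨(l 4), by decide +kernel⟩

theorem c_pp_112 : CertB 536870912 536870912 536870912 536870912 587336777 62277027 3 eng mog cd1q1 cd5q1 pd2 true true true .dn 1 1 2
    ndB1q1 ndB5q1 pcB2 Cut.none Ext.none :=
  certB0 (fam := true) (s1 := true) (s2 := true) (a := 1) (b := 1) (c := 2) (cn := .dn) (n1 := ndB1q1) (n2 := ndB5q1) (pc := pcB2) (cut := Cut.none) (xt := Ext.none) (P1 := 536870912) (W1 := 536870912) (P2 := 536870912) (W2 := 536870912) (P3 := 587336777) (W3 := 62277027) (N0 := 3) (En := eng) (mo := mog) (C1 := cd1q1) (C2 := cd5q1) (C3 := pd2)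
    rfl k0_pp_112

noncomputable def f_pp_113 : ℕ → ℕ → ℕ → ℕ → Bool := onCell 536870912 536870912 536870912 536870912 587336777 62277027
    (rowB 3 eng mog cd1q1 cd5q1 pd3 0 true true true .nn 1 1 3 (qsf 536870912 536870912 536870912 536870912 3) ndB1q1 ndB5q1 pcB3 Cut.none Ext.none)

def k0_pp_113 : ∃ t, chk3 f_pp_113 t 1 1 1 = true :=
  ⟨(l 4), by decide +kernel⟩

theorem c_pp_113 : CertB 536870912 536870912 536870912 536870912 587336777 62277027 3 eng mog cd1q1 cd5q1 pd3 true true true .nn 1 1 3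
    ndB1q1 ndB5q1 pcB3 Cut.none Ext.none :=
  certB0 (fam := true) (s1 := true) (s2 := true) (a := 1) (b := 1) (c := 3) (cn := .nn) (n1 := ndB1q1) (n2 := ndB5q1) (pc := pcB3) (cut := Cut.none) (xt := Ext.none) (P1 := 536870912) (W1 := 536870912) (P2 := 536870912) (W2 := 536870912) (P3 := 587336777) (W3 := 62277027) (N0 := 3) (En := eng) (mo := mog) (C1 := cd1q1) (C2 := cd5q1) (C3 := pd3)
    rfl k0_pp_113

noncomputable def f_pp_123 : ℕ → ℕ → ℕ → ℕ → Bool := onCell 536870912 536870912 1073741824 536870912 587336777 62277027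
    (rowB 3 eng mog cd1q1 cd5q2 pd3 0 true true true .npn 1 2 3 (qsf 536870912 536870912 1073741824 536870912 3) ndB1q1 ndB5q2 pcB3 Cut.none Ext.none)

def k0_pp_123 : ∃ t, chk3 f_pp_123 t 1 1 1 = true :=
  ⟨(l 4), by decide +kernel⟩

theorem c_pp_123 : CertB 536870912 536870912 1073741824 536870912 587336777 62277027 3 eng mog cd1q1 cd5q2 pd3 true true true .npn 1 2 3
    ndB1q1 ndB5q2 pcB3 Cut.none Ext.none :=
  certB0 (fam := true) (s1 := true) (s2 := true) (a := 1) (b := 2) (c := 3) (cn := .npn) (n1 := ndB1q1) (n2 := ndB5q2) (pc := pcB3) (cut := Cut.none) (xt := Ext.none) (P1 := 536870912) (W1 := 536870912) (P2 := 1073741824) (W2 := 536870912) (P3 := 587336777) (W3 := 62277027) (N0 := 3) (En := eng) (mo := mog) (C1 := cd1q1) (C2 := cd5q2) (C3 := pd3)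
    rfl k0_pp_123

noncomputable def f_pp_133 : ℕ → ℕ → ℕ → ℕ → Bool := onCell 536870912 536870912 0 1230186008 587336777 62277027
    (rowB 3 eng mog cd1q1 cd5q3 pd3 0 true true true .dn 1 3 3 (qsf 536870912 536870912 0 1230186008 3) ndB1q1 ndB5q3 pcB3 Cut.none Ext.none)

def k0_pp_133 : ∃ t, chk3 f_pp_133 t 1 1 1 = true :=
  ⟨(l 4), by decide +kernel⟩

theorem c_pp_133 : CertB 536870912 536870912 0 1230186008 587336777 62277027 3 eng mog cd1q1 cd5q3 pd3 true true true .dn 1 3 3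
    ndB1q1 ndB5q3 pcB3 Cut.none Ext.none :=
  certB0 (fam := true) (s1 := true) (s2 := true) (a := 1) (b := 3) (c := 3) (cn := .dn) (n1 := ndB1q1) (n2 := ndB5q3) (pc := pcB3) (cut := Cut.none) (xt := Ext.none) (P1 := 536870912) (W1 := 536870912) (P2 := 0) (W2 := 1230186008) (P3 := 587336777) (W3 := 62277027) (N0 := 3) (En := eng) (mo := mog) (C1 := cd1q1) (C2 := cd5q3) (C3 := pd3)
    rfl k0_pp_133

noncomputable def f_pp_202_a : ℕ → ℕ → ℕ → ℕ → Bool := onCell 0 536870912 0 536870912 587336777 62277027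
    (rowB 3 eng mog cd1q2a cd5q0 pd2 0 true true true .pp 2 0 2 (qsf 0 536870912 0 536870912 2) ndB1q2a ndB5q0 pcB2 Cut.none Ext.none)

def k0_pp_202_a : ∃ t, chk3 f_pp_202_a t 1 1 1 = true :=
  ⟨(l 5), by decide +kernel⟩

theorem c_pp_202_a : CertB 0 536870912 0 536870912 587336777 62277027 3 eng mog cd1q2a cd5q0 pd2 true true true .pp 2 0 2
    ndB1q2a ndB5q0 pcB2 Cut.none Ext.none :=
  certB0 (fam := true) (s1 := true) (s2 := true) (a := 2) (b := 0) (c := 2) (cn := .pp) (n1 := ndB1q2a) (n2 := ndB5q0) (pc := pcB2) (cut := Cut.none) (xt := Ext.none) (P1 := 0) (W1 := 536870912) (P2 := 0) (W2 := 536870912) (P3 := 587336777) (W3 := 62277027) (N0 := 3) (En := eng) (mo := mog) (C1 := cd1q2a) (C2 := cd5q0) (C3 := pd2)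
    rfl k0_pp_202_a

noncomputable def f_pp_202_b : ℕ → ℕ → ℕ → ℕ → Bool := onCell 1239849684 370763052 0 536870912 587336777 62277027
    (rowB 3 eng mog cd1q2b cd5q0 pd2 0 true true true .pp 2 0 2 (qsf 1239849684 370763052 0 536870912 2) ndB1q2b ndB5q0 pcB2 Cut.none Ext.none)

def k0_pp_202_b : ∃ t, chk3 f_pp_202_b t 1 1 1 = true :=
  ⟨(l 5), by decide +kernel⟩

theorem c_pp_202_b : CertB 1239849684 370763052 0 536870912 587336777 62277027 3 eng mog cd1q2b cd5q0 pd2 true true true .pp 2 0 2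
    ndB1q2b ndB5q0 pcB2 Cut.none Ext.none :=
  certB0 (fam := true) (s1 := true) (s2 := true) (a := 2) (b := 0) (c := 2) (cn := .pp) (n1 := ndB1q2b) (n2 := ndB5q0) (pc := pcB2) (cut := Cut.none) (xt := Ext.none) (P1 := 1239849684) (W1 := 370763052) (P2 := 0) (W2 := 536870912) (P3 := 587336777) (W3 := 62277027) (N0 := 3) (En := eng) (mo := mog) (C1 := cd1q2b) (C2 := cd5q0) (C3 := pd2)
    rfl k0_pp_202_b

noncomputable def f_pp_203_a : ℕ → ℕ → ℕ → ℕ → Bool := onCell 0 536870912 0 536870912 587336777 62277027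
    (rowB 3 eng mog cd1q2a cd5q0 pd3 0 true true true .up 2 0 3 (qsf 0 536870912 0 536870912 3) ndB1q2a ndB5q0 pcB3 Cut.none Ext.none)

def k0_pp_203_a : ∃ t, chk3 f_pp_203_a t 1 1 1 = true :=
  ⟨(l 5), by decide +kernel⟩

theorem c_pp_203_a : CertB 0 536870912 0 536870912 587336777 62277027 3 eng mog cd1q2a cd5q0 pd3 true true true .up 2 0 3
    ndB1q2a ndB5q0 pcB3 Cut.none Ext.none :=
  certB0 (fam := true) (s1 := true) (s2 := true) (a := 2) (b := 0) (c := 3) (cn := .up) (n1 := ndB1q2a) (n2 := ndB5q0) (pc := pcB3) (cut := Cut.none) (xt := Ext.none) (P1 := 0) (W1 := 536870912) (P2 := 0) (W2 := 536870912) (P3 := 587336777) (W3 := 62277027) (N0 := 3) (En := eng) (mo := mog) (C1 := cd1q2a) (C2 := cd5q0) (C3 := pd3)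
    rfl k0_pp_203_a

noncomputable def f_pp_203_b : ℕ → ℕ → ℕ → ℕ → Bool := onCell 1239849684 370763052 0 536870912 587336777 62277027
    (rowB 3 eng mog cd1q2b cd5q0 pd3 0 true true true .up 2 0 3 (qsf 1239849684 370763052 0 536870912 3) ndB1q2b ndB5q0 pcB3 Cut.none Ext.none)

def k0_pp_203_b : ∃ t, chk3 f_pp_203_b t 1 1 1 = true :=
  ⟨(l 5), by decide +kernel⟩

theorem c_pp_203_b : CertB 1239849684 370763052 0 536870912 587336777 62277027 3 eng mog cd1q2b cd5q0 pd3 true true true .up 2 0 3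
    ndB1q2b ndB5q0 pcB3 Cut.none Ext.none :=
  certB0 (fam := true) (s1 := true) (s2 := true) (a := 2) (b := 0) (c := 3) (cn := .up) (n1 := ndB1q2b) (n2 := ndB5q0) (pc := pcB3) (cut := Cut.none) (xt := Ext.none) (P1 := 1239849684) (W1 := 370763052) (P2 := 0) (W2 := 536870912) (P3 := 587336777) (W3 := 62277027) (N0 := 3) (En := eng) (mo := mog) (C1 := cd1q2b) (C2 := cd5q0) (C3 := pd3)
    rfl k0_pp_203_b

noncomputable def f_pp_213_a : ℕ → ℕ → ℕ → ℕ → Bool := onCell 0 536870912 536870912 536870912 587336777 62277027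
    (rowB 3 eng mog cd1q2a cd5q1 pd3 0 true true true .pnn 2 1 3 (qsf 0 536870912 536870912 536870912 3) ndB1q2a ndB5q1 pcB3 Cut.none Ext.none)

def k0_pp_213_a : ∃ t, chk3 f_pp_213_a t 1 1 1 = true :=
  ⟨(l 4), by decide +kernel⟩

theorem c_pp_213_a : CertB 0 536870912 536870912 536870912 587336777 62277027 3 eng mog cd1q2a cd5q1 pd3 true true true .pnn 2 1 3
    ndB1q2a ndB5q1 pcB3 Cut.none Ext.none :=
  certB0 (fam := true) (s1 := true) (s2 := true) (a := 2) (b := 1) (c := 3) (cn := .pnn) (n1 := ndB1q2a) (n2 := ndB5q1) (pc := pcB3) (cut := Cut.none) (xt := Ext.none) (P1 := 0) (W1 := 536870912) (P2 := 536870912) (W2 := 536870912) (P3 := 587336777) (W3 := 62277027) (N0 := 3) (En := eng) (mo := mog) (C1 := cd1q2a) (C2 := cd5q1) (C3 := pd3)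
    rfl k0_pp_213_a

noncomputable def f_pp_213_b : ℕ → ℕ → ℕ → ℕ → Bool := onCell 1239849684 370763052 536870912 536870912 587336777 62277027
    (rowB 3 eng mog cd1q2b cd5q1 pd3 0 true true true .pnn 2 1 3 (qsf 1239849684 370763052 536870912 536870912 3) ndB1q2b ndB5q1 pcB3 Cut.none Ext.none)

def k0_pp_213_b : ∃ t, chk3 f_pp_213_b t 1 1 1 = true :=
  ⟨(l 4), by decide +kernel⟩

theorem c_pp_213_b : CertB 1239849684 370763052 536870912 536870912 587336777 62277027 3 eng mog cd1q2b cd5q1 pd3 true true true .pnn 2 1 3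
    ndB1q2b ndB5q1 pcB3 Cut.none Ext.none :=
  certB0 (fam := true) (s1 := true) (s2 := true) (a := 2) (b := 1) (c := 3) (cn := .pnn) (n1 := ndB1q2b) (n2 := ndB5q1) (pc := pcB3) (cut := Cut.none) (xt := Ext.none) (P1 := 1239849684) (W1 := 370763052) (P2 := 536870912) (W2 := 536870912) (P3 := 587336777) (W3 := 62277027) (N0 := 3) (En := eng) (mo := mog) (C1 := cd1q2b) (C2 := cd5q1) (C3 := pd3)
    rfl k0_pp_213_b

noncomputable def f_pp_303 : ℕ → ℕ → ℕ → ℕ → Bool := onCell 1610612736 536870912 0 536870912 587336777 62277027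
    (rowB 3 eng mog cd1q3 cd5q0 pd3 0 true true true .npn 3 0 3 (qsf 1610612736 536870912 0 536870912 3) ndB1q3 ndB5q0 pcB3 Cut.none Ext.none)

def k0_pp_303 : ∃ t, chk3 f_pp_303 t 1 1 1 = true :=
  ⟨(l 5), by decide +kernel⟩

theorem c_pp_303 : CertB 1610612736 536870912 0 536870912 587336777 62277027 3 eng mog cd1q3 cd5q0 pd3 true true true .npn 3 0 3
    ndB1q3 ndB5q0 pcB3 Cut.none Ext.none :=
  certB0 (fam := true) (s1 := true) (s2 := true) (a := 3) (b := 0) (c := 3) (cn := .npn) (n1 := ndB1q3) (n2 := ndB5q0) (pc := pcB3) (cut := Cut.none) (xt := Ext.none) (P1 := 1610612736) (W1 := 536870912) (P2 := 0) (W2 := 536870912) (P3 := 587336777) (W3 := 62277027) (N0 := 3) (En := eng) (mo := mog) (C1 := cd1q3) (C2 := cd5q0) (C3 := pd3)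
    rfl k0_pp_303

noncomputable def f_pp_313 : ℕ → ℕ → ℕ → ℕ → Bool := onCell 1610612736 536870912 536870912 536870912 587336777 62277027
    (rowB 3 eng mog cd1q3 cd5q1 pd3 0 true true true .dn 3 1 3 (qsf 1610612736 536870912 536870912 536870912 3) ndB1q3 ndB5q1 pcB3 Cut.none Ext.none)

def k0_pp_313 : ∃ t, chk3 f_pp_313 t 1 1 1 = true :=
  ⟨(l 4), by decide +kernel⟩

theorem c_pp_313 : CertB 1610612736 536870912 536870912 536870912 587336777 62277027 3 eng mog cd1q3 cd5q1 pd3 true true true .dn 3 1 3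
    ndB1q3 ndB5q1 pcB3 Cut.none Ext.none :=
  certB0 (fam := true) (s1 := true) (s2 := true) (a := 3) (b := 1) (c := 3) (cn := .dn) (n1 := ndB1q3) (n2 := ndB5q1) (pc := pcB3) (cut := Cut.none) (xt := Ext.none) (P1 := 1610612736) (W1 := 536870912) (P2 := 536870912) (W2 := 536870912) (P3 := 587336777) (W3 := 62277027) (N0 := 3) (En := eng) (mo := mog) (C1 := cd1q3) (C2 := cd5q1) (C3 := pd3)
    rfl k0_pp_313

noncomputable def f_pm_001 : ℕ → ℕ → ℕ → ℕ → Bool := onCell 0 536870912 0 536870912 587336777 62277027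
    (rowB 3 eng mog cd1q0 cd5q0 pd1 0 true true false .up 0 0 1 (qsf 0 536870912 0 536870912 1) ndB1q0 ndB5q0 pcB1 Cut.none Ext.none)

def k0_pm_001 : ∃ t, chk3 f_pm_001 t 1 1 1 = true :=
  ⟨(a (l 3) (b (l 3) (b (l 3) (a (l 3) (b (l 3) (a (l 3) (b (l 3) (a (l 3) (b (a (l 3) (l 16469904)) (a (l 16405792) (l 16356784))))))))))), by decide +kernel⟩

theorem c_pm_001 : CertB 0 536870912 0 536870912 587336777 62277027 3 eng mog cd1q0 cd5q0 pd1 true true false .up 0 0 1
    ndB1q0 ndB5q0 pcB1 Cut.none Ext.none :=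
  certB0 (fam := true) (s1 := true) (s2 := false) (a := 0) (b := 0) (c := 1) (cn := .up) (n1 := ndB1q0) (n2 := ndB5q0) (pc := pcB1) (cut := Cut.none) (xt := Ext.none) (P1 := 0) (W1 := 536870912) (P2 := 0) (W2 := 536870912) (P3 := 587336777) (W3 := 62277027) (N0 := 3) (En := eng) (mo := mog) (C1 := cd1q0) (C2 := cd5q0) (C3 := pd1)
    rfl k0_pm_001

noncomputable def cut_pm_011 : Cut := Cut.of [[⟨0, 0, 0, 67108864⟩, ⟨1, 1, 0, 67108864⟩, ⟨2, 1, 0, 67108864⟩]]

noncomputable def f_pm_011 : ℕ → ℕ → ℕ → ℕ → Bool := onCell 0 536870912 536870912 536870912 587336777 62277027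
    (rowB 3 eng mog cd1q0 cd5q1 pd1 1 true true false .pnn 0 1 1 (qsf 0 536870912 536870912 536870912 1) ndB1q0 ndB5q1 pcB1 cut_pm_011 Ext.none)

def k0_pm_011 : ∃ t, chk3 f_pm_011 t 1 1 1 = true :=
  ⟨(b (l 3) (b (l 3) (b (l 3) (b (a (l 3) (l 3)) (b (a (l 3) (a (a (l 3) (l 16495408)) (a (l 16408472) (l 16331552)))) (a (b (a (l 3) (a (l 3) (l 16611784))) (a (a (a (l 6) (a (l 6) (b (l 3) (l 16736520)))) (a (b (l 3) (a (l 16704032) (l 16687536))) (a (l 16696816) (l 16660344)))) (a (a (l 16636376) (l 16603120)) (l 16594840)))) (a (a (a (l 16508424) (l 16472224)) (l 16482160)) (a (l 16373000) (l 16295048))))))))), by decide +kernel⟩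

theorem c_pm_011 : CertB 0 536870912 536870912 536870912 587336777 62277027 3 eng mog cd1q0 cd5q1 pd1 true true false .pnn 0 1 1
    ndB1q0 ndB5q1 pcB1 cut_pm_011 Ext.none :=
  certB1 (fam := true) (s1 := true) (s2 := false) (a := 0) (b := 1) (c := 1) (cn := .pnn) (n1 := ndB1q0) (n2 := ndB5q1) (pc := pcB1) (cut := cut_pm_011) (xt := Ext.none) (P1 := 0) (W1 := 536870912) (P2 := 536870912) (W2 := 536870912) (P3 := 587336777) (W3 := 62277027) (N0 := 3) (En := eng) (mo := mog) (C1 := cd1q0) (C2 := cd5q1) (C3 := pd1)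
    rfl (fun _ => rfl) k0_pm_011

noncomputable def cut_pm_012 : Cut := Cut.of [[⟨0, 0, 0, 67108864⟩, ⟨1, 1, 0, 67108864⟩, ⟨2, 1, 0, 67108864⟩]]

noncomputable def f_pm_012 : ℕ → ℕ → ℕ → ℕ → Bool := onCell 1073741824 536870912 536870912 536870912 587336777 62277027
    (rowB 3 eng mog cd1q0 cd5q1 pd2 2 true true false .pnp 0 1 2 (qsf 0 536870912 536870912 536870912 2) ndB1q0 ndB5q1 pcB2 cut_pm_012 Ext.none)

def k0_pm_012 : ∃ t, chk3 f_pm_012 t 8 1 1 = true :=
  ⟨(b (b (b (a (l 16256352) (l 16226176)) (a (l 16361048) (l 16297736))) (b (a (b (l 16373384) (l 16405776)) (b (l 16343232) (l 16369480))) (a (a (l 16483712) (l 16480856)) (b (l 16392976) (l 16415696))))) (b (b (a (b (l 16537360) (l 16609096)) (b (l 16437968) (l 16480928))) (a (b (c (l 16640896) (l 16648328)) (a (l 16627976) (l 16565160))) (b (a (l 16499584) (l 16464528)) (a (l 16524776) (l 16486032))))) (a (b (a (b (a (b (l 16641512) (a (l 16662048) (l 16651896))) (l 16628728)) (a (b (l 16678080)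 (a (l 16694512) (l 16684080))) (l 16681128))) (b (l 16595008) (b (l 16618080) (l 16633248)))) (a (b (a (b (a (l 16711264) (l 16700768)) (l 6)) (b (l 16684872) (l 16720848))) (l 6)) (b (b (l 16668648) (a (a (l 16680680) (l 16667976)) (l 16649072))) (b (a (l 6) (b (l 16659096) (l 6))) (l 6))))) (b (b (a (l 16551168) (l 16509016)) (a (a (l 16611120) (l 16566888)) (l 16532792))) (b (a (b (l 16619952) (a (l 16624136) (l 16599520))) (b (l 16551144) (l 16584064))) (b (a (b (l 16642040) (a (l 16639928) (l 16614488))) (b (l 16571528) (l 16576968))) (a (b (a (l 6) (l 16620328)) (l 6)) (b (l 16582320) (a (l 16600344) (l 16574936)))))))))), by decide +kernel⟩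

def k1_pm_012 : ∃ t, chk3 f_pm_012 t 9 1 1 = true :=
  ⟨(b (b (b (a (l 16212544) (l 2)) (a (l 16274896) (l 16253040))) (b (a (l 16344776) (l 16294040)) (a (l 16382200) (l 16323008)))) (b (b (a (b (l 16385392) (l 16400552)) (b (l 16339248) (l 16348320))) (a (b (l 16415312) (l 16473384)) (b (l 16356600) (l 16366104)))) (b (a (b (a (l 16468616) (l 16430040)) (a (l 16488960) (l 16447008))) (b (a (l 16393592) (l 16359712)) (a (l 16407040) (l 16369352)))) (a (b (a (b (l 16504648) (l 16515312)) (l 16506432)) (b (a (l 16546592) (l 16477952)) (a (b (l 16532824) (l 16537432)) (b (l 16484560) (l 16488656))))) (b (a (l 16421032) (l 16379744)) (b (a (l 16431752) (l 16387648)) (a (l 16459984) (l 16392976)))))))), by decide +kernel⟩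

def k2_pm_012 : ∃ t, chk3 f_pm_012 t 5 1 1 = true :=
  ⟨(b (a (b (a (a (l 16297760) (l 2)) (l 2)) (a (a (b (l 16274944) (l 16298592)) (b (a (l 16267360) (l 16270624)) (a (l 16288488) (l 16310128)))) (b (l 16258328) (l 16273248)))) (b (l 2) (b (l 16264432) (l 16265760)))) (b (a (b (a (a (l 16312392) (a (l 16299144) (a (l 16293768) (l 16293840)))) (l 16276464)) (a (a (l 16383856) (a (l 16303360) (a (l 16295736) (a (l 16292888) (l 16292072))))) (b (l 16272152) (l 16269240)))) (b (l 16254488) (b (l 16238536) (l 16226976)))) (a (b (a (a (b (l 16328656) (l 16334344)) (a (b (l 16307328) (l 16310088)) (a (l 16298368) (b (l 16293680) (a (l 16294048) (l 16291448)))))) (b (l 16265856) (l 16303640))) (a (a (b (l 16382784) (b (l 16345848) (l 16370128))) (a (b (l 16313392) (b (l 16316152) (l 16317896))) (b (a (l 16300480) (a (l 16294504) (l 16290992))) (a (l 16323408) (a (l 16316368) (b (l 16290960) (l 16332776))))))) (b (a (l 16272376) (l 16242392)) (a (b (l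 16270592) (l 16269432)) (b (l 16237080) (l 16233680)))))) (b (b (l 16234752) (a (l 16217008) (l 16183376))) (b (a (l 16204040) (l 16163064)) (a (b (l 16193560) (a (l 16201240) (l 16172248))) (b (l 16146536) (l 16134944)))))))), by decide +kernel⟩

def k3_pm_012 : ∃ t, chk3 f_pm_012 t 3 1 1 = true :=
  ⟨(b (a (b (l 2) (a (b (l 2) (l 16273120)) (l 2))) (l 2)) (a (b (a (b (l 16247488) (a (l 16213296) (l 16209512))) (b (l 16270000) (l 16221480))) (a (b (a (l 16172104) (l 16161344)) (b (a (l 16133288) (l 16115224)) (a (b (l 16111544) (l 16096208)) (l 16079784)))) (b (a (l 16159336) (l 16172416)) (a (b (l 16108112) (l 16067608)) (b (l 16116064) (l 16071448)))))) (b (a (b (l 2) (l 16275656)) (l 2)) (a (b (l 16205888) (a (l 16109224) (l 16130440))) (b (l 16287976) (l 16186720)))))), by decide +kernel⟩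

theorem s4_pm_012 : ∃ t, chk3 f_pm_012 t 4 1 1 = true := ex3_a k0_pm_012 k1_pm_012

theorem s5_pm_012 : ∃ t, chk3 f_pm_012 t 2 1 1 = true := ex3_a s4_pm_012 k2_pm_012

theorem s6_pm_012 : ∃ t, chk3 f_pm_012 t 1 1 1 = true := ex3_a s5_pm_012 k3_pm_012

theorem c_pm_012 : CertB 0 536870912 536870912 536870912 587336777 62277027 3 eng mog cd1q0 cd5q1 pd2 true true false .pnp 0 1 2
    ndB1q0 ndB5q1 pcB2 cut_pm_012 Ext.none :=
  certB2 (fam := true) (s1 := true) (s2 := false) (a := 0) (b := 1) (c := 2) (cn := .pnp) (n1 := ndB1q0) (n2 := ndB5q1) (pc := pcB2) (cut := cut_pm_012) (xt := Ext.none) (P1 := 0) (W1 := 536870912) (P2 := 536870912) (W2 := 536870912) (P3 := 587336777) (W3 := 62277027) (N0 := 3) (En := eng) (mo := mog) (C1 := cd1q0) (C2 := cd5q1) (C3 := pd2)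
    rfl (fun _ => rfl) s6_pm_012

noncomputable def f_pm_022 : ℕ → ℕ → ℕ → ℕ → Bool := onCell 0 536870912 1073741824 536870912 587336777 62277027
    (rowB 3 eng mog cd1q0 cd5q2 pd2 1 true true false .pp 0 2 2 (qsf 0 536870912 1073741824 536870912 2) ndB1q0 ndB5q2 pcB2 Cut.none Ext.none)

def k0_pm_022 : ∃ t, chk3 f_pm_022 t 2 4 1 = true :=
  ⟨(a (a (a (b (l 3) (l 3)) (l 3)) (l 3)) (l 3)), by decide +kernel⟩

def k1_pm_022 : ∃ t, chk3 f_pm_022 t 4 5 1 = true :=
  ⟨(a (b (b (b (b (a (b (c (l 16522048) (l 16513744)) (a (l 16505072) (l 16516064))) (b (l 16539544) (l 16531704))) (a (c (l 16502920) (l 16494656)) (b (l 16524152) (l 16516696)))) (b (b (a (l 16488056) (l 16509184)) (a (l 16480424) (l 16501568))) (b (a (l 16472808) (l 16493928)) (b (a (b (l 16468112) (l 16466248)) (c (l 16491464) (l 16484176))) (b (b (b (a (l 16465096) (l 16486104)) (a (b (l 16464752) (l 16464520)) (l 16506600))) (l 16474736)) (l 16473360)))))) (a (a (b (l 16441512) (l 16413344))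 (l 16437992)) (l 16453600))) (b (a (a (l 16376400) (l 16405664)) (b (l 16410832) (l 16384280))) (a (l 16340528) (a (l 16349128) (l 16353328))))) (a (b (b (b (b (b (l 16558664) (l 16550832)) (b (l 16543224) (l 16535800))) (b (b (l 16528328) (l 16520752)) (b (l 16513104) (b (l 16528336) (b (b (b (l 16505208) (l 16504712)) (l 16504024)) (l 16502648)))))) (l 16472728)) (a (b (l 16411288) (l 16358480)) (l 16518512))) (b (b (b (b (b (a (l 16571848) (l 3)) (l 16589544)) (b (l 16560928) (l 16553496))) (b (b (l 16546040) (l 16538504)) (b (l 16530904) (b (l 16525200) (b (b (b (l 16523048) (b (l 16522672) (l 16522416))) (l 16521848)) (l 16520480)))))) (l 16490600)) (l 16427056)))), by decide +kernel⟩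

def k2_pm_022 : ∃ t, chk3 f_pm_022 t 5 5 1 = true :=
  ⟨(a (a (b (b (b (b (a (b (l 3) (l 16579304)) (l 1)) (b (c (l 42446094695) (l 16575008)) (l 16651304))) (b (b (l 16581120) (l 16552944)) (b (l 16566744) (b (l 16540320) (b (b (b (l 16538256) (c (l 2180689943) (l 16580344))) (l 16537128)) (l 16535760)))))) (l 16505968)) (l 16442504)) (b (b (b (l 1) (b (l 1) (b (l 1) (b (l 1) (b (l 1) (l 16546184)))))) (l 128345243415)) (l 16476256))) (b (b (l 1) (l 300680767879)) (a (b (l 242161702087) (l 16424040)) (b (l 254509877127) (l 16438984))))), by decide +kernel⟩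

def k3_pm_022 : ∃ t, chk3 f_pm_022 t 3 2 1 = true :=
  ⟨(b (l 1) (b (l 1) (a (a (b (l 1) (l 246993524823)) (l 1)) (l 1)))), by decide +kernel⟩

def k4_pm_022 : ∃ t, chk3 f_pm_022 t 1 3 1 = true :=
  ⟨(a (b (a (a (b (a (b (l 16310936) (l 16292656)) (b (l 16320160) (l 16299640))) (a (b (a (l 16285672) (l 16287504)) (a (l 16302288) (l 16296664))) (b (l 16289960) (l 16292344)))) (b (a (b (l 16322824) (l 16300496)) (b (l 16328376) (l 16295328))) (a (l 16287208) (l 16280360)))) (b (a (c (l 16467112) (l 16451240)) (b (l 16409312) (l 16332504))) (a (b (l 16351344) (l 16255664)) (b (l 16279704) (l 16223880))))) (a (b (a (b (a (l 16330784) (l 16310352)) (a (l 16366976) (l 16340280))) (a (l 16304952) (l 16289304))) (a (a (b (l 16408776) (l 16451168)) (l 16503248)) (b (l 16334232) (l 16372816)))) (b (a (l 16474928) (b (l 16257600) (l 16195808))) (a (l 16299528) (l 16229016))))) (b (a (b (a (b (l 165389153287) (l 16397312)) (l 209412489863)) (a (b (l 16337184)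 (l 16296480)) (l 119218232055))) (b (l 1) (a (l 206728079927) (l 1)))) (a (b (a (b (l 16254400) (l 16213208)) (b (l 16314280) (l 16284504))) (a (b (l 16171816) (l 16125544)) (l 16429712))) (b (a (b (l 16357256) (l 16336112)) (l 198675201111)) (a (l 16304888) (l 16356096)))))), by decide +kernel⟩

theorem s5_pm_022 : ∃ t, chk3 f_pm_022 t 2 5 1 = true := ex3_a k1_pm_022 k2_pm_022

theorem s6_pm_022 : ∃ t, chk3 f_pm_022 t 2 2 1 = true := ex3_b k0_pm_022 s5_pm_022

theorem s7_pm_022 : ∃ t, chk3 f_pm_022 t 1 2 1 = true := ex3_a s6_pm_022 k3_pm_022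

theorem s8_pm_022 : ∃ t, chk3 f_pm_022 t 1 1 1 = true := ex3_b s7_pm_022 k4_pm_022

theorem c_pm_022 : CertB 0 536870912 1073741824 536870912 587336777 62277027 3 eng mog cd1q0 cd5q2 pd2 true true false .pp 0 2 2
    ndB1q0 ndB5q2 pcB2 Cut.none Ext.none :=
  certB1 (fam := true) (s1 := true) (s2 := false) (a := 0) (b := 2) (c := 2) (cn := .pp) (n1 := ndB1q0) (n2 := ndB5q2) (pc := pcB2) (cut := Cut.none) (xt := Ext.none) (P1 := 0) (W1 := 536870912) (P2 := 1073741824) (W2 := 536870912) (P3 := 587336777) (W3 := 62277027) (N0 := 3) (En := eng) (mo := mog) (C1 := cd1q0) (C2 := cd5q2) (C3 := pd2)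
    rfl (fun _ => rfl) s8_pm_022

noncomputable def f_pm_023 : ℕ → ℕ → ℕ → ℕ → Bool := onCell 1610612736 536870912 1073741824 536870912 587336777 62277027
    (rowB 3 eng mog cd1q0 cd5q2 pd3 2 true true false .up 0 2 3 (qsf 0 536870912 1073741824 536870912 3) ndB1q0 ndB5q2 pcB3 Cut.none Ext.none)

def k0_pm_023 : ∃ t, chk3 f_pm_023 t 1 1 1 = true :=
  ⟨(a (a (b (b (a (b (l 16419296) (l 16355328)) (l 16454160)) (b (a (l 16285128) (l 16344072)) (a (l 16194328) (l 16268528)))) (a (b (b (l 16177488) (a (l 16385576) (l 16277048))) (a (b (a (l 16352400) (l 16353760)) (a (l 16435608) (l 16408800))) (b (l 16360496) (l 16417368)))) (a (b (l 16208456) (l 16408656)) (b (l 16230448) (l 16428424))))) (b (b (b (l 2) (l 16552312)) (b (l 16503856) (l 16470608))) (a (b (b (l 16370784) (l 16369848)) (b (l 16428176) (l 16503432))) (b (l 16499656) (l 16547920))))) (b (a (b (l 2) (b (l 2) (l 16601760))) (l 2)) (b (a (b (l 16609984) (l 16616448)) (a (l 16658128) (l 2)))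 (a (a (l 16618120) (l 16673488)) (a (l 16716136) (a (l 16745128) (a (l 16751160) (a (l 16750216) (l 4))))))))), by decide +kernel⟩

theorem c_pm_023 : CertB 0 536870912 1073741824 536870912 587336777 62277027 3 eng mog cd1q0 cd5q2 pd3 true true false .up 0 2 3
    ndB1q0 ndB5q2 pcB3 Cut.none Ext.none :=
  certB2 (fam := true) (s1 := true) (s2 := false) (a := 0) (b := 2) (c := 3) (cn := .up) (n1 := ndB1q0) (n2 := ndB5q2) (pc := pcB3) (cut := Cut.none) (xt := Ext.none) (P1 := 0) (W1 := 536870912) (P2 := 1073741824) (W2 := 536870912) (P3 := 587336777) (W3 := 62277027) (N0 := 3) (En := eng) (mo := mog) (C1 := cd1q0) (C2 := cd5q2) (C3 := pd3)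
    rfl (fun _ => rfl) k0_pm_023

noncomputable def f_pm_033 : ℕ → ℕ → ℕ → ℕ → Bool := onCell 1610612736 536870912 0 1230186008 587336777 62277027
    (rowB 3 eng mog cd1q0 cd5q3 pd3 2 true true false .pnn 0 3 3 (qsf 0 536870912 0 1230186008 3) ndB1q0 ndB5q3 pcB3 Cut.none Ext.none)

def k0_pm_033 : ∃ t, chk3 f_pm_033 t 1 1 1 = true :=
  ⟨(a (b (l 1) (b (b (l 1) (a (l 1) (a (l 1) (a (l 1) (l 338798808871))))) (b (a (l 1) (a (a (b (l 1) (a (l 324839758215) (l 16455352))) (b (l 367789410919) (l 16469784))) (a (b (l 16463696) (l 16489864)) (b (l 16488352) (l 16511792))))) (a (b (a (l 1) (a (b (l 1) (l 267394300135)) (b (b (l 264710192199) (l 257193926919)) (b (l 16422464) (l 16414696))))) (a (b (a (l 1) (l 275984425847)) (a (b (a (l 1) (b (l 257730978711) (l 16406632))) (a (c (l 303365158935) (l 16438240)) (c (l 16507904) (l 16424512)))) (b (l 270615895127) (l 16476880)))) (a (b (l 16361944) (b (l 16373984) (l 16501096))) (b (l 16399488) (b (l 16401264)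 (l 16528312)))))) (a (b (b (a (b (a (l 16459056) (l 16469096)) (l 16459960)) (l 16483112)) (a (l 16451464) (l 16476120))) (b (a (l 16436232) (l 16467736)) (b (l 16459496) (l 16566328)))) (b (b (a (l 16504656) (l 16529480)) (l 16517656)) (b (l 16516768) (l 16567416)))))))) (a (b (l 1) (b (a (b (l 1) (a (l 16498032) (l 16526128))) (a (b (l 16533528) (l 16551016)) (b (l 16548664) (l 16572528)))) (b (a (b (l 16531576) (l 16556584)) (a (l 16591784) (l 16618952))) (b (a (b (l 16575808) (l 16581104)) (b (l 16638352) (l 16645424))) (a (b (l 16584752) (l 16626688)) (b (l 16650016) (l 16683456))))))) (b (b (l 4) (l 4)) (b (a (a (b (l 4) (l 16588672)) (l 4)) (l 4)) (b (a (a (l 16640536) (l 16661808)) (l 4)) (a (b (a (l 16746792) (b (l 16703056) (l 16709824))) (b (a (l 16691464) (l 16716496)) (a (l 16720448) (l 16747592)))) (a (b (l 16720992) (l 16749904)) (l 4)))))))), by decide +kernel⟩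

theorem c_pm_033 : CertB 0 536870912 0 1230186008 587336777 62277027 3 eng mog cd1q0 cd5q3 pd3 true true false .pnn 0 3 3
    ndB1q0 ndB5q3 pcB3 Cut.none Ext.none :=
  certB2 (fam := true) (s1 := true) (s2 := false) (a := 0) (b := 3) (c := 3) (cn := .pnn) (n1 := ndB1q0) (n2 := ndB5q3) (pc := pcB3) (cut := Cut.none) (xt := Ext.none) (P1 := 0) (W1 := 536870912) (P2 := 0) (W2 := 1230186008) (P3 := 587336777) (W3 := 62277027) (N0 := 3) (En := eng) (mo := mog) (C1 := cd1q0) (C2 := cd5q3) (C3 := pd3)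
    rfl (fun _ => rfl) k0_pm_033

noncomputable def xt_pm_101 : Ext := extD2 3 ⟨7, 3, 3, 10, 1815, 1000, 17, 20, 37, 100, 3, 16⟩ eng cd1q1 cd5q0 pd1 true true false .npn 1 0 1 rfl ndB1q1 ndB5q0 pcB1

noncomputable def f_pm_101 : ℕ → ℕ → ℕ → ℕ → Bool := onCell 536870912 536870912 0 536870912 587336777 62277027
    (rowB 3 eng mog cd1q1 cd5q0 pd1 2 true true false .npn 1 0 1 (qsf 536870912 536870912 0 536870912 1) ndB1q1 ndB5q0 pcB1 Cut.none xt_pm_101)

def k0_pm_101 : ∃ t, chk3 f_pm_101 t 1 1 1 = true :=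
  ⟨(a (l 3) (a (l 3) (a (b (b (l 3) (l 3)) (l 3)) (a (a (b (b (b (l 16934824) (l 24864074007)) (b (b (l 16782760) (l 3)) (l 3))) (l 3)) (b (b (b (l 16753440) (b (l 16753920) (l 16751424))) (b (b (l 16747200) (l 16738752)) (b (l 73719041383) (b (l 68887146951) (a (l 38285455303) (l 16690512)))))) (b (b (b (a (b (l 34527352775) (l 3)) (b (l 16679416) (l 16667240))) (c (l 16678208) (l 64055230375))) (b (l 53317762103) (b (l 16602448) (l 66202562503)))) (b (b (b (l 16567360) (l 3)) (l 3)) (l 3))))) (b (b (b (a (l 16720728) (l 16689296)) (a (l 16719976) (l 16686536))) (b (a (b (l 16712728) (l 16705504)) (l 16674288)) (b (a (l 16691040) (l 16657672)) (a (b (l 16676384) (l 16665632)) (l 16637200))))) (b (b (a (b (c (l 16670528) (l 16626816)) (l 16621320)) (b (l 16613040) (l 16585480))) (b (a (l 16590600) (l 16553632)) (b (l 16567728) (a (l 16548368) (l 16509424))))) (b (b (b (l 16484912) (l 594470968739648857366575)) (b (l 16427488) (l 16414080))) (b (b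 (l 16413616) (l 16414544)) (a (b (l 16352392) (l 16327544)) (l 16357888)))))))))), by decide +kernel⟩

theorem c_pm_101 : CertB 536870912 536870912 0 536870912 587336777 62277027 3 eng mog cd1q1 cd5q0 pd1 true true false .npn 1 0 1
    ndB1q1 ndB5q0 pcB1 Cut.none xt_pm_101 :=
  certB2 (fam := true) (s1 := true) (s2 := false) (a := 1) (b := 0) (c := 1) (cn := .npn) (n1 := ndB1q1) (n2 := ndB5q0) (pc := pcB1) (cut := Cut.none) (xt := xt_pm_101) (P1 := 536870912) (W1 := 536870912) (P2 := 0) (W2 := 536870912) (P3 := 587336777) (W3 := 62277027) (N0 := 3) (En := eng) (mo := mog) (C1 := cd1q1) (C2 := cd5q0) (C3 := pd1)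
    rfl (fun _ => rfl) k0_pm_101

noncomputable def f_pm_102 : ℕ → ℕ → ℕ → ℕ → Bool := onCell 1073741824 536870912 0 536870912 587336777 62277027
    (rowB 3 eng mog cd1q1 cd5q0 pd2 2 true true false .npp 1 0 2 (qsf 536870912 536870912 0 536870912 2) ndB1q1 ndB5q0 pcB2 Cut.none Ext.none)

def k0_pm_102 : ∃ t, chk3 f_pm_102 t 2 1 1 = true :=
  ⟨(b (a (b (a (b (a (b (a (l 16658520) (l 16639912)) (a (l 16654048) (l 16643320))) (b (a (l 16621752) (l 2)) (l 16789160))) (a (b (l 16638248) (l 16632824)) (b (l 16595656) (l 16605920)))) (b (a (b (l 2) (a (l 16601144) (l 2))) (l 2)) (a (b (l 16602440) (l 16627712)) (b (b (l 2) (l 16559000)) (l 16594080))))) (a (b (a (l 16664120) (l 16582272)) (a (b (l 16607360) (l 16591000)) (l 16557128))) (b (a (l 16589664) (l 16622456)) (a (l 16540624) (l 16559944))))) (b (a (b (l 2) (a (a (b (l 2) (l 16561448)) (l 2)) (l 2))) (l 2)) (a (a (a (b (l 16618000) (l 16597640)) (b (a (l 16611648) (l 16606920)) (l 16638472))) (b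 (b (l 16571752) (l 16613912)) (l 16637152))) (b (b (l 2) (l 16593624)) (a (l 16650496) (l 16650776)))))) (b (a (b (a (a (c (l 16585200) (l 16568568)) (l 16520704)) (a (l 16502472) (l 16504840))) (a (a (b (l 16511800) (b (l 16486624) (l 16469120))) (b (l 16481600) (l 16452528))) (b (l 16465944) (l 16439200)))) (b (a (a (a (l 16522368) (l 16543840)) (l 16585040)) (l 16668336)) (a (a (b (a (l 16480728) (l 16495992)) (a (l 16453272) (l 16467824))) (b (l 16524816) (l 16492168))) (b (l 16631640) (l 16592016))))) (a (b (a (b (b (l 16516168) (l 16379216)) (a (l 16340824) (l 16329856))) (b (l 16421656) (l 16340152))) (a (b (a (l 16270616) (l 16228144)) (a (l 16296096) (l 16153920))) (b (l 16259048) (a (l 16179360) (l 16204656))))) (b (a (a (a (l 16391504) (b (l 16432928) (l 16385104))) (l 16433928)) (l 16523832)) (a (a (a (l 16320376) (b (l 16324184) (l 16254920))) (l 16321936)) (l 16424336)))))), by decide +kernel⟩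

def k1_pm_102 : ∃ t, chk3 f_pm_102 t 3 1 1 = true :=
  ⟨(b (a (b (l 2) (a (b (l 2) (a (l 16652784) (l 2))) (l 2))) (l 2)) (b (a (b (a (l 16722384) (a (l 16758888) (l 2))) (a (b (l 16733544) (l 16722848)) (b (l 16801800) (l 16812400)))) (b (l 2) (a (a (l 16850312) (l 2)) (l 2)))) (a (b (a (l 16679656) (l 16812776)) (a (l 16575632) (l 16753400))) (b (a (l 16915216) (b (l 2) (l 17036824))) (a (l 16928904) (a (l 17055440) (l 17137112))))))), by decide +kernel⟩

theorem s2_pm_102 : ∃ t, chk3 f_pm_102 t 1 1 1 = true := ex3_a k0_pm_102 k1_pm_102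

theorem c_pm_102 : CertB 536870912 536870912 0 536870912 587336777 62277027 3 eng mog cd1q1 cd5q0 pd2 true true false .npp 1 0 2
    ndB1q1 ndB5q0 pcB2 Cut.none Ext.none :=
  certB2 (fam := true) (s1 := true) (s2 := false) (a := 1) (b := 0) (c := 2) (cn := .npp) (n1 := ndB1q1) (n2 := ndB5q0) (pc := pcB2) (cut := Cut.none) (xt := Ext.none) (P1 := 536870912) (W1 := 536870912) (P2 := 0) (W2 := 536870912) (P3 := 587336777) (W3 := 62277027) (N0 := 3) (En := eng) (mo := mog) (C1 := cd1q1) (C2 := cd5q0) (C3 := pd2)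
    rfl (fun _ => rfl) s2_pm_102

noncomputable def f_pm_112 : ℕ → ℕ → ℕ → ℕ → Bool := onCell 536870912 536870912 1073741824 536870912 587336777 62277027
    (rowB 3 eng mog cd1q1 cd5q1 pd2 1 true true false .dn 1 1 2 (qsf 536870912 536870912 536870912 536870912 2) ndB1q1 ndB5q1 pcB2 Cut.none Ext.none)

def k0_pm_112 : ∃ t, chk3 f_pm_112 t 1 1 1 = true :=
  ⟨(a (b (b (a (b (a (b (l 16223496) (l 16244960)) (l 294237636487)) (a (b (l 16261560) (l 16268152)) (b (l 16224448) (l 16240216)))) (b (l 1) (a (l 16336344) (l 1)))) (b (a (b (b (l 16318384) (a (b (l 16269176) (l 16277120)) (l 16389904))) (a (l 16274864) (l 16265664))) (b (b (l 16259616) (b (l 16265024) (l 16296832))) (l 16285496))) (a (a (l 16287912) (l 16299704)) (l 16342480)))) (b (a (b (a (l 16283656) (l 16320008)) (a (l 16272824) (l 16332416))) (b (l 16394624) (l 16440352))) (a (a (b (l 16274080) (l 16280216)) (l 16375544)) (b (l 16506864) (l 16583448))))) (b (b (l 1) (b (l 1) (a (l 16483904)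 (l 1)))) (b (a (b (l 16556192) (l 16632360)) (b (l 1) (l 16812528))) (a (b (l 16714760) (l 16764632)) (l 16924848))))), by decide +kernel⟩

theorem c_pm_112 : CertB 536870912 536870912 536870912 536870912 587336777 62277027 3 eng mog cd1q1 cd5q1 pd2 true true false .dn 1 1 2
    ndB1q1 ndB5q1 pcB2 Cut.none Ext.none :=
  certB1 (fam := true) (s1 := true) (s2 := false) (a := 1) (b := 1) (c := 2) (cn := .dn) (n1 := ndB1q1) (n2 := ndB5q1) (pc := pcB2) (cut := Cut.none) (xt := Ext.none) (P1 := 536870912) (W1 := 536870912) (P2 := 536870912) (W2 := 536870912) (P3 := 587336777) (W3 := 62277027) (N0 := 3) (En := eng) (mo := mog) (C1 := cd1q1) (C2 := cd5q1) (C3 := pd2)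
    rfl (fun _ => rfl) k0_pm_112

noncomputable def f_pm_113 : ℕ → ℕ → ℕ → ℕ → Bool := onCell 536870912 536870912 1610612736 536870912 587336777 62277027
    (rowB 3 eng mog cd1q1 cd5q1 pd3 1 true true false .nn 1 1 3 (qsf 536870912 536870912 536870912 536870912 3) ndB1q1 ndB5q1 pcB3 Cut.none Ext.none)

def k0_pm_113 : ∃ t, chk3 f_pm_113 t 1 1 1 = true :=
  ⟨(a (b (b (b (b (a (a (a (l 207868728503) (l 16292600)) (b (l 16458088) (l 16347408))) (a (l 16539464) (l 16635912))) (a (l 213237515591) (l 16525456))) (b (a (l 229343528023) (l 16527208)) (a (l 250281469911) (l 16525480)))) (b (a (b (l 344770707143) (l 2)) (b (l 16515040) (l 16500928))) (a (l 2) (b (l 16492920) (l 16491888))))) (b (b (a (l 2) (a (l 2) (l 16540480))) (l 2)) (l 2))) (b (b (b (a (b (l 16764160) (l 16720704)) (b (l 16925344) (l 16886072))) (a (l 16702584) (l 16843920))) (b (a (a (l 16631632) (l 16704032)) (l 16797784)) (a (a (l 16614328) (l 16677920)) (l 16750880)))) (b (b (a (b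 (l 16638472) (l 16630856)) (l 16705888)) (a (b (l 16621560) (l 16610024)) (l 4))) (b (l 4) (l 4))))), by decide +kernel⟩

theorem c_pm_113 : CertB 536870912 536870912 536870912 536870912 587336777 62277027 3 eng mog cd1q1 cd5q1 pd3 true true false .nn 1 1 3
    ndB1q1 ndB5q1 pcB3 Cut.none Ext.none :=
  certB1 (fam := true) (s1 := true) (s2 := false) (a := 1) (b := 1) (c := 3) (cn := .nn) (n1 := ndB1q1) (n2 := ndB5q1) (pc := pcB3) (cut := Cut.none) (xt := Ext.none) (P1 := 536870912) (W1 := 536870912) (P2 := 536870912) (W2 := 536870912) (P3 := 587336777) (W3 := 62277027) (N0 := 3) (En := eng) (mo := mog) (C1 := cd1q1) (C2 := cd5q1) (C3 := pd3)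
    rfl (fun _ => rfl) k0_pm_113

noncomputable def f_pm_123 : ℕ → ℕ → ℕ → ℕ → Bool := onCell 1610612736 536870912 1073741824 536870912 587336777 62277027
    (rowB 3 eng mog cd1q1 cd5q2 pd3 2 true true false .npn 1 2 3 (qsf 536870912 536870912 1073741824 536870912 3) ndB1q1 ndB5q2 pcB3 Cut.none Ext.none)

def k0_pm_123 : ∃ t, chk3 f_pm_123 t 1 1 1 = true :=
  ⟨(a (a (b (b (a (b (l 16468688) (l 16432592)) (l 16509920)) (b (l 171831967527) (l 1))) (l 1)) (a (b (b (l 16615552) (l 16480120)) (l 1)) (b (b (l 16878280) (l 16542408)) (b (l 16557128) (l 1))))) (b (a (b (a (l 16796784) (b (l 16788560) (l 16719152))) (b (l 16653080) (l 16632464))) (a (b (b (a (l 16785144) (l 16777440)) (l 16722280)) (b (l 16679960) (l 16670008))) (a (b (b (l 16766528) (l 16716160)) (b (l 16681632) (l 16678576))) (a (b (l 16773032) (l 16873464)) (b (a (l 16723968) (a (l 16715800) (b (l 4) (l 16709872)))) (a (l 16771456) (a (b (l 16687368) (l 16688936)) (a (l 16921504) (a (l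 16859280) (b (l 16752472) (l 16693784))))))))))) (a (b (b (l 16627864) (l 16636152)) (l 216929727511)) (a (b (l 16716912) (l 16729736)) (a (b (l 16692952) (l 16758352)) (a (b (l 16704048) (l 16766336)) (b (a (l 16710904) (a (l 16713632) (l 16714976))) (a (l 16766240) (l 4))))))))), by decide +kernel⟩

theorem c_pm_123 : CertB 536870912 536870912 1073741824 536870912 587336777 62277027 3 eng mog cd1q1 cd5q2 pd3 true true false .npn 1 2 3
    ndB1q1 ndB5q2 pcB3 Cut.none Ext.none :=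
  certB2 (fam := true) (s1 := true) (s2 := false) (a := 1) (b := 2) (c := 3) (cn := .npn) (n1 := ndB1q1) (n2 := ndB5q2) (pc := pcB3) (cut := Cut.none) (xt := Ext.none) (P1 := 536870912) (W1 := 536870912) (P2 := 1073741824) (W2 := 536870912) (P3 := 587336777) (W3 := 62277027) (N0 := 3) (En := eng) (mo := mog) (C1 := cd1q1) (C2 := cd5q2) (C3 := pd3)
    rfl (fun _ => rfl) k0_pm_123

noncomputable def f_pm_133 : ℕ → ℕ → ℕ → ℕ → Bool := onCell 536870912 536870912 0 1230186008 587336777 62277027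
    (rowB 3 eng mog cd1q1 cd5q3 pd3 0 true true false .dn 1 3 3 (qsf 536870912 536870912 0 1230186008 3) ndB1q1 ndB5q3 pcB3 Cut.none Ext.none)

def k0_pm_133 : ∃ t, chk3 f_pm_133 t 1 1 1 = true :=
  ⟨(b (l 2) (b (l 2) (a (l 4) (l 2)))), by decide +kernel⟩

theorem c_pm_133 : CertB 536870912 536870912 0 1230186008 587336777 62277027 3 eng mog cd1q1 cd5q3 pd3 true true false .dn 1 3 3
    ndB1q1 ndB5q3 pcB3 Cut.none Ext.none :=
  certB0 (fam := true) (s1 := true) (s2 := false) (a := 1) (b := 3) (c := 3) (cn := .dn) (n1 := ndB1q1) (n2 := ndB5q3) (pc := pcB3) (cut := Cut.none) (xt := Ext.none) (P1 := 536870912) (W1 := 536870912) (P2 := 0) (W2 := 1230186008) (P3 := 587336777) (W3 := 62277027) (N0 := 3) (En := eng) (mo := mog) (C1 := cd1q1) (C2 := cd5q3) (C3 := pd3)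
    rfl k0_pm_133

noncomputable def f_pm_202_a : ℕ → ℕ → ℕ → ℕ → Bool := onCell 0 536870912 0 536870912 587336777 62277027
    (rowB 3 eng mog cd1q2a cd5q0 pd2 0 true true false .pp 2 0 2 (qsf 0 536870912 0 536870912 2) ndB1q2a ndB5q0 pcB2 Cut.none Ext.none)

def k0_pm_202_a : ∃ t, chk3 f_pm_202_a t 1 1 1 = true :=
  ⟨(a (b (b (b (a (b (a (l 16498600) (b (l 16498568) (l 16507048))) (a (l 16524584) (l 16525296))) (b (a (l 16513288) (l 16527200)) (a (l 16529456) (l 16536288)))) (a (b (l 16552472) (l 16581224)) (a (b (l 16552264) (l 16577168)) (b (l 16553736) (l 16574312))))) (b (a (b (l 16610584) (l 16640088)) (a (l 16616792) (b (l 16597632) (l 16622440)))) (a (b (l 16669048) (l 16696064)) (b (l 16884200) (l 16681032))))) (b (b (a (b (l 4) (l 4)) (a (l 16723624) (l 16717944))) (a (l 4) (b (l 16757456) (l 16821696)))) (l 4))) (b (b (a (b (a (b (l 16543752) (l 16544160)) (b (l 16563880) (l 16555856))) (a (b (l 16553944) (l 16570696)) (b (l 16556016)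 (l 16566392)))) (b (a (b (b (l 16596000) (l 16585592)) (l 16573864)) (a (b (b (l 16623288) (l 16609752)) (l 16593496)) (b (a (b (l 16638168) (l 16623928)) (l 16641864)) (l 16610992)))) (a (b (l 16565848) (l 16568032)) (b (a (l 16580664) (l 16595904)) (l 16584968))))) (a (b (a (b (l 16590208) (l 16612528)) (l 16593320)) (a (b (l 16638016) (l 16666256)) (b (l 16628592) (l 16657376)))) (b (a (b (l 16581064) (l 16601200)) (b (a (l 16587744) (l 16600944)) (l 16613720))) (a (l 16640544) (l 16655984))))) (b (b (a (a (l 16710752) (b (l 16689328) (l 16722536))) (a (b (l 16691632) (l 16729848)) (b (l 16711560) (l 16756032)))) (a (b (l 16757736) (l 16792584)) (a (b (l 16767448) (l 16806736)) (b (l 16801824) (l 16846224))))) (a (b (b (l 16936624) (l 16969360)) (l 2)) (b (a (l 16887272) (l 16930880)) (a (l 16881400) (l 16947504))))))), by decide +kernel⟩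

theorem c_pm_202_a : CertB 0 536870912 0 536870912 587336777 62277027 3 eng mog cd1q2a cd5q0 pd2 true true false .pp 2 0 2
    ndB1q2a ndB5q0 pcB2 Cut.none Ext.none :=
  certB0 (fam := true) (s1 := true) (s2 := false) (a := 2) (b := 0) (c := 2) (cn := .pp) (n1 := ndB1q2a) (n2 := ndB5q0) (pc := pcB2) (cut := Cut.none) (xt := Ext.none) (P1 := 0) (W1 := 536870912) (P2 := 0) (W2 := 536870912) (P3 := 587336777) (W3 := 62277027) (N0 := 3) (En := eng) (mo := mog) (C1 := cd1q2a) (C2 := cd5q0) (C3 := pd2)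
    rfl k0_pm_202_a

noncomputable def f_pm_202_b : ℕ → ℕ → ℕ → ℕ → Bool := onCell 1073741824 536870912 0 536870912 587336777 62277027
    (rowB 3 eng mog cd1q2b cd5q0 pd2 2 true true false .pp 2 0 2 (qsf 1239849684 370763052 0 536870912 2) ndB1q2b ndB5q0 pcB2 Cut.none Ext.none)

def k0_pm_202_b : ∃ t, chk3 f_pm_202_b t 1 1 1 = true :=
  ⟨(a (b (a (l 1) (b (a (b (a (l 279743032439) (l 175053174951)) (l 1)) (b (a (l 16497208) (l 16468640)) (l 390338557479))) (l 1))) (l 1)) (a (b (b (a (b (l 16417632) (l 16550968)) (b (l 16325792) (l 16519928))) (a (b (l 423624399063) (l 1)) (b (a (l 16627328) (l 4)) (l 4)))) (l 1)) (b (b (a (l 16303440) (l 16237928)) (l 4)) (l 4)))), by decide +kernel⟩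

theorem c_pm_202_b : CertB 1239849684 370763052 0 536870912 587336777 62277027 3 eng mog cd1q2b cd5q0 pd2 true true false .pp 2 0 2
    ndB1q2b ndB5q0 pcB2 Cut.none Ext.none :=
  certB2 (fam := true) (s1 := true) (s2 := false) (a := 2) (b := 0) (c := 2) (cn := .pp) (n1 := ndB1q2b) (n2 := ndB5q0) (pc := pcB2) (cut := Cut.none) (xt := Ext.none) (P1 := 1239849684) (W1 := 370763052) (P2 := 0) (W2 := 536870912) (P3 := 587336777) (W3 := 62277027) (N0 := 3) (En := eng) (mo := mog) (C1 := cd1q2b) (C2 := cd5q0) (C3 := pd2)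
    rfl (fun _ => rfl) k0_pm_202_b

noncomputable def f_pm_203_a : ℕ → ℕ → ℕ → ℕ → Bool := onCell 0 536870912 1610612736 536870912 587336777 62277027
    (rowB 3 eng mog cd1q2a cd5q0 pd3 1 true true false .up 2 0 3 (qsf 0 536870912 0 536870912 3) ndB1q2a ndB5q0 pcB3 Cut.none Ext.none)

def k0_pm_203_a : ∃ t, chk3 f_pm_203_a t 1 1 1 = true :=
  ⟨(b (a (l 4) (a (b (b (b (l 16842984) (l 16795392)) (l 4)) (l 2)) (b (b (a (l 16862496) (l 16883192)) (l 16801656)) (l 2)))) (l 2)), by decide +kernel⟩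

theorem c_pm_203_a : CertB 0 536870912 0 536870912 587336777 62277027 3 eng mog cd1q2a cd5q0 pd3 true true false .up 2 0 3
    ndB1q2a ndB5q0 pcB3 Cut.none Ext.none :=
  certB1 (fam := true) (s1 := true) (s2 := false) (a := 2) (b := 0) (c := 3) (cn := .up) (n1 := ndB1q2a) (n2 := ndB5q0) (pc := pcB3) (cut := Cut.none) (xt := Ext.none) (P1 := 0) (W1 := 536870912) (P2 := 0) (W2 := 536870912) (P3 := 587336777) (W3 := 62277027) (N0 := 3) (En := eng) (mo := mog) (C1 := cd1q2a) (C2 := cd5q0) (C3 := pd3)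
    rfl (fun _ => rfl) k0_pm_203_a

noncomputable def f_pm_203_b : ℕ → ℕ → ℕ → ℕ → Bool := onCell 1239849684 370763052 1610612736 536870912 587336777 62277027
    (rowB 3 eng mog cd1q2b cd5q0 pd3 1 true true false .up 2 0 3 (qsf 1239849684 370763052 0 536870912 3) ndB1q2b ndB5q0 pcB3 Cut.none Ext.none)

def k0_pm_203_b : ∃ t, chk3 f_pm_203_b t 1 1 1 = true :=
  ⟨(b (l 4) (l 4)), by decide +kernel⟩

theorem c_pm_203_b : CertB 1239849684 370763052 0 536870912 587336777 62277027 3 eng mog cd1q2b cd5q0 pd3 true true false .up 2 0 3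
    ndB1q2b ndB5q0 pcB3 Cut.none Ext.none :=
  certB1 (fam := true) (s1 := true) (s2 := false) (a := 2) (b := 0) (c := 3) (cn := .up) (n1 := ndB1q2b) (n2 := ndB5q0) (pc := pcB3) (cut := Cut.none) (xt := Ext.none) (P1 := 1239849684) (W1 := 370763052) (P2 := 0) (W2 := 536870912) (P3 := 587336777) (W3 := 62277027) (N0 := 3) (En := eng) (mo := mog) (C1 := cd1q2b) (C2 := cd5q0) (C3 := pd3)
    rfl (fun _ => rfl) k0_pm_203_b

noncomputable def f_pm_213_a : ℕ → ℕ → ℕ → ℕ → Bool := onCell 0 536870912 1610612736 536870912 587336777 62277027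
    (rowB 3 eng mog cd1q2a cd5q1 pd3 1 true true false .pnn 2 1 3 (qsf 0 536870912 536870912 536870912 3) ndB1q2a ndB5q1 pcB3 Cut.none Ext.none)

def k0_pm_213_a : ∃ t, chk3 f_pm_213_a t 1 1 1 = true :=
  ⟨(b (a (l 4) (b (b (a (l 1) (l 16835464)) (a (l 4) (l 16798264))) (a (l 4) (b (l 16761704) (l 4))))) (l 4)), by decide +kernel⟩

theorem c_pm_213_a : CertB 0 536870912 536870912 536870912 587336777 62277027 3 eng mog cd1q2a cd5q1 pd3 true true false .pnn 2 1 3
    ndB1q2a ndB5q1 pcB3 Cut.none Ext.none :=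
  certB1 (fam := true) (s1 := true) (s2 := false) (a := 2) (b := 1) (c := 3) (cn := .pnn) (n1 := ndB1q2a) (n2 := ndB5q1) (pc := pcB3) (cut := Cut.none) (xt := Ext.none) (P1 := 0) (W1 := 536870912) (P2 := 536870912) (W2 := 536870912) (P3 := 587336777) (W3 := 62277027) (N0 := 3) (En := eng) (mo := mog) (C1 := cd1q2a) (C2 := cd5q1) (C3 := pd3)
    rfl (fun _ => rfl) k0_pm_213_a

noncomputable def f_pm_213_b : ℕ → ℕ → ℕ → ℕ → Bool := onCell 1239849684 370763052 536870912 536870912 587336777 62277027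
    (rowB 3 eng mog cd1q2b cd5q1 pd3 0 true true false .pnn 2 1 3 (qsf 1239849684 370763052 536870912 536870912 3) ndB1q2b ndB5q1 pcB3 Cut.none Ext.none)

def k0_pm_213_b : ∃ t, chk3 f_pm_213_b t 1 1 1 = true :=
  ⟨(l 4), by decide +kernel⟩

theorem c_pm_213_b : CertB 1239849684 370763052 536870912 536870912 587336777 62277027 3 eng mog cd1q2b cd5q1 pd3 true true false .pnn 2 1 3
    ndB1q2b ndB5q1 pcB3 Cut.none Ext.none :=
  certB0 (fam := true) (s1 := true) (s2 := false) (a := 2) (b := 1) (c := 3) (cn := .pnn) (n1 := ndB1q2b) (n2 := ndB5q1) (pc := pcB3) (cut := Cut.none) (xt := Ext.none) (P1 := 1239849684) (W1 := 370763052) (P2 := 536870912) (W2 := 536870912) (P3 := 587336777) (W3 := 62277027) (N0 := 3) (En := eng) (mo := mog) (C1 := cd1q2b) (C2 := cd5q1) (C3 := pd3)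
    rfl k0_pm_213_b

noncomputable def f_pm_303 : ℕ → ℕ → ℕ → ℕ → Bool := onCell 1610612736 536870912 0 536870912 587336777 62277027
    (rowB 3 eng mog cd1q3 cd5q0 pd3 2 true true false .npn 3 0 3 (qsf 1610612736 536870912 0 536870912 3) ndB1q3 ndB5q0 pcB3 Cut.none Ext.none)

def k0_pm_303 : ∃ t, chk3 f_pm_303 t 1 1 1 = true :=
  ⟨(a (l 4) (l 4)), by decide +kernel⟩

theorem c_pm_303 : CertB 1610612736 536870912 0 536870912 587336777 62277027 3 eng mog cd1q3 cd5q0 pd3 true true false .npn 3 0 3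
    ndB1q3 ndB5q0 pcB3 Cut.none Ext.none :=
  certB2 (fam := true) (s1 := true) (s2 := false) (a := 3) (b := 0) (c := 3) (cn := .npn) (n1 := ndB1q3) (n2 := ndB5q0) (pc := pcB3) (cut := Cut.none) (xt := Ext.none) (P1 := 1610612736) (W1 := 536870912) (P2 := 0) (W2 := 536870912) (P3 := 587336777) (W3 := 62277027) (N0 := 3) (En := eng) (mo := mog) (C1 := cd1q3) (C2 := cd5q0) (C3 := pd3)
    rfl (fun _ => rfl) k0_pm_303

noncomputable def f_pm_313 : ℕ → ℕ → ℕ → ℕ → Bool := onCell 1610612736 536870912 536870912 536870912 587336777 62277027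
    (rowB 3 eng mog cd1q3 cd5q1 pd3 0 true true false .dn 3 1 3 (qsf 1610612736 536870912 536870912 536870912 3) ndB1q3 ndB5q1 pcB3 Cut.none Ext.none)

def k0_pm_313 : ∃ t, chk3 f_pm_313 t 1 1 1 = true :=
  ⟨(l 4), by decide +kernel⟩

theorem c_pm_313 : CertB 1610612736 536870912 536870912 536870912 587336777 62277027 3 eng mog cd1q3 cd5q1 pd3 true true false .dn 3 1 3
    ndB1q3 ndB5q1 pcB3 Cut.none Ext.none :=
  certB0 (fam := true) (s1 := true) (s2 := false) (a := 3) (b := 1) (c := 3) (cn := .dn) (n1 := ndB1q3) (n2 := ndB5q1) (pc := pcB3) (cut := Cut.none) (xt := Ext.none) (P1 := 1610612736) (W1 := 536870912) (P2 := 536870912) (W2 := 536870912) (P3 := 587336777) (W3 := 62277027) (N0 := 3) (En := eng) (mo := mog) (C1 := cd1q3) (C2 := cd5q1) (C3 := pd3)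
    rfl k0_pm_313

noncomputable def f_mm_001 : ℕ → ℕ → ℕ → ℕ → Bool := onCell 0 536870912 0 536870912 587336777 62277027
    (rowB 3 eng mog cd1q0 cd5q0 pd1 0 true false false .up 0 0 1 (qsf 0 536870912 0 536870912 1) ndB1q0 ndB5q0 pcB1 Cut.none Ext.none)

def k0_mm_001 : ∃ t, chk3 f_mm_001 t 1 1 1 = true :=
  ⟨(l 4), by decide +kernel⟩

theorem c_mm_001 : CertB 0 536870912 0 536870912 587336777 62277027 3 eng mog cd1q0 cd5q0 pd1 true false false .up 0 0 1
    ndB1q0 ndB5q0 pcB1 Cut.none Ext.none :=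
  certB0 (fam := true) (s1 := false) (s2 := false) (a := 0) (b := 0) (c := 1) (cn := .up) (n1 := ndB1q0) (n2 := ndB5q0) (pc := pcB1) (cut := Cut.none) (xt := Ext.none) (P1 := 0) (W1 := 536870912) (P2 := 0) (W2 := 536870912) (P3 := 587336777) (W3 := 62277027) (N0 := 3) (En := eng) (mo := mog) (C1 := cd1q0) (C2 := cd5q0) (C3 := pd1)
    rfl k0_mm_001

noncomputable def f_mm_011 : ℕ → ℕ → ℕ → ℕ → Bool := onCell 0 536870912 536870912 536870912 587336777 62277027
    (rowB 3 eng mog cd1q0 cd5q1 pd1 0 true false false .pnn 0 1 1 (qsf 0 536870912 536870912 536870912 1) ndB1q0 ndB5q1 pcB1 Cut.none Ext.none)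

def k0_mm_011 : ∃ t, chk3 f_mm_011 t 1 1 1 = true :=
  ⟨(l 4), by decide +kernel⟩

theorem c_mm_011 : CertB 0 536870912 536870912 536870912 587336777 62277027 3 eng mog cd1q0 cd5q1 pd1 true false false .pnn 0 1 1
    ndB1q0 ndB5q1 pcB1 Cut.none Ext.none :=
  certB0 (fam := true) (s1 := false) (s2 := false) (a := 0) (b := 1) (c := 1) (cn := .pnn) (n1 := ndB1q0) (n2 := ndB5q1) (pc := pcB1) (cut := Cut.none) (xt := Ext.none) (P1 := 0) (W1 := 536870912) (P2 := 536870912) (W2 := 536870912) (P3 := 587336777) (W3 := 62277027) (N0 := 3) (En := eng) (mo := mog) (C1 := cd1q0) (C2 := cd5q1) (C3 := pd1)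
    rfl k0_mm_011

noncomputable def f_mm_012 : ℕ → ℕ → ℕ → ℕ → Bool := onCell 0 536870912 536870912 536870912 587336777 62277027
    (rowB 3 eng mog cd1q0 cd5q1 pd2 0 true false false .pnp 0 1 2 (qsf 0 536870912 536870912 536870912 2) ndB1q0 ndB5q1 pcB2 Cut.none Ext.none)

def k0_mm_012 : ∃ t, chk3 f_mm_012 t 1 1 1 = true :=
  ⟨(l 4), by decide +kernel⟩

theorem c_mm_012 : CertB 0 536870912 536870912 536870912 587336777 62277027 3 eng mog cd1q0 cd5q1 pd2 true false false .pnp 0 1 2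
    ndB1q0 ndB5q1 pcB2 Cut.none Ext.none :=
  certB0 (fam := true) (s1 := false) (s2 := false) (a := 0) (b := 1) (c := 2) (cn := .pnp) (n1 := ndB1q0) (n2 := ndB5q1) (pc := pcB2) (cut := Cut.none) (xt := Ext.none) (P1 := 0) (W1 := 536870912) (P2 := 536870912) (W2 := 536870912) (P3 := 587336777) (W3 := 62277027) (N0 := 3) (En := eng) (mo := mog) (C1 := cd1q0) (C2 := cd5q1) (C3 := pd2)
    rfl k0_mm_012

noncomputable def f_mm_022 : ℕ → ℕ → ℕ → ℕ → Bool := onCell 0 536870912 1073741824 536870912 587336777 62277027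
    (rowB 3 eng mog cd1q0 cd5q2 pd2 0 true false false .pp 0 2 2 (qsf 0 536870912 1073741824 536870912 2) ndB1q0 ndB5q2 pcB2 Cut.none Ext.none)

def k0_mm_022 : ∃ t, chk3 f_mm_022 t 1 1 1 = true :=
  ⟨(l 4), by decide +kernel⟩

theorem c_mm_022 : CertB 0 536870912 1073741824 536870912 587336777 62277027 3 eng mog cd1q0 cd5q2 pd2 true false false .pp 0 2 2
    ndB1q0 ndB5q2 pcB2 Cut.none Ext.none :=
  certB0 (fam := true) (s1 := false) (s2 := false) (a := 0) (b := 2) (c := 2) (cn := .pp) (n1 := ndB1q0) (n2 := ndB5q2) (pc := pcB2) (cut := Cut.none) (xt := Ext.none) (P1 := 0) (W1 := 536870912) (P2 := 1073741824) (W2 := 536870912) (P3 := 587336777) (W3 := 62277027) (N0 := 3) (En := eng) (mo := mog) (C1 := cd1q0) (C2 := cd5q2) (C3 := pd2)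
    rfl k0_mm_022

noncomputable def f_mm_023 : ℕ → ℕ → ℕ → ℕ → Bool := onCell 0 536870912 1073741824 536870912 587336777 62277027
    (rowB 3 eng mog cd1q0 cd5q2 pd3 0 true false false .up 0 2 3 (qsf 0 536870912 1073741824 536870912 3) ndB1q0 ndB5q2 pcB3 Cut.none Ext.none)

def k0_mm_023 : ∃ t, chk3 f_mm_023 t 1 1 1 = true :=
  ⟨(l 4), by decide +kernel⟩

theorem c_mm_023 : CertB 0 536870912 1073741824 536870912 587336777 62277027 3 eng mog cd1q0 cd5q2 pd3 true false false .up 0 2 3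
    ndB1q0 ndB5q2 pcB3 Cut.none Ext.none :=
  certB0 (fam := true) (s1 := false) (s2 := false) (a := 0) (b := 2) (c := 3) (cn := .up) (n1 := ndB1q0) (n2 := ndB5q2) (pc := pcB3) (cut := Cut.none) (xt := Ext.none) (P1 := 0) (W1 := 536870912) (P2 := 1073741824) (W2 := 536870912) (P3 := 587336777) (W3 := 62277027) (N0 := 3) (En := eng) (mo := mog) (C1 := cd1q0) (C2 := cd5q2) (C3 := pd3)
    rfl k0_mm_023

noncomputable def f_mm_033 : ℕ → ℕ → ℕ → ℕ → Bool := onCell 0 536870912 0 1230186008 587336777 62277027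
    (rowB 3 eng mog cd1q0 cd5q3 pd3 0 true false false .pnn 0 3 3 (qsf 0 536870912 0 1230186008 3) ndB1q0 ndB5q3 pcB3 Cut.none Ext.none)

def k0_mm_033 : ∃ t, chk3 f_mm_033 t 1 1 1 = true :=
  ⟨(l 5), by decide +kernel⟩

theorem c_mm_033 : CertB 0 536870912 0 1230186008 587336777 62277027 3 eng mog cd1q0 cd5q3 pd3 true false false .pnn 0 3 3
    ndB1q0 ndB5q3 pcB3 Cut.none Ext.none :=
  certB0 (fam := true) (s1 := false) (s2 := false) (a := 0) (b := 3) (c := 3) (cn := .pnn) (n1 := ndB1q0) (n2 := ndB5q3) (pc := pcB3) (cut := Cut.none) (xt := Ext.none) (P1 := 0) (W1 := 536870912) (P2 := 0) (W2 := 1230186008) (P3 := 587336777) (W3 := 62277027) (N0 := 3) (En := eng) (mo := mog) (C1 := cd1q0) (C2 := cd5q3) (C3 := pd3)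
    rfl k0_mm_033

noncomputable def f_mm_101 : ℕ → ℕ → ℕ → ℕ → Bool := onCell 536870912 536870912 0 536870912 587336777 62277027
    (rowB 3 eng mog cd1q1 cd5q0 pd1 0 true false false .npn 1 0 1 (qsf 536870912 536870912 0 536870912 1) ndB1q1 ndB5q0 pcB1 Cut.none Ext.none)

def k0_mm_101 : ∃ t, chk3 f_mm_101 t 1 1 1 = true :=
  ⟨(l 4), by decide +kernel⟩

theorem c_mm_101 : CertB 536870912 536870912 0 536870912 587336777 62277027 3 eng mog cd1q1 cd5q0 pd1 true false false .npn 1 0 1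
    ndB1q1 ndB5q0 pcB1 Cut.none Ext.none :=
  certB0 (fam := true) (s1 := false) (s2 := false) (a := 1) (b := 0) (c := 1) (cn := .npn) (n1 := ndB1q1) (n2 := ndB5q0) (pc := pcB1) (cut := Cut.none) (xt := Ext.none) (P1 := 536870912) (W1 := 536870912) (P2 := 0) (W2 := 536870912) (P3 := 587336777) (W3 := 62277027) (N0 := 3) (En := eng) (mo := mog) (C1 := cd1q1) (C2 := cd5q0) (C3 := pd1)
    rfl k0_mm_101

noncomputable def f_mm_102 : ℕ → ℕ → ℕ → ℕ → Bool := onCell 536870912 536870912 0 536870912 587336777 62277027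
    (rowB 3 eng mog cd1q1 cd5q0 pd2 0 true false false .npp 1 0 2 (qsf 536870912 536870912 0 536870912 2) ndB1q1 ndB5q0 pcB2 Cut.none Ext.none)

def k0_mm_102 : ∃ t, chk3 f_mm_102 t 1 1 1 = true :=
  ⟨(l 4), by decide +kernel⟩

theorem c_mm_102 : CertB 536870912 536870912 0 536870912 587336777 62277027 3 eng mog cd1q1 cd5q0 pd2 true false false .npp 1 0 2
    ndB1q1 ndB5q0 pcB2 Cut.none Ext.none :=
  certB0 (fam := true) (s1 := false) (s2 := false) (a := 1) (b := 0) (c := 2) (cn := .npp) (n1 := ndB1q1) (n2 := ndB5q0) (pc := pcB2) (cut := Cut.none) (xt := Ext.none) (P1 := 536870912) (W1 := 536870912) (P2 := 0) (W2 := 536870912) (P3 := 587336777) (W3 := 62277027) (N0 := 3) (En := eng) (mo := mog) (C1 := cd1q1) (C2 := cd5q0) (C3 := pd2)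
    rfl k0_mm_102

noncomputable def f_mm_112 : ℕ → ℕ → ℕ → ℕ → Bool := onCell 536870912 536870912 536870912 536870912 587336777 62277027
    (rowB 3 eng mog cd1q1 cd5q1 pd2 0 true false false .dn 1 1 2 (qsf 536870912 536870912 536870912 536870912 2) ndB1q1 ndB5q1 pcB2 Cut.none Ext.none)

def k0_mm_112 : ∃ t, chk3 f_mm_112 t 1 1 1 = true :=
  ⟨(l 4), by decide +kernel⟩

theorem c_mm_112 : CertB 536870912 536870912 536870912 536870912 587336777 62277027 3 eng mog cd1q1 cd5q1 pd2 true false false .dn 1 1 2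
    ndB1q1 ndB5q1 pcB2 Cut.none Ext.none :=
  certB0 (fam := true) (s1 := false) (s2 := false) (a := 1) (b := 1) (c := 2) (cn := .dn) (n1 := ndB1q1) (n2 := ndB5q1) (pc := pcB2) (cut := Cut.none) (xt := Ext.none) (P1 := 536870912) (W1 := 536870912) (P2 := 536870912) (W2 := 536870912) (P3 := 587336777) (W3 := 62277027) (N0 := 3) (En := eng) (mo := mog) (C1 := cd1q1) (C2 := cd5q1) (C3 := pd2)
    rfl k0_mm_112

noncomputable def f_mm_113 : ℕ → ℕ → ℕ → ℕ → Bool := onCell 536870912 536870912 536870912 536870912 587336777 62277027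
    (rowB 3 eng mog cd1q1 cd5q1 pd3 0 true false false .nn 1 1 3 (qsf 536870912 536870912 536870912 536870912 3) ndB1q1 ndB5q1 pcB3 Cut.none Ext.none)

def k0_mm_113 : ∃ t, chk3 f_mm_113 t 1 1 1 = true :=
  ⟨(l 4), by decide +kernel⟩

theorem c_mm_113 : CertB 536870912 536870912 536870912 536870912 587336777 62277027 3 eng mog cd1q1 cd5q1 pd3 true false false .nn 1 1 3
    ndB1q1 ndB5q1 pcB3 Cut.none Ext.none :=
  certB0 (fam := true) (s1 := false) (s2 := false) (a := 1) (b := 1) (c := 3) (cn := .nn) (n1 := ndB1q1) (n2 := ndB5q1) (pc := pcB3) (cut := Cut.none) (xt := Ext.none) (P1 := 536870912) (W1 := 536870912) (P2 := 536870912) (W2 := 536870912) (P3 := 587336777) (W3 := 62277027) (N0 := 3) (En := eng) (mo := mog) (C1 := cd1q1) (C2 := cd5q1) (C3 := pd3)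
    rfl k0_mm_113

noncomputable def f_mm_123 : ℕ → ℕ → ℕ → ℕ → Bool := onCell 536870912 536870912 1073741824 536870912 587336777 62277027
    (rowB 3 eng mog cd1q1 cd5q2 pd3 0 true false false .npn 1 2 3 (qsf 536870912 536870912 1073741824 536870912 3) ndB1q1 ndB5q2 pcB3 Cut.none Ext.none)

def k0_mm_123 : ∃ t, chk3 f_mm_123 t 1 1 1 = true :=
  ⟨(l 4), by decide +kernel⟩

theorem c_mm_123 : CertB 536870912 536870912 1073741824 536870912 587336777 62277027 3 eng mog cd1q1 cd5q2 pd3 true false false .npn 1 2 3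
    ndB1q1 ndB5q2 pcB3 Cut.none Ext.none :=
  certB0 (fam := true) (s1 := false) (s2 := false) (a := 1) (b := 2) (c := 3) (cn := .npn) (n1 := ndB1q1) (n2 := ndB5q2) (pc := pcB3) (cut := Cut.none) (xt := Ext.none) (P1 := 536870912) (W1 := 536870912) (P2 := 1073741824) (W2 := 536870912) (P3 := 587336777) (W3 := 62277027) (N0 := 3) (En := eng) (mo := mog) (C1 := cd1q1) (C2 := cd5q2) (C3 := pd3)
    rfl k0_mm_123

noncomputable def f_mm_133 : ℕ → ℕ → ℕ → ℕ → Bool := onCell 536870912 536870912 0 1230186008 587336777 62277027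
    (rowB 3 eng mog cd1q1 cd5q3 pd3 0 true false false .dn 1 3 3 (qsf 536870912 536870912 0 1230186008 3) ndB1q1 ndB5q3 pcB3 Cut.none Ext.none)

def k0_mm_133 : ∃ t, chk3 f_mm_133 t 1 1 1 = true :=
  ⟨(l 4), by decide +kernel⟩

theorem c_mm_133 : CertB 536870912 536870912 0 1230186008 587336777 62277027 3 eng mog cd1q1 cd5q3 pd3 true false false .dn 1 3 3
    ndB1q1 ndB5q3 pcB3 Cut.none Ext.none :=
  certB0 (fam := true) (s1 := false) (s2 := false) (a := 1) (b := 3) (c := 3) (cn := .dn) (n1 := ndB1q1) (n2 := ndB5q3) (pc := pcB3) (cut := Cut.none) (xt := Ext.none) (P1 := 536870912) (W1 := 536870912) (P2 := 0) (W2 := 1230186008) (P3 := 587336777) (W3 := 62277027) (N0 := 3) (En := eng) (mo := mog) (C1 := cd1q1) (C2 := cd5q3) (C3 := pd3)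
    rfl k0_mm_133

noncomputable def f_mm_202_a : ℕ → ℕ → ℕ → ℕ → Bool := onCell 0 536870912 0 536870912 587336777 62277027
    (rowB 3 eng mog cd1q2a cd5q0 pd2 0 true false false .pp 2 0 2 (qsf 0 536870912 0 536870912 2) ndB1q2a ndB5q0 pcB2 Cut.none Ext.none)

def k0_mm_202_a : ∃ t, chk3 f_mm_202_a t 1 1 1 = true :=
  ⟨(b (a (b (b (a (b (l 16629712) (l 16536760)) (b (a (l 16516856) (l 4)) (l 4))) (a (b (l 16571880) (l 16607600)) (l 4))) (l 4)) (l 4)) (l 4)), by decide +kernel⟩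

theorem c_mm_202_a : CertB 0 536870912 0 536870912 587336777 62277027 3 eng mog cd1q2a cd5q0 pd2 true false false .pp 2 0 2
    ndB1q2a ndB5q0 pcB2 Cut.none Ext.none :=
  certB0 (fam := true) (s1 := false) (s2 := false) (a := 2) (b := 0) (c := 2) (cn := .pp) (n1 := ndB1q2a) (n2 := ndB5q0) (pc := pcB2) (cut := Cut.none) (xt := Ext.none) (P1 := 0) (W1 := 536870912) (P2 := 0) (W2 := 536870912) (P3 := 587336777) (W3 := 62277027) (N0 := 3) (En := eng) (mo := mog) (C1 := cd1q2a) (C2 := cd5q0) (C3 := pd2)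
    rfl k0_mm_202_a

noncomputable def f_mm_202_b : ℕ → ℕ → ℕ → ℕ → Bool := onCell 1073741824 536870912 0 536870912 587336777 62277027
    (rowB 3 eng mog cd1q2b cd5q0 pd2 2 true false false .pp 2 0 2 (qsf 1239849684 370763052 0 536870912 2) ndB1q2b ndB5q0 pcB2 Cut.none Ext.none)

def k0_mm_202_b : ∃ t, chk3 f_mm_202_b t 1 1 1 = true :=
  ⟨(a (b (a (l 1) (b (a (b (a (l 225519111431) (l 16526728)) (l 1)) (b (a (l 16499552) (l 16470192)) (l 285111971207))) (l 1))) (l 1)) (b (b (a (a (b (l 16419984) (l 16558168)) (b (l 16332432) (l 4))) (a (l 16310512) (l 4))) (l 4)) (l 4))), by decide +kernel⟩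

theorem c_mm_202_b : CertB 1239849684 370763052 0 536870912 587336777 62277027 3 eng mog cd1q2b cd5q0 pd2 true false false .pp 2 0 2
    ndB1q2b ndB5q0 pcB2 Cut.none Ext.none :=
  certB2 (fam := true) (s1 := false) (s2 := false) (a := 2) (b := 0) (c := 2) (cn := .pp) (n1 := ndB1q2b) (n2 := ndB5q0) (pc := pcB2) (cut := Cut.none) (xt := Ext.none) (P1 := 1239849684) (W1 := 370763052) (P2 := 0) (W2 := 536870912) (P3 := 587336777) (W3 := 62277027) (N0 := 3) (En := eng) (mo := mog) (C1 := cd1q2b) (C2 := cd5q0) (C3 := pd2)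
    rfl (fun _ => rfl) k0_mm_202_b

noncomputable def f_mm_203_a : ℕ → ℕ → ℕ → ℕ → Bool := onCell 0 536870912 1610612736 536870912 587336777 62277027
    (rowB 3 eng mog cd1q2a cd5q0 pd3 1 true false false .up 2 0 3 (qsf 0 536870912 0 536870912 3) ndB1q2a ndB5q0 pcB3 Cut.none Ext.none)

def k0_mm_203_a : ∃ t, chk3 f_mm_203_a t 1 1 1 = true :=
  ⟨(l 4), by decide +kernel⟩

theorem c_mm_203_a : CertB 0 536870912 0 536870912 587336777 62277027 3 eng mog cd1q2a cd5q0 pd3 true false false .up 2 0 3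
    ndB1q2a ndB5q0 pcB3 Cut.none Ext.none :=
  certB1 (fam := true) (s1 := false) (s2 := false) (a := 2) (b := 0) (c := 3) (cn := .up) (n1 := ndB1q2a) (n2 := ndB5q0) (pc := pcB3) (cut := Cut.none) (xt := Ext.none) (P1 := 0) (W1 := 536870912) (P2 := 0) (W2 := 536870912) (P3 := 587336777) (W3 := 62277027) (N0 := 3) (En := eng) (mo := mog) (C1 := cd1q2a) (C2 := cd5q0) (C3 := pd3)
    rfl (fun _ => rfl) k0_mm_203_a

noncomputable def f_mm_203_b : ℕ → ℕ → ℕ → ℕ → Bool := onCell 1239849684 370763052 1610612736 536870912 587336777 62277027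
    (rowB 3 eng mog cd1q2b cd5q0 pd3 1 true false false .up 2 0 3 (qsf 1239849684 370763052 0 536870912 3) ndB1q2b ndB5q0 pcB3 Cut.none Ext.none)

def k0_mm_203_b : ∃ t, chk3 f_mm_203_b t 1 1 1 = true :=
  ⟨(l 4), by decide +kernel⟩

theorem c_mm_203_b : CertB 1239849684 370763052 0 536870912 587336777 62277027 3 eng mog cd1q2b cd5q0 pd3 true false false .up 2 0 3
    ndB1q2b ndB5q0 pcB3 Cut.none Ext.none :=
  certB1 (fam := true) (s1 := false) (s2 := false) (a := 2) (b := 0) (c := 3) (cn := .up) (n1 := ndB1q2b) (n2 := ndB5q0) (pc := pcB3) (cut := Cut.none) (xt := Ext.none) (P1 := 1239849684) (W1 := 370763052) (P2 := 0) (W2 := 536870912) (P3 := 587336777) (W3 := 62277027) (N0 := 3) (En := eng) (mo := mog) (C1 := cd1q2b) (C2 := cd5q0) (C3 := pd3)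
    rfl (fun _ => rfl) k0_mm_203_b

noncomputable def f_mm_213_a : ℕ → ℕ → ℕ → ℕ → Bool := onCell 0 536870912 536870912 536870912 587336777 62277027
    (rowB 3 eng mog cd1q2a cd5q1 pd3 0 true false false .pnn 2 1 3 (qsf 0 536870912 536870912 536870912 3) ndB1q2a ndB5q1 pcB3 Cut.none Ext.none)

def k0_mm_213_a : ∃ t, chk3 f_mm_213_a t 1 1 1 = true :=
  ⟨(l 4), by decide +kernel⟩

theorem c_mm_213_a : CertB 0 536870912 536870912 536870912 587336777 62277027 3 eng mog cd1q2a cd5q1 pd3 true false false .pnn 2 1 3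
    ndB1q2a ndB5q1 pcB3 Cut.none Ext.none :=
  certB0 (fam := true) (s1 := false) (s2 := false) (a := 2) (b := 1) (c := 3) (cn := .pnn) (n1 := ndB1q2a) (n2 := ndB5q1) (pc := pcB3) (cut := Cut.none) (xt := Ext.none) (P1 := 0) (W1 := 536870912) (P2 := 536870912) (W2 := 536870912) (P3 := 587336777) (W3 := 62277027) (N0 := 3) (En := eng) (mo := mog) (C1 := cd1q2a) (C2 := cd5q1) (C3 := pd3)
    rfl k0_mm_213_a

noncomputable def f_mm_213_b : ℕ → ℕ → ℕ → ℕ → Bool := onCell 1239849684 370763052 536870912 536870912 587336777 62277027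
    (rowB 3 eng mog cd1q2b cd5q1 pd3 0 true false false .pnn 2 1 3 (qsf 1239849684 370763052 536870912 536870912 3) ndB1q2b ndB5q1 pcB3 Cut.none Ext.none)

def k0_mm_213_b : ∃ t, chk3 f_mm_213_b t 1 1 1 = true :=
  ⟨(l 4), by decide +kernel⟩

theorem c_mm_213_b : CertB 1239849684 370763052 536870912 536870912 587336777 62277027 3 eng mog cd1q2b cd5q1 pd3 true false false .pnn 2 1 3
    ndB1q2b ndB5q1 pcB3 Cut.none Ext.none :=
  certB0 (fam := true) (s1 := false) (s2 := false) (a := 2) (b := 1) (c := 3) (cn := .pnn) (n1 := ndB1q2b) (n2 := ndB5q1) (pc := pcB3) (cut := Cut.none) (xt := Ext.none) (P1 := 1239849684) (W1 := 370763052) (P2 := 536870912) (W2 := 536870912) (P3 := 587336777) (W3 := 62277027) (N0 := 3) (En := eng) (mo := mog) (C1 := cd1q2b) (C2 := cd5q1) (C3 := pd3)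
    rfl k0_mm_213_b

noncomputable def f_mm_303 : ℕ → ℕ → ℕ → ℕ → Bool := onCell 1610612736 536870912 0 536870912 587336777 62277027
    (rowB 3 eng mog cd1q3 cd5q0 pd3 2 true false false .npn 3 0 3 (qsf 1610612736 536870912 0 536870912 3) ndB1q3 ndB5q0 pcB3 Cut.none Ext.none)

def k0_mm_303 : ∃ t, chk3 f_mm_303 t 1 1 1 = true :=
  ⟨(l 4), by decide +kernel⟩

theorem c_mm_303 : CertB 1610612736 536870912 0 536870912 587336777 62277027 3 eng mog cd1q3 cd5q0 pd3 true false false .npn 3 0 3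
    ndB1q3 ndB5q0 pcB3 Cut.none Ext.none :=
  certB2 (fam := true) (s1 := false) (s2 := false) (a := 3) (b := 0) (c := 3) (cn := .npn) (n1 := ndB1q3) (n2 := ndB5q0) (pc := pcB3) (cut := Cut.none) (xt := Ext.none) (P1 := 1610612736) (W1 := 536870912) (P2 := 0) (W2 := 536870912) (P3 := 587336777) (W3 := 62277027) (N0 := 3) (En := eng) (mo := mog) (C1 := cd1q3) (C2 := cd5q0) (C3 := pd3)
    rfl (fun _ => rfl) k0_mm_303

noncomputable def f_mm_313 : ℕ → ℕ → ℕ → ℕ → Bool := onCell 1610612736 536870912 536870912 536870912 587336777 62277027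
    (rowB 3 eng mog cd1q3 cd5q1 pd3 0 true false false .dn 3 1 3 (qsf 1610612736 536870912 536870912 536870912 3) ndB1q3 ndB5q1 pcB3 Cut.none Ext.none)

def k0_mm_313 : ∃ t, chk3 f_mm_313 t 1 1 1 = true :=
  ⟨(l 4), by decide +kernel⟩

theorem c_mm_313 : CertB 1610612736 536870912 536870912 536870912 587336777 62277027 3 eng mog cd1q3 cd5q1 pd3 true false false .dn 3 1 3
    ndB1q3 ndB5q1 pcB3 Cut.none Ext.none :=
  certB0 (fam := true) (s1 := false) (s2 := false) (a := 3) (b := 1) (c := 3) (cn := .dn) (n1 := ndB1q3) (n2 := ndB5q1) (pc := pcB3) (cut := Cut.none) (xt := Ext.none) (P1 := 1610612736) (W1 := 536870912) (P2 := 536870912) (W2 := 536870912) (P3 := 587336777) (W3 := 62277027) (N0 := 3) (En := eng) (mo := mog) (C1 := cd1q3) (C2 := cd5q1) (C3 := pd3)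
    rfl k0_mm_313

end Pool.Agent.Strip051.G.I5470_6050.Tab.C.BA15

namespace Pool.Agent.Strip051.G.I5470_6050.Tab.C.BA16

open Pool.Agent.Strip051.PB Pool.Agent.Strip051.PB.T
open Pool.Agent.Strip051.G.I5470_6050.Tab

noncomputable def f_pp_001 : ℕ → ℕ → ℕ → ℕ → Bool := onCell 0 536870912 0 536870912 587336777 62277027
    (rowB 3 eng mog cd1q0 cd6q0 pd1 0 true true true .up 0 0 1 (qsf 0 536870912 0 536870912 1) ndB1q0 ndB6q0 pcB1 Cut.none Ext.none)

def k0_pp_001 : ∃ t, chk3 f_pp_001 t 1 1 1 = true :=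
  ⟨(l 4), by decide +kernel⟩

theorem c_pp_001 : CertB 0 536870912 0 536870912 587336777 62277027 3 eng mog cd1q0 cd6q0 pd1 true true true .up 0 0 1
    ndB1q0 ndB6q0 pcB1 Cut.none Ext.none :=
  certB0 (fam := true) (s1 := true) (s2 := true) (a := 0) (b := 0) (c := 1) (cn := .up) (n1 := ndB1q0) (n2 := ndB6q0) (pc := pcB1) (cut := Cut.none) (xt := Ext.none) (P1 := 0) (W1 := 536870912) (P2 := 0) (W2 := 536870912) (P3 := 587336777) (W3 := 62277027) (N0 := 3) (En := eng) (mo := mog) (C1 := cd1q0) (C2 := cd6q0) (C3 := pd1)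
    rfl k0_pp_001

noncomputable def f_pp_011 : ℕ → ℕ → ℕ → ℕ → Bool := onCell 0 536870912 536870912 536870912 587336777 62277027
    (rowB 3 eng mog cd1q0 cd6q1 pd1 0 true true true .pnn 0 1 1 (qsf 0 536870912 536870912 536870912 1) ndB1q0 ndB6q1 pcB1 Cut.none Ext.none)

def k0_pp_011 : ∃ t, chk3 f_pp_011 t 1 1 1 = true :=
  ⟨(l 4), by decide +kernel⟩

theorem c_pp_011 : CertB 0 536870912 536870912 536870912 587336777 62277027 3 eng mog cd1q0 cd6q1 pd1 true true true .pnn 0 1 1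
    ndB1q0 ndB6q1 pcB1 Cut.none Ext.none :=
  certB0 (fam := true) (s1 := true) (s2 := true) (a := 0) (b := 1) (c := 1) (cn := .pnn) (n1 := ndB1q0) (n2 := ndB6q1) (pc := pcB1) (cut := Cut.none) (xt := Ext.none) (P1 := 0) (W1 := 536870912) (P2 := 536870912) (W2 := 536870912) (P3 := 587336777) (W3 := 62277027) (N0 := 3) (En := eng) (mo := mog) (C1 := cd1q0) (C2 := cd6q1) (C3 := pd1)
    rfl k0_pp_011

noncomputable def f_pp_012 : ℕ → ℕ → ℕ → ℕ → Bool := onCell 0 536870912 536870912 536870912 587336777 62277027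
    (rowB 3 eng mog cd1q0 cd6q1 pd2 0 true true true .pnp 0 1 2 (qsf 0 536870912 536870912 536870912 2) ndB1q0 ndB6q1 pcB2 Cut.none Ext.none)

def k0_pp_012 : ∃ t, chk3 f_pp_012 t 1 1 1 = true :=
  ⟨(l 4), by decide +kernel⟩

theorem c_pp_012 : CertB 0 536870912 536870912 536870912 587336777 62277027 3 eng mog cd1q0 cd6q1 pd2 true true true .pnp 0 1 2
    ndB1q0 ndB6q1 pcB2 Cut.none Ext.none :=
  certB0 (fam := true) (s1 := true) (s2 := true) (a := 0) (b := 1) (c := 2) (cn := .pnp) (n1 := ndB1q0) (n2 := ndB6q1) (pc := pcB2) (cut := Cut.none) (xt := Ext.none) (P1 := 0) (W1 := 536870912) (P2 := 536870912) (W2 := 536870912) (P3 := 587336777) (W3 := 62277027) (N0 := 3) (En := eng) (mo := mog) (C1 := cd1q0) (C2 := cd6q1) (C3 := pd2)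
    rfl k0_pp_012

noncomputable def f_pp_022 : ℕ → ℕ → ℕ → ℕ → Bool := onCell 0 536870912 1073741824 536870912 587336777 62277027
    (rowB 3 eng mog cd1q0 cd6q2 pd2 0 true true true .pp 0 2 2 (qsf 0 536870912 1073741824 536870912 2) ndB1q0 ndB6q2 pcB2 Cut.none Ext.none)

def k0_pp_022 : ∃ t, chk3 f_pp_022 t 1 1 1 = true :=
  ⟨(l 4), by decide +kernel⟩

theorem c_pp_022 : CertB 0 536870912 1073741824 536870912 587336777 62277027 3 eng mog cd1q0 cd6q2 pd2 true true true .pp 0 2 2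
    ndB1q0 ndB6q2 pcB2 Cut.none Ext.none :=
  certB0 (fam := true) (s1 := true) (s2 := true) (a := 0) (b := 2) (c := 2) (cn := .pp) (n1 := ndB1q0) (n2 := ndB6q2) (pc := pcB2) (cut := Cut.none) (xt := Ext.none) (P1 := 0) (W1 := 536870912) (P2 := 1073741824) (W2 := 536870912) (P3 := 587336777) (W3 := 62277027) (N0 := 3) (En := eng) (mo := mog) (C1 := cd1q0) (C2 := cd6q2) (C3 := pd2)
    rfl k0_pp_022

noncomputable def f_pp_023 : ℕ → ℕ → ℕ → ℕ → Bool := onCell 0 536870912 1073741824 536870912 587336777 62277027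
    (rowB 3 eng mog cd1q0 cd6q2 pd3 0 true true true .up 0 2 3 (qsf 0 536870912 1073741824 536870912 3) ndB1q0 ndB6q2 pcB3 Cut.none Ext.none)

def k0_pp_023 : ∃ t, chk3 f_pp_023 t 1 1 1 = true :=
  ⟨(l 4), by decide +kernel⟩

theorem c_pp_023 : CertB 0 536870912 1073741824 536870912 587336777 62277027 3 eng mog cd1q0 cd6q2 pd3 true true true .up 0 2 3
    ndB1q0 ndB6q2 pcB3 Cut.none Ext.none :=
  certB0 (fam := true) (s1 := true) (s2 := true) (a := 0) (b := 2) (c := 3) (cn := .up) (n1 := ndB1q0) (n2 := ndB6q2) (pc := pcB3) (cut := Cut.none) (xt := Ext.none) (P1 := 0) (W1 := 536870912) (P2 := 1073741824) (W2 := 536870912) (P3 := 587336777) (W3 := 62277027) (N0 := 3) (En := eng) (mo := mog) (C1 := cd1q0) (C2 := cd6q2) (C3 := pd3)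
    rfl k0_pp_023

noncomputable def f_pp_033 : ℕ → ℕ → ℕ → ℕ → Bool := onCell 0 536870912 0 1230186008 587336777 62277027
    (rowB 3 eng mog cd1q0 cd6q3 pd3 0 true true true .pnn 0 3 3 (qsf 0 536870912 0 1230186008 3) ndB1q0 ndB6q3 pcB3 Cut.none Ext.none)

def k0_pp_033 : ∃ t, chk3 f_pp_033 t 1 1 1 = true :=
  ⟨(b (l 4) (l 4)), by decide +kernel⟩

theorem c_pp_033 : CertB 0 536870912 0 1230186008 587336777 62277027 3 eng mog cd1q0 cd6q3 pd3 true true true .pnn 0 3 3
    ndB1q0 ndB6q3 pcB3 Cut.none Ext.none :=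
  certB0 (fam := true) (s1 := true) (s2 := true) (a := 0) (b := 3) (c := 3) (cn := .pnn) (n1 := ndB1q0) (n2 := ndB6q3) (pc := pcB3) (cut := Cut.none) (xt := Ext.none) (P1 := 0) (W1 := 536870912) (P2 := 0) (W2 := 1230186008) (P3 := 587336777) (W3 := 62277027) (N0 := 3) (En := eng) (mo := mog) (C1 := cd1q0) (C2 := cd6q3) (C3 := pd3)
    rfl k0_pp_033

noncomputable def f_pp_101 : ℕ → ℕ → ℕ → ℕ → Bool := onCell 536870912 536870912 0 536870912 587336777 62277027
    (rowB 3 eng mog cd1q1 cd6q0 pd1 0 true true true .npn 1 0 1 (qsf 536870912 536870912 0 536870912 1) ndB1q1 ndB6q0 pcB1 Cut.none Ext.none)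

def k0_pp_101 : ∃ t, chk3 f_pp_101 t 1 1 1 = true :=
  ⟨(l 4), by decide +kernel⟩

theorem c_pp_101 : CertB 536870912 536870912 0 536870912 587336777 62277027 3 eng mog cd1q1 cd6q0 pd1 true true true .npn 1 0 1
    ndB1q1 ndB6q0 pcB1 Cut.none Ext.none :=
  certB0 (fam := true) (s1 := true) (s2 := true) (a := 1) (b := 0) (c := 1) (cn := .npn) (n1 := ndB1q1) (n2 := ndB6q0) (pc := pcB1) (cut := Cut.none) (xt := Ext.none) (P1 := 536870912) (W1 := 536870912) (P2 := 0) (W2 := 536870912) (P3 := 587336777) (W3 := 62277027) (N0 := 3) (En := eng) (mo := mog) (C1 := cd1q1) (C2 := cd6q0) (C3 := pd1)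
    rfl k0_pp_101

noncomputable def f_pp_102 : ℕ → ℕ → ℕ → ℕ → Bool := onCell 536870912 536870912 0 536870912 587336777 62277027
    (rowB 3 eng mog cd1q1 cd6q0 pd2 0 true true true .npp 1 0 2 (qsf 536870912 536870912 0 536870912 2) ndB1q1 ndB6q0 pcB2 Cut.none Ext.none)

def k0_pp_102 : ∃ t, chk3 f_pp_102 t 1 1 1 = true :=
  ⟨(l 4), by decide +kernel⟩

theorem c_pp_102 : CertB 536870912 536870912 0 536870912 587336777 62277027 3 eng mog cd1q1 cd6q0 pd2 true true true .npp 1 0 2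
    ndB1q1 ndB6q0 pcB2 Cut.none Ext.none :=
  certB0 (fam := true) (s1 := true) (s2 := true) (a := 1) (b := 0) (c := 2) (cn := .npp) (n1 := ndB1q1) (n2 := ndB6q0) (pc := pcB2) (cut := Cut.none) (xt := Ext.none) (P1 := 536870912) (W1 := 536870912) (P2 := 0) (W2 := 536870912) (P3 := 587336777) (W3 := 62277027) (N0 := 3) (En := eng) (mo := mog) (C1 := cd1q1) (C2 := cd6q0) (C3 := pd2)
    rfl k0_pp_102

noncomputable def f_pp_112 : ℕ → ℕ → ℕ → ℕ → Bool := onCell 536870912 536870912 536870912 536870912 587336777 62277027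
    (rowB 3 eng mog cd1q1 cd6q1 pd2 0 true true true .dn 1 1 2 (qsf 536870912 536870912 536870912 536870912 2) ndB1q1 ndB6q1 pcB2 Cut.none Ext.none)

def k0_pp_112 : ∃ t, chk3 f_pp_112 t 1 1 1 = true :=
  ⟨(l 4), by decide +kernel⟩

theorem c_pp_112 : CertB 536870912 536870912 536870912 536870912 587336777 62277027 3 eng mog cd1q1 cd6q1 pd2 true true true .dn 1 1 2
    ndB1q1 ndB6q1 pcB2 Cut.none Ext.none :=
  certB0 (fam := true) (s1 := true) (s2 := true) (a := 1) (b := 1) (c := 2) (cn := .dn) (n1 := ndB1q1) (n2 := ndB6q1) (pc := pcB2) (cut := Cut.none) (xt := Ext.none) (P1 := 536870912) (W1 := 536870912) (P2 := 536870912) (W2 := 536870912) (P3 := 587336777) (W3 := 62277027) (N0 := 3) (En := eng) (mo := mog) (C1 := cd1q1) (C2 := cd6q1) (C3 := pd2)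
    rfl k0_pp_112

noncomputable def f_pp_113 : ℕ → ℕ → ℕ → ℕ → Bool := onCell 536870912 536870912 536870912 536870912 587336777 62277027
    (rowB 3 eng mog cd1q1 cd6q1 pd3 0 true true true .nn 1 1 3 (qsf 536870912 536870912 536870912 536870912 3) ndB1q1 ndB6q1 pcB3 Cut.none Ext.none)

def k0_pp_113 : ∃ t, chk3 f_pp_113 t 1 1 1 = true :=
  ⟨(l 4), by decide +kernel⟩

theorem c_pp_113 : CertB 536870912 536870912 536870912 536870912 587336777 62277027 3 eng mog cd1q1 cd6q1 pd3 true true true .nn 1 1 3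
    ndB1q1 ndB6q1 pcB3 Cut.none Ext.none :=
  certB0 (fam := true) (s1 := true) (s2 := true) (a := 1) (b := 1) (c := 3) (cn := .nn) (n1 := ndB1q1) (n2 := ndB6q1) (pc := pcB3) (cut := Cut.none) (xt := Ext.none) (P1 := 536870912) (W1 := 536870912) (P2 := 536870912) (W2 := 536870912) (P3 := 587336777) (W3 := 62277027) (N0 := 3) (En := eng) (mo := mog) (C1 := cd1q1) (C2 := cd6q1) (C3 := pd3)
    rfl k0_pp_113

noncomputable def f_pp_123 : ℕ → ℕ → ℕ → ℕ → Bool := onCell 536870912 536870912 1073741824 536870912 587336777 62277027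
    (rowB 3 eng mog cd1q1 cd6q2 pd3 0 true true true .npn 1 2 3 (qsf 536870912 536870912 1073741824 536870912 3) ndB1q1 ndB6q2 pcB3 Cut.none Ext.none)

def k0_pp_123 : ∃ t, chk3 f_pp_123 t 1 1 1 = true :=
  ⟨(l 4), by decide +kernel⟩

theorem c_pp_123 : CertB 536870912 536870912 1073741824 536870912 587336777 62277027 3 eng mog cd1q1 cd6q2 pd3 true true true .npn 1 2 3
    ndB1q1 ndB6q2 pcB3 Cut.none Ext.none :=
  certB0 (fam := true) (s1 := true) (s2 := true) (a := 1) (b := 2) (c := 3) (cn := .npn) (n1 := ndB1q1) (n2 := ndB6q2) (pc := pcB3) (cut := Cut.none) (xt := Ext.none) (P1 := 536870912) (W1 := 536870912) (P2 := 1073741824) (W2 := 536870912) (P3 := 587336777) (W3 := 62277027) (N0 := 3) (En := eng) (mo := mog) (C1 := cd1q1) (C2 := cd6q2) (C3 := pd3)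
    rfl k0_pp_123

noncomputable def f_pp_133 : ℕ → ℕ → ℕ → ℕ → Bool := onCell 536870912 536870912 0 1230186008 587336777 62277027
    (rowB 3 eng mog cd1q1 cd6q3 pd3 0 true true true .dn 1 3 3 (qsf 536870912 536870912 0 1230186008 3) ndB1q1 ndB6q3 pcB3 Cut.none Ext.none)

def k0_pp_133 : ∃ t, chk3 f_pp_133 t 1 1 1 = true :=
  ⟨(l 4), by decide +kernel⟩

theorem c_pp_133 : CertB 536870912 536870912 0 1230186008 587336777 62277027 3 eng mog cd1q1 cd6q3 pd3 true true true .dn 1 3 3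
    ndB1q1 ndB6q3 pcB3 Cut.none Ext.none :=
  certB0 (fam := true) (s1 := true) (s2 := true) (a := 1) (b := 3) (c := 3) (cn := .dn) (n1 := ndB1q1) (n2 := ndB6q3) (pc := pcB3) (cut := Cut.none) (xt := Ext.none) (P1 := 536870912) (W1 := 536870912) (P2 := 0) (W2 := 1230186008) (P3 := 587336777) (W3 := 62277027) (N0 := 3) (En := eng) (mo := mog) (C1 := cd1q1) (C2 := cd6q3) (C3 := pd3)
    rfl k0_pp_133

noncomputable def f_pp_202_a : ℕ → ℕ → ℕ → ℕ → Bool := onCell 0 536870912 0 536870912 587336777 62277027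
    (rowB 3 eng mog cd1q2a cd6q0 pd2 0 true true true .pp 2 0 2 (qsf 0 536870912 0 536870912 2) ndB1q2a ndB6q0 pcB2 Cut.none Ext.none)

def k0_pp_202_a : ∃ t, chk3 f_pp_202_a t 1 1 1 = true :=
  ⟨(l 4), by decide +kernel⟩

theorem c_pp_202_a : CertB 0 536870912 0 536870912 587336777 62277027 3 eng mog cd1q2a cd6q0 pd2 true true true .pp 2 0 2
    ndB1q2a ndB6q0 pcB2 Cut.none Ext.none :=
  certB0 (fam := true) (s1 := true) (s2 := true) (a := 2) (b := 0) (c := 2) (cn := .pp) (n1 := ndB1q2a) (n2 := ndB6q0) (pc := pcB2) (cut := Cut.none) (xt := Ext.none) (P1 := 0) (W1 := 536870912) (P2 := 0) (W2 := 536870912) (P3 := 587336777) (W3 := 62277027) (N0 := 3) (En := eng) (mo := mog) (C1 := cd1q2a) (C2 := cd6q0) (C3 := pd2)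
    rfl k0_pp_202_a

noncomputable def f_pp_202_b : ℕ → ℕ → ℕ → ℕ → Bool := onCell 1239849684 370763052 0 536870912 587336777 62277027
    (rowB 3 eng mog cd1q2b cd6q0 pd2 0 true true true .pp 2 0 2 (qsf 1239849684 370763052 0 536870912 2) ndB1q2b ndB6q0 pcB2 Cut.none Ext.none)

def k0_pp_202_b : ∃ t, chk3 f_pp_202_b t 1 1 1 = true :=
  ⟨(l 4), by decide +kernel⟩

theorem c_pp_202_b : CertB 1239849684 370763052 0 536870912 587336777 62277027 3 eng mog cd1q2b cd6q0 pd2 true true true .pp 2 0 2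
    ndB1q2b ndB6q0 pcB2 Cut.none Ext.none :=
  certB0 (fam := true) (s1 := true) (s2 := true) (a := 2) (b := 0) (c := 2) (cn := .pp) (n1 := ndB1q2b) (n2 := ndB6q0) (pc := pcB2) (cut := Cut.none) (xt := Ext.none) (P1 := 1239849684) (W1 := 370763052) (P2 := 0) (W2 := 536870912) (P3 := 587336777) (W3 := 62277027) (N0 := 3) (En := eng) (mo := mog) (C1 := cd1q2b) (C2 := cd6q0) (C3 := pd2)
    rfl k0_pp_202_b

noncomputable def f_pp_203_a : ℕ → ℕ → ℕ → ℕ → Bool := onCell 0 536870912 0 536870912 587336777 62277027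
    (rowB 3 eng mog cd1q2a cd6q0 pd3 0 true true true .up 2 0 3 (qsf 0 536870912 0 536870912 3) ndB1q2a ndB6q0 pcB3 Cut.none Ext.none)

def k0_pp_203_a : ∃ t, chk3 f_pp_203_a t 1 1 1 = true :=
  ⟨(l 4), by decide +kernel⟩

theorem c_pp_203_a : CertB 0 536870912 0 536870912 587336777 62277027 3 eng mog cd1q2a cd6q0 pd3 true true true .up 2 0 3
    ndB1q2a ndB6q0 pcB3 Cut.none Ext.none :=
  certB0 (fam := true) (s1 := true) (s2 := true) (a := 2) (b := 0) (c := 3) (cn := .up) (n1 := ndB1q2a) (n2 := ndB6q0) (pc := pcB3) (cut := Cut.none) (xt := Ext.none) (P1 := 0) (W1 := 536870912) (P2 := 0) (W2 := 536870912) (P3 := 587336777) (W3 := 62277027) (N0 := 3) (En := eng) (mo := mog) (C1 := cd1q2a) (C2 := cd6q0) (C3 := pd3)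
    rfl k0_pp_203_a

noncomputable def f_pp_203_b : ℕ → ℕ → ℕ → ℕ → Bool := onCell 1239849684 370763052 0 536870912 587336777 62277027
    (rowB 3 eng mog cd1q2b cd6q0 pd3 0 true true true .up 2 0 3 (qsf 1239849684 370763052 0 536870912 3) ndB1q2b ndB6q0 pcB3 Cut.none Ext.none)

def k0_pp_203_b : ∃ t, chk3 f_pp_203_b t 1 1 1 = true :=
  ⟨(l 4), by decide +kernel⟩

theorem c_pp_203_b : CertB 1239849684 370763052 0 536870912 587336777 62277027 3 eng mog cd1q2b cd6q0 pd3 true true true .up 2 0 3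
    ndB1q2b ndB6q0 pcB3 Cut.none Ext.none :=
  certB0 (fam := true) (s1 := true) (s2 := true) (a := 2) (b := 0) (c := 3) (cn := .up) (n1 := ndB1q2b) (n2 := ndB6q0) (pc := pcB3) (cut := Cut.none) (xt := Ext.none) (P1 := 1239849684) (W1 := 370763052) (P2 := 0) (W2 := 536870912) (P3 := 587336777) (W3 := 62277027) (N0 := 3) (En := eng) (mo := mog) (C1 := cd1q2b) (C2 := cd6q0) (C3 := pd3)
    rfl k0_pp_203_b

noncomputable def f_pp_213_a : ℕ → ℕ → ℕ → ℕ → Bool := onCell 0 536870912 536870912 536870912 587336777 62277027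
    (rowB 3 eng mog cd1q2a cd6q1 pd3 0 true true true .pnn 2 1 3 (qsf 0 536870912 536870912 536870912 3) ndB1q2a ndB6q1 pcB3 Cut.none Ext.none)

def k0_pp_213_a : ∃ t, chk3 f_pp_213_a t 1 1 1 = true :=
  ⟨(l 4), by decide +kernel⟩

theorem c_pp_213_a : CertB 0 536870912 536870912 536870912 587336777 62277027 3 eng mog cd1q2a cd6q1 pd3 true true true .pnn 2 1 3
    ndB1q2a ndB6q1 pcB3 Cut.none Ext.none :=
  certB0 (fam := true) (s1 := true) (s2 := true) (a := 2) (b := 1) (c := 3) (cn := .pnn) (n1 := ndB1q2a) (n2 := ndB6q1) (pc := pcB3) (cut := Cut.none) (xt := Ext.none) (P1 := 0) (W1 := 536870912) (P2 := 536870912) (W2 := 536870912) (P3 := 587336777) (W3 := 62277027) (N0 := 3) (En := eng) (mo := mog) (C1 := cd1q2a) (C2 := cd6q1) (C3 := pd3)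
    rfl k0_pp_213_a

noncomputable def f_pp_213_b : ℕ → ℕ → ℕ → ℕ → Bool := onCell 1239849684 370763052 536870912 536870912 587336777 62277027
    (rowB 3 eng mog cd1q2b cd6q1 pd3 0 true true true .pnn 2 1 3 (qsf 1239849684 370763052 536870912 536870912 3) ndB1q2b ndB6q1 pcB3 Cut.none Ext.none)

def k0_pp_213_b : ∃ t, chk3 f_pp_213_b t 1 1 1 = true :=
  ⟨(l 4), by decide +kernel⟩

theorem c_pp_213_b : CertB 1239849684 370763052 536870912 536870912 587336777 62277027 3 eng mog cd1q2b cd6q1 pd3 true true true .pnn 2 1 3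
    ndB1q2b ndB6q1 pcB3 Cut.none Ext.none :=
  certB0 (fam := true) (s1 := true) (s2 := true) (a := 2) (b := 1) (c := 3) (cn := .pnn) (n1 := ndB1q2b) (n2 := ndB6q1) (pc := pcB3) (cut := Cut.none) (xt := Ext.none) (P1 := 1239849684) (W1 := 370763052) (P2 := 536870912) (W2 := 536870912) (P3 := 587336777) (W3 := 62277027) (N0 := 3) (En := eng) (mo := mog) (C1 := cd1q2b) (C2 := cd6q1) (C3 := pd3)
    rfl k0_pp_213_b

noncomputable def f_pp_303 : ℕ → ℕ → ℕ → ℕ → Bool := onCell 1610612736 536870912 0 536870912 587336777 62277027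
    (rowB 3 eng mog cd1q3 cd6q0 pd3 0 true true true .npn 3 0 3 (qsf 1610612736 536870912 0 536870912 3) ndB1q3 ndB6q0 pcB3 Cut.none Ext.none)

def k0_pp_303 : ∃ t, chk3 f_pp_303 t 1 1 1 = true :=
  ⟨(l 4), by decide +kernel⟩

theorem c_pp_303 : CertB 1610612736 536870912 0 536870912 587336777 62277027 3 eng mog cd1q3 cd6q0 pd3 true true true .npn 3 0 3
    ndB1q3 ndB6q0 pcB3 Cut.none Ext.none :=
  certB0 (fam := true) (s1 := true) (s2 := true) (a := 3) (b := 0) (c := 3) (cn := .npn) (n1 := ndB1q3) (n2 := ndB6q0) (pc := pcB3) (cut := Cut.none) (xt := Ext.none) (P1 := 1610612736) (W1 := 536870912) (P2 := 0) (W2 := 536870912) (P3 := 587336777) (W3 := 62277027) (N0 := 3) (En := eng) (mo := mog) (C1 := cd1q3) (C2 := cd6q0) (C3 := pd3)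
    rfl k0_pp_303

noncomputable def f_pp_313 : ℕ → ℕ → ℕ → ℕ → Bool := onCell 1610612736 536870912 536870912 536870912 587336777 62277027
    (rowB 3 eng mog cd1q3 cd6q1 pd3 0 true true true .dn 3 1 3 (qsf 1610612736 536870912 536870912 536870912 3) ndB1q3 ndB6q1 pcB3 Cut.none Ext.none)

def k0_pp_313 : ∃ t, chk3 f_pp_313 t 1 1 1 = true :=
  ⟨(l 4), by decide +kernel⟩

theorem c_pp_313 : CertB 1610612736 536870912 536870912 536870912 587336777 62277027 3 eng mog cd1q3 cd6q1 pd3 true true true .dn 3 1 3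
    ndB1q3 ndB6q1 pcB3 Cut.none Ext.none :=
  certB0 (fam := true) (s1 := true) (s2 := true) (a := 3) (b := 1) (c := 3) (cn := .dn) (n1 := ndB1q3) (n2 := ndB6q1) (pc := pcB3) (cut := Cut.none) (xt := Ext.none) (P1 := 1610612736) (W1 := 536870912) (P2 := 536870912) (W2 := 536870912) (P3 := 587336777) (W3 := 62277027) (N0 := 3) (En := eng) (mo := mog) (C1 := cd1q3) (C2 := cd6q1) (C3 := pd3)
    rfl k0_pp_313

noncomputable def f_pm_001 : ℕ → ℕ → ℕ → ℕ → Bool := onCell 0 536870912 536870912 536870912 587336777 62277027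
    (rowB 3 eng mog cd1q0 cd6q0 pd1 1 true true false .up 0 0 1 (qsf 0 536870912 0 536870912 1) ndB1q0 ndB6q0 pcB1 Cut.none Ext.none)

def k0_pm_001 : ∃ t, chk3 f_pm_001 t 1 1 1 = true :=
  ⟨(b (l 3) (b (a (l 3) (a (l 3) (b (l 3) (l 3)))) (a (l 2) (b (b (a (l 3) (a (b (l 3) (a (l 322826647575) (l 16478720))) (a (l 16585288) (b (l 16559968) (l 16495768))))) (a (l 2) (a (a (l 57545400135) (l 16459288)) (a (l 16412384) (l 16393848))))) (a (l 2) (a (b (a (l 2) (l 16417944)) (l 2)) (b (a (l 16350456) (l 16283464)) (l 16307616)))))))), by decide +kernel⟩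

theorem c_pm_001 : CertB 0 536870912 0 536870912 587336777 62277027 3 eng mog cd1q0 cd6q0 pd1 true true false .up 0 0 1
    ndB1q0 ndB6q0 pcB1 Cut.none Ext.none :=
  certB1 (fam := true) (s1 := true) (s2 := false) (a := 0) (b := 0) (c := 1) (cn := .up) (n1 := ndB1q0) (n2 := ndB6q0) (pc := pcB1) (cut := Cut.none) (xt := Ext.none) (P1 := 0) (W1 := 536870912) (P2 := 0) (W2 := 536870912) (P3 := 587336777) (W3 := 62277027) (N0 := 3) (En := eng) (mo := mog) (C1 := cd1q0) (C2 := cd6q0) (C3 := pd1)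
    rfl (fun _ => rfl) k0_pm_001

end Pool.Agent.Strip051.G.I5470_6050.Tab.C.BA16

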