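import Pool.Agent.Strip051.G.I5470_6050.Tab

/-! # Certificates B12 (generated) -/

set_option linter.all false
set_option maxRecDepth 100000

namespace Pool.Agent.Strip051.G.I5470_6050.Tab.C.BA16

open Pool.Agent.Strip051.PB Pool.Agent.Strip051.PB.T
open Pool.Agent.Strip051.G.I5470_6050.Tab

noncomputable def cut_pm_011 : Cut := Cut.of [[⟨0, 0, 0, 67108864⟩, ⟨1, 1, 0, 67108864⟩, ⟨2, 1, 0, 67108864⟩]]

noncomputable def f_pm_011 : ℕ → ℕ → ℕ → ℕ → Bool := onCell 0 536870912 536870912 536870912 587336777 62277027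
    (rowB 3 eng mog cd1q0 cd6q1 pd1 1 true true false .pnn 0 1 1 (qsf 0 536870912 536870912 536870912 1) ndB1q0 ndB6q1 pcB1 cut_pm_011 Ext.none)

def k0_pm_011 : ∃ t, chk3 f_pm_011 t 1 1 1 = true :=
  ⟨(b (l 3) (b (a (l 3) (b (l 3) (a (l 3) (l 3)))) (a (b (l 3) (a (b (l 3) (a (b (l 3) (a (l 6) (b (a (b (l 3) (l 6)) (b (l 649244604855) (a (l 16742472) (l 16733880)))) (a (l 6) (a (l 16735336) (l 16721536)))))) (b (a (b (l 3) (a (a (l 3) (l 16758592)) (a (l 16749912) (l 16720264)))) (a (b (l 16726856) (l 16707360)) (l 16717880))) (a (b (a (l 16734336) (l 16728936)) (a (l 16708664) (l 16712440))) (b (l 16692888) (l 16687048)))))) (b (a (b (l 3) (a (a (l 3) (l 16715048)) (l 16707184))) (b (a (a (l 3) (l 16649584)) (l 16637432)) (a (l 16668296) (l 16587496)))) (a (b (a (a (l 16700976) (l 16661776)) (l 16655112)) (a (l 16680792) (l 16624112))) (b (a (l 16596472) (l 16559400)) (l 16607976)))))) (b (a (b (l 3) (a (b (l 3) (a (l 16647832) (l 16582632))) (b (l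 16614008) (l 16557104)))) (b (a (b (l 3) (l 16566248)) (l 1)) (a (b (l 16507984) (l 16450736)) (b (l 1) (l 16355608))))) (a (b (a (b (a (l 16597760) (l 16535704)) (l 16587784)) (b (l 16512416) (l 16469240))) (a (b (l 16535496) (l 16493912)) (b (l 16426592) (l 16398136)))) (b (a (b (l 16397416) (l 16378960)) (l 16384968)) (a (a (l 16351976) (l 16306688)) (l 16249704)))))))), by decide +kernel⟩

theorem c_pm_011 : CertB 0 536870912 536870912 536870912 587336777 62277027 3 eng mog cd1q0 cd6q1 pd1 true true false .pnn 0 1 1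
    ndB1q0 ndB6q1 pcB1 cut_pm_011 Ext.none :=
  certB1 (fam := true) (s1 := true) (s2 := false) (a := 0) (b := 1) (c := 1) (cn := .pnn) (n1 := ndB1q0) (n2 := ndB6q1) (pc := pcB1) (cut := cut_pm_011) (xt := Ext.none) (P1 := 0) (W1 := 536870912) (P2 := 536870912) (W2 := 536870912) (P3 := 587336777) (W3 := 62277027) (N0 := 3) (En := eng) (mo := mog) (C1 := cd1q0) (C2 := cd6q1) (C3 := pd1)
    rfl (fun _ => rfl) k0_pm_011

noncomputable def cut_pm_012 : Cut := Cut.of [[⟨0, 0, 0, 67108864⟩, ⟨1, 1, 0, 67108864⟩, ⟨2, 1, 0, 67108864⟩]]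

noncomputable def f_pm_012 : ℕ → ℕ → ℕ → ℕ → Bool := onCell 1073741824 536870912 536870912 536870912 587336777 62277027
    (rowB 3 eng mog cd1q0 cd6q1 pd2 2 true true false .pnp 0 1 2 (qsf 0 536870912 536870912 536870912 2) ndB1q0 ndB6q1 pcB2 cut_pm_012 Ext.none)

def k0_pm_012 : ∃ t, chk3 f_pm_012 t 8 1 1 = true :=
  ⟨(b (b (b (a (l 16175776) (l 16142448)) (a (l 16275600) (l 16278176))) (b (a (b (l 16339344) (l 16377080)) (l 16416656)) (a (a (l 16506152) (l 16414368)) (l 16456680)))) (b (b (a (b (l 16499744) (l 16553640)) (b (l 16414440) (l 16441080))) (b (a (a (l 16564952) (l 16545632)) (a (l 16485920) (l 16448912))) (a (a (l 16599632) (l 16556352)) (a (l 16514568) (l 16474408))))) (a (b (a (b (a (l 16646400) (l 16623312)) (a (b (l 16671784) (l 16689128)) (l 16678840))) (b (l 16630600) (a (l 16633496) (l 16651288)))) (a (b (a (b (l 16716912) (l 6)) (b (l 16682240) (l 16708456))) (l 6)) (b (b (a (l 16657192) (l 16632448)) (a (l 16693296) (l 16646984)))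 (b (a (l 6) (b (l 16657656) (l 6))) (l 6))))) (b (b (a (l 16543872) (l 16500760)) (a (b (l 16566160) (l 16581160)) (l 16548360))) (b (b (a (l 16616744) (l 16547600)) (a (a (l 16621960) (l 16597240)) (l 16581624))) (b (a (b (l 16640512) (a (l 16638864) (l 16613392))) (b (l 16569872) (l 16575800))) (a (b (a (l 6) (l 16619680)) (l 6)) (b (l 16581632) (a (l 16600120) (l 16574704)))))))))), by decide +kernel⟩

def k1_pm_012 : ∃ t, chk3 f_pm_012 t 9 1 1 = true :=
  ⟨(b (b (b (a (l 16105840) (l 2)) (a (l 16196280) (l 16156432))) (b (a (l 16266752) (l 16223880)) (a (l 16320816) (l 16273320)))) (b (b (a (b (l 16355304) (l 16376504)) (b (l 16302264) (l 16318776))) (a (b (l 16396720) (l 16459544)) (b (l 16333760) (l 16349064)))) (b (a (b (a (l 16459360) (l 16419744)) (a (l 16482944) (l 16440344))) (b (l 16490368) (a (l 16399680) (l 16361224)))) (a (b (a (b (l 16500728) (l 16512640)) (l 16502816)) (b (a (l 16545056) (l 16476272)) (a (b (l 16532080) (l 16537192))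 (b (l 16483752) (l 16488392))))) (b (a (l 16417056) (l 16375384)) (b (a (l 16429920) (l 16385648)) (a (l 16459408) (l 16392352)))))))), by decide +kernel⟩

def k2_pm_012 : ∃ t, chk3 f_pm_012 t 5 1 1 = true :=
  ⟨(b (a (b (a (a (l 16188184) (l 2)) (l 2)) (a (a (b (l 16193816) (l 16241192)) (b (a (l 16179936) (l 16176112)) (a (l 16226688) (l 16222544)))) (b (l 16156040) (l 16200992)))) (b (l 2) (b (l 16157424) (l 16188872)))) (b (a (a (a (b (l 16274056) (l 16339904)) (b (a (l 16257896) (a (l 16250856) (l 16249168))) (a (l 16278608) (a (l 16269984) (b (l 16262672) (l 16270624)))))) (b (l 16228232) (b (l 16238832) (l 16244232)))) (b (l 16202120) (b (l 16201680) (l 16198848)))) (a (a (a (b (b (l 16314704) (l 16325368)) (b (l 16377984) (b (l 16343656) (l 16369440)))) (b (a (b (l 16292288) (l 16300424)) (a (l 16285616) (b (l 16277440) (a (l 16283760) (l 16280968))))) (a (b (l 16308232) (b (l 16313800) (l 16317168))) (b (a (l 16295120) (a (l 16289024) (l 16285416)))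 (a (l 16342808) (a (l 16314776) (b (l 16288448) (l 16331992)))))))) (b (b (l 16248120) (l 16292200)) (b (a (l 16266496) (l 16236040)) (a (b (l 16267936) (l 16268608)) (b (l 16234192) (l 16232784)))))) (b (b (l 16193448) (a (l 16204224) (l 16169360))) (b (a (l 16197088) (l 16155320)) (a (b (l 16190360) (a (l 16200272) (l 16171208))) (b (l 16142920) (l 16133800)))))))), by decide +kernel⟩

def k3_pm_012 : ∃ t, chk3 f_pm_012 t 3 1 1 = true :=
  ⟨(b (a (b (l 2) (a (b (l 2) (l 16191136)) (l 2))) (l 2)) (a (b (a (b (l 16190296) (a (l 16177944) (l 16171976))) (b (l 16209288) (l 16181752))) (a (b (a (l 16153232) (l 16140976)) (b (a (l 16124760) (l 16105888)) (a (b (l 16107520) (l 16094920)) (l 16076872)))) (b (a (l 16137552) (l 16150104)) (a (b (l 16097984) (l 16064416)) (b (l 16105528) (l 16068088)))))) (b (a (b (l 2) (l 16240016)) (l 2)) (a (b (l 16184456) (a (l 16102264) (l 16123768))) (b (l 16268776) (l 16180760)))))), by decide +kernel⟩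

theorem s4_pm_012 : ∃ t, chk3 f_pm_012 t 4 1 1 = true := ex3_a k0_pm_012 k1_pm_012

theorem s5_pm_012 : ∃ t, chk3 f_pm_012 t 2 1 1 = true := ex3_a s4_pm_012 k2_pm_012

theorem s6_pm_012 : ∃ t, chk3 f_pm_012 t 1 1 1 = true := ex3_a s5_pm_012 k3_pm_012

theorem c_pm_012 : CertB 0 536870912 536870912 536870912 587336777 62277027 3 eng mog cd1q0 cd6q1 pd2 true true false .pnp 0 1 2
    ndB1q0 ndB6q1 pcB2 cut_pm_012 Ext.none :=
  certB2 (fam := true) (s1 := true) (s2 := false) (a := 0) (b := 1) (c := 2) (cn := .pnp) (n1 := ndB1q0) (n2 := ndB6q1) (pc := pcB2) (cut := cut_pm_012) (xt := Ext.none) (P1 := 0) (W1 := 536870912) (P2 := 536870912) (W2 := 536870912) (P3 := 587336777) (W3 := 62277027) (N0 := 3) (En := eng) (mo := mog) (C1 := cd1q0) (C2 := cd6q1) (C3 := pd2)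
    rfl (fun _ => rfl) s6_pm_012

noncomputable def f_pm_022 : ℕ → ℕ → ℕ → ℕ → Bool := onCell 1073741824 536870912 1073741824 536870912 587336777 62277027
    (rowB 3 eng mog cd1q0 cd6q2 pd2 2 true true false .pp 0 2 2 (qsf 0 536870912 1073741824 536870912 2) ndB1q0 ndB6q2 pcB2 Cut.none Ext.none)

def k0_pm_022 : ∃ t, chk3 f_pm_022 t 2 1 1 = true :=
  ⟨(b (b (a (l 3) (a (a (a (b (a (l 3) (a (b (a (l 16475648) (l 16471360)) (l 16482656)) (b (a (l 16467128) (l 16462952)) (l 16474184)))) (a (l 3) (a (l 3) (a (l 16485232) (l 16481048))))) (a (b (a (b (a (l 16458848) (l 16454792)) (a (l 16467920) (l 16463832))) (b (l 16448720) (l 16457768))) (a (b (l 16493376) (l 16476504)) (b (l 16464216) (l 16468336)))) (a (b (b (a (l 16442672) (l 16438672)) (l 16449672)) (b (l 16456040) (l 16460224))) (a (b (b (l 16434712) (l 16464608)) (b (l 16449912) (l 16454128))) (a (a (a (b (l 16437568) (l 16450080)) (a (b (l 16437192) (l 16449680)) (b (b (l 16431912) (l 16440720))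 (l 16449400)))) (b (l 16436328) (l 16448768))) (b (l 16434896) (l 16447280))))))) (b (b (l 16399656) (l 16408208)) (b (l 16413456) (l 16417112)))) (b (b (a (l 16348016) (l 16306840)) (l 16374504)) (a (l 16423456) (l 16313912))))) (b (a (a (l 1) (l 3)) (a (a (a (l 3) (a (b (a (l 16478016) (l 16469880)) (l 1)) (b (a (l 16461808) (a (l 16455760) (a (a (a (l 16453496) (l 16452968)) (l 16452208)) (l 16450728)))) (a (l 1) (a (l 1) (a (l 1) (l 16470496))))))) (b (l 16418864) (l 62846939479))) (b (l 16418648) (a (l 16359960) (l 16307048))))) (a (l 1) (a (a (l 1) (l 476237313191)) (b (l 16461592) (l 314102182855)))))) (a (l 1) (b (a (l 1) (b (l 474626463399) (l 1))) (l 1)))), by decide +kernel⟩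

def k1_pm_022 : ∃ t, chk3 f_pm_022 t 3 1 1 = true :=
  ⟨(b (a (b (b (a (a (l 16278216) (l 16257672)) (b (l 16251800) (l 16242432))) (a (a (l 16276512) (l 16248648)) (l 16227064))) (b (a (b (l 16251488) (l 16410904)) (b (l 16205752) (l 16190944))) (a (b (l 16232280) (l 16212992)) (b (l 16174328) (l 16147984))))) (b (a (b (a (l 16260776) (l 16280584)) (l 16230888)) (b (l 16324000) (l 16270024))) (b (a (l 16189952) (l 16214928)) (a (l 16248184) (l 16161304))))) (b (a (b (a (b (l 16398920) (l 356514708295)) (l 16252576)) (a (b (l 364030891223) (l 1)) (b (l 284573988135) (l 310343749431)))) (b (a (l 16057400) (l 16067896)) (b (l 16138032) (a (l 16087096) (l 16019680))))) (a (a (l 1) (b (l 394632455191) (l 1))) (b (a (l 350609047783) (l 16115288)) (a (l 433824088551) (l 16207480)))))), by decide +kernel⟩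

theorem s2_pm_022 : ∃ t, chk3 f_pm_022 t 1 1 1 = true := ex3_a k0_pm_022 k1_pm_022

theorem c_pm_022 : CertB 0 536870912 1073741824 536870912 587336777 62277027 3 eng mog cd1q0 cd6q2 pd2 true true false .pp 0 2 2
    ndB1q0 ndB6q2 pcB2 Cut.none Ext.none :=
  certB2 (fam := true) (s1 := true) (s2 := false) (a := 0) (b := 2) (c := 2) (cn := .pp) (n1 := ndB1q0) (n2 := ndB6q2) (pc := pcB2) (cut := Cut.none) (xt := Ext.none) (P1 := 0) (W1 := 536870912) (P2 := 1073741824) (W2 := 536870912) (P3 := 587336777) (W3 := 62277027) (N0 := 3) (En := eng) (mo := mog) (C1 := cd1q0) (C2 := cd6q2) (C3 := pd2)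
    rfl (fun _ => rfl) s2_pm_022

noncomputable def f_pm_023 : ℕ → ℕ → ℕ → ℕ → Bool := onCell 1610612736 536870912 1073741824 536870912 587336777 62277027
    (rowB 3 eng mog cd1q0 cd6q2 pd3 2 true true false .up 0 2 3 (qsf 0 536870912 1073741824 536870912 3) ndB1q0 ndB6q2 pcB3 Cut.none Ext.none)

def k0_pm_023 : ∃ t, chk3 f_pm_023 t 1 1 1 = true :=
  ⟨(a (a (b (b (a (b (l 16336608) (l 16282200)) (a (l 134317959031) (l 140760316103))) (b (a (l 16229952) (l 16287272)) (l 16205576))) (b (b (l 16125992) (l 15981528)) (b (l 16060864) (l 16195968)))) (b (b (a (a (l 145055139607) (l 2)) (l 2)) (b (a (l 16383312) (l 16468616)) (l 16397816))) (b (b (l 16355200) (l 16319392)) (l 16349104)))) (b (a (a (b (l 2) (l 264241128119)) (l 2)) (l 2)) (b (a (b (l 16543936) (l 16546440)) (a (l 16663144) (l 2))) (a (l 16562952) (a (l 16645040) (a (l 16667128) (a (l 16675160) (a (l 16678680) (l 503149017911))))))))), by decide +kernel⟩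

theorem c_pm_023 : CertB 0 536870912 1073741824 536870912 587336777 62277027 3 eng mog cd1q0 cd6q2 pd3 true true false .up 0 2 3
    ndB1q0 ndB6q2 pcB3 Cut.none Ext.none :=
  certB2 (fam := true) (s1 := true) (s2 := false) (a := 0) (b := 2) (c := 3) (cn := .up) (n1 := ndB1q0) (n2 := ndB6q2) (pc := pcB3) (cut := Cut.none) (xt := Ext.none) (P1 := 0) (W1 := 536870912) (P2 := 1073741824) (W2 := 536870912) (P3 := 587336777) (W3 := 62277027) (N0 := 3) (En := eng) (mo := mog) (C1 := cd1q0) (C2 := cd6q2) (C3 := pd3)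
    rfl (fun _ => rfl) k0_pm_023

noncomputable def f_pm_033 : ℕ → ℕ → ℕ → ℕ → Bool := onCell 1610612736 536870912 0 1230186008 587336777 62277027
    (rowB 3 eng mog cd1q0 cd6q3 pd3 2 true true false .pnn 0 3 3 (qsf 0 536870912 0 1230186008 3) ndB1q0 ndB6q3 pcB3 Cut.none Ext.none)

def k0_pm_033 : ∃ t, chk3 f_pm_033 t 1 1 1 = true :=
  ⟨(b (a (l 1) (a (l 1) (b (l 4) (a (a (l 16549424) (l 4)) (l 4))))) (b (b (a (l 1) (a (a (l 1) (a (l 16550256) (l 16565048))) (a (a (l 16572848) (l 16580832)) (l 4)))) (a (a (l 1) (a (l 1) (l 408592231431))) (a (a (a (l 16565560) (l 16522112)) (b (l 16552472) (l 16552816))) (a (a (l 16585432) (l 16602376)) (a (l 16614688) (l 4)))))) (a (b (a (l 1) (a (b (l 403223371447) (l 380137804663)) (b (l 16462152) (l 16451392)))) (a (b (l 422013076343) (l 383895448775)) (b (a (l 16380400) (l 16449320)) (l 16410328)))) (a (b (a (b (l 16504928) (l 16506160)) (l 16562480)) (b (l 16552600) (l 16568424))) (a (b (l 16615040) (l 16642656))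 (a (b (l 16647224) (l 16673680)) (a (b (l 16661728) (l 16686760)) (a (l 16804952) (b (l 4) (l 16693112)))))))))), by decide +kernel⟩

theorem c_pm_033 : CertB 0 536870912 0 1230186008 587336777 62277027 3 eng mog cd1q0 cd6q3 pd3 true true false .pnn 0 3 3
    ndB1q0 ndB6q3 pcB3 Cut.none Ext.none :=
  certB2 (fam := true) (s1 := true) (s2 := false) (a := 0) (b := 3) (c := 3) (cn := .pnn) (n1 := ndB1q0) (n2 := ndB6q3) (pc := pcB3) (cut := Cut.none) (xt := Ext.none) (P1 := 0) (W1 := 536870912) (P2 := 0) (W2 := 1230186008) (P3 := 587336777) (W3 := 62277027) (N0 := 3) (En := eng) (mo := mog) (C1 := cd1q0) (C2 := cd6q3) (C3 := pd3)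
    rfl (fun _ => rfl) k0_pm_033

noncomputable def f_pm_101 : ℕ → ℕ → ℕ → ℕ → Bool := onCell 536870912 536870912 0 536870912 587336777 62277027
    (rowB 3 eng mog cd1q1 cd6q0 pd1 2 true true false .npn 1 0 1 (qsf 536870912 536870912 0 536870912 1) ndB1q1 ndB6q0 pcB1 Cut.none Ext.none)

def k0_pm_101 : ∃ t, chk3 f_pm_101 t 1 1 1 = true :=
  ⟨(a (l 3) (a (a (b (b (a (l 3) (b (a (b (l 72108814407) (l 3)) (b (c (l 16821192) (l 16844544)) (l 16850120))) (a (l 3) (b (l 16794072) (l 3))))) (l 3)) (l 3)) (b (b (a (a (b (b (l 16784040) (l 16774696)) (b (l 16763104) (l 16750672))) (b (b (l 16749888) (l 16743568)) (l 16728056))) (b (b (l 16703464) (a (l 16714584) (l 16686440))) (a (l 16701160) (l 16675624)))) (a (b (a (b (l 16738976) (l 16729968)) (l 16812816)) (a (l 3) (l 16691384))) (b (a (l 16681664) (l 16656192)) (a (l 16664576) (l 16637824))))) (b (a (l 3) (b (a (l 186998731703) (l 16613704)) (a (l 3) (l 94656679671)))) (b (l 3) (l 1))))) (b (a (b (a (b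 (b (l 16649648) (l 16647024)) (b (l 16642184) (l 16633584))) (b (b (l 16602104) (l 16598856)) (b (l 16592792) (l 16583960)))) (a (b (b (l 16622816) (l 16613744)) (b (l 16603344) (l 16592144))) (b (l 16567088) (l 16541680)))) (b (b (a (b (l 16565360) (l 16552056)) (b (l 16515136) (l 16499128))) (a (b (l 16542584) (l 16530608)) (l 16582968))) (a (b (l 16700360) (l 16480992)) (b (l 16444968) (l 16411360))))) (a (b (a (b (a (l 16583624) (l 16553504)) (a (l 16527208) (l 16513480))) (b (b (l 16518656) (l 16494584)) (a (l 16477840) (l 16440640)))) (b (a (b (a (l 16517816) (l 16480320)) (l 152504394135)) (b (l 16471856) (l 115996987143))) (a (l 1) (b (l 227129175959) (l 1))))) (b (b (a (l 16439640) (l 16364064)) (a (l 16382304) (l 16297688))) (a (b (a (l 16332488) (l 16264008)) (b (l 16296688) (l 237329499543))) (b (l 16251120) (l 113849060471)))))))), by decide +kernel⟩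

theorem c_pm_101 : CertB 536870912 536870912 0 536870912 587336777 62277027 3 eng mog cd1q1 cd6q0 pd1 true true false .npn 1 0 1
    ndB1q1 ndB6q0 pcB1 Cut.none Ext.none :=
  certB2 (fam := true) (s1 := true) (s2 := false) (a := 1) (b := 0) (c := 1) (cn := .npn) (n1 := ndB1q1) (n2 := ndB6q0) (pc := pcB1) (cut := Cut.none) (xt := Ext.none) (P1 := 536870912) (W1 := 536870912) (P2 := 0) (W2 := 536870912) (P3 := 587336777) (W3 := 62277027) (N0 := 3) (En := eng) (mo := mog) (C1 := cd1q1) (C2 := cd6q0) (C3 := pd1)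
    rfl (fun _ => rfl) k0_pm_101

noncomputable def f_pm_102 : ℕ → ℕ → ℕ → ℕ → Bool := onCell 536870912 536870912 1073741824 536870912 587336777 62277027
    (rowB 3 eng mog cd1q1 cd6q0 pd2 1 true true false .npp 1 0 2 (qsf 536870912 536870912 0 536870912 2) ndB1q1 ndB6q0 pcB2 Cut.none Ext.none)

def k0_pm_102 : ∃ t, chk3 f_pm_102 t 1 1 1 = true :=
  ⟨(b (a (b (a (b (a (b (a (l 16151024) (l 16090320)) (l 16208472)) (a (l 16074576) (l 16111952))) (a (b (l 16149408) (l 2)) (b (l 16087848) (l 16099880)))) (b (a (b (l 16225832) (l 16182768)) (l 16280448)) (a (b (l 16136688) (l 16095160)) (b (l 16255792) (l 16239504))))) (a (b (b (b (a (l 2) (l 16101072)) (l 2)) (l 2)) (l 2)) (b (b (b (a (l 16075392) (l 16227760)) (a (l 16076832) (l 16218136))) (a (l 16087952) (l 16209232))) (a (l 16174080) (l 16243832))))) (b (a (b (a (l 16334976) (b (l 16380192) (l 16365320))) (a (l 16314096) (l 16364552))) (b (a (b (a (l 16404840) (l 16424304)) (l 16404160)) (b (a (b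 (l 16449520) (l 16441264)) (b (l 16470432) (l 16465016))) (a (l 16443456) (a (l 16473088) (l 16491288))))) (a (l 16416848) (a (l 16469400) (b (l 16505640) (l 16533824)))))) (a (b (a (b (b (l 16316048) (l 16318752)) (l 16322664)) (l 16386048)) (a (l 16357920) (l 16449752))) (b (a (l 16453968) (b (l 16526616) (l 16552352))) (a (l 16529272) (l 16617056)))))) (a (b (a (l 2) (b (l 192836806215) (l 2))) (l 2)) (b (a (b (l 16471024) (l 16551272)) (b (a (l 16612960) (l 16698144)) (a (l 16683752) (l 16773576)))) (a (b (l 16662280) (l 2)) (b (l 16667704) (l 16851752)))))), by decide +kernel⟩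

theorem c_pm_102 : CertB 536870912 536870912 0 536870912 587336777 62277027 3 eng mog cd1q1 cd6q0 pd2 true true false .npp 1 0 2
    ndB1q1 ndB6q0 pcB2 Cut.none Ext.none :=
  certB1 (fam := true) (s1 := true) (s2 := false) (a := 1) (b := 0) (c := 2) (cn := .npp) (n1 := ndB1q1) (n2 := ndB6q0) (pc := pcB2) (cut := Cut.none) (xt := Ext.none) (P1 := 536870912) (W1 := 536870912) (P2 := 0) (W2 := 536870912) (P3 := 587336777) (W3 := 62277027) (N0 := 3) (En := eng) (mo := mog) (C1 := cd1q1) (C2 := cd6q0) (C3 := pd2)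
    rfl (fun _ => rfl) k0_pm_102

noncomputable def f_pm_112 : ℕ → ℕ → ℕ → ℕ → Bool := onCell 536870912 536870912 1073741824 536870912 587336777 62277027
    (rowB 3 eng mog cd1q1 cd6q1 pd2 1 true true false .dn 1 1 2 (qsf 536870912 536870912 536870912 536870912 2) ndB1q1 ndB6q1 pcB2 Cut.none Ext.none)

def k0_pm_112 : ∃ t, chk3 f_pm_112 t 1 1 1 = true :=
  ⟨(b (b (a (a (b (a (a (l 16169672) (l 16121920)) (l 216927947031)) (a (l 16313976) (l 16144168))) (b (l 1) (a (l 16081984) (l 1)))) (l 1)) (a (b (a (b (b (l 16196568) (a (l 16357808) (l 16116096))) (a (l 16166832) (l 16121496))) (b (a (b (l 16072808) (l 16079520)) (l 1)) (l 16177104))) (a (a (l 16199128) (l 16181232)) (a (l 16173872) (l 16240456)))) (b (l 1) (a (l 16390528) (l 1))))) (a (b (a (b (a (l 16216184) (l 16228424)) (a (l 16223856) (l 16262984))) (b (l 16274584) (l 16351888))) (a (a (b (l 16245272) (l 16268312)) (b (l 16313104) (l 16369960))) (a (l 16441120) (l 16543728)))) (b (a (b (l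 16467904) (l 16546440)) (b (l 1) (l 16703480))) (a (l 16673648) (b (l 16787232) (l 16841704)))))), by decide +kernel⟩

theorem c_pm_112 : CertB 536870912 536870912 536870912 536870912 587336777 62277027 3 eng mog cd1q1 cd6q1 pd2 true true false .dn 1 1 2
    ndB1q1 ndB6q1 pcB2 Cut.none Ext.none :=
  certB1 (fam := true) (s1 := true) (s2 := false) (a := 1) (b := 1) (c := 2) (cn := .dn) (n1 := ndB1q1) (n2 := ndB6q1) (pc := pcB2) (cut := Cut.none) (xt := Ext.none) (P1 := 536870912) (W1 := 536870912) (P2 := 536870912) (W2 := 536870912) (P3 := 587336777) (W3 := 62277027) (N0 := 3) (En := eng) (mo := mog) (C1 := cd1q1) (C2 := cd6q1) (C3 := pd2)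
    rfl (fun _ => rfl) k0_pm_112

noncomputable def f_pm_113 : ℕ → ℕ → ℕ → ℕ → Bool := onCell 1610612736 536870912 536870912 536870912 587336777 62277027
    (rowB 3 eng mog cd1q1 cd6q1 pd3 2 true true false .nn 1 1 3 (qsf 536870912 536870912 536870912 536870912 3) ndB1q1 ndB6q1 pcB3 Cut.none Ext.none)

def k0_pm_113 : ∃ t, chk3 f_pm_113 t 1 1 1 = true :=
  ⟨(a (a (b (a (b (b (l 16879192) (l 16841112)) (a (l 16732296) (l 16742808))) (b (b (l 16847400) (l 16845976)) (b (l 16807904) (l 16743712)))) (a (b (a (l 16577568) (l 16579520)) (a (b (l 16424664) (b (l 16319480) (l 16254080))) (b (l 16418168) (l 16274232)))) (a (b (l 16622784) (l 16406760)) (b (l 16650344) (b (l 16535880) (l 16436488)))))) (b (a (b (b (l 2) (l 16788920)) (l 16777448)) (b (l 2) (l 16724840))) (a (b (a (l 16669896) (l 16692672)) (a (l 16529616) (l 16560784))) (b (l 16708408) (a (l 16594640) (l 16624872)))))) (a (b (l 4) (a (b (l 16688304) (a (l 16645760) (l 16655128))) (b (l 4) (a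 (l 16652760) (l 4))))) (b (l 2) (b (l 4) (l 4))))), by decide +kernel⟩

theorem c_pm_113 : CertB 536870912 536870912 536870912 536870912 587336777 62277027 3 eng mog cd1q1 cd6q1 pd3 true true false .nn 1 1 3
    ndB1q1 ndB6q1 pcB3 Cut.none Ext.none :=
  certB2 (fam := true) (s1 := true) (s2 := false) (a := 1) (b := 1) (c := 3) (cn := .nn) (n1 := ndB1q1) (n2 := ndB6q1) (pc := pcB3) (cut := Cut.none) (xt := Ext.none) (P1 := 536870912) (W1 := 536870912) (P2 := 536870912) (W2 := 536870912) (P3 := 587336777) (W3 := 62277027) (N0 := 3) (En := eng) (mo := mog) (C1 := cd1q1) (C2 := cd6q1) (C3 := pd3)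
    rfl (fun _ => rfl) k0_pm_113

noncomputable def f_pm_123 : ℕ → ℕ → ℕ → ℕ → Bool := onCell 1610612736 536870912 1073741824 536870912 587336777 62277027
    (rowB 3 eng mog cd1q1 cd6q2 pd3 2 true true false .npn 1 2 3 (qsf 536870912 536870912 1073741824 536870912 3) ndB1q1 ndB6q2 pcB3 Cut.none Ext.none)

def k0_pm_123 : ∃ t, chk3 f_pm_123 t 1 1 1 = true :=
  ⟨(a (a (b (b (a (b (l 16385296) (l 16354992)) (a (l 16413176) (b (l 16517952) (l 16422096)))) (b (l 186864301047) (l 1))) (l 1)) (b (a (b (a (a (l 16504432) (l 16527464)) (l 16682432)) (l 16517400)) (b (a (l 16588032) (l 16613240)) (b (l 16508000) (l 16482512)))) (b (b (l 16439040) (l 1)) (l 1)))) (b (b (a (a (b (l 16683440) (l 16613848)) (a (l 16673688) (l 16790288))) (a (a (l 16860336) (l 16853168)) (a (l 16665736) (l 4)))) (a (a (b (l 16565160) (l 16543272)) (b (l 16603184) (l 16586528))) (a (a (l 16615520) (l 16856136)) (a (l 16840936) (a (l 16626544) (l 4)))))) (a (b (b (l 16563728) (l 16570232))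 (l 16615248)) (a (b (l 16724896) (l 16660128)) (a (b (l 16746312) (l 16677384)) (a (b (l 16646536) (l 16685360)) (b (a (l 16648312) (a (l 16646816) (l 16788280))) (a (l 16689352) (a (l 16691248) (l 16692272)))))))))), by decide +kernel⟩

theorem c_pm_123 : CertB 536870912 536870912 1073741824 536870912 587336777 62277027 3 eng mog cd1q1 cd6q2 pd3 true true false .npn 1 2 3
    ndB1q1 ndB6q2 pcB3 Cut.none Ext.none :=
  certB2 (fam := true) (s1 := true) (s2 := false) (a := 1) (b := 2) (c := 3) (cn := .npn) (n1 := ndB1q1) (n2 := ndB6q2) (pc := pcB3) (cut := Cut.none) (xt := Ext.none) (P1 := 536870912) (W1 := 536870912) (P2 := 1073741824) (W2 := 536870912) (P3 := 587336777) (W3 := 62277027) (N0 := 3) (En := eng) (mo := mog) (C1 := cd1q1) (C2 := cd6q2) (C3 := pd3)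
    rfl (fun _ => rfl) k0_pm_123

noncomputable def f_pm_133 : ℕ → ℕ → ℕ → ℕ → Bool := onCell 536870912 536870912 0 1230186008 587336777 62277027
    (rowB 3 eng mog cd1q1 cd6q3 pd3 0 true true false .dn 1 3 3 (qsf 536870912 536870912 0 1230186008 3) ndB1q1 ndB6q3 pcB3 Cut.none Ext.none)

def k0_pm_133 : ∃ t, chk3 f_pm_133 t 1 1 1 = true :=
  ⟨(b (l 2) (b (l 2) (a (b (l 2) (a (b (l 2) (a (l 16729088) (l 2))) (l 2))) (l 2)))), by decide +kernel⟩

theorem c_pm_133 : CertB 536870912 536870912 0 1230186008 587336777 62277027 3 eng mog cd1q1 cd6q3 pd3 true true false .dn 1 3 3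
    ndB1q1 ndB6q3 pcB3 Cut.none Ext.none :=
  certB0 (fam := true) (s1 := true) (s2 := false) (a := 1) (b := 3) (c := 3) (cn := .dn) (n1 := ndB1q1) (n2 := ndB6q3) (pc := pcB3) (cut := Cut.none) (xt := Ext.none) (P1 := 536870912) (W1 := 536870912) (P2 := 0) (W2 := 1230186008) (P3 := 587336777) (W3 := 62277027) (N0 := 3) (En := eng) (mo := mog) (C1 := cd1q1) (C2 := cd6q3) (C3 := pd3)
    rfl k0_pm_133

noncomputable def f_pm_202_a : ℕ → ℕ → ℕ → ℕ → Bool := onCell 0 536870912 0 536870912 587336777 62277027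
    (rowB 3 eng mog cd1q2a cd6q0 pd2 0 true true false .pp 2 0 2 (qsf 0 536870912 0 536870912 2) ndB1q2a ndB6q0 pcB2 Cut.none Ext.none)

def k0_pm_202_a : ∃ t, chk3 f_pm_202_a t 1 2 1 = true :=
  ⟨(a (a (b (b (b (a (l 16484504) (l 16477016)) (l 16510712)) (b (l 4) (l 4))) (l 4)) (a (b (b (b (l 16474608) (l 16497376)) (l 16536120)) (b (l 16590696) (l 4))) (b (b (b (l 16471024) (l 16488584)) (l 16523128)) (b (l 16576312) (l 16678248))))) (b (a (b (a (b (a (l 16467200) (l 16464352)) (a (l 16479240) (l 16472928))) (b (a (b (l 16462672) (l 16463224)) (b (l 16461592) (l 16461088))) (a (l 16467936) (l 16464400)))) (a (b (l 16495208) (l 16520008)) (b (a (l 16481896) (l 16475096)) (l 16502616)))) (a (b (b (b (a (l 16461440) (l 16462552)) (a (l 16460136) (l 16460568))) (a (l 16461760) (l 16462288))) (b (a (l 16471944) (l 16473256)) (a (l 16493232) (l 16493824)))) (b (a (b (b (b (a (l 16465528) (l 16467064)) (l 16464128)) (a (l 16461840) (l 16463520))) (b (l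 16463656) (l 16467832))) (b (a (b (b (b (l 16448688) (l 16468352)) (l 16466912)) (l 16466312)) (b (a (b (b (b (l 16471656) (l 16470904)) (l 16470000)) (l 16469160)) (a (b (b (b (l 16472400) (l 16471784)) (l 16471224)) (l 16471184)) (b (b (c (l 16525872) (a (l 16422400) (l 16423288))) (l 16472912)) (l 16473832)))) (a (l 16470088) (b (l 16474024) (l 16476608))))) (a (b (l 16469192) (l 16475520)) (b (l 16478120) (l 16486912))))) (a (b (l 16479432) (l 16504096)) (b (a (l 16490616) (l 16505400)) (l 16528824)))))) (a (b (a (l 16562520) (l 16551008)) (a (l 16671096) (l 16627512))) (b (a (b (a (l 16527320) (l 16528840)) (l 16569680)) (b (a (l 16540384) (l 16571016)) (a (l 16588448) (l 16590056)))) (a (l 16639312) (a (l 16668672) (l 16633880))))))), by decide +kernel⟩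

def k1_pm_202_a : ∃ t, chk3 f_pm_202_a t 1 3 1 = true :=
  ⟨(a (l 4) (b (a (b (a (l 16700504) (l 16713632)) (a (l 4) (l 16757832))) (a (b (l 16740320) (l 16777752)) (b (b (l 16692384) (l 16716560)) (l 16767136)))) (a (l 4) (b (a (l 16796888) (l 16815304)) (a (b (l 16772688) (l 2)) (l 16803152)))))), by decide +kernel⟩

theorem s2_pm_202_a : ∃ t, chk3 f_pm_202_a t 1 1 1 = true := ex3_b k0_pm_202_a k1_pm_202_a

theorem c_pm_202_a : CertB 0 536870912 0 536870912 587336777 62277027 3 eng mog cd1q2a cd6q0 pd2 true true false .pp 2 0 2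
    ndB1q2a ndB6q0 pcB2 Cut.none Ext.none :=
  certB0 (fam := true) (s1 := true) (s2 := false) (a := 2) (b := 0) (c := 2) (cn := .pp) (n1 := ndB1q2a) (n2 := ndB6q0) (pc := pcB2) (cut := Cut.none) (xt := Ext.none) (P1 := 0) (W1 := 536870912) (P2 := 0) (W2 := 536870912) (P3 := 587336777) (W3 := 62277027) (N0 := 3) (En := eng) (mo := mog) (C1 := cd1q2a) (C2 := cd6q0) (C3 := pd2)
    rfl s2_pm_202_a

noncomputable def f_pm_202_b : ℕ → ℕ → ℕ → ℕ → Bool := onCell 1239849684 370763052 0 536870912 587336777 62277027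
    (rowB 3 eng mog cd1q2b cd6q0 pd2 0 true true false .pp 2 0 2 (qsf 1239849684 370763052 0 536870912 2) ndB1q2b ndB6q0 pcB2 Cut.none Ext.none)

def k0_pm_202_b : ∃ t, chk3 f_pm_202_b t 1 1 1 = true :=
  ⟨(b (l 4) (l 4)), by decide +kernel⟩

theorem c_pm_202_b : CertB 1239849684 370763052 0 536870912 587336777 62277027 3 eng mog cd1q2b cd6q0 pd2 true true false .pp 2 0 2
    ndB1q2b ndB6q0 pcB2 Cut.none Ext.none :=
  certB0 (fam := true) (s1 := true) (s2 := false) (a := 2) (b := 0) (c := 2) (cn := .pp) (n1 := ndB1q2b) (n2 := ndB6q0) (pc := pcB2) (cut := Cut.none) (xt := Ext.none) (P1 := 1239849684) (W1 := 370763052) (P2 := 0) (W2 := 536870912) (P3 := 587336777) (W3 := 62277027) (N0 := 3) (En := eng) (mo := mog) (C1 := cd1q2b) (C2 := cd6q0) (C3 := pd2)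
    rfl k0_pm_202_b

noncomputable def f_pm_203_a : ℕ → ℕ → ℕ → ℕ → Bool := onCell 0 536870912 1610612736 536870912 587336777 62277027
    (rowB 3 eng mog cd1q2a cd6q0 pd3 1 true true false .up 2 0 3 (qsf 0 536870912 0 536870912 3) ndB1q2a ndB6q0 pcB3 Cut.none Ext.none)

def k0_pm_203_a : ∃ t, chk3 f_pm_203_a t 1 1 1 = true :=
  ⟨(b (a (l 4) (a (l 4) (b (b (l 16777368) (l 4)) (l 2)))) (l 2)), by decide +kernel⟩

theorem c_pm_203_a : CertB 0 536870912 0 536870912 587336777 62277027 3 eng mog cd1q2a cd6q0 pd3 true true false .up 2 0 3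
    ndB1q2a ndB6q0 pcB3 Cut.none Ext.none :=
  certB1 (fam := true) (s1 := true) (s2 := false) (a := 2) (b := 0) (c := 3) (cn := .up) (n1 := ndB1q2a) (n2 := ndB6q0) (pc := pcB3) (cut := Cut.none) (xt := Ext.none) (P1 := 0) (W1 := 536870912) (P2 := 0) (W2 := 536870912) (P3 := 587336777) (W3 := 62277027) (N0 := 3) (En := eng) (mo := mog) (C1 := cd1q2a) (C2 := cd6q0) (C3 := pd3)
    rfl (fun _ => rfl) k0_pm_203_a

noncomputable def f_pm_203_b : ℕ → ℕ → ℕ → ℕ → Bool := onCell 1239849684 370763052 1610612736 536870912 587336777 62277027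
    (rowB 3 eng mog cd1q2b cd6q0 pd3 1 true true false .up 2 0 3 (qsf 1239849684 370763052 0 536870912 3) ndB1q2b ndB6q0 pcB3 Cut.none Ext.none)

def k0_pm_203_b : ∃ t, chk3 f_pm_203_b t 1 1 1 = true :=
  ⟨(l 4), by decide +kernel⟩

theorem c_pm_203_b : CertB 1239849684 370763052 0 536870912 587336777 62277027 3 eng mog cd1q2b cd6q0 pd3 true true false .up 2 0 3
    ndB1q2b ndB6q0 pcB3 Cut.none Ext.none :=
  certB1 (fam := true) (s1 := true) (s2 := false) (a := 2) (b := 0) (c := 3) (cn := .up) (n1 := ndB1q2b) (n2 := ndB6q0) (pc := pcB3) (cut := Cut.none) (xt := Ext.none) (P1 := 1239849684) (W1 := 370763052) (P2 := 0) (W2 := 536870912) (P3 := 587336777) (W3 := 62277027) (N0 := 3) (En := eng) (mo := mog) (C1 := cd1q2b) (C2 := cd6q0) (C3 := pd3)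
    rfl (fun _ => rfl) k0_pm_203_b

noncomputable def f_pm_213_a : ℕ → ℕ → ℕ → ℕ → Bool := onCell 0 536870912 1610612736 536870912 587336777 62277027
    (rowB 3 eng mog cd1q2a cd6q1 pd3 1 true true false .pnn 2 1 3 (qsf 0 536870912 536870912 536870912 3) ndB1q2a ndB6q1 pcB3 Cut.none Ext.none)

def k0_pm_213_a : ∃ t, chk3 f_pm_213_a t 1 1 1 = true :=
  ⟨(b (a (l 4) (a (l 4) (b (b (l 16772632) (l 4)) (l 4)))) (l 4)), by decide +kernel⟩

theorem c_pm_213_a : CertB 0 536870912 536870912 536870912 587336777 62277027 3 eng mog cd1q2a cd6q1 pd3 true true false .pnn 2 1 3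
    ndB1q2a ndB6q1 pcB3 Cut.none Ext.none :=
  certB1 (fam := true) (s1 := true) (s2 := false) (a := 2) (b := 1) (c := 3) (cn := .pnn) (n1 := ndB1q2a) (n2 := ndB6q1) (pc := pcB3) (cut := Cut.none) (xt := Ext.none) (P1 := 0) (W1 := 536870912) (P2 := 536870912) (W2 := 536870912) (P3 := 587336777) (W3 := 62277027) (N0 := 3) (En := eng) (mo := mog) (C1 := cd1q2a) (C2 := cd6q1) (C3 := pd3)
    rfl (fun _ => rfl) k0_pm_213_a

noncomputable def f_pm_213_b : ℕ → ℕ → ℕ → ℕ → Bool := onCell 1239849684 370763052 536870912 536870912 587336777 62277027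
    (rowB 3 eng mog cd1q2b cd6q1 pd3 0 true true false .pnn 2 1 3 (qsf 1239849684 370763052 536870912 536870912 3) ndB1q2b ndB6q1 pcB3 Cut.none Ext.none)

def k0_pm_213_b : ∃ t, chk3 f_pm_213_b t 1 1 1 = true :=
  ⟨(l 4), by decide +kernel⟩

theorem c_pm_213_b : CertB 1239849684 370763052 536870912 536870912 587336777 62277027 3 eng mog cd1q2b cd6q1 pd3 true true false .pnn 2 1 3
    ndB1q2b ndB6q1 pcB3 Cut.none Ext.none :=
  certB0 (fam := true) (s1 := true) (s2 := false) (a := 2) (b := 1) (c := 3) (cn := .pnn) (n1 := ndB1q2b) (n2 := ndB6q1) (pc := pcB3) (cut := Cut.none) (xt := Ext.none) (P1 := 1239849684) (W1 := 370763052) (P2 := 536870912) (W2 := 536870912) (P3 := 587336777) (W3 := 62277027) (N0 := 3) (En := eng) (mo := mog) (C1 := cd1q2b) (C2 := cd6q1) (C3 := pd3)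
    rfl k0_pm_213_b

noncomputable def f_pm_303 : ℕ → ℕ → ℕ → ℕ → Bool := onCell 1610612736 536870912 0 536870912 587336777 62277027
    (rowB 3 eng mog cd1q3 cd6q0 pd3 0 true true false .npn 3 0 3 (qsf 1610612736 536870912 0 536870912 3) ndB1q3 ndB6q0 pcB3 Cut.none Ext.none)

def k0_pm_303 : ∃ t, chk3 f_pm_303 t 1 1 1 = true :=
  ⟨(l 4), by decide +kernel⟩

theorem c_pm_303 : CertB 1610612736 536870912 0 536870912 587336777 62277027 3 eng mog cd1q3 cd6q0 pd3 true true false .npn 3 0 3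
    ndB1q3 ndB6q0 pcB3 Cut.none Ext.none :=
  certB0 (fam := true) (s1 := true) (s2 := false) (a := 3) (b := 0) (c := 3) (cn := .npn) (n1 := ndB1q3) (n2 := ndB6q0) (pc := pcB3) (cut := Cut.none) (xt := Ext.none) (P1 := 1610612736) (W1 := 536870912) (P2 := 0) (W2 := 536870912) (P3 := 587336777) (W3 := 62277027) (N0 := 3) (En := eng) (mo := mog) (C1 := cd1q3) (C2 := cd6q0) (C3 := pd3)
    rfl k0_pm_303

noncomputable def f_pm_313 : ℕ → ℕ → ℕ → ℕ → Bool := onCell 1610612736 536870912 536870912 536870912 587336777 62277027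
    (rowB 3 eng mog cd1q3 cd6q1 pd3 0 true true false .dn 3 1 3 (qsf 1610612736 536870912 536870912 536870912 3) ndB1q3 ndB6q1 pcB3 Cut.none Ext.none)

def k0_pm_313 : ∃ t, chk3 f_pm_313 t 1 1 1 = true :=
  ⟨(l 4), by decide +kernel⟩

theorem c_pm_313 : CertB 1610612736 536870912 536870912 536870912 587336777 62277027 3 eng mog cd1q3 cd6q1 pd3 true true false .dn 3 1 3
    ndB1q3 ndB6q1 pcB3 Cut.none Ext.none :=
  certB0 (fam := true) (s1 := true) (s2 := false) (a := 3) (b := 1) (c := 3) (cn := .dn) (n1 := ndB1q3) (n2 := ndB6q1) (pc := pcB3) (cut := Cut.none) (xt := Ext.none) (P1 := 1610612736) (W1 := 536870912) (P2 := 536870912) (W2 := 536870912) (P3 := 587336777) (W3 := 62277027) (N0 := 3) (En := eng) (mo := mog) (C1 := cd1q3) (C2 := cd6q1) (C3 := pd3)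
    rfl k0_pm_313

noncomputable def f_mm_001 : ℕ → ℕ → ℕ → ℕ → Bool := onCell 0 536870912 0 536870912 587336777 62277027
    (rowB 3 eng mog cd1q0 cd6q0 pd1 0 true false false .up 0 0 1 (qsf 0 536870912 0 536870912 1) ndB1q0 ndB6q0 pcB1 Cut.none Ext.none)

def k0_mm_001 : ∃ t, chk3 f_mm_001 t 1 1 1 = true :=
  ⟨(l 4), by decide +kernel⟩

theorem c_mm_001 : CertB 0 536870912 0 536870912 587336777 62277027 3 eng mog cd1q0 cd6q0 pd1 true false false .up 0 0 1
    ndB1q0 ndB6q0 pcB1 Cut.none Ext.none :=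
  certB0 (fam := true) (s1 := false) (s2 := false) (a := 0) (b := 0) (c := 1) (cn := .up) (n1 := ndB1q0) (n2 := ndB6q0) (pc := pcB1) (cut := Cut.none) (xt := Ext.none) (P1 := 0) (W1 := 536870912) (P2 := 0) (W2 := 536870912) (P3 := 587336777) (W3 := 62277027) (N0 := 3) (En := eng) (mo := mog) (C1 := cd1q0) (C2 := cd6q0) (C3 := pd1)
    rfl k0_mm_001

noncomputable def f_mm_011 : ℕ → ℕ → ℕ → ℕ → Bool := onCell 0 536870912 536870912 536870912 587336777 62277027
    (rowB 3 eng mog cd1q0 cd6q1 pd1 0 true false false .pnn 0 1 1 (qsf 0 536870912 536870912 536870912 1) ndB1q0 ndB6q1 pcB1 Cut.none Ext.none)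

def k0_mm_011 : ∃ t, chk3 f_mm_011 t 1 1 1 = true :=
  ⟨(l 4), by decide +kernel⟩

theorem c_mm_011 : CertB 0 536870912 536870912 536870912 587336777 62277027 3 eng mog cd1q0 cd6q1 pd1 true false false .pnn 0 1 1
    ndB1q0 ndB6q1 pcB1 Cut.none Ext.none :=
  certB0 (fam := true) (s1 := false) (s2 := false) (a := 0) (b := 1) (c := 1) (cn := .pnn) (n1 := ndB1q0) (n2 := ndB6q1) (pc := pcB1) (cut := Cut.none) (xt := Ext.none) (P1 := 0) (W1 := 536870912) (P2 := 536870912) (W2 := 536870912) (P3 := 587336777) (W3 := 62277027) (N0 := 3) (En := eng) (mo := mog) (C1 := cd1q0) (C2 := cd6q1) (C3 := pd1)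
    rfl k0_mm_011

noncomputable def f_mm_012 : ℕ → ℕ → ℕ → ℕ → Bool := onCell 0 536870912 536870912 536870912 587336777 62277027
    (rowB 3 eng mog cd1q0 cd6q1 pd2 0 true false false .pnp 0 1 2 (qsf 0 536870912 536870912 536870912 2) ndB1q0 ndB6q1 pcB2 Cut.none Ext.none)

def k0_mm_012 : ∃ t, chk3 f_mm_012 t 1 1 1 = true :=
  ⟨(l 4), by decide +kernel⟩

theorem c_mm_012 : CertB 0 536870912 536870912 536870912 587336777 62277027 3 eng mog cd1q0 cd6q1 pd2 true false false .pnp 0 1 2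
    ndB1q0 ndB6q1 pcB2 Cut.none Ext.none :=
  certB0 (fam := true) (s1 := false) (s2 := false) (a := 0) (b := 1) (c := 2) (cn := .pnp) (n1 := ndB1q0) (n2 := ndB6q1) (pc := pcB2) (cut := Cut.none) (xt := Ext.none) (P1 := 0) (W1 := 536870912) (P2 := 536870912) (W2 := 536870912) (P3 := 587336777) (W3 := 62277027) (N0 := 3) (En := eng) (mo := mog) (C1 := cd1q0) (C2 := cd6q1) (C3 := pd2)
    rfl k0_mm_012

noncomputable def f_mm_022 : ℕ → ℕ → ℕ → ℕ → Bool := onCell 0 536870912 1073741824 536870912 587336777 62277027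
    (rowB 3 eng mog cd1q0 cd6q2 pd2 0 true false false .pp 0 2 2 (qsf 0 536870912 1073741824 536870912 2) ndB1q0 ndB6q2 pcB2 Cut.none Ext.none)

def k0_mm_022 : ∃ t, chk3 f_mm_022 t 1 1 1 = true :=
  ⟨(l 4), by decide +kernel⟩

theorem c_mm_022 : CertB 0 536870912 1073741824 536870912 587336777 62277027 3 eng mog cd1q0 cd6q2 pd2 true false false .pp 0 2 2
    ndB1q0 ndB6q2 pcB2 Cut.none Ext.none :=
  certB0 (fam := true) (s1 := false) (s2 := false) (a := 0) (b := 2) (c := 2) (cn := .pp) (n1 := ndB1q0) (n2 := ndB6q2) (pc := pcB2) (cut := Cut.none) (xt := Ext.none) (P1 := 0) (W1 := 536870912) (P2 := 1073741824) (W2 := 536870912) (P3 := 587336777) (W3 := 62277027) (N0 := 3) (En := eng) (mo := mog) (C1 := cd1q0) (C2 := cd6q2) (C3 := pd2)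
    rfl k0_mm_022

noncomputable def f_mm_023 : ℕ → ℕ → ℕ → ℕ → Bool := onCell 0 536870912 1073741824 536870912 587336777 62277027
    (rowB 3 eng mog cd1q0 cd6q2 pd3 0 true false false .up 0 2 3 (qsf 0 536870912 1073741824 536870912 3) ndB1q0 ndB6q2 pcB3 Cut.none Ext.none)

def k0_mm_023 : ∃ t, chk3 f_mm_023 t 1 1 1 = true :=
  ⟨(l 4), by decide +kernel⟩

theorem c_mm_023 : CertB 0 536870912 1073741824 536870912 587336777 62277027 3 eng mog cd1q0 cd6q2 pd3 true false false .up 0 2 3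
    ndB1q0 ndB6q2 pcB3 Cut.none Ext.none :=
  certB0 (fam := true) (s1 := false) (s2 := false) (a := 0) (b := 2) (c := 3) (cn := .up) (n1 := ndB1q0) (n2 := ndB6q2) (pc := pcB3) (cut := Cut.none) (xt := Ext.none) (P1 := 0) (W1 := 536870912) (P2 := 1073741824) (W2 := 536870912) (P3 := 587336777) (W3 := 62277027) (N0 := 3) (En := eng) (mo := mog) (C1 := cd1q0) (C2 := cd6q2) (C3 := pd3)
    rfl k0_mm_023

noncomputable def f_mm_033 : ℕ → ℕ → ℕ → ℕ → Bool := onCell 0 536870912 0 1230186008 587336777 62277027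
    (rowB 3 eng mog cd1q0 cd6q3 pd3 0 true false false .pnn 0 3 3 (qsf 0 536870912 0 1230186008 3) ndB1q0 ndB6q3 pcB3 Cut.none Ext.none)

def k0_mm_033 : ∃ t, chk3 f_mm_033 t 1 1 1 = true :=
  ⟨(l 5), by decide +kernel⟩

theorem c_mm_033 : CertB 0 536870912 0 1230186008 587336777 62277027 3 eng mog cd1q0 cd6q3 pd3 true false false .pnn 0 3 3
    ndB1q0 ndB6q3 pcB3 Cut.none Ext.none :=
  certB0 (fam := true) (s1 := false) (s2 := false) (a := 0) (b := 3) (c := 3) (cn := .pnn) (n1 := ndB1q0) (n2 := ndB6q3) (pc := pcB3) (cut := Cut.none) (xt := Ext.none) (P1 := 0) (W1 := 536870912) (P2 := 0) (W2 := 1230186008) (P3 := 587336777) (W3 := 62277027) (N0 := 3) (En := eng) (mo := mog) (C1 := cd1q0) (C2 := cd6q3) (C3 := pd3)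
    rfl k0_mm_033

noncomputable def f_mm_101 : ℕ → ℕ → ℕ → ℕ → Bool := onCell 536870912 536870912 0 536870912 587336777 62277027
    (rowB 3 eng mog cd1q1 cd6q0 pd1 0 true false false .npn 1 0 1 (qsf 536870912 536870912 0 536870912 1) ndB1q1 ndB6q0 pcB1 Cut.none Ext.none)

def k0_mm_101 : ∃ t, chk3 f_mm_101 t 1 1 1 = true :=
  ⟨(l 4), by decide +kernel⟩

theorem c_mm_101 : CertB 536870912 536870912 0 536870912 587336777 62277027 3 eng mog cd1q1 cd6q0 pd1 true false false .npn 1 0 1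
    ndB1q1 ndB6q0 pcB1 Cut.none Ext.none :=
  certB0 (fam := true) (s1 := false) (s2 := false) (a := 1) (b := 0) (c := 1) (cn := .npn) (n1 := ndB1q1) (n2 := ndB6q0) (pc := pcB1) (cut := Cut.none) (xt := Ext.none) (P1 := 536870912) (W1 := 536870912) (P2 := 0) (W2 := 536870912) (P3 := 587336777) (W3 := 62277027) (N0 := 3) (En := eng) (mo := mog) (C1 := cd1q1) (C2 := cd6q0) (C3 := pd1)
    rfl k0_mm_101

noncomputable def f_mm_102 : ℕ → ℕ → ℕ → ℕ → Bool := onCell 536870912 536870912 0 536870912 587336777 62277027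
    (rowB 3 eng mog cd1q1 cd6q0 pd2 0 true false false .npp 1 0 2 (qsf 536870912 536870912 0 536870912 2) ndB1q1 ndB6q0 pcB2 Cut.none Ext.none)

def k0_mm_102 : ∃ t, chk3 f_mm_102 t 1 1 1 = true :=
  ⟨(l 4), by decide +kernel⟩

theorem c_mm_102 : CertB 536870912 536870912 0 536870912 587336777 62277027 3 eng mog cd1q1 cd6q0 pd2 true false false .npp 1 0 2
    ndB1q1 ndB6q0 pcB2 Cut.none Ext.none :=
  certB0 (fam := true) (s1 := false) (s2 := false) (a := 1) (b := 0) (c := 2) (cn := .npp) (n1 := ndB1q1) (n2 := ndB6q0) (pc := pcB2) (cut := Cut.none) (xt := Ext.none) (P1 := 536870912) (W1 := 536870912) (P2 := 0) (W2 := 536870912) (P3 := 587336777) (W3 := 62277027) (N0 := 3) (En := eng) (mo := mog) (C1 := cd1q1) (C2 := cd6q0) (C3 := pd2)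
    rfl k0_mm_102

noncomputable def f_mm_112 : ℕ → ℕ → ℕ → ℕ → Bool := onCell 536870912 536870912 536870912 536870912 587336777 62277027
    (rowB 3 eng mog cd1q1 cd6q1 pd2 0 true false false .dn 1 1 2 (qsf 536870912 536870912 536870912 536870912 2) ndB1q1 ndB6q1 pcB2 Cut.none Ext.none)

def k0_mm_112 : ∃ t, chk3 f_mm_112 t 1 1 1 = true :=
  ⟨(l 4), by decide +kernel⟩

theorem c_mm_112 : CertB 536870912 536870912 536870912 536870912 587336777 62277027 3 eng mog cd1q1 cd6q1 pd2 true false false .dn 1 1 2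
    ndB1q1 ndB6q1 pcB2 Cut.none Ext.none :=
  certB0 (fam := true) (s1 := false) (s2 := false) (a := 1) (b := 1) (c := 2) (cn := .dn) (n1 := ndB1q1) (n2 := ndB6q1) (pc := pcB2) (cut := Cut.none) (xt := Ext.none) (P1 := 536870912) (W1 := 536870912) (P2 := 536870912) (W2 := 536870912) (P3 := 587336777) (W3 := 62277027) (N0 := 3) (En := eng) (mo := mog) (C1 := cd1q1) (C2 := cd6q1) (C3 := pd2)
    rfl k0_mm_112

noncomputable def f_mm_113 : ℕ → ℕ → ℕ → ℕ → Bool := onCell 536870912 536870912 536870912 536870912 587336777 62277027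
    (rowB 3 eng mog cd1q1 cd6q1 pd3 0 true false false .nn 1 1 3 (qsf 536870912 536870912 536870912 536870912 3) ndB1q1 ndB6q1 pcB3 Cut.none Ext.none)

def k0_mm_113 : ∃ t, chk3 f_mm_113 t 1 1 1 = true :=
  ⟨(l 4), by decide +kernel⟩

theorem c_mm_113 : CertB 536870912 536870912 536870912 536870912 587336777 62277027 3 eng mog cd1q1 cd6q1 pd3 true false false .nn 1 1 3
    ndB1q1 ndB6q1 pcB3 Cut.none Ext.none :=
  certB0 (fam := true) (s1 := false) (s2 := false) (a := 1) (b := 1) (c := 3) (cn := .nn) (n1 := ndB1q1) (n2 := ndB6q1) (pc := pcB3) (cut := Cut.none) (xt := Ext.none) (P1 := 536870912) (W1 := 536870912) (P2 := 536870912) (W2 := 536870912) (P3 := 587336777) (W3 := 62277027) (N0 := 3) (En := eng) (mo := mog) (C1 := cd1q1) (C2 := cd6q1) (C3 := pd3)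
    rfl k0_mm_113

noncomputable def f_mm_123 : ℕ → ℕ → ℕ → ℕ → Bool := onCell 536870912 536870912 1073741824 536870912 587336777 62277027
    (rowB 3 eng mog cd1q1 cd6q2 pd3 0 true false false .npn 1 2 3 (qsf 536870912 536870912 1073741824 536870912 3) ndB1q1 ndB6q2 pcB3 Cut.none Ext.none)

def k0_mm_123 : ∃ t, chk3 f_mm_123 t 1 1 1 = true :=
  ⟨(l 4), by decide +kernel⟩

theorem c_mm_123 : CertB 536870912 536870912 1073741824 536870912 587336777 62277027 3 eng mog cd1q1 cd6q2 pd3 true false false .npn 1 2 3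
    ndB1q1 ndB6q2 pcB3 Cut.none Ext.none :=
  certB0 (fam := true) (s1 := false) (s2 := false) (a := 1) (b := 2) (c := 3) (cn := .npn) (n1 := ndB1q1) (n2 := ndB6q2) (pc := pcB3) (cut := Cut.none) (xt := Ext.none) (P1 := 536870912) (W1 := 536870912) (P2 := 1073741824) (W2 := 536870912) (P3 := 587336777) (W3 := 62277027) (N0 := 3) (En := eng) (mo := mog) (C1 := cd1q1) (C2 := cd6q2) (C3 := pd3)
    rfl k0_mm_123

noncomputable def f_mm_133 : ℕ → ℕ → ℕ → ℕ → Bool := onCell 536870912 536870912 0 1230186008 587336777 62277027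
    (rowB 3 eng mog cd1q1 cd6q3 pd3 0 true false false .dn 1 3 3 (qsf 536870912 536870912 0 1230186008 3) ndB1q1 ndB6q3 pcB3 Cut.none Ext.none)

def k0_mm_133 : ∃ t, chk3 f_mm_133 t 1 1 1 = true :=
  ⟨(l 4), by decide +kernel⟩

theorem c_mm_133 : CertB 536870912 536870912 0 1230186008 587336777 62277027 3 eng mog cd1q1 cd6q3 pd3 true false false .dn 1 3 3
    ndB1q1 ndB6q3 pcB3 Cut.none Ext.none :=
  certB0 (fam := true) (s1 := false) (s2 := false) (a := 1) (b := 3) (c := 3) (cn := .dn) (n1 := ndB1q1) (n2 := ndB6q3) (pc := pcB3) (cut := Cut.none) (xt := Ext.none) (P1 := 536870912) (W1 := 536870912) (P2 := 0) (W2 := 1230186008) (P3 := 587336777) (W3 := 62277027) (N0 := 3) (En := eng) (mo := mog) (C1 := cd1q1) (C2 := cd6q3) (C3 := pd3)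
    rfl k0_mm_133

noncomputable def f_mm_202_a : ℕ → ℕ → ℕ → ℕ → Bool := onCell 0 536870912 0 536870912 587336777 62277027
    (rowB 3 eng mog cd1q2a cd6q0 pd2 0 true false false .pp 2 0 2 (qsf 0 536870912 0 536870912 2) ndB1q2a ndB6q0 pcB2 Cut.none Ext.none)

def k0_mm_202_a : ∃ t, chk3 f_mm_202_a t 1 1 1 = true :=
  ⟨(l 4), by decide +kernel⟩

theorem c_mm_202_a : CertB 0 536870912 0 536870912 587336777 62277027 3 eng mog cd1q2a cd6q0 pd2 true false false .pp 2 0 2
    ndB1q2a ndB6q0 pcB2 Cut.none Ext.none :=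
  certB0 (fam := true) (s1 := false) (s2 := false) (a := 2) (b := 0) (c := 2) (cn := .pp) (n1 := ndB1q2a) (n2 := ndB6q0) (pc := pcB2) (cut := Cut.none) (xt := Ext.none) (P1 := 0) (W1 := 536870912) (P2 := 0) (W2 := 536870912) (P3 := 587336777) (W3 := 62277027) (N0 := 3) (En := eng) (mo := mog) (C1 := cd1q2a) (C2 := cd6q0) (C3 := pd2)
    rfl k0_mm_202_a

noncomputable def f_mm_202_b : ℕ → ℕ → ℕ → ℕ → Bool := onCell 1239849684 370763052 0 536870912 587336777 62277027
    (rowB 3 eng mog cd1q2b cd6q0 pd2 0 true false false .pp 2 0 2 (qsf 1239849684 370763052 0 536870912 2) ndB1q2b ndB6q0 pcB2 Cut.none Ext.none)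

def k0_mm_202_b : ∃ t, chk3 f_mm_202_b t 1 1 1 = true :=
  ⟨(l 4), by decide +kernel⟩

theorem c_mm_202_b : CertB 1239849684 370763052 0 536870912 587336777 62277027 3 eng mog cd1q2b cd6q0 pd2 true false false .pp 2 0 2
    ndB1q2b ndB6q0 pcB2 Cut.none Ext.none :=
  certB0 (fam := true) (s1 := false) (s2 := false) (a := 2) (b := 0) (c := 2) (cn := .pp) (n1 := ndB1q2b) (n2 := ndB6q0) (pc := pcB2) (cut := Cut.none) (xt := Ext.none) (P1 := 1239849684) (W1 := 370763052) (P2 := 0) (W2 := 536870912) (P3 := 587336777) (W3 := 62277027) (N0 := 3) (En := eng) (mo := mog) (C1 := cd1q2b) (C2 := cd6q0) (C3 := pd2)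
    rfl k0_mm_202_b

noncomputable def f_mm_203_a : ℕ → ℕ → ℕ → ℕ → Bool := onCell 0 536870912 0 536870912 587336777 62277027
    (rowB 3 eng mog cd1q2a cd6q0 pd3 0 true false false .up 2 0 3 (qsf 0 536870912 0 536870912 3) ndB1q2a ndB6q0 pcB3 Cut.none Ext.none)

def k0_mm_203_a : ∃ t, chk3 f_mm_203_a t 1 1 1 = true :=
  ⟨(l 4), by decide +kernel⟩

theorem c_mm_203_a : CertB 0 536870912 0 536870912 587336777 62277027 3 eng mog cd1q2a cd6q0 pd3 true false false .up 2 0 3
    ndB1q2a ndB6q0 pcB3 Cut.none Ext.none :=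
  certB0 (fam := true) (s1 := false) (s2 := false) (a := 2) (b := 0) (c := 3) (cn := .up) (n1 := ndB1q2a) (n2 := ndB6q0) (pc := pcB3) (cut := Cut.none) (xt := Ext.none) (P1 := 0) (W1 := 536870912) (P2 := 0) (W2 := 536870912) (P3 := 587336777) (W3 := 62277027) (N0 := 3) (En := eng) (mo := mog) (C1 := cd1q2a) (C2 := cd6q0) (C3 := pd3)
    rfl k0_mm_203_a

noncomputable def f_mm_203_b : ℕ → ℕ → ℕ → ℕ → Bool := onCell 1239849684 370763052 0 536870912 587336777 62277027
    (rowB 3 eng mog cd1q2b cd6q0 pd3 0 true false false .up 2 0 3 (qsf 1239849684 370763052 0 536870912 3) ndB1q2b ndB6q0 pcB3 Cut.none Ext.none)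

def k0_mm_203_b : ∃ t, chk3 f_mm_203_b t 1 1 1 = true :=
  ⟨(l 4), by decide +kernel⟩

theorem c_mm_203_b : CertB 1239849684 370763052 0 536870912 587336777 62277027 3 eng mog cd1q2b cd6q0 pd3 true false false .up 2 0 3
    ndB1q2b ndB6q0 pcB3 Cut.none Ext.none :=
  certB0 (fam := true) (s1 := false) (s2 := false) (a := 2) (b := 0) (c := 3) (cn := .up) (n1 := ndB1q2b) (n2 := ndB6q0) (pc := pcB3) (cut := Cut.none) (xt := Ext.none) (P1 := 1239849684) (W1 := 370763052) (P2 := 0) (W2 := 536870912) (P3 := 587336777) (W3 := 62277027) (N0 := 3) (En := eng) (mo := mog) (C1 := cd1q2b) (C2 := cd6q0) (C3 := pd3)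
    rfl k0_mm_203_b

noncomputable def f_mm_213_a : ℕ → ℕ → ℕ → ℕ → Bool := onCell 0 536870912 536870912 536870912 587336777 62277027
    (rowB 3 eng mog cd1q2a cd6q1 pd3 0 true false false .pnn 2 1 3 (qsf 0 536870912 536870912 536870912 3) ndB1q2a ndB6q1 pcB3 Cut.none Ext.none)

def k0_mm_213_a : ∃ t, chk3 f_mm_213_a t 1 1 1 = true :=
  ⟨(l 4), by decide +kernel⟩

theorem c_mm_213_a : CertB 0 536870912 536870912 536870912 587336777 62277027 3 eng mog cd1q2a cd6q1 pd3 true false false .pnn 2 1 3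
    ndB1q2a ndB6q1 pcB3 Cut.none Ext.none :=
  certB0 (fam := true) (s1 := false) (s2 := false) (a := 2) (b := 1) (c := 3) (cn := .pnn) (n1 := ndB1q2a) (n2 := ndB6q1) (pc := pcB3) (cut := Cut.none) (xt := Ext.none) (P1 := 0) (W1 := 536870912) (P2 := 536870912) (W2 := 536870912) (P3 := 587336777) (W3 := 62277027) (N0 := 3) (En := eng) (mo := mog) (C1 := cd1q2a) (C2 := cd6q1) (C3 := pd3)
    rfl k0_mm_213_a

noncomputable def f_mm_213_b : ℕ → ℕ → ℕ → ℕ → Bool := onCell 1239849684 370763052 536870912 536870912 587336777 62277027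
    (rowB 3 eng mog cd1q2b cd6q1 pd3 0 true false false .pnn 2 1 3 (qsf 1239849684 370763052 536870912 536870912 3) ndB1q2b ndB6q1 pcB3 Cut.none Ext.none)

def k0_mm_213_b : ∃ t, chk3 f_mm_213_b t 1 1 1 = true :=
  ⟨(l 4), by decide +kernel⟩

theorem c_mm_213_b : CertB 1239849684 370763052 536870912 536870912 587336777 62277027 3 eng mog cd1q2b cd6q1 pd3 true false false .pnn 2 1 3
    ndB1q2b ndB6q1 pcB3 Cut.none Ext.none :=
  certB0 (fam := true) (s1 := false) (s2 := false) (a := 2) (b := 1) (c := 3) (cn := .pnn) (n1 := ndB1q2b) (n2 := ndB6q1) (pc := pcB3) (cut := Cut.none) (xt := Ext.none) (P1 := 1239849684) (W1 := 370763052) (P2 := 536870912) (W2 := 536870912) (P3 := 587336777) (W3 := 62277027) (N0 := 3) (En := eng) (mo := mog) (C1 := cd1q2b) (C2 := cd6q1) (C3 := pd3)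
    rfl k0_mm_213_b

noncomputable def f_mm_303 : ℕ → ℕ → ℕ → ℕ → Bool := onCell 1610612736 536870912 0 536870912 587336777 62277027
    (rowB 3 eng mog cd1q3 cd6q0 pd3 0 true false false .npn 3 0 3 (qsf 1610612736 536870912 0 536870912 3) ndB1q3 ndB6q0 pcB3 Cut.none Ext.none)

def k0_mm_303 : ∃ t, chk3 f_mm_303 t 1 1 1 = true :=
  ⟨(l 4), by decide +kernel⟩

theorem c_mm_303 : CertB 1610612736 536870912 0 536870912 587336777 62277027 3 eng mog cd1q3 cd6q0 pd3 true false false .npn 3 0 3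
    ndB1q3 ndB6q0 pcB3 Cut.none Ext.none :=
  certB0 (fam := true) (s1 := false) (s2 := false) (a := 3) (b := 0) (c := 3) (cn := .npn) (n1 := ndB1q3) (n2 := ndB6q0) (pc := pcB3) (cut := Cut.none) (xt := Ext.none) (P1 := 1610612736) (W1 := 536870912) (P2 := 0) (W2 := 536870912) (P3 := 587336777) (W3 := 62277027) (N0 := 3) (En := eng) (mo := mog) (C1 := cd1q3) (C2 := cd6q0) (C3 := pd3)
    rfl k0_mm_303

noncomputable def f_mm_313 : ℕ → ℕ → ℕ → ℕ → Bool := onCell 1610612736 536870912 536870912 536870912 587336777 62277027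
    (rowB 3 eng mog cd1q3 cd6q1 pd3 0 true false false .dn 3 1 3 (qsf 1610612736 536870912 536870912 536870912 3) ndB1q3 ndB6q1 pcB3 Cut.none Ext.none)

def k0_mm_313 : ∃ t, chk3 f_mm_313 t 1 1 1 = true :=
  ⟨(l 4), by decide +kernel⟩

theorem c_mm_313 : CertB 1610612736 536870912 536870912 536870912 587336777 62277027 3 eng mog cd1q3 cd6q1 pd3 true false false .dn 3 1 3
    ndB1q3 ndB6q1 pcB3 Cut.none Ext.none :=
  certB0 (fam := true) (s1 := false) (s2 := false) (a := 3) (b := 1) (c := 3) (cn := .dn) (n1 := ndB1q3) (n2 := ndB6q1) (pc := pcB3) (cut := Cut.none) (xt := Ext.none) (P1 := 1610612736) (W1 := 536870912) (P2 := 536870912) (W2 := 536870912) (P3 := 587336777) (W3 := 62277027) (N0 := 3) (En := eng) (mo := mog) (C1 := cd1q3) (C2 := cd6q1) (C3 := pd3)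
    rfl k0_mm_313

end Pool.Agent.Strip051.G.I5470_6050.Tab.C.BA16

namespace Pool.Agent.Strip051.G.I5470_6050.Tab.C.BA17

open Pool.Agent.Strip051.PB Pool.Agent.Strip051.PB.T
open Pool.Agent.Strip051.G.I5470_6050.Tab

noncomputable def f_pp_001 : ℕ → ℕ → ℕ → ℕ → Bool := onCell 0 536870912 0 536870912 587336777 62277027
    (rowB 3 eng mog cd1q0 cd7q0 pd1 0 true true true .up 0 0 1 (qsf 0 536870912 0 536870912 1) ndB1q0 ndB7q0 pcB1 Cut.none Ext.none)

def k0_pp_001 : ∃ t, chk3 f_pp_001 t 1 1 1 = true :=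
  ⟨(l 4), by decide +kernel⟩

theorem c_pp_001 : CertB 0 536870912 0 536870912 587336777 62277027 3 eng mog cd1q0 cd7q0 pd1 true true true .up 0 0 1
    ndB1q0 ndB7q0 pcB1 Cut.none Ext.none :=
  certB0 (fam := true) (s1 := true) (s2 := true) (a := 0) (b := 0) (c := 1) (cn := .up) (n1 := ndB1q0) (n2 := ndB7q0) (pc := pcB1) (cut := Cut.none) (xt := Ext.none) (P1 := 0) (W1 := 536870912) (P2 := 0) (W2 := 536870912) (P3 := 587336777) (W3 := 62277027) (N0 := 3) (En := eng) (mo := mog) (C1 := cd1q0) (C2 := cd7q0) (C3 := pd1)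
    rfl k0_pp_001

noncomputable def f_pp_011 : ℕ → ℕ → ℕ → ℕ → Bool := onCell 0 536870912 536870912 536870912 587336777 62277027
    (rowB 3 eng mog cd1q0 cd7q1 pd1 0 true true true .pnn 0 1 1 (qsf 0 536870912 536870912 536870912 1) ndB1q0 ndB7q1 pcB1 Cut.none Ext.none)

def k0_pp_011 : ∃ t, chk3 f_pp_011 t 1 1 1 = true :=
  ⟨(l 4), by decide +kernel⟩

theorem c_pp_011 : CertB 0 536870912 536870912 536870912 587336777 62277027 3 eng mog cd1q0 cd7q1 pd1 true true true .pnn 0 1 1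
    ndB1q0 ndB7q1 pcB1 Cut.none Ext.none :=
  certB0 (fam := true) (s1 := true) (s2 := true) (a := 0) (b := 1) (c := 1) (cn := .pnn) (n1 := ndB1q0) (n2 := ndB7q1) (pc := pcB1) (cut := Cut.none) (xt := Ext.none) (P1 := 0) (W1 := 536870912) (P2 := 536870912) (W2 := 536870912) (P3 := 587336777) (W3 := 62277027) (N0 := 3) (En := eng) (mo := mog) (C1 := cd1q0) (C2 := cd7q1) (C3 := pd1)
    rfl k0_pp_011

noncomputable def f_pp_012 : ℕ → ℕ → ℕ → ℕ → Bool := onCell 0 536870912 536870912 536870912 587336777 62277027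
    (rowB 3 eng mog cd1q0 cd7q1 pd2 0 true true true .pnp 0 1 2 (qsf 0 536870912 536870912 536870912 2) ndB1q0 ndB7q1 pcB2 Cut.none Ext.none)

def k0_pp_012 : ∃ t, chk3 f_pp_012 t 1 1 1 = true :=
  ⟨(l 4), by decide +kernel⟩

theorem c_pp_012 : CertB 0 536870912 536870912 536870912 587336777 62277027 3 eng mog cd1q0 cd7q1 pd2 true true true .pnp 0 1 2
    ndB1q0 ndB7q1 pcB2 Cut.none Ext.none :=
  certB0 (fam := true) (s1 := true) (s2 := true) (a := 0) (b := 1) (c := 2) (cn := .pnp) (n1 := ndB1q0) (n2 := ndB7q1) (pc := pcB2) (cut := Cut.none) (xt := Ext.none) (P1 := 0) (W1 := 536870912) (P2 := 536870912) (W2 := 536870912) (P3 := 587336777) (W3 := 62277027) (N0 := 3) (En := eng) (mo := mog) (C1 := cd1q0) (C2 := cd7q1) (C3 := pd2)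
    rfl k0_pp_012

noncomputable def f_pp_022 : ℕ → ℕ → ℕ → ℕ → Bool := onCell 0 536870912 1073741824 536870912 587336777 62277027
    (rowB 3 eng mog cd1q0 cd7q2 pd2 0 true true true .pp 0 2 2 (qsf 0 536870912 1073741824 536870912 2) ndB1q0 ndB7q2 pcB2 Cut.none Ext.none)

def k0_pp_022 : ∃ t, chk3 f_pp_022 t 1 1 1 = true :=
  ⟨(l 4), by decide +kernel⟩

theorem c_pp_022 : CertB 0 536870912 1073741824 536870912 587336777 62277027 3 eng mog cd1q0 cd7q2 pd2 true true true .pp 0 2 2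
    ndB1q0 ndB7q2 pcB2 Cut.none Ext.none :=
  certB0 (fam := true) (s1 := true) (s2 := true) (a := 0) (b := 2) (c := 2) (cn := .pp) (n1 := ndB1q0) (n2 := ndB7q2) (pc := pcB2) (cut := Cut.none) (xt := Ext.none) (P1 := 0) (W1 := 536870912) (P2 := 1073741824) (W2 := 536870912) (P3 := 587336777) (W3 := 62277027) (N0 := 3) (En := eng) (mo := mog) (C1 := cd1q0) (C2 := cd7q2) (C3 := pd2)
    rfl k0_pp_022

noncomputable def f_pp_023 : ℕ → ℕ → ℕ → ℕ → Bool := onCell 0 536870912 1073741824 536870912 587336777 62277027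
    (rowB 3 eng mog cd1q0 cd7q2 pd3 0 true true true .up 0 2 3 (qsf 0 536870912 1073741824 536870912 3) ndB1q0 ndB7q2 pcB3 Cut.none Ext.none)

def k0_pp_023 : ∃ t, chk3 f_pp_023 t 1 1 1 = true :=
  ⟨(l 4), by decide +kernel⟩

theorem c_pp_023 : CertB 0 536870912 1073741824 536870912 587336777 62277027 3 eng mog cd1q0 cd7q2 pd3 true true true .up 0 2 3
    ndB1q0 ndB7q2 pcB3 Cut.none Ext.none :=
  certB0 (fam := true) (s1 := true) (s2 := true) (a := 0) (b := 2) (c := 3) (cn := .up) (n1 := ndB1q0) (n2 := ndB7q2) (pc := pcB3) (cut := Cut.none) (xt := Ext.none) (P1 := 0) (W1 := 536870912) (P2 := 1073741824) (W2 := 536870912) (P3 := 587336777) (W3 := 62277027) (N0 := 3) (En := eng) (mo := mog) (C1 := cd1q0) (C2 := cd7q2) (C3 := pd3)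
    rfl k0_pp_023

noncomputable def f_pp_033 : ℕ → ℕ → ℕ → ℕ → Bool := onCell 0 536870912 0 1230186008 587336777 62277027
    (rowB 3 eng mog cd1q0 cd7q3 pd3 0 true true true .pnn 0 3 3 (qsf 0 536870912 0 1230186008 3) ndB1q0 ndB7q3 pcB3 Cut.none Ext.none)

def k0_pp_033 : ∃ t, chk3 f_pp_033 t 1 1 1 = true :=
  ⟨(l 4), by decide +kernel⟩

theorem c_pp_033 : CertB 0 536870912 0 1230186008 587336777 62277027 3 eng mog cd1q0 cd7q3 pd3 true true true .pnn 0 3 3
    ndB1q0 ndB7q3 pcB3 Cut.none Ext.none :=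
  certB0 (fam := true) (s1 := true) (s2 := true) (a := 0) (b := 3) (c := 3) (cn := .pnn) (n1 := ndB1q0) (n2 := ndB7q3) (pc := pcB3) (cut := Cut.none) (xt := Ext.none) (P1 := 0) (W1 := 536870912) (P2 := 0) (W2 := 1230186008) (P3 := 587336777) (W3 := 62277027) (N0 := 3) (En := eng) (mo := mog) (C1 := cd1q0) (C2 := cd7q3) (C3 := pd3)
    rfl k0_pp_033

noncomputable def f_pp_101 : ℕ → ℕ → ℕ → ℕ → Bool := onCell 536870912 536870912 0 536870912 587336777 62277027
    (rowB 3 eng mog cd1q1 cd7q0 pd1 0 true true true .npn 1 0 1 (qsf 536870912 536870912 0 536870912 1) ndB1q1 ndB7q0 pcB1 Cut.none Ext.none)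

def k0_pp_101 : ∃ t, chk3 f_pp_101 t 1 1 1 = true :=
  ⟨(l 4), by decide +kernel⟩

theorem c_pp_101 : CertB 536870912 536870912 0 536870912 587336777 62277027 3 eng mog cd1q1 cd7q0 pd1 true true true .npn 1 0 1
    ndB1q1 ndB7q0 pcB1 Cut.none Ext.none :=
  certB0 (fam := true) (s1 := true) (s2 := true) (a := 1) (b := 0) (c := 1) (cn := .npn) (n1 := ndB1q1) (n2 := ndB7q0) (pc := pcB1) (cut := Cut.none) (xt := Ext.none) (P1 := 536870912) (W1 := 536870912) (P2 := 0) (W2 := 536870912) (P3 := 587336777) (W3 := 62277027) (N0 := 3) (En := eng) (mo := mog) (C1 := cd1q1) (C2 := cd7q0) (C3 := pd1)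
    rfl k0_pp_101

noncomputable def f_pp_102 : ℕ → ℕ → ℕ → ℕ → Bool := onCell 536870912 536870912 0 536870912 587336777 62277027
    (rowB 3 eng mog cd1q1 cd7q0 pd2 0 true true true .npp 1 0 2 (qsf 536870912 536870912 0 536870912 2) ndB1q1 ndB7q0 pcB2 Cut.none Ext.none)

def k0_pp_102 : ∃ t, chk3 f_pp_102 t 1 1 1 = true :=
  ⟨(l 4), by decide +kernel⟩

theorem c_pp_102 : CertB 536870912 536870912 0 536870912 587336777 62277027 3 eng mog cd1q1 cd7q0 pd2 true true true .npp 1 0 2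
    ndB1q1 ndB7q0 pcB2 Cut.none Ext.none :=
  certB0 (fam := true) (s1 := true) (s2 := true) (a := 1) (b := 0) (c := 2) (cn := .npp) (n1 := ndB1q1) (n2 := ndB7q0) (pc := pcB2) (cut := Cut.none) (xt := Ext.none) (P1 := 536870912) (W1 := 536870912) (P2 := 0) (W2 := 536870912) (P3 := 587336777) (W3 := 62277027) (N0 := 3) (En := eng) (mo := mog) (C1 := cd1q1) (C2 := cd7q0) (C3 := pd2)
    rfl k0_pp_102

noncomputable def f_pp_112 : ℕ → ℕ → ℕ → ℕ → Bool := onCell 536870912 536870912 536870912 536870912 587336777 62277027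
    (rowB 3 eng mog cd1q1 cd7q1 pd2 0 true true true .dn 1 1 2 (qsf 536870912 536870912 536870912 536870912 2) ndB1q1 ndB7q1 pcB2 Cut.none Ext.none)

def k0_pp_112 : ∃ t, chk3 f_pp_112 t 1 1 1 = true :=
  ⟨(l 4), by decide +kernel⟩

theorem c_pp_112 : CertB 536870912 536870912 536870912 536870912 587336777 62277027 3 eng mog cd1q1 cd7q1 pd2 true true true .dn 1 1 2
    ndB1q1 ndB7q1 pcB2 Cut.none Ext.none :=
  certB0 (fam := true) (s1 := true) (s2 := true) (a := 1) (b := 1) (c := 2) (cn := .dn) (n1 := ndB1q1) (n2 := ndB7q1) (pc := pcB2) (cut := Cut.none) (xt := Ext.none) (P1 := 536870912) (W1 := 536870912) (P2 := 536870912) (W2 := 536870912) (P3 := 587336777) (W3 := 62277027) (N0 := 3) (En := eng) (mo := mog) (C1 := cd1q1) (C2 := cd7q1) (C3 := pd2)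
    rfl k0_pp_112

noncomputable def f_pp_113 : ℕ → ℕ → ℕ → ℕ → Bool := onCell 536870912 536870912 536870912 536870912 587336777 62277027
    (rowB 3 eng mog cd1q1 cd7q1 pd3 0 true true true .nn 1 1 3 (qsf 536870912 536870912 536870912 536870912 3) ndB1q1 ndB7q1 pcB3 Cut.none Ext.none)

def k0_pp_113 : ∃ t, chk3 f_pp_113 t 1 1 1 = true :=
  ⟨(l 4), by decide +kernel⟩

theorem c_pp_113 : CertB 536870912 536870912 536870912 536870912 587336777 62277027 3 eng mog cd1q1 cd7q1 pd3 true true true .nn 1 1 3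
    ndB1q1 ndB7q1 pcB3 Cut.none Ext.none :=
  certB0 (fam := true) (s1 := true) (s2 := true) (a := 1) (b := 1) (c := 3) (cn := .nn) (n1 := ndB1q1) (n2 := ndB7q1) (pc := pcB3) (cut := Cut.none) (xt := Ext.none) (P1 := 536870912) (W1 := 536870912) (P2 := 536870912) (W2 := 536870912) (P3 := 587336777) (W3 := 62277027) (N0 := 3) (En := eng) (mo := mog) (C1 := cd1q1) (C2 := cd7q1) (C3 := pd3)
    rfl k0_pp_113

noncomputable def f_pp_123 : ℕ → ℕ → ℕ → ℕ → Bool := onCell 536870912 536870912 1073741824 536870912 587336777 62277027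
    (rowB 3 eng mog cd1q1 cd7q2 pd3 0 true true true .npn 1 2 3 (qsf 536870912 536870912 1073741824 536870912 3) ndB1q1 ndB7q2 pcB3 Cut.none Ext.none)

def k0_pp_123 : ∃ t, chk3 f_pp_123 t 1 1 1 = true :=
  ⟨(l 4), by decide +kernel⟩

theorem c_pp_123 : CertB 536870912 536870912 1073741824 536870912 587336777 62277027 3 eng mog cd1q1 cd7q2 pd3 true true true .npn 1 2 3
    ndB1q1 ndB7q2 pcB3 Cut.none Ext.none :=
  certB0 (fam := true) (s1 := true) (s2 := true) (a := 1) (b := 2) (c := 3) (cn := .npn) (n1 := ndB1q1) (n2 := ndB7q2) (pc := pcB3) (cut := Cut.none) (xt := Ext.none) (P1 := 536870912) (W1 := 536870912) (P2 := 1073741824) (W2 := 536870912) (P3 := 587336777) (W3 := 62277027) (N0 := 3) (En := eng) (mo := mog) (C1 := cd1q1) (C2 := cd7q2) (C3 := pd3)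
    rfl k0_pp_123

noncomputable def f_pp_133 : ℕ → ℕ → ℕ → ℕ → Bool := onCell 536870912 536870912 0 1230186008 587336777 62277027
    (rowB 3 eng mog cd1q1 cd7q3 pd3 0 true true true .dn 1 3 3 (qsf 536870912 536870912 0 1230186008 3) ndB1q1 ndB7q3 pcB3 Cut.none Ext.none)

def k0_pp_133 : ∃ t, chk3 f_pp_133 t 1 1 1 = true :=
  ⟨(l 4), by decide +kernel⟩

theorem c_pp_133 : CertB 536870912 536870912 0 1230186008 587336777 62277027 3 eng mog cd1q1 cd7q3 pd3 true true true .dn 1 3 3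
    ndB1q1 ndB7q3 pcB3 Cut.none Ext.none :=
  certB0 (fam := true) (s1 := true) (s2 := true) (a := 1) (b := 3) (c := 3) (cn := .dn) (n1 := ndB1q1) (n2 := ndB7q3) (pc := pcB3) (cut := Cut.none) (xt := Ext.none) (P1 := 536870912) (W1 := 536870912) (P2 := 0) (W2 := 1230186008) (P3 := 587336777) (W3 := 62277027) (N0 := 3) (En := eng) (mo := mog) (C1 := cd1q1) (C2 := cd7q3) (C3 := pd3)
    rfl k0_pp_133

noncomputable def f_pp_202_a : ℕ → ℕ → ℕ → ℕ → Bool := onCell 0 536870912 0 536870912 587336777 62277027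
    (rowB 3 eng mog cd1q2a cd7q0 pd2 0 true true true .pp 2 0 2 (qsf 0 536870912 0 536870912 2) ndB1q2a ndB7q0 pcB2 Cut.none Ext.none)

def k0_pp_202_a : ∃ t, chk3 f_pp_202_a t 1 1 1 = true :=
  ⟨(l 4), by decide +kernel⟩

theorem c_pp_202_a : CertB 0 536870912 0 536870912 587336777 62277027 3 eng mog cd1q2a cd7q0 pd2 true true true .pp 2 0 2
    ndB1q2a ndB7q0 pcB2 Cut.none Ext.none :=
  certB0 (fam := true) (s1 := true) (s2 := true) (a := 2) (b := 0) (c := 2) (cn := .pp) (n1 := ndB1q2a) (n2 := ndB7q0) (pc := pcB2) (cut := Cut.none) (xt := Ext.none) (P1 := 0) (W1 := 536870912) (P2 := 0) (W2 := 536870912) (P3 := 587336777) (W3 := 62277027) (N0 := 3) (En := eng) (mo := mog) (C1 := cd1q2a) (C2 := cd7q0) (C3 := pd2)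
    rfl k0_pp_202_a

noncomputable def f_pp_202_b : ℕ → ℕ → ℕ → ℕ → Bool := onCell 1239849684 370763052 0 536870912 587336777 62277027
    (rowB 3 eng mog cd1q2b cd7q0 pd2 0 true true true .pp 2 0 2 (qsf 1239849684 370763052 0 536870912 2) ndB1q2b ndB7q0 pcB2 Cut.none Ext.none)

def k0_pp_202_b : ∃ t, chk3 f_pp_202_b t 1 1 1 = true :=
  ⟨(l 4), by decide +kernel⟩

theorem c_pp_202_b : CertB 1239849684 370763052 0 536870912 587336777 62277027 3 eng mog cd1q2b cd7q0 pd2 true true true .pp 2 0 2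
    ndB1q2b ndB7q0 pcB2 Cut.none Ext.none :=
  certB0 (fam := true) (s1 := true) (s2 := true) (a := 2) (b := 0) (c := 2) (cn := .pp) (n1 := ndB1q2b) (n2 := ndB7q0) (pc := pcB2) (cut := Cut.none) (xt := Ext.none) (P1 := 1239849684) (W1 := 370763052) (P2 := 0) (W2 := 536870912) (P3 := 587336777) (W3 := 62277027) (N0 := 3) (En := eng) (mo := mog) (C1 := cd1q2b) (C2 := cd7q0) (C3 := pd2)
    rfl k0_pp_202_b

noncomputable def f_pp_203_a : ℕ → ℕ → ℕ → ℕ → Bool := onCell 0 536870912 0 536870912 587336777 62277027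
    (rowB 3 eng mog cd1q2a cd7q0 pd3 0 true true true .up 2 0 3 (qsf 0 536870912 0 536870912 3) ndB1q2a ndB7q0 pcB3 Cut.none Ext.none)

def k0_pp_203_a : ∃ t, chk3 f_pp_203_a t 1 1 1 = true :=
  ⟨(l 4), by decide +kernel⟩

theorem c_pp_203_a : CertB 0 536870912 0 536870912 587336777 62277027 3 eng mog cd1q2a cd7q0 pd3 true true true .up 2 0 3
    ndB1q2a ndB7q0 pcB3 Cut.none Ext.none :=
  certB0 (fam := true) (s1 := true) (s2 := true) (a := 2) (b := 0) (c := 3) (cn := .up) (n1 := ndB1q2a) (n2 := ndB7q0) (pc := pcB3) (cut := Cut.none) (xt := Ext.none) (P1 := 0) (W1 := 536870912) (P2 := 0) (W2 := 536870912) (P3 := 587336777) (W3 := 62277027) (N0 := 3) (En := eng) (mo := mog) (C1 := cd1q2a) (C2 := cd7q0) (C3 := pd3)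
    rfl k0_pp_203_a

noncomputable def f_pp_203_b : ℕ → ℕ → ℕ → ℕ → Bool := onCell 1239849684 370763052 0 536870912 587336777 62277027
    (rowB 3 eng mog cd1q2b cd7q0 pd3 0 true true true .up 2 0 3 (qsf 1239849684 370763052 0 536870912 3) ndB1q2b ndB7q0 pcB3 Cut.none Ext.none)

def k0_pp_203_b : ∃ t, chk3 f_pp_203_b t 1 1 1 = true :=
  ⟨(l 4), by decide +kernel⟩

theorem c_pp_203_b : CertB 1239849684 370763052 0 536870912 587336777 62277027 3 eng mog cd1q2b cd7q0 pd3 true true true .up 2 0 3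
    ndB1q2b ndB7q0 pcB3 Cut.none Ext.none :=
  certB0 (fam := true) (s1 := true) (s2 := true) (a := 2) (b := 0) (c := 3) (cn := .up) (n1 := ndB1q2b) (n2 := ndB7q0) (pc := pcB3) (cut := Cut.none) (xt := Ext.none) (P1 := 1239849684) (W1 := 370763052) (P2 := 0) (W2 := 536870912) (P3 := 587336777) (W3 := 62277027) (N0 := 3) (En := eng) (mo := mog) (C1 := cd1q2b) (C2 := cd7q0) (C3 := pd3)
    rfl k0_pp_203_b

noncomputable def f_pp_213_a : ℕ → ℕ → ℕ → ℕ → Bool := onCell 0 536870912 536870912 536870912 587336777 62277027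
    (rowB 3 eng mog cd1q2a cd7q1 pd3 0 true true true .pnn 2 1 3 (qsf 0 536870912 536870912 536870912 3) ndB1q2a ndB7q1 pcB3 Cut.none Ext.none)

def k0_pp_213_a : ∃ t, chk3 f_pp_213_a t 1 1 1 = true :=
  ⟨(l 4), by decide +kernel⟩

theorem c_pp_213_a : CertB 0 536870912 536870912 536870912 587336777 62277027 3 eng mog cd1q2a cd7q1 pd3 true true true .pnn 2 1 3
    ndB1q2a ndB7q1 pcB3 Cut.none Ext.none :=
  certB0 (fam := true) (s1 := true) (s2 := true) (a := 2) (b := 1) (c := 3) (cn := .pnn) (n1 := ndB1q2a) (n2 := ndB7q1) (pc := pcB3) (cut := Cut.none) (xt := Ext.none) (P1 := 0) (W1 := 536870912) (P2 := 536870912) (W2 := 536870912) (P3 := 587336777) (W3 := 62277027) (N0 := 3) (En := eng) (mo := mog) (C1 := cd1q2a) (C2 := cd7q1) (C3 := pd3)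
    rfl k0_pp_213_a

noncomputable def f_pp_213_b : ℕ → ℕ → ℕ → ℕ → Bool := onCell 1239849684 370763052 536870912 536870912 587336777 62277027
    (rowB 3 eng mog cd1q2b cd7q1 pd3 0 true true true .pnn 2 1 3 (qsf 1239849684 370763052 536870912 536870912 3) ndB1q2b ndB7q1 pcB3 Cut.none Ext.none)

def k0_pp_213_b : ∃ t, chk3 f_pp_213_b t 1 1 1 = true :=
  ⟨(l 4), by decide +kernel⟩

theorem c_pp_213_b : CertB 1239849684 370763052 536870912 536870912 587336777 62277027 3 eng mog cd1q2b cd7q1 pd3 true true true .pnn 2 1 3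
    ndB1q2b ndB7q1 pcB3 Cut.none Ext.none :=
  certB0 (fam := true) (s1 := true) (s2 := true) (a := 2) (b := 1) (c := 3) (cn := .pnn) (n1 := ndB1q2b) (n2 := ndB7q1) (pc := pcB3) (cut := Cut.none) (xt := Ext.none) (P1 := 1239849684) (W1 := 370763052) (P2 := 536870912) (W2 := 536870912) (P3 := 587336777) (W3 := 62277027) (N0 := 3) (En := eng) (mo := mog) (C1 := cd1q2b) (C2 := cd7q1) (C3 := pd3)
    rfl k0_pp_213_b

noncomputable def f_pp_303 : ℕ → ℕ → ℕ → ℕ → Bool := onCell 1610612736 536870912 0 536870912 587336777 62277027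
    (rowB 3 eng mog cd1q3 cd7q0 pd3 0 true true true .npn 3 0 3 (qsf 1610612736 536870912 0 536870912 3) ndB1q3 ndB7q0 pcB3 Cut.none Ext.none)

def k0_pp_303 : ∃ t, chk3 f_pp_303 t 1 1 1 = true :=
  ⟨(l 4), by decide +kernel⟩

theorem c_pp_303 : CertB 1610612736 536870912 0 536870912 587336777 62277027 3 eng mog cd1q3 cd7q0 pd3 true true true .npn 3 0 3
    ndB1q3 ndB7q0 pcB3 Cut.none Ext.none :=
  certB0 (fam := true) (s1 := true) (s2 := true) (a := 3) (b := 0) (c := 3) (cn := .npn) (n1 := ndB1q3) (n2 := ndB7q0) (pc := pcB3) (cut := Cut.none) (xt := Ext.none) (P1 := 1610612736) (W1 := 536870912) (P2 := 0) (W2 := 536870912) (P3 := 587336777) (W3 := 62277027) (N0 := 3) (En := eng) (mo := mog) (C1 := cd1q3) (C2 := cd7q0) (C3 := pd3)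
    rfl k0_pp_303

noncomputable def f_pp_313 : ℕ → ℕ → ℕ → ℕ → Bool := onCell 1610612736 536870912 536870912 536870912 587336777 62277027
    (rowB 3 eng mog cd1q3 cd7q1 pd3 0 true true true .dn 3 1 3 (qsf 1610612736 536870912 536870912 536870912 3) ndB1q3 ndB7q1 pcB3 Cut.none Ext.none)

def k0_pp_313 : ∃ t, chk3 f_pp_313 t 1 1 1 = true :=
  ⟨(l 4), by decide +kernel⟩

theorem c_pp_313 : CertB 1610612736 536870912 536870912 536870912 587336777 62277027 3 eng mog cd1q3 cd7q1 pd3 true true true .dn 3 1 3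
    ndB1q3 ndB7q1 pcB3 Cut.none Ext.none :=
  certB0 (fam := true) (s1 := true) (s2 := true) (a := 3) (b := 1) (c := 3) (cn := .dn) (n1 := ndB1q3) (n2 := ndB7q1) (pc := pcB3) (cut := Cut.none) (xt := Ext.none) (P1 := 1610612736) (W1 := 536870912) (P2 := 536870912) (W2 := 536870912) (P3 := 587336777) (W3 := 62277027) (N0 := 3) (En := eng) (mo := mog) (C1 := cd1q3) (C2 := cd7q1) (C3 := pd3)
    rfl k0_pp_313

noncomputable def f_pm_001 : ℕ → ℕ → ℕ → ℕ → Bool := onCell 0 536870912 536870912 536870912 587336777 62277027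
    (rowB 3 eng mog cd1q0 cd7q0 pd1 1 true true false .up 0 0 1 (qsf 0 536870912 0 536870912 1) ndB1q0 ndB7q0 pcB1 Cut.none Ext.none)

def k0_pm_001 : ∃ t, chk3 f_pm_001 t 1 1 1 = true :=
  ⟨(a (b (l 3) (a (l 2) (b (l 3) (l 2)))) (b (b (l 3) (a (l 3) (b (l 3) (a (l 3) (b (l 3) (a (b (l 3) (l 16755792)) (b (l 16735392) (l 16718480)))))))) (b (a (b (a (l 3) (b (l 3) (a (l 3) (b (l 3) (b (l 3) (l 16757368)))))) (a (b (l 3) (l 2)) (b (a (b (l 3) (c (l 48486147703) (l 40433081239))) (b (l 81235240183) (l 16690872))) (a (b (l 16749536) (l 2)) (b (l 16631488) (l 16596056)))))) (b (b (a (a (l 3) (b (l 3) (l 16750032))) (a (b (l 16734672) (l 16687816)) (b (l 16697504) (l 16673480)))) (a (a (b (l 127406170007) (l 16745120)) (b (l 16675520) (l 16636888))) (a (b (l 16657832) (l 16623536)) (l 16652488)))) (a (b (a (b (l 16651992) (l 16611528)) (l 16628928)) (a (b (l 16552720) (l 16518424)) (l 16558624))) (b (a (l 16561048) (l 16561064)) (a (l 16476720) (l 16469176))))))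 (a (b (a (l 2) (b (a (l 2) (b (l 16543048) (l 2))) (l 2))) (l 2)) (b (a (b (a (b (l 16508784) (l 16459760)) (l 16477760)) (a (l 16463984) (l 16364056))) (b (a (l 16374632) (l 16349736)) (l 16408312))) (a (a (l 2) (b (l 16322248) (l 2))) (a (b (l 16263952) (l 16232224)) (l 16295000)))))))), by decide +kernel⟩

theorem c_pm_001 : CertB 0 536870912 0 536870912 587336777 62277027 3 eng mog cd1q0 cd7q0 pd1 true true false .up 0 0 1
    ndB1q0 ndB7q0 pcB1 Cut.none Ext.none :=
  certB1 (fam := true) (s1 := true) (s2 := false) (a := 0) (b := 0) (c := 1) (cn := .up) (n1 := ndB1q0) (n2 := ndB7q0) (pc := pcB1) (cut := Cut.none) (xt := Ext.none) (P1 := 0) (W1 := 536870912) (P2 := 0) (W2 := 536870912) (P3 := 587336777) (W3 := 62277027) (N0 := 3) (En := eng) (mo := mog) (C1 := cd1q0) (C2 := cd7q0) (C3 := pd1)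
    rfl (fun _ => rfl) k0_pm_001

noncomputable def cut_pm_011 : Cut := Cut.of [[⟨0, 0, 0, 67108864⟩, ⟨1, 1, 0, 67108864⟩, ⟨2, 1, 0, 67108864⟩]]

noncomputable def f_pm_011 : ℕ → ℕ → ℕ → ℕ → Bool := onCell 0 536870912 536870912 536870912 587336777 62277027
    (rowB 3 eng mog cd1q0 cd7q1 pd1 1 true true false .pnn 0 1 1 (qsf 0 536870912 536870912 536870912 1) ndB1q0 ndB7q1 pcB1 cut_pm_011 Ext.none)

def k0_pm_011 : ∃ t, chk3 f_pm_011 t 1 2 1 = true :=
  ⟨(a (l 3) (a (l 3) (l 1))), by decide +kernel⟩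

def k1_pm_011 : ∃ t, chk3 f_pm_011 t 1 6 1 = true :=
  ⟨(a (a (l 3) (l 3)) (a (b (a (l 3) (a (l 3) (l 1))) (a (b (l 3) (a (b (l 3) (a (l 189146269575) (l 16717296))) (b (l 110763107175) (l 16702584)))) (b (a (b (l 3) (l 43654294599)) (b (l 1) (l 16668888))) (a (b (l 16685752) (l 16628392)) (b (l 16609488) (l 16574072)))))) (b (l 1) (a (b (l 1) (a (l 16596800) (l 1))) (l 1))))), by decide +kernel⟩

def k2_pm_011 : ∃ t, chk3 f_pm_011 t 2 7 1 = true :=
  ⟨(a (b (l 3) (a (b (l 3) (a (b (l 3) (l 6)) (b (a (a (l 3) (b (l 3) (b (l 3) (a (l 134385489271) (l 16765312))))) (a (b (l 3) (b (l 113984393015) (l 16758888))) (b (b (l 3) (l 16769080)) (l 16764792)))) (b (a (b (a (l 6) (l 16764632)) (l 6)) (b (l 16756968) (l 16748896))) (a (l 6) (b (l 16730344) (l 16722296))))))) (b (a (b (l 3) (b (l 3) (b (a (l 3) (l 16760416)) (a (a (l 3) (l 16765432)) (l 16752200))))) (b (a (l 3) (b (l 3) (l 16762320))) (a (b (b (l 16779688) (l 16750424)) (l 16759096)) (b (l 16735352)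 (l 16719048))))) (b (a (b (a (b (l 47412399239) (l 16763952)) (l 16750440)) (a (l 16757008) (l 16723688))) (b (l 16741136) (l 16717056))) (a (b (a (l 16735544) (l 16707464)) (b (l 16725120) (l 16717032))) (b (l 16700872) (l 16684696))))))) (b (a (b (l 3) (a (b (l 3) (a (l 3) (b (l 3) (l 16766832)))) (b (a (l 3) (l 103246932375)) (b (l 130090454599) (l 67276523559))))) (b (a (b (l 3) (a (l 3) (l 108615641847))) (b (a (l 3) (l 132774799127)) (a (l 16722280) (l 16694744)))) (a (b (a (l 16732056) (l 16705576)) (b (l 16691976) (l 16676120))) (b (l 16689248) (l 16642584))))) (b (b (a (a (a (a (l 16754384) (l 16741064)) (l 16729176)) (b (l 16742152) (l 16705184))) (a (l 16663128) (l 16633472))) (a (a (a (l 16718560) (l 16730952)) (a (l 16690896) (l 16650728))) (a (l 16663600) (l 16582760)))) (a (b (a (l 16687336) (a (l 16638160) (l 16619312))) (a (a (l 16685592) (l 16625056)) (b (l 16605144) (l 16589472)))) (a (b (l 16611856) (l 16644296)) (b (l 16553256)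 (l 16523632))))))), by decide +kernel⟩

def k3_pm_011 : ∃ t, chk3 f_pm_011 t 3 7 1 = true :=
  ⟨(b (a (a (b (a (b (a (l 16705912) (l 16682240)) (l 16671208)) (b (l 16666688) (l 16613648))) (a (b (l 16629576) (l 16621048)) (b (l 16584088) (l 16556168)))) (b (a (b (l 16594952) (l 16564464)) (b (l 16542072) (l 16513272))) (a (b (l 16536672) (l 16531024)) (l 16494440)))) (a (b (a (b (l 16486728) (l 16458736)) (l 16454640)) (a (l 16420376) (l 16362176))) (a (l 16447672) (l 1)))) (a (a (a (b (b (l 16571472) (l 16543144)) (b (l 16514672) (l 16486944))) (b (b (l 16528912) (l 16501456)) (l 16525072))) (b (a (l 16534320) (l 16445280)) (a (l 16421736) (l 16379264)))) (a (b (l 16388960) (a (l 16334200) (l 16284504))) (b (l 16273328) (l 16202192))))), by decide +kernel⟩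

theorem s4_pm_011 : ∃ t, chk3 f_pm_011 t 1 7 1 = true := ex3_a k2_pm_011 k3_pm_011

theorem s5_pm_011 : ∃ t, chk3 f_pm_011 t 1 3 1 = true := ex3_b k1_pm_011 s4_pm_011

theorem s6_pm_011 : ∃ t, chk3 f_pm_011 t 1 1 1 = true := ex3_b k0_pm_011 s5_pm_011

theorem c_pm_011 : CertB 0 536870912 536870912 536870912 587336777 62277027 3 eng mog cd1q0 cd7q1 pd1 true true false .pnn 0 1 1
    ndB1q0 ndB7q1 pcB1 cut_pm_011 Ext.none :=
  certB1 (fam := true) (s1 := true) (s2 := false) (a := 0) (b := 1) (c := 1) (cn := .pnn) (n1 := ndB1q0) (n2 := ndB7q1) (pc := pcB1) (cut := cut_pm_011) (xt := Ext.none) (P1 := 0) (W1 := 536870912) (P2 := 536870912) (W2 := 536870912) (P3 := 587336777) (W3 := 62277027) (N0 := 3) (En := eng) (mo := mog) (C1 := cd1q0) (C2 := cd7q1) (C3 := pd1)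
    rfl (fun _ => rfl) s6_pm_011

noncomputable def cut_pm_012 : Cut := Cut.of [[⟨0, 0, 0, 67108864⟩, ⟨1, 1, 0, 67108864⟩, ⟨2, 1, 0, 67108864⟩]]

noncomputable def f_pm_012 : ℕ → ℕ → ℕ → ℕ → Bool := onCell 1073741824 536870912 536870912 536870912 587336777 62277027
    (rowB 3 eng mog cd1q0 cd7q1 pd2 2 true true false .pnp 0 1 2 (qsf 0 536870912 536870912 536870912 2) ndB1q0 ndB7q1 pcB2 cut_pm_012 Ext.none)

def k0_pm_012 : ∃ t, chk3 f_pm_012 t 4 2 1 = true :=
  ⟨(b (a (b (b (l 16072592) (l 16113200)) (a (b (l 16215312) (l 16266424)) (l 16231424))) (b (a (l 16025176) (l 2)) (a (l 16136992) (l 16083456)))) (a (b (a (b (l 16312336) (l 16354224)) (l 16361784)) (a (b (l 16393472) (l 16472512)) (b (l 16332800) (l 16365728)))) (b (a (l 16223752) (l 16171000)) (a (l 16311752) (l 16236160))))), by decide +kernel⟩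

def k1_pm_012 : ∃ t, chk3 f_pm_012 t 4 3 1 = true :=
  ⟨(a (b (b (a (b (l 16529136) (a (l 16541736) (l 16482072))) (b (l 16396824) (l 16426848))) (a (b (a (l 16599392) (l 16515856)) (a (l 16594104) (l 16549856))) (b (l 16519392) (a (l 16507104) (l 16465936))))) (a (b (b (a (l 16672856) (l 16646776)) (a (a (l 16711016) (l 16675800)) (b (l 16630600) (a (l 16638808) (l 16614328))))) (a (b (b (a (l 16726616) (l 16701160)) (a (l 6) (b (l 16713520) (l 6)))) (l 6)) (b (b (a (l 16655032) (l 16630176)) (a (b (l 16666968) (l 16674808)) (l 16645496))) (b (a (l 6) (b (l 16656720) (l 6))) (l 6))))) (b (b (a (l 16538384) (l 16494576)) (a (b (l 16561984) (l 16577856)) (l 16565152))) (b (b (a (l 16614304) (l 16544904)) (a (a (l 16620400) (l 16595608)) (l 16579872))) (b (a (b (l 16639512) (a (l 16638232) (l 16612728))) (b (l 16568768) (l 16575088))) (a (b (a (l 6) (l 16619328)) (l 6)) (b (l 16602232) (a (l 16600016) (l 16574600))))))))) (b (b (a (b (l 16332720) (l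 16358448)) (b (l 16274368) (l 16296584))) (a (b (l 16383192) (l 16449488)) (b (l 16317192) (l 16336680)))) (b (a (b (a (l 16452432) (l 16412032)) (a (l 16478304) (l 16435216))) (b (a (l 16373632) (l 16337640)) (a (l 16394024) (l 16354984)))) (a (b (a (b (l 16497760) (l 16510712)) (b (l 16452472) (l 16463888))) (b (a (l 16565032) (l 16475176)) (a (b (l 16531664) (l 16537072)) (b (l 16483288) (l 16488256))))) (b (a (l 16456032) (l 16393088)) (b (a (l 16428712) (l 16384304)) (a (l 16459080) (l 16391984)))))))), by decide +kernel⟩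

def k2_pm_012 : ∃ t, chk3 f_pm_012 t 5 1 1 = true :=
  ⟨(b (b (a (a (a (b (l 2) (l 16042088)) (l 2)) (l 2)) (l 2)) (a (a (b (a (l 16132472) (l 16342360)) (a (l 16198016) (a (l 16180040) (l 16172056)))) (b (l 16077840) (l 16145976))) (b (l 16073960) (l 16129824)))) (b (a (a (a (b (l 16245032) (l 16281208)) (b (a (l 16226600) (a (l 16218256) (l 16215184))) (a (l 16260544) (a (l 16251168) (l 16373104))))) (b (l 16191440) (b (l 16214512) (l 16225920)))) (b (l 16161960) (b (l 16174856) (l 16178272)))) (a (b (a (a (b (l 16304264) (l 16318496)) (a (b (l 16281024) (l 16293016)) (a (b (l 16270352) (l 16281208)) (b (l 16265272) (a (l 16275888) (l 16272960)))))) (b (l 16234816) (l 16346376))) (a (a (b (b (l 16329016) (l 16335808)) (b (l 16342176) (a (l 16358832) (l 16337456)))) (a (b (l 16304368) (b (l 16312200) (l 16316720))) (b (a (l 16291104) (a (l 16284920) (l 16281248))) (a (b (l 16297872) (l 16301632)) (a (b (l 16291016) (l 16294304)) (b (l 16286720) (l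 16352488))))))) (b (a (l 16262104) (l 16231296)) (a (b (l 16266104) (l 16268096)) (b (l 16232192) (l 16232216)))))) (b (b (l 16220128) (a (l 16194456) (l 16158656))) (b (a (l 16191880) (l 16149520)) (a (b (l 16188120) (a (l 16199648) (l 16170536))) (b (l 16140376) (l 16133048)))))))), by decide +kernel⟩

def k3_pm_012 : ∃ t, chk3 f_pm_012 t 3 1 1 = true :=
  ⟨(b (a (b (l 2) (a (b (l 2) (l 16125856)) (l 2))) (l 2)) (a (b (a (b (l 16146224) (l 16147040)) (b (l 16160864) (l 16152656))) (a (b (b (l 16136816) (l 16124200)) (b (a (l 16118376) (l 16098896)) (a (b (l 16104672) (l 16094064)) (l 16074832)))) (b (a (l 16120976) (l 16133128)) (b (a (l 16090400) (l 16097632)) (a (l 16062168) (l 16065712)))))) (b (a (b (l 2) (l 16210936)) (l 2)) (b (a (l 16168152) (l 16254232)) (a (a (l 16097120) (l 16118832)) (c (l 16248640) (l 16103736))))))), by decide +kernel⟩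

theorem s4_pm_012 : ∃ t, chk3 f_pm_012 t 4 1 1 = true := ex3_b k0_pm_012 k1_pm_012

theorem s5_pm_012 : ∃ t, chk3 f_pm_012 t 2 1 1 = true := ex3_a s4_pm_012 k2_pm_012

theorem s6_pm_012 : ∃ t, chk3 f_pm_012 t 1 1 1 = true := ex3_a s5_pm_012 k3_pm_012

theorem c_pm_012 : CertB 0 536870912 536870912 536870912 587336777 62277027 3 eng mog cd1q0 cd7q1 pd2 true true false .pnp 0 1 2
    ndB1q0 ndB7q1 pcB2 cut_pm_012 Ext.none :=
  certB2 (fam := true) (s1 := true) (s2 := false) (a := 0) (b := 1) (c := 2) (cn := .pnp) (n1 := ndB1q0) (n2 := ndB7q1) (pc := pcB2) (cut := cut_pm_012) (xt := Ext.none) (P1 := 0) (W1 := 536870912) (P2 := 536870912) (W2 := 536870912) (P3 := 587336777) (W3 := 62277027) (N0 := 3) (En := eng) (mo := mog) (C1 := cd1q0) (C2 := cd7q1) (C3 := pd2)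
    rfl (fun _ => rfl) s6_pm_012

noncomputable def cut_pm_022 : Cut := Cut.of [[⟨0, 0, 0, 67108864⟩, ⟨1, 1, 0, 67108864⟩, ⟨2, 1, 0, 67108864⟩]]

noncomputable def f_pm_022 : ℕ → ℕ → ℕ → ℕ → Bool := onCell 1073741824 536870912 1073741824 536870912 587336777 62277027
    (rowB 3 eng mog cd1q0 cd7q2 pd2 2 true true false .pp 0 2 2 (qsf 0 536870912 1073741824 536870912 2) ndB1q0 ndB7q2 pcB2 cut_pm_022 Ext.none)

def k0_pm_022 : ∃ t, chk3 f_pm_022 t 4 2 1 = true :=
  ⟨(b (a (b (a (b (l 6) (b (l 6) (l 1))) (b (a (l 6) (a (l 6) (b (l 16610512) (l 16612208)))) (a (b (l 6) (a (l 1) (l 610992480215))) (b (a (l 6) (l 16653896)) (a (b (l 6) (l 508450099415)) (b (l 16647200) (l 397317772151))))))) (a (l 1) (b (a (l 1) (b (l 573411407399) (l 1))) (l 1)))) (a (b (b (a (b (b (l 16545824) (l 16557696)) (l 16595544)) (b (l 16523728) (l 16525624))) (a (b (b (l 16590368) (l 16621280)) (l 16656264)) (b (l 16546576) (b (l 16561088) (l 16591128))))) (b (a (b (a (l 431677489831)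 (l 216392245639)) (l 584148822887)) (b (l 16582920) (a (l 444562321351) (l 16585648)))) (a (l 1) (l 584685591735)))) (b (b (a (b (l 16475960) (l 16478048)) (b (l 16429336) (l 16431824))) (a (b (l 16499136) (l 16518384)) (l 16483952))) (a (b (a (l 16576464) (l 16532328)) (b (l 306049582663) (l 585759304711))) (b (b (l 16490104) (l 16505936)) (b (l 16519896) (l 276521641575))))))) (a (l 1) (b (a (l 1) (b (a (l 1) (l 598644146167)) (l 1))) (l 1)))), by decide +kernel⟩

def k1_pm_022 : ∃ t, chk3 f_pm_022 t 5 2 1 = true :=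
  ⟨(a (b (b (a (a (b (b (l 16384504) (l 16387176)) (b (l 16408552) (l 16428088))) (a (b (b (l 16331456) (l 16355120)) (l 16386440)) (b (a (l 16349024) (a (l 16341416) (b (c (l 16319528) (l 16287304)) (l 16326960)))) (a (l 16370848) (a (l 16363168) (l 16358080)))))) (b (a (b (l 16281432) (l 16305040)) (b (l 16244592) (l 16268168))) (a (l 16336216) (l 16299384)))) (a (a (b (l 16475120) (a (l 16493320) (l 16471952))) (a (b (l 16422184) (l 16451024)) (b (a (l 16406560) (a (l 16398800) (l 16393616))) (a (l 16435600) (a (l 16427936) (l 16422800)))))) (b (a (l 16371432) (l 16334032)) (a (l 16400816) (l 16363208))))) (b (a (a (b (a (l 450467718247) (l 226592630743)) (l 1)) (a (b (b (l 16467504) (l 16496728)) (l 1)) (a (b (l 16456848) (l 1)) (a (b (l 16449368) (l 1)) (b (c (l 16468832) (l 16441328)) (b (l 16454840) (l 1))))))) (b (a (l 16443800) (l 16385928)) (a (l 118144635655) (l 16400392)))) (a (l 1) (b (a (l 1) (l 283500863751)) (l 1))))) (b (b (b (a (b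 (a (l 16210744) (l 16180088)) (l 16218264)) (b (l 16140680) (l 16162536))) (a (l 16249352) (l 16192344))) (b (a (l 16283680) (l 16226240)) (a (l 16311496) (l 16252704)))) (b (b (a (l 16334232) (l 16273192)) (a (l 16350048) (l 16289192))) (a (b (b (l 16355912) (l 16356192)) (l 385506202967)) (b (l 16297600) (l 16294240)))))), by decide +kernel⟩

def k2_pm_022 : ∃ t, chk3 f_pm_022 t 2 3 1 = true :=
  ⟨(a (l 1) (b (a (l 1) (b (a (l 1) (l 481068908247)) (l 1))) (l 1))), by decide +kernel⟩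

def k3_pm_022 : ∃ t, chk3 f_pm_022 t 3 1 1 = true :=
  ⟨(b (b (a (b (a (b (a (b (l 16099448) (l 16120232)) (l 16081264)) (a (l 16147760) (l 16116752))) (a (b (l 16064752) (l 16097696)) (b (l 16063552) (l 16092480)))) (a (b (a (l 16179296) (l 16145208)) (l 16185904)) (a (l 16155968) (l 16125256)))) (a (b (a (l 16085408) (l 16098416)) (a (l 16124136) (l 16128400))) (b (a (l 16122720) (l 16159168)) (l 16153352)))) (a (b (a (a (l 16295168) (l 16193680)) (a (l 16166328) (l 16150312))) (a (b (a (l 16245616) (l 16203056)) (l 16201240)) (b (l 16163816) (l 16178928)))) (b (a (l 16142200) (l 16156216)) (a (b (l 16140208) (l 16132208)) (l 16142496))))) (a (b (b (a (a (l 226592377607) (l 16282104)) (b (l 16142064) (l 16115712))) (a (b (l 540124519991) (l 1)) (a (l 326986850391) (l 16225784)))) (a (l 1) (b (b (l 359198820535) (l 1)) (l 1)))) (b (b (a (b (l 16112360) (l 16079400)) (l 16097904)) (a (b (l 16033384) (l 15971392)) (l 15998872))) (b (a (b (l 263635572375)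 (l 272762391703)) (b (l 15886976) (l 15935232))) (a (a (l 1) (l 375841693895)) (b (l 15971128) (l 16000040))))))), by decide +kernel⟩

theorem s4_pm_022 : ∃ t, chk3 f_pm_022 t 2 2 1 = true := ex3_a k0_pm_022 k1_pm_022

theorem s5_pm_022 : ∃ t, chk3 f_pm_022 t 2 1 1 = true := ex3_b s4_pm_022 k2_pm_022

theorem s6_pm_022 : ∃ t, chk3 f_pm_022 t 1 1 1 = true := ex3_a s5_pm_022 k3_pm_022

theorem c_pm_022 : CertB 0 536870912 1073741824 536870912 587336777 62277027 3 eng mog cd1q0 cd7q2 pd2 true true false .pp 0 2 2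
    ndB1q0 ndB7q2 pcB2 cut_pm_022 Ext.none :=
  certB2 (fam := true) (s1 := true) (s2 := false) (a := 0) (b := 2) (c := 2) (cn := .pp) (n1 := ndB1q0) (n2 := ndB7q2) (pc := pcB2) (cut := cut_pm_022) (xt := Ext.none) (P1 := 0) (W1 := 536870912) (P2 := 1073741824) (W2 := 536870912) (P3 := 587336777) (W3 := 62277027) (N0 := 3) (En := eng) (mo := mog) (C1 := cd1q0) (C2 := cd7q2) (C3 := pd2)
    rfl (fun _ => rfl) s6_pm_022

noncomputable def f_pm_023 : ℕ → ℕ → ℕ → ℕ → Bool := onCell 1610612736 536870912 1073741824 536870912 587336777 62277027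
    (rowB 3 eng mog cd1q0 cd7q2 pd3 2 true true false .up 0 2 3 (qsf 0 536870912 1073741824 536870912 3) ndB1q0 ndB7q2 pcB3 Cut.none Ext.none)

def k0_pm_023 : ∃ t, chk3 f_pm_023 t 1 1 1 = true :=
  ⟨(a (a (b (a (b (a (b (a (l 16197328) (l 16142832)) (l 16188432)) (b (l 16150520) (l 16159552))) (a (b (l 16158632) (l 16135448)) (l 16153992))) (a (b (l 179951392423) (l 16182632)) (b (b (l 2) (l 16248624)) (l 16218600)))) (b (a (b (a (l 16080512) (l 16099840)) (a (l 15969200) (l 15992648))) (a (l 16254648) (l 16123456))) (b (a (l 15879848) (l 15897944)) (a (l 15992352) (l 15968104))))) (b (a (b (a (b (l 2) (l 16315736)) (l 2)) (a (l 16257816) (l 16328744))) (b (l 2) (b (l 16408408) (l 16400600)))) (b (a (b (l 16222496) (l 16174856)) (l 16351816)) (a (b (l 16155040) (l 16176232)) (b (l 16344968) (l 16344096)))))) (a (b (a (b (l 2) (b (l 2) (l 16478488))) (l 2)) (b (a (b (l 16484024) (l 16482568)) (l 16677752)) (b (a (l 16475968) (l 16562336)) (l 16519160))))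 (b (l 2) (b (a (a (l 16584976) (l 2)) (l 2)) (a (b (l 16617504) (l 16620248)) (a (l 16644304) (a (l 16651832) (a (l 16651200) (l 4))))))))), by decide +kernel⟩

theorem c_pm_023 : CertB 0 536870912 1073741824 536870912 587336777 62277027 3 eng mog cd1q0 cd7q2 pd3 true true false .up 0 2 3
    ndB1q0 ndB7q2 pcB3 Cut.none Ext.none :=
  certB2 (fam := true) (s1 := true) (s2 := false) (a := 0) (b := 2) (c := 3) (cn := .up) (n1 := ndB1q0) (n2 := ndB7q2) (pc := pcB3) (cut := Cut.none) (xt := Ext.none) (P1 := 0) (W1 := 536870912) (P2 := 1073741824) (W2 := 536870912) (P3 := 587336777) (W3 := 62277027) (N0 := 3) (En := eng) (mo := mog) (C1 := cd1q0) (C2 := cd7q2) (C3 := pd3)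
    rfl (fun _ => rfl) k0_pm_023

noncomputable def f_pm_033 : ℕ → ℕ → ℕ → ℕ → Bool := onCell 1610612736 536870912 0 1230186008 587336777 62277027
    (rowB 3 eng mog cd1q0 cd7q3 pd3 2 true true false .pnn 0 3 3 (qsf 0 536870912 0 1230186008 3) ndB1q0 ndB7q3 pcB3 Cut.none Ext.none)

def k0_pm_033 : ∃ t, chk3 f_pm_033 t 1 1 1 = true :=
  ⟨(a (b (l 1) (b (b (l 1) (a (l 1) (a (l 1) (l 473553634167)))) (b (a (l 1) (b (l 449394270599) (l 16382088))) (a (b (l 473552792407) (a (l 16169472) (l 16076912))) (b (l 16339528) (l 16488928)))))) (a (b (l 1) (b (b (a (l 1) (b (l 16554952) (l 16548952))) (a (l 438120192231) (b (l 16543240) (l 16535792)))) (b (b (l 16639096) (l 16509312)) (b (l 16512208) (l 16515856))))) (b (b (l 4) (a (b (l 619045784583) (a (l 16570360) (l 16573416))) (a (b (l 4) (l 16568600)) (l 4)))) (a (b (b (a (l 16671640) (l 16578760)) (l 16576568)) (b (l 16588312) (b (l 16606360) (l 16616312)))) (b (a (b (l 16584680) (l 16605176)) (a (b (l 16588376)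 (l 16619064)) (b (l 4) (a (l 16620992) (b (l 4) (l 16626528)))))) (a (b (l 16622240) (l 16708952)) (b (a (l 16638512) (a (l 16646136) (b (l 16727912) (a (l 16655104) (l 16657352))))) (a (l 16806840) (a (l 16666200) (l 16753160)))))))))), by decide +kernel⟩

theorem c_pm_033 : CertB 0 536870912 0 1230186008 587336777 62277027 3 eng mog cd1q0 cd7q3 pd3 true true false .pnn 0 3 3
    ndB1q0 ndB7q3 pcB3 Cut.none Ext.none :=
  certB2 (fam := true) (s1 := true) (s2 := false) (a := 0) (b := 3) (c := 3) (cn := .pnn) (n1 := ndB1q0) (n2 := ndB7q3) (pc := pcB3) (cut := Cut.none) (xt := Ext.none) (P1 := 0) (W1 := 536870912) (P2 := 0) (W2 := 1230186008) (P3 := 587336777) (W3 := 62277027) (N0 := 3) (En := eng) (mo := mog) (C1 := cd1q0) (C2 := cd7q3) (C3 := pd3)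
    rfl (fun _ => rfl) k0_pm_033

noncomputable def f_pm_101 : ℕ → ℕ → ℕ → ℕ → Bool := onCell 536870912 536870912 536870912 536870912 587336777 62277027
    (rowB 3 eng mog cd1q1 cd7q0 pd1 1 true true false .npn 1 0 1 (qsf 536870912 536870912 0 536870912 1) ndB1q1 ndB7q0 pcB1 Cut.none Ext.none)

def k0_pm_101 : ∃ t, chk3 f_pm_101 t 1 2 1 = true :=
  ⟨(a (b (a (b (l 3) (a (l 3) (b (l 3) (a (l 3) (l 192904432631))))) (b (l 1) (a (b (l 1) (a (l 161094841511) (l 1))) (l 1)))) (a (b (a (b (l 3) (a (l 3) (l 184851405063))) (b (a (l 186998858007) (l 145659803879)) (a (l 111300091111) (l 16716768)))) (b (a (a (b (l 199346877639) (l 16724240)) (l 119353141895)) (a (l 16708016) (l 16696336))) (a (a (b (l 16709352) (l 16691016)) (l 16690128)) (a (l 16679952) (l 16671000))))) (b (b (a (a (l 16721512) (l 16714464)) (l 1)) (a (a (l 16703976) (l 16692696)) (l 16686112))) (a (b (a (l 16685496) (l 16672568)) (l 16656280)) (l 16648184))))) (b (l 1) (a (b (l 1) (a (a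 (l 16640728) (l 1)) (l 1))) (l 1)))), by decide +kernel⟩

def k1_pm_101 : ∃ t, chk3 f_pm_101 t 1 3 1 = true :=
  ⟨(a (b (a (a (a (b (b (l 16658272) (l 16731704)) (b (l 16538872) (l 16453064))) (b (b (l 16651744) (l 16605240)) (l 16654432))) (b (b (a (l 16645656) (l 16638800)) (l 16600328)) (b (l 16547536) (l 16483320)))) (b (a (b (l 16628432) (l 16593856)) (b (l 16609096) (l 16581216))) (a (b (l 16550168) (l 16496536)) (b (l 16546408) (l 16502664))))) (a (b (a (b (a (l 16343792) (l 16374744)) (a (l 16209032) (l 16253320))) (a (l 16344808) (l 16367352))) (a (b (a (l 16175664) (l 16116544)) (a (l 16150488) (l 16093176))) (b (l 16176520) (l 16023040)))) (b (a (a (l 16385744) (l 16399600)) (l 16455384)) (a (l 16373816) (l 16239320))))) (a (b (b (a (a (l 16580456) (l 16575176)) (a (l 16574328) (l 1))) (a (b (l 16532600) (l 16499168)) (b (l 16519952) (l 16483760)))) (b (a (l 16553248) (a (l 16430616) (l 16425880))) (a (b (l 16322832) (l 16224880)) (b (l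 16340328) (l 16248792))))) (b (b (l 1) (a (b (l 1) (a (l 16478216) (l 1))) (l 1))) (b (a (a (l 16419792) (b (a (l 16433568) (l 1)) (l 16435504))) (b (l 1) (a (l 120829040263) (l 1)))) (a (a (l 16310864) (l 16313072)) (b (l 107407109751) (l 99353899607))))))), by decide +kernel⟩

theorem s2_pm_101 : ∃ t, chk3 f_pm_101 t 1 1 1 = true := ex3_b k0_pm_101 k1_pm_101

theorem c_pm_101 : CertB 536870912 536870912 0 536870912 587336777 62277027 3 eng mog cd1q1 cd7q0 pd1 true true false .npn 1 0 1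
    ndB1q1 ndB7q0 pcB1 Cut.none Ext.none :=
  certB1 (fam := true) (s1 := true) (s2 := false) (a := 1) (b := 0) (c := 1) (cn := .npn) (n1 := ndB1q1) (n2 := ndB7q0) (pc := pcB1) (cut := Cut.none) (xt := Ext.none) (P1 := 536870912) (W1 := 536870912) (P2 := 0) (W2 := 536870912) (P3 := 587336777) (W3 := 62277027) (N0 := 3) (En := eng) (mo := mog) (C1 := cd1q1) (C2 := cd7q0) (C3 := pd1)
    rfl (fun _ => rfl) s2_pm_101

noncomputable def f_pm_102 : ℕ → ℕ → ℕ → ℕ → Bool := onCell 536870912 536870912 0 536870912 587336777 62277027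
    (rowB 3 eng mog cd1q1 cd7q0 pd2 0 true true false .npp 1 0 2 (qsf 536870912 536870912 0 536870912 2) ndB1q1 ndB7q0 pcB2 Cut.none Ext.none)

def k0_pm_102 : ∃ t, chk3 f_pm_102 t 1 1 1 = true :=
  ⟨(a (b (b (l 1) (a (l 1) (b (l 1) (a (l 1) (l 329134592199))))) (a (b (b (l 1) (a (l 1) (l 338260769527))) (b (a (l 403758987687) (b (l 16008936) (l 15952312))) (a (b (l 16117896) (l 16057280)) (b (l 15984688) (l 16038032))))) (b (b (a (l 316786482871) (l 16316432)) (a (l 291553071511) (l 16114464))) (b (a (l 16007144) (l 16121920)) (a (b (l 15990424) (l 15982376)) (b (l 16137576) (l 16160992))))))) (b (a (b (a (l 1) (b (l 1) (l 349535748375))) (b (a (l 345240778823) (l 224444902503)) (a (l 233034782263) (l 16226296)))) (b (a (b (l 387116683079) (l 195990802631)) (b (a (l 221223756407) (l 16276336)) (l 16318296))) (a (b (l 16269488) (l 16328640)) (b (a (l 16353256) (l 16410856)) (a (l 16421032) (l 16490152)))))) (a (b (b (a (l 16181368) (l 16273800)) (a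 (l 16211952) (l 16334912))) (b (a (l 16257416) (l 16412592)) (a (l 16325688) (l 16493472)))) (b (a (b (l 16399400) (l 16484136)) (b (l 16544616) (a (l 16592888) (l 16666272)))) (a (b (l 16566640) (l 16654448)) (b (l 16718032) (l 16787040))))))), by decide +kernel⟩

theorem c_pm_102 : CertB 536870912 536870912 0 536870912 587336777 62277027 3 eng mog cd1q1 cd7q0 pd2 true true false .npp 1 0 2
    ndB1q1 ndB7q0 pcB2 Cut.none Ext.none :=
  certB0 (fam := true) (s1 := true) (s2 := false) (a := 1) (b := 0) (c := 2) (cn := .npp) (n1 := ndB1q1) (n2 := ndB7q0) (pc := pcB2) (cut := Cut.none) (xt := Ext.none) (P1 := 536870912) (W1 := 536870912) (P2 := 0) (W2 := 536870912) (P3 := 587336777) (W3 := 62277027) (N0 := 3) (En := eng) (mo := mog) (C1 := cd1q1) (C2 := cd7q0) (C3 := pd2)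
    rfl k0_pm_102

noncomputable def f_pm_112 : ℕ → ℕ → ℕ → ℕ → Bool := onCell 536870912 536870912 1073741824 536870912 587336777 62277027
    (rowB 3 eng mog cd1q1 cd7q1 pd2 1 true true false .dn 1 1 2 (qsf 536870912 536870912 536870912 536870912 2) ndB1q1 ndB7q1 pcB2 Cut.none Ext.none)

def k0_pm_112 : ∃ t, chk3 f_pm_112 t 1 1 1 = true :=
  ⟨(b (a (b (a (a (b (b (l 16113840) (l 16084128)) (b (l 16089072) (l 16087984))) (b (l 183104917031) (a (l 16021248) (l 15981888)))) (a (b (l 1) (l 15996552)) (l 1))) (a (b (b (a (b (l 16083912) (l 16230512)) (b (l 16002304) (b (l 16001488) (l 16002064)))) (a (l 16083816) (l 16010232))) (a (l 16130632) (l 16089960))) (b (a (l 16063240) (l 16127544)) (a (l 16076320) (l 16177184))))) (b (l 1) (a (b (l 1) (l 16332504)) (l 1)))) (a (a (b (b (a (l 16163496) (l 16157824)) (a (l 16186200) (l 16209672))) (a (b (l 16223328) (l 16259088)) (b (l 16280952) (l 16352064)))) (b (b (l 16193120) (a (l 16253224) (l 16337104))) (a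 (l 16400536) (l 16498160)))) (b (a (b (l 16409784) (l 16489256)) (b (l 1) (l 16640848))) (a (a (l 16582152) (l 16660712)) (b (l 16730288) (l 16785272)))))), by decide +kernel⟩

theorem c_pm_112 : CertB 536870912 536870912 536870912 536870912 587336777 62277027 3 eng mog cd1q1 cd7q1 pd2 true true false .dn 1 1 2
    ndB1q1 ndB7q1 pcB2 Cut.none Ext.none :=
  certB1 (fam := true) (s1 := true) (s2 := false) (a := 1) (b := 1) (c := 2) (cn := .dn) (n1 := ndB1q1) (n2 := ndB7q1) (pc := pcB2) (cut := Cut.none) (xt := Ext.none) (P1 := 536870912) (W1 := 536870912) (P2 := 536870912) (W2 := 536870912) (P3 := 587336777) (W3 := 62277027) (N0 := 3) (En := eng) (mo := mog) (C1 := cd1q1) (C2 := cd7q1) (C3 := pd2)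
    rfl (fun _ => rfl) k0_pm_112

noncomputable def f_pm_113 : ℕ → ℕ → ℕ → ℕ → Bool := onCell 1610612736 536870912 536870912 536870912 587336777 62277027
    (rowB 3 eng mog cd1q1 cd7q1 pd3 2 true true false .nn 1 1 3 (qsf 536870912 536870912 536870912 536870912 3) ndB1q1 ndB7q1 pcB3 Cut.none Ext.none)

def k0_pm_113 : ∃ t, chk3 f_pm_113 t 1 1 1 = true :=
  ⟨(b (a (a (a (b (a (l 16824336) (l 16824128)) (a (l 16691328) (l 16706056))) (b (a (l 16822896) (l 16792960)) (a (l 16737464) (l 16748704)))) (b (a (b (l 2) (l 4)) (l 2)) (a (l 16752432) (l 16699200)))) (l 4)) (b (a (a (a (a (l 16551088) (l 16560760)) (b (l 16651912) (l 16583200))) (a (a (l 16656456) (l 16679672)) (l 16695096))) (a (a (l 16674256) (l 4)) (l 4))) (a (a (a (a (b (a (l 16445144) (l 16374472)) (b (l 16315712) (l 16252752))) (b (l 16406960) (l 16270256))) (a (b (l 16474216) (l 16361456)) (b (l 16525464) (l 16432600)))) (a (a (b (l 16559992) (l 16480536)) (b (l 16587592) (l 16517768)))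 (a (l 16673936) (l 16620392)))) (a (a (a (l 16641224) (l 16650528)) (a (l 16648120) (l 4))) (l 4))))), by decide +kernel⟩

theorem c_pm_113 : CertB 536870912 536870912 536870912 536870912 587336777 62277027 3 eng mog cd1q1 cd7q1 pd3 true true false .nn 1 1 3
    ndB1q1 ndB7q1 pcB3 Cut.none Ext.none :=
  certB2 (fam := true) (s1 := true) (s2 := false) (a := 1) (b := 1) (c := 3) (cn := .nn) (n1 := ndB1q1) (n2 := ndB7q1) (pc := pcB3) (cut := Cut.none) (xt := Ext.none) (P1 := 536870912) (W1 := 536870912) (P2 := 536870912) (W2 := 536870912) (P3 := 587336777) (W3 := 62277027) (N0 := 3) (En := eng) (mo := mog) (C1 := cd1q1) (C2 := cd7q1) (C3 := pd3)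
    rfl (fun _ => rfl) k0_pm_113

noncomputable def f_pm_123 : ℕ → ℕ → ℕ → ℕ → Bool := onCell 1610612736 536870912 1073741824 536870912 587336777 62277027
    (rowB 3 eng mog cd1q1 cd7q2 pd3 2 true true false .npn 1 2 3 (qsf 536870912 536870912 1073741824 536870912 3) ndB1q1 ndB7q2 pcB3 Cut.none Ext.none)

def k0_pm_123 : ∃ t, chk3 f_pm_123 t 1 1 1 = true :=
  ⟨(a (a (b (a (b (a (b (b (l 16241520) (l 16225416)) (l 1)) (b (l 16200592) (l 16225256))) (l 1)) (a (b (b (l 16264096) (l 16253848)) (l 1)) (b (b (l 16349096) (l 16302072)) (l 16314912)))) (l 1)) (b (a (b (a (b (l 16408560) (l 16366480)) (b (l 16450008) (l 16412256))) (a (l 16332408) (l 16373952))) (b (b (a (l 16490576) (l 16530960)) (l 16471104)) (b (l 16447640) (l 16433528)))) (a (l 1) (b (l 16446000) (l 1))))) (a (b (a (b (a (l 16606544) (l 16634392)) (b (l 16525144) (l 16507424))) (b (a (l 16589856) (l 16597936)) (a (l 16556312) (l 16576016)))) (b (a (b (l 16508160) (l 16521360)) (l 16737512))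 (a (l 1) (l 16636648)))) (b (b (a (a (l 16594776) (l 4)) (l 4)) (a (a (l 16584624) (l 16588192)) (l 4))) (b (a (a (l 16605232) (l 16617560)) (a (l 16623928) (l 4))) (a (b (l 16631888) (l 16643400)) (a (l 16718928) (a (l 16663192) (a (l 16662608) (l 4))))))))), by decide +kernel⟩

theorem c_pm_123 : CertB 536870912 536870912 1073741824 536870912 587336777 62277027 3 eng mog cd1q1 cd7q2 pd3 true true false .npn 1 2 3
    ndB1q1 ndB7q2 pcB3 Cut.none Ext.none :=
  certB2 (fam := true) (s1 := true) (s2 := false) (a := 1) (b := 2) (c := 3) (cn := .npn) (n1 := ndB1q1) (n2 := ndB7q2) (pc := pcB3) (cut := Cut.none) (xt := Ext.none) (P1 := 536870912) (W1 := 536870912) (P2 := 1073741824) (W2 := 536870912) (P3 := 587336777) (W3 := 62277027) (N0 := 3) (En := eng) (mo := mog) (C1 := cd1q1) (C2 := cd7q2) (C3 := pd3)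
    rfl (fun _ => rfl) k0_pm_123

noncomputable def f_pm_133 : ℕ → ℕ → ℕ → ℕ → Bool := onCell 536870912 536870912 0 1230186008 587336777 62277027
    (rowB 3 eng mog cd1q1 cd7q3 pd3 0 true true false .dn 1 3 3 (qsf 536870912 536870912 0 1230186008 3) ndB1q1 ndB7q3 pcB3 Cut.none Ext.none)

def k0_pm_133 : ∃ t, chk3 f_pm_133 t 1 1 1 = true :=
  ⟨(b (l 2) (b (l 2) (a (b (l 2) (a (l 4) (l 2))) (l 2)))), by decide +kernel⟩

theorem c_pm_133 : CertB 536870912 536870912 0 1230186008 587336777 62277027 3 eng mog cd1q1 cd7q3 pd3 true true false .dn 1 3 3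
    ndB1q1 ndB7q3 pcB3 Cut.none Ext.none :=
  certB0 (fam := true) (s1 := true) (s2 := false) (a := 1) (b := 3) (c := 3) (cn := .dn) (n1 := ndB1q1) (n2 := ndB7q3) (pc := pcB3) (cut := Cut.none) (xt := Ext.none) (P1 := 536870912) (W1 := 536870912) (P2 := 0) (W2 := 1230186008) (P3 := 587336777) (W3 := 62277027) (N0 := 3) (En := eng) (mo := mog) (C1 := cd1q1) (C2 := cd7q3) (C3 := pd3)
    rfl k0_pm_133

noncomputable def f_pm_202_a : ℕ → ℕ → ℕ → ℕ → Bool := onCell 0 536870912 0 536870912 587336777 62277027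
    (rowB 3 eng mog cd1q2a cd7q0 pd2 0 true true false .pp 2 0 2 (qsf 0 536870912 0 536870912 2) ndB1q2a ndB7q0 pcB2 Cut.none Ext.none)

def k0_pm_202_a : ∃ t, chk3 f_pm_202_a t 1 1 1 = true :=
  ⟨(b (a (l 4) (b (a (b (a (b (l 16328536) (l 16357368)) (b (l 16302160) (l 16329048))) (a (l 16451080) (b (l 16363440) (l 16405464)))) (a (b (b (a (l 16287136) (b (l 16274344) (l 16285392))) (l 16310808)) (b (l 16349952) (l 16398464))) (b (a (b (b (a (l 16269504) (l 16266352)) (l 16280472)) (l 16308488)) (b (a (b (b (a (l 16263040) (l 16261736)) (l 16268264)) (l 16281512)) (b (a (b (b (l 16259520) (l 16262768)) (l 16269200)) (b (a (l 16261128) (l 16264504)) (l 16274736))) (l 16292216))) (a (l 16318096) (l 16318048)))) (a (l 16386032) (b (l 16355552) (l 16384320)))))) (a (a (l 4) (b (l 16477736) (l 16575232))) (b (a (l 16484400) (b (a (l 16443560) (l 16414256)) (l 16465432))) (a (l 16558224) (l 16522656)))))) (a (l 4) (a (l 4) (a (b (b (b (l 16607104) (l 16638120))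 (l 16678328)) (l 4)) (b (b (l 16511088) (b (l 16648304) (l 16680848))) (b (l 16720224) (b (l 16746000) (l 4)))))))), by decide +kernel⟩

theorem c_pm_202_a : CertB 0 536870912 0 536870912 587336777 62277027 3 eng mog cd1q2a cd7q0 pd2 true true false .pp 2 0 2
    ndB1q2a ndB7q0 pcB2 Cut.none Ext.none :=
  certB0 (fam := true) (s1 := true) (s2 := false) (a := 2) (b := 0) (c := 2) (cn := .pp) (n1 := ndB1q2a) (n2 := ndB7q0) (pc := pcB2) (cut := Cut.none) (xt := Ext.none) (P1 := 0) (W1 := 536870912) (P2 := 0) (W2 := 536870912) (P3 := 587336777) (W3 := 62277027) (N0 := 3) (En := eng) (mo := mog) (C1 := cd1q2a) (C2 := cd7q0) (C3 := pd2)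
    rfl k0_pm_202_a

noncomputable def f_pm_202_b : ℕ → ℕ → ℕ → ℕ → Bool := onCell 1239849684 370763052 0 536870912 587336777 62277027
    (rowB 3 eng mog cd1q2b cd7q0 pd2 0 true true false .pp 2 0 2 (qsf 1239849684 370763052 0 536870912 2) ndB1q2b ndB7q0 pcB2 Cut.none Ext.none)

def k0_pm_202_b : ∃ t, chk3 f_pm_202_b t 1 1 1 = true :=
  ⟨(l 4), by decide +kernel⟩

theorem c_pm_202_b : CertB 1239849684 370763052 0 536870912 587336777 62277027 3 eng mog cd1q2b cd7q0 pd2 true true false .pp 2 0 2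
    ndB1q2b ndB7q0 pcB2 Cut.none Ext.none :=
  certB0 (fam := true) (s1 := true) (s2 := false) (a := 2) (b := 0) (c := 2) (cn := .pp) (n1 := ndB1q2b) (n2 := ndB7q0) (pc := pcB2) (cut := Cut.none) (xt := Ext.none) (P1 := 1239849684) (W1 := 370763052) (P2 := 0) (W2 := 536870912) (P3 := 587336777) (W3 := 62277027) (N0 := 3) (En := eng) (mo := mog) (C1 := cd1q2b) (C2 := cd7q0) (C3 := pd2)
    rfl k0_pm_202_b

noncomputable def f_pm_203_a : ℕ → ℕ → ℕ → ℕ → Bool := onCell 0 536870912 1610612736 536870912 587336777 62277027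
    (rowB 3 eng mog cd1q2a cd7q0 pd3 1 true true false .up 2 0 3 (qsf 0 536870912 0 536870912 3) ndB1q2a ndB7q0 pcB3 Cut.none Ext.none)

def k0_pm_203_a : ∃ t, chk3 f_pm_203_a t 1 1 1 = true :=
  ⟨(a (l 4) (b (l 4) (l 2))), by decide +kernel⟩

theorem c_pm_203_a : CertB 0 536870912 0 536870912 587336777 62277027 3 eng mog cd1q2a cd7q0 pd3 true true false .up 2 0 3
    ndB1q2a ndB7q0 pcB3 Cut.none Ext.none :=
  certB1 (fam := true) (s1 := true) (s2 := false) (a := 2) (b := 0) (c := 3) (cn := .up) (n1 := ndB1q2a) (n2 := ndB7q0) (pc := pcB3) (cut := Cut.none) (xt := Ext.none) (P1 := 0) (W1 := 536870912) (P2 := 0) (W2 := 536870912) (P3 := 587336777) (W3 := 62277027) (N0 := 3) (En := eng) (mo := mog) (C1 := cd1q2a) (C2 := cd7q0) (C3 := pd3)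
    rfl (fun _ => rfl) k0_pm_203_a

noncomputable def f_pm_203_b : ℕ → ℕ → ℕ → ℕ → Bool := onCell 1239849684 370763052 0 536870912 587336777 62277027
    (rowB 3 eng mog cd1q2b cd7q0 pd3 0 true true false .up 2 0 3 (qsf 1239849684 370763052 0 536870912 3) ndB1q2b ndB7q0 pcB3 Cut.none Ext.none)

def k0_pm_203_b : ∃ t, chk3 f_pm_203_b t 1 1 1 = true :=
  ⟨(l 4), by decide +kernel⟩

theorem c_pm_203_b : CertB 1239849684 370763052 0 536870912 587336777 62277027 3 eng mog cd1q2b cd7q0 pd3 true true false .up 2 0 3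
    ndB1q2b ndB7q0 pcB3 Cut.none Ext.none :=
  certB0 (fam := true) (s1 := true) (s2 := false) (a := 2) (b := 0) (c := 3) (cn := .up) (n1 := ndB1q2b) (n2 := ndB7q0) (pc := pcB3) (cut := Cut.none) (xt := Ext.none) (P1 := 1239849684) (W1 := 370763052) (P2 := 0) (W2 := 536870912) (P3 := 587336777) (W3 := 62277027) (N0 := 3) (En := eng) (mo := mog) (C1 := cd1q2b) (C2 := cd7q0) (C3 := pd3)
    rfl k0_pm_203_b

noncomputable def f_pm_213_a : ℕ → ℕ → ℕ → ℕ → Bool := onCell 0 536870912 536870912 536870912 587336777 62277027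
    (rowB 3 eng mog cd1q2a cd7q1 pd3 0 true true false .pnn 2 1 3 (qsf 0 536870912 536870912 536870912 3) ndB1q2a ndB7q1 pcB3 Cut.none Ext.none)

def k0_pm_213_a : ∃ t, chk3 f_pm_213_a t 1 1 1 = true :=
  ⟨(a (l 4) (b (l 4) (l 4))), by decide +kernel⟩

theorem c_pm_213_a : CertB 0 536870912 536870912 536870912 587336777 62277027 3 eng mog cd1q2a cd7q1 pd3 true true false .pnn 2 1 3
    ndB1q2a ndB7q1 pcB3 Cut.none Ext.none :=
  certB0 (fam := true) (s1 := true) (s2 := false) (a := 2) (b := 1) (c := 3) (cn := .pnn) (n1 := ndB1q2a) (n2 := ndB7q1) (pc := pcB3) (cut := Cut.none) (xt := Ext.none) (P1 := 0) (W1 := 536870912) (P2 := 536870912) (W2 := 536870912) (P3 := 587336777) (W3 := 62277027) (N0 := 3) (En := eng) (mo := mog) (C1 := cd1q2a) (C2 := cd7q1) (C3 := pd3)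
    rfl k0_pm_213_a

noncomputable def f_pm_213_b : ℕ → ℕ → ℕ → ℕ → Bool := onCell 1239849684 370763052 536870912 536870912 587336777 62277027
    (rowB 3 eng mog cd1q2b cd7q1 pd3 0 true true false .pnn 2 1 3 (qsf 1239849684 370763052 536870912 536870912 3) ndB1q2b ndB7q1 pcB3 Cut.none Ext.none)

def k0_pm_213_b : ∃ t, chk3 f_pm_213_b t 1 1 1 = true :=
  ⟨(l 4), by decide +kernel⟩

theorem c_pm_213_b : CertB 1239849684 370763052 536870912 536870912 587336777 62277027 3 eng mog cd1q2b cd7q1 pd3 true true false .pnn 2 1 3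
    ndB1q2b ndB7q1 pcB3 Cut.none Ext.none :=
  certB0 (fam := true) (s1 := true) (s2 := false) (a := 2) (b := 1) (c := 3) (cn := .pnn) (n1 := ndB1q2b) (n2 := ndB7q1) (pc := pcB3) (cut := Cut.none) (xt := Ext.none) (P1 := 1239849684) (W1 := 370763052) (P2 := 536870912) (W2 := 536870912) (P3 := 587336777) (W3 := 62277027) (N0 := 3) (En := eng) (mo := mog) (C1 := cd1q2b) (C2 := cd7q1) (C3 := pd3)
    rfl k0_pm_213_b

noncomputable def f_pm_303 : ℕ → ℕ → ℕ → ℕ → Bool := onCell 1610612736 536870912 0 536870912 587336777 62277027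
    (rowB 3 eng mog cd1q3 cd7q0 pd3 0 true true false .npn 3 0 3 (qsf 1610612736 536870912 0 536870912 3) ndB1q3 ndB7q0 pcB3 Cut.none Ext.none)

def k0_pm_303 : ∃ t, chk3 f_pm_303 t 1 1 1 = true :=
  ⟨(l 4), by decide +kernel⟩

theorem c_pm_303 : CertB 1610612736 536870912 0 536870912 587336777 62277027 3 eng mog cd1q3 cd7q0 pd3 true true false .npn 3 0 3
    ndB1q3 ndB7q0 pcB3 Cut.none Ext.none :=
  certB0 (fam := true) (s1 := true) (s2 := false) (a := 3) (b := 0) (c := 3) (cn := .npn) (n1 := ndB1q3) (n2 := ndB7q0) (pc := pcB3) (cut := Cut.none) (xt := Ext.none) (P1 := 1610612736) (W1 := 536870912) (P2 := 0) (W2 := 536870912) (P3 := 587336777) (W3 := 62277027) (N0 := 3) (En := eng) (mo := mog) (C1 := cd1q3) (C2 := cd7q0) (C3 := pd3)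
    rfl k0_pm_303

noncomputable def f_pm_313 : ℕ → ℕ → ℕ → ℕ → Bool := onCell 1610612736 536870912 536870912 536870912 587336777 62277027
    (rowB 3 eng mog cd1q3 cd7q1 pd3 0 true true false .dn 3 1 3 (qsf 1610612736 536870912 536870912 536870912 3) ndB1q3 ndB7q1 pcB3 Cut.none Ext.none)

def k0_pm_313 : ∃ t, chk3 f_pm_313 t 1 1 1 = true :=
  ⟨(l 4), by decide +kernel⟩

theorem c_pm_313 : CertB 1610612736 536870912 536870912 536870912 587336777 62277027 3 eng mog cd1q3 cd7q1 pd3 true true false .dn 3 1 3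
    ndB1q3 ndB7q1 pcB3 Cut.none Ext.none :=
  certB0 (fam := true) (s1 := true) (s2 := false) (a := 3) (b := 1) (c := 3) (cn := .dn) (n1 := ndB1q3) (n2 := ndB7q1) (pc := pcB3) (cut := Cut.none) (xt := Ext.none) (P1 := 1610612736) (W1 := 536870912) (P2 := 536870912) (W2 := 536870912) (P3 := 587336777) (W3 := 62277027) (N0 := 3) (En := eng) (mo := mog) (C1 := cd1q3) (C2 := cd7q1) (C3 := pd3)
    rfl k0_pm_313

noncomputable def f_mm_001 : ℕ → ℕ → ℕ → ℕ → Bool := onCell 0 536870912 0 536870912 587336777 62277027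
    (rowB 3 eng mog cd1q0 cd7q0 pd1 0 true false false .up 0 0 1 (qsf 0 536870912 0 536870912 1) ndB1q0 ndB7q0 pcB1 Cut.none Ext.none)

def k0_mm_001 : ∃ t, chk3 f_mm_001 t 1 1 1 = true :=
  ⟨(l 4), by decide +kernel⟩

theorem c_mm_001 : CertB 0 536870912 0 536870912 587336777 62277027 3 eng mog cd1q0 cd7q0 pd1 true false false .up 0 0 1
    ndB1q0 ndB7q0 pcB1 Cut.none Ext.none :=
  certB0 (fam := true) (s1 := false) (s2 := false) (a := 0) (b := 0) (c := 1) (cn := .up) (n1 := ndB1q0) (n2 := ndB7q0) (pc := pcB1) (cut := Cut.none) (xt := Ext.none) (P1 := 0) (W1 := 536870912) (P2 := 0) (W2 := 536870912) (P3 := 587336777) (W3 := 62277027) (N0 := 3) (En := eng) (mo := mog) (C1 := cd1q0) (C2 := cd7q0) (C3 := pd1)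
    rfl k0_mm_001

noncomputable def f_mm_011 : ℕ → ℕ → ℕ → ℕ → Bool := onCell 0 536870912 536870912 536870912 587336777 62277027
    (rowB 3 eng mog cd1q0 cd7q1 pd1 0 true false false .pnn 0 1 1 (qsf 0 536870912 536870912 536870912 1) ndB1q0 ndB7q1 pcB1 Cut.none Ext.none)

def k0_mm_011 : ∃ t, chk3 f_mm_011 t 1 1 1 = true :=
  ⟨(l 4), by decide +kernel⟩

theorem c_mm_011 : CertB 0 536870912 536870912 536870912 587336777 62277027 3 eng mog cd1q0 cd7q1 pd1 true false false .pnn 0 1 1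
    ndB1q0 ndB7q1 pcB1 Cut.none Ext.none :=
  certB0 (fam := true) (s1 := false) (s2 := false) (a := 0) (b := 1) (c := 1) (cn := .pnn) (n1 := ndB1q0) (n2 := ndB7q1) (pc := pcB1) (cut := Cut.none) (xt := Ext.none) (P1 := 0) (W1 := 536870912) (P2 := 536870912) (W2 := 536870912) (P3 := 587336777) (W3 := 62277027) (N0 := 3) (En := eng) (mo := mog) (C1 := cd1q0) (C2 := cd7q1) (C3 := pd1)
    rfl k0_mm_011

noncomputable def f_mm_012 : ℕ → ℕ → ℕ → ℕ → Bool := onCell 0 536870912 536870912 536870912 587336777 62277027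
    (rowB 3 eng mog cd1q0 cd7q1 pd2 0 true false false .pnp 0 1 2 (qsf 0 536870912 536870912 536870912 2) ndB1q0 ndB7q1 pcB2 Cut.none Ext.none)

def k0_mm_012 : ∃ t, chk3 f_mm_012 t 1 1 1 = true :=
  ⟨(l 4), by decide +kernel⟩

theorem c_mm_012 : CertB 0 536870912 536870912 536870912 587336777 62277027 3 eng mog cd1q0 cd7q1 pd2 true false false .pnp 0 1 2
    ndB1q0 ndB7q1 pcB2 Cut.none Ext.none :=
  certB0 (fam := true) (s1 := false) (s2 := false) (a := 0) (b := 1) (c := 2) (cn := .pnp) (n1 := ndB1q0) (n2 := ndB7q1) (pc := pcB2) (cut := Cut.none) (xt := Ext.none) (P1 := 0) (W1 := 536870912) (P2 := 536870912) (W2 := 536870912) (P3 := 587336777) (W3 := 62277027) (N0 := 3) (En := eng) (mo := mog) (C1 := cd1q0) (C2 := cd7q1) (C3 := pd2)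
    rfl k0_mm_012

noncomputable def f_mm_022 : ℕ → ℕ → ℕ → ℕ → Bool := onCell 0 536870912 1073741824 536870912 587336777 62277027
    (rowB 3 eng mog cd1q0 cd7q2 pd2 0 true false false .pp 0 2 2 (qsf 0 536870912 1073741824 536870912 2) ndB1q0 ndB7q2 pcB2 Cut.none Ext.none)

def k0_mm_022 : ∃ t, chk3 f_mm_022 t 1 1 1 = true :=
  ⟨(l 4), by decide +kernel⟩

theorem c_mm_022 : CertB 0 536870912 1073741824 536870912 587336777 62277027 3 eng mog cd1q0 cd7q2 pd2 true false false .pp 0 2 2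
    ndB1q0 ndB7q2 pcB2 Cut.none Ext.none :=
  certB0 (fam := true) (s1 := false) (s2 := false) (a := 0) (b := 2) (c := 2) (cn := .pp) (n1 := ndB1q0) (n2 := ndB7q2) (pc := pcB2) (cut := Cut.none) (xt := Ext.none) (P1 := 0) (W1 := 536870912) (P2 := 1073741824) (W2 := 536870912) (P3 := 587336777) (W3 := 62277027) (N0 := 3) (En := eng) (mo := mog) (C1 := cd1q0) (C2 := cd7q2) (C3 := pd2)
    rfl k0_mm_022

noncomputable def f_mm_023 : ℕ → ℕ → ℕ → ℕ → Bool := onCell 0 536870912 1073741824 536870912 587336777 62277027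
    (rowB 3 eng mog cd1q0 cd7q2 pd3 0 true false false .up 0 2 3 (qsf 0 536870912 1073741824 536870912 3) ndB1q0 ndB7q2 pcB3 Cut.none Ext.none)

def k0_mm_023 : ∃ t, chk3 f_mm_023 t 1 1 1 = true :=
  ⟨(l 4), by decide +kernel⟩

theorem c_mm_023 : CertB 0 536870912 1073741824 536870912 587336777 62277027 3 eng mog cd1q0 cd7q2 pd3 true false false .up 0 2 3
    ndB1q0 ndB7q2 pcB3 Cut.none Ext.none :=
  certB0 (fam := true) (s1 := false) (s2 := false) (a := 0) (b := 2) (c := 3) (cn := .up) (n1 := ndB1q0) (n2 := ndB7q2) (pc := pcB3) (cut := Cut.none) (xt := Ext.none) (P1 := 0) (W1 := 536870912) (P2 := 1073741824) (W2 := 536870912) (P3 := 587336777) (W3 := 62277027) (N0 := 3) (En := eng) (mo := mog) (C1 := cd1q0) (C2 := cd7q2) (C3 := pd3)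
    rfl k0_mm_023

noncomputable def f_mm_033 : ℕ → ℕ → ℕ → ℕ → Bool := onCell 0 536870912 0 1230186008 587336777 62277027
    (rowB 3 eng mog cd1q0 cd7q3 pd3 0 true false false .pnn 0 3 3 (qsf 0 536870912 0 1230186008 3) ndB1q0 ndB7q3 pcB3 Cut.none Ext.none)

def k0_mm_033 : ∃ t, chk3 f_mm_033 t 1 1 1 = true :=
  ⟨(l 4), by decide +kernel⟩

theorem c_mm_033 : CertB 0 536870912 0 1230186008 587336777 62277027 3 eng mog cd1q0 cd7q3 pd3 true false false .pnn 0 3 3
    ndB1q0 ndB7q3 pcB3 Cut.none Ext.none :=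
  certB0 (fam := true) (s1 := false) (s2 := false) (a := 0) (b := 3) (c := 3) (cn := .pnn) (n1 := ndB1q0) (n2 := ndB7q3) (pc := pcB3) (cut := Cut.none) (xt := Ext.none) (P1 := 0) (W1 := 536870912) (P2 := 0) (W2 := 1230186008) (P3 := 587336777) (W3 := 62277027) (N0 := 3) (En := eng) (mo := mog) (C1 := cd1q0) (C2 := cd7q3) (C3 := pd3)
    rfl k0_mm_033

noncomputable def f_mm_101 : ℕ → ℕ → ℕ → ℕ → Bool := onCell 536870912 536870912 0 536870912 587336777 62277027
    (rowB 3 eng mog cd1q1 cd7q0 pd1 0 true false false .npn 1 0 1 (qsf 536870912 536870912 0 536870912 1) ndB1q1 ndB7q0 pcB1 Cut.none Ext.none)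

def k0_mm_101 : ∃ t, chk3 f_mm_101 t 1 1 1 = true :=
  ⟨(l 4), by decide +kernel⟩

theorem c_mm_101 : CertB 536870912 536870912 0 536870912 587336777 62277027 3 eng mog cd1q1 cd7q0 pd1 true false false .npn 1 0 1
    ndB1q1 ndB7q0 pcB1 Cut.none Ext.none :=
  certB0 (fam := true) (s1 := false) (s2 := false) (a := 1) (b := 0) (c := 1) (cn := .npn) (n1 := ndB1q1) (n2 := ndB7q0) (pc := pcB1) (cut := Cut.none) (xt := Ext.none) (P1 := 536870912) (W1 := 536870912) (P2 := 0) (W2 := 536870912) (P3 := 587336777) (W3 := 62277027) (N0 := 3) (En := eng) (mo := mog) (C1 := cd1q1) (C2 := cd7q0) (C3 := pd1)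
    rfl k0_mm_101

noncomputable def f_mm_102 : ℕ → ℕ → ℕ → ℕ → Bool := onCell 536870912 536870912 0 536870912 587336777 62277027
    (rowB 3 eng mog cd1q1 cd7q0 pd2 0 true false false .npp 1 0 2 (qsf 536870912 536870912 0 536870912 2) ndB1q1 ndB7q0 pcB2 Cut.none Ext.none)

def k0_mm_102 : ∃ t, chk3 f_mm_102 t 1 1 1 = true :=
  ⟨(l 4), by decide +kernel⟩

theorem c_mm_102 : CertB 536870912 536870912 0 536870912 587336777 62277027 3 eng mog cd1q1 cd7q0 pd2 true false false .npp 1 0 2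
    ndB1q1 ndB7q0 pcB2 Cut.none Ext.none :=
  certB0 (fam := true) (s1 := false) (s2 := false) (a := 1) (b := 0) (c := 2) (cn := .npp) (n1 := ndB1q1) (n2 := ndB7q0) (pc := pcB2) (cut := Cut.none) (xt := Ext.none) (P1 := 536870912) (W1 := 536870912) (P2 := 0) (W2 := 536870912) (P3 := 587336777) (W3 := 62277027) (N0 := 3) (En := eng) (mo := mog) (C1 := cd1q1) (C2 := cd7q0) (C3 := pd2)
    rfl k0_mm_102

noncomputable def f_mm_112 : ℕ → ℕ → ℕ → ℕ → Bool := onCell 536870912 536870912 536870912 536870912 587336777 62277027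
    (rowB 3 eng mog cd1q1 cd7q1 pd2 0 true false false .dn 1 1 2 (qsf 536870912 536870912 536870912 536870912 2) ndB1q1 ndB7q1 pcB2 Cut.none Ext.none)

def k0_mm_112 : ∃ t, chk3 f_mm_112 t 1 1 1 = true :=
  ⟨(l 4), by decide +kernel⟩

theorem c_mm_112 : CertB 536870912 536870912 536870912 536870912 587336777 62277027 3 eng mog cd1q1 cd7q1 pd2 true false false .dn 1 1 2
    ndB1q1 ndB7q1 pcB2 Cut.none Ext.none :=
  certB0 (fam := true) (s1 := false) (s2 := false) (a := 1) (b := 1) (c := 2) (cn := .dn) (n1 := ndB1q1) (n2 := ndB7q1) (pc := pcB2) (cut := Cut.none) (xt := Ext.none) (P1 := 536870912) (W1 := 536870912) (P2 := 536870912) (W2 := 536870912) (P3 := 587336777) (W3 := 62277027) (N0 := 3) (En := eng) (mo := mog) (C1 := cd1q1) (C2 := cd7q1) (C3 := pd2)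
    rfl k0_mm_112

noncomputable def f_mm_113 : ℕ → ℕ → ℕ → ℕ → Bool := onCell 536870912 536870912 536870912 536870912 587336777 62277027
    (rowB 3 eng mog cd1q1 cd7q1 pd3 0 true false false .nn 1 1 3 (qsf 536870912 536870912 536870912 536870912 3) ndB1q1 ndB7q1 pcB3 Cut.none Ext.none)

def k0_mm_113 : ∃ t, chk3 f_mm_113 t 1 1 1 = true :=
  ⟨(l 4), by decide +kernel⟩

theorem c_mm_113 : CertB 536870912 536870912 536870912 536870912 587336777 62277027 3 eng mog cd1q1 cd7q1 pd3 true false false .nn 1 1 3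
    ndB1q1 ndB7q1 pcB3 Cut.none Ext.none :=
  certB0 (fam := true) (s1 := false) (s2 := false) (a := 1) (b := 1) (c := 3) (cn := .nn) (n1 := ndB1q1) (n2 := ndB7q1) (pc := pcB3) (cut := Cut.none) (xt := Ext.none) (P1 := 536870912) (W1 := 536870912) (P2 := 536870912) (W2 := 536870912) (P3 := 587336777) (W3 := 62277027) (N0 := 3) (En := eng) (mo := mog) (C1 := cd1q1) (C2 := cd7q1) (C3 := pd3)
    rfl k0_mm_113

noncomputable def f_mm_123 : ℕ → ℕ → ℕ → ℕ → Bool := onCell 536870912 536870912 1073741824 536870912 587336777 62277027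
    (rowB 3 eng mog cd1q1 cd7q2 pd3 0 true false false .npn 1 2 3 (qsf 536870912 536870912 1073741824 536870912 3) ndB1q1 ndB7q2 pcB3 Cut.none Ext.none)

def k0_mm_123 : ∃ t, chk3 f_mm_123 t 1 1 1 = true :=
  ⟨(l 4), by decide +kernel⟩

theorem c_mm_123 : CertB 536870912 536870912 1073741824 536870912 587336777 62277027 3 eng mog cd1q1 cd7q2 pd3 true false false .npn 1 2 3
    ndB1q1 ndB7q2 pcB3 Cut.none Ext.none :=
  certB0 (fam := true) (s1 := false) (s2 := false) (a := 1) (b := 2) (c := 3) (cn := .npn) (n1 := ndB1q1) (n2 := ndB7q2) (pc := pcB3) (cut := Cut.none) (xt := Ext.none) (P1 := 536870912) (W1 := 536870912) (P2 := 1073741824) (W2 := 536870912) (P3 := 587336777) (W3 := 62277027) (N0 := 3) (En := eng) (mo := mog) (C1 := cd1q1) (C2 := cd7q2) (C3 := pd3)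
    rfl k0_mm_123

noncomputable def f_mm_133 : ℕ → ℕ → ℕ → ℕ → Bool := onCell 536870912 536870912 0 1230186008 587336777 62277027
    (rowB 3 eng mog cd1q1 cd7q3 pd3 0 true false false .dn 1 3 3 (qsf 536870912 536870912 0 1230186008 3) ndB1q1 ndB7q3 pcB3 Cut.none Ext.none)

def k0_mm_133 : ∃ t, chk3 f_mm_133 t 1 1 1 = true :=
  ⟨(l 4), by decide +kernel⟩

theorem c_mm_133 : CertB 536870912 536870912 0 1230186008 587336777 62277027 3 eng mog cd1q1 cd7q3 pd3 true false false .dn 1 3 3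
    ndB1q1 ndB7q3 pcB3 Cut.none Ext.none :=
  certB0 (fam := true) (s1 := false) (s2 := false) (a := 1) (b := 3) (c := 3) (cn := .dn) (n1 := ndB1q1) (n2 := ndB7q3) (pc := pcB3) (cut := Cut.none) (xt := Ext.none) (P1 := 536870912) (W1 := 536870912) (P2 := 0) (W2 := 1230186008) (P3 := 587336777) (W3 := 62277027) (N0 := 3) (En := eng) (mo := mog) (C1 := cd1q1) (C2 := cd7q3) (C3 := pd3)
    rfl k0_mm_133

noncomputable def f_mm_202_a : ℕ → ℕ → ℕ → ℕ → Bool := onCell 0 536870912 0 536870912 587336777 62277027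
    (rowB 3 eng mog cd1q2a cd7q0 pd2 0 true false false .pp 2 0 2 (qsf 0 536870912 0 536870912 2) ndB1q2a ndB7q0 pcB2 Cut.none Ext.none)

def k0_mm_202_a : ∃ t, chk3 f_mm_202_a t 1 1 1 = true :=
  ⟨(l 4), by decide +kernel⟩

theorem c_mm_202_a : CertB 0 536870912 0 536870912 587336777 62277027 3 eng mog cd1q2a cd7q0 pd2 true false false .pp 2 0 2
    ndB1q2a ndB7q0 pcB2 Cut.none Ext.none :=
  certB0 (fam := true) (s1 := false) (s2 := false) (a := 2) (b := 0) (c := 2) (cn := .pp) (n1 := ndB1q2a) (n2 := ndB7q0) (pc := pcB2) (cut := Cut.none) (xt := Ext.none) (P1 := 0) (W1 := 536870912) (P2 := 0) (W2 := 536870912) (P3 := 587336777) (W3 := 62277027) (N0 := 3) (En := eng) (mo := mog) (C1 := cd1q2a) (C2 := cd7q0) (C3 := pd2)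
    rfl k0_mm_202_a

noncomputable def f_mm_202_b : ℕ → ℕ → ℕ → ℕ → Bool := onCell 1239849684 370763052 0 536870912 587336777 62277027
    (rowB 3 eng mog cd1q2b cd7q0 pd2 0 true false false .pp 2 0 2 (qsf 1239849684 370763052 0 536870912 2) ndB1q2b ndB7q0 pcB2 Cut.none Ext.none)

def k0_mm_202_b : ∃ t, chk3 f_mm_202_b t 1 1 1 = true :=
  ⟨(l 4), by decide +kernel⟩

theorem c_mm_202_b : CertB 1239849684 370763052 0 536870912 587336777 62277027 3 eng mog cd1q2b cd7q0 pd2 true false false .pp 2 0 2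
    ndB1q2b ndB7q0 pcB2 Cut.none Ext.none :=
  certB0 (fam := true) (s1 := false) (s2 := false) (a := 2) (b := 0) (c := 2) (cn := .pp) (n1 := ndB1q2b) (n2 := ndB7q0) (pc := pcB2) (cut := Cut.none) (xt := Ext.none) (P1 := 1239849684) (W1 := 370763052) (P2 := 0) (W2 := 536870912) (P3 := 587336777) (W3 := 62277027) (N0 := 3) (En := eng) (mo := mog) (C1 := cd1q2b) (C2 := cd7q0) (C3 := pd2)
    rfl k0_mm_202_b

noncomputable def f_mm_203_a : ℕ → ℕ → ℕ → ℕ → Bool := onCell 0 536870912 0 536870912 587336777 62277027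
    (rowB 3 eng mog cd1q2a cd7q0 pd3 0 true false false .up 2 0 3 (qsf 0 536870912 0 536870912 3) ndB1q2a ndB7q0 pcB3 Cut.none Ext.none)

def k0_mm_203_a : ∃ t, chk3 f_mm_203_a t 1 1 1 = true :=
  ⟨(l 4), by decide +kernel⟩

theorem c_mm_203_a : CertB 0 536870912 0 536870912 587336777 62277027 3 eng mog cd1q2a cd7q0 pd3 true false false .up 2 0 3
    ndB1q2a ndB7q0 pcB3 Cut.none Ext.none :=
  certB0 (fam := true) (s1 := false) (s2 := false) (a := 2) (b := 0) (c := 3) (cn := .up) (n1 := ndB1q2a) (n2 := ndB7q0) (pc := pcB3) (cut := Cut.none) (xt := Ext.none) (P1 := 0) (W1 := 536870912) (P2 := 0) (W2 := 536870912) (P3 := 587336777) (W3 := 62277027) (N0 := 3) (En := eng) (mo := mog) (C1 := cd1q2a) (C2 := cd7q0) (C3 := pd3)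
    rfl k0_mm_203_a

noncomputable def f_mm_203_b : ℕ → ℕ → ℕ → ℕ → Bool := onCell 1239849684 370763052 0 536870912 587336777 62277027
    (rowB 3 eng mog cd1q2b cd7q0 pd3 0 true false false .up 2 0 3 (qsf 1239849684 370763052 0 536870912 3) ndB1q2b ndB7q0 pcB3 Cut.none Ext.none)

def k0_mm_203_b : ∃ t, chk3 f_mm_203_b t 1 1 1 = true :=
  ⟨(l 4), by decide +kernel⟩

theorem c_mm_203_b : CertB 1239849684 370763052 0 536870912 587336777 62277027 3 eng mog cd1q2b cd7q0 pd3 true false false .up 2 0 3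
    ndB1q2b ndB7q0 pcB3 Cut.none Ext.none :=
  certB0 (fam := true) (s1 := false) (s2 := false) (a := 2) (b := 0) (c := 3) (cn := .up) (n1 := ndB1q2b) (n2 := ndB7q0) (pc := pcB3) (cut := Cut.none) (xt := Ext.none) (P1 := 1239849684) (W1 := 370763052) (P2 := 0) (W2 := 536870912) (P3 := 587336777) (W3 := 62277027) (N0 := 3) (En := eng) (mo := mog) (C1 := cd1q2b) (C2 := cd7q0) (C3 := pd3)
    rfl k0_mm_203_b

noncomputable def f_mm_213_a : ℕ → ℕ → ℕ → ℕ → Bool := onCell 0 536870912 536870912 536870912 587336777 62277027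
    (rowB 3 eng mog cd1q2a cd7q1 pd3 0 true false false .pnn 2 1 3 (qsf 0 536870912 536870912 536870912 3) ndB1q2a ndB7q1 pcB3 Cut.none Ext.none)

def k0_mm_213_a : ∃ t, chk3 f_mm_213_a t 1 1 1 = true :=
  ⟨(l 4), by decide +kernel⟩

theorem c_mm_213_a : CertB 0 536870912 536870912 536870912 587336777 62277027 3 eng mog cd1q2a cd7q1 pd3 true false false .pnn 2 1 3
    ndB1q2a ndB7q1 pcB3 Cut.none Ext.none :=
  certB0 (fam := true) (s1 := false) (s2 := false) (a := 2) (b := 1) (c := 3) (cn := .pnn) (n1 := ndB1q2a) (n2 := ndB7q1) (pc := pcB3) (cut := Cut.none) (xt := Ext.none) (P1 := 0) (W1 := 536870912) (P2 := 536870912) (W2 := 536870912) (P3 := 587336777) (W3 := 62277027) (N0 := 3) (En := eng) (mo := mog) (C1 := cd1q2a) (C2 := cd7q1) (C3 := pd3)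
    rfl k0_mm_213_a

noncomputable def f_mm_213_b : ℕ → ℕ → ℕ → ℕ → Bool := onCell 1239849684 370763052 536870912 536870912 587336777 62277027
    (rowB 3 eng mog cd1q2b cd7q1 pd3 0 true false false .pnn 2 1 3 (qsf 1239849684 370763052 536870912 536870912 3) ndB1q2b ndB7q1 pcB3 Cut.none Ext.none)

def k0_mm_213_b : ∃ t, chk3 f_mm_213_b t 1 1 1 = true :=
  ⟨(l 4), by decide +kernel⟩

theorem c_mm_213_b : CertB 1239849684 370763052 536870912 536870912 587336777 62277027 3 eng mog cd1q2b cd7q1 pd3 true false false .pnn 2 1 3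
    ndB1q2b ndB7q1 pcB3 Cut.none Ext.none :=
  certB0 (fam := true) (s1 := false) (s2 := false) (a := 2) (b := 1) (c := 3) (cn := .pnn) (n1 := ndB1q2b) (n2 := ndB7q1) (pc := pcB3) (cut := Cut.none) (xt := Ext.none) (P1 := 1239849684) (W1 := 370763052) (P2 := 536870912) (W2 := 536870912) (P3 := 587336777) (W3 := 62277027) (N0 := 3) (En := eng) (mo := mog) (C1 := cd1q2b) (C2 := cd7q1) (C3 := pd3)
    rfl k0_mm_213_b

noncomputable def f_mm_303 : ℕ → ℕ → ℕ → ℕ → Bool := onCell 1610612736 536870912 0 536870912 587336777 62277027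
    (rowB 3 eng mog cd1q3 cd7q0 pd3 0 true false false .npn 3 0 3 (qsf 1610612736 536870912 0 536870912 3) ndB1q3 ndB7q0 pcB3 Cut.none Ext.none)

def k0_mm_303 : ∃ t, chk3 f_mm_303 t 1 1 1 = true :=
  ⟨(l 4), by decide +kernel⟩

theorem c_mm_303 : CertB 1610612736 536870912 0 536870912 587336777 62277027 3 eng mog cd1q3 cd7q0 pd3 true false false .npn 3 0 3
    ndB1q3 ndB7q0 pcB3 Cut.none Ext.none :=
  certB0 (fam := true) (s1 := false) (s2 := false) (a := 3) (b := 0) (c := 3) (cn := .npn) (n1 := ndB1q3) (n2 := ndB7q0) (pc := pcB3) (cut := Cut.none) (xt := Ext.none) (P1 := 1610612736) (W1 := 536870912) (P2 := 0) (W2 := 536870912) (P3 := 587336777) (W3 := 62277027) (N0 := 3) (En := eng) (mo := mog) (C1 := cd1q3) (C2 := cd7q0) (C3 := pd3)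
    rfl k0_mm_303

noncomputable def f_mm_313 : ℕ → ℕ → ℕ → ℕ → Bool := onCell 1610612736 536870912 536870912 536870912 587336777 62277027
    (rowB 3 eng mog cd1q3 cd7q1 pd3 0 true false false .dn 3 1 3 (qsf 1610612736 536870912 536870912 536870912 3) ndB1q3 ndB7q1 pcB3 Cut.none Ext.none)

def k0_mm_313 : ∃ t, chk3 f_mm_313 t 1 1 1 = true :=
  ⟨(l 4), by decide +kernel⟩

theorem c_mm_313 : CertB 1610612736 536870912 536870912 536870912 587336777 62277027 3 eng mog cd1q3 cd7q1 pd3 true false false .dn 3 1 3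
    ndB1q3 ndB7q1 pcB3 Cut.none Ext.none :=
  certB0 (fam := true) (s1 := false) (s2 := false) (a := 3) (b := 1) (c := 3) (cn := .dn) (n1 := ndB1q3) (n2 := ndB7q1) (pc := pcB3) (cut := Cut.none) (xt := Ext.none) (P1 := 1610612736) (W1 := 536870912) (P2 := 536870912) (W2 := 536870912) (P3 := 587336777) (W3 := 62277027) (N0 := 3) (En := eng) (mo := mog) (C1 := cd1q3) (C2 := cd7q1) (C3 := pd3)
    rfl k0_mm_313

end Pool.Agent.Strip051.G.I5470_6050.Tab.C.BA17

namespace Pool.Agent.Strip051.G.I5470_6050.Tab.C.BA22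

open Pool.Agent.Strip051.PB Pool.Agent.Strip051.PB.T
open Pool.Agent.Strip051.G.I5470_6050.Tab

noncomputable def f_pp_001 : ℕ → ℕ → ℕ → ℕ → Bool := onCell 0 536870912 0 536870912 587336777 62277027
    (rowB 3 eng mog cd2q0 cd2q0 pd1 0 true true true .up 0 0 1 (qsf 0 536870912 0 536870912 1) ndB2q0 ndB2q0 pcB1 Cut.none Ext.none)

def k0_pp_001 : ∃ t, chk3 f_pp_001 t 1 1 1 = true :=
  ⟨(l 4), by decide +kernel⟩

theorem c_pp_001 : CertB 0 536870912 0 536870912 587336777 62277027 3 eng mog cd2q0 cd2q0 pd1 true true true .up 0 0 1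
    ndB2q0 ndB2q0 pcB1 Cut.none Ext.none :=
  certB0 (fam := true) (s1 := true) (s2 := true) (a := 0) (b := 0) (c := 1) (cn := .up) (n1 := ndB2q0) (n2 := ndB2q0) (pc := pcB1) (cut := Cut.none) (xt := Ext.none) (P1 := 0) (W1 := 536870912) (P2 := 0) (W2 := 536870912) (P3 := 587336777) (W3 := 62277027) (N0 := 3) (En := eng) (mo := mog) (C1 := cd2q0) (C2 := cd2q0) (C3 := pd1)
    rfl k0_pp_001

noncomputable def f_pp_011 : ℕ → ℕ → ℕ → ℕ → Bool := onCell 0 536870912 536870912 536870912 587336777 62277027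
    (rowB 3 eng mog cd2q0 cd2q1 pd1 0 true true true .pnn 0 1 1 (qsf 0 536870912 536870912 536870912 1) ndB2q0 ndB2q1 pcB1 Cut.none Ext.none)

def k0_pp_011 : ∃ t, chk3 f_pp_011 t 1 1 1 = true :=
  ⟨(l 4), by decide +kernel⟩

theorem c_pp_011 : CertB 0 536870912 536870912 536870912 587336777 62277027 3 eng mog cd2q0 cd2q1 pd1 true true true .pnn 0 1 1
    ndB2q0 ndB2q1 pcB1 Cut.none Ext.none :=
  certB0 (fam := true) (s1 := true) (s2 := true) (a := 0) (b := 1) (c := 1) (cn := .pnn) (n1 := ndB2q0) (n2 := ndB2q1) (pc := pcB1) (cut := Cut.none) (xt := Ext.none) (P1 := 0) (W1 := 536870912) (P2 := 536870912) (W2 := 536870912) (P3 := 587336777) (W3 := 62277027) (N0 := 3) (En := eng) (mo := mog) (C1 := cd2q0) (C2 := cd2q1) (C3 := pd1)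
    rfl k0_pp_011

noncomputable def f_pp_012 : ℕ → ℕ → ℕ → ℕ → Bool := onCell 0 536870912 536870912 536870912 587336777 62277027
    (rowB 3 eng mog cd2q0 cd2q1 pd2 0 true true true .pnp 0 1 2 (qsf 0 536870912 536870912 536870912 2) ndB2q0 ndB2q1 pcB2 Cut.none Ext.none)

def k0_pp_012 : ∃ t, chk3 f_pp_012 t 1 1 1 = true :=
  ⟨(l 4), by decide +kernel⟩

theorem c_pp_012 : CertB 0 536870912 536870912 536870912 587336777 62277027 3 eng mog cd2q0 cd2q1 pd2 true true true .pnp 0 1 2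
    ndB2q0 ndB2q1 pcB2 Cut.none Ext.none :=
  certB0 (fam := true) (s1 := true) (s2 := true) (a := 0) (b := 1) (c := 2) (cn := .pnp) (n1 := ndB2q0) (n2 := ndB2q1) (pc := pcB2) (cut := Cut.none) (xt := Ext.none) (P1 := 0) (W1 := 536870912) (P2 := 536870912) (W2 := 536870912) (P3 := 587336777) (W3 := 62277027) (N0 := 3) (En := eng) (mo := mog) (C1 := cd2q0) (C2 := cd2q1) (C3 := pd2)
    rfl k0_pp_012

noncomputable def cut_pp_022_a : Cut := Cut.of [[⟨0, 0, 0, 67108864⟩, ⟨1, 1, 0, 67108864⟩, ⟨2, 1, 0, 67108864⟩]]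

noncomputable def f_pp_022_a : ℕ → ℕ → ℕ → ℕ → Bool := onCell 0 536870912 0 536870912 587336777 62277027
    (rowB 3 eng mog cd2q0 cd2q2a pd2 0 true true true .pp 0 2 2 (qsf 0 536870912 0 536870912 2) ndB2q0 ndB2q2a pcB2 cut_pp_022_a Ext.none)

def k0_pp_022_a : ∃ t, chk3 f_pp_022_a t 2 2 1 = true :=
  ⟨(a (a (b (a (b (a (b (l 16457208) (l 16459776)) (l 16509432)) (a (l 16481528) (b (l 16474280) (l 16544880)))) (b (l 16501840) (a (l 16488336) (l 16498416)))) (a (a (b (b (l 16481560) (l 16493696)) (b (l 16508384) (a (l 16523056) (l 16528472)))) (b (b (l 16476264) (l 16483488)) (b (l 16519456) (l 16537104)))) (b (a (b (l 16502976) (l 16536952)) (l 16541904)) (a (b (c (l 16596864) (l 16592136)) (l 16528408)) (b (l 16543672) (l 16625136)))))) (b (a (b (l 16498800) (l 16513624)) (l 16546640)) (a (b (l 16537992) (a (l 16628632) (l 16599344))) (b (l 16560432) (l 16597256))))) (a (b (a (l 16548472) (l 16642368)) (b (a (l 16586032) (l 16618968)) (a (l 16624992)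 (l 16657528)))) (b (a (l 16607672) (l 16635080)) (b (a (l 16649616) (l 16677072)) (l 4))))), by decide +kernel⟩

def k1_pp_022_a : ∃ t, chk3 f_pp_022_a t 2 3 1 = true :=
  ⟨(a (b (a (a (b (a (b (a (l 16542792) (l 16548632)) (a (l 16564656) (l 16571616))) (b (l 16557480) (l 16580680))) (a (a (b (l 16589024) (b (l 16608864) (l 16623040))) (b (l 16596632) (l 16624240))) (b (l 16606768) (a (l 16632208) (l 16639072))))) (b (a (b (a (l 16566848) (l 16573328)) (l 16593576)) (b (l 16583336) (l 16670120))) (b (b (l 16598872) (l 16623360)) (a (l 16649264) (l 16663568))))) (b (a (a (b (l 16596912) (l 16621296)) (l 16623200)) (b (l 16630976) (l 16656704))) (b (a (a (l 16648456) (l 16684208)) (l 16705928)) (a (a (l 16678544) (b (l 16685744) (l 4))) (l 4))))) (a (b (a (a (b (a (b (l 16637896) (a (l 16651200) (l 16655792))) (a (l 16657688) (l 16656816))) (b (a (a (l 6) (l 16672680)) (l 16679624)) (a (l 6) (a (l 6) (l 16700016))))) (b (b (l 16659184) (l 16696560))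 (b (a (l 16688616) (l 16696488)) (a (l 16706904) (l 16714040))))) (a (b (b (l 16673040) (l 16689864)) (b (l 16717568) (a (l 16721264) (l 16729176)))) (a (b (l 16692448) (l 16759480)) (b (l 16700136) (l 4))))) (a (b (a (l 6) (b (a (l 6) (b (l 16727728) (l 16737400))) (l 6))) (l 6)) (b (b (l 4) (l 4)) (l 4)))) (b (b (a (a (l 16743416) (l 4)) (l 4)) (l 4)) (l 4)))) (b (a (b (a (a (l 16664504) (l 4)) (l 4)) (l 4)) (l 4)) (l 4))), by decide +kernel⟩

def k2_pp_022_a : ∃ t, chk3 f_pp_022_a t 3 1 1 = true :=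
  ⟨(b (b (a (a (a (b (l 16651288) (l 16674864)) (l 16836960)) (a (l 16341200151) (l 4))) (l 2)) (l 4)) (l 4)), by decide +kernel⟩

theorem s3_pp_022_a : ∃ t, chk3 f_pp_022_a t 2 1 1 = true := ex3_b k0_pp_022_a k1_pp_022_a

theorem s4_pp_022_a : ∃ t, chk3 f_pp_022_a t 1 1 1 = true := ex3_a s3_pp_022_a k2_pp_022_a

theorem c_pp_022_a : CertB 0 536870912 0 536870912 587336777 62277027 3 eng mog cd2q0 cd2q2a pd2 true true true .pp 0 2 2
    ndB2q0 ndB2q2a pcB2 cut_pp_022_a Ext.none :=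
  certB0 (fam := true) (s1 := true) (s2 := true) (a := 0) (b := 2) (c := 2) (cn := .pp) (n1 := ndB2q0) (n2 := ndB2q2a) (pc := pcB2) (cut := cut_pp_022_a) (xt := Ext.none) (P1 := 0) (W1 := 536870912) (P2 := 0) (W2 := 536870912) (P3 := 587336777) (W3 := 62277027) (N0 := 3) (En := eng) (mo := mog) (C1 := cd2q0) (C2 := cd2q2a) (C3 := pd2)
    rfl s4_pp_022_a

noncomputable def cut_pp_022_b : Cut := Cut.of [[⟨0, 0, 0, 67108864⟩, ⟨1, 1, 0, 67108864⟩, ⟨2, 1, 0, 67108864⟩]]

noncomputable def f_pp_022_b : ℕ → ℕ → ℕ → ℕ → Bool := onCell 0 536870912 1073741824 536870912 587336777 62277027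
    (rowB 3 eng mog cd2q0 cd2q2b pd2 1 true true true .pp 0 2 2 (qsf 0 536870912 1239849684 370763052 2) ndB2q0 ndB2q2b pcB2 cut_pp_022_b Ext.none)

def k0_pp_022_b : ∃ t, chk3 f_pp_022_b t 1 1 1 = true :=
  ⟨(b (a (b (l 1) (a (b (a (b (a (a (l 144988291287) (l 1)) (l 1)) (a (b (a (l 16453496) (l 146061875639)) (l 16441856)) (b (l 1) (l 272226549991)))) (l 1)) (a (a (b (l 16392848) (l 16328464)) (b (l 16463856) (l 16408224))) (b (a (l 263099831223) (l 1)) (a (l 16491120) (l 245383162407))))) (l 1))) (l 1)) (b (a (a (b (a (a (l 16243504) (l 16319456)) (b (l 16466192) (l 16404816))) (a (b (l 16207920) (l 16175992)) (b (l 16356184) (l 16341824)))) (b (a (a (l 127271521079) (a (l 205118063207) (l 1))) (l 1)) (a (b (l 16509408) (l 16462840)) (b (l 278132280695) (l 16588920))))) (l 1)) (a (a (b (a (b (l 16152040) (l 16133008)) (l 16425728)) (a (l 16111200) (l 16235576))) (b (a (l 16458440) (b (l 16557496) (l 16530184))) (b (l 16525744) (l 16481576)))) (a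 (b (a (b (l 288332936455) (l 16641504)) (l 1)) (a (b (l 16617720) (l 16589064)) (b (l 397317802599) (l 229814153799)))) (l 1))))), by decide +kernel⟩

theorem c_pp_022_b : CertB 0 536870912 1239849684 370763052 587336777 62277027 3 eng mog cd2q0 cd2q2b pd2 true true true .pp 0 2 2
    ndB2q0 ndB2q2b pcB2 cut_pp_022_b Ext.none :=
  certB1 (fam := true) (s1 := true) (s2 := true) (a := 0) (b := 2) (c := 2) (cn := .pp) (n1 := ndB2q0) (n2 := ndB2q2b) (pc := pcB2) (cut := cut_pp_022_b) (xt := Ext.none) (P1 := 0) (W1 := 536870912) (P2 := 1239849684) (W2 := 370763052) (P3 := 587336777) (W3 := 62277027) (N0 := 3) (En := eng) (mo := mog) (C1 := cd2q0) (C2 := cd2q2b) (C3 := pd2)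
    rfl (fun _ => rfl) k0_pp_022_b

noncomputable def f_pp_023_a : ℕ → ℕ → ℕ → ℕ → Bool := onCell 1610612736 536870912 0 536870912 587336777 62277027
    (rowB 3 eng mog cd2q0 cd2q2a pd3 2 true true true .up 0 2 3 (qsf 0 536870912 0 536870912 3) ndB2q0 ndB2q2a pcB3 Cut.none Ext.none)

def k0_pp_023_a : ∃ t, chk3 f_pp_023_a t 1 1 1 = true :=
  ⟨(a (b (l 4) (l 4)) (l 2)), by decide +kernel⟩

theorem c_pp_023_a : CertB 0 536870912 0 536870912 587336777 62277027 3 eng mog cd2q0 cd2q2a pd3 true true true .up 0 2 3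
    ndB2q0 ndB2q2a pcB3 Cut.none Ext.none :=
  certB2 (fam := true) (s1 := true) (s2 := true) (a := 0) (b := 2) (c := 3) (cn := .up) (n1 := ndB2q0) (n2 := ndB2q2a) (pc := pcB3) (cut := Cut.none) (xt := Ext.none) (P1 := 0) (W1 := 536870912) (P2 := 0) (W2 := 536870912) (P3 := 587336777) (W3 := 62277027) (N0 := 3) (En := eng) (mo := mog) (C1 := cd2q0) (C2 := cd2q2a) (C3 := pd3)
    rfl (fun _ => rfl) k0_pp_023_a

noncomputable def f_pp_023_b : ℕ → ℕ → ℕ → ℕ → Bool := onCell 0 536870912 1610612736 536870912 587336777 62277027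
    (rowB 3 eng mog cd2q0 cd2q2b pd3 1 true true true .up 0 2 3 (qsf 0 536870912 1239849684 370763052 3) ndB2q0 ndB2q2b pcB3 Cut.none Ext.none)

def k0_pp_023_b : ∃ t, chk3 f_pp_023_b t 1 1 1 = true :=
  ⟨(b (b (a (b (a (b (l 16155104) (l 16151320)) (b (l 16404816) (l 4))) (l 4)) (l 4)) (l 4)) (l 4)), by decide +kernel⟩

theorem c_pp_023_b : CertB 0 536870912 1239849684 370763052 587336777 62277027 3 eng mog cd2q0 cd2q2b pd3 true true true .up 0 2 3
    ndB2q0 ndB2q2b pcB3 Cut.none Ext.none :=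
  certB1 (fam := true) (s1 := true) (s2 := true) (a := 0) (b := 2) (c := 3) (cn := .up) (n1 := ndB2q0) (n2 := ndB2q2b) (pc := pcB3) (cut := Cut.none) (xt := Ext.none) (P1 := 0) (W1 := 536870912) (P2 := 1239849684) (W2 := 370763052) (P3 := 587336777) (W3 := 62277027) (N0 := 3) (En := eng) (mo := mog) (C1 := cd2q0) (C2 := cd2q2b) (C3 := pd3)
    rfl (fun _ => rfl) k0_pp_023_b

noncomputable def f_pp_033 : ℕ → ℕ → ℕ → ℕ → Bool := onCell 0 536870912 1610612736 536870912 587336777 62277027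
    (rowB 3 eng mog cd2q0 cd2q3 pd3 1 true true true .pnn 0 3 3 (qsf 0 536870912 1610612736 536870912 3) ndB2q0 ndB2q3 pcB3 Cut.none Ext.none)

def k0_pp_033 : ∃ t, chk3 f_pp_033 t 1 1 1 = true :=
  ⟨(b (b (a (b (a (b (l 16186192) (l 16192592)) (l 1)) (l 4)) (l 1)) (l 4)) (l 4)), by decide +kernel⟩

theorem c_pp_033 : CertB 0 536870912 1610612736 536870912 587336777 62277027 3 eng mog cd2q0 cd2q3 pd3 true true true .pnn 0 3 3
    ndB2q0 ndB2q3 pcB3 Cut.none Ext.none :=
  certB1 (fam := true) (s1 := true) (s2 := true) (a := 0) (b := 3) (c := 3) (cn := .pnn) (n1 := ndB2q0) (n2 := ndB2q3) (pc := pcB3) (cut := Cut.none) (xt := Ext.none) (P1 := 0) (W1 := 536870912) (P2 := 1610612736) (W2 := 536870912) (P3 := 587336777) (W3 := 62277027) (N0 := 3) (En := eng) (mo := mog) (C1 := cd2q0) (C2 := cd2q3) (C3 := pd3)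
    rfl (fun _ => rfl) k0_pp_033

noncomputable def f_pp_101 : ℕ → ℕ → ℕ → ℕ → Bool := onCell 536870912 536870912 0 536870912 587336777 62277027
    (rowB 3 eng mog cd2q1 cd2q0 pd1 0 true true true .npn 1 0 1 (qsf 536870912 536870912 0 536870912 1) ndB2q1 ndB2q0 pcB1 Cut.none Ext.none)

def k0_pp_101 : ∃ t, chk3 f_pp_101 t 1 1 1 = true :=
  ⟨(l 4), by decide +kernel⟩

theorem c_pp_101 : CertB 536870912 536870912 0 536870912 587336777 62277027 3 eng mog cd2q1 cd2q0 pd1 true true true .npn 1 0 1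
    ndB2q1 ndB2q0 pcB1 Cut.none Ext.none :=
  certB0 (fam := true) (s1 := true) (s2 := true) (a := 1) (b := 0) (c := 1) (cn := .npn) (n1 := ndB2q1) (n2 := ndB2q0) (pc := pcB1) (cut := Cut.none) (xt := Ext.none) (P1 := 536870912) (W1 := 536870912) (P2 := 0) (W2 := 536870912) (P3 := 587336777) (W3 := 62277027) (N0 := 3) (En := eng) (mo := mog) (C1 := cd2q1) (C2 := cd2q0) (C3 := pd1)
    rfl k0_pp_101

noncomputable def f_pp_102 : ℕ → ℕ → ℕ → ℕ → Bool := onCell 536870912 536870912 0 536870912 587336777 62277027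
    (rowB 3 eng mog cd2q1 cd2q0 pd2 0 true true true .npp 1 0 2 (qsf 536870912 536870912 0 536870912 2) ndB2q1 ndB2q0 pcB2 Cut.none Ext.none)

def k0_pp_102 : ∃ t, chk3 f_pp_102 t 1 1 1 = true :=
  ⟨(l 4), by decide +kernel⟩

theorem c_pp_102 : CertB 536870912 536870912 0 536870912 587336777 62277027 3 eng mog cd2q1 cd2q0 pd2 true true true .npp 1 0 2
    ndB2q1 ndB2q0 pcB2 Cut.none Ext.none :=
  certB0 (fam := true) (s1 := true) (s2 := true) (a := 1) (b := 0) (c := 2) (cn := .npp) (n1 := ndB2q1) (n2 := ndB2q0) (pc := pcB2) (cut := Cut.none) (xt := Ext.none) (P1 := 536870912) (W1 := 536870912) (P2 := 0) (W2 := 536870912) (P3 := 587336777) (W3 := 62277027) (N0 := 3) (En := eng) (mo := mog) (C1 := cd2q1) (C2 := cd2q0) (C3 := pd2)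
    rfl k0_pp_102

noncomputable def f_pp_112 : ℕ → ℕ → ℕ → ℕ → Bool := onCell 536870912 536870912 536870912 536870912 587336777 62277027
    (rowB 3 eng mog cd2q1 cd2q1 pd2 0 true true true .dn 1 1 2 (qsf 536870912 536870912 536870912 536870912 2) ndB2q1 ndB2q1 pcB2 Cut.none Ext.none)

def k0_pp_112 : ∃ t, chk3 f_pp_112 t 1 1 1 = true :=
  ⟨(l 4), by decide +kernel⟩

theorem c_pp_112 : CertB 536870912 536870912 536870912 536870912 587336777 62277027 3 eng mog cd2q1 cd2q1 pd2 true true true .dn 1 1 2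
    ndB2q1 ndB2q1 pcB2 Cut.none Ext.none :=
  certB0 (fam := true) (s1 := true) (s2 := true) (a := 1) (b := 1) (c := 2) (cn := .dn) (n1 := ndB2q1) (n2 := ndB2q1) (pc := pcB2) (cut := Cut.none) (xt := Ext.none) (P1 := 536870912) (W1 := 536870912) (P2 := 536870912) (W2 := 536870912) (P3 := 587336777) (W3 := 62277027) (N0 := 3) (En := eng) (mo := mog) (C1 := cd2q1) (C2 := cd2q1) (C3 := pd2)
    rfl k0_pp_112

noncomputable def f_pp_113 : ℕ → ℕ → ℕ → ℕ → Bool := onCell 536870912 536870912 536870912 536870912 587336777 62277027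
    (rowB 3 eng mog cd2q1 cd2q1 pd3 0 true true true .nn 1 1 3 (qsf 536870912 536870912 536870912 536870912 3) ndB2q1 ndB2q1 pcB3 Cut.none Ext.none)

def k0_pp_113 : ∃ t, chk3 f_pp_113 t 1 1 1 = true :=
  ⟨(l 4), by decide +kernel⟩

theorem c_pp_113 : CertB 536870912 536870912 536870912 536870912 587336777 62277027 3 eng mog cd2q1 cd2q1 pd3 true true true .nn 1 1 3
    ndB2q1 ndB2q1 pcB3 Cut.none Ext.none :=
  certB0 (fam := true) (s1 := true) (s2 := true) (a := 1) (b := 1) (c := 3) (cn := .nn) (n1 := ndB2q1) (n2 := ndB2q1) (pc := pcB3) (cut := Cut.none) (xt := Ext.none) (P1 := 536870912) (W1 := 536870912) (P2 := 536870912) (W2 := 536870912) (P3 := 587336777) (W3 := 62277027) (N0 := 3) (En := eng) (mo := mog) (C1 := cd2q1) (C2 := cd2q1) (C3 := pd3)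
    rfl k0_pp_113

noncomputable def f_pp_123_a : ℕ → ℕ → ℕ → ℕ → Bool := onCell 536870912 536870912 0 536870912 587336777 62277027
    (rowB 3 eng mog cd2q1 cd2q2a pd3 0 true true true .npn 1 2 3 (qsf 536870912 536870912 0 536870912 3) ndB2q1 ndB2q2a pcB3 Cut.none Ext.none)

def k0_pp_123_a : ∃ t, chk3 f_pp_123_a t 1 1 1 = true :=
  ⟨(l 4), by decide +kernel⟩

theorem c_pp_123_a : CertB 536870912 536870912 0 536870912 587336777 62277027 3 eng mog cd2q1 cd2q2a pd3 true true true .npn 1 2 3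
    ndB2q1 ndB2q2a pcB3 Cut.none Ext.none :=
  certB0 (fam := true) (s1 := true) (s2 := true) (a := 1) (b := 2) (c := 3) (cn := .npn) (n1 := ndB2q1) (n2 := ndB2q2a) (pc := pcB3) (cut := Cut.none) (xt := Ext.none) (P1 := 536870912) (W1 := 536870912) (P2 := 0) (W2 := 536870912) (P3 := 587336777) (W3 := 62277027) (N0 := 3) (En := eng) (mo := mog) (C1 := cd2q1) (C2 := cd2q2a) (C3 := pd3)
    rfl k0_pp_123_a

noncomputable def f_pp_123_b : ℕ → ℕ → ℕ → ℕ → Bool := onCell 536870912 536870912 1239849684 370763052 587336777 62277027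
    (rowB 3 eng mog cd2q1 cd2q2b pd3 0 true true true .npn 1 2 3 (qsf 536870912 536870912 1239849684 370763052 3) ndB2q1 ndB2q2b pcB3 Cut.none Ext.none)

def k0_pp_123_b : ∃ t, chk3 f_pp_123_b t 1 1 1 = true :=
  ⟨(l 4), by decide +kernel⟩

theorem c_pp_123_b : CertB 536870912 536870912 1239849684 370763052 587336777 62277027 3 eng mog cd2q1 cd2q2b pd3 true true true .npn 1 2 3
    ndB2q1 ndB2q2b pcB3 Cut.none Ext.none :=
  certB0 (fam := true) (s1 := true) (s2 := true) (a := 1) (b := 2) (c := 3) (cn := .npn) (n1 := ndB2q1) (n2 := ndB2q2b) (pc := pcB3) (cut := Cut.none) (xt := Ext.none) (P1 := 536870912) (W1 := 536870912) (P2 := 1239849684) (W2 := 370763052) (P3 := 587336777) (W3 := 62277027) (N0 := 3) (En := eng) (mo := mog) (C1 := cd2q1) (C2 := cd2q2b) (C3 := pd3)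
    rfl k0_pp_123_b

noncomputable def f_pp_133 : ℕ → ℕ → ℕ → ℕ → Bool := onCell 536870912 536870912 1610612736 536870912 587336777 62277027
    (rowB 3 eng mog cd2q1 cd2q3 pd3 0 true true true .dn 1 3 3 (qsf 536870912 536870912 1610612736 536870912 3) ndB2q1 ndB2q3 pcB3 Cut.none Ext.none)

def k0_pp_133 : ∃ t, chk3 f_pp_133 t 1 1 1 = true :=
  ⟨(l 4), by decide +kernel⟩

theorem c_pp_133 : CertB 536870912 536870912 1610612736 536870912 587336777 62277027 3 eng mog cd2q1 cd2q3 pd3 true true true .dn 1 3 3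
    ndB2q1 ndB2q3 pcB3 Cut.none Ext.none :=
  certB0 (fam := true) (s1 := true) (s2 := true) (a := 1) (b := 3) (c := 3) (cn := .dn) (n1 := ndB2q1) (n2 := ndB2q3) (pc := pcB3) (cut := Cut.none) (xt := Ext.none) (P1 := 536870912) (W1 := 536870912) (P2 := 1610612736) (W2 := 536870912) (P3 := 587336777) (W3 := 62277027) (N0 := 3) (En := eng) (mo := mog) (C1 := cd2q1) (C2 := cd2q3) (C3 := pd3)
    rfl k0_pp_133

noncomputable def f_pp_202_a : ℕ → ℕ → ℕ → ℕ → Bool := onCell 0 536870912 0 536870912 587336777 62277027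
    (rowB 3 eng mog cd2q2a cd2q0 pd2 0 true true true .pp 2 0 2 (qsf 0 536870912 0 536870912 2) ndB2q2a ndB2q0 pcB2 Cut.none Ext.none)

def k0_pp_202_a : ∃ t, chk3 f_pp_202_a t 1 1 1 = true :=
  ⟨(l 5), by decide +kernel⟩

theorem c_pp_202_a : CertB 0 536870912 0 536870912 587336777 62277027 3 eng mog cd2q2a cd2q0 pd2 true true true .pp 2 0 2
    ndB2q2a ndB2q0 pcB2 Cut.none Ext.none :=
  certB0 (fam := true) (s1 := true) (s2 := true) (a := 2) (b := 0) (c := 2) (cn := .pp) (n1 := ndB2q2a) (n2 := ndB2q0) (pc := pcB2) (cut := Cut.none) (xt := Ext.none) (P1 := 0) (W1 := 536870912) (P2 := 0) (W2 := 536870912) (P3 := 587336777) (W3 := 62277027) (N0 := 3) (En := eng) (mo := mog) (C1 := cd2q2a) (C2 := cd2q0) (C3 := pd2)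
    rfl k0_pp_202_a

noncomputable def f_pp_202_b : ℕ → ℕ → ℕ → ℕ → Bool := onCell 1239849684 370763052 0 536870912 587336777 62277027
    (rowB 3 eng mog cd2q2b cd2q0 pd2 0 true true true .pp 2 0 2 (qsf 1239849684 370763052 0 536870912 2) ndB2q2b ndB2q0 pcB2 Cut.none Ext.none)

def k0_pp_202_b : ∃ t, chk3 f_pp_202_b t 1 1 1 = true :=
  ⟨(l 5), by decide +kernel⟩

theorem c_pp_202_b : CertB 1239849684 370763052 0 536870912 587336777 62277027 3 eng mog cd2q2b cd2q0 pd2 true true true .pp 2 0 2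
    ndB2q2b ndB2q0 pcB2 Cut.none Ext.none :=
  certB0 (fam := true) (s1 := true) (s2 := true) (a := 2) (b := 0) (c := 2) (cn := .pp) (n1 := ndB2q2b) (n2 := ndB2q0) (pc := pcB2) (cut := Cut.none) (xt := Ext.none) (P1 := 1239849684) (W1 := 370763052) (P2 := 0) (W2 := 536870912) (P3 := 587336777) (W3 := 62277027) (N0 := 3) (En := eng) (mo := mog) (C1 := cd2q2b) (C2 := cd2q0) (C3 := pd2)
    rfl k0_pp_202_b

noncomputable def f_pp_203_a : ℕ → ℕ → ℕ → ℕ → Bool := onCell 0 536870912 0 536870912 587336777 62277027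
    (rowB 3 eng mog cd2q2a cd2q0 pd3 0 true true true .up 2 0 3 (qsf 0 536870912 0 536870912 3) ndB2q2a ndB2q0 pcB3 Cut.none Ext.none)

def k0_pp_203_a : ∃ t, chk3 f_pp_203_a t 1 1 1 = true :=
  ⟨(l 5), by decide +kernel⟩

theorem c_pp_203_a : CertB 0 536870912 0 536870912 587336777 62277027 3 eng mog cd2q2a cd2q0 pd3 true true true .up 2 0 3
    ndB2q2a ndB2q0 pcB3 Cut.none Ext.none :=
  certB0 (fam := true) (s1 := true) (s2 := true) (a := 2) (b := 0) (c := 3) (cn := .up) (n1 := ndB2q2a) (n2 := ndB2q0) (pc := pcB3) (cut := Cut.none) (xt := Ext.none) (P1 := 0) (W1 := 536870912) (P2 := 0) (W2 := 536870912) (P3 := 587336777) (W3 := 62277027) (N0 := 3) (En := eng) (mo := mog) (C1 := cd2q2a) (C2 := cd2q0) (C3 := pd3)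
    rfl k0_pp_203_a

noncomputable def f_pp_203_b : ℕ → ℕ → ℕ → ℕ → Bool := onCell 1239849684 370763052 0 536870912 587336777 62277027
    (rowB 3 eng mog cd2q2b cd2q0 pd3 0 true true true .up 2 0 3 (qsf 1239849684 370763052 0 536870912 3) ndB2q2b ndB2q0 pcB3 Cut.none Ext.none)

def k0_pp_203_b : ∃ t, chk3 f_pp_203_b t 1 1 1 = true :=
  ⟨(l 5), by decide +kernel⟩

theorem c_pp_203_b : CertB 1239849684 370763052 0 536870912 587336777 62277027 3 eng mog cd2q2b cd2q0 pd3 true true true .up 2 0 3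
    ndB2q2b ndB2q0 pcB3 Cut.none Ext.none :=
  certB0 (fam := true) (s1 := true) (s2 := true) (a := 2) (b := 0) (c := 3) (cn := .up) (n1 := ndB2q2b) (n2 := ndB2q0) (pc := pcB3) (cut := Cut.none) (xt := Ext.none) (P1 := 1239849684) (W1 := 370763052) (P2 := 0) (W2 := 536870912) (P3 := 587336777) (W3 := 62277027) (N0 := 3) (En := eng) (mo := mog) (C1 := cd2q2b) (C2 := cd2q0) (C3 := pd3)
    rfl k0_pp_203_b

noncomputable def f_pp_213_a : ℕ → ℕ → ℕ → ℕ → Bool := onCell 0 536870912 536870912 536870912 587336777 62277027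
    (rowB 3 eng mog cd2q2a cd2q1 pd3 0 true true true .pnn 2 1 3 (qsf 0 536870912 536870912 536870912 3) ndB2q2a ndB2q1 pcB3 Cut.none Ext.none)

def k0_pp_213_a : ∃ t, chk3 f_pp_213_a t 1 1 1 = true :=
  ⟨(l 4), by decide +kernel⟩

theorem c_pp_213_a : CertB 0 536870912 536870912 536870912 587336777 62277027 3 eng mog cd2q2a cd2q1 pd3 true true true .pnn 2 1 3
    ndB2q2a ndB2q1 pcB3 Cut.none Ext.none :=
  certB0 (fam := true) (s1 := true) (s2 := true) (a := 2) (b := 1) (c := 3) (cn := .pnn) (n1 := ndB2q2a) (n2 := ndB2q1) (pc := pcB3) (cut := Cut.none) (xt := Ext.none) (P1 := 0) (W1 := 536870912) (P2 := 536870912) (W2 := 536870912) (P3 := 587336777) (W3 := 62277027) (N0 := 3) (En := eng) (mo := mog) (C1 := cd2q2a) (C2 := cd2q1) (C3 := pd3)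
    rfl k0_pp_213_a

noncomputable def f_pp_213_b : ℕ → ℕ → ℕ → ℕ → Bool := onCell 1239849684 370763052 536870912 536870912 587336777 62277027
    (rowB 3 eng mog cd2q2b cd2q1 pd3 0 true true true .pnn 2 1 3 (qsf 1239849684 370763052 536870912 536870912 3) ndB2q2b ndB2q1 pcB3 Cut.none Ext.none)

def k0_pp_213_b : ∃ t, chk3 f_pp_213_b t 1 1 1 = true :=
  ⟨(l 4), by decide +kernel⟩

theorem c_pp_213_b : CertB 1239849684 370763052 536870912 536870912 587336777 62277027 3 eng mog cd2q2b cd2q1 pd3 true true true .pnn 2 1 3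
    ndB2q2b ndB2q1 pcB3 Cut.none Ext.none :=
  certB0 (fam := true) (s1 := true) (s2 := true) (a := 2) (b := 1) (c := 3) (cn := .pnn) (n1 := ndB2q2b) (n2 := ndB2q1) (pc := pcB3) (cut := Cut.none) (xt := Ext.none) (P1 := 1239849684) (W1 := 370763052) (P2 := 536870912) (W2 := 536870912) (P3 := 587336777) (W3 := 62277027) (N0 := 3) (En := eng) (mo := mog) (C1 := cd2q2b) (C2 := cd2q1) (C3 := pd3)
    rfl k0_pp_213_b

noncomputable def f_pp_303 : ℕ → ℕ → ℕ → ℕ → Bool := onCell 1610612736 536870912 0 536870912 587336777 62277027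
    (rowB 3 eng mog cd2q3 cd2q0 pd3 0 true true true .npn 3 0 3 (qsf 1610612736 536870912 0 536870912 3) ndB2q3 ndB2q0 pcB3 Cut.none Ext.none)

def k0_pp_303 : ∃ t, chk3 f_pp_303 t 1 1 1 = true :=
  ⟨(l 5), by decide +kernel⟩

theorem c_pp_303 : CertB 1610612736 536870912 0 536870912 587336777 62277027 3 eng mog cd2q3 cd2q0 pd3 true true true .npn 3 0 3
    ndB2q3 ndB2q0 pcB3 Cut.none Ext.none :=
  certB0 (fam := true) (s1 := true) (s2 := true) (a := 3) (b := 0) (c := 3) (cn := .npn) (n1 := ndB2q3) (n2 := ndB2q0) (pc := pcB3) (cut := Cut.none) (xt := Ext.none) (P1 := 1610612736) (W1 := 536870912) (P2 := 0) (W2 := 536870912) (P3 := 587336777) (W3 := 62277027) (N0 := 3) (En := eng) (mo := mog) (C1 := cd2q3) (C2 := cd2q0) (C3 := pd3)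
    rfl k0_pp_303

noncomputable def f_pp_313 : ℕ → ℕ → ℕ → ℕ → Bool := onCell 1610612736 536870912 536870912 536870912 587336777 62277027
    (rowB 3 eng mog cd2q3 cd2q1 pd3 0 true true true .dn 3 1 3 (qsf 1610612736 536870912 536870912 536870912 3) ndB2q3 ndB2q1 pcB3 Cut.none Ext.none)

def k0_pp_313 : ∃ t, chk3 f_pp_313 t 1 1 1 = true :=
  ⟨(l 4), by decide +kernel⟩

theorem c_pp_313 : CertB 1610612736 536870912 536870912 536870912 587336777 62277027 3 eng mog cd2q3 cd2q1 pd3 true true true .dn 3 1 3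
    ndB2q3 ndB2q1 pcB3 Cut.none Ext.none :=
  certB0 (fam := true) (s1 := true) (s2 := true) (a := 3) (b := 1) (c := 3) (cn := .dn) (n1 := ndB2q3) (n2 := ndB2q1) (pc := pcB3) (cut := Cut.none) (xt := Ext.none) (P1 := 1610612736) (W1 := 536870912) (P2 := 536870912) (W2 := 536870912) (P3 := 587336777) (W3 := 62277027) (N0 := 3) (En := eng) (mo := mog) (C1 := cd2q3) (C2 := cd2q1) (C3 := pd3)
    rfl k0_pp_313

noncomputable def f_pm_001 : ℕ → ℕ → ℕ → ℕ → Bool := onCell 0 536870912 0 536870912 587336777 62277027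
    (rowB 3 eng mog cd2q0 cd2q0 pd1 0 true true false .up 0 0 1 (qsf 0 536870912 0 536870912 1) ndB2q0 ndB2q0 pcB1 Cut.none Ext.none)

def k0_pm_001 : ∃ t, chk3 f_pm_001 t 1 1 1 = true :=
  ⟨(l 3), by decide +kernel⟩

theorem c_pm_001 : CertB 0 536870912 0 536870912 587336777 62277027 3 eng mog cd2q0 cd2q0 pd1 true true false .up 0 0 1
    ndB2q0 ndB2q0 pcB1 Cut.none Ext.none :=
  certB0 (fam := true) (s1 := true) (s2 := false) (a := 0) (b := 0) (c := 1) (cn := .up) (n1 := ndB2q0) (n2 := ndB2q0) (pc := pcB1) (cut := Cut.none) (xt := Ext.none) (P1 := 0) (W1 := 536870912) (P2 := 0) (W2 := 536870912) (P3 := 587336777) (W3 := 62277027) (N0 := 3) (En := eng) (mo := mog) (C1 := cd2q0) (C2 := cd2q0) (C3 := pd1)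
    rfl k0_pm_001

noncomputable def f_pm_011 : ℕ → ℕ → ℕ → ℕ → Bool := onCell 0 536870912 536870912 536870912 587336777 62277027
    (rowB 3 eng mog cd2q0 cd2q1 pd1 1 true true false .pnn 0 1 1 (qsf 0 536870912 536870912 536870912 1) ndB2q0 ndB2q1 pcB1 Cut.none Ext.none)

def k0_pm_011 : ∃ t, chk3 f_pm_011 t 1 1 1 = true :=
  ⟨(l 3), by decide +kernel⟩

theorem c_pm_011 : CertB 0 536870912 536870912 536870912 587336777 62277027 3 eng mog cd2q0 cd2q1 pd1 true true false .pnn 0 1 1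
    ndB2q0 ndB2q1 pcB1 Cut.none Ext.none :=
  certB1 (fam := true) (s1 := true) (s2 := false) (a := 0) (b := 1) (c := 1) (cn := .pnn) (n1 := ndB2q0) (n2 := ndB2q1) (pc := pcB1) (cut := Cut.none) (xt := Ext.none) (P1 := 0) (W1 := 536870912) (P2 := 536870912) (W2 := 536870912) (P3 := 587336777) (W3 := 62277027) (N0 := 3) (En := eng) (mo := mog) (C1 := cd2q0) (C2 := cd2q1) (C3 := pd1)
    rfl (fun _ => rfl) k0_pm_011

noncomputable def f_pm_012 : ℕ → ℕ → ℕ → ℕ → Bool := onCell 1073741824 536870912 536870912 536870912 587336777 62277027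
    (rowB 3 eng mog cd2q0 cd2q1 pd2 2 true true false .pnp 0 1 2 (qsf 0 536870912 536870912 536870912 2) ndB2q0 ndB2q1 pcB2 Cut.none Ext.none)

def k0_pm_012 : ∃ t, chk3 f_pm_012 t 4 1 1 = true :=
  ⟨(a (l 3) (b (l 3) (a (l 3) (b (l 3) (b (a (l 3) (b (l 3) (a (l 3) (l 16652416)))) (a (b (l 3) (a (l 3) (l 16640120))) (b (a (l 16645472) (a (l 16637368) (l 16631936))) (a (b (l 16633120) (l 16624992)) (b (l 16622040) (l 16614016)))))))))), by decide +kernel⟩

def k1_pm_012 : ∃ t, chk3 f_pm_012 t 5 1 1 = true :=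
  ⟨(a (a (a (b (l 3) (b (a (l 3) (b (l 3) (b (l 16685712) (a (l 16671480) (l 16667512))))) (b (a (b (l 16681480) (a (l 16644752) (l 16639664))) (b (a (l 16653568) (l 16649696)) (a (l 16635304) (l 16631464)))) (b (a (a (l 16626736) (l 16621848)) (a (l 16617264) (l 16612624))) (a (b (l 16611368) (l 16603008)) (b (l 16601008) (l 16592232))))))) (b (b (l 2) (a (b (l 3) (l 3)) (a (b (l 16730408) (a (l 16717704) (l 16717000))) (b (a (l 16729480) (l 16728872)) (a (b (l 16720120) (l 16711848)) (l 16714904)))))) (a (b (b (a (l 16701440) (b (l 16704976) (l 16692944))) (a (b (l 16680824) (l 16664360)) (b (l 16678512) (l 16661904)))) (b (b (a (l 16646512) (l 16643336)) (a (l 16627640) (l 16623088))) (b (a (l 16607688) (l 16602360)) (a (l 16588672) (l 16583352))))) (b (a (b (a (l 16697904) (l 16696992)) (b (l 16676096) (l 16658416))) (b (a (b (l 16701392) (l 16688416)) (b (l 16699480) (b (l 16689464) (c (l 16690392) (l 16694904))))) (a (b (l 16672672) (l 16654136))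 (a (a (a (l 16661080) (b (l 16668768) (l 16649136))) (l 16658352)) (l 16657744))))) (a (b (b (l 16638544) (l 16617288)) (b (l 16596544) (l 16578016))) (b (a (b (l 16632984) (l 16611664)) (a (a (a (l 16619552) (a (l 16618720) (b (l 16627640) (l 16607640)))) (l 16617312)) (l 16616552))) (a (b (l 16612816) (l 16573912)) (b (l 16588384) (l 16570944))))))))) (b (b (l 2) (b (l 16724528) (l 16707504))) (b (b (l 16682304) (l 16645064)) (b (b (l 16611168) (l 16589456)) (b (l 16568976) (l 16549840)))))) (b (b (l 2) (b (l 16717784) (l 16694504))) (b (b (l 16661320) (a (l 16624168) (l 16608136))) (b (b (l 16574352) (l 16547352)) (b (l 16521288) (l 16496880)))))), by decide +kernel⟩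

def k2_pm_012 : ∃ t, chk3 f_pm_012 t 3 1 1 = true :=
  ⟨(b (a (b (l 2) (a (l 16751200) (l 2))) (l 2)) (a (b (b (a (l 16650248) (l 16659528)) (a (l 16593480) (l 16592352))) (b (a (l 16546768) (l 16510904)) (a (b (l 16474024) (l 16441344)) (l 16423304)))) (b (b (l 2) (l 16632736)) (b (a (l 16519112) (l 16552272)) (a (l 16414992) (l 16441576)))))), by decide +kernel⟩

theorem s3_pm_012 : ∃ t, chk3 f_pm_012 t 2 1 1 = true := ex3_a k0_pm_012 k1_pm_012

theorem s4_pm_012 : ∃ t, chk3 f_pm_012 t 1 1 1 = true := ex3_a s3_pm_012 k2_pm_012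

theorem c_pm_012 : CertB 0 536870912 536870912 536870912 587336777 62277027 3 eng mog cd2q0 cd2q1 pd2 true true false .pnp 0 1 2
    ndB2q0 ndB2q1 pcB2 Cut.none Ext.none :=
  certB2 (fam := true) (s1 := true) (s2 := false) (a := 0) (b := 1) (c := 2) (cn := .pnp) (n1 := ndB2q0) (n2 := ndB2q1) (pc := pcB2) (cut := Cut.none) (xt := Ext.none) (P1 := 0) (W1 := 536870912) (P2 := 536870912) (W2 := 536870912) (P3 := 587336777) (W3 := 62277027) (N0 := 3) (En := eng) (mo := mog) (C1 := cd2q0) (C2 := cd2q1) (C3 := pd2)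
    rfl (fun _ => rfl) s4_pm_012

noncomputable def cut_pm_022_a : Cut := Cut.of [[⟨0, 0, 0, 67108864⟩, ⟨1, 1, 0, 67108864⟩, ⟨2, 1, 0, 67108864⟩]]

noncomputable def f_pm_022_a : ℕ → ℕ → ℕ → ℕ → Bool := onCell 1073741824 536870912 0 536870912 587336777 62277027
    (rowB 3 eng mog cd2q0 cd2q2a pd2 2 true true false .pp 0 2 2 (qsf 0 536870912 0 536870912 2) ndB2q0 ndB2q2a pcB2 cut_pm_022_a Ext.none)

def k0_pm_022_a : ∃ t, chk3 f_pm_022_a t 2 2 1 = true :=
  ⟨(a (a (l 1) (b (l 1) (a (l 1) (b (l 1) (a (l 1) (b (l 1) (a (l 1) (c (l 16520480) (l 161094279639))))))))) (a (a (a (b (l 1) (b (b (l 99890954087) (a (l 1) (l 16486472))) (b (a (l 162168014087) (l 16499568)) (a (l 187937855303) (l 16514040))))) (b (b (l 16453720) (b (l 16459824) (l 16466928))) (a (b (b (l 16475752) (l 16486776)) (b (l 16499344) (l 16513184))) (b (a (b (l 16476088) (l 16486784)) (a (b (l 16476184) (l 16486704)) (b (l 16476224) (l 16486632)))) (a (l 16505936) (a (l 16505560) (b (l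 16498496) (l 16511488)))))))) (b (a (b (a (l 16455880) (l 16446432)) (a (l 16464752) (c (l 16466560) (l 16462408)))) (b (l 16458832) (l 16466080))) (b (a (c (l 16519424) (b (l 16473304) (l 16483416))) (l 16480536)) (a (b (l 16497320) (l 16509664)) (l 16500776))))) (b (b (a (l 16442616) (l 16470760)) (a (b (l 16466528) (l 16470912)) (l 16473656))) (b (a (l 16501544) (l 16481600)) (a (l 16496944) (l 16492720)))))), by decide +kernel⟩

def k1_pm_022_a : ∃ t, chk3 f_pm_022_a t 4 3 1 = true :=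
  ⟨(a (b (l 1) (b (a (l 1) (b (a (l 1) (a (l 1) (b (l 1) (b (l 132640397207) (a (l 6) (l 16646368)))))) (a (l 6) (a (l 6) (a (l 6) (b (l 16656080) (l 16647920))))))) (a (l 6) (a (l 6) (a (l 6) (b (b (l 16682864) (l 16692584)) (b (l 16698808) (l 16704384)))))))) (b (b (a (l 1) (a (b (a (l 1) (l 97206690775)) (a (b (l 1) (l 150893829639)) (b (l 182032320327) (l 16557824)))) (b (a (b (l 143914443127) (l 16537216)) (b (l 16527456) (l 16536224))) (a (b (l 16546616) (l 16556192)) (l 16549848))))) (a (b (a (l 1) (a (b (l 1) (l 103112370231)) (b (l 122976565511) (l 183643006903)))) (a (a (l 1) (b (l 89690627127) (l 176663746775))) (a (b (l 158410105223) (l 16608640)) (b (l 16594200) (l 16605584))))) (b (a (a (b (l 195454141751) (l 16580672)) (l 16573240)) (a (l 16570864) (l 16547272))) (a (b (l 16590072) (a (l 16602328) (l 16598816))) (l 16588504))))) (b (a (b (a (b (a (a (l 135861589735) (l 16621200)) (l 16624000)) (a (b (l 16637032) (l 16643472)) (l 16636432)))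 (b (l 16624016) (a (l 16632376) (l 16628096)))) (a (b (a (l 16652872) (l 16648432)) (a (l 16665240) (l 16660208))) (l 16709864))) (a (b (l 16658200) (l 16633360)) (a (l 16658864) (l 16652640)))) (a (b (a (b (l 16673528) (l 16680096)) (b (l 16657848) (l 16664176))) (b (a (l 16686168) (l 16670024)) (a (l 16691600) (l 16675256)))) (b (a (b (l 16643112) (l 16649184)) (l 16632424)) (a (l 16678416) (l 16643072))))))), by decide +kernel⟩

def k2_pm_022_a : ∃ t, chk3 f_pm_022_a t 5 3 1 = true :=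
  ⟨(a (b (a (a (b (b (a (l 16530880) (l 16529568)) (a (l 16547944) (l 16545776))) (b (l 16563824) (l 16580512))) (b (a (b (l 16527968) (l 16543328)) (a (l 16534312) (a (l 16533392) (l 16532768)))) (a (l 16566776) (a (l 16563600) (l 16624384))))) (b (a (l 16529720) (l 16523936)) (l 16615480))) (a (a (b (b (l 16594832) (l 16607816)) (b (l 16619528) (l 16671512))) (b (a (l 16593568) (a (l 16589616) (b (l 16580592) (l 16571544)))) (a (b (l 16610416) (l 16620000)) (a (b (l 16606048) (l 16615448)) (b (a (l 16603920) (l 16602536)) (a (l 16613240) (l 16611784))))))) (b (b (l 16570024) (a (l 16585984) (l 16576520))) (b (a (l 16596520) (l 16586776)) (a (l 16605448) (l 16595040)))))) (b (b (a (l 16515880) (l 16505632)) (a (l 16537816) (l 16527424))) (b (b (l 16553200) (l 16578688)) (b (l 16607920) (a (l 16580752) (l 16564536)))))), by decide +kernel⟩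

def k3_pm_022_a : ∃ t, chk3 f_pm_022_a t 3 1 1 = true :=
  ⟨(a (b (a (b (b (a (l 16478352) (l 16486384)) (a (l 16478952) (l 16484904))) (b (a (l 16483584) (l 16485832)) (l 16624840))) (a (b (b (l 16493608) (l 16489728)) (b (l 16486160) (l 16494968))) (b (l 16539088) (l 16514096)))) (b (a (b (l 16545504) (l 16521856)) (b (a (l 16510808) (l 16509752)) (a (l 16523192) (l 16520920)))) (a (b (a (l 16539208) (l 16533680)) (a (l 16550336) (l 16541488))) (b (l 16654320) (a (l 16535824) (l 16527968)))))) (b (b (a (b (l 16539744) (l 16527328)) (b (l 16575856) (l 16556704))) (a (b (l 16511328) (l 16498064)) (l 16531984))) (b (a (b (l 16508144) (l 16517760)) (l 16554712)) (a (b (l 16520960) (l 16521832)) (b (l 16519128) (l 16523504)))))), by decide +kernel⟩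

theorem s4_pm_022_a : ∃ t, chk3 f_pm_022_a t 2 3 1 = true := ex3_a k1_pm_022_a k2_pm_022_a

theorem s5_pm_022_a : ∃ t, chk3 f_pm_022_a t 2 1 1 = true := ex3_b k0_pm_022_a s4_pm_022_a

theorem s6_pm_022_a : ∃ t, chk3 f_pm_022_a t 1 1 1 = true := ex3_a s5_pm_022_a k3_pm_022_a

theorem c_pm_022_a : CertB 0 536870912 0 536870912 587336777 62277027 3 eng mog cd2q0 cd2q2a pd2 true true false .pp 0 2 2
    ndB2q0 ndB2q2a pcB2 cut_pm_022_a Ext.none :=
  certB2 (fam := true) (s1 := true) (s2 := false) (a := 0) (b := 2) (c := 2) (cn := .pp) (n1 := ndB2q0) (n2 := ndB2q2a) (pc := pcB2) (cut := cut_pm_022_a) (xt := Ext.none) (P1 := 0) (W1 := 536870912) (P2 := 0) (W2 := 536870912) (P3 := 587336777) (W3 := 62277027) (N0 := 3) (En := eng) (mo := mog) (C1 := cd2q0) (C2 := cd2q2a) (C3 := pd2)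
    rfl (fun _ => rfl) s6_pm_022_a

noncomputable def cut_pm_022_b : Cut := Cut.of [[⟨0, 0, 0, 67108864⟩, ⟨1, 1, 0, 67108864⟩, ⟨2, 1, 0, 67108864⟩]]

noncomputable def f_pm_022_b : ℕ → ℕ → ℕ → ℕ → Bool := onCell 1073741824 536870912 1239849684 370763052 587336777 62277027
    (rowB 3 eng mog cd2q0 cd2q2b pd2 2 true true false .pp 0 2 2 (qsf 0 536870912 1239849684 370763052 2) ndB2q0 ndB2q2b pcB2 cut_pm_022_b Ext.none)

def k0_pm_022_b : ∃ t, chk3 f_pm_022_b t 1 1 1 = true :=
  ⟨(a (b (a (l 1) (a (b (b (a (a (l 1) (b (l 16427576) (l 1))) (a (b (c (l 63383664055) (l 16427592)) (l 1)) (b (c (l 16437312) (l 16431984)) (l 16388712)))) (l 1)) (l 1)) (b (b (a (b (a (l 16439680) (l 16444432)) (l 26876324183)) (b (l 16451976) (l 16411608))) (a (b (l 16352400) (l 1)) (b (l 16369192) (l 16325120)))) (b (a (l 1) (b (l 16279816) (l 1))) (l 1))))) (l 1)) (b (a (a (b (b (a (l 16444328) (l 16503984)) (a (l 16366520) (l 16385496))) (b (a (b (l 16303376) (l 16259824))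 (l 16307112)) (a (l 1) (l 16223728)))) (b (a (b (a (l 16465832) (l 16474248)) (l 16405336)) (b (l 16493512) (l 16436120))) (a (b (l 16333080) (l 16255256)) (l 16334952)))) (a (b (b (l 16553112) (l 16487608)) (a (l 16378032) (l 16421488))) (b (b (l 16580392) (l 16551888)) (l 16548072)))) (a (b (a (l 1) (a (b (l 104185444551) (l 1)) (b (l 16223736) (l 16148120)))) (l 1)) (a (b (a (l 53719686119) (l 16298816)) (a (l 1) (l 283500344279))) (b (l 16379568) (l 166462768711)))))), by decide +kernel⟩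

theorem c_pm_022_b : CertB 0 536870912 1239849684 370763052 587336777 62277027 3 eng mog cd2q0 cd2q2b pd2 true true false .pp 0 2 2
    ndB2q0 ndB2q2b pcB2 cut_pm_022_b Ext.none :=
  certB2 (fam := true) (s1 := true) (s2 := false) (a := 0) (b := 2) (c := 2) (cn := .pp) (n1 := ndB2q0) (n2 := ndB2q2b) (pc := pcB2) (cut := cut_pm_022_b) (xt := Ext.none) (P1 := 0) (W1 := 536870912) (P2 := 1239849684) (W2 := 370763052) (P3 := 587336777) (W3 := 62277027) (N0 := 3) (En := eng) (mo := mog) (C1 := cd2q0) (C2 := cd2q2b) (C3 := pd2)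
    rfl (fun _ => rfl) k0_pm_022_b

noncomputable def f_pm_023_a : ℕ → ℕ → ℕ → ℕ → Bool := onCell 1610612736 536870912 0 536870912 587336777 62277027
    (rowB 3 eng mog cd2q0 cd2q2a pd3 2 true true false .up 0 2 3 (qsf 0 536870912 0 536870912 3) ndB2q0 ndB2q2a pcB3 Cut.none Ext.none)

def k0_pm_023_a : ∃ t, chk3 f_pm_023_a t 1 1 1 = true :=
  ⟨(a (b (a (a (a (b (b (l 16589272) (l 16562104)) (a (l 16527872) (l 16571944))) (b (l 16619400) (l 16611832))) (b (a (l 16665768) (l 16707120)) (l 16670392))) (a (b (l 16761368) (l 16850064)) (l 2))) (b (a (a (a (a (l 16495784) (l 16584648)) (l 16623968)) (l 16670376)) (l 2)) (a (a (a (a (b (l 16494520) (l 16519272)) (b (l 16595520) (l 16614840))) (l 16651336)) (a (l 16678896) (l 2))) (l 2)))) (l 2)), by decide +kernel⟩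

theorem c_pm_023_a : CertB 0 536870912 0 536870912 587336777 62277027 3 eng mog cd2q0 cd2q2a pd3 true true false .up 0 2 3
    ndB2q0 ndB2q2a pcB3 Cut.none Ext.none :=
  certB2 (fam := true) (s1 := true) (s2 := false) (a := 0) (b := 2) (c := 3) (cn := .up) (n1 := ndB2q0) (n2 := ndB2q2a) (pc := pcB3) (cut := Cut.none) (xt := Ext.none) (P1 := 0) (W1 := 536870912) (P2 := 0) (W2 := 536870912) (P3 := 587336777) (W3 := 62277027) (N0 := 3) (En := eng) (mo := mog) (C1 := cd2q0) (C2 := cd2q2a) (C3 := pd3)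
    rfl (fun _ => rfl) k0_pm_023_a

noncomputable def f_pm_023_b : ℕ → ℕ → ℕ → ℕ → Bool := onCell 1610612736 536870912 1239849684 370763052 587336777 62277027
    (rowB 3 eng mog cd2q0 cd2q2b pd3 2 true true false .up 0 2 3 (qsf 0 536870912 1239849684 370763052 3) ndB2q0 ndB2q2b pcB3 Cut.none Ext.none)

def k0_pm_023_b : ∃ t, chk3 f_pm_023_b t 1 1 1 = true :=
  ⟨(a (a (a (b (b (b (l 16667456) (l 16595320)) (l 16549576)) (b (l 16464640) (a (l 16358168) (l 16382344)))) (b (b (a (l 16599296) (l 16642040)) (l 16593616)) (b (l 16525320) (l 16438936)))) (a (a (b (l 16745016) (l 16545344)) (b (l 16764000) (l 16594136))) (b (b (l 16869312) (l 16715736)) (l 417383710791)))) (a (l 4) (l 4))), by decide +kernel⟩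

theorem c_pm_023_b : CertB 0 536870912 1239849684 370763052 587336777 62277027 3 eng mog cd2q0 cd2q2b pd3 true true false .up 0 2 3
    ndB2q0 ndB2q2b pcB3 Cut.none Ext.none :=
  certB2 (fam := true) (s1 := true) (s2 := false) (a := 0) (b := 2) (c := 3) (cn := .up) (n1 := ndB2q0) (n2 := ndB2q2b) (pc := pcB3) (cut := Cut.none) (xt := Ext.none) (P1 := 0) (W1 := 536870912) (P2 := 1239849684) (W2 := 370763052) (P3 := 587336777) (W3 := 62277027) (N0 := 3) (En := eng) (mo := mog) (C1 := cd2q0) (C2 := cd2q2b) (C3 := pd3)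
    rfl (fun _ => rfl) k0_pm_023_b

noncomputable def f_pm_033 : ℕ → ℕ → ℕ → ℕ → Bool := onCell 0 536870912 1610612736 536870912 587336777 62277027
    (rowB 3 eng mog cd2q0 cd2q3 pd3 1 true true false .pnn 0 3 3 (qsf 0 536870912 1610612736 536870912 3) ndB2q0 ndB2q3 pcB3 Cut.none Ext.none)

def k0_pm_033 : ∃ t, chk3 f_pm_033 t 1 1 1 = true :=
  ⟨(b (b (a (b (a (b (l 16333592) (l 16314920)) (l 1)) (a (l 16307896) (l 16470480))) (l 1)) (a (b (a (l 16402400) (l 16498008)) (a (l 16698136) (l 4))) (b (l 1) (a (l 16662360) (l 1))))) (l 4)), by decide +kernel⟩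

theorem c_pm_033 : CertB 0 536870912 1610612736 536870912 587336777 62277027 3 eng mog cd2q0 cd2q3 pd3 true true false .pnn 0 3 3
    ndB2q0 ndB2q3 pcB3 Cut.none Ext.none :=
  certB1 (fam := true) (s1 := true) (s2 := false) (a := 0) (b := 3) (c := 3) (cn := .pnn) (n1 := ndB2q0) (n2 := ndB2q3) (pc := pcB3) (cut := Cut.none) (xt := Ext.none) (P1 := 0) (W1 := 536870912) (P2 := 1610612736) (W2 := 536870912) (P3 := 587336777) (W3 := 62277027) (N0 := 3) (En := eng) (mo := mog) (C1 := cd2q0) (C2 := cd2q3) (C3 := pd3)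
    rfl (fun _ => rfl) k0_pm_033

noncomputable def f_pm_101 : ℕ → ℕ → ℕ → ℕ → Bool := onCell 536870912 536870912 0 536870912 587336777 62277027
    (rowB 3 eng mog cd2q1 cd2q0 pd1 2 true true false .npn 1 0 1 (qsf 536870912 536870912 0 536870912 1) ndB2q1 ndB2q0 pcB1 Cut.none Ext.none)

def k0_pm_101 : ∃ t, chk3 f_pm_101 t 1 1 1 = true :=
  ⟨(l 3), by decide +kernel⟩

theorem c_pm_101 : CertB 536870912 536870912 0 536870912 587336777 62277027 3 eng mog cd2q1 cd2q0 pd1 true true false .npn 1 0 1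
    ndB2q1 ndB2q0 pcB1 Cut.none Ext.none :=
  certB2 (fam := true) (s1 := true) (s2 := false) (a := 1) (b := 0) (c := 1) (cn := .npn) (n1 := ndB2q1) (n2 := ndB2q0) (pc := pcB1) (cut := Cut.none) (xt := Ext.none) (P1 := 536870912) (W1 := 536870912) (P2 := 0) (W2 := 536870912) (P3 := 587336777) (W3 := 62277027) (N0 := 3) (En := eng) (mo := mog) (C1 := cd2q1) (C2 := cd2q0) (C3 := pd1)
    rfl (fun _ => rfl) k0_pm_101

noncomputable def f_pm_102 : ℕ → ℕ → ℕ → ℕ → Bool := onCell 536870912 536870912 1073741824 536870912 587336777 62277027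
    (rowB 3 eng mog cd2q1 cd2q0 pd2 1 true true false .npp 1 0 2 (qsf 536870912 536870912 0 536870912 2) ndB2q1 ndB2q0 pcB2 Cut.none Ext.none)

def k0_pm_102 : ∃ t, chk3 f_pm_102 t 1 4 1 = true :=
  ⟨(b (l 3) (a (l 3) (b (l 3) (a (l 3) (a (b (l 3) (a (l 3) (b (l 3) (l 16652416)))) (b (a (l 3) (b (l 3) (l 16640120))) (a (b (l 16645472) (b (l 16637368) (l 16631936))) (b (a (l 16633120) (l 16624992)) (a (l 16622040) (l 16614016)))))))))), by decide +kernel⟩

def k1_pm_102 : ∃ t, chk3 f_pm_102 t 1 5 1 = true :=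
  ⟨(b (b (b (a (l 3) (a (b (l 3) (a (l 3) (a (l 16685712) (b (l 16671480) (l 16667512))))) (a (b (a (l 16681480) (b (l 16644752) (l 16639664))) (a (b (l 16653568) (l 16649696)) (b (l 16635304) (l 16631464)))) (a (b (b (l 16626736) (l 16621848)) (b (l 16617264) (l 16612624))) (b (a (l 16611368) (l 16603008)) (a (l 16601008) (l 16592232))))))) (a (a (l 2) (b (a (l 3) (l 3)) (b (a (l 16730408) (b (l 16717704) (l 16717000))) (a (b (l 16729480) (l 16728872)) (b (a (l 16720120) (l 16711848)) (l 16714904)))))) (b (a (a (b (l 16701440) (a (l 16704976) (l 16692944))) (b (a (l 16680824) (l 16664360)) (a (l 16678512) (l 16661904)))) (a (a (b (l 16646512) (l 16643336)) (b (l 16627640) (l 16623088))) (a (b (l 16607688) (l 16602360)) (b (l 16588672) (l 16583352))))) (a (b (a (b (l 16697904) (l 16696992)) (a (l 16676096) (l 16658416))) (a (b (a (l 16701392) (l 16688416)) (a (l 16699480) (a (l 16689464) (c (l 16690392) (l 16694904))))) (b (a (l 16672672) (l 16654136))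 (b (b (b (l 16661080) (a (l 16668768) (l 16649136))) (l 16658352)) (l 16657744))))) (b (a (a (l 16638544) (l 16617288)) (a (l 16596544) (l 16578016))) (a (b (a (l 16632984) (l 16611664)) (b (b (b (l 16619552) (a (l 16669920) (a (l 16633472) (l 16602912)))) (l 16617312)) (l 16616552))) (b (a (l 16612816) (l 16573912)) (a (l 16588384) (l 16570944))))))))) (a (a (l 2) (a (l 16724528) (l 16707504))) (a (a (l 16682304) (l 16645064)) (a (a (l 16611168) (l 16589456)) (a (l 16568976) (l 16549840)))))) (a (a (l 2) (a (l 16717784) (l 16694504))) (a (a (l 16661320) (b (l 16624168) (l 16608136))) (a (a (l 16574352) (l 16547352)) (a (l 16521288) (l 16496880)))))), by decide +kernel⟩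

def k2_pm_102 : ∃ t, chk3 f_pm_102 t 1 3 1 = true :=
  ⟨(a (b (a (l 2) (b (l 16751200) (l 2))) (l 2)) (b (a (a (b (l 16650248) (l 16659528)) (b (l 16593480) (l 16592352))) (a (b (l 16546768) (l 16510904)) (b (a (l 16474024) (l 16441344)) (l 16423304)))) (a (a (l 2) (l 16632736)) (a (b (l 16519112) (l 16552272)) (b (l 16414992) (l 16441576)))))), by decide +kernel⟩

theorem s3_pm_102 : ∃ t, chk3 f_pm_102 t 1 2 1 = true := ex3_b k0_pm_102 k1_pm_102

theorem s4_pm_102 : ∃ t, chk3 f_pm_102 t 1 1 1 = true := ex3_b s3_pm_102 k2_pm_102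

theorem c_pm_102 : CertB 536870912 536870912 0 536870912 587336777 62277027 3 eng mog cd2q1 cd2q0 pd2 true true false .npp 1 0 2
    ndB2q1 ndB2q0 pcB2 Cut.none Ext.none :=
  certB1 (fam := true) (s1 := true) (s2 := false) (a := 1) (b := 0) (c := 2) (cn := .npp) (n1 := ndB2q1) (n2 := ndB2q0) (pc := pcB2) (cut := Cut.none) (xt := Ext.none) (P1 := 536870912) (W1 := 536870912) (P2 := 0) (W2 := 536870912) (P3 := 587336777) (W3 := 62277027) (N0 := 3) (En := eng) (mo := mog) (C1 := cd2q1) (C2 := cd2q0) (C3 := pd2)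
    rfl (fun _ => rfl) s4_pm_102

noncomputable def f_pm_112 : ℕ → ℕ → ℕ → ℕ → Bool := onCell 536870912 536870912 1073741824 536870912 587336777 62277027
    (rowB 3 eng mog cd2q1 cd2q1 pd2 1 true true false .dn 1 1 2 (qsf 536870912 536870912 536870912 536870912 2) ndB2q1 ndB2q1 pcB2 Cut.none Ext.none)

def k0_pm_112 : ∃ t, chk3 f_pm_112 t 1 1 1 = true :=
  ⟨(a (b (b (l 3) (b (b (b (l 3) (a (b (l 3) (b (l 3) (b (a (l 16719240) (l 16721264)) (l 16720992)))) (a (b (l 3) (b (l 16714824) (b (l 124050781191) (l 16714136)))) (l 1)))) (a (l 16843464) (a (l 16712080) (l 16697592)))) (a (a (l 16703192) (l 16712920)) (a (l 16709392) (l 16693920))))) (b (a (b (a (l 16686552) (l 16711784)) (l 16692008)) (b (l 16732696) (l 16740848))) (a (b (a (l 16631896) (l 16716824)) (a (l 16591008) (l 16711200))) (a (l 16801528) (l 16834944))))) (b (b (l 1) (b (l 1) (a (a (l 263100216807) (l 1)) (l 1)))) (b (a (a (l 132640782903) (l 216929433831)) (b (l 1) (l 235182912023)))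 (a (a (l 16801080) (l 16715232)) (a (l 118681861703) (l 91301324295)))))), by decide +kernel⟩

theorem c_pm_112 : CertB 536870912 536870912 536870912 536870912 587336777 62277027 3 eng mog cd2q1 cd2q1 pd2 true true false .dn 1 1 2
    ndB2q1 ndB2q1 pcB2 Cut.none Ext.none :=
  certB1 (fam := true) (s1 := true) (s2 := false) (a := 1) (b := 1) (c := 2) (cn := .dn) (n1 := ndB2q1) (n2 := ndB2q1) (pc := pcB2) (cut := Cut.none) (xt := Ext.none) (P1 := 536870912) (W1 := 536870912) (P2 := 536870912) (W2 := 536870912) (P3 := 587336777) (W3 := 62277027) (N0 := 3) (En := eng) (mo := mog) (C1 := cd2q1) (C2 := cd2q1) (C3 := pd2)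
    rfl (fun _ => rfl) k0_pm_112

noncomputable def f_pm_113 : ℕ → ℕ → ℕ → ℕ → Bool := onCell 536870912 536870912 536870912 536870912 587336777 62277027
    (rowB 3 eng mog cd2q1 cd2q1 pd3 0 true true false .nn 1 1 3 (qsf 536870912 536870912 536870912 536870912 3) ndB2q1 ndB2q1 pcB3 Cut.none Ext.none)

def k0_pm_113 : ∃ t, chk3 f_pm_113 t 1 1 1 = true :=
  ⟨(a (b (b (l 1) (a (l 1) (l 16763896))) (b (a (l 166463646487) (l 16917736)) (a (b (l 16692624) (l 16704680)) (b (l 16953800) (l 16909544))))) (b (a (b (l 166463646487) (l 16917736)) (b (a (l 16692624) (l 16704680)) (a (l 16953800) (l 16909544)))) (a (b (l 17179400) (a (l 16986576) (l 16988600))) (b (b (l 16986576) (l 16988600)) (a (b (l 17015136) (l 16917408)) (b (l 16917408) (a (l 16878232) (b (l 16854336) (a (l 16829152) (b (l 16817264) (b (l 16803480) (a (l 16797576) (b (l 16790416) (a (l 16787472) (b (l 16783832) (l 16885984)))))))))))))))), by decide +kernel⟩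

theorem c_pm_113 : CertB 536870912 536870912 536870912 536870912 587336777 62277027 3 eng mog cd2q1 cd2q1 pd3 true true false .nn 1 1 3
    ndB2q1 ndB2q1 pcB3 Cut.none Ext.none :=
  certB0 (fam := true) (s1 := true) (s2 := false) (a := 1) (b := 1) (c := 3) (cn := .nn) (n1 := ndB2q1) (n2 := ndB2q1) (pc := pcB3) (cut := Cut.none) (xt := Ext.none) (P1 := 536870912) (W1 := 536870912) (P2 := 536870912) (W2 := 536870912) (P3 := 587336777) (W3 := 62277027) (N0 := 3) (En := eng) (mo := mog) (C1 := cd2q1) (C2 := cd2q1) (C3 := pd3)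
    rfl k0_pm_113

noncomputable def f_pm_123_a : ℕ → ℕ → ℕ → ℕ → Bool := onCell 1610612736 536870912 0 536870912 587336777 62277027
    (rowB 3 eng mog cd2q1 cd2q2a pd3 2 true true false .npn 1 2 3 (qsf 536870912 536870912 0 536870912 3) ndB2q1 ndB2q2a pcB3 Cut.none Ext.none)

def k0_pm_123_a : ∃ t, chk3 f_pm_123_a t 1 1 1 = true :=
  ⟨(b (a (a (a (l 1) (b (l 1) (l 16782816))) (a (b (l 16830440) (l 16906208)) (b (l 16797136) (l 16894464)))) (a (a (a (l 16792920) (l 75397165735)) (a (l 81839660247) (l 108146066535))) (l 4))) (b (a (a (a (l 1) (l 16780488)) (a (b (l 16863184) (l 16863648)) (a (l 16894008) (l 16901528)))) (a (a (a (l 16904560) (l 16898608)) (a (l 16855976) (l 16816856))) (a (a (l 16782648) (l 16752000)) (l 4)))) (a (a (a (a (b (l 1) (a (l 16632072) (l 16727328))) (l 16764472)) (a (l 16806872) (b (l 16831872) (l 16867640)))) (a (a (b (l 16860408) (l 16890704)) (l 16906080)) (a (l 16885192) (l 16938968)))) (a (a (l 17000216) (a (l 16921632)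 (l 16962976))) (a (a (l 17046520) (a (l 16827808) (l 16808312))) (a (b (l 16767496) (l 16941824)) (a (l 87208256711) (l 4)))))))), by decide +kernel⟩

theorem c_pm_123_a : CertB 536870912 536870912 0 536870912 587336777 62277027 3 eng mog cd2q1 cd2q2a pd3 true true false .npn 1 2 3
    ndB2q1 ndB2q2a pcB3 Cut.none Ext.none :=
  certB2 (fam := true) (s1 := true) (s2 := false) (a := 1) (b := 2) (c := 3) (cn := .npn) (n1 := ndB2q1) (n2 := ndB2q2a) (pc := pcB3) (cut := Cut.none) (xt := Ext.none) (P1 := 536870912) (W1 := 536870912) (P2 := 0) (W2 := 536870912) (P3 := 587336777) (W3 := 62277027) (N0 := 3) (En := eng) (mo := mog) (C1 := cd2q1) (C2 := cd2q2a) (C3 := pd3)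
    rfl (fun _ => rfl) k0_pm_123_a

noncomputable def f_pm_123_b : ℕ → ℕ → ℕ → ℕ → Bool := onCell 1610612736 536870912 1239849684 370763052 587336777 62277027
    (rowB 3 eng mog cd2q1 cd2q2b pd3 2 true true false .npn 1 2 3 (qsf 536870912 536870912 1239849684 370763052 3) ndB2q1 ndB2q2b pcB3 Cut.none Ext.none)

def k0_pm_123_b : ∃ t, chk3 f_pm_123_b t 1 1 1 = true :=
  ⟨(a (a (l 1) (b (a (l 117071935031) (b (l 16823848) (l 16756120))) (l 1))) (a (l 4) (l 4))), by decide +kernel⟩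

theorem c_pm_123_b : CertB 536870912 536870912 1239849684 370763052 587336777 62277027 3 eng mog cd2q1 cd2q2b pd3 true true false .npn 1 2 3
    ndB2q1 ndB2q2b pcB3 Cut.none Ext.none :=
  certB2 (fam := true) (s1 := true) (s2 := false) (a := 1) (b := 2) (c := 3) (cn := .npn) (n1 := ndB2q1) (n2 := ndB2q2b) (pc := pcB3) (cut := Cut.none) (xt := Ext.none) (P1 := 536870912) (W1 := 536870912) (P2 := 1239849684) (W2 := 370763052) (P3 := 587336777) (W3 := 62277027) (N0 := 3) (En := eng) (mo := mog) (C1 := cd2q1) (C2 := cd2q2b) (C3 := pd3)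
    rfl (fun _ => rfl) k0_pm_123_b

noncomputable def f_pm_133 : ℕ → ℕ → ℕ → ℕ → Bool := onCell 536870912 536870912 1610612736 536870912 587336777 62277027
    (rowB 3 eng mog cd2q1 cd2q3 pd3 0 true true false .dn 1 3 3 (qsf 536870912 536870912 1610612736 536870912 3) ndB2q1 ndB2q3 pcB3 Cut.none Ext.none)

def k0_pm_133 : ∃ t, chk3 f_pm_133 t 1 1 1 = true :=
  ⟨(l 4), by decide +kernel⟩

theorem c_pm_133 : CertB 536870912 536870912 1610612736 536870912 587336777 62277027 3 eng mog cd2q1 cd2q3 pd3 true true false .dn 1 3 3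
    ndB2q1 ndB2q3 pcB3 Cut.none Ext.none :=
  certB0 (fam := true) (s1 := true) (s2 := false) (a := 1) (b := 3) (c := 3) (cn := .dn) (n1 := ndB2q1) (n2 := ndB2q3) (pc := pcB3) (cut := Cut.none) (xt := Ext.none) (P1 := 536870912) (W1 := 536870912) (P2 := 1610612736) (W2 := 536870912) (P3 := 587336777) (W3 := 62277027) (N0 := 3) (En := eng) (mo := mog) (C1 := cd2q1) (C2 := cd2q3) (C3 := pd3)
    rfl k0_pm_133

noncomputable def cut_pm_202_a : Cut := Cut.of [[⟨0, 1, 0, 67108864⟩, ⟨1, 0, 0, 67108864⟩, ⟨2, 1, 0, 67108864⟩]]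

noncomputable def f_pm_202_a : ℕ → ℕ → ℕ → ℕ → Bool := onCell 0 536870912 1073741824 536870912 587336777 62277027
    (rowB 3 eng mog cd2q2a cd2q0 pd2 1 true true false .pp 2 0 2 (qsf 0 536870912 0 536870912 2) ndB2q2a ndB2q0 pcB2 cut_pm_202_a Ext.none)

def k0_pm_202_a : ∃ t, chk3 f_pm_202_a t 2 1 1 = true :=
  ⟨(b (a (b (l 1) (b (b (b (l 1) (a (a (l 16452240) (l 16454880)) (a (l 16459824) (l 16466928)))) (b (a (c (l 16458352) (l 16453320)) (b (l 16464752) (c (l 16466560) (l 16462408)))) (a (l 16458832) (l 16466080)))) (b (a (l 16442616) (a (l 16466528) (l 16470912))) (a (l 16470760) (l 16473656))))) (b (b (l 1) (a (l 1) (b (l 1) (b (l 1) (a (l 1) (b (l 1) (a (l 16510720) (l 197064649639)))))))) (b (b (b (b (a (l 1) (a (c (l 16504816) (l 16493176)) (a (l 16510600) (l 16518472)))) (a (a (l 16475008) (l 16486472)) (a (l 16499568) (l 16514040)))) (b (a (a (l 16475752) (l 16486776)) (a (l 16499344) (l 16513184))) (a (b (a (l 16476088) (l 16486784)) (a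 (b (l 16476184) (l 16476224)) (b (l 16486704) (l 16486632)))) (b (l 16508552) (b (l 16505560) (a (l 16498496) (l 16511488))))))) (a (b (a (c (l 16477624) (l 16473304)) (c (l 16487232) (l 16483416))) (l 16480536)) (b (a (l 16497320) (l 16509664)) (l 16500776)))) (a (b (l 16501544) (l 16481600)) (b (l 16496944) (l 16492720)))))) (b (b (a (a (b (l 16478352) (l 16486384)) (b (l 16478952) (l 16484904))) (a (b (l 16483584) (l 16485832)) (l 16624840))) (b (a (a (l 16493608) (l 16489728)) (a (l 16486160) (l 16494968))) (a (l 16539088) (l 16514096)))) (a (b (a (l 16539744) (l 16527328)) (a (l 16575856) (l 16556704))) (b (a (l 16511328) (l 16498064)) (l 16531984))))), by decide +kernel⟩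

def k1_pm_202_a : ∃ t, chk3 f_pm_202_a t 3 4 1 = true :=
  ⟨(b (a (l 1) (a (b (l 1) (a (b (l 1) (b (l 1) (a (l 1) (a (b (l 1) (l 16639696)) (b (l 6) (l 16646368)))))) (b (l 6) (b (l 6) (b (l 6) (a (l 16656080) (l 16647920))))))) (b (l 6) (b (l 6) (b (l 6) (a (a (l 16682864) (l 16692584)) (a (l 16698808) (l 16704384)))))))) (a (a (b (l 1) (b (a (b (l 1) (a (l 1) (l 102038530855))) (b (a (l 1) (l 152504442375)) (a (l 182032320327) (l 16557824)))) (a (b (a (l 145525056199) (l 178811074375)) (a (l 16527456) (l 16536224))) (b (a (l 16546616) (l 16556192)) (l 16549848))))) (b (b (a (l 1) (b (l 1) (a (l 91838111111) (b (l 143377742087) (l 16605536))))) (a (b (a (l 1) (l 105259853879)) (a (l 125124049495) (l 183643006903))) (b (a (b (l 124050358519) (l 16596088)) (l 16608640)) (a (l 16594200) (l 16605584))))) (a (b (b (a (l 195454141751) (l 16580672)) (l 16573240)) (b (l 16570864) (l 16526304))) (b (a (l 16590072) (b (l 16602328) (l 16598816))) (l 16609472)))))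 (a (b (a (b (a (b (b (l 138009073223) (l 155725807207)) (l 221760940551)) (b (a (l 16637032) (l 16643472)) (l 16636432))) (a (b (l 16620568) (l 16616920)) (b (l 16632376) (l 16628096)))) (b (a (b (l 16652872) (l 16648432)) (b (l 16665240) (l 16660208))) (l 16709864))) (a (a (b (l 16611016) (l 16602248)) (l 16678960)) (b (l 16633360) (l 16620080)))) (b (a (b (a (l 16673528) (l 16680096)) (a (l 16657848) (l 16664176))) (a (b (l 16686168) (l 16670024)) (b (l 16691600) (l 16675256)))) (a (b (a (l 16643112) (l 16649184)) (l 16632424)) (b (l 16657440) (l 16643072))))))), by decide +kernel⟩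

def k2_pm_202_a : ∃ t, chk3 f_pm_202_a t 3 5 1 = true :=
  ⟨(b (a (b (b (a (a (b (l 16530880) (l 16529568)) (b (l 16547944) (l 16545776))) (a (l 16563824) (l 16580512))) (a (b (a (l 16527968) (l 16543328)) (b (l 16534312) (b (l 16533392) (l 16532768)))) (b (l 16566776) (b (l 16563600) (l 16624384))))) (a (b (l 16529720) (l 16523936)) (l 16625968))) (b (b (a (a (l 16594832) (l 16607816)) (a (l 16619528) (l 16650536))) (a (b (l 16593568) (b (l 16589616) (a (l 16580592) (l 16572192)))) (b (a (l 16610416) (l 16620000)) (b (a (l 16606048) (l 16615448)) (a (b (l 16603920) (l 16602536)) (b (l 16613240) (l 16611784))))))) (a (a (l 16570024) (b (l 16585984) (l 16576520))) (a (b (l 16596520) (l 16586776)) (b (l 16605448) (l 16595040)))))) (a (a (b (l 16515880) (l 16505632)) (b (l 16537816) (l 16527424))) (a (a (l 16547960) (l 16578688)) (a (l 16586952) (b (l 16580752) (l 16564536)))))), by decide +kernel⟩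

def k3_pm_202_a : ∃ t, chk3 f_pm_202_a t 3 3 1 = true :=
  ⟨(b (a (b (a (l 16566472) (l 16521856)) (a (b (l 16510808) (l 16509752)) (b (l 16523192) (l 16520920)))) (b (a (b (l 16539208) (l 16533680)) (b (l 16550336) (l 16541488))) (a (l 16654320) (b (l 16535824) (l 16527968))))) (a (b (a (l 16508144) (l 16517760)) (l 16554712)) (b (a (l 16520960) (l 16521832)) (a (l 16519128) (l 16523504))))), by decide +kernel⟩

theorem s4_pm_202_a : ∃ t, chk3 f_pm_202_a t 3 2 1 = true := ex3_b k1_pm_202_a k2_pm_202_a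

theorem s5_pm_202_a : ∃ t, chk3 f_pm_202_a t 3 1 1 = true := ex3_b s4_pm_202_a k3_pm_202_a

theorem s6_pm_202_a : ∃ t, chk3 f_pm_202_a t 1 1 1 = true := ex3_a k0_pm_202_a s5_pm_202_a

theorem c_pm_202_a : CertB 0 536870912 0 536870912 587336777 62277027 3 eng mog cd2q2a cd2q0 pd2 true true false .pp 2 0 2
    ndB2q2a ndB2q0 pcB2 cut_pm_202_a Ext.none :=
  certB1 (fam := true) (s1 := true) (s2 := false) (a := 2) (b := 0) (c := 2) (cn := .pp) (n1 := ndB2q2a) (n2 := ndB2q0) (pc := pcB2) (cut := cut_pm_202_a) (xt := Ext.none) (P1 := 0) (W1 := 536870912) (P2 := 0) (W2 := 536870912) (P3 := 587336777) (W3 := 62277027) (N0 := 3) (En := eng) (mo := mog) (C1 := cd2q2a) (C2 := cd2q0) (C3 := pd2)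
    rfl (fun _ => rfl) s6_pm_202_a

noncomputable def cut_pm_202_b : Cut := Cut.of [[⟨0, 1, 0, 67108864⟩, ⟨1, 0, 0, 67108864⟩, ⟨2, 1, 0, 67108864⟩]]

noncomputable def f_pm_202_b : ℕ → ℕ → ℕ → ℕ → Bool := onCell 1239849684 370763052 1073741824 536870912 587336777 62277027
    (rowB 3 eng mog cd2q2b cd2q0 pd2 1 true true false .pp 2 0 2 (qsf 1239849684 370763052 0 536870912 2) ndB2q2b ndB2q0 pcB2 cut_pm_202_b Ext.none)

def k0_pm_202_b : ∃ t, chk3 f_pm_202_b t 1 1 1 = true :=
  ⟨(b (a (b (l 1) (b (a (a (b (b (l 1) (a (l 16427576) (l 1))) (b (a (c (l 63383664055) (l 16448568)) (l 1)) (a (a (l 16446560) (l 16423752)) (l 16388712)))) (l 1)) (l 1)) (a (b (a (a (b (l 16439680) (l 16444432)) (b (l 16394856) (l 16401352))) (b (l 16324720) (a (l 16356408) (l 1)))) (a (a (l 16451976) (l 16411608)) (a (l 16369192) (l 16325120)))) (b (l 1) (a (b (l 1) (l 16263048)) (l 1)))))) (l 1)) (a (b (b (a (a (b (l 16444328) (l 16503984)) (b (l 16366520) (l 16385496))) (b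 (a (b (l 16275480) (l 16288080)) (l 1)) (a (l 16307112) (l 16223728)))) (a (b (a (b (l 16465832) (l 16474248)) (l 16405336)) (a (l 16493512) (l 16436120))) (b (a (l 16333080) (l 16255256)) (l 16334952)))) (b (a (a (l 16553112) (l 16487608)) (b (l 16378032) (l 16421488))) (a (a (l 16580392) (l 16551888)) (l 16548072)))) (b (a (b (l 1) (b (a (l 106332930823) (l 1)) (a (l 16223736) (l 16148120)))) (l 1)) (b (a (a (l 16303616) (l 168610065671)) (b (l 1) (l 285110960951))) (a (l 16379568) (l 166462773959)))))), by decide +kernel⟩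

theorem c_pm_202_b : CertB 1239849684 370763052 0 536870912 587336777 62277027 3 eng mog cd2q2b cd2q0 pd2 true true false .pp 2 0 2
    ndB2q2b ndB2q0 pcB2 cut_pm_202_b Ext.none :=
  certB1 (fam := true) (s1 := true) (s2 := false) (a := 2) (b := 0) (c := 2) (cn := .pp) (n1 := ndB2q2b) (n2 := ndB2q0) (pc := pcB2) (cut := cut_pm_202_b) (xt := Ext.none) (P1 := 1239849684) (W1 := 370763052) (P2 := 0) (W2 := 536870912) (P3 := 587336777) (W3 := 62277027) (N0 := 3) (En := eng) (mo := mog) (C1 := cd2q2b) (C2 := cd2q0) (C3 := pd2)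
    rfl (fun _ => rfl) k0_pm_202_b

noncomputable def f_pm_203_a : ℕ → ℕ → ℕ → ℕ → Bool := onCell 0 536870912 1610612736 536870912 587336777 62277027
    (rowB 3 eng mog cd2q2a cd2q0 pd3 1 true true false .up 2 0 3 (qsf 0 536870912 0 536870912 3) ndB2q2a ndB2q0 pcB3 Cut.none Ext.none)

def k0_pm_203_a : ∃ t, chk3 f_pm_203_a t 1 1 1 = true :=
  ⟨(b (a (b (b (b (a (a (l 16589272) (l 16562104)) (b (l 16527872) (l 16571944))) (a (l 16619400) (l 16611832))) (a (b (l 16665768) (l 16707120)) (l 16670392))) (b (a (l 16761368) (l 16850064)) (l 2))) (a (b (b (b (b (l 16495784) (l 16584648)) (l 16623968)) (l 16670376)) (l 2)) (b (b (b (b (a (l 16494520) (l 16519272)) (a (l 16595520) (l 16614840))) (l 16651336)) (b (l 16678896) (l 2))) (l 2)))) (l 2)), by decide +kernel⟩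

theorem c_pm_203_a : CertB 0 536870912 0 536870912 587336777 62277027 3 eng mog cd2q2a cd2q0 pd3 true true false .up 2 0 3
    ndB2q2a ndB2q0 pcB3 Cut.none Ext.none :=
  certB1 (fam := true) (s1 := true) (s2 := false) (a := 2) (b := 0) (c := 3) (cn := .up) (n1 := ndB2q2a) (n2 := ndB2q0) (pc := pcB3) (cut := Cut.none) (xt := Ext.none) (P1 := 0) (W1 := 536870912) (P2 := 0) (W2 := 536870912) (P3 := 587336777) (W3 := 62277027) (N0 := 3) (En := eng) (mo := mog) (C1 := cd2q2a) (C2 := cd2q0) (C3 := pd3)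
    rfl (fun _ => rfl) k0_pm_203_a

noncomputable def f_pm_203_b : ℕ → ℕ → ℕ → ℕ → Bool := onCell 1239849684 370763052 1610612736 536870912 587336777 62277027
    (rowB 3 eng mog cd2q2b cd2q0 pd3 1 true true false .up 2 0 3 (qsf 1239849684 370763052 0 536870912 3) ndB2q2b ndB2q0 pcB3 Cut.none Ext.none)

def k0_pm_203_b : ∃ t, chk3 f_pm_203_b t 1 1 1 = true :=
  ⟨(b (b (a (b (a (a (l 16667456) (l 16595320)) (l 16549576)) (a (b (l 16599296) (l 16642040)) (l 16593616))) (b (a (l 16464640) (b (l 16358168) (l 16382344))) (a (l 16525320) (l 16438936)))) (b (a (b (l 16745016) (l 16764000)) (a (l 16600560) (l 16537872))) (a (a (l 16869312) (l 16715736)) (l 417383710791)))) (b (l 4) (l 4))), by decide +kernel⟩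

theorem c_pm_203_b : CertB 1239849684 370763052 0 536870912 587336777 62277027 3 eng mog cd2q2b cd2q0 pd3 true true false .up 2 0 3
    ndB2q2b ndB2q0 pcB3 Cut.none Ext.none :=
  certB1 (fam := true) (s1 := true) (s2 := false) (a := 2) (b := 0) (c := 3) (cn := .up) (n1 := ndB2q2b) (n2 := ndB2q0) (pc := pcB3) (cut := Cut.none) (xt := Ext.none) (P1 := 1239849684) (W1 := 370763052) (P2 := 0) (W2 := 536870912) (P3 := 587336777) (W3 := 62277027) (N0 := 3) (En := eng) (mo := mog) (C1 := cd2q2b) (C2 := cd2q0) (C3 := pd3)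
    rfl (fun _ => rfl) k0_pm_203_b

noncomputable def f_pm_213_a : ℕ → ℕ → ℕ → ℕ → Bool := onCell 0 536870912 1610612736 536870912 587336777 62277027
    (rowB 3 eng mog cd2q2a cd2q1 pd3 1 true true false .pnn 2 1 3 (qsf 0 536870912 536870912 536870912 3) ndB2q2a ndB2q1 pcB3 Cut.none Ext.none)

def k0_pm_213_a : ∃ t, chk3 f_pm_213_a t 1 1 1 = true :=
  ⟨(a (b (b (b (l 1) (a (l 1) (l 16782816))) (b (a (l 16830440) (l 16906208)) (a (l 16797136) (l 16894464)))) (b (b (b (l 16792920) (l 75397165735)) (b (l 83450210071) (l 107609195623))) (l 4))) (a (b (b (b (l 1) (l 16780488)) (b (a (l 16863184) (l 16863648)) (b (l 16894008) (l 16901528)))) (b (b (b (l 16904560) (l 16898608)) (b (l 16855976) (l 16816856))) (b (b (l 16782648) (l 16752000)) (l 4)))) (b (b (b (b (a (l 1) (b (l 16632072) (l 16727328))) (l 16764464)) (b (l 16806872) (a (l 16831872) (l 16867640)))) (b (b (a (l 16860408) (l 16890704)) (l 16906080)) (b (l 16885192) (l 16938968)))) (b (b (l 17000216)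 (b (l 16921632) (l 16962976))) (b (b (l 17046520) (a (l 16805760) (l 16834128))) (b (a (l 16767496) (l 16941824)) (b (l 87208256711) (l 4)))))))), by decide +kernel⟩

theorem c_pm_213_a : CertB 0 536870912 536870912 536870912 587336777 62277027 3 eng mog cd2q2a cd2q1 pd3 true true false .pnn 2 1 3
    ndB2q2a ndB2q1 pcB3 Cut.none Ext.none :=
  certB1 (fam := true) (s1 := true) (s2 := false) (a := 2) (b := 1) (c := 3) (cn := .pnn) (n1 := ndB2q2a) (n2 := ndB2q1) (pc := pcB3) (cut := Cut.none) (xt := Ext.none) (P1 := 0) (W1 := 536870912) (P2 := 536870912) (W2 := 536870912) (P3 := 587336777) (W3 := 62277027) (N0 := 3) (En := eng) (mo := mog) (C1 := cd2q2a) (C2 := cd2q1) (C3 := pd3)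
    rfl (fun _ => rfl) k0_pm_213_a

noncomputable def f_pm_213_b : ℕ → ℕ → ℕ → ℕ → Bool := onCell 1239849684 370763052 1610612736 536870912 587336777 62277027
    (rowB 3 eng mog cd2q2b cd2q1 pd3 1 true true false .pnn 2 1 3 (qsf 1239849684 370763052 536870912 536870912 3) ndB2q2b ndB2q1 pcB3 Cut.none Ext.none)

def k0_pm_213_b : ∃ t, chk3 f_pm_213_b t 1 1 1 = true :=
  ⟨(b (a (b (l 1) (b (l 117071935031) (a (l 16823848) (l 16756120)))) (l 1)) (b (l 4) (l 4))), by decide +kernel⟩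

theorem c_pm_213_b : CertB 1239849684 370763052 536870912 536870912 587336777 62277027 3 eng mog cd2q2b cd2q1 pd3 true true false .pnn 2 1 3
    ndB2q2b ndB2q1 pcB3 Cut.none Ext.none :=
  certB1 (fam := true) (s1 := true) (s2 := false) (a := 2) (b := 1) (c := 3) (cn := .pnn) (n1 := ndB2q2b) (n2 := ndB2q1) (pc := pcB3) (cut := Cut.none) (xt := Ext.none) (P1 := 1239849684) (W1 := 370763052) (P2 := 536870912) (W2 := 536870912) (P3 := 587336777) (W3 := 62277027) (N0 := 3) (En := eng) (mo := mog) (C1 := cd2q2b) (C2 := cd2q1) (C3 := pd3)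
    rfl (fun _ => rfl) k0_pm_213_b

noncomputable def f_pm_303 : ℕ → ℕ → ℕ → ℕ → Bool := onCell 1610612736 536870912 0 536870912 587336777 62277027
    (rowB 3 eng mog cd2q3 cd2q0 pd3 2 true true false .npn 3 0 3 (qsf 1610612736 536870912 0 536870912 3) ndB2q3 ndB2q0 pcB3 Cut.none Ext.none)

def k0_pm_303 : ∃ t, chk3 f_pm_303 t 1 1 1 = true :=
  ⟨(a (a (b (a (b (a (l 16333592) (l 16314920)) (l 1)) (b (l 16307896) (l 16470480))) (l 1)) (b (a (b (l 16402400) (l 16498008)) (b (l 16698136) (l 4))) (a (l 1) (b (l 16662360) (l 1))))) (l 4)), by decide +kernel⟩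

theorem c_pm_303 : CertB 1610612736 536870912 0 536870912 587336777 62277027 3 eng mog cd2q3 cd2q0 pd3 true true false .npn 3 0 3
    ndB2q3 ndB2q0 pcB3 Cut.none Ext.none :=
  certB2 (fam := true) (s1 := true) (s2 := false) (a := 3) (b := 0) (c := 3) (cn := .npn) (n1 := ndB2q3) (n2 := ndB2q0) (pc := pcB3) (cut := Cut.none) (xt := Ext.none) (P1 := 1610612736) (W1 := 536870912) (P2 := 0) (W2 := 536870912) (P3 := 587336777) (W3 := 62277027) (N0 := 3) (En := eng) (mo := mog) (C1 := cd2q3) (C2 := cd2q0) (C3 := pd3)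
    rfl (fun _ => rfl) k0_pm_303

noncomputable def f_pm_313 : ℕ → ℕ → ℕ → ℕ → Bool := onCell 1610612736 536870912 536870912 536870912 587336777 62277027
    (rowB 3 eng mog cd2q3 cd2q1 pd3 0 true true false .dn 3 1 3 (qsf 1610612736 536870912 536870912 536870912 3) ndB2q3 ndB2q1 pcB3 Cut.none Ext.none)

def k0_pm_313 : ∃ t, chk3 f_pm_313 t 1 1 1 = true :=
  ⟨(l 4), by decide +kernel⟩

theorem c_pm_313 : CertB 1610612736 536870912 536870912 536870912 587336777 62277027 3 eng mog cd2q3 cd2q1 pd3 true true false .dn 3 1 3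
    ndB2q3 ndB2q1 pcB3 Cut.none Ext.none :=
  certB0 (fam := true) (s1 := true) (s2 := false) (a := 3) (b := 1) (c := 3) (cn := .dn) (n1 := ndB2q3) (n2 := ndB2q1) (pc := pcB3) (cut := Cut.none) (xt := Ext.none) (P1 := 1610612736) (W1 := 536870912) (P2 := 536870912) (W2 := 536870912) (P3 := 587336777) (W3 := 62277027) (N0 := 3) (En := eng) (mo := mog) (C1 := cd2q3) (C2 := cd2q1) (C3 := pd3)
    rfl k0_pm_313

noncomputable def f_mm_001 : ℕ → ℕ → ℕ → ℕ → Bool := onCell 0 536870912 0 536870912 587336777 62277027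
    (rowB 3 eng mog cd2q0 cd2q0 pd1 0 true false false .up 0 0 1 (qsf 0 536870912 0 536870912 1) ndB2q0 ndB2q0 pcB1 Cut.none Ext.none)

def k0_mm_001 : ∃ t, chk3 f_mm_001 t 1 1 1 = true :=
  ⟨(l 4), by decide +kernel⟩

theorem c_mm_001 : CertB 0 536870912 0 536870912 587336777 62277027 3 eng mog cd2q0 cd2q0 pd1 true false false .up 0 0 1
    ndB2q0 ndB2q0 pcB1 Cut.none Ext.none :=
  certB0 (fam := true) (s1 := false) (s2 := false) (a := 0) (b := 0) (c := 1) (cn := .up) (n1 := ndB2q0) (n2 := ndB2q0) (pc := pcB1) (cut := Cut.none) (xt := Ext.none) (P1 := 0) (W1 := 536870912) (P2 := 0) (W2 := 536870912) (P3 := 587336777) (W3 := 62277027) (N0 := 3) (En := eng) (mo := mog) (C1 := cd2q0) (C2 := cd2q0) (C3 := pd1)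
    rfl k0_mm_001

noncomputable def f_mm_011 : ℕ → ℕ → ℕ → ℕ → Bool := onCell 0 536870912 536870912 536870912 587336777 62277027
    (rowB 3 eng mog cd2q0 cd2q1 pd1 0 true false false .pnn 0 1 1 (qsf 0 536870912 536870912 536870912 1) ndB2q0 ndB2q1 pcB1 Cut.none Ext.none)

def k0_mm_011 : ∃ t, chk3 f_mm_011 t 1 1 1 = true :=
  ⟨(l 4), by decide +kernel⟩

theorem c_mm_011 : CertB 0 536870912 536870912 536870912 587336777 62277027 3 eng mog cd2q0 cd2q1 pd1 true false false .pnn 0 1 1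
    ndB2q0 ndB2q1 pcB1 Cut.none Ext.none :=
  certB0 (fam := true) (s1 := false) (s2 := false) (a := 0) (b := 1) (c := 1) (cn := .pnn) (n1 := ndB2q0) (n2 := ndB2q1) (pc := pcB1) (cut := Cut.none) (xt := Ext.none) (P1 := 0) (W1 := 536870912) (P2 := 536870912) (W2 := 536870912) (P3 := 587336777) (W3 := 62277027) (N0 := 3) (En := eng) (mo := mog) (C1 := cd2q0) (C2 := cd2q1) (C3 := pd1)
    rfl k0_mm_011

noncomputable def f_mm_012 : ℕ → ℕ → ℕ → ℕ → Bool := onCell 0 536870912 536870912 536870912 587336777 62277027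
    (rowB 3 eng mog cd2q0 cd2q1 pd2 0 true false false .pnp 0 1 2 (qsf 0 536870912 536870912 536870912 2) ndB2q0 ndB2q1 pcB2 Cut.none Ext.none)

def k0_mm_012 : ∃ t, chk3 f_mm_012 t 1 1 1 = true :=
  ⟨(l 4), by decide +kernel⟩

theorem c_mm_012 : CertB 0 536870912 536870912 536870912 587336777 62277027 3 eng mog cd2q0 cd2q1 pd2 true false false .pnp 0 1 2
    ndB2q0 ndB2q1 pcB2 Cut.none Ext.none :=
  certB0 (fam := true) (s1 := false) (s2 := false) (a := 0) (b := 1) (c := 2) (cn := .pnp) (n1 := ndB2q0) (n2 := ndB2q1) (pc := pcB2) (cut := Cut.none) (xt := Ext.none) (P1 := 0) (W1 := 536870912) (P2 := 536870912) (W2 := 536870912) (P3 := 587336777) (W3 := 62277027) (N0 := 3) (En := eng) (mo := mog) (C1 := cd2q0) (C2 := cd2q1) (C3 := pd2)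
    rfl k0_mm_012

noncomputable def f_mm_022_a : ℕ → ℕ → ℕ → ℕ → Bool := onCell 0 536870912 0 536870912 587336777 62277027
    (rowB 3 eng mog cd2q0 cd2q2a pd2 0 true false false .pp 0 2 2 (qsf 0 536870912 0 536870912 2) ndB2q0 ndB2q2a pcB2 Cut.none Ext.none)

def k0_mm_022_a : ∃ t, chk3 f_mm_022_a t 1 1 1 = true :=
  ⟨(l 5), by decide +kernel⟩

theorem c_mm_022_a : CertB 0 536870912 0 536870912 587336777 62277027 3 eng mog cd2q0 cd2q2a pd2 true false false .pp 0 2 2
    ndB2q0 ndB2q2a pcB2 Cut.none Ext.none :=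
  certB0 (fam := true) (s1 := false) (s2 := false) (a := 0) (b := 2) (c := 2) (cn := .pp) (n1 := ndB2q0) (n2 := ndB2q2a) (pc := pcB2) (cut := Cut.none) (xt := Ext.none) (P1 := 0) (W1 := 536870912) (P2 := 0) (W2 := 536870912) (P3 := 587336777) (W3 := 62277027) (N0 := 3) (En := eng) (mo := mog) (C1 := cd2q0) (C2 := cd2q2a) (C3 := pd2)
    rfl k0_mm_022_a

noncomputable def f_mm_022_b : ℕ → ℕ → ℕ → ℕ → Bool := onCell 0 536870912 1239849684 370763052 587336777 62277027
    (rowB 3 eng mog cd2q0 cd2q2b pd2 0 true false false .pp 0 2 2 (qsf 0 536870912 1239849684 370763052 2) ndB2q0 ndB2q2b pcB2 Cut.none Ext.none)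

def k0_mm_022_b : ∃ t, chk3 f_mm_022_b t 1 1 1 = true :=
  ⟨(l 5), by decide +kernel⟩

theorem c_mm_022_b : CertB 0 536870912 1239849684 370763052 587336777 62277027 3 eng mog cd2q0 cd2q2b pd2 true false false .pp 0 2 2
    ndB2q0 ndB2q2b pcB2 Cut.none Ext.none :=
  certB0 (fam := true) (s1 := false) (s2 := false) (a := 0) (b := 2) (c := 2) (cn := .pp) (n1 := ndB2q0) (n2 := ndB2q2b) (pc := pcB2) (cut := Cut.none) (xt := Ext.none) (P1 := 0) (W1 := 536870912) (P2 := 1239849684) (W2 := 370763052) (P3 := 587336777) (W3 := 62277027) (N0 := 3) (En := eng) (mo := mog) (C1 := cd2q0) (C2 := cd2q2b) (C3 := pd2)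
    rfl k0_mm_022_b

noncomputable def f_mm_023_a : ℕ → ℕ → ℕ → ℕ → Bool := onCell 0 536870912 0 536870912 587336777 62277027
    (rowB 3 eng mog cd2q0 cd2q2a pd3 0 true false false .up 0 2 3 (qsf 0 536870912 0 536870912 3) ndB2q0 ndB2q2a pcB3 Cut.none Ext.none)

def k0_mm_023_a : ∃ t, chk3 f_mm_023_a t 1 1 1 = true :=
  ⟨(l 5), by decide +kernel⟩

theorem c_mm_023_a : CertB 0 536870912 0 536870912 587336777 62277027 3 eng mog cd2q0 cd2q2a pd3 true false false .up 0 2 3
    ndB2q0 ndB2q2a pcB3 Cut.none Ext.none :=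
  certB0 (fam := true) (s1 := false) (s2 := false) (a := 0) (b := 2) (c := 3) (cn := .up) (n1 := ndB2q0) (n2 := ndB2q2a) (pc := pcB3) (cut := Cut.none) (xt := Ext.none) (P1 := 0) (W1 := 536870912) (P2 := 0) (W2 := 536870912) (P3 := 587336777) (W3 := 62277027) (N0 := 3) (En := eng) (mo := mog) (C1 := cd2q0) (C2 := cd2q2a) (C3 := pd3)
    rfl k0_mm_023_a

noncomputable def f_mm_023_b : ℕ → ℕ → ℕ → ℕ → Bool := onCell 0 536870912 1239849684 370763052 587336777 62277027
    (rowB 3 eng mog cd2q0 cd2q2b pd3 0 true false false .up 0 2 3 (qsf 0 536870912 1239849684 370763052 3) ndB2q0 ndB2q2b pcB3 Cut.none Ext.none)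

def k0_mm_023_b : ∃ t, chk3 f_mm_023_b t 1 1 1 = true :=
  ⟨(l 5), by decide +kernel⟩

theorem c_mm_023_b : CertB 0 536870912 1239849684 370763052 587336777 62277027 3 eng mog cd2q0 cd2q2b pd3 true false false .up 0 2 3
    ndB2q0 ndB2q2b pcB3 Cut.none Ext.none :=
  certB0 (fam := true) (s1 := false) (s2 := false) (a := 0) (b := 2) (c := 3) (cn := .up) (n1 := ndB2q0) (n2 := ndB2q2b) (pc := pcB3) (cut := Cut.none) (xt := Ext.none) (P1 := 0) (W1 := 536870912) (P2 := 1239849684) (W2 := 370763052) (P3 := 587336777) (W3 := 62277027) (N0 := 3) (En := eng) (mo := mog) (C1 := cd2q0) (C2 := cd2q2b) (C3 := pd3)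
    rfl k0_mm_023_b

noncomputable def f_mm_033 : ℕ → ℕ → ℕ → ℕ → Bool := onCell 0 536870912 1610612736 536870912 587336777 62277027
    (rowB 3 eng mog cd2q0 cd2q3 pd3 0 true false false .pnn 0 3 3 (qsf 0 536870912 1610612736 536870912 3) ndB2q0 ndB2q3 pcB3 Cut.none Ext.none)

def k0_mm_033 : ∃ t, chk3 f_mm_033 t 1 1 1 = true :=
  ⟨(l 5), by decide +kernel⟩

theorem c_mm_033 : CertB 0 536870912 1610612736 536870912 587336777 62277027 3 eng mog cd2q0 cd2q3 pd3 true false false .pnn 0 3 3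
    ndB2q0 ndB2q3 pcB3 Cut.none Ext.none :=
  certB0 (fam := true) (s1 := false) (s2 := false) (a := 0) (b := 3) (c := 3) (cn := .pnn) (n1 := ndB2q0) (n2 := ndB2q3) (pc := pcB3) (cut := Cut.none) (xt := Ext.none) (P1 := 0) (W1 := 536870912) (P2 := 1610612736) (W2 := 536870912) (P3 := 587336777) (W3 := 62277027) (N0 := 3) (En := eng) (mo := mog) (C1 := cd2q0) (C2 := cd2q3) (C3 := pd3)
    rfl k0_mm_033

noncomputable def f_mm_101 : ℕ → ℕ → ℕ → ℕ → Bool := onCell 536870912 536870912 0 536870912 587336777 62277027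
    (rowB 3 eng mog cd2q1 cd2q0 pd1 0 true false false .npn 1 0 1 (qsf 536870912 536870912 0 536870912 1) ndB2q1 ndB2q0 pcB1 Cut.none Ext.none)

def k0_mm_101 : ∃ t, chk3 f_mm_101 t 1 1 1 = true :=
  ⟨(l 4), by decide +kernel⟩

theorem c_mm_101 : CertB 536870912 536870912 0 536870912 587336777 62277027 3 eng mog cd2q1 cd2q0 pd1 true false false .npn 1 0 1
    ndB2q1 ndB2q0 pcB1 Cut.none Ext.none :=
  certB0 (fam := true) (s1 := false) (s2 := false) (a := 1) (b := 0) (c := 1) (cn := .npn) (n1 := ndB2q1) (n2 := ndB2q0) (pc := pcB1) (cut := Cut.none) (xt := Ext.none) (P1 := 536870912) (W1 := 536870912) (P2 := 0) (W2 := 536870912) (P3 := 587336777) (W3 := 62277027) (N0 := 3) (En := eng) (mo := mog) (C1 := cd2q1) (C2 := cd2q0) (C3 := pd1)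
    rfl k0_mm_101

noncomputable def f_mm_102 : ℕ → ℕ → ℕ → ℕ → Bool := onCell 536870912 536870912 0 536870912 587336777 62277027
    (rowB 3 eng mog cd2q1 cd2q0 pd2 0 true false false .npp 1 0 2 (qsf 536870912 536870912 0 536870912 2) ndB2q1 ndB2q0 pcB2 Cut.none Ext.none)

def k0_mm_102 : ∃ t, chk3 f_mm_102 t 1 1 1 = true :=
  ⟨(l 4), by decide +kernel⟩

theorem c_mm_102 : CertB 536870912 536870912 0 536870912 587336777 62277027 3 eng mog cd2q1 cd2q0 pd2 true false false .npp 1 0 2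
    ndB2q1 ndB2q0 pcB2 Cut.none Ext.none :=
  certB0 (fam := true) (s1 := false) (s2 := false) (a := 1) (b := 0) (c := 2) (cn := .npp) (n1 := ndB2q1) (n2 := ndB2q0) (pc := pcB2) (cut := Cut.none) (xt := Ext.none) (P1 := 536870912) (W1 := 536870912) (P2 := 0) (W2 := 536870912) (P3 := 587336777) (W3 := 62277027) (N0 := 3) (En := eng) (mo := mog) (C1 := cd2q1) (C2 := cd2q0) (C3 := pd2)
    rfl k0_mm_102

noncomputable def f_mm_112 : ℕ → ℕ → ℕ → ℕ → Bool := onCell 536870912 536870912 536870912 536870912 587336777 62277027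
    (rowB 3 eng mog cd2q1 cd2q1 pd2 0 true false false .dn 1 1 2 (qsf 536870912 536870912 536870912 536870912 2) ndB2q1 ndB2q1 pcB2 Cut.none Ext.none)

def k0_mm_112 : ∃ t, chk3 f_mm_112 t 1 1 1 = true :=
  ⟨(l 4), by decide +kernel⟩

theorem c_mm_112 : CertB 536870912 536870912 536870912 536870912 587336777 62277027 3 eng mog cd2q1 cd2q1 pd2 true false false .dn 1 1 2
    ndB2q1 ndB2q1 pcB2 Cut.none Ext.none :=
  certB0 (fam := true) (s1 := false) (s2 := false) (a := 1) (b := 1) (c := 2) (cn := .dn) (n1 := ndB2q1) (n2 := ndB2q1) (pc := pcB2) (cut := Cut.none) (xt := Ext.none) (P1 := 536870912) (W1 := 536870912) (P2 := 536870912) (W2 := 536870912) (P3 := 587336777) (W3 := 62277027) (N0 := 3) (En := eng) (mo := mog) (C1 := cd2q1) (C2 := cd2q1) (C3 := pd2)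
    rfl k0_mm_112

noncomputable def f_mm_113 : ℕ → ℕ → ℕ → ℕ → Bool := onCell 536870912 536870912 536870912 536870912 587336777 62277027
    (rowB 3 eng mog cd2q1 cd2q1 pd3 0 true false false .nn 1 1 3 (qsf 536870912 536870912 536870912 536870912 3) ndB2q1 ndB2q1 pcB3 Cut.none Ext.none)

def k0_mm_113 : ∃ t, chk3 f_mm_113 t 1 1 1 = true :=
  ⟨(l 4), by decide +kernel⟩

theorem c_mm_113 : CertB 536870912 536870912 536870912 536870912 587336777 62277027 3 eng mog cd2q1 cd2q1 pd3 true false false .nn 1 1 3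
    ndB2q1 ndB2q1 pcB3 Cut.none Ext.none :=
  certB0 (fam := true) (s1 := false) (s2 := false) (a := 1) (b := 1) (c := 3) (cn := .nn) (n1 := ndB2q1) (n2 := ndB2q1) (pc := pcB3) (cut := Cut.none) (xt := Ext.none) (P1 := 536870912) (W1 := 536870912) (P2 := 536870912) (W2 := 536870912) (P3 := 587336777) (W3 := 62277027) (N0 := 3) (En := eng) (mo := mog) (C1 := cd2q1) (C2 := cd2q1) (C3 := pd3)
    rfl k0_mm_113

noncomputable def f_mm_123_a : ℕ → ℕ → ℕ → ℕ → Bool := onCell 536870912 536870912 0 536870912 587336777 62277027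
    (rowB 3 eng mog cd2q1 cd2q2a pd3 0 true false false .npn 1 2 3 (qsf 536870912 536870912 0 536870912 3) ndB2q1 ndB2q2a pcB3 Cut.none Ext.none)

def k0_mm_123_a : ∃ t, chk3 f_mm_123_a t 1 1 1 = true :=
  ⟨(l 4), by decide +kernel⟩

theorem c_mm_123_a : CertB 536870912 536870912 0 536870912 587336777 62277027 3 eng mog cd2q1 cd2q2a pd3 true false false .npn 1 2 3
    ndB2q1 ndB2q2a pcB3 Cut.none Ext.none :=
  certB0 (fam := true) (s1 := false) (s2 := false) (a := 1) (b := 2) (c := 3) (cn := .npn) (n1 := ndB2q1) (n2 := ndB2q2a) (pc := pcB3) (cut := Cut.none) (xt := Ext.none) (P1 := 536870912) (W1 := 536870912) (P2 := 0) (W2 := 536870912) (P3 := 587336777) (W3 := 62277027) (N0 := 3) (En := eng) (mo := mog) (C1 := cd2q1) (C2 := cd2q2a) (C3 := pd3)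
    rfl k0_mm_123_a

noncomputable def f_mm_123_b : ℕ → ℕ → ℕ → ℕ → Bool := onCell 536870912 536870912 1239849684 370763052 587336777 62277027
    (rowB 3 eng mog cd2q1 cd2q2b pd3 0 true false false .npn 1 2 3 (qsf 536870912 536870912 1239849684 370763052 3) ndB2q1 ndB2q2b pcB3 Cut.none Ext.none)

def k0_mm_123_b : ∃ t, chk3 f_mm_123_b t 1 1 1 = true :=
  ⟨(l 4), by decide +kernel⟩

theorem c_mm_123_b : CertB 536870912 536870912 1239849684 370763052 587336777 62277027 3 eng mog cd2q1 cd2q2b pd3 true false false .npn 1 2 3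
    ndB2q1 ndB2q2b pcB3 Cut.none Ext.none :=
  certB0 (fam := true) (s1 := false) (s2 := false) (a := 1) (b := 2) (c := 3) (cn := .npn) (n1 := ndB2q1) (n2 := ndB2q2b) (pc := pcB3) (cut := Cut.none) (xt := Ext.none) (P1 := 536870912) (W1 := 536870912) (P2 := 1239849684) (W2 := 370763052) (P3 := 587336777) (W3 := 62277027) (N0 := 3) (En := eng) (mo := mog) (C1 := cd2q1) (C2 := cd2q2b) (C3 := pd3)
    rfl k0_mm_123_b

noncomputable def f_mm_133 : ℕ → ℕ → ℕ → ℕ → Bool := onCell 536870912 536870912 1610612736 536870912 587336777 62277027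
    (rowB 3 eng mog cd2q1 cd2q3 pd3 0 true false false .dn 1 3 3 (qsf 536870912 536870912 1610612736 536870912 3) ndB2q1 ndB2q3 pcB3 Cut.none Ext.none)

def k0_mm_133 : ∃ t, chk3 f_mm_133 t 1 1 1 = true :=
  ⟨(l 4), by decide +kernel⟩

theorem c_mm_133 : CertB 536870912 536870912 1610612736 536870912 587336777 62277027 3 eng mog cd2q1 cd2q3 pd3 true false false .dn 1 3 3
    ndB2q1 ndB2q3 pcB3 Cut.none Ext.none :=
  certB0 (fam := true) (s1 := false) (s2 := false) (a := 1) (b := 3) (c := 3) (cn := .dn) (n1 := ndB2q1) (n2 := ndB2q3) (pc := pcB3) (cut := Cut.none) (xt := Ext.none) (P1 := 536870912) (W1 := 536870912) (P2 := 1610612736) (W2 := 536870912) (P3 := 587336777) (W3 := 62277027) (N0 := 3) (En := eng) (mo := mog) (C1 := cd2q1) (C2 := cd2q3) (C3 := pd3)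
    rfl k0_mm_133

noncomputable def cut_mm_202_a : Cut := Cut.of [[⟨0, 1, 0, 67108864⟩, ⟨1, 0, 0, 67108864⟩, ⟨2, 1, 0, 67108864⟩]]

noncomputable def f_mm_202_a : ℕ → ℕ → ℕ → ℕ → Bool := onCell 0 536870912 0 536870912 587336777 62277027
    (rowB 3 eng mog cd2q2a cd2q0 pd2 0 true false false .pp 2 0 2 (qsf 0 536870912 0 536870912 2) ndB2q2a ndB2q0 pcB2 cut_mm_202_a Ext.none)

def k0_mm_202_a : ∃ t, chk3 f_mm_202_a t 2 1 1 = true :=
  ⟨(a (b (b (b (b (a (b (a (l 16457208) (l 16459776)) (l 16530400)) (b (a (l 16464664) (l 16471904)) (a (l 16474280) (l 16544880)))) (a (l 16522816) (b (l 16488336) (l 16498416)))) (b (a (l 16498800) (l 16513624)) (l 16567616))) (b (b (l 16548472) (l 16642368)) (b (l 16607672) (l 16656048)))) (b (b (b (a (l 16651288) (l 16674864)) (l 16836960)) (b (l 19562425623) (l 4))) (l 2))) (b (b (b (b (b (a (a (l 16481560) (l 16493696)) (a (b (l 16505784) (l 16511056)) (b (l 16523056) (l 16528472)))) (a (a (l 16476264) (l 16483488))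 (a (l 16519456) (l 16537104)))) (a (b (a (l 16502976) (l 16536952)) (l 16541904)) (b (a (c (l 16596864) (l 16592136)) (l 16528408)) (a (l 16543672) (l 16625136))))) (b (a (l 16540616) (b (l 16628632) (l 16620320))) (a (l 16560432) (l 16597256)))) (b (a (b (l 16586032) (l 16618968)) (b (l 16624992) (l 16657528))) (a (b (l 16649616) (l 16677072)) (l 4)))) (l 4))), by decide +kernel⟩

def k1_mm_202_a : ∃ t, chk3 f_mm_202_a t 3 1 1 = true :=
  ⟨(b (b (a (b (b (a (b (a (b (l 16542792) (l 16548632)) (b (l 16564656) (l 16571616))) (a (l 16557480) (l 16580680))) (b (a (b (l 16589024) (l 16596632)) (b (a (l 16608864) (l 16623040)) (l 16645216))) (a (l 16606768) (b (l 16632208) (l 16639072))))) (a (b (a (a (l 16564520) (l 16575568)) (l 16593576)) (a (l 16583336) (l 16670120))) (a (a (l 16598872) (l 16623360)) (b (l 16649264) (l 16663568))))) (a (b (b (a (l 16596912) (l 16621296)) (l 16623200)) (a (l 16630976) (l 16656704))) (a (b (b (l 16648456) (l 16684208))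 (l 16705928)) (b (b (l 16678544) (a (l 16685744) (l 4))) (l 4))))) (b (a (b (b (a (b (a (l 16658872) (b (l 16651200) (l 16655792))) (b (l 16660312) (l 16656816))) (a (b (b (l 6) (l 16672680)) (l 16679624)) (b (l 6) (b (l 6) (l 16700016))))) (a (a (l 16659184) (l 16696560)) (a (b (l 16688616) (l 16696488)) (b (l 16706904) (l 16714040))))) (b (a (a (l 16673040) (l 16689864)) (a (l 16717568) (b (l 16721264) (l 16729176)))) (a (b (l 16692448) (l 16700136)) (b (l 16759480) (l 4))))) (b (a (b (l 6) (a (b (l 6) (a (l 16727728) (l 16737400))) (l 6))) (l 6)) (a (a (l 4) (l 4)) (l 4)))) (a (a (b (b (l 16743416) (l 4)) (l 4)) (l 4)) (l 4)))) (a (b (a (b (a (l 16659584) (l 4)) (l 4)) (l 4)) (l 4)) (l 4))) (l 4)), by decide +kernel⟩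

theorem s2_mm_202_a : ∃ t, chk3 f_mm_202_a t 1 1 1 = true := ex3_a k0_mm_202_a k1_mm_202_a

theorem c_mm_202_a : CertB 0 536870912 0 536870912 587336777 62277027 3 eng mog cd2q2a cd2q0 pd2 true false false .pp 2 0 2
    ndB2q2a ndB2q0 pcB2 cut_mm_202_a Ext.none :=
  certB0 (fam := true) (s1 := false) (s2 := false) (a := 2) (b := 0) (c := 2) (cn := .pp) (n1 := ndB2q2a) (n2 := ndB2q0) (pc := pcB2) (cut := cut_mm_202_a) (xt := Ext.none) (P1 := 0) (W1 := 536870912) (P2 := 0) (W2 := 536870912) (P3 := 587336777) (W3 := 62277027) (N0 := 3) (En := eng) (mo := mog) (C1 := cd2q2a) (C2 := cd2q0) (C3 := pd2)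
    rfl s2_mm_202_a

noncomputable def cut_mm_202_b : Cut := Cut.of [[⟨0, 1, 0, 67108864⟩, ⟨1, 0, 0, 67108864⟩, ⟨2, 1, 0, 67108864⟩]]

noncomputable def f_mm_202_b : ℕ → ℕ → ℕ → ℕ → Bool := onCell 1073741824 536870912 0 536870912 587336777 62277027
    (rowB 3 eng mog cd2q2b cd2q0 pd2 2 true false false .pp 2 0 2 (qsf 1239849684 370763052 0 536870912 2) ndB2q2b ndB2q0 pcB2 cut_mm_202_b Ext.none)

def k0_mm_202_b : ∃ t, chk3 f_mm_202_b t 1 1 1 = true :=
  ⟨(a (b (a (l 1) (b (a (b (a (b (b (l 144988270327) (l 1)) (l 1)) (b (a (b (l 16453496) (l 146061875639)) (l 16441856)) (a (l 1) (l 272226549991)))) (l 1)) (b (b (a (l 16392848) (l 16328464)) (a (l 16463856) (l 16408224))) (a (b (l 263099831223) (l 1)) (b (l 16491120) (l 244846291495))))) (l 1))) (l 1)) (a (b (b (a (b (b (l 16243504) (l 16319456)) (a (l 16466192) (l 16404816))) (b (a (l 16207920) (l 16175992)) (a (l 16356184) (l 16341824)))) (a (b (b (l 127271521079) (a (l 1) (l 16600984))) (l 1)) (b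 (a (l 16509408) (l 16462840)) (a (l 277595409783) (l 16588920))))) (l 1)) (b (b (a (b (a (l 16152040) (l 16133008)) (l 16425728)) (b (l 16111200) (l 16235576))) (a (b (l 16437464) (a (l 16557496) (l 16530184))) (a (l 16525744) (l 16481576)))) (b (a (b (a (l 288332936455) (l 16641504)) (l 1)) (b (a (l 16617720) (l 16589064)) (a (l 397317802599) (l 229814153799)))) (l 1))))), by decide +kernel⟩

theorem c_mm_202_b : CertB 1239849684 370763052 0 536870912 587336777 62277027 3 eng mog cd2q2b cd2q0 pd2 true false false .pp 2 0 2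
    ndB2q2b ndB2q0 pcB2 cut_mm_202_b Ext.none :=
  certB2 (fam := true) (s1 := false) (s2 := false) (a := 2) (b := 0) (c := 2) (cn := .pp) (n1 := ndB2q2b) (n2 := ndB2q0) (pc := pcB2) (cut := cut_mm_202_b) (xt := Ext.none) (P1 := 1239849684) (W1 := 370763052) (P2 := 0) (W2 := 536870912) (P3 := 587336777) (W3 := 62277027) (N0 := 3) (En := eng) (mo := mog) (C1 := cd2q2b) (C2 := cd2q0) (C3 := pd2)
    rfl (fun _ => rfl) k0_mm_202_b

noncomputable def f_mm_203_a : ℕ → ℕ → ℕ → ℕ → Bool := onCell 0 536870912 1610612736 536870912 587336777 62277027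
    (rowB 3 eng mog cd2q2a cd2q0 pd3 1 true false false .up 2 0 3 (qsf 0 536870912 0 536870912 3) ndB2q2a ndB2q0 pcB3 Cut.none Ext.none)

def k0_mm_203_a : ∃ t, chk3 f_mm_203_a t 1 1 1 = true :=
  ⟨(a (b (l 4) (l 2)) (l 4)), by decide +kernel⟩

theorem c_mm_203_a : CertB 0 536870912 0 536870912 587336777 62277027 3 eng mog cd2q2a cd2q0 pd3 true false false .up 2 0 3
    ndB2q2a ndB2q0 pcB3 Cut.none Ext.none :=
  certB1 (fam := true) (s1 := false) (s2 := false) (a := 2) (b := 0) (c := 3) (cn := .up) (n1 := ndB2q2a) (n2 := ndB2q0) (pc := pcB3) (cut := Cut.none) (xt := Ext.none) (P1 := 0) (W1 := 536870912) (P2 := 0) (W2 := 536870912) (P3 := 587336777) (W3 := 62277027) (N0 := 3) (En := eng) (mo := mog) (C1 := cd2q2a) (C2 := cd2q0) (C3 := pd3)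
    rfl (fun _ => rfl) k0_mm_203_a

noncomputable def f_mm_203_b : ℕ → ℕ → ℕ → ℕ → Bool := onCell 1239849684 370763052 1610612736 536870912 587336777 62277027
    (rowB 3 eng mog cd2q2b cd2q0 pd3 1 true false false .up 2 0 3 (qsf 1239849684 370763052 0 536870912 3) ndB2q2b ndB2q0 pcB3 Cut.none Ext.none)

def k0_mm_203_b : ∃ t, chk3 f_mm_203_b t 1 1 1 = true :=
  ⟨(b (b (b (a (l 4) (a (b (l 16318920) (l 4)) (b (l 16147392) (l 16204408)))) (l 4)) (l 4)) (l 4)), by decide +kernel⟩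

theorem c_mm_203_b : CertB 1239849684 370763052 0 536870912 587336777 62277027 3 eng mog cd2q2b cd2q0 pd3 true false false .up 2 0 3
    ndB2q2b ndB2q0 pcB3 Cut.none Ext.none :=
  certB1 (fam := true) (s1 := false) (s2 := false) (a := 2) (b := 0) (c := 3) (cn := .up) (n1 := ndB2q2b) (n2 := ndB2q0) (pc := pcB3) (cut := Cut.none) (xt := Ext.none) (P1 := 1239849684) (W1 := 370763052) (P2 := 0) (W2 := 536870912) (P3 := 587336777) (W3 := 62277027) (N0 := 3) (En := eng) (mo := mog) (C1 := cd2q2b) (C2 := cd2q0) (C3 := pd3)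
    rfl (fun _ => rfl) k0_mm_203_b

noncomputable def f_mm_213_a : ℕ → ℕ → ℕ → ℕ → Bool := onCell 0 536870912 536870912 536870912 587336777 62277027
    (rowB 3 eng mog cd2q2a cd2q1 pd3 0 true false false .pnn 2 1 3 (qsf 0 536870912 536870912 536870912 3) ndB2q2a ndB2q1 pcB3 Cut.none Ext.none)

def k0_mm_213_a : ∃ t, chk3 f_mm_213_a t 1 1 1 = true :=
  ⟨(l 4), by decide +kernel⟩

theorem c_mm_213_a : CertB 0 536870912 536870912 536870912 587336777 62277027 3 eng mog cd2q2a cd2q1 pd3 true false false .pnn 2 1 3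
    ndB2q2a ndB2q1 pcB3 Cut.none Ext.none :=
  certB0 (fam := true) (s1 := false) (s2 := false) (a := 2) (b := 1) (c := 3) (cn := .pnn) (n1 := ndB2q2a) (n2 := ndB2q1) (pc := pcB3) (cut := Cut.none) (xt := Ext.none) (P1 := 0) (W1 := 536870912) (P2 := 536870912) (W2 := 536870912) (P3 := 587336777) (W3 := 62277027) (N0 := 3) (En := eng) (mo := mog) (C1 := cd2q2a) (C2 := cd2q1) (C3 := pd3)
    rfl k0_mm_213_a

noncomputable def f_mm_213_b : ℕ → ℕ → ℕ → ℕ → Bool := onCell 1239849684 370763052 536870912 536870912 587336777 62277027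
    (rowB 3 eng mog cd2q2b cd2q1 pd3 0 true false false .pnn 2 1 3 (qsf 1239849684 370763052 536870912 536870912 3) ndB2q2b ndB2q1 pcB3 Cut.none Ext.none)

def k0_mm_213_b : ∃ t, chk3 f_mm_213_b t 1 1 1 = true :=
  ⟨(l 4), by decide +kernel⟩

theorem c_mm_213_b : CertB 1239849684 370763052 536870912 536870912 587336777 62277027 3 eng mog cd2q2b cd2q1 pd3 true false false .pnn 2 1 3
    ndB2q2b ndB2q1 pcB3 Cut.none Ext.none :=
  certB0 (fam := true) (s1 := false) (s2 := false) (a := 2) (b := 1) (c := 3) (cn := .pnn) (n1 := ndB2q2b) (n2 := ndB2q1) (pc := pcB3) (cut := Cut.none) (xt := Ext.none) (P1 := 1239849684) (W1 := 370763052) (P2 := 536870912) (W2 := 536870912) (P3 := 587336777) (W3 := 62277027) (N0 := 3) (En := eng) (mo := mog) (C1 := cd2q2b) (C2 := cd2q1) (C3 := pd3)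
    rfl k0_mm_213_b

noncomputable def f_mm_303 : ℕ → ℕ → ℕ → ℕ → Bool := onCell 1610612736 536870912 0 536870912 587336777 62277027
    (rowB 3 eng mog cd2q3 cd2q0 pd3 2 true false false .npn 3 0 3 (qsf 1610612736 536870912 0 536870912 3) ndB2q3 ndB2q0 pcB3 Cut.none Ext.none)

def k0_mm_303 : ∃ t, chk3 f_mm_303 t 1 1 1 = true :=
  ⟨(a (a (b (a (b (a (l 16186192) (l 16192592)) (l 1)) (l 4)) (l 1)) (l 4)) (l 4)), by decide +kernel⟩

theorem c_mm_303 : CertB 1610612736 536870912 0 536870912 587336777 62277027 3 eng mog cd2q3 cd2q0 pd3 true false false .npn 3 0 3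
    ndB2q3 ndB2q0 pcB3 Cut.none Ext.none :=
  certB2 (fam := true) (s1 := false) (s2 := false) (a := 3) (b := 0) (c := 3) (cn := .npn) (n1 := ndB2q3) (n2 := ndB2q0) (pc := pcB3) (cut := Cut.none) (xt := Ext.none) (P1 := 1610612736) (W1 := 536870912) (P2 := 0) (W2 := 536870912) (P3 := 587336777) (W3 := 62277027) (N0 := 3) (En := eng) (mo := mog) (C1 := cd2q3) (C2 := cd2q0) (C3 := pd3)
    rfl (fun _ => rfl) k0_mm_303

noncomputable def f_mm_313 : ℕ → ℕ → ℕ → ℕ → Bool := onCell 1610612736 536870912 536870912 536870912 587336777 62277027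
    (rowB 3 eng mog cd2q3 cd2q1 pd3 0 true false false .dn 3 1 3 (qsf 1610612736 536870912 536870912 536870912 3) ndB2q3 ndB2q1 pcB3 Cut.none Ext.none)

def k0_mm_313 : ∃ t, chk3 f_mm_313 t 1 1 1 = true :=
  ⟨(l 4), by decide +kernel⟩

theorem c_mm_313 : CertB 1610612736 536870912 536870912 536870912 587336777 62277027 3 eng mog cd2q3 cd2q1 pd3 true false false .dn 3 1 3
    ndB2q3 ndB2q1 pcB3 Cut.none Ext.none :=
  certB0 (fam := true) (s1 := false) (s2 := false) (a := 3) (b := 1) (c := 3) (cn := .dn) (n1 := ndB2q3) (n2 := ndB2q1) (pc := pcB3) (cut := Cut.none) (xt := Ext.none) (P1 := 1610612736) (W1 := 536870912) (P2 := 536870912) (W2 := 536870912) (P3 := 587336777) (W3 := 62277027) (N0 := 3) (En := eng) (mo := mog) (C1 := cd2q3) (C2 := cd2q1) (C3 := pd3)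
    rfl k0_mm_313

end Pool.Agent.Strip051.G.I5470_6050.Tab.C.BA22

namespace Pool.Agent.Strip051.G.I5470_6050.Tab.C.BA23

open Pool.Agent.Strip051.PB Pool.Agent.Strip051.PB.T
open Pool.Agent.Strip051.G.I5470_6050.Tab

noncomputable def f_pp_001 : ℕ → ℕ → ℕ → ℕ → Bool := onCell 0 536870912 0 536870912 587336777 62277027
    (rowB 3 eng mog cd2q0 cd3q0 pd1 0 true true true .up 0 0 1 (qsf 0 536870912 0 536870912 1) ndB2q0 ndB3q0 pcB1 Cut.none Ext.none)

def k0_pp_001 : ∃ t, chk3 f_pp_001 t 1 1 1 = true :=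
  ⟨(l 4), by decide +kernel⟩

theorem c_pp_001 : CertB 0 536870912 0 536870912 587336777 62277027 3 eng mog cd2q0 cd3q0 pd1 true true true .up 0 0 1
    ndB2q0 ndB3q0 pcB1 Cut.none Ext.none :=
  certB0 (fam := true) (s1 := true) (s2 := true) (a := 0) (b := 0) (c := 1) (cn := .up) (n1 := ndB2q0) (n2 := ndB3q0) (pc := pcB1) (cut := Cut.none) (xt := Ext.none) (P1 := 0) (W1 := 536870912) (P2 := 0) (W2 := 536870912) (P3 := 587336777) (W3 := 62277027) (N0 := 3) (En := eng) (mo := mog) (C1 := cd2q0) (C2 := cd3q0) (C3 := pd1)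
    rfl k0_pp_001

noncomputable def f_pp_011 : ℕ → ℕ → ℕ → ℕ → Bool := onCell 0 536870912 536870912 536870912 587336777 62277027
    (rowB 3 eng mog cd2q0 cd3q1 pd1 0 true true true .pnn 0 1 1 (qsf 0 536870912 536870912 536870912 1) ndB2q0 ndB3q1 pcB1 Cut.none Ext.none)

def k0_pp_011 : ∃ t, chk3 f_pp_011 t 1 1 1 = true :=
  ⟨(l 4), by decide +kernel⟩

theorem c_pp_011 : CertB 0 536870912 536870912 536870912 587336777 62277027 3 eng mog cd2q0 cd3q1 pd1 true true true .pnn 0 1 1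
    ndB2q0 ndB3q1 pcB1 Cut.none Ext.none :=
  certB0 (fam := true) (s1 := true) (s2 := true) (a := 0) (b := 1) (c := 1) (cn := .pnn) (n1 := ndB2q0) (n2 := ndB3q1) (pc := pcB1) (cut := Cut.none) (xt := Ext.none) (P1 := 0) (W1 := 536870912) (P2 := 536870912) (W2 := 536870912) (P3 := 587336777) (W3 := 62277027) (N0 := 3) (En := eng) (mo := mog) (C1 := cd2q0) (C2 := cd3q1) (C3 := pd1)
    rfl k0_pp_011

noncomputable def f_pp_012 : ℕ → ℕ → ℕ → ℕ → Bool := onCell 0 536870912 536870912 536870912 587336777 62277027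
    (rowB 3 eng mog cd2q0 cd3q1 pd2 0 true true true .pnp 0 1 2 (qsf 0 536870912 536870912 536870912 2) ndB2q0 ndB3q1 pcB2 Cut.none Ext.none)

def k0_pp_012 : ∃ t, chk3 f_pp_012 t 1 1 1 = true :=
  ⟨(l 4), by decide +kernel⟩

theorem c_pp_012 : CertB 0 536870912 536870912 536870912 587336777 62277027 3 eng mog cd2q0 cd3q1 pd2 true true true .pnp 0 1 2
    ndB2q0 ndB3q1 pcB2 Cut.none Ext.none :=
  certB0 (fam := true) (s1 := true) (s2 := true) (a := 0) (b := 1) (c := 2) (cn := .pnp) (n1 := ndB2q0) (n2 := ndB3q1) (pc := pcB2) (cut := Cut.none) (xt := Ext.none) (P1 := 0) (W1 := 536870912) (P2 := 536870912) (W2 := 536870912) (P3 := 587336777) (W3 := 62277027) (N0 := 3) (En := eng) (mo := mog) (C1 := cd2q0) (C2 := cd3q1) (C3 := pd2)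
    rfl k0_pp_012

noncomputable def cut_pp_022_a : Cut := Cut.of [[⟨0, 0, 0, 67108864⟩, ⟨1, 1, 0, 67108864⟩, ⟨2, 1, 0, 67108864⟩]]

noncomputable def f_pp_022_a : ℕ → ℕ → ℕ → ℕ → Bool := onCell 0 536870912 0 536870912 587336777 62277027
    (rowB 3 eng mog cd2q0 cd3q2a pd2 0 true true true .pp 0 2 2 (qsf 0 536870912 0 536870912 2) ndB2q0 ndB3q2a pcB2 cut_pp_022_a Ext.none)

def k0_pp_022_a : ∃ t, chk3 f_pp_022_a t 1 1 1 = true :=
  ⟨(a (b (a (a (b (a (b (a (b (l 16457768) (l 16460336)) (l 16490640)) (a (b (l 16465208) (l 16472424)) (a (l 16561248) (l 16483136)))) (b (a (l 16480312) (l 16491008)) (a (l 16491824) (l 16503448)))) (a (a (b (b (l 16482064) (l 16494184)) (b (l 16508880) (l 16526224))) (b (b (l 16556808) (l 16569240)) (l 16530232))) (b (a (l 16512760) (l 16525384)) (a (b (l 16534424) (l 16552352)) (l 16578104))))) (b (a (b (l 16507104) (l 16583864)) (l 16578368)) (a (b (l 16544416) (l 16609216)) (b (l 16569296) (l 16646120))))) (a (b (a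 (l 16603360) (b (l 16584256) (l 16601128))) (b (a (l 16595504) (l 4)) (l 4))) (b (a (l 12046071335) (b (l 16640912) (l 4))) (l 4)))) (a (b (a (a (b (a (b (l 16546288) (l 16568816)) (b (l 16559224) (l 16582280))) (a (b (a (l 16589560) (l 16597464)) (a (l 16616784) (l 16625200))) (b (l 16608072) (l 16657584)))) (b (a (l 16605680) (b (l 16587176) (l 16610824))) (a (b (l 16622264) (l 16672000)) (b (l 16637168) (l 16666440))))) (a (b (b (l 16608840) (a (l 16625680) (l 4))) (b (a (l 16652400) (l 4)) (l 4))) (l 4))) (a (b (a (a (b (a (a (b (l 16636776) (l 16652584)) (l 16649272)) (l 16676920)) (a (b (b (l 16667408) (l 6)) (l 6)) (b (l 16681032) (l 16719984)))) (a (b (l 16664376) (b (l 16689328) (l 16706952))) (b (l 16671360) (b (l 16696568) (l 16714704))))) (a (b (a (l 16678832) (l 16686728)) (l 4)) (l 4))) (a (a (l 6) (a (a (l 6) (l 4)) (l 4))) (l 4))) (l 4))) (l 4))) (b (l 4) (l 4))), by decide +kernel⟩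

theorem c_pp_022_a : CertB 0 536870912 0 536870912 587336777 62277027 3 eng mog cd2q0 cd3q2a pd2 true true true .pp 0 2 2
    ndB2q0 ndB3q2a pcB2 cut_pp_022_a Ext.none :=
  certB0 (fam := true) (s1 := true) (s2 := true) (a := 0) (b := 2) (c := 2) (cn := .pp) (n1 := ndB2q0) (n2 := ndB3q2a) (pc := pcB2) (cut := cut_pp_022_a) (xt := Ext.none) (P1 := 0) (W1 := 536870912) (P2 := 0) (W2 := 536870912) (P3 := 587336777) (W3 := 62277027) (N0 := 3) (En := eng) (mo := mog) (C1 := cd2q0) (C2 := cd3q2a) (C3 := pd2)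
    rfl k0_pp_022_a

noncomputable def cut_pp_022_b : Cut := Cut.of [[⟨0, 0, 0, 67108864⟩, ⟨1, 1, 0, 67108864⟩, ⟨2, 1, 0, 67108864⟩]]

noncomputable def f_pp_022_b : ℕ → ℕ → ℕ → ℕ → Bool := onCell 0 536870912 1239849684 370763052 587336777 62277027
    (rowB 3 eng mog cd2q0 cd3q2b pd2 0 true true true .pp 0 2 2 (qsf 0 536870912 1239849684 370763052 2) ndB2q0 ndB3q2b pcB2 cut_pp_022_b Ext.none)

def k0_pp_022_b : ∃ t, chk3 f_pp_022_b t 1 1 1 = true :=
  ⟨(a (b (a (b (a (b (b (a (a (b (a (l 16444024) (l 16448976)) (l 16446032)) (l 16445768)) (a (l 16455800) (l 16465872))) (a (a (l 16392392) (l 16401928)) (l 16416376))) (a (b (l 16352232) (l 16305720)) (l 16388400))) (b (a (b (l 16480992) (l 16435304)) (l 16524296)) (a (l 16446432) (l 16514064)))) (a (b (a (l 16238152) (l 16366944)) (a (b (l 16181808) (l 16149312)) (l 16252272))) (b (a (l 16376952) (l 16328344)) (a (l 16238288) (l 16448496))))) (b (a (b (a (b (l 16523432) (l 16473216)) (b (l 16554040)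 (l 16502480))) (a (l 16462528) (l 16519896))) (b (a (l 16662712) (b (l 16611208) (l 4))) (a (l 16581272) (l 4)))) (a (b (a (l 16410440) (l 16446376)) (l 4)) (l 4)))) (a (b (a (b (a (b (l 16121752) (l 16098032)) (l 16234688)) (a (l 16150464) (b (l 16120632) (l 16105680)))) (a (a (b (l 16183064) (l 16154016)) (b (l 16207344) (l 4))) (l 4))) (a (b (a (b (l 16040584) (l 16028192)) (b (l 16096024) (l 4))) (a (b (l 16021192) (l 4)) (l 4))) (l 4))) (l 4))) (b (l 4) (l 2))), by decide +kernel⟩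

theorem c_pp_022_b : CertB 0 536870912 1239849684 370763052 587336777 62277027 3 eng mog cd2q0 cd3q2b pd2 true true true .pp 0 2 2
    ndB2q0 ndB3q2b pcB2 cut_pp_022_b Ext.none :=
  certB0 (fam := true) (s1 := true) (s2 := true) (a := 0) (b := 2) (c := 2) (cn := .pp) (n1 := ndB2q0) (n2 := ndB3q2b) (pc := pcB2) (cut := cut_pp_022_b) (xt := Ext.none) (P1 := 0) (W1 := 536870912) (P2 := 1239849684) (W2 := 370763052) (P3 := 587336777) (W3 := 62277027) (N0 := 3) (En := eng) (mo := mog) (C1 := cd2q0) (C2 := cd3q2b) (C3 := pd2)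
    rfl k0_pp_022_b

noncomputable def f_pp_023_a : ℕ → ℕ → ℕ → ℕ → Bool := onCell 1610612736 536870912 0 536870912 587336777 62277027
    (rowB 3 eng mog cd2q0 cd3q2a pd3 2 true true true .up 0 2 3 (qsf 0 536870912 0 536870912 3) ndB2q0 ndB3q2a pcB3 Cut.none Ext.none)

def k0_pp_023_a : ∃ t, chk3 f_pp_023_a t 1 1 1 = true :=
  ⟨(a (l 4) (l 2)), by decide +kernel⟩

theorem c_pp_023_a : CertB 0 536870912 0 536870912 587336777 62277027 3 eng mog cd2q0 cd3q2a pd3 true true true .up 0 2 3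
    ndB2q0 ndB3q2a pcB3 Cut.none Ext.none :=
  certB2 (fam := true) (s1 := true) (s2 := true) (a := 0) (b := 2) (c := 3) (cn := .up) (n1 := ndB2q0) (n2 := ndB3q2a) (pc := pcB3) (cut := Cut.none) (xt := Ext.none) (P1 := 0) (W1 := 536870912) (P2 := 0) (W2 := 536870912) (P3 := 587336777) (W3 := 62277027) (N0 := 3) (En := eng) (mo := mog) (C1 := cd2q0) (C2 := cd3q2a) (C3 := pd3)
    rfl (fun _ => rfl) k0_pp_023_a

noncomputable def f_pp_023_b : ℕ → ℕ → ℕ → ℕ → Bool := onCell 1610612736 536870912 1239849684 370763052 587336777 62277027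
    (rowB 3 eng mog cd2q0 cd3q2b pd3 2 true true true .up 0 2 3 (qsf 0 536870912 1239849684 370763052 3) ndB2q0 ndB3q2b pcB3 Cut.none Ext.none)

def k0_pp_023_b : ∃ t, chk3 f_pp_023_b t 1 1 1 = true :=
  ⟨(a (l 4) (l 4)), by decide +kernel⟩

theorem c_pp_023_b : CertB 0 536870912 1239849684 370763052 587336777 62277027 3 eng mog cd2q0 cd3q2b pd3 true true true .up 0 2 3
    ndB2q0 ndB3q2b pcB3 Cut.none Ext.none :=
  certB2 (fam := true) (s1 := true) (s2 := true) (a := 0) (b := 2) (c := 3) (cn := .up) (n1 := ndB2q0) (n2 := ndB3q2b) (pc := pcB3) (cut := Cut.none) (xt := Ext.none) (P1 := 0) (W1 := 536870912) (P2 := 1239849684) (W2 := 370763052) (P3 := 587336777) (W3 := 62277027) (N0 := 3) (En := eng) (mo := mog) (C1 := cd2q0) (C2 := cd3q2b) (C3 := pd3)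
    rfl (fun _ => rfl) k0_pp_023_b

noncomputable def f_pp_033 : ℕ → ℕ → ℕ → ℕ → Bool := onCell 0 536870912 1610612736 536870912 587336777 62277027
    (rowB 3 eng mog cd2q0 cd3q3 pd3 1 true true true .pnn 0 3 3 (qsf 0 536870912 1610612736 536870912 3) ndB2q0 ndB3q3 pcB3 Cut.none Ext.none)

def k0_pp_033 : ∃ t, chk3 f_pp_033 t 1 1 1 = true :=
  ⟨(b (b (l 4) (l 4)) (l 4)), by decide +kernel⟩

theorem c_pp_033 : CertB 0 536870912 1610612736 536870912 587336777 62277027 3 eng mog cd2q0 cd3q3 pd3 true true true .pnn 0 3 3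
    ndB2q0 ndB3q3 pcB3 Cut.none Ext.none :=
  certB1 (fam := true) (s1 := true) (s2 := true) (a := 0) (b := 3) (c := 3) (cn := .pnn) (n1 := ndB2q0) (n2 := ndB3q3) (pc := pcB3) (cut := Cut.none) (xt := Ext.none) (P1 := 0) (W1 := 536870912) (P2 := 1610612736) (W2 := 536870912) (P3 := 587336777) (W3 := 62277027) (N0 := 3) (En := eng) (mo := mog) (C1 := cd2q0) (C2 := cd3q3) (C3 := pd3)
    rfl (fun _ => rfl) k0_pp_033

noncomputable def f_pp_101 : ℕ → ℕ → ℕ → ℕ → Bool := onCell 536870912 536870912 0 536870912 587336777 62277027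
    (rowB 3 eng mog cd2q1 cd3q0 pd1 0 true true true .npn 1 0 1 (qsf 536870912 536870912 0 536870912 1) ndB2q1 ndB3q0 pcB1 Cut.none Ext.none)

def k0_pp_101 : ∃ t, chk3 f_pp_101 t 1 1 1 = true :=
  ⟨(l 4), by decide +kernel⟩

theorem c_pp_101 : CertB 536870912 536870912 0 536870912 587336777 62277027 3 eng mog cd2q1 cd3q0 pd1 true true true .npn 1 0 1
    ndB2q1 ndB3q0 pcB1 Cut.none Ext.none :=
  certB0 (fam := true) (s1 := true) (s2 := true) (a := 1) (b := 0) (c := 1) (cn := .npn) (n1 := ndB2q1) (n2 := ndB3q0) (pc := pcB1) (cut := Cut.none) (xt := Ext.none) (P1 := 536870912) (W1 := 536870912) (P2 := 0) (W2 := 536870912) (P3 := 587336777) (W3 := 62277027) (N0 := 3) (En := eng) (mo := mog) (C1 := cd2q1) (C2 := cd3q0) (C3 := pd1)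
    rfl k0_pp_101

noncomputable def f_pp_102 : ℕ → ℕ → ℕ → ℕ → Bool := onCell 536870912 536870912 0 536870912 587336777 62277027
    (rowB 3 eng mog cd2q1 cd3q0 pd2 0 true true true .npp 1 0 2 (qsf 536870912 536870912 0 536870912 2) ndB2q1 ndB3q0 pcB2 Cut.none Ext.none)

def k0_pp_102 : ∃ t, chk3 f_pp_102 t 1 1 1 = true :=
  ⟨(l 4), by decide +kernel⟩

theorem c_pp_102 : CertB 536870912 536870912 0 536870912 587336777 62277027 3 eng mog cd2q1 cd3q0 pd2 true true true .npp 1 0 2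
    ndB2q1 ndB3q0 pcB2 Cut.none Ext.none :=
  certB0 (fam := true) (s1 := true) (s2 := true) (a := 1) (b := 0) (c := 2) (cn := .npp) (n1 := ndB2q1) (n2 := ndB3q0) (pc := pcB2) (cut := Cut.none) (xt := Ext.none) (P1 := 536870912) (W1 := 536870912) (P2 := 0) (W2 := 536870912) (P3 := 587336777) (W3 := 62277027) (N0 := 3) (En := eng) (mo := mog) (C1 := cd2q1) (C2 := cd3q0) (C3 := pd2)
    rfl k0_pp_102

noncomputable def f_pp_112 : ℕ → ℕ → ℕ → ℕ → Bool := onCell 536870912 536870912 536870912 536870912 587336777 62277027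
    (rowB 3 eng mog cd2q1 cd3q1 pd2 0 true true true .dn 1 1 2 (qsf 536870912 536870912 536870912 536870912 2) ndB2q1 ndB3q1 pcB2 Cut.none Ext.none)

def k0_pp_112 : ∃ t, chk3 f_pp_112 t 1 1 1 = true :=
  ⟨(l 4), by decide +kernel⟩

theorem c_pp_112 : CertB 536870912 536870912 536870912 536870912 587336777 62277027 3 eng mog cd2q1 cd3q1 pd2 true true true .dn 1 1 2
    ndB2q1 ndB3q1 pcB2 Cut.none Ext.none :=
  certB0 (fam := true) (s1 := true) (s2 := true) (a := 1) (b := 1) (c := 2) (cn := .dn) (n1 := ndB2q1) (n2 := ndB3q1) (pc := pcB2) (cut := Cut.none) (xt := Ext.none) (P1 := 536870912) (W1 := 536870912) (P2 := 536870912) (W2 := 536870912) (P3 := 587336777) (W3 := 62277027) (N0 := 3) (En := eng) (mo := mog) (C1 := cd2q1) (C2 := cd3q1) (C3 := pd2)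
    rfl k0_pp_112

noncomputable def f_pp_113 : ℕ → ℕ → ℕ → ℕ → Bool := onCell 536870912 536870912 536870912 536870912 587336777 62277027
    (rowB 3 eng mog cd2q1 cd3q1 pd3 0 true true true .nn 1 1 3 (qsf 536870912 536870912 536870912 536870912 3) ndB2q1 ndB3q1 pcB3 Cut.none Ext.none)

def k0_pp_113 : ∃ t, chk3 f_pp_113 t 1 1 1 = true :=
  ⟨(l 4), by decide +kernel⟩

theorem c_pp_113 : CertB 536870912 536870912 536870912 536870912 587336777 62277027 3 eng mog cd2q1 cd3q1 pd3 true true true .nn 1 1 3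
    ndB2q1 ndB3q1 pcB3 Cut.none Ext.none :=
  certB0 (fam := true) (s1 := true) (s2 := true) (a := 1) (b := 1) (c := 3) (cn := .nn) (n1 := ndB2q1) (n2 := ndB3q1) (pc := pcB3) (cut := Cut.none) (xt := Ext.none) (P1 := 536870912) (W1 := 536870912) (P2 := 536870912) (W2 := 536870912) (P3 := 587336777) (W3 := 62277027) (N0 := 3) (En := eng) (mo := mog) (C1 := cd2q1) (C2 := cd3q1) (C3 := pd3)
    rfl k0_pp_113

noncomputable def f_pp_123_a : ℕ → ℕ → ℕ → ℕ → Bool := onCell 536870912 536870912 0 536870912 587336777 62277027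
    (rowB 3 eng mog cd2q1 cd3q2a pd3 0 true true true .npn 1 2 3 (qsf 536870912 536870912 0 536870912 3) ndB2q1 ndB3q2a pcB3 Cut.none Ext.none)

def k0_pp_123_a : ∃ t, chk3 f_pp_123_a t 1 1 1 = true :=
  ⟨(l 4), by decide +kernel⟩

theorem c_pp_123_a : CertB 536870912 536870912 0 536870912 587336777 62277027 3 eng mog cd2q1 cd3q2a pd3 true true true .npn 1 2 3
    ndB2q1 ndB3q2a pcB3 Cut.none Ext.none :=
  certB0 (fam := true) (s1 := true) (s2 := true) (a := 1) (b := 2) (c := 3) (cn := .npn) (n1 := ndB2q1) (n2 := ndB3q2a) (pc := pcB3) (cut := Cut.none) (xt := Ext.none) (P1 := 536870912) (W1 := 536870912) (P2 := 0) (W2 := 536870912) (P3 := 587336777) (W3 := 62277027) (N0 := 3) (En := eng) (mo := mog) (C1 := cd2q1) (C2 := cd3q2a) (C3 := pd3)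
    rfl k0_pp_123_a

noncomputable def f_pp_123_b : ℕ → ℕ → ℕ → ℕ → Bool := onCell 536870912 536870912 1239849684 370763052 587336777 62277027
    (rowB 3 eng mog cd2q1 cd3q2b pd3 0 true true true .npn 1 2 3 (qsf 536870912 536870912 1239849684 370763052 3) ndB2q1 ndB3q2b pcB3 Cut.none Ext.none)

def k0_pp_123_b : ∃ t, chk3 f_pp_123_b t 1 1 1 = true :=
  ⟨(l 4), by decide +kernel⟩

theorem c_pp_123_b : CertB 536870912 536870912 1239849684 370763052 587336777 62277027 3 eng mog cd2q1 cd3q2b pd3 true true true .npn 1 2 3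
    ndB2q1 ndB3q2b pcB3 Cut.none Ext.none :=
  certB0 (fam := true) (s1 := true) (s2 := true) (a := 1) (b := 2) (c := 3) (cn := .npn) (n1 := ndB2q1) (n2 := ndB3q2b) (pc := pcB3) (cut := Cut.none) (xt := Ext.none) (P1 := 536870912) (W1 := 536870912) (P2 := 1239849684) (W2 := 370763052) (P3 := 587336777) (W3 := 62277027) (N0 := 3) (En := eng) (mo := mog) (C1 := cd2q1) (C2 := cd3q2b) (C3 := pd3)
    rfl k0_pp_123_b

noncomputable def f_pp_133 : ℕ → ℕ → ℕ → ℕ → Bool := onCell 536870912 536870912 1610612736 536870912 587336777 62277027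
    (rowB 3 eng mog cd2q1 cd3q3 pd3 0 true true true .dn 1 3 3 (qsf 536870912 536870912 1610612736 536870912 3) ndB2q1 ndB3q3 pcB3 Cut.none Ext.none)

def k0_pp_133 : ∃ t, chk3 f_pp_133 t 1 1 1 = true :=
  ⟨(l 4), by decide +kernel⟩

theorem c_pp_133 : CertB 536870912 536870912 1610612736 536870912 587336777 62277027 3 eng mog cd2q1 cd3q3 pd3 true true true .dn 1 3 3
    ndB2q1 ndB3q3 pcB3 Cut.none Ext.none :=
  certB0 (fam := true) (s1 := true) (s2 := true) (a := 1) (b := 3) (c := 3) (cn := .dn) (n1 := ndB2q1) (n2 := ndB3q3) (pc := pcB3) (cut := Cut.none) (xt := Ext.none) (P1 := 536870912) (W1 := 536870912) (P2 := 1610612736) (W2 := 536870912) (P3 := 587336777) (W3 := 62277027) (N0 := 3) (En := eng) (mo := mog) (C1 := cd2q1) (C2 := cd3q3) (C3 := pd3)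
    rfl k0_pp_133

noncomputable def f_pp_202_a : ℕ → ℕ → ℕ → ℕ → Bool := onCell 0 536870912 0 536870912 587336777 62277027
    (rowB 3 eng mog cd2q2a cd3q0 pd2 0 true true true .pp 2 0 2 (qsf 0 536870912 0 536870912 2) ndB2q2a ndB3q0 pcB2 Cut.none Ext.none)

def k0_pp_202_a : ∃ t, chk3 f_pp_202_a t 1 1 1 = true :=
  ⟨(l 5), by decide +kernel⟩

theorem c_pp_202_a : CertB 0 536870912 0 536870912 587336777 62277027 3 eng mog cd2q2a cd3q0 pd2 true true true .pp 2 0 2
    ndB2q2a ndB3q0 pcB2 Cut.none Ext.none :=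
  certB0 (fam := true) (s1 := true) (s2 := true) (a := 2) (b := 0) (c := 2) (cn := .pp) (n1 := ndB2q2a) (n2 := ndB3q0) (pc := pcB2) (cut := Cut.none) (xt := Ext.none) (P1 := 0) (W1 := 536870912) (P2 := 0) (W2 := 536870912) (P3 := 587336777) (W3 := 62277027) (N0 := 3) (En := eng) (mo := mog) (C1 := cd2q2a) (C2 := cd3q0) (C3 := pd2)
    rfl k0_pp_202_a

noncomputable def f_pp_202_b : ℕ → ℕ → ℕ → ℕ → Bool := onCell 1239849684 370763052 0 536870912 587336777 62277027
    (rowB 3 eng mog cd2q2b cd3q0 pd2 0 true true true .pp 2 0 2 (qsf 1239849684 370763052 0 536870912 2) ndB2q2b ndB3q0 pcB2 Cut.none Ext.none)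

def k0_pp_202_b : ∃ t, chk3 f_pp_202_b t 1 1 1 = true :=
  ⟨(l 5), by decide +kernel⟩

theorem c_pp_202_b : CertB 1239849684 370763052 0 536870912 587336777 62277027 3 eng mog cd2q2b cd3q0 pd2 true true true .pp 2 0 2
    ndB2q2b ndB3q0 pcB2 Cut.none Ext.none :=
  certB0 (fam := true) (s1 := true) (s2 := true) (a := 2) (b := 0) (c := 2) (cn := .pp) (n1 := ndB2q2b) (n2 := ndB3q0) (pc := pcB2) (cut := Cut.none) (xt := Ext.none) (P1 := 1239849684) (W1 := 370763052) (P2 := 0) (W2 := 536870912) (P3 := 587336777) (W3 := 62277027) (N0 := 3) (En := eng) (mo := mog) (C1 := cd2q2b) (C2 := cd3q0) (C3 := pd2)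
    rfl k0_pp_202_b

noncomputable def f_pp_203_a : ℕ → ℕ → ℕ → ℕ → Bool := onCell 0 536870912 0 536870912 587336777 62277027
    (rowB 3 eng mog cd2q2a cd3q0 pd3 0 true true true .up 2 0 3 (qsf 0 536870912 0 536870912 3) ndB2q2a ndB3q0 pcB3 Cut.none Ext.none)

def k0_pp_203_a : ∃ t, chk3 f_pp_203_a t 1 1 1 = true :=
  ⟨(l 5), by decide +kernel⟩

theorem c_pp_203_a : CertB 0 536870912 0 536870912 587336777 62277027 3 eng mog cd2q2a cd3q0 pd3 true true true .up 2 0 3
    ndB2q2a ndB3q0 pcB3 Cut.none Ext.none :=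
  certB0 (fam := true) (s1 := true) (s2 := true) (a := 2) (b := 0) (c := 3) (cn := .up) (n1 := ndB2q2a) (n2 := ndB3q0) (pc := pcB3) (cut := Cut.none) (xt := Ext.none) (P1 := 0) (W1 := 536870912) (P2 := 0) (W2 := 536870912) (P3 := 587336777) (W3 := 62277027) (N0 := 3) (En := eng) (mo := mog) (C1 := cd2q2a) (C2 := cd3q0) (C3 := pd3)
    rfl k0_pp_203_a

noncomputable def f_pp_203_b : ℕ → ℕ → ℕ → ℕ → Bool := onCell 1239849684 370763052 0 536870912 587336777 62277027
    (rowB 3 eng mog cd2q2b cd3q0 pd3 0 true true true .up 2 0 3 (qsf 1239849684 370763052 0 536870912 3) ndB2q2b ndB3q0 pcB3 Cut.none Ext.none)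

def k0_pp_203_b : ∃ t, chk3 f_pp_203_b t 1 1 1 = true :=
  ⟨(l 5), by decide +kernel⟩

theorem c_pp_203_b : CertB 1239849684 370763052 0 536870912 587336777 62277027 3 eng mog cd2q2b cd3q0 pd3 true true true .up 2 0 3
    ndB2q2b ndB3q0 pcB3 Cut.none Ext.none :=
  certB0 (fam := true) (s1 := true) (s2 := true) (a := 2) (b := 0) (c := 3) (cn := .up) (n1 := ndB2q2b) (n2 := ndB3q0) (pc := pcB3) (cut := Cut.none) (xt := Ext.none) (P1 := 1239849684) (W1 := 370763052) (P2 := 0) (W2 := 536870912) (P3 := 587336777) (W3 := 62277027) (N0 := 3) (En := eng) (mo := mog) (C1 := cd2q2b) (C2 := cd3q0) (C3 := pd3)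
    rfl k0_pp_203_b

noncomputable def f_pp_213_a : ℕ → ℕ → ℕ → ℕ → Bool := onCell 0 536870912 536870912 536870912 587336777 62277027
    (rowB 3 eng mog cd2q2a cd3q1 pd3 0 true true true .pnn 2 1 3 (qsf 0 536870912 536870912 536870912 3) ndB2q2a ndB3q1 pcB3 Cut.none Ext.none)

def k0_pp_213_a : ∃ t, chk3 f_pp_213_a t 1 1 1 = true :=
  ⟨(l 4), by decide +kernel⟩

theorem c_pp_213_a : CertB 0 536870912 536870912 536870912 587336777 62277027 3 eng mog cd2q2a cd3q1 pd3 true true true .pnn 2 1 3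
    ndB2q2a ndB3q1 pcB3 Cut.none Ext.none :=
  certB0 (fam := true) (s1 := true) (s2 := true) (a := 2) (b := 1) (c := 3) (cn := .pnn) (n1 := ndB2q2a) (n2 := ndB3q1) (pc := pcB3) (cut := Cut.none) (xt := Ext.none) (P1 := 0) (W1 := 536870912) (P2 := 536870912) (W2 := 536870912) (P3 := 587336777) (W3 := 62277027) (N0 := 3) (En := eng) (mo := mog) (C1 := cd2q2a) (C2 := cd3q1) (C3 := pd3)
    rfl k0_pp_213_a

noncomputable def f_pp_213_b : ℕ → ℕ → ℕ → ℕ → Bool := onCell 1239849684 370763052 536870912 536870912 587336777 62277027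
    (rowB 3 eng mog cd2q2b cd3q1 pd3 0 true true true .pnn 2 1 3 (qsf 1239849684 370763052 536870912 536870912 3) ndB2q2b ndB3q1 pcB3 Cut.none Ext.none)

def k0_pp_213_b : ∃ t, chk3 f_pp_213_b t 1 1 1 = true :=
  ⟨(l 4), by decide +kernel⟩

theorem c_pp_213_b : CertB 1239849684 370763052 536870912 536870912 587336777 62277027 3 eng mog cd2q2b cd3q1 pd3 true true true .pnn 2 1 3
    ndB2q2b ndB3q1 pcB3 Cut.none Ext.none :=
  certB0 (fam := true) (s1 := true) (s2 := true) (a := 2) (b := 1) (c := 3) (cn := .pnn) (n1 := ndB2q2b) (n2 := ndB3q1) (pc := pcB3) (cut := Cut.none) (xt := Ext.none) (P1 := 1239849684) (W1 := 370763052) (P2 := 536870912) (W2 := 536870912) (P3 := 587336777) (W3 := 62277027) (N0 := 3) (En := eng) (mo := mog) (C1 := cd2q2b) (C2 := cd3q1) (C3 := pd3)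
    rfl k0_pp_213_b

noncomputable def f_pp_303 : ℕ → ℕ → ℕ → ℕ → Bool := onCell 1610612736 536870912 0 536870912 587336777 62277027
    (rowB 3 eng mog cd2q3 cd3q0 pd3 0 true true true .npn 3 0 3 (qsf 1610612736 536870912 0 536870912 3) ndB2q3 ndB3q0 pcB3 Cut.none Ext.none)

def k0_pp_303 : ∃ t, chk3 f_pp_303 t 1 1 1 = true :=
  ⟨(l 5), by decide +kernel⟩

theorem c_pp_303 : CertB 1610612736 536870912 0 536870912 587336777 62277027 3 eng mog cd2q3 cd3q0 pd3 true true true .npn 3 0 3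
    ndB2q3 ndB3q0 pcB3 Cut.none Ext.none :=
  certB0 (fam := true) (s1 := true) (s2 := true) (a := 3) (b := 0) (c := 3) (cn := .npn) (n1 := ndB2q3) (n2 := ndB3q0) (pc := pcB3) (cut := Cut.none) (xt := Ext.none) (P1 := 1610612736) (W1 := 536870912) (P2 := 0) (W2 := 536870912) (P3 := 587336777) (W3 := 62277027) (N0 := 3) (En := eng) (mo := mog) (C1 := cd2q3) (C2 := cd3q0) (C3 := pd3)
    rfl k0_pp_303

noncomputable def f_pp_313 : ℕ → ℕ → ℕ → ℕ → Bool := onCell 1610612736 536870912 536870912 536870912 587336777 62277027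
    (rowB 3 eng mog cd2q3 cd3q1 pd3 0 true true true .dn 3 1 3 (qsf 1610612736 536870912 536870912 536870912 3) ndB2q3 ndB3q1 pcB3 Cut.none Ext.none)

def k0_pp_313 : ∃ t, chk3 f_pp_313 t 1 1 1 = true :=
  ⟨(l 4), by decide +kernel⟩

theorem c_pp_313 : CertB 1610612736 536870912 536870912 536870912 587336777 62277027 3 eng mog cd2q3 cd3q1 pd3 true true true .dn 3 1 3
    ndB2q3 ndB3q1 pcB3 Cut.none Ext.none :=
  certB0 (fam := true) (s1 := true) (s2 := true) (a := 3) (b := 1) (c := 3) (cn := .dn) (n1 := ndB2q3) (n2 := ndB3q1) (pc := pcB3) (cut := Cut.none) (xt := Ext.none) (P1 := 1610612736) (W1 := 536870912) (P2 := 536870912) (W2 := 536870912) (P3 := 587336777) (W3 := 62277027) (N0 := 3) (En := eng) (mo := mog) (C1 := cd2q3) (C2 := cd3q1) (C3 := pd3)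
    rfl k0_pp_313

noncomputable def f_pm_001 : ℕ → ℕ → ℕ → ℕ → Bool := onCell 0 536870912 0 536870912 587336777 62277027
    (rowB 3 eng mog cd2q0 cd3q0 pd1 0 true true false .up 0 0 1 (qsf 0 536870912 0 536870912 1) ndB2q0 ndB3q0 pcB1 Cut.none Ext.none)

def k0_pm_001 : ∃ t, chk3 f_pm_001 t 1 1 1 = true :=
  ⟨(l 3), by decide +kernel⟩

theorem c_pm_001 : CertB 0 536870912 0 536870912 587336777 62277027 3 eng mog cd2q0 cd3q0 pd1 true true false .up 0 0 1
    ndB2q0 ndB3q0 pcB1 Cut.none Ext.none :=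
  certB0 (fam := true) (s1 := true) (s2 := false) (a := 0) (b := 0) (c := 1) (cn := .up) (n1 := ndB2q0) (n2 := ndB3q0) (pc := pcB1) (cut := Cut.none) (xt := Ext.none) (P1 := 0) (W1 := 536870912) (P2 := 0) (W2 := 536870912) (P3 := 587336777) (W3 := 62277027) (N0 := 3) (En := eng) (mo := mog) (C1 := cd2q0) (C2 := cd3q0) (C3 := pd1)
    rfl k0_pm_001

noncomputable def f_pm_011 : ℕ → ℕ → ℕ → ℕ → Bool := onCell 0 536870912 536870912 536870912 587336777 62277027
    (rowB 3 eng mog cd2q0 cd3q1 pd1 1 true true false .pnn 0 1 1 (qsf 0 536870912 536870912 536870912 1) ndB2q0 ndB3q1 pcB1 Cut.none Ext.none)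

def k0_pm_011 : ∃ t, chk3 f_pm_011 t 1 1 1 = true :=
  ⟨(l 3), by decide +kernel⟩

theorem c_pm_011 : CertB 0 536870912 536870912 536870912 587336777 62277027 3 eng mog cd2q0 cd3q1 pd1 true true false .pnn 0 1 1
    ndB2q0 ndB3q1 pcB1 Cut.none Ext.none :=
  certB1 (fam := true) (s1 := true) (s2 := false) (a := 0) (b := 1) (c := 1) (cn := .pnn) (n1 := ndB2q0) (n2 := ndB3q1) (pc := pcB1) (cut := Cut.none) (xt := Ext.none) (P1 := 0) (W1 := 536870912) (P2 := 536870912) (W2 := 536870912) (P3 := 587336777) (W3 := 62277027) (N0 := 3) (En := eng) (mo := mog) (C1 := cd2q0) (C2 := cd3q1) (C3 := pd1)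
    rfl (fun _ => rfl) k0_pm_011

noncomputable def f_pm_012 : ℕ → ℕ → ℕ → ℕ → Bool := onCell 1073741824 536870912 536870912 536870912 587336777 62277027
    (rowB 3 eng mog cd2q0 cd3q1 pd2 2 true true false .pnp 0 1 2 (qsf 0 536870912 536870912 536870912 2) ndB2q0 ndB3q1 pcB2 Cut.none Ext.none)

def k0_pm_012 : ∃ t, chk3 f_pm_012 t 1 1 1 = true :=
  ⟨(a (a (l 3) (a (a (a (b (l 3) (l 3)) (b (b (l 2) (a (l 3) (a (l 16730952) (a (a (l 16667128) (l 16667232)) (l 16667000))))) (a (b (l 3) (b (l 3) (a (l 3) (l 263770941271)))) (b (a (l 3) (b (a (l 3) (l 16632736)) (a (b (l 3) (l 16596424)) (l 16602632)))) (a (b (a (l 3) (l 16573560)) (a (l 16524088) (b (l 16549496) (l 16535616)))) (b (a (b (l 16579896) (l 16563128)) (l 16569192)) (a (b (c (l 16551640) (l 16563768)) (c (l 16535288) (l 16530584))) (b (l 16543976) (l 16529664))))))))) (b (b (l 2) (l 16663432)) (b (b (l 16624336) (l 16590704)) (b (l 16552288) (b (l 16523072) (l 16506000)))))) (b (b (l 2) (l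 16807696)) (b (b (l 16609088) (l 16565056)) (b (l 16514384) (b (l 16474144) (l 16449136))))))) (b (a (b (l 2) (a (l 16674560) (l 2))) (l 2)) (b (a (b (l 16617808) (a (l 16552256) (l 16565136))) (b (l 2) (l 16636832))) (a (b (a (l 16486352) (l 16484912)) (a (l 16414216) (l 16394528))) (b (l 16536712) (l 16419760)))))), by decide +kernel⟩

theorem c_pm_012 : CertB 0 536870912 536870912 536870912 587336777 62277027 3 eng mog cd2q0 cd3q1 pd2 true true false .pnp 0 1 2
    ndB2q0 ndB3q1 pcB2 Cut.none Ext.none :=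
  certB2 (fam := true) (s1 := true) (s2 := false) (a := 0) (b := 1) (c := 2) (cn := .pnp) (n1 := ndB2q0) (n2 := ndB3q1) (pc := pcB2) (cut := Cut.none) (xt := Ext.none) (P1 := 0) (W1 := 536870912) (P2 := 536870912) (W2 := 536870912) (P3 := 587336777) (W3 := 62277027) (N0 := 3) (En := eng) (mo := mog) (C1 := cd2q0) (C2 := cd3q1) (C3 := pd2)
    rfl (fun _ => rfl) k0_pm_012

noncomputable def cut_pm_022_a : Cut := Cut.of [[⟨0, 0, 0, 67108864⟩, ⟨1, 1, 0, 67108864⟩, ⟨2, 1, 0, 67108864⟩]]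

noncomputable def f_pm_022_a : ℕ → ℕ → ℕ → ℕ → Bool := onCell 1073741824 536870912 0 536870912 587336777 62277027
    (rowB 3 eng mog cd2q0 cd3q2a pd2 2 true true false .pp 0 2 2 (qsf 0 536870912 0 536870912 2) ndB2q0 ndB3q2a pcB2 cut_pm_022_a Ext.none)

def k0_pm_022_a : ∃ t, chk3 f_pm_022_a t 2 2 1 = true :=
  ⟨(a (a (l 1) (b (l 1) (a (l 1) (b (l 1) (a (l 1) (b (l 1) (a (l 1) (l 171294842567)))))))) (a (a (a (b (l 1) (b (b (l 112775847319) (a (l 1) (l 16485624))) (b (a (l 168073586823) (l 16498312)) (a (l 16513320) (l 16512320))))) (b (a (b (l 1) (b (l 1) (l 16466168))) (a (b (l 1) (l 16463584)) (b (b (l 16453704) (a (l 16455872) (l 16456176))) (a (l 16463888) (l 16464064))))) (a (b (b (l 16475056) (l 16485656)) (b (l 16497744) (l 16511080))) (a (b (l 16480632) (l 16503848)) (a (b (l 16480600) (l 16503376)) (b (l 16480568) (l 16503048))))))) (b (b (a (a (l 16455976) (l 16456968)) (l 16458816)) (a (a (l 16464424) (l 16464712)) (l 16465360))) (b (a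 (b (l 16475280) (l 16484616)) (l 16479208)) (a (b (l 16495264) (l 16506952)) (l 16498128))))) (b (a (b (l 16463480) (b (l 16465376) (l 16469168))) (b (l 16470624) (l 16471472))) (b (a (l 16478408) (l 16477688)) (a (l 16493776) (l 16488296)))))), by decide +kernel⟩

def k1_pm_022_a : ∃ t, chk3 f_pm_022_a t 4 3 1 = true :=
  ⟨(a (b (l 1) (b (a (l 1) (a (b (l 1) (l 6)) (a (b (l 1) (l 6)) (b (b (l 1) (b (l 129419191943) (a (l 6) (l 16645664)))) (b (b (l 229277203735) (l 16659616)) (l 16669336)))))) (a (l 6) (a (l 6) (a (l 6) (b (b (l 16682152) (l 16692528)) (b (l 16698720) (l 16704336)))))))) (b (b (a (l 1) (a (b (a (l 1) (l 104186012407)) (a (l 138008952823) (b (l 16547208) (l 16556984)))) (b (a (l 141230107559) (l 16530656)) (a (l 16550248) (l 16548112))))) (a (a (b (l 1) (a (l 1) (b (l 97743729783) (l 173979419447)))) (b (a (b (l 1) (l 114923530423)) (b (l 127808403191) (l 167536877207))) (a (b (l 139619635479) (l 16607952)) (b (l 16593456) (l 16604528)))))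 (a (b (a (b (l 16569264) (l 16579760)) (l 16571992)) (b (l 16588696) (l 16599024))) (b (l 16567664) (l 16586320))))) (b (a (b (a (a (b (a (l 132103520887) (l 168610738599)) (b (l 16636304) (l 16642608))) (b (l 16623280) (l 16635400))) (b (l 16617608) (a (l 16631136) (l 16626648)))) (a (b (a (l 16651960) (l 16647344)) (a (l 16664336) (l 16659160))) (b (l 16640040) (l 16650840)))) (a (b (b (l 16609320) (l 16619512)) (l 16632752)) (b (l 16604728) (l 16619096)))) (a (a (b (b (l 16673416) (l 16679936)) (b (l 16686016) (l 16691528))) (b (l 16681792) (b (l 16669776) (l 16675152)))) (b (a (l 16645752) (l 16631664)) (a (l 16657184) (l 16642736))))))), by decide +kernel⟩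

def k2_pm_022_a : ∃ t, chk3 f_pm_022_a t 5 3 1 = true :=
  ⟨(a (b (a (a (b (b (l 16528272) (l 16544472)) (b (l 16561096) (l 16577736))) (b (a (b (l 16525368) (l 16540312)) (a (l 16531224) (a (l 16530192) (l 16529496)))) (a (l 16563544) (a (l 16560200) (l 16620832))))) (b (a (l 16526208) (l 16520016)) (l 16589592))) (a (a (b (b (l 16593048) (l 16606416)) (b (l 16618504) (l 16671088))) (b (a (l 16591512) (a (l 16587344) (a (l 16585312) (l 16583960)))) (a (b (l 16609184) (l 16619504)) (a (b (l 16604704) (l 16614912)) (b (a (l 16602520) (l 16601088)) (a (l 16612688) (l 16611216))))))) (a (b (l 16577992) (b (l 16594888) (l 16604816))) (b (l 16547184) (b (l 16584792) (l 16594280)))))) (b (a (b (l 16511224) (l 16530496)) (b (l 16500000) (l 16517832))) (b (b (l 16541928) (l 16595248)) (b (l 16584096) (a (l 16579808) (l 16563360)))))), by decide +kernel⟩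

def k3_pm_022_a : ∃ t, chk3 f_pm_022_a t 3 1 1 = true :=
  ⟨(b (a (a (b (b (a (l 16478320) (l 16487008)) (l 16626136)) (a (b (l 16478152) (l 16483560)) (l 16564080))) (b (a (b (l 16495864) (l 16487440)) (l 16506688)) (a (l 16602608) (l 16480136)))) (b (a (b (l 16538184) (l 16520664)) (l 16559112)) (a (l 16486976) (l 16493264)))) (a (b (a (b (l 16486704) (l 16509032)) (b (l 16490160) (l 16505120))) (a (b (a (l 16531992) (l 16525152)) (a (l 16547640) (l 16538328))) (b (l 16560120) (a (l 16532200) (l 16524016))))) (b (a (b (l 16485464) (l 16499176)) (l 16491944)) (a (b (l 16509848) (l 16517792)) (b (l 16508256) (l 16520000)))))), by decide +kernel⟩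

theorem s4_pm_022_a : ∃ t, chk3 f_pm_022_a t 2 3 1 = true := ex3_a k1_pm_022_a k2_pm_022_a

theorem s5_pm_022_a : ∃ t, chk3 f_pm_022_a t 2 1 1 = true := ex3_b k0_pm_022_a s4_pm_022_a

theorem s6_pm_022_a : ∃ t, chk3 f_pm_022_a t 1 1 1 = true := ex3_a s5_pm_022_a k3_pm_022_a

theorem c_pm_022_a : CertB 0 536870912 0 536870912 587336777 62277027 3 eng mog cd2q0 cd3q2a pd2 true true false .pp 0 2 2
    ndB2q0 ndB3q2a pcB2 cut_pm_022_a Ext.none :=
  certB2 (fam := true) (s1 := true) (s2 := false) (a := 0) (b := 2) (c := 2) (cn := .pp) (n1 := ndB2q0) (n2 := ndB3q2a) (pc := pcB2) (cut := cut_pm_022_a) (xt := Ext.none) (P1 := 0) (W1 := 536870912) (P2 := 0) (W2 := 536870912) (P3 := 587336777) (W3 := 62277027) (N0 := 3) (En := eng) (mo := mog) (C1 := cd2q0) (C2 := cd3q2a) (C3 := pd2)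
    rfl (fun _ => rfl) s6_pm_022_a

noncomputable def cut_pm_022_b : Cut := Cut.of [[⟨0, 0, 0, 67108864⟩, ⟨1, 1, 0, 67108864⟩, ⟨2, 1, 0, 67108864⟩]]

noncomputable def f_pm_022_b : ℕ → ℕ → ℕ → ℕ → Bool := onCell 0 536870912 1239849684 370763052 587336777 62277027
    (rowB 3 eng mog cd2q0 cd3q2b pd2 0 true true false .pp 0 2 2 (qsf 0 536870912 1239849684 370763052 2) ndB2q0 ndB3q2b pcB2 cut_pm_022_b Ext.none)

def k0_pm_022_b : ∃ t, chk3 f_pm_022_b t 1 1 1 = true :=
  ⟨(a (b (a (b (a (a (a (b (b (b (a (l 16443992) (l 16445616)) (l 16446400)) (l 16398576)) (l 16351776)) (b (l 16421968) (l 16362032))) (b (a (l 16428048) (l 16434352)) (l 16377568))) (b (a (l 16444048) (l 16457016)) (a (l 16419088) (b (l 16427392) (l 16413968))))) (a (b (a (a (l 16302608) (l 16316424)) (b (l 16345976) (l 16329560))) (a (b (l 16282808) (l 16271688)) (l 16318000))) (b (a (l 16453008) (l 16405016)) (l 16385128)))) (b (a (b (a (b (l 16480176) (l 16463552)) (b (l 16495456)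 (l 16487880))) (a (l 16448984) (l 16482200))) (b (a (l 16515008) (l 16538584)) (l 16529592))) (a (b (l 16463728) (l 16472864)) (l 16545520)))) (a (b (a (a (b (l 16269696) (l 16286248)) (l 16331328)) (b (l 16398320) (l 16424520))) (a (a (l 16340056) (l 16401168)) (b (l 16460240) (l 2)))) (b (a (b (l 16492784) (l 16519896)) (l 2)) (l 2)))) (b (a (b (a (b (l 16572056) (l 16586552)) (b (l 16611888) (l 2))) (a (b (l 16602040) (l 2)) (l 2))) (l 2)) (l 2))), by decide +kernel⟩

theorem c_pm_022_b : CertB 0 536870912 1239849684 370763052 587336777 62277027 3 eng mog cd2q0 cd3q2b pd2 true true false .pp 0 2 2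
    ndB2q0 ndB3q2b pcB2 cut_pm_022_b Ext.none :=
  certB0 (fam := true) (s1 := true) (s2 := false) (a := 0) (b := 2) (c := 2) (cn := .pp) (n1 := ndB2q0) (n2 := ndB3q2b) (pc := pcB2) (cut := cut_pm_022_b) (xt := Ext.none) (P1 := 0) (W1 := 536870912) (P2 := 1239849684) (W2 := 370763052) (P3 := 587336777) (W3 := 62277027) (N0 := 3) (En := eng) (mo := mog) (C1 := cd2q0) (C2 := cd3q2b) (C3 := pd2)
    rfl k0_pm_022_b

noncomputable def f_pm_023_a : ℕ → ℕ → ℕ → ℕ → Bool := onCell 1610612736 536870912 0 536870912 587336777 62277027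
    (rowB 3 eng mog cd2q0 cd3q2a pd3 2 true true false .up 0 2 3 (qsf 0 536870912 0 536870912 3) ndB2q0 ndB3q2a pcB3 Cut.none Ext.none)

def k0_pm_023_a : ∃ t, chk3 f_pm_023_a t 1 1 1 = true :=
  ⟨(a (b (a (a (a (b (l 16690392) (a (l 16510528) (l 16546128))) (l 16591800)) (b (l 16654864) (l 16641304))) (a (b (l 16734816) (l 16719296)) (l 2))) (b (a (a (a (a (l 16467712) (l 16565656)) (l 16606880)) (l 16650808)) (l 2)) (a (a (a (a (b (l 16489096) (l 16518112)) (l 206795857719)) (l 16645176)) (a (l 16672816) (l 2))) (l 2)))) (l 2)), by decide +kernel⟩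

theorem c_pm_023_a : CertB 0 536870912 0 536870912 587336777 62277027 3 eng mog cd2q0 cd3q2a pd3 true true false .up 0 2 3
    ndB2q0 ndB3q2a pcB3 Cut.none Ext.none :=
  certB2 (fam := true) (s1 := true) (s2 := false) (a := 0) (b := 2) (c := 3) (cn := .up) (n1 := ndB2q0) (n2 := ndB3q2a) (pc := pcB3) (cut := Cut.none) (xt := Ext.none) (P1 := 0) (W1 := 536870912) (P2 := 0) (W2 := 536870912) (P3 := 587336777) (W3 := 62277027) (N0 := 3) (En := eng) (mo := mog) (C1 := cd2q0) (C2 := cd3q2a) (C3 := pd3)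
    rfl (fun _ => rfl) k0_pm_023_a

noncomputable def f_pm_023_b : ℕ → ℕ → ℕ → ℕ → Bool := onCell 1610612736 536870912 1239849684 370763052 587336777 62277027
    (rowB 3 eng mog cd2q0 cd3q2b pd3 2 true true false .up 0 2 3 (qsf 0 536870912 1239849684 370763052 3) ndB2q0 ndB3q2b pcB3 Cut.none Ext.none)

def k0_pm_023_b : ∃ t, chk3 f_pm_023_b t 1 1 1 = true :=
  ⟨(a (a (a (b (b (a (l 16601360) (l 16598672)) (l 16668392)) (b (a (l 16483560) (l 16505296)) (a (l 16412544) (l 16430552)))) (b (b (b (l 16618344) (l 16612064)) (l 16605904)) (b (l 16554232) (l 16486840)))) (a (b (b (l 16689280) (l 16650392)) (l 16764808)) (b (l 180489709095) (b (l 16700192) (l 16670568))))) (a (a (b (l 224513166199) (l 4)) (l 4)) (l 4))), by decide +kernel⟩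

theorem c_pm_023_b : CertB 0 536870912 1239849684 370763052 587336777 62277027 3 eng mog cd2q0 cd3q2b pd3 true true false .up 0 2 3
    ndB2q0 ndB3q2b pcB3 Cut.none Ext.none :=
  certB2 (fam := true) (s1 := true) (s2 := false) (a := 0) (b := 2) (c := 3) (cn := .up) (n1 := ndB2q0) (n2 := ndB3q2b) (pc := pcB3) (cut := Cut.none) (xt := Ext.none) (P1 := 0) (W1 := 536870912) (P2 := 1239849684) (W2 := 370763052) (P3 := 587336777) (W3 := 62277027) (N0 := 3) (En := eng) (mo := mog) (C1 := cd2q0) (C2 := cd3q2b) (C3 := pd3)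
    rfl (fun _ => rfl) k0_pm_023_b

noncomputable def f_pm_033 : ℕ → ℕ → ℕ → ℕ → Bool := onCell 0 536870912 1610612736 536870912 587336777 62277027
    (rowB 3 eng mog cd2q0 cd3q3 pd3 1 true true false .pnn 0 3 3 (qsf 0 536870912 1610612736 536870912 3) ndB2q0 ndB3q3 pcB3 Cut.none Ext.none)

def k0_pm_033 : ∃ t, chk3 f_pm_033 t 1 1 1 = true :=
  ⟨(a (b (b (b (a (b (l 16372552) (l 16349864)) (l 1)) (a (l 16347064) (l 16497656))) (b (a (l 16418376) (l 16512912)) (a (l 16723280) (l 16578504)))) (l 4)) (b (b (l 1) (b (l 1) (a (l 16666088) (l 1)))) (b (b (a (l 4) (l 1)) (l 4)) (l 4)))), by decide +kernel⟩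

theorem c_pm_033 : CertB 0 536870912 1610612736 536870912 587336777 62277027 3 eng mog cd2q0 cd3q3 pd3 true true false .pnn 0 3 3
    ndB2q0 ndB3q3 pcB3 Cut.none Ext.none :=
  certB1 (fam := true) (s1 := true) (s2 := false) (a := 0) (b := 3) (c := 3) (cn := .pnn) (n1 := ndB2q0) (n2 := ndB3q3) (pc := pcB3) (cut := Cut.none) (xt := Ext.none) (P1 := 0) (W1 := 536870912) (P2 := 1610612736) (W2 := 536870912) (P3 := 587336777) (W3 := 62277027) (N0 := 3) (En := eng) (mo := mog) (C1 := cd2q0) (C2 := cd3q3) (C3 := pd3)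
    rfl (fun _ => rfl) k0_pm_033

noncomputable def f_pm_101 : ℕ → ℕ → ℕ → ℕ → Bool := onCell 536870912 536870912 0 536870912 587336777 62277027
    (rowB 3 eng mog cd2q1 cd3q0 pd1 2 true true false .npn 1 0 1 (qsf 536870912 536870912 0 536870912 1) ndB2q1 ndB3q0 pcB1 Cut.none Ext.none)

def k0_pm_101 : ∃ t, chk3 f_pm_101 t 1 1 1 = true :=
  ⟨(l 3), by decide +kernel⟩

theorem c_pm_101 : CertB 536870912 536870912 0 536870912 587336777 62277027 3 eng mog cd2q1 cd3q0 pd1 true true false .npn 1 0 1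
    ndB2q1 ndB3q0 pcB1 Cut.none Ext.none :=
  certB2 (fam := true) (s1 := true) (s2 := false) (a := 1) (b := 0) (c := 1) (cn := .npn) (n1 := ndB2q1) (n2 := ndB3q0) (pc := pcB1) (cut := Cut.none) (xt := Ext.none) (P1 := 536870912) (W1 := 536870912) (P2 := 0) (W2 := 536870912) (P3 := 587336777) (W3 := 62277027) (N0 := 3) (En := eng) (mo := mog) (C1 := cd2q1) (C2 := cd3q0) (C3 := pd1)
    rfl (fun _ => rfl) k0_pm_101

noncomputable def f_pm_102 : ℕ → ℕ → ℕ → ℕ → Bool := onCell 536870912 536870912 1073741824 536870912 587336777 62277027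
    (rowB 3 eng mog cd2q1 cd3q0 pd2 1 true true false .npp 1 0 2 (qsf 536870912 536870912 0 536870912 2) ndB2q1 ndB3q0 pcB2 Cut.none Ext.none)

def k0_pm_102 : ∃ t, chk3 f_pm_102 t 1 4 1 = true :=
  ⟨(b (l 3) (a (l 3) (b (l 3) (a (b (l 3) (a (l 3) (b (l 3) (a (l 3) (l 16697936))))) (a (b (l 3) (b (a (l 3) (l 16668960)) (a (l 16680160) (l 16659536)))) (b (a (l 16653032) (b (l 16648944) (l 16638352))) (a (b (l 16648120) (b (l 16640528) (l 16635744))) (b (l 16606864) (l 16601688))))))))), by decide +kernel⟩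

def k1_pm_102 : ∃ t, chk3 f_pm_102 t 1 5 1 = true :=
  ⟨(b (b (b (a (a (l 3) (b (l 3) (a (l 3) (l 16727816)))) (a (a (b (l 16721232) (b (l 16717312) (l 16715024))) (b (a (l 16705784) (b (l 16691592) (l 16687760))) (b (a (l 16700280) (l 16684776)) (l 16690400)))) (a (b (a (b (l 16673120) (l 16669256)) (l 16651048)) (a (l 16664176) (l 16642168))) (a (b (b (l 16631216) (l 16626624)) (l 16619560)) (b (a (l 16612456) (l 16602024)) (l 16597224)))))) (a (a (l 2) (b (a (l 16729688) (b (l 16725728) (l 16724464))) (b (a (l 16728552) (l 16723040)) (a (b (l 16728224) (l 16728168)) (b (l 16722024) (l 16720688)))))) (b (a (a (b (l 16713072) (l 16711304)) (b (l 16687800) (l 16684472))) (a (b (a (l 16658752) (l 16635888)) (l 16642808)) (a (l 16609896) (l 16608376)))) (a (b (a (a (l 16713568) (l 16703056)) (a (l 16688568) (l 16670064))) (a (b (l 16705680) (a (l 16708192) (c (l 16706880) (b (l 16765080) (l 16684608))))) (b (a (l 16683768) (l 16665016)) (b (b (b (l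 16672480) (a (l 16679896) (l 16661592))) (l 16670728)) (l 16670152))))) (b (a (a (l 16648528) (l 16625640)) (l 16591328)) (a (b (a (l 16643968) (l 16621520)) (a (l 16640432) (l 16618056))) (b (l 16587368) (a (l 16595184) (l 16573352))))))))) (a (a (l 2) (a (l 16725632) (l 16714656))) (a (a (l 16692432) (l 16658096)) (a (l 16613776) (a (l 16576968) (l 16553608)))))) (a (a (l 2) (a (l 16721272) (l 16703056))) (a (a (l 16672432) (l 16629688)) (a (l 16618216) (a (l 16532272) (l 16504192)))))), by decide +kernel⟩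

def k2_pm_102 : ∃ t, chk3 f_pm_102 t 1 3 1 = true :=
  ⟨(a (b (a (l 2) (b (l 16715192) (l 2))) (l 2)) (b (a (a (l 16725176) (b (l 16607352) (l 16602640))) (a (b (l 16541024) (l 16520728)) (b (l 16468936) (l 16432064)))) (a (a (l 2) (l 16641768)) (a (l 16547024) (b (l 16425824) (l 16467128)))))), by decide +kernel⟩

theorem s3_pm_102 : ∃ t, chk3 f_pm_102 t 1 2 1 = true := ex3_b k0_pm_102 k1_pm_102

theorem s4_pm_102 : ∃ t, chk3 f_pm_102 t 1 1 1 = true := ex3_b s3_pm_102 k2_pm_102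

theorem c_pm_102 : CertB 536870912 536870912 0 536870912 587336777 62277027 3 eng mog cd2q1 cd3q0 pd2 true true false .npp 1 0 2
    ndB2q1 ndB3q0 pcB2 Cut.none Ext.none :=
  certB1 (fam := true) (s1 := true) (s2 := false) (a := 1) (b := 0) (c := 2) (cn := .npp) (n1 := ndB2q1) (n2 := ndB3q0) (pc := pcB2) (cut := Cut.none) (xt := Ext.none) (P1 := 536870912) (W1 := 536870912) (P2 := 0) (W2 := 536870912) (P3 := 587336777) (W3 := 62277027) (N0 := 3) (En := eng) (mo := mog) (C1 := cd2q1) (C2 := cd3q0) (C3 := pd2)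
    rfl (fun _ => rfl) s4_pm_102

noncomputable def f_pm_112 : ℕ → ℕ → ℕ → ℕ → Bool := onCell 1073741824 536870912 536870912 536870912 587336777 62277027
    (rowB 3 eng mog cd2q1 cd3q1 pd2 2 true true false .dn 1 1 2 (qsf 536870912 536870912 536870912 536870912 2) ndB2q1 ndB3q1 pcB2 Cut.none Ext.none)

def k0_pm_112 : ∃ t, chk3 f_pm_112 t 1 1 1 = true :=
  ⟨(a (a (l 3) (b (a (a (a (l 3) (a (b (b (l 16694040) (l 3)) (l 3)) (b (a (b (l 16693344) (l 16686936)) (b (a (l 16693328) (l 16694016)) (a (l 16686624) (l 16687144)))) (a (l 140156875367) (b (a (l 16673080) (l 16672944)) (l 1)))))) (b (l 16692112) (l 132640659415))) (b (b (l 16693912) (l 16691560)) (l 116534673351))) (a (l 1) (b (l 223908672007) (l 1))))) (b (a (b (a (l 16701536) (l 16708472)) (a (l 16684008) (l 16727656))) (b (a (l 16711000) (l 16725808)) (a (l 16797488) (l 16893600)))) (a (b (b (l 16643312) (l 204044348487)) (a (l 1) (l 247530713287))) (b (a (l 16706176) (l 16834440)) (a (l 16538320)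 (l 16598600)))))), by decide +kernel⟩

theorem c_pm_112 : CertB 536870912 536870912 536870912 536870912 587336777 62277027 3 eng mog cd2q1 cd3q1 pd2 true true false .dn 1 1 2
    ndB2q1 ndB3q1 pcB2 Cut.none Ext.none :=
  certB2 (fam := true) (s1 := true) (s2 := false) (a := 1) (b := 1) (c := 2) (cn := .dn) (n1 := ndB2q1) (n2 := ndB3q1) (pc := pcB2) (cut := Cut.none) (xt := Ext.none) (P1 := 536870912) (W1 := 536870912) (P2 := 536870912) (W2 := 536870912) (P3 := 587336777) (W3 := 62277027) (N0 := 3) (En := eng) (mo := mog) (C1 := cd2q1) (C2 := cd3q1) (C3 := pd2)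
    rfl (fun _ => rfl) k0_pm_112

noncomputable def f_pm_113 : ℕ → ℕ → ℕ → ℕ → Bool := onCell 536870912 536870912 1610612736 536870912 587336777 62277027
    (rowB 3 eng mog cd2q1 cd3q1 pd3 1 true true false .nn 1 1 3 (qsf 536870912 536870912 536870912 536870912 3) ndB2q1 ndB3q1 pcB3 Cut.none Ext.none)

def k0_pm_113 : ∃ t, chk3 f_pm_113 t 1 1 1 = true :=
  ⟨(a (a (b (b (b (l 16679200) (b (l 16691224) (l 16688272))) (b (a (l 2) (l 295916104999)) (l 2))) (l 2)) (b (b (l 16952496) (b (l 16885424) (l 78483441991))) (b (b (a (l 2) (l 16849264)) (l 2)) (l 2)))) (a (b (b (l 17012000) (l 17028616)) (b (b (l 16925328) (l 16871672)) (b (a (l 2) (l 16786600)) (l 2)))) (b (b (b (b (l 16841072) (l 16952424)) (b (l 17032496) (l 17061752))) (b (l 17092576) (l 17108632))) (b (b (l 17049456) (l 16947528)) (b (l 16860952) (b (l 16801360) (a (l 2) (b (l 16785976) (b (l 16769008) (l 16857264)))))))))), by decide +kernel⟩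

theorem c_pm_113 : CertB 536870912 536870912 536870912 536870912 587336777 62277027 3 eng mog cd2q1 cd3q1 pd3 true true false .nn 1 1 3
    ndB2q1 ndB3q1 pcB3 Cut.none Ext.none :=
  certB1 (fam := true) (s1 := true) (s2 := false) (a := 1) (b := 1) (c := 3) (cn := .nn) (n1 := ndB2q1) (n2 := ndB3q1) (pc := pcB3) (cut := Cut.none) (xt := Ext.none) (P1 := 536870912) (W1 := 536870912) (P2 := 536870912) (W2 := 536870912) (P3 := 587336777) (W3 := 62277027) (N0 := 3) (En := eng) (mo := mog) (C1 := cd2q1) (C2 := cd3q1) (C3 := pd3)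
    rfl (fun _ => rfl) k0_pm_113

noncomputable def f_pm_123_a : ℕ → ℕ → ℕ → ℕ → Bool := onCell 1610612736 536870912 0 536870912 587336777 62277027
    (rowB 3 eng mog cd2q1 cd3q2a pd3 2 true true false .npn 1 2 3 (qsf 536870912 536870912 0 536870912 3) ndB2q1 ndB3q2a pcB3 Cut.none Ext.none)

def k0_pm_123_a : ∃ t, chk3 f_pm_123_a t 1 1 1 = true :=
  ⟨(b (a (a (a (l 1) (b (l 1) (l 16762280))) (a (b (l 16824336) (l 16827080)) (b (l 16848056) (l 16872168)))) (a (a (a (l 16834080) (l 16798640)) (a (l 16769000) (l 49090575831))) (a (a (l 83986910567) (l 4)) (l 4)))) (b (a (a (a (l 1) (l 16763800)) (a (a (l 16829944) (l 16858904)) (l 16884280))) (a (a (a (l 16893424) (l 16891568)) (a (l 16885424) (l 16843968))) (a (a (l 16804472) (l 16768296)) (l 4)))) (a (a (a (a (a (l 16685240) (b (l 1) (l 16724520))) (l 16758592)) (a (l 16801096) (b (l 16822208) (l 16864296)))) (a (a (b (l 16850312) (l 16888368)) (l 16901120)) (a (l 16923080) (l 16935928)))) (a (a (l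 16935000) (a (l 16919752) (l 16900672))) (a (a (l 16968760) (l 17032784)) (a (b (l 16773904) (l 16964400)) (a (l 16754336) (l 4)))))))), by decide +kernel⟩

theorem c_pm_123_a : CertB 536870912 536870912 0 536870912 587336777 62277027 3 eng mog cd2q1 cd3q2a pd3 true true false .npn 1 2 3
    ndB2q1 ndB3q2a pcB3 Cut.none Ext.none :=
  certB2 (fam := true) (s1 := true) (s2 := false) (a := 1) (b := 2) (c := 3) (cn := .npn) (n1 := ndB2q1) (n2 := ndB3q2a) (pc := pcB3) (cut := Cut.none) (xt := Ext.none) (P1 := 536870912) (W1 := 536870912) (P2 := 0) (W2 := 536870912) (P3 := 587336777) (W3 := 62277027) (N0 := 3) (En := eng) (mo := mog) (C1 := cd2q1) (C2 := cd3q2a) (C3 := pd3)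
    rfl (fun _ => rfl) k0_pm_123_a

noncomputable def f_pm_123_b : ℕ → ℕ → ℕ → ℕ → Bool := onCell 1610612736 536870912 1239849684 370763052 587336777 62277027
    (rowB 3 eng mog cd2q1 cd3q2b pd3 2 true true false .npn 1 2 3 (qsf 536870912 536870912 1239849684 370763052 3) ndB2q1 ndB3q2b pcB3 Cut.none Ext.none)

def k0_pm_123_b : ∃ t, chk3 f_pm_123_b t 1 1 1 = true :=
  ⟨(a (a (l 1) (b (a (l 16809104) (l 16884456)) (l 1))) (a (a (b (c (l 68954879127) (l 75397388855)) (l 1)) (l 4)) (l 4))), by decide +kernel⟩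

theorem c_pm_123_b : CertB 536870912 536870912 1239849684 370763052 587336777 62277027 3 eng mog cd2q1 cd3q2b pd3 true true false .npn 1 2 3
    ndB2q1 ndB3q2b pcB3 Cut.none Ext.none :=
  certB2 (fam := true) (s1 := true) (s2 := false) (a := 1) (b := 2) (c := 3) (cn := .npn) (n1 := ndB2q1) (n2 := ndB3q2b) (pc := pcB3) (cut := Cut.none) (xt := Ext.none) (P1 := 536870912) (W1 := 536870912) (P2 := 1239849684) (W2 := 370763052) (P3 := 587336777) (W3 := 62277027) (N0 := 3) (En := eng) (mo := mog) (C1 := cd2q1) (C2 := cd3q2b) (C3 := pd3)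
    rfl (fun _ => rfl) k0_pm_123_b

noncomputable def f_pm_133 : ℕ → ℕ → ℕ → ℕ → Bool := onCell 536870912 536870912 1610612736 536870912 587336777 62277027
    (rowB 3 eng mog cd2q1 cd3q3 pd3 0 true true false .dn 1 3 3 (qsf 536870912 536870912 1610612736 536870912 3) ndB2q1 ndB3q3 pcB3 Cut.none Ext.none)

def k0_pm_133 : ∃ t, chk3 f_pm_133 t 1 1 1 = true :=
  ⟨(l 4), by decide +kernel⟩

theorem c_pm_133 : CertB 536870912 536870912 1610612736 536870912 587336777 62277027 3 eng mog cd2q1 cd3q3 pd3 true true false .dn 1 3 3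
    ndB2q1 ndB3q3 pcB3 Cut.none Ext.none :=
  certB0 (fam := true) (s1 := true) (s2 := false) (a := 1) (b := 3) (c := 3) (cn := .dn) (n1 := ndB2q1) (n2 := ndB3q3) (pc := pcB3) (cut := Cut.none) (xt := Ext.none) (P1 := 536870912) (W1 := 536870912) (P2 := 1610612736) (W2 := 536870912) (P3 := 587336777) (W3 := 62277027) (N0 := 3) (En := eng) (mo := mog) (C1 := cd2q1) (C2 := cd3q3) (C3 := pd3)
    rfl k0_pm_133

noncomputable def cut_pm_202_a : Cut := Cut.of [[⟨0, 1, 0, 67108864⟩, ⟨1, 0, 0, 67108864⟩, ⟨2, 1, 0, 67108864⟩]]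

noncomputable def f_pm_202_a : ℕ → ℕ → ℕ → ℕ → Bool := onCell 0 536870912 1073741824 536870912 587336777 62277027
    (rowB 3 eng mog cd2q2a cd3q0 pd2 1 true true false .pp 2 0 2 (qsf 0 536870912 0 536870912 2) ndB2q2a ndB3q0 pcB2 cut_pm_202_a Ext.none)

def k0_pm_202_a : ∃ t, chk3 f_pm_202_a t 2 1 1 = true :=
  ⟨(b (a (b (l 1) (b (b (b (l 1) (a (b (l 1) (l 16454496)) (a (l 184716515447) (l 233571781767)))) (b (a (b (l 16455944) (l 16457040)) (c (l 16550704) (b (l 16461416) (l 16462848)))) (a (l 16458952) (l 16466240)))) (b (a (l 16463384) (l 16468728)) (a (l 16469272) (l 16472104))))) (b (b (l 1) (b (l 1) (a (l 1) (b (l 1) (a (l 1) (b (l 1) (a (l 230887498967) (l 304975704647)))))))) (b (b (b (a (b (l 1) (a (l 16474888) (l 16486464))) (a (b (c (l 16504808) (l 266320958071)) (l 16499720)) (b (a (l 16510720) (l 16518728)) (l 16514424)))) (b (a (a (l 16475776) (l 16486920)) (a (l 16499648) (l 16513688))) (a (b (a (l 16476200) (l 16487008)) (b (a (l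 16476336) (l 16486960)) (a (l 16476392) (l 16486896)))) (b (a (l 16499328) (l 16512888)) (a (l 16498992) (l 16512232)))))) (a (b (a (b (l 16476440) (l 16476192)) (l 16507256)) (l 16480712)) (b (l 16546144) (l 16500944)))) (a (b (l 16480240) (l 16479720)) (b (l 16497528) (l 16494248)))))) (b (b (a (a (l 16518464) (l 16517832)) (a (l 16483608) (l 16500088))) (a (b (l 16527232) (l 16520904)) (a (l 16532688) (l 16501096)))) (a (b (b (l 16534160) (l 16550232)) (b (l 16568096) (l 16585744))) (b (l 16536360) (l 16561232))))), by decide +kernel⟩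

def k1_pm_202_a : ∃ t, chk3 f_pm_202_a t 3 4 1 = true :=
  ⟨(b (a (l 1) (a (b (l 1) (b (a (l 1) (l 6)) (b (a (l 1) (l 6)) (a (a (l 1) (b (a (l 1) (l 6)) (a (l 262563152855) (l 16646568)))) (b (l 6) (a (l 16656640) (l 16669968))))))) (b (l 6) (b (l 6) (b (l 6) (b (l 6) (a (l 16685632) (l 16696736)))))))) (a (a (b (l 1) (b (a (b (l 1) (a (l 1) (l 209412714167))) (b (a (l 1) (l 258804884071)) (a (l 288332762551) (l 326450624231)))) (a (b (a (l 253436110487) (l 285648388023)) (a (l 16527640) (l 16536584))) (b (a (l 16546912) (l 16556712)) (l 16550512))))) (b (b (a (l 1) (b (l 1) (a (l 197064821943) (b (l 246456958311) (l 277058601575))))) (a (b (a (l 1) (l 211023437431)) (a (l 231424490695) (b (l 260415541319) (l 16582496)))) (b (a (b (l 229277058503) (l 298533406775)) (l 16609056)) (a (l 16594632) (l 16606376))))) (b (a (b (a (l 300680843623) (l 16581128)) (l 16573880)) (a (b (l 16592288) (l 16589648)) (l 16601848))) (a (b (a (l 16566656) (l 16576680))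 (l 16569368)) (l 16590024))))) (a (b (a (b (a (b (b (l 242698903911) (l 251825703271)) (b (l 16625128) (l 16623672))) (b (a (l 16637336) (l 16644008)) (a (l 16634056) (l 16640416)))) (a (b (l 16621376) (l 16618080)) (l 16631648))) (b (a (b (b (l 16654736) (l 16652776)) (l 16649728)) (l 16664328)) (l 16646248))) (a (a (l 16702544) (l 16635952)) (b (l 16631784) (l 16618664)))) (b (a (b (a (l 16671816) (l 16677848)) (l 16658824)) (b (a (l 16683320) (l 16688120)) (l 16669360))) (a (b (l 16643896) (l 16630304)) (b (l 16654104) (l 16640200))))))), by decide +kernel⟩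

def k2_pm_202_a : ∃ t, chk3 f_pm_202_a t 3 5 1 = true :=
  ⟨(b (a (b (b (a (a (b (l 16531376) (l 16530232)) (b (l 16548808) (l 16546752))) (a (l 16565112) (l 16580944))) (a (b (a (l 16528728) (l 16544336)) (b (l 16535184) (l 16596824))) (b (l 16567440) (b (l 16564448) (l 16562592))))) (a (b (l 16530696) (l 16526464)) (l 16591872))) (b (b (a (a (l 16594408) (l 16606912)) (a (l 16618064) (l 16627616))) (a (b (l 16635448) (b (l 16589960) (b (l 16588272) (l 16587200)))) (b (l 16635912) (b (l 16611040) (a (l 16603504) (l 16612608)))))) (a (a (l 16572504) (l 16583520)) (a (l 16593608) (l 16602392))))) (a (a (b (l 16520904) (l 16516472)) (b (l 16544568) (l 16538592))) (a (b (l 16566080) (l 16558152)) (b (l 16584320) (l 16574200))))), by decide +kernel⟩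

def k3_pm_202_a : ∃ t, chk3 f_pm_202_a t 3 3 1 = true :=
  ⟨(b (a (b (a (l 16520440) (l 16681288)) (b (a (l 16533736) (l 16548344)) (l 16546272))) (b (a (l 16554112) (l 16671976)) (a (b (l 16559240) (l 16561472)) (l 16569560)))) (a (b (l 16553040) (l 16567768)) (b (a (l 16563152) (l 16573312)) (a (l 16571856) (l 16582568))))), by decide +kernel⟩

theorem s4_pm_202_a : ∃ t, chk3 f_pm_202_a t 3 2 1 = true := ex3_b k1_pm_202_a k2_pm_202_a

theorem s5_pm_202_a : ∃ t, chk3 f_pm_202_a t 3 1 1 = true := ex3_b s4_pm_202_a k3_pm_202_a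

theorem s6_pm_202_a : ∃ t, chk3 f_pm_202_a t 1 1 1 = true := ex3_a k0_pm_202_a s5_pm_202_a

theorem c_pm_202_a : CertB 0 536870912 0 536870912 587336777 62277027 3 eng mog cd2q2a cd3q0 pd2 true true false .pp 2 0 2
    ndB2q2a ndB3q0 pcB2 cut_pm_202_a Ext.none :=
  certB1 (fam := true) (s1 := true) (s2 := false) (a := 2) (b := 0) (c := 2) (cn := .pp) (n1 := ndB2q2a) (n2 := ndB3q0) (pc := pcB2) (cut := cut_pm_202_a) (xt := Ext.none) (P1 := 0) (W1 := 536870912) (P2 := 0) (W2 := 536870912) (P3 := 587336777) (W3 := 62277027) (N0 := 3) (En := eng) (mo := mog) (C1 := cd2q2a) (C2 := cd3q0) (C3 := pd2)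
    rfl (fun _ => rfl) s6_pm_202_a

noncomputable def cut_pm_202_b : Cut := Cut.of [[⟨0, 1, 0, 67108864⟩, ⟨1, 0, 0, 67108864⟩, ⟨2, 1, 0, 67108864⟩]]

noncomputable def f_pm_202_b : ℕ → ℕ → ℕ → ℕ → Bool := onCell 1073741824 536870912 0 536870912 587336777 62277027
    (rowB 3 eng mog cd2q2b cd3q0 pd2 2 true true false .pp 2 0 2 (qsf 1239849684 370763052 0 536870912 2) ndB2q2b ndB3q0 pcB2 cut_pm_202_b Ext.none)

def k0_pm_202_b : ∃ t, chk3 f_pm_202_b t 1 1 1 = true :=
  ⟨(a (b (a (l 1) (b (a (b (a (a (l 1) (b (b (b (l 16474112) (l 1)) (l 1)) (l 1))) (b (c (a (l 16558432) (l 16439984)) (b (a (l 16448672) (l 16417864)) (l 48351514727))) (a (l 1) (l 213170849143)))) (l 1)) (a (b (b (b (l 16380640) (l 16413120)) (a (l 16494480) (l 16446840))) (b (l 266857941815) (l 1))) (b (b (l 16348288) (l 16409912)) (b (l 16529928) (l 291553982663))))) (l 1))) (l 1)) (a (b (b (a (b (b (a (l 16306240) (l 16270256)) (l 16346464)) (b (l 16402296) (l 83248156935))) (b (a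 (b (l 16241144) (l 16296840)) (l 16257464)) (a (l 16376232) (l 16359360)))) (a (b (b (a (l 360810310183) (l 16537544)) (l 412349955959)) (l 1)) (b (a (b (l 16445328) (l 291553991303)) (l 16449664)) (a (b (l 442414809383) (l 1)) (l 363494746343))))) (l 1)) (b (b (a (b (l 16260176) (l 16351512)) (b (l 16291344) (l 16365208))) (a (b (l 16438856) (a (l 229814020759) (l 16506504))) (b (l 16442648) (l 16512376)))) (b (a (b (a (l 517039999335) (l 349536217607)) (l 1)) (b (l 197065108711) (l 475700963431))) (l 1))))), by decide +kernel⟩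

theorem c_pm_202_b : CertB 1239849684 370763052 0 536870912 587336777 62277027 3 eng mog cd2q2b cd3q0 pd2 true true false .pp 2 0 2
    ndB2q2b ndB3q0 pcB2 cut_pm_202_b Ext.none :=
  certB2 (fam := true) (s1 := true) (s2 := false) (a := 2) (b := 0) (c := 2) (cn := .pp) (n1 := ndB2q2b) (n2 := ndB3q0) (pc := pcB2) (cut := cut_pm_202_b) (xt := Ext.none) (P1 := 1239849684) (W1 := 370763052) (P2 := 0) (W2 := 536870912) (P3 := 587336777) (W3 := 62277027) (N0 := 3) (En := eng) (mo := mog) (C1 := cd2q2b) (C2 := cd3q0) (C3 := pd2)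
    rfl (fun _ => rfl) k0_pm_202_b

noncomputable def f_pm_203_a : ℕ → ℕ → ℕ → ℕ → Bool := onCell 0 536870912 1610612736 536870912 587336777 62277027
    (rowB 3 eng mog cd2q2a cd3q0 pd3 1 true true false .up 2 0 3 (qsf 0 536870912 0 536870912 3) ndB2q2a ndB3q0 pcB3 Cut.none Ext.none)

def k0_pm_203_a : ∃ t, chk3 f_pm_203_a t 1 1 1 = true :=
  ⟨(b (b (b (a (b (a (l 16616664) (l 16598584)) (a (l 16673184) (l 16658984))) (a (b (l 16601368) (l 16671936)) (b (b (l 16563768) (l 16664768)) (l 16716288)))) (a (a (l 16738856) (l 16722600)) (a (l 16733200) (l 16780616)))) (a (b (a (l 16801584) (l 16801416)) (l 2)) (a (l 2) (l 2)))) (l 2)), by decide +kernel⟩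

theorem c_pm_203_a : CertB 0 536870912 0 536870912 587336777 62277027 3 eng mog cd2q2a cd3q0 pd3 true true false .up 2 0 3
    ndB2q2a ndB3q0 pcB3 Cut.none Ext.none :=
  certB1 (fam := true) (s1 := true) (s2 := false) (a := 2) (b := 0) (c := 3) (cn := .up) (n1 := ndB2q2a) (n2 := ndB3q0) (pc := pcB3) (cut := Cut.none) (xt := Ext.none) (P1 := 0) (W1 := 536870912) (P2 := 0) (W2 := 536870912) (P3 := 587336777) (W3 := 62277027) (N0 := 3) (En := eng) (mo := mog) (C1 := cd2q2a) (C2 := cd3q0) (C3 := pd3)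
    rfl (fun _ => rfl) k0_pm_203_a

noncomputable def f_pm_203_b : ℕ → ℕ → ℕ → ℕ → Bool := onCell 1239849684 370763052 1610612736 536870912 587336777 62277027
    (rowB 3 eng mog cd2q2b cd3q0 pd3 1 true true false .up 2 0 3 (qsf 1239849684 370763052 0 536870912 3) ndB2q2b ndB3q0 pcB3 Cut.none Ext.none)

def k0_pm_203_b : ∃ t, chk3 f_pm_203_b t 1 1 1 = true :=
  ⟨(b (b (a (b (a (b (l 16575224) (l 16574712)) (l 16537296)) (a (b (l 16635336) (l 16687128)) (l 16580936))) (b (a (l 16452712) (b (l 16353944) (l 16375352))) (a (l 16516936) (l 16432032)))) (b (a (a (l 16760832) (l 16640976)) (a (l 16599960) (l 16538520))) (l 4))) (l 4)), by decide +kernel⟩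

theorem c_pm_203_b : CertB 1239849684 370763052 0 536870912 587336777 62277027 3 eng mog cd2q2b cd3q0 pd3 true true false .up 2 0 3
    ndB2q2b ndB3q0 pcB3 Cut.none Ext.none :=
  certB1 (fam := true) (s1 := true) (s2 := false) (a := 2) (b := 0) (c := 3) (cn := .up) (n1 := ndB2q2b) (n2 := ndB3q0) (pc := pcB3) (cut := Cut.none) (xt := Ext.none) (P1 := 1239849684) (W1 := 370763052) (P2 := 0) (W2 := 536870912) (P3 := 587336777) (W3 := 62277027) (N0 := 3) (En := eng) (mo := mog) (C1 := cd2q2b) (C2 := cd3q0) (C3 := pd3)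
    rfl (fun _ => rfl) k0_pm_203_b

noncomputable def f_pm_213_a : ℕ → ℕ → ℕ → ℕ → Bool := onCell 0 536870912 1610612736 536870912 587336777 62277027
    (rowB 3 eng mog cd2q2a cd3q1 pd3 1 true true false .pnn 2 1 3 (qsf 0 536870912 536870912 536870912 3) ndB2q2a ndB3q1 pcB3 Cut.none Ext.none)

def k0_pm_213_a : ∃ t, chk3 f_pm_213_a t 1 1 1 = true :=
  ⟨(a (b (b (b (l 1) (a (l 1) (l 16834056))) (b (a (l 16830336) (l 16854048)) (l 16762184))) (b (b (l 101703821351) (l 4)) (l 4))) (a (b (b (b (l 1) (l 16872000)) (b (l 16988672) (l 16895696))) (b (b (l 16824496) (b (l 16777992) (l 16750136))) (l 4))) (b (b (b (b (a (l 1) (l 16784536)) (l 16882856)) (l 16993384)) (b (b (l 17052144) (l 17068288)) (l 17049616))) (b (b (b (l 16940304) (l 16901696)) (b (l 16864448) (l 16829200))) (b (b (l 16797272) (a (l 4) (l 16784032))) (l 4)))))), by decide +kernel⟩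

theorem c_pm_213_a : CertB 0 536870912 536870912 536870912 587336777 62277027 3 eng mog cd2q2a cd3q1 pd3 true true false .pnn 2 1 3
    ndB2q2a ndB3q1 pcB3 Cut.none Ext.none :=
  certB1 (fam := true) (s1 := true) (s2 := false) (a := 2) (b := 1) (c := 3) (cn := .pnn) (n1 := ndB2q2a) (n2 := ndB3q1) (pc := pcB3) (cut := Cut.none) (xt := Ext.none) (P1 := 0) (W1 := 536870912) (P2 := 536870912) (W2 := 536870912) (P3 := 587336777) (W3 := 62277027) (N0 := 3) (En := eng) (mo := mog) (C1 := cd2q2a) (C2 := cd3q1) (C3 := pd3)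
    rfl (fun _ => rfl) k0_pm_213_a

noncomputable def f_pm_213_b : ℕ → ℕ → ℕ → ℕ → Bool := onCell 1239849684 370763052 536870912 536870912 587336777 62277027
    (rowB 3 eng mog cd2q2b cd3q1 pd3 0 true true false .pnn 2 1 3 (qsf 1239849684 370763052 536870912 536870912 3) ndB2q2b ndB3q1 pcB3 Cut.none Ext.none)

def k0_pm_213_b : ∃ t, chk3 f_pm_213_b t 1 1 1 = true :=
  ⟨(b (a (b (l 4) (l 4)) (l 4)) (l 4)), by decide +kernel⟩

theorem c_pm_213_b : CertB 1239849684 370763052 536870912 536870912 587336777 62277027 3 eng mog cd2q2b cd3q1 pd3 true true false .pnn 2 1 3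
    ndB2q2b ndB3q1 pcB3 Cut.none Ext.none :=
  certB0 (fam := true) (s1 := true) (s2 := false) (a := 2) (b := 1) (c := 3) (cn := .pnn) (n1 := ndB2q2b) (n2 := ndB3q1) (pc := pcB3) (cut := Cut.none) (xt := Ext.none) (P1 := 1239849684) (W1 := 370763052) (P2 := 536870912) (W2 := 536870912) (P3 := 587336777) (W3 := 62277027) (N0 := 3) (En := eng) (mo := mog) (C1 := cd2q2b) (C2 := cd3q1) (C3 := pd3)
    rfl k0_pm_213_b

noncomputable def f_pm_303 : ℕ → ℕ → ℕ → ℕ → Bool := onCell 1610612736 536870912 0 536870912 587336777 62277027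
    (rowB 3 eng mog cd2q3 cd3q0 pd3 2 true true false .npn 3 0 3 (qsf 1610612736 536870912 0 536870912 3) ndB2q3 ndB3q0 pcB3 Cut.none Ext.none)

def k0_pm_303 : ∃ t, chk3 f_pm_303 t 1 1 1 = true :=
  ⟨(a (a (b (a (b (b (l 16280952) (l 16353624)) (l 1)) (b (l 16303000) (l 16462224))) (l 1)) (b (a (b (l 16402744) (l 16499008)) (b (a (l 16470904) (l 4)) (l 4))) (a (l 1) (l 4)))) (l 4)), by decide +kernel⟩

theorem c_pm_303 : CertB 1610612736 536870912 0 536870912 587336777 62277027 3 eng mog cd2q3 cd3q0 pd3 true true false .npn 3 0 3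
    ndB2q3 ndB3q0 pcB3 Cut.none Ext.none :=
  certB2 (fam := true) (s1 := true) (s2 := false) (a := 3) (b := 0) (c := 3) (cn := .npn) (n1 := ndB2q3) (n2 := ndB3q0) (pc := pcB3) (cut := Cut.none) (xt := Ext.none) (P1 := 1610612736) (W1 := 536870912) (P2 := 0) (W2 := 536870912) (P3 := 587336777) (W3 := 62277027) (N0 := 3) (En := eng) (mo := mog) (C1 := cd2q3) (C2 := cd3q0) (C3 := pd3)
    rfl (fun _ => rfl) k0_pm_303

noncomputable def f_pm_313 : ℕ → ℕ → ℕ → ℕ → Bool := onCell 1610612736 536870912 536870912 536870912 587336777 62277027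
    (rowB 3 eng mog cd2q3 cd3q1 pd3 0 true true false .dn 3 1 3 (qsf 1610612736 536870912 536870912 536870912 3) ndB2q3 ndB3q1 pcB3 Cut.none Ext.none)

def k0_pm_313 : ∃ t, chk3 f_pm_313 t 1 1 1 = true :=
  ⟨(l 4), by decide +kernel⟩

theorem c_pm_313 : CertB 1610612736 536870912 536870912 536870912 587336777 62277027 3 eng mog cd2q3 cd3q1 pd3 true true false .dn 3 1 3
    ndB2q3 ndB3q1 pcB3 Cut.none Ext.none :=
  certB0 (fam := true) (s1 := true) (s2 := false) (a := 3) (b := 1) (c := 3) (cn := .dn) (n1 := ndB2q3) (n2 := ndB3q1) (pc := pcB3) (cut := Cut.none) (xt := Ext.none) (P1 := 1610612736) (W1 := 536870912) (P2 := 536870912) (W2 := 536870912) (P3 := 587336777) (W3 := 62277027) (N0 := 3) (En := eng) (mo := mog) (C1 := cd2q3) (C2 := cd3q1) (C3 := pd3)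
    rfl k0_pm_313

noncomputable def f_mm_001 : ℕ → ℕ → ℕ → ℕ → Bool := onCell 0 536870912 0 536870912 587336777 62277027
    (rowB 3 eng mog cd2q0 cd3q0 pd1 0 true false false .up 0 0 1 (qsf 0 536870912 0 536870912 1) ndB2q0 ndB3q0 pcB1 Cut.none Ext.none)

def k0_mm_001 : ∃ t, chk3 f_mm_001 t 1 1 1 = true :=
  ⟨(l 4), by decide +kernel⟩

theorem c_mm_001 : CertB 0 536870912 0 536870912 587336777 62277027 3 eng mog cd2q0 cd3q0 pd1 true false false .up 0 0 1
    ndB2q0 ndB3q0 pcB1 Cut.none Ext.none :=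
  certB0 (fam := true) (s1 := false) (s2 := false) (a := 0) (b := 0) (c := 1) (cn := .up) (n1 := ndB2q0) (n2 := ndB3q0) (pc := pcB1) (cut := Cut.none) (xt := Ext.none) (P1 := 0) (W1 := 536870912) (P2 := 0) (W2 := 536870912) (P3 := 587336777) (W3 := 62277027) (N0 := 3) (En := eng) (mo := mog) (C1 := cd2q0) (C2 := cd3q0) (C3 := pd1)
    rfl k0_mm_001

noncomputable def f_mm_011 : ℕ → ℕ → ℕ → ℕ → Bool := onCell 0 536870912 536870912 536870912 587336777 62277027
    (rowB 3 eng mog cd2q0 cd3q1 pd1 0 true false false .pnn 0 1 1 (qsf 0 536870912 536870912 536870912 1) ndB2q0 ndB3q1 pcB1 Cut.none Ext.none)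

def k0_mm_011 : ∃ t, chk3 f_mm_011 t 1 1 1 = true :=
  ⟨(l 4), by decide +kernel⟩

theorem c_mm_011 : CertB 0 536870912 536870912 536870912 587336777 62277027 3 eng mog cd2q0 cd3q1 pd1 true false false .pnn 0 1 1
    ndB2q0 ndB3q1 pcB1 Cut.none Ext.none :=
  certB0 (fam := true) (s1 := false) (s2 := false) (a := 0) (b := 1) (c := 1) (cn := .pnn) (n1 := ndB2q0) (n2 := ndB3q1) (pc := pcB1) (cut := Cut.none) (xt := Ext.none) (P1 := 0) (W1 := 536870912) (P2 := 536870912) (W2 := 536870912) (P3 := 587336777) (W3 := 62277027) (N0 := 3) (En := eng) (mo := mog) (C1 := cd2q0) (C2 := cd3q1) (C3 := pd1)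
    rfl k0_mm_011

noncomputable def f_mm_012 : ℕ → ℕ → ℕ → ℕ → Bool := onCell 0 536870912 536870912 536870912 587336777 62277027
    (rowB 3 eng mog cd2q0 cd3q1 pd2 0 true false false .pnp 0 1 2 (qsf 0 536870912 536870912 536870912 2) ndB2q0 ndB3q1 pcB2 Cut.none Ext.none)

def k0_mm_012 : ∃ t, chk3 f_mm_012 t 1 1 1 = true :=
  ⟨(l 4), by decide +kernel⟩

theorem c_mm_012 : CertB 0 536870912 536870912 536870912 587336777 62277027 3 eng mog cd2q0 cd3q1 pd2 true false false .pnp 0 1 2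
    ndB2q0 ndB3q1 pcB2 Cut.none Ext.none :=
  certB0 (fam := true) (s1 := false) (s2 := false) (a := 0) (b := 1) (c := 2) (cn := .pnp) (n1 := ndB2q0) (n2 := ndB3q1) (pc := pcB2) (cut := Cut.none) (xt := Ext.none) (P1 := 0) (W1 := 536870912) (P2 := 536870912) (W2 := 536870912) (P3 := 587336777) (W3 := 62277027) (N0 := 3) (En := eng) (mo := mog) (C1 := cd2q0) (C2 := cd3q1) (C3 := pd2)
    rfl k0_mm_012

noncomputable def f_mm_022_a : ℕ → ℕ → ℕ → ℕ → Bool := onCell 0 536870912 0 536870912 587336777 62277027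
    (rowB 3 eng mog cd2q0 cd3q2a pd2 0 true false false .pp 0 2 2 (qsf 0 536870912 0 536870912 2) ndB2q0 ndB3q2a pcB2 Cut.none Ext.none)

def k0_mm_022_a : ∃ t, chk3 f_mm_022_a t 1 1 1 = true :=
  ⟨(l 5), by decide +kernel⟩

theorem c_mm_022_a : CertB 0 536870912 0 536870912 587336777 62277027 3 eng mog cd2q0 cd3q2a pd2 true false false .pp 0 2 2
    ndB2q0 ndB3q2a pcB2 Cut.none Ext.none :=
  certB0 (fam := true) (s1 := false) (s2 := false) (a := 0) (b := 2) (c := 2) (cn := .pp) (n1 := ndB2q0) (n2 := ndB3q2a) (pc := pcB2) (cut := Cut.none) (xt := Ext.none) (P1 := 0) (W1 := 536870912) (P2 := 0) (W2 := 536870912) (P3 := 587336777) (W3 := 62277027) (N0 := 3) (En := eng) (mo := mog) (C1 := cd2q0) (C2 := cd3q2a) (C3 := pd2)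
    rfl k0_mm_022_a

noncomputable def f_mm_022_b : ℕ → ℕ → ℕ → ℕ → Bool := onCell 0 536870912 1239849684 370763052 587336777 62277027
    (rowB 3 eng mog cd2q0 cd3q2b pd2 0 true false false .pp 0 2 2 (qsf 0 536870912 1239849684 370763052 2) ndB2q0 ndB3q2b pcB2 Cut.none Ext.none)

def k0_mm_022_b : ∃ t, chk3 f_mm_022_b t 1 1 1 = true :=
  ⟨(l 5), by decide +kernel⟩

theorem c_mm_022_b : CertB 0 536870912 1239849684 370763052 587336777 62277027 3 eng mog cd2q0 cd3q2b pd2 true false false .pp 0 2 2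
    ndB2q0 ndB3q2b pcB2 Cut.none Ext.none :=
  certB0 (fam := true) (s1 := false) (s2 := false) (a := 0) (b := 2) (c := 2) (cn := .pp) (n1 := ndB2q0) (n2 := ndB3q2b) (pc := pcB2) (cut := Cut.none) (xt := Ext.none) (P1 := 0) (W1 := 536870912) (P2 := 1239849684) (W2 := 370763052) (P3 := 587336777) (W3 := 62277027) (N0 := 3) (En := eng) (mo := mog) (C1 := cd2q0) (C2 := cd3q2b) (C3 := pd2)
    rfl k0_mm_022_b

noncomputable def f_mm_023_a : ℕ → ℕ → ℕ → ℕ → Bool := onCell 0 536870912 0 536870912 587336777 62277027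
    (rowB 3 eng mog cd2q0 cd3q2a pd3 0 true false false .up 0 2 3 (qsf 0 536870912 0 536870912 3) ndB2q0 ndB3q2a pcB3 Cut.none Ext.none)

def k0_mm_023_a : ∃ t, chk3 f_mm_023_a t 1 1 1 = true :=
  ⟨(l 5), by decide +kernel⟩

theorem c_mm_023_a : CertB 0 536870912 0 536870912 587336777 62277027 3 eng mog cd2q0 cd3q2a pd3 true false false .up 0 2 3
    ndB2q0 ndB3q2a pcB3 Cut.none Ext.none :=
  certB0 (fam := true) (s1 := false) (s2 := false) (a := 0) (b := 2) (c := 3) (cn := .up) (n1 := ndB2q0) (n2 := ndB3q2a) (pc := pcB3) (cut := Cut.none) (xt := Ext.none) (P1 := 0) (W1 := 536870912) (P2 := 0) (W2 := 536870912) (P3 := 587336777) (W3 := 62277027) (N0 := 3) (En := eng) (mo := mog) (C1 := cd2q0) (C2 := cd3q2a) (C3 := pd3)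
    rfl k0_mm_023_a

noncomputable def f_mm_023_b : ℕ → ℕ → ℕ → ℕ → Bool := onCell 0 536870912 1239849684 370763052 587336777 62277027
    (rowB 3 eng mog cd2q0 cd3q2b pd3 0 true false false .up 0 2 3 (qsf 0 536870912 1239849684 370763052 3) ndB2q0 ndB3q2b pcB3 Cut.none Ext.none)

def k0_mm_023_b : ∃ t, chk3 f_mm_023_b t 1 1 1 = true :=
  ⟨(l 5), by decide +kernel⟩

theorem c_mm_023_b : CertB 0 536870912 1239849684 370763052 587336777 62277027 3 eng mog cd2q0 cd3q2b pd3 true false false .up 0 2 3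
    ndB2q0 ndB3q2b pcB3 Cut.none Ext.none :=
  certB0 (fam := true) (s1 := false) (s2 := false) (a := 0) (b := 2) (c := 3) (cn := .up) (n1 := ndB2q0) (n2 := ndB3q2b) (pc := pcB3) (cut := Cut.none) (xt := Ext.none) (P1 := 0) (W1 := 536870912) (P2 := 1239849684) (W2 := 370763052) (P3 := 587336777) (W3 := 62277027) (N0 := 3) (En := eng) (mo := mog) (C1 := cd2q0) (C2 := cd3q2b) (C3 := pd3)
    rfl k0_mm_023_b

noncomputable def f_mm_033 : ℕ → ℕ → ℕ → ℕ → Bool := onCell 0 536870912 1610612736 536870912 587336777 62277027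
    (rowB 3 eng mog cd2q0 cd3q3 pd3 0 true false false .pnn 0 3 3 (qsf 0 536870912 1610612736 536870912 3) ndB2q0 ndB3q3 pcB3 Cut.none Ext.none)

def k0_mm_033 : ∃ t, chk3 f_mm_033 t 1 1 1 = true :=
  ⟨(l 5), by decide +kernel⟩

theorem c_mm_033 : CertB 0 536870912 1610612736 536870912 587336777 62277027 3 eng mog cd2q0 cd3q3 pd3 true false false .pnn 0 3 3
    ndB2q0 ndB3q3 pcB3 Cut.none Ext.none :=
  certB0 (fam := true) (s1 := false) (s2 := false) (a := 0) (b := 3) (c := 3) (cn := .pnn) (n1 := ndB2q0) (n2 := ndB3q3) (pc := pcB3) (cut := Cut.none) (xt := Ext.none) (P1 := 0) (W1 := 536870912) (P2 := 1610612736) (W2 := 536870912) (P3 := 587336777) (W3 := 62277027) (N0 := 3) (En := eng) (mo := mog) (C1 := cd2q0) (C2 := cd3q3) (C3 := pd3)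
    rfl k0_mm_033

noncomputable def f_mm_101 : ℕ → ℕ → ℕ → ℕ → Bool := onCell 536870912 536870912 0 536870912 587336777 62277027
    (rowB 3 eng mog cd2q1 cd3q0 pd1 0 true false false .npn 1 0 1 (qsf 536870912 536870912 0 536870912 1) ndB2q1 ndB3q0 pcB1 Cut.none Ext.none)

def k0_mm_101 : ∃ t, chk3 f_mm_101 t 1 1 1 = true :=
  ⟨(l 4), by decide +kernel⟩

theorem c_mm_101 : CertB 536870912 536870912 0 536870912 587336777 62277027 3 eng mog cd2q1 cd3q0 pd1 true false false .npn 1 0 1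
    ndB2q1 ndB3q0 pcB1 Cut.none Ext.none :=
  certB0 (fam := true) (s1 := false) (s2 := false) (a := 1) (b := 0) (c := 1) (cn := .npn) (n1 := ndB2q1) (n2 := ndB3q0) (pc := pcB1) (cut := Cut.none) (xt := Ext.none) (P1 := 536870912) (W1 := 536870912) (P2 := 0) (W2 := 536870912) (P3 := 587336777) (W3 := 62277027) (N0 := 3) (En := eng) (mo := mog) (C1 := cd2q1) (C2 := cd3q0) (C3 := pd1)
    rfl k0_mm_101

noncomputable def f_mm_102 : ℕ → ℕ → ℕ → ℕ → Bool := onCell 536870912 536870912 0 536870912 587336777 62277027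
    (rowB 3 eng mog cd2q1 cd3q0 pd2 0 true false false .npp 1 0 2 (qsf 536870912 536870912 0 536870912 2) ndB2q1 ndB3q0 pcB2 Cut.none Ext.none)

def k0_mm_102 : ∃ t, chk3 f_mm_102 t 1 1 1 = true :=
  ⟨(l 4), by decide +kernel⟩

theorem c_mm_102 : CertB 536870912 536870912 0 536870912 587336777 62277027 3 eng mog cd2q1 cd3q0 pd2 true false false .npp 1 0 2
    ndB2q1 ndB3q0 pcB2 Cut.none Ext.none :=
  certB0 (fam := true) (s1 := false) (s2 := false) (a := 1) (b := 0) (c := 2) (cn := .npp) (n1 := ndB2q1) (n2 := ndB3q0) (pc := pcB2) (cut := Cut.none) (xt := Ext.none) (P1 := 536870912) (W1 := 536870912) (P2 := 0) (W2 := 536870912) (P3 := 587336777) (W3 := 62277027) (N0 := 3) (En := eng) (mo := mog) (C1 := cd2q1) (C2 := cd3q0) (C3 := pd2)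
    rfl k0_mm_102

noncomputable def f_mm_112 : ℕ → ℕ → ℕ → ℕ → Bool := onCell 536870912 536870912 536870912 536870912 587336777 62277027
    (rowB 3 eng mog cd2q1 cd3q1 pd2 0 true false false .dn 1 1 2 (qsf 536870912 536870912 536870912 536870912 2) ndB2q1 ndB3q1 pcB2 Cut.none Ext.none)

def k0_mm_112 : ∃ t, chk3 f_mm_112 t 1 1 1 = true :=
  ⟨(l 4), by decide +kernel⟩

theorem c_mm_112 : CertB 536870912 536870912 536870912 536870912 587336777 62277027 3 eng mog cd2q1 cd3q1 pd2 true false false .dn 1 1 2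
    ndB2q1 ndB3q1 pcB2 Cut.none Ext.none :=
  certB0 (fam := true) (s1 := false) (s2 := false) (a := 1) (b := 1) (c := 2) (cn := .dn) (n1 := ndB2q1) (n2 := ndB3q1) (pc := pcB2) (cut := Cut.none) (xt := Ext.none) (P1 := 536870912) (W1 := 536870912) (P2 := 536870912) (W2 := 536870912) (P3 := 587336777) (W3 := 62277027) (N0 := 3) (En := eng) (mo := mog) (C1 := cd2q1) (C2 := cd3q1) (C3 := pd2)
    rfl k0_mm_112

noncomputable def f_mm_113 : ℕ → ℕ → ℕ → ℕ → Bool := onCell 536870912 536870912 536870912 536870912 587336777 62277027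
    (rowB 3 eng mog cd2q1 cd3q1 pd3 0 true false false .nn 1 1 3 (qsf 536870912 536870912 536870912 536870912 3) ndB2q1 ndB3q1 pcB3 Cut.none Ext.none)

def k0_mm_113 : ∃ t, chk3 f_mm_113 t 1 1 1 = true :=
  ⟨(l 4), by decide +kernel⟩

theorem c_mm_113 : CertB 536870912 536870912 536870912 536870912 587336777 62277027 3 eng mog cd2q1 cd3q1 pd3 true false false .nn 1 1 3
    ndB2q1 ndB3q1 pcB3 Cut.none Ext.none :=
  certB0 (fam := true) (s1 := false) (s2 := false) (a := 1) (b := 1) (c := 3) (cn := .nn) (n1 := ndB2q1) (n2 := ndB3q1) (pc := pcB3) (cut := Cut.none) (xt := Ext.none) (P1 := 536870912) (W1 := 536870912) (P2 := 536870912) (W2 := 536870912) (P3 := 587336777) (W3 := 62277027) (N0 := 3) (En := eng) (mo := mog) (C1 := cd2q1) (C2 := cd3q1) (C3 := pd3)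
    rfl k0_mm_113

noncomputable def f_mm_123_a : ℕ → ℕ → ℕ → ℕ → Bool := onCell 536870912 536870912 0 536870912 587336777 62277027
    (rowB 3 eng mog cd2q1 cd3q2a pd3 0 true false false .npn 1 2 3 (qsf 536870912 536870912 0 536870912 3) ndB2q1 ndB3q2a pcB3 Cut.none Ext.none)

def k0_mm_123_a : ∃ t, chk3 f_mm_123_a t 1 1 1 = true :=
  ⟨(l 4), by decide +kernel⟩

theorem c_mm_123_a : CertB 536870912 536870912 0 536870912 587336777 62277027 3 eng mog cd2q1 cd3q2a pd3 true false false .npn 1 2 3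
    ndB2q1 ndB3q2a pcB3 Cut.none Ext.none :=
  certB0 (fam := true) (s1 := false) (s2 := false) (a := 1) (b := 2) (c := 3) (cn := .npn) (n1 := ndB2q1) (n2 := ndB3q2a) (pc := pcB3) (cut := Cut.none) (xt := Ext.none) (P1 := 536870912) (W1 := 536870912) (P2 := 0) (W2 := 536870912) (P3 := 587336777) (W3 := 62277027) (N0 := 3) (En := eng) (mo := mog) (C1 := cd2q1) (C2 := cd3q2a) (C3 := pd3)
    rfl k0_mm_123_a

noncomputable def f_mm_123_b : ℕ → ℕ → ℕ → ℕ → Bool := onCell 536870912 536870912 1239849684 370763052 587336777 62277027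
    (rowB 3 eng mog cd2q1 cd3q2b pd3 0 true false false .npn 1 2 3 (qsf 536870912 536870912 1239849684 370763052 3) ndB2q1 ndB3q2b pcB3 Cut.none Ext.none)

def k0_mm_123_b : ∃ t, chk3 f_mm_123_b t 1 1 1 = true :=
  ⟨(l 4), by decide +kernel⟩

theorem c_mm_123_b : CertB 536870912 536870912 1239849684 370763052 587336777 62277027 3 eng mog cd2q1 cd3q2b pd3 true false false .npn 1 2 3
    ndB2q1 ndB3q2b pcB3 Cut.none Ext.none :=
  certB0 (fam := true) (s1 := false) (s2 := false) (a := 1) (b := 2) (c := 3) (cn := .npn) (n1 := ndB2q1) (n2 := ndB3q2b) (pc := pcB3) (cut := Cut.none) (xt := Ext.none) (P1 := 536870912) (W1 := 536870912) (P2 := 1239849684) (W2 := 370763052) (P3 := 587336777) (W3 := 62277027) (N0 := 3) (En := eng) (mo := mog) (C1 := cd2q1) (C2 := cd3q2b) (C3 := pd3)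
    rfl k0_mm_123_b

noncomputable def f_mm_133 : ℕ → ℕ → ℕ → ℕ → Bool := onCell 536870912 536870912 1610612736 536870912 587336777 62277027
    (rowB 3 eng mog cd2q1 cd3q3 pd3 0 true false false .dn 1 3 3 (qsf 536870912 536870912 1610612736 536870912 3) ndB2q1 ndB3q3 pcB3 Cut.none Ext.none)

def k0_mm_133 : ∃ t, chk3 f_mm_133 t 1 1 1 = true :=
  ⟨(l 4), by decide +kernel⟩

theorem c_mm_133 : CertB 536870912 536870912 1610612736 536870912 587336777 62277027 3 eng mog cd2q1 cd3q3 pd3 true false false .dn 1 3 3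
    ndB2q1 ndB3q3 pcB3 Cut.none Ext.none :=
  certB0 (fam := true) (s1 := false) (s2 := false) (a := 1) (b := 3) (c := 3) (cn := .dn) (n1 := ndB2q1) (n2 := ndB3q3) (pc := pcB3) (cut := Cut.none) (xt := Ext.none) (P1 := 536870912) (W1 := 536870912) (P2 := 1610612736) (W2 := 536870912) (P3 := 587336777) (W3 := 62277027) (N0 := 3) (En := eng) (mo := mog) (C1 := cd2q1) (C2 := cd3q3) (C3 := pd3)
    rfl k0_mm_133

end Pool.Agent.Strip051.G.I5470_6050.Tab.C.BA23

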