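import Pool.Agent.Strip051.G.I5470_6050.Tab

/-! # Certificates B13 (generated) -/

set_option linter.all false
set_option maxRecDepth 100000

namespace Pool.Agent.Strip051.G.I5470_6050.Tab.C.BA23

open Pool.Agent.Strip051.PB Pool.Agent.Strip051.PB.T
open Pool.Agent.Strip051.G.I5470_6050.Tab

noncomputable def cut_mm_202_a : Cut := Cut.of [[⟨0, 1, 0, 67108864⟩, ⟨1, 0, 0, 67108864⟩, ⟨2, 1, 0, 67108864⟩]]

noncomputable def f_mm_202_a : ℕ → ℕ → ℕ → ℕ → Bool := onCell 0 536870912 0 536870912 587336777 62277027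
    (rowB 3 eng mog cd2q2a cd3q0 pd2 0 true false false .pp 2 0 2 (qsf 0 536870912 0 536870912 2) ndB2q2a ndB3q0 pcB2 cut_mm_202_a Ext.none)

def k0_mm_202_a : ∃ t, chk3 f_mm_202_a t 2 2 1 = true :=
  ⟨(b (b (a (b (b (a (a (l 16457336) (l 16459904)) (a (l 16464784) (l 16472016))) (a (l 16468104) (a (l 16474856) (l 16503464)))) (a (l 16482904) (b (l 16489680) (l 16500928)))) (b (b (a (a (l 16481648) (l 16493760)) (a (b (l 16505792) (l 16511128)) (b (l 16523040) (l 16528496)))) (a (b (l 16495928) (a (l 16495352) (l 16507832))) (a (l 16519784) (l 16537320)))) (a (b (a (l 16504168) (l 16517032)) (l 16523088)) (b (b (l 16538064) (a (l 16535552) (l 16553440))) (a (l 16545472) (l 16563728)))))) (a (b (a (l 16504008) (l 16518560)) (l 16535240)) (b (a (l 16584312) (b (l 16568552) (l 16582728))) (a (l 16568992) (l 16688232))))) (b (a (b (l 16562080) (l 16594344)) (a (b (l 16640232) (l 16630808)) (b (l 16634184) (l 4)))) (a (b (l 16624624) (l 16653736)) (l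 4)))), by decide +kernel⟩

def k1_mm_202_a : ∃ t, chk3 f_mm_202_a t 3 2 1 = true :=
  ⟨(b (a (b (b (a (b (a (b (l 16542912) (l 16548576)) (b (l 16564800) (l 16571480))) (a (l 16557560) (l 16580592))) (b (b (a (l 16610176) (a (l 16609064) (a (l 16619608) (l 16626880)))) (a (l 16597112) (l 16624824))) (a (l 16606464) (b (l 16632072) (l 16638504))))) (a (b (a (l 16570576) (l 16601680)) (a (l 16647448) (l 16608032))) (a (a (l 16599096) (l 16612880)) (b (l 16648768) (a (l 16655776) (l 16671184)))))) (b (a (b (a (l 16599088) (l 16664904)) (l 16710120)) (b (a (l 16733456) (l 80765152231)) (a (l 16665192) (l 4)))) (a (a (l 16657336) (l 16660936)) (l 4)))) (b (a (b (b (a (b (a (b (l 16635792) (l 16640456)) (b (l 16651336) (l 16656184))) (a (l 16647288) (l 16663288))) (b (a (b (l 6) (l 16673112)) (l 6)) (a (l 16680432) (l 16719544)))) (a (b (l 16663776) (l 16670208)) (a (l 16702504) (b (l 16706248) (l 16712960))))) (b (a (a (l 16672208) (l 16689032)) (b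 (l 16732640) (l 4))) (a (l 16696232) (l 4)))) (b (a (b (l 6) (b (l 6) (a (l 16732072) (l 4)))) (l 6)) (l 4))) (l 4))) (l 4)), by decide +kernel⟩

def k2_mm_202_a : ∃ t, chk3 f_mm_202_a t 1 3 1 = true :=
  ⟨(a (b (b (a (b (l 8824668231) (l 4)) (l 4)) (l 4)) (l 4)) (l 4)), by decide +kernel⟩

theorem s3_mm_202_a : ∃ t, chk3 f_mm_202_a t 1 2 1 = true := ex3_a k0_mm_202_a k1_mm_202_a

theorem s4_mm_202_a : ∃ t, chk3 f_mm_202_a t 1 1 1 = true := ex3_b s3_mm_202_a k2_mm_202_a

theorem c_mm_202_a : CertB 0 536870912 0 536870912 587336777 62277027 3 eng mog cd2q2a cd3q0 pd2 true false false .pp 2 0 2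
    ndB2q2a ndB3q0 pcB2 cut_mm_202_a Ext.none :=
  certB0 (fam := true) (s1 := false) (s2 := false) (a := 2) (b := 0) (c := 2) (cn := .pp) (n1 := ndB2q2a) (n2 := ndB3q0) (pc := pcB2) (cut := cut_mm_202_a) (xt := Ext.none) (P1 := 0) (W1 := 536870912) (P2 := 0) (W2 := 536870912) (P3 := 587336777) (W3 := 62277027) (N0 := 3) (En := eng) (mo := mog) (C1 := cd2q2a) (C2 := cd3q0) (C3 := pd2)
    rfl s4_mm_202_a

noncomputable def cut_mm_202_b : Cut := Cut.of [[⟨0, 1, 0, 67108864⟩, ⟨1, 0, 0, 67108864⟩, ⟨2, 1, 0, 67108864⟩]]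

noncomputable def f_mm_202_b : ℕ → ℕ → ℕ → ℕ → Bool := onCell 1073741824 536870912 0 536870912 587336777 62277027
    (rowB 3 eng mog cd2q2b cd3q0 pd2 2 true false false .pp 2 0 2 (qsf 1239849684 370763052 0 536870912 2) ndB2q2b ndB3q0 pcB2 cut_mm_202_b Ext.none)

def k0_mm_202_b : ∃ t, chk3 f_mm_202_b t 1 1 1 = true :=
  ⟨(a (b (a (l 1) (b (a (b (b (a (b (l 147135719319) (l 1)) (a (b (l 16453640) (l 16493464)) (l 16421312))) (a (l 1) (a (l 1) (l 16522672)))) (l 1)) (b (b (a (l 16393520) (l 16328264)) (a (l 16476456) (l 16411536))) (a (b (l 282964019479) (l 1)) (b (l 16496496) (l 16578720))))) (l 1))) (l 1)) (a (b (b (a (b (b (l 16285048) (l 16318416)) (a (l 16475136) (l 16407024))) (b (a (l 16207056) (l 16174648)) (a (l 16353656) (l 16317456)))) (a (b (a (l 321082006119) (l 16589256)) (l 1)) (b (a (l 16526424) (l 16454728)) (a (l 255046907927) (l 16648400))))) (l 1)) (b (a (b (b (a (l 16150080) (l 16130368)) (l 16273552)) (b (l 16406960) (a (l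 16584872) (l 16511976)))) (b (b (l 16212304) (l 16397144)) (a (l 16516440) (l 16416576)))) (a (b (b (a (l 279206007943) (l 16707536)) (l 1)) (l 1)) (l 4))))), by decide +kernel⟩

theorem c_mm_202_b : CertB 1239849684 370763052 0 536870912 587336777 62277027 3 eng mog cd2q2b cd3q0 pd2 true false false .pp 2 0 2
    ndB2q2b ndB3q0 pcB2 cut_mm_202_b Ext.none :=
  certB2 (fam := true) (s1 := false) (s2 := false) (a := 2) (b := 0) (c := 2) (cn := .pp) (n1 := ndB2q2b) (n2 := ndB3q0) (pc := pcB2) (cut := cut_mm_202_b) (xt := Ext.none) (P1 := 1239849684) (W1 := 370763052) (P2 := 0) (W2 := 536870912) (P3 := 587336777) (W3 := 62277027) (N0 := 3) (En := eng) (mo := mog) (C1 := cd2q2b) (C2 := cd3q0) (C3 := pd2)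
    rfl (fun _ => rfl) k0_mm_202_b

noncomputable def f_mm_203_a : ℕ → ℕ → ℕ → ℕ → Bool := onCell 0 536870912 1610612736 536870912 587336777 62277027
    (rowB 3 eng mog cd2q2a cd3q0 pd3 1 true false false .up 2 0 3 (qsf 0 536870912 0 536870912 3) ndB2q2a ndB3q0 pcB3 Cut.none Ext.none)

def k0_mm_203_a : ∃ t, chk3 f_mm_203_a t 1 1 1 = true :=
  ⟨(b (l 4) (l 2)), by decide +kernel⟩

theorem c_mm_203_a : CertB 0 536870912 0 536870912 587336777 62277027 3 eng mog cd2q2a cd3q0 pd3 true false false .up 2 0 3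
    ndB2q2a ndB3q0 pcB3 Cut.none Ext.none :=
  certB1 (fam := true) (s1 := false) (s2 := false) (a := 2) (b := 0) (c := 3) (cn := .up) (n1 := ndB2q2a) (n2 := ndB3q0) (pc := pcB3) (cut := Cut.none) (xt := Ext.none) (P1 := 0) (W1 := 536870912) (P2 := 0) (W2 := 536870912) (P3 := 587336777) (W3 := 62277027) (N0 := 3) (En := eng) (mo := mog) (C1 := cd2q2a) (C2 := cd3q0) (C3 := pd3)
    rfl (fun _ => rfl) k0_mm_203_a

noncomputable def f_mm_203_b : ℕ → ℕ → ℕ → ℕ → Bool := onCell 1239849684 370763052 1610612736 536870912 587336777 62277027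
    (rowB 3 eng mog cd2q2b cd3q0 pd3 1 true false false .up 2 0 3 (qsf 1239849684 370763052 0 536870912 3) ndB2q2b ndB3q0 pcB3 Cut.none Ext.none)

def k0_mm_203_b : ∃ t, chk3 f_mm_203_b t 1 1 1 = true :=
  ⟨(b (b (a (l 4) (b (a (l 4) (b (l 16146560) (l 4))) (l 4))) (l 4)) (l 4)), by decide +kernel⟩

theorem c_mm_203_b : CertB 1239849684 370763052 0 536870912 587336777 62277027 3 eng mog cd2q2b cd3q0 pd3 true false false .up 2 0 3
    ndB2q2b ndB3q0 pcB3 Cut.none Ext.none :=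
  certB1 (fam := true) (s1 := false) (s2 := false) (a := 2) (b := 0) (c := 3) (cn := .up) (n1 := ndB2q2b) (n2 := ndB3q0) (pc := pcB3) (cut := Cut.none) (xt := Ext.none) (P1 := 1239849684) (W1 := 370763052) (P2 := 0) (W2 := 536870912) (P3 := 587336777) (W3 := 62277027) (N0 := 3) (En := eng) (mo := mog) (C1 := cd2q2b) (C2 := cd3q0) (C3 := pd3)
    rfl (fun _ => rfl) k0_mm_203_b

noncomputable def f_mm_213_a : ℕ → ℕ → ℕ → ℕ → Bool := onCell 0 536870912 536870912 536870912 587336777 62277027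
    (rowB 3 eng mog cd2q2a cd3q1 pd3 0 true false false .pnn 2 1 3 (qsf 0 536870912 536870912 536870912 3) ndB2q2a ndB3q1 pcB3 Cut.none Ext.none)

def k0_mm_213_a : ∃ t, chk3 f_mm_213_a t 1 1 1 = true :=
  ⟨(l 4), by decide +kernel⟩

theorem c_mm_213_a : CertB 0 536870912 536870912 536870912 587336777 62277027 3 eng mog cd2q2a cd3q1 pd3 true false false .pnn 2 1 3
    ndB2q2a ndB3q1 pcB3 Cut.none Ext.none :=
  certB0 (fam := true) (s1 := false) (s2 := false) (a := 2) (b := 1) (c := 3) (cn := .pnn) (n1 := ndB2q2a) (n2 := ndB3q1) (pc := pcB3) (cut := Cut.none) (xt := Ext.none) (P1 := 0) (W1 := 536870912) (P2 := 536870912) (W2 := 536870912) (P3 := 587336777) (W3 := 62277027) (N0 := 3) (En := eng) (mo := mog) (C1 := cd2q2a) (C2 := cd3q1) (C3 := pd3)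
    rfl k0_mm_213_a

noncomputable def f_mm_213_b : ℕ → ℕ → ℕ → ℕ → Bool := onCell 1239849684 370763052 536870912 536870912 587336777 62277027
    (rowB 3 eng mog cd2q2b cd3q1 pd3 0 true false false .pnn 2 1 3 (qsf 1239849684 370763052 536870912 536870912 3) ndB2q2b ndB3q1 pcB3 Cut.none Ext.none)

def k0_mm_213_b : ∃ t, chk3 f_mm_213_b t 1 1 1 = true :=
  ⟨(l 4), by decide +kernel⟩

theorem c_mm_213_b : CertB 1239849684 370763052 536870912 536870912 587336777 62277027 3 eng mog cd2q2b cd3q1 pd3 true false false .pnn 2 1 3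
    ndB2q2b ndB3q1 pcB3 Cut.none Ext.none :=
  certB0 (fam := true) (s1 := false) (s2 := false) (a := 2) (b := 1) (c := 3) (cn := .pnn) (n1 := ndB2q2b) (n2 := ndB3q1) (pc := pcB3) (cut := Cut.none) (xt := Ext.none) (P1 := 1239849684) (W1 := 370763052) (P2 := 536870912) (W2 := 536870912) (P3 := 587336777) (W3 := 62277027) (N0 := 3) (En := eng) (mo := mog) (C1 := cd2q2b) (C2 := cd3q1) (C3 := pd3)
    rfl k0_mm_213_b

noncomputable def f_mm_303 : ℕ → ℕ → ℕ → ℕ → Bool := onCell 1610612736 536870912 0 536870912 587336777 62277027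
    (rowB 3 eng mog cd2q3 cd3q0 pd3 2 true false false .npn 3 0 3 (qsf 1610612736 536870912 0 536870912 3) ndB2q3 ndB3q0 pcB3 Cut.none Ext.none)

def k0_mm_303 : ∃ t, chk3 f_mm_303 t 1 1 1 = true :=
  ⟨(a (a (b (a (b (a (l 16332384) (l 16194024)) (l 1)) (l 4)) (l 1)) (l 4)) (l 4)), by decide +kernel⟩

theorem c_mm_303 : CertB 1610612736 536870912 0 536870912 587336777 62277027 3 eng mog cd2q3 cd3q0 pd3 true false false .npn 3 0 3
    ndB2q3 ndB3q0 pcB3 Cut.none Ext.none :=
  certB2 (fam := true) (s1 := false) (s2 := false) (a := 3) (b := 0) (c := 3) (cn := .npn) (n1 := ndB2q3) (n2 := ndB3q0) (pc := pcB3) (cut := Cut.none) (xt := Ext.none) (P1 := 1610612736) (W1 := 536870912) (P2 := 0) (W2 := 536870912) (P3 := 587336777) (W3 := 62277027) (N0 := 3) (En := eng) (mo := mog) (C1 := cd2q3) (C2 := cd3q0) (C3 := pd3)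
    rfl (fun _ => rfl) k0_mm_303

noncomputable def f_mm_313 : ℕ → ℕ → ℕ → ℕ → Bool := onCell 1610612736 536870912 536870912 536870912 587336777 62277027
    (rowB 3 eng mog cd2q3 cd3q1 pd3 0 true false false .dn 3 1 3 (qsf 1610612736 536870912 536870912 536870912 3) ndB2q3 ndB3q1 pcB3 Cut.none Ext.none)

def k0_mm_313 : ∃ t, chk3 f_mm_313 t 1 1 1 = true :=
  ⟨(l 4), by decide +kernel⟩

theorem c_mm_313 : CertB 1610612736 536870912 536870912 536870912 587336777 62277027 3 eng mog cd2q3 cd3q1 pd3 true false false .dn 3 1 3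
    ndB2q3 ndB3q1 pcB3 Cut.none Ext.none :=
  certB0 (fam := true) (s1 := false) (s2 := false) (a := 3) (b := 1) (c := 3) (cn := .dn) (n1 := ndB2q3) (n2 := ndB3q1) (pc := pcB3) (cut := Cut.none) (xt := Ext.none) (P1 := 1610612736) (W1 := 536870912) (P2 := 536870912) (W2 := 536870912) (P3 := 587336777) (W3 := 62277027) (N0 := 3) (En := eng) (mo := mog) (C1 := cd2q3) (C2 := cd3q1) (C3 := pd3)
    rfl k0_mm_313

end Pool.Agent.Strip051.G.I5470_6050.Tab.C.BA23

namespace Pool.Agent.Strip051.G.I5470_6050.Tab.C.BA24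

open Pool.Agent.Strip051.PB Pool.Agent.Strip051.PB.T
open Pool.Agent.Strip051.G.I5470_6050.Tab

noncomputable def f_pp_001 : ℕ → ℕ → ℕ → ℕ → Bool := onCell 0 536870912 0 536870912 587336777 62277027
    (rowB 3 eng mog cd2q0 cd4q0 pd1 0 true true true .up 0 0 1 (qsf 0 536870912 0 536870912 1) ndB2q0 ndB4q0 pcB1 Cut.none Ext.none)

def k0_pp_001 : ∃ t, chk3 f_pp_001 t 1 1 1 = true :=
  ⟨(l 4), by decide +kernel⟩

theorem c_pp_001 : CertB 0 536870912 0 536870912 587336777 62277027 3 eng mog cd2q0 cd4q0 pd1 true true true .up 0 0 1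
    ndB2q0 ndB4q0 pcB1 Cut.none Ext.none :=
  certB0 (fam := true) (s1 := true) (s2 := true) (a := 0) (b := 0) (c := 1) (cn := .up) (n1 := ndB2q0) (n2 := ndB4q0) (pc := pcB1) (cut := Cut.none) (xt := Ext.none) (P1 := 0) (W1 := 536870912) (P2 := 0) (W2 := 536870912) (P3 := 587336777) (W3 := 62277027) (N0 := 3) (En := eng) (mo := mog) (C1 := cd2q0) (C2 := cd4q0) (C3 := pd1)
    rfl k0_pp_001

noncomputable def f_pp_011 : ℕ → ℕ → ℕ → ℕ → Bool := onCell 0 536870912 536870912 536870912 587336777 62277027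
    (rowB 3 eng mog cd2q0 cd4q1 pd1 0 true true true .pnn 0 1 1 (qsf 0 536870912 536870912 536870912 1) ndB2q0 ndB4q1 pcB1 Cut.none Ext.none)

def k0_pp_011 : ∃ t, chk3 f_pp_011 t 1 1 1 = true :=
  ⟨(l 4), by decide +kernel⟩

theorem c_pp_011 : CertB 0 536870912 536870912 536870912 587336777 62277027 3 eng mog cd2q0 cd4q1 pd1 true true true .pnn 0 1 1
    ndB2q0 ndB4q1 pcB1 Cut.none Ext.none :=
  certB0 (fam := true) (s1 := true) (s2 := true) (a := 0) (b := 1) (c := 1) (cn := .pnn) (n1 := ndB2q0) (n2 := ndB4q1) (pc := pcB1) (cut := Cut.none) (xt := Ext.none) (P1 := 0) (W1 := 536870912) (P2 := 536870912) (W2 := 536870912) (P3 := 587336777) (W3 := 62277027) (N0 := 3) (En := eng) (mo := mog) (C1 := cd2q0) (C2 := cd4q1) (C3 := pd1)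
    rfl k0_pp_011

noncomputable def f_pp_012 : ℕ → ℕ → ℕ → ℕ → Bool := onCell 0 536870912 536870912 536870912 587336777 62277027
    (rowB 3 eng mog cd2q0 cd4q1 pd2 0 true true true .pnp 0 1 2 (qsf 0 536870912 536870912 536870912 2) ndB2q0 ndB4q1 pcB2 Cut.none Ext.none)

def k0_pp_012 : ∃ t, chk3 f_pp_012 t 1 1 1 = true :=
  ⟨(l 4), by decide +kernel⟩

theorem c_pp_012 : CertB 0 536870912 536870912 536870912 587336777 62277027 3 eng mog cd2q0 cd4q1 pd2 true true true .pnp 0 1 2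
    ndB2q0 ndB4q1 pcB2 Cut.none Ext.none :=
  certB0 (fam := true) (s1 := true) (s2 := true) (a := 0) (b := 1) (c := 2) (cn := .pnp) (n1 := ndB2q0) (n2 := ndB4q1) (pc := pcB2) (cut := Cut.none) (xt := Ext.none) (P1 := 0) (W1 := 536870912) (P2 := 536870912) (W2 := 536870912) (P3 := 587336777) (W3 := 62277027) (N0 := 3) (En := eng) (mo := mog) (C1 := cd2q0) (C2 := cd4q1) (C3 := pd2)
    rfl k0_pp_012

noncomputable def cut_pp_022_a : Cut := Cut.of [[⟨0, 0, 0, 67108864⟩, ⟨1, 1, 0, 67108864⟩, ⟨2, 1, 0, 67108864⟩]]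

noncomputable def f_pp_022_a : ℕ → ℕ → ℕ → ℕ → Bool := onCell 0 536870912 0 536870912 587336777 62277027
    (rowB 3 eng mog cd2q0 cd4q2a pd2 0 true true true .pp 0 2 2 (qsf 0 536870912 0 536870912 2) ndB2q0 ndB4q2a pcB2 cut_pp_022_a Ext.none)

def k0_pp_022_a : ∃ t, chk3 f_pp_022_a t 1 1 1 = true :=
  ⟨(a (a (a (a (b (b (a (b (b (l 16460104) (l 16462608)) (l 16471160)) (b (l 16496800) (l 4))) (b (a (l 16490528) (l 4)) (l 4))) (b (l 4) (b (l 4) (b (l 4) (l 6))))) (b (l 4) (l 4))) (l 4)) (l 4)) (l 4)), by decide +kernel⟩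

theorem c_pp_022_a : CertB 0 536870912 0 536870912 587336777 62277027 3 eng mog cd2q0 cd4q2a pd2 true true true .pp 0 2 2
    ndB2q0 ndB4q2a pcB2 cut_pp_022_a Ext.none :=
  certB0 (fam := true) (s1 := true) (s2 := true) (a := 0) (b := 2) (c := 2) (cn := .pp) (n1 := ndB2q0) (n2 := ndB4q2a) (pc := pcB2) (cut := cut_pp_022_a) (xt := Ext.none) (P1 := 0) (W1 := 536870912) (P2 := 0) (W2 := 536870912) (P3 := 587336777) (W3 := 62277027) (N0 := 3) (En := eng) (mo := mog) (C1 := cd2q0) (C2 := cd4q2a) (C3 := pd2)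
    rfl k0_pp_022_a

noncomputable def cut_pp_022_b : Cut := Cut.of [[⟨0, 0, 0, 67108864⟩, ⟨1, 1, 0, 67108864⟩, ⟨2, 1, 0, 67108864⟩]]

noncomputable def f_pp_022_b : ℕ → ℕ → ℕ → ℕ → Bool := onCell 0 536870912 1239849684 370763052 587336777 62277027
    (rowB 3 eng mog cd2q0 cd4q2b pd2 0 true true true .pp 0 2 2 (qsf 0 536870912 1239849684 370763052 2) ndB2q0 ndB4q2b pcB2 cut_pp_022_b Ext.none)

def k0_pp_022_b : ∃ t, chk3 f_pp_022_b t 1 1 1 = true :=
  ⟨(a (b (a (b (a (b (a (b (a (b (a (l 16445168) (l 16452248)) (l 16510992)) (l 16535720)) (a (l 16457640) (l 4))) (l 4)) (l 4)) (l 4)) (l 4)) (l 4)) (l 4)) (l 4)), by decide +kernel⟩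

theorem c_pp_022_b : CertB 0 536870912 1239849684 370763052 587336777 62277027 3 eng mog cd2q0 cd4q2b pd2 true true true .pp 0 2 2
    ndB2q0 ndB4q2b pcB2 cut_pp_022_b Ext.none :=
  certB0 (fam := true) (s1 := true) (s2 := true) (a := 0) (b := 2) (c := 2) (cn := .pp) (n1 := ndB2q0) (n2 := ndB4q2b) (pc := pcB2) (cut := cut_pp_022_b) (xt := Ext.none) (P1 := 0) (W1 := 536870912) (P2 := 1239849684) (W2 := 370763052) (P3 := 587336777) (W3 := 62277027) (N0 := 3) (En := eng) (mo := mog) (C1 := cd2q0) (C2 := cd4q2b) (C3 := pd2)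
    rfl k0_pp_022_b

noncomputable def f_pp_023_a : ℕ → ℕ → ℕ → ℕ → Bool := onCell 1610612736 536870912 0 536870912 587336777 62277027
    (rowB 3 eng mog cd2q0 cd4q2a pd3 2 true true true .up 0 2 3 (qsf 0 536870912 0 536870912 3) ndB2q0 ndB4q2a pcB3 Cut.none Ext.none)

def k0_pp_023_a : ∃ t, chk3 f_pp_023_a t 1 1 1 = true :=
  ⟨(l 4), by decide +kernel⟩

theorem c_pp_023_a : CertB 0 536870912 0 536870912 587336777 62277027 3 eng mog cd2q0 cd4q2a pd3 true true true .up 0 2 3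
    ndB2q0 ndB4q2a pcB3 Cut.none Ext.none :=
  certB2 (fam := true) (s1 := true) (s2 := true) (a := 0) (b := 2) (c := 3) (cn := .up) (n1 := ndB2q0) (n2 := ndB4q2a) (pc := pcB3) (cut := Cut.none) (xt := Ext.none) (P1 := 0) (W1 := 536870912) (P2 := 0) (W2 := 536870912) (P3 := 587336777) (W3 := 62277027) (N0 := 3) (En := eng) (mo := mog) (C1 := cd2q0) (C2 := cd4q2a) (C3 := pd3)
    rfl (fun _ => rfl) k0_pp_023_a

noncomputable def f_pp_023_b : ℕ → ℕ → ℕ → ℕ → Bool := onCell 1610612736 536870912 1239849684 370763052 587336777 62277027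
    (rowB 3 eng mog cd2q0 cd4q2b pd3 2 true true true .up 0 2 3 (qsf 0 536870912 1239849684 370763052 3) ndB2q0 ndB4q2b pcB3 Cut.none Ext.none)

def k0_pp_023_b : ∃ t, chk3 f_pp_023_b t 1 1 1 = true :=
  ⟨(l 4), by decide +kernel⟩

theorem c_pp_023_b : CertB 0 536870912 1239849684 370763052 587336777 62277027 3 eng mog cd2q0 cd4q2b pd3 true true true .up 0 2 3
    ndB2q0 ndB4q2b pcB3 Cut.none Ext.none :=
  certB2 (fam := true) (s1 := true) (s2 := true) (a := 0) (b := 2) (c := 3) (cn := .up) (n1 := ndB2q0) (n2 := ndB4q2b) (pc := pcB3) (cut := Cut.none) (xt := Ext.none) (P1 := 0) (W1 := 536870912) (P2 := 1239849684) (W2 := 370763052) (P3 := 587336777) (W3 := 62277027) (N0 := 3) (En := eng) (mo := mog) (C1 := cd2q0) (C2 := cd4q2b) (C3 := pd3)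
    rfl (fun _ => rfl) k0_pp_023_b

noncomputable def f_pp_033 : ℕ → ℕ → ℕ → ℕ → Bool := onCell 0 536870912 1610612736 536870912 587336777 62277027
    (rowB 3 eng mog cd2q0 cd4q3 pd3 0 true true true .pnn 0 3 3 (qsf 0 536870912 1610612736 536870912 3) ndB2q0 ndB4q3 pcB3 Cut.none Ext.none)

def k0_pp_033 : ∃ t, chk3 f_pp_033 t 1 1 1 = true :=
  ⟨(l 4), by decide +kernel⟩

theorem c_pp_033 : CertB 0 536870912 1610612736 536870912 587336777 62277027 3 eng mog cd2q0 cd4q3 pd3 true true true .pnn 0 3 3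
    ndB2q0 ndB4q3 pcB3 Cut.none Ext.none :=
  certB0 (fam := true) (s1 := true) (s2 := true) (a := 0) (b := 3) (c := 3) (cn := .pnn) (n1 := ndB2q0) (n2 := ndB4q3) (pc := pcB3) (cut := Cut.none) (xt := Ext.none) (P1 := 0) (W1 := 536870912) (P2 := 1610612736) (W2 := 536870912) (P3 := 587336777) (W3 := 62277027) (N0 := 3) (En := eng) (mo := mog) (C1 := cd2q0) (C2 := cd4q3) (C3 := pd3)
    rfl k0_pp_033

noncomputable def f_pp_101 : ℕ → ℕ → ℕ → ℕ → Bool := onCell 536870912 536870912 0 536870912 587336777 62277027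
    (rowB 3 eng mog cd2q1 cd4q0 pd1 0 true true true .npn 1 0 1 (qsf 536870912 536870912 0 536870912 1) ndB2q1 ndB4q0 pcB1 Cut.none Ext.none)

def k0_pp_101 : ∃ t, chk3 f_pp_101 t 1 1 1 = true :=
  ⟨(l 4), by decide +kernel⟩

theorem c_pp_101 : CertB 536870912 536870912 0 536870912 587336777 62277027 3 eng mog cd2q1 cd4q0 pd1 true true true .npn 1 0 1
    ndB2q1 ndB4q0 pcB1 Cut.none Ext.none :=
  certB0 (fam := true) (s1 := true) (s2 := true) (a := 1) (b := 0) (c := 1) (cn := .npn) (n1 := ndB2q1) (n2 := ndB4q0) (pc := pcB1) (cut := Cut.none) (xt := Ext.none) (P1 := 536870912) (W1 := 536870912) (P2 := 0) (W2 := 536870912) (P3 := 587336777) (W3 := 62277027) (N0 := 3) (En := eng) (mo := mog) (C1 := cd2q1) (C2 := cd4q0) (C3 := pd1)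
    rfl k0_pp_101

noncomputable def f_pp_102 : ℕ → ℕ → ℕ → ℕ → Bool := onCell 536870912 536870912 0 536870912 587336777 62277027
    (rowB 3 eng mog cd2q1 cd4q0 pd2 0 true true true .npp 1 0 2 (qsf 536870912 536870912 0 536870912 2) ndB2q1 ndB4q0 pcB2 Cut.none Ext.none)

def k0_pp_102 : ∃ t, chk3 f_pp_102 t 1 1 1 = true :=
  ⟨(l 4), by decide +kernel⟩

theorem c_pp_102 : CertB 536870912 536870912 0 536870912 587336777 62277027 3 eng mog cd2q1 cd4q0 pd2 true true true .npp 1 0 2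
    ndB2q1 ndB4q0 pcB2 Cut.none Ext.none :=
  certB0 (fam := true) (s1 := true) (s2 := true) (a := 1) (b := 0) (c := 2) (cn := .npp) (n1 := ndB2q1) (n2 := ndB4q0) (pc := pcB2) (cut := Cut.none) (xt := Ext.none) (P1 := 536870912) (W1 := 536870912) (P2 := 0) (W2 := 536870912) (P3 := 587336777) (W3 := 62277027) (N0 := 3) (En := eng) (mo := mog) (C1 := cd2q1) (C2 := cd4q0) (C3 := pd2)
    rfl k0_pp_102

noncomputable def f_pp_112 : ℕ → ℕ → ℕ → ℕ → Bool := onCell 536870912 536870912 536870912 536870912 587336777 62277027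
    (rowB 3 eng mog cd2q1 cd4q1 pd2 0 true true true .dn 1 1 2 (qsf 536870912 536870912 536870912 536870912 2) ndB2q1 ndB4q1 pcB2 Cut.none Ext.none)

def k0_pp_112 : ∃ t, chk3 f_pp_112 t 1 1 1 = true :=
  ⟨(l 4), by decide +kernel⟩

theorem c_pp_112 : CertB 536870912 536870912 536870912 536870912 587336777 62277027 3 eng mog cd2q1 cd4q1 pd2 true true true .dn 1 1 2
    ndB2q1 ndB4q1 pcB2 Cut.none Ext.none :=
  certB0 (fam := true) (s1 := true) (s2 := true) (a := 1) (b := 1) (c := 2) (cn := .dn) (n1 := ndB2q1) (n2 := ndB4q1) (pc := pcB2) (cut := Cut.none) (xt := Ext.none) (P1 := 536870912) (W1 := 536870912) (P2 := 536870912) (W2 := 536870912) (P3 := 587336777) (W3 := 62277027) (N0 := 3) (En := eng) (mo := mog) (C1 := cd2q1) (C2 := cd4q1) (C3 := pd2)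
    rfl k0_pp_112

noncomputable def f_pp_113 : ℕ → ℕ → ℕ → ℕ → Bool := onCell 536870912 536870912 536870912 536870912 587336777 62277027
    (rowB 3 eng mog cd2q1 cd4q1 pd3 0 true true true .nn 1 1 3 (qsf 536870912 536870912 536870912 536870912 3) ndB2q1 ndB4q1 pcB3 Cut.none Ext.none)

def k0_pp_113 : ∃ t, chk3 f_pp_113 t 1 1 1 = true :=
  ⟨(l 4), by decide +kernel⟩

theorem c_pp_113 : CertB 536870912 536870912 536870912 536870912 587336777 62277027 3 eng mog cd2q1 cd4q1 pd3 true true true .nn 1 1 3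
    ndB2q1 ndB4q1 pcB3 Cut.none Ext.none :=
  certB0 (fam := true) (s1 := true) (s2 := true) (a := 1) (b := 1) (c := 3) (cn := .nn) (n1 := ndB2q1) (n2 := ndB4q1) (pc := pcB3) (cut := Cut.none) (xt := Ext.none) (P1 := 536870912) (W1 := 536870912) (P2 := 536870912) (W2 := 536870912) (P3 := 587336777) (W3 := 62277027) (N0 := 3) (En := eng) (mo := mog) (C1 := cd2q1) (C2 := cd4q1) (C3 := pd3)
    rfl k0_pp_113

noncomputable def f_pp_123_a : ℕ → ℕ → ℕ → ℕ → Bool := onCell 536870912 536870912 0 536870912 587336777 62277027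
    (rowB 3 eng mog cd2q1 cd4q2a pd3 0 true true true .npn 1 2 3 (qsf 536870912 536870912 0 536870912 3) ndB2q1 ndB4q2a pcB3 Cut.none Ext.none)

def k0_pp_123_a : ∃ t, chk3 f_pp_123_a t 1 1 1 = true :=
  ⟨(l 4), by decide +kernel⟩

theorem c_pp_123_a : CertB 536870912 536870912 0 536870912 587336777 62277027 3 eng mog cd2q1 cd4q2a pd3 true true true .npn 1 2 3
    ndB2q1 ndB4q2a pcB3 Cut.none Ext.none :=
  certB0 (fam := true) (s1 := true) (s2 := true) (a := 1) (b := 2) (c := 3) (cn := .npn) (n1 := ndB2q1) (n2 := ndB4q2a) (pc := pcB3) (cut := Cut.none) (xt := Ext.none) (P1 := 536870912) (W1 := 536870912) (P2 := 0) (W2 := 536870912) (P3 := 587336777) (W3 := 62277027) (N0 := 3) (En := eng) (mo := mog) (C1 := cd2q1) (C2 := cd4q2a) (C3 := pd3)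
    rfl k0_pp_123_a

noncomputable def f_pp_123_b : ℕ → ℕ → ℕ → ℕ → Bool := onCell 536870912 536870912 1239849684 370763052 587336777 62277027
    (rowB 3 eng mog cd2q1 cd4q2b pd3 0 true true true .npn 1 2 3 (qsf 536870912 536870912 1239849684 370763052 3) ndB2q1 ndB4q2b pcB3 Cut.none Ext.none)

def k0_pp_123_b : ∃ t, chk3 f_pp_123_b t 1 1 1 = true :=
  ⟨(l 4), by decide +kernel⟩

theorem c_pp_123_b : CertB 536870912 536870912 1239849684 370763052 587336777 62277027 3 eng mog cd2q1 cd4q2b pd3 true true true .npn 1 2 3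
    ndB2q1 ndB4q2b pcB3 Cut.none Ext.none :=
  certB0 (fam := true) (s1 := true) (s2 := true) (a := 1) (b := 2) (c := 3) (cn := .npn) (n1 := ndB2q1) (n2 := ndB4q2b) (pc := pcB3) (cut := Cut.none) (xt := Ext.none) (P1 := 536870912) (W1 := 536870912) (P2 := 1239849684) (W2 := 370763052) (P3 := 587336777) (W3 := 62277027) (N0 := 3) (En := eng) (mo := mog) (C1 := cd2q1) (C2 := cd4q2b) (C3 := pd3)
    rfl k0_pp_123_b

noncomputable def f_pp_133 : ℕ → ℕ → ℕ → ℕ → Bool := onCell 536870912 536870912 1610612736 536870912 587336777 62277027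
    (rowB 3 eng mog cd2q1 cd4q3 pd3 0 true true true .dn 1 3 3 (qsf 536870912 536870912 1610612736 536870912 3) ndB2q1 ndB4q3 pcB3 Cut.none Ext.none)

def k0_pp_133 : ∃ t, chk3 f_pp_133 t 1 1 1 = true :=
  ⟨(l 4), by decide +kernel⟩

theorem c_pp_133 : CertB 536870912 536870912 1610612736 536870912 587336777 62277027 3 eng mog cd2q1 cd4q3 pd3 true true true .dn 1 3 3
    ndB2q1 ndB4q3 pcB3 Cut.none Ext.none :=
  certB0 (fam := true) (s1 := true) (s2 := true) (a := 1) (b := 3) (c := 3) (cn := .dn) (n1 := ndB2q1) (n2 := ndB4q3) (pc := pcB3) (cut := Cut.none) (xt := Ext.none) (P1 := 536870912) (W1 := 536870912) (P2 := 1610612736) (W2 := 536870912) (P3 := 587336777) (W3 := 62277027) (N0 := 3) (En := eng) (mo := mog) (C1 := cd2q1) (C2 := cd4q3) (C3 := pd3)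
    rfl k0_pp_133

noncomputable def f_pp_202_a : ℕ → ℕ → ℕ → ℕ → Bool := onCell 0 536870912 0 536870912 587336777 62277027
    (rowB 3 eng mog cd2q2a cd4q0 pd2 0 true true true .pp 2 0 2 (qsf 0 536870912 0 536870912 2) ndB2q2a ndB4q0 pcB2 Cut.none Ext.none)

def k0_pp_202_a : ∃ t, chk3 f_pp_202_a t 1 1 1 = true :=
  ⟨(l 5), by decide +kernel⟩

theorem c_pp_202_a : CertB 0 536870912 0 536870912 587336777 62277027 3 eng mog cd2q2a cd4q0 pd2 true true true .pp 2 0 2
    ndB2q2a ndB4q0 pcB2 Cut.none Ext.none :=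
  certB0 (fam := true) (s1 := true) (s2 := true) (a := 2) (b := 0) (c := 2) (cn := .pp) (n1 := ndB2q2a) (n2 := ndB4q0) (pc := pcB2) (cut := Cut.none) (xt := Ext.none) (P1 := 0) (W1 := 536870912) (P2 := 0) (W2 := 536870912) (P3 := 587336777) (W3 := 62277027) (N0 := 3) (En := eng) (mo := mog) (C1 := cd2q2a) (C2 := cd4q0) (C3 := pd2)
    rfl k0_pp_202_a

noncomputable def f_pp_202_b : ℕ → ℕ → ℕ → ℕ → Bool := onCell 1239849684 370763052 0 536870912 587336777 62277027
    (rowB 3 eng mog cd2q2b cd4q0 pd2 0 true true true .pp 2 0 2 (qsf 1239849684 370763052 0 536870912 2) ndB2q2b ndB4q0 pcB2 Cut.none Ext.none)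

def k0_pp_202_b : ∃ t, chk3 f_pp_202_b t 1 1 1 = true :=
  ⟨(l 5), by decide +kernel⟩

theorem c_pp_202_b : CertB 1239849684 370763052 0 536870912 587336777 62277027 3 eng mog cd2q2b cd4q0 pd2 true true true .pp 2 0 2
    ndB2q2b ndB4q0 pcB2 Cut.none Ext.none :=
  certB0 (fam := true) (s1 := true) (s2 := true) (a := 2) (b := 0) (c := 2) (cn := .pp) (n1 := ndB2q2b) (n2 := ndB4q0) (pc := pcB2) (cut := Cut.none) (xt := Ext.none) (P1 := 1239849684) (W1 := 370763052) (P2 := 0) (W2 := 536870912) (P3 := 587336777) (W3 := 62277027) (N0 := 3) (En := eng) (mo := mog) (C1 := cd2q2b) (C2 := cd4q0) (C3 := pd2)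
    rfl k0_pp_202_b

noncomputable def f_pp_203_a : ℕ → ℕ → ℕ → ℕ → Bool := onCell 0 536870912 0 536870912 587336777 62277027
    (rowB 3 eng mog cd2q2a cd4q0 pd3 0 true true true .up 2 0 3 (qsf 0 536870912 0 536870912 3) ndB2q2a ndB4q0 pcB3 Cut.none Ext.none)

def k0_pp_203_a : ∃ t, chk3 f_pp_203_a t 1 1 1 = true :=
  ⟨(l 5), by decide +kernel⟩

theorem c_pp_203_a : CertB 0 536870912 0 536870912 587336777 62277027 3 eng mog cd2q2a cd4q0 pd3 true true true .up 2 0 3
    ndB2q2a ndB4q0 pcB3 Cut.none Ext.none :=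
  certB0 (fam := true) (s1 := true) (s2 := true) (a := 2) (b := 0) (c := 3) (cn := .up) (n1 := ndB2q2a) (n2 := ndB4q0) (pc := pcB3) (cut := Cut.none) (xt := Ext.none) (P1 := 0) (W1 := 536870912) (P2 := 0) (W2 := 536870912) (P3 := 587336777) (W3 := 62277027) (N0 := 3) (En := eng) (mo := mog) (C1 := cd2q2a) (C2 := cd4q0) (C3 := pd3)
    rfl k0_pp_203_a

noncomputable def f_pp_203_b : ℕ → ℕ → ℕ → ℕ → Bool := onCell 1239849684 370763052 0 536870912 587336777 62277027
    (rowB 3 eng mog cd2q2b cd4q0 pd3 0 true true true .up 2 0 3 (qsf 1239849684 370763052 0 536870912 3) ndB2q2b ndB4q0 pcB3 Cut.none Ext.none)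

def k0_pp_203_b : ∃ t, chk3 f_pp_203_b t 1 1 1 = true :=
  ⟨(l 5), by decide +kernel⟩

theorem c_pp_203_b : CertB 1239849684 370763052 0 536870912 587336777 62277027 3 eng mog cd2q2b cd4q0 pd3 true true true .up 2 0 3
    ndB2q2b ndB4q0 pcB3 Cut.none Ext.none :=
  certB0 (fam := true) (s1 := true) (s2 := true) (a := 2) (b := 0) (c := 3) (cn := .up) (n1 := ndB2q2b) (n2 := ndB4q0) (pc := pcB3) (cut := Cut.none) (xt := Ext.none) (P1 := 1239849684) (W1 := 370763052) (P2 := 0) (W2 := 536870912) (P3 := 587336777) (W3 := 62277027) (N0 := 3) (En := eng) (mo := mog) (C1 := cd2q2b) (C2 := cd4q0) (C3 := pd3)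
    rfl k0_pp_203_b

noncomputable def f_pp_213_a : ℕ → ℕ → ℕ → ℕ → Bool := onCell 0 536870912 536870912 536870912 587336777 62277027
    (rowB 3 eng mog cd2q2a cd4q1 pd3 0 true true true .pnn 2 1 3 (qsf 0 536870912 536870912 536870912 3) ndB2q2a ndB4q1 pcB3 Cut.none Ext.none)

def k0_pp_213_a : ∃ t, chk3 f_pp_213_a t 1 1 1 = true :=
  ⟨(l 4), by decide +kernel⟩

theorem c_pp_213_a : CertB 0 536870912 536870912 536870912 587336777 62277027 3 eng mog cd2q2a cd4q1 pd3 true true true .pnn 2 1 3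
    ndB2q2a ndB4q1 pcB3 Cut.none Ext.none :=
  certB0 (fam := true) (s1 := true) (s2 := true) (a := 2) (b := 1) (c := 3) (cn := .pnn) (n1 := ndB2q2a) (n2 := ndB4q1) (pc := pcB3) (cut := Cut.none) (xt := Ext.none) (P1 := 0) (W1 := 536870912) (P2 := 536870912) (W2 := 536870912) (P3 := 587336777) (W3 := 62277027) (N0 := 3) (En := eng) (mo := mog) (C1 := cd2q2a) (C2 := cd4q1) (C3 := pd3)
    rfl k0_pp_213_a

noncomputable def f_pp_213_b : ℕ → ℕ → ℕ → ℕ → Bool := onCell 1239849684 370763052 536870912 536870912 587336777 62277027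
    (rowB 3 eng mog cd2q2b cd4q1 pd3 0 true true true .pnn 2 1 3 (qsf 1239849684 370763052 536870912 536870912 3) ndB2q2b ndB4q1 pcB3 Cut.none Ext.none)

def k0_pp_213_b : ∃ t, chk3 f_pp_213_b t 1 1 1 = true :=
  ⟨(l 4), by decide +kernel⟩

theorem c_pp_213_b : CertB 1239849684 370763052 536870912 536870912 587336777 62277027 3 eng mog cd2q2b cd4q1 pd3 true true true .pnn 2 1 3
    ndB2q2b ndB4q1 pcB3 Cut.none Ext.none :=
  certB0 (fam := true) (s1 := true) (s2 := true) (a := 2) (b := 1) (c := 3) (cn := .pnn) (n1 := ndB2q2b) (n2 := ndB4q1) (pc := pcB3) (cut := Cut.none) (xt := Ext.none) (P1 := 1239849684) (W1 := 370763052) (P2 := 536870912) (W2 := 536870912) (P3 := 587336777) (W3 := 62277027) (N0 := 3) (En := eng) (mo := mog) (C1 := cd2q2b) (C2 := cd4q1) (C3 := pd3)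
    rfl k0_pp_213_b

noncomputable def f_pp_303 : ℕ → ℕ → ℕ → ℕ → Bool := onCell 1610612736 536870912 0 536870912 587336777 62277027
    (rowB 3 eng mog cd2q3 cd4q0 pd3 0 true true true .npn 3 0 3 (qsf 1610612736 536870912 0 536870912 3) ndB2q3 ndB4q0 pcB3 Cut.none Ext.none)

def k0_pp_303 : ∃ t, chk3 f_pp_303 t 1 1 1 = true :=
  ⟨(l 5), by decide +kernel⟩

theorem c_pp_303 : CertB 1610612736 536870912 0 536870912 587336777 62277027 3 eng mog cd2q3 cd4q0 pd3 true true true .npn 3 0 3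
    ndB2q3 ndB4q0 pcB3 Cut.none Ext.none :=
  certB0 (fam := true) (s1 := true) (s2 := true) (a := 3) (b := 0) (c := 3) (cn := .npn) (n1 := ndB2q3) (n2 := ndB4q0) (pc := pcB3) (cut := Cut.none) (xt := Ext.none) (P1 := 1610612736) (W1 := 536870912) (P2 := 0) (W2 := 536870912) (P3 := 587336777) (W3 := 62277027) (N0 := 3) (En := eng) (mo := mog) (C1 := cd2q3) (C2 := cd4q0) (C3 := pd3)
    rfl k0_pp_303

noncomputable def f_pp_313 : ℕ → ℕ → ℕ → ℕ → Bool := onCell 1610612736 536870912 536870912 536870912 587336777 62277027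
    (rowB 3 eng mog cd2q3 cd4q1 pd3 0 true true true .dn 3 1 3 (qsf 1610612736 536870912 536870912 536870912 3) ndB2q3 ndB4q1 pcB3 Cut.none Ext.none)

def k0_pp_313 : ∃ t, chk3 f_pp_313 t 1 1 1 = true :=
  ⟨(l 4), by decide +kernel⟩

theorem c_pp_313 : CertB 1610612736 536870912 536870912 536870912 587336777 62277027 3 eng mog cd2q3 cd4q1 pd3 true true true .dn 3 1 3
    ndB2q3 ndB4q1 pcB3 Cut.none Ext.none :=
  certB0 (fam := true) (s1 := true) (s2 := true) (a := 3) (b := 1) (c := 3) (cn := .dn) (n1 := ndB2q3) (n2 := ndB4q1) (pc := pcB3) (cut := Cut.none) (xt := Ext.none) (P1 := 1610612736) (W1 := 536870912) (P2 := 536870912) (W2 := 536870912) (P3 := 587336777) (W3 := 62277027) (N0 := 3) (En := eng) (mo := mog) (C1 := cd2q3) (C2 := cd4q1) (C3 := pd3)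
    rfl k0_pp_313

noncomputable def f_pm_001 : ℕ → ℕ → ℕ → ℕ → Bool := onCell 0 536870912 0 536870912 587336777 62277027
    (rowB 3 eng mog cd2q0 cd4q0 pd1 0 true true false .up 0 0 1 (qsf 0 536870912 0 536870912 1) ndB2q0 ndB4q0 pcB1 Cut.none Ext.none)

def k0_pm_001 : ∃ t, chk3 f_pm_001 t 1 1 1 = true :=
  ⟨(l 3), by decide +kernel⟩

theorem c_pm_001 : CertB 0 536870912 0 536870912 587336777 62277027 3 eng mog cd2q0 cd4q0 pd1 true true false .up 0 0 1
    ndB2q0 ndB4q0 pcB1 Cut.none Ext.none :=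
  certB0 (fam := true) (s1 := true) (s2 := false) (a := 0) (b := 0) (c := 1) (cn := .up) (n1 := ndB2q0) (n2 := ndB4q0) (pc := pcB1) (cut := Cut.none) (xt := Ext.none) (P1 := 0) (W1 := 536870912) (P2 := 0) (W2 := 536870912) (P3 := 587336777) (W3 := 62277027) (N0 := 3) (En := eng) (mo := mog) (C1 := cd2q0) (C2 := cd4q0) (C3 := pd1)
    rfl k0_pm_001

noncomputable def f_pm_011 : ℕ → ℕ → ℕ → ℕ → Bool := onCell 0 536870912 536870912 536870912 587336777 62277027
    (rowB 3 eng mog cd2q0 cd4q1 pd1 1 true true false .pnn 0 1 1 (qsf 0 536870912 536870912 536870912 1) ndB2q0 ndB4q1 pcB1 Cut.none Ext.none)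

def k0_pm_011 : ∃ t, chk3 f_pm_011 t 1 1 1 = true :=
  ⟨(b (l 3) (l 3)), by decide +kernel⟩

theorem c_pm_011 : CertB 0 536870912 536870912 536870912 587336777 62277027 3 eng mog cd2q0 cd4q1 pd1 true true false .pnn 0 1 1
    ndB2q0 ndB4q1 pcB1 Cut.none Ext.none :=
  certB1 (fam := true) (s1 := true) (s2 := false) (a := 0) (b := 1) (c := 1) (cn := .pnn) (n1 := ndB2q0) (n2 := ndB4q1) (pc := pcB1) (cut := Cut.none) (xt := Ext.none) (P1 := 0) (W1 := 536870912) (P2 := 536870912) (W2 := 536870912) (P3 := 587336777) (W3 := 62277027) (N0 := 3) (En := eng) (mo := mog) (C1 := cd2q0) (C2 := cd4q1) (C3 := pd1)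
    rfl (fun _ => rfl) k0_pm_011

noncomputable def f_pm_012 : ℕ → ℕ → ℕ → ℕ → Bool := onCell 1073741824 536870912 536870912 536870912 587336777 62277027
    (rowB 3 eng mog cd2q0 cd4q1 pd2 2 true true false .pnp 0 1 2 (qsf 0 536870912 536870912 536870912 2) ndB2q0 ndB4q1 pcB2 Cut.none Ext.none)

def k0_pm_012 : ∃ t, chk3 f_pm_012 t 1 1 1 = true :=
  ⟨(a (a (a (l 3) (b (a (l 3) (b (a (l 16553432) (l 16563224)) (a (b (l 16522704) (l 16513960)) (b (l 16524952) (l 16510728))))) (a (l 3) (b (a (b (l 16504776) (l 247664921223)) (b (l 16495568) (a (l 16484720) (l 16476192)))) (b (a (b (l 16496728) (l 3)) (a (l 16478664) (l 16466440))) (a (l 3) (b (a (l 16478800) (l 16462912)) (a (l 16482080) (l 16463688))))))))) (b (a (a (a (b (l 16551216) (b (l 16528640) (l 16508536))) (b (l 2) (a (l 16520280) (a (l 16522832) (b (l 16543256) (l 16683672)))))) (b (l 2) (l 16532408))) (b (l 2) (l 16587216))) (a (a (a (b (b (l 16612120) (a (l 16466752) (l 16459480))) (b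 (a (l 16453592) (l 16442280)) (a (b (l 16447336) (l 16445944)) (b (l 16432648) (l 16428832))))) (a (b (b (l 16481904) (l 16454616)) (b (l 16433152) (b (l 16419520) (l 16412688)))) (b (a (b (l 16481184) (l 16451472)) (b (a (l 16482256) (l 16484728)) (a (l 16450888) (l 16451912)))) (a (b (l 16427064) (b (l 16410504) (l 16401312))) (b (a (l 16424600) (l 16423968)) (a (l 16400984) (b (l 16404176) (l 16392528)))))))) (b (b (l 16479272) (l 16440440)) (b (l 16405528) (b (l 16379432) (l 16363056))))) (b (b (l 16474264) (l 16420672)) (b (l 16431200) (b (l 16326048) (l 16297416))))))) (b (a (b (l 2) (a (l 16583912) (l 2))) (l 2)) (a (b (a (b (l 16495600) (l 16426464)) (b (l 16553256) (l 16472984))) (b (a (l 16354904) (l 16386128)) (a (b (l 16294376) (l 16251368)) (l 16283496)))) (b (a (b (l 2) (l 16547832)) (l 2)) (a (b (l 16452040) (l 16335560)) (b (l 16534320) (l 16416056))))))), by decide +kernel⟩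

theorem c_pm_012 : CertB 0 536870912 536870912 536870912 587336777 62277027 3 eng mog cd2q0 cd4q1 pd2 true true false .pnp 0 1 2
    ndB2q0 ndB4q1 pcB2 Cut.none Ext.none :=
  certB2 (fam := true) (s1 := true) (s2 := false) (a := 0) (b := 1) (c := 2) (cn := .pnp) (n1 := ndB2q0) (n2 := ndB4q1) (pc := pcB2) (cut := Cut.none) (xt := Ext.none) (P1 := 0) (W1 := 536870912) (P2 := 536870912) (W2 := 536870912) (P3 := 587336777) (W3 := 62277027) (N0 := 3) (En := eng) (mo := mog) (C1 := cd2q0) (C2 := cd4q1) (C3 := pd2)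
    rfl (fun _ => rfl) k0_pm_012

noncomputable def cut_pm_022_a : Cut := Cut.of [[⟨0, 0, 0, 67108864⟩, ⟨1, 1, 0, 67108864⟩, ⟨2, 1, 0, 67108864⟩]]

noncomputable def f_pm_022_a : ℕ → ℕ → ℕ → ℕ → Bool := onCell 1073741824 536870912 0 536870912 587336777 62277027
    (rowB 3 eng mog cd2q0 cd4q2a pd2 2 true true false .pp 0 2 2 (qsf 0 536870912 0 536870912 2) ndB2q0 ndB4q2a pcB2 cut_pm_022_a Ext.none)

def k0_pm_022_a : ∃ t, chk3 f_pm_022_a t 2 2 1 = true :=
  ⟨(a (a (l 1) (a (l 1) (b (l 1) (b (l 1) (a (l 1) (b (l 1) (a (l 1) (b (l 156799368119) (l 205117762327))))))))) (a (a (a (b (l 1) (b (a (l 1) (b (c (l 136398214647) (l 16485752)) (c (l 204580834903) (l 203507055959)))) (b (a (c (l 193306567783) (l 185790341959)) (c (l 16503712) (l 16487648))) (a (b (l 16528424) (l 16514368)) (l 16508528))))) (b (a (b (l 1) (b (l 1) (c (l 175589784007) (l 187937772103)))) (a (b (l 1) (b (c (l 217465700535) (l 16449144)) (c (l 16475768) (l 16455488)))) (b (a (b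 (c (l 16465984) (l 1453879313831)) (c (l 16467448) (l 16444768))) (a (a (a (b (c (l 16466088) (l 16442440)) (l 16456152)) (a (b (c (l 16466136) (l 16442424)) (l 16456152)) (b (c (b (l 16466040) (l 16466296)) (b (c (l 16448008) (l 16436088)) (l 16442688))) (c (l 16467608) (l 16444704))))) (b (c (l 16466192) (l 16442432)) (l 16456168))) (b (c (l 16466192) (l 16442504)) (l 16456176)))) (a (b (c (l 16470664) (l 16449096)) (l 16486472)) (c (b (b (l 16490648) (l 16471656)) (l 16475456)) (b (c (l 16454440) (l 16443488)) (l 16455056))))))) (a (b (b (c (l 233034983079) (l 194380237495)) (c (l 16491680) (l 16474328))) (b (l 16493936) (l 16505952))) (b (a (b (l 16473120) (l 16482040)) (a (b (l 16472704) (l 16481432)) (b (l 16493400) (l 16481024)))) (a (l 16498360) (a (l 16497432) (l 16517784))))))) (b (a (b (a (b (c (l 16466144) (l 16442952)) (l 16445736)) (b (l 16454808) (l 16456160))) (b (a (l 16459704) (l 16459288)) (l 16464536))) (b (l 16455888) (l 16461016)))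 (b (a (b (l 16471128) (l 16479176)) (l 16472360)) (a (l 16494040) (l 16488888))))) (b (a (b (l 16456728) (l 16459656)) (l 16458544)) (b (a (l 16468256) (l 16462968)) (a (l 16481480) (l 16471776)))))), by decide +kernel⟩

def k1_pm_022_a : ∃ t, chk3 f_pm_022_a t 4 3 1 = true :=
  ⟨(a (b (l 1) (a (b (l 1) (l 6)) (a (b (b (l 1) (l 6)) (l 6)) (a (b (b (l 1) (l 6)) (l 6)) (b (b (b (l 1) (a (l 124587362135) (l 176126963191))) (b (a (l 6) (l 16654712)) (l 16668520))) (b (b (l 16681136) (l 16691616)) (b (l 16697992) (l 16704032)))))))) (b (a (b (l 1) (a (b (l 1) (a (l 1) (b (l 102575570215) (l 177737516983)))) (b (a (b (l 1) (l 117071056519)) (b (l 136398381911) (l 193306715799))) (a (b (l 175590005271) (l 16606904)) (b (l 16592080) (l 16602544)))))) (b (a (b (a (l 1) (l 129955869367)) (a (b (l 1) (l 161631292519)) (b (l 186864201575) (l 16555496)))) (b (a (b (l 162704976839) (l 16535048)) (b (l 16524328) (l 16532120))) (a (l 16547808) (l 16544384))))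 (a (b (a (b (l 214244656471) (l 16578008)) (l 16569424)) (a (l 16593064) (l 16588552))) (b (l 16563424) (l 16560448))))) (b (b (a (a (a (b (a (l 133177263111) (l 182032510759)) (a (l 16640016) (l 16637640))) (b (l 16632960) (l 16634016))) (b (l 16615552) (a (l 16629048) (l 16623880)))) (a (b (l 16605712) (l 16615792)) (l 16599760))) (a (a (b (a (l 16650880) (l 16645648)) (a (l 16663000) (l 16657328))) (b (l 16637464) (l 16648456))) (a (l 16630096) (l 16615576)))) (a (a (b (b (l 16672088) (l 16678784)) (b (l 16685144) (l 16691176))) (b (l 16680136) (b (l 16668696) (l 16674728)))) (b (a (l 16643632) (l 16629024)) (a (l 16656248) (l 16641624))))))), by decide +kernel⟩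

def k2_pm_022_a : ∃ t, chk3 f_pm_022_a t 5 3 1 = true :=
  ⟨(a (b (a (a (b (b (a (l 16525368) (l 16522304)) (l 16538936)) (b (l 16554840) (l 16571272))) (a (b (l 16526400) (l 16555920)) (b (a (l 16523648) (a (l 16522240) (l 16521288))) (a (l 16552064) (a (l 16550104) (l 16548800)))))) (b (a (l 16517096) (l 16509384)) (l 16558584))) (a (a (b (l 16595288) (b (l 16615288) (l 16648808))) (b (a (l 16585608) (a (l 16580928) (l 16640768))) (a (b (l 16605488) (l 16618032)) (a (b (l 16600752) (l 16613352)) (b (a (l 16598424) (l 16596896)) (a (l 16611080) (l 16609576))))))) (b (b (l 16556984) (l 16571088)) (a (b (l 16590272) (l 16603024)) (b (l 16579376) (l 16592216)))))) (b (b (a (l 16498096) (l 16483536)) (l 16590376)) (b (a (l 16543624) (l 16527160)) (b (l 16555744) (a (l 16577336) (l 16560352)))))), by decide +kernel⟩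

def k3_pm_022_a : ∃ t, chk3 f_pm_022_a t 3 1 1 = true :=
  ⟨(b (a (a (b (a (l 16458432) (l 16459832)) (a (l 16608400) (l 16455192))) (b (l 16463888) (l 16444512))) (a (b (l 16473224) (l 16431824)) (l 16492832))) (a (b (a (a (l 16472504) (l 16462384)) (l 16559136)) (a (b (b (l 16501464) (l 16515424)) (a (l 16540904) (l 16530528))) (b (l 16493376) (a (l 16523352) (l 16514456))))) (b (a (l 16446104) (l 16447384)) (a (b (l 16483296) (l 16508040)) (l 16604096))))), by decide +kernel⟩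

theorem s4_pm_022_a : ∃ t, chk3 f_pm_022_a t 2 3 1 = true := ex3_a k1_pm_022_a k2_pm_022_a

theorem s5_pm_022_a : ∃ t, chk3 f_pm_022_a t 2 1 1 = true := ex3_b k0_pm_022_a s4_pm_022_a

theorem s6_pm_022_a : ∃ t, chk3 f_pm_022_a t 1 1 1 = true := ex3_a s5_pm_022_a k3_pm_022_a

theorem c_pm_022_a : CertB 0 536870912 0 536870912 587336777 62277027 3 eng mog cd2q0 cd4q2a pd2 true true false .pp 0 2 2
    ndB2q0 ndB4q2a pcB2 cut_pm_022_a Ext.none :=
  certB2 (fam := true) (s1 := true) (s2 := false) (a := 0) (b := 2) (c := 2) (cn := .pp) (n1 := ndB2q0) (n2 := ndB4q2a) (pc := pcB2) (cut := cut_pm_022_a) (xt := Ext.none) (P1 := 0) (W1 := 536870912) (P2 := 0) (W2 := 536870912) (P3 := 587336777) (W3 := 62277027) (N0 := 3) (En := eng) (mo := mog) (C1 := cd2q0) (C2 := cd4q2a) (C3 := pd2)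
    rfl (fun _ => rfl) s6_pm_022_a

noncomputable def cut_pm_022_b : Cut := Cut.of [[⟨0, 0, 0, 67108864⟩, ⟨1, 1, 0, 67108864⟩, ⟨2, 1, 0, 67108864⟩]]

noncomputable def f_pm_022_b : ℕ → ℕ → ℕ → ℕ → Bool := onCell 0 536870912 1239849684 370763052 587336777 62277027
    (rowB 3 eng mog cd2q0 cd4q2b pd2 0 true true false .pp 0 2 2 (qsf 0 536870912 1239849684 370763052 2) ndB2q0 ndB4q2b pcB2 cut_pm_022_b Ext.none)

def k0_pm_022_b : ∃ t, chk3 f_pm_022_b t 1 1 1 = true :=
  ⟨(a (b (a (b (a (a (b (a (a (b (b (b (c (l 16461896) (c (l 16443704) (l 16431592))) (a (c (l 16453552) (l 16428056)) (l 16441256))) (a (c (l 16441864) (b (l 16418912) (l 16409960))) (l 16428944))) (c (b (l 16428488) (l 16416032)) (a (l 16389000) (l 16390280)))) (b (b (c (l 16458232) (l 16433960)) (l 16430136)) (l 16408616))) (b (l 16439824) (l 16412528))) (a (b (a (c (b (l 16404792) (l 16394752)) (l 16360768)) (l 16384272)) (a (c (l 16402840) (l 16337040)) (l 16364744))) (b (l 16390024)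 (l 16372144)))) (b (a (l 16429472) (l 16433384)) (a (l 16389232) (l 16397888)))) (b (a (l 16439248) (l 16446952)) (a (l 16410696) (l 16428624)))) (a (a (b (a (b (a (c (l 16368640) (l 16318248)) (l 16349832)) (a (c (l 16360408) (l 16304368)) (l 16339808))) (b (l 16358792) (l 16350152))) (a (b (a (c (l 16358440) (l 16295704)) (l 16335272)) (a (b (l 16326416) (l 16327200)) (l 16335848))) (b (l 16346968) (l 16350752)))) (b (b (l 16376472) (l 16370928)) (a (l 16366936) (l 16386152)))) (b (a (l 16400504) (l 16429536)) (a (l 16414800) (l 16451680))))) (b (a (b (a (l 16456392) (l 16469528)) (l 16463112)) (b (l 16491288) (l 16513424))) (a (b (l 16477704) (l 16509824)) (l 16559976)))) (a (b (a (a (b (a (b (a (l 16333640) (l 16345240)) (l 16355280)) (l 16370320)) (a (b (l 16374232) (l 16388856)) (l 16407048))) (b (l 16405296) (l 16446872))) (b (a (l 16449960) (l 16492704)) (l 16516952))) (a (a (b (b (l 16505320) (l 16442824)) (l 16479168)) (a (l 16494360)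 (l 16519648))) (b (l 16555784) (l 2)))) (b (a (l 16575560) (l 2)) (l 2)))) (b (a (b (a (b (l 16520608) (l 16559168)) (l 16573112)) (a (l 16617584) (l 2))) (l 2)) (l 2))), by decide +kernel⟩

theorem c_pm_022_b : CertB 0 536870912 1239849684 370763052 587336777 62277027 3 eng mog cd2q0 cd4q2b pd2 true true false .pp 0 2 2
    ndB2q0 ndB4q2b pcB2 cut_pm_022_b Ext.none :=
  certB0 (fam := true) (s1 := true) (s2 := false) (a := 0) (b := 2) (c := 2) (cn := .pp) (n1 := ndB2q0) (n2 := ndB4q2b) (pc := pcB2) (cut := cut_pm_022_b) (xt := Ext.none) (P1 := 0) (W1 := 536870912) (P2 := 1239849684) (W2 := 370763052) (P3 := 587336777) (W3 := 62277027) (N0 := 3) (En := eng) (mo := mog) (C1 := cd2q0) (C2 := cd4q2b) (C3 := pd2)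
    rfl k0_pm_022_b

noncomputable def f_pm_023_a : ℕ → ℕ → ℕ → ℕ → Bool := onCell 1610612736 536870912 0 536870912 587336777 62277027
    (rowB 3 eng mog cd2q0 cd4q2a pd3 2 true true false .up 0 2 3 (qsf 0 536870912 0 536870912 3) ndB2q0 ndB4q2a pcB3 Cut.none Ext.none)

def k0_pm_023_a : ∃ t, chk3 f_pm_023_a t 1 1 1 = true :=
  ⟨(a (b (a (a (a (b (l 16465376) (l 16427824)) (l 16523904)) (l 16548632)) (a (a (l 16635536) (l 16680416)) (l 2))) (a (a (a (b (a (l 16433096) (l 16526672)) (a (l 16540432) (l 16586696))) (b (l 16566960) (l 16629768))) (a (l 221291360295) (b (l 16617584) (l 2)))) (b (l 2) (l 2)))) (l 2)), by decide +kernel⟩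

theorem c_pm_023_a : CertB 0 536870912 0 536870912 587336777 62277027 3 eng mog cd2q0 cd4q2a pd3 true true false .up 0 2 3
    ndB2q0 ndB4q2a pcB3 Cut.none Ext.none :=
  certB2 (fam := true) (s1 := true) (s2 := false) (a := 0) (b := 2) (c := 3) (cn := .up) (n1 := ndB2q0) (n2 := ndB4q2a) (pc := pcB3) (cut := Cut.none) (xt := Ext.none) (P1 := 0) (W1 := 536870912) (P2 := 0) (W2 := 536870912) (P3 := 587336777) (W3 := 62277027) (N0 := 3) (En := eng) (mo := mog) (C1 := cd2q0) (C2 := cd4q2a) (C3 := pd3)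
    rfl (fun _ => rfl) k0_pm_023_a

noncomputable def f_pm_023_b : ℕ → ℕ → ℕ → ℕ → Bool := onCell 1610612736 536870912 1239849684 370763052 587336777 62277027
    (rowB 3 eng mog cd2q0 cd4q2b pd3 2 true true false .up 0 2 3 (qsf 0 536870912 1239849684 370763052 3) ndB2q0 ndB4q2b pcB3 Cut.none Ext.none)

def k0_pm_023_b : ∃ t, chk3 f_pm_023_b t 1 1 1 = true :=
  ⟨(b (a (a (a (a (b (a (l 16564992) (l 16530040)) (l 16733976)) (b (l 16515096) (l 16568272))) (b (l 16506064) (l 16603792))) (a (b (l 16584600) (l 16641704)) (l 16724360))) (a (a (l 138613751895) (a (l 16742856) (l 2))) (l 2))) (a (a (a (a (b (a (l 16563696) (l 16539968)) (a (l 16639248) (l 16483464))) (b (l 16556168) (l 16495808))) (b (l 16607616) (l 16555000))) (a (b (l 16665440) (l 16624488)) (b (l 16722720) (l 16695960)))) (a (a (b (l 16768880) (l 16766232)) (a (l 16795096) (l 16787088))) (l 4)))), by decide +kernel⟩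

theorem c_pm_023_b : CertB 0 536870912 1239849684 370763052 587336777 62277027 3 eng mog cd2q0 cd4q2b pd3 true true false .up 0 2 3
    ndB2q0 ndB4q2b pcB3 Cut.none Ext.none :=
  certB2 (fam := true) (s1 := true) (s2 := false) (a := 0) (b := 2) (c := 3) (cn := .up) (n1 := ndB2q0) (n2 := ndB4q2b) (pc := pcB3) (cut := Cut.none) (xt := Ext.none) (P1 := 0) (W1 := 536870912) (P2 := 1239849684) (W2 := 370763052) (P3 := 587336777) (W3 := 62277027) (N0 := 3) (En := eng) (mo := mog) (C1 := cd2q0) (C2 := cd4q2b) (C3 := pd3)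
    rfl (fun _ => rfl) k0_pm_023_b

noncomputable def f_pm_033 : ℕ → ℕ → ℕ → ℕ → Bool := onCell 0 536870912 1610612736 536870912 587336777 62277027
    (rowB 3 eng mog cd2q0 cd4q3 pd3 1 true true false .pnn 0 3 3 (qsf 0 536870912 1610612736 536870912 3) ndB2q0 ndB4q3 pcB3 Cut.none Ext.none)

def k0_pm_033 : ∃ t, chk3 f_pm_033 t 1 1 1 = true :=
  ⟨(a (b (b (b (a (b (a (b (l 16460016) (l 16383968)) (l 1)) (a (l 16368144) (l 16432920))) (l 1)) (a (b (l 16408920) (l 16424144)) (l 16579344))) (b (a (b (l 16443400) (l 16461744)) (b (l 16540376) (l 16552296))) (a (b (l 16487232) (l 16513176)) (l 16585728)))) (b (b (a (b (l 16534976) (l 16551968)) (b (l 16615808) (l 16632064))) (a (l 4) (l 4))) (l 4))) (b (b (l 1) (b (l 1) (a (l 16671000) (l 1)))) (b (b (a (l 16706080) (l 1)) (a (l 16724424) (l 16792568))) (l 4)))), by decide +kernel⟩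

theorem c_pm_033 : CertB 0 536870912 1610612736 536870912 587336777 62277027 3 eng mog cd2q0 cd4q3 pd3 true true false .pnn 0 3 3
    ndB2q0 ndB4q3 pcB3 Cut.none Ext.none :=
  certB1 (fam := true) (s1 := true) (s2 := false) (a := 0) (b := 3) (c := 3) (cn := .pnn) (n1 := ndB2q0) (n2 := ndB4q3) (pc := pcB3) (cut := Cut.none) (xt := Ext.none) (P1 := 0) (W1 := 536870912) (P2 := 1610612736) (W2 := 536870912) (P3 := 587336777) (W3 := 62277027) (N0 := 3) (En := eng) (mo := mog) (C1 := cd2q0) (C2 := cd4q3) (C3 := pd3)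
    rfl (fun _ => rfl) k0_pm_033

noncomputable def f_pm_101 : ℕ → ℕ → ℕ → ℕ → Bool := onCell 536870912 536870912 0 536870912 587336777 62277027
    (rowB 3 eng mog cd2q1 cd4q0 pd1 2 true true false .npn 1 0 1 (qsf 536870912 536870912 0 536870912 1) ndB2q1 ndB4q0 pcB1 Cut.none Ext.none)

def k0_pm_101 : ∃ t, chk3 f_pm_101 t 1 1 1 = true :=
  ⟨(a (l 3) (l 3)), by decide +kernel⟩

theorem c_pm_101 : CertB 536870912 536870912 0 536870912 587336777 62277027 3 eng mog cd2q1 cd4q0 pd1 true true false .npn 1 0 1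
    ndB2q1 ndB4q0 pcB1 Cut.none Ext.none :=
  certB2 (fam := true) (s1 := true) (s2 := false) (a := 1) (b := 0) (c := 1) (cn := .npn) (n1 := ndB2q1) (n2 := ndB4q0) (pc := pcB1) (cut := Cut.none) (xt := Ext.none) (P1 := 536870912) (W1 := 536870912) (P2 := 0) (W2 := 536870912) (P3 := 587336777) (W3 := 62277027) (N0 := 3) (En := eng) (mo := mog) (C1 := cd2q1) (C2 := cd4q0) (C3 := pd1)
    rfl (fun _ => rfl) k0_pm_101

noncomputable def f_pm_102 : ℕ → ℕ → ℕ → ℕ → Bool := onCell 536870912 536870912 1073741824 536870912 587336777 62277027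
    (rowB 3 eng mog cd2q1 cd4q0 pd2 1 true true false .npp 1 0 2 (qsf 536870912 536870912 0 536870912 2) ndB2q1 ndB4q0 pcB2 Cut.none Ext.none)

def k0_pm_102 : ∃ t, chk3 f_pm_102 t 1 1 1 = true :=
  ⟨(b (b (b (l 3) (a (b (l 3) (a (b (l 16521928) (l 16558552)) (b (a (l 16597360) (l 16664296)) (a (l 16623952) (l 16661384))))) (b (b (l 3) (a (a (l 3) (a (l 3) (l 16717720))) (a (a (l 16716296) (l 16702816)) (a (l 16681480) (b (l 3) (l 16652656)))))) (a (b (a (l 16791656) (b (l 16712024) (l 16709744))) (a (l 16693432) (b (l 16706784) (l 16703424)))) (a (b (b (l 16700096) (l 16692984)) (b (l 16686120) (l 16679544))) (b (a (b (l 16667816) (l 16659064)) (l 16637872)) (a (l 16646664) (l 16619208)))))))) (a (a (b (b (b (l 16586600) (l 2)) (l 2)) (l 2)) (b (b (b (a (l 16642864) (l 16672536)) (b (l 16669168) (b (l 16674912) (a (l 16674160) (l 16690344))))) (l 16692192)) (l 16706768))) (b (a (b (b (a (l 16695176) (l 16698304)) (b (a (l 16695648) (l 16693120))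 (b (l 16738672) (b (l 16696240) (a (l 16697792) (l 16687296)))))) (a (l 16696048) (l 16679272))) (b (b (a (a (l 16680008) (l 16658344)) (a (l 16631336) (l 16602072))) (b (a (l 16661008) (l 16605496)) (b (a (l 16656064) (l 16599616)) (a (b (l 16652928) (l 16650088)) (b (l 16596264) (l 16593584)))))) (a (l 16637664) (l 16620816)))) (a (a (l 16690688) (l 16661336)) (a (l 16612528) (a (l 16565224) (l 16530192))))))) (a (b (a (l 2) (b (l 16720784) (l 2))) (l 2)) (b (a (b (l 16776000) (l 16674936)) (b (a (l 16600824) (l 16531384)) (l 16805896))) (a (l 16727672) (b (l 16600608) (l 16645744)))))), by decide +kernel⟩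

theorem c_pm_102 : CertB 536870912 536870912 0 536870912 587336777 62277027 3 eng mog cd2q1 cd4q0 pd2 true true false .npp 1 0 2
    ndB2q1 ndB4q0 pcB2 Cut.none Ext.none :=
  certB1 (fam := true) (s1 := true) (s2 := false) (a := 1) (b := 0) (c := 2) (cn := .npp) (n1 := ndB2q1) (n2 := ndB4q0) (pc := pcB2) (cut := Cut.none) (xt := Ext.none) (P1 := 536870912) (W1 := 536870912) (P2 := 0) (W2 := 536870912) (P3 := 587336777) (W3 := 62277027) (N0 := 3) (En := eng) (mo := mog) (C1 := cd2q1) (C2 := cd4q0) (C3 := pd2)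
    rfl (fun _ => rfl) k0_pm_102

noncomputable def f_pm_112 : ℕ → ℕ → ℕ → ℕ → Bool := onCell 536870912 536870912 1073741824 536870912 587336777 62277027
    (rowB 3 eng mog cd2q1 cd4q1 pd2 1 true true false .dn 1 1 2 (qsf 536870912 536870912 536870912 536870912 2) ndB2q1 ndB4q1 pcB2 Cut.none Ext.none)

def k0_pm_112 : ∃ t, chk3 f_pm_112 t 1 1 1 = true :=
  ⟨(b (b (b (l 3) (a (b (l 3) (a (b (b (l 16554688) (l 16558936)) (a (l 16555032) (l 16571256))) (a (b (l 1) (l 361884298231)) (l 1)))) (l 1))) (a (b (b (b (a (l 16566168) (l 210486941863)) (b (a (l 16569552) (l 179885244503)) (a (b (l 16572480) (a (l 16566688) (l 16591504))) (b (l 16614984) (a (l 16802152) (l 1)))))) (a (l 16580432) (l 16628784))) (a (l 16578584) (l 16643024))) (b (l 1) (a (l 488049470759) (l 1))))) (a (b (a (b (l 16577112) (l 16588344)) (b (l 16665416) (l 16704608))) (a (a (l 16563160) (l 16667280)) (b (l 16765568) (l 16846936)))) (b (a (b (l 16722144) (l 16724888)) (l 414498166007))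 (a (l 16876000) (l 16808008))))), by decide +kernel⟩

theorem c_pm_112 : CertB 536870912 536870912 536870912 536870912 587336777 62277027 3 eng mog cd2q1 cd4q1 pd2 true true false .dn 1 1 2
    ndB2q1 ndB4q1 pcB2 Cut.none Ext.none :=
  certB1 (fam := true) (s1 := true) (s2 := false) (a := 1) (b := 1) (c := 2) (cn := .dn) (n1 := ndB2q1) (n2 := ndB4q1) (pc := pcB2) (cut := Cut.none) (xt := Ext.none) (P1 := 536870912) (W1 := 536870912) (P2 := 536870912) (W2 := 536870912) (P3 := 587336777) (W3 := 62277027) (N0 := 3) (En := eng) (mo := mog) (C1 := cd2q1) (C2 := cd4q1) (C3 := pd2)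
    rfl (fun _ => rfl) k0_pm_112

noncomputable def f_pm_113 : ℕ → ℕ → ℕ → ℕ → Bool := onCell 536870912 536870912 1610612736 536870912 587336777 62277027
    (rowB 3 eng mog cd2q1 cd4q1 pd3 1 true true false .nn 1 1 3 (qsf 536870912 536870912 536870912 536870912 3) ndB2q1 ndB4q1 pcB3 Cut.none Ext.none)

def k0_pm_113 : ∃ t, chk3 f_pm_113 t 1 1 1 = true :=
  ⟨(b (b (a (b (a (b (l 16571272) (l 16577808)) (b (l 16861472) (l 16826408))) (b (a (l 16586528) (l 16808864)) (a (l 16581368) (l 16793448)))) (b (b (a (l 17082568) (l 17070088)) (l 17119280)) (b (a (l 16979952) (l 17212568)) (a (l 16950472) (l 17152592))))) (b (a (a (a (l 2) (l 16621232)) (l 16767528)) (a (l 16780048) (l 17059944))) (a (a (l 2) (l 16730912)) (a (l 16845920) (l 16949160))))) (b (a (a (l 2) (b (a (l 2) (l 16735400)) (l 2))) (b (a (l 16804528) (l 16872360)) (b (l 170288833735) (l 171899297319)))) (a (l 2) (a (a (l 2) (b (l 16760608) (l 2))) (b (b (l 16769552) (l 16741984)) (b (l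 16708944) (l 4))))))), by decide +kernel⟩

theorem c_pm_113 : CertB 536870912 536870912 536870912 536870912 587336777 62277027 3 eng mog cd2q1 cd4q1 pd3 true true false .nn 1 1 3
    ndB2q1 ndB4q1 pcB3 Cut.none Ext.none :=
  certB1 (fam := true) (s1 := true) (s2 := false) (a := 1) (b := 1) (c := 3) (cn := .nn) (n1 := ndB2q1) (n2 := ndB4q1) (pc := pcB3) (cut := Cut.none) (xt := Ext.none) (P1 := 536870912) (W1 := 536870912) (P2 := 536870912) (W2 := 536870912) (P3 := 587336777) (W3 := 62277027) (N0 := 3) (En := eng) (mo := mog) (C1 := cd2q1) (C2 := cd4q1) (C3 := pd3)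
    rfl (fun _ => rfl) k0_pm_113

noncomputable def f_pm_123_a : ℕ → ℕ → ℕ → ℕ → Bool := onCell 1610612736 536870912 0 536870912 587336777 62277027
    (rowB 3 eng mog cd2q1 cd4q2a pd3 2 true true false .npn 1 2 3 (qsf 536870912 536870912 0 536870912 3) ndB2q1 ndB4q2a pcB3 Cut.none Ext.none)

def k0_pm_123_a : ∃ t, chk3 f_pm_123_a t 1 1 1 = true :=
  ⟨(b (a (a (a (l 1) (l 16708840)) (a (l 16896608) (l 16820312))) (a (a (l 16835352) (a (l 16837448) (l 16833176))) (a (a (l 16806008) (l 16765504)) (l 4)))) (b (a (a (a (l 1) (a (l 16709552) (l 16738120))) (a (a (l 16780272) (l 16816712)) (l 16852936))) (a (a (l 16868680) (a (l 16862096) (l 16850600))) (a (a (l 16840184) (l 16818744)) (a (l 16772832) (l 4))))) (a (a (a (a (a (l 16615544) (l 16698560)) (l 16743816)) (a (l 16787216) (l 16831728))) (a (a (l 16856856) (l 16889232)) (a (l 16912768) (l 16927680)))) (a (a (l 16928312) (l 16905896)) (a (a (l 16918192) (l 16963608)) (a (b (l 16792376) (l 16928032))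 (a (l 16764360) (l 4)))))))), by decide +kernel⟩

theorem c_pm_123_a : CertB 536870912 536870912 0 536870912 587336777 62277027 3 eng mog cd2q1 cd4q2a pd3 true true false .npn 1 2 3
    ndB2q1 ndB4q2a pcB3 Cut.none Ext.none :=
  certB2 (fam := true) (s1 := true) (s2 := false) (a := 1) (b := 2) (c := 3) (cn := .npn) (n1 := ndB2q1) (n2 := ndB4q2a) (pc := pcB3) (cut := Cut.none) (xt := Ext.none) (P1 := 536870912) (W1 := 536870912) (P2 := 0) (W2 := 536870912) (P3 := 587336777) (W3 := 62277027) (N0 := 3) (En := eng) (mo := mog) (C1 := cd2q1) (C2 := cd4q2a) (C3 := pd3)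
    rfl (fun _ => rfl) k0_pm_123_a

noncomputable def f_pm_123_b : ℕ → ℕ → ℕ → ℕ → Bool := onCell 1610612736 536870912 1239849684 370763052 587336777 62277027
    (rowB 3 eng mog cd2q1 cd4q2b pd3 2 true true false .npn 1 2 3 (qsf 536870912 536870912 1239849684 370763052 3) ndB2q1 ndB4q2b pcB3 Cut.none Ext.none)

def k0_pm_123_b : ∃ t, chk3 f_pm_123_b t 1 1 1 = true :=
  ⟨(b (a (a (l 1) (a (l 92375734311) (l 16747544))) (a (a (b (l 16800440) (l 16764008)) (b (l 17005592) (l 16748584))) (a (a (l 16778512) (l 4)) (l 4)))) (a (l 1) (a (a (l 1) (l 16812192)) (l 4)))), by decide +kernel⟩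

theorem c_pm_123_b : CertB 536870912 536870912 1239849684 370763052 587336777 62277027 3 eng mog cd2q1 cd4q2b pd3 true true false .npn 1 2 3
    ndB2q1 ndB4q2b pcB3 Cut.none Ext.none :=
  certB2 (fam := true) (s1 := true) (s2 := false) (a := 1) (b := 2) (c := 3) (cn := .npn) (n1 := ndB2q1) (n2 := ndB4q2b) (pc := pcB3) (cut := Cut.none) (xt := Ext.none) (P1 := 536870912) (W1 := 536870912) (P2 := 1239849684) (W2 := 370763052) (P3 := 587336777) (W3 := 62277027) (N0 := 3) (En := eng) (mo := mog) (C1 := cd2q1) (C2 := cd4q2b) (C3 := pd3)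
    rfl (fun _ => rfl) k0_pm_123_b

noncomputable def f_pm_133 : ℕ → ℕ → ℕ → ℕ → Bool := onCell 536870912 536870912 1610612736 536870912 587336777 62277027
    (rowB 3 eng mog cd2q1 cd4q3 pd3 0 true true false .dn 1 3 3 (qsf 536870912 536870912 1610612736 536870912 3) ndB2q1 ndB4q3 pcB3 Cut.none Ext.none)

def k0_pm_133 : ∃ t, chk3 f_pm_133 t 1 1 1 = true :=
  ⟨(l 4), by decide +kernel⟩

theorem c_pm_133 : CertB 536870912 536870912 1610612736 536870912 587336777 62277027 3 eng mog cd2q1 cd4q3 pd3 true true false .dn 1 3 3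
    ndB2q1 ndB4q3 pcB3 Cut.none Ext.none :=
  certB0 (fam := true) (s1 := true) (s2 := false) (a := 1) (b := 3) (c := 3) (cn := .dn) (n1 := ndB2q1) (n2 := ndB4q3) (pc := pcB3) (cut := Cut.none) (xt := Ext.none) (P1 := 536870912) (W1 := 536870912) (P2 := 1610612736) (W2 := 536870912) (P3 := 587336777) (W3 := 62277027) (N0 := 3) (En := eng) (mo := mog) (C1 := cd2q1) (C2 := cd4q3) (C3 := pd3)
    rfl k0_pm_133

noncomputable def cut_pm_202_a : Cut := Cut.of [[⟨0, 1, 0, 67108864⟩, ⟨1, 0, 0, 67108864⟩, ⟨2, 1, 0, 67108864⟩]]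

noncomputable def f_pm_202_a : ℕ → ℕ → ℕ → ℕ → Bool := onCell 0 536870912 1073741824 536870912 587336777 62277027
    (rowB 3 eng mog cd2q2a cd4q0 pd2 1 true true false .pp 2 0 2 (qsf 0 536870912 0 536870912 2) ndB2q2a ndB4q0 pcB2 cut_pm_202_a Ext.none)

def k0_pm_202_a : ∃ t, chk3 f_pm_202_a t 2 1 1 = true :=
  ⟨(b (b (b (l 1) (b (l 1) (a (l 1) (a (l 1) (b (l 1) (a (l 1) (b (l 1) (a (l 476774390551) (l 546567620263))))))))) (b (b (a (b (l 1) (a (b (l 1) (l 376379423959)) (a (l 391948688775) (l 437582728743)))) (b (a (b (l 1) (a (l 419866006551) (l 533682664551))) (b (a (b (l 474626884391) (l 407518023319)) (a (l 516502839831) (l 16519384))) (a (a (l 16496416) (l 16503688)) (a (l 16511336) (l 16519320))))) (b (a (a (l 389801236279) (l 16487312)) (a (c (l 16503064) (l 16496656)) (l 16515048))) (b (a (a (l 16476528) (l 16487640)) (l 16507680)) (a (a (l 16476840) (b (l 16487680) (l 16487672))) (l 16591128)))))) (a (b (a (b (c (l 16458192) (l 16452888))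 (l 16457440)) (b (c (l 16467056) (l 16462184)) (l 16465888))) (a (l 16459472) (l 16466896))) (a (b (a (l 16477128) (l 16487224)) (l 16482944)) (b (l 16548288) (l 16506416))))) (a (b (a (l 16465200) (l 16471320)) (l 16482848)) (a (b (l 16486688) (l 16496616)) (l 16535520))))) (b (b (a (b (l 16502896) (l 16528176)) (a (l 16521912) (l 16536592))) (a (b (a (l 16558840) (l 16553768)) (l 16582248)) (b (l 16563488) (l 16584320)))) (b (a (b (l 16606032) (l 16633680)) (b (l 16606088) (l 16630464))) (a (l 16681000) (l 16730928))))), by decide +kernel⟩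

def k1_pm_202_a : ∃ t, chk3 f_pm_202_a t 3 4 1 = true :=
  ⟨(b (a (l 1) (b (a (l 1) (l 6)) (b (a (a (l 1) (l 6)) (l 6)) (b (a (a (l 1) (l 6)) (l 6)) (a (a (a (l 1) (b (a (l 1) (l 6)) (a (l 499323227367) (l 16647048)))) (a (b (l 6) (a (l 16654328) (l 16661608))) (l 16673376))) (a (l 16684144) (l 16692240))))))) (a (b (a (l 1) (b (a (l 1) (b (l 1) (a (b (l 1) (l 430066795687)) (b (l 478385206263) (l 511671196567))))) (a (b (a (l 1) (b (l 1) (l 450467862599))) (a (b (l 1) (l 481606349703)) (b (l 505228694951) (l 16582984)))) (b (a (b (l 472479596823) (l 533146001623)) (b (l 16610448) (l 16609648))) (a (l 16595688) (l 16608288)))))) (a (b (a (b (l 1) (a (l 1) (l 453152124295))) (b (a (l 1) (b (l 443488491159) (l 476774475143))) (a (b (l 484827529127) (l 543346447719)) (b (l 16558736) (l 16558512))))) (a (b (a (l 496638649127) (b (l 499323010071) (l 16537568))) (a (l 559989417911) (l 16537488))) (b (a (l 16547664) (l 16558024)) (a (l 16547152) (l 16557024)))))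 (b (a (b (a (b (l 516502945447) (l 16570312)) (l 16582256)) (a (l 16569712) (l 16580960))) (b (a (l 16594184) (l 16606152)) (l 16598056))) (a (b (l 16574032) (l 16572152)) (l 16590352))))) (a (b (b (a (b (a (b (l 481069613319) (l 492343879863)) (a (b (l 16638600) (l 16637536)) (b (l 16645896) (l 16644680)))) (a (b (l 16625864) (l 16624904)) (l 16618328))) (b (a (l 16655912) (l 16666880)) (l 16655208))) (a (a (b (l 16602360) (l 16620896)) (l 16633424)) (l 16642832))) (a (b (l 16615872) (l 16603384)) (b (l 16627896) (l 16614944)))) (b (a (b (a (l 16667728) (l 16672432)) (l 16653128)) (b (l 16678160) (l 16660944))) (a (l 16631104) (l 16639088)))))), by decide +kernel⟩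

def k2_pm_202_a : ∃ t, chk3 f_pm_202_a t 3 5 1 = true :=
  ⟨(b (a (b (b (a (a (b (a (l 16528064) (l 16537032)) (l 16531936)) (l 16550200)) (l 16574024)) (b (a (l 16538976) (l 16568280)) (a (b (l 16537176) (l 16536176)) (b (l 16565872) (l 16564504))))) (a (b (l 16534272) (l 16532920)) (b (l 16561464) (l 16558568)))) (b (b (a (a (l 16592928) (l 16604064)) (l 16618424)) (a (b (l 16592440) (b (l 16589592) (l 16587984))) (b (l 16611872) (b (l 16609136) (l 16607584))))) (a (l 16602968) (l 16727896)))) (a (a (b (l 16533616) (l 16538560)) (b (l 16557320) (l 16559824))) (a (b (l 16577488) (l 16578824)) (l 16598808)))), by decide +kernel⟩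

def k3_pm_202_a : ∃ t, chk3 f_pm_202_a t 3 3 1 = true :=
  ⟨(b (a (b (a (l 16554296) (l 16572176)) (b (l 16589688) (l 16606360))) (b (a (l 16590568) (l 16616968)) (b (l 16630600) (l 16647800)))) (a (b (l 16634392) (l 16683120)) (b (l 16676328) (l 16720400)))), by decide +kernel⟩

theorem s4_pm_202_a : ∃ t, chk3 f_pm_202_a t 3 2 1 = true := ex3_b k1_pm_202_a k2_pm_202_a

theorem s5_pm_202_a : ∃ t, chk3 f_pm_202_a t 3 1 1 = true := ex3_b s4_pm_202_a k3_pm_202_a

theorem s6_pm_202_a : ∃ t, chk3 f_pm_202_a t 1 1 1 = true := ex3_a k0_pm_202_a s5_pm_202_a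

theorem c_pm_202_a : CertB 0 536870912 0 536870912 587336777 62277027 3 eng mog cd2q2a cd4q0 pd2 true true false .pp 2 0 2
    ndB2q2a ndB4q0 pcB2 cut_pm_202_a Ext.none :=
  certB1 (fam := true) (s1 := true) (s2 := false) (a := 2) (b := 0) (c := 2) (cn := .pp) (n1 := ndB2q2a) (n2 := ndB4q0) (pc := pcB2) (cut := cut_pm_202_a) (xt := Ext.none) (P1 := 0) (W1 := 536870912) (P2 := 0) (W2 := 536870912) (P3 := 587336777) (W3 := 62277027) (N0 := 3) (En := eng) (mo := mog) (C1 := cd2q2a) (C2 := cd4q0) (C3 := pd2)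
    rfl (fun _ => rfl) s6_pm_202_a

noncomputable def cut_pm_202_b : Cut := Cut.of [[⟨0, 1, 0, 67108864⟩, ⟨1, 0, 0, 67108864⟩, ⟨2, 1, 0, 67108864⟩]]

noncomputable def f_pm_202_b : ℕ → ℕ → ℕ → ℕ → Bool := onCell 1073741824 536870912 0 536870912 587336777 62277027
    (rowB 3 eng mog cd2q2b cd4q0 pd2 2 true true false .pp 2 0 2 (qsf 1239849684 370763052 0 536870912 2) ndB2q2b ndB4q0 pcB2 cut_pm_202_b Ext.none)

def k0_pm_202_b : ∃ t, chk3 f_pm_202_b t 1 1 1 = true :=
  ⟨(a (b (b (a (l 1) (a (b (b (b (b (a (a (l 1) (l 16474288)) (a (c (l 16445288) (l 16439992)) (l 16413256))) (a (l 1) (c (l 16467384) (l 16484544)))) (a (l 1) (a (l 16485976) (l 16455088)))) (a (l 1) (a (l 1) (l 306049457079)))) (l 1)) (b (b (a (b (l 16380536) (l 16413016)) (l 16442008)) (a (l 16553256) (l 16408528))) (b (a (l 309807776887) (l 16477832)) (a (l 1) (l 367789825175)))))) (l 1)) (l 1)) (a (b (b (a (b (b (b (l 16271520) (l 16300192)) (l 16342904)) (b (l 16396352) (l 226055639223)))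 (b (b (a (l 16238640) (l 16227960)) (l 16282416)) (a (l 16365328) (l 16348112)))) (a (b (b (l 409128614247) (l 359199872391)) (l 1)) (b (a (b (l 16476912) (l 425234808935)) (l 16455192)) (a (l 493954548311) (l 419866209319))))) (l 1)) (b (b (a (b (b (l 16233392) (l 16274392)) (l 16339440)) (b (l 16345848) (l 16352776))) (a (b (l 16418976) (a (l 16572952) (l 16510648))) (b (l 16424424) (l 16476600)))) (b (a (b (a (l 522945604391) (l 394633418791)) (l 1)) (b (l 284037803287) (l 577169662199))) (l 1))))), by decide +kernel⟩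

theorem c_pm_202_b : CertB 1239849684 370763052 0 536870912 587336777 62277027 3 eng mog cd2q2b cd4q0 pd2 true true false .pp 2 0 2
    ndB2q2b ndB4q0 pcB2 cut_pm_202_b Ext.none :=
  certB2 (fam := true) (s1 := true) (s2 := false) (a := 2) (b := 0) (c := 2) (cn := .pp) (n1 := ndB2q2b) (n2 := ndB4q0) (pc := pcB2) (cut := cut_pm_202_b) (xt := Ext.none) (P1 := 1239849684) (W1 := 370763052) (P2 := 0) (W2 := 536870912) (P3 := 587336777) (W3 := 62277027) (N0 := 3) (En := eng) (mo := mog) (C1 := cd2q2b) (C2 := cd4q0) (C3 := pd2)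
    rfl (fun _ => rfl) k0_pm_202_b

noncomputable def f_pm_203_a : ℕ → ℕ → ℕ → ℕ → Bool := onCell 0 536870912 1610612736 536870912 587336777 62277027
    (rowB 3 eng mog cd2q2a cd4q0 pd3 1 true true false .up 2 0 3 (qsf 0 536870912 0 536870912 3) ndB2q2a ndB4q0 pcB3 Cut.none Ext.none)

def k0_pm_203_a : ∃ t, chk3 f_pm_203_a t 1 1 1 = true :=
  ⟨(b (b (b (a (a (b (l 16734416) (l 16767088)) (l 16741744)) (a (l 16813424) (l 16976384))) (a (l 16857096) (a (l 16843056) (l 16928240)))) (b (a (l 16840080) (l 16909160)) (a (l 2) (l 2)))) (l 2)), by decide +kernel⟩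

theorem c_pm_203_a : CertB 0 536870912 0 536870912 587336777 62277027 3 eng mog cd2q2a cd4q0 pd3 true true false .up 2 0 3
    ndB2q2a ndB4q0 pcB3 Cut.none Ext.none :=
  certB1 (fam := true) (s1 := true) (s2 := false) (a := 2) (b := 0) (c := 3) (cn := .up) (n1 := ndB2q2a) (n2 := ndB4q0) (pc := pcB3) (cut := Cut.none) (xt := Ext.none) (P1 := 0) (W1 := 536870912) (P2 := 0) (W2 := 536870912) (P3 := 587336777) (W3 := 62277027) (N0 := 3) (En := eng) (mo := mog) (C1 := cd2q2a) (C2 := cd4q0) (C3 := pd3)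
    rfl (fun _ => rfl) k0_pm_203_a

noncomputable def f_pm_203_b : ℕ → ℕ → ℕ → ℕ → Bool := onCell 1239849684 370763052 1610612736 536870912 587336777 62277027
    (rowB 3 eng mog cd2q2b cd4q0 pd3 1 true true false .up 2 0 3 (qsf 1239849684 370763052 0 536870912 3) ndB2q2b ndB4q0 pcB3 Cut.none Ext.none)

def k0_pm_203_b : ∃ t, chk3 f_pm_203_b t 1 1 1 = true :=
  ⟨(b (b (b (a (a (b (l 16659928) (l 16701272)) (b (l 16491560) (l 16509864))) (a (l 16431912) (b (l 16361600) (l 16361104)))) (a (a (l 4) (l 16559872)) (a (l 16531432) (l 16423904)))) (a (l 4) (l 4))) (l 4)), by decide +kernel⟩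

theorem c_pm_203_b : CertB 1239849684 370763052 0 536870912 587336777 62277027 3 eng mog cd2q2b cd4q0 pd3 true true false .up 2 0 3
    ndB2q2b ndB4q0 pcB3 Cut.none Ext.none :=
  certB1 (fam := true) (s1 := true) (s2 := false) (a := 2) (b := 0) (c := 3) (cn := .up) (n1 := ndB2q2b) (n2 := ndB4q0) (pc := pcB3) (cut := Cut.none) (xt := Ext.none) (P1 := 1239849684) (W1 := 370763052) (P2 := 0) (W2 := 536870912) (P3 := 587336777) (W3 := 62277027) (N0 := 3) (En := eng) (mo := mog) (C1 := cd2q2b) (C2 := cd4q0) (C3 := pd3)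
    rfl (fun _ => rfl) k0_pm_203_b

noncomputable def f_pm_213_a : ℕ → ℕ → ℕ → ℕ → Bool := onCell 0 536870912 1610612736 536870912 587336777 62277027
    (rowB 3 eng mog cd2q2a cd4q1 pd3 1 true true false .pnn 2 1 3 (qsf 0 536870912 536870912 536870912 3) ndB2q2a ndB4q1 pcB3 Cut.none Ext.none)

def k0_pm_213_a : ∃ t, chk3 f_pm_213_a t 1 1 1 = true :=
  ⟨(a (b (b (b (l 1) (l 502008263975)) (b (b (l 16707032) (l 4)) (l 4))) (l 4)) (b (b (b (a (l 1) (l 208340473623)) (a (l 16835880) (l 16944496))) (b (l 17031208) (a (l 16735536) (l 16809192)))) (b (b (a (l 4) (l 16747288)) (l 4)) (l 4)))), by decide +kernel⟩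

theorem c_pm_213_a : CertB 0 536870912 536870912 536870912 587336777 62277027 3 eng mog cd2q2a cd4q1 pd3 true true false .pnn 2 1 3
    ndB2q2a ndB4q1 pcB3 Cut.none Ext.none :=
  certB1 (fam := true) (s1 := true) (s2 := false) (a := 2) (b := 1) (c := 3) (cn := .pnn) (n1 := ndB2q2a) (n2 := ndB4q1) (pc := pcB3) (cut := Cut.none) (xt := Ext.none) (P1 := 0) (W1 := 536870912) (P2 := 536870912) (W2 := 536870912) (P3 := 587336777) (W3 := 62277027) (N0 := 3) (En := eng) (mo := mog) (C1 := cd2q2a) (C2 := cd4q1) (C3 := pd3)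
    rfl (fun _ => rfl) k0_pm_213_a

noncomputable def f_pm_213_b : ℕ → ℕ → ℕ → ℕ → Bool := onCell 1239849684 370763052 536870912 536870912 587336777 62277027
    (rowB 3 eng mog cd2q2b cd4q1 pd3 0 true true false .pnn 2 1 3 (qsf 1239849684 370763052 536870912 536870912 3) ndB2q2b ndB4q1 pcB3 Cut.none Ext.none)

def k0_pm_213_b : ∃ t, chk3 f_pm_213_b t 1 1 1 = true :=
  ⟨(l 4), by decide +kernel⟩

theorem c_pm_213_b : CertB 1239849684 370763052 536870912 536870912 587336777 62277027 3 eng mog cd2q2b cd4q1 pd3 true true false .pnn 2 1 3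
    ndB2q2b ndB4q1 pcB3 Cut.none Ext.none :=
  certB0 (fam := true) (s1 := true) (s2 := false) (a := 2) (b := 1) (c := 3) (cn := .pnn) (n1 := ndB2q2b) (n2 := ndB4q1) (pc := pcB3) (cut := Cut.none) (xt := Ext.none) (P1 := 1239849684) (W1 := 370763052) (P2 := 536870912) (W2 := 536870912) (P3 := 587336777) (W3 := 62277027) (N0 := 3) (En := eng) (mo := mog) (C1 := cd2q2b) (C2 := cd4q1) (C3 := pd3)
    rfl k0_pm_213_b

noncomputable def f_pm_303 : ℕ → ℕ → ℕ → ℕ → Bool := onCell 1610612736 536870912 0 536870912 587336777 62277027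
    (rowB 3 eng mog cd2q3 cd4q0 pd3 2 true true false .npn 3 0 3 (qsf 1610612736 536870912 0 536870912 3) ndB2q3 ndB4q0 pcB3 Cut.none Ext.none)

def k0_pm_303 : ∃ t, chk3 f_pm_303 t 1 1 1 = true :=
  ⟨(a (a (b (a (b (b (a (l 16279840) (l 16261456)) (l 16336856)) (l 1)) (b (b (l 16272408) (l 16328136)) (l 16454080))) (l 1)) (b (b (a (b (l 16360104) (l 16429000)) (l 16436472)) (l 4)) (l 4))) (l 4)), by decide +kernel⟩

theorem c_pm_303 : CertB 1610612736 536870912 0 536870912 587336777 62277027 3 eng mog cd2q3 cd4q0 pd3 true true false .npn 3 0 3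
    ndB2q3 ndB4q0 pcB3 Cut.none Ext.none :=
  certB2 (fam := true) (s1 := true) (s2 := false) (a := 3) (b := 0) (c := 3) (cn := .npn) (n1 := ndB2q3) (n2 := ndB4q0) (pc := pcB3) (cut := Cut.none) (xt := Ext.none) (P1 := 1610612736) (W1 := 536870912) (P2 := 0) (W2 := 536870912) (P3 := 587336777) (W3 := 62277027) (N0 := 3) (En := eng) (mo := mog) (C1 := cd2q3) (C2 := cd4q0) (C3 := pd3)
    rfl (fun _ => rfl) k0_pm_303

noncomputable def f_pm_313 : ℕ → ℕ → ℕ → ℕ → Bool := onCell 1610612736 536870912 536870912 536870912 587336777 62277027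
    (rowB 3 eng mog cd2q3 cd4q1 pd3 0 true true false .dn 3 1 3 (qsf 1610612736 536870912 536870912 536870912 3) ndB2q3 ndB4q1 pcB3 Cut.none Ext.none)

def k0_pm_313 : ∃ t, chk3 f_pm_313 t 1 1 1 = true :=
  ⟨(l 4), by decide +kernel⟩

theorem c_pm_313 : CertB 1610612736 536870912 536870912 536870912 587336777 62277027 3 eng mog cd2q3 cd4q1 pd3 true true false .dn 3 1 3
    ndB2q3 ndB4q1 pcB3 Cut.none Ext.none :=
  certB0 (fam := true) (s1 := true) (s2 := false) (a := 3) (b := 1) (c := 3) (cn := .dn) (n1 := ndB2q3) (n2 := ndB4q1) (pc := pcB3) (cut := Cut.none) (xt := Ext.none) (P1 := 1610612736) (W1 := 536870912) (P2 := 536870912) (W2 := 536870912) (P3 := 587336777) (W3 := 62277027) (N0 := 3) (En := eng) (mo := mog) (C1 := cd2q3) (C2 := cd4q1) (C3 := pd3)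
    rfl k0_pm_313

noncomputable def f_mm_001 : ℕ → ℕ → ℕ → ℕ → Bool := onCell 0 536870912 0 536870912 587336777 62277027
    (rowB 3 eng mog cd2q0 cd4q0 pd1 0 true false false .up 0 0 1 (qsf 0 536870912 0 536870912 1) ndB2q0 ndB4q0 pcB1 Cut.none Ext.none)

def k0_mm_001 : ∃ t, chk3 f_mm_001 t 1 1 1 = true :=
  ⟨(l 4), by decide +kernel⟩

theorem c_mm_001 : CertB 0 536870912 0 536870912 587336777 62277027 3 eng mog cd2q0 cd4q0 pd1 true false false .up 0 0 1
    ndB2q0 ndB4q0 pcB1 Cut.none Ext.none :=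
  certB0 (fam := true) (s1 := false) (s2 := false) (a := 0) (b := 0) (c := 1) (cn := .up) (n1 := ndB2q0) (n2 := ndB4q0) (pc := pcB1) (cut := Cut.none) (xt := Ext.none) (P1 := 0) (W1 := 536870912) (P2 := 0) (W2 := 536870912) (P3 := 587336777) (W3 := 62277027) (N0 := 3) (En := eng) (mo := mog) (C1 := cd2q0) (C2 := cd4q0) (C3 := pd1)
    rfl k0_mm_001

noncomputable def f_mm_011 : ℕ → ℕ → ℕ → ℕ → Bool := onCell 0 536870912 536870912 536870912 587336777 62277027
    (rowB 3 eng mog cd2q0 cd4q1 pd1 0 true false false .pnn 0 1 1 (qsf 0 536870912 536870912 536870912 1) ndB2q0 ndB4q1 pcB1 Cut.none Ext.none)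

def k0_mm_011 : ∃ t, chk3 f_mm_011 t 1 1 1 = true :=
  ⟨(l 4), by decide +kernel⟩

theorem c_mm_011 : CertB 0 536870912 536870912 536870912 587336777 62277027 3 eng mog cd2q0 cd4q1 pd1 true false false .pnn 0 1 1
    ndB2q0 ndB4q1 pcB1 Cut.none Ext.none :=
  certB0 (fam := true) (s1 := false) (s2 := false) (a := 0) (b := 1) (c := 1) (cn := .pnn) (n1 := ndB2q0) (n2 := ndB4q1) (pc := pcB1) (cut := Cut.none) (xt := Ext.none) (P1 := 0) (W1 := 536870912) (P2 := 536870912) (W2 := 536870912) (P3 := 587336777) (W3 := 62277027) (N0 := 3) (En := eng) (mo := mog) (C1 := cd2q0) (C2 := cd4q1) (C3 := pd1)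
    rfl k0_mm_011

noncomputable def f_mm_012 : ℕ → ℕ → ℕ → ℕ → Bool := onCell 0 536870912 536870912 536870912 587336777 62277027
    (rowB 3 eng mog cd2q0 cd4q1 pd2 0 true false false .pnp 0 1 2 (qsf 0 536870912 536870912 536870912 2) ndB2q0 ndB4q1 pcB2 Cut.none Ext.none)

def k0_mm_012 : ∃ t, chk3 f_mm_012 t 1 1 1 = true :=
  ⟨(l 4), by decide +kernel⟩

theorem c_mm_012 : CertB 0 536870912 536870912 536870912 587336777 62277027 3 eng mog cd2q0 cd4q1 pd2 true false false .pnp 0 1 2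
    ndB2q0 ndB4q1 pcB2 Cut.none Ext.none :=
  certB0 (fam := true) (s1 := false) (s2 := false) (a := 0) (b := 1) (c := 2) (cn := .pnp) (n1 := ndB2q0) (n2 := ndB4q1) (pc := pcB2) (cut := Cut.none) (xt := Ext.none) (P1 := 0) (W1 := 536870912) (P2 := 536870912) (W2 := 536870912) (P3 := 587336777) (W3 := 62277027) (N0 := 3) (En := eng) (mo := mog) (C1 := cd2q0) (C2 := cd4q1) (C3 := pd2)
    rfl k0_mm_012

noncomputable def f_mm_022_a : ℕ → ℕ → ℕ → ℕ → Bool := onCell 0 536870912 0 536870912 587336777 62277027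
    (rowB 3 eng mog cd2q0 cd4q2a pd2 0 true false false .pp 0 2 2 (qsf 0 536870912 0 536870912 2) ndB2q0 ndB4q2a pcB2 Cut.none Ext.none)

def k0_mm_022_a : ∃ t, chk3 f_mm_022_a t 1 1 1 = true :=
  ⟨(l 5), by decide +kernel⟩

theorem c_mm_022_a : CertB 0 536870912 0 536870912 587336777 62277027 3 eng mog cd2q0 cd4q2a pd2 true false false .pp 0 2 2
    ndB2q0 ndB4q2a pcB2 Cut.none Ext.none :=
  certB0 (fam := true) (s1 := false) (s2 := false) (a := 0) (b := 2) (c := 2) (cn := .pp) (n1 := ndB2q0) (n2 := ndB4q2a) (pc := pcB2) (cut := Cut.none) (xt := Ext.none) (P1 := 0) (W1 := 536870912) (P2 := 0) (W2 := 536870912) (P3 := 587336777) (W3 := 62277027) (N0 := 3) (En := eng) (mo := mog) (C1 := cd2q0) (C2 := cd4q2a) (C3 := pd2)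
    rfl k0_mm_022_a

noncomputable def f_mm_022_b : ℕ → ℕ → ℕ → ℕ → Bool := onCell 0 536870912 1239849684 370763052 587336777 62277027
    (rowB 3 eng mog cd2q0 cd4q2b pd2 0 true false false .pp 0 2 2 (qsf 0 536870912 1239849684 370763052 2) ndB2q0 ndB4q2b pcB2 Cut.none Ext.none)

def k0_mm_022_b : ∃ t, chk3 f_mm_022_b t 1 1 1 = true :=
  ⟨(l 5), by decide +kernel⟩

theorem c_mm_022_b : CertB 0 536870912 1239849684 370763052 587336777 62277027 3 eng mog cd2q0 cd4q2b pd2 true false false .pp 0 2 2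
    ndB2q0 ndB4q2b pcB2 Cut.none Ext.none :=
  certB0 (fam := true) (s1 := false) (s2 := false) (a := 0) (b := 2) (c := 2) (cn := .pp) (n1 := ndB2q0) (n2 := ndB4q2b) (pc := pcB2) (cut := Cut.none) (xt := Ext.none) (P1 := 0) (W1 := 536870912) (P2 := 1239849684) (W2 := 370763052) (P3 := 587336777) (W3 := 62277027) (N0 := 3) (En := eng) (mo := mog) (C1 := cd2q0) (C2 := cd4q2b) (C3 := pd2)
    rfl k0_mm_022_b

noncomputable def f_mm_023_a : ℕ → ℕ → ℕ → ℕ → Bool := onCell 0 536870912 0 536870912 587336777 62277027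
    (rowB 3 eng mog cd2q0 cd4q2a pd3 0 true false false .up 0 2 3 (qsf 0 536870912 0 536870912 3) ndB2q0 ndB4q2a pcB3 Cut.none Ext.none)

def k0_mm_023_a : ∃ t, chk3 f_mm_023_a t 1 1 1 = true :=
  ⟨(l 5), by decide +kernel⟩

theorem c_mm_023_a : CertB 0 536870912 0 536870912 587336777 62277027 3 eng mog cd2q0 cd4q2a pd3 true false false .up 0 2 3
    ndB2q0 ndB4q2a pcB3 Cut.none Ext.none :=
  certB0 (fam := true) (s1 := false) (s2 := false) (a := 0) (b := 2) (c := 3) (cn := .up) (n1 := ndB2q0) (n2 := ndB4q2a) (pc := pcB3) (cut := Cut.none) (xt := Ext.none) (P1 := 0) (W1 := 536870912) (P2 := 0) (W2 := 536870912) (P3 := 587336777) (W3 := 62277027) (N0 := 3) (En := eng) (mo := mog) (C1 := cd2q0) (C2 := cd4q2a) (C3 := pd3)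
    rfl k0_mm_023_a

noncomputable def f_mm_023_b : ℕ → ℕ → ℕ → ℕ → Bool := onCell 0 536870912 1239849684 370763052 587336777 62277027
    (rowB 3 eng mog cd2q0 cd4q2b pd3 0 true false false .up 0 2 3 (qsf 0 536870912 1239849684 370763052 3) ndB2q0 ndB4q2b pcB3 Cut.none Ext.none)

def k0_mm_023_b : ∃ t, chk3 f_mm_023_b t 1 1 1 = true :=
  ⟨(l 5), by decide +kernel⟩

theorem c_mm_023_b : CertB 0 536870912 1239849684 370763052 587336777 62277027 3 eng mog cd2q0 cd4q2b pd3 true false false .up 0 2 3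
    ndB2q0 ndB4q2b pcB3 Cut.none Ext.none :=
  certB0 (fam := true) (s1 := false) (s2 := false) (a := 0) (b := 2) (c := 3) (cn := .up) (n1 := ndB2q0) (n2 := ndB4q2b) (pc := pcB3) (cut := Cut.none) (xt := Ext.none) (P1 := 0) (W1 := 536870912) (P2 := 1239849684) (W2 := 370763052) (P3 := 587336777) (W3 := 62277027) (N0 := 3) (En := eng) (mo := mog) (C1 := cd2q0) (C2 := cd4q2b) (C3 := pd3)
    rfl k0_mm_023_b

noncomputable def f_mm_033 : ℕ → ℕ → ℕ → ℕ → Bool := onCell 0 536870912 1610612736 536870912 587336777 62277027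
    (rowB 3 eng mog cd2q0 cd4q3 pd3 0 true false false .pnn 0 3 3 (qsf 0 536870912 1610612736 536870912 3) ndB2q0 ndB4q3 pcB3 Cut.none Ext.none)

def k0_mm_033 : ∃ t, chk3 f_mm_033 t 1 1 1 = true :=
  ⟨(l 4), by decide +kernel⟩

theorem c_mm_033 : CertB 0 536870912 1610612736 536870912 587336777 62277027 3 eng mog cd2q0 cd4q3 pd3 true false false .pnn 0 3 3
    ndB2q0 ndB4q3 pcB3 Cut.none Ext.none :=
  certB0 (fam := true) (s1 := false) (s2 := false) (a := 0) (b := 3) (c := 3) (cn := .pnn) (n1 := ndB2q0) (n2 := ndB4q3) (pc := pcB3) (cut := Cut.none) (xt := Ext.none) (P1 := 0) (W1 := 536870912) (P2 := 1610612736) (W2 := 536870912) (P3 := 587336777) (W3 := 62277027) (N0 := 3) (En := eng) (mo := mog) (C1 := cd2q0) (C2 := cd4q3) (C3 := pd3)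
    rfl k0_mm_033

noncomputable def f_mm_101 : ℕ → ℕ → ℕ → ℕ → Bool := onCell 536870912 536870912 0 536870912 587336777 62277027
    (rowB 3 eng mog cd2q1 cd4q0 pd1 0 true false false .npn 1 0 1 (qsf 536870912 536870912 0 536870912 1) ndB2q1 ndB4q0 pcB1 Cut.none Ext.none)

def k0_mm_101 : ∃ t, chk3 f_mm_101 t 1 1 1 = true :=
  ⟨(l 4), by decide +kernel⟩

theorem c_mm_101 : CertB 536870912 536870912 0 536870912 587336777 62277027 3 eng mog cd2q1 cd4q0 pd1 true false false .npn 1 0 1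
    ndB2q1 ndB4q0 pcB1 Cut.none Ext.none :=
  certB0 (fam := true) (s1 := false) (s2 := false) (a := 1) (b := 0) (c := 1) (cn := .npn) (n1 := ndB2q1) (n2 := ndB4q0) (pc := pcB1) (cut := Cut.none) (xt := Ext.none) (P1 := 536870912) (W1 := 536870912) (P2 := 0) (W2 := 536870912) (P3 := 587336777) (W3 := 62277027) (N0 := 3) (En := eng) (mo := mog) (C1 := cd2q1) (C2 := cd4q0) (C3 := pd1)
    rfl k0_mm_101

noncomputable def f_mm_102 : ℕ → ℕ → ℕ → ℕ → Bool := onCell 536870912 536870912 0 536870912 587336777 62277027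
    (rowB 3 eng mog cd2q1 cd4q0 pd2 0 true false false .npp 1 0 2 (qsf 536870912 536870912 0 536870912 2) ndB2q1 ndB4q0 pcB2 Cut.none Ext.none)

def k0_mm_102 : ∃ t, chk3 f_mm_102 t 1 1 1 = true :=
  ⟨(l 4), by decide +kernel⟩

theorem c_mm_102 : CertB 536870912 536870912 0 536870912 587336777 62277027 3 eng mog cd2q1 cd4q0 pd2 true false false .npp 1 0 2
    ndB2q1 ndB4q0 pcB2 Cut.none Ext.none :=
  certB0 (fam := true) (s1 := false) (s2 := false) (a := 1) (b := 0) (c := 2) (cn := .npp) (n1 := ndB2q1) (n2 := ndB4q0) (pc := pcB2) (cut := Cut.none) (xt := Ext.none) (P1 := 536870912) (W1 := 536870912) (P2 := 0) (W2 := 536870912) (P3 := 587336777) (W3 := 62277027) (N0 := 3) (En := eng) (mo := mog) (C1 := cd2q1) (C2 := cd4q0) (C3 := pd2)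
    rfl k0_mm_102

noncomputable def f_mm_112 : ℕ → ℕ → ℕ → ℕ → Bool := onCell 536870912 536870912 536870912 536870912 587336777 62277027
    (rowB 3 eng mog cd2q1 cd4q1 pd2 0 true false false .dn 1 1 2 (qsf 536870912 536870912 536870912 536870912 2) ndB2q1 ndB4q1 pcB2 Cut.none Ext.none)

def k0_mm_112 : ∃ t, chk3 f_mm_112 t 1 1 1 = true :=
  ⟨(l 4), by decide +kernel⟩

theorem c_mm_112 : CertB 536870912 536870912 536870912 536870912 587336777 62277027 3 eng mog cd2q1 cd4q1 pd2 true false false .dn 1 1 2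
    ndB2q1 ndB4q1 pcB2 Cut.none Ext.none :=
  certB0 (fam := true) (s1 := false) (s2 := false) (a := 1) (b := 1) (c := 2) (cn := .dn) (n1 := ndB2q1) (n2 := ndB4q1) (pc := pcB2) (cut := Cut.none) (xt := Ext.none) (P1 := 536870912) (W1 := 536870912) (P2 := 536870912) (W2 := 536870912) (P3 := 587336777) (W3 := 62277027) (N0 := 3) (En := eng) (mo := mog) (C1 := cd2q1) (C2 := cd4q1) (C3 := pd2)
    rfl k0_mm_112

noncomputable def f_mm_113 : ℕ → ℕ → ℕ → ℕ → Bool := onCell 536870912 536870912 536870912 536870912 587336777 62277027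
    (rowB 3 eng mog cd2q1 cd4q1 pd3 0 true false false .nn 1 1 3 (qsf 536870912 536870912 536870912 536870912 3) ndB2q1 ndB4q1 pcB3 Cut.none Ext.none)

def k0_mm_113 : ∃ t, chk3 f_mm_113 t 1 1 1 = true :=
  ⟨(l 4), by decide +kernel⟩

theorem c_mm_113 : CertB 536870912 536870912 536870912 536870912 587336777 62277027 3 eng mog cd2q1 cd4q1 pd3 true false false .nn 1 1 3
    ndB2q1 ndB4q1 pcB3 Cut.none Ext.none :=
  certB0 (fam := true) (s1 := false) (s2 := false) (a := 1) (b := 1) (c := 3) (cn := .nn) (n1 := ndB2q1) (n2 := ndB4q1) (pc := pcB3) (cut := Cut.none) (xt := Ext.none) (P1 := 536870912) (W1 := 536870912) (P2 := 536870912) (W2 := 536870912) (P3 := 587336777) (W3 := 62277027) (N0 := 3) (En := eng) (mo := mog) (C1 := cd2q1) (C2 := cd4q1) (C3 := pd3)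
    rfl k0_mm_113

noncomputable def f_mm_123_a : ℕ → ℕ → ℕ → ℕ → Bool := onCell 536870912 536870912 0 536870912 587336777 62277027
    (rowB 3 eng mog cd2q1 cd4q2a pd3 0 true false false .npn 1 2 3 (qsf 536870912 536870912 0 536870912 3) ndB2q1 ndB4q2a pcB3 Cut.none Ext.none)

def k0_mm_123_a : ∃ t, chk3 f_mm_123_a t 1 1 1 = true :=
  ⟨(l 4), by decide +kernel⟩

theorem c_mm_123_a : CertB 536870912 536870912 0 536870912 587336777 62277027 3 eng mog cd2q1 cd4q2a pd3 true false false .npn 1 2 3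
    ndB2q1 ndB4q2a pcB3 Cut.none Ext.none :=
  certB0 (fam := true) (s1 := false) (s2 := false) (a := 1) (b := 2) (c := 3) (cn := .npn) (n1 := ndB2q1) (n2 := ndB4q2a) (pc := pcB3) (cut := Cut.none) (xt := Ext.none) (P1 := 536870912) (W1 := 536870912) (P2 := 0) (W2 := 536870912) (P3 := 587336777) (W3 := 62277027) (N0 := 3) (En := eng) (mo := mog) (C1 := cd2q1) (C2 := cd4q2a) (C3 := pd3)
    rfl k0_mm_123_a

noncomputable def f_mm_123_b : ℕ → ℕ → ℕ → ℕ → Bool := onCell 536870912 536870912 1239849684 370763052 587336777 62277027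
    (rowB 3 eng mog cd2q1 cd4q2b pd3 0 true false false .npn 1 2 3 (qsf 536870912 536870912 1239849684 370763052 3) ndB2q1 ndB4q2b pcB3 Cut.none Ext.none)

def k0_mm_123_b : ∃ t, chk3 f_mm_123_b t 1 1 1 = true :=
  ⟨(l 4), by decide +kernel⟩

theorem c_mm_123_b : CertB 536870912 536870912 1239849684 370763052 587336777 62277027 3 eng mog cd2q1 cd4q2b pd3 true false false .npn 1 2 3
    ndB2q1 ndB4q2b pcB3 Cut.none Ext.none :=
  certB0 (fam := true) (s1 := false) (s2 := false) (a := 1) (b := 2) (c := 3) (cn := .npn) (n1 := ndB2q1) (n2 := ndB4q2b) (pc := pcB3) (cut := Cut.none) (xt := Ext.none) (P1 := 536870912) (W1 := 536870912) (P2 := 1239849684) (W2 := 370763052) (P3 := 587336777) (W3 := 62277027) (N0 := 3) (En := eng) (mo := mog) (C1 := cd2q1) (C2 := cd4q2b) (C3 := pd3)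
    rfl k0_mm_123_b

noncomputable def f_mm_133 : ℕ → ℕ → ℕ → ℕ → Bool := onCell 536870912 536870912 1610612736 536870912 587336777 62277027
    (rowB 3 eng mog cd2q1 cd4q3 pd3 0 true false false .dn 1 3 3 (qsf 536870912 536870912 1610612736 536870912 3) ndB2q1 ndB4q3 pcB3 Cut.none Ext.none)

def k0_mm_133 : ∃ t, chk3 f_mm_133 t 1 1 1 = true :=
  ⟨(l 4), by decide +kernel⟩

theorem c_mm_133 : CertB 536870912 536870912 1610612736 536870912 587336777 62277027 3 eng mog cd2q1 cd4q3 pd3 true false false .dn 1 3 3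
    ndB2q1 ndB4q3 pcB3 Cut.none Ext.none :=
  certB0 (fam := true) (s1 := false) (s2 := false) (a := 1) (b := 3) (c := 3) (cn := .dn) (n1 := ndB2q1) (n2 := ndB4q3) (pc := pcB3) (cut := Cut.none) (xt := Ext.none) (P1 := 536870912) (W1 := 536870912) (P2 := 1610612736) (W2 := 536870912) (P3 := 587336777) (W3 := 62277027) (N0 := 3) (En := eng) (mo := mog) (C1 := cd2q1) (C2 := cd4q3) (C3 := pd3)
    rfl k0_mm_133

noncomputable def cut_mm_202_a : Cut := Cut.of [[⟨0, 1, 0, 67108864⟩, ⟨1, 0, 0, 67108864⟩, ⟨2, 1, 0, 67108864⟩]]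

noncomputable def f_mm_202_a : ℕ → ℕ → ℕ → ℕ → Bool := onCell 0 536870912 0 536870912 587336777 62277027
    (rowB 3 eng mog cd2q2a cd4q0 pd2 0 true false false .pp 2 0 2 (qsf 0 536870912 0 536870912 2) ndB2q2a ndB4q0 pcB2 cut_mm_202_a Ext.none)

def k0_mm_202_a : ∃ t, chk3 f_mm_202_a t 1 1 1 = true :=
  ⟨(b (a (b (b (a (a (b (b (b (l 16477728) (l 16461592)) (l 16469712)) (l 16488024)) (b (b (b (l 16466296) (l 16471520)) (b (l 16477248) (l 16483368))) (l 16500048))) (b (b (a (b (a (l 16479256) (l 16491264)) (l 16490856)) (b (a (l 16505832) (l 16523032)) (a (l 16511384) (l 16528608)))) (a (b (l 16496816) (l 16545200)) (l 16529448))) (a (b (l 16534584) (l 16528448)) (b (a (l 16534616) (l 16551968)) (l 16579784))))) (a (b (l 16628800) (l 16557216)) (b (a (l 16552760) (l 16730608)) (a (l 16587656) (l 16618872))))) (b (a (b (l 16654808) (l 16625464)) (b (l 16701408) (l 4))) (a (l 4) (l 4)))) (b (a (b (b (b (a (b (a (l 16542960) (l 16565160)) (a (l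 16548520) (l 16571200))) (a (b (b (l 16587384) (l 16591840)) (l 16596720)) (b (a (l 16609552) (l 16644760)) (l 16625152)))) (a (a (l 16557848) (l 16580456)) (a (l 16605824) (l 16633984)))) (a (b (a (l 16571888) (l 16594440)) (a (l 16587432) (l 16610032))) (b (b (l 16630200) (l 16637768)) (a (l 16635576) (l 4))))) (a (b (b (l 16594640) (l 4)) (l 4)) (l 4))) (b (a (b (b (b (b (a (a (l 16636088) (l 16651656)) (l 6)) (a (l 16670248) (a (l 16674128) (l 6)))) (a (l 16677488) (b (l 16709768) (l 16691216)))) (a (b (l 16661992) (l 16668336)) (b (a (l 16686680) (l 16704344)) (l 16702944)))) (b (a (l 16680000) (l 4)) (l 4))) (b (a (b (l 6) (b (l 6) (l 4))) (l 6)) (l 4))) (l 4))) (l 4))) (l 4)), by decide +kernel⟩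

theorem c_mm_202_a : CertB 0 536870912 0 536870912 587336777 62277027 3 eng mog cd2q2a cd4q0 pd2 true false false .pp 2 0 2
    ndB2q2a ndB4q0 pcB2 cut_mm_202_a Ext.none :=
  certB0 (fam := true) (s1 := false) (s2 := false) (a := 2) (b := 0) (c := 2) (cn := .pp) (n1 := ndB2q2a) (n2 := ndB4q0) (pc := pcB2) (cut := cut_mm_202_a) (xt := Ext.none) (P1 := 0) (W1 := 536870912) (P2 := 0) (W2 := 536870912) (P3 := 587336777) (W3 := 62277027) (N0 := 3) (En := eng) (mo := mog) (C1 := cd2q2a) (C2 := cd4q0) (C3 := pd2)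
    rfl k0_mm_202_a

noncomputable def cut_mm_202_b : Cut := Cut.of [[⟨0, 1, 0, 67108864⟩, ⟨1, 0, 0, 67108864⟩, ⟨2, 1, 0, 67108864⟩]]

noncomputable def f_mm_202_b : ℕ → ℕ → ℕ → ℕ → Bool := onCell 1239849684 370763052 0 536870912 587336777 62277027
    (rowB 3 eng mog cd2q2b cd4q0 pd2 0 true false false .pp 2 0 2 (qsf 1239849684 370763052 0 536870912 2) ndB2q2b ndB4q0 pcB2 cut_mm_202_b Ext.none)

def k0_mm_202_b : ∃ t, chk3 f_mm_202_b t 1 1 1 = true :=
  ⟨(b (a (b (b (a (b (a (b (a (b (l 16453968) (l 16437904)) (l 16390912)) (l 16423984)) (l 16389536)) (a (l 16400600) (l 16352184))) (a (b (l 16268512) (l 16269488)) (b (b (l 16171680) (l 16186648)) (l 16213352)))) (a (a (b (l 16471792) (l 16505296)) (b (l 16383760) (l 16417712))) (a (b (l 16297656) (l 16328280)) (b (l 16250152) (l 16288752))))) (a (b (a (b (l 16540608) (l 16575344)) (b (l 16453136) (l 16485432))) (l 4)) (b (b (a (l 16363728) (l 4)) (l 4)) (l 4)))) (b (a (b (b (a (l 16279288) (l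 16102256)) (a (l 16173608) (l 16142592))) (a (b (l 16213448) (l 16263632)) (b (l 16253952) (l 4)))) (b (a (b (l 16080536) (l 16165368)) (b (l 16149592) (b (l 16100864) (l 2)))) (l 4))) (l 4))) (l 4)), by decide +kernel⟩

theorem c_mm_202_b : CertB 1239849684 370763052 0 536870912 587336777 62277027 3 eng mog cd2q2b cd4q0 pd2 true false false .pp 2 0 2
    ndB2q2b ndB4q0 pcB2 cut_mm_202_b Ext.none :=
  certB0 (fam := true) (s1 := false) (s2 := false) (a := 2) (b := 0) (c := 2) (cn := .pp) (n1 := ndB2q2b) (n2 := ndB4q0) (pc := pcB2) (cut := cut_mm_202_b) (xt := Ext.none) (P1 := 1239849684) (W1 := 370763052) (P2 := 0) (W2 := 536870912) (P3 := 587336777) (W3 := 62277027) (N0 := 3) (En := eng) (mo := mog) (C1 := cd2q2b) (C2 := cd4q0) (C3 := pd2)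
    rfl k0_mm_202_b

noncomputable def f_mm_203_a : ℕ → ℕ → ℕ → ℕ → Bool := onCell 0 536870912 1610612736 536870912 587336777 62277027
    (rowB 3 eng mog cd2q2a cd4q0 pd3 1 true false false .up 2 0 3 (qsf 0 536870912 0 536870912 3) ndB2q2a ndB4q0 pcB3 Cut.none Ext.none)

def k0_mm_203_a : ∃ t, chk3 f_mm_203_a t 1 1 1 = true :=
  ⟨(l 4), by decide +kernel⟩

theorem c_mm_203_a : CertB 0 536870912 0 536870912 587336777 62277027 3 eng mog cd2q2a cd4q0 pd3 true false false .up 2 0 3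
    ndB2q2a ndB4q0 pcB3 Cut.none Ext.none :=
  certB1 (fam := true) (s1 := false) (s2 := false) (a := 2) (b := 0) (c := 3) (cn := .up) (n1 := ndB2q2a) (n2 := ndB4q0) (pc := pcB3) (cut := Cut.none) (xt := Ext.none) (P1 := 0) (W1 := 536870912) (P2 := 0) (W2 := 536870912) (P3 := 587336777) (W3 := 62277027) (N0 := 3) (En := eng) (mo := mog) (C1 := cd2q2a) (C2 := cd4q0) (C3 := pd3)
    rfl (fun _ => rfl) k0_mm_203_a

noncomputable def f_mm_203_b : ℕ → ℕ → ℕ → ℕ → Bool := onCell 1239849684 370763052 1610612736 536870912 587336777 62277027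
    (rowB 3 eng mog cd2q2b cd4q0 pd3 1 true false false .up 2 0 3 (qsf 1239849684 370763052 0 536870912 3) ndB2q2b ndB4q0 pcB3 Cut.none Ext.none)

def k0_mm_203_b : ∃ t, chk3 f_mm_203_b t 1 1 1 = true :=
  ⟨(b (b (a (l 4) (b (a (l 4) (b (a (l 4) (l 16101912)) (l 4))) (l 4))) (l 4)) (l 4)), by decide +kernel⟩

theorem c_mm_203_b : CertB 1239849684 370763052 0 536870912 587336777 62277027 3 eng mog cd2q2b cd4q0 pd3 true false false .up 2 0 3
    ndB2q2b ndB4q0 pcB3 Cut.none Ext.none :=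
  certB1 (fam := true) (s1 := false) (s2 := false) (a := 2) (b := 0) (c := 3) (cn := .up) (n1 := ndB2q2b) (n2 := ndB4q0) (pc := pcB3) (cut := Cut.none) (xt := Ext.none) (P1 := 1239849684) (W1 := 370763052) (P2 := 0) (W2 := 536870912) (P3 := 587336777) (W3 := 62277027) (N0 := 3) (En := eng) (mo := mog) (C1 := cd2q2b) (C2 := cd4q0) (C3 := pd3)
    rfl (fun _ => rfl) k0_mm_203_b

noncomputable def f_mm_213_a : ℕ → ℕ → ℕ → ℕ → Bool := onCell 0 536870912 536870912 536870912 587336777 62277027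
    (rowB 3 eng mog cd2q2a cd4q1 pd3 0 true false false .pnn 2 1 3 (qsf 0 536870912 536870912 536870912 3) ndB2q2a ndB4q1 pcB3 Cut.none Ext.none)

def k0_mm_213_a : ∃ t, chk3 f_mm_213_a t 1 1 1 = true :=
  ⟨(l 4), by decide +kernel⟩

theorem c_mm_213_a : CertB 0 536870912 536870912 536870912 587336777 62277027 3 eng mog cd2q2a cd4q1 pd3 true false false .pnn 2 1 3
    ndB2q2a ndB4q1 pcB3 Cut.none Ext.none :=
  certB0 (fam := true) (s1 := false) (s2 := false) (a := 2) (b := 1) (c := 3) (cn := .pnn) (n1 := ndB2q2a) (n2 := ndB4q1) (pc := pcB3) (cut := Cut.none) (xt := Ext.none) (P1 := 0) (W1 := 536870912) (P2 := 536870912) (W2 := 536870912) (P3 := 587336777) (W3 := 62277027) (N0 := 3) (En := eng) (mo := mog) (C1 := cd2q2a) (C2 := cd4q1) (C3 := pd3)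
    rfl k0_mm_213_a

noncomputable def f_mm_213_b : ℕ → ℕ → ℕ → ℕ → Bool := onCell 1239849684 370763052 536870912 536870912 587336777 62277027
    (rowB 3 eng mog cd2q2b cd4q1 pd3 0 true false false .pnn 2 1 3 (qsf 1239849684 370763052 536870912 536870912 3) ndB2q2b ndB4q1 pcB3 Cut.none Ext.none)

def k0_mm_213_b : ∃ t, chk3 f_mm_213_b t 1 1 1 = true :=
  ⟨(l 4), by decide +kernel⟩

theorem c_mm_213_b : CertB 1239849684 370763052 536870912 536870912 587336777 62277027 3 eng mog cd2q2b cd4q1 pd3 true false false .pnn 2 1 3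
    ndB2q2b ndB4q1 pcB3 Cut.none Ext.none :=
  certB0 (fam := true) (s1 := false) (s2 := false) (a := 2) (b := 1) (c := 3) (cn := .pnn) (n1 := ndB2q2b) (n2 := ndB4q1) (pc := pcB3) (cut := Cut.none) (xt := Ext.none) (P1 := 1239849684) (W1 := 370763052) (P2 := 536870912) (W2 := 536870912) (P3 := 587336777) (W3 := 62277027) (N0 := 3) (En := eng) (mo := mog) (C1 := cd2q2b) (C2 := cd4q1) (C3 := pd3)
    rfl k0_mm_213_b

noncomputable def f_mm_303 : ℕ → ℕ → ℕ → ℕ → Bool := onCell 1610612736 536870912 0 536870912 587336777 62277027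
    (rowB 3 eng mog cd2q3 cd4q0 pd3 2 true false false .npn 3 0 3 (qsf 1610612736 536870912 0 536870912 3) ndB2q3 ndB4q0 pcB3 Cut.none Ext.none)

def k0_mm_303 : ∃ t, chk3 f_mm_303 t 1 1 1 = true :=
  ⟨(a (a (b (b (a (b (a (l 16127696) (l 16139248)) (l 4)) (l 4)) (l 4)) (l 1)) (l 4)) (l 4)), by decide +kernel⟩

theorem c_mm_303 : CertB 1610612736 536870912 0 536870912 587336777 62277027 3 eng mog cd2q3 cd4q0 pd3 true false false .npn 3 0 3
    ndB2q3 ndB4q0 pcB3 Cut.none Ext.none :=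
  certB2 (fam := true) (s1 := false) (s2 := false) (a := 3) (b := 0) (c := 3) (cn := .npn) (n1 := ndB2q3) (n2 := ndB4q0) (pc := pcB3) (cut := Cut.none) (xt := Ext.none) (P1 := 1610612736) (W1 := 536870912) (P2 := 0) (W2 := 536870912) (P3 := 587336777) (W3 := 62277027) (N0 := 3) (En := eng) (mo := mog) (C1 := cd2q3) (C2 := cd4q0) (C3 := pd3)
    rfl (fun _ => rfl) k0_mm_303

noncomputable def f_mm_313 : ℕ → ℕ → ℕ → ℕ → Bool := onCell 1610612736 536870912 536870912 536870912 587336777 62277027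
    (rowB 3 eng mog cd2q3 cd4q1 pd3 0 true false false .dn 3 1 3 (qsf 1610612736 536870912 536870912 536870912 3) ndB2q3 ndB4q1 pcB3 Cut.none Ext.none)

def k0_mm_313 : ∃ t, chk3 f_mm_313 t 1 1 1 = true :=
  ⟨(l 4), by decide +kernel⟩

theorem c_mm_313 : CertB 1610612736 536870912 536870912 536870912 587336777 62277027 3 eng mog cd2q3 cd4q1 pd3 true false false .dn 3 1 3
    ndB2q3 ndB4q1 pcB3 Cut.none Ext.none :=
  certB0 (fam := true) (s1 := false) (s2 := false) (a := 3) (b := 1) (c := 3) (cn := .dn) (n1 := ndB2q3) (n2 := ndB4q1) (pc := pcB3) (cut := Cut.none) (xt := Ext.none) (P1 := 1610612736) (W1 := 536870912) (P2 := 536870912) (W2 := 536870912) (P3 := 587336777) (W3 := 62277027) (N0 := 3) (En := eng) (mo := mog) (C1 := cd2q3) (C2 := cd4q1) (C3 := pd3)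
    rfl k0_mm_313

end Pool.Agent.Strip051.G.I5470_6050.Tab.C.BA24

namespace Pool.Agent.Strip051.G.I5470_6050.Tab.C.BA25

open Pool.Agent.Strip051.PB Pool.Agent.Strip051.PB.T
open Pool.Agent.Strip051.G.I5470_6050.Tab

noncomputable def f_pp_001 : ℕ → ℕ → ℕ → ℕ → Bool := onCell 0 536870912 0 536870912 587336777 62277027
    (rowB 3 eng mog cd2q0 cd5q0 pd1 0 true true true .up 0 0 1 (qsf 0 536870912 0 536870912 1) ndB2q0 ndB5q0 pcB1 Cut.none Ext.none)

def k0_pp_001 : ∃ t, chk3 f_pp_001 t 1 1 1 = true :=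
  ⟨(l 4), by decide +kernel⟩

theorem c_pp_001 : CertB 0 536870912 0 536870912 587336777 62277027 3 eng mog cd2q0 cd5q0 pd1 true true true .up 0 0 1
    ndB2q0 ndB5q0 pcB1 Cut.none Ext.none :=
  certB0 (fam := true) (s1 := true) (s2 := true) (a := 0) (b := 0) (c := 1) (cn := .up) (n1 := ndB2q0) (n2 := ndB5q0) (pc := pcB1) (cut := Cut.none) (xt := Ext.none) (P1 := 0) (W1 := 536870912) (P2 := 0) (W2 := 536870912) (P3 := 587336777) (W3 := 62277027) (N0 := 3) (En := eng) (mo := mog) (C1 := cd2q0) (C2 := cd5q0) (C3 := pd1)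
    rfl k0_pp_001

noncomputable def f_pp_011 : ℕ → ℕ → ℕ → ℕ → Bool := onCell 0 536870912 536870912 536870912 587336777 62277027
    (rowB 3 eng mog cd2q0 cd5q1 pd1 0 true true true .pnn 0 1 1 (qsf 0 536870912 536870912 536870912 1) ndB2q0 ndB5q1 pcB1 Cut.none Ext.none)

def k0_pp_011 : ∃ t, chk3 f_pp_011 t 1 1 1 = true :=
  ⟨(l 4), by decide +kernel⟩

theorem c_pp_011 : CertB 0 536870912 536870912 536870912 587336777 62277027 3 eng mog cd2q0 cd5q1 pd1 true true true .pnn 0 1 1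
    ndB2q0 ndB5q1 pcB1 Cut.none Ext.none :=
  certB0 (fam := true) (s1 := true) (s2 := true) (a := 0) (b := 1) (c := 1) (cn := .pnn) (n1 := ndB2q0) (n2 := ndB5q1) (pc := pcB1) (cut := Cut.none) (xt := Ext.none) (P1 := 0) (W1 := 536870912) (P2 := 536870912) (W2 := 536870912) (P3 := 587336777) (W3 := 62277027) (N0 := 3) (En := eng) (mo := mog) (C1 := cd2q0) (C2 := cd5q1) (C3 := pd1)
    rfl k0_pp_011

noncomputable def f_pp_012 : ℕ → ℕ → ℕ → ℕ → Bool := onCell 0 536870912 536870912 536870912 587336777 62277027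
    (rowB 3 eng mog cd2q0 cd5q1 pd2 0 true true true .pnp 0 1 2 (qsf 0 536870912 536870912 536870912 2) ndB2q0 ndB5q1 pcB2 Cut.none Ext.none)

def k0_pp_012 : ∃ t, chk3 f_pp_012 t 1 1 1 = true :=
  ⟨(l 4), by decide +kernel⟩

theorem c_pp_012 : CertB 0 536870912 536870912 536870912 587336777 62277027 3 eng mog cd2q0 cd5q1 pd2 true true true .pnp 0 1 2
    ndB2q0 ndB5q1 pcB2 Cut.none Ext.none :=
  certB0 (fam := true) (s1 := true) (s2 := true) (a := 0) (b := 1) (c := 2) (cn := .pnp) (n1 := ndB2q0) (n2 := ndB5q1) (pc := pcB2) (cut := Cut.none) (xt := Ext.none) (P1 := 0) (W1 := 536870912) (P2 := 536870912) (W2 := 536870912) (P3 := 587336777) (W3 := 62277027) (N0 := 3) (En := eng) (mo := mog) (C1 := cd2q0) (C2 := cd5q1) (C3 := pd2)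
    rfl k0_pp_012

noncomputable def f_pp_022 : ℕ → ℕ → ℕ → ℕ → Bool := onCell 0 536870912 1073741824 536870912 587336777 62277027
    (rowB 3 eng mog cd2q0 cd5q2 pd2 0 true true true .pp 0 2 2 (qsf 0 536870912 1073741824 536870912 2) ndB2q0 ndB5q2 pcB2 Cut.none Ext.none)

def k0_pp_022 : ∃ t, chk3 f_pp_022 t 1 1 1 = true :=
  ⟨(l 4), by decide +kernel⟩

theorem c_pp_022 : CertB 0 536870912 1073741824 536870912 587336777 62277027 3 eng mog cd2q0 cd5q2 pd2 true true true .pp 0 2 2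
    ndB2q0 ndB5q2 pcB2 Cut.none Ext.none :=
  certB0 (fam := true) (s1 := true) (s2 := true) (a := 0) (b := 2) (c := 2) (cn := .pp) (n1 := ndB2q0) (n2 := ndB5q2) (pc := pcB2) (cut := Cut.none) (xt := Ext.none) (P1 := 0) (W1 := 536870912) (P2 := 1073741824) (W2 := 536870912) (P3 := 587336777) (W3 := 62277027) (N0 := 3) (En := eng) (mo := mog) (C1 := cd2q0) (C2 := cd5q2) (C3 := pd2)
    rfl k0_pp_022

noncomputable def f_pp_023 : ℕ → ℕ → ℕ → ℕ → Bool := onCell 0 536870912 1073741824 536870912 587336777 62277027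
    (rowB 3 eng mog cd2q0 cd5q2 pd3 0 true true true .up 0 2 3 (qsf 0 536870912 1073741824 536870912 3) ndB2q0 ndB5q2 pcB3 Cut.none Ext.none)

def k0_pp_023 : ∃ t, chk3 f_pp_023 t 1 1 1 = true :=
  ⟨(l 4), by decide +kernel⟩

theorem c_pp_023 : CertB 0 536870912 1073741824 536870912 587336777 62277027 3 eng mog cd2q0 cd5q2 pd3 true true true .up 0 2 3
    ndB2q0 ndB5q2 pcB3 Cut.none Ext.none :=
  certB0 (fam := true) (s1 := true) (s2 := true) (a := 0) (b := 2) (c := 3) (cn := .up) (n1 := ndB2q0) (n2 := ndB5q2) (pc := pcB3) (cut := Cut.none) (xt := Ext.none) (P1 := 0) (W1 := 536870912) (P2 := 1073741824) (W2 := 536870912) (P3 := 587336777) (W3 := 62277027) (N0 := 3) (En := eng) (mo := mog) (C1 := cd2q0) (C2 := cd5q2) (C3 := pd3)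
    rfl k0_pp_023

noncomputable def f_pp_033 : ℕ → ℕ → ℕ → ℕ → Bool := onCell 0 536870912 0 1230186008 587336777 62277027
    (rowB 3 eng mog cd2q0 cd5q3 pd3 0 true true true .pnn 0 3 3 (qsf 0 536870912 0 1230186008 3) ndB2q0 ndB5q3 pcB3 Cut.none Ext.none)

def k0_pp_033 : ∃ t, chk3 f_pp_033 t 1 1 1 = true :=
  ⟨(b (l 4) (l 4)), by decide +kernel⟩

theorem c_pp_033 : CertB 0 536870912 0 1230186008 587336777 62277027 3 eng mog cd2q0 cd5q3 pd3 true true true .pnn 0 3 3
    ndB2q0 ndB5q3 pcB3 Cut.none Ext.none :=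
  certB0 (fam := true) (s1 := true) (s2 := true) (a := 0) (b := 3) (c := 3) (cn := .pnn) (n1 := ndB2q0) (n2 := ndB5q3) (pc := pcB3) (cut := Cut.none) (xt := Ext.none) (P1 := 0) (W1 := 536870912) (P2 := 0) (W2 := 1230186008) (P3 := 587336777) (W3 := 62277027) (N0 := 3) (En := eng) (mo := mog) (C1 := cd2q0) (C2 := cd5q3) (C3 := pd3)
    rfl k0_pp_033

noncomputable def f_pp_101 : ℕ → ℕ → ℕ → ℕ → Bool := onCell 536870912 536870912 0 536870912 587336777 62277027
    (rowB 3 eng mog cd2q1 cd5q0 pd1 0 true true true .npn 1 0 1 (qsf 536870912 536870912 0 536870912 1) ndB2q1 ndB5q0 pcB1 Cut.none Ext.none)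

def k0_pp_101 : ∃ t, chk3 f_pp_101 t 1 1 1 = true :=
  ⟨(l 4), by decide +kernel⟩

theorem c_pp_101 : CertB 536870912 536870912 0 536870912 587336777 62277027 3 eng mog cd2q1 cd5q0 pd1 true true true .npn 1 0 1
    ndB2q1 ndB5q0 pcB1 Cut.none Ext.none :=
  certB0 (fam := true) (s1 := true) (s2 := true) (a := 1) (b := 0) (c := 1) (cn := .npn) (n1 := ndB2q1) (n2 := ndB5q0) (pc := pcB1) (cut := Cut.none) (xt := Ext.none) (P1 := 536870912) (W1 := 536870912) (P2 := 0) (W2 := 536870912) (P3 := 587336777) (W3 := 62277027) (N0 := 3) (En := eng) (mo := mog) (C1 := cd2q1) (C2 := cd5q0) (C3 := pd1)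
    rfl k0_pp_101

noncomputable def f_pp_102 : ℕ → ℕ → ℕ → ℕ → Bool := onCell 536870912 536870912 0 536870912 587336777 62277027
    (rowB 3 eng mog cd2q1 cd5q0 pd2 0 true true true .npp 1 0 2 (qsf 536870912 536870912 0 536870912 2) ndB2q1 ndB5q0 pcB2 Cut.none Ext.none)

def k0_pp_102 : ∃ t, chk3 f_pp_102 t 1 1 1 = true :=
  ⟨(l 4), by decide +kernel⟩

theorem c_pp_102 : CertB 536870912 536870912 0 536870912 587336777 62277027 3 eng mog cd2q1 cd5q0 pd2 true true true .npp 1 0 2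
    ndB2q1 ndB5q0 pcB2 Cut.none Ext.none :=
  certB0 (fam := true) (s1 := true) (s2 := true) (a := 1) (b := 0) (c := 2) (cn := .npp) (n1 := ndB2q1) (n2 := ndB5q0) (pc := pcB2) (cut := Cut.none) (xt := Ext.none) (P1 := 536870912) (W1 := 536870912) (P2 := 0) (W2 := 536870912) (P3 := 587336777) (W3 := 62277027) (N0 := 3) (En := eng) (mo := mog) (C1 := cd2q1) (C2 := cd5q0) (C3 := pd2)
    rfl k0_pp_102

noncomputable def f_pp_112 : ℕ → ℕ → ℕ → ℕ → Bool := onCell 536870912 536870912 536870912 536870912 587336777 62277027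
    (rowB 3 eng mog cd2q1 cd5q1 pd2 0 true true true .dn 1 1 2 (qsf 536870912 536870912 536870912 536870912 2) ndB2q1 ndB5q1 pcB2 Cut.none Ext.none)

def k0_pp_112 : ∃ t, chk3 f_pp_112 t 1 1 1 = true :=
  ⟨(l 4), by decide +kernel⟩

theorem c_pp_112 : CertB 536870912 536870912 536870912 536870912 587336777 62277027 3 eng mog cd2q1 cd5q1 pd2 true true true .dn 1 1 2
    ndB2q1 ndB5q1 pcB2 Cut.none Ext.none :=
  certB0 (fam := true) (s1 := true) (s2 := true) (a := 1) (b := 1) (c := 2) (cn := .dn) (n1 := ndB2q1) (n2 := ndB5q1) (pc := pcB2) (cut := Cut.none) (xt := Ext.none) (P1 := 536870912) (W1 := 536870912) (P2 := 536870912) (W2 := 536870912) (P3 := 587336777) (W3 := 62277027) (N0 := 3) (En := eng) (mo := mog) (C1 := cd2q1) (C2 := cd5q1) (C3 := pd2)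
    rfl k0_pp_112

noncomputable def f_pp_113 : ℕ → ℕ → ℕ → ℕ → Bool := onCell 536870912 536870912 536870912 536870912 587336777 62277027
    (rowB 3 eng mog cd2q1 cd5q1 pd3 0 true true true .nn 1 1 3 (qsf 536870912 536870912 536870912 536870912 3) ndB2q1 ndB5q1 pcB3 Cut.none Ext.none)

def k0_pp_113 : ∃ t, chk3 f_pp_113 t 1 1 1 = true :=
  ⟨(l 4), by decide +kernel⟩

theorem c_pp_113 : CertB 536870912 536870912 536870912 536870912 587336777 62277027 3 eng mog cd2q1 cd5q1 pd3 true true true .nn 1 1 3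
    ndB2q1 ndB5q1 pcB3 Cut.none Ext.none :=
  certB0 (fam := true) (s1 := true) (s2 := true) (a := 1) (b := 1) (c := 3) (cn := .nn) (n1 := ndB2q1) (n2 := ndB5q1) (pc := pcB3) (cut := Cut.none) (xt := Ext.none) (P1 := 536870912) (W1 := 536870912) (P2 := 536870912) (W2 := 536870912) (P3 := 587336777) (W3 := 62277027) (N0 := 3) (En := eng) (mo := mog) (C1 := cd2q1) (C2 := cd5q1) (C3 := pd3)
    rfl k0_pp_113

noncomputable def f_pp_123 : ℕ → ℕ → ℕ → ℕ → Bool := onCell 536870912 536870912 1073741824 536870912 587336777 62277027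
    (rowB 3 eng mog cd2q1 cd5q2 pd3 0 true true true .npn 1 2 3 (qsf 536870912 536870912 1073741824 536870912 3) ndB2q1 ndB5q2 pcB3 Cut.none Ext.none)

def k0_pp_123 : ∃ t, chk3 f_pp_123 t 1 1 1 = true :=
  ⟨(l 4), by decide +kernel⟩

theorem c_pp_123 : CertB 536870912 536870912 1073741824 536870912 587336777 62277027 3 eng mog cd2q1 cd5q2 pd3 true true true .npn 1 2 3
    ndB2q1 ndB5q2 pcB3 Cut.none Ext.none :=
  certB0 (fam := true) (s1 := true) (s2 := true) (a := 1) (b := 2) (c := 3) (cn := .npn) (n1 := ndB2q1) (n2 := ndB5q2) (pc := pcB3) (cut := Cut.none) (xt := Ext.none) (P1 := 536870912) (W1 := 536870912) (P2 := 1073741824) (W2 := 536870912) (P3 := 587336777) (W3 := 62277027) (N0 := 3) (En := eng) (mo := mog) (C1 := cd2q1) (C2 := cd5q2) (C3 := pd3)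
    rfl k0_pp_123

noncomputable def f_pp_133 : ℕ → ℕ → ℕ → ℕ → Bool := onCell 536870912 536870912 0 1230186008 587336777 62277027
    (rowB 3 eng mog cd2q1 cd5q3 pd3 0 true true true .dn 1 3 3 (qsf 536870912 536870912 0 1230186008 3) ndB2q1 ndB5q3 pcB3 Cut.none Ext.none)

def k0_pp_133 : ∃ t, chk3 f_pp_133 t 1 1 1 = true :=
  ⟨(l 4), by decide +kernel⟩

theorem c_pp_133 : CertB 536870912 536870912 0 1230186008 587336777 62277027 3 eng mog cd2q1 cd5q3 pd3 true true true .dn 1 3 3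
    ndB2q1 ndB5q3 pcB3 Cut.none Ext.none :=
  certB0 (fam := true) (s1 := true) (s2 := true) (a := 1) (b := 3) (c := 3) (cn := .dn) (n1 := ndB2q1) (n2 := ndB5q3) (pc := pcB3) (cut := Cut.none) (xt := Ext.none) (P1 := 536870912) (W1 := 536870912) (P2 := 0) (W2 := 1230186008) (P3 := 587336777) (W3 := 62277027) (N0 := 3) (En := eng) (mo := mog) (C1 := cd2q1) (C2 := cd5q3) (C3 := pd3)
    rfl k0_pp_133

noncomputable def f_pp_202_a : ℕ → ℕ → ℕ → ℕ → Bool := onCell 0 536870912 0 536870912 587336777 62277027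
    (rowB 3 eng mog cd2q2a cd5q0 pd2 0 true true true .pp 2 0 2 (qsf 0 536870912 0 536870912 2) ndB2q2a ndB5q0 pcB2 Cut.none Ext.none)

def k0_pp_202_a : ∃ t, chk3 f_pp_202_a t 1 1 1 = true :=
  ⟨(l 5), by decide +kernel⟩

theorem c_pp_202_a : CertB 0 536870912 0 536870912 587336777 62277027 3 eng mog cd2q2a cd5q0 pd2 true true true .pp 2 0 2
    ndB2q2a ndB5q0 pcB2 Cut.none Ext.none :=
  certB0 (fam := true) (s1 := true) (s2 := true) (a := 2) (b := 0) (c := 2) (cn := .pp) (n1 := ndB2q2a) (n2 := ndB5q0) (pc := pcB2) (cut := Cut.none) (xt := Ext.none) (P1 := 0) (W1 := 536870912) (P2 := 0) (W2 := 536870912) (P3 := 587336777) (W3 := 62277027) (N0 := 3) (En := eng) (mo := mog) (C1 := cd2q2a) (C2 := cd5q0) (C3 := pd2)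
    rfl k0_pp_202_a

noncomputable def f_pp_202_b : ℕ → ℕ → ℕ → ℕ → Bool := onCell 1239849684 370763052 0 536870912 587336777 62277027
    (rowB 3 eng mog cd2q2b cd5q0 pd2 0 true true true .pp 2 0 2 (qsf 1239849684 370763052 0 536870912 2) ndB2q2b ndB5q0 pcB2 Cut.none Ext.none)

def k0_pp_202_b : ∃ t, chk3 f_pp_202_b t 1 1 1 = true :=
  ⟨(l 5), by decide +kernel⟩

theorem c_pp_202_b : CertB 1239849684 370763052 0 536870912 587336777 62277027 3 eng mog cd2q2b cd5q0 pd2 true true true .pp 2 0 2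
    ndB2q2b ndB5q0 pcB2 Cut.none Ext.none :=
  certB0 (fam := true) (s1 := true) (s2 := true) (a := 2) (b := 0) (c := 2) (cn := .pp) (n1 := ndB2q2b) (n2 := ndB5q0) (pc := pcB2) (cut := Cut.none) (xt := Ext.none) (P1 := 1239849684) (W1 := 370763052) (P2 := 0) (W2 := 536870912) (P3 := 587336777) (W3 := 62277027) (N0 := 3) (En := eng) (mo := mog) (C1 := cd2q2b) (C2 := cd5q0) (C3 := pd2)
    rfl k0_pp_202_b

noncomputable def f_pp_203_a : ℕ → ℕ → ℕ → ℕ → Bool := onCell 0 536870912 0 536870912 587336777 62277027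
    (rowB 3 eng mog cd2q2a cd5q0 pd3 0 true true true .up 2 0 3 (qsf 0 536870912 0 536870912 3) ndB2q2a ndB5q0 pcB3 Cut.none Ext.none)

def k0_pp_203_a : ∃ t, chk3 f_pp_203_a t 1 1 1 = true :=
  ⟨(l 5), by decide +kernel⟩

theorem c_pp_203_a : CertB 0 536870912 0 536870912 587336777 62277027 3 eng mog cd2q2a cd5q0 pd3 true true true .up 2 0 3
    ndB2q2a ndB5q0 pcB3 Cut.none Ext.none :=
  certB0 (fam := true) (s1 := true) (s2 := true) (a := 2) (b := 0) (c := 3) (cn := .up) (n1 := ndB2q2a) (n2 := ndB5q0) (pc := pcB3) (cut := Cut.none) (xt := Ext.none) (P1 := 0) (W1 := 536870912) (P2 := 0) (W2 := 536870912) (P3 := 587336777) (W3 := 62277027) (N0 := 3) (En := eng) (mo := mog) (C1 := cd2q2a) (C2 := cd5q0) (C3 := pd3)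
    rfl k0_pp_203_a

noncomputable def f_pp_203_b : ℕ → ℕ → ℕ → ℕ → Bool := onCell 1239849684 370763052 0 536870912 587336777 62277027
    (rowB 3 eng mog cd2q2b cd5q0 pd3 0 true true true .up 2 0 3 (qsf 1239849684 370763052 0 536870912 3) ndB2q2b ndB5q0 pcB3 Cut.none Ext.none)

def k0_pp_203_b : ∃ t, chk3 f_pp_203_b t 1 1 1 = true :=
  ⟨(l 5), by decide +kernel⟩

theorem c_pp_203_b : CertB 1239849684 370763052 0 536870912 587336777 62277027 3 eng mog cd2q2b cd5q0 pd3 true true true .up 2 0 3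
    ndB2q2b ndB5q0 pcB3 Cut.none Ext.none :=
  certB0 (fam := true) (s1 := true) (s2 := true) (a := 2) (b := 0) (c := 3) (cn := .up) (n1 := ndB2q2b) (n2 := ndB5q0) (pc := pcB3) (cut := Cut.none) (xt := Ext.none) (P1 := 1239849684) (W1 := 370763052) (P2 := 0) (W2 := 536870912) (P3 := 587336777) (W3 := 62277027) (N0 := 3) (En := eng) (mo := mog) (C1 := cd2q2b) (C2 := cd5q0) (C3 := pd3)
    rfl k0_pp_203_b

noncomputable def f_pp_213_a : ℕ → ℕ → ℕ → ℕ → Bool := onCell 0 536870912 536870912 536870912 587336777 62277027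
    (rowB 3 eng mog cd2q2a cd5q1 pd3 0 true true true .pnn 2 1 3 (qsf 0 536870912 536870912 536870912 3) ndB2q2a ndB5q1 pcB3 Cut.none Ext.none)

def k0_pp_213_a : ∃ t, chk3 f_pp_213_a t 1 1 1 = true :=
  ⟨(l 4), by decide +kernel⟩

theorem c_pp_213_a : CertB 0 536870912 536870912 536870912 587336777 62277027 3 eng mog cd2q2a cd5q1 pd3 true true true .pnn 2 1 3
    ndB2q2a ndB5q1 pcB3 Cut.none Ext.none :=
  certB0 (fam := true) (s1 := true) (s2 := true) (a := 2) (b := 1) (c := 3) (cn := .pnn) (n1 := ndB2q2a) (n2 := ndB5q1) (pc := pcB3) (cut := Cut.none) (xt := Ext.none) (P1 := 0) (W1 := 536870912) (P2 := 536870912) (W2 := 536870912) (P3 := 587336777) (W3 := 62277027) (N0 := 3) (En := eng) (mo := mog) (C1 := cd2q2a) (C2 := cd5q1) (C3 := pd3)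
    rfl k0_pp_213_a

noncomputable def f_pp_213_b : ℕ → ℕ → ℕ → ℕ → Bool := onCell 1239849684 370763052 536870912 536870912 587336777 62277027
    (rowB 3 eng mog cd2q2b cd5q1 pd3 0 true true true .pnn 2 1 3 (qsf 1239849684 370763052 536870912 536870912 3) ndB2q2b ndB5q1 pcB3 Cut.none Ext.none)

def k0_pp_213_b : ∃ t, chk3 f_pp_213_b t 1 1 1 = true :=
  ⟨(l 4), by decide +kernel⟩

theorem c_pp_213_b : CertB 1239849684 370763052 536870912 536870912 587336777 62277027 3 eng mog cd2q2b cd5q1 pd3 true true true .pnn 2 1 3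
    ndB2q2b ndB5q1 pcB3 Cut.none Ext.none :=
  certB0 (fam := true) (s1 := true) (s2 := true) (a := 2) (b := 1) (c := 3) (cn := .pnn) (n1 := ndB2q2b) (n2 := ndB5q1) (pc := pcB3) (cut := Cut.none) (xt := Ext.none) (P1 := 1239849684) (W1 := 370763052) (P2 := 536870912) (W2 := 536870912) (P3 := 587336777) (W3 := 62277027) (N0 := 3) (En := eng) (mo := mog) (C1 := cd2q2b) (C2 := cd5q1) (C3 := pd3)
    rfl k0_pp_213_b

noncomputable def f_pp_303 : ℕ → ℕ → ℕ → ℕ → Bool := onCell 1610612736 536870912 0 536870912 587336777 62277027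
    (rowB 3 eng mog cd2q3 cd5q0 pd3 0 true true true .npn 3 0 3 (qsf 1610612736 536870912 0 536870912 3) ndB2q3 ndB5q0 pcB3 Cut.none Ext.none)

def k0_pp_303 : ∃ t, chk3 f_pp_303 t 1 1 1 = true :=
  ⟨(l 4), by decide +kernel⟩

theorem c_pp_303 : CertB 1610612736 536870912 0 536870912 587336777 62277027 3 eng mog cd2q3 cd5q0 pd3 true true true .npn 3 0 3
    ndB2q3 ndB5q0 pcB3 Cut.none Ext.none :=
  certB0 (fam := true) (s1 := true) (s2 := true) (a := 3) (b := 0) (c := 3) (cn := .npn) (n1 := ndB2q3) (n2 := ndB5q0) (pc := pcB3) (cut := Cut.none) (xt := Ext.none) (P1 := 1610612736) (W1 := 536870912) (P2 := 0) (W2 := 536870912) (P3 := 587336777) (W3 := 62277027) (N0 := 3) (En := eng) (mo := mog) (C1 := cd2q3) (C2 := cd5q0) (C3 := pd3)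
    rfl k0_pp_303

noncomputable def f_pp_313 : ℕ → ℕ → ℕ → ℕ → Bool := onCell 1610612736 536870912 536870912 536870912 587336777 62277027
    (rowB 3 eng mog cd2q3 cd5q1 pd3 0 true true true .dn 3 1 3 (qsf 1610612736 536870912 536870912 536870912 3) ndB2q3 ndB5q1 pcB3 Cut.none Ext.none)

def k0_pp_313 : ∃ t, chk3 f_pp_313 t 1 1 1 = true :=
  ⟨(l 4), by decide +kernel⟩

theorem c_pp_313 : CertB 1610612736 536870912 536870912 536870912 587336777 62277027 3 eng mog cd2q3 cd5q1 pd3 true true true .dn 3 1 3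
    ndB2q3 ndB5q1 pcB3 Cut.none Ext.none :=
  certB0 (fam := true) (s1 := true) (s2 := true) (a := 3) (b := 1) (c := 3) (cn := .dn) (n1 := ndB2q3) (n2 := ndB5q1) (pc := pcB3) (cut := Cut.none) (xt := Ext.none) (P1 := 1610612736) (W1 := 536870912) (P2 := 536870912) (W2 := 536870912) (P3 := 587336777) (W3 := 62277027) (N0 := 3) (En := eng) (mo := mog) (C1 := cd2q3) (C2 := cd5q1) (C3 := pd3)
    rfl k0_pp_313

noncomputable def f_pm_001 : ℕ → ℕ → ℕ → ℕ → Bool := onCell 0 536870912 0 536870912 587336777 62277027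
    (rowB 3 eng mog cd2q0 cd5q0 pd1 0 true true false .up 0 0 1 (qsf 0 536870912 0 536870912 1) ndB2q0 ndB5q0 pcB1 Cut.none Ext.none)

def k0_pm_001 : ∃ t, chk3 f_pm_001 t 1 1 1 = true :=
  ⟨(a (l 3) (b (l 3) (l 3))), by decide +kernel⟩

theorem c_pm_001 : CertB 0 536870912 0 536870912 587336777 62277027 3 eng mog cd2q0 cd5q0 pd1 true true false .up 0 0 1
    ndB2q0 ndB5q0 pcB1 Cut.none Ext.none :=
  certB0 (fam := true) (s1 := true) (s2 := false) (a := 0) (b := 0) (c := 1) (cn := .up) (n1 := ndB2q0) (n2 := ndB5q0) (pc := pcB1) (cut := Cut.none) (xt := Ext.none) (P1 := 0) (W1 := 536870912) (P2 := 0) (W2 := 536870912) (P3 := 587336777) (W3 := 62277027) (N0 := 3) (En := eng) (mo := mog) (C1 := cd2q0) (C2 := cd5q0) (C3 := pd1)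
    rfl k0_pm_001

noncomputable def cut_pm_011 : Cut := Cut.of [[⟨0, 0, 0, 67108864⟩, ⟨1, 1, 0, 67108864⟩, ⟨2, 1, 0, 67108864⟩]]

noncomputable def f_pm_011 : ℕ → ℕ → ℕ → ℕ → Bool := onCell 0 536870912 536870912 536870912 587336777 62277027
    (rowB 3 eng mog cd2q0 cd5q1 pd1 1 true true false .pnn 0 1 1 (qsf 0 536870912 536870912 536870912 1) ndB2q0 ndB5q1 pcB1 cut_pm_011 Ext.none)

def k0_pm_011 : ∃ t, chk3 f_pm_011 t 1 1 1 = true :=
  ⟨(b (l 3) (b (l 3) (a (b (l 3) (a (b (l 3) (a (a (b (l 3) (l 6)) (l 3)) (l 3))) (l 3))) (l 3)))), by decide +kernel⟩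

theorem c_pm_011 : CertB 0 536870912 536870912 536870912 587336777 62277027 3 eng mog cd2q0 cd5q1 pd1 true true false .pnn 0 1 1
    ndB2q0 ndB5q1 pcB1 cut_pm_011 Ext.none :=
  certB1 (fam := true) (s1 := true) (s2 := false) (a := 0) (b := 1) (c := 1) (cn := .pnn) (n1 := ndB2q0) (n2 := ndB5q1) (pc := pcB1) (cut := cut_pm_011) (xt := Ext.none) (P1 := 0) (W1 := 536870912) (P2 := 536870912) (W2 := 536870912) (P3 := 587336777) (W3 := 62277027) (N0 := 3) (En := eng) (mo := mog) (C1 := cd2q0) (C2 := cd5q1) (C3 := pd1)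
    rfl (fun _ => rfl) k0_pm_011

noncomputable def cut_pm_012 : Cut := Cut.of [[⟨0, 0, 0, 67108864⟩, ⟨1, 1, 0, 67108864⟩, ⟨2, 1, 0, 67108864⟩]]

noncomputable def f_pm_012 : ℕ → ℕ → ℕ → ℕ → Bool := onCell 1073741824 536870912 536870912 536870912 587336777 62277027
    (rowB 3 eng mog cd2q0 cd5q1 pd2 2 true true false .pnp 0 1 2 (qsf 0 536870912 536870912 536870912 2) ndB2q0 ndB5q1 pcB2 cut_pm_012 Ext.none)

def k0_pm_012 : ∃ t, chk3 f_pm_012 t 4 1 1 = true :=
  ⟨(a (b (b (a (b (l 16385080) (l 16491232)) (b (l 16357128) (l 16388376))) (a (b (l 110762849191) (a (l 3) (l 16477032))) (b (l 16419448) (l 16488488)))) (b (a (b (a (l 3) (l 16600920)) (a (l 36137931911) (a (l 16675112) (l 16593264)))) (b (a (l 16488808) (l 16461976)) (a (l 16628912) (l 16489328)))) (a (b (a (b (l 16685496) (b (l 16686608) (l 16722400))) (b (l 16619672) (a (l 16658312) (l 16614056)))) (a (b (b (b (l 16712664) (l 16735912)) (a (l 6) (a (l 6) (l 16691120)))) (l 6)) (b (b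 (l 16698096) (a (l 16671856) (l 16646528))) (b (a (l 6) (l 16680720)) (l 6))))) (b (b (a (l 16556216) (l 16515272)) (a (l 16600720) (l 16535232))) (b (a (b (l 16597376) (l 16609224)) (b (l 16550696) (l 16560880))) (b (a (b (l 16618184) (l 16624200)) (l 16571168)) (a (b (l 16630248) (l 6)) (b (l 16578968) (l 16584200))))))))) (b (b (a (l 16581376) (l 16371208)) (a (b (l 16397408) (l 16411344)) (b (l 16381096) (l 16383328)))) (b (a (b (l 16425176) (b (l 16436360) (l 16446304))) (b (l 16383984) (b (l 16384216) (l 16386728)))) (b (a (b (l 16458160) (a (l 16492496) (l 16451928))) (b (l 16390720) (l 16396016))) (a (b (a (l 16530824) (l 16465512)) (b (a (l 16522800) (l 16476144)) (a (l 16552456) (l 16483104)))) (b (a (l 16423152) (l 16383328)) (b (l 16472200) (a (l 16436480) (l 16391616))))))))), by decide +kernel⟩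

def k1_pm_012 : ∃ t, chk3 f_pm_012 t 5 1 1 = true :=
  ⟨(b (a (b (a (a (l 16374840) (l 2)) (l 2)) (a (a (l 16371456) (a (l 16369072) (b (l 16382936) (l 16369608)))) (l 16371984))) (b (l 2) (l 16423296))) (b (a (a (a (b (l 16359856) (l 16350712)) (b (a (l 16350888) (l 16352352)) (a (l 16336512) (a (l 16330776) (l 16330288))))) (b (l 16339064) (l 16312544))) (b (l 16327880) (l 16284488))) (a (b (a (a (l 16346824) (a (l 16326608) (a (l 16317664) (a (l 16314000) (l 16312408))))) (b (l 16294480) (l 16282280))) (a (a (b (l 16346504) (l 16390008)) (a (b (l 16321056) (l 16318720)) (b (a (l 16309280) (l 16365776)) (a (l 16304840) (a (l 16298208) (l 16294048)))))) (b (l 16270120) (a (l 16274576) (l 16242728))))) (b (b (l 16251936) (l 16228512)) (b (l 16266768) (a (l 16201528) (l 16158224))))))), by decide +kernel⟩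

def k2_pm_012 : ∃ t, chk3 f_pm_012 t 3 1 1 = true :=
  ⟨(b (a (b (l 2) (a (l 16411560) (l 2))) (l 2)) (a (b (a (b (l 16338840) (l 16278952)) (b (l 16381848) (l 16311528))) (a (b (l 16214568) (b (l 16159008) (l 16181184))) (b (l 16233528) (a (l 16133896) (l 16148152))))) (b (a (l 16416872) (l 2)) (a (b (l 16289264) (l 16182224)) (l 16320552))))), by decide +kernel⟩

theorem s3_pm_012 : ∃ t, chk3 f_pm_012 t 2 1 1 = true := ex3_a k0_pm_012 k1_pm_012

theorem s4_pm_012 : ∃ t, chk3 f_pm_012 t 1 1 1 = true := ex3_a s3_pm_012 k2_pm_012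

theorem c_pm_012 : CertB 0 536870912 536870912 536870912 587336777 62277027 3 eng mog cd2q0 cd5q1 pd2 true true false .pnp 0 1 2
    ndB2q0 ndB5q1 pcB2 cut_pm_012 Ext.none :=
  certB2 (fam := true) (s1 := true) (s2 := false) (a := 0) (b := 1) (c := 2) (cn := .pnp) (n1 := ndB2q0) (n2 := ndB5q1) (pc := pcB2) (cut := cut_pm_012) (xt := Ext.none) (P1 := 0) (W1 := 536870912) (P2 := 536870912) (W2 := 536870912) (P3 := 587336777) (W3 := 62277027) (N0 := 3) (En := eng) (mo := mog) (C1 := cd2q0) (C2 := cd5q1) (C3 := pd2)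
    rfl (fun _ => rfl) s4_pm_012

noncomputable def f_pm_022 : ℕ → ℕ → ℕ → ℕ → Bool := onCell 0 536870912 1073741824 536870912 587336777 62277027
    (rowB 3 eng mog cd2q0 cd5q2 pd2 1 true true false .pp 0 2 2 (qsf 0 536870912 1073741824 536870912 2) ndB2q0 ndB5q2 pcB2 Cut.none Ext.none)

def k0_pm_022 : ∃ t, chk3 f_pm_022 t 2 2 1 = true :=
  ⟨(b (b (l 3) (b (l 3) (b (l 3) (b (l 3) (b (a (l 3) (l 1)) (a (a (a (a (l 16521000) (l 16532496)) (l 16548864)) (l 16577264)) (a (l 361347319047) (l 1)))))))) (a (b (b (b (a (b (a (b (a (l 16513096) (l 16524552)) (a (l 16515768) (l 16516736))) (b (l 16540880) (a (l 16527744) (l 16538232)))) (a (a (l 16494008) (l 16505456)) (l 16521776))) (b (b (l 16569616) (l 16561840)) (l 16550464))) (b (a (a (b (l 16488432) (l 16480760)) (b (l 16510344) (l 16502624))) (a (l 16526160) (l 16542920))) (b (a (a (l 16473128) (l 16494936)) (l 16523528)) (a (b (a (b (l 16468416) (l 16466560)) (c (l 16491888) (l 16485704))) (a (b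 (b (b (l 16465400) (b (l 16465056) (l 16464824))) (l 16464248)) (l 16462872)) (c (l 16551456) (l 16544528)))) (b (l 16580728) (a (l 16505096) (l 16522200))))))) (a (a (a (b (l 16441624) (l 16413416)) (l 16438312)) (l 16454336)) (l 16482784))) (b (a (a (a (l 16376424) (l 16384840)) (a (l 16393176) (l 16402200))) (l 16425320)) (a (a (l 16340568) (l 16540760)) (l 16392264)))) (a (b (b (b (a (b (b (l 16713648) (l 238403851927)) (l 222297707799)) (l 1)) (b (b (l 243772521719) (l 222834560599)) (b (l 184716755095) (b (a (l 16540360) (l 1)) (a (l 16536728) (l 272763645271)))))) (l 81637563959)) (l 16533336)) (b (b (l 1) (l 309270791991)) (b (l 246456757527) (l 16438768)))))), by decide +kernel⟩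

def k1_pm_022 : ∃ t, chk3 f_pm_022 t 2 3 1 = true :=
  ⟨(b (a (a (b (a (b (l 16310976) (l 16292792)) (l 16309104)) (a (b (a (l 16285816) (l 16287992)) (a (l 16302568) (l 16297528))) (b (l 16291064) (l 16294120)))) (b (a (a (l 16311072) (l 16289656)) (l 16333448)) (l 16287008))) (b (a (l 16489208) (l 16367008)) (a (a (l 16267688) (l 16252192)) (l 16261648)))) (a (b (a (a (b (l 16331560) (l 16367936)) (b (l 16312664) (l 16342576))) (b (l 16294848) (l 16309768))) (a (a (b (l 16408296) (l 16449976)) (l 16397936)) (b (l 16336360) (l 16372312)))) (b (a (l 16268688) (l 16202840)) (a (l 16300536) (l 16231232))))), by decide +kernel⟩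

def k2_pm_022 : ∃ t, chk3 f_pm_022 t 3 1 1 = true :=
  ⟨(b (b (l 1) (b (l 1) (a (a (l 336114145751) (l 1)) (l 1)))) (b (a (b (a (l 172905298791) (l 287259118391)) (a (l 16322328) (l 16363256))) (b (l 1) (l 331819048023))) (a (b (a (l 16238128) (l 16301888)) (a (l 16158080) (l 16248096))) (b (l 140156554807) (l 16342344))))), by decide +kernel⟩

theorem s3_pm_022 : ∃ t, chk3 f_pm_022 t 2 1 1 = true := ex3_b k0_pm_022 k1_pm_022

theorem s4_pm_022 : ∃ t, chk3 f_pm_022 t 1 1 1 = true := ex3_a s3_pm_022 k2_pm_022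

theorem c_pm_022 : CertB 0 536870912 1073741824 536870912 587336777 62277027 3 eng mog cd2q0 cd5q2 pd2 true true false .pp 0 2 2
    ndB2q0 ndB5q2 pcB2 Cut.none Ext.none :=
  certB1 (fam := true) (s1 := true) (s2 := false) (a := 0) (b := 2) (c := 2) (cn := .pp) (n1 := ndB2q0) (n2 := ndB5q2) (pc := pcB2) (cut := Cut.none) (xt := Ext.none) (P1 := 0) (W1 := 536870912) (P2 := 1073741824) (W2 := 536870912) (P3 := 587336777) (W3 := 62277027) (N0 := 3) (En := eng) (mo := mog) (C1 := cd2q0) (C2 := cd5q2) (C3 := pd2)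
    rfl (fun _ => rfl) s4_pm_022

noncomputable def f_pm_023 : ℕ → ℕ → ℕ → ℕ → Bool := onCell 1610612736 536870912 1073741824 536870912 587336777 62277027
    (rowB 3 eng mog cd2q0 cd5q2 pd3 2 true true false .up 0 2 3 (qsf 0 536870912 1073741824 536870912 3) ndB2q0 ndB5q2 pcB3 Cut.none Ext.none)

def k0_pm_023 : ∃ t, chk3 f_pm_023 t 1 1 1 = true :=
  ⟨(a (a (b (b (a (l 16416120) (l 16499800)) (a (b (l 16300728) (l 16315736)) (a (l 16314880) (l 16354560)))) (a (b (a (b (l 16191608) (l 16280272)) (l 16224672)) (a (b (l 16351768) (a (l 16436648) (l 16406808))) (b (l 16354104) (l 16413872)))) (a (b (l 16199392) (l 16404632)) (b (l 16236816) (l 16425640))))) (b (a (b (l 16589760) (l 16453680)) (b (l 2) (l 16558296))) (a (b (l 16373688) (a (l 16445640) (l 16489304))) (b (l 16509848) (l 16550832))))) (b (a (b (l 2) (b (l 2) (l 16616232))) (l 2)) (a (b (a (l 16596384) (l 16641968)) (a (l 16623264) (l 16681776))) (a (b (l 16665576) (l 16775528)) (a (l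 118212659127) (a (l 216996922631) (b (l 2) (l 4)))))))), by decide +kernel⟩

theorem c_pm_023 : CertB 0 536870912 1073741824 536870912 587336777 62277027 3 eng mog cd2q0 cd5q2 pd3 true true false .up 0 2 3
    ndB2q0 ndB5q2 pcB3 Cut.none Ext.none :=
  certB2 (fam := true) (s1 := true) (s2 := false) (a := 0) (b := 2) (c := 3) (cn := .up) (n1 := ndB2q0) (n2 := ndB5q2) (pc := pcB3) (cut := Cut.none) (xt := Ext.none) (P1 := 0) (W1 := 536870912) (P2 := 1073741824) (W2 := 536870912) (P3 := 587336777) (W3 := 62277027) (N0 := 3) (En := eng) (mo := mog) (C1 := cd2q0) (C2 := cd5q2) (C3 := pd3)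
    rfl (fun _ => rfl) k0_pm_023

noncomputable def f_pm_033 : ℕ → ℕ → ℕ → ℕ → Bool := onCell 1610612736 536870912 0 1230186008 587336777 62277027
    (rowB 3 eng mog cd2q0 cd5q3 pd3 2 true true false .pnn 0 3 3 (qsf 0 536870912 0 1230186008 3) ndB2q0 ndB5q3 pcB3 Cut.none Ext.none)

def k0_pm_033 : ∃ t, chk3 f_pm_033 t 1 1 1 = true :=
  ⟨(a (b (l 1) (b (a (l 1) (a (l 1) (b (l 1) (b (l 1) (l 513818726823))))) (b (a (l 1) (a (a (b (l 1) (a (l 455299425735) (l 266857628935))) (b (l 487511681943) (l 253435975127))) (b (a (l 234108575031) (l 16488864)) (a (l 16490896) (l 16513440))))) (a (b (a (l 1) (a (b (l 1) (l 397317229927)) (b (b (l 392485507543) (l 378526767751)) (b (l 16422288) (l 16414328))))) (a (b (a (l 1) (l 400538375367)) (a (b (a (l 1) (b (l 383895644167) (l 389264392007))) (a (c (l 361884088375) (l 408054814807)) (c (l 16506944) (l 16423640)))) (b (b (l 16330520) (l 16369424)) (l 16474680)))) (a (b (l 16360760) (b (l 16372096) (l 16499312)))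 (b (l 16399112) (l 16466984))))) (a (b (b (a (b (a (l 16459024) (l 16469200)) (l 16460072)) (l 16483984)) (a (l 16451976) (l 16477360))) (b (a (l 16436904) (l 16467544)) (a (l 16497552) (l 16525528)))) (b (b (a (l 16506200) (l 16529904)) (l 16518760)) (b (l 16518064) (l 16569840)))))))) (a (b (l 1) (b (a (b (l 1) (a (l 126198018855) (l 16526944))) (a (b (l 16536216) (l 16553936)) (b (l 16548960) (l 16573920)))) (b (a (b (l 16535632) (l 16559424)) (a (l 16594144) (l 16622624))) (b (a (b (l 16579496) (l 16586128)) (a (l 16633672) (l 16665536))) (a (b (l 16590288) (l 16632104)) (b (l 16658016) (l 16692360))))))) (b (b (l 4) (l 4)) (b (a (a (b (l 4) (l 16590088)) (l 4)) (l 4)) (b (a (a (l 16646472) (l 16664832)) (l 4)) (a (b (a (l 16692832) (l 16712160)) (b (l 16712304) (l 16746632))) (a (b (l 4) (l 16756664)) (l 4)))))))), by decide +kernel⟩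

theorem c_pm_033 : CertB 0 536870912 0 1230186008 587336777 62277027 3 eng mog cd2q0 cd5q3 pd3 true true false .pnn 0 3 3
    ndB2q0 ndB5q3 pcB3 Cut.none Ext.none :=
  certB2 (fam := true) (s1 := true) (s2 := false) (a := 0) (b := 3) (c := 3) (cn := .pnn) (n1 := ndB2q0) (n2 := ndB5q3) (pc := pcB3) (cut := Cut.none) (xt := Ext.none) (P1 := 0) (W1 := 536870912) (P2 := 0) (W2 := 1230186008) (P3 := 587336777) (W3 := 62277027) (N0 := 3) (En := eng) (mo := mog) (C1 := cd2q0) (C2 := cd5q3) (C3 := pd3)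
    rfl (fun _ => rfl) k0_pm_033

noncomputable def f_pm_101 : ℕ → ℕ → ℕ → ℕ → Bool := onCell 536870912 536870912 0 536870912 587336777 62277027
    (rowB 3 eng mog cd2q1 cd5q0 pd1 2 true true false .npn 1 0 1 (qsf 536870912 536870912 0 536870912 1) ndB2q1 ndB5q0 pcB1 Cut.none Ext.none)

def k0_pm_101 : ∃ t, chk3 f_pm_101 t 1 1 1 = true :=
  ⟨(a (l 3) (a (l 3) (b (b (l 3) (l 3)) (l 3)))), by decide +kernel⟩

theorem c_pm_101 : CertB 536870912 536870912 0 536870912 587336777 62277027 3 eng mog cd2q1 cd5q0 pd1 true true false .npn 1 0 1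
    ndB2q1 ndB5q0 pcB1 Cut.none Ext.none :=
  certB2 (fam := true) (s1 := true) (s2 := false) (a := 1) (b := 0) (c := 1) (cn := .npn) (n1 := ndB2q1) (n2 := ndB5q0) (pc := pcB1) (cut := Cut.none) (xt := Ext.none) (P1 := 536870912) (W1 := 536870912) (P2 := 0) (W2 := 536870912) (P3 := 587336777) (W3 := 62277027) (N0 := 3) (En := eng) (mo := mog) (C1 := cd2q1) (C2 := cd5q0) (C3 := pd1)
    rfl (fun _ => rfl) k0_pm_101

noncomputable def f_pm_102 : ℕ → ℕ → ℕ → ℕ → Bool := onCell 1073741824 536870912 0 536870912 587336777 62277027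
    (rowB 3 eng mog cd2q1 cd5q0 pd2 2 true true false .npp 1 0 2 (qsf 536870912 536870912 0 536870912 2) ndB2q1 ndB5q0 pcB2 Cut.none Ext.none)

def k0_pm_102 : ∃ t, chk3 f_pm_102 t 2 1 1 = true :=
  ⟨(b (a (a (b (a (b (a (b (l 16667880) (l 16653408)) (b (l 16639216) (l 16656712))) (a (l 16636240) (b (l 16628624) (l 16610320)))) (b (b (a (l 16611360) (l 2)) (l 16620040)) (b (l 16643392) (l 16635696)))) (a (b (a (l 3) (l 16582184)) (b (l 131164007127) (l 127942730999))) (b (a (l 16577320) (l 16601152)) (a (l 16528256) (l 16530696))))) (b (b (a (b (l 2) (l 16569616)) (l 2)) (a (b (l 16593920) (l 16623992)) (b (l 16550672) (l 16576336)))) (b (a (l 16629056) (l 16619792)) (a (l 16579720) (l 16617664))))) (b (a (b (l 2) (a (a (l 16536328) (l 2)) (l 2))) (l 2)) (a (a (b (a (l 16596952) (l 16766840)) (a (l 16625256) (l 16625312))) (b (l 16548768) (l 16617256))) (b (b (l 2) (l 16517920)) (l 16587824))))) (a (b (a (b (a (a (l 3) (l 127405798727)) (l 16552384))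 (a (b (l 16423328) (l 142975046567)) (b (l 16416952) (l 16380096)))) (b (a (l 16508056) (l 16572864)) (b (l 16499472) (a (l 16428176) (l 16500808))))) (a (b (a (b (l 16451848) (l 16256016)) (b (l 16328464) (l 16327928))) (a (b (l 16306856) (l 16354528)) (b (l 16346248) (l 16369072)))) (b (a (b (l 16405696) (l 16393536)) (l 16460232)) (a (b (l 16389912) (l 16392608)) (l 16424792))))) (b (b (a (a (a (l 16602576) (l 16619888)) (l 16631288)) (l 16641472)) (a (a (a (l 16556888) (a (l 16574808) (l 16736920))) (l 16610696)) (l 16651712))) (b (a (a (a (l 16500488) (l 16703912)) (l 16564600)) (l 16627040)) (a (a (a (l 16452328) (l 16652424)) (l 16508224)) (l 16574696)))))), by decide +kernel⟩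

def k1_pm_102 : ∃ t, chk3 f_pm_102 t 3 1 1 = true :=
  ⟨(b (a (b (l 2) (a (b (l 2) (l 16783304)) (l 2))) (l 2)) (b (a (b (a (l 16634136) (l 16628928)) (a (l 16680416) (l 16697600))) (b (l 2) (a (l 16705632) (l 2)))) (a (b (a (l 16691664) (l 16748808)) (a (l 16663064) (l 16759016))) (b (a (l 16785128) (l 16833296)) (a (l 16858312) (l 16960040)))))), by decide +kernel⟩

theorem s2_pm_102 : ∃ t, chk3 f_pm_102 t 1 1 1 = true := ex3_a k0_pm_102 k1_pm_102

theorem c_pm_102 : CertB 536870912 536870912 0 536870912 587336777 62277027 3 eng mog cd2q1 cd5q0 pd2 true true false .npp 1 0 2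
    ndB2q1 ndB5q0 pcB2 Cut.none Ext.none :=
  certB2 (fam := true) (s1 := true) (s2 := false) (a := 1) (b := 0) (c := 2) (cn := .npp) (n1 := ndB2q1) (n2 := ndB5q0) (pc := pcB2) (cut := Cut.none) (xt := Ext.none) (P1 := 536870912) (W1 := 536870912) (P2 := 0) (W2 := 536870912) (P3 := 587336777) (W3 := 62277027) (N0 := 3) (En := eng) (mo := mog) (C1 := cd2q1) (C2 := cd5q0) (C3 := pd2)
    rfl (fun _ => rfl) s2_pm_102

noncomputable def f_pm_112 : ℕ → ℕ → ℕ → ℕ → Bool := onCell 536870912 536870912 1073741824 536870912 587336777 62277027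
    (rowB 3 eng mog cd2q1 cd5q1 pd2 1 true true false .dn 1 1 2 (qsf 536870912 536870912 536870912 536870912 2) ndB2q1 ndB5q1 pcB2 Cut.none Ext.none)

def k0_pm_112 : ∃ t, chk3 f_pm_112 t 1 1 1 = true :=
  ⟨(a (b (b (b (a (b (a (l 16383968) (l 1)) (b (l 16381304) (l 16391360))) (l 1)) (a (b (l 16399720) (l 16406536)) (b (l 1) (l 16442896)))) (b (a (b (b (l 16409616) (b (l 16411952) (l 16422104))) (l 16421704)) (b (b (l 16454848) (l 16558744)) (l 16482176))) (a (l 16427824) (l 16511520)))) (b (a (b (l 16427256) (l 16431800)) (b (l 16544496) (l 16586200))) (a (a (l 16404440) (l 16511992)) (l 16689992)))) (b (b (l 1) (b (l 1) (a (l 16591536) (l 1)))) (b (a (l 16682688) (l 416108838743)) (a (l 16892784) (l 16963248))))), by decide +kernel⟩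

theorem c_pm_112 : CertB 536870912 536870912 536870912 536870912 587336777 62277027 3 eng mog cd2q1 cd5q1 pd2 true true false .dn 1 1 2
    ndB2q1 ndB5q1 pcB2 Cut.none Ext.none :=
  certB1 (fam := true) (s1 := true) (s2 := false) (a := 1) (b := 1) (c := 2) (cn := .dn) (n1 := ndB2q1) (n2 := ndB5q1) (pc := pcB2) (cut := Cut.none) (xt := Ext.none) (P1 := 536870912) (W1 := 536870912) (P2 := 536870912) (W2 := 536870912) (P3 := 587336777) (W3 := 62277027) (N0 := 3) (En := eng) (mo := mog) (C1 := cd2q1) (C2 := cd5q1) (C3 := pd2)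
    rfl (fun _ => rfl) k0_pm_112

noncomputable def f_pm_113 : ℕ → ℕ → ℕ → ℕ → Bool := onCell 536870912 536870912 1610612736 536870912 587336777 62277027
    (rowB 3 eng mog cd2q1 cd5q1 pd3 1 true true false .nn 1 1 3 (qsf 536870912 536870912 536870912 536870912 3) ndB2q1 ndB5q1 pcB3 Cut.none Ext.none)

def k0_pm_113 : ∃ t, chk3 f_pm_113 t 1 1 1 = true :=
  ⟨(a (b (b (b (a (b (l 16456824) (l 16409672)) (b (l 16754056) (l 16684984))) (b (l 267998418855) (l 278735899063))) (b (a (l 352823838615) (b (l 16670256) (l 16647872))) (a (l 2) (l 16620808)))) (b (b (a (l 2) (l 16603736)) (l 2)) (l 2))) (b (b (b (a (b (l 16949712) (l 16869040)) (l 17096120)) (b (l 16926224) (l 16898704))) (b (a (l 16797312) (l 16903608)) (a (l 16750096) (l 16836152)))) (b (b (a (l 16721592) (l 16776888)) (a (l 16695376) (l 16719816))) (b (a (l 16662952) (l 4)) (l 4))))), by decide +kernel⟩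

theorem c_pm_113 : CertB 536870912 536870912 536870912 536870912 587336777 62277027 3 eng mog cd2q1 cd5q1 pd3 true true false .nn 1 1 3
    ndB2q1 ndB5q1 pcB3 Cut.none Ext.none :=
  certB1 (fam := true) (s1 := true) (s2 := false) (a := 1) (b := 1) (c := 3) (cn := .nn) (n1 := ndB2q1) (n2 := ndB5q1) (pc := pcB3) (cut := Cut.none) (xt := Ext.none) (P1 := 536870912) (W1 := 536870912) (P2 := 536870912) (W2 := 536870912) (P3 := 587336777) (W3 := 62277027) (N0 := 3) (En := eng) (mo := mog) (C1 := cd2q1) (C2 := cd5q1) (C3 := pd3)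
    rfl (fun _ => rfl) k0_pm_113

noncomputable def f_pm_123 : ℕ → ℕ → ℕ → ℕ → Bool := onCell 536870912 536870912 1610612736 536870912 587336777 62277027
    (rowB 3 eng mog cd2q1 cd5q2 pd3 1 true true false .npn 1 2 3 (qsf 536870912 536870912 1073741824 536870912 3) ndB2q1 ndB5q2 pcB3 Cut.none Ext.none)

def k0_pm_123 : ∃ t, chk3 f_pm_123 t 1 1 1 = true :=
  ⟨(a (b (b (a (l 141767485495) (b (l 1) (l 336115352023))) (b (a (l 16674392) (l 16909432)) (a (l 16666504) (l 16840896)))) (b (a (b (l 16648264) (l 16657240)) (b (l 16775016) (a (l 16701384) (l 16747072)))) (b (a (l 16832704) (l 16949104)) (b (a (l 16762960) (l 16704872)) (b (l 16905096) (b (l 16773112) (a (l 4) (l 4)))))))) (b (a (b (l 1) (l 260953891351)) (l 1)) (a (b (b (l 16949912) (l 16859856)) (b (l 16768536) (b (l 16714808) (b (l 16893064) (b (l 16707864) (b (l 16713424) (l 16718944))))))) (b (l 244310807031) (b (l 16877440) (b (l 16803568) (b (l 16766048) (b (l 16747104) (b (l 16737568)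 (a (l 16730792) (l 16749544))))))))))), by decide +kernel⟩

theorem c_pm_123 : CertB 536870912 536870912 1073741824 536870912 587336777 62277027 3 eng mog cd2q1 cd5q2 pd3 true true false .npn 1 2 3
    ndB2q1 ndB5q2 pcB3 Cut.none Ext.none :=
  certB1 (fam := true) (s1 := true) (s2 := false) (a := 1) (b := 2) (c := 3) (cn := .npn) (n1 := ndB2q1) (n2 := ndB5q2) (pc := pcB3) (cut := Cut.none) (xt := Ext.none) (P1 := 536870912) (W1 := 536870912) (P2 := 1073741824) (W2 := 536870912) (P3 := 587336777) (W3 := 62277027) (N0 := 3) (En := eng) (mo := mog) (C1 := cd2q1) (C2 := cd5q2) (C3 := pd3)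
    rfl (fun _ => rfl) k0_pm_123

noncomputable def f_pm_133 : ℕ → ℕ → ℕ → ℕ → Bool := onCell 536870912 536870912 0 1230186008 587336777 62277027
    (rowB 3 eng mog cd2q1 cd5q3 pd3 0 true true false .dn 1 3 3 (qsf 536870912 536870912 0 1230186008 3) ndB2q1 ndB5q3 pcB3 Cut.none Ext.none)

def k0_pm_133 : ∃ t, chk3 f_pm_133 t 1 1 1 = true :=
  ⟨(b (l 2) (b (l 2) (a (l 4) (l 2)))), by decide +kernel⟩

theorem c_pm_133 : CertB 536870912 536870912 0 1230186008 587336777 62277027 3 eng mog cd2q1 cd5q3 pd3 true true false .dn 1 3 3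
    ndB2q1 ndB5q3 pcB3 Cut.none Ext.none :=
  certB0 (fam := true) (s1 := true) (s2 := false) (a := 1) (b := 3) (c := 3) (cn := .dn) (n1 := ndB2q1) (n2 := ndB5q3) (pc := pcB3) (cut := Cut.none) (xt := Ext.none) (P1 := 536870912) (W1 := 536870912) (P2 := 0) (W2 := 1230186008) (P3 := 587336777) (W3 := 62277027) (N0 := 3) (En := eng) (mo := mog) (C1 := cd2q1) (C2 := cd5q3) (C3 := pd3)
    rfl k0_pm_133

noncomputable def f_pm_202_a : ℕ → ℕ → ℕ → ℕ → Bool := onCell 0 536870912 0 536870912 587336777 62277027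
    (rowB 3 eng mog cd2q2a cd5q0 pd2 0 true true false .pp 2 0 2 (qsf 0 536870912 0 536870912 2) ndB2q2a ndB5q0 pcB2 Cut.none Ext.none)

def k0_pm_202_a : ∃ t, chk3 f_pm_202_a t 1 1 1 = true :=
  ⟨(a (b (b (b (a (b (a (l 16499008) (l 16503520)) (a (l 16521624) (l 16522232))) (b (a (l 16512160) (l 16525376)) (a (l 16525848) (l 16532072)))) (a (b (l 16547032) (l 16573560)) (b (l 16546960) (l 16567248)))) (b (a (b (l 16601264) (l 16629696)) (a (l 16605560) (l 16599488))) (a (l 16924152) (b (l 16642376) (l 16670448))))) (b (b (a (b (l 16711856) (l 16735432)) (b (l 16698240) (l 16725784))) (a (l 4) (b (l 16752992) (l 16779448)))) (b (a (l 2) (b (l 16805216) (l 2))) (l 2)))) (b (b (a (b (a (b (l 16542968) (l 16541624)) (b (l 16564776) (l 16555656))) (a (l 16557440) (b (l 16554880) (l 16564440)))) (b (a (b (b (l 16597408) (l 16586696)) (l 16574448)) (a (b (b (l 16624088) (l 16610376)) (l 16593888)) (b (a (b (l 16638408) (l 16624112)) (l 16641904)) (l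 16611048)))) (a (b (l 16565848) (l 16567488)) (b (a (l 16580704) (l 16595824)) (l 16584736))))) (a (b (l 16592704) (a (b (l 16630232) (l 16658424)) (l 16638296))) (b (a (l 16589240) (b (a (l 16587120) (l 16600592)) (l 16612984))) (a (l 16638056) (l 16654816))))) (b (b (a (a (l 16703032) (l 16700696)) (a (l 16706528) (b (l 16709920) (l 16754064)))) (a (b (l 16750696) (l 16785944)) (b (a (l 16763632) (l 16799536)) (a (l 16801888) (l 16843376))))) (a (b (b (l 16827200) (l 16876264)) (l 2)) (b (a (l 16881712) (l 16928504)) (a (l 16896928) (l 16953704))))))), by decide +kernel⟩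

theorem c_pm_202_a : CertB 0 536870912 0 536870912 587336777 62277027 3 eng mog cd2q2a cd5q0 pd2 true true false .pp 2 0 2
    ndB2q2a ndB5q0 pcB2 Cut.none Ext.none :=
  certB0 (fam := true) (s1 := true) (s2 := false) (a := 2) (b := 0) (c := 2) (cn := .pp) (n1 := ndB2q2a) (n2 := ndB5q0) (pc := pcB2) (cut := Cut.none) (xt := Ext.none) (P1 := 0) (W1 := 536870912) (P2 := 0) (W2 := 536870912) (P3 := 587336777) (W3 := 62277027) (N0 := 3) (En := eng) (mo := mog) (C1 := cd2q2a) (C2 := cd5q0) (C3 := pd2)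
    rfl k0_pm_202_a

noncomputable def f_pm_202_b : ℕ → ℕ → ℕ → ℕ → Bool := onCell 1073741824 536870912 0 536870912 587336777 62277027
    (rowB 3 eng mog cd2q2b cd5q0 pd2 2 true true false .pp 2 0 2 (qsf 1239849684 370763052 0 536870912 2) ndB2q2b ndB5q0 pcB2 Cut.none Ext.none)

def k0_pm_202_b : ∃ t, chk3 f_pm_202_b t 1 1 1 = true :=
  ⟨(a (b (a (l 1) (b (a (b (b (a (l 355441645975) (l 16496600)) (a (l 1) (l 424698094087))) (l 1)) (b (b (a (l 16467992) (l 16434992)) (l 16509736)) (a (l 504155013287) (l 16570416)))) (l 1))) (l 1)) (a (b (b (a (b (a (l 16433824) (l 16393912)) (l 280816596375)) (b (l 16314680) (l 16493128))) (a (b (l 509523977895) (l 1)) (b (a (l 16617512) (l 16605584)) (a (l 548178391943) (l 16680232))))) (l 1)) (b (a (b (l 16282568) (b (l 16574808) (l 264912088471))) (b (l 16269536) (l 4))) (l 4)))), by decide +kernel⟩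

theorem c_pm_202_b : CertB 1239849684 370763052 0 536870912 587336777 62277027 3 eng mog cd2q2b cd5q0 pd2 true true false .pp 2 0 2
    ndB2q2b ndB5q0 pcB2 Cut.none Ext.none :=
  certB2 (fam := true) (s1 := true) (s2 := false) (a := 2) (b := 0) (c := 2) (cn := .pp) (n1 := ndB2q2b) (n2 := ndB5q0) (pc := pcB2) (cut := Cut.none) (xt := Ext.none) (P1 := 1239849684) (W1 := 370763052) (P2 := 0) (W2 := 536870912) (P3 := 587336777) (W3 := 62277027) (N0 := 3) (En := eng) (mo := mog) (C1 := cd2q2b) (C2 := cd5q0) (C3 := pd2)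
    rfl (fun _ => rfl) k0_pm_202_b

noncomputable def f_pm_203_a : ℕ → ℕ → ℕ → ℕ → Bool := onCell 0 536870912 1610612736 536870912 587336777 62277027
    (rowB 3 eng mog cd2q2a cd5q0 pd3 1 true true false .up 2 0 3 (qsf 0 536870912 0 536870912 3) ndB2q2a ndB5q0 pcB3 Cut.none Ext.none)

def k0_pm_203_a : ∃ t, chk3 f_pm_203_a t 1 1 1 = true :=
  ⟨(b (a (b (b (a (l 4) (b (l 16798864) (l 4))) (l 4)) (l 4)) (a (b (b (b (l 16874776) (l 16824992)) (b (l 16777872) (l 4))) (l 2)) (b (b (a (l 16876528) (l 16887992)) (l 16806888)) (l 2)))) (l 2)), by decide +kernel⟩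

theorem c_pm_203_a : CertB 0 536870912 0 536870912 587336777 62277027 3 eng mog cd2q2a cd5q0 pd3 true true false .up 2 0 3
    ndB2q2a ndB5q0 pcB3 Cut.none Ext.none :=
  certB1 (fam := true) (s1 := true) (s2 := false) (a := 2) (b := 0) (c := 3) (cn := .up) (n1 := ndB2q2a) (n2 := ndB5q0) (pc := pcB3) (cut := Cut.none) (xt := Ext.none) (P1 := 0) (W1 := 536870912) (P2 := 0) (W2 := 536870912) (P3 := 587336777) (W3 := 62277027) (N0 := 3) (En := eng) (mo := mog) (C1 := cd2q2a) (C2 := cd5q0) (C3 := pd3)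
    rfl (fun _ => rfl) k0_pm_203_a

noncomputable def f_pm_203_b : ℕ → ℕ → ℕ → ℕ → Bool := onCell 1239849684 370763052 1610612736 536870912 587336777 62277027
    (rowB 3 eng mog cd2q2b cd5q0 pd3 1 true true false .up 2 0 3 (qsf 1239849684 370763052 0 536870912 3) ndB2q2b ndB5q0 pcB3 Cut.none Ext.none)

def k0_pm_203_b : ∃ t, chk3 f_pm_203_b t 1 1 1 = true :=
  ⟨(b (a (l 4) (b (b (a (l 4) (l 16322440)) (l 4)) (l 4))) (l 4)), by decide +kernel⟩

theorem c_pm_203_b : CertB 1239849684 370763052 0 536870912 587336777 62277027 3 eng mog cd2q2b cd5q0 pd3 true true false .up 2 0 3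
    ndB2q2b ndB5q0 pcB3 Cut.none Ext.none :=
  certB1 (fam := true) (s1 := true) (s2 := false) (a := 2) (b := 0) (c := 3) (cn := .up) (n1 := ndB2q2b) (n2 := ndB5q0) (pc := pcB3) (cut := Cut.none) (xt := Ext.none) (P1 := 1239849684) (W1 := 370763052) (P2 := 0) (W2 := 536870912) (P3 := 587336777) (W3 := 62277027) (N0 := 3) (En := eng) (mo := mog) (C1 := cd2q2b) (C2 := cd5q0) (C3 := pd3)
    rfl (fun _ => rfl) k0_pm_203_b

noncomputable def f_pm_213_a : ℕ → ℕ → ℕ → ℕ → Bool := onCell 0 536870912 1610612736 536870912 587336777 62277027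
    (rowB 3 eng mog cd2q2a cd5q1 pd3 1 true true false .pnn 2 1 3 (qsf 0 536870912 536870912 536870912 3) ndB2q2a ndB5q1 pcB3 Cut.none Ext.none)

def k0_pm_213_a : ∃ t, chk3 f_pm_213_a t 1 1 1 = true :=
  ⟨(b (b (a (b (l 1) (l 4)) (b (a (l 1) (l 16843688)) (l 16982896))) (a (l 4) (b (a (l 4) (l 16759504)) (l 4)))) (l 4)), by decide +kernel⟩

theorem c_pm_213_a : CertB 0 536870912 536870912 536870912 587336777 62277027 3 eng mog cd2q2a cd5q1 pd3 true true false .pnn 2 1 3
    ndB2q2a ndB5q1 pcB3 Cut.none Ext.none :=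
  certB1 (fam := true) (s1 := true) (s2 := false) (a := 2) (b := 1) (c := 3) (cn := .pnn) (n1 := ndB2q2a) (n2 := ndB5q1) (pc := pcB3) (cut := Cut.none) (xt := Ext.none) (P1 := 0) (W1 := 536870912) (P2 := 536870912) (W2 := 536870912) (P3 := 587336777) (W3 := 62277027) (N0 := 3) (En := eng) (mo := mog) (C1 := cd2q2a) (C2 := cd5q1) (C3 := pd3)
    rfl (fun _ => rfl) k0_pm_213_a

noncomputable def f_pm_213_b : ℕ → ℕ → ℕ → ℕ → Bool := onCell 1239849684 370763052 536870912 536870912 587336777 62277027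
    (rowB 3 eng mog cd2q2b cd5q1 pd3 0 true true false .pnn 2 1 3 (qsf 1239849684 370763052 536870912 536870912 3) ndB2q2b ndB5q1 pcB3 Cut.none Ext.none)

def k0_pm_213_b : ∃ t, chk3 f_pm_213_b t 1 1 1 = true :=
  ⟨(l 4), by decide +kernel⟩

theorem c_pm_213_b : CertB 1239849684 370763052 536870912 536870912 587336777 62277027 3 eng mog cd2q2b cd5q1 pd3 true true false .pnn 2 1 3
    ndB2q2b ndB5q1 pcB3 Cut.none Ext.none :=
  certB0 (fam := true) (s1 := true) (s2 := false) (a := 2) (b := 1) (c := 3) (cn := .pnn) (n1 := ndB2q2b) (n2 := ndB5q1) (pc := pcB3) (cut := Cut.none) (xt := Ext.none) (P1 := 1239849684) (W1 := 370763052) (P2 := 536870912) (W2 := 536870912) (P3 := 587336777) (W3 := 62277027) (N0 := 3) (En := eng) (mo := mog) (C1 := cd2q2b) (C2 := cd5q1) (C3 := pd3)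
    rfl k0_pm_213_b

noncomputable def f_pm_303 : ℕ → ℕ → ℕ → ℕ → Bool := onCell 1610612736 536870912 0 536870912 587336777 62277027
    (rowB 3 eng mog cd2q3 cd5q0 pd3 2 true true false .npn 3 0 3 (qsf 1610612736 536870912 0 536870912 3) ndB2q3 ndB5q0 pcB3 Cut.none Ext.none)

def k0_pm_303 : ∃ t, chk3 f_pm_303 t 1 1 1 = true :=
  ⟨(a (b (a (a (b (l 16267024) (l 1)) (l 4)) (l 4)) (l 4)) (l 4)), by decide +kernel⟩

theorem c_pm_303 : CertB 1610612736 536870912 0 536870912 587336777 62277027 3 eng mog cd2q3 cd5q0 pd3 true true false .npn 3 0 3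
    ndB2q3 ndB5q0 pcB3 Cut.none Ext.none :=
  certB2 (fam := true) (s1 := true) (s2 := false) (a := 3) (b := 0) (c := 3) (cn := .npn) (n1 := ndB2q3) (n2 := ndB5q0) (pc := pcB3) (cut := Cut.none) (xt := Ext.none) (P1 := 1610612736) (W1 := 536870912) (P2 := 0) (W2 := 536870912) (P3 := 587336777) (W3 := 62277027) (N0 := 3) (En := eng) (mo := mog) (C1 := cd2q3) (C2 := cd5q0) (C3 := pd3)
    rfl (fun _ => rfl) k0_pm_303

noncomputable def f_pm_313 : ℕ → ℕ → ℕ → ℕ → Bool := onCell 1610612736 536870912 536870912 536870912 587336777 62277027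
    (rowB 3 eng mog cd2q3 cd5q1 pd3 0 true true false .dn 3 1 3 (qsf 1610612736 536870912 536870912 536870912 3) ndB2q3 ndB5q1 pcB3 Cut.none Ext.none)

def k0_pm_313 : ∃ t, chk3 f_pm_313 t 1 1 1 = true :=
  ⟨(l 4), by decide +kernel⟩

theorem c_pm_313 : CertB 1610612736 536870912 536870912 536870912 587336777 62277027 3 eng mog cd2q3 cd5q1 pd3 true true false .dn 3 1 3
    ndB2q3 ndB5q1 pcB3 Cut.none Ext.none :=
  certB0 (fam := true) (s1 := true) (s2 := false) (a := 3) (b := 1) (c := 3) (cn := .dn) (n1 := ndB2q3) (n2 := ndB5q1) (pc := pcB3) (cut := Cut.none) (xt := Ext.none) (P1 := 1610612736) (W1 := 536870912) (P2 := 536870912) (W2 := 536870912) (P3 := 587336777) (W3 := 62277027) (N0 := 3) (En := eng) (mo := mog) (C1 := cd2q3) (C2 := cd5q1) (C3 := pd3)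
    rfl k0_pm_313

noncomputable def f_mm_001 : ℕ → ℕ → ℕ → ℕ → Bool := onCell 0 536870912 0 536870912 587336777 62277027
    (rowB 3 eng mog cd2q0 cd5q0 pd1 0 true false false .up 0 0 1 (qsf 0 536870912 0 536870912 1) ndB2q0 ndB5q0 pcB1 Cut.none Ext.none)

def k0_mm_001 : ∃ t, chk3 f_mm_001 t 1 1 1 = true :=
  ⟨(l 4), by decide +kernel⟩

theorem c_mm_001 : CertB 0 536870912 0 536870912 587336777 62277027 3 eng mog cd2q0 cd5q0 pd1 true false false .up 0 0 1
    ndB2q0 ndB5q0 pcB1 Cut.none Ext.none :=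
  certB0 (fam := true) (s1 := false) (s2 := false) (a := 0) (b := 0) (c := 1) (cn := .up) (n1 := ndB2q0) (n2 := ndB5q0) (pc := pcB1) (cut := Cut.none) (xt := Ext.none) (P1 := 0) (W1 := 536870912) (P2 := 0) (W2 := 536870912) (P3 := 587336777) (W3 := 62277027) (N0 := 3) (En := eng) (mo := mog) (C1 := cd2q0) (C2 := cd5q0) (C3 := pd1)
    rfl k0_mm_001

noncomputable def f_mm_011 : ℕ → ℕ → ℕ → ℕ → Bool := onCell 0 536870912 536870912 536870912 587336777 62277027
    (rowB 3 eng mog cd2q0 cd5q1 pd1 0 true false false .pnn 0 1 1 (qsf 0 536870912 536870912 536870912 1) ndB2q0 ndB5q1 pcB1 Cut.none Ext.none)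

def k0_mm_011 : ∃ t, chk3 f_mm_011 t 1 1 1 = true :=
  ⟨(l 4), by decide +kernel⟩

theorem c_mm_011 : CertB 0 536870912 536870912 536870912 587336777 62277027 3 eng mog cd2q0 cd5q1 pd1 true false false .pnn 0 1 1
    ndB2q0 ndB5q1 pcB1 Cut.none Ext.none :=
  certB0 (fam := true) (s1 := false) (s2 := false) (a := 0) (b := 1) (c := 1) (cn := .pnn) (n1 := ndB2q0) (n2 := ndB5q1) (pc := pcB1) (cut := Cut.none) (xt := Ext.none) (P1 := 0) (W1 := 536870912) (P2 := 536870912) (W2 := 536870912) (P3 := 587336777) (W3 := 62277027) (N0 := 3) (En := eng) (mo := mog) (C1 := cd2q0) (C2 := cd5q1) (C3 := pd1)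
    rfl k0_mm_011

noncomputable def f_mm_012 : ℕ → ℕ → ℕ → ℕ → Bool := onCell 0 536870912 536870912 536870912 587336777 62277027
    (rowB 3 eng mog cd2q0 cd5q1 pd2 0 true false false .pnp 0 1 2 (qsf 0 536870912 536870912 536870912 2) ndB2q0 ndB5q1 pcB2 Cut.none Ext.none)

def k0_mm_012 : ∃ t, chk3 f_mm_012 t 1 1 1 = true :=
  ⟨(l 4), by decide +kernel⟩

theorem c_mm_012 : CertB 0 536870912 536870912 536870912 587336777 62277027 3 eng mog cd2q0 cd5q1 pd2 true false false .pnp 0 1 2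
    ndB2q0 ndB5q1 pcB2 Cut.none Ext.none :=
  certB0 (fam := true) (s1 := false) (s2 := false) (a := 0) (b := 1) (c := 2) (cn := .pnp) (n1 := ndB2q0) (n2 := ndB5q1) (pc := pcB2) (cut := Cut.none) (xt := Ext.none) (P1 := 0) (W1 := 536870912) (P2 := 536870912) (W2 := 536870912) (P3 := 587336777) (W3 := 62277027) (N0 := 3) (En := eng) (mo := mog) (C1 := cd2q0) (C2 := cd5q1) (C3 := pd2)
    rfl k0_mm_012

noncomputable def f_mm_022 : ℕ → ℕ → ℕ → ℕ → Bool := onCell 0 536870912 1073741824 536870912 587336777 62277027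
    (rowB 3 eng mog cd2q0 cd5q2 pd2 0 true false false .pp 0 2 2 (qsf 0 536870912 1073741824 536870912 2) ndB2q0 ndB5q2 pcB2 Cut.none Ext.none)

def k0_mm_022 : ∃ t, chk3 f_mm_022 t 1 1 1 = true :=
  ⟨(l 4), by decide +kernel⟩

theorem c_mm_022 : CertB 0 536870912 1073741824 536870912 587336777 62277027 3 eng mog cd2q0 cd5q2 pd2 true false false .pp 0 2 2
    ndB2q0 ndB5q2 pcB2 Cut.none Ext.none :=
  certB0 (fam := true) (s1 := false) (s2 := false) (a := 0) (b := 2) (c := 2) (cn := .pp) (n1 := ndB2q0) (n2 := ndB5q2) (pc := pcB2) (cut := Cut.none) (xt := Ext.none) (P1 := 0) (W1 := 536870912) (P2 := 1073741824) (W2 := 536870912) (P3 := 587336777) (W3 := 62277027) (N0 := 3) (En := eng) (mo := mog) (C1 := cd2q0) (C2 := cd5q2) (C3 := pd2)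
    rfl k0_mm_022

noncomputable def f_mm_023 : ℕ → ℕ → ℕ → ℕ → Bool := onCell 0 536870912 1073741824 536870912 587336777 62277027
    (rowB 3 eng mog cd2q0 cd5q2 pd3 0 true false false .up 0 2 3 (qsf 0 536870912 1073741824 536870912 3) ndB2q0 ndB5q2 pcB3 Cut.none Ext.none)

def k0_mm_023 : ∃ t, chk3 f_mm_023 t 1 1 1 = true :=
  ⟨(l 4), by decide +kernel⟩

theorem c_mm_023 : CertB 0 536870912 1073741824 536870912 587336777 62277027 3 eng mog cd2q0 cd5q2 pd3 true false false .up 0 2 3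
    ndB2q0 ndB5q2 pcB3 Cut.none Ext.none :=
  certB0 (fam := true) (s1 := false) (s2 := false) (a := 0) (b := 2) (c := 3) (cn := .up) (n1 := ndB2q0) (n2 := ndB5q2) (pc := pcB3) (cut := Cut.none) (xt := Ext.none) (P1 := 0) (W1 := 536870912) (P2 := 1073741824) (W2 := 536870912) (P3 := 587336777) (W3 := 62277027) (N0 := 3) (En := eng) (mo := mog) (C1 := cd2q0) (C2 := cd5q2) (C3 := pd3)
    rfl k0_mm_023

noncomputable def f_mm_033 : ℕ → ℕ → ℕ → ℕ → Bool := onCell 0 536870912 0 1230186008 587336777 62277027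
    (rowB 3 eng mog cd2q0 cd5q3 pd3 0 true false false .pnn 0 3 3 (qsf 0 536870912 0 1230186008 3) ndB2q0 ndB5q3 pcB3 Cut.none Ext.none)

def k0_mm_033 : ∃ t, chk3 f_mm_033 t 1 1 1 = true :=
  ⟨(l 5), by decide +kernel⟩

theorem c_mm_033 : CertB 0 536870912 0 1230186008 587336777 62277027 3 eng mog cd2q0 cd5q3 pd3 true false false .pnn 0 3 3
    ndB2q0 ndB5q3 pcB3 Cut.none Ext.none :=
  certB0 (fam := true) (s1 := false) (s2 := false) (a := 0) (b := 3) (c := 3) (cn := .pnn) (n1 := ndB2q0) (n2 := ndB5q3) (pc := pcB3) (cut := Cut.none) (xt := Ext.none) (P1 := 0) (W1 := 536870912) (P2 := 0) (W2 := 1230186008) (P3 := 587336777) (W3 := 62277027) (N0 := 3) (En := eng) (mo := mog) (C1 := cd2q0) (C2 := cd5q3) (C3 := pd3)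
    rfl k0_mm_033

noncomputable def f_mm_101 : ℕ → ℕ → ℕ → ℕ → Bool := onCell 536870912 536870912 0 536870912 587336777 62277027
    (rowB 3 eng mog cd2q1 cd5q0 pd1 0 true false false .npn 1 0 1 (qsf 536870912 536870912 0 536870912 1) ndB2q1 ndB5q0 pcB1 Cut.none Ext.none)

def k0_mm_101 : ∃ t, chk3 f_mm_101 t 1 1 1 = true :=
  ⟨(l 4), by decide +kernel⟩

theorem c_mm_101 : CertB 536870912 536870912 0 536870912 587336777 62277027 3 eng mog cd2q1 cd5q0 pd1 true false false .npn 1 0 1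
    ndB2q1 ndB5q0 pcB1 Cut.none Ext.none :=
  certB0 (fam := true) (s1 := false) (s2 := false) (a := 1) (b := 0) (c := 1) (cn := .npn) (n1 := ndB2q1) (n2 := ndB5q0) (pc := pcB1) (cut := Cut.none) (xt := Ext.none) (P1 := 536870912) (W1 := 536870912) (P2 := 0) (W2 := 536870912) (P3 := 587336777) (W3 := 62277027) (N0 := 3) (En := eng) (mo := mog) (C1 := cd2q1) (C2 := cd5q0) (C3 := pd1)
    rfl k0_mm_101

noncomputable def f_mm_102 : ℕ → ℕ → ℕ → ℕ → Bool := onCell 536870912 536870912 0 536870912 587336777 62277027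
    (rowB 3 eng mog cd2q1 cd5q0 pd2 0 true false false .npp 1 0 2 (qsf 536870912 536870912 0 536870912 2) ndB2q1 ndB5q0 pcB2 Cut.none Ext.none)

def k0_mm_102 : ∃ t, chk3 f_mm_102 t 1 1 1 = true :=
  ⟨(l 4), by decide +kernel⟩

theorem c_mm_102 : CertB 536870912 536870912 0 536870912 587336777 62277027 3 eng mog cd2q1 cd5q0 pd2 true false false .npp 1 0 2
    ndB2q1 ndB5q0 pcB2 Cut.none Ext.none :=
  certB0 (fam := true) (s1 := false) (s2 := false) (a := 1) (b := 0) (c := 2) (cn := .npp) (n1 := ndB2q1) (n2 := ndB5q0) (pc := pcB2) (cut := Cut.none) (xt := Ext.none) (P1 := 536870912) (W1 := 536870912) (P2 := 0) (W2 := 536870912) (P3 := 587336777) (W3 := 62277027) (N0 := 3) (En := eng) (mo := mog) (C1 := cd2q1) (C2 := cd5q0) (C3 := pd2)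
    rfl k0_mm_102

noncomputable def f_mm_112 : ℕ → ℕ → ℕ → ℕ → Bool := onCell 536870912 536870912 536870912 536870912 587336777 62277027
    (rowB 3 eng mog cd2q1 cd5q1 pd2 0 true false false .dn 1 1 2 (qsf 536870912 536870912 536870912 536870912 2) ndB2q1 ndB5q1 pcB2 Cut.none Ext.none)

def k0_mm_112 : ∃ t, chk3 f_mm_112 t 1 1 1 = true :=
  ⟨(l 4), by decide +kernel⟩

theorem c_mm_112 : CertB 536870912 536870912 536870912 536870912 587336777 62277027 3 eng mog cd2q1 cd5q1 pd2 true false false .dn 1 1 2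
    ndB2q1 ndB5q1 pcB2 Cut.none Ext.none :=
  certB0 (fam := true) (s1 := false) (s2 := false) (a := 1) (b := 1) (c := 2) (cn := .dn) (n1 := ndB2q1) (n2 := ndB5q1) (pc := pcB2) (cut := Cut.none) (xt := Ext.none) (P1 := 536870912) (W1 := 536870912) (P2 := 536870912) (W2 := 536870912) (P3 := 587336777) (W3 := 62277027) (N0 := 3) (En := eng) (mo := mog) (C1 := cd2q1) (C2 := cd5q1) (C3 := pd2)
    rfl k0_mm_112

noncomputable def f_mm_113 : ℕ → ℕ → ℕ → ℕ → Bool := onCell 536870912 536870912 536870912 536870912 587336777 62277027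
    (rowB 3 eng mog cd2q1 cd5q1 pd3 0 true false false .nn 1 1 3 (qsf 536870912 536870912 536870912 536870912 3) ndB2q1 ndB5q1 pcB3 Cut.none Ext.none)

def k0_mm_113 : ∃ t, chk3 f_mm_113 t 1 1 1 = true :=
  ⟨(l 4), by decide +kernel⟩

theorem c_mm_113 : CertB 536870912 536870912 536870912 536870912 587336777 62277027 3 eng mog cd2q1 cd5q1 pd3 true false false .nn 1 1 3
    ndB2q1 ndB5q1 pcB3 Cut.none Ext.none :=
  certB0 (fam := true) (s1 := false) (s2 := false) (a := 1) (b := 1) (c := 3) (cn := .nn) (n1 := ndB2q1) (n2 := ndB5q1) (pc := pcB3) (cut := Cut.none) (xt := Ext.none) (P1 := 536870912) (W1 := 536870912) (P2 := 536870912) (W2 := 536870912) (P3 := 587336777) (W3 := 62277027) (N0 := 3) (En := eng) (mo := mog) (C1 := cd2q1) (C2 := cd5q1) (C3 := pd3)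
    rfl k0_mm_113

noncomputable def f_mm_123 : ℕ → ℕ → ℕ → ℕ → Bool := onCell 536870912 536870912 1073741824 536870912 587336777 62277027
    (rowB 3 eng mog cd2q1 cd5q2 pd3 0 true false false .npn 1 2 3 (qsf 536870912 536870912 1073741824 536870912 3) ndB2q1 ndB5q2 pcB3 Cut.none Ext.none)

def k0_mm_123 : ∃ t, chk3 f_mm_123 t 1 1 1 = true :=
  ⟨(l 4), by decide +kernel⟩

theorem c_mm_123 : CertB 536870912 536870912 1073741824 536870912 587336777 62277027 3 eng mog cd2q1 cd5q2 pd3 true false false .npn 1 2 3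
    ndB2q1 ndB5q2 pcB3 Cut.none Ext.none :=
  certB0 (fam := true) (s1 := false) (s2 := false) (a := 1) (b := 2) (c := 3) (cn := .npn) (n1 := ndB2q1) (n2 := ndB5q2) (pc := pcB3) (cut := Cut.none) (xt := Ext.none) (P1 := 536870912) (W1 := 536870912) (P2 := 1073741824) (W2 := 536870912) (P3 := 587336777) (W3 := 62277027) (N0 := 3) (En := eng) (mo := mog) (C1 := cd2q1) (C2 := cd5q2) (C3 := pd3)
    rfl k0_mm_123

noncomputable def f_mm_133 : ℕ → ℕ → ℕ → ℕ → Bool := onCell 536870912 536870912 0 1230186008 587336777 62277027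
    (rowB 3 eng mog cd2q1 cd5q3 pd3 0 true false false .dn 1 3 3 (qsf 536870912 536870912 0 1230186008 3) ndB2q1 ndB5q3 pcB3 Cut.none Ext.none)

def k0_mm_133 : ∃ t, chk3 f_mm_133 t 1 1 1 = true :=
  ⟨(l 4), by decide +kernel⟩

theorem c_mm_133 : CertB 536870912 536870912 0 1230186008 587336777 62277027 3 eng mog cd2q1 cd5q3 pd3 true false false .dn 1 3 3
    ndB2q1 ndB5q3 pcB3 Cut.none Ext.none :=
  certB0 (fam := true) (s1 := false) (s2 := false) (a := 1) (b := 3) (c := 3) (cn := .dn) (n1 := ndB2q1) (n2 := ndB5q3) (pc := pcB3) (cut := Cut.none) (xt := Ext.none) (P1 := 536870912) (W1 := 536870912) (P2 := 0) (W2 := 1230186008) (P3 := 587336777) (W3 := 62277027) (N0 := 3) (En := eng) (mo := mog) (C1 := cd2q1) (C2 := cd5q3) (C3 := pd3)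
    rfl k0_mm_133

noncomputable def f_mm_202_a : ℕ → ℕ → ℕ → ℕ → Bool := onCell 0 536870912 0 536870912 587336777 62277027
    (rowB 3 eng mog cd2q2a cd5q0 pd2 0 true false false .pp 2 0 2 (qsf 0 536870912 0 536870912 2) ndB2q2a ndB5q0 pcB2 Cut.none Ext.none)

def k0_mm_202_a : ∃ t, chk3 f_mm_202_a t 1 1 1 = true :=
  ⟨(a (b (b (b (a (b (a (l 16501776) (l 16509728)) (l 16543472)) (l 4)) (l 4)) (l 4)) (l 4)) (l 4)), by decide +kernel⟩

theorem c_mm_202_a : CertB 0 536870912 0 536870912 587336777 62277027 3 eng mog cd2q2a cd5q0 pd2 true false false .pp 2 0 2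
    ndB2q2a ndB5q0 pcB2 Cut.none Ext.none :=
  certB0 (fam := true) (s1 := false) (s2 := false) (a := 2) (b := 0) (c := 2) (cn := .pp) (n1 := ndB2q2a) (n2 := ndB5q0) (pc := pcB2) (cut := Cut.none) (xt := Ext.none) (P1 := 0) (W1 := 536870912) (P2 := 0) (W2 := 536870912) (P3 := 587336777) (W3 := 62277027) (N0 := 3) (En := eng) (mo := mog) (C1 := cd2q2a) (C2 := cd5q0) (C3 := pd2)
    rfl k0_mm_202_a

noncomputable def f_mm_202_b : ℕ → ℕ → ℕ → ℕ → Bool := onCell 1239849684 370763052 0 536870912 587336777 62277027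
    (rowB 3 eng mog cd2q2b cd5q0 pd2 0 true false false .pp 2 0 2 (qsf 1239849684 370763052 0 536870912 2) ndB2q2b ndB5q0 pcB2 Cut.none Ext.none)

def k0_mm_202_b : ∃ t, chk3 f_mm_202_b t 1 1 1 = true :=
  ⟨(b (a (b (b (a (a (b (l 16478808) (l 16515864)) (b (l 16434880) (l 4))) (a (b (l 16385528) (l 4)) (l 4))) (l 4)) (l 4)) (l 4)) (l 4)), by decide +kernel⟩

theorem c_mm_202_b : CertB 1239849684 370763052 0 536870912 587336777 62277027 3 eng mog cd2q2b cd5q0 pd2 true false false .pp 2 0 2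
    ndB2q2b ndB5q0 pcB2 Cut.none Ext.none :=
  certB0 (fam := true) (s1 := false) (s2 := false) (a := 2) (b := 0) (c := 2) (cn := .pp) (n1 := ndB2q2b) (n2 := ndB5q0) (pc := pcB2) (cut := Cut.none) (xt := Ext.none) (P1 := 1239849684) (W1 := 370763052) (P2 := 0) (W2 := 536870912) (P3 := 587336777) (W3 := 62277027) (N0 := 3) (En := eng) (mo := mog) (C1 := cd2q2b) (C2 := cd5q0) (C3 := pd2)
    rfl k0_mm_202_b

noncomputable def f_mm_203_a : ℕ → ℕ → ℕ → ℕ → Bool := onCell 0 536870912 1610612736 536870912 587336777 62277027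
    (rowB 3 eng mog cd2q2a cd5q0 pd3 1 true false false .up 2 0 3 (qsf 0 536870912 0 536870912 3) ndB2q2a ndB5q0 pcB3 Cut.none Ext.none)

def k0_mm_203_a : ∃ t, chk3 f_mm_203_a t 1 1 1 = true :=
  ⟨(l 4), by decide +kernel⟩

theorem c_mm_203_a : CertB 0 536870912 0 536870912 587336777 62277027 3 eng mog cd2q2a cd5q0 pd3 true false false .up 2 0 3
    ndB2q2a ndB5q0 pcB3 Cut.none Ext.none :=
  certB1 (fam := true) (s1 := false) (s2 := false) (a := 2) (b := 0) (c := 3) (cn := .up) (n1 := ndB2q2a) (n2 := ndB5q0) (pc := pcB3) (cut := Cut.none) (xt := Ext.none) (P1 := 0) (W1 := 536870912) (P2 := 0) (W2 := 536870912) (P3 := 587336777) (W3 := 62277027) (N0 := 3) (En := eng) (mo := mog) (C1 := cd2q2a) (C2 := cd5q0) (C3 := pd3)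
    rfl (fun _ => rfl) k0_mm_203_a

noncomputable def f_mm_203_b : ℕ → ℕ → ℕ → ℕ → Bool := onCell 1239849684 370763052 1610612736 536870912 587336777 62277027
    (rowB 3 eng mog cd2q2b cd5q0 pd3 1 true false false .up 2 0 3 (qsf 1239849684 370763052 0 536870912 3) ndB2q2b ndB5q0 pcB3 Cut.none Ext.none)

def k0_mm_203_b : ∃ t, chk3 f_mm_203_b t 1 1 1 = true :=
  ⟨(l 4), by decide +kernel⟩

theorem c_mm_203_b : CertB 1239849684 370763052 0 536870912 587336777 62277027 3 eng mog cd2q2b cd5q0 pd3 true false false .up 2 0 3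
    ndB2q2b ndB5q0 pcB3 Cut.none Ext.none :=
  certB1 (fam := true) (s1 := false) (s2 := false) (a := 2) (b := 0) (c := 3) (cn := .up) (n1 := ndB2q2b) (n2 := ndB5q0) (pc := pcB3) (cut := Cut.none) (xt := Ext.none) (P1 := 1239849684) (W1 := 370763052) (P2 := 0) (W2 := 536870912) (P3 := 587336777) (W3 := 62277027) (N0 := 3) (En := eng) (mo := mog) (C1 := cd2q2b) (C2 := cd5q0) (C3 := pd3)
    rfl (fun _ => rfl) k0_mm_203_b

noncomputable def f_mm_213_a : ℕ → ℕ → ℕ → ℕ → Bool := onCell 0 536870912 536870912 536870912 587336777 62277027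
    (rowB 3 eng mog cd2q2a cd5q1 pd3 0 true false false .pnn 2 1 3 (qsf 0 536870912 536870912 536870912 3) ndB2q2a ndB5q1 pcB3 Cut.none Ext.none)

def k0_mm_213_a : ∃ t, chk3 f_mm_213_a t 1 1 1 = true :=
  ⟨(l 4), by decide +kernel⟩

theorem c_mm_213_a : CertB 0 536870912 536870912 536870912 587336777 62277027 3 eng mog cd2q2a cd5q1 pd3 true false false .pnn 2 1 3
    ndB2q2a ndB5q1 pcB3 Cut.none Ext.none :=
  certB0 (fam := true) (s1 := false) (s2 := false) (a := 2) (b := 1) (c := 3) (cn := .pnn) (n1 := ndB2q2a) (n2 := ndB5q1) (pc := pcB3) (cut := Cut.none) (xt := Ext.none) (P1 := 0) (W1 := 536870912) (P2 := 536870912) (W2 := 536870912) (P3 := 587336777) (W3 := 62277027) (N0 := 3) (En := eng) (mo := mog) (C1 := cd2q2a) (C2 := cd5q1) (C3 := pd3)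
    rfl k0_mm_213_a

noncomputable def f_mm_213_b : ℕ → ℕ → ℕ → ℕ → Bool := onCell 1239849684 370763052 536870912 536870912 587336777 62277027
    (rowB 3 eng mog cd2q2b cd5q1 pd3 0 true false false .pnn 2 1 3 (qsf 1239849684 370763052 536870912 536870912 3) ndB2q2b ndB5q1 pcB3 Cut.none Ext.none)

def k0_mm_213_b : ∃ t, chk3 f_mm_213_b t 1 1 1 = true :=
  ⟨(l 4), by decide +kernel⟩

theorem c_mm_213_b : CertB 1239849684 370763052 536870912 536870912 587336777 62277027 3 eng mog cd2q2b cd5q1 pd3 true false false .pnn 2 1 3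
    ndB2q2b ndB5q1 pcB3 Cut.none Ext.none :=
  certB0 (fam := true) (s1 := false) (s2 := false) (a := 2) (b := 1) (c := 3) (cn := .pnn) (n1 := ndB2q2b) (n2 := ndB5q1) (pc := pcB3) (cut := Cut.none) (xt := Ext.none) (P1 := 1239849684) (W1 := 370763052) (P2 := 536870912) (W2 := 536870912) (P3 := 587336777) (W3 := 62277027) (N0 := 3) (En := eng) (mo := mog) (C1 := cd2q2b) (C2 := cd5q1) (C3 := pd3)
    rfl k0_mm_213_b

noncomputable def f_mm_303 : ℕ → ℕ → ℕ → ℕ → Bool := onCell 1610612736 536870912 0 536870912 587336777 62277027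
    (rowB 3 eng mog cd2q3 cd5q0 pd3 0 true false false .npn 3 0 3 (qsf 1610612736 536870912 0 536870912 3) ndB2q3 ndB5q0 pcB3 Cut.none Ext.none)

def k0_mm_303 : ∃ t, chk3 f_mm_303 t 1 1 1 = true :=
  ⟨(l 4), by decide +kernel⟩

theorem c_mm_303 : CertB 1610612736 536870912 0 536870912 587336777 62277027 3 eng mog cd2q3 cd5q0 pd3 true false false .npn 3 0 3
    ndB2q3 ndB5q0 pcB3 Cut.none Ext.none :=
  certB0 (fam := true) (s1 := false) (s2 := false) (a := 3) (b := 0) (c := 3) (cn := .npn) (n1 := ndB2q3) (n2 := ndB5q0) (pc := pcB3) (cut := Cut.none) (xt := Ext.none) (P1 := 1610612736) (W1 := 536870912) (P2 := 0) (W2 := 536870912) (P3 := 587336777) (W3 := 62277027) (N0 := 3) (En := eng) (mo := mog) (C1 := cd2q3) (C2 := cd5q0) (C3 := pd3)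
    rfl k0_mm_303

noncomputable def f_mm_313 : ℕ → ℕ → ℕ → ℕ → Bool := onCell 1610612736 536870912 536870912 536870912 587336777 62277027
    (rowB 3 eng mog cd2q3 cd5q1 pd3 0 true false false .dn 3 1 3 (qsf 1610612736 536870912 536870912 536870912 3) ndB2q3 ndB5q1 pcB3 Cut.none Ext.none)

def k0_mm_313 : ∃ t, chk3 f_mm_313 t 1 1 1 = true :=
  ⟨(l 4), by decide +kernel⟩

theorem c_mm_313 : CertB 1610612736 536870912 536870912 536870912 587336777 62277027 3 eng mog cd2q3 cd5q1 pd3 true false false .dn 3 1 3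
    ndB2q3 ndB5q1 pcB3 Cut.none Ext.none :=
  certB0 (fam := true) (s1 := false) (s2 := false) (a := 3) (b := 1) (c := 3) (cn := .dn) (n1 := ndB2q3) (n2 := ndB5q1) (pc := pcB3) (cut := Cut.none) (xt := Ext.none) (P1 := 1610612736) (W1 := 536870912) (P2 := 536870912) (W2 := 536870912) (P3 := 587336777) (W3 := 62277027) (N0 := 3) (En := eng) (mo := mog) (C1 := cd2q3) (C2 := cd5q1) (C3 := pd3)
    rfl k0_mm_313

end Pool.Agent.Strip051.G.I5470_6050.Tab.C.BA25

namespace Pool.Agent.Strip051.G.I5470_6050.Tab.C.BA26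

open Pool.Agent.Strip051.PB Pool.Agent.Strip051.PB.T
open Pool.Agent.Strip051.G.I5470_6050.Tab

noncomputable def f_pp_001 : ℕ → ℕ → ℕ → ℕ → Bool := onCell 0 536870912 0 536870912 587336777 62277027
    (rowB 3 eng mog cd2q0 cd6q0 pd1 0 true true true .up 0 0 1 (qsf 0 536870912 0 536870912 1) ndB2q0 ndB6q0 pcB1 Cut.none Ext.none)

def k0_pp_001 : ∃ t, chk3 f_pp_001 t 1 1 1 = true :=
  ⟨(l 4), by decide +kernel⟩

theorem c_pp_001 : CertB 0 536870912 0 536870912 587336777 62277027 3 eng mog cd2q0 cd6q0 pd1 true true true .up 0 0 1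
    ndB2q0 ndB6q0 pcB1 Cut.none Ext.none :=
  certB0 (fam := true) (s1 := true) (s2 := true) (a := 0) (b := 0) (c := 1) (cn := .up) (n1 := ndB2q0) (n2 := ndB6q0) (pc := pcB1) (cut := Cut.none) (xt := Ext.none) (P1 := 0) (W1 := 536870912) (P2 := 0) (W2 := 536870912) (P3 := 587336777) (W3 := 62277027) (N0 := 3) (En := eng) (mo := mog) (C1 := cd2q0) (C2 := cd6q0) (C3 := pd1)
    rfl k0_pp_001

noncomputable def f_pp_011 : ℕ → ℕ → ℕ → ℕ → Bool := onCell 0 536870912 536870912 536870912 587336777 62277027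
    (rowB 3 eng mog cd2q0 cd6q1 pd1 0 true true true .pnn 0 1 1 (qsf 0 536870912 536870912 536870912 1) ndB2q0 ndB6q1 pcB1 Cut.none Ext.none)

def k0_pp_011 : ∃ t, chk3 f_pp_011 t 1 1 1 = true :=
  ⟨(l 4), by decide +kernel⟩

theorem c_pp_011 : CertB 0 536870912 536870912 536870912 587336777 62277027 3 eng mog cd2q0 cd6q1 pd1 true true true .pnn 0 1 1
    ndB2q0 ndB6q1 pcB1 Cut.none Ext.none :=
  certB0 (fam := true) (s1 := true) (s2 := true) (a := 0) (b := 1) (c := 1) (cn := .pnn) (n1 := ndB2q0) (n2 := ndB6q1) (pc := pcB1) (cut := Cut.none) (xt := Ext.none) (P1 := 0) (W1 := 536870912) (P2 := 536870912) (W2 := 536870912) (P3 := 587336777) (W3 := 62277027) (N0 := 3) (En := eng) (mo := mog) (C1 := cd2q0) (C2 := cd6q1) (C3 := pd1)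
    rfl k0_pp_011

noncomputable def f_pp_012 : ℕ → ℕ → ℕ → ℕ → Bool := onCell 0 536870912 536870912 536870912 587336777 62277027
    (rowB 3 eng mog cd2q0 cd6q1 pd2 0 true true true .pnp 0 1 2 (qsf 0 536870912 536870912 536870912 2) ndB2q0 ndB6q1 pcB2 Cut.none Ext.none)

def k0_pp_012 : ∃ t, chk3 f_pp_012 t 1 1 1 = true :=
  ⟨(l 4), by decide +kernel⟩

theorem c_pp_012 : CertB 0 536870912 536870912 536870912 587336777 62277027 3 eng mog cd2q0 cd6q1 pd2 true true true .pnp 0 1 2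
    ndB2q0 ndB6q1 pcB2 Cut.none Ext.none :=
  certB0 (fam := true) (s1 := true) (s2 := true) (a := 0) (b := 1) (c := 2) (cn := .pnp) (n1 := ndB2q0) (n2 := ndB6q1) (pc := pcB2) (cut := Cut.none) (xt := Ext.none) (P1 := 0) (W1 := 536870912) (P2 := 536870912) (W2 := 536870912) (P3 := 587336777) (W3 := 62277027) (N0 := 3) (En := eng) (mo := mog) (C1 := cd2q0) (C2 := cd6q1) (C3 := pd2)
    rfl k0_pp_012

noncomputable def f_pp_022 : ℕ → ℕ → ℕ → ℕ → Bool := onCell 0 536870912 1073741824 536870912 587336777 62277027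
    (rowB 3 eng mog cd2q0 cd6q2 pd2 0 true true true .pp 0 2 2 (qsf 0 536870912 1073741824 536870912 2) ndB2q0 ndB6q2 pcB2 Cut.none Ext.none)

def k0_pp_022 : ∃ t, chk3 f_pp_022 t 1 1 1 = true :=
  ⟨(l 4), by decide +kernel⟩

theorem c_pp_022 : CertB 0 536870912 1073741824 536870912 587336777 62277027 3 eng mog cd2q0 cd6q2 pd2 true true true .pp 0 2 2
    ndB2q0 ndB6q2 pcB2 Cut.none Ext.none :=
  certB0 (fam := true) (s1 := true) (s2 := true) (a := 0) (b := 2) (c := 2) (cn := .pp) (n1 := ndB2q0) (n2 := ndB6q2) (pc := pcB2) (cut := Cut.none) (xt := Ext.none) (P1 := 0) (W1 := 536870912) (P2 := 1073741824) (W2 := 536870912) (P3 := 587336777) (W3 := 62277027) (N0 := 3) (En := eng) (mo := mog) (C1 := cd2q0) (C2 := cd6q2) (C3 := pd2)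
    rfl k0_pp_022

noncomputable def f_pp_023 : ℕ → ℕ → ℕ → ℕ → Bool := onCell 0 536870912 1073741824 536870912 587336777 62277027
    (rowB 3 eng mog cd2q0 cd6q2 pd3 0 true true true .up 0 2 3 (qsf 0 536870912 1073741824 536870912 3) ndB2q0 ndB6q2 pcB3 Cut.none Ext.none)

def k0_pp_023 : ∃ t, chk3 f_pp_023 t 1 1 1 = true :=
  ⟨(l 4), by decide +kernel⟩

theorem c_pp_023 : CertB 0 536870912 1073741824 536870912 587336777 62277027 3 eng mog cd2q0 cd6q2 pd3 true true true .up 0 2 3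
    ndB2q0 ndB6q2 pcB3 Cut.none Ext.none :=
  certB0 (fam := true) (s1 := true) (s2 := true) (a := 0) (b := 2) (c := 3) (cn := .up) (n1 := ndB2q0) (n2 := ndB6q2) (pc := pcB3) (cut := Cut.none) (xt := Ext.none) (P1 := 0) (W1 := 536870912) (P2 := 1073741824) (W2 := 536870912) (P3 := 587336777) (W3 := 62277027) (N0 := 3) (En := eng) (mo := mog) (C1 := cd2q0) (C2 := cd6q2) (C3 := pd3)
    rfl k0_pp_023

noncomputable def f_pp_033 : ℕ → ℕ → ℕ → ℕ → Bool := onCell 0 536870912 0 1230186008 587336777 62277027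
    (rowB 3 eng mog cd2q0 cd6q3 pd3 0 true true true .pnn 0 3 3 (qsf 0 536870912 0 1230186008 3) ndB2q0 ndB6q3 pcB3 Cut.none Ext.none)

def k0_pp_033 : ∃ t, chk3 f_pp_033 t 1 1 1 = true :=
  ⟨(b (l 4) (l 4)), by decide +kernel⟩

theorem c_pp_033 : CertB 0 536870912 0 1230186008 587336777 62277027 3 eng mog cd2q0 cd6q3 pd3 true true true .pnn 0 3 3
    ndB2q0 ndB6q3 pcB3 Cut.none Ext.none :=
  certB0 (fam := true) (s1 := true) (s2 := true) (a := 0) (b := 3) (c := 3) (cn := .pnn) (n1 := ndB2q0) (n2 := ndB6q3) (pc := pcB3) (cut := Cut.none) (xt := Ext.none) (P1 := 0) (W1 := 536870912) (P2 := 0) (W2 := 1230186008) (P3 := 587336777) (W3 := 62277027) (N0 := 3) (En := eng) (mo := mog) (C1 := cd2q0) (C2 := cd6q3) (C3 := pd3)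
    rfl k0_pp_033

noncomputable def f_pp_101 : ℕ → ℕ → ℕ → ℕ → Bool := onCell 536870912 536870912 0 536870912 587336777 62277027
    (rowB 3 eng mog cd2q1 cd6q0 pd1 0 true true true .npn 1 0 1 (qsf 536870912 536870912 0 536870912 1) ndB2q1 ndB6q0 pcB1 Cut.none Ext.none)

def k0_pp_101 : ∃ t, chk3 f_pp_101 t 1 1 1 = true :=
  ⟨(l 4), by decide +kernel⟩

theorem c_pp_101 : CertB 536870912 536870912 0 536870912 587336777 62277027 3 eng mog cd2q1 cd6q0 pd1 true true true .npn 1 0 1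
    ndB2q1 ndB6q0 pcB1 Cut.none Ext.none :=
  certB0 (fam := true) (s1 := true) (s2 := true) (a := 1) (b := 0) (c := 1) (cn := .npn) (n1 := ndB2q1) (n2 := ndB6q0) (pc := pcB1) (cut := Cut.none) (xt := Ext.none) (P1 := 536870912) (W1 := 536870912) (P2 := 0) (W2 := 536870912) (P3 := 587336777) (W3 := 62277027) (N0 := 3) (En := eng) (mo := mog) (C1 := cd2q1) (C2 := cd6q0) (C3 := pd1)
    rfl k0_pp_101

noncomputable def f_pp_102 : ℕ → ℕ → ℕ → ℕ → Bool := onCell 536870912 536870912 0 536870912 587336777 62277027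
    (rowB 3 eng mog cd2q1 cd6q0 pd2 0 true true true .npp 1 0 2 (qsf 536870912 536870912 0 536870912 2) ndB2q1 ndB6q0 pcB2 Cut.none Ext.none)

def k0_pp_102 : ∃ t, chk3 f_pp_102 t 1 1 1 = true :=
  ⟨(l 4), by decide +kernel⟩

theorem c_pp_102 : CertB 536870912 536870912 0 536870912 587336777 62277027 3 eng mog cd2q1 cd6q0 pd2 true true true .npp 1 0 2
    ndB2q1 ndB6q0 pcB2 Cut.none Ext.none :=
  certB0 (fam := true) (s1 := true) (s2 := true) (a := 1) (b := 0) (c := 2) (cn := .npp) (n1 := ndB2q1) (n2 := ndB6q0) (pc := pcB2) (cut := Cut.none) (xt := Ext.none) (P1 := 536870912) (W1 := 536870912) (P2 := 0) (W2 := 536870912) (P3 := 587336777) (W3 := 62277027) (N0 := 3) (En := eng) (mo := mog) (C1 := cd2q1) (C2 := cd6q0) (C3 := pd2)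
    rfl k0_pp_102

noncomputable def f_pp_112 : ℕ → ℕ → ℕ → ℕ → Bool := onCell 536870912 536870912 536870912 536870912 587336777 62277027
    (rowB 3 eng mog cd2q1 cd6q1 pd2 0 true true true .dn 1 1 2 (qsf 536870912 536870912 536870912 536870912 2) ndB2q1 ndB6q1 pcB2 Cut.none Ext.none)

def k0_pp_112 : ∃ t, chk3 f_pp_112 t 1 1 1 = true :=
  ⟨(l 4), by decide +kernel⟩

theorem c_pp_112 : CertB 536870912 536870912 536870912 536870912 587336777 62277027 3 eng mog cd2q1 cd6q1 pd2 true true true .dn 1 1 2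
    ndB2q1 ndB6q1 pcB2 Cut.none Ext.none :=
  certB0 (fam := true) (s1 := true) (s2 := true) (a := 1) (b := 1) (c := 2) (cn := .dn) (n1 := ndB2q1) (n2 := ndB6q1) (pc := pcB2) (cut := Cut.none) (xt := Ext.none) (P1 := 536870912) (W1 := 536870912) (P2 := 536870912) (W2 := 536870912) (P3 := 587336777) (W3 := 62277027) (N0 := 3) (En := eng) (mo := mog) (C1 := cd2q1) (C2 := cd6q1) (C3 := pd2)
    rfl k0_pp_112

noncomputable def f_pp_113 : ℕ → ℕ → ℕ → ℕ → Bool := onCell 536870912 536870912 536870912 536870912 587336777 62277027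
    (rowB 3 eng mog cd2q1 cd6q1 pd3 0 true true true .nn 1 1 3 (qsf 536870912 536870912 536870912 536870912 3) ndB2q1 ndB6q1 pcB3 Cut.none Ext.none)

def k0_pp_113 : ∃ t, chk3 f_pp_113 t 1 1 1 = true :=
  ⟨(l 4), by decide +kernel⟩

theorem c_pp_113 : CertB 536870912 536870912 536870912 536870912 587336777 62277027 3 eng mog cd2q1 cd6q1 pd3 true true true .nn 1 1 3
    ndB2q1 ndB6q1 pcB3 Cut.none Ext.none :=
  certB0 (fam := true) (s1 := true) (s2 := true) (a := 1) (b := 1) (c := 3) (cn := .nn) (n1 := ndB2q1) (n2 := ndB6q1) (pc := pcB3) (cut := Cut.none) (xt := Ext.none) (P1 := 536870912) (W1 := 536870912) (P2 := 536870912) (W2 := 536870912) (P3 := 587336777) (W3 := 62277027) (N0 := 3) (En := eng) (mo := mog) (C1 := cd2q1) (C2 := cd6q1) (C3 := pd3)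
    rfl k0_pp_113

noncomputable def f_pp_123 : ℕ → ℕ → ℕ → ℕ → Bool := onCell 536870912 536870912 1073741824 536870912 587336777 62277027
    (rowB 3 eng mog cd2q1 cd6q2 pd3 0 true true true .npn 1 2 3 (qsf 536870912 536870912 1073741824 536870912 3) ndB2q1 ndB6q2 pcB3 Cut.none Ext.none)

def k0_pp_123 : ∃ t, chk3 f_pp_123 t 1 1 1 = true :=
  ⟨(l 4), by decide +kernel⟩

theorem c_pp_123 : CertB 536870912 536870912 1073741824 536870912 587336777 62277027 3 eng mog cd2q1 cd6q2 pd3 true true true .npn 1 2 3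
    ndB2q1 ndB6q2 pcB3 Cut.none Ext.none :=
  certB0 (fam := true) (s1 := true) (s2 := true) (a := 1) (b := 2) (c := 3) (cn := .npn) (n1 := ndB2q1) (n2 := ndB6q2) (pc := pcB3) (cut := Cut.none) (xt := Ext.none) (P1 := 536870912) (W1 := 536870912) (P2 := 1073741824) (W2 := 536870912) (P3 := 587336777) (W3 := 62277027) (N0 := 3) (En := eng) (mo := mog) (C1 := cd2q1) (C2 := cd6q2) (C3 := pd3)
    rfl k0_pp_123

noncomputable def f_pp_133 : ℕ → ℕ → ℕ → ℕ → Bool := onCell 536870912 536870912 0 1230186008 587336777 62277027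
    (rowB 3 eng mog cd2q1 cd6q3 pd3 0 true true true .dn 1 3 3 (qsf 536870912 536870912 0 1230186008 3) ndB2q1 ndB6q3 pcB3 Cut.none Ext.none)

def k0_pp_133 : ∃ t, chk3 f_pp_133 t 1 1 1 = true :=
  ⟨(l 4), by decide +kernel⟩

theorem c_pp_133 : CertB 536870912 536870912 0 1230186008 587336777 62277027 3 eng mog cd2q1 cd6q3 pd3 true true true .dn 1 3 3
    ndB2q1 ndB6q3 pcB3 Cut.none Ext.none :=
  certB0 (fam := true) (s1 := true) (s2 := true) (a := 1) (b := 3) (c := 3) (cn := .dn) (n1 := ndB2q1) (n2 := ndB6q3) (pc := pcB3) (cut := Cut.none) (xt := Ext.none) (P1 := 536870912) (W1 := 536870912) (P2 := 0) (W2 := 1230186008) (P3 := 587336777) (W3 := 62277027) (N0 := 3) (En := eng) (mo := mog) (C1 := cd2q1) (C2 := cd6q3) (C3 := pd3)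
    rfl k0_pp_133

noncomputable def f_pp_202_a : ℕ → ℕ → ℕ → ℕ → Bool := onCell 0 536870912 0 536870912 587336777 62277027
    (rowB 3 eng mog cd2q2a cd6q0 pd2 0 true true true .pp 2 0 2 (qsf 0 536870912 0 536870912 2) ndB2q2a ndB6q0 pcB2 Cut.none Ext.none)

def k0_pp_202_a : ∃ t, chk3 f_pp_202_a t 1 1 1 = true :=
  ⟨(l 4), by decide +kernel⟩

theorem c_pp_202_a : CertB 0 536870912 0 536870912 587336777 62277027 3 eng mog cd2q2a cd6q0 pd2 true true true .pp 2 0 2
    ndB2q2a ndB6q0 pcB2 Cut.none Ext.none :=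
  certB0 (fam := true) (s1 := true) (s2 := true) (a := 2) (b := 0) (c := 2) (cn := .pp) (n1 := ndB2q2a) (n2 := ndB6q0) (pc := pcB2) (cut := Cut.none) (xt := Ext.none) (P1 := 0) (W1 := 536870912) (P2 := 0) (W2 := 536870912) (P3 := 587336777) (W3 := 62277027) (N0 := 3) (En := eng) (mo := mog) (C1 := cd2q2a) (C2 := cd6q0) (C3 := pd2)
    rfl k0_pp_202_a

noncomputable def f_pp_202_b : ℕ → ℕ → ℕ → ℕ → Bool := onCell 1239849684 370763052 0 536870912 587336777 62277027
    (rowB 3 eng mog cd2q2b cd6q0 pd2 0 true true true .pp 2 0 2 (qsf 1239849684 370763052 0 536870912 2) ndB2q2b ndB6q0 pcB2 Cut.none Ext.none)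

def k0_pp_202_b : ∃ t, chk3 f_pp_202_b t 1 1 1 = true :=
  ⟨(l 4), by decide +kernel⟩

theorem c_pp_202_b : CertB 1239849684 370763052 0 536870912 587336777 62277027 3 eng mog cd2q2b cd6q0 pd2 true true true .pp 2 0 2
    ndB2q2b ndB6q0 pcB2 Cut.none Ext.none :=
  certB0 (fam := true) (s1 := true) (s2 := true) (a := 2) (b := 0) (c := 2) (cn := .pp) (n1 := ndB2q2b) (n2 := ndB6q0) (pc := pcB2) (cut := Cut.none) (xt := Ext.none) (P1 := 1239849684) (W1 := 370763052) (P2 := 0) (W2 := 536870912) (P3 := 587336777) (W3 := 62277027) (N0 := 3) (En := eng) (mo := mog) (C1 := cd2q2b) (C2 := cd6q0) (C3 := pd2)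
    rfl k0_pp_202_b

noncomputable def f_pp_203_a : ℕ → ℕ → ℕ → ℕ → Bool := onCell 0 536870912 0 536870912 587336777 62277027
    (rowB 3 eng mog cd2q2a cd6q0 pd3 0 true true true .up 2 0 3 (qsf 0 536870912 0 536870912 3) ndB2q2a ndB6q0 pcB3 Cut.none Ext.none)

def k0_pp_203_a : ∃ t, chk3 f_pp_203_a t 1 1 1 = true :=
  ⟨(l 4), by decide +kernel⟩

theorem c_pp_203_a : CertB 0 536870912 0 536870912 587336777 62277027 3 eng mog cd2q2a cd6q0 pd3 true true true .up 2 0 3
    ndB2q2a ndB6q0 pcB3 Cut.none Ext.none :=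
  certB0 (fam := true) (s1 := true) (s2 := true) (a := 2) (b := 0) (c := 3) (cn := .up) (n1 := ndB2q2a) (n2 := ndB6q0) (pc := pcB3) (cut := Cut.none) (xt := Ext.none) (P1 := 0) (W1 := 536870912) (P2 := 0) (W2 := 536870912) (P3 := 587336777) (W3 := 62277027) (N0 := 3) (En := eng) (mo := mog) (C1 := cd2q2a) (C2 := cd6q0) (C3 := pd3)
    rfl k0_pp_203_a

noncomputable def f_pp_203_b : ℕ → ℕ → ℕ → ℕ → Bool := onCell 1239849684 370763052 0 536870912 587336777 62277027
    (rowB 3 eng mog cd2q2b cd6q0 pd3 0 true true true .up 2 0 3 (qsf 1239849684 370763052 0 536870912 3) ndB2q2b ndB6q0 pcB3 Cut.none Ext.none)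

def k0_pp_203_b : ∃ t, chk3 f_pp_203_b t 1 1 1 = true :=
  ⟨(l 4), by decide +kernel⟩

theorem c_pp_203_b : CertB 1239849684 370763052 0 536870912 587336777 62277027 3 eng mog cd2q2b cd6q0 pd3 true true true .up 2 0 3
    ndB2q2b ndB6q0 pcB3 Cut.none Ext.none :=
  certB0 (fam := true) (s1 := true) (s2 := true) (a := 2) (b := 0) (c := 3) (cn := .up) (n1 := ndB2q2b) (n2 := ndB6q0) (pc := pcB3) (cut := Cut.none) (xt := Ext.none) (P1 := 1239849684) (W1 := 370763052) (P2 := 0) (W2 := 536870912) (P3 := 587336777) (W3 := 62277027) (N0 := 3) (En := eng) (mo := mog) (C1 := cd2q2b) (C2 := cd6q0) (C3 := pd3)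
    rfl k0_pp_203_b

noncomputable def f_pp_213_a : ℕ → ℕ → ℕ → ℕ → Bool := onCell 0 536870912 536870912 536870912 587336777 62277027
    (rowB 3 eng mog cd2q2a cd6q1 pd3 0 true true true .pnn 2 1 3 (qsf 0 536870912 536870912 536870912 3) ndB2q2a ndB6q1 pcB3 Cut.none Ext.none)

def k0_pp_213_a : ∃ t, chk3 f_pp_213_a t 1 1 1 = true :=
  ⟨(l 4), by decide +kernel⟩

theorem c_pp_213_a : CertB 0 536870912 536870912 536870912 587336777 62277027 3 eng mog cd2q2a cd6q1 pd3 true true true .pnn 2 1 3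
    ndB2q2a ndB6q1 pcB3 Cut.none Ext.none :=
  certB0 (fam := true) (s1 := true) (s2 := true) (a := 2) (b := 1) (c := 3) (cn := .pnn) (n1 := ndB2q2a) (n2 := ndB6q1) (pc := pcB3) (cut := Cut.none) (xt := Ext.none) (P1 := 0) (W1 := 536870912) (P2 := 536870912) (W2 := 536870912) (P3 := 587336777) (W3 := 62277027) (N0 := 3) (En := eng) (mo := mog) (C1 := cd2q2a) (C2 := cd6q1) (C3 := pd3)
    rfl k0_pp_213_a

noncomputable def f_pp_213_b : ℕ → ℕ → ℕ → ℕ → Bool := onCell 1239849684 370763052 536870912 536870912 587336777 62277027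
    (rowB 3 eng mog cd2q2b cd6q1 pd3 0 true true true .pnn 2 1 3 (qsf 1239849684 370763052 536870912 536870912 3) ndB2q2b ndB6q1 pcB3 Cut.none Ext.none)

def k0_pp_213_b : ∃ t, chk3 f_pp_213_b t 1 1 1 = true :=
  ⟨(l 4), by decide +kernel⟩

theorem c_pp_213_b : CertB 1239849684 370763052 536870912 536870912 587336777 62277027 3 eng mog cd2q2b cd6q1 pd3 true true true .pnn 2 1 3
    ndB2q2b ndB6q1 pcB3 Cut.none Ext.none :=
  certB0 (fam := true) (s1 := true) (s2 := true) (a := 2) (b := 1) (c := 3) (cn := .pnn) (n1 := ndB2q2b) (n2 := ndB6q1) (pc := pcB3) (cut := Cut.none) (xt := Ext.none) (P1 := 1239849684) (W1 := 370763052) (P2 := 536870912) (W2 := 536870912) (P3 := 587336777) (W3 := 62277027) (N0 := 3) (En := eng) (mo := mog) (C1 := cd2q2b) (C2 := cd6q1) (C3 := pd3)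
    rfl k0_pp_213_b

noncomputable def f_pp_303 : ℕ → ℕ → ℕ → ℕ → Bool := onCell 1610612736 536870912 0 536870912 587336777 62277027
    (rowB 3 eng mog cd2q3 cd6q0 pd3 0 true true true .npn 3 0 3 (qsf 1610612736 536870912 0 536870912 3) ndB2q3 ndB6q0 pcB3 Cut.none Ext.none)

def k0_pp_303 : ∃ t, chk3 f_pp_303 t 1 1 1 = true :=
  ⟨(l 4), by decide +kernel⟩

theorem c_pp_303 : CertB 1610612736 536870912 0 536870912 587336777 62277027 3 eng mog cd2q3 cd6q0 pd3 true true true .npn 3 0 3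
    ndB2q3 ndB6q0 pcB3 Cut.none Ext.none :=
  certB0 (fam := true) (s1 := true) (s2 := true) (a := 3) (b := 0) (c := 3) (cn := .npn) (n1 := ndB2q3) (n2 := ndB6q0) (pc := pcB3) (cut := Cut.none) (xt := Ext.none) (P1 := 1610612736) (W1 := 536870912) (P2 := 0) (W2 := 536870912) (P3 := 587336777) (W3 := 62277027) (N0 := 3) (En := eng) (mo := mog) (C1 := cd2q3) (C2 := cd6q0) (C3 := pd3)
    rfl k0_pp_303

noncomputable def f_pp_313 : ℕ → ℕ → ℕ → ℕ → Bool := onCell 1610612736 536870912 536870912 536870912 587336777 62277027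
    (rowB 3 eng mog cd2q3 cd6q1 pd3 0 true true true .dn 3 1 3 (qsf 1610612736 536870912 536870912 536870912 3) ndB2q3 ndB6q1 pcB3 Cut.none Ext.none)

def k0_pp_313 : ∃ t, chk3 f_pp_313 t 1 1 1 = true :=
  ⟨(l 4), by decide +kernel⟩

theorem c_pp_313 : CertB 1610612736 536870912 536870912 536870912 587336777 62277027 3 eng mog cd2q3 cd6q1 pd3 true true true .dn 3 1 3
    ndB2q3 ndB6q1 pcB3 Cut.none Ext.none :=
  certB0 (fam := true) (s1 := true) (s2 := true) (a := 3) (b := 1) (c := 3) (cn := .dn) (n1 := ndB2q3) (n2 := ndB6q1) (pc := pcB3) (cut := Cut.none) (xt := Ext.none) (P1 := 1610612736) (W1 := 536870912) (P2 := 536870912) (W2 := 536870912) (P3 := 587336777) (W3 := 62277027) (N0 := 3) (En := eng) (mo := mog) (C1 := cd2q3) (C2 := cd6q1) (C3 := pd3)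
    rfl k0_pp_313

noncomputable def f_pm_001 : ℕ → ℕ → ℕ → ℕ → Bool := onCell 0 536870912 536870912 536870912 587336777 62277027
    (rowB 3 eng mog cd2q0 cd6q0 pd1 1 true true false .up 0 0 1 (qsf 0 536870912 0 536870912 1) ndB2q0 ndB6q0 pcB1 Cut.none Ext.none)

def k0_pm_001 : ∃ t, chk3 f_pm_001 t 1 1 1 = true :=
  ⟨(b (l 3) (b (l 3) (a (l 2) (b (l 3) (a (l 2) (b (a (l 16438096) (l 16351880)) (l 66135291367))))))), by decide +kernel⟩

theorem c_pm_001 : CertB 0 536870912 0 536870912 587336777 62277027 3 eng mog cd2q0 cd6q0 pd1 true true false .up 0 0 1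
    ndB2q0 ndB6q0 pcB1 Cut.none Ext.none :=
  certB1 (fam := true) (s1 := true) (s2 := false) (a := 0) (b := 0) (c := 1) (cn := .up) (n1 := ndB2q0) (n2 := ndB6q0) (pc := pcB1) (cut := Cut.none) (xt := Ext.none) (P1 := 0) (W1 := 536870912) (P2 := 0) (W2 := 536870912) (P3 := 587336777) (W3 := 62277027) (N0 := 3) (En := eng) (mo := mog) (C1 := cd2q0) (C2 := cd6q0) (C3 := pd1)
    rfl (fun _ => rfl) k0_pm_001

noncomputable def cut_pm_011 : Cut := Cut.of [[⟨0, 0, 0, 67108864⟩, ⟨1, 1, 0, 67108864⟩, ⟨2, 1, 0, 67108864⟩]]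

noncomputable def f_pm_011 : ℕ → ℕ → ℕ → ℕ → Bool := onCell 0 536870912 536870912 536870912 587336777 62277027
    (rowB 3 eng mog cd2q0 cd6q1 pd1 1 true true false .pnn 0 1 1 (qsf 0 536870912 536870912 536870912 1) ndB2q0 ndB6q1 pcB1 cut_pm_011 Ext.none)

def k0_pm_011 : ∃ t, chk3 f_pm_011 t 1 1 1 = true :=
  ⟨(b (l 3) (b (l 3) (a (b (l 3) (b (l 3) (b (a (l 3) (a (l 3) (l 3))) (b (a (l 3) (a (l 16657160) (l 16573016))) (a (a (a (l 6) (a (l 6) (l 16726616))) (a (l 16701840) (l 16668960))) (a (l 16640472) (l 16557664))))))) (b (l 3) (a (b (a (l 3) (l 16488816)) (a (b (l 16554832) (l 16505504)) (b (l 16470272) (l 16446392)))) (b (a (l 16416632) (l 16361136)) (a (l 16435784) (l 16325504)))))))), by decide +kernel⟩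

theorem c_pm_011 : CertB 0 536870912 536870912 536870912 587336777 62277027 3 eng mog cd2q0 cd6q1 pd1 true true false .pnn 0 1 1
    ndB2q0 ndB6q1 pcB1 cut_pm_011 Ext.none :=
  certB1 (fam := true) (s1 := true) (s2 := false) (a := 0) (b := 1) (c := 1) (cn := .pnn) (n1 := ndB2q0) (n2 := ndB6q1) (pc := pcB1) (cut := cut_pm_011) (xt := Ext.none) (P1 := 0) (W1 := 536870912) (P2 := 536870912) (W2 := 536870912) (P3 := 587336777) (W3 := 62277027) (N0 := 3) (En := eng) (mo := mog) (C1 := cd2q0) (C2 := cd6q1) (C3 := pd1)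
    rfl (fun _ => rfl) k0_pm_011

noncomputable def cut_pm_012 : Cut := Cut.of [[⟨0, 0, 0, 67108864⟩, ⟨1, 1, 0, 67108864⟩, ⟨2, 1, 0, 67108864⟩]]

noncomputable def f_pm_012 : ℕ → ℕ → ℕ → ℕ → Bool := onCell 1073741824 536870912 536870912 536870912 587336777 62277027
    (rowB 3 eng mog cd2q0 cd6q1 pd2 2 true true false .pnp 0 1 2 (qsf 0 536870912 536870912 536870912 2) ndB2q0 ndB6q1 pcB2 cut_pm_012 Ext.none)

def k0_pm_012 : ∃ t, chk3 f_pm_012 t 4 1 1 = true :=
  ⟨(a (b (b (b (l 16326064) (l 16488064)) (b (a (l 16410920) (l 16373768)) (a (l 16484240) (l 16414208)))) (b (b (a (a (l 16532208) (l 16499336)) (l 16474240)) (a (b (l 16618800) (l 16636912)) (b (l 16482848) (l 16504296)))) (a (b (a (b (l 16637552) (l 16705824)) (b (l 16613312) (l 16663200))) (b (a (b (a (l 16705672) (l 16680232)) (a (l 6) (l 16716744))) (b (l 16642760) (a (l 16669944) (l 16644488)))) (b (a (l 6) (a (l 6) (l 16679544))) (l 6)))) (b (b (l 16611392) (a (l 16595800) (l 16529776)))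 (b (a (b (l 16594144) (l 16607000)) (b (l 16547128) (l 16558432))) (b (a (b (l 16616680) (l 16623144)) (l 16569760)) (a (b (l 16650600) (l 6)) (b (l 16578272) (l 16583968))))))))) (b (b (b (l 16254864) (l 16296176)) (b (l 16516920) (a (l 16370984) (l 16334808)))) (b (b (a (l 16398120) (l 16351272)) (a (b (l 16417728) (l 16432392)) (l 16512424))) (b (a (b (l 16448328) (l 16507504)) (b (l 16378704) (l 16388256))) (a (b (b (l 16479368) (l 16530552)) (b (l 16581504) (a (l 16530992) (l 16482576)))) (b (a (l 16419176) (l 16378960)) (b (l 16491256) (a (l 16435904) (l 16390984))))))))), by decide +kernel⟩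

def k1_pm_012 : ∃ t, chk3 f_pm_012 t 5 1 1 = true :=
  ⟨(b (a (b (a (a (l 16257272) (l 2)) (l 2)) (a (a (l 16306200) (b (l 16300880) (l 16437672))) (l 16293000))) (b (l 2) (l 16404424))) (b (a (a (a (b (l 16322560) (l 16328104)) (b (a (l 16311040) (l 16309944)) (a (l 16312280) (a (l 16305640) (l 16304264))))) (b (l 16293304) (l 16284432))) (b (l 16278720) (l 16253328))) (a (b (a (a (l 16335520) (a (l 16314456) (a (l 16305048) (a (l 16301104) (l 16299288))))) (b (l 16277080) (l 16270984))) (a (a (b (l 16341712) (l 16388592)) (a (b (l 16315904) (l 16317208)) (b (a (l 16303936) (l 16360264)) (a (l 16303272) (a (l 16296616) (l 16292424)))))) (b (l 16264048) (a (l 16272872) (l 16240872))))) (b (b (l 16232064) (l 16215304)) (b (l 16259472) (a (l 16199464) (l 16155872))))))), by decide +kernel⟩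

def k2_pm_012 : ∃ t, chk3 f_pm_012 t 3 1 1 = true :=
  ⟨(b (a (b (l 2) (a (l 16327216) (l 2))) (l 2)) (a (b (a (b (l 16285912) (l 16244184)) (b (l 16326432) (l 16273960))) (a (b (l 16195384) (b (l 16150160) (l 16199392))) (b (l 16212040) (a (l 16127360) (l 16141312))))) (b (a (l 16374072) (l 2)) (a (b (l 16268376) (l 16175432)) (b (l 16358480) (l 16253616)))))), by decide +kernel⟩

theorem s3_pm_012 : ∃ t, chk3 f_pm_012 t 2 1 1 = true := ex3_a k0_pm_012 k1_pm_012

theorem s4_pm_012 : ∃ t, chk3 f_pm_012 t 1 1 1 = true := ex3_a s3_pm_012 k2_pm_012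

theorem c_pm_012 : CertB 0 536870912 536870912 536870912 587336777 62277027 3 eng mog cd2q0 cd6q1 pd2 true true false .pnp 0 1 2
    ndB2q0 ndB6q1 pcB2 cut_pm_012 Ext.none :=
  certB2 (fam := true) (s1 := true) (s2 := false) (a := 0) (b := 1) (c := 2) (cn := .pnp) (n1 := ndB2q0) (n2 := ndB6q1) (pc := pcB2) (cut := cut_pm_012) (xt := Ext.none) (P1 := 0) (W1 := 536870912) (P2 := 536870912) (W2 := 536870912) (P3 := 587336777) (W3 := 62277027) (N0 := 3) (En := eng) (mo := mog) (C1 := cd2q0) (C2 := cd6q1) (C3 := pd2)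
    rfl (fun _ => rfl) s4_pm_012

noncomputable def f_pm_022 : ℕ → ℕ → ℕ → ℕ → Bool := onCell 0 536870912 1073741824 536870912 587336777 62277027
    (rowB 3 eng mog cd2q0 cd6q2 pd2 1 true true false .pp 0 2 2 (qsf 0 536870912 1073741824 536870912 2) ndB2q0 ndB6q2 pcB2 Cut.none Ext.none)

def k0_pm_022 : ∃ t, chk3 f_pm_022 t 1 1 1 = true :=
  ⟨(a (b (b (l 3) (a (b (b (b (a (l 3) (b (l 3) (l 384566804391))) (b (a (b (a (l 16477864) (l 16475480)) (a (l 16469880) (l 16467864))) (b (l 16466616) (l 16459584))) (b (a (l 16461560) (l 16452584)) (a (b (l 16476696) (b (b (b (l 16453528) (a (l 16453224) (l 16451920))) (l 16452264)) (l 16450832))) (b (l 16447288) (a (l 16446752) (l 16439904))))))) (a (a (b (l 16434472) (l 16403872)) (l 16419424)) (l 16414912))) (a (a (b (l 16378688) (l 16292248)) (b (l 16362616) (l 16307128))) (b (l 16362720) (l 16313088)))) (a (b (b (b (b (l 3) (l 36003368759)) (b (b (l 16443704) (l 16437736)) (b (l 16431792) (b (l 16427376)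 (a (l 16430496) (l 16417216)))))) (l 16400464)) (l 16336504)) (b (b (l 1) (l 16371736)) (l 16346872))))) (a (b (b (a (a (l 16231216) (l 16215936)) (b (a (l 16262072) (l 16266968)) (l 16217136))) (a (a (b (l 16145304) (l 16121760)) (l 16116680)) (l 16134200))) (a (b (b (l 16336856) (l 16119256)) (l 16167632)) (b (l 16141208) (l 16066016)))) (b (a (b (b (l 16276952) (l 16239472)) (a (l 16173360) (l 16196552))) (b (l 16270800) (l 16220072))) (b (a (l 16105184) (l 16175240)) (a (l 15986496) (l 16123392)))))) (b (b (l 1) (b (l 1) (a (a (l 195990865991) (l 1)) (l 1)))) (b (a (b (a (l 16271216) (l 16267416)) (l 49425088903)) (b (l 1) (l 320008017575))) (a (b (a (l 16214552) (l 16252344)) (a (l 16192136) (l 16242936))) (b (l 75195069255) (l 16395560)))))), by decide +kernel⟩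

theorem c_pm_022 : CertB 0 536870912 1073741824 536870912 587336777 62277027 3 eng mog cd2q0 cd6q2 pd2 true true false .pp 0 2 2
    ndB2q0 ndB6q2 pcB2 Cut.none Ext.none :=
  certB1 (fam := true) (s1 := true) (s2 := false) (a := 0) (b := 2) (c := 2) (cn := .pp) (n1 := ndB2q0) (n2 := ndB6q2) (pc := pcB2) (cut := Cut.none) (xt := Ext.none) (P1 := 0) (W1 := 536870912) (P2 := 1073741824) (W2 := 536870912) (P3 := 587336777) (W3 := 62277027) (N0 := 3) (En := eng) (mo := mog) (C1 := cd2q0) (C2 := cd6q2) (C3 := pd2)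
    rfl (fun _ => rfl) k0_pm_022

noncomputable def f_pm_023 : ℕ → ℕ → ℕ → ℕ → Bool := onCell 0 536870912 1073741824 536870912 587336777 62277027
    (rowB 3 eng mog cd2q0 cd6q2 pd3 0 true true false .up 0 2 3 (qsf 0 536870912 1073741824 536870912 3) ndB2q0 ndB6q2 pcB3 Cut.none Ext.none)

def k0_pm_023 : ∃ t, chk3 f_pm_023 t 1 1 1 = true :=
  ⟨(a (b (a (l 1) (b (l 1) (l 281353254279))) (b (a (l 337187691431) (l 295848392519)) (a (b (l 412349592391) (l 16195912)) (b (l 16041864) (l 16312752))))) (b (b (a (l 209949505431) (l 220687048327)) (a (l 244846052087) (l 16508976))) (b (a (l 16155712) (l 16478872)) (b (a (l 16407576) (l 16597560)) (a (l 16534424) (a (l 16635512) (b (l 16663936) (a (l 16679328) (b (l 16689344) (a (l 16697288) (b (l 16701728) (a (l 16705928) (l 16707792))))))))))))), by decide +kernel⟩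

theorem c_pm_023 : CertB 0 536870912 1073741824 536870912 587336777 62277027 3 eng mog cd2q0 cd6q2 pd3 true true false .up 0 2 3
    ndB2q0 ndB6q2 pcB3 Cut.none Ext.none :=
  certB0 (fam := true) (s1 := true) (s2 := false) (a := 0) (b := 2) (c := 3) (cn := .up) (n1 := ndB2q0) (n2 := ndB6q2) (pc := pcB3) (cut := Cut.none) (xt := Ext.none) (P1 := 0) (W1 := 536870912) (P2 := 1073741824) (W2 := 536870912) (P3 := 587336777) (W3 := 62277027) (N0 := 3) (En := eng) (mo := mog) (C1 := cd2q0) (C2 := cd6q2) (C3 := pd3)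
    rfl k0_pm_023

noncomputable def f_pm_033 : ℕ → ℕ → ℕ → ℕ → Bool := onCell 1610612736 536870912 0 1230186008 587336777 62277027
    (rowB 3 eng mog cd2q0 cd6q3 pd3 2 true true false .pnn 0 3 3 (qsf 0 536870912 0 1230186008 3) ndB2q0 ndB6q3 pcB3 Cut.none Ext.none)

def k0_pm_033 : ∃ t, chk3 f_pm_033 t 1 1 1 = true :=
  ⟨(a (b (l 1) (b (b (l 1) (a (l 1) (a (l 1) (b (l 1) (l 544420057415))))) (b (a (l 1) (a (b (l 528850705895) (l 488585834199)) (b (l 433824757671) (l 16453480)))) (b (a (a (l 1) (l 518113104423)) (a (l 16382072) (l 16451312))) (a (l 474089775015) (l 16413928)))))) (a (b (l 1) (b (a (b (l 1) (a (l 382285378039) (l 16522936))) (b (a (l 459058190583) (l 16565464)) (a (l 16544256) (l 16566384)))) (b (a (b (l 16507136) (l 16508584)) (l 16566928)) (b (l 16558248) (l 16573824))))) (b (b (l 4) (a (a (l 16550168) (l 4)) (l 4))) (a (b (b (a (l 16574008) (l 16582608)) (a (l 16588968) (l 16605616))) (b (a (l 16608184) (l 16634488)) (l 16650392)))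 (a (b (l 138747758551) (b (l 16658096) (l 16685088))) (b (l 4) (a (l 16724400) (b (l 4) (l 16909288))))))))), by decide +kernel⟩

theorem c_pm_033 : CertB 0 536870912 0 1230186008 587336777 62277027 3 eng mog cd2q0 cd6q3 pd3 true true false .pnn 0 3 3
    ndB2q0 ndB6q3 pcB3 Cut.none Ext.none :=
  certB2 (fam := true) (s1 := true) (s2 := false) (a := 0) (b := 3) (c := 3) (cn := .pnn) (n1 := ndB2q0) (n2 := ndB6q3) (pc := pcB3) (cut := Cut.none) (xt := Ext.none) (P1 := 0) (W1 := 536870912) (P2 := 0) (W2 := 1230186008) (P3 := 587336777) (W3 := 62277027) (N0 := 3) (En := eng) (mo := mog) (C1 := cd2q0) (C2 := cd6q3) (C3 := pd3)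
    rfl (fun _ => rfl) k0_pm_033

noncomputable def f_pm_101 : ℕ → ℕ → ℕ → ℕ → Bool := onCell 536870912 536870912 0 536870912 587336777 62277027
    (rowB 3 eng mog cd2q1 cd6q0 pd1 2 true true false .npn 1 0 1 (qsf 536870912 536870912 0 536870912 1) ndB2q1 ndB6q0 pcB1 Cut.none Ext.none)

def k0_pm_101 : ∃ t, chk3 f_pm_101 t 1 1 1 = true :=
  ⟨(a (l 3) (a (b (b (b (l 3) (l 3)) (l 3)) (l 3)) (b (b (a (b (a (a (b (c (l 88751335527) (a (l 82845647447) (l 16627728))) (c (l 64055243655) (a (l 49559614519) (l 84456198327)))) (b (a (l 16638096) (l 16626560)) (a (c (l 16655608) (l 16601936)) (l 16616384)))) (a (b (l 16610072) (l 16599976)) (b (l 16588392) (l 16578064)))) (a (a (b (b (l 38285330583) (l 16629120)) (l 3)) (b (a (l 13052328119) (l 16603232)) (a (l 16599528) (l 16587480)))) (a (b (l 16586272) (l 16569728)) (b (l 16563744) (l 16545912))))) (a (b (b (l 16567232) (l 16545192)) (b (l 16528064) (l 16507112))) (b (a (l 16517864) (l 16492136)) (a (l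 16476192) (l 16442096))))) (a (a (a (l 3) (b (b (b (l 16581064) (l 16573816)) (l 16562584)) (l 3))) (a (b (b (l 16552128) (l 16535328)) (l 16508552)) (b (l 16559160) (l 16477504)))) (a (b (b (l 16484304) (l 16462216)) (a (l 16444784) (l 16408808))) (b (l 16403336) (l 16347112))))) (b (a (a (l 3) (b (l 72645043463) (l 16389128))) (a (b (l 16372296) (l 16302424)) (b (b (l 16301920) (l 16262440)) (l 16202384)))) (a (l 3) (b (a (l 137068782151) (b (l 16182960) (l 16243744))) (a (l 138545920727) (l 16359576)))))))), by decide +kernel⟩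

theorem c_pm_101 : CertB 536870912 536870912 0 536870912 587336777 62277027 3 eng mog cd2q1 cd6q0 pd1 true true false .npn 1 0 1
    ndB2q1 ndB6q0 pcB1 Cut.none Ext.none :=
  certB2 (fam := true) (s1 := true) (s2 := false) (a := 1) (b := 0) (c := 1) (cn := .npn) (n1 := ndB2q1) (n2 := ndB6q0) (pc := pcB1) (cut := Cut.none) (xt := Ext.none) (P1 := 536870912) (W1 := 536870912) (P2 := 0) (W2 := 536870912) (P3 := 587336777) (W3 := 62277027) (N0 := 3) (En := eng) (mo := mog) (C1 := cd2q1) (C2 := cd6q0) (C3 := pd1)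
    rfl (fun _ => rfl) k0_pm_101

noncomputable def f_pm_102 : ℕ → ℕ → ℕ → ℕ → Bool := onCell 536870912 536870912 1073741824 536870912 587336777 62277027
    (rowB 3 eng mog cd2q1 cd6q0 pd2 1 true true false .npp 1 0 2 (qsf 536870912 536870912 0 536870912 2) ndB2q1 ndB6q0 pcB2 Cut.none Ext.none)

def k0_pm_102 : ∃ t, chk3 f_pm_102 t 1 1 1 = true :=
  ⟨(b (a (b (a (b (a (l 16468520) (b (l 16243824) (l 16265928))) (a (l 16313408) (l 16294224))) (b (a (b (l 16182112) (l 16234528)) (l 16226328)) (a (l 16287296) (l 16303584)))) (b (a (b (b (l 16306920) (l 2)) (l 2)) (b (b (l 16314216) (l 16476944)) (l 16341512))) (a (l 2) (l 16399496)))) (b (a (b (a (l 16284720) (b (l 16346624) (l 16351040))) (a (l 16346128) (l 16402984))) (b (a (b (l 16448136) (l 16418336)) (b (a (l 16578320) (l 16486504)) (a (l 16474464) (l 16487384)))) (a (l 16464896) (b (l 16502776) (l 16522664))))) (b (a (b (b (l 16404736) (l 16420640)) (l 16440112)) (b (b (l 16523184) (a (l 16511328)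 (l 16557904))) (l 16563248))) (a (l 16504672) (l 16628416))))) (a (b (a (l 2) (b (l 16476664) (l 2))) (l 2)) (b (a (b (l 16585248) (l 16681760)) (b (a (l 16692696) (l 16738512)) (l 16825536))) (a (l 17114792) (l 17038768))))), by decide +kernel⟩

theorem c_pm_102 : CertB 536870912 536870912 0 536870912 587336777 62277027 3 eng mog cd2q1 cd6q0 pd2 true true false .npp 1 0 2
    ndB2q1 ndB6q0 pcB2 Cut.none Ext.none :=
  certB1 (fam := true) (s1 := true) (s2 := false) (a := 1) (b := 0) (c := 2) (cn := .npp) (n1 := ndB2q1) (n2 := ndB6q0) (pc := pcB2) (cut := Cut.none) (xt := Ext.none) (P1 := 536870912) (W1 := 536870912) (P2 := 0) (W2 := 536870912) (P3 := 587336777) (W3 := 62277027) (N0 := 3) (En := eng) (mo := mog) (C1 := cd2q1) (C2 := cd6q0) (C3 := pd2)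
    rfl (fun _ => rfl) k0_pm_102

noncomputable def f_pm_112 : ℕ → ℕ → ℕ → ℕ → Bool := onCell 536870912 536870912 1073741824 536870912 587336777 62277027
    (rowB 3 eng mog cd2q1 cd6q1 pd2 1 true true false .dn 1 1 2 (qsf 536870912 536870912 536870912 536870912 2) ndB2q1 ndB6q1 pcB2 Cut.none Ext.none)

def k0_pm_112 : ∃ t, chk3 f_pm_112 t 1 1 1 = true :=
  ⟨(b (a (b (a (b (a (l 16303648) (l 16265856)) (a (l 16316256) (l 16295080))) (b (l 1) (l 16296176))) (b (a (b (b (l 16306064) (b (l 16307840) (l 16315736))) (l 16318128)) (b (b (l 16313104) (l 16328552)) (l 16340240))) (a (l 16341896) (l 16395608)))) (b (l 1) (a (b (l 1) (l 16494832)) (l 1)))) (a (b (a (b (l 16359808) (l 16379952)) (b (l 16454304) (l 16515104))) (a (a (l 16385448) (l 16481448)) (l 16648712))) (b (a (b (l 16582424) (l 16678464)) (l 351147150183)) (a (l 16875296) (l 17036688))))), by decide +kernel⟩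

theorem c_pm_112 : CertB 536870912 536870912 536870912 536870912 587336777 62277027 3 eng mog cd2q1 cd6q1 pd2 true true false .dn 1 1 2
    ndB2q1 ndB6q1 pcB2 Cut.none Ext.none :=
  certB1 (fam := true) (s1 := true) (s2 := false) (a := 1) (b := 1) (c := 2) (cn := .dn) (n1 := ndB2q1) (n2 := ndB6q1) (pc := pcB2) (cut := Cut.none) (xt := Ext.none) (P1 := 536870912) (W1 := 536870912) (P2 := 536870912) (W2 := 536870912) (P3 := 587336777) (W3 := 62277027) (N0 := 3) (En := eng) (mo := mog) (C1 := cd2q1) (C2 := cd6q1) (C3 := pd2)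
    rfl (fun _ => rfl) k0_pm_112

noncomputable def f_pm_113 : ℕ → ℕ → ℕ → ℕ → Bool := onCell 536870912 536870912 1610612736 536870912 587336777 62277027
    (rowB 3 eng mog cd2q1 cd6q1 pd3 1 true true false .nn 1 1 3 (qsf 536870912 536870912 536870912 536870912 3) ndB2q1 ndB6q1 pcB3 Cut.none Ext.none)

def k0_pm_113 : ∃ t, chk3 f_pm_113 t 1 1 1 = true :=
  ⟨(a (b (b (b (b (a (l 16451464) (l 16735944)) (a (l 16406880) (l 16663632))) (b (l 300210736231) (l 302358222423))) (b (a (l 343160134455) (b (l 16663592) (l 16645648))) (a (l 2) (l 16624456)))) (b (b (a (l 2) (l 16611992)) (l 2)) (l 2))) (a (b (b (b (b (l 16894800) (l 16829872)) (l 16813072)) (b (l 16776976) (l 16739104))) (b (b (l 16718760) (l 16698104)) (b (l 16693040) (l 2)))) (b (b (b (l 17004856) (l 16931048)) (b (l 16864512) (l 16811784))) (b (b (l 16761968) (l 16710608)) (l 4))))), by decide +kernel⟩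

theorem c_pm_113 : CertB 536870912 536870912 536870912 536870912 587336777 62277027 3 eng mog cd2q1 cd6q1 pd3 true true false .nn 1 1 3
    ndB2q1 ndB6q1 pcB3 Cut.none Ext.none :=
  certB1 (fam := true) (s1 := true) (s2 := false) (a := 1) (b := 1) (c := 3) (cn := .nn) (n1 := ndB2q1) (n2 := ndB6q1) (pc := pcB3) (cut := Cut.none) (xt := Ext.none) (P1 := 536870912) (W1 := 536870912) (P2 := 536870912) (W2 := 536870912) (P3 := 587336777) (W3 := 62277027) (N0 := 3) (En := eng) (mo := mog) (C1 := cd2q1) (C2 := cd6q1) (C3 := pd3)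
    rfl (fun _ => rfl) k0_pm_113

noncomputable def f_pm_123 : ℕ → ℕ → ℕ → ℕ → Bool := onCell 1610612736 536870912 1073741824 536870912 587336777 62277027
    (rowB 3 eng mog cd2q1 cd6q2 pd3 2 true true false .npn 1 2 3 (qsf 536870912 536870912 1073741824 536870912 3) ndB2q1 ndB6q2 pcB3 Cut.none Ext.none)

def k0_pm_123 : ∃ t, chk3 f_pm_123 t 1 1 1 = true :=
  ⟨(a (a (b (b (a (l 16452864) (l 16555976)) (l 276521902103)) (l 1)) (b (b (a (l 16649888) (l 16700768)) (l 16537136)) (b (l 16512208) (l 1)))) (b (b (a (a (l 16728672) (l 16739320)) (a (a (l 16733224) (l 16723184)) (a (l 16701888) (a (l 16674216) (l 4))))) (a (a (l 16610648) (l 16636144)) (a (l 16649224) (a (l 16655528) (a (l 16655224) (b (l 16637424) (l 16856744))))))) (a (b (l 16605624) (l 16645608)) (a (b (l 16643216) (l 16684112)) (a (b (l 16656024) (l 16698920)) (a (b (l 16663712) (l 16706216)) (b (a (l 16668008) (l 16667720)) (a (l 16710168) (l 16713024))))))))), by decide +kernel⟩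

theorem c_pm_123 : CertB 536870912 536870912 1073741824 536870912 587336777 62277027 3 eng mog cd2q1 cd6q2 pd3 true true false .npn 1 2 3
    ndB2q1 ndB6q2 pcB3 Cut.none Ext.none :=
  certB2 (fam := true) (s1 := true) (s2 := false) (a := 1) (b := 2) (c := 3) (cn := .npn) (n1 := ndB2q1) (n2 := ndB6q2) (pc := pcB3) (cut := Cut.none) (xt := Ext.none) (P1 := 536870912) (W1 := 536870912) (P2 := 1073741824) (W2 := 536870912) (P3 := 587336777) (W3 := 62277027) (N0 := 3) (En := eng) (mo := mog) (C1 := cd2q1) (C2 := cd6q2) (C3 := pd3)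
    rfl (fun _ => rfl) k0_pm_123

noncomputable def f_pm_133 : ℕ → ℕ → ℕ → ℕ → Bool := onCell 536870912 536870912 0 1230186008 587336777 62277027
    (rowB 3 eng mog cd2q1 cd6q3 pd3 0 true true false .dn 1 3 3 (qsf 536870912 536870912 0 1230186008 3) ndB2q1 ndB6q3 pcB3 Cut.none Ext.none)

def k0_pm_133 : ∃ t, chk3 f_pm_133 t 1 1 1 = true :=
  ⟨(b (l 2) (b (l 2) (a (b (l 2) (a (b (l 2) (a (l 4) (l 2))) (l 2))) (l 2)))), by decide +kernel⟩

theorem c_pm_133 : CertB 536870912 536870912 0 1230186008 587336777 62277027 3 eng mog cd2q1 cd6q3 pd3 true true false .dn 1 3 3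
    ndB2q1 ndB6q3 pcB3 Cut.none Ext.none :=
  certB0 (fam := true) (s1 := true) (s2 := false) (a := 1) (b := 3) (c := 3) (cn := .dn) (n1 := ndB2q1) (n2 := ndB6q3) (pc := pcB3) (cut := Cut.none) (xt := Ext.none) (P1 := 536870912) (W1 := 536870912) (P2 := 0) (W2 := 1230186008) (P3 := 587336777) (W3 := 62277027) (N0 := 3) (En := eng) (mo := mog) (C1 := cd2q1) (C2 := cd6q3) (C3 := pd3)
    rfl k0_pm_133

noncomputable def f_pm_202_a : ℕ → ℕ → ℕ → ℕ → Bool := onCell 0 536870912 0 536870912 587336777 62277027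
    (rowB 3 eng mog cd2q2a cd6q0 pd2 0 true true false .pp 2 0 2 (qsf 0 536870912 0 536870912 2) ndB2q2a ndB6q0 pcB2 Cut.none Ext.none)

def k0_pm_202_a : ∃ t, chk3 f_pm_202_a t 1 2 1 = true :=
  ⟨(a (b (b (a (b (a (l 16477848) (l 16475328)) (l 16502520)) (b (a (l 16471816) (l 16468128)) (a (l 16492528) (l 16483392)))) (a (b (l 16529584) (l 16557088)) (b (l 16510968) (l 16535520)))) (b (a (b (l 16584776) (l 4)) (a (l 16582040) (l 16570640))) (a (l 4) (a (l 4) (l 16632824))))) (b (a (b (a (b (b (l 16464720) (l 16466736)) (l 16473656)) (b (a (l 16463680) (l 16463096)) (a (l 16468288) (l 16465080)))) (a (b (l 16491728) (l 16516712)) (b (a (l 16480752) (l 16475512)) (l 16501800)))) (a (b (b (b (a (l 16463320) (l 16464032)) (l 16461856)) (a (l 16463424) (l 16463376))) (b (a (l 16472624) (l 16474088)) (a (l 16493320) (l 16494456)))) (b (a (b (b (b (a (l 16466664) (l 16467840)) (l 16465040)) (l 16463448)) (b (l 16464392) (l 16468456))) (b (a (b (b (b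 (l 16470056) (l 16468744)) (l 16467280)) (l 16466632)) (b (a (b (b (b (l 16471824) (l 16471072)) (l 16470168)) (l 16469312)) (a (b (b (b (l 16472472) (l 16471856)) (l 16471296)) (l 16471248)) (b (b (c (l 16525888) (a (l 16422448) (l 16423296))) (l 16472936)) (l 16473848)))) (a (l 16470208) (b (l 16474056) (l 16476632))))) (a (l 16472192) (b (l 16478168) (l 16486920))))) (a (b (l 16479896) (l 16504336)) (b (a (l 16490688) (l 16505360)) (l 16528712)))))) (a (b (a (l 16559912) (l 16550264)) (a (l 16627416) (l 16626816))) (b (a (b (l 16527680) (l 16569488)) (b (a (l 16540488) (l 16570784)) (a (l 16588056) (l 16591584)))) (a (l 16638600) (a (l 16667872) (l 16635408))))))), by decide +kernel⟩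

def k1_pm_202_a : ∃ t, chk3 f_pm_202_a t 1 3 1 = true :=
  ⟨(a (a (l 4) (b (l 4) (l 4))) (b (a (b (a (l 16701128) (l 16713264)) (a (l 16753560) (l 16775080))) (b (a (l 16740176) (b (l 16695352) (l 16719648))) (a (l 16789256) (l 16770792)))) (a (b (a (l 4) (l 16776760)) (l 2)) (b (a (l 16806944) (l 16819664)) (a (a (l 4) (l 16782216)) (l 16806504)))))), by decide +kernel⟩

theorem s2_pm_202_a : ∃ t, chk3 f_pm_202_a t 1 1 1 = true := ex3_b k0_pm_202_a k1_pm_202_a

theorem c_pm_202_a : CertB 0 536870912 0 536870912 587336777 62277027 3 eng mog cd2q2a cd6q0 pd2 true true false .pp 2 0 2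
    ndB2q2a ndB6q0 pcB2 Cut.none Ext.none :=
  certB0 (fam := true) (s1 := true) (s2 := false) (a := 2) (b := 0) (c := 2) (cn := .pp) (n1 := ndB2q2a) (n2 := ndB6q0) (pc := pcB2) (cut := Cut.none) (xt := Ext.none) (P1 := 0) (W1 := 536870912) (P2 := 0) (W2 := 536870912) (P3 := 587336777) (W3 := 62277027) (N0 := 3) (En := eng) (mo := mog) (C1 := cd2q2a) (C2 := cd6q0) (C3 := pd2)
    rfl s2_pm_202_a

noncomputable def f_pm_202_b : ℕ → ℕ → ℕ → ℕ → Bool := onCell 1239849684 370763052 0 536870912 587336777 62277027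
    (rowB 3 eng mog cd2q2b cd6q0 pd2 0 true true false .pp 2 0 2 (qsf 1239849684 370763052 0 536870912 2) ndB2q2b ndB6q0 pcB2 Cut.none Ext.none)

def k0_pm_202_b : ∃ t, chk3 f_pm_202_b t 1 1 1 = true :=
  ⟨(b (a (b (a (b (a (b (a (l 16482200) (l 16489184)) (l 4)) (l 4)) (l 4)) (l 4)) (l 4)) (l 4)) (l 4)), by decide +kernel⟩

theorem c_pm_202_b : CertB 1239849684 370763052 0 536870912 587336777 62277027 3 eng mog cd2q2b cd6q0 pd2 true true false .pp 2 0 2
    ndB2q2b ndB6q0 pcB2 Cut.none Ext.none :=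
  certB0 (fam := true) (s1 := true) (s2 := false) (a := 2) (b := 0) (c := 2) (cn := .pp) (n1 := ndB2q2b) (n2 := ndB6q0) (pc := pcB2) (cut := Cut.none) (xt := Ext.none) (P1 := 1239849684) (W1 := 370763052) (P2 := 0) (W2 := 536870912) (P3 := 587336777) (W3 := 62277027) (N0 := 3) (En := eng) (mo := mog) (C1 := cd2q2b) (C2 := cd6q0) (C3 := pd2)
    rfl k0_pm_202_b

noncomputable def f_pm_203_a : ℕ → ℕ → ℕ → ℕ → Bool := onCell 0 536870912 1610612736 536870912 587336777 62277027
    (rowB 3 eng mog cd2q2a cd6q0 pd3 1 true true false .up 2 0 3 (qsf 0 536870912 0 536870912 3) ndB2q2a ndB6q0 pcB3 Cut.none Ext.none)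

def k0_pm_203_a : ∃ t, chk3 f_pm_203_a t 1 1 1 = true :=
  ⟨(b (a (l 4) (a (l 4) (b (b (l 16782208) (l 4)) (l 2)))) (l 2)), by decide +kernel⟩

theorem c_pm_203_a : CertB 0 536870912 0 536870912 587336777 62277027 3 eng mog cd2q2a cd6q0 pd3 true true false .up 2 0 3
    ndB2q2a ndB6q0 pcB3 Cut.none Ext.none :=
  certB1 (fam := true) (s1 := true) (s2 := false) (a := 2) (b := 0) (c := 3) (cn := .up) (n1 := ndB2q2a) (n2 := ndB6q0) (pc := pcB3) (cut := Cut.none) (xt := Ext.none) (P1 := 0) (W1 := 536870912) (P2 := 0) (W2 := 536870912) (P3 := 587336777) (W3 := 62277027) (N0 := 3) (En := eng) (mo := mog) (C1 := cd2q2a) (C2 := cd6q0) (C3 := pd3)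
    rfl (fun _ => rfl) k0_pm_203_a

noncomputable def f_pm_203_b : ℕ → ℕ → ℕ → ℕ → Bool := onCell 1239849684 370763052 1610612736 536870912 587336777 62277027
    (rowB 3 eng mog cd2q2b cd6q0 pd3 1 true true false .up 2 0 3 (qsf 1239849684 370763052 0 536870912 3) ndB2q2b ndB6q0 pcB3 Cut.none Ext.none)

def k0_pm_203_b : ∃ t, chk3 f_pm_203_b t 1 1 1 = true :=
  ⟨(l 4), by decide +kernel⟩

theorem c_pm_203_b : CertB 1239849684 370763052 0 536870912 587336777 62277027 3 eng mog cd2q2b cd6q0 pd3 true true false .up 2 0 3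
    ndB2q2b ndB6q0 pcB3 Cut.none Ext.none :=
  certB1 (fam := true) (s1 := true) (s2 := false) (a := 2) (b := 0) (c := 3) (cn := .up) (n1 := ndB2q2b) (n2 := ndB6q0) (pc := pcB3) (cut := Cut.none) (xt := Ext.none) (P1 := 1239849684) (W1 := 370763052) (P2 := 0) (W2 := 536870912) (P3 := 587336777) (W3 := 62277027) (N0 := 3) (En := eng) (mo := mog) (C1 := cd2q2b) (C2 := cd6q0) (C3 := pd3)
    rfl (fun _ => rfl) k0_pm_203_b

noncomputable def f_pm_213_a : ℕ → ℕ → ℕ → ℕ → Bool := onCell 0 536870912 1610612736 536870912 587336777 62277027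
    (rowB 3 eng mog cd2q2a cd6q1 pd3 1 true true false .pnn 2 1 3 (qsf 0 536870912 536870912 536870912 3) ndB2q2a ndB6q1 pcB3 Cut.none Ext.none)

def k0_pm_213_a : ∃ t, chk3 f_pm_213_a t 1 1 1 = true :=
  ⟨(b (a (l 4) (a (l 4) (b (b (l 16777416) (l 4)) (l 4)))) (l 4)), by decide +kernel⟩

theorem c_pm_213_a : CertB 0 536870912 536870912 536870912 587336777 62277027 3 eng mog cd2q2a cd6q1 pd3 true true false .pnn 2 1 3
    ndB2q2a ndB6q1 pcB3 Cut.none Ext.none :=
  certB1 (fam := true) (s1 := true) (s2 := false) (a := 2) (b := 1) (c := 3) (cn := .pnn) (n1 := ndB2q2a) (n2 := ndB6q1) (pc := pcB3) (cut := Cut.none) (xt := Ext.none) (P1 := 0) (W1 := 536870912) (P2 := 536870912) (W2 := 536870912) (P3 := 587336777) (W3 := 62277027) (N0 := 3) (En := eng) (mo := mog) (C1 := cd2q2a) (C2 := cd6q1) (C3 := pd3)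
    rfl (fun _ => rfl) k0_pm_213_a

noncomputable def f_pm_213_b : ℕ → ℕ → ℕ → ℕ → Bool := onCell 1239849684 370763052 536870912 536870912 587336777 62277027
    (rowB 3 eng mog cd2q2b cd6q1 pd3 0 true true false .pnn 2 1 3 (qsf 1239849684 370763052 536870912 536870912 3) ndB2q2b ndB6q1 pcB3 Cut.none Ext.none)

def k0_pm_213_b : ∃ t, chk3 f_pm_213_b t 1 1 1 = true :=
  ⟨(l 4), by decide +kernel⟩

theorem c_pm_213_b : CertB 1239849684 370763052 536870912 536870912 587336777 62277027 3 eng mog cd2q2b cd6q1 pd3 true true false .pnn 2 1 3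
    ndB2q2b ndB6q1 pcB3 Cut.none Ext.none :=
  certB0 (fam := true) (s1 := true) (s2 := false) (a := 2) (b := 1) (c := 3) (cn := .pnn) (n1 := ndB2q2b) (n2 := ndB6q1) (pc := pcB3) (cut := Cut.none) (xt := Ext.none) (P1 := 1239849684) (W1 := 370763052) (P2 := 536870912) (W2 := 536870912) (P3 := 587336777) (W3 := 62277027) (N0 := 3) (En := eng) (mo := mog) (C1 := cd2q2b) (C2 := cd6q1) (C3 := pd3)
    rfl k0_pm_213_b

noncomputable def f_pm_303 : ℕ → ℕ → ℕ → ℕ → Bool := onCell 1610612736 536870912 0 536870912 587336777 62277027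
    (rowB 3 eng mog cd2q3 cd6q0 pd3 0 true true false .npn 3 0 3 (qsf 1610612736 536870912 0 536870912 3) ndB2q3 ndB6q0 pcB3 Cut.none Ext.none)

def k0_pm_303 : ∃ t, chk3 f_pm_303 t 1 1 1 = true :=
  ⟨(l 4), by decide +kernel⟩

theorem c_pm_303 : CertB 1610612736 536870912 0 536870912 587336777 62277027 3 eng mog cd2q3 cd6q0 pd3 true true false .npn 3 0 3
    ndB2q3 ndB6q0 pcB3 Cut.none Ext.none :=
  certB0 (fam := true) (s1 := true) (s2 := false) (a := 3) (b := 0) (c := 3) (cn := .npn) (n1 := ndB2q3) (n2 := ndB6q0) (pc := pcB3) (cut := Cut.none) (xt := Ext.none) (P1 := 1610612736) (W1 := 536870912) (P2 := 0) (W2 := 536870912) (P3 := 587336777) (W3 := 62277027) (N0 := 3) (En := eng) (mo := mog) (C1 := cd2q3) (C2 := cd6q0) (C3 := pd3)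
    rfl k0_pm_303

noncomputable def f_pm_313 : ℕ → ℕ → ℕ → ℕ → Bool := onCell 1610612736 536870912 536870912 536870912 587336777 62277027
    (rowB 3 eng mog cd2q3 cd6q1 pd3 0 true true false .dn 3 1 3 (qsf 1610612736 536870912 536870912 536870912 3) ndB2q3 ndB6q1 pcB3 Cut.none Ext.none)

def k0_pm_313 : ∃ t, chk3 f_pm_313 t 1 1 1 = true :=
  ⟨(l 4), by decide +kernel⟩

theorem c_pm_313 : CertB 1610612736 536870912 536870912 536870912 587336777 62277027 3 eng mog cd2q3 cd6q1 pd3 true true false .dn 3 1 3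
    ndB2q3 ndB6q1 pcB3 Cut.none Ext.none :=
  certB0 (fam := true) (s1 := true) (s2 := false) (a := 3) (b := 1) (c := 3) (cn := .dn) (n1 := ndB2q3) (n2 := ndB6q1) (pc := pcB3) (cut := Cut.none) (xt := Ext.none) (P1 := 1610612736) (W1 := 536870912) (P2 := 536870912) (W2 := 536870912) (P3 := 587336777) (W3 := 62277027) (N0 := 3) (En := eng) (mo := mog) (C1 := cd2q3) (C2 := cd6q1) (C3 := pd3)
    rfl k0_pm_313

noncomputable def f_mm_001 : ℕ → ℕ → ℕ → ℕ → Bool := onCell 0 536870912 0 536870912 587336777 62277027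
    (rowB 3 eng mog cd2q0 cd6q0 pd1 0 true false false .up 0 0 1 (qsf 0 536870912 0 536870912 1) ndB2q0 ndB6q0 pcB1 Cut.none Ext.none)

def k0_mm_001 : ∃ t, chk3 f_mm_001 t 1 1 1 = true :=
  ⟨(l 4), by decide +kernel⟩

theorem c_mm_001 : CertB 0 536870912 0 536870912 587336777 62277027 3 eng mog cd2q0 cd6q0 pd1 true false false .up 0 0 1
    ndB2q0 ndB6q0 pcB1 Cut.none Ext.none :=
  certB0 (fam := true) (s1 := false) (s2 := false) (a := 0) (b := 0) (c := 1) (cn := .up) (n1 := ndB2q0) (n2 := ndB6q0) (pc := pcB1) (cut := Cut.none) (xt := Ext.none) (P1 := 0) (W1 := 536870912) (P2 := 0) (W2 := 536870912) (P3 := 587336777) (W3 := 62277027) (N0 := 3) (En := eng) (mo := mog) (C1 := cd2q0) (C2 := cd6q0) (C3 := pd1)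
    rfl k0_mm_001

noncomputable def f_mm_011 : ℕ → ℕ → ℕ → ℕ → Bool := onCell 0 536870912 536870912 536870912 587336777 62277027
    (rowB 3 eng mog cd2q0 cd6q1 pd1 0 true false false .pnn 0 1 1 (qsf 0 536870912 536870912 536870912 1) ndB2q0 ndB6q1 pcB1 Cut.none Ext.none)

def k0_mm_011 : ∃ t, chk3 f_mm_011 t 1 1 1 = true :=
  ⟨(l 4), by decide +kernel⟩

theorem c_mm_011 : CertB 0 536870912 536870912 536870912 587336777 62277027 3 eng mog cd2q0 cd6q1 pd1 true false false .pnn 0 1 1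
    ndB2q0 ndB6q1 pcB1 Cut.none Ext.none :=
  certB0 (fam := true) (s1 := false) (s2 := false) (a := 0) (b := 1) (c := 1) (cn := .pnn) (n1 := ndB2q0) (n2 := ndB6q1) (pc := pcB1) (cut := Cut.none) (xt := Ext.none) (P1 := 0) (W1 := 536870912) (P2 := 536870912) (W2 := 536870912) (P3 := 587336777) (W3 := 62277027) (N0 := 3) (En := eng) (mo := mog) (C1 := cd2q0) (C2 := cd6q1) (C3 := pd1)
    rfl k0_mm_011

noncomputable def f_mm_012 : ℕ → ℕ → ℕ → ℕ → Bool := onCell 0 536870912 536870912 536870912 587336777 62277027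
    (rowB 3 eng mog cd2q0 cd6q1 pd2 0 true false false .pnp 0 1 2 (qsf 0 536870912 536870912 536870912 2) ndB2q0 ndB6q1 pcB2 Cut.none Ext.none)

def k0_mm_012 : ∃ t, chk3 f_mm_012 t 1 1 1 = true :=
  ⟨(l 4), by decide +kernel⟩

theorem c_mm_012 : CertB 0 536870912 536870912 536870912 587336777 62277027 3 eng mog cd2q0 cd6q1 pd2 true false false .pnp 0 1 2
    ndB2q0 ndB6q1 pcB2 Cut.none Ext.none :=
  certB0 (fam := true) (s1 := false) (s2 := false) (a := 0) (b := 1) (c := 2) (cn := .pnp) (n1 := ndB2q0) (n2 := ndB6q1) (pc := pcB2) (cut := Cut.none) (xt := Ext.none) (P1 := 0) (W1 := 536870912) (P2 := 536870912) (W2 := 536870912) (P3 := 587336777) (W3 := 62277027) (N0 := 3) (En := eng) (mo := mog) (C1 := cd2q0) (C2 := cd6q1) (C3 := pd2)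
    rfl k0_mm_012

noncomputable def f_mm_022 : ℕ → ℕ → ℕ → ℕ → Bool := onCell 0 536870912 1073741824 536870912 587336777 62277027
    (rowB 3 eng mog cd2q0 cd6q2 pd2 0 true false false .pp 0 2 2 (qsf 0 536870912 1073741824 536870912 2) ndB2q0 ndB6q2 pcB2 Cut.none Ext.none)

def k0_mm_022 : ∃ t, chk3 f_mm_022 t 1 1 1 = true :=
  ⟨(l 4), by decide +kernel⟩

theorem c_mm_022 : CertB 0 536870912 1073741824 536870912 587336777 62277027 3 eng mog cd2q0 cd6q2 pd2 true false false .pp 0 2 2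
    ndB2q0 ndB6q2 pcB2 Cut.none Ext.none :=
  certB0 (fam := true) (s1 := false) (s2 := false) (a := 0) (b := 2) (c := 2) (cn := .pp) (n1 := ndB2q0) (n2 := ndB6q2) (pc := pcB2) (cut := Cut.none) (xt := Ext.none) (P1 := 0) (W1 := 536870912) (P2 := 1073741824) (W2 := 536870912) (P3 := 587336777) (W3 := 62277027) (N0 := 3) (En := eng) (mo := mog) (C1 := cd2q0) (C2 := cd6q2) (C3 := pd2)
    rfl k0_mm_022

noncomputable def f_mm_023 : ℕ → ℕ → ℕ → ℕ → Bool := onCell 0 536870912 1073741824 536870912 587336777 62277027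
    (rowB 3 eng mog cd2q0 cd6q2 pd3 0 true false false .up 0 2 3 (qsf 0 536870912 1073741824 536870912 3) ndB2q0 ndB6q2 pcB3 Cut.none Ext.none)

def k0_mm_023 : ∃ t, chk3 f_mm_023 t 1 1 1 = true :=
  ⟨(l 4), by decide +kernel⟩

theorem c_mm_023 : CertB 0 536870912 1073741824 536870912 587336777 62277027 3 eng mog cd2q0 cd6q2 pd3 true false false .up 0 2 3
    ndB2q0 ndB6q2 pcB3 Cut.none Ext.none :=
  certB0 (fam := true) (s1 := false) (s2 := false) (a := 0) (b := 2) (c := 3) (cn := .up) (n1 := ndB2q0) (n2 := ndB6q2) (pc := pcB3) (cut := Cut.none) (xt := Ext.none) (P1 := 0) (W1 := 536870912) (P2 := 1073741824) (W2 := 536870912) (P3 := 587336777) (W3 := 62277027) (N0 := 3) (En := eng) (mo := mog) (C1 := cd2q0) (C2 := cd6q2) (C3 := pd3)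
    rfl k0_mm_023

noncomputable def f_mm_033 : ℕ → ℕ → ℕ → ℕ → Bool := onCell 0 536870912 0 1230186008 587336777 62277027
    (rowB 3 eng mog cd2q0 cd6q3 pd3 0 true false false .pnn 0 3 3 (qsf 0 536870912 0 1230186008 3) ndB2q0 ndB6q3 pcB3 Cut.none Ext.none)

def k0_mm_033 : ∃ t, chk3 f_mm_033 t 1 1 1 = true :=
  ⟨(l 5), by decide +kernel⟩

theorem c_mm_033 : CertB 0 536870912 0 1230186008 587336777 62277027 3 eng mog cd2q0 cd6q3 pd3 true false false .pnn 0 3 3
    ndB2q0 ndB6q3 pcB3 Cut.none Ext.none :=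
  certB0 (fam := true) (s1 := false) (s2 := false) (a := 0) (b := 3) (c := 3) (cn := .pnn) (n1 := ndB2q0) (n2 := ndB6q3) (pc := pcB3) (cut := Cut.none) (xt := Ext.none) (P1 := 0) (W1 := 536870912) (P2 := 0) (W2 := 1230186008) (P3 := 587336777) (W3 := 62277027) (N0 := 3) (En := eng) (mo := mog) (C1 := cd2q0) (C2 := cd6q3) (C3 := pd3)
    rfl k0_mm_033

noncomputable def f_mm_101 : ℕ → ℕ → ℕ → ℕ → Bool := onCell 536870912 536870912 0 536870912 587336777 62277027
    (rowB 3 eng mog cd2q1 cd6q0 pd1 0 true false false .npn 1 0 1 (qsf 536870912 536870912 0 536870912 1) ndB2q1 ndB6q0 pcB1 Cut.none Ext.none)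

def k0_mm_101 : ∃ t, chk3 f_mm_101 t 1 1 1 = true :=
  ⟨(l 4), by decide +kernel⟩

theorem c_mm_101 : CertB 536870912 536870912 0 536870912 587336777 62277027 3 eng mog cd2q1 cd6q0 pd1 true false false .npn 1 0 1
    ndB2q1 ndB6q0 pcB1 Cut.none Ext.none :=
  certB0 (fam := true) (s1 := false) (s2 := false) (a := 1) (b := 0) (c := 1) (cn := .npn) (n1 := ndB2q1) (n2 := ndB6q0) (pc := pcB1) (cut := Cut.none) (xt := Ext.none) (P1 := 536870912) (W1 := 536870912) (P2 := 0) (W2 := 536870912) (P3 := 587336777) (W3 := 62277027) (N0 := 3) (En := eng) (mo := mog) (C1 := cd2q1) (C2 := cd6q0) (C3 := pd1)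
    rfl k0_mm_101

noncomputable def f_mm_102 : ℕ → ℕ → ℕ → ℕ → Bool := onCell 536870912 536870912 0 536870912 587336777 62277027
    (rowB 3 eng mog cd2q1 cd6q0 pd2 0 true false false .npp 1 0 2 (qsf 536870912 536870912 0 536870912 2) ndB2q1 ndB6q0 pcB2 Cut.none Ext.none)

def k0_mm_102 : ∃ t, chk3 f_mm_102 t 1 1 1 = true :=
  ⟨(l 4), by decide +kernel⟩

theorem c_mm_102 : CertB 536870912 536870912 0 536870912 587336777 62277027 3 eng mog cd2q1 cd6q0 pd2 true false false .npp 1 0 2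
    ndB2q1 ndB6q0 pcB2 Cut.none Ext.none :=
  certB0 (fam := true) (s1 := false) (s2 := false) (a := 1) (b := 0) (c := 2) (cn := .npp) (n1 := ndB2q1) (n2 := ndB6q0) (pc := pcB2) (cut := Cut.none) (xt := Ext.none) (P1 := 536870912) (W1 := 536870912) (P2 := 0) (W2 := 536870912) (P3 := 587336777) (W3 := 62277027) (N0 := 3) (En := eng) (mo := mog) (C1 := cd2q1) (C2 := cd6q0) (C3 := pd2)
    rfl k0_mm_102

noncomputable def f_mm_112 : ℕ → ℕ → ℕ → ℕ → Bool := onCell 536870912 536870912 536870912 536870912 587336777 62277027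
    (rowB 3 eng mog cd2q1 cd6q1 pd2 0 true false false .dn 1 1 2 (qsf 536870912 536870912 536870912 536870912 2) ndB2q1 ndB6q1 pcB2 Cut.none Ext.none)

def k0_mm_112 : ∃ t, chk3 f_mm_112 t 1 1 1 = true :=
  ⟨(l 4), by decide +kernel⟩

theorem c_mm_112 : CertB 536870912 536870912 536870912 536870912 587336777 62277027 3 eng mog cd2q1 cd6q1 pd2 true false false .dn 1 1 2
    ndB2q1 ndB6q1 pcB2 Cut.none Ext.none :=
  certB0 (fam := true) (s1 := false) (s2 := false) (a := 1) (b := 1) (c := 2) (cn := .dn) (n1 := ndB2q1) (n2 := ndB6q1) (pc := pcB2) (cut := Cut.none) (xt := Ext.none) (P1 := 536870912) (W1 := 536870912) (P2 := 536870912) (W2 := 536870912) (P3 := 587336777) (W3 := 62277027) (N0 := 3) (En := eng) (mo := mog) (C1 := cd2q1) (C2 := cd6q1) (C3 := pd2)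
    rfl k0_mm_112

noncomputable def f_mm_113 : ℕ → ℕ → ℕ → ℕ → Bool := onCell 536870912 536870912 536870912 536870912 587336777 62277027
    (rowB 3 eng mog cd2q1 cd6q1 pd3 0 true false false .nn 1 1 3 (qsf 536870912 536870912 536870912 536870912 3) ndB2q1 ndB6q1 pcB3 Cut.none Ext.none)

def k0_mm_113 : ∃ t, chk3 f_mm_113 t 1 1 1 = true :=
  ⟨(l 4), by decide +kernel⟩

theorem c_mm_113 : CertB 536870912 536870912 536870912 536870912 587336777 62277027 3 eng mog cd2q1 cd6q1 pd3 true false false .nn 1 1 3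
    ndB2q1 ndB6q1 pcB3 Cut.none Ext.none :=
  certB0 (fam := true) (s1 := false) (s2 := false) (a := 1) (b := 1) (c := 3) (cn := .nn) (n1 := ndB2q1) (n2 := ndB6q1) (pc := pcB3) (cut := Cut.none) (xt := Ext.none) (P1 := 536870912) (W1 := 536870912) (P2 := 536870912) (W2 := 536870912) (P3 := 587336777) (W3 := 62277027) (N0 := 3) (En := eng) (mo := mog) (C1 := cd2q1) (C2 := cd6q1) (C3 := pd3)
    rfl k0_mm_113

noncomputable def f_mm_123 : ℕ → ℕ → ℕ → ℕ → Bool := onCell 536870912 536870912 1073741824 536870912 587336777 62277027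
    (rowB 3 eng mog cd2q1 cd6q2 pd3 0 true false false .npn 1 2 3 (qsf 536870912 536870912 1073741824 536870912 3) ndB2q1 ndB6q2 pcB3 Cut.none Ext.none)

def k0_mm_123 : ∃ t, chk3 f_mm_123 t 1 1 1 = true :=
  ⟨(l 4), by decide +kernel⟩

theorem c_mm_123 : CertB 536870912 536870912 1073741824 536870912 587336777 62277027 3 eng mog cd2q1 cd6q2 pd3 true false false .npn 1 2 3
    ndB2q1 ndB6q2 pcB3 Cut.none Ext.none :=
  certB0 (fam := true) (s1 := false) (s2 := false) (a := 1) (b := 2) (c := 3) (cn := .npn) (n1 := ndB2q1) (n2 := ndB6q2) (pc := pcB3) (cut := Cut.none) (xt := Ext.none) (P1 := 536870912) (W1 := 536870912) (P2 := 1073741824) (W2 := 536870912) (P3 := 587336777) (W3 := 62277027) (N0 := 3) (En := eng) (mo := mog) (C1 := cd2q1) (C2 := cd6q2) (C3 := pd3)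
    rfl k0_mm_123

noncomputable def f_mm_133 : ℕ → ℕ → ℕ → ℕ → Bool := onCell 536870912 536870912 0 1230186008 587336777 62277027
    (rowB 3 eng mog cd2q1 cd6q3 pd3 0 true false false .dn 1 3 3 (qsf 536870912 536870912 0 1230186008 3) ndB2q1 ndB6q3 pcB3 Cut.none Ext.none)

def k0_mm_133 : ∃ t, chk3 f_mm_133 t 1 1 1 = true :=
  ⟨(l 4), by decide +kernel⟩

theorem c_mm_133 : CertB 536870912 536870912 0 1230186008 587336777 62277027 3 eng mog cd2q1 cd6q3 pd3 true false false .dn 1 3 3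
    ndB2q1 ndB6q3 pcB3 Cut.none Ext.none :=
  certB0 (fam := true) (s1 := false) (s2 := false) (a := 1) (b := 3) (c := 3) (cn := .dn) (n1 := ndB2q1) (n2 := ndB6q3) (pc := pcB3) (cut := Cut.none) (xt := Ext.none) (P1 := 536870912) (W1 := 536870912) (P2 := 0) (W2 := 1230186008) (P3 := 587336777) (W3 := 62277027) (N0 := 3) (En := eng) (mo := mog) (C1 := cd2q1) (C2 := cd6q3) (C3 := pd3)
    rfl k0_mm_133

noncomputable def f_mm_202_a : ℕ → ℕ → ℕ → ℕ → Bool := onCell 0 536870912 0 536870912 587336777 62277027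
    (rowB 3 eng mog cd2q2a cd6q0 pd2 0 true false false .pp 2 0 2 (qsf 0 536870912 0 536870912 2) ndB2q2a ndB6q0 pcB2 Cut.none Ext.none)

def k0_mm_202_a : ∃ t, chk3 f_mm_202_a t 1 1 1 = true :=
  ⟨(l 4), by decide +kernel⟩

theorem c_mm_202_a : CertB 0 536870912 0 536870912 587336777 62277027 3 eng mog cd2q2a cd6q0 pd2 true false false .pp 2 0 2
    ndB2q2a ndB6q0 pcB2 Cut.none Ext.none :=
  certB0 (fam := true) (s1 := false) (s2 := false) (a := 2) (b := 0) (c := 2) (cn := .pp) (n1 := ndB2q2a) (n2 := ndB6q0) (pc := pcB2) (cut := Cut.none) (xt := Ext.none) (P1 := 0) (W1 := 536870912) (P2 := 0) (W2 := 536870912) (P3 := 587336777) (W3 := 62277027) (N0 := 3) (En := eng) (mo := mog) (C1 := cd2q2a) (C2 := cd6q0) (C3 := pd2)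
    rfl k0_mm_202_a

noncomputable def f_mm_202_b : ℕ → ℕ → ℕ → ℕ → Bool := onCell 1239849684 370763052 0 536870912 587336777 62277027
    (rowB 3 eng mog cd2q2b cd6q0 pd2 0 true false false .pp 2 0 2 (qsf 1239849684 370763052 0 536870912 2) ndB2q2b ndB6q0 pcB2 Cut.none Ext.none)

def k0_mm_202_b : ∃ t, chk3 f_mm_202_b t 1 1 1 = true :=
  ⟨(l 4), by decide +kernel⟩

theorem c_mm_202_b : CertB 1239849684 370763052 0 536870912 587336777 62277027 3 eng mog cd2q2b cd6q0 pd2 true false false .pp 2 0 2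
    ndB2q2b ndB6q0 pcB2 Cut.none Ext.none :=
  certB0 (fam := true) (s1 := false) (s2 := false) (a := 2) (b := 0) (c := 2) (cn := .pp) (n1 := ndB2q2b) (n2 := ndB6q0) (pc := pcB2) (cut := Cut.none) (xt := Ext.none) (P1 := 1239849684) (W1 := 370763052) (P2 := 0) (W2 := 536870912) (P3 := 587336777) (W3 := 62277027) (N0 := 3) (En := eng) (mo := mog) (C1 := cd2q2b) (C2 := cd6q0) (C3 := pd2)
    rfl k0_mm_202_b

noncomputable def f_mm_203_a : ℕ → ℕ → ℕ → ℕ → Bool := onCell 0 536870912 0 536870912 587336777 62277027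
    (rowB 3 eng mog cd2q2a cd6q0 pd3 0 true false false .up 2 0 3 (qsf 0 536870912 0 536870912 3) ndB2q2a ndB6q0 pcB3 Cut.none Ext.none)

def k0_mm_203_a : ∃ t, chk3 f_mm_203_a t 1 1 1 = true :=
  ⟨(l 4), by decide +kernel⟩

theorem c_mm_203_a : CertB 0 536870912 0 536870912 587336777 62277027 3 eng mog cd2q2a cd6q0 pd3 true false false .up 2 0 3
    ndB2q2a ndB6q0 pcB3 Cut.none Ext.none :=
  certB0 (fam := true) (s1 := false) (s2 := false) (a := 2) (b := 0) (c := 3) (cn := .up) (n1 := ndB2q2a) (n2 := ndB6q0) (pc := pcB3) (cut := Cut.none) (xt := Ext.none) (P1 := 0) (W1 := 536870912) (P2 := 0) (W2 := 536870912) (P3 := 587336777) (W3 := 62277027) (N0 := 3) (En := eng) (mo := mog) (C1 := cd2q2a) (C2 := cd6q0) (C3 := pd3)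
    rfl k0_mm_203_a

noncomputable def f_mm_203_b : ℕ → ℕ → ℕ → ℕ → Bool := onCell 1239849684 370763052 0 536870912 587336777 62277027
    (rowB 3 eng mog cd2q2b cd6q0 pd3 0 true false false .up 2 0 3 (qsf 1239849684 370763052 0 536870912 3) ndB2q2b ndB6q0 pcB3 Cut.none Ext.none)

def k0_mm_203_b : ∃ t, chk3 f_mm_203_b t 1 1 1 = true :=
  ⟨(l 4), by decide +kernel⟩

theorem c_mm_203_b : CertB 1239849684 370763052 0 536870912 587336777 62277027 3 eng mog cd2q2b cd6q0 pd3 true false false .up 2 0 3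
    ndB2q2b ndB6q0 pcB3 Cut.none Ext.none :=
  certB0 (fam := true) (s1 := false) (s2 := false) (a := 2) (b := 0) (c := 3) (cn := .up) (n1 := ndB2q2b) (n2 := ndB6q0) (pc := pcB3) (cut := Cut.none) (xt := Ext.none) (P1 := 1239849684) (W1 := 370763052) (P2 := 0) (W2 := 536870912) (P3 := 587336777) (W3 := 62277027) (N0 := 3) (En := eng) (mo := mog) (C1 := cd2q2b) (C2 := cd6q0) (C3 := pd3)
    rfl k0_mm_203_b

noncomputable def f_mm_213_a : ℕ → ℕ → ℕ → ℕ → Bool := onCell 0 536870912 536870912 536870912 587336777 62277027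
    (rowB 3 eng mog cd2q2a cd6q1 pd3 0 true false false .pnn 2 1 3 (qsf 0 536870912 536870912 536870912 3) ndB2q2a ndB6q1 pcB3 Cut.none Ext.none)

def k0_mm_213_a : ∃ t, chk3 f_mm_213_a t 1 1 1 = true :=
  ⟨(l 4), by decide +kernel⟩

theorem c_mm_213_a : CertB 0 536870912 536870912 536870912 587336777 62277027 3 eng mog cd2q2a cd6q1 pd3 true false false .pnn 2 1 3
    ndB2q2a ndB6q1 pcB3 Cut.none Ext.none :=
  certB0 (fam := true) (s1 := false) (s2 := false) (a := 2) (b := 1) (c := 3) (cn := .pnn) (n1 := ndB2q2a) (n2 := ndB6q1) (pc := pcB3) (cut := Cut.none) (xt := Ext.none) (P1 := 0) (W1 := 536870912) (P2 := 536870912) (W2 := 536870912) (P3 := 587336777) (W3 := 62277027) (N0 := 3) (En := eng) (mo := mog) (C1 := cd2q2a) (C2 := cd6q1) (C3 := pd3)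
    rfl k0_mm_213_a

noncomputable def f_mm_213_b : ℕ → ℕ → ℕ → ℕ → Bool := onCell 1239849684 370763052 536870912 536870912 587336777 62277027
    (rowB 3 eng mog cd2q2b cd6q1 pd3 0 true false false .pnn 2 1 3 (qsf 1239849684 370763052 536870912 536870912 3) ndB2q2b ndB6q1 pcB3 Cut.none Ext.none)

def k0_mm_213_b : ∃ t, chk3 f_mm_213_b t 1 1 1 = true :=
  ⟨(l 4), by decide +kernel⟩

theorem c_mm_213_b : CertB 1239849684 370763052 536870912 536870912 587336777 62277027 3 eng mog cd2q2b cd6q1 pd3 true false false .pnn 2 1 3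
    ndB2q2b ndB6q1 pcB3 Cut.none Ext.none :=
  certB0 (fam := true) (s1 := false) (s2 := false) (a := 2) (b := 1) (c := 3) (cn := .pnn) (n1 := ndB2q2b) (n2 := ndB6q1) (pc := pcB3) (cut := Cut.none) (xt := Ext.none) (P1 := 1239849684) (W1 := 370763052) (P2 := 536870912) (W2 := 536870912) (P3 := 587336777) (W3 := 62277027) (N0 := 3) (En := eng) (mo := mog) (C1 := cd2q2b) (C2 := cd6q1) (C3 := pd3)
    rfl k0_mm_213_b

noncomputable def f_mm_303 : ℕ → ℕ → ℕ → ℕ → Bool := onCell 1610612736 536870912 0 536870912 587336777 62277027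
    (rowB 3 eng mog cd2q3 cd6q0 pd3 0 true false false .npn 3 0 3 (qsf 1610612736 536870912 0 536870912 3) ndB2q3 ndB6q0 pcB3 Cut.none Ext.none)

def k0_mm_303 : ∃ t, chk3 f_mm_303 t 1 1 1 = true :=
  ⟨(l 4), by decide +kernel⟩

theorem c_mm_303 : CertB 1610612736 536870912 0 536870912 587336777 62277027 3 eng mog cd2q3 cd6q0 pd3 true false false .npn 3 0 3
    ndB2q3 ndB6q0 pcB3 Cut.none Ext.none :=
  certB0 (fam := true) (s1 := false) (s2 := false) (a := 3) (b := 0) (c := 3) (cn := .npn) (n1 := ndB2q3) (n2 := ndB6q0) (pc := pcB3) (cut := Cut.none) (xt := Ext.none) (P1 := 1610612736) (W1 := 536870912) (P2 := 0) (W2 := 536870912) (P3 := 587336777) (W3 := 62277027) (N0 := 3) (En := eng) (mo := mog) (C1 := cd2q3) (C2 := cd6q0) (C3 := pd3)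
    rfl k0_mm_303

noncomputable def f_mm_313 : ℕ → ℕ → ℕ → ℕ → Bool := onCell 1610612736 536870912 536870912 536870912 587336777 62277027
    (rowB 3 eng mog cd2q3 cd6q1 pd3 0 true false false .dn 3 1 3 (qsf 1610612736 536870912 536870912 536870912 3) ndB2q3 ndB6q1 pcB3 Cut.none Ext.none)

def k0_mm_313 : ∃ t, chk3 f_mm_313 t 1 1 1 = true :=
  ⟨(l 4), by decide +kernel⟩

theorem c_mm_313 : CertB 1610612736 536870912 536870912 536870912 587336777 62277027 3 eng mog cd2q3 cd6q1 pd3 true false false .dn 3 1 3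
    ndB2q3 ndB6q1 pcB3 Cut.none Ext.none :=
  certB0 (fam := true) (s1 := false) (s2 := false) (a := 3) (b := 1) (c := 3) (cn := .dn) (n1 := ndB2q3) (n2 := ndB6q1) (pc := pcB3) (cut := Cut.none) (xt := Ext.none) (P1 := 1610612736) (W1 := 536870912) (P2 := 536870912) (W2 := 536870912) (P3 := 587336777) (W3 := 62277027) (N0 := 3) (En := eng) (mo := mog) (C1 := cd2q3) (C2 := cd6q1) (C3 := pd3)
    rfl k0_mm_313

end Pool.Agent.Strip051.G.I5470_6050.Tab.C.BA26

namespace Pool.Agent.Strip051.G.I5470_6050.Tab.C.BA27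

open Pool.Agent.Strip051.PB Pool.Agent.Strip051.PB.T
open Pool.Agent.Strip051.G.I5470_6050.Tab

noncomputable def f_pp_001 : ℕ → ℕ → ℕ → ℕ → Bool := onCell 0 536870912 0 536870912 587336777 62277027
    (rowB 3 eng mog cd2q0 cd7q0 pd1 0 true true true .up 0 0 1 (qsf 0 536870912 0 536870912 1) ndB2q0 ndB7q0 pcB1 Cut.none Ext.none)

def k0_pp_001 : ∃ t, chk3 f_pp_001 t 1 1 1 = true :=
  ⟨(l 4), by decide +kernel⟩

theorem c_pp_001 : CertB 0 536870912 0 536870912 587336777 62277027 3 eng mog cd2q0 cd7q0 pd1 true true true .up 0 0 1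
    ndB2q0 ndB7q0 pcB1 Cut.none Ext.none :=
  certB0 (fam := true) (s1 := true) (s2 := true) (a := 0) (b := 0) (c := 1) (cn := .up) (n1 := ndB2q0) (n2 := ndB7q0) (pc := pcB1) (cut := Cut.none) (xt := Ext.none) (P1 := 0) (W1 := 536870912) (P2 := 0) (W2 := 536870912) (P3 := 587336777) (W3 := 62277027) (N0 := 3) (En := eng) (mo := mog) (C1 := cd2q0) (C2 := cd7q0) (C3 := pd1)
    rfl k0_pp_001

noncomputable def f_pp_011 : ℕ → ℕ → ℕ → ℕ → Bool := onCell 0 536870912 536870912 536870912 587336777 62277027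
    (rowB 3 eng mog cd2q0 cd7q1 pd1 0 true true true .pnn 0 1 1 (qsf 0 536870912 536870912 536870912 1) ndB2q0 ndB7q1 pcB1 Cut.none Ext.none)

def k0_pp_011 : ∃ t, chk3 f_pp_011 t 1 1 1 = true :=
  ⟨(l 4), by decide +kernel⟩

theorem c_pp_011 : CertB 0 536870912 536870912 536870912 587336777 62277027 3 eng mog cd2q0 cd7q1 pd1 true true true .pnn 0 1 1
    ndB2q0 ndB7q1 pcB1 Cut.none Ext.none :=
  certB0 (fam := true) (s1 := true) (s2 := true) (a := 0) (b := 1) (c := 1) (cn := .pnn) (n1 := ndB2q0) (n2 := ndB7q1) (pc := pcB1) (cut := Cut.none) (xt := Ext.none) (P1 := 0) (W1 := 536870912) (P2 := 536870912) (W2 := 536870912) (P3 := 587336777) (W3 := 62277027) (N0 := 3) (En := eng) (mo := mog) (C1 := cd2q0) (C2 := cd7q1) (C3 := pd1)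
    rfl k0_pp_011

noncomputable def f_pp_012 : ℕ → ℕ → ℕ → ℕ → Bool := onCell 0 536870912 536870912 536870912 587336777 62277027
    (rowB 3 eng mog cd2q0 cd7q1 pd2 0 true true true .pnp 0 1 2 (qsf 0 536870912 536870912 536870912 2) ndB2q0 ndB7q1 pcB2 Cut.none Ext.none)

def k0_pp_012 : ∃ t, chk3 f_pp_012 t 1 1 1 = true :=
  ⟨(l 4), by decide +kernel⟩

theorem c_pp_012 : CertB 0 536870912 536870912 536870912 587336777 62277027 3 eng mog cd2q0 cd7q1 pd2 true true true .pnp 0 1 2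
    ndB2q0 ndB7q1 pcB2 Cut.none Ext.none :=
  certB0 (fam := true) (s1 := true) (s2 := true) (a := 0) (b := 1) (c := 2) (cn := .pnp) (n1 := ndB2q0) (n2 := ndB7q1) (pc := pcB2) (cut := Cut.none) (xt := Ext.none) (P1 := 0) (W1 := 536870912) (P2 := 536870912) (W2 := 536870912) (P3 := 587336777) (W3 := 62277027) (N0 := 3) (En := eng) (mo := mog) (C1 := cd2q0) (C2 := cd7q1) (C3 := pd2)
    rfl k0_pp_012

noncomputable def f_pp_022 : ℕ → ℕ → ℕ → ℕ → Bool := onCell 0 536870912 1073741824 536870912 587336777 62277027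
    (rowB 3 eng mog cd2q0 cd7q2 pd2 0 true true true .pp 0 2 2 (qsf 0 536870912 1073741824 536870912 2) ndB2q0 ndB7q2 pcB2 Cut.none Ext.none)

def k0_pp_022 : ∃ t, chk3 f_pp_022 t 1 1 1 = true :=
  ⟨(l 4), by decide +kernel⟩

theorem c_pp_022 : CertB 0 536870912 1073741824 536870912 587336777 62277027 3 eng mog cd2q0 cd7q2 pd2 true true true .pp 0 2 2
    ndB2q0 ndB7q2 pcB2 Cut.none Ext.none :=
  certB0 (fam := true) (s1 := true) (s2 := true) (a := 0) (b := 2) (c := 2) (cn := .pp) (n1 := ndB2q0) (n2 := ndB7q2) (pc := pcB2) (cut := Cut.none) (xt := Ext.none) (P1 := 0) (W1 := 536870912) (P2 := 1073741824) (W2 := 536870912) (P3 := 587336777) (W3 := 62277027) (N0 := 3) (En := eng) (mo := mog) (C1 := cd2q0) (C2 := cd7q2) (C3 := pd2)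
    rfl k0_pp_022

noncomputable def f_pp_023 : ℕ → ℕ → ℕ → ℕ → Bool := onCell 0 536870912 1073741824 536870912 587336777 62277027
    (rowB 3 eng mog cd2q0 cd7q2 pd3 0 true true true .up 0 2 3 (qsf 0 536870912 1073741824 536870912 3) ndB2q0 ndB7q2 pcB3 Cut.none Ext.none)

def k0_pp_023 : ∃ t, chk3 f_pp_023 t 1 1 1 = true :=
  ⟨(l 4), by decide +kernel⟩

theorem c_pp_023 : CertB 0 536870912 1073741824 536870912 587336777 62277027 3 eng mog cd2q0 cd7q2 pd3 true true true .up 0 2 3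
    ndB2q0 ndB7q2 pcB3 Cut.none Ext.none :=
  certB0 (fam := true) (s1 := true) (s2 := true) (a := 0) (b := 2) (c := 3) (cn := .up) (n1 := ndB2q0) (n2 := ndB7q2) (pc := pcB3) (cut := Cut.none) (xt := Ext.none) (P1 := 0) (W1 := 536870912) (P2 := 1073741824) (W2 := 536870912) (P3 := 587336777) (W3 := 62277027) (N0 := 3) (En := eng) (mo := mog) (C1 := cd2q0) (C2 := cd7q2) (C3 := pd3)
    rfl k0_pp_023

noncomputable def f_pp_033 : ℕ → ℕ → ℕ → ℕ → Bool := onCell 0 536870912 0 1230186008 587336777 62277027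
    (rowB 3 eng mog cd2q0 cd7q3 pd3 0 true true true .pnn 0 3 3 (qsf 0 536870912 0 1230186008 3) ndB2q0 ndB7q3 pcB3 Cut.none Ext.none)

def k0_pp_033 : ∃ t, chk3 f_pp_033 t 1 1 1 = true :=
  ⟨(l 4), by decide +kernel⟩

theorem c_pp_033 : CertB 0 536870912 0 1230186008 587336777 62277027 3 eng mog cd2q0 cd7q3 pd3 true true true .pnn 0 3 3
    ndB2q0 ndB7q3 pcB3 Cut.none Ext.none :=
  certB0 (fam := true) (s1 := true) (s2 := true) (a := 0) (b := 3) (c := 3) (cn := .pnn) (n1 := ndB2q0) (n2 := ndB7q3) (pc := pcB3) (cut := Cut.none) (xt := Ext.none) (P1 := 0) (W1 := 536870912) (P2 := 0) (W2 := 1230186008) (P3 := 587336777) (W3 := 62277027) (N0 := 3) (En := eng) (mo := mog) (C1 := cd2q0) (C2 := cd7q3) (C3 := pd3)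
    rfl k0_pp_033

noncomputable def f_pp_101 : ℕ → ℕ → ℕ → ℕ → Bool := onCell 536870912 536870912 0 536870912 587336777 62277027
    (rowB 3 eng mog cd2q1 cd7q0 pd1 0 true true true .npn 1 0 1 (qsf 536870912 536870912 0 536870912 1) ndB2q1 ndB7q0 pcB1 Cut.none Ext.none)

def k0_pp_101 : ∃ t, chk3 f_pp_101 t 1 1 1 = true :=
  ⟨(l 4), by decide +kernel⟩

theorem c_pp_101 : CertB 536870912 536870912 0 536870912 587336777 62277027 3 eng mog cd2q1 cd7q0 pd1 true true true .npn 1 0 1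
    ndB2q1 ndB7q0 pcB1 Cut.none Ext.none :=
  certB0 (fam := true) (s1 := true) (s2 := true) (a := 1) (b := 0) (c := 1) (cn := .npn) (n1 := ndB2q1) (n2 := ndB7q0) (pc := pcB1) (cut := Cut.none) (xt := Ext.none) (P1 := 536870912) (W1 := 536870912) (P2 := 0) (W2 := 536870912) (P3 := 587336777) (W3 := 62277027) (N0 := 3) (En := eng) (mo := mog) (C1 := cd2q1) (C2 := cd7q0) (C3 := pd1)
    rfl k0_pp_101

noncomputable def f_pp_102 : ℕ → ℕ → ℕ → ℕ → Bool := onCell 536870912 536870912 0 536870912 587336777 62277027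
    (rowB 3 eng mog cd2q1 cd7q0 pd2 0 true true true .npp 1 0 2 (qsf 536870912 536870912 0 536870912 2) ndB2q1 ndB7q0 pcB2 Cut.none Ext.none)

def k0_pp_102 : ∃ t, chk3 f_pp_102 t 1 1 1 = true :=
  ⟨(l 4), by decide +kernel⟩

theorem c_pp_102 : CertB 536870912 536870912 0 536870912 587336777 62277027 3 eng mog cd2q1 cd7q0 pd2 true true true .npp 1 0 2
    ndB2q1 ndB7q0 pcB2 Cut.none Ext.none :=
  certB0 (fam := true) (s1 := true) (s2 := true) (a := 1) (b := 0) (c := 2) (cn := .npp) (n1 := ndB2q1) (n2 := ndB7q0) (pc := pcB2) (cut := Cut.none) (xt := Ext.none) (P1 := 536870912) (W1 := 536870912) (P2 := 0) (W2 := 536870912) (P3 := 587336777) (W3 := 62277027) (N0 := 3) (En := eng) (mo := mog) (C1 := cd2q1) (C2 := cd7q0) (C3 := pd2)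
    rfl k0_pp_102

noncomputable def f_pp_112 : ℕ → ℕ → ℕ → ℕ → Bool := onCell 536870912 536870912 536870912 536870912 587336777 62277027
    (rowB 3 eng mog cd2q1 cd7q1 pd2 0 true true true .dn 1 1 2 (qsf 536870912 536870912 536870912 536870912 2) ndB2q1 ndB7q1 pcB2 Cut.none Ext.none)

def k0_pp_112 : ∃ t, chk3 f_pp_112 t 1 1 1 = true :=
  ⟨(l 4), by decide +kernel⟩

theorem c_pp_112 : CertB 536870912 536870912 536870912 536870912 587336777 62277027 3 eng mog cd2q1 cd7q1 pd2 true true true .dn 1 1 2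
    ndB2q1 ndB7q1 pcB2 Cut.none Ext.none :=
  certB0 (fam := true) (s1 := true) (s2 := true) (a := 1) (b := 1) (c := 2) (cn := .dn) (n1 := ndB2q1) (n2 := ndB7q1) (pc := pcB2) (cut := Cut.none) (xt := Ext.none) (P1 := 536870912) (W1 := 536870912) (P2 := 536870912) (W2 := 536870912) (P3 := 587336777) (W3 := 62277027) (N0 := 3) (En := eng) (mo := mog) (C1 := cd2q1) (C2 := cd7q1) (C3 := pd2)
    rfl k0_pp_112

noncomputable def f_pp_113 : ℕ → ℕ → ℕ → ℕ → Bool := onCell 536870912 536870912 536870912 536870912 587336777 62277027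
    (rowB 3 eng mog cd2q1 cd7q1 pd3 0 true true true .nn 1 1 3 (qsf 536870912 536870912 536870912 536870912 3) ndB2q1 ndB7q1 pcB3 Cut.none Ext.none)

def k0_pp_113 : ∃ t, chk3 f_pp_113 t 1 1 1 = true :=
  ⟨(l 4), by decide +kernel⟩

theorem c_pp_113 : CertB 536870912 536870912 536870912 536870912 587336777 62277027 3 eng mog cd2q1 cd7q1 pd3 true true true .nn 1 1 3
    ndB2q1 ndB7q1 pcB3 Cut.none Ext.none :=
  certB0 (fam := true) (s1 := true) (s2 := true) (a := 1) (b := 1) (c := 3) (cn := .nn) (n1 := ndB2q1) (n2 := ndB7q1) (pc := pcB3) (cut := Cut.none) (xt := Ext.none) (P1 := 536870912) (W1 := 536870912) (P2 := 536870912) (W2 := 536870912) (P3 := 587336777) (W3 := 62277027) (N0 := 3) (En := eng) (mo := mog) (C1 := cd2q1) (C2 := cd7q1) (C3 := pd3)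
    rfl k0_pp_113

noncomputable def f_pp_123 : ℕ → ℕ → ℕ → ℕ → Bool := onCell 536870912 536870912 1073741824 536870912 587336777 62277027
    (rowB 3 eng mog cd2q1 cd7q2 pd3 0 true true true .npn 1 2 3 (qsf 536870912 536870912 1073741824 536870912 3) ndB2q1 ndB7q2 pcB3 Cut.none Ext.none)

def k0_pp_123 : ∃ t, chk3 f_pp_123 t 1 1 1 = true :=
  ⟨(l 4), by decide +kernel⟩

theorem c_pp_123 : CertB 536870912 536870912 1073741824 536870912 587336777 62277027 3 eng mog cd2q1 cd7q2 pd3 true true true .npn 1 2 3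
    ndB2q1 ndB7q2 pcB3 Cut.none Ext.none :=
  certB0 (fam := true) (s1 := true) (s2 := true) (a := 1) (b := 2) (c := 3) (cn := .npn) (n1 := ndB2q1) (n2 := ndB7q2) (pc := pcB3) (cut := Cut.none) (xt := Ext.none) (P1 := 536870912) (W1 := 536870912) (P2 := 1073741824) (W2 := 536870912) (P3 := 587336777) (W3 := 62277027) (N0 := 3) (En := eng) (mo := mog) (C1 := cd2q1) (C2 := cd7q2) (C3 := pd3)
    rfl k0_pp_123

noncomputable def f_pp_133 : ℕ → ℕ → ℕ → ℕ → Bool := onCell 536870912 536870912 0 1230186008 587336777 62277027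
    (rowB 3 eng mog cd2q1 cd7q3 pd3 0 true true true .dn 1 3 3 (qsf 536870912 536870912 0 1230186008 3) ndB2q1 ndB7q3 pcB3 Cut.none Ext.none)

def k0_pp_133 : ∃ t, chk3 f_pp_133 t 1 1 1 = true :=
  ⟨(l 4), by decide +kernel⟩

theorem c_pp_133 : CertB 536870912 536870912 0 1230186008 587336777 62277027 3 eng mog cd2q1 cd7q3 pd3 true true true .dn 1 3 3
    ndB2q1 ndB7q3 pcB3 Cut.none Ext.none :=
  certB0 (fam := true) (s1 := true) (s2 := true) (a := 1) (b := 3) (c := 3) (cn := .dn) (n1 := ndB2q1) (n2 := ndB7q3) (pc := pcB3) (cut := Cut.none) (xt := Ext.none) (P1 := 536870912) (W1 := 536870912) (P2 := 0) (W2 := 1230186008) (P3 := 587336777) (W3 := 62277027) (N0 := 3) (En := eng) (mo := mog) (C1 := cd2q1) (C2 := cd7q3) (C3 := pd3)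
    rfl k0_pp_133

noncomputable def f_pp_202_a : ℕ → ℕ → ℕ → ℕ → Bool := onCell 0 536870912 0 536870912 587336777 62277027
    (rowB 3 eng mog cd2q2a cd7q0 pd2 0 true true true .pp 2 0 2 (qsf 0 536870912 0 536870912 2) ndB2q2a ndB7q0 pcB2 Cut.none Ext.none)

def k0_pp_202_a : ∃ t, chk3 f_pp_202_a t 1 1 1 = true :=
  ⟨(l 4), by decide +kernel⟩

theorem c_pp_202_a : CertB 0 536870912 0 536870912 587336777 62277027 3 eng mog cd2q2a cd7q0 pd2 true true true .pp 2 0 2
    ndB2q2a ndB7q0 pcB2 Cut.none Ext.none :=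
  certB0 (fam := true) (s1 := true) (s2 := true) (a := 2) (b := 0) (c := 2) (cn := .pp) (n1 := ndB2q2a) (n2 := ndB7q0) (pc := pcB2) (cut := Cut.none) (xt := Ext.none) (P1 := 0) (W1 := 536870912) (P2 := 0) (W2 := 536870912) (P3 := 587336777) (W3 := 62277027) (N0 := 3) (En := eng) (mo := mog) (C1 := cd2q2a) (C2 := cd7q0) (C3 := pd2)
    rfl k0_pp_202_a

noncomputable def f_pp_202_b : ℕ → ℕ → ℕ → ℕ → Bool := onCell 1239849684 370763052 0 536870912 587336777 62277027
    (rowB 3 eng mog cd2q2b cd7q0 pd2 0 true true true .pp 2 0 2 (qsf 1239849684 370763052 0 536870912 2) ndB2q2b ndB7q0 pcB2 Cut.none Ext.none)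

def k0_pp_202_b : ∃ t, chk3 f_pp_202_b t 1 1 1 = true :=
  ⟨(l 4), by decide +kernel⟩

theorem c_pp_202_b : CertB 1239849684 370763052 0 536870912 587336777 62277027 3 eng mog cd2q2b cd7q0 pd2 true true true .pp 2 0 2
    ndB2q2b ndB7q0 pcB2 Cut.none Ext.none :=
  certB0 (fam := true) (s1 := true) (s2 := true) (a := 2) (b := 0) (c := 2) (cn := .pp) (n1 := ndB2q2b) (n2 := ndB7q0) (pc := pcB2) (cut := Cut.none) (xt := Ext.none) (P1 := 1239849684) (W1 := 370763052) (P2 := 0) (W2 := 536870912) (P3 := 587336777) (W3 := 62277027) (N0 := 3) (En := eng) (mo := mog) (C1 := cd2q2b) (C2 := cd7q0) (C3 := pd2)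
    rfl k0_pp_202_b

noncomputable def f_pp_203_a : ℕ → ℕ → ℕ → ℕ → Bool := onCell 0 536870912 0 536870912 587336777 62277027
    (rowB 3 eng mog cd2q2a cd7q0 pd3 0 true true true .up 2 0 3 (qsf 0 536870912 0 536870912 3) ndB2q2a ndB7q0 pcB3 Cut.none Ext.none)

def k0_pp_203_a : ∃ t, chk3 f_pp_203_a t 1 1 1 = true :=
  ⟨(l 4), by decide +kernel⟩

theorem c_pp_203_a : CertB 0 536870912 0 536870912 587336777 62277027 3 eng mog cd2q2a cd7q0 pd3 true true true .up 2 0 3
    ndB2q2a ndB7q0 pcB3 Cut.none Ext.none :=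
  certB0 (fam := true) (s1 := true) (s2 := true) (a := 2) (b := 0) (c := 3) (cn := .up) (n1 := ndB2q2a) (n2 := ndB7q0) (pc := pcB3) (cut := Cut.none) (xt := Ext.none) (P1 := 0) (W1 := 536870912) (P2 := 0) (W2 := 536870912) (P3 := 587336777) (W3 := 62277027) (N0 := 3) (En := eng) (mo := mog) (C1 := cd2q2a) (C2 := cd7q0) (C3 := pd3)
    rfl k0_pp_203_a

noncomputable def f_pp_203_b : ℕ → ℕ → ℕ → ℕ → Bool := onCell 1239849684 370763052 0 536870912 587336777 62277027
    (rowB 3 eng mog cd2q2b cd7q0 pd3 0 true true true .up 2 0 3 (qsf 1239849684 370763052 0 536870912 3) ndB2q2b ndB7q0 pcB3 Cut.none Ext.none)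

def k0_pp_203_b : ∃ t, chk3 f_pp_203_b t 1 1 1 = true :=
  ⟨(l 4), by decide +kernel⟩

theorem c_pp_203_b : CertB 1239849684 370763052 0 536870912 587336777 62277027 3 eng mog cd2q2b cd7q0 pd3 true true true .up 2 0 3
    ndB2q2b ndB7q0 pcB3 Cut.none Ext.none :=
  certB0 (fam := true) (s1 := true) (s2 := true) (a := 2) (b := 0) (c := 3) (cn := .up) (n1 := ndB2q2b) (n2 := ndB7q0) (pc := pcB3) (cut := Cut.none) (xt := Ext.none) (P1 := 1239849684) (W1 := 370763052) (P2 := 0) (W2 := 536870912) (P3 := 587336777) (W3 := 62277027) (N0 := 3) (En := eng) (mo := mog) (C1 := cd2q2b) (C2 := cd7q0) (C3 := pd3)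
    rfl k0_pp_203_b

noncomputable def f_pp_213_a : ℕ → ℕ → ℕ → ℕ → Bool := onCell 0 536870912 536870912 536870912 587336777 62277027
    (rowB 3 eng mog cd2q2a cd7q1 pd3 0 true true true .pnn 2 1 3 (qsf 0 536870912 536870912 536870912 3) ndB2q2a ndB7q1 pcB3 Cut.none Ext.none)

def k0_pp_213_a : ∃ t, chk3 f_pp_213_a t 1 1 1 = true :=
  ⟨(l 4), by decide +kernel⟩

theorem c_pp_213_a : CertB 0 536870912 536870912 536870912 587336777 62277027 3 eng mog cd2q2a cd7q1 pd3 true true true .pnn 2 1 3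
    ndB2q2a ndB7q1 pcB3 Cut.none Ext.none :=
  certB0 (fam := true) (s1 := true) (s2 := true) (a := 2) (b := 1) (c := 3) (cn := .pnn) (n1 := ndB2q2a) (n2 := ndB7q1) (pc := pcB3) (cut := Cut.none) (xt := Ext.none) (P1 := 0) (W1 := 536870912) (P2 := 536870912) (W2 := 536870912) (P3 := 587336777) (W3 := 62277027) (N0 := 3) (En := eng) (mo := mog) (C1 := cd2q2a) (C2 := cd7q1) (C3 := pd3)
    rfl k0_pp_213_a

noncomputable def f_pp_213_b : ℕ → ℕ → ℕ → ℕ → Bool := onCell 1239849684 370763052 536870912 536870912 587336777 62277027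
    (rowB 3 eng mog cd2q2b cd7q1 pd3 0 true true true .pnn 2 1 3 (qsf 1239849684 370763052 536870912 536870912 3) ndB2q2b ndB7q1 pcB3 Cut.none Ext.none)

def k0_pp_213_b : ∃ t, chk3 f_pp_213_b t 1 1 1 = true :=
  ⟨(l 4), by decide +kernel⟩

theorem c_pp_213_b : CertB 1239849684 370763052 536870912 536870912 587336777 62277027 3 eng mog cd2q2b cd7q1 pd3 true true true .pnn 2 1 3
    ndB2q2b ndB7q1 pcB3 Cut.none Ext.none :=
  certB0 (fam := true) (s1 := true) (s2 := true) (a := 2) (b := 1) (c := 3) (cn := .pnn) (n1 := ndB2q2b) (n2 := ndB7q1) (pc := pcB3) (cut := Cut.none) (xt := Ext.none) (P1 := 1239849684) (W1 := 370763052) (P2 := 536870912) (W2 := 536870912) (P3 := 587336777) (W3 := 62277027) (N0 := 3) (En := eng) (mo := mog) (C1 := cd2q2b) (C2 := cd7q1) (C3 := pd3)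
    rfl k0_pp_213_b

noncomputable def f_pp_303 : ℕ → ℕ → ℕ → ℕ → Bool := onCell 1610612736 536870912 0 536870912 587336777 62277027
    (rowB 3 eng mog cd2q3 cd7q0 pd3 0 true true true .npn 3 0 3 (qsf 1610612736 536870912 0 536870912 3) ndB2q3 ndB7q0 pcB3 Cut.none Ext.none)

def k0_pp_303 : ∃ t, chk3 f_pp_303 t 1 1 1 = true :=
  ⟨(l 4), by decide +kernel⟩

theorem c_pp_303 : CertB 1610612736 536870912 0 536870912 587336777 62277027 3 eng mog cd2q3 cd7q0 pd3 true true true .npn 3 0 3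
    ndB2q3 ndB7q0 pcB3 Cut.none Ext.none :=
  certB0 (fam := true) (s1 := true) (s2 := true) (a := 3) (b := 0) (c := 3) (cn := .npn) (n1 := ndB2q3) (n2 := ndB7q0) (pc := pcB3) (cut := Cut.none) (xt := Ext.none) (P1 := 1610612736) (W1 := 536870912) (P2 := 0) (W2 := 536870912) (P3 := 587336777) (W3 := 62277027) (N0 := 3) (En := eng) (mo := mog) (C1 := cd2q3) (C2 := cd7q0) (C3 := pd3)
    rfl k0_pp_303

noncomputable def f_pp_313 : ℕ → ℕ → ℕ → ℕ → Bool := onCell 1610612736 536870912 536870912 536870912 587336777 62277027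
    (rowB 3 eng mog cd2q3 cd7q1 pd3 0 true true true .dn 3 1 3 (qsf 1610612736 536870912 536870912 536870912 3) ndB2q3 ndB7q1 pcB3 Cut.none Ext.none)

def k0_pp_313 : ∃ t, chk3 f_pp_313 t 1 1 1 = true :=
  ⟨(l 4), by decide +kernel⟩

theorem c_pp_313 : CertB 1610612736 536870912 536870912 536870912 587336777 62277027 3 eng mog cd2q3 cd7q1 pd3 true true true .dn 3 1 3
    ndB2q3 ndB7q1 pcB3 Cut.none Ext.none :=
  certB0 (fam := true) (s1 := true) (s2 := true) (a := 3) (b := 1) (c := 3) (cn := .dn) (n1 := ndB2q3) (n2 := ndB7q1) (pc := pcB3) (cut := Cut.none) (xt := Ext.none) (P1 := 1610612736) (W1 := 536870912) (P2 := 536870912) (W2 := 536870912) (P3 := 587336777) (W3 := 62277027) (N0 := 3) (En := eng) (mo := mog) (C1 := cd2q3) (C2 := cd7q1) (C3 := pd3)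
    rfl k0_pp_313

noncomputable def f_pm_001 : ℕ → ℕ → ℕ → ℕ → Bool := onCell 0 536870912 536870912 536870912 587336777 62277027
    (rowB 3 eng mog cd2q0 cd7q0 pd1 1 true true false .up 0 0 1 (qsf 0 536870912 0 536870912 1) ndB2q0 ndB7q0 pcB1 Cut.none Ext.none)

def k0_pm_001 : ∃ t, chk3 f_pm_001 t 1 1 1 = true :=
  ⟨(b (l 3) (b (a (l 3) (a (l 3) (b (l 3) (b (l 3) (a (l 251959912327) (a (l 16539512) (l 16473864))))))) (a (l 2) (a (b (b (b (l 3) (l 2)) (l 2)) (l 2)) (b (a (b (a (l 16580368) (l 16515208)) (a (l 16502120) (l 16439216))) (b (a (l 16449424) (l 16403936)) (a (l 16396264) (l 16353112)))) (a (b (a (l 2) (l 16394792)) (l 2)) (b (a (l 16352848) (l 16309752)) (l 118748131607)))))))), by decide +kernel⟩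

theorem c_pm_001 : CertB 0 536870912 0 536870912 587336777 62277027 3 eng mog cd2q0 cd7q0 pd1 true true false .up 0 0 1
    ndB2q0 ndB7q0 pcB1 Cut.none Ext.none :=
  certB1 (fam := true) (s1 := true) (s2 := false) (a := 0) (b := 0) (c := 1) (cn := .up) (n1 := ndB2q0) (n2 := ndB7q0) (pc := pcB1) (cut := Cut.none) (xt := Ext.none) (P1 := 0) (W1 := 536870912) (P2 := 0) (W2 := 536870912) (P3 := 587336777) (W3 := 62277027) (N0 := 3) (En := eng) (mo := mog) (C1 := cd2q0) (C2 := cd7q0) (C3 := pd1)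
    rfl (fun _ => rfl) k0_pm_001

noncomputable def cut_pm_011 : Cut := Cut.of [[⟨0, 0, 0, 67108864⟩, ⟨1, 1, 0, 67108864⟩, ⟨2, 1, 0, 67108864⟩]]

noncomputable def f_pm_011 : ℕ → ℕ → ℕ → ℕ → Bool := onCell 0 536870912 536870912 536870912 587336777 62277027
    (rowB 3 eng mog cd2q0 cd7q1 pd1 1 true true false .pnn 0 1 1 (qsf 0 536870912 536870912 536870912 1) ndB2q0 ndB7q1 pcB1 cut_pm_011 Ext.none)

def k0_pm_011 : ∃ t, chk3 f_pm_011 t 1 1 1 = true :=
  ⟨(b (l 3) (b (a (l 3) (a (l 3) (a (a (l 3) (l 1)) (l 1)))) (a (a (b (l 3) (b (l 3) (b (a (l 3) (a (a (l 3) (l 711521624487)) (l 94120048999))) (a (a (l 6) (a (b (l 3) (l 6)) (b (l 729775262759) (b (l 16728656) (l 16720560))))) (a (b (a (l 16723728) (l 16706776)) (a (l 16707448) (l 16690440))) (b (l 16681488) (l 16665128))))))) (b (l 3) (b (a (a (l 3) (b (l 3) (l 16668896))) (b (a (l 16665784) (l 16630080)) (a (l 16634120) (l 16599960)))) (a (b (a (l 16734528) (l 16636888)) (a (l 16681104) (l 16605248)))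 (b (l 16649792) (l 16640584)))))) (b (a (b (a (l 3) (l 250886159447)) (a (b (l 3) (l 16689152)) (a (l 16582328) (l 16520960)))) (b (a (l 84455990151) (l 1)) (a (l 16438208) (l 127271154503)))) (a (b (a (b (l 16639344) (l 16569600)) (l 16636776)) (a (b (l 16521176) (l 16493712)) (b (l 16453680) (l 16429136)))) (b (a (l 16497912) (l 16372000)) (a (l 16433120) (l 16293168)))))))), by decide +kernel⟩

theorem c_pm_011 : CertB 0 536870912 536870912 536870912 587336777 62277027 3 eng mog cd2q0 cd7q1 pd1 true true false .pnn 0 1 1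
    ndB2q0 ndB7q1 pcB1 cut_pm_011 Ext.none :=
  certB1 (fam := true) (s1 := true) (s2 := false) (a := 0) (b := 1) (c := 1) (cn := .pnn) (n1 := ndB2q0) (n2 := ndB7q1) (pc := pcB1) (cut := cut_pm_011) (xt := Ext.none) (P1 := 0) (W1 := 536870912) (P2 := 536870912) (W2 := 536870912) (P3 := 587336777) (W3 := 62277027) (N0 := 3) (En := eng) (mo := mog) (C1 := cd2q0) (C2 := cd7q1) (C3 := pd1)
    rfl (fun _ => rfl) k0_pm_011

noncomputable def cut_pm_012 : Cut := Cut.of [[⟨0, 0, 0, 67108864⟩, ⟨1, 1, 0, 67108864⟩, ⟨2, 1, 0, 67108864⟩]]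

noncomputable def f_pm_012 : ℕ → ℕ → ℕ → ℕ → Bool := onCell 1073741824 536870912 536870912 536870912 587336777 62277027
    (rowB 3 eng mog cd2q0 cd7q1 pd2 2 true true false .pnp 0 1 2 (qsf 0 536870912 536870912 536870912 2) ndB2q0 ndB7q1 pcB2 cut_pm_012 Ext.none)

def k0_pm_012 : ∃ t, chk3 f_pm_012 t 4 1 1 = true :=
  ⟨(b (b (a (b (l 16289512) (l 16445704)) (b (l 16169008) (l 16231960))) (a (b (a (l 16384408) (l 16339152)) (a (l 16487056) (l 16389904))) (b (l 16406808) (a (l 16340632) (l 16298080))))) (a (b (b (a (b (l 16488736) (l 16517824)) (l 16499720)) (a (a (l 16615008) (l 16584200)) (b (l 16472016) (l 16496232)))) (a (b (b (a (l 16633296) (l 16608408)) (a (a (l 16720328) (l 16653904)) (b (l 16610352) (l 16625400)))) (b (a (b (a (l 16724664) (l 16678152)) (a (l 6) (l 16715376))) (b (l 16661496) (a (l 16668512) (l 16642992)))) (b (a (l 6) (a (l 6) (l 16699744))) (l 6)))) (b (b (l 16626440) (a (l 16612976) (l 16525560))) (b (b (a (l 16591680)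 (l 16544408)) (a (l 16605400) (l 16556672))) (b (a (b (l 16615672) (l 16622496)) (l 16568848)) (a (b (l 16650256) (l 6)) (b (l 16577896) (l 16583856)))))))) (b (b (a (l 16377592) (l 16326408)) (a (b (l 16404328) (l 16422344)) (l 16435264))) (b (a (b (l 16440960) (l 16544528)) (b (l 16369720) (l 16382296))) (a (b (b (l 16497208) (l 16549496)) (b (a (l 16520256) (l 16473368)) (a (l 16551704) (l 16482280)))) (b (a (l 16416200) (l 16375696)) (b (l 16489984) (a (l 16435576) (l 16390624))))))))), by decide +kernel⟩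

def k1_pm_012 : ∃ t, chk3 f_pm_012 t 5 1 1 = true :=
  ⟨(b (a (b (a (a (l 16166208) (l 2)) (l 2)) (a (a (l 16361336) (b (l 16235176) (l 16369240))) (b (l 16217680) (l 16243712)))) (b (l 2) (b (l 16228712) (l 16240824)))) (b (a (a (a (b (l 16294088) (l 16311712)) (b (a (l 16280552) (l 16277376)) (a (l 16294680) (a (l 16287368) (l 16285320))))) (b (l 16258040) (l 16263928))) (b (l 16240624) (l 16230592))) (a (a (b (a (b (l 16323240) (l 16330632)) (a (l 16305192) (a (l 16295424) (b (l 16289992) (l 16291960))))) (a (b (l 16338120) (l 16429616)) (a (b (l 16312048) (l 16316216)) (b (a (l 16299936) (l 16377104)) (a (l 16302232) (a (l 16295560) (l 16291352))))))) (b (b (l 16264024) (l 16262328)) (b (l 16259504) (a (l 16271728) (l 16239624))))) (b (b (l 16217136) (l 16205192)) (b (l 16316920) (a (l 16198056) (l 16154256))))))), by decide +kernel⟩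

def k2_pm_012 : ∃ t, chk3 f_pm_012 t 3 1 1 = true :=
  ⟨(b (a (b (l 2) (a (l 16260240) (l 2))) (l 2)) (a (b (a (b (l 16244656) (l 16218784)) (b (l 16283040) (l 16246464))) (b (a (l 16180760) (l 16195672)) (a (b (l 16143528) (a (l 16123624) (l 16106960))) (b (l 16146704) (l 16107296))))) (b (a (l 16340968) (l 2)) (b (a (l 16252456) (l 16345088)) (a (l 16170408) (l 16249240)))))), by decide +kernel⟩

theorem s3_pm_012 : ∃ t, chk3 f_pm_012 t 2 1 1 = true := ex3_a k0_pm_012 k1_pm_012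

theorem s4_pm_012 : ∃ t, chk3 f_pm_012 t 1 1 1 = true := ex3_a s3_pm_012 k2_pm_012

theorem c_pm_012 : CertB 0 536870912 536870912 536870912 587336777 62277027 3 eng mog cd2q0 cd7q1 pd2 true true false .pnp 0 1 2
    ndB2q0 ndB7q1 pcB2 cut_pm_012 Ext.none :=
  certB2 (fam := true) (s1 := true) (s2 := false) (a := 0) (b := 1) (c := 2) (cn := .pnp) (n1 := ndB2q0) (n2 := ndB7q1) (pc := pcB2) (cut := cut_pm_012) (xt := Ext.none) (P1 := 0) (W1 := 536870912) (P2 := 536870912) (W2 := 536870912) (P3 := 587336777) (W3 := 62277027) (N0 := 3) (En := eng) (mo := mog) (C1 := cd2q0) (C2 := cd7q1) (C3 := pd2)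
    rfl (fun _ => rfl) s4_pm_012

noncomputable def cut_pm_022 : Cut := Cut.of [[⟨0, 0, 0, 67108864⟩, ⟨1, 1, 0, 67108864⟩, ⟨2, 1, 0, 67108864⟩]]

noncomputable def f_pm_022 : ℕ → ℕ → ℕ → ℕ → Bool := onCell 1073741824 536870912 1073741824 536870912 587336777 62277027
    (rowB 3 eng mog cd2q0 cd7q2 pd2 2 true true false .pp 0 2 2 (qsf 0 536870912 1073741824 536870912 2) ndB2q0 ndB7q2 pcB2 cut_pm_022 Ext.none)

def k0_pm_022 : ∃ t, chk3 f_pm_022 t 4 2 1 = true :=
  ⟨(b (a (b (a (b (l 6) (b (l 6) (l 1))) (a (b (l 6) (b (l 6) (a (l 1) (l 747357690263)))) (a (b (l 6) (b (l 6) (b (l 6) (l 617434893527)))) (b (b (l 16586560) (l 16610248)) (b (l 16631888) (b (l 16646800) (l 494491416151))))))) (a (l 1) (b (a (l 1) (b (l 712997842583) (l 1))) (l 1)))) (a (b (b (a (b (l 16548488) (l 16572208)) (b (l 16499232) (l 16522960))) (a (b (l 16614872) (l 16634592)) (b (l 16544704) (l 16564504)))) (b (a (b (a (l 544420380903) (l 271689968391)) (l 722124645543)) (b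 (l 16582384) (a (l 545494057655) (l 300144067207)))) (a (l 1) (l 726956381319)))) (a (b (b (l 16484744) (l 16528272)) (b (b (l 16535008) (l 16551072)) (b (l 384432754855) (l 723735127863)))) (b (b (l 16417968) (l 16461472)) (b (b (l 16489248) (l 16505456)) (b (l 16519712) (l 359736649687))))))) (a (l 1) (b (a (l 1) (b (a (l 1) (l 740378065655)) (l 1))) (l 1)))), by decide +kernel⟩

def k1_pm_022 : ∃ t, chk3 f_pm_022 t 5 2 1 = true :=
  ⟨(a (b (a (a (b (b (l 16416056) (l 16417528)) (b (l 16495672) (a (l 16493248) (l 16471928)))) (a (b (b (l 16342712) (l 16385960)) (b (l 16422136) (l 16451120))) (b (b (a (l 16327568) (a (l 16320160) (l 16315296))) (a (l 16370624) (a (l 16363048) (l 16358000)))) (a (l 16490400) (b (l 16501344) (a (l 16428256) (l 16423160))))))) (b (b (a (l 16294224) (l 16259368)) (a (l 16336464) (l 16300528))) (b (l 16374736) (a (l 16401584) (l 16364992))))) (b (a (a (b (b (l 294775254087) (l 689912130535)) (l 1)) (a (b (b (l 16467576)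 (l 16538632)) (l 1)) (a (b (l 16456960) (l 1)) (a (b (l 16449520) (l 1)) (b (c (l 16427464) (l 16441136)) (l 355441646327)))))) (b (a (b (l 16418568) (l 16427296)) (l 16387016)) (a (b (l 16433760) (l 333429903127)) (l 16400672)))) (a (l 1) (b (a (l 1) (l 506302078807)) (l 1))))) (a (b (b (b (l 16213568) (l 16253184)) (b (l 16286232) (l 16314584))) (b (b (l 16336976) (l 16393472)) (b (b (l 16356256) (l 209412522295)) (l 551936004327)))) (b (b (b (l 16164288) (l 16201752)) (l 16413432)) (b (b (l 16278072) (l 16293248)) (b (l 16299344) (l 16294392)))))), by decide +kernel⟩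

def k2_pm_022 : ∃ t, chk3 f_pm_022 t 2 3 1 = true :=
  ⟨(a (l 1) (a (l 1) (b (b (b (l 607770597959) (l 1)) (l 1)) (l 1)))), by decide +kernel⟩

def k3_pm_022 : ∃ t, chk3 f_pm_022 t 3 1 1 = true :=
  ⟨(b (b (a (b (a (b (l 16178464) (l 16148424)) (a (l 16111416) (l 16114640))) (a (b (l 16175472) (l 16196376)) (l 16235176))) (b (a (l 16133744) (l 16189784)) (a (l 16154008) (l 16185776)))) (a (b (a (b (l 16212176) (l 16223136)) (a (l 16179032) (l 16168536))) (a (b (l 16228440) (l 16204448)) (b (l 16170136) (l 16161344)))) (b (a (l 16164048) (l 16179544)) (a (l 16149488) (l 16160120))))) (a (b (b (a (a (b (l 16229504) (l 594348540823)) (l 142840292535)) (b (l 16146472) (l 16119416))) (a (b (l 664678574439) (l 1)) (b (l 16241784) (l 463351756007)))) (a (l 1) (b (b (l 577168410599) (l 1)) (l 1)))) (b (b (a (b (l 16114992) (l 16081960)) (l 16107168)) (a (l 16157864) (l 16003640))) (b (a (b (l 345776846087) (l 355977448471)) (l 16051464)) (a (a (l 1) (l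 493416419975)) (b (l 16034816) (l 401074936407))))))), by decide +kernel⟩

theorem s4_pm_022 : ∃ t, chk3 f_pm_022 t 2 2 1 = true := ex3_a k0_pm_022 k1_pm_022

theorem s5_pm_022 : ∃ t, chk3 f_pm_022 t 2 1 1 = true := ex3_b s4_pm_022 k2_pm_022

theorem s6_pm_022 : ∃ t, chk3 f_pm_022 t 1 1 1 = true := ex3_a s5_pm_022 k3_pm_022

theorem c_pm_022 : CertB 0 536870912 1073741824 536870912 587336777 62277027 3 eng mog cd2q0 cd7q2 pd2 true true false .pp 0 2 2
    ndB2q0 ndB7q2 pcB2 cut_pm_022 Ext.none :=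
  certB2 (fam := true) (s1 := true) (s2 := false) (a := 0) (b := 2) (c := 2) (cn := .pp) (n1 := ndB2q0) (n2 := ndB7q2) (pc := pcB2) (cut := cut_pm_022) (xt := Ext.none) (P1 := 0) (W1 := 536870912) (P2 := 1073741824) (W2 := 536870912) (P3 := 587336777) (W3 := 62277027) (N0 := 3) (En := eng) (mo := mog) (C1 := cd2q0) (C2 := cd7q2) (C3 := pd2)
    rfl (fun _ => rfl) s6_pm_022

noncomputable def f_pm_023 : ℕ → ℕ → ℕ → ℕ → Bool := onCell 1610612736 536870912 1073741824 536870912 587336777 62277027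
    (rowB 3 eng mog cd2q0 cd7q2 pd3 2 true true false .up 0 2 3 (qsf 0 536870912 1073741824 536870912 3) ndB2q0 ndB7q2 pcB3 Cut.none Ext.none)

def k0_pm_023 : ∃ t, chk3 f_pm_023 t 1 1 1 = true :=
  ⟨(a (a (b (a (b (a (b (l 16215608) (l 16194400)) (l 16215760)) (b (l 16331928) (l 16284848))) (a (b (l 16267160) (l 16212064)) (b (l 16332296) (l 16249936)))) (b (a (b (l 16106944) (l 15994856)) (a (l 16105520) (l 16140968))) (b (l 16041776) (a (l 15994280) (l 15971456))))) (b (a (b (a (l 16385344) (l 2)) (l 16329136)) (b (l 2) (l 16435456))) (b (a (l 16207288) (l 16386328)) (a (l 16166608) (l 16347168))))) (b (a (a (b (l 2) (l 16494216)) (l 2)) (l 2)) (b (a (a (l 16495848) (l 16561120)) (a (b (l 2) (l 16605544)) (l 2))) (a (b (l 16529960) (l 16524032)) (a (l 16621328) (a (l 16649448) (a (l 16656440) (l 157404120903)))))))), by decide +kernel⟩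

theorem c_pm_023 : CertB 0 536870912 1073741824 536870912 587336777 62277027 3 eng mog cd2q0 cd7q2 pd3 true true false .up 0 2 3
    ndB2q0 ndB7q2 pcB3 Cut.none Ext.none :=
  certB2 (fam := true) (s1 := true) (s2 := false) (a := 0) (b := 2) (c := 3) (cn := .up) (n1 := ndB2q0) (n2 := ndB7q2) (pc := pcB3) (cut := Cut.none) (xt := Ext.none) (P1 := 0) (W1 := 536870912) (P2 := 1073741824) (W2 := 536870912) (P3 := 587336777) (W3 := 62277027) (N0 := 3) (En := eng) (mo := mog) (C1 := cd2q0) (C2 := cd7q2) (C3 := pd3)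
    rfl (fun _ => rfl) k0_pm_023

noncomputable def f_pm_033 : ℕ → ℕ → ℕ → ℕ → Bool := onCell 1610612736 536870912 0 1230186008 587336777 62277027
    (rowB 3 eng mog cd2q0 cd7q3 pd3 2 true true false .pnn 0 3 3 (qsf 0 536870912 0 1230186008 3) ndB2q0 ndB7q3 pcB3 Cut.none Ext.none)

def k0_pm_033 : ∃ t, chk3 f_pm_033 t 1 1 1 = true :=
  ⟨(a (b (l 1) (b (b (l 1) (a (l 1) (a (l 1) (b (l 1) (l 631393410967))))) (b (a (l 1) (b (l 621193006583) (l 16551408))) (a (b (a (l 1) (l 16181200)) (a (l 258804234295) (l 16079760))) (b (l 16342280) (l 16303616)))))) (a (b (l 1) (b (b (a (l 1) (b (l 550326170183) (l 16549176))) (a (l 558379277687) (b (l 16545304) (l 16539184)))) (b (b (a (l 16491672) (l 16537608)) (l 16512768)) (b (l 16515592) (l 16520616))))) (b (b (l 4) (a (b (l 795139444711) (a (l 16570200) (l 16573712))) (b (l 4) (l 4)))) (a (b (b (a (l 16593192) (l 16581568)) (l 16581472)) (b (l 16593896) (l 16742752))) (b (b (a (l 16586480) (l 4)) (a (l 16610040)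 (a (l 16624096) (a (l 16626928) (l 4))))) (a (b (l 16630912) (l 16650920)) (b (a (l 16648944) (a (l 16655088) (l 16655568))) (a (l 16664520) (a (l 16670568) (l 16800248)))))))))), by decide +kernel⟩

theorem c_pm_033 : CertB 0 536870912 0 1230186008 587336777 62277027 3 eng mog cd2q0 cd7q3 pd3 true true false .pnn 0 3 3
    ndB2q0 ndB7q3 pcB3 Cut.none Ext.none :=
  certB2 (fam := true) (s1 := true) (s2 := false) (a := 0) (b := 3) (c := 3) (cn := .pnn) (n1 := ndB2q0) (n2 := ndB7q3) (pc := pcB3) (cut := Cut.none) (xt := Ext.none) (P1 := 0) (W1 := 536870912) (P2 := 0) (W2 := 1230186008) (P3 := 587336777) (W3 := 62277027) (N0 := 3) (En := eng) (mo := mog) (C1 := cd2q0) (C2 := cd7q3) (C3 := pd3)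
    rfl (fun _ => rfl) k0_pm_033

noncomputable def f_pm_101 : ℕ → ℕ → ℕ → ℕ → Bool := onCell 536870912 536870912 0 536870912 587336777 62277027
    (rowB 3 eng mog cd2q1 cd7q0 pd1 2 true true false .npn 1 0 1 (qsf 536870912 536870912 0 536870912 1) ndB2q1 ndB7q0 pcB1 Cut.none Ext.none)

def k0_pm_101 : ∃ t, chk3 f_pm_101 t 1 1 1 = true :=
  ⟨(a (b (a (l 3) (a (l 3) (b (a (l 3) (b (a (l 16647120) (l 16631280)) (a (l 3) (l 16653064)))) (l 3)))) (l 3)) (a (b (a (b (b (a (a (l 16613160) (l 16593856)) (a (l 16575640) (l 16556304))) (a (a (l 16635904) (l 16616392)) (a (l 16595648) (l 16574432)))) (a (b (a (l 3) (l 16629096)) (l 3)) (b (a (l 16606584) (l 16582344)) (a (l 16610872) (l 16583888))))) (b (b (a (l 16526288) (l 16487112)) (a (l 16669312) (l 16495872))) (a (b (l 16649288) (l 16538968)) (b (l 16555800) (a (l 16492864) (l 16461280)))))) (b (a (l 3) (a (b (l 16527984) (l 182166940407)) (b (a (l 16473696) (l 16436512)) (l 16546048)))) (a (l 1)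 (b (a (l 1) (l 206191924167)) (l 1))))) (b (b (b (a (a (l 16447592) (l 16407664)) (a (a (l 16375504) (l 16357552)) (l 16514656))) (a (a (l 16449520) (l 16399024)) (a (l 16340936) (l 16264856)))) (a (b (a (l 16434952) (l 16374480)) (l 16376848)) (b (a (l 16303496) (l 16213440)) (l 16442688)))) (a (b (a (b (l 16400536) (l 16387224)) (b (l 16296864) (b (l 16270960) (l 16300136)))) (a (b (l 140156608343) (l 1)) (b (l 16480008) (l 209412981767)))) (b (b (l 16290248) (l 16262760)) (b (l 16434824) (a (l 157873255575) (l 16281312)))))))), by decide +kernel⟩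

theorem c_pm_101 : CertB 536870912 536870912 0 536870912 587336777 62277027 3 eng mog cd2q1 cd7q0 pd1 true true false .npn 1 0 1
    ndB2q1 ndB7q0 pcB1 Cut.none Ext.none :=
  certB2 (fam := true) (s1 := true) (s2 := false) (a := 1) (b := 0) (c := 1) (cn := .npn) (n1 := ndB2q1) (n2 := ndB7q0) (pc := pcB1) (cut := Cut.none) (xt := Ext.none) (P1 := 536870912) (W1 := 536870912) (P2 := 0) (W2 := 536870912) (P3 := 587336777) (W3 := 62277027) (N0 := 3) (En := eng) (mo := mog) (C1 := cd2q1) (C2 := cd7q0) (C3 := pd1)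
    rfl (fun _ => rfl) k0_pm_101

noncomputable def f_pm_102 : ℕ → ℕ → ℕ → ℕ → Bool := onCell 536870912 536870912 1073741824 536870912 587336777 62277027
    (rowB 3 eng mog cd2q1 cd7q0 pd2 1 true true false .npp 1 0 2 (qsf 536870912 536870912 0 536870912 2) ndB2q1 ndB7q0 pcB2 Cut.none Ext.none)

def k0_pm_102 : ∃ t, chk3 f_pm_102 t 1 1 1 = true :=
  ⟨(a (b (b (a (b (a (b (l 16234960) (l 16242560)) (l 16437632)) (a (b (l 16245016) (l 2)) (l 16458024))) (b (a (l 16177408) (l 16156096)) (a (l 16184064) (l 16187672)))) (a (b (a (l 2) (b (l 154718940503) (l 2))) (l 2)) (b (b (a (l 16350896) (l 16463232)) (l 149887115447)) (a (l 16283536) (l 16312064))))) (a (l 2) (b (b (a (l 2) (l 16402400)) (l 2)) (l 2)))) (b (b (a (b (a (l 16177504) (l 16210256)) (a (l 16217888) (l 16268856))) (b (a (l 16244096) (l 16304032)) (a (l 16331808) (l 16405408)))) (a (b (a (b (b (l 16242248) (l 16253632)) (l 16275064)) (l 16338944)) (a (l 16369352) (l 16450784))) (b (a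 (l 16416056) (l 16487256)) (a (l 16531152) (l 16602144))))) (b (a (b (a (l 16477952) (l 16569464)) (a (l 16584952) (l 16683544))) (b (l 16680448) (l 16767144))) (a (b (a (l 2) (l 16797664)) (l 2)) (b (l 16831840) (l 16950864)))))), by decide +kernel⟩

theorem c_pm_102 : CertB 536870912 536870912 0 536870912 587336777 62277027 3 eng mog cd2q1 cd7q0 pd2 true true false .npp 1 0 2
    ndB2q1 ndB7q0 pcB2 Cut.none Ext.none :=
  certB1 (fam := true) (s1 := true) (s2 := false) (a := 1) (b := 0) (c := 2) (cn := .npp) (n1 := ndB2q1) (n2 := ndB7q0) (pc := pcB2) (cut := Cut.none) (xt := Ext.none) (P1 := 536870912) (W1 := 536870912) (P2 := 0) (W2 := 536870912) (P3 := 587336777) (W3 := 62277027) (N0 := 3) (En := eng) (mo := mog) (C1 := cd2q1) (C2 := cd7q0) (C3 := pd2)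
    rfl (fun _ => rfl) k0_pm_102

noncomputable def f_pm_112 : ℕ → ℕ → ℕ → ℕ → Bool := onCell 536870912 536870912 1073741824 536870912 587336777 62277027
    (rowB 3 eng mog cd2q1 cd7q1 pd2 1 true true false .dn 1 1 2 (qsf 536870912 536870912 536870912 536870912 2) ndB2q1 ndB7q1 pcB2 Cut.none Ext.none)

def k0_pm_112 : ∃ t, chk3 f_pm_112 t 1 1 1 = true :=
  ⟨(b (a (b (a (b (a (l 16238960) (l 16183608)) (a (l 16246152) (l 16205288))) (b (l 1) (l 232497969783))) (a (b (b (b (l 16224744) (a (l 16248496) (l 16219480))) (l 16235328)) (a (l 16273592) (l 16274224))) (b (b (b (l 16194752) (l 16350992)) (l 16218256)) (l 16295760)))) (b (l 1) (a (b (l 1) (l 16409984)) (l 1)))) (a (a (b (b (l 16304984) (l 16338224)) (a (l 16370232) (l 16456248))) (b (b (l 16376240) (l 16452768)) (a (l 16558976) (l 16674000)))) (b (a (b (l 16524056) (l 16637984)) (b (l 1) (l 16794112))) (a (l 16804544) (b (l 16903192) (l 16962408)))))), by decide +kernel⟩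

theorem c_pm_112 : CertB 536870912 536870912 536870912 536870912 587336777 62277027 3 eng mog cd2q1 cd7q1 pd2 true true false .dn 1 1 2
    ndB2q1 ndB7q1 pcB2 Cut.none Ext.none :=
  certB1 (fam := true) (s1 := true) (s2 := false) (a := 1) (b := 1) (c := 2) (cn := .dn) (n1 := ndB2q1) (n2 := ndB7q1) (pc := pcB2) (cut := Cut.none) (xt := Ext.none) (P1 := 536870912) (W1 := 536870912) (P2 := 536870912) (W2 := 536870912) (P3 := 587336777) (W3 := 62277027) (N0 := 3) (En := eng) (mo := mog) (C1 := cd2q1) (C2 := cd7q1) (C3 := pd2)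
    rfl (fun _ => rfl) k0_pm_112

noncomputable def f_pm_113 : ℕ → ℕ → ℕ → ℕ → Bool := onCell 1610612736 536870912 536870912 536870912 587336777 62277027
    (rowB 3 eng mog cd2q1 cd7q1 pd3 2 true true false .nn 1 1 3 (qsf 536870912 536870912 536870912 536870912 3) ndB2q1 ndB7q1 pcB3 Cut.none Ext.none)

def k0_pm_113 : ∃ t, chk3 f_pm_113 t 1 1 1 = true :=
  ⟨(b (a (a (a (b (b (l 17000184) (l 16950160)) (l 16871824)) (b (l 16940688) (l 16810392))) (a (b (b (l 2) (l 16882600)) (l 17001448)) (b (l 2) (l 16795408)))) (a (b (l 2) (a (b (l 2) (l 16731272)) (l 2))) (l 2))) (a (a (a (b (a (l 16733280) (l 16709760)) (a (a (l 16497336) (l 16464512)) (l 16518088))) (a (b (l 16746704) (l 16586784)) (b (l 16769752) (l 16641248)))) (a (b (a (l 16778232) (l 16775840)) (a (l 16674520) (l 16690784))) (b (l 16778024) (l 16708536)))) (a (a (b (l 16745528) (l 16726496)) (b (l 16662360) (l 16705232))) (a (b (l 4) (l 4)) (l 4))))), by decide +kernel⟩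

theorem c_pm_113 : CertB 536870912 536870912 536870912 536870912 587336777 62277027 3 eng mog cd2q1 cd7q1 pd3 true true false .nn 1 1 3
    ndB2q1 ndB7q1 pcB3 Cut.none Ext.none :=
  certB2 (fam := true) (s1 := true) (s2 := false) (a := 1) (b := 1) (c := 3) (cn := .nn) (n1 := ndB2q1) (n2 := ndB7q1) (pc := pcB3) (cut := Cut.none) (xt := Ext.none) (P1 := 536870912) (W1 := 536870912) (P2 := 536870912) (W2 := 536870912) (P3 := 587336777) (W3 := 62277027) (N0 := 3) (En := eng) (mo := mog) (C1 := cd2q1) (C2 := cd7q1) (C3 := pd3)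
    rfl (fun _ => rfl) k0_pm_113

noncomputable def f_pm_123 : ℕ → ℕ → ℕ → ℕ → Bool := onCell 1610612736 536870912 1073741824 536870912 587336777 62277027
    (rowB 3 eng mog cd2q1 cd7q2 pd3 2 true true false .npn 1 2 3 (qsf 536870912 536870912 1073741824 536870912 3) ndB2q1 ndB7q2 pcB3 Cut.none Ext.none)

def k0_pm_123 : ∃ t, chk3 f_pm_123 t 1 1 1 = true :=
  ⟨(a (a (b (a (b (a (b (l 16328368) (l 1)) (l 16333120)) (l 1)) (a (b (l 16389232) (l 1)) (b (l 16466288) (l 16406000)))) (l 1)) (b (a (b (a (l 16517200) (l 16551696)) (l 16451712)) (b (l 16718968) (l 16515960))) (b (a (l 1) (l 16510232)) (l 1)))) (b (a (a (b (b (l 16672656) (l 16616256)) (l 16569824)) (b (a (l 16661328) (l 16662112)) (a (l 16602192) (l 16622472)))) (a (b (l 16897856) (a (l 16630416) (l 16628296))) (a (b (l 4) (l 16620728)) (l 4)))) (a (b (a (l 16561528) (l 16605120)) (b (l 16605600) (l 1))) (a (b (b (l 16639936) (l 16641664)) (l 16657888)) (a (b (l 16650344) (l 16677704))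 (a (b (l 16648872) (l 16682600)) (b (l 4) (l 137137314375)))))))), by decide +kernel⟩

theorem c_pm_123 : CertB 536870912 536870912 1073741824 536870912 587336777 62277027 3 eng mog cd2q1 cd7q2 pd3 true true false .npn 1 2 3
    ndB2q1 ndB7q2 pcB3 Cut.none Ext.none :=
  certB2 (fam := true) (s1 := true) (s2 := false) (a := 1) (b := 2) (c := 3) (cn := .npn) (n1 := ndB2q1) (n2 := ndB7q2) (pc := pcB3) (cut := Cut.none) (xt := Ext.none) (P1 := 536870912) (W1 := 536870912) (P2 := 1073741824) (W2 := 536870912) (P3 := 587336777) (W3 := 62277027) (N0 := 3) (En := eng) (mo := mog) (C1 := cd2q1) (C2 := cd7q2) (C3 := pd3)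
    rfl (fun _ => rfl) k0_pm_123

noncomputable def f_pm_133 : ℕ → ℕ → ℕ → ℕ → Bool := onCell 536870912 536870912 0 1230186008 587336777 62277027
    (rowB 3 eng mog cd2q1 cd7q3 pd3 0 true true false .dn 1 3 3 (qsf 536870912 536870912 0 1230186008 3) ndB2q1 ndB7q3 pcB3 Cut.none Ext.none)

def k0_pm_133 : ∃ t, chk3 f_pm_133 t 1 1 1 = true :=
  ⟨(b (l 2) (b (l 2) (a (b (l 2) (a (b (l 2) (l 4)) (l 2))) (l 2)))), by decide +kernel⟩

theorem c_pm_133 : CertB 536870912 536870912 0 1230186008 587336777 62277027 3 eng mog cd2q1 cd7q3 pd3 true true false .dn 1 3 3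
    ndB2q1 ndB7q3 pcB3 Cut.none Ext.none :=
  certB0 (fam := true) (s1 := true) (s2 := false) (a := 1) (b := 3) (c := 3) (cn := .dn) (n1 := ndB2q1) (n2 := ndB7q3) (pc := pcB3) (cut := Cut.none) (xt := Ext.none) (P1 := 536870912) (W1 := 536870912) (P2 := 0) (W2 := 1230186008) (P3 := 587336777) (W3 := 62277027) (N0 := 3) (En := eng) (mo := mog) (C1 := cd2q1) (C2 := cd7q3) (C3 := pd3)
    rfl k0_pm_133

noncomputable def f_pm_202_a : ℕ → ℕ → ℕ → ℕ → Bool := onCell 0 536870912 0 536870912 587336777 62277027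
    (rowB 3 eng mog cd2q2a cd7q0 pd2 0 true true false .pp 2 0 2 (qsf 0 536870912 0 536870912 2) ndB2q2a ndB7q0 pcB2 Cut.none Ext.none)

def k0_pm_202_a : ∃ t, chk3 f_pm_202_a t 1 1 1 = true :=
  ⟨(b (a (b (b (a (l 4) (a (l 4) (b (l 16349544) (l 4)))) (l 4)) (l 4)) (b (a (b (a (b (l 16325568) (l 16352184)) (b (l 16304744) (l 16330656))) (a (l 16403776) (l 16384000))) (a (b (b (a (l 16290112) (b (l 16276992) (l 16287760))) (l 16312992)) (b (l 16351536) (l 16399592))) (b (a (b (b (a (l 16271568) (l 16267872)) (l 16282104)) (l 16309864)) (b (a (b (b (a (l 16264104) (l 16262480)) (l 16269120)) (l 16282304)) (b (a (b (b (l 16259968) (l 16263200)) (l 16269616)) (b (a (l 16261344) (l 16264576)) (l 16274864))) (l 16292456))) (a (l 16318720) (l 16318424)))) (a (l 16386816) (b (l 16356352) (l 16385128)))))) (a (b (a (l 16486760) (l 16477504)) (a (l 4) (l 16582984))) (b (a (l 16485400) (b (a (l 16445912) (l 16415056)) (l 16467128))) (a (l 16563600) (l 16524656))))))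 (a (l 4) (a (l 4) (a (b (b (l 16628040) (l 16684040)) (l 4)) (b (b (l 16597280) (l 16583608)) (b (l 16722440) (b (l 16748160) (l 4)))))))), by decide +kernel⟩

theorem c_pm_202_a : CertB 0 536870912 0 536870912 587336777 62277027 3 eng mog cd2q2a cd7q0 pd2 true true false .pp 2 0 2
    ndB2q2a ndB7q0 pcB2 Cut.none Ext.none :=
  certB0 (fam := true) (s1 := true) (s2 := false) (a := 2) (b := 0) (c := 2) (cn := .pp) (n1 := ndB2q2a) (n2 := ndB7q0) (pc := pcB2) (cut := Cut.none) (xt := Ext.none) (P1 := 0) (W1 := 536870912) (P2 := 0) (W2 := 536870912) (P3 := 587336777) (W3 := 62277027) (N0 := 3) (En := eng) (mo := mog) (C1 := cd2q2a) (C2 := cd7q0) (C3 := pd2)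
    rfl k0_pm_202_a

noncomputable def f_pm_202_b : ℕ → ℕ → ℕ → ℕ → Bool := onCell 1239849684 370763052 0 536870912 587336777 62277027
    (rowB 3 eng mog cd2q2b cd7q0 pd2 0 true true false .pp 2 0 2 (qsf 1239849684 370763052 0 536870912 2) ndB2q2b ndB7q0 pcB2 Cut.none Ext.none)

def k0_pm_202_b : ∃ t, chk3 f_pm_202_b t 1 1 1 = true :=
  ⟨(l 4), by decide +kernel⟩

theorem c_pm_202_b : CertB 1239849684 370763052 0 536870912 587336777 62277027 3 eng mog cd2q2b cd7q0 pd2 true true false .pp 2 0 2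
    ndB2q2b ndB7q0 pcB2 Cut.none Ext.none :=
  certB0 (fam := true) (s1 := true) (s2 := false) (a := 2) (b := 0) (c := 2) (cn := .pp) (n1 := ndB2q2b) (n2 := ndB7q0) (pc := pcB2) (cut := Cut.none) (xt := Ext.none) (P1 := 1239849684) (W1 := 370763052) (P2 := 0) (W2 := 536870912) (P3 := 587336777) (W3 := 62277027) (N0 := 3) (En := eng) (mo := mog) (C1 := cd2q2b) (C2 := cd7q0) (C3 := pd2)
    rfl k0_pm_202_b

noncomputable def f_pm_203_a : ℕ → ℕ → ℕ → ℕ → Bool := onCell 0 536870912 1610612736 536870912 587336777 62277027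
    (rowB 3 eng mog cd2q2a cd7q0 pd3 1 true true false .up 2 0 3 (qsf 0 536870912 0 536870912 3) ndB2q2a ndB7q0 pcB3 Cut.none Ext.none)

def k0_pm_203_a : ∃ t, chk3 f_pm_203_a t 1 1 1 = true :=
  ⟨(a (l 4) (b (l 4) (l 2))), by decide +kernel⟩

theorem c_pm_203_a : CertB 0 536870912 0 536870912 587336777 62277027 3 eng mog cd2q2a cd7q0 pd3 true true false .up 2 0 3
    ndB2q2a ndB7q0 pcB3 Cut.none Ext.none :=
  certB1 (fam := true) (s1 := true) (s2 := false) (a := 2) (b := 0) (c := 3) (cn := .up) (n1 := ndB2q2a) (n2 := ndB7q0) (pc := pcB3) (cut := Cut.none) (xt := Ext.none) (P1 := 0) (W1 := 536870912) (P2 := 0) (W2 := 536870912) (P3 := 587336777) (W3 := 62277027) (N0 := 3) (En := eng) (mo := mog) (C1 := cd2q2a) (C2 := cd7q0) (C3 := pd3)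
    rfl (fun _ => rfl) k0_pm_203_a

noncomputable def f_pm_203_b : ℕ → ℕ → ℕ → ℕ → Bool := onCell 1239849684 370763052 0 536870912 587336777 62277027
    (rowB 3 eng mog cd2q2b cd7q0 pd3 0 true true false .up 2 0 3 (qsf 1239849684 370763052 0 536870912 3) ndB2q2b ndB7q0 pcB3 Cut.none Ext.none)

def k0_pm_203_b : ∃ t, chk3 f_pm_203_b t 1 1 1 = true :=
  ⟨(l 4), by decide +kernel⟩

theorem c_pm_203_b : CertB 1239849684 370763052 0 536870912 587336777 62277027 3 eng mog cd2q2b cd7q0 pd3 true true false .up 2 0 3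
    ndB2q2b ndB7q0 pcB3 Cut.none Ext.none :=
  certB0 (fam := true) (s1 := true) (s2 := false) (a := 2) (b := 0) (c := 3) (cn := .up) (n1 := ndB2q2b) (n2 := ndB7q0) (pc := pcB3) (cut := Cut.none) (xt := Ext.none) (P1 := 1239849684) (W1 := 370763052) (P2 := 0) (W2 := 536870912) (P3 := 587336777) (W3 := 62277027) (N0 := 3) (En := eng) (mo := mog) (C1 := cd2q2b) (C2 := cd7q0) (C3 := pd3)
    rfl k0_pm_203_b

noncomputable def f_pm_213_a : ℕ → ℕ → ℕ → ℕ → Bool := onCell 0 536870912 536870912 536870912 587336777 62277027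
    (rowB 3 eng mog cd2q2a cd7q1 pd3 0 true true false .pnn 2 1 3 (qsf 0 536870912 536870912 536870912 3) ndB2q2a ndB7q1 pcB3 Cut.none Ext.none)

def k0_pm_213_a : ∃ t, chk3 f_pm_213_a t 1 1 1 = true :=
  ⟨(a (l 4) (b (l 4) (l 4))), by decide +kernel⟩

theorem c_pm_213_a : CertB 0 536870912 536870912 536870912 587336777 62277027 3 eng mog cd2q2a cd7q1 pd3 true true false .pnn 2 1 3
    ndB2q2a ndB7q1 pcB3 Cut.none Ext.none :=
  certB0 (fam := true) (s1 := true) (s2 := false) (a := 2) (b := 1) (c := 3) (cn := .pnn) (n1 := ndB2q2a) (n2 := ndB7q1) (pc := pcB3) (cut := Cut.none) (xt := Ext.none) (P1 := 0) (W1 := 536870912) (P2 := 536870912) (W2 := 536870912) (P3 := 587336777) (W3 := 62277027) (N0 := 3) (En := eng) (mo := mog) (C1 := cd2q2a) (C2 := cd7q1) (C3 := pd3)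
    rfl k0_pm_213_a

noncomputable def f_pm_213_b : ℕ → ℕ → ℕ → ℕ → Bool := onCell 1239849684 370763052 536870912 536870912 587336777 62277027
    (rowB 3 eng mog cd2q2b cd7q1 pd3 0 true true false .pnn 2 1 3 (qsf 1239849684 370763052 536870912 536870912 3) ndB2q2b ndB7q1 pcB3 Cut.none Ext.none)

def k0_pm_213_b : ∃ t, chk3 f_pm_213_b t 1 1 1 = true :=
  ⟨(l 4), by decide +kernel⟩

theorem c_pm_213_b : CertB 1239849684 370763052 536870912 536870912 587336777 62277027 3 eng mog cd2q2b cd7q1 pd3 true true false .pnn 2 1 3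
    ndB2q2b ndB7q1 pcB3 Cut.none Ext.none :=
  certB0 (fam := true) (s1 := true) (s2 := false) (a := 2) (b := 1) (c := 3) (cn := .pnn) (n1 := ndB2q2b) (n2 := ndB7q1) (pc := pcB3) (cut := Cut.none) (xt := Ext.none) (P1 := 1239849684) (W1 := 370763052) (P2 := 536870912) (W2 := 536870912) (P3 := 587336777) (W3 := 62277027) (N0 := 3) (En := eng) (mo := mog) (C1 := cd2q2b) (C2 := cd7q1) (C3 := pd3)
    rfl k0_pm_213_b

noncomputable def f_pm_303 : ℕ → ℕ → ℕ → ℕ → Bool := onCell 1610612736 536870912 0 536870912 587336777 62277027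
    (rowB 3 eng mog cd2q3 cd7q0 pd3 0 true true false .npn 3 0 3 (qsf 1610612736 536870912 0 536870912 3) ndB2q3 ndB7q0 pcB3 Cut.none Ext.none)

def k0_pm_303 : ∃ t, chk3 f_pm_303 t 1 1 1 = true :=
  ⟨(l 4), by decide +kernel⟩

theorem c_pm_303 : CertB 1610612736 536870912 0 536870912 587336777 62277027 3 eng mog cd2q3 cd7q0 pd3 true true false .npn 3 0 3
    ndB2q3 ndB7q0 pcB3 Cut.none Ext.none :=
  certB0 (fam := true) (s1 := true) (s2 := false) (a := 3) (b := 0) (c := 3) (cn := .npn) (n1 := ndB2q3) (n2 := ndB7q0) (pc := pcB3) (cut := Cut.none) (xt := Ext.none) (P1 := 1610612736) (W1 := 536870912) (P2 := 0) (W2 := 536870912) (P3 := 587336777) (W3 := 62277027) (N0 := 3) (En := eng) (mo := mog) (C1 := cd2q3) (C2 := cd7q0) (C3 := pd3)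
    rfl k0_pm_303

noncomputable def f_pm_313 : ℕ → ℕ → ℕ → ℕ → Bool := onCell 1610612736 536870912 536870912 536870912 587336777 62277027
    (rowB 3 eng mog cd2q3 cd7q1 pd3 0 true true false .dn 3 1 3 (qsf 1610612736 536870912 536870912 536870912 3) ndB2q3 ndB7q1 pcB3 Cut.none Ext.none)

def k0_pm_313 : ∃ t, chk3 f_pm_313 t 1 1 1 = true :=
  ⟨(l 4), by decide +kernel⟩

theorem c_pm_313 : CertB 1610612736 536870912 536870912 536870912 587336777 62277027 3 eng mog cd2q3 cd7q1 pd3 true true false .dn 3 1 3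
    ndB2q3 ndB7q1 pcB3 Cut.none Ext.none :=
  certB0 (fam := true) (s1 := true) (s2 := false) (a := 3) (b := 1) (c := 3) (cn := .dn) (n1 := ndB2q3) (n2 := ndB7q1) (pc := pcB3) (cut := Cut.none) (xt := Ext.none) (P1 := 1610612736) (W1 := 536870912) (P2 := 536870912) (W2 := 536870912) (P3 := 587336777) (W3 := 62277027) (N0 := 3) (En := eng) (mo := mog) (C1 := cd2q3) (C2 := cd7q1) (C3 := pd3)
    rfl k0_pm_313

noncomputable def f_mm_001 : ℕ → ℕ → ℕ → ℕ → Bool := onCell 0 536870912 0 536870912 587336777 62277027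
    (rowB 3 eng mog cd2q0 cd7q0 pd1 0 true false false .up 0 0 1 (qsf 0 536870912 0 536870912 1) ndB2q0 ndB7q0 pcB1 Cut.none Ext.none)

def k0_mm_001 : ∃ t, chk3 f_mm_001 t 1 1 1 = true :=
  ⟨(l 4), by decide +kernel⟩

theorem c_mm_001 : CertB 0 536870912 0 536870912 587336777 62277027 3 eng mog cd2q0 cd7q0 pd1 true false false .up 0 0 1
    ndB2q0 ndB7q0 pcB1 Cut.none Ext.none :=
  certB0 (fam := true) (s1 := false) (s2 := false) (a := 0) (b := 0) (c := 1) (cn := .up) (n1 := ndB2q0) (n2 := ndB7q0) (pc := pcB1) (cut := Cut.none) (xt := Ext.none) (P1 := 0) (W1 := 536870912) (P2 := 0) (W2 := 536870912) (P3 := 587336777) (W3 := 62277027) (N0 := 3) (En := eng) (mo := mog) (C1 := cd2q0) (C2 := cd7q0) (C3 := pd1)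
    rfl k0_mm_001

noncomputable def f_mm_011 : ℕ → ℕ → ℕ → ℕ → Bool := onCell 0 536870912 536870912 536870912 587336777 62277027
    (rowB 3 eng mog cd2q0 cd7q1 pd1 0 true false false .pnn 0 1 1 (qsf 0 536870912 536870912 536870912 1) ndB2q0 ndB7q1 pcB1 Cut.none Ext.none)

def k0_mm_011 : ∃ t, chk3 f_mm_011 t 1 1 1 = true :=
  ⟨(l 4), by decide +kernel⟩

theorem c_mm_011 : CertB 0 536870912 536870912 536870912 587336777 62277027 3 eng mog cd2q0 cd7q1 pd1 true false false .pnn 0 1 1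
    ndB2q0 ndB7q1 pcB1 Cut.none Ext.none :=
  certB0 (fam := true) (s1 := false) (s2 := false) (a := 0) (b := 1) (c := 1) (cn := .pnn) (n1 := ndB2q0) (n2 := ndB7q1) (pc := pcB1) (cut := Cut.none) (xt := Ext.none) (P1 := 0) (W1 := 536870912) (P2 := 536870912) (W2 := 536870912) (P3 := 587336777) (W3 := 62277027) (N0 := 3) (En := eng) (mo := mog) (C1 := cd2q0) (C2 := cd7q1) (C3 := pd1)
    rfl k0_mm_011

noncomputable def f_mm_012 : ℕ → ℕ → ℕ → ℕ → Bool := onCell 0 536870912 536870912 536870912 587336777 62277027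
    (rowB 3 eng mog cd2q0 cd7q1 pd2 0 true false false .pnp 0 1 2 (qsf 0 536870912 536870912 536870912 2) ndB2q0 ndB7q1 pcB2 Cut.none Ext.none)

def k0_mm_012 : ∃ t, chk3 f_mm_012 t 1 1 1 = true :=
  ⟨(l 4), by decide +kernel⟩

theorem c_mm_012 : CertB 0 536870912 536870912 536870912 587336777 62277027 3 eng mog cd2q0 cd7q1 pd2 true false false .pnp 0 1 2
    ndB2q0 ndB7q1 pcB2 Cut.none Ext.none :=
  certB0 (fam := true) (s1 := false) (s2 := false) (a := 0) (b := 1) (c := 2) (cn := .pnp) (n1 := ndB2q0) (n2 := ndB7q1) (pc := pcB2) (cut := Cut.none) (xt := Ext.none) (P1 := 0) (W1 := 536870912) (P2 := 536870912) (W2 := 536870912) (P3 := 587336777) (W3 := 62277027) (N0 := 3) (En := eng) (mo := mog) (C1 := cd2q0) (C2 := cd7q1) (C3 := pd2)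
    rfl k0_mm_012

noncomputable def f_mm_022 : ℕ → ℕ → ℕ → ℕ → Bool := onCell 0 536870912 1073741824 536870912 587336777 62277027
    (rowB 3 eng mog cd2q0 cd7q2 pd2 0 true false false .pp 0 2 2 (qsf 0 536870912 1073741824 536870912 2) ndB2q0 ndB7q2 pcB2 Cut.none Ext.none)

def k0_mm_022 : ∃ t, chk3 f_mm_022 t 1 1 1 = true :=
  ⟨(l 4), by decide +kernel⟩

theorem c_mm_022 : CertB 0 536870912 1073741824 536870912 587336777 62277027 3 eng mog cd2q0 cd7q2 pd2 true false false .pp 0 2 2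
    ndB2q0 ndB7q2 pcB2 Cut.none Ext.none :=
  certB0 (fam := true) (s1 := false) (s2 := false) (a := 0) (b := 2) (c := 2) (cn := .pp) (n1 := ndB2q0) (n2 := ndB7q2) (pc := pcB2) (cut := Cut.none) (xt := Ext.none) (P1 := 0) (W1 := 536870912) (P2 := 1073741824) (W2 := 536870912) (P3 := 587336777) (W3 := 62277027) (N0 := 3) (En := eng) (mo := mog) (C1 := cd2q0) (C2 := cd7q2) (C3 := pd2)
    rfl k0_mm_022

noncomputable def f_mm_023 : ℕ → ℕ → ℕ → ℕ → Bool := onCell 0 536870912 1073741824 536870912 587336777 62277027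
    (rowB 3 eng mog cd2q0 cd7q2 pd3 0 true false false .up 0 2 3 (qsf 0 536870912 1073741824 536870912 3) ndB2q0 ndB7q2 pcB3 Cut.none Ext.none)

def k0_mm_023 : ∃ t, chk3 f_mm_023 t 1 1 1 = true :=
  ⟨(l 4), by decide +kernel⟩

theorem c_mm_023 : CertB 0 536870912 1073741824 536870912 587336777 62277027 3 eng mog cd2q0 cd7q2 pd3 true false false .up 0 2 3
    ndB2q0 ndB7q2 pcB3 Cut.none Ext.none :=
  certB0 (fam := true) (s1 := false) (s2 := false) (a := 0) (b := 2) (c := 3) (cn := .up) (n1 := ndB2q0) (n2 := ndB7q2) (pc := pcB3) (cut := Cut.none) (xt := Ext.none) (P1 := 0) (W1 := 536870912) (P2 := 1073741824) (W2 := 536870912) (P3 := 587336777) (W3 := 62277027) (N0 := 3) (En := eng) (mo := mog) (C1 := cd2q0) (C2 := cd7q2) (C3 := pd3)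
    rfl k0_mm_023

noncomputable def f_mm_033 : ℕ → ℕ → ℕ → ℕ → Bool := onCell 0 536870912 0 1230186008 587336777 62277027
    (rowB 3 eng mog cd2q0 cd7q3 pd3 0 true false false .pnn 0 3 3 (qsf 0 536870912 0 1230186008 3) ndB2q0 ndB7q3 pcB3 Cut.none Ext.none)

def k0_mm_033 : ∃ t, chk3 f_mm_033 t 1 1 1 = true :=
  ⟨(l 4), by decide +kernel⟩

theorem c_mm_033 : CertB 0 536870912 0 1230186008 587336777 62277027 3 eng mog cd2q0 cd7q3 pd3 true false false .pnn 0 3 3
    ndB2q0 ndB7q3 pcB3 Cut.none Ext.none :=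
  certB0 (fam := true) (s1 := false) (s2 := false) (a := 0) (b := 3) (c := 3) (cn := .pnn) (n1 := ndB2q0) (n2 := ndB7q3) (pc := pcB3) (cut := Cut.none) (xt := Ext.none) (P1 := 0) (W1 := 536870912) (P2 := 0) (W2 := 1230186008) (P3 := 587336777) (W3 := 62277027) (N0 := 3) (En := eng) (mo := mog) (C1 := cd2q0) (C2 := cd7q3) (C3 := pd3)
    rfl k0_mm_033

noncomputable def f_mm_101 : ℕ → ℕ → ℕ → ℕ → Bool := onCell 536870912 536870912 0 536870912 587336777 62277027
    (rowB 3 eng mog cd2q1 cd7q0 pd1 0 true false false .npn 1 0 1 (qsf 536870912 536870912 0 536870912 1) ndB2q1 ndB7q0 pcB1 Cut.none Ext.none)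

def k0_mm_101 : ∃ t, chk3 f_mm_101 t 1 1 1 = true :=
  ⟨(l 4), by decide +kernel⟩

theorem c_mm_101 : CertB 536870912 536870912 0 536870912 587336777 62277027 3 eng mog cd2q1 cd7q0 pd1 true false false .npn 1 0 1
    ndB2q1 ndB7q0 pcB1 Cut.none Ext.none :=
  certB0 (fam := true) (s1 := false) (s2 := false) (a := 1) (b := 0) (c := 1) (cn := .npn) (n1 := ndB2q1) (n2 := ndB7q0) (pc := pcB1) (cut := Cut.none) (xt := Ext.none) (P1 := 536870912) (W1 := 536870912) (P2 := 0) (W2 := 536870912) (P3 := 587336777) (W3 := 62277027) (N0 := 3) (En := eng) (mo := mog) (C1 := cd2q1) (C2 := cd7q0) (C3 := pd1)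
    rfl k0_mm_101

noncomputable def f_mm_102 : ℕ → ℕ → ℕ → ℕ → Bool := onCell 536870912 536870912 0 536870912 587336777 62277027
    (rowB 3 eng mog cd2q1 cd7q0 pd2 0 true false false .npp 1 0 2 (qsf 536870912 536870912 0 536870912 2) ndB2q1 ndB7q0 pcB2 Cut.none Ext.none)

def k0_mm_102 : ∃ t, chk3 f_mm_102 t 1 1 1 = true :=
  ⟨(l 4), by decide +kernel⟩

theorem c_mm_102 : CertB 536870912 536870912 0 536870912 587336777 62277027 3 eng mog cd2q1 cd7q0 pd2 true false false .npp 1 0 2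
    ndB2q1 ndB7q0 pcB2 Cut.none Ext.none :=
  certB0 (fam := true) (s1 := false) (s2 := false) (a := 1) (b := 0) (c := 2) (cn := .npp) (n1 := ndB2q1) (n2 := ndB7q0) (pc := pcB2) (cut := Cut.none) (xt := Ext.none) (P1 := 536870912) (W1 := 536870912) (P2 := 0) (W2 := 536870912) (P3 := 587336777) (W3 := 62277027) (N0 := 3) (En := eng) (mo := mog) (C1 := cd2q1) (C2 := cd7q0) (C3 := pd2)
    rfl k0_mm_102

noncomputable def f_mm_112 : ℕ → ℕ → ℕ → ℕ → Bool := onCell 536870912 536870912 536870912 536870912 587336777 62277027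
    (rowB 3 eng mog cd2q1 cd7q1 pd2 0 true false false .dn 1 1 2 (qsf 536870912 536870912 536870912 536870912 2) ndB2q1 ndB7q1 pcB2 Cut.none Ext.none)

def k0_mm_112 : ∃ t, chk3 f_mm_112 t 1 1 1 = true :=
  ⟨(l 4), by decide +kernel⟩

theorem c_mm_112 : CertB 536870912 536870912 536870912 536870912 587336777 62277027 3 eng mog cd2q1 cd7q1 pd2 true false false .dn 1 1 2
    ndB2q1 ndB7q1 pcB2 Cut.none Ext.none :=
  certB0 (fam := true) (s1 := false) (s2 := false) (a := 1) (b := 1) (c := 2) (cn := .dn) (n1 := ndB2q1) (n2 := ndB7q1) (pc := pcB2) (cut := Cut.none) (xt := Ext.none) (P1 := 536870912) (W1 := 536870912) (P2 := 536870912) (W2 := 536870912) (P3 := 587336777) (W3 := 62277027) (N0 := 3) (En := eng) (mo := mog) (C1 := cd2q1) (C2 := cd7q1) (C3 := pd2)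
    rfl k0_mm_112

noncomputable def f_mm_113 : ℕ → ℕ → ℕ → ℕ → Bool := onCell 536870912 536870912 536870912 536870912 587336777 62277027
    (rowB 3 eng mog cd2q1 cd7q1 pd3 0 true false false .nn 1 1 3 (qsf 536870912 536870912 536870912 536870912 3) ndB2q1 ndB7q1 pcB3 Cut.none Ext.none)

def k0_mm_113 : ∃ t, chk3 f_mm_113 t 1 1 1 = true :=
  ⟨(l 4), by decide +kernel⟩

theorem c_mm_113 : CertB 536870912 536870912 536870912 536870912 587336777 62277027 3 eng mog cd2q1 cd7q1 pd3 true false false .nn 1 1 3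
    ndB2q1 ndB7q1 pcB3 Cut.none Ext.none :=
  certB0 (fam := true) (s1 := false) (s2 := false) (a := 1) (b := 1) (c := 3) (cn := .nn) (n1 := ndB2q1) (n2 := ndB7q1) (pc := pcB3) (cut := Cut.none) (xt := Ext.none) (P1 := 536870912) (W1 := 536870912) (P2 := 536870912) (W2 := 536870912) (P3 := 587336777) (W3 := 62277027) (N0 := 3) (En := eng) (mo := mog) (C1 := cd2q1) (C2 := cd7q1) (C3 := pd3)
    rfl k0_mm_113

noncomputable def f_mm_123 : ℕ → ℕ → ℕ → ℕ → Bool := onCell 536870912 536870912 1073741824 536870912 587336777 62277027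
    (rowB 3 eng mog cd2q1 cd7q2 pd3 0 true false false .npn 1 2 3 (qsf 536870912 536870912 1073741824 536870912 3) ndB2q1 ndB7q2 pcB3 Cut.none Ext.none)

def k0_mm_123 : ∃ t, chk3 f_mm_123 t 1 1 1 = true :=
  ⟨(l 4), by decide +kernel⟩

theorem c_mm_123 : CertB 536870912 536870912 1073741824 536870912 587336777 62277027 3 eng mog cd2q1 cd7q2 pd3 true false false .npn 1 2 3
    ndB2q1 ndB7q2 pcB3 Cut.none Ext.none :=
  certB0 (fam := true) (s1 := false) (s2 := false) (a := 1) (b := 2) (c := 3) (cn := .npn) (n1 := ndB2q1) (n2 := ndB7q2) (pc := pcB3) (cut := Cut.none) (xt := Ext.none) (P1 := 536870912) (W1 := 536870912) (P2 := 1073741824) (W2 := 536870912) (P3 := 587336777) (W3 := 62277027) (N0 := 3) (En := eng) (mo := mog) (C1 := cd2q1) (C2 := cd7q2) (C3 := pd3)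
    rfl k0_mm_123

noncomputable def f_mm_133 : ℕ → ℕ → ℕ → ℕ → Bool := onCell 536870912 536870912 0 1230186008 587336777 62277027
    (rowB 3 eng mog cd2q1 cd7q3 pd3 0 true false false .dn 1 3 3 (qsf 536870912 536870912 0 1230186008 3) ndB2q1 ndB7q3 pcB3 Cut.none Ext.none)

def k0_mm_133 : ∃ t, chk3 f_mm_133 t 1 1 1 = true :=
  ⟨(l 4), by decide +kernel⟩

theorem c_mm_133 : CertB 536870912 536870912 0 1230186008 587336777 62277027 3 eng mog cd2q1 cd7q3 pd3 true false false .dn 1 3 3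
    ndB2q1 ndB7q3 pcB3 Cut.none Ext.none :=
  certB0 (fam := true) (s1 := false) (s2 := false) (a := 1) (b := 3) (c := 3) (cn := .dn) (n1 := ndB2q1) (n2 := ndB7q3) (pc := pcB3) (cut := Cut.none) (xt := Ext.none) (P1 := 536870912) (W1 := 536870912) (P2 := 0) (W2 := 1230186008) (P3 := 587336777) (W3 := 62277027) (N0 := 3) (En := eng) (mo := mog) (C1 := cd2q1) (C2 := cd7q3) (C3 := pd3)
    rfl k0_mm_133

noncomputable def f_mm_202_a : ℕ → ℕ → ℕ → ℕ → Bool := onCell 0 536870912 0 536870912 587336777 62277027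
    (rowB 3 eng mog cd2q2a cd7q0 pd2 0 true false false .pp 2 0 2 (qsf 0 536870912 0 536870912 2) ndB2q2a ndB7q0 pcB2 Cut.none Ext.none)

def k0_mm_202_a : ∃ t, chk3 f_mm_202_a t 1 1 1 = true :=
  ⟨(l 4), by decide +kernel⟩

theorem c_mm_202_a : CertB 0 536870912 0 536870912 587336777 62277027 3 eng mog cd2q2a cd7q0 pd2 true false false .pp 2 0 2
    ndB2q2a ndB7q0 pcB2 Cut.none Ext.none :=
  certB0 (fam := true) (s1 := false) (s2 := false) (a := 2) (b := 0) (c := 2) (cn := .pp) (n1 := ndB2q2a) (n2 := ndB7q0) (pc := pcB2) (cut := Cut.none) (xt := Ext.none) (P1 := 0) (W1 := 536870912) (P2 := 0) (W2 := 536870912) (P3 := 587336777) (W3 := 62277027) (N0 := 3) (En := eng) (mo := mog) (C1 := cd2q2a) (C2 := cd7q0) (C3 := pd2)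
    rfl k0_mm_202_a

noncomputable def f_mm_202_b : ℕ → ℕ → ℕ → ℕ → Bool := onCell 1239849684 370763052 0 536870912 587336777 62277027
    (rowB 3 eng mog cd2q2b cd7q0 pd2 0 true false false .pp 2 0 2 (qsf 1239849684 370763052 0 536870912 2) ndB2q2b ndB7q0 pcB2 Cut.none Ext.none)

def k0_mm_202_b : ∃ t, chk3 f_mm_202_b t 1 1 1 = true :=
  ⟨(l 4), by decide +kernel⟩

theorem c_mm_202_b : CertB 1239849684 370763052 0 536870912 587336777 62277027 3 eng mog cd2q2b cd7q0 pd2 true false false .pp 2 0 2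
    ndB2q2b ndB7q0 pcB2 Cut.none Ext.none :=
  certB0 (fam := true) (s1 := false) (s2 := false) (a := 2) (b := 0) (c := 2) (cn := .pp) (n1 := ndB2q2b) (n2 := ndB7q0) (pc := pcB2) (cut := Cut.none) (xt := Ext.none) (P1 := 1239849684) (W1 := 370763052) (P2 := 0) (W2 := 536870912) (P3 := 587336777) (W3 := 62277027) (N0 := 3) (En := eng) (mo := mog) (C1 := cd2q2b) (C2 := cd7q0) (C3 := pd2)
    rfl k0_mm_202_b

noncomputable def f_mm_203_a : ℕ → ℕ → ℕ → ℕ → Bool := onCell 0 536870912 0 536870912 587336777 62277027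
    (rowB 3 eng mog cd2q2a cd7q0 pd3 0 true false false .up 2 0 3 (qsf 0 536870912 0 536870912 3) ndB2q2a ndB7q0 pcB3 Cut.none Ext.none)

def k0_mm_203_a : ∃ t, chk3 f_mm_203_a t 1 1 1 = true :=
  ⟨(l 4), by decide +kernel⟩

theorem c_mm_203_a : CertB 0 536870912 0 536870912 587336777 62277027 3 eng mog cd2q2a cd7q0 pd3 true false false .up 2 0 3
    ndB2q2a ndB7q0 pcB3 Cut.none Ext.none :=
  certB0 (fam := true) (s1 := false) (s2 := false) (a := 2) (b := 0) (c := 3) (cn := .up) (n1 := ndB2q2a) (n2 := ndB7q0) (pc := pcB3) (cut := Cut.none) (xt := Ext.none) (P1 := 0) (W1 := 536870912) (P2 := 0) (W2 := 536870912) (P3 := 587336777) (W3 := 62277027) (N0 := 3) (En := eng) (mo := mog) (C1 := cd2q2a) (C2 := cd7q0) (C3 := pd3)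
    rfl k0_mm_203_a

noncomputable def f_mm_203_b : ℕ → ℕ → ℕ → ℕ → Bool := onCell 1239849684 370763052 0 536870912 587336777 62277027
    (rowB 3 eng mog cd2q2b cd7q0 pd3 0 true false false .up 2 0 3 (qsf 1239849684 370763052 0 536870912 3) ndB2q2b ndB7q0 pcB3 Cut.none Ext.none)

def k0_mm_203_b : ∃ t, chk3 f_mm_203_b t 1 1 1 = true :=
  ⟨(l 4), by decide +kernel⟩

theorem c_mm_203_b : CertB 1239849684 370763052 0 536870912 587336777 62277027 3 eng mog cd2q2b cd7q0 pd3 true false false .up 2 0 3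
    ndB2q2b ndB7q0 pcB3 Cut.none Ext.none :=
  certB0 (fam := true) (s1 := false) (s2 := false) (a := 2) (b := 0) (c := 3) (cn := .up) (n1 := ndB2q2b) (n2 := ndB7q0) (pc := pcB3) (cut := Cut.none) (xt := Ext.none) (P1 := 1239849684) (W1 := 370763052) (P2 := 0) (W2 := 536870912) (P3 := 587336777) (W3 := 62277027) (N0 := 3) (En := eng) (mo := mog) (C1 := cd2q2b) (C2 := cd7q0) (C3 := pd3)
    rfl k0_mm_203_b

noncomputable def f_mm_213_a : ℕ → ℕ → ℕ → ℕ → Bool := onCell 0 536870912 536870912 536870912 587336777 62277027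
    (rowB 3 eng mog cd2q2a cd7q1 pd3 0 true false false .pnn 2 1 3 (qsf 0 536870912 536870912 536870912 3) ndB2q2a ndB7q1 pcB3 Cut.none Ext.none)

def k0_mm_213_a : ∃ t, chk3 f_mm_213_a t 1 1 1 = true :=
  ⟨(l 4), by decide +kernel⟩

theorem c_mm_213_a : CertB 0 536870912 536870912 536870912 587336777 62277027 3 eng mog cd2q2a cd7q1 pd3 true false false .pnn 2 1 3
    ndB2q2a ndB7q1 pcB3 Cut.none Ext.none :=
  certB0 (fam := true) (s1 := false) (s2 := false) (a := 2) (b := 1) (c := 3) (cn := .pnn) (n1 := ndB2q2a) (n2 := ndB7q1) (pc := pcB3) (cut := Cut.none) (xt := Ext.none) (P1 := 0) (W1 := 536870912) (P2 := 536870912) (W2 := 536870912) (P3 := 587336777) (W3 := 62277027) (N0 := 3) (En := eng) (mo := mog) (C1 := cd2q2a) (C2 := cd7q1) (C3 := pd3)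
    rfl k0_mm_213_a

noncomputable def f_mm_213_b : ℕ → ℕ → ℕ → ℕ → Bool := onCell 1239849684 370763052 536870912 536870912 587336777 62277027
    (rowB 3 eng mog cd2q2b cd7q1 pd3 0 true false false .pnn 2 1 3 (qsf 1239849684 370763052 536870912 536870912 3) ndB2q2b ndB7q1 pcB3 Cut.none Ext.none)

def k0_mm_213_b : ∃ t, chk3 f_mm_213_b t 1 1 1 = true :=
  ⟨(l 4), by decide +kernel⟩

theorem c_mm_213_b : CertB 1239849684 370763052 536870912 536870912 587336777 62277027 3 eng mog cd2q2b cd7q1 pd3 true false false .pnn 2 1 3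
    ndB2q2b ndB7q1 pcB3 Cut.none Ext.none :=
  certB0 (fam := true) (s1 := false) (s2 := false) (a := 2) (b := 1) (c := 3) (cn := .pnn) (n1 := ndB2q2b) (n2 := ndB7q1) (pc := pcB3) (cut := Cut.none) (xt := Ext.none) (P1 := 1239849684) (W1 := 370763052) (P2 := 536870912) (W2 := 536870912) (P3 := 587336777) (W3 := 62277027) (N0 := 3) (En := eng) (mo := mog) (C1 := cd2q2b) (C2 := cd7q1) (C3 := pd3)
    rfl k0_mm_213_b

noncomputable def f_mm_303 : ℕ → ℕ → ℕ → ℕ → Bool := onCell 1610612736 536870912 0 536870912 587336777 62277027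
    (rowB 3 eng mog cd2q3 cd7q0 pd3 0 true false false .npn 3 0 3 (qsf 1610612736 536870912 0 536870912 3) ndB2q3 ndB7q0 pcB3 Cut.none Ext.none)

def k0_mm_303 : ∃ t, chk3 f_mm_303 t 1 1 1 = true :=
  ⟨(l 4), by decide +kernel⟩

theorem c_mm_303 : CertB 1610612736 536870912 0 536870912 587336777 62277027 3 eng mog cd2q3 cd7q0 pd3 true false false .npn 3 0 3
    ndB2q3 ndB7q0 pcB3 Cut.none Ext.none :=
  certB0 (fam := true) (s1 := false) (s2 := false) (a := 3) (b := 0) (c := 3) (cn := .npn) (n1 := ndB2q3) (n2 := ndB7q0) (pc := pcB3) (cut := Cut.none) (xt := Ext.none) (P1 := 1610612736) (W1 := 536870912) (P2 := 0) (W2 := 536870912) (P3 := 587336777) (W3 := 62277027) (N0 := 3) (En := eng) (mo := mog) (C1 := cd2q3) (C2 := cd7q0) (C3 := pd3)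
    rfl k0_mm_303

noncomputable def f_mm_313 : ℕ → ℕ → ℕ → ℕ → Bool := onCell 1610612736 536870912 536870912 536870912 587336777 62277027
    (rowB 3 eng mog cd2q3 cd7q1 pd3 0 true false false .dn 3 1 3 (qsf 1610612736 536870912 536870912 536870912 3) ndB2q3 ndB7q1 pcB3 Cut.none Ext.none)

def k0_mm_313 : ∃ t, chk3 f_mm_313 t 1 1 1 = true :=
  ⟨(l 4), by decide +kernel⟩

theorem c_mm_313 : CertB 1610612736 536870912 536870912 536870912 587336777 62277027 3 eng mog cd2q3 cd7q1 pd3 true false false .dn 3 1 3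
    ndB2q3 ndB7q1 pcB3 Cut.none Ext.none :=
  certB0 (fam := true) (s1 := false) (s2 := false) (a := 3) (b := 1) (c := 3) (cn := .dn) (n1 := ndB2q3) (n2 := ndB7q1) (pc := pcB3) (cut := Cut.none) (xt := Ext.none) (P1 := 1610612736) (W1 := 536870912) (P2 := 536870912) (W2 := 536870912) (P3 := 587336777) (W3 := 62277027) (N0 := 3) (En := eng) (mo := mog) (C1 := cd2q3) (C2 := cd7q1) (C3 := pd3)
    rfl k0_mm_313

end Pool.Agent.Strip051.G.I5470_6050.Tab.C.BA27

namespace Pool.Agent.Strip051.G.I5470_6050.Tab.C.BA33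

open Pool.Agent.Strip051.PB Pool.Agent.Strip051.PB.T
open Pool.Agent.Strip051.G.I5470_6050.Tab

noncomputable def f_pp_001 : ℕ → ℕ → ℕ → ℕ → Bool := onCell 0 536870912 0 536870912 587336777 62277027
    (rowB 3 eng mog cd3q0 cd3q0 pd1 0 true true true .up 0 0 1 (qsf 0 536870912 0 536870912 1) ndB3q0 ndB3q0 pcB1 Cut.none Ext.none)

def k0_pp_001 : ∃ t, chk3 f_pp_001 t 1 1 1 = true :=
  ⟨(l 4), by decide +kernel⟩

theorem c_pp_001 : CertB 0 536870912 0 536870912 587336777 62277027 3 eng mog cd3q0 cd3q0 pd1 true true true .up 0 0 1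
    ndB3q0 ndB3q0 pcB1 Cut.none Ext.none :=
  certB0 (fam := true) (s1 := true) (s2 := true) (a := 0) (b := 0) (c := 1) (cn := .up) (n1 := ndB3q0) (n2 := ndB3q0) (pc := pcB1) (cut := Cut.none) (xt := Ext.none) (P1 := 0) (W1 := 536870912) (P2 := 0) (W2 := 536870912) (P3 := 587336777) (W3 := 62277027) (N0 := 3) (En := eng) (mo := mog) (C1 := cd3q0) (C2 := cd3q0) (C3 := pd1)
    rfl k0_pp_001

noncomputable def f_pp_011 : ℕ → ℕ → ℕ → ℕ → Bool := onCell 0 536870912 536870912 536870912 587336777 62277027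
    (rowB 3 eng mog cd3q0 cd3q1 pd1 0 true true true .pnn 0 1 1 (qsf 0 536870912 536870912 536870912 1) ndB3q0 ndB3q1 pcB1 Cut.none Ext.none)

def k0_pp_011 : ∃ t, chk3 f_pp_011 t 1 1 1 = true :=
  ⟨(l 4), by decide +kernel⟩

theorem c_pp_011 : CertB 0 536870912 536870912 536870912 587336777 62277027 3 eng mog cd3q0 cd3q1 pd1 true true true .pnn 0 1 1
    ndB3q0 ndB3q1 pcB1 Cut.none Ext.none :=
  certB0 (fam := true) (s1 := true) (s2 := true) (a := 0) (b := 1) (c := 1) (cn := .pnn) (n1 := ndB3q0) (n2 := ndB3q1) (pc := pcB1) (cut := Cut.none) (xt := Ext.none) (P1 := 0) (W1 := 536870912) (P2 := 536870912) (W2 := 536870912) (P3 := 587336777) (W3 := 62277027) (N0 := 3) (En := eng) (mo := mog) (C1 := cd3q0) (C2 := cd3q1) (C3 := pd1)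
    rfl k0_pp_011

noncomputable def f_pp_012 : ℕ → ℕ → ℕ → ℕ → Bool := onCell 0 536870912 536870912 536870912 587336777 62277027
    (rowB 3 eng mog cd3q0 cd3q1 pd2 0 true true true .pnp 0 1 2 (qsf 0 536870912 536870912 536870912 2) ndB3q0 ndB3q1 pcB2 Cut.none Ext.none)

def k0_pp_012 : ∃ t, chk3 f_pp_012 t 1 1 1 = true :=
  ⟨(l 4), by decide +kernel⟩

theorem c_pp_012 : CertB 0 536870912 536870912 536870912 587336777 62277027 3 eng mog cd3q0 cd3q1 pd2 true true true .pnp 0 1 2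
    ndB3q0 ndB3q1 pcB2 Cut.none Ext.none :=
  certB0 (fam := true) (s1 := true) (s2 := true) (a := 0) (b := 1) (c := 2) (cn := .pnp) (n1 := ndB3q0) (n2 := ndB3q1) (pc := pcB2) (cut := Cut.none) (xt := Ext.none) (P1 := 0) (W1 := 536870912) (P2 := 536870912) (W2 := 536870912) (P3 := 587336777) (W3 := 62277027) (N0 := 3) (En := eng) (mo := mog) (C1 := cd3q0) (C2 := cd3q1) (C3 := pd2)
    rfl k0_pp_012

noncomputable def cut_pp_022_a : Cut := Cut.of [[⟨0, 0, 0, 67108864⟩, ⟨1, 1, 0, 67108864⟩, ⟨2, 1, 0, 67108864⟩]]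

noncomputable def f_pp_022_a : ℕ → ℕ → ℕ → ℕ → Bool := onCell 0 536870912 0 536870912 587336777 62277027
    (rowB 3 eng mog cd3q0 cd3q2a pd2 0 true true true .pp 0 2 2 (qsf 0 536870912 0 536870912 2) ndB3q0 ndB3q2a pcB2 cut_pp_022_a Ext.none)

def k0_pp_022_a : ∃ t, chk3 f_pp_022_a t 1 1 1 = true :=
  ⟨(a (b (a (a (b (a (b (a (b (l 16457872) (l 16460448)) (l 16470224)) (a (b (l 16465312) (l 16472520)) (a (l 16540656) (l 16483808)))) (b (l 16487568) (a (l 16493104) (l 16505856)))) (a (a (b (b (l 16482144) (l 16494248)) (b (l 16508912) (l 16526224))) (b (b (l 16557272) (l 16527704)) (l 16530504))) (b (a (l 16597752) (l 16527520)) (a (b (l 16598256) (l 16595032)) (l 16558824))))) (b (a (c (l 16629488) (l 16619584)) (l 16545560)) (a (b (l 16569712) (l 16602112)) (b (l 16577008) (l 16610088))))) (a (b (a (l 16573624) (b (l 16597416) (l 4))) (l 4)) (b (l 4) (l 4)))) (a (b (a (a (a (b (b (l 16546240) (l 16569024)) (b (a (l 16589736) (l 16597752)) (a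 (l 16637960) (l 16625784)))) (b (b (l 16559312) (l 16582192)) (b (l 16607776) (l 16636056)))) (b (a (l 16585096) (b (l 16651344) (l 16653672))) (a (b (l 16622224) (l 16650888)) (b (l 16637816) (l 4))))) (a (b (b (l 16611408) (l 4)) (l 4)) (l 4))) (a (b (a (a (b (a (b (l 16639264) (l 16655168)) (l 16677616)) (a (b (a (l 6) (l 16653560)) (l 6)) (a (l 16704200) (l 16713280)))) (b (a (l 16663600) (l 16670752)) (a (b (l 16688528) (l 16706416)) (l 4)))) (a (b (l 16703696) (l 4)) (l 4))) (a (a (l 6) (l 4)) (l 4))) (l 4))) (l 4))) (l 4)), by decide +kernel⟩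

theorem c_pp_022_a : CertB 0 536870912 0 536870912 587336777 62277027 3 eng mog cd3q0 cd3q2a pd2 true true true .pp 0 2 2
    ndB3q0 ndB3q2a pcB2 cut_pp_022_a Ext.none :=
  certB0 (fam := true) (s1 := true) (s2 := true) (a := 0) (b := 2) (c := 2) (cn := .pp) (n1 := ndB3q0) (n2 := ndB3q2a) (pc := pcB2) (cut := cut_pp_022_a) (xt := Ext.none) (P1 := 0) (W1 := 536870912) (P2 := 0) (W2 := 536870912) (P3 := 587336777) (W3 := 62277027) (N0 := 3) (En := eng) (mo := mog) (C1 := cd3q0) (C2 := cd3q2a) (C3 := pd2)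
    rfl k0_pp_022_a

noncomputable def cut_pp_022_b : Cut := Cut.of [[⟨0, 0, 0, 67108864⟩, ⟨1, 1, 0, 67108864⟩, ⟨2, 1, 0, 67108864⟩]]

noncomputable def f_pp_022_b : ℕ → ℕ → ℕ → ℕ → Bool := onCell 0 536870912 1073741824 536870912 587336777 62277027
    (rowB 3 eng mog cd3q0 cd3q2b pd2 1 true true true .pp 0 2 2 (qsf 0 536870912 1239849684 370763052 2) ndB3q0 ndB3q2b pcB2 cut_pp_022_b Ext.none)

def k0_pp_022_b : ∃ t, chk3 f_pp_022_b t 1 1 1 = true :=
  ⟨(b (a (b (l 1) (a (b (a (b (a (b (l 1) (a (b (l 1) (l 16477608)) (l 1))) (l 1)) (a (b (a (b (l 16461976) (l 16446496)) (l 184179799159)) (a (l 16423280) (l 16464744))) (b (l 1) (l 206191525223)))) (l 1)) (a (a (b (b (l 16381336) (l 16359904)) (l 16331616)) (b (b (l 16496712) (l 16465952)) (l 16418496))) (a (b (l 311418256727) (l 16630776)) (b (l 1) (l 333966877959))))) (l 1))) (l 1)) (b (a (a (b (a (a (l 16316200) (l 16359152)) (b (l 16475256) (l 16419040))) (a (b (l 16276616) (l 16152352)) (b (l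 16347032) (l 16303056)))) (b (a (b (a (l 16596192) (l 1)) (a (l 16556896) (l 16648752))) (l 1)) (a (b (l 16540864) (l 16467560)) (b (l 308197081799) (l 4))))) (l 1)) (a (b (a (a (b (l 16117968) (l 16088840)) (b (l 16265704) (l 16236616))) (l 4)) (a (a (b (l 16068016) (l 16057472)) (l 4)) (l 4))) (l 4)))), by decide +kernel⟩

theorem c_pp_022_b : CertB 0 536870912 1239849684 370763052 587336777 62277027 3 eng mog cd3q0 cd3q2b pd2 true true true .pp 0 2 2
    ndB3q0 ndB3q2b pcB2 cut_pp_022_b Ext.none :=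
  certB1 (fam := true) (s1 := true) (s2 := true) (a := 0) (b := 2) (c := 2) (cn := .pp) (n1 := ndB3q0) (n2 := ndB3q2b) (pc := pcB2) (cut := cut_pp_022_b) (xt := Ext.none) (P1 := 0) (W1 := 536870912) (P2 := 1239849684) (W2 := 370763052) (P3 := 587336777) (W3 := 62277027) (N0 := 3) (En := eng) (mo := mog) (C1 := cd3q0) (C2 := cd3q2b) (C3 := pd2)
    rfl (fun _ => rfl) k0_pp_022_b

noncomputable def f_pp_023_a : ℕ → ℕ → ℕ → ℕ → Bool := onCell 1610612736 536870912 0 536870912 587336777 62277027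
    (rowB 3 eng mog cd3q0 cd3q2a pd3 2 true true true .up 0 2 3 (qsf 0 536870912 0 536870912 3) ndB3q0 ndB3q2a pcB3 Cut.none Ext.none)

def k0_pp_023_a : ∃ t, chk3 f_pp_023_a t 1 1 1 = true :=
  ⟨(l 4), by decide +kernel⟩

theorem c_pp_023_a : CertB 0 536870912 0 536870912 587336777 62277027 3 eng mog cd3q0 cd3q2a pd3 true true true .up 0 2 3
    ndB3q0 ndB3q2a pcB3 Cut.none Ext.none :=
  certB2 (fam := true) (s1 := true) (s2 := true) (a := 0) (b := 2) (c := 3) (cn := .up) (n1 := ndB3q0) (n2 := ndB3q2a) (pc := pcB3) (cut := Cut.none) (xt := Ext.none) (P1 := 0) (W1 := 536870912) (P2 := 0) (W2 := 536870912) (P3 := 587336777) (W3 := 62277027) (N0 := 3) (En := eng) (mo := mog) (C1 := cd3q0) (C2 := cd3q2a) (C3 := pd3)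
    rfl (fun _ => rfl) k0_pp_023_a

noncomputable def f_pp_023_b : ℕ → ℕ → ℕ → ℕ → Bool := onCell 1610612736 536870912 1239849684 370763052 587336777 62277027
    (rowB 3 eng mog cd3q0 cd3q2b pd3 2 true true true .up 0 2 3 (qsf 0 536870912 1239849684 370763052 3) ndB3q0 ndB3q2b pcB3 Cut.none Ext.none)

def k0_pp_023_b : ∃ t, chk3 f_pp_023_b t 1 1 1 = true :=
  ⟨(a (a (l 4) (l 4)) (l 4)), by decide +kernel⟩

theorem c_pp_023_b : CertB 0 536870912 1239849684 370763052 587336777 62277027 3 eng mog cd3q0 cd3q2b pd3 true true true .up 0 2 3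
    ndB3q0 ndB3q2b pcB3 Cut.none Ext.none :=
  certB2 (fam := true) (s1 := true) (s2 := true) (a := 0) (b := 2) (c := 3) (cn := .up) (n1 := ndB3q0) (n2 := ndB3q2b) (pc := pcB3) (cut := Cut.none) (xt := Ext.none) (P1 := 0) (W1 := 536870912) (P2 := 1239849684) (W2 := 370763052) (P3 := 587336777) (W3 := 62277027) (N0 := 3) (En := eng) (mo := mog) (C1 := cd3q0) (C2 := cd3q2b) (C3 := pd3)
    rfl (fun _ => rfl) k0_pp_023_b

noncomputable def f_pp_033 : ℕ → ℕ → ℕ → ℕ → Bool := onCell 0 536870912 1610612736 536870912 587336777 62277027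
    (rowB 3 eng mog cd3q0 cd3q3 pd3 0 true true true .pnn 0 3 3 (qsf 0 536870912 1610612736 536870912 3) ndB3q0 ndB3q3 pcB3 Cut.none Ext.none)

def k0_pp_033 : ∃ t, chk3 f_pp_033 t 1 1 1 = true :=
  ⟨(a (b (a (l 4) (l 4)) (l 4)) (l 4)), by decide +kernel⟩

theorem c_pp_033 : CertB 0 536870912 1610612736 536870912 587336777 62277027 3 eng mog cd3q0 cd3q3 pd3 true true true .pnn 0 3 3
    ndB3q0 ndB3q3 pcB3 Cut.none Ext.none :=
  certB0 (fam := true) (s1 := true) (s2 := true) (a := 0) (b := 3) (c := 3) (cn := .pnn) (n1 := ndB3q0) (n2 := ndB3q3) (pc := pcB3) (cut := Cut.none) (xt := Ext.none) (P1 := 0) (W1 := 536870912) (P2 := 1610612736) (W2 := 536870912) (P3 := 587336777) (W3 := 62277027) (N0 := 3) (En := eng) (mo := mog) (C1 := cd3q0) (C2 := cd3q3) (C3 := pd3)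
    rfl k0_pp_033

noncomputable def f_pp_101 : ℕ → ℕ → ℕ → ℕ → Bool := onCell 536870912 536870912 0 536870912 587336777 62277027
    (rowB 3 eng mog cd3q1 cd3q0 pd1 0 true true true .npn 1 0 1 (qsf 536870912 536870912 0 536870912 1) ndB3q1 ndB3q0 pcB1 Cut.none Ext.none)

def k0_pp_101 : ∃ t, chk3 f_pp_101 t 1 1 1 = true :=
  ⟨(l 4), by decide +kernel⟩

theorem c_pp_101 : CertB 536870912 536870912 0 536870912 587336777 62277027 3 eng mog cd3q1 cd3q0 pd1 true true true .npn 1 0 1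
    ndB3q1 ndB3q0 pcB1 Cut.none Ext.none :=
  certB0 (fam := true) (s1 := true) (s2 := true) (a := 1) (b := 0) (c := 1) (cn := .npn) (n1 := ndB3q1) (n2 := ndB3q0) (pc := pcB1) (cut := Cut.none) (xt := Ext.none) (P1 := 536870912) (W1 := 536870912) (P2 := 0) (W2 := 536870912) (P3 := 587336777) (W3 := 62277027) (N0 := 3) (En := eng) (mo := mog) (C1 := cd3q1) (C2 := cd3q0) (C3 := pd1)
    rfl k0_pp_101

noncomputable def f_pp_102 : ℕ → ℕ → ℕ → ℕ → Bool := onCell 536870912 536870912 0 536870912 587336777 62277027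
    (rowB 3 eng mog cd3q1 cd3q0 pd2 0 true true true .npp 1 0 2 (qsf 536870912 536870912 0 536870912 2) ndB3q1 ndB3q0 pcB2 Cut.none Ext.none)

def k0_pp_102 : ∃ t, chk3 f_pp_102 t 1 1 1 = true :=
  ⟨(l 4), by decide +kernel⟩

theorem c_pp_102 : CertB 536870912 536870912 0 536870912 587336777 62277027 3 eng mog cd3q1 cd3q0 pd2 true true true .npp 1 0 2
    ndB3q1 ndB3q0 pcB2 Cut.none Ext.none :=
  certB0 (fam := true) (s1 := true) (s2 := true) (a := 1) (b := 0) (c := 2) (cn := .npp) (n1 := ndB3q1) (n2 := ndB3q0) (pc := pcB2) (cut := Cut.none) (xt := Ext.none) (P1 := 536870912) (W1 := 536870912) (P2 := 0) (W2 := 536870912) (P3 := 587336777) (W3 := 62277027) (N0 := 3) (En := eng) (mo := mog) (C1 := cd3q1) (C2 := cd3q0) (C3 := pd2)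
    rfl k0_pp_102

noncomputable def f_pp_112 : ℕ → ℕ → ℕ → ℕ → Bool := onCell 536870912 536870912 536870912 536870912 587336777 62277027
    (rowB 3 eng mog cd3q1 cd3q1 pd2 0 true true true .dn 1 1 2 (qsf 536870912 536870912 536870912 536870912 2) ndB3q1 ndB3q1 pcB2 Cut.none Ext.none)

def k0_pp_112 : ∃ t, chk3 f_pp_112 t 1 1 1 = true :=
  ⟨(l 4), by decide +kernel⟩

theorem c_pp_112 : CertB 536870912 536870912 536870912 536870912 587336777 62277027 3 eng mog cd3q1 cd3q1 pd2 true true true .dn 1 1 2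
    ndB3q1 ndB3q1 pcB2 Cut.none Ext.none :=
  certB0 (fam := true) (s1 := true) (s2 := true) (a := 1) (b := 1) (c := 2) (cn := .dn) (n1 := ndB3q1) (n2 := ndB3q1) (pc := pcB2) (cut := Cut.none) (xt := Ext.none) (P1 := 536870912) (W1 := 536870912) (P2 := 536870912) (W2 := 536870912) (P3 := 587336777) (W3 := 62277027) (N0 := 3) (En := eng) (mo := mog) (C1 := cd3q1) (C2 := cd3q1) (C3 := pd2)
    rfl k0_pp_112

noncomputable def f_pp_113 : ℕ → ℕ → ℕ → ℕ → Bool := onCell 536870912 536870912 536870912 536870912 587336777 62277027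
    (rowB 3 eng mog cd3q1 cd3q1 pd3 0 true true true .nn 1 1 3 (qsf 536870912 536870912 536870912 536870912 3) ndB3q1 ndB3q1 pcB3 Cut.none Ext.none)

def k0_pp_113 : ∃ t, chk3 f_pp_113 t 1 1 1 = true :=
  ⟨(l 4), by decide +kernel⟩

theorem c_pp_113 : CertB 536870912 536870912 536870912 536870912 587336777 62277027 3 eng mog cd3q1 cd3q1 pd3 true true true .nn 1 1 3
    ndB3q1 ndB3q1 pcB3 Cut.none Ext.none :=
  certB0 (fam := true) (s1 := true) (s2 := true) (a := 1) (b := 1) (c := 3) (cn := .nn) (n1 := ndB3q1) (n2 := ndB3q1) (pc := pcB3) (cut := Cut.none) (xt := Ext.none) (P1 := 536870912) (W1 := 536870912) (P2 := 536870912) (W2 := 536870912) (P3 := 587336777) (W3 := 62277027) (N0 := 3) (En := eng) (mo := mog) (C1 := cd3q1) (C2 := cd3q1) (C3 := pd3)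
    rfl k0_pp_113

noncomputable def f_pp_123_a : ℕ → ℕ → ℕ → ℕ → Bool := onCell 536870912 536870912 0 536870912 587336777 62277027
    (rowB 3 eng mog cd3q1 cd3q2a pd3 0 true true true .npn 1 2 3 (qsf 536870912 536870912 0 536870912 3) ndB3q1 ndB3q2a pcB3 Cut.none Ext.none)

def k0_pp_123_a : ∃ t, chk3 f_pp_123_a t 1 1 1 = true :=
  ⟨(l 4), by decide +kernel⟩

theorem c_pp_123_a : CertB 536870912 536870912 0 536870912 587336777 62277027 3 eng mog cd3q1 cd3q2a pd3 true true true .npn 1 2 3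
    ndB3q1 ndB3q2a pcB3 Cut.none Ext.none :=
  certB0 (fam := true) (s1 := true) (s2 := true) (a := 1) (b := 2) (c := 3) (cn := .npn) (n1 := ndB3q1) (n2 := ndB3q2a) (pc := pcB3) (cut := Cut.none) (xt := Ext.none) (P1 := 536870912) (W1 := 536870912) (P2 := 0) (W2 := 536870912) (P3 := 587336777) (W3 := 62277027) (N0 := 3) (En := eng) (mo := mog) (C1 := cd3q1) (C2 := cd3q2a) (C3 := pd3)
    rfl k0_pp_123_a

noncomputable def f_pp_123_b : ℕ → ℕ → ℕ → ℕ → Bool := onCell 536870912 536870912 1239849684 370763052 587336777 62277027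
    (rowB 3 eng mog cd3q1 cd3q2b pd3 0 true true true .npn 1 2 3 (qsf 536870912 536870912 1239849684 370763052 3) ndB3q1 ndB3q2b pcB3 Cut.none Ext.none)

def k0_pp_123_b : ∃ t, chk3 f_pp_123_b t 1 1 1 = true :=
  ⟨(l 4), by decide +kernel⟩

theorem c_pp_123_b : CertB 536870912 536870912 1239849684 370763052 587336777 62277027 3 eng mog cd3q1 cd3q2b pd3 true true true .npn 1 2 3
    ndB3q1 ndB3q2b pcB3 Cut.none Ext.none :=
  certB0 (fam := true) (s1 := true) (s2 := true) (a := 1) (b := 2) (c := 3) (cn := .npn) (n1 := ndB3q1) (n2 := ndB3q2b) (pc := pcB3) (cut := Cut.none) (xt := Ext.none) (P1 := 536870912) (W1 := 536870912) (P2 := 1239849684) (W2 := 370763052) (P3 := 587336777) (W3 := 62277027) (N0 := 3) (En := eng) (mo := mog) (C1 := cd3q1) (C2 := cd3q2b) (C3 := pd3)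
    rfl k0_pp_123_b

noncomputable def f_pp_133 : ℕ → ℕ → ℕ → ℕ → Bool := onCell 536870912 536870912 1610612736 536870912 587336777 62277027
    (rowB 3 eng mog cd3q1 cd3q3 pd3 0 true true true .dn 1 3 3 (qsf 536870912 536870912 1610612736 536870912 3) ndB3q1 ndB3q3 pcB3 Cut.none Ext.none)

def k0_pp_133 : ∃ t, chk3 f_pp_133 t 1 1 1 = true :=
  ⟨(l 4), by decide +kernel⟩

theorem c_pp_133 : CertB 536870912 536870912 1610612736 536870912 587336777 62277027 3 eng mog cd3q1 cd3q3 pd3 true true true .dn 1 3 3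
    ndB3q1 ndB3q3 pcB3 Cut.none Ext.none :=
  certB0 (fam := true) (s1 := true) (s2 := true) (a := 1) (b := 3) (c := 3) (cn := .dn) (n1 := ndB3q1) (n2 := ndB3q3) (pc := pcB3) (cut := Cut.none) (xt := Ext.none) (P1 := 536870912) (W1 := 536870912) (P2 := 1610612736) (W2 := 536870912) (P3 := 587336777) (W3 := 62277027) (N0 := 3) (En := eng) (mo := mog) (C1 := cd3q1) (C2 := cd3q3) (C3 := pd3)
    rfl k0_pp_133

noncomputable def f_pp_202_a : ℕ → ℕ → ℕ → ℕ → Bool := onCell 0 536870912 0 536870912 587336777 62277027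
    (rowB 3 eng mog cd3q2a cd3q0 pd2 0 true true true .pp 2 0 2 (qsf 0 536870912 0 536870912 2) ndB3q2a ndB3q0 pcB2 Cut.none Ext.none)

def k0_pp_202_a : ∃ t, chk3 f_pp_202_a t 1 1 1 = true :=
  ⟨(l 5), by decide +kernel⟩

theorem c_pp_202_a : CertB 0 536870912 0 536870912 587336777 62277027 3 eng mog cd3q2a cd3q0 pd2 true true true .pp 2 0 2
    ndB3q2a ndB3q0 pcB2 Cut.none Ext.none :=
  certB0 (fam := true) (s1 := true) (s2 := true) (a := 2) (b := 0) (c := 2) (cn := .pp) (n1 := ndB3q2a) (n2 := ndB3q0) (pc := pcB2) (cut := Cut.none) (xt := Ext.none) (P1 := 0) (W1 := 536870912) (P2 := 0) (W2 := 536870912) (P3 := 587336777) (W3 := 62277027) (N0 := 3) (En := eng) (mo := mog) (C1 := cd3q2a) (C2 := cd3q0) (C3 := pd2)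
    rfl k0_pp_202_a

noncomputable def f_pp_202_b : ℕ → ℕ → ℕ → ℕ → Bool := onCell 1239849684 370763052 0 536870912 587336777 62277027
    (rowB 3 eng mog cd3q2b cd3q0 pd2 0 true true true .pp 2 0 2 (qsf 1239849684 370763052 0 536870912 2) ndB3q2b ndB3q0 pcB2 Cut.none Ext.none)

def k0_pp_202_b : ∃ t, chk3 f_pp_202_b t 1 1 1 = true :=
  ⟨(l 5), by decide +kernel⟩

theorem c_pp_202_b : CertB 1239849684 370763052 0 536870912 587336777 62277027 3 eng mog cd3q2b cd3q0 pd2 true true true .pp 2 0 2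
    ndB3q2b ndB3q0 pcB2 Cut.none Ext.none :=
  certB0 (fam := true) (s1 := true) (s2 := true) (a := 2) (b := 0) (c := 2) (cn := .pp) (n1 := ndB3q2b) (n2 := ndB3q0) (pc := pcB2) (cut := Cut.none) (xt := Ext.none) (P1 := 1239849684) (W1 := 370763052) (P2 := 0) (W2 := 536870912) (P3 := 587336777) (W3 := 62277027) (N0 := 3) (En := eng) (mo := mog) (C1 := cd3q2b) (C2 := cd3q0) (C3 := pd2)
    rfl k0_pp_202_b

noncomputable def f_pp_203_a : ℕ → ℕ → ℕ → ℕ → Bool := onCell 0 536870912 0 536870912 587336777 62277027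
    (rowB 3 eng mog cd3q2a cd3q0 pd3 0 true true true .up 2 0 3 (qsf 0 536870912 0 536870912 3) ndB3q2a ndB3q0 pcB3 Cut.none Ext.none)

def k0_pp_203_a : ∃ t, chk3 f_pp_203_a t 1 1 1 = true :=
  ⟨(l 5), by decide +kernel⟩

theorem c_pp_203_a : CertB 0 536870912 0 536870912 587336777 62277027 3 eng mog cd3q2a cd3q0 pd3 true true true .up 2 0 3
    ndB3q2a ndB3q0 pcB3 Cut.none Ext.none :=
  certB0 (fam := true) (s1 := true) (s2 := true) (a := 2) (b := 0) (c := 3) (cn := .up) (n1 := ndB3q2a) (n2 := ndB3q0) (pc := pcB3) (cut := Cut.none) (xt := Ext.none) (P1 := 0) (W1 := 536870912) (P2 := 0) (W2 := 536870912) (P3 := 587336777) (W3 := 62277027) (N0 := 3) (En := eng) (mo := mog) (C1 := cd3q2a) (C2 := cd3q0) (C3 := pd3)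
    rfl k0_pp_203_a

noncomputable def f_pp_203_b : ℕ → ℕ → ℕ → ℕ → Bool := onCell 1239849684 370763052 0 536870912 587336777 62277027
    (rowB 3 eng mog cd3q2b cd3q0 pd3 0 true true true .up 2 0 3 (qsf 1239849684 370763052 0 536870912 3) ndB3q2b ndB3q0 pcB3 Cut.none Ext.none)

def k0_pp_203_b : ∃ t, chk3 f_pp_203_b t 1 1 1 = true :=
  ⟨(l 5), by decide +kernel⟩

theorem c_pp_203_b : CertB 1239849684 370763052 0 536870912 587336777 62277027 3 eng mog cd3q2b cd3q0 pd3 true true true .up 2 0 3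
    ndB3q2b ndB3q0 pcB3 Cut.none Ext.none :=
  certB0 (fam := true) (s1 := true) (s2 := true) (a := 2) (b := 0) (c := 3) (cn := .up) (n1 := ndB3q2b) (n2 := ndB3q0) (pc := pcB3) (cut := Cut.none) (xt := Ext.none) (P1 := 1239849684) (W1 := 370763052) (P2 := 0) (W2 := 536870912) (P3 := 587336777) (W3 := 62277027) (N0 := 3) (En := eng) (mo := mog) (C1 := cd3q2b) (C2 := cd3q0) (C3 := pd3)
    rfl k0_pp_203_b

noncomputable def f_pp_213_a : ℕ → ℕ → ℕ → ℕ → Bool := onCell 0 536870912 536870912 536870912 587336777 62277027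
    (rowB 3 eng mog cd3q2a cd3q1 pd3 0 true true true .pnn 2 1 3 (qsf 0 536870912 536870912 536870912 3) ndB3q2a ndB3q1 pcB3 Cut.none Ext.none)

def k0_pp_213_a : ∃ t, chk3 f_pp_213_a t 1 1 1 = true :=
  ⟨(l 4), by decide +kernel⟩

theorem c_pp_213_a : CertB 0 536870912 536870912 536870912 587336777 62277027 3 eng mog cd3q2a cd3q1 pd3 true true true .pnn 2 1 3
    ndB3q2a ndB3q1 pcB3 Cut.none Ext.none :=
  certB0 (fam := true) (s1 := true) (s2 := true) (a := 2) (b := 1) (c := 3) (cn := .pnn) (n1 := ndB3q2a) (n2 := ndB3q1) (pc := pcB3) (cut := Cut.none) (xt := Ext.none) (P1 := 0) (W1 := 536870912) (P2 := 536870912) (W2 := 536870912) (P3 := 587336777) (W3 := 62277027) (N0 := 3) (En := eng) (mo := mog) (C1 := cd3q2a) (C2 := cd3q1) (C3 := pd3)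
    rfl k0_pp_213_a

noncomputable def f_pp_213_b : ℕ → ℕ → ℕ → ℕ → Bool := onCell 1239849684 370763052 536870912 536870912 587336777 62277027
    (rowB 3 eng mog cd3q2b cd3q1 pd3 0 true true true .pnn 2 1 3 (qsf 1239849684 370763052 536870912 536870912 3) ndB3q2b ndB3q1 pcB3 Cut.none Ext.none)

def k0_pp_213_b : ∃ t, chk3 f_pp_213_b t 1 1 1 = true :=
  ⟨(l 4), by decide +kernel⟩

theorem c_pp_213_b : CertB 1239849684 370763052 536870912 536870912 587336777 62277027 3 eng mog cd3q2b cd3q1 pd3 true true true .pnn 2 1 3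
    ndB3q2b ndB3q1 pcB3 Cut.none Ext.none :=
  certB0 (fam := true) (s1 := true) (s2 := true) (a := 2) (b := 1) (c := 3) (cn := .pnn) (n1 := ndB3q2b) (n2 := ndB3q1) (pc := pcB3) (cut := Cut.none) (xt := Ext.none) (P1 := 1239849684) (W1 := 370763052) (P2 := 536870912) (W2 := 536870912) (P3 := 587336777) (W3 := 62277027) (N0 := 3) (En := eng) (mo := mog) (C1 := cd3q2b) (C2 := cd3q1) (C3 := pd3)
    rfl k0_pp_213_b

noncomputable def f_pp_303 : ℕ → ℕ → ℕ → ℕ → Bool := onCell 1610612736 536870912 0 536870912 587336777 62277027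
    (rowB 3 eng mog cd3q3 cd3q0 pd3 0 true true true .npn 3 0 3 (qsf 1610612736 536870912 0 536870912 3) ndB3q3 ndB3q0 pcB3 Cut.none Ext.none)

def k0_pp_303 : ∃ t, chk3 f_pp_303 t 1 1 1 = true :=
  ⟨(l 5), by decide +kernel⟩

theorem c_pp_303 : CertB 1610612736 536870912 0 536870912 587336777 62277027 3 eng mog cd3q3 cd3q0 pd3 true true true .npn 3 0 3
    ndB3q3 ndB3q0 pcB3 Cut.none Ext.none :=
  certB0 (fam := true) (s1 := true) (s2 := true) (a := 3) (b := 0) (c := 3) (cn := .npn) (n1 := ndB3q3) (n2 := ndB3q0) (pc := pcB3) (cut := Cut.none) (xt := Ext.none) (P1 := 1610612736) (W1 := 536870912) (P2 := 0) (W2 := 536870912) (P3 := 587336777) (W3 := 62277027) (N0 := 3) (En := eng) (mo := mog) (C1 := cd3q3) (C2 := cd3q0) (C3 := pd3)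
    rfl k0_pp_303

noncomputable def f_pp_313 : ℕ → ℕ → ℕ → ℕ → Bool := onCell 1610612736 536870912 536870912 536870912 587336777 62277027
    (rowB 3 eng mog cd3q3 cd3q1 pd3 0 true true true .dn 3 1 3 (qsf 1610612736 536870912 536870912 536870912 3) ndB3q3 ndB3q1 pcB3 Cut.none Ext.none)

def k0_pp_313 : ∃ t, chk3 f_pp_313 t 1 1 1 = true :=
  ⟨(l 4), by decide +kernel⟩

theorem c_pp_313 : CertB 1610612736 536870912 536870912 536870912 587336777 62277027 3 eng mog cd3q3 cd3q1 pd3 true true true .dn 3 1 3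
    ndB3q3 ndB3q1 pcB3 Cut.none Ext.none :=
  certB0 (fam := true) (s1 := true) (s2 := true) (a := 3) (b := 1) (c := 3) (cn := .dn) (n1 := ndB3q3) (n2 := ndB3q1) (pc := pcB3) (cut := Cut.none) (xt := Ext.none) (P1 := 1610612736) (W1 := 536870912) (P2 := 536870912) (W2 := 536870912) (P3 := 587336777) (W3 := 62277027) (N0 := 3) (En := eng) (mo := mog) (C1 := cd3q3) (C2 := cd3q1) (C3 := pd3)
    rfl k0_pp_313

noncomputable def f_pm_001 : ℕ → ℕ → ℕ → ℕ → Bool := onCell 0 536870912 0 536870912 587336777 62277027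
    (rowB 3 eng mog cd3q0 cd3q0 pd1 0 true true false .up 0 0 1 (qsf 0 536870912 0 536870912 1) ndB3q0 ndB3q0 pcB1 Cut.none Ext.none)

def k0_pm_001 : ∃ t, chk3 f_pm_001 t 1 1 1 = true :=
  ⟨(l 3), by decide +kernel⟩

theorem c_pm_001 : CertB 0 536870912 0 536870912 587336777 62277027 3 eng mog cd3q0 cd3q0 pd1 true true false .up 0 0 1
    ndB3q0 ndB3q0 pcB1 Cut.none Ext.none :=
  certB0 (fam := true) (s1 := true) (s2 := false) (a := 0) (b := 0) (c := 1) (cn := .up) (n1 := ndB3q0) (n2 := ndB3q0) (pc := pcB1) (cut := Cut.none) (xt := Ext.none) (P1 := 0) (W1 := 536870912) (P2 := 0) (W2 := 536870912) (P3 := 587336777) (W3 := 62277027) (N0 := 3) (En := eng) (mo := mog) (C1 := cd3q0) (C2 := cd3q0) (C3 := pd1)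
    rfl k0_pm_001

noncomputable def f_pm_011 : ℕ → ℕ → ℕ → ℕ → Bool := onCell 0 536870912 536870912 536870912 587336777 62277027
    (rowB 3 eng mog cd3q0 cd3q1 pd1 1 true true false .pnn 0 1 1 (qsf 0 536870912 536870912 536870912 1) ndB3q0 ndB3q1 pcB1 Cut.none Ext.none)

def k0_pm_011 : ∃ t, chk3 f_pm_011 t 1 1 1 = true :=
  ⟨(l 3), by decide +kernel⟩

theorem c_pm_011 : CertB 0 536870912 536870912 536870912 587336777 62277027 3 eng mog cd3q0 cd3q1 pd1 true true false .pnn 0 1 1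
    ndB3q0 ndB3q1 pcB1 Cut.none Ext.none :=
  certB1 (fam := true) (s1 := true) (s2 := false) (a := 0) (b := 1) (c := 1) (cn := .pnn) (n1 := ndB3q0) (n2 := ndB3q1) (pc := pcB1) (cut := Cut.none) (xt := Ext.none) (P1 := 0) (W1 := 536870912) (P2 := 536870912) (W2 := 536870912) (P3 := 587336777) (W3 := 62277027) (N0 := 3) (En := eng) (mo := mog) (C1 := cd3q0) (C2 := cd3q1) (C3 := pd1)
    rfl (fun _ => rfl) k0_pm_011

noncomputable def f_pm_012 : ℕ → ℕ → ℕ → ℕ → Bool := onCell 1073741824 536870912 536870912 536870912 587336777 62277027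
    (rowB 3 eng mog cd3q0 cd3q1 pd2 2 true true false .pnp 0 1 2 (qsf 0 536870912 536870912 536870912 2) ndB3q0 ndB3q1 pcB2 Cut.none Ext.none)

def k0_pm_012 : ∃ t, chk3 f_pm_012 t 1 1 1 = true :=
  ⟨(a (a (l 3) (a (a (a (b (l 3) (b (l 3) (l 3))) (b (a (l 3) (b (l 2) (a (l 3) (a (l 91436014759) (l 16686664))))) (a (b (l 3) (b (a (l 3) (l 16589200)) (b (a (l 3) (l 16560888)) (a (l 16549896) (l 16544256))))) (b (a (b (l 16655048) (a (l 16623808) (l 16622568))) (b (a (l 16653688) (l 16652272)) (a (b (l 16629672) (l 16611920)) (l 16618776)))) (a (b (a (l 16586384) (l 16584656)) (b (l 16556208) (l 16559712))) (b (a (b (l 16592496) (l 16572240)) (l 16579896)) (a (b (l 16552416) (l 16534512)) (b (l 16549440) (c (l 16557400) (l 16569184)))))))))) (b (b (l 2) (l 16682216)) (b (b (l 16643160) (l 16606312)) (b (l 16563176) (b (l 16529240) (l 16508744)))))) (b (b (l 2) (l 16676056)) (b (b (l 16626336) (l 16580320)) (b (l 16547128) (b (l 16482144) (l 16454328)))))))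 (b (a (b (l 2) (a (l 16684288) (l 2))) (l 2)) (a (b (b (l 16629136) (l 16567160)) (b (a (l 16497696) (l 16494096)) (a (l 16422352) (l 16402488)))) (b (b (l 2) (l 16635480)) (b (l 16537904) (l 16424040)))))), by decide +kernel⟩

theorem c_pm_012 : CertB 0 536870912 536870912 536870912 587336777 62277027 3 eng mog cd3q0 cd3q1 pd2 true true false .pnp 0 1 2
    ndB3q0 ndB3q1 pcB2 Cut.none Ext.none :=
  certB2 (fam := true) (s1 := true) (s2 := false) (a := 0) (b := 1) (c := 2) (cn := .pnp) (n1 := ndB3q0) (n2 := ndB3q1) (pc := pcB2) (cut := Cut.none) (xt := Ext.none) (P1 := 0) (W1 := 536870912) (P2 := 536870912) (W2 := 536870912) (P3 := 587336777) (W3 := 62277027) (N0 := 3) (En := eng) (mo := mog) (C1 := cd3q0) (C2 := cd3q1) (C3 := pd2)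
    rfl (fun _ => rfl) k0_pm_012

noncomputable def cut_pm_022_a : Cut := Cut.of [[⟨0, 0, 0, 67108864⟩, ⟨1, 1, 0, 67108864⟩, ⟨2, 1, 0, 67108864⟩]]

noncomputable def f_pm_022_a : ℕ → ℕ → ℕ → ℕ → Bool := onCell 1073741824 536870912 0 536870912 587336777 62277027
    (rowB 3 eng mog cd3q0 cd3q2a pd2 2 true true false .pp 0 2 2 (qsf 0 536870912 0 536870912 2) ndB3q0 ndB3q2a pcB2 cut_pm_022_a Ext.none)

def k0_pm_022_a : ∃ t, chk3 f_pm_022_a t 2 2 1 = true :=
  ⟨(a (a (l 1) (a (l 1) (b (l 1) (b (l 1) (a (l 1) (b (l 1) (a (l 1) (l 279742769655)))))))) (a (a (a (b (l 1) (b (a (l 1) (b (l 220150017591) (l 289943261895))) (b (a (l 278132126663) (l 16498464)) (a (l 342556675111) (l 16512704))))) (b (a (b (l 1) (b (l 1) (l 16466120))) (a (b (l 1) (l 144988084919)) (b (b (l 16453704) (a (l 16455872) (l 16456200))) (a (l 16463944) (l 16464144))))) (a (b (b (l 234645542327) (l 16485808)) (b (l 16498056) (l 16511600))) (b (a (l 16480808) (a (l 16480816) (l 16480792)))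 (a (l 16504336) (a (l 16503880) (l 16524536))))))) (b (a (b (a (l 16456040) (l 16457088)) (a (l 16464544) (l 16464832))) (b (l 16458960) (l 16465448))) (b (a (b (l 16475488) (l 16484920)) (l 16479280)) (a (b (l 16495664) (l 16507472)) (l 16498248))))) (b (a (b (l 16463400) (l 16467376)) (b (l 16469568) (l 16470152))) (b (a (l 16477688) (l 16475640)) (l 16612040))))), by decide +kernel⟩

def k1_pm_022_a : ∃ t, chk3 f_pm_022_a t 4 3 1 = true :=
  ⟨(a (b (l 1) (b (a (l 1) (b (a (l 1) (a (l 1) (b (l 1) (a (b (l 1) (l 6)) (b (l 258268206775) (l 16645864)))))) (a (l 6) (a (l 6) (a (l 6) (b (l 16655880) (l 16669184))))))) (a (l 6) (a (l 6) (a (l 6) (a (l 6) (b (l 16685584) (l 16696648)))))))) (b (a (b (l 1) (a (b (l 1) (a (l 1) (b (l 207265369591) (a (l 250751962055) (l 273300534199))))) (b (a (b (l 1) (l 221760855799)) (b (l 234108844551) (l 272226707559))) (a (b (l 245920078135) (l 16608368)) (b (l 16593896) (l 16605320)))))) (b (a (b (a (l 1) (l 213707688535))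 (a (b (l 1) (l 260952367943)) (b (l 289943373479) (l 16557216)))) (b (a (l 249678035735) (l 16530928)) (a (l 16550664) (l 16548776)))) (a (b (a (b (l 288869680359) (l 16580224)) (l 16572632)) (b (l 16568664) (l 16600280))) (b (a (l 16570072) (l 16567240)) (l 16587856))))) (b (a (b (a (b (a (a (l 241088294631) (l 272763695559)) (a (l 16624488) (l 16622880))) (a (b (l 16636616) (l 16643144)) (l 16636240))) (b (a (l 16620360) (l 16616776)) (l 16630304))) (a (b (a (a (l 16653872) (l 16651824)) (l 16648640)) (l 16663352)) (l 16645992))) (b (a (l 16616288) (l 16604400)) (a (l 16631192) (l 16617712)))) (a (b (a (b (l 16671704) (l 16677688)) (l 16658496)) (a (b (l 16683168) (l 16688048)) (l 16669176))) (b (a (l 16643368) (l 16629560)) (a (l 16653856) (l 16639872))))))), by decide +kernel⟩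

def k2_pm_022_a : ∃ t, chk3 f_pm_022_a t 5 3 1 = true :=
  ⟨(a (b (a (a (b (b (l 16528872) (a (l 16546608) (l 16544144))) (l 16686672)) (b (a (b (l 16526144) (l 16541352)) (a (l 16532144) (l 16604136))) (a (l 16564560) (a (l 16561208) (l 16559096))))) (b (l 16628416) (l 16550480))) (a (a (b (b (l 16592688) (l 16605568)) (b (l 16617080) (l 16627200))) (b (a (l 16591544) (a (l 16587792) (b (l 16578816) (l 16591080)))) (a (b (l 16608560) (l 16618560)) (a (l 16610088) (b (l 16602128) (l 16633024)))))) (b (b (l 16569096) (l 16580968)) (b (l 16591872) (l 16601704))))) (b (b (l 16550600) (a (l 16537600) (l 16529448))) (b (a (l 16561728) (l 16552520)) (b (l 16571704) (l 16580944))))), by decide +kernel⟩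

def k3_pm_022_a : ∃ t, chk3 f_pm_022_a t 3 1 1 = true :=
  ⟨(b (a (a (a (b (l 16474888) (l 16518160)) (b (l 16478280) (l 16480568))) (b (a (l 16479400) (l 16488760)) (a (l 16492736) (l 16498712)))) (b (a (l 16505896) (l 16530376)) (a (l 16507880) (l 16528128)))) (a (b (a (b (l 16506544) (l 16527296)) (b (l 16517728) (l 16682056))) (a (b (l 16546608) (l 16669112)) (b (l 16550040) (l 16565848)))) (b (a (l 16532520) (l 16545648)) (a (b (l 16553360) (l 16569080)) (b (l 16559672) (l 16578984)))))), by decide +kernel⟩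

theorem s4_pm_022_a : ∃ t, chk3 f_pm_022_a t 2 3 1 = true := ex3_a k1_pm_022_a k2_pm_022_a

theorem s5_pm_022_a : ∃ t, chk3 f_pm_022_a t 2 1 1 = true := ex3_b k0_pm_022_a s4_pm_022_a

theorem s6_pm_022_a : ∃ t, chk3 f_pm_022_a t 1 1 1 = true := ex3_a s5_pm_022_a k3_pm_022_a

theorem c_pm_022_a : CertB 0 536870912 0 536870912 587336777 62277027 3 eng mog cd3q0 cd3q2a pd2 true true false .pp 0 2 2
    ndB3q0 ndB3q2a pcB2 cut_pm_022_a Ext.none :=
  certB2 (fam := true) (s1 := true) (s2 := false) (a := 0) (b := 2) (c := 2) (cn := .pp) (n1 := ndB3q0) (n2 := ndB3q2a) (pc := pcB2) (cut := cut_pm_022_a) (xt := Ext.none) (P1 := 0) (W1 := 536870912) (P2 := 0) (W2 := 536870912) (P3 := 587336777) (W3 := 62277027) (N0 := 3) (En := eng) (mo := mog) (C1 := cd3q0) (C2 := cd3q2a) (C3 := pd2)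
    rfl (fun _ => rfl) s6_pm_022_a

noncomputable def cut_pm_022_b : Cut := Cut.of [[⟨0, 0, 0, 67108864⟩, ⟨1, 1, 0, 67108864⟩, ⟨2, 1, 0, 67108864⟩]]

noncomputable def f_pm_022_b : ℕ → ℕ → ℕ → ℕ → Bool := onCell 0 536870912 1239849684 370763052 587336777 62277027
    (rowB 3 eng mog cd3q0 cd3q2b pd2 0 true true false .pp 0 2 2 (qsf 0 536870912 1239849684 370763052 2) ndB3q0 ndB3q2b pcB2 cut_pm_022_b Ext.none)

def k0_pm_022_b : ∃ t, chk3 f_pm_022_b t 1 1 1 = true :=
  ⟨(a (b (a (b (a (a (b (a (b (a (b (l 16444024) (l 16424224)) (b (l 16445688) (l 16426648))) (l 16398528)) (l 16421880)) (a (l 16351600) (l 16361456))) (b (l 16472712) (l 16376272))) (b (a (l 16442600) (l 16453784)) (a (l 16395520) (l 16479576)))) (a (b (a (a (l 16302248) (l 16315312)) (b (l 16343960) (l 16327072))) (a (b (l 16281800) (l 16270488)) (l 16314928))) (a (b (l 16365456) (l 16358424)) (l 16399192)))) (b (a (b (a (b (l 16473768) (l 16457192)) (l 16481528)) (a (l 16443120)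 (l 16474352))) (b (l 16512568) (l 16519752))) (a (b (l 16457456) (l 16466584)) (b (l 16530000) (l 16546192))))) (a (b (a (a (b (l 16268264) (l 16284552)) (l 16327328)) (l 16403832)) (a (a (l 16338016) (l 16396096)) (b (l 16451608) (l 2)))) (b (a (b (l 16484256) (l 16513104)) (l 2)) (l 2)))) (b (a (b (a (b (l 16553008) (l 16574016)) (b (a (l 16578224) (l 16593544)) (l 2))) (a (b (l 16594096) (l 2)) (l 2))) (l 2)) (l 2))), by decide +kernel⟩

theorem c_pm_022_b : CertB 0 536870912 1239849684 370763052 587336777 62277027 3 eng mog cd3q0 cd3q2b pd2 true true false .pp 0 2 2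
    ndB3q0 ndB3q2b pcB2 cut_pm_022_b Ext.none :=
  certB0 (fam := true) (s1 := true) (s2 := false) (a := 0) (b := 2) (c := 2) (cn := .pp) (n1 := ndB3q0) (n2 := ndB3q2b) (pc := pcB2) (cut := cut_pm_022_b) (xt := Ext.none) (P1 := 0) (W1 := 536870912) (P2 := 1239849684) (W2 := 370763052) (P3 := 587336777) (W3 := 62277027) (N0 := 3) (En := eng) (mo := mog) (C1 := cd3q0) (C2 := cd3q2b) (C3 := pd2)
    rfl k0_pm_022_b

noncomputable def f_pm_023_a : ℕ → ℕ → ℕ → ℕ → Bool := onCell 1610612736 536870912 0 536870912 587336777 62277027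
    (rowB 3 eng mog cd3q0 cd3q2a pd3 2 true true false .up 0 2 3 (qsf 0 536870912 0 536870912 3) ndB3q0 ndB3q2a pcB3 Cut.none Ext.none)

def k0_pm_023_a : ∃ t, chk3 f_pm_023_a t 1 1 1 = true :=
  ⟨(a (a (b (a (a (b (l 16574544) (l 16565960)) (l 16641944)) (b (l 16706544) (l 16699200))) (a (a (b (l 16579280) (a (l 16554376) (l 16658504))) (b (l 16655536) (l 16710288))) (b (l 16715032) (l 16773608)))) (b (a (b (l 16785344) (l 16781576)) (l 2)) (b (l 2) (l 2)))) (l 2)), by decide +kernel⟩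

theorem c_pm_023_a : CertB 0 536870912 0 536870912 587336777 62277027 3 eng mog cd3q0 cd3q2a pd3 true true false .up 0 2 3
    ndB3q0 ndB3q2a pcB3 Cut.none Ext.none :=
  certB2 (fam := true) (s1 := true) (s2 := false) (a := 0) (b := 2) (c := 3) (cn := .up) (n1 := ndB3q0) (n2 := ndB3q2a) (pc := pcB3) (cut := Cut.none) (xt := Ext.none) (P1 := 0) (W1 := 536870912) (P2 := 0) (W2 := 536870912) (P3 := 587336777) (W3 := 62277027) (N0 := 3) (En := eng) (mo := mog) (C1 := cd3q0) (C2 := cd3q2a) (C3 := pd3)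
    rfl (fun _ => rfl) k0_pm_023_a

noncomputable def f_pm_023_b : ℕ → ℕ → ℕ → ℕ → Bool := onCell 1610612736 536870912 1239849684 370763052 587336777 62277027
    (rowB 3 eng mog cd3q0 cd3q2b pd3 2 true true false .up 0 2 3 (qsf 0 536870912 1239849684 370763052 3) ndB3q0 ndB3q2b pcB3 Cut.none Ext.none)

def k0_pm_023_b : ∃ t, chk3 f_pm_023_b t 1 1 1 = true :=
  ⟨(a (a (a (b (b (a (l 16585288) (l 16575016)) (l 16641216)) (b (a (l 16477352) (l 16501248)) (a (l 16407696) (l 16426208)))) (b (b (l 16622464) (l 16595632)) (b (l 16546368) (l 16481960)))) (b (a (b (l 16723472) (l 16643064)) (l 343698448199)) (a (b (l 16616976) (l 16566784)) (l 16692584)))) (a (l 4) (l 4))), by decide +kernel⟩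

theorem c_pm_023_b : CertB 0 536870912 1239849684 370763052 587336777 62277027 3 eng mog cd3q0 cd3q2b pd3 true true false .up 0 2 3
    ndB3q0 ndB3q2b pcB3 Cut.none Ext.none :=
  certB2 (fam := true) (s1 := true) (s2 := false) (a := 0) (b := 2) (c := 3) (cn := .up) (n1 := ndB3q0) (n2 := ndB3q2b) (pc := pcB3) (cut := Cut.none) (xt := Ext.none) (P1 := 0) (W1 := 536870912) (P2 := 1239849684) (W2 := 370763052) (P3 := 587336777) (W3 := 62277027) (N0 := 3) (En := eng) (mo := mog) (C1 := cd3q0) (C2 := cd3q2b) (C3 := pd3)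
    rfl (fun _ => rfl) k0_pm_023_b

noncomputable def f_pm_033 : ℕ → ℕ → ℕ → ℕ → Bool := onCell 0 536870912 1610612736 536870912 587336777 62277027
    (rowB 3 eng mog cd3q0 cd3q3 pd3 1 true true false .pnn 0 3 3 (qsf 0 536870912 1610612736 536870912 3) ndB3q0 ndB3q3 pcB3 Cut.none Ext.none)

def k0_pm_033 : ∃ t, chk3 f_pm_033 t 1 1 1 = true :=
  ⟨(b (b (a (b (a (b (a (l 16331784) (l 1)) (l 16345272)) (l 1)) (a (a (l 16317704) (l 16377712)) (l 16488960))) (l 1)) (a (b (a (l 16417552) (l 16510992)) (a (b (l 16475976) (l 16509544)) (l 16582152))) (b (l 1) (l 99891930215)))) (l 4)), by decide +kernel⟩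

theorem c_pm_033 : CertB 0 536870912 1610612736 536870912 587336777 62277027 3 eng mog cd3q0 cd3q3 pd3 true true false .pnn 0 3 3
    ndB3q0 ndB3q3 pcB3 Cut.none Ext.none :=
  certB1 (fam := true) (s1 := true) (s2 := false) (a := 0) (b := 3) (c := 3) (cn := .pnn) (n1 := ndB3q0) (n2 := ndB3q3) (pc := pcB3) (cut := Cut.none) (xt := Ext.none) (P1 := 0) (W1 := 536870912) (P2 := 1610612736) (W2 := 536870912) (P3 := 587336777) (W3 := 62277027) (N0 := 3) (En := eng) (mo := mog) (C1 := cd3q0) (C2 := cd3q3) (C3 := pd3)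
    rfl (fun _ => rfl) k0_pm_033

noncomputable def f_pm_101 : ℕ → ℕ → ℕ → ℕ → Bool := onCell 536870912 536870912 0 536870912 587336777 62277027
    (rowB 3 eng mog cd3q1 cd3q0 pd1 2 true true false .npn 1 0 1 (qsf 536870912 536870912 0 536870912 1) ndB3q1 ndB3q0 pcB1 Cut.none Ext.none)

def k0_pm_101 : ∃ t, chk3 f_pm_101 t 1 1 1 = true :=
  ⟨(l 3), by decide +kernel⟩

theorem c_pm_101 : CertB 536870912 536870912 0 536870912 587336777 62277027 3 eng mog cd3q1 cd3q0 pd1 true true false .npn 1 0 1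
    ndB3q1 ndB3q0 pcB1 Cut.none Ext.none :=
  certB2 (fam := true) (s1 := true) (s2 := false) (a := 1) (b := 0) (c := 1) (cn := .npn) (n1 := ndB3q1) (n2 := ndB3q0) (pc := pcB1) (cut := Cut.none) (xt := Ext.none) (P1 := 536870912) (W1 := 536870912) (P2 := 0) (W2 := 536870912) (P3 := 587336777) (W3 := 62277027) (N0 := 3) (En := eng) (mo := mog) (C1 := cd3q1) (C2 := cd3q0) (C3 := pd1)
    rfl (fun _ => rfl) k0_pm_101

noncomputable def f_pm_102 : ℕ → ℕ → ℕ → ℕ → Bool := onCell 536870912 536870912 1073741824 536870912 587336777 62277027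
    (rowB 3 eng mog cd3q1 cd3q0 pd2 1 true true false .npp 1 0 2 (qsf 536870912 536870912 0 536870912 2) ndB3q1 ndB3q0 pcB2 Cut.none Ext.none)

def k0_pm_102 : ∃ t, chk3 f_pm_102 t 1 1 1 = true :=
  ⟨(b (b (l 3) (b (b (b (a (l 3) (a (l 3) (l 3))) (a (b (l 3) (a (l 2) (b (l 3) (b (l 91436014759) (l 16686664))))) (b (a (l 3) (a (b (l 3) (l 16589200)) (a (b (l 3) (l 16560888)) (b (l 16549896) (l 16544256))))) (a (b (a (l 16655048) (b (l 16623808) (l 16622568))) (a (b (l 16653688) (l 16652272)) (b (a (l 16629672) (l 16611920)) (l 16618776)))) (b (a (b (l 16586384) (l 16584656)) (a (l 16556208) (l 16559712))) (a (b (a (l 16592496) (l 16572240)) (l 16579896)) (b (a (l 16552416) (l 16534512)) (a (l 16549440) (c (l 16557400) (l 16569184)))))))))) (a (a (l 2) (l 16682216)) (a (a (l 16643160) (l 16606312)) (a (l 16563176) (a (l 16529240) (l 16508744)))))) (a (a (l 2) (l 16676056)) (a (a (l 16626336) (l 16580320)) (a (l 16547128) (a (l 16482144) (l 16454328)))))))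 (a (b (a (l 2) (b (l 16684288) (l 2))) (l 2)) (b (a (a (l 16629136) (l 16567160)) (a (b (l 16497696) (l 16494096)) (b (l 16422352) (l 16402488)))) (a (a (l 2) (l 16635480)) (a (l 16537904) (l 16424040)))))), by decide +kernel⟩

theorem c_pm_102 : CertB 536870912 536870912 0 536870912 587336777 62277027 3 eng mog cd3q1 cd3q0 pd2 true true false .npp 1 0 2
    ndB3q1 ndB3q0 pcB2 Cut.none Ext.none :=
  certB1 (fam := true) (s1 := true) (s2 := false) (a := 1) (b := 0) (c := 2) (cn := .npp) (n1 := ndB3q1) (n2 := ndB3q0) (pc := pcB2) (cut := Cut.none) (xt := Ext.none) (P1 := 536870912) (W1 := 536870912) (P2 := 0) (W2 := 536870912) (P3 := 587336777) (W3 := 62277027) (N0 := 3) (En := eng) (mo := mog) (C1 := cd3q1) (C2 := cd3q0) (C3 := pd2)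
    rfl (fun _ => rfl) k0_pm_102

noncomputable def f_pm_112 : ℕ → ℕ → ℕ → ℕ → Bool := onCell 536870912 536870912 1073741824 536870912 587336777 62277027
    (rowB 3 eng mog cd3q1 cd3q1 pd2 1 true true false .dn 1 1 2 (qsf 536870912 536870912 536870912 536870912 2) ndB3q1 ndB3q1 pcB2 Cut.none Ext.none)

def k0_pm_112 : ∃ t, chk3 f_pm_112 t 1 1 1 = true :=
  ⟨(b (b (l 3) (a (b (b (b (l 3) (b (l 3) (a (b (l 3) (b (l 16681168) (l 16680832))) (b (l 3) (b (l 208339571575) (l 207802600615)))))) (a (l 16678264) (l 16749136))) (a (l 16674176) (l 16667128))) (b (l 1) (a (l 346851847191) (l 1))))) (a (b (a (b (l 16675680) (l 16684432)) (l 16723576)) (a (b (l 16697240) (l 16711480)) (l 16846720))) (b (a (l 176127440391) (l 406444376119)) (a (l 16792328) (l 115460716887))))), by decide +kernel⟩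

theorem c_pm_112 : CertB 536870912 536870912 536870912 536870912 587336777 62277027 3 eng mog cd3q1 cd3q1 pd2 true true false .dn 1 1 2
    ndB3q1 ndB3q1 pcB2 Cut.none Ext.none :=
  certB1 (fam := true) (s1 := true) (s2 := false) (a := 1) (b := 1) (c := 2) (cn := .dn) (n1 := ndB3q1) (n2 := ndB3q1) (pc := pcB2) (cut := Cut.none) (xt := Ext.none) (P1 := 536870912) (W1 := 536870912) (P2 := 536870912) (W2 := 536870912) (P3 := 587336777) (W3 := 62277027) (N0 := 3) (En := eng) (mo := mog) (C1 := cd3q1) (C2 := cd3q1) (C3 := pd2)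
    rfl (fun _ => rfl) k0_pm_112

noncomputable def f_pm_113 : ℕ → ℕ → ℕ → ℕ → Bool := onCell 536870912 536870912 536870912 536870912 587336777 62277027
    (rowB 3 eng mog cd3q1 cd3q1 pd3 0 true true false .nn 1 1 3 (qsf 536870912 536870912 536870912 536870912 3) ndB3q1 ndB3q1 pcB3 Cut.none Ext.none)

def k0_pm_113 : ∃ t, chk3 f_pm_113 t 1 1 1 = true :=
  ⟨(a (b (a (l 1) (l 218003456599)) (b (a (l 16692968) (l 16974904)) (a (l 16761264) (l 17036872)))) (b (a (b (l 16692968) (l 16974904)) (b (l 16761264) (l 17036872))) (a (b (l 17280096) (l 17061840)) (b (l 17061840) (a (l 17005200) (b (l 16950528) (a (l 16897736) (b (l 16869984) (a (l 16838848) (b (l 16824944) (a (l 16808336) (b (l 16801392) (a (l 16792848) (l 16786464)))))))))))))), by decide +kernel⟩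

theorem c_pm_113 : CertB 536870912 536870912 536870912 536870912 587336777 62277027 3 eng mog cd3q1 cd3q1 pd3 true true false .nn 1 1 3
    ndB3q1 ndB3q1 pcB3 Cut.none Ext.none :=
  certB0 (fam := true) (s1 := true) (s2 := false) (a := 1) (b := 1) (c := 3) (cn := .nn) (n1 := ndB3q1) (n2 := ndB3q1) (pc := pcB3) (cut := Cut.none) (xt := Ext.none) (P1 := 536870912) (W1 := 536870912) (P2 := 536870912) (W2 := 536870912) (P3 := 587336777) (W3 := 62277027) (N0 := 3) (En := eng) (mo := mog) (C1 := cd3q1) (C2 := cd3q1) (C3 := pd3)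
    rfl k0_pm_113

noncomputable def f_pm_123_a : ℕ → ℕ → ℕ → ℕ → Bool := onCell 1610612736 536870912 0 536870912 587336777 62277027
    (rowB 3 eng mog cd3q1 cd3q2a pd3 2 true true false .npn 1 2 3 (qsf 536870912 536870912 0 536870912 3) ndB3q1 ndB3q2a pcB3 Cut.none Ext.none)

def k0_pm_123_a : ∃ t, chk3 f_pm_123_a t 1 1 1 = true :=
  ⟨(b (a (a (a (l 1) (b (l 1) (l 16825752))) (a (l 291555117319) (l 16793952))) (a (a (l 16787424) (a (l 16570512) (l 4))) (l 4))) (a (a (a (a (b (l 1) (a (l 16716336) (l 16816472))) (l 17086880)) (b (l 16860072) (l 16987216))) (a (b (l 16986720) (l 17282968)) (b (l 16936736) (l 17022088)))) (a (b (a (l 16853024) (a (l 16802592) (l 16769128))) (a (c (l 16933384) (l 17011168)) (a (l 16871808) (l 16835880)))) (a (b (l 4) (a (a (l 16810792) (l 16794064)) (b (l 4) (l 16786184)))) (l 4))))), by decide +kernel⟩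

theorem c_pm_123_a : CertB 536870912 536870912 0 536870912 587336777 62277027 3 eng mog cd3q1 cd3q2a pd3 true true false .npn 1 2 3
    ndB3q1 ndB3q2a pcB3 Cut.none Ext.none :=
  certB2 (fam := true) (s1 := true) (s2 := false) (a := 1) (b := 2) (c := 3) (cn := .npn) (n1 := ndB3q1) (n2 := ndB3q2a) (pc := pcB3) (cut := Cut.none) (xt := Ext.none) (P1 := 536870912) (W1 := 536870912) (P2 := 0) (W2 := 536870912) (P3 := 587336777) (W3 := 62277027) (N0 := 3) (En := eng) (mo := mog) (C1 := cd3q1) (C2 := cd3q2a) (C3 := pd3)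
    rfl (fun _ => rfl) k0_pm_123_a

noncomputable def f_pm_123_b : ℕ → ℕ → ℕ → ℕ → Bool := onCell 1610612736 536870912 1239849684 370763052 587336777 62277027
    (rowB 3 eng mog cd3q1 cd3q2b pd3 2 true true false .npn 1 2 3 (qsf 536870912 536870912 1239849684 370763052 3) ndB3q1 ndB3q2b pcB3 Cut.none Ext.none)

def k0_pm_123_b : ∃ t, chk3 f_pm_123_b t 1 1 1 = true :=
  ⟨(b (a (a (l 1) (a (l 16779072) (l 16858144))) (l 4)) (a (l 1) (l 4))), by decide +kernel⟩

theorem c_pm_123_b : CertB 536870912 536870912 1239849684 370763052 587336777 62277027 3 eng mog cd3q1 cd3q2b pd3 true true false .npn 1 2 3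
    ndB3q1 ndB3q2b pcB3 Cut.none Ext.none :=
  certB2 (fam := true) (s1 := true) (s2 := false) (a := 1) (b := 2) (c := 3) (cn := .npn) (n1 := ndB3q1) (n2 := ndB3q2b) (pc := pcB3) (cut := Cut.none) (xt := Ext.none) (P1 := 536870912) (W1 := 536870912) (P2 := 1239849684) (W2 := 370763052) (P3 := 587336777) (W3 := 62277027) (N0 := 3) (En := eng) (mo := mog) (C1 := cd3q1) (C2 := cd3q2b) (C3 := pd3)
    rfl (fun _ => rfl) k0_pm_123_b

noncomputable def f_pm_133 : ℕ → ℕ → ℕ → ℕ → Bool := onCell 536870912 536870912 1610612736 536870912 587336777 62277027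
    (rowB 3 eng mog cd3q1 cd3q3 pd3 0 true true false .dn 1 3 3 (qsf 536870912 536870912 1610612736 536870912 3) ndB3q1 ndB3q3 pcB3 Cut.none Ext.none)

def k0_pm_133 : ∃ t, chk3 f_pm_133 t 1 1 1 = true :=
  ⟨(l 4), by decide +kernel⟩

theorem c_pm_133 : CertB 536870912 536870912 1610612736 536870912 587336777 62277027 3 eng mog cd3q1 cd3q3 pd3 true true false .dn 1 3 3
    ndB3q1 ndB3q3 pcB3 Cut.none Ext.none :=
  certB0 (fam := true) (s1 := true) (s2 := false) (a := 1) (b := 3) (c := 3) (cn := .dn) (n1 := ndB3q1) (n2 := ndB3q3) (pc := pcB3) (cut := Cut.none) (xt := Ext.none) (P1 := 536870912) (W1 := 536870912) (P2 := 1610612736) (W2 := 536870912) (P3 := 587336777) (W3 := 62277027) (N0 := 3) (En := eng) (mo := mog) (C1 := cd3q1) (C2 := cd3q3) (C3 := pd3)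
    rfl k0_pm_133

noncomputable def cut_pm_202_a : Cut := Cut.of [[⟨0, 1, 0, 67108864⟩, ⟨1, 0, 0, 67108864⟩, ⟨2, 1, 0, 67108864⟩]]

noncomputable def f_pm_202_a : ℕ → ℕ → ℕ → ℕ → Bool := onCell 0 536870912 1073741824 536870912 587336777 62277027
    (rowB 3 eng mog cd3q2a cd3q0 pd2 1 true true false .pp 2 0 2 (qsf 0 536870912 0 536870912 2) ndB3q2a ndB3q0 pcB2 cut_pm_202_a Ext.none)

def k0_pm_202_a : ∃ t, chk3 f_pm_202_a t 2 1 1 = true :=
  ⟨(b (a (b (l 1) (b (b (b (l 1) (b (a (l 1) (a (l 1) (l 246456683303))) (b (a (l 1) (a (l 16460040) (l 16466792))) (a (a (l 16453704) (b (l 16455872) (l 16456200))) (b (l 16463944) (a (l 16460696) (l 16467208))))))) (a (b (b (a (l 16454832) (l 16456920)) (l 16457088)) (l 16458960)) (b (b (l 16464544) (l 16464832)) (l 16486424)))) (b (a (l 16463400) (l 16446408)) (a (l 16469568) (l 16470152))))) (b (b (l 1) (b (l 1) (a (l 1) (b (l 1) (a (l 1) (b (l 1) (l 280816532791))))))) (b (b (b (a (b (l 1) (a (l 203507019559)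 (l 290480132807))) (a (b (l 279205868487) (l 330745484791)) (b (l 340946062375) (l 16512704)))) (b (a (a (l 232498058679) (l 16485808)) (a (l 16498056) (l 16511600))) (a (b (a (l 16475424) (l 16485744)) (b (l 16480816) (l 16501768))) (b (l 16504336) (b (l 16503880) (l 16524536)))))) (a (b (a (l 16475488) (l 16484920)) (l 16479280)) (b (a (l 16495664) (l 16507472)) (l 16498248)))) (b (a (l 16477688) (l 16492808)) (a (l 16475640) (l 16484496)))))) (b (b (a (a (l 16478216) (l 16474080)) (a (l 16472240) (l 16484656))) (a (b (l 16479400) (l 16488760)) (b (l 16492736) (l 16498712)))) (a (b (l 16505896) (l 16530376)) (b (l 16507880) (l 16528128))))), by decide +kernel⟩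

def k1_pm_202_a : ∃ t, chk3 f_pm_202_a t 3 4 1 = true :=
  ⟨(b (a (l 1) (a (b (l 1) (b (a (l 1) (l 6)) (b (a (l 1) (l 6)) (a (a (l 1) (b (a (l 1) (l 6)) (a (l 258805077687) (l 16645864)))) (b (l 6) (a (l 16655880) (l 16669184))))))) (b (l 6) (b (l 6) (b (l 6) (b (l 6) (a (l 16685584) (l 16696648)))))))) (a (b (a (l 1) (b (a (l 1) (b (l 1) (a (b (l 1) (l 202970425399)) (b (l 252362574791) (l 273300535191))))) (a (b (a (l 1) (l 223908339447)) (a (l 236256328359) (l 272226707879))) (b (a (b (l 221224021975) (l 16595824)) (l 16608368)) (a (l 16593896) (l 16605320)))))) (a (b (a (b (l 1) (a (l 1) (l 217465776551))) (b (a (l 1) (l 263099851751)) (a (l 289943373479) (l 16557216)))) (a (b (a (l 259878559383) (l 284037771575)) (a (l 16526496) (l 16535200))) (b (l 16550664) (l 16548776)))) (b (a (b (a (l 288869680359) (l 16580224)) (l 16572632)) (a (l 16569320) (l 16600280))) (a (b (l 16570072) (l 16567240)) (l 16587856))))) (a (b (a (b (a (b (b (a (l 1)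 (l 263636899959)) (l 272763695559)) (b (l 16624488) (l 16622880))) (b (a (l 331282644935) (l 16643144)) (l 16636240))) (a (b (l 16620360) (l 16616776)) (l 16630304))) (b (a (b (b (l 16653872) (l 16651824)) (l 16648640)) (l 16663352)) (l 16645992))) (a (b (l 16616288) (l 16604400)) (b (l 16631192) (l 16617712)))) (b (a (b (a (l 16671704) (l 16677688)) (l 16658496)) (b (a (l 16683168) (l 16688048)) (l 16669176))) (a (b (l 16643368) (l 16629560)) (b (l 16653856) (l 16639872))))))), by decide +kernel⟩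

def k2_pm_202_a : ∃ t, chk3 f_pm_202_a t 3 5 1 = true :=
  ⟨(b (a (b (b (a (a (b (l 16529624) (l 16528040)) (b (l 16546608) (l 16544144))) (a (l 16562408) (l 16578760))) (a (b (a (l 16526144) (l 16541352)) (b (l 16532144) (a (l 16523328) (l 16537400)))) (b (l 16564560) (b (l 16561208) (l 16559096))))) (a (l 16649392) (l 16550480))) (b (b (a (l 16620616) (a (l 16617080) (l 16627200))) (a (b (l 16591544) (b (l 16587792) (a (l 16578816) (l 16591080)))) (b (l 16614056) (b (l 16610088) (a (l 16602128) (l 16612048)))))) (a (a (l 16569096) (l 16580968)) (a (l 16591872) (l 16601704))))) (a (a (l 16529624) (b (l 16537600) (l 16529448))) (a (b (l 16561728) (l 16552520)) (b (l 16582600) (l 16572016))))), by decide +kernel⟩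

def k3_pm_202_a : ∃ t, chk3 f_pm_202_a t 3 3 1 = true :=
  ⟨(b (a (b (a (l 16506544) (l 16527296)) (a (l 16517728) (l 16682056))) (b (a (l 16546608) (l 16627168)) (a (l 16550040) (l 16565840)))) (a (b (l 16532520) (l 16545648)) (b (a (l 16553360) (l 16569080)) (l 16633352)))), by decide +kernel⟩

theorem s4_pm_202_a : ∃ t, chk3 f_pm_202_a t 3 2 1 = true := ex3_b k1_pm_202_a k2_pm_202_a

theorem s5_pm_202_a : ∃ t, chk3 f_pm_202_a t 3 1 1 = true := ex3_b s4_pm_202_a k3_pm_202_a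

theorem s6_pm_202_a : ∃ t, chk3 f_pm_202_a t 1 1 1 = true := ex3_a k0_pm_202_a s5_pm_202_a

theorem c_pm_202_a : CertB 0 536870912 0 536870912 587336777 62277027 3 eng mog cd3q2a cd3q0 pd2 true true false .pp 2 0 2
    ndB3q2a ndB3q0 pcB2 cut_pm_202_a Ext.none :=
  certB1 (fam := true) (s1 := true) (s2 := false) (a := 2) (b := 0) (c := 2) (cn := .pp) (n1 := ndB3q2a) (n2 := ndB3q0) (pc := pcB2) (cut := cut_pm_202_a) (xt := Ext.none) (P1 := 0) (W1 := 536870912) (P2 := 0) (W2 := 536870912) (P3 := 587336777) (W3 := 62277027) (N0 := 3) (En := eng) (mo := mog) (C1 := cd3q2a) (C2 := cd3q0) (C3 := pd2)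
    rfl (fun _ => rfl) s6_pm_202_a

noncomputable def cut_pm_202_b : Cut := Cut.of [[⟨0, 1, 0, 67108864⟩, ⟨1, 0, 0, 67108864⟩, ⟨2, 1, 0, 67108864⟩]]

noncomputable def f_pm_202_b : ℕ → ℕ → ℕ → ℕ → Bool := onCell 1239849684 370763052 0 536870912 587336777 62277027
    (rowB 3 eng mog cd3q2b cd3q0 pd2 0 true true false .pp 2 0 2 (qsf 1239849684 370763052 0 536870912 2) ndB3q2b ndB3q0 pcB2 cut_pm_202_b Ext.none)

def k0_pm_202_b : ∃ t, chk3 f_pm_202_b t 1 1 1 = true :=
  ⟨(b (a (b (a (b (b (a (b (a (a (b (l 16464992) (l 16445688)) (a (l 16430168) (l 16420768))) (l 16398528)) (l 16421880)) (b (l 16372568) (l 16361456))) (a (l 16493680) (l 16376272))) (a (b (l 16442600) (l 16453784)) (b (l 16395520) (l 16479576)))) (b (a (b (b (l 16302248) (l 16315312)) (a (l 16343960) (l 16327072))) (b (a (l 16302768) (l 16312432)) (l 16314928))) (b (a (l 16365456) (l 16358424)) (l 16399192)))) (a (b (a (b (a (l 16473768) (l 16457192)) (l 16481528)) (b (l 16443120)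 (l 16474352))) (a (l 16512568) (l 16519752))) (b (a (l 16457456) (l 16466584)) (a (l 16530000) (l 16546192))))) (b (a (b (b (a (l 16268264) (l 16284552)) (l 16327328)) (l 16487720)) (a (b (l 16388296) (l 16451608)) (b (l 16392664) (l 2)))) (a (b (a (l 16484256) (l 16513104)) (l 2)) (l 2)))) (a (b (a (b (a (l 16553008) (l 16574016)) (a (b (l 16578224) (l 16593544)) (l 2))) (b (a (l 16594096) (l 2)) (l 2))) (l 2)) (l 2))), by decide +kernel⟩

theorem c_pm_202_b : CertB 1239849684 370763052 0 536870912 587336777 62277027 3 eng mog cd3q2b cd3q0 pd2 true true false .pp 2 0 2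
    ndB3q2b ndB3q0 pcB2 cut_pm_202_b Ext.none :=
  certB0 (fam := true) (s1 := true) (s2 := false) (a := 2) (b := 0) (c := 2) (cn := .pp) (n1 := ndB3q2b) (n2 := ndB3q0) (pc := pcB2) (cut := cut_pm_202_b) (xt := Ext.none) (P1 := 1239849684) (W1 := 370763052) (P2 := 0) (W2 := 536870912) (P3 := 587336777) (W3 := 62277027) (N0 := 3) (En := eng) (mo := mog) (C1 := cd3q2b) (C2 := cd3q0) (C3 := pd2)
    rfl k0_pm_202_b

noncomputable def f_pm_203_a : ℕ → ℕ → ℕ → ℕ → Bool := onCell 0 536870912 1610612736 536870912 587336777 62277027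
    (rowB 3 eng mog cd3q2a cd3q0 pd3 1 true true false .up 2 0 3 (qsf 0 536870912 0 536870912 3) ndB3q2a ndB3q0 pcB3 Cut.none Ext.none)

def k0_pm_203_a : ∃ t, chk3 f_pm_203_a t 1 1 1 = true :=
  ⟨(b (b (b (a (b (a (l 16574544) (l 16565960)) (l 16641944)) (b (a (l 16579280) (b (l 16554376) (l 16658504))) (a (l 16655536) (l 16710288)))) (a (a (l 16706544) (l 16699200)) (a (l 16715032) (l 16773608)))) (a (b (a (l 16785344) (l 16781576)) (l 2)) (a (l 2) (l 2)))) (l 2)), by decide +kernel⟩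

theorem c_pm_203_a : CertB 0 536870912 0 536870912 587336777 62277027 3 eng mog cd3q2a cd3q0 pd3 true true false .up 2 0 3
    ndB3q2a ndB3q0 pcB3 Cut.none Ext.none :=
  certB1 (fam := true) (s1 := true) (s2 := false) (a := 2) (b := 0) (c := 3) (cn := .up) (n1 := ndB3q2a) (n2 := ndB3q0) (pc := pcB3) (cut := Cut.none) (xt := Ext.none) (P1 := 0) (W1 := 536870912) (P2 := 0) (W2 := 536870912) (P3 := 587336777) (W3 := 62277027) (N0 := 3) (En := eng) (mo := mog) (C1 := cd3q2a) (C2 := cd3q0) (C3 := pd3)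
    rfl (fun _ => rfl) k0_pm_203_a

noncomputable def f_pm_203_b : ℕ → ℕ → ℕ → ℕ → Bool := onCell 1239849684 370763052 1610612736 536870912 587336777 62277027
    (rowB 3 eng mog cd3q2b cd3q0 pd3 1 true true false .up 2 0 3 (qsf 1239849684 370763052 0 536870912 3) ndB3q2b ndB3q0 pcB3 Cut.none Ext.none)

def k0_pm_203_b : ∃ t, chk3 f_pm_203_b t 1 1 1 = true :=
  ⟨(b (b (b (a (a (b (l 16585288) (l 16575016)) (l 16641216)) (a (b (l 16477352) (l 16501248)) (b (l 16407696) (l 16426208)))) (a (a (l 16622464) (l 16595632)) (a (l 16546368) (l 16481960)))) (a (b (a (l 16723472) (l 16643064)) (l 343698448199)) (b (a (l 16616976) (l 16566784)) (l 16692584)))) (b (l 4) (l 4))), by decide +kernel⟩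

theorem c_pm_203_b : CertB 1239849684 370763052 0 536870912 587336777 62277027 3 eng mog cd3q2b cd3q0 pd3 true true false .up 2 0 3
    ndB3q2b ndB3q0 pcB3 Cut.none Ext.none :=
  certB1 (fam := true) (s1 := true) (s2 := false) (a := 2) (b := 0) (c := 3) (cn := .up) (n1 := ndB3q2b) (n2 := ndB3q0) (pc := pcB3) (cut := Cut.none) (xt := Ext.none) (P1 := 1239849684) (W1 := 370763052) (P2 := 0) (W2 := 536870912) (P3 := 587336777) (W3 := 62277027) (N0 := 3) (En := eng) (mo := mog) (C1 := cd3q2b) (C2 := cd3q0) (C3 := pd3)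
    rfl (fun _ => rfl) k0_pm_203_b

noncomputable def f_pm_213_a : ℕ → ℕ → ℕ → ℕ → Bool := onCell 0 536870912 1610612736 536870912 587336777 62277027
    (rowB 3 eng mog cd3q2a cd3q1 pd3 1 true true false .pnn 2 1 3 (qsf 0 536870912 536870912 536870912 3) ndB3q2a ndB3q1 pcB3 Cut.none Ext.none)

def k0_pm_213_a : ∃ t, chk3 f_pm_213_a t 1 1 1 = true :=
  ⟨(b (b (a (b (l 1) (a (l 1) (l 16825752))) (a (b (l 1) (l 16860072)) (b (b (b (l 16716336) (l 16816472)) (l 16877424)) (l 16987216)))) (b (a (l 291555117319) (a (l 16986720) (l 17282968))) (a (l 16793952) (a (l 16936736) (l 17022088))))) (a (b (b (l 16766456) (b (l 16591480) (l 4))) (l 4)) (b (a (b (l 16853024) (b (l 16802592) (l 16769128))) (b (c (l 16933384) (l 17011160)) (b (l 16871808) (l 16835872)))) (b (a (l 4) (b (b (l 16810784) (l 16794048)) (a (l 4) (l 16786184)))) (l 4))))), by decide +kernel⟩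

theorem c_pm_213_a : CertB 0 536870912 536870912 536870912 587336777 62277027 3 eng mog cd3q2a cd3q1 pd3 true true false .pnn 2 1 3
    ndB3q2a ndB3q1 pcB3 Cut.none Ext.none :=
  certB1 (fam := true) (s1 := true) (s2 := false) (a := 2) (b := 1) (c := 3) (cn := .pnn) (n1 := ndB3q2a) (n2 := ndB3q1) (pc := pcB3) (cut := Cut.none) (xt := Ext.none) (P1 := 0) (W1 := 536870912) (P2 := 536870912) (W2 := 536870912) (P3 := 587336777) (W3 := 62277027) (N0 := 3) (En := eng) (mo := mog) (C1 := cd3q2a) (C2 := cd3q1) (C3 := pd3)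
    rfl (fun _ => rfl) k0_pm_213_a

noncomputable def f_pm_213_b : ℕ → ℕ → ℕ → ℕ → Bool := onCell 1239849684 370763052 1610612736 536870912 587336777 62277027
    (rowB 3 eng mog cd3q2b cd3q1 pd3 1 true true false .pnn 2 1 3 (qsf 1239849684 370763052 536870912 536870912 3) ndB3q2b ndB3q1 pcB3 Cut.none Ext.none)

def k0_pm_213_b : ∃ t, chk3 f_pm_213_b t 1 1 1 = true :=
  ⟨(a (b (b (l 1) (b (l 16779072) (l 16858144))) (l 4)) (b (l 1) (l 4))), by decide +kernel⟩

theorem c_pm_213_b : CertB 1239849684 370763052 536870912 536870912 587336777 62277027 3 eng mog cd3q2b cd3q1 pd3 true true false .pnn 2 1 3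
    ndB3q2b ndB3q1 pcB3 Cut.none Ext.none :=
  certB1 (fam := true) (s1 := true) (s2 := false) (a := 2) (b := 1) (c := 3) (cn := .pnn) (n1 := ndB3q2b) (n2 := ndB3q1) (pc := pcB3) (cut := Cut.none) (xt := Ext.none) (P1 := 1239849684) (W1 := 370763052) (P2 := 536870912) (W2 := 536870912) (P3 := 587336777) (W3 := 62277027) (N0 := 3) (En := eng) (mo := mog) (C1 := cd3q2b) (C2 := cd3q1) (C3 := pd3)
    rfl (fun _ => rfl) k0_pm_213_b

noncomputable def f_pm_303 : ℕ → ℕ → ℕ → ℕ → Bool := onCell 1610612736 536870912 0 536870912 587336777 62277027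
    (rowB 3 eng mog cd3q3 cd3q0 pd3 2 true true false .npn 3 0 3 (qsf 1610612736 536870912 0 536870912 3) ndB3q3 ndB3q0 pcB3 Cut.none Ext.none)

def k0_pm_303 : ∃ t, chk3 f_pm_303 t 1 1 1 = true :=
  ⟨(a (a (b (a (b (a (b (l 16331784) (l 1)) (l 16345272)) (l 1)) (b (b (l 16317704) (l 16377712)) (l 16488960))) (l 1)) (b (a (b (l 16417552) (l 16510992)) (b (a (l 16475976) (l 16509544)) (l 16582152))) (a (l 1) (l 211561079911)))) (l 4)), by decide +kernel⟩

theorem c_pm_303 : CertB 1610612736 536870912 0 536870912 587336777 62277027 3 eng mog cd3q3 cd3q0 pd3 true true false .npn 3 0 3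
    ndB3q3 ndB3q0 pcB3 Cut.none Ext.none :=
  certB2 (fam := true) (s1 := true) (s2 := false) (a := 3) (b := 0) (c := 3) (cn := .npn) (n1 := ndB3q3) (n2 := ndB3q0) (pc := pcB3) (cut := Cut.none) (xt := Ext.none) (P1 := 1610612736) (W1 := 536870912) (P2 := 0) (W2 := 536870912) (P3 := 587336777) (W3 := 62277027) (N0 := 3) (En := eng) (mo := mog) (C1 := cd3q3) (C2 := cd3q0) (C3 := pd3)
    rfl (fun _ => rfl) k0_pm_303

noncomputable def f_pm_313 : ℕ → ℕ → ℕ → ℕ → Bool := onCell 1610612736 536870912 536870912 536870912 587336777 62277027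
    (rowB 3 eng mog cd3q3 cd3q1 pd3 0 true true false .dn 3 1 3 (qsf 1610612736 536870912 536870912 536870912 3) ndB3q3 ndB3q1 pcB3 Cut.none Ext.none)

def k0_pm_313 : ∃ t, chk3 f_pm_313 t 1 1 1 = true :=
  ⟨(l 4), by decide +kernel⟩

theorem c_pm_313 : CertB 1610612736 536870912 536870912 536870912 587336777 62277027 3 eng mog cd3q3 cd3q1 pd3 true true false .dn 3 1 3
    ndB3q3 ndB3q1 pcB3 Cut.none Ext.none :=
  certB0 (fam := true) (s1 := true) (s2 := false) (a := 3) (b := 1) (c := 3) (cn := .dn) (n1 := ndB3q3) (n2 := ndB3q1) (pc := pcB3) (cut := Cut.none) (xt := Ext.none) (P1 := 1610612736) (W1 := 536870912) (P2 := 536870912) (W2 := 536870912) (P3 := 587336777) (W3 := 62277027) (N0 := 3) (En := eng) (mo := mog) (C1 := cd3q3) (C2 := cd3q1) (C3 := pd3)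
    rfl k0_pm_313

noncomputable def f_mm_001 : ℕ → ℕ → ℕ → ℕ → Bool := onCell 0 536870912 0 536870912 587336777 62277027
    (rowB 3 eng mog cd3q0 cd3q0 pd1 0 true false false .up 0 0 1 (qsf 0 536870912 0 536870912 1) ndB3q0 ndB3q0 pcB1 Cut.none Ext.none)

def k0_mm_001 : ∃ t, chk3 f_mm_001 t 1 1 1 = true :=
  ⟨(l 4), by decide +kernel⟩

theorem c_mm_001 : CertB 0 536870912 0 536870912 587336777 62277027 3 eng mog cd3q0 cd3q0 pd1 true false false .up 0 0 1
    ndB3q0 ndB3q0 pcB1 Cut.none Ext.none :=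
  certB0 (fam := true) (s1 := false) (s2 := false) (a := 0) (b := 0) (c := 1) (cn := .up) (n1 := ndB3q0) (n2 := ndB3q0) (pc := pcB1) (cut := Cut.none) (xt := Ext.none) (P1 := 0) (W1 := 536870912) (P2 := 0) (W2 := 536870912) (P3 := 587336777) (W3 := 62277027) (N0 := 3) (En := eng) (mo := mog) (C1 := cd3q0) (C2 := cd3q0) (C3 := pd1)
    rfl k0_mm_001

noncomputable def f_mm_011 : ℕ → ℕ → ℕ → ℕ → Bool := onCell 0 536870912 536870912 536870912 587336777 62277027
    (rowB 3 eng mog cd3q0 cd3q1 pd1 0 true false false .pnn 0 1 1 (qsf 0 536870912 536870912 536870912 1) ndB3q0 ndB3q1 pcB1 Cut.none Ext.none)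

def k0_mm_011 : ∃ t, chk3 f_mm_011 t 1 1 1 = true :=
  ⟨(l 4), by decide +kernel⟩

theorem c_mm_011 : CertB 0 536870912 536870912 536870912 587336777 62277027 3 eng mog cd3q0 cd3q1 pd1 true false false .pnn 0 1 1
    ndB3q0 ndB3q1 pcB1 Cut.none Ext.none :=
  certB0 (fam := true) (s1 := false) (s2 := false) (a := 0) (b := 1) (c := 1) (cn := .pnn) (n1 := ndB3q0) (n2 := ndB3q1) (pc := pcB1) (cut := Cut.none) (xt := Ext.none) (P1 := 0) (W1 := 536870912) (P2 := 536870912) (W2 := 536870912) (P3 := 587336777) (W3 := 62277027) (N0 := 3) (En := eng) (mo := mog) (C1 := cd3q0) (C2 := cd3q1) (C3 := pd1)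
    rfl k0_mm_011

noncomputable def f_mm_012 : ℕ → ℕ → ℕ → ℕ → Bool := onCell 0 536870912 536870912 536870912 587336777 62277027
    (rowB 3 eng mog cd3q0 cd3q1 pd2 0 true false false .pnp 0 1 2 (qsf 0 536870912 536870912 536870912 2) ndB3q0 ndB3q1 pcB2 Cut.none Ext.none)

def k0_mm_012 : ∃ t, chk3 f_mm_012 t 1 1 1 = true :=
  ⟨(l 4), by decide +kernel⟩

theorem c_mm_012 : CertB 0 536870912 536870912 536870912 587336777 62277027 3 eng mog cd3q0 cd3q1 pd2 true false false .pnp 0 1 2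
    ndB3q0 ndB3q1 pcB2 Cut.none Ext.none :=
  certB0 (fam := true) (s1 := false) (s2 := false) (a := 0) (b := 1) (c := 2) (cn := .pnp) (n1 := ndB3q0) (n2 := ndB3q1) (pc := pcB2) (cut := Cut.none) (xt := Ext.none) (P1 := 0) (W1 := 536870912) (P2 := 536870912) (W2 := 536870912) (P3 := 587336777) (W3 := 62277027) (N0 := 3) (En := eng) (mo := mog) (C1 := cd3q0) (C2 := cd3q1) (C3 := pd2)
    rfl k0_mm_012

noncomputable def f_mm_022_a : ℕ → ℕ → ℕ → ℕ → Bool := onCell 0 536870912 0 536870912 587336777 62277027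
    (rowB 3 eng mog cd3q0 cd3q2a pd2 0 true false false .pp 0 2 2 (qsf 0 536870912 0 536870912 2) ndB3q0 ndB3q2a pcB2 Cut.none Ext.none)

def k0_mm_022_a : ∃ t, chk3 f_mm_022_a t 1 1 1 = true :=
  ⟨(l 5), by decide +kernel⟩

theorem c_mm_022_a : CertB 0 536870912 0 536870912 587336777 62277027 3 eng mog cd3q0 cd3q2a pd2 true false false .pp 0 2 2
    ndB3q0 ndB3q2a pcB2 Cut.none Ext.none :=
  certB0 (fam := true) (s1 := false) (s2 := false) (a := 0) (b := 2) (c := 2) (cn := .pp) (n1 := ndB3q0) (n2 := ndB3q2a) (pc := pcB2) (cut := Cut.none) (xt := Ext.none) (P1 := 0) (W1 := 536870912) (P2 := 0) (W2 := 536870912) (P3 := 587336777) (W3 := 62277027) (N0 := 3) (En := eng) (mo := mog) (C1 := cd3q0) (C2 := cd3q2a) (C3 := pd2)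
    rfl k0_mm_022_a

noncomputable def f_mm_022_b : ℕ → ℕ → ℕ → ℕ → Bool := onCell 0 536870912 1239849684 370763052 587336777 62277027
    (rowB 3 eng mog cd3q0 cd3q2b pd2 0 true false false .pp 0 2 2 (qsf 0 536870912 1239849684 370763052 2) ndB3q0 ndB3q2b pcB2 Cut.none Ext.none)

def k0_mm_022_b : ∃ t, chk3 f_mm_022_b t 1 1 1 = true :=
  ⟨(l 5), by decide +kernel⟩

theorem c_mm_022_b : CertB 0 536870912 1239849684 370763052 587336777 62277027 3 eng mog cd3q0 cd3q2b pd2 true false false .pp 0 2 2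
    ndB3q0 ndB3q2b pcB2 Cut.none Ext.none :=
  certB0 (fam := true) (s1 := false) (s2 := false) (a := 0) (b := 2) (c := 2) (cn := .pp) (n1 := ndB3q0) (n2 := ndB3q2b) (pc := pcB2) (cut := Cut.none) (xt := Ext.none) (P1 := 0) (W1 := 536870912) (P2 := 1239849684) (W2 := 370763052) (P3 := 587336777) (W3 := 62277027) (N0 := 3) (En := eng) (mo := mog) (C1 := cd3q0) (C2 := cd3q2b) (C3 := pd2)
    rfl k0_mm_022_b

noncomputable def f_mm_023_a : ℕ → ℕ → ℕ → ℕ → Bool := onCell 0 536870912 0 536870912 587336777 62277027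
    (rowB 3 eng mog cd3q0 cd3q2a pd3 0 true false false .up 0 2 3 (qsf 0 536870912 0 536870912 3) ndB3q0 ndB3q2a pcB3 Cut.none Ext.none)

def k0_mm_023_a : ∃ t, chk3 f_mm_023_a t 1 1 1 = true :=
  ⟨(l 5), by decide +kernel⟩

theorem c_mm_023_a : CertB 0 536870912 0 536870912 587336777 62277027 3 eng mog cd3q0 cd3q2a pd3 true false false .up 0 2 3
    ndB3q0 ndB3q2a pcB3 Cut.none Ext.none :=
  certB0 (fam := true) (s1 := false) (s2 := false) (a := 0) (b := 2) (c := 3) (cn := .up) (n1 := ndB3q0) (n2 := ndB3q2a) (pc := pcB3) (cut := Cut.none) (xt := Ext.none) (P1 := 0) (W1 := 536870912) (P2 := 0) (W2 := 536870912) (P3 := 587336777) (W3 := 62277027) (N0 := 3) (En := eng) (mo := mog) (C1 := cd3q0) (C2 := cd3q2a) (C3 := pd3)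
    rfl k0_mm_023_a

noncomputable def f_mm_023_b : ℕ → ℕ → ℕ → ℕ → Bool := onCell 0 536870912 1239849684 370763052 587336777 62277027
    (rowB 3 eng mog cd3q0 cd3q2b pd3 0 true false false .up 0 2 3 (qsf 0 536870912 1239849684 370763052 3) ndB3q0 ndB3q2b pcB3 Cut.none Ext.none)

def k0_mm_023_b : ∃ t, chk3 f_mm_023_b t 1 1 1 = true :=
  ⟨(l 5), by decide +kernel⟩

theorem c_mm_023_b : CertB 0 536870912 1239849684 370763052 587336777 62277027 3 eng mog cd3q0 cd3q2b pd3 true false false .up 0 2 3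
    ndB3q0 ndB3q2b pcB3 Cut.none Ext.none :=
  certB0 (fam := true) (s1 := false) (s2 := false) (a := 0) (b := 2) (c := 3) (cn := .up) (n1 := ndB3q0) (n2 := ndB3q2b) (pc := pcB3) (cut := Cut.none) (xt := Ext.none) (P1 := 0) (W1 := 536870912) (P2 := 1239849684) (W2 := 370763052) (P3 := 587336777) (W3 := 62277027) (N0 := 3) (En := eng) (mo := mog) (C1 := cd3q0) (C2 := cd3q2b) (C3 := pd3)
    rfl k0_mm_023_b

noncomputable def f_mm_033 : ℕ → ℕ → ℕ → ℕ → Bool := onCell 0 536870912 1610612736 536870912 587336777 62277027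
    (rowB 3 eng mog cd3q0 cd3q3 pd3 0 true false false .pnn 0 3 3 (qsf 0 536870912 1610612736 536870912 3) ndB3q0 ndB3q3 pcB3 Cut.none Ext.none)

def k0_mm_033 : ∃ t, chk3 f_mm_033 t 1 1 1 = true :=
  ⟨(l 5), by decide +kernel⟩

theorem c_mm_033 : CertB 0 536870912 1610612736 536870912 587336777 62277027 3 eng mog cd3q0 cd3q3 pd3 true false false .pnn 0 3 3
    ndB3q0 ndB3q3 pcB3 Cut.none Ext.none :=
  certB0 (fam := true) (s1 := false) (s2 := false) (a := 0) (b := 3) (c := 3) (cn := .pnn) (n1 := ndB3q0) (n2 := ndB3q3) (pc := pcB3) (cut := Cut.none) (xt := Ext.none) (P1 := 0) (W1 := 536870912) (P2 := 1610612736) (W2 := 536870912) (P3 := 587336777) (W3 := 62277027) (N0 := 3) (En := eng) (mo := mog) (C1 := cd3q0) (C2 := cd3q3) (C3 := pd3)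
    rfl k0_mm_033

noncomputable def f_mm_101 : ℕ → ℕ → ℕ → ℕ → Bool := onCell 536870912 536870912 0 536870912 587336777 62277027
    (rowB 3 eng mog cd3q1 cd3q0 pd1 0 true false false .npn 1 0 1 (qsf 536870912 536870912 0 536870912 1) ndB3q1 ndB3q0 pcB1 Cut.none Ext.none)

def k0_mm_101 : ∃ t, chk3 f_mm_101 t 1 1 1 = true :=
  ⟨(l 4), by decide +kernel⟩

theorem c_mm_101 : CertB 536870912 536870912 0 536870912 587336777 62277027 3 eng mog cd3q1 cd3q0 pd1 true false false .npn 1 0 1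
    ndB3q1 ndB3q0 pcB1 Cut.none Ext.none :=
  certB0 (fam := true) (s1 := false) (s2 := false) (a := 1) (b := 0) (c := 1) (cn := .npn) (n1 := ndB3q1) (n2 := ndB3q0) (pc := pcB1) (cut := Cut.none) (xt := Ext.none) (P1 := 536870912) (W1 := 536870912) (P2 := 0) (W2 := 536870912) (P3 := 587336777) (W3 := 62277027) (N0 := 3) (En := eng) (mo := mog) (C1 := cd3q1) (C2 := cd3q0) (C3 := pd1)
    rfl k0_mm_101

noncomputable def f_mm_102 : ℕ → ℕ → ℕ → ℕ → Bool := onCell 536870912 536870912 0 536870912 587336777 62277027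
    (rowB 3 eng mog cd3q1 cd3q0 pd2 0 true false false .npp 1 0 2 (qsf 536870912 536870912 0 536870912 2) ndB3q1 ndB3q0 pcB2 Cut.none Ext.none)

def k0_mm_102 : ∃ t, chk3 f_mm_102 t 1 1 1 = true :=
  ⟨(l 4), by decide +kernel⟩

theorem c_mm_102 : CertB 536870912 536870912 0 536870912 587336777 62277027 3 eng mog cd3q1 cd3q0 pd2 true false false .npp 1 0 2
    ndB3q1 ndB3q0 pcB2 Cut.none Ext.none :=
  certB0 (fam := true) (s1 := false) (s2 := false) (a := 1) (b := 0) (c := 2) (cn := .npp) (n1 := ndB3q1) (n2 := ndB3q0) (pc := pcB2) (cut := Cut.none) (xt := Ext.none) (P1 := 536870912) (W1 := 536870912) (P2 := 0) (W2 := 536870912) (P3 := 587336777) (W3 := 62277027) (N0 := 3) (En := eng) (mo := mog) (C1 := cd3q1) (C2 := cd3q0) (C3 := pd2)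
    rfl k0_mm_102

noncomputable def f_mm_112 : ℕ → ℕ → ℕ → ℕ → Bool := onCell 536870912 536870912 536870912 536870912 587336777 62277027
    (rowB 3 eng mog cd3q1 cd3q1 pd2 0 true false false .dn 1 1 2 (qsf 536870912 536870912 536870912 536870912 2) ndB3q1 ndB3q1 pcB2 Cut.none Ext.none)

def k0_mm_112 : ∃ t, chk3 f_mm_112 t 1 1 1 = true :=
  ⟨(l 4), by decide +kernel⟩

theorem c_mm_112 : CertB 536870912 536870912 536870912 536870912 587336777 62277027 3 eng mog cd3q1 cd3q1 pd2 true false false .dn 1 1 2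
    ndB3q1 ndB3q1 pcB2 Cut.none Ext.none :=
  certB0 (fam := true) (s1 := false) (s2 := false) (a := 1) (b := 1) (c := 2) (cn := .dn) (n1 := ndB3q1) (n2 := ndB3q1) (pc := pcB2) (cut := Cut.none) (xt := Ext.none) (P1 := 536870912) (W1 := 536870912) (P2 := 536870912) (W2 := 536870912) (P3 := 587336777) (W3 := 62277027) (N0 := 3) (En := eng) (mo := mog) (C1 := cd3q1) (C2 := cd3q1) (C3 := pd2)
    rfl k0_mm_112

noncomputable def f_mm_113 : ℕ → ℕ → ℕ → ℕ → Bool := onCell 536870912 536870912 536870912 536870912 587336777 62277027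
    (rowB 3 eng mog cd3q1 cd3q1 pd3 0 true false false .nn 1 1 3 (qsf 536870912 536870912 536870912 536870912 3) ndB3q1 ndB3q1 pcB3 Cut.none Ext.none)

def k0_mm_113 : ∃ t, chk3 f_mm_113 t 1 1 1 = true :=
  ⟨(l 4), by decide +kernel⟩

theorem c_mm_113 : CertB 536870912 536870912 536870912 536870912 587336777 62277027 3 eng mog cd3q1 cd3q1 pd3 true false false .nn 1 1 3
    ndB3q1 ndB3q1 pcB3 Cut.none Ext.none :=
  certB0 (fam := true) (s1 := false) (s2 := false) (a := 1) (b := 1) (c := 3) (cn := .nn) (n1 := ndB3q1) (n2 := ndB3q1) (pc := pcB3) (cut := Cut.none) (xt := Ext.none) (P1 := 536870912) (W1 := 536870912) (P2 := 536870912) (W2 := 536870912) (P3 := 587336777) (W3 := 62277027) (N0 := 3) (En := eng) (mo := mog) (C1 := cd3q1) (C2 := cd3q1) (C3 := pd3)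
    rfl k0_mm_113

noncomputable def f_mm_123_a : ℕ → ℕ → ℕ → ℕ → Bool := onCell 536870912 536870912 0 536870912 587336777 62277027
    (rowB 3 eng mog cd3q1 cd3q2a pd3 0 true false false .npn 1 2 3 (qsf 536870912 536870912 0 536870912 3) ndB3q1 ndB3q2a pcB3 Cut.none Ext.none)

def k0_mm_123_a : ∃ t, chk3 f_mm_123_a t 1 1 1 = true :=
  ⟨(l 4), by decide +kernel⟩

theorem c_mm_123_a : CertB 536870912 536870912 0 536870912 587336777 62277027 3 eng mog cd3q1 cd3q2a pd3 true false false .npn 1 2 3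
    ndB3q1 ndB3q2a pcB3 Cut.none Ext.none :=
  certB0 (fam := true) (s1 := false) (s2 := false) (a := 1) (b := 2) (c := 3) (cn := .npn) (n1 := ndB3q1) (n2 := ndB3q2a) (pc := pcB3) (cut := Cut.none) (xt := Ext.none) (P1 := 536870912) (W1 := 536870912) (P2 := 0) (W2 := 536870912) (P3 := 587336777) (W3 := 62277027) (N0 := 3) (En := eng) (mo := mog) (C1 := cd3q1) (C2 := cd3q2a) (C3 := pd3)
    rfl k0_mm_123_a

noncomputable def f_mm_123_b : ℕ → ℕ → ℕ → ℕ → Bool := onCell 536870912 536870912 1239849684 370763052 587336777 62277027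
    (rowB 3 eng mog cd3q1 cd3q2b pd3 0 true false false .npn 1 2 3 (qsf 536870912 536870912 1239849684 370763052 3) ndB3q1 ndB3q2b pcB3 Cut.none Ext.none)

def k0_mm_123_b : ∃ t, chk3 f_mm_123_b t 1 1 1 = true :=
  ⟨(l 4), by decide +kernel⟩

theorem c_mm_123_b : CertB 536870912 536870912 1239849684 370763052 587336777 62277027 3 eng mog cd3q1 cd3q2b pd3 true false false .npn 1 2 3
    ndB3q1 ndB3q2b pcB3 Cut.none Ext.none :=
  certB0 (fam := true) (s1 := false) (s2 := false) (a := 1) (b := 2) (c := 3) (cn := .npn) (n1 := ndB3q1) (n2 := ndB3q2b) (pc := pcB3) (cut := Cut.none) (xt := Ext.none) (P1 := 536870912) (W1 := 536870912) (P2 := 1239849684) (W2 := 370763052) (P3 := 587336777) (W3 := 62277027) (N0 := 3) (En := eng) (mo := mog) (C1 := cd3q1) (C2 := cd3q2b) (C3 := pd3)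
    rfl k0_mm_123_b

noncomputable def f_mm_133 : ℕ → ℕ → ℕ → ℕ → Bool := onCell 536870912 536870912 1610612736 536870912 587336777 62277027
    (rowB 3 eng mog cd3q1 cd3q3 pd3 0 true false false .dn 1 3 3 (qsf 536870912 536870912 1610612736 536870912 3) ndB3q1 ndB3q3 pcB3 Cut.none Ext.none)

def k0_mm_133 : ∃ t, chk3 f_mm_133 t 1 1 1 = true :=
  ⟨(l 4), by decide +kernel⟩

theorem c_mm_133 : CertB 536870912 536870912 1610612736 536870912 587336777 62277027 3 eng mog cd3q1 cd3q3 pd3 true false false .dn 1 3 3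
    ndB3q1 ndB3q3 pcB3 Cut.none Ext.none :=
  certB0 (fam := true) (s1 := false) (s2 := false) (a := 1) (b := 3) (c := 3) (cn := .dn) (n1 := ndB3q1) (n2 := ndB3q3) (pc := pcB3) (cut := Cut.none) (xt := Ext.none) (P1 := 536870912) (W1 := 536870912) (P2 := 1610612736) (W2 := 536870912) (P3 := 587336777) (W3 := 62277027) (N0 := 3) (En := eng) (mo := mog) (C1 := cd3q1) (C2 := cd3q3) (C3 := pd3)
    rfl k0_mm_133

end Pool.Agent.Strip051.G.I5470_6050.Tab.C.BA33

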