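import Pool.Agent.Strip051.G.I5470_6050.Tab

/-! # Certificates B14 (generated) -/

set_option linter.all false
set_option maxRecDepth 100000

namespace Pool.Agent.Strip051.G.I5470_6050.Tab.C.BA33

open Pool.Agent.Strip051.PB Pool.Agent.Strip051.PB.T
open Pool.Agent.Strip051.G.I5470_6050.Tab

noncomputable def cut_mm_202_a : Cut := Cut.of [[⟨0, 1, 0, 67108864⟩, ⟨1, 0, 0, 67108864⟩, ⟨2, 1, 0, 67108864⟩]]

noncomputable def f_mm_202_a : ℕ → ℕ → ℕ → ℕ → Bool := onCell 0 536870912 0 536870912 587336777 62277027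
    (rowB 3 eng mog cd3q2a cd3q0 pd2 0 true false false .pp 2 0 2 (qsf 0 536870912 0 536870912 2) ndB3q2a ndB3q0 pcB2 cut_mm_202_a Ext.none)

def k0_mm_202_a : ∃ t, chk3 f_mm_202_a t 1 1 1 = true :=
  ⟨(b (a (b (b (a (b (a (b (a (l 16457872) (l 16460448)) (l 16491192)) (b (a (l 16465312) (l 16472520)) (b (l 16561632) (l 16483808)))) (a (l 16508544) (b (l 16493104) (l 16505856)))) (b (b (a (a (l 16482144) (l 16494248)) (a (l 16508912) (l 16526224))) (a (a (l 16578240) (l 16548672)) (l 16530504))) (a (b (a (l 16507360) (l 16520120)) (l 16527520)) (b (a (l 16598256) (l 16595032)) (l 16558824))))) (a (b (a (l 16512000) (l 16525704)) (l 16545560)) (b (a (l 16569712) (l 16602112)) (a (l 16577008) (l 16610088))))) (b (a (b (l 16573624) (a (l 16597416) (l 4))) (l 4)) (a (l 4) (l 4)))) (b (a (b (b (a (a (b (l 16546240) (l 16559312)) (b (l 16589992) (l 16582192))) (b (a (b (l 16589736) (l 16597752)) (b (l 16637960) (l 16625784))) (a (l 16607776) (l 16636056))))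 (a (b (l 16585096) (a (l 16651344) (l 16653672))) (b (a (l 16622224) (l 16650888)) (a (l 16637816) (l 4))))) (a (a (b (l 16611408) (l 4)) (l 4)) (l 4))) (b (a (b (b (a (b (a (l 16639264) (l 16660408)) (l 16677616)) (b (a (b (l 6) (l 16653560)) (l 6)) (a (l 16681840) (l 16699432)))) (a (b (l 16663600) (l 16670752)) (b (a (l 16688528) (l 16706416)) (l 4)))) (b (a (l 16703696) (l 4)) (l 4))) (b (b (l 6) (l 4)) (l 4))) (l 4))) (l 4))) (l 4)), by decide +kernel⟩

theorem c_mm_202_a : CertB 0 536870912 0 536870912 587336777 62277027 3 eng mog cd3q2a cd3q0 pd2 true false false .pp 2 0 2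
    ndB3q2a ndB3q0 pcB2 cut_mm_202_a Ext.none :=
  certB0 (fam := true) (s1 := false) (s2 := false) (a := 2) (b := 0) (c := 2) (cn := .pp) (n1 := ndB3q2a) (n2 := ndB3q0) (pc := pcB2) (cut := cut_mm_202_a) (xt := Ext.none) (P1 := 0) (W1 := 536870912) (P2 := 0) (W2 := 536870912) (P3 := 587336777) (W3 := 62277027) (N0 := 3) (En := eng) (mo := mog) (C1 := cd3q2a) (C2 := cd3q0) (C3 := pd2)
    rfl k0_mm_202_a

noncomputable def cut_mm_202_b : Cut := Cut.of [[⟨0, 1, 0, 67108864⟩, ⟨1, 0, 0, 67108864⟩, ⟨2, 1, 0, 67108864⟩]]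

noncomputable def f_mm_202_b : ℕ → ℕ → ℕ → ℕ → Bool := onCell 1073741824 536870912 0 536870912 587336777 62277027
    (rowB 3 eng mog cd3q2b cd3q0 pd2 2 true false false .pp 2 0 2 (qsf 1239849684 370763052 0 536870912 2) ndB3q2b ndB3q0 pcB2 cut_mm_202_b Ext.none)

def k0_mm_202_b : ∃ t, chk3 f_mm_202_b t 1 1 1 = true :=
  ⟨(a (b (a (l 1) (b (a (b (a (b (a (l 1) (b (a (l 1) (l 16477608)) (l 1))) (l 1)) (b (a (b (a (l 16461976) (l 16446496)) (l 184179799159)) (b (l 16423280) (l 16464744))) (a (l 1) (l 206191525223)))) (l 1)) (b (a (b (a (l 16381336) (l 16359904)) (a (l 16496712) (l 16465952))) (b (l 16331616) (l 16418496))) (a (b (l 311418256727) (l 1)) (b (l 16630776) (l 333966877959))))) (l 1))) (l 1)) (a (b (b (a (b (b (l 16337168) (l 16359152)) (a (l 16475256) (l 16419040))) (b (a (l 16318560) (l 16152352)) (a (l 16347032) (l 16303056)))) (a (b (a (b (l 16596192) (l 1)) (l 82711449639)) (l 1)) (b (a (l 16540864) (l 16467560)) (a (l 308197081799)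 (l 4))))) (l 1)) (b (a (b (b (a (l 16117968) (l 16088840)) (a (l 16265704) (l 16236616))) (l 4)) (b (b (a (l 16068016) (l 16057472)) (l 4)) (l 4))) (l 4)))), by decide +kernel⟩

theorem c_mm_202_b : CertB 1239849684 370763052 0 536870912 587336777 62277027 3 eng mog cd3q2b cd3q0 pd2 true false false .pp 2 0 2
    ndB3q2b ndB3q0 pcB2 cut_mm_202_b Ext.none :=
  certB2 (fam := true) (s1 := false) (s2 := false) (a := 2) (b := 0) (c := 2) (cn := .pp) (n1 := ndB3q2b) (n2 := ndB3q0) (pc := pcB2) (cut := cut_mm_202_b) (xt := Ext.none) (P1 := 1239849684) (W1 := 370763052) (P2 := 0) (W2 := 536870912) (P3 := 587336777) (W3 := 62277027) (N0 := 3) (En := eng) (mo := mog) (C1 := cd3q2b) (C2 := cd3q0) (C3 := pd2)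
    rfl (fun _ => rfl) k0_mm_202_b

noncomputable def f_mm_203_a : ℕ → ℕ → ℕ → ℕ → Bool := onCell 0 536870912 1610612736 536870912 587336777 62277027
    (rowB 3 eng mog cd3q2a cd3q0 pd3 1 true false false .up 2 0 3 (qsf 0 536870912 0 536870912 3) ndB3q2a ndB3q0 pcB3 Cut.none Ext.none)

def k0_mm_203_a : ∃ t, chk3 f_mm_203_a t 1 1 1 = true :=
  ⟨(l 4), by decide +kernel⟩

theorem c_mm_203_a : CertB 0 536870912 0 536870912 587336777 62277027 3 eng mog cd3q2a cd3q0 pd3 true false false .up 2 0 3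
    ndB3q2a ndB3q0 pcB3 Cut.none Ext.none :=
  certB1 (fam := true) (s1 := false) (s2 := false) (a := 2) (b := 0) (c := 3) (cn := .up) (n1 := ndB3q2a) (n2 := ndB3q0) (pc := pcB3) (cut := Cut.none) (xt := Ext.none) (P1 := 0) (W1 := 536870912) (P2 := 0) (W2 := 536870912) (P3 := 587336777) (W3 := 62277027) (N0 := 3) (En := eng) (mo := mog) (C1 := cd3q2a) (C2 := cd3q0) (C3 := pd3)
    rfl (fun _ => rfl) k0_mm_203_a

noncomputable def f_mm_203_b : ℕ → ℕ → ℕ → ℕ → Bool := onCell 1239849684 370763052 1610612736 536870912 587336777 62277027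
    (rowB 3 eng mog cd3q2b cd3q0 pd3 1 true false false .up 2 0 3 (qsf 1239849684 370763052 0 536870912 3) ndB3q2b ndB3q0 pcB3 Cut.none Ext.none)

def k0_mm_203_b : ∃ t, chk3 f_mm_203_b t 1 1 1 = true :=
  ⟨(b (b (l 4) (l 4)) (l 4)), by decide +kernel⟩

theorem c_mm_203_b : CertB 1239849684 370763052 0 536870912 587336777 62277027 3 eng mog cd3q2b cd3q0 pd3 true false false .up 2 0 3
    ndB3q2b ndB3q0 pcB3 Cut.none Ext.none :=
  certB1 (fam := true) (s1 := false) (s2 := false) (a := 2) (b := 0) (c := 3) (cn := .up) (n1 := ndB3q2b) (n2 := ndB3q0) (pc := pcB3) (cut := Cut.none) (xt := Ext.none) (P1 := 1239849684) (W1 := 370763052) (P2 := 0) (W2 := 536870912) (P3 := 587336777) (W3 := 62277027) (N0 := 3) (En := eng) (mo := mog) (C1 := cd3q2b) (C2 := cd3q0) (C3 := pd3)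
    rfl (fun _ => rfl) k0_mm_203_b

noncomputable def f_mm_213_a : ℕ → ℕ → ℕ → ℕ → Bool := onCell 0 536870912 536870912 536870912 587336777 62277027
    (rowB 3 eng mog cd3q2a cd3q1 pd3 0 true false false .pnn 2 1 3 (qsf 0 536870912 536870912 536870912 3) ndB3q2a ndB3q1 pcB3 Cut.none Ext.none)

def k0_mm_213_a : ∃ t, chk3 f_mm_213_a t 1 1 1 = true :=
  ⟨(l 4), by decide +kernel⟩

theorem c_mm_213_a : CertB 0 536870912 536870912 536870912 587336777 62277027 3 eng mog cd3q2a cd3q1 pd3 true false false .pnn 2 1 3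
    ndB3q2a ndB3q1 pcB3 Cut.none Ext.none :=
  certB0 (fam := true) (s1 := false) (s2 := false) (a := 2) (b := 1) (c := 3) (cn := .pnn) (n1 := ndB3q2a) (n2 := ndB3q1) (pc := pcB3) (cut := Cut.none) (xt := Ext.none) (P1 := 0) (W1 := 536870912) (P2 := 536870912) (W2 := 536870912) (P3 := 587336777) (W3 := 62277027) (N0 := 3) (En := eng) (mo := mog) (C1 := cd3q2a) (C2 := cd3q1) (C3 := pd3)
    rfl k0_mm_213_a

noncomputable def f_mm_213_b : ℕ → ℕ → ℕ → ℕ → Bool := onCell 1239849684 370763052 536870912 536870912 587336777 62277027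
    (rowB 3 eng mog cd3q2b cd3q1 pd3 0 true false false .pnn 2 1 3 (qsf 1239849684 370763052 536870912 536870912 3) ndB3q2b ndB3q1 pcB3 Cut.none Ext.none)

def k0_mm_213_b : ∃ t, chk3 f_mm_213_b t 1 1 1 = true :=
  ⟨(l 4), by decide +kernel⟩

theorem c_mm_213_b : CertB 1239849684 370763052 536870912 536870912 587336777 62277027 3 eng mog cd3q2b cd3q1 pd3 true false false .pnn 2 1 3
    ndB3q2b ndB3q1 pcB3 Cut.none Ext.none :=
  certB0 (fam := true) (s1 := false) (s2 := false) (a := 2) (b := 1) (c := 3) (cn := .pnn) (n1 := ndB3q2b) (n2 := ndB3q1) (pc := pcB3) (cut := Cut.none) (xt := Ext.none) (P1 := 1239849684) (W1 := 370763052) (P2 := 536870912) (W2 := 536870912) (P3 := 587336777) (W3 := 62277027) (N0 := 3) (En := eng) (mo := mog) (C1 := cd3q2b) (C2 := cd3q1) (C3 := pd3)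
    rfl k0_mm_213_b

noncomputable def f_mm_303 : ℕ → ℕ → ℕ → ℕ → Bool := onCell 1610612736 536870912 0 536870912 587336777 62277027
    (rowB 3 eng mog cd3q3 cd3q0 pd3 0 true false false .npn 3 0 3 (qsf 1610612736 536870912 0 536870912 3) ndB3q3 ndB3q0 pcB3 Cut.none Ext.none)

def k0_mm_303 : ∃ t, chk3 f_mm_303 t 1 1 1 = true :=
  ⟨(a (b (b (l 4) (l 4)) (l 4)) (l 4)), by decide +kernel⟩

theorem c_mm_303 : CertB 1610612736 536870912 0 536870912 587336777 62277027 3 eng mog cd3q3 cd3q0 pd3 true false false .npn 3 0 3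
    ndB3q3 ndB3q0 pcB3 Cut.none Ext.none :=
  certB0 (fam := true) (s1 := false) (s2 := false) (a := 3) (b := 0) (c := 3) (cn := .npn) (n1 := ndB3q3) (n2 := ndB3q0) (pc := pcB3) (cut := Cut.none) (xt := Ext.none) (P1 := 1610612736) (W1 := 536870912) (P2 := 0) (W2 := 536870912) (P3 := 587336777) (W3 := 62277027) (N0 := 3) (En := eng) (mo := mog) (C1 := cd3q3) (C2 := cd3q0) (C3 := pd3)
    rfl k0_mm_303

noncomputable def f_mm_313 : ℕ → ℕ → ℕ → ℕ → Bool := onCell 1610612736 536870912 536870912 536870912 587336777 62277027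
    (rowB 3 eng mog cd3q3 cd3q1 pd3 0 true false false .dn 3 1 3 (qsf 1610612736 536870912 536870912 536870912 3) ndB3q3 ndB3q1 pcB3 Cut.none Ext.none)

def k0_mm_313 : ∃ t, chk3 f_mm_313 t 1 1 1 = true :=
  ⟨(l 4), by decide +kernel⟩

theorem c_mm_313 : CertB 1610612736 536870912 536870912 536870912 587336777 62277027 3 eng mog cd3q3 cd3q1 pd3 true false false .dn 3 1 3
    ndB3q3 ndB3q1 pcB3 Cut.none Ext.none :=
  certB0 (fam := true) (s1 := false) (s2 := false) (a := 3) (b := 1) (c := 3) (cn := .dn) (n1 := ndB3q3) (n2 := ndB3q1) (pc := pcB3) (cut := Cut.none) (xt := Ext.none) (P1 := 1610612736) (W1 := 536870912) (P2 := 536870912) (W2 := 536870912) (P3 := 587336777) (W3 := 62277027) (N0 := 3) (En := eng) (mo := mog) (C1 := cd3q3) (C2 := cd3q1) (C3 := pd3)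
    rfl k0_mm_313

end Pool.Agent.Strip051.G.I5470_6050.Tab.C.BA33

namespace Pool.Agent.Strip051.G.I5470_6050.Tab.C.BA34

open Pool.Agent.Strip051.PB Pool.Agent.Strip051.PB.T
open Pool.Agent.Strip051.G.I5470_6050.Tab

noncomputable def f_pp_001 : ℕ → ℕ → ℕ → ℕ → Bool := onCell 0 536870912 0 536870912 587336777 62277027
    (rowB 3 eng mog cd3q0 cd4q0 pd1 0 true true true .up 0 0 1 (qsf 0 536870912 0 536870912 1) ndB3q0 ndB4q0 pcB1 Cut.none Ext.none)

def k0_pp_001 : ∃ t, chk3 f_pp_001 t 1 1 1 = true :=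
  ⟨(l 4), by decide +kernel⟩

theorem c_pp_001 : CertB 0 536870912 0 536870912 587336777 62277027 3 eng mog cd3q0 cd4q0 pd1 true true true .up 0 0 1
    ndB3q0 ndB4q0 pcB1 Cut.none Ext.none :=
  certB0 (fam := true) (s1 := true) (s2 := true) (a := 0) (b := 0) (c := 1) (cn := .up) (n1 := ndB3q0) (n2 := ndB4q0) (pc := pcB1) (cut := Cut.none) (xt := Ext.none) (P1 := 0) (W1 := 536870912) (P2 := 0) (W2 := 536870912) (P3 := 587336777) (W3 := 62277027) (N0 := 3) (En := eng) (mo := mog) (C1 := cd3q0) (C2 := cd4q0) (C3 := pd1)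
    rfl k0_pp_001

noncomputable def f_pp_011 : ℕ → ℕ → ℕ → ℕ → Bool := onCell 0 536870912 536870912 536870912 587336777 62277027
    (rowB 3 eng mog cd3q0 cd4q1 pd1 0 true true true .pnn 0 1 1 (qsf 0 536870912 536870912 536870912 1) ndB3q0 ndB4q1 pcB1 Cut.none Ext.none)

def k0_pp_011 : ∃ t, chk3 f_pp_011 t 1 1 1 = true :=
  ⟨(l 4), by decide +kernel⟩

theorem c_pp_011 : CertB 0 536870912 536870912 536870912 587336777 62277027 3 eng mog cd3q0 cd4q1 pd1 true true true .pnn 0 1 1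
    ndB3q0 ndB4q1 pcB1 Cut.none Ext.none :=
  certB0 (fam := true) (s1 := true) (s2 := true) (a := 0) (b := 1) (c := 1) (cn := .pnn) (n1 := ndB3q0) (n2 := ndB4q1) (pc := pcB1) (cut := Cut.none) (xt := Ext.none) (P1 := 0) (W1 := 536870912) (P2 := 536870912) (W2 := 536870912) (P3 := 587336777) (W3 := 62277027) (N0 := 3) (En := eng) (mo := mog) (C1 := cd3q0) (C2 := cd4q1) (C3 := pd1)
    rfl k0_pp_011

noncomputable def f_pp_012 : ℕ → ℕ → ℕ → ℕ → Bool := onCell 0 536870912 536870912 536870912 587336777 62277027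
    (rowB 3 eng mog cd3q0 cd4q1 pd2 0 true true true .pnp 0 1 2 (qsf 0 536870912 536870912 536870912 2) ndB3q0 ndB4q1 pcB2 Cut.none Ext.none)

def k0_pp_012 : ∃ t, chk3 f_pp_012 t 1 1 1 = true :=
  ⟨(l 4), by decide +kernel⟩

theorem c_pp_012 : CertB 0 536870912 536870912 536870912 587336777 62277027 3 eng mog cd3q0 cd4q1 pd2 true true true .pnp 0 1 2
    ndB3q0 ndB4q1 pcB2 Cut.none Ext.none :=
  certB0 (fam := true) (s1 := true) (s2 := true) (a := 0) (b := 1) (c := 2) (cn := .pnp) (n1 := ndB3q0) (n2 := ndB4q1) (pc := pcB2) (cut := Cut.none) (xt := Ext.none) (P1 := 0) (W1 := 536870912) (P2 := 536870912) (W2 := 536870912) (P3 := 587336777) (W3 := 62277027) (N0 := 3) (En := eng) (mo := mog) (C1 := cd3q0) (C2 := cd4q1) (C3 := pd2)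
    rfl k0_pp_012

noncomputable def cut_pp_022_a : Cut := Cut.of [[⟨0, 0, 0, 67108864⟩, ⟨1, 1, 0, 67108864⟩, ⟨2, 1, 0, 67108864⟩]]

noncomputable def f_pp_022_a : ℕ → ℕ → ℕ → ℕ → Bool := onCell 0 536870912 0 536870912 587336777 62277027
    (rowB 3 eng mog cd3q0 cd4q2a pd2 0 true true true .pp 0 2 2 (qsf 0 536870912 0 536870912 2) ndB3q0 ndB4q2a pcB2 cut_pp_022_a Ext.none)

def k0_pp_022_a : ∃ t, chk3 f_pp_022_a t 1 1 1 = true :=
  ⟨(a (a (a (a (b (b (a (b (c (l 16548088) (l 16459560)) (l 16471280)) (b (l 16476352) (l 4))) (b (a (l 16490632) (l 4)) (l 4))) (b (l 4) (b (l 4) (b (l 4) (l 6))))) (b (l 4) (l 4))) (l 4)) (l 4)) (l 4)), by decide +kernel⟩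

theorem c_pp_022_a : CertB 0 536870912 0 536870912 587336777 62277027 3 eng mog cd3q0 cd4q2a pd2 true true true .pp 0 2 2
    ndB3q0 ndB4q2a pcB2 cut_pp_022_a Ext.none :=
  certB0 (fam := true) (s1 := true) (s2 := true) (a := 0) (b := 2) (c := 2) (cn := .pp) (n1 := ndB3q0) (n2 := ndB4q2a) (pc := pcB2) (cut := cut_pp_022_a) (xt := Ext.none) (P1 := 0) (W1 := 536870912) (P2 := 0) (W2 := 536870912) (P3 := 587336777) (W3 := 62277027) (N0 := 3) (En := eng) (mo := mog) (C1 := cd3q0) (C2 := cd4q2a) (C3 := pd2)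
    rfl k0_pp_022_a

noncomputable def cut_pp_022_b : Cut := Cut.of [[⟨0, 0, 0, 67108864⟩, ⟨1, 1, 0, 67108864⟩, ⟨2, 1, 0, 67108864⟩]]

noncomputable def f_pp_022_b : ℕ → ℕ → ℕ → ℕ → Bool := onCell 0 536870912 1239849684 370763052 587336777 62277027
    (rowB 3 eng mog cd3q0 cd4q2b pd2 0 true true true .pp 0 2 2 (qsf 0 536870912 1239849684 370763052 2) ndB3q0 ndB4q2b pcB2 cut_pp_022_b Ext.none)

def k0_pp_022_b : ∃ t, chk3 f_pp_022_b t 1 1 1 = true :=
  ⟨(a (b (a (b (a (a (b (a (b (a (a (l 16537504) (l 16520120)) (a (l 16523736) (l 16464440))) (l 16478792)) (b (l 16515344) (l 4))) (l 4)) (l 4)) (l 4)) (l 4)) (l 4)) (l 4)) (l 4)), by decide +kernel⟩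

theorem c_pp_022_b : CertB 0 536870912 1239849684 370763052 587336777 62277027 3 eng mog cd3q0 cd4q2b pd2 true true true .pp 0 2 2
    ndB3q0 ndB4q2b pcB2 cut_pp_022_b Ext.none :=
  certB0 (fam := true) (s1 := true) (s2 := true) (a := 0) (b := 2) (c := 2) (cn := .pp) (n1 := ndB3q0) (n2 := ndB4q2b) (pc := pcB2) (cut := cut_pp_022_b) (xt := Ext.none) (P1 := 0) (W1 := 536870912) (P2 := 1239849684) (W2 := 370763052) (P3 := 587336777) (W3 := 62277027) (N0 := 3) (En := eng) (mo := mog) (C1 := cd3q0) (C2 := cd4q2b) (C3 := pd2)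
    rfl k0_pp_022_b

noncomputable def f_pp_023_a : ℕ → ℕ → ℕ → ℕ → Bool := onCell 1610612736 536870912 0 536870912 587336777 62277027
    (rowB 3 eng mog cd3q0 cd4q2a pd3 2 true true true .up 0 2 3 (qsf 0 536870912 0 536870912 3) ndB3q0 ndB4q2a pcB3 Cut.none Ext.none)

def k0_pp_023_a : ∃ t, chk3 f_pp_023_a t 1 1 1 = true :=
  ⟨(l 4), by decide +kernel⟩

theorem c_pp_023_a : CertB 0 536870912 0 536870912 587336777 62277027 3 eng mog cd3q0 cd4q2a pd3 true true true .up 0 2 3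
    ndB3q0 ndB4q2a pcB3 Cut.none Ext.none :=
  certB2 (fam := true) (s1 := true) (s2 := true) (a := 0) (b := 2) (c := 3) (cn := .up) (n1 := ndB3q0) (n2 := ndB4q2a) (pc := pcB3) (cut := Cut.none) (xt := Ext.none) (P1 := 0) (W1 := 536870912) (P2 := 0) (W2 := 536870912) (P3 := 587336777) (W3 := 62277027) (N0 := 3) (En := eng) (mo := mog) (C1 := cd3q0) (C2 := cd4q2a) (C3 := pd3)
    rfl (fun _ => rfl) k0_pp_023_a

noncomputable def f_pp_023_b : ℕ → ℕ → ℕ → ℕ → Bool := onCell 1610612736 536870912 1239849684 370763052 587336777 62277027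
    (rowB 3 eng mog cd3q0 cd4q2b pd3 2 true true true .up 0 2 3 (qsf 0 536870912 1239849684 370763052 3) ndB3q0 ndB4q2b pcB3 Cut.none Ext.none)

def k0_pp_023_b : ∃ t, chk3 f_pp_023_b t 1 1 1 = true :=
  ⟨(l 4), by decide +kernel⟩

theorem c_pp_023_b : CertB 0 536870912 1239849684 370763052 587336777 62277027 3 eng mog cd3q0 cd4q2b pd3 true true true .up 0 2 3
    ndB3q0 ndB4q2b pcB3 Cut.none Ext.none :=
  certB2 (fam := true) (s1 := true) (s2 := true) (a := 0) (b := 2) (c := 3) (cn := .up) (n1 := ndB3q0) (n2 := ndB4q2b) (pc := pcB3) (cut := Cut.none) (xt := Ext.none) (P1 := 0) (W1 := 536870912) (P2 := 1239849684) (W2 := 370763052) (P3 := 587336777) (W3 := 62277027) (N0 := 3) (En := eng) (mo := mog) (C1 := cd3q0) (C2 := cd4q2b) (C3 := pd3)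
    rfl (fun _ => rfl) k0_pp_023_b

noncomputable def f_pp_033 : ℕ → ℕ → ℕ → ℕ → Bool := onCell 0 536870912 1610612736 536870912 587336777 62277027
    (rowB 3 eng mog cd3q0 cd4q3 pd3 0 true true true .pnn 0 3 3 (qsf 0 536870912 1610612736 536870912 3) ndB3q0 ndB4q3 pcB3 Cut.none Ext.none)

def k0_pp_033 : ∃ t, chk3 f_pp_033 t 1 1 1 = true :=
  ⟨(l 4), by decide +kernel⟩

theorem c_pp_033 : CertB 0 536870912 1610612736 536870912 587336777 62277027 3 eng mog cd3q0 cd4q3 pd3 true true true .pnn 0 3 3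
    ndB3q0 ndB4q3 pcB3 Cut.none Ext.none :=
  certB0 (fam := true) (s1 := true) (s2 := true) (a := 0) (b := 3) (c := 3) (cn := .pnn) (n1 := ndB3q0) (n2 := ndB4q3) (pc := pcB3) (cut := Cut.none) (xt := Ext.none) (P1 := 0) (W1 := 536870912) (P2 := 1610612736) (W2 := 536870912) (P3 := 587336777) (W3 := 62277027) (N0 := 3) (En := eng) (mo := mog) (C1 := cd3q0) (C2 := cd4q3) (C3 := pd3)
    rfl k0_pp_033

noncomputable def f_pp_101 : ℕ → ℕ → ℕ → ℕ → Bool := onCell 536870912 536870912 0 536870912 587336777 62277027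
    (rowB 3 eng mog cd3q1 cd4q0 pd1 0 true true true .npn 1 0 1 (qsf 536870912 536870912 0 536870912 1) ndB3q1 ndB4q0 pcB1 Cut.none Ext.none)

def k0_pp_101 : ∃ t, chk3 f_pp_101 t 1 1 1 = true :=
  ⟨(l 4), by decide +kernel⟩

theorem c_pp_101 : CertB 536870912 536870912 0 536870912 587336777 62277027 3 eng mog cd3q1 cd4q0 pd1 true true true .npn 1 0 1
    ndB3q1 ndB4q0 pcB1 Cut.none Ext.none :=
  certB0 (fam := true) (s1 := true) (s2 := true) (a := 1) (b := 0) (c := 1) (cn := .npn) (n1 := ndB3q1) (n2 := ndB4q0) (pc := pcB1) (cut := Cut.none) (xt := Ext.none) (P1 := 536870912) (W1 := 536870912) (P2 := 0) (W2 := 536870912) (P3 := 587336777) (W3 := 62277027) (N0 := 3) (En := eng) (mo := mog) (C1 := cd3q1) (C2 := cd4q0) (C3 := pd1)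
    rfl k0_pp_101

noncomputable def f_pp_102 : ℕ → ℕ → ℕ → ℕ → Bool := onCell 536870912 536870912 0 536870912 587336777 62277027
    (rowB 3 eng mog cd3q1 cd4q0 pd2 0 true true true .npp 1 0 2 (qsf 536870912 536870912 0 536870912 2) ndB3q1 ndB4q0 pcB2 Cut.none Ext.none)

def k0_pp_102 : ∃ t, chk3 f_pp_102 t 1 1 1 = true :=
  ⟨(l 4), by decide +kernel⟩

theorem c_pp_102 : CertB 536870912 536870912 0 536870912 587336777 62277027 3 eng mog cd3q1 cd4q0 pd2 true true true .npp 1 0 2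
    ndB3q1 ndB4q0 pcB2 Cut.none Ext.none :=
  certB0 (fam := true) (s1 := true) (s2 := true) (a := 1) (b := 0) (c := 2) (cn := .npp) (n1 := ndB3q1) (n2 := ndB4q0) (pc := pcB2) (cut := Cut.none) (xt := Ext.none) (P1 := 536870912) (W1 := 536870912) (P2 := 0) (W2 := 536870912) (P3 := 587336777) (W3 := 62277027) (N0 := 3) (En := eng) (mo := mog) (C1 := cd3q1) (C2 := cd4q0) (C3 := pd2)
    rfl k0_pp_102

noncomputable def f_pp_112 : ℕ → ℕ → ℕ → ℕ → Bool := onCell 536870912 536870912 536870912 536870912 587336777 62277027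
    (rowB 3 eng mog cd3q1 cd4q1 pd2 0 true true true .dn 1 1 2 (qsf 536870912 536870912 536870912 536870912 2) ndB3q1 ndB4q1 pcB2 Cut.none Ext.none)

def k0_pp_112 : ∃ t, chk3 f_pp_112 t 1 1 1 = true :=
  ⟨(l 4), by decide +kernel⟩

theorem c_pp_112 : CertB 536870912 536870912 536870912 536870912 587336777 62277027 3 eng mog cd3q1 cd4q1 pd2 true true true .dn 1 1 2
    ndB3q1 ndB4q1 pcB2 Cut.none Ext.none :=
  certB0 (fam := true) (s1 := true) (s2 := true) (a := 1) (b := 1) (c := 2) (cn := .dn) (n1 := ndB3q1) (n2 := ndB4q1) (pc := pcB2) (cut := Cut.none) (xt := Ext.none) (P1 := 536870912) (W1 := 536870912) (P2 := 536870912) (W2 := 536870912) (P3 := 587336777) (W3 := 62277027) (N0 := 3) (En := eng) (mo := mog) (C1 := cd3q1) (C2 := cd4q1) (C3 := pd2)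
    rfl k0_pp_112

noncomputable def f_pp_113 : ℕ → ℕ → ℕ → ℕ → Bool := onCell 536870912 536870912 536870912 536870912 587336777 62277027
    (rowB 3 eng mog cd3q1 cd4q1 pd3 0 true true true .nn 1 1 3 (qsf 536870912 536870912 536870912 536870912 3) ndB3q1 ndB4q1 pcB3 Cut.none Ext.none)

def k0_pp_113 : ∃ t, chk3 f_pp_113 t 1 1 1 = true :=
  ⟨(l 4), by decide +kernel⟩

theorem c_pp_113 : CertB 536870912 536870912 536870912 536870912 587336777 62277027 3 eng mog cd3q1 cd4q1 pd3 true true true .nn 1 1 3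
    ndB3q1 ndB4q1 pcB3 Cut.none Ext.none :=
  certB0 (fam := true) (s1 := true) (s2 := true) (a := 1) (b := 1) (c := 3) (cn := .nn) (n1 := ndB3q1) (n2 := ndB4q1) (pc := pcB3) (cut := Cut.none) (xt := Ext.none) (P1 := 536870912) (W1 := 536870912) (P2 := 536870912) (W2 := 536870912) (P3 := 587336777) (W3 := 62277027) (N0 := 3) (En := eng) (mo := mog) (C1 := cd3q1) (C2 := cd4q1) (C3 := pd3)
    rfl k0_pp_113

noncomputable def f_pp_123_a : ℕ → ℕ → ℕ → ℕ → Bool := onCell 536870912 536870912 0 536870912 587336777 62277027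
    (rowB 3 eng mog cd3q1 cd4q2a pd3 0 true true true .npn 1 2 3 (qsf 536870912 536870912 0 536870912 3) ndB3q1 ndB4q2a pcB3 Cut.none Ext.none)

def k0_pp_123_a : ∃ t, chk3 f_pp_123_a t 1 1 1 = true :=
  ⟨(l 4), by decide +kernel⟩

theorem c_pp_123_a : CertB 536870912 536870912 0 536870912 587336777 62277027 3 eng mog cd3q1 cd4q2a pd3 true true true .npn 1 2 3
    ndB3q1 ndB4q2a pcB3 Cut.none Ext.none :=
  certB0 (fam := true) (s1 := true) (s2 := true) (a := 1) (b := 2) (c := 3) (cn := .npn) (n1 := ndB3q1) (n2 := ndB4q2a) (pc := pcB3) (cut := Cut.none) (xt := Ext.none) (P1 := 536870912) (W1 := 536870912) (P2 := 0) (W2 := 536870912) (P3 := 587336777) (W3 := 62277027) (N0 := 3) (En := eng) (mo := mog) (C1 := cd3q1) (C2 := cd4q2a) (C3 := pd3)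
    rfl k0_pp_123_a

noncomputable def f_pp_123_b : ℕ → ℕ → ℕ → ℕ → Bool := onCell 536870912 536870912 1239849684 370763052 587336777 62277027
    (rowB 3 eng mog cd3q1 cd4q2b pd3 0 true true true .npn 1 2 3 (qsf 536870912 536870912 1239849684 370763052 3) ndB3q1 ndB4q2b pcB3 Cut.none Ext.none)

def k0_pp_123_b : ∃ t, chk3 f_pp_123_b t 1 1 1 = true :=
  ⟨(l 4), by decide +kernel⟩

theorem c_pp_123_b : CertB 536870912 536870912 1239849684 370763052 587336777 62277027 3 eng mog cd3q1 cd4q2b pd3 true true true .npn 1 2 3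
    ndB3q1 ndB4q2b pcB3 Cut.none Ext.none :=
  certB0 (fam := true) (s1 := true) (s2 := true) (a := 1) (b := 2) (c := 3) (cn := .npn) (n1 := ndB3q1) (n2 := ndB4q2b) (pc := pcB3) (cut := Cut.none) (xt := Ext.none) (P1 := 536870912) (W1 := 536870912) (P2 := 1239849684) (W2 := 370763052) (P3 := 587336777) (W3 := 62277027) (N0 := 3) (En := eng) (mo := mog) (C1 := cd3q1) (C2 := cd4q2b) (C3 := pd3)
    rfl k0_pp_123_b

noncomputable def f_pp_133 : ℕ → ℕ → ℕ → ℕ → Bool := onCell 536870912 536870912 1610612736 536870912 587336777 62277027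
    (rowB 3 eng mog cd3q1 cd4q3 pd3 0 true true true .dn 1 3 3 (qsf 536870912 536870912 1610612736 536870912 3) ndB3q1 ndB4q3 pcB3 Cut.none Ext.none)

def k0_pp_133 : ∃ t, chk3 f_pp_133 t 1 1 1 = true :=
  ⟨(l 4), by decide +kernel⟩

theorem c_pp_133 : CertB 536870912 536870912 1610612736 536870912 587336777 62277027 3 eng mog cd3q1 cd4q3 pd3 true true true .dn 1 3 3
    ndB3q1 ndB4q3 pcB3 Cut.none Ext.none :=
  certB0 (fam := true) (s1 := true) (s2 := true) (a := 1) (b := 3) (c := 3) (cn := .dn) (n1 := ndB3q1) (n2 := ndB4q3) (pc := pcB3) (cut := Cut.none) (xt := Ext.none) (P1 := 536870912) (W1 := 536870912) (P2 := 1610612736) (W2 := 536870912) (P3 := 587336777) (W3 := 62277027) (N0 := 3) (En := eng) (mo := mog) (C1 := cd3q1) (C2 := cd4q3) (C3 := pd3)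
    rfl k0_pp_133

noncomputable def f_pp_202_a : ℕ → ℕ → ℕ → ℕ → Bool := onCell 0 536870912 0 536870912 587336777 62277027
    (rowB 3 eng mog cd3q2a cd4q0 pd2 0 true true true .pp 2 0 2 (qsf 0 536870912 0 536870912 2) ndB3q2a ndB4q0 pcB2 Cut.none Ext.none)

def k0_pp_202_a : ∃ t, chk3 f_pp_202_a t 1 1 1 = true :=
  ⟨(l 5), by decide +kernel⟩

theorem c_pp_202_a : CertB 0 536870912 0 536870912 587336777 62277027 3 eng mog cd3q2a cd4q0 pd2 true true true .pp 2 0 2
    ndB3q2a ndB4q0 pcB2 Cut.none Ext.none :=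
  certB0 (fam := true) (s1 := true) (s2 := true) (a := 2) (b := 0) (c := 2) (cn := .pp) (n1 := ndB3q2a) (n2 := ndB4q0) (pc := pcB2) (cut := Cut.none) (xt := Ext.none) (P1 := 0) (W1 := 536870912) (P2 := 0) (W2 := 536870912) (P3 := 587336777) (W3 := 62277027) (N0 := 3) (En := eng) (mo := mog) (C1 := cd3q2a) (C2 := cd4q0) (C3 := pd2)
    rfl k0_pp_202_a

noncomputable def f_pp_202_b : ℕ → ℕ → ℕ → ℕ → Bool := onCell 1239849684 370763052 0 536870912 587336777 62277027
    (rowB 3 eng mog cd3q2b cd4q0 pd2 0 true true true .pp 2 0 2 (qsf 1239849684 370763052 0 536870912 2) ndB3q2b ndB4q0 pcB2 Cut.none Ext.none)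

def k0_pp_202_b : ∃ t, chk3 f_pp_202_b t 1 1 1 = true :=
  ⟨(l 5), by decide +kernel⟩

theorem c_pp_202_b : CertB 1239849684 370763052 0 536870912 587336777 62277027 3 eng mog cd3q2b cd4q0 pd2 true true true .pp 2 0 2
    ndB3q2b ndB4q0 pcB2 Cut.none Ext.none :=
  certB0 (fam := true) (s1 := true) (s2 := true) (a := 2) (b := 0) (c := 2) (cn := .pp) (n1 := ndB3q2b) (n2 := ndB4q0) (pc := pcB2) (cut := Cut.none) (xt := Ext.none) (P1 := 1239849684) (W1 := 370763052) (P2 := 0) (W2 := 536870912) (P3 := 587336777) (W3 := 62277027) (N0 := 3) (En := eng) (mo := mog) (C1 := cd3q2b) (C2 := cd4q0) (C3 := pd2)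
    rfl k0_pp_202_b

noncomputable def f_pp_203_a : ℕ → ℕ → ℕ → ℕ → Bool := onCell 0 536870912 0 536870912 587336777 62277027
    (rowB 3 eng mog cd3q2a cd4q0 pd3 0 true true true .up 2 0 3 (qsf 0 536870912 0 536870912 3) ndB3q2a ndB4q0 pcB3 Cut.none Ext.none)

def k0_pp_203_a : ∃ t, chk3 f_pp_203_a t 1 1 1 = true :=
  ⟨(l 5), by decide +kernel⟩

theorem c_pp_203_a : CertB 0 536870912 0 536870912 587336777 62277027 3 eng mog cd3q2a cd4q0 pd3 true true true .up 2 0 3
    ndB3q2a ndB4q0 pcB3 Cut.none Ext.none :=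
  certB0 (fam := true) (s1 := true) (s2 := true) (a := 2) (b := 0) (c := 3) (cn := .up) (n1 := ndB3q2a) (n2 := ndB4q0) (pc := pcB3) (cut := Cut.none) (xt := Ext.none) (P1 := 0) (W1 := 536870912) (P2 := 0) (W2 := 536870912) (P3 := 587336777) (W3 := 62277027) (N0 := 3) (En := eng) (mo := mog) (C1 := cd3q2a) (C2 := cd4q0) (C3 := pd3)
    rfl k0_pp_203_a

noncomputable def f_pp_203_b : ℕ → ℕ → ℕ → ℕ → Bool := onCell 1239849684 370763052 0 536870912 587336777 62277027
    (rowB 3 eng mog cd3q2b cd4q0 pd3 0 true true true .up 2 0 3 (qsf 1239849684 370763052 0 536870912 3) ndB3q2b ndB4q0 pcB3 Cut.none Ext.none)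

def k0_pp_203_b : ∃ t, chk3 f_pp_203_b t 1 1 1 = true :=
  ⟨(l 5), by decide +kernel⟩

theorem c_pp_203_b : CertB 1239849684 370763052 0 536870912 587336777 62277027 3 eng mog cd3q2b cd4q0 pd3 true true true .up 2 0 3
    ndB3q2b ndB4q0 pcB3 Cut.none Ext.none :=
  certB0 (fam := true) (s1 := true) (s2 := true) (a := 2) (b := 0) (c := 3) (cn := .up) (n1 := ndB3q2b) (n2 := ndB4q0) (pc := pcB3) (cut := Cut.none) (xt := Ext.none) (P1 := 1239849684) (W1 := 370763052) (P2 := 0) (W2 := 536870912) (P3 := 587336777) (W3 := 62277027) (N0 := 3) (En := eng) (mo := mog) (C1 := cd3q2b) (C2 := cd4q0) (C3 := pd3)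
    rfl k0_pp_203_b

noncomputable def f_pp_213_a : ℕ → ℕ → ℕ → ℕ → Bool := onCell 0 536870912 536870912 536870912 587336777 62277027
    (rowB 3 eng mog cd3q2a cd4q1 pd3 0 true true true .pnn 2 1 3 (qsf 0 536870912 536870912 536870912 3) ndB3q2a ndB4q1 pcB3 Cut.none Ext.none)

def k0_pp_213_a : ∃ t, chk3 f_pp_213_a t 1 1 1 = true :=
  ⟨(l 4), by decide +kernel⟩

theorem c_pp_213_a : CertB 0 536870912 536870912 536870912 587336777 62277027 3 eng mog cd3q2a cd4q1 pd3 true true true .pnn 2 1 3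
    ndB3q2a ndB4q1 pcB3 Cut.none Ext.none :=
  certB0 (fam := true) (s1 := true) (s2 := true) (a := 2) (b := 1) (c := 3) (cn := .pnn) (n1 := ndB3q2a) (n2 := ndB4q1) (pc := pcB3) (cut := Cut.none) (xt := Ext.none) (P1 := 0) (W1 := 536870912) (P2 := 536870912) (W2 := 536870912) (P3 := 587336777) (W3 := 62277027) (N0 := 3) (En := eng) (mo := mog) (C1 := cd3q2a) (C2 := cd4q1) (C3 := pd3)
    rfl k0_pp_213_a

noncomputable def f_pp_213_b : ℕ → ℕ → ℕ → ℕ → Bool := onCell 1239849684 370763052 536870912 536870912 587336777 62277027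
    (rowB 3 eng mog cd3q2b cd4q1 pd3 0 true true true .pnn 2 1 3 (qsf 1239849684 370763052 536870912 536870912 3) ndB3q2b ndB4q1 pcB3 Cut.none Ext.none)

def k0_pp_213_b : ∃ t, chk3 f_pp_213_b t 1 1 1 = true :=
  ⟨(l 4), by decide +kernel⟩

theorem c_pp_213_b : CertB 1239849684 370763052 536870912 536870912 587336777 62277027 3 eng mog cd3q2b cd4q1 pd3 true true true .pnn 2 1 3
    ndB3q2b ndB4q1 pcB3 Cut.none Ext.none :=
  certB0 (fam := true) (s1 := true) (s2 := true) (a := 2) (b := 1) (c := 3) (cn := .pnn) (n1 := ndB3q2b) (n2 := ndB4q1) (pc := pcB3) (cut := Cut.none) (xt := Ext.none) (P1 := 1239849684) (W1 := 370763052) (P2 := 536870912) (W2 := 536870912) (P3 := 587336777) (W3 := 62277027) (N0 := 3) (En := eng) (mo := mog) (C1 := cd3q2b) (C2 := cd4q1) (C3 := pd3)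
    rfl k0_pp_213_b

noncomputable def f_pp_303 : ℕ → ℕ → ℕ → ℕ → Bool := onCell 1610612736 536870912 0 536870912 587336777 62277027
    (rowB 3 eng mog cd3q3 cd4q0 pd3 0 true true true .npn 3 0 3 (qsf 1610612736 536870912 0 536870912 3) ndB3q3 ndB4q0 pcB3 Cut.none Ext.none)

def k0_pp_303 : ∃ t, chk3 f_pp_303 t 1 1 1 = true :=
  ⟨(l 5), by decide +kernel⟩

theorem c_pp_303 : CertB 1610612736 536870912 0 536870912 587336777 62277027 3 eng mog cd3q3 cd4q0 pd3 true true true .npn 3 0 3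
    ndB3q3 ndB4q0 pcB3 Cut.none Ext.none :=
  certB0 (fam := true) (s1 := true) (s2 := true) (a := 3) (b := 0) (c := 3) (cn := .npn) (n1 := ndB3q3) (n2 := ndB4q0) (pc := pcB3) (cut := Cut.none) (xt := Ext.none) (P1 := 1610612736) (W1 := 536870912) (P2 := 0) (W2 := 536870912) (P3 := 587336777) (W3 := 62277027) (N0 := 3) (En := eng) (mo := mog) (C1 := cd3q3) (C2 := cd4q0) (C3 := pd3)
    rfl k0_pp_303

noncomputable def f_pp_313 : ℕ → ℕ → ℕ → ℕ → Bool := onCell 1610612736 536870912 536870912 536870912 587336777 62277027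
    (rowB 3 eng mog cd3q3 cd4q1 pd3 0 true true true .dn 3 1 3 (qsf 1610612736 536870912 536870912 536870912 3) ndB3q3 ndB4q1 pcB3 Cut.none Ext.none)

def k0_pp_313 : ∃ t, chk3 f_pp_313 t 1 1 1 = true :=
  ⟨(l 4), by decide +kernel⟩

theorem c_pp_313 : CertB 1610612736 536870912 536870912 536870912 587336777 62277027 3 eng mog cd3q3 cd4q1 pd3 true true true .dn 3 1 3
    ndB3q3 ndB4q1 pcB3 Cut.none Ext.none :=
  certB0 (fam := true) (s1 := true) (s2 := true) (a := 3) (b := 1) (c := 3) (cn := .dn) (n1 := ndB3q3) (n2 := ndB4q1) (pc := pcB3) (cut := Cut.none) (xt := Ext.none) (P1 := 1610612736) (W1 := 536870912) (P2 := 536870912) (W2 := 536870912) (P3 := 587336777) (W3 := 62277027) (N0 := 3) (En := eng) (mo := mog) (C1 := cd3q3) (C2 := cd4q1) (C3 := pd3)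
    rfl k0_pp_313

noncomputable def f_pm_001 : ℕ → ℕ → ℕ → ℕ → Bool := onCell 0 536870912 0 536870912 587336777 62277027
    (rowB 3 eng mog cd3q0 cd4q0 pd1 0 true true false .up 0 0 1 (qsf 0 536870912 0 536870912 1) ndB3q0 ndB4q0 pcB1 Cut.none Ext.none)

def k0_pm_001 : ∃ t, chk3 f_pm_001 t 1 1 1 = true :=
  ⟨(l 3), by decide +kernel⟩

theorem c_pm_001 : CertB 0 536870912 0 536870912 587336777 62277027 3 eng mog cd3q0 cd4q0 pd1 true true false .up 0 0 1
    ndB3q0 ndB4q0 pcB1 Cut.none Ext.none :=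
  certB0 (fam := true) (s1 := true) (s2 := false) (a := 0) (b := 0) (c := 1) (cn := .up) (n1 := ndB3q0) (n2 := ndB4q0) (pc := pcB1) (cut := Cut.none) (xt := Ext.none) (P1 := 0) (W1 := 536870912) (P2 := 0) (W2 := 536870912) (P3 := 587336777) (W3 := 62277027) (N0 := 3) (En := eng) (mo := mog) (C1 := cd3q0) (C2 := cd4q0) (C3 := pd1)
    rfl k0_pm_001

noncomputable def f_pm_011 : ℕ → ℕ → ℕ → ℕ → Bool := onCell 0 536870912 536870912 536870912 587336777 62277027
    (rowB 3 eng mog cd3q0 cd4q1 pd1 1 true true false .pnn 0 1 1 (qsf 0 536870912 536870912 536870912 1) ndB3q0 ndB4q1 pcB1 Cut.none Ext.none)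

def k0_pm_011 : ∃ t, chk3 f_pm_011 t 1 1 1 = true :=
  ⟨(b (l 3) (l 3)), by decide +kernel⟩

theorem c_pm_011 : CertB 0 536870912 536870912 536870912 587336777 62277027 3 eng mog cd3q0 cd4q1 pd1 true true false .pnn 0 1 1
    ndB3q0 ndB4q1 pcB1 Cut.none Ext.none :=
  certB1 (fam := true) (s1 := true) (s2 := false) (a := 0) (b := 1) (c := 1) (cn := .pnn) (n1 := ndB3q0) (n2 := ndB4q1) (pc := pcB1) (cut := Cut.none) (xt := Ext.none) (P1 := 0) (W1 := 536870912) (P2 := 536870912) (W2 := 536870912) (P3 := 587336777) (W3 := 62277027) (N0 := 3) (En := eng) (mo := mog) (C1 := cd3q0) (C2 := cd4q1) (C3 := pd1)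
    rfl (fun _ => rfl) k0_pm_011

noncomputable def f_pm_012 : ℕ → ℕ → ℕ → ℕ → Bool := onCell 1073741824 536870912 536870912 536870912 587336777 62277027
    (rowB 3 eng mog cd3q0 cd4q1 pd2 2 true true false .pnp 0 1 2 (qsf 0 536870912 536870912 536870912 2) ndB3q0 ndB4q1 pcB2 Cut.none Ext.none)

def k0_pm_012 : ∃ t, chk3 f_pm_012 t 1 1 1 = true :=
  ⟨(a (a (a (l 3) (a (l 3) (a (b (l 3) (l 3)) (b (b (l 3) (l 3)) (b (b (l 16521384) (l 16497128)) (b (l 16480960) (b (l 16473328) (l 16555568)))))))) (a (a (a (b (b (l 16611288) (a (l 16559640) (l 16557632))) (b (b (a (l 16515912) (l 16510232)) (a (l 16486696) (l 16478160))) (b (a (l 16464640) (l 16452936)) (a (b (l 16451528) (l 16445808)) (l 16432928))))) (b (b (l 2) (a (l 16555272) (a (l 16557104) (a (l 16561600) (l 16564536))))) (a (b (b (l 16504648) (l 16470320)) (b (l 16442256) (b (l 16423592) (l 16413616)))) (b (a (b (l 16504592) (l 16467904)) (b (a (l 16507368) (l 16509760)) (a (l 16468992)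 (l 16470240)))) (a (b (l 16436784) (l 16408696)) (b (a (l 16435696) (l 16435296)) (a (l 16404616) (l 16423048)))))))) (b (b (l 2) (l 16565136)) (b (b (l 16503576) (l 16458704)) (b (l 16417536) (l 16439192))))) (b (b (l 2) (l 16571864)) (b (b (l 16496400) (l 16438840)) (b (l 16381952) (b (l 16335760) (l 16304280))))))) (b (a (b (l 2) (a (l 16601640) (l 2))) (l 2)) (a (b (b (l 16533208) (a (l 16442376) (l 16481704))) (b (a (l 16368408) (l 16394440)) (a (l 16283624) (l 16291000)))) (b (a (l 16599648) (l 2)) (a (l 16403944) (l 16499552)))))), by decide +kernel⟩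

theorem c_pm_012 : CertB 0 536870912 536870912 536870912 587336777 62277027 3 eng mog cd3q0 cd4q1 pd2 true true false .pnp 0 1 2
    ndB3q0 ndB4q1 pcB2 Cut.none Ext.none :=
  certB2 (fam := true) (s1 := true) (s2 := false) (a := 0) (b := 1) (c := 2) (cn := .pnp) (n1 := ndB3q0) (n2 := ndB4q1) (pc := pcB2) (cut := Cut.none) (xt := Ext.none) (P1 := 0) (W1 := 536870912) (P2 := 536870912) (W2 := 536870912) (P3 := 587336777) (W3 := 62277027) (N0 := 3) (En := eng) (mo := mog) (C1 := cd3q0) (C2 := cd4q1) (C3 := pd2)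
    rfl (fun _ => rfl) k0_pm_012

noncomputable def cut_pm_022_a : Cut := Cut.of [[⟨0, 0, 0, 67108864⟩, ⟨1, 1, 0, 67108864⟩, ⟨2, 1, 0, 67108864⟩]]

noncomputable def f_pm_022_a : ℕ → ℕ → ℕ → ℕ → Bool := onCell 1073741824 536870912 0 536870912 587336777 62277027
    (rowB 3 eng mog cd3q0 cd4q2a pd2 2 true true false .pp 0 2 2 (qsf 0 536870912 0 536870912 2) ndB3q0 ndB4q2a pcB2 cut_pm_022_a Ext.none)

def k0_pm_022_a : ∃ t, chk3 f_pm_022_a t 2 2 1 = true :=
  ⟨(a (a (l 1) (a (l 1) (b (l 1) (b (l 1) (a (l 1) (b (l 1) (a (l 1) (b (l 260952282231) (l 313565688247))))))))) (a (a (a (b (l 1) (b (a (l 1) (b (c (l 255583523351) (l 260415321415)) (a (l 281890248471) (l 338261692695)))) (b (a (a (l 260415388567) (l 320008103447)) (b (l 374768933015) (l 16499064))) (a (b (l 362957796071) (l 16514624)) (l 16508920))))) (b (a (b (l 1) (b (l 1) (c (l 290480116263) (l 300680665207)))) (a (b (l 1) (b (c (l 330745464295) (l 16449120)) (c (l 16475760) (l 16455584))))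 (b (a (b (c (l 1673996455607) (l 1564474721959)) (c (l 16488424) (l 16444760))) (a (a (a (b (c (l 16466088) (l 16442440)) (l 16456160)) (a (b (c (l 16466136) (l 16442432)) (l 16456168)) (b (c (b (l 16466032) (l 16466288)) (b (c (l 16448008) (l 16436088)) (l 16442704))) (c (l 16467600) (l 16444744))))) (b (c (l 16466192) (l 16442448)) (l 16456184))) (b (c (l 16466176) (l 16442544)) (l 16456208)))) (a (b (c (l 16470648) (l 16449168)) (l 16465576)) (b (a (c (l 16512656) (b (l 16447720) (l 16450368))) (l 16459928)) (c (l 16475392) (l 16455312))))))) (a (c (b (b (l 340409167783) (l 16491688)) (l 16507080)) (b (b (l 305512517863) (l 16474600)) (l 16493568))) (b (a (b (l 16473240) (l 16482280)) (a (l 16498440) (b (l 16472616) (l 16481328)))) (a (l 16498880) (a (l 16497984) (l 16497376))))))) (b (a (b (a (b (c (l 16466080) (l 16443120)) (l 16456288)) (l 16455720)) (a (b (l 16459808) (l 16465064)) (l 16462008))) (b (l 16455976) (l 16461160))) (b (a (b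 (l 16471384) (l 16479536)) (l 16472600)) (a (l 16494616) (l 16489248))))) (b (a (b (l 16456520) (l 16459432)) (l 16457200)) (a (b (l 16467992) (l 16481024)) (l 16466048))))), by decide +kernel⟩

def k1_pm_022_a : ∃ t, chk3 f_pm_022_a t 4 3 1 = true :=
  ⟨(a (b (l 1) (b (a (l 1) (a (b (l 1) (l 6)) (a (b (l 1) (l 6)) (b (b (l 1) (b (l 239477728247) (a (l 6) (l 16645616)))) (a (l 6) (b (l 16655272) (l 16668240))))))) (a (l 6) (a (l 6) (a (l 6) (a (l 6) (b (l 16684592) (l 16696088)))))))) (b (a (b (l 1) (a (b (l 1) (a (l 1) (b (l 214244692999) (a (l 250751962551) (l 295849113175))))) (b (a (b (l 1) (l 228203307895)) (b (l 247530633463) (l 299607158231))) (a (b (l 281353577015) (l 16607320)) (b (l 16592512) (l 16603328)))))) (b (a (b (a (l 1) (b (l 1) (l 235719405639))) (a (b (l 1) (l 269542347623)) (b (l 294775256535) (l 16555728)))) (b (a (b (l 273300386599) (l 328061231431)) (b (l 16524512) (l 16532480))) (a (l 16548224) (l 16545056)))) (a (b (a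 (b (l 320545098871) (l 16578464)) (l 16570064)) (a (l 16594016) (l 16589792))) (b (a (l 16566384) (l 16562488)) (l 16582968))))) (b (a (b (a (b (a (a (l 242162037031) (l 285111726215)) (a (l 16623896) (l 16621856))) (a (a (l 16650816) (l 16638168)) (l 16634856))) (b (a (l 16618712) (l 16614320)) (l 16627880))) (a (b (a (l 16651776) (l 16646944)) (l 16661768)) (l 16644128))) (b (a (l 16612608) (l 16600600)) (l 16679000))) (a (b (a (b (l 16670448) (l 16676544)) (l 16656848)) (a (b (l 16682304) (l 16687696)) (l 16668400))) (b (a (l 16641264) (l 16626952)) (a (l 16652920) (l 16638760))))))), by decide +kernel⟩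

def k2_pm_022_a : ∃ t, chk3 f_pm_022_a t 5 3 1 = true :=
  ⟨(a (b (a (a (b (b (a (l 16525872) (l 16522992)) (l 16539904)) (l 16651424)) (b (a (b (l 16519904) (l 16534272)) (a (l 16524640) (a (l 16523224) (l 16522280)))) (a (l 16557368) (b (l 16607352) (l 16558888))))) (a (b (l 16517944) (l 16544176)) (l 16648008))) (a (a (b (l 16594784) (b (l 16613912) (l 16625896))) (b (a (l 16585776) (a (l 16581536) (l 16589344))) (a (l 16611392) (a (l 16607256) (a (l 16605272) (l 16624960)))))) (b (b (l 16560016) (l 16573744)) (b (l 16586984) (l 16599792))))) (b (b (l 16488296) (l 16535488)) (b (a (l 16550424) (l 16538264)) (a (l 16578016) (l 16566400))))), by decide +kernel⟩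

def k3_pm_022_a : ∃ t, chk3 f_pm_022_a t 3 1 1 = true :=
  ⟨(b (a (a (b (l 16433280) (l 16471368)) (b (l 16447800) (l 16436240))) (a (l 16682112) (l 16441424))) (a (b (a (b (l 16469200) (l 16498880)) (l 16486072)) (a (b (l 16528048) (l 16578080)) (b (l 16526152) (l 16556784)))) (b (a (l 16487216) (l 16494184)) (a (l 16544280) (l 16552824))))), by decide +kernel⟩

theorem s4_pm_022_a : ∃ t, chk3 f_pm_022_a t 2 3 1 = true := ex3_a k1_pm_022_a k2_pm_022_a

theorem s5_pm_022_a : ∃ t, chk3 f_pm_022_a t 2 1 1 = true := ex3_b k0_pm_022_a s4_pm_022_a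

theorem s6_pm_022_a : ∃ t, chk3 f_pm_022_a t 1 1 1 = true := ex3_a s5_pm_022_a k3_pm_022_a

theorem c_pm_022_a : CertB 0 536870912 0 536870912 587336777 62277027 3 eng mog cd3q0 cd4q2a pd2 true true false .pp 0 2 2
    ndB3q0 ndB4q2a pcB2 cut_pm_022_a Ext.none :=
  certB2 (fam := true) (s1 := true) (s2 := false) (a := 0) (b := 2) (c := 2) (cn := .pp) (n1 := ndB3q0) (n2 := ndB4q2a) (pc := pcB2) (cut := cut_pm_022_a) (xt := Ext.none) (P1 := 0) (W1 := 536870912) (P2 := 0) (W2 := 536870912) (P3 := 587336777) (W3 := 62277027) (N0 := 3) (En := eng) (mo := mog) (C1 := cd3q0) (C2 := cd4q2a) (C3 := pd2)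
    rfl (fun _ => rfl) s6_pm_022_a

noncomputable def cut_pm_022_b : Cut := Cut.of [[⟨0, 0, 0, 67108864⟩, ⟨1, 1, 0, 67108864⟩, ⟨2, 1, 0, 67108864⟩]]

noncomputable def f_pm_022_b : ℕ → ℕ → ℕ → ℕ → Bool := onCell 0 536870912 1239849684 370763052 587336777 62277027
    (rowB 3 eng mog cd3q0 cd4q2b pd2 0 true true false .pp 0 2 2 (qsf 0 536870912 1239849684 370763052 2) ndB3q0 ndB4q2b pcB2 cut_pm_022_b Ext.none)

def k0_pm_022_b : ∃ t, chk3 f_pm_022_b t 1 1 1 = true :=
  ⟨(a (b (a (b (a (a (b (a (b (b (a (c (b (l 16461840) (l 16453608)) (a (a (b (l 16437272) (l 16427920)) (l 16432912)) (l 16433400))) (l 16467152)) (a (a (c (l 16441816) (b (l 16418960) (l 16410000))) (l 16428928)) (l 16430088))) (a (b (c (l 16428352) (l 16397728)) (c (l 16415872) (l 16381944))) (l 16408432))) (b (l 16439752) (l 16412136))) (a (b (a (c (b (l 16404600) (l 16394528)) (l 16360736)) (l 16383920)) (a (c (a (l 16380520) (l 16382672)) (l 16336944)) (l 16364216))) (b (l 16389320)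 (l 16371120)))) (b (a (l 16428960) (l 16432496)) (l 16391904))) (b (a (l 16437568) (l 16443696)) (a (l 16407744) (l 16424496)))) (a (a (a (b (b (a (c (l 16368312) (l 16318096)) (l 16349128)) (a (c (l 16360016) (l 16304160)) (l 16338928))) (b (a (c (l 16357984) (l 16295424)) (l 16334216)) (a (b (l 16326008) (l 16326760)) (l 16334624)))) (b (l 16352408) (b (l 16344960) (l 16348472)))) (b (a (l 16364200) (l 16376312)) (l 16373096))) (a (a (l 16392664) (l 16471448)) (l 16476568)))) (b (a (b (a (l 16450408) (l 16459624)) (l 16478344)) (b (l 16479792) (l 16506176))) (a (b (l 16474120) (l 16505568)) (l 16555416)))) (a (b (a (a (b (a (b (a (l 16333160) (l 16343888)) (l 16354296)) (l 16367816)) (a (b (l 16373232) (l 16387880)) (l 16404624))) (b (l 16400712) (l 16443400))) (b (l 16468256) (l 16512664))) (a (a (b (a (b (l 16405888) (l 16427648)) (l 16442616)) (l 16477064)) (l 16502320)) (l 16570408))) (b (a (l 16570976) (l 2)) (l 2)))) (b (a (b (a (l 16528112)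 (l 16557336)) (a (l 16613648) (l 2))) (l 2)) (l 2))), by decide +kernel⟩

theorem c_pm_022_b : CertB 0 536870912 1239849684 370763052 587336777 62277027 3 eng mog cd3q0 cd4q2b pd2 true true false .pp 0 2 2
    ndB3q0 ndB4q2b pcB2 cut_pm_022_b Ext.none :=
  certB0 (fam := true) (s1 := true) (s2 := false) (a := 0) (b := 2) (c := 2) (cn := .pp) (n1 := ndB3q0) (n2 := ndB4q2b) (pc := pcB2) (cut := cut_pm_022_b) (xt := Ext.none) (P1 := 0) (W1 := 536870912) (P2 := 1239849684) (W2 := 370763052) (P3 := 587336777) (W3 := 62277027) (N0 := 3) (En := eng) (mo := mog) (C1 := cd3q0) (C2 := cd4q2b) (C3 := pd2)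
    rfl k0_pm_022_b

noncomputable def f_pm_023_a : ℕ → ℕ → ℕ → ℕ → Bool := onCell 1610612736 536870912 0 536870912 587336777 62277027
    (rowB 3 eng mog cd3q0 cd4q2a pd3 2 true true false .up 0 2 3 (qsf 0 536870912 0 536870912 3) ndB3q0 ndB4q2a pcB3 Cut.none Ext.none)

def k0_pm_023_a : ∃ t, chk3 f_pm_023_a t 1 1 1 = true :=
  ⟨(a (a (a (b (a (l 16482248) (l 16570968)) (a (b (l 16527616) (a (l 16533048) (l 16643200))) (l 16657856))) (b (l 16629048) (b (l 16671272) (l 16756584)))) (a (b (l 16717024) (l 232566249079)) (b (l 2) (l 2)))) (l 2)), by decide +kernel⟩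

theorem c_pm_023_a : CertB 0 536870912 0 536870912 587336777 62277027 3 eng mog cd3q0 cd4q2a pd3 true true false .up 0 2 3
    ndB3q0 ndB4q2a pcB3 Cut.none Ext.none :=
  certB2 (fam := true) (s1 := true) (s2 := false) (a := 0) (b := 2) (c := 3) (cn := .up) (n1 := ndB3q0) (n2 := ndB4q2a) (pc := pcB3) (cut := Cut.none) (xt := Ext.none) (P1 := 0) (W1 := 536870912) (P2 := 0) (W2 := 536870912) (P3 := 587336777) (W3 := 62277027) (N0 := 3) (En := eng) (mo := mog) (C1 := cd3q0) (C2 := cd4q2a) (C3 := pd3)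
    rfl (fun _ => rfl) k0_pm_023_a

noncomputable def f_pm_023_b : ℕ → ℕ → ℕ → ℕ → Bool := onCell 1610612736 536870912 1239849684 370763052 587336777 62277027
    (rowB 3 eng mog cd3q0 cd4q2b pd3 2 true true false .up 0 2 3 (qsf 0 536870912 1239849684 370763052 3) ndB3q0 ndB4q2b pcB3 Cut.none Ext.none)

def k0_pm_023_b : ∃ t, chk3 f_pm_023_b t 1 1 1 = true :=
  ⟨(a (a (a (b (a (b (l 16535944) (l 16561592)) (l 16509192)) (a (b (l 16611224) (a (b (l 16536088) (l 16521208)) (l 16480392))) (b (l 16554256) (l 16493208)))) (b (b (l 16535744) (l 16597336)) (b (l 16604016) (l 16550408)))) (a (b (l 16708928) (b (l 16662176) (l 16619032))) (b (l 16699296) (l 16716752)))) (a (a (b (l 16733424) (l 16780000)) (b (l 16906464) (l 4))) (l 4))), by decide +kernel⟩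

theorem c_pm_023_b : CertB 0 536870912 1239849684 370763052 587336777 62277027 3 eng mog cd3q0 cd4q2b pd3 true true false .up 0 2 3
    ndB3q0 ndB4q2b pcB3 Cut.none Ext.none :=
  certB2 (fam := true) (s1 := true) (s2 := false) (a := 0) (b := 2) (c := 3) (cn := .up) (n1 := ndB3q0) (n2 := ndB4q2b) (pc := pcB3) (cut := Cut.none) (xt := Ext.none) (P1 := 0) (W1 := 536870912) (P2 := 1239849684) (W2 := 370763052) (P3 := 587336777) (W3 := 62277027) (N0 := 3) (En := eng) (mo := mog) (C1 := cd3q0) (C2 := cd4q2b) (C3 := pd3)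
    rfl (fun _ => rfl) k0_pm_023_b

noncomputable def f_pm_033 : ℕ → ℕ → ℕ → ℕ → Bool := onCell 0 536870912 1610612736 536870912 587336777 62277027
    (rowB 3 eng mog cd3q0 cd4q3 pd3 1 true true false .pnn 0 3 3 (qsf 0 536870912 1610612736 536870912 3) ndB3q0 ndB4q3 pcB3 Cut.none Ext.none)

def k0_pm_033 : ∃ t, chk3 f_pm_033 t 1 1 1 = true :=
  ⟨(b (b (a (b (a (b (a (b (l 16455648) (l 16381656)) (l 1)) (a (l 16366096) (l 16429992))) (l 1)) (a (b (l 16405176) (l 16420216)) (l 16532208))) (l 1)) (b (a (a (b (l 16440504) (l 16460776)) (l 16539424)) (l 1)) (a (a (a (l 16481464) (l 16521248)) (l 16587648)) (l 16814952)))) (b (a (b (a (b (l 16537144) (l 4)) (l 16627000)) (l 4)) (b (a (l 16710784) (l 1)) (a (l 4) (l 4)))) (l 4))), by decide +kernel⟩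

theorem c_pm_033 : CertB 0 536870912 1610612736 536870912 587336777 62277027 3 eng mog cd3q0 cd4q3 pd3 true true false .pnn 0 3 3
    ndB3q0 ndB4q3 pcB3 Cut.none Ext.none :=
  certB1 (fam := true) (s1 := true) (s2 := false) (a := 0) (b := 3) (c := 3) (cn := .pnn) (n1 := ndB3q0) (n2 := ndB4q3) (pc := pcB3) (cut := Cut.none) (xt := Ext.none) (P1 := 0) (W1 := 536870912) (P2 := 1610612736) (W2 := 536870912) (P3 := 587336777) (W3 := 62277027) (N0 := 3) (En := eng) (mo := mog) (C1 := cd3q0) (C2 := cd4q3) (C3 := pd3)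
    rfl (fun _ => rfl) k0_pm_033

noncomputable def f_pm_101 : ℕ → ℕ → ℕ → ℕ → Bool := onCell 536870912 536870912 0 536870912 587336777 62277027
    (rowB 3 eng mog cd3q1 cd4q0 pd1 2 true true false .npn 1 0 1 (qsf 536870912 536870912 0 536870912 1) ndB3q1 ndB4q0 pcB1 Cut.none Ext.none)

def k0_pm_101 : ∃ t, chk3 f_pm_101 t 1 1 1 = true :=
  ⟨(a (l 3) (l 3)), by decide +kernel⟩

theorem c_pm_101 : CertB 536870912 536870912 0 536870912 587336777 62277027 3 eng mog cd3q1 cd4q0 pd1 true true false .npn 1 0 1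
    ndB3q1 ndB4q0 pcB1 Cut.none Ext.none :=
  certB2 (fam := true) (s1 := true) (s2 := false) (a := 1) (b := 0) (c := 1) (cn := .npn) (n1 := ndB3q1) (n2 := ndB4q0) (pc := pcB1) (cut := Cut.none) (xt := Ext.none) (P1 := 536870912) (W1 := 536870912) (P2 := 0) (W2 := 536870912) (P3 := 587336777) (W3 := 62277027) (N0 := 3) (En := eng) (mo := mog) (C1 := cd3q1) (C2 := cd4q0) (C3 := pd1)
    rfl (fun _ => rfl) k0_pm_101

noncomputable def f_pm_102 : ℕ → ℕ → ℕ → ℕ → Bool := onCell 536870912 536870912 1073741824 536870912 587336777 62277027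
    (rowB 3 eng mog cd3q1 cd4q0 pd2 1 true true false .npp 1 0 2 (qsf 536870912 536870912 0 536870912 2) ndB3q1 ndB4q0 pcB2 Cut.none Ext.none)

def k0_pm_102 : ∃ t, chk3 f_pm_102 t 1 1 1 = true :=
  ⟨(b (b (a (a (l 3) (l 3)) (a (l 3) (l 3))) (b (b (b (a (a (l 16825424) (a (l 16685624) (b (l 16684928) (l 16683768)))) (a (a (b (l 16678920) (l 16675288)) (b (l 16659384) (b (l 16654824) (l 16652360)))) (a (b (l 16624568) (a (l 16627304) (l 16605472))) (b (a (l 16591360) (l 16569992)) (a (l 16582080) (l 16559528)))))) (a (a (l 2) (b (a (l 16685984) (l 16682352)) (b (l 16685744) (b (l 16686552) (a (l 16690544) (l 16681464)))))) (a (b (a (l 16672224) (l 16670008)) (b (a (l 16669568) (l 16644624)) (a (b (l 16667536) (a (l 16670264) (l 16659976))) (b (l 16641040) (a (c (l 16665576) (l 16626664)) (c (l 16647240) (l 16610920))))))) (b (a (b (l 16612152) (l 16608904)) (b (l 16563976) (l 16559464))) (a (b (l 16604496) (b (l 16600080) (b (b (b (l 16597784)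 (l 16596848)) (l 16596432)) (l 16595808)))) (b (l 16554480) (b (l 16550216) (a (c (l 16613992) (l 16652064)) (c (l 16545784) (l 16525824)))))))))) (a (a (l 2) (l 16686288)) (a (a (l 16659376) (l 16627808)) (a (l 16582792) (l 16529136))))) (a (a (l 2) (l 16686440)) (a (a (l 16647856) (l 16607608)) (a (l 16553376) (b (l 16500264) (l 16477336))))))) (a (b (a (l 2) (l 16701400)) (l 2)) (b (a (b (l 16620592) (l 16620736)) (b (a (l 16531464) (l 16452808)) (l 16477432))) (a (l 16661256) (b (l 16484776) (l 16536712)))))), by decide +kernel⟩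

theorem c_pm_102 : CertB 536870912 536870912 0 536870912 587336777 62277027 3 eng mog cd3q1 cd4q0 pd2 true true false .npp 1 0 2
    ndB3q1 ndB4q0 pcB2 Cut.none Ext.none :=
  certB1 (fam := true) (s1 := true) (s2 := false) (a := 1) (b := 0) (c := 2) (cn := .npp) (n1 := ndB3q1) (n2 := ndB4q0) (pc := pcB2) (cut := Cut.none) (xt := Ext.none) (P1 := 536870912) (W1 := 536870912) (P2 := 0) (W2 := 536870912) (P3 := 587336777) (W3 := 62277027) (N0 := 3) (En := eng) (mo := mog) (C1 := cd3q1) (C2 := cd4q0) (C3 := pd2)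
    rfl (fun _ => rfl) k0_pm_102

noncomputable def f_pm_112 : ℕ → ℕ → ℕ → ℕ → Bool := onCell 536870912 536870912 1073741824 536870912 587336777 62277027
    (rowB 3 eng mog cd3q1 cd4q1 pd2 1 true true false .dn 1 1 2 (qsf 536870912 536870912 536870912 536870912 2) ndB3q1 ndB4q1 pcB2 Cut.none Ext.none)

def k0_pm_112 : ∃ t, chk3 f_pm_112 t 1 1 1 = true :=
  ⟨(a (a (b (b (l 3) (b (b (b (b (l 16604328) (l 16603120)) (b (l 16600648) (b (l 16601160) (b (l 16603752) (l 16606208))))) (l 16603680)) (l 16597104))) (b (b (l 16595944) (l 16610320)) (l 16856920))) (b (b (l 3) (b (b (a (b (l 216392506839) (b (l 16622960) (b (l 16624432) (b (l 16626688) (l 16628728))))) (l 1)) (l 16632584)) (l 16639608))) (b (l 16681072) (l 16844640)))) (b (b (l 1) (b (l 1) (a (l 540125749847) (l 1)))) (b (a (l 212634713463) (l 578780520439)) (a (l 16858848) (l 16859624))))), by decide +kernel⟩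

theorem c_pm_112 : CertB 536870912 536870912 536870912 536870912 587336777 62277027 3 eng mog cd3q1 cd4q1 pd2 true true false .dn 1 1 2
    ndB3q1 ndB4q1 pcB2 Cut.none Ext.none :=
  certB1 (fam := true) (s1 := true) (s2 := false) (a := 1) (b := 1) (c := 2) (cn := .dn) (n1 := ndB3q1) (n2 := ndB4q1) (pc := pcB2) (cut := Cut.none) (xt := Ext.none) (P1 := 536870912) (W1 := 536870912) (P2 := 536870912) (W2 := 536870912) (P3 := 587336777) (W3 := 62277027) (N0 := 3) (En := eng) (mo := mog) (C1 := cd3q1) (C2 := cd4q1) (C3 := pd2)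
    rfl (fun _ => rfl) k0_pm_112

noncomputable def f_pm_113 : ℕ → ℕ → ℕ → ℕ → Bool := onCell 536870912 536870912 1610612736 536870912 587336777 62277027
    (rowB 3 eng mog cd3q1 cd4q1 pd3 1 true true false .nn 1 1 3 (qsf 536870912 536870912 536870912 536870912 3) ndB3q1 ndB4q1 pcB3 Cut.none Ext.none)

def k0_pm_113 : ∃ t, chk3 f_pm_113 t 1 1 1 = true :=
  ⟨(a (a (b (b (l 16723616) (l 233638823207)) (l 2)) (b (b (l 16983504) (b (l 16901584) (l 16853328))) (b (b (l 17042176) (l 2)) (l 2)))) (b (b (b (a (l 17222016) (l 17110984)) (b (l 17291824) (l 17221088))) (b (a (l 17043312) (l 17234424)) (l 17015768))) (a (b (l 16872272) (b (l 16901856) (l 2))) (b (l 16927400) (b (l 16806976) (b (l 16752616) (b (l 16721352) (l 4)))))))), by decide +kernel⟩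

theorem c_pm_113 : CertB 536870912 536870912 536870912 536870912 587336777 62277027 3 eng mog cd3q1 cd4q1 pd3 true true false .nn 1 1 3
    ndB3q1 ndB4q1 pcB3 Cut.none Ext.none :=
  certB1 (fam := true) (s1 := true) (s2 := false) (a := 1) (b := 1) (c := 3) (cn := .nn) (n1 := ndB3q1) (n2 := ndB4q1) (pc := pcB3) (cut := Cut.none) (xt := Ext.none) (P1 := 536870912) (W1 := 536870912) (P2 := 536870912) (W2 := 536870912) (P3 := 587336777) (W3 := 62277027) (N0 := 3) (En := eng) (mo := mog) (C1 := cd3q1) (C2 := cd4q1) (C3 := pd3)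
    rfl (fun _ => rfl) k0_pm_113

noncomputable def f_pm_123_a : ℕ → ℕ → ℕ → ℕ → Bool := onCell 1610612736 536870912 0 536870912 587336777 62277027
    (rowB 3 eng mog cd3q1 cd4q2a pd3 2 true true false .npn 1 2 3 (qsf 536870912 536870912 0 536870912 3) ndB3q1 ndB4q2a pcB3 Cut.none Ext.none)

def k0_pm_123_a : ∃ t, chk3 f_pm_123_a t 1 1 1 = true :=
  ⟨(b (a (a (a (l 1) (l 16784768)) (a (l 16865056) (l 16954560))) (a (a (l 16864352) (l 16866128)) (a (l 4) (l 4)))) (a (a (a (a (b (l 1) (a (l 16696352) (l 16802360))) (l 16811432)) (b (l 16828016) (l 16972168))) (a (a (l 16991080) (l 17013592)) (l 17065248))) (a (a (b (l 16937352) (l 16955448)) (a (l 17002456) (b (l 16826464) (l 16854560)))) (a (b (a (l 16785024) (l 4)) (a (l 16818176) (l 16594344))) (l 4))))), by decide +kernel⟩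

theorem c_pm_123_a : CertB 536870912 536870912 0 536870912 587336777 62277027 3 eng mog cd3q1 cd4q2a pd3 true true false .npn 1 2 3
    ndB3q1 ndB4q2a pcB3 Cut.none Ext.none :=
  certB2 (fam := true) (s1 := true) (s2 := false) (a := 1) (b := 2) (c := 3) (cn := .npn) (n1 := ndB3q1) (n2 := ndB4q2a) (pc := pcB3) (cut := Cut.none) (xt := Ext.none) (P1 := 536870912) (W1 := 536870912) (P2 := 0) (W2 := 536870912) (P3 := 587336777) (W3 := 62277027) (N0 := 3) (En := eng) (mo := mog) (C1 := cd3q1) (C2 := cd4q2a) (C3 := pd3)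
    rfl (fun _ => rfl) k0_pm_123_a

noncomputable def f_pm_123_b : ℕ → ℕ → ℕ → ℕ → Bool := onCell 1610612736 536870912 1239849684 370763052 587336777 62277027
    (rowB 3 eng mog cd3q1 cd4q2b pd3 2 true true false .npn 1 2 3 (qsf 536870912 536870912 1239849684 370763052 3) ndB3q1 ndB4q2b pcB3 Cut.none Ext.none)

def k0_pm_123_b : ∃ t, chk3 f_pm_123_b t 1 1 1 = true :=
  ⟨(a (a (l 1) (b (a (l 16777592) (l 16799280)) (l 1))) (a (a (b (l 16762200) (l 1)) (b (a (l 16755536) (l 4)) (l 4))) (l 4))), by decide +kernel⟩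

theorem c_pm_123_b : CertB 536870912 536870912 1239849684 370763052 587336777 62277027 3 eng mog cd3q1 cd4q2b pd3 true true false .npn 1 2 3
    ndB3q1 ndB4q2b pcB3 Cut.none Ext.none :=
  certB2 (fam := true) (s1 := true) (s2 := false) (a := 1) (b := 2) (c := 3) (cn := .npn) (n1 := ndB3q1) (n2 := ndB4q2b) (pc := pcB3) (cut := Cut.none) (xt := Ext.none) (P1 := 536870912) (W1 := 536870912) (P2 := 1239849684) (W2 := 370763052) (P3 := 587336777) (W3 := 62277027) (N0 := 3) (En := eng) (mo := mog) (C1 := cd3q1) (C2 := cd4q2b) (C3 := pd3)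
    rfl (fun _ => rfl) k0_pm_123_b

noncomputable def f_pm_133 : ℕ → ℕ → ℕ → ℕ → Bool := onCell 536870912 536870912 1610612736 536870912 587336777 62277027
    (rowB 3 eng mog cd3q1 cd4q3 pd3 0 true true false .dn 1 3 3 (qsf 536870912 536870912 1610612736 536870912 3) ndB3q1 ndB4q3 pcB3 Cut.none Ext.none)

def k0_pm_133 : ∃ t, chk3 f_pm_133 t 1 1 1 = true :=
  ⟨(l 4), by decide +kernel⟩

theorem c_pm_133 : CertB 536870912 536870912 1610612736 536870912 587336777 62277027 3 eng mog cd3q1 cd4q3 pd3 true true false .dn 1 3 3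
    ndB3q1 ndB4q3 pcB3 Cut.none Ext.none :=
  certB0 (fam := true) (s1 := true) (s2 := false) (a := 1) (b := 3) (c := 3) (cn := .dn) (n1 := ndB3q1) (n2 := ndB4q3) (pc := pcB3) (cut := Cut.none) (xt := Ext.none) (P1 := 536870912) (W1 := 536870912) (P2 := 1610612736) (W2 := 536870912) (P3 := 587336777) (W3 := 62277027) (N0 := 3) (En := eng) (mo := mog) (C1 := cd3q1) (C2 := cd4q3) (C3 := pd3)
    rfl k0_pm_133

noncomputable def cut_pm_202_a : Cut := Cut.of [[⟨0, 1, 0, 67108864⟩, ⟨1, 0, 0, 67108864⟩, ⟨2, 1, 0, 67108864⟩]]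

noncomputable def f_pm_202_a : ℕ → ℕ → ℕ → ℕ → Bool := onCell 0 536870912 1073741824 536870912 587336777 62277027
    (rowB 3 eng mog cd3q2a cd4q0 pd2 1 true true false .pp 2 0 2 (qsf 0 536870912 0 536870912 2) ndB3q2a ndB4q0 pcB2 cut_pm_202_a Ext.none)

def k0_pm_202_a : ∃ t, chk3 f_pm_202_a t 2 1 1 = true :=
  ⟨(b (a (b (l 1) (b (b (b (l 1) (b (a (l 1) (a (l 1) (l 497712269511))) (a (b (l 1) (a (l 16453696) (b (l 16455872) (l 16456264)))) (b (a (l 16460016) (l 16466904)) (b (a (l 16460528) (l 16467280)) (a (l 16460840) (l 16467504))))))) (b (a (b (a (l 16455024) (l 16457144)) (l 16457504)) (b (a (l 16461488) (l 16467920)) (a (l 16462136) (l 16468112)))) (a (l 16459552) (l 16466064)))) (b (a (l 16463640) (l 16467424)) (l 16471048)))) (b (b (l 1) (b (l 1) (a (l 1) (b (l 1) (a (l 1) (b (l 1) (a (l 484827452823) (l 548178227575)))))))) (b (b (b (a (b (l 1) (a (l 477848059751) (l 537440758327))) (a (b (b (l 484827430199) (l 500933550903)) (a (l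 16495280) (l 16502328))) (b (a (l 16509864) (l 16517992)) (l 16513704)))) (b (a (a (l 479995549591) (l 16486200)) (a (l 16498888) (l 16512984))) (a (b (a (l 16475760) (l 16486392)) (b (l 16481416) (l 16481456))) (b (l 16505664) (a (l 16498280) (l 16511400)))))) (a (b (b (a (l 16476208) (l 16486160)) (l 16480872)) (l 16479736)) (b (l 16503224) (l 16501416)))) (b (a (l 16479968) (l 16501904)) (l 16498096))))) (b (b (a (l 16497656) (l 16516544)) (a (b (l 16535456) (l 16558128)) (b (l 16545656) (l 16564096)))) (b (a (l 16595216) (l 16594424)) (a (l 16650536) (l 16645128))))), by decide +kernel⟩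

def k1_pm_202_a : ∃ t, chk3 f_pm_202_a t 3 4 1 = true :=
  ⟨(b (a (l 1) (b (a (l 1) (l 6)) (b (a (a (l 1) (l 6)) (l 6)) (b (a (a (l 1) (l 6)) (l 6)) (a (a (a (l 1) (b (a (l 1) (l 6)) (a (l 500396968135) (l 16656832)))) (a (b (l 6) (a (l 16653584) (l 16660840))) (l 16672632))) (a (l 16684128) (l 16692160))))))) (a (b (a (l 1) (b (a (l 1) (b (l 1) (a (b (l 1) (l 449394148599)) (b (l 496101966919) (l 504691898807))))) (a (b (a (l 1) (l 469258365911)) (a (l 474627027815) (b (l 481069487239) (l 16582432)))) (b (a (b (l 457447210919) (l 516503007447)) (l 16609368)) (a (l 16594944) (l 16607232)))))) (a (b (a (b (l 1) (a (l 1) (l 460668316423))) (b (a (l 1) (l 501470549031)) (a (l 528314071879) (l 554083896695)))) (a (b (a (l 502007357015) (l 523482202247)) (a (l 16526952) (l 16536112))) (b (a (l 16546552) (l 16556672)) (a (l 16545544) (l 16555192))))) (b (a (b (a (l 525092888695) (l 16581352)) (a (l 16568600) (l 16579600))) (b (a (l 16593024) (l 16604760))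 (l 16596408))) (a (b (l 16572336) (l 16570048)) (l 16588984))))) (a (b (b (a (a (b (b (a (l 1) (l 505765660695)) (a (l 513281837399) (l 16629728))) (b (l 16625224) (l 16624112))) (b (a (b (l 16637936) (l 16636744)) (l 16644432)) (b (l 16638960) (l 16637568)))) (a (b (l 16634040) (l 16651768)) (l 16662416))) (a (a (b (a (l 16619040) (l 16625536)) (l 16619608)) (l 16633328)) (l 16642600))) (a (b (l 16615264) (l 16602304)) (l 16636280))) (b (a (b (l 16685832) (l 16652816)) (b (l 16678040) (l 16660768))) (a (l 16630520) (l 16638808)))))), by decide +kernel⟩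

def k2_pm_202_a : ∃ t, chk3 f_pm_202_a t 3 5 1 = true :=
  ⟨(b (a (b (b (a (a (b (l 16530896) (l 16529768)) (l 16547816)) (l 16571952)) (a (b (l 16536480) (a (l 16526024) (l 16540632))) (b (l 16565608) (l 16562192)))) (a (l 16528944) (l 16558288))) (b (b (a (a (l 16591368) (l 16602856)) (l 16617728)) (a (b (l 16590688) (b (l 16587680) (l 16585976))) (b (l 16611048) (b (l 16608248) (l 16606656))))) (a (l 16579400) (l 16684792)))) (a (a (b (l 16526624) (l 16529664)) (b (l 16551184) (l 16552240))) (a (l 16573088) (l 16596984)))), by decide +kernel⟩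

def k3_pm_202_a : ∃ t, chk3 f_pm_202_a t 3 3 1 = true :=
  ⟨(b (a (b (a (l 16542344) (l 16562632)) (b (l 16576496) (l 16591664))) (b (a (l 16584560) (l 16614648)) (b (l 16625400) (l 16642016)))) (a (b (l 16617744) (l 16662560)) (b (l 16669752) (l 16712896)))), by decide +kernel⟩

theorem s4_pm_202_a : ∃ t, chk3 f_pm_202_a t 3 2 1 = true := ex3_b k1_pm_202_a k2_pm_202_a

theorem s5_pm_202_a : ∃ t, chk3 f_pm_202_a t 3 1 1 = true := ex3_b s4_pm_202_a k3_pm_202_a

theorem s6_pm_202_a : ∃ t, chk3 f_pm_202_a t 1 1 1 = true := ex3_a k0_pm_202_a s5_pm_202_a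

theorem c_pm_202_a : CertB 0 536870912 0 536870912 587336777 62277027 3 eng mog cd3q2a cd4q0 pd2 true true false .pp 2 0 2
    ndB3q2a ndB4q0 pcB2 cut_pm_202_a Ext.none :=
  certB1 (fam := true) (s1 := true) (s2 := false) (a := 2) (b := 0) (c := 2) (cn := .pp) (n1 := ndB3q2a) (n2 := ndB4q0) (pc := pcB2) (cut := cut_pm_202_a) (xt := Ext.none) (P1 := 0) (W1 := 536870912) (P2 := 0) (W2 := 536870912) (P3 := 587336777) (W3 := 62277027) (N0 := 3) (En := eng) (mo := mog) (C1 := cd3q2a) (C2 := cd4q0) (C3 := pd2)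
    rfl (fun _ => rfl) s6_pm_202_a

noncomputable def cut_pm_202_b : Cut := Cut.of [[⟨0, 1, 0, 67108864⟩, ⟨1, 0, 0, 67108864⟩, ⟨2, 1, 0, 67108864⟩]]

noncomputable def f_pm_202_b : ℕ → ℕ → ℕ → ℕ → Bool := onCell 1073741824 536870912 0 536870912 587336777 62277027
    (rowB 3 eng mog cd3q2b cd4q0 pd2 2 true true false .pp 2 0 2 (qsf 1239849684 370763052 0 536870912 2) ndB3q2b ndB4q0 pcB2 cut_pm_202_b Ext.none)

def k0_pm_202_b : ∃ t, chk3 f_pm_202_b t 1 1 1 = true :=
  ⟨(a (b (a (l 1) (b (a (b (b (b (a (b (a (l 1) (l 16473640)) (l 1)) (a (b (l 16444008) (l 16460472)) (l 16423808))) (a (l 1) (a (l 16505704) (l 16455704)))) (a (l 1) (a (l 1) (l 16502608)))) (l 1)) (a (b (b (b (l 16385632) (l 16416520)) (l 16503008)) (l 373158439223)) (b (b (b (l 16342072) (l 16371368)) (l 16414280)) (b (l 16466240) (l 387117035047))))) (l 1))) (l 1)) (a (b (b (b (b (a (a (l 16320176) (l 16290520)) (a (l 16268416) (l 16264560))) (a (l 16357352) (l 16310448))) (a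 (a (l 16552936) (l 16413184)) (a (l 16384672) (l 16372408)))) (a (b (b (l 380674488567) (l 375305962023)) (l 1)) (b (a (l 249141247335) (l 16438496)) (a (l 457984154727) (l 475700728519))))) (l 1)) (b (b (b (a (b (l 16280032) (l 16314592)) (l 16341088)) (a (l 16371336) (l 16393760))) (a (b (l 16439840) (a (l 16547344) (l 16475912))) (b (l 16455088) (l 16499928)))) (b (a (b (a (l 587906838359) (l 380137861319)) (l 1)) (b (l 16581064) (l 526704142343))) (l 1))))), by decide +kernel⟩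

theorem c_pm_202_b : CertB 1239849684 370763052 0 536870912 587336777 62277027 3 eng mog cd3q2b cd4q0 pd2 true true false .pp 2 0 2
    ndB3q2b ndB4q0 pcB2 cut_pm_202_b Ext.none :=
  certB2 (fam := true) (s1 := true) (s2 := false) (a := 2) (b := 0) (c := 2) (cn := .pp) (n1 := ndB3q2b) (n2 := ndB4q0) (pc := pcB2) (cut := cut_pm_202_b) (xt := Ext.none) (P1 := 1239849684) (W1 := 370763052) (P2 := 0) (W2 := 536870912) (P3 := 587336777) (W3 := 62277027) (N0 := 3) (En := eng) (mo := mog) (C1 := cd3q2b) (C2 := cd4q0) (C3 := pd2)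
    rfl (fun _ => rfl) k0_pm_202_b

noncomputable def f_pm_203_a : ℕ → ℕ → ℕ → ℕ → Bool := onCell 0 536870912 1610612736 536870912 587336777 62277027
    (rowB 3 eng mog cd3q2a cd4q0 pd3 1 true true false .up 2 0 3 (qsf 0 536870912 0 536870912 3) ndB3q2a ndB4q0 pcB3 Cut.none Ext.none)

def k0_pm_203_a : ∃ t, chk3 f_pm_203_a t 1 1 1 = true :=
  ⟨(b (b (b (a (b (l 16701872) (l 16746784)) (a (l 16731776) (l 16847128))) (a (l 16787440) (a (l 16828432) (l 16920992)))) (b (a (l 16837720) (l 16902768)) (a (l 2) (l 2)))) (l 2)), by decide +kernel⟩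

theorem c_pm_203_a : CertB 0 536870912 0 536870912 587336777 62277027 3 eng mog cd3q2a cd4q0 pd3 true true false .up 2 0 3
    ndB3q2a ndB4q0 pcB3 Cut.none Ext.none :=
  certB1 (fam := true) (s1 := true) (s2 := false) (a := 2) (b := 0) (c := 3) (cn := .up) (n1 := ndB3q2a) (n2 := ndB4q0) (pc := pcB3) (cut := Cut.none) (xt := Ext.none) (P1 := 0) (W1 := 536870912) (P2 := 0) (W2 := 536870912) (P3 := 587336777) (W3 := 62277027) (N0 := 3) (En := eng) (mo := mog) (C1 := cd3q2a) (C2 := cd4q0) (C3 := pd3)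
    rfl (fun _ => rfl) k0_pm_203_a

noncomputable def f_pm_203_b : ℕ → ℕ → ℕ → ℕ → Bool := onCell 1239849684 370763052 1610612736 536870912 587336777 62277027
    (rowB 3 eng mog cd3q2b cd4q0 pd3 1 true true false .up 2 0 3 (qsf 1239849684 370763052 0 536870912 3) ndB3q2b ndB4q0 pcB3 Cut.none Ext.none)

def k0_pm_203_b : ∃ t, chk3 f_pm_203_b t 1 1 1 = true :=
  ⟨(b (b (b (a (a (b (l 16621976) (l 16680384)) (l 16529072)) (a (l 16479816) (b (a (l 16412200) (l 16390448)) (l 16417984)))) (a (a (l 16739784) (l 16561776)) (a (l 16533240) (l 16467576)))) (a (l 4) (b (a (l 16623008) (l 16571888)) (l 4)))) (l 4)), by decide +kernel⟩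

theorem c_pm_203_b : CertB 1239849684 370763052 0 536870912 587336777 62277027 3 eng mog cd3q2b cd4q0 pd3 true true false .up 2 0 3
    ndB3q2b ndB4q0 pcB3 Cut.none Ext.none :=
  certB1 (fam := true) (s1 := true) (s2 := false) (a := 2) (b := 0) (c := 3) (cn := .up) (n1 := ndB3q2b) (n2 := ndB4q0) (pc := pcB3) (cut := Cut.none) (xt := Ext.none) (P1 := 1239849684) (W1 := 370763052) (P2 := 0) (W2 := 536870912) (P3 := 587336777) (W3 := 62277027) (N0 := 3) (En := eng) (mo := mog) (C1 := cd3q2b) (C2 := cd4q0) (C3 := pd3)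
    rfl (fun _ => rfl) k0_pm_203_b

noncomputable def f_pm_213_a : ℕ → ℕ → ℕ → ℕ → Bool := onCell 0 536870912 1610612736 536870912 587336777 62277027
    (rowB 3 eng mog cd3q2a cd4q1 pd3 1 true true false .pnn 2 1 3 (qsf 0 536870912 536870912 536870912 3) ndB3q2a ndB4q1 pcB3 Cut.none Ext.none)

def k0_pm_213_a : ∃ t, chk3 f_pm_213_a t 1 1 1 = true :=
  ⟨(a (b (b (b (l 1) (l 597571338759)) (b (l 62511513335) (l 4))) (l 4)) (b (b (b (b (l 184181059063) (l 16963472)) (a (l 16874224) (l 16957968))) (b (l 16902792) (l 16781752))) (b (b (a (l 4) (l 16752968)) (l 4)) (l 4)))), by decide +kernel⟩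

theorem c_pm_213_a : CertB 0 536870912 536870912 536870912 587336777 62277027 3 eng mog cd3q2a cd4q1 pd3 true true false .pnn 2 1 3
    ndB3q2a ndB4q1 pcB3 Cut.none Ext.none :=
  certB1 (fam := true) (s1 := true) (s2 := false) (a := 2) (b := 1) (c := 3) (cn := .pnn) (n1 := ndB3q2a) (n2 := ndB4q1) (pc := pcB3) (cut := Cut.none) (xt := Ext.none) (P1 := 0) (W1 := 536870912) (P2 := 536870912) (W2 := 536870912) (P3 := 587336777) (W3 := 62277027) (N0 := 3) (En := eng) (mo := mog) (C1 := cd3q2a) (C2 := cd4q1) (C3 := pd3)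
    rfl (fun _ => rfl) k0_pm_213_a

noncomputable def f_pm_213_b : ℕ → ℕ → ℕ → ℕ → Bool := onCell 1239849684 370763052 536870912 536870912 587336777 62277027
    (rowB 3 eng mog cd3q2b cd4q1 pd3 0 true true false .pnn 2 1 3 (qsf 1239849684 370763052 536870912 536870912 3) ndB3q2b ndB4q1 pcB3 Cut.none Ext.none)

def k0_pm_213_b : ∃ t, chk3 f_pm_213_b t 1 1 1 = true :=
  ⟨(l 4), by decide +kernel⟩

theorem c_pm_213_b : CertB 1239849684 370763052 536870912 536870912 587336777 62277027 3 eng mog cd3q2b cd4q1 pd3 true true false .pnn 2 1 3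
    ndB3q2b ndB4q1 pcB3 Cut.none Ext.none :=
  certB0 (fam := true) (s1 := true) (s2 := false) (a := 2) (b := 1) (c := 3) (cn := .pnn) (n1 := ndB3q2b) (n2 := ndB4q1) (pc := pcB3) (cut := Cut.none) (xt := Ext.none) (P1 := 1239849684) (W1 := 370763052) (P2 := 536870912) (W2 := 536870912) (P3 := 587336777) (W3 := 62277027) (N0 := 3) (En := eng) (mo := mog) (C1 := cd3q2b) (C2 := cd4q1) (C3 := pd3)
    rfl k0_pm_213_b

noncomputable def f_pm_303 : ℕ → ℕ → ℕ → ℕ → Bool := onCell 1610612736 536870912 0 536870912 587336777 62277027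
    (rowB 3 eng mog cd3q3 cd4q0 pd3 2 true true false .npn 3 0 3 (qsf 1610612736 536870912 0 536870912 3) ndB3q3 ndB4q0 pcB3 Cut.none Ext.none)

def k0_pm_303 : ∃ t, chk3 f_pm_303 t 1 1 1 = true :=
  ⟨(a (a (b (a (b (b (a (l 16324336) (l 16301816)) (l 16382824)) (l 1)) (b (b (l 16313992) (l 16363096)) (l 16474656))) (l 1)) (b (a (b (b (l 16395224) (l 16439112)) (l 16516912)) (b (a (l 16480728) (l 16514808)) (l 4))) (l 4))) (a (l 4) (l 4))), by decide +kernel⟩

theorem c_pm_303 : CertB 1610612736 536870912 0 536870912 587336777 62277027 3 eng mog cd3q3 cd4q0 pd3 true true false .npn 3 0 3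
    ndB3q3 ndB4q0 pcB3 Cut.none Ext.none :=
  certB2 (fam := true) (s1 := true) (s2 := false) (a := 3) (b := 0) (c := 3) (cn := .npn) (n1 := ndB3q3) (n2 := ndB4q0) (pc := pcB3) (cut := Cut.none) (xt := Ext.none) (P1 := 1610612736) (W1 := 536870912) (P2 := 0) (W2 := 536870912) (P3 := 587336777) (W3 := 62277027) (N0 := 3) (En := eng) (mo := mog) (C1 := cd3q3) (C2 := cd4q0) (C3 := pd3)
    rfl (fun _ => rfl) k0_pm_303

noncomputable def f_pm_313 : ℕ → ℕ → ℕ → ℕ → Bool := onCell 1610612736 536870912 536870912 536870912 587336777 62277027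
    (rowB 3 eng mog cd3q3 cd4q1 pd3 0 true true false .dn 3 1 3 (qsf 1610612736 536870912 536870912 536870912 3) ndB3q3 ndB4q1 pcB3 Cut.none Ext.none)

def k0_pm_313 : ∃ t, chk3 f_pm_313 t 1 1 1 = true :=
  ⟨(l 4), by decide +kernel⟩

theorem c_pm_313 : CertB 1610612736 536870912 536870912 536870912 587336777 62277027 3 eng mog cd3q3 cd4q1 pd3 true true false .dn 3 1 3
    ndB3q3 ndB4q1 pcB3 Cut.none Ext.none :=
  certB0 (fam := true) (s1 := true) (s2 := false) (a := 3) (b := 1) (c := 3) (cn := .dn) (n1 := ndB3q3) (n2 := ndB4q1) (pc := pcB3) (cut := Cut.none) (xt := Ext.none) (P1 := 1610612736) (W1 := 536870912) (P2 := 536870912) (W2 := 536870912) (P3 := 587336777) (W3 := 62277027) (N0 := 3) (En := eng) (mo := mog) (C1 := cd3q3) (C2 := cd4q1) (C3 := pd3)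
    rfl k0_pm_313

noncomputable def f_mm_001 : ℕ → ℕ → ℕ → ℕ → Bool := onCell 0 536870912 0 536870912 587336777 62277027
    (rowB 3 eng mog cd3q0 cd4q0 pd1 0 true false false .up 0 0 1 (qsf 0 536870912 0 536870912 1) ndB3q0 ndB4q0 pcB1 Cut.none Ext.none)

def k0_mm_001 : ∃ t, chk3 f_mm_001 t 1 1 1 = true :=
  ⟨(l 4), by decide +kernel⟩

theorem c_mm_001 : CertB 0 536870912 0 536870912 587336777 62277027 3 eng mog cd3q0 cd4q0 pd1 true false false .up 0 0 1
    ndB3q0 ndB4q0 pcB1 Cut.none Ext.none :=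
  certB0 (fam := true) (s1 := false) (s2 := false) (a := 0) (b := 0) (c := 1) (cn := .up) (n1 := ndB3q0) (n2 := ndB4q0) (pc := pcB1) (cut := Cut.none) (xt := Ext.none) (P1 := 0) (W1 := 536870912) (P2 := 0) (W2 := 536870912) (P3 := 587336777) (W3 := 62277027) (N0 := 3) (En := eng) (mo := mog) (C1 := cd3q0) (C2 := cd4q0) (C3 := pd1)
    rfl k0_mm_001

noncomputable def f_mm_011 : ℕ → ℕ → ℕ → ℕ → Bool := onCell 0 536870912 536870912 536870912 587336777 62277027
    (rowB 3 eng mog cd3q0 cd4q1 pd1 0 true false false .pnn 0 1 1 (qsf 0 536870912 536870912 536870912 1) ndB3q0 ndB4q1 pcB1 Cut.none Ext.none)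

def k0_mm_011 : ∃ t, chk3 f_mm_011 t 1 1 1 = true :=
  ⟨(l 4), by decide +kernel⟩

theorem c_mm_011 : CertB 0 536870912 536870912 536870912 587336777 62277027 3 eng mog cd3q0 cd4q1 pd1 true false false .pnn 0 1 1
    ndB3q0 ndB4q1 pcB1 Cut.none Ext.none :=
  certB0 (fam := true) (s1 := false) (s2 := false) (a := 0) (b := 1) (c := 1) (cn := .pnn) (n1 := ndB3q0) (n2 := ndB4q1) (pc := pcB1) (cut := Cut.none) (xt := Ext.none) (P1 := 0) (W1 := 536870912) (P2 := 536870912) (W2 := 536870912) (P3 := 587336777) (W3 := 62277027) (N0 := 3) (En := eng) (mo := mog) (C1 := cd3q0) (C2 := cd4q1) (C3 := pd1)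
    rfl k0_mm_011

noncomputable def f_mm_012 : ℕ → ℕ → ℕ → ℕ → Bool := onCell 0 536870912 536870912 536870912 587336777 62277027
    (rowB 3 eng mog cd3q0 cd4q1 pd2 0 true false false .pnp 0 1 2 (qsf 0 536870912 536870912 536870912 2) ndB3q0 ndB4q1 pcB2 Cut.none Ext.none)

def k0_mm_012 : ∃ t, chk3 f_mm_012 t 1 1 1 = true :=
  ⟨(l 4), by decide +kernel⟩

theorem c_mm_012 : CertB 0 536870912 536870912 536870912 587336777 62277027 3 eng mog cd3q0 cd4q1 pd2 true false false .pnp 0 1 2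
    ndB3q0 ndB4q1 pcB2 Cut.none Ext.none :=
  certB0 (fam := true) (s1 := false) (s2 := false) (a := 0) (b := 1) (c := 2) (cn := .pnp) (n1 := ndB3q0) (n2 := ndB4q1) (pc := pcB2) (cut := Cut.none) (xt := Ext.none) (P1 := 0) (W1 := 536870912) (P2 := 536870912) (W2 := 536870912) (P3 := 587336777) (W3 := 62277027) (N0 := 3) (En := eng) (mo := mog) (C1 := cd3q0) (C2 := cd4q1) (C3 := pd2)
    rfl k0_mm_012

noncomputable def f_mm_022_a : ℕ → ℕ → ℕ → ℕ → Bool := onCell 0 536870912 0 536870912 587336777 62277027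
    (rowB 3 eng mog cd3q0 cd4q2a pd2 0 true false false .pp 0 2 2 (qsf 0 536870912 0 536870912 2) ndB3q0 ndB4q2a pcB2 Cut.none Ext.none)

def k0_mm_022_a : ∃ t, chk3 f_mm_022_a t 1 1 1 = true :=
  ⟨(l 5), by decide +kernel⟩

theorem c_mm_022_a : CertB 0 536870912 0 536870912 587336777 62277027 3 eng mog cd3q0 cd4q2a pd2 true false false .pp 0 2 2
    ndB3q0 ndB4q2a pcB2 Cut.none Ext.none :=
  certB0 (fam := true) (s1 := false) (s2 := false) (a := 0) (b := 2) (c := 2) (cn := .pp) (n1 := ndB3q0) (n2 := ndB4q2a) (pc := pcB2) (cut := Cut.none) (xt := Ext.none) (P1 := 0) (W1 := 536870912) (P2 := 0) (W2 := 536870912) (P3 := 587336777) (W3 := 62277027) (N0 := 3) (En := eng) (mo := mog) (C1 := cd3q0) (C2 := cd4q2a) (C3 := pd2)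
    rfl k0_mm_022_a

noncomputable def f_mm_022_b : ℕ → ℕ → ℕ → ℕ → Bool := onCell 0 536870912 1239849684 370763052 587336777 62277027
    (rowB 3 eng mog cd3q0 cd4q2b pd2 0 true false false .pp 0 2 2 (qsf 0 536870912 1239849684 370763052 2) ndB3q0 ndB4q2b pcB2 Cut.none Ext.none)

def k0_mm_022_b : ∃ t, chk3 f_mm_022_b t 1 1 1 = true :=
  ⟨(l 5), by decide +kernel⟩

theorem c_mm_022_b : CertB 0 536870912 1239849684 370763052 587336777 62277027 3 eng mog cd3q0 cd4q2b pd2 true false false .pp 0 2 2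
    ndB3q0 ndB4q2b pcB2 Cut.none Ext.none :=
  certB0 (fam := true) (s1 := false) (s2 := false) (a := 0) (b := 2) (c := 2) (cn := .pp) (n1 := ndB3q0) (n2 := ndB4q2b) (pc := pcB2) (cut := Cut.none) (xt := Ext.none) (P1 := 0) (W1 := 536870912) (P2 := 1239849684) (W2 := 370763052) (P3 := 587336777) (W3 := 62277027) (N0 := 3) (En := eng) (mo := mog) (C1 := cd3q0) (C2 := cd4q2b) (C3 := pd2)
    rfl k0_mm_022_b

noncomputable def f_mm_023_a : ℕ → ℕ → ℕ → ℕ → Bool := onCell 0 536870912 0 536870912 587336777 62277027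
    (rowB 3 eng mog cd3q0 cd4q2a pd3 0 true false false .up 0 2 3 (qsf 0 536870912 0 536870912 3) ndB3q0 ndB4q2a pcB3 Cut.none Ext.none)

def k0_mm_023_a : ∃ t, chk3 f_mm_023_a t 1 1 1 = true :=
  ⟨(l 5), by decide +kernel⟩

theorem c_mm_023_a : CertB 0 536870912 0 536870912 587336777 62277027 3 eng mog cd3q0 cd4q2a pd3 true false false .up 0 2 3
    ndB3q0 ndB4q2a pcB3 Cut.none Ext.none :=
  certB0 (fam := true) (s1 := false) (s2 := false) (a := 0) (b := 2) (c := 3) (cn := .up) (n1 := ndB3q0) (n2 := ndB4q2a) (pc := pcB3) (cut := Cut.none) (xt := Ext.none) (P1 := 0) (W1 := 536870912) (P2 := 0) (W2 := 536870912) (P3 := 587336777) (W3 := 62277027) (N0 := 3) (En := eng) (mo := mog) (C1 := cd3q0) (C2 := cd4q2a) (C3 := pd3)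
    rfl k0_mm_023_a

noncomputable def f_mm_023_b : ℕ → ℕ → ℕ → ℕ → Bool := onCell 0 536870912 1239849684 370763052 587336777 62277027
    (rowB 3 eng mog cd3q0 cd4q2b pd3 0 true false false .up 0 2 3 (qsf 0 536870912 1239849684 370763052 3) ndB3q0 ndB4q2b pcB3 Cut.none Ext.none)

def k0_mm_023_b : ∃ t, chk3 f_mm_023_b t 1 1 1 = true :=
  ⟨(l 5), by decide +kernel⟩

theorem c_mm_023_b : CertB 0 536870912 1239849684 370763052 587336777 62277027 3 eng mog cd3q0 cd4q2b pd3 true false false .up 0 2 3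
    ndB3q0 ndB4q2b pcB3 Cut.none Ext.none :=
  certB0 (fam := true) (s1 := false) (s2 := false) (a := 0) (b := 2) (c := 3) (cn := .up) (n1 := ndB3q0) (n2 := ndB4q2b) (pc := pcB3) (cut := Cut.none) (xt := Ext.none) (P1 := 0) (W1 := 536870912) (P2 := 1239849684) (W2 := 370763052) (P3 := 587336777) (W3 := 62277027) (N0 := 3) (En := eng) (mo := mog) (C1 := cd3q0) (C2 := cd4q2b) (C3 := pd3)
    rfl k0_mm_023_b

noncomputable def f_mm_033 : ℕ → ℕ → ℕ → ℕ → Bool := onCell 0 536870912 1610612736 536870912 587336777 62277027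
    (rowB 3 eng mog cd3q0 cd4q3 pd3 0 true false false .pnn 0 3 3 (qsf 0 536870912 1610612736 536870912 3) ndB3q0 ndB4q3 pcB3 Cut.none Ext.none)

def k0_mm_033 : ∃ t, chk3 f_mm_033 t 1 1 1 = true :=
  ⟨(l 4), by decide +kernel⟩

theorem c_mm_033 : CertB 0 536870912 1610612736 536870912 587336777 62277027 3 eng mog cd3q0 cd4q3 pd3 true false false .pnn 0 3 3
    ndB3q0 ndB4q3 pcB3 Cut.none Ext.none :=
  certB0 (fam := true) (s1 := false) (s2 := false) (a := 0) (b := 3) (c := 3) (cn := .pnn) (n1 := ndB3q0) (n2 := ndB4q3) (pc := pcB3) (cut := Cut.none) (xt := Ext.none) (P1 := 0) (W1 := 536870912) (P2 := 1610612736) (W2 := 536870912) (P3 := 587336777) (W3 := 62277027) (N0 := 3) (En := eng) (mo := mog) (C1 := cd3q0) (C2 := cd4q3) (C3 := pd3)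
    rfl k0_mm_033

noncomputable def f_mm_101 : ℕ → ℕ → ℕ → ℕ → Bool := onCell 536870912 536870912 0 536870912 587336777 62277027
    (rowB 3 eng mog cd3q1 cd4q0 pd1 0 true false false .npn 1 0 1 (qsf 536870912 536870912 0 536870912 1) ndB3q1 ndB4q0 pcB1 Cut.none Ext.none)

def k0_mm_101 : ∃ t, chk3 f_mm_101 t 1 1 1 = true :=
  ⟨(l 4), by decide +kernel⟩

theorem c_mm_101 : CertB 536870912 536870912 0 536870912 587336777 62277027 3 eng mog cd3q1 cd4q0 pd1 true false false .npn 1 0 1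
    ndB3q1 ndB4q0 pcB1 Cut.none Ext.none :=
  certB0 (fam := true) (s1 := false) (s2 := false) (a := 1) (b := 0) (c := 1) (cn := .npn) (n1 := ndB3q1) (n2 := ndB4q0) (pc := pcB1) (cut := Cut.none) (xt := Ext.none) (P1 := 536870912) (W1 := 536870912) (P2 := 0) (W2 := 536870912) (P3 := 587336777) (W3 := 62277027) (N0 := 3) (En := eng) (mo := mog) (C1 := cd3q1) (C2 := cd4q0) (C3 := pd1)
    rfl k0_mm_101

noncomputable def f_mm_102 : ℕ → ℕ → ℕ → ℕ → Bool := onCell 536870912 536870912 0 536870912 587336777 62277027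
    (rowB 3 eng mog cd3q1 cd4q0 pd2 0 true false false .npp 1 0 2 (qsf 536870912 536870912 0 536870912 2) ndB3q1 ndB4q0 pcB2 Cut.none Ext.none)

def k0_mm_102 : ∃ t, chk3 f_mm_102 t 1 1 1 = true :=
  ⟨(l 4), by decide +kernel⟩

theorem c_mm_102 : CertB 536870912 536870912 0 536870912 587336777 62277027 3 eng mog cd3q1 cd4q0 pd2 true false false .npp 1 0 2
    ndB3q1 ndB4q0 pcB2 Cut.none Ext.none :=
  certB0 (fam := true) (s1 := false) (s2 := false) (a := 1) (b := 0) (c := 2) (cn := .npp) (n1 := ndB3q1) (n2 := ndB4q0) (pc := pcB2) (cut := Cut.none) (xt := Ext.none) (P1 := 536870912) (W1 := 536870912) (P2 := 0) (W2 := 536870912) (P3 := 587336777) (W3 := 62277027) (N0 := 3) (En := eng) (mo := mog) (C1 := cd3q1) (C2 := cd4q0) (C3 := pd2)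
    rfl k0_mm_102

noncomputable def f_mm_112 : ℕ → ℕ → ℕ → ℕ → Bool := onCell 536870912 536870912 536870912 536870912 587336777 62277027
    (rowB 3 eng mog cd3q1 cd4q1 pd2 0 true false false .dn 1 1 2 (qsf 536870912 536870912 536870912 536870912 2) ndB3q1 ndB4q1 pcB2 Cut.none Ext.none)

def k0_mm_112 : ∃ t, chk3 f_mm_112 t 1 1 1 = true :=
  ⟨(l 4), by decide +kernel⟩

theorem c_mm_112 : CertB 536870912 536870912 536870912 536870912 587336777 62277027 3 eng mog cd3q1 cd4q1 pd2 true false false .dn 1 1 2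
    ndB3q1 ndB4q1 pcB2 Cut.none Ext.none :=
  certB0 (fam := true) (s1 := false) (s2 := false) (a := 1) (b := 1) (c := 2) (cn := .dn) (n1 := ndB3q1) (n2 := ndB4q1) (pc := pcB2) (cut := Cut.none) (xt := Ext.none) (P1 := 536870912) (W1 := 536870912) (P2 := 536870912) (W2 := 536870912) (P3 := 587336777) (W3 := 62277027) (N0 := 3) (En := eng) (mo := mog) (C1 := cd3q1) (C2 := cd4q1) (C3 := pd2)
    rfl k0_mm_112

noncomputable def f_mm_113 : ℕ → ℕ → ℕ → ℕ → Bool := onCell 536870912 536870912 536870912 536870912 587336777 62277027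
    (rowB 3 eng mog cd3q1 cd4q1 pd3 0 true false false .nn 1 1 3 (qsf 536870912 536870912 536870912 536870912 3) ndB3q1 ndB4q1 pcB3 Cut.none Ext.none)

def k0_mm_113 : ∃ t, chk3 f_mm_113 t 1 1 1 = true :=
  ⟨(l 4), by decide +kernel⟩

theorem c_mm_113 : CertB 536870912 536870912 536870912 536870912 587336777 62277027 3 eng mog cd3q1 cd4q1 pd3 true false false .nn 1 1 3
    ndB3q1 ndB4q1 pcB3 Cut.none Ext.none :=
  certB0 (fam := true) (s1 := false) (s2 := false) (a := 1) (b := 1) (c := 3) (cn := .nn) (n1 := ndB3q1) (n2 := ndB4q1) (pc := pcB3) (cut := Cut.none) (xt := Ext.none) (P1 := 536870912) (W1 := 536870912) (P2 := 536870912) (W2 := 536870912) (P3 := 587336777) (W3 := 62277027) (N0 := 3) (En := eng) (mo := mog) (C1 := cd3q1) (C2 := cd4q1) (C3 := pd3)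
    rfl k0_mm_113

noncomputable def f_mm_123_a : ℕ → ℕ → ℕ → ℕ → Bool := onCell 536870912 536870912 0 536870912 587336777 62277027
    (rowB 3 eng mog cd3q1 cd4q2a pd3 0 true false false .npn 1 2 3 (qsf 536870912 536870912 0 536870912 3) ndB3q1 ndB4q2a pcB3 Cut.none Ext.none)

def k0_mm_123_a : ∃ t, chk3 f_mm_123_a t 1 1 1 = true :=
  ⟨(l 4), by decide +kernel⟩

theorem c_mm_123_a : CertB 536870912 536870912 0 536870912 587336777 62277027 3 eng mog cd3q1 cd4q2a pd3 true false false .npn 1 2 3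
    ndB3q1 ndB4q2a pcB3 Cut.none Ext.none :=
  certB0 (fam := true) (s1 := false) (s2 := false) (a := 1) (b := 2) (c := 3) (cn := .npn) (n1 := ndB3q1) (n2 := ndB4q2a) (pc := pcB3) (cut := Cut.none) (xt := Ext.none) (P1 := 536870912) (W1 := 536870912) (P2 := 0) (W2 := 536870912) (P3 := 587336777) (W3 := 62277027) (N0 := 3) (En := eng) (mo := mog) (C1 := cd3q1) (C2 := cd4q2a) (C3 := pd3)
    rfl k0_mm_123_a

noncomputable def f_mm_123_b : ℕ → ℕ → ℕ → ℕ → Bool := onCell 536870912 536870912 1239849684 370763052 587336777 62277027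
    (rowB 3 eng mog cd3q1 cd4q2b pd3 0 true false false .npn 1 2 3 (qsf 536870912 536870912 1239849684 370763052 3) ndB3q1 ndB4q2b pcB3 Cut.none Ext.none)

def k0_mm_123_b : ∃ t, chk3 f_mm_123_b t 1 1 1 = true :=
  ⟨(l 4), by decide +kernel⟩

theorem c_mm_123_b : CertB 536870912 536870912 1239849684 370763052 587336777 62277027 3 eng mog cd3q1 cd4q2b pd3 true false false .npn 1 2 3
    ndB3q1 ndB4q2b pcB3 Cut.none Ext.none :=
  certB0 (fam := true) (s1 := false) (s2 := false) (a := 1) (b := 2) (c := 3) (cn := .npn) (n1 := ndB3q1) (n2 := ndB4q2b) (pc := pcB3) (cut := Cut.none) (xt := Ext.none) (P1 := 536870912) (W1 := 536870912) (P2 := 1239849684) (W2 := 370763052) (P3 := 587336777) (W3 := 62277027) (N0 := 3) (En := eng) (mo := mog) (C1 := cd3q1) (C2 := cd4q2b) (C3 := pd3)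
    rfl k0_mm_123_b

noncomputable def f_mm_133 : ℕ → ℕ → ℕ → ℕ → Bool := onCell 536870912 536870912 1610612736 536870912 587336777 62277027
    (rowB 3 eng mog cd3q1 cd4q3 pd3 0 true false false .dn 1 3 3 (qsf 536870912 536870912 1610612736 536870912 3) ndB3q1 ndB4q3 pcB3 Cut.none Ext.none)

def k0_mm_133 : ∃ t, chk3 f_mm_133 t 1 1 1 = true :=
  ⟨(l 4), by decide +kernel⟩

theorem c_mm_133 : CertB 536870912 536870912 1610612736 536870912 587336777 62277027 3 eng mog cd3q1 cd4q3 pd3 true false false .dn 1 3 3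
    ndB3q1 ndB4q3 pcB3 Cut.none Ext.none :=
  certB0 (fam := true) (s1 := false) (s2 := false) (a := 1) (b := 3) (c := 3) (cn := .dn) (n1 := ndB3q1) (n2 := ndB4q3) (pc := pcB3) (cut := Cut.none) (xt := Ext.none) (P1 := 536870912) (W1 := 536870912) (P2 := 1610612736) (W2 := 536870912) (P3 := 587336777) (W3 := 62277027) (N0 := 3) (En := eng) (mo := mog) (C1 := cd3q1) (C2 := cd4q3) (C3 := pd3)
    rfl k0_mm_133

noncomputable def cut_mm_202_a : Cut := Cut.of [[⟨0, 1, 0, 67108864⟩, ⟨1, 0, 0, 67108864⟩, ⟨2, 1, 0, 67108864⟩]]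

noncomputable def f_mm_202_a : ℕ → ℕ → ℕ → ℕ → Bool := onCell 0 536870912 0 536870912 587336777 62277027
    (rowB 3 eng mog cd3q2a cd4q0 pd2 0 true false false .pp 2 0 2 (qsf 0 536870912 0 536870912 2) ndB3q2a ndB4q0 pcB2 cut_mm_202_a Ext.none)

def k0_mm_202_a : ∃ t, chk3 f_mm_202_a t 1 1 1 = true :=
  ⟨(b (a (b (b (a (a (b (b (a (l 16458192) (l 16460768)) (l 16471704)) (l 16492352)) (b (a (b (l 16465616) (l 16478304)) (b (l 16451832) (l 16485792))) (l 16504040))) (b (b (a (a (l 16461416) (l 16494440)) (a (l 16509032) (l 16526248))) (a (b (l 16498336) (l 16547368)) (l 16531272))) (a (b (l 16537696) (l 16532816)) (b (l 16525496) (l 16667808))))) (a (b (b (l 16522376) (l 16539360)) (l 16565352)) (b (a (l 16600432) (l 16693776)) (l 4)))) (b (a (b (l 16599760) (l 4)) (l 4)) (l 4))) (b (b (b (b (a (a (a (l 16567120) (b (l 16565592) (l 16571912))) (b (a (l 16590160) (b (l 16615000) (l 16619968))) (a (l 16597208) (l 16625240)))) (a (b (a (b (a (l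 16637192) (l 16674016)) (l 16650536)) (b (l 6) (a (l 16675544) (l 6)))) (a (l 16655928) (a (l 16680624) (l 16698280)))) (l 6))) (a (a (l 16591920) (a (l 16607176) (l 16645720))) (a (a (b (l 16662448) (l 4)) (l 4)) (l 4)))) (a (b (a (l 16586256) (a (l 16643792) (l 4))) (a (l 16634480) (l 4))) (l 4))) (l 4)) (l 4))) (l 4)), by decide +kernel⟩

theorem c_mm_202_a : CertB 0 536870912 0 536870912 587336777 62277027 3 eng mog cd3q2a cd4q0 pd2 true false false .pp 2 0 2
    ndB3q2a ndB4q0 pcB2 cut_mm_202_a Ext.none :=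
  certB0 (fam := true) (s1 := false) (s2 := false) (a := 2) (b := 0) (c := 2) (cn := .pp) (n1 := ndB3q2a) (n2 := ndB4q0) (pc := pcB2) (cut := cut_mm_202_a) (xt := Ext.none) (P1 := 0) (W1 := 536870912) (P2 := 0) (W2 := 536870912) (P3 := 587336777) (W3 := 62277027) (N0 := 3) (En := eng) (mo := mog) (C1 := cd3q2a) (C2 := cd4q0) (C3 := pd2)
    rfl k0_mm_202_a

noncomputable def cut_mm_202_b : Cut := Cut.of [[⟨0, 1, 0, 67108864⟩, ⟨1, 0, 0, 67108864⟩, ⟨2, 1, 0, 67108864⟩]]

noncomputable def f_mm_202_b : ℕ → ℕ → ℕ → ℕ → Bool := onCell 1073741824 536870912 0 536870912 587336777 62277027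
    (rowB 3 eng mog cd3q2b cd4q0 pd2 2 true false false .pp 2 0 2 (qsf 1239849684 370763052 0 536870912 2) ndB3q2b ndB4q0 pcB2 cut_mm_202_b Ext.none)

def k0_mm_202_b : ∃ t, chk3 f_mm_202_b t 1 1 1 = true :=
  ⟨(b (a (a (l 1) (b (a (b (b (a (a (l 1) (b (b (l 203507028087) (l 1)) (l 1))) (a (b (b (l 16444112) (l 16464952)) (l 16496248)) (b (l 16423768) (l 16466280)))) (a (l 1) (a (l 1) (l 16529824)))) (l 1)) (b (b (a (b (l 16334600) (l 16420440)) (l 16313080)) (a (a (l 16500968) (l 16471536)) (l 16405176))) (a (b (l 16572160) (l 1)) (b (l 16516976) (l 16603520))))) (l 1))) (a (b (a (b (b (a (l 16265912) (l 16203736)) (l 16329112)) (a (l 16505704) (l 16445456))) (b (b (a (l 16152952) (l 16113104)) (l 16311160)) (a (l 16377624) (l 16301304)))) (a (b (a (l 363494900599) (l 16586312)) (l 1)) (l 4))) (b (a (b (a (l 16136208) (b (l 16050968) (l 16122768))) (l 4)) (b (a (l 16152848) (l 16059304)) (l 4))) (l 4)))) (a (l 1) (l 4))), by decide +kernel⟩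

theorem c_mm_202_b : CertB 1239849684 370763052 0 536870912 587336777 62277027 3 eng mog cd3q2b cd4q0 pd2 true false false .pp 2 0 2
    ndB3q2b ndB4q0 pcB2 cut_mm_202_b Ext.none :=
  certB2 (fam := true) (s1 := false) (s2 := false) (a := 2) (b := 0) (c := 2) (cn := .pp) (n1 := ndB3q2b) (n2 := ndB4q0) (pc := pcB2) (cut := cut_mm_202_b) (xt := Ext.none) (P1 := 1239849684) (W1 := 370763052) (P2 := 0) (W2 := 536870912) (P3 := 587336777) (W3 := 62277027) (N0 := 3) (En := eng) (mo := mog) (C1 := cd3q2b) (C2 := cd4q0) (C3 := pd2)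
    rfl (fun _ => rfl) k0_mm_202_b

noncomputable def f_mm_203_a : ℕ → ℕ → ℕ → ℕ → Bool := onCell 0 536870912 1610612736 536870912 587336777 62277027
    (rowB 3 eng mog cd3q2a cd4q0 pd3 1 true false false .up 2 0 3 (qsf 0 536870912 0 536870912 3) ndB3q2a ndB4q0 pcB3 Cut.none Ext.none)

def k0_mm_203_a : ∃ t, chk3 f_mm_203_a t 1 1 1 = true :=
  ⟨(l 4), by decide +kernel⟩

theorem c_mm_203_a : CertB 0 536870912 0 536870912 587336777 62277027 3 eng mog cd3q2a cd4q0 pd3 true false false .up 2 0 3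
    ndB3q2a ndB4q0 pcB3 Cut.none Ext.none :=
  certB1 (fam := true) (s1 := false) (s2 := false) (a := 2) (b := 0) (c := 3) (cn := .up) (n1 := ndB3q2a) (n2 := ndB4q0) (pc := pcB3) (cut := Cut.none) (xt := Ext.none) (P1 := 0) (W1 := 536870912) (P2 := 0) (W2 := 536870912) (P3 := 587336777) (W3 := 62277027) (N0 := 3) (En := eng) (mo := mog) (C1 := cd3q2a) (C2 := cd4q0) (C3 := pd3)
    rfl (fun _ => rfl) k0_mm_203_a

noncomputable def f_mm_203_b : ℕ → ℕ → ℕ → ℕ → Bool := onCell 1239849684 370763052 1610612736 536870912 587336777 62277027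
    (rowB 3 eng mog cd3q2b cd4q0 pd3 1 true false false .up 2 0 3 (qsf 1239849684 370763052 0 536870912 3) ndB3q2b ndB4q0 pcB3 Cut.none Ext.none)

def k0_mm_203_b : ∃ t, chk3 f_mm_203_b t 1 1 1 = true :=
  ⟨(b (b (a (l 4) (l 4)) (l 4)) (l 4)), by decide +kernel⟩

theorem c_mm_203_b : CertB 1239849684 370763052 0 536870912 587336777 62277027 3 eng mog cd3q2b cd4q0 pd3 true false false .up 2 0 3
    ndB3q2b ndB4q0 pcB3 Cut.none Ext.none :=
  certB1 (fam := true) (s1 := false) (s2 := false) (a := 2) (b := 0) (c := 3) (cn := .up) (n1 := ndB3q2b) (n2 := ndB4q0) (pc := pcB3) (cut := Cut.none) (xt := Ext.none) (P1 := 1239849684) (W1 := 370763052) (P2 := 0) (W2 := 536870912) (P3 := 587336777) (W3 := 62277027) (N0 := 3) (En := eng) (mo := mog) (C1 := cd3q2b) (C2 := cd4q0) (C3 := pd3)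
    rfl (fun _ => rfl) k0_mm_203_b

noncomputable def f_mm_213_a : ℕ → ℕ → ℕ → ℕ → Bool := onCell 0 536870912 536870912 536870912 587336777 62277027
    (rowB 3 eng mog cd3q2a cd4q1 pd3 0 true false false .pnn 2 1 3 (qsf 0 536870912 536870912 536870912 3) ndB3q2a ndB4q1 pcB3 Cut.none Ext.none)

def k0_mm_213_a : ∃ t, chk3 f_mm_213_a t 1 1 1 = true :=
  ⟨(l 4), by decide +kernel⟩

theorem c_mm_213_a : CertB 0 536870912 536870912 536870912 587336777 62277027 3 eng mog cd3q2a cd4q1 pd3 true false false .pnn 2 1 3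
    ndB3q2a ndB4q1 pcB3 Cut.none Ext.none :=
  certB0 (fam := true) (s1 := false) (s2 := false) (a := 2) (b := 1) (c := 3) (cn := .pnn) (n1 := ndB3q2a) (n2 := ndB4q1) (pc := pcB3) (cut := Cut.none) (xt := Ext.none) (P1 := 0) (W1 := 536870912) (P2 := 536870912) (W2 := 536870912) (P3 := 587336777) (W3 := 62277027) (N0 := 3) (En := eng) (mo := mog) (C1 := cd3q2a) (C2 := cd4q1) (C3 := pd3)
    rfl k0_mm_213_a

noncomputable def f_mm_213_b : ℕ → ℕ → ℕ → ℕ → Bool := onCell 1239849684 370763052 536870912 536870912 587336777 62277027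
    (rowB 3 eng mog cd3q2b cd4q1 pd3 0 true false false .pnn 2 1 3 (qsf 1239849684 370763052 536870912 536870912 3) ndB3q2b ndB4q1 pcB3 Cut.none Ext.none)

def k0_mm_213_b : ∃ t, chk3 f_mm_213_b t 1 1 1 = true :=
  ⟨(l 4), by decide +kernel⟩

theorem c_mm_213_b : CertB 1239849684 370763052 536870912 536870912 587336777 62277027 3 eng mog cd3q2b cd4q1 pd3 true false false .pnn 2 1 3
    ndB3q2b ndB4q1 pcB3 Cut.none Ext.none :=
  certB0 (fam := true) (s1 := false) (s2 := false) (a := 2) (b := 1) (c := 3) (cn := .pnn) (n1 := ndB3q2b) (n2 := ndB4q1) (pc := pcB3) (cut := Cut.none) (xt := Ext.none) (P1 := 1239849684) (W1 := 370763052) (P2 := 536870912) (W2 := 536870912) (P3 := 587336777) (W3 := 62277027) (N0 := 3) (En := eng) (mo := mog) (C1 := cd3q2b) (C2 := cd4q1) (C3 := pd3)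
    rfl k0_mm_213_b

noncomputable def f_mm_303 : ℕ → ℕ → ℕ → ℕ → Bool := onCell 1610612736 536870912 0 536870912 587336777 62277027
    (rowB 3 eng mog cd3q3 cd4q0 pd3 0 true false false .npn 3 0 3 (qsf 1610612736 536870912 0 536870912 3) ndB3q3 ndB4q0 pcB3 Cut.none Ext.none)

def k0_mm_303 : ∃ t, chk3 f_mm_303 t 1 1 1 = true :=
  ⟨(a (b (b (l 4) (l 4)) (l 4)) (l 4)), by decide +kernel⟩

theorem c_mm_303 : CertB 1610612736 536870912 0 536870912 587336777 62277027 3 eng mog cd3q3 cd4q0 pd3 true false false .npn 3 0 3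
    ndB3q3 ndB4q0 pcB3 Cut.none Ext.none :=
  certB0 (fam := true) (s1 := false) (s2 := false) (a := 3) (b := 0) (c := 3) (cn := .npn) (n1 := ndB3q3) (n2 := ndB4q0) (pc := pcB3) (cut := Cut.none) (xt := Ext.none) (P1 := 1610612736) (W1 := 536870912) (P2 := 0) (W2 := 536870912) (P3 := 587336777) (W3 := 62277027) (N0 := 3) (En := eng) (mo := mog) (C1 := cd3q3) (C2 := cd4q0) (C3 := pd3)
    rfl k0_mm_303

noncomputable def f_mm_313 : ℕ → ℕ → ℕ → ℕ → Bool := onCell 1610612736 536870912 536870912 536870912 587336777 62277027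
    (rowB 3 eng mog cd3q3 cd4q1 pd3 0 true false false .dn 3 1 3 (qsf 1610612736 536870912 536870912 536870912 3) ndB3q3 ndB4q1 pcB3 Cut.none Ext.none)

def k0_mm_313 : ∃ t, chk3 f_mm_313 t 1 1 1 = true :=
  ⟨(l 4), by decide +kernel⟩

theorem c_mm_313 : CertB 1610612736 536870912 536870912 536870912 587336777 62277027 3 eng mog cd3q3 cd4q1 pd3 true false false .dn 3 1 3
    ndB3q3 ndB4q1 pcB3 Cut.none Ext.none :=
  certB0 (fam := true) (s1 := false) (s2 := false) (a := 3) (b := 1) (c := 3) (cn := .dn) (n1 := ndB3q3) (n2 := ndB4q1) (pc := pcB3) (cut := Cut.none) (xt := Ext.none) (P1 := 1610612736) (W1 := 536870912) (P2 := 536870912) (W2 := 536870912) (P3 := 587336777) (W3 := 62277027) (N0 := 3) (En := eng) (mo := mog) (C1 := cd3q3) (C2 := cd4q1) (C3 := pd3)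
    rfl k0_mm_313

end Pool.Agent.Strip051.G.I5470_6050.Tab.C.BA34

namespace Pool.Agent.Strip051.G.I5470_6050.Tab.C.BA35

open Pool.Agent.Strip051.PB Pool.Agent.Strip051.PB.T
open Pool.Agent.Strip051.G.I5470_6050.Tab

noncomputable def f_pp_001 : ℕ → ℕ → ℕ → ℕ → Bool := onCell 0 536870912 0 536870912 587336777 62277027
    (rowB 3 eng mog cd3q0 cd5q0 pd1 0 true true true .up 0 0 1 (qsf 0 536870912 0 536870912 1) ndB3q0 ndB5q0 pcB1 Cut.none Ext.none)

def k0_pp_001 : ∃ t, chk3 f_pp_001 t 1 1 1 = true :=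
  ⟨(l 4), by decide +kernel⟩

theorem c_pp_001 : CertB 0 536870912 0 536870912 587336777 62277027 3 eng mog cd3q0 cd5q0 pd1 true true true .up 0 0 1
    ndB3q0 ndB5q0 pcB1 Cut.none Ext.none :=
  certB0 (fam := true) (s1 := true) (s2 := true) (a := 0) (b := 0) (c := 1) (cn := .up) (n1 := ndB3q0) (n2 := ndB5q0) (pc := pcB1) (cut := Cut.none) (xt := Ext.none) (P1 := 0) (W1 := 536870912) (P2 := 0) (W2 := 536870912) (P3 := 587336777) (W3 := 62277027) (N0 := 3) (En := eng) (mo := mog) (C1 := cd3q0) (C2 := cd5q0) (C3 := pd1)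
    rfl k0_pp_001

noncomputable def f_pp_011 : ℕ → ℕ → ℕ → ℕ → Bool := onCell 0 536870912 536870912 536870912 587336777 62277027
    (rowB 3 eng mog cd3q0 cd5q1 pd1 0 true true true .pnn 0 1 1 (qsf 0 536870912 536870912 536870912 1) ndB3q0 ndB5q1 pcB1 Cut.none Ext.none)

def k0_pp_011 : ∃ t, chk3 f_pp_011 t 1 1 1 = true :=
  ⟨(l 4), by decide +kernel⟩

theorem c_pp_011 : CertB 0 536870912 536870912 536870912 587336777 62277027 3 eng mog cd3q0 cd5q1 pd1 true true true .pnn 0 1 1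
    ndB3q0 ndB5q1 pcB1 Cut.none Ext.none :=
  certB0 (fam := true) (s1 := true) (s2 := true) (a := 0) (b := 1) (c := 1) (cn := .pnn) (n1 := ndB3q0) (n2 := ndB5q1) (pc := pcB1) (cut := Cut.none) (xt := Ext.none) (P1 := 0) (W1 := 536870912) (P2 := 536870912) (W2 := 536870912) (P3 := 587336777) (W3 := 62277027) (N0 := 3) (En := eng) (mo := mog) (C1 := cd3q0) (C2 := cd5q1) (C3 := pd1)
    rfl k0_pp_011

noncomputable def f_pp_012 : ℕ → ℕ → ℕ → ℕ → Bool := onCell 0 536870912 536870912 536870912 587336777 62277027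
    (rowB 3 eng mog cd3q0 cd5q1 pd2 0 true true true .pnp 0 1 2 (qsf 0 536870912 536870912 536870912 2) ndB3q0 ndB5q1 pcB2 Cut.none Ext.none)

def k0_pp_012 : ∃ t, chk3 f_pp_012 t 1 1 1 = true :=
  ⟨(l 4), by decide +kernel⟩

theorem c_pp_012 : CertB 0 536870912 536870912 536870912 587336777 62277027 3 eng mog cd3q0 cd5q1 pd2 true true true .pnp 0 1 2
    ndB3q0 ndB5q1 pcB2 Cut.none Ext.none :=
  certB0 (fam := true) (s1 := true) (s2 := true) (a := 0) (b := 1) (c := 2) (cn := .pnp) (n1 := ndB3q0) (n2 := ndB5q1) (pc := pcB2) (cut := Cut.none) (xt := Ext.none) (P1 := 0) (W1 := 536870912) (P2 := 536870912) (W2 := 536870912) (P3 := 587336777) (W3 := 62277027) (N0 := 3) (En := eng) (mo := mog) (C1 := cd3q0) (C2 := cd5q1) (C3 := pd2)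
    rfl k0_pp_012

noncomputable def f_pp_022 : ℕ → ℕ → ℕ → ℕ → Bool := onCell 0 536870912 1073741824 536870912 587336777 62277027
    (rowB 3 eng mog cd3q0 cd5q2 pd2 0 true true true .pp 0 2 2 (qsf 0 536870912 1073741824 536870912 2) ndB3q0 ndB5q2 pcB2 Cut.none Ext.none)

def k0_pp_022 : ∃ t, chk3 f_pp_022 t 1 1 1 = true :=
  ⟨(l 4), by decide +kernel⟩

theorem c_pp_022 : CertB 0 536870912 1073741824 536870912 587336777 62277027 3 eng mog cd3q0 cd5q2 pd2 true true true .pp 0 2 2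
    ndB3q0 ndB5q2 pcB2 Cut.none Ext.none :=
  certB0 (fam := true) (s1 := true) (s2 := true) (a := 0) (b := 2) (c := 2) (cn := .pp) (n1 := ndB3q0) (n2 := ndB5q2) (pc := pcB2) (cut := Cut.none) (xt := Ext.none) (P1 := 0) (W1 := 536870912) (P2 := 1073741824) (W2 := 536870912) (P3 := 587336777) (W3 := 62277027) (N0 := 3) (En := eng) (mo := mog) (C1 := cd3q0) (C2 := cd5q2) (C3 := pd2)
    rfl k0_pp_022

noncomputable def f_pp_023 : ℕ → ℕ → ℕ → ℕ → Bool := onCell 0 536870912 1073741824 536870912 587336777 62277027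
    (rowB 3 eng mog cd3q0 cd5q2 pd3 0 true true true .up 0 2 3 (qsf 0 536870912 1073741824 536870912 3) ndB3q0 ndB5q2 pcB3 Cut.none Ext.none)

def k0_pp_023 : ∃ t, chk3 f_pp_023 t 1 1 1 = true :=
  ⟨(l 4), by decide +kernel⟩

theorem c_pp_023 : CertB 0 536870912 1073741824 536870912 587336777 62277027 3 eng mog cd3q0 cd5q2 pd3 true true true .up 0 2 3
    ndB3q0 ndB5q2 pcB3 Cut.none Ext.none :=
  certB0 (fam := true) (s1 := true) (s2 := true) (a := 0) (b := 2) (c := 3) (cn := .up) (n1 := ndB3q0) (n2 := ndB5q2) (pc := pcB3) (cut := Cut.none) (xt := Ext.none) (P1 := 0) (W1 := 536870912) (P2 := 1073741824) (W2 := 536870912) (P3 := 587336777) (W3 := 62277027) (N0 := 3) (En := eng) (mo := mog) (C1 := cd3q0) (C2 := cd5q2) (C3 := pd3)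
    rfl k0_pp_023

noncomputable def f_pp_033 : ℕ → ℕ → ℕ → ℕ → Bool := onCell 0 536870912 0 1230186008 587336777 62277027
    (rowB 3 eng mog cd3q0 cd5q3 pd3 0 true true true .pnn 0 3 3 (qsf 0 536870912 0 1230186008 3) ndB3q0 ndB5q3 pcB3 Cut.none Ext.none)

def k0_pp_033 : ∃ t, chk3 f_pp_033 t 1 1 1 = true :=
  ⟨(b (l 4) (l 4)), by decide +kernel⟩

theorem c_pp_033 : CertB 0 536870912 0 1230186008 587336777 62277027 3 eng mog cd3q0 cd5q3 pd3 true true true .pnn 0 3 3
    ndB3q0 ndB5q3 pcB3 Cut.none Ext.none :=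
  certB0 (fam := true) (s1 := true) (s2 := true) (a := 0) (b := 3) (c := 3) (cn := .pnn) (n1 := ndB3q0) (n2 := ndB5q3) (pc := pcB3) (cut := Cut.none) (xt := Ext.none) (P1 := 0) (W1 := 536870912) (P2 := 0) (W2 := 1230186008) (P3 := 587336777) (W3 := 62277027) (N0 := 3) (En := eng) (mo := mog) (C1 := cd3q0) (C2 := cd5q3) (C3 := pd3)
    rfl k0_pp_033

noncomputable def f_pp_101 : ℕ → ℕ → ℕ → ℕ → Bool := onCell 536870912 536870912 0 536870912 587336777 62277027
    (rowB 3 eng mog cd3q1 cd5q0 pd1 0 true true true .npn 1 0 1 (qsf 536870912 536870912 0 536870912 1) ndB3q1 ndB5q0 pcB1 Cut.none Ext.none)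

def k0_pp_101 : ∃ t, chk3 f_pp_101 t 1 1 1 = true :=
  ⟨(l 4), by decide +kernel⟩

theorem c_pp_101 : CertB 536870912 536870912 0 536870912 587336777 62277027 3 eng mog cd3q1 cd5q0 pd1 true true true .npn 1 0 1
    ndB3q1 ndB5q0 pcB1 Cut.none Ext.none :=
  certB0 (fam := true) (s1 := true) (s2 := true) (a := 1) (b := 0) (c := 1) (cn := .npn) (n1 := ndB3q1) (n2 := ndB5q0) (pc := pcB1) (cut := Cut.none) (xt := Ext.none) (P1 := 536870912) (W1 := 536870912) (P2 := 0) (W2 := 536870912) (P3 := 587336777) (W3 := 62277027) (N0 := 3) (En := eng) (mo := mog) (C1 := cd3q1) (C2 := cd5q0) (C3 := pd1)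
    rfl k0_pp_101

noncomputable def f_pp_102 : ℕ → ℕ → ℕ → ℕ → Bool := onCell 536870912 536870912 0 536870912 587336777 62277027
    (rowB 3 eng mog cd3q1 cd5q0 pd2 0 true true true .npp 1 0 2 (qsf 536870912 536870912 0 536870912 2) ndB3q1 ndB5q0 pcB2 Cut.none Ext.none)

def k0_pp_102 : ∃ t, chk3 f_pp_102 t 1 1 1 = true :=
  ⟨(l 4), by decide +kernel⟩

theorem c_pp_102 : CertB 536870912 536870912 0 536870912 587336777 62277027 3 eng mog cd3q1 cd5q0 pd2 true true true .npp 1 0 2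
    ndB3q1 ndB5q0 pcB2 Cut.none Ext.none :=
  certB0 (fam := true) (s1 := true) (s2 := true) (a := 1) (b := 0) (c := 2) (cn := .npp) (n1 := ndB3q1) (n2 := ndB5q0) (pc := pcB2) (cut := Cut.none) (xt := Ext.none) (P1 := 536870912) (W1 := 536870912) (P2 := 0) (W2 := 536870912) (P3 := 587336777) (W3 := 62277027) (N0 := 3) (En := eng) (mo := mog) (C1 := cd3q1) (C2 := cd5q0) (C3 := pd2)
    rfl k0_pp_102

noncomputable def f_pp_112 : ℕ → ℕ → ℕ → ℕ → Bool := onCell 536870912 536870912 536870912 536870912 587336777 62277027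
    (rowB 3 eng mog cd3q1 cd5q1 pd2 0 true true true .dn 1 1 2 (qsf 536870912 536870912 536870912 536870912 2) ndB3q1 ndB5q1 pcB2 Cut.none Ext.none)

def k0_pp_112 : ∃ t, chk3 f_pp_112 t 1 1 1 = true :=
  ⟨(l 4), by decide +kernel⟩

theorem c_pp_112 : CertB 536870912 536870912 536870912 536870912 587336777 62277027 3 eng mog cd3q1 cd5q1 pd2 true true true .dn 1 1 2
    ndB3q1 ndB5q1 pcB2 Cut.none Ext.none :=
  certB0 (fam := true) (s1 := true) (s2 := true) (a := 1) (b := 1) (c := 2) (cn := .dn) (n1 := ndB3q1) (n2 := ndB5q1) (pc := pcB2) (cut := Cut.none) (xt := Ext.none) (P1 := 536870912) (W1 := 536870912) (P2 := 536870912) (W2 := 536870912) (P3 := 587336777) (W3 := 62277027) (N0 := 3) (En := eng) (mo := mog) (C1 := cd3q1) (C2 := cd5q1) (C3 := pd2)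
    rfl k0_pp_112

noncomputable def f_pp_113 : ℕ → ℕ → ℕ → ℕ → Bool := onCell 536870912 536870912 536870912 536870912 587336777 62277027
    (rowB 3 eng mog cd3q1 cd5q1 pd3 0 true true true .nn 1 1 3 (qsf 536870912 536870912 536870912 536870912 3) ndB3q1 ndB5q1 pcB3 Cut.none Ext.none)

def k0_pp_113 : ∃ t, chk3 f_pp_113 t 1 1 1 = true :=
  ⟨(l 4), by decide +kernel⟩

theorem c_pp_113 : CertB 536870912 536870912 536870912 536870912 587336777 62277027 3 eng mog cd3q1 cd5q1 pd3 true true true .nn 1 1 3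
    ndB3q1 ndB5q1 pcB3 Cut.none Ext.none :=
  certB0 (fam := true) (s1 := true) (s2 := true) (a := 1) (b := 1) (c := 3) (cn := .nn) (n1 := ndB3q1) (n2 := ndB5q1) (pc := pcB3) (cut := Cut.none) (xt := Ext.none) (P1 := 536870912) (W1 := 536870912) (P2 := 536870912) (W2 := 536870912) (P3 := 587336777) (W3 := 62277027) (N0 := 3) (En := eng) (mo := mog) (C1 := cd3q1) (C2 := cd5q1) (C3 := pd3)
    rfl k0_pp_113

noncomputable def f_pp_123 : ℕ → ℕ → ℕ → ℕ → Bool := onCell 536870912 536870912 1073741824 536870912 587336777 62277027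
    (rowB 3 eng mog cd3q1 cd5q2 pd3 0 true true true .npn 1 2 3 (qsf 536870912 536870912 1073741824 536870912 3) ndB3q1 ndB5q2 pcB3 Cut.none Ext.none)

def k0_pp_123 : ∃ t, chk3 f_pp_123 t 1 1 1 = true :=
  ⟨(l 4), by decide +kernel⟩

theorem c_pp_123 : CertB 536870912 536870912 1073741824 536870912 587336777 62277027 3 eng mog cd3q1 cd5q2 pd3 true true true .npn 1 2 3
    ndB3q1 ndB5q2 pcB3 Cut.none Ext.none :=
  certB0 (fam := true) (s1 := true) (s2 := true) (a := 1) (b := 2) (c := 3) (cn := .npn) (n1 := ndB3q1) (n2 := ndB5q2) (pc := pcB3) (cut := Cut.none) (xt := Ext.none) (P1 := 536870912) (W1 := 536870912) (P2 := 1073741824) (W2 := 536870912) (P3 := 587336777) (W3 := 62277027) (N0 := 3) (En := eng) (mo := mog) (C1 := cd3q1) (C2 := cd5q2) (C3 := pd3)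
    rfl k0_pp_123

noncomputable def f_pp_133 : ℕ → ℕ → ℕ → ℕ → Bool := onCell 536870912 536870912 0 1230186008 587336777 62277027
    (rowB 3 eng mog cd3q1 cd5q3 pd3 0 true true true .dn 1 3 3 (qsf 536870912 536870912 0 1230186008 3) ndB3q1 ndB5q3 pcB3 Cut.none Ext.none)

def k0_pp_133 : ∃ t, chk3 f_pp_133 t 1 1 1 = true :=
  ⟨(l 4), by decide +kernel⟩

theorem c_pp_133 : CertB 536870912 536870912 0 1230186008 587336777 62277027 3 eng mog cd3q1 cd5q3 pd3 true true true .dn 1 3 3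
    ndB3q1 ndB5q3 pcB3 Cut.none Ext.none :=
  certB0 (fam := true) (s1 := true) (s2 := true) (a := 1) (b := 3) (c := 3) (cn := .dn) (n1 := ndB3q1) (n2 := ndB5q3) (pc := pcB3) (cut := Cut.none) (xt := Ext.none) (P1 := 536870912) (W1 := 536870912) (P2 := 0) (W2 := 1230186008) (P3 := 587336777) (W3 := 62277027) (N0 := 3) (En := eng) (mo := mog) (C1 := cd3q1) (C2 := cd5q3) (C3 := pd3)
    rfl k0_pp_133

noncomputable def f_pp_202_a : ℕ → ℕ → ℕ → ℕ → Bool := onCell 0 536870912 0 536870912 587336777 62277027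
    (rowB 3 eng mog cd3q2a cd5q0 pd2 0 true true true .pp 2 0 2 (qsf 0 536870912 0 536870912 2) ndB3q2a ndB5q0 pcB2 Cut.none Ext.none)

def k0_pp_202_a : ∃ t, chk3 f_pp_202_a t 1 1 1 = true :=
  ⟨(l 5), by decide +kernel⟩

theorem c_pp_202_a : CertB 0 536870912 0 536870912 587336777 62277027 3 eng mog cd3q2a cd5q0 pd2 true true true .pp 2 0 2
    ndB3q2a ndB5q0 pcB2 Cut.none Ext.none :=
  certB0 (fam := true) (s1 := true) (s2 := true) (a := 2) (b := 0) (c := 2) (cn := .pp) (n1 := ndB3q2a) (n2 := ndB5q0) (pc := pcB2) (cut := Cut.none) (xt := Ext.none) (P1 := 0) (W1 := 536870912) (P2 := 0) (W2 := 536870912) (P3 := 587336777) (W3 := 62277027) (N0 := 3) (En := eng) (mo := mog) (C1 := cd3q2a) (C2 := cd5q0) (C3 := pd2)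
    rfl k0_pp_202_a

noncomputable def f_pp_202_b : ℕ → ℕ → ℕ → ℕ → Bool := onCell 1239849684 370763052 0 536870912 587336777 62277027
    (rowB 3 eng mog cd3q2b cd5q0 pd2 0 true true true .pp 2 0 2 (qsf 1239849684 370763052 0 536870912 2) ndB3q2b ndB5q0 pcB2 Cut.none Ext.none)

def k0_pp_202_b : ∃ t, chk3 f_pp_202_b t 1 1 1 = true :=
  ⟨(l 5), by decide +kernel⟩

theorem c_pp_202_b : CertB 1239849684 370763052 0 536870912 587336777 62277027 3 eng mog cd3q2b cd5q0 pd2 true true true .pp 2 0 2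
    ndB3q2b ndB5q0 pcB2 Cut.none Ext.none :=
  certB0 (fam := true) (s1 := true) (s2 := true) (a := 2) (b := 0) (c := 2) (cn := .pp) (n1 := ndB3q2b) (n2 := ndB5q0) (pc := pcB2) (cut := Cut.none) (xt := Ext.none) (P1 := 1239849684) (W1 := 370763052) (P2 := 0) (W2 := 536870912) (P3 := 587336777) (W3 := 62277027) (N0 := 3) (En := eng) (mo := mog) (C1 := cd3q2b) (C2 := cd5q0) (C3 := pd2)
    rfl k0_pp_202_b

noncomputable def f_pp_203_a : ℕ → ℕ → ℕ → ℕ → Bool := onCell 0 536870912 0 536870912 587336777 62277027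
    (rowB 3 eng mog cd3q2a cd5q0 pd3 0 true true true .up 2 0 3 (qsf 0 536870912 0 536870912 3) ndB3q2a ndB5q0 pcB3 Cut.none Ext.none)

def k0_pp_203_a : ∃ t, chk3 f_pp_203_a t 1 1 1 = true :=
  ⟨(l 5), by decide +kernel⟩

theorem c_pp_203_a : CertB 0 536870912 0 536870912 587336777 62277027 3 eng mog cd3q2a cd5q0 pd3 true true true .up 2 0 3
    ndB3q2a ndB5q0 pcB3 Cut.none Ext.none :=
  certB0 (fam := true) (s1 := true) (s2 := true) (a := 2) (b := 0) (c := 3) (cn := .up) (n1 := ndB3q2a) (n2 := ndB5q0) (pc := pcB3) (cut := Cut.none) (xt := Ext.none) (P1 := 0) (W1 := 536870912) (P2 := 0) (W2 := 536870912) (P3 := 587336777) (W3 := 62277027) (N0 := 3) (En := eng) (mo := mog) (C1 := cd3q2a) (C2 := cd5q0) (C3 := pd3)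
    rfl k0_pp_203_a

noncomputable def f_pp_203_b : ℕ → ℕ → ℕ → ℕ → Bool := onCell 1239849684 370763052 0 536870912 587336777 62277027
    (rowB 3 eng mog cd3q2b cd5q0 pd3 0 true true true .up 2 0 3 (qsf 1239849684 370763052 0 536870912 3) ndB3q2b ndB5q0 pcB3 Cut.none Ext.none)

def k0_pp_203_b : ∃ t, chk3 f_pp_203_b t 1 1 1 = true :=
  ⟨(l 5), by decide +kernel⟩

theorem c_pp_203_b : CertB 1239849684 370763052 0 536870912 587336777 62277027 3 eng mog cd3q2b cd5q0 pd3 true true true .up 2 0 3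
    ndB3q2b ndB5q0 pcB3 Cut.none Ext.none :=
  certB0 (fam := true) (s1 := true) (s2 := true) (a := 2) (b := 0) (c := 3) (cn := .up) (n1 := ndB3q2b) (n2 := ndB5q0) (pc := pcB3) (cut := Cut.none) (xt := Ext.none) (P1 := 1239849684) (W1 := 370763052) (P2 := 0) (W2 := 536870912) (P3 := 587336777) (W3 := 62277027) (N0 := 3) (En := eng) (mo := mog) (C1 := cd3q2b) (C2 := cd5q0) (C3 := pd3)
    rfl k0_pp_203_b

noncomputable def f_pp_213_a : ℕ → ℕ → ℕ → ℕ → Bool := onCell 0 536870912 536870912 536870912 587336777 62277027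
    (rowB 3 eng mog cd3q2a cd5q1 pd3 0 true true true .pnn 2 1 3 (qsf 0 536870912 536870912 536870912 3) ndB3q2a ndB5q1 pcB3 Cut.none Ext.none)

def k0_pp_213_a : ∃ t, chk3 f_pp_213_a t 1 1 1 = true :=
  ⟨(l 4), by decide +kernel⟩

theorem c_pp_213_a : CertB 0 536870912 536870912 536870912 587336777 62277027 3 eng mog cd3q2a cd5q1 pd3 true true true .pnn 2 1 3
    ndB3q2a ndB5q1 pcB3 Cut.none Ext.none :=
  certB0 (fam := true) (s1 := true) (s2 := true) (a := 2) (b := 1) (c := 3) (cn := .pnn) (n1 := ndB3q2a) (n2 := ndB5q1) (pc := pcB3) (cut := Cut.none) (xt := Ext.none) (P1 := 0) (W1 := 536870912) (P2 := 536870912) (W2 := 536870912) (P3 := 587336777) (W3 := 62277027) (N0 := 3) (En := eng) (mo := mog) (C1 := cd3q2a) (C2 := cd5q1) (C3 := pd3)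
    rfl k0_pp_213_a

noncomputable def f_pp_213_b : ℕ → ℕ → ℕ → ℕ → Bool := onCell 1239849684 370763052 536870912 536870912 587336777 62277027
    (rowB 3 eng mog cd3q2b cd5q1 pd3 0 true true true .pnn 2 1 3 (qsf 1239849684 370763052 536870912 536870912 3) ndB3q2b ndB5q1 pcB3 Cut.none Ext.none)

def k0_pp_213_b : ∃ t, chk3 f_pp_213_b t 1 1 1 = true :=
  ⟨(l 4), by decide +kernel⟩

theorem c_pp_213_b : CertB 1239849684 370763052 536870912 536870912 587336777 62277027 3 eng mog cd3q2b cd5q1 pd3 true true true .pnn 2 1 3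
    ndB3q2b ndB5q1 pcB3 Cut.none Ext.none :=
  certB0 (fam := true) (s1 := true) (s2 := true) (a := 2) (b := 1) (c := 3) (cn := .pnn) (n1 := ndB3q2b) (n2 := ndB5q1) (pc := pcB3) (cut := Cut.none) (xt := Ext.none) (P1 := 1239849684) (W1 := 370763052) (P2 := 536870912) (W2 := 536870912) (P3 := 587336777) (W3 := 62277027) (N0 := 3) (En := eng) (mo := mog) (C1 := cd3q2b) (C2 := cd5q1) (C3 := pd3)
    rfl k0_pp_213_b

noncomputable def f_pp_303 : ℕ → ℕ → ℕ → ℕ → Bool := onCell 1610612736 536870912 0 536870912 587336777 62277027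
    (rowB 3 eng mog cd3q3 cd5q0 pd3 0 true true true .npn 3 0 3 (qsf 1610612736 536870912 0 536870912 3) ndB3q3 ndB5q0 pcB3 Cut.none Ext.none)

def k0_pp_303 : ∃ t, chk3 f_pp_303 t 1 1 1 = true :=
  ⟨(l 4), by decide +kernel⟩

theorem c_pp_303 : CertB 1610612736 536870912 0 536870912 587336777 62277027 3 eng mog cd3q3 cd5q0 pd3 true true true .npn 3 0 3
    ndB3q3 ndB5q0 pcB3 Cut.none Ext.none :=
  certB0 (fam := true) (s1 := true) (s2 := true) (a := 3) (b := 0) (c := 3) (cn := .npn) (n1 := ndB3q3) (n2 := ndB5q0) (pc := pcB3) (cut := Cut.none) (xt := Ext.none) (P1 := 1610612736) (W1 := 536870912) (P2 := 0) (W2 := 536870912) (P3 := 587336777) (W3 := 62277027) (N0 := 3) (En := eng) (mo := mog) (C1 := cd3q3) (C2 := cd5q0) (C3 := pd3)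
    rfl k0_pp_303

noncomputable def f_pp_313 : ℕ → ℕ → ℕ → ℕ → Bool := onCell 1610612736 536870912 536870912 536870912 587336777 62277027
    (rowB 3 eng mog cd3q3 cd5q1 pd3 0 true true true .dn 3 1 3 (qsf 1610612736 536870912 536870912 536870912 3) ndB3q3 ndB5q1 pcB3 Cut.none Ext.none)

def k0_pp_313 : ∃ t, chk3 f_pp_313 t 1 1 1 = true :=
  ⟨(l 4), by decide +kernel⟩

theorem c_pp_313 : CertB 1610612736 536870912 536870912 536870912 587336777 62277027 3 eng mog cd3q3 cd5q1 pd3 true true true .dn 3 1 3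
    ndB3q3 ndB5q1 pcB3 Cut.none Ext.none :=
  certB0 (fam := true) (s1 := true) (s2 := true) (a := 3) (b := 1) (c := 3) (cn := .dn) (n1 := ndB3q3) (n2 := ndB5q1) (pc := pcB3) (cut := Cut.none) (xt := Ext.none) (P1 := 1610612736) (W1 := 536870912) (P2 := 536870912) (W2 := 536870912) (P3 := 587336777) (W3 := 62277027) (N0 := 3) (En := eng) (mo := mog) (C1 := cd3q3) (C2 := cd5q1) (C3 := pd3)
    rfl k0_pp_313

noncomputable def f_pm_001 : ℕ → ℕ → ℕ → ℕ → Bool := onCell 0 536870912 0 536870912 587336777 62277027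
    (rowB 3 eng mog cd3q0 cd5q0 pd1 0 true true false .up 0 0 1 (qsf 0 536870912 0 536870912 1) ndB3q0 ndB5q0 pcB1 Cut.none Ext.none)

def k0_pm_001 : ∃ t, chk3 f_pm_001 t 1 1 1 = true :=
  ⟨(a (l 3) (l 3)), by decide +kernel⟩

theorem c_pm_001 : CertB 0 536870912 0 536870912 587336777 62277027 3 eng mog cd3q0 cd5q0 pd1 true true false .up 0 0 1
    ndB3q0 ndB5q0 pcB1 Cut.none Ext.none :=
  certB0 (fam := true) (s1 := true) (s2 := false) (a := 0) (b := 0) (c := 1) (cn := .up) (n1 := ndB3q0) (n2 := ndB5q0) (pc := pcB1) (cut := Cut.none) (xt := Ext.none) (P1 := 0) (W1 := 536870912) (P2 := 0) (W2 := 536870912) (P3 := 587336777) (W3 := 62277027) (N0 := 3) (En := eng) (mo := mog) (C1 := cd3q0) (C2 := cd5q0) (C3 := pd1)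
    rfl k0_pm_001

noncomputable def cut_pm_011 : Cut := Cut.of [[⟨0, 0, 0, 67108864⟩, ⟨1, 1, 0, 67108864⟩, ⟨2, 1, 0, 67108864⟩]]

noncomputable def f_pm_011 : ℕ → ℕ → ℕ → ℕ → Bool := onCell 0 536870912 536870912 536870912 587336777 62277027
    (rowB 3 eng mog cd3q0 cd5q1 pd1 1 true true false .pnn 0 1 1 (qsf 0 536870912 536870912 536870912 1) ndB3q0 ndB5q1 pcB1 cut_pm_011 Ext.none)

def k0_pm_011 : ∃ t, chk3 f_pm_011 t 1 1 1 = true :=
  ⟨(b (l 3) (b (l 3) (a (b (l 3) (a (a (b (l 3) (a (b (l 3) (l 6)) (l 3))) (l 3)) (l 3))) (l 3)))), by decide +kernel⟩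

theorem c_pm_011 : CertB 0 536870912 536870912 536870912 587336777 62277027 3 eng mog cd3q0 cd5q1 pd1 true true false .pnn 0 1 1
    ndB3q0 ndB5q1 pcB1 cut_pm_011 Ext.none :=
  certB1 (fam := true) (s1 := true) (s2 := false) (a := 0) (b := 1) (c := 1) (cn := .pnn) (n1 := ndB3q0) (n2 := ndB5q1) (pc := pcB1) (cut := cut_pm_011) (xt := Ext.none) (P1 := 0) (W1 := 536870912) (P2 := 536870912) (W2 := 536870912) (P3 := 587336777) (W3 := 62277027) (N0 := 3) (En := eng) (mo := mog) (C1 := cd3q0) (C2 := cd5q1) (C3 := pd1)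
    rfl (fun _ => rfl) k0_pm_011

noncomputable def cut_pm_012 : Cut := Cut.of [[⟨0, 0, 0, 67108864⟩, ⟨1, 1, 0, 67108864⟩, ⟨2, 1, 0, 67108864⟩]]

noncomputable def f_pm_012 : ℕ → ℕ → ℕ → ℕ → Bool := onCell 1073741824 536870912 536870912 536870912 587336777 62277027
    (rowB 3 eng mog cd3q0 cd5q1 pd2 2 true true false .pnp 0 1 2 (qsf 0 536870912 536870912 536870912 2) ndB3q0 ndB5q1 pcB2 cut_pm_012 Ext.none)

def k0_pm_012 : ∃ t, chk3 f_pm_012 t 4 1 1 = true :=
  ⟨(a (a (b (l 3) (b (l 3) (b (a (l 3) (b (l 16601272) (a (l 16636416) (l 16613312)))) (a (b (b (l 3) (a (l 3) (l 16716208))) (l 6)) (b (b (a (l 16655888) (l 16631464)) (a (l 16711488) (l 16644072))) (b (a (l 6) (l 16678064)) (l 6))))))) (b (b (l 192367424967) (b (l 16681944) (l 142438414199))) (b (b (a (l 16509088) (l 16483432)) (a (l 16659552) (b (l 16494488) (l 16506384)))) (b (b (a (l 16580304) (l 16519928)) (a (b (l 16574344) (l 16584808)) (l 16536232))) (b (a (b (l 16595512) (l 16606584))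 (b (l 16549312) (l 16558408))) (b (a (b (l 16615296) (l 16621176)) (l 16568024)) (a (b (l 16627272) (l 6)) (b (l 16575584) (l 16580792))))))))) (b (a (b (a (l 16457072) (l 16462296)) (b (l 16535136) (a (l 16456488) (l 16447200)))) (b (l 16615680) (b (l 16446480) (l 16431400)))) (b (a (b (a (l 16462072) (l 16443096)) (a (l 16470904) (l 16442712))) (b (l 16417168) (a (l 16417112) (l 16394424)))) (b (a (b (l 16465856) (l 16517120)) (a (l 16418216) (l 16387288))) (a (b (a (l 16508592) (l 16465360)) (b (l 16559312) (a (l 16527832) (l 16479528)))) (b (a (l 16424448) (l 16386344)) (a (l 16473320) (l 16388440)))))))), by decide +kernel⟩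

def k1_pm_012 : ∃ t, chk3 f_pm_012 t 5 1 1 = true :=
  ⟨(b (b (a (a (a (l 16478400) (l 2)) (l 2)) (l 2)) (a (a (a (l 16433448) (a (l 16435848) (a (l 16440192) (a (l 16444936) (l 16450184))))) (l 16452424)) (l 16467464))) (a (b (a (a (b (l 16398144) (l 16375720)) (a (b (l 16393400) (l 16365256)) (a (b (l 16393744) (l 16362120)) (b (a (l 16395776) (l 16398080)) (l 16363320))))) (b (l 16392680) (l 16350200))) (a (a (b (l 16360128) (b (l 16351656) (l 16411184))) (a (b (l 16342768) (b (l 16328216) (l 16320352))) (a (b (l 16335560) (b (l 16317480) (l 16307256))) (b (l 16332984) (b (l 16311864) (a (l 16301064) (l 16297208))))))) (b (l 16311320) (b (l 16282472) (l 16264024))))) (b (b (l 16389920) (l 16331496)) (b (l 16314744) (b (l 16225416) (a (l 16212840) (l 16175944))))))), by decide +kernel⟩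

def k2_pm_012 : ∃ t, chk3 f_pm_012 t 3 1 1 = true :=
  ⟨(b (a (b (l 2) (a (l 16507232) (l 2))) (l 2)) (a (b (a (l 16378696) (l 16433064)) (a (b (l 16262440) (b (l 16195784) (l 16147448))) (b (l 16299736) (l 16190640)))) (b (a (l 16508784) (l 2)) (a (b (l 16366848) (l 16247256)) (l 16395440))))), by decide +kernel⟩

theorem s3_pm_012 : ∃ t, chk3 f_pm_012 t 2 1 1 = true := ex3_a k0_pm_012 k1_pm_012

theorem s4_pm_012 : ∃ t, chk3 f_pm_012 t 1 1 1 = true := ex3_a s3_pm_012 k2_pm_012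

theorem c_pm_012 : CertB 0 536870912 536870912 536870912 587336777 62277027 3 eng mog cd3q0 cd5q1 pd2 true true false .pnp 0 1 2
    ndB3q0 ndB5q1 pcB2 cut_pm_012 Ext.none :=
  certB2 (fam := true) (s1 := true) (s2 := false) (a := 0) (b := 1) (c := 2) (cn := .pnp) (n1 := ndB3q0) (n2 := ndB5q1) (pc := pcB2) (cut := cut_pm_012) (xt := Ext.none) (P1 := 0) (W1 := 536870912) (P2 := 536870912) (W2 := 536870912) (P3 := 587336777) (W3 := 62277027) (N0 := 3) (En := eng) (mo := mog) (C1 := cd3q0) (C2 := cd5q1) (C3 := pd2)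
    rfl (fun _ => rfl) s4_pm_012

noncomputable def f_pm_022 : ℕ → ℕ → ℕ → ℕ → Bool := onCell 0 536870912 1073741824 536870912 587336777 62277027
    (rowB 3 eng mog cd3q0 cd5q2 pd2 1 true true false .pp 0 2 2 (qsf 0 536870912 1073741824 536870912 2) ndB3q0 ndB5q2 pcB2 Cut.none Ext.none)

def k0_pm_022 : ∃ t, chk3 f_pm_022 t 1 2 1 = true :=
  ⟨(b (b (l 3) (a (b (l 3) (a (b (l 3) (b (a (l 3) (a (l 3) (l 16599640))) (a (b (a (l 3) (l 16558144)) (a (a (a (l 16518152) (l 16524224)) (l 16533056)) (l 16550160))) (a (l 16573056) (c (l 16587904) (l 16584808)))))) (a (b (l 1) (a (b (l 1) (l 353831180695)) (l 1))) (l 1)))) (l 1))) (b (a (a (b (b (a (b (b (a (a (a (l 16510248) (l 16516264)) (l 16525152)) (a (l 16536624) (l 16547560))) (a (a (a (l 16502440) (l 16508480)) (l 16517400)) (l 16534480))) (a (a (c (l 16497816) (l 16489320)) (l 16506048)) (l 16523016))) (b (a (l 16599904) (l 16571760)) (l 16571528))) (b (a (b (a (a (l 16482784) (l 16494560)) (l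 16511392)) (a (l 16481056) (l 16503608))) (a (l 16527536) (l 16543360))) (b (a (a (a (l 16467496) (l 16479152)) (l 16495872)) (l 16524848)) (a (b (a (b (l 16468688) (l 16466824)) (l 16490152)) (a (b (b (b (l 16465664) (b (l 16465312) (l 16465088))) (l 16464512)) (l 16463128)) (c (l 16488784) (l 16567040)))) (b (l 16519192) (l 16578336)))))) (a (a (a (b (l 16441704) (l 16413464)) (l 16438576)) (l 16475960)) (l 16483728))) (a (b (b (a (b (l 16581904) (l 16568776)) (l 1)) (b (a (l 16555752) (l 1)) (b (a (l 16545840) (l 1)) (b (l 232498162471) (l 202433445207))))) (l 144988216647)) (b (l 1) (l 331282571287)))) (l 1)) (a (a (a (a (b (a (l 16376432) (l 16384928)) (l 16340560)) (b (l 16398456) (a (l 16349432) (l 16353832)))) (a (l 16431880) (l 16405288))) (a (l 16434976) (b (l 16489128) (l 16445184)))) (a (a (l 333966981207) (l 1)) (l 1))))), by decide +kernel⟩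

def k1_pm_022 : ∃ t, chk3 f_pm_022 t 1 3 1 = true :=
  ⟨(a (b (a (a (b (a (b (l 16310976) (l 16292888)) (l 16309472)) (a (a (b (l 16285936) (l 16302824)) (l 16334064)) (l 16292656))) (b (b (l 16391296) (l 16322072)) (l 16457568))) (b (a (l 16340328) (l 16375776)) (a (l 16350744) (l 16270944)))) (a (a (b (a (b (l 16332296) (l 16368456)) (b (l 16314896) (l 16344176))) (a (b (l 16406432) (l 16448728)) (l 16394184))) (b (b (l 16299288) (l 16313680)) (l 16350928))) (b (a (l 16273088) (l 16205464)) (a (l 16300016) (l 16229320))))) (b (a (b (a (l 16411400) (l 369937276903)) (l 113849841287)) (b (l 1) (l 336651410247))) (a (b (l 16280496) (a (l 16178152) (l 16263888))) (b (l 16378872) (l 16359960))))), by decide +kernel⟩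

theorem s2_pm_022 : ∃ t, chk3 f_pm_022 t 1 1 1 = true := ex3_b k0_pm_022 k1_pm_022

theorem c_pm_022 : CertB 0 536870912 1073741824 536870912 587336777 62277027 3 eng mog cd3q0 cd5q2 pd2 true true false .pp 0 2 2
    ndB3q0 ndB5q2 pcB2 Cut.none Ext.none :=
  certB1 (fam := true) (s1 := true) (s2 := false) (a := 0) (b := 2) (c := 2) (cn := .pp) (n1 := ndB3q0) (n2 := ndB5q2) (pc := pcB2) (cut := Cut.none) (xt := Ext.none) (P1 := 0) (W1 := 536870912) (P2 := 1073741824) (W2 := 536870912) (P3 := 587336777) (W3 := 62277027) (N0 := 3) (En := eng) (mo := mog) (C1 := cd3q0) (C2 := cd5q2) (C3 := pd2)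
    rfl (fun _ => rfl) s2_pm_022

noncomputable def f_pm_023 : ℕ → ℕ → ℕ → ℕ → Bool := onCell 1610612736 536870912 1073741824 536870912 587336777 62277027
    (rowB 3 eng mog cd3q0 cd5q2 pd3 2 true true false .up 0 2 3 (qsf 0 536870912 1073741824 536870912 3) ndB3q0 ndB5q2 pcB3 Cut.none Ext.none)

def k0_pm_023 : ∃ t, chk3 f_pm_023 t 1 1 1 = true :=
  ⟨(b (a (a (a (b (a (l 16427432) (l 16471984)) (a (l 16271704) (l 16313624))) (a (b (l 16521392) (l 16351912)) (b (l 16575008) (l 16392800)))) (a (b (l 16631712) (l 16483360)) (b (l 2) (l 16585384)))) (a (a (l 196058777879) (l 2)) (l 2))) (b (a (a (a (a (b (l 16184912) (l 16278976)) (l 16210240)) (a (l 16183944) (l 16245968))) (a (l 16384616) (l 16522056))) (a (l 16777816) (a (l 16671576) (l 2)))) (a (a (a (a (b (l 16352224) (a (l 16458576) (l 16404728))) (l 16530288)) (a (l 16402312) (l 16425152))) (a (l 16722936) (l 16554648))) (a (a (l 16629984) (l 16694096)) (a (l 16745464) (a (l 16782328) (l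 4))))))), by decide +kernel⟩

theorem c_pm_023 : CertB 0 536870912 1073741824 536870912 587336777 62277027 3 eng mog cd3q0 cd5q2 pd3 true true false .up 0 2 3
    ndB3q0 ndB5q2 pcB3 Cut.none Ext.none :=
  certB2 (fam := true) (s1 := true) (s2 := false) (a := 0) (b := 2) (c := 3) (cn := .up) (n1 := ndB3q0) (n2 := ndB5q2) (pc := pcB3) (cut := Cut.none) (xt := Ext.none) (P1 := 0) (W1 := 536870912) (P2 := 1073741824) (W2 := 536870912) (P3 := 587336777) (W3 := 62277027) (N0 := 3) (En := eng) (mo := mog) (C1 := cd3q0) (C2 := cd5q2) (C3 := pd3)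
    rfl (fun _ => rfl) k0_pm_023

noncomputable def f_pm_033 : ℕ → ℕ → ℕ → ℕ → Bool := onCell 1610612736 536870912 0 1230186008 587336777 62277027
    (rowB 3 eng mog cd3q0 cd5q3 pd3 2 true true false .pnn 0 3 3 (qsf 0 536870912 0 1230186008 3) ndB3q0 ndB5q3 pcB3 Cut.none Ext.none)

def k0_pm_033 : ∃ t, chk3 f_pm_033 t 1 1 1 = true :=
  ⟨(a (b (l 1) (b (b (l 1) (a (l 1) (a (l 1) (a (l 1) (b (l 1) (l 634077524679)))))) (b (a (l 1) (a (a (b (l 1) (a (l 583611575143) (l 393022419303))) (b (l 608307640615) (l 372621358007))) (b (a (l 373695052007) (l 16489312)) (a (l 16491128) (l 16515448))))) (a (b (a (l 1) (a (b (l 1) (l 521871282887)) (b (b (l 519187044167) (l 499859608567)) (a (l 16365440) (l 16428328))))) (a (a (b (l 1) (b (a (l 1) (b (l 509523438759) (l 511670964935))) (a (c (l 551399521671) (l 550862478055)) (c (l 16505944) (l 16422712))))) (b (l 526166170295) (b (b (l 16329312) (l 16367672)) (l 16472400)))) (a (b (l 16359512) (b (l 16370136)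 (l 16497456))) (b (l 16398664) (l 16466880))))) (a (b (b (a (b (a (l 16458960) (l 16469240)) (l 16460112)) (l 16484504)) (a (l 16452416) (l 16479112))) (b (a (l 16438224) (l 16470336)) (a (l 16499680) (l 16528384)))) (b (b (l 16521680) (l 16522496)) (b (l 16521992) (l 16573632)))))))) (a (b (l 1) (b (a (b (l 1) (a (l 275448172695) (l 16527768))) (b (a (l 16536160) (l 16549248)) (a (l 16556104) (l 16576432)))) (b (a (b (l 16537984) (l 16564440)) (a (l 16599864) (l 16629032))) (b (a (b (l 16585480) (l 16592120)) (a (l 16641880) (l 16673024))) (a (b (l 16596368) (l 16638432)) (b (l 16668232) (l 16704784))))))) (b (b (l 4) (l 4)) (a (b (b (l 4) (l 4)) (b (a (l 16650800) (l 4)) (b (l 16708416) (b (l 16721232) (l 16758816))))) (b (l 4) (l 4)))))), by decide +kernel⟩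

theorem c_pm_033 : CertB 0 536870912 0 1230186008 587336777 62277027 3 eng mog cd3q0 cd5q3 pd3 true true false .pnn 0 3 3
    ndB3q0 ndB5q3 pcB3 Cut.none Ext.none :=
  certB2 (fam := true) (s1 := true) (s2 := false) (a := 0) (b := 3) (c := 3) (cn := .pnn) (n1 := ndB3q0) (n2 := ndB5q3) (pc := pcB3) (cut := Cut.none) (xt := Ext.none) (P1 := 0) (W1 := 536870912) (P2 := 0) (W2 := 1230186008) (P3 := 587336777) (W3 := 62277027) (N0 := 3) (En := eng) (mo := mog) (C1 := cd3q0) (C2 := cd5q3) (C3 := pd3)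
    rfl (fun _ => rfl) k0_pm_033

noncomputable def f_pm_101 : ℕ → ℕ → ℕ → ℕ → Bool := onCell 536870912 536870912 0 536870912 587336777 62277027
    (rowB 3 eng mog cd3q1 cd5q0 pd1 2 true true false .npn 1 0 1 (qsf 536870912 536870912 0 536870912 1) ndB3q1 ndB5q0 pcB1 Cut.none Ext.none)

def k0_pm_101 : ∃ t, chk3 f_pm_101 t 1 1 1 = true :=
  ⟨(a (l 3) (b (l 3) (l 3))), by decide +kernel⟩

theorem c_pm_101 : CertB 536870912 536870912 0 536870912 587336777 62277027 3 eng mog cd3q1 cd5q0 pd1 true true false .npn 1 0 1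
    ndB3q1 ndB5q0 pcB1 Cut.none Ext.none :=
  certB2 (fam := true) (s1 := true) (s2 := false) (a := 1) (b := 0) (c := 1) (cn := .npn) (n1 := ndB3q1) (n2 := ndB5q0) (pc := pcB1) (cut := Cut.none) (xt := Ext.none) (P1 := 536870912) (W1 := 536870912) (P2 := 0) (W2 := 536870912) (P3 := 587336777) (W3 := 62277027) (N0 := 3) (En := eng) (mo := mog) (C1 := cd3q1) (C2 := cd5q0) (C3 := pd1)
    rfl (fun _ => rfl) k0_pm_101

noncomputable def f_pm_102 : ℕ → ℕ → ℕ → ℕ → Bool := onCell 1073741824 536870912 0 536870912 587336777 62277027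
    (rowB 3 eng mog cd3q1 cd5q0 pd2 2 true true false .npp 1 0 2 (qsf 536870912 536870912 0 536870912 2) ndB3q1 ndB5q0 pcB2 Cut.none Ext.none)

def k0_pm_102 : ∃ t, chk3 f_pm_102 t 2 1 1 = true :=
  ⟨(b (a (a (b (l 3) (l 3)) (a (b (b (a (b (l 2) (l 91972068263)) (l 2)) (b (a (l 16594736) (l 16563944)) (a (l 16618088) (l 16594552)))) (b (a (l 16630032) (l 16641488)) (a (l 16614824) (l 16704816)))) (b (b (l 2) (a (b (l 16533464) (l 16567984)) (b (l 2) (l 16539048)))) (b (a (l 16605824) (l 16586504)) (a (l 16621904) (l 16616616)))))) (b (a (b (l 2) (a (a (b (l 2) (l 16510072)) (l 2)) (l 2))) (l 2)) (a (a (a (b (l 16564240) (l 16607704)) (a (b (l 16546112) (l 16598688)) (a (b (l 16536696) (l 16593328)) (b (l 16530288) (l 16589144))))) (b (l 16502104) (l 16570952))) (b (b (l 2) (l 16449464)) (l 16514768))))) (a (b (a (l 3) (b (a (a (l 16585544) (l 16600464)) (a (l 16612160) (l 16617136))) (a (b (l 16571832) (l 16557384)) (b (l 16602728) (l 16592520)))))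 (a (l 3) (a (b (b (l 16541952) (l 16526008)) (b (l 16511528) (l 16498416))) (b (b (l 16578616) (l 16561328)) (l 16616720))))) (b (b (a (a (a (l 16619192) (a (l 16618928) (a (l 16618224) (a (l 16617688) (l 16617192))))) (l 16610224)) (l 16580624)) (a (a (a (l 16676648) (a (l 16619808) (a (l 16622856) (a (l 16624712) (l 16668032))))) (l 16626856)) (l 16619288))) (b (a (a (a (l 16589472) (a (l 16600248) (a (l 16606528) (a (l 16610784) (l 16614368))))) (l 16621648)) (l 16634528)) (a (a (a (l 16551592) (a (l 16563576) (a (l 16571352) (a (l 16577088) (l 16582288))))) (l 16593528)) (l 16622536)))))), by decide +kernel⟩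

def k1_pm_102 : ∃ t, chk3 f_pm_102 t 3 1 1 = true :=
  ⟨(b (a (b (l 2) (a (b (l 2) (l 16443160)) (l 2))) (l 2)) (b (a (b (a (l 16528880) (l 16485000)) (a (l 16595496) (l 16565416))) (b (l 2) (a (l 16540872) (l 2)))) (a (b (a (l 16641616) (l 16644400)) (l 16744432)) (b (a (l 16648624) (l 16657512)) (l 16796848))))), by decide +kernel⟩

theorem s2_pm_102 : ∃ t, chk3 f_pm_102 t 1 1 1 = true := ex3_a k0_pm_102 k1_pm_102

theorem c_pm_102 : CertB 536870912 536870912 0 536870912 587336777 62277027 3 eng mog cd3q1 cd5q0 pd2 true true false .npp 1 0 2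
    ndB3q1 ndB5q0 pcB2 Cut.none Ext.none :=
  certB2 (fam := true) (s1 := true) (s2 := false) (a := 1) (b := 0) (c := 2) (cn := .npp) (n1 := ndB3q1) (n2 := ndB5q0) (pc := pcB2) (cut := Cut.none) (xt := Ext.none) (P1 := 536870912) (W1 := 536870912) (P2 := 0) (W2 := 536870912) (P3 := 587336777) (W3 := 62277027) (N0 := 3) (En := eng) (mo := mog) (C1 := cd3q1) (C2 := cd5q0) (C3 := pd2)
    rfl (fun _ => rfl) s2_pm_102

noncomputable def f_pm_112 : ℕ → ℕ → ℕ → ℕ → Bool := onCell 536870912 536870912 1073741824 536870912 587336777 62277027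
    (rowB 3 eng mog cd3q1 cd5q1 pd2 1 true true false .dn 1 1 2 (qsf 536870912 536870912 536870912 536870912 2) ndB3q1 ndB5q1 pcB2 Cut.none Ext.none)

def k0_pm_112 : ∃ t, chk3 f_pm_112 t 1 1 1 = true :=
  ⟨(a (b (b (b (a (l 3) (l 1)) (b (a (l 16547320) (l 1)) (a (l 16491176) (l 324303593383)))) (b (b (b (a (l 16492744) (l 16539872)) (b (a (l 16496088) (l 16547088)) (b (l 16717144) (a (a (l 16492976) (l 16523472)) (a (l 16549984) (l 1)))))) (a (l 16509800) (l 16567808))) (a (l 16509600) (l 16584960)))) (b (a (b (l 16512144) (l 16530192)) (l 16636888)) (a (l 16577936) (l 16794288)))) (b (b (l 1) (b (l 1) (a (l 16611976) (l 1)))) (b (a (l 16684280) (l 519724868167)) (a (l 16913736) (l 16876400))))), by decide +kernel⟩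

theorem c_pm_112 : CertB 536870912 536870912 536870912 536870912 587336777 62277027 3 eng mog cd3q1 cd5q1 pd2 true true false .dn 1 1 2
    ndB3q1 ndB5q1 pcB2 Cut.none Ext.none :=
  certB1 (fam := true) (s1 := true) (s2 := false) (a := 1) (b := 1) (c := 2) (cn := .dn) (n1 := ndB3q1) (n2 := ndB5q1) (pc := pcB2) (cut := Cut.none) (xt := Ext.none) (P1 := 536870912) (W1 := 536870912) (P2 := 536870912) (W2 := 536870912) (P3 := 587336777) (W3 := 62277027) (N0 := 3) (En := eng) (mo := mog) (C1 := cd3q1) (C2 := cd5q1) (C3 := pd2)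
    rfl (fun _ => rfl) k0_pm_112

noncomputable def f_pm_113 : ℕ → ℕ → ℕ → ℕ → Bool := onCell 536870912 536870912 1610612736 536870912 587336777 62277027
    (rowB 3 eng mog cd3q1 cd5q1 pd3 1 true true false .nn 1 1 3 (qsf 536870912 536870912 536870912 536870912 3) ndB3q1 ndB5q1 pcB3 Cut.none Ext.none)

def k0_pm_113 : ∃ t, chk3 f_pm_113 t 1 1 1 = true :=
  ⟨(a (b (b (b (a (b (l 16581896) (l 16577984)) (l 16892880)) (b (l 16743376) (l 16731720))) (b (l 339939302391) (l 405438465639))) (b (b (l 431208208919) (l 2)) (l 2))) (b (b (b (a (l 17094008) (l 17313960)) (b (l 17103648) (l 17061888))) (b (a (l 16936608) (l 17067096)) (l 16905008))) (b (b (l 16837032) (l 16782488)) (b (a (l 16732576) (l 16722696)) (b (l 16678352) (l 4)))))), by decide +kernel⟩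

theorem c_pm_113 : CertB 536870912 536870912 536870912 536870912 587336777 62277027 3 eng mog cd3q1 cd5q1 pd3 true true false .nn 1 1 3
    ndB3q1 ndB5q1 pcB3 Cut.none Ext.none :=
  certB1 (fam := true) (s1 := true) (s2 := false) (a := 1) (b := 1) (c := 3) (cn := .nn) (n1 := ndB3q1) (n2 := ndB5q1) (pc := pcB3) (cut := Cut.none) (xt := Ext.none) (P1 := 536870912) (W1 := 536870912) (P2 := 536870912) (W2 := 536870912) (P3 := 587336777) (W3 := 62277027) (N0 := 3) (En := eng) (mo := mog) (C1 := cd3q1) (C2 := cd5q1) (C3 := pd3)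
    rfl (fun _ => rfl) k0_pm_113

noncomputable def f_pm_123 : ℕ → ℕ → ℕ → ℕ → Bool := onCell 1610612736 536870912 1073741824 536870912 587336777 62277027
    (rowB 3 eng mog cd3q1 cd5q2 pd3 2 true true false .npn 1 2 3 (qsf 536870912 536870912 1073741824 536870912 3) ndB3q1 ndB5q2 pcB3 Cut.none Ext.none)

def k0_pm_123 : ∃ t, chk3 f_pm_123 t 1 1 1 = true :=
  ⟨(a (a (b (a (b (a (l 16593560) (l 16641936)) (l 1)) (a (b (l 16705584) (l 1)) (b (l 16789024) (l 16601640)))) (l 1)) (b (a (b (l 16850296) (l 16655464)) (b (l 16898880) (l 16720672))) (a (l 1) (l 277059229639)))) (a (b (b (a (l 16910064) (l 16887616)) (a (l 16750768) (l 16750736))) (b (l 16931832) (a (l 1) (l 16746648)))) (a (b (b (l 16841536) (l 16794512)) (b (l 16718728) (l 16798040))) (a (b (b (l 16793016) (l 16720832)) (l 16786224)) (b (a (b (l 16765624) (l 16728440)) (b (a (l 16758928) (l 16933472)) (l 4))) (a (l 4) (l 4))))))), by decide +kernel⟩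

theorem c_pm_123 : CertB 536870912 536870912 1073741824 536870912 587336777 62277027 3 eng mog cd3q1 cd5q2 pd3 true true false .npn 1 2 3
    ndB3q1 ndB5q2 pcB3 Cut.none Ext.none :=
  certB2 (fam := true) (s1 := true) (s2 := false) (a := 1) (b := 2) (c := 3) (cn := .npn) (n1 := ndB3q1) (n2 := ndB5q2) (pc := pcB3) (cut := Cut.none) (xt := Ext.none) (P1 := 536870912) (W1 := 536870912) (P2 := 1073741824) (W2 := 536870912) (P3 := 587336777) (W3 := 62277027) (N0 := 3) (En := eng) (mo := mog) (C1 := cd3q1) (C2 := cd5q2) (C3 := pd3)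
    rfl (fun _ => rfl) k0_pm_123

noncomputable def f_pm_133 : ℕ → ℕ → ℕ → ℕ → Bool := onCell 536870912 536870912 0 1230186008 587336777 62277027
    (rowB 3 eng mog cd3q1 cd5q3 pd3 0 true true false .dn 1 3 3 (qsf 536870912 536870912 0 1230186008 3) ndB3q1 ndB5q3 pcB3 Cut.none Ext.none)

def k0_pm_133 : ∃ t, chk3 f_pm_133 t 1 1 1 = true :=
  ⟨(b (l 2) (b (l 2) (l 4))), by decide +kernel⟩

theorem c_pm_133 : CertB 536870912 536870912 0 1230186008 587336777 62277027 3 eng mog cd3q1 cd5q3 pd3 true true false .dn 1 3 3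
    ndB3q1 ndB5q3 pcB3 Cut.none Ext.none :=
  certB0 (fam := true) (s1 := true) (s2 := false) (a := 1) (b := 3) (c := 3) (cn := .dn) (n1 := ndB3q1) (n2 := ndB5q3) (pc := pcB3) (cut := Cut.none) (xt := Ext.none) (P1 := 536870912) (W1 := 536870912) (P2 := 0) (W2 := 1230186008) (P3 := 587336777) (W3 := 62277027) (N0 := 3) (En := eng) (mo := mog) (C1 := cd3q1) (C2 := cd5q3) (C3 := pd3)
    rfl k0_pm_133

noncomputable def f_pm_202_a : ℕ → ℕ → ℕ → ℕ → Bool := onCell 0 536870912 0 536870912 587336777 62277027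
    (rowB 3 eng mog cd3q2a cd5q0 pd2 0 true true false .pp 2 0 2 (qsf 0 536870912 0 536870912 2) ndB3q2a ndB5q0 pcB2 Cut.none Ext.none)

def k0_pm_202_a : ∃ t, chk3 f_pm_202_a t 1 1 1 = true :=
  ⟨(a (b (b (b (a (b (l 16504672) (l 16522448)) (b (a (l 16513136) (l 16525296)) (l 16527992))) (a (b (l 16544152) (l 16568376)) (l 16552648))) (b (a (b (l 16594600) (l 16621848)) (b (l 16583448) (l 16607128))) (a (l 16664456) (b (l 16633640) (l 16661448))))) (b (b (a (l 16717832) (l 16703528)) (b (a (l 16753656) (l 16746696)) (a (l 4) (l 16775840)))) (b (b (l 16817800) (l 2)) (l 2)))) (b (b (a (b (b (a (l 16542192) (l 16564048)) (a (l 16539088) (l 16553648))) (a (l 16552752) (b (l 16551784) (l 16560424)))) (b (a (b (b (l 16597824) (l 16586736)) (l 16574032)) (a (b (b (l 16624312) (l 16610544)) (l 16593776)) (b (a (b (l 16638480) (l 16624144)) (l 16641904)) (l 16610992)))) (a (b (l 16564696) (l 16565768)) (b (a (l 16580232) (l 16595640)) (l 16584152)))))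 (a (b (l 16586832) (a (l 16636016) (l 16631936))) (b (a (l 16586688) (b (a (l 16585984) (l 16600128)) (l 16611896))) (a (l 16634400) (l 16653304))))) (b (b (a (a (l 16694408) (l 16693688)) (a (l 16701512) (b (l 16707952) (l 16751768)))) (a (b (l 16742624) (l 16777600)) (b (a (l 16758576) (l 16796920)) (a (l 16796376) (l 16839888))))) (a (b (b (l 16819904) (l 16872752)) (l 2)) (b (a (l 16876984) (l 16925984)) (a (l 16919008) (l 16961504))))))), by decide +kernel⟩

theorem c_pm_202_a : CertB 0 536870912 0 536870912 587336777 62277027 3 eng mog cd3q2a cd5q0 pd2 true true false .pp 2 0 2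
    ndB3q2a ndB5q0 pcB2 Cut.none Ext.none :=
  certB0 (fam := true) (s1 := true) (s2 := false) (a := 2) (b := 0) (c := 2) (cn := .pp) (n1 := ndB3q2a) (n2 := ndB5q0) (pc := pcB2) (cut := Cut.none) (xt := Ext.none) (P1 := 0) (W1 := 536870912) (P2 := 0) (W2 := 536870912) (P3 := 587336777) (W3 := 62277027) (N0 := 3) (En := eng) (mo := mog) (C1 := cd3q2a) (C2 := cd5q0) (C3 := pd2)
    rfl k0_pm_202_a

noncomputable def f_pm_202_b : ℕ → ℕ → ℕ → ℕ → Bool := onCell 1073741824 536870912 0 536870912 587336777 62277027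
    (rowB 3 eng mog cd3q2b cd5q0 pd2 2 true true false .pp 2 0 2 (qsf 1239849684 370763052 0 536870912 2) ndB3q2b ndB5q0 pcB2 Cut.none Ext.none)

def k0_pm_202_b : ∃ t, chk3 f_pm_202_b t 1 1 1 = true :=
  ⟨(a (b (a (l 1) (b (a (b (b (a (l 16532456) (l 16500728)) (l 361884350791)) (l 1)) (b (b (l 16453312) (l 16509896)) (a (l 486975179799) (l 348999334711)))) (l 1))) (l 1)) (b (a (b (a (b (b (l 16368280) (l 16448288)) (a (l 16550864) (l 16530592))) (b (l 16299504) (l 16486768))) (a (b (l 537978083911) (l 1)) (b (l 299070200935) (l 596496899447)))) (a (b (l 16298536) (b (l 16565064) (l 16668632))) (b (l 16315488) (b (l 16481256) (l 16646936))))) (b (a (l 1) (b (a (l 618508971831) (l 16723600)) (a (l 1) (l 4)))) (l 1)))), by decide +kernel⟩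

theorem c_pm_202_b : CertB 1239849684 370763052 0 536870912 587336777 62277027 3 eng mog cd3q2b cd5q0 pd2 true true false .pp 2 0 2
    ndB3q2b ndB5q0 pcB2 Cut.none Ext.none :=
  certB2 (fam := true) (s1 := true) (s2 := false) (a := 2) (b := 0) (c := 2) (cn := .pp) (n1 := ndB3q2b) (n2 := ndB5q0) (pc := pcB2) (cut := Cut.none) (xt := Ext.none) (P1 := 1239849684) (W1 := 370763052) (P2 := 0) (W2 := 536870912) (P3 := 587336777) (W3 := 62277027) (N0 := 3) (En := eng) (mo := mog) (C1 := cd3q2b) (C2 := cd5q0) (C3 := pd2)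
    rfl (fun _ => rfl) k0_pm_202_b

noncomputable def f_pm_203_a : ℕ → ℕ → ℕ → ℕ → Bool := onCell 0 536870912 1610612736 536870912 587336777 62277027
    (rowB 3 eng mog cd3q2a cd5q0 pd3 1 true true false .up 2 0 3 (qsf 0 536870912 0 536870912 3) ndB3q2a ndB5q0 pcB3 Cut.none Ext.none)

def k0_pm_203_a : ∃ t, chk3 f_pm_203_a t 1 1 1 = true :=
  ⟨(b (a (b (b (a (l 4) (b (l 16798856) (l 16828624))) (l 4)) (l 4)) (b (a (b (b (l 16870528) (l 16859416)) (b (l 16804888) (l 4))) (b (a (l 16896096) (l 16894152)) (l 16814936))) (b (l 265315342247) (l 2)))) (l 2)), by decide +kernel⟩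

theorem c_pm_203_a : CertB 0 536870912 0 536870912 587336777 62277027 3 eng mog cd3q2a cd5q0 pd3 true true false .up 2 0 3
    ndB3q2a ndB5q0 pcB3 Cut.none Ext.none :=
  certB1 (fam := true) (s1 := true) (s2 := false) (a := 2) (b := 0) (c := 3) (cn := .up) (n1 := ndB3q2a) (n2 := ndB5q0) (pc := pcB3) (cut := Cut.none) (xt := Ext.none) (P1 := 0) (W1 := 536870912) (P2 := 0) (W2 := 536870912) (P3 := 587336777) (W3 := 62277027) (N0 := 3) (En := eng) (mo := mog) (C1 := cd3q2a) (C2 := cd5q0) (C3 := pd3)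
    rfl (fun _ => rfl) k0_pm_203_a

noncomputable def f_pm_203_b : ℕ → ℕ → ℕ → ℕ → Bool := onCell 1239849684 370763052 1610612736 536870912 587336777 62277027
    (rowB 3 eng mog cd3q2b cd5q0 pd3 1 true true false .up 2 0 3 (qsf 1239849684 370763052 0 536870912 3) ndB3q2b ndB5q0 pcB3 Cut.none Ext.none)

def k0_pm_203_b : ∃ t, chk3 f_pm_203_b t 1 1 1 = true :=
  ⟨(b (a (l 4) (b (b (a (l 16439632) (l 16359272)) (l 4)) (l 4))) (l 4)), by decide +kernel⟩

theorem c_pm_203_b : CertB 1239849684 370763052 0 536870912 587336777 62277027 3 eng mog cd3q2b cd5q0 pd3 true true false .up 2 0 3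
    ndB3q2b ndB5q0 pcB3 Cut.none Ext.none :=
  certB1 (fam := true) (s1 := true) (s2 := false) (a := 2) (b := 0) (c := 3) (cn := .up) (n1 := ndB3q2b) (n2 := ndB5q0) (pc := pcB3) (cut := Cut.none) (xt := Ext.none) (P1 := 1239849684) (W1 := 370763052) (P2 := 0) (W2 := 536870912) (P3 := 587336777) (W3 := 62277027) (N0 := 3) (En := eng) (mo := mog) (C1 := cd3q2b) (C2 := cd5q0) (C3 := pd3)
    rfl (fun _ => rfl) k0_pm_203_b

noncomputable def f_pm_213_a : ℕ → ℕ → ℕ → ℕ → Bool := onCell 0 536870912 1610612736 536870912 587336777 62277027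
    (rowB 3 eng mog cd3q2a cd5q1 pd3 1 true true false .pnn 2 1 3 (qsf 0 536870912 536870912 536870912 3) ndB3q2a ndB5q1 pcB3 Cut.none Ext.none)

def k0_pm_213_a : ∃ t, chk3 f_pm_213_a t 1 1 1 = true :=
  ⟨(b (b (a (b (l 1) (l 4)) (b (l 16856672) (l 16873176))) (a (l 4) (b (a (l 4) (l 16766032)) (l 4)))) (l 4)), by decide +kernel⟩

theorem c_pm_213_a : CertB 0 536870912 536870912 536870912 587336777 62277027 3 eng mog cd3q2a cd5q1 pd3 true true false .pnn 2 1 3
    ndB3q2a ndB5q1 pcB3 Cut.none Ext.none :=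
  certB1 (fam := true) (s1 := true) (s2 := false) (a := 2) (b := 1) (c := 3) (cn := .pnn) (n1 := ndB3q2a) (n2 := ndB5q1) (pc := pcB3) (cut := Cut.none) (xt := Ext.none) (P1 := 0) (W1 := 536870912) (P2 := 536870912) (W2 := 536870912) (P3 := 587336777) (W3 := 62277027) (N0 := 3) (En := eng) (mo := mog) (C1 := cd3q2a) (C2 := cd5q1) (C3 := pd3)
    rfl (fun _ => rfl) k0_pm_213_a

noncomputable def f_pm_213_b : ℕ → ℕ → ℕ → ℕ → Bool := onCell 1239849684 370763052 536870912 536870912 587336777 62277027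
    (rowB 3 eng mog cd3q2b cd5q1 pd3 0 true true false .pnn 2 1 3 (qsf 1239849684 370763052 536870912 536870912 3) ndB3q2b ndB5q1 pcB3 Cut.none Ext.none)

def k0_pm_213_b : ∃ t, chk3 f_pm_213_b t 1 1 1 = true :=
  ⟨(l 4), by decide +kernel⟩

theorem c_pm_213_b : CertB 1239849684 370763052 536870912 536870912 587336777 62277027 3 eng mog cd3q2b cd5q1 pd3 true true false .pnn 2 1 3
    ndB3q2b ndB5q1 pcB3 Cut.none Ext.none :=
  certB0 (fam := true) (s1 := true) (s2 := false) (a := 2) (b := 1) (c := 3) (cn := .pnn) (n1 := ndB3q2b) (n2 := ndB5q1) (pc := pcB3) (cut := Cut.none) (xt := Ext.none) (P1 := 1239849684) (W1 := 370763052) (P2 := 536870912) (W2 := 536870912) (P3 := 587336777) (W3 := 62277027) (N0 := 3) (En := eng) (mo := mog) (C1 := cd3q2b) (C2 := cd5q1) (C3 := pd3)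
    rfl k0_pm_213_b

noncomputable def f_pm_303 : ℕ → ℕ → ℕ → ℕ → Bool := onCell 1610612736 536870912 0 536870912 587336777 62277027
    (rowB 3 eng mog cd3q3 cd5q0 pd3 2 true true false .npn 3 0 3 (qsf 1610612736 536870912 0 536870912 3) ndB3q3 ndB5q0 pcB3 Cut.none Ext.none)

def k0_pm_303 : ∃ t, chk3 f_pm_303 t 1 1 1 = true :=
  ⟨(a (b (a (a (b (l 16287952) (l 1)) (b (l 16327512) (l 4))) (l 4)) (l 4)) (l 4)), by decide +kernel⟩

theorem c_pm_303 : CertB 1610612736 536870912 0 536870912 587336777 62277027 3 eng mog cd3q3 cd5q0 pd3 true true false .npn 3 0 3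
    ndB3q3 ndB5q0 pcB3 Cut.none Ext.none :=
  certB2 (fam := true) (s1 := true) (s2 := false) (a := 3) (b := 0) (c := 3) (cn := .npn) (n1 := ndB3q3) (n2 := ndB5q0) (pc := pcB3) (cut := Cut.none) (xt := Ext.none) (P1 := 1610612736) (W1 := 536870912) (P2 := 0) (W2 := 536870912) (P3 := 587336777) (W3 := 62277027) (N0 := 3) (En := eng) (mo := mog) (C1 := cd3q3) (C2 := cd5q0) (C3 := pd3)
    rfl (fun _ => rfl) k0_pm_303

noncomputable def f_pm_313 : ℕ → ℕ → ℕ → ℕ → Bool := onCell 1610612736 536870912 536870912 536870912 587336777 62277027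
    (rowB 3 eng mog cd3q3 cd5q1 pd3 0 true true false .dn 3 1 3 (qsf 1610612736 536870912 536870912 536870912 3) ndB3q3 ndB5q1 pcB3 Cut.none Ext.none)

def k0_pm_313 : ∃ t, chk3 f_pm_313 t 1 1 1 = true :=
  ⟨(l 4), by decide +kernel⟩

theorem c_pm_313 : CertB 1610612736 536870912 536870912 536870912 587336777 62277027 3 eng mog cd3q3 cd5q1 pd3 true true false .dn 3 1 3
    ndB3q3 ndB5q1 pcB3 Cut.none Ext.none :=
  certB0 (fam := true) (s1 := true) (s2 := false) (a := 3) (b := 1) (c := 3) (cn := .dn) (n1 := ndB3q3) (n2 := ndB5q1) (pc := pcB3) (cut := Cut.none) (xt := Ext.none) (P1 := 1610612736) (W1 := 536870912) (P2 := 536870912) (W2 := 536870912) (P3 := 587336777) (W3 := 62277027) (N0 := 3) (En := eng) (mo := mog) (C1 := cd3q3) (C2 := cd5q1) (C3 := pd3)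
    rfl k0_pm_313

noncomputable def f_mm_001 : ℕ → ℕ → ℕ → ℕ → Bool := onCell 0 536870912 0 536870912 587336777 62277027
    (rowB 3 eng mog cd3q0 cd5q0 pd1 0 true false false .up 0 0 1 (qsf 0 536870912 0 536870912 1) ndB3q0 ndB5q0 pcB1 Cut.none Ext.none)

def k0_mm_001 : ∃ t, chk3 f_mm_001 t 1 1 1 = true :=
  ⟨(l 4), by decide +kernel⟩

theorem c_mm_001 : CertB 0 536870912 0 536870912 587336777 62277027 3 eng mog cd3q0 cd5q0 pd1 true false false .up 0 0 1
    ndB3q0 ndB5q0 pcB1 Cut.none Ext.none :=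
  certB0 (fam := true) (s1 := false) (s2 := false) (a := 0) (b := 0) (c := 1) (cn := .up) (n1 := ndB3q0) (n2 := ndB5q0) (pc := pcB1) (cut := Cut.none) (xt := Ext.none) (P1 := 0) (W1 := 536870912) (P2 := 0) (W2 := 536870912) (P3 := 587336777) (W3 := 62277027) (N0 := 3) (En := eng) (mo := mog) (C1 := cd3q0) (C2 := cd5q0) (C3 := pd1)
    rfl k0_mm_001

noncomputable def f_mm_011 : ℕ → ℕ → ℕ → ℕ → Bool := onCell 0 536870912 536870912 536870912 587336777 62277027
    (rowB 3 eng mog cd3q0 cd5q1 pd1 0 true false false .pnn 0 1 1 (qsf 0 536870912 536870912 536870912 1) ndB3q0 ndB5q1 pcB1 Cut.none Ext.none)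

def k0_mm_011 : ∃ t, chk3 f_mm_011 t 1 1 1 = true :=
  ⟨(l 4), by decide +kernel⟩

theorem c_mm_011 : CertB 0 536870912 536870912 536870912 587336777 62277027 3 eng mog cd3q0 cd5q1 pd1 true false false .pnn 0 1 1
    ndB3q0 ndB5q1 pcB1 Cut.none Ext.none :=
  certB0 (fam := true) (s1 := false) (s2 := false) (a := 0) (b := 1) (c := 1) (cn := .pnn) (n1 := ndB3q0) (n2 := ndB5q1) (pc := pcB1) (cut := Cut.none) (xt := Ext.none) (P1 := 0) (W1 := 536870912) (P2 := 536870912) (W2 := 536870912) (P3 := 587336777) (W3 := 62277027) (N0 := 3) (En := eng) (mo := mog) (C1 := cd3q0) (C2 := cd5q1) (C3 := pd1)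
    rfl k0_mm_011

noncomputable def f_mm_012 : ℕ → ℕ → ℕ → ℕ → Bool := onCell 0 536870912 536870912 536870912 587336777 62277027
    (rowB 3 eng mog cd3q0 cd5q1 pd2 0 true false false .pnp 0 1 2 (qsf 0 536870912 536870912 536870912 2) ndB3q0 ndB5q1 pcB2 Cut.none Ext.none)

def k0_mm_012 : ∃ t, chk3 f_mm_012 t 1 1 1 = true :=
  ⟨(l 4), by decide +kernel⟩

theorem c_mm_012 : CertB 0 536870912 536870912 536870912 587336777 62277027 3 eng mog cd3q0 cd5q1 pd2 true false false .pnp 0 1 2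
    ndB3q0 ndB5q1 pcB2 Cut.none Ext.none :=
  certB0 (fam := true) (s1 := false) (s2 := false) (a := 0) (b := 1) (c := 2) (cn := .pnp) (n1 := ndB3q0) (n2 := ndB5q1) (pc := pcB2) (cut := Cut.none) (xt := Ext.none) (P1 := 0) (W1 := 536870912) (P2 := 536870912) (W2 := 536870912) (P3 := 587336777) (W3 := 62277027) (N0 := 3) (En := eng) (mo := mog) (C1 := cd3q0) (C2 := cd5q1) (C3 := pd2)
    rfl k0_mm_012

noncomputable def f_mm_022 : ℕ → ℕ → ℕ → ℕ → Bool := onCell 0 536870912 1073741824 536870912 587336777 62277027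
    (rowB 3 eng mog cd3q0 cd5q2 pd2 0 true false false .pp 0 2 2 (qsf 0 536870912 1073741824 536870912 2) ndB3q0 ndB5q2 pcB2 Cut.none Ext.none)

def k0_mm_022 : ∃ t, chk3 f_mm_022 t 1 1 1 = true :=
  ⟨(l 4), by decide +kernel⟩

theorem c_mm_022 : CertB 0 536870912 1073741824 536870912 587336777 62277027 3 eng mog cd3q0 cd5q2 pd2 true false false .pp 0 2 2
    ndB3q0 ndB5q2 pcB2 Cut.none Ext.none :=
  certB0 (fam := true) (s1 := false) (s2 := false) (a := 0) (b := 2) (c := 2) (cn := .pp) (n1 := ndB3q0) (n2 := ndB5q2) (pc := pcB2) (cut := Cut.none) (xt := Ext.none) (P1 := 0) (W1 := 536870912) (P2 := 1073741824) (W2 := 536870912) (P3 := 587336777) (W3 := 62277027) (N0 := 3) (En := eng) (mo := mog) (C1 := cd3q0) (C2 := cd5q2) (C3 := pd2)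
    rfl k0_mm_022

noncomputable def f_mm_023 : ℕ → ℕ → ℕ → ℕ → Bool := onCell 0 536870912 1073741824 536870912 587336777 62277027
    (rowB 3 eng mog cd3q0 cd5q2 pd3 0 true false false .up 0 2 3 (qsf 0 536870912 1073741824 536870912 3) ndB3q0 ndB5q2 pcB3 Cut.none Ext.none)

def k0_mm_023 : ∃ t, chk3 f_mm_023 t 1 1 1 = true :=
  ⟨(l 4), by decide +kernel⟩

theorem c_mm_023 : CertB 0 536870912 1073741824 536870912 587336777 62277027 3 eng mog cd3q0 cd5q2 pd3 true false false .up 0 2 3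
    ndB3q0 ndB5q2 pcB3 Cut.none Ext.none :=
  certB0 (fam := true) (s1 := false) (s2 := false) (a := 0) (b := 2) (c := 3) (cn := .up) (n1 := ndB3q0) (n2 := ndB5q2) (pc := pcB3) (cut := Cut.none) (xt := Ext.none) (P1 := 0) (W1 := 536870912) (P2 := 1073741824) (W2 := 536870912) (P3 := 587336777) (W3 := 62277027) (N0 := 3) (En := eng) (mo := mog) (C1 := cd3q0) (C2 := cd5q2) (C3 := pd3)
    rfl k0_mm_023

noncomputable def f_mm_033 : ℕ → ℕ → ℕ → ℕ → Bool := onCell 0 536870912 0 1230186008 587336777 62277027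
    (rowB 3 eng mog cd3q0 cd5q3 pd3 0 true false false .pnn 0 3 3 (qsf 0 536870912 0 1230186008 3) ndB3q0 ndB5q3 pcB3 Cut.none Ext.none)

def k0_mm_033 : ∃ t, chk3 f_mm_033 t 1 1 1 = true :=
  ⟨(l 5), by decide +kernel⟩

theorem c_mm_033 : CertB 0 536870912 0 1230186008 587336777 62277027 3 eng mog cd3q0 cd5q3 pd3 true false false .pnn 0 3 3
    ndB3q0 ndB5q3 pcB3 Cut.none Ext.none :=
  certB0 (fam := true) (s1 := false) (s2 := false) (a := 0) (b := 3) (c := 3) (cn := .pnn) (n1 := ndB3q0) (n2 := ndB5q3) (pc := pcB3) (cut := Cut.none) (xt := Ext.none) (P1 := 0) (W1 := 536870912) (P2 := 0) (W2 := 1230186008) (P3 := 587336777) (W3 := 62277027) (N0 := 3) (En := eng) (mo := mog) (C1 := cd3q0) (C2 := cd5q3) (C3 := pd3)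
    rfl k0_mm_033

noncomputable def f_mm_101 : ℕ → ℕ → ℕ → ℕ → Bool := onCell 536870912 536870912 0 536870912 587336777 62277027
    (rowB 3 eng mog cd3q1 cd5q0 pd1 0 true false false .npn 1 0 1 (qsf 536870912 536870912 0 536870912 1) ndB3q1 ndB5q0 pcB1 Cut.none Ext.none)

def k0_mm_101 : ∃ t, chk3 f_mm_101 t 1 1 1 = true :=
  ⟨(l 4), by decide +kernel⟩

theorem c_mm_101 : CertB 536870912 536870912 0 536870912 587336777 62277027 3 eng mog cd3q1 cd5q0 pd1 true false false .npn 1 0 1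
    ndB3q1 ndB5q0 pcB1 Cut.none Ext.none :=
  certB0 (fam := true) (s1 := false) (s2 := false) (a := 1) (b := 0) (c := 1) (cn := .npn) (n1 := ndB3q1) (n2 := ndB5q0) (pc := pcB1) (cut := Cut.none) (xt := Ext.none) (P1 := 536870912) (W1 := 536870912) (P2 := 0) (W2 := 536870912) (P3 := 587336777) (W3 := 62277027) (N0 := 3) (En := eng) (mo := mog) (C1 := cd3q1) (C2 := cd5q0) (C3 := pd1)
    rfl k0_mm_101

noncomputable def f_mm_102 : ℕ → ℕ → ℕ → ℕ → Bool := onCell 536870912 536870912 0 536870912 587336777 62277027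
    (rowB 3 eng mog cd3q1 cd5q0 pd2 0 true false false .npp 1 0 2 (qsf 536870912 536870912 0 536870912 2) ndB3q1 ndB5q0 pcB2 Cut.none Ext.none)

def k0_mm_102 : ∃ t, chk3 f_mm_102 t 1 1 1 = true :=
  ⟨(l 4), by decide +kernel⟩

theorem c_mm_102 : CertB 536870912 536870912 0 536870912 587336777 62277027 3 eng mog cd3q1 cd5q0 pd2 true false false .npp 1 0 2
    ndB3q1 ndB5q0 pcB2 Cut.none Ext.none :=
  certB0 (fam := true) (s1 := false) (s2 := false) (a := 1) (b := 0) (c := 2) (cn := .npp) (n1 := ndB3q1) (n2 := ndB5q0) (pc := pcB2) (cut := Cut.none) (xt := Ext.none) (P1 := 536870912) (W1 := 536870912) (P2 := 0) (W2 := 536870912) (P3 := 587336777) (W3 := 62277027) (N0 := 3) (En := eng) (mo := mog) (C1 := cd3q1) (C2 := cd5q0) (C3 := pd2)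
    rfl k0_mm_102

noncomputable def f_mm_112 : ℕ → ℕ → ℕ → ℕ → Bool := onCell 536870912 536870912 536870912 536870912 587336777 62277027
    (rowB 3 eng mog cd3q1 cd5q1 pd2 0 true false false .dn 1 1 2 (qsf 536870912 536870912 536870912 536870912 2) ndB3q1 ndB5q1 pcB2 Cut.none Ext.none)

def k0_mm_112 : ∃ t, chk3 f_mm_112 t 1 1 1 = true :=
  ⟨(l 4), by decide +kernel⟩

theorem c_mm_112 : CertB 536870912 536870912 536870912 536870912 587336777 62277027 3 eng mog cd3q1 cd5q1 pd2 true false false .dn 1 1 2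
    ndB3q1 ndB5q1 pcB2 Cut.none Ext.none :=
  certB0 (fam := true) (s1 := false) (s2 := false) (a := 1) (b := 1) (c := 2) (cn := .dn) (n1 := ndB3q1) (n2 := ndB5q1) (pc := pcB2) (cut := Cut.none) (xt := Ext.none) (P1 := 536870912) (W1 := 536870912) (P2 := 536870912) (W2 := 536870912) (P3 := 587336777) (W3 := 62277027) (N0 := 3) (En := eng) (mo := mog) (C1 := cd3q1) (C2 := cd5q1) (C3 := pd2)
    rfl k0_mm_112

noncomputable def f_mm_113 : ℕ → ℕ → ℕ → ℕ → Bool := onCell 536870912 536870912 536870912 536870912 587336777 62277027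
    (rowB 3 eng mog cd3q1 cd5q1 pd3 0 true false false .nn 1 1 3 (qsf 536870912 536870912 536870912 536870912 3) ndB3q1 ndB5q1 pcB3 Cut.none Ext.none)

def k0_mm_113 : ∃ t, chk3 f_mm_113 t 1 1 1 = true :=
  ⟨(l 4), by decide +kernel⟩

theorem c_mm_113 : CertB 536870912 536870912 536870912 536870912 587336777 62277027 3 eng mog cd3q1 cd5q1 pd3 true false false .nn 1 1 3
    ndB3q1 ndB5q1 pcB3 Cut.none Ext.none :=
  certB0 (fam := true) (s1 := false) (s2 := false) (a := 1) (b := 1) (c := 3) (cn := .nn) (n1 := ndB3q1) (n2 := ndB5q1) (pc := pcB3) (cut := Cut.none) (xt := Ext.none) (P1 := 536870912) (W1 := 536870912) (P2 := 536870912) (W2 := 536870912) (P3 := 587336777) (W3 := 62277027) (N0 := 3) (En := eng) (mo := mog) (C1 := cd3q1) (C2 := cd5q1) (C3 := pd3)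
    rfl k0_mm_113

noncomputable def f_mm_123 : ℕ → ℕ → ℕ → ℕ → Bool := onCell 536870912 536870912 1073741824 536870912 587336777 62277027
    (rowB 3 eng mog cd3q1 cd5q2 pd3 0 true false false .npn 1 2 3 (qsf 536870912 536870912 1073741824 536870912 3) ndB3q1 ndB5q2 pcB3 Cut.none Ext.none)

def k0_mm_123 : ∃ t, chk3 f_mm_123 t 1 1 1 = true :=
  ⟨(l 4), by decide +kernel⟩

theorem c_mm_123 : CertB 536870912 536870912 1073741824 536870912 587336777 62277027 3 eng mog cd3q1 cd5q2 pd3 true false false .npn 1 2 3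
    ndB3q1 ndB5q2 pcB3 Cut.none Ext.none :=
  certB0 (fam := true) (s1 := false) (s2 := false) (a := 1) (b := 2) (c := 3) (cn := .npn) (n1 := ndB3q1) (n2 := ndB5q2) (pc := pcB3) (cut := Cut.none) (xt := Ext.none) (P1 := 536870912) (W1 := 536870912) (P2 := 1073741824) (W2 := 536870912) (P3 := 587336777) (W3 := 62277027) (N0 := 3) (En := eng) (mo := mog) (C1 := cd3q1) (C2 := cd5q2) (C3 := pd3)
    rfl k0_mm_123

noncomputable def f_mm_133 : ℕ → ℕ → ℕ → ℕ → Bool := onCell 536870912 536870912 0 1230186008 587336777 62277027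
    (rowB 3 eng mog cd3q1 cd5q3 pd3 0 true false false .dn 1 3 3 (qsf 536870912 536870912 0 1230186008 3) ndB3q1 ndB5q3 pcB3 Cut.none Ext.none)

def k0_mm_133 : ∃ t, chk3 f_mm_133 t 1 1 1 = true :=
  ⟨(l 4), by decide +kernel⟩

theorem c_mm_133 : CertB 536870912 536870912 0 1230186008 587336777 62277027 3 eng mog cd3q1 cd5q3 pd3 true false false .dn 1 3 3
    ndB3q1 ndB5q3 pcB3 Cut.none Ext.none :=
  certB0 (fam := true) (s1 := false) (s2 := false) (a := 1) (b := 3) (c := 3) (cn := .dn) (n1 := ndB3q1) (n2 := ndB5q3) (pc := pcB3) (cut := Cut.none) (xt := Ext.none) (P1 := 536870912) (W1 := 536870912) (P2 := 0) (W2 := 1230186008) (P3 := 587336777) (W3 := 62277027) (N0 := 3) (En := eng) (mo := mog) (C1 := cd3q1) (C2 := cd5q3) (C3 := pd3)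
    rfl k0_mm_133

noncomputable def f_mm_202_a : ℕ → ℕ → ℕ → ℕ → Bool := onCell 0 536870912 0 536870912 587336777 62277027
    (rowB 3 eng mog cd3q2a cd5q0 pd2 0 true false false .pp 2 0 2 (qsf 0 536870912 0 536870912 2) ndB3q2a ndB5q0 pcB2 Cut.none Ext.none)

def k0_mm_202_a : ∃ t, chk3 f_mm_202_a t 1 1 1 = true :=
  ⟨(a (b (b (l 4) (l 4)) (l 4)) (l 4)), by decide +kernel⟩

theorem c_mm_202_a : CertB 0 536870912 0 536870912 587336777 62277027 3 eng mog cd3q2a cd5q0 pd2 true false false .pp 2 0 2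
    ndB3q2a ndB5q0 pcB2 Cut.none Ext.none :=
  certB0 (fam := true) (s1 := false) (s2 := false) (a := 2) (b := 0) (c := 2) (cn := .pp) (n1 := ndB3q2a) (n2 := ndB5q0) (pc := pcB2) (cut := Cut.none) (xt := Ext.none) (P1 := 0) (W1 := 536870912) (P2 := 0) (W2 := 536870912) (P3 := 587336777) (W3 := 62277027) (N0 := 3) (En := eng) (mo := mog) (C1 := cd3q2a) (C2 := cd5q0) (C3 := pd2)
    rfl k0_mm_202_a

noncomputable def f_mm_202_b : ℕ → ℕ → ℕ → ℕ → Bool := onCell 1239849684 370763052 0 536870912 587336777 62277027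
    (rowB 3 eng mog cd3q2b cd5q0 pd2 0 true false false .pp 2 0 2 (qsf 1239849684 370763052 0 536870912 2) ndB3q2b ndB5q0 pcB2 Cut.none Ext.none)

def k0_mm_202_b : ∃ t, chk3 f_mm_202_b t 1 1 1 = true :=
  ⟨(b (a (b (l 4) (l 4)) (l 4)) (l 4)), by decide +kernel⟩

theorem c_mm_202_b : CertB 1239849684 370763052 0 536870912 587336777 62277027 3 eng mog cd3q2b cd5q0 pd2 true false false .pp 2 0 2
    ndB3q2b ndB5q0 pcB2 Cut.none Ext.none :=
  certB0 (fam := true) (s1 := false) (s2 := false) (a := 2) (b := 0) (c := 2) (cn := .pp) (n1 := ndB3q2b) (n2 := ndB5q0) (pc := pcB2) (cut := Cut.none) (xt := Ext.none) (P1 := 1239849684) (W1 := 370763052) (P2 := 0) (W2 := 536870912) (P3 := 587336777) (W3 := 62277027) (N0 := 3) (En := eng) (mo := mog) (C1 := cd3q2b) (C2 := cd5q0) (C3 := pd2)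
    rfl k0_mm_202_b

noncomputable def f_mm_203_a : ℕ → ℕ → ℕ → ℕ → Bool := onCell 0 536870912 1610612736 536870912 587336777 62277027
    (rowB 3 eng mog cd3q2a cd5q0 pd3 1 true false false .up 2 0 3 (qsf 0 536870912 0 536870912 3) ndB3q2a ndB5q0 pcB3 Cut.none Ext.none)

def k0_mm_203_a : ∃ t, chk3 f_mm_203_a t 1 1 1 = true :=
  ⟨(l 4), by decide +kernel⟩

theorem c_mm_203_a : CertB 0 536870912 0 536870912 587336777 62277027 3 eng mog cd3q2a cd5q0 pd3 true false false .up 2 0 3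
    ndB3q2a ndB5q0 pcB3 Cut.none Ext.none :=
  certB1 (fam := true) (s1 := false) (s2 := false) (a := 2) (b := 0) (c := 3) (cn := .up) (n1 := ndB3q2a) (n2 := ndB5q0) (pc := pcB3) (cut := Cut.none) (xt := Ext.none) (P1 := 0) (W1 := 536870912) (P2 := 0) (W2 := 536870912) (P3 := 587336777) (W3 := 62277027) (N0 := 3) (En := eng) (mo := mog) (C1 := cd3q2a) (C2 := cd5q0) (C3 := pd3)
    rfl (fun _ => rfl) k0_mm_203_a

noncomputable def f_mm_203_b : ℕ → ℕ → ℕ → ℕ → Bool := onCell 1239849684 370763052 1610612736 536870912 587336777 62277027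
    (rowB 3 eng mog cd3q2b cd5q0 pd3 1 true false false .up 2 0 3 (qsf 1239849684 370763052 0 536870912 3) ndB3q2b ndB5q0 pcB3 Cut.none Ext.none)

def k0_mm_203_b : ∃ t, chk3 f_mm_203_b t 1 1 1 = true :=
  ⟨(l 4), by decide +kernel⟩

theorem c_mm_203_b : CertB 1239849684 370763052 0 536870912 587336777 62277027 3 eng mog cd3q2b cd5q0 pd3 true false false .up 2 0 3
    ndB3q2b ndB5q0 pcB3 Cut.none Ext.none :=
  certB1 (fam := true) (s1 := false) (s2 := false) (a := 2) (b := 0) (c := 3) (cn := .up) (n1 := ndB3q2b) (n2 := ndB5q0) (pc := pcB3) (cut := Cut.none) (xt := Ext.none) (P1 := 1239849684) (W1 := 370763052) (P2 := 0) (W2 := 536870912) (P3 := 587336777) (W3 := 62277027) (N0 := 3) (En := eng) (mo := mog) (C1 := cd3q2b) (C2 := cd5q0) (C3 := pd3)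
    rfl (fun _ => rfl) k0_mm_203_b

noncomputable def f_mm_213_a : ℕ → ℕ → ℕ → ℕ → Bool := onCell 0 536870912 536870912 536870912 587336777 62277027
    (rowB 3 eng mog cd3q2a cd5q1 pd3 0 true false false .pnn 2 1 3 (qsf 0 536870912 536870912 536870912 3) ndB3q2a ndB5q1 pcB3 Cut.none Ext.none)

def k0_mm_213_a : ∃ t, chk3 f_mm_213_a t 1 1 1 = true :=
  ⟨(l 4), by decide +kernel⟩

theorem c_mm_213_a : CertB 0 536870912 536870912 536870912 587336777 62277027 3 eng mog cd3q2a cd5q1 pd3 true false false .pnn 2 1 3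
    ndB3q2a ndB5q1 pcB3 Cut.none Ext.none :=
  certB0 (fam := true) (s1 := false) (s2 := false) (a := 2) (b := 1) (c := 3) (cn := .pnn) (n1 := ndB3q2a) (n2 := ndB5q1) (pc := pcB3) (cut := Cut.none) (xt := Ext.none) (P1 := 0) (W1 := 536870912) (P2 := 536870912) (W2 := 536870912) (P3 := 587336777) (W3 := 62277027) (N0 := 3) (En := eng) (mo := mog) (C1 := cd3q2a) (C2 := cd5q1) (C3 := pd3)
    rfl k0_mm_213_a

noncomputable def f_mm_213_b : ℕ → ℕ → ℕ → ℕ → Bool := onCell 1239849684 370763052 536870912 536870912 587336777 62277027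
    (rowB 3 eng mog cd3q2b cd5q1 pd3 0 true false false .pnn 2 1 3 (qsf 1239849684 370763052 536870912 536870912 3) ndB3q2b ndB5q1 pcB3 Cut.none Ext.none)

def k0_mm_213_b : ∃ t, chk3 f_mm_213_b t 1 1 1 = true :=
  ⟨(l 4), by decide +kernel⟩

theorem c_mm_213_b : CertB 1239849684 370763052 536870912 536870912 587336777 62277027 3 eng mog cd3q2b cd5q1 pd3 true false false .pnn 2 1 3
    ndB3q2b ndB5q1 pcB3 Cut.none Ext.none :=
  certB0 (fam := true) (s1 := false) (s2 := false) (a := 2) (b := 1) (c := 3) (cn := .pnn) (n1 := ndB3q2b) (n2 := ndB5q1) (pc := pcB3) (cut := Cut.none) (xt := Ext.none) (P1 := 1239849684) (W1 := 370763052) (P2 := 536870912) (W2 := 536870912) (P3 := 587336777) (W3 := 62277027) (N0 := 3) (En := eng) (mo := mog) (C1 := cd3q2b) (C2 := cd5q1) (C3 := pd3)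
    rfl k0_mm_213_b

noncomputable def f_mm_303 : ℕ → ℕ → ℕ → ℕ → Bool := onCell 1610612736 536870912 0 536870912 587336777 62277027
    (rowB 3 eng mog cd3q3 cd5q0 pd3 0 true false false .npn 3 0 3 (qsf 1610612736 536870912 0 536870912 3) ndB3q3 ndB5q0 pcB3 Cut.none Ext.none)

def k0_mm_303 : ∃ t, chk3 f_mm_303 t 1 1 1 = true :=
  ⟨(l 4), by decide +kernel⟩

theorem c_mm_303 : CertB 1610612736 536870912 0 536870912 587336777 62277027 3 eng mog cd3q3 cd5q0 pd3 true false false .npn 3 0 3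
    ndB3q3 ndB5q0 pcB3 Cut.none Ext.none :=
  certB0 (fam := true) (s1 := false) (s2 := false) (a := 3) (b := 0) (c := 3) (cn := .npn) (n1 := ndB3q3) (n2 := ndB5q0) (pc := pcB3) (cut := Cut.none) (xt := Ext.none) (P1 := 1610612736) (W1 := 536870912) (P2 := 0) (W2 := 536870912) (P3 := 587336777) (W3 := 62277027) (N0 := 3) (En := eng) (mo := mog) (C1 := cd3q3) (C2 := cd5q0) (C3 := pd3)
    rfl k0_mm_303

noncomputable def f_mm_313 : ℕ → ℕ → ℕ → ℕ → Bool := onCell 1610612736 536870912 536870912 536870912 587336777 62277027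
    (rowB 3 eng mog cd3q3 cd5q1 pd3 0 true false false .dn 3 1 3 (qsf 1610612736 536870912 536870912 536870912 3) ndB3q3 ndB5q1 pcB3 Cut.none Ext.none)

def k0_mm_313 : ∃ t, chk3 f_mm_313 t 1 1 1 = true :=
  ⟨(l 4), by decide +kernel⟩

theorem c_mm_313 : CertB 1610612736 536870912 536870912 536870912 587336777 62277027 3 eng mog cd3q3 cd5q1 pd3 true false false .dn 3 1 3
    ndB3q3 ndB5q1 pcB3 Cut.none Ext.none :=
  certB0 (fam := true) (s1 := false) (s2 := false) (a := 3) (b := 1) (c := 3) (cn := .dn) (n1 := ndB3q3) (n2 := ndB5q1) (pc := pcB3) (cut := Cut.none) (xt := Ext.none) (P1 := 1610612736) (W1 := 536870912) (P2 := 536870912) (W2 := 536870912) (P3 := 587336777) (W3 := 62277027) (N0 := 3) (En := eng) (mo := mog) (C1 := cd3q3) (C2 := cd5q1) (C3 := pd3)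
    rfl k0_mm_313

end Pool.Agent.Strip051.G.I5470_6050.Tab.C.BA35

namespace Pool.Agent.Strip051.G.I5470_6050.Tab.C.BA36

open Pool.Agent.Strip051.PB Pool.Agent.Strip051.PB.T
open Pool.Agent.Strip051.G.I5470_6050.Tab

noncomputable def f_pp_001 : ℕ → ℕ → ℕ → ℕ → Bool := onCell 0 536870912 0 536870912 587336777 62277027
    (rowB 3 eng mog cd3q0 cd6q0 pd1 0 true true true .up 0 0 1 (qsf 0 536870912 0 536870912 1) ndB3q0 ndB6q0 pcB1 Cut.none Ext.none)

def k0_pp_001 : ∃ t, chk3 f_pp_001 t 1 1 1 = true :=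
  ⟨(l 4), by decide +kernel⟩

theorem c_pp_001 : CertB 0 536870912 0 536870912 587336777 62277027 3 eng mog cd3q0 cd6q0 pd1 true true true .up 0 0 1
    ndB3q0 ndB6q0 pcB1 Cut.none Ext.none :=
  certB0 (fam := true) (s1 := true) (s2 := true) (a := 0) (b := 0) (c := 1) (cn := .up) (n1 := ndB3q0) (n2 := ndB6q0) (pc := pcB1) (cut := Cut.none) (xt := Ext.none) (P1 := 0) (W1 := 536870912) (P2 := 0) (W2 := 536870912) (P3 := 587336777) (W3 := 62277027) (N0 := 3) (En := eng) (mo := mog) (C1 := cd3q0) (C2 := cd6q0) (C3 := pd1)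
    rfl k0_pp_001

noncomputable def f_pp_011 : ℕ → ℕ → ℕ → ℕ → Bool := onCell 0 536870912 536870912 536870912 587336777 62277027
    (rowB 3 eng mog cd3q0 cd6q1 pd1 0 true true true .pnn 0 1 1 (qsf 0 536870912 536870912 536870912 1) ndB3q0 ndB6q1 pcB1 Cut.none Ext.none)

def k0_pp_011 : ∃ t, chk3 f_pp_011 t 1 1 1 = true :=
  ⟨(l 4), by decide +kernel⟩

theorem c_pp_011 : CertB 0 536870912 536870912 536870912 587336777 62277027 3 eng mog cd3q0 cd6q1 pd1 true true true .pnn 0 1 1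
    ndB3q0 ndB6q1 pcB1 Cut.none Ext.none :=
  certB0 (fam := true) (s1 := true) (s2 := true) (a := 0) (b := 1) (c := 1) (cn := .pnn) (n1 := ndB3q0) (n2 := ndB6q1) (pc := pcB1) (cut := Cut.none) (xt := Ext.none) (P1 := 0) (W1 := 536870912) (P2 := 536870912) (W2 := 536870912) (P3 := 587336777) (W3 := 62277027) (N0 := 3) (En := eng) (mo := mog) (C1 := cd3q0) (C2 := cd6q1) (C3 := pd1)
    rfl k0_pp_011

noncomputable def f_pp_012 : ℕ → ℕ → ℕ → ℕ → Bool := onCell 0 536870912 536870912 536870912 587336777 62277027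
    (rowB 3 eng mog cd3q0 cd6q1 pd2 0 true true true .pnp 0 1 2 (qsf 0 536870912 536870912 536870912 2) ndB3q0 ndB6q1 pcB2 Cut.none Ext.none)

def k0_pp_012 : ∃ t, chk3 f_pp_012 t 1 1 1 = true :=
  ⟨(l 4), by decide +kernel⟩

theorem c_pp_012 : CertB 0 536870912 536870912 536870912 587336777 62277027 3 eng mog cd3q0 cd6q1 pd2 true true true .pnp 0 1 2
    ndB3q0 ndB6q1 pcB2 Cut.none Ext.none :=
  certB0 (fam := true) (s1 := true) (s2 := true) (a := 0) (b := 1) (c := 2) (cn := .pnp) (n1 := ndB3q0) (n2 := ndB6q1) (pc := pcB2) (cut := Cut.none) (xt := Ext.none) (P1 := 0) (W1 := 536870912) (P2 := 536870912) (W2 := 536870912) (P3 := 587336777) (W3 := 62277027) (N0 := 3) (En := eng) (mo := mog) (C1 := cd3q0) (C2 := cd6q1) (C3 := pd2)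
    rfl k0_pp_012

noncomputable def f_pp_022 : ℕ → ℕ → ℕ → ℕ → Bool := onCell 0 536870912 1073741824 536870912 587336777 62277027
    (rowB 3 eng mog cd3q0 cd6q2 pd2 0 true true true .pp 0 2 2 (qsf 0 536870912 1073741824 536870912 2) ndB3q0 ndB6q2 pcB2 Cut.none Ext.none)

def k0_pp_022 : ∃ t, chk3 f_pp_022 t 1 1 1 = true :=
  ⟨(l 4), by decide +kernel⟩

theorem c_pp_022 : CertB 0 536870912 1073741824 536870912 587336777 62277027 3 eng mog cd3q0 cd6q2 pd2 true true true .pp 0 2 2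
    ndB3q0 ndB6q2 pcB2 Cut.none Ext.none :=
  certB0 (fam := true) (s1 := true) (s2 := true) (a := 0) (b := 2) (c := 2) (cn := .pp) (n1 := ndB3q0) (n2 := ndB6q2) (pc := pcB2) (cut := Cut.none) (xt := Ext.none) (P1 := 0) (W1 := 536870912) (P2 := 1073741824) (W2 := 536870912) (P3 := 587336777) (W3 := 62277027) (N0 := 3) (En := eng) (mo := mog) (C1 := cd3q0) (C2 := cd6q2) (C3 := pd2)
    rfl k0_pp_022

noncomputable def f_pp_023 : ℕ → ℕ → ℕ → ℕ → Bool := onCell 0 536870912 1073741824 536870912 587336777 62277027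
    (rowB 3 eng mog cd3q0 cd6q2 pd3 0 true true true .up 0 2 3 (qsf 0 536870912 1073741824 536870912 3) ndB3q0 ndB6q2 pcB3 Cut.none Ext.none)

def k0_pp_023 : ∃ t, chk3 f_pp_023 t 1 1 1 = true :=
  ⟨(l 4), by decide +kernel⟩

theorem c_pp_023 : CertB 0 536870912 1073741824 536870912 587336777 62277027 3 eng mog cd3q0 cd6q2 pd3 true true true .up 0 2 3
    ndB3q0 ndB6q2 pcB3 Cut.none Ext.none :=
  certB0 (fam := true) (s1 := true) (s2 := true) (a := 0) (b := 2) (c := 3) (cn := .up) (n1 := ndB3q0) (n2 := ndB6q2) (pc := pcB3) (cut := Cut.none) (xt := Ext.none) (P1 := 0) (W1 := 536870912) (P2 := 1073741824) (W2 := 536870912) (P3 := 587336777) (W3 := 62277027) (N0 := 3) (En := eng) (mo := mog) (C1 := cd3q0) (C2 := cd6q2) (C3 := pd3)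
    rfl k0_pp_023

noncomputable def f_pp_033 : ℕ → ℕ → ℕ → ℕ → Bool := onCell 0 536870912 0 1230186008 587336777 62277027
    (rowB 3 eng mog cd3q0 cd6q3 pd3 0 true true true .pnn 0 3 3 (qsf 0 536870912 0 1230186008 3) ndB3q0 ndB6q3 pcB3 Cut.none Ext.none)

def k0_pp_033 : ∃ t, chk3 f_pp_033 t 1 1 1 = true :=
  ⟨(b (l 4) (l 4)), by decide +kernel⟩

theorem c_pp_033 : CertB 0 536870912 0 1230186008 587336777 62277027 3 eng mog cd3q0 cd6q3 pd3 true true true .pnn 0 3 3
    ndB3q0 ndB6q3 pcB3 Cut.none Ext.none :=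
  certB0 (fam := true) (s1 := true) (s2 := true) (a := 0) (b := 3) (c := 3) (cn := .pnn) (n1 := ndB3q0) (n2 := ndB6q3) (pc := pcB3) (cut := Cut.none) (xt := Ext.none) (P1 := 0) (W1 := 536870912) (P2 := 0) (W2 := 1230186008) (P3 := 587336777) (W3 := 62277027) (N0 := 3) (En := eng) (mo := mog) (C1 := cd3q0) (C2 := cd6q3) (C3 := pd3)
    rfl k0_pp_033

noncomputable def f_pp_101 : ℕ → ℕ → ℕ → ℕ → Bool := onCell 536870912 536870912 0 536870912 587336777 62277027
    (rowB 3 eng mog cd3q1 cd6q0 pd1 0 true true true .npn 1 0 1 (qsf 536870912 536870912 0 536870912 1) ndB3q1 ndB6q0 pcB1 Cut.none Ext.none)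

def k0_pp_101 : ∃ t, chk3 f_pp_101 t 1 1 1 = true :=
  ⟨(l 4), by decide +kernel⟩

theorem c_pp_101 : CertB 536870912 536870912 0 536870912 587336777 62277027 3 eng mog cd3q1 cd6q0 pd1 true true true .npn 1 0 1
    ndB3q1 ndB6q0 pcB1 Cut.none Ext.none :=
  certB0 (fam := true) (s1 := true) (s2 := true) (a := 1) (b := 0) (c := 1) (cn := .npn) (n1 := ndB3q1) (n2 := ndB6q0) (pc := pcB1) (cut := Cut.none) (xt := Ext.none) (P1 := 536870912) (W1 := 536870912) (P2 := 0) (W2 := 536870912) (P3 := 587336777) (W3 := 62277027) (N0 := 3) (En := eng) (mo := mog) (C1 := cd3q1) (C2 := cd6q0) (C3 := pd1)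
    rfl k0_pp_101

noncomputable def f_pp_102 : ℕ → ℕ → ℕ → ℕ → Bool := onCell 536870912 536870912 0 536870912 587336777 62277027
    (rowB 3 eng mog cd3q1 cd6q0 pd2 0 true true true .npp 1 0 2 (qsf 536870912 536870912 0 536870912 2) ndB3q1 ndB6q0 pcB2 Cut.none Ext.none)

def k0_pp_102 : ∃ t, chk3 f_pp_102 t 1 1 1 = true :=
  ⟨(l 4), by decide +kernel⟩

theorem c_pp_102 : CertB 536870912 536870912 0 536870912 587336777 62277027 3 eng mog cd3q1 cd6q0 pd2 true true true .npp 1 0 2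
    ndB3q1 ndB6q0 pcB2 Cut.none Ext.none :=
  certB0 (fam := true) (s1 := true) (s2 := true) (a := 1) (b := 0) (c := 2) (cn := .npp) (n1 := ndB3q1) (n2 := ndB6q0) (pc := pcB2) (cut := Cut.none) (xt := Ext.none) (P1 := 536870912) (W1 := 536870912) (P2 := 0) (W2 := 536870912) (P3 := 587336777) (W3 := 62277027) (N0 := 3) (En := eng) (mo := mog) (C1 := cd3q1) (C2 := cd6q0) (C3 := pd2)
    rfl k0_pp_102

noncomputable def f_pp_112 : ℕ → ℕ → ℕ → ℕ → Bool := onCell 536870912 536870912 536870912 536870912 587336777 62277027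
    (rowB 3 eng mog cd3q1 cd6q1 pd2 0 true true true .dn 1 1 2 (qsf 536870912 536870912 536870912 536870912 2) ndB3q1 ndB6q1 pcB2 Cut.none Ext.none)

def k0_pp_112 : ∃ t, chk3 f_pp_112 t 1 1 1 = true :=
  ⟨(l 4), by decide +kernel⟩

theorem c_pp_112 : CertB 536870912 536870912 536870912 536870912 587336777 62277027 3 eng mog cd3q1 cd6q1 pd2 true true true .dn 1 1 2
    ndB3q1 ndB6q1 pcB2 Cut.none Ext.none :=
  certB0 (fam := true) (s1 := true) (s2 := true) (a := 1) (b := 1) (c := 2) (cn := .dn) (n1 := ndB3q1) (n2 := ndB6q1) (pc := pcB2) (cut := Cut.none) (xt := Ext.none) (P1 := 536870912) (W1 := 536870912) (P2 := 536870912) (W2 := 536870912) (P3 := 587336777) (W3 := 62277027) (N0 := 3) (En := eng) (mo := mog) (C1 := cd3q1) (C2 := cd6q1) (C3 := pd2)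
    rfl k0_pp_112

noncomputable def f_pp_113 : ℕ → ℕ → ℕ → ℕ → Bool := onCell 536870912 536870912 536870912 536870912 587336777 62277027
    (rowB 3 eng mog cd3q1 cd6q1 pd3 0 true true true .nn 1 1 3 (qsf 536870912 536870912 536870912 536870912 3) ndB3q1 ndB6q1 pcB3 Cut.none Ext.none)

def k0_pp_113 : ∃ t, chk3 f_pp_113 t 1 1 1 = true :=
  ⟨(l 4), by decide +kernel⟩

theorem c_pp_113 : CertB 536870912 536870912 536870912 536870912 587336777 62277027 3 eng mog cd3q1 cd6q1 pd3 true true true .nn 1 1 3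
    ndB3q1 ndB6q1 pcB3 Cut.none Ext.none :=
  certB0 (fam := true) (s1 := true) (s2 := true) (a := 1) (b := 1) (c := 3) (cn := .nn) (n1 := ndB3q1) (n2 := ndB6q1) (pc := pcB3) (cut := Cut.none) (xt := Ext.none) (P1 := 536870912) (W1 := 536870912) (P2 := 536870912) (W2 := 536870912) (P3 := 587336777) (W3 := 62277027) (N0 := 3) (En := eng) (mo := mog) (C1 := cd3q1) (C2 := cd6q1) (C3 := pd3)
    rfl k0_pp_113

noncomputable def f_pp_123 : ℕ → ℕ → ℕ → ℕ → Bool := onCell 536870912 536870912 1073741824 536870912 587336777 62277027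
    (rowB 3 eng mog cd3q1 cd6q2 pd3 0 true true true .npn 1 2 3 (qsf 536870912 536870912 1073741824 536870912 3) ndB3q1 ndB6q2 pcB3 Cut.none Ext.none)

def k0_pp_123 : ∃ t, chk3 f_pp_123 t 1 1 1 = true :=
  ⟨(l 4), by decide +kernel⟩

theorem c_pp_123 : CertB 536870912 536870912 1073741824 536870912 587336777 62277027 3 eng mog cd3q1 cd6q2 pd3 true true true .npn 1 2 3
    ndB3q1 ndB6q2 pcB3 Cut.none Ext.none :=
  certB0 (fam := true) (s1 := true) (s2 := true) (a := 1) (b := 2) (c := 3) (cn := .npn) (n1 := ndB3q1) (n2 := ndB6q2) (pc := pcB3) (cut := Cut.none) (xt := Ext.none) (P1 := 536870912) (W1 := 536870912) (P2 := 1073741824) (W2 := 536870912) (P3 := 587336777) (W3 := 62277027) (N0 := 3) (En := eng) (mo := mog) (C1 := cd3q1) (C2 := cd6q2) (C3 := pd3)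
    rfl k0_pp_123

noncomputable def f_pp_133 : ℕ → ℕ → ℕ → ℕ → Bool := onCell 536870912 536870912 0 1230186008 587336777 62277027
    (rowB 3 eng mog cd3q1 cd6q3 pd3 0 true true true .dn 1 3 3 (qsf 536870912 536870912 0 1230186008 3) ndB3q1 ndB6q3 pcB3 Cut.none Ext.none)

def k0_pp_133 : ∃ t, chk3 f_pp_133 t 1 1 1 = true :=
  ⟨(l 4), by decide +kernel⟩

theorem c_pp_133 : CertB 536870912 536870912 0 1230186008 587336777 62277027 3 eng mog cd3q1 cd6q3 pd3 true true true .dn 1 3 3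
    ndB3q1 ndB6q3 pcB3 Cut.none Ext.none :=
  certB0 (fam := true) (s1 := true) (s2 := true) (a := 1) (b := 3) (c := 3) (cn := .dn) (n1 := ndB3q1) (n2 := ndB6q3) (pc := pcB3) (cut := Cut.none) (xt := Ext.none) (P1 := 536870912) (W1 := 536870912) (P2 := 0) (W2 := 1230186008) (P3 := 587336777) (W3 := 62277027) (N0 := 3) (En := eng) (mo := mog) (C1 := cd3q1) (C2 := cd6q3) (C3 := pd3)
    rfl k0_pp_133

noncomputable def f_pp_202_a : ℕ → ℕ → ℕ → ℕ → Bool := onCell 0 536870912 0 536870912 587336777 62277027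
    (rowB 3 eng mog cd3q2a cd6q0 pd2 0 true true true .pp 2 0 2 (qsf 0 536870912 0 536870912 2) ndB3q2a ndB6q0 pcB2 Cut.none Ext.none)

def k0_pp_202_a : ∃ t, chk3 f_pp_202_a t 1 1 1 = true :=
  ⟨(l 4), by decide +kernel⟩

theorem c_pp_202_a : CertB 0 536870912 0 536870912 587336777 62277027 3 eng mog cd3q2a cd6q0 pd2 true true true .pp 2 0 2
    ndB3q2a ndB6q0 pcB2 Cut.none Ext.none :=
  certB0 (fam := true) (s1 := true) (s2 := true) (a := 2) (b := 0) (c := 2) (cn := .pp) (n1 := ndB3q2a) (n2 := ndB6q0) (pc := pcB2) (cut := Cut.none) (xt := Ext.none) (P1 := 0) (W1 := 536870912) (P2 := 0) (W2 := 536870912) (P3 := 587336777) (W3 := 62277027) (N0 := 3) (En := eng) (mo := mog) (C1 := cd3q2a) (C2 := cd6q0) (C3 := pd2)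
    rfl k0_pp_202_a

noncomputable def f_pp_202_b : ℕ → ℕ → ℕ → ℕ → Bool := onCell 1239849684 370763052 0 536870912 587336777 62277027
    (rowB 3 eng mog cd3q2b cd6q0 pd2 0 true true true .pp 2 0 2 (qsf 1239849684 370763052 0 536870912 2) ndB3q2b ndB6q0 pcB2 Cut.none Ext.none)

def k0_pp_202_b : ∃ t, chk3 f_pp_202_b t 1 1 1 = true :=
  ⟨(l 4), by decide +kernel⟩

theorem c_pp_202_b : CertB 1239849684 370763052 0 536870912 587336777 62277027 3 eng mog cd3q2b cd6q0 pd2 true true true .pp 2 0 2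
    ndB3q2b ndB6q0 pcB2 Cut.none Ext.none :=
  certB0 (fam := true) (s1 := true) (s2 := true) (a := 2) (b := 0) (c := 2) (cn := .pp) (n1 := ndB3q2b) (n2 := ndB6q0) (pc := pcB2) (cut := Cut.none) (xt := Ext.none) (P1 := 1239849684) (W1 := 370763052) (P2 := 0) (W2 := 536870912) (P3 := 587336777) (W3 := 62277027) (N0 := 3) (En := eng) (mo := mog) (C1 := cd3q2b) (C2 := cd6q0) (C3 := pd2)
    rfl k0_pp_202_b

noncomputable def f_pp_203_a : ℕ → ℕ → ℕ → ℕ → Bool := onCell 0 536870912 0 536870912 587336777 62277027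
    (rowB 3 eng mog cd3q2a cd6q0 pd3 0 true true true .up 2 0 3 (qsf 0 536870912 0 536870912 3) ndB3q2a ndB6q0 pcB3 Cut.none Ext.none)

def k0_pp_203_a : ∃ t, chk3 f_pp_203_a t 1 1 1 = true :=
  ⟨(l 4), by decide +kernel⟩

theorem c_pp_203_a : CertB 0 536870912 0 536870912 587336777 62277027 3 eng mog cd3q2a cd6q0 pd3 true true true .up 2 0 3
    ndB3q2a ndB6q0 pcB3 Cut.none Ext.none :=
  certB0 (fam := true) (s1 := true) (s2 := true) (a := 2) (b := 0) (c := 3) (cn := .up) (n1 := ndB3q2a) (n2 := ndB6q0) (pc := pcB3) (cut := Cut.none) (xt := Ext.none) (P1 := 0) (W1 := 536870912) (P2 := 0) (W2 := 536870912) (P3 := 587336777) (W3 := 62277027) (N0 := 3) (En := eng) (mo := mog) (C1 := cd3q2a) (C2 := cd6q0) (C3 := pd3)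
    rfl k0_pp_203_a

noncomputable def f_pp_203_b : ℕ → ℕ → ℕ → ℕ → Bool := onCell 1239849684 370763052 0 536870912 587336777 62277027
    (rowB 3 eng mog cd3q2b cd6q0 pd3 0 true true true .up 2 0 3 (qsf 1239849684 370763052 0 536870912 3) ndB3q2b ndB6q0 pcB3 Cut.none Ext.none)

def k0_pp_203_b : ∃ t, chk3 f_pp_203_b t 1 1 1 = true :=
  ⟨(l 4), by decide +kernel⟩

theorem c_pp_203_b : CertB 1239849684 370763052 0 536870912 587336777 62277027 3 eng mog cd3q2b cd6q0 pd3 true true true .up 2 0 3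
    ndB3q2b ndB6q0 pcB3 Cut.none Ext.none :=
  certB0 (fam := true) (s1 := true) (s2 := true) (a := 2) (b := 0) (c := 3) (cn := .up) (n1 := ndB3q2b) (n2 := ndB6q0) (pc := pcB3) (cut := Cut.none) (xt := Ext.none) (P1 := 1239849684) (W1 := 370763052) (P2 := 0) (W2 := 536870912) (P3 := 587336777) (W3 := 62277027) (N0 := 3) (En := eng) (mo := mog) (C1 := cd3q2b) (C2 := cd6q0) (C3 := pd3)
    rfl k0_pp_203_b

noncomputable def f_pp_213_a : ℕ → ℕ → ℕ → ℕ → Bool := onCell 0 536870912 536870912 536870912 587336777 62277027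
    (rowB 3 eng mog cd3q2a cd6q1 pd3 0 true true true .pnn 2 1 3 (qsf 0 536870912 536870912 536870912 3) ndB3q2a ndB6q1 pcB3 Cut.none Ext.none)

def k0_pp_213_a : ∃ t, chk3 f_pp_213_a t 1 1 1 = true :=
  ⟨(l 4), by decide +kernel⟩

theorem c_pp_213_a : CertB 0 536870912 536870912 536870912 587336777 62277027 3 eng mog cd3q2a cd6q1 pd3 true true true .pnn 2 1 3
    ndB3q2a ndB6q1 pcB3 Cut.none Ext.none :=
  certB0 (fam := true) (s1 := true) (s2 := true) (a := 2) (b := 1) (c := 3) (cn := .pnn) (n1 := ndB3q2a) (n2 := ndB6q1) (pc := pcB3) (cut := Cut.none) (xt := Ext.none) (P1 := 0) (W1 := 536870912) (P2 := 536870912) (W2 := 536870912) (P3 := 587336777) (W3 := 62277027) (N0 := 3) (En := eng) (mo := mog) (C1 := cd3q2a) (C2 := cd6q1) (C3 := pd3)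
    rfl k0_pp_213_a

noncomputable def f_pp_213_b : ℕ → ℕ → ℕ → ℕ → Bool := onCell 1239849684 370763052 536870912 536870912 587336777 62277027
    (rowB 3 eng mog cd3q2b cd6q1 pd3 0 true true true .pnn 2 1 3 (qsf 1239849684 370763052 536870912 536870912 3) ndB3q2b ndB6q1 pcB3 Cut.none Ext.none)

def k0_pp_213_b : ∃ t, chk3 f_pp_213_b t 1 1 1 = true :=
  ⟨(l 4), by decide +kernel⟩

theorem c_pp_213_b : CertB 1239849684 370763052 536870912 536870912 587336777 62277027 3 eng mog cd3q2b cd6q1 pd3 true true true .pnn 2 1 3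
    ndB3q2b ndB6q1 pcB3 Cut.none Ext.none :=
  certB0 (fam := true) (s1 := true) (s2 := true) (a := 2) (b := 1) (c := 3) (cn := .pnn) (n1 := ndB3q2b) (n2 := ndB6q1) (pc := pcB3) (cut := Cut.none) (xt := Ext.none) (P1 := 1239849684) (W1 := 370763052) (P2 := 536870912) (W2 := 536870912) (P3 := 587336777) (W3 := 62277027) (N0 := 3) (En := eng) (mo := mog) (C1 := cd3q2b) (C2 := cd6q1) (C3 := pd3)
    rfl k0_pp_213_b

noncomputable def f_pp_303 : ℕ → ℕ → ℕ → ℕ → Bool := onCell 1610612736 536870912 0 536870912 587336777 62277027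
    (rowB 3 eng mog cd3q3 cd6q0 pd3 0 true true true .npn 3 0 3 (qsf 1610612736 536870912 0 536870912 3) ndB3q3 ndB6q0 pcB3 Cut.none Ext.none)

def k0_pp_303 : ∃ t, chk3 f_pp_303 t 1 1 1 = true :=
  ⟨(l 4), by decide +kernel⟩

theorem c_pp_303 : CertB 1610612736 536870912 0 536870912 587336777 62277027 3 eng mog cd3q3 cd6q0 pd3 true true true .npn 3 0 3
    ndB3q3 ndB6q0 pcB3 Cut.none Ext.none :=
  certB0 (fam := true) (s1 := true) (s2 := true) (a := 3) (b := 0) (c := 3) (cn := .npn) (n1 := ndB3q3) (n2 := ndB6q0) (pc := pcB3) (cut := Cut.none) (xt := Ext.none) (P1 := 1610612736) (W1 := 536870912) (P2 := 0) (W2 := 536870912) (P3 := 587336777) (W3 := 62277027) (N0 := 3) (En := eng) (mo := mog) (C1 := cd3q3) (C2 := cd6q0) (C3 := pd3)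
    rfl k0_pp_303

noncomputable def f_pp_313 : ℕ → ℕ → ℕ → ℕ → Bool := onCell 1610612736 536870912 536870912 536870912 587336777 62277027
    (rowB 3 eng mog cd3q3 cd6q1 pd3 0 true true true .dn 3 1 3 (qsf 1610612736 536870912 536870912 536870912 3) ndB3q3 ndB6q1 pcB3 Cut.none Ext.none)

def k0_pp_313 : ∃ t, chk3 f_pp_313 t 1 1 1 = true :=
  ⟨(l 4), by decide +kernel⟩

theorem c_pp_313 : CertB 1610612736 536870912 536870912 536870912 587336777 62277027 3 eng mog cd3q3 cd6q1 pd3 true true true .dn 3 1 3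
    ndB3q3 ndB6q1 pcB3 Cut.none Ext.none :=
  certB0 (fam := true) (s1 := true) (s2 := true) (a := 3) (b := 1) (c := 3) (cn := .dn) (n1 := ndB3q3) (n2 := ndB6q1) (pc := pcB3) (cut := Cut.none) (xt := Ext.none) (P1 := 1610612736) (W1 := 536870912) (P2 := 536870912) (W2 := 536870912) (P3 := 587336777) (W3 := 62277027) (N0 := 3) (En := eng) (mo := mog) (C1 := cd3q3) (C2 := cd6q1) (C3 := pd3)
    rfl k0_pp_313

noncomputable def f_pm_001 : ℕ → ℕ → ℕ → ℕ → Bool := onCell 0 536870912 0 536870912 587336777 62277027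
    (rowB 3 eng mog cd3q0 cd6q0 pd1 0 true true false .up 0 0 1 (qsf 0 536870912 0 536870912 1) ndB3q0 ndB6q0 pcB1 Cut.none Ext.none)

def k0_pm_001 : ∃ t, chk3 f_pm_001 t 1 1 1 = true :=
  ⟨(a (l 3) (b (l 3) (b (l 3) (l 3)))), by decide +kernel⟩

theorem c_pm_001 : CertB 0 536870912 0 536870912 587336777 62277027 3 eng mog cd3q0 cd6q0 pd1 true true false .up 0 0 1
    ndB3q0 ndB6q0 pcB1 Cut.none Ext.none :=
  certB0 (fam := true) (s1 := true) (s2 := false) (a := 0) (b := 0) (c := 1) (cn := .up) (n1 := ndB3q0) (n2 := ndB6q0) (pc := pcB1) (cut := Cut.none) (xt := Ext.none) (P1 := 0) (W1 := 536870912) (P2 := 0) (W2 := 536870912) (P3 := 587336777) (W3 := 62277027) (N0 := 3) (En := eng) (mo := mog) (C1 := cd3q0) (C2 := cd6q0) (C3 := pd1)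
    rfl k0_pm_001

noncomputable def cut_pm_011 : Cut := Cut.of [[⟨0, 0, 0, 67108864⟩, ⟨1, 1, 0, 67108864⟩, ⟨2, 1, 0, 67108864⟩]]

noncomputable def f_pm_011 : ℕ → ℕ → ℕ → ℕ → Bool := onCell 0 536870912 536870912 536870912 587336777 62277027
    (rowB 3 eng mog cd3q0 cd6q1 pd1 1 true true false .pnn 0 1 1 (qsf 0 536870912 536870912 536870912 1) ndB3q0 ndB6q1 pcB1 cut_pm_011 Ext.none)

def k0_pm_011 : ∃ t, chk3 f_pm_011 t 1 1 1 = true :=
  ⟨(b (l 3) (b (l 3) (a (b (l 3) (a (b (l 3) (a (a (b (l 3) (l 6)) (l 3)) (l 3))) (l 3))) (l 3)))), by decide +kernel⟩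

theorem c_pm_011 : CertB 0 536870912 536870912 536870912 587336777 62277027 3 eng mog cd3q0 cd6q1 pd1 true true false .pnn 0 1 1
    ndB3q0 ndB6q1 pcB1 cut_pm_011 Ext.none :=
  certB1 (fam := true) (s1 := true) (s2 := false) (a := 0) (b := 1) (c := 1) (cn := .pnn) (n1 := ndB3q0) (n2 := ndB6q1) (pc := pcB1) (cut := cut_pm_011) (xt := Ext.none) (P1 := 0) (W1 := 536870912) (P2 := 536870912) (W2 := 536870912) (P3 := 587336777) (W3 := 62277027) (N0 := 3) (En := eng) (mo := mog) (C1 := cd3q0) (C2 := cd6q1) (C3 := pd1)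
    rfl (fun _ => rfl) k0_pm_011

noncomputable def cut_pm_012 : Cut := Cut.of [[⟨0, 0, 0, 67108864⟩, ⟨1, 1, 0, 67108864⟩, ⟨2, 1, 0, 67108864⟩]]

noncomputable def f_pm_012 : ℕ → ℕ → ℕ → ℕ → Bool := onCell 1073741824 536870912 536870912 536870912 587336777 62277027
    (rowB 3 eng mog cd3q0 cd6q1 pd2 2 true true false .pnp 0 1 2 (qsf 0 536870912 536870912 536870912 2) ndB3q0 ndB6q1 pcB2 cut_pm_012 Ext.none)

def k0_pm_012 : ∃ t, chk3 f_pm_012 t 4 1 1 = true :=
  ⟨(a (b (b (a (l 180556153847) (l 16410496)) (a (b (l 16459032) (l 16600320)) (b (l 16426824) (l 16450576)))) (b (a (a (l 3) (b (l 16518008) (l 16704936))) (b (l 16538648) (a (l 16521968) (l 16487704)))) (a (b (b (a (l 3) (l 16636264)) (a (a (l 3) (l 16655832)) (a (l 16632064) (l 16608776)))) (a (b (b (a (l 3) (l 16678104)) (a (l 6) (l 16735464))) (l 6)) (b (b (l 16682568) (a (l 16667512) (l 16641856))) (b (a (l 6) (l 16655856)) (l 6))))) (b (b (a (l 16552184) (l 16511992)) (a (l 16574680)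 (l 16530760))) (b (a (b (l 16592192) (l 16604328)) (l 16550776)) (b (a (l 16637880) (l 16566616)) (a (b (l 16626656) (l 6)) (b (l 16574904) (l 16580568))))))))) (b (b (a (l 16383832) (l 16381400)) (a (b (l 16403424) (l 16414872)) (b (l 16387456) (l 16387936)))) (b (a (b (l 16426712) (l 16524592)) (b (l 16387400) (a (l 16399320) (l 16375704)))) (b (a (b (l 16456224) (l 16468792)) (a (l 16409160) (l 16377640))) (a (b (a (l 16505280) (l 16461736)) (b (l 16536728) (a (l 16527344) (l 16478992)))) (b (a (l 16420504) (l 16382096)) (a (l 16430176) (l 16387136)))))))), by decide +kernel⟩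

def k1_pm_012 : ∃ t, chk3 f_pm_012 t 5 1 1 = true :=
  ⟨(b (a (a (b (a (l 16385296) (l 2)) (a (l 16378488) (a (l 16377080) (l 16384720)))) (b (l 2) (l 16382632))) (b (l 2) (l 16396624))) (b (a (a (a (b (l 16365704) (l 16355608)) (a (l 16476608) (b (l 16360400) (l 16361720)))) (b (l 16350016) (l 16323280))) (b (l 16344584) (l 16301824))) (a (a (a (b (l 16349640) (b (l 16347032) (l 16346856))) (b (a (l 16331096) (a (l 16323072) (l 16320136))) (a (b (l 16323088) (l 16318840)) (b (a (l 16312160) (l 16306376)) (a (l 16305696) (a (l 16299472) (l 16295592))))))) (b (l 16297344) (b (l 16276440) (l 16262248)))) (b (l 16277688) (b (l 16218184) (a (l 16210776) (l 16173600))))))), by decide +kernel⟩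

def k2_pm_012 : ∃ t, chk3 f_pm_012 t 3 1 1 = true :=
  ⟨(b (a (b (l 2) (a (l 16436128) (l 2))) (l 2)) (a (b (a (l 16338120) (l 16390408)) (a (b (l 16243776) (b (l 16187040) (l 16144696))) (b (l 16278928) (l 16184000)))) (b (a (l 16469312) (l 2)) (a (b (l 16346560) (l 16240512)) (l 16383768))))), by decide +kernel⟩

theorem s3_pm_012 : ∃ t, chk3 f_pm_012 t 2 1 1 = true := ex3_a k0_pm_012 k1_pm_012

theorem s4_pm_012 : ∃ t, chk3 f_pm_012 t 1 1 1 = true := ex3_a s3_pm_012 k2_pm_012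

theorem c_pm_012 : CertB 0 536870912 536870912 536870912 587336777 62277027 3 eng mog cd3q0 cd6q1 pd2 true true false .pnp 0 1 2
    ndB3q0 ndB6q1 pcB2 cut_pm_012 Ext.none :=
  certB2 (fam := true) (s1 := true) (s2 := false) (a := 0) (b := 1) (c := 2) (cn := .pnp) (n1 := ndB3q0) (n2 := ndB6q1) (pc := pcB2) (cut := cut_pm_012) (xt := Ext.none) (P1 := 0) (W1 := 536870912) (P2 := 536870912) (W2 := 536870912) (P3 := 587336777) (W3 := 62277027) (N0 := 3) (En := eng) (mo := mog) (C1 := cd3q0) (C2 := cd6q1) (C3 := pd2)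
    rfl (fun _ => rfl) s4_pm_012

noncomputable def f_pm_022 : ℕ → ℕ → ℕ → ℕ → Bool := onCell 0 536870912 1073741824 536870912 587336777 62277027
    (rowB 3 eng mog cd3q0 cd6q2 pd2 1 true true false .pp 0 2 2 (qsf 0 536870912 1073741824 536870912 2) ndB3q0 ndB6q2 pcB2 Cut.none Ext.none)

def k0_pm_022 : ∃ t, chk3 f_pm_022 t 1 1 1 = true :=
  ⟨(b (b (l 3) (a (b (b (b (l 3) (a (b (a (b (a (l 16477984) (l 16475840)) (a (l 16470048) (l 16468320))) (b (l 16466840) (l 16460056))) (b (a (b (l 16463904) (l 16460072)) (l 16495256)) (a (b (a (l 16456208) (l 16455248)) (b (b (b (l 16454024) (a (l 16463944) (l 16452624))) (l 16452776)) (l 16451352))) (b (l 16448216) (l 16486752))))) (a (b (l 16523848) (b (l 16431584) (b (l 16427432) (l 16424704)))) (l 1)))) (a (a (a (a (l 16450160) (l 16419888)) (l 16420488)) (l 16416840)) (a (l 16401912) (l 16373064)))) (a (a (a (b (l 16379232) (l 16293000)) (b (l 16364320) (l 16309456))) (b (l 16366160) (l 16317848)))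 (a (l 16341032) (l 16329936)))) (b (l 1) (a (a (l 16308104) (l 1)) (l 1))))) (a (a (b (a (b (a (l 16231336) (l 16219080)) (a (b (l 16145624) (l 16122248)) (l 16117928))) (b (a (l 16241464) (l 16252664)) (l 16142608))) (a (b (a (l 16128184) (l 16094656)) (l 16170896)) (b (l 16062272) (l 16075120)))) (b (a (b (l 16265904) (b (l 16213304) (l 16178208))) (b (l 16277120) (l 16227424))) (b (a (l 16115840) (l 16182440)) (a (l 15995720) (l 16128312))))) (b (a (b (l 148746195271) (l 16258552)) (b (l 1) (l 16310664))) (a (b (l 16239376) (l 16223168)) (b (l 16325848) (l 16334432)))))), by decide +kernel⟩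

theorem c_pm_022 : CertB 0 536870912 1073741824 536870912 587336777 62277027 3 eng mog cd3q0 cd6q2 pd2 true true false .pp 0 2 2
    ndB3q0 ndB6q2 pcB2 Cut.none Ext.none :=
  certB1 (fam := true) (s1 := true) (s2 := false) (a := 0) (b := 2) (c := 2) (cn := .pp) (n1 := ndB3q0) (n2 := ndB6q2) (pc := pcB2) (cut := Cut.none) (xt := Ext.none) (P1 := 0) (W1 := 536870912) (P2 := 1073741824) (W2 := 536870912) (P3 := 587336777) (W3 := 62277027) (N0 := 3) (En := eng) (mo := mog) (C1 := cd3q0) (C2 := cd6q2) (C3 := pd2)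
    rfl (fun _ => rfl) k0_pm_022

noncomputable def f_pm_023 : ℕ → ℕ → ℕ → ℕ → Bool := onCell 1610612736 536870912 1073741824 536870912 587336777 62277027
    (rowB 3 eng mog cd3q0 cd6q2 pd3 2 true true false .up 0 2 3 (qsf 0 536870912 1073741824 536870912 3) ndB3q0 ndB6q2 pcB3 Cut.none Ext.none)

def k0_pm_023 : ∃ t, chk3 f_pm_023 t 1 1 1 = true :=
  ⟨(a (b (b (a (l 16407272) (l 16565112)) (a (l 16263448) (l 16463416))) (b (a (b (l 16152440) (l 16005856)) (l 16356832)) (a (b (l 16069976) (l 16266016)) (l 16360648)))) (b (a (b (l 2) (l 16559832)) (l 2)) (a (b (l 16567128) (l 16575680)) (a (l 220217969575) (a (l 16824568) (a (l 308801711591) (b (l 2) (l 16738488)))))))), by decide +kernel⟩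

theorem c_pm_023 : CertB 0 536870912 1073741824 536870912 587336777 62277027 3 eng mog cd3q0 cd6q2 pd3 true true false .up 0 2 3
    ndB3q0 ndB6q2 pcB3 Cut.none Ext.none :=
  certB2 (fam := true) (s1 := true) (s2 := false) (a := 0) (b := 2) (c := 3) (cn := .up) (n1 := ndB3q0) (n2 := ndB6q2) (pc := pcB3) (cut := Cut.none) (xt := Ext.none) (P1 := 0) (W1 := 536870912) (P2 := 1073741824) (W2 := 536870912) (P3 := 587336777) (W3 := 62277027) (N0 := 3) (En := eng) (mo := mog) (C1 := cd3q0) (C2 := cd6q2) (C3 := pd3)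
    rfl (fun _ => rfl) k0_pm_023

noncomputable def f_pm_033 : ℕ → ℕ → ℕ → ℕ → Bool := onCell 1610612736 536870912 0 1230186008 587336777 62277027
    (rowB 3 eng mog cd3q0 cd6q3 pd3 2 true true false .pnn 0 3 3 (qsf 0 536870912 0 1230186008 3) ndB3q0 ndB6q3 pcB3 Cut.none Ext.none)

def k0_pm_033 : ∃ t, chk3 f_pm_033 t 1 1 1 = true :=
  ⟨(a (b (l 1) (b (b (l 1) (a (l 1) (a (l 1) (b (l 1) (l 682932754471))))) (b (a (l 1) (a (b (a (l 1) (l 646425451543)) (l 600791855527)) (b (l 555157653367) (l 16455376)))) (a (a (b (l 1) (l 591664429127)) (b (l 626024166407) (l 16270016))) (a (b (l 16384144) (l 16370552)) (b (l 16455816) (l 16461416))))))) (a (b (l 1) (b (a (b (l 1) (a (l 511671341671) (l 16523720))) (b (a (l 639983731255) (l 323229924087)) (a (l 16546632) (l 16572848)))) (b (a (b (l 16509888) (l 16513280)) (l 16574064)) (a (l 16535264) (l 16605080))))) (b (b (l 4) (a (a (l 905734834263) (l 4)) (l 4))) (a (b (b (a (l 16575008) (l 16584600)) (a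 (l 16594264) (l 16610448))) (b (a (l 16616656) (l 16646456)) (l 16661088))) (a (b (l 239679476103) (b (l 16664016) (l 16695512))) (b (l 4) (a (l 16693584) (b (l 4) (l 16707296))))))))), by decide +kernel⟩

theorem c_pm_033 : CertB 0 536870912 0 1230186008 587336777 62277027 3 eng mog cd3q0 cd6q3 pd3 true true false .pnn 0 3 3
    ndB3q0 ndB6q3 pcB3 Cut.none Ext.none :=
  certB2 (fam := true) (s1 := true) (s2 := false) (a := 0) (b := 3) (c := 3) (cn := .pnn) (n1 := ndB3q0) (n2 := ndB6q3) (pc := pcB3) (cut := Cut.none) (xt := Ext.none) (P1 := 0) (W1 := 536870912) (P2 := 0) (W2 := 1230186008) (P3 := 587336777) (W3 := 62277027) (N0 := 3) (En := eng) (mo := mog) (C1 := cd3q0) (C2 := cd6q3) (C3 := pd3)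
    rfl (fun _ => rfl) k0_pm_033

noncomputable def f_pm_101 : ℕ → ℕ → ℕ → ℕ → Bool := onCell 536870912 536870912 0 536870912 587336777 62277027
    (rowB 3 eng mog cd3q1 cd6q0 pd1 2 true true false .npn 1 0 1 (qsf 536870912 536870912 0 536870912 1) ndB3q1 ndB6q0 pcB1 Cut.none Ext.none)

def k0_pm_101 : ∃ t, chk3 f_pm_101 t 1 1 1 = true :=
  ⟨(a (l 3) (a (l 3) (a (b (l 3) (l 3)) (a (b (b (a (l 3) (b (b (a (c (l 16584352) (l 138679929911)) (b (l 16536656) (l 16529528))) (a (l 3) (c (l 16558552) (l 115057518167)))) (b (c (l 78013581943) (a (l 3) (l 93582611015))) (l 3)))) (l 3)) (l 3)) (a (b (b (b (b (a (l 16524288) (b (l 16518472) (l 16509576))) (a (l 16503336) (l 16491144))) (b (b (l 16475864) (l 73718373015)) (a (l 125794786807) (l 16424704)))) (b (b (b (l 133310977687) (l 16388456)) (l 16363080)) (l 16330712))) (l 3)) (b (b (b (b (a (b (a (l 16511344) (l 16507224)) (l 16498376)) (l 16489424)) (a (l 16477120) (l 16459400))) (b (l 16433240) (l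 16393736))) (b (b (l 16360632) (l 16353128)) (l 16343304))) (b (l 16485296) (l 3)))))))), by decide +kernel⟩

theorem c_pm_101 : CertB 536870912 536870912 0 536870912 587336777 62277027 3 eng mog cd3q1 cd6q0 pd1 true true false .npn 1 0 1
    ndB3q1 ndB6q0 pcB1 Cut.none Ext.none :=
  certB2 (fam := true) (s1 := true) (s2 := false) (a := 1) (b := 0) (c := 1) (cn := .npn) (n1 := ndB3q1) (n2 := ndB6q0) (pc := pcB1) (cut := Cut.none) (xt := Ext.none) (P1 := 536870912) (W1 := 536870912) (P2 := 0) (W2 := 536870912) (P3 := 587336777) (W3 := 62277027) (N0 := 3) (En := eng) (mo := mog) (C1 := cd3q1) (C2 := cd6q0) (C3 := pd1)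
    rfl (fun _ => rfl) k0_pm_101

noncomputable def f_pm_102 : ℕ → ℕ → ℕ → ℕ → Bool := onCell 536870912 536870912 1073741824 536870912 587336777 62277027
    (rowB 3 eng mog cd3q1 cd6q0 pd2 1 true true false .npp 1 0 2 (qsf 536870912 536870912 0 536870912 2) ndB3q1 ndB6q0 pcB2 Cut.none Ext.none)

def k0_pm_102 : ∃ t, chk3 f_pm_102 t 1 1 1 = true :=
  ⟨(b (b (b (a (a (b (a (l 16393952) (l 16367880)) (l 16418688)) (a (b (l 16356768) (l 16392480)) (l 16386272))) (a (a (b (l 16379072) (l 16421128)) (b (a (l 16395304) (l 16408944)) (l 16444488))) (a (b (a (l 16426232) (l 16448408)) (l 16473064)) (b (a (b (l 16461664) (l 16480576)) (b (a (l 16622136) (l 16494208)) (l 16512992))) (a (l 16493568) (l 16490152)))))) (a (a (b (l 16407072) (l 16415728)) (a (l 16425952) (l 16445600))) (a (a (l 16465936) (l 16486760)) (a (l 16505816) (b (l 16504216) (l 16516744)))))) (a (a (b (b (b (l 16424816) (l 2)) (l 2)) (l 2)) (b (b (b (l 16452864) (l 16470008)) (l 16479544))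 (l 16517304))) (a (b (b (b (l 16505232) (l 16522856)) (l 16538656)) (l 16578264)) (b (b (b (l 16533944) (a (l 16544432) (l 16541232))) (l 16563760)) (l 16606496))))) (a (b (a (l 2) (l 16788712)) (l 2)) (a (b (b (l 16638832) (l 16722664)) (l 16909184)) (b (b (l 16673576) (l 16759888)) (l 16985376))))), by decide +kernel⟩

theorem c_pm_102 : CertB 536870912 536870912 0 536870912 587336777 62277027 3 eng mog cd3q1 cd6q0 pd2 true true false .npp 1 0 2
    ndB3q1 ndB6q0 pcB2 Cut.none Ext.none :=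
  certB1 (fam := true) (s1 := true) (s2 := false) (a := 1) (b := 0) (c := 2) (cn := .npp) (n1 := ndB3q1) (n2 := ndB6q0) (pc := pcB2) (cut := Cut.none) (xt := Ext.none) (P1 := 536870912) (W1 := 536870912) (P2 := 0) (W2 := 536870912) (P3 := 587336777) (W3 := 62277027) (N0 := 3) (En := eng) (mo := mog) (C1 := cd3q1) (C2 := cd6q0) (C3 := pd2)
    rfl (fun _ => rfl) k0_pm_102

noncomputable def f_pm_112 : ℕ → ℕ → ℕ → ℕ → Bool := onCell 536870912 536870912 1073741824 536870912 587336777 62277027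
    (rowB 3 eng mog cd3q1 cd6q1 pd2 1 true true false .dn 1 1 2 (qsf 536870912 536870912 536870912 536870912 2) ndB3q1 ndB6q1 pcB2 Cut.none Ext.none)

def k0_pm_112 : ∃ t, chk3 f_pm_112 t 1 1 1 = true :=
  ⟨(a (b (b (b (a (b (l 16384528) (l 16397816)) (l 1)) (a (b (l 16406224) (l 16411776)) (l 16426864))) (b (a (b (b (l 16415696) (l 16429456)) (l 16430200)) (b (b (l 16447160) (l 16465776)) (l 16477208))) (a (l 16442696) (l 16512560)))) (b (a (b (l 16457896) (l 16486600)) (l 16587544)) (a (l 16554528) (l 16764480)))) (b (b (l 1) (b (l 1) (l 422551089303))) (b (a (l 16676280) (l 16720792)) (a (l 16923144) (l 16967192))))), by decide +kernel⟩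

theorem c_pm_112 : CertB 536870912 536870912 536870912 536870912 587336777 62277027 3 eng mog cd3q1 cd6q1 pd2 true true false .dn 1 1 2
    ndB3q1 ndB6q1 pcB2 Cut.none Ext.none :=
  certB1 (fam := true) (s1 := true) (s2 := false) (a := 1) (b := 1) (c := 2) (cn := .dn) (n1 := ndB3q1) (n2 := ndB6q1) (pc := pcB2) (cut := Cut.none) (xt := Ext.none) (P1 := 536870912) (W1 := 536870912) (P2 := 536870912) (W2 := 536870912) (P3 := 587336777) (W3 := 62277027) (N0 := 3) (En := eng) (mo := mog) (C1 := cd3q1) (C2 := cd6q1) (C3 := pd2)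
    rfl (fun _ => rfl) k0_pm_112

noncomputable def f_pm_113 : ℕ → ℕ → ℕ → ℕ → Bool := onCell 536870912 536870912 1610612736 536870912 587336777 62277027
    (rowB 3 eng mog cd3q1 cd6q1 pd3 1 true true false .nn 1 1 3 (qsf 536870912 536870912 536870912 536870912 3) ndB3q1 ndB6q1 pcB3 Cut.none Ext.none)

def k0_pm_113 : ∃ t, chk3 f_pm_113 t 1 1 1 = true :=
  ⟨(a (b (b (b (a (b (l 16576608) (l 16575216)) (l 16870056)) (b (l 16736416) (l 16729640))) (b (l 345844889479) (l 400606647527))) (b (b (l 408122788951) (l 2)) (l 2))) (b (b (b (a (l 17045584) (l 17241480)) (b (l 17049248) (l 17017728))) (b (a (l 16918032) (l 17015168)) (l 16887640))) (b (b (l 16827688) (a (l 16776296) (l 16783256))) (a (b (l 16740304) (l 2)) (b (l 16719632) (l 4)))))), by decide +kernel⟩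

theorem c_pm_113 : CertB 536870912 536870912 536870912 536870912 587336777 62277027 3 eng mog cd3q1 cd6q1 pd3 true true false .nn 1 1 3
    ndB3q1 ndB6q1 pcB3 Cut.none Ext.none :=
  certB1 (fam := true) (s1 := true) (s2 := false) (a := 1) (b := 1) (c := 3) (cn := .nn) (n1 := ndB3q1) (n2 := ndB6q1) (pc := pcB3) (cut := Cut.none) (xt := Ext.none) (P1 := 536870912) (W1 := 536870912) (P2 := 536870912) (W2 := 536870912) (P3 := 587336777) (W3 := 62277027) (N0 := 3) (En := eng) (mo := mog) (C1 := cd3q1) (C2 := cd6q1) (C3 := pd3)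
    rfl (fun _ => rfl) k0_pm_113

noncomputable def f_pm_123 : ℕ → ℕ → ℕ → ℕ → Bool := onCell 536870912 536870912 1610612736 536870912 587336777 62277027
    (rowB 3 eng mog cd3q1 cd6q2 pd3 1 true true false .npn 1 2 3 (qsf 536870912 536870912 1073741824 536870912 3) ndB3q1 ndB6q2 pcB3 Cut.none Ext.none)

def k0_pm_123 : ∃ t, chk3 f_pm_123 t 1 1 1 = true :=
  ⟨(a (b (a (b (l 16751640) (l 16690888)) (b (l 17097400) (l 16908672))) (b (a (l 16600912) (l 16743736)) (b (a (l 16681184) (l 16678856)) (b (l 16859192) (b (l 16722768) (a (l 16732656) (b (l 16686240) (l 16691176)))))))) (b (a (a (l 438657619079) (l 1)) (l 1)) (b (a (l 16898216) (l 320546372279)) (b (l 16861744) (b (l 16866752) (b (l 16679416) (b (l 16659632) (a (l 16670432) (l 16667032))))))))), by decide +kernel⟩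

theorem c_pm_123 : CertB 536870912 536870912 1073741824 536870912 587336777 62277027 3 eng mog cd3q1 cd6q2 pd3 true true false .npn 1 2 3
    ndB3q1 ndB6q2 pcB3 Cut.none Ext.none :=
  certB1 (fam := true) (s1 := true) (s2 := false) (a := 1) (b := 2) (c := 3) (cn := .npn) (n1 := ndB3q1) (n2 := ndB6q2) (pc := pcB3) (cut := Cut.none) (xt := Ext.none) (P1 := 536870912) (W1 := 536870912) (P2 := 1073741824) (W2 := 536870912) (P3 := 587336777) (W3 := 62277027) (N0 := 3) (En := eng) (mo := mog) (C1 := cd3q1) (C2 := cd6q2) (C3 := pd3)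
    rfl (fun _ => rfl) k0_pm_123

noncomputable def f_pm_133 : ℕ → ℕ → ℕ → ℕ → Bool := onCell 536870912 536870912 0 1230186008 587336777 62277027
    (rowB 3 eng mog cd3q1 cd6q3 pd3 0 true true false .dn 1 3 3 (qsf 536870912 536870912 0 1230186008 3) ndB3q1 ndB6q3 pcB3 Cut.none Ext.none)

def k0_pm_133 : ∃ t, chk3 f_pm_133 t 1 1 1 = true :=
  ⟨(b (l 2) (b (l 2) (a (b (l 2) (a (l 4) (l 2))) (l 2)))), by decide +kernel⟩

theorem c_pm_133 : CertB 536870912 536870912 0 1230186008 587336777 62277027 3 eng mog cd3q1 cd6q3 pd3 true true false .dn 1 3 3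
    ndB3q1 ndB6q3 pcB3 Cut.none Ext.none :=
  certB0 (fam := true) (s1 := true) (s2 := false) (a := 1) (b := 3) (c := 3) (cn := .dn) (n1 := ndB3q1) (n2 := ndB6q3) (pc := pcB3) (cut := Cut.none) (xt := Ext.none) (P1 := 536870912) (W1 := 536870912) (P2 := 0) (W2 := 1230186008) (P3 := 587336777) (W3 := 62277027) (N0 := 3) (En := eng) (mo := mog) (C1 := cd3q1) (C2 := cd6q3) (C3 := pd3)
    rfl k0_pm_133

noncomputable def f_pm_202_a : ℕ → ℕ → ℕ → ℕ → Bool := onCell 0 536870912 0 536870912 587336777 62277027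
    (rowB 3 eng mog cd3q2a cd6q0 pd2 0 true true false .pp 2 0 2 (qsf 0 536870912 0 536870912 2) ndB3q2a ndB6q0 pcB2 Cut.none Ext.none)

def k0_pm_202_a : ∃ t, chk3 f_pm_202_a t 1 1 1 = true :=
  ⟨(b (a (b (b (a (b (l 16479416) (l 16502848)) (b (a (l 16472296) (l 16467752)) (a (l 16491104) (l 16480816)))) (a (l 16539944) (b (l 16508648) (l 16533104)))) (b (a (b (l 16578608) (l 16606200)) (l 16782800)) (a (l 16646792) (b (l 16618192) (l 16649888))))) (b (a (b (a (b (a (l 16465608) (l 16463920)) (l 16471504)) (b (l 16462808) (l 16465056))) (a (l 16500456) (b (l 16476208) (l 16499352)))) (a (b (b (b (a (l 16463848) (l 16464672)) (l 16462216)) (a (l 16463416) (l 16463624))) (b (l 16473128) (a (l 16492256) (l 16494368)))) (b (a (b (b (b (a (l 16467184) (l 16468224)) (l 16465440)) (l 16463768)) (b (l 16464608) (l 16468576))) (b (a (b (b (b (l 16470304) (l 16468968)) (l 16467480)) (l 16466792)) (b (a (b (b (b (l 16471952) (l 16471192)) (l 16470280))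 (l 16469416)) (a (b (b (b (l 16472536) (l 16471920)) (l 16471352)) (l 16471304)) (b (b (c (l 16525904) (a (l 16422480) (l 16423312))) (l 16472952)) (l 16473864)))) (a (l 16470280) (b (l 16474080) (l 16476648))))) (a (l 16472256) (b (l 16478176) (l 16486904))))) (a (b (l 16479864) (l 16504112)) (b (a (l 16490608) (l 16505296)) (l 16528504)))))) (a (b (a (l 16556904) (l 16547776)) (a (l 16625560) (l 16624696))) (b (a (b (l 16526576) (l 16568344)) (b (a (l 16540056) (l 16570448)) (l 16602352))) (a (l 16637104) (a (l 16666688) (l 16637136))))))) (a (b (b (a (l 4) (a (l 4) (l 16696664))) (l 4)) (l 4)) (b (a (b (a (l 16700976) (l 16711928)) (a (l 16778304) (l 16801176))) (b (a (l 16738360) (b (l 16699064) (l 16723568))) (a (l 16804888) (l 16775432)))) (a (b (a (l 4) (l 16800320)) (l 2)) (b (a (l 16821704) (l 16825184)) (a (l 16784616) (l 16811112))))))), by decide +kernel⟩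

theorem c_pm_202_a : CertB 0 536870912 0 536870912 587336777 62277027 3 eng mog cd3q2a cd6q0 pd2 true true false .pp 2 0 2
    ndB3q2a ndB6q0 pcB2 Cut.none Ext.none :=
  certB0 (fam := true) (s1 := true) (s2 := false) (a := 2) (b := 0) (c := 2) (cn := .pp) (n1 := ndB3q2a) (n2 := ndB6q0) (pc := pcB2) (cut := Cut.none) (xt := Ext.none) (P1 := 0) (W1 := 536870912) (P2 := 0) (W2 := 536870912) (P3 := 587336777) (W3 := 62277027) (N0 := 3) (En := eng) (mo := mog) (C1 := cd3q2a) (C2 := cd6q0) (C3 := pd2)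
    rfl k0_pm_202_a

noncomputable def f_pm_202_b : ℕ → ℕ → ℕ → ℕ → Bool := onCell 1073741824 536870912 0 536870912 587336777 62277027
    (rowB 3 eng mog cd3q2b cd6q0 pd2 2 true true false .pp 2 0 2 (qsf 1239849684 370763052 0 536870912 2) ndB3q2b ndB6q0 pcB2 Cut.none Ext.none)

def k0_pm_202_b : ∃ t, chk3 f_pm_202_b t 1 1 1 = true :=
  ⟨(a (a (l 1) (b (b (a (b (a (l 611529124311) (l 389801518807)) (l 1)) (b (l 356515718199) (l 651257842951))) (l 1)) (l 1))) (a (b (a (b (b (l 16526056) (l 16564952)) (b (l 675953749975) (l 1))) (l 4)) (l 1)) (l 4))), by decide +kernel⟩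

theorem c_pm_202_b : CertB 1239849684 370763052 0 536870912 587336777 62277027 3 eng mog cd3q2b cd6q0 pd2 true true false .pp 2 0 2
    ndB3q2b ndB6q0 pcB2 Cut.none Ext.none :=
  certB2 (fam := true) (s1 := true) (s2 := false) (a := 2) (b := 0) (c := 2) (cn := .pp) (n1 := ndB3q2b) (n2 := ndB6q0) (pc := pcB2) (cut := Cut.none) (xt := Ext.none) (P1 := 1239849684) (W1 := 370763052) (P2 := 0) (W2 := 536870912) (P3 := 587336777) (W3 := 62277027) (N0 := 3) (En := eng) (mo := mog) (C1 := cd3q2b) (C2 := cd6q0) (C3 := pd2)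
    rfl (fun _ => rfl) k0_pm_202_b

noncomputable def f_pm_203_a : ℕ → ℕ → ℕ → ℕ → Bool := onCell 0 536870912 1610612736 536870912 587336777 62277027
    (rowB 3 eng mog cd3q2a cd6q0 pd3 1 true true false .up 2 0 3 (qsf 0 536870912 0 536870912 3) ndB3q2a ndB6q0 pcB3 Cut.none Ext.none)

def k0_pm_203_a : ∃ t, chk3 f_pm_203_a t 1 1 1 = true :=
  ⟨(b (b (a (l 4) (b (a (l 4) (l 16789704)) (l 4))) (l 4)) (l 2)), by decide +kernel⟩

theorem c_pm_203_a : CertB 0 536870912 0 536870912 587336777 62277027 3 eng mog cd3q2a cd6q0 pd3 true true false .up 2 0 3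
    ndB3q2a ndB6q0 pcB3 Cut.none Ext.none :=
  certB1 (fam := true) (s1 := true) (s2 := false) (a := 2) (b := 0) (c := 3) (cn := .up) (n1 := ndB3q2a) (n2 := ndB6q0) (pc := pcB3) (cut := Cut.none) (xt := Ext.none) (P1 := 0) (W1 := 536870912) (P2 := 0) (W2 := 536870912) (P3 := 587336777) (W3 := 62277027) (N0 := 3) (En := eng) (mo := mog) (C1 := cd3q2a) (C2 := cd6q0) (C3 := pd3)
    rfl (fun _ => rfl) k0_pm_203_a

noncomputable def f_pm_203_b : ℕ → ℕ → ℕ → ℕ → Bool := onCell 1239849684 370763052 1610612736 536870912 587336777 62277027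
    (rowB 3 eng mog cd3q2b cd6q0 pd3 1 true true false .up 2 0 3 (qsf 1239849684 370763052 0 536870912 3) ndB3q2b ndB6q0 pcB3 Cut.none Ext.none)

def k0_pm_203_b : ∃ t, chk3 f_pm_203_b t 1 1 1 = true :=
  ⟨(l 4), by decide +kernel⟩

theorem c_pm_203_b : CertB 1239849684 370763052 0 536870912 587336777 62277027 3 eng mog cd3q2b cd6q0 pd3 true true false .up 2 0 3
    ndB3q2b ndB6q0 pcB3 Cut.none Ext.none :=
  certB1 (fam := true) (s1 := true) (s2 := false) (a := 2) (b := 0) (c := 3) (cn := .up) (n1 := ndB3q2b) (n2 := ndB6q0) (pc := pcB3) (cut := Cut.none) (xt := Ext.none) (P1 := 1239849684) (W1 := 370763052) (P2 := 0) (W2 := 536870912) (P3 := 587336777) (W3 := 62277027) (N0 := 3) (En := eng) (mo := mog) (C1 := cd3q2b) (C2 := cd6q0) (C3 := pd3)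
    rfl (fun _ => rfl) k0_pm_203_b

noncomputable def f_pm_213_a : ℕ → ℕ → ℕ → ℕ → Bool := onCell 0 536870912 1610612736 536870912 587336777 62277027
    (rowB 3 eng mog cd3q2a cd6q1 pd3 1 true true false .pnn 2 1 3 (qsf 0 536870912 536870912 536870912 3) ndB3q2a ndB6q1 pcB3 Cut.none Ext.none)

def k0_pm_213_a : ∃ t, chk3 f_pm_213_a t 1 1 1 = true :=
  ⟨(b (b (a (l 4) (b (l 16965864) (l 4))) (l 4)) (l 4)), by decide +kernel⟩

theorem c_pm_213_a : CertB 0 536870912 536870912 536870912 587336777 62277027 3 eng mog cd3q2a cd6q1 pd3 true true false .pnn 2 1 3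
    ndB3q2a ndB6q1 pcB3 Cut.none Ext.none :=
  certB1 (fam := true) (s1 := true) (s2 := false) (a := 2) (b := 1) (c := 3) (cn := .pnn) (n1 := ndB3q2a) (n2 := ndB6q1) (pc := pcB3) (cut := Cut.none) (xt := Ext.none) (P1 := 0) (W1 := 536870912) (P2 := 536870912) (W2 := 536870912) (P3 := 587336777) (W3 := 62277027) (N0 := 3) (En := eng) (mo := mog) (C1 := cd3q2a) (C2 := cd6q1) (C3 := pd3)
    rfl (fun _ => rfl) k0_pm_213_a

noncomputable def f_pm_213_b : ℕ → ℕ → ℕ → ℕ → Bool := onCell 1239849684 370763052 536870912 536870912 587336777 62277027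
    (rowB 3 eng mog cd3q2b cd6q1 pd3 0 true true false .pnn 2 1 3 (qsf 1239849684 370763052 536870912 536870912 3) ndB3q2b ndB6q1 pcB3 Cut.none Ext.none)

def k0_pm_213_b : ∃ t, chk3 f_pm_213_b t 1 1 1 = true :=
  ⟨(l 4), by decide +kernel⟩

theorem c_pm_213_b : CertB 1239849684 370763052 536870912 536870912 587336777 62277027 3 eng mog cd3q2b cd6q1 pd3 true true false .pnn 2 1 3
    ndB3q2b ndB6q1 pcB3 Cut.none Ext.none :=
  certB0 (fam := true) (s1 := true) (s2 := false) (a := 2) (b := 1) (c := 3) (cn := .pnn) (n1 := ndB3q2b) (n2 := ndB6q1) (pc := pcB3) (cut := Cut.none) (xt := Ext.none) (P1 := 1239849684) (W1 := 370763052) (P2 := 536870912) (W2 := 536870912) (P3 := 587336777) (W3 := 62277027) (N0 := 3) (En := eng) (mo := mog) (C1 := cd3q2b) (C2 := cd6q1) (C3 := pd3)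
    rfl k0_pm_213_b

noncomputable def f_pm_303 : ℕ → ℕ → ℕ → ℕ → Bool := onCell 1610612736 536870912 0 536870912 587336777 62277027
    (rowB 3 eng mog cd3q3 cd6q0 pd3 0 true true false .npn 3 0 3 (qsf 1610612736 536870912 0 536870912 3) ndB3q3 ndB6q0 pcB3 Cut.none Ext.none)

def k0_pm_303 : ∃ t, chk3 f_pm_303 t 1 1 1 = true :=
  ⟨(l 4), by decide +kernel⟩

theorem c_pm_303 : CertB 1610612736 536870912 0 536870912 587336777 62277027 3 eng mog cd3q3 cd6q0 pd3 true true false .npn 3 0 3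
    ndB3q3 ndB6q0 pcB3 Cut.none Ext.none :=
  certB0 (fam := true) (s1 := true) (s2 := false) (a := 3) (b := 0) (c := 3) (cn := .npn) (n1 := ndB3q3) (n2 := ndB6q0) (pc := pcB3) (cut := Cut.none) (xt := Ext.none) (P1 := 1610612736) (W1 := 536870912) (P2 := 0) (W2 := 536870912) (P3 := 587336777) (W3 := 62277027) (N0 := 3) (En := eng) (mo := mog) (C1 := cd3q3) (C2 := cd6q0) (C3 := pd3)
    rfl k0_pm_303

noncomputable def f_pm_313 : ℕ → ℕ → ℕ → ℕ → Bool := onCell 1610612736 536870912 536870912 536870912 587336777 62277027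
    (rowB 3 eng mog cd3q3 cd6q1 pd3 0 true true false .dn 3 1 3 (qsf 1610612736 536870912 536870912 536870912 3) ndB3q3 ndB6q1 pcB3 Cut.none Ext.none)

def k0_pm_313 : ∃ t, chk3 f_pm_313 t 1 1 1 = true :=
  ⟨(l 4), by decide +kernel⟩

theorem c_pm_313 : CertB 1610612736 536870912 536870912 536870912 587336777 62277027 3 eng mog cd3q3 cd6q1 pd3 true true false .dn 3 1 3
    ndB3q3 ndB6q1 pcB3 Cut.none Ext.none :=
  certB0 (fam := true) (s1 := true) (s2 := false) (a := 3) (b := 1) (c := 3) (cn := .dn) (n1 := ndB3q3) (n2 := ndB6q1) (pc := pcB3) (cut := Cut.none) (xt := Ext.none) (P1 := 1610612736) (W1 := 536870912) (P2 := 536870912) (W2 := 536870912) (P3 := 587336777) (W3 := 62277027) (N0 := 3) (En := eng) (mo := mog) (C1 := cd3q3) (C2 := cd6q1) (C3 := pd3)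
    rfl k0_pm_313

noncomputable def f_mm_001 : ℕ → ℕ → ℕ → ℕ → Bool := onCell 0 536870912 0 536870912 587336777 62277027
    (rowB 3 eng mog cd3q0 cd6q0 pd1 0 true false false .up 0 0 1 (qsf 0 536870912 0 536870912 1) ndB3q0 ndB6q0 pcB1 Cut.none Ext.none)

def k0_mm_001 : ∃ t, chk3 f_mm_001 t 1 1 1 = true :=
  ⟨(l 4), by decide +kernel⟩

theorem c_mm_001 : CertB 0 536870912 0 536870912 587336777 62277027 3 eng mog cd3q0 cd6q0 pd1 true false false .up 0 0 1
    ndB3q0 ndB6q0 pcB1 Cut.none Ext.none :=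
  certB0 (fam := true) (s1 := false) (s2 := false) (a := 0) (b := 0) (c := 1) (cn := .up) (n1 := ndB3q0) (n2 := ndB6q0) (pc := pcB1) (cut := Cut.none) (xt := Ext.none) (P1 := 0) (W1 := 536870912) (P2 := 0) (W2 := 536870912) (P3 := 587336777) (W3 := 62277027) (N0 := 3) (En := eng) (mo := mog) (C1 := cd3q0) (C2 := cd6q0) (C3 := pd1)
    rfl k0_mm_001

noncomputable def f_mm_011 : ℕ → ℕ → ℕ → ℕ → Bool := onCell 0 536870912 536870912 536870912 587336777 62277027
    (rowB 3 eng mog cd3q0 cd6q1 pd1 0 true false false .pnn 0 1 1 (qsf 0 536870912 536870912 536870912 1) ndB3q0 ndB6q1 pcB1 Cut.none Ext.none)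

def k0_mm_011 : ∃ t, chk3 f_mm_011 t 1 1 1 = true :=
  ⟨(l 4), by decide +kernel⟩

theorem c_mm_011 : CertB 0 536870912 536870912 536870912 587336777 62277027 3 eng mog cd3q0 cd6q1 pd1 true false false .pnn 0 1 1
    ndB3q0 ndB6q1 pcB1 Cut.none Ext.none :=
  certB0 (fam := true) (s1 := false) (s2 := false) (a := 0) (b := 1) (c := 1) (cn := .pnn) (n1 := ndB3q0) (n2 := ndB6q1) (pc := pcB1) (cut := Cut.none) (xt := Ext.none) (P1 := 0) (W1 := 536870912) (P2 := 536870912) (W2 := 536870912) (P3 := 587336777) (W3 := 62277027) (N0 := 3) (En := eng) (mo := mog) (C1 := cd3q0) (C2 := cd6q1) (C3 := pd1)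
    rfl k0_mm_011

noncomputable def f_mm_012 : ℕ → ℕ → ℕ → ℕ → Bool := onCell 0 536870912 536870912 536870912 587336777 62277027
    (rowB 3 eng mog cd3q0 cd6q1 pd2 0 true false false .pnp 0 1 2 (qsf 0 536870912 536870912 536870912 2) ndB3q0 ndB6q1 pcB2 Cut.none Ext.none)

def k0_mm_012 : ∃ t, chk3 f_mm_012 t 1 1 1 = true :=
  ⟨(l 4), by decide +kernel⟩

theorem c_mm_012 : CertB 0 536870912 536870912 536870912 587336777 62277027 3 eng mog cd3q0 cd6q1 pd2 true false false .pnp 0 1 2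
    ndB3q0 ndB6q1 pcB2 Cut.none Ext.none :=
  certB0 (fam := true) (s1 := false) (s2 := false) (a := 0) (b := 1) (c := 2) (cn := .pnp) (n1 := ndB3q0) (n2 := ndB6q1) (pc := pcB2) (cut := Cut.none) (xt := Ext.none) (P1 := 0) (W1 := 536870912) (P2 := 536870912) (W2 := 536870912) (P3 := 587336777) (W3 := 62277027) (N0 := 3) (En := eng) (mo := mog) (C1 := cd3q0) (C2 := cd6q1) (C3 := pd2)
    rfl k0_mm_012

noncomputable def f_mm_022 : ℕ → ℕ → ℕ → ℕ → Bool := onCell 0 536870912 1073741824 536870912 587336777 62277027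
    (rowB 3 eng mog cd3q0 cd6q2 pd2 0 true false false .pp 0 2 2 (qsf 0 536870912 1073741824 536870912 2) ndB3q0 ndB6q2 pcB2 Cut.none Ext.none)

def k0_mm_022 : ∃ t, chk3 f_mm_022 t 1 1 1 = true :=
  ⟨(l 4), by decide +kernel⟩

theorem c_mm_022 : CertB 0 536870912 1073741824 536870912 587336777 62277027 3 eng mog cd3q0 cd6q2 pd2 true false false .pp 0 2 2
    ndB3q0 ndB6q2 pcB2 Cut.none Ext.none :=
  certB0 (fam := true) (s1 := false) (s2 := false) (a := 0) (b := 2) (c := 2) (cn := .pp) (n1 := ndB3q0) (n2 := ndB6q2) (pc := pcB2) (cut := Cut.none) (xt := Ext.none) (P1 := 0) (W1 := 536870912) (P2 := 1073741824) (W2 := 536870912) (P3 := 587336777) (W3 := 62277027) (N0 := 3) (En := eng) (mo := mog) (C1 := cd3q0) (C2 := cd6q2) (C3 := pd2)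
    rfl k0_mm_022

noncomputable def f_mm_023 : ℕ → ℕ → ℕ → ℕ → Bool := onCell 0 536870912 1073741824 536870912 587336777 62277027
    (rowB 3 eng mog cd3q0 cd6q2 pd3 0 true false false .up 0 2 3 (qsf 0 536870912 1073741824 536870912 3) ndB3q0 ndB6q2 pcB3 Cut.none Ext.none)

def k0_mm_023 : ∃ t, chk3 f_mm_023 t 1 1 1 = true :=
  ⟨(l 4), by decide +kernel⟩

theorem c_mm_023 : CertB 0 536870912 1073741824 536870912 587336777 62277027 3 eng mog cd3q0 cd6q2 pd3 true false false .up 0 2 3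
    ndB3q0 ndB6q2 pcB3 Cut.none Ext.none :=
  certB0 (fam := true) (s1 := false) (s2 := false) (a := 0) (b := 2) (c := 3) (cn := .up) (n1 := ndB3q0) (n2 := ndB6q2) (pc := pcB3) (cut := Cut.none) (xt := Ext.none) (P1 := 0) (W1 := 536870912) (P2 := 1073741824) (W2 := 536870912) (P3 := 587336777) (W3 := 62277027) (N0 := 3) (En := eng) (mo := mog) (C1 := cd3q0) (C2 := cd6q2) (C3 := pd3)
    rfl k0_mm_023

noncomputable def f_mm_033 : ℕ → ℕ → ℕ → ℕ → Bool := onCell 0 536870912 0 1230186008 587336777 62277027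
    (rowB 3 eng mog cd3q0 cd6q3 pd3 0 true false false .pnn 0 3 3 (qsf 0 536870912 0 1230186008 3) ndB3q0 ndB6q3 pcB3 Cut.none Ext.none)

def k0_mm_033 : ∃ t, chk3 f_mm_033 t 1 1 1 = true :=
  ⟨(l 5), by decide +kernel⟩

theorem c_mm_033 : CertB 0 536870912 0 1230186008 587336777 62277027 3 eng mog cd3q0 cd6q3 pd3 true false false .pnn 0 3 3
    ndB3q0 ndB6q3 pcB3 Cut.none Ext.none :=
  certB0 (fam := true) (s1 := false) (s2 := false) (a := 0) (b := 3) (c := 3) (cn := .pnn) (n1 := ndB3q0) (n2 := ndB6q3) (pc := pcB3) (cut := Cut.none) (xt := Ext.none) (P1 := 0) (W1 := 536870912) (P2 := 0) (W2 := 1230186008) (P3 := 587336777) (W3 := 62277027) (N0 := 3) (En := eng) (mo := mog) (C1 := cd3q0) (C2 := cd6q3) (C3 := pd3)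
    rfl k0_mm_033

noncomputable def f_mm_101 : ℕ → ℕ → ℕ → ℕ → Bool := onCell 536870912 536870912 0 536870912 587336777 62277027
    (rowB 3 eng mog cd3q1 cd6q0 pd1 0 true false false .npn 1 0 1 (qsf 536870912 536870912 0 536870912 1) ndB3q1 ndB6q0 pcB1 Cut.none Ext.none)

def k0_mm_101 : ∃ t, chk3 f_mm_101 t 1 1 1 = true :=
  ⟨(l 4), by decide +kernel⟩

theorem c_mm_101 : CertB 536870912 536870912 0 536870912 587336777 62277027 3 eng mog cd3q1 cd6q0 pd1 true false false .npn 1 0 1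
    ndB3q1 ndB6q0 pcB1 Cut.none Ext.none :=
  certB0 (fam := true) (s1 := false) (s2 := false) (a := 1) (b := 0) (c := 1) (cn := .npn) (n1 := ndB3q1) (n2 := ndB6q0) (pc := pcB1) (cut := Cut.none) (xt := Ext.none) (P1 := 536870912) (W1 := 536870912) (P2 := 0) (W2 := 536870912) (P3 := 587336777) (W3 := 62277027) (N0 := 3) (En := eng) (mo := mog) (C1 := cd3q1) (C2 := cd6q0) (C3 := pd1)
    rfl k0_mm_101

noncomputable def f_mm_102 : ℕ → ℕ → ℕ → ℕ → Bool := onCell 536870912 536870912 0 536870912 587336777 62277027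
    (rowB 3 eng mog cd3q1 cd6q0 pd2 0 true false false .npp 1 0 2 (qsf 536870912 536870912 0 536870912 2) ndB3q1 ndB6q0 pcB2 Cut.none Ext.none)

def k0_mm_102 : ∃ t, chk3 f_mm_102 t 1 1 1 = true :=
  ⟨(l 4), by decide +kernel⟩

theorem c_mm_102 : CertB 536870912 536870912 0 536870912 587336777 62277027 3 eng mog cd3q1 cd6q0 pd2 true false false .npp 1 0 2
    ndB3q1 ndB6q0 pcB2 Cut.none Ext.none :=
  certB0 (fam := true) (s1 := false) (s2 := false) (a := 1) (b := 0) (c := 2) (cn := .npp) (n1 := ndB3q1) (n2 := ndB6q0) (pc := pcB2) (cut := Cut.none) (xt := Ext.none) (P1 := 536870912) (W1 := 536870912) (P2 := 0) (W2 := 536870912) (P3 := 587336777) (W3 := 62277027) (N0 := 3) (En := eng) (mo := mog) (C1 := cd3q1) (C2 := cd6q0) (C3 := pd2)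
    rfl k0_mm_102

noncomputable def f_mm_112 : ℕ → ℕ → ℕ → ℕ → Bool := onCell 536870912 536870912 536870912 536870912 587336777 62277027
    (rowB 3 eng mog cd3q1 cd6q1 pd2 0 true false false .dn 1 1 2 (qsf 536870912 536870912 536870912 536870912 2) ndB3q1 ndB6q1 pcB2 Cut.none Ext.none)

def k0_mm_112 : ∃ t, chk3 f_mm_112 t 1 1 1 = true :=
  ⟨(l 4), by decide +kernel⟩

theorem c_mm_112 : CertB 536870912 536870912 536870912 536870912 587336777 62277027 3 eng mog cd3q1 cd6q1 pd2 true false false .dn 1 1 2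
    ndB3q1 ndB6q1 pcB2 Cut.none Ext.none :=
  certB0 (fam := true) (s1 := false) (s2 := false) (a := 1) (b := 1) (c := 2) (cn := .dn) (n1 := ndB3q1) (n2 := ndB6q1) (pc := pcB2) (cut := Cut.none) (xt := Ext.none) (P1 := 536870912) (W1 := 536870912) (P2 := 536870912) (W2 := 536870912) (P3 := 587336777) (W3 := 62277027) (N0 := 3) (En := eng) (mo := mog) (C1 := cd3q1) (C2 := cd6q1) (C3 := pd2)
    rfl k0_mm_112

noncomputable def f_mm_113 : ℕ → ℕ → ℕ → ℕ → Bool := onCell 536870912 536870912 536870912 536870912 587336777 62277027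
    (rowB 3 eng mog cd3q1 cd6q1 pd3 0 true false false .nn 1 1 3 (qsf 536870912 536870912 536870912 536870912 3) ndB3q1 ndB6q1 pcB3 Cut.none Ext.none)

def k0_mm_113 : ∃ t, chk3 f_mm_113 t 1 1 1 = true :=
  ⟨(l 4), by decide +kernel⟩

theorem c_mm_113 : CertB 536870912 536870912 536870912 536870912 587336777 62277027 3 eng mog cd3q1 cd6q1 pd3 true false false .nn 1 1 3
    ndB3q1 ndB6q1 pcB3 Cut.none Ext.none :=
  certB0 (fam := true) (s1 := false) (s2 := false) (a := 1) (b := 1) (c := 3) (cn := .nn) (n1 := ndB3q1) (n2 := ndB6q1) (pc := pcB3) (cut := Cut.none) (xt := Ext.none) (P1 := 536870912) (W1 := 536870912) (P2 := 536870912) (W2 := 536870912) (P3 := 587336777) (W3 := 62277027) (N0 := 3) (En := eng) (mo := mog) (C1 := cd3q1) (C2 := cd6q1) (C3 := pd3)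
    rfl k0_mm_113

noncomputable def f_mm_123 : ℕ → ℕ → ℕ → ℕ → Bool := onCell 536870912 536870912 1073741824 536870912 587336777 62277027
    (rowB 3 eng mog cd3q1 cd6q2 pd3 0 true false false .npn 1 2 3 (qsf 536870912 536870912 1073741824 536870912 3) ndB3q1 ndB6q2 pcB3 Cut.none Ext.none)

def k0_mm_123 : ∃ t, chk3 f_mm_123 t 1 1 1 = true :=
  ⟨(l 4), by decide +kernel⟩

theorem c_mm_123 : CertB 536870912 536870912 1073741824 536870912 587336777 62277027 3 eng mog cd3q1 cd6q2 pd3 true false false .npn 1 2 3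
    ndB3q1 ndB6q2 pcB3 Cut.none Ext.none :=
  certB0 (fam := true) (s1 := false) (s2 := false) (a := 1) (b := 2) (c := 3) (cn := .npn) (n1 := ndB3q1) (n2 := ndB6q2) (pc := pcB3) (cut := Cut.none) (xt := Ext.none) (P1 := 536870912) (W1 := 536870912) (P2 := 1073741824) (W2 := 536870912) (P3 := 587336777) (W3 := 62277027) (N0 := 3) (En := eng) (mo := mog) (C1 := cd3q1) (C2 := cd6q2) (C3 := pd3)
    rfl k0_mm_123

noncomputable def f_mm_133 : ℕ → ℕ → ℕ → ℕ → Bool := onCell 536870912 536870912 0 1230186008 587336777 62277027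
    (rowB 3 eng mog cd3q1 cd6q3 pd3 0 true false false .dn 1 3 3 (qsf 536870912 536870912 0 1230186008 3) ndB3q1 ndB6q3 pcB3 Cut.none Ext.none)

def k0_mm_133 : ∃ t, chk3 f_mm_133 t 1 1 1 = true :=
  ⟨(l 4), by decide +kernel⟩

theorem c_mm_133 : CertB 536870912 536870912 0 1230186008 587336777 62277027 3 eng mog cd3q1 cd6q3 pd3 true false false .dn 1 3 3
    ndB3q1 ndB6q3 pcB3 Cut.none Ext.none :=
  certB0 (fam := true) (s1 := false) (s2 := false) (a := 1) (b := 3) (c := 3) (cn := .dn) (n1 := ndB3q1) (n2 := ndB6q3) (pc := pcB3) (cut := Cut.none) (xt := Ext.none) (P1 := 536870912) (W1 := 536870912) (P2 := 0) (W2 := 1230186008) (P3 := 587336777) (W3 := 62277027) (N0 := 3) (En := eng) (mo := mog) (C1 := cd3q1) (C2 := cd6q3) (C3 := pd3)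
    rfl k0_mm_133

noncomputable def f_mm_202_a : ℕ → ℕ → ℕ → ℕ → Bool := onCell 0 536870912 0 536870912 587336777 62277027
    (rowB 3 eng mog cd3q2a cd6q0 pd2 0 true false false .pp 2 0 2 (qsf 0 536870912 0 536870912 2) ndB3q2a ndB6q0 pcB2 Cut.none Ext.none)

def k0_mm_202_a : ∃ t, chk3 f_mm_202_a t 1 1 1 = true :=
  ⟨(l 4), by decide +kernel⟩

theorem c_mm_202_a : CertB 0 536870912 0 536870912 587336777 62277027 3 eng mog cd3q2a cd6q0 pd2 true false false .pp 2 0 2
    ndB3q2a ndB6q0 pcB2 Cut.none Ext.none :=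
  certB0 (fam := true) (s1 := false) (s2 := false) (a := 2) (b := 0) (c := 2) (cn := .pp) (n1 := ndB3q2a) (n2 := ndB6q0) (pc := pcB2) (cut := Cut.none) (xt := Ext.none) (P1 := 0) (W1 := 536870912) (P2 := 0) (W2 := 536870912) (P3 := 587336777) (W3 := 62277027) (N0 := 3) (En := eng) (mo := mog) (C1 := cd3q2a) (C2 := cd6q0) (C3 := pd2)
    rfl k0_mm_202_a

noncomputable def f_mm_202_b : ℕ → ℕ → ℕ → ℕ → Bool := onCell 1239849684 370763052 0 536870912 587336777 62277027
    (rowB 3 eng mog cd3q2b cd6q0 pd2 0 true false false .pp 2 0 2 (qsf 1239849684 370763052 0 536870912 2) ndB3q2b ndB6q0 pcB2 Cut.none Ext.none)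

def k0_mm_202_b : ∃ t, chk3 f_mm_202_b t 1 1 1 = true :=
  ⟨(l 4), by decide +kernel⟩

theorem c_mm_202_b : CertB 1239849684 370763052 0 536870912 587336777 62277027 3 eng mog cd3q2b cd6q0 pd2 true false false .pp 2 0 2
    ndB3q2b ndB6q0 pcB2 Cut.none Ext.none :=
  certB0 (fam := true) (s1 := false) (s2 := false) (a := 2) (b := 0) (c := 2) (cn := .pp) (n1 := ndB3q2b) (n2 := ndB6q0) (pc := pcB2) (cut := Cut.none) (xt := Ext.none) (P1 := 1239849684) (W1 := 370763052) (P2 := 0) (W2 := 536870912) (P3 := 587336777) (W3 := 62277027) (N0 := 3) (En := eng) (mo := mog) (C1 := cd3q2b) (C2 := cd6q0) (C3 := pd2)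
    rfl k0_mm_202_b

noncomputable def f_mm_203_a : ℕ → ℕ → ℕ → ℕ → Bool := onCell 0 536870912 0 536870912 587336777 62277027
    (rowB 3 eng mog cd3q2a cd6q0 pd3 0 true false false .up 2 0 3 (qsf 0 536870912 0 536870912 3) ndB3q2a ndB6q0 pcB3 Cut.none Ext.none)

def k0_mm_203_a : ∃ t, chk3 f_mm_203_a t 1 1 1 = true :=
  ⟨(l 4), by decide +kernel⟩

theorem c_mm_203_a : CertB 0 536870912 0 536870912 587336777 62277027 3 eng mog cd3q2a cd6q0 pd3 true false false .up 2 0 3
    ndB3q2a ndB6q0 pcB3 Cut.none Ext.none :=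
  certB0 (fam := true) (s1 := false) (s2 := false) (a := 2) (b := 0) (c := 3) (cn := .up) (n1 := ndB3q2a) (n2 := ndB6q0) (pc := pcB3) (cut := Cut.none) (xt := Ext.none) (P1 := 0) (W1 := 536870912) (P2 := 0) (W2 := 536870912) (P3 := 587336777) (W3 := 62277027) (N0 := 3) (En := eng) (mo := mog) (C1 := cd3q2a) (C2 := cd6q0) (C3 := pd3)
    rfl k0_mm_203_a

noncomputable def f_mm_203_b : ℕ → ℕ → ℕ → ℕ → Bool := onCell 1239849684 370763052 0 536870912 587336777 62277027
    (rowB 3 eng mog cd3q2b cd6q0 pd3 0 true false false .up 2 0 3 (qsf 1239849684 370763052 0 536870912 3) ndB3q2b ndB6q0 pcB3 Cut.none Ext.none)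

def k0_mm_203_b : ∃ t, chk3 f_mm_203_b t 1 1 1 = true :=
  ⟨(l 4), by decide +kernel⟩

theorem c_mm_203_b : CertB 1239849684 370763052 0 536870912 587336777 62277027 3 eng mog cd3q2b cd6q0 pd3 true false false .up 2 0 3
    ndB3q2b ndB6q0 pcB3 Cut.none Ext.none :=
  certB0 (fam := true) (s1 := false) (s2 := false) (a := 2) (b := 0) (c := 3) (cn := .up) (n1 := ndB3q2b) (n2 := ndB6q0) (pc := pcB3) (cut := Cut.none) (xt := Ext.none) (P1 := 1239849684) (W1 := 370763052) (P2 := 0) (W2 := 536870912) (P3 := 587336777) (W3 := 62277027) (N0 := 3) (En := eng) (mo := mog) (C1 := cd3q2b) (C2 := cd6q0) (C3 := pd3)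
    rfl k0_mm_203_b

noncomputable def f_mm_213_a : ℕ → ℕ → ℕ → ℕ → Bool := onCell 0 536870912 536870912 536870912 587336777 62277027
    (rowB 3 eng mog cd3q2a cd6q1 pd3 0 true false false .pnn 2 1 3 (qsf 0 536870912 536870912 536870912 3) ndB3q2a ndB6q1 pcB3 Cut.none Ext.none)

def k0_mm_213_a : ∃ t, chk3 f_mm_213_a t 1 1 1 = true :=
  ⟨(l 4), by decide +kernel⟩

theorem c_mm_213_a : CertB 0 536870912 536870912 536870912 587336777 62277027 3 eng mog cd3q2a cd6q1 pd3 true false false .pnn 2 1 3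
    ndB3q2a ndB6q1 pcB3 Cut.none Ext.none :=
  certB0 (fam := true) (s1 := false) (s2 := false) (a := 2) (b := 1) (c := 3) (cn := .pnn) (n1 := ndB3q2a) (n2 := ndB6q1) (pc := pcB3) (cut := Cut.none) (xt := Ext.none) (P1 := 0) (W1 := 536870912) (P2 := 536870912) (W2 := 536870912) (P3 := 587336777) (W3 := 62277027) (N0 := 3) (En := eng) (mo := mog) (C1 := cd3q2a) (C2 := cd6q1) (C3 := pd3)
    rfl k0_mm_213_a

noncomputable def f_mm_213_b : ℕ → ℕ → ℕ → ℕ → Bool := onCell 1239849684 370763052 536870912 536870912 587336777 62277027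
    (rowB 3 eng mog cd3q2b cd6q1 pd3 0 true false false .pnn 2 1 3 (qsf 1239849684 370763052 536870912 536870912 3) ndB3q2b ndB6q1 pcB3 Cut.none Ext.none)

def k0_mm_213_b : ∃ t, chk3 f_mm_213_b t 1 1 1 = true :=
  ⟨(l 4), by decide +kernel⟩

theorem c_mm_213_b : CertB 1239849684 370763052 536870912 536870912 587336777 62277027 3 eng mog cd3q2b cd6q1 pd3 true false false .pnn 2 1 3
    ndB3q2b ndB6q1 pcB3 Cut.none Ext.none :=
  certB0 (fam := true) (s1 := false) (s2 := false) (a := 2) (b := 1) (c := 3) (cn := .pnn) (n1 := ndB3q2b) (n2 := ndB6q1) (pc := pcB3) (cut := Cut.none) (xt := Ext.none) (P1 := 1239849684) (W1 := 370763052) (P2 := 536870912) (W2 := 536870912) (P3 := 587336777) (W3 := 62277027) (N0 := 3) (En := eng) (mo := mog) (C1 := cd3q2b) (C2 := cd6q1) (C3 := pd3)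
    rfl k0_mm_213_b

noncomputable def f_mm_303 : ℕ → ℕ → ℕ → ℕ → Bool := onCell 1610612736 536870912 0 536870912 587336777 62277027
    (rowB 3 eng mog cd3q3 cd6q0 pd3 0 true false false .npn 3 0 3 (qsf 1610612736 536870912 0 536870912 3) ndB3q3 ndB6q0 pcB3 Cut.none Ext.none)

def k0_mm_303 : ∃ t, chk3 f_mm_303 t 1 1 1 = true :=
  ⟨(l 4), by decide +kernel⟩

theorem c_mm_303 : CertB 1610612736 536870912 0 536870912 587336777 62277027 3 eng mog cd3q3 cd6q0 pd3 true false false .npn 3 0 3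
    ndB3q3 ndB6q0 pcB3 Cut.none Ext.none :=
  certB0 (fam := true) (s1 := false) (s2 := false) (a := 3) (b := 0) (c := 3) (cn := .npn) (n1 := ndB3q3) (n2 := ndB6q0) (pc := pcB3) (cut := Cut.none) (xt := Ext.none) (P1 := 1610612736) (W1 := 536870912) (P2 := 0) (W2 := 536870912) (P3 := 587336777) (W3 := 62277027) (N0 := 3) (En := eng) (mo := mog) (C1 := cd3q3) (C2 := cd6q0) (C3 := pd3)
    rfl k0_mm_303

noncomputable def f_mm_313 : ℕ → ℕ → ℕ → ℕ → Bool := onCell 1610612736 536870912 536870912 536870912 587336777 62277027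
    (rowB 3 eng mog cd3q3 cd6q1 pd3 0 true false false .dn 3 1 3 (qsf 1610612736 536870912 536870912 536870912 3) ndB3q3 ndB6q1 pcB3 Cut.none Ext.none)

def k0_mm_313 : ∃ t, chk3 f_mm_313 t 1 1 1 = true :=
  ⟨(l 4), by decide +kernel⟩

theorem c_mm_313 : CertB 1610612736 536870912 536870912 536870912 587336777 62277027 3 eng mog cd3q3 cd6q1 pd3 true false false .dn 3 1 3
    ndB3q3 ndB6q1 pcB3 Cut.none Ext.none :=
  certB0 (fam := true) (s1 := false) (s2 := false) (a := 3) (b := 1) (c := 3) (cn := .dn) (n1 := ndB3q3) (n2 := ndB6q1) (pc := pcB3) (cut := Cut.none) (xt := Ext.none) (P1 := 1610612736) (W1 := 536870912) (P2 := 536870912) (W2 := 536870912) (P3 := 587336777) (W3 := 62277027) (N0 := 3) (En := eng) (mo := mog) (C1 := cd3q3) (C2 := cd6q1) (C3 := pd3)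
    rfl k0_mm_313

end Pool.Agent.Strip051.G.I5470_6050.Tab.C.BA36

namespace Pool.Agent.Strip051.G.I5470_6050.Tab.C.BA37

open Pool.Agent.Strip051.PB Pool.Agent.Strip051.PB.T
open Pool.Agent.Strip051.G.I5470_6050.Tab

noncomputable def f_pp_001 : ℕ → ℕ → ℕ → ℕ → Bool := onCell 0 536870912 0 536870912 587336777 62277027
    (rowB 3 eng mog cd3q0 cd7q0 pd1 0 true true true .up 0 0 1 (qsf 0 536870912 0 536870912 1) ndB3q0 ndB7q0 pcB1 Cut.none Ext.none)

def k0_pp_001 : ∃ t, chk3 f_pp_001 t 1 1 1 = true :=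
  ⟨(l 4), by decide +kernel⟩

theorem c_pp_001 : CertB 0 536870912 0 536870912 587336777 62277027 3 eng mog cd3q0 cd7q0 pd1 true true true .up 0 0 1
    ndB3q0 ndB7q0 pcB1 Cut.none Ext.none :=
  certB0 (fam := true) (s1 := true) (s2 := true) (a := 0) (b := 0) (c := 1) (cn := .up) (n1 := ndB3q0) (n2 := ndB7q0) (pc := pcB1) (cut := Cut.none) (xt := Ext.none) (P1 := 0) (W1 := 536870912) (P2 := 0) (W2 := 536870912) (P3 := 587336777) (W3 := 62277027) (N0 := 3) (En := eng) (mo := mog) (C1 := cd3q0) (C2 := cd7q0) (C3 := pd1)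
    rfl k0_pp_001

noncomputable def f_pp_011 : ℕ → ℕ → ℕ → ℕ → Bool := onCell 0 536870912 536870912 536870912 587336777 62277027
    (rowB 3 eng mog cd3q0 cd7q1 pd1 0 true true true .pnn 0 1 1 (qsf 0 536870912 536870912 536870912 1) ndB3q0 ndB7q1 pcB1 Cut.none Ext.none)

def k0_pp_011 : ∃ t, chk3 f_pp_011 t 1 1 1 = true :=
  ⟨(l 4), by decide +kernel⟩

theorem c_pp_011 : CertB 0 536870912 536870912 536870912 587336777 62277027 3 eng mog cd3q0 cd7q1 pd1 true true true .pnn 0 1 1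
    ndB3q0 ndB7q1 pcB1 Cut.none Ext.none :=
  certB0 (fam := true) (s1 := true) (s2 := true) (a := 0) (b := 1) (c := 1) (cn := .pnn) (n1 := ndB3q0) (n2 := ndB7q1) (pc := pcB1) (cut := Cut.none) (xt := Ext.none) (P1 := 0) (W1 := 536870912) (P2 := 536870912) (W2 := 536870912) (P3 := 587336777) (W3 := 62277027) (N0 := 3) (En := eng) (mo := mog) (C1 := cd3q0) (C2 := cd7q1) (C3 := pd1)
    rfl k0_pp_011

noncomputable def f_pp_012 : ℕ → ℕ → ℕ → ℕ → Bool := onCell 0 536870912 536870912 536870912 587336777 62277027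
    (rowB 3 eng mog cd3q0 cd7q1 pd2 0 true true true .pnp 0 1 2 (qsf 0 536870912 536870912 536870912 2) ndB3q0 ndB7q1 pcB2 Cut.none Ext.none)

def k0_pp_012 : ∃ t, chk3 f_pp_012 t 1 1 1 = true :=
  ⟨(l 4), by decide +kernel⟩

theorem c_pp_012 : CertB 0 536870912 536870912 536870912 587336777 62277027 3 eng mog cd3q0 cd7q1 pd2 true true true .pnp 0 1 2
    ndB3q0 ndB7q1 pcB2 Cut.none Ext.none :=
  certB0 (fam := true) (s1 := true) (s2 := true) (a := 0) (b := 1) (c := 2) (cn := .pnp) (n1 := ndB3q0) (n2 := ndB7q1) (pc := pcB2) (cut := Cut.none) (xt := Ext.none) (P1 := 0) (W1 := 536870912) (P2 := 536870912) (W2 := 536870912) (P3 := 587336777) (W3 := 62277027) (N0 := 3) (En := eng) (mo := mog) (C1 := cd3q0) (C2 := cd7q1) (C3 := pd2)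
    rfl k0_pp_012

noncomputable def f_pp_022 : ℕ → ℕ → ℕ → ℕ → Bool := onCell 0 536870912 1073741824 536870912 587336777 62277027
    (rowB 3 eng mog cd3q0 cd7q2 pd2 0 true true true .pp 0 2 2 (qsf 0 536870912 1073741824 536870912 2) ndB3q0 ndB7q2 pcB2 Cut.none Ext.none)

def k0_pp_022 : ∃ t, chk3 f_pp_022 t 1 1 1 = true :=
  ⟨(l 4), by decide +kernel⟩

theorem c_pp_022 : CertB 0 536870912 1073741824 536870912 587336777 62277027 3 eng mog cd3q0 cd7q2 pd2 true true true .pp 0 2 2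
    ndB3q0 ndB7q2 pcB2 Cut.none Ext.none :=
  certB0 (fam := true) (s1 := true) (s2 := true) (a := 0) (b := 2) (c := 2) (cn := .pp) (n1 := ndB3q0) (n2 := ndB7q2) (pc := pcB2) (cut := Cut.none) (xt := Ext.none) (P1 := 0) (W1 := 536870912) (P2 := 1073741824) (W2 := 536870912) (P3 := 587336777) (W3 := 62277027) (N0 := 3) (En := eng) (mo := mog) (C1 := cd3q0) (C2 := cd7q2) (C3 := pd2)
    rfl k0_pp_022

noncomputable def f_pp_023 : ℕ → ℕ → ℕ → ℕ → Bool := onCell 0 536870912 1073741824 536870912 587336777 62277027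
    (rowB 3 eng mog cd3q0 cd7q2 pd3 0 true true true .up 0 2 3 (qsf 0 536870912 1073741824 536870912 3) ndB3q0 ndB7q2 pcB3 Cut.none Ext.none)

def k0_pp_023 : ∃ t, chk3 f_pp_023 t 1 1 1 = true :=
  ⟨(l 4), by decide +kernel⟩

theorem c_pp_023 : CertB 0 536870912 1073741824 536870912 587336777 62277027 3 eng mog cd3q0 cd7q2 pd3 true true true .up 0 2 3
    ndB3q0 ndB7q2 pcB3 Cut.none Ext.none :=
  certB0 (fam := true) (s1 := true) (s2 := true) (a := 0) (b := 2) (c := 3) (cn := .up) (n1 := ndB3q0) (n2 := ndB7q2) (pc := pcB3) (cut := Cut.none) (xt := Ext.none) (P1 := 0) (W1 := 536870912) (P2 := 1073741824) (W2 := 536870912) (P3 := 587336777) (W3 := 62277027) (N0 := 3) (En := eng) (mo := mog) (C1 := cd3q0) (C2 := cd7q2) (C3 := pd3)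
    rfl k0_pp_023

noncomputable def f_pp_033 : ℕ → ℕ → ℕ → ℕ → Bool := onCell 0 536870912 0 1230186008 587336777 62277027
    (rowB 3 eng mog cd3q0 cd7q3 pd3 0 true true true .pnn 0 3 3 (qsf 0 536870912 0 1230186008 3) ndB3q0 ndB7q3 pcB3 Cut.none Ext.none)

def k0_pp_033 : ∃ t, chk3 f_pp_033 t 1 1 1 = true :=
  ⟨(l 4), by decide +kernel⟩

theorem c_pp_033 : CertB 0 536870912 0 1230186008 587336777 62277027 3 eng mog cd3q0 cd7q3 pd3 true true true .pnn 0 3 3
    ndB3q0 ndB7q3 pcB3 Cut.none Ext.none :=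
  certB0 (fam := true) (s1 := true) (s2 := true) (a := 0) (b := 3) (c := 3) (cn := .pnn) (n1 := ndB3q0) (n2 := ndB7q3) (pc := pcB3) (cut := Cut.none) (xt := Ext.none) (P1 := 0) (W1 := 536870912) (P2 := 0) (W2 := 1230186008) (P3 := 587336777) (W3 := 62277027) (N0 := 3) (En := eng) (mo := mog) (C1 := cd3q0) (C2 := cd7q3) (C3 := pd3)
    rfl k0_pp_033

noncomputable def f_pp_101 : ℕ → ℕ → ℕ → ℕ → Bool := onCell 536870912 536870912 0 536870912 587336777 62277027
    (rowB 3 eng mog cd3q1 cd7q0 pd1 0 true true true .npn 1 0 1 (qsf 536870912 536870912 0 536870912 1) ndB3q1 ndB7q0 pcB1 Cut.none Ext.none)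

def k0_pp_101 : ∃ t, chk3 f_pp_101 t 1 1 1 = true :=
  ⟨(l 4), by decide +kernel⟩

theorem c_pp_101 : CertB 536870912 536870912 0 536870912 587336777 62277027 3 eng mog cd3q1 cd7q0 pd1 true true true .npn 1 0 1
    ndB3q1 ndB7q0 pcB1 Cut.none Ext.none :=
  certB0 (fam := true) (s1 := true) (s2 := true) (a := 1) (b := 0) (c := 1) (cn := .npn) (n1 := ndB3q1) (n2 := ndB7q0) (pc := pcB1) (cut := Cut.none) (xt := Ext.none) (P1 := 536870912) (W1 := 536870912) (P2 := 0) (W2 := 536870912) (P3 := 587336777) (W3 := 62277027) (N0 := 3) (En := eng) (mo := mog) (C1 := cd3q1) (C2 := cd7q0) (C3 := pd1)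
    rfl k0_pp_101

noncomputable def f_pp_102 : ℕ → ℕ → ℕ → ℕ → Bool := onCell 536870912 536870912 0 536870912 587336777 62277027
    (rowB 3 eng mog cd3q1 cd7q0 pd2 0 true true true .npp 1 0 2 (qsf 536870912 536870912 0 536870912 2) ndB3q1 ndB7q0 pcB2 Cut.none Ext.none)

def k0_pp_102 : ∃ t, chk3 f_pp_102 t 1 1 1 = true :=
  ⟨(l 4), by decide +kernel⟩

theorem c_pp_102 : CertB 536870912 536870912 0 536870912 587336777 62277027 3 eng mog cd3q1 cd7q0 pd2 true true true .npp 1 0 2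
    ndB3q1 ndB7q0 pcB2 Cut.none Ext.none :=
  certB0 (fam := true) (s1 := true) (s2 := true) (a := 1) (b := 0) (c := 2) (cn := .npp) (n1 := ndB3q1) (n2 := ndB7q0) (pc := pcB2) (cut := Cut.none) (xt := Ext.none) (P1 := 536870912) (W1 := 536870912) (P2 := 0) (W2 := 536870912) (P3 := 587336777) (W3 := 62277027) (N0 := 3) (En := eng) (mo := mog) (C1 := cd3q1) (C2 := cd7q0) (C3 := pd2)
    rfl k0_pp_102

noncomputable def f_pp_112 : ℕ → ℕ → ℕ → ℕ → Bool := onCell 536870912 536870912 536870912 536870912 587336777 62277027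
    (rowB 3 eng mog cd3q1 cd7q1 pd2 0 true true true .dn 1 1 2 (qsf 536870912 536870912 536870912 536870912 2) ndB3q1 ndB7q1 pcB2 Cut.none Ext.none)

def k0_pp_112 : ∃ t, chk3 f_pp_112 t 1 1 1 = true :=
  ⟨(l 4), by decide +kernel⟩

theorem c_pp_112 : CertB 536870912 536870912 536870912 536870912 587336777 62277027 3 eng mog cd3q1 cd7q1 pd2 true true true .dn 1 1 2
    ndB3q1 ndB7q1 pcB2 Cut.none Ext.none :=
  certB0 (fam := true) (s1 := true) (s2 := true) (a := 1) (b := 1) (c := 2) (cn := .dn) (n1 := ndB3q1) (n2 := ndB7q1) (pc := pcB2) (cut := Cut.none) (xt := Ext.none) (P1 := 536870912) (W1 := 536870912) (P2 := 536870912) (W2 := 536870912) (P3 := 587336777) (W3 := 62277027) (N0 := 3) (En := eng) (mo := mog) (C1 := cd3q1) (C2 := cd7q1) (C3 := pd2)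
    rfl k0_pp_112

noncomputable def f_pp_113 : ℕ → ℕ → ℕ → ℕ → Bool := onCell 536870912 536870912 536870912 536870912 587336777 62277027
    (rowB 3 eng mog cd3q1 cd7q1 pd3 0 true true true .nn 1 1 3 (qsf 536870912 536870912 536870912 536870912 3) ndB3q1 ndB7q1 pcB3 Cut.none Ext.none)

def k0_pp_113 : ∃ t, chk3 f_pp_113 t 1 1 1 = true :=
  ⟨(l 4), by decide +kernel⟩

theorem c_pp_113 : CertB 536870912 536870912 536870912 536870912 587336777 62277027 3 eng mog cd3q1 cd7q1 pd3 true true true .nn 1 1 3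
    ndB3q1 ndB7q1 pcB3 Cut.none Ext.none :=
  certB0 (fam := true) (s1 := true) (s2 := true) (a := 1) (b := 1) (c := 3) (cn := .nn) (n1 := ndB3q1) (n2 := ndB7q1) (pc := pcB3) (cut := Cut.none) (xt := Ext.none) (P1 := 536870912) (W1 := 536870912) (P2 := 536870912) (W2 := 536870912) (P3 := 587336777) (W3 := 62277027) (N0 := 3) (En := eng) (mo := mog) (C1 := cd3q1) (C2 := cd7q1) (C3 := pd3)
    rfl k0_pp_113

noncomputable def f_pp_123 : ℕ → ℕ → ℕ → ℕ → Bool := onCell 536870912 536870912 1073741824 536870912 587336777 62277027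
    (rowB 3 eng mog cd3q1 cd7q2 pd3 0 true true true .npn 1 2 3 (qsf 536870912 536870912 1073741824 536870912 3) ndB3q1 ndB7q2 pcB3 Cut.none Ext.none)

def k0_pp_123 : ∃ t, chk3 f_pp_123 t 1 1 1 = true :=
  ⟨(l 4), by decide +kernel⟩

theorem c_pp_123 : CertB 536870912 536870912 1073741824 536870912 587336777 62277027 3 eng mog cd3q1 cd7q2 pd3 true true true .npn 1 2 3
    ndB3q1 ndB7q2 pcB3 Cut.none Ext.none :=
  certB0 (fam := true) (s1 := true) (s2 := true) (a := 1) (b := 2) (c := 3) (cn := .npn) (n1 := ndB3q1) (n2 := ndB7q2) (pc := pcB3) (cut := Cut.none) (xt := Ext.none) (P1 := 536870912) (W1 := 536870912) (P2 := 1073741824) (W2 := 536870912) (P3 := 587336777) (W3 := 62277027) (N0 := 3) (En := eng) (mo := mog) (C1 := cd3q1) (C2 := cd7q2) (C3 := pd3)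
    rfl k0_pp_123

noncomputable def f_pp_133 : ℕ → ℕ → ℕ → ℕ → Bool := onCell 536870912 536870912 0 1230186008 587336777 62277027
    (rowB 3 eng mog cd3q1 cd7q3 pd3 0 true true true .dn 1 3 3 (qsf 536870912 536870912 0 1230186008 3) ndB3q1 ndB7q3 pcB3 Cut.none Ext.none)

def k0_pp_133 : ∃ t, chk3 f_pp_133 t 1 1 1 = true :=
  ⟨(l 4), by decide +kernel⟩

theorem c_pp_133 : CertB 536870912 536870912 0 1230186008 587336777 62277027 3 eng mog cd3q1 cd7q3 pd3 true true true .dn 1 3 3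
    ndB3q1 ndB7q3 pcB3 Cut.none Ext.none :=
  certB0 (fam := true) (s1 := true) (s2 := true) (a := 1) (b := 3) (c := 3) (cn := .dn) (n1 := ndB3q1) (n2 := ndB7q3) (pc := pcB3) (cut := Cut.none) (xt := Ext.none) (P1 := 536870912) (W1 := 536870912) (P2 := 0) (W2 := 1230186008) (P3 := 587336777) (W3 := 62277027) (N0 := 3) (En := eng) (mo := mog) (C1 := cd3q1) (C2 := cd7q3) (C3 := pd3)
    rfl k0_pp_133

noncomputable def f_pp_202_a : ℕ → ℕ → ℕ → ℕ → Bool := onCell 0 536870912 0 536870912 587336777 62277027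
    (rowB 3 eng mog cd3q2a cd7q0 pd2 0 true true true .pp 2 0 2 (qsf 0 536870912 0 536870912 2) ndB3q2a ndB7q0 pcB2 Cut.none Ext.none)

def k0_pp_202_a : ∃ t, chk3 f_pp_202_a t 1 1 1 = true :=
  ⟨(l 4), by decide +kernel⟩

theorem c_pp_202_a : CertB 0 536870912 0 536870912 587336777 62277027 3 eng mog cd3q2a cd7q0 pd2 true true true .pp 2 0 2
    ndB3q2a ndB7q0 pcB2 Cut.none Ext.none :=
  certB0 (fam := true) (s1 := true) (s2 := true) (a := 2) (b := 0) (c := 2) (cn := .pp) (n1 := ndB3q2a) (n2 := ndB7q0) (pc := pcB2) (cut := Cut.none) (xt := Ext.none) (P1 := 0) (W1 := 536870912) (P2 := 0) (W2 := 536870912) (P3 := 587336777) (W3 := 62277027) (N0 := 3) (En := eng) (mo := mog) (C1 := cd3q2a) (C2 := cd7q0) (C3 := pd2)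
    rfl k0_pp_202_a

noncomputable def f_pp_202_b : ℕ → ℕ → ℕ → ℕ → Bool := onCell 1239849684 370763052 0 536870912 587336777 62277027
    (rowB 3 eng mog cd3q2b cd7q0 pd2 0 true true true .pp 2 0 2 (qsf 1239849684 370763052 0 536870912 2) ndB3q2b ndB7q0 pcB2 Cut.none Ext.none)

def k0_pp_202_b : ∃ t, chk3 f_pp_202_b t 1 1 1 = true :=
  ⟨(l 4), by decide +kernel⟩

theorem c_pp_202_b : CertB 1239849684 370763052 0 536870912 587336777 62277027 3 eng mog cd3q2b cd7q0 pd2 true true true .pp 2 0 2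
    ndB3q2b ndB7q0 pcB2 Cut.none Ext.none :=
  certB0 (fam := true) (s1 := true) (s2 := true) (a := 2) (b := 0) (c := 2) (cn := .pp) (n1 := ndB3q2b) (n2 := ndB7q0) (pc := pcB2) (cut := Cut.none) (xt := Ext.none) (P1 := 1239849684) (W1 := 370763052) (P2 := 0) (W2 := 536870912) (P3 := 587336777) (W3 := 62277027) (N0 := 3) (En := eng) (mo := mog) (C1 := cd3q2b) (C2 := cd7q0) (C3 := pd2)
    rfl k0_pp_202_b

noncomputable def f_pp_203_a : ℕ → ℕ → ℕ → ℕ → Bool := onCell 0 536870912 0 536870912 587336777 62277027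
    (rowB 3 eng mog cd3q2a cd7q0 pd3 0 true true true .up 2 0 3 (qsf 0 536870912 0 536870912 3) ndB3q2a ndB7q0 pcB3 Cut.none Ext.none)

def k0_pp_203_a : ∃ t, chk3 f_pp_203_a t 1 1 1 = true :=
  ⟨(l 4), by decide +kernel⟩

theorem c_pp_203_a : CertB 0 536870912 0 536870912 587336777 62277027 3 eng mog cd3q2a cd7q0 pd3 true true true .up 2 0 3
    ndB3q2a ndB7q0 pcB3 Cut.none Ext.none :=
  certB0 (fam := true) (s1 := true) (s2 := true) (a := 2) (b := 0) (c := 3) (cn := .up) (n1 := ndB3q2a) (n2 := ndB7q0) (pc := pcB3) (cut := Cut.none) (xt := Ext.none) (P1 := 0) (W1 := 536870912) (P2 := 0) (W2 := 536870912) (P3 := 587336777) (W3 := 62277027) (N0 := 3) (En := eng) (mo := mog) (C1 := cd3q2a) (C2 := cd7q0) (C3 := pd3)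
    rfl k0_pp_203_a

noncomputable def f_pp_203_b : ℕ → ℕ → ℕ → ℕ → Bool := onCell 1239849684 370763052 0 536870912 587336777 62277027
    (rowB 3 eng mog cd3q2b cd7q0 pd3 0 true true true .up 2 0 3 (qsf 1239849684 370763052 0 536870912 3) ndB3q2b ndB7q0 pcB3 Cut.none Ext.none)

def k0_pp_203_b : ∃ t, chk3 f_pp_203_b t 1 1 1 = true :=
  ⟨(l 4), by decide +kernel⟩

theorem c_pp_203_b : CertB 1239849684 370763052 0 536870912 587336777 62277027 3 eng mog cd3q2b cd7q0 pd3 true true true .up 2 0 3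
    ndB3q2b ndB7q0 pcB3 Cut.none Ext.none :=
  certB0 (fam := true) (s1 := true) (s2 := true) (a := 2) (b := 0) (c := 3) (cn := .up) (n1 := ndB3q2b) (n2 := ndB7q0) (pc := pcB3) (cut := Cut.none) (xt := Ext.none) (P1 := 1239849684) (W1 := 370763052) (P2 := 0) (W2 := 536870912) (P3 := 587336777) (W3 := 62277027) (N0 := 3) (En := eng) (mo := mog) (C1 := cd3q2b) (C2 := cd7q0) (C3 := pd3)
    rfl k0_pp_203_b

noncomputable def f_pp_213_a : ℕ → ℕ → ℕ → ℕ → Bool := onCell 0 536870912 536870912 536870912 587336777 62277027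
    (rowB 3 eng mog cd3q2a cd7q1 pd3 0 true true true .pnn 2 1 3 (qsf 0 536870912 536870912 536870912 3) ndB3q2a ndB7q1 pcB3 Cut.none Ext.none)

def k0_pp_213_a : ∃ t, chk3 f_pp_213_a t 1 1 1 = true :=
  ⟨(l 4), by decide +kernel⟩

theorem c_pp_213_a : CertB 0 536870912 536870912 536870912 587336777 62277027 3 eng mog cd3q2a cd7q1 pd3 true true true .pnn 2 1 3
    ndB3q2a ndB7q1 pcB3 Cut.none Ext.none :=
  certB0 (fam := true) (s1 := true) (s2 := true) (a := 2) (b := 1) (c := 3) (cn := .pnn) (n1 := ndB3q2a) (n2 := ndB7q1) (pc := pcB3) (cut := Cut.none) (xt := Ext.none) (P1 := 0) (W1 := 536870912) (P2 := 536870912) (W2 := 536870912) (P3 := 587336777) (W3 := 62277027) (N0 := 3) (En := eng) (mo := mog) (C1 := cd3q2a) (C2 := cd7q1) (C3 := pd3)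
    rfl k0_pp_213_a

noncomputable def f_pp_213_b : ℕ → ℕ → ℕ → ℕ → Bool := onCell 1239849684 370763052 536870912 536870912 587336777 62277027
    (rowB 3 eng mog cd3q2b cd7q1 pd3 0 true true true .pnn 2 1 3 (qsf 1239849684 370763052 536870912 536870912 3) ndB3q2b ndB7q1 pcB3 Cut.none Ext.none)

def k0_pp_213_b : ∃ t, chk3 f_pp_213_b t 1 1 1 = true :=
  ⟨(l 4), by decide +kernel⟩

theorem c_pp_213_b : CertB 1239849684 370763052 536870912 536870912 587336777 62277027 3 eng mog cd3q2b cd7q1 pd3 true true true .pnn 2 1 3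
    ndB3q2b ndB7q1 pcB3 Cut.none Ext.none :=
  certB0 (fam := true) (s1 := true) (s2 := true) (a := 2) (b := 1) (c := 3) (cn := .pnn) (n1 := ndB3q2b) (n2 := ndB7q1) (pc := pcB3) (cut := Cut.none) (xt := Ext.none) (P1 := 1239849684) (W1 := 370763052) (P2 := 536870912) (W2 := 536870912) (P3 := 587336777) (W3 := 62277027) (N0 := 3) (En := eng) (mo := mog) (C1 := cd3q2b) (C2 := cd7q1) (C3 := pd3)
    rfl k0_pp_213_b

noncomputable def f_pp_303 : ℕ → ℕ → ℕ → ℕ → Bool := onCell 1610612736 536870912 0 536870912 587336777 62277027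
    (rowB 3 eng mog cd3q3 cd7q0 pd3 0 true true true .npn 3 0 3 (qsf 1610612736 536870912 0 536870912 3) ndB3q3 ndB7q0 pcB3 Cut.none Ext.none)

def k0_pp_303 : ∃ t, chk3 f_pp_303 t 1 1 1 = true :=
  ⟨(l 4), by decide +kernel⟩

theorem c_pp_303 : CertB 1610612736 536870912 0 536870912 587336777 62277027 3 eng mog cd3q3 cd7q0 pd3 true true true .npn 3 0 3
    ndB3q3 ndB7q0 pcB3 Cut.none Ext.none :=
  certB0 (fam := true) (s1 := true) (s2 := true) (a := 3) (b := 0) (c := 3) (cn := .npn) (n1 := ndB3q3) (n2 := ndB7q0) (pc := pcB3) (cut := Cut.none) (xt := Ext.none) (P1 := 1610612736) (W1 := 536870912) (P2 := 0) (W2 := 536870912) (P3 := 587336777) (W3 := 62277027) (N0 := 3) (En := eng) (mo := mog) (C1 := cd3q3) (C2 := cd7q0) (C3 := pd3)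
    rfl k0_pp_303

noncomputable def f_pp_313 : ℕ → ℕ → ℕ → ℕ → Bool := onCell 1610612736 536870912 536870912 536870912 587336777 62277027
    (rowB 3 eng mog cd3q3 cd7q1 pd3 0 true true true .dn 3 1 3 (qsf 1610612736 536870912 536870912 536870912 3) ndB3q3 ndB7q1 pcB3 Cut.none Ext.none)

def k0_pp_313 : ∃ t, chk3 f_pp_313 t 1 1 1 = true :=
  ⟨(l 4), by decide +kernel⟩

theorem c_pp_313 : CertB 1610612736 536870912 536870912 536870912 587336777 62277027 3 eng mog cd3q3 cd7q1 pd3 true true true .dn 3 1 3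
    ndB3q3 ndB7q1 pcB3 Cut.none Ext.none :=
  certB0 (fam := true) (s1 := true) (s2 := true) (a := 3) (b := 1) (c := 3) (cn := .dn) (n1 := ndB3q3) (n2 := ndB7q1) (pc := pcB3) (cut := Cut.none) (xt := Ext.none) (P1 := 1610612736) (W1 := 536870912) (P2 := 536870912) (W2 := 536870912) (P3 := 587336777) (W3 := 62277027) (N0 := 3) (En := eng) (mo := mog) (C1 := cd3q3) (C2 := cd7q1) (C3 := pd3)
    rfl k0_pp_313

noncomputable def f_pm_001 : ℕ → ℕ → ℕ → ℕ → Bool := onCell 0 536870912 536870912 536870912 587336777 62277027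
    (rowB 3 eng mog cd3q0 cd7q0 pd1 1 true true false .up 0 0 1 (qsf 0 536870912 0 536870912 1) ndB3q0 ndB7q0 pcB1 Cut.none Ext.none)

def k0_pm_001 : ∃ t, chk3 f_pm_001 t 1 1 1 = true :=
  ⟨(b (l 3) (b (l 3) (a (l 2) (b (l 3) (a (l 2) (a (b (l 16595528) (l 2)) (b (l 16428200) (l 16368992)))))))), by decide +kernel⟩

theorem c_pm_001 : CertB 0 536870912 0 536870912 587336777 62277027 3 eng mog cd3q0 cd7q0 pd1 true true false .up 0 0 1
    ndB3q0 ndB7q0 pcB1 Cut.none Ext.none :=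
  certB1 (fam := true) (s1 := true) (s2 := false) (a := 0) (b := 0) (c := 1) (cn := .up) (n1 := ndB3q0) (n2 := ndB7q0) (pc := pcB1) (cut := Cut.none) (xt := Ext.none) (P1 := 0) (W1 := 536870912) (P2 := 0) (W2 := 536870912) (P3 := 587336777) (W3 := 62277027) (N0 := 3) (En := eng) (mo := mog) (C1 := cd3q0) (C2 := cd7q0) (C3 := pd1)
    rfl (fun _ => rfl) k0_pm_001

noncomputable def cut_pm_011 : Cut := Cut.of [[⟨0, 0, 0, 67108864⟩, ⟨1, 1, 0, 67108864⟩, ⟨2, 1, 0, 67108864⟩]]

noncomputable def f_pm_011 : ℕ → ℕ → ℕ → ℕ → Bool := onCell 0 536870912 536870912 536870912 587336777 62277027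
    (rowB 3 eng mog cd3q0 cd7q1 pd1 1 true true false .pnn 0 1 1 (qsf 0 536870912 536870912 536870912 1) ndB3q0 ndB7q1 pcB1 cut_pm_011 Ext.none)

def k0_pm_011 : ∃ t, chk3 f_pm_011 t 1 1 1 = true :=
  ⟨(b (l 3) (b (l 3) (b (a (l 3) (l 3)) (b (a (l 3) (a (l 3) (a (l 16468128) (l 16405312)))) (a (b (a (l 3) (l 3)) (a (a (a (l 6) (l 3)) (l 3)) (a (a (l 3) (l 16612384)) (l 16569728)))) (a (a (b (l 16545400) (l 16516440)) (l 16498368)) (a (l 16423024) (l 16367344)))))))), by decide +kernel⟩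

theorem c_pm_011 : CertB 0 536870912 536870912 536870912 587336777 62277027 3 eng mog cd3q0 cd7q1 pd1 true true false .pnn 0 1 1
    ndB3q0 ndB7q1 pcB1 cut_pm_011 Ext.none :=
  certB1 (fam := true) (s1 := true) (s2 := false) (a := 0) (b := 1) (c := 1) (cn := .pnn) (n1 := ndB3q0) (n2 := ndB7q1) (pc := pcB1) (cut := cut_pm_011) (xt := Ext.none) (P1 := 0) (W1 := 536870912) (P2 := 536870912) (W2 := 536870912) (P3 := 587336777) (W3 := 62277027) (N0 := 3) (En := eng) (mo := mog) (C1 := cd3q0) (C2 := cd7q1) (C3 := pd1)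
    rfl (fun _ => rfl) k0_pm_011

noncomputable def cut_pm_012 : Cut := Cut.of [[⟨0, 0, 0, 67108864⟩, ⟨1, 1, 0, 67108864⟩, ⟨2, 1, 0, 67108864⟩]]

noncomputable def f_pm_012 : ℕ → ℕ → ℕ → ℕ → Bool := onCell 1073741824 536870912 536870912 536870912 587336777 62277027
    (rowB 3 eng mog cd3q0 cd7q1 pd2 2 true true false .pnp 0 1 2 (qsf 0 536870912 536870912 536870912 2) ndB3q0 ndB7q1 pcB2 cut_pm_012 Ext.none)

def k0_pm_012 : ∃ t, chk3 f_pm_012 t 4 1 1 = true :=
  ⟨(b (a (b (b (l 16324648) (l 16369584)) (b (l 16494496) (a (l 16474280) (l 16425856)))) (b (b (l 16300512) (l 16329320)) (b (l 16351400) (l 16452824)))) (a (b (a (b (b (l 16508392) (l 16532008)) (a (b (l 16575968) (l 16604360)) (l 16550232))) (b (l 16458912) (b (l 16485488) (l 16504816)))) (a (b (b (a (l 16697056) (l 16589408)) (a (a (l 16697952) (l 16652616)) (l 16637872))) (b (a (a (b (l 16701656) (l 6)) (b (l 16676008) (l 16713104))) (b (l 16638352) (l 16716064))) (b (a (l 6) (a (l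 6) (l 16655136))) (l 6)))) (b (b (l 16588632) (a (l 16570816) (l 16526472))) (b (a (b (l 16589720) (l 16602744)) (l 16548528)) (b (a (l 16637080) (l 16565712)) (a (b (l 16626328) (l 6)) (b (l 16574528) (l 16580464)))))))) (b (a (b (l 16406256) (l 16575968)) (b (l 16363112) (l 16373576))) (b (a (b (l 16448848) (l 16505792)) (b (l 16382536) (l 16473392))) (a (b (a (l 16502800) (l 16459024)) (b (l 16514704) (a (l 16527080) (l 16478696)))) (b (a (l 16417552) (l 16378880)) (a (l 16471360) (l 16407280)))))))), by decide +kernel⟩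

def k1_pm_012 : ∃ t, chk3 f_pm_012 t 5 1 1 = true :=
  ⟨(b (b (a (a (a (l 16304392) (l 2)) (l 2)) (l 2)) (a (a (a (l 16331600) (b (l 16334368) (l 16336520))) (l 16326984)) (l 16339384))) (b (a (a (a (b (l 16338120) (l 16339680)) (b (a (l 16328816) (l 16329392)) (a (l 16326000) (l 16322712)))) (b (l 16316728) (l 16303704))) (b (l 16309000) (l 16280232))) (a (a (a (b (l 16341096) (b (l 16343456) (l 16387880))) (b (a (l 16321920) (a (l 16313560) (l 16352264))) (a (b (l 16319248) (l 16317848)) (b (a (l 16308176) (l 16302280)) (a (l 16304664) (a (l 16298416) (l 16294520))))))) (b (l 16286672) (b (l 16271928) (l 16282032)))) (b (b (l 16254264) (l 16234464)) (b (l 16212768) (a (l 16209368) (l 16171984))))))), by decide +kernel⟩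

def k2_pm_012 : ∃ t, chk3 f_pm_012 t 3 1 1 = true :=
  ⟨(b (a (b (l 2) (a (l 16377768) (l 2))) (l 2)) (a (b (a (b (l 16328176) (l 16284080)) (l 16357120)) (b (a (l 16229528) (l 16263040)) (a (b (l 16180480) (l 16142776)) (l 16179088)))) (b (a (l 16438536) (l 2)) (a (b (l 16331080) (l 16235528)) (l 16374704))))), by decide +kernel⟩

theorem s3_pm_012 : ∃ t, chk3 f_pm_012 t 2 1 1 = true := ex3_a k0_pm_012 k1_pm_012

theorem s4_pm_012 : ∃ t, chk3 f_pm_012 t 1 1 1 = true := ex3_a s3_pm_012 k2_pm_012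

theorem c_pm_012 : CertB 0 536870912 536870912 536870912 587336777 62277027 3 eng mog cd3q0 cd7q1 pd2 true true false .pnp 0 1 2
    ndB3q0 ndB7q1 pcB2 cut_pm_012 Ext.none :=
  certB2 (fam := true) (s1 := true) (s2 := false) (a := 0) (b := 1) (c := 2) (cn := .pnp) (n1 := ndB3q0) (n2 := ndB7q1) (pc := pcB2) (cut := cut_pm_012) (xt := Ext.none) (P1 := 0) (W1 := 536870912) (P2 := 536870912) (W2 := 536870912) (P3 := 587336777) (W3 := 62277027) (N0 := 3) (En := eng) (mo := mog) (C1 := cd3q0) (C2 := cd7q1) (C3 := pd2)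
    rfl (fun _ => rfl) s4_pm_012

noncomputable def cut_pm_022 : Cut := Cut.of [[⟨0, 0, 0, 67108864⟩, ⟨1, 1, 0, 67108864⟩, ⟨2, 1, 0, 67108864⟩]]

noncomputable def f_pm_022 : ℕ → ℕ → ℕ → ℕ → Bool := onCell 0 536870912 1073741824 536870912 587336777 62277027
    (rowB 3 eng mog cd3q0 cd7q2 pd2 1 true true false .pp 0 2 2 (qsf 0 536870912 1073741824 536870912 2) ndB3q0 ndB7q2 pcB2 cut_pm_022 Ext.none)

def k0_pm_022 : ∃ t, chk3 f_pm_022 t 1 4 1 = true :=
  ⟨(a (b (a (b (a (a (l 6) (a (l 6) (l 1))) (l 1)) (b (a (a (l 6) (a (l 6) (b (l 1) (l 16602304)))) (l 1)) (a (a (a (a (l 16680088) (l 16649160)) (l 16653800)) (a (l 16630176) (b (l 16589752) (l 16577080)))) (a (b (l 1) (l 16555936)) (l 1))))) (l 1)) (a (a (b (a (a (b (a (l 16626560) (l 16617696)) (l 16590288)) (b (l 16602896) (l 16572816))) (b (a (l 16581360) (l 16557760)) (l 16563752))) (a (b (a (l 16558144) (l 16542664)) (l 16582400)) (b (l 16515616) (l 16488384)))) (b (a (b (a (l 16532016)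 (l 16504056)) (a (l 16508272) (l 16482632))) (b (l 1) (l 16482016))) (a (b (l 16472720) (l 16449528)) (b (l 16421768) (l 16403008))))) (b (l 1) (a (b (l 1) (a (l 16347880) (l 1))) (l 1))))) (l 1)), by decide +kernel⟩

def k1_pm_022 : ∃ t, chk3 f_pm_022 t 1 5 1 = true :=
  ⟨(a (a (b (b (b (a (a (a (l 16493768) (l 16482360)) (l 16461224)) (a (l 16426288) (l 16384048))) (b (a (a (l 16465224) (l 16441056)) (a (l 16409056) (l 16369952))) (b (a (a (l 16453752) (l 16431064)) (l 16382536)) (a (a (b (l 16448008) (a (l 16448120) (l 16439512))) (b (l 16426016) (l 16422560))) (b (l 16378600) (l 16396872)))))) (a (a (b (l 16422272) (l 16398464)) (b (l 16408176) (l 16383240))) (a (l 16412280) (l 16338152)))) (a (a (b (b (l 16369992) (l 16341672)) (b (l 16313232) (l 16284496))) (b (l 16346952) (l 16299576))) (b (a (l 16329480) (l 16304896)) (a (l 16290576) (l 16273656))))) (a (b (b (b (a (l 70362993383) (l 1)) (b (a (l 16323576) (l 1)) (b (a (l 16318392) (l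 1)) (a (b (l 16315808) (l 16314088)) (l 129955676615))))) (a (b (l 16306568) (l 16293584)) (b (l 16259040) (l 16251376)))) (b (a (l 16274976) (l 16240224)) (a (l 16251920) (l 16226376)))) (b (b (l 1) (b (l 1) (l 139082259463))) (b (a (l 16198568) (l 180421199191)) (a (l 16194560) (l 16156864)))))) (a (b (l 1) (a (b (l 1) (l 246993217703)) (l 1))) (l 1))), by decide +kernel⟩

def k2_pm_022 : ∃ t, chk3 f_pm_022 t 1 3 1 = true :=
  ⟨(a (b (a (b (a (b (a (l 16240320) (l 16251904)) (a (l 16178704) (l 16202944))) (b (l 16248808) (l 16214896))) (a (a (b (l 16110960) (l 16038016)) (b (l 16150416) (l 16091368))) (b (l 16179896) (l 16141912)))) (b (a (b (l 16222080) (l 16205240)) (b (l 16177192) (l 16177968))) (a (l 16200832) (b (l 16178120) (l 16177328))))) (a (a (b (b (l 16220328) (a (l 15985328) (l 15952152))) (a (b (l 15974536) (l 15973568)) (l 15937576))) (b (b (l 16096880) (l 16040152)) (l 16124248))) (b (a (b (l 16150184) (l 16122848)) (l 16169464))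 (a (l 16072552) (l 16149616))))) (b (a (b (a (b (l 238940061799) (l 16132312)) (b (l 1) (l 345777114311))) (a (b (l 16151296) (l 16167272)) (b (l 16110232) (l 16146384)))) (b (l 1) (a (l 424160389351) (l 1)))) (a (b (a (l 16179080) (l 16181832)) (a (l 16186056) (l 16209040))) (b (a (l 16178152) (l 430602854503)) (a (l 16230776) (l 16256008)))))), by decide +kernel⟩

theorem s3_pm_022 : ∃ t, chk3 f_pm_022 t 1 2 1 = true := ex3_b k0_pm_022 k1_pm_022

theorem s4_pm_022 : ∃ t, chk3 f_pm_022 t 1 1 1 = true := ex3_b s3_pm_022 k2_pm_022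

theorem c_pm_022 : CertB 0 536870912 1073741824 536870912 587336777 62277027 3 eng mog cd3q0 cd7q2 pd2 true true false .pp 0 2 2
    ndB3q0 ndB7q2 pcB2 cut_pm_022 Ext.none :=
  certB1 (fam := true) (s1 := true) (s2 := false) (a := 0) (b := 2) (c := 2) (cn := .pp) (n1 := ndB3q0) (n2 := ndB7q2) (pc := pcB2) (cut := cut_pm_022) (xt := Ext.none) (P1 := 0) (W1 := 536870912) (P2 := 1073741824) (W2 := 536870912) (P3 := 587336777) (W3 := 62277027) (N0 := 3) (En := eng) (mo := mog) (C1 := cd3q0) (C2 := cd7q2) (C3 := pd2)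
    rfl (fun _ => rfl) s4_pm_022

noncomputable def f_pm_023 : ℕ → ℕ → ℕ → ℕ → Bool := onCell 1610612736 536870912 1073741824 536870912 587336777 62277027
    (rowB 3 eng mog cd3q0 cd7q2 pd3 2 true true false .up 0 2 3 (qsf 0 536870912 1073741824 536870912 3) ndB3q0 ndB7q2 pcB3 Cut.none Ext.none)

def k0_pm_023 : ∃ t, chk3 f_pm_023 t 1 1 1 = true :=
  ⟨(a (a (b (b (a (a (l 16237256) (l 16273960)) (a (l 16328128) (l 16391648))) (a (b (l 16210720) (l 16178368)) (a (l 16241896) (l 16282352)))) (b (b (l 16151312) (l 16048832)) (b (l 15955888) (a (l 15996632) (l 15977856))))) (b (a (b (l 16450096) (l 16362024)) (b (l 2) (l 16463784))) (b (a (l 16225456) (l 16400792)) (b (l 16273000) (l 16277960))))) (b (a (b (l 2) (a (l 16512176) (l 2))) (l 2)) (b (a (l 16542856) (a (l 16596368) (l 2))) (a (b (l 16536496) (l 16530528)) (a (l 16624976) (a (l 16649432) (a (l 16658904) (l 16787360)))))))), by decide +kernel⟩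

theorem c_pm_023 : CertB 0 536870912 1073741824 536870912 587336777 62277027 3 eng mog cd3q0 cd7q2 pd3 true true false .up 0 2 3
    ndB3q0 ndB7q2 pcB3 Cut.none Ext.none :=
  certB2 (fam := true) (s1 := true) (s2 := false) (a := 0) (b := 2) (c := 3) (cn := .up) (n1 := ndB3q0) (n2 := ndB7q2) (pc := pcB3) (cut := Cut.none) (xt := Ext.none) (P1 := 0) (W1 := 536870912) (P2 := 1073741824) (W2 := 536870912) (P3 := 587336777) (W3 := 62277027) (N0 := 3) (En := eng) (mo := mog) (C1 := cd3q0) (C2 := cd7q2) (C3 := pd3)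
    rfl (fun _ => rfl) k0_pm_023

noncomputable def f_pm_033 : ℕ → ℕ → ℕ → ℕ → Bool := onCell 1610612736 536870912 0 1230186008 587336777 62277027
    (rowB 3 eng mog cd3q0 cd7q3 pd3 2 true true false .pnn 0 3 3 (qsf 0 536870912 0 1230186008 3) ndB3q0 ndB7q3 pcB3 Cut.none Ext.none)

def k0_pm_033 : ∃ t, chk3 f_pm_033 t 1 1 1 = true :=
  ⟨(a (b (l 1) (b (b (l 1) (a (l 1) (a (l 1) (b (l 1) (l 752726318391))))) (b (a (l 1) (b (l 744672813815) (l 695817976023))) (a (b (a (l 1) (l 709775730439)) (b (l 648035616119) (l 317860002295))) (b (l 16346424) (l 16309632)))))) (a (b (l 1) (b (b (a (l 1) (b (l 689912668759) (l 16549488))) (a (b (l 740378382791) (l 16506744)) (b (l 16547776) (l 16544240)))) (b (b (a (l 16495400) (l 16544232)) (l 16519200)) (b (l 16521288) (l 16526552))))) (b (b (a (l 1) (l 4)) (a (b (l 968548750967) (a (l 918082903111) (l 16573984))) (b (l 4) (l 4)))) (a (b (a (b (l 518114081383) (l 16576864)) (b (l 16584456) (l 16599328))) (b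 (l 16602664) (l 16664664))) (b (a (b (l 16593832) (l 16621024)) (b (l 4) (a (l 16632192) (l 4)))) (a (b (l 16642608) (l 16656888)) (b (a (l 16657424) (l 16912536)) (a (l 16670784) (a (l 16677088) (l 16680976)))))))))), by decide +kernel⟩

theorem c_pm_033 : CertB 0 536870912 0 1230186008 587336777 62277027 3 eng mog cd3q0 cd7q3 pd3 true true false .pnn 0 3 3
    ndB3q0 ndB7q3 pcB3 Cut.none Ext.none :=
  certB2 (fam := true) (s1 := true) (s2 := false) (a := 0) (b := 3) (c := 3) (cn := .pnn) (n1 := ndB3q0) (n2 := ndB7q3) (pc := pcB3) (cut := Cut.none) (xt := Ext.none) (P1 := 0) (W1 := 536870912) (P2 := 0) (W2 := 1230186008) (P3 := 587336777) (W3 := 62277027) (N0 := 3) (En := eng) (mo := mog) (C1 := cd3q0) (C2 := cd7q3) (C3 := pd3)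
    rfl (fun _ => rfl) k0_pm_033

noncomputable def f_pm_101 : ℕ → ℕ → ℕ → ℕ → Bool := onCell 536870912 536870912 0 536870912 587336777 62277027
    (rowB 3 eng mog cd3q1 cd7q0 pd1 2 true true false .npn 1 0 1 (qsf 536870912 536870912 0 536870912 1) ndB3q1 ndB7q0 pcB1 Cut.none Ext.none)

def k0_pm_101 : ∃ t, chk3 f_pm_101 t 1 1 1 = true :=
  ⟨(a (l 3) (a (b (a (l 3) (b (b (a (a (l 16531904) (l 16512272)) (a (l 16491840) (l 16471488))) (a (l 3) (a (l 16501792) (l 16477608)))) (a (l 3) (b (l 16481048) (l 3))))) (l 3)) (b (b (a (b (a (b (l 16438184) (l 16444032)) (l 16530008)) (a (a (l 16452952) (l 16427952)) (b (l 16394552) (l 16381672)))) (a (b (b (a (l 16372472) (l 16354408)) (l 16356944)) (l 16328576)) (b (a (l 16320552) (l 16282560)) (l 16382880)))) (a (a (b (b (l 16427296) (l 16414096)) (l 16389608)) (b (a (l 16372568) (l 16337096)) (l 16327880))) (a (b (l 16287672) (l 16401048)) (b (l 16283984) (l 16286768))))) (a (b (a (b (l 16408944) (l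 3)) (b (l 16351448) (l 16385248))) (b (a (l 3) (l 16431704)) (l 3))) (b (a (b (l 16315072) (l 16337168)) (b (l 16291464) (l 16302304))) (b (a (l 16371728) (l 16327208)) (a (l 16418072) (l 16364616)))))))), by decide +kernel⟩

theorem c_pm_101 : CertB 536870912 536870912 0 536870912 587336777 62277027 3 eng mog cd3q1 cd7q0 pd1 true true false .npn 1 0 1
    ndB3q1 ndB7q0 pcB1 Cut.none Ext.none :=
  certB2 (fam := true) (s1 := true) (s2 := false) (a := 1) (b := 0) (c := 1) (cn := .npn) (n1 := ndB3q1) (n2 := ndB7q0) (pc := pcB1) (cut := Cut.none) (xt := Ext.none) (P1 := 536870912) (W1 := 536870912) (P2 := 0) (W2 := 536870912) (P3 := 587336777) (W3 := 62277027) (N0 := 3) (En := eng) (mo := mog) (C1 := cd3q1) (C2 := cd7q0) (C3 := pd1)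
    rfl (fun _ => rfl) k0_pm_101

noncomputable def f_pm_102 : ℕ → ℕ → ℕ → ℕ → Bool := onCell 1073741824 536870912 0 536870912 587336777 62277027
    (rowB 3 eng mog cd3q1 cd7q0 pd2 2 true true false .npp 1 0 2 (qsf 536870912 536870912 0 536870912 2) ndB3q1 ndB7q0 pcB2 Cut.none Ext.none)

def k0_pm_102 : ∃ t, chk3 f_pm_102 t 1 1 1 = true :=
  ⟨(a (b (a (b (a (b (l 16338368) (l 16320816)) (b (l 16480440) (l 16432264))) (a (b (l 16310824) (l 16302120)) (b (l 16400200) (l 16377640)))) (b (a (b (l 2) (l 16600096)) (l 2)) (a (a (a (l 16457400) (b (l 16516432) (l 16470896))) (l 16555640)) (b (l 16707104) (l 16648968))))) (a (b (a (a (l 16303856) (l 16306560)) (l 16517640)) (a (b (l 16304536) (l 16326096)) (b (l 16335936) (l 16334688)))) (a (b (a (a (l 16397720) (l 16422592)) (l 16461848)) (a (a (l 16358592) (l 16379368)) (l 16404432))) (b (l 16570520) (l 16491416))))) (b (a (b (l 2) (a (b (l 2) (l 16826104)) (l 2))) (l 2)) (a (b (a (l 16729856) (l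 16911688)) (a (l 16625344) (l 16788064))) (b (a (b (l 2) (l 17027704)) (l 2)) (a (l 16969104) (l 17245976)))))), by decide +kernel⟩

theorem c_pm_102 : CertB 536870912 536870912 0 536870912 587336777 62277027 3 eng mog cd3q1 cd7q0 pd2 true true false .npp 1 0 2
    ndB3q1 ndB7q0 pcB2 Cut.none Ext.none :=
  certB2 (fam := true) (s1 := true) (s2 := false) (a := 1) (b := 0) (c := 2) (cn := .npp) (n1 := ndB3q1) (n2 := ndB7q0) (pc := pcB2) (cut := Cut.none) (xt := Ext.none) (P1 := 536870912) (W1 := 536870912) (P2 := 0) (W2 := 536870912) (P3 := 587336777) (W3 := 62277027) (N0 := 3) (En := eng) (mo := mog) (C1 := cd3q1) (C2 := cd7q0) (C3 := pd2)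
    rfl (fun _ => rfl) k0_pm_102

noncomputable def f_pm_112 : ℕ → ℕ → ℕ → ℕ → Bool := onCell 1073741824 536870912 536870912 536870912 587336777 62277027
    (rowB 3 eng mog cd3q1 cd7q1 pd2 2 true true false .dn 1 1 2 (qsf 536870912 536870912 536870912 536870912 2) ndB3q1 ndB7q1 pcB2 Cut.none Ext.none)

def k0_pm_112 : ∃ t, chk3 f_pm_112 t 1 1 1 = true :=
  ⟨(a (a (b (a (b (l 201896714503) (l 1)) (b (l 206728501287) (l 364031733799))) (l 1)) (b (a (b (a (a (l 16347264) (l 16360760)) (l 16369864)) (a (a (l 16354296) (l 271153030551)) (l 16353440))) (b (l 16425256) (l 16372760))) (b (a (l 1) (l 352220336759)) (l 1)))) (b (a (b (l 16593816) (a (l 16432288) (l 16542640))) (b (l 16987272) (l 16836304))) (a (b (a (l 329134831319) (l 16420568)) (a (l 1) (l 397854179719))) (b (a (l 16544968) (l 16745864)) (l 372621715111))))), by decide +kernel⟩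

theorem c_pm_112 : CertB 536870912 536870912 536870912 536870912 587336777 62277027 3 eng mog cd3q1 cd7q1 pd2 true true false .dn 1 1 2
    ndB3q1 ndB7q1 pcB2 Cut.none Ext.none :=
  certB2 (fam := true) (s1 := true) (s2 := false) (a := 1) (b := 1) (c := 2) (cn := .dn) (n1 := ndB3q1) (n2 := ndB7q1) (pc := pcB2) (cut := Cut.none) (xt := Ext.none) (P1 := 536870912) (W1 := 536870912) (P2 := 536870912) (W2 := 536870912) (P3 := 587336777) (W3 := 62277027) (N0 := 3) (En := eng) (mo := mog) (C1 := cd3q1) (C2 := cd7q1) (C3 := pd2)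
    rfl (fun _ => rfl) k0_pm_112

noncomputable def f_pm_113 : ℕ → ℕ → ℕ → ℕ → Bool := onCell 536870912 536870912 1610612736 536870912 587336777 62277027
    (rowB 3 eng mog cd3q1 cd7q1 pd3 1 true true false .nn 1 1 3 (qsf 536870912 536870912 536870912 536870912 3) ndB3q1 ndB7q1 pcB3 Cut.none Ext.none)

def k0_pm_113 : ∃ t, chk3 f_pm_113 t 1 1 1 = true :=
  ⟨(b (b (b (a (a (b (l 16572336) (l 16572776)) (b (l 16880088) (l 16822472))) (a (l 17009032) (l 17157240))) (a (b (a (l 16610352) (l 16820792)) (a (l 16618648) (l 16815984))) (b (l 17003768) (l 16978024)))) (b (a (a (l 414027267111) (l 16879400)) (a (l 16900904) (l 16974648))) (a (a (l 2) (l 16753096)) (a (l 16845816) (l 16896040))))) (b (a (a (l 2) (b (l 16759192) (l 2))) (b (a (l 16805696) (l 16833216)) (a (l 16775992) (l 16775080)))) (a (l 2) (b (b (l 16739792) (l 424765109751)) (a (l 2) (l 4)))))), by decide +kernel⟩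

theorem c_pm_113 : CertB 536870912 536870912 536870912 536870912 587336777 62277027 3 eng mog cd3q1 cd7q1 pd3 true true false .nn 1 1 3
    ndB3q1 ndB7q1 pcB3 Cut.none Ext.none :=
  certB1 (fam := true) (s1 := true) (s2 := false) (a := 1) (b := 1) (c := 3) (cn := .nn) (n1 := ndB3q1) (n2 := ndB7q1) (pc := pcB3) (cut := Cut.none) (xt := Ext.none) (P1 := 536870912) (W1 := 536870912) (P2 := 536870912) (W2 := 536870912) (P3 := 587336777) (W3 := 62277027) (N0 := 3) (En := eng) (mo := mog) (C1 := cd3q1) (C2 := cd7q1) (C3 := pd3)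
    rfl (fun _ => rfl) k0_pm_113

noncomputable def f_pm_123 : ℕ → ℕ → ℕ → ℕ → Bool := onCell 1610612736 536870912 1073741824 536870912 587336777 62277027
    (rowB 3 eng mog cd3q1 cd7q2 pd3 2 true true false .npn 1 2 3 (qsf 536870912 536870912 1073741824 536870912 3) ndB3q1 ndB7q2 pcB3 Cut.none Ext.none)

def k0_pm_123 : ∃ t, chk3 f_pm_123 t 1 1 1 = true :=
  ⟨(a (a (b (b (a (a (l 16400320) (l 16443624)) (a (l 16514240) (l 16608936))) (a (l 1) (a (l 1) (l 16474528)))) (l 1)) (b (a (b (l 16662640) (l 16538552)) (b (l 16702032) (l 16596824))) (b (a (l 1) (l 16564536)) (l 1)))) (b (a (b (a (l 16724184) (l 16727528)) (a (l 16634624) (l 16660384))) (a (b (l 16806016) (l 16793120)) (a (b (l 16647512) (l 16657288)) (a (l 81839400375) (b (l 4) (l 4)))))) (a (b (l 16456744) (l 16724952)) (a (b (l 16662584) (l 16676808)) (a (b (l 16673192) (l 16691152)) (a (b (l 16675664) (l 16699176)) (b (l 16663608) (l 16700672)))))))), by decide +kernel⟩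

theorem c_pm_123 : CertB 536870912 536870912 1073741824 536870912 587336777 62277027 3 eng mog cd3q1 cd7q2 pd3 true true false .npn 1 2 3
    ndB3q1 ndB7q2 pcB3 Cut.none Ext.none :=
  certB2 (fam := true) (s1 := true) (s2 := false) (a := 1) (b := 2) (c := 3) (cn := .npn) (n1 := ndB3q1) (n2 := ndB7q2) (pc := pcB3) (cut := Cut.none) (xt := Ext.none) (P1 := 536870912) (W1 := 536870912) (P2 := 1073741824) (W2 := 536870912) (P3 := 587336777) (W3 := 62277027) (N0 := 3) (En := eng) (mo := mog) (C1 := cd3q1) (C2 := cd7q2) (C3 := pd3)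
    rfl (fun _ => rfl) k0_pm_123

noncomputable def f_pm_133 : ℕ → ℕ → ℕ → ℕ → Bool := onCell 536870912 536870912 0 1230186008 587336777 62277027
    (rowB 3 eng mog cd3q1 cd7q3 pd3 0 true true false .dn 1 3 3 (qsf 536870912 536870912 0 1230186008 3) ndB3q1 ndB7q3 pcB3 Cut.none Ext.none)

def k0_pm_133 : ∃ t, chk3 f_pm_133 t 1 1 1 = true :=
  ⟨(b (l 2) (b (l 2) (a (b (l 2) (a (b (l 2) (a (l 16758112) (l 2))) (l 2))) (l 2)))), by decide +kernel⟩

theorem c_pm_133 : CertB 536870912 536870912 0 1230186008 587336777 62277027 3 eng mog cd3q1 cd7q3 pd3 true true false .dn 1 3 3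
    ndB3q1 ndB7q3 pcB3 Cut.none Ext.none :=
  certB0 (fam := true) (s1 := true) (s2 := false) (a := 1) (b := 3) (c := 3) (cn := .dn) (n1 := ndB3q1) (n2 := ndB7q3) (pc := pcB3) (cut := Cut.none) (xt := Ext.none) (P1 := 536870912) (W1 := 536870912) (P2 := 0) (W2 := 1230186008) (P3 := 587336777) (W3 := 62277027) (N0 := 3) (En := eng) (mo := mog) (C1 := cd3q1) (C2 := cd7q3) (C3 := pd3)
    rfl k0_pm_133

noncomputable def f_pm_202_a : ℕ → ℕ → ℕ → ℕ → Bool := onCell 0 536870912 0 536870912 587336777 62277027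
    (rowB 3 eng mog cd3q2a cd7q0 pd2 0 true true false .pp 2 0 2 (qsf 0 536870912 0 536870912 2) ndB3q2a ndB7q0 pcB2 Cut.none Ext.none)

def k0_pm_202_a : ∃ t, chk3 f_pm_202_a t 1 1 1 = true :=
  ⟨(b (a (b (a (l 4) (b (b (a (l 16364824) (l 16344488)) (l 16382392)) (l 16451656))) (l 4)) (b (a (b (a (b (l 16325544) (l 16350320)) (b (l 16305320) (l 16330376))) (a (l 16400304) (l 16383584))) (a (b (b (a (l 16291712) (l 16282392)) (l 16314112)) (b (l 16352184) (l 16399920))) (b (a (b (b (a (l 16273016) (l 16269000)) (l 16283240)) (l 16310768)) (b (a (b (b (l 16221264) (l 16269824)) (l 16282944)) (b (a (b (b (l 16260368) (l 16263592)) (l 16269984)) (b (a (l 16261544) (l 16264640)) (l 16274984))) (l 16292664))) (a (l 16319200) (l 16318776)))) (a (l 16387216) (b (l 16357136) (l 16385944)))))) (a (b (a (l 16484080) (l 16477216)) (a (l 4) (l 16583600))) (b (a (l 16485776) (b (l 16433808) (l 16469048))) (a (l 16571296) (l 16527032)))))) (a (l 4) (b (a (b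 (a (l 4) (l 16651408)) (l 4)) (b (a (l 16635952) (l 16600144)) (a (l 16692712) (l 16670640)))) (a (l 4) (a (l 4) (b (l 16725584) (l 16714440))))))), by decide +kernel⟩

theorem c_pm_202_a : CertB 0 536870912 0 536870912 587336777 62277027 3 eng mog cd3q2a cd7q0 pd2 true true false .pp 2 0 2
    ndB3q2a ndB7q0 pcB2 Cut.none Ext.none :=
  certB0 (fam := true) (s1 := true) (s2 := false) (a := 2) (b := 0) (c := 2) (cn := .pp) (n1 := ndB3q2a) (n2 := ndB7q0) (pc := pcB2) (cut := Cut.none) (xt := Ext.none) (P1 := 0) (W1 := 536870912) (P2 := 0) (W2 := 536870912) (P3 := 587336777) (W3 := 62277027) (N0 := 3) (En := eng) (mo := mog) (C1 := cd3q2a) (C2 := cd7q0) (C3 := pd2)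
    rfl k0_pm_202_a

noncomputable def f_pm_202_b : ℕ → ℕ → ℕ → ℕ → Bool := onCell 1239849684 370763052 0 536870912 587336777 62277027
    (rowB 3 eng mog cd3q2b cd7q0 pd2 0 true true false .pp 2 0 2 (qsf 1239849684 370763052 0 536870912 2) ndB3q2b ndB7q0 pcB2 Cut.none Ext.none)

def k0_pm_202_b : ∃ t, chk3 f_pm_202_b t 1 1 1 = true :=
  ⟨(l 4), by decide +kernel⟩

theorem c_pm_202_b : CertB 1239849684 370763052 0 536870912 587336777 62277027 3 eng mog cd3q2b cd7q0 pd2 true true false .pp 2 0 2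
    ndB3q2b ndB7q0 pcB2 Cut.none Ext.none :=
  certB0 (fam := true) (s1 := true) (s2 := false) (a := 2) (b := 0) (c := 2) (cn := .pp) (n1 := ndB3q2b) (n2 := ndB7q0) (pc := pcB2) (cut := Cut.none) (xt := Ext.none) (P1 := 1239849684) (W1 := 370763052) (P2 := 0) (W2 := 536870912) (P3 := 587336777) (W3 := 62277027) (N0 := 3) (En := eng) (mo := mog) (C1 := cd3q2b) (C2 := cd7q0) (C3 := pd2)
    rfl k0_pm_202_b

noncomputable def f_pm_203_a : ℕ → ℕ → ℕ → ℕ → Bool := onCell 0 536870912 1610612736 536870912 587336777 62277027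
    (rowB 3 eng mog cd3q2a cd7q0 pd3 1 true true false .up 2 0 3 (qsf 0 536870912 0 536870912 3) ndB3q2a ndB7q0 pcB3 Cut.none Ext.none)

def k0_pm_203_a : ∃ t, chk3 f_pm_203_a t 1 1 1 = true :=
  ⟨(a (l 4) (b (l 4) (l 2))), by decide +kernel⟩

theorem c_pm_203_a : CertB 0 536870912 0 536870912 587336777 62277027 3 eng mog cd3q2a cd7q0 pd3 true true false .up 2 0 3
    ndB3q2a ndB7q0 pcB3 Cut.none Ext.none :=
  certB1 (fam := true) (s1 := true) (s2 := false) (a := 2) (b := 0) (c := 3) (cn := .up) (n1 := ndB3q2a) (n2 := ndB7q0) (pc := pcB3) (cut := Cut.none) (xt := Ext.none) (P1 := 0) (W1 := 536870912) (P2 := 0) (W2 := 536870912) (P3 := 587336777) (W3 := 62277027) (N0 := 3) (En := eng) (mo := mog) (C1 := cd3q2a) (C2 := cd7q0) (C3 := pd3)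
    rfl (fun _ => rfl) k0_pm_203_a

noncomputable def f_pm_203_b : ℕ → ℕ → ℕ → ℕ → Bool := onCell 1239849684 370763052 0 536870912 587336777 62277027
    (rowB 3 eng mog cd3q2b cd7q0 pd3 0 true true false .up 2 0 3 (qsf 1239849684 370763052 0 536870912 3) ndB3q2b ndB7q0 pcB3 Cut.none Ext.none)

def k0_pm_203_b : ∃ t, chk3 f_pm_203_b t 1 1 1 = true :=
  ⟨(l 4), by decide +kernel⟩

theorem c_pm_203_b : CertB 1239849684 370763052 0 536870912 587336777 62277027 3 eng mog cd3q2b cd7q0 pd3 true true false .up 2 0 3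
    ndB3q2b ndB7q0 pcB3 Cut.none Ext.none :=
  certB0 (fam := true) (s1 := true) (s2 := false) (a := 2) (b := 0) (c := 3) (cn := .up) (n1 := ndB3q2b) (n2 := ndB7q0) (pc := pcB3) (cut := Cut.none) (xt := Ext.none) (P1 := 1239849684) (W1 := 370763052) (P2 := 0) (W2 := 536870912) (P3 := 587336777) (W3 := 62277027) (N0 := 3) (En := eng) (mo := mog) (C1 := cd3q2b) (C2 := cd7q0) (C3 := pd3)
    rfl k0_pm_203_b

noncomputable def f_pm_213_a : ℕ → ℕ → ℕ → ℕ → Bool := onCell 0 536870912 536870912 536870912 587336777 62277027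
    (rowB 3 eng mog cd3q2a cd7q1 pd3 0 true true false .pnn 2 1 3 (qsf 0 536870912 536870912 536870912 3) ndB3q2a ndB7q1 pcB3 Cut.none Ext.none)

def k0_pm_213_a : ∃ t, chk3 f_pm_213_a t 1 1 1 = true :=
  ⟨(a (l 4) (b (l 4) (l 4))), by decide +kernel⟩

theorem c_pm_213_a : CertB 0 536870912 536870912 536870912 587336777 62277027 3 eng mog cd3q2a cd7q1 pd3 true true false .pnn 2 1 3
    ndB3q2a ndB7q1 pcB3 Cut.none Ext.none :=
  certB0 (fam := true) (s1 := true) (s2 := false) (a := 2) (b := 1) (c := 3) (cn := .pnn) (n1 := ndB3q2a) (n2 := ndB7q1) (pc := pcB3) (cut := Cut.none) (xt := Ext.none) (P1 := 0) (W1 := 536870912) (P2 := 536870912) (W2 := 536870912) (P3 := 587336777) (W3 := 62277027) (N0 := 3) (En := eng) (mo := mog) (C1 := cd3q2a) (C2 := cd7q1) (C3 := pd3)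
    rfl k0_pm_213_a

noncomputable def f_pm_213_b : ℕ → ℕ → ℕ → ℕ → Bool := onCell 1239849684 370763052 536870912 536870912 587336777 62277027
    (rowB 3 eng mog cd3q2b cd7q1 pd3 0 true true false .pnn 2 1 3 (qsf 1239849684 370763052 536870912 536870912 3) ndB3q2b ndB7q1 pcB3 Cut.none Ext.none)

def k0_pm_213_b : ∃ t, chk3 f_pm_213_b t 1 1 1 = true :=
  ⟨(l 4), by decide +kernel⟩

theorem c_pm_213_b : CertB 1239849684 370763052 536870912 536870912 587336777 62277027 3 eng mog cd3q2b cd7q1 pd3 true true false .pnn 2 1 3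
    ndB3q2b ndB7q1 pcB3 Cut.none Ext.none :=
  certB0 (fam := true) (s1 := true) (s2 := false) (a := 2) (b := 1) (c := 3) (cn := .pnn) (n1 := ndB3q2b) (n2 := ndB7q1) (pc := pcB3) (cut := Cut.none) (xt := Ext.none) (P1 := 1239849684) (W1 := 370763052) (P2 := 536870912) (W2 := 536870912) (P3 := 587336777) (W3 := 62277027) (N0 := 3) (En := eng) (mo := mog) (C1 := cd3q2b) (C2 := cd7q1) (C3 := pd3)
    rfl k0_pm_213_b

noncomputable def f_pm_303 : ℕ → ℕ → ℕ → ℕ → Bool := onCell 1610612736 536870912 0 536870912 587336777 62277027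
    (rowB 3 eng mog cd3q3 cd7q0 pd3 0 true true false .npn 3 0 3 (qsf 1610612736 536870912 0 536870912 3) ndB3q3 ndB7q0 pcB3 Cut.none Ext.none)

def k0_pm_303 : ∃ t, chk3 f_pm_303 t 1 1 1 = true :=
  ⟨(l 4), by decide +kernel⟩

theorem c_pm_303 : CertB 1610612736 536870912 0 536870912 587336777 62277027 3 eng mog cd3q3 cd7q0 pd3 true true false .npn 3 0 3
    ndB3q3 ndB7q0 pcB3 Cut.none Ext.none :=
  certB0 (fam := true) (s1 := true) (s2 := false) (a := 3) (b := 0) (c := 3) (cn := .npn) (n1 := ndB3q3) (n2 := ndB7q0) (pc := pcB3) (cut := Cut.none) (xt := Ext.none) (P1 := 1610612736) (W1 := 536870912) (P2 := 0) (W2 := 536870912) (P3 := 587336777) (W3 := 62277027) (N0 := 3) (En := eng) (mo := mog) (C1 := cd3q3) (C2 := cd7q0) (C3 := pd3)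
    rfl k0_pm_303

noncomputable def f_pm_313 : ℕ → ℕ → ℕ → ℕ → Bool := onCell 1610612736 536870912 536870912 536870912 587336777 62277027
    (rowB 3 eng mog cd3q3 cd7q1 pd3 0 true true false .dn 3 1 3 (qsf 1610612736 536870912 536870912 536870912 3) ndB3q3 ndB7q1 pcB3 Cut.none Ext.none)

def k0_pm_313 : ∃ t, chk3 f_pm_313 t 1 1 1 = true :=
  ⟨(l 4), by decide +kernel⟩

theorem c_pm_313 : CertB 1610612736 536870912 536870912 536870912 587336777 62277027 3 eng mog cd3q3 cd7q1 pd3 true true false .dn 3 1 3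
    ndB3q3 ndB7q1 pcB3 Cut.none Ext.none :=
  certB0 (fam := true) (s1 := true) (s2 := false) (a := 3) (b := 1) (c := 3) (cn := .dn) (n1 := ndB3q3) (n2 := ndB7q1) (pc := pcB3) (cut := Cut.none) (xt := Ext.none) (P1 := 1610612736) (W1 := 536870912) (P2 := 536870912) (W2 := 536870912) (P3 := 587336777) (W3 := 62277027) (N0 := 3) (En := eng) (mo := mog) (C1 := cd3q3) (C2 := cd7q1) (C3 := pd3)
    rfl k0_pm_313

noncomputable def f_mm_001 : ℕ → ℕ → ℕ → ℕ → Bool := onCell 0 536870912 0 536870912 587336777 62277027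
    (rowB 3 eng mog cd3q0 cd7q0 pd1 0 true false false .up 0 0 1 (qsf 0 536870912 0 536870912 1) ndB3q0 ndB7q0 pcB1 Cut.none Ext.none)

def k0_mm_001 : ∃ t, chk3 f_mm_001 t 1 1 1 = true :=
  ⟨(l 4), by decide +kernel⟩

theorem c_mm_001 : CertB 0 536870912 0 536870912 587336777 62277027 3 eng mog cd3q0 cd7q0 pd1 true false false .up 0 0 1
    ndB3q0 ndB7q0 pcB1 Cut.none Ext.none :=
  certB0 (fam := true) (s1 := false) (s2 := false) (a := 0) (b := 0) (c := 1) (cn := .up) (n1 := ndB3q0) (n2 := ndB7q0) (pc := pcB1) (cut := Cut.none) (xt := Ext.none) (P1 := 0) (W1 := 536870912) (P2 := 0) (W2 := 536870912) (P3 := 587336777) (W3 := 62277027) (N0 := 3) (En := eng) (mo := mog) (C1 := cd3q0) (C2 := cd7q0) (C3 := pd1)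
    rfl k0_mm_001

noncomputable def f_mm_011 : ℕ → ℕ → ℕ → ℕ → Bool := onCell 0 536870912 536870912 536870912 587336777 62277027
    (rowB 3 eng mog cd3q0 cd7q1 pd1 0 true false false .pnn 0 1 1 (qsf 0 536870912 536870912 536870912 1) ndB3q0 ndB7q1 pcB1 Cut.none Ext.none)

def k0_mm_011 : ∃ t, chk3 f_mm_011 t 1 1 1 = true :=
  ⟨(l 4), by decide +kernel⟩

theorem c_mm_011 : CertB 0 536870912 536870912 536870912 587336777 62277027 3 eng mog cd3q0 cd7q1 pd1 true false false .pnn 0 1 1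
    ndB3q0 ndB7q1 pcB1 Cut.none Ext.none :=
  certB0 (fam := true) (s1 := false) (s2 := false) (a := 0) (b := 1) (c := 1) (cn := .pnn) (n1 := ndB3q0) (n2 := ndB7q1) (pc := pcB1) (cut := Cut.none) (xt := Ext.none) (P1 := 0) (W1 := 536870912) (P2 := 536870912) (W2 := 536870912) (P3 := 587336777) (W3 := 62277027) (N0 := 3) (En := eng) (mo := mog) (C1 := cd3q0) (C2 := cd7q1) (C3 := pd1)
    rfl k0_mm_011

noncomputable def f_mm_012 : ℕ → ℕ → ℕ → ℕ → Bool := onCell 0 536870912 536870912 536870912 587336777 62277027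
    (rowB 3 eng mog cd3q0 cd7q1 pd2 0 true false false .pnp 0 1 2 (qsf 0 536870912 536870912 536870912 2) ndB3q0 ndB7q1 pcB2 Cut.none Ext.none)

def k0_mm_012 : ∃ t, chk3 f_mm_012 t 1 1 1 = true :=
  ⟨(l 4), by decide +kernel⟩

theorem c_mm_012 : CertB 0 536870912 536870912 536870912 587336777 62277027 3 eng mog cd3q0 cd7q1 pd2 true false false .pnp 0 1 2
    ndB3q0 ndB7q1 pcB2 Cut.none Ext.none :=
  certB0 (fam := true) (s1 := false) (s2 := false) (a := 0) (b := 1) (c := 2) (cn := .pnp) (n1 := ndB3q0) (n2 := ndB7q1) (pc := pcB2) (cut := Cut.none) (xt := Ext.none) (P1 := 0) (W1 := 536870912) (P2 := 536870912) (W2 := 536870912) (P3 := 587336777) (W3 := 62277027) (N0 := 3) (En := eng) (mo := mog) (C1 := cd3q0) (C2 := cd7q1) (C3 := pd2)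
    rfl k0_mm_012

noncomputable def f_mm_022 : ℕ → ℕ → ℕ → ℕ → Bool := onCell 0 536870912 1073741824 536870912 587336777 62277027
    (rowB 3 eng mog cd3q0 cd7q2 pd2 0 true false false .pp 0 2 2 (qsf 0 536870912 1073741824 536870912 2) ndB3q0 ndB7q2 pcB2 Cut.none Ext.none)

def k0_mm_022 : ∃ t, chk3 f_mm_022 t 1 1 1 = true :=
  ⟨(l 4), by decide +kernel⟩

theorem c_mm_022 : CertB 0 536870912 1073741824 536870912 587336777 62277027 3 eng mog cd3q0 cd7q2 pd2 true false false .pp 0 2 2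
    ndB3q0 ndB7q2 pcB2 Cut.none Ext.none :=
  certB0 (fam := true) (s1 := false) (s2 := false) (a := 0) (b := 2) (c := 2) (cn := .pp) (n1 := ndB3q0) (n2 := ndB7q2) (pc := pcB2) (cut := Cut.none) (xt := Ext.none) (P1 := 0) (W1 := 536870912) (P2 := 1073741824) (W2 := 536870912) (P3 := 587336777) (W3 := 62277027) (N0 := 3) (En := eng) (mo := mog) (C1 := cd3q0) (C2 := cd7q2) (C3 := pd2)
    rfl k0_mm_022

noncomputable def f_mm_023 : ℕ → ℕ → ℕ → ℕ → Bool := onCell 0 536870912 1073741824 536870912 587336777 62277027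
    (rowB 3 eng mog cd3q0 cd7q2 pd3 0 true false false .up 0 2 3 (qsf 0 536870912 1073741824 536870912 3) ndB3q0 ndB7q2 pcB3 Cut.none Ext.none)

def k0_mm_023 : ∃ t, chk3 f_mm_023 t 1 1 1 = true :=
  ⟨(l 4), by decide +kernel⟩

theorem c_mm_023 : CertB 0 536870912 1073741824 536870912 587336777 62277027 3 eng mog cd3q0 cd7q2 pd3 true false false .up 0 2 3
    ndB3q0 ndB7q2 pcB3 Cut.none Ext.none :=
  certB0 (fam := true) (s1 := false) (s2 := false) (a := 0) (b := 2) (c := 3) (cn := .up) (n1 := ndB3q0) (n2 := ndB7q2) (pc := pcB3) (cut := Cut.none) (xt := Ext.none) (P1 := 0) (W1 := 536870912) (P2 := 1073741824) (W2 := 536870912) (P3 := 587336777) (W3 := 62277027) (N0 := 3) (En := eng) (mo := mog) (C1 := cd3q0) (C2 := cd7q2) (C3 := pd3)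
    rfl k0_mm_023

noncomputable def f_mm_033 : ℕ → ℕ → ℕ → ℕ → Bool := onCell 0 536870912 0 1230186008 587336777 62277027
    (rowB 3 eng mog cd3q0 cd7q3 pd3 0 true false false .pnn 0 3 3 (qsf 0 536870912 0 1230186008 3) ndB3q0 ndB7q3 pcB3 Cut.none Ext.none)

def k0_mm_033 : ∃ t, chk3 f_mm_033 t 1 1 1 = true :=
  ⟨(l 4), by decide +kernel⟩

theorem c_mm_033 : CertB 0 536870912 0 1230186008 587336777 62277027 3 eng mog cd3q0 cd7q3 pd3 true false false .pnn 0 3 3
    ndB3q0 ndB7q3 pcB3 Cut.none Ext.none :=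
  certB0 (fam := true) (s1 := false) (s2 := false) (a := 0) (b := 3) (c := 3) (cn := .pnn) (n1 := ndB3q0) (n2 := ndB7q3) (pc := pcB3) (cut := Cut.none) (xt := Ext.none) (P1 := 0) (W1 := 536870912) (P2 := 0) (W2 := 1230186008) (P3 := 587336777) (W3 := 62277027) (N0 := 3) (En := eng) (mo := mog) (C1 := cd3q0) (C2 := cd7q3) (C3 := pd3)
    rfl k0_mm_033

noncomputable def f_mm_101 : ℕ → ℕ → ℕ → ℕ → Bool := onCell 536870912 536870912 0 536870912 587336777 62277027
    (rowB 3 eng mog cd3q1 cd7q0 pd1 0 true false false .npn 1 0 1 (qsf 536870912 536870912 0 536870912 1) ndB3q1 ndB7q0 pcB1 Cut.none Ext.none)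

def k0_mm_101 : ∃ t, chk3 f_mm_101 t 1 1 1 = true :=
  ⟨(l 4), by decide +kernel⟩

theorem c_mm_101 : CertB 536870912 536870912 0 536870912 587336777 62277027 3 eng mog cd3q1 cd7q0 pd1 true false false .npn 1 0 1
    ndB3q1 ndB7q0 pcB1 Cut.none Ext.none :=
  certB0 (fam := true) (s1 := false) (s2 := false) (a := 1) (b := 0) (c := 1) (cn := .npn) (n1 := ndB3q1) (n2 := ndB7q0) (pc := pcB1) (cut := Cut.none) (xt := Ext.none) (P1 := 536870912) (W1 := 536870912) (P2 := 0) (W2 := 536870912) (P3 := 587336777) (W3 := 62277027) (N0 := 3) (En := eng) (mo := mog) (C1 := cd3q1) (C2 := cd7q0) (C3 := pd1)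
    rfl k0_mm_101

noncomputable def f_mm_102 : ℕ → ℕ → ℕ → ℕ → Bool := onCell 536870912 536870912 0 536870912 587336777 62277027
    (rowB 3 eng mog cd3q1 cd7q0 pd2 0 true false false .npp 1 0 2 (qsf 536870912 536870912 0 536870912 2) ndB3q1 ndB7q0 pcB2 Cut.none Ext.none)

def k0_mm_102 : ∃ t, chk3 f_mm_102 t 1 1 1 = true :=
  ⟨(l 4), by decide +kernel⟩

theorem c_mm_102 : CertB 536870912 536870912 0 536870912 587336777 62277027 3 eng mog cd3q1 cd7q0 pd2 true false false .npp 1 0 2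
    ndB3q1 ndB7q0 pcB2 Cut.none Ext.none :=
  certB0 (fam := true) (s1 := false) (s2 := false) (a := 1) (b := 0) (c := 2) (cn := .npp) (n1 := ndB3q1) (n2 := ndB7q0) (pc := pcB2) (cut := Cut.none) (xt := Ext.none) (P1 := 536870912) (W1 := 536870912) (P2 := 0) (W2 := 536870912) (P3 := 587336777) (W3 := 62277027) (N0 := 3) (En := eng) (mo := mog) (C1 := cd3q1) (C2 := cd7q0) (C3 := pd2)
    rfl k0_mm_102

noncomputable def f_mm_112 : ℕ → ℕ → ℕ → ℕ → Bool := onCell 536870912 536870912 536870912 536870912 587336777 62277027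
    (rowB 3 eng mog cd3q1 cd7q1 pd2 0 true false false .dn 1 1 2 (qsf 536870912 536870912 536870912 536870912 2) ndB3q1 ndB7q1 pcB2 Cut.none Ext.none)

def k0_mm_112 : ∃ t, chk3 f_mm_112 t 1 1 1 = true :=
  ⟨(l 4), by decide +kernel⟩

theorem c_mm_112 : CertB 536870912 536870912 536870912 536870912 587336777 62277027 3 eng mog cd3q1 cd7q1 pd2 true false false .dn 1 1 2
    ndB3q1 ndB7q1 pcB2 Cut.none Ext.none :=
  certB0 (fam := true) (s1 := false) (s2 := false) (a := 1) (b := 1) (c := 2) (cn := .dn) (n1 := ndB3q1) (n2 := ndB7q1) (pc := pcB2) (cut := Cut.none) (xt := Ext.none) (P1 := 536870912) (W1 := 536870912) (P2 := 536870912) (W2 := 536870912) (P3 := 587336777) (W3 := 62277027) (N0 := 3) (En := eng) (mo := mog) (C1 := cd3q1) (C2 := cd7q1) (C3 := pd2)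
    rfl k0_mm_112

noncomputable def f_mm_113 : ℕ → ℕ → ℕ → ℕ → Bool := onCell 536870912 536870912 536870912 536870912 587336777 62277027
    (rowB 3 eng mog cd3q1 cd7q1 pd3 0 true false false .nn 1 1 3 (qsf 536870912 536870912 536870912 536870912 3) ndB3q1 ndB7q1 pcB3 Cut.none Ext.none)

def k0_mm_113 : ∃ t, chk3 f_mm_113 t 1 1 1 = true :=
  ⟨(l 4), by decide +kernel⟩

theorem c_mm_113 : CertB 536870912 536870912 536870912 536870912 587336777 62277027 3 eng mog cd3q1 cd7q1 pd3 true false false .nn 1 1 3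
    ndB3q1 ndB7q1 pcB3 Cut.none Ext.none :=
  certB0 (fam := true) (s1 := false) (s2 := false) (a := 1) (b := 1) (c := 3) (cn := .nn) (n1 := ndB3q1) (n2 := ndB7q1) (pc := pcB3) (cut := Cut.none) (xt := Ext.none) (P1 := 536870912) (W1 := 536870912) (P2 := 536870912) (W2 := 536870912) (P3 := 587336777) (W3 := 62277027) (N0 := 3) (En := eng) (mo := mog) (C1 := cd3q1) (C2 := cd7q1) (C3 := pd3)
    rfl k0_mm_113

noncomputable def f_mm_123 : ℕ → ℕ → ℕ → ℕ → Bool := onCell 536870912 536870912 1073741824 536870912 587336777 62277027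
    (rowB 3 eng mog cd3q1 cd7q2 pd3 0 true false false .npn 1 2 3 (qsf 536870912 536870912 1073741824 536870912 3) ndB3q1 ndB7q2 pcB3 Cut.none Ext.none)

def k0_mm_123 : ∃ t, chk3 f_mm_123 t 1 1 1 = true :=
  ⟨(l 4), by decide +kernel⟩

theorem c_mm_123 : CertB 536870912 536870912 1073741824 536870912 587336777 62277027 3 eng mog cd3q1 cd7q2 pd3 true false false .npn 1 2 3
    ndB3q1 ndB7q2 pcB3 Cut.none Ext.none :=
  certB0 (fam := true) (s1 := false) (s2 := false) (a := 1) (b := 2) (c := 3) (cn := .npn) (n1 := ndB3q1) (n2 := ndB7q2) (pc := pcB3) (cut := Cut.none) (xt := Ext.none) (P1 := 536870912) (W1 := 536870912) (P2 := 1073741824) (W2 := 536870912) (P3 := 587336777) (W3 := 62277027) (N0 := 3) (En := eng) (mo := mog) (C1 := cd3q1) (C2 := cd7q2) (C3 := pd3)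
    rfl k0_mm_123

noncomputable def f_mm_133 : ℕ → ℕ → ℕ → ℕ → Bool := onCell 536870912 536870912 0 1230186008 587336777 62277027
    (rowB 3 eng mog cd3q1 cd7q3 pd3 0 true false false .dn 1 3 3 (qsf 536870912 536870912 0 1230186008 3) ndB3q1 ndB7q3 pcB3 Cut.none Ext.none)

def k0_mm_133 : ∃ t, chk3 f_mm_133 t 1 1 1 = true :=
  ⟨(l 4), by decide +kernel⟩

theorem c_mm_133 : CertB 536870912 536870912 0 1230186008 587336777 62277027 3 eng mog cd3q1 cd7q3 pd3 true false false .dn 1 3 3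
    ndB3q1 ndB7q3 pcB3 Cut.none Ext.none :=
  certB0 (fam := true) (s1 := false) (s2 := false) (a := 1) (b := 3) (c := 3) (cn := .dn) (n1 := ndB3q1) (n2 := ndB7q3) (pc := pcB3) (cut := Cut.none) (xt := Ext.none) (P1 := 536870912) (W1 := 536870912) (P2 := 0) (W2 := 1230186008) (P3 := 587336777) (W3 := 62277027) (N0 := 3) (En := eng) (mo := mog) (C1 := cd3q1) (C2 := cd7q3) (C3 := pd3)
    rfl k0_mm_133

noncomputable def f_mm_202_a : ℕ → ℕ → ℕ → ℕ → Bool := onCell 0 536870912 0 536870912 587336777 62277027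
    (rowB 3 eng mog cd3q2a cd7q0 pd2 0 true false false .pp 2 0 2 (qsf 0 536870912 0 536870912 2) ndB3q2a ndB7q0 pcB2 Cut.none Ext.none)

def k0_mm_202_a : ∃ t, chk3 f_mm_202_a t 1 1 1 = true :=
  ⟨(l 4), by decide +kernel⟩

theorem c_mm_202_a : CertB 0 536870912 0 536870912 587336777 62277027 3 eng mog cd3q2a cd7q0 pd2 true false false .pp 2 0 2
    ndB3q2a ndB7q0 pcB2 Cut.none Ext.none :=
  certB0 (fam := true) (s1 := false) (s2 := false) (a := 2) (b := 0) (c := 2) (cn := .pp) (n1 := ndB3q2a) (n2 := ndB7q0) (pc := pcB2) (cut := Cut.none) (xt := Ext.none) (P1 := 0) (W1 := 536870912) (P2 := 0) (W2 := 536870912) (P3 := 587336777) (W3 := 62277027) (N0 := 3) (En := eng) (mo := mog) (C1 := cd3q2a) (C2 := cd7q0) (C3 := pd2)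
    rfl k0_mm_202_a

noncomputable def f_mm_202_b : ℕ → ℕ → ℕ → ℕ → Bool := onCell 1239849684 370763052 0 536870912 587336777 62277027
    (rowB 3 eng mog cd3q2b cd7q0 pd2 0 true false false .pp 2 0 2 (qsf 1239849684 370763052 0 536870912 2) ndB3q2b ndB7q0 pcB2 Cut.none Ext.none)

def k0_mm_202_b : ∃ t, chk3 f_mm_202_b t 1 1 1 = true :=
  ⟨(l 4), by decide +kernel⟩

theorem c_mm_202_b : CertB 1239849684 370763052 0 536870912 587336777 62277027 3 eng mog cd3q2b cd7q0 pd2 true false false .pp 2 0 2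
    ndB3q2b ndB7q0 pcB2 Cut.none Ext.none :=
  certB0 (fam := true) (s1 := false) (s2 := false) (a := 2) (b := 0) (c := 2) (cn := .pp) (n1 := ndB3q2b) (n2 := ndB7q0) (pc := pcB2) (cut := Cut.none) (xt := Ext.none) (P1 := 1239849684) (W1 := 370763052) (P2 := 0) (W2 := 536870912) (P3 := 587336777) (W3 := 62277027) (N0 := 3) (En := eng) (mo := mog) (C1 := cd3q2b) (C2 := cd7q0) (C3 := pd2)
    rfl k0_mm_202_b

noncomputable def f_mm_203_a : ℕ → ℕ → ℕ → ℕ → Bool := onCell 0 536870912 0 536870912 587336777 62277027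
    (rowB 3 eng mog cd3q2a cd7q0 pd3 0 true false false .up 2 0 3 (qsf 0 536870912 0 536870912 3) ndB3q2a ndB7q0 pcB3 Cut.none Ext.none)

def k0_mm_203_a : ∃ t, chk3 f_mm_203_a t 1 1 1 = true :=
  ⟨(l 4), by decide +kernel⟩

theorem c_mm_203_a : CertB 0 536870912 0 536870912 587336777 62277027 3 eng mog cd3q2a cd7q0 pd3 true false false .up 2 0 3
    ndB3q2a ndB7q0 pcB3 Cut.none Ext.none :=
  certB0 (fam := true) (s1 := false) (s2 := false) (a := 2) (b := 0) (c := 3) (cn := .up) (n1 := ndB3q2a) (n2 := ndB7q0) (pc := pcB3) (cut := Cut.none) (xt := Ext.none) (P1 := 0) (W1 := 536870912) (P2 := 0) (W2 := 536870912) (P3 := 587336777) (W3 := 62277027) (N0 := 3) (En := eng) (mo := mog) (C1 := cd3q2a) (C2 := cd7q0) (C3 := pd3)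
    rfl k0_mm_203_a

noncomputable def f_mm_203_b : ℕ → ℕ → ℕ → ℕ → Bool := onCell 1239849684 370763052 0 536870912 587336777 62277027
    (rowB 3 eng mog cd3q2b cd7q0 pd3 0 true false false .up 2 0 3 (qsf 1239849684 370763052 0 536870912 3) ndB3q2b ndB7q0 pcB3 Cut.none Ext.none)

def k0_mm_203_b : ∃ t, chk3 f_mm_203_b t 1 1 1 = true :=
  ⟨(l 4), by decide +kernel⟩

theorem c_mm_203_b : CertB 1239849684 370763052 0 536870912 587336777 62277027 3 eng mog cd3q2b cd7q0 pd3 true false false .up 2 0 3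
    ndB3q2b ndB7q0 pcB3 Cut.none Ext.none :=
  certB0 (fam := true) (s1 := false) (s2 := false) (a := 2) (b := 0) (c := 3) (cn := .up) (n1 := ndB3q2b) (n2 := ndB7q0) (pc := pcB3) (cut := Cut.none) (xt := Ext.none) (P1 := 1239849684) (W1 := 370763052) (P2 := 0) (W2 := 536870912) (P3 := 587336777) (W3 := 62277027) (N0 := 3) (En := eng) (mo := mog) (C1 := cd3q2b) (C2 := cd7q0) (C3 := pd3)
    rfl k0_mm_203_b

noncomputable def f_mm_213_a : ℕ → ℕ → ℕ → ℕ → Bool := onCell 0 536870912 536870912 536870912 587336777 62277027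
    (rowB 3 eng mog cd3q2a cd7q1 pd3 0 true false false .pnn 2 1 3 (qsf 0 536870912 536870912 536870912 3) ndB3q2a ndB7q1 pcB3 Cut.none Ext.none)

def k0_mm_213_a : ∃ t, chk3 f_mm_213_a t 1 1 1 = true :=
  ⟨(l 4), by decide +kernel⟩

theorem c_mm_213_a : CertB 0 536870912 536870912 536870912 587336777 62277027 3 eng mog cd3q2a cd7q1 pd3 true false false .pnn 2 1 3
    ndB3q2a ndB7q1 pcB3 Cut.none Ext.none :=
  certB0 (fam := true) (s1 := false) (s2 := false) (a := 2) (b := 1) (c := 3) (cn := .pnn) (n1 := ndB3q2a) (n2 := ndB7q1) (pc := pcB3) (cut := Cut.none) (xt := Ext.none) (P1 := 0) (W1 := 536870912) (P2 := 536870912) (W2 := 536870912) (P3 := 587336777) (W3 := 62277027) (N0 := 3) (En := eng) (mo := mog) (C1 := cd3q2a) (C2 := cd7q1) (C3 := pd3)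
    rfl k0_mm_213_a

noncomputable def f_mm_213_b : ℕ → ℕ → ℕ → ℕ → Bool := onCell 1239849684 370763052 536870912 536870912 587336777 62277027
    (rowB 3 eng mog cd3q2b cd7q1 pd3 0 true false false .pnn 2 1 3 (qsf 1239849684 370763052 536870912 536870912 3) ndB3q2b ndB7q1 pcB3 Cut.none Ext.none)

def k0_mm_213_b : ∃ t, chk3 f_mm_213_b t 1 1 1 = true :=
  ⟨(l 4), by decide +kernel⟩

theorem c_mm_213_b : CertB 1239849684 370763052 536870912 536870912 587336777 62277027 3 eng mog cd3q2b cd7q1 pd3 true false false .pnn 2 1 3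
    ndB3q2b ndB7q1 pcB3 Cut.none Ext.none :=
  certB0 (fam := true) (s1 := false) (s2 := false) (a := 2) (b := 1) (c := 3) (cn := .pnn) (n1 := ndB3q2b) (n2 := ndB7q1) (pc := pcB3) (cut := Cut.none) (xt := Ext.none) (P1 := 1239849684) (W1 := 370763052) (P2 := 536870912) (W2 := 536870912) (P3 := 587336777) (W3 := 62277027) (N0 := 3) (En := eng) (mo := mog) (C1 := cd3q2b) (C2 := cd7q1) (C3 := pd3)
    rfl k0_mm_213_b

noncomputable def f_mm_303 : ℕ → ℕ → ℕ → ℕ → Bool := onCell 1610612736 536870912 0 536870912 587336777 62277027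
    (rowB 3 eng mog cd3q3 cd7q0 pd3 0 true false false .npn 3 0 3 (qsf 1610612736 536870912 0 536870912 3) ndB3q3 ndB7q0 pcB3 Cut.none Ext.none)

def k0_mm_303 : ∃ t, chk3 f_mm_303 t 1 1 1 = true :=
  ⟨(l 4), by decide +kernel⟩

theorem c_mm_303 : CertB 1610612736 536870912 0 536870912 587336777 62277027 3 eng mog cd3q3 cd7q0 pd3 true false false .npn 3 0 3
    ndB3q3 ndB7q0 pcB3 Cut.none Ext.none :=
  certB0 (fam := true) (s1 := false) (s2 := false) (a := 3) (b := 0) (c := 3) (cn := .npn) (n1 := ndB3q3) (n2 := ndB7q0) (pc := pcB3) (cut := Cut.none) (xt := Ext.none) (P1 := 1610612736) (W1 := 536870912) (P2 := 0) (W2 := 536870912) (P3 := 587336777) (W3 := 62277027) (N0 := 3) (En := eng) (mo := mog) (C1 := cd3q3) (C2 := cd7q0) (C3 := pd3)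
    rfl k0_mm_303

noncomputable def f_mm_313 : ℕ → ℕ → ℕ → ℕ → Bool := onCell 1610612736 536870912 536870912 536870912 587336777 62277027
    (rowB 3 eng mog cd3q3 cd7q1 pd3 0 true false false .dn 3 1 3 (qsf 1610612736 536870912 536870912 536870912 3) ndB3q3 ndB7q1 pcB3 Cut.none Ext.none)

def k0_mm_313 : ∃ t, chk3 f_mm_313 t 1 1 1 = true :=
  ⟨(l 4), by decide +kernel⟩

theorem c_mm_313 : CertB 1610612736 536870912 536870912 536870912 587336777 62277027 3 eng mog cd3q3 cd7q1 pd3 true false false .dn 3 1 3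
    ndB3q3 ndB7q1 pcB3 Cut.none Ext.none :=
  certB0 (fam := true) (s1 := false) (s2 := false) (a := 3) (b := 1) (c := 3) (cn := .dn) (n1 := ndB3q3) (n2 := ndB7q1) (pc := pcB3) (cut := Cut.none) (xt := Ext.none) (P1 := 1610612736) (W1 := 536870912) (P2 := 536870912) (W2 := 536870912) (P3 := 587336777) (W3 := 62277027) (N0 := 3) (En := eng) (mo := mog) (C1 := cd3q3) (C2 := cd7q1) (C3 := pd3)
    rfl k0_mm_313

end Pool.Agent.Strip051.G.I5470_6050.Tab.C.BA37

namespace Pool.Agent.Strip051.G.I5470_6050.Tab.C.BA44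

open Pool.Agent.Strip051.PB Pool.Agent.Strip051.PB.T
open Pool.Agent.Strip051.G.I5470_6050.Tab

noncomputable def f_pp_001 : ℕ → ℕ → ℕ → ℕ → Bool := onCell 0 536870912 0 536870912 587336777 62277027
    (rowB 3 eng mog cd4q0 cd4q0 pd1 0 true true true .up 0 0 1 (qsf 0 536870912 0 536870912 1) ndB4q0 ndB4q0 pcB1 Cut.none Ext.none)

def k0_pp_001 : ∃ t, chk3 f_pp_001 t 1 1 1 = true :=
  ⟨(l 4), by decide +kernel⟩

theorem c_pp_001 : CertB 0 536870912 0 536870912 587336777 62277027 3 eng mog cd4q0 cd4q0 pd1 true true true .up 0 0 1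
    ndB4q0 ndB4q0 pcB1 Cut.none Ext.none :=
  certB0 (fam := true) (s1 := true) (s2 := true) (a := 0) (b := 0) (c := 1) (cn := .up) (n1 := ndB4q0) (n2 := ndB4q0) (pc := pcB1) (cut := Cut.none) (xt := Ext.none) (P1 := 0) (W1 := 536870912) (P2 := 0) (W2 := 536870912) (P3 := 587336777) (W3 := 62277027) (N0 := 3) (En := eng) (mo := mog) (C1 := cd4q0) (C2 := cd4q0) (C3 := pd1)
    rfl k0_pp_001

noncomputable def f_pp_011 : ℕ → ℕ → ℕ → ℕ → Bool := onCell 0 536870912 536870912 536870912 587336777 62277027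
    (rowB 3 eng mog cd4q0 cd4q1 pd1 0 true true true .pnn 0 1 1 (qsf 0 536870912 536870912 536870912 1) ndB4q0 ndB4q1 pcB1 Cut.none Ext.none)

def k0_pp_011 : ∃ t, chk3 f_pp_011 t 1 1 1 = true :=
  ⟨(l 4), by decide +kernel⟩

theorem c_pp_011 : CertB 0 536870912 536870912 536870912 587336777 62277027 3 eng mog cd4q0 cd4q1 pd1 true true true .pnn 0 1 1
    ndB4q0 ndB4q1 pcB1 Cut.none Ext.none :=
  certB0 (fam := true) (s1 := true) (s2 := true) (a := 0) (b := 1) (c := 1) (cn := .pnn) (n1 := ndB4q0) (n2 := ndB4q1) (pc := pcB1) (cut := Cut.none) (xt := Ext.none) (P1 := 0) (W1 := 536870912) (P2 := 536870912) (W2 := 536870912) (P3 := 587336777) (W3 := 62277027) (N0 := 3) (En := eng) (mo := mog) (C1 := cd4q0) (C2 := cd4q1) (C3 := pd1)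
    rfl k0_pp_011

noncomputable def f_pp_012 : ℕ → ℕ → ℕ → ℕ → Bool := onCell 0 536870912 536870912 536870912 587336777 62277027
    (rowB 3 eng mog cd4q0 cd4q1 pd2 0 true true true .pnp 0 1 2 (qsf 0 536870912 536870912 536870912 2) ndB4q0 ndB4q1 pcB2 Cut.none Ext.none)

def k0_pp_012 : ∃ t, chk3 f_pp_012 t 1 1 1 = true :=
  ⟨(l 4), by decide +kernel⟩

theorem c_pp_012 : CertB 0 536870912 536870912 536870912 587336777 62277027 3 eng mog cd4q0 cd4q1 pd2 true true true .pnp 0 1 2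
    ndB4q0 ndB4q1 pcB2 Cut.none Ext.none :=
  certB0 (fam := true) (s1 := true) (s2 := true) (a := 0) (b := 1) (c := 2) (cn := .pnp) (n1 := ndB4q0) (n2 := ndB4q1) (pc := pcB2) (cut := Cut.none) (xt := Ext.none) (P1 := 0) (W1 := 536870912) (P2 := 536870912) (W2 := 536870912) (P3 := 587336777) (W3 := 62277027) (N0 := 3) (En := eng) (mo := mog) (C1 := cd4q0) (C2 := cd4q1) (C3 := pd2)
    rfl k0_pp_012

noncomputable def cut_pp_022_a : Cut := Cut.of [[⟨0, 0, 0, 67108864⟩, ⟨1, 1, 0, 67108864⟩, ⟨2, 1, 0, 67108864⟩]]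

noncomputable def f_pp_022_a : ℕ → ℕ → ℕ → ℕ → Bool := onCell 0 536870912 0 536870912 587336777 62277027
    (rowB 3 eng mog cd4q0 cd4q2a pd2 0 true true true .pp 0 2 2 (qsf 0 536870912 0 536870912 2) ndB4q0 ndB4q2a pcB2 cut_pp_022_a Ext.none)

def k0_pp_022_a : ∃ t, chk3 f_pp_022_a t 1 1 1 = true :=
  ⟨(a (a (a (a (a (b (b (b (a (l 16458104) (l 16465864)) (l 16492592)) (b (l 16490952) (l 4))) (b (l 4) (b (l 4) (l 6)))) (b (l 4) (l 4))) (l 4)) (l 4)) (l 4)) (l 4)), by decide +kernel⟩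

theorem c_pp_022_a : CertB 0 536870912 0 536870912 587336777 62277027 3 eng mog cd4q0 cd4q2a pd2 true true true .pp 0 2 2
    ndB4q0 ndB4q2a pcB2 cut_pp_022_a Ext.none :=
  certB0 (fam := true) (s1 := true) (s2 := true) (a := 0) (b := 2) (c := 2) (cn := .pp) (n1 := ndB4q0) (n2 := ndB4q2a) (pc := pcB2) (cut := cut_pp_022_a) (xt := Ext.none) (P1 := 0) (W1 := 536870912) (P2 := 0) (W2 := 536870912) (P3 := 587336777) (W3 := 62277027) (N0 := 3) (En := eng) (mo := mog) (C1 := cd4q0) (C2 := cd4q2a) (C3 := pd2)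
    rfl k0_pp_022_a

noncomputable def cut_pp_022_b : Cut := Cut.of [[⟨0, 0, 0, 67108864⟩, ⟨1, 1, 0, 67108864⟩, ⟨2, 1, 0, 67108864⟩]]

noncomputable def f_pp_022_b : ℕ → ℕ → ℕ → ℕ → Bool := onCell 0 536870912 1239849684 370763052 587336777 62277027
    (rowB 3 eng mog cd4q0 cd4q2b pd2 0 true true true .pp 0 2 2 (qsf 0 536870912 1239849684 370763052 2) ndB4q0 ndB4q2b pcB2 cut_pp_022_b Ext.none)

def k0_pp_022_b : ∃ t, chk3 f_pp_022_b t 1 1 1 = true :=
  ⟨(a (b (a (b (a (a (b (a (b (a (a (l 16537592) (l 16541392)) (l 16568152)) (a (l 16391728) (l 4))) (l 4)) (l 4)) (l 4)) (l 4)) (l 4)) (l 4)) (l 4)) (l 4)), by decide +kernel⟩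

theorem c_pp_022_b : CertB 0 536870912 1239849684 370763052 587336777 62277027 3 eng mog cd4q0 cd4q2b pd2 true true true .pp 0 2 2
    ndB4q0 ndB4q2b pcB2 cut_pp_022_b Ext.none :=
  certB0 (fam := true) (s1 := true) (s2 := true) (a := 0) (b := 2) (c := 2) (cn := .pp) (n1 := ndB4q0) (n2 := ndB4q2b) (pc := pcB2) (cut := cut_pp_022_b) (xt := Ext.none) (P1 := 0) (W1 := 536870912) (P2 := 1239849684) (W2 := 370763052) (P3 := 587336777) (W3 := 62277027) (N0 := 3) (En := eng) (mo := mog) (C1 := cd4q0) (C2 := cd4q2b) (C3 := pd2)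
    rfl k0_pp_022_b

noncomputable def f_pp_023_a : ℕ → ℕ → ℕ → ℕ → Bool := onCell 1610612736 536870912 0 536870912 587336777 62277027
    (rowB 3 eng mog cd4q0 cd4q2a pd3 2 true true true .up 0 2 3 (qsf 0 536870912 0 536870912 3) ndB4q0 ndB4q2a pcB3 Cut.none Ext.none)

def k0_pp_023_a : ∃ t, chk3 f_pp_023_a t 1 1 1 = true :=
  ⟨(l 4), by decide +kernel⟩

theorem c_pp_023_a : CertB 0 536870912 0 536870912 587336777 62277027 3 eng mog cd4q0 cd4q2a pd3 true true true .up 0 2 3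
    ndB4q0 ndB4q2a pcB3 Cut.none Ext.none :=
  certB2 (fam := true) (s1 := true) (s2 := true) (a := 0) (b := 2) (c := 3) (cn := .up) (n1 := ndB4q0) (n2 := ndB4q2a) (pc := pcB3) (cut := Cut.none) (xt := Ext.none) (P1 := 0) (W1 := 536870912) (P2 := 0) (W2 := 536870912) (P3 := 587336777) (W3 := 62277027) (N0 := 3) (En := eng) (mo := mog) (C1 := cd4q0) (C2 := cd4q2a) (C3 := pd3)
    rfl (fun _ => rfl) k0_pp_023_a

noncomputable def f_pp_023_b : ℕ → ℕ → ℕ → ℕ → Bool := onCell 1610612736 536870912 1239849684 370763052 587336777 62277027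
    (rowB 3 eng mog cd4q0 cd4q2b pd3 2 true true true .up 0 2 3 (qsf 0 536870912 1239849684 370763052 3) ndB4q0 ndB4q2b pcB3 Cut.none Ext.none)

def k0_pp_023_b : ∃ t, chk3 f_pp_023_b t 1 1 1 = true :=
  ⟨(l 4), by decide +kernel⟩

theorem c_pp_023_b : CertB 0 536870912 1239849684 370763052 587336777 62277027 3 eng mog cd4q0 cd4q2b pd3 true true true .up 0 2 3
    ndB4q0 ndB4q2b pcB3 Cut.none Ext.none :=
  certB2 (fam := true) (s1 := true) (s2 := true) (a := 0) (b := 2) (c := 3) (cn := .up) (n1 := ndB4q0) (n2 := ndB4q2b) (pc := pcB3) (cut := Cut.none) (xt := Ext.none) (P1 := 0) (W1 := 536870912) (P2 := 1239849684) (W2 := 370763052) (P3 := 587336777) (W3 := 62277027) (N0 := 3) (En := eng) (mo := mog) (C1 := cd4q0) (C2 := cd4q2b) (C3 := pd3)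
    rfl (fun _ => rfl) k0_pp_023_b

noncomputable def f_pp_033 : ℕ → ℕ → ℕ → ℕ → Bool := onCell 0 536870912 1610612736 536870912 587336777 62277027
    (rowB 3 eng mog cd4q0 cd4q3 pd3 0 true true true .pnn 0 3 3 (qsf 0 536870912 1610612736 536870912 3) ndB4q0 ndB4q3 pcB3 Cut.none Ext.none)

def k0_pp_033 : ∃ t, chk3 f_pp_033 t 1 1 1 = true :=
  ⟨(l 4), by decide +kernel⟩

theorem c_pp_033 : CertB 0 536870912 1610612736 536870912 587336777 62277027 3 eng mog cd4q0 cd4q3 pd3 true true true .pnn 0 3 3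
    ndB4q0 ndB4q3 pcB3 Cut.none Ext.none :=
  certB0 (fam := true) (s1 := true) (s2 := true) (a := 0) (b := 3) (c := 3) (cn := .pnn) (n1 := ndB4q0) (n2 := ndB4q3) (pc := pcB3) (cut := Cut.none) (xt := Ext.none) (P1 := 0) (W1 := 536870912) (P2 := 1610612736) (W2 := 536870912) (P3 := 587336777) (W3 := 62277027) (N0 := 3) (En := eng) (mo := mog) (C1 := cd4q0) (C2 := cd4q3) (C3 := pd3)
    rfl k0_pp_033

noncomputable def f_pp_101 : ℕ → ℕ → ℕ → ℕ → Bool := onCell 536870912 536870912 0 536870912 587336777 62277027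
    (rowB 3 eng mog cd4q1 cd4q0 pd1 0 true true true .npn 1 0 1 (qsf 536870912 536870912 0 536870912 1) ndB4q1 ndB4q0 pcB1 Cut.none Ext.none)

def k0_pp_101 : ∃ t, chk3 f_pp_101 t 1 1 1 = true :=
  ⟨(l 4), by decide +kernel⟩

theorem c_pp_101 : CertB 536870912 536870912 0 536870912 587336777 62277027 3 eng mog cd4q1 cd4q0 pd1 true true true .npn 1 0 1
    ndB4q1 ndB4q0 pcB1 Cut.none Ext.none :=
  certB0 (fam := true) (s1 := true) (s2 := true) (a := 1) (b := 0) (c := 1) (cn := .npn) (n1 := ndB4q1) (n2 := ndB4q0) (pc := pcB1) (cut := Cut.none) (xt := Ext.none) (P1 := 536870912) (W1 := 536870912) (P2 := 0) (W2 := 536870912) (P3 := 587336777) (W3 := 62277027) (N0 := 3) (En := eng) (mo := mog) (C1 := cd4q1) (C2 := cd4q0) (C3 := pd1)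
    rfl k0_pp_101

noncomputable def f_pp_102 : ℕ → ℕ → ℕ → ℕ → Bool := onCell 536870912 536870912 0 536870912 587336777 62277027
    (rowB 3 eng mog cd4q1 cd4q0 pd2 0 true true true .npp 1 0 2 (qsf 536870912 536870912 0 536870912 2) ndB4q1 ndB4q0 pcB2 Cut.none Ext.none)

def k0_pp_102 : ∃ t, chk3 f_pp_102 t 1 1 1 = true :=
  ⟨(l 4), by decide +kernel⟩

theorem c_pp_102 : CertB 536870912 536870912 0 536870912 587336777 62277027 3 eng mog cd4q1 cd4q0 pd2 true true true .npp 1 0 2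
    ndB4q1 ndB4q0 pcB2 Cut.none Ext.none :=
  certB0 (fam := true) (s1 := true) (s2 := true) (a := 1) (b := 0) (c := 2) (cn := .npp) (n1 := ndB4q1) (n2 := ndB4q0) (pc := pcB2) (cut := Cut.none) (xt := Ext.none) (P1 := 536870912) (W1 := 536870912) (P2 := 0) (W2 := 536870912) (P3 := 587336777) (W3 := 62277027) (N0 := 3) (En := eng) (mo := mog) (C1 := cd4q1) (C2 := cd4q0) (C3 := pd2)
    rfl k0_pp_102

noncomputable def f_pp_112 : ℕ → ℕ → ℕ → ℕ → Bool := onCell 536870912 536870912 536870912 536870912 587336777 62277027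
    (rowB 3 eng mog cd4q1 cd4q1 pd2 0 true true true .dn 1 1 2 (qsf 536870912 536870912 536870912 536870912 2) ndB4q1 ndB4q1 pcB2 Cut.none Ext.none)

def k0_pp_112 : ∃ t, chk3 f_pp_112 t 1 1 1 = true :=
  ⟨(l 4), by decide +kernel⟩

theorem c_pp_112 : CertB 536870912 536870912 536870912 536870912 587336777 62277027 3 eng mog cd4q1 cd4q1 pd2 true true true .dn 1 1 2
    ndB4q1 ndB4q1 pcB2 Cut.none Ext.none :=
  certB0 (fam := true) (s1 := true) (s2 := true) (a := 1) (b := 1) (c := 2) (cn := .dn) (n1 := ndB4q1) (n2 := ndB4q1) (pc := pcB2) (cut := Cut.none) (xt := Ext.none) (P1 := 536870912) (W1 := 536870912) (P2 := 536870912) (W2 := 536870912) (P3 := 587336777) (W3 := 62277027) (N0 := 3) (En := eng) (mo := mog) (C1 := cd4q1) (C2 := cd4q1) (C3 := pd2)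
    rfl k0_pp_112

noncomputable def f_pp_113 : ℕ → ℕ → ℕ → ℕ → Bool := onCell 536870912 536870912 536870912 536870912 587336777 62277027
    (rowB 3 eng mog cd4q1 cd4q1 pd3 0 true true true .nn 1 1 3 (qsf 536870912 536870912 536870912 536870912 3) ndB4q1 ndB4q1 pcB3 Cut.none Ext.none)

def k0_pp_113 : ∃ t, chk3 f_pp_113 t 1 1 1 = true :=
  ⟨(l 4), by decide +kernel⟩

theorem c_pp_113 : CertB 536870912 536870912 536870912 536870912 587336777 62277027 3 eng mog cd4q1 cd4q1 pd3 true true true .nn 1 1 3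
    ndB4q1 ndB4q1 pcB3 Cut.none Ext.none :=
  certB0 (fam := true) (s1 := true) (s2 := true) (a := 1) (b := 1) (c := 3) (cn := .nn) (n1 := ndB4q1) (n2 := ndB4q1) (pc := pcB3) (cut := Cut.none) (xt := Ext.none) (P1 := 536870912) (W1 := 536870912) (P2 := 536870912) (W2 := 536870912) (P3 := 587336777) (W3 := 62277027) (N0 := 3) (En := eng) (mo := mog) (C1 := cd4q1) (C2 := cd4q1) (C3 := pd3)
    rfl k0_pp_113

noncomputable def f_pp_123_a : ℕ → ℕ → ℕ → ℕ → Bool := onCell 536870912 536870912 0 536870912 587336777 62277027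
    (rowB 3 eng mog cd4q1 cd4q2a pd3 0 true true true .npn 1 2 3 (qsf 536870912 536870912 0 536870912 3) ndB4q1 ndB4q2a pcB3 Cut.none Ext.none)

def k0_pp_123_a : ∃ t, chk3 f_pp_123_a t 1 1 1 = true :=
  ⟨(l 4), by decide +kernel⟩

theorem c_pp_123_a : CertB 536870912 536870912 0 536870912 587336777 62277027 3 eng mog cd4q1 cd4q2a pd3 true true true .npn 1 2 3
    ndB4q1 ndB4q2a pcB3 Cut.none Ext.none :=
  certB0 (fam := true) (s1 := true) (s2 := true) (a := 1) (b := 2) (c := 3) (cn := .npn) (n1 := ndB4q1) (n2 := ndB4q2a) (pc := pcB3) (cut := Cut.none) (xt := Ext.none) (P1 := 536870912) (W1 := 536870912) (P2 := 0) (W2 := 536870912) (P3 := 587336777) (W3 := 62277027) (N0 := 3) (En := eng) (mo := mog) (C1 := cd4q1) (C2 := cd4q2a) (C3 := pd3)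
    rfl k0_pp_123_a

noncomputable def f_pp_123_b : ℕ → ℕ → ℕ → ℕ → Bool := onCell 536870912 536870912 1239849684 370763052 587336777 62277027
    (rowB 3 eng mog cd4q1 cd4q2b pd3 0 true true true .npn 1 2 3 (qsf 536870912 536870912 1239849684 370763052 3) ndB4q1 ndB4q2b pcB3 Cut.none Ext.none)

def k0_pp_123_b : ∃ t, chk3 f_pp_123_b t 1 1 1 = true :=
  ⟨(l 4), by decide +kernel⟩

theorem c_pp_123_b : CertB 536870912 536870912 1239849684 370763052 587336777 62277027 3 eng mog cd4q1 cd4q2b pd3 true true true .npn 1 2 3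
    ndB4q1 ndB4q2b pcB3 Cut.none Ext.none :=
  certB0 (fam := true) (s1 := true) (s2 := true) (a := 1) (b := 2) (c := 3) (cn := .npn) (n1 := ndB4q1) (n2 := ndB4q2b) (pc := pcB3) (cut := Cut.none) (xt := Ext.none) (P1 := 536870912) (W1 := 536870912) (P2 := 1239849684) (W2 := 370763052) (P3 := 587336777) (W3 := 62277027) (N0 := 3) (En := eng) (mo := mog) (C1 := cd4q1) (C2 := cd4q2b) (C3 := pd3)
    rfl k0_pp_123_b

noncomputable def f_pp_133 : ℕ → ℕ → ℕ → ℕ → Bool := onCell 536870912 536870912 1610612736 536870912 587336777 62277027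
    (rowB 3 eng mog cd4q1 cd4q3 pd3 0 true true true .dn 1 3 3 (qsf 536870912 536870912 1610612736 536870912 3) ndB4q1 ndB4q3 pcB3 Cut.none Ext.none)

def k0_pp_133 : ∃ t, chk3 f_pp_133 t 1 1 1 = true :=
  ⟨(l 4), by decide +kernel⟩

theorem c_pp_133 : CertB 536870912 536870912 1610612736 536870912 587336777 62277027 3 eng mog cd4q1 cd4q3 pd3 true true true .dn 1 3 3
    ndB4q1 ndB4q3 pcB3 Cut.none Ext.none :=
  certB0 (fam := true) (s1 := true) (s2 := true) (a := 1) (b := 3) (c := 3) (cn := .dn) (n1 := ndB4q1) (n2 := ndB4q3) (pc := pcB3) (cut := Cut.none) (xt := Ext.none) (P1 := 536870912) (W1 := 536870912) (P2 := 1610612736) (W2 := 536870912) (P3 := 587336777) (W3 := 62277027) (N0 := 3) (En := eng) (mo := mog) (C1 := cd4q1) (C2 := cd4q3) (C3 := pd3)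
    rfl k0_pp_133

noncomputable def f_pp_202_a : ℕ → ℕ → ℕ → ℕ → Bool := onCell 0 536870912 0 536870912 587336777 62277027
    (rowB 3 eng mog cd4q2a cd4q0 pd2 0 true true true .pp 2 0 2 (qsf 0 536870912 0 536870912 2) ndB4q2a ndB4q0 pcB2 Cut.none Ext.none)

def k0_pp_202_a : ∃ t, chk3 f_pp_202_a t 1 1 1 = true :=
  ⟨(l 5), by decide +kernel⟩

theorem c_pp_202_a : CertB 0 536870912 0 536870912 587336777 62277027 3 eng mog cd4q2a cd4q0 pd2 true true true .pp 2 0 2
    ndB4q2a ndB4q0 pcB2 Cut.none Ext.none :=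
  certB0 (fam := true) (s1 := true) (s2 := true) (a := 2) (b := 0) (c := 2) (cn := .pp) (n1 := ndB4q2a) (n2 := ndB4q0) (pc := pcB2) (cut := Cut.none) (xt := Ext.none) (P1 := 0) (W1 := 536870912) (P2 := 0) (W2 := 536870912) (P3 := 587336777) (W3 := 62277027) (N0 := 3) (En := eng) (mo := mog) (C1 := cd4q2a) (C2 := cd4q0) (C3 := pd2)
    rfl k0_pp_202_a

noncomputable def f_pp_202_b : ℕ → ℕ → ℕ → ℕ → Bool := onCell 1239849684 370763052 0 536870912 587336777 62277027
    (rowB 3 eng mog cd4q2b cd4q0 pd2 0 true true true .pp 2 0 2 (qsf 1239849684 370763052 0 536870912 2) ndB4q2b ndB4q0 pcB2 Cut.none Ext.none)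

def k0_pp_202_b : ∃ t, chk3 f_pp_202_b t 1 1 1 = true :=
  ⟨(l 5), by decide +kernel⟩

theorem c_pp_202_b : CertB 1239849684 370763052 0 536870912 587336777 62277027 3 eng mog cd4q2b cd4q0 pd2 true true true .pp 2 0 2
    ndB4q2b ndB4q0 pcB2 Cut.none Ext.none :=
  certB0 (fam := true) (s1 := true) (s2 := true) (a := 2) (b := 0) (c := 2) (cn := .pp) (n1 := ndB4q2b) (n2 := ndB4q0) (pc := pcB2) (cut := Cut.none) (xt := Ext.none) (P1 := 1239849684) (W1 := 370763052) (P2 := 0) (W2 := 536870912) (P3 := 587336777) (W3 := 62277027) (N0 := 3) (En := eng) (mo := mog) (C1 := cd4q2b) (C2 := cd4q0) (C3 := pd2)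
    rfl k0_pp_202_b

noncomputable def f_pp_203_a : ℕ → ℕ → ℕ → ℕ → Bool := onCell 0 536870912 0 536870912 587336777 62277027
    (rowB 3 eng mog cd4q2a cd4q0 pd3 0 true true true .up 2 0 3 (qsf 0 536870912 0 536870912 3) ndB4q2a ndB4q0 pcB3 Cut.none Ext.none)

def k0_pp_203_a : ∃ t, chk3 f_pp_203_a t 1 1 1 = true :=
  ⟨(l 5), by decide +kernel⟩

theorem c_pp_203_a : CertB 0 536870912 0 536870912 587336777 62277027 3 eng mog cd4q2a cd4q0 pd3 true true true .up 2 0 3
    ndB4q2a ndB4q0 pcB3 Cut.none Ext.none :=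
  certB0 (fam := true) (s1 := true) (s2 := true) (a := 2) (b := 0) (c := 3) (cn := .up) (n1 := ndB4q2a) (n2 := ndB4q0) (pc := pcB3) (cut := Cut.none) (xt := Ext.none) (P1 := 0) (W1 := 536870912) (P2 := 0) (W2 := 536870912) (P3 := 587336777) (W3 := 62277027) (N0 := 3) (En := eng) (mo := mog) (C1 := cd4q2a) (C2 := cd4q0) (C3 := pd3)
    rfl k0_pp_203_a

noncomputable def f_pp_203_b : ℕ → ℕ → ℕ → ℕ → Bool := onCell 1239849684 370763052 0 536870912 587336777 62277027
    (rowB 3 eng mog cd4q2b cd4q0 pd3 0 true true true .up 2 0 3 (qsf 1239849684 370763052 0 536870912 3) ndB4q2b ndB4q0 pcB3 Cut.none Ext.none)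

def k0_pp_203_b : ∃ t, chk3 f_pp_203_b t 1 1 1 = true :=
  ⟨(l 5), by decide +kernel⟩

theorem c_pp_203_b : CertB 1239849684 370763052 0 536870912 587336777 62277027 3 eng mog cd4q2b cd4q0 pd3 true true true .up 2 0 3
    ndB4q2b ndB4q0 pcB3 Cut.none Ext.none :=
  certB0 (fam := true) (s1 := true) (s2 := true) (a := 2) (b := 0) (c := 3) (cn := .up) (n1 := ndB4q2b) (n2 := ndB4q0) (pc := pcB3) (cut := Cut.none) (xt := Ext.none) (P1 := 1239849684) (W1 := 370763052) (P2 := 0) (W2 := 536870912) (P3 := 587336777) (W3 := 62277027) (N0 := 3) (En := eng) (mo := mog) (C1 := cd4q2b) (C2 := cd4q0) (C3 := pd3)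
    rfl k0_pp_203_b

noncomputable def f_pp_213_a : ℕ → ℕ → ℕ → ℕ → Bool := onCell 0 536870912 536870912 536870912 587336777 62277027
    (rowB 3 eng mog cd4q2a cd4q1 pd3 0 true true true .pnn 2 1 3 (qsf 0 536870912 536870912 536870912 3) ndB4q2a ndB4q1 pcB3 Cut.none Ext.none)

def k0_pp_213_a : ∃ t, chk3 f_pp_213_a t 1 1 1 = true :=
  ⟨(l 4), by decide +kernel⟩

theorem c_pp_213_a : CertB 0 536870912 536870912 536870912 587336777 62277027 3 eng mog cd4q2a cd4q1 pd3 true true true .pnn 2 1 3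
    ndB4q2a ndB4q1 pcB3 Cut.none Ext.none :=
  certB0 (fam := true) (s1 := true) (s2 := true) (a := 2) (b := 1) (c := 3) (cn := .pnn) (n1 := ndB4q2a) (n2 := ndB4q1) (pc := pcB3) (cut := Cut.none) (xt := Ext.none) (P1 := 0) (W1 := 536870912) (P2 := 536870912) (W2 := 536870912) (P3 := 587336777) (W3 := 62277027) (N0 := 3) (En := eng) (mo := mog) (C1 := cd4q2a) (C2 := cd4q1) (C3 := pd3)
    rfl k0_pp_213_a

noncomputable def f_pp_213_b : ℕ → ℕ → ℕ → ℕ → Bool := onCell 1239849684 370763052 536870912 536870912 587336777 62277027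
    (rowB 3 eng mog cd4q2b cd4q1 pd3 0 true true true .pnn 2 1 3 (qsf 1239849684 370763052 536870912 536870912 3) ndB4q2b ndB4q1 pcB3 Cut.none Ext.none)

def k0_pp_213_b : ∃ t, chk3 f_pp_213_b t 1 1 1 = true :=
  ⟨(l 4), by decide +kernel⟩

theorem c_pp_213_b : CertB 1239849684 370763052 536870912 536870912 587336777 62277027 3 eng mog cd4q2b cd4q1 pd3 true true true .pnn 2 1 3
    ndB4q2b ndB4q1 pcB3 Cut.none Ext.none :=
  certB0 (fam := true) (s1 := true) (s2 := true) (a := 2) (b := 1) (c := 3) (cn := .pnn) (n1 := ndB4q2b) (n2 := ndB4q1) (pc := pcB3) (cut := Cut.none) (xt := Ext.none) (P1 := 1239849684) (W1 := 370763052) (P2 := 536870912) (W2 := 536870912) (P3 := 587336777) (W3 := 62277027) (N0 := 3) (En := eng) (mo := mog) (C1 := cd4q2b) (C2 := cd4q1) (C3 := pd3)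
    rfl k0_pp_213_b

noncomputable def f_pp_303 : ℕ → ℕ → ℕ → ℕ → Bool := onCell 1610612736 536870912 0 536870912 587336777 62277027
    (rowB 3 eng mog cd4q3 cd4q0 pd3 0 true true true .npn 3 0 3 (qsf 1610612736 536870912 0 536870912 3) ndB4q3 ndB4q0 pcB3 Cut.none Ext.none)

def k0_pp_303 : ∃ t, chk3 f_pp_303 t 1 1 1 = true :=
  ⟨(l 4), by decide +kernel⟩

theorem c_pp_303 : CertB 1610612736 536870912 0 536870912 587336777 62277027 3 eng mog cd4q3 cd4q0 pd3 true true true .npn 3 0 3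
    ndB4q3 ndB4q0 pcB3 Cut.none Ext.none :=
  certB0 (fam := true) (s1 := true) (s2 := true) (a := 3) (b := 0) (c := 3) (cn := .npn) (n1 := ndB4q3) (n2 := ndB4q0) (pc := pcB3) (cut := Cut.none) (xt := Ext.none) (P1 := 1610612736) (W1 := 536870912) (P2 := 0) (W2 := 536870912) (P3 := 587336777) (W3 := 62277027) (N0 := 3) (En := eng) (mo := mog) (C1 := cd4q3) (C2 := cd4q0) (C3 := pd3)
    rfl k0_pp_303

noncomputable def f_pp_313 : ℕ → ℕ → ℕ → ℕ → Bool := onCell 1610612736 536870912 536870912 536870912 587336777 62277027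
    (rowB 3 eng mog cd4q3 cd4q1 pd3 0 true true true .dn 3 1 3 (qsf 1610612736 536870912 536870912 536870912 3) ndB4q3 ndB4q1 pcB3 Cut.none Ext.none)

def k0_pp_313 : ∃ t, chk3 f_pp_313 t 1 1 1 = true :=
  ⟨(l 4), by decide +kernel⟩

theorem c_pp_313 : CertB 1610612736 536870912 536870912 536870912 587336777 62277027 3 eng mog cd4q3 cd4q1 pd3 true true true .dn 3 1 3
    ndB4q3 ndB4q1 pcB3 Cut.none Ext.none :=
  certB0 (fam := true) (s1 := true) (s2 := true) (a := 3) (b := 1) (c := 3) (cn := .dn) (n1 := ndB4q3) (n2 := ndB4q1) (pc := pcB3) (cut := Cut.none) (xt := Ext.none) (P1 := 1610612736) (W1 := 536870912) (P2 := 536870912) (W2 := 536870912) (P3 := 587336777) (W3 := 62277027) (N0 := 3) (En := eng) (mo := mog) (C1 := cd4q3) (C2 := cd4q1) (C3 := pd3)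
    rfl k0_pp_313

noncomputable def f_pm_001 : ℕ → ℕ → ℕ → ℕ → Bool := onCell 0 536870912 0 536870912 587336777 62277027
    (rowB 3 eng mog cd4q0 cd4q0 pd1 0 true true false .up 0 0 1 (qsf 0 536870912 0 536870912 1) ndB4q0 ndB4q0 pcB1 Cut.none Ext.none)

def k0_pm_001 : ∃ t, chk3 f_pm_001 t 1 1 1 = true :=
  ⟨(l 3), by decide +kernel⟩

theorem c_pm_001 : CertB 0 536870912 0 536870912 587336777 62277027 3 eng mog cd4q0 cd4q0 pd1 true true false .up 0 0 1
    ndB4q0 ndB4q0 pcB1 Cut.none Ext.none :=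
  certB0 (fam := true) (s1 := true) (s2 := false) (a := 0) (b := 0) (c := 1) (cn := .up) (n1 := ndB4q0) (n2 := ndB4q0) (pc := pcB1) (cut := Cut.none) (xt := Ext.none) (P1 := 0) (W1 := 536870912) (P2 := 0) (W2 := 536870912) (P3 := 587336777) (W3 := 62277027) (N0 := 3) (En := eng) (mo := mog) (C1 := cd4q0) (C2 := cd4q0) (C3 := pd1)
    rfl k0_pm_001

noncomputable def f_pm_011 : ℕ → ℕ → ℕ → ℕ → Bool := onCell 0 536870912 536870912 536870912 587336777 62277027
    (rowB 3 eng mog cd4q0 cd4q1 pd1 1 true true false .pnn 0 1 1 (qsf 0 536870912 536870912 536870912 1) ndB4q0 ndB4q1 pcB1 Cut.none Ext.none)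

def k0_pm_011 : ∃ t, chk3 f_pm_011 t 1 1 1 = true :=
  ⟨(b (l 3) (l 3)), by decide +kernel⟩

theorem c_pm_011 : CertB 0 536870912 536870912 536870912 587336777 62277027 3 eng mog cd4q0 cd4q1 pd1 true true false .pnn 0 1 1
    ndB4q0 ndB4q1 pcB1 Cut.none Ext.none :=
  certB1 (fam := true) (s1 := true) (s2 := false) (a := 0) (b := 1) (c := 1) (cn := .pnn) (n1 := ndB4q0) (n2 := ndB4q1) (pc := pcB1) (cut := Cut.none) (xt := Ext.none) (P1 := 0) (W1 := 536870912) (P2 := 536870912) (W2 := 536870912) (P3 := 587336777) (W3 := 62277027) (N0 := 3) (En := eng) (mo := mog) (C1 := cd4q0) (C2 := cd4q1) (C3 := pd1)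
    rfl (fun _ => rfl) k0_pm_011

noncomputable def f_pm_012 : ℕ → ℕ → ℕ → ℕ → Bool := onCell 1073741824 536870912 536870912 536870912 587336777 62277027
    (rowB 3 eng mog cd4q0 cd4q1 pd2 2 true true false .pnp 0 1 2 (qsf 0 536870912 536870912 536870912 2) ndB4q0 ndB4q1 pcB2 Cut.none Ext.none)

def k0_pm_012 : ∃ t, chk3 f_pm_012 t 1 1 1 = true :=
  ⟨(a (a (a (l 3) (b (l 3) (b (l 3) (l 3)))) (a (a (a (b (l 3) (b (l 3) (b (l 3) (a (l 3) (l 16437368))))) (b (a (l 3) (b (l 2) (a (l 16600144) (a (l 16599752) (l 16599472))))) (a (b (b (l 3) (l 16501784)) (b (l 16462704) (l 16445328))) (b (a (b (l 16540816) (l 16496920)) (a (a (l 16518168) (l 16517792)) (l 16517288))) (a (b (l 16455840) (l 16415000)) (b (a (l 16452792) (l 16451536)) (a (l 16410640) (l 16408144)))))))) (b (b (l 2) (l 16597488)) (b (b (l 16532984) (l 16483952)) (b (l 16436112) (l 16385312))))) (b (b (l 2) (l 16599440)) (b (b (l 16525280) (l 16466936)) (b (l 16406040) (l 16336736))))))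 (b (b (l 2) (a (l 16635032) (l 2))) (b (a (b (l 16548880) (l 16479040)) (l 16623672)) (a (b (l 16403200) (a (l 16308840) (l 16320344))) (l 16446464))))), by decide +kernel⟩

theorem c_pm_012 : CertB 0 536870912 536870912 536870912 587336777 62277027 3 eng mog cd4q0 cd4q1 pd2 true true false .pnp 0 1 2
    ndB4q0 ndB4q1 pcB2 Cut.none Ext.none :=
  certB2 (fam := true) (s1 := true) (s2 := false) (a := 0) (b := 1) (c := 2) (cn := .pnp) (n1 := ndB4q0) (n2 := ndB4q1) (pc := pcB2) (cut := Cut.none) (xt := Ext.none) (P1 := 0) (W1 := 536870912) (P2 := 536870912) (W2 := 536870912) (P3 := 587336777) (W3 := 62277027) (N0 := 3) (En := eng) (mo := mog) (C1 := cd4q0) (C2 := cd4q1) (C3 := pd2)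
    rfl (fun _ => rfl) k0_pm_012

noncomputable def cut_pm_022_a : Cut := Cut.of [[⟨0, 0, 0, 67108864⟩, ⟨1, 1, 0, 67108864⟩, ⟨2, 1, 0, 67108864⟩]]

noncomputable def f_pm_022_a : ℕ → ℕ → ℕ → ℕ → Bool := onCell 1073741824 536870912 0 536870912 587336777 62277027
    (rowB 3 eng mog cd4q0 cd4q2a pd2 2 true true false .pp 0 2 2 (qsf 0 536870912 0 536870912 2) ndB4q0 ndB4q2a pcB2 cut_pm_022_a Ext.none)

def k0_pm_022_a : ∃ t, chk3 f_pm_022_a t 2 2 1 = true :=
  ⟨(b (a (l 1) (a (a (a (l 1) (a (b (l 1) (b (l 1) (c (l 550325637703) (l 558378659175)))) (a (b (l 1) (b (c (l 590054073847) (l 653941665351)) (c (l 636761894407) (l 16455824)))) (b (a (b (c (l 1928473269895) (l 1814119697239)) (c (l 609381468535) (l 394096139511))) (a (a (a (b (c (l 16466088) (l 1859216841335)) (l 16456200)) (a (b (c (l 16466128) (l 1891429096391)) (l 16456216)) (b (c (b (l 16466032) (l 16466280)) (b (c (l 16448016) (l 16436096)) (l 16442728))) (c (l 16467576) (l 16444856)))))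 (b (c (l 16466176) (l 16442488)) (l 16456240))) (b (c (l 16466152) (l 16442648)) (l 16456288)))) (a (b (c (l 16470616) (l 16449352)) (l 16465816)) (b (c (l 16470600) (a (l 16449392) (l 16449520))) (l 16465752))))))) (a (b (a (b (c (l 16465952) (l 16443568)) (l 16456504)) (l 16456088)) (a (b (l 16460120) (l 16465528)) (l 16462560))) (b (l 16456440) (l 16461760)))) (a (b (l 16456408) (l 16459224)) (l 16453624)))) (b (a (l 1) (a (a (a (a (l 1) (c (b (l 513818431927) (l 565894928199)) (b (l 506839068839) (l 568579246455)))) (a (c (b (a (l 563747424887) (l 16482976)) (l 16512712)) (b (l 571800493927) (l 16475312))) (a (b (l 16473584) (l 16482952)) (a (l 16478096) (l 16477856))))) (a (l 16476584) (l 16473464))) (l 16462368))) (a (a (l 1) (a (l 1) (a (l 1) (b (l 1) (a (l 1) (b (l 513818481255) (l 566431845991))))))) (a (a (a (a (b (c (l 554083793047) (l 549788791639)) (b (l 613139645143) (l 16515296))) (b (c (l 624413916087) (l 16488584)) (l 16509936)))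 (a (b (l 16495104) (l 16507928)) (a (l 16500272) (a (l 16499472) (l 16498920))))) (a (l 16496224) (l 16490280))) (l 16480176))))), by decide +kernel⟩

def k1_pm_022_a : ∃ t, chk3 f_pm_022_a t 4 3 1 = true :=
  ⟨(a (b (l 1) (a (b (l 1) (l 6)) (a (b (b (l 1) (l 6)) (l 6)) (a (b (b (l 1) (l 6)) (l 6)) (b (b (b (l 1) (a (b (l 1) (l 6)) (b (l 497175742855) (l 16646096)))) (a (l 6) (a (l 6) (b (l 16635216) (l 16670328))))) (b (l 16683176) (l 16691616))))))) (b (a (b (l 1) (a (b (l 1) (a (l 1) (b (a (l 1) (l 454762858711)) (a (l 494491333543) (l 534756671367))))) (b (a (b (l 1) (l 473016463463)) (b (l 492880639383) (a (l 510597402823) (l 16581528)))) (a (b (a (l 485901369159) (l 554083995335)) (a (l 16609048) (l 16607576))) (b (l 16593568) (l 16605248)))))) (b (a (b (a (l 1) (b (l 1) (l 486438120583))) (a (b (l 1) (l 519187288839)) (b (l 544420197879) (l 592201762311)))) (b (a (b (l 524019063447) (l 576632468599)) (b (l 615824028295) (l 16533392)))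 (a (b (l 16544480) (l 16553904)) (l 16546752)))) (a (b (a (b (l 563747627431) (l 16579592)) (b (l 16566376) (l 16576744))) (b (a (l 16590632) (l 16587352)) (l 16600056))) (b (a (l 16568656) (l 16565328)) (l 16585408))))) (a (b (a (b (b (a (a (l 479995892375) (b (l 510060611991) (l 16629384))) (a (l 16624632) (l 16623096))) (a (b (a (l 16637632) (l 16636056)) (l 16643632)) (b (l 16633584) (l 16640144)))) (b (a (b (l 16650464) (l 16657336)) (l 16650072)) (l 16661176))) (b (b (a (a (l 16621496) (l 16619824)) (l 16617152)) (l 16631264)) (l 16640752))) (b (a (b (l 16666376) (l 16671136)) (l 16651192)) (a (l 16677408) (l 16659992)))) (b (b (a (l 16612720) (l 16598632)) (a (l 16624776) (l 16610712))) (b (l 16649200) (l 16658776)))))), by decide +kernel⟩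

def k2_pm_022_a : ∃ t, chk3 f_pm_022_a t 5 3 1 = true :=
  ⟨(a (b (a (a (b (b (a (l 16527152) (l 16524760)) (l 16542352)) (l 16566768)) (b (a (l 16529840) (b (l 16581768) (l 16532936))) (a (l 16559008) (l 16575608)))) (b (l 16517440) (l 16545464))) (a (a (b (b (l 16586504) (l 16598664)) (l 16615448)) (b (a (l 16585272) (a (l 16581856) (l 16579896))) (a (l 16608488) (a (l 16605544) (l 16603848))))) (b (l 16571920) (b (l 16590528) (l 16604568))))) (b (b (l 16506632) (a (l 16536440) (l 16533152))) (b (l 16561528) (l 16655064)))), by decide +kernel⟩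

def k3_pm_022_a : ∃ t, chk3 f_pm_022_a t 3 1 1 = true :=
  ⟨(a (b (a (b (l 16452032) (l 16479864)) (b (l 16482568) (l 16505048))) (b (a (b (l 16512592) (l 16539176)) (l 16675632)) (a (b (l 16569184) (l 16608520)) (a (l 16612368) (l 16627656))))) (b (a (l 16528296) (l 16571864)) (b (a (l 16577448) (l 16617480)) (a (l 16653616) (l 16694688))))), by decide +kernel⟩

theorem s4_pm_022_a : ∃ t, chk3 f_pm_022_a t 2 3 1 = true := ex3_a k1_pm_022_a k2_pm_022_a

theorem s5_pm_022_a : ∃ t, chk3 f_pm_022_a t 2 1 1 = true := ex3_b k0_pm_022_a s4_pm_022_a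

theorem s6_pm_022_a : ∃ t, chk3 f_pm_022_a t 1 1 1 = true := ex3_a s5_pm_022_a k3_pm_022_a

theorem c_pm_022_a : CertB 0 536870912 0 536870912 587336777 62277027 3 eng mog cd4q0 cd4q2a pd2 true true false .pp 0 2 2
    ndB4q0 ndB4q2a pcB2 cut_pm_022_a Ext.none :=
  certB2 (fam := true) (s1 := true) (s2 := false) (a := 0) (b := 2) (c := 2) (cn := .pp) (n1 := ndB4q0) (n2 := ndB4q2a) (pc := pcB2) (cut := cut_pm_022_a) (xt := Ext.none) (P1 := 0) (W1 := 536870912) (P2 := 0) (W2 := 536870912) (P3 := 587336777) (W3 := 62277027) (N0 := 3) (En := eng) (mo := mog) (C1 := cd4q0) (C2 := cd4q2a) (C3 := pd2)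
    rfl (fun _ => rfl) s6_pm_022_a

noncomputable def cut_pm_022_b : Cut := Cut.of [[⟨0, 0, 0, 67108864⟩, ⟨1, 1, 0, 67108864⟩, ⟨2, 1, 0, 67108864⟩]]

noncomputable def f_pm_022_b : ℕ → ℕ → ℕ → ℕ → Bool := onCell 0 536870912 1239849684 370763052 587336777 62277027
    (rowB 3 eng mog cd4q0 cd4q2b pd2 0 true true false .pp 0 2 2 (qsf 0 536870912 1239849684 370763052 2) ndB4q0 ndB4q2b pcB2 cut_pm_022_b Ext.none)

def k0_pm_022_b : ∃ t, chk3 f_pm_022_b t 1 1 1 = true :=
  ⟨(a (b (a (b (a (a (a (b (a (a (b (b (a (c (l 16457608) (c (l 16438880) (l 16426392))) (l 16445368)) (c (l 16441712) (b (l 16419072) (l 16410096)))) (c (c (l 16429088) (l 16413296)) (l 16389064))) (b (b (l 16445712) (l 16428944)) (l 16406440))) (b (b (l 16446392) (l 16430096)) (l 16408152))) (a (b (a (c (b (l 16403616) (l 16393384)) (l 16359760)) (l 16380872)) (a (c (l 16380224) (l 16335640)) (l 16360208))) (l 16372600))) (b (l 16425056) (l 16377944))) (b (l 16429664) (l 16388512)))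 (a (b (l 16433752) (l 16401104)) (b (l 16434352) (l 16415936)))) (a (a (a (a (b (b (a (c (l 16366664) (l 16316480)) (l 16344240)) (a (c (l 16358064) (l 16302256)) (l 16333184))) (b (b (l 16327304) (l 16325680)) (b (l 16325128) (l 16325808)))) (b (l 16341824) (b (l 16331976) (l 16331992)))) (b (l 16349288) (l 16341864))) (b (l 16364704) (l 16365072))) (a (b (l 16388376) (l 16403280)) (l 16427880)))) (b (a (b (l 16559928) (l 16443840)) (l 16460232)) (a (l 16479944) (l 16544736)))) (a (a (b (a (a (b (a (b (l 16290192) (l 16347440)) (l 16348208)) (b (l 16371064) (l 16385304))) (b (l 16362616) (l 16400184))) (b (l 16394368) (l 16434456))) (a (a (b (b (l 16404120) (l 16425408)) (l 16461568)) (l 16458640)) (l 16492296))) (b (l 16521576) (l 16558184))) (b (a (l 16563400) (l 2)) (l 2)))) (b (a (b (a (l 16473624) (b (l 16570936) (l 2))) (a (b (l 16572576) (l 2)) (l 2))) (l 2)) (l 2))), by decide +kernel⟩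

theorem c_pm_022_b : CertB 0 536870912 1239849684 370763052 587336777 62277027 3 eng mog cd4q0 cd4q2b pd2 true true false .pp 0 2 2
    ndB4q0 ndB4q2b pcB2 cut_pm_022_b Ext.none :=
  certB0 (fam := true) (s1 := true) (s2 := false) (a := 0) (b := 2) (c := 2) (cn := .pp) (n1 := ndB4q0) (n2 := ndB4q2b) (pc := pcB2) (cut := cut_pm_022_b) (xt := Ext.none) (P1 := 0) (W1 := 536870912) (P2 := 1239849684) (W2 := 370763052) (P3 := 587336777) (W3 := 62277027) (N0 := 3) (En := eng) (mo := mog) (C1 := cd4q0) (C2 := cd4q2b) (C3 := pd2)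
    rfl k0_pm_022_b

noncomputable def f_pm_023_a : ℕ → ℕ → ℕ → ℕ → Bool := onCell 1610612736 536870912 0 536870912 587336777 62277027
    (rowB 3 eng mog cd4q0 cd4q2a pd3 2 true true false .up 0 2 3 (qsf 0 536870912 0 536870912 3) ndB4q0 ndB4q2a pcB3 Cut.none Ext.none)

def k0_pm_023_a : ∃ t, chk3 f_pm_023_a t 1 1 1 = true :=
  ⟨(a (a (a (b (l 16793040) (a (l 16702608) (l 16769768))) (b (l 16740448) (l 16847296))) (a (b (l 16819952) (l 16879688)) (l 261557366615))) (l 2)), by decide +kernel⟩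

theorem c_pm_023_a : CertB 0 536870912 0 536870912 587336777 62277027 3 eng mog cd4q0 cd4q2a pd3 true true false .up 0 2 3
    ndB4q0 ndB4q2a pcB3 Cut.none Ext.none :=
  certB2 (fam := true) (s1 := true) (s2 := false) (a := 0) (b := 2) (c := 3) (cn := .up) (n1 := ndB4q0) (n2 := ndB4q2a) (pc := pcB3) (cut := Cut.none) (xt := Ext.none) (P1 := 0) (W1 := 536870912) (P2 := 0) (W2 := 536870912) (P3 := 587336777) (W3 := 62277027) (N0 := 3) (En := eng) (mo := mog) (C1 := cd4q0) (C2 := cd4q2a) (C3 := pd3)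
    rfl (fun _ => rfl) k0_pm_023_a

noncomputable def f_pm_023_b : ℕ → ℕ → ℕ → ℕ → Bool := onCell 1610612736 536870912 1239849684 370763052 587336777 62277027
    (rowB 3 eng mog cd4q0 cd4q2b pd3 2 true true false .up 0 2 3 (qsf 0 536870912 1239849684 370763052 3) ndB4q0 ndB4q2b pcB3 Cut.none Ext.none)

def k0_pm_023_b : ∃ t, chk3 f_pm_023_b t 1 1 1 = true :=
  ⟨(a (a (a (a (b (b (l 16512728) (l 16551040)) (b (l 16541192) (b (l 16505960) (a (l 16512376) (l 16458224))))) (b (l 16515392) (b (l 16553400) (l 16489144)))) (b (b (l 16674088) (l 16576304)) (b (l 16599064) (l 16541248)))) (a (b (l 16689552) (b (l 16662296) (l 16618000))) (b (l 16741616) (l 16729968)))) (l 4)), by decide +kernel⟩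

theorem c_pm_023_b : CertB 0 536870912 1239849684 370763052 587336777 62277027 3 eng mog cd4q0 cd4q2b pd3 true true false .up 0 2 3
    ndB4q0 ndB4q2b pcB3 Cut.none Ext.none :=
  certB2 (fam := true) (s1 := true) (s2 := false) (a := 0) (b := 2) (c := 3) (cn := .up) (n1 := ndB4q0) (n2 := ndB4q2b) (pc := pcB3) (cut := Cut.none) (xt := Ext.none) (P1 := 0) (W1 := 536870912) (P2 := 1239849684) (W2 := 370763052) (P3 := 587336777) (W3 := 62277027) (N0 := 3) (En := eng) (mo := mog) (C1 := cd4q0) (C2 := cd4q2b) (C3 := pd3)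
    rfl (fun _ => rfl) k0_pm_023_b

noncomputable def f_pm_033 : ℕ → ℕ → ℕ → ℕ → Bool := onCell 0 536870912 1610612736 536870912 587336777 62277027
    (rowB 3 eng mog cd4q0 cd4q3 pd3 1 true true false .pnn 0 3 3 (qsf 0 536870912 1610612736 536870912 3) ndB4q0 ndB4q3 pcB3 Cut.none Ext.none)

def k0_pm_033 : ∃ t, chk3 f_pm_033 t 1 1 1 = true :=
  ⟨(a (b (b (b (a (b (a (a (b (l 16441448) (l 16363736)) (l 16421728)) (l 1)) (a (l 16361944) (l 16425264))) (l 1)) (a (a (b (l 16369472) (l 16395440)) (l 16427088)) (l 16522704))) (b (a (a (b (l 16417504) (l 16440184)) (l 16470032)) (l 16540064)) (a (a (l 16482736) (l 16528160)) (l 16598536)))) (b (b (a (b (l 16542640) (l 4)) (l 4)) (l 4)) (l 4))) (b (b (l 1) (b (l 1) (l 16723304))) (l 4))), by decide +kernel⟩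

theorem c_pm_033 : CertB 0 536870912 1610612736 536870912 587336777 62277027 3 eng mog cd4q0 cd4q3 pd3 true true false .pnn 0 3 3
    ndB4q0 ndB4q3 pcB3 Cut.none Ext.none :=
  certB1 (fam := true) (s1 := true) (s2 := false) (a := 0) (b := 3) (c := 3) (cn := .pnn) (n1 := ndB4q0) (n2 := ndB4q3) (pc := pcB3) (cut := Cut.none) (xt := Ext.none) (P1 := 0) (W1 := 536870912) (P2 := 1610612736) (W2 := 536870912) (P3 := 587336777) (W3 := 62277027) (N0 := 3) (En := eng) (mo := mog) (C1 := cd4q0) (C2 := cd4q3) (C3 := pd3)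
    rfl (fun _ => rfl) k0_pm_033

noncomputable def f_pm_101 : ℕ → ℕ → ℕ → ℕ → Bool := onCell 536870912 536870912 0 536870912 587336777 62277027
    (rowB 3 eng mog cd4q1 cd4q0 pd1 2 true true false .npn 1 0 1 (qsf 536870912 536870912 0 536870912 1) ndB4q1 ndB4q0 pcB1 Cut.none Ext.none)

def k0_pm_101 : ∃ t, chk3 f_pm_101 t 1 1 1 = true :=
  ⟨(a (l 3) (l 3)), by decide +kernel⟩

theorem c_pm_101 : CertB 536870912 536870912 0 536870912 587336777 62277027 3 eng mog cd4q1 cd4q0 pd1 true true false .npn 1 0 1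
    ndB4q1 ndB4q0 pcB1 Cut.none Ext.none :=
  certB2 (fam := true) (s1 := true) (s2 := false) (a := 1) (b := 0) (c := 1) (cn := .npn) (n1 := ndB4q1) (n2 := ndB4q0) (pc := pcB1) (cut := Cut.none) (xt := Ext.none) (P1 := 536870912) (W1 := 536870912) (P2 := 0) (W2 := 536870912) (P3 := 587336777) (W3 := 62277027) (N0 := 3) (En := eng) (mo := mog) (C1 := cd4q1) (C2 := cd4q0) (C3 := pd1)
    rfl (fun _ => rfl) k0_pm_101

noncomputable def f_pm_102 : ℕ → ℕ → ℕ → ℕ → Bool := onCell 536870912 536870912 1073741824 536870912 587336777 62277027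
    (rowB 3 eng mog cd4q1 cd4q0 pd2 1 true true false .npp 1 0 2 (qsf 536870912 536870912 0 536870912 2) ndB4q1 ndB4q0 pcB2 Cut.none Ext.none)

def k0_pm_102 : ∃ t, chk3 f_pm_102 t 1 1 1 = true :=
  ⟨(b (b (b (l 3) (a (l 3) (a (l 3) (l 3)))) (b (b (b (a (l 3) (a (l 3) (a (l 3) (b (l 3) (l 16437368))))) (a (b (l 3) (a (l 2) (b (l 16600144) (b (l 16599752) (l 16599472))))) (b (a (a (l 3) (l 16501784)) (a (l 16462704) (l 16424360))) (a (b (a (l 16540816) (l 16496920)) (b (a (l 16539264) (l 16494584)) (l 16517288))) (b (a (l 16455840) (l 16415000)) (a (b (l 16452792) (l 16451536)) (b (l 16410640) (l 16408144)))))))) (a (a (l 2) (l 16597488)) (a (a (l 16532984) (l 16483952)) (a (l 16436112) (l 16385312))))) (a (a (l 2) (l 16599440)) (a (a (l 16525280) (l 16466936)) (a (l 16406040) (l 16336736)))))) (a (a (l 2) (b (l 16635032) (l 2))) (a (b (a (l 16548880) (l 16479040)) (l 16623672)) (b (a (l 16403200) (b (l 16308840) (l 16320344))) (l 16446464))))),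 by decide +kernel⟩

theorem c_pm_102 : CertB 536870912 536870912 0 536870912 587336777 62277027 3 eng mog cd4q1 cd4q0 pd2 true true false .npp 1 0 2
    ndB4q1 ndB4q0 pcB2 Cut.none Ext.none :=
  certB1 (fam := true) (s1 := true) (s2 := false) (a := 1) (b := 0) (c := 2) (cn := .npp) (n1 := ndB4q1) (n2 := ndB4q0) (pc := pcB2) (cut := Cut.none) (xt := Ext.none) (P1 := 536870912) (W1 := 536870912) (P2 := 0) (W2 := 536870912) (P3 := 587336777) (W3 := 62277027) (N0 := 3) (En := eng) (mo := mog) (C1 := cd4q1) (C2 := cd4q0) (C3 := pd2)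
    rfl (fun _ => rfl) k0_pm_102

noncomputable def f_pm_112 : ℕ → ℕ → ℕ → ℕ → Bool := onCell 536870912 536870912 1073741824 536870912 587336777 62277027
    (rowB 3 eng mog cd4q1 cd4q1 pd2 1 true true false .dn 1 1 2 (qsf 536870912 536870912 536870912 536870912 2) ndB4q1 ndB4q1 pcB2 Cut.none Ext.none)

def k0_pm_112 : ∃ t, chk3 f_pm_112 t 1 1 1 = true :=
  ⟨(a (b (b (l 3) (b (b (b (l 3) (b (l 3) (a (b (l 3) (b (l 16591920) (l 16591680))) (b (l 16568176) (b (l 16568312) (l 16568400)))))) (a (l 16590192) (l 16569704))) (a (l 16591288) (l 16581272)))) (a (b (l 16624528) (l 16752216)) (b (l 16651216) (l 16895616)))) (b (b (l 1) (b (l 1) (a (l 419866573879) (l 1)))) (b (a (l 391949372599) (l 479995516903)) (a (l 16840088) (l 16647280))))), by decide +kernel⟩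

theorem c_pm_112 : CertB 536870912 536870912 536870912 536870912 587336777 62277027 3 eng mog cd4q1 cd4q1 pd2 true true false .dn 1 1 2
    ndB4q1 ndB4q1 pcB2 Cut.none Ext.none :=
  certB1 (fam := true) (s1 := true) (s2 := false) (a := 1) (b := 1) (c := 2) (cn := .dn) (n1 := ndB4q1) (n2 := ndB4q1) (pc := pcB2) (cut := Cut.none) (xt := Ext.none) (P1 := 536870912) (W1 := 536870912) (P2 := 536870912) (W2 := 536870912) (P3 := 587336777) (W3 := 62277027) (N0 := 3) (En := eng) (mo := mog) (C1 := cd4q1) (C2 := cd4q1) (C3 := pd2)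
    rfl (fun _ => rfl) k0_pm_112

noncomputable def f_pm_113 : ℕ → ℕ → ℕ → ℕ → Bool := onCell 1610612736 536870912 536870912 536870912 587336777 62277027
    (rowB 3 eng mog cd4q1 cd4q1 pd3 2 true true false .nn 1 1 3 (qsf 536870912 536870912 536870912 536870912 3) ndB4q1 ndB4q1 pcB3 Cut.none Ext.none)

def k0_pm_113 : ∃ t, chk3 f_pm_113 t 1 1 1 = true :=
  ⟨(a (b (b (a (l 17006216) (l 16967344)) (l 17267016)) (b (l 17515464) (l 17244840))) (b (a (b (l 2) (l 17002912)) (l 2)) (a (l 17183832) (a (l 16958168) (a (l 16852464) (a (l 16800472) (b (l 2) (l 16776208)))))))), by decide +kernel⟩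

theorem c_pm_113 : CertB 536870912 536870912 536870912 536870912 587336777 62277027 3 eng mog cd4q1 cd4q1 pd3 true true false .nn 1 1 3
    ndB4q1 ndB4q1 pcB3 Cut.none Ext.none :=
  certB2 (fam := true) (s1 := true) (s2 := false) (a := 1) (b := 1) (c := 3) (cn := .nn) (n1 := ndB4q1) (n2 := ndB4q1) (pc := pcB3) (cut := Cut.none) (xt := Ext.none) (P1 := 536870912) (W1 := 536870912) (P2 := 536870912) (W2 := 536870912) (P3 := 587336777) (W3 := 62277027) (N0 := 3) (En := eng) (mo := mog) (C1 := cd4q1) (C2 := cd4q1) (C3 := pd3)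
    rfl (fun _ => rfl) k0_pm_113

noncomputable def f_pm_123_a : ℕ → ℕ → ℕ → ℕ → Bool := onCell 1610612736 536870912 0 536870912 587336777 62277027
    (rowB 3 eng mog cd4q1 cd4q2a pd3 2 true true false .npn 1 2 3 (qsf 536870912 536870912 0 536870912 3) ndB4q1 ndB4q2a pcB3 Cut.none Ext.none)

def k0_pm_123_a : ∃ t, chk3 f_pm_123_a t 1 1 1 = true :=
  ⟨(a (a (a (b (l 1) (a (l 16892632) (l 16979128))) (b (l 16863472) (l 16984848))) (a (b (l 16825928) (l 16895544)) (b (l 16761464) (l 16823672)))) (a (a (b (l 4) (l 67881076871)) (l 4)) (l 4))), by decide +kernel⟩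

theorem c_pm_123_a : CertB 536870912 536870912 0 536870912 587336777 62277027 3 eng mog cd4q1 cd4q2a pd3 true true false .npn 1 2 3
    ndB4q1 ndB4q2a pcB3 Cut.none Ext.none :=
  certB2 (fam := true) (s1 := true) (s2 := false) (a := 1) (b := 2) (c := 3) (cn := .npn) (n1 := ndB4q1) (n2 := ndB4q2a) (pc := pcB3) (cut := Cut.none) (xt := Ext.none) (P1 := 536870912) (W1 := 536870912) (P2 := 0) (W2 := 536870912) (P3 := 587336777) (W3 := 62277027) (N0 := 3) (En := eng) (mo := mog) (C1 := cd4q1) (C2 := cd4q2a) (C3 := pd3)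
    rfl (fun _ => rfl) k0_pm_123_a

noncomputable def f_pm_123_b : ℕ → ℕ → ℕ → ℕ → Bool := onCell 1610612736 536870912 1239849684 370763052 587336777 62277027
    (rowB 3 eng mog cd4q1 cd4q2b pd3 2 true true false .npn 1 2 3 (qsf 536870912 536870912 1239849684 370763052 3) ndB4q1 ndB4q2b pcB3 Cut.none Ext.none)

def k0_pm_123_b : ∃ t, chk3 f_pm_123_b t 1 1 1 = true :=
  ⟨(a (a (l 1) (b (a (l 16736424) (l 16701160)) (l 1))) (l 4)), by decide +kernel⟩

theorem c_pm_123_b : CertB 536870912 536870912 1239849684 370763052 587336777 62277027 3 eng mog cd4q1 cd4q2b pd3 true true false .npn 1 2 3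
    ndB4q1 ndB4q2b pcB3 Cut.none Ext.none :=
  certB2 (fam := true) (s1 := true) (s2 := false) (a := 1) (b := 2) (c := 3) (cn := .npn) (n1 := ndB4q1) (n2 := ndB4q2b) (pc := pcB3) (cut := Cut.none) (xt := Ext.none) (P1 := 536870912) (W1 := 536870912) (P2 := 1239849684) (W2 := 370763052) (P3 := 587336777) (W3 := 62277027) (N0 := 3) (En := eng) (mo := mog) (C1 := cd4q1) (C2 := cd4q2b) (C3 := pd3)
    rfl (fun _ => rfl) k0_pm_123_b

noncomputable def f_pm_133 : ℕ → ℕ → ℕ → ℕ → Bool := onCell 536870912 536870912 1610612736 536870912 587336777 62277027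
    (rowB 3 eng mog cd4q1 cd4q3 pd3 0 true true false .dn 1 3 3 (qsf 536870912 536870912 1610612736 536870912 3) ndB4q1 ndB4q3 pcB3 Cut.none Ext.none)

def k0_pm_133 : ∃ t, chk3 f_pm_133 t 1 1 1 = true :=
  ⟨(l 4), by decide +kernel⟩

theorem c_pm_133 : CertB 536870912 536870912 1610612736 536870912 587336777 62277027 3 eng mog cd4q1 cd4q3 pd3 true true false .dn 1 3 3
    ndB4q1 ndB4q3 pcB3 Cut.none Ext.none :=
  certB0 (fam := true) (s1 := true) (s2 := false) (a := 1) (b := 3) (c := 3) (cn := .dn) (n1 := ndB4q1) (n2 := ndB4q3) (pc := pcB3) (cut := Cut.none) (xt := Ext.none) (P1 := 536870912) (W1 := 536870912) (P2 := 1610612736) (W2 := 536870912) (P3 := 587336777) (W3 := 62277027) (N0 := 3) (En := eng) (mo := mog) (C1 := cd4q1) (C2 := cd4q3) (C3 := pd3)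
    rfl k0_pm_133

noncomputable def cut_pm_202_a : Cut := Cut.of [[⟨0, 1, 0, 67108864⟩, ⟨1, 0, 0, 67108864⟩, ⟨2, 1, 0, 67108864⟩]]

noncomputable def f_pm_202_a : ℕ → ℕ → ℕ → ℕ → Bool := onCell 0 536870912 1073741824 536870912 587336777 62277027
    (rowB 3 eng mog cd4q2a cd4q0 pd2 1 true true false .pp 2 0 2 (qsf 0 536870912 0 536870912 2) ndB4q2a ndB4q0 pcB2 cut_pm_202_a Ext.none)

def k0_pm_202_a : ∃ t, chk3 f_pm_202_a t 4 1 1 = true :=
  ⟨(b (b (l 1) (b (b (b (l 1) (b (a (l 1) (a (l 1) (b (l 1) (c (l 566968635479) (l 577706046439))))) (b (a (l 1) (a (c (l 591127815671) (l 654478536263)) (c (l 634077539847) (l 16455824)))) (a (b (a (c (l 1935989462663) (a (l 1) (l 1346505126583))) (c (l 609381468535) (l 394633010263))) (b (b (b (a (c (l 16466088) (l 1862438066807)) (l 16456200)) (b (a (c (l 16466128) (a (l 16442064) (l 16442752))) (l 16456216)) (a (c (a (l 16466032) (l 16466280)) (a (c (l 16448016) (l 16436096)) (l 16442728))) (c (l 16467576)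 (l 16444856))))) (a (c (l 16466176) (l 16442488)) (l 16456240))) (a (c (l 16466152) (l 16442648)) (l 16456288)))) (b (a (c (l 16470616) (l 16449352)) (l 16465816)) (a (c (l 16470600) (b (l 16470360) (l 16449520))) (l 16465752))))))) (b (a (b (a (c (l 16465952) (l 16443568)) (l 16456504)) (l 16456088)) (b (a (l 16460120) (l 16465528)) (l 16462560))) (a (l 16456440) (l 16461760)))) (b (a (l 16456408) (l 16459224)) (l 16453624)))) (b (b (l 16452032) (l 16482568)) (l 16536296))), by decide +kernel⟩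

def k1_pm_202_a : ∃ t, chk3 f_pm_202_a t 5 1 1 = true :=
  ⟨(b (a (b (l 1) (b (b (b (b (l 1) (c (a (l 515429044663) (l 566431799111)) (a (l 508986552487) (l 569652988279)))) (b (c (a (b (l 576095455863) (l 632466933063)) (b (l 16492184) (l 16491256))) (a (l 560526204775) (l 16475312))) (b (a (l 16473584) (l 16482952)) (b (l 16478096) (l 16498824))))) (b (l 16476584) (l 16473464))) (l 16462368))) (b (b (l 1) (b (l 1) (b (l 1) (a (l 1) (b (l 1) (a (l 514892244055) (l 566431866967))))))) (b (b (b (a (c (b (l 554083814023) (l 623340174263)) (b (l 551399404375) (l 614213333591))) (b (a (l 612602774231) (l 16515296)) (l 16509936))) (b (a (l 16495104) (l 16507928)) (b (l 16500272) (b (l 16499472) (l 16498920))))) (b (l 16496224) (l 16490280))) (l 16480176)))) (b (b (l 16479864) (l 16505048)) (l 16552744))), by decide +kernel⟩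

def k2_pm_202_a : ∃ t, chk3 f_pm_202_a t 3 4 1 = true :=
  ⟨(b (a (l 1) (b (a (l 1) (l 6)) (b (a (a (l 1) (l 6)) (l 6)) (b (a (a (l 1) (l 6)) (l 6)) (a (a (a (l 1) (b (a (l 1) (l 6)) (a (l 497712613767) (l 16646096)))) (a (b (l 6) (a (l 16653088) (l 16660136))) (l 16671816))) (a (l 16683176) (l 16691616))))))) (a (b (a (l 1) (b (a (l 1) (b (l 1) (a (b (l 1) (l 456373471447)) (b (l 496101988215) (l 534219800615))))) (a (b (a (l 1) (b (l 1) (l 475700795895))) (a (b (l 1) (l 505228669271)) (b (l 510597402823) (l 16581528)))) (b (a (b (l 486438240071) (l 553547124423)) (b (l 16609048) (l 16607576))) (a (l 16593568) (l 16605248)))))) (a (b (a (b (l 1) (a (l 1) (l 488048733319))) (b (a (l 1) (b (l 476774487783) (l 514355449607))) (a (l 544420197879) (l 592201762311)))) (a (b (a (l 525629676183) (l 575558726775)) (a (l 615287157383) (l 16533392))) (b (a (l 16544480) (l 16553904)) (l 16546752)))) (b (a (b (a (b (l 549252106071) (l 16568264)) (l 16579592))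 (a (l 16566376) (l 16576744))) (a (b (l 16590632) (l 16587352)) (l 16600056))) (a (b (l 16568656) (l 16565328)) (l 16585408))))) (b (a (b (a (a (b (b (a (l 1) (l 503081306295)) (a (l 510597482903) (l 16629384))) (b (l 16645600) (l 16623096))) (b (a (b (l 16637632) (l 16636056)) (l 16643632)) (a (l 16633584) (l 16640144)))) (a (b (a (l 16650464) (l 16657336)) (l 16650072)) (l 16661176))) (a (a (b (b (l 16621496) (l 16619824)) (l 16617152)) (l 16631264)) (l 16640752))) (a (b (l 16689856) (l 16651192)) (b (l 16677408) (l 16659992)))) (a (a (b (l 16612720) (l 16598632)) (l 16638568)) (a (l 16628232) (l 16637800)))))), by decide +kernel⟩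

def k3_pm_202_a : ∃ t, chk3 f_pm_202_a t 3 5 1 = true :=
  ⟨(b (a (b (b (a (a (b (l 16527152) (l 16524760)) (l 16542352)) (l 16566768)) (a (b (l 16529840) (a (l 16581768) (l 16532936))) (b (l 16559008) (l 16554640)))) (a (l 16517440) (l 16545464))) (b (b (a (a (l 16586504) (l 16598664)) (l 16615448)) (a (b (l 16585272) (b (l 16581856) (l 16579896))) (b (l 16608488) (b (l 16605536) (l 16603848))))) (a (l 16571920) (l 16723392)))) (a (a (l 16506632) (l 16576016)) (a (l 16561528) (l 16592144)))), by decide +kernel⟩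

def k4_pm_202_a : ∃ t, chk3 f_pm_202_a t 3 3 1 = true :=
  ⟨(b (a (b (a (l 16512592) (l 16539176)) (l 16654664)) (b (a (l 16569184) (l 16608512)) (b (l 16612352) (l 16627648)))) (a (b (l 16577448) (l 16617480)) (b (l 16653608) (l 16694680)))), by decide +kernel⟩

theorem s5_pm_202_a : ∃ t, chk3 f_pm_202_a t 3 2 1 = true := ex3_b k2_pm_202_a k3_pm_202_a

theorem s6_pm_202_a : ∃ t, chk3 f_pm_202_a t 3 1 1 = true := ex3_b s5_pm_202_a k4_pm_202_a

theorem s7_pm_202_a : ∃ t, chk3 f_pm_202_a t 2 1 1 = true := ex3_a k0_pm_202_a k1_pm_202_a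

theorem s8_pm_202_a : ∃ t, chk3 f_pm_202_a t 1 1 1 = true := ex3_a s7_pm_202_a s6_pm_202_a

theorem c_pm_202_a : CertB 0 536870912 0 536870912 587336777 62277027 3 eng mog cd4q2a cd4q0 pd2 true true false .pp 2 0 2
    ndB4q2a ndB4q0 pcB2 cut_pm_202_a Ext.none :=
  certB1 (fam := true) (s1 := true) (s2 := false) (a := 2) (b := 0) (c := 2) (cn := .pp) (n1 := ndB4q2a) (n2 := ndB4q0) (pc := pcB2) (cut := cut_pm_202_a) (xt := Ext.none) (P1 := 0) (W1 := 536870912) (P2 := 0) (W2 := 536870912) (P3 := 587336777) (W3 := 62277027) (N0 := 3) (En := eng) (mo := mog) (C1 := cd4q2a) (C2 := cd4q0) (C3 := pd2)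
    rfl (fun _ => rfl) s8_pm_202_a

noncomputable def cut_pm_202_b : Cut := Cut.of [[⟨0, 1, 0, 67108864⟩, ⟨1, 0, 0, 67108864⟩, ⟨2, 1, 0, 67108864⟩]]

noncomputable def f_pm_202_b : ℕ → ℕ → ℕ → ℕ → Bool := onCell 1239849684 370763052 0 536870912 587336777 62277027
    (rowB 3 eng mog cd4q2b cd4q0 pd2 0 true true false .pp 2 0 2 (qsf 1239849684 370763052 0 536870912 2) ndB4q2b ndB4q0 pcB2 cut_pm_202_b Ext.none)

def k0_pm_202_b : ∃ t, chk3 f_pm_202_b t 1 1 1 = true :=
  ⟨(b (a (b (a (b (b (b (a (a (b (b (a (b (c (l 16457608) (a (l 16437344) (l 16427984))) (l 16445368)) (c (l 16441712) (a (l 16419072) (l 16410096)))) (a (l 16445712) (l 16428944))) (a (l 16446392) (l 16430096))) (b (a (c (l 16428088) (l 16397872)) (c (l 16415528) (l 16382016))) (l 16408152))) (a (b (a (c (l 16425168) (l 16367488)) (c (l 16394056) (l 16354256))) (l 16383248)) (b (c (a (l 16385080) (l 16377256)) (l 16336784)) (l 16363160)))) (a (l 16425056) (l 16377944))) (a (l 16429664)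 (l 16388512))) (b (a (l 16433752) (l 16401104)) (a (l 16434352) (l 16415936)))) (b (b (b (a (b (a (b (c (l 16366664) (l 16316480)) (l 16344240)) (b (c (l 16358064) (l 16302256)) (l 16333184))) (l 16341824)) (c (b (a (l 16356992) (l 16359392)) (l 16363056)) (b (a (l 16294856) (b (l 16288800) (l 16292256))) (l 16299032)))) (a (l 16349288) (l 16341864))) (a (l 16364704) (b (l 16356912) (l 16373704)))) (b (a (l 16388376) (l 16403280)) (l 16427880)))) (a (b (a (l 16497016) (l 16443840)) (l 16460232)) (b (l 16479944) (l 16544736)))) (b (b (a (b (b (a (a (c (l 16374480) (l 16298072)) (a (l 16347800) (l 16356984))) (a (b (l 16366128) (l 16376112)) (l 16364336))) (a (l 16362616) (l 16400184))) (a (l 16394368) (l 16434456))) (b (b (a (a (l 16404120) (l 16425408)) (l 16461568)) (l 16458640)) (l 16492296))) (a (l 16668376) (l 16558184))) (a (b (l 16563400) (l 2)) (l 2)))) (a (b (a (b (l 16473624) (a (l 16570936) (l 2))) (b (a (l 16572576) (l 2)) (l 2)))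 (l 2)) (l 2))), by decide +kernel⟩

theorem c_pm_202_b : CertB 1239849684 370763052 0 536870912 587336777 62277027 3 eng mog cd4q2b cd4q0 pd2 true true false .pp 2 0 2
    ndB4q2b ndB4q0 pcB2 cut_pm_202_b Ext.none :=
  certB0 (fam := true) (s1 := true) (s2 := false) (a := 2) (b := 0) (c := 2) (cn := .pp) (n1 := ndB4q2b) (n2 := ndB4q0) (pc := pcB2) (cut := cut_pm_202_b) (xt := Ext.none) (P1 := 1239849684) (W1 := 370763052) (P2 := 0) (W2 := 536870912) (P3 := 587336777) (W3 := 62277027) (N0 := 3) (En := eng) (mo := mog) (C1 := cd4q2b) (C2 := cd4q0) (C3 := pd2)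
    rfl k0_pm_202_b

noncomputable def f_pm_203_a : ℕ → ℕ → ℕ → ℕ → Bool := onCell 0 536870912 1610612736 536870912 587336777 62277027
    (rowB 3 eng mog cd4q2a cd4q0 pd3 1 true true false .up 2 0 3 (qsf 0 536870912 0 536870912 3) ndB4q2a ndB4q0 pcB3 Cut.none Ext.none)

def k0_pm_203_a : ∃ t, chk3 f_pm_203_a t 1 1 1 = true :=
  ⟨(b (b (b (a (l 16793040) (b (l 16702608) (l 16769768))) (a (l 16740448) (l 16847296))) (b (a (l 16819952) (l 16879688)) (l 261557366615))) (l 2)), by decide +kernel⟩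

theorem c_pm_203_a : CertB 0 536870912 0 536870912 587336777 62277027 3 eng mog cd4q2a cd4q0 pd3 true true false .up 2 0 3
    ndB4q2a ndB4q0 pcB3 Cut.none Ext.none :=
  certB1 (fam := true) (s1 := true) (s2 := false) (a := 2) (b := 0) (c := 3) (cn := .up) (n1 := ndB4q2a) (n2 := ndB4q0) (pc := pcB3) (cut := Cut.none) (xt := Ext.none) (P1 := 0) (W1 := 536870912) (P2 := 0) (W2 := 536870912) (P3 := 587336777) (W3 := 62277027) (N0 := 3) (En := eng) (mo := mog) (C1 := cd4q2a) (C2 := cd4q0) (C3 := pd3)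
    rfl (fun _ => rfl) k0_pm_203_a

noncomputable def f_pm_203_b : ℕ → ℕ → ℕ → ℕ → Bool := onCell 1239849684 370763052 1610612736 536870912 587336777 62277027
    (rowB 3 eng mog cd4q2b cd4q0 pd3 1 true true false .up 2 0 3 (qsf 1239849684 370763052 0 536870912 3) ndB4q2b ndB4q0 pcB3 Cut.none Ext.none)

def k0_pm_203_b : ∃ t, chk3 f_pm_203_b t 1 1 1 = true :=
  ⟨(b (b (b (b (a (a (l 16512728) (l 16551040)) (a (l 16541192) (a (l 16505960) (b (l 16512376) (l 16458224))))) (a (l 16515392) (a (l 16553400) (l 16489144)))) (a (a (l 16674088) (l 16576304)) (a (l 16599064) (l 16541248)))) (b (a (l 16689552) (a (l 16662296) (l 16618000))) (a (l 16741616) (l 16729968)))) (l 4)), by decide +kernel⟩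

theorem c_pm_203_b : CertB 1239849684 370763052 0 536870912 587336777 62277027 3 eng mog cd4q2b cd4q0 pd3 true true false .up 2 0 3
    ndB4q2b ndB4q0 pcB3 Cut.none Ext.none :=
  certB1 (fam := true) (s1 := true) (s2 := false) (a := 2) (b := 0) (c := 3) (cn := .up) (n1 := ndB4q2b) (n2 := ndB4q0) (pc := pcB3) (cut := Cut.none) (xt := Ext.none) (P1 := 1239849684) (W1 := 370763052) (P2 := 0) (W2 := 536870912) (P3 := 587336777) (W3 := 62277027) (N0 := 3) (En := eng) (mo := mog) (C1 := cd4q2b) (C2 := cd4q0) (C3 := pd3)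
    rfl (fun _ => rfl) k0_pm_203_b

noncomputable def f_pm_213_a : ℕ → ℕ → ℕ → ℕ → Bool := onCell 0 536870912 1610612736 536870912 587336777 62277027
    (rowB 3 eng mog cd4q2a cd4q1 pd3 1 true true false .pnn 2 1 3 (qsf 0 536870912 536870912 536870912 3) ndB4q2a ndB4q1 pcB3 Cut.none Ext.none)

def k0_pm_213_a : ∃ t, chk3 f_pm_213_a t 1 1 1 = true :=
  ⟨(a (b (b (b (l 1) (l 16863472)) (b (l 16825928) (l 16761464))) (l 4)) (b (b (b (b (l 16892616) (l 16979112)) (l 16984840)) (b (l 16895512) (l 16823600))) (b (b (b (l 16773048) (l 4)) (l 4)) (l 4)))), by decide +kernel⟩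

theorem c_pm_213_a : CertB 0 536870912 536870912 536870912 587336777 62277027 3 eng mog cd4q2a cd4q1 pd3 true true false .pnn 2 1 3
    ndB4q2a ndB4q1 pcB3 Cut.none Ext.none :=
  certB1 (fam := true) (s1 := true) (s2 := false) (a := 2) (b := 1) (c := 3) (cn := .pnn) (n1 := ndB4q2a) (n2 := ndB4q1) (pc := pcB3) (cut := Cut.none) (xt := Ext.none) (P1 := 0) (W1 := 536870912) (P2 := 536870912) (W2 := 536870912) (P3 := 587336777) (W3 := 62277027) (N0 := 3) (En := eng) (mo := mog) (C1 := cd4q2a) (C2 := cd4q1) (C3 := pd3)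
    rfl (fun _ => rfl) k0_pm_213_a

noncomputable def f_pm_213_b : ℕ → ℕ → ℕ → ℕ → Bool := onCell 1239849684 370763052 1610612736 536870912 587336777 62277027
    (rowB 3 eng mog cd4q2b cd4q1 pd3 1 true true false .pnn 2 1 3 (qsf 1239849684 370763052 536870912 536870912 3) ndB4q2b ndB4q1 pcB3 Cut.none Ext.none)

def k0_pm_213_b : ∃ t, chk3 f_pm_213_b t 1 1 1 = true :=
  ⟨(b (a (b (l 1) (b (l 16736424) (l 16701160))) (l 1)) (l 4)), by decide +kernel⟩

theorem c_pm_213_b : CertB 1239849684 370763052 536870912 536870912 587336777 62277027 3 eng mog cd4q2b cd4q1 pd3 true true false .pnn 2 1 3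
    ndB4q2b ndB4q1 pcB3 Cut.none Ext.none :=
  certB1 (fam := true) (s1 := true) (s2 := false) (a := 2) (b := 1) (c := 3) (cn := .pnn) (n1 := ndB4q2b) (n2 := ndB4q1) (pc := pcB3) (cut := Cut.none) (xt := Ext.none) (P1 := 1239849684) (W1 := 370763052) (P2 := 536870912) (W2 := 536870912) (P3 := 587336777) (W3 := 62277027) (N0 := 3) (En := eng) (mo := mog) (C1 := cd4q2b) (C2 := cd4q1) (C3 := pd3)
    rfl (fun _ => rfl) k0_pm_213_b

noncomputable def f_pm_303 : ℕ → ℕ → ℕ → ℕ → Bool := onCell 1610612736 536870912 0 536870912 587336777 62277027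
    (rowB 3 eng mog cd4q3 cd4q0 pd3 2 true true false .npn 3 0 3 (qsf 1610612736 536870912 0 536870912 3) ndB4q3 ndB4q0 pcB3 Cut.none Ext.none)

def k0_pm_303 : ∃ t, chk3 f_pm_303 t 1 1 1 = true :=
  ⟨(a (a (b (a (b (a (b (b (a (l 16441448) (l 16363736)) (l 16421728)) (l 1)) (b (l 16361944) (l 16425264))) (l 1)) (b (b (a (l 16369472) (l 16395440)) (l 16427088)) (l 16522704))) (l 1)) (b (a (b (b (a (l 16417504) (l 16440184)) (l 16470032)) (l 16540064)) (b (b (l 16482736) (l 16528160)) (l 16598536))) (a (l 1) (l 16723304)))) (a (b (a (b (a (l 16542640) (l 4)) (l 4)) (l 4)) (l 4)) (l 4))), by decide +kernel⟩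

theorem c_pm_303 : CertB 1610612736 536870912 0 536870912 587336777 62277027 3 eng mog cd4q3 cd4q0 pd3 true true false .npn 3 0 3
    ndB4q3 ndB4q0 pcB3 Cut.none Ext.none :=
  certB2 (fam := true) (s1 := true) (s2 := false) (a := 3) (b := 0) (c := 3) (cn := .npn) (n1 := ndB4q3) (n2 := ndB4q0) (pc := pcB3) (cut := Cut.none) (xt := Ext.none) (P1 := 1610612736) (W1 := 536870912) (P2 := 0) (W2 := 536870912) (P3 := 587336777) (W3 := 62277027) (N0 := 3) (En := eng) (mo := mog) (C1 := cd4q3) (C2 := cd4q0) (C3 := pd3)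
    rfl (fun _ => rfl) k0_pm_303

noncomputable def f_pm_313 : ℕ → ℕ → ℕ → ℕ → Bool := onCell 1610612736 536870912 536870912 536870912 587336777 62277027
    (rowB 3 eng mog cd4q3 cd4q1 pd3 0 true true false .dn 3 1 3 (qsf 1610612736 536870912 536870912 536870912 3) ndB4q3 ndB4q1 pcB3 Cut.none Ext.none)

def k0_pm_313 : ∃ t, chk3 f_pm_313 t 1 1 1 = true :=
  ⟨(l 4), by decide +kernel⟩

theorem c_pm_313 : CertB 1610612736 536870912 536870912 536870912 587336777 62277027 3 eng mog cd4q3 cd4q1 pd3 true true false .dn 3 1 3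
    ndB4q3 ndB4q1 pcB3 Cut.none Ext.none :=
  certB0 (fam := true) (s1 := true) (s2 := false) (a := 3) (b := 1) (c := 3) (cn := .dn) (n1 := ndB4q3) (n2 := ndB4q1) (pc := pcB3) (cut := Cut.none) (xt := Ext.none) (P1 := 1610612736) (W1 := 536870912) (P2 := 536870912) (W2 := 536870912) (P3 := 587336777) (W3 := 62277027) (N0 := 3) (En := eng) (mo := mog) (C1 := cd4q3) (C2 := cd4q1) (C3 := pd3)
    rfl k0_pm_313

noncomputable def f_mm_001 : ℕ → ℕ → ℕ → ℕ → Bool := onCell 0 536870912 0 536870912 587336777 62277027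
    (rowB 3 eng mog cd4q0 cd4q0 pd1 0 true false false .up 0 0 1 (qsf 0 536870912 0 536870912 1) ndB4q0 ndB4q0 pcB1 Cut.none Ext.none)

def k0_mm_001 : ∃ t, chk3 f_mm_001 t 1 1 1 = true :=
  ⟨(l 4), by decide +kernel⟩

theorem c_mm_001 : CertB 0 536870912 0 536870912 587336777 62277027 3 eng mog cd4q0 cd4q0 pd1 true false false .up 0 0 1
    ndB4q0 ndB4q0 pcB1 Cut.none Ext.none :=
  certB0 (fam := true) (s1 := false) (s2 := false) (a := 0) (b := 0) (c := 1) (cn := .up) (n1 := ndB4q0) (n2 := ndB4q0) (pc := pcB1) (cut := Cut.none) (xt := Ext.none) (P1 := 0) (W1 := 536870912) (P2 := 0) (W2 := 536870912) (P3 := 587336777) (W3 := 62277027) (N0 := 3) (En := eng) (mo := mog) (C1 := cd4q0) (C2 := cd4q0) (C3 := pd1)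
    rfl k0_mm_001

noncomputable def f_mm_011 : ℕ → ℕ → ℕ → ℕ → Bool := onCell 0 536870912 536870912 536870912 587336777 62277027
    (rowB 3 eng mog cd4q0 cd4q1 pd1 0 true false false .pnn 0 1 1 (qsf 0 536870912 536870912 536870912 1) ndB4q0 ndB4q1 pcB1 Cut.none Ext.none)

def k0_mm_011 : ∃ t, chk3 f_mm_011 t 1 1 1 = true :=
  ⟨(l 4), by decide +kernel⟩

theorem c_mm_011 : CertB 0 536870912 536870912 536870912 587336777 62277027 3 eng mog cd4q0 cd4q1 pd1 true false false .pnn 0 1 1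
    ndB4q0 ndB4q1 pcB1 Cut.none Ext.none :=
  certB0 (fam := true) (s1 := false) (s2 := false) (a := 0) (b := 1) (c := 1) (cn := .pnn) (n1 := ndB4q0) (n2 := ndB4q1) (pc := pcB1) (cut := Cut.none) (xt := Ext.none) (P1 := 0) (W1 := 536870912) (P2 := 536870912) (W2 := 536870912) (P3 := 587336777) (W3 := 62277027) (N0 := 3) (En := eng) (mo := mog) (C1 := cd4q0) (C2 := cd4q1) (C3 := pd1)
    rfl k0_mm_011

noncomputable def f_mm_012 : ℕ → ℕ → ℕ → ℕ → Bool := onCell 0 536870912 536870912 536870912 587336777 62277027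
    (rowB 3 eng mog cd4q0 cd4q1 pd2 0 true false false .pnp 0 1 2 (qsf 0 536870912 536870912 536870912 2) ndB4q0 ndB4q1 pcB2 Cut.none Ext.none)

def k0_mm_012 : ∃ t, chk3 f_mm_012 t 1 1 1 = true :=
  ⟨(l 4), by decide +kernel⟩

theorem c_mm_012 : CertB 0 536870912 536870912 536870912 587336777 62277027 3 eng mog cd4q0 cd4q1 pd2 true false false .pnp 0 1 2
    ndB4q0 ndB4q1 pcB2 Cut.none Ext.none :=
  certB0 (fam := true) (s1 := false) (s2 := false) (a := 0) (b := 1) (c := 2) (cn := .pnp) (n1 := ndB4q0) (n2 := ndB4q1) (pc := pcB2) (cut := Cut.none) (xt := Ext.none) (P1 := 0) (W1 := 536870912) (P2 := 536870912) (W2 := 536870912) (P3 := 587336777) (W3 := 62277027) (N0 := 3) (En := eng) (mo := mog) (C1 := cd4q0) (C2 := cd4q1) (C3 := pd2)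
    rfl k0_mm_012

noncomputable def f_mm_022_a : ℕ → ℕ → ℕ → ℕ → Bool := onCell 0 536870912 0 536870912 587336777 62277027
    (rowB 3 eng mog cd4q0 cd4q2a pd2 0 true false false .pp 0 2 2 (qsf 0 536870912 0 536870912 2) ndB4q0 ndB4q2a pcB2 Cut.none Ext.none)

def k0_mm_022_a : ∃ t, chk3 f_mm_022_a t 1 1 1 = true :=
  ⟨(l 5), by decide +kernel⟩

theorem c_mm_022_a : CertB 0 536870912 0 536870912 587336777 62277027 3 eng mog cd4q0 cd4q2a pd2 true false false .pp 0 2 2
    ndB4q0 ndB4q2a pcB2 Cut.none Ext.none :=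
  certB0 (fam := true) (s1 := false) (s2 := false) (a := 0) (b := 2) (c := 2) (cn := .pp) (n1 := ndB4q0) (n2 := ndB4q2a) (pc := pcB2) (cut := Cut.none) (xt := Ext.none) (P1 := 0) (W1 := 536870912) (P2 := 0) (W2 := 536870912) (P3 := 587336777) (W3 := 62277027) (N0 := 3) (En := eng) (mo := mog) (C1 := cd4q0) (C2 := cd4q2a) (C3 := pd2)
    rfl k0_mm_022_a

noncomputable def f_mm_022_b : ℕ → ℕ → ℕ → ℕ → Bool := onCell 0 536870912 1239849684 370763052 587336777 62277027
    (rowB 3 eng mog cd4q0 cd4q2b pd2 0 true false false .pp 0 2 2 (qsf 0 536870912 1239849684 370763052 2) ndB4q0 ndB4q2b pcB2 Cut.none Ext.none)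

def k0_mm_022_b : ∃ t, chk3 f_mm_022_b t 1 1 1 = true :=
  ⟨(l 5), by decide +kernel⟩

theorem c_mm_022_b : CertB 0 536870912 1239849684 370763052 587336777 62277027 3 eng mog cd4q0 cd4q2b pd2 true false false .pp 0 2 2
    ndB4q0 ndB4q2b pcB2 Cut.none Ext.none :=
  certB0 (fam := true) (s1 := false) (s2 := false) (a := 0) (b := 2) (c := 2) (cn := .pp) (n1 := ndB4q0) (n2 := ndB4q2b) (pc := pcB2) (cut := Cut.none) (xt := Ext.none) (P1 := 0) (W1 := 536870912) (P2 := 1239849684) (W2 := 370763052) (P3 := 587336777) (W3 := 62277027) (N0 := 3) (En := eng) (mo := mog) (C1 := cd4q0) (C2 := cd4q2b) (C3 := pd2)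
    rfl k0_mm_022_b

noncomputable def f_mm_023_a : ℕ → ℕ → ℕ → ℕ → Bool := onCell 0 536870912 0 536870912 587336777 62277027
    (rowB 3 eng mog cd4q0 cd4q2a pd3 0 true false false .up 0 2 3 (qsf 0 536870912 0 536870912 3) ndB4q0 ndB4q2a pcB3 Cut.none Ext.none)

def k0_mm_023_a : ∃ t, chk3 f_mm_023_a t 1 1 1 = true :=
  ⟨(l 5), by decide +kernel⟩

theorem c_mm_023_a : CertB 0 536870912 0 536870912 587336777 62277027 3 eng mog cd4q0 cd4q2a pd3 true false false .up 0 2 3
    ndB4q0 ndB4q2a pcB3 Cut.none Ext.none :=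
  certB0 (fam := true) (s1 := false) (s2 := false) (a := 0) (b := 2) (c := 3) (cn := .up) (n1 := ndB4q0) (n2 := ndB4q2a) (pc := pcB3) (cut := Cut.none) (xt := Ext.none) (P1 := 0) (W1 := 536870912) (P2 := 0) (W2 := 536870912) (P3 := 587336777) (W3 := 62277027) (N0 := 3) (En := eng) (mo := mog) (C1 := cd4q0) (C2 := cd4q2a) (C3 := pd3)
    rfl k0_mm_023_a

noncomputable def f_mm_023_b : ℕ → ℕ → ℕ → ℕ → Bool := onCell 0 536870912 1239849684 370763052 587336777 62277027
    (rowB 3 eng mog cd4q0 cd4q2b pd3 0 true false false .up 0 2 3 (qsf 0 536870912 1239849684 370763052 3) ndB4q0 ndB4q2b pcB3 Cut.none Ext.none)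

def k0_mm_023_b : ∃ t, chk3 f_mm_023_b t 1 1 1 = true :=
  ⟨(l 5), by decide +kernel⟩

theorem c_mm_023_b : CertB 0 536870912 1239849684 370763052 587336777 62277027 3 eng mog cd4q0 cd4q2b pd3 true false false .up 0 2 3
    ndB4q0 ndB4q2b pcB3 Cut.none Ext.none :=
  certB0 (fam := true) (s1 := false) (s2 := false) (a := 0) (b := 2) (c := 3) (cn := .up) (n1 := ndB4q0) (n2 := ndB4q2b) (pc := pcB3) (cut := Cut.none) (xt := Ext.none) (P1 := 0) (W1 := 536870912) (P2 := 1239849684) (W2 := 370763052) (P3 := 587336777) (W3 := 62277027) (N0 := 3) (En := eng) (mo := mog) (C1 := cd4q0) (C2 := cd4q2b) (C3 := pd3)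
    rfl k0_mm_023_b

noncomputable def f_mm_033 : ℕ → ℕ → ℕ → ℕ → Bool := onCell 0 536870912 1610612736 536870912 587336777 62277027
    (rowB 3 eng mog cd4q0 cd4q3 pd3 0 true false false .pnn 0 3 3 (qsf 0 536870912 1610612736 536870912 3) ndB4q0 ndB4q3 pcB3 Cut.none Ext.none)

def k0_mm_033 : ∃ t, chk3 f_mm_033 t 1 1 1 = true :=
  ⟨(l 4), by decide +kernel⟩

theorem c_mm_033 : CertB 0 536870912 1610612736 536870912 587336777 62277027 3 eng mog cd4q0 cd4q3 pd3 true false false .pnn 0 3 3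
    ndB4q0 ndB4q3 pcB3 Cut.none Ext.none :=
  certB0 (fam := true) (s1 := false) (s2 := false) (a := 0) (b := 3) (c := 3) (cn := .pnn) (n1 := ndB4q0) (n2 := ndB4q3) (pc := pcB3) (cut := Cut.none) (xt := Ext.none) (P1 := 0) (W1 := 536870912) (P2 := 1610612736) (W2 := 536870912) (P3 := 587336777) (W3 := 62277027) (N0 := 3) (En := eng) (mo := mog) (C1 := cd4q0) (C2 := cd4q3) (C3 := pd3)
    rfl k0_mm_033

noncomputable def f_mm_101 : ℕ → ℕ → ℕ → ℕ → Bool := onCell 536870912 536870912 0 536870912 587336777 62277027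
    (rowB 3 eng mog cd4q1 cd4q0 pd1 0 true false false .npn 1 0 1 (qsf 536870912 536870912 0 536870912 1) ndB4q1 ndB4q0 pcB1 Cut.none Ext.none)

def k0_mm_101 : ∃ t, chk3 f_mm_101 t 1 1 1 = true :=
  ⟨(l 4), by decide +kernel⟩

theorem c_mm_101 : CertB 536870912 536870912 0 536870912 587336777 62277027 3 eng mog cd4q1 cd4q0 pd1 true false false .npn 1 0 1
    ndB4q1 ndB4q0 pcB1 Cut.none Ext.none :=
  certB0 (fam := true) (s1 := false) (s2 := false) (a := 1) (b := 0) (c := 1) (cn := .npn) (n1 := ndB4q1) (n2 := ndB4q0) (pc := pcB1) (cut := Cut.none) (xt := Ext.none) (P1 := 536870912) (W1 := 536870912) (P2 := 0) (W2 := 536870912) (P3 := 587336777) (W3 := 62277027) (N0 := 3) (En := eng) (mo := mog) (C1 := cd4q1) (C2 := cd4q0) (C3 := pd1)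
    rfl k0_mm_101

noncomputable def f_mm_102 : ℕ → ℕ → ℕ → ℕ → Bool := onCell 536870912 536870912 0 536870912 587336777 62277027
    (rowB 3 eng mog cd4q1 cd4q0 pd2 0 true false false .npp 1 0 2 (qsf 536870912 536870912 0 536870912 2) ndB4q1 ndB4q0 pcB2 Cut.none Ext.none)

def k0_mm_102 : ∃ t, chk3 f_mm_102 t 1 1 1 = true :=
  ⟨(l 4), by decide +kernel⟩

theorem c_mm_102 : CertB 536870912 536870912 0 536870912 587336777 62277027 3 eng mog cd4q1 cd4q0 pd2 true false false .npp 1 0 2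
    ndB4q1 ndB4q0 pcB2 Cut.none Ext.none :=
  certB0 (fam := true) (s1 := false) (s2 := false) (a := 1) (b := 0) (c := 2) (cn := .npp) (n1 := ndB4q1) (n2 := ndB4q0) (pc := pcB2) (cut := Cut.none) (xt := Ext.none) (P1 := 536870912) (W1 := 536870912) (P2 := 0) (W2 := 536870912) (P3 := 587336777) (W3 := 62277027) (N0 := 3) (En := eng) (mo := mog) (C1 := cd4q1) (C2 := cd4q0) (C3 := pd2)
    rfl k0_mm_102

noncomputable def f_mm_112 : ℕ → ℕ → ℕ → ℕ → Bool := onCell 536870912 536870912 536870912 536870912 587336777 62277027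
    (rowB 3 eng mog cd4q1 cd4q1 pd2 0 true false false .dn 1 1 2 (qsf 536870912 536870912 536870912 536870912 2) ndB4q1 ndB4q1 pcB2 Cut.none Ext.none)

def k0_mm_112 : ∃ t, chk3 f_mm_112 t 1 1 1 = true :=
  ⟨(l 4), by decide +kernel⟩

theorem c_mm_112 : CertB 536870912 536870912 536870912 536870912 587336777 62277027 3 eng mog cd4q1 cd4q1 pd2 true false false .dn 1 1 2
    ndB4q1 ndB4q1 pcB2 Cut.none Ext.none :=
  certB0 (fam := true) (s1 := false) (s2 := false) (a := 1) (b := 1) (c := 2) (cn := .dn) (n1 := ndB4q1) (n2 := ndB4q1) (pc := pcB2) (cut := Cut.none) (xt := Ext.none) (P1 := 536870912) (W1 := 536870912) (P2 := 536870912) (W2 := 536870912) (P3 := 587336777) (W3 := 62277027) (N0 := 3) (En := eng) (mo := mog) (C1 := cd4q1) (C2 := cd4q1) (C3 := pd2)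
    rfl k0_mm_112

noncomputable def f_mm_113 : ℕ → ℕ → ℕ → ℕ → Bool := onCell 536870912 536870912 536870912 536870912 587336777 62277027
    (rowB 3 eng mog cd4q1 cd4q1 pd3 0 true false false .nn 1 1 3 (qsf 536870912 536870912 536870912 536870912 3) ndB4q1 ndB4q1 pcB3 Cut.none Ext.none)

def k0_mm_113 : ∃ t, chk3 f_mm_113 t 1 1 1 = true :=
  ⟨(l 4), by decide +kernel⟩

theorem c_mm_113 : CertB 536870912 536870912 536870912 536870912 587336777 62277027 3 eng mog cd4q1 cd4q1 pd3 true false false .nn 1 1 3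
    ndB4q1 ndB4q1 pcB3 Cut.none Ext.none :=
  certB0 (fam := true) (s1 := false) (s2 := false) (a := 1) (b := 1) (c := 3) (cn := .nn) (n1 := ndB4q1) (n2 := ndB4q1) (pc := pcB3) (cut := Cut.none) (xt := Ext.none) (P1 := 536870912) (W1 := 536870912) (P2 := 536870912) (W2 := 536870912) (P3 := 587336777) (W3 := 62277027) (N0 := 3) (En := eng) (mo := mog) (C1 := cd4q1) (C2 := cd4q1) (C3 := pd3)
    rfl k0_mm_113

noncomputable def f_mm_123_a : ℕ → ℕ → ℕ → ℕ → Bool := onCell 536870912 536870912 0 536870912 587336777 62277027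
    (rowB 3 eng mog cd4q1 cd4q2a pd3 0 true false false .npn 1 2 3 (qsf 536870912 536870912 0 536870912 3) ndB4q1 ndB4q2a pcB3 Cut.none Ext.none)

def k0_mm_123_a : ∃ t, chk3 f_mm_123_a t 1 1 1 = true :=
  ⟨(l 4), by decide +kernel⟩

theorem c_mm_123_a : CertB 536870912 536870912 0 536870912 587336777 62277027 3 eng mog cd4q1 cd4q2a pd3 true false false .npn 1 2 3
    ndB4q1 ndB4q2a pcB3 Cut.none Ext.none :=
  certB0 (fam := true) (s1 := false) (s2 := false) (a := 1) (b := 2) (c := 3) (cn := .npn) (n1 := ndB4q1) (n2 := ndB4q2a) (pc := pcB3) (cut := Cut.none) (xt := Ext.none) (P1 := 536870912) (W1 := 536870912) (P2 := 0) (W2 := 536870912) (P3 := 587336777) (W3 := 62277027) (N0 := 3) (En := eng) (mo := mog) (C1 := cd4q1) (C2 := cd4q2a) (C3 := pd3)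
    rfl k0_mm_123_a

noncomputable def f_mm_123_b : ℕ → ℕ → ℕ → ℕ → Bool := onCell 536870912 536870912 1239849684 370763052 587336777 62277027
    (rowB 3 eng mog cd4q1 cd4q2b pd3 0 true false false .npn 1 2 3 (qsf 536870912 536870912 1239849684 370763052 3) ndB4q1 ndB4q2b pcB3 Cut.none Ext.none)

def k0_mm_123_b : ∃ t, chk3 f_mm_123_b t 1 1 1 = true :=
  ⟨(l 4), by decide +kernel⟩

theorem c_mm_123_b : CertB 536870912 536870912 1239849684 370763052 587336777 62277027 3 eng mog cd4q1 cd4q2b pd3 true false false .npn 1 2 3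
    ndB4q1 ndB4q2b pcB3 Cut.none Ext.none :=
  certB0 (fam := true) (s1 := false) (s2 := false) (a := 1) (b := 2) (c := 3) (cn := .npn) (n1 := ndB4q1) (n2 := ndB4q2b) (pc := pcB3) (cut := Cut.none) (xt := Ext.none) (P1 := 536870912) (W1 := 536870912) (P2 := 1239849684) (W2 := 370763052) (P3 := 587336777) (W3 := 62277027) (N0 := 3) (En := eng) (mo := mog) (C1 := cd4q1) (C2 := cd4q2b) (C3 := pd3)
    rfl k0_mm_123_b

noncomputable def f_mm_133 : ℕ → ℕ → ℕ → ℕ → Bool := onCell 536870912 536870912 1610612736 536870912 587336777 62277027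
    (rowB 3 eng mog cd4q1 cd4q3 pd3 0 true false false .dn 1 3 3 (qsf 536870912 536870912 1610612736 536870912 3) ndB4q1 ndB4q3 pcB3 Cut.none Ext.none)

def k0_mm_133 : ∃ t, chk3 f_mm_133 t 1 1 1 = true :=
  ⟨(l 4), by decide +kernel⟩

theorem c_mm_133 : CertB 536870912 536870912 1610612736 536870912 587336777 62277027 3 eng mog cd4q1 cd4q3 pd3 true false false .dn 1 3 3
    ndB4q1 ndB4q3 pcB3 Cut.none Ext.none :=
  certB0 (fam := true) (s1 := false) (s2 := false) (a := 1) (b := 3) (c := 3) (cn := .dn) (n1 := ndB4q1) (n2 := ndB4q3) (pc := pcB3) (cut := Cut.none) (xt := Ext.none) (P1 := 536870912) (W1 := 536870912) (P2 := 1610612736) (W2 := 536870912) (P3 := 587336777) (W3 := 62277027) (N0 := 3) (En := eng) (mo := mog) (C1 := cd4q1) (C2 := cd4q3) (C3 := pd3)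
    rfl k0_mm_133

noncomputable def cut_mm_202_a : Cut := Cut.of [[⟨0, 1, 0, 67108864⟩, ⟨1, 0, 0, 67108864⟩, ⟨2, 1, 0, 67108864⟩]]

noncomputable def f_mm_202_a : ℕ → ℕ → ℕ → ℕ → Bool := onCell 0 536870912 0 536870912 587336777 62277027
    (rowB 3 eng mog cd4q2a cd4q0 pd2 0 true false false .pp 2 0 2 (qsf 0 536870912 0 536870912 2) ndB4q2a ndB4q0 pcB2 cut_mm_202_a Ext.none)

def k0_mm_202_a : ∃ t, chk3 f_mm_202_a t 1 1 1 = true :=
  ⟨(b (b (b (b (b (a (a (a (b (l 16437136) (l 16465864)) (l 16503080)) (a (l 16511920) (l 4))) (a (l 4) (a (l 4) (l 6)))) (a (l 4) (l 4))) (l 4)) (l 4)) (l 4)) (l 4)), by decide +kernel⟩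

theorem c_mm_202_a : CertB 0 536870912 0 536870912 587336777 62277027 3 eng mog cd4q2a cd4q0 pd2 true false false .pp 2 0 2
    ndB4q2a ndB4q0 pcB2 cut_mm_202_a Ext.none :=
  certB0 (fam := true) (s1 := false) (s2 := false) (a := 2) (b := 0) (c := 2) (cn := .pp) (n1 := ndB4q2a) (n2 := ndB4q0) (pc := pcB2) (cut := cut_mm_202_a) (xt := Ext.none) (P1 := 0) (W1 := 536870912) (P2 := 0) (W2 := 536870912) (P3 := 587336777) (W3 := 62277027) (N0 := 3) (En := eng) (mo := mog) (C1 := cd4q2a) (C2 := cd4q0) (C3 := pd2)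
    rfl k0_mm_202_a

noncomputable def cut_mm_202_b : Cut := Cut.of [[⟨0, 1, 0, 67108864⟩, ⟨1, 0, 0, 67108864⟩, ⟨2, 1, 0, 67108864⟩]]

noncomputable def f_mm_202_b : ℕ → ℕ → ℕ → ℕ → Bool := onCell 1239849684 370763052 0 536870912 587336777 62277027
    (rowB 3 eng mog cd4q2b cd4q0 pd2 0 true false false .pp 2 0 2 (qsf 1239849684 370763052 0 536870912 2) ndB4q2b ndB4q0 pcB2 cut_mm_202_b Ext.none)

def k0_mm_202_b : ∃ t, chk3 f_mm_202_b t 1 1 1 = true :=
  ⟨(b (a (b (a (b (b (a (b (a (b (a (l 16445392) (l 16423896)) (l 16568152)) (b (l 16391728) (l 4))) (l 4)) (l 4)) (l 4)) (l 4)) (l 4)) (l 4)) (l 4)) (l 4)), by decide +kernel⟩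

theorem c_mm_202_b : CertB 1239849684 370763052 0 536870912 587336777 62277027 3 eng mog cd4q2b cd4q0 pd2 true false false .pp 2 0 2
    ndB4q2b ndB4q0 pcB2 cut_mm_202_b Ext.none :=
  certB0 (fam := true) (s1 := false) (s2 := false) (a := 2) (b := 0) (c := 2) (cn := .pp) (n1 := ndB4q2b) (n2 := ndB4q0) (pc := pcB2) (cut := cut_mm_202_b) (xt := Ext.none) (P1 := 1239849684) (W1 := 370763052) (P2 := 0) (W2 := 536870912) (P3 := 587336777) (W3 := 62277027) (N0 := 3) (En := eng) (mo := mog) (C1 := cd4q2b) (C2 := cd4q0) (C3 := pd2)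
    rfl k0_mm_202_b

noncomputable def f_mm_203_a : ℕ → ℕ → ℕ → ℕ → Bool := onCell 0 536870912 1610612736 536870912 587336777 62277027
    (rowB 3 eng mog cd4q2a cd4q0 pd3 1 true false false .up 2 0 3 (qsf 0 536870912 0 536870912 3) ndB4q2a ndB4q0 pcB3 Cut.none Ext.none)

def k0_mm_203_a : ∃ t, chk3 f_mm_203_a t 1 1 1 = true :=
  ⟨(l 4), by decide +kernel⟩

theorem c_mm_203_a : CertB 0 536870912 0 536870912 587336777 62277027 3 eng mog cd4q2a cd4q0 pd3 true false false .up 2 0 3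
    ndB4q2a ndB4q0 pcB3 Cut.none Ext.none :=
  certB1 (fam := true) (s1 := false) (s2 := false) (a := 2) (b := 0) (c := 3) (cn := .up) (n1 := ndB4q2a) (n2 := ndB4q0) (pc := pcB3) (cut := Cut.none) (xt := Ext.none) (P1 := 0) (W1 := 536870912) (P2 := 0) (W2 := 536870912) (P3 := 587336777) (W3 := 62277027) (N0 := 3) (En := eng) (mo := mog) (C1 := cd4q2a) (C2 := cd4q0) (C3 := pd3)
    rfl (fun _ => rfl) k0_mm_203_a

noncomputable def f_mm_203_b : ℕ → ℕ → ℕ → ℕ → Bool := onCell 1239849684 370763052 1610612736 536870912 587336777 62277027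
    (rowB 3 eng mog cd4q2b cd4q0 pd3 1 true false false .up 2 0 3 (qsf 1239849684 370763052 0 536870912 3) ndB4q2b ndB4q0 pcB3 Cut.none Ext.none)

def k0_mm_203_b : ∃ t, chk3 f_mm_203_b t 1 1 1 = true :=
  ⟨(l 4), by decide +kernel⟩

theorem c_mm_203_b : CertB 1239849684 370763052 0 536870912 587336777 62277027 3 eng mog cd4q2b cd4q0 pd3 true false false .up 2 0 3
    ndB4q2b ndB4q0 pcB3 Cut.none Ext.none :=
  certB1 (fam := true) (s1 := false) (s2 := false) (a := 2) (b := 0) (c := 3) (cn := .up) (n1 := ndB4q2b) (n2 := ndB4q0) (pc := pcB3) (cut := Cut.none) (xt := Ext.none) (P1 := 1239849684) (W1 := 370763052) (P2 := 0) (W2 := 536870912) (P3 := 587336777) (W3 := 62277027) (N0 := 3) (En := eng) (mo := mog) (C1 := cd4q2b) (C2 := cd4q0) (C3 := pd3)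
    rfl (fun _ => rfl) k0_mm_203_b

noncomputable def f_mm_213_a : ℕ → ℕ → ℕ → ℕ → Bool := onCell 0 536870912 536870912 536870912 587336777 62277027
    (rowB 3 eng mog cd4q2a cd4q1 pd3 0 true false false .pnn 2 1 3 (qsf 0 536870912 536870912 536870912 3) ndB4q2a ndB4q1 pcB3 Cut.none Ext.none)

def k0_mm_213_a : ∃ t, chk3 f_mm_213_a t 1 1 1 = true :=
  ⟨(l 4), by decide +kernel⟩

theorem c_mm_213_a : CertB 0 536870912 536870912 536870912 587336777 62277027 3 eng mog cd4q2a cd4q1 pd3 true false false .pnn 2 1 3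
    ndB4q2a ndB4q1 pcB3 Cut.none Ext.none :=
  certB0 (fam := true) (s1 := false) (s2 := false) (a := 2) (b := 1) (c := 3) (cn := .pnn) (n1 := ndB4q2a) (n2 := ndB4q1) (pc := pcB3) (cut := Cut.none) (xt := Ext.none) (P1 := 0) (W1 := 536870912) (P2 := 536870912) (W2 := 536870912) (P3 := 587336777) (W3 := 62277027) (N0 := 3) (En := eng) (mo := mog) (C1 := cd4q2a) (C2 := cd4q1) (C3 := pd3)
    rfl k0_mm_213_a

noncomputable def f_mm_213_b : ℕ → ℕ → ℕ → ℕ → Bool := onCell 1239849684 370763052 536870912 536870912 587336777 62277027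
    (rowB 3 eng mog cd4q2b cd4q1 pd3 0 true false false .pnn 2 1 3 (qsf 1239849684 370763052 536870912 536870912 3) ndB4q2b ndB4q1 pcB3 Cut.none Ext.none)

def k0_mm_213_b : ∃ t, chk3 f_mm_213_b t 1 1 1 = true :=
  ⟨(l 4), by decide +kernel⟩

theorem c_mm_213_b : CertB 1239849684 370763052 536870912 536870912 587336777 62277027 3 eng mog cd4q2b cd4q1 pd3 true false false .pnn 2 1 3
    ndB4q2b ndB4q1 pcB3 Cut.none Ext.none :=
  certB0 (fam := true) (s1 := false) (s2 := false) (a := 2) (b := 1) (c := 3) (cn := .pnn) (n1 := ndB4q2b) (n2 := ndB4q1) (pc := pcB3) (cut := Cut.none) (xt := Ext.none) (P1 := 1239849684) (W1 := 370763052) (P2 := 536870912) (W2 := 536870912) (P3 := 587336777) (W3 := 62277027) (N0 := 3) (En := eng) (mo := mog) (C1 := cd4q2b) (C2 := cd4q1) (C3 := pd3)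
    rfl k0_mm_213_b

noncomputable def f_mm_303 : ℕ → ℕ → ℕ → ℕ → Bool := onCell 1610612736 536870912 0 536870912 587336777 62277027
    (rowB 3 eng mog cd4q3 cd4q0 pd3 0 true false false .npn 3 0 3 (qsf 1610612736 536870912 0 536870912 3) ndB4q3 ndB4q0 pcB3 Cut.none Ext.none)

def k0_mm_303 : ∃ t, chk3 f_mm_303 t 1 1 1 = true :=
  ⟨(l 4), by decide +kernel⟩

theorem c_mm_303 : CertB 1610612736 536870912 0 536870912 587336777 62277027 3 eng mog cd4q3 cd4q0 pd3 true false false .npn 3 0 3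
    ndB4q3 ndB4q0 pcB3 Cut.none Ext.none :=
  certB0 (fam := true) (s1 := false) (s2 := false) (a := 3) (b := 0) (c := 3) (cn := .npn) (n1 := ndB4q3) (n2 := ndB4q0) (pc := pcB3) (cut := Cut.none) (xt := Ext.none) (P1 := 1610612736) (W1 := 536870912) (P2 := 0) (W2 := 536870912) (P3 := 587336777) (W3 := 62277027) (N0 := 3) (En := eng) (mo := mog) (C1 := cd4q3) (C2 := cd4q0) (C3 := pd3)
    rfl k0_mm_303

noncomputable def f_mm_313 : ℕ → ℕ → ℕ → ℕ → Bool := onCell 1610612736 536870912 536870912 536870912 587336777 62277027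
    (rowB 3 eng mog cd4q3 cd4q1 pd3 0 true false false .dn 3 1 3 (qsf 1610612736 536870912 536870912 536870912 3) ndB4q3 ndB4q1 pcB3 Cut.none Ext.none)

def k0_mm_313 : ∃ t, chk3 f_mm_313 t 1 1 1 = true :=
  ⟨(l 4), by decide +kernel⟩

theorem c_mm_313 : CertB 1610612736 536870912 536870912 536870912 587336777 62277027 3 eng mog cd4q3 cd4q1 pd3 true false false .dn 3 1 3
    ndB4q3 ndB4q1 pcB3 Cut.none Ext.none :=
  certB0 (fam := true) (s1 := false) (s2 := false) (a := 3) (b := 1) (c := 3) (cn := .dn) (n1 := ndB4q3) (n2 := ndB4q1) (pc := pcB3) (cut := Cut.none) (xt := Ext.none) (P1 := 1610612736) (W1 := 536870912) (P2 := 536870912) (W2 := 536870912) (P3 := 587336777) (W3 := 62277027) (N0 := 3) (En := eng) (mo := mog) (C1 := cd4q3) (C2 := cd4q1) (C3 := pd3)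
    rfl k0_mm_313

end Pool.Agent.Strip051.G.I5470_6050.Tab.C.BA44

namespace Pool.Agent.Strip051.G.I5470_6050.Tab.C.BA45

open Pool.Agent.Strip051.PB Pool.Agent.Strip051.PB.T
open Pool.Agent.Strip051.G.I5470_6050.Tab

noncomputable def f_pp_001 : ℕ → ℕ → ℕ → ℕ → Bool := onCell 0 536870912 0 536870912 587336777 62277027
    (rowB 3 eng mog cd4q0 cd5q0 pd1 0 true true true .up 0 0 1 (qsf 0 536870912 0 536870912 1) ndB4q0 ndB5q0 pcB1 Cut.none Ext.none)

def k0_pp_001 : ∃ t, chk3 f_pp_001 t 1 1 1 = true :=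
  ⟨(l 4), by decide +kernel⟩

theorem c_pp_001 : CertB 0 536870912 0 536870912 587336777 62277027 3 eng mog cd4q0 cd5q0 pd1 true true true .up 0 0 1
    ndB4q0 ndB5q0 pcB1 Cut.none Ext.none :=
  certB0 (fam := true) (s1 := true) (s2 := true) (a := 0) (b := 0) (c := 1) (cn := .up) (n1 := ndB4q0) (n2 := ndB5q0) (pc := pcB1) (cut := Cut.none) (xt := Ext.none) (P1 := 0) (W1 := 536870912) (P2 := 0) (W2 := 536870912) (P3 := 587336777) (W3 := 62277027) (N0 := 3) (En := eng) (mo := mog) (C1 := cd4q0) (C2 := cd5q0) (C3 := pd1)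
    rfl k0_pp_001

noncomputable def f_pp_011 : ℕ → ℕ → ℕ → ℕ → Bool := onCell 0 536870912 536870912 536870912 587336777 62277027
    (rowB 3 eng mog cd4q0 cd5q1 pd1 0 true true true .pnn 0 1 1 (qsf 0 536870912 536870912 536870912 1) ndB4q0 ndB5q1 pcB1 Cut.none Ext.none)

def k0_pp_011 : ∃ t, chk3 f_pp_011 t 1 1 1 = true :=
  ⟨(l 4), by decide +kernel⟩

theorem c_pp_011 : CertB 0 536870912 536870912 536870912 587336777 62277027 3 eng mog cd4q0 cd5q1 pd1 true true true .pnn 0 1 1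
    ndB4q0 ndB5q1 pcB1 Cut.none Ext.none :=
  certB0 (fam := true) (s1 := true) (s2 := true) (a := 0) (b := 1) (c := 1) (cn := .pnn) (n1 := ndB4q0) (n2 := ndB5q1) (pc := pcB1) (cut := Cut.none) (xt := Ext.none) (P1 := 0) (W1 := 536870912) (P2 := 536870912) (W2 := 536870912) (P3 := 587336777) (W3 := 62277027) (N0 := 3) (En := eng) (mo := mog) (C1 := cd4q0) (C2 := cd5q1) (C3 := pd1)
    rfl k0_pp_011

noncomputable def f_pp_012 : ℕ → ℕ → ℕ → ℕ → Bool := onCell 0 536870912 536870912 536870912 587336777 62277027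
    (rowB 3 eng mog cd4q0 cd5q1 pd2 0 true true true .pnp 0 1 2 (qsf 0 536870912 536870912 536870912 2) ndB4q0 ndB5q1 pcB2 Cut.none Ext.none)

def k0_pp_012 : ∃ t, chk3 f_pp_012 t 1 1 1 = true :=
  ⟨(l 4), by decide +kernel⟩

theorem c_pp_012 : CertB 0 536870912 536870912 536870912 587336777 62277027 3 eng mog cd4q0 cd5q1 pd2 true true true .pnp 0 1 2
    ndB4q0 ndB5q1 pcB2 Cut.none Ext.none :=
  certB0 (fam := true) (s1 := true) (s2 := true) (a := 0) (b := 1) (c := 2) (cn := .pnp) (n1 := ndB4q0) (n2 := ndB5q1) (pc := pcB2) (cut := Cut.none) (xt := Ext.none) (P1 := 0) (W1 := 536870912) (P2 := 536870912) (W2 := 536870912) (P3 := 587336777) (W3 := 62277027) (N0 := 3) (En := eng) (mo := mog) (C1 := cd4q0) (C2 := cd5q1) (C3 := pd2)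
    rfl k0_pp_012

noncomputable def f_pp_022 : ℕ → ℕ → ℕ → ℕ → Bool := onCell 0 536870912 1073741824 536870912 587336777 62277027
    (rowB 3 eng mog cd4q0 cd5q2 pd2 0 true true true .pp 0 2 2 (qsf 0 536870912 1073741824 536870912 2) ndB4q0 ndB5q2 pcB2 Cut.none Ext.none)

def k0_pp_022 : ∃ t, chk3 f_pp_022 t 1 1 1 = true :=
  ⟨(l 4), by decide +kernel⟩

theorem c_pp_022 : CertB 0 536870912 1073741824 536870912 587336777 62277027 3 eng mog cd4q0 cd5q2 pd2 true true true .pp 0 2 2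
    ndB4q0 ndB5q2 pcB2 Cut.none Ext.none :=
  certB0 (fam := true) (s1 := true) (s2 := true) (a := 0) (b := 2) (c := 2) (cn := .pp) (n1 := ndB4q0) (n2 := ndB5q2) (pc := pcB2) (cut := Cut.none) (xt := Ext.none) (P1 := 0) (W1 := 536870912) (P2 := 1073741824) (W2 := 536870912) (P3 := 587336777) (W3 := 62277027) (N0 := 3) (En := eng) (mo := mog) (C1 := cd4q0) (C2 := cd5q2) (C3 := pd2)
    rfl k0_pp_022

noncomputable def f_pp_023 : ℕ → ℕ → ℕ → ℕ → Bool := onCell 0 536870912 1073741824 536870912 587336777 62277027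
    (rowB 3 eng mog cd4q0 cd5q2 pd3 0 true true true .up 0 2 3 (qsf 0 536870912 1073741824 536870912 3) ndB4q0 ndB5q2 pcB3 Cut.none Ext.none)

def k0_pp_023 : ∃ t, chk3 f_pp_023 t 1 1 1 = true :=
  ⟨(l 4), by decide +kernel⟩

theorem c_pp_023 : CertB 0 536870912 1073741824 536870912 587336777 62277027 3 eng mog cd4q0 cd5q2 pd3 true true true .up 0 2 3
    ndB4q0 ndB5q2 pcB3 Cut.none Ext.none :=
  certB0 (fam := true) (s1 := true) (s2 := true) (a := 0) (b := 2) (c := 3) (cn := .up) (n1 := ndB4q0) (n2 := ndB5q2) (pc := pcB3) (cut := Cut.none) (xt := Ext.none) (P1 := 0) (W1 := 536870912) (P2 := 1073741824) (W2 := 536870912) (P3 := 587336777) (W3 := 62277027) (N0 := 3) (En := eng) (mo := mog) (C1 := cd4q0) (C2 := cd5q2) (C3 := pd3)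
    rfl k0_pp_023

noncomputable def f_pp_033 : ℕ → ℕ → ℕ → ℕ → Bool := onCell 0 536870912 0 1230186008 587336777 62277027
    (rowB 3 eng mog cd4q0 cd5q3 pd3 0 true true true .pnn 0 3 3 (qsf 0 536870912 0 1230186008 3) ndB4q0 ndB5q3 pcB3 Cut.none Ext.none)

def k0_pp_033 : ∃ t, chk3 f_pp_033 t 1 1 1 = true :=
  ⟨(b (l 4) (l 4)), by decide +kernel⟩

theorem c_pp_033 : CertB 0 536870912 0 1230186008 587336777 62277027 3 eng mog cd4q0 cd5q3 pd3 true true true .pnn 0 3 3
    ndB4q0 ndB5q3 pcB3 Cut.none Ext.none :=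
  certB0 (fam := true) (s1 := true) (s2 := true) (a := 0) (b := 3) (c := 3) (cn := .pnn) (n1 := ndB4q0) (n2 := ndB5q3) (pc := pcB3) (cut := Cut.none) (xt := Ext.none) (P1 := 0) (W1 := 536870912) (P2 := 0) (W2 := 1230186008) (P3 := 587336777) (W3 := 62277027) (N0 := 3) (En := eng) (mo := mog) (C1 := cd4q0) (C2 := cd5q3) (C3 := pd3)
    rfl k0_pp_033

noncomputable def f_pp_101 : ℕ → ℕ → ℕ → ℕ → Bool := onCell 536870912 536870912 0 536870912 587336777 62277027
    (rowB 3 eng mog cd4q1 cd5q0 pd1 0 true true true .npn 1 0 1 (qsf 536870912 536870912 0 536870912 1) ndB4q1 ndB5q0 pcB1 Cut.none Ext.none)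

def k0_pp_101 : ∃ t, chk3 f_pp_101 t 1 1 1 = true :=
  ⟨(l 4), by decide +kernel⟩

theorem c_pp_101 : CertB 536870912 536870912 0 536870912 587336777 62277027 3 eng mog cd4q1 cd5q0 pd1 true true true .npn 1 0 1
    ndB4q1 ndB5q0 pcB1 Cut.none Ext.none :=
  certB0 (fam := true) (s1 := true) (s2 := true) (a := 1) (b := 0) (c := 1) (cn := .npn) (n1 := ndB4q1) (n2 := ndB5q0) (pc := pcB1) (cut := Cut.none) (xt := Ext.none) (P1 := 536870912) (W1 := 536870912) (P2 := 0) (W2 := 536870912) (P3 := 587336777) (W3 := 62277027) (N0 := 3) (En := eng) (mo := mog) (C1 := cd4q1) (C2 := cd5q0) (C3 := pd1)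
    rfl k0_pp_101

noncomputable def f_pp_102 : ℕ → ℕ → ℕ → ℕ → Bool := onCell 536870912 536870912 0 536870912 587336777 62277027
    (rowB 3 eng mog cd4q1 cd5q0 pd2 0 true true true .npp 1 0 2 (qsf 536870912 536870912 0 536870912 2) ndB4q1 ndB5q0 pcB2 Cut.none Ext.none)

def k0_pp_102 : ∃ t, chk3 f_pp_102 t 1 1 1 = true :=
  ⟨(l 4), by decide +kernel⟩

theorem c_pp_102 : CertB 536870912 536870912 0 536870912 587336777 62277027 3 eng mog cd4q1 cd5q0 pd2 true true true .npp 1 0 2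
    ndB4q1 ndB5q0 pcB2 Cut.none Ext.none :=
  certB0 (fam := true) (s1 := true) (s2 := true) (a := 1) (b := 0) (c := 2) (cn := .npp) (n1 := ndB4q1) (n2 := ndB5q0) (pc := pcB2) (cut := Cut.none) (xt := Ext.none) (P1 := 536870912) (W1 := 536870912) (P2 := 0) (W2 := 536870912) (P3 := 587336777) (W3 := 62277027) (N0 := 3) (En := eng) (mo := mog) (C1 := cd4q1) (C2 := cd5q0) (C3 := pd2)
    rfl k0_pp_102

noncomputable def f_pp_112 : ℕ → ℕ → ℕ → ℕ → Bool := onCell 536870912 536870912 536870912 536870912 587336777 62277027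
    (rowB 3 eng mog cd4q1 cd5q1 pd2 0 true true true .dn 1 1 2 (qsf 536870912 536870912 536870912 536870912 2) ndB4q1 ndB5q1 pcB2 Cut.none Ext.none)

def k0_pp_112 : ∃ t, chk3 f_pp_112 t 1 1 1 = true :=
  ⟨(l 4), by decide +kernel⟩

theorem c_pp_112 : CertB 536870912 536870912 536870912 536870912 587336777 62277027 3 eng mog cd4q1 cd5q1 pd2 true true true .dn 1 1 2
    ndB4q1 ndB5q1 pcB2 Cut.none Ext.none :=
  certB0 (fam := true) (s1 := true) (s2 := true) (a := 1) (b := 1) (c := 2) (cn := .dn) (n1 := ndB4q1) (n2 := ndB5q1) (pc := pcB2) (cut := Cut.none) (xt := Ext.none) (P1 := 536870912) (W1 := 536870912) (P2 := 536870912) (W2 := 536870912) (P3 := 587336777) (W3 := 62277027) (N0 := 3) (En := eng) (mo := mog) (C1 := cd4q1) (C2 := cd5q1) (C3 := pd2)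
    rfl k0_pp_112

noncomputable def f_pp_113 : ℕ → ℕ → ℕ → ℕ → Bool := onCell 536870912 536870912 536870912 536870912 587336777 62277027
    (rowB 3 eng mog cd4q1 cd5q1 pd3 0 true true true .nn 1 1 3 (qsf 536870912 536870912 536870912 536870912 3) ndB4q1 ndB5q1 pcB3 Cut.none Ext.none)

def k0_pp_113 : ∃ t, chk3 f_pp_113 t 1 1 1 = true :=
  ⟨(l 4), by decide +kernel⟩

theorem c_pp_113 : CertB 536870912 536870912 536870912 536870912 587336777 62277027 3 eng mog cd4q1 cd5q1 pd3 true true true .nn 1 1 3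
    ndB4q1 ndB5q1 pcB3 Cut.none Ext.none :=
  certB0 (fam := true) (s1 := true) (s2 := true) (a := 1) (b := 1) (c := 3) (cn := .nn) (n1 := ndB4q1) (n2 := ndB5q1) (pc := pcB3) (cut := Cut.none) (xt := Ext.none) (P1 := 536870912) (W1 := 536870912) (P2 := 536870912) (W2 := 536870912) (P3 := 587336777) (W3 := 62277027) (N0 := 3) (En := eng) (mo := mog) (C1 := cd4q1) (C2 := cd5q1) (C3 := pd3)
    rfl k0_pp_113

noncomputable def f_pp_123 : ℕ → ℕ → ℕ → ℕ → Bool := onCell 536870912 536870912 1073741824 536870912 587336777 62277027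
    (rowB 3 eng mog cd4q1 cd5q2 pd3 0 true true true .npn 1 2 3 (qsf 536870912 536870912 1073741824 536870912 3) ndB4q1 ndB5q2 pcB3 Cut.none Ext.none)

def k0_pp_123 : ∃ t, chk3 f_pp_123 t 1 1 1 = true :=
  ⟨(l 4), by decide +kernel⟩

theorem c_pp_123 : CertB 536870912 536870912 1073741824 536870912 587336777 62277027 3 eng mog cd4q1 cd5q2 pd3 true true true .npn 1 2 3
    ndB4q1 ndB5q2 pcB3 Cut.none Ext.none :=
  certB0 (fam := true) (s1 := true) (s2 := true) (a := 1) (b := 2) (c := 3) (cn := .npn) (n1 := ndB4q1) (n2 := ndB5q2) (pc := pcB3) (cut := Cut.none) (xt := Ext.none) (P1 := 536870912) (W1 := 536870912) (P2 := 1073741824) (W2 := 536870912) (P3 := 587336777) (W3 := 62277027) (N0 := 3) (En := eng) (mo := mog) (C1 := cd4q1) (C2 := cd5q2) (C3 := pd3)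
    rfl k0_pp_123

noncomputable def f_pp_133 : ℕ → ℕ → ℕ → ℕ → Bool := onCell 536870912 536870912 0 1230186008 587336777 62277027
    (rowB 3 eng mog cd4q1 cd5q3 pd3 0 true true true .dn 1 3 3 (qsf 536870912 536870912 0 1230186008 3) ndB4q1 ndB5q3 pcB3 Cut.none Ext.none)

def k0_pp_133 : ∃ t, chk3 f_pp_133 t 1 1 1 = true :=
  ⟨(l 4), by decide +kernel⟩

theorem c_pp_133 : CertB 536870912 536870912 0 1230186008 587336777 62277027 3 eng mog cd4q1 cd5q3 pd3 true true true .dn 1 3 3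
    ndB4q1 ndB5q3 pcB3 Cut.none Ext.none :=
  certB0 (fam := true) (s1 := true) (s2 := true) (a := 1) (b := 3) (c := 3) (cn := .dn) (n1 := ndB4q1) (n2 := ndB5q3) (pc := pcB3) (cut := Cut.none) (xt := Ext.none) (P1 := 536870912) (W1 := 536870912) (P2 := 0) (W2 := 1230186008) (P3 := 587336777) (W3 := 62277027) (N0 := 3) (En := eng) (mo := mog) (C1 := cd4q1) (C2 := cd5q3) (C3 := pd3)
    rfl k0_pp_133

noncomputable def f_pp_202_a : ℕ → ℕ → ℕ → ℕ → Bool := onCell 0 536870912 0 536870912 587336777 62277027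
    (rowB 3 eng mog cd4q2a cd5q0 pd2 0 true true true .pp 2 0 2 (qsf 0 536870912 0 536870912 2) ndB4q2a ndB5q0 pcB2 Cut.none Ext.none)

def k0_pp_202_a : ∃ t, chk3 f_pp_202_a t 1 1 1 = true :=
  ⟨(l 4), by decide +kernel⟩

theorem c_pp_202_a : CertB 0 536870912 0 536870912 587336777 62277027 3 eng mog cd4q2a cd5q0 pd2 true true true .pp 2 0 2
    ndB4q2a ndB5q0 pcB2 Cut.none Ext.none :=
  certB0 (fam := true) (s1 := true) (s2 := true) (a := 2) (b := 0) (c := 2) (cn := .pp) (n1 := ndB4q2a) (n2 := ndB5q0) (pc := pcB2) (cut := Cut.none) (xt := Ext.none) (P1 := 0) (W1 := 536870912) (P2 := 0) (W2 := 536870912) (P3 := 587336777) (W3 := 62277027) (N0 := 3) (En := eng) (mo := mog) (C1 := cd4q2a) (C2 := cd5q0) (C3 := pd2)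
    rfl k0_pp_202_a

noncomputable def f_pp_202_b : ℕ → ℕ → ℕ → ℕ → Bool := onCell 1239849684 370763052 0 536870912 587336777 62277027
    (rowB 3 eng mog cd4q2b cd5q0 pd2 0 true true true .pp 2 0 2 (qsf 1239849684 370763052 0 536870912 2) ndB4q2b ndB5q0 pcB2 Cut.none Ext.none)

def k0_pp_202_b : ∃ t, chk3 f_pp_202_b t 1 1 1 = true :=
  ⟨(l 4), by decide +kernel⟩

theorem c_pp_202_b : CertB 1239849684 370763052 0 536870912 587336777 62277027 3 eng mog cd4q2b cd5q0 pd2 true true true .pp 2 0 2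
    ndB4q2b ndB5q0 pcB2 Cut.none Ext.none :=
  certB0 (fam := true) (s1 := true) (s2 := true) (a := 2) (b := 0) (c := 2) (cn := .pp) (n1 := ndB4q2b) (n2 := ndB5q0) (pc := pcB2) (cut := Cut.none) (xt := Ext.none) (P1 := 1239849684) (W1 := 370763052) (P2 := 0) (W2 := 536870912) (P3 := 587336777) (W3 := 62277027) (N0 := 3) (En := eng) (mo := mog) (C1 := cd4q2b) (C2 := cd5q0) (C3 := pd2)
    rfl k0_pp_202_b

noncomputable def f_pp_203_a : ℕ → ℕ → ℕ → ℕ → Bool := onCell 0 536870912 0 536870912 587336777 62277027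
    (rowB 3 eng mog cd4q2a cd5q0 pd3 0 true true true .up 2 0 3 (qsf 0 536870912 0 536870912 3) ndB4q2a ndB5q0 pcB3 Cut.none Ext.none)

def k0_pp_203_a : ∃ t, chk3 f_pp_203_a t 1 1 1 = true :=
  ⟨(l 4), by decide +kernel⟩

theorem c_pp_203_a : CertB 0 536870912 0 536870912 587336777 62277027 3 eng mog cd4q2a cd5q0 pd3 true true true .up 2 0 3
    ndB4q2a ndB5q0 pcB3 Cut.none Ext.none :=
  certB0 (fam := true) (s1 := true) (s2 := true) (a := 2) (b := 0) (c := 3) (cn := .up) (n1 := ndB4q2a) (n2 := ndB5q0) (pc := pcB3) (cut := Cut.none) (xt := Ext.none) (P1 := 0) (W1 := 536870912) (P2 := 0) (W2 := 536870912) (P3 := 587336777) (W3 := 62277027) (N0 := 3) (En := eng) (mo := mog) (C1 := cd4q2a) (C2 := cd5q0) (C3 := pd3)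
    rfl k0_pp_203_a

noncomputable def f_pp_203_b : ℕ → ℕ → ℕ → ℕ → Bool := onCell 1239849684 370763052 0 536870912 587336777 62277027
    (rowB 3 eng mog cd4q2b cd5q0 pd3 0 true true true .up 2 0 3 (qsf 1239849684 370763052 0 536870912 3) ndB4q2b ndB5q0 pcB3 Cut.none Ext.none)

def k0_pp_203_b : ∃ t, chk3 f_pp_203_b t 1 1 1 = true :=
  ⟨(l 4), by decide +kernel⟩

theorem c_pp_203_b : CertB 1239849684 370763052 0 536870912 587336777 62277027 3 eng mog cd4q2b cd5q0 pd3 true true true .up 2 0 3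
    ndB4q2b ndB5q0 pcB3 Cut.none Ext.none :=
  certB0 (fam := true) (s1 := true) (s2 := true) (a := 2) (b := 0) (c := 3) (cn := .up) (n1 := ndB4q2b) (n2 := ndB5q0) (pc := pcB3) (cut := Cut.none) (xt := Ext.none) (P1 := 1239849684) (W1 := 370763052) (P2 := 0) (W2 := 536870912) (P3 := 587336777) (W3 := 62277027) (N0 := 3) (En := eng) (mo := mog) (C1 := cd4q2b) (C2 := cd5q0) (C3 := pd3)
    rfl k0_pp_203_b

noncomputable def f_pp_213_a : ℕ → ℕ → ℕ → ℕ → Bool := onCell 0 536870912 536870912 536870912 587336777 62277027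
    (rowB 3 eng mog cd4q2a cd5q1 pd3 0 true true true .pnn 2 1 3 (qsf 0 536870912 536870912 536870912 3) ndB4q2a ndB5q1 pcB3 Cut.none Ext.none)

def k0_pp_213_a : ∃ t, chk3 f_pp_213_a t 1 1 1 = true :=
  ⟨(l 4), by decide +kernel⟩

theorem c_pp_213_a : CertB 0 536870912 536870912 536870912 587336777 62277027 3 eng mog cd4q2a cd5q1 pd3 true true true .pnn 2 1 3
    ndB4q2a ndB5q1 pcB3 Cut.none Ext.none :=
  certB0 (fam := true) (s1 := true) (s2 := true) (a := 2) (b := 1) (c := 3) (cn := .pnn) (n1 := ndB4q2a) (n2 := ndB5q1) (pc := pcB3) (cut := Cut.none) (xt := Ext.none) (P1 := 0) (W1 := 536870912) (P2 := 536870912) (W2 := 536870912) (P3 := 587336777) (W3 := 62277027) (N0 := 3) (En := eng) (mo := mog) (C1 := cd4q2a) (C2 := cd5q1) (C3 := pd3)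
    rfl k0_pp_213_a

noncomputable def f_pp_213_b : ℕ → ℕ → ℕ → ℕ → Bool := onCell 1239849684 370763052 536870912 536870912 587336777 62277027
    (rowB 3 eng mog cd4q2b cd5q1 pd3 0 true true true .pnn 2 1 3 (qsf 1239849684 370763052 536870912 536870912 3) ndB4q2b ndB5q1 pcB3 Cut.none Ext.none)

def k0_pp_213_b : ∃ t, chk3 f_pp_213_b t 1 1 1 = true :=
  ⟨(l 4), by decide +kernel⟩

theorem c_pp_213_b : CertB 1239849684 370763052 536870912 536870912 587336777 62277027 3 eng mog cd4q2b cd5q1 pd3 true true true .pnn 2 1 3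
    ndB4q2b ndB5q1 pcB3 Cut.none Ext.none :=
  certB0 (fam := true) (s1 := true) (s2 := true) (a := 2) (b := 1) (c := 3) (cn := .pnn) (n1 := ndB4q2b) (n2 := ndB5q1) (pc := pcB3) (cut := Cut.none) (xt := Ext.none) (P1 := 1239849684) (W1 := 370763052) (P2 := 536870912) (W2 := 536870912) (P3 := 587336777) (W3 := 62277027) (N0 := 3) (En := eng) (mo := mog) (C1 := cd4q2b) (C2 := cd5q1) (C3 := pd3)
    rfl k0_pp_213_b

noncomputable def f_pp_303 : ℕ → ℕ → ℕ → ℕ → Bool := onCell 1610612736 536870912 0 536870912 587336777 62277027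
    (rowB 3 eng mog cd4q3 cd5q0 pd3 0 true true true .npn 3 0 3 (qsf 1610612736 536870912 0 536870912 3) ndB4q3 ndB5q0 pcB3 Cut.none Ext.none)

def k0_pp_303 : ∃ t, chk3 f_pp_303 t 1 1 1 = true :=
  ⟨(l 4), by decide +kernel⟩

theorem c_pp_303 : CertB 1610612736 536870912 0 536870912 587336777 62277027 3 eng mog cd4q3 cd5q0 pd3 true true true .npn 3 0 3
    ndB4q3 ndB5q0 pcB3 Cut.none Ext.none :=
  certB0 (fam := true) (s1 := true) (s2 := true) (a := 3) (b := 0) (c := 3) (cn := .npn) (n1 := ndB4q3) (n2 := ndB5q0) (pc := pcB3) (cut := Cut.none) (xt := Ext.none) (P1 := 1610612736) (W1 := 536870912) (P2 := 0) (W2 := 536870912) (P3 := 587336777) (W3 := 62277027) (N0 := 3) (En := eng) (mo := mog) (C1 := cd4q3) (C2 := cd5q0) (C3 := pd3)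
    rfl k0_pp_303

noncomputable def f_pp_313 : ℕ → ℕ → ℕ → ℕ → Bool := onCell 1610612736 536870912 536870912 536870912 587336777 62277027
    (rowB 3 eng mog cd4q3 cd5q1 pd3 0 true true true .dn 3 1 3 (qsf 1610612736 536870912 536870912 536870912 3) ndB4q3 ndB5q1 pcB3 Cut.none Ext.none)

def k0_pp_313 : ∃ t, chk3 f_pp_313 t 1 1 1 = true :=
  ⟨(l 4), by decide +kernel⟩

theorem c_pp_313 : CertB 1610612736 536870912 536870912 536870912 587336777 62277027 3 eng mog cd4q3 cd5q1 pd3 true true true .dn 3 1 3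
    ndB4q3 ndB5q1 pcB3 Cut.none Ext.none :=
  certB0 (fam := true) (s1 := true) (s2 := true) (a := 3) (b := 1) (c := 3) (cn := .dn) (n1 := ndB4q3) (n2 := ndB5q1) (pc := pcB3) (cut := Cut.none) (xt := Ext.none) (P1 := 1610612736) (W1 := 536870912) (P2 := 536870912) (W2 := 536870912) (P3 := 587336777) (W3 := 62277027) (N0 := 3) (En := eng) (mo := mog) (C1 := cd4q3) (C2 := cd5q1) (C3 := pd3)
    rfl k0_pp_313

noncomputable def f_pm_001 : ℕ → ℕ → ℕ → ℕ → Bool := onCell 0 536870912 0 536870912 587336777 62277027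
    (rowB 3 eng mog cd4q0 cd5q0 pd1 0 true true false .up 0 0 1 (qsf 0 536870912 0 536870912 1) ndB4q0 ndB5q0 pcB1 Cut.none Ext.none)

def k0_pm_001 : ∃ t, chk3 f_pm_001 t 1 1 1 = true :=
  ⟨(a (l 3) (l 3)), by decide +kernel⟩

theorem c_pm_001 : CertB 0 536870912 0 536870912 587336777 62277027 3 eng mog cd4q0 cd5q0 pd1 true true false .up 0 0 1
    ndB4q0 ndB5q0 pcB1 Cut.none Ext.none :=
  certB0 (fam := true) (s1 := true) (s2 := false) (a := 0) (b := 0) (c := 1) (cn := .up) (n1 := ndB4q0) (n2 := ndB5q0) (pc := pcB1) (cut := Cut.none) (xt := Ext.none) (P1 := 0) (W1 := 536870912) (P2 := 0) (W2 := 536870912) (P3 := 587336777) (W3 := 62277027) (N0 := 3) (En := eng) (mo := mog) (C1 := cd4q0) (C2 := cd5q0) (C3 := pd1)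
    rfl k0_pm_001

noncomputable def cut_pm_011 : Cut := Cut.of [[⟨0, 0, 0, 67108864⟩, ⟨1, 1, 0, 67108864⟩, ⟨2, 1, 0, 67108864⟩]]

noncomputable def f_pm_011 : ℕ → ℕ → ℕ → ℕ → Bool := onCell 0 536870912 536870912 536870912 587336777 62277027
    (rowB 3 eng mog cd4q0 cd5q1 pd1 1 true true false .pnn 0 1 1 (qsf 0 536870912 536870912 536870912 1) ndB4q0 ndB5q1 pcB1 cut_pm_011 Ext.none)

def k0_pm_011 : ∃ t, chk3 f_pm_011 t 1 1 1 = true :=
  ⟨(b (l 3) (b (l 3) (a (b (l 3) (a (a (b (l 3) (a (b (l 3) (l 6)) (l 3))) (l 3)) (l 3))) (l 3)))), by decide +kernel⟩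

theorem c_pm_011 : CertB 0 536870912 536870912 536870912 587336777 62277027 3 eng mog cd4q0 cd5q1 pd1 true true false .pnn 0 1 1
    ndB4q0 ndB5q1 pcB1 cut_pm_011 Ext.none :=
  certB1 (fam := true) (s1 := true) (s2 := false) (a := 0) (b := 1) (c := 1) (cn := .pnn) (n1 := ndB4q0) (n2 := ndB5q1) (pc := pcB1) (cut := cut_pm_011) (xt := Ext.none) (P1 := 0) (W1 := 536870912) (P2 := 536870912) (W2 := 536870912) (P3 := 587336777) (W3 := 62277027) (N0 := 3) (En := eng) (mo := mog) (C1 := cd4q0) (C2 := cd5q1) (C3 := pd1)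
    rfl (fun _ => rfl) k0_pm_011

noncomputable def cut_pm_012 : Cut := Cut.of [[⟨0, 0, 0, 67108864⟩, ⟨1, 1, 0, 67108864⟩, ⟨2, 1, 0, 67108864⟩]]

noncomputable def f_pm_012 : ℕ → ℕ → ℕ → ℕ → Bool := onCell 1073741824 536870912 536870912 536870912 587336777 62277027
    (rowB 3 eng mog cd4q0 cd5q1 pd2 2 true true false .pnp 0 1 2 (qsf 0 536870912 536870912 536870912 2) ndB4q0 ndB5q1 pcB2 cut_pm_012 Ext.none)

def k0_pm_012 : ∃ t, chk3 f_pm_012 t 1 1 1 = true :=
  ⟨(a (a (a (b (l 3) (b (l 3) (a (b (l 3) (b (l 3) (b (b (l 3) (l 6)) (l 6)))) (b (l 3) (b (a (b (l 3) (l 16599984)) (b (l 16544408) (l 16551992))) (a (b (a (l 16624440) (l 16598608)) (b (a (l 6) (l 16607176)) (l 6))) (b (a (l 16573392) (l 16548168)) (b (l 16609760) (l 16572776))))))))) (b (a (l 3) (b (l 3) (a (l 3) (l 16513144)))) (a (b (b (l 3) (a (l 3) (l 16468112))) (b (b (l 205252322103) (a (l 16496640) (l 16461072))) (b (a (l 16608864) (l 16463072)) (a (b (l 16512208) (l 16518880))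 (b (l 16466728) (l 16470656)))))) (b (a (b (l 16472864) (l 16447864)) (b (l 16462376) (l 16429608))) (b (a (l 16536688) (l 16405448)) (b (a (l 16425304) (l 16390912)) (a (l 16424936) (l 16384672)))))))) (a (a (a (b (b (l 16584544) (l 16511032)) (b (b (l 16452920) (l 16414952)) (b (l 16381696) (b (l 16359872) (l 16347856))))) (b (b (l 2) (a (l 16509320) (a (l 16510320) (l 16536296)))) (a (b (l 16426760) (b (l 16366776) (l 16330688))) (b (a (l 16425008) (b (l 16449384) (l 16402720))) (a (b (l 16360480) (l 16320368)) (b (a (l 16358248) (l 16357640)) (a (l 16315776) (l 16313192)))))))) (b (b (l 2) (l 16517088)) (b (l 16419296) (b (l 16341016) (b (l 16300800) (l 16273912)))))) (b (b (l 2) (l 16526000)) (b (b (l 16442488) (l 16378408)) (b (l 16310952) (b (l 16254568) (l 16214664))))))) (b (a (b (l 2) (l 16582920)) (l 2)) (a (b (a (l 16428856) (l 16476672)) (b (a (l 16309800) (l 16347904)) (a (l 16211392) (l 16238768)))) (b (l 16601840) (a (l 16362136)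 (l 16460208)))))), by decide +kernel⟩

theorem c_pm_012 : CertB 0 536870912 536870912 536870912 587336777 62277027 3 eng mog cd4q0 cd5q1 pd2 true true false .pnp 0 1 2
    ndB4q0 ndB5q1 pcB2 cut_pm_012 Ext.none :=
  certB2 (fam := true) (s1 := true) (s2 := false) (a := 0) (b := 1) (c := 2) (cn := .pnp) (n1 := ndB4q0) (n2 := ndB5q1) (pc := pcB2) (cut := cut_pm_012) (xt := Ext.none) (P1 := 0) (W1 := 536870912) (P2 := 536870912) (W2 := 536870912) (P3 := 587336777) (W3 := 62277027) (N0 := 3) (En := eng) (mo := mog) (C1 := cd4q0) (C2 := cd5q1) (C3 := pd2)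
    rfl (fun _ => rfl) k0_pm_012

noncomputable def f_pm_022 : ℕ → ℕ → ℕ → ℕ → Bool := onCell 0 536870912 1073741824 536870912 587336777 62277027
    (rowB 3 eng mog cd4q0 cd5q2 pd2 1 true true false .pp 0 2 2 (qsf 0 536870912 1073741824 536870912 2) ndB4q0 ndB5q2 pcB2 Cut.none Ext.none)

def k0_pm_022 : ∃ t, chk3 f_pm_022 t 4 1 1 = true :=
  ⟨(b (b (b (l 3) (b (a (l 3) (l 3)) (a (b (l 3) (b (a (l 3) (l 16571472)) (b (a (a (l 3) (l 16542840)) (l 16560328)) (a (a (a (l 16518304) (l 16524944)) (l 16534784)) (l 16552712))))) (b (a (b (l 3) (l 16597792)) (b (l 16616928) (l 16604952))) (a (b (l 16584448) (l 16570808)) (b (l 16592968) (l 16580832))))))) (b (b (b (a (a (b (a (b (a (a (l 16508840) (l 16512104)) (l 16517032)) (b (a (l 16504592) (l 16511184)) (l 16504104))) (b (c (l 16528784) (l 16523832)) (l 16519152))) (a (a (l 16491384) (l 16497904)) (l 16507592))) (b (l 16624976) (a (l 16520088) (l 16530512)))) (a (b (l 16557176) (l 16543368)) (l 16562456)))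 (b (a (a (b (a (l 16483184) (l 16495896)) (a (l 16475488) (l 16488096))) (l 16531176)) (a (l 16529536) (l 16543984))) (a (b (a (a (a (l 16464680) (l 16470968)) (l 16480360)) (l 16498472)) (a (b (a (b (l 16463136) (l 16461272)) (l 16474656)) (b (b (b (l 16466400) (a (c (l 16464608) (l 16495712)) (l 16472064))) (l 16465240)) (l 16463848))) (b (l 16492680) (l 16488872)))) (b (l 16527528) (b (l 16522568) (l 16519256)))))) (a (a (a (b (l 16441968) (l 16413640)) (l 16439416)) (l 16456912)) (l 16489880))) (b (a (a (a (l 16376512) (b (l 16397336) (l 16373664))) (l 16399648)) (l 16432496)) (a (a (l 16382648) (l 16353152)) (l 16372080))))) (b (a (a (b (a (b (l 16307648) (l 16290360)) (l 16303640)) (a (b (l 16286280) (l 16303472)) (l 16293752))) (b (l 16499656) (l 16296352))) (b (a (l 16314568) (l 16314320)) (a (l 16297720) (l 16290512)))) (b (a (a (a (b (l 16337816) (l 16374696)) (l 16343848)) (l 16328488)) (a (l 16311144) (l 16292512))) (a (a (b (l 16403168)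 (l 16446120)) (l 16388056)) (l 16344072))))), by decide +kernel⟩

def k1_pm_022 : ∃ t, chk3 f_pm_022 t 5 1 1 = true :=
  ⟨(a (b (b (b (l 1) (b (l 1) (b (l 1) (b (l 1) (l 214244878391))))) (b (b (b (a (l 16654768) (l 1)) (b (l 16558408) (b (l 16550416) (b (l 16546368) (l 16543608))))) (l 16520344)) (l 16451712))) (b (b (l 16350808) (l 16259344)) (b (l 16256880) (l 16285008)))) (b (b (l 1) (b (b (l 1) (l 377453727223)) (b (l 16501568) (l 16464056)))) (b (b (l 16406784) (l 16325976)) (l 16328552)))), by decide +kernel⟩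

def k2_pm_022 : ∃ t, chk3 f_pm_022 t 3 1 1 = true :=
  ⟨(b (b (l 1) (a (b (l 1) (a (l 385506847047) (l 1))) (l 1))) (b (a (b (a (l 16452072) (l 16505248)) (a (l 16391232) (l 16449736))) (b (l 1) (l 467111334679))) (a (b (l 16372232) (l 16335408)) (l 113313266007)))), by decide +kernel⟩

theorem s3_pm_022 : ∃ t, chk3 f_pm_022 t 2 1 1 = true := ex3_a k0_pm_022 k1_pm_022

theorem s4_pm_022 : ∃ t, chk3 f_pm_022 t 1 1 1 = true := ex3_a s3_pm_022 k2_pm_022

theorem c_pm_022 : CertB 0 536870912 1073741824 536870912 587336777 62277027 3 eng mog cd4q0 cd5q2 pd2 true true false .pp 0 2 2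
    ndB4q0 ndB5q2 pcB2 Cut.none Ext.none :=
  certB1 (fam := true) (s1 := true) (s2 := false) (a := 0) (b := 2) (c := 2) (cn := .pp) (n1 := ndB4q0) (n2 := ndB5q2) (pc := pcB2) (cut := Cut.none) (xt := Ext.none) (P1 := 0) (W1 := 536870912) (P2 := 1073741824) (W2 := 536870912) (P3 := 587336777) (W3 := 62277027) (N0 := 3) (En := eng) (mo := mog) (C1 := cd4q0) (C2 := cd5q2) (C3 := pd2)
    rfl (fun _ => rfl) s4_pm_022

noncomputable def f_pm_023 : ℕ → ℕ → ℕ → ℕ → Bool := onCell 1610612736 536870912 1073741824 536870912 587336777 62277027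
    (rowB 3 eng mog cd4q0 cd5q2 pd3 2 true true false .up 0 2 3 (qsf 0 536870912 1073741824 536870912 3) ndB4q0 ndB5q2 pcB3 Cut.none Ext.none)

def k0_pm_023 : ∃ t, chk3 f_pm_023 t 1 1 1 = true :=
  ⟨(a (a (b (a (b (a (l 16513176) (l 16594504)) (a (l 16354912) (l 16421144))) (a (b (l 16634112) (l 16456976)) (b (l 16671984) (l 16491376)))) (a (b (a (b (l 16162592) (l 16277696)) (l 16169600)) (a (b (l 16355408) (a (b (l 16405528) (l 16433320)) (l 16400968))) (l 16503720))) (a (b (l 16183544) (l 16399792)) (b (l 16284448) (l 16427448))))) (a (b (b (l 16691168) (l 16556072)) (b (l 16425440) (a (l 16456144) (l 16501656)))) (b (l 159013739047) (b (l 16563560) (l 16568520))))) (a (b (a (l 224512941127) (l 2)) (a (b (l 16630488) (l 16651040)) (l 40366299319))) (a (b (l 2) (l 16870704)) (l 4)))), by decide +kernel⟩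

theorem c_pm_023 : CertB 0 536870912 1073741824 536870912 587336777 62277027 3 eng mog cd4q0 cd5q2 pd3 true true false .up 0 2 3
    ndB4q0 ndB5q2 pcB3 Cut.none Ext.none :=
  certB2 (fam := true) (s1 := true) (s2 := false) (a := 0) (b := 2) (c := 3) (cn := .up) (n1 := ndB4q0) (n2 := ndB5q2) (pc := pcB3) (cut := Cut.none) (xt := Ext.none) (P1 := 0) (W1 := 536870912) (P2 := 1073741824) (W2 := 536870912) (P3 := 587336777) (W3 := 62277027) (N0 := 3) (En := eng) (mo := mog) (C1 := cd4q0) (C2 := cd5q2) (C3 := pd3)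
    rfl (fun _ => rfl) k0_pm_023

noncomputable def f_pm_033 : ℕ → ℕ → ℕ → ℕ → Bool := onCell 1610612736 536870912 0 1230186008 587336777 62277027
    (rowB 3 eng mog cd4q0 cd5q3 pd3 2 true true false .pnn 0 3 3 (qsf 0 536870912 0 1230186008 3) ndB4q0 ndB5q3 pcB3 Cut.none Ext.none)

def k0_pm_033 : ∃ t, chk3 f_pm_033 t 1 1 1 = true :=
  ⟨(a (b (l 1) (b (b (l 1) (a (l 1) (a (l 1) (a (l 1) (b (l 1) (l 973916778615)))))) (b (a (l 1) (a (a (b (l 1) (b (l 1) (a (l 852047041927) (l 657162767223)))) (b (b (l 1) (l 875132493831)) (b (l 845067742407) (l 16476520)))) (b (a (b (l 978748594919) (l 671658355591)) (l 16490584)) (a (l 16490592) (l 16521384))))) (a (a (b (l 1) (a (b (l 1) (b (a (l 1) (b (l 808023380023) (l 791917596199))) (a (b (l 833793424567) (l 832183135159)) (b (l 802118156679) (l 16494328))))) (b (l 811244711799) (b (b (l 16326776) (l 16364064)) (l 16467840))))) (b (a (b (l 1) (l 805339127415)) (b (b (a (l 1) (l 782253809031)) (l 777958811127))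 (l 730177071399))) (a (b (l 744135735047) (b (l 16366568) (l 16494576))) (b (l 16398656) (l 16468560))))) (a (b (a (b (b (a (l 16458912) (l 16469656)) (l 16460640)) (l 16454336)) (b (l 16485768) (l 16482664))) (b (a (l 16443040) (l 16476848)) (a (l 16507248) (l 16535456)))) (b (b (l 16526616) (l 16529944)) (b (l 16530936) (l 16582704)))))))) (a (b (l 1) (b (b (a (l 1) (a (l 1011498310119) (l 16549920))) (a (a (b (l 1028677654199) (l 16501752)) (l 547641892775)) (a (l 16561384) (l 16587384)))) (b (a (a (l 16542616) (l 16580424)) (a (l 16616552) (l 16646400))) (b (a (l 16606952) (l 16677552)) (a (l 16637624) (l 16708896)))))) (b (b (l 4) (l 4)) (b (l 4) (b (l 4) (l 4)))))), by decide +kernel⟩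

theorem c_pm_033 : CertB 0 536870912 0 1230186008 587336777 62277027 3 eng mog cd4q0 cd5q3 pd3 true true false .pnn 0 3 3
    ndB4q0 ndB5q3 pcB3 Cut.none Ext.none :=
  certB2 (fam := true) (s1 := true) (s2 := false) (a := 0) (b := 3) (c := 3) (cn := .pnn) (n1 := ndB4q0) (n2 := ndB5q3) (pc := pcB3) (cut := Cut.none) (xt := Ext.none) (P1 := 0) (W1 := 536870912) (P2 := 0) (W2 := 1230186008) (P3 := 587336777) (W3 := 62277027) (N0 := 3) (En := eng) (mo := mog) (C1 := cd4q0) (C2 := cd5q3) (C3 := pd3)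
    rfl (fun _ => rfl) k0_pm_033

noncomputable def f_pm_101 : ℕ → ℕ → ℕ → ℕ → Bool := onCell 536870912 536870912 0 536870912 587336777 62277027
    (rowB 3 eng mog cd4q1 cd5q0 pd1 2 true true false .npn 1 0 1 (qsf 536870912 536870912 0 536870912 1) ndB4q1 ndB5q0 pcB1 Cut.none Ext.none)

def k0_pm_101 : ∃ t, chk3 f_pm_101 t 1 1 1 = true :=
  ⟨(a (l 3) (l 3)), by decide +kernel⟩

theorem c_pm_101 : CertB 536870912 536870912 0 536870912 587336777 62277027 3 eng mog cd4q1 cd5q0 pd1 true true false .npn 1 0 1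
    ndB4q1 ndB5q0 pcB1 Cut.none Ext.none :=
  certB2 (fam := true) (s1 := true) (s2 := false) (a := 1) (b := 0) (c := 1) (cn := .npn) (n1 := ndB4q1) (n2 := ndB5q0) (pc := pcB1) (cut := Cut.none) (xt := Ext.none) (P1 := 536870912) (W1 := 536870912) (P2 := 0) (W2 := 536870912) (P3 := 587336777) (W3 := 62277027) (N0 := 3) (En := eng) (mo := mog) (C1 := cd4q1) (C2 := cd5q0) (C3 := pd1)
    rfl (fun _ => rfl) k0_pm_101

noncomputable def f_pm_102 : ℕ → ℕ → ℕ → ℕ → Bool := onCell 1073741824 536870912 0 536870912 587336777 62277027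
    (rowB 3 eng mog cd4q1 cd5q0 pd2 2 true true false .npp 1 0 2 (qsf 536870912 536870912 0 536870912 2) ndB4q1 ndB5q0 pcB2 Cut.none Ext.none)

def k0_pm_102 : ∃ t, chk3 f_pm_102 t 1 1 1 = true :=
  ⟨(a (b (a (l 3) (a (a (a (l 3) (b (l 2) (a (l 3) (a (b (l 3) (l 16457288)) (b (a (l 16395888) (l 16391912)) (a (l 16452976) (l 16449928))))))) (b (l 2) (b (l 16358160) (l 16424128)))) (b (l 2) (b (b (l 2) (l 16281744)) (l 16345416))))) (a (l 3) (b (a (a (a (l 3) (a (b (l 3) (b (l 16528408) (l 16546224))) (b (a (l 16498464) (a (l 16495528) (l 16493208))) (a (b (l 16523376) (l 16542000)) (b (a (l 16520776) (l 16518800)) (l 16538832)))))) (b (l 16475304) (b (l 16505048) (l 16524640)))) (b (l 16419480) (b (l 16463616) (l 16488664)))) (a (a (a (b (l 3) (l 16569320)) (a (b (l 16563448) (l 16567464)) (b (a (l 16560760) (a (l 16559312) (l 16558160))) (a (l 16566528) (a (l 16566160) (l 16566008)))))) (b (l 16549544) (l 16563632))) (b (l 16524392) (l 16557544))))))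 (b (b (l 2) (a (b (l 2) (a (l 16233824) (l 2))) (l 2))) (b (b (a (l 16457328) (l 2)) (a (b (l 16364032) (l 16408904)) (a (l 16273448) (l 2)))) (b (a (l 16476312) (l 16402288)) (a (l 16556904) (l 16585728)))))), by decide +kernel⟩

theorem c_pm_102 : CertB 536870912 536870912 0 536870912 587336777 62277027 3 eng mog cd4q1 cd5q0 pd2 true true false .npp 1 0 2
    ndB4q1 ndB5q0 pcB2 Cut.none Ext.none :=
  certB2 (fam := true) (s1 := true) (s2 := false) (a := 1) (b := 0) (c := 2) (cn := .npp) (n1 := ndB4q1) (n2 := ndB5q0) (pc := pcB2) (cut := Cut.none) (xt := Ext.none) (P1 := 536870912) (W1 := 536870912) (P2 := 0) (W2 := 536870912) (P3 := 587336777) (W3 := 62277027) (N0 := 3) (En := eng) (mo := mog) (C1 := cd4q1) (C2 := cd5q0) (C3 := pd2)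
    rfl (fun _ => rfl) k0_pm_102

noncomputable def f_pm_112 : ℕ → ℕ → ℕ → ℕ → Bool := onCell 536870912 536870912 1073741824 536870912 587336777 62277027
    (rowB 3 eng mog cd4q1 cd5q1 pd2 1 true true false .dn 1 1 2 (qsf 536870912 536870912 536870912 536870912 2) ndB4q1 ndB5q1 pcB2 Cut.none Ext.none)

def k0_pm_112 : ∃ t, chk3 f_pm_112 t 1 1 1 = true :=
  ⟨(a (b (b (b (l 3) (l 3)) (b (b (b (a (l 16541048) (l 16588640)) (b (a (l 16539392) (l 16547328)) (a (b (l 16538168) (l 16539256)) (b (l 16547664) (l 210486997703))))) (a (l 16538760) (l 16551000))) (a (l 16538936) (l 16564176)))) (b (a (l 16573976) (l 16637248)) (a (l 16723008) (l 16899032)))) (b (b (l 1) (b (l 1) (a (l 16518536) (l 1)))) (b (a (l 16592296) (l 591665232071)) (a (l 16885608) (l 16705384))))), by decide +kernel⟩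

theorem c_pm_112 : CertB 536870912 536870912 536870912 536870912 587336777 62277027 3 eng mog cd4q1 cd5q1 pd2 true true false .dn 1 1 2
    ndB4q1 ndB5q1 pcB2 Cut.none Ext.none :=
  certB1 (fam := true) (s1 := true) (s2 := false) (a := 1) (b := 1) (c := 2) (cn := .dn) (n1 := ndB4q1) (n2 := ndB5q1) (pc := pcB2) (cut := Cut.none) (xt := Ext.none) (P1 := 536870912) (W1 := 536870912) (P2 := 536870912) (W2 := 536870912) (P3 := 587336777) (W3 := 62277027) (N0 := 3) (En := eng) (mo := mog) (C1 := cd4q1) (C2 := cd5q1) (C3 := pd2)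
    rfl (fun _ => rfl) k0_pm_112

noncomputable def f_pm_113 : ℕ → ℕ → ℕ → ℕ → Bool := onCell 536870912 536870912 1610612736 536870912 587336777 62277027
    (rowB 3 eng mog cd4q1 cd5q1 pd3 1 true true false .nn 1 1 3 (qsf 536870912 536870912 536870912 536870912 3) ndB4q1 ndB5q1 pcB3 Cut.none Ext.none)

def k0_pm_113 : ∃ t, chk3 f_pm_113 t 1 1 1 = true :=
  ⟨(a (b (a (l 16755896) (l 17180496)) (b (l 526233822599) (l 2))) (b (b (l 17579624) (b (l 17494128) (l 17302552))) (b (l 17078616) (b (l 16889696) (b (l 16804576) (b (l 16764592) (l 16726328))))))), by decide +kernel⟩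

theorem c_pm_113 : CertB 536870912 536870912 536870912 536870912 587336777 62277027 3 eng mog cd4q1 cd5q1 pd3 true true false .nn 1 1 3
    ndB4q1 ndB5q1 pcB3 Cut.none Ext.none :=
  certB1 (fam := true) (s1 := true) (s2 := false) (a := 1) (b := 1) (c := 3) (cn := .nn) (n1 := ndB4q1) (n2 := ndB5q1) (pc := pcB3) (cut := Cut.none) (xt := Ext.none) (P1 := 536870912) (W1 := 536870912) (P2 := 536870912) (W2 := 536870912) (P3 := 587336777) (W3 := 62277027) (N0 := 3) (En := eng) (mo := mog) (C1 := cd4q1) (C2 := cd5q1) (C3 := pd3)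
    rfl (fun _ => rfl) k0_pm_113

noncomputable def f_pm_123 : ℕ → ℕ → ℕ → ℕ → Bool := onCell 1610612736 536870912 1073741824 536870912 587336777 62277027
    (rowB 3 eng mog cd4q1 cd5q2 pd3 2 true true false .npn 1 2 3 (qsf 536870912 536870912 1073741824 536870912 3) ndB4q1 ndB5q2 pcB3 Cut.none Ext.none)

def k0_pm_123 : ∃ t, chk3 f_pm_123 t 1 1 1 = true :=
  ⟨(a (a (b (a (b (l 16790320) (l 1)) (a (l 16809408) (b (l 17057024) (l 16717240)))) (l 1)) (a (b (b (l 17166816) (l 16797048)) (l 1)) (b (l 17302160) (l 16743232)))) (a (b (a (b (l 17047408) (l 16944128)) (b (l 16910832) (l 16921480))) (a (l 16772448) (l 16886680))) (a (b (b (a (l 16821896) (l 16766936)) (l 16849168)) (l 16827088)) (l 4)))), by decide +kernel⟩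

theorem c_pm_123 : CertB 536870912 536870912 1073741824 536870912 587336777 62277027 3 eng mog cd4q1 cd5q2 pd3 true true false .npn 1 2 3
    ndB4q1 ndB5q2 pcB3 Cut.none Ext.none :=
  certB2 (fam := true) (s1 := true) (s2 := false) (a := 1) (b := 2) (c := 3) (cn := .npn) (n1 := ndB4q1) (n2 := ndB5q2) (pc := pcB3) (cut := Cut.none) (xt := Ext.none) (P1 := 536870912) (W1 := 536870912) (P2 := 1073741824) (W2 := 536870912) (P3 := 587336777) (W3 := 62277027) (N0 := 3) (En := eng) (mo := mog) (C1 := cd4q1) (C2 := cd5q2) (C3 := pd3)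
    rfl (fun _ => rfl) k0_pm_123

noncomputable def f_pm_133 : ℕ → ℕ → ℕ → ℕ → Bool := onCell 536870912 536870912 0 1230186008 587336777 62277027
    (rowB 3 eng mog cd4q1 cd5q3 pd3 0 true true false .dn 1 3 3 (qsf 536870912 536870912 0 1230186008 3) ndB4q1 ndB5q3 pcB3 Cut.none Ext.none)

def k0_pm_133 : ∃ t, chk3 f_pm_133 t 1 1 1 = true :=
  ⟨(b (l 2) (l 4)), by decide +kernel⟩

theorem c_pm_133 : CertB 536870912 536870912 0 1230186008 587336777 62277027 3 eng mog cd4q1 cd5q3 pd3 true true false .dn 1 3 3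
    ndB4q1 ndB5q3 pcB3 Cut.none Ext.none :=
  certB0 (fam := true) (s1 := true) (s2 := false) (a := 1) (b := 3) (c := 3) (cn := .dn) (n1 := ndB4q1) (n2 := ndB5q3) (pc := pcB3) (cut := Cut.none) (xt := Ext.none) (P1 := 536870912) (W1 := 536870912) (P2 := 0) (W2 := 1230186008) (P3 := 587336777) (W3 := 62277027) (N0 := 3) (En := eng) (mo := mog) (C1 := cd4q1) (C2 := cd5q3) (C3 := pd3)
    rfl k0_pm_133

end Pool.Agent.Strip051.G.I5470_6050.Tab.C.BA45

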