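import Pool.Agent.Strip051.G.I5470_6050.Gn
import Pool.Agent.Strip051.PB.Corns
import Pool.Agent.Strip051.PB.CornW

/-! # Certificates of the aligned corners (generated) -/

set_option linter.all false

namespace Pool.Agent.Strip051.G.I5470_6050.Tab.CG

open Pool.Agent.Strip051.PB

def B022E_344 :
    ∃ t, chk3 (onCell 0 67108864 0 1073741824 587336777 62277027 (corT true 1 c0B cB022E gB3q0 gB4q2 gB4q2 gB5q2 true false)) t 1 1 1 = true :=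
  ⟨(T.b (T.b (T.a (T.a (T.l 204) (T.a (T.l 204) (T.b (T.l 204) (T.l 204)))) (T.a (T.b (T.a (T.l 204) (T.l 204)) (T.l 204)) (T.a (T.l 204) (T.l 204)))) (T.a (T.a (T.l 0) (T.l 0)) (T.a (T.b (T.l 0) (T.l 0)) (T.l 0)))) (T.b (T.a (T.a (T.l 0) (T.l 0)) (T.b (T.l 0) (T.l 0))) (T.a (T.a (T.l 816) (T.l 816)) (T.l 0)))), by decide +kernel⟩

def B022E_400 :
    ∃ t, chk3 (onCell 0 67108864 0 1073741824 587336777 62277027 (corT true 1 c0B cB022E gB4q0 gB0q2 gB0q2 gB1q2 true true)) t 1 1 1 = true :=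
  ⟨(T.l 2), by decide +kernel⟩

def B022E_401 :
    ∃ t, chk3 (onCell 0 67108864 0 1073741824 587336777 62277027 (corT true 1 c0B cB022E gB4q0 gB0q2 gB1q2 gB2q2 true true)) t 1 1 1 = true :=
  ⟨(T.l 2), by decide +kernel⟩

def B022E_402 :
    ∃ t, chk3 (onCell 0 67108864 0 1073741824 587336777 62277027 (corT true 1 c0B cB022E gB4q0 gB0q2 gB2q2 gB3q2 true true)) t 1 1 1 = true :=
  ⟨(T.l 2), by decide +kernel⟩

def B022E_403 :
    ∃ t, chk3 (onCell 0 67108864 0 1073741824 587336777 62277027 (corT true 1 c0B cB022E gB4q0 gB0q2 gB3q2 gB4q2 true true)) t 1 1 1 = true :=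
  ⟨(T.l 2), by decide +kernel⟩

def B022E_404 :
    ∃ t, chk3 (onCell 0 67108864 0 1073741824 587336777 62277027 (corT true 1 c0B cB022E gB4q0 gB0q2 gB4q2 gB5q2 true false)) t 1 1 1 = true :=
  ⟨(T.b (T.b (T.a (T.a (T.l 204) (T.a (T.l 204) (T.b (T.l 204) (T.l 0)))) (T.a (T.a (T.b (T.l 204) (T.l 0)) (T.b (T.l 204) (T.l 0))) (T.a (T.l 0) (T.l 0)))) (T.a (T.a (T.l 0) (T.l 0)) (T.a (T.l 0) (T.l 0)))) (T.b (T.a (T.a (T.l 816) (T.l 0)) (T.a (T.l 0) (T.l 0))) (T.a (T.a (T.l 816) (T.l 816)) (T.b (T.l 0) (T.l 0))))), by decide +kernel⟩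

def B022E_410 :
    ∃ t, chk3 (onCell 0 67108864 0 1073741824 587336777 62277027 (corT true 1 c0B cB022E gB4q0 gB1q2 gB0q2 gB1q2 true true)) t 1 1 1 = true :=
  ⟨(T.l 2), by decide +kernel⟩

def B022E_411 :
    ∃ t, chk3 (onCell 0 67108864 0 1073741824 587336777 62277027 (corT true 1 c0B cB022E gB4q0 gB1q2 gB1q2 gB2q2 true true)) t 1 1 1 = true :=
  ⟨(T.l 2), by decide +kernel⟩

def B022E_412 :
    ∃ t, chk3 (onCell 0 67108864 0 1073741824 587336777 62277027 (corT true 1 c0B cB022E gB4q0 gB1q2 gB2q2 gB3q2 true true)) t 1 1 1 = true :=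
  ⟨(T.l 2), by decide +kernel⟩

def B022E_413 :
    ∃ t, chk3 (onCell 0 67108864 0 1073741824 587336777 62277027 (corT true 1 c0B cB022E gB4q0 gB1q2 gB3q2 gB4q2 true true)) t 1 1 1 = true :=
  ⟨(T.l 2), by decide +kernel⟩

def B022E_414 :
    ∃ t, chk3 (onCell 0 67108864 0 1073741824 587336777 62277027 (corT true 1 c0B cB022E gB4q0 gB1q2 gB4q2 gB5q2 true false)) t 1 1 1 = true :=
  ⟨(T.b (T.b (T.a (T.a (T.l 204) (T.a (T.l 204) (T.a (T.l 204) (T.l 16)))) (T.a (T.b (T.a (T.l 204) (T.l 204)) (T.l 0)) (T.a (T.l 16) (T.l 16)))) (T.a (T.a (T.l 0) (T.l 0)) (T.a (T.l 0) (T.l 0)))) (T.b (T.a (T.a (T.l 816) (T.l 0)) (T.a (T.l 0) (T.l 0))) (T.a (T.a (T.l 816) (T.l 816)) (T.l 0)))), by decide +kernel⟩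

def B022E_420 :
    ∃ t, chk3 (onCell 0 67108864 0 1073741824 587336777 62277027 (corT true 1 c0B cB022E gB4q0 gB2q2 gB0q2 gB1q2 true true)) t 1 1 1 = true :=
  ⟨(T.l 2), by decide +kernel⟩

def B022E_421 :
    ∃ t, chk3 (onCell 0 67108864 0 1073741824 587336777 62277027 (corT true 1 c0B cB022E gB4q0 gB2q2 gB1q2 gB2q2 true true)) t 1 1 1 = true :=
  ⟨(T.l 2), by decide +kernel⟩

def B022E_422 :
    ∃ t, chk3 (onCell 0 67108864 0 1073741824 587336777 62277027 (corT true 1 c0B cB022E gB4q0 gB2q2 gB2q2 gB3q2 true true)) t 1 1 1 = true :=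
  ⟨(T.l 2), by decide +kernel⟩

def B022E_423 :
    ∃ t, chk3 (onCell 0 67108864 0 1073741824 587336777 62277027 (corT true 1 c0B cB022E gB4q0 gB2q2 gB3q2 gB4q2 true true)) t 1 1 1 = true :=
  ⟨(T.l 2), by decide +kernel⟩

def B022E_424 :
    ∃ t, chk3 (onCell 0 67108864 0 1073741824 587336777 62277027 (corT true 1 c0B cB022E gB4q0 gB2q2 gB4q2 gB5q2 true false)) t 1 1 1 = true :=
  ⟨(T.b (T.b (T.a (T.a (T.l 204) (T.a (T.l 204) (T.a (T.l 204) (T.l 204)))) (T.a (T.b (T.a (T.l 204) (T.l 204)) (T.l 0)) (T.b (T.c (T.l 204) (T.l 204)) (T.l 0)))) (T.a (T.a (T.l 0) (T.l 0)) (T.a (T.l 0) (T.l 0)))) (T.b (T.a (T.a (T.l 816) (T.l 0)) (T.b (T.l 0) (T.l 0))) (T.a (T.a (T.l 816) (T.l 816)) (T.l 0)))), by decide +kernel⟩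

def B022E_430 :
    ∃ t, chk3 (onCell 0 67108864 0 1073741824 587336777 62277027 (corT true 1 c0B cB022E gB4q0 gB3q2 gB0q2 gB1q2 true true)) t 1 1 1 = true :=
  ⟨(T.l 2), by decide +kernel⟩

def B022E_431 :
    ∃ t, chk3 (onCell 0 67108864 0 1073741824 587336777 62277027 (corT true 1 c0B cB022E gB4q0 gB3q2 gB1q2 gB2q2 true true)) t 1 1 1 = true :=
  ⟨(T.l 2), by decide +kernel⟩

def B022E_432 :
    ∃ t, chk3 (onCell 0 67108864 0 1073741824 587336777 62277027 (corT true 1 c0B cB022E gB4q0 gB3q2 gB2q2 gB3q2 true true)) t 1 1 1 = true :=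
  ⟨(T.l 2), by decide +kernel⟩

def B022E_433 :
    ∃ t, chk3 (onCell 0 67108864 0 1073741824 587336777 62277027 (corT true 1 c0B cB022E gB4q0 gB3q2 gB3q2 gB4q2 true true)) t 1 1 1 = true :=
  ⟨(T.l 2), by decide +kernel⟩

def B022E_434 :
    ∃ t, chk3 (onCell 0 67108864 0 1073741824 587336777 62277027 (corT true 1 c0B cB022E gB4q0 gB3q2 gB4q2 gB5q2 true false)) t 1 1 1 = true :=
  ⟨(T.b (T.b (T.a (T.a (T.l 204) (T.a (T.l 204) (T.a (T.l 204) (T.l 204)))) (T.a (T.b (T.a (T.l 204) (T.l 204)) (T.l 0)) (T.b (T.c (T.l 204) (T.l 204)) (T.l 0)))) (T.a (T.a (T.l 0) (T.l 0)) (T.a (T.l 0) (T.l 0)))) (T.b (T.a (T.a (T.l 816) (T.l 0)) (T.b (T.l 0) (T.l 0))) (T.a (T.a (T.l 816) (T.l 816)) (T.l 816)))), by decide +kernel⟩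

def B022E_440 :
    ∃ t, chk3 (onCell 0 67108864 0 1073741824 587336777 62277027 (corT true 1 c0B cB022E gB4q0 gB4q2 gB0q2 gB1q2 true true)) t 1 1 1 = true :=
  ⟨(T.l 2), by decide +kernel⟩

def B022E_441 :
    ∃ t, chk3 (onCell 0 67108864 0 1073741824 587336777 62277027 (corT true 1 c0B cB022E gB4q0 gB4q2 gB1q2 gB2q2 true true)) t 1 1 1 = true :=
  ⟨(T.l 2), by decide +kernel⟩

def B022E_442 :
    ∃ t, chk3 (onCell 0 67108864 0 1073741824 587336777 62277027 (corT true 1 c0B cB022E gB4q0 gB4q2 gB2q2 gB3q2 true true)) t 1 1 1 = true :=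
  ⟨(T.l 2), by decide +kernel⟩

def B022E_443 :
    ∃ t, chk3 (onCell 0 67108864 0 1073741824 587336777 62277027 (corT true 1 c0B cB022E gB4q0 gB4q2 gB3q2 gB4q2 true true)) t 1 1 1 = true :=
  ⟨(T.l 2), by decide +kernel⟩

def B022E_444 :
    ∃ t, chk3 (onCell 0 67108864 0 1073741824 587336777 62277027 (corT true 1 c0B cB022E gB4q0 gB4q2 gB4q2 gB5q2 true false)) t 1 1 1 = true :=
  ⟨(T.b (T.b (T.a (T.a (T.l 204) (T.a (T.l 204) (T.b (T.l 204) (T.l 204)))) (T.a (T.b (T.a (T.l 204) (T.l 204)) (T.l 0)) (T.b (T.b (T.l 204) (T.l 204)) (T.l 0)))) (T.a (T.a (T.l 0) (T.l 0)) (T.a (T.l 0) (T.l 0)))) (T.b (T.a (T.a (T.l 816) (T.l 0)) (T.b (T.l 0) (T.l 816))) (T.a (T.a (T.l 816) (T.l 816)) (T.l 816)))), by decide +kernel⟩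

def B022L_070 :
    ∃ t, chk3 (onCell 0 67108864 0 1073741824 587336777 62277027 (corX 1 c0B cB022L tB022L gB0q0 gB7q2 gB0q2 gB1q2 gB0q2 true true)) t 1 1 1 = true :=
  ⟨(T.b (T.l 2) (T.b (T.b (T.l 2) (T.b (T.b (T.a (T.l 3) (T.l 3)) (T.a (T.l 3) (T.l 3))) (T.l 1))) (T.l 1))), by decide +kernel⟩

def B022L_071 :
    ∃ t, chk3 (onCell 0 67108864 0 1073741824 587336777 62277027 (corT true 1 c0B cB022L gB0q0 gB7q2 gB1q2 gB2q2 true true)) t 1 1 1 = true :=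
  ⟨(T.b (T.b (T.l 2) (T.l 2)) (T.b (T.b (T.b (T.b (T.l 2) (T.l 0)) (T.a (T.a (T.l 0) (T.l 0)) (T.a (T.l 0) (T.l 0)))) (T.b (T.b (T.a (T.b (T.a (T.l 0) (T.l 0)) (T.a (T.l 1) (T.b (T.l 816) (T.l 1)))) (T.b (T.l 0) (T.b (T.l 0) (T.l 1)))) (T.l 1)) (T.l 1))) (T.l 1))), by decide +kernel⟩

def B022L_072 :
    ∃ t, chk3 (onCell 0 67108864 0 1073741824 587336777 62277027 (corT true 1 c0B cB022L gB0q0 gB7q2 gB2q2 gB3q2 true true)) t 1 1 1 = true :=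
  ⟨(T.b (T.b (T.l 2) (T.b (T.l 2) (T.a (T.l 0) (T.a (T.l 0) (T.b (T.l 2) (T.a (T.l 0) (T.b (T.l 0) (T.l 0)))))))) (T.b (T.b (T.b (T.a (T.l 0) (T.a (T.l 0) (T.a (T.l 0) (T.b (T.l 0) (T.l 0))))) (T.b (T.a (T.l 0) (T.l 0)) (T.l 1))) (T.l 1)) (T.l 1))), by decide +kernel⟩

def B022L_073 :
    ∃ t, chk3 (onCell 0 67108864 0 1073741824 587336777 62277027 (corT true 1 c0B cB022L gB0q0 gB7q2 gB3q2 gB4q2 true true)) t 1 1 1 = true :=
  ⟨(T.b (T.b (T.b (T.b (T.a (T.b (T.a (T.l 204) (T.a (T.l 204) (T.l 0))) (T.l 204)) (T.a (T.b (T.l 0) (T.l 0)) (T.l 0))) (T.a (T.l 204) (T.a (T.b (T.l 0) (T.l 0)) (T.l 0)))) (T.a (T.l 204) (T.a (T.a (T.l 0) (T.l 0)) (T.b (T.l 0) (T.l 0))))) (T.a (T.l 0) (T.b (T.a (T.a (T.l 204) (T.l 0)) (T.b (T.l 0) (T.l 0))) (T.a (T.l 0) (T.b (T.l 0) (T.b (T.l 0) (T.l 1))))))) (T.l 1)), by decide +kernel⟩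

def B022L_074 :
    ∃ t, chk3 (onCell 0 67108864 0 1073741824 587336777 62277027 (corT true 1 c0B cB022L gB0q0 gB7q2 gB4q2 gB5q2 true false)) t 1 1 1 = true :=
  ⟨(T.l 1), by decide +kernel⟩

def B022L_170 :
    ∃ t, chk3 (onCell 0 67108864 0 1073741824 587336777 62277027 (corT true 1 c0B cB022L gB1q0 gB7q2 gB0q2 gB1q2 true true)) t 1 1 1 = true :=
  ⟨(T.b (T.l 2) (T.b (T.b (T.b (T.l 2) (T.a (T.a (T.l 0) (T.l 0)) (T.a (T.l 0) (T.l 0)))) (T.b (T.a (T.l 1) (T.b (T.l 0) (T.l 1))) (T.l 1))) (T.l 1))), by decide +kernel⟩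

def B022L_171 :
    ∃ t, chk3 (onCell 0 67108864 0 1073741824 587336777 62277027 (corT true 1 c0B cB022L gB1q0 gB7q2 gB1q2 gB2q2 true true)) t 1 1 1 = true :=
  ⟨(T.b (T.b (T.l 2) (T.b (T.l 2) (T.a (T.l 0) (T.l 2)))) (T.b (T.b (T.b (T.b (T.b (T.a (T.l 0) (T.a (T.l 816) (T.l 2))) (T.l 0)) (T.l 0)) (T.l 0)) (T.l 1)) (T.l 1))), by decide +kernel⟩

def B022L_172 :
    ∃ t, chk3 (onCell 0 67108864 0 1073741824 587336777 62277027 (corT true 1 c0B cB022L gB1q0 gB7q2 gB2q2 gB3q2 true true)) t 1 1 1 = true :=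
  ⟨(T.b (T.b (T.l 2) (T.a (T.l 0) (T.b (T.l 2) (T.a (T.l 0) (T.b (T.b (T.l 0) (T.l 0)) (T.b (T.l 0) (T.l 0))))))) (T.b (T.b (T.a (T.l 0) (T.b (T.a (T.l 0) (T.b (T.l 0) (T.l 1))) (T.l 1))) (T.l 1)) (T.l 1))), by decide +kernel⟩

def B022L_173 :
    ∃ t, chk3 (onCell 0 67108864 0 1073741824 587336777 62277027 (corT true 1 c0B cB022L gB1q0 gB7q2 gB3q2 gB4q2 true true)) t 1 1 1 = true :=
  ⟨(T.b (T.b (T.b (T.b (T.a (T.b (T.a (T.l 204) (T.a (T.l 204) (T.l 0))) (T.l 204)) (T.a (T.b (T.l 0) (T.l 0)) (T.l 0))) (T.a (T.l 204) (T.a (T.b (T.l 0) (T.l 0)) (T.l 0)))) (T.a (T.l 204) (T.a (T.b (T.l 0) (T.l 0)) (T.b (T.l 0) (T.l 0))))) (T.a (T.l 0) (T.b (T.a (T.b (T.l 0) (T.l 0)) (T.b (T.l 0) (T.l 0))) (T.b (T.a (T.l 0) (T.l 0)) (T.l 1))))) (T.l 1)), by decide +kernel⟩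

def B022L_174 :
    ∃ t, chk3 (onCell 0 67108864 0 1073741824 587336777 62277027 (corT true 1 c0B cB022L gB1q0 gB7q2 gB4q2 gB5q2 true false)) t 1 1 1 = true :=
  ⟨(T.l 1), by decide +kernel⟩

def B022L_270 :
    ∃ t, chk3 (onCell 0 67108864 0 1073741824 587336777 62277027 (corT true 1 c0B cB022L gB2q0 gB7q2 gB0q2 gB1q2 true true)) t 1 1 1 = true :=
  ⟨(T.b (T.b (T.l 2) (T.b (T.l 2) (T.a (T.b (T.l 2) (T.l 0)) (T.l 2)))) (T.b (T.b (T.b (T.b (T.b (T.a (T.l 816) (T.a (T.l 816) (T.l 2))) (T.l 0)) (T.l 0)) (T.l 1)) (T.l 1)) (T.l 1))), by decide +kernel⟩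

def B022L_271 :
    ∃ t, chk3 (onCell 0 67108864 0 1073741824 587336777 62277027 (corT true 1 c0B cB022L gB2q0 gB7q2 gB1q2 gB2q2 true true)) t 1 1 1 = true :=
  ⟨(T.b (T.b (T.l 2) (T.a (T.l 0) (T.b (T.l 2) (T.a (T.l 816) (T.b (T.b (T.l 2) (T.l 0)) (T.b (T.l 0) (T.l 0))))))) (T.b (T.b (T.a (T.l 816) (T.b (T.a (T.l 816) (T.b (T.l 0) (T.l 1))) (T.l 1))) (T.l 1)) (T.l 1))), by decide +kernel⟩

def B022L_272 :
    ∃ t, chk3 (onCell 0 67108864 0 1073741824 587336777 62277027 (corT true 1 c0B cB022L gB2q0 gB7q2 gB2q2 gB3q2 true true)) t 1 1 1 = true :=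
  ⟨(T.b (T.b (T.l 2) (T.b (T.a (T.l 0) (T.b (T.a (T.l 2) (T.l 2)) (T.a (T.b (T.l 0) (T.l 816)) (T.b (T.l 0) (T.l 0))))) (T.a (T.l 0) (T.a (T.l 816) (T.b (T.l 0) (T.l 0)))))) (T.l 1)), by decide +kernel⟩

def B022L_273 :
    ∃ t, chk3 (onCell 0 67108864 0 1073741824 587336777 62277027 (corT true 1 c0B cB022L gB2q0 gB7q2 gB3q2 gB4q2 true true)) t 1 1 1 = true :=
  ⟨(T.b (T.b (T.b (T.b (T.b (T.a (T.a (T.l 204) (T.a (T.l 204) (T.l 0))) (T.a (T.l 0) (T.l 0))) (T.a (T.l 204) (T.a (T.l 0) (T.l 0)))) (T.a (T.l 204) (T.a (T.l 0) (T.l 0)))) (T.a (T.l 0) (T.a (T.b (T.l 0) (T.l 0)) (T.l 0)))) (T.b (T.a (T.l 0) (T.a (T.b (T.l 0) (T.l 0)) (T.l 0))) (T.l 1))) (T.l 1)), by decide +kernel⟩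

def B022L_274 :
    ∃ t, chk3 (onCell 0 67108864 0 1073741824 587336777 62277027 (corT true 1 c0B cB022L gB2q0 gB7q2 gB4q2 gB5q2 true false)) t 1 1 1 = true :=
  ⟨(T.l 1), by decide +kernel⟩

def B022L_370 :
    ∃ t, chk3 (onCell 0 67108864 0 1073741824 587336777 62277027 (corT true 1 c0B cB022L gB3q0 gB7q2 gB0q2 gB1q2 true true)) t 1 1 1 = true :=
  ⟨(T.b (T.b (T.l 2) (T.b (T.l 2) (T.a (T.l 0) (T.a (T.l 816) (T.b (T.l 2) (T.b (T.l 0) (T.l 0))))))) (T.b (T.b (T.l 1) (T.l 1)) (T.l 1))), by decide +kernel⟩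

def B022L_371 :
    ∃ t, chk3 (onCell 0 67108864 0 1073741824 587336777 62277027 (corT true 1 c0B cB022L gB3q0 gB7q2 gB1q2 gB2q2 true true)) t 1 1 1 = true :=
  ⟨(T.b (T.b (T.l 2) (T.a (T.l 0) (T.b (T.b (T.l 2) (T.a (T.b (T.l 2) (T.l 816)) (T.l 2))) (T.a (T.l 816) (T.b (T.b (T.l 0) (T.l 0)) (T.l 0)))))) (T.l 1)), by decide +kernel⟩

def B022L_372 :
    ∃ t, chk3 (onCell 0 67108864 0 1073741824 587336777 62277027 (corT true 1 c0B cB022L gB3q0 gB7q2 gB2q2 gB3q2 true true)) t 1 1 1 = true :=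
  ⟨(T.b (T.b (T.b (T.l 2) (T.a (T.l 0) (T.l 2))) (T.b (T.a (T.l 0) (T.b (T.a (T.b (T.l 0) (T.l 0)) (T.l 0)) (T.a (T.l 64) (T.l 0)))) (T.a (T.l 1) (T.b (T.a (T.l 816) (T.l 0)) (T.l 1))))) (T.l 1)), by decide +kernel⟩

def B022L_373 :
    ∃ t, chk3 (onCell 0 67108864 0 1073741824 587336777 62277027 (corT true 1 c0B cB022L gB3q0 gB7q2 gB3q2 gB4q2 true true)) t 1 1 1 = true :=
  ⟨(T.b (T.b (T.b (T.b (T.b (T.a (T.a (T.l 204) (T.a (T.l 204) (T.l 0))) (T.a (T.l 0) (T.l 0))) (T.a (T.l 204) (T.a (T.l 0) (T.l 0)))) (T.a (T.l 204) (T.a (T.l 0) (T.l 0)))) (T.a (T.l 0) (T.a (T.b (T.l 0) (T.l 0)) (T.l 0)))) (T.b (T.a (T.l 0) (T.a (T.b (T.l 0) (T.l 1)) (T.l 0))) (T.l 1))) (T.l 1)), by decide +kernel⟩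

def B022L_374 :
    ∃ t, chk3 (onCell 0 67108864 0 1073741824 587336777 62277027 (corT true 1 c0B cB022L gB3q0 gB7q2 gB4q2 gB5q2 true false)) t 1 1 1 = true :=
  ⟨(T.l 1), by decide +kernel⟩

def B022L_470 :
    ∃ t, chk3 (onCell 0 67108864 0 1073741824 587336777 62277027 (corT true 1 c0B cB022L gB4q0 gB7q2 gB0q2 gB1q2 true true)) t 1 1 1 = true :=
  ⟨(T.b (T.b (T.l 2) (T.b (T.b (T.l 2) (T.a (T.l 816) (T.b (T.l 2) (T.a (T.l 816) (T.c (T.l 0) (T.l 0)))))) (T.a (T.l 0) (T.b (T.a (T.l 816) (T.b (T.l 0) (T.l 1))) (T.l 1))))) (T.l 1)), by decide +kernel⟩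

def B022L_471 :
    ∃ t, chk3 (onCell 0 67108864 0 1073741824 587336777 62277027 (corT true 1 c0B cB022L gB4q0 gB7q2 gB1q2 gB2q2 true true)) t 1 1 1 = true :=
  ⟨(T.b (T.b (T.b (T.l 2) (T.l 2)) (T.b (T.a (T.l 816) (T.b (T.b (T.l 2) (T.a (T.l 0) (T.l 0))) (T.a (T.b (T.l 0) (T.l 816)) (T.l 0)))) (T.l 1))) (T.l 1)), by decide +kernel⟩

def B022L_472 :
    ∃ t, chk3 (onCell 0 67108864 0 1073741824 587336777 62277027 (corT true 1 c0B cB022L gB4q0 gB7q2 gB2q2 gB3q2 true true)) t 1 1 1 = true :=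
  ⟨(T.b (T.b (T.b (T.l 2) (T.a (T.l 0) (T.b (T.l 2) (T.a (T.b (T.l 0) (T.l 0)) (T.l 0))))) (T.b (T.a (T.l 816) (T.b (T.a (T.l 0) (T.l 0)) (T.l 1))) (T.l 1))) (T.l 1)), by decide +kernel⟩

def B022L_473 :
    ∃ t, chk3 (onCell 0 67108864 0 1073741824 587336777 62277027 (corT true 1 c0B cB022L gB4q0 gB7q2 gB3q2 gB4q2 true true)) t 1 1 1 = true :=
  ⟨(T.b (T.b (T.b (T.b (T.b (T.b (T.a (T.a (T.l 204) (T.a (T.l 204) (T.l 204))) (T.a (T.l 0) (T.l 0))) (T.a (T.l 204) (T.a (T.l 0) (T.l 0)))) (T.a (T.l 204) (T.a (T.l 0) (T.l 0)))) (T.a (T.l 0) (T.a (T.l 0) (T.l 0)))) (T.a (T.l 0) (T.a (T.l 0) (T.l 0)))) (T.l 1)) (T.l 1)), by decide +kernel⟩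

def B022L_474 :
    ∃ t, chk3 (onCell 0 67108864 0 1073741824 587336777 62277027 (corT true 1 c0B cB022L gB4q0 gB7q2 gB4q2 gB5q2 true false)) t 1 1 1 = true :=
  ⟨(T.l 1), by decide +kernel⟩

def B022R_006 :
    ∃ t, chk3 (onCell 0 67108864 0 1073741824 587336777 62277027 (corT true 1 c0B cB022R gB0q0 gB0q2 gB6q2 gB7q2 false true)) t 1 1 1 = true :=
  ⟨(T.a (T.a (T.b (T.b (T.l 204) (T.l 204)) (T.l 0)) (T.b (T.a (T.l 204) (T.l 220)) (T.l 0))) (T.a (T.b (T.a (T.b (T.l 204) (T.l 204)) (T.l 220)) (T.l 0)) (T.b (T.b (T.a (T.l 204) (T.l 204)) (T.l 0)) (T.l 0)))), by decide +kernel⟩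

def B022R_016 :
    ∃ t, chk3 (onCell 0 67108864 0 1073741824 587336777 62277027 (corT true 1 c0B cB022R gB0q0 gB1q2 gB6q2 gB7q2 false true)) t 1 1 1 = true :=
  ⟨(T.a (T.a (T.b (T.l 204) (T.l 0)) (T.a (T.b (T.l 204) (T.l 0)) (T.b (T.l 0) (T.l 0)))) (T.a (T.b (T.a (T.l 0) (T.l 0)) (T.l 0)) (T.b (T.a (T.l 0) (T.l 0)) (T.l 0)))), by decide +kernel⟩

def B022R_026 :
    ∃ t, chk3 (onCell 0 67108864 0 1073741824 587336777 62277027 (corT true 1 c0B cB022R gB0q0 gB2q2 gB6q2 gB7q2 false true)) t 1 1 1 = true :=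
  ⟨(T.a (T.a (T.b (T.l 0) (T.l 0)) (T.a (T.l 0) (T.l 16))) (T.a (T.b (T.l 0) (T.l 0)) (T.b (T.l 0) (T.l 0)))), by decide +kernel⟩

def B022R_036 :
    ∃ t, chk3 (onCell 0 67108864 0 1073741824 587336777 62277027 (corT true 1 c0B cB022R gB0q0 gB3q2 gB6q2 gB7q2 false true)) t 1 1 1 = true :=
  ⟨(T.a (T.a (T.l 0) (T.a (T.l 0) (T.l 0))) (T.a (T.b (T.l 0) (T.l 0)) (T.b (T.l 0) (T.l 816)))), by decide +kernel⟩

def B022R_046 :
    ∃ t, chk3 (onCell 0 67108864 0 1073741824 587336777 62277027 (corT true 1 c0B cB022R gB0q0 gB4q2 gB6q2 gB7q2 false true)) t 1 1 1 = true :=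
  ⟨(T.b (T.a (T.a (T.l 0) (T.l 0)) (T.l 0)) (T.a (T.a (T.l 816) (T.l 816)) (T.b (T.l 816) (T.l 816)))), by decide +kernel⟩

def B022R_106 :
    ∃ t, chk3 (onCell 0 67108864 0 1073741824 587336777 62277027 (corT true 1 c0B cB022R gB1q0 gB0q2 gB6q2 gB7q2 false true)) t 1 1 1 = true :=
  ⟨(T.a (T.a (T.b (T.b (T.l 204) (T.l 204)) (T.l 0)) (T.b (T.a (T.l 204) (T.l 204)) (T.l 0))) (T.a (T.b (T.a (T.b (T.l 204) (T.l 204)) (T.l 16)) (T.l 0)) (T.b (T.b (T.a (T.l 204) (T.l 204)) (T.l 0)) (T.l 0)))), by decide +kernel⟩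

def B022R_116 :
    ∃ t, chk3 (onCell 0 67108864 0 1073741824 587336777 62277027 (corT true 1 c0B cB022R gB1q0 gB1q2 gB6q2 gB7q2 false true)) t 1 1 1 = true :=
  ⟨(T.a (T.a (T.b (T.l 0) (T.l 0)) (T.a (T.l 0) (T.b (T.l 0) (T.l 0)))) (T.a (T.b (T.a (T.l 0) (T.l 0)) (T.l 0)) (T.b (T.a (T.l 0) (T.l 0)) (T.l 0)))), by decide +kernel⟩

def B022R_126 :
    ∃ t, chk3 (onCell 0 67108864 0 1073741824 587336777 62277027 (corT true 1 c0B cB022R gB1q0 gB2q2 gB6q2 gB7q2 false true)) t 1 1 1 = true :=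
  ⟨(T.a (T.a (T.l 0) (T.a (T.l 0) (T.l 0))) (T.a (T.b (T.l 0) (T.l 0)) (T.b (T.l 0) (T.l 0)))), by decide +kernel⟩

def B022R_136 :
    ∃ t, chk3 (onCell 0 67108864 0 1073741824 587336777 62277027 (corT true 1 c0B cB022R gB1q0 gB3q2 gB6q2 gB7q2 false true)) t 1 1 1 = true :=
  ⟨(T.a (T.a (T.l 0) (T.a (T.l 0) (T.l 0))) (T.a (T.b (T.l 0) (T.l 816)) (T.b (T.l 0) (T.l 816)))), by decide +kernel⟩

def B022R_146 :
    ∃ t, chk3 (onCell 0 67108864 0 1073741824 587336777 62277027 (corT true 1 c0B cB022R gB1q0 gB4q2 gB6q2 gB7q2 false true)) t 1 1 1 = true :=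
  ⟨(T.a (T.a (T.l 0) (T.l 0)) (T.b (T.l 0) (T.l 816))), by decide +kernel⟩

def B022R_206 :
    ∃ t, chk3 (onCell 0 67108864 0 1073741824 587336777 62277027 (corT true 1 c0B cB022R gB2q0 gB0q2 gB6q2 gB7q2 false true)) t 1 1 1 = true :=
  ⟨(T.a (T.a (T.b (T.b (T.l 204) (T.l 0)) (T.l 0)) (T.b (T.a (T.l 0) (T.l 16)) (T.l 0))) (T.a (T.b (T.a (T.b (T.l 204) (T.l 0)) (T.l 16)) (T.l 0)) (T.b (T.b (T.a (T.l 204) (T.l 204)) (T.l 0)) (T.l 0)))), by decide +kernel⟩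

def B022R_216 :
    ∃ t, chk3 (onCell 0 67108864 0 1073741824 587336777 62277027 (corT true 1 c0B cB022R gB2q0 gB1q2 gB6q2 gB7q2 false true)) t 1 1 1 = true :=
  ⟨(T.a (T.a (T.b (T.l 0) (T.l 0)) (T.a (T.l 16) (T.b (T.l 0) (T.l 0)))) (T.a (T.b (T.a (T.l 0) (T.l 0)) (T.l 0)) (T.b (T.a (T.l 0) (T.l 0)) (T.l 0)))), by decide +kernel⟩

def B022R_226 :
    ∃ t, chk3 (onCell 0 67108864 0 1073741824 587336777 62277027 (corT true 1 c0B cB022R gB2q0 gB2q2 gB6q2 gB7q2 false true)) t 1 1 1 = true :=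
  ⟨(T.a (T.a (T.l 0) (T.a (T.l 0) (T.l 0))) (T.a (T.b (T.l 0) (T.l 816)) (T.b (T.l 0) (T.l 816)))), by decide +kernel⟩

def B022R_236 :
    ∃ t, chk3 (onCell 0 67108864 0 1073741824 587336777 62277027 (corT true 1 c0B cB022R gB2q0 gB3q2 gB6q2 gB7q2 false true)) t 1 1 1 = true :=
  ⟨(T.a (T.a (T.l 0) (T.a (T.l 0) (T.l 0))) (T.a (T.b (T.l 0) (T.l 816)) (T.b (T.l 0) (T.l 816)))), by decide +kernel⟩

def B022R_246 :
    ∃ t, chk3 (onCell 0 67108864 0 1073741824 587336777 62277027 (corT true 1 c0B cB022R gB2q0 gB4q2 gB6q2 gB7q2 false true)) t 1 1 1 = true :=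
  ⟨(T.b (T.l 2) (T.a (T.l 2) (T.l 816))), by decide +kernel⟩

def B022R_306 :
    ∃ t, chk3 (onCell 0 67108864 0 1073741824 587336777 62277027 (corT true 1 c0B cB022R gB3q0 gB0q2 gB6q2 gB7q2 false true)) t 1 1 1 = true :=
  ⟨(T.a (T.a (T.b (T.b (T.l 204) (T.l 0)) (T.l 0)) (T.b (T.a (T.l 0) (T.b (T.l 204) (T.l 0))) (T.l 0))) (T.a (T.b (T.a (T.b (T.l 204) (T.l 0)) (T.b (T.l 204) (T.l 0))) (T.l 0)) (T.b (T.b (T.a (T.l 204) (T.l 204)) (T.l 0)) (T.l 0)))), by decide +kernel⟩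

def B022R_316 :
    ∃ t, chk3 (onCell 0 67108864 0 1073741824 587336777 62277027 (corT true 1 c0B cB022R gB3q0 gB1q2 gB6q2 gB7q2 false true)) t 1 1 1 = true :=
  ⟨(T.a (T.a (T.b (T.l 0) (T.l 816)) (T.a (T.b (T.l 0) (T.l 816)) (T.b (T.l 0) (T.l 816)))) (T.a (T.b (T.a (T.l 0) (T.l 0)) (T.l 0)) (T.b (T.a (T.l 0) (T.l 0)) (T.l 816)))), by decide +kernel⟩

def B022R_326 :
    ∃ t, chk3 (onCell 0 67108864 0 1073741824 587336777 62277027 (corT true 1 c0B cB022R gB3q0 gB2q2 gB6q2 gB7q2 false true)) t 1 1 1 = true :=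
  ⟨(T.a (T.a (T.l 16) (T.a (T.l 0) (T.l 0))) (T.b (T.a (T.l 0) (T.l 0)) (T.l 4))), by decide +kernel⟩

def B022R_336 :
    ∃ t, chk3 (onCell 0 67108864 0 1073741824 587336777 62277027 (corT true 1 c0B cB022R gB3q0 gB3q2 gB6q2 gB7q2 false true)) t 1 1 1 = true :=
  ⟨(T.a (T.a (T.l 0) (T.a (T.l 0) (T.l 0))) (T.a (T.b (T.l 0) (T.l 816)) (T.b (T.l 0) (T.l 816)))), by decide +kernel⟩

def B022R_346 :
    ∃ t, chk3 (onCell 0 67108864 0 1073741824 587336777 62277027 (corT true 1 c0B cB022R gB3q0 gB4q2 gB6q2 gB7q2 false true)) t 1 1 1 = true :=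
  ⟨(T.l 2), by decide +kernel⟩

def B022R_406 :
    ∃ t, chk3 (onCell 0 67108864 0 1073741824 587336777 62277027 (corT true 1 c0B cB022R gB4q0 gB0q2 gB6q2 gB7q2 false true)) t 1 1 1 = true :=
  ⟨(T.a (T.a (T.b (T.b (T.l 204) (T.l 0)) (T.l 816)) (T.b (T.a (T.b (T.l 204) (T.l 0)) (T.b (T.l 0) (T.l 0))) (T.l 0))) (T.a (T.b (T.b (T.a (T.l 16) (T.l 0)) (T.l 0)) (T.l 816)) (T.b (T.b (T.a (T.l 0) (T.l 0)) (T.l 0)) (T.l 816)))), by decide +kernel⟩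

def B022R_416 :
    ∃ t, chk3 (onCell 0 67108864 0 1073741824 587336777 62277027 (corT true 1 c0B cB022R gB4q0 gB1q2 gB6q2 gB7q2 false true)) t 1 1 1 = true :=
  ⟨(T.a (T.a (T.b (T.l 16) (T.l 816)) (T.b (T.a (T.l 0) (T.l 16)) (T.l 816))) (T.b (T.a (T.a (T.l 0) (T.l 16)) (T.b (T.b (T.l 204) (T.l 0)) (T.l 0))) (T.l 4))), by decide +kernel⟩

def B022R_426 :
    ∃ t, chk3 (onCell 0 67108864 0 1073741824 587336777 62277027 (corT true 1 c0B cB022R gB4q0 gB2q2 gB6q2 gB7q2 false true)) t 1 1 1 = true :=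
  ⟨(T.a (T.a (T.b (T.l 0) (T.l 816)) (T.b (T.a (T.l 0) (T.l 0)) (T.l 816))) (T.b (T.a (T.b (T.l 0) (T.l 816)) (T.l 16)) (T.l 816))), by decide +kernel⟩

def B022R_436 :
    ∃ t, chk3 (onCell 0 67108864 0 1073741824 587336777 62277027 (corT true 1 c0B cB022R gB4q0 gB3q2 gB6q2 gB7q2 false true)) t 1 1 1 = true :=
  ⟨(T.b (T.a (T.a (T.l 0) (T.b (T.l 0) (T.l 816))) (T.a (T.l 0) (T.l 0))) (T.a (T.a (T.l 816) (T.l 816)) (T.l 816))), by decide +kernel⟩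

def B022R_446 :
    ∃ t, chk3 (onCell 0 67108864 0 1073741824 587336777 62277027 (corT true 1 c0B cB022R gB4q0 gB4q2 gB6q2 gB7q2 false true)) t 1 1 1 = true :=
  ⟨(T.l 2), by decide +kernel⟩

def B101E_000 :
    ∃ t, chk3 (onCell 0 67108864 0 1073741824 587336777 62277027 (corT true 1 c0B cB101E gB0q1 gB0q1 gB0q0 gB1q0 true true)) t 1 1 1 = true :=
  ⟨(T.l 2), by decide +kernel⟩

def B101E_001 :
    ∃ t, chk3 (onCell 0 67108864 0 1073741824 587336777 62277027 (corT true 1 c0B cB101E gB0q1 gB0q1 gB1q0 gB2q0 true true)) t 1 1 1 = true :=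
  ⟨(T.l 2), by decide +kernel⟩

def B101E_002 :
    ∃ t, chk3 (onCell 0 67108864 0 1073741824 587336777 62277027 (corT true 1 c0B cB101E gB0q1 gB0q1 gB2q0 gB3q0 true true)) t 1 1 1 = true :=
  ⟨(T.l 2), by decide +kernel⟩

def B101E_003 :
    ∃ t, chk3 (onCell 0 67108864 0 1073741824 587336777 62277027 (corT true 1 c0B cB101E gB0q1 gB0q1 gB3q0 gB4q0 true true)) t 1 1 1 = true :=
  ⟨(T.b (T.l 2) (T.l 2)), by decide +kernel⟩

def B101E_004_2_1_1 :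
    ∃ t, chk3 (onCell 0 67108864 0 1073741824 587336777 62277027 (corT true 1 c0B cB101E gB0q1 gB0q1 gB4q0 gB5q0 true false)) t 2 1 1 = true :=
  ⟨(T.b (T.b (T.a (T.b (T.a (T.c (T.b (T.l 204) (T.l 204)) (T.b (T.l 204) (T.l 204))) (T.c (T.l 236) (T.l 236))) (T.c (T.a (T.l 236) (T.l 204)) (T.b (T.l 236) (T.l 236)))) (T.b (T.a (T.c (T.l 236) (T.l 236)) (T.b (T.l 236) (T.l 236))) (T.c (T.b (T.l 236) (T.l 236)) (T.b (T.l 236) (T.l 236))))) (T.a (T.b (T.c (T.b (T.l 204) (T.l 204)) (T.b (T.l 204) (T.l 204))) (T.c (T.b (T.l 204) (T.l 204)) (T.b (T.l 204) (T.l 204)))) (T.b (T.c (T.b (T.l 204) (T.l 204)) (T.b (T.l 204) (T.l 204))) (T.c (T.b (T.l 204) (T.l 204)) (T.b (T.l 204) (T.l 204)))))) (T.b (T.b (T.a (T.c (T.b (T.l 204) (T.l 204)) (T.b (T.l 204) (T.l 204))) (T.c (T.b (T.l 204) (T.l 204)) (T.l 236))) (T.a (T.c (T.b (T.l 204) (T.l 204)) (T.l 236)) (T.c (T.l 236) (T.l 236))))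 (T.b (T.a (T.c (T.l 236) (T.l 204)) (T.b (T.l 236) (T.l 236))) (T.a (T.c (T.l 204) (T.l 204)) (T.b (T.l 236) (T.l 204)))))), by decide +kernel⟩

def B101E_004_3_1_1 :
    ∃ t, chk3 (onCell 0 67108864 0 1073741824 587336777 62277027 (corT true 1 c0B cB101E gB0q1 gB0q1 gB4q0 gB5q0 true false)) t 3 1 1 = true :=
  ⟨(T.b (T.b (T.a (T.a (T.b (T.b (T.l 236) (T.l 236)) (T.b (T.l 236) (T.l 236))) (T.b (T.b (T.l 236) (T.l 236)) (T.b (T.l 236) (T.l 236)))) (T.b (T.a (T.b (T.l 204) (T.l 236)) (T.l 236)) (T.a (T.b (T.l 236) (T.l 236)) (T.b (T.l 204) (T.l 204))))) (T.a (T.a (T.b (T.b (T.l 236) (T.l 236)) (T.b (T.l 236) (T.l 236))) (T.b (T.b (T.l 236) (T.l 236)) (T.b (T.l 236) (T.l 236)))) (T.b (T.a (T.b (T.l 236) (T.l 236)) (T.b (T.l 236) (T.l 236))) (T.a (T.l 236) (T.b (T.l 204) (T.l 236)))))) (T.a (T.b (T.a (T.b (T.b (T.l 204) (T.l 204)) (T.b (T.l 204) (T.l 204))) (T.b (T.b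 (T.l 236) (T.l 236)) (T.b (T.l 204) (T.l 204)))) (T.a (T.b (T.b (T.l 204) (T.l 204)) (T.l 236)) (T.b (T.b (T.l 204) (T.l 204)) (T.b (T.l 204) (T.l 204))))) (T.b (T.b (T.a (T.b (T.l 204) (T.l 204)) (T.l 236)) (T.a (T.l 236) (T.b (T.l 204) (T.l 204)))) (T.b (T.a (T.l 236) (T.l 236)) (T.c (T.l 236) (T.l 236)))))), by decide +kernel⟩

theorem B101E_004 :
    ∃ t, chk3 (onCell 0 67108864 0 1073741824 587336777 62277027 (corT true 1 c0B cB101E gB0q1 gB0q1 gB4q0 gB5q0 true false)) t 1 1 1 = true :=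
  ex3_a B101E_004_2_1_1 B101E_004_3_1_1

def B101L_500 :
    ∃ t, chk3 (onCell 0 67108864 0 1073741824 587336777 62277027 (corT true 1 c0B cB101L gB5q1 gB0q1 gB0q0 gB1q0 true true)) t 1 1 1 = true :=
  ⟨(T.b (T.l 1) (T.b (T.l 1) (T.b (T.l 1) (T.b (T.b (T.b (T.l 1) (T.a (T.l 816) (T.b (T.l 1) (T.l 816)))) (T.a (T.l 816) (T.l 816))) (T.a (T.l 816) (T.l 816)))))), by decide +kernel⟩

def B101L_501 :
    ∃ t, chk3 (onCell 0 67108864 0 1073741824 587336777 62277027 (corT true 1 c0B cB101L gB5q1 gB0q1 gB1q0 gB2q0 true true)) t 1 1 1 = true :=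
  ⟨(T.b (T.l 1) (T.b (T.l 1) (T.b (T.l 1) (T.b (T.l 1) (T.l 816))))), by decide +kernel⟩

def B101L_502 :
    ∃ t, chk3 (onCell 0 67108864 0 1073741824 587336777 62277027 (corT true 1 c0B cB101L gB5q1 gB0q1 gB2q0 gB3q0 true true)) t 1 1 1 = true :=
  ⟨(T.l 1), by decide +kernel⟩

def B101L_503 :
    ∃ t, chk3 (onCell 0 67108864 0 1073741824 587336777 62277027 (corT true 1 c0B cB101L gB5q1 gB0q1 gB3q0 gB4q0 true true)) t 1 1 1 = true :=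
  ⟨(T.l 1), by decide +kernel⟩

def B101L_504 :
    ∃ t, chk3 (onCell 0 67108864 0 1073741824 587336777 62277027 (corT true 1 c0B cB101L gB5q1 gB0q1 gB4q0 gB5q0 true false)) t 1 1 1 = true :=
  ⟨(T.l 1), by decide +kernel⟩

def B101L_600 :
    ∃ t, chk3 (onCell 0 67108864 0 1073741824 587336777 62277027 (corT true 1 c0B cB101L gB6q1 gB0q1 gB0q0 gB1q0 true true)) t 1 1 1 = true :=
  ⟨(T.b (T.l 1) (T.b (T.l 1) (T.b (T.b (T.b (T.b (T.a (T.l 1) (T.b (T.l 1) (T.b (T.l 1) (T.a (T.b (T.l 1) (T.l 816)) (T.l 816))))) (T.b (T.a (T.a (T.c (T.a (T.l 816) (T.l 816)) (T.l 816)) (T.l 816)) (T.l 816)) (T.l 816))) (T.a (T.l 816) (T.l 816))) (T.l 0)) (T.l 2)))), by decide +kernel⟩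

def B101L_601 :
    ∃ t, chk3 (onCell 0 67108864 0 1073741824 587336777 62277027 (corT true 1 c0B cB101L gB6q1 gB0q1 gB1q0 gB2q0 true true)) t 1 1 1 = true :=
  ⟨(T.b (T.l 1) (T.b (T.l 1) (T.b (T.b (T.l 1) (T.l 816)) (T.l 0)))), by decide +kernel⟩

def B101L_602 :
    ∃ t, chk3 (onCell 0 67108864 0 1073741824 587336777 62277027 (corT true 1 c0B cB101L gB6q1 gB0q1 gB2q0 gB3q0 true true)) t 1 1 1 = true :=
  ⟨(T.b (T.l 1) (T.b (T.l 1) (T.b (T.l 1) (T.l 0)))), by decide +kernel⟩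

def B101L_603 :
    ∃ t, chk3 (onCell 0 67108864 0 1073741824 587336777 62277027 (corT true 1 c0B cB101L gB6q1 gB0q1 gB3q0 gB4q0 true true)) t 1 1 1 = true :=
  ⟨(T.l 1), by decide +kernel⟩

def B101L_604 :
    ∃ t, chk3 (onCell 0 67108864 0 1073741824 587336777 62277027 (corT true 1 c0B cB101L gB6q1 gB0q1 gB4q0 gB5q0 true false)) t 1 1 1 = true :=
  ⟨(T.l 1), by decide +kernel⟩

def B101L_700 :
    ∃ t, chk3 (onCell 0 67108864 0 1073741824 587336777 62277027 (corX 1 c0B cB101L tB101L gB7q1 gB0q1 gB0q0 gB1q0 gB0q0 true true)) t 1 1 1 = true :=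
  ⟨(T.b (T.l 1) (T.b (T.l 3) (T.l 2))), by decide +kernel⟩

def B101L_701 :
    ∃ t, chk3 (onCell 0 67108864 0 1073741824 587336777 62277027 (corT true 1 c0B cB101L gB7q1 gB0q1 gB1q0 gB2q0 true true)) t 1 1 1 = true :=
  ⟨(T.b (T.l 1) (T.b (T.b (T.l 1) (T.b (T.l 1) (T.a (T.b (T.l 1) (T.l 0)) (T.l 0)))) (T.b (T.l 0) (T.l 204)))), by decide +kernel⟩

def B101L_702 :
    ∃ t, chk3 (onCell 0 67108864 0 1073741824 587336777 62277027 (corT true 1 c0B cB101L gB7q1 gB0q1 gB2q0 gB3q0 true true)) t 1 1 1 = true :=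
  ⟨(T.b (T.l 1) (T.b (T.l 1) (T.b (T.l 0) (T.l 204)))), by decide +kernel⟩

def B101L_703 :
    ∃ t, chk3 (onCell 0 67108864 0 1073741824 587336777 62277027 (corT true 1 c0B cB101L gB7q1 gB0q1 gB3q0 gB4q0 true true)) t 1 1 1 = true :=
  ⟨(T.b (T.l 1) (T.l 1)), by decide +kernel⟩

def B101L_704 :
    ∃ t, chk3 (onCell 0 67108864 0 1073741824 587336777 62277027 (corT true 1 c0B cB101L gB7q1 gB0q1 gB4q0 gB5q0 true false)) t 1 1 1 = true :=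
  ⟨(T.l 1), by decide +kernel⟩

def B101R_050 :
    ∃ t, chk3 (onCell 0 67108864 0 1073741824 587336777 62277027 (corT true 1 c0B cB101R gB0q1 gB5q1 gB0q0 gB1q0 true true)) t 1 1 1 = true :=
  ⟨(T.l 1), by decide +kernel⟩

def B101R_051 :
    ∃ t, chk3 (onCell 0 67108864 0 1073741824 587336777 62277027 (corT true 1 c0B cB101R gB0q1 gB5q1 gB1q0 gB2q0 true true)) t 1 1 1 = true :=
  ⟨(T.l 1), by decide +kernel⟩

def B101R_052 :
    ∃ t, chk3 (onCell 0 67108864 0 1073741824 587336777 62277027 (corT true 1 c0B cB101R gB0q1 gB5q1 gB2q0 gB3q0 true true)) t 1 1 1 = true :=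
  ⟨(T.l 1), by decide +kernel⟩

def B101R_053 :
    ∃ t, chk3 (onCell 0 67108864 0 1073741824 587336777 62277027 (corT true 1 c0B cB101R gB0q1 gB5q1 gB3q0 gB4q0 true true)) t 1 1 1 = true :=
  ⟨(T.l 1), by decide +kernel⟩

def B101R_054 :
    ∃ t, chk3 (onCell 0 67108864 0 1073741824 587336777 62277027 (corT true 1 c0B cB101R gB0q1 gB5q1 gB4q0 gB5q0 true false)) t 1 1 1 = true :=
  ⟨(T.l 1), by decide +kernel⟩

def B101R_060 :
    ∃ t, chk3 (onCell 0 67108864 0 1073741824 587336777 62277027 (corT true 1 c0B cB101R gB0q1 gB6q1 gB0q0 gB1q0 true true)) t 1 1 1 = true :=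
  ⟨(T.l 1), by decide +kernel⟩

def B101R_061 :
    ∃ t, chk3 (onCell 0 67108864 0 1073741824 587336777 62277027 (corT true 1 c0B cB101R gB0q1 gB6q1 gB1q0 gB2q0 true true)) t 1 1 1 = true :=
  ⟨(T.l 1), by decide +kernel⟩

def B101R_062 :
    ∃ t, chk3 (onCell 0 67108864 0 1073741824 587336777 62277027 (corT true 1 c0B cB101R gB0q1 gB6q1 gB2q0 gB3q0 true true)) t 1 1 1 = true :=
  ⟨(T.l 1), by decide +kernel⟩

def B101R_063 :
    ∃ t, chk3 (onCell 0 67108864 0 1073741824 587336777 62277027 (corT true 1 c0B cB101R gB0q1 gB6q1 gB3q0 gB4q0 true true)) t 1 1 1 = true :=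
  ⟨(T.l 1), by decide +kernel⟩

def B101R_064 :
    ∃ t, chk3 (onCell 0 67108864 0 1073741824 587336777 62277027 (corT true 1 c0B cB101R gB0q1 gB6q1 gB4q0 gB5q0 true false)) t 1 1 1 = true :=
  ⟨(T.l 1), by decide +kernel⟩

def B101R_070 :
    ∃ t, chk3 (onCell 0 67108864 0 1073741824 587336777 62277027 (corT true 1 c0B cB101R gB0q1 gB7q1 gB0q0 gB1q0 true true)) t 1 1 1 = true :=
  ⟨(T.l 1), by decide +kernel⟩

def B101R_071 :
    ∃ t, chk3 (onCell 0 67108864 0 1073741824 587336777 62277027 (corT true 1 c0B cB101R gB0q1 gB7q1 gB1q0 gB2q0 true true)) t 1 1 1 = true :=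
  ⟨(T.l 1), by decide +kernel⟩

def B101R_072 :
    ∃ t, chk3 (onCell 0 67108864 0 1073741824 587336777 62277027 (corT true 1 c0B cB101R gB0q1 gB7q1 gB2q0 gB3q0 true true)) t 1 1 1 = true :=
  ⟨(T.l 1), by decide +kernel⟩

def B101R_073 :
    ∃ t, chk3 (onCell 0 67108864 0 1073741824 587336777 62277027 (corT true 1 c0B cB101R gB0q1 gB7q1 gB3q0 gB4q0 true true)) t 1 1 1 = true :=
  ⟨(T.l 1), by decide +kernel⟩

def B101R_074 :
    ∃ t, chk3 (onCell 0 67108864 0 1073741824 587336777 62277027 (corT true 1 c0B cB101R gB0q1 gB7q1 gB4q0 gB5q0 true false)) t 1 1 1 = true :=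
  ⟨(T.l 1), by decide +kernel⟩

def B102E_000 :
    ∃ t, chk3 (onCell 0 67108864 0 1073741824 587336777 62277027 (corX 1 c0B cB102E tB102E gB0q1 gB0q2 gB0q0 gB1q0 gB0q0 true true)) t 1 1 1 = true :=
  ⟨(T.b (T.b (T.l 1) (T.b (T.l 1) (T.a (T.b (T.l 1) (T.a (T.b (T.l 1) (T.a (T.c (T.b (T.l 1) (T.l 207)) (T.l 3)) (T.l 1))) (T.l 1))) (T.l 1)))) (T.b (T.b (T.b (T.b (T.a (T.a (T.c (T.a (T.b (T.l 207) (T.l 207)) (T.l 207)) (T.l 3)) (T.a (T.l 207) (T.l 207))) (T.a (T.l 207) (T.b (T.l 1) (T.l 207)))) (T.a (T.a (T.c (T.a (T.b (T.l 207) (T.l 2)) (T.l 207)) (T.l 3)) (T.a (T.l 207) (T.l 207))) (T.a (T.l 207) (T.a (T.l 207) (T.b (T.l 207) (T.l 0)))))) (T.a (T.l 2) (T.l 2))) (T.l 2)) (T.l 2))), by decide +kernel⟩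

def B102E_001 :
    ∃ t, chk3 (onCell 0 67108864 0 1073741824 587336777 62277027 (corT true 1 c0B cB102E gB0q1 gB0q2 gB1q0 gB2q0 true true)) t 1 1 1 = true :=
  ⟨(T.b (T.b (T.l 1) (T.l 1)) (T.b (T.b (T.a (T.b (T.b (T.l 1) (T.a (T.c (T.b (T.b (T.l 1) (T.c (T.c (T.a (T.a (T.l 204) (T.l 236)) (T.a (T.l 204) (T.l 204))) (T.l 236)) (T.l 0))) (T.c (T.a (T.l 204) (T.l 204)) (T.l 204))) (T.b (T.b (T.l 1) (T.l 0)) (T.l 0))) (T.c (T.b (T.b (T.l 1) (T.a (T.b (T.l 1) (T.l 204)) (T.l 1))) (T.a (T.l 236) (T.l 204))) (T.b (T.a (T.l 0) (T.l 1)) (T.l 204))))) (T.b (T.c (T.a (T.a (T.l 204) (T.l 204)) (T.a (T.l 204) (T.l 204))) (T.a (T.l 204) (T.l 204))) (T.a (T.c (T.l 204) (T.l 204)) (T.l 204)))) (T.b (T.b (T.l 1) (T.b (T.l 1) (T.a (T.c (T.l 204) (T.l 204)) (T.c (T.l 0) (T.l 0))))) (T.a (T.b (T.c (T.l 204) (T.l 204)) (T.l 204)) (T.b (T.a (T.l 204) (T.l 204)) (T.l 236))))) (T.b (T.b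 (T.b (T.a (T.l 204) (T.a (T.l 204) (T.l 204))) (T.l 2)) (T.l 2)) (T.l 2))) (T.l 2))), by decide +kernel⟩

def B102E_002 :
    ∃ t, chk3 (onCell 0 67108864 0 1073741824 587336777 62277027 (corT true 1 c0B cB102E gB0q1 gB0q2 gB2q0 gB3q0 true true)) t 1 1 1 = true :=
  ⟨(T.b (T.l 1) (T.b (T.b (T.a (T.b (T.l 1) (T.a (T.b (T.l 1) (T.c (T.l 204) (T.l 204))) (T.l 1))) (T.l 1)) (T.b (T.a (T.b (T.a (T.l 204) (T.l 204)) (T.l 204)) (T.a (T.l 204) (T.a (T.l 204) (T.l 204)))) (T.a (T.a (T.l 204) (T.l 204)) (T.a (T.b (T.l 204) (T.l 2)) (T.b (T.l 204) (T.l 2)))))) (T.l 2))), by decide +kernel⟩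

def B102E_003 :
    ∃ t, chk3 (onCell 0 67108864 0 1073741824 587336777 62277027 (corT true 1 c0B cB102E gB0q1 gB0q2 gB3q0 gB4q0 true true)) t 1 1 1 = true :=
  ⟨(T.b (T.l 1) (T.b (T.b (T.l 1) (T.b (T.l 1) (T.a (T.a (T.l 204) (T.l 204)) (T.a (T.b (T.l 204) (T.l 204)) (T.b (T.l 204) (T.l 204)))))) (T.a (T.b (T.b (T.l 236) (T.l 204)) (T.b (T.l 204) (T.l 2))) (T.b (T.a (T.a (T.l 204) (T.l 204)) (T.b (T.b (T.l 204) (T.l 204)) (T.b (T.l 204) (T.l 204)))) (T.b (T.a (T.a (T.l 204) (T.l 204)) (T.b (T.l 204) (T.l 2))) (T.l 2)))))), by decide +kernel⟩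

def B102E_004 :
    ∃ t, chk3 (onCell 0 67108864 0 1073741824 587336777 62277027 (corT true 1 c0B cB102E gB0q1 gB0q2 gB4q0 gB5q0 true false)) t 1 1 1 = true :=
  ⟨(T.b (T.l 1) (T.b (T.l 1) (T.b (T.l 1) (T.a (T.b (T.a (T.l 204) (T.l 204)) (T.a (T.b (T.l 204) (T.l 204)) (T.b (T.l 204) (T.l 204)))) (T.a (T.a (T.b (T.l 204) (T.l 204)) (T.b (T.l 204) (T.b (T.l 204) (T.l 204)))) (T.b (T.b (T.l 204) (T.l 204)) (T.a (T.l 204) (T.l 204)))))))), by decide +kernel⟩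

def B102E_010_1_4_1 :
    ∃ t, chk3 (onCell 0 67108864 0 1073741824 587336777 62277027 (corT true 1 c0B cB102E gB0q1 gB1q2 gB0q0 gB1q0 true true)) t 1 4 1 = true :=
  ⟨(T.l 1), by decide +kernel⟩

def B102E_010_1_10_1 :
    ∃ t, chk3 (onCell 0 67108864 0 1073741824 587336777 62277027 (corT true 1 c0B cB102E gB0q1 gB1q2 gB0q0 gB1q0 true true)) t 1 10 1 = true :=
  ⟨(T.l 1), by decide +kernel⟩

def B102E_010_1_22_1 :
    ∃ t, chk3 (onCell 0 67108864 0 1073741824 587336777 62277027 (corT true 1 c0B cB102E gB0q1 gB1q2 gB0q0 gB1q0 true true)) t 1 22 1 = true :=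
  ⟨(T.l 1), by decide +kernel⟩

def B102E_010_1_46_1 :
    ∃ t, chk3 (onCell 0 67108864 0 1073741824 587336777 62277027 (corT true 1 c0B cB102E gB0q1 gB1q2 gB0q0 gB1q0 true true)) t 1 46 1 = true :=
  ⟨(T.l 1), by decide +kernel⟩

def B102E_010_4_188_1 :
    ∃ t, chk3 (onCell 0 67108864 0 1073741824 587336777 62277027 (corT true 1 c0B cB102E gB0q1 gB1q2 gB0q0 gB1q0 true true)) t 4 188 1 = true :=
  ⟨(T.l 1), by decide +kernel⟩

def B102E_010_4_378_1 :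
    ∃ t, chk3 (onCell 0 67108864 0 1073741824 587336777 62277027 (corT true 1 c0B cB102E gB0q1 gB1q2 gB0q0 gB1q0 true true)) t 4 378 1 = true :=
  ⟨(T.a (T.a (T.b (T.l 1) (T.b (T.a (T.a (T.b (T.l 1) (T.c (T.c (T.b (T.a (T.c (T.l 0) (T.l 0)) (T.l 1)) (T.l 0)) (T.b (T.a (T.a (T.l 0) (T.l 1)) (T.l 1)) (T.c (T.l 0) (T.l 0)))) (T.c (T.b (T.a (T.a (T.l 0) (T.l 1)) (T.l 1)) (T.c (T.l 0) (T.c (T.l 0) (T.l 0)))) (T.b (T.a (T.a (T.l 0) (T.l 1)) (T.l 1)) (T.a (T.l 0) (T.a (T.l 816) (T.b (T.l 1) (T.l 816)))))))) (T.l 1)) (T.l 1)) (T.a (T.b (T.a (T.l 0) (T.c (T.a (T.l 816) (T.b (T.b (T.l 1) (T.c (T.l 816) (T.l 816))) (T.l 816))) (T.b (T.a (T.l 816) (T.b (T.l 1) (T.a (T.l 816) (T.l 1)))) (T.l 816)))) (T.l 0)) (T.b (T.a (T.a (T.b (T.l 1) (T.b (T.l 1) (T.c (T.l 816) (T.l 816)))) (T.l 1)) (T.l 1)) (T.c (T.a (T.a (T.l 816) (T.c (T.l 816) (T.l 820))) (T.b (T.l 1) (T.a (T.l 816) (T.b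 (T.l 1) (T.c (T.l 816) (T.l 816)))))) (T.a (T.a (T.l 816) (T.a (T.l 816) (T.c (T.l 816) (T.l 816)))) (T.b (T.l 1) (T.a (T.l 816) (T.b (T.l 1) (T.c (T.l 816) (T.l 816))))))))))) (T.l 1)) (T.l 1)), by decide +kernel⟩

def B102E_010_8_379_1 :
    ∃ t, chk3 (onCell 0 67108864 0 1073741824 587336777 62277027 (corT true 1 c0B cB102E gB0q1 gB1q2 gB0q0 gB1q0 true true)) t 8 379 1 = true :=
  ⟨(T.a (T.b (T.a (T.l 0) (T.a (T.l 0) (T.b (T.c (T.l 816) (T.l 816)) (T.l 816)))) (T.l 0)) (T.b (T.c (T.a (T.b (T.b (T.a (T.c (T.b (T.a (T.b (T.l 1) (T.l 816)) (T.l 1)) (T.c (T.c (T.l 816) (T.l 816)) (T.l 816))) (T.b (T.a (T.b (T.l 1) (T.l 816)) (T.l 1)) (T.c (T.l 816) (T.l 816)))) (T.l 1)) (T.a (T.l 816) (T.a (T.l 816) (T.b (T.b (T.l 1) (T.a (T.l 816) (T.l 1))) (T.l 816))))) (T.l 816)) (T.b (T.a (T.a (T.b (T.l 1) (T.b (T.l 1) (T.b (T.l 1) (T.l 816)))) (T.l 1)) (T.l 1)) (T.b (T.a (T.a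 (T.l 816) (T.c (T.c (T.l 820) (T.l 816)) (T.l 816))) (T.b (T.l 1) (T.a (T.l 816) (T.b (T.l 1) (T.c (T.l 820) (T.l 816)))))) (T.c (T.l 816) (T.l 816))))) (T.b (T.a (T.b (T.a (T.c (T.b (T.a (T.b (T.l 1) (T.l 816)) (T.l 1)) (T.l 816)) (T.b (T.a (T.b (T.l 1) (T.l 816)) (T.l 1)) (T.l 816))) (T.l 1)) (T.a (T.l 816) (T.a (T.l 816) (T.b (T.b (T.l 1) (T.l 816)) (T.l 816))))) (T.a (T.a (T.b (T.l 1) (T.b (T.l 1) (T.b (T.l 1) (T.l 816)))) (T.l 1)) (T.l 1))) (T.a (T.l 816) (T.b (T.c (T.a (T.l 816) (T.b (T.l 1) (T.a (T.l 816) (T.a (T.l 816) (T.l 1))))) (T.a (T.l 816) (T.b (T.l 1) (T.c (T.c (T.l 816) (T.l 816)) (T.l 816))))) (T.l 816))))) (T.c (T.l 0) (T.l 816)))), by decide +kernel⟩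

def B102E_010_9_379_1 :
    ∃ t, chk3 (onCell 0 67108864 0 1073741824 587336777 62277027 (corT true 1 c0B cB102E gB0q1 gB1q2 gB0q0 gB1q0 true true)) t 9 379 1 = true :=
  ⟨(T.b (T.a (T.a (T.a (T.b (T.l 1) (T.b (T.l 1) (T.c (T.c (T.b (T.a (T.b (T.l 1) (T.l 816)) (T.l 1)) (T.c (T.l 816) (T.l 816))) (T.b (T.a (T.b (T.l 1) (T.l 816)) (T.l 1)) (T.l 816))) (T.b (T.a (T.l 820) (T.l 1)) (T.l 816))))) (T.l 1)) (T.l 1)) (T.l 1)) (T.a (T.c (T.b (T.a (T.a (T.l 816) (T.a (T.l 820) (T.b (T.b (T.b (T.l 1) (T.l 816)) (T.l 816)) (T.l 816)))) (T.b (T.a (T.b (T.l 1) (T.a (T.b (T.l 1) (T.l 816)) (T.l 1))) (T.l 1)) (T.c (T.a (T.l 816) (T.b (T.l 1) (T.a (T.l 816) (T.a (T.l 816) (T.l 1))))) (T.a (T.l 816) (T.b (T.l 1) (T.l 820)))))) (T.c (T.l 816) (T.l 816))) (T.b (T.a (T.a (T.l 816) (T.c (T.c (T.l 820) (T.l 816)) (T.l 816))) (T.b (T.a (T.b (T.l 1) (T.a (T.l 816) (T.l 1))) (T.l 1)) (T.a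 (T.l 816) (T.b (T.l 1) (T.l 816))))) (T.l 816))) (T.b (T.l 1) (T.a (T.c (T.b (T.a (T.b (T.a (T.l 820) (T.l 1)) (T.l 816)) (T.l 1)) (T.c (T.a (T.l 816) (T.l 820)) (T.l 816))) (T.b (T.a (T.c (T.c (T.l 820) (T.l 816)) (T.l 816)) (T.l 1)) (T.l 816))) (T.a (T.a (T.b (T.l 1) (T.b (T.l 1) (T.l 820))) (T.l 1)) (T.l 1)))))), by decide +kernel⟩

def B102E_010_5_94_1 :
    ∃ t, chk3 (onCell 0 67108864 0 1073741824 587336777 62277027 (corT true 1 c0B cB102E gB0q1 gB1q2 gB0q0 gB1q0 true true)) t 5 94 1 = true :=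
  ⟨(T.l 1), by decide +kernel⟩

def B102E_010_3_94_1 :
    ∃ t, chk3 (onCell 0 67108864 0 1073741824 587336777 62277027 (corT true 1 c0B cB102E gB0q1 gB1q2 gB0q0 gB1q0 true true)) t 3 94 1 = true :=
  ⟨(T.l 1), by decide +kernel⟩

def B102E_010_2_95_1 :
    ∃ t, chk3 (onCell 0 67108864 0 1073741824 587336777 62277027 (corT true 1 c0B cB102E gB0q1 gB1q2 gB0q0 gB1q0 true true)) t 2 95 1 = true :=
  ⟨(T.a (T.b (T.b (T.a (T.l 0) (T.a (T.l 0) (T.b (T.a (T.l 816) (T.b (T.b (T.a (T.l 820) (T.b (T.l 1) (T.c (T.l 816) (T.l 816)))) (T.l 816)) (T.l 816))) (T.l 816)))) (T.l 0)) (T.l 0)) (T.b (T.b (T.a (T.b (T.a (T.b (T.a (T.b (T.l 1) (T.a (T.c (T.c (T.l 820) (T.l 816)) (T.l 816)) (T.l 1))) (T.l 1)) (T.c (T.a (T.l 816) (T.b (T.a (T.b (T.l 1) (T.l 816)) (T.l 1)) (T.c (T.l 820) (T.l 816)))) (T.a (T.l 816) (T.b (T.a (T.l 820) (T.l 1)) (T.l 816))))) (T.l 1)) (T.a (T.c (T.l 816) (T.l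 816)) (T.c (T.b (T.a (T.a (T.l 816) (T.c (T.b (T.a (T.l 816) (T.l 1)) (T.l 816)) (T.l 820))) (T.b (T.l 1) (T.a (T.l 816) (T.l 1)))) (T.l 820)) (T.b (T.a (T.l 820) (T.b (T.l 1) (T.c (T.l 820) (T.l 816)))) (T.l 816))))) (T.a (T.a (T.b (T.l 1) (T.b (T.l 1) (T.b (T.l 1) (T.c (T.l 816) (T.l 816))))) (T.l 1)) (T.l 1))) (T.a (T.c (T.l 0) (T.l 816)) (T.b (T.a (T.c (T.c (T.c (T.l 820) (T.l 816)) (T.l 816)) (T.l 816)) (T.b (T.l 1) (T.a (T.l 816) (T.a (T.l 820) (T.l 1))))) (T.c (T.l 816) (T.l 816))))) (T.c (T.l 0) (T.l 0)))), by decide +kernel⟩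

def B102E_010_3_95_1 :
    ∃ t, chk3 (onCell 0 67108864 0 1073741824 587336777 62277027 (corT true 1 c0B cB102E gB0q1 gB1q2 gB0q0 gB1q0 true true)) t 3 95 1 = true :=
  ⟨(T.b (T.a (T.a (T.a (T.b (T.l 1) (T.b (T.l 1) (T.a (T.l 820) (T.b (T.l 1) (T.l 816))))) (T.l 1)) (T.l 1)) (T.l 1)) (T.a (T.a (T.a (T.l 0) (T.b (T.a (T.l 816) (T.b (T.b (T.a (T.l 816) (T.l 1)) (T.l 816)) (T.l 816))) (T.l 0))) (T.b (T.b (T.a (T.a (T.b (T.l 1) (T.a (T.l 816) (T.l 1))) (T.l 1)) (T.l 1)) (T.a (T.a (T.l 816) (T.c (T.l 880) (T.c (T.l 816) (T.l 816)))) (T.b (T.l 1) (T.a (T.c (T.l 816) (T.l 816)) (T.a (T.b (T.l 1) (T.l 816)) (T.l 1)))))) (T.a (T.l 0) (T.c (T.l 816) (T.c (T.l 816) (T.l 816)))))) (T.b (T.l 1) (T.a (T.b (T.a (T.b (T.a (T.a (T.b (T.l 1) (T.l 816)) (T.l 1)) (T.l 1)) (T.a (T.l 816) (T.b (T.a (T.a (T.l 816) (T.l 1)) (T.l 1)) (T.c (T.l 816) (T.c (T.l 816) (T.l 816)))))) (T.l 1))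 (T.a (T.c (T.l 816) (T.l 816)) (T.a (T.b (T.c (T.c (T.l 816) (T.a (T.l 816) (T.b (T.l 1) (T.l 816)))) (T.a (T.l 816) (T.b (T.l 1) (T.l 816)))) (T.l 816)) (T.b (T.a (T.a (T.b (T.l 1) (T.a (T.l 880) (T.l 1))) (T.l 1)) (T.l 1)) (T.c (T.l 880) (T.a (T.l 816) (T.a (T.l 880) (T.b (T.b (T.l 1) (T.l 816)) (T.l 816))))))))) (T.a (T.a (T.b (T.l 1) (T.a (T.b (T.l 1) (T.b (T.l 1) (T.c (T.l 816) (T.c (T.l 816) (T.c (T.l 880) (T.a (T.l 816) (T.b (T.l 1) (T.l 816)))))))) (T.l 1))) (T.l 1)) (T.l 1)))))), by decide +kernel⟩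

def B102E_010_2_24_1 :
    ∃ t, chk3 (onCell 0 67108864 0 1073741824 587336777 62277027 (corT true 1 c0B cB102E gB0q1 gB1q2 gB0q0 gB1q0 true true)) t 2 24 1 = true :=
  ⟨(T.b (T.a (T.c (T.l 0) (T.l 0)) (T.c (T.l 0) (T.l 0))) (T.l 2)), by decide +kernel⟩

def B102E_010_6_24_1 :
    ∃ t, chk3 (onCell 0 67108864 0 1073741824 587336777 62277027 (corT true 1 c0B cB102E gB0q1 gB1q2 gB0q0 gB1q0 true true)) t 6 24 1 = true :=
  ⟨(T.b (T.a (T.l 0) (T.c (T.l 0) (T.l 0))) (T.l 0)), by decide +kernel⟩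

def B102E_010_7_192_1 :
    ∃ t, chk3 (onCell 0 67108864 0 1073741824 587336777 62277027 (corT true 1 c0B cB102E gB0q1 gB1q2 gB0q0 gB1q0 true true)) t 7 192 1 = true :=
  ⟨(T.a (T.a (T.l 0) (T.c (T.l 0) (T.l 0))) (T.a (T.b (T.b (T.c (T.a (T.l 0) (T.b (T.b (T.a (T.a (T.l 0) (T.l 1)) (T.l 1)) (T.c (T.l 0) (T.c (T.l 0) (T.l 880)))) (T.l 0))) (T.a (T.c (T.l 816) (T.c (T.l 816) (T.c (T.l 880) (T.a (T.l 816) (T.c (T.l 880) (T.a (T.l 816) (T.b (T.l 880) (T.l 816)))))))) (T.b (T.b (T.a (T.a (T.b (T.l 1) (T.l 880)) (T.l 1)) (T.l 1)) (T.a (T.l 880) (T.b (T.l 1) (T.a (T.l 816) (T.l 1))))) (T.c (T.l 0) (T.l 816))))) (T.l 0)) (T.l 0)) (T.b (T.b (T.b (T.l 1) (T.a (T.c (T.a (T.l 0) (T.b (T.l 1) (T.l 0))) (T.b (T.a (T.c (T.c (T.l 816) (T.a (T.l 816) (T.b (T.l 1) (T.l 816)))) (T.b (T.a (T.a (T.l 816) (T.l 1)) (T.l 1)) (T.c (T.l 816) (T.c (T.l 816) (T.a (T.l 816) (T.b (T.l 1) (T.l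 816))))))) (T.l 1)) (T.a (T.l 0) (T.c (T.c (T.l 0) (T.l 0)) (T.b (T.a (T.c (T.l 816) (T.l 880)) (T.l 1)) (T.l 816)))))) (T.a (T.a (T.b (T.l 1) (T.a (T.c (T.l 204) (T.b (T.l 1) (T.b (T.l 1) (T.l 0)))) (T.l 1))) (T.l 1)) (T.l 1)))) (T.a (T.c (T.l 0) (T.l 0)) (T.b (T.c (T.a (T.l 204) (T.b (T.a (T.b (T.l 1) (T.l 460)) (T.l 1)) (T.a (T.l 204) (T.c (T.l 460) (T.l 460))))) (T.a (T.c (T.l 0) (T.a (T.l 0) (T.b (T.b (T.b (T.l 1) (T.c (T.l 0) (T.c (T.l 816) (T.c (T.l 816) (T.c (T.l 816) (T.l 880)))))) (T.l 0)) (T.l 0)))) (T.b (T.a (T.b (T.l 1) (T.c (T.l 204) (T.c (T.l 0) (T.a (T.l 816) (T.b (T.l 1) (T.l 0)))))) (T.l 1)) (T.a (T.l 0) (T.c (T.l 460) (T.c (T.l 0) (T.c (T.l 0) (T.a (T.l 0) (T.b (T.b (T.a (T.l 816) (T.l 1)) (T.l 0)) (T.l 0)))))))))) (T.l 0)))) (T.l 0)))), by decide +kernel⟩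

def B102E_010_7_193_1 :
    ∃ t, chk3 (onCell 0 67108864 0 1073741824 587336777 62277027 (corT true 1 c0B cB102E gB0q1 gB1q2 gB0q0 gB1q0 true true)) t 7 193 1 = true :=
  ⟨(T.l 0), by decide +kernel⟩

def B102E_010_7_97_1 :
    ∃ t, chk3 (onCell 0 67108864 0 1073741824 587336777 62277027 (corT true 1 c0B cB102E gB0q1 gB1q2 gB0q0 gB1q0 true true)) t 7 97 1 = true :=
  ⟨(T.l 0), by decide +kernel⟩

def B102E_010_7_49_1 :
    ∃ t, chk3 (onCell 0 67108864 0 1073741824 587336777 62277027 (corT true 1 c0B cB102E gB0q1 gB1q2 gB0q0 gB1q0 true true)) t 7 49 1 = true :=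
  ⟨(T.l 0), by decide +kernel⟩

def B102E_010_1_25_1 :
    ∃ t, chk3 (onCell 0 67108864 0 1073741824 587336777 62277027 (corT true 1 c0B cB102E gB0q1 gB1q2 gB0q0 gB1q0 true true)) t 1 25 1 = true :=
  ⟨(T.l 2), by decide +kernel⟩

def B102E_010_1_13_1 :
    ∃ t, chk3 (onCell 0 67108864 0 1073741824 587336777 62277027 (corT true 1 c0B cB102E gB0q1 gB1q2 gB0q0 gB1q0 true true)) t 1 13 1 = true :=
  ⟨(T.l 2), by decide +kernel⟩

def B102E_010_1_7_1 :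
    ∃ t, chk3 (onCell 0 67108864 0 1073741824 587336777 62277027 (corT true 1 c0B cB102E gB0q1 gB1q2 gB0q0 gB1q0 true true)) t 1 7 1 = true :=
  ⟨(T.l 2), by decide +kernel⟩

theorem B102E_010_7_96_1 :
    ∃ t, chk3 (onCell 0 67108864 0 1073741824 587336777 62277027 (corT true 1 c0B cB102E gB0q1 gB1q2 gB0q0 gB1q0 true true)) t 7 96 1 = true :=
  ex3_b B102E_010_7_192_1 B102E_010_7_193_1
theorem B102E_010_7_48_1 :
    ∃ t, chk3 (onCell 0 67108864 0 1073741824 587336777 62277027 (corT true 1 c0B cB102E gB0q1 gB1q2 gB0q0 gB1q0 true true)) t 7 48 1 = true :=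
  ex3_b B102E_010_7_96_1 B102E_010_7_97_1
theorem B102E_010_7_24_1 :
    ∃ t, chk3 (onCell 0 67108864 0 1073741824 587336777 62277027 (corT true 1 c0B cB102E gB0q1 gB1q2 gB0q0 gB1q0 true true)) t 7 24 1 = true :=
  ex3_b B102E_010_7_48_1 B102E_010_7_49_1
theorem B102E_010_3_24_1 :
    ∃ t, chk3 (onCell 0 67108864 0 1073741824 587336777 62277027 (corT true 1 c0B cB102E gB0q1 gB1q2 gB0q0 gB1q0 true true)) t 3 24 1 = true :=
  ex3_a B102E_010_6_24_1 B102E_010_7_24_1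
theorem B102E_010_1_24_1 :
    ∃ t, chk3 (onCell 0 67108864 0 1073741824 587336777 62277027 (corT true 1 c0B cB102E gB0q1 gB1q2 gB0q0 gB1q0 true true)) t 1 24 1 = true :=
  ex3_a B102E_010_2_24_1 B102E_010_3_24_1
theorem B102E_010_1_12_1 :
    ∃ t, chk3 (onCell 0 67108864 0 1073741824 587336777 62277027 (corT true 1 c0B cB102E gB0q1 gB1q2 gB0q0 gB1q0 true true)) t 1 12 1 = true :=
  ex3_b B102E_010_1_24_1 B102E_010_1_25_1
theorem B102E_010_1_6_1 :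
    ∃ t, chk3 (onCell 0 67108864 0 1073741824 587336777 62277027 (corT true 1 c0B cB102E gB0q1 gB1q2 gB0q0 gB1q0 true true)) t 1 6 1 = true :=
  ex3_b B102E_010_1_12_1 B102E_010_1_13_1
theorem B102E_010_1_3_1 :
    ∃ t, chk3 (onCell 0 67108864 0 1073741824 587336777 62277027 (corT true 1 c0B cB102E gB0q1 gB1q2 gB0q0 gB1q0 true true)) t 1 3 1 = true :=
  ex3_b B102E_010_1_6_1 B102E_010_1_7_1
theorem B102E_010_1_95_1 :
    ∃ t, chk3 (onCell 0 67108864 0 1073741824 587336777 62277027 (corT true 1 c0B cB102E gB0q1 gB1q2 gB0q0 gB1q0 true true)) t 1 95 1 = true :=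
  ex3_a B102E_010_2_95_1 B102E_010_3_95_1
theorem B102E_010_4_379_1 :
    ∃ t, chk3 (onCell 0 67108864 0 1073741824 587336777 62277027 (corT true 1 c0B cB102E gB0q1 gB1q2 gB0q0 gB1q0 true true)) t 4 379 1 = true :=
  ex3_a B102E_010_8_379_1 B102E_010_9_379_1
theorem B102E_010_4_189_1 :
    ∃ t, chk3 (onCell 0 67108864 0 1073741824 587336777 62277027 (corT true 1 c0B cB102E gB0q1 gB1q2 gB0q0 gB1q0 true true)) t 4 189 1 = true :=
  ex3_b B102E_010_4_378_1 B102E_010_4_379_1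
theorem B102E_010_4_94_1 :
    ∃ t, chk3 (onCell 0 67108864 0 1073741824 587336777 62277027 (corT true 1 c0B cB102E gB0q1 gB1q2 gB0q0 gB1q0 true true)) t 4 94 1 = true :=
  ex3_b B102E_010_4_188_1 B102E_010_4_189_1
theorem B102E_010_2_94_1 :
    ∃ t, chk3 (onCell 0 67108864 0 1073741824 587336777 62277027 (corT true 1 c0B cB102E gB0q1 gB1q2 gB0q0 gB1q0 true true)) t 2 94 1 = true :=
  ex3_a B102E_010_4_94_1 B102E_010_5_94_1
theorem B102E_010_1_94_1 :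
    ∃ t, chk3 (onCell 0 67108864 0 1073741824 587336777 62277027 (corT true 1 c0B cB102E gB0q1 gB1q2 gB0q0 gB1q0 true true)) t 1 94 1 = true :=
  ex3_a B102E_010_2_94_1 B102E_010_3_94_1
theorem B102E_010_1_47_1 :
    ∃ t, chk3 (onCell 0 67108864 0 1073741824 587336777 62277027 (corT true 1 c0B cB102E gB0q1 gB1q2 gB0q0 gB1q0 true true)) t 1 47 1 = true :=
  ex3_b B102E_010_1_94_1 B102E_010_1_95_1
theorem B102E_010_1_23_1 :
    ∃ t, chk3 (onCell 0 67108864 0 1073741824 587336777 62277027 (corT true 1 c0B cB102E gB0q1 gB1q2 gB0q0 gB1q0 true true)) t 1 23 1 = true :=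
  ex3_b B102E_010_1_46_1 B102E_010_1_47_1
theorem B102E_010_1_11_1 :
    ∃ t, chk3 (onCell 0 67108864 0 1073741824 587336777 62277027 (corT true 1 c0B cB102E gB0q1 gB1q2 gB0q0 gB1q0 true true)) t 1 11 1 = true :=
  ex3_b B102E_010_1_22_1 B102E_010_1_23_1
theorem B102E_010_1_5_1 :
    ∃ t, chk3 (onCell 0 67108864 0 1073741824 587336777 62277027 (corT true 1 c0B cB102E gB0q1 gB1q2 gB0q0 gB1q0 true true)) t 1 5 1 = true :=
  ex3_b B102E_010_1_10_1 B102E_010_1_11_1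
theorem B102E_010_1_2_1 :
    ∃ t, chk3 (onCell 0 67108864 0 1073741824 587336777 62277027 (corT true 1 c0B cB102E gB0q1 gB1q2 gB0q0 gB1q0 true true)) t 1 2 1 = true :=
  ex3_b B102E_010_1_4_1 B102E_010_1_5_1
theorem B102E_010 :
    ∃ t, chk3 (onCell 0 67108864 0 1073741824 587336777 62277027 (corT true 1 c0B cB102E gB0q1 gB1q2 gB0q0 gB1q0 true true)) t 1 1 1 = true :=
  ex3_b B102E_010_1_2_1 B102E_010_1_3_1

def B102E_011 :
    ∃ t, chk3 (onCell 0 67108864 0 1073741824 587336777 62277027 (corT true 1 c0B cB102E gB0q1 gB1q2 gB1q0 gB2q0 true true)) t 1 1 1 = true :=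
  ⟨(T.b (T.b (T.l 1) (T.l 1)) (T.b (T.b (T.b (T.a (T.b (T.b (T.l 1) (T.l 0)) (T.l 0)) (T.b (T.b (T.l 1) (T.l 0)) (T.a (T.l 204) (T.l 0)))) (T.a (T.a (T.l 204) (T.l 204)) (T.a (T.l 204) (T.l 0)))) (T.a (T.l 2) (T.l 2))) (T.l 2))), by decide +kernel⟩

def B102E_012 :
    ∃ t, chk3 (onCell 0 67108864 0 1073741824 587336777 62277027 (corT true 1 c0B cB102E gB0q1 gB1q2 gB2q0 gB3q0 true true)) t 1 1 1 = true :=
  ⟨(T.b (T.l 1) (T.b (T.b (T.b (T.l 1) (T.b (T.l 1) (T.a (T.l 204) (T.a (T.l 204) (T.l 204))))) (T.a (T.b (T.l 204) (T.l 204)) (T.a (T.b (T.l 204) (T.l 204)) (T.a (T.l 204) (T.b (T.l 204) (T.l 204)))))) (T.l 2))), by decide +kernel⟩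

def B102E_013 :
    ∃ t, chk3 (onCell 0 67108864 0 1073741824 587336777 62277027 (corT true 1 c0B cB102E gB0q1 gB1q2 gB3q0 gB4q0 true true)) t 1 1 1 = true :=
  ⟨(T.b (T.l 1) (T.b (T.b (T.l 1) (T.b (T.l 1) (T.a (T.l 204) (T.a (T.l 204) (T.b (T.l 204) (T.l 204)))))) (T.a (T.b (T.b (T.l 204) (T.l 204)) (T.b (T.l 204) (T.l 2))) (T.b (T.a (T.b (T.l 204) (T.l 204)) (T.b (T.l 204) (T.l 204))) (T.b (T.a (T.a (T.l 204) (T.l 204)) (T.l 204)) (T.l 2)))))), by decide +kernel⟩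

def B102E_014 :
    ∃ t, chk3 (onCell 0 67108864 0 1073741824 587336777 62277027 (corT true 1 c0B cB102E gB0q1 gB1q2 gB4q0 gB5q0 true false)) t 1 1 1 = true :=
  ⟨(T.b (T.l 1) (T.b (T.l 1) (T.b (T.l 1) (T.a (T.b (T.a (T.l 204) (T.l 204)) (T.a (T.l 236) (T.b (T.l 204) (T.l 204)))) (T.a (T.a (T.b (T.l 204) (T.l 204)) (T.b (T.l 204) (T.b (T.l 204) (T.l 204)))) (T.b (T.b (T.l 204) (T.l 204)) (T.a (T.l 204) (T.l 204)))))))), by decide +kernel⟩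

def B102E_020 :
    ∃ t, chk3 (onCell 0 67108864 0 1073741824 587336777 62277027 (corT true 1 c0B cB102E gB0q1 gB2q2 gB0q0 gB1q0 true true)) t 1 1 1 = true :=
  ⟨(T.b (T.b (T.l 1) (T.b (T.l 1) (T.b (T.a (T.b (T.l 1) (T.b (T.l 1) (T.a (T.b (T.a (T.b (T.l 1) (T.b (T.l 1) (T.c (T.l 204) (T.l 204)))) (T.l 1)) (T.c (T.a (T.l 204) (T.l 204)) (T.l 0))) (T.b (T.l 1) (T.b (T.l 1) (T.a (T.l 0) (T.a (T.l 0) (T.l 1)))))))) (T.l 1)) (T.b (T.a (T.a (T.c (T.a (T.l 204) (T.l 204)) (T.l 0)) (T.c (T.a (T.l 0) (T.l 0)) (T.l 0))) (T.a (T.b (T.b (T.b (T.a (T.a (T.l 0) (T.l 1)) (T.l 1)) (T.a (T.l 0) (T.c (T.a (T.l 0) (T.l 820)) (T.l 816)))) (T.l 0)) (T.l 0)) (T.b (T.b (T.l 1) (T.a (T.c (T.l 0) (T.l 0)) (T.b (T.a (T.a (T.c (T.l 4) (T.l 816)) (T.l 1)) (T.l 1)) (T.a (T.l 0) (T.c (T.a (T.l 0) (T.l 0)) (T.l 0)))))) (T.a (T.l 0) (T.a (T.l 0) (T.l 0)))))) (T.a (T.a (T.l 0) (T.l 0)) (T.a (T.l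 0) (T.c (T.l 0) (T.l 0)))))))) (T.b (T.b (T.l 2) (T.l 2)) (T.l 2))), by decide +kernel⟩

def B102E_021 :
    ∃ t, chk3 (onCell 0 67108864 0 1073741824 587336777 62277027 (corT true 1 c0B cB102E gB0q1 gB2q2 gB1q0 gB2q0 true true)) t 1 1 1 = true :=
  ⟨(T.b (T.b (T.l 1) (T.b (T.l 1) (T.b (T.l 1) (T.b (T.l 1) (T.a (T.l 0) (T.a (T.l 0) (T.a (T.l 0) (T.l 0)))))))) (T.b (T.b (T.a (T.l 0) (T.a (T.l 204) (T.b (T.b (T.l 0) (T.l 204)) (T.l 204)))) (T.l 2)) (T.l 2))), by decide +kernel⟩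

def B102E_022 :
    ∃ t, chk3 (onCell 0 67108864 0 1073741824 587336777 62277027 (corT true 1 c0B cB102E gB0q1 gB2q2 gB2q0 gB3q0 true true)) t 1 1 1 = true :=
  ⟨(T.b (T.l 1) (T.b (T.b (T.a (T.l 0) (T.b (T.l 1) (T.a (T.l 204) (T.l 204)))) (T.a (T.l 204) (T.a (T.b (T.l 204) (T.l 2)) (T.b (T.l 204) (T.l 2))))) (T.l 2))), by decide +kernel⟩

def B102E_023 :
    ∃ t, chk3 (onCell 0 67108864 0 1073741824 587336777 62277027 (corT true 1 c0B cB102E gB0q1 gB2q2 gB3q0 gB4q0 true true)) t 1 1 1 = true :=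
  ⟨(T.b (T.l 1) (T.b (T.b (T.l 1) (T.a (T.l 204) (T.a (T.b (T.l 204) (T.l 204)) (T.b (T.l 204) (T.l 204))))) (T.a (T.a (T.l 204) (T.l 236)) (T.b (T.a (T.b (T.l 204) (T.l 204)) (T.b (T.l 204) (T.l 204))) (T.b (T.a (T.b (T.l 204) (T.l 2)) (T.l 204)) (T.l 2)))))), by decide +kernel⟩

def B102E_024 :
    ∃ t, chk3 (onCell 0 67108864 0 1073741824 587336777 62277027 (corT true 1 c0B cB102E gB0q1 gB2q2 gB4q0 gB5q0 true false)) t 1 1 1 = true :=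
  ⟨(T.b (T.l 1) (T.b (T.l 1) (T.b (T.a (T.l 1) (T.l 1)) (T.a (T.b (T.l 236) (T.a (T.l 204) (T.l 236))) (T.a (T.a (T.b (T.l 204) (T.l 204)) (T.b (T.l 204) (T.b (T.l 204) (T.l 204)))) (T.b (T.b (T.l 204) (T.l 204)) (T.a (T.l 204) (T.l 204)))))))), by decide +kernel⟩

def B102E_030 :
    ∃ t, chk3 (onCell 0 67108864 0 1073741824 587336777 62277027 (corT true 1 c0B cB102E gB0q1 gB3q2 gB0q0 gB1q0 true true)) t 1 1 1 = true :=
  ⟨(T.b (T.b (T.l 1) (T.b (T.b (T.l 1) (T.a (T.b (T.l 1) (T.b (T.l 1) (T.b (T.a (T.b (T.l 1) (T.l 204)) (T.l 1)) (T.a (T.l 204) (T.c (T.l 204) (T.l 204)))))) (T.l 1))) (T.b (T.a (T.b (T.a (T.l 204) (T.l 204)) (T.l 0)) (T.a (T.b (T.c (T.l 204) (T.l 204)) (T.l 204)) (T.b (T.a (T.b (T.b (T.l 1) (T.c (T.l 204) (T.l 0))) (T.l 0)) (T.b (T.b (T.l 1) (T.a (T.l 204) (T.l 204))) (T.l 0))) (T.c (T.l 0) (T.l 0))))) (T.a (T.l 2) (T.l 2))))) (T.l 2)), by decide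 +kernel⟩

def B102E_031 :
    ∃ t, chk3 (onCell 0 67108864 0 1073741824 587336777 62277027 (corT true 1 c0B cB102E gB0q1 gB3q2 gB1q0 gB2q0 true true)) t 1 1 1 = true :=
  ⟨(T.b (T.b (T.l 1) (T.b (T.l 1) (T.a (T.b (T.b (T.l 1) (T.l 204)) (T.l 204)) (T.a (T.b (T.b (T.l 1) (T.l 204)) (T.l 204)) (T.b (T.b (T.l 1) (T.c (T.l 0) (T.l 0))) (T.l 0)))))) (T.b (T.b (T.a (T.l 204) (T.a (T.l 204) (T.b (T.l 0) (T.l 2)))) (T.l 2)) (T.l 2))), by decide +kernel⟩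

def B102E_032 :
    ∃ t, chk3 (onCell 0 67108864 0 1073741824 587336777 62277027 (corT true 1 c0B cB102E gB0q1 gB3q2 gB2q0 gB3q0 true true)) t 1 1 1 = true :=
  ⟨(T.b (T.b (T.l 1) (T.l 1)) (T.b (T.b (T.a (T.l 204) (T.a (T.l 204) (T.b (T.l 0) (T.l 204)))) (T.a (T.l 204) (T.a (T.l 204) (T.b (T.l 204) (T.l 2))))) (T.l 2))), by decide +kernel⟩

def B102E_033 :
    ∃ t, chk3 (onCell 0 67108864 0 1073741824 587336777 62277027 (corT true 1 c0B cB102E gB0q1 gB3q2 gB3q0 gB4q0 true true)) t 1 1 1 = true :=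
  ⟨(T.b (T.l 1) (T.b (T.a (T.l 0) (T.b (T.l 1) (T.a (T.l 204) (T.b (T.l 204) (T.l 204))))) (T.b (T.a (T.l 204) (T.a (T.b (T.l 204) (T.l 204)) (T.b (T.l 204) (T.l 204)))) (T.b (T.a (T.l 2) (T.l 2)) (T.l 2))))), by decide +kernel⟩

def B102E_034 :
    ∃ t, chk3 (onCell 0 67108864 0 1073741824 587336777 62277027 (corT true 1 c0B cB102E gB0q1 gB3q2 gB4q0 gB5q0 true false)) t 1 1 1 = true :=
  ⟨(T.b (T.l 1) (T.b (T.l 1) (T.b (T.a (T.l 204) (T.b (T.l 1) (T.a (T.l 204) (T.l 204)))) (T.a (T.b (T.l 204) (T.a (T.l 204) (T.l 204))) (T.a (T.a (T.b (T.l 204) (T.l 204)) (T.b (T.l 204) (T.b (T.l 204) (T.l 204)))) (T.b (T.b (T.l 204) (T.l 204)) (T.a (T.l 204) (T.l 204)))))))), by decide +kernel⟩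

def B102E_040 :
    ∃ t, chk3 (onCell 0 67108864 0 1073741824 587336777 62277027 (corT true 1 c0B cB102E gB0q1 gB4q2 gB0q0 gB1q0 true true)) t 1 1 1 = true :=
  ⟨(T.b (T.b (T.b (T.l 1) (T.b (T.b (T.l 1) (T.a (T.a (T.l 204) (T.l 204)) (T.b (T.l 1) (T.a (T.a (T.l 204) (T.l 204)) (T.a (T.l 204) (T.l 204)))))) (T.a (T.a (T.l 204) (T.l 204)) (T.a (T.a (T.b (T.l 204) (T.l 204)) (T.b (T.l 204) (T.l 204))) (T.a (T.l 204) (T.l 204)))))) (T.b (T.l 2) (T.l 2))) (T.l 2)), by decide +kernel⟩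

def B102E_041 :
    ∃ t, chk3 (onCell 0 67108864 0 1073741824 587336777 62277027 (corT true 1 c0B cB102E gB0q1 gB4q2 gB1q0 gB2q0 true true)) t 1 1 1 = true :=
  ⟨(T.b (T.b (T.b (T.l 1) (T.b (T.l 1) (T.a (T.l 204) (T.b (T.l 1) (T.a (T.l 204) (T.l 204)))))) (T.a (T.b (T.l 204) (T.l 204)) (T.b (T.a (T.b (T.l 204) (T.l 204)) (T.b (T.l 204) (T.l 204))) (T.l 2)))) (T.l 2)), by decide +kernel⟩

def B102E_042 :
    ∃ t, chk3 (onCell 0 67108864 0 1073741824 587336777 62277027 (corT true 1 c0B cB102E gB0q1 gB4q2 gB2q0 gB3q0 true true)) t 1 1 1 = true :=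
  ⟨(T.b (T.b (T.l 1) (T.a (T.b (T.l 204) (T.l 204)) (T.b (T.b (T.l 1) (T.a (T.l 204) (T.l 204))) (T.b (T.l 0) (T.l 204))))) (T.b (T.a (T.l 204) (T.b (T.b (T.l 0) (T.l 2)) (T.l 2))) (T.l 2))), by decide +kernel⟩

def B102E_043 :
    ∃ t, chk3 (onCell 0 67108864 0 1073741824 587336777 62277027 (corT true 1 c0B cB102E gB0q1 gB4q2 gB3q0 gB4q0 true true)) t 1 1 1 = true :=
  ⟨(T.b (T.b (T.l 1) (T.b (T.l 1) (T.a (T.l 1) (T.l 1)))) (T.b (T.a (T.l 204) (T.a (T.b (T.l 204) (T.l 204)) (T.b (T.l 204) (T.l 204)))) (T.b (T.a (T.l 204) (T.a (T.l 204) (T.b (T.l 204) (T.l 204)))) (T.l 2)))), by decide +kernel⟩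

def B102E_044 :
    ∃ t, chk3 (onCell 0 67108864 0 1073741824 587336777 62277027 (corT true 1 c0B cB102E gB0q1 gB4q2 gB4q0 gB5q0 true false)) t 1 1 1 = true :=
  ⟨(T.b (T.l 1) (T.b (T.l 1) (T.a (T.b (T.l 204) (T.b (T.l 204) (T.a (T.l 204) (T.l 204)))) (T.b (T.a (T.l 236) (T.b (T.l 1) (T.l 204))) (T.a (T.a (T.b (T.l 204) (T.l 204)) (T.b (T.l 204) (T.b (T.l 204) (T.l 204)))) (T.b (T.l 236) (T.a (T.l 204) (T.l 204)))))))), by decide +kernel⟩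

def B102L_500 :
    ∃ t, chk3 (onCell 0 67108864 0 1073741824 587336777 62277027 (corT true 1 c0B cB102L gB5q1 gB0q2 gB0q0 gB1q0 true true)) t 1 1 1 = true :=
  ⟨(T.b (T.l 2) (T.b (T.l 2) (T.l 2))), by decide +kernel⟩

def B102L_501 :
    ∃ t, chk3 (onCell 0 67108864 0 1073741824 587336777 62277027 (corT true 1 c0B cB102L gB5q1 gB0q2 gB1q0 gB2q0 true true)) t 1 1 1 = true :=
  ⟨(T.b (T.l 2) (T.b (T.l 2) (T.l 0))), by decide +kernel⟩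

def B102L_502 :
    ∃ t, chk3 (onCell 0 67108864 0 1073741824 587336777 62277027 (corT true 1 c0B cB102L gB5q1 gB0q2 gB2q0 gB3q0 true true)) t 1 1 1 = true :=
  ⟨(T.b (T.l 2) (T.b (T.b (T.l 2) (T.l 204)) (T.l 0))), by decide +kernel⟩

def B102L_503 :
    ∃ t, chk3 (onCell 0 67108864 0 1073741824 587336777 62277027 (corT true 1 c0B cB102L gB5q1 gB0q2 gB3q0 gB4q0 true true)) t 1 1 1 = true :=
  ⟨(T.b (T.b (T.a (T.b (T.l 2) (T.l 204)) (T.l 2)) (T.a (T.l 204) (T.a (T.l 0) (T.b (T.l 204) (T.l 204))))) (T.b (T.b (T.a (T.l 204) (T.b (T.l 204) (T.l 204))) (T.l 204)) (T.l 1))), by decide +kernel⟩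

def B102L_504 :
    ∃ t, chk3 (onCell 0 67108864 0 1073741824 587336777 62277027 (corT true 1 c0B cB102L gB5q1 gB0q2 gB4q0 gB5q0 true false)) t 1 1 1 = true :=
  ⟨(T.b (T.b (T.b (T.a (T.a (T.l 204) (T.l 204)) (T.a (T.l 204) (T.l 204))) (T.a (T.l 204) (T.b (T.l 220) (T.l 204)))) (T.a (T.l 204) (T.a (T.l 0) (T.b (T.l 204) (T.l 204))))) (T.l 1)), by decide +kernel⟩

def B102L_510 :
    ∃ t, chk3 (onCell 0 67108864 0 1073741824 587336777 62277027 (corT true 1 c0B cB102L gB5q1 gB1q2 gB0q0 gB1q0 true true)) t 1 1 1 = true :=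
  ⟨(T.b (T.l 2) (T.b (T.l 2) (T.l 2))), by decide +kernel⟩

def B102L_511 :
    ∃ t, chk3 (onCell 0 67108864 0 1073741824 587336777 62277027 (corT true 1 c0B cB102L gB5q1 gB1q2 gB1q0 gB2q0 true true)) t 1 1 1 = true :=
  ⟨(T.b (T.l 2) (T.b (T.l 2) (T.l 0))), by decide +kernel⟩

def B102L_512 :
    ∃ t, chk3 (onCell 0 67108864 0 1073741824 587336777 62277027 (corT true 1 c0B cB102L gB5q1 gB1q2 gB2q0 gB3q0 true true)) t 1 1 1 = true :=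
  ⟨(T.b (T.l 2) (T.b (T.b (T.a (T.l 204) (T.l 2)) (T.l 204)) (T.l 0))), by decide +kernel⟩

def B102L_513 :
    ∃ t, chk3 (onCell 0 67108864 0 1073741824 587336777 62277027 (corT true 1 c0B cB102L gB5q1 gB1q2 gB3q0 gB4q0 true true)) t 1 1 1 = true :=
  ⟨(T.b (T.b (T.b (T.a (T.l 2) (T.l 2)) (T.a (T.l 204) (T.b (T.l 2) (T.l 204)))) (T.a (T.l 204) (T.a (T.b (T.l 204) (T.l 204)) (T.l 220)))) (T.b (T.a (T.l 204) (T.b (T.b (T.l 204) (T.l 204)) (T.l 204))) (T.l 1))), by decide +kernel⟩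

def B102L_514 :
    ∃ t, chk3 (onCell 0 67108864 0 1073741824 587336777 62277027 (corT true 1 c0B cB102L gB5q1 gB1q2 gB4q0 gB5q0 true false)) t 1 1 1 = true :=
  ⟨(T.b (T.b (T.b (T.a (T.a (T.l 204) (T.l 204)) (T.b (T.l 204) (T.l 204))) (T.a (T.l 204) (T.b (T.l 204) (T.l 204)))) (T.a (T.l 1) (T.a (T.b (T.l 204) (T.l 1)) (T.l 204)))) (T.l 1)), by decide +kernel⟩

def B102L_520 :
    ∃ t, chk3 (onCell 0 67108864 0 1073741824 587336777 62277027 (corT true 1 c0B cB102L gB5q1 gB2q2 gB0q0 gB1q0 true true)) t 1 1 1 = true :=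
  ⟨(T.b (T.l 2) (T.b (T.l 2) (T.l 2))), by decide +kernel⟩

def B102L_521 :
    ∃ t, chk3 (onCell 0 67108864 0 1073741824 587336777 62277027 (corT true 1 c0B cB102L gB5q1 gB2q2 gB1q0 gB2q0 true true)) t 1 1 1 = true :=
  ⟨(T.b (T.l 2) (T.b (T.b (T.l 2) (T.l 2)) (T.l 0))), by decide +kernel⟩

def B102L_522 :
    ∃ t, chk3 (onCell 0 67108864 0 1073741824 587336777 62277027 (corT true 1 c0B cB102L gB5q1 gB2q2 gB2q0 gB3q0 true true)) t 1 1 1 = true :=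
  ⟨(T.b (T.b (T.l 2) (T.a (T.l 204) (T.l 2))) (T.b (T.b (T.a (T.l 204) (T.b (T.l 204) (T.l 204))) (T.l 204)) (T.l 0))), by decide +kernel⟩

def B102L_523 :
    ∃ t, chk3 (onCell 0 67108864 0 1073741824 587336777 62277027 (corT true 1 c0B cB102L gB5q1 gB2q2 gB3q0 gB4q0 true true)) t 1 1 1 = true :=
  ⟨(T.b (T.b (T.b (T.a (T.a (T.l 204) (T.l 204)) (T.b (T.l 204) (T.l 204))) (T.a (T.l 204) (T.l 204))) (T.a (T.l 204) (T.a (T.b (T.l 204) (T.l 204)) (T.l 204)))) (T.b (T.a (T.l 204) (T.b (T.b (T.l 204) (T.l 204)) (T.l 1))) (T.l 1))), by decide +kernel⟩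

def B102L_524 :
    ∃ t, chk3 (onCell 0 67108864 0 1073741824 587336777 62277027 (corT true 1 c0B cB102L gB5q1 gB2q2 gB4q0 gB5q0 true false)) t 1 1 1 = true :=
  ⟨(T.b (T.b (T.b (T.a (T.a (T.l 204) (T.l 204)) (T.b (T.l 204) (T.l 204))) (T.a (T.l 1) (T.l 204))) (T.l 1)) (T.l 1)), by decide +kernel⟩

def B102L_530 :
    ∃ t, chk3 (onCell 0 67108864 0 1073741824 587336777 62277027 (corT true 1 c0B cB102L gB5q1 gB3q2 gB0q0 gB1q0 true true)) t 1 1 1 = true :=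
  ⟨(T.b (T.l 2) (T.b (T.l 2) (T.l 2))), by decide +kernel⟩

def B102L_531 :
    ∃ t, chk3 (onCell 0 67108864 0 1073741824 587336777 62277027 (corT true 1 c0B cB102L gB5q1 gB3q2 gB1q0 gB2q0 true true)) t 1 1 1 = true :=
  ⟨(T.b (T.l 2) (T.b (T.b (T.l 2) (T.l 204)) (T.l 0))), by decide +kernel⟩

def B102L_532 :
    ∃ t, chk3 (onCell 0 67108864 0 1073741824 587336777 62277027 (corT true 1 c0B cB102L gB5q1 gB3q2 gB2q0 gB3q0 true true)) t 1 1 1 = true :=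
  ⟨(T.b (T.b (T.l 2) (T.a (T.l 204) (T.b (T.l 2) (T.b (T.l 204) (T.l 204))))) (T.b (T.b (T.a (T.l 204) (T.b (T.l 204) (T.l 204))) (T.l 204)) (T.l 0))), by decide +kernel⟩

def B102L_533 :
    ∃ t, chk3 (onCell 0 67108864 0 1073741824 587336777 62277027 (corT true 1 c0B cB102L gB5q1 gB3q2 gB3q0 gB4q0 true true)) t 1 1 1 = true :=
  ⟨(T.b (T.b (T.a (T.a (T.l 204) (T.b (T.l 204) (T.l 204))) (T.a (T.l 204) (T.l 204))) (T.a (T.l 204) (T.a (T.b (T.l 204) (T.l 204)) (T.l 204)))) (T.l 1)), by decide +kernel⟩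

def B102L_534 :
    ∃ t, chk3 (onCell 0 67108864 0 1073741824 587336777 62277027 (corT true 1 c0B cB102L gB5q1 gB3q2 gB4q0 gB5q0 true false)) t 1 1 1 = true :=
  ⟨(T.l 1), by decide +kernel⟩

def B102L_540 :
    ∃ t, chk3 (onCell 0 67108864 0 1073741824 587336777 62277027 (corT true 1 c0B cB102L gB5q1 gB4q2 gB0q0 gB1q0 true true)) t 1 1 1 = true :=
  ⟨(T.b (T.l 2) (T.l 2)), by decide +kernel⟩

def B102L_541 :
    ∃ t, chk3 (onCell 0 67108864 0 1073741824 587336777 62277027 (corT true 1 c0B cB102L gB5q1 gB4q2 gB1q0 gB2q0 true true)) t 1 1 1 = true :=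
  ⟨(T.b (T.b (T.a (T.a (T.l 204) (T.b (T.l 204) (T.l 204))) (T.b (T.l 204) (T.l 204))) (T.a (T.l 204) (T.b (T.l 204) (T.l 204)))) (T.b (T.b (T.a (T.l 204) (T.l 0)) (T.l 204)) (T.l 0))), by decide +kernel⟩

def B102L_542 :
    ∃ t, chk3 (onCell 0 67108864 0 1073741824 587336777 62277027 (corT true 1 c0B cB102L gB5q1 gB4q2 gB2q0 gB3q0 true true)) t 1 1 1 = true :=
  ⟨(T.b (T.b (T.a (T.l 1) (T.b (T.l 204) (T.l 204))) (T.l 1)) (T.l 1)), by decide +kernel⟩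

def B102L_543 :
    ∃ t, chk3 (onCell 0 67108864 0 1073741824 587336777 62277027 (corT true 1 c0B cB102L gB5q1 gB4q2 gB3q0 gB4q0 true true)) t 1 1 1 = true :=
  ⟨(T.l 1), by decide +kernel⟩

def B102L_544 :
    ∃ t, chk3 (onCell 0 67108864 0 1073741824 587336777 62277027 (corT true 1 c0B cB102L gB5q1 gB4q2 gB4q0 gB5q0 true false)) t 1 1 1 = true :=
  ⟨(T.l 1), by decide +kernel⟩

def B102L_600 :
    ∃ t, chk3 (onCell 0 67108864 0 1073741824 587336777 62277027 (corT true 1 c0B cB102L gB6q1 gB0q2 gB0q0 gB1q0 true true)) t 1 1 1 = true :=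
  ⟨(T.b (T.l 2) (T.l 2)), by decide +kernel⟩

def B102L_601 :
    ∃ t, chk3 (onCell 0 67108864 0 1073741824 587336777 62277027 (corT true 1 c0B cB102L gB6q1 gB0q2 gB1q0 gB2q0 true true)) t 1 1 1 = true :=
  ⟨(T.b (T.l 2) (T.b (T.l 2) (T.l 0))), by decide +kernel⟩

def B102L_602 :
    ∃ t, chk3 (onCell 0 67108864 0 1073741824 587336777 62277027 (corT true 1 c0B cB102L gB6q1 gB0q2 gB2q0 gB3q0 true true)) t 1 1 1 = true :=
  ⟨(T.b (T.l 2) (T.b (T.b (T.l 2) (T.l 204)) (T.l 0))), by decide +kernel⟩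

def B102L_603 :
    ∃ t, chk3 (onCell 0 67108864 0 1073741824 587336777 62277027 (corT true 1 c0B cB102L gB6q1 gB0q2 gB3q0 gB4q0 true true)) t 1 1 1 = true :=
  ⟨(T.b (T.b (T.a (T.b (T.l 2) (T.l 204)) (T.l 2)) (T.a (T.l 204) (T.a (T.l 204) (T.b (T.l 2) (T.l 204))))) (T.b (T.b (T.a (T.l 204) (T.l 16)) (T.l 204)) (T.l 0))), by decide +kernel⟩

def B102L_604 :
    ∃ t, chk3 (onCell 0 67108864 0 1073741824 587336777 62277027 (corT true 1 c0B cB102L gB6q1 gB0q2 gB4q0 gB5q0 true false)) t 1 1 1 = true :=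
  ⟨(T.b (T.b (T.b (T.a (T.a (T.l 204) (T.l 204)) (T.a (T.l 204) (T.l 204))) (T.a (T.l 204) (T.b (T.l 220) (T.l 204)))) (T.a (T.l 204) (T.a (T.l 0) (T.b (T.l 204) (T.l 204))))) (T.l 1)), by decide +kernel⟩

def B102L_610 :
    ∃ t, chk3 (onCell 0 67108864 0 1073741824 587336777 62277027 (corT true 1 c0B cB102L gB6q1 gB1q2 gB0q0 gB1q0 true true)) t 1 1 1 = true :=
  ⟨(T.l 2), by decide +kernel⟩

def B102L_611 :
    ∃ t, chk3 (onCell 0 67108864 0 1073741824 587336777 62277027 (corT true 1 c0B cB102L gB6q1 gB1q2 gB1q0 gB2q0 true true)) t 1 1 1 = true :=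
  ⟨(T.b (T.l 2) (T.b (T.l 2) (T.l 0))), by decide +kernel⟩

def B102L_612 :
    ∃ t, chk3 (onCell 0 67108864 0 1073741824 587336777 62277027 (corT true 1 c0B cB102L gB6q1 gB1q2 gB2q0 gB3q0 true true)) t 1 1 1 = true :=
  ⟨(T.b (T.l 2) (T.b (T.b (T.l 2) (T.l 204)) (T.l 0))), by decide +kernel⟩

def B102L_613 :
    ∃ t, chk3 (onCell 0 67108864 0 1073741824 587336777 62277027 (corT true 1 c0B cB102L gB6q1 gB1q2 gB3q0 gB4q0 true true)) t 1 1 1 = true :=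
  ⟨(T.b (T.b (T.a (T.b (T.l 2) (T.l 204)) (T.l 2)) (T.a (T.l 204) (T.a (T.b (T.l 204) (T.l 204)) (T.l 204)))) (T.b (T.a (T.l 204) (T.b (T.b (T.l 204) (T.l 204)) (T.l 204))) (T.l 0))), by decide +kernel⟩

def B102L_614 :
    ∃ t, chk3 (onCell 0 67108864 0 1073741824 587336777 62277027 (corT true 1 c0B cB102L gB6q1 gB1q2 gB4q0 gB5q0 true false)) t 1 1 1 = true :=
  ⟨(T.b (T.b (T.a (T.a (T.l 204) (T.b (T.l 204) (T.l 204))) (T.a (T.l 204) (T.l 204))) (T.a (T.l 204) (T.a (T.b (T.l 204) (T.l 1)) (T.l 204)))) (T.l 1)), by decide +kernel⟩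

def B102L_620 :
    ∃ t, chk3 (onCell 0 67108864 0 1073741824 587336777 62277027 (corT true 1 c0B cB102L gB6q1 gB2q2 gB0q0 gB1q0 true true)) t 1 1 1 = true :=
  ⟨(T.l 2), by decide +kernel⟩

def B102L_621 :
    ∃ t, chk3 (onCell 0 67108864 0 1073741824 587336777 62277027 (corT true 1 c0B cB102L gB6q1 gB2q2 gB1q0 gB2q0 true true)) t 1 1 1 = true :=
  ⟨(T.b (T.l 2) (T.b (T.l 2) (T.l 0))), by decide +kernel⟩

def B102L_622 :
    ∃ t, chk3 (onCell 0 67108864 0 1073741824 587336777 62277027 (corT true 1 c0B cB102L gB6q1 gB2q2 gB2q0 gB3q0 true true)) t 1 1 1 = true :=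
  ⟨(T.b (T.l 2) (T.b (T.b (T.a (T.l 2) (T.l 2)) (T.l 204)) (T.l 0))), by decide +kernel⟩

def B102L_623 :
    ∃ t, chk3 (onCell 0 67108864 0 1073741824 587336777 62277027 (corT true 1 c0B cB102L gB6q1 gB2q2 gB3q0 gB4q0 true true)) t 1 1 1 = true :=
  ⟨(T.b (T.b (T.a (T.b (T.a (T.l 204) (T.l 204)) (T.l 204)) (T.a (T.l 204) (T.l 204))) (T.a (T.l 204) (T.b (T.l 204) (T.l 220)))) (T.b (T.a (T.l 204) (T.b (T.b (T.l 204) (T.l 204)) (T.l 204))) (T.l 1))), by decide +kernel⟩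

def B102L_624 :
    ∃ t, chk3 (onCell 0 67108864 0 1073741824 587336777 62277027 (corT true 1 c0B cB102L gB6q1 gB2q2 gB4q0 gB5q0 true false)) t 1 1 1 = true :=
  ⟨(T.b (T.b (T.a (T.b (T.a (T.l 204) (T.l 204)) (T.l 1)) (T.a (T.l 204) (T.l 204))) (T.l 1)) (T.l 1)), by decide +kernel⟩

def B102L_630 :
    ∃ t, chk3 (onCell 0 67108864 0 1073741824 587336777 62277027 (corT true 1 c0B cB102L gB6q1 gB3q2 gB0q0 gB1q0 true true)) t 1 1 1 = true :=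
  ⟨(T.l 2), by decide +kernel⟩

def B102L_631 :
    ∃ t, chk3 (onCell 0 67108864 0 1073741824 587336777 62277027 (corT true 1 c0B cB102L gB6q1 gB3q2 gB1q0 gB2q0 true true)) t 1 1 1 = true :=
  ⟨(T.b (T.l 2) (T.b (T.l 2) (T.l 0))), by decide +kernel⟩

def B102L_632 :
    ∃ t, chk3 (onCell 0 67108864 0 1073741824 587336777 62277027 (corT true 1 c0B cB102L gB6q1 gB3q2 gB2q0 gB3q0 true true)) t 1 1 1 = true :=
  ⟨(T.b (T.b (T.l 2) (T.a (T.l 204) (T.l 2))) (T.b (T.b (T.a (T.l 204) (T.b (T.l 204) (T.l 204))) (T.l 204)) (T.l 0))), by decide +kernel⟩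

def B102L_633 :
    ∃ t, chk3 (onCell 0 67108864 0 1073741824 587336777 62277027 (corT true 1 c0B cB102L gB6q1 gB3q2 gB3q0 gB4q0 true true)) t 1 1 1 = true :=
  ⟨(T.b (T.b (T.a (T.a (T.l 204) (T.b (T.l 204) (T.l 204))) (T.a (T.l 204) (T.l 204))) (T.a (T.l 204) (T.b (T.l 204) (T.l 220)))) (T.b (T.a (T.l 204) (T.b (T.b (T.l 204) (T.l 204)) (T.l 204))) (T.l 1))), by decide +kernel⟩

def B102L_634 :
    ∃ t, chk3 (onCell 0 67108864 0 1073741824 587336777 62277027 (corT true 1 c0B cB102L gB6q1 gB3q2 gB4q0 gB5q0 true false)) t 1 1 1 = true :=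
  ⟨(T.l 1), by decide +kernel⟩

def B102L_640 :
    ∃ t, chk3 (onCell 0 67108864 0 1073741824 587336777 62277027 (corT true 1 c0B cB102L gB6q1 gB4q2 gB0q0 gB1q0 true true)) t 1 1 1 = true :=
  ⟨(T.l 2), by decide +kernel⟩

def B102L_641 :
    ∃ t, chk3 (onCell 0 67108864 0 1073741824 587336777 62277027 (corT true 1 c0B cB102L gB6q1 gB4q2 gB1q0 gB2q0 true true)) t 1 1 1 = true :=
  ⟨(T.b (T.a (T.a (T.l 204) (T.a (T.l 204) (T.b (T.l 204) (T.l 204)))) (T.a (T.b (T.l 204) (T.l 204)) (T.b (T.l 204) (T.l 204)))) (T.a (T.l 204) (T.a (T.l 204) (T.b (T.l 0) (T.l 204))))), by decide +kernel⟩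

def B102L_642 :
    ∃ t, chk3 (onCell 0 67108864 0 1073741824 587336777 62277027 (corT true 1 c0B cB102L gB6q1 gB4q2 gB2q0 gB3q0 true true)) t 1 1 1 = true :=
  ⟨(T.b (T.a (T.b (T.l 1) (T.l 1)) (T.a (T.b (T.l 204) (T.l 204)) (T.b (T.l 204) (T.l 204)))) (T.b (T.a (T.l 1) (T.b (T.l 204) (T.l 204))) (T.l 204))), by decide +kernel⟩

def B102L_643 :
    ∃ t, chk3 (onCell 0 67108864 0 1073741824 587336777 62277027 (corT true 1 c0B cB102L gB6q1 gB4q2 gB3q0 gB4q0 true true)) t 1 1 1 = true :=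
  ⟨(T.l 1), by decide +kernel⟩

def B102L_644 :
    ∃ t, chk3 (onCell 0 67108864 0 1073741824 587336777 62277027 (corT true 1 c0B cB102L gB6q1 gB4q2 gB4q0 gB5q0 true false)) t 1 1 1 = true :=
  ⟨(T.l 1), by decide +kernel⟩

def B102L_700 :
    ∃ t, chk3 (onCell 0 67108864 0 1073741824 587336777 62277027 (corT true 1 c0B cB102L gB7q1 gB0q2 gB0q0 gB1q0 true true)) t 1 1 1 = true :=
  ⟨(T.l 2), by decide +kernel⟩

def B102L_701 :
    ∃ t, chk3 (onCell 0 67108864 0 1073741824 587336777 62277027 (corT true 1 c0B cB102L gB7q1 gB0q2 gB1q0 gB2q0 true true)) t 1 1 1 = true :=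
  ⟨(T.b (T.l 2) (T.l 2)), by decide +kernel⟩

def B102L_702 :
    ∃ t, chk3 (onCell 0 67108864 0 1073741824 587336777 62277027 (corT true 1 c0B cB102L gB7q1 gB0q2 gB2q0 gB3q0 true true)) t 1 1 1 = true :=
  ⟨(T.b (T.l 2) (T.b (T.l 2) (T.l 204))), by decide +kernel⟩

def B102L_703 :
    ∃ t, chk3 (onCell 0 67108864 0 1073741824 587336777 62277027 (corT true 1 c0B cB102L gB7q1 gB0q2 gB3q0 gB4q0 true true)) t 1 1 1 = true :=
  ⟨(T.b (T.b (T.b (T.l 2) (T.l 2)) (T.a (T.l 204) (T.a (T.l 204) (T.b (T.l 2) (T.l 204))))) (T.b (T.b (T.a (T.l 204) (T.l 16)) (T.l 204)) (T.l 204))), by decide +kernel⟩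

def B102L_704 :
    ∃ t, chk3 (onCell 0 67108864 0 1073741824 587336777 62277027 (corT true 1 c0B cB102L gB7q1 gB0q2 gB4q0 gB5q0 true false)) t 1 1 1 = true :=
  ⟨(T.b (T.b (T.a (T.a (T.l 204) (T.b (T.l 204) (T.l 204))) (T.a (T.b (T.l 204) (T.l 204)) (T.b (T.l 204) (T.l 204)))) (T.a (T.l 204) (T.a (T.l 204) (T.b (T.l 204) (T.l 204))))) (T.b (T.l 1) (T.l 1))), by decide +kernel⟩

def B102L_710 :
    ∃ t, chk3 (onCell 0 67108864 0 1073741824 587336777 62277027 (corT true 1 c0B cB102L gB7q1 gB1q2 gB0q0 gB1q0 true true)) t 1 1 1 = true :=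
  ⟨(T.l 2), by decide +kernel⟩

def B102L_711 :
    ∃ t, chk3 (onCell 0 67108864 0 1073741824 587336777 62277027 (corT true 1 c0B cB102L gB7q1 gB1q2 gB1q0 gB2q0 true true)) t 1 1 1 = true :=
  ⟨(T.b (T.l 2) (T.l 2)), by decide +kernel⟩

def B102L_712 :
    ∃ t, chk3 (onCell 0 67108864 0 1073741824 587336777 62277027 (corT true 1 c0B cB102L gB7q1 gB1q2 gB2q0 gB3q0 true true)) t 1 1 1 = true :=
  ⟨(T.b (T.l 2) (T.b (T.l 2) (T.l 204))), by decide +kernel⟩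

def B102L_713 :
    ∃ t, chk3 (onCell 0 67108864 0 1073741824 587336777 62277027 (corT true 1 c0B cB102L gB7q1 gB1q2 gB3q0 gB4q0 true true)) t 1 1 1 = true :=
  ⟨(T.b (T.b (T.a (T.b (T.l 2) (T.l 204)) (T.l 2)) (T.a (T.l 204) (T.a (T.b (T.l 204) (T.l 204)) (T.l 204)))) (T.b (T.b (T.a (T.l 204) (T.b (T.l 204) (T.l 204))) (T.l 204)) (T.l 204))), by decide +kernel⟩

def B102L_714 :
    ∃ t, chk3 (onCell 0 67108864 0 1073741824 587336777 62277027 (corT true 1 c0B cB102L gB7q1 gB1q2 gB4q0 gB5q0 true false)) t 1 1 1 = true :=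
  ⟨(T.b (T.b (T.a (T.a (T.l 204) (T.b (T.l 204) (T.l 204))) (T.a (T.l 204) (T.l 204))) (T.a (T.l 204) (T.a (T.b (T.l 204) (T.l 204)) (T.l 204)))) (T.l 1)), by decide +kernel⟩

def B102L_720 :
    ∃ t, chk3 (onCell 0 67108864 0 1073741824 587336777 62277027 (corT true 1 c0B cB102L gB7q1 gB2q2 gB0q0 gB1q0 true true)) t 1 1 1 = true :=
  ⟨(T.l 2), by decide +kernel⟩

def B102L_721 :
    ∃ t, chk3 (onCell 0 67108864 0 1073741824 587336777 62277027 (corT true 1 c0B cB102L gB7q1 gB2q2 gB1q0 gB2q0 true true)) t 1 1 1 = true :=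
  ⟨(T.b (T.l 2) (T.l 2)), by decide +kernel⟩

def B102L_722 :
    ∃ t, chk3 (onCell 0 67108864 0 1073741824 587336777 62277027 (corT true 1 c0B cB102L gB7q1 gB2q2 gB2q0 gB3q0 true true)) t 1 1 1 = true :=
  ⟨(T.b (T.l 2) (T.b (T.l 2) (T.l 204))), by decide +kernel⟩

def B102L_723 :
    ∃ t, chk3 (onCell 0 67108864 0 1073741824 587336777 62277027 (corT true 1 c0B cB102L gB7q1 gB2q2 gB3q0 gB4q0 true true)) t 1 1 1 = true :=
  ⟨(T.b (T.b (T.a (T.b (T.a (T.l 204) (T.l 204)) (T.l 204)) (T.a (T.l 204) (T.l 204))) (T.a (T.l 204) (T.b (T.l 204) (T.l 204)))) (T.b (T.a (T.l 204) (T.b (T.l 220) (T.l 204))) (T.l 204))), by decide +kernel⟩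

def B102L_724 :
    ∃ t, chk3 (onCell 0 67108864 0 1073741824 587336777 62277027 (corT true 1 c0B cB102L gB7q1 gB2q2 gB4q0 gB5q0 true false)) t 1 1 1 = true :=
  ⟨(T.b (T.b (T.a (T.b (T.a (T.l 204) (T.l 204)) (T.l 1)) (T.a (T.l 204) (T.l 204))) (T.a (T.l 1) (T.l 1))) (T.l 1)), by decide +kernel⟩

def B102L_730 :
    ∃ t, chk3 (onCell 0 67108864 0 1073741824 587336777 62277027 (corT true 1 c0B cB102L gB7q1 gB3q2 gB0q0 gB1q0 true true)) t 1 1 1 = true :=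
  ⟨(T.l 2), by decide +kernel⟩

def B102L_731 :
    ∃ t, chk3 (onCell 0 67108864 0 1073741824 587336777 62277027 (corT true 1 c0B cB102L gB7q1 gB3q2 gB1q0 gB2q0 true true)) t 1 1 1 = true :=
  ⟨(T.b (T.l 2) (T.l 2)), by decide +kernel⟩

def B102L_732 :
    ∃ t, chk3 (onCell 0 67108864 0 1073741824 587336777 62277027 (corT true 1 c0B cB102L gB7q1 gB3q2 gB2q0 gB3q0 true true)) t 1 1 1 = true :=
  ⟨(T.b (T.b (T.l 2) (T.l 2)) (T.b (T.b (T.a (T.l 2) (T.l 2)) (T.l 204)) (T.l 204))), by decide +kernel⟩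

def B102L_733 :
    ∃ t, chk3 (onCell 0 67108864 0 1073741824 587336777 62277027 (corT true 1 c0B cB102L gB7q1 gB3q2 gB3q0 gB4q0 true true)) t 1 1 1 = true :=
  ⟨(T.b (T.b (T.a (T.a (T.l 204) (T.b (T.l 204) (T.l 204))) (T.a (T.l 204) (T.l 204))) (T.a (T.l 204) (T.b (T.l 204) (T.l 204)))) (T.b (T.a (T.l 204) (T.b (T.l 220) (T.l 204))) (T.l 204))), by decide +kernel⟩

def B102L_734 :
    ∃ t, chk3 (onCell 0 67108864 0 1073741824 587336777 62277027 (corT true 1 c0B cB102L gB7q1 gB3q2 gB4q0 gB5q0 true false)) t 1 1 1 = true :=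
  ⟨(T.l 1), by decide +kernel⟩

def B102L_740 :
    ∃ t, chk3 (onCell 0 67108864 0 1073741824 587336777 62277027 (corT true 1 c0B cB102L gB7q1 gB4q2 gB0q0 gB1q0 true true)) t 1 1 1 = true :=
  ⟨(T.l 2), by decide +kernel⟩

def B102L_741 :
    ∃ t, chk3 (onCell 0 67108864 0 1073741824 587336777 62277027 (corT true 1 c0B cB102L gB7q1 gB4q2 gB1q0 gB2q0 true true)) t 1 1 1 = true :=
  ⟨(T.b (T.a (T.a (T.l 204) (T.a (T.l 204) (T.b (T.l 204) (T.l 2)))) (T.b (T.b (T.l 204) (T.l 2)) (T.l 2))) (T.l 2)), by decide +kernel⟩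

def B102L_742 :
    ∃ t, chk3 (onCell 0 67108864 0 1073741824 587336777 62277027 (corT true 1 c0B cB102L gB7q1 gB4q2 gB2q0 gB3q0 true true)) t 1 1 1 = true :=
  ⟨(T.b (T.a (T.b (T.b (T.b (T.l 1) (T.l 204)) (T.l 204)) (T.l 204)) (T.b (T.b (T.l 204) (T.l 204)) (T.b (T.l 204) (T.l 204)))) (T.b (T.b (T.a (T.l 204) (T.l 204)) (T.l 204)) (T.l 204))), by decide +kernel⟩

def B102L_743 :
    ∃ t, chk3 (onCell 0 67108864 0 1073741824 587336777 62277027 (corT true 1 c0B cB102L gB7q1 gB4q2 gB3q0 gB4q0 true true)) t 1 1 1 = true :=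
  ⟨(T.b (T.l 1) (T.l 1)), by decide +kernel⟩

def B102L_744 :
    ∃ t, chk3 (onCell 0 67108864 0 1073741824 587336777 62277027 (corT true 1 c0B cB102L gB7q1 gB4q2 gB4q0 gB5q0 true false)) t 1 1 1 = true :=
  ⟨(T.l 1), by decide +kernel⟩

def B102R_070 :
    ∃ t, chk3 (onCell 0 67108864 0 1073741824 587336777 62277027 (corT true 1 c0B cB102R gB0q1 gB7q2 gB0q0 gB1q0 true true)) t 1 1 1 = true :=
  ⟨(T.l 1), by decide +kernel⟩

def B102R_071 :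
    ∃ t, chk3 (onCell 0 67108864 0 1073741824 587336777 62277027 (corT true 1 c0B cB102R gB0q1 gB7q2 gB1q0 gB2q0 true true)) t 1 1 1 = true :=
  ⟨(T.l 1), by decide +kernel⟩

def B102R_072 :
    ∃ t, chk3 (onCell 0 67108864 0 1073741824 587336777 62277027 (corT true 1 c0B cB102R gB0q1 gB7q2 gB2q0 gB3q0 true true)) t 1 1 1 = true :=
  ⟨(T.l 1), by decide +kernel⟩

def B102R_073 :
    ∃ t, chk3 (onCell 0 67108864 0 1073741824 587336777 62277027 (corT true 1 c0B cB102R gB0q1 gB7q2 gB3q0 gB4q0 true true)) t 1 1 1 = true :=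
  ⟨(T.l 1), by decide +kernel⟩

def B102R_074 :
    ∃ t, chk3 (onCell 0 67108864 0 1073741824 587336777 62277027 (corT true 1 c0B cB102R gB0q1 gB7q2 gB4q0 gB5q0 true false)) t 1 1 1 = true :=
  ⟨(T.l 1), by decide +kernel⟩

def B202E_000 :
    ∃ t, chk3 (onCell 0 67108864 0 1073741824 587336777 62277027 (corT true 1 c0B cB202E gB0q2 gB0q2 gB0q0 gB1q0 true true)) t 1 1 1 = true :=
  ⟨(T.l 1), by decide +kernel⟩

def B202E_001 :
    ∃ t, chk3 (onCell 0 67108864 0 1073741824 587336777 62277027 (corT true 1 c0B cB202E gB0q2 gB0q2 gB1q0 gB2q0 true true)) t 1 1 1 = true :=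
  ⟨(T.l 1), by decide +kernel⟩

def B202E_002 :
    ∃ t, chk3 (onCell 0 67108864 0 1073741824 587336777 62277027 (corT true 1 c0B cB202E gB0q2 gB0q2 gB2q0 gB3q0 true true)) t 1 1 1 = true :=
  ⟨(T.l 1), by decide +kernel⟩

def B202E_003 :
    ∃ t, chk3 (onCell 0 67108864 0 1073741824 587336777 62277027 (corT true 1 c0B cB202E gB0q2 gB0q2 gB3q0 gB4q0 true true)) t 1 1 1 = true :=
  ⟨(T.l 1), by decide +kernel⟩

def B202E_004 :
    ∃ t, chk3 (onCell 0 67108864 0 1073741824 587336777 62277027 (corT true 1 c0B cB202E gB0q2 gB0q2 gB4q0 gB5q0 true false)) t 1 1 1 = true :=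
  ⟨(T.l 1), by decide +kernel⟩

def B202E_010 :
    ∃ t, chk3 (onCell 0 67108864 0 1073741824 587336777 62277027 (corT true 1 c0B cB202E gB0q2 gB1q2 gB0q0 gB1q0 true true)) t 1 1 1 = true :=
  ⟨(T.l 1), by decide +kernel⟩

def B202E_011 :
    ∃ t, chk3 (onCell 0 67108864 0 1073741824 587336777 62277027 (corT true 1 c0B cB202E gB0q2 gB1q2 gB1q0 gB2q0 true true)) t 1 1 1 = true :=
  ⟨(T.l 1), by decide +kernel⟩

def B202E_012 :
    ∃ t, chk3 (onCell 0 67108864 0 1073741824 587336777 62277027 (corT true 1 c0B cB202E gB0q2 gB1q2 gB2q0 gB3q0 true true)) t 1 1 1 = true :=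
  ⟨(T.l 1), by decide +kernel⟩

def B202E_013 :
    ∃ t, chk3 (onCell 0 67108864 0 1073741824 587336777 62277027 (corT true 1 c0B cB202E gB0q2 gB1q2 gB3q0 gB4q0 true true)) t 1 1 1 = true :=
  ⟨(T.l 1), by decide +kernel⟩

def B202E_014 :
    ∃ t, chk3 (onCell 0 67108864 0 1073741824 587336777 62277027 (corT true 1 c0B cB202E gB0q2 gB1q2 gB4q0 gB5q0 true false)) t 1 1 1 = true :=
  ⟨(T.l 1), by decide +kernel⟩

def B202E_020 :
    ∃ t, chk3 (onCell 0 67108864 0 1073741824 587336777 62277027 (corT true 1 c0B cB202E gB0q2 gB2q2 gB0q0 gB1q0 true true)) t 1 1 1 = true :=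
  ⟨(T.l 1), by decide +kernel⟩

def B202E_021 :
    ∃ t, chk3 (onCell 0 67108864 0 1073741824 587336777 62277027 (corT true 1 c0B cB202E gB0q2 gB2q2 gB1q0 gB2q0 true true)) t 1 1 1 = true :=
  ⟨(T.l 1), by decide +kernel⟩

def B202E_022 :
    ∃ t, chk3 (onCell 0 67108864 0 1073741824 587336777 62277027 (corT true 1 c0B cB202E gB0q2 gB2q2 gB2q0 gB3q0 true true)) t 1 1 1 = true :=
  ⟨(T.l 1), by decide +kernel⟩

def B202E_023 :
    ∃ t, chk3 (onCell 0 67108864 0 1073741824 587336777 62277027 (corT true 1 c0B cB202E gB0q2 gB2q2 gB3q0 gB4q0 true true)) t 1 1 1 = true :=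
  ⟨(T.l 1), by decide +kernel⟩

def B202E_024 :
    ∃ t, chk3 (onCell 0 67108864 0 1073741824 587336777 62277027 (corT true 1 c0B cB202E gB0q2 gB2q2 gB4q0 gB5q0 true false)) t 1 1 1 = true :=
  ⟨(T.l 1), by decide +kernel⟩

def B202E_030 :
    ∃ t, chk3 (onCell 0 67108864 0 1073741824 587336777 62277027 (corT true 1 c0B cB202E gB0q2 gB3q2 gB0q0 gB1q0 true true)) t 1 1 1 = true :=
  ⟨(T.l 1), by decide +kernel⟩

def B202E_031 :
    ∃ t, chk3 (onCell 0 67108864 0 1073741824 587336777 62277027 (corT true 1 c0B cB202E gB0q2 gB3q2 gB1q0 gB2q0 true true)) t 1 1 1 = true :=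
  ⟨(T.l 1), by decide +kernel⟩

def B202E_032 :
    ∃ t, chk3 (onCell 0 67108864 0 1073741824 587336777 62277027 (corT true 1 c0B cB202E gB0q2 gB3q2 gB2q0 gB3q0 true true)) t 1 1 1 = true :=
  ⟨(T.l 1), by decide +kernel⟩

def B202E_033 :
    ∃ t, chk3 (onCell 0 67108864 0 1073741824 587336777 62277027 (corT true 1 c0B cB202E gB0q2 gB3q2 gB3q0 gB4q0 true true)) t 1 1 1 = true :=
  ⟨(T.l 1), by decide +kernel⟩

def B202E_034 :
    ∃ t, chk3 (onCell 0 67108864 0 1073741824 587336777 62277027 (corT true 1 c0B cB202E gB0q2 gB3q2 gB4q0 gB5q0 true false)) t 1 1 1 = true :=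
  ⟨(T.l 1), by decide +kernel⟩

def B202E_040 :
    ∃ t, chk3 (onCell 0 67108864 0 1073741824 587336777 62277027 (corT true 1 c0B cB202E gB0q2 gB4q2 gB0q0 gB1q0 true true)) t 1 1 1 = true :=
  ⟨(T.b (T.l 1) (T.l 1)), by decide +kernel⟩

def B202E_041 :
    ∃ t, chk3 (onCell 0 67108864 0 1073741824 587336777 62277027 (corT true 1 c0B cB202E gB0q2 gB4q2 gB1q0 gB2q0 true true)) t 1 1 1 = true :=
  ⟨(T.l 1), by decide +kernel⟩

def B202E_042 :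
    ∃ t, chk3 (onCell 0 67108864 0 1073741824 587336777 62277027 (corT true 1 c0B cB202E gB0q2 gB4q2 gB2q0 gB3q0 true true)) t 1 1 1 = true :=
  ⟨(T.l 1), by decide +kernel⟩

def B202E_043 :
    ∃ t, chk3 (onCell 0 67108864 0 1073741824 587336777 62277027 (corT true 1 c0B cB202E gB0q2 gB4q2 gB3q0 gB4q0 true true)) t 1 1 1 = true :=
  ⟨(T.l 1), by decide +kernel⟩

def B202E_044 :
    ∃ t, chk3 (onCell 0 67108864 0 1073741824 587336777 62277027 (corT true 1 c0B cB202E gB0q2 gB4q2 gB4q0 gB5q0 true false)) t 1 1 1 = true :=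
  ⟨(T.l 1), by decide +kernel⟩

def B202E_100 :
    ∃ t, chk3 (onCell 0 67108864 0 1073741824 587336777 62277027 (corT true 1 c0B cB202E gB1q2 gB0q2 gB0q0 gB1q0 true true)) t 1 1 1 = true :=
  ⟨(T.l 1), by decide +kernel⟩

def B202E_101 :
    ∃ t, chk3 (onCell 0 67108864 0 1073741824 587336777 62277027 (corT true 1 c0B cB202E gB1q2 gB0q2 gB1q0 gB2q0 true true)) t 1 1 1 = true :=
  ⟨(T.l 1), by decide +kernel⟩

def B202E_102 :
    ∃ t, chk3 (onCell 0 67108864 0 1073741824 587336777 62277027 (corT true 1 c0B cB202E gB1q2 gB0q2 gB2q0 gB3q0 true true)) t 1 1 1 = true :=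
  ⟨(T.l 1), by decide +kernel⟩

def B202E_103 :
    ∃ t, chk3 (onCell 0 67108864 0 1073741824 587336777 62277027 (corT true 1 c0B cB202E gB1q2 gB0q2 gB3q0 gB4q0 true true)) t 1 1 1 = true :=
  ⟨(T.l 1), by decide +kernel⟩

def B202E_104 :
    ∃ t, chk3 (onCell 0 67108864 0 1073741824 587336777 62277027 (corT true 1 c0B cB202E gB1q2 gB0q2 gB4q0 gB5q0 true false)) t 1 1 1 = true :=
  ⟨(T.l 1), by decide +kernel⟩

def B202E_110 :
    ∃ t, chk3 (onCell 0 67108864 0 1073741824 587336777 62277027 (corT true 1 c0B cB202E gB1q2 gB1q2 gB0q0 gB1q0 true true)) t 1 1 1 = true :=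
  ⟨(T.l 1), by decide +kernel⟩

def B202E_111 :
    ∃ t, chk3 (onCell 0 67108864 0 1073741824 587336777 62277027 (corT true 1 c0B cB202E gB1q2 gB1q2 gB1q0 gB2q0 true true)) t 1 1 1 = true :=
  ⟨(T.l 1), by decide +kernel⟩

def B202E_112 :
    ∃ t, chk3 (onCell 0 67108864 0 1073741824 587336777 62277027 (corT true 1 c0B cB202E gB1q2 gB1q2 gB2q0 gB3q0 true true)) t 1 1 1 = true :=
  ⟨(T.l 1), by decide +kernel⟩

def B202E_113 :
    ∃ t, chk3 (onCell 0 67108864 0 1073741824 587336777 62277027 (corT true 1 c0B cB202E gB1q2 gB1q2 gB3q0 gB4q0 true true)) t 1 1 1 = true :=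
  ⟨(T.l 1), by decide +kernel⟩

def B202E_114 :
    ∃ t, chk3 (onCell 0 67108864 0 1073741824 587336777 62277027 (corT true 1 c0B cB202E gB1q2 gB1q2 gB4q0 gB5q0 true false)) t 1 1 1 = true :=
  ⟨(T.l 1), by decide +kernel⟩

def B202E_120 :
    ∃ t, chk3 (onCell 0 67108864 0 1073741824 587336777 62277027 (corT true 1 c0B cB202E gB1q2 gB2q2 gB0q0 gB1q0 true true)) t 1 1 1 = true :=
  ⟨(T.l 1), by decide +kernel⟩

def B202E_121 :
    ∃ t, chk3 (onCell 0 67108864 0 1073741824 587336777 62277027 (corT true 1 c0B cB202E gB1q2 gB2q2 gB1q0 gB2q0 true true)) t 1 1 1 = true :=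
  ⟨(T.l 1), by decide +kernel⟩

def B202E_122 :
    ∃ t, chk3 (onCell 0 67108864 0 1073741824 587336777 62277027 (corT true 1 c0B cB202E gB1q2 gB2q2 gB2q0 gB3q0 true true)) t 1 1 1 = true :=
  ⟨(T.l 1), by decide +kernel⟩

def B202E_123 :
    ∃ t, chk3 (onCell 0 67108864 0 1073741824 587336777 62277027 (corT true 1 c0B cB202E gB1q2 gB2q2 gB3q0 gB4q0 true true)) t 1 1 1 = true :=
  ⟨(T.l 1), by decide +kernel⟩

def B202E_124 :
    ∃ t, chk3 (onCell 0 67108864 0 1073741824 587336777 62277027 (corT true 1 c0B cB202E gB1q2 gB2q2 gB4q0 gB5q0 true false)) t 1 1 1 = true :=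
  ⟨(T.l 1), by decide +kernel⟩

def B202E_130 :
    ∃ t, chk3 (onCell 0 67108864 0 1073741824 587336777 62277027 (corT true 1 c0B cB202E gB1q2 gB3q2 gB0q0 gB1q0 true true)) t 1 1 1 = true :=
  ⟨(T.l 1), by decide +kernel⟩

def B202E_131 :
    ∃ t, chk3 (onCell 0 67108864 0 1073741824 587336777 62277027 (corT true 1 c0B cB202E gB1q2 gB3q2 gB1q0 gB2q0 true true)) t 1 1 1 = true :=
  ⟨(T.l 1), by decide +kernel⟩

def B202E_132 :
    ∃ t, chk3 (onCell 0 67108864 0 1073741824 587336777 62277027 (corT true 1 c0B cB202E gB1q2 gB3q2 gB2q0 gB3q0 true true)) t 1 1 1 = true :=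
  ⟨(T.l 1), by decide +kernel⟩

def B202E_133 :
    ∃ t, chk3 (onCell 0 67108864 0 1073741824 587336777 62277027 (corT true 1 c0B cB202E gB1q2 gB3q2 gB3q0 gB4q0 true true)) t 1 1 1 = true :=
  ⟨(T.l 1), by decide +kernel⟩

def B202E_134 :
    ∃ t, chk3 (onCell 0 67108864 0 1073741824 587336777 62277027 (corT true 1 c0B cB202E gB1q2 gB3q2 gB4q0 gB5q0 true false)) t 1 1 1 = true :=
  ⟨(T.l 1), by decide +kernel⟩

def B202E_140 :
    ∃ t, chk3 (onCell 0 67108864 0 1073741824 587336777 62277027 (corT true 1 c0B cB202E gB1q2 gB4q2 gB0q0 gB1q0 true true)) t 1 1 1 = true :=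
  ⟨(T.l 1), by decide +kernel⟩

def B202E_141 :
    ∃ t, chk3 (onCell 0 67108864 0 1073741824 587336777 62277027 (corT true 1 c0B cB202E gB1q2 gB4q2 gB1q0 gB2q0 true true)) t 1 1 1 = true :=
  ⟨(T.l 1), by decide +kernel⟩

def B202E_142 :
    ∃ t, chk3 (onCell 0 67108864 0 1073741824 587336777 62277027 (corT true 1 c0B cB202E gB1q2 gB4q2 gB2q0 gB3q0 true true)) t 1 1 1 = true :=
  ⟨(T.l 1), by decide +kernel⟩

def B202E_143 :
    ∃ t, chk3 (onCell 0 67108864 0 1073741824 587336777 62277027 (corT true 1 c0B cB202E gB1q2 gB4q2 gB3q0 gB4q0 true true)) t 1 1 1 = true :=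
  ⟨(T.l 1), by decide +kernel⟩

def B202E_144 :
    ∃ t, chk3 (onCell 0 67108864 0 1073741824 587336777 62277027 (corT true 1 c0B cB202E gB1q2 gB4q2 gB4q0 gB5q0 true false)) t 1 1 1 = true :=
  ⟨(T.l 1), by decide +kernel⟩

def B202E_200 :
    ∃ t, chk3 (onCell 0 67108864 0 1073741824 587336777 62277027 (corT true 1 c0B cB202E gB2q2 gB0q2 gB0q0 gB1q0 true true)) t 1 1 1 = true :=
  ⟨(T.l 1), by decide +kernel⟩

def B202E_201 :
    ∃ t, chk3 (onCell 0 67108864 0 1073741824 587336777 62277027 (corT true 1 c0B cB202E gB2q2 gB0q2 gB1q0 gB2q0 true true)) t 1 1 1 = true :=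
  ⟨(T.l 1), by decide +kernel⟩

def B202E_202 :
    ∃ t, chk3 (onCell 0 67108864 0 1073741824 587336777 62277027 (corT true 1 c0B cB202E gB2q2 gB0q2 gB2q0 gB3q0 true true)) t 1 1 1 = true :=
  ⟨(T.l 1), by decide +kernel⟩

def B202E_203 :
    ∃ t, chk3 (onCell 0 67108864 0 1073741824 587336777 62277027 (corT true 1 c0B cB202E gB2q2 gB0q2 gB3q0 gB4q0 true true)) t 1 1 1 = true :=
  ⟨(T.l 1), by decide +kernel⟩

def B202E_204 :
    ∃ t, chk3 (onCell 0 67108864 0 1073741824 587336777 62277027 (corT true 1 c0B cB202E gB2q2 gB0q2 gB4q0 gB5q0 true false)) t 1 1 1 = true :=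
  ⟨(T.l 1), by decide +kernel⟩

def B202E_210 :
    ∃ t, chk3 (onCell 0 67108864 0 1073741824 587336777 62277027 (corT true 1 c0B cB202E gB2q2 gB1q2 gB0q0 gB1q0 true true)) t 1 1 1 = true :=
  ⟨(T.l 1), by decide +kernel⟩

def B202E_211 :
    ∃ t, chk3 (onCell 0 67108864 0 1073741824 587336777 62277027 (corT true 1 c0B cB202E gB2q2 gB1q2 gB1q0 gB2q0 true true)) t 1 1 1 = true :=
  ⟨(T.l 1), by decide +kernel⟩

def B202E_212 :
    ∃ t, chk3 (onCell 0 67108864 0 1073741824 587336777 62277027 (corT true 1 c0B cB202E gB2q2 gB1q2 gB2q0 gB3q0 true true)) t 1 1 1 = true :=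
  ⟨(T.l 1), by decide +kernel⟩

def B202E_213 :
    ∃ t, chk3 (onCell 0 67108864 0 1073741824 587336777 62277027 (corT true 1 c0B cB202E gB2q2 gB1q2 gB3q0 gB4q0 true true)) t 1 1 1 = true :=
  ⟨(T.l 1), by decide +kernel⟩

def B202E_214 :
    ∃ t, chk3 (onCell 0 67108864 0 1073741824 587336777 62277027 (corT true 1 c0B cB202E gB2q2 gB1q2 gB4q0 gB5q0 true false)) t 1 1 1 = true :=
  ⟨(T.l 1), by decide +kernel⟩

def B202E_220 :
    ∃ t, chk3 (onCell 0 67108864 0 1073741824 587336777 62277027 (corT true 1 c0B cB202E gB2q2 gB2q2 gB0q0 gB1q0 true true)) t 1 1 1 = true :=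
  ⟨(T.l 1), by decide +kernel⟩

def B202E_221 :
    ∃ t, chk3 (onCell 0 67108864 0 1073741824 587336777 62277027 (corT true 1 c0B cB202E gB2q2 gB2q2 gB1q0 gB2q0 true true)) t 1 1 1 = true :=
  ⟨(T.l 1), by decide +kernel⟩

def B202E_222 :
    ∃ t, chk3 (onCell 0 67108864 0 1073741824 587336777 62277027 (corT true 1 c0B cB202E gB2q2 gB2q2 gB2q0 gB3q0 true true)) t 1 1 1 = true :=
  ⟨(T.l 1), by decide +kernel⟩

def B202E_223 :
    ∃ t, chk3 (onCell 0 67108864 0 1073741824 587336777 62277027 (corT true 1 c0B cB202E gB2q2 gB2q2 gB3q0 gB4q0 true true)) t 1 1 1 = true :=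
  ⟨(T.l 1), by decide +kernel⟩

def B202E_224 :
    ∃ t, chk3 (onCell 0 67108864 0 1073741824 587336777 62277027 (corT true 1 c0B cB202E gB2q2 gB2q2 gB4q0 gB5q0 true false)) t 1 1 1 = true :=
  ⟨(T.l 1), by decide +kernel⟩

def B202E_230 :
    ∃ t, chk3 (onCell 0 67108864 0 1073741824 587336777 62277027 (corT true 1 c0B cB202E gB2q2 gB3q2 gB0q0 gB1q0 true true)) t 1 1 1 = true :=
  ⟨(T.l 1), by decide +kernel⟩

def B202E_231 :
    ∃ t, chk3 (onCell 0 67108864 0 1073741824 587336777 62277027 (corT true 1 c0B cB202E gB2q2 gB3q2 gB1q0 gB2q0 true true)) t 1 1 1 = true :=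
  ⟨(T.l 1), by decide +kernel⟩

def B202E_232 :
    ∃ t, chk3 (onCell 0 67108864 0 1073741824 587336777 62277027 (corT true 1 c0B cB202E gB2q2 gB3q2 gB2q0 gB3q0 true true)) t 1 1 1 = true :=
  ⟨(T.l 1), by decide +kernel⟩

def B202E_233 :
    ∃ t, chk3 (onCell 0 67108864 0 1073741824 587336777 62277027 (corT true 1 c0B cB202E gB2q2 gB3q2 gB3q0 gB4q0 true true)) t 1 1 1 = true :=
  ⟨(T.l 1), by decide +kernel⟩

def B202E_234 :
    ∃ t, chk3 (onCell 0 67108864 0 1073741824 587336777 62277027 (corT true 1 c0B cB202E gB2q2 gB3q2 gB4q0 gB5q0 true false)) t 1 1 1 = true :=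
  ⟨(T.l 1), by decide +kernel⟩

def B202E_240 :
    ∃ t, chk3 (onCell 0 67108864 0 1073741824 587336777 62277027 (corT true 1 c0B cB202E gB2q2 gB4q2 gB0q0 gB1q0 true true)) t 1 1 1 = true :=
  ⟨(T.l 1), by decide +kernel⟩

def B202E_241 :
    ∃ t, chk3 (onCell 0 67108864 0 1073741824 587336777 62277027 (corT true 1 c0B cB202E gB2q2 gB4q2 gB1q0 gB2q0 true true)) t 1 1 1 = true :=
  ⟨(T.l 1), by decide +kernel⟩

def B202E_242 :
    ∃ t, chk3 (onCell 0 67108864 0 1073741824 587336777 62277027 (corT true 1 c0B cB202E gB2q2 gB4q2 gB2q0 gB3q0 true true)) t 1 1 1 = true :=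
  ⟨(T.l 1), by decide +kernel⟩

def B202E_243 :
    ∃ t, chk3 (onCell 0 67108864 0 1073741824 587336777 62277027 (corT true 1 c0B cB202E gB2q2 gB4q2 gB3q0 gB4q0 true true)) t 1 1 1 = true :=
  ⟨(T.l 1), by decide +kernel⟩

def B202E_244 :
    ∃ t, chk3 (onCell 0 67108864 0 1073741824 587336777 62277027 (corT true 1 c0B cB202E gB2q2 gB4q2 gB4q0 gB5q0 true false)) t 1 1 1 = true :=
  ⟨(T.l 1), by decide +kernel⟩

def B202E_300 :
    ∃ t, chk3 (onCell 0 67108864 0 1073741824 587336777 62277027 (corT true 1 c0B cB202E gB3q2 gB0q2 gB0q0 gB1q0 true true)) t 1 1 1 = true :=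
  ⟨(T.l 1), by decide +kernel⟩

def B202E_301 :
    ∃ t, chk3 (onCell 0 67108864 0 1073741824 587336777 62277027 (corT true 1 c0B cB202E gB3q2 gB0q2 gB1q0 gB2q0 true true)) t 1 1 1 = true :=
  ⟨(T.l 1), by decide +kernel⟩

def B202E_302 :
    ∃ t, chk3 (onCell 0 67108864 0 1073741824 587336777 62277027 (corT true 1 c0B cB202E gB3q2 gB0q2 gB2q0 gB3q0 true true)) t 1 1 1 = true :=
  ⟨(T.l 1), by decide +kernel⟩

def B202E_303 :
    ∃ t, chk3 (onCell 0 67108864 0 1073741824 587336777 62277027 (corT true 1 c0B cB202E gB3q2 gB0q2 gB3q0 gB4q0 true true)) t 1 1 1 = true :=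
  ⟨(T.l 1), by decide +kernel⟩

def B202E_304 :
    ∃ t, chk3 (onCell 0 67108864 0 1073741824 587336777 62277027 (corT true 1 c0B cB202E gB3q2 gB0q2 gB4q0 gB5q0 true false)) t 1 1 1 = true :=
  ⟨(T.l 1), by decide +kernel⟩

def B202E_310 :
    ∃ t, chk3 (onCell 0 67108864 0 1073741824 587336777 62277027 (corT true 1 c0B cB202E gB3q2 gB1q2 gB0q0 gB1q0 true true)) t 1 1 1 = true :=
  ⟨(T.l 1), by decide +kernel⟩

def B202E_311 :
    ∃ t, chk3 (onCell 0 67108864 0 1073741824 587336777 62277027 (corT true 1 c0B cB202E gB3q2 gB1q2 gB1q0 gB2q0 true true)) t 1 1 1 = true :=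
  ⟨(T.l 1), by decide +kernel⟩

def B202E_312 :
    ∃ t, chk3 (onCell 0 67108864 0 1073741824 587336777 62277027 (corT true 1 c0B cB202E gB3q2 gB1q2 gB2q0 gB3q0 true true)) t 1 1 1 = true :=
  ⟨(T.l 1), by decide +kernel⟩

def B202E_313 :
    ∃ t, chk3 (onCell 0 67108864 0 1073741824 587336777 62277027 (corT true 1 c0B cB202E gB3q2 gB1q2 gB3q0 gB4q0 true true)) t 1 1 1 = true :=
  ⟨(T.l 1), by decide +kernel⟩

def B202E_314 :
    ∃ t, chk3 (onCell 0 67108864 0 1073741824 587336777 62277027 (corT true 1 c0B cB202E gB3q2 gB1q2 gB4q0 gB5q0 true false)) t 1 1 1 = true :=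
  ⟨(T.l 1), by decide +kernel⟩

def B202E_320 :
    ∃ t, chk3 (onCell 0 67108864 0 1073741824 587336777 62277027 (corT true 1 c0B cB202E gB3q2 gB2q2 gB0q0 gB1q0 true true)) t 1 1 1 = true :=
  ⟨(T.l 1), by decide +kernel⟩

def B202E_321 :
    ∃ t, chk3 (onCell 0 67108864 0 1073741824 587336777 62277027 (corT true 1 c0B cB202E gB3q2 gB2q2 gB1q0 gB2q0 true true)) t 1 1 1 = true :=
  ⟨(T.l 1), by decide +kernel⟩

def B202E_322 :
    ∃ t, chk3 (onCell 0 67108864 0 1073741824 587336777 62277027 (corT true 1 c0B cB202E gB3q2 gB2q2 gB2q0 gB3q0 true true)) t 1 1 1 = true :=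
  ⟨(T.l 1), by decide +kernel⟩

def B202E_323 :
    ∃ t, chk3 (onCell 0 67108864 0 1073741824 587336777 62277027 (corT true 1 c0B cB202E gB3q2 gB2q2 gB3q0 gB4q0 true true)) t 1 1 1 = true :=
  ⟨(T.l 1), by decide +kernel⟩

def B202E_324 :
    ∃ t, chk3 (onCell 0 67108864 0 1073741824 587336777 62277027 (corT true 1 c0B cB202E gB3q2 gB2q2 gB4q0 gB5q0 true false)) t 1 1 1 = true :=
  ⟨(T.l 1), by decide +kernel⟩

def B202E_330 :
    ∃ t, chk3 (onCell 0 67108864 0 1073741824 587336777 62277027 (corT true 1 c0B cB202E gB3q2 gB3q2 gB0q0 gB1q0 true true)) t 1 1 1 = true :=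
  ⟨(T.l 1), by decide +kernel⟩

def B202E_331 :
    ∃ t, chk3 (onCell 0 67108864 0 1073741824 587336777 62277027 (corT true 1 c0B cB202E gB3q2 gB3q2 gB1q0 gB2q0 true true)) t 1 1 1 = true :=
  ⟨(T.l 1), by decide +kernel⟩

def B202E_332 :
    ∃ t, chk3 (onCell 0 67108864 0 1073741824 587336777 62277027 (corT true 1 c0B cB202E gB3q2 gB3q2 gB2q0 gB3q0 true true)) t 1 1 1 = true :=
  ⟨(T.l 1), by decide +kernel⟩

def B202E_333 :
    ∃ t, chk3 (onCell 0 67108864 0 1073741824 587336777 62277027 (corT true 1 c0B cB202E gB3q2 gB3q2 gB3q0 gB4q0 true true)) t 1 1 1 = true :=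
  ⟨(T.l 1), by decide +kernel⟩

def B202E_334 :
    ∃ t, chk3 (onCell 0 67108864 0 1073741824 587336777 62277027 (corT true 1 c0B cB202E gB3q2 gB3q2 gB4q0 gB5q0 true false)) t 1 1 1 = true :=
  ⟨(T.l 1), by decide +kernel⟩

def B202E_340 :
    ∃ t, chk3 (onCell 0 67108864 0 1073741824 587336777 62277027 (corT true 1 c0B cB202E gB3q2 gB4q2 gB0q0 gB1q0 true true)) t 1 1 1 = true :=
  ⟨(T.l 1), by decide +kernel⟩

def B202E_341 :
    ∃ t, chk3 (onCell 0 67108864 0 1073741824 587336777 62277027 (corT true 1 c0B cB202E gB3q2 gB4q2 gB1q0 gB2q0 true true)) t 1 1 1 = true :=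
  ⟨(T.l 1), by decide +kernel⟩

def B202E_342 :
    ∃ t, chk3 (onCell 0 67108864 0 1073741824 587336777 62277027 (corT true 1 c0B cB202E gB3q2 gB4q2 gB2q0 gB3q0 true true)) t 1 1 1 = true :=
  ⟨(T.l 1), by decide +kernel⟩

def B202E_343 :
    ∃ t, chk3 (onCell 0 67108864 0 1073741824 587336777 62277027 (corT true 1 c0B cB202E gB3q2 gB4q2 gB3q0 gB4q0 true true)) t 1 1 1 = true :=
  ⟨(T.l 1), by decide +kernel⟩

def B202E_344 :
    ∃ t, chk3 (onCell 0 67108864 0 1073741824 587336777 62277027 (corT true 1 c0B cB202E gB3q2 gB4q2 gB4q0 gB5q0 true false)) t 1 1 1 = true :=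
  ⟨(T.l 1), by decide +kernel⟩

def B202E_400 :
    ∃ t, chk3 (onCell 0 67108864 0 1073741824 587336777 62277027 (corT true 1 c0B cB202E gB4q2 gB0q2 gB0q0 gB1q0 true true)) t 1 1 1 = true :=
  ⟨(T.l 1), by decide +kernel⟩

def B202E_401 :
    ∃ t, chk3 (onCell 0 67108864 0 1073741824 587336777 62277027 (corT true 1 c0B cB202E gB4q2 gB0q2 gB1q0 gB2q0 true true)) t 1 1 1 = true :=
  ⟨(T.l 1), by decide +kernel⟩

def B202E_402 :
    ∃ t, chk3 (onCell 0 67108864 0 1073741824 587336777 62277027 (corT true 1 c0B cB202E gB4q2 gB0q2 gB2q0 gB3q0 true true)) t 1 1 1 = true :=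
  ⟨(T.l 1), by decide +kernel⟩

def B202E_403 :
    ∃ t, chk3 (onCell 0 67108864 0 1073741824 587336777 62277027 (corT true 1 c0B cB202E gB4q2 gB0q2 gB3q0 gB4q0 true true)) t 1 1 1 = true :=
  ⟨(T.l 1), by decide +kernel⟩

def B202E_404 :
    ∃ t, chk3 (onCell 0 67108864 0 1073741824 587336777 62277027 (corT true 1 c0B cB202E gB4q2 gB0q2 gB4q0 gB5q0 true false)) t 1 1 1 = true :=
  ⟨(T.l 1), by decide +kernel⟩

def B202E_410 :
    ∃ t, chk3 (onCell 0 67108864 0 1073741824 587336777 62277027 (corT true 1 c0B cB202E gB4q2 gB1q2 gB0q0 gB1q0 true true)) t 1 1 1 = true :=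
  ⟨(T.l 1), by decide +kernel⟩

def B202E_411 :
    ∃ t, chk3 (onCell 0 67108864 0 1073741824 587336777 62277027 (corT true 1 c0B cB202E gB4q2 gB1q2 gB1q0 gB2q0 true true)) t 1 1 1 = true :=
  ⟨(T.l 1), by decide +kernel⟩

def B202E_412 :
    ∃ t, chk3 (onCell 0 67108864 0 1073741824 587336777 62277027 (corT true 1 c0B cB202E gB4q2 gB1q2 gB2q0 gB3q0 true true)) t 1 1 1 = true :=
  ⟨(T.l 1), by decide +kernel⟩

def B202E_413 :
    ∃ t, chk3 (onCell 0 67108864 0 1073741824 587336777 62277027 (corT true 1 c0B cB202E gB4q2 gB1q2 gB3q0 gB4q0 true true)) t 1 1 1 = true :=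
  ⟨(T.l 1), by decide +kernel⟩

def B202E_414 :
    ∃ t, chk3 (onCell 0 67108864 0 1073741824 587336777 62277027 (corT true 1 c0B cB202E gB4q2 gB1q2 gB4q0 gB5q0 true false)) t 1 1 1 = true :=
  ⟨(T.l 1), by decide +kernel⟩

def B202E_420 :
    ∃ t, chk3 (onCell 0 67108864 0 1073741824 587336777 62277027 (corT true 1 c0B cB202E gB4q2 gB2q2 gB0q0 gB1q0 true true)) t 1 1 1 = true :=
  ⟨(T.l 1), by decide +kernel⟩

def B202E_421 :
    ∃ t, chk3 (onCell 0 67108864 0 1073741824 587336777 62277027 (corT true 1 c0B cB202E gB4q2 gB2q2 gB1q0 gB2q0 true true)) t 1 1 1 = true :=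
  ⟨(T.l 1), by decide +kernel⟩

def B202E_422 :
    ∃ t, chk3 (onCell 0 67108864 0 1073741824 587336777 62277027 (corT true 1 c0B cB202E gB4q2 gB2q2 gB2q0 gB3q0 true true)) t 1 1 1 = true :=
  ⟨(T.l 1), by decide +kernel⟩

def B202E_423 :
    ∃ t, chk3 (onCell 0 67108864 0 1073741824 587336777 62277027 (corT true 1 c0B cB202E gB4q2 gB2q2 gB3q0 gB4q0 true true)) t 1 1 1 = true :=
  ⟨(T.l 1), by decide +kernel⟩

def B202E_424 :
    ∃ t, chk3 (onCell 0 67108864 0 1073741824 587336777 62277027 (corT true 1 c0B cB202E gB4q2 gB2q2 gB4q0 gB5q0 true false)) t 1 1 1 = true :=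
  ⟨(T.l 1), by decide +kernel⟩

def B202E_430 :
    ∃ t, chk3 (onCell 0 67108864 0 1073741824 587336777 62277027 (corT true 1 c0B cB202E gB4q2 gB3q2 gB0q0 gB1q0 true true)) t 1 1 1 = true :=
  ⟨(T.l 1), by decide +kernel⟩

def B202E_431 :
    ∃ t, chk3 (onCell 0 67108864 0 1073741824 587336777 62277027 (corT true 1 c0B cB202E gB4q2 gB3q2 gB1q0 gB2q0 true true)) t 1 1 1 = true :=
  ⟨(T.l 1), by decide +kernel⟩

def B202E_432 :
    ∃ t, chk3 (onCell 0 67108864 0 1073741824 587336777 62277027 (corT true 1 c0B cB202E gB4q2 gB3q2 gB2q0 gB3q0 true true)) t 1 1 1 = true :=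
  ⟨(T.l 1), by decide +kernel⟩

def B202E_433 :
    ∃ t, chk3 (onCell 0 67108864 0 1073741824 587336777 62277027 (corT true 1 c0B cB202E gB4q2 gB3q2 gB3q0 gB4q0 true true)) t 1 1 1 = true :=
  ⟨(T.l 1), by decide +kernel⟩

def B202E_434 :
    ∃ t, chk3 (onCell 0 67108864 0 1073741824 587336777 62277027 (corT true 1 c0B cB202E gB4q2 gB3q2 gB4q0 gB5q0 true false)) t 1 1 1 = true :=
  ⟨(T.l 1), by decide +kernel⟩

def B202E_440 :
    ∃ t, chk3 (onCell 0 67108864 0 1073741824 587336777 62277027 (corT true 1 c0B cB202E gB4q2 gB4q2 gB0q0 gB1q0 true true)) t 1 1 1 = true :=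
  ⟨(T.l 1), by decide +kernel⟩

def B202E_441 :
    ∃ t, chk3 (onCell 0 67108864 0 1073741824 587336777 62277027 (corT true 1 c0B cB202E gB4q2 gB4q2 gB1q0 gB2q0 true true)) t 1 1 1 = true :=
  ⟨(T.l 1), by decide +kernel⟩

def B202E_442 :
    ∃ t, chk3 (onCell 0 67108864 0 1073741824 587336777 62277027 (corT true 1 c0B cB202E gB4q2 gB4q2 gB2q0 gB3q0 true true)) t 1 1 1 = true :=
  ⟨(T.l 1), by decide +kernel⟩

def B202E_443 :
    ∃ t, chk3 (onCell 0 67108864 0 1073741824 587336777 62277027 (corT true 1 c0B cB202E gB4q2 gB4q2 gB3q0 gB4q0 true true)) t 1 1 1 = true :=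
  ⟨(T.l 1), by decide +kernel⟩

def B202E_444 :
    ∃ t, chk3 (onCell 0 67108864 0 1073741824 587336777 62277027 (corT true 1 c0B cB202E gB4q2 gB4q2 gB4q0 gB5q0 true false)) t 1 1 1 = true :=
  ⟨(T.l 1), by decide +kernel⟩

def B202L_700 :
    ∃ t, chk3 (onCell 0 67108864 0 1073741824 587336777 62277027 (corT true 1 c0B cB202L gB7q2 gB0q2 gB0q0 gB1q0 true true)) t 1 1 1 = true :=
  ⟨(T.l 2), by decide +kernel⟩

def B202L_701 :
    ∃ t, chk3 (onCell 0 67108864 0 1073741824 587336777 62277027 (corT true 1 c0B cB202L gB7q2 gB0q2 gB1q0 gB2q0 true true)) t 1 1 1 = true :=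
  ⟨(T.l 2), by decide +kernel⟩

def B202L_702 :
    ∃ t, chk3 (onCell 0 67108864 0 1073741824 587336777 62277027 (corT true 1 c0B cB202L gB7q2 gB0q2 gB2q0 gB3q0 true true)) t 1 1 1 = true :=
  ⟨(T.l 2), by decide +kernel⟩

def B202L_703 :
    ∃ t, chk3 (onCell 0 67108864 0 1073741824 587336777 62277027 (corT true 1 c0B cB202L gB7q2 gB0q2 gB3q0 gB4q0 true true)) t 1 1 1 = true :=
  ⟨(T.l 2), by decide +kernel⟩

def B202L_704 :
    ∃ t, chk3 (onCell 0 67108864 0 1073741824 587336777 62277027 (corT true 1 c0B cB202L gB7q2 gB0q2 gB4q0 gB5q0 true false)) t 1 1 1 = true :=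
  ⟨(T.a (T.a (T.l 204) (T.l 204)) (T.a (T.l 204) (T.l 204))), by decide +kernel⟩

def B202L_710 :
    ∃ t, chk3 (onCell 0 67108864 0 1073741824 587336777 62277027 (corT true 1 c0B cB202L gB7q2 gB1q2 gB0q0 gB1q0 true true)) t 1 1 1 = true :=
  ⟨(T.l 2), by decide +kernel⟩

def B202L_711 :
    ∃ t, chk3 (onCell 0 67108864 0 1073741824 587336777 62277027 (corT true 1 c0B cB202L gB7q2 gB1q2 gB1q0 gB2q0 true true)) t 1 1 1 = true :=
  ⟨(T.l 2), by decide +kernel⟩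

def B202L_712 :
    ∃ t, chk3 (onCell 0 67108864 0 1073741824 587336777 62277027 (corT true 1 c0B cB202L gB7q2 gB1q2 gB2q0 gB3q0 true true)) t 1 1 1 = true :=
  ⟨(T.l 2), by decide +kernel⟩

def B202L_713 :
    ∃ t, chk3 (onCell 0 67108864 0 1073741824 587336777 62277027 (corT true 1 c0B cB202L gB7q2 gB1q2 gB3q0 gB4q0 true true)) t 1 1 1 = true :=
  ⟨(T.l 2), by decide +kernel⟩

def B202L_714 :
    ∃ t, chk3 (onCell 0 67108864 0 1073741824 587336777 62277027 (corT true 1 c0B cB202L gB7q2 gB1q2 gB4q0 gB5q0 true false)) t 1 1 1 = true :=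
  ⟨(T.a (T.a (T.l 204) (T.l 204)) (T.b (T.l 204) (T.l 220))), by decide +kernel⟩

def B202L_720 :
    ∃ t, chk3 (onCell 0 67108864 0 1073741824 587336777 62277027 (corT true 1 c0B cB202L gB7q2 gB2q2 gB0q0 gB1q0 true true)) t 1 1 1 = true :=
  ⟨(T.l 2), by decide +kernel⟩

def B202L_721 :
    ∃ t, chk3 (onCell 0 67108864 0 1073741824 587336777 62277027 (corT true 1 c0B cB202L gB7q2 gB2q2 gB1q0 gB2q0 true true)) t 1 1 1 = true :=
  ⟨(T.l 2), by decide +kernel⟩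

def B202L_722 :
    ∃ t, chk3 (onCell 0 67108864 0 1073741824 587336777 62277027 (corT true 1 c0B cB202L gB7q2 gB2q2 gB2q0 gB3q0 true true)) t 1 1 1 = true :=
  ⟨(T.l 2), by decide +kernel⟩

def B202L_723 :
    ∃ t, chk3 (onCell 0 67108864 0 1073741824 587336777 62277027 (corT true 1 c0B cB202L gB7q2 gB2q2 gB3q0 gB4q0 true true)) t 1 1 1 = true :=
  ⟨(T.b (T.a (T.a (T.l 204) (T.l 204)) (T.l 2)) (T.l 2)), by decide +kernel⟩

def B202L_724 :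
    ∃ t, chk3 (onCell 0 67108864 0 1073741824 587336777 62277027 (corT true 1 c0B cB202L gB7q2 gB2q2 gB4q0 gB5q0 true false)) t 1 1 1 = true :=
  ⟨(T.a (T.a (T.l 204) (T.l 0)) (T.b (T.l 204) (T.l 204))), by decide +kernel⟩

def B202L_730 :
    ∃ t, chk3 (onCell 0 67108864 0 1073741824 587336777 62277027 (corT true 1 c0B cB202L gB7q2 gB3q2 gB0q0 gB1q0 true true)) t 1 1 1 = true :=
  ⟨(T.l 2), by decide +kernel⟩

def B202L_731 :
    ∃ t, chk3 (onCell 0 67108864 0 1073741824 587336777 62277027 (corT true 1 c0B cB202L gB7q2 gB3q2 gB1q0 gB2q0 true true)) t 1 1 1 = true :=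
  ⟨(T.l 2), by decide +kernel⟩

def B202L_732 :
    ∃ t, chk3 (onCell 0 67108864 0 1073741824 587336777 62277027 (corT true 1 c0B cB202L gB7q2 gB3q2 gB2q0 gB3q0 true true)) t 1 1 1 = true :=
  ⟨(T.l 2), by decide +kernel⟩

def B202L_733 :
    ∃ t, chk3 (onCell 0 67108864 0 1073741824 587336777 62277027 (corT true 1 c0B cB202L gB7q2 gB3q2 gB3q0 gB4q0 true true)) t 1 1 1 = true :=
  ⟨(T.b (T.a (T.a (T.l 204) (T.l 204)) (T.l 204)) (T.b (T.l 2) (T.l 2))), by decide +kernel⟩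

def B202L_734 :
    ∃ t, chk3 (onCell 0 67108864 0 1073741824 587336777 62277027 (corT true 1 c0B cB202L gB7q2 gB3q2 gB4q0 gB5q0 true false)) t 1 1 1 = true :=
  ⟨(T.a (T.a (T.l 0) (T.l 0)) (T.b (T.l 204) (T.l 0))), by decide +kernel⟩

def B202L_740 :
    ∃ t, chk3 (onCell 0 67108864 0 1073741824 587336777 62277027 (corT true 1 c0B cB202L gB7q2 gB4q2 gB0q0 gB1q0 true true)) t 1 1 1 = true :=
  ⟨(T.b (T.b (T.l 2) (T.a (T.a (T.l 204) (T.l 2)) (T.l 2))) (T.b (T.a (T.a (T.l 204) (T.l 0)) (T.l 0)) (T.l 1))), by decide +kernel⟩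

def B202L_741 :
    ∃ t, chk3 (onCell 0 67108864 0 1073741824 587336777 62277027 (corT true 1 c0B cB202L gB7q2 gB4q2 gB1q0 gB2q0 true true)) t 1 1 1 = true :=
  ⟨(T.b (T.a (T.a (T.l 204) (T.l 204)) (T.l 204)) (T.b (T.a (T.a (T.l 0) (T.l 0)) (T.l 0)) (T.l 1))), by decide +kernel⟩

def B202L_742 :
    ∃ t, chk3 (onCell 0 67108864 0 1073741824 587336777 62277027 (corT true 1 c0B cB202L gB7q2 gB4q2 gB2q0 gB3q0 true true)) t 1 1 1 = true :=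
  ⟨(T.b (T.a (T.l 1) (T.l 204)) (T.l 1)), by decide +kernel⟩

def B202L_743 :
    ∃ t, chk3 (onCell 0 67108864 0 1073741824 587336777 62277027 (corT true 1 c0B cB202L gB7q2 gB4q2 gB3q0 gB4q0 true true)) t 1 1 1 = true :=
  ⟨(T.l 1), by decide +kernel⟩

def B202L_744 :
    ∃ t, chk3 (onCell 0 67108864 0 1073741824 587336777 62277027 (corT true 1 c0B cB202L gB7q2 gB4q2 gB4q0 gB5q0 true false)) t 1 1 1 = true :=
  ⟨(T.l 1), by decide +kernel⟩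

def B202R_070 :
    ∃ t, chk3 (onCell 0 67108864 0 1073741824 587336777 62277027 (corX 1 c0B cB202R tB202R gB0q2 gB7q2 gB0q0 gB1q0 gB0q0 true true)) t 1 1 1 = true :=
  ⟨(T.b (T.b (T.l 1) (T.b (T.a (T.l 3) (T.l 3)) (T.a (T.l 3) (T.b (T.l 3) (T.l 2))))) (T.l 2)), by decide +kernel⟩

def B202R_071 :
    ∃ t, chk3 (onCell 0 67108864 0 1073741824 587336777 62277027 (corT true 1 c0B cB202R gB0q2 gB7q2 gB1q0 gB2q0 true true)) t 1 1 1 = true :=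
  ⟨(T.b (T.b (T.l 1) (T.b (T.b (T.l 1) (T.a (T.l 1) (T.b (T.l 1) (T.a (T.l 4) (T.l 0))))) (T.b (T.a (T.l 0) (T.l 0)) (T.b (T.l 0) (T.a (T.l 2) (T.l 2)))))) (T.b (T.l 2) (T.l 2))), by decide +kernel⟩

def B202R_072 :
    ∃ t, chk3 (onCell 0 67108864 0 1073741824 587336777 62277027 (corT true 1 c0B cB202R gB0q2 gB7q2 gB2q0 gB3q0 true true)) t 1 1 1 = true :=
  ⟨(T.b (T.b (T.l 1) (T.b (T.l 1) (T.b (T.l 1) (T.a (T.l 204) (T.a (T.l 204) (T.l 0)))))) (T.b (T.a (T.l 0) (T.b (T.a (T.l 204) (T.b (T.l 204) (T.l 2))) (T.l 2))) (T.l 2))), by decide +kernel⟩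

def B202R_073 :
    ∃ t, chk3 (onCell 0 67108864 0 1073741824 587336777 62277027 (corT true 1 c0B cB202R gB0q2 gB7q2 gB3q0 gB4q0 true true)) t 1 1 1 = true :=
  ⟨(T.b (T.b (T.l 1) (T.b (T.l 1) (T.l 1))) (T.b (T.b (T.a (T.l 204) (T.a (T.l 204) (T.b (T.l 204) (T.l 204)))) (T.a (T.l 204) (T.l 2))) (T.l 2))), by decide +kernel⟩

def B202R_074 :
    ∃ t, chk3 (onCell 0 67108864 0 1073741824 587336777 62277027 (corT true 1 c0B cB202R gB0q2 gB7q2 gB4q0 gB5q0 true false)) t 1 1 1 = true :=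
  ⟨(T.b (T.l 1) (T.b (T.a (T.l 0) (T.b (T.a (T.l 0) (T.l 0)) (T.a (T.l 0) (T.l 0)))) (T.b (T.a (T.l 204) (T.a (T.l 204) (T.l 204))) (T.a (T.a (T.l 204) (T.l 0)) (T.a (T.l 204) (T.l 204)))))), by decide +kernel⟩

def B202R_170 :
    ∃ t, chk3 (onCell 0 67108864 0 1073741824 587336777 62277027 (corT true 1 c0B cB202R gB1q2 gB7q2 gB0q0 gB1q0 true true)) t 1 1 1 = true :=
  ⟨(T.b (T.b (T.l 1) (T.b (T.b (T.l 1) (T.b (T.l 1) (T.b (T.b (T.l 1) (T.a (T.a (T.l 1) (T.b (T.l 1) (T.b (T.l 1) (T.l 204)))) (T.a (T.b (T.l 1) (T.l 204)) (T.l 204)))) (T.a (T.a (T.c (T.l 0) (T.l 0)) (T.l 0)) (T.l 0))))) (T.b (T.a (T.l 0) (T.l 0)) (T.l 2)))) (T.l 2)), by decide +kernel⟩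

def B202R_171 :
    ∃ t, chk3 (onCell 0 67108864 0 1073741824 587336777 62277027 (corT true 1 c0B cB202R gB1q2 gB7q2 gB1q0 gB2q0 true true)) t 1 1 1 = true :=
  ⟨(T.b (T.b (T.l 1) (T.b (T.l 1) (T.b (T.a (T.a (T.l 0) (T.l 0)) (T.l 0)) (T.b (T.l 0) (T.b (T.l 204) (T.a (T.l 204) (T.l 0))))))) (T.b (T.a (T.l 0) (T.b (T.l 2) (T.l 2))) (T.l 2))), by decide +kernel⟩

def B202R_172 :
    ∃ t, chk3 (onCell 0 67108864 0 1073741824 587336777 62277027 (corT true 1 c0B cB202R gB1q2 gB7q2 gB2q0 gB3q0 true true)) t 1 1 1 = true :=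
  ⟨(T.b (T.b (T.l 1) (T.b (T.l 1) (T.b (T.l 1) (T.a (T.l 0) (T.a (T.l 204) (T.l 0)))))) (T.b (T.a (T.l 0) (T.b (T.a (T.l 204) (T.b (T.l 0) (T.l 2))) (T.l 2))) (T.l 2))), by decide +kernel⟩

def B202R_173 :
    ∃ t, chk3 (onCell 0 67108864 0 1073741824 587336777 62277027 (corT true 1 c0B cB202R gB1q2 gB7q2 gB3q0 gB4q0 true true)) t 1 1 1 = true :=
  ⟨(T.b (T.l 1) (T.b (T.b (T.a (T.l 204) (T.a (T.l 204) (T.b (T.l 0) (T.l 204)))) (T.a (T.l 204) (T.a (T.l 0) (T.l 0)))) (T.l 2))), by decide +kernel⟩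

def B202R_174 :
    ∃ t, chk3 (onCell 0 67108864 0 1073741824 587336777 62277027 (corT true 1 c0B cB202R gB1q2 gB7q2 gB4q0 gB5q0 true false)) t 1 1 1 = true :=
  ⟨(T.b (T.l 1) (T.b (T.b (T.l 1) (T.a (T.l 204) (T.a (T.l 0) (T.l 0)))) (T.b (T.a (T.l 204) (T.a (T.l 204) (T.l 204))) (T.a (T.a (T.l 204) (T.b (T.l 204) (T.l 204))) (T.a (T.l 204) (T.l 204)))))), by decide +kernel⟩

def B202R_270 :
    ∃ t, chk3 (onCell 0 67108864 0 1073741824 587336777 62277027 (corT true 1 c0B cB202R gB2q2 gB7q2 gB0q0 gB1q0 true true)) t 1 1 1 = true :=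
  ⟨(T.b (T.b (T.l 1) (T.b (T.l 1) (T.b (T.b (T.l 1) (T.b (T.l 1) (T.a (T.a (T.l 1) (T.l 0)) (T.l 0)))) (T.b (T.a (T.l 0) (T.l 0)) (T.b (T.l 0) (T.a (T.l 0) (T.a (T.l 204) (T.l 2)))))))) (T.b (T.b (T.a (T.l 0) (T.l 2)) (T.l 2)) (T.l 2))), by decide +kernel⟩

def B202R_271 :
    ∃ t, chk3 (onCell 0 67108864 0 1073741824 587336777 62277027 (corT true 1 c0B cB202R gB2q2 gB7q2 gB1q0 gB2q0 true true)) t 1 1 1 = true :=
  ⟨(T.b (T.b (T.l 1) (T.b (T.l 1) (T.b (T.l 1) (T.a (T.l 0) (T.a (T.l 0) (T.b (T.l 1) (T.l 0))))))) (T.b (T.a (T.l 0) (T.b (T.a (T.l 0) (T.b (T.l 0) (T.l 0))) (T.l 2))) (T.l 2))), by decide +kernel⟩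

def B202R_272 :
    ∃ t, chk3 (onCell 0 67108864 0 1073741824 587336777 62277027 (corT true 1 c0B cB202R gB2q2 gB7q2 gB2q0 gB3q0 true true)) t 1 1 1 = true :=
  ⟨(T.b (T.l 1) (T.b (T.b (T.a (T.l 0) (T.a (T.l 0) (T.b (T.l 0) (T.l 0)))) (T.a (T.l 204) (T.a (T.l 0) (T.l 2)))) (T.l 2))), by decide +kernel⟩

def B202R_273 :
    ∃ t, chk3 (onCell 0 67108864 0 1073741824 587336777 62277027 (corT true 1 c0B cB202R gB2q2 gB7q2 gB3q0 gB4q0 true true)) t 1 1 1 = true :=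
  ⟨(T.b (T.l 1) (T.b (T.a (T.l 0) (T.b (T.a (T.l 0) (T.b (T.l 1) (T.l 0))) (T.a (T.l 0) (T.l 0)))) (T.b (T.l 2) (T.l 2)))), by decide +kernel⟩

def B202R_274 :
    ∃ t, chk3 (onCell 0 67108864 0 1073741824 587336777 62277027 (corT true 1 c0B cB202R gB2q2 gB7q2 gB4q0 gB5q0 true false)) t 1 1 1 = true :=
  ⟨(T.b (T.l 1) (T.b (T.b (T.l 1) (T.a (T.l 0) (T.a (T.l 0) (T.l 0)))) (T.b (T.a (T.l 204) (T.b (T.l 0) (T.l 0))) (T.a (T.a (T.l 204) (T.b (T.l 204) (T.l 204))) (T.a (T.l 204) (T.l 204)))))), by decide +kernel⟩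

def B202R_370 :
    ∃ t, chk3 (onCell 0 67108864 0 1073741824 587336777 62277027 (corT true 1 c0B cB202R gB3q2 gB7q2 gB0q0 gB1q0 true true)) t 1 1 1 = true :=
  ⟨(T.b (T.l 1) (T.b (T.b (T.b (T.b (T.l 1) (T.a (T.l 816) (T.a (T.l 816) (T.l 0)))) (T.a (T.l 0) (T.a (T.l 0) (T.l 0)))) (T.a (T.l 0) (T.l 2))) (T.l 2))), by decide +kernel⟩

def B202R_371 :
    ∃ t, chk3 (onCell 0 67108864 0 1073741824 587336777 62277027 (corT true 1 c0B cB202R gB3q2 gB7q2 gB1q0 gB2q0 true true)) t 1 1 1 = true :=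
  ⟨(T.b (T.l 1) (T.b (T.b (T.b (T.l 1) (T.a (T.l 0) (T.a (T.l 0) (T.l 0)))) (T.a (T.l 0) (T.a (T.b (T.l 0) (T.l 2)) (T.l 0)))) (T.l 2))), by decide +kernel⟩

def B202R_372 :
    ∃ t, chk3 (onCell 0 67108864 0 1073741824 587336777 62277027 (corT true 1 c0B cB202R gB3q2 gB7q2 gB2q0 gB3q0 true true)) t 1 1 1 = true :=
  ⟨(T.b (T.l 1) (T.b (T.b (T.l 1) (T.a (T.l 0) (T.a (T.b (T.l 0) (T.l 0)) (T.l 0)))) (T.b (T.a (T.l 0) (T.l 2)) (T.l 2)))), by decide +kernel⟩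

def B202R_373 :
    ∃ t, chk3 (onCell 0 67108864 0 1073741824 587336777 62277027 (corT true 1 c0B cB202R gB3q2 gB7q2 gB3q0 gB4q0 true true)) t 1 1 1 = true :=
  ⟨(T.b (T.l 1) (T.b (T.b (T.l 1) (T.a (T.l 0) (T.a (T.b (T.l 1) (T.l 0)) (T.l 0)))) (T.b (T.a (T.l 0) (T.a (T.l 0) (T.l 0))) (T.l 2)))), by decide +kernel⟩

def B202R_374 :
    ∃ t, chk3 (onCell 0 67108864 0 1073741824 587336777 62277027 (corT true 1 c0B cB202R gB3q2 gB7q2 gB4q0 gB5q0 true false)) t 1 1 1 = true :=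
  ⟨(T.b (T.l 1) (T.b (T.l 1) (T.b (T.a (T.l 0) (T.a (T.l 0) (T.l 0))) (T.a (T.a (T.l 204) (T.b (T.l 204) (T.l 0))) (T.b (T.l 0) (T.l 16)))))), by decide +kernel⟩

def B202R_470 :
    ∃ t, chk3 (onCell 0 67108864 0 1073741824 587336777 62277027 (corT true 1 c0B cB202R gB4q2 gB7q2 gB0q0 gB1q0 true true)) t 1 1 1 = true :=
  ⟨(T.l 1), by decide +kernel⟩

def B202R_471 :
    ∃ t, chk3 (onCell 0 67108864 0 1073741824 587336777 62277027 (corT true 1 c0B cB202R gB4q2 gB7q2 gB1q0 gB2q0 true true)) t 1 1 1 = true :=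
  ⟨(T.l 1), by decide +kernel⟩

def B202R_472 :
    ∃ t, chk3 (onCell 0 67108864 0 1073741824 587336777 62277027 (corT true 1 c0B cB202R gB4q2 gB7q2 gB2q0 gB3q0 true true)) t 1 1 1 = true :=
  ⟨(T.l 1), by decide +kernel⟩

def B202R_473 :
    ∃ t, chk3 (onCell 0 67108864 0 1073741824 587336777 62277027 (corT true 1 c0B cB202R gB4q2 gB7q2 gB3q0 gB4q0 true true)) t 1 1 1 = true :=
  ⟨(T.l 1), by decide +kernel⟩

def B202R_474 :
    ∃ t, chk3 (onCell 0 67108864 0 1073741824 587336777 62277027 (corT true 1 c0B cB202R gB4q2 gB7q2 gB4q0 gB5q0 true false)) t 1 1 1 = true :=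
  ⟨(T.l 1), by decide +kernel⟩

end Pool.Agent.Strip051.G.I5470_6050.Tab.CG
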