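import Pool.Agent.Strip051.G.I5470_6050.Gn
import Pool.Agent.Strip051.PB.Corns
import Pool.Agent.Strip051.PB.CornW

/-! # Certificates of the aligned corners (generated) -/

set_option linter.all false

namespace Pool.Agent.Strip051.G.I5470_6050.Tab.CW

open Pool.Agent.Strip051.PB

def B022E_004 :
    ∃ t, chk3 (onCell 0 67108864 0 1073741824 587336777 62277027 (corW 3 c0B eng mog cB022E gB0q0 gB0q2 gB4q2 gB5q2 dB0q0 dB0q2 dB4q2 dB5q2 true false)) t 1 1 1 = true :=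
  ⟨(T.b (T.a (T.a (T.b (T.b (T.c (T.b (T.l 204) (T.l 204)) (T.l 204)) (T.l 204)) (T.l 204)) (T.a (T.b (T.l 204) (T.l 204)) (T.b (T.a (T.l 204) (T.b (T.l 204) (T.l 204))) (T.l 204)))) (T.a (T.b (T.a (T.b (T.b (T.l 204) (T.l 204)) (T.l 204)) (T.b (T.l 204) (T.l 204))) (T.a (T.l 204) (T.b (T.l 204) (T.l 204)))) (T.b (T.a (T.b (T.l 204) (T.l 204)) (T.b (T.l 204) (T.l 204))) (T.a (T.b (T.l 204) (T.l 204)) (T.b (T.l 204) (T.l 204)))))) (T.a (T.a (T.b (T.l 0) (T.b (T.l 0) (T.c (T.a (T.b (T.l 816) (T.l 816)) (T.l 816)) (T.l 816)))) (T.a (T.b (T.l 0) (T.c (T.l 816) (T.l 816))) (T.b (T.l 0) (T.a (T.l 816) (T.l 816))))) (T.b (T.a (T.b (T.l 0) (T.l 0)) (T.b (T.l 256) (T.l 0))) (T.a (T.a (T.b (T.l 0) (T.l 816)) (T.l 0)) (T.c (T.l 4) (T.l 0)))))), by decide +kernel⟩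

def B022E_010 :
    ∃ t, chk3 (onCell 0 67108864 0 1073741824 587336777 62277027 (corW 3 c0B eng mog cB022E gB0q0 gB1q2 gB0q2 gB1q2 dB0q0 dB1q2 dB0q2 dB1q2 true true)) t 1 1 1 = true :=
  ⟨(T.l 2), by decide +kernel⟩

def B022E_011 :
    ∃ t, chk3 (onCell 0 67108864 0 1073741824 587336777 62277027 (corW 3 c0B eng mog cB022E gB0q0 gB1q2 gB1q2 gB2q2 dB0q0 dB1q2 dB1q2 dB2q2 true true)) t 1 1 1 = true :=
  ⟨(T.l 2), by decide +kernel⟩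

def B022E_012 :
    ∃ t, chk3 (onCell 0 67108864 0 1073741824 587336777 62277027 (corW 3 c0B eng mog cB022E gB0q0 gB1q2 gB2q2 gB3q2 dB0q0 dB1q2 dB2q2 dB3q2 true true)) t 1 1 1 = true :=
  ⟨(T.l 2), by decide +kernel⟩

def B022E_013 :
    ∃ t, chk3 (onCell 0 67108864 0 1073741824 587336777 62277027 (corW 3 c0B eng mog cB022E gB0q0 gB1q2 gB3q2 gB4q2 dB0q0 dB1q2 dB3q2 dB4q2 true true)) t 1 1 1 = true :=
  ⟨(T.l 2), by decide +kernel⟩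

def B022E_014 :
    ∃ t, chk3 (onCell 0 67108864 0 1073741824 587336777 62277027 (corW 3 c0B eng mog cB022E gB0q0 gB1q2 gB4q2 gB5q2 dB0q0 dB1q2 dB4q2 dB5q2 true false)) t 1 1 1 = true :=
  ⟨(T.b (T.a (T.a (T.b (T.b (T.c (T.l 204) (T.l 204)) (T.l 204)) (T.l 204)) (T.a (T.b (T.l 204) (T.l 204)) (T.b (T.a (T.l 204) (T.b (T.l 204) (T.l 204))) (T.l 204)))) (T.a (T.b (T.a (T.b (T.b (T.l 220) (T.l 204)) (T.l 204)) (T.b (T.l 204) (T.l 204))) (T.a (T.l 204) (T.b (T.l 204) (T.l 204)))) (T.b (T.a (T.b (T.l 204) (T.l 204)) (T.b (T.l 204) (T.l 204))) (T.a (T.b (T.l 204) (T.l 204)) (T.b (T.l 204) (T.l 204)))))) (T.a (T.a (T.b (T.l 0) (T.b (T.l 0) (T.l 816))) (T.a (T.b (T.l 0) (T.l 0)) (T.b (T.l 0) (T.c (T.l 0) (T.l 0))))) (T.b (T.a (T.l 0) (T.b (T.l 0) (T.l 0))) (T.a (T.a (T.b (T.l 0) (T.l 816)) (T.l 0)) (T.b (T.l 0) (T.l 0)))))), by decide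 +kernel⟩

def B022E_020 :
    ∃ t, chk3 (onCell 0 67108864 0 1073741824 587336777 62277027 (corW 3 c0B eng mog cB022E gB0q0 gB2q2 gB0q2 gB1q2 dB0q0 dB2q2 dB0q2 dB1q2 true true)) t 1 1 1 = true :=
  ⟨(T.l 2), by decide +kernel⟩

def B022E_021 :
    ∃ t, chk3 (onCell 0 67108864 0 1073741824 587336777 62277027 (corW 3 c0B eng mog cB022E gB0q0 gB2q2 gB1q2 gB2q2 dB0q0 dB2q2 dB1q2 dB2q2 true true)) t 1 1 1 = true :=
  ⟨(T.l 2), by decide +kernel⟩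

def B022E_022 :
    ∃ t, chk3 (onCell 0 67108864 0 1073741824 587336777 62277027 (corW 3 c0B eng mog cB022E gB0q0 gB2q2 gB2q2 gB3q2 dB0q0 dB2q2 dB2q2 dB3q2 true true)) t 1 1 1 = true :=
  ⟨(T.l 2), by decide +kernel⟩

def B022E_023 :
    ∃ t, chk3 (onCell 0 67108864 0 1073741824 587336777 62277027 (corW 3 c0B eng mog cB022E gB0q0 gB2q2 gB3q2 gB4q2 dB0q0 dB2q2 dB3q2 dB4q2 true true)) t 1 1 1 = true :=
  ⟨(T.l 2), by decide +kernel⟩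

def B022E_024 :
    ∃ t, chk3 (onCell 0 67108864 0 1073741824 587336777 62277027 (corW 3 c0B eng mog cB022E gB0q0 gB2q2 gB4q2 gB5q2 dB0q0 dB2q2 dB4q2 dB5q2 true false)) t 1 1 1 = true :=
  ⟨(T.b (T.a (T.a (T.b (T.c (T.l 204) (T.l 204)) (T.l 204)) (T.a (T.b (T.l 204) (T.l 204)) (T.b (T.a (T.l 204) (T.b (T.l 204) (T.l 204))) (T.l 204)))) (T.a (T.b (T.a (T.b (T.a (T.l 204) (T.l 204)) (T.b (T.l 204) (T.l 204))) (T.b (T.b (T.l 204) (T.l 204)) (T.l 204))) (T.a (T.l 204) (T.b (T.l 204) (T.l 204)))) (T.b (T.a (T.b (T.l 204) (T.l 204)) (T.b (T.l 204) (T.l 204))) (T.b (T.b (T.l 204) (T.l 204)) (T.b (T.l 204) (T.l 204)))))) (T.a (T.a (T.b (T.l 0) (T.l 0)) (T.a (T.l 0) (T.b (T.l 0) (T.l 0)))) (T.b (T.a (T.l 0) (T.b (T.l 0) (T.l 0))) (T.a (T.c (T.l 0) (T.l 0)) (T.l 0))))), by decide +kernel⟩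

def B022E_030 :
    ∃ t, chk3 (onCell 0 67108864 0 1073741824 587336777 62277027 (corW 3 c0B eng mog cB022E gB0q0 gB3q2 gB0q2 gB1q2 dB0q0 dB3q2 dB0q2 dB1q2 true true)) t 1 1 1 = true :=
  ⟨(T.l 2), by decide +kernel⟩

def B022E_031 :
    ∃ t, chk3 (onCell 0 67108864 0 1073741824 587336777 62277027 (corW 3 c0B eng mog cB022E gB0q0 gB3q2 gB1q2 gB2q2 dB0q0 dB3q2 dB1q2 dB2q2 true true)) t 1 1 1 = true :=
  ⟨(T.l 2), by decide +kernel⟩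

def B022E_032 :
    ∃ t, chk3 (onCell 0 67108864 0 1073741824 587336777 62277027 (corW 3 c0B eng mog cB022E gB0q0 gB3q2 gB2q2 gB3q2 dB0q0 dB3q2 dB2q2 dB3q2 true true)) t 1 1 1 = true :=
  ⟨(T.l 2), by decide +kernel⟩

def B022E_033 :
    ∃ t, chk3 (onCell 0 67108864 0 1073741824 587336777 62277027 (corW 3 c0B eng mog cB022E gB0q0 gB3q2 gB3q2 gB4q2 dB0q0 dB3q2 dB3q2 dB4q2 true true)) t 1 1 1 = true :=
  ⟨(T.l 2), by decide +kernel⟩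

def B022E_034 :
    ∃ t, chk3 (onCell 0 67108864 0 1073741824 587336777 62277027 (corW 3 c0B eng mog cB022E gB0q0 gB3q2 gB4q2 gB5q2 dB0q0 dB3q2 dB4q2 dB5q2 true false)) t 1 1 1 = true :=
  ⟨(T.b (T.a (T.a (T.b (T.c (T.l 204) (T.l 204)) (T.l 204)) (T.a (T.b (T.l 204) (T.l 204)) (T.b (T.a (T.l 204) (T.b (T.l 204) (T.l 204))) (T.l 204)))) (T.b (T.a (T.a (T.b (T.a (T.l 204) (T.l 204)) (T.b (T.l 204) (T.l 204))) (T.b (T.b (T.l 204) (T.l 204)) (T.l 204))) (T.a (T.b (T.b (T.l 204) (T.l 204)) (T.l 204)) (T.b (T.b (T.l 204) (T.l 204)) (T.l 204)))) (T.a (T.a (T.l 204) (T.b (T.l 204) (T.l 204))) (T.b (T.b (T.l 204) (T.l 204)) (T.b (T.l 204) (T.l 204)))))) (T.b (T.a (T.a (T.l 0) (T.a (T.l 0) (T.l 0))) (T.a (T.l 0) (T.b (T.l 0) (T.l 0)))) (T.a (T.a (T.l 0) (T.a (T.l 0) (T.l 0))) (T.a (T.b (T.l 0) (T.l 0)) (T.l 0))))), by decide +kernel⟩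

def B022E_040 :
    ∃ t, chk3 (onCell 0 67108864 0 1073741824 587336777 62277027 (corW 3 c0B eng mog cB022E gB0q0 gB4q2 gB0q2 gB1q2 dB0q0 dB4q2 dB0q2 dB1q2 true true)) t 1 1 1 = true :=
  ⟨(T.l 2), by decide +kernel⟩

def B022E_041 :
    ∃ t, chk3 (onCell 0 67108864 0 1073741824 587336777 62277027 (corW 3 c0B eng mog cB022E gB0q0 gB4q2 gB1q2 gB2q2 dB0q0 dB4q2 dB1q2 dB2q2 true true)) t 1 1 1 = true :=
  ⟨(T.l 2), by decide +kernel⟩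

def B022E_042 :
    ∃ t, chk3 (onCell 0 67108864 0 1073741824 587336777 62277027 (corW 3 c0B eng mog cB022E gB0q0 gB4q2 gB2q2 gB3q2 dB0q0 dB4q2 dB2q2 dB3q2 true true)) t 1 1 1 = true :=
  ⟨(T.l 2), by decide +kernel⟩

def B022E_043 :
    ∃ t, chk3 (onCell 0 67108864 0 1073741824 587336777 62277027 (corW 3 c0B eng mog cB022E gB0q0 gB4q2 gB3q2 gB4q2 dB0q0 dB4q2 dB3q2 dB4q2 true true)) t 1 1 1 = true :=
  ⟨(T.l 2), by decide +kernel⟩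

def B022E_044 :
    ∃ t, chk3 (onCell 0 67108864 0 1073741824 587336777 62277027 (corW 3 c0B eng mog cB022E gB0q0 gB4q2 gB4q2 gB5q2 dB0q0 dB4q2 dB4q2 dB5q2 true false)) t 1 1 1 = true :=
  ⟨(T.b (T.b (T.a (T.a (T.l 204) (T.a (T.l 204) (T.a (T.l 204) (T.b (T.l 204) (T.l 204))))) (T.a (T.a (T.b (T.a (T.l 204) (T.l 204)) (T.l 204)) (T.b (T.b (T.l 204) (T.l 204)) (T.l 204))) (T.b (T.a (T.l 204) (T.l 204)) (T.b (T.l 204) (T.l 204))))) (T.a (T.a (T.l 204) (T.a (T.l 204) (T.l 204))) (T.a (T.a (T.l 204) (T.b (T.l 204) (T.l 204))) (T.b (T.b (T.l 204) (T.l 204)) (T.l 204))))) (T.b (T.b (T.a (T.a (T.l 204) (T.l 256)) (T.a (T.l 0) (T.l 0))) (T.a (T.a (T.l 0) (T.l 0)) (T.b (T.l 256) (T.l 0)))) (T.a (T.a (T.b (T.l 816) (T.l 816)) (T.a (T.l 816) (T.b (T.l 0) (T.l 816)))) (T.a (T.a (T.b (T.l 0) (T.l 816)) (T.l 0)) (T.b (T.l 0) (T.l 816)))))),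 by decide +kernel⟩

def B022E_100 :
    ∃ t, chk3 (onCell 0 67108864 0 1073741824 587336777 62277027 (corW 3 c0B eng mog cB022E gB1q0 gB0q2 gB0q2 gB1q2 dB1q0 dB0q2 dB0q2 dB1q2 true true)) t 1 1 1 = true :=
  ⟨(T.l 2), by decide +kernel⟩

def B022E_101 :
    ∃ t, chk3 (onCell 0 67108864 0 1073741824 587336777 62277027 (corW 3 c0B eng mog cB022E gB1q0 gB0q2 gB1q2 gB2q2 dB1q0 dB0q2 dB1q2 dB2q2 true true)) t 1 1 1 = true :=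
  ⟨(T.l 2), by decide +kernel⟩

def B022E_102 :
    ∃ t, chk3 (onCell 0 67108864 0 1073741824 587336777 62277027 (corW 3 c0B eng mog cB022E gB1q0 gB0q2 gB2q2 gB3q2 dB1q0 dB0q2 dB2q2 dB3q2 true true)) t 1 1 1 = true :=
  ⟨(T.l 2), by decide +kernel⟩

def B022E_103 :
    ∃ t, chk3 (onCell 0 67108864 0 1073741824 587336777 62277027 (corW 3 c0B eng mog cB022E gB1q0 gB0q2 gB3q2 gB4q2 dB1q0 dB0q2 dB3q2 dB4q2 true true)) t 1 1 1 = true :=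
  ⟨(T.l 2), by decide +kernel⟩

def B022E_104 :
    ∃ t, chk3 (onCell 0 67108864 0 1073741824 587336777 62277027 (corW 3 c0B eng mog cB022E gB1q0 gB0q2 gB4q2 gB5q2 dB1q0 dB0q2 dB4q2 dB5q2 true false)) t 1 1 1 = true :=
  ⟨(T.b (T.a (T.a (T.b (T.b (T.c (T.b (T.l 204) (T.l 204)) (T.l 204)) (T.l 204)) (T.l 204)) (T.a (T.b (T.l 204) (T.l 204)) (T.b (T.a (T.l 204) (T.b (T.l 204) (T.l 204))) (T.l 0)))) (T.a (T.b (T.a (T.b (T.b (T.l 204) (T.l 204)) (T.l 204)) (T.b (T.l 204) (T.l 204))) (T.a (T.l 204) (T.l 0))) (T.b (T.a (T.b (T.l 204) (T.l 204)) (T.b (T.l 204) (T.l 204))) (T.b (T.l 256) (T.l 0))))) (T.a (T.a (T.l 0) (T.a (T.l 0) (T.l 0))) (T.b (T.a (T.l 0) (T.b (T.l 0) (T.l 0))) (T.a (T.b (T.l 0) (T.l 0)) (T.l 0))))), by decide +kernel⟩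

def B022E_110 :
    ∃ t, chk3 (onCell 0 67108864 0 1073741824 587336777 62277027 (corW 3 c0B eng mog cB022E gB1q0 gB1q2 gB0q2 gB1q2 dB1q0 dB1q2 dB0q2 dB1q2 true true)) t 1 1 1 = true :=
  ⟨(T.l 2), by decide +kernel⟩

def B022E_111 :
    ∃ t, chk3 (onCell 0 67108864 0 1073741824 587336777 62277027 (corW 3 c0B eng mog cB022E gB1q0 gB1q2 gB1q2 gB2q2 dB1q0 dB1q2 dB1q2 dB2q2 true true)) t 1 1 1 = true :=
  ⟨(T.l 2), by decide +kernel⟩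

def B022E_112 :
    ∃ t, chk3 (onCell 0 67108864 0 1073741824 587336777 62277027 (corW 3 c0B eng mog cB022E gB1q0 gB1q2 gB2q2 gB3q2 dB1q0 dB1q2 dB2q2 dB3q2 true true)) t 1 1 1 = true :=
  ⟨(T.l 2), by decide +kernel⟩

def B022E_113 :
    ∃ t, chk3 (onCell 0 67108864 0 1073741824 587336777 62277027 (corW 3 c0B eng mog cB022E gB1q0 gB1q2 gB3q2 gB4q2 dB1q0 dB1q2 dB3q2 dB4q2 true true)) t 1 1 1 = true :=
  ⟨(T.l 2), by decide +kernel⟩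

def B022E_114 :
    ∃ t, chk3 (onCell 0 67108864 0 1073741824 587336777 62277027 (corW 3 c0B eng mog cB022E gB1q0 gB1q2 gB4q2 gB5q2 dB1q0 dB1q2 dB4q2 dB5q2 true false)) t 1 1 1 = true :=
  ⟨(T.b (T.a (T.a (T.b (T.c (T.b (T.l 204) (T.l 204)) (T.l 204)) (T.l 204)) (T.a (T.b (T.l 204) (T.l 204)) (T.b (T.a (T.l 204) (T.b (T.l 204) (T.l 204))) (T.l 204)))) (T.a (T.b (T.a (T.b (T.b (T.l 204) (T.l 204)) (T.l 204)) (T.b (T.l 204) (T.l 204))) (T.a (T.l 204) (T.l 16))) (T.b (T.a (T.b (T.l 204) (T.l 204)) (T.b (T.l 204) (T.l 204))) (T.b (T.l 204) (T.l 0))))) (T.a (T.a (T.l 0) (T.a (T.l 0) (T.l 0))) (T.b (T.a (T.l 0) (T.b (T.l 0) (T.l 0))) (T.a (T.l 0) (T.l 0))))), by decide +kernel⟩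

def B022E_120 :
    ∃ t, chk3 (onCell 0 67108864 0 1073741824 587336777 62277027 (corW 3 c0B eng mog cB022E gB1q0 gB2q2 gB0q2 gB1q2 dB1q0 dB2q2 dB0q2 dB1q2 true true)) t 1 1 1 = true :=
  ⟨(T.l 2), by decide +kernel⟩

def B022E_121 :
    ∃ t, chk3 (onCell 0 67108864 0 1073741824 587336777 62277027 (corW 3 c0B eng mog cB022E gB1q0 gB2q2 gB1q2 gB2q2 dB1q0 dB2q2 dB1q2 dB2q2 true true)) t 1 1 1 = true :=
  ⟨(T.l 2), by decide +kernel⟩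

def B022E_122 :
    ∃ t, chk3 (onCell 0 67108864 0 1073741824 587336777 62277027 (corW 3 c0B eng mog cB022E gB1q0 gB2q2 gB2q2 gB3q2 dB1q0 dB2q2 dB2q2 dB3q2 true true)) t 1 1 1 = true :=
  ⟨(T.l 2), by decide +kernel⟩

def B022E_123 :
    ∃ t, chk3 (onCell 0 67108864 0 1073741824 587336777 62277027 (corW 3 c0B eng mog cB022E gB1q0 gB2q2 gB3q2 gB4q2 dB1q0 dB2q2 dB3q2 dB4q2 true true)) t 1 1 1 = true :=
  ⟨(T.l 2), by decide +kernel⟩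

def B022E_124 :
    ∃ t, chk3 (onCell 0 67108864 0 1073741824 587336777 62277027 (corW 3 c0B eng mog cB022E gB1q0 gB2q2 gB4q2 gB5q2 dB1q0 dB2q2 dB4q2 dB5q2 true false)) t 1 1 1 = true :=
  ⟨(T.b (T.a (T.a (T.b (T.c (T.l 204) (T.l 204)) (T.l 204)) (T.a (T.b (T.l 204) (T.l 204)) (T.b (T.a (T.l 204) (T.b (T.l 204) (T.l 204))) (T.l 204)))) (T.a (T.b (T.a (T.b (T.a (T.l 204) (T.l 204)) (T.l 204)) (T.b (T.b (T.l 204) (T.l 204)) (T.l 204))) (T.a (T.l 204) (T.b (T.l 204) (T.l 204)))) (T.b (T.a (T.b (T.l 204) (T.l 204)) (T.b (T.l 204) (T.l 204))) (T.b (T.l 220) (T.l 0))))) (T.a (T.a (T.l 0) (T.a (T.l 0) (T.l 0))) (T.b (T.a (T.l 0) (T.b (T.l 0) (T.l 0))) (T.a (T.l 0) (T.l 0))))), by decide +kernel⟩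

def B022E_130 :
    ∃ t, chk3 (onCell 0 67108864 0 1073741824 587336777 62277027 (corW 3 c0B eng mog cB022E gB1q0 gB3q2 gB0q2 gB1q2 dB1q0 dB3q2 dB0q2 dB1q2 true true)) t 1 1 1 = true :=
  ⟨(T.l 2), by decide +kernel⟩

def B022E_131 :
    ∃ t, chk3 (onCell 0 67108864 0 1073741824 587336777 62277027 (corW 3 c0B eng mog cB022E gB1q0 gB3q2 gB1q2 gB2q2 dB1q0 dB3q2 dB1q2 dB2q2 true true)) t 1 1 1 = true :=
  ⟨(T.l 2), by decide +kernel⟩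

def B022E_132 :
    ∃ t, chk3 (onCell 0 67108864 0 1073741824 587336777 62277027 (corW 3 c0B eng mog cB022E gB1q0 gB3q2 gB2q2 gB3q2 dB1q0 dB3q2 dB2q2 dB3q2 true true)) t 1 1 1 = true :=
  ⟨(T.l 2), by decide +kernel⟩

def B022E_133 :
    ∃ t, chk3 (onCell 0 67108864 0 1073741824 587336777 62277027 (corW 3 c0B eng mog cB022E gB1q0 gB3q2 gB3q2 gB4q2 dB1q0 dB3q2 dB3q2 dB4q2 true true)) t 1 1 1 = true :=
  ⟨(T.l 2), by decide +kernel⟩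

def B022E_134 :
    ∃ t, chk3 (onCell 0 67108864 0 1073741824 587336777 62277027 (corW 3 c0B eng mog cB022E gB1q0 gB3q2 gB4q2 gB5q2 dB1q0 dB3q2 dB4q2 dB5q2 true false)) t 1 1 1 = true :=
  ⟨(T.b (T.a (T.a (T.b (T.c (T.l 204) (T.l 204)) (T.l 204)) (T.a (T.b (T.l 204) (T.l 204)) (T.b (T.a (T.l 204) (T.b (T.l 204) (T.l 204))) (T.l 204)))) (T.b (T.a (T.a (T.b (T.a (T.l 204) (T.l 204)) (T.l 204)) (T.b (T.b (T.l 204) (T.l 204)) (T.l 204))) (T.b (T.a (T.b (T.l 204) (T.l 204)) (T.b (T.l 204) (T.l 204))) (T.b (T.l 476) (T.l 204)))) (T.a (T.a (T.l 204) (T.b (T.l 204) (T.l 204))) (T.b (T.l 204) (T.l 204))))) (T.a (T.a (T.l 0) (T.a (T.l 0) (T.l 0))) (T.b (T.a (T.l 0) (T.b (T.l 0) (T.l 0))) (T.a (T.l 0) (T.l 0))))), by decide +kernel⟩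

def B022E_140 :
    ∃ t, chk3 (onCell 0 67108864 0 1073741824 587336777 62277027 (corW 3 c0B eng mog cB022E gB1q0 gB4q2 gB0q2 gB1q2 dB1q0 dB4q2 dB0q2 dB1q2 true true)) t 1 1 1 = true :=
  ⟨(T.l 2), by decide +kernel⟩

def B022E_141 :
    ∃ t, chk3 (onCell 0 67108864 0 1073741824 587336777 62277027 (corW 3 c0B eng mog cB022E gB1q0 gB4q2 gB1q2 gB2q2 dB1q0 dB4q2 dB1q2 dB2q2 true true)) t 1 1 1 = true :=
  ⟨(T.l 2), by decide +kernel⟩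

def B022E_142 :
    ∃ t, chk3 (onCell 0 67108864 0 1073741824 587336777 62277027 (corW 3 c0B eng mog cB022E gB1q0 gB4q2 gB2q2 gB3q2 dB1q0 dB4q2 dB2q2 dB3q2 true true)) t 1 1 1 = true :=
  ⟨(T.l 2), by decide +kernel⟩

def B022E_143 :
    ∃ t, chk3 (onCell 0 67108864 0 1073741824 587336777 62277027 (corW 3 c0B eng mog cB022E gB1q0 gB4q2 gB3q2 gB4q2 dB1q0 dB4q2 dB3q2 dB4q2 true true)) t 1 1 1 = true :=
  ⟨(T.l 2), by decide +kernel⟩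

def B022E_144 :
    ∃ t, chk3 (onCell 0 67108864 0 1073741824 587336777 62277027 (corW 3 c0B eng mog cB022E gB1q0 gB4q2 gB4q2 gB5q2 dB1q0 dB4q2 dB4q2 dB5q2 true false)) t 1 1 1 = true :=
  ⟨(T.b (T.b (T.a (T.a (T.l 204) (T.a (T.l 204) (T.a (T.l 204) (T.b (T.l 204) (T.l 204))))) (T.a (T.a (T.b (T.a (T.l 204) (T.l 204)) (T.l 204)) (T.b (T.b (T.l 204) (T.l 204)) (T.l 204))) (T.b (T.a (T.l 204) (T.l 204)) (T.b (T.l 204) (T.l 204))))) (T.a (T.a (T.l 204) (T.c (T.l 0) (T.l 204))) (T.a (T.a (T.l 204) (T.b (T.l 204) (T.l 204))) (T.b (T.l 204) (T.l 0))))) (T.b (T.a (T.a (T.l 0) (T.l 0)) (T.a (T.l 0) (T.b (T.l 0) (T.l 0)))) (T.a (T.a (T.l 816) (T.c (T.l 0) (T.l 0))) (T.a (T.l 0) (T.l 0))))), by decide +kernel⟩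

def B022E_200 :
    ∃ t, chk3 (onCell 0 67108864 0 1073741824 587336777 62277027 (corW 3 c0B eng mog cB022E gB2q0 gB0q2 gB0q2 gB1q2 dB2q0 dB0q2 dB0q2 dB1q2 true true)) t 1 1 1 = true :=
  ⟨(T.l 2), by decide +kernel⟩

def B022E_201 :
    ∃ t, chk3 (onCell 0 67108864 0 1073741824 587336777 62277027 (corW 3 c0B eng mog cB022E gB2q0 gB0q2 gB1q2 gB2q2 dB2q0 dB0q2 dB1q2 dB2q2 true true)) t 1 1 1 = true :=
  ⟨(T.l 2), by decide +kernel⟩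

def B022E_202 :
    ∃ t, chk3 (onCell 0 67108864 0 1073741824 587336777 62277027 (corW 3 c0B eng mog cB022E gB2q0 gB0q2 gB2q2 gB3q2 dB2q0 dB0q2 dB2q2 dB3q2 true true)) t 1 1 1 = true :=
  ⟨(T.l 2), by decide +kernel⟩

def B022E_203 :
    ∃ t, chk3 (onCell 0 67108864 0 1073741824 587336777 62277027 (corW 3 c0B eng mog cB022E gB2q0 gB0q2 gB3q2 gB4q2 dB2q0 dB0q2 dB3q2 dB4q2 true true)) t 1 1 1 = true :=
  ⟨(T.l 2), by decide +kernel⟩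

def B022E_204 :
    ∃ t, chk3 (onCell 0 67108864 0 1073741824 587336777 62277027 (corW 3 c0B eng mog cB022E gB2q0 gB0q2 gB4q2 gB5q2 dB2q0 dB0q2 dB4q2 dB5q2 true false)) t 1 1 1 = true :=
  ⟨(T.a (T.a (T.b (T.b (T.b (T.c (T.a (T.l 204) (T.l 204)) (T.l 204)) (T.l 204)) (T.l 0)) (T.l 0)) (T.b (T.a (T.b (T.l 204) (T.l 0)) (T.b (T.a (T.l 204) (T.b (T.l 204) (T.l 204))) (T.l 0))) (T.l 0))) (T.a (T.b (T.b (T.a (T.b (T.b (T.l 204) (T.l 204)) (T.l 204)) (T.b (T.l 204) (T.l 204))) (T.a (T.l 0) (T.l 0))) (T.l 0)) (T.b (T.b (T.b (T.a (T.l 204) (T.l 204)) (T.l 476)) (T.b (T.l 0) (T.l 0))) (T.b (T.b (T.l 0) (T.l 0)) (T.l 816))))), by decide +kernel⟩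

def B022E_210 :
    ∃ t, chk3 (onCell 0 67108864 0 1073741824 587336777 62277027 (corW 3 c0B eng mog cB022E gB2q0 gB1q2 gB0q2 gB1q2 dB2q0 dB1q2 dB0q2 dB1q2 true true)) t 1 1 1 = true :=
  ⟨(T.l 2), by decide +kernel⟩

def B022E_211 :
    ∃ t, chk3 (onCell 0 67108864 0 1073741824 587336777 62277027 (corW 3 c0B eng mog cB022E gB2q0 gB1q2 gB1q2 gB2q2 dB2q0 dB1q2 dB1q2 dB2q2 true true)) t 1 1 1 = true :=
  ⟨(T.l 2), by decide +kernel⟩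

def B022E_212 :
    ∃ t, chk3 (onCell 0 67108864 0 1073741824 587336777 62277027 (corW 3 c0B eng mog cB022E gB2q0 gB1q2 gB2q2 gB3q2 dB2q0 dB1q2 dB2q2 dB3q2 true true)) t 1 1 1 = true :=
  ⟨(T.l 2), by decide +kernel⟩

def B022E_213 :
    ∃ t, chk3 (onCell 0 67108864 0 1073741824 587336777 62277027 (corW 3 c0B eng mog cB022E gB2q0 gB1q2 gB3q2 gB4q2 dB2q0 dB1q2 dB3q2 dB4q2 true true)) t 1 1 1 = true :=
  ⟨(T.l 2), by decide +kernel⟩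

def B022E_214 :
    ∃ t, chk3 (onCell 0 67108864 0 1073741824 587336777 62277027 (corW 3 c0B eng mog cB022E gB2q0 gB1q2 gB4q2 gB5q2 dB2q0 dB1q2 dB4q2 dB5q2 true false)) t 1 1 1 = true :=
  ⟨(T.a (T.a (T.b (T.b (T.b (T.c (T.l 204) (T.l 204)) (T.l 204)) (T.l 0)) (T.l 0)) (T.b (T.a (T.b (T.l 204) (T.l 0)) (T.b (T.a (T.l 204) (T.b (T.l 204) (T.l 204))) (T.l 0))) (T.l 4))) (T.a (T.b (T.b (T.a (T.b (T.c (T.l 204) (T.l 204)) (T.l 204)) (T.b (T.l 204) (T.l 204))) (T.b (T.l 16) (T.l 0))) (T.l 0)) (T.b (T.b (T.b (T.a (T.l 204) (T.l 204)) (T.l 204)) (T.b (T.l 0) (T.l 0))) (T.b (T.b (T.l 0) (T.l 0)) (T.l 816))))), by decide +kernel⟩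

def B022E_220 :
    ∃ t, chk3 (onCell 0 67108864 0 1073741824 587336777 62277027 (corW 3 c0B eng mog cB022E gB2q0 gB2q2 gB0q2 gB1q2 dB2q0 dB2q2 dB0q2 dB1q2 true true)) t 1 1 1 = true :=
  ⟨(T.l 2), by decide +kernel⟩

def B022E_221 :
    ∃ t, chk3 (onCell 0 67108864 0 1073741824 587336777 62277027 (corW 3 c0B eng mog cB022E gB2q0 gB2q2 gB1q2 gB2q2 dB2q0 dB2q2 dB1q2 dB2q2 true true)) t 1 1 1 = true :=
  ⟨(T.l 2), by decide +kernel⟩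

def B022E_222 :
    ∃ t, chk3 (onCell 0 67108864 0 1073741824 587336777 62277027 (corW 3 c0B eng mog cB022E gB2q0 gB2q2 gB2q2 gB3q2 dB2q0 dB2q2 dB2q2 dB3q2 true true)) t 1 1 1 = true :=
  ⟨(T.l 2), by decide +kernel⟩

def B022E_223 :
    ∃ t, chk3 (onCell 0 67108864 0 1073741824 587336777 62277027 (corW 3 c0B eng mog cB022E gB2q0 gB2q2 gB3q2 gB4q2 dB2q0 dB2q2 dB3q2 dB4q2 true true)) t 1 1 1 = true :=
  ⟨(T.l 2), by decide +kernel⟩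

def B022E_224 :
    ∃ t, chk3 (onCell 0 67108864 0 1073741824 587336777 62277027 (corW 3 c0B eng mog cB022E gB2q0 gB2q2 gB4q2 gB5q2 dB2q0 dB2q2 dB4q2 dB5q2 true false)) t 1 1 1 = true :=
  ⟨(T.a (T.a (T.b (T.b (T.c (T.b (T.l 204) (T.l 204)) (T.l 204)) (T.l 204)) (T.l 0)) (T.b (T.a (T.b (T.l 204) (T.l 204)) (T.b (T.a (T.l 204) (T.b (T.l 204) (T.l 204))) (T.l 0))) (T.l 0))) (T.b (T.b (T.a (T.a (T.b (T.a (T.l 204) (T.l 204)) (T.l 204)) (T.b (T.b (T.l 204) (T.l 204)) (T.l 204))) (T.b (T.a (T.l 220) (T.l 204)) (T.b (T.l 204) (T.l 204)))) (T.a (T.b (T.l 0) (T.l 0)) (T.b (T.l 204) (T.l 0)))) (T.b (T.a (T.l 0) (T.b (T.l 0) (T.l 0))) (T.b (T.l 0) (T.l 64))))), by decide +kernel⟩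

def B022E_230 :
    ∃ t, chk3 (onCell 0 67108864 0 1073741824 587336777 62277027 (corW 3 c0B eng mog cB022E gB2q0 gB3q2 gB0q2 gB1q2 dB2q0 dB3q2 dB0q2 dB1q2 true true)) t 1 1 1 = true :=
  ⟨(T.l 2), by decide +kernel⟩

def B022E_231 :
    ∃ t, chk3 (onCell 0 67108864 0 1073741824 587336777 62277027 (corW 3 c0B eng mog cB022E gB2q0 gB3q2 gB1q2 gB2q2 dB2q0 dB3q2 dB1q2 dB2q2 true true)) t 1 1 1 = true :=
  ⟨(T.l 2), by decide +kernel⟩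

def B022E_232 :
    ∃ t, chk3 (onCell 0 67108864 0 1073741824 587336777 62277027 (corW 3 c0B eng mog cB022E gB2q0 gB3q2 gB2q2 gB3q2 dB2q0 dB3q2 dB2q2 dB3q2 true true)) t 1 1 1 = true :=
  ⟨(T.l 2), by decide +kernel⟩

def B022E_233 :
    ∃ t, chk3 (onCell 0 67108864 0 1073741824 587336777 62277027 (corW 3 c0B eng mog cB022E gB2q0 gB3q2 gB3q2 gB4q2 dB2q0 dB3q2 dB3q2 dB4q2 true true)) t 1 1 1 = true :=
  ⟨(T.l 2), by decide +kernel⟩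

def B022E_234 :
    ∃ t, chk3 (onCell 0 67108864 0 1073741824 587336777 62277027 (corW 3 c0B eng mog cB022E gB2q0 gB3q2 gB4q2 gB5q2 dB2q0 dB3q2 dB4q2 dB5q2 true false)) t 1 1 1 = true :=
  ⟨(T.a (T.a (T.b (T.b (T.c (T.l 204) (T.l 204)) (T.l 204)) (T.l 0)) (T.b (T.a (T.b (T.l 204) (T.l 204)) (T.b (T.a (T.l 204) (T.b (T.l 204) (T.l 204))) (T.l 204))) (T.l 0))) (T.b (T.b (T.a (T.a (T.b (T.a (T.l 204) (T.l 204)) (T.l 204)) (T.b (T.b (T.l 204) (T.l 204)) (T.l 204))) (T.b (T.a (T.b (T.l 204) (T.l 204)) (T.b (T.l 204) (T.l 204))) (T.l 204))) (T.a (T.b (T.l 256) (T.l 0)) (T.b (T.l 204) (T.l 0)))) (T.b (T.a (T.l 0) (T.b (T.l 0) (T.l 0))) (T.l 0)))), by decide +kernel⟩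

def B022E_240 :
    ∃ t, chk3 (onCell 0 67108864 0 1073741824 587336777 62277027 (corW 3 c0B eng mog cB022E gB2q0 gB4q2 gB0q2 gB1q2 dB2q0 dB4q2 dB0q2 dB1q2 true true)) t 1 1 1 = true :=
  ⟨(T.l 2), by decide +kernel⟩

def B022E_241 :
    ∃ t, chk3 (onCell 0 67108864 0 1073741824 587336777 62277027 (corW 3 c0B eng mog cB022E gB2q0 gB4q2 gB1q2 gB2q2 dB2q0 dB4q2 dB1q2 dB2q2 true true)) t 1 1 1 = true :=
  ⟨(T.l 2), by decide +kernel⟩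

def B022E_242 :
    ∃ t, chk3 (onCell 0 67108864 0 1073741824 587336777 62277027 (corW 3 c0B eng mog cB022E gB2q0 gB4q2 gB2q2 gB3q2 dB2q0 dB4q2 dB2q2 dB3q2 true true)) t 1 1 1 = true :=
  ⟨(T.l 2), by decide +kernel⟩

def B022E_243 :
    ∃ t, chk3 (onCell 0 67108864 0 1073741824 587336777 62277027 (corW 3 c0B eng mog cB022E gB2q0 gB4q2 gB3q2 gB4q2 dB2q0 dB4q2 dB3q2 dB4q2 true true)) t 1 1 1 = true :=
  ⟨(T.l 2), by decide +kernel⟩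

def B022E_244 :
    ∃ t, chk3 (onCell 0 67108864 0 1073741824 587336777 62277027 (corW 3 c0B eng mog cB022E gB2q0 gB4q2 gB4q2 gB5q2 dB2q0 dB4q2 dB4q2 dB5q2 true false)) t 1 1 1 = true :=
  ⟨(T.b (T.a (T.a (T.b (T.l 460) (T.l 0)) (T.b (T.a (T.l 204) (T.a (T.l 204) (T.b (T.l 204) (T.l 204)))) (T.l 0))) (T.b (T.a (T.b (T.a (T.a (T.l 204) (T.l 204)) (T.b (T.l 204) (T.l 204))) (T.b (T.l 460) (T.l 204))) (T.b (T.a (T.l 204) (T.l 204)) (T.l 204))) (T.a (T.b (T.l 0) (T.l 0)) (T.b (T.l 204) (T.l 0))))) (T.b (T.a (T.a (T.l 0) (T.l 0)) (T.a (T.l 0) (T.b (T.l 0) (T.l 0)))) (T.a (T.a (T.l 816) (T.l 0)) (T.l 0)))), by decide +kernel⟩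

def B022E_300 :
    ∃ t, chk3 (onCell 0 67108864 0 1073741824 587336777 62277027 (corW 3 c0B eng mog cB022E gB3q0 gB0q2 gB0q2 gB1q2 dB3q0 dB0q2 dB0q2 dB1q2 true true)) t 1 1 1 = true :=
  ⟨(T.l 2), by decide +kernel⟩

def B022E_301 :
    ∃ t, chk3 (onCell 0 67108864 0 1073741824 587336777 62277027 (corW 3 c0B eng mog cB022E gB3q0 gB0q2 gB1q2 gB2q2 dB3q0 dB0q2 dB1q2 dB2q2 true true)) t 1 1 1 = true :=
  ⟨(T.l 2), by decide +kernel⟩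

def B022E_302 :
    ∃ t, chk3 (onCell 0 67108864 0 1073741824 587336777 62277027 (corW 3 c0B eng mog cB022E gB3q0 gB0q2 gB2q2 gB3q2 dB3q0 dB0q2 dB2q2 dB3q2 true true)) t 1 1 1 = true :=
  ⟨(T.l 2), by decide +kernel⟩

def B022E_303 :
    ∃ t, chk3 (onCell 0 67108864 0 1073741824 587336777 62277027 (corW 3 c0B eng mog cB022E gB3q0 gB0q2 gB3q2 gB4q2 dB3q0 dB0q2 dB3q2 dB4q2 true true)) t 1 1 1 = true :=
  ⟨(T.l 2), by decide +kernel⟩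

def B022E_304 :
    ∃ t, chk3 (onCell 0 67108864 0 1073741824 587336777 62277027 (corW 3 c0B eng mog cB022E gB3q0 gB0q2 gB4q2 gB5q2 dB3q0 dB0q2 dB4q2 dB5q2 true false)) t 1 1 1 = true :=
  ⟨(T.b (T.a (T.a (T.b (T.b (T.a (T.c (T.l 204) (T.l 204)) (T.l 204)) (T.l 204)) (T.l 0)) (T.a (T.b (T.l 204) (T.l 0)) (T.b (T.a (T.l 204) (T.b (T.l 204) (T.l 204))) (T.l 0)))) (T.a (T.b (T.a (T.b (T.b (T.l 204) (T.l 204)) (T.l 204)) (T.b (T.l 204) (T.l 204))) (T.b (T.l 0) (T.l 0))) (T.b (T.b (T.a (T.l 204) (T.l 204)) (T.l 0)) (T.b (T.l 0) (T.l 0))))) (T.a (T.a (T.l 0) (T.l 0)) (T.b (T.a (T.l 0) (T.l 0)) (T.a (T.l 816) (T.l 816))))), by decide +kernel⟩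

def B022E_310 :
    ∃ t, chk3 (onCell 0 67108864 0 1073741824 587336777 62277027 (corW 3 c0B eng mog cB022E gB3q0 gB1q2 gB0q2 gB1q2 dB3q0 dB1q2 dB0q2 dB1q2 true true)) t 1 1 1 = true :=
  ⟨(T.l 2), by decide +kernel⟩

def B022E_311 :
    ∃ t, chk3 (onCell 0 67108864 0 1073741824 587336777 62277027 (corW 3 c0B eng mog cB022E gB3q0 gB1q2 gB1q2 gB2q2 dB3q0 dB1q2 dB1q2 dB2q2 true true)) t 1 1 1 = true :=
  ⟨(T.l 2), by decide +kernel⟩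

def B022E_312 :
    ∃ t, chk3 (onCell 0 67108864 0 1073741824 587336777 62277027 (corW 3 c0B eng mog cB022E gB3q0 gB1q2 gB2q2 gB3q2 dB3q0 dB1q2 dB2q2 dB3q2 true true)) t 1 1 1 = true :=
  ⟨(T.l 2), by decide +kernel⟩

def B022E_313 :
    ∃ t, chk3 (onCell 0 67108864 0 1073741824 587336777 62277027 (corW 3 c0B eng mog cB022E gB3q0 gB1q2 gB3q2 gB4q2 dB3q0 dB1q2 dB3q2 dB4q2 true true)) t 1 1 1 = true :=
  ⟨(T.l 2), by decide +kernel⟩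

def B022E_314 :
    ∃ t, chk3 (onCell 0 67108864 0 1073741824 587336777 62277027 (corW 3 c0B eng mog cB022E gB3q0 gB1q2 gB4q2 gB5q2 dB3q0 dB1q2 dB4q2 dB5q2 true false)) t 1 1 1 = true :=
  ⟨(T.b (T.a (T.a (T.b (T.b (T.c (T.b (T.l 204) (T.l 204)) (T.l 204)) (T.l 204)) (T.l 0)) (T.a (T.b (T.b (T.l 204) (T.l 204)) (T.l 0)) (T.b (T.a (T.l 204) (T.b (T.l 204) (T.l 204))) (T.l 0)))) (T.a (T.b (T.a (T.b (T.c (T.l 204) (T.l 204)) (T.l 204)) (T.b (T.b (T.l 204) (T.l 204)) (T.l 204))) (T.b (T.l 0) (T.l 0))) (T.b (T.b (T.a (T.l 204) (T.l 204)) (T.l 0)) (T.l 272)))) (T.a (T.a (T.l 0) (T.l 0)) (T.b (T.a (T.l 0) (T.l 0)) (T.l 0)))), by decide +kernel⟩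

def B022E_320 :
    ∃ t, chk3 (onCell 0 67108864 0 1073741824 587336777 62277027 (corW 3 c0B eng mog cB022E gB3q0 gB2q2 gB0q2 gB1q2 dB3q0 dB2q2 dB0q2 dB1q2 true true)) t 1 1 1 = true :=
  ⟨(T.l 2), by decide +kernel⟩

def B022E_321 :
    ∃ t, chk3 (onCell 0 67108864 0 1073741824 587336777 62277027 (corW 3 c0B eng mog cB022E gB3q0 gB2q2 gB1q2 gB2q2 dB3q0 dB2q2 dB1q2 dB2q2 true true)) t 1 1 1 = true :=
  ⟨(T.l 2), by decide +kernel⟩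

def B022E_322 :
    ∃ t, chk3 (onCell 0 67108864 0 1073741824 587336777 62277027 (corW 3 c0B eng mog cB022E gB3q0 gB2q2 gB2q2 gB3q2 dB3q0 dB2q2 dB2q2 dB3q2 true true)) t 1 1 1 = true :=
  ⟨(T.l 2), by decide +kernel⟩

def B022E_323 :
    ∃ t, chk3 (onCell 0 67108864 0 1073741824 587336777 62277027 (corW 3 c0B eng mog cB022E gB3q0 gB2q2 gB3q2 gB4q2 dB3q0 dB2q2 dB3q2 dB4q2 true true)) t 1 1 1 = true :=
  ⟨(T.l 2), by decide +kernel⟩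

def B022E_324 :
    ∃ t, chk3 (onCell 0 67108864 0 1073741824 587336777 62277027 (corW 3 c0B eng mog cB022E gB3q0 gB2q2 gB4q2 gB5q2 dB3q0 dB2q2 dB4q2 dB5q2 true false)) t 1 1 1 = true :=
  ⟨(T.b (T.a (T.a (T.b (T.b (T.b (T.l 204) (T.l 204)) (T.l 204)) (T.l 0)) (T.a (T.b (T.l 204) (T.l 0)) (T.b (T.a (T.l 204) (T.b (T.l 220) (T.l 204))) (T.l 0)))) (T.b (T.a (T.b (T.a (T.a (T.l 204) (T.l 204)) (T.b (T.l 204) (T.l 204))) (T.b (T.l 204) (T.l 204))) (T.b (T.a (T.b (T.l 204) (T.l 204)) (T.l 204)) (T.l 204))) (T.a (T.b (T.l 0) (T.l 0)) (T.b (T.l 0) (T.l 0))))) (T.a (T.a (T.l 0) (T.l 0)) (T.b (T.a (T.l 0) (T.l 0)) (T.l 0)))), by decide +kernel⟩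

def B022E_330 :
    ∃ t, chk3 (onCell 0 67108864 0 1073741824 587336777 62277027 (corW 3 c0B eng mog cB022E gB3q0 gB3q2 gB0q2 gB1q2 dB3q0 dB3q2 dB0q2 dB1q2 true true)) t 1 1 1 = true :=
  ⟨(T.l 2), by decide +kernel⟩

def B022E_331 :
    ∃ t, chk3 (onCell 0 67108864 0 1073741824 587336777 62277027 (corW 3 c0B eng mog cB022E gB3q0 gB3q2 gB1q2 gB2q2 dB3q0 dB3q2 dB1q2 dB2q2 true true)) t 1 1 1 = true :=
  ⟨(T.l 2), by decide +kernel⟩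

def B022E_332 :
    ∃ t, chk3 (onCell 0 67108864 0 1073741824 587336777 62277027 (corW 3 c0B eng mog cB022E gB3q0 gB3q2 gB2q2 gB3q2 dB3q0 dB3q2 dB2q2 dB3q2 true true)) t 1 1 1 = true :=
  ⟨(T.l 2), by decide +kernel⟩

def B022E_333 :
    ∃ t, chk3 (onCell 0 67108864 0 1073741824 587336777 62277027 (corW 3 c0B eng mog cB022E gB3q0 gB3q2 gB3q2 gB4q2 dB3q0 dB3q2 dB3q2 dB4q2 true true)) t 1 1 1 = true :=
  ⟨(T.l 2), by decide +kernel⟩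

def B022E_334 :
    ∃ t, chk3 (onCell 0 67108864 0 1073741824 587336777 62277027 (corW 3 c0B eng mog cB022E gB3q0 gB3q2 gB4q2 gB5q2 dB3q0 dB3q2 dB4q2 dB5q2 true false)) t 1 1 1 = true :=
  ⟨(T.b (T.a (T.a (T.b (T.c (T.l 204) (T.b (T.l 204) (T.l 204))) (T.l 0)) (T.a (T.b (T.l 204) (T.l 0)) (T.b (T.a (T.l 204) (T.b (T.l 220) (T.l 204))) (T.l 0)))) (T.b (T.a (T.b (T.a (T.a (T.l 204) (T.l 204)) (T.b (T.l 204) (T.l 204))) (T.b (T.l 204) (T.l 204))) (T.b (T.b (T.a (T.l 204) (T.l 204)) (T.l 204)) (T.l 204))) (T.a (T.b (T.l 0) (T.l 0)) (T.l 256)))) (T.b (T.a (T.a (T.l 0) (T.l 0)) (T.a (T.l 0) (T.l 0))) (T.a (T.a (T.l 816) (T.l 0)) (T.l 0)))), by decide +kernel⟩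

def B022E_340 :
    ∃ t, chk3 (onCell 0 67108864 0 1073741824 587336777 62277027 (corW 3 c0B eng mog cB022E gB3q0 gB4q2 gB0q2 gB1q2 dB3q0 dB4q2 dB0q2 dB1q2 true true)) t 1 1 1 = true :=
  ⟨(T.l 2), by decide +kernel⟩

def B022E_341 :
    ∃ t, chk3 (onCell 0 67108864 0 1073741824 587336777 62277027 (corW 3 c0B eng mog cB022E gB3q0 gB4q2 gB1q2 gB2q2 dB3q0 dB4q2 dB1q2 dB2q2 true true)) t 1 1 1 = true :=
  ⟨(T.l 2), by decide +kernel⟩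

def B022E_342 :
    ∃ t, chk3 (onCell 0 67108864 0 1073741824 587336777 62277027 (corW 3 c0B eng mog cB022E gB3q0 gB4q2 gB2q2 gB3q2 dB3q0 dB4q2 dB2q2 dB3q2 true true)) t 1 1 1 = true :=
  ⟨(T.l 2), by decide +kernel⟩

def B022E_343 :
    ∃ t, chk3 (onCell 0 67108864 0 1073741824 587336777 62277027 (corW 3 c0B eng mog cB022E gB3q0 gB4q2 gB3q2 gB4q2 dB3q0 dB4q2 dB3q2 dB4q2 true true)) t 1 1 1 = true :=
  ⟨(T.l 2), by decide +kernel⟩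

def B022E_344 :
    ∃ t, chk3 (onCell 0 67108864 0 1073741824 587336777 62277027 (corW 3 c0B eng mog cB022E gB3q0 gB4q2 gB4q2 gB5q2 dB3q0 dB4q2 dB4q2 dB5q2 true false)) t 1 1 1 = true :=
  ⟨(T.b (T.b (T.a (T.a (T.b (T.l 204) (T.l 204)) (T.a (T.l 204) (T.b (T.a (T.l 204) (T.b (T.l 204) (T.l 204))) (T.l 204)))) (T.a (T.b (T.a (T.a (T.l 204) (T.l 204)) (T.b (T.l 204) (T.l 204))) (T.b (T.l 204) (T.l 204))) (T.b (T.a (T.b (T.l 204) (T.l 204)) (T.l 204)) (T.l 204)))) (T.a (T.a (T.l 0) (T.l 0)) (T.a (T.b (T.l 0) (T.l 0)) (T.l 0)))) (T.b (T.a (T.a (T.l 0) (T.l 0)) (T.b (T.l 0) (T.l 0))) (T.a (T.a (T.l 816) (T.l 816)) (T.l 0)))), by decide +kernel⟩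

def B022E_400 :
    ∃ t, chk3 (onCell 0 67108864 0 1073741824 587336777 62277027 (corW 3 c0B eng mog cB022E gB4q0 gB0q2 gB0q2 gB1q2 dB4q0 dB0q2 dB0q2 dB1q2 true true)) t 1 1 1 = true :=
  ⟨(T.l 2), by decide +kernel⟩

def B022E_401 :
    ∃ t, chk3 (onCell 0 67108864 0 1073741824 587336777 62277027 (corW 3 c0B eng mog cB022E gB4q0 gB0q2 gB1q2 gB2q2 dB4q0 dB0q2 dB1q2 dB2q2 true true)) t 1 1 1 = true :=
  ⟨(T.l 2), by decide +kernel⟩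

def B022E_402 :
    ∃ t, chk3 (onCell 0 67108864 0 1073741824 587336777 62277027 (corW 3 c0B eng mog cB022E gB4q0 gB0q2 gB2q2 gB3q2 dB4q0 dB0q2 dB2q2 dB3q2 true true)) t 1 1 1 = true :=
  ⟨(T.l 2), by decide +kernel⟩

def B022E_403 :
    ∃ t, chk3 (onCell 0 67108864 0 1073741824 587336777 62277027 (corW 3 c0B eng mog cB022E gB4q0 gB0q2 gB3q2 gB4q2 dB4q0 dB0q2 dB3q2 dB4q2 true true)) t 1 1 1 = true :=
  ⟨(T.l 2), by decide +kernel⟩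

def B022E_404 :
    ∃ t, chk3 (onCell 0 67108864 0 1073741824 587336777 62277027 (corW 3 c0B eng mog cB022E gB4q0 gB0q2 gB4q2 gB5q2 dB4q0 dB0q2 dB4q2 dB5q2 true false)) t 1 1 1 = true :=
  ⟨(T.b (T.a (T.a (T.b (T.b (T.b (T.c (T.b (T.l 204) (T.l 204)) (T.l 204)) (T.l 204)) (T.l 204)) (T.l 0)) (T.b (T.a (T.b (T.l 204) (T.l 204)) (T.a (T.l 204) (T.b (T.l 204) (T.l 204)))) (T.l 0))) (T.a (T.b (T.b (T.a (T.b (T.l 204) (T.l 204)) (T.b (T.l 204) (T.l 204))) (T.l 0)) (T.l 0)) (T.b (T.b (T.a (T.l 204) (T.l 204)) (T.l 0)) (T.l 0)))) (T.b (T.a (T.a (T.l 816) (T.l 0)) (T.a (T.l 0) (T.l 0))) (T.a (T.a (T.l 816) (T.l 816)) (T.b (T.l 0) (T.l 0))))), by decide +kernel⟩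

def B022E_410 :
    ∃ t, chk3 (onCell 0 67108864 0 1073741824 587336777 62277027 (corW 3 c0B eng mog cB022E gB4q0 gB1q2 gB0q2 gB1q2 dB4q0 dB1q2 dB0q2 dB1q2 true true)) t 1 1 1 = true :=
  ⟨(T.l 2), by decide +kernel⟩

def B022E_411 :
    ∃ t, chk3 (onCell 0 67108864 0 1073741824 587336777 62277027 (corW 3 c0B eng mog cB022E gB4q0 gB1q2 gB1q2 gB2q2 dB4q0 dB1q2 dB1q2 dB2q2 true true)) t 1 1 1 = true :=
  ⟨(T.l 2), by decide +kernel⟩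

def B022E_412 :
    ∃ t, chk3 (onCell 0 67108864 0 1073741824 587336777 62277027 (corW 3 c0B eng mog cB022E gB4q0 gB1q2 gB2q2 gB3q2 dB4q0 dB1q2 dB2q2 dB3q2 true true)) t 1 1 1 = true :=
  ⟨(T.l 2), by decide +kernel⟩

def B022E_413 :
    ∃ t, chk3 (onCell 0 67108864 0 1073741824 587336777 62277027 (corW 3 c0B eng mog cB022E gB4q0 gB1q2 gB3q2 gB4q2 dB4q0 dB1q2 dB3q2 dB4q2 true true)) t 1 1 1 = true :=
  ⟨(T.l 2), by decide +kernel⟩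

def B022E_414 :
    ∃ t, chk3 (onCell 0 67108864 0 1073741824 587336777 62277027 (corW 3 c0B eng mog cB022E gB4q0 gB1q2 gB4q2 gB5q2 dB4q0 dB1q2 dB4q2 dB5q2 true false)) t 1 1 1 = true :=
  ⟨(T.b (T.a (T.a (T.b (T.b (T.c (T.b (T.l 204) (T.l 204)) (T.l 204)) (T.l 204)) (T.l 0)) (T.b (T.a (T.b (T.l 204) (T.l 204)) (T.a (T.l 204) (T.b (T.l 220) (T.l 204)))) (T.l 0))) (T.b (T.a (T.b (T.a (T.a (T.l 204) (T.l 204)) (T.b (T.l 204) (T.l 204))) (T.l 0)) (T.b (T.a (T.l 204) (T.l 204)) (T.l 0))) (T.a (T.l 0) (T.l 0)))) (T.b (T.a (T.a (T.l 816) (T.l 0)) (T.b (T.l 0) (T.l 0))) (T.a (T.a (T.l 816) (T.l 816)) (T.l 0)))), by decide +kernel⟩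

def B022E_420 :
    ∃ t, chk3 (onCell 0 67108864 0 1073741824 587336777 62277027 (corW 3 c0B eng mog cB022E gB4q0 gB2q2 gB0q2 gB1q2 dB4q0 dB2q2 dB0q2 dB1q2 true true)) t 1 1 1 = true :=
  ⟨(T.l 2), by decide +kernel⟩

def B022E_421 :
    ∃ t, chk3 (onCell 0 67108864 0 1073741824 587336777 62277027 (corW 3 c0B eng mog cB022E gB4q0 gB2q2 gB1q2 gB2q2 dB4q0 dB2q2 dB1q2 dB2q2 true true)) t 1 1 1 = true :=
  ⟨(T.l 2), by decide +kernel⟩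

def B022E_422 :
    ∃ t, chk3 (onCell 0 67108864 0 1073741824 587336777 62277027 (corW 3 c0B eng mog cB022E gB4q0 gB2q2 gB2q2 gB3q2 dB4q0 dB2q2 dB2q2 dB3q2 true true)) t 1 1 1 = true :=
  ⟨(T.l 2), by decide +kernel⟩

def B022E_423 :
    ∃ t, chk3 (onCell 0 67108864 0 1073741824 587336777 62277027 (corW 3 c0B eng mog cB022E gB4q0 gB2q2 gB3q2 gB4q2 dB4q0 dB2q2 dB3q2 dB4q2 true true)) t 1 1 1 = true :=
  ⟨(T.l 2), by decide +kernel⟩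

def B022E_424 :
    ∃ t, chk3 (onCell 0 67108864 0 1073741824 587336777 62277027 (corW 3 c0B eng mog cB022E gB4q0 gB2q2 gB4q2 gB5q2 dB4q0 dB2q2 dB4q2 dB5q2 true false)) t 1 1 1 = true :=
  ⟨(T.b (T.b (T.a (T.a (T.b (T.c (T.l 204) (T.l 204)) (T.l 204)) (T.a (T.b (T.l 204) (T.l 204)) (T.a (T.l 220) (T.b (T.b (T.l 204) (T.l 204)) (T.l 204))))) (T.a (T.b (T.a (T.a (T.b (T.l 204) (T.l 204)) (T.l 204)) (T.b (T.l 204) (T.l 204))) (T.l 0)) (T.b (T.a (T.b (T.l 204) (T.l 204)) (T.b (T.l 204) (T.l 204))) (T.l 0)))) (T.a (T.a (T.l 0) (T.l 0)) (T.a (T.l 0) (T.l 0)))) (T.b (T.a (T.a (T.l 816) (T.l 0)) (T.b (T.l 0) (T.l 0))) (T.a (T.a (T.l 816) (T.l 816)) (T.l 0)))), by decide +kernel⟩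

def B022E_430 :
    ∃ t, chk3 (onCell 0 67108864 0 1073741824 587336777 62277027 (corW 3 c0B eng mog cB022E gB4q0 gB3q2 gB0q2 gB1q2 dB4q0 dB3q2 dB0q2 dB1q2 true true)) t 1 1 1 = true :=
  ⟨(T.l 2), by decide +kernel⟩

def B022E_431 :
    ∃ t, chk3 (onCell 0 67108864 0 1073741824 587336777 62277027 (corW 3 c0B eng mog cB022E gB4q0 gB3q2 gB1q2 gB2q2 dB4q0 dB3q2 dB1q2 dB2q2 true true)) t 1 1 1 = true :=
  ⟨(T.l 2), by decide +kernel⟩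

def B022E_432 :
    ∃ t, chk3 (onCell 0 67108864 0 1073741824 587336777 62277027 (corW 3 c0B eng mog cB022E gB4q0 gB3q2 gB2q2 gB3q2 dB4q0 dB3q2 dB2q2 dB3q2 true true)) t 1 1 1 = true :=
  ⟨(T.l 2), by decide +kernel⟩

def B022E_433 :
    ∃ t, chk3 (onCell 0 67108864 0 1073741824 587336777 62277027 (corW 3 c0B eng mog cB022E gB4q0 gB3q2 gB3q2 gB4q2 dB4q0 dB3q2 dB3q2 dB4q2 true true)) t 1 1 1 = true :=
  ⟨(T.l 2), by decide +kernel⟩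

def B022E_434 :
    ∃ t, chk3 (onCell 0 67108864 0 1073741824 587336777 62277027 (corW 3 c0B eng mog cB022E gB4q0 gB3q2 gB4q2 gB5q2 dB4q0 dB3q2 dB4q2 dB5q2 true false)) t 1 1 1 = true :=
  ⟨(T.b (T.b (T.a (T.a (T.b (T.c (T.l 204) (T.l 204)) (T.l 204)) (T.a (T.b (T.l 204) (T.l 204)) (T.a (T.l 204) (T.b (T.b (T.l 204) (T.l 204)) (T.l 204))))) (T.a (T.b (T.a (T.a (T.l 220) (T.l 204)) (T.c (T.l 204) (T.l 204))) (T.l 0)) (T.b (T.b (T.a (T.l 204) (T.l 204)) (T.l 204)) (T.l 0)))) (T.a (T.a (T.l 0) (T.l 0)) (T.a (T.l 0) (T.l 0)))) (T.b (T.a (T.a (T.l 816) (T.l 0)) (T.b (T.l 0) (T.l 0))) (T.a (T.a (T.l 816) (T.l 816)) (T.l 816)))), by decide +kernel⟩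

def B022E_440 :
    ∃ t, chk3 (onCell 0 67108864 0 1073741824 587336777 62277027 (corW 3 c0B eng mog cB022E gB4q0 gB4q2 gB0q2 gB1q2 dB4q0 dB4q2 dB0q2 dB1q2 true true)) t 1 1 1 = true :=
  ⟨(T.l 2), by decide +kernel⟩

def B022E_441 :
    ∃ t, chk3 (onCell 0 67108864 0 1073741824 587336777 62277027 (corW 3 c0B eng mog cB022E gB4q0 gB4q2 gB1q2 gB2q2 dB4q0 dB4q2 dB1q2 dB2q2 true true)) t 1 1 1 = true :=
  ⟨(T.l 2), by decide +kernel⟩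

def B022E_442 :
    ∃ t, chk3 (onCell 0 67108864 0 1073741824 587336777 62277027 (corW 3 c0B eng mog cB022E gB4q0 gB4q2 gB2q2 gB3q2 dB4q0 dB4q2 dB2q2 dB3q2 true true)) t 1 1 1 = true :=
  ⟨(T.l 2), by decide +kernel⟩

def B022E_443 :
    ∃ t, chk3 (onCell 0 67108864 0 1073741824 587336777 62277027 (corW 3 c0B eng mog cB022E gB4q0 gB4q2 gB3q2 gB4q2 dB4q0 dB4q2 dB3q2 dB4q2 true true)) t 1 1 1 = true :=
  ⟨(T.l 2), by decide +kernel⟩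

def B022E_444 :
    ∃ t, chk3 (onCell 0 67108864 0 1073741824 587336777 62277027 (corW 3 c0B eng mog cB022E gB4q0 gB4q2 gB4q2 gB5q2 dB4q0 dB4q2 dB4q2 dB5q2 true false)) t 1 1 1 = true :=
  ⟨(T.b (T.b (T.a (T.a (T.b (T.l 204) (T.l 204)) (T.a (T.b (T.l 204) (T.l 204)) (T.b (T.a (T.l 204) (T.b (T.l 204) (T.l 204))) (T.l 204)))) (T.a (T.b (T.b (T.a (T.b (T.l 204) (T.l 204)) (T.l 204)) (T.l 204)) (T.l 0)) (T.b (T.b (T.c (T.l 204) (T.l 204)) (T.l 204)) (T.l 0)))) (T.a (T.a (T.l 0) (T.l 0)) (T.a (T.l 0) (T.l 0)))) (T.b (T.a (T.a (T.l 816) (T.l 0)) (T.b (T.l 0) (T.l 816))) (T.a (T.a (T.l 816) (T.l 816)) (T.l 816)))), by decide +kernel⟩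

def B022L_070 :
    ∃ t, chk3 (onCell 0 67108864 0 1073741824 587336777 62277027 (corW 3 c0B eng mog cB022L gB0q0 gB7q2 gB0q2 gB1q2 dB0q0 dB7q2 dB0q2 dB1q2 true true)) t 1 1 1 = true :=
  ⟨(T.b (T.l 2) (T.b (T.b (T.l 2) (T.b (T.b (T.a (T.b (T.b (T.l 2) (T.a (T.l 0) (T.l 816))) (T.a (T.b (T.l 0) (T.c (T.l 0) (T.l 0))) (T.c (T.l 0) (T.l 0)))) (T.b (T.l 2) (T.a (T.c (T.l 0) (T.l 0)) (T.c (T.l 0) (T.l 0))))) (T.b (T.a (T.a (T.b (T.a (T.c (T.l 0) (T.l 0)) (T.c (T.l 0) (T.l 0))) (T.a (T.b (T.b (T.l 0) (T.a (T.b (T.l 0) (T.a (T.l 1) (T.b (T.l 0) (T.l 1)))) (T.b (T.l 0) (T.b (T.l 0) (T.a (T.l 1) (T.l 0)))))) (T.l 1)) (T.b (T.a (T.c (T.l 0) (T.l 0)) (T.l 0)) (T.b (T.b (T.b (T.a (T.a (T.l 1) (T.l 0)) (T.l 0)) (T.l 1)) (T.l 1)) (T.l 1))))) (T.b (T.c (T.l 0) (T.l 0)) (T.b (T.a (T.l 0) (T.l 0)) (T.a (T.b (T.b (T.c (T.l 0) (T.l 0)) (T.a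 (T.l 1) (T.b (T.l 0) (T.l 1)))) (T.l 1)) (T.b (T.c (T.l 0) (T.l 0)) (T.a (T.l 1) (T.b (T.b (T.l 0) (T.l 1)) (T.l 1)))))))) (T.a (T.b (T.c (T.l 0) (T.l 0)) (T.a (T.b (T.l 0) (T.b (T.l 0) (T.b (T.c (T.l 0) (T.l 0)) (T.a (T.l 1) (T.a (T.l 1) (T.l 0)))))) (T.b (T.l 0) (T.c (T.l 0) (T.l 0))))) (T.b (T.c (T.l 0) (T.l 0)) (T.a (T.l 0) (T.l 0))))) (T.a (T.l 1) (T.b (T.b (T.b (T.a (T.a (T.l 1) (T.a (T.l 1) (T.a (T.l 1) (T.b (T.l 0) (T.l 1))))) (T.a (T.b (T.l 0) (T.a (T.l 1) (T.c (T.l 0) (T.l 0)))) (T.c (T.l 0) (T.l 0)))) (T.l 1)) (T.l 1)) (T.l 1))))) (T.l 1))) (T.l 1))), by decide +kernel⟩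

def B022L_071 :
    ∃ t, chk3 (onCell 0 67108864 0 1073741824 587336777 62277027 (corW 3 c0B eng mog cB022L gB0q0 gB7q2 gB1q2 gB2q2 dB0q0 dB7q2 dB1q2 dB2q2 true true)) t 1 1 1 = true :=
  ⟨(T.b (T.b (T.l 2) (T.l 2)) (T.b (T.b (T.b (T.b (T.l 2) (T.a (T.l 0) (T.l 0))) (T.a (T.a (T.l 0) (T.l 0)) (T.a (T.l 0) (T.l 0)))) (T.b (T.b (T.a (T.b (T.a (T.l 0) (T.l 0)) (T.a (T.l 1) (T.c (T.l 816) (T.l 816)))) (T.b (T.l 0) (T.a (T.l 816) (T.l 816)))) (T.l 1)) (T.l 1))) (T.l 1))), by decide +kernel⟩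

def B022L_072 :
    ∃ t, chk3 (onCell 0 67108864 0 1073741824 587336777 62277027 (corW 3 c0B eng mog cB022L gB0q0 gB7q2 gB2q2 gB3q2 dB0q0 dB7q2 dB2q2 dB3q2 true true)) t 1 1 1 = true :=
  ⟨(T.b (T.b (T.l 2) (T.b (T.l 2) (T.a (T.l 0) (T.a (T.l 0) (T.b (T.l 2) (T.a (T.l 0) (T.b (T.l 0) (T.l 0)))))))) (T.b (T.b (T.a (T.b (T.l 0) (T.a (T.l 1) (T.l 0))) (T.b (T.a (T.l 0) (T.a (T.l 0) (T.b (T.l 0) (T.l 0)))) (T.a (T.l 0) (T.l 0)))) (T.l 1)) (T.l 1))), by decide +kernel⟩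

def B022L_073 :
    ∃ t, chk3 (onCell 0 67108864 0 1073741824 587336777 62277027 (corW 3 c0B eng mog cB022L gB0q0 gB7q2 gB3q2 gB4q2 dB0q0 dB7q2 dB3q2 dB4q2 true true)) t 1 1 1 = true :=
  ⟨(T.b (T.b (T.b (T.b (T.a (T.a (T.l 204) (T.a (T.l 204) (T.l 0))) (T.a (T.b (T.l 0) (T.l 0)) (T.l 0))) (T.a (T.l 204) (T.a (T.b (T.l 0) (T.l 0)) (T.l 0)))) (T.a (T.l 204) (T.a (T.a (T.b (T.l 0) (T.l 0)) (T.l 0)) (T.b (T.l 0) (T.l 0))))) (T.a (T.l 0) (T.b (T.a (T.a (T.l 204) (T.b (T.l 0) (T.l 0))) (T.b (T.l 0) (T.l 0))) (T.a (T.l 0) (T.b (T.l 0) (T.b (T.l 0) (T.l 1))))))) (T.l 1)), by decide +kernel⟩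

def B022L_074 :
    ∃ t, chk3 (onCell 0 67108864 0 1073741824 587336777 62277027 (corW 3 c0B eng mog cB022L gB0q0 gB7q2 gB4q2 gB5q2 dB0q0 dB7q2 dB4q2 dB5q2 true false)) t 1 1 1 = true :=
  ⟨(T.l 1), by decide +kernel⟩

def B022L_170 :
    ∃ t, chk3 (onCell 0 67108864 0 1073741824 587336777 62277027 (corW 3 c0B eng mog cB022L gB1q0 gB7q2 gB0q2 gB1q2 dB1q0 dB7q2 dB0q2 dB1q2 true true)) t 1 1 1 = true :=
  ⟨(T.b (T.l 2) (T.b (T.b (T.b (T.l 2) (T.a (T.l 0) (T.a (T.l 0) (T.l 0)))) (T.b (T.a (T.l 1) (T.b (T.l 0) (T.l 1))) (T.l 1))) (T.l 1))), by decide +kernel⟩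

def B022L_171 :
    ∃ t, chk3 (onCell 0 67108864 0 1073741824 587336777 62277027 (corW 3 c0B eng mog cB022L gB1q0 gB7q2 gB1q2 gB2q2 dB1q0 dB7q2 dB1q2 dB2q2 true true)) t 1 1 1 = true :=
  ⟨(T.b (T.b (T.l 2) (T.b (T.l 2) (T.a (T.l 0) (T.l 2)))) (T.b (T.b (T.b (T.b (T.b (T.a (T.l 0) (T.a (T.l 816) (T.l 2))) (T.l 0)) (T.l 0)) (T.l 0)) (T.l 1)) (T.l 1))), by decide +kernel⟩

def B022L_172 :
    ∃ t, chk3 (onCell 0 67108864 0 1073741824 587336777 62277027 (corW 3 c0B eng mog cB022L gB1q0 gB7q2 gB2q2 gB3q2 dB1q0 dB7q2 dB2q2 dB3q2 true true)) t 1 1 1 = true :=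
  ⟨(T.b (T.b (T.l 2) (T.a (T.l 0) (T.b (T.l 2) (T.a (T.l 0) (T.b (T.b (T.l 0) (T.l 0)) (T.b (T.l 0) (T.l 0))))))) (T.b (T.b (T.a (T.l 0) (T.b (T.a (T.l 0) (T.b (T.l 0) (T.l 1))) (T.l 1))) (T.l 1)) (T.l 1))), by decide +kernel⟩

def B022L_173 :
    ∃ t, chk3 (onCell 0 67108864 0 1073741824 587336777 62277027 (corW 3 c0B eng mog cB022L gB1q0 gB7q2 gB3q2 gB4q2 dB1q0 dB7q2 dB3q2 dB4q2 true true)) t 1 1 1 = true :=
  ⟨(T.b (T.b (T.b (T.b (T.a (T.a (T.l 204) (T.a (T.l 204) (T.l 0))) (T.a (T.b (T.l 0) (T.l 0)) (T.l 0))) (T.a (T.l 204) (T.a (T.b (T.l 0) (T.l 0)) (T.l 0)))) (T.a (T.l 204) (T.a (T.a (T.l 0) (T.l 0)) (T.b (T.l 0) (T.l 0))))) (T.a (T.l 0) (T.b (T.a (T.b (T.l 0) (T.l 0)) (T.b (T.l 0) (T.l 0))) (T.b (T.a (T.l 0) (T.l 0)) (T.l 1))))) (T.l 1)), by decide +kernel⟩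

def B022L_174 :
    ∃ t, chk3 (onCell 0 67108864 0 1073741824 587336777 62277027 (corW 3 c0B eng mog cB022L gB1q0 gB7q2 gB4q2 gB5q2 dB1q0 dB7q2 dB4q2 dB5q2 true false)) t 1 1 1 = true :=
  ⟨(T.l 1), by decide +kernel⟩

def B022L_270 :
    ∃ t, chk3 (onCell 0 67108864 0 1073741824 587336777 62277027 (corW 3 c0B eng mog cB022L gB2q0 gB7q2 gB0q2 gB1q2 dB2q0 dB7q2 dB0q2 dB1q2 true true)) t 1 1 1 = true :=
  ⟨(T.b (T.b (T.l 2) (T.b (T.l 2) (T.a (T.b (T.l 2) (T.l 0)) (T.l 2)))) (T.b (T.b (T.b (T.b (T.b (T.a (T.l 816) (T.a (T.l 816) (T.l 2))) (T.l 0)) (T.l 0)) (T.l 1)) (T.l 1)) (T.l 1))), by decide +kernel⟩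

def B022L_271 :
    ∃ t, chk3 (onCell 0 67108864 0 1073741824 587336777 62277027 (corW 3 c0B eng mog cB022L gB2q0 gB7q2 gB1q2 gB2q2 dB2q0 dB7q2 dB1q2 dB2q2 true true)) t 1 1 1 = true :=
  ⟨(T.b (T.b (T.l 2) (T.a (T.l 0) (T.b (T.l 2) (T.a (T.l 816) (T.b (T.b (T.l 2) (T.l 0)) (T.b (T.l 0) (T.l 0))))))) (T.b (T.b (T.a (T.l 816) (T.b (T.a (T.l 816) (T.b (T.l 0) (T.l 1))) (T.l 1))) (T.l 1)) (T.l 1))), by decide +kernel⟩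

def B022L_272 :
    ∃ t, chk3 (onCell 0 67108864 0 1073741824 587336777 62277027 (corW 3 c0B eng mog cB022L gB2q0 gB7q2 gB2q2 gB3q2 dB2q0 dB7q2 dB2q2 dB3q2 true true)) t 1 1 1 = true :=
  ⟨(T.b (T.b (T.l 2) (T.b (T.a (T.l 0) (T.b (T.a (T.l 2) (T.l 2)) (T.a (T.b (T.l 4) (T.l 816)) (T.b (T.l 0) (T.l 0))))) (T.a (T.l 0) (T.a (T.l 816) (T.b (T.l 0) (T.l 0)))))) (T.l 1)), by decide +kernel⟩

def B022L_273 :
    ∃ t, chk3 (onCell 0 67108864 0 1073741824 587336777 62277027 (corW 3 c0B eng mog cB022L gB2q0 gB7q2 gB3q2 gB4q2 dB2q0 dB7q2 dB3q2 dB4q2 true true)) t 1 1 1 = true :=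
  ⟨(T.b (T.b (T.b (T.b (T.b (T.a (T.a (T.l 204) (T.a (T.l 204) (T.l 0))) (T.a (T.l 0) (T.l 0))) (T.a (T.l 204) (T.a (T.l 0) (T.l 0)))) (T.a (T.l 204) (T.a (T.l 0) (T.l 0)))) (T.a (T.l 0) (T.a (T.b (T.l 0) (T.l 0)) (T.l 0)))) (T.b (T.a (T.l 0) (T.a (T.b (T.l 0) (T.l 0)) (T.l 0))) (T.l 1))) (T.l 1)), by decide +kernel⟩

def B022L_274 :
    ∃ t, chk3 (onCell 0 67108864 0 1073741824 587336777 62277027 (corW 3 c0B eng mog cB022L gB2q0 gB7q2 gB4q2 gB5q2 dB2q0 dB7q2 dB4q2 dB5q2 true false)) t 1 1 1 = true :=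
  ⟨(T.l 1), by decide +kernel⟩

def B022L_370 :
    ∃ t, chk3 (onCell 0 67108864 0 1073741824 587336777 62277027 (corW 3 c0B eng mog cB022L gB3q0 gB7q2 gB0q2 gB1q2 dB3q0 dB7q2 dB0q2 dB1q2 true true)) t 1 1 1 = true :=
  ⟨(T.b (T.b (T.l 2) (T.b (T.l 2) (T.a (T.l 0) (T.a (T.l 816) (T.b (T.l 2) (T.b (T.l 0) (T.l 0))))))) (T.b (T.b (T.l 1) (T.l 1)) (T.l 1))), by decide +kernel⟩

def B022L_371 :
    ∃ t, chk3 (onCell 0 67108864 0 1073741824 587336777 62277027 (corW 3 c0B eng mog cB022L gB3q0 gB7q2 gB1q2 gB2q2 dB3q0 dB7q2 dB1q2 dB2q2 true true)) t 1 1 1 = true :=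
  ⟨(T.b (T.b (T.l 2) (T.a (T.l 0) (T.b (T.b (T.l 2) (T.a (T.b (T.l 2) (T.l 816)) (T.l 2))) (T.a (T.l 816) (T.b (T.b (T.l 0) (T.l 0)) (T.l 0)))))) (T.l 1)), by decide +kernel⟩

def B022L_372 :
    ∃ t, chk3 (onCell 0 67108864 0 1073741824 587336777 62277027 (corW 3 c0B eng mog cB022L gB3q0 gB7q2 gB2q2 gB3q2 dB3q0 dB7q2 dB2q2 dB3q2 true true)) t 1 1 1 = true :=
  ⟨(T.b (T.b (T.b (T.l 2) (T.a (T.l 0) (T.l 2))) (T.b (T.a (T.l 0) (T.b (T.a (T.b (T.l 0) (T.l 0)) (T.l 0)) (T.a (T.b (T.l 0) (T.l 816)) (T.l 0)))) (T.a (T.l 1) (T.b (T.a (T.l 816) (T.l 0)) (T.l 1))))) (T.l 1)), by decide +kernel⟩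

def B022L_373 :
    ∃ t, chk3 (onCell 0 67108864 0 1073741824 587336777 62277027 (corW 3 c0B eng mog cB022L gB3q0 gB7q2 gB3q2 gB4q2 dB3q0 dB7q2 dB3q2 dB4q2 true true)) t 1 1 1 = true :=
  ⟨(T.b (T.b (T.b (T.b (T.b (T.a (T.a (T.l 204) (T.a (T.l 204) (T.l 0))) (T.a (T.l 0) (T.l 0))) (T.a (T.l 204) (T.a (T.l 0) (T.l 0)))) (T.a (T.l 204) (T.a (T.l 0) (T.l 0)))) (T.a (T.l 0) (T.a (T.b (T.l 0) (T.l 0)) (T.l 0)))) (T.b (T.a (T.l 0) (T.a (T.b (T.l 0) (T.l 1)) (T.l 0))) (T.l 1))) (T.l 1)), by decide +kernel⟩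

def B022L_374 :
    ∃ t, chk3 (onCell 0 67108864 0 1073741824 587336777 62277027 (corW 3 c0B eng mog cB022L gB3q0 gB7q2 gB4q2 gB5q2 dB3q0 dB7q2 dB4q2 dB5q2 true false)) t 1 1 1 = true :=
  ⟨(T.l 1), by decide +kernel⟩

def B022L_470 :
    ∃ t, chk3 (onCell 0 67108864 0 1073741824 587336777 62277027 (corW 3 c0B eng mog cB022L gB4q0 gB7q2 gB0q2 gB1q2 dB4q0 dB7q2 dB0q2 dB1q2 true true)) t 1 1 1 = true :=
  ⟨(T.b (T.b (T.l 2) (T.b (T.b (T.l 2) (T.a (T.l 816) (T.b (T.l 2) (T.a (T.l 816) (T.l 64))))) (T.a (T.l 0) (T.b (T.a (T.l 816) (T.b (T.l 0) (T.l 1))) (T.l 1))))) (T.l 1)), by decide +kernel⟩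

def B022L_471 :
    ∃ t, chk3 (onCell 0 67108864 0 1073741824 587336777 62277027 (corW 3 c0B eng mog cB022L gB4q0 gB7q2 gB1q2 gB2q2 dB4q0 dB7q2 dB1q2 dB2q2 true true)) t 1 1 1 = true :=
  ⟨(T.b (T.b (T.b (T.l 2) (T.l 2)) (T.b (T.a (T.l 816) (T.b (T.a (T.b (T.l 2) (T.l 0)) (T.l 68)) (T.a (T.b (T.l 0) (T.l 816)) (T.l 0)))) (T.l 1))) (T.l 1)), by decide +kernel⟩

def B022L_472 :
    ∃ t, chk3 (onCell 0 67108864 0 1073741824 587336777 62277027 (corW 3 c0B eng mog cB022L gB4q0 gB7q2 gB2q2 gB3q2 dB4q0 dB7q2 dB2q2 dB3q2 true true)) t 1 1 1 = true :=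
  ⟨(T.b (T.b (T.b (T.l 2) (T.a (T.l 0) (T.b (T.l 2) (T.a (T.b (T.l 0) (T.l 0)) (T.l 0))))) (T.b (T.a (T.l 816) (T.b (T.a (T.l 0) (T.l 0)) (T.l 1))) (T.l 1))) (T.l 1)), by decide +kernel⟩

def B022L_473 :
    ∃ t, chk3 (onCell 0 67108864 0 1073741824 587336777 62277027 (corW 3 c0B eng mog cB022L gB4q0 gB7q2 gB3q2 gB4q2 dB4q0 dB7q2 dB3q2 dB4q2 true true)) t 1 1 1 = true :=
  ⟨(T.b (T.b (T.b (T.b (T.b (T.b (T.a (T.a (T.l 204) (T.a (T.l 204) (T.l 204))) (T.a (T.l 0) (T.l 0))) (T.a (T.l 204) (T.a (T.l 0) (T.l 0)))) (T.a (T.l 204) (T.a (T.l 0) (T.l 0)))) (T.a (T.l 0) (T.a (T.l 0) (T.l 0)))) (T.a (T.l 0) (T.a (T.l 4) (T.l 0)))) (T.l 1)) (T.l 1)), by decide +kernel⟩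

def B022L_474 :
    ∃ t, chk3 (onCell 0 67108864 0 1073741824 587336777 62277027 (corW 3 c0B eng mog cB022L gB4q0 gB7q2 gB4q2 gB5q2 dB4q0 dB7q2 dB4q2 dB5q2 true false)) t 1 1 1 = true :=
  ⟨(T.l 1), by decide +kernel⟩

def B022R_006 :
    ∃ t, chk3 (onCell 0 67108864 0 1073741824 587336777 62277027 (corW 3 c0B eng mog cB022R gB0q0 gB0q2 gB6q2 gB7q2 dB0q0 dB0q2 dB6q2 dB7q2 false true)) t 1 1 1 = true :=
  ⟨(T.a (T.a (T.b (T.b (T.b (T.c (T.b (T.l 204) (T.l 204)) (T.l 204)) (T.l 204)) (T.l 204)) (T.l 0)) (T.b (T.a (T.b (T.b (T.l 204) (T.l 204)) (T.l 204)) (T.b (T.a (T.l 204) (T.l 204)) (T.l 204))) (T.l 20))) (T.a (T.b (T.b (T.a (T.a (T.l 204) (T.l 204)) (T.b (T.l 204) (T.l 204))) (T.l 16)) (T.l 0)) (T.b (T.b (T.a (T.l 204) (T.l 204)) (T.l 0)) (T.l 0)))), by decide +kernel⟩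

def B022R_016 :
    ∃ t, chk3 (onCell 0 67108864 0 1073741824 587336777 62277027 (corW 3 c0B eng mog cB022R gB0q0 gB1q2 gB6q2 gB7q2 dB0q0 dB1q2 dB6q2 dB7q2 false true)) t 1 1 1 = true :=
  ⟨(T.a (T.a (T.b (T.b (T.l 204) (T.l 204)) (T.l 0)) (T.a (T.b (T.l 204) (T.l 0)) (T.b (T.b (T.l 204) (T.l 204)) (T.l 0)))) (T.a (T.b (T.a (T.b (T.l 204) (T.l 204)) (T.l 0)) (T.l 0)) (T.b (T.a (T.l 0) (T.l 0)) (T.l 0)))), by decide +kernel⟩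

def B022R_026 :
    ∃ t, chk3 (onCell 0 67108864 0 1073741824 587336777 62277027 (corW 3 c0B eng mog cB022R gB0q0 gB2q2 gB6q2 gB7q2 dB0q0 dB2q2 dB6q2 dB7q2 false true)) t 1 1 1 = true :=
  ⟨(T.a (T.a (T.b (T.l 0) (T.l 0)) (T.a (T.b (T.l 0) (T.l 0)) (T.b (T.l 0) (T.l 0)))) (T.a (T.b (T.b (T.l 0) (T.l 0)) (T.l 0)) (T.b (T.l 16) (T.l 0)))), by decide +kernel⟩

def B022R_036 :
    ∃ t, chk3 (onCell 0 67108864 0 1073741824 587336777 62277027 (corW 3 c0B eng mog cB022R gB0q0 gB3q2 gB6q2 gB7q2 dB0q0 dB3q2 dB6q2 dB7q2 false true)) t 1 1 1 = true :=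
  ⟨(T.a (T.a (T.b (T.l 0) (T.l 816)) (T.a (T.l 0) (T.l 0))) (T.a (T.b (T.l 0) (T.l 0)) (T.b (T.l 0) (T.l 816)))), by decide +kernel⟩

def B022R_046 :
    ∃ t, chk3 (onCell 0 67108864 0 1073741824 587336777 62277027 (corW 3 c0B eng mog cB022R gB0q0 gB4q2 gB6q2 gB7q2 dB0q0 dB4q2 dB6q2 dB7q2 false true)) t 1 1 1 = true :=
  ⟨(T.b (T.a (T.a (T.l 0) (T.l 0)) (T.b (T.l 2) (T.l 0))) (T.a (T.a (T.l 816) (T.b (T.l 816) (T.l 816))) (T.a (T.l 816) (T.l 816)))), by decide +kernel⟩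

def B022R_106 :
    ∃ t, chk3 (onCell 0 67108864 0 1073741824 587336777 62277027 (corW 3 c0B eng mog cB022R gB1q0 gB0q2 gB6q2 gB7q2 dB1q0 dB0q2 dB6q2 dB7q2 false true)) t 1 1 1 = true :=
  ⟨(T.a (T.a (T.b (T.b (T.b (T.a (T.b (T.l 204) (T.l 204)) (T.l 220)) (T.l 204)) (T.l 204)) (T.l 0)) (T.b (T.a (T.b (T.b (T.l 204) (T.l 204)) (T.l 204)) (T.b (T.a (T.l 204) (T.l 204)) (T.l 204))) (T.l 0))) (T.a (T.b (T.b (T.a (T.c (T.l 204) (T.l 220)) (T.b (T.l 204) (T.l 204))) (T.l 0)) (T.l 0)) (T.b (T.b (T.a (T.l 204) (T.l 204)) (T.l 0)) (T.l 0)))), by decide +kernel⟩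

def B022R_116 :
    ∃ t, chk3 (onCell 0 67108864 0 1073741824 587336777 62277027 (corW 3 c0B eng mog cB022R gB1q0 gB1q2 gB6q2 gB7q2 dB1q0 dB1q2 dB6q2 dB7q2 false true)) t 1 1 1 = true :=
  ⟨(T.a (T.a (T.b (T.b (T.l 204) (T.l 204)) (T.l 0)) (T.a (T.b (T.l 204) (T.l 0)) (T.b (T.b (T.l 204) (T.l 0)) (T.l 0)))) (T.a (T.b (T.a (T.l 16) (T.l 0)) (T.l 0)) (T.b (T.a (T.l 0) (T.l 0)) (T.l 0)))), by decide +kernel⟩

def B022R_126 :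
    ∃ t, chk3 (onCell 0 67108864 0 1073741824 587336777 62277027 (corW 3 c0B eng mog cB022R gB1q0 gB2q2 gB6q2 gB7q2 dB1q0 dB2q2 dB6q2 dB7q2 false true)) t 1 1 1 = true :=
  ⟨(T.a (T.a (T.b (T.l 0) (T.l 0)) (T.a (T.l 0) (T.b (T.l 0) (T.l 0)))) (T.a (T.b (T.b (T.l 0) (T.l 0)) (T.l 0)) (T.b (T.l 0) (T.l 0)))), by decide +kernel⟩

def B022R_136 :
    ∃ t, chk3 (onCell 0 67108864 0 1073741824 587336777 62277027 (corW 3 c0B eng mog cB022R gB1q0 gB3q2 gB6q2 gB7q2 dB1q0 dB3q2 dB6q2 dB7q2 false true)) t 1 1 1 = true :=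
  ⟨(T.a (T.a (T.l 0) (T.a (T.l 0) (T.l 0))) (T.a (T.b (T.l 0) (T.l 816)) (T.b (T.l 0) (T.l 816)))), by decide +kernel⟩

def B022R_146 :
    ∃ t, chk3 (onCell 0 67108864 0 1073741824 587336777 62277027 (corW 3 c0B eng mog cB022R gB1q0 gB4q2 gB6q2 gB7q2 dB1q0 dB4q2 dB6q2 dB7q2 false true)) t 1 1 1 = true :=
  ⟨(T.b (T.a (T.a (T.l 0) (T.l 0)) (T.l 64)) (T.a (T.a (T.l 816) (T.l 816)) (T.b (T.l 816) (T.l 816)))), by decide +kernel⟩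

def B022R_206 :
    ∃ t, chk3 (onCell 0 67108864 0 1073741824 587336777 62277027 (corW 3 c0B eng mog cB022R gB2q0 gB0q2 gB6q2 gB7q2 dB2q0 dB0q2 dB6q2 dB7q2 false true)) t 1 1 1 = true :=
  ⟨(T.a (T.a (T.b (T.b (T.b (T.c (T.b (T.l 204) (T.l 204)) (T.l 204)) (T.l 204)) (T.l 0)) (T.l 0)) (T.b (T.a (T.b (T.b (T.l 204) (T.l 204)) (T.l 0)) (T.b (T.a (T.l 204) (T.l 204)) (T.l 0))) (T.l 0))) (T.a (T.b (T.b (T.a (T.a (T.l 204) (T.l 204)) (T.b (T.l 204) (T.l 204))) (T.l 0)) (T.l 0)) (T.b (T.b (T.a (T.l 204) (T.l 204)) (T.l 0)) (T.l 0)))), by decide +kernel⟩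

def B022R_216 :
    ∃ t, chk3 (onCell 0 67108864 0 1073741824 587336777 62277027 (corW 3 c0B eng mog cB022R gB2q0 gB1q2 gB6q2 gB7q2 dB2q0 dB1q2 dB6q2 dB7q2 false true)) t 1 1 1 = true :=
  ⟨(T.a (T.a (T.b (T.b (T.l 204) (T.l 0)) (T.l 0)) (T.a (T.b (T.l 0) (T.l 0)) (T.b (T.b (T.l 204) (T.l 0)) (T.l 0)))) (T.a (T.b (T.a (T.b (T.l 204) (T.l 0)) (T.l 0)) (T.l 0)) (T.b (T.a (T.l 0) (T.l 16)) (T.l 0)))), by decide +kernel⟩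

def B022R_226 :
    ∃ t, chk3 (onCell 0 67108864 0 1073741824 587336777 62277027 (corW 3 c0B eng mog cB022R gB2q0 gB2q2 gB6q2 gB7q2 dB2q0 dB2q2 dB6q2 dB7q2 false true)) t 1 1 1 = true :=
  ⟨(T.a (T.a (T.b (T.l 0) (T.l 816)) (T.a (T.l 16) (T.b (T.l 0) (T.l 816)))) (T.a (T.b (T.b (T.l 0) (T.l 0)) (T.l 816)) (T.b (T.l 0) (T.l 816)))), by decide +kernel⟩

def B022R_236 :
    ∃ t, chk3 (onCell 0 67108864 0 1073741824 587336777 62277027 (corW 3 c0B eng mog cB022R gB2q0 gB3q2 gB6q2 gB7q2 dB2q0 dB3q2 dB6q2 dB7q2 false true)) t 1 1 1 = true :=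
  ⟨(T.a (T.a (T.l 0) (T.a (T.l 0) (T.l 0))) (T.a (T.b (T.l 0) (T.l 816)) (T.b (T.l 0) (T.l 816)))), by decide +kernel⟩

def B022R_246 :
    ∃ t, chk3 (onCell 0 67108864 0 1073741824 587336777 62277027 (corW 3 c0B eng mog cB022R gB2q0 gB4q2 gB6q2 gB7q2 dB2q0 dB4q2 dB6q2 dB7q2 false true)) t 1 1 1 = true :=
  ⟨(T.b (T.l 2) (T.a (T.l 2) (T.l 816))), by decide +kernel⟩

def B022R_306 :
    ∃ t, chk3 (onCell 0 67108864 0 1073741824 587336777 62277027 (corW 3 c0B eng mog cB022R gB3q0 gB0q2 gB6q2 gB7q2 dB3q0 dB0q2 dB6q2 dB7q2 false true)) t 1 1 1 = true :=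
  ⟨(T.a (T.a (T.b (T.b (T.b (T.c (T.b (T.l 204) (T.l 204)) (T.l 204)) (T.l 204)) (T.l 0)) (T.l 0)) (T.b (T.a (T.b (T.c (T.l 220) (T.l 204)) (T.l 0)) (T.b (T.b (T.c (T.l 220) (T.l 204)) (T.l 204)) (T.l 0))) (T.l 0))) (T.a (T.b (T.b (T.a (T.a (T.l 204) (T.l 204)) (T.b (T.l 204) (T.l 204))) (T.l 0)) (T.l 0)) (T.b (T.b (T.a (T.l 220) (T.l 220)) (T.l 0)) (T.l 0)))), by decide +kernel⟩

def B022R_316 :
    ∃ t, chk3 (onCell 0 67108864 0 1073741824 587336777 62277027 (corW 3 c0B eng mog cB022R gB3q0 gB1q2 gB6q2 gB7q2 dB3q0 dB1q2 dB6q2 dB7q2 false true)) t 1 1 1 = true :=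
  ⟨(T.a (T.a (T.b (T.b (T.l 204) (T.l 0)) (T.l 816)) (T.b (T.a (T.l 16) (T.b (T.l 204) (T.l 0))) (T.l 0))) (T.b (T.a (T.a (T.b (T.l 204) (T.l 0)) (T.l 16)) (T.a (T.l 16) (T.b (T.l 0) (T.l 0)))) (T.b (T.l 4) (T.l 816)))), by decide +kernel⟩

def B022R_326 :
    ∃ t, chk3 (onCell 0 67108864 0 1073741824 587336777 62277027 (corW 3 c0B eng mog cB022R gB3q0 gB2q2 gB6q2 gB7q2 dB3q0 dB2q2 dB6q2 dB7q2 false true)) t 1 1 1 = true :=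
  ⟨(T.a (T.a (T.b (T.l 0) (T.l 816)) (T.a (T.b (T.l 0) (T.l 816)) (T.b (T.l 0) (T.l 816)))) (T.b (T.a (T.b (T.l 0) (T.l 0)) (T.l 16)) (T.b (T.l 0) (T.l 816)))), by decide +kernel⟩

def B022R_336 :
    ∃ t, chk3 (onCell 0 67108864 0 1073741824 587336777 62277027 (corW 3 c0B eng mog cB022R gB3q0 gB3q2 gB6q2 gB7q2 dB3q0 dB3q2 dB6q2 dB7q2 false true)) t 1 1 1 = true :=
  ⟨(T.a (T.a (T.l 16) (T.a (T.l 0) (T.l 16))) (T.b (T.a (T.l 0) (T.l 0)) (T.l 816))), by decide +kernel⟩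

def B022R_346 :
    ∃ t, chk3 (onCell 0 67108864 0 1073741824 587336777 62277027 (corW 3 c0B eng mog cB022R gB3q0 gB4q2 gB6q2 gB7q2 dB3q0 dB4q2 dB6q2 dB7q2 false true)) t 1 1 1 = true :=
  ⟨(T.l 2), by decide +kernel⟩

def B022R_406 :
    ∃ t, chk3 (onCell 0 67108864 0 1073741824 587336777 62277027 (corW 3 c0B eng mog cB022R gB4q0 gB0q2 gB6q2 gB7q2 dB4q0 dB0q2 dB6q2 dB7q2 false true)) t 1 1 1 = true :=
  ⟨(T.a (T.a (T.b (T.b (T.b (T.b (T.c (T.b (T.l 204) (T.l 204)) (T.l 204)) (T.l 204)) (T.l 204)) (T.l 0)) (T.l 816)) (T.b (T.b (T.a (T.b (T.b (T.l 204) (T.l 204)) (T.l 204)) (T.b (T.a (T.l 204) (T.l 204)) (T.l 0))) (T.l 0)) (T.l 0))) (T.b (T.a (T.b (T.a (T.b (T.c (T.l 204) (T.l 204)) (T.l 0)) (T.b (T.l 204) (T.l 0))) (T.l 0)) (T.b (T.b (T.a (T.l 204) (T.l 204)) (T.l 0)) (T.l 0))) (T.a (T.l 816) (T.l 816)))), by decide +kernel⟩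

def B022R_416 :
    ∃ t, chk3 (onCell 0 67108864 0 1073741824 587336777 62277027 (corW 3 c0B eng mog cB022R gB4q0 gB1q2 gB6q2 gB7q2 dB4q0 dB1q2 dB6q2 dB7q2 false true)) t 1 1 1 = true :=
  ⟨(T.a (T.a (T.b (T.b (T.b (T.l 204) (T.l 0)) (T.l 0)) (T.l 816)) (T.b (T.a (T.b (T.l 0) (T.l 0)) (T.b (T.b (T.l 204) (T.l 0)) (T.l 0))) (T.l 816))) (T.b (T.a (T.b (T.a (T.l 0) (T.l 0)) (T.l 0)) (T.b (T.a (T.l 0) (T.l 0)) (T.l 0))) (T.b (T.l 816) (T.l 816)))), by decide +kernel⟩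

def B022R_426 :
    ∃ t, chk3 (onCell 0 67108864 0 1073741824 587336777 62277027 (corW 3 c0B eng mog cB022R gB4q0 gB2q2 gB6q2 gB7q2 dB4q0 dB2q2 dB6q2 dB7q2 false true)) t 1 1 1 = true :=
  ⟨(T.a (T.a (T.b (T.b (T.l 0) (T.l 816)) (T.l 816)) (T.b (T.a (T.l 0) (T.l 0)) (T.l 816))) (T.b (T.a (T.b (T.l 0) (T.l 816)) (T.b (T.l 0) (T.l 816))) (T.l 816))), by decide +kernel⟩

def B022R_436 :
    ∃ t, chk3 (onCell 0 67108864 0 1073741824 587336777 62277027 (corW 3 c0B eng mog cB022R gB4q0 gB3q2 gB6q2 gB7q2 dB4q0 dB3q2 dB6q2 dB7q2 false true)) t 1 1 1 = true :=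
  ⟨(T.b (T.a (T.a (T.l 0) (T.a (T.l 0) (T.l 0))) (T.a (T.l 16) (T.l 0))) (T.a (T.a (T.l 816) (T.l 816)) (T.l 816))), by decide +kernel⟩

def B022R_446 :
    ∃ t, chk3 (onCell 0 67108864 0 1073741824 587336777 62277027 (corW 3 c0B eng mog cB022R gB4q0 gB4q2 gB6q2 gB7q2 dB4q0 dB4q2 dB6q2 dB7q2 false true)) t 1 1 1 = true :=
  ⟨(T.l 2), by decide +kernel⟩

def B101E_000 :
    ∃ t, chk3 (onCell 0 67108864 0 1073741824 587336777 62277027 (corW 3 c0B eng mog cB101E gB0q1 gB0q1 gB0q0 gB1q0 dB0q1 dB0q1 dB0q0 dB1q0 true true)) t 1 1 1 = true :=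
  ⟨(T.l 2), by decide +kernel⟩

def B101E_001 :
    ∃ t, chk3 (onCell 0 67108864 0 1073741824 587336777 62277027 (corW 3 c0B eng mog cB101E gB0q1 gB0q1 gB1q0 gB2q0 dB0q1 dB0q1 dB1q0 dB2q0 true true)) t 1 1 1 = true :=
  ⟨(T.l 2), by decide +kernel⟩

def B101E_002 :
    ∃ t, chk3 (onCell 0 67108864 0 1073741824 587336777 62277027 (corW 3 c0B eng mog cB101E gB0q1 gB0q1 gB2q0 gB3q0 dB0q1 dB0q1 dB2q0 dB3q0 true true)) t 1 1 1 = true :=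
  ⟨(T.l 2), by decide +kernel⟩

def B101E_003 :
    ∃ t, chk3 (onCell 0 67108864 0 1073741824 587336777 62277027 (corW 3 c0B eng mog cB101E gB0q1 gB0q1 gB3q0 gB4q0 dB0q1 dB0q1 dB3q0 dB4q0 true true)) t 1 1 1 = true :=
  ⟨(T.b (T.l 2) (T.l 2)), by decide +kernel⟩

def B101E_004 :
    ∃ t, chk3 (onCell 0 67108864 0 1073741824 587336777 62277027 (corW 3 c0B eng mog cB101E gB0q1 gB0q1 gB4q0 gB5q0 dB0q1 dB0q1 dB4q0 dB5q0 true false)) t 1 1 1 = true :=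
  ⟨(T.a (T.b (T.b (T.a (T.b (T.b (T.l 204) (T.l 204)) (T.b (T.l 204) (T.l 204))) (T.b (T.b (T.l 204) (T.l 204)) (T.b (T.l 204) (T.l 204)))) (T.a (T.b (T.b (T.l 204) (T.l 204)) (T.b (T.l 204) (T.l 204))) (T.b (T.b (T.l 204) (T.l 204)) (T.b (T.l 204) (T.l 204))))) (T.b (T.a (T.b (T.b (T.l 204) (T.l 204)) (T.b (T.l 204) (T.l 204))) (T.b (T.b (T.l 204) (T.l 204)) (T.b (T.l 204) (T.l 204)))) (T.a (T.b (T.b (T.l 204) (T.l 204)) (T.b (T.l 204) (T.l 204))) (T.b (T.b (T.l 204) (T.l 204)) (T.b (T.l 204) (T.l 236)))))) (T.b (T.b (T.a (T.a (T.b (T.l 236) (T.l 204)) (T.b (T.l 236) (T.l 236))) (T.b (T.b (T.l 236) (T.l 236)) (T.b (T.l 236) (T.l 236)))) (T.a (T.a (T.b (T.l 204) (T.l 204)) (T.b (T.l 236) (T.l 204))) (T.b (T.b (T.l 236) (T.l 236)) (T.b (T.l 236) (T.l 236))))) (T.a (T.b (T.a (T.b (T.l 204) (T.l 236)) (T.b (T.l 204) (T.l 236)))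 (T.b (T.a (T.l 236) (T.b (T.l 204) (T.l 204))) (T.a (T.b (T.l 204) (T.l 204)) (T.b (T.l 204) (T.l 204))))) (T.b (T.b (T.b (T.l 236) (T.l 236)) (T.b (T.l 236) (T.l 236))) (T.b (T.a (T.l 236) (T.b (T.l 204) (T.l 204))) (T.b (T.b (T.l 236) (T.l 236)) (T.c (T.l 204) (T.l 204)))))))), by decide +kernel⟩

def B101L_500 :
    ∃ t, chk3 (onCell 0 67108864 0 1073741824 587336777 62277027 (corW 3 c0B eng mog cB101L gB5q1 gB0q1 gB0q0 gB1q0 dB5q1 dB0q1 dB0q0 dB1q0 true true)) t 1 1 1 = true :=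
  ⟨(T.b (T.l 1) (T.b (T.l 1) (T.b (T.l 1) (T.b (T.b (T.b (T.l 1) (T.b (T.l 1) (T.a (T.a (T.l 816) (T.l 816)) (T.c (T.a (T.l 816) (T.l 816)) (T.a (T.l 816) (T.l 820)))))) (T.b (T.a (T.l 816) (T.l 820)) (T.l 816))) (T.a (T.l 816) (T.l 816)))))), by decide +kernel⟩

def B101L_501 :
    ∃ t, chk3 (onCell 0 67108864 0 1073741824 587336777 62277027 (corW 3 c0B eng mog cB101L gB5q1 gB0q1 gB1q0 gB2q0 dB5q1 dB0q1 dB1q0 dB2q0 true true)) t 1 1 1 = true :=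
  ⟨(T.b (T.l 1) (T.b (T.l 1) (T.b (T.l 1) (T.b (T.l 1) (T.l 816))))), by decide +kernel⟩

def B101L_502 :
    ∃ t, chk3 (onCell 0 67108864 0 1073741824 587336777 62277027 (corW 3 c0B eng mog cB101L gB5q1 gB0q1 gB2q0 gB3q0 dB5q1 dB0q1 dB2q0 dB3q0 true true)) t 1 1 1 = true :=
  ⟨(T.l 1), by decide +kernel⟩

def B101L_503 :
    ∃ t, chk3 (onCell 0 67108864 0 1073741824 587336777 62277027 (corW 3 c0B eng mog cB101L gB5q1 gB0q1 gB3q0 gB4q0 dB5q1 dB0q1 dB3q0 dB4q0 true true)) t 1 1 1 = true :=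
  ⟨(T.l 1), by decide +kernel⟩

def B101L_504 :
    ∃ t, chk3 (onCell 0 67108864 0 1073741824 587336777 62277027 (corW 3 c0B eng mog cB101L gB5q1 gB0q1 gB4q0 gB5q0 dB5q1 dB0q1 dB4q0 dB5q0 true false)) t 1 1 1 = true :=
  ⟨(T.l 1), by decide +kernel⟩

def B101L_600 :
    ∃ t, chk3 (onCell 0 67108864 0 1073741824 587336777 62277027 (corW 3 c0B eng mog cB101L gB6q1 gB0q1 gB0q0 gB1q0 dB6q1 dB0q1 dB0q0 dB1q0 true true)) t 1 1 1 = true :=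
  ⟨(T.b (T.l 1) (T.b (T.l 1) (T.b (T.b (T.b (T.b (T.a (T.l 1) (T.b (T.l 1) (T.b (T.l 1) (T.b (T.l 1) (T.c (T.a (T.a (T.l 1) (T.l 816)) (T.l 816)) (T.l 816)))))) (T.a (T.c (T.b (T.a (T.l 816) (T.l 816)) (T.l 816)) (T.l 816)) (T.a (T.c (T.l 816) (T.l 816)) (T.l 816)))) (T.a (T.l 816) (T.l 816))) (T.l 0)) (T.l 2)))), by decide +kernel⟩

def B101L_601 :
    ∃ t, chk3 (onCell 0 67108864 0 1073741824 587336777 62277027 (corW 3 c0B eng mog cB101L gB6q1 gB0q1 gB1q0 gB2q0 dB6q1 dB0q1 dB1q0 dB2q0 true true)) t 1 1 1 = true :=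
  ⟨(T.b (T.l 1) (T.b (T.l 1) (T.b (T.b (T.l 1) (T.l 816)) (T.l 0)))), by decide +kernel⟩

def B101L_602 :
    ∃ t, chk3 (onCell 0 67108864 0 1073741824 587336777 62277027 (corW 3 c0B eng mog cB101L gB6q1 gB0q1 gB2q0 gB3q0 dB6q1 dB0q1 dB2q0 dB3q0 true true)) t 1 1 1 = true :=
  ⟨(T.b (T.l 1) (T.b (T.l 1) (T.b (T.l 1) (T.l 0)))), by decide +kernel⟩

def B101L_603 :
    ∃ t, chk3 (onCell 0 67108864 0 1073741824 587336777 62277027 (corW 3 c0B eng mog cB101L gB6q1 gB0q1 gB3q0 gB4q0 dB6q1 dB0q1 dB3q0 dB4q0 true true)) t 1 1 1 = true :=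
  ⟨(T.l 1), by decide +kernel⟩

def B101L_604 :
    ∃ t, chk3 (onCell 0 67108864 0 1073741824 587336777 62277027 (corW 3 c0B eng mog cB101L gB6q1 gB0q1 gB4q0 gB5q0 dB6q1 dB0q1 dB4q0 dB5q0 true false)) t 1 1 1 = true :=
  ⟨(T.l 1), by decide +kernel⟩

def B101L_700 :
    ∃ t, chk3 (onCell 0 67108864 0 1073741824 587336777 62277027 (corW 3 c0B eng mog cB101L gB7q1 gB0q1 gB0q0 gB1q0 dB7q1 dB0q1 dB0q0 dB1q0 true true)) t 1 1 1 = true :=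
  ⟨(T.b (T.l 1) (T.b (T.b (T.l 1) (T.b (T.b (T.l 1) (T.b (T.b (T.a (T.a (T.l 1) (T.b (T.l 1) (T.b (T.l 1) (T.a (T.l 1) (T.b (T.l 1) (T.a (T.b (T.l 1) (T.l 0)) (T.l 0))))))) (T.b (T.a (T.l 1) (T.a (T.l 1) (T.a (T.l 1) (T.b (T.l 1) (T.b (T.l 1) (T.b (T.l 1) (T.l 0))))))) (T.a (T.b (T.a (T.l 1) (T.b (T.l 1) (T.a (T.b (T.l 1) (T.c (T.l 0) (T.l 0))) (T.c (T.l 0) (T.l 0))))) (T.a (T.b (T.a (T.b (T.l 1) (T.l 0)) (T.c (T.l 0) (T.l 0))) (T.l 0)) (T.l 0))) (T.a (T.b (T.b (T.b (T.l 1) (T.c (T.l 0) (T.c (T.l 0) (T.l 0)))) (T.l 0)) (T.l 0)) (T.l 0))))) (T.a (T.a (T.b (T.b (T.a (T.a (T.l 1) (T.b (T.l 1) (T.b (T.l 1) (T.a (T.l 1) (T.b (T.l 1) (T.l 0)))))) (T.b (T.a (T.l 1) (T.a (T.l 1) (T.a (T.l 1) (T.b (T.l 1) (T.l 0))))) (T.a (T.b (T.a (T.l 1) (T.b (T.l 1) (T.l 0))) (T.l 0)) (T.l 0)))) (T.a (T.a (T.b (T.b (T.c (T.a (T.b (T.l 1) (T.l 0))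 (T.l 0)) (T.a (T.b (T.l 1) (T.l 0)) (T.l 0))) (T.l 0)) (T.l 0)) (T.l 0)) (T.l 0))) (T.l 0)) (T.b (T.a (T.b (T.b (T.a (T.b (T.a (T.l 1) (T.a (T.l 1) (T.l 0))) (T.l 0)) (T.l 0)) (T.l 0)) (T.l 0)) (T.l 0)) (T.l 0))) (T.a (T.l 0) (T.l 0)))) (T.a (T.a (T.l 0) (T.l 0)) (T.l 0)))) (T.b (T.a (T.l 0) (T.l 0)) (T.l 0)))) (T.l 2))), by decide +kernel⟩

def B101L_701 :
    ∃ t, chk3 (onCell 0 67108864 0 1073741824 587336777 62277027 (corW 3 c0B eng mog cB101L gB7q1 gB0q1 gB1q0 gB2q0 dB7q1 dB0q1 dB1q0 dB2q0 true true)) t 1 1 1 = true :=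
  ⟨(T.b (T.l 1) (T.b (T.b (T.l 1) (T.b (T.l 1) (T.a (T.a (T.l 0) (T.l 0)) (T.l 0)))) (T.b (T.l 0) (T.l 204)))), by decide +kernel⟩

def B101L_702 :
    ∃ t, chk3 (onCell 0 67108864 0 1073741824 587336777 62277027 (corW 3 c0B eng mog cB101L gB7q1 gB0q1 gB2q0 gB3q0 dB7q1 dB0q1 dB2q0 dB3q0 true true)) t 1 1 1 = true :=
  ⟨(T.b (T.l 1) (T.b (T.l 1) (T.b (T.l 0) (T.l 204)))), by decide +kernel⟩

def B101L_703 :
    ∃ t, chk3 (onCell 0 67108864 0 1073741824 587336777 62277027 (corW 3 c0B eng mog cB101L gB7q1 gB0q1 gB3q0 gB4q0 dB7q1 dB0q1 dB3q0 dB4q0 true true)) t 1 1 1 = true :=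
  ⟨(T.b (T.l 1) (T.l 1)), by decide +kernel⟩

def B101L_704 :
    ∃ t, chk3 (onCell 0 67108864 0 1073741824 587336777 62277027 (corW 3 c0B eng mog cB101L gB7q1 gB0q1 gB4q0 gB5q0 dB7q1 dB0q1 dB4q0 dB5q0 true false)) t 1 1 1 = true :=
  ⟨(T.l 1), by decide +kernel⟩

def B101R_050 :
    ∃ t, chk3 (onCell 0 67108864 0 1073741824 587336777 62277027 (corW 3 c0B eng mog cB101R gB0q1 gB5q1 gB0q0 gB1q0 dB0q1 dB5q1 dB0q0 dB1q0 true true)) t 1 1 1 = true :=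
  ⟨(T.l 1), by decide +kernel⟩

def B101R_051 :
    ∃ t, chk3 (onCell 0 67108864 0 1073741824 587336777 62277027 (corW 3 c0B eng mog cB101R gB0q1 gB5q1 gB1q0 gB2q0 dB0q1 dB5q1 dB1q0 dB2q0 true true)) t 1 1 1 = true :=
  ⟨(T.l 1), by decide +kernel⟩

def B101R_052 :
    ∃ t, chk3 (onCell 0 67108864 0 1073741824 587336777 62277027 (corW 3 c0B eng mog cB101R gB0q1 gB5q1 gB2q0 gB3q0 dB0q1 dB5q1 dB2q0 dB3q0 true true)) t 1 1 1 = true :=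
  ⟨(T.l 1), by decide +kernel⟩

def B101R_053 :
    ∃ t, chk3 (onCell 0 67108864 0 1073741824 587336777 62277027 (corW 3 c0B eng mog cB101R gB0q1 gB5q1 gB3q0 gB4q0 dB0q1 dB5q1 dB3q0 dB4q0 true true)) t 1 1 1 = true :=
  ⟨(T.l 1), by decide +kernel⟩

def B101R_054 :
    ∃ t, chk3 (onCell 0 67108864 0 1073741824 587336777 62277027 (corW 3 c0B eng mog cB101R gB0q1 gB5q1 gB4q0 gB5q0 dB0q1 dB5q1 dB4q0 dB5q0 true false)) t 1 1 1 = true :=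
  ⟨(T.l 1), by decide +kernel⟩

def B101R_060 :
    ∃ t, chk3 (onCell 0 67108864 0 1073741824 587336777 62277027 (corW 3 c0B eng mog cB101R gB0q1 gB6q1 gB0q0 gB1q0 dB0q1 dB6q1 dB0q0 dB1q0 true true)) t 1 1 1 = true :=
  ⟨(T.l 1), by decide +kernel⟩

def B101R_061 :
    ∃ t, chk3 (onCell 0 67108864 0 1073741824 587336777 62277027 (corW 3 c0B eng mog cB101R gB0q1 gB6q1 gB1q0 gB2q0 dB0q1 dB6q1 dB1q0 dB2q0 true true)) t 1 1 1 = true :=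
  ⟨(T.l 1), by decide +kernel⟩

def B101R_062 :
    ∃ t, chk3 (onCell 0 67108864 0 1073741824 587336777 62277027 (corW 3 c0B eng mog cB101R gB0q1 gB6q1 gB2q0 gB3q0 dB0q1 dB6q1 dB2q0 dB3q0 true true)) t 1 1 1 = true :=
  ⟨(T.l 1), by decide +kernel⟩

def B101R_063 :
    ∃ t, chk3 (onCell 0 67108864 0 1073741824 587336777 62277027 (corW 3 c0B eng mog cB101R gB0q1 gB6q1 gB3q0 gB4q0 dB0q1 dB6q1 dB3q0 dB4q0 true true)) t 1 1 1 = true :=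
  ⟨(T.l 1), by decide +kernel⟩

def B101R_064 :
    ∃ t, chk3 (onCell 0 67108864 0 1073741824 587336777 62277027 (corW 3 c0B eng mog cB101R gB0q1 gB6q1 gB4q0 gB5q0 dB0q1 dB6q1 dB4q0 dB5q0 true false)) t 1 1 1 = true :=
  ⟨(T.l 1), by decide +kernel⟩

def B101R_070 :
    ∃ t, chk3 (onCell 0 67108864 0 1073741824 587336777 62277027 (corW 3 c0B eng mog cB101R gB0q1 gB7q1 gB0q0 gB1q0 dB0q1 dB7q1 dB0q0 dB1q0 true true)) t 1 1 1 = true :=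
  ⟨(T.l 1), by decide +kernel⟩

def B101R_071 :
    ∃ t, chk3 (onCell 0 67108864 0 1073741824 587336777 62277027 (corW 3 c0B eng mog cB101R gB0q1 gB7q1 gB1q0 gB2q0 dB0q1 dB7q1 dB1q0 dB2q0 true true)) t 1 1 1 = true :=
  ⟨(T.l 1), by decide +kernel⟩

def B101R_072 :
    ∃ t, chk3 (onCell 0 67108864 0 1073741824 587336777 62277027 (corW 3 c0B eng mog cB101R gB0q1 gB7q1 gB2q0 gB3q0 dB0q1 dB7q1 dB2q0 dB3q0 true true)) t 1 1 1 = true :=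
  ⟨(T.l 1), by decide +kernel⟩

def B101R_073 :
    ∃ t, chk3 (onCell 0 67108864 0 1073741824 587336777 62277027 (corW 3 c0B eng mog cB101R gB0q1 gB7q1 gB3q0 gB4q0 dB0q1 dB7q1 dB3q0 dB4q0 true true)) t 1 1 1 = true :=
  ⟨(T.l 1), by decide +kernel⟩

def B101R_074 :
    ∃ t, chk3 (onCell 0 67108864 0 1073741824 587336777 62277027 (corW 3 c0B eng mog cB101R gB0q1 gB7q1 gB4q0 gB5q0 dB0q1 dB7q1 dB4q0 dB5q0 true false)) t 1 1 1 = true :=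
  ⟨(T.l 1), by decide +kernel⟩

def B102E_000_1_2_1 :
    ∃ t, chk3 (onCell 0 67108864 0 1073741824 587336777 62277027 (corW 3 c0B eng mog cB102E gB0q1 gB0q2 gB0q0 gB1q0 dB0q1 dB0q2 dB0q0 dB1q0 true true)) t 1 2 1 = true :=
  ⟨(T.b (T.l 1) (T.b (T.l 1) (T.a (T.b (T.l 1) (T.a (T.b (T.l 1) (T.a (T.b (T.l 1) (T.a (T.b (T.l 1) (T.a (T.b (T.l 1) (T.a (T.b (T.l 1) (T.a (T.b (T.l 1) (T.b (T.l 1) (T.l 0))) (T.l 1))) (T.l 1))) (T.l 1))) (T.l 1))) (T.l 1))) (T.l 1))) (T.l 1)))), by decide +kernel⟩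

def B102E_000_2_48_1 :
    ∃ t, chk3 (onCell 0 67108864 0 1073741824 587336777 62277027 (corW 3 c0B eng mog cB102E gB0q1 gB0q2 gB0q0 gB1q0 dB0q1 dB0q2 dB0q0 dB1q0 true true)) t 2 48 1 = true :=
  ⟨(T.a (T.b (T.b (T.a (T.b (T.a (T.b (T.b (T.a (T.c (T.l 0) (T.l 0)) (T.b (T.l 1) (T.a (T.l 0) (T.l 1)))) (T.l 0)) (T.l 0)) (T.b (T.a (T.b (T.l 1) (T.b (T.a (T.l 0) (T.l 1)) (T.l 0))) (T.l 1)) (T.a (T.l 0) (T.c (T.l 0) (T.l 0))))) (T.c (T.l 0) (T.l 0))) (T.b (T.a (T.b (T.l 1) (T.b (T.a (T.a (T.b (T.l 1) (T.l 0)) (T.l 1)) (T.l 1)) (T.a (T.l 0) (T.a (T.l 0) (T.l 1))))) (T.l 1)) (T.b (T.a (T.l 0) (T.b (T.a (T.c (T.l 0) (T.l 0)) (T.l 1)) (T.c (T.l 0) (T.l 0)))) (T.l 0)))) (T.a (T.c (T.l 0) (T.l 0)) (T.c (T.l 0) (T.l 0)))) (T.a (T.l 0) (T.c (T.l 0) (T.l 0)))) (T.b (T.b (T.a (T.b (T.l 1) (T.b (T.a (T.a (T.a (T.a (T.b (T.l 1) (T.l 0)) (T.l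 1)) (T.l 1)) (T.l 1)) (T.l 1)) (T.a (T.a (T.l 0) (T.b (T.c (T.l 0) (T.l 0)) (T.l 0))) (T.b (T.l 1) (T.a (T.l 0) (T.l 1)))))) (T.l 1)) (T.a (T.a (T.l 0) (T.c (T.l 0) (T.c (T.l 0) (T.l 0)))) (T.b (T.b (T.a (T.b (T.a (T.a (T.l 1) (T.l 1)) (T.l 1)) (T.c (T.l 0) (T.l 0))) (T.l 1)) (T.a (T.l 0) (T.a (T.l 0) (T.b (T.l 1) (T.l 0))))) (T.l 0)))) (T.b (T.c (T.l 0) (T.l 0)) (T.l 0)))), by decide +kernel⟩

def B102E_000_3_48_1 :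
    ∃ t, chk3 (onCell 0 67108864 0 1073741824 587336777 62277027 (corW 3 c0B eng mog cB102E gB0q1 gB0q2 gB0q0 gB1q0 dB0q1 dB0q2 dB0q0 dB1q0 true true)) t 3 48 1 = true :=
  ⟨(T.b (T.a (T.b (T.l 1) (T.b (T.a (T.a (T.a (T.b (T.l 1) (T.a (T.l 1) (T.l 1))) (T.l 1)) (T.l 1)) (T.l 1)) (T.a (T.b (T.a (T.l 0) (T.b (T.l 1) (T.c (T.l 0) (T.l 0)))) (T.l 0)) (T.a (T.b (T.l 1) (T.b (T.a (T.l 1) (T.l 1)) (T.l 0))) (T.l 1))))) (T.l 1)) (T.a (T.b (T.a (T.l 0) (T.a (T.l 0) (T.c (T.l 0) (T.c (T.l 0) (T.l 0))))) (T.l 0)) (T.b (T.b (T.a (T.b (T.a (T.a (T.l 1) (T.l 1)) (T.l 1)) (T.a (T.l 0) (T.a (T.l 0) (T.l 1)))) (T.l 1)) (T.a (T.l 0) (T.b (T.a (T.l 0) (T.l 1)) (T.l 0)))) (T.c (T.l 0) (T.l 0))))), by decide +kernel⟩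

def B102E_000_1_49_1 :
    ∃ t, chk3 (onCell 0 67108864 0 1073741824 587336777 62277027 (corW 3 c0B eng mog cB102E gB0q1 gB0q2 gB0q0 gB1q0 dB0q1 dB0q2 dB0q0 dB1q0 true true)) t 1 49 1 = true :=
  ⟨(T.a (T.a (T.a (T.l 0) (T.c (T.l 0) (T.l 0))) (T.c (T.a (T.l 204) (T.l 204)) (T.l 0))) (T.a (T.c (T.l 0) (T.l 0)) (T.b (T.c (T.l 0) (T.l 0)) (T.l 32)))), by decide +kernel⟩

def B102E_000_1_25_1 :
    ∃ t, chk3 (onCell 0 67108864 0 1073741824 587336777 62277027 (corW 3 c0B eng mog cB102E gB0q1 gB0q2 gB0q0 gB1q0 dB0q1 dB0q2 dB0q0 dB1q0 true true)) t 1 25 1 = true :=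
  ⟨(T.a (T.l 2) (T.l 2)), by decide +kernel⟩

def B102E_000_1_13_1 :
    ∃ t, chk3 (onCell 0 67108864 0 1073741824 587336777 62277027 (corW 3 c0B eng mog cB102E gB0q1 gB0q2 gB0q0 gB1q0 dB0q1 dB0q2 dB0q0 dB1q0 true true)) t 1 13 1 = true :=
  ⟨(T.l 2), by decide +kernel⟩

def B102E_000_1_7_1 :
    ∃ t, chk3 (onCell 0 67108864 0 1073741824 587336777 62277027 (corW 3 c0B eng mog cB102E gB0q1 gB0q2 gB0q0 gB1q0 dB0q1 dB0q2 dB0q0 dB1q0 true true)) t 1 7 1 = true :=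
  ⟨(T.l 2), by decide +kernel⟩

theorem B102E_000_1_48_1 :
    ∃ t, chk3 (onCell 0 67108864 0 1073741824 587336777 62277027 (corW 3 c0B eng mog cB102E gB0q1 gB0q2 gB0q0 gB1q0 dB0q1 dB0q2 dB0q0 dB1q0 true true)) t 1 48 1 = true :=
  ex3_a B102E_000_2_48_1 B102E_000_3_48_1
theorem B102E_000_1_24_1 :
    ∃ t, chk3 (onCell 0 67108864 0 1073741824 587336777 62277027 (corW 3 c0B eng mog cB102E gB0q1 gB0q2 gB0q0 gB1q0 dB0q1 dB0q2 dB0q0 dB1q0 true true)) t 1 24 1 = true :=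
  ex3_b B102E_000_1_48_1 B102E_000_1_49_1
theorem B102E_000_1_12_1 :
    ∃ t, chk3 (onCell 0 67108864 0 1073741824 587336777 62277027 (corW 3 c0B eng mog cB102E gB0q1 gB0q2 gB0q0 gB1q0 dB0q1 dB0q2 dB0q0 dB1q0 true true)) t 1 12 1 = true :=
  ex3_b B102E_000_1_24_1 B102E_000_1_25_1
theorem B102E_000_1_6_1 :
    ∃ t, chk3 (onCell 0 67108864 0 1073741824 587336777 62277027 (corW 3 c0B eng mog cB102E gB0q1 gB0q2 gB0q0 gB1q0 dB0q1 dB0q2 dB0q0 dB1q0 true true)) t 1 6 1 = true :=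
  ex3_b B102E_000_1_12_1 B102E_000_1_13_1
theorem B102E_000_1_3_1 :
    ∃ t, chk3 (onCell 0 67108864 0 1073741824 587336777 62277027 (corW 3 c0B eng mog cB102E gB0q1 gB0q2 gB0q0 gB1q0 dB0q1 dB0q2 dB0q0 dB1q0 true true)) t 1 3 1 = true :=
  ex3_b B102E_000_1_6_1 B102E_000_1_7_1
theorem B102E_000 :
    ∃ t, chk3 (onCell 0 67108864 0 1073741824 587336777 62277027 (corW 3 c0B eng mog cB102E gB0q1 gB0q2 gB0q0 gB1q0 dB0q1 dB0q2 dB0q0 dB1q0 true true)) t 1 1 1 = true :=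
  ex3_b B102E_000_1_2_1 B102E_000_1_3_1

def B102E_001 :
    ∃ t, chk3 (onCell 0 67108864 0 1073741824 587336777 62277027 (corW 3 c0B eng mog cB102E gB0q1 gB0q2 gB1q0 gB2q0 dB0q1 dB0q2 dB1q0 dB2q0 true true)) t 1 1 1 = true :=
  ⟨(T.b (T.b (T.l 1) (T.l 1)) (T.b (T.b (T.b (T.b (T.l 1) (T.a (T.a (T.c (T.l 0) (T.l 0)) (T.c (T.l 0) (T.l 0))) (T.b (T.l 1) (T.a (T.l 204) (T.l 0))))) (T.a (T.b (T.a (T.l 204) (T.l 204)) (T.l 204)) (T.a (T.b (T.l 204) (T.l 204)) (T.b (T.l 0) (T.l 204))))) (T.b (T.b (T.a (T.l 204) (T.a (T.l 204) (T.l 204))) (T.l 2)) (T.l 2))) (T.l 2))), by decide +kernel⟩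

def B102E_002 :
    ∃ t, chk3 (onCell 0 67108864 0 1073741824 587336777 62277027 (corW 3 c0B eng mog cB102E gB0q1 gB0q2 gB2q0 gB3q0 dB0q1 dB0q2 dB2q0 dB3q0 true true)) t 1 1 1 = true :=
  ⟨(T.b (T.l 1) (T.b (T.b (T.a (T.b (T.l 1) (T.b (T.l 1) (T.l 236))) (T.l 1)) (T.a (T.b (T.a (T.l 204) (T.l 204)) (T.a (T.l 204) (T.l 204))) (T.a (T.b (T.l 204) (T.b (T.l 204) (T.l 2))) (T.b (T.b (T.l 204) (T.l 204)) (T.b (T.l 204) (T.l 2)))))) (T.l 2))), by decide +kernel⟩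

def B102E_003 :
    ∃ t, chk3 (onCell 0 67108864 0 1073741824 587336777 62277027 (corW 3 c0B eng mog cB102E gB0q1 gB0q2 gB3q0 gB4q0 dB0q1 dB0q2 dB3q0 dB4q0 true true)) t 1 1 1 = true :=
  ⟨(T.b (T.l 1) (T.b (T.b (T.l 1) (T.b (T.l 1) (T.a (T.l 236) (T.a (T.b (T.l 204) (T.l 204)) (T.b (T.l 204) (T.l 204)))))) (T.a (T.b (T.b (T.l 204) (T.l 204)) (T.b (T.l 204) (T.l 2))) (T.b (T.a (T.a (T.l 204) (T.b (T.l 204) (T.l 204))) (T.b (T.b (T.l 204) (T.l 204)) (T.b (T.l 204) (T.l 204)))) (T.b (T.a (T.b (T.l 236) (T.l 2)) (T.b (T.l 204) (T.l 2))) (T.l 2)))))), by decide +kernel⟩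

def B102E_004 :
    ∃ t, chk3 (onCell 0 67108864 0 1073741824 587336777 62277027 (corW 3 c0B eng mog cB102E gB0q1 gB0q2 gB4q0 gB5q0 dB0q1 dB0q2 dB4q0 dB5q0 true false)) t 1 1 1 = true :=
  ⟨(T.b (T.l 1) (T.b (T.l 1) (T.b (T.l 1) (T.a (T.a (T.b (T.l 204) (T.l 204)) (T.c (T.l 204) (T.l 204))) (T.a (T.a (T.b (T.l 204) (T.b (T.l 204) (T.l 204))) (T.b (T.l 204) (T.b (T.l 204) (T.l 204)))) (T.b (T.b (T.l 204) (T.l 204)) (T.a (T.b (T.l 204) (T.l 204)) (T.b (T.l 204) (T.l 204))))))))), by decide +kernel⟩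

def B102E_010 :
    ∃ t, chk3 (onCell 0 67108864 0 1073741824 587336777 62277027 (corW 3 c0B eng mog cB102E gB0q1 gB1q2 gB0q0 gB1q0 dB0q1 dB1q2 dB0q0 dB1q0 true true)) t 1 1 1 = true :=
  ⟨(T.b (T.b (T.l 1) (T.b (T.l 1) (T.b (T.l 1) (T.b (T.l 1) (T.a (T.b (T.a (T.b (T.l 1) (T.b (T.a (T.a (T.b (T.l 1) (T.b (T.a (T.l 0) (T.l 1)) (T.l 0))) (T.l 1)) (T.l 1)) (T.a (T.a (T.l 0) (T.c (T.l 0) (T.l 816))) (T.b (T.a (T.b (T.l 1) (T.a (T.l 816) (T.l 1))) (T.l 1)) (T.a (T.l 816) (T.b (T.l 1) (T.c (T.l 816) (T.l 816)))))))) (T.l 1)) (T.a (T.a (T.l 0) (T.c (T.l 0) (T.l 0))) (T.b (T.a (T.b (T.c (T.b (T.a (T.l 820) (T.l 1)) (T.l 816)) (T.a (T.l 816) (T.b (T.l 1) (T.l 816)))) (T.l 0)) (T.b (T.a (T.a (T.b (T.l 1) (T.c (T.l 816) (T.l 816))) (T.l 1)) (T.l 1)) (T.a (T.l 816) (T.c (T.l 816) (T.l 816))))) (T.l 0)))) (T.b (T.l 1) (T.a (T.b (T.a (T.a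 (T.b (T.l 1) (T.b (T.l 1) (T.l 816))) (T.l 1)) (T.l 1)) (T.a (T.c (T.l 0) (T.l 0)) (T.b (T.b (T.a (T.a (T.l 816) (T.l 1)) (T.l 1)) (T.c (T.l 816) (T.l 816))) (T.l 0)))) (T.b (T.l 1) (T.b (T.l 1) (T.a (T.a (T.l 816) (T.b (T.l 1) (T.l 816))) (T.a (T.b (T.l 1) (T.c (T.l 0) (T.l 816))) (T.l 1)))))))))))) (T.b (T.b (T.b (T.a (T.b (T.a (T.l 0) (T.l 0)) (T.l 2)) (T.a (T.b (T.c (T.l 0) (T.l 0)) (T.l 0)) (T.b (T.b (T.a (T.l 0) (T.b (T.a (T.l 0) (T.c (T.l 0) (T.l 0))) (T.l 0))) (T.l 0)) (T.l 0)))) (T.l 2)) (T.l 2)) (T.l 2))), by decide +kernel⟩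

def B102E_011 :
    ∃ t, chk3 (onCell 0 67108864 0 1073741824 587336777 62277027 (corW 3 c0B eng mog cB102E gB0q1 gB1q2 gB1q0 gB2q0 dB0q1 dB1q2 dB1q0 dB2q0 true true)) t 1 1 1 = true :=
  ⟨(T.b (T.b (T.l 1) (T.l 1)) (T.b (T.b (T.b (T.a (T.b (T.b (T.l 1) (T.l 0)) (T.l 0)) (T.b (T.b (T.l 1) (T.l 0)) (T.a (T.l 204) (T.l 0)))) (T.a (T.l 204) (T.a (T.l 204) (T.l 0)))) (T.a (T.l 2) (T.l 2))) (T.l 2))), by decide +kernel⟩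

def B102E_012 :
    ∃ t, chk3 (onCell 0 67108864 0 1073741824 587336777 62277027 (corW 3 c0B eng mog cB102E gB0q1 gB1q2 gB2q0 gB3q0 dB0q1 dB1q2 dB2q0 dB3q0 true true)) t 1 1 1 = true :=
  ⟨(T.b (T.l 1) (T.b (T.b (T.b (T.l 1) (T.a (T.l 204) (T.a (T.l 204) (T.l 0)))) (T.a (T.b (T.l 204) (T.l 204)) (T.a (T.b (T.l 204) (T.l 204)) (T.b (T.l 236) (T.l 204))))) (T.l 2))), by decide +kernel⟩

def B102E_013 :
    ∃ t, chk3 (onCell 0 67108864 0 1073741824 587336777 62277027 (corW 3 c0B eng mog cB102E gB0q1 gB1q2 gB3q0 gB4q0 dB0q1 dB1q2 dB3q0 dB4q0 true true)) t 1 1 1 = true :=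
  ⟨(T.b (T.l 1) (T.b (T.b (T.l 1) (T.b (T.l 1) (T.a (T.l 204) (T.a (T.l 204) (T.l 204))))) (T.a (T.b (T.b (T.l 204) (T.l 204)) (T.b (T.l 204) (T.l 2))) (T.b (T.a (T.b (T.l 204) (T.l 204)) (T.b (T.l 204) (T.l 204))) (T.b (T.a (T.b (T.l 204) (T.l 2)) (T.b (T.l 204) (T.l 2))) (T.l 2)))))), by decide +kernel⟩

def B102E_014 :
    ∃ t, chk3 (onCell 0 67108864 0 1073741824 587336777 62277027 (corW 3 c0B eng mog cB102E gB0q1 gB1q2 gB4q0 gB5q0 dB0q1 dB1q2 dB4q0 dB5q0 true false)) t 1 1 1 = true :=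
  ⟨(T.b (T.l 1) (T.b (T.l 1) (T.b (T.l 1) (T.a (T.a (T.b (T.l 204) (T.l 204)) (T.c (T.l 204) (T.l 204))) (T.a (T.a (T.b (T.l 204) (T.b (T.l 204) (T.l 204))) (T.b (T.l 204) (T.b (T.l 204) (T.l 204)))) (T.b (T.b (T.l 204) (T.l 204)) (T.a (T.b (T.l 204) (T.l 204)) (T.b (T.l 204) (T.l 204))))))))), by decide +kernel⟩

def B102E_020 :
    ∃ t, chk3 (onCell 0 67108864 0 1073741824 587336777 62277027 (corW 3 c0B eng mog cB102E gB0q1 gB2q2 gB0q0 gB1q0 dB0q1 dB2q2 dB0q0 dB1q0 true true)) t 1 1 1 = true :=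
  ⟨(T.b (T.b (T.l 1) (T.b (T.l 1) (T.b (T.a (T.b (T.l 1) (T.b (T.l 1) (T.b (T.a (T.a (T.b (T.l 1) (T.b (T.l 1) (T.c (T.l 204) (T.l 204)))) (T.l 1)) (T.l 1)) (T.a (T.a (T.l 204) (T.c (T.l 204) (T.l 204))) (T.b (T.l 1) (T.a (T.l 0) (T.a (T.l 0) (T.l 1)))))))) (T.l 1)) (T.a (T.b (T.b (T.a (T.l 0) (T.l 0)) (T.l 0)) (T.l 0)) (T.a (T.b (T.b (T.b (T.b (T.a (T.l 0) (T.l 1)) (T.l 0)) (T.l 0)) (T.l 0)) (T.l 0)) (T.b (T.a (T.b (T.b (T.l 1) (T.l 0)) (T.l 0)) (T.b (T.b (T.l 1) (T.b (T.a (T.l 0) (T.l 1)) (T.l 0))) (T.l 0))) (T.l 0))))))) (T.b (T.b (T.l 2) (T.l 2)) (T.l 2))), by decide +kernel⟩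

def B102E_021 :
    ∃ t, chk3 (onCell 0 67108864 0 1073741824 587336777 62277027 (corW 3 c0B eng mog cB102E gB0q1 gB2q2 gB1q0 gB2q0 dB0q1 dB2q2 dB1q0 dB2q0 true true)) t 1 1 1 = true :=
  ⟨(T.b (T.b (T.l 1) (T.b (T.l 1) (T.b (T.l 1) (T.b (T.l 1) (T.a (T.l 0) (T.a (T.l 0) (T.c (T.l 0) (T.l 0)))))))) (T.b (T.b (T.a (T.l 0) (T.a (T.l 204) (T.b (T.l 0) (T.l 204)))) (T.l 2)) (T.l 2))), by decide +kernel⟩

def B102E_022 :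
    ∃ t, chk3 (onCell 0 67108864 0 1073741824 587336777 62277027 (corW 3 c0B eng mog cB102E gB0q1 gB2q2 gB2q0 gB3q0 dB0q1 dB2q2 dB2q0 dB3q0 true true)) t 1 1 1 = true :=
  ⟨(T.b (T.l 1) (T.b (T.b (T.a (T.l 0) (T.b (T.l 1) (T.a (T.l 204) (T.l 204)))) (T.a (T.l 204) (T.a (T.b (T.l 204) (T.l 2)) (T.b (T.l 204) (T.l 2))))) (T.l 2))), by decide +kernel⟩

def B102E_023 :
    ∃ t, chk3 (onCell 0 67108864 0 1073741824 587336777 62277027 (corW 3 c0B eng mog cB102E gB0q1 gB2q2 gB3q0 gB4q0 dB0q1 dB2q2 dB3q0 dB4q0 true true)) t 1 1 1 = true :=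
  ⟨(T.b (T.l 1) (T.b (T.b (T.l 1) (T.a (T.l 204) (T.a (T.b (T.l 204) (T.l 204)) (T.b (T.l 204) (T.l 204))))) (T.a (T.a (T.l 204) (T.b (T.l 204) (T.l 204))) (T.b (T.a (T.b (T.l 204) (T.l 204)) (T.b (T.l 204) (T.l 204))) (T.b (T.a (T.b (T.l 204) (T.l 2)) (T.l 204)) (T.l 2)))))), by decide +kernel⟩

def B102E_024 :
    ∃ t, chk3 (onCell 0 67108864 0 1073741824 587336777 62277027 (corW 3 c0B eng mog cB102E gB0q1 gB2q2 gB4q0 gB5q0 dB0q1 dB2q2 dB4q0 dB5q0 true false)) t 1 1 1 = true :=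
  ⟨(T.b (T.l 1) (T.b (T.l 1) (T.b (T.a (T.l 1) (T.l 1)) (T.a (T.b (T.l 236) (T.a (T.l 204) (T.b (T.l 204) (T.l 204)))) (T.a (T.a (T.b (T.l 204) (T.b (T.l 204) (T.l 204))) (T.b (T.l 204) (T.b (T.l 204) (T.l 204)))) (T.b (T.b (T.l 204) (T.l 204)) (T.b (T.l 236) (T.c (T.l 204) (T.l 236))))))))), by decide +kernel⟩

def B102E_030 :
    ∃ t, chk3 (onCell 0 67108864 0 1073741824 587336777 62277027 (corW 3 c0B eng mog cB102E gB0q1 gB3q2 gB0q0 gB1q0 dB0q1 dB3q2 dB0q0 dB1q0 true true)) t 1 1 1 = true :=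
  ⟨(T.b (T.b (T.l 1) (T.b (T.b (T.l 1) (T.a (T.b (T.l 1) (T.b (T.l 1) (T.b (T.a (T.b (T.l 1) (T.l 204)) (T.l 1)) (T.a (T.l 204) (T.l 204))))) (T.l 1))) (T.b (T.a (T.b (T.a (T.l 204) (T.l 204)) (T.l 0)) (T.a (T.b (T.c (T.l 204) (T.l 204)) (T.l 204)) (T.b (T.a (T.b (T.a (T.l 0) (T.l 0)) (T.l 0)) (T.b (T.b (T.l 1) (T.l 0)) (T.l 0))) (T.l 0)))) (T.a (T.l 2) (T.l 2))))) (T.l 2)), by decide +kernel⟩

def B102E_031 :
    ∃ t, chk3 (onCell 0 67108864 0 1073741824 587336777 62277027 (corW 3 c0B eng mog cB102E gB0q1 gB3q2 gB1q0 gB2q0 dB0q1 dB3q2 dB1q0 dB2q0 true true)) t 1 1 1 = true :=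
  ⟨(T.b (T.b (T.l 1) (T.b (T.l 1) (T.a (T.b (T.b (T.l 1) (T.l 204)) (T.l 204)) (T.b (T.b (T.l 1) (T.a (T.l 204) (T.l 0))) (T.a (T.l 204) (T.l 0)))))) (T.b (T.b (T.a (T.l 204) (T.a (T.l 204) (T.b (T.l 0) (T.l 2)))) (T.l 2)) (T.l 2))), by decide +kernel⟩

def B102E_032 :
    ∃ t, chk3 (onCell 0 67108864 0 1073741824 587336777 62277027 (corW 3 c0B eng mog cB102E gB0q1 gB3q2 gB2q0 gB3q0 dB0q1 dB3q2 dB2q0 dB3q0 true true)) t 1 1 1 = true :=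
  ⟨(T.b (T.b (T.l 1) (T.l 1)) (T.b (T.b (T.a (T.l 204) (T.a (T.l 204) (T.b (T.l 0) (T.l 204)))) (T.a (T.l 204) (T.a (T.l 204) (T.l 204)))) (T.l 2))), by decide +kernel⟩

def B102E_033 :
    ∃ t, chk3 (onCell 0 67108864 0 1073741824 587336777 62277027 (corW 3 c0B eng mog cB102E gB0q1 gB3q2 gB3q0 gB4q0 dB0q1 dB3q2 dB3q0 dB4q0 true true)) t 1 1 1 = true :=
  ⟨(T.b (T.l 1) (T.b (T.a (T.l 0) (T.b (T.l 1) (T.a (T.l 204) (T.b (T.l 204) (T.l 204))))) (T.b (T.a (T.l 204) (T.a (T.b (T.l 204) (T.l 204)) (T.b (T.l 204) (T.l 204)))) (T.b (T.a (T.l 2) (T.l 2)) (T.l 2))))), by decide +kernel⟩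

def B102E_034 :
    ∃ t, chk3 (onCell 0 67108864 0 1073741824 587336777 62277027 (corW 3 c0B eng mog cB102E gB0q1 gB3q2 gB4q0 gB5q0 dB0q1 dB3q2 dB4q0 dB5q0 true false)) t 1 1 1 = true :=
  ⟨(T.b (T.l 1) (T.b (T.l 1) (T.b (T.a (T.l 204) (T.b (T.l 1) (T.a (T.l 204) (T.l 204)))) (T.a (T.b (T.l 204) (T.a (T.l 204) (T.l 236))) (T.a (T.a (T.b (T.l 204) (T.b (T.l 204) (T.l 204))) (T.b (T.l 204) (T.b (T.l 204) (T.l 204)))) (T.b (T.b (T.l 204) (T.l 204)) (T.b (T.l 204) (T.c (T.l 204) (T.l 236))))))))), by decide +kernel⟩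

def B102E_040 :
    ∃ t, chk3 (onCell 0 67108864 0 1073741824 587336777 62277027 (corW 3 c0B eng mog cB102E gB0q1 gB4q2 gB0q0 gB1q0 dB0q1 dB4q2 dB0q0 dB1q0 true true)) t 1 1 1 = true :=
  ⟨(T.b (T.b (T.b (T.l 1) (T.b (T.b (T.l 1) (T.a (T.b (T.b (T.l 1) (T.a (T.c (T.l 204) (T.l 204)) (T.l 204))) (T.a (T.l 204) (T.l 204))) (T.b (T.l 1) (T.a (T.a (T.c (T.l 204) (T.l 204)) (T.l 204)) (T.a (T.l 204) (T.l 204)))))) (T.a (T.a (T.l 204) (T.l 204)) (T.a (T.b (T.a (T.l 204) (T.l 204)) (T.l 204)) (T.a (T.l 204) (T.l 204)))))) (T.b (T.l 2) (T.l 2))) (T.l 2)), by decide +kernel⟩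

def B102E_041 :
    ∃ t, chk3 (onCell 0 67108864 0 1073741824 587336777 62277027 (corW 3 c0B eng mog cB102E gB0q1 gB4q2 gB1q0 gB2q0 dB0q1 dB4q2 dB1q0 dB2q0 true true)) t 1 1 1 = true :=
  ⟨(T.b (T.b (T.b (T.l 1) (T.b (T.l 1) (T.a (T.l 204) (T.b (T.l 1) (T.a (T.l 204) (T.l 204)))))) (T.a (T.l 204) (T.b (T.a (T.b (T.l 204) (T.l 204)) (T.l 204)) (T.l 2)))) (T.l 2)), by decide +kernel⟩

def B102E_042 :
    ∃ t, chk3 (onCell 0 67108864 0 1073741824 587336777 62277027 (corW 3 c0B eng mog cB102E gB0q1 gB4q2 gB2q0 gB3q0 dB0q1 dB4q2 dB2q0 dB3q0 true true)) t 1 1 1 = true :=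
  ⟨(T.b (T.b (T.l 1) (T.a (T.l 204) (T.b (T.b (T.l 1) (T.a (T.l 204) (T.l 204))) (T.b (T.l 0) (T.l 204))))) (T.b (T.a (T.l 204) (T.b (T.b (T.l 0) (T.l 2)) (T.l 2))) (T.l 2))), by decide +kernel⟩

def B102E_043 :
    ∃ t, chk3 (onCell 0 67108864 0 1073741824 587336777 62277027 (corW 3 c0B eng mog cB102E gB0q1 gB4q2 gB3q0 gB4q0 dB0q1 dB4q2 dB3q0 dB4q0 true true)) t 1 1 1 = true :=
  ⟨(T.b (T.b (T.l 1) (T.b (T.l 1) (T.a (T.l 1) (T.l 1)))) (T.b (T.a (T.l 204) (T.b (T.b (T.l 0) (T.l 204)) (T.a (T.l 204) (T.l 204)))) (T.b (T.a (T.l 204) (T.a (T.l 204) (T.b (T.l 204) (T.l 204)))) (T.l 2)))), by decide +kernel⟩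

def B102E_044 :
    ∃ t, chk3 (onCell 0 67108864 0 1073741824 587336777 62277027 (corW 3 c0B eng mog cB102E gB0q1 gB4q2 gB4q0 gB5q0 dB0q1 dB4q2 dB4q0 dB5q0 true false)) t 1 1 1 = true :=
  ⟨(T.b (T.l 1) (T.b (T.l 1) (T.a (T.b (T.l 204) (T.a (T.l 236) (T.b (T.l 204) (T.l 204)))) (T.b (T.a (T.b (T.l 1) (T.l 204)) (T.b (T.l 1) (T.l 204))) (T.a (T.a (T.b (T.l 204) (T.l 236)) (T.b (T.l 204) (T.b (T.l 204) (T.l 204)))) (T.b (T.l 236) (T.a (T.l 236) (T.l 236)))))))), by decide +kernel⟩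

def B102L_500 :
    ∃ t, chk3 (onCell 0 67108864 0 1073741824 587336777 62277027 (corW 3 c0B eng mog cB102L gB5q1 gB0q2 gB0q0 gB1q0 dB5q1 dB0q2 dB0q0 dB1q0 true true)) t 1 1 1 = true :=
  ⟨(T.b (T.l 2) (T.b (T.l 2) (T.l 2))), by decide +kernel⟩

def B102L_501 :
    ∃ t, chk3 (onCell 0 67108864 0 1073741824 587336777 62277027 (corW 3 c0B eng mog cB102L gB5q1 gB0q2 gB1q0 gB2q0 dB5q1 dB0q2 dB1q0 dB2q0 true true)) t 1 1 1 = true :=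
  ⟨(T.b (T.l 2) (T.b (T.l 2) (T.l 0))), by decide +kernel⟩

def B102L_502 :
    ∃ t, chk3 (onCell 0 67108864 0 1073741824 587336777 62277027 (corW 3 c0B eng mog cB102L gB5q1 gB0q2 gB2q0 gB3q0 dB5q1 dB0q2 dB2q0 dB3q0 true true)) t 1 1 1 = true :=
  ⟨(T.b (T.l 2) (T.b (T.b (T.l 2) (T.l 204)) (T.l 0))), by decide +kernel⟩

def B102L_503 :
    ∃ t, chk3 (onCell 0 67108864 0 1073741824 587336777 62277027 (corW 3 c0B eng mog cB102L gB5q1 gB0q2 gB3q0 gB4q0 dB5q1 dB0q2 dB3q0 dB4q0 true true)) t 1 1 1 = true :=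
  ⟨(T.b (T.b (T.a (T.b (T.l 2) (T.l 204)) (T.l 2)) (T.a (T.l 204) (T.a (T.b (T.l 204) (T.l 204)) (T.b (T.l 204) (T.l 204))))) (T.b (T.b (T.a (T.l 204) (T.b (T.l 204) (T.l 204))) (T.l 204)) (T.l 1))), by decide +kernel⟩

def B102L_504 :
    ∃ t, chk3 (onCell 0 67108864 0 1073741824 587336777 62277027 (corW 3 c0B eng mog cB102L gB5q1 gB0q2 gB4q0 gB5q0 dB5q1 dB0q2 dB4q0 dB5q0 true false)) t 1 1 1 = true :=
  ⟨(T.b (T.b (T.b (T.a (T.a (T.l 204) (T.l 204)) (T.a (T.l 204) (T.l 204))) (T.a (T.l 204) (T.b (T.l 204) (T.l 204)))) (T.a (T.l 204) (T.a (T.l 16) (T.b (T.l 204) (T.l 204))))) (T.l 1)), by decide +kernel⟩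

def B102L_510 :
    ∃ t, chk3 (onCell 0 67108864 0 1073741824 587336777 62277027 (corW 3 c0B eng mog cB102L gB5q1 gB1q2 gB0q0 gB1q0 dB5q1 dB1q2 dB0q0 dB1q0 true true)) t 1 1 1 = true :=
  ⟨(T.b (T.l 2) (T.b (T.l 2) (T.l 2))), by decide +kernel⟩

def B102L_511 :
    ∃ t, chk3 (onCell 0 67108864 0 1073741824 587336777 62277027 (corW 3 c0B eng mog cB102L gB5q1 gB1q2 gB1q0 gB2q0 dB5q1 dB1q2 dB1q0 dB2q0 true true)) t 1 1 1 = true :=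
  ⟨(T.b (T.l 2) (T.b (T.l 2) (T.l 0))), by decide +kernel⟩

def B102L_512 :
    ∃ t, chk3 (onCell 0 67108864 0 1073741824 587336777 62277027 (corW 3 c0B eng mog cB102L gB5q1 gB1q2 gB2q0 gB3q0 dB5q1 dB1q2 dB2q0 dB3q0 true true)) t 1 1 1 = true :=
  ⟨(T.b (T.l 2) (T.b (T.b (T.a (T.l 204) (T.l 2)) (T.l 204)) (T.l 0))), by decide +kernel⟩

def B102L_513 :
    ∃ t, chk3 (onCell 0 67108864 0 1073741824 587336777 62277027 (corW 3 c0B eng mog cB102L gB5q1 gB1q2 gB3q0 gB4q0 dB5q1 dB1q2 dB3q0 dB4q0 true true)) t 1 1 1 = true :=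
  ⟨(T.b (T.b (T.b (T.a (T.l 2) (T.l 2)) (T.a (T.l 204) (T.b (T.l 2) (T.l 204)))) (T.a (T.l 204) (T.a (T.b (T.l 204) (T.l 204)) (T.l 204)))) (T.b (T.a (T.l 204) (T.b (T.b (T.l 204) (T.l 204)) (T.l 204))) (T.l 1))), by decide +kernel⟩

def B102L_514 :
    ∃ t, chk3 (onCell 0 67108864 0 1073741824 587336777 62277027 (corW 3 c0B eng mog cB102L gB5q1 gB1q2 gB4q0 gB5q0 dB5q1 dB1q2 dB4q0 dB5q0 true false)) t 1 1 1 = true :=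
  ⟨(T.b (T.b (T.b (T.a (T.a (T.l 204) (T.l 204)) (T.b (T.l 204) (T.l 204))) (T.a (T.l 204) (T.b (T.l 204) (T.l 204)))) (T.a (T.l 1) (T.a (T.b (T.l 204) (T.l 1)) (T.l 204)))) (T.l 1)), by decide +kernel⟩

def B102L_520 :
    ∃ t, chk3 (onCell 0 67108864 0 1073741824 587336777 62277027 (corW 3 c0B eng mog cB102L gB5q1 gB2q2 gB0q0 gB1q0 dB5q1 dB2q2 dB0q0 dB1q0 true true)) t 1 1 1 = true :=
  ⟨(T.b (T.l 2) (T.b (T.l 2) (T.l 2))), by decide +kernel⟩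

def B102L_521 :
    ∃ t, chk3 (onCell 0 67108864 0 1073741824 587336777 62277027 (corW 3 c0B eng mog cB102L gB5q1 gB2q2 gB1q0 gB2q0 dB5q1 dB2q2 dB1q0 dB2q0 true true)) t 1 1 1 = true :=
  ⟨(T.b (T.l 2) (T.b (T.b (T.l 2) (T.l 2)) (T.l 0))), by decide +kernel⟩

def B102L_522 :
    ∃ t, chk3 (onCell 0 67108864 0 1073741824 587336777 62277027 (corW 3 c0B eng mog cB102L gB5q1 gB2q2 gB2q0 gB3q0 dB5q1 dB2q2 dB2q0 dB3q0 true true)) t 1 1 1 = true :=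
  ⟨(T.b (T.b (T.l 2) (T.a (T.l 204) (T.l 2))) (T.b (T.b (T.a (T.l 204) (T.b (T.l 204) (T.l 204))) (T.l 204)) (T.l 0))), by decide +kernel⟩

def B102L_523 :
    ∃ t, chk3 (onCell 0 67108864 0 1073741824 587336777 62277027 (corW 3 c0B eng mog cB102L gB5q1 gB2q2 gB3q0 gB4q0 dB5q1 dB2q2 dB3q0 dB4q0 true true)) t 1 1 1 = true :=
  ⟨(T.b (T.b (T.b (T.a (T.a (T.l 204) (T.l 204)) (T.b (T.l 204) (T.l 204))) (T.a (T.l 204) (T.l 220))) (T.a (T.l 204) (T.a (T.b (T.l 204) (T.l 204)) (T.l 204)))) (T.b (T.a (T.l 204) (T.b (T.b (T.l 204) (T.l 204)) (T.l 1))) (T.l 1))), by decide +kernel⟩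

def B102L_524 :
    ∃ t, chk3 (onCell 0 67108864 0 1073741824 587336777 62277027 (corW 3 c0B eng mog cB102L gB5q1 gB2q2 gB4q0 gB5q0 dB5q1 dB2q2 dB4q0 dB5q0 true false)) t 1 1 1 = true :=
  ⟨(T.b (T.b (T.b (T.a (T.a (T.l 204) (T.l 204)) (T.b (T.l 204) (T.l 204))) (T.a (T.l 1) (T.l 220))) (T.l 1)) (T.l 1)), by decide +kernel⟩

def B102L_530 :
    ∃ t, chk3 (onCell 0 67108864 0 1073741824 587336777 62277027 (corW 3 c0B eng mog cB102L gB5q1 gB3q2 gB0q0 gB1q0 dB5q1 dB3q2 dB0q0 dB1q0 true true)) t 1 1 1 = true :=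
  ⟨(T.b (T.l 2) (T.b (T.l 2) (T.l 2))), by decide +kernel⟩

def B102L_531 :
    ∃ t, chk3 (onCell 0 67108864 0 1073741824 587336777 62277027 (corW 3 c0B eng mog cB102L gB5q1 gB3q2 gB1q0 gB2q0 dB5q1 dB3q2 dB1q0 dB2q0 true true)) t 1 1 1 = true :=
  ⟨(T.b (T.l 2) (T.b (T.b (T.l 2) (T.l 204)) (T.l 0))), by decide +kernel⟩

def B102L_532 :
    ∃ t, chk3 (onCell 0 67108864 0 1073741824 587336777 62277027 (corW 3 c0B eng mog cB102L gB5q1 gB3q2 gB2q0 gB3q0 dB5q1 dB3q2 dB2q0 dB3q0 true true)) t 1 1 1 = true :=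
  ⟨(T.b (T.b (T.l 2) (T.a (T.l 204) (T.b (T.l 2) (T.b (T.l 204) (T.l 204))))) (T.b (T.b (T.a (T.l 204) (T.b (T.l 204) (T.l 204))) (T.l 204)) (T.l 0))), by decide +kernel⟩

def B102L_533 :
    ∃ t, chk3 (onCell 0 67108864 0 1073741824 587336777 62277027 (corW 3 c0B eng mog cB102L gB5q1 gB3q2 gB3q0 gB4q0 dB5q1 dB3q2 dB3q0 dB4q0 true true)) t 1 1 1 = true :=
  ⟨(T.b (T.b (T.a (T.a (T.l 204) (T.b (T.l 204) (T.l 204))) (T.a (T.l 204) (T.l 204))) (T.a (T.l 204) (T.a (T.b (T.l 204) (T.l 204)) (T.l 204)))) (T.l 1)), by decide +kernel⟩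

def B102L_534 :
    ∃ t, chk3 (onCell 0 67108864 0 1073741824 587336777 62277027 (corW 3 c0B eng mog cB102L gB5q1 gB3q2 gB4q0 gB5q0 dB5q1 dB3q2 dB4q0 dB5q0 true false)) t 1 1 1 = true :=
  ⟨(T.l 1), by decide +kernel⟩

def B102L_540 :
    ∃ t, chk3 (onCell 0 67108864 0 1073741824 587336777 62277027 (corW 3 c0B eng mog cB102L gB5q1 gB4q2 gB0q0 gB1q0 dB5q1 dB4q2 dB0q0 dB1q0 true true)) t 1 1 1 = true :=
  ⟨(T.b (T.l 2) (T.l 2)), by decide +kernel⟩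

def B102L_541 :
    ∃ t, chk3 (onCell 0 67108864 0 1073741824 587336777 62277027 (corW 3 c0B eng mog cB102L gB5q1 gB4q2 gB1q0 gB2q0 dB5q1 dB4q2 dB1q0 dB2q0 true true)) t 1 1 1 = true :=
  ⟨(T.b (T.b (T.a (T.a (T.l 204) (T.b (T.l 204) (T.l 204))) (T.a (T.l 204) (T.l 204))) (T.a (T.l 204) (T.b (T.l 220) (T.l 204)))) (T.b (T.b (T.a (T.l 204) (T.l 0)) (T.l 204)) (T.l 0))), by decide +kernel⟩

def B102L_542 :
    ∃ t, chk3 (onCell 0 67108864 0 1073741824 587336777 62277027 (corW 3 c0B eng mog cB102L gB5q1 gB4q2 gB2q0 gB3q0 dB5q1 dB4q2 dB2q0 dB3q0 true true)) t 1 1 1 = true :=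
  ⟨(T.b (T.b (T.a (T.l 1) (T.a (T.l 204) (T.l 204))) (T.l 1)) (T.l 1)), by decide +kernel⟩

def B102L_543 :
    ∃ t, chk3 (onCell 0 67108864 0 1073741824 587336777 62277027 (corW 3 c0B eng mog cB102L gB5q1 gB4q2 gB3q0 gB4q0 dB5q1 dB4q2 dB3q0 dB4q0 true true)) t 1 1 1 = true :=
  ⟨(T.l 1), by decide +kernel⟩

def B102L_544 :
    ∃ t, chk3 (onCell 0 67108864 0 1073741824 587336777 62277027 (corW 3 c0B eng mog cB102L gB5q1 gB4q2 gB4q0 gB5q0 dB5q1 dB4q2 dB4q0 dB5q0 true false)) t 1 1 1 = true :=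
  ⟨(T.l 1), by decide +kernel⟩

def B102L_600 :
    ∃ t, chk3 (onCell 0 67108864 0 1073741824 587336777 62277027 (corW 3 c0B eng mog cB102L gB6q1 gB0q2 gB0q0 gB1q0 dB6q1 dB0q2 dB0q0 dB1q0 true true)) t 1 1 1 = true :=
  ⟨(T.b (T.l 2) (T.l 2)), by decide +kernel⟩

def B102L_601 :
    ∃ t, chk3 (onCell 0 67108864 0 1073741824 587336777 62277027 (corW 3 c0B eng mog cB102L gB6q1 gB0q2 gB1q0 gB2q0 dB6q1 dB0q2 dB1q0 dB2q0 true true)) t 1 1 1 = true :=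
  ⟨(T.b (T.l 2) (T.b (T.l 2) (T.l 0))), by decide +kernel⟩

def B102L_602 :
    ∃ t, chk3 (onCell 0 67108864 0 1073741824 587336777 62277027 (corW 3 c0B eng mog cB102L gB6q1 gB0q2 gB2q0 gB3q0 dB6q1 dB0q2 dB2q0 dB3q0 true true)) t 1 1 1 = true :=
  ⟨(T.b (T.l 2) (T.b (T.b (T.l 2) (T.l 204)) (T.l 0))), by decide +kernel⟩

def B102L_603 :
    ∃ t, chk3 (onCell 0 67108864 0 1073741824 587336777 62277027 (corW 3 c0B eng mog cB102L gB6q1 gB0q2 gB3q0 gB4q0 dB6q1 dB0q2 dB3q0 dB4q0 true true)) t 1 1 1 = true :=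
  ⟨(T.b (T.b (T.a (T.b (T.l 2) (T.l 204)) (T.l 2)) (T.a (T.l 204) (T.a (T.l 220) (T.b (T.l 2) (T.l 204))))) (T.b (T.b (T.a (T.l 204) (T.b (T.l 204) (T.l 204))) (T.l 204)) (T.l 0))), by decide +kernel⟩

def B102L_604 :
    ∃ t, chk3 (onCell 0 67108864 0 1073741824 587336777 62277027 (corW 3 c0B eng mog cB102L gB6q1 gB0q2 gB4q0 gB5q0 dB6q1 dB0q2 dB4q0 dB5q0 true false)) t 1 1 1 = true :=
  ⟨(T.b (T.b (T.b (T.a (T.a (T.l 204) (T.l 204)) (T.a (T.l 204) (T.l 204))) (T.a (T.l 204) (T.b (T.l 204) (T.l 204)))) (T.a (T.l 204) (T.a (T.l 16) (T.b (T.l 204) (T.l 204))))) (T.l 1)), by decide +kernel⟩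

def B102L_610 :
    ∃ t, chk3 (onCell 0 67108864 0 1073741824 587336777 62277027 (corW 3 c0B eng mog cB102L gB6q1 gB1q2 gB0q0 gB1q0 dB6q1 dB1q2 dB0q0 dB1q0 true true)) t 1 1 1 = true :=
  ⟨(T.l 2), by decide +kernel⟩

def B102L_611 :
    ∃ t, chk3 (onCell 0 67108864 0 1073741824 587336777 62277027 (corW 3 c0B eng mog cB102L gB6q1 gB1q2 gB1q0 gB2q0 dB6q1 dB1q2 dB1q0 dB2q0 true true)) t 1 1 1 = true :=
  ⟨(T.b (T.l 2) (T.b (T.l 2) (T.l 0))), by decide +kernel⟩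

def B102L_612 :
    ∃ t, chk3 (onCell 0 67108864 0 1073741824 587336777 62277027 (corW 3 c0B eng mog cB102L gB6q1 gB1q2 gB2q0 gB3q0 dB6q1 dB1q2 dB2q0 dB3q0 true true)) t 1 1 1 = true :=
  ⟨(T.b (T.l 2) (T.b (T.b (T.l 2) (T.l 204)) (T.l 0))), by decide +kernel⟩

def B102L_613 :
    ∃ t, chk3 (onCell 0 67108864 0 1073741824 587336777 62277027 (corW 3 c0B eng mog cB102L gB6q1 gB1q2 gB3q0 gB4q0 dB6q1 dB1q2 dB3q0 dB4q0 true true)) t 1 1 1 = true :=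
  ⟨(T.b (T.b (T.a (T.b (T.l 2) (T.l 204)) (T.l 2)) (T.a (T.l 204) (T.a (T.b (T.l 204) (T.l 204)) (T.l 204)))) (T.b (T.a (T.l 204) (T.b (T.b (T.l 204) (T.l 204)) (T.l 204))) (T.l 0))), by decide +kernel⟩

def B102L_614 :
    ∃ t, chk3 (onCell 0 67108864 0 1073741824 587336777 62277027 (corW 3 c0B eng mog cB102L gB6q1 gB1q2 gB4q0 gB5q0 dB6q1 dB1q2 dB4q0 dB5q0 true false)) t 1 1 1 = true :=
  ⟨(T.b (T.b (T.a (T.a (T.l 204) (T.b (T.l 204) (T.l 204))) (T.a (T.l 204) (T.l 204))) (T.a (T.l 204) (T.a (T.b (T.l 204) (T.l 1)) (T.l 204)))) (T.l 1)), by decide +kernel⟩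

def B102L_620 :
    ∃ t, chk3 (onCell 0 67108864 0 1073741824 587336777 62277027 (corW 3 c0B eng mog cB102L gB6q1 gB2q2 gB0q0 gB1q0 dB6q1 dB2q2 dB0q0 dB1q0 true true)) t 1 1 1 = true :=
  ⟨(T.l 2), by decide +kernel⟩

def B102L_621 :
    ∃ t, chk3 (onCell 0 67108864 0 1073741824 587336777 62277027 (corW 3 c0B eng mog cB102L gB6q1 gB2q2 gB1q0 gB2q0 dB6q1 dB2q2 dB1q0 dB2q0 true true)) t 1 1 1 = true :=
  ⟨(T.b (T.l 2) (T.b (T.l 2) (T.l 0))), by decide +kernel⟩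

def B102L_622 :
    ∃ t, chk3 (onCell 0 67108864 0 1073741824 587336777 62277027 (corW 3 c0B eng mog cB102L gB6q1 gB2q2 gB2q0 gB3q0 dB6q1 dB2q2 dB2q0 dB3q0 true true)) t 1 1 1 = true :=
  ⟨(T.b (T.l 2) (T.b (T.b (T.a (T.l 2) (T.l 2)) (T.l 204)) (T.l 0))), by decide +kernel⟩

def B102L_623 :
    ∃ t, chk3 (onCell 0 67108864 0 1073741824 587336777 62277027 (corW 3 c0B eng mog cB102L gB6q1 gB2q2 gB3q0 gB4q0 dB6q1 dB2q2 dB3q0 dB4q0 true true)) t 1 1 1 = true :=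
  ⟨(T.b (T.b (T.a (T.b (T.a (T.l 204) (T.l 204)) (T.l 204)) (T.a (T.l 204) (T.l 204))) (T.a (T.l 204) (T.a (T.l 220) (T.l 204)))) (T.b (T.a (T.l 204) (T.b (T.b (T.l 204) (T.l 204)) (T.l 204))) (T.l 1))), by decide +kernel⟩

def B102L_624 :
    ∃ t, chk3 (onCell 0 67108864 0 1073741824 587336777 62277027 (corW 3 c0B eng mog cB102L gB6q1 gB2q2 gB4q0 gB5q0 dB6q1 dB2q2 dB4q0 dB5q0 true false)) t 1 1 1 = true :=
  ⟨(T.b (T.b (T.a (T.b (T.a (T.l 204) (T.l 204)) (T.l 1)) (T.a (T.l 204) (T.l 204))) (T.l 1)) (T.l 1)), by decide +kernel⟩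

def B102L_630 :
    ∃ t, chk3 (onCell 0 67108864 0 1073741824 587336777 62277027 (corW 3 c0B eng mog cB102L gB6q1 gB3q2 gB0q0 gB1q0 dB6q1 dB3q2 dB0q0 dB1q0 true true)) t 1 1 1 = true :=
  ⟨(T.l 2), by decide +kernel⟩

def B102L_631 :
    ∃ t, chk3 (onCell 0 67108864 0 1073741824 587336777 62277027 (corW 3 c0B eng mog cB102L gB6q1 gB3q2 gB1q0 gB2q0 dB6q1 dB3q2 dB1q0 dB2q0 true true)) t 1 1 1 = true :=
  ⟨(T.b (T.l 2) (T.b (T.l 2) (T.l 0))), by decide +kernel⟩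

def B102L_632 :
    ∃ t, chk3 (onCell 0 67108864 0 1073741824 587336777 62277027 (corW 3 c0B eng mog cB102L gB6q1 gB3q2 gB2q0 gB3q0 dB6q1 dB3q2 dB2q0 dB3q0 true true)) t 1 1 1 = true :=
  ⟨(T.b (T.b (T.l 2) (T.a (T.l 204) (T.l 2))) (T.b (T.b (T.a (T.l 204) (T.b (T.l 204) (T.l 204))) (T.l 204)) (T.l 0))), by decide +kernel⟩

def B102L_633 :
    ∃ t, chk3 (onCell 0 67108864 0 1073741824 587336777 62277027 (corW 3 c0B eng mog cB102L gB6q1 gB3q2 gB3q0 gB4q0 dB6q1 dB3q2 dB3q0 dB4q0 true true)) t 1 1 1 = true :=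
  ⟨(T.b (T.b (T.a (T.a (T.l 204) (T.b (T.l 204) (T.l 204))) (T.a (T.l 204) (T.l 204))) (T.a (T.l 204) (T.a (T.l 220) (T.l 204)))) (T.b (T.a (T.l 204) (T.b (T.b (T.l 204) (T.l 204)) (T.l 204))) (T.l 1))), by decide +kernel⟩

def B102L_634 :
    ∃ t, chk3 (onCell 0 67108864 0 1073741824 587336777 62277027 (corW 3 c0B eng mog cB102L gB6q1 gB3q2 gB4q0 gB5q0 dB6q1 dB3q2 dB4q0 dB5q0 true false)) t 1 1 1 = true :=
  ⟨(T.l 1), by decide +kernel⟩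

def B102L_640 :
    ∃ t, chk3 (onCell 0 67108864 0 1073741824 587336777 62277027 (corW 3 c0B eng mog cB102L gB6q1 gB4q2 gB0q0 gB1q0 dB6q1 dB4q2 dB0q0 dB1q0 true true)) t 1 1 1 = true :=
  ⟨(T.l 2), by decide +kernel⟩

def B102L_641 :
    ∃ t, chk3 (onCell 0 67108864 0 1073741824 587336777 62277027 (corW 3 c0B eng mog cB102L gB6q1 gB4q2 gB1q0 gB2q0 dB6q1 dB4q2 dB1q0 dB2q0 true true)) t 1 1 1 = true :=
  ⟨(T.b (T.a (T.a (T.l 204) (T.a (T.l 204) (T.b (T.l 204) (T.l 204)))) (T.a (T.b (T.l 204) (T.l 204)) (T.b (T.l 204) (T.l 204)))) (T.a (T.l 204) (T.a (T.l 204) (T.b (T.l 0) (T.l 204))))), by decide +kernel⟩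

def B102L_642 :
    ∃ t, chk3 (onCell 0 67108864 0 1073741824 587336777 62277027 (corW 3 c0B eng mog cB102L gB6q1 gB4q2 gB2q0 gB3q0 dB6q1 dB4q2 dB2q0 dB3q0 true true)) t 1 1 1 = true :=
  ⟨(T.b (T.a (T.b (T.l 1) (T.l 1)) (T.a (T.b (T.l 204) (T.l 204)) (T.b (T.l 204) (T.l 204)))) (T.b (T.a (T.l 1) (T.b (T.l 204) (T.l 204))) (T.l 204))), by decide +kernel⟩

def B102L_643 :
    ∃ t, chk3 (onCell 0 67108864 0 1073741824 587336777 62277027 (corW 3 c0B eng mog cB102L gB6q1 gB4q2 gB3q0 gB4q0 dB6q1 dB4q2 dB3q0 dB4q0 true true)) t 1 1 1 = true :=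
  ⟨(T.l 1), by decide +kernel⟩

def B102L_644 :
    ∃ t, chk3 (onCell 0 67108864 0 1073741824 587336777 62277027 (corW 3 c0B eng mog cB102L gB6q1 gB4q2 gB4q0 gB5q0 dB6q1 dB4q2 dB4q0 dB5q0 true false)) t 1 1 1 = true :=
  ⟨(T.l 1), by decide +kernel⟩

def B102L_700 :
    ∃ t, chk3 (onCell 0 67108864 0 1073741824 587336777 62277027 (corW 3 c0B eng mog cB102L gB7q1 gB0q2 gB0q0 gB1q0 dB7q1 dB0q2 dB0q0 dB1q0 true true)) t 1 1 1 = true :=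
  ⟨(T.l 2), by decide +kernel⟩

def B102L_701 :
    ∃ t, chk3 (onCell 0 67108864 0 1073741824 587336777 62277027 (corW 3 c0B eng mog cB102L gB7q1 gB0q2 gB1q0 gB2q0 dB7q1 dB0q2 dB1q0 dB2q0 true true)) t 1 1 1 = true :=
  ⟨(T.b (T.l 2) (T.l 2)), by decide +kernel⟩

def B102L_702 :
    ∃ t, chk3 (onCell 0 67108864 0 1073741824 587336777 62277027 (corW 3 c0B eng mog cB102L gB7q1 gB0q2 gB2q0 gB3q0 dB7q1 dB0q2 dB2q0 dB3q0 true true)) t 1 1 1 = true :=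
  ⟨(T.b (T.l 2) (T.b (T.l 2) (T.l 204))), by decide +kernel⟩

def B102L_703 :
    ∃ t, chk3 (onCell 0 67108864 0 1073741824 587336777 62277027 (corW 3 c0B eng mog cB102L gB7q1 gB0q2 gB3q0 gB4q0 dB7q1 dB0q2 dB3q0 dB4q0 true true)) t 1 1 1 = true :=
  ⟨(T.b (T.b (T.b (T.l 2) (T.l 2)) (T.a (T.l 204) (T.a (T.l 204) (T.b (T.l 2) (T.l 204))))) (T.b (T.b (T.a (T.l 204) (T.b (T.l 204) (T.l 204))) (T.l 204)) (T.l 204))), by decide +kernel⟩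

def B102L_704 :
    ∃ t, chk3 (onCell 0 67108864 0 1073741824 587336777 62277027 (corW 3 c0B eng mog cB102L gB7q1 gB0q2 gB4q0 gB5q0 dB7q1 dB0q2 dB4q0 dB5q0 true false)) t 1 1 1 = true :=
  ⟨(T.b (T.b (T.a (T.a (T.l 204) (T.b (T.l 204) (T.l 204))) (T.a (T.b (T.l 204) (T.l 204)) (T.l 204))) (T.a (T.l 204) (T.a (T.l 204) (T.b (T.l 204) (T.l 204))))) (T.b (T.l 1) (T.l 1))), by decide +kernel⟩

def B102L_710 :
    ∃ t, chk3 (onCell 0 67108864 0 1073741824 587336777 62277027 (corW 3 c0B eng mog cB102L gB7q1 gB1q2 gB0q0 gB1q0 dB7q1 dB1q2 dB0q0 dB1q0 true true)) t 1 1 1 = true :=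
  ⟨(T.l 2), by decide +kernel⟩

def B102L_711 :
    ∃ t, chk3 (onCell 0 67108864 0 1073741824 587336777 62277027 (corW 3 c0B eng mog cB102L gB7q1 gB1q2 gB1q0 gB2q0 dB7q1 dB1q2 dB1q0 dB2q0 true true)) t 1 1 1 = true :=
  ⟨(T.b (T.l 2) (T.l 2)), by decide +kernel⟩

def B102L_712 :
    ∃ t, chk3 (onCell 0 67108864 0 1073741824 587336777 62277027 (corW 3 c0B eng mog cB102L gB7q1 gB1q2 gB2q0 gB3q0 dB7q1 dB1q2 dB2q0 dB3q0 true true)) t 1 1 1 = true :=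
  ⟨(T.b (T.l 2) (T.b (T.l 2) (T.l 204))), by decide +kernel⟩

def B102L_713 :
    ∃ t, chk3 (onCell 0 67108864 0 1073741824 587336777 62277027 (corW 3 c0B eng mog cB102L gB7q1 gB1q2 gB3q0 gB4q0 dB7q1 dB1q2 dB3q0 dB4q0 true true)) t 1 1 1 = true :=
  ⟨(T.b (T.b (T.a (T.b (T.l 2) (T.l 204)) (T.l 2)) (T.a (T.l 204) (T.a (T.b (T.l 204) (T.l 204)) (T.l 204)))) (T.b (T.b (T.a (T.l 204) (T.b (T.l 204) (T.l 204))) (T.l 204)) (T.l 204))), by decide +kernel⟩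

def B102L_714 :
    ∃ t, chk3 (onCell 0 67108864 0 1073741824 587336777 62277027 (corW 3 c0B eng mog cB102L gB7q1 gB1q2 gB4q0 gB5q0 dB7q1 dB1q2 dB4q0 dB5q0 true false)) t 1 1 1 = true :=
  ⟨(T.b (T.b (T.a (T.a (T.l 204) (T.b (T.l 204) (T.l 204))) (T.a (T.l 204) (T.l 204))) (T.a (T.l 204) (T.a (T.b (T.l 204) (T.l 204)) (T.l 204)))) (T.l 1)), by decide +kernel⟩

def B102L_720 :
    ∃ t, chk3 (onCell 0 67108864 0 1073741824 587336777 62277027 (corW 3 c0B eng mog cB102L gB7q1 gB2q2 gB0q0 gB1q0 dB7q1 dB2q2 dB0q0 dB1q0 true true)) t 1 1 1 = true :=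
  ⟨(T.l 2), by decide +kernel⟩

def B102L_721 :
    ∃ t, chk3 (onCell 0 67108864 0 1073741824 587336777 62277027 (corW 3 c0B eng mog cB102L gB7q1 gB2q2 gB1q0 gB2q0 dB7q1 dB2q2 dB1q0 dB2q0 true true)) t 1 1 1 = true :=
  ⟨(T.b (T.l 2) (T.l 2)), by decide +kernel⟩

def B102L_722 :
    ∃ t, chk3 (onCell 0 67108864 0 1073741824 587336777 62277027 (corW 3 c0B eng mog cB102L gB7q1 gB2q2 gB2q0 gB3q0 dB7q1 dB2q2 dB2q0 dB3q0 true true)) t 1 1 1 = true :=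
  ⟨(T.b (T.l 2) (T.b (T.l 2) (T.l 204))), by decide +kernel⟩

def B102L_723 :
    ∃ t, chk3 (onCell 0 67108864 0 1073741824 587336777 62277027 (corW 3 c0B eng mog cB102L gB7q1 gB2q2 gB3q0 gB4q0 dB7q1 dB2q2 dB3q0 dB4q0 true true)) t 1 1 1 = true :=
  ⟨(T.b (T.b (T.a (T.b (T.a (T.l 204) (T.l 204)) (T.l 204)) (T.a (T.l 204) (T.l 204))) (T.a (T.l 204) (T.b (T.l 220) (T.l 220)))) (T.b (T.a (T.l 204) (T.b (T.b (T.l 204) (T.l 204)) (T.l 204))) (T.l 204))), by decide +kernel⟩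

def B102L_724 :
    ∃ t, chk3 (onCell 0 67108864 0 1073741824 587336777 62277027 (corW 3 c0B eng mog cB102L gB7q1 gB2q2 gB4q0 gB5q0 dB7q1 dB2q2 dB4q0 dB5q0 true false)) t 1 1 1 = true :=
  ⟨(T.b (T.b (T.a (T.b (T.a (T.l 204) (T.l 204)) (T.l 1)) (T.a (T.l 204) (T.l 204))) (T.a (T.l 1) (T.l 1))) (T.l 1)), by decide +kernel⟩

def B102L_730 :
    ∃ t, chk3 (onCell 0 67108864 0 1073741824 587336777 62277027 (corW 3 c0B eng mog cB102L gB7q1 gB3q2 gB0q0 gB1q0 dB7q1 dB3q2 dB0q0 dB1q0 true true)) t 1 1 1 = true :=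
  ⟨(T.l 2), by decide +kernel⟩

def B102L_731 :
    ∃ t, chk3 (onCell 0 67108864 0 1073741824 587336777 62277027 (corW 3 c0B eng mog cB102L gB7q1 gB3q2 gB1q0 gB2q0 dB7q1 dB3q2 dB1q0 dB2q0 true true)) t 1 1 1 = true :=
  ⟨(T.b (T.l 2) (T.l 2)), by decide +kernel⟩

def B102L_732 :
    ∃ t, chk3 (onCell 0 67108864 0 1073741824 587336777 62277027 (corW 3 c0B eng mog cB102L gB7q1 gB3q2 gB2q0 gB3q0 dB7q1 dB3q2 dB2q0 dB3q0 true true)) t 1 1 1 = true :=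
  ⟨(T.b (T.b (T.l 2) (T.l 2)) (T.b (T.b (T.a (T.l 2) (T.l 2)) (T.l 204)) (T.l 204))), by decide +kernel⟩

def B102L_733 :
    ∃ t, chk3 (onCell 0 67108864 0 1073741824 587336777 62277027 (corW 3 c0B eng mog cB102L gB7q1 gB3q2 gB3q0 gB4q0 dB7q1 dB3q2 dB3q0 dB4q0 true true)) t 1 1 1 = true :=
  ⟨(T.b (T.b (T.a (T.a (T.l 204) (T.b (T.l 204) (T.l 204))) (T.a (T.l 204) (T.l 204))) (T.a (T.l 204) (T.b (T.l 220) (T.l 220)))) (T.b (T.a (T.l 204) (T.b (T.l 220) (T.l 204))) (T.l 204))), by decide +kernel⟩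

def B102L_734 :
    ∃ t, chk3 (onCell 0 67108864 0 1073741824 587336777 62277027 (corW 3 c0B eng mog cB102L gB7q1 gB3q2 gB4q0 gB5q0 dB7q1 dB3q2 dB4q0 dB5q0 true false)) t 1 1 1 = true :=
  ⟨(T.l 1), by decide +kernel⟩

def B102L_740 :
    ∃ t, chk3 (onCell 0 67108864 0 1073741824 587336777 62277027 (corW 3 c0B eng mog cB102L gB7q1 gB4q2 gB0q0 gB1q0 dB7q1 dB4q2 dB0q0 dB1q0 true true)) t 1 1 1 = true :=
  ⟨(T.l 2), by decide +kernel⟩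

def B102L_741 :
    ∃ t, chk3 (onCell 0 67108864 0 1073741824 587336777 62277027 (corW 3 c0B eng mog cB102L gB7q1 gB4q2 gB1q0 gB2q0 dB7q1 dB4q2 dB1q0 dB2q0 true true)) t 1 1 1 = true :=
  ⟨(T.b (T.a (T.a (T.l 204) (T.a (T.l 204) (T.b (T.l 204) (T.l 2)))) (T.b (T.a (T.l 204) (T.l 2)) (T.l 2))) (T.l 2)), by decide +kernel⟩

def B102L_742 :
    ∃ t, chk3 (onCell 0 67108864 0 1073741824 587336777 62277027 (corW 3 c0B eng mog cB102L gB7q1 gB4q2 gB2q0 gB3q0 dB7q1 dB4q2 dB2q0 dB3q0 true true)) t 1 1 1 = true :=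
  ⟨(T.b (T.a (T.b (T.b (T.b (T.l 1) (T.l 204)) (T.l 204)) (T.l 204)) (T.b (T.a (T.l 204) (T.l 204)) (T.b (T.l 204) (T.l 204)))) (T.b (T.b (T.a (T.l 204) (T.l 204)) (T.l 204)) (T.l 204))), by decide +kernel⟩

def B102L_743 :
    ∃ t, chk3 (onCell 0 67108864 0 1073741824 587336777 62277027 (corW 3 c0B eng mog cB102L gB7q1 gB4q2 gB3q0 gB4q0 dB7q1 dB4q2 dB3q0 dB4q0 true true)) t 1 1 1 = true :=
  ⟨(T.b (T.l 1) (T.l 1)), by decide +kernel⟩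

def B102L_744 :
    ∃ t, chk3 (onCell 0 67108864 0 1073741824 587336777 62277027 (corW 3 c0B eng mog cB102L gB7q1 gB4q2 gB4q0 gB5q0 dB7q1 dB4q2 dB4q0 dB5q0 true false)) t 1 1 1 = true :=
  ⟨(T.l 1), by decide +kernel⟩

def B102R_070 :
    ∃ t, chk3 (onCell 0 67108864 0 1073741824 587336777 62277027 (corW 3 c0B eng mog cB102R gB0q1 gB7q2 gB0q0 gB1q0 dB0q1 dB7q2 dB0q0 dB1q0 true true)) t 1 1 1 = true :=
  ⟨(T.l 1), by decide +kernel⟩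

def B102R_071 :
    ∃ t, chk3 (onCell 0 67108864 0 1073741824 587336777 62277027 (corW 3 c0B eng mog cB102R gB0q1 gB7q2 gB1q0 gB2q0 dB0q1 dB7q2 dB1q0 dB2q0 true true)) t 1 1 1 = true :=
  ⟨(T.l 1), by decide +kernel⟩

def B102R_072 :
    ∃ t, chk3 (onCell 0 67108864 0 1073741824 587336777 62277027 (corW 3 c0B eng mog cB102R gB0q1 gB7q2 gB2q0 gB3q0 dB0q1 dB7q2 dB2q0 dB3q0 true true)) t 1 1 1 = true :=
  ⟨(T.l 1), by decide +kernel⟩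

def B102R_073 :
    ∃ t, chk3 (onCell 0 67108864 0 1073741824 587336777 62277027 (corW 3 c0B eng mog cB102R gB0q1 gB7q2 gB3q0 gB4q0 dB0q1 dB7q2 dB3q0 dB4q0 true true)) t 1 1 1 = true :=
  ⟨(T.l 1), by decide +kernel⟩

def B102R_074 :
    ∃ t, chk3 (onCell 0 67108864 0 1073741824 587336777 62277027 (corW 3 c0B eng mog cB102R gB0q1 gB7q2 gB4q0 gB5q0 dB0q1 dB7q2 dB4q0 dB5q0 true false)) t 1 1 1 = true :=
  ⟨(T.l 1), by decide +kernel⟩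

def B202E_000 :
    ∃ t, chk3 (onCell 0 67108864 0 1073741824 587336777 62277027 (corW 3 c0B eng mog cB202E gB0q2 gB0q2 gB0q0 gB1q0 dB0q2 dB0q2 dB0q0 dB1q0 true true)) t 1 1 1 = true :=
  ⟨(T.l 1), by decide +kernel⟩

def B202E_001 :
    ∃ t, chk3 (onCell 0 67108864 0 1073741824 587336777 62277027 (corW 3 c0B eng mog cB202E gB0q2 gB0q2 gB1q0 gB2q0 dB0q2 dB0q2 dB1q0 dB2q0 true true)) t 1 1 1 = true :=
  ⟨(T.l 1), by decide +kernel⟩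

def B202E_002 :
    ∃ t, chk3 (onCell 0 67108864 0 1073741824 587336777 62277027 (corW 3 c0B eng mog cB202E gB0q2 gB0q2 gB2q0 gB3q0 dB0q2 dB0q2 dB2q0 dB3q0 true true)) t 1 1 1 = true :=
  ⟨(T.l 1), by decide +kernel⟩

def B202E_003 :
    ∃ t, chk3 (onCell 0 67108864 0 1073741824 587336777 62277027 (corW 3 c0B eng mog cB202E gB0q2 gB0q2 gB3q0 gB4q0 dB0q2 dB0q2 dB3q0 dB4q0 true true)) t 1 1 1 = true :=
  ⟨(T.l 1), by decide +kernel⟩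

def B202E_004 :
    ∃ t, chk3 (onCell 0 67108864 0 1073741824 587336777 62277027 (corW 3 c0B eng mog cB202E gB0q2 gB0q2 gB4q0 gB5q0 dB0q2 dB0q2 dB4q0 dB5q0 true false)) t 1 1 1 = true :=
  ⟨(T.l 1), by decide +kernel⟩

def B202E_010 :
    ∃ t, chk3 (onCell 0 67108864 0 1073741824 587336777 62277027 (corW 3 c0B eng mog cB202E gB0q2 gB1q2 gB0q0 gB1q0 dB0q2 dB1q2 dB0q0 dB1q0 true true)) t 1 1 1 = true :=
  ⟨(T.l 1), by decide +kernel⟩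

def B202E_011 :
    ∃ t, chk3 (onCell 0 67108864 0 1073741824 587336777 62277027 (corW 3 c0B eng mog cB202E gB0q2 gB1q2 gB1q0 gB2q0 dB0q2 dB1q2 dB1q0 dB2q0 true true)) t 1 1 1 = true :=
  ⟨(T.l 1), by decide +kernel⟩

def B202E_012 :
    ∃ t, chk3 (onCell 0 67108864 0 1073741824 587336777 62277027 (corW 3 c0B eng mog cB202E gB0q2 gB1q2 gB2q0 gB3q0 dB0q2 dB1q2 dB2q0 dB3q0 true true)) t 1 1 1 = true :=
  ⟨(T.l 1), by decide +kernel⟩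

def B202E_013 :
    ∃ t, chk3 (onCell 0 67108864 0 1073741824 587336777 62277027 (corW 3 c0B eng mog cB202E gB0q2 gB1q2 gB3q0 gB4q0 dB0q2 dB1q2 dB3q0 dB4q0 true true)) t 1 1 1 = true :=
  ⟨(T.l 1), by decide +kernel⟩

def B202E_014 :
    ∃ t, chk3 (onCell 0 67108864 0 1073741824 587336777 62277027 (corW 3 c0B eng mog cB202E gB0q2 gB1q2 gB4q0 gB5q0 dB0q2 dB1q2 dB4q0 dB5q0 true false)) t 1 1 1 = true :=
  ⟨(T.l 1), by decide +kernel⟩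

def B202E_020 :
    ∃ t, chk3 (onCell 0 67108864 0 1073741824 587336777 62277027 (corW 3 c0B eng mog cB202E gB0q2 gB2q2 gB0q0 gB1q0 dB0q2 dB2q2 dB0q0 dB1q0 true true)) t 1 1 1 = true :=
  ⟨(T.l 1), by decide +kernel⟩

def B202E_021 :
    ∃ t, chk3 (onCell 0 67108864 0 1073741824 587336777 62277027 (corW 3 c0B eng mog cB202E gB0q2 gB2q2 gB1q0 gB2q0 dB0q2 dB2q2 dB1q0 dB2q0 true true)) t 1 1 1 = true :=
  ⟨(T.l 1), by decide +kernel⟩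

def B202E_022 :
    ∃ t, chk3 (onCell 0 67108864 0 1073741824 587336777 62277027 (corW 3 c0B eng mog cB202E gB0q2 gB2q2 gB2q0 gB3q0 dB0q2 dB2q2 dB2q0 dB3q0 true true)) t 1 1 1 = true :=
  ⟨(T.l 1), by decide +kernel⟩

def B202E_023 :
    ∃ t, chk3 (onCell 0 67108864 0 1073741824 587336777 62277027 (corW 3 c0B eng mog cB202E gB0q2 gB2q2 gB3q0 gB4q0 dB0q2 dB2q2 dB3q0 dB4q0 true true)) t 1 1 1 = true :=
  ⟨(T.l 1), by decide +kernel⟩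

def B202E_024 :
    ∃ t, chk3 (onCell 0 67108864 0 1073741824 587336777 62277027 (corW 3 c0B eng mog cB202E gB0q2 gB2q2 gB4q0 gB5q0 dB0q2 dB2q2 dB4q0 dB5q0 true false)) t 1 1 1 = true :=
  ⟨(T.l 1), by decide +kernel⟩

def B202E_030 :
    ∃ t, chk3 (onCell 0 67108864 0 1073741824 587336777 62277027 (corW 3 c0B eng mog cB202E gB0q2 gB3q2 gB0q0 gB1q0 dB0q2 dB3q2 dB0q0 dB1q0 true true)) t 1 1 1 = true :=
  ⟨(T.l 1), by decide +kernel⟩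

def B202E_031 :
    ∃ t, chk3 (onCell 0 67108864 0 1073741824 587336777 62277027 (corW 3 c0B eng mog cB202E gB0q2 gB3q2 gB1q0 gB2q0 dB0q2 dB3q2 dB1q0 dB2q0 true true)) t 1 1 1 = true :=
  ⟨(T.l 1), by decide +kernel⟩

def B202E_032 :
    ∃ t, chk3 (onCell 0 67108864 0 1073741824 587336777 62277027 (corW 3 c0B eng mog cB202E gB0q2 gB3q2 gB2q0 gB3q0 dB0q2 dB3q2 dB2q0 dB3q0 true true)) t 1 1 1 = true :=
  ⟨(T.l 1), by decide +kernel⟩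

def B202E_033 :
    ∃ t, chk3 (onCell 0 67108864 0 1073741824 587336777 62277027 (corW 3 c0B eng mog cB202E gB0q2 gB3q2 gB3q0 gB4q0 dB0q2 dB3q2 dB3q0 dB4q0 true true)) t 1 1 1 = true :=
  ⟨(T.l 1), by decide +kernel⟩

def B202E_034 :
    ∃ t, chk3 (onCell 0 67108864 0 1073741824 587336777 62277027 (corW 3 c0B eng mog cB202E gB0q2 gB3q2 gB4q0 gB5q0 dB0q2 dB3q2 dB4q0 dB5q0 true false)) t 1 1 1 = true :=
  ⟨(T.l 1), by decide +kernel⟩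

def B202E_040 :
    ∃ t, chk3 (onCell 0 67108864 0 1073741824 587336777 62277027 (corW 3 c0B eng mog cB202E gB0q2 gB4q2 gB0q0 gB1q0 dB0q2 dB4q2 dB0q0 dB1q0 true true)) t 1 1 1 = true :=
  ⟨(T.b (T.l 1) (T.l 1)), by decide +kernel⟩

def B202E_041 :
    ∃ t, chk3 (onCell 0 67108864 0 1073741824 587336777 62277027 (corW 3 c0B eng mog cB202E gB0q2 gB4q2 gB1q0 gB2q0 dB0q2 dB4q2 dB1q0 dB2q0 true true)) t 1 1 1 = true :=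
  ⟨(T.l 1), by decide +kernel⟩

def B202E_042 :
    ∃ t, chk3 (onCell 0 67108864 0 1073741824 587336777 62277027 (corW 3 c0B eng mog cB202E gB0q2 gB4q2 gB2q0 gB3q0 dB0q2 dB4q2 dB2q0 dB3q0 true true)) t 1 1 1 = true :=
  ⟨(T.l 1), by decide +kernel⟩

def B202E_043 :
    ∃ t, chk3 (onCell 0 67108864 0 1073741824 587336777 62277027 (corW 3 c0B eng mog cB202E gB0q2 gB4q2 gB3q0 gB4q0 dB0q2 dB4q2 dB3q0 dB4q0 true true)) t 1 1 1 = true :=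
  ⟨(T.l 1), by decide +kernel⟩

def B202E_044 :
    ∃ t, chk3 (onCell 0 67108864 0 1073741824 587336777 62277027 (corW 3 c0B eng mog cB202E gB0q2 gB4q2 gB4q0 gB5q0 dB0q2 dB4q2 dB4q0 dB5q0 true false)) t 1 1 1 = true :=
  ⟨(T.l 1), by decide +kernel⟩

def B202E_100 :
    ∃ t, chk3 (onCell 0 67108864 0 1073741824 587336777 62277027 (corW 3 c0B eng mog cB202E gB1q2 gB0q2 gB0q0 gB1q0 dB1q2 dB0q2 dB0q0 dB1q0 true true)) t 1 1 1 = true :=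
  ⟨(T.l 1), by decide +kernel⟩

def B202E_101 :
    ∃ t, chk3 (onCell 0 67108864 0 1073741824 587336777 62277027 (corW 3 c0B eng mog cB202E gB1q2 gB0q2 gB1q0 gB2q0 dB1q2 dB0q2 dB1q0 dB2q0 true true)) t 1 1 1 = true :=
  ⟨(T.l 1), by decide +kernel⟩

def B202E_102 :
    ∃ t, chk3 (onCell 0 67108864 0 1073741824 587336777 62277027 (corW 3 c0B eng mog cB202E gB1q2 gB0q2 gB2q0 gB3q0 dB1q2 dB0q2 dB2q0 dB3q0 true true)) t 1 1 1 = true :=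
  ⟨(T.l 1), by decide +kernel⟩

def B202E_103 :
    ∃ t, chk3 (onCell 0 67108864 0 1073741824 587336777 62277027 (corW 3 c0B eng mog cB202E gB1q2 gB0q2 gB3q0 gB4q0 dB1q2 dB0q2 dB3q0 dB4q0 true true)) t 1 1 1 = true :=
  ⟨(T.l 1), by decide +kernel⟩

def B202E_104 :
    ∃ t, chk3 (onCell 0 67108864 0 1073741824 587336777 62277027 (corW 3 c0B eng mog cB202E gB1q2 gB0q2 gB4q0 gB5q0 dB1q2 dB0q2 dB4q0 dB5q0 true false)) t 1 1 1 = true :=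
  ⟨(T.l 1), by decide +kernel⟩

def B202E_110 :
    ∃ t, chk3 (onCell 0 67108864 0 1073741824 587336777 62277027 (corW 3 c0B eng mog cB202E gB1q2 gB1q2 gB0q0 gB1q0 dB1q2 dB1q2 dB0q0 dB1q0 true true)) t 1 1 1 = true :=
  ⟨(T.l 1), by decide +kernel⟩

def B202E_111 :
    ∃ t, chk3 (onCell 0 67108864 0 1073741824 587336777 62277027 (corW 3 c0B eng mog cB202E gB1q2 gB1q2 gB1q0 gB2q0 dB1q2 dB1q2 dB1q0 dB2q0 true true)) t 1 1 1 = true :=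
  ⟨(T.l 1), by decide +kernel⟩

def B202E_112 :
    ∃ t, chk3 (onCell 0 67108864 0 1073741824 587336777 62277027 (corW 3 c0B eng mog cB202E gB1q2 gB1q2 gB2q0 gB3q0 dB1q2 dB1q2 dB2q0 dB3q0 true true)) t 1 1 1 = true :=
  ⟨(T.l 1), by decide +kernel⟩

def B202E_113 :
    ∃ t, chk3 (onCell 0 67108864 0 1073741824 587336777 62277027 (corW 3 c0B eng mog cB202E gB1q2 gB1q2 gB3q0 gB4q0 dB1q2 dB1q2 dB3q0 dB4q0 true true)) t 1 1 1 = true :=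
  ⟨(T.l 1), by decide +kernel⟩

def B202E_114 :
    ∃ t, chk3 (onCell 0 67108864 0 1073741824 587336777 62277027 (corW 3 c0B eng mog cB202E gB1q2 gB1q2 gB4q0 gB5q0 dB1q2 dB1q2 dB4q0 dB5q0 true false)) t 1 1 1 = true :=
  ⟨(T.l 1), by decide +kernel⟩

def B202E_120 :
    ∃ t, chk3 (onCell 0 67108864 0 1073741824 587336777 62277027 (corW 3 c0B eng mog cB202E gB1q2 gB2q2 gB0q0 gB1q0 dB1q2 dB2q2 dB0q0 dB1q0 true true)) t 1 1 1 = true :=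
  ⟨(T.l 1), by decide +kernel⟩

def B202E_121 :
    ∃ t, chk3 (onCell 0 67108864 0 1073741824 587336777 62277027 (corW 3 c0B eng mog cB202E gB1q2 gB2q2 gB1q0 gB2q0 dB1q2 dB2q2 dB1q0 dB2q0 true true)) t 1 1 1 = true :=
  ⟨(T.l 1), by decide +kernel⟩

def B202E_122 :
    ∃ t, chk3 (onCell 0 67108864 0 1073741824 587336777 62277027 (corW 3 c0B eng mog cB202E gB1q2 gB2q2 gB2q0 gB3q0 dB1q2 dB2q2 dB2q0 dB3q0 true true)) t 1 1 1 = true :=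
  ⟨(T.l 1), by decide +kernel⟩

def B202E_123 :
    ∃ t, chk3 (onCell 0 67108864 0 1073741824 587336777 62277027 (corW 3 c0B eng mog cB202E gB1q2 gB2q2 gB3q0 gB4q0 dB1q2 dB2q2 dB3q0 dB4q0 true true)) t 1 1 1 = true :=
  ⟨(T.l 1), by decide +kernel⟩

def B202E_124 :
    ∃ t, chk3 (onCell 0 67108864 0 1073741824 587336777 62277027 (corW 3 c0B eng mog cB202E gB1q2 gB2q2 gB4q0 gB5q0 dB1q2 dB2q2 dB4q0 dB5q0 true false)) t 1 1 1 = true :=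
  ⟨(T.l 1), by decide +kernel⟩

def B202E_130 :
    ∃ t, chk3 (onCell 0 67108864 0 1073741824 587336777 62277027 (corW 3 c0B eng mog cB202E gB1q2 gB3q2 gB0q0 gB1q0 dB1q2 dB3q2 dB0q0 dB1q0 true true)) t 1 1 1 = true :=
  ⟨(T.l 1), by decide +kernel⟩

def B202E_131 :
    ∃ t, chk3 (onCell 0 67108864 0 1073741824 587336777 62277027 (corW 3 c0B eng mog cB202E gB1q2 gB3q2 gB1q0 gB2q0 dB1q2 dB3q2 dB1q0 dB2q0 true true)) t 1 1 1 = true :=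
  ⟨(T.l 1), by decide +kernel⟩

def B202E_132 :
    ∃ t, chk3 (onCell 0 67108864 0 1073741824 587336777 62277027 (corW 3 c0B eng mog cB202E gB1q2 gB3q2 gB2q0 gB3q0 dB1q2 dB3q2 dB2q0 dB3q0 true true)) t 1 1 1 = true :=
  ⟨(T.l 1), by decide +kernel⟩

def B202E_133 :
    ∃ t, chk3 (onCell 0 67108864 0 1073741824 587336777 62277027 (corW 3 c0B eng mog cB202E gB1q2 gB3q2 gB3q0 gB4q0 dB1q2 dB3q2 dB3q0 dB4q0 true true)) t 1 1 1 = true :=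
  ⟨(T.l 1), by decide +kernel⟩

def B202E_134 :
    ∃ t, chk3 (onCell 0 67108864 0 1073741824 587336777 62277027 (corW 3 c0B eng mog cB202E gB1q2 gB3q2 gB4q0 gB5q0 dB1q2 dB3q2 dB4q0 dB5q0 true false)) t 1 1 1 = true :=
  ⟨(T.l 1), by decide +kernel⟩

def B202E_140 :
    ∃ t, chk3 (onCell 0 67108864 0 1073741824 587336777 62277027 (corW 3 c0B eng mog cB202E gB1q2 gB4q2 gB0q0 gB1q0 dB1q2 dB4q2 dB0q0 dB1q0 true true)) t 1 1 1 = true :=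
  ⟨(T.l 1), by decide +kernel⟩

def B202E_141 :
    ∃ t, chk3 (onCell 0 67108864 0 1073741824 587336777 62277027 (corW 3 c0B eng mog cB202E gB1q2 gB4q2 gB1q0 gB2q0 dB1q2 dB4q2 dB1q0 dB2q0 true true)) t 1 1 1 = true :=
  ⟨(T.l 1), by decide +kernel⟩

def B202E_142 :
    ∃ t, chk3 (onCell 0 67108864 0 1073741824 587336777 62277027 (corW 3 c0B eng mog cB202E gB1q2 gB4q2 gB2q0 gB3q0 dB1q2 dB4q2 dB2q0 dB3q0 true true)) t 1 1 1 = true :=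
  ⟨(T.l 1), by decide +kernel⟩

def B202E_143 :
    ∃ t, chk3 (onCell 0 67108864 0 1073741824 587336777 62277027 (corW 3 c0B eng mog cB202E gB1q2 gB4q2 gB3q0 gB4q0 dB1q2 dB4q2 dB3q0 dB4q0 true true)) t 1 1 1 = true :=
  ⟨(T.l 1), by decide +kernel⟩

def B202E_144 :
    ∃ t, chk3 (onCell 0 67108864 0 1073741824 587336777 62277027 (corW 3 c0B eng mog cB202E gB1q2 gB4q2 gB4q0 gB5q0 dB1q2 dB4q2 dB4q0 dB5q0 true false)) t 1 1 1 = true :=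
  ⟨(T.l 1), by decide +kernel⟩

def B202E_200 :
    ∃ t, chk3 (onCell 0 67108864 0 1073741824 587336777 62277027 (corW 3 c0B eng mog cB202E gB2q2 gB0q2 gB0q0 gB1q0 dB2q2 dB0q2 dB0q0 dB1q0 true true)) t 1 1 1 = true :=
  ⟨(T.l 1), by decide +kernel⟩

def B202E_201 :
    ∃ t, chk3 (onCell 0 67108864 0 1073741824 587336777 62277027 (corW 3 c0B eng mog cB202E gB2q2 gB0q2 gB1q0 gB2q0 dB2q2 dB0q2 dB1q0 dB2q0 true true)) t 1 1 1 = true :=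
  ⟨(T.l 1), by decide +kernel⟩

def B202E_202 :
    ∃ t, chk3 (onCell 0 67108864 0 1073741824 587336777 62277027 (corW 3 c0B eng mog cB202E gB2q2 gB0q2 gB2q0 gB3q0 dB2q2 dB0q2 dB2q0 dB3q0 true true)) t 1 1 1 = true :=
  ⟨(T.l 1), by decide +kernel⟩

def B202E_203 :
    ∃ t, chk3 (onCell 0 67108864 0 1073741824 587336777 62277027 (corW 3 c0B eng mog cB202E gB2q2 gB0q2 gB3q0 gB4q0 dB2q2 dB0q2 dB3q0 dB4q0 true true)) t 1 1 1 = true :=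
  ⟨(T.l 1), by decide +kernel⟩

def B202E_204 :
    ∃ t, chk3 (onCell 0 67108864 0 1073741824 587336777 62277027 (corW 3 c0B eng mog cB202E gB2q2 gB0q2 gB4q0 gB5q0 dB2q2 dB0q2 dB4q0 dB5q0 true false)) t 1 1 1 = true :=
  ⟨(T.l 1), by decide +kernel⟩

def B202E_210 :
    ∃ t, chk3 (onCell 0 67108864 0 1073741824 587336777 62277027 (corW 3 c0B eng mog cB202E gB2q2 gB1q2 gB0q0 gB1q0 dB2q2 dB1q2 dB0q0 dB1q0 true true)) t 1 1 1 = true :=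
  ⟨(T.l 1), by decide +kernel⟩

def B202E_211 :
    ∃ t, chk3 (onCell 0 67108864 0 1073741824 587336777 62277027 (corW 3 c0B eng mog cB202E gB2q2 gB1q2 gB1q0 gB2q0 dB2q2 dB1q2 dB1q0 dB2q0 true true)) t 1 1 1 = true :=
  ⟨(T.l 1), by decide +kernel⟩

def B202E_212 :
    ∃ t, chk3 (onCell 0 67108864 0 1073741824 587336777 62277027 (corW 3 c0B eng mog cB202E gB2q2 gB1q2 gB2q0 gB3q0 dB2q2 dB1q2 dB2q0 dB3q0 true true)) t 1 1 1 = true :=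
  ⟨(T.l 1), by decide +kernel⟩

def B202E_213 :
    ∃ t, chk3 (onCell 0 67108864 0 1073741824 587336777 62277027 (corW 3 c0B eng mog cB202E gB2q2 gB1q2 gB3q0 gB4q0 dB2q2 dB1q2 dB3q0 dB4q0 true true)) t 1 1 1 = true :=
  ⟨(T.l 1), by decide +kernel⟩

def B202E_214 :
    ∃ t, chk3 (onCell 0 67108864 0 1073741824 587336777 62277027 (corW 3 c0B eng mog cB202E gB2q2 gB1q2 gB4q0 gB5q0 dB2q2 dB1q2 dB4q0 dB5q0 true false)) t 1 1 1 = true :=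
  ⟨(T.l 1), by decide +kernel⟩

def B202E_220 :
    ∃ t, chk3 (onCell 0 67108864 0 1073741824 587336777 62277027 (corW 3 c0B eng mog cB202E gB2q2 gB2q2 gB0q0 gB1q0 dB2q2 dB2q2 dB0q0 dB1q0 true true)) t 1 1 1 = true :=
  ⟨(T.l 1), by decide +kernel⟩

def B202E_221 :
    ∃ t, chk3 (onCell 0 67108864 0 1073741824 587336777 62277027 (corW 3 c0B eng mog cB202E gB2q2 gB2q2 gB1q0 gB2q0 dB2q2 dB2q2 dB1q0 dB2q0 true true)) t 1 1 1 = true :=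
  ⟨(T.l 1), by decide +kernel⟩

def B202E_222 :
    ∃ t, chk3 (onCell 0 67108864 0 1073741824 587336777 62277027 (corW 3 c0B eng mog cB202E gB2q2 gB2q2 gB2q0 gB3q0 dB2q2 dB2q2 dB2q0 dB3q0 true true)) t 1 1 1 = true :=
  ⟨(T.l 1), by decide +kernel⟩

def B202E_223 :
    ∃ t, chk3 (onCell 0 67108864 0 1073741824 587336777 62277027 (corW 3 c0B eng mog cB202E gB2q2 gB2q2 gB3q0 gB4q0 dB2q2 dB2q2 dB3q0 dB4q0 true true)) t 1 1 1 = true :=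
  ⟨(T.l 1), by decide +kernel⟩

def B202E_224 :
    ∃ t, chk3 (onCell 0 67108864 0 1073741824 587336777 62277027 (corW 3 c0B eng mog cB202E gB2q2 gB2q2 gB4q0 gB5q0 dB2q2 dB2q2 dB4q0 dB5q0 true false)) t 1 1 1 = true :=
  ⟨(T.l 1), by decide +kernel⟩

def B202E_230 :
    ∃ t, chk3 (onCell 0 67108864 0 1073741824 587336777 62277027 (corW 3 c0B eng mog cB202E gB2q2 gB3q2 gB0q0 gB1q0 dB2q2 dB3q2 dB0q0 dB1q0 true true)) t 1 1 1 = true :=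
  ⟨(T.l 1), by decide +kernel⟩

def B202E_231 :
    ∃ t, chk3 (onCell 0 67108864 0 1073741824 587336777 62277027 (corW 3 c0B eng mog cB202E gB2q2 gB3q2 gB1q0 gB2q0 dB2q2 dB3q2 dB1q0 dB2q0 true true)) t 1 1 1 = true :=
  ⟨(T.l 1), by decide +kernel⟩

def B202E_232 :
    ∃ t, chk3 (onCell 0 67108864 0 1073741824 587336777 62277027 (corW 3 c0B eng mog cB202E gB2q2 gB3q2 gB2q0 gB3q0 dB2q2 dB3q2 dB2q0 dB3q0 true true)) t 1 1 1 = true :=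
  ⟨(T.l 1), by decide +kernel⟩

def B202E_233 :
    ∃ t, chk3 (onCell 0 67108864 0 1073741824 587336777 62277027 (corW 3 c0B eng mog cB202E gB2q2 gB3q2 gB3q0 gB4q0 dB2q2 dB3q2 dB3q0 dB4q0 true true)) t 1 1 1 = true :=
  ⟨(T.l 1), by decide +kernel⟩

def B202E_234 :
    ∃ t, chk3 (onCell 0 67108864 0 1073741824 587336777 62277027 (corW 3 c0B eng mog cB202E gB2q2 gB3q2 gB4q0 gB5q0 dB2q2 dB3q2 dB4q0 dB5q0 true false)) t 1 1 1 = true :=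
  ⟨(T.l 1), by decide +kernel⟩

def B202E_240 :
    ∃ t, chk3 (onCell 0 67108864 0 1073741824 587336777 62277027 (corW 3 c0B eng mog cB202E gB2q2 gB4q2 gB0q0 gB1q0 dB2q2 dB4q2 dB0q0 dB1q0 true true)) t 1 1 1 = true :=
  ⟨(T.l 1), by decide +kernel⟩

end Pool.Agent.Strip051.G.I5470_6050.Tab.CW
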