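import Pool.Agent.Strip051.G.I5470_6050.CrnB
import Pool.Agent.Strip051.G.I5470_6050.CG_1
import Pool.Agent.Strip051.G.I5470_6050.CG_2
import Pool.Agent.Strip051.G.I5470_6050.CW_1
import Pool.Agent.Strip051.G.I5470_6050.CW_2

/-! # Aligned corners: the alternatives (generated) -/

set_option linter.all false

namespace Pool.Agent.Strip051.G.I5470_6050.Tab

open Pool.Agent.Strip051.PB Pool.Agent.StripNear Pool.Agent.Strip051.LC

theorem altB_B012R_11 {κ x : ℝ} (hκ : κ * h0 = ken x) (hx : ((587336777 : ℕ) : ℝ) / S ≤ x) (hx' : x ≤ (((587336777 : ℕ) : ℝ) + (62277027 : ℕ)) / S) :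
    AltEB 3 κ (eng.v x) (3 / 40) (tnt (h0 * x) (3 / 10)) PP tK tL tC pcB (scP esg pd) [⟨0, 0, 0, 67108864⟩, ⟨1, 1, 0, 67108864⟩, ⟨2, 1, 0, 67108864⟩] 0 1 2 1 1 (sgb true) (sgb false) x := by
  have X : XR 67108864 x := XR.of hx hx' (by norm_num) (by norm_num) (by norm_num) (by norm_num)
  have hen : 0 < eng.v x := en_pos X.x0.le
  refine CornW.altB (C := cB012R) (j := (1 : Fin 8)) (k := (1 : Fin 8)) (Ef := esg) (pd := pd) (o := 3 / 40)
    (cornW_of (C := cB012R) (C0 := c0B) (En := eng) (mo := mog) (j := (1 : Fin 8)) (k := (1 : Fin 8)) (lo := 5) (hi := 7) (W := 67108864) (N0 := 3) cB012R_q (sideB hx hx') gokB (pinU hx hx') dokB X (by norm_num) (by norm_num) (l := (5 : Fin 8)) rfl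
      (gatB10 x) (gatB12 x) (gatB51 x) (datB10 x) (datB12 x) (datB51 x) ?_)
    (cornS_of (C := cB012R) (C0 := c0B) (j := (1 : Fin 8)) (k := (1 : Fin 8)) (lo := 5) (hi := 7) (W := 67108864) (N0 := 3) cB012R_q (sideB hx hx') gokB X (by norm_num) (by norm_num) (l := (5 : Fin 8)) rfl
      (gatB10 x) (gatB12 x) (gatB51 x) ?_)
    (thU (pinU hx hx')) rfl hκ (fun j q y => tC_eq j q y x) (esg_rng X.x0.le (by linarith [X.b, X.p0])).1 (mo_v x) le_rfl le_rfl
  · intro ρ a B hρ hd i h1 h2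
    fin_cases i
    · exact absurd h1 (by norm_num)
    · exact absurd h1 (by norm_num)
    · exact absurd h1 (by norm_num)
    · exact absurd h1 (by norm_num)
    · exact corW_cert (G1 := gB1q0) (G2 := gB1q2) (Ga := gB4q1) (Gb := gB5q1) (D1 := dB1q0) (D2 := dB1q2) (Da := dB4q1) (Db := dB5q1) cB012R_ok B hρ hen (gatB10 x) (gatB12 x) (fun h => absurd h (by decide)) (fun _ => gatB51 x) (datB10 x) (datB12 x) (fun h => absurd h (by decide)) (fun _ => datB51 x) hd hx hx' CW.B012R_114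
    · exact corW_cert (G1 := gB1q0) (G2 := gB1q2) (Ga := gB5q1) (Gb := gB6q1) (D1 := dB1q0) (D2 := dB1q2) (Da := dB5q1) (Db := dB6q1) cB012R_ok B hρ hen (gatB10 x) (gatB12 x) (fun _ => gatB51 x) (fun _ => gatB61 x) (datB10 x) (datB12 x) (fun _ => datB51 x) (fun _ => datB61 x) hd hx hx' CW.B012R_115
    · exact corW_cert (G1 := gB1q0) (G2 := gB1q2) (Ga := gB6q1) (Gb := gB7q1) (D1 := dB1q0) (D2 := dB1q2) (Da := dB6q1) (Db := dB7q1) cB012R_ok B hρ hen (gatB10 x) (gatB12 x) (fun _ => gatB61 x) (fun _ => gatB71 x) (datB10 x) (datB12 x) (fun _ => datB61 x) (fun _ => datB71 x) hd hx hx' CW.B012R_116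
  · intro ρ a B hρ hd i h1 h2
    fin_cases i
    · exact absurd h1 (by norm_num)
    · exact absurd h1 (by norm_num)
    · exact absurd h1 (by norm_num)
    · exact absurd h1 (by norm_num)
    · exact corT_cert (G1 := gB1q0) (G2 := gB1q2) (Ga := gB4q1) (Gb := gB5q1) cB012R_ok B hρ (gatB10 x) (gatB12 x) (fun h => absurd h (by decide)) (fun _ => gatB51 x) hd hx hx' CG.B012R_114
    · exact corT_cert (G1 := gB1q0) (G2 := gB1q2) (Ga := gB5q1) (Gb := gB6q1) cB012R_ok B hρ (gatB10 x) (gatB12 x) (fun _ => gatB51 x) (fun _ => gatB61 x) hd hx hx' CG.B012R_115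
    · exact corT_cert (G1 := gB1q0) (G2 := gB1q2) (Ga := gB6q1) (Gb := gB7q1) cB012R_ok B hρ (gatB10 x) (gatB12 x) (fun _ => gatB61 x) (fun _ => gatB71 x) hd hx hx' CG.B012R_116

theorem altB_B012R_12 {κ x : ℝ} (hκ : κ * h0 = ken x) (hx : ((587336777 : ℕ) : ℝ) / S ≤ x) (hx' : x ≤ (((587336777 : ℕ) : ℝ) + (62277027 : ℕ)) / S) :
    AltEB 3 κ (eng.v x) (3 / 40) (tnt (h0 * x) (3 / 10)) PP tK tL tC pcB (scP esg pd) [⟨0, 0, 0, 67108864⟩, ⟨1, 1, 0, 67108864⟩, ⟨2, 1, 0, 67108864⟩] 0 1 2 1 2 (sgb true) (sgb false) x := by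
  have X : XR 67108864 x := XR.of hx hx' (by norm_num) (by norm_num) (by norm_num) (by norm_num)
  have hen : 0 < eng.v x := en_pos X.x0.le
  refine CornW.altB (C := cB012R) (j := (1 : Fin 8)) (k := (2 : Fin 8)) (Ef := esg) (pd := pd) (o := 3 / 40)
    (cornW_of (C := cB012R) (C0 := c0B) (En := eng) (mo := mog) (j := (1 : Fin 8)) (k := (2 : Fin 8)) (lo := 5) (hi := 7) (W := 67108864) (N0 := 3) cB012R_q (sideB hx hx') gokB (pinU hx hx') dokB X (by norm_num) (by norm_num) (l := (5 : Fin 8)) rfl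
      (gatB10 x) (gatB22 x) (gatB51 x) (datB10 x) (datB22 x) (datB51 x) ?_)
    (cornS_of (C := cB012R) (C0 := c0B) (j := (1 : Fin 8)) (k := (2 : Fin 8)) (lo := 5) (hi := 7) (W := 67108864) (N0 := 3) cB012R_q (sideB hx hx') gokB X (by norm_num) (by norm_num) (l := (5 : Fin 8)) rfl
      (gatB10 x) (gatB22 x) (gatB51 x) ?_)
    (thU (pinU hx hx')) rfl hκ (fun j q y => tC_eq j q y x) (esg_rng X.x0.le (by linarith [X.b, X.p0])).1 (mo_v x) le_rfl le_rfl
  · intro ρ a B hρ hd i h1 h2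
    fin_cases i
    · exact absurd h1 (by norm_num)
    · exact absurd h1 (by norm_num)
    · exact absurd h1 (by norm_num)
    · exact absurd h1 (by norm_num)
    · exact corW_cert (G1 := gB1q0) (G2 := gB2q2) (Ga := gB4q1) (Gb := gB5q1) (D1 := dB1q0) (D2 := dB2q2) (Da := dB4q1) (Db := dB5q1) cB012R_ok B hρ hen (gatB10 x) (gatB22 x) (fun h => absurd h (by decide)) (fun _ => gatB51 x) (datB10 x) (datB22 x) (fun h => absurd h (by decide)) (fun _ => datB51 x) hd hx hx' CW.B012R_124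
    · exact corW_cert (G1 := gB1q0) (G2 := gB2q2) (Ga := gB5q1) (Gb := gB6q1) (D1 := dB1q0) (D2 := dB2q2) (Da := dB5q1) (Db := dB6q1) cB012R_ok B hρ hen (gatB10 x) (gatB22 x) (fun _ => gatB51 x) (fun _ => gatB61 x) (datB10 x) (datB22 x) (fun _ => datB51 x) (fun _ => datB61 x) hd hx hx' CW.B012R_125
    · exact corW_cert (G1 := gB1q0) (G2 := gB2q2) (Ga := gB6q1) (Gb := gB7q1) (D1 := dB1q0) (D2 := dB2q2) (Da := dB6q1) (Db := dB7q1) cB012R_ok B hρ hen (gatB10 x) (gatB22 x) (fun _ => gatB61 x) (fun _ => gatB71 x) (datB10 x) (datB22 x) (fun _ => datB61 x) (fun _ => datB71 x) hd hx hx' CW.B012R_126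
  · intro ρ a B hρ hd i h1 h2
    fin_cases i
    · exact absurd h1 (by norm_num)
    · exact absurd h1 (by norm_num)
    · exact absurd h1 (by norm_num)
    · exact absurd h1 (by norm_num)
    · exact corT_cert (G1 := gB1q0) (G2 := gB2q2) (Ga := gB4q1) (Gb := gB5q1) cB012R_ok B hρ (gatB10 x) (gatB22 x) (fun h => absurd h (by decide)) (fun _ => gatB51 x) hd hx hx' CG.B012R_124
    · exact corT_cert (G1 := gB1q0) (G2 := gB2q2) (Ga := gB5q1) (Gb := gB6q1) cB012R_ok B hρ (gatB10 x) (gatB22 x) (fun _ => gatB51 x) (fun _ => gatB61 x) hd hx hx' CG.B012R_125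
    · exact corT_cert (G1 := gB1q0) (G2 := gB2q2) (Ga := gB6q1) (Gb := gB7q1) cB012R_ok B hρ (gatB10 x) (gatB22 x) (fun _ => gatB61 x) (fun _ => gatB71 x) hd hx hx' CG.B012R_126

theorem altB_B012R_13 {κ x : ℝ} (hκ : κ * h0 = ken x) (hx : ((587336777 : ℕ) : ℝ) / S ≤ x) (hx' : x ≤ (((587336777 : ℕ) : ℝ) + (62277027 : ℕ)) / S) :
    AltEB 3 κ (eng.v x) (3 / 40) (tnt (h0 * x) (3 / 10)) PP tK tL tC pcB (scP esg pd) [⟨0, 0, 0, 67108864⟩, ⟨1, 1, 0, 67108864⟩, ⟨2, 1, 0, 67108864⟩] 0 1 2 1 3 (sgb true) (sgb false) x := by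
  have X : XR 67108864 x := XR.of hx hx' (by norm_num) (by norm_num) (by norm_num) (by norm_num)
  have hen : 0 < eng.v x := en_pos X.x0.le
  refine CornW.altB (C := cB012R) (j := (1 : Fin 8)) (k := (3 : Fin 8)) (Ef := esg) (pd := pd) (o := 3 / 40)
    (cornW_of (C := cB012R) (C0 := c0B) (En := eng) (mo := mog) (j := (1 : Fin 8)) (k := (3 : Fin 8)) (lo := 5) (hi := 7) (W := 67108864) (N0 := 3) cB012R_q (sideB hx hx') gokB (pinU hx hx') dokB X (by norm_num) (by norm_num) (l := (5 : Fin 8)) rfl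
      (gatB10 x) (gatB32 x) (gatB51 x) (datB10 x) (datB32 x) (datB51 x) ?_)
    (cornS_of (C := cB012R) (C0 := c0B) (j := (1 : Fin 8)) (k := (3 : Fin 8)) (lo := 5) (hi := 7) (W := 67108864) (N0 := 3) cB012R_q (sideB hx hx') gokB X (by norm_num) (by norm_num) (l := (5 : Fin 8)) rfl
      (gatB10 x) (gatB32 x) (gatB51 x) ?_)
    (thU (pinU hx hx')) rfl hκ (fun j q y => tC_eq j q y x) (esg_rng X.x0.le (by linarith [X.b, X.p0])).1 (mo_v x) le_rfl le_rfl
  · intro ρ a B hρ hd i h1 h2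
    fin_cases i
    · exact absurd h1 (by norm_num)
    · exact absurd h1 (by norm_num)
    · exact absurd h1 (by norm_num)
    · exact absurd h1 (by norm_num)
    · exact corW_cert (G1 := gB1q0) (G2 := gB3q2) (Ga := gB4q1) (Gb := gB5q1) (D1 := dB1q0) (D2 := dB3q2) (Da := dB4q1) (Db := dB5q1) cB012R_ok B hρ hen (gatB10 x) (gatB32 x) (fun h => absurd h (by decide)) (fun _ => gatB51 x) (datB10 x) (datB32 x) (fun h => absurd h (by decide)) (fun _ => datB51 x) hd hx hx' CW.B012R_134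
    · exact corW_cert (G1 := gB1q0) (G2 := gB3q2) (Ga := gB5q1) (Gb := gB6q1) (D1 := dB1q0) (D2 := dB3q2) (Da := dB5q1) (Db := dB6q1) cB012R_ok B hρ hen (gatB10 x) (gatB32 x) (fun _ => gatB51 x) (fun _ => gatB61 x) (datB10 x) (datB32 x) (fun _ => datB51 x) (fun _ => datB61 x) hd hx hx' CW.B012R_135
    · exact corW_cert (G1 := gB1q0) (G2 := gB3q2) (Ga := gB6q1) (Gb := gB7q1) (D1 := dB1q0) (D2 := dB3q2) (Da := dB6q1) (Db := dB7q1) cB012R_ok B hρ hen (gatB10 x) (gatB32 x) (fun _ => gatB61 x) (fun _ => gatB71 x) (datB10 x) (datB32 x) (fun _ => datB61 x) (fun _ => datB71 x) hd hx hx' CW.B012R_136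
  · intro ρ a B hρ hd i h1 h2
    fin_cases i
    · exact absurd h1 (by norm_num)
    · exact absurd h1 (by norm_num)
    · exact absurd h1 (by norm_num)
    · exact absurd h1 (by norm_num)
    · exact corT_cert (G1 := gB1q0) (G2 := gB3q2) (Ga := gB4q1) (Gb := gB5q1) cB012R_ok B hρ (gatB10 x) (gatB32 x) (fun h => absurd h (by decide)) (fun _ => gatB51 x) hd hx hx' CG.B012R_134
    · exact corT_cert (G1 := gB1q0) (G2 := gB3q2) (Ga := gB5q1) (Gb := gB6q1) cB012R_ok B hρ (gatB10 x) (gatB32 x) (fun _ => gatB51 x) (fun _ => gatB61 x) hd hx hx' CG.B012R_135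
    · exact corT_cert (G1 := gB1q0) (G2 := gB3q2) (Ga := gB6q1) (Gb := gB7q1) cB012R_ok B hρ (gatB10 x) (gatB32 x) (fun _ => gatB61 x) (fun _ => gatB71 x) hd hx hx' CG.B012R_136

theorem altB_B012R_14 {κ x : ℝ} (hκ : κ * h0 = ken x) (hx : ((587336777 : ℕ) : ℝ) / S ≤ x) (hx' : x ≤ (((587336777 : ℕ) : ℝ) + (62277027 : ℕ)) / S) :
    AltEB 3 κ (eng.v x) (3 / 40) (tnt (h0 * x) (3 / 10)) PP tK tL tC pcB (scP esg pd) [⟨0, 0, 0, 67108864⟩, ⟨1, 1, 0, 67108864⟩, ⟨2, 1, 0, 67108864⟩] 0 1 2 1 4 (sgb true) (sgb false) x := by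
  have X : XR 67108864 x := XR.of hx hx' (by norm_num) (by norm_num) (by norm_num) (by norm_num)
  have hen : 0 < eng.v x := en_pos X.x0.le
  refine CornW.altB (C := cB012R) (j := (1 : Fin 8)) (k := (4 : Fin 8)) (Ef := esg) (pd := pd) (o := 3 / 40)
    (cornW_of (C := cB012R) (C0 := c0B) (En := eng) (mo := mog) (j := (1 : Fin 8)) (k := (4 : Fin 8)) (lo := 5) (hi := 7) (W := 67108864) (N0 := 3) cB012R_q (sideB hx hx') gokB (pinU hx hx') dokB X (by norm_num) (by norm_num) (l := (5 : Fin 8)) rfl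
      (gatB10 x) (gatB42 x) (gatB51 x) (datB10 x) (datB42 x) (datB51 x) ?_)
    (cornS_of (C := cB012R) (C0 := c0B) (j := (1 : Fin 8)) (k := (4 : Fin 8)) (lo := 5) (hi := 7) (W := 67108864) (N0 := 3) cB012R_q (sideB hx hx') gokB X (by norm_num) (by norm_num) (l := (5 : Fin 8)) rfl
      (gatB10 x) (gatB42 x) (gatB51 x) ?_)
    (thU (pinU hx hx')) rfl hκ (fun j q y => tC_eq j q y x) (esg_rng X.x0.le (by linarith [X.b, X.p0])).1 (mo_v x) le_rfl le_rfl
  · intro ρ a B hρ hd i h1 h2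
    fin_cases i
    · exact absurd h1 (by norm_num)
    · exact absurd h1 (by norm_num)
    · exact absurd h1 (by norm_num)
    · exact absurd h1 (by norm_num)
    · exact corW_cert (G1 := gB1q0) (G2 := gB4q2) (Ga := gB4q1) (Gb := gB5q1) (D1 := dB1q0) (D2 := dB4q2) (Da := dB4q1) (Db := dB5q1) cB012R_ok B hρ hen (gatB10 x) (gatB42 x) (fun h => absurd h (by decide)) (fun _ => gatB51 x) (datB10 x) (datB42 x) (fun h => absurd h (by decide)) (fun _ => datB51 x) hd hx hx' CW.B012R_144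
    · exact corW_cert (G1 := gB1q0) (G2 := gB4q2) (Ga := gB5q1) (Gb := gB6q1) (D1 := dB1q0) (D2 := dB4q2) (Da := dB5q1) (Db := dB6q1) cB012R_ok B hρ hen (gatB10 x) (gatB42 x) (fun _ => gatB51 x) (fun _ => gatB61 x) (datB10 x) (datB42 x) (fun _ => datB51 x) (fun _ => datB61 x) hd hx hx' CW.B012R_145
    · exact corW_cert (G1 := gB1q0) (G2 := gB4q2) (Ga := gB6q1) (Gb := gB7q1) (D1 := dB1q0) (D2 := dB4q2) (Da := dB6q1) (Db := dB7q1) cB012R_ok B hρ hen (gatB10 x) (gatB42 x) (fun _ => gatB61 x) (fun _ => gatB71 x) (datB10 x) (datB42 x) (fun _ => datB61 x) (fun _ => datB71 x) hd hx hx' CW.B012R_146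
  · intro ρ a B hρ hd i h1 h2
    fin_cases i
    · exact absurd h1 (by norm_num)
    · exact absurd h1 (by norm_num)
    · exact absurd h1 (by norm_num)
    · exact absurd h1 (by norm_num)
    · exact corT_cert (G1 := gB1q0) (G2 := gB4q2) (Ga := gB4q1) (Gb := gB5q1) cB012R_ok B hρ (gatB10 x) (gatB42 x) (fun h => absurd h (by decide)) (fun _ => gatB51 x) hd hx hx' CG.B012R_144
    · exact corT_cert (G1 := gB1q0) (G2 := gB4q2) (Ga := gB5q1) (Gb := gB6q1) cB012R_ok B hρ (gatB10 x) (gatB42 x) (fun _ => gatB51 x) (fun _ => gatB61 x) hd hx hx' CG.B012R_145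
    · exact corT_cert (G1 := gB1q0) (G2 := gB4q2) (Ga := gB6q1) (Gb := gB7q1) cB012R_ok B hρ (gatB10 x) (gatB42 x) (fun _ => gatB61 x) (fun _ => gatB71 x) hd hx hx' CG.B012R_146

theorem altB_B012R_20 {κ x : ℝ} (hκ : κ * h0 = ken x) (hx : ((587336777 : ℕ) : ℝ) / S ≤ x) (hx' : x ≤ (((587336777 : ℕ) : ℝ) + (62277027 : ℕ)) / S) :
    AltEB 3 κ (eng.v x) (3 / 40) (tnt (h0 * x) (3 / 10)) PP tK tL tC pcB (scP esg pd) [⟨0, 0, 0, 67108864⟩, ⟨1, 1, 0, 67108864⟩, ⟨2, 1, 0, 67108864⟩] 0 1 2 2 0 (sgb true) (sgb false) x := by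
  have X : XR 67108864 x := XR.of hx hx' (by norm_num) (by norm_num) (by norm_num) (by norm_num)
  have hen : 0 < eng.v x := en_pos X.x0.le
  refine CornW.altB (C := cB012R) (j := (2 : Fin 8)) (k := (0 : Fin 8)) (Ef := esg) (pd := pd) (o := 3 / 40)
    (cornW_of (C := cB012R) (C0 := c0B) (En := eng) (mo := mog) (j := (2 : Fin 8)) (k := (0 : Fin 8)) (lo := 5) (hi := 7) (W := 67108864) (N0 := 3) cB012R_q (sideB hx hx') gokB (pinU hx hx') dokB X (by norm_num) (by norm_num) (l := (5 : Fin 8)) rfl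
      (gatB20 x) (gatB02 x) (gatB51 x) (datB20 x) (datB02 x) (datB51 x) ?_)
    (cornS_of (C := cB012R) (C0 := c0B) (j := (2 : Fin 8)) (k := (0 : Fin 8)) (lo := 5) (hi := 7) (W := 67108864) (N0 := 3) cB012R_q (sideB hx hx') gokB X (by norm_num) (by norm_num) (l := (5 : Fin 8)) rfl
      (gatB20 x) (gatB02 x) (gatB51 x) ?_)
    (thU (pinU hx hx')) rfl hκ (fun j q y => tC_eq j q y x) (esg_rng X.x0.le (by linarith [X.b, X.p0])).1 (mo_v x) le_rfl le_rfl
  · intro ρ a B hρ hd i h1 h2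
    fin_cases i
    · exact absurd h1 (by norm_num)
    · exact absurd h1 (by norm_num)
    · exact absurd h1 (by norm_num)
    · exact absurd h1 (by norm_num)
    · exact corW_cert (G1 := gB2q0) (G2 := gB0q2) (Ga := gB4q1) (Gb := gB5q1) (D1 := dB2q0) (D2 := dB0q2) (Da := dB4q1) (Db := dB5q1) cB012R_ok B hρ hen (gatB20 x) (gatB02 x) (fun h => absurd h (by decide)) (fun _ => gatB51 x) (datB20 x) (datB02 x) (fun h => absurd h (by decide)) (fun _ => datB51 x) hd hx hx' CW.B012R_204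
    · exact corW_cert (G1 := gB2q0) (G2 := gB0q2) (Ga := gB5q1) (Gb := gB6q1) (D1 := dB2q0) (D2 := dB0q2) (Da := dB5q1) (Db := dB6q1) cB012R_ok B hρ hen (gatB20 x) (gatB02 x) (fun _ => gatB51 x) (fun _ => gatB61 x) (datB20 x) (datB02 x) (fun _ => datB51 x) (fun _ => datB61 x) hd hx hx' CW.B012R_205
    · exact corW_cert (G1 := gB2q0) (G2 := gB0q2) (Ga := gB6q1) (Gb := gB7q1) (D1 := dB2q0) (D2 := dB0q2) (Da := dB6q1) (Db := dB7q1) cB012R_ok B hρ hen (gatB20 x) (gatB02 x) (fun _ => gatB61 x) (fun _ => gatB71 x) (datB20 x) (datB02 x) (fun _ => datB61 x) (fun _ => datB71 x) hd hx hx' CW.B012R_206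
  · intro ρ a B hρ hd i h1 h2
    fin_cases i
    · exact absurd h1 (by norm_num)
    · exact absurd h1 (by norm_num)
    · exact absurd h1 (by norm_num)
    · exact absurd h1 (by norm_num)
    · exact corT_cert (G1 := gB2q0) (G2 := gB0q2) (Ga := gB4q1) (Gb := gB5q1) cB012R_ok B hρ (gatB20 x) (gatB02 x) (fun h => absurd h (by decide)) (fun _ => gatB51 x) hd hx hx' CG.B012R_204
    · exact corT_cert (G1 := gB2q0) (G2 := gB0q2) (Ga := gB5q1) (Gb := gB6q1) cB012R_ok B hρ (gatB20 x) (gatB02 x) (fun _ => gatB51 x) (fun _ => gatB61 x) hd hx hx' CG.B012R_205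
    · exact corT_cert (G1 := gB2q0) (G2 := gB0q2) (Ga := gB6q1) (Gb := gB7q1) cB012R_ok B hρ (gatB20 x) (gatB02 x) (fun _ => gatB61 x) (fun _ => gatB71 x) hd hx hx' CG.B012R_206

theorem altB_B012R_21 {κ x : ℝ} (hκ : κ * h0 = ken x) (hx : ((587336777 : ℕ) : ℝ) / S ≤ x) (hx' : x ≤ (((587336777 : ℕ) : ℝ) + (62277027 : ℕ)) / S) :
    AltEB 3 κ (eng.v x) (3 / 40) (tnt (h0 * x) (3 / 10)) PP tK tL tC pcB (scP esg pd) [⟨0, 0, 0, 67108864⟩, ⟨1, 1, 0, 67108864⟩, ⟨2, 1, 0, 67108864⟩] 0 1 2 2 1 (sgb true) (sgb false) x := by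
  have X : XR 67108864 x := XR.of hx hx' (by norm_num) (by norm_num) (by norm_num) (by norm_num)
  have hen : 0 < eng.v x := en_pos X.x0.le
  refine CornW.altB (C := cB012R) (j := (2 : Fin 8)) (k := (1 : Fin 8)) (Ef := esg) (pd := pd) (o := 3 / 40)
    (cornW_of (C := cB012R) (C0 := c0B) (En := eng) (mo := mog) (j := (2 : Fin 8)) (k := (1 : Fin 8)) (lo := 5) (hi := 7) (W := 67108864) (N0 := 3) cB012R_q (sideB hx hx') gokB (pinU hx hx') dokB X (by norm_num) (by norm_num) (l := (5 : Fin 8)) rfl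
      (gatB20 x) (gatB12 x) (gatB51 x) (datB20 x) (datB12 x) (datB51 x) ?_)
    (cornS_of (C := cB012R) (C0 := c0B) (j := (2 : Fin 8)) (k := (1 : Fin 8)) (lo := 5) (hi := 7) (W := 67108864) (N0 := 3) cB012R_q (sideB hx hx') gokB X (by norm_num) (by norm_num) (l := (5 : Fin 8)) rfl
      (gatB20 x) (gatB12 x) (gatB51 x) ?_)
    (thU (pinU hx hx')) rfl hκ (fun j q y => tC_eq j q y x) (esg_rng X.x0.le (by linarith [X.b, X.p0])).1 (mo_v x) le_rfl le_rfl
  · intro ρ a B hρ hd i h1 h2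
    fin_cases i
    · exact absurd h1 (by norm_num)
    · exact absurd h1 (by norm_num)
    · exact absurd h1 (by norm_num)
    · exact absurd h1 (by norm_num)
    · exact corW_cert (G1 := gB2q0) (G2 := gB1q2) (Ga := gB4q1) (Gb := gB5q1) (D1 := dB2q0) (D2 := dB1q2) (Da := dB4q1) (Db := dB5q1) cB012R_ok B hρ hen (gatB20 x) (gatB12 x) (fun h => absurd h (by decide)) (fun _ => gatB51 x) (datB20 x) (datB12 x) (fun h => absurd h (by decide)) (fun _ => datB51 x) hd hx hx' CW.B012R_214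
    · exact corW_cert (G1 := gB2q0) (G2 := gB1q2) (Ga := gB5q1) (Gb := gB6q1) (D1 := dB2q0) (D2 := dB1q2) (Da := dB5q1) (Db := dB6q1) cB012R_ok B hρ hen (gatB20 x) (gatB12 x) (fun _ => gatB51 x) (fun _ => gatB61 x) (datB20 x) (datB12 x) (fun _ => datB51 x) (fun _ => datB61 x) hd hx hx' CW.B012R_215
    · exact corW_cert (G1 := gB2q0) (G2 := gB1q2) (Ga := gB6q1) (Gb := gB7q1) (D1 := dB2q0) (D2 := dB1q2) (Da := dB6q1) (Db := dB7q1) cB012R_ok B hρ hen (gatB20 x) (gatB12 x) (fun _ => gatB61 x) (fun _ => gatB71 x) (datB20 x) (datB12 x) (fun _ => datB61 x) (fun _ => datB71 x) hd hx hx' CW.B012R_216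
  · intro ρ a B hρ hd i h1 h2
    fin_cases i
    · exact absurd h1 (by norm_num)
    · exact absurd h1 (by norm_num)
    · exact absurd h1 (by norm_num)
    · exact absurd h1 (by norm_num)
    · exact corT_cert (G1 := gB2q0) (G2 := gB1q2) (Ga := gB4q1) (Gb := gB5q1) cB012R_ok B hρ (gatB20 x) (gatB12 x) (fun h => absurd h (by decide)) (fun _ => gatB51 x) hd hx hx' CG.B012R_214
    · exact corT_cert (G1 := gB2q0) (G2 := gB1q2) (Ga := gB5q1) (Gb := gB6q1) cB012R_ok B hρ (gatB20 x) (gatB12 x) (fun _ => gatB51 x) (fun _ => gatB61 x) hd hx hx' CG.B012R_215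
    · exact corT_cert (G1 := gB2q0) (G2 := gB1q2) (Ga := gB6q1) (Gb := gB7q1) cB012R_ok B hρ (gatB20 x) (gatB12 x) (fun _ => gatB61 x) (fun _ => gatB71 x) hd hx hx' CG.B012R_216

theorem altB_B012R_22 {κ x : ℝ} (hκ : κ * h0 = ken x) (hx : ((587336777 : ℕ) : ℝ) / S ≤ x) (hx' : x ≤ (((587336777 : ℕ) : ℝ) + (62277027 : ℕ)) / S) :
    AltEB 3 κ (eng.v x) (3 / 40) (tnt (h0 * x) (3 / 10)) PP tK tL tC pcB (scP esg pd) [⟨0, 0, 0, 67108864⟩, ⟨1, 1, 0, 67108864⟩, ⟨2, 1, 0, 67108864⟩] 0 1 2 2 2 (sgb true) (sgb false) x := by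
  have X : XR 67108864 x := XR.of hx hx' (by norm_num) (by norm_num) (by norm_num) (by norm_num)
  have hen : 0 < eng.v x := en_pos X.x0.le
  refine CornW.altB (C := cB012R) (j := (2 : Fin 8)) (k := (2 : Fin 8)) (Ef := esg) (pd := pd) (o := 3 / 40)
    (cornW_of (C := cB012R) (C0 := c0B) (En := eng) (mo := mog) (j := (2 : Fin 8)) (k := (2 : Fin 8)) (lo := 5) (hi := 7) (W := 67108864) (N0 := 3) cB012R_q (sideB hx hx') gokB (pinU hx hx') dokB X (by norm_num) (by norm_num) (l := (5 : Fin 8)) rfl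
      (gatB20 x) (gatB22 x) (gatB51 x) (datB20 x) (datB22 x) (datB51 x) ?_)
    (cornS_of (C := cB012R) (C0 := c0B) (j := (2 : Fin 8)) (k := (2 : Fin 8)) (lo := 5) (hi := 7) (W := 67108864) (N0 := 3) cB012R_q (sideB hx hx') gokB X (by norm_num) (by norm_num) (l := (5 : Fin 8)) rfl
      (gatB20 x) (gatB22 x) (gatB51 x) ?_)
    (thU (pinU hx hx')) rfl hκ (fun j q y => tC_eq j q y x) (esg_rng X.x0.le (by linarith [X.b, X.p0])).1 (mo_v x) le_rfl le_rfl
  · intro ρ a B hρ hd i h1 h2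
    fin_cases i
    · exact absurd h1 (by norm_num)
    · exact absurd h1 (by norm_num)
    · exact absurd h1 (by norm_num)
    · exact absurd h1 (by norm_num)
    · exact corW_cert (G1 := gB2q0) (G2 := gB2q2) (Ga := gB4q1) (Gb := gB5q1) (D1 := dB2q0) (D2 := dB2q2) (Da := dB4q1) (Db := dB5q1) cB012R_ok B hρ hen (gatB20 x) (gatB22 x) (fun h => absurd h (by decide)) (fun _ => gatB51 x) (datB20 x) (datB22 x) (fun h => absurd h (by decide)) (fun _ => datB51 x) hd hx hx' CW.B012R_224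
    · exact corW_cert (G1 := gB2q0) (G2 := gB2q2) (Ga := gB5q1) (Gb := gB6q1) (D1 := dB2q0) (D2 := dB2q2) (Da := dB5q1) (Db := dB6q1) cB012R_ok B hρ hen (gatB20 x) (gatB22 x) (fun _ => gatB51 x) (fun _ => gatB61 x) (datB20 x) (datB22 x) (fun _ => datB51 x) (fun _ => datB61 x) hd hx hx' CW.B012R_225
    · exact corW_cert (G1 := gB2q0) (G2 := gB2q2) (Ga := gB6q1) (Gb := gB7q1) (D1 := dB2q0) (D2 := dB2q2) (Da := dB6q1) (Db := dB7q1) cB012R_ok B hρ hen (gatB20 x) (gatB22 x) (fun _ => gatB61 x) (fun _ => gatB71 x) (datB20 x) (datB22 x) (fun _ => datB61 x) (fun _ => datB71 x) hd hx hx' CW.B012R_226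
  · intro ρ a B hρ hd i h1 h2
    fin_cases i
    · exact absurd h1 (by norm_num)
    · exact absurd h1 (by norm_num)
    · exact absurd h1 (by norm_num)
    · exact absurd h1 (by norm_num)
    · exact corT_cert (G1 := gB2q0) (G2 := gB2q2) (Ga := gB4q1) (Gb := gB5q1) cB012R_ok B hρ (gatB20 x) (gatB22 x) (fun h => absurd h (by decide)) (fun _ => gatB51 x) hd hx hx' CG.B012R_224
    · exact corT_cert (G1 := gB2q0) (G2 := gB2q2) (Ga := gB5q1) (Gb := gB6q1) cB012R_ok B hρ (gatB20 x) (gatB22 x) (fun _ => gatB51 x) (fun _ => gatB61 x) hd hx hx' CG.B012R_225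
    · exact corT_cert (G1 := gB2q0) (G2 := gB2q2) (Ga := gB6q1) (Gb := gB7q1) cB012R_ok B hρ (gatB20 x) (gatB22 x) (fun _ => gatB61 x) (fun _ => gatB71 x) hd hx hx' CG.B012R_226

theorem altB_B012R_23 {κ x : ℝ} (hκ : κ * h0 = ken x) (hx : ((587336777 : ℕ) : ℝ) / S ≤ x) (hx' : x ≤ (((587336777 : ℕ) : ℝ) + (62277027 : ℕ)) / S) :
    AltEB 3 κ (eng.v x) (3 / 40) (tnt (h0 * x) (3 / 10)) PP tK tL tC pcB (scP esg pd) [⟨0, 0, 0, 67108864⟩, ⟨1, 1, 0, 67108864⟩, ⟨2, 1, 0, 67108864⟩] 0 1 2 2 3 (sgb true) (sgb false) x := by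
  have X : XR 67108864 x := XR.of hx hx' (by norm_num) (by norm_num) (by norm_num) (by norm_num)
  have hen : 0 < eng.v x := en_pos X.x0.le
  refine CornW.altB (C := cB012R) (j := (2 : Fin 8)) (k := (3 : Fin 8)) (Ef := esg) (pd := pd) (o := 3 / 40)
    (cornW_of (C := cB012R) (C0 := c0B) (En := eng) (mo := mog) (j := (2 : Fin 8)) (k := (3 : Fin 8)) (lo := 5) (hi := 7) (W := 67108864) (N0 := 3) cB012R_q (sideB hx hx') gokB (pinU hx hx') dokB X (by norm_num) (by norm_num) (l := (5 : Fin 8)) rfl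
      (gatB20 x) (gatB32 x) (gatB51 x) (datB20 x) (datB32 x) (datB51 x) ?_)
    (cornS_of (C := cB012R) (C0 := c0B) (j := (2 : Fin 8)) (k := (3 : Fin 8)) (lo := 5) (hi := 7) (W := 67108864) (N0 := 3) cB012R_q (sideB hx hx') gokB X (by norm_num) (by norm_num) (l := (5 : Fin 8)) rfl
      (gatB20 x) (gatB32 x) (gatB51 x) ?_)
    (thU (pinU hx hx')) rfl hκ (fun j q y => tC_eq j q y x) (esg_rng X.x0.le (by linarith [X.b, X.p0])).1 (mo_v x) le_rfl le_rfl
  · intro ρ a B hρ hd i h1 h2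
    fin_cases i
    · exact absurd h1 (by norm_num)
    · exact absurd h1 (by norm_num)
    · exact absurd h1 (by norm_num)
    · exact absurd h1 (by norm_num)
    · exact corW_cert (G1 := gB2q0) (G2 := gB3q2) (Ga := gB4q1) (Gb := gB5q1) (D1 := dB2q0) (D2 := dB3q2) (Da := dB4q1) (Db := dB5q1) cB012R_ok B hρ hen (gatB20 x) (gatB32 x) (fun h => absurd h (by decide)) (fun _ => gatB51 x) (datB20 x) (datB32 x) (fun h => absurd h (by decide)) (fun _ => datB51 x) hd hx hx' CW.B012R_234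
    · exact corW_cert (G1 := gB2q0) (G2 := gB3q2) (Ga := gB5q1) (Gb := gB6q1) (D1 := dB2q0) (D2 := dB3q2) (Da := dB5q1) (Db := dB6q1) cB012R_ok B hρ hen (gatB20 x) (gatB32 x) (fun _ => gatB51 x) (fun _ => gatB61 x) (datB20 x) (datB32 x) (fun _ => datB51 x) (fun _ => datB61 x) hd hx hx' CW.B012R_235
    · exact corW_cert (G1 := gB2q0) (G2 := gB3q2) (Ga := gB6q1) (Gb := gB7q1) (D1 := dB2q0) (D2 := dB3q2) (Da := dB6q1) (Db := dB7q1) cB012R_ok B hρ hen (gatB20 x) (gatB32 x) (fun _ => gatB61 x) (fun _ => gatB71 x) (datB20 x) (datB32 x) (fun _ => datB61 x) (fun _ => datB71 x) hd hx hx' CW.B012R_236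
  · intro ρ a B hρ hd i h1 h2
    fin_cases i
    · exact absurd h1 (by norm_num)
    · exact absurd h1 (by norm_num)
    · exact absurd h1 (by norm_num)
    · exact absurd h1 (by norm_num)
    · exact corT_cert (G1 := gB2q0) (G2 := gB3q2) (Ga := gB4q1) (Gb := gB5q1) cB012R_ok B hρ (gatB20 x) (gatB32 x) (fun h => absurd h (by decide)) (fun _ => gatB51 x) hd hx hx' CG.B012R_234
    · exact corT_cert (G1 := gB2q0) (G2 := gB3q2) (Ga := gB5q1) (Gb := gB6q1) cB012R_ok B hρ (gatB20 x) (gatB32 x) (fun _ => gatB51 x) (fun _ => gatB61 x) hd hx hx' CG.B012R_235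
    · exact corT_cert (G1 := gB2q0) (G2 := gB3q2) (Ga := gB6q1) (Gb := gB7q1) cB012R_ok B hρ (gatB20 x) (gatB32 x) (fun _ => gatB61 x) (fun _ => gatB71 x) hd hx hx' CG.B012R_236

theorem altB_B012R_24 {κ x : ℝ} (hκ : κ * h0 = ken x) (hx : ((587336777 : ℕ) : ℝ) / S ≤ x) (hx' : x ≤ (((587336777 : ℕ) : ℝ) + (62277027 : ℕ)) / S) :
    AltEB 3 κ (eng.v x) (3 / 40) (tnt (h0 * x) (3 / 10)) PP tK tL tC pcB (scP esg pd) [⟨0, 0, 0, 67108864⟩, ⟨1, 1, 0, 67108864⟩, ⟨2, 1, 0, 67108864⟩] 0 1 2 2 4 (sgb true) (sgb false) x := by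
  have X : XR 67108864 x := XR.of hx hx' (by norm_num) (by norm_num) (by norm_num) (by norm_num)
  have hen : 0 < eng.v x := en_pos X.x0.le
  refine CornW.altB (C := cB012R) (j := (2 : Fin 8)) (k := (4 : Fin 8)) (Ef := esg) (pd := pd) (o := 3 / 40)
    (cornW_of (C := cB012R) (C0 := c0B) (En := eng) (mo := mog) (j := (2 : Fin 8)) (k := (4 : Fin 8)) (lo := 5) (hi := 7) (W := 67108864) (N0 := 3) cB012R_q (sideB hx hx') gokB (pinU hx hx') dokB X (by norm_num) (by norm_num) (l := (5 : Fin 8)) rfl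
      (gatB20 x) (gatB42 x) (gatB51 x) (datB20 x) (datB42 x) (datB51 x) ?_)
    (cornS_of (C := cB012R) (C0 := c0B) (j := (2 : Fin 8)) (k := (4 : Fin 8)) (lo := 5) (hi := 7) (W := 67108864) (N0 := 3) cB012R_q (sideB hx hx') gokB X (by norm_num) (by norm_num) (l := (5 : Fin 8)) rfl
      (gatB20 x) (gatB42 x) (gatB51 x) ?_)
    (thU (pinU hx hx')) rfl hκ (fun j q y => tC_eq j q y x) (esg_rng X.x0.le (by linarith [X.b, X.p0])).1 (mo_v x) le_rfl le_rfl
  · intro ρ a B hρ hd i h1 h2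
    fin_cases i
    · exact absurd h1 (by norm_num)
    · exact absurd h1 (by norm_num)
    · exact absurd h1 (by norm_num)
    · exact absurd h1 (by norm_num)
    · exact corW_cert (G1 := gB2q0) (G2 := gB4q2) (Ga := gB4q1) (Gb := gB5q1) (D1 := dB2q0) (D2 := dB4q2) (Da := dB4q1) (Db := dB5q1) cB012R_ok B hρ hen (gatB20 x) (gatB42 x) (fun h => absurd h (by decide)) (fun _ => gatB51 x) (datB20 x) (datB42 x) (fun h => absurd h (by decide)) (fun _ => datB51 x) hd hx hx' CW.B012R_244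
    · exact corW_cert (G1 := gB2q0) (G2 := gB4q2) (Ga := gB5q1) (Gb := gB6q1) (D1 := dB2q0) (D2 := dB4q2) (Da := dB5q1) (Db := dB6q1) cB012R_ok B hρ hen (gatB20 x) (gatB42 x) (fun _ => gatB51 x) (fun _ => gatB61 x) (datB20 x) (datB42 x) (fun _ => datB51 x) (fun _ => datB61 x) hd hx hx' CW.B012R_245
    · exact corW_cert (G1 := gB2q0) (G2 := gB4q2) (Ga := gB6q1) (Gb := gB7q1) (D1 := dB2q0) (D2 := dB4q2) (Da := dB6q1) (Db := dB7q1) cB012R_ok B hρ hen (gatB20 x) (gatB42 x) (fun _ => gatB61 x) (fun _ => gatB71 x) (datB20 x) (datB42 x) (fun _ => datB61 x) (fun _ => datB71 x) hd hx hx' CW.B012R_246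
  · intro ρ a B hρ hd i h1 h2
    fin_cases i
    · exact absurd h1 (by norm_num)
    · exact absurd h1 (by norm_num)
    · exact absurd h1 (by norm_num)
    · exact absurd h1 (by norm_num)
    · exact corT_cert (G1 := gB2q0) (G2 := gB4q2) (Ga := gB4q1) (Gb := gB5q1) cB012R_ok B hρ (gatB20 x) (gatB42 x) (fun h => absurd h (by decide)) (fun _ => gatB51 x) hd hx hx' CG.B012R_244
    · exact corT_cert (G1 := gB2q0) (G2 := gB4q2) (Ga := gB5q1) (Gb := gB6q1) cB012R_ok B hρ (gatB20 x) (gatB42 x) (fun _ => gatB51 x) (fun _ => gatB61 x) hd hx hx' CG.B012R_245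
    · exact corT_cert (G1 := gB2q0) (G2 := gB4q2) (Ga := gB6q1) (Gb := gB7q1) cB012R_ok B hρ (gatB20 x) (gatB42 x) (fun _ => gatB61 x) (fun _ => gatB71 x) hd hx hx' CG.B012R_246

theorem altB_B012R_30 {κ x : ℝ} (hκ : κ * h0 = ken x) (hx : ((587336777 : ℕ) : ℝ) / S ≤ x) (hx' : x ≤ (((587336777 : ℕ) : ℝ) + (62277027 : ℕ)) / S) :
    AltEB 3 κ (eng.v x) (3 / 40) (tnt (h0 * x) (3 / 10)) PP tK tL tC pcB (scP esg pd) [⟨0, 0, 0, 67108864⟩, ⟨1, 1, 0, 67108864⟩, ⟨2, 1, 0, 67108864⟩] 0 1 2 3 0 (sgb true) (sgb false) x := by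
  have X : XR 67108864 x := XR.of hx hx' (by norm_num) (by norm_num) (by norm_num) (by norm_num)
  have hen : 0 < eng.v x := en_pos X.x0.le
  refine CornW.altB (C := cB012R) (j := (3 : Fin 8)) (k := (0 : Fin 8)) (Ef := esg) (pd := pd) (o := 3 / 40)
    (cornW_of (C := cB012R) (C0 := c0B) (En := eng) (mo := mog) (j := (3 : Fin 8)) (k := (0 : Fin 8)) (lo := 5) (hi := 7) (W := 67108864) (N0 := 3) cB012R_q (sideB hx hx') gokB (pinU hx hx') dokB X (by norm_num) (by norm_num) (l := (5 : Fin 8)) rfl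
      (gatB30 x) (gatB02 x) (gatB51 x) (datB30 x) (datB02 x) (datB51 x) ?_)
    (cornS_of (C := cB012R) (C0 := c0B) (j := (3 : Fin 8)) (k := (0 : Fin 8)) (lo := 5) (hi := 7) (W := 67108864) (N0 := 3) cB012R_q (sideB hx hx') gokB X (by norm_num) (by norm_num) (l := (5 : Fin 8)) rfl
      (gatB30 x) (gatB02 x) (gatB51 x) ?_)
    (thU (pinU hx hx')) rfl hκ (fun j q y => tC_eq j q y x) (esg_rng X.x0.le (by linarith [X.b, X.p0])).1 (mo_v x) le_rfl le_rfl
  · intro ρ a B hρ hd i h1 h2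
    fin_cases i
    · exact absurd h1 (by norm_num)
    · exact absurd h1 (by norm_num)
    · exact absurd h1 (by norm_num)
    · exact absurd h1 (by norm_num)
    · exact corW_cert (G1 := gB3q0) (G2 := gB0q2) (Ga := gB4q1) (Gb := gB5q1) (D1 := dB3q0) (D2 := dB0q2) (Da := dB4q1) (Db := dB5q1) cB012R_ok B hρ hen (gatB30 x) (gatB02 x) (fun h => absurd h (by decide)) (fun _ => gatB51 x) (datB30 x) (datB02 x) (fun h => absurd h (by decide)) (fun _ => datB51 x) hd hx hx' CW.B012R_304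
    · exact corW_cert (G1 := gB3q0) (G2 := gB0q2) (Ga := gB5q1) (Gb := gB6q1) (D1 := dB3q0) (D2 := dB0q2) (Da := dB5q1) (Db := dB6q1) cB012R_ok B hρ hen (gatB30 x) (gatB02 x) (fun _ => gatB51 x) (fun _ => gatB61 x) (datB30 x) (datB02 x) (fun _ => datB51 x) (fun _ => datB61 x) hd hx hx' CW.B012R_305
    · exact corW_cert (G1 := gB3q0) (G2 := gB0q2) (Ga := gB6q1) (Gb := gB7q1) (D1 := dB3q0) (D2 := dB0q2) (Da := dB6q1) (Db := dB7q1) cB012R_ok B hρ hen (gatB30 x) (gatB02 x) (fun _ => gatB61 x) (fun _ => gatB71 x) (datB30 x) (datB02 x) (fun _ => datB61 x) (fun _ => datB71 x) hd hx hx' CW.B012R_306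
  · intro ρ a B hρ hd i h1 h2
    fin_cases i
    · exact absurd h1 (by norm_num)
    · exact absurd h1 (by norm_num)
    · exact absurd h1 (by norm_num)
    · exact absurd h1 (by norm_num)
    · exact corT_cert (G1 := gB3q0) (G2 := gB0q2) (Ga := gB4q1) (Gb := gB5q1) cB012R_ok B hρ (gatB30 x) (gatB02 x) (fun h => absurd h (by decide)) (fun _ => gatB51 x) hd hx hx' CG.B012R_304
    · exact corT_cert (G1 := gB3q0) (G2 := gB0q2) (Ga := gB5q1) (Gb := gB6q1) cB012R_ok B hρ (gatB30 x) (gatB02 x) (fun _ => gatB51 x) (fun _ => gatB61 x) hd hx hx' CG.B012R_305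
    · exact corT_cert (G1 := gB3q0) (G2 := gB0q2) (Ga := gB6q1) (Gb := gB7q1) cB012R_ok B hρ (gatB30 x) (gatB02 x) (fun _ => gatB61 x) (fun _ => gatB71 x) hd hx hx' CG.B012R_306

theorem altB_B012R_31 {κ x : ℝ} (hκ : κ * h0 = ken x) (hx : ((587336777 : ℕ) : ℝ) / S ≤ x) (hx' : x ≤ (((587336777 : ℕ) : ℝ) + (62277027 : ℕ)) / S) :
    AltEB 3 κ (eng.v x) (3 / 40) (tnt (h0 * x) (3 / 10)) PP tK tL tC pcB (scP esg pd) [⟨0, 0, 0, 67108864⟩, ⟨1, 1, 0, 67108864⟩, ⟨2, 1, 0, 67108864⟩] 0 1 2 3 1 (sgb true) (sgb false) x := by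
  have X : XR 67108864 x := XR.of hx hx' (by norm_num) (by norm_num) (by norm_num) (by norm_num)
  have hen : 0 < eng.v x := en_pos X.x0.le
  refine CornW.altB (C := cB012R) (j := (3 : Fin 8)) (k := (1 : Fin 8)) (Ef := esg) (pd := pd) (o := 3 / 40)
    (cornW_of (C := cB012R) (C0 := c0B) (En := eng) (mo := mog) (j := (3 : Fin 8)) (k := (1 : Fin 8)) (lo := 5) (hi := 7) (W := 67108864) (N0 := 3) cB012R_q (sideB hx hx') gokB (pinU hx hx') dokB X (by norm_num) (by norm_num) (l := (5 : Fin 8)) rfl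
      (gatB30 x) (gatB12 x) (gatB51 x) (datB30 x) (datB12 x) (datB51 x) ?_)
    (cornS_of (C := cB012R) (C0 := c0B) (j := (3 : Fin 8)) (k := (1 : Fin 8)) (lo := 5) (hi := 7) (W := 67108864) (N0 := 3) cB012R_q (sideB hx hx') gokB X (by norm_num) (by norm_num) (l := (5 : Fin 8)) rfl
      (gatB30 x) (gatB12 x) (gatB51 x) ?_)
    (thU (pinU hx hx')) rfl hκ (fun j q y => tC_eq j q y x) (esg_rng X.x0.le (by linarith [X.b, X.p0])).1 (mo_v x) le_rfl le_rfl
  · intro ρ a B hρ hd i h1 h2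
    fin_cases i
    · exact absurd h1 (by norm_num)
    · exact absurd h1 (by norm_num)
    · exact absurd h1 (by norm_num)
    · exact absurd h1 (by norm_num)
    · exact corW_cert (G1 := gB3q0) (G2 := gB1q2) (Ga := gB4q1) (Gb := gB5q1) (D1 := dB3q0) (D2 := dB1q2) (Da := dB4q1) (Db := dB5q1) cB012R_ok B hρ hen (gatB30 x) (gatB12 x) (fun h => absurd h (by decide)) (fun _ => gatB51 x) (datB30 x) (datB12 x) (fun h => absurd h (by decide)) (fun _ => datB51 x) hd hx hx' CW.B012R_314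
    · exact corW_cert (G1 := gB3q0) (G2 := gB1q2) (Ga := gB5q1) (Gb := gB6q1) (D1 := dB3q0) (D2 := dB1q2) (Da := dB5q1) (Db := dB6q1) cB012R_ok B hρ hen (gatB30 x) (gatB12 x) (fun _ => gatB51 x) (fun _ => gatB61 x) (datB30 x) (datB12 x) (fun _ => datB51 x) (fun _ => datB61 x) hd hx hx' CW.B012R_315
    · exact corW_cert (G1 := gB3q0) (G2 := gB1q2) (Ga := gB6q1) (Gb := gB7q1) (D1 := dB3q0) (D2 := dB1q2) (Da := dB6q1) (Db := dB7q1) cB012R_ok B hρ hen (gatB30 x) (gatB12 x) (fun _ => gatB61 x) (fun _ => gatB71 x) (datB30 x) (datB12 x) (fun _ => datB61 x) (fun _ => datB71 x) hd hx hx' CW.B012R_316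
  · intro ρ a B hρ hd i h1 h2
    fin_cases i
    · exact absurd h1 (by norm_num)
    · exact absurd h1 (by norm_num)
    · exact absurd h1 (by norm_num)
    · exact absurd h1 (by norm_num)
    · exact corT_cert (G1 := gB3q0) (G2 := gB1q2) (Ga := gB4q1) (Gb := gB5q1) cB012R_ok B hρ (gatB30 x) (gatB12 x) (fun h => absurd h (by decide)) (fun _ => gatB51 x) hd hx hx' CG.B012R_314
    · exact corT_cert (G1 := gB3q0) (G2 := gB1q2) (Ga := gB5q1) (Gb := gB6q1) cB012R_ok B hρ (gatB30 x) (gatB12 x) (fun _ => gatB51 x) (fun _ => gatB61 x) hd hx hx' CG.B012R_315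
    · exact corT_cert (G1 := gB3q0) (G2 := gB1q2) (Ga := gB6q1) (Gb := gB7q1) cB012R_ok B hρ (gatB30 x) (gatB12 x) (fun _ => gatB61 x) (fun _ => gatB71 x) hd hx hx' CG.B012R_316

theorem altB_B012R_32 {κ x : ℝ} (hκ : κ * h0 = ken x) (hx : ((587336777 : ℕ) : ℝ) / S ≤ x) (hx' : x ≤ (((587336777 : ℕ) : ℝ) + (62277027 : ℕ)) / S) :
    AltEB 3 κ (eng.v x) (3 / 40) (tnt (h0 * x) (3 / 10)) PP tK tL tC pcB (scP esg pd) [⟨0, 0, 0, 67108864⟩, ⟨1, 1, 0, 67108864⟩, ⟨2, 1, 0, 67108864⟩] 0 1 2 3 2 (sgb true) (sgb false) x := by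
  have X : XR 67108864 x := XR.of hx hx' (by norm_num) (by norm_num) (by norm_num) (by norm_num)
  have hen : 0 < eng.v x := en_pos X.x0.le
  refine CornW.altB (C := cB012R) (j := (3 : Fin 8)) (k := (2 : Fin 8)) (Ef := esg) (pd := pd) (o := 3 / 40)
    (cornW_of (C := cB012R) (C0 := c0B) (En := eng) (mo := mog) (j := (3 : Fin 8)) (k := (2 : Fin 8)) (lo := 5) (hi := 7) (W := 67108864) (N0 := 3) cB012R_q (sideB hx hx') gokB (pinU hx hx') dokB X (by norm_num) (by norm_num) (l := (5 : Fin 8)) rfl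
      (gatB30 x) (gatB22 x) (gatB51 x) (datB30 x) (datB22 x) (datB51 x) ?_)
    (cornS_of (C := cB012R) (C0 := c0B) (j := (3 : Fin 8)) (k := (2 : Fin 8)) (lo := 5) (hi := 7) (W := 67108864) (N0 := 3) cB012R_q (sideB hx hx') gokB X (by norm_num) (by norm_num) (l := (5 : Fin 8)) rfl
      (gatB30 x) (gatB22 x) (gatB51 x) ?_)
    (thU (pinU hx hx')) rfl hκ (fun j q y => tC_eq j q y x) (esg_rng X.x0.le (by linarith [X.b, X.p0])).1 (mo_v x) le_rfl le_rfl
  · intro ρ a B hρ hd i h1 h2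
    fin_cases i
    · exact absurd h1 (by norm_num)
    · exact absurd h1 (by norm_num)
    · exact absurd h1 (by norm_num)
    · exact absurd h1 (by norm_num)
    · exact corW_cert (G1 := gB3q0) (G2 := gB2q2) (Ga := gB4q1) (Gb := gB5q1) (D1 := dB3q0) (D2 := dB2q2) (Da := dB4q1) (Db := dB5q1) cB012R_ok B hρ hen (gatB30 x) (gatB22 x) (fun h => absurd h (by decide)) (fun _ => gatB51 x) (datB30 x) (datB22 x) (fun h => absurd h (by decide)) (fun _ => datB51 x) hd hx hx' CW.B012R_324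
    · exact corW_cert (G1 := gB3q0) (G2 := gB2q2) (Ga := gB5q1) (Gb := gB6q1) (D1 := dB3q0) (D2 := dB2q2) (Da := dB5q1) (Db := dB6q1) cB012R_ok B hρ hen (gatB30 x) (gatB22 x) (fun _ => gatB51 x) (fun _ => gatB61 x) (datB30 x) (datB22 x) (fun _ => datB51 x) (fun _ => datB61 x) hd hx hx' CW.B012R_325
    · exact corW_cert (G1 := gB3q0) (G2 := gB2q2) (Ga := gB6q1) (Gb := gB7q1) (D1 := dB3q0) (D2 := dB2q2) (Da := dB6q1) (Db := dB7q1) cB012R_ok B hρ hen (gatB30 x) (gatB22 x) (fun _ => gatB61 x) (fun _ => gatB71 x) (datB30 x) (datB22 x) (fun _ => datB61 x) (fun _ => datB71 x) hd hx hx' CW.B012R_326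
  · intro ρ a B hρ hd i h1 h2
    fin_cases i
    · exact absurd h1 (by norm_num)
    · exact absurd h1 (by norm_num)
    · exact absurd h1 (by norm_num)
    · exact absurd h1 (by norm_num)
    · exact corT_cert (G1 := gB3q0) (G2 := gB2q2) (Ga := gB4q1) (Gb := gB5q1) cB012R_ok B hρ (gatB30 x) (gatB22 x) (fun h => absurd h (by decide)) (fun _ => gatB51 x) hd hx hx' CG.B012R_324
    · exact corT_cert (G1 := gB3q0) (G2 := gB2q2) (Ga := gB5q1) (Gb := gB6q1) cB012R_ok B hρ (gatB30 x) (gatB22 x) (fun _ => gatB51 x) (fun _ => gatB61 x) hd hx hx' CG.B012R_325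
    · exact corT_cert (G1 := gB3q0) (G2 := gB2q2) (Ga := gB6q1) (Gb := gB7q1) cB012R_ok B hρ (gatB30 x) (gatB22 x) (fun _ => gatB61 x) (fun _ => gatB71 x) hd hx hx' CG.B012R_326

theorem altB_B012R_33 {κ x : ℝ} (hκ : κ * h0 = ken x) (hx : ((587336777 : ℕ) : ℝ) / S ≤ x) (hx' : x ≤ (((587336777 : ℕ) : ℝ) + (62277027 : ℕ)) / S) :
    AltEB 3 κ (eng.v x) (3 / 40) (tnt (h0 * x) (3 / 10)) PP tK tL tC pcB (scP esg pd) [⟨0, 0, 0, 67108864⟩, ⟨1, 1, 0, 67108864⟩, ⟨2, 1, 0, 67108864⟩] 0 1 2 3 3 (sgb true) (sgb false) x := by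
  have X : XR 67108864 x := XR.of hx hx' (by norm_num) (by norm_num) (by norm_num) (by norm_num)
  have hen : 0 < eng.v x := en_pos X.x0.le
  refine CornW.altB (C := cB012R) (j := (3 : Fin 8)) (k := (3 : Fin 8)) (Ef := esg) (pd := pd) (o := 3 / 40)
    (cornW_of (C := cB012R) (C0 := c0B) (En := eng) (mo := mog) (j := (3 : Fin 8)) (k := (3 : Fin 8)) (lo := 5) (hi := 7) (W := 67108864) (N0 := 3) cB012R_q (sideB hx hx') gokB (pinU hx hx') dokB X (by norm_num) (by norm_num) (l := (5 : Fin 8)) rfl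
      (gatB30 x) (gatB32 x) (gatB51 x) (datB30 x) (datB32 x) (datB51 x) ?_)
    (cornS_of (C := cB012R) (C0 := c0B) (j := (3 : Fin 8)) (k := (3 : Fin 8)) (lo := 5) (hi := 7) (W := 67108864) (N0 := 3) cB012R_q (sideB hx hx') gokB X (by norm_num) (by norm_num) (l := (5 : Fin 8)) rfl
      (gatB30 x) (gatB32 x) (gatB51 x) ?_)
    (thU (pinU hx hx')) rfl hκ (fun j q y => tC_eq j q y x) (esg_rng X.x0.le (by linarith [X.b, X.p0])).1 (mo_v x) le_rfl le_rfl
  · intro ρ a B hρ hd i h1 h2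
    fin_cases i
    · exact absurd h1 (by norm_num)
    · exact absurd h1 (by norm_num)
    · exact absurd h1 (by norm_num)
    · exact absurd h1 (by norm_num)
    · exact corW_cert (G1 := gB3q0) (G2 := gB3q2) (Ga := gB4q1) (Gb := gB5q1) (D1 := dB3q0) (D2 := dB3q2) (Da := dB4q1) (Db := dB5q1) cB012R_ok B hρ hen (gatB30 x) (gatB32 x) (fun h => absurd h (by decide)) (fun _ => gatB51 x) (datB30 x) (datB32 x) (fun h => absurd h (by decide)) (fun _ => datB51 x) hd hx hx' CW.B012R_334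
    · exact corW_cert (G1 := gB3q0) (G2 := gB3q2) (Ga := gB5q1) (Gb := gB6q1) (D1 := dB3q0) (D2 := dB3q2) (Da := dB5q1) (Db := dB6q1) cB012R_ok B hρ hen (gatB30 x) (gatB32 x) (fun _ => gatB51 x) (fun _ => gatB61 x) (datB30 x) (datB32 x) (fun _ => datB51 x) (fun _ => datB61 x) hd hx hx' CW.B012R_335
    · exact corW_cert (G1 := gB3q0) (G2 := gB3q2) (Ga := gB6q1) (Gb := gB7q1) (D1 := dB3q0) (D2 := dB3q2) (Da := dB6q1) (Db := dB7q1) cB012R_ok B hρ hen (gatB30 x) (gatB32 x) (fun _ => gatB61 x) (fun _ => gatB71 x) (datB30 x) (datB32 x) (fun _ => datB61 x) (fun _ => datB71 x) hd hx hx' CW.B012R_336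
  · intro ρ a B hρ hd i h1 h2
    fin_cases i
    · exact absurd h1 (by norm_num)
    · exact absurd h1 (by norm_num)
    · exact absurd h1 (by norm_num)
    · exact absurd h1 (by norm_num)
    · exact corT_cert (G1 := gB3q0) (G2 := gB3q2) (Ga := gB4q1) (Gb := gB5q1) cB012R_ok B hρ (gatB30 x) (gatB32 x) (fun h => absurd h (by decide)) (fun _ => gatB51 x) hd hx hx' CG.B012R_334
    · exact corT_cert (G1 := gB3q0) (G2 := gB3q2) (Ga := gB5q1) (Gb := gB6q1) cB012R_ok B hρ (gatB30 x) (gatB32 x) (fun _ => gatB51 x) (fun _ => gatB61 x) hd hx hx' CG.B012R_335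
    · exact corT_cert (G1 := gB3q0) (G2 := gB3q2) (Ga := gB6q1) (Gb := gB7q1) cB012R_ok B hρ (gatB30 x) (gatB32 x) (fun _ => gatB61 x) (fun _ => gatB71 x) hd hx hx' CG.B012R_336

theorem altB_B012R_34 {κ x : ℝ} (hκ : κ * h0 = ken x) (hx : ((587336777 : ℕ) : ℝ) / S ≤ x) (hx' : x ≤ (((587336777 : ℕ) : ℝ) + (62277027 : ℕ)) / S) :
    AltEB 3 κ (eng.v x) (3 / 40) (tnt (h0 * x) (3 / 10)) PP tK tL tC pcB (scP esg pd) [⟨0, 0, 0, 67108864⟩, ⟨1, 1, 0, 67108864⟩, ⟨2, 1, 0, 67108864⟩] 0 1 2 3 4 (sgb true) (sgb false) x := by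
  have X : XR 67108864 x := XR.of hx hx' (by norm_num) (by norm_num) (by norm_num) (by norm_num)
  have hen : 0 < eng.v x := en_pos X.x0.le
  refine CornW.altB (C := cB012R) (j := (3 : Fin 8)) (k := (4 : Fin 8)) (Ef := esg) (pd := pd) (o := 3 / 40)
    (cornW_of (C := cB012R) (C0 := c0B) (En := eng) (mo := mog) (j := (3 : Fin 8)) (k := (4 : Fin 8)) (lo := 5) (hi := 7) (W := 67108864) (N0 := 3) cB012R_q (sideB hx hx') gokB (pinU hx hx') dokB X (by norm_num) (by norm_num) (l := (5 : Fin 8)) rfl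
      (gatB30 x) (gatB42 x) (gatB51 x) (datB30 x) (datB42 x) (datB51 x) ?_)
    (cornS_of (C := cB012R) (C0 := c0B) (j := (3 : Fin 8)) (k := (4 : Fin 8)) (lo := 5) (hi := 7) (W := 67108864) (N0 := 3) cB012R_q (sideB hx hx') gokB X (by norm_num) (by norm_num) (l := (5 : Fin 8)) rfl
      (gatB30 x) (gatB42 x) (gatB51 x) ?_)
    (thU (pinU hx hx')) rfl hκ (fun j q y => tC_eq j q y x) (esg_rng X.x0.le (by linarith [X.b, X.p0])).1 (mo_v x) le_rfl le_rfl
  · intro ρ a B hρ hd i h1 h2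
    fin_cases i
    · exact absurd h1 (by norm_num)
    · exact absurd h1 (by norm_num)
    · exact absurd h1 (by norm_num)
    · exact absurd h1 (by norm_num)
    · exact corW_cert (G1 := gB3q0) (G2 := gB4q2) (Ga := gB4q1) (Gb := gB5q1) (D1 := dB3q0) (D2 := dB4q2) (Da := dB4q1) (Db := dB5q1) cB012R_ok B hρ hen (gatB30 x) (gatB42 x) (fun h => absurd h (by decide)) (fun _ => gatB51 x) (datB30 x) (datB42 x) (fun h => absurd h (by decide)) (fun _ => datB51 x) hd hx hx' CW.B012R_344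
    · exact corW_cert (G1 := gB3q0) (G2 := gB4q2) (Ga := gB5q1) (Gb := gB6q1) (D1 := dB3q0) (D2 := dB4q2) (Da := dB5q1) (Db := dB6q1) cB012R_ok B hρ hen (gatB30 x) (gatB42 x) (fun _ => gatB51 x) (fun _ => gatB61 x) (datB30 x) (datB42 x) (fun _ => datB51 x) (fun _ => datB61 x) hd hx hx' CW.B012R_345
    · exact corW_cert (G1 := gB3q0) (G2 := gB4q2) (Ga := gB6q1) (Gb := gB7q1) (D1 := dB3q0) (D2 := dB4q2) (Da := dB6q1) (Db := dB7q1) cB012R_ok B hρ hen (gatB30 x) (gatB42 x) (fun _ => gatB61 x) (fun _ => gatB71 x) (datB30 x) (datB42 x) (fun _ => datB61 x) (fun _ => datB71 x) hd hx hx' CW.B012R_346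
  · intro ρ a B hρ hd i h1 h2
    fin_cases i
    · exact absurd h1 (by norm_num)
    · exact absurd h1 (by norm_num)
    · exact absurd h1 (by norm_num)
    · exact absurd h1 (by norm_num)
    · exact corT_cert (G1 := gB3q0) (G2 := gB4q2) (Ga := gB4q1) (Gb := gB5q1) cB012R_ok B hρ (gatB30 x) (gatB42 x) (fun h => absurd h (by decide)) (fun _ => gatB51 x) hd hx hx' CG.B012R_344
    · exact corT_cert (G1 := gB3q0) (G2 := gB4q2) (Ga := gB5q1) (Gb := gB6q1) cB012R_ok B hρ (gatB30 x) (gatB42 x) (fun _ => gatB51 x) (fun _ => gatB61 x) hd hx hx' CG.B012R_345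
    · exact corT_cert (G1 := gB3q0) (G2 := gB4q2) (Ga := gB6q1) (Gb := gB7q1) cB012R_ok B hρ (gatB30 x) (gatB42 x) (fun _ => gatB61 x) (fun _ => gatB71 x) hd hx hx' CG.B012R_346

theorem altB_B012R_40 {κ x : ℝ} (hκ : κ * h0 = ken x) (hx : ((587336777 : ℕ) : ℝ) / S ≤ x) (hx' : x ≤ (((587336777 : ℕ) : ℝ) + (62277027 : ℕ)) / S) :
    AltEB 3 κ (eng.v x) (3 / 40) (tnt (h0 * x) (3 / 10)) PP tK tL tC pcB (scP esg pd) [⟨0, 0, 0, 67108864⟩, ⟨1, 1, 0, 67108864⟩, ⟨2, 1, 0, 67108864⟩] 0 1 2 4 0 (sgb true) (sgb false) x := by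
  have X : XR 67108864 x := XR.of hx hx' (by norm_num) (by norm_num) (by norm_num) (by norm_num)
  have hen : 0 < eng.v x := en_pos X.x0.le
  refine CornW.altB (C := cB012R) (j := (4 : Fin 8)) (k := (0 : Fin 8)) (Ef := esg) (pd := pd) (o := 3 / 40)
    (cornW_of (C := cB012R) (C0 := c0B) (En := eng) (mo := mog) (j := (4 : Fin 8)) (k := (0 : Fin 8)) (lo := 5) (hi := 7) (W := 67108864) (N0 := 3) cB012R_q (sideB hx hx') gokB (pinU hx hx') dokB X (by norm_num) (by norm_num) (l := (5 : Fin 8)) rfl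
      (gatB40 x) (gatB02 x) (gatB51 x) (datB40 x) (datB02 x) (datB51 x) ?_)
    (cornS_of (C := cB012R) (C0 := c0B) (j := (4 : Fin 8)) (k := (0 : Fin 8)) (lo := 5) (hi := 7) (W := 67108864) (N0 := 3) cB012R_q (sideB hx hx') gokB X (by norm_num) (by norm_num) (l := (5 : Fin 8)) rfl
      (gatB40 x) (gatB02 x) (gatB51 x) ?_)
    (thU (pinU hx hx')) rfl hκ (fun j q y => tC_eq j q y x) (esg_rng X.x0.le (by linarith [X.b, X.p0])).1 (mo_v x) le_rfl le_rfl
  · intro ρ a B hρ hd i h1 h2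
    fin_cases i
    · exact absurd h1 (by norm_num)
    · exact absurd h1 (by norm_num)
    · exact absurd h1 (by norm_num)
    · exact absurd h1 (by norm_num)
    · exact corW_cert (G1 := gB4q0) (G2 := gB0q2) (Ga := gB4q1) (Gb := gB5q1) (D1 := dB4q0) (D2 := dB0q2) (Da := dB4q1) (Db := dB5q1) cB012R_ok B hρ hen (gatB40 x) (gatB02 x) (fun h => absurd h (by decide)) (fun _ => gatB51 x) (datB40 x) (datB02 x) (fun h => absurd h (by decide)) (fun _ => datB51 x) hd hx hx' CW.B012R_404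
    · exact corW_cert (G1 := gB4q0) (G2 := gB0q2) (Ga := gB5q1) (Gb := gB6q1) (D1 := dB4q0) (D2 := dB0q2) (Da := dB5q1) (Db := dB6q1) cB012R_ok B hρ hen (gatB40 x) (gatB02 x) (fun _ => gatB51 x) (fun _ => gatB61 x) (datB40 x) (datB02 x) (fun _ => datB51 x) (fun _ => datB61 x) hd hx hx' CW.B012R_405
    · exact corW_cert (G1 := gB4q0) (G2 := gB0q2) (Ga := gB6q1) (Gb := gB7q1) (D1 := dB4q0) (D2 := dB0q2) (Da := dB6q1) (Db := dB7q1) cB012R_ok B hρ hen (gatB40 x) (gatB02 x) (fun _ => gatB61 x) (fun _ => gatB71 x) (datB40 x) (datB02 x) (fun _ => datB61 x) (fun _ => datB71 x) hd hx hx' CW.B012R_406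
  · intro ρ a B hρ hd i h1 h2
    fin_cases i
    · exact absurd h1 (by norm_num)
    · exact absurd h1 (by norm_num)
    · exact absurd h1 (by norm_num)
    · exact absurd h1 (by norm_num)
    · exact corT_cert (G1 := gB4q0) (G2 := gB0q2) (Ga := gB4q1) (Gb := gB5q1) cB012R_ok B hρ (gatB40 x) (gatB02 x) (fun h => absurd h (by decide)) (fun _ => gatB51 x) hd hx hx' CG.B012R_404
    · exact corT_cert (G1 := gB4q0) (G2 := gB0q2) (Ga := gB5q1) (Gb := gB6q1) cB012R_ok B hρ (gatB40 x) (gatB02 x) (fun _ => gatB51 x) (fun _ => gatB61 x) hd hx hx' CG.B012R_405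
    · exact corT_cert (G1 := gB4q0) (G2 := gB0q2) (Ga := gB6q1) (Gb := gB7q1) cB012R_ok B hρ (gatB40 x) (gatB02 x) (fun _ => gatB61 x) (fun _ => gatB71 x) hd hx hx' CG.B012R_406

theorem altB_B012R_41 {κ x : ℝ} (hκ : κ * h0 = ken x) (hx : ((587336777 : ℕ) : ℝ) / S ≤ x) (hx' : x ≤ (((587336777 : ℕ) : ℝ) + (62277027 : ℕ)) / S) :
    AltEB 3 κ (eng.v x) (3 / 40) (tnt (h0 * x) (3 / 10)) PP tK tL tC pcB (scP esg pd) [⟨0, 0, 0, 67108864⟩, ⟨1, 1, 0, 67108864⟩, ⟨2, 1, 0, 67108864⟩] 0 1 2 4 1 (sgb true) (sgb false) x := by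
  have X : XR 67108864 x := XR.of hx hx' (by norm_num) (by norm_num) (by norm_num) (by norm_num)
  have hen : 0 < eng.v x := en_pos X.x0.le
  refine CornW.altB (C := cB012R) (j := (4 : Fin 8)) (k := (1 : Fin 8)) (Ef := esg) (pd := pd) (o := 3 / 40)
    (cornW_of (C := cB012R) (C0 := c0B) (En := eng) (mo := mog) (j := (4 : Fin 8)) (k := (1 : Fin 8)) (lo := 5) (hi := 7) (W := 67108864) (N0 := 3) cB012R_q (sideB hx hx') gokB (pinU hx hx') dokB X (by norm_num) (by norm_num) (l := (5 : Fin 8)) rfl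
      (gatB40 x) (gatB12 x) (gatB51 x) (datB40 x) (datB12 x) (datB51 x) ?_)
    (cornS_of (C := cB012R) (C0 := c0B) (j := (4 : Fin 8)) (k := (1 : Fin 8)) (lo := 5) (hi := 7) (W := 67108864) (N0 := 3) cB012R_q (sideB hx hx') gokB X (by norm_num) (by norm_num) (l := (5 : Fin 8)) rfl
      (gatB40 x) (gatB12 x) (gatB51 x) ?_)
    (thU (pinU hx hx')) rfl hκ (fun j q y => tC_eq j q y x) (esg_rng X.x0.le (by linarith [X.b, X.p0])).1 (mo_v x) le_rfl le_rfl
  · intro ρ a B hρ hd i h1 h2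
    fin_cases i
    · exact absurd h1 (by norm_num)
    · exact absurd h1 (by norm_num)
    · exact absurd h1 (by norm_num)
    · exact absurd h1 (by norm_num)
    · exact corW_cert (G1 := gB4q0) (G2 := gB1q2) (Ga := gB4q1) (Gb := gB5q1) (D1 := dB4q0) (D2 := dB1q2) (Da := dB4q1) (Db := dB5q1) cB012R_ok B hρ hen (gatB40 x) (gatB12 x) (fun h => absurd h (by decide)) (fun _ => gatB51 x) (datB40 x) (datB12 x) (fun h => absurd h (by decide)) (fun _ => datB51 x) hd hx hx' CW.B012R_414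
    · exact corW_cert (G1 := gB4q0) (G2 := gB1q2) (Ga := gB5q1) (Gb := gB6q1) (D1 := dB4q0) (D2 := dB1q2) (Da := dB5q1) (Db := dB6q1) cB012R_ok B hρ hen (gatB40 x) (gatB12 x) (fun _ => gatB51 x) (fun _ => gatB61 x) (datB40 x) (datB12 x) (fun _ => datB51 x) (fun _ => datB61 x) hd hx hx' CW.B012R_415
    · exact corW_cert (G1 := gB4q0) (G2 := gB1q2) (Ga := gB6q1) (Gb := gB7q1) (D1 := dB4q0) (D2 := dB1q2) (Da := dB6q1) (Db := dB7q1) cB012R_ok B hρ hen (gatB40 x) (gatB12 x) (fun _ => gatB61 x) (fun _ => gatB71 x) (datB40 x) (datB12 x) (fun _ => datB61 x) (fun _ => datB71 x) hd hx hx' CW.B012R_416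
  · intro ρ a B hρ hd i h1 h2
    fin_cases i
    · exact absurd h1 (by norm_num)
    · exact absurd h1 (by norm_num)
    · exact absurd h1 (by norm_num)
    · exact absurd h1 (by norm_num)
    · exact corT_cert (G1 := gB4q0) (G2 := gB1q2) (Ga := gB4q1) (Gb := gB5q1) cB012R_ok B hρ (gatB40 x) (gatB12 x) (fun h => absurd h (by decide)) (fun _ => gatB51 x) hd hx hx' CG.B012R_414
    · exact corT_cert (G1 := gB4q0) (G2 := gB1q2) (Ga := gB5q1) (Gb := gB6q1) cB012R_ok B hρ (gatB40 x) (gatB12 x) (fun _ => gatB51 x) (fun _ => gatB61 x) hd hx hx' CG.B012R_415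
    · exact corT_cert (G1 := gB4q0) (G2 := gB1q2) (Ga := gB6q1) (Gb := gB7q1) cB012R_ok B hρ (gatB40 x) (gatB12 x) (fun _ => gatB61 x) (fun _ => gatB71 x) hd hx hx' CG.B012R_416

theorem altB_B012R_42 {κ x : ℝ} (hκ : κ * h0 = ken x) (hx : ((587336777 : ℕ) : ℝ) / S ≤ x) (hx' : x ≤ (((587336777 : ℕ) : ℝ) + (62277027 : ℕ)) / S) :
    AltEB 3 κ (eng.v x) (3 / 40) (tnt (h0 * x) (3 / 10)) PP tK tL tC pcB (scP esg pd) [⟨0, 0, 0, 67108864⟩, ⟨1, 1, 0, 67108864⟩, ⟨2, 1, 0, 67108864⟩] 0 1 2 4 2 (sgb true) (sgb false) x := by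
  have X : XR 67108864 x := XR.of hx hx' (by norm_num) (by norm_num) (by norm_num) (by norm_num)
  have hen : 0 < eng.v x := en_pos X.x0.le
  refine CornW.altB (C := cB012R) (j := (4 : Fin 8)) (k := (2 : Fin 8)) (Ef := esg) (pd := pd) (o := 3 / 40)
    (cornW_of (C := cB012R) (C0 := c0B) (En := eng) (mo := mog) (j := (4 : Fin 8)) (k := (2 : Fin 8)) (lo := 5) (hi := 7) (W := 67108864) (N0 := 3) cB012R_q (sideB hx hx') gokB (pinU hx hx') dokB X (by norm_num) (by norm_num) (l := (5 : Fin 8)) rfl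
      (gatB40 x) (gatB22 x) (gatB51 x) (datB40 x) (datB22 x) (datB51 x) ?_)
    (cornS_of (C := cB012R) (C0 := c0B) (j := (4 : Fin 8)) (k := (2 : Fin 8)) (lo := 5) (hi := 7) (W := 67108864) (N0 := 3) cB012R_q (sideB hx hx') gokB X (by norm_num) (by norm_num) (l := (5 : Fin 8)) rfl
      (gatB40 x) (gatB22 x) (gatB51 x) ?_)
    (thU (pinU hx hx')) rfl hκ (fun j q y => tC_eq j q y x) (esg_rng X.x0.le (by linarith [X.b, X.p0])).1 (mo_v x) le_rfl le_rfl
  · intro ρ a B hρ hd i h1 h2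
    fin_cases i
    · exact absurd h1 (by norm_num)
    · exact absurd h1 (by norm_num)
    · exact absurd h1 (by norm_num)
    · exact absurd h1 (by norm_num)
    · exact corW_cert (G1 := gB4q0) (G2 := gB2q2) (Ga := gB4q1) (Gb := gB5q1) (D1 := dB4q0) (D2 := dB2q2) (Da := dB4q1) (Db := dB5q1) cB012R_ok B hρ hen (gatB40 x) (gatB22 x) (fun h => absurd h (by decide)) (fun _ => gatB51 x) (datB40 x) (datB22 x) (fun h => absurd h (by decide)) (fun _ => datB51 x) hd hx hx' CW.B012R_424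
    · exact corW_cert (G1 := gB4q0) (G2 := gB2q2) (Ga := gB5q1) (Gb := gB6q1) (D1 := dB4q0) (D2 := dB2q2) (Da := dB5q1) (Db := dB6q1) cB012R_ok B hρ hen (gatB40 x) (gatB22 x) (fun _ => gatB51 x) (fun _ => gatB61 x) (datB40 x) (datB22 x) (fun _ => datB51 x) (fun _ => datB61 x) hd hx hx' CW.B012R_425
    · exact corW_cert (G1 := gB4q0) (G2 := gB2q2) (Ga := gB6q1) (Gb := gB7q1) (D1 := dB4q0) (D2 := dB2q2) (Da := dB6q1) (Db := dB7q1) cB012R_ok B hρ hen (gatB40 x) (gatB22 x) (fun _ => gatB61 x) (fun _ => gatB71 x) (datB40 x) (datB22 x) (fun _ => datB61 x) (fun _ => datB71 x) hd hx hx' CW.B012R_426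
  · intro ρ a B hρ hd i h1 h2
    fin_cases i
    · exact absurd h1 (by norm_num)
    · exact absurd h1 (by norm_num)
    · exact absurd h1 (by norm_num)
    · exact absurd h1 (by norm_num)
    · exact corT_cert (G1 := gB4q0) (G2 := gB2q2) (Ga := gB4q1) (Gb := gB5q1) cB012R_ok B hρ (gatB40 x) (gatB22 x) (fun h => absurd h (by decide)) (fun _ => gatB51 x) hd hx hx' CG.B012R_424
    · exact corT_cert (G1 := gB4q0) (G2 := gB2q2) (Ga := gB5q1) (Gb := gB6q1) cB012R_ok B hρ (gatB40 x) (gatB22 x) (fun _ => gatB51 x) (fun _ => gatB61 x) hd hx hx' CG.B012R_425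
    · exact corT_cert (G1 := gB4q0) (G2 := gB2q2) (Ga := gB6q1) (Gb := gB7q1) cB012R_ok B hρ (gatB40 x) (gatB22 x) (fun _ => gatB61 x) (fun _ => gatB71 x) hd hx hx' CG.B012R_426

theorem altB_B012R_43 {κ x : ℝ} (hκ : κ * h0 = ken x) (hx : ((587336777 : ℕ) : ℝ) / S ≤ x) (hx' : x ≤ (((587336777 : ℕ) : ℝ) + (62277027 : ℕ)) / S) :
    AltEB 3 κ (eng.v x) (3 / 40) (tnt (h0 * x) (3 / 10)) PP tK tL tC pcB (scP esg pd) [⟨0, 0, 0, 67108864⟩, ⟨1, 1, 0, 67108864⟩, ⟨2, 1, 0, 67108864⟩] 0 1 2 4 3 (sgb true) (sgb false) x := by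
  have X : XR 67108864 x := XR.of hx hx' (by norm_num) (by norm_num) (by norm_num) (by norm_num)
  have hen : 0 < eng.v x := en_pos X.x0.le
  refine CornW.altB (C := cB012R) (j := (4 : Fin 8)) (k := (3 : Fin 8)) (Ef := esg) (pd := pd) (o := 3 / 40)
    (cornW_of (C := cB012R) (C0 := c0B) (En := eng) (mo := mog) (j := (4 : Fin 8)) (k := (3 : Fin 8)) (lo := 5) (hi := 7) (W := 67108864) (N0 := 3) cB012R_q (sideB hx hx') gokB (pinU hx hx') dokB X (by norm_num) (by norm_num) (l := (5 : Fin 8)) rfl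
      (gatB40 x) (gatB32 x) (gatB51 x) (datB40 x) (datB32 x) (datB51 x) ?_)
    (cornS_of (C := cB012R) (C0 := c0B) (j := (4 : Fin 8)) (k := (3 : Fin 8)) (lo := 5) (hi := 7) (W := 67108864) (N0 := 3) cB012R_q (sideB hx hx') gokB X (by norm_num) (by norm_num) (l := (5 : Fin 8)) rfl
      (gatB40 x) (gatB32 x) (gatB51 x) ?_)
    (thU (pinU hx hx')) rfl hκ (fun j q y => tC_eq j q y x) (esg_rng X.x0.le (by linarith [X.b, X.p0])).1 (mo_v x) le_rfl le_rfl
  · intro ρ a B hρ hd i h1 h2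
    fin_cases i
    · exact absurd h1 (by norm_num)
    · exact absurd h1 (by norm_num)
    · exact absurd h1 (by norm_num)
    · exact absurd h1 (by norm_num)
    · exact corW_cert (G1 := gB4q0) (G2 := gB3q2) (Ga := gB4q1) (Gb := gB5q1) (D1 := dB4q0) (D2 := dB3q2) (Da := dB4q1) (Db := dB5q1) cB012R_ok B hρ hen (gatB40 x) (gatB32 x) (fun h => absurd h (by decide)) (fun _ => gatB51 x) (datB40 x) (datB32 x) (fun h => absurd h (by decide)) (fun _ => datB51 x) hd hx hx' CW.B012R_434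
    · exact corW_cert (G1 := gB4q0) (G2 := gB3q2) (Ga := gB5q1) (Gb := gB6q1) (D1 := dB4q0) (D2 := dB3q2) (Da := dB5q1) (Db := dB6q1) cB012R_ok B hρ hen (gatB40 x) (gatB32 x) (fun _ => gatB51 x) (fun _ => gatB61 x) (datB40 x) (datB32 x) (fun _ => datB51 x) (fun _ => datB61 x) hd hx hx' CW.B012R_435
    · exact corW_cert (G1 := gB4q0) (G2 := gB3q2) (Ga := gB6q1) (Gb := gB7q1) (D1 := dB4q0) (D2 := dB3q2) (Da := dB6q1) (Db := dB7q1) cB012R_ok B hρ hen (gatB40 x) (gatB32 x) (fun _ => gatB61 x) (fun _ => gatB71 x) (datB40 x) (datB32 x) (fun _ => datB61 x) (fun _ => datB71 x) hd hx hx' CW.B012R_436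
  · intro ρ a B hρ hd i h1 h2
    fin_cases i
    · exact absurd h1 (by norm_num)
    · exact absurd h1 (by norm_num)
    · exact absurd h1 (by norm_num)
    · exact absurd h1 (by norm_num)
    · exact corT_cert (G1 := gB4q0) (G2 := gB3q2) (Ga := gB4q1) (Gb := gB5q1) cB012R_ok B hρ (gatB40 x) (gatB32 x) (fun h => absurd h (by decide)) (fun _ => gatB51 x) hd hx hx' CG.B012R_434
    · exact corT_cert (G1 := gB4q0) (G2 := gB3q2) (Ga := gB5q1) (Gb := gB6q1) cB012R_ok B hρ (gatB40 x) (gatB32 x) (fun _ => gatB51 x) (fun _ => gatB61 x) hd hx hx' CG.B012R_435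
    · exact corT_cert (G1 := gB4q0) (G2 := gB3q2) (Ga := gB6q1) (Gb := gB7q1) cB012R_ok B hρ (gatB40 x) (gatB32 x) (fun _ => gatB61 x) (fun _ => gatB71 x) hd hx hx' CG.B012R_436

theorem altB_B012R_44 {κ x : ℝ} (hκ : κ * h0 = ken x) (hx : ((587336777 : ℕ) : ℝ) / S ≤ x) (hx' : x ≤ (((587336777 : ℕ) : ℝ) + (62277027 : ℕ)) / S) :
    AltEB 3 κ (eng.v x) (3 / 40) (tnt (h0 * x) (3 / 10)) PP tK tL tC pcB (scP esg pd) [⟨0, 0, 0, 67108864⟩, ⟨1, 1, 0, 67108864⟩, ⟨2, 1, 0, 67108864⟩] 0 1 2 4 4 (sgb true) (sgb false) x := by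
  have X : XR 67108864 x := XR.of hx hx' (by norm_num) (by norm_num) (by norm_num) (by norm_num)
  have hen : 0 < eng.v x := en_pos X.x0.le
  refine CornW.altB (C := cB012R) (j := (4 : Fin 8)) (k := (4 : Fin 8)) (Ef := esg) (pd := pd) (o := 3 / 40)
    (cornW_of (C := cB012R) (C0 := c0B) (En := eng) (mo := mog) (j := (4 : Fin 8)) (k := (4 : Fin 8)) (lo := 5) (hi := 7) (W := 67108864) (N0 := 3) cB012R_q (sideB hx hx') gokB (pinU hx hx') dokB X (by norm_num) (by norm_num) (l := (5 : Fin 8)) rfl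
      (gatB40 x) (gatB42 x) (gatB51 x) (datB40 x) (datB42 x) (datB51 x) ?_)
    (cornS_of (C := cB012R) (C0 := c0B) (j := (4 : Fin 8)) (k := (4 : Fin 8)) (lo := 5) (hi := 7) (W := 67108864) (N0 := 3) cB012R_q (sideB hx hx') gokB X (by norm_num) (by norm_num) (l := (5 : Fin 8)) rfl
      (gatB40 x) (gatB42 x) (gatB51 x) ?_)
    (thU (pinU hx hx')) rfl hκ (fun j q y => tC_eq j q y x) (esg_rng X.x0.le (by linarith [X.b, X.p0])).1 (mo_v x) le_rfl le_rfl
  · intro ρ a B hρ hd i h1 h2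
    fin_cases i
    · exact absurd h1 (by norm_num)
    · exact absurd h1 (by norm_num)
    · exact absurd h1 (by norm_num)
    · exact absurd h1 (by norm_num)
    · exact corW_cert (G1 := gB4q0) (G2 := gB4q2) (Ga := gB4q1) (Gb := gB5q1) (D1 := dB4q0) (D2 := dB4q2) (Da := dB4q1) (Db := dB5q1) cB012R_ok B hρ hen (gatB40 x) (gatB42 x) (fun h => absurd h (by decide)) (fun _ => gatB51 x) (datB40 x) (datB42 x) (fun h => absurd h (by decide)) (fun _ => datB51 x) hd hx hx' CW.B012R_444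
    · exact corW_cert (G1 := gB4q0) (G2 := gB4q2) (Ga := gB5q1) (Gb := gB6q1) (D1 := dB4q0) (D2 := dB4q2) (Da := dB5q1) (Db := dB6q1) cB012R_ok B hρ hen (gatB40 x) (gatB42 x) (fun _ => gatB51 x) (fun _ => gatB61 x) (datB40 x) (datB42 x) (fun _ => datB51 x) (fun _ => datB61 x) hd hx hx' CW.B012R_445
    · exact corW_cert (G1 := gB4q0) (G2 := gB4q2) (Ga := gB6q1) (Gb := gB7q1) (D1 := dB4q0) (D2 := dB4q2) (Da := dB6q1) (Db := dB7q1) cB012R_ok B hρ hen (gatB40 x) (gatB42 x) (fun _ => gatB61 x) (fun _ => gatB71 x) (datB40 x) (datB42 x) (fun _ => datB61 x) (fun _ => datB71 x) hd hx hx' CW.B012R_446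
  · intro ρ a B hρ hd i h1 h2
    fin_cases i
    · exact absurd h1 (by norm_num)
    · exact absurd h1 (by norm_num)
    · exact absurd h1 (by norm_num)
    · exact absurd h1 (by norm_num)
    · exact corT_cert (G1 := gB4q0) (G2 := gB4q2) (Ga := gB4q1) (Gb := gB5q1) cB012R_ok B hρ (gatB40 x) (gatB42 x) (fun h => absurd h (by decide)) (fun _ => gatB51 x) hd hx hx' CG.B012R_444
    · exact corT_cert (G1 := gB4q0) (G2 := gB4q2) (Ga := gB5q1) (Gb := gB6q1) cB012R_ok B hρ (gatB40 x) (gatB42 x) (fun _ => gatB51 x) (fun _ => gatB61 x) hd hx hx' CG.B012R_445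
    · exact corT_cert (G1 := gB4q0) (G2 := gB4q2) (Ga := gB6q1) (Gb := gB7q1) cB012R_ok B hρ (gatB40 x) (gatB42 x) (fun _ => gatB61 x) (fun _ => gatB71 x) hd hx hx' CG.B012R_446

theorem altB_B022E_00 {κ x : ℝ} (hκ : κ * h0 = ken x) (hx : ((587336777 : ℕ) : ℝ) / S ≤ x) (hx' : x ≤ (((587336777 : ℕ) : ℝ) + (62277027 : ℕ)) / S) :
    AltEB 3 κ (eng.v x) (3 / 40) (tnt (h0 * x) (3 / 10)) PP tK tL tC pcB (scP esg pd) [⟨0, 0, 0, 67108864⟩, ⟨1, 1, 0, 67108864⟩, ⟨2, 1, 0, 67108864⟩] 0 2 2 0 0 (sgb true) (sgb true) x := by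
  have X : XR 67108864 x := XR.of hx hx' (by norm_num) (by norm_num) (by norm_num) (by norm_num)
  have hen : 0 < eng.v x := en_pos X.x0.le
  refine CornW.altB (C := cB022E) (j := (0 : Fin 8)) (k := (0 : Fin 8)) (Ef := esg) (pd := pd) (o := 3 / 40)
    (cornW_of (C := cB022E) (C0 := c0B) (En := eng) (mo := mog) (j := (0 : Fin 8)) (k := (0 : Fin 8)) (lo := 0) (hi := 4) (W := 67108864) (N0 := 3) cB022E_q (sideB hx hx') gokB (pinU hx hx') dokB X (by norm_num) (by norm_num) (l := (0 : Fin 8)) rfl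
      (gatB00 x) (gatB02 x) (gatB02 x) (datB00 x) (datB02 x) (datB02 x) ?_)
    (cornS_of (C := cB022E) (C0 := c0B) (j := (0 : Fin 8)) (k := (0 : Fin 8)) (lo := 0) (hi := 4) (W := 67108864) (N0 := 3) cB022E_q (sideB hx hx') gokB X (by norm_num) (by norm_num) (l := (0 : Fin 8)) rfl
      (gatB00 x) (gatB02 x) (gatB02 x) ?_)
    (thU (pinU hx hx')) rfl hκ (fun j q y => tC_eq j q y x) (esg_rng X.x0.le (by linarith [X.b, X.p0])).1 (mo_v x) le_rfl le_rfl
  · intro ρ a B hρ hd i h1 h2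
    fin_cases i
    · exact corW_cert (G1 := gB0q0) (G2 := gB0q2) (Ga := gB0q2) (Gb := gB1q2) (D1 := dB0q0) (D2 := dB0q2) (Da := dB0q2) (Db := dB1q2) cB022E_ok B hρ hen (gatB00 x) (gatB02 x) (fun _ => gatB02 x) (fun _ => gatB12 x) (datB00 x) (datB02 x) (fun _ => datB02 x) (fun _ => datB12 x) hd hx hx' CW.B022E_000
    · exact corW_cert (G1 := gB0q0) (G2 := gB0q2) (Ga := gB1q2) (Gb := gB2q2) (D1 := dB0q0) (D2 := dB0q2) (Da := dB1q2) (Db := dB2q2) cB022E_ok B hρ hen (gatB00 x) (gatB02 x) (fun _ => gatB12 x) (fun _ => gatB22 x) (datB00 x) (datB02 x) (fun _ => datB12 x) (fun _ => datB22 x) hd hx hx' CW.B022E_001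
    · exact corW_cert (G1 := gB0q0) (G2 := gB0q2) (Ga := gB2q2) (Gb := gB3q2) (D1 := dB0q0) (D2 := dB0q2) (Da := dB2q2) (Db := dB3q2) cB022E_ok B hρ hen (gatB00 x) (gatB02 x) (fun _ => gatB22 x) (fun _ => gatB32 x) (datB00 x) (datB02 x) (fun _ => datB22 x) (fun _ => datB32 x) hd hx hx' CW.B022E_002
    · exact corW_cert (G1 := gB0q0) (G2 := gB0q2) (Ga := gB3q2) (Gb := gB4q2) (D1 := dB0q0) (D2 := dB0q2) (Da := dB3q2) (Db := dB4q2) cB022E_ok B hρ hen (gatB00 x) (gatB02 x) (fun _ => gatB32 x) (fun _ => gatB42 x) (datB00 x) (datB02 x) (fun _ => datB32 x) (fun _ => datB42 x) hd hx hx' CW.B022E_003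
    · exact corW_cert (G1 := gB0q0) (G2 := gB0q2) (Ga := gB4q2) (Gb := gB5q2) (D1 := dB0q0) (D2 := dB0q2) (Da := dB4q2) (Db := dB5q2) cB022E_ok B hρ hen (gatB00 x) (gatB02 x) (fun _ => gatB42 x) (fun h => absurd h (by decide)) (datB00 x) (datB02 x) (fun _ => datB42 x) (fun h => absurd h (by decide)) hd hx hx' CW.B022E_004
    · exact absurd h2 (by norm_num)
    · exact absurd h2 (by norm_num)
  · intro ρ a B hρ hd i h1 h2
    fin_cases i
    · exact corT_cert (G1 := gB0q0) (G2 := gB0q2) (Ga := gB0q2) (Gb := gB1q2) cB022E_ok B hρ (gatB00 x) (gatB02 x) (fun _ => gatB02 x) (fun _ => gatB12 x) hd hx hx' CG.B022E_000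
    · exact corT_cert (G1 := gB0q0) (G2 := gB0q2) (Ga := gB1q2) (Gb := gB2q2) cB022E_ok B hρ (gatB00 x) (gatB02 x) (fun _ => gatB12 x) (fun _ => gatB22 x) hd hx hx' CG.B022E_001
    · exact corT_cert (G1 := gB0q0) (G2 := gB0q2) (Ga := gB2q2) (Gb := gB3q2) cB022E_ok B hρ (gatB00 x) (gatB02 x) (fun _ => gatB22 x) (fun _ => gatB32 x) hd hx hx' CG.B022E_002
    · exact corT_cert (G1 := gB0q0) (G2 := gB0q2) (Ga := gB3q2) (Gb := gB4q2) cB022E_ok B hρ (gatB00 x) (gatB02 x) (fun _ => gatB32 x) (fun _ => gatB42 x) hd hx hx' CG.B022E_003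
    · exact corT_cert (G1 := gB0q0) (G2 := gB0q2) (Ga := gB4q2) (Gb := gB5q2) cB022E_ok B hρ (gatB00 x) (gatB02 x) (fun _ => gatB42 x) (fun h => absurd h (by decide)) hd hx hx' CG.B022E_004
    · exact absurd h2 (by norm_num)
    · exact absurd h2 (by norm_num)

theorem altB_B022E_01 {κ x : ℝ} (hκ : κ * h0 = ken x) (hx : ((587336777 : ℕ) : ℝ) / S ≤ x) (hx' : x ≤ (((587336777 : ℕ) : ℝ) + (62277027 : ℕ)) / S) :
    AltEB 3 κ (eng.v x) (3 / 40) (tnt (h0 * x) (3 / 10)) PP tK tL tC pcB (scP esg pd) [⟨0, 0, 0, 67108864⟩, ⟨1, 1, 0, 67108864⟩, ⟨2, 1, 0, 67108864⟩] 0 2 2 0 1 (sgb true) (sgb true) x := by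
  have X : XR 67108864 x := XR.of hx hx' (by norm_num) (by norm_num) (by norm_num) (by norm_num)
  have hen : 0 < eng.v x := en_pos X.x0.le
  refine CornW.altB (C := cB022E) (j := (0 : Fin 8)) (k := (1 : Fin 8)) (Ef := esg) (pd := pd) (o := 3 / 40)
    (cornW_of (C := cB022E) (C0 := c0B) (En := eng) (mo := mog) (j := (0 : Fin 8)) (k := (1 : Fin 8)) (lo := 0) (hi := 4) (W := 67108864) (N0 := 3) cB022E_q (sideB hx hx') gokB (pinU hx hx') dokB X (by norm_num) (by norm_num) (l := (0 : Fin 8)) rfl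
      (gatB00 x) (gatB12 x) (gatB02 x) (datB00 x) (datB12 x) (datB02 x) ?_)
    (cornS_of (C := cB022E) (C0 := c0B) (j := (0 : Fin 8)) (k := (1 : Fin 8)) (lo := 0) (hi := 4) (W := 67108864) (N0 := 3) cB022E_q (sideB hx hx') gokB X (by norm_num) (by norm_num) (l := (0 : Fin 8)) rfl
      (gatB00 x) (gatB12 x) (gatB02 x) ?_)
    (thU (pinU hx hx')) rfl hκ (fun j q y => tC_eq j q y x) (esg_rng X.x0.le (by linarith [X.b, X.p0])).1 (mo_v x) le_rfl le_rfl
  · intro ρ a B hρ hd i h1 h2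
    fin_cases i
    · exact corW_cert (G1 := gB0q0) (G2 := gB1q2) (Ga := gB0q2) (Gb := gB1q2) (D1 := dB0q0) (D2 := dB1q2) (Da := dB0q2) (Db := dB1q2) cB022E_ok B hρ hen (gatB00 x) (gatB12 x) (fun _ => gatB02 x) (fun _ => gatB12 x) (datB00 x) (datB12 x) (fun _ => datB02 x) (fun _ => datB12 x) hd hx hx' CW.B022E_010
    · exact corW_cert (G1 := gB0q0) (G2 := gB1q2) (Ga := gB1q2) (Gb := gB2q2) (D1 := dB0q0) (D2 := dB1q2) (Da := dB1q2) (Db := dB2q2) cB022E_ok B hρ hen (gatB00 x) (gatB12 x) (fun _ => gatB12 x) (fun _ => gatB22 x) (datB00 x) (datB12 x) (fun _ => datB12 x) (fun _ => datB22 x) hd hx hx' CW.B022E_011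
    · exact corW_cert (G1 := gB0q0) (G2 := gB1q2) (Ga := gB2q2) (Gb := gB3q2) (D1 := dB0q0) (D2 := dB1q2) (Da := dB2q2) (Db := dB3q2) cB022E_ok B hρ hen (gatB00 x) (gatB12 x) (fun _ => gatB22 x) (fun _ => gatB32 x) (datB00 x) (datB12 x) (fun _ => datB22 x) (fun _ => datB32 x) hd hx hx' CW.B022E_012
    · exact corW_cert (G1 := gB0q0) (G2 := gB1q2) (Ga := gB3q2) (Gb := gB4q2) (D1 := dB0q0) (D2 := dB1q2) (Da := dB3q2) (Db := dB4q2) cB022E_ok B hρ hen (gatB00 x) (gatB12 x) (fun _ => gatB32 x) (fun _ => gatB42 x) (datB00 x) (datB12 x) (fun _ => datB32 x) (fun _ => datB42 x) hd hx hx' CW.B022E_013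
    · exact corW_cert (G1 := gB0q0) (G2 := gB1q2) (Ga := gB4q2) (Gb := gB5q2) (D1 := dB0q0) (D2 := dB1q2) (Da := dB4q2) (Db := dB5q2) cB022E_ok B hρ hen (gatB00 x) (gatB12 x) (fun _ => gatB42 x) (fun h => absurd h (by decide)) (datB00 x) (datB12 x) (fun _ => datB42 x) (fun h => absurd h (by decide)) hd hx hx' CW.B022E_014
    · exact absurd h2 (by norm_num)
    · exact absurd h2 (by norm_num)
  · intro ρ a B hρ hd i h1 h2
    fin_cases i
    · exact corT_cert (G1 := gB0q0) (G2 := gB1q2) (Ga := gB0q2) (Gb := gB1q2) cB022E_ok B hρ (gatB00 x) (gatB12 x) (fun _ => gatB02 x) (fun _ => gatB12 x) hd hx hx' CG.B022E_010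
    · exact corT_cert (G1 := gB0q0) (G2 := gB1q2) (Ga := gB1q2) (Gb := gB2q2) cB022E_ok B hρ (gatB00 x) (gatB12 x) (fun _ => gatB12 x) (fun _ => gatB22 x) hd hx hx' CG.B022E_011
    · exact corT_cert (G1 := gB0q0) (G2 := gB1q2) (Ga := gB2q2) (Gb := gB3q2) cB022E_ok B hρ (gatB00 x) (gatB12 x) (fun _ => gatB22 x) (fun _ => gatB32 x) hd hx hx' CG.B022E_012
    · exact corT_cert (G1 := gB0q0) (G2 := gB1q2) (Ga := gB3q2) (Gb := gB4q2) cB022E_ok B hρ (gatB00 x) (gatB12 x) (fun _ => gatB32 x) (fun _ => gatB42 x) hd hx hx' CG.B022E_013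
    · exact corT_cert (G1 := gB0q0) (G2 := gB1q2) (Ga := gB4q2) (Gb := gB5q2) cB022E_ok B hρ (gatB00 x) (gatB12 x) (fun _ => gatB42 x) (fun h => absurd h (by decide)) hd hx hx' CG.B022E_014
    · exact absurd h2 (by norm_num)
    · exact absurd h2 (by norm_num)

theorem altB_B022E_02 {κ x : ℝ} (hκ : κ * h0 = ken x) (hx : ((587336777 : ℕ) : ℝ) / S ≤ x) (hx' : x ≤ (((587336777 : ℕ) : ℝ) + (62277027 : ℕ)) / S) :
    AltEB 3 κ (eng.v x) (3 / 40) (tnt (h0 * x) (3 / 10)) PP tK tL tC pcB (scP esg pd) [⟨0, 0, 0, 67108864⟩, ⟨1, 1, 0, 67108864⟩, ⟨2, 1, 0, 67108864⟩] 0 2 2 0 2 (sgb true) (sgb true) x := by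
  have X : XR 67108864 x := XR.of hx hx' (by norm_num) (by norm_num) (by norm_num) (by norm_num)
  have hen : 0 < eng.v x := en_pos X.x0.le
  refine CornW.altB (C := cB022E) (j := (0 : Fin 8)) (k := (2 : Fin 8)) (Ef := esg) (pd := pd) (o := 3 / 40)
    (cornW_of (C := cB022E) (C0 := c0B) (En := eng) (mo := mog) (j := (0 : Fin 8)) (k := (2 : Fin 8)) (lo := 0) (hi := 4) (W := 67108864) (N0 := 3) cB022E_q (sideB hx hx') gokB (pinU hx hx') dokB X (by norm_num) (by norm_num) (l := (0 : Fin 8)) rfl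
      (gatB00 x) (gatB22 x) (gatB02 x) (datB00 x) (datB22 x) (datB02 x) ?_)
    (cornS_of (C := cB022E) (C0 := c0B) (j := (0 : Fin 8)) (k := (2 : Fin 8)) (lo := 0) (hi := 4) (W := 67108864) (N0 := 3) cB022E_q (sideB hx hx') gokB X (by norm_num) (by norm_num) (l := (0 : Fin 8)) rfl
      (gatB00 x) (gatB22 x) (gatB02 x) ?_)
    (thU (pinU hx hx')) rfl hκ (fun j q y => tC_eq j q y x) (esg_rng X.x0.le (by linarith [X.b, X.p0])).1 (mo_v x) le_rfl le_rfl
  · intro ρ a B hρ hd i h1 h2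
    fin_cases i
    · exact corW_cert (G1 := gB0q0) (G2 := gB2q2) (Ga := gB0q2) (Gb := gB1q2) (D1 := dB0q0) (D2 := dB2q2) (Da := dB0q2) (Db := dB1q2) cB022E_ok B hρ hen (gatB00 x) (gatB22 x) (fun _ => gatB02 x) (fun _ => gatB12 x) (datB00 x) (datB22 x) (fun _ => datB02 x) (fun _ => datB12 x) hd hx hx' CW.B022E_020
    · exact corW_cert (G1 := gB0q0) (G2 := gB2q2) (Ga := gB1q2) (Gb := gB2q2) (D1 := dB0q0) (D2 := dB2q2) (Da := dB1q2) (Db := dB2q2) cB022E_ok B hρ hen (gatB00 x) (gatB22 x) (fun _ => gatB12 x) (fun _ => gatB22 x) (datB00 x) (datB22 x) (fun _ => datB12 x) (fun _ => datB22 x) hd hx hx' CW.B022E_021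
    · exact corW_cert (G1 := gB0q0) (G2 := gB2q2) (Ga := gB2q2) (Gb := gB3q2) (D1 := dB0q0) (D2 := dB2q2) (Da := dB2q2) (Db := dB3q2) cB022E_ok B hρ hen (gatB00 x) (gatB22 x) (fun _ => gatB22 x) (fun _ => gatB32 x) (datB00 x) (datB22 x) (fun _ => datB22 x) (fun _ => datB32 x) hd hx hx' CW.B022E_022
    · exact corW_cert (G1 := gB0q0) (G2 := gB2q2) (Ga := gB3q2) (Gb := gB4q2) (D1 := dB0q0) (D2 := dB2q2) (Da := dB3q2) (Db := dB4q2) cB022E_ok B hρ hen (gatB00 x) (gatB22 x) (fun _ => gatB32 x) (fun _ => gatB42 x) (datB00 x) (datB22 x) (fun _ => datB32 x) (fun _ => datB42 x) hd hx hx' CW.B022E_023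
    · exact corW_cert (G1 := gB0q0) (G2 := gB2q2) (Ga := gB4q2) (Gb := gB5q2) (D1 := dB0q0) (D2 := dB2q2) (Da := dB4q2) (Db := dB5q2) cB022E_ok B hρ hen (gatB00 x) (gatB22 x) (fun _ => gatB42 x) (fun h => absurd h (by decide)) (datB00 x) (datB22 x) (fun _ => datB42 x) (fun h => absurd h (by decide)) hd hx hx' CW.B022E_024
    · exact absurd h2 (by norm_num)
    · exact absurd h2 (by norm_num)
  · intro ρ a B hρ hd i h1 h2
    fin_cases i
    · exact corT_cert (G1 := gB0q0) (G2 := gB2q2) (Ga := gB0q2) (Gb := gB1q2) cB022E_ok B hρ (gatB00 x) (gatB22 x) (fun _ => gatB02 x) (fun _ => gatB12 x) hd hx hx' CG.B022E_020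
    · exact corT_cert (G1 := gB0q0) (G2 := gB2q2) (Ga := gB1q2) (Gb := gB2q2) cB022E_ok B hρ (gatB00 x) (gatB22 x) (fun _ => gatB12 x) (fun _ => gatB22 x) hd hx hx' CG.B022E_021
    · exact corT_cert (G1 := gB0q0) (G2 := gB2q2) (Ga := gB2q2) (Gb := gB3q2) cB022E_ok B hρ (gatB00 x) (gatB22 x) (fun _ => gatB22 x) (fun _ => gatB32 x) hd hx hx' CG.B022E_022
    · exact corT_cert (G1 := gB0q0) (G2 := gB2q2) (Ga := gB3q2) (Gb := gB4q2) cB022E_ok B hρ (gatB00 x) (gatB22 x) (fun _ => gatB32 x) (fun _ => gatB42 x) hd hx hx' CG.B022E_023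
    · exact corT_cert (G1 := gB0q0) (G2 := gB2q2) (Ga := gB4q2) (Gb := gB5q2) cB022E_ok B hρ (gatB00 x) (gatB22 x) (fun _ => gatB42 x) (fun h => absurd h (by decide)) hd hx hx' CG.B022E_024
    · exact absurd h2 (by norm_num)
    · exact absurd h2 (by norm_num)

theorem altB_B022E_03 {κ x : ℝ} (hκ : κ * h0 = ken x) (hx : ((587336777 : ℕ) : ℝ) / S ≤ x) (hx' : x ≤ (((587336777 : ℕ) : ℝ) + (62277027 : ℕ)) / S) :
    AltEB 3 κ (eng.v x) (3 / 40) (tnt (h0 * x) (3 / 10)) PP tK tL tC pcB (scP esg pd) [⟨0, 0, 0, 67108864⟩, ⟨1, 1, 0, 67108864⟩, ⟨2, 1, 0, 67108864⟩] 0 2 2 0 3 (sgb true) (sgb true) x := by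
  have X : XR 67108864 x := XR.of hx hx' (by norm_num) (by norm_num) (by norm_num) (by norm_num)
  have hen : 0 < eng.v x := en_pos X.x0.le
  refine CornW.altB (C := cB022E) (j := (0 : Fin 8)) (k := (3 : Fin 8)) (Ef := esg) (pd := pd) (o := 3 / 40)
    (cornW_of (C := cB022E) (C0 := c0B) (En := eng) (mo := mog) (j := (0 : Fin 8)) (k := (3 : Fin 8)) (lo := 0) (hi := 4) (W := 67108864) (N0 := 3) cB022E_q (sideB hx hx') gokB (pinU hx hx') dokB X (by norm_num) (by norm_num) (l := (0 : Fin 8)) rfl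
      (gatB00 x) (gatB32 x) (gatB02 x) (datB00 x) (datB32 x) (datB02 x) ?_)
    (cornS_of (C := cB022E) (C0 := c0B) (j := (0 : Fin 8)) (k := (3 : Fin 8)) (lo := 0) (hi := 4) (W := 67108864) (N0 := 3) cB022E_q (sideB hx hx') gokB X (by norm_num) (by norm_num) (l := (0 : Fin 8)) rfl
      (gatB00 x) (gatB32 x) (gatB02 x) ?_)
    (thU (pinU hx hx')) rfl hκ (fun j q y => tC_eq j q y x) (esg_rng X.x0.le (by linarith [X.b, X.p0])).1 (mo_v x) le_rfl le_rfl
  · intro ρ a B hρ hd i h1 h2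
    fin_cases i
    · exact corW_cert (G1 := gB0q0) (G2 := gB3q2) (Ga := gB0q2) (Gb := gB1q2) (D1 := dB0q0) (D2 := dB3q2) (Da := dB0q2) (Db := dB1q2) cB022E_ok B hρ hen (gatB00 x) (gatB32 x) (fun _ => gatB02 x) (fun _ => gatB12 x) (datB00 x) (datB32 x) (fun _ => datB02 x) (fun _ => datB12 x) hd hx hx' CW.B022E_030
    · exact corW_cert (G1 := gB0q0) (G2 := gB3q2) (Ga := gB1q2) (Gb := gB2q2) (D1 := dB0q0) (D2 := dB3q2) (Da := dB1q2) (Db := dB2q2) cB022E_ok B hρ hen (gatB00 x) (gatB32 x) (fun _ => gatB12 x) (fun _ => gatB22 x) (datB00 x) (datB32 x) (fun _ => datB12 x) (fun _ => datB22 x) hd hx hx' CW.B022E_031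
    · exact corW_cert (G1 := gB0q0) (G2 := gB3q2) (Ga := gB2q2) (Gb := gB3q2) (D1 := dB0q0) (D2 := dB3q2) (Da := dB2q2) (Db := dB3q2) cB022E_ok B hρ hen (gatB00 x) (gatB32 x) (fun _ => gatB22 x) (fun _ => gatB32 x) (datB00 x) (datB32 x) (fun _ => datB22 x) (fun _ => datB32 x) hd hx hx' CW.B022E_032
    · exact corW_cert (G1 := gB0q0) (G2 := gB3q2) (Ga := gB3q2) (Gb := gB4q2) (D1 := dB0q0) (D2 := dB3q2) (Da := dB3q2) (Db := dB4q2) cB022E_ok B hρ hen (gatB00 x) (gatB32 x) (fun _ => gatB32 x) (fun _ => gatB42 x) (datB00 x) (datB32 x) (fun _ => datB32 x) (fun _ => datB42 x) hd hx hx' CW.B022E_033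
    · exact corW_cert (G1 := gB0q0) (G2 := gB3q2) (Ga := gB4q2) (Gb := gB5q2) (D1 := dB0q0) (D2 := dB3q2) (Da := dB4q2) (Db := dB5q2) cB022E_ok B hρ hen (gatB00 x) (gatB32 x) (fun _ => gatB42 x) (fun h => absurd h (by decide)) (datB00 x) (datB32 x) (fun _ => datB42 x) (fun h => absurd h (by decide)) hd hx hx' CW.B022E_034
    · exact absurd h2 (by norm_num)
    · exact absurd h2 (by norm_num)
  · intro ρ a B hρ hd i h1 h2
    fin_cases i
    · exact corT_cert (G1 := gB0q0) (G2 := gB3q2) (Ga := gB0q2) (Gb := gB1q2) cB022E_ok B hρ (gatB00 x) (gatB32 x) (fun _ => gatB02 x) (fun _ => gatB12 x) hd hx hx' CG.B022E_030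
    · exact corT_cert (G1 := gB0q0) (G2 := gB3q2) (Ga := gB1q2) (Gb := gB2q2) cB022E_ok B hρ (gatB00 x) (gatB32 x) (fun _ => gatB12 x) (fun _ => gatB22 x) hd hx hx' CG.B022E_031
    · exact corT_cert (G1 := gB0q0) (G2 := gB3q2) (Ga := gB2q2) (Gb := gB3q2) cB022E_ok B hρ (gatB00 x) (gatB32 x) (fun _ => gatB22 x) (fun _ => gatB32 x) hd hx hx' CG.B022E_032
    · exact corT_cert (G1 := gB0q0) (G2 := gB3q2) (Ga := gB3q2) (Gb := gB4q2) cB022E_ok B hρ (gatB00 x) (gatB32 x) (fun _ => gatB32 x) (fun _ => gatB42 x) hd hx hx' CG.B022E_033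
    · exact corT_cert (G1 := gB0q0) (G2 := gB3q2) (Ga := gB4q2) (Gb := gB5q2) cB022E_ok B hρ (gatB00 x) (gatB32 x) (fun _ => gatB42 x) (fun h => absurd h (by decide)) hd hx hx' CG.B022E_034
    · exact absurd h2 (by norm_num)
    · exact absurd h2 (by norm_num)

theorem altB_B022E_04 {κ x : ℝ} (hκ : κ * h0 = ken x) (hx : ((587336777 : ℕ) : ℝ) / S ≤ x) (hx' : x ≤ (((587336777 : ℕ) : ℝ) + (62277027 : ℕ)) / S) :
    AltEB 3 κ (eng.v x) (3 / 40) (tnt (h0 * x) (3 / 10)) PP tK tL tC pcB (scP esg pd) [⟨0, 0, 0, 67108864⟩, ⟨1, 1, 0, 67108864⟩, ⟨2, 1, 0, 67108864⟩] 0 2 2 0 4 (sgb true) (sgb true) x := by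
  have X : XR 67108864 x := XR.of hx hx' (by norm_num) (by norm_num) (by norm_num) (by norm_num)
  have hen : 0 < eng.v x := en_pos X.x0.le
  refine CornW.altB (C := cB022E) (j := (0 : Fin 8)) (k := (4 : Fin 8)) (Ef := esg) (pd := pd) (o := 3 / 40)
    (cornW_of (C := cB022E) (C0 := c0B) (En := eng) (mo := mog) (j := (0 : Fin 8)) (k := (4 : Fin 8)) (lo := 0) (hi := 4) (W := 67108864) (N0 := 3) cB022E_q (sideB hx hx') gokB (pinU hx hx') dokB X (by norm_num) (by norm_num) (l := (0 : Fin 8)) rfl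
      (gatB00 x) (gatB42 x) (gatB02 x) (datB00 x) (datB42 x) (datB02 x) ?_)
    (cornS_of (C := cB022E) (C0 := c0B) (j := (0 : Fin 8)) (k := (4 : Fin 8)) (lo := 0) (hi := 4) (W := 67108864) (N0 := 3) cB022E_q (sideB hx hx') gokB X (by norm_num) (by norm_num) (l := (0 : Fin 8)) rfl
      (gatB00 x) (gatB42 x) (gatB02 x) ?_)
    (thU (pinU hx hx')) rfl hκ (fun j q y => tC_eq j q y x) (esg_rng X.x0.le (by linarith [X.b, X.p0])).1 (mo_v x) le_rfl le_rfl
  · intro ρ a B hρ hd i h1 h2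
    fin_cases i
    · exact corW_cert (G1 := gB0q0) (G2 := gB4q2) (Ga := gB0q2) (Gb := gB1q2) (D1 := dB0q0) (D2 := dB4q2) (Da := dB0q2) (Db := dB1q2) cB022E_ok B hρ hen (gatB00 x) (gatB42 x) (fun _ => gatB02 x) (fun _ => gatB12 x) (datB00 x) (datB42 x) (fun _ => datB02 x) (fun _ => datB12 x) hd hx hx' CW.B022E_040
    · exact corW_cert (G1 := gB0q0) (G2 := gB4q2) (Ga := gB1q2) (Gb := gB2q2) (D1 := dB0q0) (D2 := dB4q2) (Da := dB1q2) (Db := dB2q2) cB022E_ok B hρ hen (gatB00 x) (gatB42 x) (fun _ => gatB12 x) (fun _ => gatB22 x) (datB00 x) (datB42 x) (fun _ => datB12 x) (fun _ => datB22 x) hd hx hx' CW.B022E_041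
    · exact corW_cert (G1 := gB0q0) (G2 := gB4q2) (Ga := gB2q2) (Gb := gB3q2) (D1 := dB0q0) (D2 := dB4q2) (Da := dB2q2) (Db := dB3q2) cB022E_ok B hρ hen (gatB00 x) (gatB42 x) (fun _ => gatB22 x) (fun _ => gatB32 x) (datB00 x) (datB42 x) (fun _ => datB22 x) (fun _ => datB32 x) hd hx hx' CW.B022E_042
    · exact corW_cert (G1 := gB0q0) (G2 := gB4q2) (Ga := gB3q2) (Gb := gB4q2) (D1 := dB0q0) (D2 := dB4q2) (Da := dB3q2) (Db := dB4q2) cB022E_ok B hρ hen (gatB00 x) (gatB42 x) (fun _ => gatB32 x) (fun _ => gatB42 x) (datB00 x) (datB42 x) (fun _ => datB32 x) (fun _ => datB42 x) hd hx hx' CW.B022E_043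
    · exact corW_cert (G1 := gB0q0) (G2 := gB4q2) (Ga := gB4q2) (Gb := gB5q2) (D1 := dB0q0) (D2 := dB4q2) (Da := dB4q2) (Db := dB5q2) cB022E_ok B hρ hen (gatB00 x) (gatB42 x) (fun _ => gatB42 x) (fun h => absurd h (by decide)) (datB00 x) (datB42 x) (fun _ => datB42 x) (fun h => absurd h (by decide)) hd hx hx' CW.B022E_044
    · exact absurd h2 (by norm_num)
    · exact absurd h2 (by norm_num)
  · intro ρ a B hρ hd i h1 h2
    fin_cases i
    · exact corT_cert (G1 := gB0q0) (G2 := gB4q2) (Ga := gB0q2) (Gb := gB1q2) cB022E_ok B hρ (gatB00 x) (gatB42 x) (fun _ => gatB02 x) (fun _ => gatB12 x) hd hx hx' CG.B022E_040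
    · exact corT_cert (G1 := gB0q0) (G2 := gB4q2) (Ga := gB1q2) (Gb := gB2q2) cB022E_ok B hρ (gatB00 x) (gatB42 x) (fun _ => gatB12 x) (fun _ => gatB22 x) hd hx hx' CG.B022E_041
    · exact corT_cert (G1 := gB0q0) (G2 := gB4q2) (Ga := gB2q2) (Gb := gB3q2) cB022E_ok B hρ (gatB00 x) (gatB42 x) (fun _ => gatB22 x) (fun _ => gatB32 x) hd hx hx' CG.B022E_042
    · exact corT_cert (G1 := gB0q0) (G2 := gB4q2) (Ga := gB3q2) (Gb := gB4q2) cB022E_ok B hρ (gatB00 x) (gatB42 x) (fun _ => gatB32 x) (fun _ => gatB42 x) hd hx hx' CG.B022E_043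
    · exact corT_cert (G1 := gB0q0) (G2 := gB4q2) (Ga := gB4q2) (Gb := gB5q2) cB022E_ok B hρ (gatB00 x) (gatB42 x) (fun _ => gatB42 x) (fun h => absurd h (by decide)) hd hx hx' CG.B022E_044
    · exact absurd h2 (by norm_num)
    · exact absurd h2 (by norm_num)

theorem altB_B022E_10 {κ x : ℝ} (hκ : κ * h0 = ken x) (hx : ((587336777 : ℕ) : ℝ) / S ≤ x) (hx' : x ≤ (((587336777 : ℕ) : ℝ) + (62277027 : ℕ)) / S) :
    AltEB 3 κ (eng.v x) (3 / 40) (tnt (h0 * x) (3 / 10)) PP tK tL tC pcB (scP esg pd) [⟨0, 0, 0, 67108864⟩, ⟨1, 1, 0, 67108864⟩, ⟨2, 1, 0, 67108864⟩] 0 2 2 1 0 (sgb true) (sgb true) x := by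
  have X : XR 67108864 x := XR.of hx hx' (by norm_num) (by norm_num) (by norm_num) (by norm_num)
  have hen : 0 < eng.v x := en_pos X.x0.le
  refine CornW.altB (C := cB022E) (j := (1 : Fin 8)) (k := (0 : Fin 8)) (Ef := esg) (pd := pd) (o := 3 / 40)
    (cornW_of (C := cB022E) (C0 := c0B) (En := eng) (mo := mog) (j := (1 : Fin 8)) (k := (0 : Fin 8)) (lo := 0) (hi := 4) (W := 67108864) (N0 := 3) cB022E_q (sideB hx hx') gokB (pinU hx hx') dokB X (by norm_num) (by norm_num) (l := (0 : Fin 8)) rfl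
      (gatB10 x) (gatB02 x) (gatB02 x) (datB10 x) (datB02 x) (datB02 x) ?_)
    (cornS_of (C := cB022E) (C0 := c0B) (j := (1 : Fin 8)) (k := (0 : Fin 8)) (lo := 0) (hi := 4) (W := 67108864) (N0 := 3) cB022E_q (sideB hx hx') gokB X (by norm_num) (by norm_num) (l := (0 : Fin 8)) rfl
      (gatB10 x) (gatB02 x) (gatB02 x) ?_)
    (thU (pinU hx hx')) rfl hκ (fun j q y => tC_eq j q y x) (esg_rng X.x0.le (by linarith [X.b, X.p0])).1 (mo_v x) le_rfl le_rfl
  · intro ρ a B hρ hd i h1 h2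
    fin_cases i
    · exact corW_cert (G1 := gB1q0) (G2 := gB0q2) (Ga := gB0q2) (Gb := gB1q2) (D1 := dB1q0) (D2 := dB0q2) (Da := dB0q2) (Db := dB1q2) cB022E_ok B hρ hen (gatB10 x) (gatB02 x) (fun _ => gatB02 x) (fun _ => gatB12 x) (datB10 x) (datB02 x) (fun _ => datB02 x) (fun _ => datB12 x) hd hx hx' CW.B022E_100
    · exact corW_cert (G1 := gB1q0) (G2 := gB0q2) (Ga := gB1q2) (Gb := gB2q2) (D1 := dB1q0) (D2 := dB0q2) (Da := dB1q2) (Db := dB2q2) cB022E_ok B hρ hen (gatB10 x) (gatB02 x) (fun _ => gatB12 x) (fun _ => gatB22 x) (datB10 x) (datB02 x) (fun _ => datB12 x) (fun _ => datB22 x) hd hx hx' CW.B022E_101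
    · exact corW_cert (G1 := gB1q0) (G2 := gB0q2) (Ga := gB2q2) (Gb := gB3q2) (D1 := dB1q0) (D2 := dB0q2) (Da := dB2q2) (Db := dB3q2) cB022E_ok B hρ hen (gatB10 x) (gatB02 x) (fun _ => gatB22 x) (fun _ => gatB32 x) (datB10 x) (datB02 x) (fun _ => datB22 x) (fun _ => datB32 x) hd hx hx' CW.B022E_102
    · exact corW_cert (G1 := gB1q0) (G2 := gB0q2) (Ga := gB3q2) (Gb := gB4q2) (D1 := dB1q0) (D2 := dB0q2) (Da := dB3q2) (Db := dB4q2) cB022E_ok B hρ hen (gatB10 x) (gatB02 x) (fun _ => gatB32 x) (fun _ => gatB42 x) (datB10 x) (datB02 x) (fun _ => datB32 x) (fun _ => datB42 x) hd hx hx' CW.B022E_103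
    · exact corW_cert (G1 := gB1q0) (G2 := gB0q2) (Ga := gB4q2) (Gb := gB5q2) (D1 := dB1q0) (D2 := dB0q2) (Da := dB4q2) (Db := dB5q2) cB022E_ok B hρ hen (gatB10 x) (gatB02 x) (fun _ => gatB42 x) (fun h => absurd h (by decide)) (datB10 x) (datB02 x) (fun _ => datB42 x) (fun h => absurd h (by decide)) hd hx hx' CW.B022E_104
    · exact absurd h2 (by norm_num)
    · exact absurd h2 (by norm_num)
  · intro ρ a B hρ hd i h1 h2
    fin_cases i
    · exact corT_cert (G1 := gB1q0) (G2 := gB0q2) (Ga := gB0q2) (Gb := gB1q2) cB022E_ok B hρ (gatB10 x) (gatB02 x) (fun _ => gatB02 x) (fun _ => gatB12 x) hd hx hx' CG.B022E_100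
    · exact corT_cert (G1 := gB1q0) (G2 := gB0q2) (Ga := gB1q2) (Gb := gB2q2) cB022E_ok B hρ (gatB10 x) (gatB02 x) (fun _ => gatB12 x) (fun _ => gatB22 x) hd hx hx' CG.B022E_101
    · exact corT_cert (G1 := gB1q0) (G2 := gB0q2) (Ga := gB2q2) (Gb := gB3q2) cB022E_ok B hρ (gatB10 x) (gatB02 x) (fun _ => gatB22 x) (fun _ => gatB32 x) hd hx hx' CG.B022E_102
    · exact corT_cert (G1 := gB1q0) (G2 := gB0q2) (Ga := gB3q2) (Gb := gB4q2) cB022E_ok B hρ (gatB10 x) (gatB02 x) (fun _ => gatB32 x) (fun _ => gatB42 x) hd hx hx' CG.B022E_103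
    · exact corT_cert (G1 := gB1q0) (G2 := gB0q2) (Ga := gB4q2) (Gb := gB5q2) cB022E_ok B hρ (gatB10 x) (gatB02 x) (fun _ => gatB42 x) (fun h => absurd h (by decide)) hd hx hx' CG.B022E_104
    · exact absurd h2 (by norm_num)
    · exact absurd h2 (by norm_num)

theorem altB_B022E_11 {κ x : ℝ} (hκ : κ * h0 = ken x) (hx : ((587336777 : ℕ) : ℝ) / S ≤ x) (hx' : x ≤ (((587336777 : ℕ) : ℝ) + (62277027 : ℕ)) / S) :
    AltEB 3 κ (eng.v x) (3 / 40) (tnt (h0 * x) (3 / 10)) PP tK tL tC pcB (scP esg pd) [⟨0, 0, 0, 67108864⟩, ⟨1, 1, 0, 67108864⟩, ⟨2, 1, 0, 67108864⟩] 0 2 2 1 1 (sgb true) (sgb true) x := by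
  have X : XR 67108864 x := XR.of hx hx' (by norm_num) (by norm_num) (by norm_num) (by norm_num)
  have hen : 0 < eng.v x := en_pos X.x0.le
  refine CornW.altB (C := cB022E) (j := (1 : Fin 8)) (k := (1 : Fin 8)) (Ef := esg) (pd := pd) (o := 3 / 40)
    (cornW_of (C := cB022E) (C0 := c0B) (En := eng) (mo := mog) (j := (1 : Fin 8)) (k := (1 : Fin 8)) (lo := 0) (hi := 4) (W := 67108864) (N0 := 3) cB022E_q (sideB hx hx') gokB (pinU hx hx') dokB X (by norm_num) (by norm_num) (l := (0 : Fin 8)) rfl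
      (gatB10 x) (gatB12 x) (gatB02 x) (datB10 x) (datB12 x) (datB02 x) ?_)
    (cornS_of (C := cB022E) (C0 := c0B) (j := (1 : Fin 8)) (k := (1 : Fin 8)) (lo := 0) (hi := 4) (W := 67108864) (N0 := 3) cB022E_q (sideB hx hx') gokB X (by norm_num) (by norm_num) (l := (0 : Fin 8)) rfl
      (gatB10 x) (gatB12 x) (gatB02 x) ?_)
    (thU (pinU hx hx')) rfl hκ (fun j q y => tC_eq j q y x) (esg_rng X.x0.le (by linarith [X.b, X.p0])).1 (mo_v x) le_rfl le_rfl
  · intro ρ a B hρ hd i h1 h2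
    fin_cases i
    · exact corW_cert (G1 := gB1q0) (G2 := gB1q2) (Ga := gB0q2) (Gb := gB1q2) (D1 := dB1q0) (D2 := dB1q2) (Da := dB0q2) (Db := dB1q2) cB022E_ok B hρ hen (gatB10 x) (gatB12 x) (fun _ => gatB02 x) (fun _ => gatB12 x) (datB10 x) (datB12 x) (fun _ => datB02 x) (fun _ => datB12 x) hd hx hx' CW.B022E_110
    · exact corW_cert (G1 := gB1q0) (G2 := gB1q2) (Ga := gB1q2) (Gb := gB2q2) (D1 := dB1q0) (D2 := dB1q2) (Da := dB1q2) (Db := dB2q2) cB022E_ok B hρ hen (gatB10 x) (gatB12 x) (fun _ => gatB12 x) (fun _ => gatB22 x) (datB10 x) (datB12 x) (fun _ => datB12 x) (fun _ => datB22 x) hd hx hx' CW.B022E_111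
    · exact corW_cert (G1 := gB1q0) (G2 := gB1q2) (Ga := gB2q2) (Gb := gB3q2) (D1 := dB1q0) (D2 := dB1q2) (Da := dB2q2) (Db := dB3q2) cB022E_ok B hρ hen (gatB10 x) (gatB12 x) (fun _ => gatB22 x) (fun _ => gatB32 x) (datB10 x) (datB12 x) (fun _ => datB22 x) (fun _ => datB32 x) hd hx hx' CW.B022E_112
    · exact corW_cert (G1 := gB1q0) (G2 := gB1q2) (Ga := gB3q2) (Gb := gB4q2) (D1 := dB1q0) (D2 := dB1q2) (Da := dB3q2) (Db := dB4q2) cB022E_ok B hρ hen (gatB10 x) (gatB12 x) (fun _ => gatB32 x) (fun _ => gatB42 x) (datB10 x) (datB12 x) (fun _ => datB32 x) (fun _ => datB42 x) hd hx hx' CW.B022E_113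
    · exact corW_cert (G1 := gB1q0) (G2 := gB1q2) (Ga := gB4q2) (Gb := gB5q2) (D1 := dB1q0) (D2 := dB1q2) (Da := dB4q2) (Db := dB5q2) cB022E_ok B hρ hen (gatB10 x) (gatB12 x) (fun _ => gatB42 x) (fun h => absurd h (by decide)) (datB10 x) (datB12 x) (fun _ => datB42 x) (fun h => absurd h (by decide)) hd hx hx' CW.B022E_114
    · exact absurd h2 (by norm_num)
    · exact absurd h2 (by norm_num)
  · intro ρ a B hρ hd i h1 h2
    fin_cases i
    · exact corT_cert (G1 := gB1q0) (G2 := gB1q2) (Ga := gB0q2) (Gb := gB1q2) cB022E_ok B hρ (gatB10 x) (gatB12 x) (fun _ => gatB02 x) (fun _ => gatB12 x) hd hx hx' CG.B022E_110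
    · exact corT_cert (G1 := gB1q0) (G2 := gB1q2) (Ga := gB1q2) (Gb := gB2q2) cB022E_ok B hρ (gatB10 x) (gatB12 x) (fun _ => gatB12 x) (fun _ => gatB22 x) hd hx hx' CG.B022E_111
    · exact corT_cert (G1 := gB1q0) (G2 := gB1q2) (Ga := gB2q2) (Gb := gB3q2) cB022E_ok B hρ (gatB10 x) (gatB12 x) (fun _ => gatB22 x) (fun _ => gatB32 x) hd hx hx' CG.B022E_112
    · exact corT_cert (G1 := gB1q0) (G2 := gB1q2) (Ga := gB3q2) (Gb := gB4q2) cB022E_ok B hρ (gatB10 x) (gatB12 x) (fun _ => gatB32 x) (fun _ => gatB42 x) hd hx hx' CG.B022E_113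
    · exact corT_cert (G1 := gB1q0) (G2 := gB1q2) (Ga := gB4q2) (Gb := gB5q2) cB022E_ok B hρ (gatB10 x) (gatB12 x) (fun _ => gatB42 x) (fun h => absurd h (by decide)) hd hx hx' CG.B022E_114
    · exact absurd h2 (by norm_num)
    · exact absurd h2 (by norm_num)

theorem altB_B022E_12 {κ x : ℝ} (hκ : κ * h0 = ken x) (hx : ((587336777 : ℕ) : ℝ) / S ≤ x) (hx' : x ≤ (((587336777 : ℕ) : ℝ) + (62277027 : ℕ)) / S) :
    AltEB 3 κ (eng.v x) (3 / 40) (tnt (h0 * x) (3 / 10)) PP tK tL tC pcB (scP esg pd) [⟨0, 0, 0, 67108864⟩, ⟨1, 1, 0, 67108864⟩, ⟨2, 1, 0, 67108864⟩] 0 2 2 1 2 (sgb true) (sgb true) x := by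
  have X : XR 67108864 x := XR.of hx hx' (by norm_num) (by norm_num) (by norm_num) (by norm_num)
  have hen : 0 < eng.v x := en_pos X.x0.le
  refine CornW.altB (C := cB022E) (j := (1 : Fin 8)) (k := (2 : Fin 8)) (Ef := esg) (pd := pd) (o := 3 / 40)
    (cornW_of (C := cB022E) (C0 := c0B) (En := eng) (mo := mog) (j := (1 : Fin 8)) (k := (2 : Fin 8)) (lo := 0) (hi := 4) (W := 67108864) (N0 := 3) cB022E_q (sideB hx hx') gokB (pinU hx hx') dokB X (by norm_num) (by norm_num) (l := (0 : Fin 8)) rfl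
      (gatB10 x) (gatB22 x) (gatB02 x) (datB10 x) (datB22 x) (datB02 x) ?_)
    (cornS_of (C := cB022E) (C0 := c0B) (j := (1 : Fin 8)) (k := (2 : Fin 8)) (lo := 0) (hi := 4) (W := 67108864) (N0 := 3) cB022E_q (sideB hx hx') gokB X (by norm_num) (by norm_num) (l := (0 : Fin 8)) rfl
      (gatB10 x) (gatB22 x) (gatB02 x) ?_)
    (thU (pinU hx hx')) rfl hκ (fun j q y => tC_eq j q y x) (esg_rng X.x0.le (by linarith [X.b, X.p0])).1 (mo_v x) le_rfl le_rfl
  · intro ρ a B hρ hd i h1 h2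
    fin_cases i
    · exact corW_cert (G1 := gB1q0) (G2 := gB2q2) (Ga := gB0q2) (Gb := gB1q2) (D1 := dB1q0) (D2 := dB2q2) (Da := dB0q2) (Db := dB1q2) cB022E_ok B hρ hen (gatB10 x) (gatB22 x) (fun _ => gatB02 x) (fun _ => gatB12 x) (datB10 x) (datB22 x) (fun _ => datB02 x) (fun _ => datB12 x) hd hx hx' CW.B022E_120
    · exact corW_cert (G1 := gB1q0) (G2 := gB2q2) (Ga := gB1q2) (Gb := gB2q2) (D1 := dB1q0) (D2 := dB2q2) (Da := dB1q2) (Db := dB2q2) cB022E_ok B hρ hen (gatB10 x) (gatB22 x) (fun _ => gatB12 x) (fun _ => gatB22 x) (datB10 x) (datB22 x) (fun _ => datB12 x) (fun _ => datB22 x) hd hx hx' CW.B022E_121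
    · exact corW_cert (G1 := gB1q0) (G2 := gB2q2) (Ga := gB2q2) (Gb := gB3q2) (D1 := dB1q0) (D2 := dB2q2) (Da := dB2q2) (Db := dB3q2) cB022E_ok B hρ hen (gatB10 x) (gatB22 x) (fun _ => gatB22 x) (fun _ => gatB32 x) (datB10 x) (datB22 x) (fun _ => datB22 x) (fun _ => datB32 x) hd hx hx' CW.B022E_122
    · exact corW_cert (G1 := gB1q0) (G2 := gB2q2) (Ga := gB3q2) (Gb := gB4q2) (D1 := dB1q0) (D2 := dB2q2) (Da := dB3q2) (Db := dB4q2) cB022E_ok B hρ hen (gatB10 x) (gatB22 x) (fun _ => gatB32 x) (fun _ => gatB42 x) (datB10 x) (datB22 x) (fun _ => datB32 x) (fun _ => datB42 x) hd hx hx' CW.B022E_123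
    · exact corW_cert (G1 := gB1q0) (G2 := gB2q2) (Ga := gB4q2) (Gb := gB5q2) (D1 := dB1q0) (D2 := dB2q2) (Da := dB4q2) (Db := dB5q2) cB022E_ok B hρ hen (gatB10 x) (gatB22 x) (fun _ => gatB42 x) (fun h => absurd h (by decide)) (datB10 x) (datB22 x) (fun _ => datB42 x) (fun h => absurd h (by decide)) hd hx hx' CW.B022E_124
    · exact absurd h2 (by norm_num)
    · exact absurd h2 (by norm_num)
  · intro ρ a B hρ hd i h1 h2
    fin_cases i
    · exact corT_cert (G1 := gB1q0) (G2 := gB2q2) (Ga := gB0q2) (Gb := gB1q2) cB022E_ok B hρ (gatB10 x) (gatB22 x) (fun _ => gatB02 x) (fun _ => gatB12 x) hd hx hx' CG.B022E_120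
    · exact corT_cert (G1 := gB1q0) (G2 := gB2q2) (Ga := gB1q2) (Gb := gB2q2) cB022E_ok B hρ (gatB10 x) (gatB22 x) (fun _ => gatB12 x) (fun _ => gatB22 x) hd hx hx' CG.B022E_121
    · exact corT_cert (G1 := gB1q0) (G2 := gB2q2) (Ga := gB2q2) (Gb := gB3q2) cB022E_ok B hρ (gatB10 x) (gatB22 x) (fun _ => gatB22 x) (fun _ => gatB32 x) hd hx hx' CG.B022E_122
    · exact corT_cert (G1 := gB1q0) (G2 := gB2q2) (Ga := gB3q2) (Gb := gB4q2) cB022E_ok B hρ (gatB10 x) (gatB22 x) (fun _ => gatB32 x) (fun _ => gatB42 x) hd hx hx' CG.B022E_123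
    · exact corT_cert (G1 := gB1q0) (G2 := gB2q2) (Ga := gB4q2) (Gb := gB5q2) cB022E_ok B hρ (gatB10 x) (gatB22 x) (fun _ => gatB42 x) (fun h => absurd h (by decide)) hd hx hx' CG.B022E_124
    · exact absurd h2 (by norm_num)
    · exact absurd h2 (by norm_num)

theorem altB_B022E_13 {κ x : ℝ} (hκ : κ * h0 = ken x) (hx : ((587336777 : ℕ) : ℝ) / S ≤ x) (hx' : x ≤ (((587336777 : ℕ) : ℝ) + (62277027 : ℕ)) / S) :
    AltEB 3 κ (eng.v x) (3 / 40) (tnt (h0 * x) (3 / 10)) PP tK tL tC pcB (scP esg pd) [⟨0, 0, 0, 67108864⟩, ⟨1, 1, 0, 67108864⟩, ⟨2, 1, 0, 67108864⟩] 0 2 2 1 3 (sgb true) (sgb true) x := by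
  have X : XR 67108864 x := XR.of hx hx' (by norm_num) (by norm_num) (by norm_num) (by norm_num)
  have hen : 0 < eng.v x := en_pos X.x0.le
  refine CornW.altB (C := cB022E) (j := (1 : Fin 8)) (k := (3 : Fin 8)) (Ef := esg) (pd := pd) (o := 3 / 40)
    (cornW_of (C := cB022E) (C0 := c0B) (En := eng) (mo := mog) (j := (1 : Fin 8)) (k := (3 : Fin 8)) (lo := 0) (hi := 4) (W := 67108864) (N0 := 3) cB022E_q (sideB hx hx') gokB (pinU hx hx') dokB X (by norm_num) (by norm_num) (l := (0 : Fin 8)) rfl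
      (gatB10 x) (gatB32 x) (gatB02 x) (datB10 x) (datB32 x) (datB02 x) ?_)
    (cornS_of (C := cB022E) (C0 := c0B) (j := (1 : Fin 8)) (k := (3 : Fin 8)) (lo := 0) (hi := 4) (W := 67108864) (N0 := 3) cB022E_q (sideB hx hx') gokB X (by norm_num) (by norm_num) (l := (0 : Fin 8)) rfl
      (gatB10 x) (gatB32 x) (gatB02 x) ?_)
    (thU (pinU hx hx')) rfl hκ (fun j q y => tC_eq j q y x) (esg_rng X.x0.le (by linarith [X.b, X.p0])).1 (mo_v x) le_rfl le_rfl
  · intro ρ a B hρ hd i h1 h2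
    fin_cases i
    · exact corW_cert (G1 := gB1q0) (G2 := gB3q2) (Ga := gB0q2) (Gb := gB1q2) (D1 := dB1q0) (D2 := dB3q2) (Da := dB0q2) (Db := dB1q2) cB022E_ok B hρ hen (gatB10 x) (gatB32 x) (fun _ => gatB02 x) (fun _ => gatB12 x) (datB10 x) (datB32 x) (fun _ => datB02 x) (fun _ => datB12 x) hd hx hx' CW.B022E_130
    · exact corW_cert (G1 := gB1q0) (G2 := gB3q2) (Ga := gB1q2) (Gb := gB2q2) (D1 := dB1q0) (D2 := dB3q2) (Da := dB1q2) (Db := dB2q2) cB022E_ok B hρ hen (gatB10 x) (gatB32 x) (fun _ => gatB12 x) (fun _ => gatB22 x) (datB10 x) (datB32 x) (fun _ => datB12 x) (fun _ => datB22 x) hd hx hx' CW.B022E_131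
    · exact corW_cert (G1 := gB1q0) (G2 := gB3q2) (Ga := gB2q2) (Gb := gB3q2) (D1 := dB1q0) (D2 := dB3q2) (Da := dB2q2) (Db := dB3q2) cB022E_ok B hρ hen (gatB10 x) (gatB32 x) (fun _ => gatB22 x) (fun _ => gatB32 x) (datB10 x) (datB32 x) (fun _ => datB22 x) (fun _ => datB32 x) hd hx hx' CW.B022E_132
    · exact corW_cert (G1 := gB1q0) (G2 := gB3q2) (Ga := gB3q2) (Gb := gB4q2) (D1 := dB1q0) (D2 := dB3q2) (Da := dB3q2) (Db := dB4q2) cB022E_ok B hρ hen (gatB10 x) (gatB32 x) (fun _ => gatB32 x) (fun _ => gatB42 x) (datB10 x) (datB32 x) (fun _ => datB32 x) (fun _ => datB42 x) hd hx hx' CW.B022E_133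
    · exact corW_cert (G1 := gB1q0) (G2 := gB3q2) (Ga := gB4q2) (Gb := gB5q2) (D1 := dB1q0) (D2 := dB3q2) (Da := dB4q2) (Db := dB5q2) cB022E_ok B hρ hen (gatB10 x) (gatB32 x) (fun _ => gatB42 x) (fun h => absurd h (by decide)) (datB10 x) (datB32 x) (fun _ => datB42 x) (fun h => absurd h (by decide)) hd hx hx' CW.B022E_134
    · exact absurd h2 (by norm_num)
    · exact absurd h2 (by norm_num)
  · intro ρ a B hρ hd i h1 h2
    fin_cases i
    · exact corT_cert (G1 := gB1q0) (G2 := gB3q2) (Ga := gB0q2) (Gb := gB1q2) cB022E_ok B hρ (gatB10 x) (gatB32 x) (fun _ => gatB02 x) (fun _ => gatB12 x) hd hx hx' CG.B022E_130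
    · exact corT_cert (G1 := gB1q0) (G2 := gB3q2) (Ga := gB1q2) (Gb := gB2q2) cB022E_ok B hρ (gatB10 x) (gatB32 x) (fun _ => gatB12 x) (fun _ => gatB22 x) hd hx hx' CG.B022E_131
    · exact corT_cert (G1 := gB1q0) (G2 := gB3q2) (Ga := gB2q2) (Gb := gB3q2) cB022E_ok B hρ (gatB10 x) (gatB32 x) (fun _ => gatB22 x) (fun _ => gatB32 x) hd hx hx' CG.B022E_132
    · exact corT_cert (G1 := gB1q0) (G2 := gB3q2) (Ga := gB3q2) (Gb := gB4q2) cB022E_ok B hρ (gatB10 x) (gatB32 x) (fun _ => gatB32 x) (fun _ => gatB42 x) hd hx hx' CG.B022E_133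
    · exact corT_cert (G1 := gB1q0) (G2 := gB3q2) (Ga := gB4q2) (Gb := gB5q2) cB022E_ok B hρ (gatB10 x) (gatB32 x) (fun _ => gatB42 x) (fun h => absurd h (by decide)) hd hx hx' CG.B022E_134
    · exact absurd h2 (by norm_num)
    · exact absurd h2 (by norm_num)

theorem altB_B022E_14 {κ x : ℝ} (hκ : κ * h0 = ken x) (hx : ((587336777 : ℕ) : ℝ) / S ≤ x) (hx' : x ≤ (((587336777 : ℕ) : ℝ) + (62277027 : ℕ)) / S) :
    AltEB 3 κ (eng.v x) (3 / 40) (tnt (h0 * x) (3 / 10)) PP tK tL tC pcB (scP esg pd) [⟨0, 0, 0, 67108864⟩, ⟨1, 1, 0, 67108864⟩, ⟨2, 1, 0, 67108864⟩] 0 2 2 1 4 (sgb true) (sgb true) x := by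
  have X : XR 67108864 x := XR.of hx hx' (by norm_num) (by norm_num) (by norm_num) (by norm_num)
  have hen : 0 < eng.v x := en_pos X.x0.le
  refine CornW.altB (C := cB022E) (j := (1 : Fin 8)) (k := (4 : Fin 8)) (Ef := esg) (pd := pd) (o := 3 / 40)
    (cornW_of (C := cB022E) (C0 := c0B) (En := eng) (mo := mog) (j := (1 : Fin 8)) (k := (4 : Fin 8)) (lo := 0) (hi := 4) (W := 67108864) (N0 := 3) cB022E_q (sideB hx hx') gokB (pinU hx hx') dokB X (by norm_num) (by norm_num) (l := (0 : Fin 8)) rfl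
      (gatB10 x) (gatB42 x) (gatB02 x) (datB10 x) (datB42 x) (datB02 x) ?_)
    (cornS_of (C := cB022E) (C0 := c0B) (j := (1 : Fin 8)) (k := (4 : Fin 8)) (lo := 0) (hi := 4) (W := 67108864) (N0 := 3) cB022E_q (sideB hx hx') gokB X (by norm_num) (by norm_num) (l := (0 : Fin 8)) rfl
      (gatB10 x) (gatB42 x) (gatB02 x) ?_)
    (thU (pinU hx hx')) rfl hκ (fun j q y => tC_eq j q y x) (esg_rng X.x0.le (by linarith [X.b, X.p0])).1 (mo_v x) le_rfl le_rfl
  · intro ρ a B hρ hd i h1 h2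
    fin_cases i
    · exact corW_cert (G1 := gB1q0) (G2 := gB4q2) (Ga := gB0q2) (Gb := gB1q2) (D1 := dB1q0) (D2 := dB4q2) (Da := dB0q2) (Db := dB1q2) cB022E_ok B hρ hen (gatB10 x) (gatB42 x) (fun _ => gatB02 x) (fun _ => gatB12 x) (datB10 x) (datB42 x) (fun _ => datB02 x) (fun _ => datB12 x) hd hx hx' CW.B022E_140
    · exact corW_cert (G1 := gB1q0) (G2 := gB4q2) (Ga := gB1q2) (Gb := gB2q2) (D1 := dB1q0) (D2 := dB4q2) (Da := dB1q2) (Db := dB2q2) cB022E_ok B hρ hen (gatB10 x) (gatB42 x) (fun _ => gatB12 x) (fun _ => gatB22 x) (datB10 x) (datB42 x) (fun _ => datB12 x) (fun _ => datB22 x) hd hx hx' CW.B022E_141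
    · exact corW_cert (G1 := gB1q0) (G2 := gB4q2) (Ga := gB2q2) (Gb := gB3q2) (D1 := dB1q0) (D2 := dB4q2) (Da := dB2q2) (Db := dB3q2) cB022E_ok B hρ hen (gatB10 x) (gatB42 x) (fun _ => gatB22 x) (fun _ => gatB32 x) (datB10 x) (datB42 x) (fun _ => datB22 x) (fun _ => datB32 x) hd hx hx' CW.B022E_142
    · exact corW_cert (G1 := gB1q0) (G2 := gB4q2) (Ga := gB3q2) (Gb := gB4q2) (D1 := dB1q0) (D2 := dB4q2) (Da := dB3q2) (Db := dB4q2) cB022E_ok B hρ hen (gatB10 x) (gatB42 x) (fun _ => gatB32 x) (fun _ => gatB42 x) (datB10 x) (datB42 x) (fun _ => datB32 x) (fun _ => datB42 x) hd hx hx' CW.B022E_143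
    · exact corW_cert (G1 := gB1q0) (G2 := gB4q2) (Ga := gB4q2) (Gb := gB5q2) (D1 := dB1q0) (D2 := dB4q2) (Da := dB4q2) (Db := dB5q2) cB022E_ok B hρ hen (gatB10 x) (gatB42 x) (fun _ => gatB42 x) (fun h => absurd h (by decide)) (datB10 x) (datB42 x) (fun _ => datB42 x) (fun h => absurd h (by decide)) hd hx hx' CW.B022E_144
    · exact absurd h2 (by norm_num)
    · exact absurd h2 (by norm_num)
  · intro ρ a B hρ hd i h1 h2
    fin_cases i
    · exact corT_cert (G1 := gB1q0) (G2 := gB4q2) (Ga := gB0q2) (Gb := gB1q2) cB022E_ok B hρ (gatB10 x) (gatB42 x) (fun _ => gatB02 x) (fun _ => gatB12 x) hd hx hx' CG.B022E_140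
    · exact corT_cert (G1 := gB1q0) (G2 := gB4q2) (Ga := gB1q2) (Gb := gB2q2) cB022E_ok B hρ (gatB10 x) (gatB42 x) (fun _ => gatB12 x) (fun _ => gatB22 x) hd hx hx' CG.B022E_141
    · exact corT_cert (G1 := gB1q0) (G2 := gB4q2) (Ga := gB2q2) (Gb := gB3q2) cB022E_ok B hρ (gatB10 x) (gatB42 x) (fun _ => gatB22 x) (fun _ => gatB32 x) hd hx hx' CG.B022E_142
    · exact corT_cert (G1 := gB1q0) (G2 := gB4q2) (Ga := gB3q2) (Gb := gB4q2) cB022E_ok B hρ (gatB10 x) (gatB42 x) (fun _ => gatB32 x) (fun _ => gatB42 x) hd hx hx' CG.B022E_143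
    · exact corT_cert (G1 := gB1q0) (G2 := gB4q2) (Ga := gB4q2) (Gb := gB5q2) cB022E_ok B hρ (gatB10 x) (gatB42 x) (fun _ => gatB42 x) (fun h => absurd h (by decide)) hd hx hx' CG.B022E_144
    · exact absurd h2 (by norm_num)
    · exact absurd h2 (by norm_num)

theorem altB_B022E_20 {κ x : ℝ} (hκ : κ * h0 = ken x) (hx : ((587336777 : ℕ) : ℝ) / S ≤ x) (hx' : x ≤ (((587336777 : ℕ) : ℝ) + (62277027 : ℕ)) / S) :
    AltEB 3 κ (eng.v x) (3 / 40) (tnt (h0 * x) (3 / 10)) PP tK tL tC pcB (scP esg pd) [⟨0, 0, 0, 67108864⟩, ⟨1, 1, 0, 67108864⟩, ⟨2, 1, 0, 67108864⟩] 0 2 2 2 0 (sgb true) (sgb true) x := by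
  have X : XR 67108864 x := XR.of hx hx' (by norm_num) (by norm_num) (by norm_num) (by norm_num)
  have hen : 0 < eng.v x := en_pos X.x0.le
  refine CornW.altB (C := cB022E) (j := (2 : Fin 8)) (k := (0 : Fin 8)) (Ef := esg) (pd := pd) (o := 3 / 40)
    (cornW_of (C := cB022E) (C0 := c0B) (En := eng) (mo := mog) (j := (2 : Fin 8)) (k := (0 : Fin 8)) (lo := 0) (hi := 4) (W := 67108864) (N0 := 3) cB022E_q (sideB hx hx') gokB (pinU hx hx') dokB X (by norm_num) (by norm_num) (l := (0 : Fin 8)) rfl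
      (gatB20 x) (gatB02 x) (gatB02 x) (datB20 x) (datB02 x) (datB02 x) ?_)
    (cornS_of (C := cB022E) (C0 := c0B) (j := (2 : Fin 8)) (k := (0 : Fin 8)) (lo := 0) (hi := 4) (W := 67108864) (N0 := 3) cB022E_q (sideB hx hx') gokB X (by norm_num) (by norm_num) (l := (0 : Fin 8)) rfl
      (gatB20 x) (gatB02 x) (gatB02 x) ?_)
    (thU (pinU hx hx')) rfl hκ (fun j q y => tC_eq j q y x) (esg_rng X.x0.le (by linarith [X.b, X.p0])).1 (mo_v x) le_rfl le_rfl
  · intro ρ a B hρ hd i h1 h2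
    fin_cases i
    · exact corW_cert (G1 := gB2q0) (G2 := gB0q2) (Ga := gB0q2) (Gb := gB1q2) (D1 := dB2q0) (D2 := dB0q2) (Da := dB0q2) (Db := dB1q2) cB022E_ok B hρ hen (gatB20 x) (gatB02 x) (fun _ => gatB02 x) (fun _ => gatB12 x) (datB20 x) (datB02 x) (fun _ => datB02 x) (fun _ => datB12 x) hd hx hx' CW.B022E_200
    · exact corW_cert (G1 := gB2q0) (G2 := gB0q2) (Ga := gB1q2) (Gb := gB2q2) (D1 := dB2q0) (D2 := dB0q2) (Da := dB1q2) (Db := dB2q2) cB022E_ok B hρ hen (gatB20 x) (gatB02 x) (fun _ => gatB12 x) (fun _ => gatB22 x) (datB20 x) (datB02 x) (fun _ => datB12 x) (fun _ => datB22 x) hd hx hx' CW.B022E_201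
    · exact corW_cert (G1 := gB2q0) (G2 := gB0q2) (Ga := gB2q2) (Gb := gB3q2) (D1 := dB2q0) (D2 := dB0q2) (Da := dB2q2) (Db := dB3q2) cB022E_ok B hρ hen (gatB20 x) (gatB02 x) (fun _ => gatB22 x) (fun _ => gatB32 x) (datB20 x) (datB02 x) (fun _ => datB22 x) (fun _ => datB32 x) hd hx hx' CW.B022E_202
    · exact corW_cert (G1 := gB2q0) (G2 := gB0q2) (Ga := gB3q2) (Gb := gB4q2) (D1 := dB2q0) (D2 := dB0q2) (Da := dB3q2) (Db := dB4q2) cB022E_ok B hρ hen (gatB20 x) (gatB02 x) (fun _ => gatB32 x) (fun _ => gatB42 x) (datB20 x) (datB02 x) (fun _ => datB32 x) (fun _ => datB42 x) hd hx hx' CW.B022E_203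
    · exact corW_cert (G1 := gB2q0) (G2 := gB0q2) (Ga := gB4q2) (Gb := gB5q2) (D1 := dB2q0) (D2 := dB0q2) (Da := dB4q2) (Db := dB5q2) cB022E_ok B hρ hen (gatB20 x) (gatB02 x) (fun _ => gatB42 x) (fun h => absurd h (by decide)) (datB20 x) (datB02 x) (fun _ => datB42 x) (fun h => absurd h (by decide)) hd hx hx' CW.B022E_204
    · exact absurd h2 (by norm_num)
    · exact absurd h2 (by norm_num)
  · intro ρ a B hρ hd i h1 h2
    fin_cases i
    · exact corT_cert (G1 := gB2q0) (G2 := gB0q2) (Ga := gB0q2) (Gb := gB1q2) cB022E_ok B hρ (gatB20 x) (gatB02 x) (fun _ => gatB02 x) (fun _ => gatB12 x) hd hx hx' CG.B022E_200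
    · exact corT_cert (G1 := gB2q0) (G2 := gB0q2) (Ga := gB1q2) (Gb := gB2q2) cB022E_ok B hρ (gatB20 x) (gatB02 x) (fun _ => gatB12 x) (fun _ => gatB22 x) hd hx hx' CG.B022E_201
    · exact corT_cert (G1 := gB2q0) (G2 := gB0q2) (Ga := gB2q2) (Gb := gB3q2) cB022E_ok B hρ (gatB20 x) (gatB02 x) (fun _ => gatB22 x) (fun _ => gatB32 x) hd hx hx' CG.B022E_202
    · exact corT_cert (G1 := gB2q0) (G2 := gB0q2) (Ga := gB3q2) (Gb := gB4q2) cB022E_ok B hρ (gatB20 x) (gatB02 x) (fun _ => gatB32 x) (fun _ => gatB42 x) hd hx hx' CG.B022E_203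
    · exact corT_cert (G1 := gB2q0) (G2 := gB0q2) (Ga := gB4q2) (Gb := gB5q2) cB022E_ok B hρ (gatB20 x) (gatB02 x) (fun _ => gatB42 x) (fun h => absurd h (by decide)) hd hx hx' CG.B022E_204
    · exact absurd h2 (by norm_num)
    · exact absurd h2 (by norm_num)

theorem altB_B022E_21 {κ x : ℝ} (hκ : κ * h0 = ken x) (hx : ((587336777 : ℕ) : ℝ) / S ≤ x) (hx' : x ≤ (((587336777 : ℕ) : ℝ) + (62277027 : ℕ)) / S) :
    AltEB 3 κ (eng.v x) (3 / 40) (tnt (h0 * x) (3 / 10)) PP tK tL tC pcB (scP esg pd) [⟨0, 0, 0, 67108864⟩, ⟨1, 1, 0, 67108864⟩, ⟨2, 1, 0, 67108864⟩] 0 2 2 2 1 (sgb true) (sgb true) x := by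
  have X : XR 67108864 x := XR.of hx hx' (by norm_num) (by norm_num) (by norm_num) (by norm_num)
  have hen : 0 < eng.v x := en_pos X.x0.le
  refine CornW.altB (C := cB022E) (j := (2 : Fin 8)) (k := (1 : Fin 8)) (Ef := esg) (pd := pd) (o := 3 / 40)
    (cornW_of (C := cB022E) (C0 := c0B) (En := eng) (mo := mog) (j := (2 : Fin 8)) (k := (1 : Fin 8)) (lo := 0) (hi := 4) (W := 67108864) (N0 := 3) cB022E_q (sideB hx hx') gokB (pinU hx hx') dokB X (by norm_num) (by norm_num) (l := (0 : Fin 8)) rfl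
      (gatB20 x) (gatB12 x) (gatB02 x) (datB20 x) (datB12 x) (datB02 x) ?_)
    (cornS_of (C := cB022E) (C0 := c0B) (j := (2 : Fin 8)) (k := (1 : Fin 8)) (lo := 0) (hi := 4) (W := 67108864) (N0 := 3) cB022E_q (sideB hx hx') gokB X (by norm_num) (by norm_num) (l := (0 : Fin 8)) rfl
      (gatB20 x) (gatB12 x) (gatB02 x) ?_)
    (thU (pinU hx hx')) rfl hκ (fun j q y => tC_eq j q y x) (esg_rng X.x0.le (by linarith [X.b, X.p0])).1 (mo_v x) le_rfl le_rfl
  · intro ρ a B hρ hd i h1 h2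
    fin_cases i
    · exact corW_cert (G1 := gB2q0) (G2 := gB1q2) (Ga := gB0q2) (Gb := gB1q2) (D1 := dB2q0) (D2 := dB1q2) (Da := dB0q2) (Db := dB1q2) cB022E_ok B hρ hen (gatB20 x) (gatB12 x) (fun _ => gatB02 x) (fun _ => gatB12 x) (datB20 x) (datB12 x) (fun _ => datB02 x) (fun _ => datB12 x) hd hx hx' CW.B022E_210
    · exact corW_cert (G1 := gB2q0) (G2 := gB1q2) (Ga := gB1q2) (Gb := gB2q2) (D1 := dB2q0) (D2 := dB1q2) (Da := dB1q2) (Db := dB2q2) cB022E_ok B hρ hen (gatB20 x) (gatB12 x) (fun _ => gatB12 x) (fun _ => gatB22 x) (datB20 x) (datB12 x) (fun _ => datB12 x) (fun _ => datB22 x) hd hx hx' CW.B022E_211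
    · exact corW_cert (G1 := gB2q0) (G2 := gB1q2) (Ga := gB2q2) (Gb := gB3q2) (D1 := dB2q0) (D2 := dB1q2) (Da := dB2q2) (Db := dB3q2) cB022E_ok B hρ hen (gatB20 x) (gatB12 x) (fun _ => gatB22 x) (fun _ => gatB32 x) (datB20 x) (datB12 x) (fun _ => datB22 x) (fun _ => datB32 x) hd hx hx' CW.B022E_212
    · exact corW_cert (G1 := gB2q0) (G2 := gB1q2) (Ga := gB3q2) (Gb := gB4q2) (D1 := dB2q0) (D2 := dB1q2) (Da := dB3q2) (Db := dB4q2) cB022E_ok B hρ hen (gatB20 x) (gatB12 x) (fun _ => gatB32 x) (fun _ => gatB42 x) (datB20 x) (datB12 x) (fun _ => datB32 x) (fun _ => datB42 x) hd hx hx' CW.B022E_213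
    · exact corW_cert (G1 := gB2q0) (G2 := gB1q2) (Ga := gB4q2) (Gb := gB5q2) (D1 := dB2q0) (D2 := dB1q2) (Da := dB4q2) (Db := dB5q2) cB022E_ok B hρ hen (gatB20 x) (gatB12 x) (fun _ => gatB42 x) (fun h => absurd h (by decide)) (datB20 x) (datB12 x) (fun _ => datB42 x) (fun h => absurd h (by decide)) hd hx hx' CW.B022E_214
    · exact absurd h2 (by norm_num)
    · exact absurd h2 (by norm_num)
  · intro ρ a B hρ hd i h1 h2
    fin_cases i
    · exact corT_cert (G1 := gB2q0) (G2 := gB1q2) (Ga := gB0q2) (Gb := gB1q2) cB022E_ok B hρ (gatB20 x) (gatB12 x) (fun _ => gatB02 x) (fun _ => gatB12 x) hd hx hx' CG.B022E_210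
    · exact corT_cert (G1 := gB2q0) (G2 := gB1q2) (Ga := gB1q2) (Gb := gB2q2) cB022E_ok B hρ (gatB20 x) (gatB12 x) (fun _ => gatB12 x) (fun _ => gatB22 x) hd hx hx' CG.B022E_211
    · exact corT_cert (G1 := gB2q0) (G2 := gB1q2) (Ga := gB2q2) (Gb := gB3q2) cB022E_ok B hρ (gatB20 x) (gatB12 x) (fun _ => gatB22 x) (fun _ => gatB32 x) hd hx hx' CG.B022E_212
    · exact corT_cert (G1 := gB2q0) (G2 := gB1q2) (Ga := gB3q2) (Gb := gB4q2) cB022E_ok B hρ (gatB20 x) (gatB12 x) (fun _ => gatB32 x) (fun _ => gatB42 x) hd hx hx' CG.B022E_213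
    · exact corT_cert (G1 := gB2q0) (G2 := gB1q2) (Ga := gB4q2) (Gb := gB5q2) cB022E_ok B hρ (gatB20 x) (gatB12 x) (fun _ => gatB42 x) (fun h => absurd h (by decide)) hd hx hx' CG.B022E_214
    · exact absurd h2 (by norm_num)
    · exact absurd h2 (by norm_num)

theorem altB_B022E_22 {κ x : ℝ} (hκ : κ * h0 = ken x) (hx : ((587336777 : ℕ) : ℝ) / S ≤ x) (hx' : x ≤ (((587336777 : ℕ) : ℝ) + (62277027 : ℕ)) / S) :
    AltEB 3 κ (eng.v x) (3 / 40) (tnt (h0 * x) (3 / 10)) PP tK tL tC pcB (scP esg pd) [⟨0, 0, 0, 67108864⟩, ⟨1, 1, 0, 67108864⟩, ⟨2, 1, 0, 67108864⟩] 0 2 2 2 2 (sgb true) (sgb true) x := by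
  have X : XR 67108864 x := XR.of hx hx' (by norm_num) (by norm_num) (by norm_num) (by norm_num)
  have hen : 0 < eng.v x := en_pos X.x0.le
  refine CornW.altB (C := cB022E) (j := (2 : Fin 8)) (k := (2 : Fin 8)) (Ef := esg) (pd := pd) (o := 3 / 40)
    (cornW_of (C := cB022E) (C0 := c0B) (En := eng) (mo := mog) (j := (2 : Fin 8)) (k := (2 : Fin 8)) (lo := 0) (hi := 4) (W := 67108864) (N0 := 3) cB022E_q (sideB hx hx') gokB (pinU hx hx') dokB X (by norm_num) (by norm_num) (l := (0 : Fin 8)) rfl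
      (gatB20 x) (gatB22 x) (gatB02 x) (datB20 x) (datB22 x) (datB02 x) ?_)
    (cornS_of (C := cB022E) (C0 := c0B) (j := (2 : Fin 8)) (k := (2 : Fin 8)) (lo := 0) (hi := 4) (W := 67108864) (N0 := 3) cB022E_q (sideB hx hx') gokB X (by norm_num) (by norm_num) (l := (0 : Fin 8)) rfl
      (gatB20 x) (gatB22 x) (gatB02 x) ?_)
    (thU (pinU hx hx')) rfl hκ (fun j q y => tC_eq j q y x) (esg_rng X.x0.le (by linarith [X.b, X.p0])).1 (mo_v x) le_rfl le_rfl
  · intro ρ a B hρ hd i h1 h2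
    fin_cases i
    · exact corW_cert (G1 := gB2q0) (G2 := gB2q2) (Ga := gB0q2) (Gb := gB1q2) (D1 := dB2q0) (D2 := dB2q2) (Da := dB0q2) (Db := dB1q2) cB022E_ok B hρ hen (gatB20 x) (gatB22 x) (fun _ => gatB02 x) (fun _ => gatB12 x) (datB20 x) (datB22 x) (fun _ => datB02 x) (fun _ => datB12 x) hd hx hx' CW.B022E_220
    · exact corW_cert (G1 := gB2q0) (G2 := gB2q2) (Ga := gB1q2) (Gb := gB2q2) (D1 := dB2q0) (D2 := dB2q2) (Da := dB1q2) (Db := dB2q2) cB022E_ok B hρ hen (gatB20 x) (gatB22 x) (fun _ => gatB12 x) (fun _ => gatB22 x) (datB20 x) (datB22 x) (fun _ => datB12 x) (fun _ => datB22 x) hd hx hx' CW.B022E_221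
    · exact corW_cert (G1 := gB2q0) (G2 := gB2q2) (Ga := gB2q2) (Gb := gB3q2) (D1 := dB2q0) (D2 := dB2q2) (Da := dB2q2) (Db := dB3q2) cB022E_ok B hρ hen (gatB20 x) (gatB22 x) (fun _ => gatB22 x) (fun _ => gatB32 x) (datB20 x) (datB22 x) (fun _ => datB22 x) (fun _ => datB32 x) hd hx hx' CW.B022E_222
    · exact corW_cert (G1 := gB2q0) (G2 := gB2q2) (Ga := gB3q2) (Gb := gB4q2) (D1 := dB2q0) (D2 := dB2q2) (Da := dB3q2) (Db := dB4q2) cB022E_ok B hρ hen (gatB20 x) (gatB22 x) (fun _ => gatB32 x) (fun _ => gatB42 x) (datB20 x) (datB22 x) (fun _ => datB32 x) (fun _ => datB42 x) hd hx hx' CW.B022E_223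
    · exact corW_cert (G1 := gB2q0) (G2 := gB2q2) (Ga := gB4q2) (Gb := gB5q2) (D1 := dB2q0) (D2 := dB2q2) (Da := dB4q2) (Db := dB5q2) cB022E_ok B hρ hen (gatB20 x) (gatB22 x) (fun _ => gatB42 x) (fun h => absurd h (by decide)) (datB20 x) (datB22 x) (fun _ => datB42 x) (fun h => absurd h (by decide)) hd hx hx' CW.B022E_224
    · exact absurd h2 (by norm_num)
    · exact absurd h2 (by norm_num)
  · intro ρ a B hρ hd i h1 h2
    fin_cases i
    · exact corT_cert (G1 := gB2q0) (G2 := gB2q2) (Ga := gB0q2) (Gb := gB1q2) cB022E_ok B hρ (gatB20 x) (gatB22 x) (fun _ => gatB02 x) (fun _ => gatB12 x) hd hx hx' CG.B022E_220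
    · exact corT_cert (G1 := gB2q0) (G2 := gB2q2) (Ga := gB1q2) (Gb := gB2q2) cB022E_ok B hρ (gatB20 x) (gatB22 x) (fun _ => gatB12 x) (fun _ => gatB22 x) hd hx hx' CG.B022E_221
    · exact corT_cert (G1 := gB2q0) (G2 := gB2q2) (Ga := gB2q2) (Gb := gB3q2) cB022E_ok B hρ (gatB20 x) (gatB22 x) (fun _ => gatB22 x) (fun _ => gatB32 x) hd hx hx' CG.B022E_222
    · exact corT_cert (G1 := gB2q0) (G2 := gB2q2) (Ga := gB3q2) (Gb := gB4q2) cB022E_ok B hρ (gatB20 x) (gatB22 x) (fun _ => gatB32 x) (fun _ => gatB42 x) hd hx hx' CG.B022E_223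
    · exact corT_cert (G1 := gB2q0) (G2 := gB2q2) (Ga := gB4q2) (Gb := gB5q2) cB022E_ok B hρ (gatB20 x) (gatB22 x) (fun _ => gatB42 x) (fun h => absurd h (by decide)) hd hx hx' CG.B022E_224
    · exact absurd h2 (by norm_num)
    · exact absurd h2 (by norm_num)

theorem altB_B022E_23 {κ x : ℝ} (hκ : κ * h0 = ken x) (hx : ((587336777 : ℕ) : ℝ) / S ≤ x) (hx' : x ≤ (((587336777 : ℕ) : ℝ) + (62277027 : ℕ)) / S) :
    AltEB 3 κ (eng.v x) (3 / 40) (tnt (h0 * x) (3 / 10)) PP tK tL tC pcB (scP esg pd) [⟨0, 0, 0, 67108864⟩, ⟨1, 1, 0, 67108864⟩, ⟨2, 1, 0, 67108864⟩] 0 2 2 2 3 (sgb true) (sgb true) x := by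
  have X : XR 67108864 x := XR.of hx hx' (by norm_num) (by norm_num) (by norm_num) (by norm_num)
  have hen : 0 < eng.v x := en_pos X.x0.le
  refine CornW.altB (C := cB022E) (j := (2 : Fin 8)) (k := (3 : Fin 8)) (Ef := esg) (pd := pd) (o := 3 / 40)
    (cornW_of (C := cB022E) (C0 := c0B) (En := eng) (mo := mog) (j := (2 : Fin 8)) (k := (3 : Fin 8)) (lo := 0) (hi := 4) (W := 67108864) (N0 := 3) cB022E_q (sideB hx hx') gokB (pinU hx hx') dokB X (by norm_num) (by norm_num) (l := (0 : Fin 8)) rfl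
      (gatB20 x) (gatB32 x) (gatB02 x) (datB20 x) (datB32 x) (datB02 x) ?_)
    (cornS_of (C := cB022E) (C0 := c0B) (j := (2 : Fin 8)) (k := (3 : Fin 8)) (lo := 0) (hi := 4) (W := 67108864) (N0 := 3) cB022E_q (sideB hx hx') gokB X (by norm_num) (by norm_num) (l := (0 : Fin 8)) rfl
      (gatB20 x) (gatB32 x) (gatB02 x) ?_)
    (thU (pinU hx hx')) rfl hκ (fun j q y => tC_eq j q y x) (esg_rng X.x0.le (by linarith [X.b, X.p0])).1 (mo_v x) le_rfl le_rfl
  · intro ρ a B hρ hd i h1 h2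
    fin_cases i
    · exact corW_cert (G1 := gB2q0) (G2 := gB3q2) (Ga := gB0q2) (Gb := gB1q2) (D1 := dB2q0) (D2 := dB3q2) (Da := dB0q2) (Db := dB1q2) cB022E_ok B hρ hen (gatB20 x) (gatB32 x) (fun _ => gatB02 x) (fun _ => gatB12 x) (datB20 x) (datB32 x) (fun _ => datB02 x) (fun _ => datB12 x) hd hx hx' CW.B022E_230
    · exact corW_cert (G1 := gB2q0) (G2 := gB3q2) (Ga := gB1q2) (Gb := gB2q2) (D1 := dB2q0) (D2 := dB3q2) (Da := dB1q2) (Db := dB2q2) cB022E_ok B hρ hen (gatB20 x) (gatB32 x) (fun _ => gatB12 x) (fun _ => gatB22 x) (datB20 x) (datB32 x) (fun _ => datB12 x) (fun _ => datB22 x) hd hx hx' CW.B022E_231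
    · exact corW_cert (G1 := gB2q0) (G2 := gB3q2) (Ga := gB2q2) (Gb := gB3q2) (D1 := dB2q0) (D2 := dB3q2) (Da := dB2q2) (Db := dB3q2) cB022E_ok B hρ hen (gatB20 x) (gatB32 x) (fun _ => gatB22 x) (fun _ => gatB32 x) (datB20 x) (datB32 x) (fun _ => datB22 x) (fun _ => datB32 x) hd hx hx' CW.B022E_232
    · exact corW_cert (G1 := gB2q0) (G2 := gB3q2) (Ga := gB3q2) (Gb := gB4q2) (D1 := dB2q0) (D2 := dB3q2) (Da := dB3q2) (Db := dB4q2) cB022E_ok B hρ hen (gatB20 x) (gatB32 x) (fun _ => gatB32 x) (fun _ => gatB42 x) (datB20 x) (datB32 x) (fun _ => datB32 x) (fun _ => datB42 x) hd hx hx' CW.B022E_233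
    · exact corW_cert (G1 := gB2q0) (G2 := gB3q2) (Ga := gB4q2) (Gb := gB5q2) (D1 := dB2q0) (D2 := dB3q2) (Da := dB4q2) (Db := dB5q2) cB022E_ok B hρ hen (gatB20 x) (gatB32 x) (fun _ => gatB42 x) (fun h => absurd h (by decide)) (datB20 x) (datB32 x) (fun _ => datB42 x) (fun h => absurd h (by decide)) hd hx hx' CW.B022E_234
    · exact absurd h2 (by norm_num)
    · exact absurd h2 (by norm_num)
  · intro ρ a B hρ hd i h1 h2
    fin_cases i
    · exact corT_cert (G1 := gB2q0) (G2 := gB3q2) (Ga := gB0q2) (Gb := gB1q2) cB022E_ok B hρ (gatB20 x) (gatB32 x) (fun _ => gatB02 x) (fun _ => gatB12 x) hd hx hx' CG.B022E_230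
    · exact corT_cert (G1 := gB2q0) (G2 := gB3q2) (Ga := gB1q2) (Gb := gB2q2) cB022E_ok B hρ (gatB20 x) (gatB32 x) (fun _ => gatB12 x) (fun _ => gatB22 x) hd hx hx' CG.B022E_231
    · exact corT_cert (G1 := gB2q0) (G2 := gB3q2) (Ga := gB2q2) (Gb := gB3q2) cB022E_ok B hρ (gatB20 x) (gatB32 x) (fun _ => gatB22 x) (fun _ => gatB32 x) hd hx hx' CG.B022E_232
    · exact corT_cert (G1 := gB2q0) (G2 := gB3q2) (Ga := gB3q2) (Gb := gB4q2) cB022E_ok B hρ (gatB20 x) (gatB32 x) (fun _ => gatB32 x) (fun _ => gatB42 x) hd hx hx' CG.B022E_233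
    · exact corT_cert (G1 := gB2q0) (G2 := gB3q2) (Ga := gB4q2) (Gb := gB5q2) cB022E_ok B hρ (gatB20 x) (gatB32 x) (fun _ => gatB42 x) (fun h => absurd h (by decide)) hd hx hx' CG.B022E_234
    · exact absurd h2 (by norm_num)
    · exact absurd h2 (by norm_num)

theorem altB_B022E_24 {κ x : ℝ} (hκ : κ * h0 = ken x) (hx : ((587336777 : ℕ) : ℝ) / S ≤ x) (hx' : x ≤ (((587336777 : ℕ) : ℝ) + (62277027 : ℕ)) / S) :
    AltEB 3 κ (eng.v x) (3 / 40) (tnt (h0 * x) (3 / 10)) PP tK tL tC pcB (scP esg pd) [⟨0, 0, 0, 67108864⟩, ⟨1, 1, 0, 67108864⟩, ⟨2, 1, 0, 67108864⟩] 0 2 2 2 4 (sgb true) (sgb true) x := by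
  have X : XR 67108864 x := XR.of hx hx' (by norm_num) (by norm_num) (by norm_num) (by norm_num)
  have hen : 0 < eng.v x := en_pos X.x0.le
  refine CornW.altB (C := cB022E) (j := (2 : Fin 8)) (k := (4 : Fin 8)) (Ef := esg) (pd := pd) (o := 3 / 40)
    (cornW_of (C := cB022E) (C0 := c0B) (En := eng) (mo := mog) (j := (2 : Fin 8)) (k := (4 : Fin 8)) (lo := 0) (hi := 4) (W := 67108864) (N0 := 3) cB022E_q (sideB hx hx') gokB (pinU hx hx') dokB X (by norm_num) (by norm_num) (l := (0 : Fin 8)) rfl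
      (gatB20 x) (gatB42 x) (gatB02 x) (datB20 x) (datB42 x) (datB02 x) ?_)
    (cornS_of (C := cB022E) (C0 := c0B) (j := (2 : Fin 8)) (k := (4 : Fin 8)) (lo := 0) (hi := 4) (W := 67108864) (N0 := 3) cB022E_q (sideB hx hx') gokB X (by norm_num) (by norm_num) (l := (0 : Fin 8)) rfl
      (gatB20 x) (gatB42 x) (gatB02 x) ?_)
    (thU (pinU hx hx')) rfl hκ (fun j q y => tC_eq j q y x) (esg_rng X.x0.le (by linarith [X.b, X.p0])).1 (mo_v x) le_rfl le_rfl
  · intro ρ a B hρ hd i h1 h2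
    fin_cases i
    · exact corW_cert (G1 := gB2q0) (G2 := gB4q2) (Ga := gB0q2) (Gb := gB1q2) (D1 := dB2q0) (D2 := dB4q2) (Da := dB0q2) (Db := dB1q2) cB022E_ok B hρ hen (gatB20 x) (gatB42 x) (fun _ => gatB02 x) (fun _ => gatB12 x) (datB20 x) (datB42 x) (fun _ => datB02 x) (fun _ => datB12 x) hd hx hx' CW.B022E_240
    · exact corW_cert (G1 := gB2q0) (G2 := gB4q2) (Ga := gB1q2) (Gb := gB2q2) (D1 := dB2q0) (D2 := dB4q2) (Da := dB1q2) (Db := dB2q2) cB022E_ok B hρ hen (gatB20 x) (gatB42 x) (fun _ => gatB12 x) (fun _ => gatB22 x) (datB20 x) (datB42 x) (fun _ => datB12 x) (fun _ => datB22 x) hd hx hx' CW.B022E_241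
    · exact corW_cert (G1 := gB2q0) (G2 := gB4q2) (Ga := gB2q2) (Gb := gB3q2) (D1 := dB2q0) (D2 := dB4q2) (Da := dB2q2) (Db := dB3q2) cB022E_ok B hρ hen (gatB20 x) (gatB42 x) (fun _ => gatB22 x) (fun _ => gatB32 x) (datB20 x) (datB42 x) (fun _ => datB22 x) (fun _ => datB32 x) hd hx hx' CW.B022E_242
    · exact corW_cert (G1 := gB2q0) (G2 := gB4q2) (Ga := gB3q2) (Gb := gB4q2) (D1 := dB2q0) (D2 := dB4q2) (Da := dB3q2) (Db := dB4q2) cB022E_ok B hρ hen (gatB20 x) (gatB42 x) (fun _ => gatB32 x) (fun _ => gatB42 x) (datB20 x) (datB42 x) (fun _ => datB32 x) (fun _ => datB42 x) hd hx hx' CW.B022E_243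
    · exact corW_cert (G1 := gB2q0) (G2 := gB4q2) (Ga := gB4q2) (Gb := gB5q2) (D1 := dB2q0) (D2 := dB4q2) (Da := dB4q2) (Db := dB5q2) cB022E_ok B hρ hen (gatB20 x) (gatB42 x) (fun _ => gatB42 x) (fun h => absurd h (by decide)) (datB20 x) (datB42 x) (fun _ => datB42 x) (fun h => absurd h (by decide)) hd hx hx' CW.B022E_244
    · exact absurd h2 (by norm_num)
    · exact absurd h2 (by norm_num)
  · intro ρ a B hρ hd i h1 h2
    fin_cases i
    · exact corT_cert (G1 := gB2q0) (G2 := gB4q2) (Ga := gB0q2) (Gb := gB1q2) cB022E_ok B hρ (gatB20 x) (gatB42 x) (fun _ => gatB02 x) (fun _ => gatB12 x) hd hx hx' CG.B022E_240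
    · exact corT_cert (G1 := gB2q0) (G2 := gB4q2) (Ga := gB1q2) (Gb := gB2q2) cB022E_ok B hρ (gatB20 x) (gatB42 x) (fun _ => gatB12 x) (fun _ => gatB22 x) hd hx hx' CG.B022E_241
    · exact corT_cert (G1 := gB2q0) (G2 := gB4q2) (Ga := gB2q2) (Gb := gB3q2) cB022E_ok B hρ (gatB20 x) (gatB42 x) (fun _ => gatB22 x) (fun _ => gatB32 x) hd hx hx' CG.B022E_242
    · exact corT_cert (G1 := gB2q0) (G2 := gB4q2) (Ga := gB3q2) (Gb := gB4q2) cB022E_ok B hρ (gatB20 x) (gatB42 x) (fun _ => gatB32 x) (fun _ => gatB42 x) hd hx hx' CG.B022E_243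
    · exact corT_cert (G1 := gB2q0) (G2 := gB4q2) (Ga := gB4q2) (Gb := gB5q2) cB022E_ok B hρ (gatB20 x) (gatB42 x) (fun _ => gatB42 x) (fun h => absurd h (by decide)) hd hx hx' CG.B022E_244
    · exact absurd h2 (by norm_num)
    · exact absurd h2 (by norm_num)

theorem altB_B022E_30 {κ x : ℝ} (hκ : κ * h0 = ken x) (hx : ((587336777 : ℕ) : ℝ) / S ≤ x) (hx' : x ≤ (((587336777 : ℕ) : ℝ) + (62277027 : ℕ)) / S) :
    AltEB 3 κ (eng.v x) (3 / 40) (tnt (h0 * x) (3 / 10)) PP tK tL tC pcB (scP esg pd) [⟨0, 0, 0, 67108864⟩, ⟨1, 1, 0, 67108864⟩, ⟨2, 1, 0, 67108864⟩] 0 2 2 3 0 (sgb true) (sgb true) x := by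
  have X : XR 67108864 x := XR.of hx hx' (by norm_num) (by norm_num) (by norm_num) (by norm_num)
  have hen : 0 < eng.v x := en_pos X.x0.le
  refine CornW.altB (C := cB022E) (j := (3 : Fin 8)) (k := (0 : Fin 8)) (Ef := esg) (pd := pd) (o := 3 / 40)
    (cornW_of (C := cB022E) (C0 := c0B) (En := eng) (mo := mog) (j := (3 : Fin 8)) (k := (0 : Fin 8)) (lo := 0) (hi := 4) (W := 67108864) (N0 := 3) cB022E_q (sideB hx hx') gokB (pinU hx hx') dokB X (by norm_num) (by norm_num) (l := (0 : Fin 8)) rfl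
      (gatB30 x) (gatB02 x) (gatB02 x) (datB30 x) (datB02 x) (datB02 x) ?_)
    (cornS_of (C := cB022E) (C0 := c0B) (j := (3 : Fin 8)) (k := (0 : Fin 8)) (lo := 0) (hi := 4) (W := 67108864) (N0 := 3) cB022E_q (sideB hx hx') gokB X (by norm_num) (by norm_num) (l := (0 : Fin 8)) rfl
      (gatB30 x) (gatB02 x) (gatB02 x) ?_)
    (thU (pinU hx hx')) rfl hκ (fun j q y => tC_eq j q y x) (esg_rng X.x0.le (by linarith [X.b, X.p0])).1 (mo_v x) le_rfl le_rfl
  · intro ρ a B hρ hd i h1 h2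
    fin_cases i
    · exact corW_cert (G1 := gB3q0) (G2 := gB0q2) (Ga := gB0q2) (Gb := gB1q2) (D1 := dB3q0) (D2 := dB0q2) (Da := dB0q2) (Db := dB1q2) cB022E_ok B hρ hen (gatB30 x) (gatB02 x) (fun _ => gatB02 x) (fun _ => gatB12 x) (datB30 x) (datB02 x) (fun _ => datB02 x) (fun _ => datB12 x) hd hx hx' CW.B022E_300
    · exact corW_cert (G1 := gB3q0) (G2 := gB0q2) (Ga := gB1q2) (Gb := gB2q2) (D1 := dB3q0) (D2 := dB0q2) (Da := dB1q2) (Db := dB2q2) cB022E_ok B hρ hen (gatB30 x) (gatB02 x) (fun _ => gatB12 x) (fun _ => gatB22 x) (datB30 x) (datB02 x) (fun _ => datB12 x) (fun _ => datB22 x) hd hx hx' CW.B022E_301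
    · exact corW_cert (G1 := gB3q0) (G2 := gB0q2) (Ga := gB2q2) (Gb := gB3q2) (D1 := dB3q0) (D2 := dB0q2) (Da := dB2q2) (Db := dB3q2) cB022E_ok B hρ hen (gatB30 x) (gatB02 x) (fun _ => gatB22 x) (fun _ => gatB32 x) (datB30 x) (datB02 x) (fun _ => datB22 x) (fun _ => datB32 x) hd hx hx' CW.B022E_302
    · exact corW_cert (G1 := gB3q0) (G2 := gB0q2) (Ga := gB3q2) (Gb := gB4q2) (D1 := dB3q0) (D2 := dB0q2) (Da := dB3q2) (Db := dB4q2) cB022E_ok B hρ hen (gatB30 x) (gatB02 x) (fun _ => gatB32 x) (fun _ => gatB42 x) (datB30 x) (datB02 x) (fun _ => datB32 x) (fun _ => datB42 x) hd hx hx' CW.B022E_303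
    · exact corW_cert (G1 := gB3q0) (G2 := gB0q2) (Ga := gB4q2) (Gb := gB5q2) (D1 := dB3q0) (D2 := dB0q2) (Da := dB4q2) (Db := dB5q2) cB022E_ok B hρ hen (gatB30 x) (gatB02 x) (fun _ => gatB42 x) (fun h => absurd h (by decide)) (datB30 x) (datB02 x) (fun _ => datB42 x) (fun h => absurd h (by decide)) hd hx hx' CW.B022E_304
    · exact absurd h2 (by norm_num)
    · exact absurd h2 (by norm_num)
  · intro ρ a B hρ hd i h1 h2
    fin_cases i
    · exact corT_cert (G1 := gB3q0) (G2 := gB0q2) (Ga := gB0q2) (Gb := gB1q2) cB022E_ok B hρ (gatB30 x) (gatB02 x) (fun _ => gatB02 x) (fun _ => gatB12 x) hd hx hx' CG.B022E_300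
    · exact corT_cert (G1 := gB3q0) (G2 := gB0q2) (Ga := gB1q2) (Gb := gB2q2) cB022E_ok B hρ (gatB30 x) (gatB02 x) (fun _ => gatB12 x) (fun _ => gatB22 x) hd hx hx' CG.B022E_301
    · exact corT_cert (G1 := gB3q0) (G2 := gB0q2) (Ga := gB2q2) (Gb := gB3q2) cB022E_ok B hρ (gatB30 x) (gatB02 x) (fun _ => gatB22 x) (fun _ => gatB32 x) hd hx hx' CG.B022E_302
    · exact corT_cert (G1 := gB3q0) (G2 := gB0q2) (Ga := gB3q2) (Gb := gB4q2) cB022E_ok B hρ (gatB30 x) (gatB02 x) (fun _ => gatB32 x) (fun _ => gatB42 x) hd hx hx' CG.B022E_303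
    · exact corT_cert (G1 := gB3q0) (G2 := gB0q2) (Ga := gB4q2) (Gb := gB5q2) cB022E_ok B hρ (gatB30 x) (gatB02 x) (fun _ => gatB42 x) (fun h => absurd h (by decide)) hd hx hx' CG.B022E_304
    · exact absurd h2 (by norm_num)
    · exact absurd h2 (by norm_num)

theorem altB_B022E_31 {κ x : ℝ} (hκ : κ * h0 = ken x) (hx : ((587336777 : ℕ) : ℝ) / S ≤ x) (hx' : x ≤ (((587336777 : ℕ) : ℝ) + (62277027 : ℕ)) / S) :
    AltEB 3 κ (eng.v x) (3 / 40) (tnt (h0 * x) (3 / 10)) PP tK tL tC pcB (scP esg pd) [⟨0, 0, 0, 67108864⟩, ⟨1, 1, 0, 67108864⟩, ⟨2, 1, 0, 67108864⟩] 0 2 2 3 1 (sgb true) (sgb true) x := by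
  have X : XR 67108864 x := XR.of hx hx' (by norm_num) (by norm_num) (by norm_num) (by norm_num)
  have hen : 0 < eng.v x := en_pos X.x0.le
  refine CornW.altB (C := cB022E) (j := (3 : Fin 8)) (k := (1 : Fin 8)) (Ef := esg) (pd := pd) (o := 3 / 40)
    (cornW_of (C := cB022E) (C0 := c0B) (En := eng) (mo := mog) (j := (3 : Fin 8)) (k := (1 : Fin 8)) (lo := 0) (hi := 4) (W := 67108864) (N0 := 3) cB022E_q (sideB hx hx') gokB (pinU hx hx') dokB X (by norm_num) (by norm_num) (l := (0 : Fin 8)) rfl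
      (gatB30 x) (gatB12 x) (gatB02 x) (datB30 x) (datB12 x) (datB02 x) ?_)
    (cornS_of (C := cB022E) (C0 := c0B) (j := (3 : Fin 8)) (k := (1 : Fin 8)) (lo := 0) (hi := 4) (W := 67108864) (N0 := 3) cB022E_q (sideB hx hx') gokB X (by norm_num) (by norm_num) (l := (0 : Fin 8)) rfl
      (gatB30 x) (gatB12 x) (gatB02 x) ?_)
    (thU (pinU hx hx')) rfl hκ (fun j q y => tC_eq j q y x) (esg_rng X.x0.le (by linarith [X.b, X.p0])).1 (mo_v x) le_rfl le_rfl
  · intro ρ a B hρ hd i h1 h2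
    fin_cases i
    · exact corW_cert (G1 := gB3q0) (G2 := gB1q2) (Ga := gB0q2) (Gb := gB1q2) (D1 := dB3q0) (D2 := dB1q2) (Da := dB0q2) (Db := dB1q2) cB022E_ok B hρ hen (gatB30 x) (gatB12 x) (fun _ => gatB02 x) (fun _ => gatB12 x) (datB30 x) (datB12 x) (fun _ => datB02 x) (fun _ => datB12 x) hd hx hx' CW.B022E_310
    · exact corW_cert (G1 := gB3q0) (G2 := gB1q2) (Ga := gB1q2) (Gb := gB2q2) (D1 := dB3q0) (D2 := dB1q2) (Da := dB1q2) (Db := dB2q2) cB022E_ok B hρ hen (gatB30 x) (gatB12 x) (fun _ => gatB12 x) (fun _ => gatB22 x) (datB30 x) (datB12 x) (fun _ => datB12 x) (fun _ => datB22 x) hd hx hx' CW.B022E_311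
    · exact corW_cert (G1 := gB3q0) (G2 := gB1q2) (Ga := gB2q2) (Gb := gB3q2) (D1 := dB3q0) (D2 := dB1q2) (Da := dB2q2) (Db := dB3q2) cB022E_ok B hρ hen (gatB30 x) (gatB12 x) (fun _ => gatB22 x) (fun _ => gatB32 x) (datB30 x) (datB12 x) (fun _ => datB22 x) (fun _ => datB32 x) hd hx hx' CW.B022E_312
    · exact corW_cert (G1 := gB3q0) (G2 := gB1q2) (Ga := gB3q2) (Gb := gB4q2) (D1 := dB3q0) (D2 := dB1q2) (Da := dB3q2) (Db := dB4q2) cB022E_ok B hρ hen (gatB30 x) (gatB12 x) (fun _ => gatB32 x) (fun _ => gatB42 x) (datB30 x) (datB12 x) (fun _ => datB32 x) (fun _ => datB42 x) hd hx hx' CW.B022E_313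
    · exact corW_cert (G1 := gB3q0) (G2 := gB1q2) (Ga := gB4q2) (Gb := gB5q2) (D1 := dB3q0) (D2 := dB1q2) (Da := dB4q2) (Db := dB5q2) cB022E_ok B hρ hen (gatB30 x) (gatB12 x) (fun _ => gatB42 x) (fun h => absurd h (by decide)) (datB30 x) (datB12 x) (fun _ => datB42 x) (fun h => absurd h (by decide)) hd hx hx' CW.B022E_314
    · exact absurd h2 (by norm_num)
    · exact absurd h2 (by norm_num)
  · intro ρ a B hρ hd i h1 h2
    fin_cases i
    · exact corT_cert (G1 := gB3q0) (G2 := gB1q2) (Ga := gB0q2) (Gb := gB1q2) cB022E_ok B hρ (gatB30 x) (gatB12 x) (fun _ => gatB02 x) (fun _ => gatB12 x) hd hx hx' CG.B022E_310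
    · exact corT_cert (G1 := gB3q0) (G2 := gB1q2) (Ga := gB1q2) (Gb := gB2q2) cB022E_ok B hρ (gatB30 x) (gatB12 x) (fun _ => gatB12 x) (fun _ => gatB22 x) hd hx hx' CG.B022E_311
    · exact corT_cert (G1 := gB3q0) (G2 := gB1q2) (Ga := gB2q2) (Gb := gB3q2) cB022E_ok B hρ (gatB30 x) (gatB12 x) (fun _ => gatB22 x) (fun _ => gatB32 x) hd hx hx' CG.B022E_312
    · exact corT_cert (G1 := gB3q0) (G2 := gB1q2) (Ga := gB3q2) (Gb := gB4q2) cB022E_ok B hρ (gatB30 x) (gatB12 x) (fun _ => gatB32 x) (fun _ => gatB42 x) hd hx hx' CG.B022E_313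
    · exact corT_cert (G1 := gB3q0) (G2 := gB1q2) (Ga := gB4q2) (Gb := gB5q2) cB022E_ok B hρ (gatB30 x) (gatB12 x) (fun _ => gatB42 x) (fun h => absurd h (by decide)) hd hx hx' CG.B022E_314
    · exact absurd h2 (by norm_num)
    · exact absurd h2 (by norm_num)

theorem altB_B022E_32 {κ x : ℝ} (hκ : κ * h0 = ken x) (hx : ((587336777 : ℕ) : ℝ) / S ≤ x) (hx' : x ≤ (((587336777 : ℕ) : ℝ) + (62277027 : ℕ)) / S) :
    AltEB 3 κ (eng.v x) (3 / 40) (tnt (h0 * x) (3 / 10)) PP tK tL tC pcB (scP esg pd) [⟨0, 0, 0, 67108864⟩, ⟨1, 1, 0, 67108864⟩, ⟨2, 1, 0, 67108864⟩] 0 2 2 3 2 (sgb true) (sgb true) x := by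
  have X : XR 67108864 x := XR.of hx hx' (by norm_num) (by norm_num) (by norm_num) (by norm_num)
  have hen : 0 < eng.v x := en_pos X.x0.le
  refine CornW.altB (C := cB022E) (j := (3 : Fin 8)) (k := (2 : Fin 8)) (Ef := esg) (pd := pd) (o := 3 / 40)
    (cornW_of (C := cB022E) (C0 := c0B) (En := eng) (mo := mog) (j := (3 : Fin 8)) (k := (2 : Fin 8)) (lo := 0) (hi := 4) (W := 67108864) (N0 := 3) cB022E_q (sideB hx hx') gokB (pinU hx hx') dokB X (by norm_num) (by norm_num) (l := (0 : Fin 8)) rfl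
      (gatB30 x) (gatB22 x) (gatB02 x) (datB30 x) (datB22 x) (datB02 x) ?_)
    (cornS_of (C := cB022E) (C0 := c0B) (j := (3 : Fin 8)) (k := (2 : Fin 8)) (lo := 0) (hi := 4) (W := 67108864) (N0 := 3) cB022E_q (sideB hx hx') gokB X (by norm_num) (by norm_num) (l := (0 : Fin 8)) rfl
      (gatB30 x) (gatB22 x) (gatB02 x) ?_)
    (thU (pinU hx hx')) rfl hκ (fun j q y => tC_eq j q y x) (esg_rng X.x0.le (by linarith [X.b, X.p0])).1 (mo_v x) le_rfl le_rfl
  · intro ρ a B hρ hd i h1 h2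
    fin_cases i
    · exact corW_cert (G1 := gB3q0) (G2 := gB2q2) (Ga := gB0q2) (Gb := gB1q2) (D1 := dB3q0) (D2 := dB2q2) (Da := dB0q2) (Db := dB1q2) cB022E_ok B hρ hen (gatB30 x) (gatB22 x) (fun _ => gatB02 x) (fun _ => gatB12 x) (datB30 x) (datB22 x) (fun _ => datB02 x) (fun _ => datB12 x) hd hx hx' CW.B022E_320
    · exact corW_cert (G1 := gB3q0) (G2 := gB2q2) (Ga := gB1q2) (Gb := gB2q2) (D1 := dB3q0) (D2 := dB2q2) (Da := dB1q2) (Db := dB2q2) cB022E_ok B hρ hen (gatB30 x) (gatB22 x) (fun _ => gatB12 x) (fun _ => gatB22 x) (datB30 x) (datB22 x) (fun _ => datB12 x) (fun _ => datB22 x) hd hx hx' CW.B022E_321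
    · exact corW_cert (G1 := gB3q0) (G2 := gB2q2) (Ga := gB2q2) (Gb := gB3q2) (D1 := dB3q0) (D2 := dB2q2) (Da := dB2q2) (Db := dB3q2) cB022E_ok B hρ hen (gatB30 x) (gatB22 x) (fun _ => gatB22 x) (fun _ => gatB32 x) (datB30 x) (datB22 x) (fun _ => datB22 x) (fun _ => datB32 x) hd hx hx' CW.B022E_322
    · exact corW_cert (G1 := gB3q0) (G2 := gB2q2) (Ga := gB3q2) (Gb := gB4q2) (D1 := dB3q0) (D2 := dB2q2) (Da := dB3q2) (Db := dB4q2) cB022E_ok B hρ hen (gatB30 x) (gatB22 x) (fun _ => gatB32 x) (fun _ => gatB42 x) (datB30 x) (datB22 x) (fun _ => datB32 x) (fun _ => datB42 x) hd hx hx' CW.B022E_323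
    · exact corW_cert (G1 := gB3q0) (G2 := gB2q2) (Ga := gB4q2) (Gb := gB5q2) (D1 := dB3q0) (D2 := dB2q2) (Da := dB4q2) (Db := dB5q2) cB022E_ok B hρ hen (gatB30 x) (gatB22 x) (fun _ => gatB42 x) (fun h => absurd h (by decide)) (datB30 x) (datB22 x) (fun _ => datB42 x) (fun h => absurd h (by decide)) hd hx hx' CW.B022E_324
    · exact absurd h2 (by norm_num)
    · exact absurd h2 (by norm_num)
  · intro ρ a B hρ hd i h1 h2
    fin_cases i
    · exact corT_cert (G1 := gB3q0) (G2 := gB2q2) (Ga := gB0q2) (Gb := gB1q2) cB022E_ok B hρ (gatB30 x) (gatB22 x) (fun _ => gatB02 x) (fun _ => gatB12 x) hd hx hx' CG.B022E_320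
    · exact corT_cert (G1 := gB3q0) (G2 := gB2q2) (Ga := gB1q2) (Gb := gB2q2) cB022E_ok B hρ (gatB30 x) (gatB22 x) (fun _ => gatB12 x) (fun _ => gatB22 x) hd hx hx' CG.B022E_321
    · exact corT_cert (G1 := gB3q0) (G2 := gB2q2) (Ga := gB2q2) (Gb := gB3q2) cB022E_ok B hρ (gatB30 x) (gatB22 x) (fun _ => gatB22 x) (fun _ => gatB32 x) hd hx hx' CG.B022E_322
    · exact corT_cert (G1 := gB3q0) (G2 := gB2q2) (Ga := gB3q2) (Gb := gB4q2) cB022E_ok B hρ (gatB30 x) (gatB22 x) (fun _ => gatB32 x) (fun _ => gatB42 x) hd hx hx' CG.B022E_323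
    · exact corT_cert (G1 := gB3q0) (G2 := gB2q2) (Ga := gB4q2) (Gb := gB5q2) cB022E_ok B hρ (gatB30 x) (gatB22 x) (fun _ => gatB42 x) (fun h => absurd h (by decide)) hd hx hx' CG.B022E_324
    · exact absurd h2 (by norm_num)
    · exact absurd h2 (by norm_num)

theorem altB_B022E_33 {κ x : ℝ} (hκ : κ * h0 = ken x) (hx : ((587336777 : ℕ) : ℝ) / S ≤ x) (hx' : x ≤ (((587336777 : ℕ) : ℝ) + (62277027 : ℕ)) / S) :
    AltEB 3 κ (eng.v x) (3 / 40) (tnt (h0 * x) (3 / 10)) PP tK tL tC pcB (scP esg pd) [⟨0, 0, 0, 67108864⟩, ⟨1, 1, 0, 67108864⟩, ⟨2, 1, 0, 67108864⟩] 0 2 2 3 3 (sgb true) (sgb true) x := by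
  have X : XR 67108864 x := XR.of hx hx' (by norm_num) (by norm_num) (by norm_num) (by norm_num)
  have hen : 0 < eng.v x := en_pos X.x0.le
  refine CornW.altB (C := cB022E) (j := (3 : Fin 8)) (k := (3 : Fin 8)) (Ef := esg) (pd := pd) (o := 3 / 40)
    (cornW_of (C := cB022E) (C0 := c0B) (En := eng) (mo := mog) (j := (3 : Fin 8)) (k := (3 : Fin 8)) (lo := 0) (hi := 4) (W := 67108864) (N0 := 3) cB022E_q (sideB hx hx') gokB (pinU hx hx') dokB X (by norm_num) (by norm_num) (l := (0 : Fin 8)) rfl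
      (gatB30 x) (gatB32 x) (gatB02 x) (datB30 x) (datB32 x) (datB02 x) ?_)
    (cornS_of (C := cB022E) (C0 := c0B) (j := (3 : Fin 8)) (k := (3 : Fin 8)) (lo := 0) (hi := 4) (W := 67108864) (N0 := 3) cB022E_q (sideB hx hx') gokB X (by norm_num) (by norm_num) (l := (0 : Fin 8)) rfl
      (gatB30 x) (gatB32 x) (gatB02 x) ?_)
    (thU (pinU hx hx')) rfl hκ (fun j q y => tC_eq j q y x) (esg_rng X.x0.le (by linarith [X.b, X.p0])).1 (mo_v x) le_rfl le_rfl
  · intro ρ a B hρ hd i h1 h2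
    fin_cases i
    · exact corW_cert (G1 := gB3q0) (G2 := gB3q2) (Ga := gB0q2) (Gb := gB1q2) (D1 := dB3q0) (D2 := dB3q2) (Da := dB0q2) (Db := dB1q2) cB022E_ok B hρ hen (gatB30 x) (gatB32 x) (fun _ => gatB02 x) (fun _ => gatB12 x) (datB30 x) (datB32 x) (fun _ => datB02 x) (fun _ => datB12 x) hd hx hx' CW.B022E_330
    · exact corW_cert (G1 := gB3q0) (G2 := gB3q2) (Ga := gB1q2) (Gb := gB2q2) (D1 := dB3q0) (D2 := dB3q2) (Da := dB1q2) (Db := dB2q2) cB022E_ok B hρ hen (gatB30 x) (gatB32 x) (fun _ => gatB12 x) (fun _ => gatB22 x) (datB30 x) (datB32 x) (fun _ => datB12 x) (fun _ => datB22 x) hd hx hx' CW.B022E_331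
    · exact corW_cert (G1 := gB3q0) (G2 := gB3q2) (Ga := gB2q2) (Gb := gB3q2) (D1 := dB3q0) (D2 := dB3q2) (Da := dB2q2) (Db := dB3q2) cB022E_ok B hρ hen (gatB30 x) (gatB32 x) (fun _ => gatB22 x) (fun _ => gatB32 x) (datB30 x) (datB32 x) (fun _ => datB22 x) (fun _ => datB32 x) hd hx hx' CW.B022E_332
    · exact corW_cert (G1 := gB3q0) (G2 := gB3q2) (Ga := gB3q2) (Gb := gB4q2) (D1 := dB3q0) (D2 := dB3q2) (Da := dB3q2) (Db := dB4q2) cB022E_ok B hρ hen (gatB30 x) (gatB32 x) (fun _ => gatB32 x) (fun _ => gatB42 x) (datB30 x) (datB32 x) (fun _ => datB32 x) (fun _ => datB42 x) hd hx hx' CW.B022E_333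
    · exact corW_cert (G1 := gB3q0) (G2 := gB3q2) (Ga := gB4q2) (Gb := gB5q2) (D1 := dB3q0) (D2 := dB3q2) (Da := dB4q2) (Db := dB5q2) cB022E_ok B hρ hen (gatB30 x) (gatB32 x) (fun _ => gatB42 x) (fun h => absurd h (by decide)) (datB30 x) (datB32 x) (fun _ => datB42 x) (fun h => absurd h (by decide)) hd hx hx' CW.B022E_334
    · exact absurd h2 (by norm_num)
    · exact absurd h2 (by norm_num)
  · intro ρ a B hρ hd i h1 h2
    fin_cases i
    · exact corT_cert (G1 := gB3q0) (G2 := gB3q2) (Ga := gB0q2) (Gb := gB1q2) cB022E_ok B hρ (gatB30 x) (gatB32 x) (fun _ => gatB02 x) (fun _ => gatB12 x) hd hx hx' CG.B022E_330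
    · exact corT_cert (G1 := gB3q0) (G2 := gB3q2) (Ga := gB1q2) (Gb := gB2q2) cB022E_ok B hρ (gatB30 x) (gatB32 x) (fun _ => gatB12 x) (fun _ => gatB22 x) hd hx hx' CG.B022E_331
    · exact corT_cert (G1 := gB3q0) (G2 := gB3q2) (Ga := gB2q2) (Gb := gB3q2) cB022E_ok B hρ (gatB30 x) (gatB32 x) (fun _ => gatB22 x) (fun _ => gatB32 x) hd hx hx' CG.B022E_332
    · exact corT_cert (G1 := gB3q0) (G2 := gB3q2) (Ga := gB3q2) (Gb := gB4q2) cB022E_ok B hρ (gatB30 x) (gatB32 x) (fun _ => gatB32 x) (fun _ => gatB42 x) hd hx hx' CG.B022E_333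
    · exact corT_cert (G1 := gB3q0) (G2 := gB3q2) (Ga := gB4q2) (Gb := gB5q2) cB022E_ok B hρ (gatB30 x) (gatB32 x) (fun _ => gatB42 x) (fun h => absurd h (by decide)) hd hx hx' CG.B022E_334
    · exact absurd h2 (by norm_num)
    · exact absurd h2 (by norm_num)

theorem altB_B022E_34 {κ x : ℝ} (hκ : κ * h0 = ken x) (hx : ((587336777 : ℕ) : ℝ) / S ≤ x) (hx' : x ≤ (((587336777 : ℕ) : ℝ) + (62277027 : ℕ)) / S) :
    AltEB 3 κ (eng.v x) (3 / 40) (tnt (h0 * x) (3 / 10)) PP tK tL tC pcB (scP esg pd) [⟨0, 0, 0, 67108864⟩, ⟨1, 1, 0, 67108864⟩, ⟨2, 1, 0, 67108864⟩] 0 2 2 3 4 (sgb true) (sgb true) x := by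
  have X : XR 67108864 x := XR.of hx hx' (by norm_num) (by norm_num) (by norm_num) (by norm_num)
  have hen : 0 < eng.v x := en_pos X.x0.le
  refine CornW.altB (C := cB022E) (j := (3 : Fin 8)) (k := (4 : Fin 8)) (Ef := esg) (pd := pd) (o := 3 / 40)
    (cornW_of (C := cB022E) (C0 := c0B) (En := eng) (mo := mog) (j := (3 : Fin 8)) (k := (4 : Fin 8)) (lo := 0) (hi := 4) (W := 67108864) (N0 := 3) cB022E_q (sideB hx hx') gokB (pinU hx hx') dokB X (by norm_num) (by norm_num) (l := (0 : Fin 8)) rfl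
      (gatB30 x) (gatB42 x) (gatB02 x) (datB30 x) (datB42 x) (datB02 x) ?_)
    (cornS_of (C := cB022E) (C0 := c0B) (j := (3 : Fin 8)) (k := (4 : Fin 8)) (lo := 0) (hi := 4) (W := 67108864) (N0 := 3) cB022E_q (sideB hx hx') gokB X (by norm_num) (by norm_num) (l := (0 : Fin 8)) rfl
      (gatB30 x) (gatB42 x) (gatB02 x) ?_)
    (thU (pinU hx hx')) rfl hκ (fun j q y => tC_eq j q y x) (esg_rng X.x0.le (by linarith [X.b, X.p0])).1 (mo_v x) le_rfl le_rfl
  · intro ρ a B hρ hd i h1 h2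
    fin_cases i
    · exact corW_cert (G1 := gB3q0) (G2 := gB4q2) (Ga := gB0q2) (Gb := gB1q2) (D1 := dB3q0) (D2 := dB4q2) (Da := dB0q2) (Db := dB1q2) cB022E_ok B hρ hen (gatB30 x) (gatB42 x) (fun _ => gatB02 x) (fun _ => gatB12 x) (datB30 x) (datB42 x) (fun _ => datB02 x) (fun _ => datB12 x) hd hx hx' CW.B022E_340
    · exact corW_cert (G1 := gB3q0) (G2 := gB4q2) (Ga := gB1q2) (Gb := gB2q2) (D1 := dB3q0) (D2 := dB4q2) (Da := dB1q2) (Db := dB2q2) cB022E_ok B hρ hen (gatB30 x) (gatB42 x) (fun _ => gatB12 x) (fun _ => gatB22 x) (datB30 x) (datB42 x) (fun _ => datB12 x) (fun _ => datB22 x) hd hx hx' CW.B022E_341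
    · exact corW_cert (G1 := gB3q0) (G2 := gB4q2) (Ga := gB2q2) (Gb := gB3q2) (D1 := dB3q0) (D2 := dB4q2) (Da := dB2q2) (Db := dB3q2) cB022E_ok B hρ hen (gatB30 x) (gatB42 x) (fun _ => gatB22 x) (fun _ => gatB32 x) (datB30 x) (datB42 x) (fun _ => datB22 x) (fun _ => datB32 x) hd hx hx' CW.B022E_342
    · exact corW_cert (G1 := gB3q0) (G2 := gB4q2) (Ga := gB3q2) (Gb := gB4q2) (D1 := dB3q0) (D2 := dB4q2) (Da := dB3q2) (Db := dB4q2) cB022E_ok B hρ hen (gatB30 x) (gatB42 x) (fun _ => gatB32 x) (fun _ => gatB42 x) (datB30 x) (datB42 x) (fun _ => datB32 x) (fun _ => datB42 x) hd hx hx' CW.B022E_343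
    · exact corW_cert (G1 := gB3q0) (G2 := gB4q2) (Ga := gB4q2) (Gb := gB5q2) (D1 := dB3q0) (D2 := dB4q2) (Da := dB4q2) (Db := dB5q2) cB022E_ok B hρ hen (gatB30 x) (gatB42 x) (fun _ => gatB42 x) (fun h => absurd h (by decide)) (datB30 x) (datB42 x) (fun _ => datB42 x) (fun h => absurd h (by decide)) hd hx hx' CW.B022E_344
    · exact absurd h2 (by norm_num)
    · exact absurd h2 (by norm_num)
  · intro ρ a B hρ hd i h1 h2
    fin_cases i
    · exact corT_cert (G1 := gB3q0) (G2 := gB4q2) (Ga := gB0q2) (Gb := gB1q2) cB022E_ok B hρ (gatB30 x) (gatB42 x) (fun _ => gatB02 x) (fun _ => gatB12 x) hd hx hx' CG.B022E_340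
    · exact corT_cert (G1 := gB3q0) (G2 := gB4q2) (Ga := gB1q2) (Gb := gB2q2) cB022E_ok B hρ (gatB30 x) (gatB42 x) (fun _ => gatB12 x) (fun _ => gatB22 x) hd hx hx' CG.B022E_341
    · exact corT_cert (G1 := gB3q0) (G2 := gB4q2) (Ga := gB2q2) (Gb := gB3q2) cB022E_ok B hρ (gatB30 x) (gatB42 x) (fun _ => gatB22 x) (fun _ => gatB32 x) hd hx hx' CG.B022E_342
    · exact corT_cert (G1 := gB3q0) (G2 := gB4q2) (Ga := gB3q2) (Gb := gB4q2) cB022E_ok B hρ (gatB30 x) (gatB42 x) (fun _ => gatB32 x) (fun _ => gatB42 x) hd hx hx' CG.B022E_343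
    · exact corT_cert (G1 := gB3q0) (G2 := gB4q2) (Ga := gB4q2) (Gb := gB5q2) cB022E_ok B hρ (gatB30 x) (gatB42 x) (fun _ => gatB42 x) (fun h => absurd h (by decide)) hd hx hx' CG.B022E_344
    · exact absurd h2 (by norm_num)
    · exact absurd h2 (by norm_num)

theorem altB_B022E_40 {κ x : ℝ} (hκ : κ * h0 = ken x) (hx : ((587336777 : ℕ) : ℝ) / S ≤ x) (hx' : x ≤ (((587336777 : ℕ) : ℝ) + (62277027 : ℕ)) / S) :
    AltEB 3 κ (eng.v x) (3 / 40) (tnt (h0 * x) (3 / 10)) PP tK tL tC pcB (scP esg pd) [⟨0, 0, 0, 67108864⟩, ⟨1, 1, 0, 67108864⟩, ⟨2, 1, 0, 67108864⟩] 0 2 2 4 0 (sgb true) (sgb true) x := by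
  have X : XR 67108864 x := XR.of hx hx' (by norm_num) (by norm_num) (by norm_num) (by norm_num)
  have hen : 0 < eng.v x := en_pos X.x0.le
  refine CornW.altB (C := cB022E) (j := (4 : Fin 8)) (k := (0 : Fin 8)) (Ef := esg) (pd := pd) (o := 3 / 40)
    (cornW_of (C := cB022E) (C0 := c0B) (En := eng) (mo := mog) (j := (4 : Fin 8)) (k := (0 : Fin 8)) (lo := 0) (hi := 4) (W := 67108864) (N0 := 3) cB022E_q (sideB hx hx') gokB (pinU hx hx') dokB X (by norm_num) (by norm_num) (l := (0 : Fin 8)) rfl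
      (gatB40 x) (gatB02 x) (gatB02 x) (datB40 x) (datB02 x) (datB02 x) ?_)
    (cornS_of (C := cB022E) (C0 := c0B) (j := (4 : Fin 8)) (k := (0 : Fin 8)) (lo := 0) (hi := 4) (W := 67108864) (N0 := 3) cB022E_q (sideB hx hx') gokB X (by norm_num) (by norm_num) (l := (0 : Fin 8)) rfl
      (gatB40 x) (gatB02 x) (gatB02 x) ?_)
    (thU (pinU hx hx')) rfl hκ (fun j q y => tC_eq j q y x) (esg_rng X.x0.le (by linarith [X.b, X.p0])).1 (mo_v x) le_rfl le_rfl
  · intro ρ a B hρ hd i h1 h2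
    fin_cases i
    · exact corW_cert (G1 := gB4q0) (G2 := gB0q2) (Ga := gB0q2) (Gb := gB1q2) (D1 := dB4q0) (D2 := dB0q2) (Da := dB0q2) (Db := dB1q2) cB022E_ok B hρ hen (gatB40 x) (gatB02 x) (fun _ => gatB02 x) (fun _ => gatB12 x) (datB40 x) (datB02 x) (fun _ => datB02 x) (fun _ => datB12 x) hd hx hx' CW.B022E_400
    · exact corW_cert (G1 := gB4q0) (G2 := gB0q2) (Ga := gB1q2) (Gb := gB2q2) (D1 := dB4q0) (D2 := dB0q2) (Da := dB1q2) (Db := dB2q2) cB022E_ok B hρ hen (gatB40 x) (gatB02 x) (fun _ => gatB12 x) (fun _ => gatB22 x) (datB40 x) (datB02 x) (fun _ => datB12 x) (fun _ => datB22 x) hd hx hx' CW.B022E_401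
    · exact corW_cert (G1 := gB4q0) (G2 := gB0q2) (Ga := gB2q2) (Gb := gB3q2) (D1 := dB4q0) (D2 := dB0q2) (Da := dB2q2) (Db := dB3q2) cB022E_ok B hρ hen (gatB40 x) (gatB02 x) (fun _ => gatB22 x) (fun _ => gatB32 x) (datB40 x) (datB02 x) (fun _ => datB22 x) (fun _ => datB32 x) hd hx hx' CW.B022E_402
    · exact corW_cert (G1 := gB4q0) (G2 := gB0q2) (Ga := gB3q2) (Gb := gB4q2) (D1 := dB4q0) (D2 := dB0q2) (Da := dB3q2) (Db := dB4q2) cB022E_ok B hρ hen (gatB40 x) (gatB02 x) (fun _ => gatB32 x) (fun _ => gatB42 x) (datB40 x) (datB02 x) (fun _ => datB32 x) (fun _ => datB42 x) hd hx hx' CW.B022E_403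
    · exact corW_cert (G1 := gB4q0) (G2 := gB0q2) (Ga := gB4q2) (Gb := gB5q2) (D1 := dB4q0) (D2 := dB0q2) (Da := dB4q2) (Db := dB5q2) cB022E_ok B hρ hen (gatB40 x) (gatB02 x) (fun _ => gatB42 x) (fun h => absurd h (by decide)) (datB40 x) (datB02 x) (fun _ => datB42 x) (fun h => absurd h (by decide)) hd hx hx' CW.B022E_404
    · exact absurd h2 (by norm_num)
    · exact absurd h2 (by norm_num)
  · intro ρ a B hρ hd i h1 h2
    fin_cases i
    · exact corT_cert (G1 := gB4q0) (G2 := gB0q2) (Ga := gB0q2) (Gb := gB1q2) cB022E_ok B hρ (gatB40 x) (gatB02 x) (fun _ => gatB02 x) (fun _ => gatB12 x) hd hx hx' CG.B022E_400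
    · exact corT_cert (G1 := gB4q0) (G2 := gB0q2) (Ga := gB1q2) (Gb := gB2q2) cB022E_ok B hρ (gatB40 x) (gatB02 x) (fun _ => gatB12 x) (fun _ => gatB22 x) hd hx hx' CG.B022E_401
    · exact corT_cert (G1 := gB4q0) (G2 := gB0q2) (Ga := gB2q2) (Gb := gB3q2) cB022E_ok B hρ (gatB40 x) (gatB02 x) (fun _ => gatB22 x) (fun _ => gatB32 x) hd hx hx' CG.B022E_402
    · exact corT_cert (G1 := gB4q0) (G2 := gB0q2) (Ga := gB3q2) (Gb := gB4q2) cB022E_ok B hρ (gatB40 x) (gatB02 x) (fun _ => gatB32 x) (fun _ => gatB42 x) hd hx hx' CG.B022E_403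
    · exact corT_cert (G1 := gB4q0) (G2 := gB0q2) (Ga := gB4q2) (Gb := gB5q2) cB022E_ok B hρ (gatB40 x) (gatB02 x) (fun _ => gatB42 x) (fun h => absurd h (by decide)) hd hx hx' CG.B022E_404
    · exact absurd h2 (by norm_num)
    · exact absurd h2 (by norm_num)

theorem altB_B022E_41 {κ x : ℝ} (hκ : κ * h0 = ken x) (hx : ((587336777 : ℕ) : ℝ) / S ≤ x) (hx' : x ≤ (((587336777 : ℕ) : ℝ) + (62277027 : ℕ)) / S) :
    AltEB 3 κ (eng.v x) (3 / 40) (tnt (h0 * x) (3 / 10)) PP tK tL tC pcB (scP esg pd) [⟨0, 0, 0, 67108864⟩, ⟨1, 1, 0, 67108864⟩, ⟨2, 1, 0, 67108864⟩] 0 2 2 4 1 (sgb true) (sgb true) x := by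
  have X : XR 67108864 x := XR.of hx hx' (by norm_num) (by norm_num) (by norm_num) (by norm_num)
  have hen : 0 < eng.v x := en_pos X.x0.le
  refine CornW.altB (C := cB022E) (j := (4 : Fin 8)) (k := (1 : Fin 8)) (Ef := esg) (pd := pd) (o := 3 / 40)
    (cornW_of (C := cB022E) (C0 := c0B) (En := eng) (mo := mog) (j := (4 : Fin 8)) (k := (1 : Fin 8)) (lo := 0) (hi := 4) (W := 67108864) (N0 := 3) cB022E_q (sideB hx hx') gokB (pinU hx hx') dokB X (by norm_num) (by norm_num) (l := (0 : Fin 8)) rfl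
      (gatB40 x) (gatB12 x) (gatB02 x) (datB40 x) (datB12 x) (datB02 x) ?_)
    (cornS_of (C := cB022E) (C0 := c0B) (j := (4 : Fin 8)) (k := (1 : Fin 8)) (lo := 0) (hi := 4) (W := 67108864) (N0 := 3) cB022E_q (sideB hx hx') gokB X (by norm_num) (by norm_num) (l := (0 : Fin 8)) rfl
      (gatB40 x) (gatB12 x) (gatB02 x) ?_)
    (thU (pinU hx hx')) rfl hκ (fun j q y => tC_eq j q y x) (esg_rng X.x0.le (by linarith [X.b, X.p0])).1 (mo_v x) le_rfl le_rfl
  · intro ρ a B hρ hd i h1 h2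
    fin_cases i
    · exact corW_cert (G1 := gB4q0) (G2 := gB1q2) (Ga := gB0q2) (Gb := gB1q2) (D1 := dB4q0) (D2 := dB1q2) (Da := dB0q2) (Db := dB1q2) cB022E_ok B hρ hen (gatB40 x) (gatB12 x) (fun _ => gatB02 x) (fun _ => gatB12 x) (datB40 x) (datB12 x) (fun _ => datB02 x) (fun _ => datB12 x) hd hx hx' CW.B022E_410
    · exact corW_cert (G1 := gB4q0) (G2 := gB1q2) (Ga := gB1q2) (Gb := gB2q2) (D1 := dB4q0) (D2 := dB1q2) (Da := dB1q2) (Db := dB2q2) cB022E_ok B hρ hen (gatB40 x) (gatB12 x) (fun _ => gatB12 x) (fun _ => gatB22 x) (datB40 x) (datB12 x) (fun _ => datB12 x) (fun _ => datB22 x) hd hx hx' CW.B022E_411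
    · exact corW_cert (G1 := gB4q0) (G2 := gB1q2) (Ga := gB2q2) (Gb := gB3q2) (D1 := dB4q0) (D2 := dB1q2) (Da := dB2q2) (Db := dB3q2) cB022E_ok B hρ hen (gatB40 x) (gatB12 x) (fun _ => gatB22 x) (fun _ => gatB32 x) (datB40 x) (datB12 x) (fun _ => datB22 x) (fun _ => datB32 x) hd hx hx' CW.B022E_412
    · exact corW_cert (G1 := gB4q0) (G2 := gB1q2) (Ga := gB3q2) (Gb := gB4q2) (D1 := dB4q0) (D2 := dB1q2) (Da := dB3q2) (Db := dB4q2) cB022E_ok B hρ hen (gatB40 x) (gatB12 x) (fun _ => gatB32 x) (fun _ => gatB42 x) (datB40 x) (datB12 x) (fun _ => datB32 x) (fun _ => datB42 x) hd hx hx' CW.B022E_413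
    · exact corW_cert (G1 := gB4q0) (G2 := gB1q2) (Ga := gB4q2) (Gb := gB5q2) (D1 := dB4q0) (D2 := dB1q2) (Da := dB4q2) (Db := dB5q2) cB022E_ok B hρ hen (gatB40 x) (gatB12 x) (fun _ => gatB42 x) (fun h => absurd h (by decide)) (datB40 x) (datB12 x) (fun _ => datB42 x) (fun h => absurd h (by decide)) hd hx hx' CW.B022E_414
    · exact absurd h2 (by norm_num)
    · exact absurd h2 (by norm_num)
  · intro ρ a B hρ hd i h1 h2
    fin_cases i
    · exact corT_cert (G1 := gB4q0) (G2 := gB1q2) (Ga := gB0q2) (Gb := gB1q2) cB022E_ok B hρ (gatB40 x) (gatB12 x) (fun _ => gatB02 x) (fun _ => gatB12 x) hd hx hx' CG.B022E_410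
    · exact corT_cert (G1 := gB4q0) (G2 := gB1q2) (Ga := gB1q2) (Gb := gB2q2) cB022E_ok B hρ (gatB40 x) (gatB12 x) (fun _ => gatB12 x) (fun _ => gatB22 x) hd hx hx' CG.B022E_411
    · exact corT_cert (G1 := gB4q0) (G2 := gB1q2) (Ga := gB2q2) (Gb := gB3q2) cB022E_ok B hρ (gatB40 x) (gatB12 x) (fun _ => gatB22 x) (fun _ => gatB32 x) hd hx hx' CG.B022E_412
    · exact corT_cert (G1 := gB4q0) (G2 := gB1q2) (Ga := gB3q2) (Gb := gB4q2) cB022E_ok B hρ (gatB40 x) (gatB12 x) (fun _ => gatB32 x) (fun _ => gatB42 x) hd hx hx' CG.B022E_413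
    · exact corT_cert (G1 := gB4q0) (G2 := gB1q2) (Ga := gB4q2) (Gb := gB5q2) cB022E_ok B hρ (gatB40 x) (gatB12 x) (fun _ => gatB42 x) (fun h => absurd h (by decide)) hd hx hx' CG.B022E_414
    · exact absurd h2 (by norm_num)
    · exact absurd h2 (by norm_num)

theorem altB_B022E_42 {κ x : ℝ} (hκ : κ * h0 = ken x) (hx : ((587336777 : ℕ) : ℝ) / S ≤ x) (hx' : x ≤ (((587336777 : ℕ) : ℝ) + (62277027 : ℕ)) / S) :
    AltEB 3 κ (eng.v x) (3 / 40) (tnt (h0 * x) (3 / 10)) PP tK tL tC pcB (scP esg pd) [⟨0, 0, 0, 67108864⟩, ⟨1, 1, 0, 67108864⟩, ⟨2, 1, 0, 67108864⟩] 0 2 2 4 2 (sgb true) (sgb true) x := by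
  have X : XR 67108864 x := XR.of hx hx' (by norm_num) (by norm_num) (by norm_num) (by norm_num)
  have hen : 0 < eng.v x := en_pos X.x0.le
  refine CornW.altB (C := cB022E) (j := (4 : Fin 8)) (k := (2 : Fin 8)) (Ef := esg) (pd := pd) (o := 3 / 40)
    (cornW_of (C := cB022E) (C0 := c0B) (En := eng) (mo := mog) (j := (4 : Fin 8)) (k := (2 : Fin 8)) (lo := 0) (hi := 4) (W := 67108864) (N0 := 3) cB022E_q (sideB hx hx') gokB (pinU hx hx') dokB X (by norm_num) (by norm_num) (l := (0 : Fin 8)) rfl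
      (gatB40 x) (gatB22 x) (gatB02 x) (datB40 x) (datB22 x) (datB02 x) ?_)
    (cornS_of (C := cB022E) (C0 := c0B) (j := (4 : Fin 8)) (k := (2 : Fin 8)) (lo := 0) (hi := 4) (W := 67108864) (N0 := 3) cB022E_q (sideB hx hx') gokB X (by norm_num) (by norm_num) (l := (0 : Fin 8)) rfl
      (gatB40 x) (gatB22 x) (gatB02 x) ?_)
    (thU (pinU hx hx')) rfl hκ (fun j q y => tC_eq j q y x) (esg_rng X.x0.le (by linarith [X.b, X.p0])).1 (mo_v x) le_rfl le_rfl
  · intro ρ a B hρ hd i h1 h2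
    fin_cases i
    · exact corW_cert (G1 := gB4q0) (G2 := gB2q2) (Ga := gB0q2) (Gb := gB1q2) (D1 := dB4q0) (D2 := dB2q2) (Da := dB0q2) (Db := dB1q2) cB022E_ok B hρ hen (gatB40 x) (gatB22 x) (fun _ => gatB02 x) (fun _ => gatB12 x) (datB40 x) (datB22 x) (fun _ => datB02 x) (fun _ => datB12 x) hd hx hx' CW.B022E_420
    · exact corW_cert (G1 := gB4q0) (G2 := gB2q2) (Ga := gB1q2) (Gb := gB2q2) (D1 := dB4q0) (D2 := dB2q2) (Da := dB1q2) (Db := dB2q2) cB022E_ok B hρ hen (gatB40 x) (gatB22 x) (fun _ => gatB12 x) (fun _ => gatB22 x) (datB40 x) (datB22 x) (fun _ => datB12 x) (fun _ => datB22 x) hd hx hx' CW.B022E_421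
    · exact corW_cert (G1 := gB4q0) (G2 := gB2q2) (Ga := gB2q2) (Gb := gB3q2) (D1 := dB4q0) (D2 := dB2q2) (Da := dB2q2) (Db := dB3q2) cB022E_ok B hρ hen (gatB40 x) (gatB22 x) (fun _ => gatB22 x) (fun _ => gatB32 x) (datB40 x) (datB22 x) (fun _ => datB22 x) (fun _ => datB32 x) hd hx hx' CW.B022E_422
    · exact corW_cert (G1 := gB4q0) (G2 := gB2q2) (Ga := gB3q2) (Gb := gB4q2) (D1 := dB4q0) (D2 := dB2q2) (Da := dB3q2) (Db := dB4q2) cB022E_ok B hρ hen (gatB40 x) (gatB22 x) (fun _ => gatB32 x) (fun _ => gatB42 x) (datB40 x) (datB22 x) (fun _ => datB32 x) (fun _ => datB42 x) hd hx hx' CW.B022E_423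
    · exact corW_cert (G1 := gB4q0) (G2 := gB2q2) (Ga := gB4q2) (Gb := gB5q2) (D1 := dB4q0) (D2 := dB2q2) (Da := dB4q2) (Db := dB5q2) cB022E_ok B hρ hen (gatB40 x) (gatB22 x) (fun _ => gatB42 x) (fun h => absurd h (by decide)) (datB40 x) (datB22 x) (fun _ => datB42 x) (fun h => absurd h (by decide)) hd hx hx' CW.B022E_424
    · exact absurd h2 (by norm_num)
    · exact absurd h2 (by norm_num)
  · intro ρ a B hρ hd i h1 h2
    fin_cases i
    · exact corT_cert (G1 := gB4q0) (G2 := gB2q2) (Ga := gB0q2) (Gb := gB1q2) cB022E_ok B hρ (gatB40 x) (gatB22 x) (fun _ => gatB02 x) (fun _ => gatB12 x) hd hx hx' CG.B022E_420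
    · exact corT_cert (G1 := gB4q0) (G2 := gB2q2) (Ga := gB1q2) (Gb := gB2q2) cB022E_ok B hρ (gatB40 x) (gatB22 x) (fun _ => gatB12 x) (fun _ => gatB22 x) hd hx hx' CG.B022E_421
    · exact corT_cert (G1 := gB4q0) (G2 := gB2q2) (Ga := gB2q2) (Gb := gB3q2) cB022E_ok B hρ (gatB40 x) (gatB22 x) (fun _ => gatB22 x) (fun _ => gatB32 x) hd hx hx' CG.B022E_422
    · exact corT_cert (G1 := gB4q0) (G2 := gB2q2) (Ga := gB3q2) (Gb := gB4q2) cB022E_ok B hρ (gatB40 x) (gatB22 x) (fun _ => gatB32 x) (fun _ => gatB42 x) hd hx hx' CG.B022E_423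
    · exact corT_cert (G1 := gB4q0) (G2 := gB2q2) (Ga := gB4q2) (Gb := gB5q2) cB022E_ok B hρ (gatB40 x) (gatB22 x) (fun _ => gatB42 x) (fun h => absurd h (by decide)) hd hx hx' CG.B022E_424
    · exact absurd h2 (by norm_num)
    · exact absurd h2 (by norm_num)

theorem altB_B022E_43 {κ x : ℝ} (hκ : κ * h0 = ken x) (hx : ((587336777 : ℕ) : ℝ) / S ≤ x) (hx' : x ≤ (((587336777 : ℕ) : ℝ) + (62277027 : ℕ)) / S) :
    AltEB 3 κ (eng.v x) (3 / 40) (tnt (h0 * x) (3 / 10)) PP tK tL tC pcB (scP esg pd) [⟨0, 0, 0, 67108864⟩, ⟨1, 1, 0, 67108864⟩, ⟨2, 1, 0, 67108864⟩] 0 2 2 4 3 (sgb true) (sgb true) x := by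
  have X : XR 67108864 x := XR.of hx hx' (by norm_num) (by norm_num) (by norm_num) (by norm_num)
  have hen : 0 < eng.v x := en_pos X.x0.le
  refine CornW.altB (C := cB022E) (j := (4 : Fin 8)) (k := (3 : Fin 8)) (Ef := esg) (pd := pd) (o := 3 / 40)
    (cornW_of (C := cB022E) (C0 := c0B) (En := eng) (mo := mog) (j := (4 : Fin 8)) (k := (3 : Fin 8)) (lo := 0) (hi := 4) (W := 67108864) (N0 := 3) cB022E_q (sideB hx hx') gokB (pinU hx hx') dokB X (by norm_num) (by norm_num) (l := (0 : Fin 8)) rfl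
      (gatB40 x) (gatB32 x) (gatB02 x) (datB40 x) (datB32 x) (datB02 x) ?_)
    (cornS_of (C := cB022E) (C0 := c0B) (j := (4 : Fin 8)) (k := (3 : Fin 8)) (lo := 0) (hi := 4) (W := 67108864) (N0 := 3) cB022E_q (sideB hx hx') gokB X (by norm_num) (by norm_num) (l := (0 : Fin 8)) rfl
      (gatB40 x) (gatB32 x) (gatB02 x) ?_)
    (thU (pinU hx hx')) rfl hκ (fun j q y => tC_eq j q y x) (esg_rng X.x0.le (by linarith [X.b, X.p0])).1 (mo_v x) le_rfl le_rfl
  · intro ρ a B hρ hd i h1 h2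
    fin_cases i
    · exact corW_cert (G1 := gB4q0) (G2 := gB3q2) (Ga := gB0q2) (Gb := gB1q2) (D1 := dB4q0) (D2 := dB3q2) (Da := dB0q2) (Db := dB1q2) cB022E_ok B hρ hen (gatB40 x) (gatB32 x) (fun _ => gatB02 x) (fun _ => gatB12 x) (datB40 x) (datB32 x) (fun _ => datB02 x) (fun _ => datB12 x) hd hx hx' CW.B022E_430
    · exact corW_cert (G1 := gB4q0) (G2 := gB3q2) (Ga := gB1q2) (Gb := gB2q2) (D1 := dB4q0) (D2 := dB3q2) (Da := dB1q2) (Db := dB2q2) cB022E_ok B hρ hen (gatB40 x) (gatB32 x) (fun _ => gatB12 x) (fun _ => gatB22 x) (datB40 x) (datB32 x) (fun _ => datB12 x) (fun _ => datB22 x) hd hx hx' CW.B022E_431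
    · exact corW_cert (G1 := gB4q0) (G2 := gB3q2) (Ga := gB2q2) (Gb := gB3q2) (D1 := dB4q0) (D2 := dB3q2) (Da := dB2q2) (Db := dB3q2) cB022E_ok B hρ hen (gatB40 x) (gatB32 x) (fun _ => gatB22 x) (fun _ => gatB32 x) (datB40 x) (datB32 x) (fun _ => datB22 x) (fun _ => datB32 x) hd hx hx' CW.B022E_432
    · exact corW_cert (G1 := gB4q0) (G2 := gB3q2) (Ga := gB3q2) (Gb := gB4q2) (D1 := dB4q0) (D2 := dB3q2) (Da := dB3q2) (Db := dB4q2) cB022E_ok B hρ hen (gatB40 x) (gatB32 x) (fun _ => gatB32 x) (fun _ => gatB42 x) (datB40 x) (datB32 x) (fun _ => datB32 x) (fun _ => datB42 x) hd hx hx' CW.B022E_433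
    · exact corW_cert (G1 := gB4q0) (G2 := gB3q2) (Ga := gB4q2) (Gb := gB5q2) (D1 := dB4q0) (D2 := dB3q2) (Da := dB4q2) (Db := dB5q2) cB022E_ok B hρ hen (gatB40 x) (gatB32 x) (fun _ => gatB42 x) (fun h => absurd h (by decide)) (datB40 x) (datB32 x) (fun _ => datB42 x) (fun h => absurd h (by decide)) hd hx hx' CW.B022E_434
    · exact absurd h2 (by norm_num)
    · exact absurd h2 (by norm_num)
  · intro ρ a B hρ hd i h1 h2
    fin_cases i
    · exact corT_cert (G1 := gB4q0) (G2 := gB3q2) (Ga := gB0q2) (Gb := gB1q2) cB022E_ok B hρ (gatB40 x) (gatB32 x) (fun _ => gatB02 x) (fun _ => gatB12 x) hd hx hx' CG.B022E_430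
    · exact corT_cert (G1 := gB4q0) (G2 := gB3q2) (Ga := gB1q2) (Gb := gB2q2) cB022E_ok B hρ (gatB40 x) (gatB32 x) (fun _ => gatB12 x) (fun _ => gatB22 x) hd hx hx' CG.B022E_431
    · exact corT_cert (G1 := gB4q0) (G2 := gB3q2) (Ga := gB2q2) (Gb := gB3q2) cB022E_ok B hρ (gatB40 x) (gatB32 x) (fun _ => gatB22 x) (fun _ => gatB32 x) hd hx hx' CG.B022E_432
    · exact corT_cert (G1 := gB4q0) (G2 := gB3q2) (Ga := gB3q2) (Gb := gB4q2) cB022E_ok B hρ (gatB40 x) (gatB32 x) (fun _ => gatB32 x) (fun _ => gatB42 x) hd hx hx' CG.B022E_433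
    · exact corT_cert (G1 := gB4q0) (G2 := gB3q2) (Ga := gB4q2) (Gb := gB5q2) cB022E_ok B hρ (gatB40 x) (gatB32 x) (fun _ => gatB42 x) (fun h => absurd h (by decide)) hd hx hx' CG.B022E_434
    · exact absurd h2 (by norm_num)
    · exact absurd h2 (by norm_num)

theorem altB_B022E_44 {κ x : ℝ} (hκ : κ * h0 = ken x) (hx : ((587336777 : ℕ) : ℝ) / S ≤ x) (hx' : x ≤ (((587336777 : ℕ) : ℝ) + (62277027 : ℕ)) / S) :
    AltEB 3 κ (eng.v x) (3 / 40) (tnt (h0 * x) (3 / 10)) PP tK tL tC pcB (scP esg pd) [⟨0, 0, 0, 67108864⟩, ⟨1, 1, 0, 67108864⟩, ⟨2, 1, 0, 67108864⟩] 0 2 2 4 4 (sgb true) (sgb true) x := by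
  have X : XR 67108864 x := XR.of hx hx' (by norm_num) (by norm_num) (by norm_num) (by norm_num)
  have hen : 0 < eng.v x := en_pos X.x0.le
  refine CornW.altB (C := cB022E) (j := (4 : Fin 8)) (k := (4 : Fin 8)) (Ef := esg) (pd := pd) (o := 3 / 40)
    (cornW_of (C := cB022E) (C0 := c0B) (En := eng) (mo := mog) (j := (4 : Fin 8)) (k := (4 : Fin 8)) (lo := 0) (hi := 4) (W := 67108864) (N0 := 3) cB022E_q (sideB hx hx') gokB (pinU hx hx') dokB X (by norm_num) (by norm_num) (l := (0 : Fin 8)) rfl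
      (gatB40 x) (gatB42 x) (gatB02 x) (datB40 x) (datB42 x) (datB02 x) ?_)
    (cornS_of (C := cB022E) (C0 := c0B) (j := (4 : Fin 8)) (k := (4 : Fin 8)) (lo := 0) (hi := 4) (W := 67108864) (N0 := 3) cB022E_q (sideB hx hx') gokB X (by norm_num) (by norm_num) (l := (0 : Fin 8)) rfl
      (gatB40 x) (gatB42 x) (gatB02 x) ?_)
    (thU (pinU hx hx')) rfl hκ (fun j q y => tC_eq j q y x) (esg_rng X.x0.le (by linarith [X.b, X.p0])).1 (mo_v x) le_rfl le_rfl
  · intro ρ a B hρ hd i h1 h2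
    fin_cases i
    · exact corW_cert (G1 := gB4q0) (G2 := gB4q2) (Ga := gB0q2) (Gb := gB1q2) (D1 := dB4q0) (D2 := dB4q2) (Da := dB0q2) (Db := dB1q2) cB022E_ok B hρ hen (gatB40 x) (gatB42 x) (fun _ => gatB02 x) (fun _ => gatB12 x) (datB40 x) (datB42 x) (fun _ => datB02 x) (fun _ => datB12 x) hd hx hx' CW.B022E_440
    · exact corW_cert (G1 := gB4q0) (G2 := gB4q2) (Ga := gB1q2) (Gb := gB2q2) (D1 := dB4q0) (D2 := dB4q2) (Da := dB1q2) (Db := dB2q2) cB022E_ok B hρ hen (gatB40 x) (gatB42 x) (fun _ => gatB12 x) (fun _ => gatB22 x) (datB40 x) (datB42 x) (fun _ => datB12 x) (fun _ => datB22 x) hd hx hx' CW.B022E_441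
    · exact corW_cert (G1 := gB4q0) (G2 := gB4q2) (Ga := gB2q2) (Gb := gB3q2) (D1 := dB4q0) (D2 := dB4q2) (Da := dB2q2) (Db := dB3q2) cB022E_ok B hρ hen (gatB40 x) (gatB42 x) (fun _ => gatB22 x) (fun _ => gatB32 x) (datB40 x) (datB42 x) (fun _ => datB22 x) (fun _ => datB32 x) hd hx hx' CW.B022E_442
    · exact corW_cert (G1 := gB4q0) (G2 := gB4q2) (Ga := gB3q2) (Gb := gB4q2) (D1 := dB4q0) (D2 := dB4q2) (Da := dB3q2) (Db := dB4q2) cB022E_ok B hρ hen (gatB40 x) (gatB42 x) (fun _ => gatB32 x) (fun _ => gatB42 x) (datB40 x) (datB42 x) (fun _ => datB32 x) (fun _ => datB42 x) hd hx hx' CW.B022E_443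
    · exact corW_cert (G1 := gB4q0) (G2 := gB4q2) (Ga := gB4q2) (Gb := gB5q2) (D1 := dB4q0) (D2 := dB4q2) (Da := dB4q2) (Db := dB5q2) cB022E_ok B hρ hen (gatB40 x) (gatB42 x) (fun _ => gatB42 x) (fun h => absurd h (by decide)) (datB40 x) (datB42 x) (fun _ => datB42 x) (fun h => absurd h (by decide)) hd hx hx' CW.B022E_444
    · exact absurd h2 (by norm_num)
    · exact absurd h2 (by norm_num)
  · intro ρ a B hρ hd i h1 h2
    fin_cases i
    · exact corT_cert (G1 := gB4q0) (G2 := gB4q2) (Ga := gB0q2) (Gb := gB1q2) cB022E_ok B hρ (gatB40 x) (gatB42 x) (fun _ => gatB02 x) (fun _ => gatB12 x) hd hx hx' CG.B022E_440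
    · exact corT_cert (G1 := gB4q0) (G2 := gB4q2) (Ga := gB1q2) (Gb := gB2q2) cB022E_ok B hρ (gatB40 x) (gatB42 x) (fun _ => gatB12 x) (fun _ => gatB22 x) hd hx hx' CG.B022E_441
    · exact corT_cert (G1 := gB4q0) (G2 := gB4q2) (Ga := gB2q2) (Gb := gB3q2) cB022E_ok B hρ (gatB40 x) (gatB42 x) (fun _ => gatB22 x) (fun _ => gatB32 x) hd hx hx' CG.B022E_442
    · exact corT_cert (G1 := gB4q0) (G2 := gB4q2) (Ga := gB3q2) (Gb := gB4q2) cB022E_ok B hρ (gatB40 x) (gatB42 x) (fun _ => gatB32 x) (fun _ => gatB42 x) hd hx hx' CG.B022E_443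
    · exact corT_cert (G1 := gB4q0) (G2 := gB4q2) (Ga := gB4q2) (Gb := gB5q2) cB022E_ok B hρ (gatB40 x) (gatB42 x) (fun _ => gatB42 x) (fun h => absurd h (by decide)) hd hx hx' CG.B022E_444
    · exact absurd h2 (by norm_num)
    · exact absurd h2 (by norm_num)

theorem altB_B022L_07 {κ x : ℝ} (hκ : κ * h0 = ken x) (hx : ((587336777 : ℕ) : ℝ) / S ≤ x) (hx' : x ≤ (((587336777 : ℕ) : ℝ) + (62277027 : ℕ)) / S) :
    AltEB 3 κ (eng.v x) (3 / 40) (tnt (h0 * x) (3 / 10)) PP tK tL tC pcB (scP esg pd) [⟨0, 0, 0, 67108864⟩, ⟨1, 1, 0, 67108864⟩, ⟨2, 1, 0, 67108864⟩] 0 2 2 0 7 (sgb true) (sgb true) x := by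
  have X : XR 67108864 x := XR.of hx hx' (by norm_num) (by norm_num) (by norm_num) (by norm_num)
  have hen : 0 < eng.v x := en_pos X.x0.le
  refine CornW.altB (C := cB022L) (j := (0 : Fin 8)) (k := (7 : Fin 8)) (Ef := esg) (pd := pd) (o := 3 / 40)
    (cornW_of (C := cB022L) (C0 := c0B) (En := eng) (mo := mog) (j := (0 : Fin 8)) (k := (7 : Fin 8)) (lo := 0) (hi := 4) (W := 67108864) (N0 := 3) cB022L_q (sideB hx hx') gokB (pinU hx hx') dokB X (by norm_num) (by norm_num) (l := (0 : Fin 8)) rfl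
      (gatB00 x) (gatB72 x) (gatB02 x) (datB00 x) (datB72 x) (datB02 x) ?_)
    (cornS_of (C := cB022L) (C0 := c0B) (j := (0 : Fin 8)) (k := (7 : Fin 8)) (lo := 0) (hi := 4) (W := 67108864) (N0 := 3) cB022L_q (sideB hx hx') gokB X (by norm_num) (by norm_num) (l := (0 : Fin 8)) rfl
      (gatB00 x) (gatB72 x) (gatB02 x) ?_)
    (thU (pinU hx hx')) rfl hκ (fun j q y => tC_eq j q y x) (esg_rng X.x0.le (by linarith [X.b, X.p0])).1 (mo_v x) le_rfl le_rfl
  · intro ρ a B hρ hd i h1 h2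
    fin_cases i
    · exact corW_cert (G1 := gB0q0) (G2 := gB7q2) (Ga := gB0q2) (Gb := gB1q2) (D1 := dB0q0) (D2 := dB7q2) (Da := dB0q2) (Db := dB1q2) cB022L_ok B hρ hen (gatB00 x) (gatB72 x) (fun _ => gatB02 x) (fun _ => gatB12 x) (datB00 x) (datB72 x) (fun _ => datB02 x) (fun _ => datB12 x) hd hx hx' CW.B022L_070
    · exact corW_cert (G1 := gB0q0) (G2 := gB7q2) (Ga := gB1q2) (Gb := gB2q2) (D1 := dB0q0) (D2 := dB7q2) (Da := dB1q2) (Db := dB2q2) cB022L_ok B hρ hen (gatB00 x) (gatB72 x) (fun _ => gatB12 x) (fun _ => gatB22 x) (datB00 x) (datB72 x) (fun _ => datB12 x) (fun _ => datB22 x) hd hx hx' CW.B022L_071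
    · exact corW_cert (G1 := gB0q0) (G2 := gB7q2) (Ga := gB2q2) (Gb := gB3q2) (D1 := dB0q0) (D2 := dB7q2) (Da := dB2q2) (Db := dB3q2) cB022L_ok B hρ hen (gatB00 x) (gatB72 x) (fun _ => gatB22 x) (fun _ => gatB32 x) (datB00 x) (datB72 x) (fun _ => datB22 x) (fun _ => datB32 x) hd hx hx' CW.B022L_072
    · exact corW_cert (G1 := gB0q0) (G2 := gB7q2) (Ga := gB3q2) (Gb := gB4q2) (D1 := dB0q0) (D2 := dB7q2) (Da := dB3q2) (Db := dB4q2) cB022L_ok B hρ hen (gatB00 x) (gatB72 x) (fun _ => gatB32 x) (fun _ => gatB42 x) (datB00 x) (datB72 x) (fun _ => datB32 x) (fun _ => datB42 x) hd hx hx' CW.B022L_073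
    · exact corW_cert (G1 := gB0q0) (G2 := gB7q2) (Ga := gB4q2) (Gb := gB5q2) (D1 := dB0q0) (D2 := dB7q2) (Da := dB4q2) (Db := dB5q2) cB022L_ok B hρ hen (gatB00 x) (gatB72 x) (fun _ => gatB42 x) (fun h => absurd h (by decide)) (datB00 x) (datB72 x) (fun _ => datB42 x) (fun h => absurd h (by decide)) hd hx hx' CW.B022L_074
    · exact absurd h2 (by norm_num)
    · exact absurd h2 (by norm_num)
  · intro ρ a B hρ hd i h1 h2
    fin_cases i
    · exact corX_cert (G1 := gB0q0) (G2 := gB7q2) (Ga := gB0q2) (Gb := gB1q2) (GT := gB0q2) cB022L_ok tB022L_ok B hρ (gatB00 x) (gatB72 x) (fun _ => gatB02 x) (fun _ => gatB12 x) rfl (tgh_B022L (kodd x) (gpu0 x) (gpt2 x) (gpu2 x) (gatB00 x) (gatB72 x) (gatB02 x) B (le_sixteenth hd (by norm_num))) hd hx hx' CG.B022L_070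
    · exact corT_cert (G1 := gB0q0) (G2 := gB7q2) (Ga := gB1q2) (Gb := gB2q2) cB022L_ok B hρ (gatB00 x) (gatB72 x) (fun _ => gatB12 x) (fun _ => gatB22 x) hd hx hx' CG.B022L_071
    · exact corT_cert (G1 := gB0q0) (G2 := gB7q2) (Ga := gB2q2) (Gb := gB3q2) cB022L_ok B hρ (gatB00 x) (gatB72 x) (fun _ => gatB22 x) (fun _ => gatB32 x) hd hx hx' CG.B022L_072
    · exact corT_cert (G1 := gB0q0) (G2 := gB7q2) (Ga := gB3q2) (Gb := gB4q2) cB022L_ok B hρ (gatB00 x) (gatB72 x) (fun _ => gatB32 x) (fun _ => gatB42 x) hd hx hx' CG.B022L_073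
    · exact corT_cert (G1 := gB0q0) (G2 := gB7q2) (Ga := gB4q2) (Gb := gB5q2) cB022L_ok B hρ (gatB00 x) (gatB72 x) (fun _ => gatB42 x) (fun h => absurd h (by decide)) hd hx hx' CG.B022L_074
    · exact absurd h2 (by norm_num)
    · exact absurd h2 (by norm_num)

theorem altB_B022L_17 {κ x : ℝ} (hκ : κ * h0 = ken x) (hx : ((587336777 : ℕ) : ℝ) / S ≤ x) (hx' : x ≤ (((587336777 : ℕ) : ℝ) + (62277027 : ℕ)) / S) :
    AltEB 3 κ (eng.v x) (3 / 40) (tnt (h0 * x) (3 / 10)) PP tK tL tC pcB (scP esg pd) [⟨0, 0, 0, 67108864⟩, ⟨1, 1, 0, 67108864⟩, ⟨2, 1, 0, 67108864⟩] 0 2 2 1 7 (sgb true) (sgb true) x := by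
  have X : XR 67108864 x := XR.of hx hx' (by norm_num) (by norm_num) (by norm_num) (by norm_num)
  have hen : 0 < eng.v x := en_pos X.x0.le
  refine CornW.altB (C := cB022L) (j := (1 : Fin 8)) (k := (7 : Fin 8)) (Ef := esg) (pd := pd) (o := 3 / 40)
    (cornW_of (C := cB022L) (C0 := c0B) (En := eng) (mo := mog) (j := (1 : Fin 8)) (k := (7 : Fin 8)) (lo := 0) (hi := 4) (W := 67108864) (N0 := 3) cB022L_q (sideB hx hx') gokB (pinU hx hx') dokB X (by norm_num) (by norm_num) (l := (0 : Fin 8)) rfl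
      (gatB10 x) (gatB72 x) (gatB02 x) (datB10 x) (datB72 x) (datB02 x) ?_)
    (cornS_of (C := cB022L) (C0 := c0B) (j := (1 : Fin 8)) (k := (7 : Fin 8)) (lo := 0) (hi := 4) (W := 67108864) (N0 := 3) cB022L_q (sideB hx hx') gokB X (by norm_num) (by norm_num) (l := (0 : Fin 8)) rfl
      (gatB10 x) (gatB72 x) (gatB02 x) ?_)
    (thU (pinU hx hx')) rfl hκ (fun j q y => tC_eq j q y x) (esg_rng X.x0.le (by linarith [X.b, X.p0])).1 (mo_v x) le_rfl le_rfl
  · intro ρ a B hρ hd i h1 h2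
    fin_cases i
    · exact corW_cert (G1 := gB1q0) (G2 := gB7q2) (Ga := gB0q2) (Gb := gB1q2) (D1 := dB1q0) (D2 := dB7q2) (Da := dB0q2) (Db := dB1q2) cB022L_ok B hρ hen (gatB10 x) (gatB72 x) (fun _ => gatB02 x) (fun _ => gatB12 x) (datB10 x) (datB72 x) (fun _ => datB02 x) (fun _ => datB12 x) hd hx hx' CW.B022L_170
    · exact corW_cert (G1 := gB1q0) (G2 := gB7q2) (Ga := gB1q2) (Gb := gB2q2) (D1 := dB1q0) (D2 := dB7q2) (Da := dB1q2) (Db := dB2q2) cB022L_ok B hρ hen (gatB10 x) (gatB72 x) (fun _ => gatB12 x) (fun _ => gatB22 x) (datB10 x) (datB72 x) (fun _ => datB12 x) (fun _ => datB22 x) hd hx hx' CW.B022L_171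
    · exact corW_cert (G1 := gB1q0) (G2 := gB7q2) (Ga := gB2q2) (Gb := gB3q2) (D1 := dB1q0) (D2 := dB7q2) (Da := dB2q2) (Db := dB3q2) cB022L_ok B hρ hen (gatB10 x) (gatB72 x) (fun _ => gatB22 x) (fun _ => gatB32 x) (datB10 x) (datB72 x) (fun _ => datB22 x) (fun _ => datB32 x) hd hx hx' CW.B022L_172
    · exact corW_cert (G1 := gB1q0) (G2 := gB7q2) (Ga := gB3q2) (Gb := gB4q2) (D1 := dB1q0) (D2 := dB7q2) (Da := dB3q2) (Db := dB4q2) cB022L_ok B hρ hen (gatB10 x) (gatB72 x) (fun _ => gatB32 x) (fun _ => gatB42 x) (datB10 x) (datB72 x) (fun _ => datB32 x) (fun _ => datB42 x) hd hx hx' CW.B022L_173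
    · exact corW_cert (G1 := gB1q0) (G2 := gB7q2) (Ga := gB4q2) (Gb := gB5q2) (D1 := dB1q0) (D2 := dB7q2) (Da := dB4q2) (Db := dB5q2) cB022L_ok B hρ hen (gatB10 x) (gatB72 x) (fun _ => gatB42 x) (fun h => absurd h (by decide)) (datB10 x) (datB72 x) (fun _ => datB42 x) (fun h => absurd h (by decide)) hd hx hx' CW.B022L_174
    · exact absurd h2 (by norm_num)
    · exact absurd h2 (by norm_num)
  · intro ρ a B hρ hd i h1 h2
    fin_cases i
    · exact corT_cert (G1 := gB1q0) (G2 := gB7q2) (Ga := gB0q2) (Gb := gB1q2) cB022L_ok B hρ (gatB10 x) (gatB72 x) (fun _ => gatB02 x) (fun _ => gatB12 x) hd hx hx' CG.B022L_170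
    · exact corT_cert (G1 := gB1q0) (G2 := gB7q2) (Ga := gB1q2) (Gb := gB2q2) cB022L_ok B hρ (gatB10 x) (gatB72 x) (fun _ => gatB12 x) (fun _ => gatB22 x) hd hx hx' CG.B022L_171
    · exact corT_cert (G1 := gB1q0) (G2 := gB7q2) (Ga := gB2q2) (Gb := gB3q2) cB022L_ok B hρ (gatB10 x) (gatB72 x) (fun _ => gatB22 x) (fun _ => gatB32 x) hd hx hx' CG.B022L_172
    · exact corT_cert (G1 := gB1q0) (G2 := gB7q2) (Ga := gB3q2) (Gb := gB4q2) cB022L_ok B hρ (gatB10 x) (gatB72 x) (fun _ => gatB32 x) (fun _ => gatB42 x) hd hx hx' CG.B022L_173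
    · exact corT_cert (G1 := gB1q0) (G2 := gB7q2) (Ga := gB4q2) (Gb := gB5q2) cB022L_ok B hρ (gatB10 x) (gatB72 x) (fun _ => gatB42 x) (fun h => absurd h (by decide)) hd hx hx' CG.B022L_174
    · exact absurd h2 (by norm_num)
    · exact absurd h2 (by norm_num)

theorem altB_B022L_27 {κ x : ℝ} (hκ : κ * h0 = ken x) (hx : ((587336777 : ℕ) : ℝ) / S ≤ x) (hx' : x ≤ (((587336777 : ℕ) : ℝ) + (62277027 : ℕ)) / S) :
    AltEB 3 κ (eng.v x) (3 / 40) (tnt (h0 * x) (3 / 10)) PP tK tL tC pcB (scP esg pd) [⟨0, 0, 0, 67108864⟩, ⟨1, 1, 0, 67108864⟩, ⟨2, 1, 0, 67108864⟩] 0 2 2 2 7 (sgb true) (sgb true) x := by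
  have X : XR 67108864 x := XR.of hx hx' (by norm_num) (by norm_num) (by norm_num) (by norm_num)
  have hen : 0 < eng.v x := en_pos X.x0.le
  refine CornW.altB (C := cB022L) (j := (2 : Fin 8)) (k := (7 : Fin 8)) (Ef := esg) (pd := pd) (o := 3 / 40)
    (cornW_of (C := cB022L) (C0 := c0B) (En := eng) (mo := mog) (j := (2 : Fin 8)) (k := (7 : Fin 8)) (lo := 0) (hi := 4) (W := 67108864) (N0 := 3) cB022L_q (sideB hx hx') gokB (pinU hx hx') dokB X (by norm_num) (by norm_num) (l := (0 : Fin 8)) rfl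
      (gatB20 x) (gatB72 x) (gatB02 x) (datB20 x) (datB72 x) (datB02 x) ?_)
    (cornS_of (C := cB022L) (C0 := c0B) (j := (2 : Fin 8)) (k := (7 : Fin 8)) (lo := 0) (hi := 4) (W := 67108864) (N0 := 3) cB022L_q (sideB hx hx') gokB X (by norm_num) (by norm_num) (l := (0 : Fin 8)) rfl
      (gatB20 x) (gatB72 x) (gatB02 x) ?_)
    (thU (pinU hx hx')) rfl hκ (fun j q y => tC_eq j q y x) (esg_rng X.x0.le (by linarith [X.b, X.p0])).1 (mo_v x) le_rfl le_rfl
  · intro ρ a B hρ hd i h1 h2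
    fin_cases i
    · exact corW_cert (G1 := gB2q0) (G2 := gB7q2) (Ga := gB0q2) (Gb := gB1q2) (D1 := dB2q0) (D2 := dB7q2) (Da := dB0q2) (Db := dB1q2) cB022L_ok B hρ hen (gatB20 x) (gatB72 x) (fun _ => gatB02 x) (fun _ => gatB12 x) (datB20 x) (datB72 x) (fun _ => datB02 x) (fun _ => datB12 x) hd hx hx' CW.B022L_270
    · exact corW_cert (G1 := gB2q0) (G2 := gB7q2) (Ga := gB1q2) (Gb := gB2q2) (D1 := dB2q0) (D2 := dB7q2) (Da := dB1q2) (Db := dB2q2) cB022L_ok B hρ hen (gatB20 x) (gatB72 x) (fun _ => gatB12 x) (fun _ => gatB22 x) (datB20 x) (datB72 x) (fun _ => datB12 x) (fun _ => datB22 x) hd hx hx' CW.B022L_271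
    · exact corW_cert (G1 := gB2q0) (G2 := gB7q2) (Ga := gB2q2) (Gb := gB3q2) (D1 := dB2q0) (D2 := dB7q2) (Da := dB2q2) (Db := dB3q2) cB022L_ok B hρ hen (gatB20 x) (gatB72 x) (fun _ => gatB22 x) (fun _ => gatB32 x) (datB20 x) (datB72 x) (fun _ => datB22 x) (fun _ => datB32 x) hd hx hx' CW.B022L_272
    · exact corW_cert (G1 := gB2q0) (G2 := gB7q2) (Ga := gB3q2) (Gb := gB4q2) (D1 := dB2q0) (D2 := dB7q2) (Da := dB3q2) (Db := dB4q2) cB022L_ok B hρ hen (gatB20 x) (gatB72 x) (fun _ => gatB32 x) (fun _ => gatB42 x) (datB20 x) (datB72 x) (fun _ => datB32 x) (fun _ => datB42 x) hd hx hx' CW.B022L_273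
    · exact corW_cert (G1 := gB2q0) (G2 := gB7q2) (Ga := gB4q2) (Gb := gB5q2) (D1 := dB2q0) (D2 := dB7q2) (Da := dB4q2) (Db := dB5q2) cB022L_ok B hρ hen (gatB20 x) (gatB72 x) (fun _ => gatB42 x) (fun h => absurd h (by decide)) (datB20 x) (datB72 x) (fun _ => datB42 x) (fun h => absurd h (by decide)) hd hx hx' CW.B022L_274
    · exact absurd h2 (by norm_num)
    · exact absurd h2 (by norm_num)
  · intro ρ a B hρ hd i h1 h2
    fin_cases i
    · exact corT_cert (G1 := gB2q0) (G2 := gB7q2) (Ga := gB0q2) (Gb := gB1q2) cB022L_ok B hρ (gatB20 x) (gatB72 x) (fun _ => gatB02 x) (fun _ => gatB12 x) hd hx hx' CG.B022L_270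
    · exact corT_cert (G1 := gB2q0) (G2 := gB7q2) (Ga := gB1q2) (Gb := gB2q2) cB022L_ok B hρ (gatB20 x) (gatB72 x) (fun _ => gatB12 x) (fun _ => gatB22 x) hd hx hx' CG.B022L_271
    · exact corT_cert (G1 := gB2q0) (G2 := gB7q2) (Ga := gB2q2) (Gb := gB3q2) cB022L_ok B hρ (gatB20 x) (gatB72 x) (fun _ => gatB22 x) (fun _ => gatB32 x) hd hx hx' CG.B022L_272
    · exact corT_cert (G1 := gB2q0) (G2 := gB7q2) (Ga := gB3q2) (Gb := gB4q2) cB022L_ok B hρ (gatB20 x) (gatB72 x) (fun _ => gatB32 x) (fun _ => gatB42 x) hd hx hx' CG.B022L_273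
    · exact corT_cert (G1 := gB2q0) (G2 := gB7q2) (Ga := gB4q2) (Gb := gB5q2) cB022L_ok B hρ (gatB20 x) (gatB72 x) (fun _ => gatB42 x) (fun h => absurd h (by decide)) hd hx hx' CG.B022L_274
    · exact absurd h2 (by norm_num)
    · exact absurd h2 (by norm_num)

theorem altB_B022L_37 {κ x : ℝ} (hκ : κ * h0 = ken x) (hx : ((587336777 : ℕ) : ℝ) / S ≤ x) (hx' : x ≤ (((587336777 : ℕ) : ℝ) + (62277027 : ℕ)) / S) :
    AltEB 3 κ (eng.v x) (3 / 40) (tnt (h0 * x) (3 / 10)) PP tK tL tC pcB (scP esg pd) [⟨0, 0, 0, 67108864⟩, ⟨1, 1, 0, 67108864⟩, ⟨2, 1, 0, 67108864⟩] 0 2 2 3 7 (sgb true) (sgb true) x := by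
  have X : XR 67108864 x := XR.of hx hx' (by norm_num) (by norm_num) (by norm_num) (by norm_num)
  have hen : 0 < eng.v x := en_pos X.x0.le
  refine CornW.altB (C := cB022L) (j := (3 : Fin 8)) (k := (7 : Fin 8)) (Ef := esg) (pd := pd) (o := 3 / 40)
    (cornW_of (C := cB022L) (C0 := c0B) (En := eng) (mo := mog) (j := (3 : Fin 8)) (k := (7 : Fin 8)) (lo := 0) (hi := 4) (W := 67108864) (N0 := 3) cB022L_q (sideB hx hx') gokB (pinU hx hx') dokB X (by norm_num) (by norm_num) (l := (0 : Fin 8)) rfl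
      (gatB30 x) (gatB72 x) (gatB02 x) (datB30 x) (datB72 x) (datB02 x) ?_)
    (cornS_of (C := cB022L) (C0 := c0B) (j := (3 : Fin 8)) (k := (7 : Fin 8)) (lo := 0) (hi := 4) (W := 67108864) (N0 := 3) cB022L_q (sideB hx hx') gokB X (by norm_num) (by norm_num) (l := (0 : Fin 8)) rfl
      (gatB30 x) (gatB72 x) (gatB02 x) ?_)
    (thU (pinU hx hx')) rfl hκ (fun j q y => tC_eq j q y x) (esg_rng X.x0.le (by linarith [X.b, X.p0])).1 (mo_v x) le_rfl le_rfl
  · intro ρ a B hρ hd i h1 h2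
    fin_cases i
    · exact corW_cert (G1 := gB3q0) (G2 := gB7q2) (Ga := gB0q2) (Gb := gB1q2) (D1 := dB3q0) (D2 := dB7q2) (Da := dB0q2) (Db := dB1q2) cB022L_ok B hρ hen (gatB30 x) (gatB72 x) (fun _ => gatB02 x) (fun _ => gatB12 x) (datB30 x) (datB72 x) (fun _ => datB02 x) (fun _ => datB12 x) hd hx hx' CW.B022L_370
    · exact corW_cert (G1 := gB3q0) (G2 := gB7q2) (Ga := gB1q2) (Gb := gB2q2) (D1 := dB3q0) (D2 := dB7q2) (Da := dB1q2) (Db := dB2q2) cB022L_ok B hρ hen (gatB30 x) (gatB72 x) (fun _ => gatB12 x) (fun _ => gatB22 x) (datB30 x) (datB72 x) (fun _ => datB12 x) (fun _ => datB22 x) hd hx hx' CW.B022L_371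
    · exact corW_cert (G1 := gB3q0) (G2 := gB7q2) (Ga := gB2q2) (Gb := gB3q2) (D1 := dB3q0) (D2 := dB7q2) (Da := dB2q2) (Db := dB3q2) cB022L_ok B hρ hen (gatB30 x) (gatB72 x) (fun _ => gatB22 x) (fun _ => gatB32 x) (datB30 x) (datB72 x) (fun _ => datB22 x) (fun _ => datB32 x) hd hx hx' CW.B022L_372
    · exact corW_cert (G1 := gB3q0) (G2 := gB7q2) (Ga := gB3q2) (Gb := gB4q2) (D1 := dB3q0) (D2 := dB7q2) (Da := dB3q2) (Db := dB4q2) cB022L_ok B hρ hen (gatB30 x) (gatB72 x) (fun _ => gatB32 x) (fun _ => gatB42 x) (datB30 x) (datB72 x) (fun _ => datB32 x) (fun _ => datB42 x) hd hx hx' CW.B022L_373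
    · exact corW_cert (G1 := gB3q0) (G2 := gB7q2) (Ga := gB4q2) (Gb := gB5q2) (D1 := dB3q0) (D2 := dB7q2) (Da := dB4q2) (Db := dB5q2) cB022L_ok B hρ hen (gatB30 x) (gatB72 x) (fun _ => gatB42 x) (fun h => absurd h (by decide)) (datB30 x) (datB72 x) (fun _ => datB42 x) (fun h => absurd h (by decide)) hd hx hx' CW.B022L_374
    · exact absurd h2 (by norm_num)
    · exact absurd h2 (by norm_num)
  · intro ρ a B hρ hd i h1 h2
    fin_cases i
    · exact corT_cert (G1 := gB3q0) (G2 := gB7q2) (Ga := gB0q2) (Gb := gB1q2) cB022L_ok B hρ (gatB30 x) (gatB72 x) (fun _ => gatB02 x) (fun _ => gatB12 x) hd hx hx' CG.B022L_370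
    · exact corT_cert (G1 := gB3q0) (G2 := gB7q2) (Ga := gB1q2) (Gb := gB2q2) cB022L_ok B hρ (gatB30 x) (gatB72 x) (fun _ => gatB12 x) (fun _ => gatB22 x) hd hx hx' CG.B022L_371
    · exact corT_cert (G1 := gB3q0) (G2 := gB7q2) (Ga := gB2q2) (Gb := gB3q2) cB022L_ok B hρ (gatB30 x) (gatB72 x) (fun _ => gatB22 x) (fun _ => gatB32 x) hd hx hx' CG.B022L_372
    · exact corT_cert (G1 := gB3q0) (G2 := gB7q2) (Ga := gB3q2) (Gb := gB4q2) cB022L_ok B hρ (gatB30 x) (gatB72 x) (fun _ => gatB32 x) (fun _ => gatB42 x) hd hx hx' CG.B022L_373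
    · exact corT_cert (G1 := gB3q0) (G2 := gB7q2) (Ga := gB4q2) (Gb := gB5q2) cB022L_ok B hρ (gatB30 x) (gatB72 x) (fun _ => gatB42 x) (fun h => absurd h (by decide)) hd hx hx' CG.B022L_374
    · exact absurd h2 (by norm_num)
    · exact absurd h2 (by norm_num)

theorem altB_B022L_47 {κ x : ℝ} (hκ : κ * h0 = ken x) (hx : ((587336777 : ℕ) : ℝ) / S ≤ x) (hx' : x ≤ (((587336777 : ℕ) : ℝ) + (62277027 : ℕ)) / S) :
    AltEB 3 κ (eng.v x) (3 / 40) (tnt (h0 * x) (3 / 10)) PP tK tL tC pcB (scP esg pd) [⟨0, 0, 0, 67108864⟩, ⟨1, 1, 0, 67108864⟩, ⟨2, 1, 0, 67108864⟩] 0 2 2 4 7 (sgb true) (sgb true) x := by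
  have X : XR 67108864 x := XR.of hx hx' (by norm_num) (by norm_num) (by norm_num) (by norm_num)
  have hen : 0 < eng.v x := en_pos X.x0.le
  refine CornW.altB (C := cB022L) (j := (4 : Fin 8)) (k := (7 : Fin 8)) (Ef := esg) (pd := pd) (o := 3 / 40)
    (cornW_of (C := cB022L) (C0 := c0B) (En := eng) (mo := mog) (j := (4 : Fin 8)) (k := (7 : Fin 8)) (lo := 0) (hi := 4) (W := 67108864) (N0 := 3) cB022L_q (sideB hx hx') gokB (pinU hx hx') dokB X (by norm_num) (by norm_num) (l := (0 : Fin 8)) rfl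
      (gatB40 x) (gatB72 x) (gatB02 x) (datB40 x) (datB72 x) (datB02 x) ?_)
    (cornS_of (C := cB022L) (C0 := c0B) (j := (4 : Fin 8)) (k := (7 : Fin 8)) (lo := 0) (hi := 4) (W := 67108864) (N0 := 3) cB022L_q (sideB hx hx') gokB X (by norm_num) (by norm_num) (l := (0 : Fin 8)) rfl
      (gatB40 x) (gatB72 x) (gatB02 x) ?_)
    (thU (pinU hx hx')) rfl hκ (fun j q y => tC_eq j q y x) (esg_rng X.x0.le (by linarith [X.b, X.p0])).1 (mo_v x) le_rfl le_rfl
  · intro ρ a B hρ hd i h1 h2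
    fin_cases i
    · exact corW_cert (G1 := gB4q0) (G2 := gB7q2) (Ga := gB0q2) (Gb := gB1q2) (D1 := dB4q0) (D2 := dB7q2) (Da := dB0q2) (Db := dB1q2) cB022L_ok B hρ hen (gatB40 x) (gatB72 x) (fun _ => gatB02 x) (fun _ => gatB12 x) (datB40 x) (datB72 x) (fun _ => datB02 x) (fun _ => datB12 x) hd hx hx' CW.B022L_470
    · exact corW_cert (G1 := gB4q0) (G2 := gB7q2) (Ga := gB1q2) (Gb := gB2q2) (D1 := dB4q0) (D2 := dB7q2) (Da := dB1q2) (Db := dB2q2) cB022L_ok B hρ hen (gatB40 x) (gatB72 x) (fun _ => gatB12 x) (fun _ => gatB22 x) (datB40 x) (datB72 x) (fun _ => datB12 x) (fun _ => datB22 x) hd hx hx' CW.B022L_471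
    · exact corW_cert (G1 := gB4q0) (G2 := gB7q2) (Ga := gB2q2) (Gb := gB3q2) (D1 := dB4q0) (D2 := dB7q2) (Da := dB2q2) (Db := dB3q2) cB022L_ok B hρ hen (gatB40 x) (gatB72 x) (fun _ => gatB22 x) (fun _ => gatB32 x) (datB40 x) (datB72 x) (fun _ => datB22 x) (fun _ => datB32 x) hd hx hx' CW.B022L_472
    · exact corW_cert (G1 := gB4q0) (G2 := gB7q2) (Ga := gB3q2) (Gb := gB4q2) (D1 := dB4q0) (D2 := dB7q2) (Da := dB3q2) (Db := dB4q2) cB022L_ok B hρ hen (gatB40 x) (gatB72 x) (fun _ => gatB32 x) (fun _ => gatB42 x) (datB40 x) (datB72 x) (fun _ => datB32 x) (fun _ => datB42 x) hd hx hx' CW.B022L_473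
    · exact corW_cert (G1 := gB4q0) (G2 := gB7q2) (Ga := gB4q2) (Gb := gB5q2) (D1 := dB4q0) (D2 := dB7q2) (Da := dB4q2) (Db := dB5q2) cB022L_ok B hρ hen (gatB40 x) (gatB72 x) (fun _ => gatB42 x) (fun h => absurd h (by decide)) (datB40 x) (datB72 x) (fun _ => datB42 x) (fun h => absurd h (by decide)) hd hx hx' CW.B022L_474
    · exact absurd h2 (by norm_num)
    · exact absurd h2 (by norm_num)
  · intro ρ a B hρ hd i h1 h2
    fin_cases i
    · exact corT_cert (G1 := gB4q0) (G2 := gB7q2) (Ga := gB0q2) (Gb := gB1q2) cB022L_ok B hρ (gatB40 x) (gatB72 x) (fun _ => gatB02 x) (fun _ => gatB12 x) hd hx hx' CG.B022L_470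
    · exact corT_cert (G1 := gB4q0) (G2 := gB7q2) (Ga := gB1q2) (Gb := gB2q2) cB022L_ok B hρ (gatB40 x) (gatB72 x) (fun _ => gatB12 x) (fun _ => gatB22 x) hd hx hx' CG.B022L_471
    · exact corT_cert (G1 := gB4q0) (G2 := gB7q2) (Ga := gB2q2) (Gb := gB3q2) cB022L_ok B hρ (gatB40 x) (gatB72 x) (fun _ => gatB22 x) (fun _ => gatB32 x) hd hx hx' CG.B022L_472
    · exact corT_cert (G1 := gB4q0) (G2 := gB7q2) (Ga := gB3q2) (Gb := gB4q2) cB022L_ok B hρ (gatB40 x) (gatB72 x) (fun _ => gatB32 x) (fun _ => gatB42 x) hd hx hx' CG.B022L_473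
    · exact corT_cert (G1 := gB4q0) (G2 := gB7q2) (Ga := gB4q2) (Gb := gB5q2) cB022L_ok B hρ (gatB40 x) (gatB72 x) (fun _ => gatB42 x) (fun h => absurd h (by decide)) hd hx hx' CG.B022L_474
    · exact absurd h2 (by norm_num)
    · exact absurd h2 (by norm_num)

theorem altB_B022R_00 {κ x : ℝ} (hκ : κ * h0 = ken x) (hx : ((587336777 : ℕ) : ℝ) / S ≤ x) (hx' : x ≤ (((587336777 : ℕ) : ℝ) + (62277027 : ℕ)) / S) :
    AltEB 3 κ (eng.v x) (3 / 40) (tnt (h0 * x) (3 / 10)) PP tK tL tC pcB (scP esg pd) [⟨0, 0, 0, 67108864⟩, ⟨1, 1, 0, 67108864⟩, ⟨2, 1, 0, 67108864⟩] 0 2 2 0 0 (sgb true) (sgb false) x := by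
  have X : XR 67108864 x := XR.of hx hx' (by norm_num) (by norm_num) (by norm_num) (by norm_num)
  have hen : 0 < eng.v x := en_pos X.x0.le
  refine CornW.altB (C := cB022R) (j := (0 : Fin 8)) (k := (0 : Fin 8)) (Ef := esg) (pd := pd) (o := 3 / 40)
    (cornW_of (C := cB022R) (C0 := c0B) (En := eng) (mo := mog) (j := (0 : Fin 8)) (k := (0 : Fin 8)) (lo := 7) (hi := 7) (W := 67108864) (N0 := 3) cB022R_q (sideB hx hx') gokB (pinU hx hx') dokB X (by norm_num) (by norm_num) (l := (7 : Fin 8)) rfl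
      (gatB00 x) (gatB02 x) (gatB72 x) (datB00 x) (datB02 x) (datB72 x) ?_)
    (cornS_of (C := cB022R) (C0 := c0B) (j := (0 : Fin 8)) (k := (0 : Fin 8)) (lo := 7) (hi := 7) (W := 67108864) (N0 := 3) cB022R_q (sideB hx hx') gokB X (by norm_num) (by norm_num) (l := (7 : Fin 8)) rfl
      (gatB00 x) (gatB02 x) (gatB72 x) ?_)
    (thU (pinU hx hx')) rfl hκ (fun j q y => tC_eq j q y x) (esg_rng X.x0.le (by linarith [X.b, X.p0])).1 (mo_v x) le_rfl le_rfl
  · intro ρ a B hρ hd i h1 h2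
    fin_cases i
    · exact absurd h1 (by norm_num)
    · exact absurd h1 (by norm_num)
    · exact absurd h1 (by norm_num)
    · exact absurd h1 (by norm_num)
    · exact absurd h1 (by norm_num)
    · exact absurd h1 (by norm_num)
    · exact corW_cert (G1 := gB0q0) (G2 := gB0q2) (Ga := gB6q2) (Gb := gB7q2) (D1 := dB0q0) (D2 := dB0q2) (Da := dB6q2) (Db := dB7q2) cB022R_ok B hρ hen (gatB00 x) (gatB02 x) (fun h => absurd h (by decide)) (fun _ => gatB72 x) (datB00 x) (datB02 x) (fun h => absurd h (by decide)) (fun _ => datB72 x) hd hx hx' CW.B022R_006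
  · intro ρ a B hρ hd i h1 h2
    fin_cases i
    · exact absurd h1 (by norm_num)
    · exact absurd h1 (by norm_num)
    · exact absurd h1 (by norm_num)
    · exact absurd h1 (by norm_num)
    · exact absurd h1 (by norm_num)
    · exact absurd h1 (by norm_num)
    · exact corT_cert (G1 := gB0q0) (G2 := gB0q2) (Ga := gB6q2) (Gb := gB7q2) cB022R_ok B hρ (gatB00 x) (gatB02 x) (fun h => absurd h (by decide)) (fun _ => gatB72 x) hd hx hx' CG.B022R_006

theorem altB_B022R_01 {κ x : ℝ} (hκ : κ * h0 = ken x) (hx : ((587336777 : ℕ) : ℝ) / S ≤ x) (hx' : x ≤ (((587336777 : ℕ) : ℝ) + (62277027 : ℕ)) / S) :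
    AltEB 3 κ (eng.v x) (3 / 40) (tnt (h0 * x) (3 / 10)) PP tK tL tC pcB (scP esg pd) [⟨0, 0, 0, 67108864⟩, ⟨1, 1, 0, 67108864⟩, ⟨2, 1, 0, 67108864⟩] 0 2 2 0 1 (sgb true) (sgb false) x := by
  have X : XR 67108864 x := XR.of hx hx' (by norm_num) (by norm_num) (by norm_num) (by norm_num)
  have hen : 0 < eng.v x := en_pos X.x0.le
  refine CornW.altB (C := cB022R) (j := (0 : Fin 8)) (k := (1 : Fin 8)) (Ef := esg) (pd := pd) (o := 3 / 40)
    (cornW_of (C := cB022R) (C0 := c0B) (En := eng) (mo := mog) (j := (0 : Fin 8)) (k := (1 : Fin 8)) (lo := 7) (hi := 7) (W := 67108864) (N0 := 3) cB022R_q (sideB hx hx') gokB (pinU hx hx') dokB X (by norm_num) (by norm_num) (l := (7 : Fin 8)) rfl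
      (gatB00 x) (gatB12 x) (gatB72 x) (datB00 x) (datB12 x) (datB72 x) ?_)
    (cornS_of (C := cB022R) (C0 := c0B) (j := (0 : Fin 8)) (k := (1 : Fin 8)) (lo := 7) (hi := 7) (W := 67108864) (N0 := 3) cB022R_q (sideB hx hx') gokB X (by norm_num) (by norm_num) (l := (7 : Fin 8)) rfl
      (gatB00 x) (gatB12 x) (gatB72 x) ?_)
    (thU (pinU hx hx')) rfl hκ (fun j q y => tC_eq j q y x) (esg_rng X.x0.le (by linarith [X.b, X.p0])).1 (mo_v x) le_rfl le_rfl
  · intro ρ a B hρ hd i h1 h2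
    fin_cases i
    · exact absurd h1 (by norm_num)
    · exact absurd h1 (by norm_num)
    · exact absurd h1 (by norm_num)
    · exact absurd h1 (by norm_num)
    · exact absurd h1 (by norm_num)
    · exact absurd h1 (by norm_num)
    · exact corW_cert (G1 := gB0q0) (G2 := gB1q2) (Ga := gB6q2) (Gb := gB7q2) (D1 := dB0q0) (D2 := dB1q2) (Da := dB6q2) (Db := dB7q2) cB022R_ok B hρ hen (gatB00 x) (gatB12 x) (fun h => absurd h (by decide)) (fun _ => gatB72 x) (datB00 x) (datB12 x) (fun h => absurd h (by decide)) (fun _ => datB72 x) hd hx hx' CW.B022R_016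
  · intro ρ a B hρ hd i h1 h2
    fin_cases i
    · exact absurd h1 (by norm_num)
    · exact absurd h1 (by norm_num)
    · exact absurd h1 (by norm_num)
    · exact absurd h1 (by norm_num)
    · exact absurd h1 (by norm_num)
    · exact absurd h1 (by norm_num)
    · exact corT_cert (G1 := gB0q0) (G2 := gB1q2) (Ga := gB6q2) (Gb := gB7q2) cB022R_ok B hρ (gatB00 x) (gatB12 x) (fun h => absurd h (by decide)) (fun _ => gatB72 x) hd hx hx' CG.B022R_016

theorem altB_B022R_02 {κ x : ℝ} (hκ : κ * h0 = ken x) (hx : ((587336777 : ℕ) : ℝ) / S ≤ x) (hx' : x ≤ (((587336777 : ℕ) : ℝ) + (62277027 : ℕ)) / S) :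
    AltEB 3 κ (eng.v x) (3 / 40) (tnt (h0 * x) (3 / 10)) PP tK tL tC pcB (scP esg pd) [⟨0, 0, 0, 67108864⟩, ⟨1, 1, 0, 67108864⟩, ⟨2, 1, 0, 67108864⟩] 0 2 2 0 2 (sgb true) (sgb false) x := by
  have X : XR 67108864 x := XR.of hx hx' (by norm_num) (by norm_num) (by norm_num) (by norm_num)
  have hen : 0 < eng.v x := en_pos X.x0.le
  refine CornW.altB (C := cB022R) (j := (0 : Fin 8)) (k := (2 : Fin 8)) (Ef := esg) (pd := pd) (o := 3 / 40)
    (cornW_of (C := cB022R) (C0 := c0B) (En := eng) (mo := mog) (j := (0 : Fin 8)) (k := (2 : Fin 8)) (lo := 7) (hi := 7) (W := 67108864) (N0 := 3) cB022R_q (sideB hx hx') gokB (pinU hx hx') dokB X (by norm_num) (by norm_num) (l := (7 : Fin 8)) rfl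
      (gatB00 x) (gatB22 x) (gatB72 x) (datB00 x) (datB22 x) (datB72 x) ?_)
    (cornS_of (C := cB022R) (C0 := c0B) (j := (0 : Fin 8)) (k := (2 : Fin 8)) (lo := 7) (hi := 7) (W := 67108864) (N0 := 3) cB022R_q (sideB hx hx') gokB X (by norm_num) (by norm_num) (l := (7 : Fin 8)) rfl
      (gatB00 x) (gatB22 x) (gatB72 x) ?_)
    (thU (pinU hx hx')) rfl hκ (fun j q y => tC_eq j q y x) (esg_rng X.x0.le (by linarith [X.b, X.p0])).1 (mo_v x) le_rfl le_rfl
  · intro ρ a B hρ hd i h1 h2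
    fin_cases i
    · exact absurd h1 (by norm_num)
    · exact absurd h1 (by norm_num)
    · exact absurd h1 (by norm_num)
    · exact absurd h1 (by norm_num)
    · exact absurd h1 (by norm_num)
    · exact absurd h1 (by norm_num)
    · exact corW_cert (G1 := gB0q0) (G2 := gB2q2) (Ga := gB6q2) (Gb := gB7q2) (D1 := dB0q0) (D2 := dB2q2) (Da := dB6q2) (Db := dB7q2) cB022R_ok B hρ hen (gatB00 x) (gatB22 x) (fun h => absurd h (by decide)) (fun _ => gatB72 x) (datB00 x) (datB22 x) (fun h => absurd h (by decide)) (fun _ => datB72 x) hd hx hx' CW.B022R_026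
  · intro ρ a B hρ hd i h1 h2
    fin_cases i
    · exact absurd h1 (by norm_num)
    · exact absurd h1 (by norm_num)
    · exact absurd h1 (by norm_num)
    · exact absurd h1 (by norm_num)
    · exact absurd h1 (by norm_num)
    · exact absurd h1 (by norm_num)
    · exact corT_cert (G1 := gB0q0) (G2 := gB2q2) (Ga := gB6q2) (Gb := gB7q2) cB022R_ok B hρ (gatB00 x) (gatB22 x) (fun h => absurd h (by decide)) (fun _ => gatB72 x) hd hx hx' CG.B022R_026

theorem altB_B022R_03 {κ x : ℝ} (hκ : κ * h0 = ken x) (hx : ((587336777 : ℕ) : ℝ) / S ≤ x) (hx' : x ≤ (((587336777 : ℕ) : ℝ) + (62277027 : ℕ)) / S) :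
    AltEB 3 κ (eng.v x) (3 / 40) (tnt (h0 * x) (3 / 10)) PP tK tL tC pcB (scP esg pd) [⟨0, 0, 0, 67108864⟩, ⟨1, 1, 0, 67108864⟩, ⟨2, 1, 0, 67108864⟩] 0 2 2 0 3 (sgb true) (sgb false) x := by
  have X : XR 67108864 x := XR.of hx hx' (by norm_num) (by norm_num) (by norm_num) (by norm_num)
  have hen : 0 < eng.v x := en_pos X.x0.le
  refine CornW.altB (C := cB022R) (j := (0 : Fin 8)) (k := (3 : Fin 8)) (Ef := esg) (pd := pd) (o := 3 / 40)
    (cornW_of (C := cB022R) (C0 := c0B) (En := eng) (mo := mog) (j := (0 : Fin 8)) (k := (3 : Fin 8)) (lo := 7) (hi := 7) (W := 67108864) (N0 := 3) cB022R_q (sideB hx hx') gokB (pinU hx hx') dokB X (by norm_num) (by norm_num) (l := (7 : Fin 8)) rfl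
      (gatB00 x) (gatB32 x) (gatB72 x) (datB00 x) (datB32 x) (datB72 x) ?_)
    (cornS_of (C := cB022R) (C0 := c0B) (j := (0 : Fin 8)) (k := (3 : Fin 8)) (lo := 7) (hi := 7) (W := 67108864) (N0 := 3) cB022R_q (sideB hx hx') gokB X (by norm_num) (by norm_num) (l := (7 : Fin 8)) rfl
      (gatB00 x) (gatB32 x) (gatB72 x) ?_)
    (thU (pinU hx hx')) rfl hκ (fun j q y => tC_eq j q y x) (esg_rng X.x0.le (by linarith [X.b, X.p0])).1 (mo_v x) le_rfl le_rfl
  · intro ρ a B hρ hd i h1 h2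
    fin_cases i
    · exact absurd h1 (by norm_num)
    · exact absurd h1 (by norm_num)
    · exact absurd h1 (by norm_num)
    · exact absurd h1 (by norm_num)
    · exact absurd h1 (by norm_num)
    · exact absurd h1 (by norm_num)
    · exact corW_cert (G1 := gB0q0) (G2 := gB3q2) (Ga := gB6q2) (Gb := gB7q2) (D1 := dB0q0) (D2 := dB3q2) (Da := dB6q2) (Db := dB7q2) cB022R_ok B hρ hen (gatB00 x) (gatB32 x) (fun h => absurd h (by decide)) (fun _ => gatB72 x) (datB00 x) (datB32 x) (fun h => absurd h (by decide)) (fun _ => datB72 x) hd hx hx' CW.B022R_036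
  · intro ρ a B hρ hd i h1 h2
    fin_cases i
    · exact absurd h1 (by norm_num)
    · exact absurd h1 (by norm_num)
    · exact absurd h1 (by norm_num)
    · exact absurd h1 (by norm_num)
    · exact absurd h1 (by norm_num)
    · exact absurd h1 (by norm_num)
    · exact corT_cert (G1 := gB0q0) (G2 := gB3q2) (Ga := gB6q2) (Gb := gB7q2) cB022R_ok B hρ (gatB00 x) (gatB32 x) (fun h => absurd h (by decide)) (fun _ => gatB72 x) hd hx hx' CG.B022R_036

theorem altB_B022R_04 {κ x : ℝ} (hκ : κ * h0 = ken x) (hx : ((587336777 : ℕ) : ℝ) / S ≤ x) (hx' : x ≤ (((587336777 : ℕ) : ℝ) + (62277027 : ℕ)) / S) :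
    AltEB 3 κ (eng.v x) (3 / 40) (tnt (h0 * x) (3 / 10)) PP tK tL tC pcB (scP esg pd) [⟨0, 0, 0, 67108864⟩, ⟨1, 1, 0, 67108864⟩, ⟨2, 1, 0, 67108864⟩] 0 2 2 0 4 (sgb true) (sgb false) x := by
  have X : XR 67108864 x := XR.of hx hx' (by norm_num) (by norm_num) (by norm_num) (by norm_num)
  have hen : 0 < eng.v x := en_pos X.x0.le
  refine CornW.altB (C := cB022R) (j := (0 : Fin 8)) (k := (4 : Fin 8)) (Ef := esg) (pd := pd) (o := 3 / 40)
    (cornW_of (C := cB022R) (C0 := c0B) (En := eng) (mo := mog) (j := (0 : Fin 8)) (k := (4 : Fin 8)) (lo := 7) (hi := 7) (W := 67108864) (N0 := 3) cB022R_q (sideB hx hx') gokB (pinU hx hx') dokB X (by norm_num) (by norm_num) (l := (7 : Fin 8)) rfl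
      (gatB00 x) (gatB42 x) (gatB72 x) (datB00 x) (datB42 x) (datB72 x) ?_)
    (cornS_of (C := cB022R) (C0 := c0B) (j := (0 : Fin 8)) (k := (4 : Fin 8)) (lo := 7) (hi := 7) (W := 67108864) (N0 := 3) cB022R_q (sideB hx hx') gokB X (by norm_num) (by norm_num) (l := (7 : Fin 8)) rfl
      (gatB00 x) (gatB42 x) (gatB72 x) ?_)
    (thU (pinU hx hx')) rfl hκ (fun j q y => tC_eq j q y x) (esg_rng X.x0.le (by linarith [X.b, X.p0])).1 (mo_v x) le_rfl le_rfl
  · intro ρ a B hρ hd i h1 h2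
    fin_cases i
    · exact absurd h1 (by norm_num)
    · exact absurd h1 (by norm_num)
    · exact absurd h1 (by norm_num)
    · exact absurd h1 (by norm_num)
    · exact absurd h1 (by norm_num)
    · exact absurd h1 (by norm_num)
    · exact corW_cert (G1 := gB0q0) (G2 := gB4q2) (Ga := gB6q2) (Gb := gB7q2) (D1 := dB0q0) (D2 := dB4q2) (Da := dB6q2) (Db := dB7q2) cB022R_ok B hρ hen (gatB00 x) (gatB42 x) (fun h => absurd h (by decide)) (fun _ => gatB72 x) (datB00 x) (datB42 x) (fun h => absurd h (by decide)) (fun _ => datB72 x) hd hx hx' CW.B022R_046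
  · intro ρ a B hρ hd i h1 h2
    fin_cases i
    · exact absurd h1 (by norm_num)
    · exact absurd h1 (by norm_num)
    · exact absurd h1 (by norm_num)
    · exact absurd h1 (by norm_num)
    · exact absurd h1 (by norm_num)
    · exact absurd h1 (by norm_num)
    · exact corT_cert (G1 := gB0q0) (G2 := gB4q2) (Ga := gB6q2) (Gb := gB7q2) cB022R_ok B hρ (gatB00 x) (gatB42 x) (fun h => absurd h (by decide)) (fun _ => gatB72 x) hd hx hx' CG.B022R_046

theorem altB_B022R_10 {κ x : ℝ} (hκ : κ * h0 = ken x) (hx : ((587336777 : ℕ) : ℝ) / S ≤ x) (hx' : x ≤ (((587336777 : ℕ) : ℝ) + (62277027 : ℕ)) / S) :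
    AltEB 3 κ (eng.v x) (3 / 40) (tnt (h0 * x) (3 / 10)) PP tK tL tC pcB (scP esg pd) [⟨0, 0, 0, 67108864⟩, ⟨1, 1, 0, 67108864⟩, ⟨2, 1, 0, 67108864⟩] 0 2 2 1 0 (sgb true) (sgb false) x := by
  have X : XR 67108864 x := XR.of hx hx' (by norm_num) (by norm_num) (by norm_num) (by norm_num)
  have hen : 0 < eng.v x := en_pos X.x0.le
  refine CornW.altB (C := cB022R) (j := (1 : Fin 8)) (k := (0 : Fin 8)) (Ef := esg) (pd := pd) (o := 3 / 40)
    (cornW_of (C := cB022R) (C0 := c0B) (En := eng) (mo := mog) (j := (1 : Fin 8)) (k := (0 : Fin 8)) (lo := 7) (hi := 7) (W := 67108864) (N0 := 3) cB022R_q (sideB hx hx') gokB (pinU hx hx') dokB X (by norm_num) (by norm_num) (l := (7 : Fin 8)) rfl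
      (gatB10 x) (gatB02 x) (gatB72 x) (datB10 x) (datB02 x) (datB72 x) ?_)
    (cornS_of (C := cB022R) (C0 := c0B) (j := (1 : Fin 8)) (k := (0 : Fin 8)) (lo := 7) (hi := 7) (W := 67108864) (N0 := 3) cB022R_q (sideB hx hx') gokB X (by norm_num) (by norm_num) (l := (7 : Fin 8)) rfl
      (gatB10 x) (gatB02 x) (gatB72 x) ?_)
    (thU (pinU hx hx')) rfl hκ (fun j q y => tC_eq j q y x) (esg_rng X.x0.le (by linarith [X.b, X.p0])).1 (mo_v x) le_rfl le_rfl
  · intro ρ a B hρ hd i h1 h2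
    fin_cases i
    · exact absurd h1 (by norm_num)
    · exact absurd h1 (by norm_num)
    · exact absurd h1 (by norm_num)
    · exact absurd h1 (by norm_num)
    · exact absurd h1 (by norm_num)
    · exact absurd h1 (by norm_num)
    · exact corW_cert (G1 := gB1q0) (G2 := gB0q2) (Ga := gB6q2) (Gb := gB7q2) (D1 := dB1q0) (D2 := dB0q2) (Da := dB6q2) (Db := dB7q2) cB022R_ok B hρ hen (gatB10 x) (gatB02 x) (fun h => absurd h (by decide)) (fun _ => gatB72 x) (datB10 x) (datB02 x) (fun h => absurd h (by decide)) (fun _ => datB72 x) hd hx hx' CW.B022R_106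
  · intro ρ a B hρ hd i h1 h2
    fin_cases i
    · exact absurd h1 (by norm_num)
    · exact absurd h1 (by norm_num)
    · exact absurd h1 (by norm_num)
    · exact absurd h1 (by norm_num)
    · exact absurd h1 (by norm_num)
    · exact absurd h1 (by norm_num)
    · exact corT_cert (G1 := gB1q0) (G2 := gB0q2) (Ga := gB6q2) (Gb := gB7q2) cB022R_ok B hρ (gatB10 x) (gatB02 x) (fun h => absurd h (by decide)) (fun _ => gatB72 x) hd hx hx' CG.B022R_106

theorem altB_B022R_11 {κ x : ℝ} (hκ : κ * h0 = ken x) (hx : ((587336777 : ℕ) : ℝ) / S ≤ x) (hx' : x ≤ (((587336777 : ℕ) : ℝ) + (62277027 : ℕ)) / S) :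
    AltEB 3 κ (eng.v x) (3 / 40) (tnt (h0 * x) (3 / 10)) PP tK tL tC pcB (scP esg pd) [⟨0, 0, 0, 67108864⟩, ⟨1, 1, 0, 67108864⟩, ⟨2, 1, 0, 67108864⟩] 0 2 2 1 1 (sgb true) (sgb false) x := by
  have X : XR 67108864 x := XR.of hx hx' (by norm_num) (by norm_num) (by norm_num) (by norm_num)
  have hen : 0 < eng.v x := en_pos X.x0.le
  refine CornW.altB (C := cB022R) (j := (1 : Fin 8)) (k := (1 : Fin 8)) (Ef := esg) (pd := pd) (o := 3 / 40)
    (cornW_of (C := cB022R) (C0 := c0B) (En := eng) (mo := mog) (j := (1 : Fin 8)) (k := (1 : Fin 8)) (lo := 7) (hi := 7) (W := 67108864) (N0 := 3) cB022R_q (sideB hx hx') gokB (pinU hx hx') dokB X (by norm_num) (by norm_num) (l := (7 : Fin 8)) rfl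
      (gatB10 x) (gatB12 x) (gatB72 x) (datB10 x) (datB12 x) (datB72 x) ?_)
    (cornS_of (C := cB022R) (C0 := c0B) (j := (1 : Fin 8)) (k := (1 : Fin 8)) (lo := 7) (hi := 7) (W := 67108864) (N0 := 3) cB022R_q (sideB hx hx') gokB X (by norm_num) (by norm_num) (l := (7 : Fin 8)) rfl
      (gatB10 x) (gatB12 x) (gatB72 x) ?_)
    (thU (pinU hx hx')) rfl hκ (fun j q y => tC_eq j q y x) (esg_rng X.x0.le (by linarith [X.b, X.p0])).1 (mo_v x) le_rfl le_rfl
  · intro ρ a B hρ hd i h1 h2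
    fin_cases i
    · exact absurd h1 (by norm_num)
    · exact absurd h1 (by norm_num)
    · exact absurd h1 (by norm_num)
    · exact absurd h1 (by norm_num)
    · exact absurd h1 (by norm_num)
    · exact absurd h1 (by norm_num)
    · exact corW_cert (G1 := gB1q0) (G2 := gB1q2) (Ga := gB6q2) (Gb := gB7q2) (D1 := dB1q0) (D2 := dB1q2) (Da := dB6q2) (Db := dB7q2) cB022R_ok B hρ hen (gatB10 x) (gatB12 x) (fun h => absurd h (by decide)) (fun _ => gatB72 x) (datB10 x) (datB12 x) (fun h => absurd h (by decide)) (fun _ => datB72 x) hd hx hx' CW.B022R_116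
  · intro ρ a B hρ hd i h1 h2
    fin_cases i
    · exact absurd h1 (by norm_num)
    · exact absurd h1 (by norm_num)
    · exact absurd h1 (by norm_num)
    · exact absurd h1 (by norm_num)
    · exact absurd h1 (by norm_num)
    · exact absurd h1 (by norm_num)
    · exact corT_cert (G1 := gB1q0) (G2 := gB1q2) (Ga := gB6q2) (Gb := gB7q2) cB022R_ok B hρ (gatB10 x) (gatB12 x) (fun h => absurd h (by decide)) (fun _ => gatB72 x) hd hx hx' CG.B022R_116

theorem altB_B022R_12 {κ x : ℝ} (hκ : κ * h0 = ken x) (hx : ((587336777 : ℕ) : ℝ) / S ≤ x) (hx' : x ≤ (((587336777 : ℕ) : ℝ) + (62277027 : ℕ)) / S) :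
    AltEB 3 κ (eng.v x) (3 / 40) (tnt (h0 * x) (3 / 10)) PP tK tL tC pcB (scP esg pd) [⟨0, 0, 0, 67108864⟩, ⟨1, 1, 0, 67108864⟩, ⟨2, 1, 0, 67108864⟩] 0 2 2 1 2 (sgb true) (sgb false) x := by
  have X : XR 67108864 x := XR.of hx hx' (by norm_num) (by norm_num) (by norm_num) (by norm_num)
  have hen : 0 < eng.v x := en_pos X.x0.le
  refine CornW.altB (C := cB022R) (j := (1 : Fin 8)) (k := (2 : Fin 8)) (Ef := esg) (pd := pd) (o := 3 / 40)
    (cornW_of (C := cB022R) (C0 := c0B) (En := eng) (mo := mog) (j := (1 : Fin 8)) (k := (2 : Fin 8)) (lo := 7) (hi := 7) (W := 67108864) (N0 := 3) cB022R_q (sideB hx hx') gokB (pinU hx hx') dokB X (by norm_num) (by norm_num) (l := (7 : Fin 8)) rfl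
      (gatB10 x) (gatB22 x) (gatB72 x) (datB10 x) (datB22 x) (datB72 x) ?_)
    (cornS_of (C := cB022R) (C0 := c0B) (j := (1 : Fin 8)) (k := (2 : Fin 8)) (lo := 7) (hi := 7) (W := 67108864) (N0 := 3) cB022R_q (sideB hx hx') gokB X (by norm_num) (by norm_num) (l := (7 : Fin 8)) rfl
      (gatB10 x) (gatB22 x) (gatB72 x) ?_)
    (thU (pinU hx hx')) rfl hκ (fun j q y => tC_eq j q y x) (esg_rng X.x0.le (by linarith [X.b, X.p0])).1 (mo_v x) le_rfl le_rfl
  · intro ρ a B hρ hd i h1 h2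
    fin_cases i
    · exact absurd h1 (by norm_num)
    · exact absurd h1 (by norm_num)
    · exact absurd h1 (by norm_num)
    · exact absurd h1 (by norm_num)
    · exact absurd h1 (by norm_num)
    · exact absurd h1 (by norm_num)
    · exact corW_cert (G1 := gB1q0) (G2 := gB2q2) (Ga := gB6q2) (Gb := gB7q2) (D1 := dB1q0) (D2 := dB2q2) (Da := dB6q2) (Db := dB7q2) cB022R_ok B hρ hen (gatB10 x) (gatB22 x) (fun h => absurd h (by decide)) (fun _ => gatB72 x) (datB10 x) (datB22 x) (fun h => absurd h (by decide)) (fun _ => datB72 x) hd hx hx' CW.B022R_126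
  · intro ρ a B hρ hd i h1 h2
    fin_cases i
    · exact absurd h1 (by norm_num)
    · exact absurd h1 (by norm_num)
    · exact absurd h1 (by norm_num)
    · exact absurd h1 (by norm_num)
    · exact absurd h1 (by norm_num)
    · exact absurd h1 (by norm_num)
    · exact corT_cert (G1 := gB1q0) (G2 := gB2q2) (Ga := gB6q2) (Gb := gB7q2) cB022R_ok B hρ (gatB10 x) (gatB22 x) (fun h => absurd h (by decide)) (fun _ => gatB72 x) hd hx hx' CG.B022R_126

theorem altB_B022R_13 {κ x : ℝ} (hκ : κ * h0 = ken x) (hx : ((587336777 : ℕ) : ℝ) / S ≤ x) (hx' : x ≤ (((587336777 : ℕ) : ℝ) + (62277027 : ℕ)) / S) :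
    AltEB 3 κ (eng.v x) (3 / 40) (tnt (h0 * x) (3 / 10)) PP tK tL tC pcB (scP esg pd) [⟨0, 0, 0, 67108864⟩, ⟨1, 1, 0, 67108864⟩, ⟨2, 1, 0, 67108864⟩] 0 2 2 1 3 (sgb true) (sgb false) x := by
  have X : XR 67108864 x := XR.of hx hx' (by norm_num) (by norm_num) (by norm_num) (by norm_num)
  have hen : 0 < eng.v x := en_pos X.x0.le
  refine CornW.altB (C := cB022R) (j := (1 : Fin 8)) (k := (3 : Fin 8)) (Ef := esg) (pd := pd) (o := 3 / 40)
    (cornW_of (C := cB022R) (C0 := c0B) (En := eng) (mo := mog) (j := (1 : Fin 8)) (k := (3 : Fin 8)) (lo := 7) (hi := 7) (W := 67108864) (N0 := 3) cB022R_q (sideB hx hx') gokB (pinU hx hx') dokB X (by norm_num) (by norm_num) (l := (7 : Fin 8)) rfl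
      (gatB10 x) (gatB32 x) (gatB72 x) (datB10 x) (datB32 x) (datB72 x) ?_)
    (cornS_of (C := cB022R) (C0 := c0B) (j := (1 : Fin 8)) (k := (3 : Fin 8)) (lo := 7) (hi := 7) (W := 67108864) (N0 := 3) cB022R_q (sideB hx hx') gokB X (by norm_num) (by norm_num) (l := (7 : Fin 8)) rfl
      (gatB10 x) (gatB32 x) (gatB72 x) ?_)
    (thU (pinU hx hx')) rfl hκ (fun j q y => tC_eq j q y x) (esg_rng X.x0.le (by linarith [X.b, X.p0])).1 (mo_v x) le_rfl le_rfl
  · intro ρ a B hρ hd i h1 h2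
    fin_cases i
    · exact absurd h1 (by norm_num)
    · exact absurd h1 (by norm_num)
    · exact absurd h1 (by norm_num)
    · exact absurd h1 (by norm_num)
    · exact absurd h1 (by norm_num)
    · exact absurd h1 (by norm_num)
    · exact corW_cert (G1 := gB1q0) (G2 := gB3q2) (Ga := gB6q2) (Gb := gB7q2) (D1 := dB1q0) (D2 := dB3q2) (Da := dB6q2) (Db := dB7q2) cB022R_ok B hρ hen (gatB10 x) (gatB32 x) (fun h => absurd h (by decide)) (fun _ => gatB72 x) (datB10 x) (datB32 x) (fun h => absurd h (by decide)) (fun _ => datB72 x) hd hx hx' CW.B022R_136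
  · intro ρ a B hρ hd i h1 h2
    fin_cases i
    · exact absurd h1 (by norm_num)
    · exact absurd h1 (by norm_num)
    · exact absurd h1 (by norm_num)
    · exact absurd h1 (by norm_num)
    · exact absurd h1 (by norm_num)
    · exact absurd h1 (by norm_num)
    · exact corT_cert (G1 := gB1q0) (G2 := gB3q2) (Ga := gB6q2) (Gb := gB7q2) cB022R_ok B hρ (gatB10 x) (gatB32 x) (fun h => absurd h (by decide)) (fun _ => gatB72 x) hd hx hx' CG.B022R_136

theorem altB_B022R_14 {κ x : ℝ} (hκ : κ * h0 = ken x) (hx : ((587336777 : ℕ) : ℝ) / S ≤ x) (hx' : x ≤ (((587336777 : ℕ) : ℝ) + (62277027 : ℕ)) / S) :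
    AltEB 3 κ (eng.v x) (3 / 40) (tnt (h0 * x) (3 / 10)) PP tK tL tC pcB (scP esg pd) [⟨0, 0, 0, 67108864⟩, ⟨1, 1, 0, 67108864⟩, ⟨2, 1, 0, 67108864⟩] 0 2 2 1 4 (sgb true) (sgb false) x := by
  have X : XR 67108864 x := XR.of hx hx' (by norm_num) (by norm_num) (by norm_num) (by norm_num)
  have hen : 0 < eng.v x := en_pos X.x0.le
  refine CornW.altB (C := cB022R) (j := (1 : Fin 8)) (k := (4 : Fin 8)) (Ef := esg) (pd := pd) (o := 3 / 40)
    (cornW_of (C := cB022R) (C0 := c0B) (En := eng) (mo := mog) (j := (1 : Fin 8)) (k := (4 : Fin 8)) (lo := 7) (hi := 7) (W := 67108864) (N0 := 3) cB022R_q (sideB hx hx') gokB (pinU hx hx') dokB X (by norm_num) (by norm_num) (l := (7 : Fin 8)) rfl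
      (gatB10 x) (gatB42 x) (gatB72 x) (datB10 x) (datB42 x) (datB72 x) ?_)
    (cornS_of (C := cB022R) (C0 := c0B) (j := (1 : Fin 8)) (k := (4 : Fin 8)) (lo := 7) (hi := 7) (W := 67108864) (N0 := 3) cB022R_q (sideB hx hx') gokB X (by norm_num) (by norm_num) (l := (7 : Fin 8)) rfl
      (gatB10 x) (gatB42 x) (gatB72 x) ?_)
    (thU (pinU hx hx')) rfl hκ (fun j q y => tC_eq j q y x) (esg_rng X.x0.le (by linarith [X.b, X.p0])).1 (mo_v x) le_rfl le_rfl
  · intro ρ a B hρ hd i h1 h2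
    fin_cases i
    · exact absurd h1 (by norm_num)
    · exact absurd h1 (by norm_num)
    · exact absurd h1 (by norm_num)
    · exact absurd h1 (by norm_num)
    · exact absurd h1 (by norm_num)
    · exact absurd h1 (by norm_num)
    · exact corW_cert (G1 := gB1q0) (G2 := gB4q2) (Ga := gB6q2) (Gb := gB7q2) (D1 := dB1q0) (D2 := dB4q2) (Da := dB6q2) (Db := dB7q2) cB022R_ok B hρ hen (gatB10 x) (gatB42 x) (fun h => absurd h (by decide)) (fun _ => gatB72 x) (datB10 x) (datB42 x) (fun h => absurd h (by decide)) (fun _ => datB72 x) hd hx hx' CW.B022R_146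
  · intro ρ a B hρ hd i h1 h2
    fin_cases i
    · exact absurd h1 (by norm_num)
    · exact absurd h1 (by norm_num)
    · exact absurd h1 (by norm_num)
    · exact absurd h1 (by norm_num)
    · exact absurd h1 (by norm_num)
    · exact absurd h1 (by norm_num)
    · exact corT_cert (G1 := gB1q0) (G2 := gB4q2) (Ga := gB6q2) (Gb := gB7q2) cB022R_ok B hρ (gatB10 x) (gatB42 x) (fun h => absurd h (by decide)) (fun _ => gatB72 x) hd hx hx' CG.B022R_146

theorem altB_B022R_20 {κ x : ℝ} (hκ : κ * h0 = ken x) (hx : ((587336777 : ℕ) : ℝ) / S ≤ x) (hx' : x ≤ (((587336777 : ℕ) : ℝ) + (62277027 : ℕ)) / S) :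
    AltEB 3 κ (eng.v x) (3 / 40) (tnt (h0 * x) (3 / 10)) PP tK tL tC pcB (scP esg pd) [⟨0, 0, 0, 67108864⟩, ⟨1, 1, 0, 67108864⟩, ⟨2, 1, 0, 67108864⟩] 0 2 2 2 0 (sgb true) (sgb false) x := by
  have X : XR 67108864 x := XR.of hx hx' (by norm_num) (by norm_num) (by norm_num) (by norm_num)
  have hen : 0 < eng.v x := en_pos X.x0.le
  refine CornW.altB (C := cB022R) (j := (2 : Fin 8)) (k := (0 : Fin 8)) (Ef := esg) (pd := pd) (o := 3 / 40)
    (cornW_of (C := cB022R) (C0 := c0B) (En := eng) (mo := mog) (j := (2 : Fin 8)) (k := (0 : Fin 8)) (lo := 7) (hi := 7) (W := 67108864) (N0 := 3) cB022R_q (sideB hx hx') gokB (pinU hx hx') dokB X (by norm_num) (by norm_num) (l := (7 : Fin 8)) rfl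
      (gatB20 x) (gatB02 x) (gatB72 x) (datB20 x) (datB02 x) (datB72 x) ?_)
    (cornS_of (C := cB022R) (C0 := c0B) (j := (2 : Fin 8)) (k := (0 : Fin 8)) (lo := 7) (hi := 7) (W := 67108864) (N0 := 3) cB022R_q (sideB hx hx') gokB X (by norm_num) (by norm_num) (l := (7 : Fin 8)) rfl
      (gatB20 x) (gatB02 x) (gatB72 x) ?_)
    (thU (pinU hx hx')) rfl hκ (fun j q y => tC_eq j q y x) (esg_rng X.x0.le (by linarith [X.b, X.p0])).1 (mo_v x) le_rfl le_rfl
  · intro ρ a B hρ hd i h1 h2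
    fin_cases i
    · exact absurd h1 (by norm_num)
    · exact absurd h1 (by norm_num)
    · exact absurd h1 (by norm_num)
    · exact absurd h1 (by norm_num)
    · exact absurd h1 (by norm_num)
    · exact absurd h1 (by norm_num)
    · exact corW_cert (G1 := gB2q0) (G2 := gB0q2) (Ga := gB6q2) (Gb := gB7q2) (D1 := dB2q0) (D2 := dB0q2) (Da := dB6q2) (Db := dB7q2) cB022R_ok B hρ hen (gatB20 x) (gatB02 x) (fun h => absurd h (by decide)) (fun _ => gatB72 x) (datB20 x) (datB02 x) (fun h => absurd h (by decide)) (fun _ => datB72 x) hd hx hx' CW.B022R_206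
  · intro ρ a B hρ hd i h1 h2
    fin_cases i
    · exact absurd h1 (by norm_num)
    · exact absurd h1 (by norm_num)
    · exact absurd h1 (by norm_num)
    · exact absurd h1 (by norm_num)
    · exact absurd h1 (by norm_num)
    · exact absurd h1 (by norm_num)
    · exact corT_cert (G1 := gB2q0) (G2 := gB0q2) (Ga := gB6q2) (Gb := gB7q2) cB022R_ok B hρ (gatB20 x) (gatB02 x) (fun h => absurd h (by decide)) (fun _ => gatB72 x) hd hx hx' CG.B022R_206

end Pool.Agent.Strip051.G.I5470_6050.Tab
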