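import Pool.Agent.Strip051.G.I5470_6050.Gn
import Pool.Agent.Strip051.PB.Corns
import Pool.Agent.Strip051.PB.CornW

/-! # Certificates of the aligned corners (generated) -/

set_option linter.all false

namespace Pool.Agent.Strip051.G.I5470_6050.Tab.CW

open Pool.Agent.Strip051.PB

def B202E_241 :
    ∃ t, chk3 (onCell 0 67108864 0 1073741824 587336777 62277027 (corW 3 c0B eng mog cB202E gB2q2 gB4q2 gB1q0 gB2q0 dB2q2 dB4q2 dB1q0 dB2q0 true true)) t 1 1 1 = true :=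
  ⟨(T.l 1), by decide +kernel⟩

def B202E_242 :
    ∃ t, chk3 (onCell 0 67108864 0 1073741824 587336777 62277027 (corW 3 c0B eng mog cB202E gB2q2 gB4q2 gB2q0 gB3q0 dB2q2 dB4q2 dB2q0 dB3q0 true true)) t 1 1 1 = true :=
  ⟨(T.l 1), by decide +kernel⟩

def B202E_243 :
    ∃ t, chk3 (onCell 0 67108864 0 1073741824 587336777 62277027 (corW 3 c0B eng mog cB202E gB2q2 gB4q2 gB3q0 gB4q0 dB2q2 dB4q2 dB3q0 dB4q0 true true)) t 1 1 1 = true :=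
  ⟨(T.l 1), by decide +kernel⟩

def B202E_244 :
    ∃ t, chk3 (onCell 0 67108864 0 1073741824 587336777 62277027 (corW 3 c0B eng mog cB202E gB2q2 gB4q2 gB4q0 gB5q0 dB2q2 dB4q2 dB4q0 dB5q0 true false)) t 1 1 1 = true :=
  ⟨(T.l 1), by decide +kernel⟩

def B202E_300 :
    ∃ t, chk3 (onCell 0 67108864 0 1073741824 587336777 62277027 (corW 3 c0B eng mog cB202E gB3q2 gB0q2 gB0q0 gB1q0 dB3q2 dB0q2 dB0q0 dB1q0 true true)) t 1 1 1 = true :=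
  ⟨(T.l 1), by decide +kernel⟩

def B202E_301 :
    ∃ t, chk3 (onCell 0 67108864 0 1073741824 587336777 62277027 (corW 3 c0B eng mog cB202E gB3q2 gB0q2 gB1q0 gB2q0 dB3q2 dB0q2 dB1q0 dB2q0 true true)) t 1 1 1 = true :=
  ⟨(T.l 1), by decide +kernel⟩

def B202E_302 :
    ∃ t, chk3 (onCell 0 67108864 0 1073741824 587336777 62277027 (corW 3 c0B eng mog cB202E gB3q2 gB0q2 gB2q0 gB3q0 dB3q2 dB0q2 dB2q0 dB3q0 true true)) t 1 1 1 = true :=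
  ⟨(T.l 1), by decide +kernel⟩

def B202E_303 :
    ∃ t, chk3 (onCell 0 67108864 0 1073741824 587336777 62277027 (corW 3 c0B eng mog cB202E gB3q2 gB0q2 gB3q0 gB4q0 dB3q2 dB0q2 dB3q0 dB4q0 true true)) t 1 1 1 = true :=
  ⟨(T.l 1), by decide +kernel⟩

def B202E_304 :
    ∃ t, chk3 (onCell 0 67108864 0 1073741824 587336777 62277027 (corW 3 c0B eng mog cB202E gB3q2 gB0q2 gB4q0 gB5q0 dB3q2 dB0q2 dB4q0 dB5q0 true false)) t 1 1 1 = true :=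
  ⟨(T.l 1), by decide +kernel⟩

def B202E_310 :
    ∃ t, chk3 (onCell 0 67108864 0 1073741824 587336777 62277027 (corW 3 c0B eng mog cB202E gB3q2 gB1q2 gB0q0 gB1q0 dB3q2 dB1q2 dB0q0 dB1q0 true true)) t 1 1 1 = true :=
  ⟨(T.l 1), by decide +kernel⟩

def B202E_311 :
    ∃ t, chk3 (onCell 0 67108864 0 1073741824 587336777 62277027 (corW 3 c0B eng mog cB202E gB3q2 gB1q2 gB1q0 gB2q0 dB3q2 dB1q2 dB1q0 dB2q0 true true)) t 1 1 1 = true :=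
  ⟨(T.l 1), by decide +kernel⟩

def B202E_312 :
    ∃ t, chk3 (onCell 0 67108864 0 1073741824 587336777 62277027 (corW 3 c0B eng mog cB202E gB3q2 gB1q2 gB2q0 gB3q0 dB3q2 dB1q2 dB2q0 dB3q0 true true)) t 1 1 1 = true :=
  ⟨(T.l 1), by decide +kernel⟩

def B202E_313 :
    ∃ t, chk3 (onCell 0 67108864 0 1073741824 587336777 62277027 (corW 3 c0B eng mog cB202E gB3q2 gB1q2 gB3q0 gB4q0 dB3q2 dB1q2 dB3q0 dB4q0 true true)) t 1 1 1 = true :=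
  ⟨(T.l 1), by decide +kernel⟩

def B202E_314 :
    ∃ t, chk3 (onCell 0 67108864 0 1073741824 587336777 62277027 (corW 3 c0B eng mog cB202E gB3q2 gB1q2 gB4q0 gB5q0 dB3q2 dB1q2 dB4q0 dB5q0 true false)) t 1 1 1 = true :=
  ⟨(T.l 1), by decide +kernel⟩

def B202E_320 :
    ∃ t, chk3 (onCell 0 67108864 0 1073741824 587336777 62277027 (corW 3 c0B eng mog cB202E gB3q2 gB2q2 gB0q0 gB1q0 dB3q2 dB2q2 dB0q0 dB1q0 true true)) t 1 1 1 = true :=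
  ⟨(T.l 1), by decide +kernel⟩

def B202E_321 :
    ∃ t, chk3 (onCell 0 67108864 0 1073741824 587336777 62277027 (corW 3 c0B eng mog cB202E gB3q2 gB2q2 gB1q0 gB2q0 dB3q2 dB2q2 dB1q0 dB2q0 true true)) t 1 1 1 = true :=
  ⟨(T.l 1), by decide +kernel⟩

def B202E_322 :
    ∃ t, chk3 (onCell 0 67108864 0 1073741824 587336777 62277027 (corW 3 c0B eng mog cB202E gB3q2 gB2q2 gB2q0 gB3q0 dB3q2 dB2q2 dB2q0 dB3q0 true true)) t 1 1 1 = true :=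
  ⟨(T.l 1), by decide +kernel⟩

def B202E_323 :
    ∃ t, chk3 (onCell 0 67108864 0 1073741824 587336777 62277027 (corW 3 c0B eng mog cB202E gB3q2 gB2q2 gB3q0 gB4q0 dB3q2 dB2q2 dB3q0 dB4q0 true true)) t 1 1 1 = true :=
  ⟨(T.l 1), by decide +kernel⟩

def B202E_324 :
    ∃ t, chk3 (onCell 0 67108864 0 1073741824 587336777 62277027 (corW 3 c0B eng mog cB202E gB3q2 gB2q2 gB4q0 gB5q0 dB3q2 dB2q2 dB4q0 dB5q0 true false)) t 1 1 1 = true :=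
  ⟨(T.l 1), by decide +kernel⟩

def B202E_330 :
    ∃ t, chk3 (onCell 0 67108864 0 1073741824 587336777 62277027 (corW 3 c0B eng mog cB202E gB3q2 gB3q2 gB0q0 gB1q0 dB3q2 dB3q2 dB0q0 dB1q0 true true)) t 1 1 1 = true :=
  ⟨(T.l 1), by decide +kernel⟩

def B202E_331 :
    ∃ t, chk3 (onCell 0 67108864 0 1073741824 587336777 62277027 (corW 3 c0B eng mog cB202E gB3q2 gB3q2 gB1q0 gB2q0 dB3q2 dB3q2 dB1q0 dB2q0 true true)) t 1 1 1 = true :=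
  ⟨(T.l 1), by decide +kernel⟩

def B202E_332 :
    ∃ t, chk3 (onCell 0 67108864 0 1073741824 587336777 62277027 (corW 3 c0B eng mog cB202E gB3q2 gB3q2 gB2q0 gB3q0 dB3q2 dB3q2 dB2q0 dB3q0 true true)) t 1 1 1 = true :=
  ⟨(T.l 1), by decide +kernel⟩

def B202E_333 :
    ∃ t, chk3 (onCell 0 67108864 0 1073741824 587336777 62277027 (corW 3 c0B eng mog cB202E gB3q2 gB3q2 gB3q0 gB4q0 dB3q2 dB3q2 dB3q0 dB4q0 true true)) t 1 1 1 = true :=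
  ⟨(T.l 1), by decide +kernel⟩

def B202E_334 :
    ∃ t, chk3 (onCell 0 67108864 0 1073741824 587336777 62277027 (corW 3 c0B eng mog cB202E gB3q2 gB3q2 gB4q0 gB5q0 dB3q2 dB3q2 dB4q0 dB5q0 true false)) t 1 1 1 = true :=
  ⟨(T.l 1), by decide +kernel⟩

def B202E_340 :
    ∃ t, chk3 (onCell 0 67108864 0 1073741824 587336777 62277027 (corW 3 c0B eng mog cB202E gB3q2 gB4q2 gB0q0 gB1q0 dB3q2 dB4q2 dB0q0 dB1q0 true true)) t 1 1 1 = true :=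
  ⟨(T.l 1), by decide +kernel⟩

def B202E_341 :
    ∃ t, chk3 (onCell 0 67108864 0 1073741824 587336777 62277027 (corW 3 c0B eng mog cB202E gB3q2 gB4q2 gB1q0 gB2q0 dB3q2 dB4q2 dB1q0 dB2q0 true true)) t 1 1 1 = true :=
  ⟨(T.l 1), by decide +kernel⟩

def B202E_342 :
    ∃ t, chk3 (onCell 0 67108864 0 1073741824 587336777 62277027 (corW 3 c0B eng mog cB202E gB3q2 gB4q2 gB2q0 gB3q0 dB3q2 dB4q2 dB2q0 dB3q0 true true)) t 1 1 1 = true :=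
  ⟨(T.l 1), by decide +kernel⟩

def B202E_343 :
    ∃ t, chk3 (onCell 0 67108864 0 1073741824 587336777 62277027 (corW 3 c0B eng mog cB202E gB3q2 gB4q2 gB3q0 gB4q0 dB3q2 dB4q2 dB3q0 dB4q0 true true)) t 1 1 1 = true :=
  ⟨(T.l 1), by decide +kernel⟩

def B202E_344 :
    ∃ t, chk3 (onCell 0 67108864 0 1073741824 587336777 62277027 (corW 3 c0B eng mog cB202E gB3q2 gB4q2 gB4q0 gB5q0 dB3q2 dB4q2 dB4q0 dB5q0 true false)) t 1 1 1 = true :=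
  ⟨(T.l 1), by decide +kernel⟩

def B202E_400 :
    ∃ t, chk3 (onCell 0 67108864 0 1073741824 587336777 62277027 (corW 3 c0B eng mog cB202E gB4q2 gB0q2 gB0q0 gB1q0 dB4q2 dB0q2 dB0q0 dB1q0 true true)) t 1 1 1 = true :=
  ⟨(T.l 1), by decide +kernel⟩

def B202E_401 :
    ∃ t, chk3 (onCell 0 67108864 0 1073741824 587336777 62277027 (corW 3 c0B eng mog cB202E gB4q2 gB0q2 gB1q0 gB2q0 dB4q2 dB0q2 dB1q0 dB2q0 true true)) t 1 1 1 = true :=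
  ⟨(T.l 1), by decide +kernel⟩

def B202E_402 :
    ∃ t, chk3 (onCell 0 67108864 0 1073741824 587336777 62277027 (corW 3 c0B eng mog cB202E gB4q2 gB0q2 gB2q0 gB3q0 dB4q2 dB0q2 dB2q0 dB3q0 true true)) t 1 1 1 = true :=
  ⟨(T.l 1), by decide +kernel⟩

def B202E_403 :
    ∃ t, chk3 (onCell 0 67108864 0 1073741824 587336777 62277027 (corW 3 c0B eng mog cB202E gB4q2 gB0q2 gB3q0 gB4q0 dB4q2 dB0q2 dB3q0 dB4q0 true true)) t 1 1 1 = true :=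
  ⟨(T.l 1), by decide +kernel⟩

def B202E_404 :
    ∃ t, chk3 (onCell 0 67108864 0 1073741824 587336777 62277027 (corW 3 c0B eng mog cB202E gB4q2 gB0q2 gB4q0 gB5q0 dB4q2 dB0q2 dB4q0 dB5q0 true false)) t 1 1 1 = true :=
  ⟨(T.l 1), by decide +kernel⟩

def B202E_410 :
    ∃ t, chk3 (onCell 0 67108864 0 1073741824 587336777 62277027 (corW 3 c0B eng mog cB202E gB4q2 gB1q2 gB0q0 gB1q0 dB4q2 dB1q2 dB0q0 dB1q0 true true)) t 1 1 1 = true :=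
  ⟨(T.l 1), by decide +kernel⟩

def B202E_411 :
    ∃ t, chk3 (onCell 0 67108864 0 1073741824 587336777 62277027 (corW 3 c0B eng mog cB202E gB4q2 gB1q2 gB1q0 gB2q0 dB4q2 dB1q2 dB1q0 dB2q0 true true)) t 1 1 1 = true :=
  ⟨(T.l 1), by decide +kernel⟩

def B202E_412 :
    ∃ t, chk3 (onCell 0 67108864 0 1073741824 587336777 62277027 (corW 3 c0B eng mog cB202E gB4q2 gB1q2 gB2q0 gB3q0 dB4q2 dB1q2 dB2q0 dB3q0 true true)) t 1 1 1 = true :=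
  ⟨(T.l 1), by decide +kernel⟩

def B202E_413 :
    ∃ t, chk3 (onCell 0 67108864 0 1073741824 587336777 62277027 (corW 3 c0B eng mog cB202E gB4q2 gB1q2 gB3q0 gB4q0 dB4q2 dB1q2 dB3q0 dB4q0 true true)) t 1 1 1 = true :=
  ⟨(T.l 1), by decide +kernel⟩

def B202E_414 :
    ∃ t, chk3 (onCell 0 67108864 0 1073741824 587336777 62277027 (corW 3 c0B eng mog cB202E gB4q2 gB1q2 gB4q0 gB5q0 dB4q2 dB1q2 dB4q0 dB5q0 true false)) t 1 1 1 = true :=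
  ⟨(T.l 1), by decide +kernel⟩

def B202E_420 :
    ∃ t, chk3 (onCell 0 67108864 0 1073741824 587336777 62277027 (corW 3 c0B eng mog cB202E gB4q2 gB2q2 gB0q0 gB1q0 dB4q2 dB2q2 dB0q0 dB1q0 true true)) t 1 1 1 = true :=
  ⟨(T.l 1), by decide +kernel⟩

def B202E_421 :
    ∃ t, chk3 (onCell 0 67108864 0 1073741824 587336777 62277027 (corW 3 c0B eng mog cB202E gB4q2 gB2q2 gB1q0 gB2q0 dB4q2 dB2q2 dB1q0 dB2q0 true true)) t 1 1 1 = true :=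
  ⟨(T.l 1), by decide +kernel⟩

def B202E_422 :
    ∃ t, chk3 (onCell 0 67108864 0 1073741824 587336777 62277027 (corW 3 c0B eng mog cB202E gB4q2 gB2q2 gB2q0 gB3q0 dB4q2 dB2q2 dB2q0 dB3q0 true true)) t 1 1 1 = true :=
  ⟨(T.l 1), by decide +kernel⟩

def B202E_423 :
    ∃ t, chk3 (onCell 0 67108864 0 1073741824 587336777 62277027 (corW 3 c0B eng mog cB202E gB4q2 gB2q2 gB3q0 gB4q0 dB4q2 dB2q2 dB3q0 dB4q0 true true)) t 1 1 1 = true :=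
  ⟨(T.l 1), by decide +kernel⟩

def B202E_424 :
    ∃ t, chk3 (onCell 0 67108864 0 1073741824 587336777 62277027 (corW 3 c0B eng mog cB202E gB4q2 gB2q2 gB4q0 gB5q0 dB4q2 dB2q2 dB4q0 dB5q0 true false)) t 1 1 1 = true :=
  ⟨(T.l 1), by decide +kernel⟩

def B202E_430 :
    ∃ t, chk3 (onCell 0 67108864 0 1073741824 587336777 62277027 (corW 3 c0B eng mog cB202E gB4q2 gB3q2 gB0q0 gB1q0 dB4q2 dB3q2 dB0q0 dB1q0 true true)) t 1 1 1 = true :=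
  ⟨(T.l 1), by decide +kernel⟩

def B202E_431 :
    ∃ t, chk3 (onCell 0 67108864 0 1073741824 587336777 62277027 (corW 3 c0B eng mog cB202E gB4q2 gB3q2 gB1q0 gB2q0 dB4q2 dB3q2 dB1q0 dB2q0 true true)) t 1 1 1 = true :=
  ⟨(T.l 1), by decide +kernel⟩

def B202E_432 :
    ∃ t, chk3 (onCell 0 67108864 0 1073741824 587336777 62277027 (corW 3 c0B eng mog cB202E gB4q2 gB3q2 gB2q0 gB3q0 dB4q2 dB3q2 dB2q0 dB3q0 true true)) t 1 1 1 = true :=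
  ⟨(T.l 1), by decide +kernel⟩

def B202E_433 :
    ∃ t, chk3 (onCell 0 67108864 0 1073741824 587336777 62277027 (corW 3 c0B eng mog cB202E gB4q2 gB3q2 gB3q0 gB4q0 dB4q2 dB3q2 dB3q0 dB4q0 true true)) t 1 1 1 = true :=
  ⟨(T.l 1), by decide +kernel⟩

def B202E_434 :
    ∃ t, chk3 (onCell 0 67108864 0 1073741824 587336777 62277027 (corW 3 c0B eng mog cB202E gB4q2 gB3q2 gB4q0 gB5q0 dB4q2 dB3q2 dB4q0 dB5q0 true false)) t 1 1 1 = true :=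
  ⟨(T.l 1), by decide +kernel⟩

def B202E_440 :
    ∃ t, chk3 (onCell 0 67108864 0 1073741824 587336777 62277027 (corW 3 c0B eng mog cB202E gB4q2 gB4q2 gB0q0 gB1q0 dB4q2 dB4q2 dB0q0 dB1q0 true true)) t 1 1 1 = true :=
  ⟨(T.l 1), by decide +kernel⟩

def B202E_441 :
    ∃ t, chk3 (onCell 0 67108864 0 1073741824 587336777 62277027 (corW 3 c0B eng mog cB202E gB4q2 gB4q2 gB1q0 gB2q0 dB4q2 dB4q2 dB1q0 dB2q0 true true)) t 1 1 1 = true :=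
  ⟨(T.l 1), by decide +kernel⟩

def B202E_442 :
    ∃ t, chk3 (onCell 0 67108864 0 1073741824 587336777 62277027 (corW 3 c0B eng mog cB202E gB4q2 gB4q2 gB2q0 gB3q0 dB4q2 dB4q2 dB2q0 dB3q0 true true)) t 1 1 1 = true :=
  ⟨(T.l 1), by decide +kernel⟩

def B202E_443 :
    ∃ t, chk3 (onCell 0 67108864 0 1073741824 587336777 62277027 (corW 3 c0B eng mog cB202E gB4q2 gB4q2 gB3q0 gB4q0 dB4q2 dB4q2 dB3q0 dB4q0 true true)) t 1 1 1 = true :=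
  ⟨(T.l 1), by decide +kernel⟩

def B202E_444 :
    ∃ t, chk3 (onCell 0 67108864 0 1073741824 587336777 62277027 (corW 3 c0B eng mog cB202E gB4q2 gB4q2 gB4q0 gB5q0 dB4q2 dB4q2 dB4q0 dB5q0 true false)) t 1 1 1 = true :=
  ⟨(T.l 1), by decide +kernel⟩

def B202L_700 :
    ∃ t, chk3 (onCell 0 67108864 0 1073741824 587336777 62277027 (corW 3 c0B eng mog cB202L gB7q2 gB0q2 gB0q0 gB1q0 dB7q2 dB0q2 dB0q0 dB1q0 true true)) t 1 1 1 = true :=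
  ⟨(T.l 2), by decide +kernel⟩

def B202L_701 :
    ∃ t, chk3 (onCell 0 67108864 0 1073741824 587336777 62277027 (corW 3 c0B eng mog cB202L gB7q2 gB0q2 gB1q0 gB2q0 dB7q2 dB0q2 dB1q0 dB2q0 true true)) t 1 1 1 = true :=
  ⟨(T.l 2), by decide +kernel⟩

def B202L_702 :
    ∃ t, chk3 (onCell 0 67108864 0 1073741824 587336777 62277027 (corW 3 c0B eng mog cB202L gB7q2 gB0q2 gB2q0 gB3q0 dB7q2 dB0q2 dB2q0 dB3q0 true true)) t 1 1 1 = true :=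
  ⟨(T.l 2), by decide +kernel⟩

def B202L_703 :
    ∃ t, chk3 (onCell 0 67108864 0 1073741824 587336777 62277027 (corW 3 c0B eng mog cB202L gB7q2 gB0q2 gB3q0 gB4q0 dB7q2 dB0q2 dB3q0 dB4q0 true true)) t 1 1 1 = true :=
  ⟨(T.l 2), by decide +kernel⟩

def B202L_704 :
    ∃ t, chk3 (onCell 0 67108864 0 1073741824 587336777 62277027 (corW 3 c0B eng mog cB202L gB7q2 gB0q2 gB4q0 gB5q0 dB7q2 dB0q2 dB4q0 dB5q0 true false)) t 1 1 1 = true :=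
  ⟨(T.a (T.a (T.l 204) (T.l 204)) (T.a (T.l 204) (T.l 204))), by decide +kernel⟩

def B202L_710 :
    ∃ t, chk3 (onCell 0 67108864 0 1073741824 587336777 62277027 (corW 3 c0B eng mog cB202L gB7q2 gB1q2 gB0q0 gB1q0 dB7q2 dB1q2 dB0q0 dB1q0 true true)) t 1 1 1 = true :=
  ⟨(T.l 2), by decide +kernel⟩

def B202L_711 :
    ∃ t, chk3 (onCell 0 67108864 0 1073741824 587336777 62277027 (corW 3 c0B eng mog cB202L gB7q2 gB1q2 gB1q0 gB2q0 dB7q2 dB1q2 dB1q0 dB2q0 true true)) t 1 1 1 = true :=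
  ⟨(T.l 2), by decide +kernel⟩

def B202L_712 :
    ∃ t, chk3 (onCell 0 67108864 0 1073741824 587336777 62277027 (corW 3 c0B eng mog cB202L gB7q2 gB1q2 gB2q0 gB3q0 dB7q2 dB1q2 dB2q0 dB3q0 true true)) t 1 1 1 = true :=
  ⟨(T.l 2), by decide +kernel⟩

def B202L_713 :
    ∃ t, chk3 (onCell 0 67108864 0 1073741824 587336777 62277027 (corW 3 c0B eng mog cB202L gB7q2 gB1q2 gB3q0 gB4q0 dB7q2 dB1q2 dB3q0 dB4q0 true true)) t 1 1 1 = true :=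
  ⟨(T.l 2), by decide +kernel⟩

def B202L_714 :
    ∃ t, chk3 (onCell 0 67108864 0 1073741824 587336777 62277027 (corW 3 c0B eng mog cB202L gB7q2 gB1q2 gB4q0 gB5q0 dB7q2 dB1q2 dB4q0 dB5q0 true false)) t 1 1 1 = true :=
  ⟨(T.a (T.a (T.l 204) (T.l 204)) (T.b (T.l 204) (T.l 220))), by decide +kernel⟩

def B202L_720 :
    ∃ t, chk3 (onCell 0 67108864 0 1073741824 587336777 62277027 (corW 3 c0B eng mog cB202L gB7q2 gB2q2 gB0q0 gB1q0 dB7q2 dB2q2 dB0q0 dB1q0 true true)) t 1 1 1 = true :=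
  ⟨(T.l 2), by decide +kernel⟩

def B202L_721 :
    ∃ t, chk3 (onCell 0 67108864 0 1073741824 587336777 62277027 (corW 3 c0B eng mog cB202L gB7q2 gB2q2 gB1q0 gB2q0 dB7q2 dB2q2 dB1q0 dB2q0 true true)) t 1 1 1 = true :=
  ⟨(T.l 2), by decide +kernel⟩

def B202L_722 :
    ∃ t, chk3 (onCell 0 67108864 0 1073741824 587336777 62277027 (corW 3 c0B eng mog cB202L gB7q2 gB2q2 gB2q0 gB3q0 dB7q2 dB2q2 dB2q0 dB3q0 true true)) t 1 1 1 = true :=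
  ⟨(T.l 2), by decide +kernel⟩

def B202L_723 :
    ∃ t, chk3 (onCell 0 67108864 0 1073741824 587336777 62277027 (corW 3 c0B eng mog cB202L gB7q2 gB2q2 gB3q0 gB4q0 dB7q2 dB2q2 dB3q0 dB4q0 true true)) t 1 1 1 = true :=
  ⟨(T.b (T.a (T.a (T.l 204) (T.l 204)) (T.l 2)) (T.l 2)), by decide +kernel⟩

def B202L_724 :
    ∃ t, chk3 (onCell 0 67108864 0 1073741824 587336777 62277027 (corW 3 c0B eng mog cB202L gB7q2 gB2q2 gB4q0 gB5q0 dB7q2 dB2q2 dB4q0 dB5q0 true false)) t 1 1 1 = true :=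
  ⟨(T.a (T.a (T.l 204) (T.l 16)) (T.b (T.l 204) (T.l 220))), by decide +kernel⟩

def B202L_730 :
    ∃ t, chk3 (onCell 0 67108864 0 1073741824 587336777 62277027 (corW 3 c0B eng mog cB202L gB7q2 gB3q2 gB0q0 gB1q0 dB7q2 dB3q2 dB0q0 dB1q0 true true)) t 1 1 1 = true :=
  ⟨(T.l 2), by decide +kernel⟩

def B202L_731 :
    ∃ t, chk3 (onCell 0 67108864 0 1073741824 587336777 62277027 (corW 3 c0B eng mog cB202L gB7q2 gB3q2 gB1q0 gB2q0 dB7q2 dB3q2 dB1q0 dB2q0 true true)) t 1 1 1 = true :=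
  ⟨(T.l 2), by decide +kernel⟩

def B202L_732 :
    ∃ t, chk3 (onCell 0 67108864 0 1073741824 587336777 62277027 (corW 3 c0B eng mog cB202L gB7q2 gB3q2 gB2q0 gB3q0 dB7q2 dB3q2 dB2q0 dB3q0 true true)) t 1 1 1 = true :=
  ⟨(T.l 2), by decide +kernel⟩

def B202L_733 :
    ∃ t, chk3 (onCell 0 67108864 0 1073741824 587336777 62277027 (corW 3 c0B eng mog cB202L gB7q2 gB3q2 gB3q0 gB4q0 dB7q2 dB3q2 dB3q0 dB4q0 true true)) t 1 1 1 = true :=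
  ⟨(T.b (T.a (T.a (T.l 204) (T.l 204)) (T.l 204)) (T.b (T.l 2) (T.l 2))), by decide +kernel⟩

def B202L_734 :
    ∃ t, chk3 (onCell 0 67108864 0 1073741824 587336777 62277027 (corW 3 c0B eng mog cB202L gB7q2 gB3q2 gB4q0 gB5q0 dB7q2 dB3q2 dB4q0 dB5q0 true false)) t 1 1 1 = true :=
  ⟨(T.b (T.a (T.a (T.l 204) (T.l 204)) (T.l 204)) (T.a (T.a (T.l 204) (T.l 0)) (T.l 16))), by decide +kernel⟩

def B202L_740 :
    ∃ t, chk3 (onCell 0 67108864 0 1073741824 587336777 62277027 (corW 3 c0B eng mog cB202L gB7q2 gB4q2 gB0q0 gB1q0 dB7q2 dB4q2 dB0q0 dB1q0 true true)) t 1 1 1 = true :=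
  ⟨(T.b (T.b (T.l 2) (T.a (T.a (T.l 204) (T.l 2)) (T.l 2))) (T.b (T.a (T.a (T.l 204) (T.l 0)) (T.l 0)) (T.l 1))), by decide +kernel⟩

def B202L_741 :
    ∃ t, chk3 (onCell 0 67108864 0 1073741824 587336777 62277027 (corW 3 c0B eng mog cB202L gB7q2 gB4q2 gB1q0 gB2q0 dB7q2 dB4q2 dB1q0 dB2q0 true true)) t 1 1 1 = true :=
  ⟨(T.b (T.a (T.a (T.l 204) (T.l 204)) (T.l 204)) (T.b (T.a (T.a (T.l 0) (T.l 0)) (T.l 0)) (T.l 1))), by decide +kernel⟩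

def B202L_742 :
    ∃ t, chk3 (onCell 0 67108864 0 1073741824 587336777 62277027 (corW 3 c0B eng mog cB202L gB7q2 gB4q2 gB2q0 gB3q0 dB7q2 dB4q2 dB2q0 dB3q0 true true)) t 1 1 1 = true :=
  ⟨(T.b (T.a (T.l 1) (T.l 204)) (T.l 1)), by decide +kernel⟩

def B202L_743 :
    ∃ t, chk3 (onCell 0 67108864 0 1073741824 587336777 62277027 (corW 3 c0B eng mog cB202L gB7q2 gB4q2 gB3q0 gB4q0 dB7q2 dB4q2 dB3q0 dB4q0 true true)) t 1 1 1 = true :=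
  ⟨(T.l 1), by decide +kernel⟩

def B202L_744 :
    ∃ t, chk3 (onCell 0 67108864 0 1073741824 587336777 62277027 (corW 3 c0B eng mog cB202L gB7q2 gB4q2 gB4q0 gB5q0 dB7q2 dB4q2 dB4q0 dB5q0 true false)) t 1 1 1 = true :=
  ⟨(T.l 1), by decide +kernel⟩

def B202R_070_1_4_1 :
    ∃ t, chk3 (onCell 0 67108864 0 1073741824 587336777 62277027 (corW 3 c0B eng mog cB202R gB0q2 gB7q2 gB0q0 gB1q0 dB0q2 dB7q2 dB0q0 dB1q0 true true)) t 1 4 1 = true :=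
  ⟨(T.l 1), by decide +kernel⟩

def B202R_070_1_5_1 :
    ∃ t, chk3 (onCell 0 67108864 0 1073741824 587336777 62277027 (corW 3 c0B eng mog cB202R gB0q2 gB7q2 gB0q0 gB1q0 dB0q2 dB7q2 dB0q0 dB1q0 true true)) t 1 5 1 = true :=
  ⟨(T.b (T.b (T.l 1) (T.b (T.b (T.a (T.l 1) (T.b (T.l 1) (T.b (T.l 1) (T.b (T.l 1) (T.a (T.a (T.l 1) (T.a (T.l 1) (T.a (T.l 1) (T.a (T.l 1) (T.b (T.l 1) (T.b (T.l 1) (T.l 0))))))) (T.a (T.b (T.a (T.l 1) (T.a (T.l 1) (T.b (T.l 1) (T.l 0)))) (T.a (T.c (T.l 0) (T.c (T.l 0) (T.l 0))) (T.l 0))) (T.a (T.c (T.l 0) (T.c (T.l 0) (T.l 0))) (T.l 0)))))))) (T.a (T.b (T.b (T.a (T.a (T.l 1) (T.b (T.l 1) (T.b (T.l 1) (T.b (T.l 1) (T.a (T.a (T.l 1) (T.b (T.l 1) (T.l 0))) (T.c (T.l 0) (T.l 0))))))) (T.b (T.a (T.l 1) (T.a (T.l 1) (T.b (T.l 1) (T.b (T.l 1) (T.c (T.l 0) (T.c (T.l 0) (T.l 0))))))) (T.a (T.b (T.a (T.l 1) (T.b (T.l 1) (T.c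 (T.l 0) (T.l 0)))) (T.a (T.c (T.l 0) (T.c (T.l 0) (T.l 0))) (T.l 0))) (T.a (T.a (T.c (T.l 0) (T.c (T.l 0) (T.l 0))) (T.l 0)) (T.l 0))))) (T.a (T.a (T.b (T.b (T.a (T.a (T.l 1) (T.b (T.l 1) (T.b (T.l 1) (T.l 0)))) (T.b (T.a (T.l 1) (T.b (T.l 1) (T.l 0))) (T.c (T.l 0) (T.l 0)))) (T.a (T.c (T.l 0) (T.l 0)) (T.l 0))) (T.l 0)) (T.a (T.b (T.a (T.c (T.l 0) (T.l 0)) (T.l 0)) (T.l 0)) (T.l 0))) (T.c (T.l 0) (T.l 0)))) (T.a (T.l 0) (T.l 0))) (T.b (T.a (T.b (T.b (T.a (T.b (T.a (T.l 1) (T.a (T.l 1) (T.b (T.l 1) (T.l 0)))) (T.a (T.c (T.l 0) (T.c (T.l 0) (T.l 0))) (T.l 0))) (T.a (T.c (T.l 0) (T.c (T.l 0) (T.c (T.l 0) (T.l 0)))) (T.l 0))) (T.l 0)) (T.l 0)) (T.c (T.l 0) (T.l 0))) (T.l 0)))) (T.a (T.a (T.l 0) (T.l 0)) (T.a (T.l 0) (T.l 0))))) (T.b (T.a (T.l 0) (T.l 0)) (T.l 2))), by decide +kernel⟩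

def B202R_070_1_3_1 :
    ∃ t, chk3 (onCell 0 67108864 0 1073741824 587336777 62277027 (corW 3 c0B eng mog cB202R gB0q2 gB7q2 gB0q0 gB1q0 dB0q2 dB7q2 dB0q0 dB1q0 true true)) t 1 3 1 = true :=
  ⟨(T.l 2), by decide +kernel⟩

theorem B202R_070_1_2_1 :
    ∃ t, chk3 (onCell 0 67108864 0 1073741824 587336777 62277027 (corW 3 c0B eng mog cB202R gB0q2 gB7q2 gB0q0 gB1q0 dB0q2 dB7q2 dB0q0 dB1q0 true true)) t 1 2 1 = true :=
  ex3_b B202R_070_1_4_1 B202R_070_1_5_1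
theorem B202R_070 :
    ∃ t, chk3 (onCell 0 67108864 0 1073741824 587336777 62277027 (corW 3 c0B eng mog cB202R gB0q2 gB7q2 gB0q0 gB1q0 dB0q2 dB7q2 dB0q0 dB1q0 true true)) t 1 1 1 = true :=
  ex3_b B202R_070_1_2_1 B202R_070_1_3_1

def B202R_071 :
    ∃ t, chk3 (onCell 0 67108864 0 1073741824 587336777 62277027 (corW 3 c0B eng mog cB202R gB0q2 gB7q2 gB1q0 gB2q0 dB0q2 dB7q2 dB1q0 dB2q0 true true)) t 1 1 1 = true :=
  ⟨(T.b (T.b (T.l 1) (T.b (T.b (T.l 1) (T.a (T.l 1) (T.b (T.l 1) (T.a (T.l 0) (T.l 0))))) (T.b (T.a (T.l 0) (T.l 0)) (T.b (T.l 0) (T.a (T.l 2) (T.l 2)))))) (T.b (T.l 2) (T.l 2))), by decide +kernel⟩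

def B202R_072 :
    ∃ t, chk3 (onCell 0 67108864 0 1073741824 587336777 62277027 (corW 3 c0B eng mog cB202R gB0q2 gB7q2 gB2q0 gB3q0 dB0q2 dB7q2 dB2q0 dB3q0 true true)) t 1 1 1 = true :=
  ⟨(T.b (T.b (T.l 1) (T.b (T.l 1) (T.b (T.l 1) (T.a (T.l 204) (T.a (T.l 204) (T.l 0)))))) (T.b (T.a (T.l 0) (T.b (T.a (T.l 204) (T.l 0)) (T.l 2))) (T.l 2))), by decide +kernel⟩

def B202R_073 :
    ∃ t, chk3 (onCell 0 67108864 0 1073741824 587336777 62277027 (corW 3 c0B eng mog cB202R gB0q2 gB7q2 gB3q0 gB4q0 dB0q2 dB7q2 dB3q0 dB4q0 true true)) t 1 1 1 = true :=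
  ⟨(T.b (T.b (T.l 1) (T.b (T.l 1) (T.l 1))) (T.b (T.b (T.a (T.l 204) (T.a (T.l 204) (T.l 0))) (T.a (T.l 204) (T.l 2))) (T.l 2))), by decide +kernel⟩

def B202R_074 :
    ∃ t, chk3 (onCell 0 67108864 0 1073741824 587336777 62277027 (corW 3 c0B eng mog cB202R gB0q2 gB7q2 gB4q0 gB5q0 dB0q2 dB7q2 dB4q0 dB5q0 true false)) t 1 1 1 = true :=
  ⟨(T.b (T.l 1) (T.b (T.a (T.l 0) (T.b (T.a (T.l 0) (T.l 0)) (T.a (T.l 0) (T.l 0)))) (T.b (T.a (T.l 204) (T.a (T.l 204) (T.l 204))) (T.a (T.a (T.l 204) (T.l 16)) (T.a (T.l 204) (T.l 204)))))), by decide +kernel⟩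

def B202R_170 :
    ∃ t, chk3 (onCell 0 67108864 0 1073741824 587336777 62277027 (corW 3 c0B eng mog cB202R gB1q2 gB7q2 gB0q0 gB1q0 dB1q2 dB7q2 dB0q0 dB1q0 true true)) t 1 1 1 = true :=
  ⟨(T.b (T.b (T.l 1) (T.b (T.b (T.l 1) (T.b (T.l 1) (T.b (T.b (T.l 1) (T.a (T.a (T.l 1) (T.b (T.l 1) (T.c (T.l 204) (T.l 204)))) (T.a (T.b (T.l 1) (T.l 204)) (T.l 204)))) (T.a (T.a (T.l 0) (T.l 0)) (T.l 0))))) (T.b (T.a (T.a (T.l 0) (T.l 0)) (T.l 0)) (T.l 2)))) (T.l 2)), by decide +kernel⟩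

def B202R_171 :
    ∃ t, chk3 (onCell 0 67108864 0 1073741824 587336777 62277027 (corW 3 c0B eng mog cB202R gB1q2 gB7q2 gB1q0 gB2q0 dB1q2 dB7q2 dB1q0 dB2q0 true true)) t 1 1 1 = true :=
  ⟨(T.b (T.b (T.l 1) (T.b (T.l 1) (T.b (T.a (T.a (T.l 0) (T.l 0)) (T.l 0)) (T.b (T.l 0) (T.b (T.l 204) (T.a (T.l 204) (T.l 0))))))) (T.b (T.a (T.l 0) (T.b (T.l 2) (T.l 2))) (T.l 2))), by decide +kernel⟩

def B202R_172 :
    ∃ t, chk3 (onCell 0 67108864 0 1073741824 587336777 62277027 (corW 3 c0B eng mog cB202R gB1q2 gB7q2 gB2q0 gB3q0 dB1q2 dB7q2 dB2q0 dB3q0 true true)) t 1 1 1 = true :=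
  ⟨(T.b (T.b (T.l 1) (T.b (T.l 1) (T.b (T.l 1) (T.a (T.l 0) (T.a (T.l 204) (T.l 0)))))) (T.b (T.a (T.l 0) (T.b (T.a (T.l 204) (T.l 16)) (T.l 2))) (T.l 2))), by decide +kernel⟩

def B202R_173 :
    ∃ t, chk3 (onCell 0 67108864 0 1073741824 587336777 62277027 (corW 3 c0B eng mog cB202R gB1q2 gB7q2 gB3q0 gB4q0 dB1q2 dB7q2 dB3q0 dB4q0 true true)) t 1 1 1 = true :=
  ⟨(T.b (T.l 1) (T.b (T.b (T.a (T.l 204) (T.a (T.l 204) (T.l 0))) (T.a (T.l 204) (T.a (T.l 0) (T.l 0)))) (T.l 2))), by decide +kernel⟩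

def B202R_174 :
    ∃ t, chk3 (onCell 0 67108864 0 1073741824 587336777 62277027 (corW 3 c0B eng mog cB202R gB1q2 gB7q2 gB4q0 gB5q0 dB1q2 dB7q2 dB4q0 dB5q0 true false)) t 1 1 1 = true :=
  ⟨(T.b (T.l 1) (T.b (T.b (T.l 1) (T.a (T.l 204) (T.a (T.l 0) (T.l 0)))) (T.b (T.a (T.l 204) (T.a (T.l 204) (T.l 204))) (T.a (T.a (T.l 204) (T.b (T.l 204) (T.l 204))) (T.a (T.l 204) (T.l 204)))))), by decide +kernel⟩

def B202R_270 :
    ∃ t, chk3 (onCell 0 67108864 0 1073741824 587336777 62277027 (corW 3 c0B eng mog cB202R gB2q2 gB7q2 gB0q0 gB1q0 dB2q2 dB7q2 dB0q0 dB1q0 true true)) t 1 1 1 = true :=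
  ⟨(T.b (T.b (T.l 1) (T.b (T.l 1) (T.b (T.b (T.l 1) (T.b (T.l 1) (T.a (T.a (T.l 1) (T.l 0)) (T.l 0)))) (T.b (T.a (T.l 0) (T.l 0)) (T.b (T.l 0) (T.a (T.l 0) (T.a (T.l 204) (T.l 2)))))))) (T.b (T.b (T.a (T.l 0) (T.l 2)) (T.l 2)) (T.l 2))), by decide +kernel⟩

def B202R_271 :
    ∃ t, chk3 (onCell 0 67108864 0 1073741824 587336777 62277027 (corW 3 c0B eng mog cB202R gB2q2 gB7q2 gB1q0 gB2q0 dB2q2 dB7q2 dB1q0 dB2q0 true true)) t 1 1 1 = true :=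
  ⟨(T.b (T.b (T.l 1) (T.b (T.l 1) (T.b (T.l 1) (T.b (T.l 1) (T.a (T.l 0) (T.a (T.l 0) (T.l 0))))))) (T.b (T.a (T.l 0) (T.b (T.a (T.l 0) (T.b (T.l 0) (T.l 0))) (T.l 2))) (T.l 2))), by decide +kernel⟩

def B202R_272 :
    ∃ t, chk3 (onCell 0 67108864 0 1073741824 587336777 62277027 (corW 3 c0B eng mog cB202R gB2q2 gB7q2 gB2q0 gB3q0 dB2q2 dB7q2 dB2q0 dB3q0 true true)) t 1 1 1 = true :=
  ⟨(T.b (T.l 1) (T.b (T.b (T.a (T.l 0) (T.a (T.l 0) (T.b (T.l 0) (T.l 0)))) (T.a (T.l 204) (T.a (T.l 0) (T.l 2)))) (T.l 2))), by decide +kernel⟩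

def B202R_273 :
    ∃ t, chk3 (onCell 0 67108864 0 1073741824 587336777 62277027 (corW 3 c0B eng mog cB202R gB2q2 gB7q2 gB3q0 gB4q0 dB2q2 dB7q2 dB3q0 dB4q0 true true)) t 1 1 1 = true :=
  ⟨(T.b (T.l 1) (T.b (T.a (T.l 0) (T.b (T.a (T.l 0) (T.b (T.l 1) (T.l 0))) (T.a (T.l 0) (T.l 0)))) (T.b (T.l 2) (T.l 2)))), by decide +kernel⟩

def B202R_274 :
    ∃ t, chk3 (onCell 0 67108864 0 1073741824 587336777 62277027 (corW 3 c0B eng mog cB202R gB2q2 gB7q2 gB4q0 gB5q0 dB2q2 dB7q2 dB4q0 dB5q0 true false)) t 1 1 1 = true :=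
  ⟨(T.b (T.l 1) (T.b (T.b (T.l 1) (T.a (T.l 0) (T.a (T.l 0) (T.l 0)))) (T.b (T.a (T.l 204) (T.a (T.l 0) (T.l 204))) (T.a (T.a (T.l 204) (T.b (T.l 204) (T.l 204))) (T.a (T.l 204) (T.l 204)))))), by decide +kernel⟩

def B202R_370 :
    ∃ t, chk3 (onCell 0 67108864 0 1073741824 587336777 62277027 (corW 3 c0B eng mog cB202R gB3q2 gB7q2 gB0q0 gB1q0 dB3q2 dB7q2 dB0q0 dB1q0 true true)) t 1 1 1 = true :=
  ⟨(T.b (T.l 1) (T.b (T.b (T.b (T.b (T.l 1) (T.a (T.l 816) (T.a (T.l 816) (T.l 0)))) (T.a (T.l 0) (T.a (T.l 0) (T.l 0)))) (T.a (T.l 0) (T.l 2))) (T.l 2))), by decide +kernel⟩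

def B202R_371 :
    ∃ t, chk3 (onCell 0 67108864 0 1073741824 587336777 62277027 (corW 3 c0B eng mog cB202R gB3q2 gB7q2 gB1q0 gB2q0 dB3q2 dB7q2 dB1q0 dB2q0 true true)) t 1 1 1 = true :=
  ⟨(T.b (T.l 1) (T.b (T.b (T.b (T.l 1) (T.a (T.l 0) (T.a (T.l 0) (T.l 0)))) (T.a (T.l 0) (T.a (T.b (T.l 0) (T.l 2)) (T.l 0)))) (T.l 2))), by decide +kernel⟩

def B202R_372 :
    ∃ t, chk3 (onCell 0 67108864 0 1073741824 587336777 62277027 (corW 3 c0B eng mog cB202R gB3q2 gB7q2 gB2q0 gB3q0 dB3q2 dB7q2 dB2q0 dB3q0 true true)) t 1 1 1 = true :=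
  ⟨(T.b (T.l 1) (T.b (T.b (T.l 1) (T.a (T.l 0) (T.a (T.b (T.l 0) (T.l 0)) (T.l 0)))) (T.b (T.a (T.l 0) (T.l 2)) (T.l 2)))), by decide +kernel⟩

def B202R_373 :
    ∃ t, chk3 (onCell 0 67108864 0 1073741824 587336777 62277027 (corW 3 c0B eng mog cB202R gB3q2 gB7q2 gB3q0 gB4q0 dB3q2 dB7q2 dB3q0 dB4q0 true true)) t 1 1 1 = true :=
  ⟨(T.b (T.l 1) (T.b (T.b (T.l 1) (T.a (T.l 0) (T.a (T.b (T.l 1) (T.l 0)) (T.l 0)))) (T.b (T.a (T.l 0) (T.a (T.l 0) (T.l 0))) (T.l 2)))), by decide +kernel⟩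

def B202R_374 :
    ∃ t, chk3 (onCell 0 67108864 0 1073741824 587336777 62277027 (corW 3 c0B eng mog cB202R gB3q2 gB7q2 gB4q0 gB5q0 dB3q2 dB7q2 dB4q0 dB5q0 true false)) t 1 1 1 = true :=
  ⟨(T.b (T.l 1) (T.b (T.l 1) (T.b (T.a (T.l 0) (T.a (T.l 0) (T.l 0))) (T.a (T.a (T.l 204) (T.b (T.l 204) (T.l 0))) (T.a (T.l 0) (T.l 204)))))), by decide +kernel⟩

def B202R_470 :
    ∃ t, chk3 (onCell 0 67108864 0 1073741824 587336777 62277027 (corW 3 c0B eng mog cB202R gB4q2 gB7q2 gB0q0 gB1q0 dB4q2 dB7q2 dB0q0 dB1q0 true true)) t 1 1 1 = true :=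
  ⟨(T.l 1), by decide +kernel⟩

def B202R_471 :
    ∃ t, chk3 (onCell 0 67108864 0 1073741824 587336777 62277027 (corW 3 c0B eng mog cB202R gB4q2 gB7q2 gB1q0 gB2q0 dB4q2 dB7q2 dB1q0 dB2q0 true true)) t 1 1 1 = true :=
  ⟨(T.l 1), by decide +kernel⟩

def B202R_472 :
    ∃ t, chk3 (onCell 0 67108864 0 1073741824 587336777 62277027 (corW 3 c0B eng mog cB202R gB4q2 gB7q2 gB2q0 gB3q0 dB4q2 dB7q2 dB2q0 dB3q0 true true)) t 1 1 1 = true :=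
  ⟨(T.l 1), by decide +kernel⟩

def B202R_473 :
    ∃ t, chk3 (onCell 0 67108864 0 1073741824 587336777 62277027 (corW 3 c0B eng mog cB202R gB4q2 gB7q2 gB3q0 gB4q0 dB4q2 dB7q2 dB3q0 dB4q0 true true)) t 1 1 1 = true :=
  ⟨(T.l 1), by decide +kernel⟩

def B202R_474 :
    ∃ t, chk3 (onCell 0 67108864 0 1073741824 587336777 62277027 (corW 3 c0B eng mog cB202R gB4q2 gB7q2 gB4q0 gB5q0 dB4q2 dB7q2 dB4q0 dB5q0 true false)) t 1 1 1 = true :=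
  ⟨(T.l 1), by decide +kernel⟩

end Pool.Agent.Strip051.G.I5470_6050.Tab.CW
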