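import Pool.Agent.Strip051.G.I5470_6050.StH
import Pool.Agent.Strip051.G.I5470_6050.StF

/-! # Unit strips 26 (generated) -/

set_option linter.all false
set_option maxRecDepth 100000

namespace Pool.Agent.Strip051.G.I5470_6050.Tab.St.C

open Pool.Agent.Strip051.PB Pool.Agent.Strip051.PB.T Pool.Agent.StripNear Pool.Agent.Strip051.LC
open Pool.Agent.Strip051.G.I5470_6050.Tab Pool.Agent.Strip051.G.I5470_6050.Tab.St

noncomputable def cut_B07pp_123_s1 : Cut := Cut.of [[⟨4, 0, 0, 1449551462⟩], [⟨0, 1, 0, 67108864⟩, ⟨1, 1, 0, 67108864⟩, ⟨2, 2, 0, 16777216⟩]]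

noncomputable def xt_B07pp_123_s1 : Ext := strExt0 dd false true true .u0 .s2 .u2 .npn 1 2 3 rfl rfl gf2 vv ww kz ndB0q1 ndB7q3

noncomputable def f_B07pp_123_s1 : ℕ → ℕ → ℕ → ℕ → Bool := onCell 1073741824 536870912 0 1230186008 587336777 62277027
    (rowF 2 false true true .npn 1 2 3 (qsf 536870912 536870912 0 1230186008 2) ndB0q1 ndB7q3 pcB2 cut_B07pp_123_s1 xt_B07pp_123_s1)

def k0_B07pp_123_s1 : ∃ t, chk3 f_B07pp_123_s1 t 8 2 1 = true :=
  ⟨(b (b (a (l 14) (a (l 14) (a (l 14) (b (l 16763928) (b (l 16769584) (l 16782848)))))) (a (l 3) (b (a (l 14) (b (a (a (l 14) (b (b (l 14) (a (l 14) (l 16776256))) (b (a (l 14) (b (a (l 16776568) (l 16776392)) (a (b (l 16776728) (l 16776864)) (l 16776560)))) (a (l 1072779919) (b (a (l 1072711311) (b (l 16776760) (l 16776888))) (l 1072659599)))))) (b (a (b (l 16775064) (a (l 16775800) (l 16775288))) (l 16774168)) (a (b (a (l 16776208) (l 16775840)) (a (b (a (l 16776576) (l 16776384))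 (a (b (l 16776784) (l 1072565391)) (l 16779216))) (b (l 16776096) (a (l 16776368) (l 16776176))))) (b (l 16795800) (a (l 16775912) (l 16775528)))))) (a (a (l 3) (l 1072611983)) (b (a (b (a (l 1072506511) (b (a (b (l 16776536) (l 16776696)) (l 16776352)) (a (l 1072398991) (b (l 16776568) (l 16776720))))) (l 1072400015)) (b (a (b (l 16776168) (a (l 16776424) (l 16776304))) (l 16775984)) (a (b (a (b (l 16776656) (l 16776808)) (l 16776520)) (l 1072419471)) (b (a (l 16776368) (l 16776216)) (a (l 16779240) (l 16776424)))))) (a (l 3) (b (a (l 1072386703) (b (a (l 1072534159) (b (l 16776624) (l 16776760))) (l 1072549519))) (l 1072434319))))))) (l 3)))) (l 3)), by decide +kernel⟩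

def k1_B07pp_123_s1 : ∃ t, chk3 f_B07pp_123_s1 t 9 8 1 = true :=
  ⟨(a (b (l 16755920) (a (l 16767888) (l 16764168))) (l 16746352)), by decide +kernel⟩

def k2_B07pp_123_s1 : ∃ t, chk3 f_B07pp_123_s1 t 18 18 1 = true :=
  ⟨(a (b (a (b (l 16772248) (a (b (l 16774144) (l 16774776)) (l 16773240))) (l 16770680)) (a (b (a (b (a (l 16775656) (l 16775160)) (a (l 16776080) (l 16775736))) (b (l 16774344) (l 16774968))) (a (b (a (b (a (l 16776488) (l 16776328)) (a (b (l 16776696) (l 16776816)) (l 16776552))) (l 16776168)) (a (b (a (l 1072624271) (l 16779440)) (l 1072626319)) (b (a (l 16776616) (l 16776416)) (a (l 16776856) (l 16776616))))) (b (l 16775568) (a (b (l 16776080) (a (l 16776424) (l 16776176))) (l 16775768))))) (b (l 16772776) (a (b (l 16774464) (l 16775096)) (l 16773584))))) (b (l 16767168) (a (l 16770920) (l 16768384)))), by decide +kernel⟩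

def k3_B07pp_123_s1 : ∃ t, chk3 f_B07pp_123_s1 t 18 19 1 = true :=
  ⟨(a (b (a (b (a (l 1072606863) (b (a (b (a (l 16779232) (l 16776424)) (a (l 1072553103) (l 16779240))) (b (l 16776072) (a (l 16776416) (l 16776176)))) (a (l 1072490639) (b (a (l 16776656) (l 16776416)) (l 1072408719))))) (l 1072451727)) (b (a (b (l 16775552) (a (b (l 16776088) (a (l 16776416) (l 16776216))) (l 16775776))) (b (l 16774544) (l 16775136))) (a (b (a (b (a (l 16776728) (l 16776432)) (l 1072319119)) (b (l 16776144) (a (l 16776456) (l 16776256)))) (a (l 1072276623) (b (a (l 1072286863) (l 16776496)) (l 1072261263)))) (b (l 16775592) (a (b (l 16776184) (a (l 16776544) (l 16776288))) (b (l 16775728) (l 16775976))))))) (a (l 3) (b (a (l 1072183439) (b (a (l 1072247439) (b (a (l 16776320) (l 16776120)) (a (l 16776632) (l 16776352)))) (l 1072213135))) (l 1072075919)))) (b (a (b (a (b (l 16773280) (l 16773936)) (l 16772280)) (a (b (l 16774552)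 (l 16775088)) (b (l 16773288) (l 16773920)))) (l 16770968)) (a (b (a (b (a (b (l 16775760) (l 16776024)) (l 16775336)) (a (b (a (l 16776392) (l 16776168)) (a (l 16776712) (l 16776432))) (b (l 16775752) (l 16776024)))) (b (l 16774504) (l 16775048))) (a (a (l 1072229519) (b (b (a (l 16776472) (l 16776184)) (l 1072266895)) (l 1072220303))) (b (a (a (l 16776040) (l 16775760)) (l 16775328)) (a (b (a (l 16776496) (l 16776216)) (l 1072205967)) (b (l 16775768) (a (l 16776216) (l 16775920))))))) (b (a (l 16773544) (l 16772216)) (a (l 16774728) (l 16773464)))))), by decide +kernel⟩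

def k4_B07pp_123_s1 : ∃ t, chk3 f_B07pp_123_s1 t 19 9 1 = true :=
  ⟨(b (a (l 16764160) (l 16761080)) (a (b (l 16767176) (a (b (l 16770208) (a (l 16772144) (l 16770792))) (l 16768312))) (b (l 16763032) (l 16764880)))), by decide +kernel⟩

def k5_B07pp_123_s1 : ∃ t, chk3 f_B07pp_123_s1 t 18 5 1 = true :=
  ⟨(b (a (l 3) (b (a (b (b (a (l 1072136335) (b (a (l 1072160911) (b (a (l 16776528) (l 16776208)) (l 1072145039))) (l 1072104591))) (l 1072006287)) (l 3)) (b (b (a (b (a (b (l 16775776) (a (l 16776208) (l 16775936))) (l 16775312)) (a (b (a (l 16776544) (l 16776208)) (l 1072051343)) (b (l 16775776) (a (l 16776208) (l 16775920))))) (l 16774680)) (a (b (a (l 1072004751) (b (l 16779000) (l 1071974031))) (l 1071932047)) (b (a (b (l 16775768) (a (l 16776224) (l 16775912))) (l 16775288)) (a (l 1071926927) (b (l 16775760) (a (l 16776224) (l 16775896))))))) (l 1071754271))) (l 3))) (l 3)), by decide +kernel⟩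

def k6_B07pp_123_s1 : ∃ t, chk3 f_B07pp_123_s1 t 19 10 1 = true :=
  ⟨(a (b (b (a (a (b (l 16773392) (a (b (l 16774640) (l 16775264)) (l 16774296))) (b (l 16772064) (l 16773312))) (b (l 16780560) (a (l 16771976) (l 16770656)))) (a (b (a (a (b (b (l 16775736) (a (l 16776224) (l 16775888))) (l 1071837327)) (b (l 16775240) (a (l 16778664) (l 16775704)))) (a (b (l 16774576) (l 16775208)) (l 16774224))) (a (l 1071747727) (b (a (b (l 16775680) (l 16778632)) (l 16775176)) (a (l 1071744143) (a (l 16778608) (l 16775640)))))) (a (b (l 16773224) (a (b (l 16774496) (l 16775128)) (l 16774136))) (b (l 16771888) (l 16773128))))) (a (b (a (l 3) (l 1071605903)) (l 3)) (b (a (b (a (b (a (l 16775944) (l 16775584)) (l 1071657615)) (b (l 16775064) (a (l 16775872) (l 16775504)))) (l 1071558287)) (b (a (b (l 16774384) (l 16775000)) (l 16774032)) (a (b (a (l 16775776) (l 16775416)) (l 1071498383)) (b (l 16774920) (a (l 16775680) (l 16775312))))))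 (a (l 1071396495) (l 1071335567))))) (b (a (b (l 16789168) (b (a (l 16770568) (l 16769296)) (a (l 16771792) (l 16770480)))) (b (l 16765872) (b (l 16767504) (l 16768624)))) (a (b (a (b (l 16773032) (a (b (l 16774264) (l 16774840)) (l 16773912))) (b (l 16771696) (l 16772928))) (a (b (a (b (a (l 16775560) (l 16775208)) (l 1071336079)) (b (l 16774752) (a (l 16775440) (l 16775096)))) (a (l 1071242383) (b (a (l 16776152) (l 16775712)) (l 1071195791)))) (b (l 16774096) (a (b (a (l 16775312) (l 16774984)) (a (l 16776008) (l 16775552))) (b (l 16774568) (l 16780288)))))) (b (a (b (l 16770392) (l 16771608)) (l 16769752)) (a (b (l 16772824) (l 16773952)) (b (l 16771512) (l 16772704))))))), by decide +kernel⟩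

def k7_B07pp_123_s1 : ∃ t, chk3 f_B07pp_123_s1 t 19 11 1 = true :=
  ⟨(a (l 3) (b (a (b (a (l 1071046287) (b (a (l 1071091343) (b (a (l 16775840) (l 16775392)) (l 1071059599))) (l 1070967439))) (l 3)) (b (a (b (a (b (l 16774928) (a (l 16775664) (l 16775232))) (b (l 16774408) (l 16774824))) (a (l 1070969999) (b (a (l 16775472) (l 16775088)) (l 1070951567)))) (b (l 16773816) (a (b (l 16774728) (a (l 16775288) (l 16774952))) (b (l 16774256) (l 16774640))))) (a (l 1070794383) (b (a (l 1070884495) (b (a (l 16775112) (l 16774832)) (a (l 16775776) (l 16775304)))) (l 1070791823))))) (a (l 3) (b (a (l 3) (l 1070630031)) (l 3))))), by decide +kernel⟩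

def k8_B07pp_123_s1 : ∃ t, chk3 f_B07pp_123_s1 t 5 4 1 = true :=
  ⟨(a (b (a (a (l 16733960) (b (l 16803488) (l 16739424))) (l 16714936)) (a (a (b (l 16758800) (l 16928576)) (a (b (l 16758208) (l 16759224)) (a (l 16758328) (l 16758488)))) (l 16758624))) (b (l 6) (l 16752960))), by decide +kernel⟩

def k9_B07pp_123_s1 : ∃ t, chk3 f_B07pp_123_s1 t 40 5 1 = true :=
  ⟨(b (b (a (b (l 16763848) (l 16765840)) (l 16762984)) (a (b (a (l 16768568) (l 16767440)) (a (l 16791816) (l 16769648))) (b (l 16786816) (a (l 16768504) (l 16767400))))) (b (a (b (a (b (l 16772568) (l 16773664)) (b (l 16771296) (l 16772400))) (a (b (a (b (l 16774560) (a (l 16774960) (l 16774752))) (l 16774312)) (a (b (a (l 16775536) (l 16775112)) (l 1070809743)) (b (l 16774784) (a (l 16775288) (l 16774944))))) (b (l 16773480) (a (l 16774584) (l 16774152))))) (b (a (l 16770656) (l 16769536)) (a (b (l 16772200) (l 16773256)) (b (l 16771040) (l 16771984)))))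 (a (b (a (l 1070713999) (b (a (b (a (l 16775072) (l 16774832)) (a (l 16775696) (l 16775224))) (b (l 16774688) (a (l 16774928) (l 16774864)))) (a (l 1070718607) (b (a (l 16775400) (l 16775128)) (l 1070831247))))) (a (l 3) (b (a (l 1070652047) (l 1070797455)) (a (l 3) (l 1070783119))))) (b (a (b (l 16774240) (a (b (l 16774992) (a (l 16775360) (l 16775192))) (l 16774824))) (b (l 16772960) (l 16773936))) (a (b (a (b (a (l 16775912) (l 16775584)) (l 1071171727)) (b (l 16775320) (a (l 16775792) (l 16775544)))) (l 1071380111)) (b (a (l 16775112) (l 16774544)) (a (b (a (l 16775704) (l 16775504)) (a (l 16776128) (l 16775848))) (b (l 16775184) (l 16775536))))))))), by decide +kernel⟩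

def k10_B07pp_123_s1 : ∃ t, chk3 f_B07pp_123_s1 t 41 5 1 = true :=
  ⟨(b (a (b (l 16761416) (b (l 16763896) (a (l 16766336) (l 16765304)))) (a (b (l 16760320) (l 16763384)) (b (a (l 16759664) (l 16758968)) (a (l 16762408) (l 16761320))))) (a (b (b (a (l 16768400) (l 16767240)) (a (l 16770464) (l 16769320))) (b (a (b (l 16771800) (l 16772640)) (l 16771288)) (a (b (l 16773520) (l 16774424)) (b (l 16793416) (l 16783656))))) (b (a (b (l 16766056) (a (l 16768280) (l 16767528))) (a (l 16765864) (b (l 16763680) (l 16765264)))) (a (b (a (l 16770456) (l 16769600)) (a (l 16772280) (l 16771808))) (b (a (a (l 16768704) (l 16767960)) (l 16808528)) (a (a (l 16771080) (l 16770048)) (a (a (a (l 16768928) (a (l 16768312) (l 16767608))) (l 16767352)) (l 16767256)))))))), by decide +kernel⟩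

def k11_B07pp_123_s1 : ∃ t, chk3 f_B07pp_123_s1 t 21 5 1 = true :=
  ⟨(b (b (l 16756544) (l 16757616)) (b (l 16760792) (b (l 16763200) (l 16806536)))), by decide +kernel⟩

def k12_B07pp_123_s1 : ∃ t, chk3 f_B07pp_123_s1 t 11 5 1 = true :=
  ⟨(b (b (l 16755360) (l 16835064)) (a (b (l 16754832) (l 16758456)) (l 16919128))), by decide +kernel⟩

def k13_B07pp_123_s1 : ∃ t, chk3 f_B07pp_123_s1 t 3 2 1 = true :=
  ⟨(a (b (l 6) (a (a (b (l 16755808) (l 16747544)) (b (l 6) (l 16744280))) (l 6))) (l 6)), by decide +kernel⟩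

def k14_B07pp_123_s1 : ∃ t, chk3 f_B07pp_123_s1 t 4 6 1 = true :=
  ⟨(l 3), by decide +kernel⟩

def k15_B07pp_123_s1 : ∃ t, chk3 f_B07pp_123_s1 t 40 6 1 = true :=
  ⟨(b (a (l 3) (b (a (b (b (l 1071463055) (l 3)) (l 3)) (b (b (a (l 1071745167) (b (a (l 16775968) (l 16775728)) (a (l 16776352) (l 16776064)))) (l 1071907871)) (b (a (l 3) (l 1072072335)) (l 3)))) (l 3))) (l 3)), by decide +kernel⟩

def k16_B07pp_123_s1 : ∃ t, chk3 f_B07pp_123_s1 t 82 6 1 = true :=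
  ⟨(b (b (a (b (b (a (b (l 16775400) (a (l 16775824) (l 16775624))) (l 16774928)) (a (a (b (l 16776144) (l 16776496)) (b (l 16775928) (l 16776240))) (b (l 16775552) (l 16775904)))) (a (b (a (l 1072088207) (l 1072116255)) (a (b (l 1072181903) (l 3)) (b (l 1072202271) (l 1072203407)))) (b (b (a (l 16776320) (l 16776088)) (a (l 1072181903) (l 16776368))) (b (l 1072226847) (l 1072224911))))) (b (b (l 16773872) (a (l 16774984) (l 16774312))) (a (b (b (l 16775592) (a (l 16776120) (l 16775800))) (b (a (l 16776392) (l 16776136)) (a (l 1072227471) (l 16776384)))) (b (l 16775056) (b (l 16775608) (a (l 16776112) (l 16775760))))))) (a (b (a (l 3) (b (l 1072223775) (l 3))) (l 3)) (b (a (b (l 1072217631) (a (l 1072205967) (l 1072190095))) (b (a (b (l 16776360) (l 1072195215)) (b (l 16776072) (l 16776320))) (a (l 1072172687) (l 1072157839)))) (a (b (a (l 3) (l 1072159887)) (l 3)) (b (a (l 1072134287) (l 1072112271)) (b (a (l 3)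 (l 1072069263)) (l 3))))))) (l 3)), by decide +kernel⟩

def k17_B07pp_123_s1 : ∃ t, chk3 f_B07pp_123_s1 t 83 12 1 = true :=
  ⟨(a (b (b (a (b (l 16773248) (l 16773856)) (b (l 16773056) (l 16773680))) (a (b (l 16774512) (l 16775112)) (b (l 16774240) (l 16774720)))) (b (a (b (a (b (l 16775720) (l 16776024)) (l 16775520)) (a (b (l 16776272) (a (l 16776544) (l 16776416))) (b (l 16775920) (l 16776176)))) (b (l 16775160) (a (l 16775712) (l 16775488)))) (a (b (a (a (l 1072108687) (l 1072629279)) (b (a (l 16776472) (l 16776320)) (a (l 16776656) (l 16776512)))) (a (b (a (l 1072063119) (l 1072048671)) (a (a (l 1072032287) (l 1072029215)) (b (l 1072017039) (l 1072018063)))) (b (a (l 1073091727) (l 1071995023)) (b (l 1072003103) (l 1071983247))))) (b (a (b (l 16776072) (l 16778904)) (l 16775880)) (a (b (a (l 16776560) (l 16776416)) (l 1073032223)) (b (a (l 16776248) (l 16776104)) (a (l 16776448) (l 16776288)))))))) (b (b (a (a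 (l 16773136) (l 16772480)) (a (a (a (l 16771480) (a (l 16770720) (l 16769696))) (l 16769304)) (l 16769176))) (a (a (b (l 16774144) (l 16774600)) (a (l 16795280) (l 16795072))) (a (a (a (l 16773608) (a (l 16773016) (l 16782640))) (l 16771776)) (l 16771664)))) (b (a (a (b (l 16775000) (l 16775376)) (b (a (l 16774952) (l 16774888)) (l 16775320))) (a (b (a (a (l 16774720) (a (l 16774368) (l 16773752))) (l 16773432)) (a (a (l 16775184) (a (l 16775024) (l 73774996013698469695))) (l 16774432))) (l 16773832))) (b (a (a (l 16775720) (b (l 16775592) (l 16775760))) (a (a (a (l 16775552) (a (l 16775432) (l 73778021870176280383))) (l 16775120)) (l 16774992))) (a (a (b (l 16775968) (l 16776120)) (b (l 16775928) (l 16781312))) (a (a (a (l 16775880) (a (l 16775752) (l 16775552))) (l 16775440)) (l 16775328))))))), by decide +kernel⟩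

def k18_B07pp_123_s1 : ∃ t, chk3 f_B07pp_123_s1 t 166 13 1 = true :=
  ⟨(b (a (b (b (a (a (l 3) (b (l 1072010895) (l 3))) (b (l 1071978639) (l 1072512143))) (l 3)) (l 3)) (b (b (a (b (l 1075147407) (l 1071957023)) (a (a (l 1071910543) (l 1074570895)) (b (l 16776464) (l 1072370831)))) (a (b (l 1074644511) (a (l 3) (l 1071946895))) (a (b (l 1071901839) (l 1071913103)) (b (l 1071862303) (a (l 1071888527) (l 1071859343)))))) (b (a (l 3) (b (a (b (l 1071923855) (a (l 3) (l 1071931023))) (a (c (l 1072237599) (l 1071592991)) (b (l 1071875215) (l 1071886479)))) (a (l 3) (a (l 1072462991) (l 1071904399))))) (l 3)))) (l 3)), by decide +kernel⟩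

def k19_B07pp_123_s1 : ∃ t, chk3 f_B07pp_123_s1 t 334 13 1 = true :=
  ⟨(b (a (b (b (b (a (l 16776312) (l 16776208)) (a (l 16776480) (l 16776328))) (c (b (a (l 16776752) (l 16776600)) (a (l 1075334799) (l 16776736))) (a (b (l 16776560) (l 1071488543)) (b (l 16776352) (l 16776552))))) (b (b (a (b (l 1071803023) (l 1071817871)) (b (l 1071716895) (l 1071736863))) (a (l 1073451151) (a (l 1071790735) (l 1071734415)))) (b (a (l 1071897119) (a (l 1071833743) (l 1072328735))) (a (l 1071929375) (a (l 1071878287) (b (l 1071824527) (l 1074536079))))))) (a (a (b (b (l 16776240) (b (l 16776384) (l 16776520))) (b (b (l 1071673599) (l 1071722751)) (b (l 1071774463) (b (l 1071812351) (l 1071836415))))) (b (b (l 16776240) (b (l 16776392) (l 16776472))) (b (b (l 16776600) (l 16776760)) (b (l 1071748351) (b (l 1071776511) (l 1071785727)))))) (a (b (b (l 16776240) (b (l 16776400) (l 16776472))) (b (b (l 16779168) (l 16776672)) (b (l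 1071700223) (l 1071720703)))) (b (b (l 16776216) (b (l 16776392) (l 16776488))) (b (b (l 16776560) (l 16776616)) (b (l 16776720) (l 1071637247))))))) (a (b (b (b (a (l 3) (a (l 3) (b (l 1071880223) (l 3)))) (l 3)) (l 3)) (l 3)) (a (b (b (b (a (b (l 1071863039) (l 1071823615)) (l 1071767807)) (l 1071775999)) (l 1071744255)) (l 3)) (b (b (b (l 1071644927) (l 1071613183)) (l 1071558911)) (l 1326226006032537051145766223126449855))))), by decide +kernel⟩

def k20_B07pp_123_s1 : ∃ t, chk3 f_B07pp_123_s1 t 1340 13 1 = true :=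
  ⟨(a (b (b (b (l 16776160) (b (l 16776352) (l 16776464))) (b (b (l 16776568) (l 16776648)) (b (b (l 16776680) (l 16776704)) (b (l 16776736) (l 16776768))))) (b (b (b (l 1071468799) (l 1071420159)) (l 1071327487)) (l 1325901477574753810330393468653784767))) (a (b (b (b (l 16776024) (b (l 16776232) (l 16776360))) (b (b (l 16776496) (l 16776624)) (b (l 16776728) (b (l 16776776) (l 16776776))))) (b (b (b (b (l 16779408) (l 16776800)) (l 16776864)) (b (l 1071167743) (l 1071101183))) (l 1325901477574753773436905321234681535))) (a (a (b (b (b (l 16775880) (l 16781400)) (b (b (l 16776368) (l 16776520)) (b (l 16776672) (l 16776792)))) (b (b (b (l 16779472) (b (l 16776832) (l 16776848))) (b (l 16776912) (l 1326226006033141514057825474983219903))) (l 1325901467671233459153863122033299135))) (b (b (b (l 16775760) (l 16776032)) (b (b (l 16776248) (l 16776416)) (b (l 16776584) (l 73784812455487848255)))) (b (b (b (l 73785445774286118207)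 (b (l 16776896) (l 73785656880501171007))) (b (b (l 73785480958657505599) (l 16776904)) (l 1326063746756312300694433896972931775))) (l 1325901467671233459153863122033299135)))) (b (b (b (l 16775720) (l 16775984)) (b (b (l 16776200) (l 16776368)) (b (l 16776536) (l 16776712)))) (b (b (b (l 16776856) (l 16776904)) (b (l 16776872) (l 16776952))) (l 1325901467671233459153863122033299135)))))), by decide +kernel⟩

def k21_B07pp_123_s1 : ∃ t, chk3 f_B07pp_123_s1 t 1341 13 1 = true :=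
  ⟨(a (a (b (b (b (l 16775712) (l 16775984)) (b (l 68581056287) (b (l 16776536) (l 16776704)))) (b (b (l 68715278111) (b (l 16776832) (l 16776912))) (b (l 1325901477574753810330393606092738751) (l 1325576939212845755426431253151206591)))) (a (b (b (b (l 16775704) (l 16775976)) (b (b (l 16776200) (l 16776360)) (b (l 16776528) (l 16776688)))) (b (b (b (l 16776816) (l 16776840)) (b (l 16776792) (l 16776872))) (b (b (l 16776944) (l 1325901467671233459153863122041687743)) (b (l 1325739198490279431701881945570921663) (l 1325576929309325404249900769100155583))))) (a (b (b (b (l 16775704) (l 16775976)) (b (b (l 16776200) (l 16776360)) (b (l 16776528) (l 16776688)))) (b (b (b (l 16776800) (l 16776824)) (b (l 16776776) (l 16776848))) (b (b (l 16776920) (b (l 16776968) (l 16776992))) (b (b (l 16777016) (l 16777040)) (b (l 16777048) (l 16777064)))))) (b (b (b (l 16775696) (l 16775968)) (b (b (l 16776192) (l 16776360)) (b (l 16776520)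 (l 16776680)))) (b (b (b (l 16776792) (l 16776816)) (b (l 16776760) (l 16776840))) (b (b (l 16776912) (l 16776968)) (b (b (l 16777000) (l 16777024)) (b (l 16777032) (l 16777048))))))))) (b (b (b (l 16775680) (l 16775960)) (b (b (l 16776184) (l 16776344)) (b (l 16776512) (l 16776656)))) (b (b (b (l 16776760) (l 16776768)) (b (l 16776712) (l 16776784))) (b (b (l 16776848) (l 16776904)) (b (b (l 16776936) (l 16776960)) (b (l 16776968) (l 16776976))))))), by decide +kernel⟩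

def k22_B07pp_123_s1 : ∃ t, chk3 f_B07pp_123_s1 t 671 13 1 = true :=
  ⟨(b (b (b (l 16775608) (l 16775896)) (b (b (l 16776120) (l 16776272)) (b (l 16776416) (l 16776528)))) (b (b (b (l 16776592) (l 16776568)) (b (l 16776488) (l 16776536))) (b (b (l 16776592) (l 16776640)) (b (l 16776664) (l 16776672))))), by decide +kernel⟩

def k23_B07pp_123_s1 : ∃ t, chk3 f_B07pp_123_s1 t 21 6 1 = true :=
  ⟨(b (a (b (b (l 16767616) (l 16791096)) (b (a (l 16772992) (l 16771456)) (b (l 16773360) (l 16773768)))) (b (b (l 16764672) (l 16767056)) (b (l 16769208) (l 16770552)))) (a (a (a (b (b (b (l 16775200) (l 16775488)) (b (l 16775728) (l 16775864))) (a (b (b (l 16781368) (l 16775960)) (b (l 16775984) (b (l 16775984) (l 16775952)))) (b (b (l 16775488) (l 16775224)) (b (l 16775152) (l 16775040))))) (b (b (l 16795520) (b (l 16774784) (l 16774768))) (b (b (l 16774552) (l 16774144)) (l 16784280)))) (b (b (l 16773280) (a (l 16773744)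 (l 16772712))) (b (l 16772408) (l 16771248)))) (b (b (l 16770752) (l 16770256)) (b (l 16768728) (l 16766392))))), by decide +kernel⟩

def k24_B07pp_123_s1 : ∃ t, chk3 f_B07pp_123_s1 t 11 6 1 = true :=
  ⟨(b (a (a (b (l 16763232) (l 16851152)) (b (l 16760912) (l 16764944))) (b (l 16758304) (l 16762344))) (b (a (b (l 16766416) (l 16764952)) (l 16761168)) (a (b (l 16762144) (l 16757528)) (b (l 16754848) (l 16747536))))), by decide +kernel⟩

def k25_B07pp_123_s1 : ∃ t, chk3 f_B07pp_123_s1 t 3 6 1 = true :=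
  ⟨(a (b (a (b (l 16756184) (a (l 16760840) (l 16761968))) (b (l 16761136) (l 16853296))) (a (b (a (l 16758576) (l 16758584)) (a (l 16745184) (l 16740688))) (b (l 85396547783) (l 1)))) (l 6)), by decide +kernel⟩

def k26_B07pp_123_s1 : ∃ t, chk3 f_B07pp_123_s1 t 4 7 1 = true :=
  ⟨(b (l 3) (l 3)), by decide +kernel⟩

def k27_B07pp_123_s1 : ∃ t, chk3 f_B07pp_123_s1 t 40 7 1 = true :=
  ⟨(b (l 3) (b (l 3) (l 1))), by decide +kernel⟩

def k28_B07pp_123_s1 : ∃ t, chk3 f_B07pp_123_s1 t 82 7 1 = true :=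
  ⟨(b (l 3) (l 1)), by decide +kernel⟩

def k29_B07pp_123_s1 : ∃ t, chk3 f_B07pp_123_s1 t 166 14 1 = true :=
  ⟨(b (l 3) (a (b (l 3) (b (l 3) (l 1))) (b (b (l 3) (a (l 3) (a (l 3) (b (l 3) (a (b (l 3) (l 1066507903)) (l 1066542207)))))) (b (a (b (l 3) (a (l 3) (l 1066627199))) (b (a (b (a (l 3) (b (l 3) (l 1066563199))) (l 1066633855)) (b (a (c (l 1067354239) (l 1065892479)) (l 1066715263)) (a (a (l 1066684031) (l 1066728063)) (l 1066815615)))) (a (l 1066756735) (b (a (l 1066803327) (l 1066904703)) (l 1))))) (l 1))))), by decide +kernel⟩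

def k30_B07pp_123_s1 : ∃ t, chk3 f_B07pp_123_s1 t 334 14 1 = true :=
  ⟨(b (a (l 3) (b (l 3) (a (b (l 3) (l 1066838767)) (l 1321682498679407798163141332102527151)))) (b (a (a (b (l 3) (b (a (l 1066366079) (l 1066500223)) (a (l 1066656383) (l 1066796159)))) (b (b (a (l 3) (b (l 3) (a (l 3) (l 1066303615)))) (a (b (l 3) (l 1066390143)) (b (a (l 1066300543) (l 1066315903)) (a (l 1066506367) (l 1066589311))))) (b (a (l 1066668159) (b (l 1066754175) (l 1066924671))) (a (l 1066968703) (l 1070344207))))) (b (a (b (b (l 1066695919) (a (l 1066498287) (l 1066758895))) (b (a (l 1066517231) (l 1066719983)) (a (l 1066569967) (l 1066783983)))) (b (b (l 1067287279) (l 1067218671)) (b (l 1067164911) (l 1067170543)))) (b (a (a (b (l 1066785007) (l 1066947823)) (l 1066967279)) (a (l 1067140335) (b (l 16775968) (l 16775792)))) (a (a (l 1067171567) (l 1067225327)) (a (l 1067348207) (b (l 16775616) (l 16775376))))))) (b (a (a (b (b (a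 (l 1066832511) (l 1066974335)) (l 1068681855)) (a (b (l 1067025535) (l 1)) (l 1))) (b (b (a (l 1067147903) (l 1067331711)) (a (l 16776000) (l 16775816))) (l 1))) (a (b (a (l 1067416303) (l 1067453679)) (l 1)) (b (a (b (l 16775424) (l 16775168)) (b (l 16775064) (l 16774648))) (l 1)))) (l 1)))), by decide +kernel⟩

def k31_B07pp_123_s1 : ∃ t, chk3 f_B07pp_123_s1 t 1340 14 1 = true :=
  ⟨(a (b (b (l 1323305190489552572490752295899746095) (b (l 1322331565499099093882476302077770415) (l 1068070127))) (b (b (b (l 1067790063) (b (l 16776144) (l 16775984))) (b (b (l 16775760) (l 16775488)) (b (l 16775136) (l 16774688)))) (b (b (l 16779216) (l 1)) (l 1)))) (a (b (b (l 1323467459669902100137186073103028015) (b (l 1322656103861007111890698570339170991) (b (l 1068536047) (l 1068372207)))) (b (b (b (b (l 16776368) (a (l 16776232) (l 16776168))) (b (a (l 16776064) (l 16775872)) (l 16778208))) (b (b (l 16775136) (l 16774648)) (l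 16779120))) (b (b (l 16778080) (l 1)) (l 1)))) (a (a (b (b (l 1323467459669902100137186073094639407) (b (l 1322656103861007111890698570339170991) (b (l 1322331565499099056986736217389250223) (b (l 16776592) (l 16776464))))) (b (b (b (b (l 16776256) (l 16775904)) (b (l 16775424) (l 16774912))) (b (l 16774168) (l 16773288))) (b (b (l 16772320) (l 1)) (l 1)))) (b (b (l 1323467459670506563046993387681992495) (b (l 1322818373041356639537132347542452911) (b (l 1322331565499099056986736217389250223) (b (l 73784214320968745791) (l 73782771761545333055))))) (b (b (b (b (l 16775976) (l 16775488)) (b (l 16777600) (l 16774592))) (b (l 73772462738032717119) (l 73768592456180210495))) (b (b (l 73764299961761974591) (l 1)) (l 1))))) (b (b (l 1323467459670506563046993387681992495) (b (l 1322818373041961102446939662129805999) (b (l 1322493834679448584633169994592532143) (b (l 16776552) (l 16776224))))) (b (b (b (l 16775528) (l 16777280))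 (b (l 16773856) (l 16772968))) (b (b (l 16772000) (l 1)) (l 1))))))), by decide +kernel⟩

def k32_B07pp_123_s1 : ∃ t, chk3 f_B07pp_123_s1 t 1341 14 1 = true :=
  ⟨(a (a (b (b (b (l 1323954257308639368402288066785431343) (l 1323305180584823221696371338961207471)) (b (l 1322818373041961139340427809548909231) (b (l 16776656) (l 16776336)))) (b (b (b (l 16775472) (l 16777176)) (b (l 16773744) (l 16772856))) (b (b (l 16771872) (l 1)) (l 1)))) (a (b (b (b (b (l 1323954267212764145595137580574167343) (l 1323791978223560489963725269913027759)) (b (l 1323467449765777212254864368004481711) (l 1323305170680698407610033540314415279))) (b (b (l 1322980642222915129898920838600572079) (l 16776760)) (b (l 16776592) (l 16776280)))) (b (b (b (l 16775424) (l 16774448)) (b (l 16773632) (l 16772736))) (b (b (l 16771752) (l 1)) (l 1)))) (a (b (b (b (b (b (l 16777064) (l 16777064)) (b (l 16777056) (l 16777048))) (b (b (l 16777032) (l 16777008))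 (b (l 16776976) (l 16776936)))) (b (b (b (l 16776888) (l 16776832)) (l 16776728)) (b (l 16776560) (l 16776248)))) (b (b (b (l 16775392) (l 16774392)) (b (l 16773576) (l 16772680))) (b (b (l 16771696) (l 1)) (l 1)))) (b (b (b (b (b (l 16777048) (l 16777048)) (b (l 16777040) (l 16777032))) (b (b (l 16777016) (l 16776984)) (b (l 16776952) (l 16776920)))) (b (b (b (l 16776872) (l 16776816)) (l 16776712)) (b (l 16776544) (l 16776224)))) (b (b (b (l 16775376) (l 16774360)) (b (l 16773536) (l 16772640))) (b (b (l 16771648) (l 1)) (l 1))))))) (b (b (b (b (b (l 16776976) (l 16776976)) (b (l 16776968) (l 16776952))) (b (b (l 16776936) (l 16776904)) (b (l 16776872) (l 16776832)))) (b (b (a (l 16776792) (l 16776712)) (l 16776616)) (b (l 16776440) (l 16776120)))) (b (b (b (l 16775272) (l 16774224)) (b (l 16773368) (l 16772456))) (b (b (l 16771464) (l 1)) (l 1))))), by decide +kernel⟩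

def k33_B07pp_123_s1 : ∃ t, chk3 f_B07pp_123_s1 t 671 14 1 = true :=
  ⟨(b (b (b (b (l 16776656) (a (l 16776760) (l 16776488))) (b (l 16776568) (l 16776472))) (b (b (l 16776352) (l 16776200)) (b (l 16776000) (l 16775664)))) (b (b (b (l 16774832) (l 16773792)) (b (l 16772664) (l 16771672))) (b (b (l 16770648) (l 1)) (l 1)))), by decide +kernel⟩

def k34_B07pp_123_s1 : ∃ t, chk3 f_B07pp_123_s1 t 83 15 1 = true :=
  ⟨(l 1), by decide +kernel⟩

def k35_B07pp_123_s1 : ∃ t, chk3 f_B07pp_123_s1 t 21 7 1 = true :=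
  ⟨(b (a (b (a (a (a (a (b (b (a (l 16778872) (l 16775984)) (b (l 16776000) (l 16775872))) (b (a (l 16778408) (l 16775456)) (l 16777728))) (b (b (l 16775600) (l 16775352)) (b (l 16774976) (l 16774392)))) (b (b (l 16774824) (l 16774480)) (b (l 16774000) (l 16773304)))) (b (a (l 16778808) (l 16772480)) (b (l 16772064) (l 16771160)))) (b (l 16769808) (a (l 16779400) (l 16766232)))) (a (a (b (b (b (l 16772992) (l 16771928)) (b (l 16770768) (l 16769560))) (b (b (l 16768320) (l 1)) (l 1))) (b (b (l 16769448) (l 16766912)) (l 1))) (b (b (l 16764912) (l 16761960)) (l 1)))) (b (b (l 16805456) (l 16780648)) (b (a (l 16757176) (l 16750920)) (l 1)))) (l 1)), by decide +kernel⟩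

def k36_B07pp_123_s1 : ∃ t, chk3 f_B07pp_123_s1 t 11 7 1 = true :=
  ⟨(b (b (a (b (l 16751808) (l 16786664)) (b (l 16737968) (l 1))) (l 1)) (l 1)), by decide +kernel⟩

def k37_B07pp_123_s1 : ∃ t, chk3 f_B07pp_123_s1 t 3 7 1 = true :=
  ⟨(l 1), by decide +kernel⟩

theorem t38_B07pp_123_s1 : ∃ t, chk3 f_B07pp_123_s1 t 670 14 1 = true := ex3_a k31_B07pp_123_s1 k32_B07pp_123_s1

theorem t39_B07pp_123_s1 : ∃ t, chk3 f_B07pp_123_s1 t 335 14 1 = true := ex3_a t38_B07pp_123_s1 k33_B07pp_123_s1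

theorem t40_B07pp_123_s1 : ∃ t, chk3 f_B07pp_123_s1 t 167 14 1 = true := ex3_a k30_B07pp_123_s1 t39_B07pp_123_s1

theorem t41_B07pp_123_s1 : ∃ t, chk3 f_B07pp_123_s1 t 83 14 1 = true := ex3_a k29_B07pp_123_s1 t40_B07pp_123_s1

theorem t42_B07pp_123_s1 : ∃ t, chk3 f_B07pp_123_s1 t 83 7 1 = true := ex3_b t41_B07pp_123_s1 k34_B07pp_123_s1

theorem t43_B07pp_123_s1 : ∃ t, chk3 f_B07pp_123_s1 t 41 7 1 = true := ex3_a k28_B07pp_123_s1 t42_B07pp_123_s1

theorem t44_B07pp_123_s1 : ∃ t, chk3 f_B07pp_123_s1 t 20 7 1 = true := ex3_a k27_B07pp_123_s1 t43_B07pp_123_s1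

theorem t45_B07pp_123_s1 : ∃ t, chk3 f_B07pp_123_s1 t 10 7 1 = true := ex3_a t44_B07pp_123_s1 k35_B07pp_123_s1

theorem t46_B07pp_123_s1 : ∃ t, chk3 f_B07pp_123_s1 t 5 7 1 = true := ex3_a t45_B07pp_123_s1 k36_B07pp_123_s1

theorem t47_B07pp_123_s1 : ∃ t, chk3 f_B07pp_123_s1 t 2 7 1 = true := ex3_a k26_B07pp_123_s1 t46_B07pp_123_s1

theorem t48_B07pp_123_s1 : ∃ t, chk3 f_B07pp_123_s1 t 1 7 1 = true := ex3_a t47_B07pp_123_s1 k37_B07pp_123_s1

theorem t49_B07pp_123_s1 : ∃ t, chk3 f_B07pp_123_s1 t 670 13 1 = true := ex3_a k20_B07pp_123_s1 k21_B07pp_123_s1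

theorem t50_B07pp_123_s1 : ∃ t, chk3 f_B07pp_123_s1 t 335 13 1 = true := ex3_a t49_B07pp_123_s1 k22_B07pp_123_s1

theorem t51_B07pp_123_s1 : ∃ t, chk3 f_B07pp_123_s1 t 167 13 1 = true := ex3_a k19_B07pp_123_s1 t50_B07pp_123_s1

theorem t52_B07pp_123_s1 : ∃ t, chk3 f_B07pp_123_s1 t 83 13 1 = true := ex3_a k18_B07pp_123_s1 t51_B07pp_123_s1

theorem t53_B07pp_123_s1 : ∃ t, chk3 f_B07pp_123_s1 t 83 6 1 = true := ex3_b k17_B07pp_123_s1 t52_B07pp_123_s1

theorem t54_B07pp_123_s1 : ∃ t, chk3 f_B07pp_123_s1 t 41 6 1 = true := ex3_a k16_B07pp_123_s1 t53_B07pp_123_s1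

theorem t55_B07pp_123_s1 : ∃ t, chk3 f_B07pp_123_s1 t 20 6 1 = true := ex3_a k15_B07pp_123_s1 t54_B07pp_123_s1

theorem t56_B07pp_123_s1 : ∃ t, chk3 f_B07pp_123_s1 t 10 6 1 = true := ex3_a t55_B07pp_123_s1 k23_B07pp_123_s1

theorem t57_B07pp_123_s1 : ∃ t, chk3 f_B07pp_123_s1 t 5 6 1 = true := ex3_a t56_B07pp_123_s1 k24_B07pp_123_s1

theorem t58_B07pp_123_s1 : ∃ t, chk3 f_B07pp_123_s1 t 2 6 1 = true := ex3_a k14_B07pp_123_s1 t57_B07pp_123_s1

theorem t59_B07pp_123_s1 : ∃ t, chk3 f_B07pp_123_s1 t 1 6 1 = true := ex3_a t58_B07pp_123_s1 k25_B07pp_123_s1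

theorem t60_B07pp_123_s1 : ∃ t, chk3 f_B07pp_123_s1 t 1 3 1 = true := ex3_b t59_B07pp_123_s1 t48_B07pp_123_s1

theorem t61_B07pp_123_s1 : ∃ t, chk3 f_B07pp_123_s1 t 20 5 1 = true := ex3_a k9_B07pp_123_s1 k10_B07pp_123_s1

theorem t62_B07pp_123_s1 : ∃ t, chk3 f_B07pp_123_s1 t 10 5 1 = true := ex3_a t61_B07pp_123_s1 k11_B07pp_123_s1

theorem t63_B07pp_123_s1 : ∃ t, chk3 f_B07pp_123_s1 t 5 5 1 = true := ex3_a t62_B07pp_123_s1 k12_B07pp_123_s1

theorem t64_B07pp_123_s1 : ∃ t, chk3 f_B07pp_123_s1 t 5 2 1 = true := ex3_b k8_B07pp_123_s1 t63_B07pp_123_s1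

theorem t65_B07pp_123_s1 : ∃ t, chk3 f_B07pp_123_s1 t 19 5 1 = true := ex3_b k6_B07pp_123_s1 k7_B07pp_123_s1

theorem t66_B07pp_123_s1 : ∃ t, chk3 f_B07pp_123_s1 t 9 5 1 = true := ex3_a k5_B07pp_123_s1 t65_B07pp_123_s1

theorem t67_B07pp_123_s1 : ∃ t, chk3 f_B07pp_123_s1 t 18 9 1 = true := ex3_b k2_B07pp_123_s1 k3_B07pp_123_s1

theorem t68_B07pp_123_s1 : ∃ t, chk3 f_B07pp_123_s1 t 9 9 1 = true := ex3_a t67_B07pp_123_s1 k4_B07pp_123_s1

theorem t69_B07pp_123_s1 : ∃ t, chk3 f_B07pp_123_s1 t 9 4 1 = true := ex3_b k1_B07pp_123_s1 t68_B07pp_123_s1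

theorem t70_B07pp_123_s1 : ∃ t, chk3 f_B07pp_123_s1 t 9 2 1 = true := ex3_b t69_B07pp_123_s1 t66_B07pp_123_s1

theorem t71_B07pp_123_s1 : ∃ t, chk3 f_B07pp_123_s1 t 4 2 1 = true := ex3_a k0_B07pp_123_s1 t70_B07pp_123_s1

theorem t72_B07pp_123_s1 : ∃ t, chk3 f_B07pp_123_s1 t 2 2 1 = true := ex3_a t71_B07pp_123_s1 t64_B07pp_123_s1

theorem t73_B07pp_123_s1 : ∃ t, chk3 f_B07pp_123_s1 t 1 2 1 = true := ex3_a t72_B07pp_123_s1 k13_B07pp_123_s1

theorem t74_B07pp_123_s1 : ∃ t, chk3 f_B07pp_123_s1 t 1 1 1 = true := ex3_b t73_B07pp_123_s1 t60_B07pp_123_s1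

theorem c_B07pp_123_s1 : CertF 536870912 536870912 0 1230186008 587336777 62277027 false true true .npn 1 2 3
    ndB0q1 ndB7q3 pcB2 cut_B07pp_123_s1 xt_B07pp_123_s1 :=
  certF2 (fam := false) (s1 := true) (s2 := true) (a := 1) (b := 2) (c := 3) (cn := .npn) (n1 := ndB0q1) (n2 := ndB7q3) (pc := pcB2) (cut := cut_B07pp_123_s1) (xt := xt_B07pp_123_s1) (P1 := 536870912) (W1 := 536870912) (P2 := 0) (W2 := 1230186008) (P3 := 587336777) (W3 := 62277027)
    rfl (fun _ => rfl) t74_B07pp_123_s1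

theorem s_B07pp_123_s1 {κ x : ℝ} (hκ : κ * h0 = ken x) (hx : ((587336777 : ℕ) : ℝ) / S ≤ x)
    (hx' : x ≤ (((587336777 : ℕ) : ℝ) + (62277027 : ℕ)) / S)
    (H : CutB (VFD κ) PP tK tL pcB (Cut.of [[⟨0, 1, 0, 67108864⟩, ⟨1, 1, 0, 67108864⟩, ⟨2, 2, 0, 16777216⟩]]) 1 2 3 0 7 (sgb true) (sgb true) x) :
    AltB (VFD κ) PP tK tL pcB [⟨3, 0, 0, 1449551462⟩] 1 2 3 0 7 (sgb true) (sgb true) x :=
  strip_altBD (m := 1449551462) true rfl hκ (SH.κ0 hκ (SH.hx1 hx).le (SH.hx2 hx').le) (SH.hx1 hx).le (SH.hx2 hx') (covB01).cov (covB73).cov hx hx' c_B07pp_123_s1 H ((okx6 hx hx').ext0B (T := tt) (zx hx hx') (okx hx hx') (sideB hx hx') hκ rfl rfl (.O 1 true) (.N 3 true) rfl)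

noncomputable def cut_B07pp_133_s1 : Cut := Cut.of [[⟨4, 0, 0, 1449551462⟩]]

noncomputable def f_B07pp_133_s1 : ℕ → ℕ → ℕ → ℕ → Bool := onCell 1610612736 536870912 0 1230186008 587336777 62277027
    (rowF 2 false true true .dn 1 3 3 (qsf 536870912 536870912 0 1230186008 3) ndB0q1 ndB7q3 pcB3 cut_B07pp_133_s1 Ext.none)

def k0_B07pp_133_s1 : ∃ t, chk3 f_B07pp_133_s1 t 1 1 1 = true :=
  ⟨(b (l 6) (l 1)), by decide +kernel⟩

theorem c_B07pp_133_s1 : CertF 536870912 536870912 0 1230186008 587336777 62277027 false true true .dn 1 3 3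
    ndB0q1 ndB7q3 pcB3 cut_B07pp_133_s1 Ext.none :=
  certF2 (fam := false) (s1 := true) (s2 := true) (a := 1) (b := 3) (c := 3) (cn := .dn) (n1 := ndB0q1) (n2 := ndB7q3) (pc := pcB3) (cut := cut_B07pp_133_s1) (xt := Ext.none) (P1 := 536870912) (W1 := 536870912) (P2 := 0) (W2 := 1230186008) (P3 := 587336777) (W3 := 62277027)
    rfl (fun _ => rfl) k0_B07pp_133_s1

theorem s_B07pp_133_s1 {κ x : ℝ} (hκ : κ * h0 = ken x) (hx : ((587336777 : ℕ) : ℝ) / S ≤ x)
    (hx' : x ≤ (((587336777 : ℕ) : ℝ) + (62277027 : ℕ)) / S) :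
    AltB (VFD κ) PP tK tL pcB [⟨3, 0, 0, 1449551462⟩] 1 3 3 0 7 (sgb true) (sgb true) x :=
  strip_altBD (m := 1449551462) true rfl hκ (SH.κ0 hκ (SH.hx1 hx).le (SH.hx2 hx').le) (SH.hx1 hx).le (SH.hx2 hx') (covB01).cov (covB73).cov hx hx' c_B07pp_133_s1 cutB_nil (noExt_B)

noncomputable def cut_B07pp_202_s1 : Cut := Cut.of [[⟨4, 0, 0, 1449551462⟩]]

noncomputable def f_B07pp_202_s1 : ℕ → ℕ → ℕ → ℕ → Bool := onCell 0 536870912 1073741824 536870912 587336777 62277027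
    (rowF 0 false true true .pp 2 0 2 (qsf 0 536870912 1073741824 536870912 0) ndB0q2 ndB7q2 pcB0 cut_B07pp_202_s1 Ext.none)

def k0_B07pp_202_s1 : ∃ t, chk3 f_B07pp_202_s1 t 1 1 1 = true :=
  ⟨(l 5), by decide +kernel⟩

theorem c_B07pp_202_s1 : CertF 0 536870912 1073741824 536870912 587336777 62277027 false true true .pp 2 0 2
    ndB0q2 ndB7q2 pcB0 cut_B07pp_202_s1 Ext.none :=
  certF0 (fam := false) (s1 := true) (s2 := true) (a := 2) (b := 0) (c := 2) (cn := .pp) (n1 := ndB0q2) (n2 := ndB7q2) (pc := pcB0) (cut := cut_B07pp_202_s1) (xt := Ext.none) (P1 := 0) (W1 := 536870912) (P2 := 1073741824) (W2 := 536870912) (P3 := 587336777) (W3 := 62277027)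
    rfl k0_B07pp_202_s1

theorem s_B07pp_202_s1 {κ x : ℝ} (hκ : κ * h0 = ken x) (hx : ((587336777 : ℕ) : ℝ) / S ≤ x)
    (hx' : x ≤ (((587336777 : ℕ) : ℝ) + (62277027 : ℕ)) / S) :
    AltB (VFD κ) PP tK tL pcB [⟨3, 0, 0, 1449551462⟩] 2 0 2 0 7 (sgb true) (sgb true) x :=
  strip_altBD (m := 1449551462) true rfl hκ (SH.κ0 hκ (SH.hx1 hx).le (SH.hx2 hx').le) (SH.hx1 hx).le (SH.hx2 hx') (covB02).cov (covB72).cov hx hx' c_B07pp_202_s1 cutB_nil (noExt_B)

noncomputable def cut_B07pp_203_s1 : Cut := Cut.of [[⟨4, 0, 0, 1449551462⟩]]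

noncomputable def f_B07pp_203_s1 : ℕ → ℕ → ℕ → ℕ → Bool := onCell 0 536870912 0 1230186008 587336777 62277027
    (rowF 0 false true true .up 2 0 3 (qsf 0 536870912 0 1230186008 0) ndB0q2 ndB7q3 pcB0 cut_B07pp_203_s1 Ext.none)

def k0_B07pp_203_s1 : ∃ t, chk3 f_B07pp_203_s1 t 1 1 1 = true :=
  ⟨(b (l 2) (b (l 2) (a (l 5) (l 3)))), by decide +kernel⟩

theorem c_B07pp_203_s1 : CertF 0 536870912 0 1230186008 587336777 62277027 false true true .up 2 0 3
    ndB0q2 ndB7q3 pcB0 cut_B07pp_203_s1 Ext.none :=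
  certF0 (fam := false) (s1 := true) (s2 := true) (a := 2) (b := 0) (c := 3) (cn := .up) (n1 := ndB0q2) (n2 := ndB7q3) (pc := pcB0) (cut := cut_B07pp_203_s1) (xt := Ext.none) (P1 := 0) (W1 := 536870912) (P2 := 0) (W2 := 1230186008) (P3 := 587336777) (W3 := 62277027)
    rfl k0_B07pp_203_s1

theorem s_B07pp_203_s1 {κ x : ℝ} (hκ : κ * h0 = ken x) (hx : ((587336777 : ℕ) : ℝ) / S ≤ x)
    (hx' : x ≤ (((587336777 : ℕ) : ℝ) + (62277027 : ℕ)) / S) :
    AltB (VFD κ) PP tK tL pcB [⟨3, 0, 0, 1449551462⟩] 2 0 3 0 7 (sgb true) (sgb true) x :=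
  strip_altBD (m := 1449551462) true rfl hκ (SH.κ0 hκ (SH.hx1 hx).le (SH.hx2 hx').le) (SH.hx1 hx).le (SH.hx2 hx') (covB02).cov (covB73).cov hx hx' c_B07pp_203_s1 cutB_nil (noExt_B)

noncomputable def cut_B07pp_213_s1 : Cut := Cut.of [[⟨4, 0, 0, 1449551462⟩], [⟨0, 1, 0, 67108864⟩, ⟨1, 1, 0, 67108864⟩, ⟨2, 2, 0, 16777216⟩]]

noncomputable def f_B07pp_213_s1 : ℕ → ℕ → ℕ → ℕ → Bool := onCell 0 536870912 0 1230186008 587336777 62277027
    (rowF 0 false true true .pnn 2 1 3 (qsf 0 536870912 0 1230186008 1) ndB0q2 ndB7q3 pcB1 cut_B07pp_213_s1 Ext.none)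

def k0_B07pp_213_s1 : ∃ t, chk3 f_B07pp_213_s1 t 1 1 1 = true :=
  ⟨(a (b (l 3) (l 5)) (b (b (a (l 3) (b (a (l 3) (l 14)) (l 3))) (l 3)) (b (l 3) (l 3)))), by decide +kernel⟩

theorem c_B07pp_213_s1 : CertF 0 536870912 0 1230186008 587336777 62277027 false true true .pnn 2 1 3
    ndB0q2 ndB7q3 pcB1 cut_B07pp_213_s1 Ext.none :=
  certF0 (fam := false) (s1 := true) (s2 := true) (a := 2) (b := 1) (c := 3) (cn := .pnn) (n1 := ndB0q2) (n2 := ndB7q3) (pc := pcB1) (cut := cut_B07pp_213_s1) (xt := Ext.none) (P1 := 0) (W1 := 536870912) (P2 := 0) (W2 := 1230186008) (P3 := 587336777) (W3 := 62277027)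
    rfl k0_B07pp_213_s1

theorem s_B07pp_213_s1 {κ x : ℝ} (hκ : κ * h0 = ken x) (hx : ((587336777 : ℕ) : ℝ) / S ≤ x)
    (hx' : x ≤ (((587336777 : ℕ) : ℝ) + (62277027 : ℕ)) / S)
    (H : CutB (VFD κ) PP tK tL pcB (Cut.of [[⟨0, 1, 0, 67108864⟩, ⟨1, 1, 0, 67108864⟩, ⟨2, 2, 0, 16777216⟩]]) 2 1 3 0 7 (sgb true) (sgb true) x) :
    AltB (VFD κ) PP tK tL pcB [⟨3, 0, 0, 1449551462⟩] 2 1 3 0 7 (sgb true) (sgb true) x :=
  strip_altBD (m := 1449551462) true rfl hκ (SH.κ0 hκ (SH.hx1 hx).le (SH.hx2 hx').le) (SH.hx1 hx).le (SH.hx2 hx') (covB02).cov (covB73).cov hx hx' c_B07pp_213_s1 H (noExt_B)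

noncomputable def cut_B07pm_001_s1 : Cut := Cut.of [[⟨4, 0, 0, 1449551462⟩]]

noncomputable def f_B07pm_001_s1 : ℕ → ℕ → ℕ → ℕ → Bool := onCell 0 536870912 536870912 536870912 587336777 62277027
    (rowF 0 false true false .up 0 0 1 (qsf 0 536870912 536870912 536870912 0) ndB0q0 ndB7q1 pcB0 cut_B07pm_001_s1 Ext.none)

def k0_B07pm_001_s1 : ∃ t, chk3 f_B07pm_001_s1 t 1 1 1 = true :=
  ⟨(l 4), by decide +kernel⟩

theorem c_B07pm_001_s1 : CertF 0 536870912 536870912 536870912 587336777 62277027 false true false .up 0 0 1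
    ndB0q0 ndB7q1 pcB0 cut_B07pm_001_s1 Ext.none :=
  certF0 (fam := false) (s1 := true) (s2 := false) (a := 0) (b := 0) (c := 1) (cn := .up) (n1 := ndB0q0) (n2 := ndB7q1) (pc := pcB0) (cut := cut_B07pm_001_s1) (xt := Ext.none) (P1 := 0) (W1 := 536870912) (P2 := 536870912) (W2 := 536870912) (P3 := 587336777) (W3 := 62277027)
    rfl k0_B07pm_001_s1

theorem s_B07pm_001_s1 {κ x : ℝ} (hκ : κ * h0 = ken x) (hx : ((587336777 : ℕ) : ℝ) / S ≤ x)
    (hx' : x ≤ (((587336777 : ℕ) : ℝ) + (62277027 : ℕ)) / S) :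
    AltB (VFD κ) PP tK tL pcB [⟨3, 0, 0, 1449551462⟩] 0 0 1 0 7 (sgb true) (sgb false) x :=
  strip_altBD (m := 1449551462) true rfl hκ (SH.κ0 hκ (SH.hx1 hx).le (SH.hx2 hx').le) (SH.hx1 hx).le (SH.hx2 hx') (covB00).cov (covB71).cov hx hx' c_B07pm_001_s1 cutB_nil (noExt_B)

noncomputable def cut_B07pm_011_s1 : Cut := Cut.of [[⟨4, 0, 0, 1449551462⟩]]

noncomputable def f_B07pm_011_s1 : ℕ → ℕ → ℕ → ℕ → Bool := onCell 0 536870912 536870912 536870912 587336777 62277027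
    (rowF 0 false true false .pnn 0 1 1 (qsf 0 536870912 536870912 536870912 1) ndB0q0 ndB7q1 pcB1 cut_B07pm_011_s1 Ext.none)

def k0_B07pm_011_s1 : ∃ t, chk3 f_B07pm_011_s1 t 1 1 1 = true :=
  ⟨(l 4), by decide +kernel⟩

theorem c_B07pm_011_s1 : CertF 0 536870912 536870912 536870912 587336777 62277027 false true false .pnn 0 1 1
    ndB0q0 ndB7q1 pcB1 cut_B07pm_011_s1 Ext.none :=
  certF0 (fam := false) (s1 := true) (s2 := false) (a := 0) (b := 1) (c := 1) (cn := .pnn) (n1 := ndB0q0) (n2 := ndB7q1) (pc := pcB1) (cut := cut_B07pm_011_s1) (xt := Ext.none) (P1 := 0) (W1 := 536870912) (P2 := 536870912) (W2 := 536870912) (P3 := 587336777) (W3 := 62277027)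
    rfl k0_B07pm_011_s1

theorem s_B07pm_011_s1 {κ x : ℝ} (hκ : κ * h0 = ken x) (hx : ((587336777 : ℕ) : ℝ) / S ≤ x)
    (hx' : x ≤ (((587336777 : ℕ) : ℝ) + (62277027 : ℕ)) / S) :
    AltB (VFD κ) PP tK tL pcB [⟨3, 0, 0, 1449551462⟩] 0 1 1 0 7 (sgb true) (sgb false) x :=
  strip_altBD (m := 1449551462) true rfl hκ (SH.κ0 hκ (SH.hx1 hx).le (SH.hx2 hx').le) (SH.hx1 hx).le (SH.hx2 hx') (covB00).cov (covB71).cov hx hx' c_B07pm_011_s1 cutB_nil (noExt_B)

noncomputable def cut_B07pm_012_s1 : Cut := Cut.of [[⟨4, 0, 0, 1449551462⟩]]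

noncomputable def f_B07pm_012_s1 : ℕ → ℕ → ℕ → ℕ → Bool := onCell 0 536870912 1073741824 536870912 587336777 62277027
    (rowF 0 false true false .pnp 0 1 2 (qsf 0 536870912 1073741824 536870912 1) ndB0q0 ndB7q2 pcB1 cut_B07pm_012_s1 Ext.none)

def k0_B07pm_012_s1 : ∃ t, chk3 f_B07pm_012_s1 t 1 1 1 = true :=
  ⟨(l 4), by decide +kernel⟩

theorem c_B07pm_012_s1 : CertF 0 536870912 1073741824 536870912 587336777 62277027 false true false .pnp 0 1 2
    ndB0q0 ndB7q2 pcB1 cut_B07pm_012_s1 Ext.none :=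
  certF0 (fam := false) (s1 := true) (s2 := false) (a := 0) (b := 1) (c := 2) (cn := .pnp) (n1 := ndB0q0) (n2 := ndB7q2) (pc := pcB1) (cut := cut_B07pm_012_s1) (xt := Ext.none) (P1 := 0) (W1 := 536870912) (P2 := 1073741824) (W2 := 536870912) (P3 := 587336777) (W3 := 62277027)
    rfl k0_B07pm_012_s1

theorem s_B07pm_012_s1 {κ x : ℝ} (hκ : κ * h0 = ken x) (hx : ((587336777 : ℕ) : ℝ) / S ≤ x)
    (hx' : x ≤ (((587336777 : ℕ) : ℝ) + (62277027 : ℕ)) / S) :
    AltB (VFD κ) PP tK tL pcB [⟨3, 0, 0, 1449551462⟩] 0 1 2 0 7 (sgb true) (sgb false) x :=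
  strip_altBD (m := 1449551462) true rfl hκ (SH.κ0 hκ (SH.hx1 hx).le (SH.hx2 hx').le) (SH.hx1 hx).le (SH.hx2 hx') (covB00).cov (covB72).cov hx hx' c_B07pm_012_s1 cutB_nil (noExt_B)

noncomputable def cut_B07pm_022_s1 : Cut := Cut.of [[⟨4, 0, 0, 1449551462⟩]]

noncomputable def f_B07pm_022_s1 : ℕ → ℕ → ℕ → ℕ → Bool := onCell 0 536870912 1073741824 536870912 587336777 62277027
    (rowF 0 false true false .pp 0 2 2 (qsf 0 536870912 1073741824 536870912 2) ndB0q0 ndB7q2 pcB2 cut_B07pm_022_s1 Ext.none)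

def k0_B07pm_022_s1 : ∃ t, chk3 f_B07pm_022_s1 t 1 1 1 = true :=
  ⟨(l 4), by decide +kernel⟩

theorem c_B07pm_022_s1 : CertF 0 536870912 1073741824 536870912 587336777 62277027 false true false .pp 0 2 2
    ndB0q0 ndB7q2 pcB2 cut_B07pm_022_s1 Ext.none :=
  certF0 (fam := false) (s1 := true) (s2 := false) (a := 0) (b := 2) (c := 2) (cn := .pp) (n1 := ndB0q0) (n2 := ndB7q2) (pc := pcB2) (cut := cut_B07pm_022_s1) (xt := Ext.none) (P1 := 0) (W1 := 536870912) (P2 := 1073741824) (W2 := 536870912) (P3 := 587336777) (W3 := 62277027)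
    rfl k0_B07pm_022_s1

theorem s_B07pm_022_s1 {κ x : ℝ} (hκ : κ * h0 = ken x) (hx : ((587336777 : ℕ) : ℝ) / S ≤ x)
    (hx' : x ≤ (((587336777 : ℕ) : ℝ) + (62277027 : ℕ)) / S) :
    AltB (VFD κ) PP tK tL pcB [⟨3, 0, 0, 1449551462⟩] 0 2 2 0 7 (sgb true) (sgb false) x :=
  strip_altBD (m := 1449551462) true rfl hκ (SH.κ0 hκ (SH.hx1 hx).le (SH.hx2 hx').le) (SH.hx1 hx).le (SH.hx2 hx') (covB00).cov (covB72).cov hx hx' c_B07pm_022_s1 cutB_nil (noExt_B)

noncomputable def cut_B07pm_023_s1 : Cut := Cut.of [[⟨4, 0, 0, 1449551462⟩]]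

noncomputable def f_B07pm_023_s1 : ℕ → ℕ → ℕ → ℕ → Bool := onCell 0 536870912 0 1230186008 587336777 62277027
    (rowF 0 false true false .up 0 2 3 (qsf 0 536870912 0 1230186008 2) ndB0q0 ndB7q3 pcB2 cut_B07pm_023_s1 Ext.none)

def k0_B07pm_023_s1 : ∃ t, chk3 f_B07pm_023_s1 t 1 1 1 = true :=
  ⟨(l 6), by decide +kernel⟩

theorem c_B07pm_023_s1 : CertF 0 536870912 0 1230186008 587336777 62277027 false true false .up 0 2 3
    ndB0q0 ndB7q3 pcB2 cut_B07pm_023_s1 Ext.none :=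
  certF0 (fam := false) (s1 := true) (s2 := false) (a := 0) (b := 2) (c := 3) (cn := .up) (n1 := ndB0q0) (n2 := ndB7q3) (pc := pcB2) (cut := cut_B07pm_023_s1) (xt := Ext.none) (P1 := 0) (W1 := 536870912) (P2 := 0) (W2 := 1230186008) (P3 := 587336777) (W3 := 62277027)
    rfl k0_B07pm_023_s1

theorem s_B07pm_023_s1 {κ x : ℝ} (hκ : κ * h0 = ken x) (hx : ((587336777 : ℕ) : ℝ) / S ≤ x)
    (hx' : x ≤ (((587336777 : ℕ) : ℝ) + (62277027 : ℕ)) / S) :
    AltB (VFD κ) PP tK tL pcB [⟨3, 0, 0, 1449551462⟩] 0 2 3 0 7 (sgb true) (sgb false) x :=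
  strip_altBD (m := 1449551462) true rfl hκ (SH.κ0 hκ (SH.hx1 hx).le (SH.hx2 hx').le) (SH.hx1 hx).le (SH.hx2 hx') (covB00).cov (covB73).cov hx hx' c_B07pm_023_s1 cutB_nil (noExt_B)

noncomputable def cut_B07pm_033_s1 : Cut := Cut.of [[⟨4, 0, 0, 1449551462⟩]]

noncomputable def f_B07pm_033_s1 : ℕ → ℕ → ℕ → ℕ → Bool := onCell 0 536870912 0 1230186008 587336777 62277027
    (rowF 0 false true false .pnn 0 3 3 (qsf 0 536870912 0 1230186008 3) ndB0q0 ndB7q3 pcB3 cut_B07pm_033_s1 Ext.none)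

def k0_B07pm_033_s1 : ∃ t, chk3 f_B07pm_033_s1 t 1 1 1 = true :=
  ⟨(l 6), by decide +kernel⟩

theorem c_B07pm_033_s1 : CertF 0 536870912 0 1230186008 587336777 62277027 false true false .pnn 0 3 3
    ndB0q0 ndB7q3 pcB3 cut_B07pm_033_s1 Ext.none :=
  certF0 (fam := false) (s1 := true) (s2 := false) (a := 0) (b := 3) (c := 3) (cn := .pnn) (n1 := ndB0q0) (n2 := ndB7q3) (pc := pcB3) (cut := cut_B07pm_033_s1) (xt := Ext.none) (P1 := 0) (W1 := 536870912) (P2 := 0) (W2 := 1230186008) (P3 := 587336777) (W3 := 62277027)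
    rfl k0_B07pm_033_s1

theorem s_B07pm_033_s1 {κ x : ℝ} (hκ : κ * h0 = ken x) (hx : ((587336777 : ℕ) : ℝ) / S ≤ x)
    (hx' : x ≤ (((587336777 : ℕ) : ℝ) + (62277027 : ℕ)) / S) :
    AltB (VFD κ) PP tK tL pcB [⟨3, 0, 0, 1449551462⟩] 0 3 3 0 7 (sgb true) (sgb false) x :=
  strip_altBD (m := 1449551462) true rfl hκ (SH.κ0 hκ (SH.hx1 hx).le (SH.hx2 hx').le) (SH.hx1 hx).le (SH.hx2 hx') (covB00).cov (covB73).cov hx hx' c_B07pm_033_s1 cutB_nil (noExt_B)

noncomputable def cut_B07pm_101_s1 : Cut := Cut.of [[⟨4, 0, 0, 1449551462⟩]]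

noncomputable def f_B07pm_101_s1 : ℕ → ℕ → ℕ → ℕ → Bool := onCell 536870912 536870912 536870912 536870912 587336777 62277027
    (rowF 0 false true false .npn 1 0 1 (qsf 536870912 536870912 536870912 536870912 0) ndB0q1 ndB7q1 pcB0 cut_B07pm_101_s1 Ext.none)

def k0_B07pm_101_s1 : ∃ t, chk3 f_B07pm_101_s1 t 1 1 1 = true :=
  ⟨(l 4), by decide +kernel⟩

theorem c_B07pm_101_s1 : CertF 536870912 536870912 536870912 536870912 587336777 62277027 false true false .npn 1 0 1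
    ndB0q1 ndB7q1 pcB0 cut_B07pm_101_s1 Ext.none :=
  certF0 (fam := false) (s1 := true) (s2 := false) (a := 1) (b := 0) (c := 1) (cn := .npn) (n1 := ndB0q1) (n2 := ndB7q1) (pc := pcB0) (cut := cut_B07pm_101_s1) (xt := Ext.none) (P1 := 536870912) (W1 := 536870912) (P2 := 536870912) (W2 := 536870912) (P3 := 587336777) (W3 := 62277027)
    rfl k0_B07pm_101_s1

theorem s_B07pm_101_s1 {κ x : ℝ} (hκ : κ * h0 = ken x) (hx : ((587336777 : ℕ) : ℝ) / S ≤ x)
    (hx' : x ≤ (((587336777 : ℕ) : ℝ) + (62277027 : ℕ)) / S) :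
    AltB (VFD κ) PP tK tL pcB [⟨3, 0, 0, 1449551462⟩] 1 0 1 0 7 (sgb true) (sgb false) x :=
  strip_altBD (m := 1449551462) true rfl hκ (SH.κ0 hκ (SH.hx1 hx).le (SH.hx2 hx').le) (SH.hx1 hx).le (SH.hx2 hx') (covB01).cov (covB71).cov hx hx' c_B07pm_101_s1 cutB_nil (noExt_B)

noncomputable def cut_B07pm_102_s1 : Cut := Cut.of [[⟨4, 0, 0, 1449551462⟩]]

noncomputable def f_B07pm_102_s1 : ℕ → ℕ → ℕ → ℕ → Bool := onCell 536870912 536870912 1073741824 536870912 587336777 62277027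
    (rowF 0 false true false .npp 1 0 2 (qsf 536870912 536870912 1073741824 536870912 0) ndB0q1 ndB7q2 pcB0 cut_B07pm_102_s1 Ext.none)

def k0_B07pm_102_s1 : ∃ t, chk3 f_B07pm_102_s1 t 1 1 1 = true :=
  ⟨(l 6), by decide +kernel⟩

theorem c_B07pm_102_s1 : CertF 536870912 536870912 1073741824 536870912 587336777 62277027 false true false .npp 1 0 2
    ndB0q1 ndB7q2 pcB0 cut_B07pm_102_s1 Ext.none :=
  certF0 (fam := false) (s1 := true) (s2 := false) (a := 1) (b := 0) (c := 2) (cn := .npp) (n1 := ndB0q1) (n2 := ndB7q2) (pc := pcB0) (cut := cut_B07pm_102_s1) (xt := Ext.none) (P1 := 536870912) (W1 := 536870912) (P2 := 1073741824) (W2 := 536870912) (P3 := 587336777) (W3 := 62277027)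
    rfl k0_B07pm_102_s1

theorem s_B07pm_102_s1 {κ x : ℝ} (hκ : κ * h0 = ken x) (hx : ((587336777 : ℕ) : ℝ) / S ≤ x)
    (hx' : x ≤ (((587336777 : ℕ) : ℝ) + (62277027 : ℕ)) / S) :
    AltB (VFD κ) PP tK tL pcB [⟨3, 0, 0, 1449551462⟩] 1 0 2 0 7 (sgb true) (sgb false) x :=
  strip_altBD (m := 1449551462) true rfl hκ (SH.κ0 hκ (SH.hx1 hx).le (SH.hx2 hx').le) (SH.hx1 hx).le (SH.hx2 hx') (covB01).cov (covB72).cov hx hx' c_B07pm_102_s1 cutB_nil (noExt_B)

noncomputable def cut_B07pm_112_s1 : Cut := Cut.of [[⟨4, 0, 0, 1449551462⟩]]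

noncomputable def f_B07pm_112_s1 : ℕ → ℕ → ℕ → ℕ → Bool := onCell 536870912 536870912 1073741824 536870912 587336777 62277027
    (rowF 0 false true false .dn 1 1 2 (qsf 536870912 536870912 1073741824 536870912 1) ndB0q1 ndB7q2 pcB1 cut_B07pm_112_s1 Ext.none)

def k0_B07pm_112_s1 : ∃ t, chk3 f_B07pm_112_s1 t 1 1 1 = true :=
  ⟨(l 6), by decide +kernel⟩

theorem c_B07pm_112_s1 : CertF 536870912 536870912 1073741824 536870912 587336777 62277027 false true false .dn 1 1 2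
    ndB0q1 ndB7q2 pcB1 cut_B07pm_112_s1 Ext.none :=
  certF0 (fam := false) (s1 := true) (s2 := false) (a := 1) (b := 1) (c := 2) (cn := .dn) (n1 := ndB0q1) (n2 := ndB7q2) (pc := pcB1) (cut := cut_B07pm_112_s1) (xt := Ext.none) (P1 := 536870912) (W1 := 536870912) (P2 := 1073741824) (W2 := 536870912) (P3 := 587336777) (W3 := 62277027)
    rfl k0_B07pm_112_s1

theorem s_B07pm_112_s1 {κ x : ℝ} (hκ : κ * h0 = ken x) (hx : ((587336777 : ℕ) : ℝ) / S ≤ x)
    (hx' : x ≤ (((587336777 : ℕ) : ℝ) + (62277027 : ℕ)) / S) :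
    AltB (VFD κ) PP tK tL pcB [⟨3, 0, 0, 1449551462⟩] 1 1 2 0 7 (sgb true) (sgb false) x :=
  strip_altBD (m := 1449551462) true rfl hκ (SH.κ0 hκ (SH.hx1 hx).le (SH.hx2 hx').le) (SH.hx1 hx).le (SH.hx2 hx') (covB01).cov (covB72).cov hx hx' c_B07pm_112_s1 cutB_nil (noExt_B)

noncomputable def cut_B07pm_113_s1 : Cut := Cut.of [[⟨4, 0, 0, 1449551462⟩], [⟨0, 1, 0, 67108864⟩, ⟨1, 1, 0, 67108864⟩, ⟨2, 2, 0, 16777216⟩]]

noncomputable def f_B07pm_113_s1 : ℕ → ℕ → ℕ → ℕ → Bool := onCell 536870912 536870912 0 1230186008 587336777 62277027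
    (rowF 0 false true false .nn 1 1 3 (qsf 536870912 536870912 0 1230186008 1) ndB0q1 ndB7q3 pcB1 cut_B07pm_113_s1 Ext.none)

def k0_B07pm_113_s1 : ∃ t, chk3 f_B07pm_113_s1 t 1 1 1 = true :=
  ⟨(b (a (l 2) (a (l 2) (b (a (l 2) (a (l 2) (b (l 14) (b (l 14) (l 16780448))))) (a (l 6) (b (a (l 6) (l 16790424)) (l 6)))))) (a (l 6) (l 6))), by decide +kernel⟩

theorem c_B07pm_113_s1 : CertF 536870912 536870912 0 1230186008 587336777 62277027 false true false .nn 1 1 3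
    ndB0q1 ndB7q3 pcB1 cut_B07pm_113_s1 Ext.none :=
  certF0 (fam := false) (s1 := true) (s2 := false) (a := 1) (b := 1) (c := 3) (cn := .nn) (n1 := ndB0q1) (n2 := ndB7q3) (pc := pcB1) (cut := cut_B07pm_113_s1) (xt := Ext.none) (P1 := 536870912) (W1 := 536870912) (P2 := 0) (W2 := 1230186008) (P3 := 587336777) (W3 := 62277027)
    rfl k0_B07pm_113_s1

theorem s_B07pm_113_s1 {κ x : ℝ} (hκ : κ * h0 = ken x) (hx : ((587336777 : ℕ) : ℝ) / S ≤ x)
    (hx' : x ≤ (((587336777 : ℕ) : ℝ) + (62277027 : ℕ)) / S)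
    (H : CutB (VFD κ) PP tK tL pcB (Cut.of [[⟨0, 1, 0, 67108864⟩, ⟨1, 1, 0, 67108864⟩, ⟨2, 2, 0, 16777216⟩]]) 1 1 3 0 7 (sgb true) (sgb false) x) :
    AltB (VFD κ) PP tK tL pcB [⟨3, 0, 0, 1449551462⟩] 1 1 3 0 7 (sgb true) (sgb false) x :=
  strip_altBD (m := 1449551462) true rfl hκ (SH.κ0 hκ (SH.hx1 hx).le (SH.hx2 hx').le) (SH.hx1 hx).le (SH.hx2 hx') (covB01).cov (covB73).cov hx hx' c_B07pm_113_s1 H (noExt_B)

noncomputable def cut_B07pm_123_s1 : Cut := Cut.of [[⟨4, 0, 0, 1449551462⟩], [⟨0, 1, 0, 67108864⟩, ⟨1, 1, 0, 67108864⟩, ⟨2, 2, 0, 16777216⟩]]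

noncomputable def f_B07pm_123_s1 : ℕ → ℕ → ℕ → ℕ → Bool := onCell 1073741824 536870912 0 1230186008 587336777 62277027
    (rowF 2 false true false .npn 1 2 3 (qsf 536870912 536870912 0 1230186008 2) ndB0q1 ndB7q3 pcB2 cut_B07pm_123_s1 Ext.none)

def k0_B07pm_123_s1 : ∃ t, chk3 f_B07pm_123_s1 t 1 1 1 = true :=
  ⟨(b (a (a (b (a (b (a (l 14) (b (l 16759592) (l 16752848))) (b (l 16880232) (l 16751344))) (b (a (l 16739928) (l 16720104)) (l 6))) (b (l 6) (l 6))) (b (b (l 6) (l 6)) (l 6))) (l 6)) (l 6)), by decide +kernel⟩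

theorem c_B07pm_123_s1 : CertF 536870912 536870912 0 1230186008 587336777 62277027 false true false .npn 1 2 3
    ndB0q1 ndB7q3 pcB2 cut_B07pm_123_s1 Ext.none :=
  certF2 (fam := false) (s1 := true) (s2 := false) (a := 1) (b := 2) (c := 3) (cn := .npn) (n1 := ndB0q1) (n2 := ndB7q3) (pc := pcB2) (cut := cut_B07pm_123_s1) (xt := Ext.none) (P1 := 536870912) (W1 := 536870912) (P2 := 0) (W2 := 1230186008) (P3 := 587336777) (W3 := 62277027)
    rfl (fun _ => rfl) k0_B07pm_123_s1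

theorem s_B07pm_123_s1 {κ x : ℝ} (hκ : κ * h0 = ken x) (hx : ((587336777 : ℕ) : ℝ) / S ≤ x)
    (hx' : x ≤ (((587336777 : ℕ) : ℝ) + (62277027 : ℕ)) / S)
    (H : CutB (VFD κ) PP tK tL pcB (Cut.of [[⟨0, 1, 0, 67108864⟩, ⟨1, 1, 0, 67108864⟩, ⟨2, 2, 0, 16777216⟩]]) 1 2 3 0 7 (sgb true) (sgb false) x) :
    AltB (VFD κ) PP tK tL pcB [⟨3, 0, 0, 1449551462⟩] 1 2 3 0 7 (sgb true) (sgb false) x :=
  strip_altBD (m := 1449551462) true rfl hκ (SH.κ0 hκ (SH.hx1 hx).le (SH.hx2 hx').le) (SH.hx1 hx).le (SH.hx2 hx') (covB01).cov (covB73).cov hx hx' c_B07pm_123_s1 H (noExt_B)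

noncomputable def cut_B07pm_133_s1 : Cut := Cut.of [[⟨4, 0, 0, 1449551462⟩]]

noncomputable def f_B07pm_133_s1 : ℕ → ℕ → ℕ → ℕ → Bool := onCell 1610612736 536870912 0 1230186008 587336777 62277027
    (rowF 2 false true false .dn 1 3 3 (qsf 536870912 536870912 0 1230186008 3) ndB0q1 ndB7q3 pcB3 cut_B07pm_133_s1 Ext.none)

def k0_B07pm_133_s1 : ∃ t, chk3 f_B07pm_133_s1 t 1 1 1 = true :=
  ⟨(l 6), by decide +kernel⟩

theorem c_B07pm_133_s1 : CertF 536870912 536870912 0 1230186008 587336777 62277027 false true false .dn 1 3 3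
    ndB0q1 ndB7q3 pcB3 cut_B07pm_133_s1 Ext.none :=
  certF2 (fam := false) (s1 := true) (s2 := false) (a := 1) (b := 3) (c := 3) (cn := .dn) (n1 := ndB0q1) (n2 := ndB7q3) (pc := pcB3) (cut := cut_B07pm_133_s1) (xt := Ext.none) (P1 := 536870912) (W1 := 536870912) (P2 := 0) (W2 := 1230186008) (P3 := 587336777) (W3 := 62277027)
    rfl (fun _ => rfl) k0_B07pm_133_s1

theorem s_B07pm_133_s1 {κ x : ℝ} (hκ : κ * h0 = ken x) (hx : ((587336777 : ℕ) : ℝ) / S ≤ x)
    (hx' : x ≤ (((587336777 : ℕ) : ℝ) + (62277027 : ℕ)) / S) :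
    AltB (VFD κ) PP tK tL pcB [⟨3, 0, 0, 1449551462⟩] 1 3 3 0 7 (sgb true) (sgb false) x :=
  strip_altBD (m := 1449551462) true rfl hκ (SH.κ0 hκ (SH.hx1 hx).le (SH.hx2 hx').le) (SH.hx1 hx).le (SH.hx2 hx') (covB01).cov (covB73).cov hx hx' c_B07pm_133_s1 cutB_nil (noExt_B)

noncomputable def cut_B07pm_202_s1 : Cut := Cut.of [[⟨4, 0, 0, 1449551462⟩]]

noncomputable def f_B07pm_202_s1 : ℕ → ℕ → ℕ → ℕ → Bool := onCell 0 536870912 1073741824 536870912 587336777 62277027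
    (rowF 0 false true false .pp 2 0 2 (qsf 0 536870912 1073741824 536870912 0) ndB0q2 ndB7q2 pcB0 cut_B07pm_202_s1 Ext.none)

def k0_B07pm_202_s1 : ∃ t, chk3 f_B07pm_202_s1 t 1 1 1 = true :=
  ⟨(a (b (l 6) (a (l 6) (l 6))) (l 6)), by decide +kernel⟩

theorem c_B07pm_202_s1 : CertF 0 536870912 1073741824 536870912 587336777 62277027 false true false .pp 2 0 2
    ndB0q2 ndB7q2 pcB0 cut_B07pm_202_s1 Ext.none :=
  certF0 (fam := false) (s1 := true) (s2 := false) (a := 2) (b := 0) (c := 2) (cn := .pp) (n1 := ndB0q2) (n2 := ndB7q2) (pc := pcB0) (cut := cut_B07pm_202_s1) (xt := Ext.none) (P1 := 0) (W1 := 536870912) (P2 := 1073741824) (W2 := 536870912) (P3 := 587336777) (W3 := 62277027)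
    rfl k0_B07pm_202_s1

theorem s_B07pm_202_s1 {κ x : ℝ} (hκ : κ * h0 = ken x) (hx : ((587336777 : ℕ) : ℝ) / S ≤ x)
    (hx' : x ≤ (((587336777 : ℕ) : ℝ) + (62277027 : ℕ)) / S) :
    AltB (VFD κ) PP tK tL pcB [⟨3, 0, 0, 1449551462⟩] 2 0 2 0 7 (sgb true) (sgb false) x :=
  strip_altBD (m := 1449551462) true rfl hκ (SH.κ0 hκ (SH.hx1 hx).le (SH.hx2 hx').le) (SH.hx1 hx).le (SH.hx2 hx') (covB02).cov (covB72).cov hx hx' c_B07pm_202_s1 cutB_nil (noExt_B)

noncomputable def cut_B07pm_203_s1 : Cut := Cut.of [[⟨4, 0, 0, 1449551462⟩]]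

noncomputable def f_B07pm_203_s1 : ℕ → ℕ → ℕ → ℕ → Bool := onCell 0 536870912 0 1230186008 587336777 62277027
    (rowF 0 false true false .up 2 0 3 (qsf 0 536870912 0 1230186008 0) ndB0q2 ndB7q3 pcB0 cut_B07pm_203_s1 Ext.none)

def k0_B07pm_203_s1 : ∃ t, chk3 f_B07pm_203_s1 t 1 1 1 = true :=
  ⟨(b (l 2) (b (l 2) (a (a (b (b (l 2) (a (b (l 2) (l 182637011543)) (l 183174021527))) (a (b (b (l 16692040) (l 16773384)) (b (l 16750608) (l 16732648))) (b (l 16784976) (l 6)))) (b (a (b (l 2) (l 16824064)) (l 6)) (l 6))) (l 6)))), by decide +kernel⟩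

theorem c_B07pm_203_s1 : CertF 0 536870912 0 1230186008 587336777 62277027 false true false .up 2 0 3
    ndB0q2 ndB7q3 pcB0 cut_B07pm_203_s1 Ext.none :=
  certF0 (fam := false) (s1 := true) (s2 := false) (a := 2) (b := 0) (c := 3) (cn := .up) (n1 := ndB0q2) (n2 := ndB7q3) (pc := pcB0) (cut := cut_B07pm_203_s1) (xt := Ext.none) (P1 := 0) (W1 := 536870912) (P2 := 0) (W2 := 1230186008) (P3 := 587336777) (W3 := 62277027)
    rfl k0_B07pm_203_s1

theorem s_B07pm_203_s1 {κ x : ℝ} (hκ : κ * h0 = ken x) (hx : ((587336777 : ℕ) : ℝ) / S ≤ x)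
    (hx' : x ≤ (((587336777 : ℕ) : ℝ) + (62277027 : ℕ)) / S) :
    AltB (VFD κ) PP tK tL pcB [⟨3, 0, 0, 1449551462⟩] 2 0 3 0 7 (sgb true) (sgb false) x :=
  strip_altBD (m := 1449551462) true rfl hκ (SH.κ0 hκ (SH.hx1 hx).le (SH.hx2 hx').le) (SH.hx1 hx).le (SH.hx2 hx') (covB02).cov (covB73).cov hx hx' c_B07pm_203_s1 cutB_nil (noExt_B)

noncomputable def cut_B07pm_213_s1 : Cut := Cut.of [[⟨4, 0, 0, 1449551462⟩], [⟨0, 1, 0, 67108864⟩, ⟨1, 1, 0, 67108864⟩, ⟨2, 2, 0, 16777216⟩]]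

noncomputable def xt_B07pm_213_s1 : Ext := strExt0 dd false true false .u2 .s2m .u0m .pnn 2 1 3 rfl rfl gf1 vv ww kz ndB0q2 ndB7q3

noncomputable def f_B07pm_213_s1 : ℕ → ℕ → ℕ → ℕ → Bool := onCell 0 536870912 0 1230186008 587336777 62277027
    (rowF 0 false true false .pnn 2 1 3 (qsf 0 536870912 0 1230186008 1) ndB0q2 ndB7q3 pcB1 cut_B07pm_213_s1 xt_B07pm_213_s1)

def k0_B07pm_213_s1 : ∃ t, chk3 f_B07pm_213_s1 t 1 2 1 = true :=
  ⟨(a (b (l 3) (a (l 3) (b (l 3) (a (b (l 3) (a (l 3) (l 1072486927))) (b (a (l 3) (l 1073670159)) (a (b (l 1073018895) (l 1072806415)) (b (l 1073408527) (a (l 16774168) (l 16773584))))))))) (b (a (b (l 3) (a (l 3) (a (l 3) (b (l 3) (l 1074566671))))) (b (a (a (l 3) (l 14)) (l 14)) (a (b (a (l 1074279951) (a (l 1074172943) (l 14))) (a (b (l 1074472463) (a (l 16790760) (l 16782200))) (b (a (l 16781000) (l 16781528)) (l 16782192)))) (a (b (a (l 14) (l 14)) (l 16783800)) (a (b (l 14) (l 16785024))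 (l 16784256)))))) (a (b (a (b (a (l 3) (l 1074338319)) (a (l 1074001423) (l 1074256399))) (b (a (l 1074521615) (b (l 1074652687) (a (l 16781376) (l 16783776)))) (a (b (a (l 1074425871) (l 16781304)) (a (l 16780896) (l 16783440))) (b (l 16785480) (l 16786416))))) (a (b (a (b (l 1073945615) (a (l 1073882639) (l 16778032))) (b (a (l 16778984) (l 16780360)) (a (l 16779872) (l 16781240)))) (a (b (a (l 16776336) (l 16778848)) (a (l 16775384) (l 16776512))) (l 16780448))) (b (a (b (l 16786408) (l 16784408)) (l 16789056)) (a (l 16783848) (l 16790880))))) (a (b (a (b (b (a (l 16783144) (l 16784336)) (l 16785912)) (l 16789440)) (b (l 16787352) (l 16792208))) (b (a (l 16792928) (l 16796800)) (a (l 16795736) (l 6)))) (b (b (a (l 16789552) (l 16791944)) (l 16797040)) (b (l 6) (l 6))))))), by decide +kernel⟩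

def k1_B07pm_213_s1 : ∃ t, chk3 f_B07pm_213_s1 t 1 6 1 = true :=
  ⟨(a (b (a (a (l 3) (b (l 3) (a (l 3) (b (l 1072522255) (a (l 1072808975) (l 1072814095)))))) (a (b (a (c (l 1072449039) (l 1074504207)) (b (l 1072343567) (l 1074619919))) (a (b (l 1072518159) (a (l 1072805391) (b (l 16772016) (l 16770896)))) (b (a (b (l 16772048) (l 16770280)) (l 16727512)) (a (l 16686160) (l 16767984))))) (b (a (b (a (l 1072596495) (b (l 16772752) (l 16770480))) (a (b (l 16770584) (l 16769336)) (l 16769984))) (b (a (l 16687552) (l 16771648)) (l 16769944))) (a (b (a (l 16768760) (l 16768256)) (l 16767288)) (l 16683880))))) (a (a (b (a (l 3) (b (l 3) (l 1073683471))) (a (l 1075462159) (b (l 1073706511) (a (l 1073651215) (l 16775376))))) (b (a (b (l 1073234447) (l 1073485327)) (b (a (l 1073128975) (b (l 16774472) (l 16773504))) (a (b (l 16775144) (l 16774512)) (l 16773736)))) (a (b (a (b (l 16776688) (l 16775664)) (l 16775296)) (a (l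 16775952) (l 16773208))) (b (a (l 16774080) (l 16771048)) (l 16769824))))) (a (b (a (b (a (l 16772232) (l 16770600)) (l 16769424)) (l 16766616)) (a (l 16764200) (l 16763224))) (b (b (l 16681536) (l 16766552)) (a (l 16763736) (l 16762440)))))) (a (b (b (a (a (l 16773808) (l 16693752)) (b (l 16705992) (l 16790952))) (a (a (l 16689032) (l 16780904)) (l 16872760))) (b (a (l 16852584) (l 6)) (l 6))) (b (l 6) (l 6)))), by decide +kernel⟩

def k2_B07pm_213_s1 : ∃ t, chk3 f_B07pm_213_s1 t 1 7 1 = true :=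
  ⟨(a (b (a (a (b (a (b (a (l 1073752591) (b (l 16777072) (l 16775752))) (a (l 16774696) (b (l 16775912) (l 16772936)))) (b (a (l 16776328) (l 16775168)) (l 16771728))) (a (b (l 16769256) (l 16760408)) (b (l 16764400) (l 16757640)))) (b (a (b (l 16771880) (l 16766304)) (b (l 16765736) (l 16763480))) (a (b (l 16761816) (l 16753040)) (b (l 16756112) (l 16746760))))) (a (b (b (l 16941240) (l 16664712)) (l 16835232)) (l 6))) (a (l 1) (l 6))) (l 6)), by decide +kernel⟩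

theorem t3_B07pm_213_s1 : ∃ t, chk3 f_B07pm_213_s1 t 1 3 1 = true := ex3_b k1_B07pm_213_s1 k2_B07pm_213_s1

theorem t4_B07pm_213_s1 : ∃ t, chk3 f_B07pm_213_s1 t 1 1 1 = true := ex3_b k0_B07pm_213_s1 t3_B07pm_213_s1

theorem c_B07pm_213_s1 : CertF 0 536870912 0 1230186008 587336777 62277027 false true false .pnn 2 1 3
    ndB0q2 ndB7q3 pcB1 cut_B07pm_213_s1 xt_B07pm_213_s1 :=
  certF0 (fam := false) (s1 := true) (s2 := false) (a := 2) (b := 1) (c := 3) (cn := .pnn) (n1 := ndB0q2) (n2 := ndB7q3) (pc := pcB1) (cut := cut_B07pm_213_s1) (xt := xt_B07pm_213_s1) (P1 := 0) (W1 := 536870912) (P2 := 0) (W2 := 1230186008) (P3 := 587336777) (W3 := 62277027)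
    rfl t4_B07pm_213_s1

theorem s_B07pm_213_s1 {κ x : ℝ} (hκ : κ * h0 = ken x) (hx : ((587336777 : ℕ) : ℝ) / S ≤ x)
    (hx' : x ≤ (((587336777 : ℕ) : ℝ) + (62277027 : ℕ)) / S)
    (H : CutB (VFD κ) PP tK tL pcB (Cut.of [[⟨0, 1, 0, 67108864⟩, ⟨1, 1, 0, 67108864⟩, ⟨2, 2, 0, 16777216⟩]]) 2 1 3 0 7 (sgb true) (sgb false) x) :
    AltB (VFD κ) PP tK tL pcB [⟨3, 0, 0, 1449551462⟩] 2 1 3 0 7 (sgb true) (sgb false) x :=
  strip_altBD (m := 1449551462) true rfl hκ (SH.κ0 hκ (SH.hx1 hx).le (SH.hx2 hx').le) (SH.hx1 hx).le (SH.hx2 hx') (covB02).cov (covB73).cov hx hx' c_B07pm_213_s1 H ((okx6 hx hx').ext0B (T := tt) (zx hx hx') (okx hx hx') (sideB hx hx') hκ rfl rfl (.O 2 true) (.N 3 false) (Or.inr rfl))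

noncomputable def cut_B07mm_001_s1 : Cut := Cut.of [[⟨4, 0, 0, 1449551462⟩]]

noncomputable def f_B07mm_001_s1 : ℕ → ℕ → ℕ → ℕ → Bool := onCell 0 536870912 0 536870912 587336777 62277027
    (rowF 1 false false false .up 0 0 1 (qsf 0 536870912 536870912 536870912 0) ndB0q0 ndB7q1 pcB0 cut_B07mm_001_s1 Ext.none)

def k0_B07mm_001_s1 : ∃ t, chk3 f_B07mm_001_s1 t 1 1 1 = true :=
  ⟨(l 3), by decide +kernel⟩

theorem c_B07mm_001_s1 : CertF 0 536870912 536870912 536870912 587336777 62277027 false false false .up 0 0 1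
    ndB0q0 ndB7q1 pcB0 cut_B07mm_001_s1 Ext.none :=
  certF1 (fam := false) (s1 := false) (s2 := false) (a := 0) (b := 0) (c := 1) (cn := .up) (n1 := ndB0q0) (n2 := ndB7q1) (pc := pcB0) (cut := cut_B07mm_001_s1) (xt := Ext.none) (P1 := 0) (W1 := 536870912) (P2 := 536870912) (W2 := 536870912) (P3 := 587336777) (W3 := 62277027)
    rfl (fun _ => rfl) k0_B07mm_001_s1

theorem s_B07mm_001_s1 {κ x : ℝ} (hκ : κ * h0 = ken x) (hx : ((587336777 : ℕ) : ℝ) / S ≤ x)
    (hx' : x ≤ (((587336777 : ℕ) : ℝ) + (62277027 : ℕ)) / S) :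
    AltB (VFD κ) PP tK tL pcB [⟨3, 0, 0, 1449551462⟩] 0 0 1 0 7 (sgb false) (sgb false) x :=
  strip_altBD (m := 1449551462) true rfl hκ (SH.κ0 hκ (SH.hx1 hx).le (SH.hx2 hx').le) (SH.hx1 hx).le (SH.hx2 hx') (covB00).cov (covB71).cov hx hx' c_B07mm_001_s1 cutB_nil (noExt_B)

noncomputable def cut_B07mm_011_s1 : Cut := Cut.of [[⟨4, 0, 0, 1449551462⟩]]

noncomputable def f_B07mm_011_s1 : ℕ → ℕ → ℕ → ℕ → Bool := onCell 0 536870912 536870912 536870912 587336777 62277027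
    (rowF 1 false false false .pnn 0 1 1 (qsf 0 536870912 536870912 536870912 1) ndB0q0 ndB7q1 pcB1 cut_B07mm_011_s1 Ext.none)

def k0_B07mm_011_s1 : ∃ t, chk3 f_B07mm_011_s1 t 1 1 1 = true :=
  ⟨(l 5), by decide +kernel⟩

theorem c_B07mm_011_s1 : CertF 0 536870912 536870912 536870912 587336777 62277027 false false false .pnn 0 1 1
    ndB0q0 ndB7q1 pcB1 cut_B07mm_011_s1 Ext.none :=
  certF1 (fam := false) (s1 := false) (s2 := false) (a := 0) (b := 1) (c := 1) (cn := .pnn) (n1 := ndB0q0) (n2 := ndB7q1) (pc := pcB1) (cut := cut_B07mm_011_s1) (xt := Ext.none) (P1 := 0) (W1 := 536870912) (P2 := 536870912) (W2 := 536870912) (P3 := 587336777) (W3 := 62277027)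
    rfl (fun _ => rfl) k0_B07mm_011_s1

theorem s_B07mm_011_s1 {κ x : ℝ} (hκ : κ * h0 = ken x) (hx : ((587336777 : ℕ) : ℝ) / S ≤ x)
    (hx' : x ≤ (((587336777 : ℕ) : ℝ) + (62277027 : ℕ)) / S) :
    AltB (VFD κ) PP tK tL pcB [⟨3, 0, 0, 1449551462⟩] 0 1 1 0 7 (sgb false) (sgb false) x :=
  strip_altBD (m := 1449551462) true rfl hκ (SH.κ0 hκ (SH.hx1 hx).le (SH.hx2 hx').le) (SH.hx1 hx).le (SH.hx2 hx') (covB00).cov (covB71).cov hx hx' c_B07mm_011_s1 cutB_nil (noExt_B)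

noncomputable def cut_B07mm_012_s1 : Cut := Cut.of [[⟨4, 0, 0, 1449551462⟩]]

noncomputable def f_B07mm_012_s1 : ℕ → ℕ → ℕ → ℕ → Bool := onCell 0 536870912 1073741824 536870912 587336777 62277027
    (rowF 0 false false false .pnp 0 1 2 (qsf 0 536870912 1073741824 536870912 1) ndB0q0 ndB7q2 pcB1 cut_B07mm_012_s1 Ext.none)

def k0_B07mm_012_s1 : ∃ t, chk3 f_B07mm_012_s1 t 1 1 1 = true :=
  ⟨(l 5), by decide +kernel⟩

theorem c_B07mm_012_s1 : CertF 0 536870912 1073741824 536870912 587336777 62277027 false false false .pnp 0 1 2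
    ndB0q0 ndB7q2 pcB1 cut_B07mm_012_s1 Ext.none :=
  certF0 (fam := false) (s1 := false) (s2 := false) (a := 0) (b := 1) (c := 2) (cn := .pnp) (n1 := ndB0q0) (n2 := ndB7q2) (pc := pcB1) (cut := cut_B07mm_012_s1) (xt := Ext.none) (P1 := 0) (W1 := 536870912) (P2 := 1073741824) (W2 := 536870912) (P3 := 587336777) (W3 := 62277027)
    rfl k0_B07mm_012_s1

theorem s_B07mm_012_s1 {κ x : ℝ} (hκ : κ * h0 = ken x) (hx : ((587336777 : ℕ) : ℝ) / S ≤ x)
    (hx' : x ≤ (((587336777 : ℕ) : ℝ) + (62277027 : ℕ)) / S) :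
    AltB (VFD κ) PP tK tL pcB [⟨3, 0, 0, 1449551462⟩] 0 1 2 0 7 (sgb false) (sgb false) x :=
  strip_altBD (m := 1449551462) true rfl hκ (SH.κ0 hκ (SH.hx1 hx).le (SH.hx2 hx').le) (SH.hx1 hx).le (SH.hx2 hx') (covB00).cov (covB72).cov hx hx' c_B07mm_012_s1 cutB_nil (noExt_B)

noncomputable def cut_B07mm_022_s1 : Cut := Cut.of [[⟨4, 0, 0, 1449551462⟩]]

noncomputable def f_B07mm_022_s1 : ℕ → ℕ → ℕ → ℕ → Bool := onCell 0 536870912 1073741824 536870912 587336777 62277027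
    (rowF 0 false false false .pp 0 2 2 (qsf 0 536870912 1073741824 536870912 2) ndB0q0 ndB7q2 pcB2 cut_B07mm_022_s1 Ext.none)

def k0_B07mm_022_s1 : ∃ t, chk3 f_B07mm_022_s1 t 1 1 1 = true :=
  ⟨(l 5), by decide +kernel⟩

theorem c_B07mm_022_s1 : CertF 0 536870912 1073741824 536870912 587336777 62277027 false false false .pp 0 2 2
    ndB0q0 ndB7q2 pcB2 cut_B07mm_022_s1 Ext.none :=
  certF0 (fam := false) (s1 := false) (s2 := false) (a := 0) (b := 2) (c := 2) (cn := .pp) (n1 := ndB0q0) (n2 := ndB7q2) (pc := pcB2) (cut := cut_B07mm_022_s1) (xt := Ext.none) (P1 := 0) (W1 := 536870912) (P2 := 1073741824) (W2 := 536870912) (P3 := 587336777) (W3 := 62277027)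
    rfl k0_B07mm_022_s1

theorem s_B07mm_022_s1 {κ x : ℝ} (hκ : κ * h0 = ken x) (hx : ((587336777 : ℕ) : ℝ) / S ≤ x)
    (hx' : x ≤ (((587336777 : ℕ) : ℝ) + (62277027 : ℕ)) / S) :
    AltB (VFD κ) PP tK tL pcB [⟨3, 0, 0, 1449551462⟩] 0 2 2 0 7 (sgb false) (sgb false) x :=
  strip_altBD (m := 1449551462) true rfl hκ (SH.κ0 hκ (SH.hx1 hx).le (SH.hx2 hx').le) (SH.hx1 hx).le (SH.hx2 hx') (covB00).cov (covB72).cov hx hx' c_B07mm_022_s1 cutB_nil (noExt_B)

noncomputable def cut_B07mm_023_s1 : Cut := Cut.of [[⟨4, 0, 0, 1449551462⟩]]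

noncomputable def f_B07mm_023_s1 : ℕ → ℕ → ℕ → ℕ → Bool := onCell 0 536870912 0 1230186008 587336777 62277027
    (rowF 0 false false false .up 0 2 3 (qsf 0 536870912 0 1230186008 2) ndB0q0 ndB7q3 pcB2 cut_B07mm_023_s1 Ext.none)

def k0_B07mm_023_s1 : ∃ t, chk3 f_B07mm_023_s1 t 1 1 1 = true :=
  ⟨(l 5), by decide +kernel⟩

theorem c_B07mm_023_s1 : CertF 0 536870912 0 1230186008 587336777 62277027 false false false .up 0 2 3
    ndB0q0 ndB7q3 pcB2 cut_B07mm_023_s1 Ext.none :=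
  certF0 (fam := false) (s1 := false) (s2 := false) (a := 0) (b := 2) (c := 3) (cn := .up) (n1 := ndB0q0) (n2 := ndB7q3) (pc := pcB2) (cut := cut_B07mm_023_s1) (xt := Ext.none) (P1 := 0) (W1 := 536870912) (P2 := 0) (W2 := 1230186008) (P3 := 587336777) (W3 := 62277027)
    rfl k0_B07mm_023_s1

theorem s_B07mm_023_s1 {κ x : ℝ} (hκ : κ * h0 = ken x) (hx : ((587336777 : ℕ) : ℝ) / S ≤ x)
    (hx' : x ≤ (((587336777 : ℕ) : ℝ) + (62277027 : ℕ)) / S) :
    AltB (VFD κ) PP tK tL pcB [⟨3, 0, 0, 1449551462⟩] 0 2 3 0 7 (sgb false) (sgb false) x :=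
  strip_altBD (m := 1449551462) true rfl hκ (SH.κ0 hκ (SH.hx1 hx).le (SH.hx2 hx').le) (SH.hx1 hx).le (SH.hx2 hx') (covB00).cov (covB73).cov hx hx' c_B07mm_023_s1 cutB_nil (noExt_B)

noncomputable def cut_B07mm_033_s1 : Cut := Cut.of [[⟨4, 0, 0, 1449551462⟩]]

noncomputable def f_B07mm_033_s1 : ℕ → ℕ → ℕ → ℕ → Bool := onCell 0 536870912 0 1230186008 587336777 62277027
    (rowF 0 false false false .pnn 0 3 3 (qsf 0 536870912 0 1230186008 3) ndB0q0 ndB7q3 pcB3 cut_B07mm_033_s1 Ext.none)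

def k0_B07mm_033_s1 : ∃ t, chk3 f_B07mm_033_s1 t 1 1 1 = true :=
  ⟨(l 5), by decide +kernel⟩

theorem c_B07mm_033_s1 : CertF 0 536870912 0 1230186008 587336777 62277027 false false false .pnn 0 3 3
    ndB0q0 ndB7q3 pcB3 cut_B07mm_033_s1 Ext.none :=
  certF0 (fam := false) (s1 := false) (s2 := false) (a := 0) (b := 3) (c := 3) (cn := .pnn) (n1 := ndB0q0) (n2 := ndB7q3) (pc := pcB3) (cut := cut_B07mm_033_s1) (xt := Ext.none) (P1 := 0) (W1 := 536870912) (P2 := 0) (W2 := 1230186008) (P3 := 587336777) (W3 := 62277027)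
    rfl k0_B07mm_033_s1

theorem s_B07mm_033_s1 {κ x : ℝ} (hκ : κ * h0 = ken x) (hx : ((587336777 : ℕ) : ℝ) / S ≤ x)
    (hx' : x ≤ (((587336777 : ℕ) : ℝ) + (62277027 : ℕ)) / S) :
    AltB (VFD κ) PP tK tL pcB [⟨3, 0, 0, 1449551462⟩] 0 3 3 0 7 (sgb false) (sgb false) x :=
  strip_altBD (m := 1449551462) true rfl hκ (SH.κ0 hκ (SH.hx1 hx).le (SH.hx2 hx').le) (SH.hx1 hx).le (SH.hx2 hx') (covB00).cov (covB73).cov hx hx' c_B07mm_033_s1 cutB_nil (noExt_B)

noncomputable def cut_B07mm_101_s1 : Cut := Cut.of [[⟨4, 0, 0, 1449551462⟩], [⟨0, 1, 0, 67108864⟩, ⟨1, 0, 0, 67108864⟩, ⟨2, 1, 0, 67108864⟩]]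

noncomputable def f_B07mm_101_s1 : ℕ → ℕ → ℕ → ℕ → Bool := onCell 536870912 536870912 0 536870912 587336777 62277027
    (rowF 1 false false false .npn 1 0 1 (qsf 536870912 536870912 536870912 536870912 0) ndB0q1 ndB7q1 pcB0 cut_B07mm_101_s1 Ext.none)

def k0_B07mm_101_s1 : ∃ t, chk3 f_B07mm_101_s1 t 1 1 1 = true :=
  ⟨(a (l 3) (b (a (l 3) (b (a (l 3) (b (a (l 3) (b (l 14) (l 3))) (l 3))) (l 3))) (l 3))), by decide +kernel⟩

theorem c_B07mm_101_s1 : CertF 536870912 536870912 536870912 536870912 587336777 62277027 false false false .npn 1 0 1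
    ndB0q1 ndB7q1 pcB0 cut_B07mm_101_s1 Ext.none :=
  certF1 (fam := false) (s1 := false) (s2 := false) (a := 1) (b := 0) (c := 1) (cn := .npn) (n1 := ndB0q1) (n2 := ndB7q1) (pc := pcB0) (cut := cut_B07mm_101_s1) (xt := Ext.none) (P1 := 536870912) (W1 := 536870912) (P2 := 536870912) (W2 := 536870912) (P3 := 587336777) (W3 := 62277027)
    rfl (fun _ => rfl) k0_B07mm_101_s1

theorem s_B07mm_101_s1 {κ x : ℝ} (hκ : κ * h0 = ken x) (hx : ((587336777 : ℕ) : ℝ) / S ≤ x)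
    (hx' : x ≤ (((587336777 : ℕ) : ℝ) + (62277027 : ℕ)) / S)
    (H : CutB (VFD κ) PP tK tL pcB (Cut.of [[⟨0, 1, 0, 67108864⟩, ⟨1, 0, 0, 67108864⟩, ⟨2, 1, 0, 67108864⟩]]) 1 0 1 0 7 (sgb false) (sgb false) x) :
    AltB (VFD κ) PP tK tL pcB [⟨3, 0, 0, 1449551462⟩] 1 0 1 0 7 (sgb false) (sgb false) x :=
  strip_altBD (m := 1449551462) true rfl hκ (SH.κ0 hκ (SH.hx1 hx).le (SH.hx2 hx').le) (SH.hx1 hx).le (SH.hx2 hx') (covB01).cov (covB71).cov hx hx' c_B07mm_101_s1 H (noExt_B)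

noncomputable def cut_B07mm_102_s1 : Cut := Cut.of [[⟨4, 0, 0, 1449551462⟩], [⟨0, 1, 0, 67108864⟩, ⟨1, 0, 0, 67108864⟩, ⟨2, 1, 0, 67108864⟩]]

noncomputable def f_B07mm_102_s1 : ℕ → ℕ → ℕ → ℕ → Bool := onCell 536870912 536870912 0 536870912 587336777 62277027
    (rowF 1 false false false .npp 1 0 2 (qsf 536870912 536870912 1073741824 536870912 0) ndB0q1 ndB7q2 pcB0 cut_B07mm_102_s1 Ext.none)

def k0_B07mm_102_s1 : ∃ t, chk3 f_B07mm_102_s1 t 1 1 1 = true :=
  ⟨(a (l 3) (b (a (l 3) (b (a (l 3) (b (a (l 3) (b (l 14) (l 3))) (l 3))) (l 3))) (l 3))), by decide +kernel⟩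

theorem c_B07mm_102_s1 : CertF 536870912 536870912 1073741824 536870912 587336777 62277027 false false false .npp 1 0 2
    ndB0q1 ndB7q2 pcB0 cut_B07mm_102_s1 Ext.none :=
  certF1 (fam := false) (s1 := false) (s2 := false) (a := 1) (b := 0) (c := 2) (cn := .npp) (n1 := ndB0q1) (n2 := ndB7q2) (pc := pcB0) (cut := cut_B07mm_102_s1) (xt := Ext.none) (P1 := 536870912) (W1 := 536870912) (P2 := 1073741824) (W2 := 536870912) (P3 := 587336777) (W3 := 62277027)
    rfl (fun _ => rfl) k0_B07mm_102_s1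

theorem s_B07mm_102_s1 {κ x : ℝ} (hκ : κ * h0 = ken x) (hx : ((587336777 : ℕ) : ℝ) / S ≤ x)
    (hx' : x ≤ (((587336777 : ℕ) : ℝ) + (62277027 : ℕ)) / S)
    (H : CutB (VFD κ) PP tK tL pcB (Cut.of [[⟨0, 1, 0, 67108864⟩, ⟨1, 0, 0, 67108864⟩, ⟨2, 1, 0, 67108864⟩]]) 1 0 2 0 7 (sgb false) (sgb false) x) :
    AltB (VFD κ) PP tK tL pcB [⟨3, 0, 0, 1449551462⟩] 1 0 2 0 7 (sgb false) (sgb false) x :=
  strip_altBD (m := 1449551462) true rfl hκ (SH.κ0 hκ (SH.hx1 hx).le (SH.hx2 hx').le) (SH.hx1 hx).le (SH.hx2 hx') (covB01).cov (covB72).cov hx hx' c_B07mm_102_s1 H (noExt_B)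

noncomputable def cut_B07mm_112_s1 : Cut := Cut.of [[⟨4, 0, 0, 1449551462⟩]]

noncomputable def f_B07mm_112_s1 : ℕ → ℕ → ℕ → ℕ → Bool := onCell 536870912 536870912 1073741824 536870912 587336777 62277027
    (rowF 2 false false false .dn 1 1 2 (qsf 536870912 536870912 1073741824 536870912 1) ndB0q1 ndB7q2 pcB1 cut_B07mm_112_s1 Ext.none)

def k0_B07mm_112_s1 : ∃ t, chk3 f_B07mm_112_s1 t 1 1 1 = true :=
  ⟨(a (l 3) (l 5)), by decide +kernel⟩

theorem c_B07mm_112_s1 : CertF 536870912 536870912 1073741824 536870912 587336777 62277027 false false false .dn 1 1 2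
    ndB0q1 ndB7q2 pcB1 cut_B07mm_112_s1 Ext.none :=
  certF2 (fam := false) (s1 := false) (s2 := false) (a := 1) (b := 1) (c := 2) (cn := .dn) (n1 := ndB0q1) (n2 := ndB7q2) (pc := pcB1) (cut := cut_B07mm_112_s1) (xt := Ext.none) (P1 := 536870912) (W1 := 536870912) (P2 := 1073741824) (W2 := 536870912) (P3 := 587336777) (W3 := 62277027)
    rfl (fun _ => rfl) k0_B07mm_112_s1

theorem s_B07mm_112_s1 {κ x : ℝ} (hκ : κ * h0 = ken x) (hx : ((587336777 : ℕ) : ℝ) / S ≤ x)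
    (hx' : x ≤ (((587336777 : ℕ) : ℝ) + (62277027 : ℕ)) / S) :
    AltB (VFD κ) PP tK tL pcB [⟨3, 0, 0, 1449551462⟩] 1 1 2 0 7 (sgb false) (sgb false) x :=
  strip_altBD (m := 1449551462) true rfl hκ (SH.κ0 hκ (SH.hx1 hx).le (SH.hx2 hx').le) (SH.hx1 hx).le (SH.hx2 hx') (covB01).cov (covB72).cov hx hx' c_B07mm_112_s1 cutB_nil (noExt_B)

noncomputable def cut_B07mm_113_s1 : Cut := Cut.of [[⟨4, 0, 0, 1449551462⟩]]

noncomputable def f_B07mm_113_s1 : ℕ → ℕ → ℕ → ℕ → Bool := onCell 536870912 536870912 0 1230186008 587336777 62277027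
    (rowF 0 false false false .nn 1 1 3 (qsf 536870912 536870912 0 1230186008 1) ndB0q1 ndB7q3 pcB1 cut_B07mm_113_s1 Ext.none)

def k0_B07mm_113_s1 : ∃ t, chk3 f_B07mm_113_s1 t 1 1 1 = true :=
  ⟨(b (l 5) (a (l 5) (b (a (l 5) (l 3)) (l 3)))), by decide +kernel⟩

theorem c_B07mm_113_s1 : CertF 536870912 536870912 0 1230186008 587336777 62277027 false false false .nn 1 1 3
    ndB0q1 ndB7q3 pcB1 cut_B07mm_113_s1 Ext.none :=
  certF0 (fam := false) (s1 := false) (s2 := false) (a := 1) (b := 1) (c := 3) (cn := .nn) (n1 := ndB0q1) (n2 := ndB7q3) (pc := pcB1) (cut := cut_B07mm_113_s1) (xt := Ext.none) (P1 := 536870912) (W1 := 536870912) (P2 := 0) (W2 := 1230186008) (P3 := 587336777) (W3 := 62277027)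
    rfl k0_B07mm_113_s1

theorem s_B07mm_113_s1 {κ x : ℝ} (hκ : κ * h0 = ken x) (hx : ((587336777 : ℕ) : ℝ) / S ≤ x)
    (hx' : x ≤ (((587336777 : ℕ) : ℝ) + (62277027 : ℕ)) / S) :
    AltB (VFD κ) PP tK tL pcB [⟨3, 0, 0, 1449551462⟩] 1 1 3 0 7 (sgb false) (sgb false) x :=
  strip_altBD (m := 1449551462) true rfl hκ (SH.κ0 hκ (SH.hx1 hx).le (SH.hx2 hx').le) (SH.hx1 hx).le (SH.hx2 hx') (covB01).cov (covB73).cov hx hx' c_B07mm_113_s1 cutB_nil (noExt_B)

noncomputable def cut_B07mm_123_s1 : Cut := Cut.of [[⟨4, 0, 0, 1449551462⟩]]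

noncomputable def f_B07mm_123_s1 : ℕ → ℕ → ℕ → ℕ → Bool := onCell 1073741824 536870912 0 1230186008 587336777 62277027
    (rowF 2 false false false .npn 1 2 3 (qsf 536870912 536870912 0 1230186008 2) ndB0q1 ndB7q3 pcB2 cut_B07mm_123_s1 Ext.none)

def k0_B07mm_123_s1 : ∃ t, chk3 f_B07mm_123_s1 t 1 1 1 = true :=
  ⟨(b (l 5) (l 5)), by decide +kernel⟩

theorem c_B07mm_123_s1 : CertF 536870912 536870912 0 1230186008 587336777 62277027 false false false .npn 1 2 3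
    ndB0q1 ndB7q3 pcB2 cut_B07mm_123_s1 Ext.none :=
  certF2 (fam := false) (s1 := false) (s2 := false) (a := 1) (b := 2) (c := 3) (cn := .npn) (n1 := ndB0q1) (n2 := ndB7q3) (pc := pcB2) (cut := cut_B07mm_123_s1) (xt := Ext.none) (P1 := 536870912) (W1 := 536870912) (P2 := 0) (W2 := 1230186008) (P3 := 587336777) (W3 := 62277027)
    rfl (fun _ => rfl) k0_B07mm_123_s1

theorem s_B07mm_123_s1 {κ x : ℝ} (hκ : κ * h0 = ken x) (hx : ((587336777 : ℕ) : ℝ) / S ≤ x)
    (hx' : x ≤ (((587336777 : ℕ) : ℝ) + (62277027 : ℕ)) / S) :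
    AltB (VFD κ) PP tK tL pcB [⟨3, 0, 0, 1449551462⟩] 1 2 3 0 7 (sgb false) (sgb false) x :=
  strip_altBD (m := 1449551462) true rfl hκ (SH.κ0 hκ (SH.hx1 hx).le (SH.hx2 hx').le) (SH.hx1 hx).le (SH.hx2 hx') (covB01).cov (covB73).cov hx hx' c_B07mm_123_s1 cutB_nil (noExt_B)

noncomputable def cut_B07mm_133_s1 : Cut := Cut.of [[⟨4, 0, 0, 1449551462⟩]]

noncomputable def f_B07mm_133_s1 : ℕ → ℕ → ℕ → ℕ → Bool := onCell 1610612736 536870912 0 1230186008 587336777 62277027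
    (rowF 2 false false false .dn 1 3 3 (qsf 536870912 536870912 0 1230186008 3) ndB0q1 ndB7q3 pcB3 cut_B07mm_133_s1 Ext.none)

def k0_B07mm_133_s1 : ∃ t, chk3 f_B07mm_133_s1 t 1 1 1 = true :=
  ⟨(l 5), by decide +kernel⟩

theorem c_B07mm_133_s1 : CertF 536870912 536870912 0 1230186008 587336777 62277027 false false false .dn 1 3 3
    ndB0q1 ndB7q3 pcB3 cut_B07mm_133_s1 Ext.none :=
  certF2 (fam := false) (s1 := false) (s2 := false) (a := 1) (b := 3) (c := 3) (cn := .dn) (n1 := ndB0q1) (n2 := ndB7q3) (pc := pcB3) (cut := cut_B07mm_133_s1) (xt := Ext.none) (P1 := 536870912) (W1 := 536870912) (P2 := 0) (W2 := 1230186008) (P3 := 587336777) (W3 := 62277027)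
    rfl (fun _ => rfl) k0_B07mm_133_s1

theorem s_B07mm_133_s1 {κ x : ℝ} (hκ : κ * h0 = ken x) (hx : ((587336777 : ℕ) : ℝ) / S ≤ x)
    (hx' : x ≤ (((587336777 : ℕ) : ℝ) + (62277027 : ℕ)) / S) :
    AltB (VFD κ) PP tK tL pcB [⟨3, 0, 0, 1449551462⟩] 1 3 3 0 7 (sgb false) (sgb false) x :=
  strip_altBD (m := 1449551462) true rfl hκ (SH.κ0 hκ (SH.hx1 hx).le (SH.hx2 hx').le) (SH.hx1 hx).le (SH.hx2 hx') (covB01).cov (covB73).cov hx hx' c_B07mm_133_s1 cutB_nil (noExt_B)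

noncomputable def cut_B07mm_202_s1 : Cut := Cut.of [[⟨4, 0, 0, 1449551462⟩], [⟨0, 1, 0, 67108864⟩, ⟨1, 0, 0, 67108864⟩, ⟨2, 1, 0, 67108864⟩]]

noncomputable def xt_B07mm_202_s1 : Ext := strExt0 dd false false false .u2 .s2m .u0m .pp 2 0 2 rfl rfl gf0 vv ww kz ndB0q2 ndB7q2

noncomputable def f_B07mm_202_s1 : ℕ → ℕ → ℕ → ℕ → Bool := onCell 0 536870912 0 536870912 587336777 62277027
    (rowF 1 false false false .pp 2 0 2 (qsf 0 536870912 1073741824 536870912 0) ndB0q2 ndB7q2 pcB0 cut_B07mm_202_s1 xt_B07mm_202_s1)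

def k0_B07mm_202_s1 : ∃ t, chk3 f_B07mm_202_s1 t 2 1 1 = true :=
  ⟨(b (b (a (l 6) (b (a (l 6) (b (l 6) (l 16564328))) (a (l 16590320) (a (l 16600840) (b (l 16599032) (b (l 16617872) (l 16628200))))))) (a (a (l 6) (b (l 6) (a (l 6) (b (l 16655024) (l 16671128))))) (b (a (b (a (l 6) (l 16617968)) (a (b (l 16634344) (l 16643440)) (l 16646280))) (b (a (b (l 16627304) (l 16639288)) (b (l 16641120) (l 16651384))) (a (l 16654376) (l 16665648)))) (a (b (a (l 16657824) (l 16659288)) (a (l 16669232) (b (l 16677944) (l 16689120)))) (b (a (l 16673576) (b (l 16772544) (l 16696560))) (a (b (l 16691336) (l 16700744)) (a (l 16793640) (l 16720536)))))))) (b (a (b (a (b (l 6) (l 16702408)) (b (l 16638008) (a (l 16694648) (l 16790120)))) (a (a (l 16802432) (l 133781749895)) (a (b (l 16803720) (l 16730528)) (b (l 16718896) (l 16738168))))) (b (a (b (a (b (l 16688232) (l 16697744)) (b (l 16697512) (l 16706200))) (a (b (l 16705624) (l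 16713960)) (b (l 16717296) (l 16726096)))) (a (b (a (l 16797256) (l 16722288)) (a (l 16732608) (b (l 16736496) (l 16745704)))) (b (b (l 16730584) (a (l 16736000) (l 16746192))) (a (b (l 16745800) (b (l 16754256) (l 16759064))) (b (a (l 16754824) (l 16760184)) (l 1067089423)))))) (a (a (b (l 16729496) (a (l 16742200) (l 156330158183))) (b (b (l 16735112) (a (l 16740352) (l 16746696))) (a (b (l 16748104) (l 16757752)) (b (l 16777600) (l 186394867543))))) (a (a (b (b (l 16745944) (a (l 16753616) (l 16758464))) (b (l 1068243983) (l 1068441615))) (b (b (a (l 16753680) (l 16758744)) (l 1067800591)) (l 1067982863))) (b (l 1067262991) (l 1067447311)))))) (a (l 2) (a (l 2) (a (l 2) (l 3)))))), by decide +kernel⟩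

def k1_B07mm_202_s1 : ∃ t, chk3 f_B07mm_202_s1 t 6 4 1 = true :=
  ⟨(b (a (b (a (l 16552752) (l 16570928)) (l 16594384)) (b (a (l 16593048) (b (l 16610184) (l 16628376))) (a (l 16626480) (b (l 16645440) (b (l 16656848) (a (l 16657608) (l 16672744))))))) (a (b (a (l 16613856) (b (l 16625752) (a (l 16633280) (l 16644264)))) (a (b (a (l 16627768) (l 16636592)) (l 16645656)) (b (l 16653160) (l 16662640)))) (a (b (b (b (a (l 16638888) (l 16651176)) (l 16652152)) (a (l 16656856) (l 16669744))) (b (a (l 16670368) (l 16766224)) (a (l 16723960) (b (l 16693864) (l 16699864))))) (b (b (a (b (l 16665416) (l 16672944)) (l 16684432)) (a (l 16682912) (b (l 16695200) (l 16703352)))) (a (b (b (l 16694904) (l 16701656)) (b (l 16708080) (l 16714920))) (b (b (l 16710232) (l 16801144)) (b (l 16808448) (l 16731624)))))))), by decide +kernel⟩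

def k2_B07mm_202_s1 : ∃ t, chk3 f_B07mm_202_s1 t 14 8 1 = true :=
  ⟨(b (b (a (l 16640672) (b (l 16712888) (l 16681000))) (a (l 16659416) (a (l 16685800) (b (l 16700400) (a (l 16705280) (b (l 16712648) (l 16716944))))))) (a (b (a (l 16668392) (b (l 16681160) (a (l 16685256) (l 16694048)))) (a (b (l 16680808) (l 16688840)) (b (l 16697912) (l 16705920)))) (b (a (b (b (l 16697424) (l 16701424)) (a (l 16703120) (l 16712432))) (a (b (l 16713528) (l 16722184)) (b (l 16723712) (b (l 16729848) (l 16733920))))) (b (a (l 16800000) (a (b (l 16728240) (l 16732408)) (b (l 16738144) (l 16742256)))) (a (a (l 16719584) (l 16728952)) (a (a (l 16736136) (l 16709536)) (l 16748424))))))), by decide +kernel⟩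

def k3_B07mm_202_s1 : ∃ t, chk3 f_B07mm_202_s1 t 15 8 1 = true :=
  ⟨(b (a (b (l 14) (a (b (l 14) (a (b (l 16722696) (l 16727096)) (a (l 16733040) (l 16780128)))) (l 14))) (l 14)) (a (a (b (b (a (a (l 16731176) (b (l 16733976) (l 16738128))) (b (a (l 16739056) (l 16744320)) (a (l 16743336) (l 16748608)))) (a (b (l 16739864) (a (l 16741512) (l 16746584))) (b (l 16771120) (l 16754408)))) (a (b (a (l 16789640) (l 16752872)) (a (l 16756024) (b (l 16759104) (l 16763224)))) (b (a (l 16758064) (b (l 16771848) (l 16775896))) (a (b (l 16774792) (l 16778856)) (b (a (l 16768200) (l 16770808)) (l 1061751823)))))) (b (a (b (b (a (l 16749664) (l 14)) (a (l 16774792) (l 16759232))) (a (b (l 16758120) (a (l 16761016) (l 16763720))) (b (a (l 16762144) (l 16764880)) (b (l 16777160) (l 16779208))))) (b (a (b (l 14) (a (l 16763304) (l 16766072))) (l 14)) (a (b (a (l 16778040) (b (l 16769192) (l 16771280))) (l 1061413903)) (l 1061301775))))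 (a (b (a (b (a (l 16765240) (l 16778336)) (l 1061633039)) (l 1061528079)) (l 1061572623)) (a (l 1061436431) (l 3))))) (a (b (a (b (l 14) (a (l 1061191695) (l 3))) (l 3)) (l 3)) (l 3)))), by decide +kernel⟩

def k4_B07mm_202_s1 : ∃ t, chk3 f_B07mm_202_s1 t 7 9 1 = true :=
  ⟨(a (a (b (a (b (b (l 16696408) (l 16704376)) (b (l 16817568) (a (l 16715408) (l 16723848)))) (b (b (l 16808448) (a (l 16717432) (l 16726312))) (b (l 16729624) (l 16737208)))) (a (b (a (l 16726408) (l 16734992)) (a (l 16740952) (b (l 16746016) (l 16753752)))) (b (a (l 16743616) (b (l 16748920) (l 16777504))) (a (b (l 16776048) (a (l 16781648) (l 1063109135))) (b (b (l 16762536) (l 16776960)) (l 1062969359)))))) (b (a (b (b (a (l 16727600) (l 16778968)) (a (l 16777504) (l 16744960))) (a (b (l 16743280) (l 16771704)) (b (l 16773640) (b (l 16779440) (l 16772832))))) (b (a (b (l 16746672) (l 16775592)) (b (a (l 16754080) (b (l 16757080) (l 16761120)))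 (a (l 16772560) (b (l 16765120) (l 16774336))))) (a (b (a (l 16780984) (b (l 16763008) (l 16766936))) (l 1062210063)) (l 1062098447)))) (a (b (a (a (b (l 16755840) (l 16774184)) (b (l 16771216) (l 1062415375))) (l 1062273039)) (l 1062594063)) (b (a (l 1062134287) (l 3)) (l 3))))) (a (b (a (b (a (b (a (b (l 16762168) (l 16766184)) (b (l 16777752) (l 1061953039))) (l 1061981199)) (l 1061795343)) (a (l 1061944847) (l 3))) (l 3)) (l 3)) (l 3))), by decide +kernel⟩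

def k5_B07mm_202_s1 : ∃ t, chk3 f_B07mm_202_s1 t 3 5 1 = true :=
  ⟨(a (b (a (a (b (a (l 16657888) (l 16831984)) (a (b (l 16675808) (l 16688208)) (b (l 16686632) (l 16698560)))) (b (b (b (l 16755400) (l 16648080)) (a (l 16684952) (l 16696176))) (a (b (l 16697272) (l 16711480)) (b (l 16710760) (l 16724432))))) (b (a (a (b (l 16695560) (l 16710040)) (b (l 16709704) (l 16725256))) (a (b (l 16726168) (a (l 16737504) (b (l 16742040) (l 16749496)))) (b (a (l 16780752) (b (l 16743648) (l 16793408))) (a (b (l 16750472) (l 16779024)) (b (l 16780168) (l 1064253967)))))) (b (a (a (l 16724920) (a (l 16736312) (b (l 16740592) (l 16747512)))) (a (a (b (l 16748512) (l 16797648)) (b (l 16777880) (l 16784432))) (l 1064387087))) (a (a (a (l 16734976) (l 16742008)) (b (l 16792272) (a (l 16753064) (l 16760680)))) (l 1064417295))))) (a (a (b (b (l 16789984) (l 16803000)) (b (l 16730136) (a (l 16735848) (b (l 16744520) (l 16792808)))))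 (b (a (l 16730040) (b (l 16736784) (a (l 16787480) (b (l 16749408) (l 16756336))))) (a (b (a (l 16786896) (l 16783560)) (b (l 16779176) (l 1066083855))) (b (a (b (l 16755816) (l 16782968)) (l 1065529359)) (l 1065695759))))) (a (b (a (b (a (l 16746912) (b (l 16751568) (l 16757648))) (a (b (l 16756872) (l 16763624)) (l 1064951311))) (l 1064694287)) (l 1068312591)) (b (a (l 1064271887) (l 3)) (l 3))))) (b (a (a (b (a (b (a (b (l 16773512) (a (l 16758184) (l 16762432))) (b (a (l 16780352) (l 16784760)) (l 1063661071))) (l 1063916047)) (a (l 1063533071) (l 1063328783))) (a (l 1063967247) (l 3))) (l 3)) (l 3)) (l 3))), by decide +kernel⟩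

def k6_B07mm_202_s1 : ∃ t, chk3 f_B07mm_202_s1 t 3 3 1 = true :=
  ⟨(b (a (a (b (a (b (a (b (a (l 16743856) (l 16792072)) (a (l 16755720) (l 16782328))) (b (a (l 16777744) (l 16783688)) (l 1066420239))) (a (l 1066743823) (l 1066351119))) (b (l 1065853455) (l 3))) (l 3)) (l 3)) (l 3)) (l 3)), by decide +kernel⟩

theorem t7_B07mm_202_s1 : ∃ t, chk3 f_B07mm_202_s1 t 7 8 1 = true := ex3_a k2_B07mm_202_s1 k3_B07mm_202_s1

theorem t8_B07mm_202_s1 : ∃ t, chk3 f_B07mm_202_s1 t 7 4 1 = true := ex3_b t7_B07mm_202_s1 k4_B07mm_202_s1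

theorem t9_B07mm_202_s1 : ∃ t, chk3 f_B07mm_202_s1 t 3 4 1 = true := ex3_a k1_B07mm_202_s1 t8_B07mm_202_s1

theorem t10_B07mm_202_s1 : ∃ t, chk3 f_B07mm_202_s1 t 3 2 1 = true := ex3_b t9_B07mm_202_s1 k5_B07mm_202_s1

theorem t11_B07mm_202_s1 : ∃ t, chk3 f_B07mm_202_s1 t 3 1 1 = true := ex3_b t10_B07mm_202_s1 k6_B07mm_202_s1

theorem t12_B07mm_202_s1 : ∃ t, chk3 f_B07mm_202_s1 t 1 1 1 = true := ex3_a k0_B07mm_202_s1 t11_B07mm_202_s1

theorem c_B07mm_202_s1 : CertF 0 536870912 1073741824 536870912 587336777 62277027 false false false .pp 2 0 2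
    ndB0q2 ndB7q2 pcB0 cut_B07mm_202_s1 xt_B07mm_202_s1 :=
  certF1 (fam := false) (s1 := false) (s2 := false) (a := 2) (b := 0) (c := 2) (cn := .pp) (n1 := ndB0q2) (n2 := ndB7q2) (pc := pcB0) (cut := cut_B07mm_202_s1) (xt := xt_B07mm_202_s1) (P1 := 0) (W1 := 536870912) (P2 := 1073741824) (W2 := 536870912) (P3 := 587336777) (W3 := 62277027)
    rfl (fun _ => rfl) t12_B07mm_202_s1

theorem s_B07mm_202_s1 {κ x : ℝ} (hκ : κ * h0 = ken x) (hx : ((587336777 : ℕ) : ℝ) / S ≤ x)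
    (hx' : x ≤ (((587336777 : ℕ) : ℝ) + (62277027 : ℕ)) / S)
    (H : CutB (VFD κ) PP tK tL pcB (Cut.of [[⟨0, 1, 0, 67108864⟩, ⟨1, 0, 0, 67108864⟩, ⟨2, 1, 0, 67108864⟩]]) 2 0 2 0 7 (sgb false) (sgb false) x) :
    AltB (VFD κ) PP tK tL pcB [⟨3, 0, 0, 1449551462⟩] 2 0 2 0 7 (sgb false) (sgb false) x :=
  strip_altBD (m := 1449551462) true rfl hκ (SH.κ0 hκ (SH.hx1 hx).le (SH.hx2 hx').le) (SH.hx1 hx).le (SH.hx2 hx') (covB02).cov (covB72).cov hx hx' c_B07mm_202_s1 H ((okx6 hx hx').ext0B (T := tt) (zx hx hx') (okx hx hx') (sideB hx hx') hκ rfl rfl (.O 2 false) (.N 2 false) (Or.inl rfl))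

noncomputable def cut_B07mm_203_s1 : Cut := Cut.of [[⟨4, 0, 0, 1449551462⟩]]

noncomputable def xt_B07mm_203_s1 : Ext := strExt0 dd false false false .u2 .s2m .u0m .up 2 0 3 rfl rfl gf0 vv ww kz ndB0q2 ndB7q3

noncomputable def f_B07mm_203_s1 : ℕ → ℕ → ℕ → ℕ → Bool := onCell 0 536870912 0 1230186008 587336777 62277027
    (rowF 0 false false false .up 2 0 3 (qsf 0 536870912 0 1230186008 0) ndB0q2 ndB7q3 pcB0 cut_B07mm_203_s1 xt_B07mm_203_s1)

def k0_B07mm_203_s1 : ∃ t, chk3 f_B07mm_203_s1 t 1 1 1 = true :=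
  ⟨(b (l 2) (b (l 2) (a (b (a (b (l 2) (b (l 2) (a (a (l 237934581639) (a (b (l 16778656) (l 16778064)) (b (l 271757339975) (l 16778256)))) (a (b (l 1073648143) (l 1073719311)) (l 3))))) (l 3)) (a (b (a (a (b (l 16777376) (l 16765608)) (b (b (l 16773032) (l 16774224)) (l 16766888))) (a (b (a (b (l 16777224) (l 16774344)) (b (l 1073617935) (l 16775776))) (b (a (l 16770784) (l 16771968)) (l 16765968))) (a (b (b (l 1073467407) (l 1073186319)) (b (l 16774016) (l 16769272))) (b (l 1072707087) (l 1072452111))))) (a (a (b (l 16749512) (l 16728920)) (b (l 16750072) (l 16822896))) (a (b (l 16755112) (b (l 16740440) (l 16729576))) (b (b (a (l 16762136) (l 16766304)) (l 16752800)) (a (l 16741328) (l 16744384)))))) (a (b (b (l 3) (a (a (l 1072353295) (b (l 3) (l 1071761423))) (l 3))) (b (a (a (b (l 1071657999) (l 16763800)) (b (l 1071305743) (l 1070605327))) (b (l 1071037967) (l 1070303759))) (a (b (a (l 16753704) (l 16782360))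 (a (l 16744816) (l 16750320))) (a (b (l 1069771279) (a (l 16756832) (l 16761528))) (l 1069247503))))) (b (l 3) (b (l 3) (a (a (b (l 3) (l 1068754447)) (l 3)) (l 3))))))) (l 3)))), by decide +kernel⟩

theorem c_B07mm_203_s1 : CertF 0 536870912 0 1230186008 587336777 62277027 false false false .up 2 0 3
    ndB0q2 ndB7q3 pcB0 cut_B07mm_203_s1 xt_B07mm_203_s1 :=
  certF0 (fam := false) (s1 := false) (s2 := false) (a := 2) (b := 0) (c := 3) (cn := .up) (n1 := ndB0q2) (n2 := ndB7q3) (pc := pcB0) (cut := cut_B07mm_203_s1) (xt := xt_B07mm_203_s1) (P1 := 0) (W1 := 536870912) (P2 := 0) (W2 := 1230186008) (P3 := 587336777) (W3 := 62277027)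
    rfl k0_B07mm_203_s1

theorem s_B07mm_203_s1 {κ x : ℝ} (hκ : κ * h0 = ken x) (hx : ((587336777 : ℕ) : ℝ) / S ≤ x)
    (hx' : x ≤ (((587336777 : ℕ) : ℝ) + (62277027 : ℕ)) / S) :
    AltB (VFD κ) PP tK tL pcB [⟨3, 0, 0, 1449551462⟩] 2 0 3 0 7 (sgb false) (sgb false) x :=
  strip_altBD (m := 1449551462) true rfl hκ (SH.κ0 hκ (SH.hx1 hx).le (SH.hx2 hx').le) (SH.hx1 hx).le (SH.hx2 hx') (covB02).cov (covB73).cov hx hx' c_B07mm_203_s1 cutB_nil ((okx6 hx hx').ext0B (T := tt) (zx hx hx') (okx hx hx') (sideB hx hx') hκ rfl rfl (.O 2 false) (.N 3 false) (Or.inl rfl))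

noncomputable def cut_B07mm_213_s1 : Cut := Cut.of [[⟨4, 0, 0, 1449551462⟩]]

noncomputable def xt_B07mm_213_s1 : Ext := strExt0 dd false false false .u2 .s2m .u0m .pnn 2 1 3 rfl rfl gf1 vv ww kz ndB0q2 ndB7q3

noncomputable def f_B07mm_213_s1 : ℕ → ℕ → ℕ → ℕ → Bool := onCell 0 536870912 0 1230186008 587336777 62277027
    (rowF 0 false false false .pnn 2 1 3 (qsf 0 536870912 0 1230186008 1) ndB0q2 ndB7q3 pcB1 cut_B07mm_213_s1 xt_B07mm_213_s1)

def k0_B07mm_213_s1 : ∃ t, chk3 f_B07mm_213_s1 t 1 1 1 = true :=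
  ⟨(b (a (l 3) (b (l 5) (l 3))) (b (a (a (b (l 3) (l 3)) (l 3)) (l 3)) (a (b (a (b (a (b (l 1073995279) (a (a (b (l 16776936) (l 16775296)) (l 1073631759)) (l 1074415631))) (l 3)) (a (a (b (a (b (l 16773192) (l 16770488)) (b (l 16774968) (l 16771376))) (a (l 16764320) (b (l 16768864) (l 1)))) (b (a (l 1073088527) (l 1073184271)) (b (a (a (l 16769200) (l 16770312)) (l 1072477711)) (l 1)))) (b (a (b (l 3) (l 1073104911)) (l 3)) (a (b (l 1072620559) (l 1)) (l 3))))) (l 3)) (a (l 1) (b (a (l 1) (l 3)) (l 1)))) (l 3)))), by decide +kernel⟩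

theorem c_B07mm_213_s1 : CertF 0 536870912 0 1230186008 587336777 62277027 false false false .pnn 2 1 3
    ndB0q2 ndB7q3 pcB1 cut_B07mm_213_s1 xt_B07mm_213_s1 :=
  certF0 (fam := false) (s1 := false) (s2 := false) (a := 2) (b := 1) (c := 3) (cn := .pnn) (n1 := ndB0q2) (n2 := ndB7q3) (pc := pcB1) (cut := cut_B07mm_213_s1) (xt := xt_B07mm_213_s1) (P1 := 0) (W1 := 536870912) (P2 := 0) (W2 := 1230186008) (P3 := 587336777) (W3 := 62277027)
    rfl k0_B07mm_213_s1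

theorem s_B07mm_213_s1 {κ x : ℝ} (hκ : κ * h0 = ken x) (hx : ((587336777 : ℕ) : ℝ) / S ≤ x)
    (hx' : x ≤ (((587336777 : ℕ) : ℝ) + (62277027 : ℕ)) / S) :
    AltB (VFD κ) PP tK tL pcB [⟨3, 0, 0, 1449551462⟩] 2 1 3 0 7 (sgb false) (sgb false) x :=
  strip_altBD (m := 1449551462) true rfl hκ (SH.κ0 hκ (SH.hx1 hx).le (SH.hx2 hx').le) (SH.hx1 hx).le (SH.hx2 hx') (covB02).cov (covB73).cov hx hx' c_B07mm_213_s1 cutB_nil ((okx6 hx hx').ext0B (T := tt) (zx hx hx') (okx hx hx') (sideB hx hx') hκ rfl rfl (.O 2 false) (.N 3 false) (Or.inr rfl))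

noncomputable def cut_B70pp_001_s1 : Cut := Cut.of [[⟨4, 0, 0, 1449551462⟩]]

noncomputable def xt_B70pp_001_s1 : Ext := strExt0 dd false true true .s0 .u0 .u0m .up 0 0 1 rfl rfl gf0 vv ww kz ndB7q0 ndB0q1

noncomputable def f_B70pp_001_s1 : ℕ → ℕ → ℕ → ℕ → Bool := onCell 0 536870912 536870912 536870912 587336777 62277027
    (rowF 2 false true true .up 0 0 1 (qsf 0 536870912 536870912 536870912 0) ndB7q0 ndB0q1 pcB0 cut_B70pp_001_s1 xt_B70pp_001_s1)

def k0_B70pp_001_s1 : ∃ t, chk3 f_B70pp_001_s1 t 2 1 1 = true :=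
  ⟨(b (l 3) (b (b (l 3) (l 2)) (l 2))), by decide +kernel⟩

def k1_B70pp_001_s1 : ∃ t, chk3 f_B70pp_001_s1 t 3 1 1 = true :=
  ⟨(b (b (l 3) (a (l 3) (b (a (l 3) (b (a (l 3) (a (l 3) (b (l 3) (l 1067427855)))) (a (b (l 3) (l 1066110479)) (a (b (l 1066998799) (l 1066771983)) (b (l 1067310095) (l 1067151375)))))) (a (a (b (l 3) (a (l 1059721743) (l 1061099023))) (b (a (l 3) (l 1064721935)) (a (l 1062361103) (b (l 1063863311) (l 1062860303))))) (a (b (l 1065498127) (a (l 1064046607) (b (l 16788704) (l 16730496)))) (b (a (l 1066262031) (l 1066755087)) (b (a (l 16739128) (l 16732648)) (l 16720432)))))))) (b (a (b (a (b (l 3) (a (l 3) (a (l 3) (l 1055119887)))) (b (a (l 3) (a (l 1055415823) (b (l 1055743503) (l 1055699471)))) (a (l 1055448079) (a (l 1055713807) (b (l 1055832591) (b (l 16714192) (l 16700296))))))) (a (b (a (l 2) (l 1055713295)) (l 2)) (b (a (b (l 1055889935) (a (b (l 16719600) (l 2)) (l 16733840))) (b (a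 (b (l 16706752) (l 16692576)) (l 16679400)) (l 16745960))) (a (b (l 136465815671) (l 2)) (b (l 16634648) (l 16608152)))))) (b (a (b (a (a (l 1056812047) (l 1058435599)) (b (l 1061190159) (a (l 16713624) (l 16703536)))) (a (a (b (l 16756648) (l 16771048)) (b (l 16778688) (l 16667272))) (b (l 16761856) (l 16641128)))) (b (a (b (a (l 16718920) (l 16711224)) (l 16690952)) (l 16774560)) (a (l 16730136) (l 16638200)))) (a (b (a (b (l 16734296) (l 16623064)) (l 16682880)) (a (l 16667600) (l 16546928))) (b (a (l 16567392) (l 16567104)) (a (l 16512064) (l 16479400)))))) (a (b (a (l 2) (b (a (l 2) (l 16655936)) (l 2))) (l 2)) (b (a (b (a (l 16536088) (l 16501144)) (l 16652488)) (b (l 16538312) (l 16425288))) (a (b (l 182636011735) (l 2)) (b (l 16492128) (l 6))))))), by decide +kernel⟩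

theorem t2_B70pp_001_s1 : ∃ t, chk3 f_B70pp_001_s1 t 1 1 1 = true := ex3_a k0_B70pp_001_s1 k1_B70pp_001_s1

theorem c_B70pp_001_s1 : CertF 0 536870912 536870912 536870912 587336777 62277027 false true true .up 0 0 1
    ndB7q0 ndB0q1 pcB0 cut_B70pp_001_s1 xt_B70pp_001_s1 :=
  certF2 (fam := false) (s1 := true) (s2 := true) (a := 0) (b := 0) (c := 1) (cn := .up) (n1 := ndB7q0) (n2 := ndB0q1) (pc := pcB0) (cut := cut_B70pp_001_s1) (xt := xt_B70pp_001_s1) (P1 := 0) (W1 := 536870912) (P2 := 536870912) (W2 := 536870912) (P3 := 587336777) (W3 := 62277027)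
    rfl (fun _ => rfl) t2_B70pp_001_s1

theorem s_B70pp_001_s1 {κ x : ℝ} (hκ : κ * h0 = ken x) (hx : ((587336777 : ℕ) : ℝ) / S ≤ x)
    (hx' : x ≤ (((587336777 : ℕ) : ℝ) + (62277027 : ℕ)) / S) :
    AltB (VFD κ) PP tK tL pcB [⟨3, 0, 0, 1449551462⟩] 0 0 1 7 0 (sgb true) (sgb true) x :=
  strip_altBD (m := 1449551462) true rfl hκ (SH.κ0 hκ (SH.hx1 hx).le (SH.hx2 hx').le) (SH.hx1 hx).le (SH.hx2 hx') (covB70).cov (covB01).cov hx hx' c_B70pp_001_s1 cutB_nil ((okx6 hx hx').ext0B (T := tt) (zx hx hx') (okx hx hx') (sideB hx hx') hκ rfl rfl (.N 0 true) (.O 1 true) (Or.inl rfl))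

noncomputable def cut_B70pp_011_s1 : Cut := Cut.of [[⟨4, 0, 0, 1449551462⟩]]

noncomputable def xt_B70pp_011_s1 : Ext := strExt0 dd false true true .s0 .u0 .u0m .pnn 0 1 1 rfl rfl gf1 vv ww kz ndB7q0 ndB0q1

noncomputable def f_B70pp_011_s1 : ℕ → ℕ → ℕ → ℕ → Bool := onCell 536870912 536870912 536870912 536870912 587336777 62277027
    (rowF 2 false true true .pnn 0 1 1 (qsf 0 536870912 536870912 536870912 1) ndB7q0 ndB0q1 pcB1 cut_B70pp_011_s1 xt_B70pp_011_s1)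

def k0_B70pp_011_s1 : ∃ t, chk3 f_B70pp_011_s1 t 1 1 1 = true :=
  ⟨(a (b (a (b (a (b (l 3) (a (b (l 3) (a (l 3) (b (l 3) (l 1066510351)))) (l 1067095055))) (b (b (l 1) (a (l 1068093967) (l 1))) (a (l 1067592719) (b (l 1068337679) (a (l 1067665423) (l 16745920)))))) (a (b (b (a (a (b (l 1066037263) (l 1065950223)) (b (l 1066464783) (l 1066408975))) (a (b (l 1066827279) (l 1066793487)) (l 1067148815))) (a (a (b (l 1065828367) (l 1065674255)) (b (l 1066320399) (l 16746472))) (b (l 1066909199) (a (l 16739752) (l 16733616))))) (a (b (a (b (l 16741832) (l 16728056)) (b (l 16734808) (l 16722504))) (b (l 16710928) (l 16692984))) (b (b (l 16810224) (l 16714008)) (l 16692432)))) (b (b (a (b (l 16771248) (l 16783936)) (b (l 16778696) (l 16729320))) (a (b (l 16733776) (l 16724808)) (l 16716696))) (b (a (l 16709024) (l 16697976)) (l 16762728))))) (b (a (b (l 1) (b (l 1) (a (l 160557989639) (l 1)))) (l 1)) (b (a (a (b (l 16721192)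 (l 16703720)) (l 80027364295)) (b (l 1) (l 16691512))) (a (b (l 16679928) (l 16659304)) (b (l 16663624) (l 16637552)))))) (b (a (a (b (b (a (l 16659872) (l 16653808)) (l 16768400)) (b (a (l 16525368) (l 16529160)) (l 16553680))) (b (b (l 16644912) (l 16682112)) (b (l 16536816) (l 16452960)))) (b (a (b (l 16715264) (l 16593400)) (b (l 16611048) (l 16581000))) (b (a (l 16540808) (l 6)) (l 6)))) (a (b (b (a (l 16432648) (l 6)) (a (l 16408976) (l 6))) (l 6)) (l 6)))) (b (a (b (l 1) (a (b (l 1) (b (l 1) (l 16641168))) (l 1))) (l 1)) (b (a (a (l 6) (l 6)) (l 6)) (l 6)))), by decide +kernel⟩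

theorem c_B70pp_011_s1 : CertF 0 536870912 536870912 536870912 587336777 62277027 false true true .pnn 0 1 1
    ndB7q0 ndB0q1 pcB1 cut_B70pp_011_s1 xt_B70pp_011_s1 :=
  certF2 (fam := false) (s1 := true) (s2 := true) (a := 0) (b := 1) (c := 1) (cn := .pnn) (n1 := ndB7q0) (n2 := ndB0q1) (pc := pcB1) (cut := cut_B70pp_011_s1) (xt := xt_B70pp_011_s1) (P1 := 0) (W1 := 536870912) (P2 := 536870912) (W2 := 536870912) (P3 := 587336777) (W3 := 62277027)
    rfl (fun _ => rfl) k0_B70pp_011_s1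

theorem s_B70pp_011_s1 {κ x : ℝ} (hκ : κ * h0 = ken x) (hx : ((587336777 : ℕ) : ℝ) / S ≤ x)
    (hx' : x ≤ (((587336777 : ℕ) : ℝ) + (62277027 : ℕ)) / S) :
    AltB (VFD κ) PP tK tL pcB [⟨3, 0, 0, 1449551462⟩] 0 1 1 7 0 (sgb true) (sgb true) x :=
  strip_altBD (m := 1449551462) true rfl hκ (SH.κ0 hκ (SH.hx1 hx).le (SH.hx2 hx').le) (SH.hx1 hx).le (SH.hx2 hx') (covB70).cov (covB01).cov hx hx' c_B70pp_011_s1 cutB_nil ((okx6 hx hx').ext0B (T := tt) (zx hx hx') (okx hx hx') (sideB hx hx') hκ rfl rfl (.N 0 true) (.O 1 true) (Or.inr rfl))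

noncomputable def cut_B70pp_012_s1 : Cut := Cut.of [[⟨4, 0, 0, 1449551462⟩]]

noncomputable def f_B70pp_012_s1 : ℕ → ℕ → ℕ → ℕ → Bool := onCell 0 536870912 0 536870912 587336777 62277027
    (rowF 0 false true true .pnp 0 1 2 (qsf 0 536870912 0 536870912 1) ndB7q0 ndB0q2 pcB1 cut_B70pp_012_s1 Ext.none)

def k0_B70pp_012_s1 : ∃ t, chk3 f_B70pp_012_s1 t 1 1 1 = true :=
  ⟨(b (l 6) (l 6)), by decide +kernel⟩

theorem c_B70pp_012_s1 : CertF 0 536870912 0 536870912 587336777 62277027 false true true .pnp 0 1 2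
    ndB7q0 ndB0q2 pcB1 cut_B70pp_012_s1 Ext.none :=
  certF0 (fam := false) (s1 := true) (s2 := true) (a := 0) (b := 1) (c := 2) (cn := .pnp) (n1 := ndB7q0) (n2 := ndB0q2) (pc := pcB1) (cut := cut_B70pp_012_s1) (xt := Ext.none) (P1 := 0) (W1 := 536870912) (P2 := 0) (W2 := 536870912) (P3 := 587336777) (W3 := 62277027)
    rfl k0_B70pp_012_s1

theorem s_B70pp_012_s1 {κ x : ℝ} (hκ : κ * h0 = ken x) (hx : ((587336777 : ℕ) : ℝ) / S ≤ x)
    (hx' : x ≤ (((587336777 : ℕ) : ℝ) + (62277027 : ℕ)) / S) :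
    AltB (VFD κ) PP tK tL pcB [⟨3, 0, 0, 1449551462⟩] 0 1 2 7 0 (sgb true) (sgb true) x :=
  strip_altBD (m := 1449551462) true rfl hκ (SH.κ0 hκ (SH.hx1 hx).le (SH.hx2 hx').le) (SH.hx1 hx).le (SH.hx2 hx') (covB70).cov (covB02).cov hx hx' c_B70pp_012_s1 cutB_nil (noExt_B)

noncomputable def cut_B70pp_022_s1 : Cut := Cut.of [[⟨4, 0, 0, 1449551462⟩]]

noncomputable def f_B70pp_022_s1 : ℕ → ℕ → ℕ → ℕ → Bool := onCell 1073741824 536870912 0 536870912 587336777 62277027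
    (rowF 2 false true true .pp 0 2 2 (qsf 0 536870912 0 536870912 2) ndB7q0 ndB0q2 pcB2 cut_B70pp_022_s1 Ext.none)

def k0_B70pp_022_s1 : ∃ t, chk3 f_B70pp_022_s1 t 1 1 1 = true :=
  ⟨(l 6), by decide +kernel⟩

theorem c_B70pp_022_s1 : CertF 0 536870912 0 536870912 587336777 62277027 false true true .pp 0 2 2
    ndB7q0 ndB0q2 pcB2 cut_B70pp_022_s1 Ext.none :=
  certF2 (fam := false) (s1 := true) (s2 := true) (a := 0) (b := 2) (c := 2) (cn := .pp) (n1 := ndB7q0) (n2 := ndB0q2) (pc := pcB2) (cut := cut_B70pp_022_s1) (xt := Ext.none) (P1 := 0) (W1 := 536870912) (P2 := 0) (W2 := 536870912) (P3 := 587336777) (W3 := 62277027)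
    rfl (fun _ => rfl) k0_B70pp_022_s1

theorem s_B70pp_022_s1 {κ x : ℝ} (hκ : κ * h0 = ken x) (hx : ((587336777 : ℕ) : ℝ) / S ≤ x)
    (hx' : x ≤ (((587336777 : ℕ) : ℝ) + (62277027 : ℕ)) / S) :
    AltB (VFD κ) PP tK tL pcB [⟨3, 0, 0, 1449551462⟩] 0 2 2 7 0 (sgb true) (sgb true) x :=
  strip_altBD (m := 1449551462) true rfl hκ (SH.κ0 hκ (SH.hx1 hx).le (SH.hx2 hx').le) (SH.hx1 hx).le (SH.hx2 hx') (covB70).cov (covB02).cov hx hx' c_B70pp_022_s1 cutB_nil (noExt_B)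

noncomputable def cut_B70pp_101_s1 : Cut := Cut.of [[⟨4, 0, 0, 1449551462⟩], [⟨0, 1, 0, 67108864⟩, ⟨1, 0, 0, 67108864⟩, ⟨2, 1, 0, 67108864⟩]]

noncomputable def xt_B70pp_101_s1 : Ext := strExt0 dd false true true .s0 .u0 .u0m .npn 1 0 1 rfl rfl gf0 vv ww kz ndB7q1 ndB0q1

noncomputable def f_B70pp_101_s1 : ℕ → ℕ → ℕ → ℕ → Bool := onCell 0 536870912 536870912 536870912 587336777 62277027
    (rowF 2 false true true .npn 1 0 1 (qsf 536870912 536870912 536870912 536870912 0) ndB7q1 ndB0q1 pcB0 cut_B70pp_101_s1 xt_B70pp_101_s1)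

def k0_B70pp_101_s1 : ∃ t, chk3 f_B70pp_101_s1 t 2 2 1 = true :=
  ⟨(l 3), by decide +kernel⟩

def k1_B70pp_101_s1 : ∃ t, chk3 f_B70pp_101_s1 t 2 6 1 = true :=
  ⟨(a (l 3) (a (l 3) (b (l 3) (b (l 3) (a (l 1057868815) (l 1059286543)))))), by decide +kernel⟩

def k2_B70pp_101_s1 : ∃ t, chk3 f_B70pp_101_s1 t 4 7 1 = true :=
  ⟨(b (b (l 3) (a (l 3) (a (l 3) (a (l 3) (l 1058273295))))) (a (b (b (l 3) (a (l 3) (a (l 3) (a (l 3) (l 1059508751))))) (a (b (b (l 3) (l 14)) (l 14)) (b (b (a (a (l 3) (l 1059735055)) (a (l 1059824655) (b (l 1059899919) (b (l 1060003343) (a (l 16766592) (l 16762248)))))) (a (a (l 1059878927) (b (l 1059950095) (a (b (l 1060076047) (l 14)) (b (a (l 16768440) (l 16766256)) (l 16763176))))) (a (b (b (a (l 1060020239) (l 16777336)) (a (l 16777576) (l 16762760))) (b (l 16771240) (l 16756424))) (b (a (l 16770920) (l 16755944)) (l 16770640))))) (b (a (a (l 14) (a (l 14) (l 16773304))) (b (a (l 16770944)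 (l 16741120)) (a (l 16783200) (l 16732512)))) (a (l 14) (b (a (l 16732768) (l 16723952)) (l 16719656))))))) (b (a (b (a (l 3) (l 1059416591)) (a (b (l 1059577871) (a (l 1059817487) (b (l 1059910159) (a (l 16772584) (l 16773488))))) (b (l 1059860495) (a (b (a (l 16777056) (l 16762272)) (l 16777504)) (b (l 16776768) (l 16747760)))))) (b (a (l 1059507727) (b (l 1059142671) (a (b (l 16770456) (l 16752232)) (c (l 16768408) (l 16767472))))) (a (b (a (b (l 16773104) (l 16775912)) (l 16770760)) (a (l 16764088) (l 16733952))) (b (b (l 16760984) (l 16732192)) (l 16762528))))) (b (a (a (b (a (b (a (l 1060009999) (l 16774136)) (a (l 16780904) (l 16755536))) (b (l 16778152) (l 16748872))) (l 16761648)) (b (l 16760816) (l 16723176))) (a (a (l 16739448) (l 16751808)) (l 16770608))) (a (b (a (a (l 16769976) (l 16761424)) (b (l 16710872) (l 16702456))) (a (l 16748664) (l 16689856))) (a (l 16765536) (l 16665432))))))), by decide +kernel⟩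

def k3_B70pp_101_s1 : ∃ t, chk3 f_B70pp_101_s1 t 5 7 1 = true :=
  ⟨(b (a (b (a (l 3) (a (l 1056817167) (l 1056954895))) (a (a (l 1058181135) (b (l 1057910287) (b (l 1058457615) (a (b (l 16774832) (l 16746160)) (l 16772248))))) (b (a (l 1058036751) (b (l 1058017807) (b (l 16763064) (l 16776624)))) (a (b (a (l 16767616) (l 16779352)) (l 16769128)) (b (l 16765640) (l 16709144)))))) (b (a (b (l 1056714767) (a (l 1057537039) (b (l 1057442831) (b (l 16775280) (l 16768016))))) (b (a (l 1057061391) (b (l 16776400) (l 16761776))) (a (b (l 16761536) (l 16710472)) (l 16740392)))) (a (b (a (b (a (l 16780992) (l 16771512)) (l 16761744)) (l 16750184)) (l 16752352)) (a (l 16749528) (l 16742200))))) (b (a (b (a (a (b (b (a (l 16777984) (l 16768704)) (a (l 16770240) (l 16740176))) (a (l 16779848) (l 16728848))) (b (l 16772328) (l 16715440))) (a (l 16747048) (l 16687648))) (a (a (l 16763160) (l 16777088)) (a (l 16759864) (l 16659312))))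 (b (a (l 16745872) (l 16628936)) (a (l 16719016) (l 16604176)))) (a (a (b (b (l 16763352) (l 16664328)) (l 16641232)) (b (l 16639096) (l 16610256))) (b (l 16677816) (a (l 16581800) (l 16555368)))))), by decide +kernel⟩

def k4_B70pp_101_s1 : ∃ t, chk3 f_B70pp_101_s1 t 3 1 1 = true :=
  ⟨(b (a (l 3) (l 1)) (b (a (b (a (b (l 3) (a (l 3) (a (l 3) (l 1055119887)))) (b (l 1) (a (l 1055448079) (l 1)))) (a (b (a (l 1055313935) (l 1055713295)) (a (b (l 1056091663) (a (a (l 1056651791) (l 16762696)) (b (l 16765224) (l 16750800)))) (b (a (b (l 16773824) (l 16717312)) (b (l 16711240) (l 16696776))) (a (l 16737696) (l 16675792))))) (b (a (b (l 1055889935) (a (b (l 16719400) (l 16705024)) (l 16733472))) (b (l 1) (l 16745104))) (a (b (b (l 16764352) (l 16666576)) (l 16646144)) (l 16704288))))) (b (l 1) (a (b (l 1) (a (l 16582240) (l 1))) (l 1)))) (a (b (a (b (a (b (a (b (l 16756480) (l 16700240)) (l 16687712)) (l 16670056)) (b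 (l 16658528) (l 16632624))) (a (b (l 16644248) (l 16620048)) (b (l 16608664) (l 16586544)))) (b (a (l 16607504) (l 16654752)) (a (l 16647248) (l 16530064)))) (a (b (a (l 16753208) (l 16555528)) (b (l 16623320) (l 16602552))) (b (l 16680000) (l 16733240)))) (b (a (b (a (l 16618728) (l 16499816)) (l 16566280)) (b (l 1) (l 16422712))) (a (b (l 16625360) (l 16437976)) (b (l 16406344) (l 6))))))), by decide +kernel⟩

theorem t5_B70pp_101_s1 : ∃ t, chk3 f_B70pp_101_s1 t 2 7 1 = true := ex3_a k2_B70pp_101_s1 k3_B70pp_101_s1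

theorem t6_B70pp_101_s1 : ∃ t, chk3 f_B70pp_101_s1 t 2 3 1 = true := ex3_b k1_B70pp_101_s1 t5_B70pp_101_s1

theorem t7_B70pp_101_s1 : ∃ t, chk3 f_B70pp_101_s1 t 2 1 1 = true := ex3_b k0_B70pp_101_s1 t6_B70pp_101_s1

theorem t8_B70pp_101_s1 : ∃ t, chk3 f_B70pp_101_s1 t 1 1 1 = true := ex3_a t7_B70pp_101_s1 k4_B70pp_101_s1

theorem c_B70pp_101_s1 : CertF 536870912 536870912 536870912 536870912 587336777 62277027 false true true .npn 1 0 1
    ndB7q1 ndB0q1 pcB0 cut_B70pp_101_s1 xt_B70pp_101_s1 :=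
  certF2 (fam := false) (s1 := true) (s2 := true) (a := 1) (b := 0) (c := 1) (cn := .npn) (n1 := ndB7q1) (n2 := ndB0q1) (pc := pcB0) (cut := cut_B70pp_101_s1) (xt := xt_B70pp_101_s1) (P1 := 536870912) (W1 := 536870912) (P2 := 536870912) (W2 := 536870912) (P3 := 587336777) (W3 := 62277027)
    rfl (fun _ => rfl) t8_B70pp_101_s1

theorem s_B70pp_101_s1 {κ x : ℝ} (hκ : κ * h0 = ken x) (hx : ((587336777 : ℕ) : ℝ) / S ≤ x)
    (hx' : x ≤ (((587336777 : ℕ) : ℝ) + (62277027 : ℕ)) / S)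
    (H : CutB (VFD κ) PP tK tL pcB (Cut.of [[⟨0, 1, 0, 67108864⟩, ⟨1, 0, 0, 67108864⟩, ⟨2, 1, 0, 67108864⟩]]) 1 0 1 7 0 (sgb true) (sgb true) x) :
    AltB (VFD κ) PP tK tL pcB [⟨3, 0, 0, 1449551462⟩] 1 0 1 7 0 (sgb true) (sgb true) x :=
  strip_altBD (m := 1449551462) true rfl hκ (SH.κ0 hκ (SH.hx1 hx).le (SH.hx2 hx').le) (SH.hx1 hx).le (SH.hx2 hx') (covB71).cov (covB01).cov hx hx' c_B70pp_101_s1 H ((okx6 hx hx').ext0B (T := tt) (zx hx hx') (okx hx hx') (sideB hx hx') hκ rfl rfl (.N 1 true) (.O 1 true) (Or.inl rfl))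

noncomputable def cut_B70pp_102_s1 : Cut := Cut.of [[⟨4, 0, 0, 1449551462⟩], [⟨0, 1, 0, 67108864⟩, ⟨1, 0, 0, 67108864⟩, ⟨2, 1, 0, 67108864⟩]]

noncomputable def f_B70pp_102_s1 : ℕ → ℕ → ℕ → ℕ → Bool := onCell 536870912 536870912 0 536870912 587336777 62277027
    (rowF 0 false true true .npp 1 0 2 (qsf 536870912 536870912 0 536870912 0) ndB7q1 ndB0q2 pcB0 cut_B70pp_102_s1 Ext.none)

def k0_B70pp_102_s1 : ∃ t, chk3 f_B70pp_102_s1 t 1 1 1 = true :=
  ⟨(b (l 6) (a (a (l 6) (b (l 6) (b (l 6) (a (b (l 6) (l 16461656)) (b (l 16477744) (l 16496920)))))) (a (b (l 6) (b (a (b (l 6) (l 16482344)) (b (l 16478400) (l 16506440))) (b (a (l 16506400) (l 16625784)) (a (a (l 16526792) (l 16548816)) (a (l 16572928) (b (l 16586360) (l 16696072))))))) (b (b (l 6) (a (l 16619616) (a (l 16456288) (l 16627280)))) (b (a (a (b (l 16492520) (l 16529096)) (b (l 16503400) (b (l 16534648) (l 16558032)))) (a (b (l 16515288) (a (l 16644320) (l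 16654032))) (b (l 16611936) (a (l 16579408) (l 16588888))))) (b (a (a (l 16657728) (b (l 16583584) (l 16611192))) (a (a (l 16741920) (b (l 16613264) (l 16644880))) (a (b (l 16751808) (l 14)) (l 14)))) (a (b (a (l 16613032) (l 16724880)) (a (b (l 16634520) (l 16733312)) (a (l 16749048) (l 16691616)))) (a (a (b (l 16663152) (b (l 16688616) (b (l 16701824) (l 16710800)))) (a (b (l 16674584) (l 14)) (l 14))) (l 14))))))))), by decide +kernel⟩

theorem c_B70pp_102_s1 : CertF 536870912 536870912 0 536870912 587336777 62277027 false true true .npp 1 0 2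
    ndB7q1 ndB0q2 pcB0 cut_B70pp_102_s1 Ext.none :=
  certF0 (fam := false) (s1 := true) (s2 := true) (a := 1) (b := 0) (c := 2) (cn := .npp) (n1 := ndB7q1) (n2 := ndB0q2) (pc := pcB0) (cut := cut_B70pp_102_s1) (xt := Ext.none) (P1 := 536870912) (W1 := 536870912) (P2 := 0) (W2 := 536870912) (P3 := 587336777) (W3 := 62277027)
    rfl k0_B70pp_102_s1

theorem s_B70pp_102_s1 {κ x : ℝ} (hκ : κ * h0 = ken x) (hx : ((587336777 : ℕ) : ℝ) / S ≤ x)
    (hx' : x ≤ (((587336777 : ℕ) : ℝ) + (62277027 : ℕ)) / S)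
    (H : CutB (VFD κ) PP tK tL pcB (Cut.of [[⟨0, 1, 0, 67108864⟩, ⟨1, 0, 0, 67108864⟩, ⟨2, 1, 0, 67108864⟩]]) 1 0 2 7 0 (sgb true) (sgb true) x) :
    AltB (VFD κ) PP tK tL pcB [⟨3, 0, 0, 1449551462⟩] 1 0 2 7 0 (sgb true) (sgb true) x :=
  strip_altBD (m := 1449551462) true rfl hκ (SH.κ0 hκ (SH.hx1 hx).le (SH.hx2 hx').le) (SH.hx1 hx).le (SH.hx2 hx') (covB71).cov (covB02).cov hx hx' c_B70pp_102_s1 H (noExt_B)

noncomputable def cut_B70pp_112_s1 : Cut := Cut.of [[⟨4, 0, 0, 1449551462⟩]]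

noncomputable def f_B70pp_112_s1 : ℕ → ℕ → ℕ → ℕ → Bool := onCell 536870912 536870912 0 536870912 587336777 62277027
    (rowF 2 false true true .dn 1 1 2 (qsf 536870912 536870912 0 536870912 1) ndB7q1 ndB0q2 pcB1 cut_B70pp_112_s1 Ext.none)

def k0_B70pp_112_s1 : ∃ t, chk3 f_B70pp_112_s1 t 1 1 1 = true :=
  ⟨(b (l 6) (l 6)), by decide +kernel⟩

theorem c_B70pp_112_s1 : CertF 536870912 536870912 0 536870912 587336777 62277027 false true true .dn 1 1 2
    ndB7q1 ndB0q2 pcB1 cut_B70pp_112_s1 Ext.none :=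
  certF2 (fam := false) (s1 := true) (s2 := true) (a := 1) (b := 1) (c := 2) (cn := .dn) (n1 := ndB7q1) (n2 := ndB0q2) (pc := pcB1) (cut := cut_B70pp_112_s1) (xt := Ext.none) (P1 := 536870912) (W1 := 536870912) (P2 := 0) (W2 := 536870912) (P3 := 587336777) (W3 := 62277027)
    rfl (fun _ => rfl) k0_B70pp_112_s1

theorem s_B70pp_112_s1 {κ x : ℝ} (hκ : κ * h0 = ken x) (hx : ((587336777 : ℕ) : ℝ) / S ≤ x)
    (hx' : x ≤ (((587336777 : ℕ) : ℝ) + (62277027 : ℕ)) / S) :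
    AltB (VFD κ) PP tK tL pcB [⟨3, 0, 0, 1449551462⟩] 1 1 2 7 0 (sgb true) (sgb true) x :=
  strip_altBD (m := 1449551462) true rfl hκ (SH.κ0 hκ (SH.hx1 hx).le (SH.hx2 hx').le) (SH.hx1 hx).le (SH.hx2 hx') (covB71).cov (covB02).cov hx hx' c_B70pp_112_s1 cutB_nil (noExt_B)

noncomputable def cut_B70pp_202_s1 : Cut := Cut.of [[⟨4, 0, 0, 1449551462⟩], [⟨0, 1, 0, 67108864⟩, ⟨1, 0, 0, 67108864⟩, ⟨2, 1, 0, 67108864⟩]]

noncomputable def f_B70pp_202_s1 : ℕ → ℕ → ℕ → ℕ → Bool := onCell 0 536870912 0 536870912 587336777 62277027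
    (rowF 2 false true true .pp 2 0 2 (qsf 1073741824 536870912 0 536870912 0) ndB7q2 ndB0q2 pcB0 cut_B70pp_202_s1 Ext.none)

def k0_B70pp_202_s1 : ∃ t, chk3 f_B70pp_202_s1 t 1 1 1 = true :=
  ⟨(a (b (a (l 6) (l 6)) (a (b (a (a (b (l 16525608) (l 16735456)) (b (l 16484768) (l 16606992))) (b (l 6) (a (l 16639216) (l 16495752)))) (a (b (a (b (l 16693552) (l 14)) (b (l 16561920) (a (l 14) (l 16579480)))) (a (l 14) (a (l 14) (l 1)))) (b (b (a (l 16505760) (l 1)) (l 1)) (l 1)))) (b (l 1) (l 1)))) (l 1)), by decide +kernel⟩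

theorem c_B70pp_202_s1 : CertF 1073741824 536870912 0 536870912 587336777 62277027 false true true .pp 2 0 2
    ndB7q2 ndB0q2 pcB0 cut_B70pp_202_s1 Ext.none :=
  certF2 (fam := false) (s1 := true) (s2 := true) (a := 2) (b := 0) (c := 2) (cn := .pp) (n1 := ndB7q2) (n2 := ndB0q2) (pc := pcB0) (cut := cut_B70pp_202_s1) (xt := Ext.none) (P1 := 1073741824) (W1 := 536870912) (P2 := 0) (W2 := 536870912) (P3 := 587336777) (W3 := 62277027)
    rfl (fun _ => rfl) k0_B70pp_202_s1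

theorem s_B70pp_202_s1 {κ x : ℝ} (hκ : κ * h0 = ken x) (hx : ((587336777 : ℕ) : ℝ) / S ≤ x)
    (hx' : x ≤ (((587336777 : ℕ) : ℝ) + (62277027 : ℕ)) / S)
    (H : CutB (VFD κ) PP tK tL pcB (Cut.of [[⟨0, 1, 0, 67108864⟩, ⟨1, 0, 0, 67108864⟩, ⟨2, 1, 0, 67108864⟩]]) 2 0 2 7 0 (sgb true) (sgb true) x) :
    AltB (VFD κ) PP tK tL pcB [⟨3, 0, 0, 1449551462⟩] 2 0 2 7 0 (sgb true) (sgb true) x :=
  strip_altBD (m := 1449551462) true rfl hκ (SH.κ0 hκ (SH.hx1 hx).le (SH.hx2 hx').le) (SH.hx1 hx).le (SH.hx2 hx') (covB72).cov (covB02).cov hx hx' c_B70pp_202_s1 H (noExt_B)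

noncomputable def cut_B70pm_001_s1 : Cut := Cut.of [[⟨4, 0, 0, 1449551462⟩]]

noncomputable def f_B70pm_001_s1 : ℕ → ℕ → ℕ → ℕ → Bool := onCell 0 536870912 536870912 536870912 587336777 62277027
    (rowF 0 false true false .up 0 0 1 (qsf 0 536870912 536870912 536870912 0) ndB7q0 ndB0q1 pcB0 cut_B70pm_001_s1 Ext.none)

def k0_B70pm_001_s1 : ∃ t, chk3 f_B70pm_001_s1 t 1 1 1 = true :=
  ⟨(l 4), by decide +kernel⟩

theorem c_B70pm_001_s1 : CertF 0 536870912 536870912 536870912 587336777 62277027 false true false .up 0 0 1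
    ndB7q0 ndB0q1 pcB0 cut_B70pm_001_s1 Ext.none :=
  certF0 (fam := false) (s1 := true) (s2 := false) (a := 0) (b := 0) (c := 1) (cn := .up) (n1 := ndB7q0) (n2 := ndB0q1) (pc := pcB0) (cut := cut_B70pm_001_s1) (xt := Ext.none) (P1 := 0) (W1 := 536870912) (P2 := 536870912) (W2 := 536870912) (P3 := 587336777) (W3 := 62277027)
    rfl k0_B70pm_001_s1

theorem s_B70pm_001_s1 {κ x : ℝ} (hκ : κ * h0 = ken x) (hx : ((587336777 : ℕ) : ℝ) / S ≤ x)
    (hx' : x ≤ (((587336777 : ℕ) : ℝ) + (62277027 : ℕ)) / S) :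
    AltB (VFD κ) PP tK tL pcB [⟨3, 0, 0, 1449551462⟩] 0 0 1 7 0 (sgb true) (sgb false) x :=
  strip_altBD (m := 1449551462) true rfl hκ (SH.κ0 hκ (SH.hx1 hx).le (SH.hx2 hx').le) (SH.hx1 hx).le (SH.hx2 hx') (covB70).cov (covB01).cov hx hx' c_B70pm_001_s1 cutB_nil (noExt_B)

noncomputable def cut_B70pm_011_s1 : Cut := Cut.of [[⟨4, 0, 0, 1449551462⟩]]

noncomputable def f_B70pm_011_s1 : ℕ → ℕ → ℕ → ℕ → Bool := onCell 0 536870912 536870912 536870912 587336777 62277027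
    (rowF 0 false true false .pnn 0 1 1 (qsf 0 536870912 536870912 536870912 1) ndB7q0 ndB0q1 pcB1 cut_B70pm_011_s1 Ext.none)

def k0_B70pm_011_s1 : ∃ t, chk3 f_B70pm_011_s1 t 1 1 1 = true :=
  ⟨(l 4), by decide +kernel⟩

theorem c_B70pm_011_s1 : CertF 0 536870912 536870912 536870912 587336777 62277027 false true false .pnn 0 1 1
    ndB7q0 ndB0q1 pcB1 cut_B70pm_011_s1 Ext.none :=
  certF0 (fam := false) (s1 := true) (s2 := false) (a := 0) (b := 1) (c := 1) (cn := .pnn) (n1 := ndB7q0) (n2 := ndB0q1) (pc := pcB1) (cut := cut_B70pm_011_s1) (xt := Ext.none) (P1 := 0) (W1 := 536870912) (P2 := 536870912) (W2 := 536870912) (P3 := 587336777) (W3 := 62277027)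
    rfl k0_B70pm_011_s1

theorem s_B70pm_011_s1 {κ x : ℝ} (hκ : κ * h0 = ken x) (hx : ((587336777 : ℕ) : ℝ) / S ≤ x)
    (hx' : x ≤ (((587336777 : ℕ) : ℝ) + (62277027 : ℕ)) / S) :
    AltB (VFD κ) PP tK tL pcB [⟨3, 0, 0, 1449551462⟩] 0 1 1 7 0 (sgb true) (sgb false) x :=
  strip_altBD (m := 1449551462) true rfl hκ (SH.κ0 hκ (SH.hx1 hx).le (SH.hx2 hx').le) (SH.hx1 hx).le (SH.hx2 hx') (covB70).cov (covB01).cov hx hx' c_B70pm_011_s1 cutB_nil (noExt_B)

noncomputable def cut_B70pm_012_s1 : Cut := Cut.of [[⟨4, 0, 0, 1449551462⟩]]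

noncomputable def f_B70pm_012_s1 : ℕ → ℕ → ℕ → ℕ → Bool := onCell 0 536870912 0 536870912 587336777 62277027
    (rowF 0 false true false .pnp 0 1 2 (qsf 0 536870912 0 536870912 1) ndB7q0 ndB0q2 pcB1 cut_B70pm_012_s1 Ext.none)

def k0_B70pm_012_s1 : ∃ t, chk3 f_B70pm_012_s1 t 1 1 1 = true :=
  ⟨(l 6), by decide +kernel⟩

theorem c_B70pm_012_s1 : CertF 0 536870912 0 536870912 587336777 62277027 false true false .pnp 0 1 2
    ndB7q0 ndB0q2 pcB1 cut_B70pm_012_s1 Ext.none :=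
  certF0 (fam := false) (s1 := true) (s2 := false) (a := 0) (b := 1) (c := 2) (cn := .pnp) (n1 := ndB7q0) (n2 := ndB0q2) (pc := pcB1) (cut := cut_B70pm_012_s1) (xt := Ext.none) (P1 := 0) (W1 := 536870912) (P2 := 0) (W2 := 536870912) (P3 := 587336777) (W3 := 62277027)
    rfl k0_B70pm_012_s1

theorem s_B70pm_012_s1 {κ x : ℝ} (hκ : κ * h0 = ken x) (hx : ((587336777 : ℕ) : ℝ) / S ≤ x)
    (hx' : x ≤ (((587336777 : ℕ) : ℝ) + (62277027 : ℕ)) / S) :
    AltB (VFD κ) PP tK tL pcB [⟨3, 0, 0, 1449551462⟩] 0 1 2 7 0 (sgb true) (sgb false) x :=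
  strip_altBD (m := 1449551462) true rfl hκ (SH.κ0 hκ (SH.hx1 hx).le (SH.hx2 hx').le) (SH.hx1 hx).le (SH.hx2 hx') (covB70).cov (covB02).cov hx hx' c_B70pm_012_s1 cutB_nil (noExt_B)

noncomputable def cut_B70pm_022_s1 : Cut := Cut.of [[⟨4, 0, 0, 1449551462⟩]]

noncomputable def f_B70pm_022_s1 : ℕ → ℕ → ℕ → ℕ → Bool := onCell 0 536870912 0 536870912 587336777 62277027
    (rowF 0 false true false .pp 0 2 2 (qsf 0 536870912 0 536870912 2) ndB7q0 ndB0q2 pcB2 cut_B70pm_022_s1 Ext.none)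

def k0_B70pm_022_s1 : ∃ t, chk3 f_B70pm_022_s1 t 1 1 1 = true :=
  ⟨(l 6), by decide +kernel⟩

theorem c_B70pm_022_s1 : CertF 0 536870912 0 536870912 587336777 62277027 false true false .pp 0 2 2
    ndB7q0 ndB0q2 pcB2 cut_B70pm_022_s1 Ext.none :=
  certF0 (fam := false) (s1 := true) (s2 := false) (a := 0) (b := 2) (c := 2) (cn := .pp) (n1 := ndB7q0) (n2 := ndB0q2) (pc := pcB2) (cut := cut_B70pm_022_s1) (xt := Ext.none) (P1 := 0) (W1 := 536870912) (P2 := 0) (W2 := 536870912) (P3 := 587336777) (W3 := 62277027)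
    rfl k0_B70pm_022_s1

theorem s_B70pm_022_s1 {κ x : ℝ} (hκ : κ * h0 = ken x) (hx : ((587336777 : ℕ) : ℝ) / S ≤ x)
    (hx' : x ≤ (((587336777 : ℕ) : ℝ) + (62277027 : ℕ)) / S) :
    AltB (VFD κ) PP tK tL pcB [⟨3, 0, 0, 1449551462⟩] 0 2 2 7 0 (sgb true) (sgb false) x :=
  strip_altBD (m := 1449551462) true rfl hκ (SH.κ0 hκ (SH.hx1 hx).le (SH.hx2 hx').le) (SH.hx1 hx).le (SH.hx2 hx') (covB70).cov (covB02).cov hx hx' c_B70pm_022_s1 cutB_nil (noExt_B)

noncomputable def cut_B70pm_101_s1 : Cut := Cut.of [[⟨4, 0, 0, 1449551462⟩]]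

noncomputable def f_B70pm_101_s1 : ℕ → ℕ → ℕ → ℕ → Bool := onCell 536870912 536870912 536870912 536870912 587336777 62277027
    (rowF 0 false true false .npn 1 0 1 (qsf 536870912 536870912 536870912 536870912 0) ndB7q1 ndB0q1 pcB0 cut_B70pm_101_s1 Ext.none)

def k0_B70pm_101_s1 : ∃ t, chk3 f_B70pm_101_s1 t 1 1 1 = true :=
  ⟨(l 4), by decide +kernel⟩

theorem c_B70pm_101_s1 : CertF 536870912 536870912 536870912 536870912 587336777 62277027 false true false .npn 1 0 1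
    ndB7q1 ndB0q1 pcB0 cut_B70pm_101_s1 Ext.none :=
  certF0 (fam := false) (s1 := true) (s2 := false) (a := 1) (b := 0) (c := 1) (cn := .npn) (n1 := ndB7q1) (n2 := ndB0q1) (pc := pcB0) (cut := cut_B70pm_101_s1) (xt := Ext.none) (P1 := 536870912) (W1 := 536870912) (P2 := 536870912) (W2 := 536870912) (P3 := 587336777) (W3 := 62277027)
    rfl k0_B70pm_101_s1

theorem s_B70pm_101_s1 {κ x : ℝ} (hκ : κ * h0 = ken x) (hx : ((587336777 : ℕ) : ℝ) / S ≤ x)
    (hx' : x ≤ (((587336777 : ℕ) : ℝ) + (62277027 : ℕ)) / S) :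
    AltB (VFD κ) PP tK tL pcB [⟨3, 0, 0, 1449551462⟩] 1 0 1 7 0 (sgb true) (sgb false) x :=
  strip_altBD (m := 1449551462) true rfl hκ (SH.κ0 hκ (SH.hx1 hx).le (SH.hx2 hx').le) (SH.hx1 hx).le (SH.hx2 hx') (covB71).cov (covB01).cov hx hx' c_B70pm_101_s1 cutB_nil (noExt_B)

noncomputable def cut_B70pm_102_s1 : Cut := Cut.of [[⟨4, 0, 0, 1449551462⟩]]

noncomputable def f_B70pm_102_s1 : ℕ → ℕ → ℕ → ℕ → Bool := onCell 536870912 536870912 0 536870912 587336777 62277027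
    (rowF 0 false true false .npp 1 0 2 (qsf 536870912 536870912 0 536870912 0) ndB7q1 ndB0q2 pcB0 cut_B70pm_102_s1 Ext.none)

def k0_B70pm_102_s1 : ∃ t, chk3 f_B70pm_102_s1 t 1 1 1 = true :=
  ⟨(l 6), by decide +kernel⟩

theorem c_B70pm_102_s1 : CertF 536870912 536870912 0 536870912 587336777 62277027 false true false .npp 1 0 2
    ndB7q1 ndB0q2 pcB0 cut_B70pm_102_s1 Ext.none :=
  certF0 (fam := false) (s1 := true) (s2 := false) (a := 1) (b := 0) (c := 2) (cn := .npp) (n1 := ndB7q1) (n2 := ndB0q2) (pc := pcB0) (cut := cut_B70pm_102_s1) (xt := Ext.none) (P1 := 536870912) (W1 := 536870912) (P2 := 0) (W2 := 536870912) (P3 := 587336777) (W3 := 62277027)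
    rfl k0_B70pm_102_s1

theorem s_B70pm_102_s1 {κ x : ℝ} (hκ : κ * h0 = ken x) (hx : ((587336777 : ℕ) : ℝ) / S ≤ x)
    (hx' : x ≤ (((587336777 : ℕ) : ℝ) + (62277027 : ℕ)) / S) :
    AltB (VFD κ) PP tK tL pcB [⟨3, 0, 0, 1449551462⟩] 1 0 2 7 0 (sgb true) (sgb false) x :=
  strip_altBD (m := 1449551462) true rfl hκ (SH.κ0 hκ (SH.hx1 hx).le (SH.hx2 hx').le) (SH.hx1 hx).le (SH.hx2 hx') (covB71).cov (covB02).cov hx hx' c_B70pm_102_s1 cutB_nil (noExt_B)

noncomputable def cut_B70pm_112_s1 : Cut := Cut.of [[⟨4, 0, 0, 1449551462⟩]]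

noncomputable def f_B70pm_112_s1 : ℕ → ℕ → ℕ → ℕ → Bool := onCell 536870912 536870912 0 536870912 587336777 62277027
    (rowF 0 false true false .dn 1 1 2 (qsf 536870912 536870912 0 536870912 1) ndB7q1 ndB0q2 pcB1 cut_B70pm_112_s1 Ext.none)

def k0_B70pm_112_s1 : ∃ t, chk3 f_B70pm_112_s1 t 1 1 1 = true :=
  ⟨(l 6), by decide +kernel⟩

theorem c_B70pm_112_s1 : CertF 536870912 536870912 0 536870912 587336777 62277027 false true false .dn 1 1 2
    ndB7q1 ndB0q2 pcB1 cut_B70pm_112_s1 Ext.none :=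
  certF0 (fam := false) (s1 := true) (s2 := false) (a := 1) (b := 1) (c := 2) (cn := .dn) (n1 := ndB7q1) (n2 := ndB0q2) (pc := pcB1) (cut := cut_B70pm_112_s1) (xt := Ext.none) (P1 := 536870912) (W1 := 536870912) (P2 := 0) (W2 := 536870912) (P3 := 587336777) (W3 := 62277027)
    rfl k0_B70pm_112_s1

theorem s_B70pm_112_s1 {κ x : ℝ} (hκ : κ * h0 = ken x) (hx : ((587336777 : ℕ) : ℝ) / S ≤ x)
    (hx' : x ≤ (((587336777 : ℕ) : ℝ) + (62277027 : ℕ)) / S) :
    AltB (VFD κ) PP tK tL pcB [⟨3, 0, 0, 1449551462⟩] 1 1 2 7 0 (sgb true) (sgb false) x :=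
  strip_altBD (m := 1449551462) true rfl hκ (SH.κ0 hκ (SH.hx1 hx).le (SH.hx2 hx').le) (SH.hx1 hx).le (SH.hx2 hx') (covB71).cov (covB02).cov hx hx' c_B70pm_112_s1 cutB_nil (noExt_B)

noncomputable def cut_B70pm_202_s1 : Cut := Cut.of [[⟨4, 0, 0, 1449551462⟩]]

noncomputable def f_B70pm_202_s1 : ℕ → ℕ → ℕ → ℕ → Bool := onCell 0 536870912 0 536870912 587336777 62277027
    (rowF 2 false true false .pp 2 0 2 (qsf 1073741824 536870912 0 536870912 0) ndB7q2 ndB0q2 pcB0 cut_B70pm_202_s1 Ext.none)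

def k0_B70pm_202_s1 : ∃ t, chk3 f_B70pm_202_s1 t 1 1 1 = true :=
  ⟨(l 6), by decide +kernel⟩

theorem c_B70pm_202_s1 : CertF 1073741824 536870912 0 536870912 587336777 62277027 false true false .pp 2 0 2
    ndB7q2 ndB0q2 pcB0 cut_B70pm_202_s1 Ext.none :=
  certF2 (fam := false) (s1 := true) (s2 := false) (a := 2) (b := 0) (c := 2) (cn := .pp) (n1 := ndB7q2) (n2 := ndB0q2) (pc := pcB0) (cut := cut_B70pm_202_s1) (xt := Ext.none) (P1 := 1073741824) (W1 := 536870912) (P2 := 0) (W2 := 536870912) (P3 := 587336777) (W3 := 62277027)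
    rfl (fun _ => rfl) k0_B70pm_202_s1

theorem s_B70pm_202_s1 {κ x : ℝ} (hκ : κ * h0 = ken x) (hx : ((587336777 : ℕ) : ℝ) / S ≤ x)
    (hx' : x ≤ (((587336777 : ℕ) : ℝ) + (62277027 : ℕ)) / S) :
    AltB (VFD κ) PP tK tL pcB [⟨3, 0, 0, 1449551462⟩] 2 0 2 7 0 (sgb true) (sgb false) x :=
  strip_altBD (m := 1449551462) true rfl hκ (SH.κ0 hκ (SH.hx1 hx).le (SH.hx2 hx').le) (SH.hx1 hx).le (SH.hx2 hx') (covB72).cov (covB02).cov hx hx' c_B70pm_202_s1 cutB_nil (noExt_B)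

noncomputable def cut_B70mm_001_s1 : Cut := Cut.of [[⟨4, 0, 0, 1449551462⟩]]

noncomputable def f_B70mm_001_s1 : ℕ → ℕ → ℕ → ℕ → Bool := onCell 0 536870912 536870912 536870912 587336777 62277027
    (rowF 0 false false false .up 0 0 1 (qsf 0 536870912 536870912 536870912 0) ndB7q0 ndB0q1 pcB0 cut_B70mm_001_s1 Ext.none)

def k0_B70mm_001_s1 : ∃ t, chk3 f_B70mm_001_s1 t 1 1 1 = true :=
  ⟨(l 5), by decide +kernel⟩

theorem c_B70mm_001_s1 : CertF 0 536870912 536870912 536870912 587336777 62277027 false false false .up 0 0 1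
    ndB7q0 ndB0q1 pcB0 cut_B70mm_001_s1 Ext.none :=
  certF0 (fam := false) (s1 := false) (s2 := false) (a := 0) (b := 0) (c := 1) (cn := .up) (n1 := ndB7q0) (n2 := ndB0q1) (pc := pcB0) (cut := cut_B70mm_001_s1) (xt := Ext.none) (P1 := 0) (W1 := 536870912) (P2 := 536870912) (W2 := 536870912) (P3 := 587336777) (W3 := 62277027)
    rfl k0_B70mm_001_s1

theorem s_B70mm_001_s1 {κ x : ℝ} (hκ : κ * h0 = ken x) (hx : ((587336777 : ℕ) : ℝ) / S ≤ x)
    (hx' : x ≤ (((587336777 : ℕ) : ℝ) + (62277027 : ℕ)) / S) :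
    AltB (VFD κ) PP tK tL pcB [⟨3, 0, 0, 1449551462⟩] 0 0 1 7 0 (sgb false) (sgb false) x :=
  strip_altBD (m := 1449551462) true rfl hκ (SH.κ0 hκ (SH.hx1 hx).le (SH.hx2 hx').le) (SH.hx1 hx).le (SH.hx2 hx') (covB70).cov (covB01).cov hx hx' c_B70mm_001_s1 cutB_nil (noExt_B)

noncomputable def cut_B70mm_011_s1 : Cut := Cut.of [[⟨4, 0, 0, 1449551462⟩]]

noncomputable def f_B70mm_011_s1 : ℕ → ℕ → ℕ → ℕ → Bool := onCell 0 536870912 536870912 536870912 587336777 62277027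
    (rowF 0 false false false .pnn 0 1 1 (qsf 0 536870912 536870912 536870912 1) ndB7q0 ndB0q1 pcB1 cut_B70mm_011_s1 Ext.none)

def k0_B70mm_011_s1 : ∃ t, chk3 f_B70mm_011_s1 t 1 1 1 = true :=
  ⟨(l 5), by decide +kernel⟩

theorem c_B70mm_011_s1 : CertF 0 536870912 536870912 536870912 587336777 62277027 false false false .pnn 0 1 1
    ndB7q0 ndB0q1 pcB1 cut_B70mm_011_s1 Ext.none :=
  certF0 (fam := false) (s1 := false) (s2 := false) (a := 0) (b := 1) (c := 1) (cn := .pnn) (n1 := ndB7q0) (n2 := ndB0q1) (pc := pcB1) (cut := cut_B70mm_011_s1) (xt := Ext.none) (P1 := 0) (W1 := 536870912) (P2 := 536870912) (W2 := 536870912) (P3 := 587336777) (W3 := 62277027)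
    rfl k0_B70mm_011_s1

theorem s_B70mm_011_s1 {κ x : ℝ} (hκ : κ * h0 = ken x) (hx : ((587336777 : ℕ) : ℝ) / S ≤ x)
    (hx' : x ≤ (((587336777 : ℕ) : ℝ) + (62277027 : ℕ)) / S) :
    AltB (VFD κ) PP tK tL pcB [⟨3, 0, 0, 1449551462⟩] 0 1 1 7 0 (sgb false) (sgb false) x :=
  strip_altBD (m := 1449551462) true rfl hκ (SH.κ0 hκ (SH.hx1 hx).le (SH.hx2 hx').le) (SH.hx1 hx).le (SH.hx2 hx') (covB70).cov (covB01).cov hx hx' c_B70mm_011_s1 cutB_nil (noExt_B)

noncomputable def cut_B70mm_012_s1 : Cut := Cut.of [[⟨4, 0, 0, 1449551462⟩]]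

noncomputable def f_B70mm_012_s1 : ℕ → ℕ → ℕ → ℕ → Bool := onCell 0 536870912 0 536870912 587336777 62277027
    (rowF 0 false false false .pnp 0 1 2 (qsf 0 536870912 0 536870912 1) ndB7q0 ndB0q2 pcB1 cut_B70mm_012_s1 Ext.none)

def k0_B70mm_012_s1 : ∃ t, chk3 f_B70mm_012_s1 t 1 1 1 = true :=
  ⟨(l 5), by decide +kernel⟩

theorem c_B70mm_012_s1 : CertF 0 536870912 0 536870912 587336777 62277027 false false false .pnp 0 1 2
    ndB7q0 ndB0q2 pcB1 cut_B70mm_012_s1 Ext.none :=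
  certF0 (fam := false) (s1 := false) (s2 := false) (a := 0) (b := 1) (c := 2) (cn := .pnp) (n1 := ndB7q0) (n2 := ndB0q2) (pc := pcB1) (cut := cut_B70mm_012_s1) (xt := Ext.none) (P1 := 0) (W1 := 536870912) (P2 := 0) (W2 := 536870912) (P3 := 587336777) (W3 := 62277027)
    rfl k0_B70mm_012_s1

theorem s_B70mm_012_s1 {κ x : ℝ} (hκ : κ * h0 = ken x) (hx : ((587336777 : ℕ) : ℝ) / S ≤ x)
    (hx' : x ≤ (((587336777 : ℕ) : ℝ) + (62277027 : ℕ)) / S) :
    AltB (VFD κ) PP tK tL pcB [⟨3, 0, 0, 1449551462⟩] 0 1 2 7 0 (sgb false) (sgb false) x :=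
  strip_altBD (m := 1449551462) true rfl hκ (SH.κ0 hκ (SH.hx1 hx).le (SH.hx2 hx').le) (SH.hx1 hx).le (SH.hx2 hx') (covB70).cov (covB02).cov hx hx' c_B70mm_012_s1 cutB_nil (noExt_B)

noncomputable def cut_B70mm_022_s1 : Cut := Cut.of [[⟨4, 0, 0, 1449551462⟩]]

noncomputable def f_B70mm_022_s1 : ℕ → ℕ → ℕ → ℕ → Bool := onCell 0 536870912 0 536870912 587336777 62277027
    (rowF 0 false false false .pp 0 2 2 (qsf 0 536870912 0 536870912 2) ndB7q0 ndB0q2 pcB2 cut_B70mm_022_s1 Ext.none)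

def k0_B70mm_022_s1 : ∃ t, chk3 f_B70mm_022_s1 t 1 1 1 = true :=
  ⟨(l 5), by decide +kernel⟩

theorem c_B70mm_022_s1 : CertF 0 536870912 0 536870912 587336777 62277027 false false false .pp 0 2 2
    ndB7q0 ndB0q2 pcB2 cut_B70mm_022_s1 Ext.none :=
  certF0 (fam := false) (s1 := false) (s2 := false) (a := 0) (b := 2) (c := 2) (cn := .pp) (n1 := ndB7q0) (n2 := ndB0q2) (pc := pcB2) (cut := cut_B70mm_022_s1) (xt := Ext.none) (P1 := 0) (W1 := 536870912) (P2 := 0) (W2 := 536870912) (P3 := 587336777) (W3 := 62277027)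
    rfl k0_B70mm_022_s1

theorem s_B70mm_022_s1 {κ x : ℝ} (hκ : κ * h0 = ken x) (hx : ((587336777 : ℕ) : ℝ) / S ≤ x)
    (hx' : x ≤ (((587336777 : ℕ) : ℝ) + (62277027 : ℕ)) / S) :
    AltB (VFD κ) PP tK tL pcB [⟨3, 0, 0, 1449551462⟩] 0 2 2 7 0 (sgb false) (sgb false) x :=
  strip_altBD (m := 1449551462) true rfl hκ (SH.κ0 hκ (SH.hx1 hx).le (SH.hx2 hx').le) (SH.hx1 hx).le (SH.hx2 hx') (covB70).cov (covB02).cov hx hx' c_B70mm_022_s1 cutB_nil (noExt_B)

noncomputable def cut_B70mm_101_s1 : Cut := Cut.of [[⟨4, 0, 0, 1449551462⟩]]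

noncomputable def f_B70mm_101_s1 : ℕ → ℕ → ℕ → ℕ → Bool := onCell 0 536870912 536870912 536870912 587336777 62277027
    (rowF 2 false false false .npn 1 0 1 (qsf 536870912 536870912 536870912 536870912 0) ndB7q1 ndB0q1 pcB0 cut_B70mm_101_s1 Ext.none)

def k0_B70mm_101_s1 : ∃ t, chk3 f_B70mm_101_s1 t 1 1 1 = true :=
  ⟨(l 5), by decide +kernel⟩

theorem c_B70mm_101_s1 : CertF 536870912 536870912 536870912 536870912 587336777 62277027 false false false .npn 1 0 1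
    ndB7q1 ndB0q1 pcB0 cut_B70mm_101_s1 Ext.none :=
  certF2 (fam := false) (s1 := false) (s2 := false) (a := 1) (b := 0) (c := 1) (cn := .npn) (n1 := ndB7q1) (n2 := ndB0q1) (pc := pcB0) (cut := cut_B70mm_101_s1) (xt := Ext.none) (P1 := 536870912) (W1 := 536870912) (P2 := 536870912) (W2 := 536870912) (P3 := 587336777) (W3 := 62277027)
    rfl (fun _ => rfl) k0_B70mm_101_s1

theorem s_B70mm_101_s1 {κ x : ℝ} (hκ : κ * h0 = ken x) (hx : ((587336777 : ℕ) : ℝ) / S ≤ x)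
    (hx' : x ≤ (((587336777 : ℕ) : ℝ) + (62277027 : ℕ)) / S) :
    AltB (VFD κ) PP tK tL pcB [⟨3, 0, 0, 1449551462⟩] 1 0 1 7 0 (sgb false) (sgb false) x :=
  strip_altBD (m := 1449551462) true rfl hκ (SH.κ0 hκ (SH.hx1 hx).le (SH.hx2 hx').le) (SH.hx1 hx).le (SH.hx2 hx') (covB71).cov (covB01).cov hx hx' c_B70mm_101_s1 cutB_nil (noExt_B)

noncomputable def cut_B70mm_102_s1 : Cut := Cut.of [[⟨4, 0, 0, 1449551462⟩]]

noncomputable def f_B70mm_102_s1 : ℕ → ℕ → ℕ → ℕ → Bool := onCell 536870912 536870912 0 536870912 587336777 62277027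
    (rowF 0 false false false .npp 1 0 2 (qsf 536870912 536870912 0 536870912 0) ndB7q1 ndB0q2 pcB0 cut_B70mm_102_s1 Ext.none)

def k0_B70mm_102_s1 : ∃ t, chk3 f_B70mm_102_s1 t 1 1 1 = true :=
  ⟨(l 5), by decide +kernel⟩

theorem c_B70mm_102_s1 : CertF 536870912 536870912 0 536870912 587336777 62277027 false false false .npp 1 0 2
    ndB7q1 ndB0q2 pcB0 cut_B70mm_102_s1 Ext.none :=
  certF0 (fam := false) (s1 := false) (s2 := false) (a := 1) (b := 0) (c := 2) (cn := .npp) (n1 := ndB7q1) (n2 := ndB0q2) (pc := pcB0) (cut := cut_B70mm_102_s1) (xt := Ext.none) (P1 := 536870912) (W1 := 536870912) (P2 := 0) (W2 := 536870912) (P3 := 587336777) (W3 := 62277027)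
    rfl k0_B70mm_102_s1

theorem s_B70mm_102_s1 {κ x : ℝ} (hκ : κ * h0 = ken x) (hx : ((587336777 : ℕ) : ℝ) / S ≤ x)
    (hx' : x ≤ (((587336777 : ℕ) : ℝ) + (62277027 : ℕ)) / S) :
    AltB (VFD κ) PP tK tL pcB [⟨3, 0, 0, 1449551462⟩] 1 0 2 7 0 (sgb false) (sgb false) x :=
  strip_altBD (m := 1449551462) true rfl hκ (SH.κ0 hκ (SH.hx1 hx).le (SH.hx2 hx').le) (SH.hx1 hx).le (SH.hx2 hx') (covB71).cov (covB02).cov hx hx' c_B70mm_102_s1 cutB_nil (noExt_B)

noncomputable def cut_B70mm_112_s1 : Cut := Cut.of [[⟨4, 0, 0, 1449551462⟩]]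

noncomputable def f_B70mm_112_s1 : ℕ → ℕ → ℕ → ℕ → Bool := onCell 536870912 536870912 0 536870912 587336777 62277027
    (rowF 0 false false false .dn 1 1 2 (qsf 536870912 536870912 0 536870912 1) ndB7q1 ndB0q2 pcB1 cut_B70mm_112_s1 Ext.none)

def k0_B70mm_112_s1 : ∃ t, chk3 f_B70mm_112_s1 t 1 1 1 = true :=
  ⟨(l 5), by decide +kernel⟩

theorem c_B70mm_112_s1 : CertF 536870912 536870912 0 536870912 587336777 62277027 false false false .dn 1 1 2
    ndB7q1 ndB0q2 pcB1 cut_B70mm_112_s1 Ext.none :=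
  certF0 (fam := false) (s1 := false) (s2 := false) (a := 1) (b := 1) (c := 2) (cn := .dn) (n1 := ndB7q1) (n2 := ndB0q2) (pc := pcB1) (cut := cut_B70mm_112_s1) (xt := Ext.none) (P1 := 536870912) (W1 := 536870912) (P2 := 0) (W2 := 536870912) (P3 := 587336777) (W3 := 62277027)
    rfl k0_B70mm_112_s1

theorem s_B70mm_112_s1 {κ x : ℝ} (hκ : κ * h0 = ken x) (hx : ((587336777 : ℕ) : ℝ) / S ≤ x)
    (hx' : x ≤ (((587336777 : ℕ) : ℝ) + (62277027 : ℕ)) / S) :
    AltB (VFD κ) PP tK tL pcB [⟨3, 0, 0, 1449551462⟩] 1 1 2 7 0 (sgb false) (sgb false) x :=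
  strip_altBD (m := 1449551462) true rfl hκ (SH.κ0 hκ (SH.hx1 hx).le (SH.hx2 hx').le) (SH.hx1 hx).le (SH.hx2 hx') (covB71).cov (covB02).cov hx hx' c_B70mm_112_s1 cutB_nil (noExt_B)

noncomputable def cut_B70mm_202_s1 : Cut := Cut.of [[⟨4, 0, 0, 1449551462⟩]]

noncomputable def f_B70mm_202_s1 : ℕ → ℕ → ℕ → ℕ → Bool := onCell 1073741824 536870912 0 536870912 587336777 62277027
    (rowF 0 false false false .pp 2 0 2 (qsf 1073741824 536870912 0 536870912 0) ndB7q2 ndB0q2 pcB0 cut_B70mm_202_s1 Ext.none)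

def k0_B70mm_202_s1 : ∃ t, chk3 f_B70mm_202_s1 t 1 1 1 = true :=
  ⟨(l 5), by decide +kernel⟩

theorem c_B70mm_202_s1 : CertF 1073741824 536870912 0 536870912 587336777 62277027 false false false .pp 2 0 2
    ndB7q2 ndB0q2 pcB0 cut_B70mm_202_s1 Ext.none :=
  certF0 (fam := false) (s1 := false) (s2 := false) (a := 2) (b := 0) (c := 2) (cn := .pp) (n1 := ndB7q2) (n2 := ndB0q2) (pc := pcB0) (cut := cut_B70mm_202_s1) (xt := Ext.none) (P1 := 1073741824) (W1 := 536870912) (P2 := 0) (W2 := 536870912) (P3 := 587336777) (W3 := 62277027)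
    rfl k0_B70mm_202_s1

theorem s_B70mm_202_s1 {κ x : ℝ} (hκ : κ * h0 = ken x) (hx : ((587336777 : ℕ) : ℝ) / S ≤ x)
    (hx' : x ≤ (((587336777 : ℕ) : ℝ) + (62277027 : ℕ)) / S) :
    AltB (VFD κ) PP tK tL pcB [⟨3, 0, 0, 1449551462⟩] 2 0 2 7 0 (sgb false) (sgb false) x :=
  strip_altBD (m := 1449551462) true rfl hκ (SH.κ0 hκ (SH.hx1 hx).le (SH.hx2 hx').le) (SH.hx1 hx).le (SH.hx2 hx') (covB72).cov (covB02).cov hx hx' c_B70mm_202_s1 cutB_nil (noExt_B)

end Pool.Agent.Strip051.G.I5470_6050.Tab.St.C
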