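import Pool.Agent.Strip051.G.I5470_6050.Tab
import Pool.Agent.Strip051.PB.StripB

/-! # Strips, near vertex: certificates 6 (generated) -/

set_option linter.all false
set_option maxRecDepth 100000

namespace Pool.Agent.Strip051.G.I5470_6050.Tab.CS.BB07

open Pool.Agent.Strip051.PB Pool.Agent.Strip051.PB.T
open Pool.Agent.Strip051.G.I5470_6050.Tab

noncomputable def cut_pp_022_s : Cut := Cut.of [[⟨4, 0, 0, 1449551462⟩], [⟨0, 0, 0, 67108864⟩, ⟨1, 1, 0, 67108864⟩, ⟨2, 1, 0, 67108864⟩]]

noncomputable def f_pp_022_s : ℕ → ℕ → ℕ → ℕ → Bool := onCell 0 536870912 1073741824 536870912 587336777 62277027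
    (rowNE 3 eng mog cd0q0 cd7q2 pd2 1 false true true .pp 0 2 2 (qsf 0 536870912 1073741824 536870912 2) ndB0q0 ndB7q2 pcB2 cut_pp_022_s Ext.none)

def k0_pp_022_s : ∃ t, chk3 f_pp_022_s t 16 16 1 = true :=
  ⟨(b (l 14) (a (l 14) (b (l 14) (a (l 14) (b (l 14) (b (l 14) (l 16746704))))))), by decide +kernel⟩

def k1_pp_022_s : ∃ t, chk3 f_pp_022_s t 17 32 1 = true :=
  ⟨(a (a (l 14) (l 3)) (l 3)), by decide +kernel⟩

def k2_pp_022_s : ∃ t, chk3 f_pp_022_s t 68 66 1 = true :=
  ⟨(b (l 14) (a (l 14) (b (l 14) (b (l 14) (l 16768032))))), by decide +kernel⟩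

def k3_pp_022_s : ∃ t, chk3 f_pp_022_s t 69 66 1 = true :=
  ⟨(b (a (a (l 14) (l 3)) (l 3)) (a (b (b (a (l 14) (a (b (l 14) (b (l 14) (b (l 14) (l 16776480)))) (a (b (l 3) (b (l 3) (a (b (l 229948523479) (l 16777096)) (l 444696887735)))) (l 3)))) (a (a (l 14) (b (l 14) (l 16773768))) (b (a (c (l 16776480) (l 16776464)) (a (b (l 16777152) (l 16776296)) (b (b (a (l 286319968775) (l 3)) (a (l 16777064) (l 254644585015))) (l 16777120)))) (a (l 16775416) (a (l 16775504) (l 16776648)))))) (b (b (c (a (l 16773552) (l 16774864)) (a (l 16773328) (l 16774832))) (a (l 16772496) (a (l 16772648) (l 16773640)))) (a (l 16769632) (a (l 16772400) (c (l 16773392) (l 16773328)))))) (a (b (b (l 3) (a (b (a (b (l 3) (b (a (l 225653555815) (l 3)) (c (l 16777480) (l 91972698791)))) (l 3)) (a (c (l 16777152) (l 16776816)) (b (b (a (l 190756946471) (l 3)) (a (l 16776992) (l 16777472))) (l 16776720)))) (b (l 3) (b (l 3) (a (b (a (l 16777544) (l 313700385943)) (l 16777488)) (l 512342623047))))))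 (a (b (b (c (l 16775688) (l 16776328)) (l 16774624)) (l 16773864)) (b (b (a (l 16776752) (b (b (c (l 155860337783) (l 227801039575)) (l 16777376)) (l 16776648))) (a (l 16775368) (l 16775856))) (c (l 16775352) (l 16774664))))) (b (l 3) (b (a (b (b (a (l 496773366535) (l 3)) (a (b (c (l 135996113975) (l 193978172135)) (l 16777664)) (l 480667239111))) (a (l 16776680) (b (a (l 16776984) (c (l 110226310103) (l 155323466471))) (l 16776576)))) (b (l 3) (b (a (l 464024240775) (l 3)) (a (a (l 16776952) (a (l 16777456) (l 193441301111))) (c (l 441475662423) (l 451139338823)))))) (a (b (l 16776032) (l 16774488)) (b (b (a (l 16776544) (b (l 105394471623) (l 16776904))) (l 16776264)) (l 16776128)))))))), by decide +kernel⟩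

def k4_pp_022_s : ∃ t, chk3 f_pp_022_s t 34 67 1 = true :=
  ⟨(b (a (a (b (l 14) (l 16758272)) (b (c (l 16766272) (l 16766208)) (l 16761760))) (b (b (b (a (l 16770360) (c (a (l 16773288) (l 16773936)) (a (l 16773232) (l 16773904)))) (a (l 16769328) (a (l 16772240) (l 16773528)))) (a (l 16767776) (a (l 16771992) (a (l 16772136) (a (l 16772848) (l 16773336)))))) (a (c (l 16766016) (l 16765952)) (a (l 16768888) (c (l 16770848) (l 16770792)))))) (b (a (a (l 16751552) (l 16757984)) (a (l 16759216) (l 16765056))) (a (l 16751976) (a (l 16760312) (l 16758936))))), by decide +kernel⟩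

def k5_pp_022_s : ∃ t, chk3 f_pp_022_s t 35 66 1 = true :=
  ⟨(b (l 3) (a (a (a (b (l 3) (b (l 3) (a (a (b (b (c (l 425369534999) (l 433959469575)) (c (l 16777648) (l 16777568))) (l 16776536)) (b (b (l 3) (c (l 408189665751) (l 418927083959))) (c (l 16777352) (c (l 16777352) (l 16777344))))) (b (l 3) (a (b (a (l 249275876087) (l 502142075495)) (l 16777576)) (a (b (l 3) (l 214916137719)) (l 496773366743))))))) (l 3)) (l 3)) (l 3))), by decide +kernel⟩

def k6_pp_022_s : ∃ t, chk3 f_pp_022_s t 70 134 1 = true :=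
  ⟨(b (b (a (a (b (a (l 16776048) (a (l 16776128) (b (l 16777536) (l 16776360)))) (c (l 16775496) (l 16775472))) (a (b (b (b (l 489257173895) (a (l 163913401079) (l 3))) (a (l 16776848) (a (l 145122919207) (c (l 244444038679) (l 246054651399))))) (c (l 16776960) (l 16776784))) (b (l 3) (b (b (c (l 454897435399) (l 464561111799)) (a (l 16777568) (l 3))) (a (l 16776768) (b (l 209010557703) (l 16777448))))))) (l 3)) (a (a (c (l 16774256) (l 16774216)) (a (c (l 16775384) (l 16775360)) (b (a (l 16775976) (l 16776792)) (l 16775168)))) (a (a (b (b (a (a (l 16777744) (l 254107714311)) (l 512342623031)) (b (a (l 16776816) (l 217063621399)) (l 16777456))) (c (l 16776144) (l 16776136))) (b (a (l 503215817895) (l 3)) (b (a (c (l 16777784) (l 100562633511)) (l 474761659047)) (a (l 16776608) (a (l 16776968) (l 146733531943)))))) (b (l 3) (b (l 3) (a (a (l 454360564327) (l 3)) (l 3))))))) (b (a (a (a (l 16771992) (a (l 16772704) (l 16773192))) (a (l 16773928) (l 16774408))) (a (a (c (l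 16775888) (l 16775208)) (b (l 16776552) (l 16775008))) (b (b (a (a (l 53317993255) (l 436106953239)) (l 3)) (a (a (l 16776528) (l 16777664)) (a (l 326585287767) (l 3)))) (a (l 16776304) (b (a (l 16777616) (l 302962967575)) (a (l 16776440) (l 16776920))))))) (a (a (l 16771720) (a (l 16771848) (a (l 16772560) (l 16771736)))) (c (a (l 16774280) (c (l 16775880) (l 16775712))) (a (l 16773592) (b (l 16775896) (l 16774352))))))), by decide +kernel⟩

def k7_pp_022_s : ∃ t, chk3 f_pp_022_s t 71 134 1 = true :=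
  ⟨(b (l 3) (a (b (b (l 3) (b (l 3) (a (a (a (a (l 213305524983) (l 290078066311)) (l 3)) (l 3)) (l 3)))) (b (a (a (b (a (l 16776880) (a (l 176261432055) (l 264845133367))) (l 16777248)) (b (l 3) (a (a (l 16777520) (l 239612200439)) (l 3)))) (l 3)) (a (a (l 16776464) (b (a (l 16776792) (a (l 16777152) (l 213842396583))) (l 16776512))) (b (l 3) (a (a (l 172503335799) (l 516637590343)) (l 3)))))) (l 3))), by decide +kernel⟩

def k8_pp_022_s : ∃ t, chk3 f_pp_022_s t 35 135 1 = true :=
  ⟨(a (b (b (a (c (l 16770632) (l 16770584)) (a (b (l 16772528) (l 16771664)) (a (l 16772312) (l 16773928)))) (a (l 16768536) (a (l 16771424) (a (l 16771544) (l 16772496))))) (a (l 16765416) (a (l 16768304) (c (l 16770232) (l 16770216))))) (b (b (a (b (b (a (l 16776160) (a (a (l 16776704) (l 141364822919)) (l 506437043335))) (a (l 16775632) (a (l 16776416) (a (l 107005084471) (l 476909142695))))) (a (l 16774848) (a (l 16775632) (a (l 16776352) (b (l 16777744) (l 16776568)))))) (a (a (b (l 3) (b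 (l 477446013927) (a (l 16777696) (l 361481896951)))) (l 3)) (l 3))) (a (a (a (l 16772152) (l 16774424)) (a (l 16774888) (a (l 16775440) (l 16775920)))) (a (b (a (c (l 16777160) (l 16777312)) (b (l 446844371783) (a (l 16776952) (l 295983645687)))) (a (l 16775456) (a (l 16776168) (l 16777296)))) (a (b (l 3) (b (a (l 259476423735) (l 3)) (a (l 16776856) (l 233706619879)))) (l 3))))) (b (a (c (a (l 16771872) (l 16772464)) (a (l 16772496) (l 16772448))) (a (c (l 16775352) (c (l 16775672) (l 16775008))) (a (b (l 16776968) (l 16775264)) (b (b (a (l 208473686935) (l 3)) (a (l 16776760) (l 176798303111))) (l 16776216))))) (a (a (l 16771096) (a (l 16771208) (l 16772160))) (c (a (l 16772280) (l 16775488)) (a (l 16772280) (l 16774992))))))), by decide +kernel⟩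

def k9_pp_022_s : ∃ t, chk3 f_pp_022_s t 8 17 1 = true :=
  ⟨(a (a (b (a (l 14) (b (l 14) (l 16698184))) (a (b (l 16694224) (l 16677840)) (b (l 16681712) (l 16665264)))) (b (b (a (b (l 14) (l 16718864)) (b (a (l 16733240) (l 16737248)) (l 16726960))) (a (l 16716952) (l 16725024))) (b (a (l 16689936) (l 16697952)) (a (l 16673432) (l 16681384))))) (b (a (b (a (b (c (l 16748384) (l 16748392)) (l 16740104)) (b (a (l 16754120) (a (l 16756944) (l 16756208))) (l 16747704))) (a (a (l 16720456) (l 16734832)) (a (l 16738648) (l 16742408)))) (b (b (b (a (a (l 16758600) (l 16765064)) (b (a (c (l 16769960) (l 16769952)) (c (a (l 16772808) (l 16772088)) (a (l 16772792) (l 16772080)))) (a (l 16765208) (a (l 16768088) (a (l 16769496) (l 16770440)))))) (a (a (l 16754360) (l 16758208)) (a (l 16764648) (a (l 16764888) (l 16769424))))) (a (a (l 16752040) (c (l 16757168) (l 16757008))) (a (c (l 16760984) (l 16760856)) (c (l 16762160) (l 16762368))))) (a (b (c (l 16746992) (l 16746856)) (l 16733392))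 (b (a (l 16752512) (l 16756264)) (a (l 16738952) (l 16747912)))))) (a (b (a (l 16705776) (l 16723912)) (a (l 16689152) (l 16696760))) (b (a (c (l 16731440) (l 16731368)) (a (l 16737000) (l 16740680))) (a (l 16714720) (l 16722096)))))), by decide +kernel⟩

def k10_pp_022_s : ∃ t, chk3 f_pp_022_s t 9 16 1 = true :=
  ⟨(a (b (l 3) (b (l 3) (a (b (l 3) (a (b (l 3) (a (b (a (a (b (l 519321945735) (b (a (l 16777840) (l 502142075623)) (a (l 16776664) (l 16777792)))) (b (l 3) (l 501068334551))) (l 3)) (a (a (c (l 16776248) (l 16776248)) (b (b (a (l 16777088) (l 269140101127)) (l 16777456)) (l 16776016))) (a (a (b (l 460803015591) (l 16777384)) (b (l 3) (b (l 314774127655) (l 16776936)))) (b (l 3) (a (l 428590760695) (l 3)))))) (l 3))) (l 3))) (l 3)))) (l 3)), by decide +kernel⟩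

def k11_pp_022_s : ∃ t, chk3 f_pp_022_s t 36 136 1 = true :=
  ⟨(a (a (b (a (b (c (l 16775288) (l 16775280)) (l 16773184)) (a (b (a (l 16776464) (l 16776280)) (l 16773288)) (b (b (a (l 16776624) (a (l 16777632) (l 164987143271))) (l 16775808)) (l 16775544)))) (b (a (a (l 16769272) (l 16770216)) (l 16772960)) (a (l 16767640) (l 16771480)))) (b (b (a (a (b (a (l 397452247607) (l 3)) (c (l 16778064) (c (l 16778064) (l 16777728)))) (b (l 3) (a (b (l 3) (l 16777848)) (l 513416365223)))) (l 3)) (a (b (a (l 16775704) (a (l 16776416) (l 16777864))) (l 16775776)) (b (a (a (a (l 178408916087) (l 296520516807)) (l 479056626679)) (l 3)) (a (l 16777520) (a (c (l 130090534999) (l 180019528983)) (l 445770629943)))))) (a (b (c (l 16773552) (l 16773528)) (l 16771416)) (b (a (l 16776264) (b (l 16777736) (l 16775368))) (l 16774616))))) (b (l 3) (b (a (a (a (b (b (a (l 278266905607) (l 3)) (l 113447535831)) (l 16776312)) (b (l 3) (b (a (l 16777912) (l 3)) (l 16777640)))) (a (l 521469430183)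 (l 3))) (l 3)) (a (a (c (l 16776512) (l 16775848)) (b (a (a (l 16777560) (l 217600493063)) (l 497847108999)) (a (l 16776080) (a (l 16776784) (l 171966465495))))) (a (a (b (l 3) (l 469929821383)) (l 3)) (l 3)))))), by decide +kernel⟩

def k12_pp_022_s : ∃ t, chk3 f_pp_022_s t 36 137 1 = true :=
  ⟨(a (b (a (c (l 16768064) (l 16767976)) (a (b (l 16771896) (l 16767168)) (b (l 16771184) (l 16771656)))) (a (l 16761152) (c (l 16767600) (l 16767504)))) (b (a (a (b (l 16774384) (l 16770936)) (b (a (l 16774488) (l 16776744)) (l 16774144))) (b (b (a (a (a (l 16776672) (l 125258696135)) (l 442549404663)) (l 3)) (a (c (l 16777624) (c (l 16777616) (l 16777616))) (c (l 431275116103) (a (l 406042182423) (l 3))))) (a (c (l 16774728) (l 16774704)) (a (c (l 16777448) (l 16777432)) (b (a (l 218137363943) (l 486035948535)) (l 16777848)))))) (a (a (b (l 16771416) (l 16766688)) (b (l 16770696) (l 16768552))) (a (b (l 16772584) (l 16770440)) (b (l 16775448) (l 16772328)))))), by decide +kernel⟩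

def k13_pp_022_s : ∃ t, chk3 f_pp_022_s t 36 69 1 = true :=
  ⟨(b (a (a (l 16758416) (c (l 16763872) (l 16761112))) (a (b (c (l 16767120) (l 16767008)) (l 16760200)) (b (a (b (l 16768296) (l 16766184)) (b (l 16770184) (l 16768040))) (l 16766568)))) (a (a (l 16751600) (l 16755360)) (a (l 16759096) (c (l 16762880) (l 16762744))))), by decide +kernel⟩

def k14_pp_022_s : ∃ t, chk3 f_pp_022_s t 37 34 1 = true :=
  ⟨(b (b (l 3) (a (a (b (b (l 3) (a (b (l 3) (b (l 490867787335) (a (l 115595020183) (l 3)))) (l 3))) (a (b (a (l 16776864) (b (a (l 16777760) (l 235317234487)) (l 16776288))) (l 16775520)) (a (b (b (l 3) (a (l 16776984) (l 258939553255))) (l 16775624)) (b (l 522006300999) (a (l 16777632) (b (l 200957494855) (l 16776256))))))) (a (b (l 3) (b (l 3) (b (l 501605206023) (a (l 95730796103) (l 458118661175))))) (l 3))) (l 3))) (b (a (b (a (c (b (l 16775648) (l 16770896)) (a (l 16773576) (l 16774160))) (a (b (a (l 16775352) (b (l 16778136) (l 16775760))) (l 16773680)) (a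 (b (b (l 413558375255) (l 16776688)) (l 16775080)) (b (b (l 3) (l 286319970359)) (l 16777328))))) (b (a (c (l 16771376) (l 16771272)) (c (l 16772488) (l 16775056))) (a (c (l 16766648) (l 16769160)) (l 16771632)))) (a (a (b (b (l 3) (b (a (l 246591522791) (l 3)) (a (l 16776416) (l 206326204311)))) (b (l 16776256) (l 16773120))) (b (l 3) (b (b (a (l 167671498535) (l 515563849143)) (a (l 16776136) (l 126332438279))) (l 16776296)))) (b (l 3) (b (a (l 508047657703) (l 3)) (b (a (a (l 16778224) (l 359334414423)) (l 3)) (a (l 16777616) (l 440401921463))))))) (a (a (b (l 16766040) (l 16759168)) (b (a (c (l 16766240) (l 16766136)) (c (l 16770696) (l 16770584))) (l 16765496))) (a (a (b (l 16772520) (l 16768264)) (b (c (l 16771784) (l 16771728)) (c (l 16767504) (l 16770024)))) (b (a (c (l 16774944) (l 16774904)) (b (b (a (l 16776616) (l 265918875719)) (l 16776008)) (l 16774392))) (a (l 16771616) (l 16773136))))))), by decide +kernel⟩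

def k15_pp_022_s : ∃ t, chk3 f_pp_022_s t 18 35 1 = true :=
  ⟨(b (a (a (b (a (l 16738032) (l 16752176)) (l 16731520)) (b (a (l 16750616) (l 16749112)) (c (l 16749368) (l 16749208)))) (a (b (a (l 16758056) (l 16761744)) (l 16751408)) (b (b (a (l 16762304) (c (l 16768632) (c (l 16768576) (l 16768512)))) (c (l 16765168) (l 16765072))) (c (l 16758800) (l 16758696))))) (a (b (a (l 16723160) (l 16730448)) (l 16728832)) (a (b (l 16745536) (l 16729120)) (b (l 16750216) (l 16746736))))), by decide +kernel⟩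

def k16_pp_022_s : ∃ t, chk3 f_pp_022_s t 19 34 1 = true :=
  ⟨(b (l 3) (a (b (l 3) (a (a (b (b (b (l 3) (a (c (l 390472926167) (l 400136602535)) (l 3))) (b (a (a (l 16776320) (l 182703884087)) (l 527375009943)) (a (l 16775704) (a (l 16778384) (l 489257174231))))) (a (c (l 16773032) (l 16775608)) (b (a (l 16775472) (l 16778352)) (l 16773776)))) (b (l 3) (a (b (a (b (l 269140102919) (l 16776768)) (l 458118661655)) (l 16777248)) (b (l 3) (b (l 417853342855) (a (l 16776448) (l 219747977127))))))) (l 3))) (l 3))), by decide +kernel⟩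

def k17_pp_022_s : ∃ t, chk3 f_pp_022_s t 19 70 1 = true :=
  ⟨(a (b (a (b (a (c (l 16772280) (l 16772216)) (a (l 16774352) (b (l 16775288) (l 16773136)))) (a (c (l 16770656) (l 16767960)) (c (l 16771656) (l 16771592)))) (a (b (b (a (b (a (l 16778496) (l 516637590903)) (l 16778536)) (l 508047657575)) (a (l 16774960) (a (l 16777632) (a (l 137606727783) (l 235317234119))))) (c (l 16775280) (a (l 16771712) (l 16776160)))) (b (a (a (b (l 3) (l 436643825031)) (l 3)) (l 3)) (a (b (a (l 16775984) (a (l 16777968) (l 162302789815))) (l 16774280)) (c (b (l 413558375975) (l 16778712)) (b (a (l 391009796903) (l 538649299143)) (l 16778696))))))) (a (a (l 16764224) (b (c (l 16770056) (l 16769960)) (l 16760488))) (b (a (c (l 16773648) (l 16770952)) (c (l 16774624) (l 16773912))) (a (c (l 16764216) (l 16769312)) (c (l 16773008) (l 16772896)))))) (b (a (a (a (b (l 3) (b (l 3) (a (a (l 184314497303) (l 284172487207)) (l 479593498295)))) (l 3)) (l 3)) (l 3)) (a (b (a (b (a (l 16777040) (a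 (a (l 16778160) (l 206326204695)) (l 415168988263))) (c (l 16774504) (l 16774472))) (b (l 3) (a (a (l 95193925847) (a (l 224579815751) (l 325511547463))) (l 514490108503)))) (b (a (l 16774968) (a (l 16775008) (b (l 210084301351) (l 16776248)))) (a (l 16770216) (l 16775072)))) (b (l 3) (a (b (a (l 468856080375) (l 3)) (a (a (l 16775968) (l 125795567767)) (c (l 409263408567) (l 420537697639)))) (l 3)))))), by decide +kernel⟩

def k18_pp_022_s : ∃ t, chk3 f_pp_022_s t 19 71 1 = true :=
  ⟨(a (b (a (c (l 16757608) (l 16757440)) (b (a (l 16759856) (l 16768736)) (l 16762640))) (a (l 16743488) (l 16755944))) (a (b (b (c (b (l 16775184) (l 16773080)) (a (l 16772208) (l 16775768))) (a (l 16766784) (a (l 16770744) (l 16767264)))) (b (c (l 16765608) (l 16765352)) (l 16755624))) (a (b (a (b (l 16775176) (l 16769008)) (b (b (l 16778320) (l 16773896)) (l 16773360))) (b (c (l 16770880) (l 16770656)) (l 16761024))) (b (b (a (b (b (l 492478400151) (l 198810012023)) (l 16775640)) (b (l 3)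 (b (c (l 254644589463) (l 258939556855)) (l 16778144)))) (b (l 16776352) (l 16774904))) (b (l 16771648) (c (l 16764632) (l 16769688))))))), by decide +kernel⟩

def k19_pp_022_s : ∃ t, chk3 f_pp_022_s t 5 8 1 = true :=
  ⟨(a (b (l 3) (b (l 3) (a (b (l 3) (a (b (a (b (a (a (l 537038688711) (l 3)) (l 3)) (b (a (a (a (l 16777848) (l 231022266999)) (l 491941529831)) (l 3)) (b (a (a (l 16775392) (l 173040208039)) (l 3)) (a (l 16777808) (a (l 302426098711) (l 3)))))) (l 3)) (a (b (a (c (l 16775168) (l 16775064)) (b (a (l 39896221943) (a (l 238538459815) (l 481204110967))) (c (l 16774880) (l 16777448)))) (a (l 16773304) (c (l 16771608) (l 16776752)))) (a (a (b (b (l 3) (b (l 276119426167) (l 16778200))) (l 16776296)) (b (l 3) (b (a (l 16777864) (l 238001589015)) (l 16774800)))) (b (l 3) (a (b (l 497847109847) (c (l 16779152) (l 16778568))) (b (l 3) (l 439328179719))))))) (l 3))) (l 3)))) (l 3)), by decide +kernel⟩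

def k20_pp_022_s : ∃ t, chk3 f_pp_022_s t 4 9 1 = true :=
  ⟨(b (a (a (b (a (a (l 16632440) (l 16640736)) (a (l 16648776) (l 16677592))) (a (l 16624968) (l 16640744))) (b (a (a (l 16685248) (l 16692752)) (b (c (l 16701760) (l 16712112)) (l 16695400))) (a (b (l 16643112) (l 16626488)) (a (l 16666696) (l 16673840))))) (b (a (a (b (a (l 16702024) (l 16709152)) (l 16709672)) (b (a (l 16726696) (c (l 16733856) (l 16733600))) (l 16718360))) (b (a (a (b (l 16745088) (l 16725888)) (b (l 16741752) (l 16732848))) (b (a (l 16759344) (b (l 16763464) (l 16753688))) (a (l 16739920) (l 16757432)))) (a (a (l 16712936) (l 16730272)) (a (a (l 16735368) (l 16738792)) (a (l 16742248) (l 16745720)))))) (a (a (b (l 16692840) (l 16654984)) (b (l 16706616) (l 16668632))) (b (a (l 16720088) (b (l 16727336) (l 16708088))) (a (l 16681992) (l 16716000)))))) (a (a (b (a (l 16592400) (l 16586816)) (a (l 16538872) (l 16553768))) (b (a (l 16622496) (l 16636720)) (a (l 16589024) (l 16602928)))) (b (a (a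 (l 16650608) (l 16674648)) (a (b (l 16664976) (l 16647992)) (b (l 16678056) (l 16661024)))) (a (a (l 16616592) (l 16630040)) (b (l 16658432) (l 16641376)))))), by decide +kernel⟩

def k21_pp_022_s : ∃ t, chk3 f_pp_022_s t 20 36 1 = true :=
  ⟨(b (a (b (a (b (a (l 16767432) (l 16772288)) (a (l 16758984) (l 16767736))) (a (b (l 16774496) (l 16771248)) (b (a (l 16775824) (b (l 16778688) (l 16773832))) (l 16772168)))) (a (c (l 16759280) (l 16764312)) (b (a (l 16766720) (l 16770216)) (a (l 16756928) (l 16765672))))) (b (a (b (b (a (a (c (l 228337915975) (l 389936054359)) (l 3)) (l 3)) (a (a (l 16775584) (a (l 141901695559) (l 306184195207))) (l 545628622759))) (a (c (l 16775712) (l 16775672)) (b (a (a (l 16776400) (l 214379268967)) (l 483888465863)) (c (l 16778088) (c (l 16778072) (l 16778712)))))) (b (l 3) (a (a (a (b (l 3) (l 286856842327)) (l 539723042263)) (l 3)) (l 3)))) (a (b (a (l 16773752) (c (l 16772056) (l 16774632))) (a (l 16767840) (l 16772688))) (b (b (a (a (l 16778448)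 (a (l 194515045079) (l 444160017511))) (l 3)) (a (l 16777040) (a (a (l 16779232) (l 255718329479)) (l 515563849975)))) (a (l 16774896) (a (l 16776224) (a (l 16777544) (b (l 158544693943) (l 16774648))))))))) (b (a (a (l 16755424) (l 16757112)) (a (b (a (l 16759360) (l 16768064)) (l 16761784)) (a (b (l 16766344) (l 16766952)) (b (l 16772472) (l 16765208))))) (a (c (l 16750008) (l 16749680)) (a (l 16760168) (a (l 16760088) (b (l 16765808) (l 16755968))))))), by decide +kernel⟩

def k22_pp_022_s : ∃ t, chk3 f_pp_022_s t 21 36 1 = true :=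
  ⟨(b (a (b (l 3) (a (b (l 3) (a (b (a (l 449528726967) (l 3)) (a (l 16778592) (a (l 213842398359) (l 468319208759)))) (l 3))) (l 3))) (l 3)) (a (b (a (b (a (c (l 16776008) (l 16775960)) (b (a (a (l 16778032) (l 273435069751)) (l 531133106551)) (a (l 16774840) (a (l 16776152) (l 169818983239))))) (a (l 16773952) (c (l 16772232) (l 16774792)))) (b (a (a (b (l 3) (l 458655532551)) (l 3)) (l 3)) (b (a (a (l 16778632) (a (l 220284849335) (l 474224788823))) (l 3)) (a (l 16777160) (a (a (l 16778032) (l 272898198823)) (l 532206848343)))))) (a (a (b (l 16764040) (l 16764648)) (b (l 16772768) (l 16768080))) (a (b (l 16773632) (l 16766312)) (b (a (l 16776248) (a (l 16777560) (b (l 162839661303) (l 16774632)))) (l 16775016))))) (b (l 3) (a (a (a (b (b (c (l 448991856103) (l 461339886999)) (l 16778560)) (l 16772384)) (b (b (l 3) (a (l 204715592871) (l 461339886807))) (l 16776744))) (b (l 3) (b (a (a (l 16777920) (l 254644587623)) (l 515563849879)) (a (l 16774664) (a (l 16775968) (l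 131164277527)))))) (b (l 3) (a (a (a (b (l 3) (l 294909906215)) (l 555292298759)) (l 3)) (l 3))))))), by decide +kernel⟩

def k23_pp_022_s : ∃ t, chk3 f_pp_022_s t 10 37 1 = true :=
  ⟨(a (b (a (b (b (l 16743096) (l 16738576)) (a (l 16717992) (l 16724664))) (b (a (l 16740576) (l 16757856)) (l 16745240))) (a (a (l 16704688) (l 16732160)) (a (l 16728176) (l 16739968)))) (b (a (b (b (a (l 16764376) (c (l 16768624) (l 16769800))) (a (l 16751864) (c (l 16766576) (l 16766464)))) (a (l 16755304) (c (l 16762120) (l 16761968)))) (b (a (b (a (l 16773752) (c (l 16771976) (l 16774552))) (c (l 16770792) (l 16770688))) (b (b (a (a (l 16775752) (a (l 171429596007) (l 429664502679))) (l 567103459255)) (a (l 16774216) (a (a (l 16776376) (l 204178721975)) (l 484962207527)))) (a (l 16774568) (a (l 16775840) (b (l 16778752) (l 16773744)))))) (b (a (c (l 16768600) (l 16768480)) (c (l 16772808) (l 16772720))) (a (l 16763432) (c (l 16767928) (l 16767800)))))) (a (b (b (l 16751592) (l 16746896))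 (l 16739864)) (b (a (l 16759176) (b (c (l 16763088) (l 16762928)) (l 16763416))) (a (l 16739216) (l 16756232)))))), by decide +kernel⟩

def k24_pp_022_s : ∃ t, chk3 f_pp_022_s t 11 18 1 = true :=
  ⟨(b (l 3) (a (b (a (b (a (b (l 3) (b (a (a (a (l 244980911127) (l 489794045399)) (l 3)) (l 3)) (b (a (a (l 16776056) (l 317995355239)) (l 3)) (a (l 16778320) (l 537038686855))))) (l 3)) (a (b (a (c (l 16772704) (l 16775264)) (b (a (c (l 16776456) (l 16778736)) (c (l 435570083095) (l 446307501271))) (l 16777496))) (a (l 16773008) (l 16776440))) (b (b (l 3) (a (a (a (l 172503337783) (l 328732773943)) (l 570861554359)) (l 3))) (b (a (a (l 16775000) (a (l 16776280) (l 193441303575))) (a (l 474761660007) (l 3))) (a (l 16773392) (a (l 16778584) (a (l 213842398391) (l 464561112231)))))))) (a (l 3) (l 3))) (a (b (b (a (l 16769800) (a (l 16774936) (c (l 16773120) (l 16775712)))) (a (c (l 16764952) (l 16764784)) (l 16772344))) (b (a (l 16760000) (c (l 16772032) (l 16766640))) (a (l 16749920)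 (c (l 16767104) (l 16761712))))) (b (a (a (b (b (a (a (l 16776480) (l 233706622151)) (l 501605205895)) (c (l 16775288) (l 16777888))) (l 16774168)) (a (b (b (l 3) (a (l 248202136871) (l 493015270791))) (l 16776712)) (b (l 3) (b (a (l 16779232) (l 258402684295)) (l 16774536))))) (b (l 3) (a (a (b (l 520395687975) (l 16778848)) (a (b (l 3) (l 266992618935)) (l 550460460247))) (l 3)))) (a (b (c (l 16778768) (l 16773456)) (l 16768496)) (a (b (c (l 16773328) (l 16775920)) (l 16768288)) (b (a (b (a (l 16779296) (l 271824457175)) (l 16774584)) (b (l 530059364471) (l 16778880))) (l 16774264))))))) (b (l 3) (a (b (l 3) (a (b (a (a (a (b (l 3) (l 273971940839)) (l 556366040311)) (l 3)) (l 3)) (b (a (a (l 16775416) (a (l 16776672) (l 273971940807))) (l 549386718423)) (a (l 16773728) (a (l 16778848) (l 422685179399))))) (l 3))) (l 3))))), by decide +kernel⟩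

def k25_pp_022_s : ∃ t, chk3 f_pp_022_s t 10 19 1 = true :=
  ⟨(b (a (b (a (l 16690896) (l 16724536)) (a (l 16674000) (l 16686888))) (b (a (a (l 16733984) (l 16729952)) (a (l 16746872) (l 16748096))) (a (l 16720576) (a (l 16709120) (l 16736424))))) (a (b (a (l 16657000) (l 16670128)) (a (l 16640056) (l 16653184))) (b (a (l 16683256) (l 16696144)) (a (l 16687496) (l 16700912))))), by decide +kernel⟩

def k26_pp_022_s : ∃ t, chk3 f_pp_022_s t 11 19 1 = true :=
  ⟨(b (a (b (a (b (a (l 16743168) (l 16760056)) (l 16748064)) (b (b (a (c (l 16768808) (l 16763432)) (l 16770176)) (a (l 16758776) (l 16766448))) (a (l 16757368) (c (l 16761120) (l 16762120))))) (a (a (l 16742528) (l 16748640)) (b (l 16754152) (l 16742896)))) (b (a (b (a (b (a (l 16775168) (l 16776528)) (l 16771776)) (b (b (a (a (c (l 16779632) (l 202031238727)) (l 527911880647)) (l 3)) (a (l 16779224) (a (c (l 309405421879) (l 313700389223)) (l 3)))) (b (a (l 16772752) (a (l 16775224) (l 182167013719))) (l 16775144))))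 (a (b (l 16766832) (l 16764768)) (b (l 16774672) (l 16773736)))) (a (b (b (l 3) (a (c (b (l 531133107047) (l 186461983607)) (b (l 545091750695) (a (l 16775936) (l 284709359767)))) (c (l 590188910151) (l 607905650119)))) (a (b (l 16778216) (l 16768024)) (b (b (a (l 150491630951) (l 475835401575)) (l 16774920)) (l 16776424)))) (b (l 3) (b (a (a (b (l 3) (l 243907169111)) (l 585893941287)) (l 3)) (b (a (l 16779000) (a (l 432885728151) (l 3))) (a (l 16773088) (a (l 16775424) (l 193441304391)))))))) (a (b (a (l 16757896) (b (l 16764800) (l 16763848))) (a (l 16741008) (l 16757056))) (b (b (a (l 16775064) (c (l 16776144) (l 16776056))) (a (l 16764552) (l 16776168))) (b (a (l 16759616) (l 16770880)) (a (l 16749824) (l 16760592))))))) (a (b (a (b (l 16712632) (l 16725792)) (a (l 16738776) (l 16744360))) (a (l 16713992) (b (l 16730392) (l 16701904)))) (b (a (a (l 16749936) (l 16745544)) (b (b (l 16760064) (l 16754712)) (l 16748984))) (a (b (l 16720952) (l 16735016)) (b (l 16731400)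 (l 16745856)))))), by decide +kernel⟩

def k27_pp_022_s : ∃ t, chk3 f_pp_022_s t 4 5 1 = true :=
  ⟨(b (b (b (b (a (a (l 16542600) (l 16549504)) (a (l 16597440) (l 16624088))) (a (a (l 16504960) (l 16532192)) (a (l 16558768) (l 16585464)))) (b (a (a (l 16530296) (l 16536088)) (a (l 16561280) (l 16587968))) (b (a (a (l 16496944) (l 16502336)) (a (l 16526328) (l 16551816))) (a (b (a (a (l 16483760) (l 16476600)) (l 16516912)) (b (b (b (a (l 16530376) (l 16493512)) (b (a (a (l 16460096) (l 16473832)) (l 16493088)) (a (l 16529704) (a (l 16486520) (l 16498888))))) (a (l 16466160) (l 16513096))) (a (l 16464656) (l 16511544)))) (b (a (l 16519696) (l 16542392)) (a (a (c (l 16510984) (l 16508624)) (l 16552672)) (a (l 16573576) (l 16583776)))))))) (a (a (b (a (l 16461776) (l 16517216)) (a (l 16409400) (l 16422320))) (b (a (l 16508888) (l 16478864)) (l 16439808))) (a (a (l 16504456) (l 16525160)) (b (l 16537016) (l 16480872))))) (a (a (b (a (l 16446504) (l 16416200)) (l 16304088))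 (b (b (l 16406312) (l 16372152)) (l 16319248))) (a (b (l 16469048) (l 16363864)) (b (l 16496744) (l 16398408))))), by decide +kernel⟩

def k28_pp_022_s : ∃ t, chk3 f_pp_022_s t 5 5 1 = true :=
  ⟨(b (b (b (a (a (b (l 16642736) (l 16617640)) (b (a (l 16670496) (l 16683968)) (b (l 16685368) (l 16676872)))) (a (b (a (l 16697536) (l 16710840)) (a (l 16701048) (l 16714520))) (b (a (b (l 16706712) (l 16698896)) (b (l 16739464) (l 16711352))) (a (l 16707248) (l 16720384))))) (b (b (a (a (l 16599096) (l 16668168)) (a (a (l 16645944) (l 16658920)) (a (l 16672336) (l 16686008)))) (a (a (l 16589632) (l 16659000)) (a (l 16706400) (a (l 16662528) (l 16675520))))) (b (a (a (l 16579248) (a (l 16600024) (l 16613696))) (a (b (l 16678400) (l 16673088)) (b (l 16703376) (l 16645760)))) (a (b (a (l 16580152) (a (l 16590456) (l 16604216))) (a (a (l 16585656) (c (l 16586664) (l 16574664))) (b (b (b (l 16592488) (a (l 16582584) (l 16596264))) (l 16588272)) (l 16586792)))) (b (a (c (l 16665184)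 (l 16677448)) (b (l 16693864) (l 16669112))) (b (b (b (a (l 16619608) (l 16645104)) (b (a (l 16618016) (l 16643528)) (a (l 16616120) (a (l 16635488) (l 16647648))))) (a (l 16615336) (l 16640856))) (a (l 16613952) (l 16639568)))))))) (a (a (a (l 16539560) (l 16575080)) (a (l 16589856) (l 16625600))) (a (a (b (l 16591640) (l 16563744)) (b (l 16605472) (l 16578576))) (b (a (l 16618816) (l 16631568)) (a (l 16592920) (l 16606672)))))) (a (a (b (a (l 16458144) (l 16474824)) (b (l 16427008) (l 16403400))) (b (a (l 16491728) (l 16571632)) (b (l 16464328) (l 16443040)))) (b (a (b (l 16608600) (l 16522312)) (a (l 16599712) (l 16636104))) (a (b (l 16501120) (l 16482264)) (b (l 16536992) (l 16522064)))))), by decide +kernel⟩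

def k29_pp_022_s : ∃ t, chk3 f_pp_022_s t 2 3 1 = true :=
  ⟨(b (a (a (b (a (b (l 16236088) (l 16164704)) (a (l 16301104) (l 16339912))) (l 6)) (b (a (b (l 16289056) (l 16242792)) (b (b (l 16340592) (l 16318592)) (l 16289344))) (b (a (l 16206736) (l 16260360)) (l 6)))) (b (a (a (b (l 16455680) (l 16338416)) (b (l 16499344) (l 16388664))) (b (a (l 16522824) (l 16504280)) (a (l 16439312) (l 16486248)))) (b (a (a (l 16316408) (l 16372544)) (a (l 16425592) (l 2))) (l 6)))) (l 6)), by decide +kernel⟩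

def k30_pp_022_s : ∃ t, chk3 f_pp_022_s t 3 8 1 = true :=
  ⟨(l 3), by decide +kernel⟩

def k31_pp_022_s : ∃ t, chk3 f_pp_022_s t 6 18 1 = true :=
  ⟨(l 3), by decide +kernel⟩

def k32_pp_022_s : ∃ t, chk3 f_pp_022_s t 12 38 1 = true :=
  ⟨(a (b (a (b (l 3) (a (a (b (l 3) (b (l 3) (l 535964945287))) (l 3)) (l 3))) (l 3)) (a (b (a (a (b (a (l 16777352) (b (l 276656296263) (l 16775024))) (l 16770384)) (b (b (l 600926326455) (a (l 16779160) (l 452213081239))) (l 16778736))) (b (l 3) (b (a (a (l 206863077271) (l 537575557047)) (l 3)) (a (l 16775280) (a (l 277730038295) (l 599852583559)))))) (a (c (l 16774600) (l 16774504)) (b (c (l 16780144) (a (l 16771368) (l 16779032))) (l 16778160)))) (b (l 3) (a (a (b (b (l 485499078807) (l 124184956103)) (l 16772304)) (b (c (l 564419105383) (l 582135845383)) (c (l 91972703719) (b (l 167671501495) (l 16774040))))) (a (b (l 3) (b (l 589115166071) (a (l 16776320) (l 306721067895)))) (l 3)))))) (l 3)), by decide +kernel⟩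

def k33_pp_022_s : ∃ t, chk3 f_pp_022_s t 12 39 1 = true :=
  ⟨(a (b (a (a (b (c (l 16764016) (l 16764504)) (l 16745896)) (b (c (l 16770240) (l 16770656)) (l 16758576))) (a (a (b (l 16774816) (l 16759544)) (b (l 16772640) (l 16764800))) (b (b (a (l 16773120) (a (l 16779304) (b (l 358797546695) (l 16775560)))) (l 16774544)) (c (l 16771824) (l 16771768))))) (a (b (l 16756856) (l 16734640)) (b (a (l 16747832) (l 16762088)) (l 16754000)))) (b (a (b (a (a (b (b (l 3) (l 278266911383)) (l 16773816)) (b (l 3) (b (l 311016037159) (l 16775456)))) (b (l 3) (a (c (l 505363303719) (l 491941530855)) (l 3)))) (b (a (l 16775208) (a (l 16779640) (b (l 454360565575) (l 16775976)))) (a (l 16764624) (l 16775752)))) (b (l 3) (a (a (b (l 540259913623) (l 16780088)) (b (l 3) (a (l 190220082055) (l 305110459111)))) (b (l 3) (a (l 559587266887) (l 3)))))) (a (b (a (c (l 16767608) (l 16767480)) (c (l 16773040) (l 16772952))) (a (l 16749544) (b (l 16755216) (l 16751728)))) (b (b (a (l 16776160)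 (a (l 72645351655) (a (l 204178726711) (l 356650066999)))) (a (l 16765576) (l 16771192))) (a (c (l 16768760) (l 16768448)) (l 16773720)))))), by decide +kernel⟩

def k34_pp_022_s : ∃ t, chk3 f_pp_022_s t 13 19 1 = true :=
  ⟨(b (l 3) (a (b (l 3) (a (b (b (a (l 575693396279) (l 3)) (a (a (l 16780576) (c (l 255181464647) (l 257865819159))) (l 575156525335))) (a (c (l 16779232) (l 16779128)) (b (a (l 16775360) (l 244444047063)) (l 16771368)))) (b (l 3) (a (b (l 565492848695) (a (l 16775256) (l 244980917783))) (a (l 557439786327) (l 3)))))) (l 3))), by decide +kernel⟩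

def k35_pp_022_s : ∃ t, chk3 f_pp_022_s t 7 9 1 = true :=
  ⟨(l 3), by decide +kernel⟩

def k36_pp_022_s : ∃ t, chk3 f_pp_022_s t 3 40 1 = true :=
  ⟨(a (a (a (b (a (b (l 16749544) (l 16743624)) (b (l 16737576) (l 16753000))) (a (b (l 16715800) (l 16707968)) (b (l 16747720) (l 16719856)))) (b (b (a (l 16756120) (b (a (l 16752360) (l 16756104)) (l 16761776))) (a (l 16740320) (l 16752864))) (a (b (l 16735744) (l 16751472)) (b (l 16764576) (l 16739256))))) (b (a (b (a (a (b (l 16760888) (l 16756432)) (l 16774072)) (b (a (l 16771272) (c (l 16781512) (l 153175992439))) (l 16779040))) (a (b (l 16764320) (l 16752792)) (b (l 16773936) (l 16769848)))) (b (a (b (a (l 527911883047) (l 3)) (a (l 131701156279) (l 497310239991))) (l 3)) (a (b (a (l 16770680) (l 16780520)) (l 16778544)) (b (a (l 375440555719) (l 3)) (a (l 16774640) (l 326585302759)))))) (a (a (b (l 16750520) (l 16746792)) (b (a (l 16755032) (l 16757760)) (l 16753376))) (b (a (b (l 16769392) (l 16771872)) (b (l 9764353271)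 (l 16768416))) (a (a (l 16757680) (l 16760104)) (a (l 16762784) (l 2))))))) (b (b (l 3) (l 2)) (l 2))), by decide +kernel⟩

def k37_pp_022_s : ∃ t, chk3 f_pp_022_s t 3 41 1 = true :=
  ⟨(a (b (a (a (b (a (l 16699104) (l 16711576)) (a (l 16688888) (l 16701800))) (b (a (l 16723200) (l 16754672)) (a (l 16714064) (l 16725640)))) (a (b (a (l 16742352) (l 16749848)) (a (l 16736104) (l 16766048))) (b (a (l 16756208) (l 16761512)) (a (l 16752688) (l 2))))) (a (b (a (b (a (l 16679920) (l 16693016)) (a (l 16673680) (l 16685720))) (a (l 16722784) (l 16734928))) (b (b (a (l 16716616) (l 16692336)) (a (a (l 16665544) (l 16676120)) (a (l 16686496) (l 16697608)))) (b (b (b (a (l 16667968) (l 16687968)) (b (a (l 16666448) (l 16686232)) (a (a (l 16659104) (l 16669784)) (a (l 16679656) (l 16688680))))) (a (l 16663800) (l 16683592))) (a (l 16662608) (l 16682504))))) (a (b (b (a (l 16728864) (l 16739248)) (l 16717296)) (b (a (l 16696432) (l 16707744)) (b (b (b (l 16709640) (b (l 16711672) (a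 (l 16692392) (l 16708376)))) (l 16722744)) (l 16721936)))) (a (a (b (l 16764280) (b (l 16710456) (b (b (b (l 16723544) (l 16707240)) (l 16715304)) (l 16714624)))) (b (l 16768576) (l 2))) (l 2))))) (l 2)), by decide +kernel⟩

def k38_pp_022_s : ∃ t, chk3 f_pp_022_s t 3 21 1 = true :=
  ⟨(a (a (a (b (a (l 16643624) (l 16654936)) (a (l 16619744) (l 16632072))) (b (a (l 16665448) (l 16675512)) (a (l 16644224) (l 16657168)))) (a (b (a (l 16686400) (l 16698136)) (l 16671600)) (b (a (l 16709304) (l 2)) (l 2)))) (l 2)), by decide +kernel⟩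

def k39_pp_022_s : ∃ t, chk3 f_pp_022_s t 3 11 1 = true :=
  ⟨(a (a (b (a (b (l 16647096) (l 16587928)) (b (l 16676496) (l 16620552))) (a (l 16609032) (l 16663680))) (a (b (b (l 16683632) (l 2)) (l 2)) (l 2))) (l 2)), by decide +kernel⟩

def k40_pp_022_s : ∃ t, chk3 f_pp_022_s t 3 3 1 = true :=
  ⟨(a (b (b (a (b (a (l 16544720) (l 2)) (l 2)) (l 2)) (l 2)) (l 2)) (l 2)), by decide +kernel⟩

theorem s41_pp_022_s : ∃ t, chk3 f_pp_022_s t 3 20 1 = true := ex3_b k36_pp_022_s k37_pp_022_s

theorem s42_pp_022_s : ∃ t, chk3 f_pp_022_s t 3 10 1 = true := ex3_b s41_pp_022_s k38_pp_022_s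

theorem s43_pp_022_s : ∃ t, chk3 f_pp_022_s t 3 5 1 = true := ex3_b s42_pp_022_s k39_pp_022_s

theorem s44_pp_022_s : ∃ t, chk3 f_pp_022_s t 12 19 1 = true := ex3_b k32_pp_022_s k33_pp_022_s

theorem s45_pp_022_s : ∃ t, chk3 f_pp_022_s t 6 19 1 = true := ex3_a s44_pp_022_s k34_pp_022_s

theorem s46_pp_022_s : ∃ t, chk3 f_pp_022_s t 6 9 1 = true := ex3_b k31_pp_022_s s45_pp_022_s

theorem s47_pp_022_s : ∃ t, chk3 f_pp_022_s t 3 9 1 = true := ex3_a s46_pp_022_s k35_pp_022_s

theorem s48_pp_022_s : ∃ t, chk3 f_pp_022_s t 3 4 1 = true := ex3_b k30_pp_022_s s47_pp_022_s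

theorem s49_pp_022_s : ∃ t, chk3 f_pp_022_s t 3 2 1 = true := ex3_b s48_pp_022_s s43_pp_022_s

theorem s50_pp_022_s : ∃ t, chk3 f_pp_022_s t 3 1 1 = true := ex3_b s49_pp_022_s k40_pp_022_s

theorem s51_pp_022_s : ∃ t, chk3 f_pp_022_s t 2 5 1 = true := ex3_a k27_pp_022_s k28_pp_022_s

theorem s52_pp_022_s : ∃ t, chk3 f_pp_022_s t 5 19 1 = true := ex3_a k25_pp_022_s k26_pp_022_s

theorem s53_pp_022_s : ∃ t, chk3 f_pp_022_s t 10 36 1 = true := ex3_a k21_pp_022_s k22_pp_022_s

theorem s54_pp_022_s : ∃ t, chk3 f_pp_022_s t 10 18 1 = true := ex3_b s53_pp_022_s k23_pp_022_s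

theorem s55_pp_022_s : ∃ t, chk3 f_pp_022_s t 5 18 1 = true := ex3_a s54_pp_022_s k24_pp_022_s

theorem s56_pp_022_s : ∃ t, chk3 f_pp_022_s t 5 9 1 = true := ex3_b s55_pp_022_s s52_pp_022_s

theorem s57_pp_022_s : ∃ t, chk3 f_pp_022_s t 2 9 1 = true := ex3_a k20_pp_022_s s56_pp_022_s

theorem s58_pp_022_s : ∃ t, chk3 f_pp_022_s t 19 35 1 = true := ex3_b k17_pp_022_s k18_pp_022_s

theorem s59_pp_022_s : ∃ t, chk3 f_pp_022_s t 19 17 1 = true := ex3_b k16_pp_022_s s58_pp_022_s

theorem s60_pp_022_s : ∃ t, chk3 f_pp_022_s t 36 68 1 = true := ex3_b k11_pp_022_s k12_pp_022_s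

theorem s61_pp_022_s : ∃ t, chk3 f_pp_022_s t 36 34 1 = true := ex3_b s60_pp_022_s k13_pp_022_s

theorem s62_pp_022_s : ∃ t, chk3 f_pp_022_s t 18 34 1 = true := ex3_a s61_pp_022_s k14_pp_022_s

theorem s63_pp_022_s : ∃ t, chk3 f_pp_022_s t 18 17 1 = true := ex3_b s62_pp_022_s k15_pp_022_s

theorem s64_pp_022_s : ∃ t, chk3 f_pp_022_s t 9 17 1 = true := ex3_a s63_pp_022_s s59_pp_022_s

theorem s65_pp_022_s : ∃ t, chk3 f_pp_022_s t 9 8 1 = true := ex3_b k10_pp_022_s s64_pp_022_s

theorem s66_pp_022_s : ∃ t, chk3 f_pp_022_s t 35 134 1 = true := ex3_a k6_pp_022_s k7_pp_022_s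

theorem s67_pp_022_s : ∃ t, chk3 f_pp_022_s t 35 67 1 = true := ex3_b s66_pp_022_s k8_pp_022_s

theorem s68_pp_022_s : ∃ t, chk3 f_pp_022_s t 35 33 1 = true := ex3_b k5_pp_022_s s67_pp_022_s

theorem s69_pp_022_s : ∃ t, chk3 f_pp_022_s t 34 66 1 = true := ex3_a k2_pp_022_s k3_pp_022_s

theorem s70_pp_022_s : ∃ t, chk3 f_pp_022_s t 34 33 1 = true := ex3_b s69_pp_022_s k4_pp_022_s

theorem s71_pp_022_s : ∃ t, chk3 f_pp_022_s t 17 33 1 = true := ex3_a s70_pp_022_s s68_pp_022_s

theorem s72_pp_022_s : ∃ t, chk3 f_pp_022_s t 17 16 1 = true := ex3_b k1_pp_022_s s71_pp_022_s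

theorem s73_pp_022_s : ∃ t, chk3 f_pp_022_s t 8 16 1 = true := ex3_a k0_pp_022_s s72_pp_022_s

theorem s74_pp_022_s : ∃ t, chk3 f_pp_022_s t 8 8 1 = true := ex3_b s73_pp_022_s k9_pp_022_s

theorem s75_pp_022_s : ∃ t, chk3 f_pp_022_s t 4 8 1 = true := ex3_a s74_pp_022_s s65_pp_022_s

theorem s76_pp_022_s : ∃ t, chk3 f_pp_022_s t 2 8 1 = true := ex3_a s75_pp_022_s k19_pp_022_s

theorem s77_pp_022_s : ∃ t, chk3 f_pp_022_s t 2 4 1 = true := ex3_b s76_pp_022_s s57_pp_022_s

theorem s78_pp_022_s : ∃ t, chk3 f_pp_022_s t 2 2 1 = true := ex3_b s77_pp_022_s s51_pp_022_s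

theorem s79_pp_022_s : ∃ t, chk3 f_pp_022_s t 2 1 1 = true := ex3_b s78_pp_022_s k29_pp_022_s

theorem s80_pp_022_s : ∃ t, chk3 f_pp_022_s t 1 1 1 = true := ex3_a s79_pp_022_s s50_pp_022_s

theorem c_pp_022_s : CertNE 0 536870912 1073741824 536870912 587336777 62277027 3 eng mog cd0q0 cd7q2 pd2 false true true .pp 0 2 2
    ndB0q0 ndB7q2 pcB2 cut_pp_022_s Ext.none :=
  certNE1 (fam := false) (s1 := true) (s2 := true) (a := 0) (b := 2) (c := 2) (cn := .pp) (n1 := ndB0q0) (n2 := ndB7q2) (pc := pcB2) (cut := cut_pp_022_s) (xt := Ext.none) (P1 := 0) (W1 := 536870912) (P2 := 1073741824) (W2 := 536870912) (P3 := 587336777) (W3 := 62277027) (N0 := 3) (En := eng) (mo := mog) (C1 := cd0q0) (C2 := cd7q2) (C3 := pd2)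
    rfl (fun _ => rfl) s80_pp_022_s

noncomputable def cut_pp_023_s : Cut := Cut.of [[⟨4, 0, 0, 1449551462⟩]]

noncomputable def f_pp_023_s : ℕ → ℕ → ℕ → ℕ → Bool := onCell 1073741824 536870912 0 1230186008 587336777 62277027
    (rowNE 3 eng mog cd0q0 cd7q3 pd2 2 false true true .up 0 2 3 (qsf 0 536870912 0 1230186008 2) ndB0q0 ndB7q3 pcB2 cut_pp_023_s Ext.none)

def k0_pp_023_s : ∃ t, chk3 f_pp_023_s t 1 2 1 = true :=
  ⟨(a (l 2) (a (l 2) (l 6))), by decide +kernel⟩

def k1_pp_023_s : ∃ t, chk3 f_pp_023_s t 4 3 1 = true :=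
  ⟨(b (l 2) (b (l 2) (l 3))), by decide +kernel⟩

def k2_pp_023_s : ∃ t, chk3 f_pp_023_s t 5 6 1 = true :=
  ⟨(a (l 2) (b (l 2) (a (l 2) (b (l 2) (l 16772448))))), by decide +kernel⟩

def k3_pp_023_s : ∃ t, chk3 f_pp_023_s t 5 14 1 = true :=
  ⟨(a (a (a (l 3) (a (l 3) (b (l 2) (b (l 2) (a (a (b (l 3) (l 276119441591)) (c (b (l 16787776) (l 16776120)) (b (l 16785048) (l 16786408)))) (a (a (b (l 16775968) (l 16774976)) (a (l 16785184) (l 16786920))) (b (c (l 16771816) (l 16771528)) (c (l 16779968) (l 16779840))))))))) (b (a (l 2) (l 241155712503)) (b (b (l 222902108407) (l 199816654759)) (b (l 16781368) (l 16782816))))) (b (b (l 216996471751) (a (l 16744736) (l 16726248))) (b (a (l 16735464) (l 16711736)) (a (l 16728520) (l 16693728))))), by decide +kernel⟩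

def k4_pp_023_s : ∃ t, chk3 f_pp_023_s t 40 15 1 = true :=
  ⟨(b (l 3) (b (a (l 3) (a (l 3) (b (a (l 3) (l 375440559111)) (a (l 356650080135) (c (l 16786400) (l 159618449383)))))) (a (a (l 3) (b (l 3) (a (l 3) (b (l 3) (l 339470207543))))) (a (b (a (l 3) (b (l 385104231415) (l 16782048))) (a (b (l 239612214103) (l 16773992)) (b (l 16773232) (l 16769192)))) (b (a (b (l 16775656) (l 16772496)) (l 16770136)) (b (l 16777680) (a (l 16765112) (l 16762248)))))))), by decide +kernel⟩

def k5_pp_023_s : ∃ t, chk3 f_pp_023_s t 41 15 1 = true :=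
  ⟨(a (b (b (a (l 3) (b (a (l 3) (l 336248976919)) (a (l 3) (l 16787448)))) (b (a (l 3) (a (l 16787680) (l 16775000))) (a (a (l 384030490775) (l 217063636695)) (a (l 16774672) (l 16772480))))) (b (a (a (b (c (l 200957509623) (l 195588801399)) (l 16772360)) (b (l 16773968) (l 16769848))) (b (a (l 16771608) (l 16769840)) (a (l 16768264) (l 16766760)))) (a (b (a (l 16787912) (l 16765456)) (a (l 16761824) (l 16760472))) (b (l 16763224) (l 16757168))))) (b (a (b (a (b (l 16785816) (l 16775080)) (b (c (l 16775072) (l 16774880)) (c (l 16773616) (l 16773520)))) (a (b (l 16773064) (l 16770736)) (b (l 16781968) (l 16768880)))) (a (b (b (a (l 16773584) (l 16771584)) (l 16770456)) (a (l 16788768) (l 16785912))) (a (a (a (b (l 16789128) (b (l 16764048) (l 16760320))) (a (b (l 16787776) (b (l 16762632) (l 16758392))) (b (l 16786368) (b (l 16750408) (l 16745248))))) (b (b (l 16765864) (l 16763408)) (b (l 16760120) (l 16754080)))) (b (l 16784832) (b (l 16759192) (l 16753144)))))) (a (b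 (b (a (l 16768272) (l 16765680)) (l 16783960)) (b (a (l 16759136) (l 16754936)) (a (l 16752000) (l 16767496)))) (b (a (a (b (l 16762584) (l 16757504)) (b (l 16758936) (l 16752936))) (a (a (a (b (l 16755168) (l 16747768)) (b (c (l 16748640) (l 16748696)) (c (l 16740560) (l 16733600)))) (b (l 16747328) (l 16739744))) (b (l 16746360) (l 16738720)))) (a (b (a (l 16750232) (l 16744248)) (l 16723408)) (a (a (a (b (l 16738768) (l 16728072)) (b (c (l 16730856) (l 16729920)) (c (l 16720792) (l 16719272)))) (l 16746032)) (l 16744912))))))), by decide +kernel⟩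

def k6_pp_023_s : ∃ t, chk3 f_pp_023_s t 21 15 1 = true :=
  ⟨(a (b (b (b (l 16777048) (l 16752592)) (b (l 16748352) (l 16742336))) (b (b (l 16735024) (l 16726736)) (b (l 16716656) (l 16704816)))) (b (b (l 16757080) (l 16735160)) (b (l 16723752) (b (l 16691536) (l 16678064))))), by decide +kernel⟩

def k7_pp_023_s : ∃ t, chk3 f_pp_023_s t 11 15 1 = true :=
  ⟨(b (b (a (l 16719688) (l 16673192)) (a (l 16708952) (l 16650416))) (b (a (b (l 16678688) (l 16666488)) (l 16623328)) (a (a (l 16700016) (l 16630536)) (l 16629904)))), by decide +kernel⟩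

def k8_pp_023_s : ∃ t, chk3 f_pp_023_s t 3 3 1 = true :=
  ⟨(a (b (b (a (l 2) (b (l 16761120) (l 16769400))) (a (b (l 16737472) (a (l 16745240) (l 16740800))) (b (l 16763888) (l 16737416)))) (b (a (b (a (l 16718496) (l 16704888)) (b (l 16676136) (l 16648128))) (b (l 16703688) (b (l 16626456) (l 16582224)))) (b (a (b (l 16637984) (l 16624848)) (b (l 16535552) (l 16486040))) (a (b (a (l 16571512) (l 16517512)) (a (l 16528904) (l 16467480))) (b (l 16432512) (l 16476896)))))) (l 6)), by decide +kernel⟩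

theorem s9_pp_023_s : ∃ t, chk3 f_pp_023_s t 20 15 1 = true := ex3_a k4_pp_023_s k5_pp_023_s

theorem s10_pp_023_s : ∃ t, chk3 f_pp_023_s t 10 15 1 = true := ex3_a s9_pp_023_s k6_pp_023_s

theorem s11_pp_023_s : ∃ t, chk3 f_pp_023_s t 5 15 1 = true := ex3_a s10_pp_023_s k7_pp_023_s

theorem s12_pp_023_s : ∃ t, chk3 f_pp_023_s t 5 7 1 = true := ex3_b k3_pp_023_s s11_pp_023_s

theorem s13_pp_023_s : ∃ t, chk3 f_pp_023_s t 5 3 1 = true := ex3_b k2_pp_023_s s12_pp_023_s

theorem s14_pp_023_s : ∃ t, chk3 f_pp_023_s t 2 3 1 = true := ex3_a k1_pp_023_s s13_pp_023_s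

theorem s15_pp_023_s : ∃ t, chk3 f_pp_023_s t 1 3 1 = true := ex3_a s14_pp_023_s k8_pp_023_s

theorem s16_pp_023_s : ∃ t, chk3 f_pp_023_s t 1 1 1 = true := ex3_b k0_pp_023_s s15_pp_023_s

theorem c_pp_023_s : CertNE 0 536870912 0 1230186008 587336777 62277027 3 eng mog cd0q0 cd7q3 pd2 false true true .up 0 2 3
    ndB0q0 ndB7q3 pcB2 cut_pp_023_s Ext.none :=
  certNE2 (fam := false) (s1 := true) (s2 := true) (a := 0) (b := 2) (c := 3) (cn := .up) (n1 := ndB0q0) (n2 := ndB7q3) (pc := pcB2) (cut := cut_pp_023_s) (xt := Ext.none) (P1 := 0) (W1 := 536870912) (P2 := 0) (W2 := 1230186008) (P3 := 587336777) (W3 := 62277027) (N0 := 3) (En := eng) (mo := mog) (C1 := cd0q0) (C2 := cd7q3) (C3 := pd2)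
    rfl (fun _ => rfl) s16_pp_023_s

noncomputable def cut_pp_033_s : Cut := Cut.of [[⟨4, 0, 0, 1449551462⟩]]

noncomputable def f_pp_033_s : ℕ → ℕ → ℕ → ℕ → Bool := onCell 1610612736 536870912 0 1230186008 587336777 62277027
    (rowNE 3 eng mog cd0q0 cd7q3 pd3 2 false true true .pnn 0 3 3 (qsf 0 536870912 0 1230186008 3) ndB0q0 ndB7q3 pcB3 cut_pp_033_s Ext.none)

def k0_pp_033_s : ∃ t, chk3 f_pp_033_s t 1 1 1 = true :=
  ⟨(b (l 6) (l 6)), by decide +kernel⟩

theorem c_pp_033_s : CertNE 0 536870912 0 1230186008 587336777 62277027 3 eng mog cd0q0 cd7q3 pd3 false true true .pnn 0 3 3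
    ndB0q0 ndB7q3 pcB3 cut_pp_033_s Ext.none :=
  certNE2 (fam := false) (s1 := true) (s2 := true) (a := 0) (b := 3) (c := 3) (cn := .pnn) (n1 := ndB0q0) (n2 := ndB7q3) (pc := pcB3) (cut := cut_pp_033_s) (xt := Ext.none) (P1 := 0) (W1 := 536870912) (P2 := 0) (W2 := 1230186008) (P3 := 587336777) (W3 := 62277027) (N0 := 3) (En := eng) (mo := mog) (C1 := cd0q0) (C2 := cd7q3) (C3 := pd3)
    rfl (fun _ => rfl) k0_pp_033_s

noncomputable def cut_pp_101_s : Cut := Cut.of [[⟨4, 0, 0, 1449551462⟩]]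

noncomputable def f_pp_101_s : ℕ → ℕ → ℕ → ℕ → Bool := onCell 536870912 536870912 536870912 536870912 587336777 62277027
    (rowNE 3 eng mog cd0q1 cd7q1 pd0 0 false true true .npn 1 0 1 (qsf 536870912 536870912 536870912 536870912 0) ndB0q1 ndB7q1 pcB0 cut_pp_101_s Ext.none)

def k0_pp_101_s : ∃ t, chk3 f_pp_101_s t 1 1 1 = true :=
  ⟨(a (l 3) (l 5)), by decide +kernel⟩

theorem c_pp_101_s : CertNE 536870912 536870912 536870912 536870912 587336777 62277027 3 eng mog cd0q1 cd7q1 pd0 false true true .npn 1 0 1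
    ndB0q1 ndB7q1 pcB0 cut_pp_101_s Ext.none :=
  certNE0 (fam := false) (s1 := true) (s2 := true) (a := 1) (b := 0) (c := 1) (cn := .npn) (n1 := ndB0q1) (n2 := ndB7q1) (pc := pcB0) (cut := cut_pp_101_s) (xt := Ext.none) (P1 := 536870912) (W1 := 536870912) (P2 := 536870912) (W2 := 536870912) (P3 := 587336777) (W3 := 62277027) (N0 := 3) (En := eng) (mo := mog) (C1 := cd0q1) (C2 := cd7q1) (C3 := pd0)
    rfl k0_pp_101_s

noncomputable def cut_pp_102_s : Cut := Cut.of [[⟨4, 0, 0, 1449551462⟩]]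

noncomputable def f_pp_102_s : ℕ → ℕ → ℕ → ℕ → Bool := onCell 536870912 536870912 1073741824 536870912 587336777 62277027
    (rowNE 3 eng mog cd0q1 cd7q2 pd0 0 false true true .npp 1 0 2 (qsf 536870912 536870912 1073741824 536870912 0) ndB0q1 ndB7q2 pcB0 cut_pp_102_s Ext.none)

def k0_pp_102_s : ∃ t, chk3 f_pp_102_s t 1 1 1 = true :=
  ⟨(a (l 3) (b (l 5) (l 3))), by decide +kernel⟩

theorem c_pp_102_s : CertNE 536870912 536870912 1073741824 536870912 587336777 62277027 3 eng mog cd0q1 cd7q2 pd0 false true true .npp 1 0 2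
    ndB0q1 ndB7q2 pcB0 cut_pp_102_s Ext.none :=
  certNE0 (fam := false) (s1 := true) (s2 := true) (a := 1) (b := 0) (c := 2) (cn := .npp) (n1 := ndB0q1) (n2 := ndB7q2) (pc := pcB0) (cut := cut_pp_102_s) (xt := Ext.none) (P1 := 536870912) (W1 := 536870912) (P2 := 1073741824) (W2 := 536870912) (P3 := 587336777) (W3 := 62277027) (N0 := 3) (En := eng) (mo := mog) (C1 := cd0q1) (C2 := cd7q2) (C3 := pd0)
    rfl k0_pp_102_s

noncomputable def cut_pp_112_s : Cut := Cut.of [[⟨4, 0, 0, 1449551462⟩]]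

noncomputable def f_pp_112_s : ℕ → ℕ → ℕ → ℕ → Bool := onCell 536870912 536870912 1073741824 536870912 587336777 62277027
    (rowNE 3 eng mog cd0q1 cd7q2 pd1 0 false true true .dn 1 1 2 (qsf 536870912 536870912 1073741824 536870912 1) ndB0q1 ndB7q2 pcB1 cut_pp_112_s Ext.none)

def k0_pp_112_s : ∃ t, chk3 f_pp_112_s t 1 1 1 = true :=
  ⟨(a (l 3) (b (l 5) (l 3))), by decide +kernel⟩

theorem c_pp_112_s : CertNE 536870912 536870912 1073741824 536870912 587336777 62277027 3 eng mog cd0q1 cd7q2 pd1 false true true .dn 1 1 2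
    ndB0q1 ndB7q2 pcB1 cut_pp_112_s Ext.none :=
  certNE0 (fam := false) (s1 := true) (s2 := true) (a := 1) (b := 1) (c := 2) (cn := .dn) (n1 := ndB0q1) (n2 := ndB7q2) (pc := pcB1) (cut := cut_pp_112_s) (xt := Ext.none) (P1 := 536870912) (W1 := 536870912) (P2 := 1073741824) (W2 := 536870912) (P3 := 587336777) (W3 := 62277027) (N0 := 3) (En := eng) (mo := mog) (C1 := cd0q1) (C2 := cd7q2) (C3 := pd1)
    rfl k0_pp_112_s

noncomputable def cut_pp_113_s : Cut := Cut.of [[⟨4, 0, 0, 1449551462⟩], [⟨0, 1, 0, 67108864⟩, ⟨1, 1, 0, 67108864⟩, ⟨2, 2, 0, 16777216⟩]]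

noncomputable def f_pp_113_s : ℕ → ℕ → ℕ → ℕ → Bool := onCell 536870912 536870912 0 1230186008 587336777 62277027
    (rowNE 3 eng mog cd0q1 cd7q3 pd1 2 false true true .nn 1 1 3 (qsf 536870912 536870912 0 1230186008 1) ndB0q1 ndB7q3 pcB1 cut_pp_113_s Ext.none)

def k0_pp_113_s : ∃ t, chk3 f_pp_113_s t 1 1 1 = true :=
  ⟨(b (a (l 2) (a (l 2) (b (a (l 2) (b (a (l 2) (l 14)) (l 3))) (l 3)))) (b (a (a (l 2) (b (l 2) (a (l 2) (l 3)))) (a (l 3) (l 3))) (a (a (b (l 2) (l 3)) (l 3)) (l 3)))), by decide +kernel⟩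

theorem c_pp_113_s : CertNE 536870912 536870912 0 1230186008 587336777 62277027 3 eng mog cd0q1 cd7q3 pd1 false true true .nn 1 1 3
    ndB0q1 ndB7q3 pcB1 cut_pp_113_s Ext.none :=
  certNE2 (fam := false) (s1 := true) (s2 := true) (a := 1) (b := 1) (c := 3) (cn := .nn) (n1 := ndB0q1) (n2 := ndB7q3) (pc := pcB1) (cut := cut_pp_113_s) (xt := Ext.none) (P1 := 536870912) (W1 := 536870912) (P2 := 0) (W2 := 1230186008) (P3 := 587336777) (W3 := 62277027) (N0 := 3) (En := eng) (mo := mog) (C1 := cd0q1) (C2 := cd7q3) (C3 := pd1)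
    rfl (fun _ => rfl) k0_pp_113_s

noncomputable def cut_pp_123_s : Cut := Cut.of [[⟨4, 0, 0, 1449551462⟩], [⟨0, 1, 0, 67108864⟩, ⟨1, 1, 0, 67108864⟩, ⟨2, 2, 0, 16777216⟩]]

noncomputable def f_pp_123_s : ℕ → ℕ → ℕ → ℕ → Bool := onCell 1073741824 536870912 0 1230186008 587336777 62277027
    (rowNE 3 eng mog cd0q1 cd7q3 pd2 2 false true true .npn 1 2 3 (qsf 536870912 536870912 0 1230186008 2) ndB0q1 ndB7q3 pcB2 cut_pp_123_s Ext.none)

def k0_pp_123_s : ∃ t, chk3 f_pp_123_s t 8 8 1 = true :=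
  ⟨(a (l 14) (a (l 14) (a (l 14) (b (l 16763928) (b (l 16769584) (l 16772360)))))), by decide +kernel⟩

def k1_pp_123_s : ∃ t, chk3 f_pp_123_s t 16 9 1 = true :=
  ⟨(l 3), by decide +kernel⟩

def k2_pp_123_s : ∃ t, chk3 f_pp_123_s t 34 18 1 = true :=
  ⟨(l 14), by decide +kernel⟩

def k3_pp_123_s : ∃ t, chk3 f_pp_123_s t 35 36 1 = true :=
  ⟨(a (a (l 14) (b (b (l 14) (a (l 14) (l 16776256))) (b (a (l 14) (b (l 16781600) (a (l 16776808) (l 16776560)))) (a (a (l 3) (b (a (l 14) (b (l 16778296) (l 344838897367))) (l 3))) (a (a (b (l 271824457047) (l 382419860823)) (b (l 16776992) (b (l 304036710823) (l 397452246535)))) (b (l 16779464) (b (l 16777024) (c (l 294373031863) (l 298668001751))))))))) (b (a (b (l 16775064) (a (l 16775800) (l 16775288))) (l 16774168)) (a (b (a (l 16776208) (l 16775840)) (a (a (b (l 16776576) (l 16779488)) (b (l 16776384) (l 16776600))) (b (l 16776096) (l 16781424)))) (b (l 16795800) (a (l 16775912) (l 16775528)))))), by decide +kernel⟩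

def k4_pp_123_s : ∃ t, chk3 f_pp_123_s t 35 37 1 = true :=
  ⟨(a (b (a (l 3) (b (a (l 3) (a (l 3) (a (l 3) (b (l 348596993559) (l 3))))) (l 3))) (l 3)) (b (a (b (a (a (b (a (b (l 268603230311) (l 346986381015)) (l 279877520679)) (l 387788569719)) (b (l 16776888) (b (c (l 283635617159) (l 288467455543)) (c (l 331953995511) (l 334638349943))))) (a (b (l 16776624) (b (l 16776848) (l 16778336))) (b (l 16776352) (l 16776664)))) (a (l 3) (a (b (b (a (l 326585286455) (l 273971939399)) (l 359334411783)) (l 3)) (a (b (b (l 16776976) (l 283635616375)) (l 382419860855)) (b (l 16776912) (b (l 294909906183) (l 389399182887))))))) (b (a (a (b (l 16776232) (l 16776424)) (l 16776200)) (l 16775984)) (a (a (b (l 16776744) (a (b (l 16777048) (l 306721062839)) (l 16777000))) (b (l 16776520) (l 16776816))) (a (b (l 16776368) (l 16776616)) (l 16786688))))) (a (l 3) (b (b (a (a (b (c (l 341080800967) (l 343765155383)) (l 3)) (a (b (l 16778104) (l 337859575559)) (l 268603230999))) (a (l 16776888)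 (l 16776696))) (a (a (l 3) (l 381346118855)) (a (a (b (l 295446776247) (l 383493602919)) (b (l 16777056) (l 304573579191))) (l 16776960)))) (b (a (l 3) (a (l 3) (a (b (l 315847868295) (l 3)) (b (l 16777112) (l 328195899175))))) (l 3)))))), by decide +kernel⟩

def k5_pp_123_s : ∃ t, chk3 f_pp_123_s t 17 19 1 = true :=
  ⟨(l 3), by decide +kernel⟩

def k6_pp_123_s : ∃ t, chk3 f_pp_123_s t 8 5 1 = true :=
  ⟨(l 3), by decide +kernel⟩

def k7_pp_123_s : ∃ t, chk3 f_pp_123_s t 18 8 1 = true :=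
  ⟨(b (l 16755920) (a (l 16767888) (l 16764168))), by decide +kernel⟩

def k8_pp_123_s : ∃ t, chk3 f_pp_123_s t 18 18 1 = true :=
  ⟨(a (b (a (b (l 16772248) (a (l 16774088) (l 16773240))) (l 16770680)) (a (b (a (b (l 16794936) (a (l 16776080) (l 16775736))) (l 16795376)) (a (b (a (a (b (l 16776488) (l 16776768)) (b (l 16776328) (l 16776552))) (l 16776168)) (a (b (a (b (l 16776944) (l 268603230615)) (l 16776816)) (a (b (a (l 343228284663) (l 265918875623)) (l 375977410007)) (b (l 16777000) (c (l 264845134199) (l 266992617367))))) (a (b (l 16776616) (l 16776856)) (b (l 16776416) (l 16776616))))) (b (l 16775568) (a (c (l 16786632) (l 16786568)) (l 16775768))))) (b (l 16772776) (a (b (l 16774464) (l 16775096)) (l 16773584))))) (b (l 16767168) (a (l 16770920) (l 16768384)))), by decide +kernel⟩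

def k9_pp_123_s : ∃ t, chk3 f_pp_123_s t 72 38 1 = true :=
  ⟨(b (a (b (b (a (a (l 3) (a (l 395304762711) (b (l 308868547783) (l 3)))) (a (a (b (l 16777104) (c (l 317995351959) (l 320679706455))) (l 16777712)) (l 16776880))) (a (l 3) (b (a (a (l 3) (l 328732771399)) (l 266455745879)) (a (l 3) (a (l 341617671927) (l 263771391287)))))) (a (l 3) (a (l 3) (a (l 3) (b (l 377051151815) (l 3)))))) (b (a (a (b (l 16776608) (l 16776904)) (b (l 16776424) (l 16776624))) (a (a (l 16776376) (l 16776264)) (l 16776072))) (b (a (a (a (b (l 262697649655) (l 381346119303)) (b (l 16777056) (c (l 307794806135) (l 310479159159)))) (l 16776936)) (a (l 16776656) (l 16776416))) (a (a (l 404431567975) (a (b (c (l 315310997415) (l 317995353223)) (l 3)) (b (l 16777096) (c (l 324437802871) (l 327122158679))))) (a (b (l 16776896) (l 263771391255)) (l 16776696)))))) (a (l 3) (b (a (l 3) (b (a (a (b (c (l 334638350151) (l 337322705927)) (l 3)) (b (l 263234519847) (c (l 346449510183) (l 349670735543))))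 (b (l 16776928) (c (l 264308261767) (l 262697648967)))) (a (l 3) (b (a (l 360945024711) (a (l 312089771943) (l 16777792))) (l 390472924599))))) (l 3)))), by decide +kernel⟩

def k10_pp_123_s : ∃ t, chk3 f_pp_123_s t 73 38 1 = true :=
  ⟨(b (a (b (l 16775552) (a (b (l 16776088) (l 16776336)) (l 16775776))) (b (l 16774544) (l 16775136))) (a (b (a (a (b (l 16776728) (a (a (b (l 16777072) (l 321753449655)) (l 263771390903)) (l 16776976))) (b (l 16776432) (l 16776760))) (b (l 16776144) (c (l 16776416) (l 16776264)))) (b (b (a (a (a (l 401210342999) (a (l 333027737431) (l 301352354679))) (l 16777824)) (l 16776552)) (a (a (l 3) (a (b (l 308331676871) (l 353965702951)) (l 264845132519))) (l 16776736))) (a (a (l 3) (a (l 3) (b (c (l 331417124695) (b (l 319069093783) (l 378124893911))) (l 3)))) (a (a (b (l 264845132471) (c (l 341080801079) (b (l 329806511959) (l 403894697623)))) (c (l 261623907895) (l 264308261639))) (l 16776840))))) (b (l 16775592) (a (a (a (l 16779064) (l 16776336))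 (l 16776200)) (b (l 16775728) (l 16775976)))))), by decide +kernel⟩

def k11_pp_123_s : ∃ t, chk3 f_pp_123_s t 36 39 1 = true :=
  ⟨(a (l 3) (b (a (b (a (l 3) (a (a (l 3) (a (l 3) (b (b (l 341080801095) (l 3)) (l 3)))) (a (b (b (c (l 255718328039) (b (l 16777104) (l 310479159191))) (l 365239992007)) (l 3)) (b (b (l 16777008) (c (l 304036708247) (b (l 16777120) (l 318532223527)))) (l 393694150071))))) (l 3)) (b (a (a (b (l 16778184) (a (b (c (l 309405417383) (b (l 265918873943) (l 328195899895))) (l 401210343015)) (b (l 16777048) (c (l 314774126503) (b (l 265918874055) (l 339470188343)))))) (b (l 16776592) (c (l 16776936) (l 16777544)))) (a (a (l 16776520) (l 16776392)) (l 16776248))) (a (b (a (l 3) (a (b (c (l 321216578743) (b (l 308331676199) (l 353428832023))) (l 3)) (b (l 270750712455) (a (l 358797541159) (b (l 268066357655) (l 351281348487)))))) (l 3)) (a (a (b (b (l 16776944) (l 270750712407)) (a (l 391546666535) (b (b (l 300815483399) (l 379198635879)) (l 3)))) (b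 (l 16776880) (a (b (l 292762419895) (l 399062859479)) (b (l 16777088) (b (l 311016030823) (l 405505310519)))))) (a (b (l 16776744) (b (l 16776976) (c (l 270213841655) (b (l 16777096) (l 303499837991))))) (l 16776760)))))) (a (l 3) (b (b (a (l 3) (a (l 3) (a (a (l 3) (b (b (l 322827190215) (l 3)) (l 3))) (a (b (b (l 16777152) (l 329269641127)) (l 3)) (b (l 16777432) (c (l 355039444839) (l 358260670231))))))) (l 3)) (l 3))))), by decide +kernel⟩

def k12_pp_123_s : ∃ t, chk3 f_pp_123_s t 37 19 1 = true :=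
  ⟨(b (a (a (b (l 16773424) (b (l 16774552) (l 16775088))) (b (l 16772280) (l 16773480))) (l 16770968)) (a (b (a (b (a (b (l 16775760) (l 16776024)) (l 16775336)) (b (a (l 16776288) (l 16775752)) (a (c (l 16776592) (l 16779144)) (l 16776024)))) (b (l 16774504) (l 16775048))) (a (a (b (b (a (b (l 16776944) (a (a (b (l 287393710487) (l 344302026647)) (l 284709355943)) (l 16777032))) (l 16776752)) (a (b (a (c (l 375977410295) (l 380272377479)) (a (b (l 295983645175) (l 362555637623)) (l 289004323511))) (c (l 397452246599) (l 400673471863))) (b (l 16776976) (a (a (b (l 304573579879) (l 389399183191)) (c (l 294373032663) (l 298131128855))) (l 16777064))))) (b (b (a (l 3) (a (l 403894697591) (a (b (l 314237256295) (l 3)) (c (l 298668000135) (b (l 16777144) (l 321753448391)))))) (l 3)) (l 3))) (b (b (c (l 16776344) (l 16776328)) (l 16779248)) (b (a (b (c (l 16777008) (l 16777656)) (a (a (c (l 344838897527) (b (l 327122157495) (l 3))) (c (l 305110450119) (b (l 16777152) (l 333027737495))))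 (l 276119421495))) (l 16776792)) (a (b (a (l 3) (a (c (l 355576315751) (b (l 340007059351) (l 3))) (b (l 285246226919) (l 343765156391)))) (l 3)) (a (a (b (l 281488130711) (c (l 366850604887) (l 370608701191))) (b (l 16777064) (b (l 291688677975) (l 358260670343)))) (b (l 16776952) (c (l 280414389255) (b (l 16777072) (c (l 286856839863) (l 287393710775)))))))))) (b (a (b (l 16775752) (l 16776048)) (l 16775328)) (a (b (l 16781600) (l 16777976)) (b (l 16775768) (l 16776072)))))) (a (b (l 16773544) (l 16774728)) (b (l 16772216) (l 16773464))))), by decide +kernel⟩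

def k13_pp_123_s : ∃ t, chk3 f_pp_123_s t 19 4 1 = true :=
  ⟨(b (l 16746352) (b (a (l 16764160) (l 16761080)) (a (b (l 16767176) (a (l 16770824) (l 16768312))) (a (l 16764960) (l 16763016))))), by decide +kernel⟩

def k14_pp_123_s : ∃ t, chk3 f_pp_123_s t 36 10 1 = true :=
  ⟨(l 3), by decide +kernel⟩

def k15_pp_123_s : ∃ t, chk3 f_pp_123_s t 148 40 1 = true :=
  ⟨(b (b (b (b (a (l 3) (a (l 3) (a (l 3) (a (c (l 380272377671) (l 384030473959)) (c (l 323364061095) (b (l 301352354311) (l 379198635863))))))) (l 3)) (l 3)) (l 3)) (l 3)), by decide +kernel⟩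

def k16_pp_123_s : ∃ t, chk3 f_pp_123_s t 149 80 1 = true :=
  ⟨(b (b (a (a (a (a (b (c (l 290078065431) (b (l 16777120) (l 306184191959))) (l 395304763143)) (b (l 16777088) (b (a (l 324437802967) (l 290614935991)) (l 397452246871)))) (b (l 16776976) (a (a (b (l 16777152) (l 330880253895)) (l 285246226967)) (l 16777096)))) (l 16776832)) (l 16778976)) (a (a (a (l 3) (a (l 407115922983) (b (b (a (l 338396446647) (l 300815483335)) (l 3)) (l 3)))) (b (a (a (b (l 16777144) (a (l 345912639415) (l 306184192455))) (l 16777432)) (l 16776992)) (a (a (l 3) (b (a (l 353965703079) (l 311016030679)) (l 3))) (a (b (l 279340646695) (a (l 362555637671) (a (l 327659028439) (l 303499837911)))) (l 278266904967))))) (c (l 16776696) (l 16777992)))) (b (b (a (a (l 3) (a (l 3) (a (l 3) (a (l 388862312247) (b (a (l 335175221191) (l 312089772423)) (l 3)))))) (a (a (a (b (l 284709355911) (a (l 385641086871) (a (l 342691413959) (l 317995352455)))) (c (l 16777456) (l 282561872183))) (l 16777016)) (l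 16776776))) (a (l 3) (a (b (a (a (l 3) (a (l 396378505095) (a (l 351281348551) (l 323900932071)))) (c (l 271287583063) (l 270750712135))) (a (l 3) (a (a (l 405505310583) (a (l 359871283127) (l 330343382999))) (c (l 265918874023) (l 265918873927))))) (l 16777600)))) (a (l 3) (a (a (l 3) (b (a (l 3) (a (l 3) (c (l 365239992199) (b (l 348596993959) (l 3))))) (l 3))) (b (a (a (c (b (l 264845132199) (l 361481895847)) (b (c (l 264308261207) (l 264845132023)) (c (l 365776863095) (l 368461217639)))) (a (c (l 265382003159) (b (l 16777120) (l 311552901495))) (l 276119421255))) (l 16777024)) (b (a (a (l 3) (a (l 3) (l 358260670375))) (a (a (b (l 16777192) (l 344838897623)) (l 269140099239)) (l 16777112))) (a (l 3) (a (c (l 373293055895) (l 378124894055)) (a (b (l 263234519255) (l 353428832199)) (l 266455744727)))))))))), by decide +kernel⟩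

def k17_pp_123_s : ∃ t, chk3 f_pp_123_s t 149 81 1 = true :=
  ⟨(b (a (l 3) (a (l 3) (b (b (c (l 400136601191) (c (l 403894697447) (a (l 3) (l 402284084839)))) (l 3)) (l 3)))) (l 3)), by decide +kernel⟩

def k18_pp_123_s : ∃ t, chk3 f_pp_123_s t 75 80 1 = true :=
  ⟨(a (b (a (b (l 16775776) (l 16776072)) (l 16775312)) (a (a (a (b (l 16776624) (l 16777528)) (l 16776624)) (l 16776368)) (b (l 16775776) (l 16776064)))) (l 16774680)), by decide +kernel⟩

def k19_pp_123_s : ∃ t, chk3 f_pp_123_s t 300 81 1 = true :=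
  ⟨(b (a (b (a (b (b (a (a (b (l 261087035607) (l 363092508615)) (l 263771390215)) (l 16777120)) (a (l 388862312295) (a (b (l 304036708567) (l 373829926855)) (l 262160777479)))) (c (l 403357826807) (l 405505310327))) (b (l 16777368) (b (a (a (b (l 308868546823) (l 388862312375)) (a (l 302426095911) (l 264845131959))) (l 16777128)) (a (l 401747214167) (a (b (l 313163514167) (l 401210343351)) (c (l 260013293847) (l 257328939287))))))) (b (c (l 407652793943) (c (l 410337148359) (l 411410890087))) (l 3))) (b (c (l 16777544) (b (l 16776784) (l 16777448))) (b (a (a (b (a (b (l 318532223287) (l 3)) (b (l 16777176) (l 321753448759))) (l 3)) (b (l 16777136) (a (b (l 324437803319) (l 3)) (b (l 16777176) (l 327659028775))))) (c (l 16777056) (l 16777376))) (a (l 3) (b (a (a (b (l 330343383335) (l 3)) (a (b (l 16777192) (l 364166250455)) (l 257328939255))) (l 263771390295)) (a (l 3) (a (a (l 387251699623) (b (l 321216577767) (l 3))) (b (l 16777184) (a (l 375440539607) (l 324437803239))))))))))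 (l 3)), by decide +kernel⟩

def k20_pp_123_s : ∃ t, chk3 f_pp_123_s t 301 81 1 = true :=
  ⟨(a (b (b (l 16776552) (b (l 16776808) (c (l 16777472) (c (l 16777384) (l 263771390279))))) (b (b (b (a (a (a (b (l 341617672151) (l 3)) (b (l 261087035511) (l 344838897623))) (l 262160777495)) (l 16777024)) (a (a (l 3) (a (b (l 347523252183) (l 3)) (b (l 259476422775) (l 350744477655)))) (c (l 16777440) (l 261087035671)))) (a (l 3) (b (a (a (c (l 368998088631) (l 373293055895)) (b (l 255718326487) (l 356650057687))) (c (l 16777152) (l 259476422823))) (a (l 3) (a (a (l 3) (l 368998088631)) (b (l 254107713751) (l 363092508615))))))) (l 3))) (b (l 16776384) (b (b (l 16776816) (c (l 262160777751) (c (l 261087035751) (a (b (l 16777016) (l 258939551943)) (l 16776880))))) (b (b (a (a (a (l 378661765031) (b (l 253033971927) (l 369534959559))) (c (l 260550164615) (l 257865810055))) (l 16777032)) (a (a (l 3) (a (l 386714828695) (b (a (l 317458481383) (l 16777192)) (l 375977410503)))) (c (l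 260550164711) (c (l 259476422791) (c (l 258402680967) (l 257865810039)))))) (a (l 3) (b (a (a (l 391546666903) (b (a (l 322290319591) (l 16777192)) (l 382419861447))) (c (l 258939551895) (c (l 258402680887) (b (l 16777136) (l 254107713639))))) (a (l 3) (a (l 396378505111) (b (a (l 327122157799) (l 254644584583)) (l 392083537847)))))))))), by decide +kernel⟩

def k21_pp_123_s : ∃ t, chk3 f_pp_123_s t 151 81 1 = true :=
  ⟨(b (a (b (l 16775768) (l 16776056)) (l 16775288)) (a (a (a (b (l 16776648) (a (b (l 16776944) (a (b (l 16777096) (a (b (l 16777176) (l 329269641447)) (l 257328939175))) (l 16777104))) (l 16776952))) (l 16776648)) (l 16776392)) (b (l 16775760) (l 16776048)))), by decide +kernel⟩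

def k22_pp_123_s : ∃ t, chk3 f_pp_123_s t 74 41 1 = true :=
  ⟨(l 3), by decide +kernel⟩

def k23_pp_123_s : ∃ t, chk3 f_pp_123_s t 150 41 1 = true :=
  ⟨(l 3), by decide +kernel⟩

def k24_pp_123_s : ∃ t, chk3 f_pp_123_s t 302 41 1 = true :=
  ⟨(b (b (a (b (b (a (a (a (l 405505310519) (b (b (a (l 331417125095) (l 253570842759)) (l 398525988791)) (l 3))) (a (b (a (b (l 16777176) (l 334638350551)) (l 257865810023)) (l 405505310615)) (b (l 16777144) (b (a (l 336785834199) (l 252497100935)) (l 404968439735))))) (a (a (b (l 16777104) (a (b (l 16777184) (l 338933317847)) (l 257328939111))) (l 16777104)) (l 16777040))) (a (l 3) (a (a (l 409263406903) (b (b (a (l 341080801495) (l 250349617303)) (l 3)) (l 3))) (a (b (a (b (l 16777184) (l 343228285143)) (l 256255197287)) (l 3)) (b (l 16777152) (b (a (l 346986381495) (l 307794804887)) (l 3))))))) (l 3)) (b (b (l 16776824) (b (l 16777608) (a (b (l 257865810199) (a (a (a (l 348060123111) (l 308868546711)) (l 16777176)) (l 16777112)))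 (l 16776960)))) (b (a (a (a (l 3) (b (b (a (l 350207606759) (l 310479159447)) (l 3)) (l 3))) (a (b (b (l 16777176) (a (l 351818219495) (l 311552901271))) (l 3)) (b (l 16777152) (b (a (l 353965703143) (l 313163514007)) (l 3))))) (b (l 16777048) (a (b (l 16777320) (a (a (l 355576315879) (l 314237255831)) (l 16777176))) (l 16777088)))) (a (l 3) (a (a (l 3) (b (b (a (l 357723799527) (l 315310997655)) (l 3)) (l 3))) (a (b (b (l 16777176) (a (l 359334412263) (a (l 326585286807) (l 249812746343)))) (l 3)) (b (l 16777320) (b (a (l 360945024999) (a (l 327659028631) (l 249275875431))) (l 3))))))))) (l 3)) (l 3)), by decide +kernel⟩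

def k25_pp_123_s : ∃ t, chk3 f_pp_123_s t 606 82 1 = true :=
  ⟨(b (b (l 16776568) (b (l 16776824) (b (l 16777616) (a (a (a (b (l 16777176) (a (l 362555637735) (a (l 329269641367) (l 246591520919)))) (l 258939551879)) (l 16777088)) (l 16776960))))) (b (b (b (a (b (a (a (l 3) (a (l 364166250455) (a (l 330343383191) (l 307257933975)))) (l 257865810103)) (a (l 3) (a (a (l 365239992279) (a (l 331417125015) (l 308331675799))) (l 16777264)))) (l 16777048)) (a (a (l 3) (a (l 3) (a (l 381882990519) (b (a (l 332490866839) (l 309405417623)) (l 3))))) (a (a (b (l 256792068199) (a (l 367924346839) (a (l 334101479575) (l 309942288535)))) (l 257865810055)) (l 16777096)))) (a (l 3) (a (a (l 3) (b (a (l 383493603255) (b (a (l 334638350487) (l 311016030359)) (l 3))) (l 3))) (a (b (b (l 256255197287) (a (l 370071830487) (a (l 335712092311) (l 311552901271)))) (l 3)) (b (l 257865810055) (a (l 385104215991) (b (a (l 336785834135) (l 312089772183)) (l 3)))))))) (l 3))), by decide +kernel⟩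

def k26_pp_123_s : ∃ t, chk3 f_pp_123_s t 607 82 1 = true :=
  ⟨(b (l 16776400) (b (b (l 16776832) (b (l 16777456) (a (a (a (b (l 255718326375) (a (l 372219314135) (a (l 337322705047) (l 312626643095)))) (l 257328939143)) (l 16777096)) (l 16776960)))) (b (a (a (a (l 3) (b (a (l 386177957815) (b (a (l 337859575959) (l 313163514007)) (l 3))) (l 3))) (a (b (b (l 255718326375) (a (l 373293055959) (a (l 338396446871) (l 313700384919)))) (l 3)) (b (l 257328939143) (a (l 387251699639) (b (a (l 338933317783) (l 314237255831)) (l 3)))))) (b (l 16777048) (a (a (b (l 255718326375) (a (l 374366797783) (a (l 338933317783) (l 314237255831)))) (l 257328939143)) (l 16777096)))) (a (l 3) (b (a (a (l 3) (a (l 387788570551) (b (a (l 339470188695) (l 314774126743)) (l 3)))) (a (b (l 255181455463) (a (l 374903668695) (a (l 339470188695) (l 314774126743)))) (l 257328939143))) (a (l 3) (a (l 3) (a (l 390472925111) (b (a (l 339470188695) (l 314774126743)) (l 3)))))))))), by decide +kernel⟩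

def k27_pp_123_s : ∃ t, chk3 f_pp_123_s t 303 83 1 = true :=
  ⟨(l 3), by decide +kernel⟩

def k28_pp_123_s : ∃ t, chk3 f_pp_123_s t 37 21 1 = true :=
  ⟨(l 3), by decide +kernel⟩

def k29_pp_123_s : ∃ t, chk3 f_pp_123_s t 18 11 1 = true :=
  ⟨(l 3), by decide +kernel⟩

def k30_pp_123_s : ∃ t, chk3 f_pp_123_s t 76 40 1 = true :=
  ⟨(a (b (l 16773392) (a (b (l 16774640) (l 16775264)) (l 16774296))) (b (l 16772064) (l 16773312))), by decide +kernel⟩

def k31_pp_123_s : ∃ t, chk3 f_pp_123_s t 152 41 1 = true :=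
  ⟨(b (b (a (b (l 16775736) (l 16776048)) (l 16775240)) (b (a (l 16776392) (l 16775712)) (a (b (l 16777960) (a (a (b (l 16777048) (a (a (b (l 255181455463) (a (l 374903668695) (a (l 339470188695) (l 314774126743)))) (l 257328939143)) (l 16777096))) (l 16776912)) (l 16776648))) (l 16776032)))) (b (b (a (a (b (a (b (b (a (a (l 3) (a (l 374903668695) (a (l 340543930519) (l 313163514007)))) (l 262160777399)) (a (l 3) (a (a (l 365776863191) (c (l 317458481303) (l 319605964951))) (l 263234519143)))) (b (a (l 3) (a (l 3) (a (l 365239992279) (l 316921610391)))) (l 3))) (a (a (b (l 16777112) (b (l 16777344) (a (l 364703121367) (l 316384739479)))) (l 246054650151)) (l 16777048))) (a (l 3) (a (a (l 3) (a (l 407115923319) (c (l 364166250407) (b (l 344838897607) (l 3))))) (a (b (b (l 16777184) (l 330343383015)) (l 3)) (b (l 16777160) (a (l 376514281399) (l 340543930327))))))) (a (a (a (b (l 16776984) (c (l 260013293959) (b (l 16777112) (l 306184192295)))) (l 248202133943)) (l 16776960))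 (l 16776824))) (l 16776376)) (a (a (l 3) (b (a (a (c (l 370608701303) (b (l 361481895815) (l 3))) (c (b (l 258402681175) (l 357186928567)) (b (l 256255197431) (l 360945024919)))) (c (l 261087036135) (c (l 264308261111) (l 262697648359)))) (a (l 3) (a (c (l 368998088583) (l 372756184903)) (b (l 256792068519) (l 353965703079)))))) (a (a (b (l 16776912) (c (l 262160777943) (l 265382002919))) (l 16776816)) (l 16776544)))) (a (l 3) (a (b (b (a (a (l 365776863079) (b (l 258402681239) (l 350744477607))) (l 268066357639)) (a (l 3) (a (l 363092508519) (c (l 313700384727) (l 316921610839))))) (l 3)) (b (c (l 249275876343) (l 247665263191)) (b (a (a (l 359871283063) (l 312089772647)) (l 16777072)) (a (l 3) (a (l 356650057591) (l 308331676423))))))))), by decide +kernel⟩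

def k32_pp_123_s : ∃ t, chk3 f_pp_123_s t 153 41 1 = true :=
  ⟨(b (a (b (l 16774576) (l 16775208)) (l 16774224)) (a (b (l 16781088) (a (a (l 252497101783) (l 16776616)) (l 16776352))) (b (l 16775176) (l 16775816)))), by decide +kernel⟩

def k33_pp_123_s : ∃ t, chk3 f_pp_123_s t 77 20 1 = true :=
  ⟨(b (a (l 16771368) (l 16770048)) (a (b (l 16773224) (a (b (l 16774496) (l 16775128)) (l 16774136))) (b (l 16771888) (l 16773128)))), by decide +kernel⟩

def k34_pp_123_s : ∃ t, chk3 f_pp_123_s t 38 21 1 = true :=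
  ⟨(a (b (a (l 3) (a (b (b (b (a (a (b (c (l 322827190183) (l 326048415607)) (l 3)) (b (l 16777064) (l 320679706519))) (l 16776872)) (a (l 3) (a (b (l 317995351991) (l 3)) (b (l 16777048) (l 314774126535))))) (l 3)) (l 3)) (b (b (c (l 16778488) (l 16778272)) (a (b (a (b (l 311552902215) (l 416779599623)) (l 261087036839)) (l 414095244823)) (a (b (l 16776928) (l 327122157399)) (l 245517781303)))) (b (c (l 411947760903) (l 417853340535)) (l 3))))) (l 3)) (b (a (b (a (b (l 16775768) (l 16776448)) (b (l 16775064) (l 16775688))) (b (a (a (b (c (l 300278611847) (l 303499837287)) (l 400673472103)) (b (l 16776784) (l 297057386327))) (l 16776376)) (b (a (l 399062859143) (l 277193165415)) (a (l 3) (a (l 355576315575) (l 284709357191)))))) (b (a (b (l 16774384) (l 16775000)) (l 16774032)) (a (b (l 16775600) (l 16776288)) (b (l 16774920) (l 16775504))))) (a (b (a (l 3) (b (c (l 393694150087) (l 399599729799)) (l 3))) (l 3)) (b (a (a (b (l 305647323543) (l 3)) (b (l 16776808) (l 342154542695)))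 (b (l 16776184) (l 280414391527))) (a (l 3) (b (l 337322706983) (l 3))))))), by decide +kernel⟩

def k35_pp_123_s : ∃ t, chk3 f_pp_123_s t 39 10 1 = true :=
  ⟨(b (a (b (l 16768192) (a (b (l 16770568) (l 16771792)) (l 16769888))) (b (l 16765872) (l 16768072))) (a (b (a (b (l 16773032) (a (b (l 16774264) (l 16774840)) (l 16773912))) (b (l 16771696) (l 16772928))) (a (b (a (b (l 16775400) (l 16776064)) (b (l 16774752) (l 16775280))) (a (b (l 271287585159) (l 324974673447)) (b (l 16775928) (l 16779296)))) (b (l 16774096) (a (b (l 16775168) (l 16775776)) (b (l 16774568) (l 16775048)))))) (b (a (b (l 16770392) (l 16771608)) (l 16769752)) (a (b (l 16772824) (l 16773952)) (l 16772120))))), by decide +kernel⟩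

def k36_pp_123_s : ∃ t, chk3 f_pp_123_s t 19 11 1 = true :=
  ⟨(a (l 3) (b (a (b (a (b (a (l 3) (b (l 312089771607) (l 3))) (l 3)) (b (a (b (l 16776528) (l 300278611719)) (b (l 16775616) (l 16776360))) (a (b (l 405505310103) (l 3)) (b (l 290614939015) (l 377051151895))))) (l 3)) (b (a (b (a (b (l 16774928) (l 16775456)) (b (l 16774408) (l 16774824))) (a (b (l 16776176) (l 279877520647)) (b (l 16775296) (l 16775976)))) (b (l 16773816) (a (b (l 16774728) (l 16775144)) (l 16774552)))) (a (b (a (b (l 336785833591) (l 3)) (b (l 16776720) (l 318532226551))) (l 3)) (b (a (b (l 16775760) (l 16776496)) (b (l 16775008) (l 16775544))) (a (b (l 297057390087) (l 378661764695)) (b (l 16776256) (l 16776968))))))) (a (l 3) (b (a (l 3) (b (a (l 3) (b (l 329269640887) (l 3))) (l 3))) (l 3))))), by decide +kernel⟩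

def k37_pp_123_s : ∃ t, chk3 f_pp_123_s t 5 2 1 = true :=
  ⟨(b (a (a (a (b (l 16733960) (b (l 16758800) (l 16865656))) (b (l 16749088) (a (b (l 16758208) (l 16759224)) (a (l 16758328) (l 16758488))))) (b (l 16714936) (l 16758624))) (b (l 6) (l 16752960))) (a (a (a (b (b (a (l 16764824) (l 16762984)) (a (b (l 16767992) (a (l 16770848) (l 16769648))) (b (l 16765848) (l 16788928)))) (b (a (b (a (l 16773136) (l 16813808)) (a (b (a (l 16782720) (l 16774312)) (a (b (l 16775336) (l 16776008)) (l 16775024))) (b (l 16773480) (a (l 16774584) (l 16774152))))) (b (a (l 16770656) (l 16769536)) (a (l 16772736) (l 16771536)))) (a (b (a (b (a (b (l 16776704) (l 300278615927)) (l 16776088)) (a (l 3) (b (l 16779704) (l 357186928327)))) (b (a (l 16775288) (l 16774840)) (a (l 16776456) (l 16775608)))) (a (l 3) (b (a (l 302962966135) (l 254107722967)) (a (l 3) (l 349670735383))))) (b (a (b (l 16774240) (a (l 16775192) (l 16774824))) (l 16773448)) (a (b (a (l 16776032) (l 16775544)) (a (l 262697658023)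 (l 16776376))) (b (l 16780088) (a (l 16775840) (l 16775368)))))))) (b (a (b (l 16761416) (b (l 16763896) (l 16765832))) (b (a (l 16760320) (a (l 16759664) (l 16758968))) (a (l 16763384) (a (l 16762408) (l 16761320))))) (a (b (a (b (l 16768400) (l 16770464)) (b (l 16767240) (l 16769320))) (b (a (l 16793208) (l 16771288)) (a (l 16773968) (l 16793792)))) (b (a (b (l 16766056) (l 16767928)) (a (l 16765864) (l 16785536))) (a (b (l 16770048) (a (l 16772280) (l 16771808))) (b (a (l 16768360) (l 16766592)) (a (l 16770520) (a (a (a (l 16768928) (l 16830752)) (l 16767352)) (l 16767256))))))))) (b (b (l 16756544) (l 16757616)) (b (l 16760792) (a (l 16765488) (l 16762568))))) (b (b (l 16755360) (l 16751176)) (a (b (l 16754832) (l 16758456)) (l 16751360))))), by decide +kernel⟩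

def k38_pp_123_s : ∃ t, chk3 f_pp_123_s t 3 2 1 = true :=
  ⟨(a (b (l 6) (a (b (a (l 16755808) (l 6)) (b (l 16742792) (l 16747528))) (l 6))) (l 6)), by decide +kernel⟩

def k39_pp_123_s : ∃ t, chk3 f_pp_123_s t 4 6 1 = true :=
  ⟨(l 3), by decide +kernel⟩

def k40_pp_123_s : ∃ t, chk3 f_pp_123_s t 20 6 1 = true :=
  ⟨(a (b (b (a (l 3) (b (a (b (a (l 363629378791) (l 263234533031)) (l 3)) (a (b (l 16776608) (l 266992629559)) (b (l 16776064) (l 16776744)))) (a (l 3) (b (a (l 3) (l 272361336599)) (l 3))))) (l 3)) (l 3)) (b (a (b (a (b (a (b (l 16775584) (l 16776224)) (l 16785784)) (a (b (l 16776832) (l 266455759335)) (b (l 16776360) (l 16776856)))) (b (l 16774240) (a (b (l 16775792) (l 16776376)) (l 16783200)))) (a (b (a (l 3) (b (l 16784936) (l 3))) (l 3)) (b (a (c (l 258402704759) (l 263771415031)) (b (l 16776320) (l 16776760))) (a (b (l 299204888199) (l 3)) (b (l 16777144) (l 16787304)))))) (b (a (b (a (l 16773568) (l 16752440)) (a (l 16774784) (l 16753488))) (a (b (l 16772824)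 (a (l 16774400) (l 16774224))) (a (a (a (l 16793592) (b (l 16770024) (l 16793432))) (l 16770640)) (l 16770512)))) (a (b (a (b (l 16775664) (l 16776160)) (l 16775368)) (a (b (l 16787128) (l 16787512)) (a (l 16786832) (l 16776008)))) (a (a (b (l 16775184) (l 16775880)) (b (l 16775136) (l 16775832))) (a (a (a (b (l 16774952) (l 16775720)) (a (b (l 16774728) (l 16775592)) (b (l 16774288) (l 16775368)))) (b (l 16773960) (l 16775272))) (b (l 16773832) (l 16775152))))))) (a (l 3) (b (a (b (a (b (l 302962987991) (l 3)) (a (l 16787560) (l 16787336))) (a (l 3) (b (l 286856864583) (l 3)))) (a (a (b (l 16797472) (l 243907192215)) (a (b (l 16776344) (l 16776856)) (b (l 16776336) (l 16776744)))) (b (b (l 16775904) (l 16776168)) (b (l 16797392) (c (l 16797696) (l 16797408)))))) (a (l 3) (b (a (a (l 290614962519) (a (l 16777160) (l 16787624))) (b (c (l 16797760) (l 16787048)) (l 16787256))) (a (a (l 3) (a (l 3) (l 16777088))) (l 16776872)))))))), by decide +kernel⟩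

def k41_pp_123_s : ∃ t, chk3 f_pp_123_s t 21 6 1 = true :=
  ⟨(b (b (b (l 16787224) (l 16789520)) (a (b (l 16772224) (l 16773544)) (l 16769976))) (a (b (b (l 16774136) (l 16774288)) (b (l 16773752) (l 16772968))) (b (b (l 16770752) (l 16770256)) (b (l 16768728) (l 16766392))))), by decide +kernel⟩

def k42_pp_123_s : ∃ t, chk3 f_pp_123_s t 11 6 1 = true :=
  ⟨(b (a (b (l 16762088) (l 16766064)) (b (l 16758304) (l 16762344))) (a (b (b (l 16766416) (l 16764952)) (b (l 16762144) (l 16757528))) (b (l 16761168) (l 16793408)))), by decide +kernel⟩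

def k43_pp_123_s : ∃ t, chk3 f_pp_123_s t 3 6 1 = true :=
  ⟨(a (b (a (b (l 16756184) (l 16761104)) (b (l 16761136) (l 16769408))) (a (b (a (l 16758576) (l 16758584)) (a (l 16745184) (l 16740688))) (b (l 16868616) (l 1)))) (l 6)), by decide +kernel⟩

def k44_pp_123_s : ∃ t, chk3 f_pp_123_s t 1 7 1 = true :=
  ⟨(a (b (a (l 3) (a (a (a (l 3) (a (l 3) (b (a (l 3) (b (a (l 3) (l 16776848)) (a (a (l 3) (a (l 16777120) (l 16777232))) (b (l 16776584) (l 16786568))))) (b (a (a (l 3) (b (l 3) (l 282561896791))) (a (a (c (l 253034002423) (l 232096038023)) (a (l 16789648) (a (l 16786720) (l 16796968)))) (b (b (l 16786072) (l 16785528)) (b (l 16774320) (l 16773424))))) (b (a (a (l 3) (a (l 16777176) (l 16776800))) (a (a (l 16775968) (a (l 16775352) (l 16774640))) (c (l 16771816) (l 16771528)))) (l 1)))))) (b (a (b (l 16771976) (a (l 16772952) (l 16767576))) (b (l 16763512) (l 16759680))) (a (b (b (l 16767952) (l 16765280)) (b (l 16762352) (l 1))) (b (l 16754048) (l 1))))) (b (a (b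 (l 16751808) (l 16744720)) (l 61773796487)) (l 1)))) (a (l 3) (a (a (a (b (l 3) (l 1)) (l 1)) (l 1)) (l 1)))) (l 1)), by decide +kernel⟩

theorem s45_pp_123_s : ∃ t, chk3 f_pp_123_s t 10 6 1 = true := ex3_a k40_pp_123_s k41_pp_123_s

theorem s46_pp_123_s : ∃ t, chk3 f_pp_123_s t 5 6 1 = true := ex3_a s45_pp_123_s k42_pp_123_s

theorem s47_pp_123_s : ∃ t, chk3 f_pp_123_s t 2 6 1 = true := ex3_a k39_pp_123_s s46_pp_123_s

theorem s48_pp_123_s : ∃ t, chk3 f_pp_123_s t 1 6 1 = true := ex3_a s47_pp_123_s k43_pp_123_s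

theorem s49_pp_123_s : ∃ t, chk3 f_pp_123_s t 1 3 1 = true := ex3_b s48_pp_123_s k44_pp_123_s

theorem s50_pp_123_s : ∃ t, chk3 f_pp_123_s t 76 41 1 = true := ex3_a k31_pp_123_s k32_pp_123_s

theorem s51_pp_123_s : ∃ t, chk3 f_pp_123_s t 76 20 1 = true := ex3_b k30_pp_123_s s50_pp_123_s

theorem s52_pp_123_s : ∃ t, chk3 f_pp_123_s t 38 20 1 = true := ex3_a s51_pp_123_s k33_pp_123_s

theorem s53_pp_123_s : ∃ t, chk3 f_pp_123_s t 38 10 1 = true := ex3_b s52_pp_123_s k34_pp_123_s

theorem s54_pp_123_s : ∃ t, chk3 f_pp_123_s t 19 10 1 = true := ex3_a s53_pp_123_s k35_pp_123_s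

theorem s55_pp_123_s : ∃ t, chk3 f_pp_123_s t 19 5 1 = true := ex3_b s54_pp_123_s k36_pp_123_s

theorem s56_pp_123_s : ∃ t, chk3 f_pp_123_s t 303 82 1 = true := ex3_a k25_pp_123_s k26_pp_123_s

theorem s57_pp_123_s : ∃ t, chk3 f_pp_123_s t 303 41 1 = true := ex3_b s56_pp_123_s k27_pp_123_s

theorem s58_pp_123_s : ∃ t, chk3 f_pp_123_s t 151 41 1 = true := ex3_a k24_pp_123_s s57_pp_123_s

theorem s59_pp_123_s : ∃ t, chk3 f_pp_123_s t 75 41 1 = true := ex3_a k23_pp_123_s s58_pp_123_s

theorem s60_pp_123_s : ∃ t, chk3 f_pp_123_s t 37 41 1 = true := ex3_a k22_pp_123_s s59_pp_123_s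

theorem s61_pp_123_s : ∃ t, chk3 f_pp_123_s t 150 81 1 = true := ex3_a k19_pp_123_s k20_pp_123_s

theorem s62_pp_123_s : ∃ t, chk3 f_pp_123_s t 75 81 1 = true := ex3_a s61_pp_123_s k21_pp_123_s

theorem s63_pp_123_s : ∃ t, chk3 f_pp_123_s t 75 40 1 = true := ex3_b k18_pp_123_s s62_pp_123_s

theorem s64_pp_123_s : ∃ t, chk3 f_pp_123_s t 149 40 1 = true := ex3_b k16_pp_123_s k17_pp_123_s

theorem s65_pp_123_s : ∃ t, chk3 f_pp_123_s t 74 40 1 = true := ex3_a k15_pp_123_s s64_pp_123_s

theorem s66_pp_123_s : ∃ t, chk3 f_pp_123_s t 37 40 1 = true := ex3_a s65_pp_123_s s63_pp_123_s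

theorem s67_pp_123_s : ∃ t, chk3 f_pp_123_s t 37 20 1 = true := ex3_b s66_pp_123_s s60_pp_123_s

theorem s68_pp_123_s : ∃ t, chk3 f_pp_123_s t 37 10 1 = true := ex3_b s67_pp_123_s k28_pp_123_s

theorem s69_pp_123_s : ∃ t, chk3 f_pp_123_s t 18 10 1 = true := ex3_a k14_pp_123_s s68_pp_123_s

theorem s70_pp_123_s : ∃ t, chk3 f_pp_123_s t 18 5 1 = true := ex3_b s69_pp_123_s k29_pp_123_s

theorem s71_pp_123_s : ∃ t, chk3 f_pp_123_s t 9 5 1 = true := ex3_a s70_pp_123_s s55_pp_123_s

theorem s72_pp_123_s : ∃ t, chk3 f_pp_123_s t 36 38 1 = true := ex3_a k9_pp_123_s k10_pp_123_s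

theorem s73_pp_123_s : ∃ t, chk3 f_pp_123_s t 36 19 1 = true := ex3_b s72_pp_123_s k11_pp_123_s

theorem s74_pp_123_s : ∃ t, chk3 f_pp_123_s t 18 19 1 = true := ex3_a s73_pp_123_s k12_pp_123_s

theorem s75_pp_123_s : ∃ t, chk3 f_pp_123_s t 18 9 1 = true := ex3_b k8_pp_123_s s74_pp_123_s

theorem s76_pp_123_s : ∃ t, chk3 f_pp_123_s t 18 4 1 = true := ex3_b k7_pp_123_s s75_pp_123_s

theorem s77_pp_123_s : ∃ t, chk3 f_pp_123_s t 9 4 1 = true := ex3_a s76_pp_123_s k13_pp_123_s

theorem s78_pp_123_s : ∃ t, chk3 f_pp_123_s t 9 2 1 = true := ex3_b s77_pp_123_s s71_pp_123_s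

theorem s79_pp_123_s : ∃ t, chk3 f_pp_123_s t 35 18 1 = true := ex3_b k3_pp_123_s k4_pp_123_s

theorem s80_pp_123_s : ∃ t, chk3 f_pp_123_s t 17 18 1 = true := ex3_a k2_pp_123_s s79_pp_123_s

theorem s81_pp_123_s : ∃ t, chk3 f_pp_123_s t 17 9 1 = true := ex3_b s80_pp_123_s k5_pp_123_s

theorem s82_pp_123_s : ∃ t, chk3 f_pp_123_s t 8 9 1 = true := ex3_a k1_pp_123_s s81_pp_123_s

theorem s83_pp_123_s : ∃ t, chk3 f_pp_123_s t 8 4 1 = true := ex3_b k0_pp_123_s s82_pp_123_s

theorem s84_pp_123_s : ∃ t, chk3 f_pp_123_s t 8 2 1 = true := ex3_b s83_pp_123_s k6_pp_123_s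

theorem s85_pp_123_s : ∃ t, chk3 f_pp_123_s t 4 2 1 = true := ex3_a s84_pp_123_s s78_pp_123_s

theorem s86_pp_123_s : ∃ t, chk3 f_pp_123_s t 2 2 1 = true := ex3_a s85_pp_123_s k37_pp_123_s

theorem s87_pp_123_s : ∃ t, chk3 f_pp_123_s t 1 2 1 = true := ex3_a s86_pp_123_s k38_pp_123_s

theorem s88_pp_123_s : ∃ t, chk3 f_pp_123_s t 1 1 1 = true := ex3_b s87_pp_123_s s49_pp_123_s

theorem c_pp_123_s : CertNE 536870912 536870912 0 1230186008 587336777 62277027 3 eng mog cd0q1 cd7q3 pd2 false true true .npn 1 2 3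
    ndB0q1 ndB7q3 pcB2 cut_pp_123_s Ext.none :=
  certNE2 (fam := false) (s1 := true) (s2 := true) (a := 1) (b := 2) (c := 3) (cn := .npn) (n1 := ndB0q1) (n2 := ndB7q3) (pc := pcB2) (cut := cut_pp_123_s) (xt := Ext.none) (P1 := 536870912) (W1 := 536870912) (P2 := 0) (W2 := 1230186008) (P3 := 587336777) (W3 := 62277027) (N0 := 3) (En := eng) (mo := mog) (C1 := cd0q1) (C2 := cd7q3) (C3 := pd2)
    rfl (fun _ => rfl) s88_pp_123_s

noncomputable def cut_pp_133_s : Cut := Cut.of [[⟨4, 0, 0, 1449551462⟩]]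

noncomputable def f_pp_133_s : ℕ → ℕ → ℕ → ℕ → Bool := onCell 1610612736 536870912 0 1230186008 587336777 62277027
    (rowNE 3 eng mog cd0q1 cd7q3 pd3 2 false true true .dn 1 3 3 (qsf 536870912 536870912 0 1230186008 3) ndB0q1 ndB7q3 pcB3 cut_pp_133_s Ext.none)

def k0_pp_133_s : ∃ t, chk3 f_pp_133_s t 1 1 1 = true :=
  ⟨(b (l 6) (l 1)), by decide +kernel⟩

theorem c_pp_133_s : CertNE 536870912 536870912 0 1230186008 587336777 62277027 3 eng mog cd0q1 cd7q3 pd3 false true true .dn 1 3 3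
    ndB0q1 ndB7q3 pcB3 cut_pp_133_s Ext.none :=
  certNE2 (fam := false) (s1 := true) (s2 := true) (a := 1) (b := 3) (c := 3) (cn := .dn) (n1 := ndB0q1) (n2 := ndB7q3) (pc := pcB3) (cut := cut_pp_133_s) (xt := Ext.none) (P1 := 536870912) (W1 := 536870912) (P2 := 0) (W2 := 1230186008) (P3 := 587336777) (W3 := 62277027) (N0 := 3) (En := eng) (mo := mog) (C1 := cd0q1) (C2 := cd7q3) (C3 := pd3)
    rfl (fun _ => rfl) k0_pp_133_s

noncomputable def cut_pp_202_s : Cut := Cut.of [[⟨4, 0, 0, 1449551462⟩]]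

noncomputable def f_pp_202_s : ℕ → ℕ → ℕ → ℕ → Bool := onCell 0 536870912 1073741824 536870912 587336777 62277027
    (rowNE 3 eng mog cd0q2 cd7q2 pd0 0 false true true .pp 2 0 2 (qsf 0 536870912 1073741824 536870912 0) ndB0q2 ndB7q2 pcB0 cut_pp_202_s Ext.none)

def k0_pp_202_s : ∃ t, chk3 f_pp_202_s t 1 1 1 = true :=
  ⟨(l 5), by decide +kernel⟩

theorem c_pp_202_s : CertNE 0 536870912 1073741824 536870912 587336777 62277027 3 eng mog cd0q2 cd7q2 pd0 false true true .pp 2 0 2
    ndB0q2 ndB7q2 pcB0 cut_pp_202_s Ext.none :=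
  certNE0 (fam := false) (s1 := true) (s2 := true) (a := 2) (b := 0) (c := 2) (cn := .pp) (n1 := ndB0q2) (n2 := ndB7q2) (pc := pcB0) (cut := cut_pp_202_s) (xt := Ext.none) (P1 := 0) (W1 := 536870912) (P2 := 1073741824) (W2 := 536870912) (P3 := 587336777) (W3 := 62277027) (N0 := 3) (En := eng) (mo := mog) (C1 := cd0q2) (C2 := cd7q2) (C3 := pd0)
    rfl k0_pp_202_s

noncomputable def cut_pp_203_s : Cut := Cut.of [[⟨4, 0, 0, 1449551462⟩]]

noncomputable def f_pp_203_s : ℕ → ℕ → ℕ → ℕ → Bool := onCell 0 536870912 0 1230186008 587336777 62277027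
    (rowNE 3 eng mog cd0q2 cd7q3 pd0 0 false true true .up 2 0 3 (qsf 0 536870912 0 1230186008 0) ndB0q2 ndB7q3 pcB0 cut_pp_203_s Ext.none)

def k0_pp_203_s : ∃ t, chk3 f_pp_203_s t 1 1 1 = true :=
  ⟨(b (l 2) (b (l 2) (a (l 5) (l 3)))), by decide +kernel⟩

theorem c_pp_203_s : CertNE 0 536870912 0 1230186008 587336777 62277027 3 eng mog cd0q2 cd7q3 pd0 false true true .up 2 0 3
    ndB0q2 ndB7q3 pcB0 cut_pp_203_s Ext.none :=
  certNE0 (fam := false) (s1 := true) (s2 := true) (a := 2) (b := 0) (c := 3) (cn := .up) (n1 := ndB0q2) (n2 := ndB7q3) (pc := pcB0) (cut := cut_pp_203_s) (xt := Ext.none) (P1 := 0) (W1 := 536870912) (P2 := 0) (W2 := 1230186008) (P3 := 587336777) (W3 := 62277027) (N0 := 3) (En := eng) (mo := mog) (C1 := cd0q2) (C2 := cd7q3) (C3 := pd0)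
    rfl k0_pp_203_s

noncomputable def cut_pp_213_s : Cut := Cut.of [[⟨4, 0, 0, 1449551462⟩], [⟨0, 1, 0, 67108864⟩, ⟨1, 1, 0, 67108864⟩, ⟨2, 2, 0, 16777216⟩]]

noncomputable def f_pp_213_s : ℕ → ℕ → ℕ → ℕ → Bool := onCell 0 536870912 0 1230186008 587336777 62277027
    (rowNE 3 eng mog cd0q2 cd7q3 pd1 0 false true true .pnn 2 1 3 (qsf 0 536870912 0 1230186008 1) ndB0q2 ndB7q3 pcB1 cut_pp_213_s Ext.none)

def k0_pp_213_s : ∃ t, chk3 f_pp_213_s t 1 1 1 = true :=
  ⟨(a (b (l 3) (l 5)) (b (b (a (l 3) (b (a (l 3) (l 14)) (l 3))) (l 3)) (b (l 3) (l 3)))), by decide +kernel⟩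

theorem c_pp_213_s : CertNE 0 536870912 0 1230186008 587336777 62277027 3 eng mog cd0q2 cd7q3 pd1 false true true .pnn 2 1 3
    ndB0q2 ndB7q3 pcB1 cut_pp_213_s Ext.none :=
  certNE0 (fam := false) (s1 := true) (s2 := true) (a := 2) (b := 1) (c := 3) (cn := .pnn) (n1 := ndB0q2) (n2 := ndB7q3) (pc := pcB1) (cut := cut_pp_213_s) (xt := Ext.none) (P1 := 0) (W1 := 536870912) (P2 := 0) (W2 := 1230186008) (P3 := 587336777) (W3 := 62277027) (N0 := 3) (En := eng) (mo := mog) (C1 := cd0q2) (C2 := cd7q3) (C3 := pd1)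
    rfl k0_pp_213_s

noncomputable def cut_pm_001_s : Cut := Cut.of [[⟨4, 0, 0, 1449551462⟩]]

noncomputable def f_pm_001_s : ℕ → ℕ → ℕ → ℕ → Bool := onCell 0 536870912 536870912 536870912 587336777 62277027
    (rowNE 3 eng mog cd0q0 cd7q1 pd0 0 false true false .up 0 0 1 (qsf 0 536870912 536870912 536870912 0) ndB0q0 ndB7q1 pcB0 cut_pm_001_s Ext.none)

def k0_pm_001_s : ∃ t, chk3 f_pm_001_s t 1 1 1 = true :=
  ⟨(l 4), by decide +kernel⟩

theorem c_pm_001_s : CertNE 0 536870912 536870912 536870912 587336777 62277027 3 eng mog cd0q0 cd7q1 pd0 false true false .up 0 0 1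
    ndB0q0 ndB7q1 pcB0 cut_pm_001_s Ext.none :=
  certNE0 (fam := false) (s1 := true) (s2 := false) (a := 0) (b := 0) (c := 1) (cn := .up) (n1 := ndB0q0) (n2 := ndB7q1) (pc := pcB0) (cut := cut_pm_001_s) (xt := Ext.none) (P1 := 0) (W1 := 536870912) (P2 := 536870912) (W2 := 536870912) (P3 := 587336777) (W3 := 62277027) (N0 := 3) (En := eng) (mo := mog) (C1 := cd0q0) (C2 := cd7q1) (C3 := pd0)
    rfl k0_pm_001_s

noncomputable def cut_pm_011_s : Cut := Cut.of [[⟨4, 0, 0, 1449551462⟩]]

noncomputable def f_pm_011_s : ℕ → ℕ → ℕ → ℕ → Bool := onCell 0 536870912 536870912 536870912 587336777 62277027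
    (rowNE 3 eng mog cd0q0 cd7q1 pd1 0 false true false .pnn 0 1 1 (qsf 0 536870912 536870912 536870912 1) ndB0q0 ndB7q1 pcB1 cut_pm_011_s Ext.none)

def k0_pm_011_s : ∃ t, chk3 f_pm_011_s t 1 1 1 = true :=
  ⟨(l 4), by decide +kernel⟩

theorem c_pm_011_s : CertNE 0 536870912 536870912 536870912 587336777 62277027 3 eng mog cd0q0 cd7q1 pd1 false true false .pnn 0 1 1
    ndB0q0 ndB7q1 pcB1 cut_pm_011_s Ext.none :=
  certNE0 (fam := false) (s1 := true) (s2 := false) (a := 0) (b := 1) (c := 1) (cn := .pnn) (n1 := ndB0q0) (n2 := ndB7q1) (pc := pcB1) (cut := cut_pm_011_s) (xt := Ext.none) (P1 := 0) (W1 := 536870912) (P2 := 536870912) (W2 := 536870912) (P3 := 587336777) (W3 := 62277027) (N0 := 3) (En := eng) (mo := mog) (C1 := cd0q0) (C2 := cd7q1) (C3 := pd1)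
    rfl k0_pm_011_s

noncomputable def cut_pm_012_s : Cut := Cut.of [[⟨4, 0, 0, 1449551462⟩]]

noncomputable def f_pm_012_s : ℕ → ℕ → ℕ → ℕ → Bool := onCell 0 536870912 1073741824 536870912 587336777 62277027
    (rowNE 3 eng mog cd0q0 cd7q2 pd1 0 false true false .pnp 0 1 2 (qsf 0 536870912 1073741824 536870912 1) ndB0q0 ndB7q2 pcB1 cut_pm_012_s Ext.none)

def k0_pm_012_s : ∃ t, chk3 f_pm_012_s t 1 1 1 = true :=
  ⟨(l 4), by decide +kernel⟩

theorem c_pm_012_s : CertNE 0 536870912 1073741824 536870912 587336777 62277027 3 eng mog cd0q0 cd7q2 pd1 false true false .pnp 0 1 2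
    ndB0q0 ndB7q2 pcB1 cut_pm_012_s Ext.none :=
  certNE0 (fam := false) (s1 := true) (s2 := false) (a := 0) (b := 1) (c := 2) (cn := .pnp) (n1 := ndB0q0) (n2 := ndB7q2) (pc := pcB1) (cut := cut_pm_012_s) (xt := Ext.none) (P1 := 0) (W1 := 536870912) (P2 := 1073741824) (W2 := 536870912) (P3 := 587336777) (W3 := 62277027) (N0 := 3) (En := eng) (mo := mog) (C1 := cd0q0) (C2 := cd7q2) (C3 := pd1)
    rfl k0_pm_012_s

noncomputable def cut_pm_022_s : Cut := Cut.of [[⟨4, 0, 0, 1449551462⟩]]

noncomputable def f_pm_022_s : ℕ → ℕ → ℕ → ℕ → Bool := onCell 0 536870912 1073741824 536870912 587336777 62277027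
    (rowNE 3 eng mog cd0q0 cd7q2 pd2 0 false true false .pp 0 2 2 (qsf 0 536870912 1073741824 536870912 2) ndB0q0 ndB7q2 pcB2 cut_pm_022_s Ext.none)

def k0_pm_022_s : ∃ t, chk3 f_pm_022_s t 1 1 1 = true :=
  ⟨(l 4), by decide +kernel⟩

theorem c_pm_022_s : CertNE 0 536870912 1073741824 536870912 587336777 62277027 3 eng mog cd0q0 cd7q2 pd2 false true false .pp 0 2 2
    ndB0q0 ndB7q2 pcB2 cut_pm_022_s Ext.none :=
  certNE0 (fam := false) (s1 := true) (s2 := false) (a := 0) (b := 2) (c := 2) (cn := .pp) (n1 := ndB0q0) (n2 := ndB7q2) (pc := pcB2) (cut := cut_pm_022_s) (xt := Ext.none) (P1 := 0) (W1 := 536870912) (P2 := 1073741824) (W2 := 536870912) (P3 := 587336777) (W3 := 62277027) (N0 := 3) (En := eng) (mo := mog) (C1 := cd0q0) (C2 := cd7q2) (C3 := pd2)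
    rfl k0_pm_022_s

noncomputable def cut_pm_023_s : Cut := Cut.of [[⟨4, 0, 0, 1449551462⟩]]

noncomputable def f_pm_023_s : ℕ → ℕ → ℕ → ℕ → Bool := onCell 0 536870912 0 1230186008 587336777 62277027
    (rowNE 3 eng mog cd0q0 cd7q3 pd2 0 false true false .up 0 2 3 (qsf 0 536870912 0 1230186008 2) ndB0q0 ndB7q3 pcB2 cut_pm_023_s Ext.none)

def k0_pm_023_s : ∃ t, chk3 f_pm_023_s t 1 1 1 = true :=
  ⟨(l 6), by decide +kernel⟩

theorem c_pm_023_s : CertNE 0 536870912 0 1230186008 587336777 62277027 3 eng mog cd0q0 cd7q3 pd2 false true false .up 0 2 3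
    ndB0q0 ndB7q3 pcB2 cut_pm_023_s Ext.none :=
  certNE0 (fam := false) (s1 := true) (s2 := false) (a := 0) (b := 2) (c := 3) (cn := .up) (n1 := ndB0q0) (n2 := ndB7q3) (pc := pcB2) (cut := cut_pm_023_s) (xt := Ext.none) (P1 := 0) (W1 := 536870912) (P2 := 0) (W2 := 1230186008) (P3 := 587336777) (W3 := 62277027) (N0 := 3) (En := eng) (mo := mog) (C1 := cd0q0) (C2 := cd7q3) (C3 := pd2)
    rfl k0_pm_023_s

noncomputable def cut_pm_033_s : Cut := Cut.of [[⟨4, 0, 0, 1449551462⟩]]

noncomputable def f_pm_033_s : ℕ → ℕ → ℕ → ℕ → Bool := onCell 0 536870912 0 1230186008 587336777 62277027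
    (rowNE 3 eng mog cd0q0 cd7q3 pd3 0 false true false .pnn 0 3 3 (qsf 0 536870912 0 1230186008 3) ndB0q0 ndB7q3 pcB3 cut_pm_033_s Ext.none)

def k0_pm_033_s : ∃ t, chk3 f_pm_033_s t 1 1 1 = true :=
  ⟨(l 6), by decide +kernel⟩

theorem c_pm_033_s : CertNE 0 536870912 0 1230186008 587336777 62277027 3 eng mog cd0q0 cd7q3 pd3 false true false .pnn 0 3 3
    ndB0q0 ndB7q3 pcB3 cut_pm_033_s Ext.none :=
  certNE0 (fam := false) (s1 := true) (s2 := false) (a := 0) (b := 3) (c := 3) (cn := .pnn) (n1 := ndB0q0) (n2 := ndB7q3) (pc := pcB3) (cut := cut_pm_033_s) (xt := Ext.none) (P1 := 0) (W1 := 536870912) (P2 := 0) (W2 := 1230186008) (P3 := 587336777) (W3 := 62277027) (N0 := 3) (En := eng) (mo := mog) (C1 := cd0q0) (C2 := cd7q3) (C3 := pd3)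
    rfl k0_pm_033_s

noncomputable def cut_pm_101_s : Cut := Cut.of [[⟨4, 0, 0, 1449551462⟩]]

noncomputable def f_pm_101_s : ℕ → ℕ → ℕ → ℕ → Bool := onCell 536870912 536870912 536870912 536870912 587336777 62277027
    (rowNE 3 eng mog cd0q1 cd7q1 pd0 0 false true false .npn 1 0 1 (qsf 536870912 536870912 536870912 536870912 0) ndB0q1 ndB7q1 pcB0 cut_pm_101_s Ext.none)

def k0_pm_101_s : ∃ t, chk3 f_pm_101_s t 1 1 1 = true :=
  ⟨(l 4), by decide +kernel⟩

theorem c_pm_101_s : CertNE 536870912 536870912 536870912 536870912 587336777 62277027 3 eng mog cd0q1 cd7q1 pd0 false true false .npn 1 0 1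
    ndB0q1 ndB7q1 pcB0 cut_pm_101_s Ext.none :=
  certNE0 (fam := false) (s1 := true) (s2 := false) (a := 1) (b := 0) (c := 1) (cn := .npn) (n1 := ndB0q1) (n2 := ndB7q1) (pc := pcB0) (cut := cut_pm_101_s) (xt := Ext.none) (P1 := 536870912) (W1 := 536870912) (P2 := 536870912) (W2 := 536870912) (P3 := 587336777) (W3 := 62277027) (N0 := 3) (En := eng) (mo := mog) (C1 := cd0q1) (C2 := cd7q1) (C3 := pd0)
    rfl k0_pm_101_s

noncomputable def cut_pm_102_s : Cut := Cut.of [[⟨4, 0, 0, 1449551462⟩]]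

noncomputable def f_pm_102_s : ℕ → ℕ → ℕ → ℕ → Bool := onCell 536870912 536870912 1073741824 536870912 587336777 62277027
    (rowNE 3 eng mog cd0q1 cd7q2 pd0 0 false true false .npp 1 0 2 (qsf 536870912 536870912 1073741824 536870912 0) ndB0q1 ndB7q2 pcB0 cut_pm_102_s Ext.none)

def k0_pm_102_s : ∃ t, chk3 f_pm_102_s t 1 1 1 = true :=
  ⟨(l 6), by decide +kernel⟩

theorem c_pm_102_s : CertNE 536870912 536870912 1073741824 536870912 587336777 62277027 3 eng mog cd0q1 cd7q2 pd0 false true false .npp 1 0 2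
    ndB0q1 ndB7q2 pcB0 cut_pm_102_s Ext.none :=
  certNE0 (fam := false) (s1 := true) (s2 := false) (a := 1) (b := 0) (c := 2) (cn := .npp) (n1 := ndB0q1) (n2 := ndB7q2) (pc := pcB0) (cut := cut_pm_102_s) (xt := Ext.none) (P1 := 536870912) (W1 := 536870912) (P2 := 1073741824) (W2 := 536870912) (P3 := 587336777) (W3 := 62277027) (N0 := 3) (En := eng) (mo := mog) (C1 := cd0q1) (C2 := cd7q2) (C3 := pd0)
    rfl k0_pm_102_s

noncomputable def cut_pm_112_s : Cut := Cut.of [[⟨4, 0, 0, 1449551462⟩]]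

noncomputable def f_pm_112_s : ℕ → ℕ → ℕ → ℕ → Bool := onCell 536870912 536870912 1073741824 536870912 587336777 62277027
    (rowNE 3 eng mog cd0q1 cd7q2 pd1 0 false true false .dn 1 1 2 (qsf 536870912 536870912 1073741824 536870912 1) ndB0q1 ndB7q2 pcB1 cut_pm_112_s Ext.none)

def k0_pm_112_s : ∃ t, chk3 f_pm_112_s t 1 1 1 = true :=
  ⟨(l 6), by decide +kernel⟩

theorem c_pm_112_s : CertNE 536870912 536870912 1073741824 536870912 587336777 62277027 3 eng mog cd0q1 cd7q2 pd1 false true false .dn 1 1 2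
    ndB0q1 ndB7q2 pcB1 cut_pm_112_s Ext.none :=
  certNE0 (fam := false) (s1 := true) (s2 := false) (a := 1) (b := 1) (c := 2) (cn := .dn) (n1 := ndB0q1) (n2 := ndB7q2) (pc := pcB1) (cut := cut_pm_112_s) (xt := Ext.none) (P1 := 536870912) (W1 := 536870912) (P2 := 1073741824) (W2 := 536870912) (P3 := 587336777) (W3 := 62277027) (N0 := 3) (En := eng) (mo := mog) (C1 := cd0q1) (C2 := cd7q2) (C3 := pd1)
    rfl k0_pm_112_s

noncomputable def cut_pm_113_s : Cut := Cut.of [[⟨4, 0, 0, 1449551462⟩], [⟨0, 1, 0, 67108864⟩, ⟨1, 1, 0, 67108864⟩, ⟨2, 2, 0, 16777216⟩]]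

noncomputable def f_pm_113_s : ℕ → ℕ → ℕ → ℕ → Bool := onCell 536870912 536870912 0 1230186008 587336777 62277027
    (rowNE 3 eng mog cd0q1 cd7q3 pd1 0 false true false .nn 1 1 3 (qsf 536870912 536870912 0 1230186008 1) ndB0q1 ndB7q3 pcB1 cut_pm_113_s Ext.none)

def k0_pm_113_s : ∃ t, chk3 f_pm_113_s t 1 1 1 = true :=
  ⟨(b (a (l 2) (a (l 2) (b (a (l 2) (a (l 2) (b (l 14) (b (l 14) (l 16780448))))) (a (l 6) (b (l 16868368) (l 6)))))) (a (l 6) (l 6))), by decide +kernel⟩

theorem c_pm_113_s : CertNE 536870912 536870912 0 1230186008 587336777 62277027 3 eng mog cd0q1 cd7q3 pd1 false true false .nn 1 1 3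
    ndB0q1 ndB7q3 pcB1 cut_pm_113_s Ext.none :=
  certNE0 (fam := false) (s1 := true) (s2 := false) (a := 1) (b := 1) (c := 3) (cn := .nn) (n1 := ndB0q1) (n2 := ndB7q3) (pc := pcB1) (cut := cut_pm_113_s) (xt := Ext.none) (P1 := 536870912) (W1 := 536870912) (P2 := 0) (W2 := 1230186008) (P3 := 587336777) (W3 := 62277027) (N0 := 3) (En := eng) (mo := mog) (C1 := cd0q1) (C2 := cd7q3) (C3 := pd1)
    rfl k0_pm_113_s

noncomputable def cut_pm_123_s : Cut := Cut.of [[⟨4, 0, 0, 1449551462⟩], [⟨0, 1, 0, 67108864⟩, ⟨1, 1, 0, 67108864⟩, ⟨2, 2, 0, 16777216⟩]]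

noncomputable def f_pm_123_s : ℕ → ℕ → ℕ → ℕ → Bool := onCell 1073741824 536870912 0 1230186008 587336777 62277027
    (rowNE 3 eng mog cd0q1 cd7q3 pd2 2 false true false .npn 1 2 3 (qsf 536870912 536870912 0 1230186008 2) ndB0q1 ndB7q3 pcB2 cut_pm_123_s Ext.none)

def k0_pm_123_s : ∃ t, chk3 f_pm_123_s t 1 1 1 = true :=
  ⟨(b (a (b (b (a (a (a (l 14) (b (l 16759592) (l 16752848))) (a (l 16739928) (l 16720104))) (l 6)) (a (a (a (l 16762912) (l 16744208)) (l 6)) (l 6))) (b (l 6) (l 6))) (l 6)) (l 6)), by decide +kernel⟩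

theorem c_pm_123_s : CertNE 536870912 536870912 0 1230186008 587336777 62277027 3 eng mog cd0q1 cd7q3 pd2 false true false .npn 1 2 3
    ndB0q1 ndB7q3 pcB2 cut_pm_123_s Ext.none :=
  certNE2 (fam := false) (s1 := true) (s2 := false) (a := 1) (b := 2) (c := 3) (cn := .npn) (n1 := ndB0q1) (n2 := ndB7q3) (pc := pcB2) (cut := cut_pm_123_s) (xt := Ext.none) (P1 := 536870912) (W1 := 536870912) (P2 := 0) (W2 := 1230186008) (P3 := 587336777) (W3 := 62277027) (N0 := 3) (En := eng) (mo := mog) (C1 := cd0q1) (C2 := cd7q3) (C3 := pd2)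
    rfl (fun _ => rfl) k0_pm_123_s

noncomputable def cut_pm_133_s : Cut := Cut.of [[⟨4, 0, 0, 1449551462⟩]]

noncomputable def f_pm_133_s : ℕ → ℕ → ℕ → ℕ → Bool := onCell 1610612736 536870912 0 1230186008 587336777 62277027
    (rowNE 3 eng mog cd0q1 cd7q3 pd3 2 false true false .dn 1 3 3 (qsf 536870912 536870912 0 1230186008 3) ndB0q1 ndB7q3 pcB3 cut_pm_133_s Ext.none)

def k0_pm_133_s : ∃ t, chk3 f_pm_133_s t 1 1 1 = true :=
  ⟨(l 6), by decide +kernel⟩

theorem c_pm_133_s : CertNE 536870912 536870912 0 1230186008 587336777 62277027 3 eng mog cd0q1 cd7q3 pd3 false true false .dn 1 3 3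
    ndB0q1 ndB7q3 pcB3 cut_pm_133_s Ext.none :=
  certNE2 (fam := false) (s1 := true) (s2 := false) (a := 1) (b := 3) (c := 3) (cn := .dn) (n1 := ndB0q1) (n2 := ndB7q3) (pc := pcB3) (cut := cut_pm_133_s) (xt := Ext.none) (P1 := 536870912) (W1 := 536870912) (P2 := 0) (W2 := 1230186008) (P3 := 587336777) (W3 := 62277027) (N0 := 3) (En := eng) (mo := mog) (C1 := cd0q1) (C2 := cd7q3) (C3 := pd3)
    rfl (fun _ => rfl) k0_pm_133_s

noncomputable def cut_pm_202_s : Cut := Cut.of [[⟨4, 0, 0, 1449551462⟩]]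

noncomputable def f_pm_202_s : ℕ → ℕ → ℕ → ℕ → Bool := onCell 0 536870912 1073741824 536870912 587336777 62277027
    (rowNE 3 eng mog cd0q2 cd7q2 pd0 0 false true false .pp 2 0 2 (qsf 0 536870912 1073741824 536870912 0) ndB0q2 ndB7q2 pcB0 cut_pm_202_s Ext.none)

def k0_pm_202_s : ∃ t, chk3 f_pm_202_s t 1 1 1 = true :=
  ⟨(a (b (l 6) (a (l 6) (l 6))) (l 6)), by decide +kernel⟩

theorem c_pm_202_s : CertNE 0 536870912 1073741824 536870912 587336777 62277027 3 eng mog cd0q2 cd7q2 pd0 false true false .pp 2 0 2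
    ndB0q2 ndB7q2 pcB0 cut_pm_202_s Ext.none :=
  certNE0 (fam := false) (s1 := true) (s2 := false) (a := 2) (b := 0) (c := 2) (cn := .pp) (n1 := ndB0q2) (n2 := ndB7q2) (pc := pcB0) (cut := cut_pm_202_s) (xt := Ext.none) (P1 := 0) (W1 := 536870912) (P2 := 1073741824) (W2 := 536870912) (P3 := 587336777) (W3 := 62277027) (N0 := 3) (En := eng) (mo := mog) (C1 := cd0q2) (C2 := cd7q2) (C3 := pd0)
    rfl k0_pm_202_s

noncomputable def cut_pm_203_s : Cut := Cut.of [[⟨4, 0, 0, 1449551462⟩]]

noncomputable def f_pm_203_s : ℕ → ℕ → ℕ → ℕ → Bool := onCell 0 536870912 0 1230186008 587336777 62277027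
    (rowNE 3 eng mog cd0q2 cd7q3 pd0 0 false true false .up 2 0 3 (qsf 0 536870912 0 1230186008 0) ndB0q2 ndB7q3 pcB0 cut_pm_203_s Ext.none)

def k0_pm_203_s : ∃ t, chk3 f_pm_203_s t 1 1 1 = true :=
  ⟨(b (l 2) (b (l 2) (a (b (b (l 2) (a (b (l 2) (a (a (l 16785984) (l 16790928)) (l 16806048))) (l 228271254631))) (a (b (a (b (a (l 16779288) (l 16783656)) (l 16773384)) (l 16784976)) (a (b (l 16750608) (l 16732648)) (l 6))) (l 6))) (l 6)))), by decide +kernel⟩

theorem c_pm_203_s : CertNE 0 536870912 0 1230186008 587336777 62277027 3 eng mog cd0q2 cd7q3 pd0 false true false .up 2 0 3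
    ndB0q2 ndB7q3 pcB0 cut_pm_203_s Ext.none :=
  certNE0 (fam := false) (s1 := true) (s2 := false) (a := 2) (b := 0) (c := 3) (cn := .up) (n1 := ndB0q2) (n2 := ndB7q3) (pc := pcB0) (cut := cut_pm_203_s) (xt := Ext.none) (P1 := 0) (W1 := 536870912) (P2 := 0) (W2 := 1230186008) (P3 := 587336777) (W3 := 62277027) (N0 := 3) (En := eng) (mo := mog) (C1 := cd0q2) (C2 := cd7q3) (C3 := pd0)
    rfl k0_pm_203_s

noncomputable def cut_pm_213_s : Cut := Cut.of [[⟨4, 0, 0, 1449551462⟩], [⟨0, 1, 0, 67108864⟩, ⟨1, 1, 0, 67108864⟩, ⟨2, 2, 0, 16777216⟩]]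

noncomputable def f_pm_213_s : ℕ → ℕ → ℕ → ℕ → Bool := onCell 0 536870912 0 1230186008 587336777 62277027
    (rowNE 3 eng mog cd0q2 cd7q3 pd1 0 false true false .pnn 2 1 3 (qsf 0 536870912 0 1230186008 1) ndB0q2 ndB7q3 pcB1 cut_pm_213_s Ext.none)

def k0_pm_213_s : ∃ t, chk3 f_pm_213_s t 2 2 1 = true :=
  ⟨(b (l 3) (a (l 3) (b (l 3) (a (b (l 3) (a (l 3) (b (l 3) (a (l 3) (b (l 3) (l 309405412135)))))) (b (a (l 3) (b (a (l 3) (b (l 3) (a (l 3) (l 314237251719)))) (a (b (l 3) (a (l 3) (l 284709361975))) (b (a (b (l 3) (l 290614934135)) (b (l 283635613287) (l 16779208))) (a (b (l 258939551335) (l 16777096)) (l 16777288)))))) (a (b (a (l 3) (b (l 307257927943) (a (l 292762416647) (b (l 269140098439) (l 16776648))))) (a (b (a (l 3) (l 283098752039)) (a (b (l 285783096311) (l 235317237863)) (l 16775936))) (b (a (b (l 242296559079) (l 16776152)) (l 16775712)) (l 16774520)))) (b (a (b (a (b (l 284709354151) (l 254644583671)) (l 231022272407)) (l 16776120)) (l 16776376)) (a (l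 16774168) (l 16773584))))))))), by decide +kernel⟩

def k1_pm_213_s : ∃ t, chk3 f_pm_213_s t 3 8 1 = true :=
  ⟨(a (l 3) (a (a (l 3) (l 14)) (l 14))), by decide +kernel⟩

def k2_pm_213_s : ∃ t, chk3 f_pm_213_s t 12 9 1 = true :=
  ⟨(l 3), by decide +kernel⟩

def k3_pm_213_s : ∃ t, chk3 f_pm_213_s t 13 18 1 = true :=
  ⟨(l 3), by decide +kernel⟩

def k4_pm_213_s : ∃ t, chk3 f_pm_213_s t 26 19 1 = true :=
  ⟨(l 3), by decide +kernel⟩

def k5_pm_213_s : ∃ t, chk3 f_pm_213_s t 27 19 1 = true :=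
  ⟨(b (a (l 3) (b (l 3) (a (l 3) (b (a (l 3) (b (l 3) (a (l 3) (b (l 3) (l 314774126263))))) (a (b (l 3) (a (l 3) (b (l 322290318935) (c (l 300278611959) (l 302426096887))))) (b (a (b (l 3) (c (l 306184191863) (l 308868546375))) (b (l 298131129719) (l 16777408))) (a (b (l 287393710311) (l 16777464)) (l 16777632)))))))) (a (b (l 3) (a (b (l 3) (a (l 3) (b (l 3) (a (l 3) (b (c (l 317458480727) (l 318532223815)) (c (l 301889226023) (a (l 311552901607) (l 287393710263)))))))) (b (a (a (l 3) (a (l 3) (b (l 3) (b (l 3) (l 310479160439))))) (b (a (l 325511545367) (a (b (l 3) (a (l 306721062839) (l 287393710183))) (b (l 305647322327) (l 16777352)))) (a (b (c (l 304573579191) (a (l 316921609959) (l 300278612055))) (c (l 287930581255) (l 289004323127))) (l 16777528)))) (a (b (a (b (l 3) (c (l 307794804583) (a (l 322827189895) (l 303499838087)))) (b (c (l 299204870247) (a (l 307257934391) (l 289541193959))) (l 290614936535))) (a (b (c (l 286319968471) (a (l 300815483655) (l 16777400)))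 (l 16777488)) (l 16777664))) (l 16777896))))) (b (a (b (a (l 3) (b (a (l 3) (l 327659027719)) (a (b (l 3) (c (l 314774126279) (l 316921609863))) (b (a (l 315847868167) (l 297594257511)) (l 289004323095))))) (a (b (a (l 3) (a (l 326048415159) (b (l 3) (l 301889224695)))) (a (b (l 321216577095) (a (l 310479159127) (l 288467452071))) (a (b (l 298668000647) (l 16777416)) (l 16777464)))) (a (b (a (b (l 305647321015) (l 16777352)) (l 292762420311)) (l 16777648)) (l 16777744)))) (b (a (b (a (c (l 301889227287) (b (l 312626642663) (l 298131128487))) (l 290078066103)) (l 16777640)) (l 16777976)) (l 16778368))) (a (b (a (b (a (b (l 293299291143) (l 16777544)) (l 16777720)) (l 16777920)) (l 16778272)) (l 16778680)) (l 16779400))))), by decide +kernel⟩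

def k6_pm_213_s : ∃ t, chk3 f_pm_213_s t 14 9 1 = true :=
  ⟨(b (a (b (l 3) (a (b (l 3) (a (l 3) (b (l 3) (a (l 3) (b (l 3) (a (l 3) (b (l 315310997159) (l 295446773799)))))))) (b (a (b (l 3) (a (l 3) (l 335712090567))) (b (a (l 3) (b (a (l 3) (l 319605964263)) (a (l 309942288007) (l 286856839383)))) (a (b (a (l 3) (l 303499839831)) (a (l 298131130839) (l 16777376))) (b (l 282025001367) (l 16777616))))) (a (b (a (b (l 3) (a (l 3) (l 314237255223))) (b (a (l 324437802391) (l 294373034567)) (a (l 291151806663) (l 16777472)))) (a (b (a (b (l 329269640711) (l 300815482791)) (l 288467452183)) (l 286856841511)) (l 16777736))) (b (a (l 16777624) (l 16777960)) (l 16778272)))))) (a (a (b (b (l 3) (b (a (l 3) (a (l 3) (l 14))) (a (b (l 3) (a (l 329269640519) (l 294909902775))) (b (a (l 298668001703) (l 14)) (l 16777432))))) (b (b (a (b (a (l 290078064743) (l 16777400)) (l 16777520)) (l 16777704)) (l 16777968)) (l 16778696))) (b (l 14) (l 16778840))) (l 14))) (b (a (a (b (a (b (l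 3) (a (l 3) (b (a (l 3) (b (l 333027737047) (l 305110450055))) (a (b (l 321753448055) (l 299204870135)) (l 286856839527))))) (b (a (b (l 330880252919) (a (l 317458480647) (b (l 300278611911) (l 290078065735)))) (b (a (b (l 306721062727) (l 291151806663)) (l 16777432)) (l 16777592))) (a (b (a (b (l 295446773879) (l 16777400)) (l 16777544)) (l 16777712)) (l 16778000)))) (a (b (a (b (a (l 329806511399) (b (l 309942288167) (l 294909903031))) (a (b (l 302962967783) (l 287930581271)) (l 16777504))) (b (l 287930583079) (l 16777848))) (l 16778064)) (l 16778688))) (b (a (l 16778344) (l 16779112)) (l 16779968))) (a (l 16781000) (l 16781528))) (a (a (l 16780272) (l 16782200)) (l 16803168)))), by decide +kernel⟩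

def k7_pm_213_s : ∃ t, chk3 f_pm_213_s t 15 9 1 = true :=
  ⟨(b (a (a (l 14) (l 14)) (b (l 14) (l 16780976))) (a (l 16783800) (l 16785736))), by decide +kernel⟩

def k8_pm_213_s : ∃ t, chk3 f_pm_213_s t 12 10 1 = true :=
  ⟨(b (a (l 3) (b (l 3) (a (l 3) (b (l 3) (a (l 3) (b (l 3) (a (l 3) (b (l 3) (a (l 323364060375) (b (c (l 307794804503) (l 308868546327)) (c (l 279340646535) (l 279877517447)))))))))))) (a (b (l 3) (a (l 3) (b (a (l 3) (b (l 3) (l 322827187895))) (a (b (l 3) (l 300815481623)) (b (a (l 301889223815) (l 274508808279)) (l 252497105191)))))) (b (a (b (l 3) (a (l 3) (b (a (l 3) (b (l 3) (l 307257933191))) (a (b (l 323900930823) (l 301352353639)) (b (l 277730033735) (l 16777488)))))) (b (a (b (l 3) (a (l 324974674855) (b (a (l 324974672967) (l 304573580487)) (a (l 279877517287) (l 16777424))))) (b (a (b (a (l 3) (b (l 3) (l 308868546263))) (a (l 307794805719) (b (l 279877517399) (l 16777392)))) (b (a (b (c (l 302962966503) (l 304573579223)) (l 268603228983))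 (l 16777472)) (l 16777616))) (a (b (l 265918875511) (l 16777696)) (l 16777984)))) (a (b (a (b (a (l 307794804295) (l 277730033783)) (l 262697650007)) (l 16777664)) (l 16777896)) (l 16778480)))) (a (b (a (b (a (l 324974671927) (l 300278614375)) (a (l 278803775319) (l 16777512))) (b (a (l 258939554679) (l 16777768)) (l 16777944))) (a (l 16777824) (l 16778440))) (b (l 16778880) (l 16779632)))))), by decide +kernel⟩

def k9_pm_213_s : ∃ t, chk3 f_pm_213_s t 52 40 1 = true :=
  ⟨(l 3), by decide +kernel⟩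

def k10_pm_213_s : ∃ t, chk3 f_pm_213_s t 53 80 1 = true :=
  ⟨(a (l 3) (b (l 3) (a (l 3) (b (a (l 3) (b (l 3) (c (a (l 317458480839) (l 302426095655)) (a (l 318532222631) (b (l 309405417399) (l 285783097479)))))) (a (a (b (l 3) (a (l 315847868839) (b (l 316921610087) (l 284172484679)))) (b (c (l 313700384551) (b (l 3) (l 312089771911))) (c (l 283635613863) (b (l 284172484711) (l 16777344))))) (a (b (a (b (l 309942288327) (l 287930581271)) (l 287393710487)) (l 16777424)) (l 16777472))))))), by decide +kernel⟩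

def k11_pm_213_s : ∃ t, chk3 f_pm_213_s t 53 81 1 = true :=
  ⟨(a (b (a (l 3) (b (l 3) (a (l 3) (a (l 3) (b (l 3) (b (l 316384739095) (a (l 311552901031) (l 283098742855)))))))) (a (b (l 3) (a (l 3) (a (b (l 3) (a (c (l 313700384599) (b (l 3) (c (l 311016030151) (l 311552901063)))) (c (b (l 313163513751) (l 280951259303)) (b (l 314237255575) (l 281488130135))))) (b (b (l 320679706311) (a (l 316384739175) (b (l 309405417447) (l 283635613879)))) (c (l 280951259319) (b (c (l 280951259255) (l 282025001079)) (l 16777352))))))) (b (a (b (c (l 321216576967) (a (l 3) (l 320142835303))) (c (a (l 315310997223) (b (l 306721062887) (l 281488130263))) (a (b (l 3) (c (l 314774126423) (l 315310997335))) (b (a (l 315310997383) (l 282025001015)) (l 283098742935))))) (b (a (a (b (l 3) (a (l 308868546535) (l 282561871927))) (c (l 281488130103) (b (l 309405417447) (l 16777288)))) (c (l 282025001271) (l 284709355815))) (l 16777424))) (a (a (b (b (a (b (l 313700384695) (l 281488130087)) (l 284172484839))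 (l 16777312)) (l 16777432)) (l 16777472)) (l 16777656))))) (b (a (b (a (b (l 3) (c (l 317995351575) (a (l 3) (l 317458481479)))) (a (b (l 321753448023) (a (b (l 315847868263) (l 283635613767)) (a (b (l 306184192007) (l 16777296)) (l 286856839559)))) (b (a (b (l 3) (l 306184192647)) (b (l 309405417415) (l 286856839415))) (l 16777360)))) (a (b (c (a (l 313163513655) (l 282561871991)) (a (a (l 321753448119) (b (l 3) (l 306721062919))) (a (b (l 309942288343) (l 16777280)) (l 285783097607)))) (c (l 282561872167) (a (b (c (l 282561871975) (l 283098742903)) (l 16777344)) (l 16777440)))) (l 16777536))) (b (a (b (c (l 284172485111) (a (l 282025000711) (l 16777472))) (l 16777552)) (l 16777728)) (l 16777920))) (a (l 16777880) (l 16778408)))), by decide +kernel⟩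

def k12_pm_213_s : ∃ t, chk3 f_pm_213_s t 104 82 1 = true :=
  ⟨(b (l 3) (a (l 3) (b (l 3) (a (l 3) (a (l 3) (b (l 3) (c (l 317995351655) (b (l 3) (c (l 317458480871) (l 317995351767)))))))))), by decide +kernel⟩

def k13_pm_213_s : ∃ t, chk3 f_pm_213_s t 105 164 1 = true :=
  ⟨(a (l 3) (b (a (l 3) (a (l 3) (b (l 3) (a (l 3) (b (l 3) (a (l 313700384679) (b (l 313163513799) (l 282561872007)))))))) (a (b (l 3) (c (a (l 320142835271) (b (l 313700384599) (a (l 308331675639) (l 278803775639)))) (a (l 320679706167) (a (b (l 3) (b (l 314774126503) (l 279340646423))) (b (a (l 316921610119) (l 311016030183)) (l 280414388359)))))) (a (b (c (b (l 319605964519) (c (l 307794804711) (l 308868547191))) (b (l 318532222679) (a (l 315310997367) (b (l 308331675655) (l 280951259239))))) (c (l 278803775687) (b (c (l 279340646535) (l 279877517447)) (l 16777360)))) (b (b (a (b (a (l 319605964711) (l 307794804743)) (l 280951259191)) (l 280414388471)) (l 16777320)) (l 16777432)))))), by decide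 +kernel⟩

def k14_pm_213_s : ∃ t, chk3 f_pm_213_s t 105 165 1 = true :=
  ⟨(a (b (a (l 3) (b (a (l 3) (c (l 316384738999) (b (l 3) (c (l 315847868199) (a (l 3) (l 315310997399)))))) (b (a (l 3) (a (a (l 314774126487) (b (l 314774126519) (l 280951259255))) (c (l 278803775655) (l 279340646487)))) (a (a (l 319069093687) (c (l 307794804743) (b (l 314237255623) (l 279340646439)))) (c (l 277193162967) (l 279340646615)))))) (a (a (b (l 3) (a (b (l 3) (a (b (l 316921610151) (l 278803775511)) (a (b (l 312089772023) (l 16777248)) (l 280414388407)))) (b (b (l 315310997415) (a (l 311552901111) (l 280414388359))) (l 277730033911)))) (a (b (b (l 3) (a (l 316921610103) (b (l 319069093783) (a (l 309405417479) (l 279877517383))))) (c (l 277193162999) (b (l 278803775623) (l 16777336)))) (b (b (c (l 315310997367) (l 316384739175)) (a (b (l 309942288391) (l 16777248)) (l 279877517527))) (l 16777352)))) (b (a (a (b (b (a (l 314237255623) (l 279340646423)) (l 280414388423)) (l 16777304)) (l 16777320))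 (l 16777408)) (l 16777488)))) (b (a (b (a (a (a (b (l 3) (b (l 311016030183) (l 16777240))) (b (l 315310997383) (l 280951259335))) (b (b (a (l 315847868343) (l 279877517319)) (l 280951259271)) (l 16777296))) (c (l 16777344) (l 16777352))) (l 16777432)) (l 16777592)) (l 16777760))), by decide +kernel⟩

def k15_pm_213_s : ∃ t, chk3 f_pm_213_s t 52 83 1 = true :=
  ⟨(a (b (a (b (l 3) (a (l 3) (b (l 3) (a (l 322290318983) (b (l 308331675559) (l 281488130135)))))) (b (a (b (l 3) (a (l 3) (a (l 322290319063) (c (l 307257933735) (b (l 324437802791) (l 282025000983)))))) (b (a (a (l 3) (c (l 311016030023) (b (l 3) (c (l 308868546487) (l 309405417399))))) (a (c (b (l 311016030087) (l 280951259207)) (b (l 312089771911) (l 282025001031))) (b (b (a (l 311552901079) (l 279340646519)) (l 275582550215)) (l 16777304)))) (a (b (a (b (l 310479159223) (l 282561871895)) (l 273435066631)) (l 16777304)) (l 16777376)))) (a (b (a (b (l 311552900919) (a (l 307257933783) (l 282561872119))) (c (l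 279340646567) (l 280951259319))) (c (l 16777384) (l 16777384))) (l 16777528)))) (a (b (a (a (b (l 3) (l 307794804599)) (b (l 310479159047) (l 280951259271))) (a (b (a (l 302962966535) (l 281488130471)) (l 16777384)) (l 16777424))) (a (b (l 269676970775) (l 16777488)) (l 16777632))) (l 16777824))) (b (a (a (b (c (l 16777472) (l 16777480)) (l 16777752)) (l 16777840)) (l 16778192)) (l 16778512))), by decide +kernel⟩

def k16_pm_213_s : ∃ t, chk3 f_pm_213_s t 53 41 1 = true :=
  ⟨(b (a (b (a (b (b (a (b (a (l 3) (a (l 319605964599) (b (l 312626642887) (l 281488130087)))) (c (a (l 316384739095) (l 280414388311)) (a (l 317458480903) (a (a (l 308331675655) (l 281488130119)) (l 16777288))))) (c (l 277193163239) (a (l 282561872183) (l 16777472)))) (a (a (b (a (c (l 312089771943) (l 313700384679)) (c (l 280414388295) (l 280951259207))) (c (l 279877517543) (l 281488130247))) (l 16777368)) (l 16777552))) (l 16777648)) (l 16777992)) (l 16778344)) (l 16779112)) (l 16779792)), by decide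 +kernel⟩

def k17_pm_213_s : ∃ t, chk3 f_pm_213_s t 27 20 1 = true :=
  ⟨(b (a (b (a (b (a (b (a (l 3) (c (l 322827189543) (l 324437803511))) (a (b (l 3) (c (l 313700384439) (a (l 3) (b (l 322827189991) (l 307257933799))))) (b (c (a (l 314237255447) (l 284709355623)) (a (l 315310997239) (b (l 304573579271) (l 283635613479)))) (c (l 285783097623) (a (b (l 285246226535) (l 16777344)) (l 16777440)))))) (b (a (a (b (l 3) (b (l 308331675559) (l 286319968375))) (b (b (l 313700384583) (l 301352354503)) (l 16777360))) (b (c (l 287930581575) (l 289004323191)) (l 16777552))) (a (l 16777536) (l 16777808)))) (a (b (a (b (a (b (l 313163513687) (a (l 306721062887) (l 288467452183))) (a (l 286856839335) (l 16777360))) (c (l 16777416) (l 16777440))) (l 16777600)) (l 16777800)) (l 16778176))) (l 16778664)) (l 16779456)) (l 16781096)) (a (l 16781376) (l 16783776))), by decide +kernel⟩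

def k18_pm_213_s : ∃ t, chk3 f_pm_213_s t 13 21 1 = true :=
  ⟨(a (b (a (b (a (l 16778392) (l 16779344)) (l 16779856)) (l 16781304)) (a (l 16780896) (l 16783440))) (b (a (l 16783872) (l 16785800)) (l 16786416))), by decide +kernel⟩

def k19_pm_213_s : ∃ t, chk3 f_pm_213_s t 6 11 1 = true :=
  ⟨(a (b (a (b (a (b (a (l 3) (b (l 321216574951) (a (l 298667998215) (l 269676969895)))) (a (b (l 295983643303) (a (l 269676969575) (l 16777304))) (b (l 243907170695) (l 16777480)))) (b (a (b (l 272898200615) (l 16777488)) (l 16777808)) (l 16777960))) (a (b (l 16777528) (l 16777744)) (l 16778032))) (b (a (l 16778984) (l 16780360)) (a (l 16779872) (l 16781240)))) (a (b (a (l 16776336) (l 16778848)) (l 16802256)) (l 16780448))) (b (a (b (l 16833592) (l 16784408)) (l 16789056)) (a (l 16783848) (l 16790880)))), by decide +kernel⟩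

def k20_pm_213_s : ∃ t, chk3 f_pm_213_s t 7 5 1 = true :=
  ⟨(b (a (b (a (a (b (l 16783144) (l 16785256)) (l 16846976)) (l 16787352)) (a (l 16789440) (l 16792208))) (b (a (l 16789552) (l 16791944)) (l 16797040))) (a (b (l 16796408) (l 16808144)) (b (l 6) (l 6)))), by decide +kernel⟩

def k21_pm_213_s : ∃ t, chk3 f_pm_213_s t 2 6 1 = true :=
  ⟨(b (a (b (l 3) (a (l 3) (a (l 3) (b (a (l 3) (b (l 3) (l 301889221463))) (a (b (l 322290314263) (a (l 300278609927) (l 261087033879))) (b (a (l 277730032951) (l 16781368)) (l 16775384))))))) (b (a (a (b (l 3) (a (l 3) (b (l 301889220503) (a (l 282561870711) (l 234243501703))))) (b (a (b (l 3) (a (l 316384735239) (l 271287581831))) (b (a (l 292762417223) (l 244444050807)) (a (l 218674242679) (l 16774496)))) (a (b (a (l 255181474471) (l 16775232)) (l 16773848)) (l 16772144)))) (a (b (a (b (l 16774648) (l 16772696)) (l 16771080)) (a (l 16748640) (l 16769984))) (b (a (l 16771440) (l 16771648)) (l 16769944)))) (a (a (b (a (b (a (l 306721059831)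 (l 267529485095)) (a (l 240149080727) (l 16775288))) (b (l 205789342151) (l 16773248))) (a (l 16773864) (l 16770936))) (b (a (l 16770896) (l 16748488)) (a (l 16770048) (l 16767984)))) (a (b (l 16795152) (l 16767288)) (l 16767760))))) (a (b (a (a (l 3) (b (l 3) (a (l 3) (b (l 3) (l 289541213639))))) (a (b (a (b (l 3) (l 317458477111)) (b (l 297057405303) (l 234780379991))) (a (b (a (l 290614934631) (l 231022272647)) (l 16776864)) (l 16776232))) (b (a (b (l 224579826215) (l 16775488)) (l 16773680)) (a (l 16774136) (l 16773736))))) (a (b (b (a (l 3) (a (l 307794802119) (l 224042955655))) (a (l 343228277447) (a (l 228874779303) (l 16776920)))) (a (a (b (l 3) (l 293836160087)) (b (a (l 298131127367) (l 225653564743)) (l 16777144))) (a (l 16776936) (l 16775376)))) (a (b (a (l 16775456) (l 16775296)) (b (l 16775560) (l 16773616))) (b (a (l 16774080) (l 16771048)) (l 16769824))))) (b (a (a (b (a (l 16772232) (l 16770600)) (l 16769424)) (l 16766616)) (b (l 16744448) (l 16766552)))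 (a (b (l 16763568) (l 16763096)) (b (l 16765664) (l 16759968)))))), by decide +kernel⟩

def k22_pm_213_s : ∃ t, chk3 f_pm_213_s t 3 6 1 = true :=
  ⟨(a (b (a (b (a (l 16773808) (l 16777640)) (a (l 16772912) (l 16780904))) (b (l 16966824) (l 16788872))) (b (a (l 16768696) (l 6)) (l 6))) (b (l 6) (l 6))), by decide +kernel⟩

def k23_pm_213_s : ∃ t, chk3 f_pm_213_s t 1 7 1 = true :=
  ⟨(a (b (a (b (a (b (a (a (b (l 214379274183) (l 16777088)) (l 16775432)) (a (l 16776328) (l 16775168))) (a (a (l 16774696) (b (l 16775912) (l 16772936))) (l 16771728))) (a (b (l 16771880) (l 16766304)) (b (l 16765736) (l 16763480)))) (b (a (a (l 16769256) (l 16764400)) (l 16959768)) (b (a (l 16759440) (l 16752664)) (l 1)))) (a (b (b (l 16878328) (l 16685680)) (l 16793288)) (l 6))) (a (l 1) (l 6))) (l 6)), by decide +kernel⟩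

theorem s24_pm_213_s : ∃ t, chk3 f_pm_213_s t 1 6 1 = true := ex3_a k21_pm_213_s k22_pm_213_s

theorem s25_pm_213_s : ∃ t, chk3 f_pm_213_s t 1 3 1 = true := ex3_b s24_pm_213_s k23_pm_213_s

theorem s26_pm_213_s : ∃ t, chk3 f_pm_213_s t 105 82 1 = true := ex3_b k13_pm_213_s k14_pm_213_s

theorem s27_pm_213_s : ∃ t, chk3 f_pm_213_s t 52 82 1 = true := ex3_a k12_pm_213_s s26_pm_213_s

theorem s28_pm_213_s : ∃ t, chk3 f_pm_213_s t 52 41 1 = true := ex3_b s27_pm_213_s k15_pm_213_s

theorem s29_pm_213_s : ∃ t, chk3 f_pm_213_s t 26 41 1 = true := ex3_a s28_pm_213_s k16_pm_213_s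

theorem s30_pm_213_s : ∃ t, chk3 f_pm_213_s t 53 40 1 = true := ex3_b k10_pm_213_s k11_pm_213_s

theorem s31_pm_213_s : ∃ t, chk3 f_pm_213_s t 26 40 1 = true := ex3_a k9_pm_213_s s30_pm_213_s

theorem s32_pm_213_s : ∃ t, chk3 f_pm_213_s t 26 20 1 = true := ex3_b s31_pm_213_s s29_pm_213_s

theorem s33_pm_213_s : ∃ t, chk3 f_pm_213_s t 13 20 1 = true := ex3_a s32_pm_213_s k17_pm_213_s

theorem s34_pm_213_s : ∃ t, chk3 f_pm_213_s t 13 10 1 = true := ex3_b s33_pm_213_s k18_pm_213_s

theorem s35_pm_213_s : ∃ t, chk3 f_pm_213_s t 6 10 1 = true := ex3_a k8_pm_213_s s34_pm_213_s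

theorem s36_pm_213_s : ∃ t, chk3 f_pm_213_s t 6 5 1 = true := ex3_b s35_pm_213_s k19_pm_213_s

theorem s37_pm_213_s : ∃ t, chk3 f_pm_213_s t 3 5 1 = true := ex3_a s36_pm_213_s k20_pm_213_s

theorem s38_pm_213_s : ∃ t, chk3 f_pm_213_s t 7 9 1 = true := ex3_a k6_pm_213_s k7_pm_213_s

theorem s39_pm_213_s : ∃ t, chk3 f_pm_213_s t 13 19 1 = true := ex3_a k4_pm_213_s k5_pm_213_s

theorem s40_pm_213_s : ∃ t, chk3 f_pm_213_s t 13 9 1 = true := ex3_b k3_pm_213_s s39_pm_213_s

theorem s41_pm_213_s : ∃ t, chk3 f_pm_213_s t 6 9 1 = true := ex3_a k2_pm_213_s s40_pm_213_s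

theorem s42_pm_213_s : ∃ t, chk3 f_pm_213_s t 3 9 1 = true := ex3_a s41_pm_213_s s38_pm_213_s

theorem s43_pm_213_s : ∃ t, chk3 f_pm_213_s t 3 4 1 = true := ex3_b k1_pm_213_s s42_pm_213_s

theorem s44_pm_213_s : ∃ t, chk3 f_pm_213_s t 3 2 1 = true := ex3_b s43_pm_213_s s37_pm_213_s

theorem s45_pm_213_s : ∃ t, chk3 f_pm_213_s t 1 2 1 = true := ex3_a k0_pm_213_s s44_pm_213_s

theorem s46_pm_213_s : ∃ t, chk3 f_pm_213_s t 1 1 1 = true := ex3_b s45_pm_213_s s25_pm_213_s

theorem c_pm_213_s : CertNE 0 536870912 0 1230186008 587336777 62277027 3 eng mog cd0q2 cd7q3 pd1 false true false .pnn 2 1 3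
    ndB0q2 ndB7q3 pcB1 cut_pm_213_s Ext.none :=
  certNE0 (fam := false) (s1 := true) (s2 := false) (a := 2) (b := 1) (c := 3) (cn := .pnn) (n1 := ndB0q2) (n2 := ndB7q3) (pc := pcB1) (cut := cut_pm_213_s) (xt := Ext.none) (P1 := 0) (W1 := 536870912) (P2 := 0) (W2 := 1230186008) (P3 := 587336777) (W3 := 62277027) (N0 := 3) (En := eng) (mo := mog) (C1 := cd0q2) (C2 := cd7q3) (C3 := pd1)
    rfl s46_pm_213_s

noncomputable def cut_mm_001_s : Cut := Cut.of [[⟨4, 0, 0, 1449551462⟩]]

noncomputable def f_mm_001_s : ℕ → ℕ → ℕ → ℕ → Bool := onCell 0 536870912 0 536870912 587336777 62277027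
    (rowNE 3 eng mog cd0q0 cd7q1 pd0 1 false false false .up 0 0 1 (qsf 0 536870912 536870912 536870912 0) ndB0q0 ndB7q1 pcB0 cut_mm_001_s Ext.none)

def k0_mm_001_s : ∃ t, chk3 f_mm_001_s t 1 1 1 = true :=
  ⟨(l 3), by decide +kernel⟩

theorem c_mm_001_s : CertNE 0 536870912 536870912 536870912 587336777 62277027 3 eng mog cd0q0 cd7q1 pd0 false false false .up 0 0 1
    ndB0q0 ndB7q1 pcB0 cut_mm_001_s Ext.none :=
  certNE1 (fam := false) (s1 := false) (s2 := false) (a := 0) (b := 0) (c := 1) (cn := .up) (n1 := ndB0q0) (n2 := ndB7q1) (pc := pcB0) (cut := cut_mm_001_s) (xt := Ext.none) (P1 := 0) (W1 := 536870912) (P2 := 536870912) (W2 := 536870912) (P3 := 587336777) (W3 := 62277027) (N0 := 3) (En := eng) (mo := mog) (C1 := cd0q0) (C2 := cd7q1) (C3 := pd0)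
    rfl (fun _ => rfl) k0_mm_001_s

noncomputable def cut_mm_011_s : Cut := Cut.of [[⟨4, 0, 0, 1449551462⟩]]

noncomputable def f_mm_011_s : ℕ → ℕ → ℕ → ℕ → Bool := onCell 0 536870912 536870912 536870912 587336777 62277027
    (rowNE 3 eng mog cd0q0 cd7q1 pd1 1 false false false .pnn 0 1 1 (qsf 0 536870912 536870912 536870912 1) ndB0q0 ndB7q1 pcB1 cut_mm_011_s Ext.none)

def k0_mm_011_s : ∃ t, chk3 f_mm_011_s t 1 1 1 = true :=
  ⟨(l 5), by decide +kernel⟩

theorem c_mm_011_s : CertNE 0 536870912 536870912 536870912 587336777 62277027 3 eng mog cd0q0 cd7q1 pd1 false false false .pnn 0 1 1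
    ndB0q0 ndB7q1 pcB1 cut_mm_011_s Ext.none :=
  certNE1 (fam := false) (s1 := false) (s2 := false) (a := 0) (b := 1) (c := 1) (cn := .pnn) (n1 := ndB0q0) (n2 := ndB7q1) (pc := pcB1) (cut := cut_mm_011_s) (xt := Ext.none) (P1 := 0) (W1 := 536870912) (P2 := 536870912) (W2 := 536870912) (P3 := 587336777) (W3 := 62277027) (N0 := 3) (En := eng) (mo := mog) (C1 := cd0q0) (C2 := cd7q1) (C3 := pd1)
    rfl (fun _ => rfl) k0_mm_011_s

noncomputable def cut_mm_012_s : Cut := Cut.of [[⟨4, 0, 0, 1449551462⟩]]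

noncomputable def f_mm_012_s : ℕ → ℕ → ℕ → ℕ → Bool := onCell 0 536870912 1073741824 536870912 587336777 62277027
    (rowNE 3 eng mog cd0q0 cd7q2 pd1 0 false false false .pnp 0 1 2 (qsf 0 536870912 1073741824 536870912 1) ndB0q0 ndB7q2 pcB1 cut_mm_012_s Ext.none)

def k0_mm_012_s : ∃ t, chk3 f_mm_012_s t 1 1 1 = true :=
  ⟨(l 5), by decide +kernel⟩

theorem c_mm_012_s : CertNE 0 536870912 1073741824 536870912 587336777 62277027 3 eng mog cd0q0 cd7q2 pd1 false false false .pnp 0 1 2
    ndB0q0 ndB7q2 pcB1 cut_mm_012_s Ext.none :=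
  certNE0 (fam := false) (s1 := false) (s2 := false) (a := 0) (b := 1) (c := 2) (cn := .pnp) (n1 := ndB0q0) (n2 := ndB7q2) (pc := pcB1) (cut := cut_mm_012_s) (xt := Ext.none) (P1 := 0) (W1 := 536870912) (P2 := 1073741824) (W2 := 536870912) (P3 := 587336777) (W3 := 62277027) (N0 := 3) (En := eng) (mo := mog) (C1 := cd0q0) (C2 := cd7q2) (C3 := pd1)
    rfl k0_mm_012_s

noncomputable def cut_mm_022_s : Cut := Cut.of [[⟨4, 0, 0, 1449551462⟩]]

noncomputable def f_mm_022_s : ℕ → ℕ → ℕ → ℕ → Bool := onCell 0 536870912 1073741824 536870912 587336777 62277027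
    (rowNE 3 eng mog cd0q0 cd7q2 pd2 0 false false false .pp 0 2 2 (qsf 0 536870912 1073741824 536870912 2) ndB0q0 ndB7q2 pcB2 cut_mm_022_s Ext.none)

def k0_mm_022_s : ∃ t, chk3 f_mm_022_s t 1 1 1 = true :=
  ⟨(l 5), by decide +kernel⟩

theorem c_mm_022_s : CertNE 0 536870912 1073741824 536870912 587336777 62277027 3 eng mog cd0q0 cd7q2 pd2 false false false .pp 0 2 2
    ndB0q0 ndB7q2 pcB2 cut_mm_022_s Ext.none :=
  certNE0 (fam := false) (s1 := false) (s2 := false) (a := 0) (b := 2) (c := 2) (cn := .pp) (n1 := ndB0q0) (n2 := ndB7q2) (pc := pcB2) (cut := cut_mm_022_s) (xt := Ext.none) (P1 := 0) (W1 := 536870912) (P2 := 1073741824) (W2 := 536870912) (P3 := 587336777) (W3 := 62277027) (N0 := 3) (En := eng) (mo := mog) (C1 := cd0q0) (C2 := cd7q2) (C3 := pd2)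
    rfl k0_mm_022_s

noncomputable def cut_mm_023_s : Cut := Cut.of [[⟨4, 0, 0, 1449551462⟩]]

noncomputable def f_mm_023_s : ℕ → ℕ → ℕ → ℕ → Bool := onCell 0 536870912 0 1230186008 587336777 62277027
    (rowNE 3 eng mog cd0q0 cd7q3 pd2 0 false false false .up 0 2 3 (qsf 0 536870912 0 1230186008 2) ndB0q0 ndB7q3 pcB2 cut_mm_023_s Ext.none)

def k0_mm_023_s : ∃ t, chk3 f_mm_023_s t 1 1 1 = true :=
  ⟨(l 5), by decide +kernel⟩

theorem c_mm_023_s : CertNE 0 536870912 0 1230186008 587336777 62277027 3 eng mog cd0q0 cd7q3 pd2 false false false .up 0 2 3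
    ndB0q0 ndB7q3 pcB2 cut_mm_023_s Ext.none :=
  certNE0 (fam := false) (s1 := false) (s2 := false) (a := 0) (b := 2) (c := 3) (cn := .up) (n1 := ndB0q0) (n2 := ndB7q3) (pc := pcB2) (cut := cut_mm_023_s) (xt := Ext.none) (P1 := 0) (W1 := 536870912) (P2 := 0) (W2 := 1230186008) (P3 := 587336777) (W3 := 62277027) (N0 := 3) (En := eng) (mo := mog) (C1 := cd0q0) (C2 := cd7q3) (C3 := pd2)
    rfl k0_mm_023_s

noncomputable def cut_mm_033_s : Cut := Cut.of [[⟨4, 0, 0, 1449551462⟩]]

noncomputable def f_mm_033_s : ℕ → ℕ → ℕ → ℕ → Bool := onCell 0 536870912 0 1230186008 587336777 62277027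
    (rowNE 3 eng mog cd0q0 cd7q3 pd3 0 false false false .pnn 0 3 3 (qsf 0 536870912 0 1230186008 3) ndB0q0 ndB7q3 pcB3 cut_mm_033_s Ext.none)

def k0_mm_033_s : ∃ t, chk3 f_mm_033_s t 1 1 1 = true :=
  ⟨(l 5), by decide +kernel⟩

theorem c_mm_033_s : CertNE 0 536870912 0 1230186008 587336777 62277027 3 eng mog cd0q0 cd7q3 pd3 false false false .pnn 0 3 3
    ndB0q0 ndB7q3 pcB3 cut_mm_033_s Ext.none :=
  certNE0 (fam := false) (s1 := false) (s2 := false) (a := 0) (b := 3) (c := 3) (cn := .pnn) (n1 := ndB0q0) (n2 := ndB7q3) (pc := pcB3) (cut := cut_mm_033_s) (xt := Ext.none) (P1 := 0) (W1 := 536870912) (P2 := 0) (W2 := 1230186008) (P3 := 587336777) (W3 := 62277027) (N0 := 3) (En := eng) (mo := mog) (C1 := cd0q0) (C2 := cd7q3) (C3 := pd3)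
    rfl k0_mm_033_s

noncomputable def cut_mm_101_s : Cut := Cut.of [[⟨4, 0, 0, 1449551462⟩], [⟨0, 1, 0, 67108864⟩, ⟨1, 0, 0, 67108864⟩, ⟨2, 1, 0, 67108864⟩]]

noncomputable def f_mm_101_s : ℕ → ℕ → ℕ → ℕ → Bool := onCell 536870912 536870912 0 536870912 587336777 62277027
    (rowNE 3 eng mog cd0q1 cd7q1 pd0 1 false false false .npn 1 0 1 (qsf 536870912 536870912 536870912 536870912 0) ndB0q1 ndB7q1 pcB0 cut_mm_101_s Ext.none)

def k0_mm_101_s : ∃ t, chk3 f_mm_101_s t 1 1 1 = true :=
  ⟨(a (l 3) (b (a (l 3) (b (b (a (l 3) (a (l 3) (b (l 14) (l 3)))) (l 3)) (l 3))) (l 3))), by decide +kernel⟩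

theorem c_mm_101_s : CertNE 536870912 536870912 536870912 536870912 587336777 62277027 3 eng mog cd0q1 cd7q1 pd0 false false false .npn 1 0 1
    ndB0q1 ndB7q1 pcB0 cut_mm_101_s Ext.none :=
  certNE1 (fam := false) (s1 := false) (s2 := false) (a := 1) (b := 0) (c := 1) (cn := .npn) (n1 := ndB0q1) (n2 := ndB7q1) (pc := pcB0) (cut := cut_mm_101_s) (xt := Ext.none) (P1 := 536870912) (W1 := 536870912) (P2 := 536870912) (W2 := 536870912) (P3 := 587336777) (W3 := 62277027) (N0 := 3) (En := eng) (mo := mog) (C1 := cd0q1) (C2 := cd7q1) (C3 := pd0)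
    rfl (fun _ => rfl) k0_mm_101_s

noncomputable def cut_mm_102_s : Cut := Cut.of [[⟨4, 0, 0, 1449551462⟩], [⟨0, 1, 0, 67108864⟩, ⟨1, 0, 0, 67108864⟩, ⟨2, 1, 0, 67108864⟩]]

noncomputable def f_mm_102_s : ℕ → ℕ → ℕ → ℕ → Bool := onCell 536870912 536870912 0 536870912 587336777 62277027
    (rowNE 3 eng mog cd0q1 cd7q2 pd0 1 false false false .npp 1 0 2 (qsf 536870912 536870912 1073741824 536870912 0) ndB0q1 ndB7q2 pcB0 cut_mm_102_s Ext.none)

def k0_mm_102_s : ∃ t, chk3 f_mm_102_s t 1 1 1 = true :=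
  ⟨(a (l 3) (b (a (l 3) (b (a (l 3) (b (a (l 3) (b (l 14) (l 3))) (l 3))) (l 3))) (l 3))), by decide +kernel⟩

theorem c_mm_102_s : CertNE 536870912 536870912 1073741824 536870912 587336777 62277027 3 eng mog cd0q1 cd7q2 pd0 false false false .npp 1 0 2
    ndB0q1 ndB7q2 pcB0 cut_mm_102_s Ext.none :=
  certNE1 (fam := false) (s1 := false) (s2 := false) (a := 1) (b := 0) (c := 2) (cn := .npp) (n1 := ndB0q1) (n2 := ndB7q2) (pc := pcB0) (cut := cut_mm_102_s) (xt := Ext.none) (P1 := 536870912) (W1 := 536870912) (P2 := 1073741824) (W2 := 536870912) (P3 := 587336777) (W3 := 62277027) (N0 := 3) (En := eng) (mo := mog) (C1 := cd0q1) (C2 := cd7q2) (C3 := pd0)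
    rfl (fun _ => rfl) k0_mm_102_s

noncomputable def cut_mm_112_s : Cut := Cut.of [[⟨4, 0, 0, 1449551462⟩]]

noncomputable def f_mm_112_s : ℕ → ℕ → ℕ → ℕ → Bool := onCell 536870912 536870912 1073741824 536870912 587336777 62277027
    (rowNE 3 eng mog cd0q1 cd7q2 pd1 2 false false false .dn 1 1 2 (qsf 536870912 536870912 1073741824 536870912 1) ndB0q1 ndB7q2 pcB1 cut_mm_112_s Ext.none)

def k0_mm_112_s : ∃ t, chk3 f_mm_112_s t 1 1 1 = true :=
  ⟨(a (l 3) (l 5)), by decide +kernel⟩

theorem c_mm_112_s : CertNE 536870912 536870912 1073741824 536870912 587336777 62277027 3 eng mog cd0q1 cd7q2 pd1 false false false .dn 1 1 2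
    ndB0q1 ndB7q2 pcB1 cut_mm_112_s Ext.none :=
  certNE2 (fam := false) (s1 := false) (s2 := false) (a := 1) (b := 1) (c := 2) (cn := .dn) (n1 := ndB0q1) (n2 := ndB7q2) (pc := pcB1) (cut := cut_mm_112_s) (xt := Ext.none) (P1 := 536870912) (W1 := 536870912) (P2 := 1073741824) (W2 := 536870912) (P3 := 587336777) (W3 := 62277027) (N0 := 3) (En := eng) (mo := mog) (C1 := cd0q1) (C2 := cd7q2) (C3 := pd1)
    rfl (fun _ => rfl) k0_mm_112_s

noncomputable def cut_mm_113_s : Cut := Cut.of [[⟨4, 0, 0, 1449551462⟩]]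

noncomputable def f_mm_113_s : ℕ → ℕ → ℕ → ℕ → Bool := onCell 536870912 536870912 0 1230186008 587336777 62277027
    (rowNE 3 eng mog cd0q1 cd7q3 pd1 0 false false false .nn 1 1 3 (qsf 536870912 536870912 0 1230186008 1) ndB0q1 ndB7q3 pcB1 cut_mm_113_s Ext.none)

def k0_mm_113_s : ∃ t, chk3 f_mm_113_s t 1 1 1 = true :=
  ⟨(a (l 5) (b (l 5) (a (b (l 5) (l 3)) (l 3)))), by decide +kernel⟩

theorem c_mm_113_s : CertNE 536870912 536870912 0 1230186008 587336777 62277027 3 eng mog cd0q1 cd7q3 pd1 false false false .nn 1 1 3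
    ndB0q1 ndB7q3 pcB1 cut_mm_113_s Ext.none :=
  certNE0 (fam := false) (s1 := false) (s2 := false) (a := 1) (b := 1) (c := 3) (cn := .nn) (n1 := ndB0q1) (n2 := ndB7q3) (pc := pcB1) (cut := cut_mm_113_s) (xt := Ext.none) (P1 := 536870912) (W1 := 536870912) (P2 := 0) (W2 := 1230186008) (P3 := 587336777) (W3 := 62277027) (N0 := 3) (En := eng) (mo := mog) (C1 := cd0q1) (C2 := cd7q3) (C3 := pd1)
    rfl k0_mm_113_s

noncomputable def cut_mm_123_s : Cut := Cut.of [[⟨4, 0, 0, 1449551462⟩]]

noncomputable def f_mm_123_s : ℕ → ℕ → ℕ → ℕ → Bool := onCell 1073741824 536870912 0 1230186008 587336777 62277027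
    (rowNE 3 eng mog cd0q1 cd7q3 pd2 2 false false false .npn 1 2 3 (qsf 536870912 536870912 0 1230186008 2) ndB0q1 ndB7q3 pcB2 cut_mm_123_s Ext.none)

def k0_mm_123_s : ∃ t, chk3 f_mm_123_s t 1 1 1 = true :=
  ⟨(b (l 5) (l 5)), by decide +kernel⟩

theorem c_mm_123_s : CertNE 536870912 536870912 0 1230186008 587336777 62277027 3 eng mog cd0q1 cd7q3 pd2 false false false .npn 1 2 3
    ndB0q1 ndB7q3 pcB2 cut_mm_123_s Ext.none :=
  certNE2 (fam := false) (s1 := false) (s2 := false) (a := 1) (b := 2) (c := 3) (cn := .npn) (n1 := ndB0q1) (n2 := ndB7q3) (pc := pcB2) (cut := cut_mm_123_s) (xt := Ext.none) (P1 := 536870912) (W1 := 536870912) (P2 := 0) (W2 := 1230186008) (P3 := 587336777) (W3 := 62277027) (N0 := 3) (En := eng) (mo := mog) (C1 := cd0q1) (C2 := cd7q3) (C3 := pd2)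
    rfl (fun _ => rfl) k0_mm_123_s

noncomputable def cut_mm_133_s : Cut := Cut.of [[⟨4, 0, 0, 1449551462⟩]]

noncomputable def f_mm_133_s : ℕ → ℕ → ℕ → ℕ → Bool := onCell 1610612736 536870912 0 1230186008 587336777 62277027
    (rowNE 3 eng mog cd0q1 cd7q3 pd3 2 false false false .dn 1 3 3 (qsf 536870912 536870912 0 1230186008 3) ndB0q1 ndB7q3 pcB3 cut_mm_133_s Ext.none)

def k0_mm_133_s : ∃ t, chk3 f_mm_133_s t 1 1 1 = true :=
  ⟨(l 5), by decide +kernel⟩

theorem c_mm_133_s : CertNE 536870912 536870912 0 1230186008 587336777 62277027 3 eng mog cd0q1 cd7q3 pd3 false false false .dn 1 3 3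
    ndB0q1 ndB7q3 pcB3 cut_mm_133_s Ext.none :=
  certNE2 (fam := false) (s1 := false) (s2 := false) (a := 1) (b := 3) (c := 3) (cn := .dn) (n1 := ndB0q1) (n2 := ndB7q3) (pc := pcB3) (cut := cut_mm_133_s) (xt := Ext.none) (P1 := 536870912) (W1 := 536870912) (P2 := 0) (W2 := 1230186008) (P3 := 587336777) (W3 := 62277027) (N0 := 3) (En := eng) (mo := mog) (C1 := cd0q1) (C2 := cd7q3) (C3 := pd3)
    rfl (fun _ => rfl) k0_mm_133_s

noncomputable def cut_mm_202_s : Cut := Cut.of [[⟨4, 0, 0, 1449551462⟩], [⟨0, 1, 0, 67108864⟩, ⟨1, 0, 0, 67108864⟩, ⟨2, 1, 0, 67108864⟩]]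

noncomputable def f_mm_202_s : ℕ → ℕ → ℕ → ℕ → Bool := onCell 0 536870912 0 536870912 587336777 62277027
    (rowNE 3 eng mog cd0q2 cd7q2 pd0 1 false false false .pp 2 0 2 (qsf 0 536870912 1073741824 536870912 0) ndB0q2 ndB7q2 pcB0 cut_mm_202_s Ext.none)

def k0_mm_202_s : ∃ t, chk3 f_mm_202_s t 2 2 1 = true :=
  ⟨(b (a (l 6) (b (b (l 6) (a (l 6) (l 16564328))) (a (l 16590320) (b (l 16593184) (a (l 16612736) (b (l 16617872) (l 16628200))))))) (a (a (l 6) (b (l 6) (a (l 6) (b (l 16655024) (l 16671128))))) (b (a (b (b (l 16619600) (l 16620568)) (a (b (l 16634344) (l 16643440)) (l 16646280))) (b (a (b (l 16627304) (l 16639288)) (b (l 16641120) (l 16651384))) (a (l 16654376) (l 16728568)))) (a (b (a (l 16657824) (l 16659288)) (a (l 16669232) (l 16682784))) (b (a (l 16673576) (b (l 16772544) (l 16696560))) (a (b (l 16691336) (l 16700744)) (b (l 16709008) (l 16720496)))))))), by decide +kernel⟩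

def k1_mm_202_s : ∃ t, chk3 f_mm_202_s t 2 6 1 = true :=
  ⟨(b (a (a (b (l 6) (l 16702408)) (b (l 16679952) (l 16701880))) (a (b (a (l 16693656) (b (l 16697512) (l 16706200))) (a (b (l 16705624) (l 16713960)) (b (l 16717296) (l 16726096)))) (a (b (b (l 16712264) (l 16722480)) (a (l 16732608) (b (l 16736496) (l 16745704)))) (b (b (l 16730584) (a (l 16736000) (l 16746192))) (b (a (l 16745800) (b (l 16754992) (l 16759952))) (a (b (l 16754256) (l 16759064)) (a (l 16786008) (b (l 16768336) (a (l 16772240) (b (l 16773976) (a (l 16775968) (l 296520516103)))))))))))) (a (a (b (l 16710032) (l 16731760)) (b (a (l 16698864) (l 16718896)) (a (l 16730528) (l 16738168)))) (a (b (a (l 16729496) (a (l 16736136) (b (l 16738552) (l 16746696)))) (a (a (l 16742200) (b (l 16742864) (l 16750472))) (b (a (l 16748104) (l 16756632)) (a (l 16757752) (l 16786592))))) (b (a (b (a (l 16745944) (l 16787968)) (a (l 16777280) (b (l 16763504) (l 16779072)))) (b (a (b (l 16764288) (a (l 16766632) (l 186998857687)))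 (a (b (b (l 16771736) (l 202031242887)) (a (b (l 16779560) (l 315310999991)) (b (l 327122161031) (l 3)))) (b (a (b (l 225653563031) (l 339470193143)) (b (l 352355096327) (l 3))) (l 3)))) (a (a (b (l 16771832) (a (l 219211114951) (b (l 282561871735) (l 359871287575)))) (b (a (b (l 16774896) (l 293299290583)) (b (l 303499839079) (l 3))) (l 3))) (l 3)))) (a (b (a (b (l 16763096) (l 16767992)) (a (b (l 16770864) (a (l 16774464) (l 278803775303))) (b (b (l 220821725415) (l 289004323415)) (l 346449516199)))) (a (a (b (l 16770256) (l 329739415911)) (b (a (l 16774000) (l 266455743719)) (l 317995355095))) (a (b (l 331417129111) (l 3)) (l 3)))) (b (a (a (b (l 361481903735) (l 3)) (l 3)) (l 3)) (l 3))))))), by decide +kernel⟩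

def k2_mm_202_s : ∃ t, chk3 f_mm_202_s t 2 7 1 = true :=
  ⟨(a (l 2) (a (l 2) (a (l 2) (l 3)))), by decide +kernel⟩

def k3_mm_202_s : ∃ t, chk3 f_mm_202_s t 6 4 1 = true :=
  ⟨(b (b (a (a (l 16552752) (l 16570928)) (b (a (l 16584072) (l 16610184)) (l 16677848))) (a (l 16594384) (a (l 16626480) (b (l 16645440) (b (a (l 16650160) (l 16653776)) (a (l 16657608) (l 16672744))))))) (a (b (a (l 16613856) (b (l 16625752) (b (l 16635360) (l 16642240)))) (a (b (a (l 16627768) (l 16636592)) (l 16645656)) (b (l 16653160) (l 16662640)))) (b (a (b (b (a (l 16638888) (l 16651176)) (l 16652152)) (b (l 16659848) (l 16666648))) (b (b (a (l 16665416) (l 16680536)) (l 16680584)) (a (b (l 16680440) (l 16686640)) (b (l 16737144) (l 16703352))))) (a (b (a (l 16670368) (b (l 16680160) (l 16686968))) (a (b (l 16679728) (l 16686464)) (b (l 16693864) (l 16699864)))) (b (a (b (l 16694904) (l 16701656)) (b (l 16710232) (l 16738224))) (a (b (l 16708080) (l 16714920)) (b (l 16745528) (l 16731624)))))))),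 by decide +kernel⟩

def k4_mm_202_s : ∃ t, chk3 f_mm_202_s t 14 8 1 = true :=
  ⟨(b (b (a (a (l 16632528) (l 16648936)) (b (a (l 16661584) (l 14)) (l 16701976))) (a (l 16659416) (a (l 16685800) (b (l 16700400) (a (b (l 16702512) (l 16707168)) (b (l 16712648) (l 16716944))))))) (a (b (b (a (l 16664272) (l 16681160)) (a (l 16672472) (b (l 16687568) (l 16691728)))) (b (a (l 16680808) (l 16697912)) (a (l 16688840) (l 16711160)))) (b (a (b (b (a (l 16692456) (l 16701880)) (l 16701424)) (b (l 16705680) (l 16709856))) (b (a (l 16713528) (l 16723712)) (a (l 16785096) (b (l 16729848) (l 16733920))))) (a (b (a (l 16711448) (b (l 16718696) (l 16722800))) (a (b (l 16717552) (l 16721600)) (l 16728952))) (a (b (b (l 16728240) (l 16732408)) (b (l 16736528) (l 16740592))) (b (b (l 16738144) (l 16763224)) (l 16748424))))))), by decide +kernel⟩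

def k5_mm_202_s : ∃ t, chk3 f_mm_202_s t 15 16 1 = true :=
  ⟨(a (b (l 14) (a (b (l 14) (b (a (l 16722696) (l 14)) (a (l 16727096) (l 16779608)))) (l 14))) (l 14)), by decide +kernel⟩

def k6_mm_202_s : ∃ t, chk3 f_mm_202_s t 60 34 1 = true :=
  ⟨(b (b (a (l 16731632) (a (l 16739056) (l 16744320))) (b (a (l 16734552) (l 16744928)) (a (l 16736624) (l 16768024)))) (a (b (l 16739864) (a (l 16741512) (l 16746584))) (b (a (l 16747576) (l 16752776)) (l 16754408)))), by decide +kernel⟩

def k7_mm_202_s : ∃ t, chk3 f_mm_202_s t 61 34 1 = true :=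
  ⟨(b (a (b (a (b (l 16748536) (l 16750696)) (l 14)) (a (b (l 16752768) (l 16754936)) (l 16759232))) (b (l 14) (a (a (l 16773792) (l 16776560)) (l 14)))) (b (b (a (l 16759744) (a (c (l 16778456) (l 16778264)) (a (l 16771896) (l 14)))) (a (a (l 16759184) (l 16764584)) (a (a (l 16768592) (l 16771280)) (a (l 16777240) (b (a (l 16776776) (a (c (l 16777472) (l 107005084295)) (l 14))) (a (b (l 16777552) (a (l 16776424) (a (l 16777504) (b (l 172503335575) (l 349133865287))))) (a (b (a (b (l 16776960) (l 205789332263)) (b (l 244444037911) (l 3))) (l 386714829783)) (l 3)))))))) (a (a (b (l 16761296) (l 16763432)) (b (l 16777160) (c (l 16779328) (l 16779128)))) (a (a (l 16776952) (b (l 16775968) (a (l 16777360) (b (l 16776880) (a (l 16777568) (b (l 16777328) (a (l 154786595575) (c (l 319069094135) (l 319605965031))))))))) (a (b (a (c (l 16778000) (l 16777312)) (a (b (l 16775848) (b (l 16776624) (a (l 143512306327) (b (l 192904430327) (l 365776863639))))) (b (c (l 115595019015) (l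 113447535335)) (b (a (b (l 16777000) (l 231559135959)) (c (l 345912639943) (l 351281349047))) (l 3))))) (a (b (a (c (l 122574340951) (c (l 121500598951) (l 120426857111))) (a (b (l 16776816) (a (l 219747976023) (l 348060123495))) (b (a (l 155323466423) (l 215989879623)) (l 3)))) (b (a (a (a (l 162302788327) (l 223506072439)) (l 359871283735)) (l 3)) (l 3))) (b (a (b (a (l 353965703655) (l 3)) (l 3)) (l 3)) (l 3)))) (b (a (b (a (a (b (l 16776776) (b (l 181093270215) (l 358260670823))) (b (b (l 16776984) (l 214379266887)) (l 389936054999))) (a (b (a (l 327659028727) (l 384567345719)) (l 3)) (l 3))) (l 3)) (l 3)) (l 3))))))), by decide +kernel⟩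

def k8_mm_202_s : ∃ t, chk3 f_mm_202_s t 60 35 1 = true :=
  ⟨(a (b (a (b (l 16745640) (l 16749824)) (l 16752872)) (b (l 16756536) (a (l 16758080) (l 16773712)))) (a (b (l 16758064) (b (l 16774792) (l 16778856))) (b (b (l 16771848) (c (l 16770816) (l 16775768))) (b (l 16776056) (a (l 16777504) (b (l 16776480) (b (l 16778000) (a (l 16775736) (a (l 141901694215) (b (l 190756947191) (l 361481896647))))))))))), by decide +kernel⟩

def k9_mm_202_s : ∃ t, chk3 f_mm_202_s t 122 35 1 = true :=
  ⟨(b (a (b (a (l 16765240) (l 16778336)) (c (l 16775984) (l 16775848))) (a (b (l 16770512) (b (l 16776208) (b (l 16777744) (a (l 16775480) (a (l 16777784) (b (l 146196661111) (a (l 211158041639) (l 372219314791)))))))) (b (c (l 16777144) (l 16777720)) (a (b (c (l 16777560) (l 16777528)) (b (a (a (l 16777920) (b (l 16776688) (l 203104977927))) (b (a (l 16777672) (l 315847868647)) (l 373829927767))) (a (a (b (l 322290319639) (l 3)) (l 3)) (l 3)))) (b (a (b (l 16776056) (b (l 16777648) (a (l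 193441301543) (l 358260670983)))) (a (b (l 16776560) (b (l 309405417655) (l 3))) (b (b (l 16776632) (l 190220075927)) (l 3)))) (l 3)))))) (a (b (a (c (l 16777400) (l 16777328)) (a (b (l 16774376) (b (l 16775904) (a (l 16777736) (b (l 166597755991) (l 338396447223))))) (b (c (l 16777680) (l 109152568487)) (a (a (b (l 16777376) (l 370071831463)) (b (b (l 16776800) (l 218674234807)) (l 3))) (b (b (c (l 295446773879) (l 299204870247)) (l 3)) (l 3)))))) (a (a (a (b (l 16775488) (b (b (l 16776752) (l 220821718423)) (l 391009797527))) (b (c (l 16777792) (l 119353115751)) (b (b (l 317995352391) (l 3)) (l 3)))) (b (a (b (l 16776288) (b (l 180019528823) (l 350207607383))) (b (a (l 16777768) (b (l 16776856) (l 232632878583))) (l 382419862839))) (l 3))) (a (a (b (b (b (c (l 306184192215) (l 309405417687)) (l 3)) (l 3)) (l 3)) (l 3)) (l 3)))) (b (a (b (b (b (a (l 16776248) (a (a (l 169282110311) (l 329269641543)) (l 3))) (a (a (l 16776424) (a (l 16776920) (l 221358588935))) (l 388325443063)))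 (a (a (b (l 155860337639) (c (l 321216577943) (l 326048416135))) (b (l 355576316583) (l 3))) (l 3))) (l 3)) (l 3)) (l 3)))), by decide +kernel⟩

def k10_mm_202_s : ∃ t, chk3 f_mm_202_s t 123 35 1 = true :=
  ⟨(b (a (a (a (b (b (l 16774128) (b (l 16775672) (b (l 115058148247) (a (l 16776624) (a (l 180019528631) (l 345375768999)))))) (b (b (a (b (a (l 16777624) (c (l 214379267447) (l 238538458039))) (l 364166251255)) (c (l 388325443047) (l 395304764855))) (l 3)) (l 3))) (b (a (b (l 16775128) (a (b (l 16776504) (b (c (l 223506072615) (l 227801039831)) (l 3))) (b (b (l 16776584) (l 173577077639)) (l 389399184503)))) (b (l 16777600) (b (b (a (l 16777568) (c (l 216526750711) (l 220821717927))) (a (l 338933318007) (l 3))) (l 3)))) (l 3))) (b (b (b (b (a (l 16776032) (a (a (l 16776864) (a (l 169818981143) (l 231022265255))) (c (l 371682444135) (l 377588024151)))) (b (a (l 16777728) (a (c (l 330343383399) (l 335175221591)) (l 3))) (a (a (l 16776336) (l 159081562919)) (l 391546668423))))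 (a (a (b (l 16777376) (a (l 167134626647) (l 333027737927))) (b (a (c (l 209547428823) (l 210621170631)) (l 372756185703)) (l 3))) (l 3))) (a (a (a (b (l 384567346263) (l 3)) (l 3)) (l 3)) (l 3))) (l 3))) (l 3)) (l 3)), by decide +kernel⟩

def k11_mm_202_s : ∃ t, chk3 f_mm_202_s t 31 17 1 = true :=
  ⟨(a (b (a (b (l 14) (b (b (l 14) (b (l 14) (l 3))) (l 3))) (l 3)) (l 3)) (l 3)), by decide +kernel⟩

def k12_mm_202_s : ∃ t, chk3 f_mm_202_s t 14 18 1 = true :=
  ⟨(a (a (b (b (l 16696408) (a (l 16700264) (l 16708824))) (b (a (l 16708040) (l 16716416)) (l 16740496))) (b (b (a (l 16709584) (l 16718512)) (a (l 16717432) (l 16726312))) (b (l 16729624) (l 16737208)))) (b (a (b (a (l 16727600) (b (l 16735016) (l 16739032))) (b (l 16738312) (l 16742216))) (b (a (l 16746672) (b (l 16754568) (a (l 16756096) (l 16761120)))) (a (a (l 16752192) (l 16774120)) (a (a (l 16771312) (l 16773816)) (a (l 16776328) (l 16773616)))))) (a (a (b (l 16743280) (l 16771704)) (b (l 16773640) (a (l 16778912)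 (l 16773360)))) (a (b (b (l 16771024) (l 16774296)) (a (l 16778320) (b (l 16776128) (a (l 16778816) (b (l 16777736) (a (a (l 16776144) (l 166597756967)) (b (l 289541193719) (l 385104217879)))))))) (b (b (a (l 16768016) (a (l 16771800) (a (l 16773696) (b (l 16773976) (l 122037470935))))) (a (l 16777216) (a (b (l 16777392) (a (l 131164276599) (b (l 171429594999) (l 346986382503)))) (a (b (a (l 134385501735) (b (l 16776496) (l 320142836183))) (l 383493605927)) (b (a (b (l 190756947559) (l 3)) (l 367924348759)) (l 3)))))) (a (b (b (b (l 108615698055) (a (l 16774168) (a (l 16776064) (l 298131128487)))) (b (a (l 16775160) (a (l 186461980775) (l 391546668999))) (a (l 138143598519) (l 378124896839)))) (a (b (a (b (l 16777824) (l 313700385255)) (a (l 344838898983) (l 3))) (l 3)) (l 3))) (b (a (a (b (b (l 322290320039) (l 3)) (l 3)) (l 3)) (l 3)) (l 3)))))))), by decide +kernel⟩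

def k13_mm_202_s : ∃ t, chk3 f_mm_202_s t 28 19 1 = true :=
  ⟨(a (b (b (l 16727032) (l 16734128)) (b (l 16741600) (a (l 16744792) (l 16753752)))) (b (a (l 16764592) (b (l 16748920) (c (l 16777728) (l 16777320)))) (b (a (l 16776048) (a (l 16762104) (l 16777376))) (a (c (l 16784368) (l 16781016)) (a (b (l 16778488) (l 16777080)) (b (l 16777968) (a (a (l 16774760) (b (l 16774992) (l 180019531303))) (a (b (l 16778800) (l 346986382871)) (b (a (l 185925111047) (l 328195900151)) (l 3)))))))))), by decide +kernel⟩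

def k14_mm_202_s : ∃ t, chk3 f_mm_202_s t 29 19 1 = true :=
  ⟨(b (a (b (b (a (l 16756376) (l 16776688)) (a (l 16781168) (a (l 16767632) (b (l 16771672) (l 16777600))))) (b (a (l 16764192) (a (l 16776896) (a (a (l 16777400) (b (l 16775040) (a (l 163913402279) (l 300278612135)))) (a (b (l 147270403831) (l 356113188727)) (b (a (l 292225547639) (l 340007060615)) (l 3)))))) (a (l 16778712) (a (a (b (l 16773400) (l 16777992)) (a (b (l 16775264) (a (l 179482659143) (l 316384739863))) (b (l 157470951735) (l 368998090983)))) (a (a (b (a (l 308331675991) (l 355576317431)) (l 3)) (l 3)) (l 3)))))) (a (b (a (b (a (l 16772488) (b (l 16774024) (c (l 146196662663) (a (l 16775368) (l 164987144279))))) (a (b (l 121500600023) (a (b (l 16776328) (l 299741741223)) (b (l 321753449111) (l 3)))) (b (a (a (l 191830689975) (l 324437803831)) (l 382956734951)) (l 3)))) (b (a (a (b (l 16778544) (a (l 317458481799) (l 366850606855))) (b (b (l 16778000) (l 329806512951)) (l 3))) (a (b (l 365239994535)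 (l 3)) (l 3))) (l 3))) (a (b (a (b (l 392083541911) (l 3)) (l 3)) (l 3)) (l 3))) (l 3))) (a (a (b (a (a (l 16775744) (b (l 16770960) (b (l 16773896) (l 141364824823)))) (b (a (l 16773400) (b (l 16774872) (a (l 16778176) (a (l 191293819959) (l 331953996695))))) (a (a (b (l 16775712) (c (l 317995352775) (l 322290320023))) (b (c (l 182167014583) (l 181093272711)) (l 3))) (a (b (l 350207608471) (l 3)) (l 3))))) (a (b (a (b (l 16777968) (a (l 165524016215) (a (l 320142836247) (l 366313735879)))) (b (a (a (l 173040208375) (l 311552901447)) (l 364166252583)) (l 3))) (a (b (l 386714832439) (l 3)) (l 3))) (l 3))) (b (a (b (a (b (c (a (l 169282112247) (l 335175222567)) (a (l 170355853863) (l 339470189815))) (l 390472928951)) (l 3)) (l 3)) (l 3)) (l 3))) (l 3))), by decide +kernel⟩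

def k15_mm_202_s : ∃ t, chk3 f_mm_202_s t 60 36 1 = true :=
  ⟨(a (b (a (b (l 16762168) (l 16766184)) (b (l 16777752) (l 16777848))) (a (b (l 16775432) (a (l 16778144) (b (l 16777072) (a (l 16777768) (b (l 145659790839) (a (l 225116686119) (l 377588024519))))))) (a (b (b (l 16773016) (l 16777960)) (a (a (b (l 16777360) (b (l 325511545399) (l 3))) (b (b (l 16776192) (l 214379267783)) (l 3))) (b (b (a (l 152102241623) (l 316384739751)) (l 375440541319)) (l 3)))) (b (a (b (l 16774936) (b (l 134385501479) (a (l 189146334871) (l 351818220487)))) (a (b (l 16775896) (b (a (l 218137364071) (l 337322705511)) (l 3))) (b (b (l 16776040) (l 180019529303)) (l 3)))) (l 3))))) (b (b (b (a (l 16776656) (b (a (l 16774792) (b (a (l 16777800) (a (l 328732770743) (l 3))) (a (a (l 16776672) (l 302426095783)) (l 3)))) (a (c (l 129016792503) (c (l 122574341511) (l 119889986935))) (a (a (b (l 204715590935) (l 373293056823)) (l 3)) (l 3))))) (b (a (l 16778168) (a (a (l 16777472) (a (b (l 16777536)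 (l 313700385047)) (c (l 357723800583) (l 357723800551)))) (l 3))) (a (l 16777864) (a (a (a (l 156934079847) (b (l 218674234695) (l 385641087911))) (l 3)) (l 3))))) (a (b (a (l 16776768) (a (a (l 16775760) (b (l 16775904) (l 163376530919))) (a (b (l 16776552) (a (l 311016030503) (l 367924347767))) (b (a (l 175724561655) (l 306184192231)) (l 3))))) (b (a (l 111836923319) (a (a (a (l 183240754567) (l 315847868775)) (l 377588024535)) (l 3))) (a (a (l 16776008) (a (l 170355852919) (l 334101480135))) (l 3)))) (a (a (a (b (b (l 368461218919) (l 3)) (l 3)) (l 3)) (l 3)) (l 3)))) (a (b (a (b (a (a (b (l 16778000) (l 342691414855)) (b (a (l 205789332999) (l 326585287143)) (l 3))) (b (l 388862314391) (l 3))) (l 3)) (l 3)) (l 3)) (l 3)))), by decide +kernel⟩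

def k16_mm_202_s : ∃ t, chk3 f_mm_202_s t 60 37 1 = true :=
  ⟨(a (b (a (b (a (a (b (l 16775248) (b (l 157470951127) (a (l 309942288711) (l 3)))) (b (a (l 16777512) (b (l 16776336) (l 300278612151))) (b (l 363629380999) (l 3)))) (a (b (b (a (l 170355852759) (l 334638351047)) (l 389936056199)) (l 3)) (l 3))) (l 3)) (l 3)) (l 3)) (l 3)), by decide +kernel⟩

def k17_mm_202_s : ∃ t, chk3 f_mm_202_s t 61 18 1 = true :=
  ⟨(l 3), by decide +kernel⟩

def k18_mm_202_s : ∃ t, chk3 f_mm_202_s t 31 18 1 = true :=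
  ⟨(l 3), by decide +kernel⟩

def k19_mm_202_s : ∃ t, chk3 f_mm_202_s t 15 19 1 = true :=
  ⟨(l 3), by decide +kernel⟩

def k20_mm_202_s : ∃ t, chk3 f_mm_202_s t 12 10 1 = true :=
  ⟨(b (b (a (l 16656456) (a (l 16668360) (b (l 16679520) (l 16686336)))) (a (l 16665408) (a (l 16684952) (l 16696176)))) (a (b (l 16807400) (a (l 16688208) (l 16698560))) (b (a (l 16697272) (l 16710760)) (a (l 16711480) (l 16724432))))), by decide +kernel⟩

def k21_mm_202_s : ∃ t, chk3 f_mm_202_s t 13 20 1 = true :=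
  ⟨(a (b (a (l 16695560) (l 16709704)) (a (l 16710040) (l 16725256))) (b (a (l 16726168) (a (l 16759784) (b (l 16743648) (l 16772440)))) (a (b (l 16737832) (a (l 16741312) (l 16749496))) (a (b (l 16750472) (l 16779024)) (b (l 16780168) (l 16776616)))))), by decide +kernel⟩

def k22_mm_202_s : ∃ t, chk3 f_mm_202_s t 13 21 1 = true :=
  ⟨(a (a (b (l 16724920) (b (l 16735360) (l 16741648))) (b (b (l 16736640) (a (l 16739848) (l 16747512))) (b (l 16781784) (a (l 16753064) (l 16760680))))) (b (a (a (b (l 16748512) (l 16776680)) (b (l 16777880) (l 16784432))) (a (b (l 16764792) (a (l 16769472) (b (l 16771872) (a (l 16774200) (b (l 16775416) (a (l 185925110439) (a (l 313163514007) (l 356650059143)))))))) (b (a (l 16777464) (b (l 16778600) (a (b (l 16774872) (c (l 190220079223) (a (l 16776000) (l 291151806263)))) (b (a (l 16778336) (a (l 238538460903) (l 345375769655))) (l 373293059127))))) (a (b (a (c (l 16777688) (l 16778136)) (b (c (l 16778880) (l 176261434343)) (c (l 331417126135)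 (a (l 313700384823) (l 387251702279))))) (a (b (a (a (l 16778040) (l 239612202727)) (l 354502575751)) (l 3)) (l 3))) (a (a (b (b (l 336785834359) (l 3)) (l 3)) (l 3)) (l 3)))))) (a (a (b (l 16783072) (c (l 16779496) (l 16778680))) (b (b (l 16768408) (a (l 16769688) (c (l 16779144) (l 16778824)))) (a (b (l 16778240) (b (a (l 16774480) (a (l 16776016) (l 232632880423))) (a (l 184851369223) (c (l 348060125335) (a (l 335712093127) (l 3)))))) (b (a (b (l 16775224) (c (l 279877516887) (a (l 16776360) (l 316384739559)))) (b (a (l 195588787543) (l 338933318807)) (l 388862316375))) (a (b (c (l 367387479047) (l 372756188135)) (l 3)) (l 3)))))) (a (b (a (b (a (l 16773456) (b (l 16774664) (c (l 188072594855) (l 185388240279)))) (a (b (l 175187692167) (c (l 320679707367) (a (l 293299289975) (l 368998090775)))) (b (c (l 338933319319) (a (l 323364061623) (l 393157282679))) (l 3)))) (b (a (a (b (l 16776208) (l 345912640903)) (b (a (l 199346883719) (l 324437803479)) (l 3))) (b (l 381882994071)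 (l 3))) (l 3))) (l 3)) (l 3))))), by decide +kernel⟩

def k23_mm_202_s : ∃ t, chk3 f_mm_202_s t 12 11 1 = true :=
  ⟨(a (b (b (l 16727064) (l 16740080)) (b (l 16730136) (a (l 16735848) (b (l 16744520) (l 16771840))))) (a (b (l 16730040) (b (a (l 16765928) (l 16762592)) (b (l 16758208) (l 16774384)))) (b (b (l 16736784) (b (l 16766688) (l 16754200))) (b (b (l 16780400) (a (l 16762000) (b (l 16767584) (l 16781224)))) (a (b (l 16778688) (a (b (l 16771008) (l 16779280)) (b (a (l 16773672) (l 199346885095)) (a (b (l 16775968) (c (l 314237256151) (l 316384739767))) (b (c (l 328195900679) (l 330880255223)) (l 3)))))) (b (a (b (l 16772024) (a (l 16774208) (b (l 16775256) (l 235317236679)))) (b (a (l 16774760) (b (l 16775832) (c (l 310479159463) (l 312626643079)))) (a (b (c (l 248739009687) (l 293299289975)) (l 378124897943)) (l 3)))) (a (b (a (b (l 222969204759) (l 343765157943)) (b (l 359334415223) (l 3))) (l 3)) (l 3)))))))), by decide +kernel⟩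

def k24_mm_202_s : ∃ t, chk3 f_mm_202_s t 26 22 1 = true :=
  ⟨(b (a (a (l 16746912) (b (l 16751568) (l 16757648))) (a (b (l 16759168) (l 16776088)) (b (l 16777584) (a (b (l 16770000) (c (l 16773568) (l 16778488))) (b (c (l 173577080343) (a (l 16772912) (l 173577080007))) (a (b (l 16778600) (a (l 221895462615) (l 344838899143))) (b (a (b (l 16778112) (l 341080802215)) (l 367387478311)) (l 3)))))))) (a (a (b (l 16756872) (l 16763624)) (b (l 16764520) (a (l 16769336) (b (l 16771552) (a (l 16773888) (b (l 16775024) (c (l 224042946807) (l 221358592263)))))))) (a (b (a (l 16780928) (b (l 16772760) (b (c (l 191293820807) (l 187535724391)) (a (l 191830690823) (c (l 338396448455) (a (l 321753448951) (l 389936057303))))))) (a (b (a (l 16779752) (b (l 16775664) (a (l 224042946039) (l 341080802631)))) (a (b (c (l 236927849687) (a (l 16776480) (l 320679707079))) (l 374903672135)) (b (l 387251703927) (l 3)))) (b (a (b (c (l 321753449303) (a (l 295446773687) (l 367924349095))) (l 3))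 (l 3)) (l 3)))) (b (a (b (a (b (l 16774960) (c (l 220821721495) (a (l 16776120) (l 297594257303)))) (b (c (l 286319968071) (a (l 16777800) (l 323364061751))) (l 377051155831))) (a (b (c (l 355576318519) (l 359334414887)) (l 3)) (l 3))) (b (a (b (l 388325445815) (l 3)) (l 3)) (l 3))) (l 3))))), by decide +kernel⟩

def k25_mm_202_s : ∃ t, chk3 f_mm_202_s t 27 22 1 = true :=
  ⟨(b (a (a (b (a (b (l 16771504) (a (l 16773824) (b (l 16775048) (c (l 222969205303) (a (l 16776192) (l 305647321031)))))) (b (a (l 16777192) (b (l 16778416) (a (l 228337913623) (l 352891963079)))) (a (b (c (l 291151806391) (a (l 189683206791) (l 330343383847))) (l 382956736055)) (l 3)))) (a (b (a (b (c (l 195051916871) (l 191293820487)) (c (l 341617674103) (a (l 326585287335) (l 3)))) (b (c (l 359871285991) (l 364703124167)) (l 3))) (l 3)) (l 3))) (b (a (b (a (b (c (l 330343384311) (a (l 310479159351) (l 384030476823))) (l 3)) (l 3)) (l 3)) (l 3)) (l 3))) (l 3)) (l 3)), by decide +kernel⟩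

def k26_mm_202_s : ∃ t, chk3 f_mm_202_s t 13 23 1 = true :=
  ⟨(a (a (b (a (b (b (l 16768568) (a (l 16769912) (l 16778912))) (a (b (l 16773104) (a (b (l 16774544) (l 202568109143)) (b (l 216526753655) (c (l 340007061287) (l 343765157655))))) (b (a (b (l 16775120) (c (l 230485397703) (l 228337914103))) (b (a (l 210084301543) (l 321216578039)) (l 375977414055))) (a (b (c (l 356113189495) (l 360408156775)) (l 3)) (l 3))))) (b (a (b (c (l 16778360) (l 177335176919)) (a (b (l 16775728) (a (l 227801042471) (l 341080802663))) (b (a (l 245517783479) (l 363629381815)) (l 3)))) (b (a (b (c (l 16779056) (l 207399947591)) (c (l 337859577511) (l 340543932055))) (b (c (l 353965705735) (l 357186931191)) (l 3))) (l 3))) (a (b (a (b (l 385641091271) (l 3)) (l 3)) (l 3)) (l 3)))) (a (b (a (b (a (b (c (l 325511545815) (l 328195900343)) (l 3)) (l 3)) (l 3)) (l 3)) (l 3)) (l 3))) (l 3)) (l 3)), by decide +kernel⟩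

def k27_mm_202_s : ∃ t, chk3 f_mm_202_s t 28 40 1 = true :=
  ⟨(a (a (b (b (l 16750592) (l 16754568)) (a (l 16758184) (l 16762432))) (b (b (l 16780688) (l 16763448)) (b (l 16767160) (a (l 16768600) (l 16778240))))) (a (b (a (l 16778776) (b (l 16770976) (a (l 16773552) (a (l 137606728455) (b (l 16775488) (a (l 186461981927) (l 328195900087))))))) (a (a (b (l 16772704) (b (l 16775432) (a (l 173577079943) (l 335175222279)))) (b (b (l 16768800) (l 151028501159)) (b (a (c (l 195051917351) (l 257865809719)) (l 363629381591)) (l 3)))) (b (a (b (c (l 166060887831) (l 163376533287)) (c (l 337322706599) (a (l 322827190759) (l 394231024455)))) (b (c (l 357723802231) (l 363629382199)) (l 3))) (l 3)))) (b (a (b (a (l 16778368) (b (l 144049179543) (a (a (l 171429595911) (l 309942288599)) (l 362018768855)))) (a (b (a (l 168745241671) (l 332490867063)) (l 385641090567)) (l 3))) (b (a (a (b (a (l 234780364295) (l 345375769783)) (l 3)) (l 3)) (l 3)) (l 3))) (l 3)))), by decide +kernel⟩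

def k28_mm_202_s : ∃ t, chk3 f_mm_202_s t 28 41 1 = true :=
  ⟨(a (a (b (b (l 16786704) (l 16779776)) (a (a (l 16776584) (b (l 16771720) (b (l 16774320) (l 168208370551)))) (b (a (l 16773848) (a (l 153175984791) (b (l 16775656) (a (l 231022267799) (l 337322705751))))) (a (b (b (l 16776024) (l 191830691591)) (c (l 345375770535) (a (l 332490867415) (l 3)))) (b (c (l 365239995223) (l 371145575191)) (l 3)))))) (b (a (b (l 16772192) (a (l 16778584) (b (l 158544694007) (a (a (l 182703885223) (l 317458481431)) (l 367924348983))))) (b (a (b (l 16774584) (c (l 173577080567) (l 170892726007))) (b (c (l 186461983735) (a (l 16776200) (l 310479159319))) (c (l 360408156855) (l 366850607735)))) (a (b (c (l 340543932151) (a (l 326585287207) (l 3))) (l 3)) (l 3)))) (a (b (a (b (a (l 181630143767) (l 340007060599)) (l 390472928951)) (l 3)) (l 3)) (l 3)))) (a (b (a (b (a (b (l 387251703335) (l 3)) (l 3)) (l 3)) (l 3)) (l 3)) (l 3))), by decide +kernel⟩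

def k29_mm_202_s : ∃ t, chk3 f_mm_202_s t 28 21 1 = true :=
  ⟨(a (b (a (b (a (b (a (b (l 16778272) (a (l 190756949495) (l 346449511767))) (b (a (a (l 192367561831) (l 324974674391)) (l 374903671031)) (l 3))) (a (b (l 391546670999) (l 3)) (l 3))) (l 3)) (l 3)) (l 3)) (l 3)) (l 3)), by decide +kernel⟩

def k30_mm_202_s : ∃ t, chk3 f_mm_202_s t 29 10 1 = true :=
  ⟨(l 3), by decide +kernel⟩

def k31_mm_202_s : ∃ t, chk3 f_mm_202_s t 15 10 1 = true :=
  ⟨(l 3), by decide +kernel⟩

def k32_mm_202_s : ∃ t, chk3 f_mm_202_s t 7 11 1 = true :=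
  ⟨(l 3), by decide +kernel⟩

def k33_mm_202_s : ∃ t, chk3 f_mm_202_s t 12 24 1 = true :=
  ⟨(a (b (a (a (l 16743856) (l 16771096)) (a (l 16756768) (l 16783688))) (a (b (l 16755936) (l 16761072)) (a (b (l 16764856) (l 16778424)) (b (b (l 16769960) (a (l 16771184) (l 16779128))) (a (b (l 16774072) (a (l 218137368087) (b (l 253033976951) (l 366850608871)))) (b (a (b (l 16775872) (l 306184192071)) (b (l 318532223751) (l 3))) (l 371145581431))))))) (b (a (a (b (l 16766416) (a (l 16770608) (b (l 16772544) (a (l 16774640) (b (l 16775624) (l 288467451847)))))) (b (a (l 16782016) (b (l 16773528) (a (l 205252465335) (b (l 228874785111) (l 352355092967))))) (a (b (a (l 16775144) (b (l 16776160) (l 319069094807))) (a (b (l 305647321255) (l 3)) (l 3))) (b (a (b (l 333027739335) (l 3)) (l 3)) (l 3))))) (a (b (a (b (a (b (l 16775424) (l 281488129671)) (b (c (l 298667999111) (l 300815482711)) (l 379198640135))) (b (l 377051158167) (l 3))) (l 3)) (l 3)) (l 3))) (a (a (b (a (b (a (l 16774160)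 (l 210621174919)) (a (b (l 16779008) (l 331417126423)) (l 356650062183))) (b (a (b (l 236927849127) (l 358797544487)) (l 373829932871)) (l 3))) (l 3)) (l 3)) (l 3)))), by decide +kernel⟩

def k34_mm_202_s : ∃ t, chk3 f_mm_202_s t 12 25 1 = true :=
  ⟨(a (b (a (a (b (l 16763488) (l 16769016)) (b (l 16769760) (a (b (l 16772360) (l 204178724375)) (b (l 214379272951) (a (l 302426096423) (l 363629385431)))))) (a (b (a (b (l 16773192) (b (l 16775336) (l 279877516679))) (b (a (l 16778304) (b (l 16779288) (l 340543932711))) (a (l 343228288663) (l 3)))) (a (b (a (l 326048418007) (l 3)) (l 3)) (l 3))) (b (a (b (l 367387483639) (l 3)) (l 3)) (l 3)))) (a (a (b (a (l 16779536) (b (l 16780016) (a (l 236390980295) (l 333027740887)))) (a (b (a (l 221895464743) (l 317458483031)) (l 359334419687)) (l 3))) (b (a (b (a (l 285783097191) (l 350207611399)) (l 3)) (l 3)) (l 3))) (l 3))) (l 3)), by decide +kernel⟩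

def k35_mm_202_s : ∃ t, chk3 f_mm_202_s t 13 12 1 = true :=
  ⟨(l 3), by decide +kernel⟩

def k36_mm_202_s : ∃ t, chk3 f_mm_202_s t 6 13 1 = true :=
  ⟨(l 3), by decide +kernel⟩

def k37_mm_202_s : ∃ t, chk3 f_mm_202_s t 7 6 1 = true :=
  ⟨(l 3), by decide +kernel⟩

def k38_mm_202_s : ∃ t, chk3 f_mm_202_s t 3 7 1 = true :=
  ⟨(l 3), by decide +kernel⟩

theorem s39_mm_202_s : ∃ t, chk3 f_mm_202_s t 12 12 1 = true := ex3_b k33_mm_202_s k34_mm_202_s

theorem s40_mm_202_s : ∃ t, chk3 f_mm_202_s t 6 12 1 = true := ex3_a s39_mm_202_s k35_mm_202_s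

theorem s41_mm_202_s : ∃ t, chk3 f_mm_202_s t 6 6 1 = true := ex3_b s40_mm_202_s k36_mm_202_s

theorem s42_mm_202_s : ∃ t, chk3 f_mm_202_s t 3 6 1 = true := ex3_a s41_mm_202_s k37_mm_202_s

theorem s43_mm_202_s : ∃ t, chk3 f_mm_202_s t 3 3 1 = true := ex3_b s42_mm_202_s k38_mm_202_s

theorem s44_mm_202_s : ∃ t, chk3 f_mm_202_s t 28 20 1 = true := ex3_b k27_mm_202_s k28_mm_202_s

theorem s45_mm_202_s : ∃ t, chk3 f_mm_202_s t 28 10 1 = true := ex3_b s44_mm_202_s k29_mm_202_s

theorem s46_mm_202_s : ∃ t, chk3 f_mm_202_s t 14 10 1 = true := ex3_a s45_mm_202_s k30_mm_202_s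

theorem s47_mm_202_s : ∃ t, chk3 f_mm_202_s t 7 10 1 = true := ex3_a s46_mm_202_s k31_mm_202_s

theorem s48_mm_202_s : ∃ t, chk3 f_mm_202_s t 7 5 1 = true := ex3_b s47_mm_202_s k32_mm_202_s

theorem s49_mm_202_s : ∃ t, chk3 f_mm_202_s t 13 22 1 = true := ex3_a k24_mm_202_s k25_mm_202_s

theorem s50_mm_202_s : ∃ t, chk3 f_mm_202_s t 13 11 1 = true := ex3_b s49_mm_202_s k26_mm_202_s

theorem s51_mm_202_s : ∃ t, chk3 f_mm_202_s t 6 11 1 = true := ex3_a k23_mm_202_s s50_mm_202_s

theorem s52_mm_202_s : ∃ t, chk3 f_mm_202_s t 13 10 1 = true := ex3_b k21_mm_202_s k22_mm_202_s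

theorem s53_mm_202_s : ∃ t, chk3 f_mm_202_s t 6 10 1 = true := ex3_a k20_mm_202_s s52_mm_202_s

theorem s54_mm_202_s : ∃ t, chk3 f_mm_202_s t 6 5 1 = true := ex3_b s53_mm_202_s s51_mm_202_s

theorem s55_mm_202_s : ∃ t, chk3 f_mm_202_s t 3 5 1 = true := ex3_a s54_mm_202_s s48_mm_202_s

theorem s56_mm_202_s : ∃ t, chk3 f_mm_202_s t 60 18 1 = true := ex3_b k15_mm_202_s k16_mm_202_s

theorem s57_mm_202_s : ∃ t, chk3 f_mm_202_s t 30 18 1 = true := ex3_a s56_mm_202_s k17_mm_202_s

theorem s58_mm_202_s : ∃ t, chk3 f_mm_202_s t 15 18 1 = true := ex3_a s57_mm_202_s k18_mm_202_s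

theorem s59_mm_202_s : ∃ t, chk3 f_mm_202_s t 15 9 1 = true := ex3_b s58_mm_202_s k19_mm_202_s

theorem s60_mm_202_s : ∃ t, chk3 f_mm_202_s t 14 19 1 = true := ex3_a k13_mm_202_s k14_mm_202_s

theorem s61_mm_202_s : ∃ t, chk3 f_mm_202_s t 14 9 1 = true := ex3_b k12_mm_202_s s60_mm_202_s

theorem s62_mm_202_s : ∃ t, chk3 f_mm_202_s t 7 9 1 = true := ex3_a s61_mm_202_s s59_mm_202_s

theorem s63_mm_202_s : ∃ t, chk3 f_mm_202_s t 61 35 1 = true := ex3_a k9_mm_202_s k10_mm_202_s

theorem s64_mm_202_s : ∃ t, chk3 f_mm_202_s t 30 35 1 = true := ex3_a k8_mm_202_s s63_mm_202_s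

theorem s65_mm_202_s : ∃ t, chk3 f_mm_202_s t 30 34 1 = true := ex3_a k6_mm_202_s k7_mm_202_s

theorem s66_mm_202_s : ∃ t, chk3 f_mm_202_s t 30 17 1 = true := ex3_b s65_mm_202_s s64_mm_202_s

theorem s67_mm_202_s : ∃ t, chk3 f_mm_202_s t 15 17 1 = true := ex3_a s66_mm_202_s k11_mm_202_s

theorem s68_mm_202_s : ∃ t, chk3 f_mm_202_s t 15 8 1 = true := ex3_b k5_mm_202_s s67_mm_202_s

theorem s69_mm_202_s : ∃ t, chk3 f_mm_202_s t 7 8 1 = true := ex3_a k4_mm_202_s s68_mm_202_s

theorem s70_mm_202_s : ∃ t, chk3 f_mm_202_s t 7 4 1 = true := ex3_b s69_mm_202_s s62_mm_202_s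

theorem s71_mm_202_s : ∃ t, chk3 f_mm_202_s t 3 4 1 = true := ex3_a k3_mm_202_s s70_mm_202_s

theorem s72_mm_202_s : ∃ t, chk3 f_mm_202_s t 3 2 1 = true := ex3_b s71_mm_202_s s55_mm_202_s

theorem s73_mm_202_s : ∃ t, chk3 f_mm_202_s t 3 1 1 = true := ex3_b s72_mm_202_s s43_mm_202_s

theorem s74_mm_202_s : ∃ t, chk3 f_mm_202_s t 2 3 1 = true := ex3_b k1_mm_202_s k2_mm_202_s

theorem s75_mm_202_s : ∃ t, chk3 f_mm_202_s t 2 1 1 = true := ex3_b k0_mm_202_s s74_mm_202_s

theorem s76_mm_202_s : ∃ t, chk3 f_mm_202_s t 1 1 1 = true := ex3_a s75_mm_202_s s73_mm_202_s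

theorem c_mm_202_s : CertNE 0 536870912 1073741824 536870912 587336777 62277027 3 eng mog cd0q2 cd7q2 pd0 false false false .pp 2 0 2
    ndB0q2 ndB7q2 pcB0 cut_mm_202_s Ext.none :=
  certNE1 (fam := false) (s1 := false) (s2 := false) (a := 2) (b := 0) (c := 2) (cn := .pp) (n1 := ndB0q2) (n2 := ndB7q2) (pc := pcB0) (cut := cut_mm_202_s) (xt := Ext.none) (P1 := 0) (W1 := 536870912) (P2 := 1073741824) (W2 := 536870912) (P3 := 587336777) (W3 := 62277027) (N0 := 3) (En := eng) (mo := mog) (C1 := cd0q2) (C2 := cd7q2) (C3 := pd0)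
    rfl (fun _ => rfl) s76_mm_202_s

noncomputable def cut_mm_203_s : Cut := Cut.of [[⟨4, 0, 0, 1449551462⟩]]

noncomputable def f_mm_203_s : ℕ → ℕ → ℕ → ℕ → Bool := onCell 0 536870912 0 1230186008 587336777 62277027
    (rowNE 3 eng mog cd0q2 cd7q3 pd0 0 false false false .up 2 0 3 (qsf 0 536870912 0 1230186008 0) ndB0q2 ndB7q3 pcB0 cut_mm_203_s Ext.none)

def k0_mm_203_s : ∃ t, chk3 f_mm_203_s t 1 2 1 = true :=
  ⟨(l 2), by decide +kernel⟩

def k1_mm_203_s : ∃ t, chk3 f_mm_203_s t 1 6 1 = true :=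
  ⟨(l 2), by decide +kernel⟩

def k2_mm_203_s : ∃ t, chk3 f_mm_203_s t 2 14 1 = true :=
  ⟨(a (b (l 2) (b (l 2) (a (a (b (a (l 16781952) (l 16779272)) (l 16780744)) (a (b (l 16778656) (l 16778064)) (b (l 16777440) (l 16778256)))) (a (b (a (b (l 2) (l 242833436455)) (l 341617669655)) (a (l 16777280) (a (l 246591539863) (b (l 340007058327) (l 257865809575))))) (l 3))))) (l 3)), by decide +kernel⟩

def k3_mm_203_s : ∃ t, chk3 f_mm_203_s t 2 15 1 = true :=
  ⟨(a (b (a (a (b (l 16777376) (l 16765608)) (b (b (a (l 16777272) (l 16776384)) (l 16774224)) (l 16766888))) (b (a (b (a (l 16777224) (l 16787328)) (a (l 16774344) (l 16775776))) (b (a (b (l 321753447943) (a (l 16777024) (l 315847868295))) (l 3)) (a (b (l 239612210215) (l 16775904)) (a (b (l 323364060903) (l 247665273655)) (l 333564607815))))) (a (b (a (l 16770784) (l 16771968)) (l 16765968)) (a (b (l 16774016) (l 16769272)) (b (b (l 247665282951) (l 16775288)) (l 16772320)))))) (a (b (a (l 16749512) (l 16750072)) (l 16735816))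 (a (b (l 16755112) (b (l 16740440) (l 16729576))) (b (b (a (l 16762136) (l 16766304)) (a (l 16754360) (l 16757856))) (b (l 16747048) (l 16738440)))))) (b (a (b (l 3) (a (b (a (a (b (l 349133864727) (l 303499837287)) (l 3)) (l 3)) (a (a (l 222969213831) (b (l 308331676023) (l 16781248))) (a (b (l 3) (l 313700385255)) (l 3)))) (l 3))) (l 3)) (a (b (a (b (a (l 16770848) (a (b (l 239612211767) (l 16773376)) (b (l 320142836455) (l 243370310071)))) (a (l 16763800) (b (l 16771648) (l 16767896)))) (a (b (b (l 3) (l 346449512311)) (a (b (l 262160777111) (l 16773376)) (b (l 351281350471) (l 272361345335)))) (l 3))) (a (b (a (l 16753704) (l 16782360)) (a (l 16744816) (l 16750320))) (b (a (b (l 200420632167) (l 16766776)) (a (b (a (l 265918873527) (l 319069095463)) (l 220284857191)) (b (l 3) (a (l 278803776119) (l 343765158343))))) (a (b (l 16761856) (l 16756504)) (a (l 16766384) (b (l 224042957223) (l 16769152))))))) (b (l 3) (a (b (l 3) (a (a (b (a (l 304036709751) (l 3)) (b (l 258939550215)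 (l 16773592))) (b (l 3) (a (l 314237258103) (l 3)))) (l 3))) (l 3)))))), by decide +kernel⟩

def k4_mm_203_s : ∃ t, chk3 f_mm_203_s t 3 7 1 = true :=
  ⟨(l 3), by decide +kernel⟩

theorem s5_mm_203_s : ∃ t, chk3 f_mm_203_s t 2 7 1 = true := ex3_b k2_mm_203_s k3_mm_203_s

theorem s6_mm_203_s : ∃ t, chk3 f_mm_203_s t 1 7 1 = true := ex3_a s5_mm_203_s k4_mm_203_s

theorem s7_mm_203_s : ∃ t, chk3 f_mm_203_s t 1 3 1 = true := ex3_b k1_mm_203_s s6_mm_203_s

theorem s8_mm_203_s : ∃ t, chk3 f_mm_203_s t 1 1 1 = true := ex3_b k0_mm_203_s s7_mm_203_s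

theorem c_mm_203_s : CertNE 0 536870912 0 1230186008 587336777 62277027 3 eng mog cd0q2 cd7q3 pd0 false false false .up 2 0 3
    ndB0q2 ndB7q3 pcB0 cut_mm_203_s Ext.none :=
  certNE0 (fam := false) (s1 := false) (s2 := false) (a := 2) (b := 0) (c := 3) (cn := .up) (n1 := ndB0q2) (n2 := ndB7q3) (pc := pcB0) (cut := cut_mm_203_s) (xt := Ext.none) (P1 := 0) (W1 := 536870912) (P2 := 0) (W2 := 1230186008) (P3 := 587336777) (W3 := 62277027) (N0 := 3) (En := eng) (mo := mog) (C1 := cd0q2) (C2 := cd7q3) (C3 := pd0)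
    rfl s8_mm_203_s

noncomputable def cut_mm_213_s : Cut := Cut.of [[⟨4, 0, 0, 1449551462⟩]]

noncomputable def f_mm_213_s : ℕ → ℕ → ℕ → ℕ → Bool := onCell 0 536870912 0 1230186008 587336777 62277027
    (rowNE 3 eng mog cd0q2 cd7q3 pd1 0 false false false .pnn 2 1 3 (qsf 0 536870912 0 1230186008 1) ndB0q2 ndB7q3 pcB1 cut_mm_213_s Ext.none)

def k0_mm_213_s : ∃ t, chk3 f_mm_213_s t 1 1 1 = true :=
  ⟨(b (a (l 3) (b (l 5) (l 3))) (b (a (b (l 3) (a (l 3) (l 3))) (l 3)) (a (b (a (b (a (a (b (b (l 325511565799) (a (l 221895457463) (l 326048412103))) (a (b (l 16776936) (l 16775296)) (b (a (l 16776928) (l 286319967735)) (l 16776704)))) (b (l 3) (a (b (l 353965698295) (a (l 226190424503) (l 306184190407))) (l 3)))) (l 3)) (b (a (a (a (b (l 16773192) (l 16770488)) (b (l 16774968) (l 16771376))) (a (b (l 200420639095) (l 16774208)) (b (a (l 278803801111) (l 330880251207)) (b (l 218137373399) (l 16775792))))) (a (a (b (l 3) (a (l 298668019431) (l 3))) (l 3)) (l 3))) (b (a (a (a (l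 16766344) (l 16768864)) (a (l 16727640) (l 16773496))) (a (a (a (l 174113963303) (b (l 293299289751) (l 16780184))) (l 326048434023)) (l 3))) (l 1)))) (l 3)) (b (a (l 1) (a (l 1) (l 3))) (l 1))) (l 3)))), by decide +kernel⟩

theorem c_mm_213_s : CertNE 0 536870912 0 1230186008 587336777 62277027 3 eng mog cd0q2 cd7q3 pd1 false false false .pnn 2 1 3
    ndB0q2 ndB7q3 pcB1 cut_mm_213_s Ext.none :=
  certNE0 (fam := false) (s1 := false) (s2 := false) (a := 2) (b := 1) (c := 3) (cn := .pnn) (n1 := ndB0q2) (n2 := ndB7q3) (pc := pcB1) (cut := cut_mm_213_s) (xt := Ext.none) (P1 := 0) (W1 := 536870912) (P2 := 0) (W2 := 1230186008) (P3 := 587336777) (W3 := 62277027) (N0 := 3) (En := eng) (mo := mog) (C1 := cd0q2) (C2 := cd7q3) (C3 := pd1)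
    rfl k0_mm_213_s

end Pool.Agent.Strip051.G.I5470_6050.Tab.CS.BB07

namespace Pool.Agent.Strip051.G.I5470_6050.Tab.CS.BB70

open Pool.Agent.Strip051.PB Pool.Agent.Strip051.PB.T
open Pool.Agent.Strip051.G.I5470_6050.Tab

noncomputable def cut_pp_001_s : Cut := Cut.of [[⟨4, 0, 0, 1449551462⟩]]

noncomputable def f_pp_001_s : ℕ → ℕ → ℕ → ℕ → Bool := onCell 0 536870912 536870912 536870912 587336777 62277027
    (rowNE 3 eng mog cd7q0 cd0q1 pd0 2 false true true .up 0 0 1 (qsf 0 536870912 536870912 536870912 0) ndB7q0 ndB0q1 pcB0 cut_pp_001_s Ext.none)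

def k0_pp_001_s : ∃ t, chk3 f_pp_001_s t 2 1 1 = true :=
  ⟨(b (l 3) (b (b (l 3) (l 2)) (l 2))), by decide +kernel⟩

def k1_pp_001_s : ∃ t, chk3 f_pp_001_s t 6 2 1 = true :=
  ⟨(l 3), by decide +kernel⟩

def k2_pp_001_s : ∃ t, chk3 f_pp_001_s t 7 4 1 = true :=
  ⟨(l 3), by decide +kernel⟩

def k3_pp_001_s : ∃ t, chk3 f_pp_001_s t 14 5 1 = true :=
  ⟨(b (l 3) (a (b (l 3) (b (a (l 3) (b (l 3) (a (l 3) (b (l 3) (l 430201371527))))) (a (b (l 3) (a (l 3) (b (l 474224786535) (a (l 427517017719) (l 193441311495))))) (b (a (b (l 3) (a (l 3) (l 342154542919))) (b (a (l 378124893799) (l 16780488)) (l 16780408))) (a (a (b (l 225653568551) (l 16772144)) (l 16781296)) (l 16765336)))))) (b (b (l 3) (a (l 3) (b (a (l 3) (b (l 466171721559) (a (l 436643822439) (l 200420632727)))) (a (b (l 427517011319) (a (l 380272377271) (l 156934085591))) (b (a (l 178945794663) (l 16773656)) (l 16771744)))))) (b (a (b (a (l 476909139511) (b (a (l 3) (l 351818219207)) (a (l 275045678983) (l 16774480))))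 (a (b (a (l 443086273623) (l 209547438999)) (a (l 182167020615) (l 16772856))) (l 16780776))) (b (a (b (l 120963733879) (l 16770272)) (l 16766688)) (l 16782880))) (a (a (l 16779192) (l 16778352)) (l 16770040)))))), by decide +kernel⟩

def k4_pp_001_s : ∃ t, chk3 f_pp_001_s t 15 5 1 = true :=
  ⟨(b (a (b (l 3) (b (l 3) (a (l 3) (b (a (l 3) (l 481740975031)) (a (b (l 3) (l 450065594199)) (b (a (l 459192400311) (b (l 322827201463) (l 16776376))) (a (l 190220085319) (l 16774600)))))))) (b (b (l 3) (a (l 3) (b (l 3) (a (l 3) (b (l 479056622839) (a (l 444696885815) (b (l 217600501463) (l 16776176)))))))) (b (a (b (l 3) (a (l 3) (b (a (l 3) (l 384030473527)) (a (b (l 442549402583) (l 220821726343)) (l 16775808))))) (b (a (b (a (l 3) (l 424295791415)) (a (l 403894697015) (l 148344151863))) (b (a (l 162839667703) (l 16774712)) (l 16773592))) (a (b (a (l 16781280) (l 16774224)) (l 16773032)) (l 16770528)))) (a (b (a (b (a (l 3) (b (l 414095244519) (l 198273146919))) (a (b (l 386177957351)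 (l 16781896)) (l 16775264))) (b (l 16779840) (l 16772384))) (a (l 16778016) (l 16768928))) (b (l 16778504) (l 16763512)))))) (b (a (b (a (b (a (l 3) (b (l 3) (a (l 3) (l 389399182599)))) (a (b (l 3) (a (l 3) (l 340007059255))) (b (a (l 364703120935) (l 16775600)) (l 16779256)))) (b (a (b (a (l 413021502439) (l 171429601879)) (a (l 151565376551) (l 16773800))) (l 16771896)) (l 16777888))) (a (a (b (b (a (l 221358600167) (l 16774720)) (l 16772976)) (l 16768304)) (l 16777144)) (l 16778368))) (a (b (b (l 16786896) (l 16760696)) (l 16752136)) (b (l 16756200) (l 16745296)))) (a (b (a (l 16776560) (l 16746760)) (a (l 16739192) (l 16730496))) (b (a (l 16739128) (l 16732648)) (l 16720432))))), by decide +kernel⟩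

def k5_pp_001_s : ∃ t, chk3 f_pp_001_s t 12 6 1 = true :=
  ⟨(b (b (l 3) (a (l 3) (b (l 3) (a (l 3) (b (l 3) (a (b (l 3) (l 2)) (b (a (l 3) (b (l 474761661559) (a (l 406042183111) (l 16779008)))) (a (b (l 386714830695) (l 2)) (l 16780200))))))))) (b (a (l 2) (b (a (l 2) (b (a (l 2) (l 71504501367)) (l 2))) (l 2))) (l 2))), by decide +kernel⟩

def k6_pp_001_s : ∃ t, chk3 f_pp_001_s t 13 6 1 = true :=
  ⟨(b (a (b (l 3) (b (a (b (l 3) (a (l 3) (b (l 3) (a (l 3) (b (l 480667240471) (l 310479159463)))))) (b (a (b (l 3) (l 481740983575)) (b (a (l 3) (b (l 457044919351) (l 225116694823))) (a (b (l 377051153079) (l 161765924039)) (l 16772248)))) (a (b (a (l 421611439863) (b (l 231559146359) (l 16774144))) (a (b (l 167134633543) (l 16772432)) (l 16768896))) (l 16775016)))) (a (b (a (b (l 486572823975) (a (b (l 3) (l 394231023207)) (b (a (l 413558375655) (l 16776456)) (l 16774224)))) (b (a (b (l 395304764727) (l 170892730119)) (l 16777712)) (l 16778552))) (a (b (a (b (l 171429601047)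 (l 16772392)) (l 16768872)) (l 16785368)) (l 16778392))) (b (a (l 16782016) (l 16750496)) (l 16762720))))) (b (b (a (l 3) (b (l 3) (a (b (l 3) (a (l 3) (l 424295792823))) (b (a (l 474761658423) (b (l 378124894183) (l 16781016))) (a (b (l 239612209863) (l 16774392)) (l 16770888)))))) (a (b (a (l 3) (b (l 3) (a (l 3) (b (l 418927083879) (l 202031243991))))) (a (b (l 465097983559) (a (l 400136602455) (b (l 214379275991) (l 16773712)))) (b (a (b (l 345912639703) (l 16775264)) (l 16771704)) (l 16778064)))) (b (a (b (a (l 369534959831) (l 150491636503)) (a (l 16773200) (l 16767984))) (l 16774120)) (l 16777792)))) (b (a (b (a (b (a (l 124721830823) (l 16768584)) (l 16764368)) (l 16778328)) (l 16769864)) (b (l 16762864) (l 16728104))) (a (l 16770000) (l 16749432))))) (b (a (b (a (b (a (l 16774600) (l 16743096)) (l 16755024)) (a (l 16746504) (l 16715120))) (a (b (l 16719600) (l 2)) (b (l 16698928) (l 16684640)))) (b (a (b (l 16706752) (l 16692576)) (l 16679400)) (l 16724992))) (a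 (b (l 121970294487) (l 2)) (b (l 16634648) (l 16608152))))), by decide +kernel⟩

def k7_pp_001_s : ∃ t, chk3 f_pp_001_s t 7 6 1 = true :=
  ⟨(a (b (a (b (b (a (b (a (b (a (l 3) (l 388325441335)) (a (b (l 435033210743) (l 218137371975)) (l 16779096))) (b (a (l 159618441719) (l 16770856)) (l 16767256))) (a (b (l 16780584) (l 16763664)) (l 16758072))) (a (l 16777120) (l 16769912))) (a (a (l 16767816) (l 16758336)) (l 16747000))) (b (a (l 16735680) (l 16694800)) (a (l 16708136) (l 16667272)))) (b (a (b (l 16760416) (l 16713624)) (b (l 16728536) (l 16703536))) (b (l 16761856) (l 16641128)))) (b (a (b (l 16650408) (l 16623064)) (l 16619968)) (a (l 16604680) (l 16546928)))) (b (b (a (b (a (l 16718920) (l 16711224)) (l 16690952)) (l 16690672)) (a (l 16667216) (l 16638200))) (b (a (l 16567392) (l 16567104)) (a (l 16512064) (l 16479400))))), by decide +kernel⟩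

def k8_pp_001_s : ∃ t, chk3 f_pp_001_s t 3 7 1 = true :=
  ⟨(a (b (a (l 2) (b (a (l 2) (l 140223583367)) (l 2))) (l 2)) (b (a (b (a (l 16515120) (l 16501144)) (l 141833995143)) (b (l 16433456) (l 16425288))) (a (b (a (l 2) (l 16445040)) (l 2)) (b (l 16471152) (l 6))))), by decide +kernel⟩

theorem s9_pp_001_s : ∃ t, chk3 f_pp_001_s t 6 6 1 = true := ex3_a k5_pp_001_s k6_pp_001_s

theorem s10_pp_001_s : ∃ t, chk3 f_pp_001_s t 3 6 1 = true := ex3_a s9_pp_001_s k7_pp_001_s

theorem s11_pp_001_s : ∃ t, chk3 f_pp_001_s t 3 3 1 = true := ex3_b s10_pp_001_s k8_pp_001_s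

theorem s12_pp_001_s : ∃ t, chk3 f_pp_001_s t 7 5 1 = true := ex3_a k3_pp_001_s k4_pp_001_s

theorem s13_pp_001_s : ∃ t, chk3 f_pp_001_s t 7 2 1 = true := ex3_b k2_pp_001_s s12_pp_001_s

theorem s14_pp_001_s : ∃ t, chk3 f_pp_001_s t 3 2 1 = true := ex3_a k1_pp_001_s s13_pp_001_s

theorem s15_pp_001_s : ∃ t, chk3 f_pp_001_s t 3 1 1 = true := ex3_b s14_pp_001_s s11_pp_001_s

theorem s16_pp_001_s : ∃ t, chk3 f_pp_001_s t 1 1 1 = true := ex3_a k0_pp_001_s s15_pp_001_s

theorem c_pp_001_s : CertNE 0 536870912 536870912 536870912 587336777 62277027 3 eng mog cd7q0 cd0q1 pd0 false true true .up 0 0 1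
    ndB7q0 ndB0q1 pcB0 cut_pp_001_s Ext.none :=
  certNE2 (fam := false) (s1 := true) (s2 := true) (a := 0) (b := 0) (c := 1) (cn := .up) (n1 := ndB7q0) (n2 := ndB0q1) (pc := pcB0) (cut := cut_pp_001_s) (xt := Ext.none) (P1 := 0) (W1 := 536870912) (P2 := 536870912) (W2 := 536870912) (P3 := 587336777) (W3 := 62277027) (N0 := 3) (En := eng) (mo := mog) (C1 := cd7q0) (C2 := cd0q1) (C3 := pd0)
    rfl (fun _ => rfl) s16_pp_001_s

noncomputable def cut_pp_011_s : Cut := Cut.of [[⟨4, 0, 0, 1449551462⟩]]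

noncomputable def f_pp_011_s : ℕ → ℕ → ℕ → ℕ → Bool := onCell 536870912 536870912 536870912 536870912 587336777 62277027
    (rowNE 3 eng mog cd7q0 cd0q1 pd1 2 false true true .pnn 0 1 1 (qsf 0 536870912 536870912 536870912 1) ndB7q0 ndB0q1 pcB1 cut_pp_011_s Ext.none)

def k0_pp_011_s : ∃ t, chk3 f_pp_011_s t 8 8 1 = true :=
  ⟨(l 3), by decide +kernel⟩

def k1_pp_011_s : ∃ t, chk3 f_pp_011_s t 16 9 1 = true :=
  ⟨(b (l 3) (a (l 3) (b (l 3) (b (l 3) (a (l 3) (b (l 3) (a (l 3) (b (l 475298527879) (a (l 426443275623) (l 16776736)))))))))), by decide +kernel⟩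

def k2_pp_011_s : ∃ t, chk3 f_pp_011_s t 17 9 1 = true :=
  ⟨(b (b (l 3) (a (l 3) (b (l 3) (a (l 3) (b (l 3) (a (l 3) (b (l 3) (a (l 3) (a (a (l 532743716183) (l 404431568567)) (b (l 367924346727) (l 16776880))))))))))) (a (b (b (l 3) (a (l 3) (b (l 3) (a (l 3) (a (l 553144809623) (b (l 553681681175) (a (l 319069102087) (l 16776888)))))))) (b (a (b (l 3) (a (l 3) (b (l 513416362343) (a (l 482277850167) (l 166060890951))))) (b (a (b (l 530059360487) (a (l 507510782903) (c (l 234243497671) (l 213305514919)))) (b (a (c (l 244980905815) (l 275045669383)) (l 16776160)) (l 16775640))) (a (b (a (l 176261438775) (l 16776064)) (l 16775536)) (l 16774152)))) (a (b (a (b (l 494625880567) (a (l 455434304711) (l 142975440903))) (b (a (l 154786601383) (l 16775960)) (l 16775416))) (a (b (l 83919640647) (l 16775280)) (l 16773864))) (a (l 16773000) (l 16771136))))) (b (b (a (b (l 3) (a (l 3) (a (l 3) (b (l 3) (b (l 398525988487) (l 178945779783)))))) (b (a (b (l 3) (a (l 3) (a (l 414632115783)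 (a (l 287930574647) (l 133311754375))))) (b (a (a (l 423222047719) (b (l 316921604055) (l 16776864))) (l 16776408)) (l 16775936))) (a (a (b (a (l 405505310327) (a (l 278266898359) (l 16776928))) (l 16776336)) (l 16775896)) (l 16774536)))) (a (b (a (a (l 561197873191) (b (l 3) (a (l 373829926647) (l 144586052375)))) (a (b (a (l 385104215751) (l 172503329031)) (l 16776272)) (l 16775832))) (a (a (b (a (l 362018766631) (l 16779544)) (l 16776200)) (l 16775760)) (l 16774376))) (a (b (l 16774464) (l 16772552)) (l 16771704)))) (a (b (a (b (l 16774272) (l 16772304)) (l 16771456)) (l 16768392)) (l 16766800))))), by decide +kernel⟩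

def k3_pp_011_s : ∃ t, chk3 f_pp_011_s t 9 8 1 = true :=
  ⟨(a (a (l 3) (l 1)) (l 1)), by decide +kernel⟩

def k4_pp_011_s : ∃ t, chk3 f_pp_011_s t 18 36 1 = true :=
  ⟨(a (b (l 3) (a (l 3) (b (l 3) (a (l 3) (b (l 3) (a (l 3) (a (b (l 3) (a (l 567640325687) (b (l 550460456679) (a (b (l 476909141911) (l 148344142983)) (c (l 16777136) (l 16777104)))))) (b (a (l 568714067511) (l 1)) (a (b (a (b (l 477446012823) (l 148344142983)) (c (l 122440121479) (l 16777104))) (l 16776952)) (c (l 16776912) (l 16776768))))))))))) (b (l 1) (a (b (l 1) (a (a (b (l 1) (b (l 1) (l 16776288))) (l 1)) (l 1))) (l 1)))), by decide +kernel⟩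

def k5_pp_011_s : ∃ t, chk3 f_pp_011_s t 36 74 1 = true :=
  ⟨(a (b (l 3) (a (l 3) (b (l 3) (a (l 3) (a (a (l 564955970807) (a (l 498383976679) (b (l 3) (l 295446770455)))) (c (b (a (l 545091747495) (l 339470185879)) (l 16776984)) (b (l 401747211431) (l 16776880)))))))) (b (a (b (l 3) (a (l 3) (a (a (l 572472163559) (b (l 3) (b (l 519321943799) (a (l 310479157175) (l 16777112))))) (a (b (l 562271616567) (a (b (l 310479157175) (l 16777000)) (l 16777000))) (b (b (l 522543169255) (c (l 194515040103) (l 190220072839))) (l 16776832)))))) (b (b (a (a (l 3) (a (l 566566583863) (b (l 526838136551) (a (c (l 309942286247) (l 312626640807)) (l 16777120))))) (a (a (b (a (c (l 309942286247) (l 312626640807)) (l 87140858983)) (l 16776952)) (c (l 16776912) (l 16776768))) (l 16776504))) (a (b (a (l 541870521911) (a (a (a (l 314774124567) (l 268066355751)) (l 16777120)) (l 16776952))) (a (a (l 523616911079) (a (l 311016028071) (l 16777120))) (l 16776840))) (l 16776280))) (a (b (a (a (a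 (b (l 310479157159) (l 16777008)) (l 16777008)) (l 16776840)) (l 16776496)) (l 16776272)) (l 16775600)))) (a (a (a (a (b (l 569787809015) (b (l 113447532455) (l 16776600))) (b (b (l 3) (b (l 511805751031) (l 185388234727))) (l 16776600))) (b (a (b (l 556366036551) (a (l 144586045303) (l 16777000))) (b (b (l 516100718327) (l 188609460119)) (l 16776832))) (l 16776264))) (b (a (a (b (b (l 189683201943) (l 16776944)) (l 16776608)) (l 16776608)) (l 16776272)) (l 16775584))) (l 16774696)))), by decide +kernel⟩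

def k6_pp_011_s : ∃ t, chk3 f_pp_011_s t 36 75 1 = true :=
  ⟨(a (b (a (b (l 3) (a (l 3) (a (b (l 3) (l 381882987767)) (b (a (l 529522490999) (l 315310993223)) (l 16776912))))) (b (b (a (a (l 3) (a (l 540259909223) (l 312626641095))) (c (l 16776800) (l 16776608))) (a (a (a (l 534891200103) (l 311552896663)) (l 16776920)) (l 16776248))) (a (c (l 16776608) (l 16776320)) (l 16775560)))) (a (b (a (a (c (l 434496336919) (l 441475661191)) (b (l 377588023111) (l 16776896))) (l 16776448)) (a (l 16776432) (l 16775528))) (l 16774640))) (a (b (l 16774672) (l 16772848)) (l 16771976))), by decide +kernel⟩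

def k7_pp_011_s : ∃ t, chk3 f_pp_011_s t 37 37 1 = true :=
  ⟨(a (b (b (a (l 16774712) (l 16773008)) (l 16772016)) (l 16769296)) (l 16778256)), by decide +kernel⟩

def k8_pp_011_s : ∃ t, chk3 f_pp_011_s t 18 19 1 = true :=
  ⟨(a (b (a (b (a (b (l 16774592) (l 16772736)) (l 16771872)) (l 16769032)) (l 16767352)) (l 16761544)) (b (l 16762048) (l 16754616))), by decide +kernel⟩

def k9_pp_011_s : ∃ t, chk3 f_pp_011_s t 19 9 1 = true :=
  ⟨(b (a (b (l 1) (l 129419440759)) (l 1)) (a (b (l 16755352) (l 16747656)) (l 16766896))), by decide +kernel⟩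

def k10_pp_011_s : ∃ t, chk3 f_pp_011_s t 4 5 1 = true :=
  ⟨(a (b (a (b (a (b (b (l 3) (a (l 3) (b (l 3) (a (l 539723036263) (b (l 383493602695) (l 158544700375)))))) (b (a (b (l 508047651527) (a (l 481740978247) (b (l 306184205575) (l 16776288)))) (b (a (b (l 359871282791) (l 133848637111)) (l 16774960)) (l 16773672))) (a (b (a (b (l 279877529431) (l 16776080)) (l 16774496)) (l 16773120)) (l 16770072)))) (b (b (a (b (l 3) (a (l 3) (b (l 426980146151) (a (l 325511555511) (l 16776488))))) (b (a (b (l 447381240631) (a (l 392083537431) (l 16776616))) (b (l 16776184) (l 16775128))) (a (l 16775504) (l 16773512)))) (a (b (a (b (l 405505309879) (a (l 304573588663) (l 16776336))) (l 16775344)) (l 16774128)) (l 16771224))) (a (b (l 16770704) (l 16766008)) (l 16764456)))) (a (b (a (b (l 16769320) (l 16764088)) (l 16762592)) (l 16774808)) (b (l 16777776) (l 16746472)))) (b (b (a (a (b (a (l 16772632) (l 16770720)) (l 16767376)) (l 16765824)) (l 16760496)) (a (l 16758936) (l 16752048)))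 (b (a (l 16749720) (l 16743160)) (a (l 16739752) (l 16733616))))) (a (b (a (b (l 16741832) (l 16728056)) (b (l 16734808) (l 16722504))) (b (l 16689960) (l 16692984))) (b (b (l 16726336) (l 16714008)) (l 16692432)))) (b (b (a (b (l 16771248) (l 16762960)) (b (l 16778696) (l 16729320))) (a (b (l 16733776) (l 16724808)) (l 16716696))) (b (a (l 16709024) (l 16697976)) (l 16720784)))), by decide +kernel⟩

def k11_pp_011_s : ∃ t, chk3 f_pp_011_s t 5 2 1 = true :=
  ⟨(b (a (b (l 1) (a (b (l 1) (l 154652408295)) (l 1))) (l 1)) (a (b (b (a (l 16721192) (l 16715280)) (l 16698632)) (b (l 16679928) (l 16659304))) (b (b (l 1) (l 16691512)) (b (l 16663624) (l 16637552))))), by decide +kernel⟩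

def k12_pp_011_s : ∃ t, chk3 f_pp_011_s t 2 3 1 = true :=
  ⟨(b (a (a (b (b (a (l 16659872) (l 16653808)) (a (l 16601296) (l 16600432))) (b (a (l 16525368) (l 16529160)) (l 16532712))) (b (b (l 16644912) (l 16703088)) (b (l 16536816) (l 16452960)))) (b (a (b (l 16631376) (l 16593400)) (b (l 16611048) (l 16581000))) (a (b (l 16540808) (l 6)) (l 6)))) (a (b (a (b (l 16432648) (l 16408976)) (b (l 6) (l 6))) (l 6)) (l 6))), by decide +kernel⟩

def k13_pp_011_s : ∃ t, chk3 f_pp_011_s t 3 1 1 = true :=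
  ⟨(b (a (b (l 1) (a (b (l 1) (b (l 1) (l 16641168))) (l 1))) (l 1)) (b (a (b (l 6) (l 6)) (l 6)) (l 6))), by decide +kernel⟩

theorem s14_pp_011_s : ∃ t, chk3 f_pp_011_s t 36 37 1 = true := ex3_b k5_pp_011_s k6_pp_011_s

theorem s15_pp_011_s : ∃ t, chk3 f_pp_011_s t 18 37 1 = true := ex3_a s14_pp_011_s k7_pp_011_s

theorem s16_pp_011_s : ∃ t, chk3 f_pp_011_s t 18 18 1 = true := ex3_b k4_pp_011_s s15_pp_011_s

theorem s17_pp_011_s : ∃ t, chk3 f_pp_011_s t 18 9 1 = true := ex3_b s16_pp_011_s k8_pp_011_s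

theorem s18_pp_011_s : ∃ t, chk3 f_pp_011_s t 9 9 1 = true := ex3_a s17_pp_011_s k9_pp_011_s

theorem s19_pp_011_s : ∃ t, chk3 f_pp_011_s t 9 4 1 = true := ex3_b k3_pp_011_s s18_pp_011_s

theorem s20_pp_011_s : ∃ t, chk3 f_pp_011_s t 8 9 1 = true := ex3_a k1_pp_011_s k2_pp_011_s

theorem s21_pp_011_s : ∃ t, chk3 f_pp_011_s t 8 4 1 = true := ex3_b k0_pp_011_s s20_pp_011_s

theorem s22_pp_011_s : ∃ t, chk3 f_pp_011_s t 4 4 1 = true := ex3_a s21_pp_011_s s19_pp_011_s

theorem s23_pp_011_s : ∃ t, chk3 f_pp_011_s t 4 2 1 = true := ex3_b s22_pp_011_s k10_pp_011_s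

theorem s24_pp_011_s : ∃ t, chk3 f_pp_011_s t 2 2 1 = true := ex3_a s23_pp_011_s k11_pp_011_s

theorem s25_pp_011_s : ∃ t, chk3 f_pp_011_s t 2 1 1 = true := ex3_b s24_pp_011_s k12_pp_011_s

theorem s26_pp_011_s : ∃ t, chk3 f_pp_011_s t 1 1 1 = true := ex3_a s25_pp_011_s k13_pp_011_s

theorem c_pp_011_s : CertNE 0 536870912 536870912 536870912 587336777 62277027 3 eng mog cd7q0 cd0q1 pd1 false true true .pnn 0 1 1
    ndB7q0 ndB0q1 pcB1 cut_pp_011_s Ext.none :=
  certNE2 (fam := false) (s1 := true) (s2 := true) (a := 0) (b := 1) (c := 1) (cn := .pnn) (n1 := ndB7q0) (n2 := ndB0q1) (pc := pcB1) (cut := cut_pp_011_s) (xt := Ext.none) (P1 := 0) (W1 := 536870912) (P2 := 536870912) (W2 := 536870912) (P3 := 587336777) (W3 := 62277027) (N0 := 3) (En := eng) (mo := mog) (C1 := cd7q0) (C2 := cd0q1) (C3 := pd1)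
    rfl (fun _ => rfl) s26_pp_011_s

noncomputable def cut_pp_012_s : Cut := Cut.of [[⟨4, 0, 0, 1449551462⟩]]

noncomputable def f_pp_012_s : ℕ → ℕ → ℕ → ℕ → Bool := onCell 0 536870912 0 536870912 587336777 62277027
    (rowNE 3 eng mog cd7q0 cd0q2 pd1 0 false true true .pnp 0 1 2 (qsf 0 536870912 0 536870912 1) ndB7q0 ndB0q2 pcB1 cut_pp_012_s Ext.none)

def k0_pp_012_s : ∃ t, chk3 f_pp_012_s t 1 1 1 = true :=
  ⟨(b (l 6) (l 6)), by decide +kernel⟩

theorem c_pp_012_s : CertNE 0 536870912 0 536870912 587336777 62277027 3 eng mog cd7q0 cd0q2 pd1 false true true .pnp 0 1 2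
    ndB7q0 ndB0q2 pcB1 cut_pp_012_s Ext.none :=
  certNE0 (fam := false) (s1 := true) (s2 := true) (a := 0) (b := 1) (c := 2) (cn := .pnp) (n1 := ndB7q0) (n2 := ndB0q2) (pc := pcB1) (cut := cut_pp_012_s) (xt := Ext.none) (P1 := 0) (W1 := 536870912) (P2 := 0) (W2 := 536870912) (P3 := 587336777) (W3 := 62277027) (N0 := 3) (En := eng) (mo := mog) (C1 := cd7q0) (C2 := cd0q2) (C3 := pd1)
    rfl k0_pp_012_s

noncomputable def cut_pp_022_s : Cut := Cut.of [[⟨4, 0, 0, 1449551462⟩]]

noncomputable def f_pp_022_s : ℕ → ℕ → ℕ → ℕ → Bool := onCell 1073741824 536870912 0 536870912 587336777 62277027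
    (rowNE 3 eng mog cd7q0 cd0q2 pd2 2 false true true .pp 0 2 2 (qsf 0 536870912 0 536870912 2) ndB7q0 ndB0q2 pcB2 cut_pp_022_s Ext.none)

def k0_pp_022_s : ∃ t, chk3 f_pp_022_s t 1 1 1 = true :=
  ⟨(l 6), by decide +kernel⟩

theorem c_pp_022_s : CertNE 0 536870912 0 536870912 587336777 62277027 3 eng mog cd7q0 cd0q2 pd2 false true true .pp 0 2 2
    ndB7q0 ndB0q2 pcB2 cut_pp_022_s Ext.none :=
  certNE2 (fam := false) (s1 := true) (s2 := true) (a := 0) (b := 2) (c := 2) (cn := .pp) (n1 := ndB7q0) (n2 := ndB0q2) (pc := pcB2) (cut := cut_pp_022_s) (xt := Ext.none) (P1 := 0) (W1 := 536870912) (P2 := 0) (W2 := 536870912) (P3 := 587336777) (W3 := 62277027) (N0 := 3) (En := eng) (mo := mog) (C1 := cd7q0) (C2 := cd0q2) (C3 := pd2)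
    rfl (fun _ => rfl) k0_pp_022_s

end Pool.Agent.Strip051.G.I5470_6050.Tab.CS.BB70

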