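import Pool.Agent.Strip051.G.I5470_6050.Tab
import Pool.Agent.Strip051.PB.StripB

/-! # Strips, near vertex: certificates 7 (generated) -/

set_option linter.all false
set_option maxRecDepth 100000

namespace Pool.Agent.Strip051.G.I5470_6050.Tab.CS.BB70

open Pool.Agent.Strip051.PB Pool.Agent.Strip051.PB.T
open Pool.Agent.Strip051.G.I5470_6050.Tab

noncomputable def cut_pp_101_s : Cut := Cut.of [[⟨4, 0, 0, 1449551462⟩], [⟨0, 1, 0, 67108864⟩, ⟨1, 0, 0, 67108864⟩, ⟨2, 1, 0, 67108864⟩]]

noncomputable def f_pp_101_s : ℕ → ℕ → ℕ → ℕ → Bool := onCell 0 536870912 536870912 536870912 587336777 62277027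
    (rowNE 3 eng mog cd7q1 cd0q1 pd0 2 false true true .npn 1 0 1 (qsf 536870912 536870912 536870912 536870912 0) ndB7q1 ndB0q1 pcB0 cut_pp_101_s Ext.none)

def k0_pp_101_s : ∃ t, chk3 f_pp_101_s t 2 2 1 = true :=
  ⟨(l 3), by decide +kernel⟩

def k1_pp_101_s : ∃ t, chk3 f_pp_101_s t 4 6 1 = true :=
  ⟨(l 3), by decide +kernel⟩

def k2_pp_101_s : ∃ t, chk3 f_pp_101_s t 5 12 1 = true :=
  ⟨(l 3), by decide +kernel⟩

def k3_pp_101_s : ∃ t, chk3 f_pp_101_s t 10 13 1 = true :=
  ⟨(l 3), by decide +kernel⟩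

def k4_pp_101_s : ∃ t, chk3 f_pp_101_s t 11 26 1 = true :=
  ⟨(l 3), by decide +kernel⟩

def k5_pp_101_s : ∃ t, chk3 f_pp_101_s t 22 27 1 = true :=
  ⟨(b (l 3) (a (l 3) (b (l 3) (a (l 3) (b (l 3) (a (l 3) (b (b (l 3) (a (l 3) (a (l 3) (b (l 428590761927) (a (c (l 368461218519) (l 372756185815)) (c (l 16777960) (l 161765917975))))))) (b (a (b (l 3) (a (l 3) (a (l 3) (a (l 427517019175) (l 350744478103))))) (a (b (a (l 427517019495) (a (l 351281349015) (l 192904430887))) (a (a (l 193441301783) (l 16776808)) (l 16776328))) (l 69960991767))) (a (b (a (l 428053890999) (a (a (l 350744478087) (l 192367559959)) (l 16776648))) (a (a (c (l 366313734855) (l 371145573063)) (c (l 16777632) (l 159618434327))) (l 16776008))) (l 16777192)))))))))), by decide +kernel⟩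

def k6_pp_101_s : ∃ t, chk3 f_pp_101_s t 23 54 1 = true :=
  ⟨(a (l 3) (b (a (l 3) (b (l 3) (a (l 3) (b (l 3) (a (l 3) (l 428053894375)))))) (a (b (l 3) (a (a (l 3) (a (l 3) (a (l 3) (b (l 3) (l 431275118759))))) (b (b (l 3) (a (l 3) (a (l 430738246423) (a (l 249812750215) (l 169282112151))))) (b (a (a (l 3) (l 377588024855)) (a (l 147270405031) (l 16775432))) (a (a (a (l 345375769575) (l 182167014231)) (l 16776136)) (l 16774176)))))) (b (a (b (l 3) (a (c (l 429127636663) (l 434496344503)) (a (b (l 3) (l 197199400743)) (b (l 336785835047) (l 16775920))))) (b (b (a (l 3) (a (l 240685945767) (l 16776376))) (a (a (l 413558376775) (l 183777627751)) (l 16775128))) (c (l 16778912) (a (l 16777472) (l 16772176))))) (a (b (b (a (a (l 348060124471) (l 137069857335)) (l 16774664)) (l 46338672823)) (l 16776464)) (l 16778384)))))), by decide +kernel⟩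

def k7_pp_101_s : ∃ t, chk3 f_pp_101_s t 46 110 1 = true :=
  ⟨(a (l 3) (b (a (l 3) (b (l 3) (a (l 3) (a (b (l 3) (b (l 414632117911) (a (l 238001588679) (l 16776800)))) (a (b (l 3) (l 119889987479)) (b (l 360408155383) (l 16775976))))))) (a (b (b (l 3) (a (l 3) (a (l 3) (b (l 422685181719) (a (l 336248963575) (l 16777520)))))) (b (a (b (l 3) (a (l 3) (a (l 3) (l 341080801831)))) (a (b (a (l 417316472007) (c (l 190220076935) (l 192367560407))) (c (l 16777888) (l 97341408439))) (l 16777056))) (a (a (b (c (l 425906407271) (l 430738245479)) (a (b (l 3) (l 236390975031)) (c (l 16777904) (l 138680468631)))) (b (a (a (l 233706620775) (l 159081563287)) (l 16776576)) (l 16775936))) (l 16777104)))) (b (a (b (b (a (l 3) (a (l 407115924567) (l 180556400407))) (a (a (l 3) (l 243370297863)) (l 16777816))) (a (a (b (l 186461980503) (l 16776216)) (l 16776048)) (l 16775072))) (l 16778016)) (l 16776800))))), by decide +kernel⟩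

def k8_pp_101_s : ∃ t, chk3 f_pp_101_s t 46 111 1 = true :=
  ⟨(b (a (a (b (l 3) (a (l 3) (a (b (l 3) (b (c (l 426443278279) (l 431811987399)) (a (c (l 367924347591) (l 372756185799)) (c (l 16777952) (l 160155305223))))) (a (b (l 3) (b (a (l 349670736263) (l 191293818119)) (l 16776320))) (b (a (l 429127632823) (b (l 3) (l 349133865335))) (l 16777472)))))) (b (b (a (l 3) (a (b (l 3) (a (l 3) (a (l 421074568167) (l 255718328231)))) (b (a (l 424832664855) (a (l 254107715479) (l 181093270711))) (a (a (l 183240754375) (l 16776768)) (l 16776280))))) (a (a (l 3) (b (c (l 424295794599) (l 430738245543)) (a (c (l 364703122087) (l 368998089383)) (c (l 16777856) (l 155323466983))))) (a (a (b (a (l 257328940983) (l 185388238039)) (l 16776296)) (l 16777448)) (l 16775168)))) (b (a (a (a (b (l 428590761287) (a (l 189683205383) (l 16776792))) (b (a (l 260013295575) (l 188609463543)) (l 16776312))) (l 66202895335)) (l 16776512)) (l 16777528)))) (a (a (a (b (b (l 16777760) (l 16773880))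 (l 16771008)) (l 16776872)) (l 16774944)) (l 16776328))) (a (a (b (b (a (a (b (l 3) (a (l 3) (a (l 427517019191) (l 351281349015)))) (b (b (l 402820957367) (a (l 424295793559) (l 164450272295))) (a (a (l 193441301783) (l 16776808)) (l 16776328)))) (c (l 16777864) (l 16777784))) (a (b (a (a (a (l 351818219927) (l 192904430887)) (l 16776648)) (l 16775688)) (l 16777992)) (l 16773280))) (l 16776928)) (l 16776344)) (l 16771304))), by decide +kernel⟩

def k9_pp_101_s : ∃ t, chk3 f_pp_101_s t 47 55 1 = true :=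
  ⟨(a (b (b (a (b (b (a (l 3) (a (a (l 430738246055) (l 350744478791)) (a (l 188072594343) (l 16776512)))) (b (a (l 421074569991) (l 88751474583)) (a (a (l 3) (l 174113950023)) (l 16775096)))) (b (a (b (a (a (l 394231022535) (l 16777728)) (l 16776096)) (l 16778408)) (l 16773664)) (l 16778304))) (c (l 16776104) (l 16778448))) (c (l 16776456) (l 16775960))) (l 16765528)) (b (a (l 16772232) (l 16777560)) (l 16744216))), by decide +kernel⟩

def k10_pp_101_s : ∃ t, chk3 f_pp_101_s t 4 14 1 = true :=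
  ⟨(a (l 3) (b (l 3) (a (l 3) (b (l 3) (a (l 3) (b (l 3) (a (b (l 3) (a (l 3) (b (l 3) (b (a (l 3) (l 383493605975)) (a (l 404431572135) (a (l 308868546727) (l 16776256))))))) (a (b (l 3) (a (a (b (l 3) (b (l 162302790855) (l 16775120))) (b (b (l 3) (l 347523253239)) (l 16774944))) (b (b (a (l 411410893223) (l 320679706967)) (l 113447537671)) (l 16773224)))) (b (b (a (l 3) (l 414095250567)) (b (a (l 3) (a (l 353428833431) (l 138680470519))) (a (a (l 381346121527) (l 202568109575)) (l 16775416)))) (b (c (l 16778952) (l 74255960615)) (l 16769768))))))))))), by decide +kernel⟩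

def k11_pp_101_s : ∃ t, chk3 f_pp_101_s t 8 30 1 = true :=
  ⟨(a (l 3) (b (l 3) (a (l 3) (b (l 3) (a (l 3) (b (l 3) (a (l 3) (b (l 3) (b (a (l 3) (a (l 3) (b (l 404431570695) (a (c (l 331953996311) (l 335712092679)) (c (l 159081563463) (l 155323467063)))))) (a (b (l 3) (a (l 3) (a (c (l 358260671335) (l 363092509511)) (b (l 330880254295) (l 16776920))))) (a (b (a (c (l 344838898375) (l 349670736551)) (b (l 233706620199) (l 16776824))) (l 16777656)) (l 16777720)))))))))))), by decide +kernel⟩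

def k12_pp_101_s : ∃ t, chk3 f_pp_101_s t 16 31 1 = true :=
  ⟨(b (b (l 3) (l 14)) (l 14)), by decide +kernel⟩

def k13_pp_101_s : ∃ t, chk3 f_pp_101_s t 34 124 1 = true :=
  ⟨(a (l 3) (b (l 3) (a (l 3) (a (l 3) (b (l 3) (b (l 3) (b (a (l 3) (b (a (l 3) (c (l 358797541959) (l 363629380151))) (a (c (l 366313734791) (l 371145572983)) (a (l 185925108615) (l 16776904))))) (a (b (a (l 3) (l 376514282167)) (a (l 384030474999) (a (c (l 214916137815) (l 213842395991)) (l 16777632)))) (b (a (a (a (l 210084299831) (l 170355851943)) (l 16776936)) (l 16776528)) (l 16776288)))))))))), by decide +kernel⟩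

def k14_pp_101_s : ∃ t, chk3 f_pp_101_s t 34 125 1 = true :=
  ⟨(a (b (b (l 3) (l 14)) (l 14)) (a (a (b (b (l 3) (b (b (b (l 3) (l 14)) (l 14)) (l 14))) (l 14)) (b (b (b (l 3) (b (a (l 3) (a (l 3) (b (l 3) (a (l 356113187223) (a (l 209547428695) (l 158007820903)))))) (a (a (l 3) (b (l 3) (a (l 375440540167) (b (l 289541194487) (l 16777440))))) (b (a (a (l 364703121879) (b (l 272361325255) (l 16777408))) (l 16777456)) (c (l 16777544) (l 95193924231)))))) (b (a (b (a (b (b (l 379735507511) (a (l 375977410919) (l 162302788183))) (a (l 138143597255) (l 16776760))) (c (l 102173246199) (l 105394471495))) (l 16777160)) (l 16777240)) (l 16776376))) (b (l 16770656) (l 14)))) (b (b (b (a (b (a (l 3) (a (c (l 397452248375) (l 403894699287)) (b (l 391546667831) (a (c (l 239612199895) (l 315847868567)) (l 141364822743))))) (a (a (l 3) (b (l 3) (a (c (l 334638350631) (l 338933317911)) (l 166597755655)))) (a (b (a (c (l 325511545063) (l 326048415959)) (l 152102241047)) (l 16776704))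 (l 16777720)))) (a (a (b (a (b (c (l 224042943383) (l 225116685207)) (l 16776768)) (l 113984406215)) (l 16775864)) (l 16777136)) (l 16777624))) (a (b (a (a (b (a (l 346449510743) (c (l 173040206663) (l 172503335751))) (l 16777424)) (l 16777136)) (l 16775656)) (l 16777144)) (l 16776120))) (c (l 16776792) (l 16776728))) (b (c (l 16776592) (l 16772512)) (l 16763176))))), by decide +kernel⟩

def k15_pp_101_s : ∃ t, chk3 f_pp_101_s t 70 124 1 = true :=
  ⟨(b (a (l 3) (b (l 3) (b (b (l 3) (b (l 3) (a (l 3) (a (l 3) (a (l 3) (l 338933318007)))))) (a (b (l 3) (b (l 3) (a (l 3) (a (l 3) (l 374366798487))))) (a (a (b (l 3) (b (l 364703122007) (l 160692175911))) (b (a (l 3) (l 360408154839)) (c (l 125795566631) (l 124184953879)))) (b (a (b (l 346986381767) (l 141901693847)) (l 118279373703)) (l 16775936))))))) (a (b (b (l 3) (a (l 3) (a (b (l 3) (b (a (l 3) (a (l 361481896375) (l 190756946855))) (a (a (l 373293056503) (l 207936816007)) (l 16777472)))) (b (b (a (l 3) (a (l 340007059751)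 (l 168745239303))) (a (a (l 351818219879) (l 179482657623)) (l 16776744))) (l 16777560))))) (b (a (a (b (l 3) (b (a (l 3) (a (l 3) (l 326048415943))) (a (c (l 351281349127) (l 355576316407)) (c (l 139217339191) (l 139217339143))))) (b (b (a (l 3) (a (l 384567345719) (l 215453008919))) (a (a (l 395841634935) (l 235317232567)) (l 123648082679))) (c (l 104857600935) (c (l 101636375351) (l 100562633527))))) (a (a (b (l 102173246343) (l 16775576)) (l 16776856)) (l 16774720))) (a (b (a (a (a (b (l 175724561207) (l 16776632)) (l 16776608)) (l 16776200)) (l 16775376)) (l 16777520)) (l 16773224)))) (b (b (a (a (b (a (l 3) (l 396378506455)) (b (a (l 400673473383) (c (l 194515043447) (l 192904430615))) (a (a (l 249275876375) (l 16777568)) (l 16776664)))) (b (b (a (l 382419862247) (c (l 170355852295) (l 170892723159))) (a (a (l 226190427015) (l 16777000)) (l 16776592))) (l 16777408))) (l 16777664)) (a (c (l 16777760) (l 16777728)) (l 16772928))) (l 16775552)))), by decide +kernel⟩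

def k16_pp_101_s : ∃ t, chk3 f_pp_101_s t 71 124 1 = true :=
  ⟨(b (a (b (b (a (l 3) (a (l 3) (b (l 3) (b (l 386177959015) (a (l 385104216807) (l 173577077799)))))) (a (b (l 3) (b (l 3) (a (l 3) (a (l 3) (l 216526750983))))) (b (b (a (l 398525990151) (a (l 184851366999) (l 16776592))) (a (a (l 403894698871) (l 196125656199)) (l 16776360))) (b (a (a (l 206863074487) (l 16776680)) (l 16775856)) (l 16777216))))) (a (b (a (a (b (l 3) (b (l 324974674215) (l 16777544))) (b (b (l 3) (l 316384739543)) (l 16777256))) (a (b (b (l 307794804871) (l 16776808)) (l 16776048)) (l 16777320))) (l 16777424)) (c (l 16776280) (l 16776232)))) (b (a (b (a (a (b (l 379198637047) (l 134385501303)) (b (b (l 356113187319) (l 16777664)) (l 16776256))) (b (l 110763181191) (l 16775432))) (l 16777088)) (l 16777224)) (l 16775600))) (a (a (l 16774976) (l 16772784)) (a (l 16775816) (l 16773656)))), by decide +kernel⟩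

def k17_pp_101_s : ∃ t, chk3 f_pp_101_s t 35 125 1 = true :=
  ⟨(a (b (b (a (c (l 16776536) (l 16776464)) (l 16777336)) (a (l 16776920) (l 16762760))) (a (l 16775936) (b (l 16758480) (l 16754192)))) (a (b (l 16776168) (l 16751888)) (l 16772672))), by decide +kernel⟩

def k18_pp_101_s : ∃ t, chk3 f_pp_101_s t 17 63 1 = true :=
  ⟨(b (a (a (l 14) (a (l 14) (l 16762824))) (a (a (l 16768816) (b (l 16747760) (l 16739072))) (b (l 16741120) (l 16732512)))) (a (l 14) (b (a (l 16732768) (l 16723952)) (l 16740632)))), by decide +kernel⟩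

def k19_pp_101_s : ∃ t, chk3 f_pp_101_s t 18 60 1 = true :=
  ⟨(a (l 3) (b (l 3) (a (l 3) (b (l 3) (a (b (l 3) (a (l 3) (b (l 401210346663) (a (a (l 360945026311) (l 310479159591)) (l 140827953143))))) (b (b (a (l 3) (a (l 3) (l 351281349943))) (b (a (l 3) (a (l 339470189287) (l 16776552))) (a (l 378661767047) (l 16777456)))) (b (a (a (a (l 337322705719) (l 184851368215)) (l 16778304)) (l 16774712)) (l 16779128)))))))), by decide +kernel⟩

def k20_pp_101_s : ∃ t, chk3 f_pp_101_s t 18 122 1 = true :=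
  ⟨(a (a (l 3) (b (l 3) (a (b (l 3) (b (l 3) (a (l 3) (a (l 3) (a (l 3) (l 389936056039)))))) (b (b (l 3) (b (l 3) (a (l 3) (a (l 3) (l 329269641799))))) (a (a (b (l 3) (b (l 372219315383) (a (l 207399945783) (l 16776656)))) (b (b (l 3) (l 353428833255)) (b (l 145659790983) (l 16775840)))) (b (a (b (l 341617672983) (l 133311759783)) (l 16777912)) (l 16774696))))))) (a (b (a (a (l 3) (b (l 3) (b (l 3) (b (l 399062862215) (a (l 406579054247) (l 197736269751)))))) (a (b (l 3) (b (a (l 389936056407) (b (l 359334413351) (l 149954758199))) (a (a (l 147807274855) (l 16776232)) (l 16775416)))) (b (b (l 3) (b (a (l 3) (l 332490867303)) (a (l 345375769431) (l 16776624)))) (c (l 16778032) (l 90362087175))))) (a (b (b (b (a (l 3) (a (a (l 332490867159) (l 16778256)) (l 16776136))) (a (a (l 3) (a (l 349670736551) (l 169818981687))) (l 16775712))) (a (b (a (a (l 367387476855) (l 204715591191)) (l 16776368)) (l 16777248)) (l 16774248))) (l 16777664)) (l 16777240))) (b (a (b (a (b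 (a (a (l 384030475991) (l 333564609271)) (b (l 229948524711) (l 16776376))) (l 16778096)) (l 16776880)) (l 16776744)) (l 16774336)) (l 16774064)))), by decide +kernel⟩

def k21_pp_101_s : ∃ t, chk3 f_pp_101_s t 18 123 1 = true :=
  ⟨(a (a (b (a (l 3) (b (l 3) (b (a (l 3) (b (a (l 3) (a (l 365776864135) (l 205789333031))) (a (a (l 387788571703) (l 300278612055)) (l 16777784)))) (b (a (a (l 3) (a (l 403357828327) (l 314774126871))) (c (l 16778000) (l 105394472151))) (a (a (a (l 3) (l 329269641687)) (a (l 149954758039) (l 16776408))) (l 16775040)))))) (a (b (a (b (l 3) (b (a (l 3) (a (l 3) (l 378661766119))) (a (l 396915377767) (a (a (l 334638350775) (l 202568107415)) (l 16777776))))) (a (a (b (l 3) (b (c (l 211694913127) (l 293836161015)) (l 16776248))) (b (b (l 3) (l 358797542199)) (l 16777840))) (b (b (a (l 3) (l 344302027399)) (a (a (l 220821718471) (l 154786595959)) (l 16776600))) (l 16775384)))) (a (a (b (b (a (a (l 351281349223) (l 221358589495)) (l 143512306983))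 (l 16776168)) (l 16774664)) (l 16777192)) (l 16778176))) (b (b (b (a (a (a (l 168745239991) (l 16776504)) (l 16775688)) (l 16774048)) (l 16778080)) (l 16777904)) (l 16769680)))) (b (b (a (b (b (a (l 3) (a (l 396378506807) (a (l 225116686055) (l 16776768)))) (a (l 407115926167) (a (a (l 319069094215) (l 16777528)) (l 16776056)))) (a (b (a (l 3) (a (l 334638350855) (l 155323467063))) (a (a (l 350207607495) (l 170892723719)) (l 16776272))) (l 16777744))) (c (l 16778104) (l 16778080))) (a (a (b (l 82845894007) (l 16773360)) (l 16772176)) (l 16768928))) (b (l 16772400) (l 16773664)))) (a (b (a (l 16777056) (l 16762272)) (l 16768328)) (b (l 16766280) (l 16747760)))), by decide +kernel⟩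

def k22_pp_101_s : ∃ t, chk3 f_pp_101_s t 19 30 1 = true :=
  ⟨(b (a (b (a (l 3) (b (a (l 3) (b (l 3) (a (l 3) (a (l 409800282247) (b (l 3) (l 321753448983)))))) (a (b (a (l 3) (b (l 3) (l 379198638679))) (b (a (l 401747217511) (a (l 306184192215) (l 16776272))) (a (a (l 328732771079) (l 133848631255)) (l 16774920)))) (b (a (a (b (l 3) (l 171429596087)) (b (l 344838898791) (l 16775968))) (c (l 100562636007) (b (l 118279375527) (l 16774280)))) (l 16777768))))) (a (b (a (b (l 3) (b (a (l 3) (a (l 400136603911) (a (l 339470189399) (l 186461980823)))) (a (a (l 3) (l 330343383895)) (c (l 123111212999) (l 120426858439))))) (a (b (b (l 3) (a (l 372756186903) (l 287393709303))) (c (l 16777472) (l 16778128))) (b (b (a (a (l 389936056071) (l 337859576631)) (l 162839660759)) (l 16778144)) (l 16772672)))) (a (b (a (a (a (b (l 188072593559) (l 16775264)) (l 103783859927)) (l 16774856)) (l 16773224)) (l 16770496)) (l 16773304))) (b (b (a (l 16778408) (l 16768688)) (l 16777592))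 (l 16771864)))) (b (b (a (a (b (b (l 3) (a (l 3) (a (l 358260671895) (l 153175985111)))) (a (b (a (l 383493605335) (l 211694915031)) (l 16778432)) (l 16777224))) (b (b (a (a (l 333564609319) (l 16778560)) (l 16774888)) (l 16776712)) (l 16771192))) (l 16776744)) (a (a (l 16775184) (l 16765392)) (l 16758512))) (a (a (l 16768856) (l 16774752)) (a (l 16770192) (b (l 16748480) (l 16740824)))))) (a (b (a (b (l 16773104) (l 16775912)) (l 16772072)) (a (l 16764088) (l 16733952))) (a (b (l 16740640) (l 16724992)) (l 16744864)))), by decide +kernel⟩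

def k23_pp_101_s : ∃ t, chk3 f_pp_101_s t 9 31 1 = true :=
  ⟨(a (b (a (b (a (b (a (l 16774576) (l 16774136)) (b (l 16775520) (l 16755632))) (b (a (l 16769840) (l 16755016)) (l 16748872))) (b (l 16755376) (l 16736456))) (b (l 16760816) (l 16765120))) (b (a (a (a (l 16751168) (l 16746864)) (l 16740448)) (b (l 16710872) (l 16702456))) (a (l 16748664) (l 16689856)))) (b (a (b (l 16722376) (b (l 16710224) (l 16702184))) (b (l 16705104) (l 16689520))) (b (l 16744552) (l 16707240)))), by decide +kernel⟩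

def k24_pp_101_s : ∃ t, chk3 f_pp_101_s t 20 28 1 = true :=
  ⟨(l 3), by decide +kernel⟩

def k25_pp_101_s : ∃ t, chk3 f_pp_101_s t 21 56 1 = true :=
  ⟨(l 3), by decide +kernel⟩

def k26_pp_101_s : ∃ t, chk3 f_pp_101_s t 42 57 1 = true :=
  ⟨(b (l 3) (a (l 3) (b (l 3) (a (b (l 3) (b (l 3) (a (l 3) (b (a (l 3) (l 336785834455)) (a (l 366313735111) (l 16776576)))))) (b (a (a (l 3) (b (l 3) (l 409800280311))) (a (b (l 3) (b (l 364166251431) (l 132774889143))) (b (b (l 3) (l 334101479831)) (l 16777376)))) (b (a (b (a (l 422148310871) (l 186461980903)) (a (a (l 362018767495) (l 16778304)) (l 16776080))) (l 16774736)) (l 16777952))))))), by decide +kernel⟩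

def k27_pp_101_s : ∃ t, chk3 f_pp_101_s t 43 57 1 = true :=
  ⟨(b (a (b (l 3) (a (l 3) (b (l 3) (b (l 3) (b (l 3) (a (l 3) (a (l 3) (a (l 379735507815) (l 182703883943))))))))) (b (a (l 3) (b (l 3) (b (a (l 3) (a (l 3) (b (l 416779601575) (a (l 344302027175) (l 16777520))))) (b (a (l 3) (a (a (l 391009797095) (l 191830689559)) (l 16776208))) (a (a (l 3) (a (l 3) (l 236927846759))) (l 79087797623)))))) (a (b (a (l 3) (a (b (l 3) (a (l 423222052903) (b (l 3) (l 211158042663)))) (b (l 424295795447) (b (a (l 363629380263) (l 164450272743)) (l 16776328))))) (b (a (a (l 418390215095) (b (l 372756186167) (a (l 197736269639) (l 16776560)))) (c (l 16778160) (l 75329701319))) (a (a (a (b (l 240685943175) (l 16776472)) (l 16777648)) (l 16775416)) (l 16778800)))) (b (b (a (b (a (l 393694152071) (l 129553663655)) (a (a (l 224579815607) (l 16776720)) (l 16775784))) (l 16774408)) (l 16777648)) (l 16776064))))) (a (b (a (b (l 3) (a (b (l 3) (a (l 422148311703) (b (l 389936055639)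 (a (l 220821719175) (l 16776704))))) (a (b (b (l 3) (l 358797542231)) (a (l 117205632663) (l 16775968))) (b (b (a (l 392083538919) (l 195588785975)) (l 16776504)) (l 16775048))))) (a (b (b (c (l 409800281271) (a (l 3) (l 401210345543))) (b (a (l 419463956183) (a (l 211158042663) (l 16776648))) (a (a (l 257865812359) (l 16776904)) (l 16775984)))) (l 16776800)) (b (a (b (b (a (l 422685181271) (l 226727299271)) (l 121500599767)) (l 16775240)) (l 16777920)) (l 16776968)))) (b (b (a (b (a (a (a (l 357186929223) (l 16778272)) (l 16776048)) (l 16779448)) (l 16777088)) (l 16780544)) (a (l 16778256) (l 16768136))) (l 16775552))) (a (b (l 16776856) (l 16772800)) (l 16771744)))), by decide +kernel⟩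

def k28_pp_101_s : ∃ t, chk3 f_pp_101_s t 20 58 1 = true :=
  ⟨(a (l 3) (b (a (l 3) (b (l 3) (a (l 3) (b (l 3) (b (a (l 3) (c (l 374903671063) (a (l 3) (l 360945026231)))) (a (l 408726539351) (a (a (l 329806512503) (l 146733533671)) (l 16776032)))))))) (a (b (a (l 3) (b (l 3) (a (l 3) (a (l 3) (a (l 407652797607) (b (l 3) (l 328195899751))))))) (a (b (a (l 3) (c (l 415168992423) (l 421611443271))) (b (a (l 3) (a (l 352891962455) (l 137069857511))) (a (a (l 386177959799) (a (l 225116687943) (l 139217340743))) (l 16775376)))) (b (b (a (c (l 389399186183) (l 394231024343)) (a (a (l 216526753175) (l 16778072)) (l 16775872))) (a (a (a (l 353965704071) (l 203641850823)) (l 16777608)) (l 16774520))) (l 16778032)))) (b (a (b (b (l 3) (a (l 3) (a (l 371145573879) (a (l 206863076407) (l 16777944))))) (a (a (b (l 411410893111) (l 131701148023)) (b (a (l 343765156519) (l 192367561463)) (l 16775432))) (l 69960992727))) (b (b (a (a (a (l 373829928215) (l 315310997575)) (l 119889987671))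 (l 16774688)) (l 16776560)) (l 16771032))) (c (l 16778328) (l 16777848)))))), by decide +kernel⟩

def k29_pp_101_s : ∃ t, chk3 f_pp_101_s t 20 59 1 = true :=
  ⟨(a (b (a (b (l 3) (a (a (l 3) (a (l 3) (b (l 3) (b (l 3) (l 357723800807))))) (b (b (l 3) (a (l 3) (a (l 389399185367) (l 205252464391)))) (a (a (b (l 3) (l 142438566983)) (b (l 328732770823) (l 16775656))) (c (l 16777552) (l 16778440)))))) (b (a (b (l 3) (a (l 3) (b (l 397989120951) (a (l 328732770791) (l 16777736))))) (b (b (a (l 3) (a (l 416242731607) (a (l 360945026071) (l 207936818455)))) (a (a (l 3) (l 357723800775)) (a (l 141901695847) (l 16775616)))) (a (a (b (l 204178721879) (l 16775256)) (l 16777672)) (l 16773280)))) (a (b (b (a (a (l 358797542647) (l 144586050471)) (l 16775072)) (l 16778224)) (l 16771368)) (l 16779104)))) (a (b (a (b (b (a (l 394767895431) (a (l 204715593463) (l 16776040))) (a (a (l 326048416199) (l 16777720)) (l 16774672))) (l 16778160)) (l 16775448)) (l 16773936)) (b (l 16773688)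 (l 16776440)))) (a (b (a (a (a (b (b (l 88214603847) (l 16771512)) (l 16765688)) (l 16777808)) (l 16777104)) (l 16773576)) (b (l 16753864) (l 16746160))) (b (l 16774384) (b (l 16744536) (l 16737040))))), by decide +kernel⟩

def k30_pp_101_s : ∃ t, chk3 f_pp_101_s t 21 29 1 = true :=
  ⟨(b (a (b (a (b (a (l 3) (b (b (l 3) (b (l 3) (a (l 3) (a (l 3) (l 337322705367))))) (b (b (a (l 3) (a (l 365239993287) (l 16776576))) (a (l 410337151431) (l 104320731015))) (a (a (b (l 420537698119) (l 213842397959)) (a (l 145122920663) (l 16776272))) (l 16774760))))) (a (a (b (a (l 421074571511) (b (l 3) (b (l 389936055639) (l 154249726135)))) (b (a (a (l 190756948727) (l 16776472)) (l 16775568)) (l 16774224))) (b (b (a (l 381882992375) (b (l 335175221671) (l 16776560))) (l 90362087271)) (l 16772792))) (b (l 49023026679) (l 16779672)))) (b (a (b (b (a (b (l 411410893287) (a (l 421074569063) (l 188072593671))) (c (l 16778384) (l 88751474519))) (b (a (a (l 215989881623) (l 16776096)) (l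 16779520)) (l 16777144))) (l 16777344)) (l 16774432)) (l 16774400))) (a (b (l 16774320) (l 16779088)) (l 16773448))) (b (a (c (l 16769104) (l 16768168)) (l 16769552)) (a (l 16764008) (l 16754696)))) (a (b (a (b (l 16750480) (l 16742864)) (l 16758376)) (b (l 16751840) (l 16723440))) (b (l 16744672) (l 16709144)))), by decide +kernel⟩

def k31_pp_101_s : ∃ t, chk3 f_pp_101_s t 44 56 1 = true :=
  ⟨(b (l 3) (a (b (l 3) (a (b (l 3) (b (l 3) (b (l 3) (a (l 3) (a (l 3) (l 394767893927)))))) (b (b (l 3) (a (l 3) (a (c (l 421074569751) (l 426980149767)) (b (a (l 3) (l 350207607287)) (a (l 198810011479) (l 16776552)))))) (b (b (a (l 3) (a (a (l 340007059847) (l 16777496)) (l 16775896))) (a (a (l 3) (a (l 389936055255) (l 188609464055))) (l 16778176))) (a (a (b (a (l 3) (l 236390975831)) (c (l 16778072) (l 125795567159))) (l 84456506487)) (l 16774104)))))) (b (a (b (l 3) (b (b (l 3) (a (l 3) (a (l 3) (a (l 425906406759) (a (l 263234521143) (l 195051914679)))))) (b (a (l 3) (c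 (a (l 385641088295) (l 16778000)) (a (l 390472926503) (l 117205632423)))) (a (a (l 3) (l 425369536343)) (a (a (a (l 253033973719) (l 184851367271)) (l 16776648)) (l 16775704)))))) (b (b (a (l 3) (b (a (l 3) (a (l 390472926151) (a (l 219747976807) (l 16777608)))) (a (a (l 3) (a (l 374366798455) (l 214379267671))) (l 97878279335)))) (b (a (a (l 3) (a (l 3) (l 382956733319))) (a (a (l 181093271191) (l 16776440)) (l 16775496))) (a (a (l 426443278343) (a (a (l 365239992871) (l 206863074807)) (l 16778048))) (l 16777776)))) (b (a (a (b (a (l 375977411367) (a (l 200420623831) (l 16776872))) (l 16777688)) (l 16778224)) (l 16773712)) (l 16777624)))) (a (b (a (b (b (a (l 3) (a (l 359334412903) (l 154786596247))) (a (a (l 414095246503) (l 209547429783)) (l 16776288))) (a (a (l 103246988599) (l 16775776)) (l 16774832))) (l 16777848)) (l 16776552)) (l 16776088))))), by decide +kernel⟩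

def k32_pp_101_s : ∃ t, chk3 f_pp_101_s t 45 112 1 = true :=
  ⟨(a (b (a (l 3) (b (l 3) (a (l 3) (a (b (l 3) (b (l 426443278151) (a (c (l 356113187399) (l 360408154695)) (l 151565370711)))) (a (b (l 3) (b (a (l 249812748167) (l 180556399815)) (l 16776280))) (b (a (l 426980149095) (b (l 3) (l 251960231831))) (l 16777432))))))) (a (b (b (l 3) (a (l 3) (a (l 3) (b (l 420000827111) (a (a (l 396915376967) (l 237464717063)) (l 141901694215)))))) (a (a (b (l 3) (b (a (l 3) (l 396915377175)) (a (a (l 382419862215) (l 222969202327)) (l 16777792)))) (a (b (l 3) (a (b (l 226727298743) (l 16776336)) (l 109689439415))) (b (a (l 415168988823) (b (l 3) (l 230485395159))) (l 16776024)))) (a (b (b (a (l 402820957271) (a (l 233706620663) (l 163913401399))) (c (l 16776536) (l 100562633847))) (l 16775072)) (l 54391735447)))) (b (a (a (a (b (l 3) (b (a (l 240149071655) (l 170892723303)) (l 16776232))) (b (a (l 423222052615) (b (l 3) (l 242296555335))) (l 16777392))) (b (b (a (l 415168988359)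 (a (l 245517780823) (l 176261432471))) (c (l 16777904) (l 107005084887))) (l 16775128))) (c (l 16776872) (l 16777736))) (l 16776848)))) (a (b (b (b (a (l 3) (b (a (l 3) (a (l 426980148551) (a (l 258939553767) (l 191293818119)))) (c (a (l 386177959191) (l 16777960)) (a (a (l 3) (l 369534960295)) (a (l 158007821575) (l 16776304)))))) (a (a (l 3) (b (l 427517020039) (a (c (l 362555638423) (l 366850605719)) (c (l 16777608) (l 156397208807))))) (a (b (b (a (l 373829927463) (l 16776872)) (l 112373793895)) (l 16775992)) (l 16775192)))) (b (a (a (b (b (l 396378506343) (a (l 410874020679) (l 16777672))) (a (l 154786596231) (l 16776296))) (l 16777784)) (l 16776528)) (l 16777192))) (l 16776320)) (b (a (a (b (b (l 69424120839) (l 16773920)) (l 16771032)) (l 16776920)) (l 16775008)) (l 16763392)))), by decide +kernel⟩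

def k33_pp_101_s : ∃ t, chk3 f_pp_101_s t 45 113 1 = true :=
  ⟨(a (b (a (a (a (b (l 16777328) (l 16770856)) (l 16776760)) (l 16774864)) (l 16776328)) (l 16771192)) (l 16764992)), by decide +kernel⟩

def k34_pp_101_s : ∃ t, chk3 f_pp_101_s t 22 57 1 = true :=
  ⟨(a (b (a (b (a (a (b (b (l 3) (b (a (l 3) (a (l 421074568439) (l 215453009991))) (a (a (l 3) (l 356113187399)) (l 114521277863)))) (a (b (a (b (l 204715591559) (l 16776240)) (l 16776104)) (l 16774480)) (l 16776824))) (b (b (b (a (l 424832665527) (a (l 226190428375) (l 16776720))) (a (a (l 367387476695) (l 166060885511)) (l 16776064))) (l 16777856)) (l 16772336))) (c (l 16778528) (l 16777600))) (a (l 16778288) (l 16773344))) (a (b (l 16776024) (l 16757920)) (l 16777744))) (a (l 16774928) (b (l 16768928) (l 16740544)))) (b (a (l 16770320) (l 16760472)) (c (l 16736888) (l 16770576)))), by decide +kernel⟩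

def k35_pp_101_s : ∃ t, chk3 f_pp_101_s t 23 28 1 = true :=
  ⟨(b (a (b (a (a (b (l 16776440) (l 16779312)) (l 16778048)) (l 16770480)) (l 16765784)) (b (l 16755432) (a (l 16724752) (l 16714912)))) (a (b (a (l 16729712) (l 16719968)) (l 16710472)) (l 16740392))), by decide +kernel⟩

def k36_pp_101_s : ∃ t, chk3 f_pp_101_s t 11 29 1 = true :=
  ⟨(a (b (a (a (b (l 16760024) (l 16724448)) (b (l 16750536) (l 16715152))) (l 16750184)) (a (l 16719360) (l 16680552))) (b (l 16743448) (l 16654264))), by decide +kernel⟩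

def k37_pp_101_s : ∃ t, chk3 f_pp_101_s t 5 15 1 = true :=
  ⟨(a (b (a (b (a (b (a (b (a (l 16759328) (l 16754704)) (b (l 16772176) (l 16768328))) (b (l 16768704) (l 16740176))) (a (b (l 16762656) (l 16734072)) (l 16728848))) (b (a (l 16755864) (l 16725832)) (l 16715440))) (a (c (l 16732944) (l 16730568)) (l 16714176))) (b (a (l 16726080) (l 16687648)) (a (l 16696952) (l 16659312)))) (b (a (a (l 16696232) (l 16684528)) (l 16660064)) (a (l 16641232) (l 16610256)))) (b (b (a (l 16724904) (l 16649912)) (a (l 16677072) (l 16604176))) (b (l 16677816) (a (l 16581800) (l 16555368))))), by decide +kernel⟩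

def k38_pp_101_s : ∃ t, chk3 f_pp_101_s t 3 2 1 = true :=
  ⟨(a (l 3) (l 1)), by decide +kernel⟩

def k39_pp_101_s : ∃ t, chk3 f_pp_101_s t 12 12 1 = true :=
  ⟨(b (l 3) (a (l 3) (b (l 3) (a (l 3) (b (l 3) (a (b (l 3) (a (l 3) (l 473687921911))) (b (a (l 3) (a (l 439328181079) (l 1))) (a (b (l 387788572535) (a (l 216526757095) (l 16774496))) (l 16777552))))))))), by decide +kernel⟩

def k40_pp_101_s : ∃ t, chk3 f_pp_101_s t 12 26 1 = true :=
  ⟨(a (b (l 3) (a (b (l 3) (a (l 3) (b (l 3) (a (b (l 3) (a (l 3) (l 394231025511))) (a (b (l 429664508119) (a (l 196125661175) (l 16775896))) (b (b (l 392620411623) (l 164450275591)) (l 16773904))))))) (b (a (b (l 3) (a (l 3) (b (l 3) (a (l 3) (c (l 349133866919) (l 346986382839)))))) (b (a (l 3) (b (a (l 3) (l 382956734871)) (a (c (l 233169756247) (l 236927852663)) (l 16775136)))) (a (b (a (l 409800281719) (c (l 174113953927) (l 180019533895))) (c (l 16779632) (l 16779520))) (l 16778744)))) (a (b (a (b (a (l 3) (l 431811990487))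 (a (c (l 372756188103) (l 381346120919)) (c (l 16781400) (c (l 140291084887) (l 141901697895))))) (b (a (b (a (l 3) (l 229948526775)) (l 132238019991)) (l 16774568)) (l 16777392))) (c (l 16779832) (a (b (l 16778872) (l 16769800)) (l 16766336)))) (c (l 16783624) (l 16777808)))))) (b (a (b (a (l 3) (b (l 3) (a (l 3) (b (l 449528729687) (a (l 375440541239) (l 16775960)))))) (a (b (a (l 3) (l 445233765063)) (a (b (l 3) (a (l 444160020311) (l 210621177111))) (b (a (l 351281349943) (l 16775592)) (l 16773232)))) (b (a (b (a (l 464024243975) (l 241222819847)) (l 147270408839)) (l 16777032)) (l 16777592)))) (b (a (b (a (b (l 3) (a (l 3) (l 257328947831))) (b (a (l 393694152263) (l 16778840)) (l 16773920))) (a (c (l 127943056583) (b (l 159081569015) (l 16771872))) (l 16768456))) (l 16779856)) (a (l 16770648) (l 16749600)))) (a (b (a (b (a (c (l 90898962119) (l 90362091383)) (l 16767688)) (l 16773424)) (l 16777040)) (a (l 16772808) (l 16741360))) (a (l 16767032) (l 16748720))))),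 by decide +kernel⟩

def k41_pp_101_s : ∃ t, chk3 f_pp_101_s t 12 27 1 = true :=
  ⟨(a (b (a (b (a (b (a (l 3) (b (l 3) (a (l 412484637287) (a (l 300278612327) (l 132238020695))))) (a (b (a (l 3) (b (l 431811989751) (l 234243494503))) (a (b (l 365776865047) (l 130627407367)) (l 16774616))) (a (a (b (l 144049181095) (l 16772640)) (l 16778464)) (l 16771248)))) (b (a (b (a (c (l 317458482487) (l 320679707975)) (l 16778048)) (l 16772968)) (l 16780064)) (l 16775160))) (a (b (c (l 16778312) (l 16777912)) (l 16781056)) (l 16774392))) (a (b (l 16768416) (l 16743040)) (l 16770200))) (a (a (b (l 16769840) (l 16734080)) (l 16762696)) (b (l 16723280) (l 16729832)))) (b (a (b (l 16752848) (l 16717312)) (l 16745928)) (a (l 16737696) (l 16675792)))), by decide +kernel⟩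

def k42_pp_101_s : ∃ t, chk3 f_pp_101_s t 13 6 1 = true :=
  ⟨(b (a (b (l 1) (a (b (l 1) (b (l 1) (b (l 1) (l 16780016)))) (l 1))) (l 1)) (b (a (b (a (b (l 16767280) (l 16754816)) (l 16741080)) (a (b (l 16719400) (l 16705024)) (l 16733472))) (b (l 1) (l 16682184))) (a (b (a (l 16683496) (l 16663472)) (l 16646144)) (l 16641368)))), by decide +kernel⟩

def k43_pp_101_s : ∃ t, chk3 f_pp_101_s t 7 6 1 = true :=
  ⟨(a (b (l 1) (b (l 1) (a (l 16582240) (l 1)))) (l 1)), by decide +kernel⟩

def k44_pp_101_s : ∃ t, chk3 f_pp_101_s t 3 7 1 = true :=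
  ⟨(a (b (a (b (a (b (a (b (l 16735504) (l 16700240)) (l 16708680)) (l 16670056)) (b (l 16658528) (l 16632624))) (a (b (l 16644248) (l 16620048)) (b (l 16608664) (l 16586544)))) (b (a (l 16607504) (l 16549896)) (a (l 16626272) (l 16530064)))) (a (b (a (b (l 16596904) (l 16574496)) (l 16555528)) (a (l 16646464) (l 16516856))) (b (l 16680000) (b (l 16489184) (l 16474136))))) (b (a (b (a (l 16555816) (l 16499816)) (l 16545312)) (b (l 1) (l 16422712))) (a (b (l 16583416) (l 16458944)) (b (l 16406344) (l 6))))), by decide +kernel⟩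

theorem s45_pp_101_s : ∃ t, chk3 f_pp_101_s t 12 13 1 = true := ex3_b k40_pp_101_s k41_pp_101_s

theorem s46_pp_101_s : ∃ t, chk3 f_pp_101_s t 12 6 1 = true := ex3_b k39_pp_101_s s45_pp_101_s

theorem s47_pp_101_s : ∃ t, chk3 f_pp_101_s t 6 6 1 = true := ex3_a s46_pp_101_s k42_pp_101_s

theorem s48_pp_101_s : ∃ t, chk3 f_pp_101_s t 3 6 1 = true := ex3_a s47_pp_101_s k43_pp_101_s

theorem s49_pp_101_s : ∃ t, chk3 f_pp_101_s t 3 3 1 = true := ex3_b s48_pp_101_s k44_pp_101_s

theorem s50_pp_101_s : ∃ t, chk3 f_pp_101_s t 3 1 1 = true := ex3_b k38_pp_101_s s49_pp_101_s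

theorem s51_pp_101_s : ∃ t, chk3 f_pp_101_s t 45 56 1 = true := ex3_b k32_pp_101_s k33_pp_101_s

theorem s52_pp_101_s : ∃ t, chk3 f_pp_101_s t 22 56 1 = true := ex3_a k31_pp_101_s s51_pp_101_s

theorem s53_pp_101_s : ∃ t, chk3 f_pp_101_s t 22 28 1 = true := ex3_b s52_pp_101_s k34_pp_101_s

theorem s54_pp_101_s : ∃ t, chk3 f_pp_101_s t 11 28 1 = true := ex3_a s53_pp_101_s k35_pp_101_s

theorem s55_pp_101_s : ∃ t, chk3 f_pp_101_s t 11 14 1 = true := ex3_b s54_pp_101_s k36_pp_101_s

theorem s56_pp_101_s : ∃ t, chk3 f_pp_101_s t 20 29 1 = true := ex3_b k28_pp_101_s k29_pp_101_s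

theorem s57_pp_101_s : ∃ t, chk3 f_pp_101_s t 10 29 1 = true := ex3_a s56_pp_101_s k30_pp_101_s

theorem s58_pp_101_s : ∃ t, chk3 f_pp_101_s t 21 57 1 = true := ex3_a k26_pp_101_s k27_pp_101_s

theorem s59_pp_101_s : ∃ t, chk3 f_pp_101_s t 21 28 1 = true := ex3_b k25_pp_101_s s58_pp_101_s

theorem s60_pp_101_s : ∃ t, chk3 f_pp_101_s t 10 28 1 = true := ex3_a k24_pp_101_s s59_pp_101_s

theorem s61_pp_101_s : ∃ t, chk3 f_pp_101_s t 10 14 1 = true := ex3_b s60_pp_101_s s57_pp_101_s

theorem s62_pp_101_s : ∃ t, chk3 f_pp_101_s t 5 14 1 = true := ex3_a s61_pp_101_s s55_pp_101_s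

theorem s63_pp_101_s : ∃ t, chk3 f_pp_101_s t 5 7 1 = true := ex3_b s62_pp_101_s k37_pp_101_s

theorem s64_pp_101_s : ∃ t, chk3 f_pp_101_s t 18 61 1 = true := ex3_b k20_pp_101_s k21_pp_101_s

theorem s65_pp_101_s : ∃ t, chk3 f_pp_101_s t 18 30 1 = true := ex3_b k19_pp_101_s s64_pp_101_s

theorem s66_pp_101_s : ∃ t, chk3 f_pp_101_s t 9 30 1 = true := ex3_a s65_pp_101_s k22_pp_101_s

theorem s67_pp_101_s : ∃ t, chk3 f_pp_101_s t 9 15 1 = true := ex3_b s66_pp_101_s k23_pp_101_s

theorem s68_pp_101_s : ∃ t, chk3 f_pp_101_s t 35 124 1 = true := ex3_a k15_pp_101_s k16_pp_101_s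

theorem s69_pp_101_s : ∃ t, chk3 f_pp_101_s t 35 62 1 = true := ex3_b s68_pp_101_s k17_pp_101_s

theorem s70_pp_101_s : ∃ t, chk3 f_pp_101_s t 34 62 1 = true := ex3_b k13_pp_101_s k14_pp_101_s

theorem s71_pp_101_s : ∃ t, chk3 f_pp_101_s t 17 62 1 = true := ex3_a s70_pp_101_s s69_pp_101_s

theorem s72_pp_101_s : ∃ t, chk3 f_pp_101_s t 17 31 1 = true := ex3_b s71_pp_101_s k18_pp_101_s

theorem s73_pp_101_s : ∃ t, chk3 f_pp_101_s t 8 31 1 = true := ex3_a k12_pp_101_s s72_pp_101_s

theorem s74_pp_101_s : ∃ t, chk3 f_pp_101_s t 8 15 1 = true := ex3_b k11_pp_101_s s73_pp_101_s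

theorem s75_pp_101_s : ∃ t, chk3 f_pp_101_s t 4 15 1 = true := ex3_a s74_pp_101_s s67_pp_101_s

theorem s76_pp_101_s : ∃ t, chk3 f_pp_101_s t 4 7 1 = true := ex3_b k10_pp_101_s s75_pp_101_s

theorem s77_pp_101_s : ∃ t, chk3 f_pp_101_s t 2 7 1 = true := ex3_a s76_pp_101_s s63_pp_101_s

theorem s78_pp_101_s : ∃ t, chk3 f_pp_101_s t 46 55 1 = true := ex3_b k7_pp_101_s k8_pp_101_s

theorem s79_pp_101_s : ∃ t, chk3 f_pp_101_s t 23 55 1 = true := ex3_a s78_pp_101_s k9_pp_101_s

theorem s80_pp_101_s : ∃ t, chk3 f_pp_101_s t 23 27 1 = true := ex3_b k6_pp_101_s s79_pp_101_s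

theorem s81_pp_101_s : ∃ t, chk3 f_pp_101_s t 11 27 1 = true := ex3_a k5_pp_101_s s80_pp_101_s

theorem s82_pp_101_s : ∃ t, chk3 f_pp_101_s t 11 13 1 = true := ex3_b k4_pp_101_s s81_pp_101_s

theorem s83_pp_101_s : ∃ t, chk3 f_pp_101_s t 5 13 1 = true := ex3_a k3_pp_101_s s82_pp_101_s

theorem s84_pp_101_s : ∃ t, chk3 f_pp_101_s t 5 6 1 = true := ex3_b k2_pp_101_s s83_pp_101_s

theorem s85_pp_101_s : ∃ t, chk3 f_pp_101_s t 2 6 1 = true := ex3_a k1_pp_101_s s84_pp_101_s

theorem s86_pp_101_s : ∃ t, chk3 f_pp_101_s t 2 3 1 = true := ex3_b s85_pp_101_s s77_pp_101_s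

theorem s87_pp_101_s : ∃ t, chk3 f_pp_101_s t 2 1 1 = true := ex3_b k0_pp_101_s s86_pp_101_s

theorem s88_pp_101_s : ∃ t, chk3 f_pp_101_s t 1 1 1 = true := ex3_a s87_pp_101_s s50_pp_101_s

theorem c_pp_101_s : CertNE 536870912 536870912 536870912 536870912 587336777 62277027 3 eng mog cd7q1 cd0q1 pd0 false true true .npn 1 0 1
    ndB7q1 ndB0q1 pcB0 cut_pp_101_s Ext.none :=
  certNE2 (fam := false) (s1 := true) (s2 := true) (a := 1) (b := 0) (c := 1) (cn := .npn) (n1 := ndB7q1) (n2 := ndB0q1) (pc := pcB0) (cut := cut_pp_101_s) (xt := Ext.none) (P1 := 536870912) (W1 := 536870912) (P2 := 536870912) (W2 := 536870912) (P3 := 587336777) (W3 := 62277027) (N0 := 3) (En := eng) (mo := mog) (C1 := cd7q1) (C2 := cd0q1) (C3 := pd0)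
    rfl (fun _ => rfl) s88_pp_101_s

noncomputable def cut_pp_102_s : Cut := Cut.of [[⟨4, 0, 0, 1449551462⟩], [⟨0, 1, 0, 67108864⟩, ⟨1, 0, 0, 67108864⟩, ⟨2, 1, 0, 67108864⟩]]

noncomputable def f_pp_102_s : ℕ → ℕ → ℕ → ℕ → Bool := onCell 536870912 536870912 0 536870912 587336777 62277027
    (rowNE 3 eng mog cd7q1 cd0q2 pd0 0 false true true .npp 1 0 2 (qsf 536870912 536870912 0 536870912 0) ndB7q1 ndB0q2 pcB0 cut_pp_102_s Ext.none)

def k0_pp_102_s : ∃ t, chk3 f_pp_102_s t 1 1 1 = true :=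
  ⟨(b (l 6) (a (a (l 6) (b (l 6) (b (l 6) (a (b (l 6) (l 16461656)) (b (l 16477744) (l 16517896)))))) (a (b (l 6) (b (a (b (l 6) (l 16482344)) (b (l 16478400) (l 16506440))) (a (b (l 16506400) (a (l 16526792) (l 16548816))) (b (l 16625784) (a (l 16572928) (b (l 16586360) (l 16654136))))))) (b (b (l 6) (a (a (l 6) (l 16453208)) (a (l 16456288) (b (l 16439688) (l 16480040))))) (b (a (a (b (l 16492520) (l 16529096)) (b (l 16503400) (b (l 16534648) (l 16558032)))) (a (b (l 16515288) (a (l 16665296) (b (l 16556040) (l 16584016)))) (a (b (l 16524936) (l 16579408)) (b (l 16531272) (l 16609856))))) (a (b (a (l 16678696) (b (l 16583584) (l 16611192))) (b (a (l 16613032) (a (l 16633880) (l 16648288))) (a (b (l 16634520) (l 16691368)) (a (l 16728080) (b (l 16672616) (l 16689440)))))) (b (a (b (a (l 16601200) (l 16613264)) (a (l 16631096) (l 16644880))) (a (b (a (l 16622824) (l 14)) (l 14)) (l 14))) (a (a (b (l 16684128) (b (l 16688616) (l 16748136))) (b (b (l 16669776) (l 14))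 (l 14))) (l 14))))))))), by decide +kernel⟩

theorem c_pp_102_s : CertNE 536870912 536870912 0 536870912 587336777 62277027 3 eng mog cd7q1 cd0q2 pd0 false true true .npp 1 0 2
    ndB7q1 ndB0q2 pcB0 cut_pp_102_s Ext.none :=
  certNE0 (fam := false) (s1 := true) (s2 := true) (a := 1) (b := 0) (c := 2) (cn := .npp) (n1 := ndB7q1) (n2 := ndB0q2) (pc := pcB0) (cut := cut_pp_102_s) (xt := Ext.none) (P1 := 536870912) (W1 := 536870912) (P2 := 0) (W2 := 536870912) (P3 := 587336777) (W3 := 62277027) (N0 := 3) (En := eng) (mo := mog) (C1 := cd7q1) (C2 := cd0q2) (C3 := pd0)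
    rfl k0_pp_102_s

noncomputable def cut_pp_112_s : Cut := Cut.of [[⟨4, 0, 0, 1449551462⟩]]

noncomputable def f_pp_112_s : ℕ → ℕ → ℕ → ℕ → Bool := onCell 536870912 536870912 0 536870912 587336777 62277027
    (rowNE 3 eng mog cd7q1 cd0q2 pd1 2 false true true .dn 1 1 2 (qsf 536870912 536870912 0 536870912 1) ndB7q1 ndB0q2 pcB1 cut_pp_112_s Ext.none)

def k0_pp_112_s : ∃ t, chk3 f_pp_112_s t 1 1 1 = true :=
  ⟨(b (l 6) (l 6)), by decide +kernel⟩

theorem c_pp_112_s : CertNE 536870912 536870912 0 536870912 587336777 62277027 3 eng mog cd7q1 cd0q2 pd1 false true true .dn 1 1 2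
    ndB7q1 ndB0q2 pcB1 cut_pp_112_s Ext.none :=
  certNE2 (fam := false) (s1 := true) (s2 := true) (a := 1) (b := 1) (c := 2) (cn := .dn) (n1 := ndB7q1) (n2 := ndB0q2) (pc := pcB1) (cut := cut_pp_112_s) (xt := Ext.none) (P1 := 536870912) (W1 := 536870912) (P2 := 0) (W2 := 536870912) (P3 := 587336777) (W3 := 62277027) (N0 := 3) (En := eng) (mo := mog) (C1 := cd7q1) (C2 := cd0q2) (C3 := pd1)
    rfl (fun _ => rfl) k0_pp_112_s

noncomputable def cut_pp_202_s : Cut := Cut.of [[⟨4, 0, 0, 1449551462⟩], [⟨0, 1, 0, 67108864⟩, ⟨1, 0, 0, 67108864⟩, ⟨2, 1, 0, 67108864⟩]]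

noncomputable def f_pp_202_s : ℕ → ℕ → ℕ → ℕ → Bool := onCell 0 536870912 0 536870912 587336777 62277027
    (rowNE 3 eng mog cd7q2 cd0q2 pd0 2 false true true .pp 2 0 2 (qsf 1073741824 536870912 0 536870912 0) ndB7q2 ndB0q2 pcB0 cut_pp_202_s Ext.none)

def k0_pp_202_s : ∃ t, chk3 f_pp_202_s t 1 1 1 = true :=
  ⟨(a (b (a (l 6) (l 6)) (a (b (a (a (b (l 16525608) (b (l 16555352) (l 16580352))) (b (l 16484768) (b (l 16511872) (l 16534856)))) (b (l 6) (a (b (l 16461680) (l 16481808)) (l 346314949943)))) (a (b (a (b (l 16672584) (l 14)) (b (l 16624832) (a (l 14) (l 16579480)))) (a (l 14) (a (l 14) (l 1)))) (b (b (a (l 16505760) (l 1)) (l 1)) (l 1)))) (b (l 1) (l 1)))) (l 1)), by decide +kernel⟩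

theorem c_pp_202_s : CertNE 1073741824 536870912 0 536870912 587336777 62277027 3 eng mog cd7q2 cd0q2 pd0 false true true .pp 2 0 2
    ndB7q2 ndB0q2 pcB0 cut_pp_202_s Ext.none :=
  certNE2 (fam := false) (s1 := true) (s2 := true) (a := 2) (b := 0) (c := 2) (cn := .pp) (n1 := ndB7q2) (n2 := ndB0q2) (pc := pcB0) (cut := cut_pp_202_s) (xt := Ext.none) (P1 := 1073741824) (W1 := 536870912) (P2 := 0) (W2 := 536870912) (P3 := 587336777) (W3 := 62277027) (N0 := 3) (En := eng) (mo := mog) (C1 := cd7q2) (C2 := cd0q2) (C3 := pd0)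
    rfl (fun _ => rfl) k0_pp_202_s

noncomputable def cut_pm_001_s : Cut := Cut.of [[⟨4, 0, 0, 1449551462⟩]]

noncomputable def f_pm_001_s : ℕ → ℕ → ℕ → ℕ → Bool := onCell 0 536870912 536870912 536870912 587336777 62277027
    (rowNE 3 eng mog cd7q0 cd0q1 pd0 0 false true false .up 0 0 1 (qsf 0 536870912 536870912 536870912 0) ndB7q0 ndB0q1 pcB0 cut_pm_001_s Ext.none)

def k0_pm_001_s : ∃ t, chk3 f_pm_001_s t 1 1 1 = true :=
  ⟨(l 4), by decide +kernel⟩

theorem c_pm_001_s : CertNE 0 536870912 536870912 536870912 587336777 62277027 3 eng mog cd7q0 cd0q1 pd0 false true false .up 0 0 1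
    ndB7q0 ndB0q1 pcB0 cut_pm_001_s Ext.none :=
  certNE0 (fam := false) (s1 := true) (s2 := false) (a := 0) (b := 0) (c := 1) (cn := .up) (n1 := ndB7q0) (n2 := ndB0q1) (pc := pcB0) (cut := cut_pm_001_s) (xt := Ext.none) (P1 := 0) (W1 := 536870912) (P2 := 536870912) (W2 := 536870912) (P3 := 587336777) (W3 := 62277027) (N0 := 3) (En := eng) (mo := mog) (C1 := cd7q0) (C2 := cd0q1) (C3 := pd0)
    rfl k0_pm_001_s

noncomputable def cut_pm_011_s : Cut := Cut.of [[⟨4, 0, 0, 1449551462⟩]]

noncomputable def f_pm_011_s : ℕ → ℕ → ℕ → ℕ → Bool := onCell 0 536870912 536870912 536870912 587336777 62277027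
    (rowNE 3 eng mog cd7q0 cd0q1 pd1 0 false true false .pnn 0 1 1 (qsf 0 536870912 536870912 536870912 1) ndB7q0 ndB0q1 pcB1 cut_pm_011_s Ext.none)

def k0_pm_011_s : ∃ t, chk3 f_pm_011_s t 1 1 1 = true :=
  ⟨(l 4), by decide +kernel⟩

theorem c_pm_011_s : CertNE 0 536870912 536870912 536870912 587336777 62277027 3 eng mog cd7q0 cd0q1 pd1 false true false .pnn 0 1 1
    ndB7q0 ndB0q1 pcB1 cut_pm_011_s Ext.none :=
  certNE0 (fam := false) (s1 := true) (s2 := false) (a := 0) (b := 1) (c := 1) (cn := .pnn) (n1 := ndB7q0) (n2 := ndB0q1) (pc := pcB1) (cut := cut_pm_011_s) (xt := Ext.none) (P1 := 0) (W1 := 536870912) (P2 := 536870912) (W2 := 536870912) (P3 := 587336777) (W3 := 62277027) (N0 := 3) (En := eng) (mo := mog) (C1 := cd7q0) (C2 := cd0q1) (C3 := pd1)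
    rfl k0_pm_011_s

noncomputable def cut_pm_012_s : Cut := Cut.of [[⟨4, 0, 0, 1449551462⟩]]

noncomputable def f_pm_012_s : ℕ → ℕ → ℕ → ℕ → Bool := onCell 0 536870912 0 536870912 587336777 62277027
    (rowNE 3 eng mog cd7q0 cd0q2 pd1 0 false true false .pnp 0 1 2 (qsf 0 536870912 0 536870912 1) ndB7q0 ndB0q2 pcB1 cut_pm_012_s Ext.none)

def k0_pm_012_s : ∃ t, chk3 f_pm_012_s t 1 1 1 = true :=
  ⟨(l 6), by decide +kernel⟩

theorem c_pm_012_s : CertNE 0 536870912 0 536870912 587336777 62277027 3 eng mog cd7q0 cd0q2 pd1 false true false .pnp 0 1 2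
    ndB7q0 ndB0q2 pcB1 cut_pm_012_s Ext.none :=
  certNE0 (fam := false) (s1 := true) (s2 := false) (a := 0) (b := 1) (c := 2) (cn := .pnp) (n1 := ndB7q0) (n2 := ndB0q2) (pc := pcB1) (cut := cut_pm_012_s) (xt := Ext.none) (P1 := 0) (W1 := 536870912) (P2 := 0) (W2 := 536870912) (P3 := 587336777) (W3 := 62277027) (N0 := 3) (En := eng) (mo := mog) (C1 := cd7q0) (C2 := cd0q2) (C3 := pd1)
    rfl k0_pm_012_s

noncomputable def cut_pm_022_s : Cut := Cut.of [[⟨4, 0, 0, 1449551462⟩]]

noncomputable def f_pm_022_s : ℕ → ℕ → ℕ → ℕ → Bool := onCell 0 536870912 0 536870912 587336777 62277027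
    (rowNE 3 eng mog cd7q0 cd0q2 pd2 0 false true false .pp 0 2 2 (qsf 0 536870912 0 536870912 2) ndB7q0 ndB0q2 pcB2 cut_pm_022_s Ext.none)

def k0_pm_022_s : ∃ t, chk3 f_pm_022_s t 1 1 1 = true :=
  ⟨(l 6), by decide +kernel⟩

theorem c_pm_022_s : CertNE 0 536870912 0 536870912 587336777 62277027 3 eng mog cd7q0 cd0q2 pd2 false true false .pp 0 2 2
    ndB7q0 ndB0q2 pcB2 cut_pm_022_s Ext.none :=
  certNE0 (fam := false) (s1 := true) (s2 := false) (a := 0) (b := 2) (c := 2) (cn := .pp) (n1 := ndB7q0) (n2 := ndB0q2) (pc := pcB2) (cut := cut_pm_022_s) (xt := Ext.none) (P1 := 0) (W1 := 536870912) (P2 := 0) (W2 := 536870912) (P3 := 587336777) (W3 := 62277027) (N0 := 3) (En := eng) (mo := mog) (C1 := cd7q0) (C2 := cd0q2) (C3 := pd2)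
    rfl k0_pm_022_s

noncomputable def cut_pm_101_s : Cut := Cut.of [[⟨4, 0, 0, 1449551462⟩]]

noncomputable def f_pm_101_s : ℕ → ℕ → ℕ → ℕ → Bool := onCell 536870912 536870912 536870912 536870912 587336777 62277027
    (rowNE 3 eng mog cd7q1 cd0q1 pd0 0 false true false .npn 1 0 1 (qsf 536870912 536870912 536870912 536870912 0) ndB7q1 ndB0q1 pcB0 cut_pm_101_s Ext.none)

def k0_pm_101_s : ∃ t, chk3 f_pm_101_s t 1 1 1 = true :=
  ⟨(l 4), by decide +kernel⟩

theorem c_pm_101_s : CertNE 536870912 536870912 536870912 536870912 587336777 62277027 3 eng mog cd7q1 cd0q1 pd0 false true false .npn 1 0 1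
    ndB7q1 ndB0q1 pcB0 cut_pm_101_s Ext.none :=
  certNE0 (fam := false) (s1 := true) (s2 := false) (a := 1) (b := 0) (c := 1) (cn := .npn) (n1 := ndB7q1) (n2 := ndB0q1) (pc := pcB0) (cut := cut_pm_101_s) (xt := Ext.none) (P1 := 536870912) (W1 := 536870912) (P2 := 536870912) (W2 := 536870912) (P3 := 587336777) (W3 := 62277027) (N0 := 3) (En := eng) (mo := mog) (C1 := cd7q1) (C2 := cd0q1) (C3 := pd0)
    rfl k0_pm_101_s

noncomputable def cut_pm_102_s : Cut := Cut.of [[⟨4, 0, 0, 1449551462⟩]]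

noncomputable def f_pm_102_s : ℕ → ℕ → ℕ → ℕ → Bool := onCell 536870912 536870912 0 536870912 587336777 62277027
    (rowNE 3 eng mog cd7q1 cd0q2 pd0 0 false true false .npp 1 0 2 (qsf 536870912 536870912 0 536870912 0) ndB7q1 ndB0q2 pcB0 cut_pm_102_s Ext.none)

def k0_pm_102_s : ∃ t, chk3 f_pm_102_s t 1 1 1 = true :=
  ⟨(l 6), by decide +kernel⟩

theorem c_pm_102_s : CertNE 536870912 536870912 0 536870912 587336777 62277027 3 eng mog cd7q1 cd0q2 pd0 false true false .npp 1 0 2
    ndB7q1 ndB0q2 pcB0 cut_pm_102_s Ext.none :=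
  certNE0 (fam := false) (s1 := true) (s2 := false) (a := 1) (b := 0) (c := 2) (cn := .npp) (n1 := ndB7q1) (n2 := ndB0q2) (pc := pcB0) (cut := cut_pm_102_s) (xt := Ext.none) (P1 := 536870912) (W1 := 536870912) (P2 := 0) (W2 := 536870912) (P3 := 587336777) (W3 := 62277027) (N0 := 3) (En := eng) (mo := mog) (C1 := cd7q1) (C2 := cd0q2) (C3 := pd0)
    rfl k0_pm_102_s

noncomputable def cut_pm_112_s : Cut := Cut.of [[⟨4, 0, 0, 1449551462⟩]]

noncomputable def f_pm_112_s : ℕ → ℕ → ℕ → ℕ → Bool := onCell 536870912 536870912 0 536870912 587336777 62277027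
    (rowNE 3 eng mog cd7q1 cd0q2 pd1 0 false true false .dn 1 1 2 (qsf 536870912 536870912 0 536870912 1) ndB7q1 ndB0q2 pcB1 cut_pm_112_s Ext.none)

def k0_pm_112_s : ∃ t, chk3 f_pm_112_s t 1 1 1 = true :=
  ⟨(l 6), by decide +kernel⟩

theorem c_pm_112_s : CertNE 536870912 536870912 0 536870912 587336777 62277027 3 eng mog cd7q1 cd0q2 pd1 false true false .dn 1 1 2
    ndB7q1 ndB0q2 pcB1 cut_pm_112_s Ext.none :=
  certNE0 (fam := false) (s1 := true) (s2 := false) (a := 1) (b := 1) (c := 2) (cn := .dn) (n1 := ndB7q1) (n2 := ndB0q2) (pc := pcB1) (cut := cut_pm_112_s) (xt := Ext.none) (P1 := 536870912) (W1 := 536870912) (P2 := 0) (W2 := 536870912) (P3 := 587336777) (W3 := 62277027) (N0 := 3) (En := eng) (mo := mog) (C1 := cd7q1) (C2 := cd0q2) (C3 := pd1)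
    rfl k0_pm_112_s

noncomputable def cut_pm_202_s : Cut := Cut.of [[⟨4, 0, 0, 1449551462⟩]]

noncomputable def f_pm_202_s : ℕ → ℕ → ℕ → ℕ → Bool := onCell 0 536870912 0 536870912 587336777 62277027
    (rowNE 3 eng mog cd7q2 cd0q2 pd0 2 false true false .pp 2 0 2 (qsf 1073741824 536870912 0 536870912 0) ndB7q2 ndB0q2 pcB0 cut_pm_202_s Ext.none)

def k0_pm_202_s : ∃ t, chk3 f_pm_202_s t 1 1 1 = true :=
  ⟨(l 6), by decide +kernel⟩

theorem c_pm_202_s : CertNE 1073741824 536870912 0 536870912 587336777 62277027 3 eng mog cd7q2 cd0q2 pd0 false true false .pp 2 0 2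
    ndB7q2 ndB0q2 pcB0 cut_pm_202_s Ext.none :=
  certNE2 (fam := false) (s1 := true) (s2 := false) (a := 2) (b := 0) (c := 2) (cn := .pp) (n1 := ndB7q2) (n2 := ndB0q2) (pc := pcB0) (cut := cut_pm_202_s) (xt := Ext.none) (P1 := 1073741824) (W1 := 536870912) (P2 := 0) (W2 := 536870912) (P3 := 587336777) (W3 := 62277027) (N0 := 3) (En := eng) (mo := mog) (C1 := cd7q2) (C2 := cd0q2) (C3 := pd0)
    rfl (fun _ => rfl) k0_pm_202_s

noncomputable def cut_mm_001_s : Cut := Cut.of [[⟨4, 0, 0, 1449551462⟩]]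

noncomputable def f_mm_001_s : ℕ → ℕ → ℕ → ℕ → Bool := onCell 0 536870912 536870912 536870912 587336777 62277027
    (rowNE 3 eng mog cd7q0 cd0q1 pd0 0 false false false .up 0 0 1 (qsf 0 536870912 536870912 536870912 0) ndB7q0 ndB0q1 pcB0 cut_mm_001_s Ext.none)

def k0_mm_001_s : ∃ t, chk3 f_mm_001_s t 1 1 1 = true :=
  ⟨(l 5), by decide +kernel⟩

theorem c_mm_001_s : CertNE 0 536870912 536870912 536870912 587336777 62277027 3 eng mog cd7q0 cd0q1 pd0 false false false .up 0 0 1
    ndB7q0 ndB0q1 pcB0 cut_mm_001_s Ext.none :=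
  certNE0 (fam := false) (s1 := false) (s2 := false) (a := 0) (b := 0) (c := 1) (cn := .up) (n1 := ndB7q0) (n2 := ndB0q1) (pc := pcB0) (cut := cut_mm_001_s) (xt := Ext.none) (P1 := 0) (W1 := 536870912) (P2 := 536870912) (W2 := 536870912) (P3 := 587336777) (W3 := 62277027) (N0 := 3) (En := eng) (mo := mog) (C1 := cd7q0) (C2 := cd0q1) (C3 := pd0)
    rfl k0_mm_001_s

noncomputable def cut_mm_011_s : Cut := Cut.of [[⟨4, 0, 0, 1449551462⟩]]

noncomputable def f_mm_011_s : ℕ → ℕ → ℕ → ℕ → Bool := onCell 0 536870912 536870912 536870912 587336777 62277027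
    (rowNE 3 eng mog cd7q0 cd0q1 pd1 0 false false false .pnn 0 1 1 (qsf 0 536870912 536870912 536870912 1) ndB7q0 ndB0q1 pcB1 cut_mm_011_s Ext.none)

def k0_mm_011_s : ∃ t, chk3 f_mm_011_s t 1 1 1 = true :=
  ⟨(l 5), by decide +kernel⟩

theorem c_mm_011_s : CertNE 0 536870912 536870912 536870912 587336777 62277027 3 eng mog cd7q0 cd0q1 pd1 false false false .pnn 0 1 1
    ndB7q0 ndB0q1 pcB1 cut_mm_011_s Ext.none :=
  certNE0 (fam := false) (s1 := false) (s2 := false) (a := 0) (b := 1) (c := 1) (cn := .pnn) (n1 := ndB7q0) (n2 := ndB0q1) (pc := pcB1) (cut := cut_mm_011_s) (xt := Ext.none) (P1 := 0) (W1 := 536870912) (P2 := 536870912) (W2 := 536870912) (P3 := 587336777) (W3 := 62277027) (N0 := 3) (En := eng) (mo := mog) (C1 := cd7q0) (C2 := cd0q1) (C3 := pd1)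
    rfl k0_mm_011_s

noncomputable def cut_mm_012_s : Cut := Cut.of [[⟨4, 0, 0, 1449551462⟩]]

noncomputable def f_mm_012_s : ℕ → ℕ → ℕ → ℕ → Bool := onCell 0 536870912 0 536870912 587336777 62277027
    (rowNE 3 eng mog cd7q0 cd0q2 pd1 0 false false false .pnp 0 1 2 (qsf 0 536870912 0 536870912 1) ndB7q0 ndB0q2 pcB1 cut_mm_012_s Ext.none)

def k0_mm_012_s : ∃ t, chk3 f_mm_012_s t 1 1 1 = true :=
  ⟨(l 5), by decide +kernel⟩

theorem c_mm_012_s : CertNE 0 536870912 0 536870912 587336777 62277027 3 eng mog cd7q0 cd0q2 pd1 false false false .pnp 0 1 2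
    ndB7q0 ndB0q2 pcB1 cut_mm_012_s Ext.none :=
  certNE0 (fam := false) (s1 := false) (s2 := false) (a := 0) (b := 1) (c := 2) (cn := .pnp) (n1 := ndB7q0) (n2 := ndB0q2) (pc := pcB1) (cut := cut_mm_012_s) (xt := Ext.none) (P1 := 0) (W1 := 536870912) (P2 := 0) (W2 := 536870912) (P3 := 587336777) (W3 := 62277027) (N0 := 3) (En := eng) (mo := mog) (C1 := cd7q0) (C2 := cd0q2) (C3 := pd1)
    rfl k0_mm_012_s

noncomputable def cut_mm_022_s : Cut := Cut.of [[⟨4, 0, 0, 1449551462⟩]]

noncomputable def f_mm_022_s : ℕ → ℕ → ℕ → ℕ → Bool := onCell 0 536870912 0 536870912 587336777 62277027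
    (rowNE 3 eng mog cd7q0 cd0q2 pd2 0 false false false .pp 0 2 2 (qsf 0 536870912 0 536870912 2) ndB7q0 ndB0q2 pcB2 cut_mm_022_s Ext.none)

def k0_mm_022_s : ∃ t, chk3 f_mm_022_s t 1 1 1 = true :=
  ⟨(l 5), by decide +kernel⟩

theorem c_mm_022_s : CertNE 0 536870912 0 536870912 587336777 62277027 3 eng mog cd7q0 cd0q2 pd2 false false false .pp 0 2 2
    ndB7q0 ndB0q2 pcB2 cut_mm_022_s Ext.none :=
  certNE0 (fam := false) (s1 := false) (s2 := false) (a := 0) (b := 2) (c := 2) (cn := .pp) (n1 := ndB7q0) (n2 := ndB0q2) (pc := pcB2) (cut := cut_mm_022_s) (xt := Ext.none) (P1 := 0) (W1 := 536870912) (P2 := 0) (W2 := 536870912) (P3 := 587336777) (W3 := 62277027) (N0 := 3) (En := eng) (mo := mog) (C1 := cd7q0) (C2 := cd0q2) (C3 := pd2)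
    rfl k0_mm_022_s

noncomputable def cut_mm_101_s : Cut := Cut.of [[⟨4, 0, 0, 1449551462⟩]]

noncomputable def f_mm_101_s : ℕ → ℕ → ℕ → ℕ → Bool := onCell 0 536870912 536870912 536870912 587336777 62277027
    (rowNE 3 eng mog cd7q1 cd0q1 pd0 2 false false false .npn 1 0 1 (qsf 536870912 536870912 536870912 536870912 0) ndB7q1 ndB0q1 pcB0 cut_mm_101_s Ext.none)

def k0_mm_101_s : ∃ t, chk3 f_mm_101_s t 1 1 1 = true :=
  ⟨(l 5), by decide +kernel⟩

theorem c_mm_101_s : CertNE 536870912 536870912 536870912 536870912 587336777 62277027 3 eng mog cd7q1 cd0q1 pd0 false false false .npn 1 0 1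
    ndB7q1 ndB0q1 pcB0 cut_mm_101_s Ext.none :=
  certNE2 (fam := false) (s1 := false) (s2 := false) (a := 1) (b := 0) (c := 1) (cn := .npn) (n1 := ndB7q1) (n2 := ndB0q1) (pc := pcB0) (cut := cut_mm_101_s) (xt := Ext.none) (P1 := 536870912) (W1 := 536870912) (P2 := 536870912) (W2 := 536870912) (P3 := 587336777) (W3 := 62277027) (N0 := 3) (En := eng) (mo := mog) (C1 := cd7q1) (C2 := cd0q1) (C3 := pd0)
    rfl (fun _ => rfl) k0_mm_101_s

noncomputable def cut_mm_102_s : Cut := Cut.of [[⟨4, 0, 0, 1449551462⟩]]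

noncomputable def f_mm_102_s : ℕ → ℕ → ℕ → ℕ → Bool := onCell 536870912 536870912 0 536870912 587336777 62277027
    (rowNE 3 eng mog cd7q1 cd0q2 pd0 0 false false false .npp 1 0 2 (qsf 536870912 536870912 0 536870912 0) ndB7q1 ndB0q2 pcB0 cut_mm_102_s Ext.none)

def k0_mm_102_s : ∃ t, chk3 f_mm_102_s t 1 1 1 = true :=
  ⟨(l 5), by decide +kernel⟩

theorem c_mm_102_s : CertNE 536870912 536870912 0 536870912 587336777 62277027 3 eng mog cd7q1 cd0q2 pd0 false false false .npp 1 0 2
    ndB7q1 ndB0q2 pcB0 cut_mm_102_s Ext.none :=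
  certNE0 (fam := false) (s1 := false) (s2 := false) (a := 1) (b := 0) (c := 2) (cn := .npp) (n1 := ndB7q1) (n2 := ndB0q2) (pc := pcB0) (cut := cut_mm_102_s) (xt := Ext.none) (P1 := 536870912) (W1 := 536870912) (P2 := 0) (W2 := 536870912) (P3 := 587336777) (W3 := 62277027) (N0 := 3) (En := eng) (mo := mog) (C1 := cd7q1) (C2 := cd0q2) (C3 := pd0)
    rfl k0_mm_102_s

noncomputable def cut_mm_112_s : Cut := Cut.of [[⟨4, 0, 0, 1449551462⟩]]

noncomputable def f_mm_112_s : ℕ → ℕ → ℕ → ℕ → Bool := onCell 536870912 536870912 0 536870912 587336777 62277027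
    (rowNE 3 eng mog cd7q1 cd0q2 pd1 0 false false false .dn 1 1 2 (qsf 536870912 536870912 0 536870912 1) ndB7q1 ndB0q2 pcB1 cut_mm_112_s Ext.none)

def k0_mm_112_s : ∃ t, chk3 f_mm_112_s t 1 1 1 = true :=
  ⟨(l 5), by decide +kernel⟩

theorem c_mm_112_s : CertNE 536870912 536870912 0 536870912 587336777 62277027 3 eng mog cd7q1 cd0q2 pd1 false false false .dn 1 1 2
    ndB7q1 ndB0q2 pcB1 cut_mm_112_s Ext.none :=
  certNE0 (fam := false) (s1 := false) (s2 := false) (a := 1) (b := 1) (c := 2) (cn := .dn) (n1 := ndB7q1) (n2 := ndB0q2) (pc := pcB1) (cut := cut_mm_112_s) (xt := Ext.none) (P1 := 536870912) (W1 := 536870912) (P2 := 0) (W2 := 536870912) (P3 := 587336777) (W3 := 62277027) (N0 := 3) (En := eng) (mo := mog) (C1 := cd7q1) (C2 := cd0q2) (C3 := pd1)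
    rfl k0_mm_112_s

noncomputable def cut_mm_202_s : Cut := Cut.of [[⟨4, 0, 0, 1449551462⟩]]

noncomputable def f_mm_202_s : ℕ → ℕ → ℕ → ℕ → Bool := onCell 1073741824 536870912 0 536870912 587336777 62277027
    (rowNE 3 eng mog cd7q2 cd0q2 pd0 0 false false false .pp 2 0 2 (qsf 1073741824 536870912 0 536870912 0) ndB7q2 ndB0q2 pcB0 cut_mm_202_s Ext.none)

def k0_mm_202_s : ∃ t, chk3 f_mm_202_s t 1 1 1 = true :=
  ⟨(l 5), by decide +kernel⟩

theorem c_mm_202_s : CertNE 1073741824 536870912 0 536870912 587336777 62277027 3 eng mog cd7q2 cd0q2 pd0 false false false .pp 2 0 2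
    ndB7q2 ndB0q2 pcB0 cut_mm_202_s Ext.none :=
  certNE0 (fam := false) (s1 := false) (s2 := false) (a := 2) (b := 0) (c := 2) (cn := .pp) (n1 := ndB7q2) (n2 := ndB0q2) (pc := pcB0) (cut := cut_mm_202_s) (xt := Ext.none) (P1 := 1073741824) (W1 := 536870912) (P2 := 0) (W2 := 536870912) (P3 := 587336777) (W3 := 62277027) (N0 := 3) (En := eng) (mo := mog) (C1 := cd7q2) (C2 := cd0q2) (C3 := pd0)
    rfl k0_mm_202_s

end Pool.Agent.Strip051.G.I5470_6050.Tab.CS.BB70

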