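import Pool.Agent.Strip051.G.I5470_6050.Tab

/-! # Certificates B19 (generated) -/

set_option linter.all false
set_option maxRecDepth 100000

namespace Pool.Agent.Strip051.G.I5470_6050.Tab.C.BB01

open Pool.Agent.Strip051.PB Pool.Agent.Strip051.PB.T
open Pool.Agent.Strip051.G.I5470_6050.Tab

noncomputable def cut_pp_012_a : Cut := Cut.of [[⟨0, 0, 0, 53687091⟩, ⟨1, 1, 0, 53687091⟩, ⟨2, 1, 0, 53687091⟩]]

noncomputable def f_pp_012_a : ℕ → ℕ → ℕ → ℕ → Bool := onCell 536870912 536870912 0 536870912 587336777 62277027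
    (rowB 3 eng mog cd0q0 cd1q2a pd1 2 false true true .pnp 0 1 2 (qsf 0 536870912 0 536870912 1) ndB0q0 ndB1q2a pcB1 cut_pp_012_a Ext.none)

def k0_pp_012_a : ∃ t, chk3 f_pp_012_a t 4 1 1 = true :=
  ⟨(b (b (l 2) (l 3)) (l 3)), by decide +kernel⟩

def k1_pp_012_a : ∃ t, chk3 f_pp_012_a t 40 8 1 = true :=
  ⟨(l 2), by decide +kernel⟩

def k2_pp_012_a : ∃ t, chk3 f_pp_012_a t 82 8 1 = true :=
  ⟨(l 2), by decide +kernel⟩

def k3_pp_012_a : ∃ t, chk3 f_pp_012_a t 166 8 1 = true :=
  ⟨(l 2), by decide +kernel⟩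

def k4_pp_012_a : ∃ t, chk3 f_pp_012_a t 167 16 1 = true :=
  ⟨(a (l 61303944311) (l 16771536)), by decide +kernel⟩

def k5_pp_012_a : ∃ t, chk3 f_pp_012_a t 167 68 1 = true :=
  ⟨(b (l 16771904) (c (l 89758104615) (l 93516200407))), by decide +kernel⟩

def k6_pp_012_a : ∃ t, chk3 f_pp_012_a t 167 138 1 = true :=
  ⟨(a (a (l 2) (a (a (l 2) (b (a (l 2) (c (l 100495522871) (l 16776336))) (b (b (b (a (l 2) (b (c (l 102710115303) (l 107005082103)) (l 152639109847))) (l 3)) (l 3)) (l 3)))) (b (c (l 16777232) (l 16776824)) (b (b (a (b (a (a (b (l 16776280) (l 110763178951)) (l 16776272)) (l 16776232)) (a (l 153175980615) (b (c (l 91435826215) (l 95193922007)) (c (l 138680466215) (l 143512304087))))) (c (c (l 69424118887) (l 71034731255)) (c (l 72645343639) (l 74255956039)))) (b (a (l 3) (a (c (l 142975433399) (l 147807271399)) (b (l 80698407927) (c (l 126869306199) (l 131701144071))))) (l 3))) (l 3))))) (a (b (l 16776616) (a (b (a (b (l 16776080) (b (c (l 16776408) (l 16776056)) (a (a (l 153175980679)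 (b (l 107541953495) (l 3))) (b (l 16776272) (c (l 115058146247) (l 119353113079)))))) (c (l 16776248) (l 16775880))) (b (a (l 167134624167) (b (a (b (c (l 109152566247) (l 113447533031)) (l 159081560695)) (a (b (l 16776272) (l 119889984391)) (l 75866569767))) (c (l 157470948023) (l 163376527399)))) (l 3))) (b (l 16777184) (b (a (b (l 16776200) (a (b (c (l 97341406231) (l 101636372935)) (l 147270400775)) (c (l 82309020727) (l 86067116423)))) (l 16776792)) (a (a (l 3) (c (l 153712851639) (l 159618431015))) (b (b (c (l 77477182535) (l 81235278231)) (a (c (l 133311757143) (l 138143594919)) (l 81235278823))) (a (l 3) (a (l 158544689703) (b (l 116131887991) (l 3)))))))))) (b (l 16774736) (b (l 16775480) (a (b (l 16775952) (a (b (l 16776168) (a (b (l 75329698855) (c (l 121500597143) (l 125795564007))) (l 16776568))) (l 16776104))) (l 16775808)))))), by decide +kernel⟩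

def k7_pp_012_a : ∃ t, chk3 f_pp_012_a t 167 139 1 = true :=
  ⟨(a (l 3) (b (a (l 3) (b (a (b (a (a (l 3) (b (b (c (l 115595017143) (l 119889983959)) (l 165524011543)) (l 3))) (a (b (b (l 16776256) (c (l 109689437127) (l 113984403911))) (l 162302785847)) (b (l 16776224) (b (c (l 103783857095) (l 108078823879)) (l 153712851623))))) (l 3)) (a (b (a (b (l 16776168) (a (b (l 16776256) (l 112373791639)) (l 16776248))) (l 16776160)) (b (a (l 153712851479) (b (c (l 91972697079) (l 95730792871)) (l 141901691623))) (l 3))) (b (l 16776072) (b (a (c (l 78550924311) (l 82309020007)) (l 16776192)) (a (c (l 142975433335) (l 148344142263)) (b (l 81772149719) (c (l 127406177079) (l 132238014935)))))))) (l 3))) (l 3))), by decide +kernel⟩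

def k8_pp_012_a : ∃ t, chk3 f_pp_012_a t 167 35 1 = true :=
  ⟨(l 3), by decide +kernel⟩

def k9_pp_012_a : ∃ t, chk3 f_pp_012_a t 21 16 1 = true :=
  ⟨(a (b (a (l 16753360) (l 16769472)) (a (l 16773024) (l 16757616))) (b (a (b (l 16741480) (l 16745976)) (l 16738976)) (a (l 16752744) (b (l 16745632) (l 16750104))))), by decide +kernel⟩

def k10_pp_012_a : ∃ t, chk3 f_pp_012_a t 84 68 1 = true :=
  ⟨(a (l 16775776) (l 16768056)), by decide +kernel⟩

def k11_pp_012_a : ∃ t, chk3 f_pp_012_a t 168 138 1 = true :=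
  ⟨(a (c (l 16777272) (l 16776744)) (l 16773184)), by decide +kernel⟩

def k12_pp_012_a : ∃ t, chk3 f_pp_012_a t 168 278 1 = true :=
  ⟨(b (a (a (a (c (c (l 62444796919) (l 63518538359)) (c (l 65129150871) (l 66739763239))) (l 16775744)) (l 16775344)) (l 16774496)) (a (a (a (a (b (b (a (a (l 153712851495) (c (l 129016789815) (l 133311756759))) (b (l 16776256) (c (l 115595017079) (l 120426854855)))) (l 166597753159)) (l 3)) (b (b (c (l 16776376) (l 16776016)) (a (b (c (l 109689437079) (l 113984403895)) (l 159618431527)) (a (b (l 16776248) (l 120963726103)) (l 75866569719)))) (c (l 159618431671) (l 166060881959)))) (b (c (l 16776256) (l 16775888)) (b (a (a (b (c (l 97878277031) (l 102173243799)) (l 147807271559)) (c (l 82845891511) (l 86067116423))) (l 16776160)) (a (c (c (l 149954755367) (l 153175980487)) (l 157470947287)) (a (b (c (l 86067117015) (l 89825212791)) (c (l 133311757015) (l 138143594871))) (c (l 74255956983) (l 78014052663))))))) (a (c (l 16776128) (l 16775736)) (l 16775680))) (l 16777616))),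 by decide +kernel⟩

def k13_pp_012_a : ∃ t, chk3 f_pp_012_a t 168 279 1 = true :=
  ⟨(b (a (a (a (l 3) (a (l 3) (a (l 3) (b (b (a (l 158544689655) (b (l 116668758791) (l 3))) (l 3)) (l 3))))) (a (a (b (a (b (b (l 75329698727) (c (l 121500597015) (l 126332434871))) (l 3)) (b (l 16776544) (b (c (l 115595017015) (l 119889983911)) (l 165524011431)))) (l 3)) (b (a (b (l 16776160) (b (l 16776232) (c (l 109689437015) (l 113984403863)))) (l 16776152)) (b (a (l 162302785799) (b (c (l 103783857015) (l 108078823831)) (l 153712851463))) (l 3)))) (b (c (l 16776200) (l 16775816)) (b (a (a (a (b (l 16776232) (l 112373791463)) (l 16776560)) (l 16776184)) (l 16776104)) (a (b (a (l 147807271463) (c (l 91972696967) (l 95730792823))) (c (l 147270400583) (l 153175979943))) (a (c (l 78550924183) (l 81772149047)) (l 16776176))))))) (a (c (l 16775952) (l 16775536)) (l 16775208))) (b (a (b (a (l 3) (a (l 3) (a (l 3) (a (c (l 142975433191) (l 147807271303)) (b (c (l 79624666039) (l 83382761815)) (c (l 127406176951) (l 131701143975)))))))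 (l 3)) (a (a (a (b (c (l 67813506039) (l 16776336)) (a (b (c (l 121500596919) (l 125795563943)) (l 3)) (b (l 16776232) (a (l 136532982439) (l 100025760551))))) (c (l 16776312) (l 16775944))) (l 16775944)) (l 16775560))) (a (l 3) (a (a (a (c (l 163376528039) (l 169818978311)) (b (a (b (a (l 128479918743) (l 91435825975)) (l 159081560455)) (b (l 16776216) (c (l 103246985991) (l 107541952887)))) (c (l 156934077031) (l 162839656375)))) (a (b (l 16776160) (a (b (c (l 97341405991) (l 101099501927)) (l 146733529575)) (a (b (l 16776216) (l 103783856839)) (l 16776208)))) (l 16776744))) (c (l 16775992) (l 16775584)))))), by decide +kernel⟩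

def k14_pp_012_a : ∃ t, chk3 f_pp_012_a t 169 69 1 = true :=
  ⟨(a (c (l 16775984) (l 16775368)) (l 16771832)), by decide +kernel⟩

def k15_pp_012_a : ∃ t, chk3 f_pp_012_a t 85 34 1 = true :=
  ⟨(c (b (l 16764920) (l 16779704)) (l 16776232)), by decide +kernel⟩

def k16_pp_012_a : ∃ t, chk3 f_pp_012_a t 168 70 1 = true :=
  ⟨(b (b (a (l 3) (a (a (l 3) (b (b (b (a (a (l 3) (c (l 146196658743) (l 152102238087))) (a (b (c (l 84993375031) (l 88751470919)) (c (l 132238015079) (l 137069853095))) (c (l 73719085943) (l 76403439879)))) (b (a (l 3) (a (l 3) (c (l 126332435031) (l 131164273047)))) (l 3))) (l 3)) (l 3))) (a (b (a (b (b (l 16776128) (a (b (l 74255956775) (a (l 143512304167) (l 107005082231))) (l 16776520))) (b (a (l 3) (b (a (l 135459240519) (l 98952018615)) (l 164450269479))) (l 3))) (b (l 16776064) (a (b (b (l 16776216) (a (l 126869305991) (l 90898954919))) (l 160692173031)) (b (l 16776184) (b (a (a (l 131164273207) (l 108615694967)) (l 82309020327)) (l 152102238567)))))) (l 3)) (a (b (b (l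 16775944) (a (b (l 16776128) (a (b (l 16776208) (a (l 120963725943) (l 98952018535))) (l 16776536))) (l 16776120))) (b (b (a (c (l 149417884199) (l 155860334455)) (b (c (l 90898954935) (l 94120180039)) (c (l 137606724071) (l 142438562119)))) (l 3)) (l 3))) (b (l 16775928) (b (b (a (c (l 76940311335) (l 79624665351)) (l 16776152)) (a (b (c (l 131701144039) (l 136532982071)) (l 3)) (b (c (l 78014053063) (l 80698407207)) (a (l 150491625879) (a (l 125258693159) (l 102710114919)))))) (l 3))))))) (l 3)) (l 3)), by decide +kernel⟩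

def k17_pp_012_a : ∃ t, chk3 f_pp_012_a t 676 140 1 = true :=
  ⟨(b (b (c (l 16775824) (l 16775400)) (a (b (c (c (l 62981667783) (l 64055409255)) (c (l 65129150759) (l 66739763127))) (a (a (b (b (a (l 142438562199) (c (l 104320727671) (l 108078823687))) (l 3)) (l 3)) (b (b (l 16776208) (a (l 133848627671) (a (l 104857598567) (l 16776560)))) (l 164450269399))) (a (b (l 16776176) (b (a (a (l 139217336759) (l 117205629463)) (l 88751471175)) (l 157470947543))) (b (l 16776120) (b (l 16776192) (a (c (l 115595016711) (l 119889983767)) (l 80161536567))))))) (a (c (l 16776176) (l 16775792)) (l 16775864)))) (b (a (a (l 3) (a (l 3) (b (c (l 156934077015) (l 163376527271)) (l 3)))) (b (a (a (b (b (a (a (l 118816242151) (l 96804534871)) (l 16776216)) (c (l 142438562103) (l 147270400231))) (l 3)) (b (c (c (l 79624665751) (l 80698407527)) (c (l 82309019991) (l 83919632391))) (b (c (l 136532982103) (l 141364820263)) (l 3)))) (b (l 16776120) (a (b (c (l 82845891143) (l 85530245399)) (a (l 157470947559) (a (l 133311756663)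 (l 110763178455)))) (c (l 72108472967) (l 74255956183))))) (b (b (a (l 3) (a (l 3) (a (l 148881012999) (c (l 110226307575) (l 114521274615))))) (l 3)) (l 3)))) (l 3))), by decide +kernel⟩

def k18_pp_012_a : ∃ t, chk3 f_pp_012_a t 677 140 1 = true :=
  ⟨(b (c (l 16775544) (l 16775080)) (a (a (b (b (l 16776712) (a (b (b (c (l 16776384) (l 16776032)) (a (l 140827949351) (c (l 102173243879) (l 105931340023)))) (l 3)) (b (l 64592280183) (b (a (c (l 130090531175) (l 134385498391)) (c (l 93583309319) (l 97341405415))) (l 161765914711))))) (l 3)) (b (b (l 16775936) (b (l 16776088) (a (b (l 16776192) (a (c (l 122037467527) (l 126332434695)) (c (l 86067116535) (l 88214599895)))) (l 16776160)))) (b (a (c (l 158007818823) (l 163913398167)) (b (b (a (c (l 113447532967) (l 117742500087)) (l 78014052823)) (c (l 146196658423) (l 151565367351))) (l 3))) (l 3)))) (b (c (l 16776064) (l 16775664)) (a (b (a (b (b (l 16776176) (a (c (l 104857598359) (l 107005081831)) (l 16776208))) (a (l 3) (c (l 143512303911) (l 148881012903))))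 (b (l 16776144) (b (a (a (l 101636372983) (l 79624665639)) (l 16776200)) (a (l 162302785751) (a (l 139754207671) (l 113447533047)))))) (l 3)) (b (a (b (l 16776088) (c (l 72108472967) (l 73182214359))) (l 16776080)) (b (a (a (l 158007818471) (b (a (l 125258693207) (l 103246985783)) (l 3))) (b (c (l 16776376) (l 16776024)) (a (l 145122916871) (a (l 115058145943) (l 93046438615))))) (l 3))))))), by decide +kernel⟩

def k19_pp_012_a : ∃ t, chk3 f_pp_012_a t 339 140 1 = true :=
  ⟨(b (l 16774464) (a (b (l 16775472) (a (a (b (l 16775992) (b (c (l 16776328) (l 16775960)) (a (b (a (l 136532982359) (a (l 104857598727) (l 82845891351))) (l 3)) (b (l 16776184) (a (l 127943047911) (l 88214600551)))))) (c (l 16776824) (l 16775784))) (l 16776448))) (l 16776480))), by decide +kernel⟩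

def k20_pp_012_a : ∃ t, chk3 f_pp_012_a t 169 141 1 = true :=
  ⟨(b (a (l 3) (a (b (b (a (a (c (l 160155302471) (l 166060881815)) (b (a (b (a (l 116131887927) (l 79624666023)) (l 152102238903)) (a (b (l 16776176) (l 107541953479)) (l 16776504))) (c (l 152639109639) (l 158544688983)))) (a (b (l 16776104) (a (b (c (l 87677729735) (l 89825212663)) (l 139217337239)) (c (l 74255956919) (l 75866568935)))) (l 16776040))) (a (l 3) (a (c (c (l 149954755287) (l 152639109495)) (c (l 155860334615) (l 159081559751))) (a (b (b (l 75866569687) (c (l 124721822695) (l 129553660199))) (l 3)) (b (l 66202893207) (c (c (l 130627402855) (l 133311757047)) (l 137069853031))))))) (l 3)) (b (a (b (l 16775856) (a (a (b (l 16776096) (a (b (l 16776184) (l 133311757335)) (l 79624666055))) (l 16776088)) (l 16776000))) (l 16775712)) (b (b (a (a (a (l 163376527495) (a (l 139754208295) (b (l 84993375207) (l 152639110023)))) (a (c (l 84993375207) (l 87140858135)) (l 16776120))) (l 16775976)) (a (a (l 3) (a (l 153712852039) (c (c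 (l 113984404535) (l 113447533255)) (l 115595016535)))) (a (c (l 71571602407) (l 73182214407)) (l 16776016)))) (a (l 3) (a (b (a (l 145122917415) (b (l 79624666039) (l 130627402759))) (l 3)) (a (b (l 68350376903) (c (l 134385499143) (l 139754207527))) (b (l 16776088) (c (l 95730793447) (l 98415147287)))))))))) (l 3)), by decide +kernel⟩

def k21_pp_012_a : ∃ t, chk3 f_pp_012_a t 84 71 1 = true :=
  ⟨(l 3), by decide +kernel⟩

def k22_pp_012_a : ∃ t, chk3 f_pp_012_a t 85 70 1 = true :=
  ⟨(a (b (c (l 16776160) (l 16775544)) (a (b (a (a (b (l 16775456) (c (l 16776744) (l 16775696))) (l 16775416)) (l 16775008)) (b (a (b (b (a (a (a (c (l 125795564567) (l 130627402039)) (c (l 87140858823) (l 89288341751))) (l 16776080)) (l 16775904)) (a (a (l 159081560183) (a (c (l 114521275399) (l 122037467447)) (l 79087795239))) (l 16776656))) (a (c (l 155860335143) (l 161765914487)) (a (b (a (a (l 118279371815) (l 95730793479)) (l 16776624)) (c (l 143512304039) (l 149417883367))) (a (b (l 16776072) (a (l 107541953559)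 (l 85530246039))) (l 16776064))))) (c (l 16775896) (l 16775480))) (a (a (l 3) (a (l 3) (c (c (l 149954755287) (l 153175980407)) (l 157470947175)))) (a (a (b (b (c (l 80698407975) (l 82309019975)) (c (c (l 129016790055) (l 131701144247)) (l 135459240343))) (l 3)) (b (c (l 68887247783) (l 70497859783)) (a (l 155860334679) (a (l 138680466759) (b (l 98415148007) (l 3)))))) (b (l 16775880) (a (b (l 68350376887) (c (c (l 116668759111) (l 118816242391)) (l 122037467575))) (l 16776680))))))) (a (a (c (l 16776616) (l 16777448)) (l 16777408)) (l 16774360)))) (c (l 16776144) (l 16776752))), by decide +kernel⟩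

def k23_pp_012_a : ∃ t, chk3 f_pp_012_a t 170 71 1 = true :=
  ⟨(b (b (a (a (l 3) (b (a (l 3) (a (l 3) (b (b (a (l 131701144679) (l 91972697111)) (l 161765914695)) (l 3)))) (l 3))) (a (a (b (a (b (b (l 16776056) (a (l 119889984599) (l 83382762487))) (l 158007818327)) (b (l 16775984) (b (a (l 111300049975) (l 16776104)) (l 148881012759)))) (l 3)) (b (a (a (b (l 16775896) (b (l 16776048) (l 102173244439))) (l 59223571415)) (l 16775848)) (b (b (a (l 141364821111) (c (l 83382762471) (l 85530245399))) (c (l 142438562839) (l 148344141511))) (l 3)))) (b (c (l 16775752) (l 16775320)) (a (a (b (c (l 70497860471) (l 16775848)) (c (l 137606723943) (l 142975432359))) (b (l 16775912) (b (l 71034731479) (a (l 144049175543) (l 104320728055))))) (c (l 16776032) (l 16775640)))))) (b (a (l 3) (a (l 3) (a (l 3) (b (a (c (c (l 127406176759) (l 130090530951)) (l 133848626791)) (c (c (l 88751471655) (l 89825213111)) (l 90898954631))) (l 160692172903))))) (l 3))) (l 3)), by decide +kernel⟩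

def k24_pp_012_a : ∃ t, chk3 f_pp_012_a t 171 71 1 = true :=
  ⟨(b (a (b (c (l 16776504) (l 16774712)) (b (a (a (b (l 16775904) (a (a (l 134385499271) (b (l 16776080) (l 145659788183))) (c (l 80161537063) (l 81772149063)))) (l 16777072)) (l 16775368)) (a (a (c (l 154249722375) (l 160692172615)) (b (a (b (l 86067117031) (l 136532982823)) (c (l 72108473143) (l 16775824))) (c (l 144049174903) (l 150491625143)))) (a (a (b (l 16775888) (b (l 73182215063) (l 123648080967))) (l 59760442183)) (l 16775680))))) (c (l 16777184) (l 16774040))) (a (a (l 3) (b (b (a (c (c (b (l 136532982279) (l 3)) (l 146196658423)) (l 151028496103)) (b (a (b (l 16776000) (l 110226308151)) (l 16775936)) (a (l 160155301879) (b (l 103783857175) (l 151565368359))))) (l 3)) (l 3))) (a (b (a (b (c (c (l 68350376919) (l 68350376599)) (l 68887247191)) (a (l 155860334631) (b (a (l 121500597287) (l 98952018967)) (l 3)))) (b (l 16775600) (b (c (l 67813506007) (l 16775736)) (a (l 142438561687) (c (l 99488889911) (l 102173243735)))))) (l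 3)) (a (b (c (l 16776424) (l 16775360)) (b (b (a (a (l 149417883527) (l 122037468215)) (a (l 99488889847) (l 77477182311))) (l 161229043703)) (l 3))) (b (l 16775296) (b (b (l 16775840) (c (a (l 120426855527) (l 82309020599)) (l 107541953063))) (l 157470947383))))))), by decide +kernel⟩

def k25_pp_012_a : ∃ t, chk3 f_pp_012_a t 43 17 1 = true :=
  ⟨(b (a (l 16772128) (l 16756720)) (a (b (c (l 16779160) (l 16778224)) (a (a (b (l 16773128) (a (b (l 16774888) (a (b (l 16775696) (b (a (a (l 122574339095) (l 100025760743)) (l 73182215143)) (l 147807272135))) (b (l 16775440) (a (b (l 16775832) (a (l 111300049927) (l 88751471527))) (l 16777120))))) (c (l 16777664) (l 16774568)))) (c (l 16775880) (l 16777888))) (c (l 16771512) (l 16770784)))) (c (l 16776432) (l 16775304)))), by decide +kernel⟩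

def k26_pp_012_a : ∃ t, chk3 f_pp_012_a t 20 9 1 = true :=
  ⟨(l 3), by decide +kernel⟩

def k27_pp_012_a : ∃ t, chk3 f_pp_012_a t 42 18 1 = true :=
  ⟨(l 3), by decide +kernel⟩

def k28_pp_012_a : ∃ t, chk3 f_pp_012_a t 86 36 1 = true :=
  ⟨(b (a (b (a (b (a (c (b (c (l 147270400631) (l 150491625735)) (l 3)) (l 159618430871)) (a (b (b (c (a (l 91435826103) (l 16776064)) (l 82845890919)) (c (l 131164272807) (l 137069852119))) (l 3)) (c (b (l 68350376919) (c (b (l 123648080167) (l 3)) (l 137069852711))) (b (l 68350376247) (l 141364819479))))) (l 3)) (b (a (b (l 16775408) (a (b (c (l 16776048) (l 16775680)) (a (l 142438561575) (l 101099502647))) (l 58686700375))) (l 16777712)) (a (a (l 3) (b (a (l 144049174375) (b (l 91972697079) (l 3))) (l 3))) (a (b (b (l 16775784) (a (l 122574339191) (l 82845891495))) (l 156397205447)) (b (l 16775632) (b (a (l 110226308151) (l 16777200)) (l 147270399783))))))) (l 3)) (b (a (a (b (l 16774536) (a (a (b (l 16775440) (b (l 16775768) (l 101099502583))) (l 56539216679))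 (l 16775328))) (l 16777064)) (l 16773568)) (a (b (a (a (c (l 150491625879) (l 155860334295)) (b (a (b (l 91435826103) (l 3)) (b (l 16775808) (l 122037468215))) (l 3))) (a (c (b (l 67813505959) (l 135459240039)) (b (l 16775536) (l 139217335719))) (b (l 16775464) (b (l 67813505863) (a (l 140291079191) (l 100562631607)))))) (l 3)) (a (b (c (l 16775504) (l 16775088)) (b (a (c (a (l 140827949143) (l 115595016103)) (l 129016788263)) (c (c (l 84993375319) (l 85530245847)) (l 86067116535))) (l 156397205447))) (b (l 16774736) (b (l 16775424) (a (a (l 130627401319) (a (l 110226308183) (l 97341406183))) (c (l 76403440551) (l 76403439959))))))))) (a (l 3) (b (a (l 3) (a (l 3) (a (l 3) (b (l 150491625399) (l 3))))) (l 3)))), by decide +kernel⟩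

def k29_pp_012_a : ∃ t, chk3 f_pp_012_a t 87 36 1 = true :=
  ⟨(b (a (a (b (l 16772376) (c (l 16777224) (l 16774112))) (l 16774800)) (l 16775592)) (b (b (a (b (a (a (a (a (l 116668757495) (l 91972697303)) (l 66202893335)) (l 16775248)) (l 16774400)) (a (a (c (l 139217336439) (l 142975432087)) (a (a (l 102710115607) (l 80161536919)) (l 16775560))) (l 16777496))) (l 16772872)) (a (a (a (l 3) (a (l 3) (c (b (l 123111208807) (l 3)) (l 139217335687)))) (a (a (b (a (l 90898955399) (l 16775664)) (l 151565366967)) (b (l 16775472) (a (l 126332433879) (l 101636373687)))) (c (l 62981667879) (l 61371054407)))) (c (l 16776744) (l 16776216)))) (b (a (b (a (l 3) (a (l 3) (a (l 141364819527) (a (l 112373791831) (l 89825213479))))) (l 3)) (a (a (b (l 60834184167) (a (l 131164272071) (a (l 100562631783) (l 78550923991)))) (l 16776408)) (l 16774240))) (a (l 3) (a (a (l 3) (b (a (l 120963724615) (l 81772149735)) (l 149954754215))) (a (b (l 16775232) (a (a (l 121500597127) (l 98415148039)) (l 71571602231))) (l 16774904))))))),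 by decide +kernel⟩

def k30_pp_012_a : ∃ t, chk3 f_pp_012_a t 43 37 1 = true :=
  ⟨(a (l 3) (b (a (l 3) (b (a (l 3) (a (c (l 149417884119) (l 154249721575)) (b (a (b (a (l 109152566327) (l 86603987799)) (l 3)) (b (l 16775448) (l 127406175511))) (l 3)))) (l 3))) (l 3))), by decide +kernel⟩

def k31_pp_012_a : ∃ t, chk3 f_pp_012_a t 21 19 1 = true :=
  ⟨(l 3), by decide +kernel⟩

def k32_pp_012_a : ∃ t, chk3 f_pp_012_a t 10 5 1 = true :=
  ⟨(l 3), by decide +kernel⟩

def k33_pp_012_a : ∃ t, chk3 f_pp_012_a t 11 8 1 = true :=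
  ⟨(a (b (a (b (l 16731688) (a (b (l 16740808) (l 16745152)) (l 16738048))) (l 16747088)) (a (b (a (l 16751760) (b (a (l 16745784) (l 16743280)) (l 16748896))) (a (l 16770864) (l 16776280))) (b (a (b (l 16739464) (c (l 16745232) (l 16742184))) (l 16736424)) (a (l 16750128) (b (c (l 16744408) (l 16741056)) (l 16746928)))))) (b (a (l 16736928) (l 16705496)) (a (b (l 16728536) (a (b (l 16737480) (c (l 16743360) (l 16739704))) (l 16734144))) (l 16742848)))), by decide +kernel⟩

def k34_pp_012_a : ∃ t, chk3 f_pp_012_a t 44 36 1 = true :=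
  ⟨(a (a (b (l 16767864) (a (b (l 16771544) (l 16776160)) (l 16771320))) (b (l 16765352) (l 16769456))) (c (l 16774768) (l 16773416))), by decide +kernel⟩

def k35_pp_012_a : ∃ t, chk3 f_pp_012_a t 88 37 1 = true :=
  ⟨(b (a (b (a (a (a (b (c (l 74255956903) (l 73182214455)) (l 3)) (b (l 16775120) (c (l 129016788743) (l 133311755287)))) (b (l 16774696) (a (b (l 77477182231) (l 143512302951)) (b (l 16775248) (a (l 117205629783) (l 95193922343)))))) (c (c (l 55465474279) (l 53317990135)) (c (l 50633635415) (l 48486151303)))) (a (l 3) (a (b (a (l 140827948503) (b (a (l 104857598823) (l 82845891191)) (l 3))) (l 3)) (b (a (b (l 16775328) (l 123648078919)) (c (l 73182214183) (l 68887246407))) (l 151565366935))))) (b (c (l 16772800) (l 16772168)) (a (b (c (l 16774784) (l 16774328)) (a (b (a (c (l 110763178711) (l 114521272871)) (l 73182214183)) (l 142975431991)) (b (l 16774976) (a (a (l 112910662103) (l 90898954471)) (l 16775944))))) (c (l 16774104) (l 16773592))))) (a (l 3) (b (a (a (l 3) (b (c (l 138143594279)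 (l 142975431719)) (l 3))) (a (b (a (b (a (l 101099501687) (l 79087793975)) (l 3)) (b (l 16775192) (a (l 134385497015) (l 110763177831)))) (l 3)) (a (b (a (b (l 16774976) (l 89288341191)) (l 57612956423)) (l 147270399287)) (b (l 16774848) (b (a (l 120963724711) (l 98952017415)) (l 3)))))) (l 3)))), by decide +kernel⟩

def k36_pp_012_a : ∃ t, chk3 f_pp_012_a t 89 37 1 = true :=
  ⟨(a (a (a (b (l 16774560) (b (b (l 16774400) (b (c (l 64592279031) (l 60834181927)) (a (l 134922367895) (a (l 108615693559) (l 87140856839))))) (l 3))) (b (l 16771312) (b (b (l 16773800) (c (l 54928602359) (l 49559892375))) (b (b (a (c (l 123111208055) (l 126332432759)) (b (l 16775208) (l 105394467815))) (l 3)) (l 3))))) (b (l 16770368) (b (c (l 16773648) (l 16773096)) (a (b (b (l 16774888) (a (a (l 127943046055) (a (l 113447531271) (l 101099500263))) (c (l 74792826135) (c (l 72645342135) (l 71571600007))))) (c (l 142438561415) (l 147270398839))) (b (c (l 16774760) (l 16774304)) (b (a (b (c (l 80161535111) (l 78014050775))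 (l 127943045863)) (c (l 65129149511) (l 61907923223))) (a (l 3) (c (l 127406175255) (l 131164270855))))))))) (b (l 16768464) (b (c (l 16771856) (l 16771136)) (a (a (b (l 16773928) (a (b (l 16774800) (b (l 64592277767) (c (l 111836919031) (l 114521272327)))) (c (l 52781118183) (l 46875537527)))) (c (l 16774064) (l 16773544))) (c (l 16773168) (l 16772568)))))), by decide +kernel⟩

def k37_pp_012_a : ∃ t, chk3 f_pp_012_a t 45 18 1 = true :=
  ⟨(a (b (l 16768920) (b (l 16769832) (a (c (l 16770384) (l 16774768)) (l 16772600)))) (b (l 16753144) (c (l 16762208) (l 16771000)))), by decide +kernel⟩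

def k38_pp_012_a : ∃ t, chk3 f_pp_012_a t 44 19 1 = true :=
  ⟨(b (a (l 3) (b (a (l 3) (b (b (b (a (a (a (l 3) (b (a (l 125795561847) (l 90898952535)) (l 3))) (a (b (l 16775040) (a (l 115595014471) (l 75866566807))) (l 16774864))) (c (l 16774352) (l 16773856))) (a (a (l 3) (a (l 144049173175) (b (a (l 105931338023) (l 65666019287)) (l 134922367511)))) (a (a (b (l 16774920) (a (a (l 105394467159) (l 84456501383)) (l 16775088))) (l 16774744)) (l 16774288)))) (a (l 3) (b (b (a (a (c (l 125795562231) (l 129016786919)) (a (c (l 86067114711) (l 84456501191)) (l 16775024))) (l 16774648)) (a (a (l 3) (a (l 145659785303) (c (l 109152563991) (l 110226305127)))) (a (a (a (l 81235275655) (l 16775080)) (l 16774968)) (l 16774736)))) (a (l 3) (a (a (l 139217334727) (b (b (l 73182212055) (l 122574336119)) (l 3))) (b (c (l 57612956103) (l 52244246247)) (a (c (l 123111207671) (l 126332432183)) (b (l 16775080) (c (l 107005080087) (l 107541950615)))))))))) (l 3))) (l 3))) (l 3)), by decide +kernel⟩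

def k39_pp_012_a : ∃ t, chk3 f_pp_012_a t 180 152 1 = true :=
  ⟨(a (a (b (l 16773416) (c (c (l 16775408) (l 16775176)) (c (l 16775600) (l 16775368)))) (c (l 16773568) (l 16773000))) (c (l 16772664) (l 16772008))), by decide +kernel⟩

def k40_pp_012_a : ∃ t, chk3 f_pp_012_a t 180 306 1 = true :=
  ⟨(a (b (a (a (b (a (b (c (l 100025758167) (l 93583306855)) (l 144049172295)) (b (l 16775024) (a (l 108078821543) (l 67276631975)))) (c (l 138680464087) (l 143512301495))) (b (c (l 16775072) (l 16774648)) (a (b (a (l 97878274167) (l 16775072)) (c (l 126869303783) (l 130090528711))) (a (b (l 16775000) (a (l 96267661495) (l 75329695735))) (l 16774984))))) (a (c (l 16774896) (l 16774456)) (l 16774368))) (b (a (a (l 3) (a (l 3) (a (l 3) (c (l 123648078375) (l 126869302967))))) (a (a (b (c (l 66202890455) (l 62444793479)) (a (l 137069850583) (c (l 102710112535) (l 102173241447)))) (a (c (l 57612955767) (l 52781116775)) (l 16774920))) (c (l 16774952) (l 16774520)))) (a (l 3) (a (a (l 3) (b (a (l 126869303319)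 (b (l 61907922887) (l 111300047015))) (l 3))) (a (b (c (l 16775192) (l 16774784)) (a (c (l 116131885319) (c (l 117205626951) (l 117742497639))) (b (l 16775040) (a (l 113447530679) (l 72108470343))))) (c (l 16775104) (l 16774688))))))) (a (c (c (l 16774512) (l 16774264)) (c (l 16774024) (l 16773784))) (c (l 16773792) (l 16773240)))), by decide +kernel⟩

def k41_pp_012_a : ∃ t, chk3 f_pp_012_a t 180 307 1 = true :=
  ⟨(b (a (b (a (l 3) (a (l 3) (a (c (l 138143592999) (l 143512301319)) (b (a (b (c (l 83919630407) (l 81235275879)) (l 132238012471)) (a (c (l 79087792231) (l 75329695623)) (l 16775024))) (a (l 3) (c (l 124721819879) (l 127943045079))))))) (l 3)) (a (a (a (b (b (c (l 16775136) (l 16774720)) (a (b (c (l 69960986647) (l 65666019287)) (c (l 110226305143) (l 111300046903))) (c (l 58149826567) (l 52781117047)))) (a (l 3) (b (c (c (l 112373789271) (l 113447530679)) (c (l 115058143095) (l 115595013943))) (l 3)))) (b (c (l 16775048) (l 16774624)) (a (b (b (l 47949278935) (c (l 96267661383) (l 95730790327)))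 (l 3)) (b (l 16774976) (b (c (l 89288339543) (l 87677726615)) (l 132238012119)))))) (a (b (l 16774680) (b (l 16774864) (a (a (b (l 16775016) (l 89825210231)) (l 16774928)) (l 16774952)))) (c (l 16774872) (l 16774432)))) (c (l 16774504) (c (l 16774144) (l 16773904))))) (a (l 3) (a (b (a (l 3) (b (a (a (l 129553657367) (b (a (l 79624662791) (l 16775024)) (l 117742497399))) (c (l 51707375655) (l 47949278455))) (a (l 3) (a (c (l 117205627079) (l 119889980871)) (b (l 16775016) (l 102710111783)))))) (l 3)) (a (a (b (c (l 16775080) (l 16774664)) (b (a (b (l 95730789815) (l 3)) (c (l 68887244871) (l 67276631351))) (l 134385495607))) (b (l 16774712) (a (b (l 16774936) (c (l 91972694167) (l 98415144311))) (c (l 52244246551) (l 47949278455))))) (c (l 16774832) (l 16774384)))))), by decide +kernel⟩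

def k42_pp_012_a : ∃ t, chk3 f_pp_012_a t 180 77 1 = true :=
  ⟨(b (a (l 3) (b (a (l 3) (b (a (a (l 3) (c (l 130627400279) (l 135459237655))) (a (b (b (a (a (l 93046435111) (l 72108469479)) (l 16774960)) (c (l 117205627159) (l 120426851815))) (l 3)) (b (c (c (l 57076085271) (l 54928601191)) (c (l 53317988119) (l 51707374967))) (c (l 117205627367) (c (l 119889981143) (l 121500593479)))))) (l 3))) (l 3))) (l 3)), by decide +kernel⟩

def k43_pp_012_a : ∃ t, chk3 f_pp_012_a t 181 38 1 = true :=
  ⟨(a (b (b (l 16771048) (b (c (l 16772880) (l 16772240)) (c (c (l 16773984) (l 16773704)) (c (l 16774744) (l 16774472))))) (b (a (b (a (b (a (b (l 16774752) (b (c (l 16775152) (l 53854858471)) (a (l 126869302631) (l 86603984279)))) (c (l 16774944) (l 38822472903))) (a (l 3) (b (a (l 124184948327) (b (l 76403436887) (l 3))) (l 3)))) (a (b (l 16774568) (b (b (l 16774880) (c (l 88751468711) (l 87677726135))) (l 133311753895))) (b (l 16774408) (b (l 16774784) (b (c (l 75866566775) (l 75329695095)) (l 124721819127))))))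 (l 3)) (a (b (b (l 16774176) (a (b (l 16774632) (a (b (l 16774856) (l 80161533255)) (l 16774840))) (l 16774600))) (b (a (c (l 125795561927) (l 130090528375)) (b (b (l 60834180455) (l 109152562663)) (l 3))) (l 3))) (b (c (l 16774368) (l 16773864)) (b (b (c (l 16774968) (l 42043698423)) (a (c (l 110226305447) (l 112910658919)) (c (l 72108470519) (c (l 71034728215) (l 69960986055))))) (l 3))))) (l 3))) (b (b (l 16769752) (c (l 16772136) (l 16771424))) (a (a (b (b (l 16773800) (b (c (l 16774792) (l 16774328)) (b (a (b (l 86067113383) (l 129553657207)) (c (l 62444793927) (l 59760438583))) (l 128479915927)))) (l 3)) (b (b (l 16773480) (b (l 16774248) (b (l 16774624) (a (a (l 97341402583) (l 75866566023)) (l 51170503927))))) (b (b (c (l 123111207351) (l 126869302855)) (l 3)) (l 3)))) (b (b (l 16773000) (c (l 16774288) (l 16775080))) (b (a (b (b (a (a (l 84456500631) (l 63518534887)) (l 16774736)) (c (l 110226305671) (l 113984400695))) (l 3)) (a (b (a (b (l 16774616) (l 71571598631)) (l 44191181927)) (l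 130627399607)) (b (l 16774552) (a (l 118279368487) (b (l 80161533255) (l 3)))))) (l 3)))))), by decide +kernel⟩

def k44_pp_012_a : ∃ t, chk3 f_pp_012_a t 91 38 1 = true :=
  ⟨(b (c (a (l 16774552) (l 16766792)) (a (b (l 16767240) (l 16769376)) (l 16765528))) (b (a (c (c (l 16775064) (l 16774696)) (c (l 16774336) (a (l 16772056) (l 16770656)))) (c (l 16769760) (l 16768776))) (a (a (a (a (b (b (l 16774312) (b (c (l 16774920) (l 16774464)) (c (l 95730790935) (a (l 118816238983) (l 77477178663))))) (l 3)) (b (c (l 16774504) (l 16774000)) (b (b (a (l 107005079047) (l 67813502279)) (l 132238012087)) (l 3)))) (a (b (l 16773928) (b (b (l 16774568) (a (l 96267660743) (l 57076083879))) (l 126869303175))) (b (l 16773608) (b (l 16774376) (b (c (l 68350374103) (l 66739760519)) (l 115595013863)))))) (a (b (l 16773128) (a (a (b (l 16774136) (b (l 16774520) (l 70497856775))) (l 16774232)) (l 16773992))) (c (l 16773312) (l 16772680)))) (a (c (l 16772384) (l 16771656)) (l 16770696))))), by decide +kernel⟩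

def k45_pp_012_a : ∃ t, chk3 f_pp_012_a t 45 39 1 = true :=
  ⟨(a (l 3) (b (b (a (a (l 3) (a (b (b (a (c (l 113984401543) (l 117205626103)) (b (l 52781116663) (a (l 123111206183) (l 83919629575)))) (l 3)) (l 3)) (b (c (b (l 16774536) (a (l 102173242103) (l 65129148791))) (b (l 16774032) (a (a (l 121500593319) (l 93583306295)) (a (l 70497856951) (l 16774312))))) (c (l 128479916823) (l 133311754087))))) (a (a (a (b (l 16774712) (b (a (l 105394466439) (a (l 86067113415) (l 74255953223))) (l 3))) (b (l 16773736) (b (b (l 16774376) (l 63518534887)) (l 116668755831)))) (b (l 16773248) (b (l 16774024) (a (b (l 56002341959) (l 102173240759)) (l 43117439927))))) (c (c (l 16773288) (l 16772952)) (c (l 16772616) (l 16772288))))) (a (l 3) (a (a (l 3) (a (l 3) (b (a (l 125258690375) (b (l 95730789847) (l 3))) (l 3)))) (a (b (a (b (b (l 16774432) (l 86067113239)) (l 3)) (b (l 16774240) (a (l 107541949863) (l 81772145991)))) (l 3)) (a (b (c (l 47412408343) (c (l 43117440407) (l 40433085495))) (l 122574335767))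 (b (l 16773848) (b (a (l 89825209671) (l 68350373031)) (l 3)))))))) (l 3))), by decide +kernel⟩

def k46_pp_012_a : ∃ t, chk3 f_pp_012_a t 23 18 1 = true :=
  ⟨(a (b (a (l 16747752) (b (l 16750696) (l 16744272))) (a (c (l 16757128) (l 16754832)) (l 16750472))) (b (a (b (l 16734688) (l 16738712)) (l 16731040)) (a (b (l 16742696) (l 16746832)) (b (l 16736992) (l 16740912))))), by decide +kernel⟩

def k47_pp_012_a : ∃ t, chk3 f_pp_012_a t 23 19 1 = true :=
  ⟨(a (b (a (a (b (l 16763488) (c (l 16768232) (l 16772304))) (b (l 16760768) (l 16764944))) (c (l 16770264) (b (l 16755440) (l 16759816)))) (b (a (a (b (c (l 16776472) (c (l 16770576) (l 16770144))) (a (a (b (l 16773352) (a (b (l 44191181607) (l 105394466487)) (b (l 16773968) (a (l 76403436663) (l 54928599895))))) (c (l 16773544) (l 16775520))) (c (l 16772600) (l 16771848)))) (c (l 16774928) (c (l 16768880) (l 16773600)))) (a (c (l 16767088) (l 16765712)) (l 16763592))) (a (b (b (a (a (a (l 3) (b (a (a (l 108615691447) (l 83919629479)) (a (l 62444792695)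 (l 16774272))) (l 120963722743))) (a (b (l 16773856) (a (a (l 91435822199) (l 69960985511)) (l 16774208))) (l 16773456))) (c (l 16772192) (l 16773992))) (a (a (l 3) (c (a (l 115058143399) (b (l 58149826727) (l 101636370007))) (a (l 118816238727) (b (c (l 55465471479) (l 53317987463)) (l 103783852583))))) (a (a (a (b (l 16773736) (l 57076083559)) (l 16773664)) (l 16773160)) (l 16772144)))) (a (l 3) (a (b (a (a (l 119889980871) (b (l 81235274855) (l 3))) (a (b (l 16774112) (l 104320724055)) (b (l 16773776) (l 68887243687)))) (l 3)) (b (c (l 16773544) (l 16772856)) (b (a (a (l 91972693063) (l 57612954183)) (l 16773648)) (a (l 117205625975) (a (l 80698403639) (l 16773992)))))))) (a (a (b (l 16770248) (c (l 16772760) (l 16774584))) (c (l 16770448) (l 16774640))) (c (l 16768448) (l 16771096)))))) (b (a (c (l 16754400) (l 16751584)) (l 16747096)) (a (c (b (l 16760360) (l 16769592)) (b (l 16758176) (c (l 16773512) (l 16772640)))) (c (l 16756712) (b (l 16751928) (l 16756320)))))), by decide +kernel⟩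

def k48_pp_012_a : ∃ t, chk3 f_pp_012_a t 22 5 1 = true :=
  ⟨(l 3), by decide +kernel⟩

def k49_pp_012_a : ∃ t, chk3 f_pp_012_a t 46 10 1 = true :=
  ⟨(b (b (a (b (a (l 3) (b (a (l 3) (b (c (l 112910659895) (l 117205626039)) (l 3))) (l 3))) (l 3)) (b (a (b (a (a (b (a (b (l 68887243367) (l 3)) (b (l 16773840) (l 91972692567))) (l 3)) (b (c (l 41506827863) (c (l 37211859863) (l 35064375655))) (c (l 98415144295) (b (l 91972691703) (l 3))))) (a (b (l 16772896) (a (b (l 16773856) (l 103246981479)) (b (l 16773512) (l 68887242999)))) (c (l 16773120) (l 16774968)))) (a (l 3) (a (l 3) (b (b (a (l 91972692183) (l 57612953527)) (l 115058141783)) (l 3))))) (a (b (c (l 16772128) (l 16771232)) (a (b (b (l 16773336) (a (l 80161531975) (l 44728051095))) (l 109152561863)) (b (l 16772896) (a (b (l 68887242567) (l 3)) (b (l 16773512) (l 90898949927)))))) (a (b (l 16770608) (b (l 16772184) (a (b (l 16773152) (l 57612952999)) (l 16773064)))) (b (l 16769888) (b (l 16771472) (l 16772528)))))) (a (l 3) (b (a (l 3) (b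 (a (a (l 113447528823) (b (l 79087789687) (l 3))) (a (b (l 43654308839) (l 101636367863)) (b (l 16773136) (a (l 78550918263) (l 58149823319))))) (l 3))) (l 3))))) (l 3)) (l 3)), by decide +kernel⟩

def k50_pp_012_a : ∃ t, chk3 f_pp_012_a t 47 40 1 = true :=
  ⟨(a (b (c (a (c (l 16775288) (l 16774680)) (l 16766952)) (a (a (a (l 16772320) (l 16768936)) (l 16773032)) (l 16770704))) (b (a (a (b (c (l 16774240) (c (l 16772288) (l 16771888))) (b (a (a (l 89825207655) (a (l 64592274199) (l 16773376))) (l 16772928)) (a (l 111836915559) (a (a (l 90898948999) (l 71034725095)) (l 42580566487))))) (b (l 16771040) (a (l 16773120) (l 16771728)))) (c (c (l 16770256) (l 16769648)) (c (l 16769064) (l 16773736)))) (a (a (b (c (l 105931336919) (a (l 3) (l 107541947623))) (l 3)) (a (b (a (b (a (l 77477175911) (l 57612951863)) (l 3)) (b (l 16773072) (l 88214594375))) (l 3)) (a (b (b (l 16772704) (a (l 63518531815) (l 16773136))) (l 109689431591)) (b (l 16772600) (b (b (l 58686693319) (l 101636366407)) (l 3)))))) (a (a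 (b (l 16772048) (a (b (a (l 50096758519) (l 16772928)) (l 98415141303)) (b (l 16772648) (b (l 43117436295) (l 84993367911))))) (b (l 16771304) (c (l 16772808) (l 19495116055)))) (c (l 16772552) (c (l 16770456) (l 16769952))))))) (b (c (l 16767912) (a (l 16762312) (l 16759120))) (c (a (c (l 16773704) (l 16772992)) (l 16765192)) (a (a (b (l 16766416) (l 16768616)) (l 16771168)) (c (l 16763928) (l 16763104)))))), by decide +kernel⟩

def k51_pp_012_a : ∃ t, chk3 f_pp_012_a t 94 41 1 = true :=
  ⟨(b (a (l 3) (b (a (a (l 3) (b (b (a (b (l 76940304023) (l 3)) (a (a (l 67276627415) (l 56539208999)) (l 38822468791))) (l 107541947303)) (l 3))) (a (b (b (l 16772400) (a (a (l 87677722247) (b (l 16772888) (l 95730785511))) (c (l 39896212135) (l 35601243223)))) (a (l 3) (c (l 98415142359) (l 101636366167)))) (b (c (l 16772392) (l 16771456)) (b (b (c (l 33453760919) (l 28621921175)) (a (c (l 81235272391) (l 81772141783)) (l 33453758935))) (a (l 3) (a (l 99488881895) (b (l 62444788631) (l 3)))))))) (l 3))) (l 3)),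 by decide +kernel⟩

def k52_pp_012_a : ∃ t, chk3 f_pp_012_a t 95 82 1 = true :=
  ⟨(a (b (b (a (c (l 16771312) (l 16770264)) (a (l 16769640) (l 16768872))) (a (a (b (c (l 16772424) (l 16771488)) (a (b (l 16772520) (a (l 82309012599) (l 46875531959))) (l 16772280))) (c (l 16771952) (l 16770968))) (c (l 16770864) (l 16769768)))) (a (b (a (b (a (l 104320720919) (b (a (l 71571594167) (l 16772576)) (l 96267656295))) (l 3)) (b (a (b (l 16772288) (c (l 45801791415) (c (l 42580565047) (l 40969951511)))) (l 16772040)) (a (c (l 91972690391) (c (l 93583301799) (l 94657042791))) (b (c (l 38822469255) (l 35064371159)) (a (l 100562623479) (a (l 80161528759) (l 61371046631))))))) (l 3)) (a (a (b (b (l 16771656) (c (l 28085050711) (l 22716339991))) (b (b (a (l 89288334215) (c (l 59760434663) (l 57076078871))) (l 3)) (l 3))) (b (c (l 16772040) (l 16771056)) (b (a (b (l 16772280) (c (l 78550916631) (l 77477173735))) (b (l 16772088) (c (l 44191177911) (l 40433080343)))) (c (l 99488882967) (l 102710106631))))) (b (c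 (l 16771496) (l 16770456)) (b (c (l 16772240) (l 16771272)) (a (a (b (b (a (l 60834175671) (l 16772304)) (l 87140850471)) (l 3)) (b (c (l 16772704) (l 16771776)) (c (l 86603980119) (l 86603979111)))) (a (b (l 16772032) (b (l 29695662311) (c (l 72645336103) (l 70497851575)))) (c (l 16772464) (l 16771504))))))))) (a (c (b (l 16768904) (b (l 16770400) (a (c (l 16772024) (l 16771488)) (l 16771024)))) (b (l 16767608) (b (l 16770560) (a (c (l 16770984) (l 16770496)) (l 16769928))))) (b (c (l 16767432) (l 16765992)) (c (c (l 16769744) (l 16769096)) (c (l 16768472) (l 16770504)))))), by decide +kernel⟩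

def k53_pp_012_a : ∃ t, chk3 f_pp_012_a t 190 83 1 = true :=
  ⟨(b (b (b (a (l 3) (b (a (l 3) (a (l 3) (a (l 3) (b (c (l 58686692311) (c (l 56539208023) (l 54928594743))) (l 99488881319))))) (l 3))) (l 3)) (l 3)) (l 3)), by decide +kernel⟩

def k54_pp_012_a : ∃ t, chk3 f_pp_012_a t 382 166 1 = true :=
  ⟨(a (b (a (b (a (b (b (l 16772104) (a (b (l 45801789911) (l 87677721159)) (l 31843145991))) (c (l 95193914519) (l 97341396711))) (b (l 16771808) (b (a (b (l 16772184) (l 72645335591)) (l 16772120)) (c (l 84456496135) (c (l 83919624535) (l 83919623975)))))) (l 3)) (a (b (b (l 16771784) (c (c (l 32380018103) (l 30232533495)) (c (l 28085049015) (l 24326952135)))) (b (b (a (l 96267655687) (c (l 67813497735) (a (l 75329689591) (l 56002336631)))) (l 3)) (l 3))) (b (c (l 16772224) (l 16771240)) (b (b (c (l 16772368) (l 16771576)) (a (c (l 85530237895) (l 85530236887)) (c (c (l 58149821831) (l 56539208247)) (c (l 54928595015) (l 52781110791))))) (l 3))))) (l 3)) (a (b (b (c (l 16771944) (l 16770936)) (b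 (c (c (l 16772576) (l 16772064)) (l 16771504)) (b (a (a (b (c (l 57076079463) (l 53854852935)) (l 90898946471)) (b (l 16772024) (c (l 47412402999) (l 43654305591)))) (c (l 16772408) (l 16771440))) (a (c (l 89288334263) (l 90362075079)) (a (c (c (l 56002338167) (l 55465466455)) (c (l 53854853159) (l 52781110775))) (c (l 16772504) (l 16771544))))))) (a (l 3) (a (l 3) (b (b (b (c (l 76940303191) (l 76403431271)) (l 3)) (l 3)) (l 3))))) (b (b (c (l 16771576) (l 16770536)) (c (c (l 16772344) (l 16771816)) (c (l 16771312) (l 16770848)))) (b (b (a (b (a (b (l 22716340343) (c (l 61907917623) (l 59223562055))) (l 16771968)) (a (l 3) (b (a (l 66739755351) (l 34527500503)) (l 88214591847)))) (c (c (l 28085050551) (l 25400695047)) (c (l 23253210599) (l 16771528)))) (a (l 3) (b (b (a (l 80698399031) (a (l 43117435143) (l 16772008))) (c (l 81235270471) (l 80698398567))) (l 3)))) (l 3))))), by decide +kernel⟩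

def k55_pp_012_a : ∃ t, chk3 f_pp_012_a t 383 166 1 = true :=
  ⟨(a (b (b (c (l 16771024) (l 16769928)) (c (c (l 16771800) (l 16771248)) (c (l 16770720) (l 16770224)))) (a (b (a (b (c (l 16772208) (l 16771224)) (b (c (l 16772424) (l 16771456)) (a (c (l 75329690375) (l 74255947591)) (c (l 44728048215) (l 40433079911))))) (c (l 16772168) (l 16771176))) (b (b (a (l 94657042743) (a (c (l 65129142967) (l 62981658359)) (c (l 16772472) (l 16771512)))) (c (l 89288334199) (l 91972687287))) (l 3))) (b (c (l 16771888) (l 16770872)) (a (b (b (l 16771832) (a (b (l 33453758519) (l 70497851591)) (l 22179469159))) (c (l 83919624951) (c (l 83919624247) (l 83919623767)))) (b (c (l 16772216) (l 16771240)) (b (c (l 36674984279) (c (l 32380016343) (l 16771576))) (c (l 71571593927) (c (l 70497851399) (l 69960979911))))))))) (b (c (l 16771184) (c (l 16769664) (l 16769120))) (b (c (l 16771328) (l 16770592)) (a (c (c (l 21642599479) (l 18958243959)) (c (l 16273888487) (l 16771520))) (c (l 16771712) (l 16770688)))))), by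 decide +kernel⟩

def k56_pp_012_a : ∃ t, chk3 f_pp_012_a t 191 167 1 = true :=
  ⟨(b (a (l 3) (a (l 3) (a (b (b (a (b (a (l 80698398951) (b (l 16771952) (l 67813496951))) (l 3)) (a (b (l 16771896) (a (l 82845882551) (l 65129142359))) (c (l 32916887687) (l 27011306711)))) (c (l 91435817991) (l 94657041911))) (l 3)) (b (b (c (l 16772128) (l 16771152)) (a (b (a (b (l 43654305767) (l 79624657015)) (l 29158790951)) (c (l 82845882967) (l 82845882007))) (b (l 16771752) (c (l 40969951495) (l 36138112327))))) (c (c (l 85530238887) (l 87140850631)) (c (l 88751462439) (l 90362074295))))))) (l 3)), by decide +kernel⟩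

def k57_pp_012_a : ∃ t, chk3 f_pp_012_a t 47 21 1 = true :=
  ⟨(l 3), by decide +kernel⟩

def k58_pp_012_a : ∃ t, chk3 f_pp_012_a t 23 11 1 = true :=
  ⟨(l 3), by decide +kernel⟩

def k59_pp_012_a : ∃ t, chk3 f_pp_012_a t 5 3 1 = true :=
  ⟨(l 3), by decide +kernel⟩

def k60_pp_012_a : ∃ t, chk3 f_pp_012_a t 12 4 1 = true :=
  ⟨(b (a (a (b (l 16694480) (l 16710520)) (b (l 16682896) (l 16698600))) (a (l 16678520) (b (l 16658160) (l 16673200)))) (a (b (a (a (b (l 16725256) (l 16754136)) (l 16723232)) (l 16714040)) (a (b (a (b (l 16738936) (l 16743080)) (b (l 16732952) (l 16736840))) (a (c (l 16750880) (l 16747712)) (l 16743032))) (b (a (l 16728760) (l 16722360)) (a (b (l 16734600) (l 16738680)) (b (l 16728288) (l 16732176)))))) (a (b (l 16701312) (b (l 16712624) (l 16741424))) (b (l 16688032) (l 16702960))))), by decide +kernel⟩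

def k61_pp_012_a : ∃ t, chk3 f_pp_012_a t 48 40 1 = true :=
  ⟨(a (a (b (l 16757072) (a (l 16762016) (l 16760456))) (b (l 16753944) (l 16758088))) (c (l 16763168) (b (l 16747664) (l 16751984)))), by decide +kernel⟩

def k62_pp_012_a : ∃ t, chk3 f_pp_012_a t 96 82 1 = true :=
  ⟨(b (a (a (l 16765144) (l 16763568)) (l 16761192)) (c (a (c (l 16767568) (l 16766800)) (l 16764152)) (a (a (l 16769160) (l 16764896)) (l 16762408)))), by decide +kernel⟩

def k63_pp_012_a : ∃ t, chk3 f_pp_012_a t 96 83 1 = true :=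
  ⟨(a (b (b (a (c (l 16770392) (a (l 16768576) (l 16767752))) (a (l 16767592) (l 16766800))) (a (c (c (l 16770792) (l 16771504)) (a (a (l 16769968) (l 16769560)) (l 16768944))) (c (l 16768984) (l 16769024)))) (a (a (b (b (c (c (l 16771984) (l 16771448)) (c (l 16770936) (l 16770464))) (b (a (a (b (c (l 16772344) (l 16771720)) (c (l 68350368247) (l 66739754551))) (c (l 16772232) (l 16771264))) (c (l 16771952) (l 16770960))) (a (a (l 3) (b (c (l 61371046263) (l 58686690791)) (l 3))) (a (b (l 16771760) (c (l 54391724311) (l 50633627015))) (l 16771640))))) (b (b (a (l 3) (a (l 89288333335) (b (c (l 45264918679) (l 40969950455)) (l 79624656839)))) (l 3)) (l 3))) (b (c (c (l 16771528) (l 16770968)) (c (l 16770440) (l 16769944))) (b (a (a (b (c (l 31843145719) (l 26474435463)) (c (l 78014044663) (l 78014043607))) (b (l 16771544) (b (c (l 16772256) (l 16771304)) (c (l 65129142551) (l 62981657959))))) (c (l 19495114535) (l 16770920))) (a (l 3) (a (b (a (l 79624656759) (b (l 41506821751) (l 90362074999))) (l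 3)) (b (b (l 16771672) (a (l 61907916503) (l 16771768))) (l 86067107671))))))) (a (b (c (l 16770488) (l 16769368)) (b (c (l 16771336) (l 16770304)) (b (c (l 16771760) (l 16770768)) (a (a (b (a (l 49559885447) (l 16771720)) (l 75329689367)) (c (l 16772136) (l 16771184))) (l 16771104))))) (c (c (l 16773224) (l 16771312)) (c (l 16770744) (c (l 16769032) (l 16771392))))))) (a (b (c (l 16766928) (c (l 16765816) (l 16765112))) (c (c (l 16769488) (l 16771456)) (c (l 16770184) (c (l 16770400) (l 16770112))))) (b (c (l 16765400) (l 16763792)) (c (l 16767624) (c (l 16766576) (l 16765928)))))), by decide +kernel⟩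

def k64_pp_012_a : ∃ t, chk3 f_pp_012_a t 97 41 1 = true :=
  ⟨(a (b (a (l 16759832) (l 16758216)) (b (c (l 16763088) (l 16763896)) (a (c (l 16766080) (l 16764568)) (a (l 16764088) (l 16763272))))) (b (l 16755784) (c (l 16766304) (c (l 16764824) (l 16763888))))), by decide +kernel⟩

def k65_pp_012_a : ∃ t, chk3 f_pp_012_a t 192 84 1 = true :=
  ⟨(b (a (l 3) (b (b (a (a (c (c (l 81235271239) (l 82845882983)) (c (l 84456494791) (l 86067106647))) (a (b (b (l 16771672) (a (l 77477172967) (l 47412401703))) (l 3)) (b (l 16771552) (c (l 65129142487) (a (l 75866559687) (l 55465464919)))))) (a (b (l 16771256) (a (c (l 36674983783) (l 32380015319)) (l 16771448))) (c (l 16771520) (l 16770520)))) (a (l 3) (b (a (a (l 82845882007) (b (a (l 44728047047) (l 16771624)) (l 71571592743))) (c (l 16771944) (l 16770984))) (a (l 3) (a (c (l 72108464295) (l 71571592295)) (c (l 43654305703) (l 40433078999))))))) (l 3))) (l 3)), by decide +kernel⟩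

def k66_pp_012_a : ∃ t, chk3 f_pp_012_a t 193 84 1 = true :=
  ⟨(b (a (a (b (c (c (l 16771504) (l 16770968)) (c (l 16770456) (l 16769968))) (b (b (a (a (c (l 62444787735) (l 60834173863)) (c (l 16772032) (l 16771416))) (l 16771248)) (a (c (l 81235270103) (l 83919622967)) (a (c (l 52244240279) (l 48486142679)) (l 16771368)))) (a (l 3) (a (l 3) (c (l 75329690119) (l 78014042823)))))) (b (c (l 16770464) (l 16769376)) (b (c (l 16771312) (l 16770312)) (b (a (a (b (l 16771472) (l 52781110391)) (l 16771344)) (l 16771040)) (a (a (l 87140848967) (b (l 45801788423) (l 78550914279))) (c (l 27548177895) (l 16771040))))))) (b (c (l 16769312) (c (l 16768408) (l 16767840))) (c (c (l 16772040) (l 16771472)) (c (l 16770936) (l 16770752))))) (a (a (l 3) (a (l 3) (b (b (b (a (l 76403430615) (c (l 47949272775) (l 45801787911))) (l 3)) (l 3)) (l 3)))) (a (b (b (b (c (l 16771536) (l 16770568)) (a (a (c (l 65666012967) (l 65129140935)) (c (l 38822467063) (l 35064369463))) (l 16771136))) (a (l 86603977991) (b (a (a (l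 65129141191) (l 47412400903)) (l 28085047655)) (c (l 75866560615) (l 76940300935))))) (l 3)) (a (b (b (l 16770584) (a (b (l 16771128) (a (l 51707368199) (l 35064369687))) (l 17884499495))) (a (l 3) (b (c (l 70497851543) (l 72645333271)) (l 3)))) (b (c (l 16770992) (l 16769984)) (b (b (c (l 30769403159) (l 27011305111)) (a (l 80161526583) (a (l 61371044551) (l 44191175159)))) (l 3))))))), by decide +kernel⟩

def k67_pp_012_a : ∃ t, chk3 f_pp_012_a t 96 85 1 = true :=
  ⟨(l 3), by decide +kernel⟩

def k68_pp_012_a : ∃ t, chk3 f_pp_012_a t 97 84 1 = true :=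
  ⟨(b (a (a (c (c (l 16768664) (l 16768000)) (c (l 16767360) (l 16769384))) (c (l 16766768) (l 16767984))) (c (l 16769648) (c (l 16763184) (l 16762424)))) (a (a (a (b (c (l 16770416) (l 16769352)) (b (a (c (l 16771456) (l 16770496)) (l 16770560)) (b (a (a (l 69960979143) (a (l 48486142439) (l 16771256))) (l 16771000)) (a (l 3) (c (a (l 59760432471) (l 16771680)) (a (l 58686689383) (l 16770752))))))) (c (c (l 16771800) (l 16771232)) (c (l 16770696) (l 16770848)))) (c (c (l 16771960) (l 16771344)) (a (b (l 16767656) (l 16768904)) (l 16768744)))) (a (c (l 16770072) (c (l 16766456) (l 16765848))) (c (l 16765856) (l 16764432))))), by decide +kernel⟩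

def k69_pp_012_a : ∃ t, chk3 f_pp_012_a t 97 170 1 = true :=
  ⟨(a (a (b (a (a (l 3) (c (l 80698399479) (l 83919623143))) (a (b (b (a (a (l 57076076919) (l 40969949367)) (l 16771088)) (c (l 69960980151) (l 71571591271))) (l 3)) (b (a (c (l 30769402919) (l 27548175735)) (l 16770832)) (b (c (l 62981658167) (l 63518527463)) (l 3))))) (l 3)) (a (a (b (b (l 16770200) (b (c (l 16771456) (l 16770520)) (c (l 56002336135) (c (l 54391722583) (l 54391721719))))) (l 3)) (b (c (l 16770920) (l 16770600)) (b (b (a (l 62981656711) (a (l 41506819927) (l 16771008))) (l 80698396935)) (l 3)))) (b (c (l 16770328) (l 16770616)) (b (a (b (l 16770752) (c (l 42580562935) (c (l 39896207511) (l 38822464919)))) (c (l 16770984) (l 16770024))) (a (c (l 73719076711) (l 76940300231)) (b (c (l 35601240823) (l 33453755495)) (c (l 64055399671) (l 65129139815)))))))) (a (b (c (l 16770456) (c (l 16768288) (l 16767760))) (a (a (c (c (l 16771128) (l 16771272)) (c (l 16273887015) (l 13589531543))) (c (l 16770472) (l 16769480))) (c (l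 16769880) (l 16768840)))) (c (c (l 16768432) (l 16767808)) (c (l 16769832) (l 16769264))))), by decide +kernel⟩

def k70_pp_012_a : ∃ t, chk3 f_pp_012_a t 97 171 1 = true :=
  ⟨(a (l 3) (a (a (b (a (b (b (c (l 57076077639) (l 57612946839)) (l 3)) (l 3)) (b (a (b (l 16770808) (l 65666010791)) (c (l 30769402407) (l 28085046103))) (l 83382751047))) (l 3)) (b (b (c (l 16770728) (l 16769768)) (a (b (a (l 56002334151) (l 31306271703)) (l 74792816199)) (b (l 16770472) (c (l 37211853303) (l 35601238839))))) (a (l 3) (b (c (l 68350367127) (l 71571590583)) (l 3))))) (b (c (c (l 16770088) (l 16770856)) (c (l 16770344) (l 16769864))) (a (b (a (b (c (l 16771120) (l 28621916743)) (c (l 58149819127) (l 58686688343))) (c (l 16770864) (l 16769944))) (a (l 3) (b (c (l 51170497111) (a (l 67276622727) (l 41506818599))) (l 3)))) (a (b (l 16769968) (b (l 16770416) (a (l 58149817367) (l 34527496743)))) (c (l 16770344) (l 16769392))))))), by decide +kernel⟩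

def k71_pp_012_a : ∃ t, chk3 f_pp_012_a t 48 43 1 = true :=
  ⟨(a (l 3) (b (a (l 3) (b (b (b (a (l 3) (a (l 3) (a (c (l 73182205047) (l 76403428679)) (b (c (l 38822465671) (c (l 36138110247) (l 35064367671))) (c (l 65666011655) (l 67276622743)))))) (l 3)) (l 3)) (l 3))) (l 3))), by decide +kernel⟩

def k72_pp_012_a : ∃ t, chk3 f_pp_012_a t 49 20 1 = true :=
  ⟨(b (a (b (l 16742736) (l 16746800)) (l 16738192)) (a (a (b (l 16752504) (a (l 16757592) (l 16755936))) (b (l 16749200) (l 16753432))) (b (l 16744200) (a (l 16750072) (l 16746696))))), by decide +kernel⟩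

def k73_pp_012_a : ∃ t, chk3 f_pp_012_a t 49 42 1 = true :=
  ⟨(b (a (c (a (c (l 16762792) (l 16767128)) (l 16759096)) (a (a (l 16764088) (l 16759736)) (l 16757128))) (a (l 16754704) (l 16751304))) (a (a (b (a (c (l 16766512) (l 16767816)) (c (l 16764896) (l 16763456))) (a (b (c (l 16768208) (l 16768368)) (c (c (l 16769616) (l 16769072)) (c (l 16771176) (l 16769384)))) (c (l 16768464) (c (l 16766232) (l 16765664))))) (a (b (l 16762472) (b (l 16764248) (l 16765432))) (c (l 16762760) (l 16766440)))) (a (c (l 16760288) (l 16763800)) (l 16755968)))), by decide +kernel⟩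

def k74_pp_012_a : ∃ t, chk3 f_pp_012_a t 98 86 1 = true :=
  ⟨(a (b (a (a (b (a (a (b (c (l 30232530839) (l 27548174567)) (l 80161524663)) (b (l 16770224) (b (l 54928591511) (l 3)))) (b (l 16769904) (b (c (l 16770816) (l 16769920)) (c (l 52244238519) (a (l 69424105879) (l 44728043623)))))) (l 3)) (a (b (c (l 16770272) (l 12515788599)) (b (b (a (l 61371042311) (l 37748721767)) (l 77477169799)) (l 3))) (b (c (l 16769864) (l 16768896)) (b (b (l 16770104) (a (a (l 60297300423) (l 45264914679)) (l 16770296))) (c (l 68350366375) (l 72108460791)))))) (a (b (c (l 16769256) (l 16768248)) (b (c (l 16770104) (l 16769176)) (a (b (c (l 35064368599) (l 32380012407)) (c (l 60297301959) (l 61907913047))) (c (l 16770792) (l 21105723031))))) (c (c (l 16769288) (l 16771368)) (c (l 16770856) (l 16770384))))) (a (l 3) (b (b (a (a (l 3) (a (l 75329685991) (b (l 49023010919) (l 3)))) (a (b (l 23253206439) (c (l 47949270599) (l 48486139879))) (c (l 16770216) (l 16769328)))) (a (l 3) (a (l 78550911591) (b (c (l 41506819399)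 (l 40433075959)) (l 70497847703))))) (l 3)))) (b (a (c (c (l 16768080) (l 16770120)) (c (l 16769568) (l 16769048))) (c (l 16766144) (l 16767544))) (b (a (a (b (c (l 16769608) (l 16768672)) (a (a (b (l 16769880) (l 43117430807)) (l 16769824)) (l 16769504))) (c (l 16769072) (l 16768104))) (c (l 16767840) (l 16766784))) (a (b (c (a (a (l 63518527575) (a (l 49023012279) (l 35064368151))) (l 16769912)) (a (a (l 68350363767) (b (l 16769536) (l 56539203415))) (l 16769688))) (a (l 3) (a (a (l 68350364039) (b (l 38822463447) (l 3))) (b (l 16769688) (c (l 43117431687) (l 42580559431)))))) (c (c (l 16769224) (l 16768720)) (c (l 16770872) (l 16770432))))))), by decide +kernel⟩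

def k75_pp_012_a : ∃ t, chk3 f_pp_012_a t 98 87 1 = true :=
  ⟨(a (l 3) (b (a (a (l 3) (b (c (l 70497849911) (l 74792814919)) (l 3))) (b (a (a (b (b (a (l 43117430775) (l 16769744)) (l 61907912999)) (l 3)) (c (b (l 16770016) (l 58149817815)) (b (l 16769168) (l 60297299911)))) (b (c (l 16769400) (l 16768512)) (a (b (l 16769592) (a (l 60834171063) (l 38822463447))) (l 16769312)))) (a (l 3) (a (l 3) (b (a (l 59760429239) (b (l 16769648) (l 64592267431))) (l 3)))))) (l 3))), by decide +kernel⟩

def k76_pp_012_a : ∃ t, chk3 f_pp_012_a t 99 43 1 = true :=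
  ⟨(b (b (a (a (l 16765112) (l 16762088)) (l 16759504)) (a (a (c (l 16769368) (l 16767608)) (c (l 16765088) (l 16763872))) (c (l 16762576) (l 16761208)))) (b (a (b (a (a (b (l 16768088) (l 16768680)) (l 16767528)) (c (l 16766784) (l 16765736))) (a (b (a (a (c (l 30232529191) (l 27548173223)) (l 16769056)) (l 16768416)) (a (b (a (l 59760429223) (a (l 16769928) (l 16769384))) (c (l 57612946631) (l 59223557943))) (c (l 16769432) (l 16769912)))) (c (l 16769224) (l 16768280)))) (a (c (l 16765680) (l 16764576)) (l 16763376))) (a (a (b (a (l 3) (a (b (c (l 52781108023) (l 52781106775)) (l 3)) (b (c (l 33990625335) (l 31306269591)) (l 65666009255)))) (l 3)) (a (b (a (b (l 16768944) (b (a (l 42580559463) (l 16769280)) (l 58149816167))) (b (l 16768520) (c (l 16769520) (l 16769376)))) (a (l 3) (a (l 3) (c (l 57076075703) (l 63518524391))))) (b (c (l 16768616) (l 16767760)) (a (b (b (l 23790076839) (a (l 58149815927) (l 38822462743))) (l 3)) (b (l 17347625415) (b (a (l 50096752055) (l 16769496)) (l 62981654071)))))))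 (b (a (c (l 16767368) (l 16769056)) (l 16765152)) (a (a (b (l 16768520) (a (c (l 29695657255) (l 25937559831)) (l 16768568))) (c (l 16768072) (l 16767216))) (c (l 16766816) (l 16765888))))))), by decide +kernel⟩

def k77_pp_012_a : ∃ t, chk3 f_pp_012_a t 24 11 1 = true :=
  ⟨(b (a (l 3) (b (a (l 3) (b (a (l 3) (b (a (a (b (b (b (a (l 57612944679) (a (l 35064366055) (l 16768896))) (c (l 55465461975) (l 56002331639))) (l 3)) (l 3)) (b (b (c (l 16769568) (l 16810753431)) (a (c (l 51170494247) (c (l 50096751719) (l 49023009303))) (b (l 16769056) (a (l 50633622215) (l 31306269191))))) (c (l 63518526071) (b (l 67276620423) (l 3))))) (a (b (c (l 16769672) (l 16768872)) (a (b (c (c (l 42043689079) (l 41506817463)) (c (l 40969945911) (l 41506815991))) (l 3)) (b (c (l 25400689143) (l 21642591687)) (a (l 3) (c (l 51707364679) (l 52781105175)))))) (a (b (l 16767296) (b (l 16768824) (b (c (l 16768984) (l 16768264)) (c (l 45801784279) (l 45264912119))))) (b (l 16766864) (c (l 16769088) (l 16768328)))))) (a (l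 3) (a (l 3) (a (l 3) (b (b (b (c (l 38285591223) (l 39896202695)) (l 66202877655)) (l 3)) (l 3))))))) (l 3))) (l 3))) (l 3)), by decide +kernel⟩

def k78_pp_012_a : ∃ t, chk3 f_pp_012_a t 25 10 1 = true :=
  ⟨(b (a (b (a (l 16752472) (l 16745840)) (a (l 16739528) (l 16732696))) (b (l 16714448) (a (l 16746760) (l 16718712)))) (a (b (a (a (a (l 16751064) (l 16749336)) (l 16746752)) (l 16762520)) (a (a (a (b (l 16758088) (b (l 16761640) (a (l 16764440) (l 16763576)))) (b (l 16756352) (b (l 16759888) (l 16762264)))) (b (l 16753728) (c (l 16764424) (l 16763008)))) (b (l 16758952) (a (l 16760168) (l 16751384))))) (b (a (l 16734544) (l 16727352)) (a (c (l 16755256) (l 16758456)) (l 16757464))))), by decide +kernel⟩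

def k79_pp_012_a : ∃ t, chk3 f_pp_012_a t 100 88 1 = true :=
  ⟨(a (a (b (a (b (l 16766216) (c (l 16767800) (l 16768320))) (c (l 16769024) (l 16766816))) (a (b (a (c (b (c (l 26474431495) (l 24863818071)) (l 57076073495)) (b (c (l 23253204695) (l 22179462071)) (l 61371039191))) (b (c (l 16768424) (l 16767696)) (b (c (l 28621914247) (l 25937558471)) (c (l 49559880391) (l 53317975079))))) (l 3)) (a (b (c (c (l 16769800) (l 16769400)) (c (l 16769040) (l 16768712))) (b (b (c (l 44728041895) (c (l 43654299191) (l 44191169335))) (l 3)) (l 3))) (b (c (l 16767864) (l 16768432)) (b (b (c (l 16768560) (l 16767872)) (c (c (l 36138107463) (l 39359332279)) (c (l 34527493415) (l 38822459943)))) (c (l 59760427703) (c (l 63518522903) (l 64592264135)))))))) (b (c (l 16767752) (l 16766784)) (a (b (c (l 16767240) (l 16767760)) (b (c (l 16768728) (c (l 16767528) (l 16767208))) (a (b (a (c (l 41506816055) (l 45264910743)) (c (l 16768584) (l 16767920))) (c (l 53854847223) (c (l 53317975479) (l 54391716519)))) (c (c (l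 21642592391) (l 20568849831)) (c (c (l 16768632) (l 16768472)) (c (l 16768320) (l 16768504))))))) (b (c (l 16766392) (l 16765560)) (c (c (l 16767712) (l 16767312)) (c (l 16768256) (l 16767928))))))) (a (b (c (l 16763424) (l 16762368)) (c (c (l 16768536) (l 16768080)) (c (l 16767080) (c (l 16767360) (l 16767176))))) (b (l 16761120) (c (l 16766592) (l 16765656))))), by decide +kernel⟩

def k80_pp_012_a : ∃ t, chk3 f_pp_012_a t 200 89 1 = true :=
  ⟨(b (a (l 3) (b (a (a (l 3) (a (l 3) (b (b (c (l 45264912119) (c (l 44191169463) (l 47412394039))) (l 3)) (l 3)))) (a (b (b (c (l 23253204247) (c (l 16767904) (l 16768264))) (a (c (l 54391717687) (l 63518521383)) (c (l 39359331799) (b (l 16767864) (l 54391715719))))) (l 3)) (b (c (l 18421365479) (c (l 16767616) (l 16768624))) (a (b (b (c (l 43117428135) (l 51170490023)) (l 3)) (l 3)) (b (c (l 29158784167) (c (l 16768272) (c (l 16767728) (l 16768248)))) (c (l 57076072007) (l 72108455575))))))) (l 3))) (l 3)), by decide +kernel⟩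

def k81_pp_012_a : ∃ t, chk3 f_pp_012_a t 201 178 1 = true :=
  ⟨(b (c (a (b (c (l 16768584) (l 16768192)) (a (a (b (l 16768120) (a (c (l 41506815639) (l 41506814951)) (l 16768288))) (l 16767832)) (l 16767208))) (c (l 16765872) (l 16765448))) (a (a (a (b (l 16767024) (a (b (l 16767576) (c (l 40433072583) (c (l 40433072087) (l 29695654391)))) (c (l 16768312) (l 15737009911)))) (c (l 16768352) (l 16768040))) (c (l 16767696) (l 16767368))) (c (l 16767680) (l 16767328)))) (a (a (b (a (a (l 3) (b (c (l 51170491687) (c (l 51170490823) (c (l 51707361239) (l 37211847255)))) (l 3))) (a (b (c (a (l 39896202279) (l 16768424)) (c (l 34527492263) (c (l 24863816167) (l 24326944999)))) (l 3)) (b (c (l 16768144) (c (l 16767664) (l 16767384))) (a (c (l 50633620583) (b (c (l 16767936) (l 32916879671)) (l 3))) (c (l 42043685767) (c (l 40433072263) (l 37748717479))))))) (l 3)) (b (c (a (b (l 16767824) (c (l 22179462167) (l 20031977927))) (l 16767544)) (a (a (b (l 16767296) (c (l 22179460999) (l 18421364487))) (c (l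 16767376) (l 16767088))) (c (l 16767048) (l 16768064)))) (b (a (a (a (l 3) (c (l 52781104071) (c (l 53317974135) (l 50096748455)))) (b (c (l 27011299895) (c (l 16767736) (l 16767792))) (c (l 47412394807) (c (l 47412393927) (l 42580555591))))) (c (c (l 16768128) (l 16767792)) (c (l 16767728) (l 16767864)))) (a (l 3) (a (b (c (c (l 43117427655) (l 42043685335)) (c (l 44191168263) (a (l 47412393687) (l 16767736)))) (l 3)) (b (c (l 16768056) (c (l 16767592) (l 16767328))) (c (c (l 36138105639) (l 32916879687)) (c (c (l 30232524759) (l 35064362519)) (l 31306265911))))))))) (a (c (c (c (l 16768784) (l 16768592)) (c (l 16768408) (l 16768240))) (c (c (l 16768072) (l 16767920)) (c (l 16767776) (l 16767632)))) (c (c (l 16766544) (l 16766160)) (c (l 16767120) (l 16766808)))))), by decide +kernel⟩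

def k82_pp_012_a : ∃ t, chk3 f_pp_012_a t 402 358 1 = true :=
  ⟨(a (l 3) (a (l 3) (a (l 3) (b (b (c (l 56539200343) (c (l 64055391991) (l 54391715591))) (l 3)) (l 3))))), by decide +kernel⟩

def k83_pp_012_a : ∃ t, chk3 f_pp_012_a t 806 358 1 = true :=
  ⟨(b (b (a (a (b (c (c (l 30769396375) (l 28621912231)) (c (c (l 16767904) (l 28085040519)) (c (l 25937556823) (l 16767672)))) (c (c (l 50633620359) (l 50633619831)) (c (l 56002328135) (l 48486135255)))) (c (c (l 23253203479) (l 22179461015)) (c (c (l 16767920) (l 17884493063)) (c (l 16767648) (l 16767528))))) (c (c (l 16767832) (l 16767504)) (c (l 16767200) (l 16767584)))) (b (a (a (l 3) (c (c (l 46338652951) (l 46338652391)) (a (c (l 60834166343) (l 51707360695)) (c (c (l 42043684551) (l 43117426023)) (c (l 36674975143) (l 29695653207)))))) (c (c (l 16768032) (l 18421364487)) (c (c (l 16767488) (l 16768000)) (c (l 16767544) (l 16767424))))) (a (l 3) (a (a (b (c (l 42580556119) (c (l 46338651511) (l 34527491303))) (l 3)) (c (c (l 16768224) (l 27011299319))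 (c (c (l 16767688) (l 25937556711)) (c (l 16767592) (l 14126396567))))) (c (l 16767904) (c (l 16767456) (l 16767528))))))) (a (l 3) (a (l 3) (b (b (a (c (c (l 39359330967) (l 38822459495)) (c (l 45801780503) (l 28621911415))) (c (l 21105719415) (c (l 16767576) (l 16767648)))) (a (l 3) (c (l 47412394439) (c (l 56002327911) (l 40969942359))))) (l 3))))), by decide +kernel⟩

def k84_pp_012_a : ∃ t, chk3 f_pp_012_a t 807 358 1 = true :=
  ⟨(b (c (a (c (l 16767560) (l 16767872)) (l 16766960)) (c (c (l 16767424) (l 16767600)) (c (l 16767136) (l 16767008)))) (a (b (a (c (c (l 18958236183) (c (l 16768184) (l 16767872))) (c (c (l 14126396903) (c (l 16767792) (l 16767720))) (c (l 16767624) (l 16767672)))) (c (l 16767728) (c (l 16767280) (l 16767016)))) (a (b (a (l 3) (c (l 42043685207) (c (l 48486135079) (l 30232524183)))) (l 3)) (b (c (c (l 16768128) (l 16767816)) (c (c (l 16767600) (l 16767464)) (l 16767608))) (c (c (l 39359331063) (l 38285588695)) (c (c (l 36674975527) (l 21642590311)) (l 29695653367))))))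 (c (c (l 16768072) (c (l 16767496) (l 16767992))) (c (c (l 16767848) (l 16767704)) (l 16767512))))), by decide +kernel⟩

def k85_pp_012_a : ∃ t, chk3 f_pp_012_a t 201 359 1 = true :=
  ⟨(b (a (l 3) (a (l 3) (a (l 3) (a (b (b (c (c (l 34527492839) (l 33990621335)) (c (c (l 16767800) (l 17884493815)) (l 23253202407))) (l 3)) (l 3)) (b (c (c (l 21642590759) (l 18958235575)) (c (c (l 16768240) (l 16768104)) (l 16767672))) (a (l 3) (b (c (l 46338652535) (l 38285588407)) (l 3)))))))) (l 3)), by decide +kernel⟩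

def k86_pp_012_a : ∃ t, chk3 f_pp_012_a t 101 44 1 = true :=
  ⟨(b (a (b (l 16763712) (a (l 16763528) (l 16759952))) (c (l 16762016) (l 16760712))) (a (a (b (c (c (l 16767352) (l 16766912)) (c (l 16766504) (l 16766464))) (a (b (b (c (l 16766328) (c (l 16765816) (l 16766832))) (c (a (l 16767480) (l 16766728)) (c (l 16767776) (l 16767496)))) (a (a (b (b (c (l 16767736) (l 16767824)) (b (c (l 22716332167) (c (l 16768208) (l 16767632))) (a (l 3) (c (l 40433072407) (l 31843137367))))) (l 3)) (b (c (c (l 16767856) (l 16767864)) (c (l 8220816727) (l 16767648))) (b (b (c (l 40969943239) (a (l 40433072071) (l 16767896))) (l 3)) (l 3)))) (b (c (c (l 16767544) (l 16767216)) (l 16767440)) (b (c (c (l 17884494439) (c (l 16768440) (l 16768288))) (c (c (l 16768152) (l 16768016)) (l 16767840))) (a (c (l 54928587175) (l 44728039847)) (b (c (l 28621912151) (l 16273880807)) (c (l 47412394311) (l 37211846727)))))))) (b (c (c (l 16765976) (l 16766912)) (c (l 16766568) (l 16766264))) (a (c (c (c (l 16768840) (l 16768672))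 (c (l 16768504) (l 16768352))) (b (l 16767000) (c (l 16767816) (l 16767568)))) (c (c (l 16767024) (l 16768000)) (l 16767224)))))) (b (c (l 16765408) (l 16764512)) (b (c (c (l 16764712) (l 16766920)) (c (l 16766552) (l 16766216))) (c (c (l 16767936) (l 16767576)) (c (l 16767248) (l 16766296)))))) (a (b (l 16761848) (c (c (l 16766256) (l 16765832)) (c (l 16765440) (l 16765088)))) (b (l 16758760) (c (l 16761672) (l 16766064)))))), by decide +kernel⟩

def k87_pp_012_a : ∃ t, chk3 f_pp_012_a t 100 45 1 = true :=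
  ⟨(l 3), by decide +kernel⟩

def k88_pp_012_a : ∃ t, chk3 f_pp_012_a t 202 90 1 = true :=
  ⟨(a (b (a (l 3) (b (a (b (b (c (a (l 48486136007) (a (l 31843137591) (l 16768008))) (c (a (l 23253203863) (l 16768216)) (l 22716331959))) (l 3)) (l 3)) (b (b (c (l 16767984) (l 16767760)) (c (c (l 28621912855) (a (l 32380008759) (l 16767728))) (c (l 26474427735) (l 16767904)))) (a (l 3) (b (c (l 38822460247) (l 34527492615)) (l 3))))) (l 3))) (l 3)) (b (b (a (b (c (c (l 16767352) (l 16768344)) (l 16767264)) (a (b (c (c (l 19495107303) (l 7683947623)) (l 14663268039)) (a (l 3) (c (l 32916879431) (l 28621912391)))) (c (c (l 16768432) (l 16768784)) (l 16767776)))) (c (c (l 16768136) (l 16767808)) (l 16767376))) (b (b (a (a (l 3) (c (c (l 30769396919) (c (l 21642591543) (l 19495107783))) (c (l 17884494903) (l 16767976)))) (c (c (l 16767624) (l 16768632)) (l 16768240))) (a (l 3) (a (c (c (l 26474429495) (l 16273882487)) (l 21105719767)) (c (l 16767584) (l 16767048))))) (a (l 3) (a (l 3) (b (c (c (l 16768384) (l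 16768424)) (l 16768048)) (c (c (l 32916880983) (l 23790075575)) (l 32380009415))))))) (l 3))), by decide +kernel⟩

def k89_pp_012_a : ∃ t, chk3 f_pp_012_a t 203 90 1 = true :=
  ⟨(b (a (a (b (c (l 16768424) (l 16766480)) (c (c (c (l 16768984) (l 16768496)) (c (l 16768336) (l 16768192))) (c (l 3925849927) (l 16767744)))) (b (c (l 16764936) (l 16764264)) (c (l 16767552) (l 16766968)))) (c (c (l 16767104) (l 16766728)) (b (l 16762904) (l 16766920)))) (b (a (b (a (a (a (l 3) (c (c (l 29695655415) (l 20568850183)) (l 26474429479))) (c (c (c (l 13052657447) (l 10368302919)) (l 8220819015)) (c (l 16768464) (l 16767912)))) (c (l 16768696) (l 16768008))) (a (l 3) (b (c (c (l 10905173991) (l 16768896)) (l 16768040)) (a (l 3) (c (l 11978915591) (l 16768648)))))) (c (c (l 16769040) (l 16768728)) (l 16767656))) (a (a (l 3) (a (l 3) (b (c (c (l 22716334823) (l 20031979975)) (l 18958237191)) (l 3)))) (a (b (c (a (b (l 16769040) (l 17347625191)) (l 16768768)) (l 8757688839)) (a (l 3) (c (c (l 17347625591) (l 15737012327))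 (l 19495108023)))) (c (c (c (l 16768672) (l 16768528)) (l 16768968)) (l 16768112)))))), by decide +kernel⟩

def k90_pp_012_a : ∃ t, chk3 f_pp_012_a t 101 91 1 = true :=
  ⟨(a (l 3) (b (a (l 3) (a (l 3) (b (b (a (c (c (l 22716334711) (l 20031979959)) (l 18421366871)) (c (c (l 13589528775) (l 16769112)) (l 16768768))) (l 3)) (l 3)))) (l 3))), by decide +kernel⟩

def k91_pp_012_a : ∃ t, chk3 f_pp_012_a t 50 23 1 = true :=
  ⟨(l 3), by decide +kernel⟩

def k92_pp_012_a : ∃ t, chk3 f_pp_012_a t 51 22 1 = true :=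
  ⟨(b (b (a (a (l 16757768) (l 16748920)) (l 16753968)) (a (b (a (c (l 16756664) (l 16755528)) (l 16752464)) (a (a (l 16760752) (l 16762888)) (l 16754936))) (c (l 16759464) (l 16758072)))) (a (a (a (b (b (c (l 16767784) (l 16767024)) (a (c (l 16768232) (l 16767656)) (c (l 16767360) (l 16766744)))) (b (a (b (b (c (l 16768576) (l 16768088)) (c (c (c (l 12515787527) (l 11978916343)) (l 10905174391)) (l 17884494759))) (l 3)) (b (c (l 16768688) (l 16768848)) (b (c (c (l 9831432647) (l 16768912)) (l 16768592)) (a (l 3) (b (l 13052658135) (l 3)))))) (l 3))) (b (a (c (c (l 16767992) (l 16767584)) (l 16766392)) (c (l 16766896) (b (l 16759488) (l 16767536)))) (b (a (b (l 16768192) (c (c (l 16769112) (l 16769024)) (l 16768032))) (b (l 16767288) (a (l 16768560) (l 16768440)))) (b (b (a (a (l 3) (a (l 13052658295) (l 16769104))) (c (l 16768936) (l 16768176))) (a (l 3) (c (a (l 13589529671) (l 16769064)) (l 15200140551)))) (l 3))))) (b (b (l 16764184) (c (l 16766008) (l 16765232))) (a (b (c (l 16766936) (l 16766352))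 (b (c (l 16768936) (l 16768472)) (a (b (c (c (l 16769200) (l 16768968)) (l 16768672)) (a (l 3) (l 11978917143))) (c (c (l 16769304) (l 16768416)) (l 16768112))))) (b (c (l 16767784) (l 16767128)) (c (l 16768496) (l 16767336)))))) (a (c (b (l 16761120) (a (b (l 16760760) (l 16766056)) (l 16765552))) (b (l 16760128) (b (l 16764336) (l 16765864)))) (b (l 16759560) (c (l 16764160) (b (l 16755360) (l 16763432))))))), by decide +kernel⟩

def k93_pp_012_a : ∃ t, chk3 f_pp_012_a t 51 23 1 = true :=
  ⟨(b (a (b (a (l 3) (b (b (b (a (a (l 3) (a (l 3) (l 8220820327))) (c (l 1241497607) (l 16767800))) (a (l 3) (a (a (l 3) (l 4999594423)) (l 16768888)))) (b (a (l 3) (a (l 3) (c (l 5536465591) (l 16768760)))) (l 3))) (l 3))) (l 3)) (a (b (b (a (b (a (l 16768288) (l 16767384)) (c (a (a (l 16769120) (l 16768336)) (l 16768984)) (l 16768552))) (c (l 16767624) (l 16766480))) (b (a (a (b (a (l 3) (l 6073336487)) (l 3)) (a (b (l 16769056) (l 3)) (b (l 16768272) (l 2852110583)))) (c (c (l 16768448) (l 16768896)) (l 16767968)))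 (a (l 3) (a (b (c (l 3388981863) (l 16768848)) (l 3)) (c (c (l 16769024) (l 16768512)) (l 16768280)))))) (l 3)) (b (b (a (c (l 16767792) (l 16767232)) (l 16765648)) (a (c (c (l 16768000) (l 16767768)) (l 16767480)) (c (l 16766080) (l 16765600)))) (b (b (a (a (b (c (l 16768728) (l 16768432)) (a (l 3) (l 16769208))) (c (c (l 16768256) (l 16768080)) (l 16767856))) (c (l 16768120) (l 16767768))) (a (a (l 3) (b (a (l 3) (l 16768832)) (l 3))) (a (c (c (c (l 16769088) (l 16768680)) (l 16768568)) (l 16768368)) (c (l 16767728) (l 16768744))))) (a (l 3) (b (a (l 3) (b (c (l 16768848) (l 16768520)) (a (l 3) (a (l 3) (l 16769000))))) (l 3))))))) (l 3)), by decide +kernel⟩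

def k94_pp_012_a : ∃ t, chk3 f_pp_012_a t 13 4 1 = true :=
  ⟨(b (a (b (a (l 16645472) (l 16632512)) (a (l 16659912) (l 16646464))) (b (l 16612944) (l 16668392))) (b (a (l 16709352) (a (l 16646680) (l 16632912))) (a (a (l 16688888) (l 16674728)) (a (l 16660560) (l 16646512))))), by decide +kernel⟩

def k95_pp_012_a : ∃ t, chk3 f_pp_012_a t 26 10 1 = true :=
  ⟨(b (a (l 16725000) (l 16710568)) (b (a (a (l 16741112) (l 16712872)) (l 16701872)) (a (a (l 16729208) (l 16742824)) (a (l 16714520) (l 16707120))))), by decide +kernel⟩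

def k96_pp_012_a : ∃ t, chk3 f_pp_012_a t 26 22 1 = true :=
  ⟨(a (a (b (b (l 16736160) (l 16751400)) (b (c (l 16757344) (l 16756016)) (a (c (l 16764464) (l 16763496)) (l 16760240)))) (b (l 16752128) (b (l 16749224) (a (l 16756512) (l 16742272))))) (b (a (l 16744704) (l 16737264)) (a (c (l 16755728) (l 16748928)) (l 16747400)))), by decide +kernel⟩

def k97_pp_012_a : ∃ t, chk3 f_pp_012_a t 26 46 1 = true :=
  ⟨(a (a (b (a (c (a (l 16765528) (l 16763704)) (b (l 16762520) (l 16764080))) (b (l 16759144) (c (l 16762312) (l 16761600)))) (a (a (b (b (l 16766744) (a (l 16767304) (l 16767032))) (a (b (a (c (l 16768424) (l 16768176)) (l 16767744)) (b (a (l 3) (a (l 16769016) (l 16768784))) (l 3))) (c (b (l 16767296) (b (l 16768328) (a (l 16769264) (l 16768792)))) (b (l 16768312) (l 16768536))))) (b (c (l 16765176) (l 16764720)) (a (b (l 16767192) (c (l 16767760) (l 16767512))) (c (l 16767472) (l 16767152))))) (a (b (a (l 16763536) (l 16765224)) (c (a (l 16766560) (l 16765640)) (l 16765728))) (b (l 16763816)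 (c (l 16764264) (l 16765128)))))) (a (b (c (l 16762512) (l 16761600)) (a (b (l 16761936) (a (l 16762616) (l 16764296))) (b (l 16754808) (l 16760256)))) (b (l 16755640) (b (l 16757208) (a (l 16755744) (l 16753848)))))) (a (a (b (l 16744000) (c (l 16760512) (l 16754424))) (b (l 16740208) (l 16753632))) (b (l 16745000) (c (l 16751088) (l 16750032))))), by decide +kernel⟩

def k98_pp_012_a : ∃ t, chk3 f_pp_012_a t 104 47 1 = true :=
  ⟨(b (a (b (a (l 3) (a (b (b (c (c (l 16768784) (l 16768752)) (l 16768608)) (l 3)) (l 3)) (b (c (c (c (l 16768168) (l 16768272)) (l 16768176)) (l 16768024)) (b (a (l 3) (c (l 16768736) (l 16767576))) (l 3))))) (l 3)) (b (b (a (c (a (l 16767320) (l 16767720)) (l 16766608)) (a (l 16766632) (l 16765696))) (a (b (a (c (l 16767872) (l 16768176)) (l 16766840)) (a (a (l 3) (c (l 16768184) (l 16767360))) (c (l 16767488) (l 16767960)))) (c (c (l 16766496) (l 16766352)) (l 16766168)))) (b (a (a (l 3) (b (a (b (l 16768160) (l 3)) (a (l 16767992) (l 16767752))) (l 3))) (a (a (b (l 16767408)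 (b (l 16767784) (l 3))) (c (l 16767712) (l 16767872))) (c (l 16767352) (l 16767160)))) (a (l 3) (b (a (a (l 3) (c (l 6073334343) (l 16768320))) (c (c (l 16767872) (l 16767712)) (l 16767608))) (a (l 3) (a (l 3) (c (c (l 16768264) (l 16768192)) (l 16768104))))))))) (l 3)), by decide +kernel⟩

def k99_pp_012_a : ∃ t, chk3 f_pp_012_a t 210 47 1 = true :=
  ⟨(a (b (b (c (c (l 16765296) (l 16765096)) (l 16764176)) (b (c (a (l 16766432) (l 16766824)) (l 16765720)) (a (a (b (l 16766968) (c (l 16767752) (l 16767624))) (b (l 16767152) (l 16767216))) (c (l 16766912) (l 16766720))))) (b (b (b (a (a (a (l 3) (b (l 16768112) (l 3))) (c (c (l 16768032) (l 16767968)) (l 16767888))) (c (c (l 16767344) (l 16767264)) (l 16767168))) (a (l 3) (a (b (a (l 16768128) (l 16767888)) (l 3)) (c (c (l 16767808) (l 16767744)) (l 16767672))))) (l 3)) (l 3))) (b (b (c (l 16763336) (l 16763560)) (b (a (l 16765080) (l 16764792)) (c (a (l 16765984) (l 16763744)) (l 16765112)))) (b (b (a (c (c (l 16767104) (l 16767344)) (c (l 16767272)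 (l 16767200))) (c (l 16766464) (l 16766272))) (b (a (a (c (b (l 16767840) (l 16767872)) (l 16767928)) (c (l 16767552) (l 16767448))) (c (l 16766856) (l 16766728))) (a (a (l 3) (b (c (l 16767840) (l 16768008)) (l 3))) (a (c (c (c (l 16767752) (l 16767648)) (l 16767776)) (c (l 16767728) (l 16767696))) (c (l 16767328) (l 16767232)))))) (a (l 3) (a (l 3) (b (b (b (c (c (l 16767560) (l 16767512)) (l 16767456)) (c (c (l 16767920) (l 16767880)) (l 16767832))) (l 3)) (l 3))))))), by decide +kernel⟩

def k100_pp_012_a : ∃ t, chk3 f_pp_012_a t 422 47 1 = true :=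
  ⟨(b (a (b (l 16761688) (c (l 16764736) (l 16764400))) (b (l 16758120) (c (l 16763800) (l 16763432)))) (b (b (c (a (l 16765528) (l 16763288)) (l 16764496)) (a (c (c (l 16766656) (l 16766248)) (c (l 16766168) (l 16766104))) (c (a (l 16766240) (l 16765776)) (l 16765824)))) (b (a (a (b (c (c (c (l 16767448) (l 16767584)) (l 16767552)) (c (l 16767512) (l 16767472))) (b (a (l 3) (b (l 16767536) (l 3))) (l 3))) (b (c (l 16767112) (l 16767008)) (b (c (l 16767392) (l 16767240)) (a (c (l 16767712) (l 16767408)) (c (l 16767552) (l 16767496)))))) (b (c (l 16766416) (l 16766288)) (a (c (a (l 16767304) (l 16767240)) (l 16767272)) (c (l 16766888) (l 16766792))))) (a (l 3) (b (b (a (a (c (c (l 16767608) (l 16767664)) (l 16767632)) (c (l 16767440) (l 16767384))) (c (l 16767088) (l 16767352))) (a (a (l 3) (c (c (l 16767736) (l 16767792)) (l 16767760))) (a (c (c (l 16767576) (l 16767552)) (l 16767520)) (c (l 16767328) (l 16767272))))) (b (a (l 3) (a (l 3) (b (a (l 16767472) (l 16767432)) (l 3)))) (l 3))))))), by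 decide +kernel⟩

def k101_pp_012_a : ∃ t, chk3 f_pp_012_a t 423 47 1 = true :=
  ⟨(b (b (l 16759312) (c (l 16762400) (c (l 16762080) (l 16761896)))) (a (b (b (l 16763512) (c (l 16765080) (c (l 16764912) (l 16764808)))) (b (c (c (l 16765872) (l 16765800)) (c (l 16765728) (l 16765664))) (b (a (c (c (l 16767152) (l 16767112)) (l 16767048)) (c (l 16766664) (l 16766568))) (a (b (a (c (c (l 16767464) (l 16767440)) (l 16767400)) (c (l 16767216) (l 16766832))) (a (b (c (l 16767560) (l 16767368)) (l 3)) (b (c (l 16767320) (l 16767120)) (c (c (l 16767512) (l 16767496)) (l 16767312))))) (a (c (c (c (l 16767264) (l 16767248)) (l 16767232)) (c (l 16767120) (l 16767096))) (c (l 16767008) (l 16766864))))))) (b (b (l 16761248) (a (l 16764248) (l 16762456))) (b (b (a (l 16764024) (l 16763552)) (c (l 16765912) (l 16765424))) (c (a (b (l 16766200) (c (l 16766928) (l 16766888))) (c (l 16766120) (l 16766056))) (b (l 16765840) (a (l 16766664) (l 16766344)))))))), by decide +kernel⟩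

def k102_pp_012_a : ∃ t, chk3 f_pp_012_a t 53 47 1 = true :=
  ⟨(a (b (b (a (c (l 16754168) (l 16758768)) (l 16755248)) (a (a (a (l 16760752) (l 16757176)) (l 16758360)) (a (l 16753824) (l 16751904)))) (a (b (b (a (a (l 16760296) (l 16759336)) (l 16757896)) (a (c (l 16762728) (l 16761776)) (c (l 16759536) (l 16759176)))) (a (b (a (c (l 16764616) (c (l 16763144) (l 16764360))) (c (l 16762368) (l 16762120))) (a (c (b (l 16765024) (a (l 16765976) (l 16764848))) (c (l 16765272) (l 16765208))) (b (l 16763824) (a (l 16764632) (l 16763824))))) (c (b (l 16762264) (a (l 16763504) (l 16761904))) (b (l 16761312) (a (l 16763296) (l 16761664)))))) (a (a (b (l 16759800) (b (l 16759360) (l 16761472))) (b (l 16756224) (c (l 16761920) (l 16760272)))) (b (l 16756088) (c (l 16759184) (c (l 16760208) (l 16758728))))))) (b (a (c (l 16758488) (l 16752472)) (l 16751616)) (a (b (c (l 16757432) (l 16756856)) (a (c (l 16755976) (l 16758160)) (c (l 16754064) (l 16753584)))) (b (l 16753272) (a (l 16751880) (l 16749944)))))),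 by decide +kernel⟩

def k103_pp_012_a : ∃ t, chk3 f_pp_012_a t 27 5 1 = true :=
  ⟨(b (a (b (l 16696128) (a (l 16695312) (l 16687984))) (b (l 16681816) (c (l 16699528) (l 16707224)))) (b (a (a (b (l 16708872) (l 16739872)) (b (l 16701432) (l 16732392))) (b (a (l 16694048) (l 16686728)) (l 16700288))) (a (b (a (c (l 16751296) (l 16744808)) (l 16743048)) (a (b (c (l 16748960) (l 16748040)) (a (b (l 16744168) (l 16752280)) (l 16749600))) (a (b (l 16732232) (l 16748360)) (l 16746944)))) (a (b (l 16714536) (c (l 16746904) (l 16746096))) (b (l 16707072) (l 16738888)))))), by decide +kernel⟩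

def k104_pp_012_a : ∃ t, chk3 f_pp_012_a t 12 6 1 = true :=
  ⟨(l 3), by decide +kernel⟩

def k105_pp_012_a : ∃ t, chk3 f_pp_012_a t 52 24 1 = true :=
  ⟨(b (a (l 3) (b (a (l 3) (b (b (a (l 3) (a (a (l 3) (b (b (a (b (c (c (l 16767456) (l 16767440)) (l 16767424)) (l 3)) (b (c (l 16767208) (l 16767008)) (c (c (l 16767400) (l 16767384)) (l 16767200)))) (l 3)) (l 3))) (b (a (b (c (c (l 16767128) (l 16767104)) (l 16767064)) (a (b (c (l 16767336) (l 16767144)) (c (l 16767528) (l 16767336))) (c (c (l 16767368) (l 16767344)) (l 16767320)))) (b (c (l 16766648) (l 16766576)) (c (l 16767008) (l 16766952)))) (b (b (a (a (l 3) (c (l 16767472) (l 16767280))) (c (l 16767280) (l 16767232))) (a (l 3) (a (a (l 16767464) (l 16767344)) (l 16767160)))) (a (l 3) (a (l 3) (c (c (l 16767464) (l 16767608)) (l 16767424)))))))) (l 3)) (l 3))) (l 3))) (l 3)), by decide +kernel⟩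

def k106_pp_012_a : ∃ t, chk3 f_pp_012_a t 212 192 1 = true :=
  ⟨(b (a (b (a (c (c (l 16766320) (l 16766264)) (c (l 16766144) (l 16766096))) (a (b (l 16764856) (l 16765224)) (a (l 16764680) (l 16764440)))) (a (a (b (c (l 16766904) (l 16766840)) (a (b (l 16767264) (l 16767288)) (l 16767120))) (c (l 16766616) (l 16766544))) (c (l 16766080) (c (l 16765840) (l 16765792))))) (b (a (c (l 16763920) (l 16764088)) (l 16763208)) (a (a (a (l 16764936) (l 16764696)) (l 16764336)) (c (l 16763704) (l 16763536))))) (b (a (a (b (a (a (c (l 16767584) (l 16767560)) (c (l 16767512) (l 16767472))) (c (l 16767160) (l 16767112))) (a (l 3) (a (c (l 16767640) (l 16767608)) (c (l 16767400) (l 16767360))))) (a (c (l 16766872) (l 16766808)) (c (l 16766400) (l 16766320)))) (a (c (l 16765696) (l 16765592)) (a (l 16764760) (l 16764112)))) (a (a (a (l 3) (b (a (l 3) (a (l 3) (l 16767536))) (l 3))) (a (b (a (a (l 16767416) (l 16767288)) (l 16767272)) (a (l 3) (a (l 16767384) (l 16767424)))) (b (l 16766832) (c (l 16767312) (l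 16767184))))) (a (a (b (l 16766440) (l 16766808)) (a (l 16766264) (l 16765696))) (c (a (l 16766048) (l 16764920)) (l 16765368)))))), by decide +kernel⟩

def k107_pp_012_a : ∃ t, chk3 f_pp_012_a t 212 193 1 = true :=
  ⟨(b (b (a (b (a (l 3) (a (l 3) (a (l 16767576) (c (l 16767232) (l 16767520))))) (l 3)) (a (a (b (c (l 16767200) (l 16767152)) (c (c (l 16767576) (l 16767560)) (c (l 16767376) (l 16767360)))) (c (l 16766912) (l 16766856))) (c (l 16766376) (c (l 16766144) (l 16766104))))) (a (l 3) (a (a (b (c (l 16767944) (l 16767744)) (l 3)) (b (c (l 16767464) (c (l 16767432) (l 16767248))) (c (l 16767832) (c (l 16767808) (l 16767632))))) (a (b (c (l 16766664) (l 16766608)) (c (l 16767352) (l 16767224))) (c (l 16767032) (l 16766632)))))) (a (l 3) (a (l 3) (a (b (b (c (l 16767728) (c (l 16767696) (l 16767520))) (l 3)) (l 3)) (b (b (c (l 16766920) (l 16767200)) (c (l 16767616) (c (l 16767584) (l 16767408)))) (a (l 3) (b (l 16767688) (l 3)))))))), by decide +kernel⟩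

def k108_pp_012_a : ∃ t, chk3 f_pp_012_a t 213 96 1 = true :=
  ⟨(a (b (a (b (c (l 16762392) (l 16762840)) (a (b (l 16763632) (l 16764376)) (b (l 16763152) (l 16763896)))) (b (c (l 16761448) (l 16761208)) (c (l 16763552) (l 16763120)))) (b (a (a (c (l 16766032) (c (l 16765792) (l 16765824))) (c (l 16765392) (l 16765360))) (c (l 16764848) (b (l 16763840) (a (l 16764840) (l 16764344))))) (a (b (a (c (l 16767288) (c (l 16766912) (l 16766888))) (c (l 16766160) (l 16766408))) (a (b (c (l 16767512) (c (l 16767480) (l 16767296))) (c (l 16767552) (c (l 16767528) (l 16767672)))) (b (l 16766928) (a (a (l 16767392) (l 16767112)) (l 16766928))))) (b (c (l 16766104) (l 16765680)) (c (l 16766672) (a (l 16766680) (l 16765864))))))) (b (b (c (l 16761336) (l 16760392)) (a (a (l 16762072) (l 16761592)) (l 16761520))) (b (a (c (l 16763736) (a (l 16763808) (l 16762992))) (c (l 16762456) (l 16762904))) (b (c (l 16764560) (c (l 16764400) (l 16764416))) (a (c (l 16765232) (l 16765456)) (c (l 16764288) (l 16764304))))))),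 by decide +kernel⟩

def k109_pp_012_a : ∃ t, chk3 f_pp_012_a t 106 97 1 = true :=
  ⟨(a (l 3) (b (b (a (b (b (a (a (l 3) (c (l 16767776) (c (l 16767416) (l 16767568)))) (a (a (l 16767224) (l 16766824)) (l 16766792))) (a (l 3) (a (c (l 16767664) (c (l 16767632) (l 16767448))) (c (l 16766864) (l 16766808))))) (a (l 3) (a (l 3) (b (c (l 16767232) (c (l 16767200) (l 16767344))) (c (l 16767600) (l 16767728)))))) (a (b (c (l 16766624) (c (l 16766560) (l 16766192))) (a (b (l 16766968) (c (l 16767120) (l 16767240))) (c (l 16766464) (l 16766728)))) (a (c (l 16766280) (c (l 16766200) (l 16765912))) (c (l 16765800) (l 16765440))))) (a (l 3) (b (a (a (a (l 3) (c (l 16767560) (c (l 16767528) (l 16767592)))) (b (c (l 16767016) (l 16767296)) (c (l 16767384) (c (l 16767352) (l 16767496))))) (c (l 16766976) (a (c (l 16766680) (l 16766976)) (l 16766504)))) (a (l 3) (a (b (a (l 16767504) (l 16767296)) (c (l 16767656) (l 16767616))) (b (l 16767016) (a (l 16767432) (l 16767024)))))))) (a (l 3) (a (l 3) (a (l 3) (a (l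 3) (b (b (b (l 16767488) (l 3)) (l 3)) (l 3)))))))), by decide +kernel⟩

def k110_pp_012_a : ∃ t, chk3 f_pp_012_a t 214 48 1 = true :=
  ⟨(b (b (a (a (c (l 16760632) (l 16760000)) (c (l 16758368) (l 16759344))) (b (l 16756000) (l 16758784))) (a (b (c (l 16761680) (c (l 16761488) (l 16761376))) (a (c (l 16762968) (a (l 16763024) (l 16762536))) (c (l 16762008) (l 16761792)))) (a (b (l 16759440) (l 16761584)) (b (l 16758472) (l 16759952))))) (b (a (a (b (c (l 16764760) (c (l 16764656) (l 16764920))) (b (c (l 16765536) (l 16765760)) (c (l 16766928) (a (l 16766768) (l 16765952))))) (b (c (l 16763808) (a (l 16763888) (l 16763064))) (c (l 16765608) (a (l 16765488) (l 16764912))))) (a (c (c (l 16764616) (l 16764192)) (b (l 16762648) (l 16764336))) (c (l 16763040) (b (l 16761336) (a (l 16763104) (l 16762608)))))) (a (b (b (c (a (a (l 16767584) (l 16766776)) (l 16766712)) (a (a (b (l 16767344) (l 16767520)) (c (l 16766728) (l 16767024))) (c (l 16766648) (l 16766280)))) (a (a (l 3) (c (l 16767848) (b (l 16767448)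 (l 16767664)))) (a (b (l 16766984) (a (l 16767480) (l 16767080))) (a (l 16766888) (l 16766728))))) (b (a (l 3) (a (a (l 3) (b (l 16767456) (l 3))) (c (l 16767960) (b (l 16767392) (l 16767608))))) (l 3))) (b (a (c (l 16766128) (a (c (l 16766296) (l 16766000)) (l 16765528))) (c (l 16764848) (c (l 16765064) (l 16765008)))) (b (a (c (l 16767240) (a (l 16767008) (l 16766592))) (c (l 16765632) (l 16765856))) (a (a (c (l 16767576) (b (l 16767496) (l 16767712))) (b (l 16767200) (a (l 16767368) (l 16767128)))) (c (l 16767024) (c (l 16766968) (l 16766600))))))))), by decide +kernel⟩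

def k111_pp_012_a : ∃ t, chk3 f_pp_012_a t 215 48 1 = true :=
  ⟨(b (a (b (c (l 16755024) (l 16754600)) (c (l 16758912) (c (l 16758984) (l 16758504)))) (b (l 16755480) (c (l 16756008) (l 16756936)))) (b (a (b (c (l 16760128) (l 16760512)) (a (a (l 16762536) (l 16761728)) (l 16761528))) (a (b (l 16758520) (l 16760016)) (c (l 16758456) (l 16758800)))) (a (b (c (l 16763728) (a (a (l 16763800) (l 16763144)) (l 16762728))) (a (c (l 16765696) (a (l 16765496) (l 16765000))) (c (l 16764080) (l 16764416)))) (b (c (l 16761808) (c (l 16761624) (l 16761192))) (c (l 16762960) (c (l 16763144) (l 16763056))))))), by decide +kernel⟩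

def k112_pp_012_a : ∃ t, chk3 f_pp_012_a t 53 49 1 = true :=
  ⟨(a (l 3) (b (a (b (a (l 3) (b (a (b (a (l 3) (c (l 16767840) (c (l 16767808) (l 16767784)))) (l 3)) (b (a (c (l 16767360) (b (l 16767112) (l 16767496))) (c (l 16766872) (l 16767056))) (a (l 3) (b (a (l 16767528) (l 16767288)) (l 16767792))))) (l 3))) (l 3)) (a (b (b (c (a (b (l 16766160) (l 16767560)) (l 16766224)) (a (a (b (l 16766312) (c (l 16767096) (l 16767232))) (b (l 16765816) (l 16766912))) (b (l 16765400) (l 16766168)))) (b (a (a (c (l 16767896) (c (l 16767856) (l 16767832))) (c (l 16767408) (a (l 16767560) (l 16767392)))) (c (l 16767344) (a (l 16767184) (l 16766360)))) (a (l 3) (c (l 16767768) (a (c (l 16767640) (l 16767656)) (c (l 16767152) (l 16767280))))))) (a (l 3) (b (b (a (l 3) (b (l 16767736) (l 3))) (l 3)) (l 3)))) (b (c (b (c (l 16765480) (l 16764736)) (a (l 16766752) (l 16765792))) (a (b (c (l 16764496) (l 16765088)) (b (l 16765944) (c (l 16766408) (l 16766696)))) (b (l 16763800) (c (l 16765696) (l 16765472))))) (a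 (b (b (c (l 16767880) (a (c (l 16767424) (l 16767472)) (l 16767240))) (a (l 3) (c (l 16767736) (c (l 16767696) (l 16767664))))) (l 3)) (b (b (c (l 16766264) (l 16766496)) (c (l 16767008) (a (a (l 16767312) (l 16767064)) (l 16766688)))) (b (a (a (l 3) (l 16767856)) (b (l 16767464) (l 16767680))) (l 3))))))) (l 3))), by decide +kernel⟩

def k113_pp_012_a : ∃ t, chk3 f_pp_012_a t 26 25 1 = true :=
  ⟨(l 3), by decide +kernel⟩

def k114_pp_012_a : ∃ t, chk3 f_pp_012_a t 54 48 1 = true :=
  ⟨(a (a (a (b (b (l 16750912) (a (l 16754344) (l 16753376))) (c (b (l 16758320) (a (l 16760776) (l 16759480))) (b (c (l 16756744) (l 16757896)) (c (l 16760416) (l 16760704))))) (b (b (l 16748976) (l 16751912)) (b (a (l 16755360) (l 16754384)) (b (l 16757768) (a (l 16759104) (l 16758120)))))) (b (b (l 16751304) (c (l 16749264) (l 16753992))) (a (b (l 16754232) (a (l 16757048) (l 16755416))) (b (l 16750968) (a (l 16754432) (l 16753456)))))) (a (a (b (l 16749848) (c (l 16755984) (l 16750936))) (b (l 16742664) (b (l 16747064)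 (l 16750024)))) (b (l 16750248) (c (l 16745888) (l 16746688))))), by decide +kernel⟩

def k115_pp_012_a : ∃ t, chk3 f_pp_012_a t 54 98 1 = true :=
  ⟨(b (a (a (a (a (b (b (l 16762192) (l 16763280)) (c (l 16764168) (l 16764344))) (c (l 16763112) (c (l 16762960) (a (l 16763112) (l 16762616))))) (c (l 16762064) (b (a (l 16760496) (l 16759504)) (l 16762104)))) (a (a (b (l 16758648) (l 16760160)) (b (l 16757664) (l 16759176))) (c (l 16758424) (l 16757120)))) (a (c (l 16754728) (a (l 16756120) (l 16752832))) (l 16751048))) (a (a (a (a (b (c (l 16766328) (b (l 16765168) (l 16766272))) (b (c (l 16766800) (c (l 16766736) (l 16767024))) (c (l 16767552) (a (l 16767736) (l 16767400))))) (b (c (l 16764704) (a (l 16764808) (l 16764312))) (c (l 16766864) (b (l 16766048) (l 16766816))))) (c (b (l 16763904) (l 16765568)) (a (b (l 16763888) (c (l 16765136) (l 16765408))) (b (l 16762728) (l 16764432))))) (a (a (c (l 16763200) (c (l 16763040) (l 16763112))) (c (l 16761568) (l 16762160))) (c (l 16760760) (c (l 16760560)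 (l 16760776))))) (c (a (b (l 16756432) (l 16758424)) (l 16753272)) (a (a (l 16758512) (l 16755872)) (l 16754208))))), by decide +kernel⟩

def k116_pp_012_a : ∃ t, chk3 f_pp_012_a t 54 99 1 = true :=
  ⟨(b (a (b (c (a (a (a (l 78550907639) (a (b (l 16767584) (l 3)) (l 16767808))) (a (l 16767240) (l 16765776))) (a (l 16764976) (l 16762368))) (a (a (a (b (c (l 16768272) (l 16768072)) (l 3)) (b (a (l 16767592) (l 16767016)) (a (l 3) (l 16767784)))) (a (b (l 16766592) (a (l 16767288) (l 16766792))) (c (l 16766336) (l 16766120)))) (a (a (l 16764984) (l 16763656)) (l 16762816)))) (a (a (l 3) (a (b (c (l 16768544) (a (l 16768064) (l 16767568))) (l 3)) (b (c (l 16766912) (c (l 16766840) (l 16767128))) (c (l 16768328) (a (l 16767840) (l 16767344)))))) (a (a (c (l 16766320) (a (l 16766784) (l 16766288))) (b (l 16764888) (l 16765984))) (a (a (l 16764696) (l 16764040)) (l 16763624))))) (c (a (a (l 16762152) (l 16759208)) (l 16757584)) (a (a (a (l 16762248) (l 16761088)) (l 16759920)) (c (l 16757336) (l 16757856)))))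 (a (a (a (l 3) (a (l 3) (b (c (l 78550908551) (b (c (l 16769040) (l 16768344)) (l 3))) (l 3)))) (a (a (b (b (a (a (l 16767784) (l 16767544)) (l 16767336)) (a (l 3) (a (l 16768064) (l 16767816)))) (l 3)) (b (c (l 16767520) (a (b (l 16766624) (l 16767400)) (l 16766840))) (b (c (c (l 16769024) (l 16767992)) (c (l 16767952) (l 16767904))) (l 3)))) (b (c (l 16766056) (a (c (l 16765792) (l 16766384)) (l 16765088))) (a (b (a (l 16767232) (l 16766736)) (a (a (l 16768128) (l 16767880)) (l 16767504))) (b (l 16766320) (a (l 16767008) (l 16766512))))))) (a (a (a (c (l 16765352) (b (l 16763752) (l 16765968))) (b (l 16762848) (a (l 16764640) (l 16764144)))) (c (l 16763560) (b (l 16761256) (l 16763456)))) (a (b (l 16759384) (l 16761488)) (a (l 16758664) (l 16757672)))))), by decide +kernel⟩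

def k117_pp_012_a : ∃ t, chk3 f_pp_012_a t 55 24 1 = true :=
  ⟨(b (a (b (l 16747072) (a (l 16752208) (l 16737840))) (a (l 16741584) (l 16748256))) (b (a (a (a (l 16749936) (l 16746672)) (l 16748984)) (l 16744480)) (a (c (a (a (l 16756152) (l 16752880)) (l 16752568)) (a (a (l 16757136) (l 16755152)) (l 16754824))) (c (l 16754576) (l 16750280))))), by decide +kernel⟩

def k118_pp_012_a : ∃ t, chk3 f_pp_012_a t 54 25 1 = true :=
  ⟨(b (a (b (a (l 3) (b (a (l 3) (b (b (a (a (l 3) (a (l 3) (l 16768160))) (a (l 16767784) (l 16767288))) (a (l 3) (a (l 3) (a (l 16768232) (l 16767944))))) (l 3))) (l 3))) (l 3)) (b (a (b (a (a (b (b (l 16766872) (a (l 16767568) (l 16767072))) (b (c (c (l 30769398375) (l 16769432)) (l 16768040)) (l 3))) (b (c (l 16766016) (l 16766520)) (b (a (l 16767352) (l 16766856)) (c (l 16769248) (l 16767824))))) (b (c (l 16764536) (c (l 16765056) (l 16764976))) (c (l 16767384) (a (l 16766752) (l 16765424))))) (b (b (a (c (l 106468196727) (a (l 3) (l 42043686807))) (a (a (l 16768072)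 (l 16767416)) (l 16766664))) (a (l 3) (a (c (a (l 3) (l 16769240)) (l 16768712)) (c (l 16767512) (l 16767384))))) (b (a (l 3) (a (l 3) (a (b (l 16768936) (l 3)) (l 13589526647)))) (l 3)))) (b (a (c (l 16764648) (b (l 16763008) (l 16764568))) (b (l 16760472) (l 16762672))) (a (a (b (c (l 16766144) (l 16765984)) (b (l 16767232) (a (b (l 16768064) (l 35064365559)) (l 16767760)))) (b (l 16765392) (c (l 16766704) (l 16766544)))) (c (l 16765760) (b (l 16764128) (l 16765688)))))) (a (l 3) (b (a (b (c (a (l 112373776839) (b (l 16769176) (l 104857582871))) (a (l 80698392775) (a (l 41506814119) (l 16767872)))) (l 3)) (b (a (c (l 16769232) (l 16767112)) (l 16766192)) (c (a (a (l 110226292855) (l 91972680855)) (c (b (l 16767488) (l 51707364407)) (l 16769760))) (a (b (l 16768456) (l 3)) (l 16768008))))) (a (l 3) (b (c (a (l 3) (l 112910648071)) (l 109689421975)) (l 3))))))) (l 3)), by decide +kernel⟩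

def k119_pp_012_a : ∃ t, chk3 f_pp_012_a t 55 50 1 = true :=
  ⟨(a (b (b (a (a (a (l 16759752) (l 16758760)) (l 16757928)) (l 16756600)) (b (a (a (l 16761576) (l 16759592)) (l 16759240)) (a (a (l 16763784) (l 16761136)) (l 16759472)))) (a (a (a (b (c (l 16767376) (l 16766464)) (b (b (c (l 27548173079) (l 16767856)) (a (l 3) (a (l 72645330183) (l 56539202487)))) (l 3))) (b (c (l 16765080) (l 16766192)) (b (c (l 16769384) (l 16767248)) (b (a (l 112373775863) (a (l 62981653511) (l 29158785559))) (l 3))))) (a (b (l 16764632) (b (l 16766328) (b (l 16768824) (c (a (l 66739750231) (l 16769456)) (l 16769528))))) (b (l 16763632) (b (l 16765328) (a (l 16768464) (l 16766656)))))) (a (b (l 16762800) (a (l 16766104) (l 16764120))) (b (l 16759496) (l 16763936))))) (a (a (b (l 16755512) (c (l 16761848) (l 16761560))) (b (l 16750920) (l 16759712))) (b (l 16753224) (c (l 16756920) (l 16759224))))), by decide +kernel⟩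

def k120_pp_012_a : ∃ t, chk3 f_pp_012_a t 55 51 1 = true :=
  ⟨(a (b (a (b (a (l 3) (b (b (a (c (l 111300034887) (l 105394454503)) (a (a (a (l 69424104407) (l 64055395031)) (l 54391718567)) (l 16769152))) (a (l 3) (a (l 3) (c (l 101099486647) (l 16769848))))) (l 3))) (l 3)) (b (a (a (b (a (b (l 16767336) (b (l 16767936) (l 63518523159))) (l 16769200)) (b (c (a (l 110226292727) (b (l 16768984) (l 81772134455))) (l 56002330231)) (l 3))) (b (l 16769104) (c (b (l 16769088) (c (a (b (l 66202878471) (l 99488874503)) (l 40433074471)) (l 51170493975))) (c (l 23253206231) (l 16770528))))) (b (l 16765312) (a (b (l 16766664) (l 16769408)) (l 16768672)))) (b (b (a (a (l 3) (a (l 3) (c (l 97341390839) (l 82845876999)))) (a (a (b (l 16769552) (l 72108458295)) (l 16767920)) (l 16767168))) (a (l 3) (a (c (c (l 91972681783) (l 94120165239)) (l 48486140231)) (l 22716335447)))) (a (l 3) (a (l 3) (a (c (l 104320713335) (l 54391721143)) (b (l 33453753751) (l 107005067463)))))))) (l 3)) (b (b (a (c (l 16764960) (l 16764936))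 (l 16761408)) (a (a (a (b (l 16769152) (c (l 24863819479) (l 16767912))) (l 16768560)) (l 16766728)) (c (l 16767152) (l 16764272)))) (a (b (a (b (c (a (l 106468197399) (c (l 35064367479) (l 18421369031))) (a (l 78014038759) (l 16769704))) (l 3)) (a (b (l 16768776) (b (c (l 16769960) (l 16768496)) (a (l 3) (l 23253207351)))) (c (l 16769256) (l 16768592)))) (a (l 3) (a (l 3) (a (l 3) (b (c (l 21642595303) (l 16769760)) (l 3)))))) (a (b (c (l 16768424) (l 16767576)) (a (b (c (l 16769800) (l 16769008)) (l 3)) (b (l 16768720) (a (b (l 16768776) (l 3)) (b (l 16768272) (l 16769016)))))) (b (l 16766000) (a (b (l 16767720) (c (l 16769272) (l 16768488))) (c (l 16768864) (l 16768048)))))))), by decide +kernel⟩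

def k121_pp_012_a : ∃ t, chk3 f_pp_012_a t 13 13 1 = true :=
  ⟨(a (l 3) (b (a (l 3) (b (a (l 3) (b (a (l 3) (b (a (l 3) (b (b (a (c (l 16769720) (l 16768952)) (c (l 16768072) (l 16767952))) (a (l 3) (a (l 16769000) (l 16768496)))) (l 3))) (l 3))) (l 3))) (l 3))) (l 3))), by decide +kernel⟩

def k122_pp_012_a : ∃ t, chk3 f_pp_012_a t 6 7 1 = true :=
  ⟨(l 3), by decide +kernel⟩

def k123_pp_012_a : ∃ t, chk3 f_pp_012_a t 14 2 1 = true :=
  ⟨(b (b (a (l 16635768) (l 16548888)) (a (b (l 16675736) (a (l 16632728) (l 16619368))) (a (b (l 16593544) (l 16606592)) (l 16588184)))) (b (a (b (a (l 16688760) (l 16654256)) (a (a (l 16687304) (l 16659304)) (b (l 16644824) (l 16653240)))) (a (b (l 16641416) (a (l 16660152) (l 16653832))) (b (l 16629360) (c (l 16645160) (l 16645992))))) (a (b (a (b (l 16675928) (l 16685640)) (b (l 16672480) (a (l 16675016) (l 16668128)))) (b (a (l 16696008) (a (l 16685232) (l 16678544))) (a (a (l 16710456) (l 16703096)) (a (l 16696000) (l 16689440))))) (a (b (a (c (l 16677800)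 (l 16670496)) (b (l 16646424) (l 16656200))) (b (a (l 16672384) (a (l 16667792) (l 16664752))) (a (l 16682992) (a (l 16678192) (l 16675016))))) (b (a (b (l 16640912) (c (l 16650312) (l 16650232))) (b (l 16635400) (c (l 16665720) (l 16644232)))) (b (b (a (l 16657384) (l 16651744)) (a (c (l 16662744) (l 16662368)) (c (l 16656832) (l 16656064)))) (a (c (a (l 16671952) (l 16668888)) (a (l 16671528) (l 16668280))) (c (a (l 16665824) (l 16662776)) (a (l 16665040) (l 16661800)))))))))), by decide +kernel⟩

def k124_pp_012_a : ∃ t, chk3 f_pp_012_a t 15 2 1 = true :=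
  ⟨(b (b (a (l 16549000) (l 16552328)) (a (b (l 16565360) (l 16577904)) (a (l 16558088) (l 16549360)))) (b (a (b (a (l 16598024) (l 16588200)) (a (b (l 16610416) (l 16618608)) (b (l 16599912) (a (l 16610640) (l 16605264))))) (b (a (l 16578160) (b (l 16564672) (l 16571432))) (a (b (l 16589200) (l 16596920)) (a (l 16584920) (l 16579496))))) (a (b (a (a (b (b (l 16627680) (l 16632072)) (b (l 16636560) (l 16641136))) (b (l 16624352) (l 16643568))) (b (a (l 16618792) (l 16613224)) (a (l 16627288) (l 16621504)))) (a (b (a (b (l 16645776) (l 16650488)) (c (l 16647992) (l 16651696))) (a (c (a (l 16664968) (l 16661920)) (b (l 16654536) (l 16659376))) (c (b (l 16649736) (l 16654480)) (b (l 16648152) (l 16652896))))) (b (a (b (l 16633864) (l 16638352)) (b (l 16627920) (l 16632304))) (b (a (l 16653392) (l 16636760)) (a (c (l 16648360) (l 16646456)) (c (l 16642272) (l 16640048))))))) (b (a (b (a (l 16607672) (l 16601968)) (a (l 16615720) (l 16609952))) (b (l 16593424) (a (l 16604200) (l 16598296)))) (a (a (b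 (l 16634632) (c (l 16644496) (l 16641936))) (b (l 16618184) (b (l 16624544) (l 16628896)))) (a (b (l 16612248) (l 16620624)) (b (l 16606368) (l 16614544)))))))), by decide +kernel⟩

def k125_pp_012_a : ∃ t, chk3 f_pp_012_a t 28 12 1 = true :=
  ⟨(b (a (a (b (l 16742592) (a (l 16745608) (l 16741792))) (b (l 16735160) (l 16746608))) (b (a (l 16707360) (l 16700584)) (a (l 16718672) (l 16711832)))) (a (b (a (a (b (l 16744088) (l 16755432)) (l 16751112)) (b (l 16744952) (l 16750968))) (b (a (a (a (l 16762544) (l 16760568)) (l 16757616)) (l 16754376)) (a (a (a (b (l 16764336) (b (l 16766536) (l 16767360))) (c (l 16766560) (l 16765032))) (c (l 16763592) (l 16763368))) (a (l 16759528) (l 16760856))))) (b (a (l 16740536) (l 16723024)) (a (b (l 16749296) (l 16755048)) (l 16744864))))), by decide +kernel⟩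

def k126_pp_012_a : ∃ t, chk3 f_pp_012_a t 56 104 1 = true :=
  ⟨(a (a (b (a (b (c (l 16768264) (c (l 16768152) (l 16768104))) (a (b (c (l 16768552) (l 16768784)) (c (l 16769616) (l 16769224))) (c (l 16768912) (c (l 16768496) (l 16768456))))) (b (l 16766848) (c (l 16767752) (l 16767944)))) (b (a (b (a (l 3) (c (l 16769048) (l 4999593719))) (l 3)) (a (b (a (l 16768904) (l 16767736)) (c (l 16769040) (c (l 16768744) (l 16768696)))) (c (l 16768728) (l 16768640)))) (a (l 3) (b (a (a (l 3) (l 16768952)) (c (l 16768960) (c (l 16768824) (l 16768776)))) (a (l 3) (c (l 16769160) (l 2315239495))))))) (b (c (l 16766336) (c (l 16766536) (l 16766480))) (a (a (b (l 16767672) (b (l 16768808) (c (l 16768960) (l 16768792)))) (c (l 16768144) (l 16768040))) (c (l 16767312) (l 16767192))))) (a (a (c (l 16765168) (l 16765016)) (l 16764416)) (l 16762776))), by decide +kernel⟩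

def k127_pp_012_a : ∃ t, chk3 f_pp_012_a t 56 105 1 = true :=
  ⟨(a (a (l 3) (b (a (b (a (b (a (l 2852110391) (a (l 16768992) (l 16768984))) (l 3)) (a (b (l 16769008) (b (l 16769016) (l 16769240))) (c (l 16769008) (l 1241497079)))) (b (a (l 3) (c (l 16769448) (l 16769176))) (l 3))) (a (b (c (l 16768728) (l 16768656)) (b (a (a (l 704626743) (l 16769000)) (l 16768944)) (a (l 3) (a (l 16769184) (l 16769096))))) (b (l 16767688) (b (l 16768840) (c (l 16768992) (l 16768648)))))) (a (l 3) (a (l 3) (b (b (c (c (l 16769288) (l 16769088)) (c (l 16769032) (l 16768968))) (l 3)) (l 3)))))) (a (a (b (b (l 16767496) (a (l 16768376) (l 16768512))) (b (a (b (c (l 16769400) (l 16769472)) (c (c (l 16769208) (l 16769168)) (l 16769080))) (c (l 16768768) (l 16768680))) (b (a (c (a (l 3) (l 16769384)) (l 16769520)) (c (l 16769264) (l 16768840))) (a (l 3) (a (l 16769592) (a (l 16769208) (l 16768952))))))) (b (l 16766912) (b (c (l 16768552) (l 16768488)) (a (c (l 16769288) (l 16768864)) (l 16768240))))) (b (l 16765904)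 (a (a (l 16767792) (l 16766792)) (l 16765304))))), by decide +kernel⟩

def k128_pp_012_a : ∃ t, chk3 f_pp_012_a t 56 53 1 = true :=
  ⟨(a (l 3) (b (b (a (a (l 3) (a (b (b (c (c (l 16769480) (l 16769112)) (l 16769024)) (c (l 16770080) (l 16769792))) (l 3)) (b (b (l 16769384) (a (l 16769424) (l 16769240))) (a (l 3) (b (l 16769352) (l 3)))))) (b (a (c (l 16768944) (l 16768208)) (l 16767568)) (a (b (c (l 16769480) (l 16769016)) (a (c (l 16769408) (l 16769296)) (l 16769656))) (l 16768432)))) (a (l 3) (a (a (l 3) (b (b (a (l 16769368) (l 16768856)) (c (l 16770432) (l 71571588903))) (l 3))) (a (b (b (l 16769416) (l 16769520)) (a (l 3) (b (l 16769376) (l 3)))) (b (l 16768792) (c (l 16769704) (l 16769600))))))) (a (l 3) (b (a (l 3) (b (c (l 104857585191) (l 108078813031)) (l 3))) (l 3))))), by decide +kernel⟩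

def k129_pp_012_a : ∃ t, chk3 f_pp_012_a t 57 26 1 = true :=
  ⟨(b (b (a (l 16760880) (l 16753400)) (a (a (c (l 16763520) (l 16763464)) (l 16759624)) (l 16759192))) (b (a (a (a (b (l 16766344) (c (l 16769392) (l 16769304))) (c (l 16767200) (l 16767144))) (c (l 16765576) (l 16765520))) (c (l 16762424) (l 16762352))) (a (a (b (a (a (b (b (l 16770448) (a (l 3) (l 16769656))) (l 3)) (b (l 16769824) (a (l 104857586183) (b (l 16769408) (l 3))))) (a (b (l 16767520) (b (l 16768656) (l 13589531495))) (l 16769904))) (a (l 3) (b (a (l 118279359527) (b (l 16770488) (a (l 3) (l 69424106391)))) (l 3)))) (b (c (l 16770080) (l 16770000)) (a (b (l 16770432) (a (a (l 116131875415) (b (l 16770760) (l 72645333991))) (c (l 16770752) (c (l 16770856) (l 18421370343))))) (c (l 16769488) (l 16769408))))) (a (a (a (l 16769112) (l 16768136)) (l 16766680)) (l 16763784))))), by decide +kernel⟩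

def k130_pp_012_a : ∃ t, chk3 f_pp_012_a t 56 27 1 = true :=
  ⟨(l 3), by decide +kernel⟩

def k131_pp_012_a : ∃ t, chk3 f_pp_012_a t 114 54 1 = true :=
  ⟨(b (a (l 3) (b (a (a (l 3) (a (l 3) (b (c (l 112910650055) (l 116668746263)) (l 3)))) (a (b (a (b (l 27011304487) (a (l 3) (l 76940300183))) (b (l 16768976) (b (l 16770856) (l 65129139079)))) (l 3)) (a (b (l 16770496) (b (c (l 62444785271) (b (l 32916884695) (l 98415135751))) (l 3))) (b (l 16769672) (c (b (l 16770208) (l 113984391719)) (b (l 27011303879) (c (l 117205617047) (l 119353100583)))))))) (l 3))) (l 3)), by decide +kernel⟩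

def k132_pp_012_a : ∃ t, chk3 f_pp_012_a t 230 216 1 = true :=
  ⟨(b (a (l 16769752) (l 16765168)) (a (a (b (l 16770064) (b (c (l 16770696) (l 16770264)) (a (c (l 73719073543) (a (l 87140846375) (l 56539204039))) (l 16770440)))) (c (l 16769520) (l 16769416))) (l 16769288))), by decide +kernel⟩

def k133_pp_012_a : ∃ t, chk3 f_pp_012_a t 460 217 1 = true :=
  ⟨(a (a (l 3) (b (b (b (c (l 45264914887) (a (a (l 78014040759) (l 59760429575)) (l 16770320))) (c (l 89825200711) (c (l 119353100599) (c (l 119353100535) (l 120426842295))))) (l 3)) (l 3))) (b (a (b (b (l 16770000) (a (c (l 45264914839) (c (l 16770320) (l 41506818167))) (c (l 16769672) (l 16769552)))) (b (a (c (l 101636361287) (l 127406164263)) (b (c (l 64055396103) (c (l 16770192) (l 23253207479))) (a (l 3) (b (a (l 93583296919) (l 71571589399)) (l 3))))) (l 3))) (b (c (l 16770424) (l 16770304)) (b (a (c (c (l 16769848) (l 16770424)) (c (l 16770040) (l 17884497975))) (c (l 16770216) (l 16769440))) (b (a (a (b (c (l 16770112) (l 76403427863))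 (l 3)) (c (l 90362071063) (c (l 16770096) (l 58149816503)))) (c (l 16769848) (l 16770056))) (a (l 3) (a (c (l 96267651319) (c (l 83382749463) (a (l 76403427703) (l 59223558391)))) (c (l 16769976) (c (l 16769880) (l 16770160))))))))) (a (l 3) (a (l 3) (a (l 3) (a (l 3) (b (b (b (b (c (l 16770096) (a (l 85530233111) (l 73719072951))) (l 3)) (l 3)) (l 3)) (l 3)))))))), by decide +kernel⟩

def k134_pp_012_a : ∃ t, chk3 f_pp_012_a t 1844 217 1 = true :=
  ⟨(b (b (l 16769856) (c (c (l 16770408) (l 16770328)) (c (l 16769936) (l 16769896)))) (b (b (a (a (b (c (l 82845878439) (a (b (l 31306270855) (a (l 3) (l 89288329415))) (c (l 83919619831) (l 39896205447)))) (l 3)) (b (c (l 16769928) (c (l 16769824) (l 16770104))) (b (c (l 57076074743) (c (l 71034718007) (a (c (l 16770040) (l 68887234599)) (l 16770048)))) (a (l 3) (b (c (l 16770112) (a (l 75866556567) (b (l 43654301751) (l 64592267367)))) (l 3)))))) (b (c (l 16769736) (l 16769936)) (b (c (l 16769880) (c (l 16769776) (l 16770064))) (c (c (l 16770024) (l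 16769936)) (c (c (l 16769888) (l 16770184)) (c (l 16770168) (c (l 16769984) (l 16770056)))))))) (a (l 3) (a (b (c (l 76940298615) (b (a (a (l 3) (b (l 74255943815) (l 3))) (c (l 16769992) (c (l 16769960) (l 11978918071)))) (l 3))) (l 3)) (c (b (l 27011303639) (l 88751458711)) (c (b (l 17347627223) (l 72108460535)) (b (b (l 16769856) (c (l 16770120) (l 58686687175))) (a (l 3) (c (l 54391720455) (l 121500583751))))))))) (l 3))), by decide +kernel⟩

def k135_pp_012_a : ∃ t, chk3 f_pp_012_a t 1845 217 1 = true :=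
  ⟨(b (c (c (l 16769856) (l 16769776)) (l 16769704)) (b (b (c (c (l 16769504) (l 16770240)) (c (l 16770016) (l 16769968))) (a (c (a (b (l 16769928) (l 40433076423)) (l 16769888)) (b (c (l 16769760) (l 16770040)) (b (c (l 16769896) (c (l 16769864) (l 16770160))) (a (a (l 3) (b (l 37748722007) (l 61371042231))) (l 16770224))))) (c (l 16769704) (l 16769904)))) (b (b (a (a (l 3) (c (l 76940298471) (c (l 54391720375) (c (c (l 40969947607) (l 42043689399)) (l 134385485159))))) (c (l 28621915975) (c (l 16769872) (c (l 16769840) (l 16770144))))) (a (l 3) (c (a (l 90898942199) (l 16770088)) (c (l 40969947815) (a (a (l 3) (b (l 44191173079) (l 3))) (c (l 16770288) (c (l 16770264) (l 14663272775)))))))) (l 3)))), by decide +kernel⟩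

def k136_pp_012_a : ∃ t, chk3 f_pp_012_a t 923 217 1 = true :=
  ⟨(b (c (l 16769080) (l 16768960)) (b (b (c (l 16770032) (l 16769912)) (a (c (l 16769336) (l 16769864)) (l 16769424))) (a (c (b (l 16770016) (a (a (l 65666009959) (l 24863820551)) (l 16770248))) (b (c (l 16769592) (l 16770200)) (a (b (a (c (l 16770376) (b (l 16770280) (l 54928591511))) (l 16770232)) (a (l 3) (c (l 16770432) (c (l 49559882391) (l 88751458471))))) (c (l 16769832) (c (l 16770448) (l 16770256)))))) (c (l 16770032) (l 16769912))))), by decide +kernel⟩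

def k137_pp_012_a : ∃ t, chk3 f_pp_012_a t 231 108 1 = true :=
  ⟨(b (l 16768240) (a (b (l 16768680) (a (b (l 16769160) (a (l 16769632) (l 16768320))) (l 16769192))) (c (l 16767696) (l 16767600)))), by decide +kernel⟩

def k138_pp_012_a : ∃ t, chk3 f_pp_012_a t 230 109 1 = true :=
  ⟨(b (a (l 3) (a (l 3) (b (b (a (a (l 3) (b (b (c (l 60297300743) (c (l 52244236983) (a (l 108078811319) (l 16810756807)))) (l 3)) (l 3))) (c (b (l 16770400) (a (l 60834172551) (l 16770472))) (b (b (l 16770200) (a (c (l 16770360) (c (l 16770328) (l 72645330951))) (l 16769768))) (a (b (c (l 83382749863) (l 103783844167)) (l 3)) (c (l 11978919063) (b (l 16770568) (l 88751458567))))))) (l 3)) (l 3)))) (l 3)), by decide +kernel⟩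

def k139_pp_012_a : ∃ t, chk3 f_pp_012_a t 231 109 1 = true :=
  ⟨(a (b (a (b (c (b (l 16770000) (a (b (l 33453755879) (c (l 52781109303) (l 52244238535))) (l 16770464))) (b (a (c (l 16770168) (l 16769784)) (l 16768992)) (b (a (a (b (c (l 16770088) (l 78014040199)) (l 3)) (c (l 16769928) (l 16770528))) (l 16769536)) (c (a (a (l 3) (l 52244238023)) (l 16770576)) (a (l 107005069943) (a (a (l 61371042119) (l 16769920)) (l 16769736))))))) (a (l 3) (a (l 3) (b (b (c (l 16770880) (c (l 16770816) (l 78014040503))) (l 3)) (l 3))))) (b (c (l 16770024) (l 16769760)) (b (b (c (l 16770920) (c (l 16769544) (l 16770792))) (a (c (l 16770872) (a (a (l 3) (l 93046425959)) (l 7683952135))) (l 16770992))) (b (a (c (l 55465464663) (l 109689424759)) (c (l 16770088) (c (l 16770024) (c (l 16769968) (l 16770584))))) (a (l 3) (a (l 3) (c (l 16770336) (l 87140846183)))))))) (l 3)) (b (a (b (l 16768992) (b (l 16770080) (c (l 16770840) (c (l 16770776) (l 16770704))))) (c (l 16770088) (l 16768688))) (b (b (a (a (b (c (l 16770992)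 (c (l 40969949207) (l 74792815511))) (l 3)) (c (l 16771328) (c (l 16771256) (c (l 16771200) (l 44191172855))))) (l 16770544)) (a (c (l 99488878503) (a (l 3) (l 106468199591))) (a (c (l 16771576) (b (l 16769952) (l 84456491959))) (l 16770368)))) (a (l 3) (b (a (l 3) (c (l 37748725127) (c (l 43654304647) (l 78014041431)))) (l 3)))))), by decide +kernel⟩

def k140_pp_012_a : ∃ t, chk3 f_pp_012_a t 57 55 1 = true :=
  ⟨(l 3), by decide +kernel⟩

def k141_pp_012_a : ∃ t, chk3 f_pp_012_a t 29 12 1 = true :=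
  ⟨(b (a (b (a (l 16693848) (a (l 16688856) (l 16685544))) (a (l 16704928) (l 16698064))) (b (a (c (b (l 16678184) (l 16683456)) (b (l 16677568) (l 16682792))) (b (c (l 16671864) (l 16670920)) (c (l 16676992) (l 16676024)))) (b (a (l 16688520) (c (l 16682176) (l 16681216))) (a (l 16693896) (l 16687048))))) (a (a (b (l 16716144) (l 16727240)) (b (l 16709112) (l 16720192))) (a (b (l 16702104) (l 16713096)) (b (a (l 16696832) (l 16693336)) (l 16705904))))), by decide +kernel⟩

def k142_pp_012_a : ∃ t, chk3 f_pp_012_a t 29 26 1 = true :=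
  ⟨(a (b (a (l 16748936) (l 16752144)) (a (c (l 16762416) (l 16761704)) (l 16752944))) (b (a (l 16723960) (l 16716792)) (a (l 16745552) (l 16727728)))), by decide +kernel⟩

def k143_pp_012_a : ∃ t, chk3 f_pp_012_a t 58 54 1 = true :=
  ⟨(b (a (a (b (l 16764376) (l 16767336)) (l 16764648)) (l 16761576)) (b (a (a (c (l 16768952) (c (l 16767592) (l 16767528))) (l 16766368)) (l 16760624)) (a (a (a (a (b (l 16769928) (b (c (l 16769752) (c (l 16769664) (l 16770888))) (c (a (l 47412402119) (l 16770248)) (a (a (l 3) (l 92509555959)) (a (l 16770552) (l 16769976)))))) (c (l 16771032) (l 16769600))) (a (l 16769352) (l 16769032))) (l 16767920)) (l 16764768)))), by decide +kernel⟩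

def k144_pp_012_a : ∃ t, chk3 f_pp_012_a t 116 55 1 = true :=
  ⟨(b (a (a (a (l 3) (b (b (b (a (c (l 16771800) (l 40969947799)) (l 16770256)) (c (c (l 45801790231) (l 93583298327)) (l 102173232647))) (l 3)) (l 3))) (b (a (b (c (l 16772232) (c (l 16769512) (l 16770720))) (a (l 107005070455) (b (b (l 16770216) (l 43654305879)) (l 3)))) (b (l 16768576) (b (l 16769656) (c (l 16772424) (c (l 16771656) (l 64055397959)))))) (b (b (c (l 89825203479) (a (l 3) (l 107005071271))) (l 3)) (l 3)))) (a (b (c (l 16770512) (l 16769056)) (b (b (c (l 16771024) (c (l 16769592) (l 16772104))) (a (a (l 3) (c (l 16770688) (l 16770512))) (l 16770200))) (a (l 3) (a (b (c (l 16770936) (l 16771400)) (l 3)) (b (l 16770352) (l 70497849479)))))) (b (l 16771128) (b (l 16769360) (a (b (l 16769616) (b (l 16770160) (l 36674980887))) (l 16769984)))))) (a (l 3) (b (a (l 3) (b (b (a (a (l 3) (a (l 16770952) (l 16770704))) (a (l 16770336) (l 16770168))) (a (l 3) (a (l 24863821911) (a (l 16770856) (l 16770608))))) (l 3))) (l 3)))), by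 decide +kernel⟩

def k145_pp_012_a : ∃ t, chk3 f_pp_012_a t 117 55 1 = true :=
  ⟨(b (a (b (l 16768232) (c (l 16770992) (l 16768376))) (c (l 16765864) (l 16765712))) (a (b (b (a (a (c (l 16771840) (l 16769368)) (l 16769808)) (l 16769664)) (a (b (a (a (a (l 16771096) (l 25400692295)) (a (l 16770600) (l 16770192))) (l 16769992)) (a (c (l 22716338247) (l 54391722055)) (c (a (a (l 16770840) (l 16770512)) (l 16770144)) (l 16770688)))) (c (l 16771504) (l 16771000)))) (b (b (a (a (l 3) (a (c (l 16771376) (l 16771176)) (b (l 25400692135) (a (l 3) (l 16770848))))) (a (c (c (l 16771472) (l 16770096)) (l 16769944)) (l 16769080))) (a (l 3) (a (a (b (a (l 16770968) (l 16771048)) (l 16771216)) (b (l 16770352) (a (l 16771168) (l 16770592)))) (c (l 16770168) (l 16769696))))) (a (l 3) (a (b (a (l 3) (a (l 3) (b (l 16771288) (l 3)))) (l 3)) (a (b (a (b (l 16771040) (l 16771080)) (b (l 16770472) (l 25400692599))) (c (c (l 16771552) (l 16771560)) (l 16771400))) (b (c (c (l 16770392) (l 16770328)) (l 16770176)) (b (a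 (l 16810758247) (l 16770872)) (a (l 3) (l 8220823895))))))))) (a (b (l 16768280) (a (b (l 16769456) (b (c (l 16769952) (l 16769448)) (a (b (l 16770504) (a (l 24863821671) (l 16770584))) (c (l 16770112) (l 16769928))))) (b (l 16767496) (c (l 16770328) (l 16771464))))) (b (l 16769136) (c (l 16769456) (l 16770600)))))), by decide +kernel⟩

def k146_pp_012_a : ∃ t, chk3 f_pp_012_a t 59 27 1 = true :=
  ⟨(a (a (b (l 16758776) (b (l 16767224) (c (l 16767744) (l 16766760)))) (b (l 16755016) (c (l 16764360) (l 16763528)))) (b (l 16749416) (c (l 16761944) (l 16760432)))), by decide +kernel⟩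

def k147_pp_012_a : ∃ t, chk3 f_pp_012_a t 28 14 1 = true :=
  ⟨(l 3), by decide +kernel⟩

def k148_pp_012_a : ∃ t, chk3 f_pp_012_a t 58 28 1 = true :=
  ⟨(b (a (l 3) (b (a (l 3) (b (a (a (b (a (b (b (a (l 16771192) (a (l 16771168) (l 16771048))) (l 3)) (l 3)) (c (b (b (l 16770696) (a (l 16771304) (l 16770896))) (a (l 3) (b (l 16771264) (l 3)))) (b (l 14663274823) (l 16771392)))) (l 3)) (b (b (c (c (l 16771440) (l 16771376)) (l 16770584)) (a (a (b (a (l 18958241943) (l 16771040)) (l 16771312)) (b (l 16770856) (a (l 16771288) (l 21105725591)))) (c (c (c (l 16771600) (l 16771248)) (l 16770552)) (l 16770408)))) (a (l 3) (b (a (b (c (l 10905178567) (l 16771080)) (l 3)) (c (b (l 30769401815) (l 16771376)) (l 16771672))) (l 3))))) (a (b (b (l 16769712) (c (l 16770504) (l 16769680))) (b (a (a (b (l 16770856) (a (l 14126403927) (l 27011305559))) (c (c (l 16770800) (l 16770664)) (l 16770528))) (c (l 16770984) (l 16770168))) (a (b (c (c (l 22179467671) (l 16771344)) (l 16771200)) (l 3)) (a (c (c (b (l 30232530935)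 (l 16273887751)) (l 13589533159)) (l 16771672)) (c (c (l 23253209239) (l 16771232)) (l 16770768)))))) (b (l 16769760) (b (c (l 16770256) (l 16769432)) (c (c (l 16771656) (l 16771608)) (l 16770488)))))) (b (a (l 3) (a (a (l 3) (b (c (c (l 9294566583) (l 16771776)) (l 16771632)) (l 3))) (a (b (b (c (a (a (l 15200145831) (l 27548176631)) (l 16771072)) (l 16770952)) (c (c (l 9831437207) (l 16771456)) (l 16771320))) (l 3)) (b (c (a (b (l 16770744) (l 23253209495)) (l 16771336)) (l 16770976)) (b (c (a (l 16771480) (l 14126404231)) (l 16771200)) (l 3)))))) (l 3)))) (l 3))) (l 3)), by decide +kernel⟩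

def k149_pp_012_a : ∃ t, chk3 f_pp_012_a t 118 112 1 = true :=
  ⟨(a (b (a (c (c (l 16770416) (l 16770376)) (c (l 16769640) (l 16771488))) (l 16769056)) (b (a (a (b (c (l 16771056) (l 16770576)) (a (c (c (c (l 16771560) (l 13589533127)) (l 22716338279)) (l 18958242007)) (c (l 16771208) (l 16770408)))) (c (l 16770768) (l 16771280))) (c (l 16770624) (l 16767856))) (a (a (b (a (a (l 3) (b (c (l 16771472) (l 16771320)) (l 3))) (c (c (c (b (l 16771776) (l 16771656)) (l 16771624)) (l 11978920567)) (a (l 16771256) (l 16771016)))) (l 3)) (c (c (b (l 16771872) (a (b (l 16771680) (l 16771728)) (l 16771696))) (a (b (l 16770768) (l 16771664)) (l 16771624))) (a (b (l 16770648) (a (l 16771504) (l 16771256))) (c (l 16770904) (l 16771128))))) (c (c (l 16771424) (l 16770736)) (b (l 16768952) (l 16770664)))))) (a (c (l 16769928) (l 16769136)) (l 16768608))), by decide +kernel⟩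

def k150_pp_012_a : ∃ t, chk3 f_pp_012_a t 118 113 1 = true :=
  ⟨(a (b (b (a (b (a (l 3) (a (l 3) (b (c (a (l 16771704) (l 16771784)) (l 16771448)) (l 3)))) (l 3)) (a (a (b (c (c (c (l 16771792) (l 16771928)) (l 16771904)) (l 16273887623)) (c (c (c (l 16772032) (l 16772024)) (l 16771992)) (l 16771880))) (b (c (l 16772088) (l 16771960)) (c (c (b (l 16772000) (l 16771880)) (l 16771816)) (l 16771384)))) (c (c (l 16771744) (l 16771704)) (l 16771600)))) (a (l 3) (a (l 3) (b (a (c (c (a (l 16771896) (l 16771816)) (l 16771736)) (l 16771632)) (c (c (l 16771944) (l 16771240)) (l 16771144))) (a (l 3) (c (c (c (l 16772040) (l 16772008)) (l 16771976)) (l 16771888))))))) (l 3)) (a (b (b (c (l 16771568) (l 16771456)) (b (c (l 16771680) (l 16771248)) (a (c (c (c (l 16771960) (l 16771928)) (l 16771888)) (l 16771808)) (l 16772208)))) (a (b (b (b (c (a (l 16772056) (l 16772056)) (l 16771704)) (c (c (l 16772168) (l 16772160)) (l 16772072))) (l 3)) (l 3)) (b (b (c (a (l 16771912) (l 16770768)) (l 16770912)) (c (c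 (c (l 16772128) (l 16772088)) (l 16772376)) (l 16772304))) (b (c (c (l 16772360) (l 16772464)) (l 36674983383)) (l 3))))) (b (c (l 16770352) (l 16770256)) (c (c (b (l 16772408) (a (b (l 14663275911) (l 16772312)) (a (l 33990627527) (l 16770680)))) (a (b (l 16770376) (b (l 16772120) (l 16772208))) (l 16771440))) (a (b (l 16770312) (b (l 16772728) (l 16772816))) (l 16771720)))))), by decide +kernel⟩

def k151_pp_012_a : ∃ t, chk3 f_pp_012_a t 119 56 1 = true :=
  ⟨(a (b (l 16767032) (b (l 16770040) (a (a (b (l 16768416) (l 16771824)) (l 16770784)) (l 16769328)))) (b (l 16761896) (c (l 16767656) (l 16767592)))), by decide +kernel⟩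

def k152_pp_012_a : ∃ t, chk3 f_pp_012_a t 118 57 1 = true :=
  ⟨(b (a (l 3) (b (a (l 3) (a (l 3) (b (b (c (a (c (l 16772272) (l 16772200)) (l 16810759559)) (l 16771896)) (a (l 3) (c (l 16772480) (l 16772384)))) (l 3)))) (l 3))) (l 3)), by decide +kernel⟩

def k153_pp_012_a : ∃ t, chk3 f_pp_012_a t 119 114 1 = true :=
  ⟨(a (b (a (b (c (a (c (b (l 16771040) (l 16771776)) (l 16771656)) (l 16770392)) (l 16772744)) (a (a (l 3) (b (c (l 16772224) (l 16772104)) (l 3))) (b (c (l 16771480) (l 16771360)) (c (c (l 16772264) (l 16773488)) (l 21642599863))))) (b (l 16771480) (a (b (l 16773048) (l 16773768)) (l 16772432)))) (a (a (l 3) (b (c (b (l 45801792327) (l 3)) (l 115058139335)) (l 3))) (a (b (b (c (l 16772616) (l 43117434903)) (a (l 3) (l 53317982823))) (l 3)) (b (b (l 16773512) (a (l 16772184) (l 16771360))) (b (a (l 93583302343) (a (l 76403432807) (l 16771960))) (l 3)))))) (a (b (l 16770584) (b (c (l 16772496) (l 16772344)) (b (a (a (l 16771592) (l 16771104)) (l 16770368)) (b (a (a (l 39896210887)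 (l 16771640)) (l 16770904)) (a (a (l 94120173159) (l 16772656)) (l 16771264)))))) (b (l 16765696) (b (l 16769144) (a (a (l 16769992) (l 16769504)) (l 16768768)))))), by decide +kernel⟩

def k154_pp_012_a : ∃ t, chk3 f_pp_012_a t 119 115 1 = true :=
  ⟨(a (l 3) (b (b (a (a (a (l 3) (b (a (l 106468203911) (b (l 77477174679) (l 3))) (l 3))) (a (b (a (b (l 16771984) (c (l 86603980167) (l 88751463719))) (c (l 16772696) (l 30769404647))) (b (a (l 3) (c (l 95730785655) (l 97878269271))) (l 3))) (b (c (l 16771672) (l 16771464)) (a (a (b (b (l 16772184) (a (l 100562623815) (l 88751463703))) (l 3)) (b (c (l 34527501479) (l 37211855591)) (b (c (l 65129143511) (l 67813497943)) (l 3)))) (b (c (l 16772088) (l 16771864)) (b (b (c (l 16772640) (l 16772416)) (a (a (l 64055401735) (l 16772632)) (l 16772216))) (a (l 71571594647) (a (l 36138114423) (l 20568857847))))))))) (a (b (c (l 16770936) (l 16770728)) (b (c (l 16772792) (l 16772568)) (a (a (b (l 16772640) (l 16772488)) (l 16772488)) (l 16772120)))) (b (l 16769840)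 (b (l 16770376) (l 16772040))))) (a (l 3) (a (b (a (b (a (b (a (l 58149821943) (l 16772272)) (l 67276627511)) (c (l 16772304) (l 16772080))) (c (l 62981660647) (l 65666014983))) (a (b (l 16771936) (l 14126407287)) (l 16771864))) (a (l 3) (a (l 69960982535) (b (l 20568858407) (l 3))))) (a (b (l 16771496) (c (l 11442052967) (c (l 16773464) (l 16772736)))) (l 16771928))))) (a (l 3) (a (l 3) (b (b (a (l 64055402263) (c (l 16773248) (l 13589536839))) (l 3)) (l 3)))))), by decide +kernel⟩

def k155_pp_012_a : ∃ t, chk3 f_pp_012_a t 29 29 1 = true :=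
  ⟨(l 3), by decide +kernel⟩

def k156_pp_012_a : ∃ t, chk3 f_pp_012_a t 14 15 1 = true :=
  ⟨(l 3), by decide +kernel⟩

def k157_pp_012_a : ∃ t, chk3 f_pp_012_a t 15 12 1 = true :=
  ⟨(a (b (a (b (a (a (b (l 16666656) (l 16671680)) (b (l 16663440) (l 16668408))) (b (c (l 16659296) (l 16657728)) (c (l 16664176) (l 16662640)))) (a (b (c (l 16675624) (l 16674400)) (c (l 16680752) (l 16679568))) (b (c (l 16669120) (l 16667632)) (c (l 16674128) (l 16672720))))) (b (a (b (c (l 16653064) (l 16651192)) (c (l 16657824) (l 16656016))) (b (c (l 16646856) (l 16644696)) (c (l 16651520) (l 16649440)))) (a (b (c (l 16662656) (l 16660928)) (c (l 16667560) (l 16665928))) (b (c (l 16656248) (l 16654264)) (l 16660224))))) (a (a (b (b (l 16685480) (l 16690776)) (b (l 16696120) (l 16701440))) (b (b (l 16678648) (l 16683840)) (b (l 16689096) (l 16694328)))) (b (a (b (l 16671872) (l 16676976)) (b (l 16665160) (l 16670176))) (a (b (l 16682144) (l 16687288)) (b (l 16675264) (l 16680320)))))) (b (a (a (b (b (l 16639600)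 (l 16644200)) (b (l 16648880) (l 16653648))) (b (a (l 16637168) (l 16634024)) (b (l 16642440) (l 16647128)))) (b (a (l 16629320) (l 16623088)) (a (l 16638360) (l 16631968)))) (a (b (b (a (l 16658504) (l 16651896)) (a (l 16663440) (l 16656760))) (a (b (l 16668440) (l 16673424)) (l 16664152))) (b (a (l 16647744) (l 16641208)) (a (l 16657416) (l 16650736)))))), by decide +kernel⟩

def k158_pp_012_a : ∃ t, chk3 f_pp_012_a t 15 13 1 = true :=
  ⟨(a (b (a (b (a (b (l 16706816) (l 16712224)) (b (l 16699616) (l 16704968))) (a (l 16720448) (b (l 16710368) (l 16715872)))) (b (a (b (l 16692496) (l 16697768)) (b (l 16685448) (l 16690648))) (b (l 16699520) (l 16704912)))) (a (b (a (l 16741984) (l 16724112)) (a (l 16753016) (l 16745520))) (a (b (l 16727256) (l 16727584)) (b (l 16709408) (l 16720200))))) (a (b (b (a (b (l 16678480) (l 16683608)) (l 16674120)) (b (a (l 16688824) (l 16681792)) (l 16690568))) (b (a (l 16702168) (l 16694984)) (a (l 16712824) (l 16705544)))) (b (b (a (l 16667248) (l 16660432)) (l 16684424))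 (b (l 16700064) (a (l 16698328) (l 16691168)))))), by decide +kernel⟩

def k159_pp_012_a : ∃ t, chk3 f_pp_012_a t 30 28 1 = true :=
  ⟨(a (b (a (b (l 16761424) (c (l 16761880) (l 16761840))) (c (l 16756704) (l 16756608))) (a (b (a (b (l 16768032) (a (c (l 16771936) (l 16766536)) (l 16769888))) (c (l 16762696) (l 16765544))) (a (b (b (a (a (b (l 16768856) (l 16769568)) (l 16769056)) (c (l 16766888) (l 16766680))) (a (a (a (l 16770864) (l 16770376)) (l 16769640)) (c (l 16768288) (l 16768080)))) (a (b (b (a (l 16772320) (l 16770680)) (a (a (c (l 16773368) (l 44191179111)) (l 16772120)) (l 16771384))) (b (a (c (l 49023018711) (l 54928598167)) (a (l 16772328) (l 16771832))) (a (l 3) (c (c (l 16774232) (l 14663280151)) (l 46338662983))))) (b (c (l 16769664) (l 16770144)) (c (c (l 16772408) (l 16772304)) (l 16771552))))) (a (c (b (l 16768256) (l 16769048)) (b (l 16766088) (l 16768240))) (b (c (l 16763680) (l 16763480)) (l 16768960))))) (a (b (l 16761712) (b (l 16762768) (l 16766032))) (b (l 16752608) (l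 16762384))))) (a (b (l 16749144) (b (l 16752072) (a (l 16759472) (l 16750336)))) (b (l 16731168) (b (l 16739136) (l 16749736))))), by decide +kernel⟩

def k160_pp_012_a : ∃ t, chk3 f_pp_012_a t 120 58 1 = true :=
  ⟨(b (b (a (a (l 3) (a (b (b (c (l 16773232) (l 16773776)) (a (l 3) (c (l 16773032) (l 16772944)))) (l 3)) (b (c (c (l 16773296) (l 16774520)) (l 16773136)) (b (c (a (l 16773896) (l 16773392)) (l 16774224)) (l 3))))) (a (a (c (b (l 16770952) (b (l 16773304) (a (c (l 16772976) (l 16774232)) (l 16773752)))) (c (l 16773536) (l 16773512))) (c (c (l 16773328) (l 16773256)) (l 16773184))) (c (c (l 16771864) (l 16771784)) (l 16771712)))) (a (l 3) (b (a (b (a (a (l 3) (c (c (l 16773840) (l 67813496455)) (l 16773096))) (c (c (c (l 16773768) (l 16773728)) (l 16773688)) (l 16773648))) (a (l 3) (c (c (a (c (l 16773400) (l 16774032)) (l 16773216)) (c (l 16773760) (l 16773088))) (c (l 16773728) (l 16773072))))) (a (c (c (l 1778377831) (l 16773704)) (l 16773016)) (l 16773360))) (a (l 3) (a (b (a (c (c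 (a (l 16773544) (l 16773616)) (l 16773048)) (l 16773032)) (c (c (l 16773248) (l 16773856)) (l 16773832))) (b (a (l 3) (c (c (l 16773448) (l 16773080)) (l 16773064))) (l 3))) (b (c (l 16773792) (l 16771776)) (c (a (c (c (l 16773464) (l 16773272)) (l 16773408)) (l 16773592)) (l 16773800)))))))) (a (l 3) (b (a (l 3) (a (l 3) (b (b (a (a (l 3) (b (c (c (l 16773200) (l 16773168)) (l 16773144)) (l 3))) (c (c (b (l 16773152) (a (l 3) (l 16773048))) (l 16773464)) (l 16773600))) (l 3)) (l 3)))) (l 3)))), by decide +kernel⟩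

def k161_pp_012_a : ∃ t, chk3 f_pp_012_a t 121 116 1 = true :=
  ⟨(a (a (b (l 16769792) (c (c (c (l 16773336) (l 16772648)) (l 16772608)) (l 16772576))) (c (l 16770112) (l 16770520))) (c (l 16767664) (l 16768888))), by decide +kernel⟩

def k162_pp_012_a : ∃ t, chk3 f_pp_012_a t 484 117 1 = true :=
  ⟨(b (b (c (a (b (c (c (l 16773584) (l 16773560)) (l 16773536)) (b (a (c (a (l 16773320) (l 16772904)) (l 16773656)) (l 16773496)) (a (a (l 3) (a (l 3) (c (l 16773192) (l 16773168)))) (c (c (l 16773224) (l 16773528)) (l 16773512))))) (a (l 16773488) (l 16772664))) (a (b (l 16773520) (a (l 9831441239) (l 16773312))) (l 16772888))) (b (a (a (l 3) (a (l 3) (b (c (c (a (l 16773336) (l 16773048)) (l 16773088)) (l 16773040)) (l 3)))) (a (b (c (c (c (l 16773400) (l 16773384)) (l 16773368)) (l 16772680)) (c (c (c (a (l 16773384) (l 16773296)) (l 16773408)) (l 16773392)) (l 16773344))) (c (c (l 16773400) (l 16773704)) (l 16773680)))) (a (l 3) (c (a (a (l 3) (b (c (c (l 61371047127) (l 16773312)) (l 16773304))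 (l 3))) (a (b (c (c (l 16773240) (l 16773384)) (l 16773048)) (l 3)) (c (b (l 16773472) (c (a (l 16773400) (l 16773112)) (l 16773160))) (l 16773464)))) (a (l 47949275607) (a (l 25937568071) (l 25400697095))))))) (l 3)), by decide +kernel⟩

def k163_pp_012_a : ∃ t, chk3 f_pp_012_a t 485 117 1 = true :=
  ⟨(b (a (b (l 16773216) (a (b (l 16773208) (c (c (c (c (l 16773456) (l 16773280)) (l 16773272)) (l 16773256)) (l 16773216))) (c (l 16773408) (l 16773048)))) (c (l 16772344) (l 16772936))) (a (b (b (a (c (b (a (a (l 3) (b (c (l 16773200) (l 16773104)) (l 3))) (c (c (c (l 16773360) (l 16773352)) (l 16773344)) (l 16773664))) (a (l 3) (a (l 3) (c (c (l 16773320) (l 16773312)) (l 16773296))))) (c (c (l 25400697223) (l 38285598727)) (l 50633629351))) (c (a (b (l 16773584) (c (c (a (b (l 16773104) (l 3)) (l 16773232)) (l 16773448)) (l 16773440))) (c (l 16773520) (l 16773344))) (c (l 16273891463) (l 36138114471)))) (a (l 3) (b (a (l 3) (c (c (c (b (a (l 16773208) (l 16773080)) (l 16773320)) (l 16773552)) (l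 16773536)) (l 45801791447))) (l 3)))) (l 3)) (b (c (a (b (l 16773472) (a (b (c (c (c (l 16773320) (l 16773312)) (l 16773304)) (l 16773624)) (a (l 3) (c (c (c (l 16773360) (l 16773272)) (l 16773264)) (l 16773248)))) (c (b (l 16773384) (b (l 16773488) (c (l 16773256) (l 16773168)))) (l 16773384)))) (c (c (l 16773512) (l 16773496)) (l 16773488))) (b (l 16773336) (a (b (l 33990631223) (a (l 49023016855) (a (l 56539209511) (l 48486145719)))) (l 16773112)))) (b (b (a (a (l 3) (c (c (c (c (l 16773448) (l 16773440)) (l 16773432)) (l 16773408)) (l 16773320))) (a (c (c (c (a (a (l 16773288) (l 16773304)) (l 16773336)) (l 16773424)) (l 16773408)) (c (l 55465467703) (l 16773048))) (c (c (l 16773512) (l 16773576)) (l 50633629271)))) (a (l 3) (a (l 3) (c (c (c (b (a (l 16773264) (l 16773472)) (l 16773384)) (l 16773448)) (l 22179471815)) (a (l 16773240) (l 40433082455)))))) (l 3))))), by decide +kernel⟩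

def k164_pp_012_a : ∃ t, chk3 f_pp_012_a t 243 117 1 = true :=
  ⟨(b (c (c (l 16771832) (l 16771792)) (l 16771784)) (a (b (a (c (l 16773080) (l 16772712)) (l 16773072)) (b (a (a (b (c (l 16773216) (l 16772488)) (c (c (c (c (b (l 16773496) (l 2315248231)) (l 16773248)) (l 16773408)) (l 13589537143)) (c (l 40433082039) (c (l 16773464) (l 16772768))))) (c (l 16772896) (l 16772168))) (l 16772968)) (a (a (a (b (b (c (c (c (c (l 16773392) (l 16773304)) (l 16773304)) (l 16773280)) (l 16773192)) (l 3)) (l 3)) (c (b (c (b (l 16773384) (a (a (l 3) (l 16773424)) (l 16773416))) (l 24863826247)) (a (l 3) (a (l 3) (b (l 16773464) (l 3))))) (b (a (l 39896211591) (l 16773064)) (l 16773536)))) (a (b (c (c (l 16773552) (l 16772872)) (l 16772800)) (b (c (c (c (l 16773408) (l 16773480)) (l 16773296)) (l 16773216)) (c (c (c (a (l 3) (l 16773440)) (l 16773328)) (l 39896211751)) (l 16773384)))) (c (c (l 16773480) (l 20568858823)) (c (c (l 16773424) (l 16773400)) (l 8757697959))))) (a (c (l 16773352) (a (l 16772648) (l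 16772248))) (l 16773000))))) (c (l 16772632) (l 16771960)))), by decide +kernel⟩

def k165_pp_012_a : ∃ t, chk3 f_pp_012_a t 120 59 1 = true :=
  ⟨(l 3), by decide +kernel⟩

def k166_pp_012_a : ∃ t, chk3 f_pp_012_a t 242 118 1 = true :=
  ⟨(l 3), by decide +kernel⟩

def k167_pp_012_a : ∃ t, chk3 f_pp_012_a t 243 472 1 = true :=
  ⟨(a (a (a (l 3) (a (l 3) (b (b (b (c (c (a (l 16773448) (l 16773440)) (l 34527502551)) (l 29695664439)) (c (c (c (l 16773440) (l 16773432)) (l 46338662567)) (l 16773312))) (l 3)) (l 3)))) (b (b (a (a (a (c (c (c (l 16773408) (l 16773320)) (l 39896211655)) (l 45801791607)) (c (c (l 16773368) (l 16773016)) (l 16772936))) (c (l 16773336) (l 16772752))) (c (l 16773136) (l 16772392))) (a (a (b (a (l 3) (c (c (a (l 16773496) (l 16773432)) (l 53854855271)) (l 16773184))) (l 3)) (b (c (c (l 16773440) (l 16773168)) (l 16773008)) (c (c (a (l 16773472) (l 16773472)) (c (l 45801791623) (l 32916889943))) (l 30769406311)))) (c (c (l 16773488) (l 16773464)) (a (l 16772848) (l 16772608)))))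 (a (b (a (l 3) (a (l 3) (b (c (c (l 16773488) (l 16773368)) (l 16773280)) (l 3)))) (l 3)) (a (b (b (c (c (c (l 16773464) (l 16773376)) (c (l 53317984247) (l 40969953479))) (l 38822469847)) (a (l 3) (c (c (a (l 16773528) (l 16773464)) (l 35064373655)) (l 16773208)))) (l 3)) (c (c (c (b (l 16773392) (b (a (l 16773472) (l 16773424)) (l 22716342999))) (b (l 16773544) (c (b (l 22179471847) (l 47949275479)) (l 40969953639)))) (b (c (l 16773528) (l 16773512)) (c (l 52244242631) (b (l 27011310087) (l 16773448))))) (b (l 49559887783) (a (l 20031988487) (l 33990631879)))))))) (a (b (c (l 16773224) (l 16772488)) (c (a (a (b (l 16773296) (a (b (l 16773368) (c (c (l 16773480) (l 44191179079)) (l 39359340935))) (b (l 16773000) (c (l 16773512) (l 16773152))))) (c (l 16773400) (l 16773536))) (l 16773344)) (a (a (b (l 16772704) (a (l 45801791703) (l 16772984))) (b (l 16772464) (l 16772800))) (l 16772432)))) (c (l 16772592) (l 16772520)))), by decide +kernel⟩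

def k168_pp_012_a : ∃ t, chk3 f_pp_012_a t 486 473 1 = true :=
  ⟨(l 3), by decide +kernel⟩

def k169_pp_012_a : ∃ t, chk3 f_pp_012_a t 974 473 1 = true :=
  ⟨(a (b (a (b (a (l 3) (b (c (c (c (l 10905182871) (l 46338662791)) (l 32916890103)) (l 16773400)) (l 3))) (l 3)) (b (c (b (a (c (l 20568859191) (l 16773200)) (l 16773264)) (a (c (c (l 16273892007) (l 42043695559)) (l 16773376)) (c (c (l 16773456) (l 45801791767)) (l 16773296)))) (b (l 16773216) (l 29695664663))) (a (l 3) (c (c (c (l 36138115751) (l 39896212055)) (l 21642601319)) (l 16273892247))))) (l 3)) (b (b (a (c (c (l 16773344) (c (l 16772992) (l 16772976))) (l 16772896)) (c (l 16773416) (l 16772656))) (c (a (a (b (c (c (l 17884504679) (l 60834177207)) (l 39359340999)) (l 3)) (b (c (l 16773376) (l 16773176)) (c (a (l 34527502903) (b (l 16773312) (l 40969953799))) (l 30769406551)))) (b (l 16773264) (a (c (a (l 35064373767) (l 16773232)) (l 16773232)) (c (l 16773144) (l 16773112))))) (a (b (l 38285599127) (l 24863826647)) (c (l 43654308071)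 (l 16773288))))) (a (l 3) (b (c (c (a (b (c (l 31843148391) (l 32916890215)) (l 3)) (b (a (c (l 29695664679) (l 41506824663)) (l 36138115575)) (l 42043695687))) (a (l 24863826743) (b (l 41506824647) (l 16773448)))) (b (c (l 28621922967) (l 30232535719)) (l 16273892247))) (l 3))))), by decide +kernel⟩

def k170_pp_012_a : ∃ t, chk3 f_pp_012_a t 975 473 1 = true :=
  ⟨(b (a (c (c (l 16773232) (l 16773528)) (c (l 16773480) (l 16772432))) (c (l 16773384) (l 16771984))) (a (a (a (b (c (c (b (l 16773192) (a (c (l 36138115623) (l 34527502919)) (c (l 33453761047) (l 16773344)))) (b (l 16773160) (l 37211857447))) (c (l 38285599271) (l 40969953767))) (l 3)) (b (c (c (c (l 16773488) (l 16773640)) (l 57076080695)) (l 16773032)) (b (c (c (b (c (l 37211857415) (l 16773368)) (l 46875533831)) (l 29158793911)) (l 29158793879)) (l 3)))) (c (b (c (l 16773296) (l 16772936)) (b (c (a (c (l 33453760999) (c (l 16773536) (l 16773280))) (l 16773168)) (l 50633629943)) (c (a (c (l 45264921127) (l 25937568503)) (a (c (l 44728050167)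 (l 37748728391)) (c (l 16773360) (l 16773304)))) (a (l 23790084887) (l 38822470183))))) (b (l 16772856) (b (l 47949275447) (a (l 23790084823) (l 39359341079)))))) (b (c (l 16773248) (l 16772496)) (c (c (c (l 16773608) (l 16773600)) (c (l 16773584) (l 16773560))) (a (l 16773280) (l 16772712)))))), by decide +kernel⟩

def k171_pp_012_a : ∃ t, chk3 f_pp_012_a t 243 237 1 = true :=
  ⟨(b (a (l 3) (b (a (l 3) (a (a (l 3) (a (l 3) (b (c (c (c (l 45801792119) (l 27011310487)) (l 17884505127)) (l 15737021447)) (l 3)))) (a (b (a (b (c (c (c (a (l 47412404775) (l 47949275623)) (l 39359341127)) (l 35064373895)) (l 35064373879)) (l 3)) (c (b (c (c (l 16773280) (l 16773264)) (l 16773232)) (c (a (b (l 16773432) (l 3)) (c (l 51707372039) (l 34527502999))) (l 29695664871))) (b (l 16773144) (l 29158793943)))) (l 3)) (b (c (c (b (l 16773088) (a (b (l 16773280) (a (l 16773392) (l 16773336))) (l 16773200))) (b (l 16773056) (l 47949275511))) (c (l 43117437351) (l 16773256))) (c (c (a (b (c (l 52244242871) (l 25937568567))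 (l 3)) (a (b (b (l 16773360) (l 16773448)) (l 3)) (b (b (l 16773296) (l 16773384)) (l 27011310359)))) (b (a (l 24326955847) (l 40433082967)) (l 18421376039))) (b (a (l 22716343095) (l 41506824775)) (l 16273892359))))))) (l 3))) (l 3)), by decide +kernel⟩

def k172_pp_012_a : ∃ t, chk3 f_pp_012_a t 121 119 1 = true :=
  ⟨(l 3), by decide +kernel⟩

def k173_pp_012_a : ∃ t, chk3 f_pp_012_a t 61 58 1 = true :=
  ⟨(a (a (b (l 16765000) (a (a (l 16771056) (l 16769744)) (l 16769584))) (b (l 16755840) (l 16766624))) (b (l 16755208) (a (l 16762688) (l 16753504)))), by decide +kernel⟩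

def k174_pp_012_a : ∃ t, chk3 f_pp_012_a t 244 236 1 = true :=
  ⟨(a (b (l 16772424) (a (c (c (l 16773008) (l 16772984)) (c (l 16772288) (l 16773528))) (l 16772000))) (l 16771808)), by decide +kernel⟩

def k175_pp_012_a : ∃ t, chk3 f_pp_012_a t 244 474 1 = true :=
  ⟨(a (a (a (b (b (c (c (l 16773464) (l 16773432)) (l 16772848)) (c (c (b (c (l 16773560) (l 16773552)) (a (a (b (a (l 16773408) (l 16773344)) (c (l 36674986679) (l 16773536))) (b (l 16773256) (l 16773344))) (l 16773112))) (a (a (b (l 16773216) (l 36138115767)) (l 16773256)) (l 16772992))) (a (b (l 16773064) (c (l 36674986695) (l 38822470279))) (l 16772904)))) (b (b (a (a (l 3) (c (c (a (l 30232535815) (b (l 16773400) (l 16773488))) (l 30769406743)) (l 29158793991))) (c (c (a (a (a (l 51170501159) (l 16773368)) (l 16773320)) (l 16773224)) (l 45264921095)) (l 50096759207))) (a (l 3) (c (a (a (l 18958246807) (b (l 16773472) (l 3))) (b (c (l 16773360) (l 16773320)) (a (l 16773496) (l 16773392)))) (a (l 23253214055) (l 42043695735))))) (b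 (a (l 3) (a (l 3) (a (l 3) (c (l 22179472263) (l 16773568))))) (l 3)))) (b (b (l 16772920) (c (l 16773304) (l 16772544))) (c (b (a (c (c (l 16773624) (l 16773616)) (l 16773136)) (l 16773200)) (a (a (b (c (b (l 47949275751) (l 32380019479)) (l 36138115831)) (l 3)) (b (a (l 16773384) (l 16773280)) (b (c (l 39896212183) (l 16773584)) (l 23253214087)))) (b (c (l 16773144) (l 16773112)) (a (b (l 16773320) (l 46875533975)) (c (l 16773256) (l 16773216)))))) (b (c (l 16773120) (l 16773504)) (a (b (a (l 35601244887) (l 16773200)) (a (l 3) (l 29695664951))) (c (l 44191179287) (l 47412404695))))))) (a (b (l 16772608) (a (c (c (l 16773472) (l 16773600)) (l 16772856)) (c (l 16773208) (l 16772456)))) (c (l 16773160) (l 16772080)))) (c (l 16772584) (l 16773168))), by decide +kernel⟩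

def k176_pp_012_a : ∃ t, chk3 f_pp_012_a t 488 475 1 = true :=
  ⟨(b (a (b (a (l 3) (a (l 3) (c (a (b (b (l 31306277687) (l 3)) (l 3)) (b (b (l 16773368) (l 39359341303)) (c (l 21105730583) (l 20031988759)))) (b (a (l 23790085015) (l 41506824887)) (l 16810763383))))) (l 3)) (a (a (a (b (c (b (c (l 16773304) (l 16773272)) (b (l 47949275815) (l 31843148631))) (b (l 16773176) (l 36674986775))) (l 3)) (b (c (c (b (l 16773184) (l 16773360)) (l 16773232)) (l 16773144)) (b (c (b (l 39896212247) (l 24326955959)) (l 30769406839)) (l 3)))) (c (b (c (l 16773656) (l 16773048)) (a (b (a (l 47949275831) (l 16773360)) (a (l 20568859655) (l 30769406871))) (b (l 16773264) (b (l 16773400) (l 40969954087))))) (b (l 16772960) (b (l 50633630215) (a (l 24863826903) (l 42043695847)))))) (b (c (l 16773032) (l 16772600)) (a (c (c (c (l 16773688) (l 16773504)) (l 16773152)) (l 16773056)) (c (l 16772928) (l 16772816)))))) (a (l 3) (a (a (l 3) (a (l 3) (b (b (c (c (l 22179472471) (l 17884505255)) (l 18958246967)) (l 3)) (l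 3)))) (b (b (c (a (a (a (l 34527503223) (l 44191179527)) (l 16773408)) (c (l 16773200) (l 16773160))) (a (c (l 35064374199) (l 39359341351)) (l 16773072))) (a (a (l 3) (c (a (l 28621923287) (l 37748728679)) (l 31843148711))) (c (a (c (l 50633630375) (l 16773392)) (l 16773296)) (l 16773408)))) (a (l 3) (b (a (a (l 17347634311) (b (l 37748728679) (l 3))) (b (l 16773544) (a (l 33453761431) (l 16773592)))) (a (l 3) (c (l 24326956135) (l 20031988839))))))))), by decide +kernel⟩

def k177_pp_012_a : ∃ t, chk3 f_pp_012_a t 489 475 1 = true :=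
  ⟨(a (b (c (l 16772968) (l 16772336)) (b (a (c (c (l 16773576) (l 16773544)) (l 16772800)) (l 16773032)) (c (a (a (a (b (l 16773344) (a (l 34527503287) (l 45264921399))) (b (l 16773224) (l 16773392))) (c (l 16773800) (l 16773104))) (l 16773088)) (a (a (a (a (l 40969954071) (l 16773448)) (l 16773200)) (l 16773016)) (l 16772656))))) (c (l 16772824) (l 16772080))), by decide +kernel⟩

def k178_pp_012_a : ∃ t, chk3 f_pp_012_a t 245 118 1 = true :=
  ⟨(b (l 16769496) (a (a (l 16772128) (l 16771480)) (l 16769984))), by decide +kernel⟩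

def k179_pp_012_a : ∃ t, chk3 f_pp_012_a t 244 119 1 = true :=
  ⟨(b (a (l 3) (a (b (b (a (b (b (a (a (c (l 17347634423) (l 16773568)) (b (a (l 16773592) (l 16773448)) (l 23253214311))) (c (a (l 50096759527) (l 16773328)) (l 16773600))) (a (l 3) (a (c (c (l 29158794343) (l 25400698039)) (l 27011310663)) (c (c (l 43117437799) (l 16773472)) (l 16773712))))) (b (a (l 3) (a (l 3) (c (l 24863827111) (l 16773712)))) (l 3))) (b (c (c (c (l 16773784) (l 16773768)) (c (l 16773752) (l 16773072))) (c (l 16773032) (l 16772960))) (a (a (b (b (l 47949275975) (l 34527503351)) (l 15737021767)) (b (l 16773456) (b (l 40969954295) (l 24326956199)))) (c (b (l 16773240) (a (l 16773560) (l 16773352))) (l 16773544))))) (b (a (l 3) (a (l 3) (b (a (c (l 31306278007) (l 16773688)) (c (l 44728050567) (l 16773408))) (c (c (l 23790085495) (l 19495118279)) (l 16810763767))))) (l 3))) (l 3)) (b (b (a (c (c (l 16773136) (l 16772896)) (c (l 16773376) (l 16772648))) (l 16772920)) (b (a (a (b (c (l 16773344) (l 16773232)) (a (c (l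 39359341543) (l 16773784)) (l 16773568))) (c (c (l 16773200) (l 16773160)) (l 16773072))) (c (l 16772816) (l 16772712))) (a (a (b (a (l 16810763639) (c (l 31843148919) (l 16773832))) (l 3)) (b (a (l 50633630535) (l 16773336)) (c (a (l 30769407191) (l 16773632)) (l 36138116247)))) (c (a (a (l 16773344) (l 16773224)) (l 16773040)) (l 16773384))))) (b (a (a (l 3) (b (a (l 3) (b (l 23253214551) (l 3))) (l 3))) (a (b (b (a (c (l 37748728903) (l 16773488)) (l 16773432)) (a (l 17884505527) (a (l 16773760) (l 16773656)))) (l 3)) (b (c (b (l 16773296) (l 16773512)) (l 16773272)) (b (a (l 30232536359) (l 44728050663)) (c (l 24863827431) (l 16774024)))))) (l 3))))) (l 3)), by decide +kernel⟩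

def k180_pp_012_a : ∃ t, chk3 f_pp_012_a t 490 119 1 = true :=
  ⟨(a (a (b (b (c (l 16772816) (l 16772392)) (b (b (c (l 16773184) (l 16772912)) (a (b (l 16773432) (a (l 36674987159) (l 16773464))) (c (l 16773240) (l 16773136)))) (a (b (b (a (l 16773912) (l 30769407223)) (l 3)) (l 3)) (b (b (c (l 16773496) (l 16773384)) (a (l 31306278247) (l 16773728))) (c (c (l 27548182151) (l 18421376871)) (l 17884505927)))))) (l 3)) (b (b (l 16772944) (b (c (l 16774016) (l 16772600)) (b (c (c (l 16773232) (l 16773200)) (l 16773112)) (a (c (b (l 43654308887) (l 34527503735)) (l 27548181879)) (a (l 16773520) (l 16773416)))))) (a (l 3) (b (b (b (b (a (l 16773872) (l 16773592)) (l 23790085751)) (l 3)) (l 3)) (l 3))))) (b (b (l 16772224) (b (l 16772920) (a (a (c (l 16773024) (l 16772920)) (l 16772736)) (l 16773032)))) (b (b (a (b (c (a (a (l 45801792503) (l 16773480)) (l 16773296)) (l 38822470599)) (a (a (l 20031989511) (a (l 18421376599) (l 28085052807))) (b (l 16773512) (c (l 43654309143) (l 16773616))))) (c (c (l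 16774104) (l 16773088)) (l 16773080))) (b (a (a (l 3) (a (l 3) (l 23790085863))) (c (a (a (l 31843149191) (l 45264921703)) (l 16773496)) (c (l 30232536391) (l 16773968)))) (a (l 3) (a (l 17884506135) (a (l 31306278503) (c (l 37211858231) (l 16773672))))))) (l 3)))), by decide +kernel⟩

def k181_pp_012_a : ∃ t, chk3 f_pp_012_a t 491 119 1 = true :=
  ⟨(b (c (l 16772776) (l 16772064)) (b (a (b (c (l 16773680) (l 16772280)) (a (b (l 16773416) (c (l 38822470599) (l 16773376))) (l 16773432))) (l 16773024)) (b (a (c (a (a (l 49023018343) (b (a (l 42043696375) (l 16773640)) (l 32916891415))) (c (l 24863827143) (l 39359341319))) (b (a (c (l 32916891351) (l 29158795143)) (l 16773232)) (a (l 21105731799) (l 31306278263)))) (c (l 16774088) (l 16772680))) (a (a (l 3) (a (l 44728050967) (c (l 35601245655) (l 14126409847)))) (a (a (c (l 28621923815) (l 28621923847)) (c (l 16773584) (l 16773488))) (l 16773832)))))), by decide +kernel⟩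

def k182_pp_012_a : ∃ t, chk3 f_pp_012_a t 123 59 1 = true :=
  ⟨(b (a (c (l 16768264) (l 16765624)) (l 16764272)) (b (a (c (l 16769800) (l 16769816)) (l 16765808)) (a (a (a (b (l 16770744) (l 16773344)) (l 16773080)) (l 16771600)) (c (l 16768608) (l 16768600))))), by decide +kernel⟩

def k183_pp_012_a : ∃ t, chk3 f_pp_012_a t 60 30 1 = true :=
  ⟨(l 3), by decide +kernel⟩

def k184_pp_012_a : ∃ t, chk3 f_pp_012_a t 122 60 1 = true :=
  ⟨(b (a (l 3) (b (b (b (a (l 3) (a (l 3) (b (a (l 47949276679) (c (l 16773736) (l 16773640))) (a (l 3) (l 45264921623))))) (l 3)) (l 3)) (l 3))) (l 3)), by decide +kernel⟩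

def k185_pp_012_a : ∃ t, chk3 f_pp_012_a t 123 120 1 = true :=
  ⟨(a (a (b (a (a (b (b (l 16773872) (a (l 47412406103) (l 24326956903))) (l 3)) (b (c (l 16773936) (l 16773520)) (a (l 107005077335) (b (l 61371050039) (l 3))))) (b (l 16773744) (b (c (l 16774232) (l 16773744)) (a (l 105394464919) (a (l 59760437431) (l 16773872)))))) (l 3)) (b (b (l 16772376) (c (l 16774104) (l 16773544))) (a (b (b (a (c (l 49559890423) (l 93046433463)) (l 16774368)) (c (l 91435821335) (a (l 3) (b (l 107005075927) (l 117205625719))))) (l 3)) (b (c (l 16774504) (c (l 16773968) (b (l 16772920) (l 27011311031)))) (b (b (a (c (l 86603983559) (l 139754201959)) (l 16773944)) (a (l 3) (a (l 93583305431) (l 16774496)))) (c (l 106468208455) (l 122037463367))))))) (b (a (a (l 16771584) (l 16771888)) (l 16770376)) (b (a (a (l 16773344) (l 16771360)) (l 16771160)) (a (a (b (a (l 16773632) (l 16773152)) (a (b (c (l 16774176) (l 44191180983)) (a (l 3) (a (l 86067112839) (l 52781116311)))) (c (l 16773856) (l 16774136)))) (c (l 16774064)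 (l 16773400))) (a (a (l 16772000) (l 16771496)) (l 16772048)))))), by decide +kernel⟩

def k186_pp_012_a : ∃ t, chk3 f_pp_012_a t 246 121 1 = true :=
  ⟨(l 3), by decide +kernel⟩

def k187_pp_012_a : ∃ t, chk3 f_pp_012_a t 494 242 1 = true :=
  ⟨(a (b (b (a (l 3) (b (c (l 25937571079) (b (l 51170502999) (l 82309015991))) (c (l 93046435031) (l 117205625847)))) (l 3)) (l 3)) (b (b (c (a (l 16774712) (l 16773552)) (a (c (l 16774440) (b (l 16773824) (l 44191180967))) (l 16773536))) (b (a (c (a (l 3) (l 16775112)) (c (l 87140854519) (l 105931336071))) (c (l 16774072) (l 16774376))) (a (l 3) (a (b (a (a (l 3) (l 141364815495)) (l 8757701943)) (l 151028492103)) (c (l 16774304) (c (l 16774288) (l 38285601159))))))) (a (l 3) (b (b (c (a (l 3) (a (l 3) (l 25400700775))) (c (l 101636369575) (l 113984399815))) (l 3)) (l 3))))), by decide +kernel⟩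

def k188_pp_012_a : ∃ t, chk3 f_pp_012_a t 495 242 1 = true :=
  ⟨(a (b (a (c (l 16774216) (c (l 16774064) (l 16774040))) (c (l 16773552) (l 16773560))) (b (a (a (b (c (l 16774888) (a (b (l 16774352) (l 96804531015)) (l 11442056023))) (b (a (l 3) (l 141364815895)) (l 3))) (b (c (l 16774144) (l 16774136)) (a (b (c (l 16774472) (l 50096761783)) (l 3)) (b (l 16774344) (a (l 130090526743) (b (l 16774448) (l 127943043175))))))) (a (c (l 16774392) (c (l 16774400) (l 16774464))) (c (l 16773816) (l 16774152)))) (a (l 3) (a (b (b (c (l 3925863799) (c (a (l 24326958567) (l 16774448)) (b (l 42043697927) (l 76403436295)))) (b (a (l 3) (l 121500592359)) (l 3))) (l 3)) (a (b (b (l 16774648) (c (l 16774824) (b (l 16774448) (a (a (l 3) (l 147270396231)) (l 16774672))))) (l 3)) (b (c (l 16774280) (l 16774456)) (b (b (c (l 16774496) (c (l 16774504) (l 36674988887))) (a (l 3) (a (l 111300045255) (l 94657046951)))) (l 3)))))))) (a (b (c (l 16773048) (l 16773056)) (b (c (l 16774096) (l 16773776)) (b (c (l 16774288)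 (c (l 16773960) (l 16774304))) (b (c (c (l 16774392) (l 16774552)) (a (c (l 16774352) (l 16774520)) (l 16774104))) (a (b (a (c (l 24863828951) (c (l 16774712) (c (l 57076083623) (l 74255952663)))) (a (l 16774656) (l 16774552))) (a (a (l 3) (l 112373787143)) (c (l 16774584) (c (l 16774512) (c (l 16774520) (l 39896214311)))))) (c (l 16774272) (c (l 16774272) (l 16774288)))))))) (b (l 16772536) (b (a (l 16773712) (l 16773456)) (a (b (l 16773904) (c (l 16774096) (l 16774264))) (c (l 16773672) (l 16774000))))))), by decide +kernel⟩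

def k189_pp_012_a : ∃ t, chk3 f_pp_012_a t 494 243 1 = true :=
  ⟨(l 3), by decide +kernel⟩

def k190_pp_012_a : ∃ t, chk3 f_pp_012_a t 990 243 1 = true :=
  ⟨(l 3), by decide +kernel⟩

def k191_pp_012_a : ∃ t, chk3 f_pp_012_a t 1982 486 1 = true :=
  ⟨(b (b (b (a (a (l 3) (b (a (l 3) (c (l 16774560) (a (l 130627398167) (b (l 16774536) (l 121500592759))))) (l 3))) (c (a (a (l 52781116279) (l 16774480)) (l 16774384)) (c (a (a (l 25400700023) (l 16774648)) (l 16774384)) (a (b (l 16774640) (a (a (l 3) (l 61371051015)) (c (l 16774536) (l 22179474343)))) (l 16774400))))) (a (l 3) (a (b (a (l 3) (c (l 16774616) (l 127406172791))) (l 3)) (c (b (l 21105732455) (a (l 3) (l 57076083639))) (a (b (a (b (l 5536476199) (l 118279367351)) (b (l 16774512) (l 94120176247))) (l 3)) (b (c (l 16774480) (l 16774496)) (a (b (l 94657047223) (l 3)) (b (l 16774624) (l 88751467303))))))))) (l 3)) (l 3)), by decide +kernel⟩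

def k192_pp_012_a : ∃ t, chk3 f_pp_012_a t 1983 1944 1 = true :=
  ⟨(c (a (b (l 16774192) (c (l 16774376) (l 16774488))) (c (l 16774032) (l 16774192))) (c (b (l 16774232) (a (c (l 16774448) (l 16774496)) (l 16774192))) (b (c (l 16774240) (l 16774200)) (a (a (c (l 16774600) (c (l 16774608) (l 16774568))) (l 16774480)) (l 16774288))))), by decide +kernel⟩

def k193_pp_012_a : ∃ t, chk3 f_pp_012_a t 3966 1945 1 = true :=
  ⟨(a (b (a (b (b (c (l 16774576) (c (l 54928599991) (c (l 16774664) (c (l 48486149079) (l 73719081879))))) (l 3)) (l 3)) (c (b (l 16774528) (l 66739760151)) (b (c (l 17884506983) (b (l 16774520) (c (l 16774640) (c (l 16774648) (l 26474441639))))) (b (c (l 62981663719) (c (l 42043698247) (c (l 60834180103) (l 91435822007)))) (l 3))))) (l 3)) (b (b (c (l 16774440) (c (l 16774432) (c (l 16774440) (l 16774448)))) (b (c (l 16774504) (c (l 16774584) (c (l 16774592) (a (l 16774608) (l 16774480))))) (c (a (l 58686696375) (l 16774512)) (c (a (l 56539212727) (l 16774512)) (a (a (b (l 103246981943)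 (l 3)) (a (b (l 16774568) (l 81772145543)) (l 32380021671))) (l 16774608)))))) (b (a (l 3) (b (c (l 25937570711) (c (c (l 16774640) (l 15200152519)) (a (b (c (l 16774568) (l 16774616)) (c (l 38822472663) (c (l 16774640) (l 57076083655)))) (c (l 16774544) (l 16774600))))) (c (l 42580569031) (a (l 3) (c (l 16774624) (b (c (l 16774624) (c (l 16774584) (l 19495119831))) (l 82309016407))))))) (l 3)))), by decide +kernel⟩

def k194_pp_012_a : ∃ t, chk3 f_pp_012_a t 3967 1945 1 = true :=
  ⟨(c (a (b (l 16774352) (a (b (l 16273894215) (a (l 45264923639) (l 22179474391))) (b (l 16774456) (l 16774584)))) (b (l 16774224) (c (l 16774408) (l 16774400)))) (c (b (a (l 16774432) (l 16774224)) (a (b (b (l 16774464) (l 16774544)) (b (a (c (l 16774664) (l 21105732599)) (l 16774520)) (a (a (l 3) (l 16774616)) (l 16774648)))) (c (l 16774400) (l 16774464)))) (b (a (c (l 16774440) (c (l 16774448) (l 16774448))) (l 16774400)) (b (a (b (c (l 16774512) (l 16774512)) (a (c (l 16774584) (c (l 16774552) (l 16774592))) (l 16774480)))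 (c (l 16774400) (l 16774448))) (a (a (b (a (b (a (l 3) (l 24863828951)) (l 3)) (a (b (l 16774576) (l 51707374487)) (l 16774608))) (c (l 49559890999) (l 121500592967))) (b (l 16774568) (a (b (a (l 16774584) (l 16774568)) (l 72645339975)) (l 16774560)))) (a (l 16774528) (l 16774424))))))), by decide +kernel⟩

def k195_pp_012_a : ∃ t, chk3 f_pp_012_a t 1983 973 1 = true :=
  ⟨(b (a (l 3) (b (a (b (b (a (l 3) (a (l 3) (c (l 16774592) (c (l 16774592) (a (l 87677725495) (a (l 58686696263) (l 50096761655))))))) (l 3)) (l 3)) (c (b (a (l 14126410663) (l 16774504)) (a (l 44191181927) (l 18421378007))) (a (a (b (b (c (l 16774560) (c (l 16774608) (l 16774576))) (b (c (l 16774592) (l 81772145447)) (l 3))) (l 3)) (b (c (l 16774552) (c (l 16774560) (c (l 16774568) (l 16774608)))) (c (c (l 16774728) (l 23253216407)) (l 110226303799)))) (b (c (l 16774504) (c (l 16774592) (l 16774520))) (b (c (l 16774656) (a (b (l 16774584) (l 80161532727)) (l 16774568))) (a (l 3) (c (l 16774600) (c (l 16774608) (c (l 16774616) (l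 71034727335)))))))))) (l 3))) (l 3)), by decide +kernel⟩

def k196_pp_012_a : ∃ t, chk3 f_pp_012_a t 991 487 1 = true :=
  ⟨(l 3), by decide +kernel⟩

def k197_pp_012_a : ∃ t, chk3 f_pp_012_a t 61 61 1 = true :=
  ⟨(l 3), by decide +kernel⟩

def k198_pp_012_a : ∃ t, chk3 f_pp_012_a t 30 31 1 = true :=
  ⟨(l 3), by decide +kernel⟩

def k199_pp_012_a : ∃ t, chk3 f_pp_012_a t 31 14 1 = true :=
  ⟨(b (a (b (a (l 16723688) (l 16726632)) (a (b (l 16731440) (l 16736712)) (a (l 16728288) (l 16724416)))) (b (a (l 16708576) (l 16701232)) (a (b (l 16716080) (a (l 16723072) (l 16719208))) (a (b (l 16710328) (l 16725768)) (l 16708984))))) (a (a (b (a (l 16752080) (l 16748152)) (a (b (l 16760304) (c (l 16763248) (l 16763184))) (b (l 16751088) (c (l 16759280) (l 16759160))))) (b (a (l 16744224) (l 16737664)) (a (b (l 16747120) (l 16755200)) (a (a (l 16749984) (l 16748984)) (l 16748624))))) (a (b (a (b (l 16728400) (l 16733752)) (b (l 16724464) (l 16729784))) (a (b (l 16739128) (c (l 16749928) (l 16746968))) (b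 (l 16735112) (l 16740456)))) (a (b (l 16725816) (b (l 16731096) (l 16736384))) (b (b (l 16727128) (l 16721840)) (b (l 16727072) (l 6))))))), by decide +kernel⟩

def k200_pp_012_a : ∃ t, chk3 f_pp_012_a t 124 120 1 = true :=
  ⟨(b (a (c (l 16767392) (l 16767352)) (l 16763336)) (a (a (a (l 16771000) (l 16769336)) (a (l 16768328) (l 16766008))) (a (l 16765800) (l 16762464)))), by decide +kernel⟩

def k201_pp_012_a : ∃ t, chk3 f_pp_012_a t 248 242 1 = true :=
  ⟨(a (b (a (a (l 16772688) (l 16772184)) (l 16771424)) (b (a (c (l 16772504) (l 16772824)) (l 16771808)) (a (a (b (l 16773272) (c (l 16773464) (l 16773624))) (c (l 16772784) (l 16773264))) (c (a (l 16772120) (l 16771616)) (l 16772496))))) (b (a (l 16769096) (l 16768080)) (a (c (l 16770840) (l 16771128)) (a (l 16770056) (l 16769872))))), by decide +kernel⟩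

def k202_pp_012_a : ∃ t, chk3 f_pp_012_a t 1984 972 1 = true :=
  ⟨(b (c (c (l 16773656) (l 16773808)) (c (l 16773808) (c (l 16773976) (l 16773816)))) (b (a (c (l 16774040) (c (l 16774112) (l 16774208))) (a (c (l 16773848) (l 16773928)) (l 16773792))) (a (a (c (l 16774280) (c (l 16774352) (c (l 16774360) (l 16774368)))) (c (l 16774152) (c (l 16774144) (l 16774232)))) (c (l 16773960) (c (l 16774120) (l 16774040)))))), by decide +kernel⟩

def k203_pp_012_a : ∃ t, chk3 f_pp_012_a t 3968 973 1 = true :=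
  ⟨(a (b (b (c (l 16774536) (b (c (l 16774408) (l 16774456)) (c (l 16774560) (c (l 16774504) (c (l 16774512) (c (l 16774552) (l 16774552))))))) (b (c (a (l 34527505415) (l 16774552)) (a (b (c (c (l 16774592) (l 20031990759)) (a (l 94120176423) (c (l 16774592) (l 16774632)))) (c (l 21642603671) (l 114521271079))) (b (c (l 16774528) (l 16774544)) (c (l 16774616) (c (l 16774584) (c (l 16774592) (l 31843150743))))))) (b (a (l 3) (c (l 16774624) (c (l 17884507207) (a (l 127406172967) (c (l 16774616) (c (l 16774616) (l 88751467383))))))) (l 3)))) (l 3)) (b (b (c (l 16774328) (c (l 16774408) (a (l 16774368) (l 16774304)))) (c (b (l 16774456) (l 7683959687)) (c (b (l 16774544) (c (l 16774632) (l 16774632))) (b (c (l 16774464) (l 16774472)) (a (c (l 16774672) (b (l 16774568) (c (l 40969956311) (l 69424114567)))) (l 16774528)))))) (b (b (a (a (l 3) (c (l 16774656) (c (l 16774744) (l 122037463831)))) (c (l 16774608) (c (l 16774688) (c (c (l 16774696) (l 13589539895)) (b (c (l 16774592) (l 45264923511)) (c (l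 73719081943) (l 109689432871))))))) (l 3)) (l 3)))), by decide +kernel⟩

def k204_pp_012_a : ∃ t, chk3 f_pp_012_a t 3969 973 1 = true :=
  ⟨(a (b (b (c (l 16774200) (c (l 16774200) (l 16774208))) (c (l 16774376) (c (l 16774456) (a (l 16774416) (l 16774352))))) (b (c (b (l 16774512) (a (l 16774672) (l 16774568))) (b (c (l 16774672) (c (l 16774520) (l 16774560))) (a (a (b (c (l 16774624) (c (l 16774632) (l 96267660183))) (l 3)) (c (l 16774616) (b (l 9831443431) (b (l 111300045527) (l 3))))) (c (l 16774568) (c (l 16774576) (c (l 16774576) (l 32916892503))))))) (a (l 3) (b (b (c (l 16774632) (c (l 16774640) (c (l 42580569143) (a (l 103783853031) (l 74792823719))))) (l 3)) (l 3))))) (b (c (l 16774248) (c (l 16774240) (c (l 16774168) (l 16774256)))) (c (b (l 16774424) (b (l 16774640) (c (l 16774816) (c (l 16774816) (l 16774816))))) (b (b (l 16774432) (c (l 16774640) (l 16774528))) (a (b (a (b (l 16774592) (b (a (l 86603983591) (l 16774616)) (l 97878272775))) (c (l 16774576) (l 16774640))) (a (l 3) (c (l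 16774672) (l 120426851015)))) (c (l 16774656) (b (l 16774536) (c (l 17347636295) (b (l 16774592) (a (l 90362080279) (l 44191181799))))))))))), by decide +kernel⟩

def k205_pp_012_a : ∃ t, chk3 f_pp_012_a t 1985 486 1 = true :=
  ⟨(b (b (c (l 16773144) (l 16773464)) (a (c (l 16773784) (c (l 16773776) (l 16773776))) (c (l 16773368) (a (l 16773504) (l 16773456))))) (c (a (b (c (l 16773976) (l 16774136)) (c (l 16774496) (c (l 16774448) (l 16774488)))) (b (l 16773720) (a (l 16774296) (l 16774008)))) (a (b (c (l 16774048) (c (l 16774136) (l 16774064))) (b (a (a (l 16774336) (l 16774272)) (l 16774176)) (c (l 16774496) (c (l 16774504) (c (l 16774504) (l 16774480)))))) (b (c (l 16773872) (l 16773720)) (c (l 16774232) (c (l 16774080) (l 16774168))))))), by decide +kernel⟩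

def k206_pp_012_a : ∃ t, chk3 f_pp_012_a t 993 486 1 = true :=
  ⟨(b (a (c (b (l 16772640) (l 16773320)) (b (l 16772784) (a (l 16773264) (l 16773168)))) (c (l 16772640) (c (l 16772616) (l 16772448)))) (b (a (c (l 16773504) (c (l 16773496) (l 16773496))) (c (l 16772832) (l 16772984))) (a (a (c (l 16773984) (c (l 16773976) (l 16773824))) (c (l 16773568) (l 16773560))) (c (l 16773352) (l 16773344))))), by decide +kernel⟩

def k207_pp_012_a : ∃ t, chk3 f_pp_012_a t 992 487 1 = true :=
  ⟨(b (a (a (l 3) (b (b (a (l 3) (b (c (c (l 35601247575) (l 24863829495)) (l 129553656503)) (l 3))) (l 3)) (l 3))) (b (a (b (c (a (a (c (l 21105732935) (l 16774856)) (c (l 16774624) (l 16774784))) (a (l 16774640) (l 16774496))) (b (c (a (c (l 16774616) (l 16774704)) (l 16774488)) (a (a (b (c (l 16774624) (c (l 16774736) (l 48486149079))) (l 117205625543)) (c (l 16774584) (l 16774576))) (l 16774488))) (a (a (l 3) (b (a (l 117742496423) (a (l 89288338087) (l 73182210695))) (l 127406172855))) (c (l 16774576) (a (b (l 16774584)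 (c (l 16774624) (l 46875536343))) (l 16774544)))))) (a (l 3) (b (c (a (l 17347636551) (l 16774632)) (c (a (l 42580569351) (l 16774632)) (a (a (l 3) (l 116131883735)) (b (l 16774640) (c (l 16774648) (l 64592276487)))))) (a (l 3) (a (l 3) (c (l 16774704) (l 125258689223))))))) (c (b (c (l 16774344) (l 16774416)) (c (c (l 16774520) (l 16774680)) (l 16774680))) (c (b (l 16774344) (a (c (l 16774584) (l 16774672)) (l 16774456))) (a (b (l 16774408) (b (l 16774616) (a (b (c (l 16774632) (l 16774616)) (l 112373787335)) (l 16774664)))) (c (l 16774376) (l 16774448)))))) (b (a (l 3) (a (b (c (l 13589540327) (a (l 3) (b (c (l 16774664) (c (l 16774648) (l 54928600119))) (l 122037463735)))) (l 3)) (c (a (l 16774824) (l 16774600)) (c (c (l 16774800) (c (l 16774720) (l 23253216327))) (b (a (c (l 16774608) (l 37211859895)) (l 16774544)) (b (a (l 109689432791) (l 16774608)) (a (l 3) (a (l 74255952951) (l 16774632))))))))) (a (l 3) (b (a (l 3) (a (l 3) (a (l 3) (c (l 16774712) (l 121500592759))))) (l 3)))))) (l 3)),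 by decide +kernel⟩

def k208_pp_012_a : ∃ t, chk3 f_pp_012_a t 1986 487 1 = true :=
  ⟨(b (c (b (c (l 16774216) (a (l 16774336) (l 16774080))) (b (c (l 16774400) (l 16774472)) (a (a (b (l 16774632) (l 11442056743)) (l 16774552)) (l 16774360)))) (a (c (b (l 16774336) (b (l 16774440) (a (b (l 16774808) (l 59223567575)) (l 16774560)))) (b (c (l 16774184) (l 16774272)) (b (c (l 16774440) (l 16774512)) (b (a (a (b (a (l 16774640) (l 16774616)) (l 73182211143)) (l 16774592)) (l 16774496)) (a (a (l 106468207799) (b (l 52781116455) (l 82845887639))) (c (l 16774584) (l 16774592))))))) (b (l 16774008) (c (l 16774280) (c (l 16774288) (l 16774352)))))) (a (b (b (a (l 3) (b (c (l 16774848) (c (l 31306280167) (c (l 76403436487) (a (l 78550920327) (l 16774624))))) (a (l 3) (c (l 16774744) (c (l 85530242215) (l 86603984071)))))) (l 3)) (l 3)) (b (b (c (l 16774704) (c (c (l 16774544) (l 16774624)) (a (b (l 16774544) (a (a (l 57612954727) (l 16774640)) (l 16774592))) (l 16774464)))) (a (b (c (l 16774984) (a (l 127943043783)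 (c (l 16774696) (c (l 66739760215) (l 55465471127))))) (l 3)) (c (l 16774816) (c (c (l 16774656) (l 31306279991)) (a (b (l 16774616) (l 72645340327)) (b (l 16774552) (l 16774632))))))) (b (b (a (l 3) (a (l 3) (c (l 16774752) (c (l 95193918599) (l 84456500423))))) (l 3)) (l 3))))), by decide +kernel⟩

def k209_pp_012_a : ∃ t, chk3 f_pp_012_a t 1987 487 1 = true :=
  ⟨(b (b (c (l 16773704) (c (l 16773536) (l 16773544))) (c (c (l 16774064) (l 16774216)) (c (l 16774056) (c (l 16774064) (l 16774072))))) (b (a (c (l 16774536) (c (l 16774464) (c (l 16774456) (l 16774440)))) (c (l 16774120) (c (l 16774128) (l 16774128)))) (b (a (a (c (c (l 16774704) (l 16774872)) (c (c (l 37211860135) (l 58686696471)) (b (a (l 45264923735) (l 16774600)) (a (l 94657047799) (l 56539212935))))) (c (l 16774576) (c (l 16774576) (l 16774552)))) (c (l 16774384) (c (l 16774392) (l 16774368)))) (c (a (a (l 3) (b (l 16774712) (l 35601247847))) (l 16774560)) (a (c (b (a (l 3) (l 49023020151)) (l 118816238695)) (a (l 3) (b (a (l 69960985767)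 (l 16774640)) (l 88751467783)))) (a (b (l 16774648) (c (l 16774656) (l 35064376359))) (l 16774568))))))), by decide +kernel⟩

def k210_pp_012_a : ∃ t, chk3 f_pp_012_a t 497 243 1 = true :=
  ⟨(b (b (a (a (b (l 16771608) (l 16772288)) (a (l 16771400) (l 16771144))) (c (l 16771200) (l 16770816))) (a (a (c (l 16772832) (a (l 16772776) (l 16772600))) (c (l 16772000) (l 16772296))) (c (l 16771568) (c (l 16771536) (l 16771528))))) (a (a (b (a (c (l 16773504) (l 16773496)) (b (l 16773064) (l 16773416))) (b (c (l 16774072) (c (l 16773744) (l 16773752))) (c (c (l 16774096) (l 16774096)) (c (l 16774264) (c (l 16774264) (l 16774248)))))) (b (c (l 16772952) (l 16773016)) (c (c (l 16773744) (l 16773408)) (c (l 16773736) (l 16773584))))) (b (c (c (l 16772288) (l 16772264)) (c (a (l 16772504) (l 16771664)) (l 16771920))) (a (b (l 16773048) (l 16773400)) (b (l 16772536) (l 16772568)))))), by decide +kernel⟩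

def k211_pp_012_a : ∃ t, chk3 f_pp_012_a t 249 121 1 = true :=
  ⟨(a (b (a (c (l 16768496) (l 16768720)) (c (l 16767120) (l 16767368))) (b (a (b (l 16769984) (a (l 16770448) (l 16769944))) (b (l 16768472) (l 16769832))) (a (b (a (l 16771488) (l 16770656)) (c (c (l 16771976) (l 16771952)) (l 16771936))) (a (b (l 16770144) (l 16771184)) (l 16770480))))) (b (b (l 16765184) (a (l 16766416) (l 16765400))) (b (a (c (l 16767856) (l 16768416)) (l 16767440)) (c (a (l 16769912) (l 16768240)) (a (l 16769768) (l 16768816)))))), by decide +kernel⟩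

def k212_pp_012_a : ∃ t, chk3 f_pp_012_a t 125 60 1 = true :=
  ⟨(b (a (a (c (l 16760456) (l 16760312)) (l 16758840)) (a (l 16755664) (l 16754120))) (a (b (c (a (l 16763912) (l 16761232)) (a (l 16763768) (l 16763672))) (b (a (c (l 16766632) (l 16766496)) (l 16764504)) (a (a (l 16767824) (l 16766144)) (c (l 16764688) (l 16764536))))) (a (b (l 16761712) (a (l 16763672) (l 16762640))) (b (l 16757040) (l 6))))), by decide +kernel⟩

def k213_pp_012_a : ∃ t, chk3 f_pp_012_a t 496 244 1 = true :=
  ⟨(a (l 3) (a (l 3) (a (l 3) (b (b (b (b (a (c (b (l 16774920) (a (l 3) (l 16774816))) (b (a (l 120963721863) (c (l 16774704) (l 53317987463))) (l 129016785639))) (c (l 16774672) (c (l 31306280023) (b (l 16774592) (c (l 50096761991) (l 45801794743)))))) (b (a (l 3) (a (l 3) (c (l 16774776) (c (l 80161533127) (l 73182211335))))) (l 3))) (l 3)) (l 3)) (l 3))))), by decide +kernel⟩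

def k214_pp_012_a : ∃ t, chk3 f_pp_012_a t 994 244 1 = true :=
  ⟨(b (a (a (b (b (c (c (l 16774736) (c (l 16774736) (l 16774736))) (c (a (b (l 16774536) (l 55465471047)) (l 16774504)) (b (l 16774456) (a (b (l 16774632) (c (l 58149825847) (l 62444793111))) (l 16774560))))) (b (a (c (l 86067113463) (c (l 107005078903) (l 97878273543))) (b (c (l 16774728) (c (l 89825208951) (l 44728052903))) (a (l 3) (c (l 16774784) (l 69960985863))))) (l 3))) (l 3)) (b (c (b (l 16774320) (b (l 16774584) (c (l 16774928) (c (l 34527505767) (l 47412407511))))) (b (c (l 16774320) (l 16774296)) (b (a (c (l 16774624) (l 16774600)) (l 16774496)) (b (a (a (l 80161533239) (l 16774744)) (l 16774616)) (a (l 95193918871) (c (l 16774712) (l 37748731111))))))) (a (l 3) (b (b (b (a (l 127406172727) (c (l 16774792) (l 65666018583))) (l 3)) (l 3)) (l 3))))) (b (b (c (l 16773944) (c (l 16773944) (l 16773944))) (c (c (l 16774296) (l 16774296)) (c (l 16774448) (c (l 16774432) (l 16774384))))) (b (c (a (b (c (l 16774680) (l 16774840))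 (c (l 51707375079) (l 73182211351))) (l 16774520)) (a (a (b (b (l 16774656) (c (l 58149825815) (l 56539213111))) (c (l 94120177159) (l 94657048087))) (c (a (b (l 16774624) (l 67276631383)) (l 37211859927)) (b (l 16774568) (a (l 64592276855) (l 40433085703))))) (b (l 16774400) (c (l 16774576) (l 16774552))))) (a (l 3) (b (c (c (l 16774936) (l 46338665735)) (a (b (c (l 16774760) (l 53317987655)) (l 86603984343)) (c (l 16774680) (l 16774656)))) (a (l 3) (c (l 83382758759) (b (l 69424115079) (l 100025757255))))))))) (l 3)), by decide +kernel⟩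

def k215_pp_012_a : ∃ t, chk3 f_pp_012_a t 995 244 1 = true :=
  ⟨(b (a (c (b (l 16773776) (a (c (l 16774688) (c (l 16774600) (l 16774600))) (l 16774352))) (b (c (l 16773776) (l 16773792)) (a (b (l 16774408) (b (l 16774528) (a (c (l 46338665655) (l 33453763911)) (l 16774592)))) (c (l 16774176) (l 16774320))))) (b (c (l 16773104) (l 16773104)) (c (l 16773976) (c (l 16773984) (l 16773960))))) (b (b (a (a (a (b (c (l 112910658839) (c (l 87677726279) (l 85530242695))) (l 3)) (b (c (l 44191182199) (b (l 16774712) (l 66739760535))) (a (l 3) (l 125795559975)))) (a (b (c (l 16774680) (l 16774632)) (c (l 67276631383) (a (l 72108469751) (l 51170504039)))) (c (l 16774640) (b (l 16774512) (l 16774680))))) (c (l 16774496) (c (l 16774312) (l 16774368)))) (a (a (l 3) (a (l 3) (b (c (l 91435822391) (a (l 88214597191) (l 62444793303))) (l 3)))) (c (a (a (c (l 57612954983) (l 79624662135)) (l 23790087479)) (l 16774544)) (a (a (b (l 36674989319) (l 83919629927)) (b (l 16774600) (c (l 16774944) (l 42043698615)))) (c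 (l 16774520) (l 16774488)))))) (b (a (l 3) (a (b (a (l 3) (c (l 98415144535) (l 94657048247))) (l 3)) (a (b (c (l 75866565911) (c (l 47949278791) (l 50096762423))) (l 3)) (b (c (l 16774736) (l 16774688)) (b (a (l 71034727943) (l 16774808)) (l 87677726311)))))) (l 3)))), by decide +kernel⟩

def k216_pp_012_a : ∃ t, chk3 f_pp_012_a t 248 245 1 = true :=
  ⟨(l 3), by decide +kernel⟩

def k217_pp_012_a : ∃ t, chk3 f_pp_012_a t 249 244 1 = true :=
  ⟨(b (a (a (b (c (l 16772672) (l 16772656)) (a (a (l 16773592) (l 16773176)) (l 16773120))) (a (b (a (l 16771936) (l 16771440)) (l 16772280)) (b (l 16771384) (l 16771768)))) (a (c (l 16771320) (l 16771280)) (a (l 16770368) (l 16769856)))) (a (a (a (b (c (a (l 16774136) (l 16773880)) (c (l 16774160) (l 16774136))) (b (c (c (l 16774520) (l 16774584)) (a (a (c (l 16774664) (l 16774800)) (l 16774528)) (l 16774352))) (b (a (a (c (l 82845888055) (l 79087791751)) (c (l 85530241655) (l 40969956759))) (c (l 16774640) (l 16774600))) (a (a (l 3) (c (l 85530242807) (l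 89825210071))) (c (l 51170503911) (a (l 51170504183) (l 16774704))))))) (b (c (l 16773496) (l 16773504)) (c (c (l 16774200) (l 16774512)) (c (l 16774336) (l 16774312))))) (b (c (l 16773064) (l 16773064)) (a (b (l 16773528) (l 16774024)) (l 16773352)))) (a (b (l 16772040) (a (l 16772680) (l 16772168))) (c (l 16771712) (l 16771688))))), by decide +kernel⟩

def k218_pp_012_a : ∃ t, chk3 f_pp_012_a t 249 490 1 = true :=
  ⟨(b (a (b (a (a (b (a (l 3) (a (l 98415144759) (b (l 47949278727) (l 79087791783)))) (l 3)) (a (c (a (b (l 16774792) (l 71571599031)) (l 16774672)) (b (l 16774688) (a (l 71571599079) (l 16774784)))) (c (l 16774568) (c (l 16774544) (l 16774512))))) (a (c (l 16774208) (l 16774168)) (l 16773712))) (a (a (l 3) (a (a (l 3) (c (l 90898952055) (c (l 87677726711) (l 88751468551)))) (b (a (a (l 54391729751) (l 16774832)) (l 16774736)) (a (l 91435822983) (c (l 16774928) (l 53854858919)))))) (a (c (l 16774624) (a (l 16774656) (l 16774376))) (l 16774280)))) (a (c (l 16773456) (l 16773384)) (l 16772432)))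 (a (a (l 3) (a (b (a (b (a (c (l 65129148151) (l 66739760903)) (l 16774912)) (c (l 82309017543) (c (l 81235275799) (l 83919630327)))) (c (l 42580569127) (b (l 16774624) (l 27011313223)))) (a (l 3) (b (a (l 87140855703) (c (l 16774944) (l 49023020743))) (l 98415145063)))) (b (c (l 16774384) (l 16774344)) (b (c (l 16774640) (c (l 16774600) (l 16774576))) (a (a (a (l 73719082823) (l 16775096)) (l 16774840)) (l 16774656)))))) (a (a (c (l 16774064) (l 16774192)) (l 16773736)) (a (l 16773072) (l 16772560))))), by decide +kernel⟩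

def k219_pp_012_a : ∃ t, chk3 f_pp_012_a t 249 491 1 = true :=
  ⟨(a (b (a (l 3) (a (l 3) (a (a (l 3) (b (b (l 72108470119) (l 3)) (l 3))) (b (b (c (l 16774848) (l 16774792)) (a (l 82309017527) (l 45801795271))) (c (l 94120178007) (l 105931337767)))))) (l 3)) (a (a (b (a (a (b (l 16774728) (b (l 55465471783) (l 3))) (b (l 16774608) (b (l 16774856) (l 67276631927)))) (b (l 16774424) (b (l 16774672) (l 16774920)))) (b (b (a (l 3) (a (l 76940308439) (l 16774944))) (c (l 92509565383) (l 104320725127))) (l 3))) (b (c (l 16774408) (l 16774328)) (a (b (a (b (l 16774824) (l 51170504503)) (l 16774784)) (l 6)) (l 6)))) (b (c (l 16773848) (l 16773736)) (l 6)))), by decide +kernel⟩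

def k220_pp_012_a : ∃ t, chk3 f_pp_012_a t 124 123 1 = true :=
  ⟨(a (l 3) (a (l 3) (a (a (l 3) (l 6)) (l 6)))), by decide +kernel⟩

def k221_pp_012_a : ∃ t, chk3 f_pp_012_a t 125 61 1 = true :=
  ⟨(b (a (a (a (b (b (c (l 16768632) (l 16769216)) (a (l 16770928) (l 16770248))) (b (c (l 16772104) (l 16771760)) (l 6))) (b (b (l 16768216) (l 16769640)) (l 6))) (a (b (b (l 16766536) (l 6)) (l 6)) (l 6))) (l 6)) (l 6)), by decide +kernel⟩

def k222_pp_012_a : ∃ t, chk3 f_pp_012_a t 63 30 1 = true :=
  ⟨(a (b (b (a (b (l 16748552) (l 16753872)) (a (l 16746832) (l 6))) (l 6)) (l 6)) (l 6)), by decide +kernel⟩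

def k223_pp_012_a : ∃ t, chk3 f_pp_012_a t 31 31 1 = true :=
  ⟨(a (a (l 3) (l 6)) (l 6)), by decide +kernel⟩

theorem s224_pp_012_a : ∃ t, chk3 f_pp_012_a t 249 245 1 = true := ex3_b k218_pp_012_a k219_pp_012_a

theorem s225_pp_012_a : ∃ t, chk3 f_pp_012_a t 249 122 1 = true := ex3_b k217_pp_012_a s224_pp_012_a

theorem s226_pp_012_a : ∃ t, chk3 f_pp_012_a t 497 244 1 = true := ex3_a k214_pp_012_a k215_pp_012_a

theorem s227_pp_012_a : ∃ t, chk3 f_pp_012_a t 248 244 1 = true := ex3_a k213_pp_012_a s226_pp_012_a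

theorem s228_pp_012_a : ∃ t, chk3 f_pp_012_a t 248 122 1 = true := ex3_b s227_pp_012_a k216_pp_012_a

theorem s229_pp_012_a : ∃ t, chk3 f_pp_012_a t 124 122 1 = true := ex3_a s228_pp_012_a s225_pp_012_a

theorem s230_pp_012_a : ∃ t, chk3 f_pp_012_a t 124 61 1 = true := ex3_b s229_pp_012_a k220_pp_012_a

theorem s231_pp_012_a : ∃ t, chk3 f_pp_012_a t 62 61 1 = true := ex3_a s230_pp_012_a k221_pp_012_a

theorem s232_pp_012_a : ∃ t, chk3 f_pp_012_a t 993 487 1 = true := ex3_a k208_pp_012_a k209_pp_012_a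

theorem s233_pp_012_a : ∃ t, chk3 f_pp_012_a t 496 487 1 = true := ex3_a k207_pp_012_a s232_pp_012_a

theorem s234_pp_012_a : ∃ t, chk3 f_pp_012_a t 1984 973 1 = true := ex3_a k203_pp_012_a k204_pp_012_a

theorem s235_pp_012_a : ∃ t, chk3 f_pp_012_a t 1984 486 1 = true := ex3_b k202_pp_012_a s234_pp_012_a

theorem s236_pp_012_a : ∃ t, chk3 f_pp_012_a t 992 486 1 = true := ex3_a s235_pp_012_a k205_pp_012_a

theorem s237_pp_012_a : ∃ t, chk3 f_pp_012_a t 496 486 1 = true := ex3_a s236_pp_012_a k206_pp_012_a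

theorem s238_pp_012_a : ∃ t, chk3 f_pp_012_a t 496 243 1 = true := ex3_b s237_pp_012_a s233_pp_012_a

theorem s239_pp_012_a : ∃ t, chk3 f_pp_012_a t 248 243 1 = true := ex3_a s238_pp_012_a k210_pp_012_a

theorem s240_pp_012_a : ∃ t, chk3 f_pp_012_a t 248 121 1 = true := ex3_b k201_pp_012_a s239_pp_012_a

theorem s241_pp_012_a : ∃ t, chk3 f_pp_012_a t 124 121 1 = true := ex3_a s240_pp_012_a k211_pp_012_a

theorem s242_pp_012_a : ∃ t, chk3 f_pp_012_a t 124 60 1 = true := ex3_b k200_pp_012_a s241_pp_012_a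

theorem s243_pp_012_a : ∃ t, chk3 f_pp_012_a t 62 60 1 = true := ex3_a s242_pp_012_a k212_pp_012_a

theorem s244_pp_012_a : ∃ t, chk3 f_pp_012_a t 62 30 1 = true := ex3_b s243_pp_012_a s231_pp_012_a

theorem s245_pp_012_a : ∃ t, chk3 f_pp_012_a t 31 30 1 = true := ex3_a s244_pp_012_a k222_pp_012_a

theorem s246_pp_012_a : ∃ t, chk3 f_pp_012_a t 31 15 1 = true := ex3_b s245_pp_012_a k223_pp_012_a

theorem s247_pp_012_a : ∃ t, chk3 f_pp_012_a t 31 7 1 = true := ex3_b k199_pp_012_a s246_pp_012_a

theorem s248_pp_012_a : ∃ t, chk3 f_pp_012_a t 1983 1945 1 = true := ex3_a k193_pp_012_a k194_pp_012_a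

theorem s249_pp_012_a : ∃ t, chk3 f_pp_012_a t 1983 972 1 = true := ex3_b k192_pp_012_a s248_pp_012_a

theorem s250_pp_012_a : ∃ t, chk3 f_pp_012_a t 1983 486 1 = true := ex3_b s249_pp_012_a k195_pp_012_a

theorem s251_pp_012_a : ∃ t, chk3 f_pp_012_a t 991 486 1 = true := ex3_a k191_pp_012_a s250_pp_012_a

theorem s252_pp_012_a : ∃ t, chk3 f_pp_012_a t 991 243 1 = true := ex3_b s251_pp_012_a k196_pp_012_a

theorem s253_pp_012_a : ∃ t, chk3 f_pp_012_a t 495 243 1 = true := ex3_a k190_pp_012_a s252_pp_012_a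

theorem s254_pp_012_a : ∃ t, chk3 f_pp_012_a t 247 243 1 = true := ex3_a k189_pp_012_a s253_pp_012_a

theorem s255_pp_012_a : ∃ t, chk3 f_pp_012_a t 247 242 1 = true := ex3_a k187_pp_012_a k188_pp_012_a

theorem s256_pp_012_a : ∃ t, chk3 f_pp_012_a t 247 121 1 = true := ex3_b s255_pp_012_a s254_pp_012_a

theorem s257_pp_012_a : ∃ t, chk3 f_pp_012_a t 123 121 1 = true := ex3_a k186_pp_012_a s256_pp_012_a

theorem s258_pp_012_a : ∃ t, chk3 f_pp_012_a t 123 60 1 = true := ex3_b k185_pp_012_a s257_pp_012_a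

theorem s259_pp_012_a : ∃ t, chk3 f_pp_012_a t 61 60 1 = true := ex3_a k184_pp_012_a s258_pp_012_a

theorem s260_pp_012_a : ∃ t, chk3 f_pp_012_a t 61 30 1 = true := ex3_b s259_pp_012_a k197_pp_012_a

theorem s261_pp_012_a : ∃ t, chk3 f_pp_012_a t 30 30 1 = true := ex3_a k183_pp_012_a s260_pp_012_a

theorem s262_pp_012_a : ∃ t, chk3 f_pp_012_a t 30 15 1 = true := ex3_b s261_pp_012_a k198_pp_012_a

theorem s263_pp_012_a : ∃ t, chk3 f_pp_012_a t 245 119 1 = true := ex3_a k180_pp_012_a k181_pp_012_a

theorem s264_pp_012_a : ∃ t, chk3 f_pp_012_a t 122 119 1 = true := ex3_a k179_pp_012_a s263_pp_012_a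

theorem s265_pp_012_a : ∃ t, chk3 f_pp_012_a t 244 475 1 = true := ex3_a k176_pp_012_a k177_pp_012_a

theorem s266_pp_012_a : ∃ t, chk3 f_pp_012_a t 244 237 1 = true := ex3_b k175_pp_012_a s265_pp_012_a

theorem s267_pp_012_a : ∃ t, chk3 f_pp_012_a t 244 118 1 = true := ex3_b k174_pp_012_a s266_pp_012_a

theorem s268_pp_012_a : ∃ t, chk3 f_pp_012_a t 122 118 1 = true := ex3_a s267_pp_012_a k178_pp_012_a

theorem s269_pp_012_a : ∃ t, chk3 f_pp_012_a t 122 59 1 = true := ex3_b s268_pp_012_a s264_pp_012_a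

theorem s270_pp_012_a : ∃ t, chk3 f_pp_012_a t 61 59 1 = true := ex3_a s269_pp_012_a k182_pp_012_a

theorem s271_pp_012_a : ∃ t, chk3 f_pp_012_a t 61 29 1 = true := ex3_b k173_pp_012_a s270_pp_012_a

theorem s272_pp_012_a : ∃ t, chk3 f_pp_012_a t 487 473 1 = true := ex3_a k169_pp_012_a k170_pp_012_a

theorem s273_pp_012_a : ∃ t, chk3 f_pp_012_a t 243 473 1 = true := ex3_a k168_pp_012_a s272_pp_012_a

theorem s274_pp_012_a : ∃ t, chk3 f_pp_012_a t 243 236 1 = true := ex3_b k167_pp_012_a s273_pp_012_a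

theorem s275_pp_012_a : ∃ t, chk3 f_pp_012_a t 243 118 1 = true := ex3_b s274_pp_012_a k171_pp_012_a

theorem s276_pp_012_a : ∃ t, chk3 f_pp_012_a t 121 118 1 = true := ex3_a k166_pp_012_a s275_pp_012_a

theorem s277_pp_012_a : ∃ t, chk3 f_pp_012_a t 121 59 1 = true := ex3_b s276_pp_012_a k172_pp_012_a

theorem s278_pp_012_a : ∃ t, chk3 f_pp_012_a t 60 59 1 = true := ex3_a k165_pp_012_a s277_pp_012_a

theorem s279_pp_012_a : ∃ t, chk3 f_pp_012_a t 242 117 1 = true := ex3_a k162_pp_012_a k163_pp_012_a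

theorem s280_pp_012_a : ∃ t, chk3 f_pp_012_a t 121 117 1 = true := ex3_a s279_pp_012_a k164_pp_012_a

theorem s281_pp_012_a : ∃ t, chk3 f_pp_012_a t 121 58 1 = true := ex3_b k161_pp_012_a s280_pp_012_a

theorem s282_pp_012_a : ∃ t, chk3 f_pp_012_a t 60 58 1 = true := ex3_a k160_pp_012_a s281_pp_012_a

theorem s283_pp_012_a : ∃ t, chk3 f_pp_012_a t 60 29 1 = true := ex3_b s282_pp_012_a s278_pp_012_a

theorem s284_pp_012_a : ∃ t, chk3 f_pp_012_a t 30 29 1 = true := ex3_a s283_pp_012_a s271_pp_012_a

theorem s285_pp_012_a : ∃ t, chk3 f_pp_012_a t 30 14 1 = true := ex3_b k159_pp_012_a s284_pp_012_a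

theorem s286_pp_012_a : ∃ t, chk3 f_pp_012_a t 30 7 1 = true := ex3_b s285_pp_012_a s262_pp_012_a

theorem s287_pp_012_a : ∃ t, chk3 f_pp_012_a t 15 7 1 = true := ex3_a s286_pp_012_a s247_pp_012_a

theorem s288_pp_012_a : ∃ t, chk3 f_pp_012_a t 15 6 1 = true := ex3_b k157_pp_012_a k158_pp_012_a

theorem s289_pp_012_a : ∃ t, chk3 f_pp_012_a t 15 3 1 = true := ex3_b s288_pp_012_a s287_pp_012_a

theorem s290_pp_012_a : ∃ t, chk3 f_pp_012_a t 119 57 1 = true := ex3_b k153_pp_012_a k154_pp_012_a

theorem s291_pp_012_a : ∃ t, chk3 f_pp_012_a t 59 57 1 = true := ex3_a k152_pp_012_a s290_pp_012_a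

theorem s292_pp_012_a : ∃ t, chk3 f_pp_012_a t 118 56 1 = true := ex3_b k149_pp_012_a k150_pp_012_a

theorem s293_pp_012_a : ∃ t, chk3 f_pp_012_a t 59 56 1 = true := ex3_a s292_pp_012_a k151_pp_012_a

theorem s294_pp_012_a : ∃ t, chk3 f_pp_012_a t 59 28 1 = true := ex3_b s293_pp_012_a s291_pp_012_a

theorem s295_pp_012_a : ∃ t, chk3 f_pp_012_a t 29 28 1 = true := ex3_a k148_pp_012_a s294_pp_012_a

theorem s296_pp_012_a : ∃ t, chk3 f_pp_012_a t 29 14 1 = true := ex3_b s295_pp_012_a k155_pp_012_a

theorem s297_pp_012_a : ∃ t, chk3 f_pp_012_a t 14 14 1 = true := ex3_a k147_pp_012_a s296_pp_012_a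

theorem s298_pp_012_a : ∃ t, chk3 f_pp_012_a t 14 7 1 = true := ex3_b s297_pp_012_a k156_pp_012_a

theorem s299_pp_012_a : ∃ t, chk3 f_pp_012_a t 58 55 1 = true := ex3_a k144_pp_012_a k145_pp_012_a

theorem s300_pp_012_a : ∃ t, chk3 f_pp_012_a t 58 27 1 = true := ex3_b k143_pp_012_a s299_pp_012_a

theorem s301_pp_012_a : ∃ t, chk3 f_pp_012_a t 29 27 1 = true := ex3_a s300_pp_012_a k146_pp_012_a

theorem s302_pp_012_a : ∃ t, chk3 f_pp_012_a t 29 13 1 = true := ex3_b k142_pp_012_a s301_pp_012_a

theorem s303_pp_012_a : ∃ t, chk3 f_pp_012_a t 29 6 1 = true := ex3_b k141_pp_012_a s302_pp_012_a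

theorem s304_pp_012_a : ∃ t, chk3 f_pp_012_a t 115 109 1 = true := ex3_a k138_pp_012_a k139_pp_012_a

theorem s305_pp_012_a : ∃ t, chk3 f_pp_012_a t 922 217 1 = true := ex3_a k134_pp_012_a k135_pp_012_a

theorem s306_pp_012_a : ∃ t, chk3 f_pp_012_a t 461 217 1 = true := ex3_a s305_pp_012_a k136_pp_012_a

theorem s307_pp_012_a : ∃ t, chk3 f_pp_012_a t 230 217 1 = true := ex3_a k133_pp_012_a s306_pp_012_a

theorem s308_pp_012_a : ∃ t, chk3 f_pp_012_a t 230 108 1 = true := ex3_b k132_pp_012_a s307_pp_012_a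

theorem s309_pp_012_a : ∃ t, chk3 f_pp_012_a t 115 108 1 = true := ex3_a s308_pp_012_a k137_pp_012_a

theorem s310_pp_012_a : ∃ t, chk3 f_pp_012_a t 115 54 1 = true := ex3_b s309_pp_012_a s304_pp_012_a

theorem s311_pp_012_a : ∃ t, chk3 f_pp_012_a t 57 54 1 = true := ex3_a k131_pp_012_a s310_pp_012_a

theorem s312_pp_012_a : ∃ t, chk3 f_pp_012_a t 57 27 1 = true := ex3_b s311_pp_012_a k140_pp_012_a

theorem s313_pp_012_a : ∃ t, chk3 f_pp_012_a t 28 27 1 = true := ex3_a k130_pp_012_a s312_pp_012_a

theorem s314_pp_012_a : ∃ t, chk3 f_pp_012_a t 56 52 1 = true := ex3_b k126_pp_012_a k127_pp_012_a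

theorem s315_pp_012_a : ∃ t, chk3 f_pp_012_a t 56 26 1 = true := ex3_b s314_pp_012_a k128_pp_012_a

theorem s316_pp_012_a : ∃ t, chk3 f_pp_012_a t 28 26 1 = true := ex3_a s315_pp_012_a k129_pp_012_a

theorem s317_pp_012_a : ∃ t, chk3 f_pp_012_a t 28 13 1 = true := ex3_b s316_pp_012_a s313_pp_012_a

theorem s318_pp_012_a : ∃ t, chk3 f_pp_012_a t 28 6 1 = true := ex3_b k125_pp_012_a s317_pp_012_a

theorem s319_pp_012_a : ∃ t, chk3 f_pp_012_a t 14 6 1 = true := ex3_a s318_pp_012_a s303_pp_012_a

theorem s320_pp_012_a : ∃ t, chk3 f_pp_012_a t 14 3 1 = true := ex3_b s319_pp_012_a s298_pp_012_a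

theorem s321_pp_012_a : ∃ t, chk3 f_pp_012_a t 7 3 1 = true := ex3_a s320_pp_012_a s289_pp_012_a

theorem s322_pp_012_a : ∃ t, chk3 f_pp_012_a t 7 2 1 = true := ex3_a k123_pp_012_a k124_pp_012_a

theorem s323_pp_012_a : ∃ t, chk3 f_pp_012_a t 7 1 1 = true := ex3_b s322_pp_012_a s321_pp_012_a

theorem s324_pp_012_a : ∃ t, chk3 f_pp_012_a t 55 25 1 = true := ex3_b k119_pp_012_a k120_pp_012_a

theorem s325_pp_012_a : ∃ t, chk3 f_pp_012_a t 27 25 1 = true := ex3_a k118_pp_012_a s324_pp_012_a

theorem s326_pp_012_a : ∃ t, chk3 f_pp_012_a t 54 49 1 = true := ex3_b k115_pp_012_a k116_pp_012_a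

theorem s327_pp_012_a : ∃ t, chk3 f_pp_012_a t 54 24 1 = true := ex3_b k114_pp_012_a s326_pp_012_a

theorem s328_pp_012_a : ∃ t, chk3 f_pp_012_a t 27 24 1 = true := ex3_a s327_pp_012_a k117_pp_012_a

theorem s329_pp_012_a : ∃ t, chk3 f_pp_012_a t 27 12 1 = true := ex3_b s328_pp_012_a s325_pp_012_a

theorem s330_pp_012_a : ∃ t, chk3 f_pp_012_a t 107 48 1 = true := ex3_a k110_pp_012_a k111_pp_012_a

theorem s331_pp_012_a : ∃ t, chk3 f_pp_012_a t 212 96 1 = true := ex3_b k106_pp_012_a k107_pp_012_a

theorem s332_pp_012_a : ∃ t, chk3 f_pp_012_a t 106 96 1 = true := ex3_a s331_pp_012_a k108_pp_012_a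

theorem s333_pp_012_a : ∃ t, chk3 f_pp_012_a t 106 48 1 = true := ex3_b s332_pp_012_a k109_pp_012_a

theorem s334_pp_012_a : ∃ t, chk3 f_pp_012_a t 53 48 1 = true := ex3_a s333_pp_012_a s330_pp_012_a

theorem s335_pp_012_a : ∃ t, chk3 f_pp_012_a t 53 24 1 = true := ex3_b s334_pp_012_a k112_pp_012_a

theorem s336_pp_012_a : ∃ t, chk3 f_pp_012_a t 26 24 1 = true := ex3_a k105_pp_012_a s335_pp_012_a

theorem s337_pp_012_a : ∃ t, chk3 f_pp_012_a t 26 12 1 = true := ex3_b s336_pp_012_a k113_pp_012_a

theorem s338_pp_012_a : ∃ t, chk3 f_pp_012_a t 13 12 1 = true := ex3_a s337_pp_012_a s329_pp_012_a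

theorem s339_pp_012_a : ∃ t, chk3 f_pp_012_a t 13 6 1 = true := ex3_b s338_pp_012_a k121_pp_012_a

theorem s340_pp_012_a : ∃ t, chk3 f_pp_012_a t 6 6 1 = true := ex3_a k104_pp_012_a s339_pp_012_a

theorem s341_pp_012_a : ∃ t, chk3 f_pp_012_a t 6 3 1 = true := ex3_b s340_pp_012_a k122_pp_012_a

theorem s342_pp_012_a : ∃ t, chk3 f_pp_012_a t 211 47 1 = true := ex3_a k100_pp_012_a k101_pp_012_a

theorem s343_pp_012_a : ∃ t, chk3 f_pp_012_a t 105 47 1 = true := ex3_a k99_pp_012_a s342_pp_012_a

theorem s344_pp_012_a : ∃ t, chk3 f_pp_012_a t 52 47 1 = true := ex3_a k98_pp_012_a s343_pp_012_a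

theorem s345_pp_012_a : ∃ t, chk3 f_pp_012_a t 26 47 1 = true := ex3_a s344_pp_012_a k102_pp_012_a

theorem s346_pp_012_a : ∃ t, chk3 f_pp_012_a t 26 23 1 = true := ex3_b k97_pp_012_a s345_pp_012_a

theorem s347_pp_012_a : ∃ t, chk3 f_pp_012_a t 26 11 1 = true := ex3_b k96_pp_012_a s346_pp_012_a

theorem s348_pp_012_a : ∃ t, chk3 f_pp_012_a t 26 5 1 = true := ex3_b k95_pp_012_a s347_pp_012_a

theorem s349_pp_012_a : ∃ t, chk3 f_pp_012_a t 13 5 1 = true := ex3_a s348_pp_012_a k103_pp_012_a

theorem s350_pp_012_a : ∃ t, chk3 f_pp_012_a t 13 2 1 = true := ex3_b k94_pp_012_a s349_pp_012_a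

theorem s351_pp_012_a : ∃ t, chk3 f_pp_012_a t 51 11 1 = true := ex3_b k92_pp_012_a k93_pp_012_a

theorem s352_pp_012_a : ∃ t, chk3 f_pp_012_a t 101 90 1 = true := ex3_a k88_pp_012_a k89_pp_012_a

theorem s353_pp_012_a : ∃ t, chk3 f_pp_012_a t 101 45 1 = true := ex3_b s352_pp_012_a k90_pp_012_a

theorem s354_pp_012_a : ∃ t, chk3 f_pp_012_a t 50 45 1 = true := ex3_a k87_pp_012_a s353_pp_012_a

theorem s355_pp_012_a : ∃ t, chk3 f_pp_012_a t 403 358 1 = true := ex3_a k83_pp_012_a k84_pp_012_a

theorem s356_pp_012_a : ∃ t, chk3 f_pp_012_a t 201 358 1 = true := ex3_a k82_pp_012_a s355_pp_012_a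

theorem s357_pp_012_a : ∃ t, chk3 f_pp_012_a t 201 179 1 = true := ex3_b s356_pp_012_a k85_pp_012_a

theorem s358_pp_012_a : ∃ t, chk3 f_pp_012_a t 201 89 1 = true := ex3_b k81_pp_012_a s357_pp_012_a

theorem s359_pp_012_a : ∃ t, chk3 f_pp_012_a t 100 89 1 = true := ex3_a k80_pp_012_a s358_pp_012_a

theorem s360_pp_012_a : ∃ t, chk3 f_pp_012_a t 100 44 1 = true := ex3_b k79_pp_012_a s359_pp_012_a

theorem s361_pp_012_a : ∃ t, chk3 f_pp_012_a t 50 44 1 = true := ex3_a s360_pp_012_a k86_pp_012_a

theorem s362_pp_012_a : ∃ t, chk3 f_pp_012_a t 50 22 1 = true := ex3_b s361_pp_012_a s354_pp_012_a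

theorem s363_pp_012_a : ∃ t, chk3 f_pp_012_a t 50 11 1 = true := ex3_b s362_pp_012_a k91_pp_012_a

theorem s364_pp_012_a : ∃ t, chk3 f_pp_012_a t 25 11 1 = true := ex3_a s363_pp_012_a s351_pp_012_a

theorem s365_pp_012_a : ∃ t, chk3 f_pp_012_a t 25 5 1 = true := ex3_b k78_pp_012_a s364_pp_012_a

theorem s366_pp_012_a : ∃ t, chk3 f_pp_012_a t 98 43 1 = true := ex3_b k74_pp_012_a k75_pp_012_a

theorem s367_pp_012_a : ∃ t, chk3 f_pp_012_a t 49 43 1 = true := ex3_a s366_pp_012_a k76_pp_012_a

theorem s368_pp_012_a : ∃ t, chk3 f_pp_012_a t 49 21 1 = true := ex3_b k73_pp_012_a s367_pp_012_a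

theorem s369_pp_012_a : ∃ t, chk3 f_pp_012_a t 49 10 1 = true := ex3_b k72_pp_012_a s368_pp_012_a

theorem s370_pp_012_a : ∃ t, chk3 f_pp_012_a t 97 85 1 = true := ex3_b k69_pp_012_a k70_pp_012_a

theorem s371_pp_012_a : ∃ t, chk3 f_pp_012_a t 97 42 1 = true := ex3_b k68_pp_012_a s370_pp_012_a

theorem s372_pp_012_a : ∃ t, chk3 f_pp_012_a t 96 84 1 = true := ex3_a k65_pp_012_a k66_pp_012_a

theorem s373_pp_012_a : ∃ t, chk3 f_pp_012_a t 96 42 1 = true := ex3_b s372_pp_012_a k67_pp_012_a

theorem s374_pp_012_a : ∃ t, chk3 f_pp_012_a t 48 42 1 = true := ex3_a s373_pp_012_a s371_pp_012_a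

theorem s375_pp_012_a : ∃ t, chk3 f_pp_012_a t 48 21 1 = true := ex3_b s374_pp_012_a k71_pp_012_a

theorem s376_pp_012_a : ∃ t, chk3 f_pp_012_a t 96 41 1 = true := ex3_b k62_pp_012_a k63_pp_012_a

theorem s377_pp_012_a : ∃ t, chk3 f_pp_012_a t 48 41 1 = true := ex3_a s376_pp_012_a k64_pp_012_a

theorem s378_pp_012_a : ∃ t, chk3 f_pp_012_a t 48 20 1 = true := ex3_b k61_pp_012_a s377_pp_012_a

theorem s379_pp_012_a : ∃ t, chk3 f_pp_012_a t 48 10 1 = true := ex3_b s378_pp_012_a s375_pp_012_a

theorem s380_pp_012_a : ∃ t, chk3 f_pp_012_a t 24 10 1 = true := ex3_a s379_pp_012_a s369_pp_012_a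

theorem s381_pp_012_a : ∃ t, chk3 f_pp_012_a t 24 5 1 = true := ex3_b s380_pp_012_a k77_pp_012_a

theorem s382_pp_012_a : ∃ t, chk3 f_pp_012_a t 12 5 1 = true := ex3_a s381_pp_012_a s365_pp_012_a

theorem s383_pp_012_a : ∃ t, chk3 f_pp_012_a t 12 2 1 = true := ex3_b k60_pp_012_a s382_pp_012_a

theorem s384_pp_012_a : ∃ t, chk3 f_pp_012_a t 6 2 1 = true := ex3_a s383_pp_012_a s350_pp_012_a

theorem s385_pp_012_a : ∃ t, chk3 f_pp_012_a t 6 1 1 = true := ex3_b s384_pp_012_a s341_pp_012_a

theorem s386_pp_012_a : ∃ t, chk3 f_pp_012_a t 3 1 1 = true := ex3_a s385_pp_012_a s323_pp_012_a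

theorem s387_pp_012_a : ∃ t, chk3 f_pp_012_a t 191 166 1 = true := ex3_a k54_pp_012_a k55_pp_012_a

theorem s388_pp_012_a : ∃ t, chk3 f_pp_012_a t 191 83 1 = true := ex3_b s387_pp_012_a k56_pp_012_a

theorem s389_pp_012_a : ∃ t, chk3 f_pp_012_a t 95 83 1 = true := ex3_a k53_pp_012_a s388_pp_012_a

theorem s390_pp_012_a : ∃ t, chk3 f_pp_012_a t 95 41 1 = true := ex3_b k52_pp_012_a s389_pp_012_a

theorem s391_pp_012_a : ∃ t, chk3 f_pp_012_a t 47 41 1 = true := ex3_a k51_pp_012_a s390_pp_012_a

theorem s392_pp_012_a : ∃ t, chk3 f_pp_012_a t 47 20 1 = true := ex3_b k50_pp_012_a s391_pp_012_a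

theorem s393_pp_012_a : ∃ t, chk3 f_pp_012_a t 47 10 1 = true := ex3_b s392_pp_012_a k57_pp_012_a

theorem s394_pp_012_a : ∃ t, chk3 f_pp_012_a t 23 10 1 = true := ex3_a k49_pp_012_a s393_pp_012_a

theorem s395_pp_012_a : ∃ t, chk3 f_pp_012_a t 23 5 1 = true := ex3_b s394_pp_012_a k58_pp_012_a

theorem s396_pp_012_a : ∃ t, chk3 f_pp_012_a t 11 5 1 = true := ex3_a k48_pp_012_a s395_pp_012_a

theorem s397_pp_012_a : ∃ t, chk3 f_pp_012_a t 23 9 1 = true := ex3_b k46_pp_012_a k47_pp_012_a

theorem s398_pp_012_a : ∃ t, chk3 f_pp_012_a t 180 153 1 = true := ex3_b k40_pp_012_a k41_pp_012_a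

theorem s399_pp_012_a : ∃ t, chk3 f_pp_012_a t 180 76 1 = true := ex3_b k39_pp_012_a s398_pp_012_a

theorem s400_pp_012_a : ∃ t, chk3 f_pp_012_a t 180 38 1 = true := ex3_b s399_pp_012_a k42_pp_012_a

theorem s401_pp_012_a : ∃ t, chk3 f_pp_012_a t 90 38 1 = true := ex3_a s400_pp_012_a k43_pp_012_a

theorem s402_pp_012_a : ∃ t, chk3 f_pp_012_a t 45 38 1 = true := ex3_a s401_pp_012_a k44_pp_012_a

theorem s403_pp_012_a : ∃ t, chk3 f_pp_012_a t 45 19 1 = true := ex3_b s402_pp_012_a k45_pp_012_a

theorem s404_pp_012_a : ∃ t, chk3 f_pp_012_a t 22 19 1 = true := ex3_a k38_pp_012_a s403_pp_012_a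

theorem s405_pp_012_a : ∃ t, chk3 f_pp_012_a t 44 37 1 = true := ex3_a k35_pp_012_a k36_pp_012_a

theorem s406_pp_012_a : ∃ t, chk3 f_pp_012_a t 44 18 1 = true := ex3_b k34_pp_012_a s405_pp_012_a

theorem s407_pp_012_a : ∃ t, chk3 f_pp_012_a t 22 18 1 = true := ex3_a s406_pp_012_a k37_pp_012_a

theorem s408_pp_012_a : ∃ t, chk3 f_pp_012_a t 22 9 1 = true := ex3_b s407_pp_012_a s404_pp_012_a

theorem s409_pp_012_a : ∃ t, chk3 f_pp_012_a t 11 9 1 = true := ex3_a s408_pp_012_a s397_pp_012_a

theorem s410_pp_012_a : ∃ t, chk3 f_pp_012_a t 11 4 1 = true := ex3_b k33_pp_012_a s409_pp_012_a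

theorem s411_pp_012_a : ∃ t, chk3 f_pp_012_a t 11 2 1 = true := ex3_b s410_pp_012_a s396_pp_012_a

theorem s412_pp_012_a : ∃ t, chk3 f_pp_012_a t 43 36 1 = true := ex3_a k28_pp_012_a k29_pp_012_a

theorem s413_pp_012_a : ∃ t, chk3 f_pp_012_a t 43 18 1 = true := ex3_b s412_pp_012_a k30_pp_012_a

theorem s414_pp_012_a : ∃ t, chk3 f_pp_012_a t 21 18 1 = true := ex3_a k27_pp_012_a s413_pp_012_a

theorem s415_pp_012_a : ∃ t, chk3 f_pp_012_a t 21 9 1 = true := ex3_b s414_pp_012_a k31_pp_012_a

theorem s416_pp_012_a : ∃ t, chk3 f_pp_012_a t 10 9 1 = true := ex3_a k26_pp_012_a s415_pp_012_a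

theorem s417_pp_012_a : ∃ t, chk3 f_pp_012_a t 85 71 1 = true := ex3_a k23_pp_012_a k24_pp_012_a

theorem s418_pp_012_a : ∃ t, chk3 f_pp_012_a t 85 35 1 = true := ex3_b k22_pp_012_a s417_pp_012_a

theorem s419_pp_012_a : ∃ t, chk3 f_pp_012_a t 338 140 1 = true := ex3_a k17_pp_012_a k18_pp_012_a

theorem s420_pp_012_a : ∃ t, chk3 f_pp_012_a t 169 140 1 = true := ex3_a s419_pp_012_a k19_pp_012_a

theorem s421_pp_012_a : ∃ t, chk3 f_pp_012_a t 169 70 1 = true := ex3_b s420_pp_012_a k20_pp_012_a

theorem s422_pp_012_a : ∃ t, chk3 f_pp_012_a t 84 70 1 = true := ex3_a k16_pp_012_a s421_pp_012_a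

theorem s423_pp_012_a : ∃ t, chk3 f_pp_012_a t 84 35 1 = true := ex3_b s422_pp_012_a k21_pp_012_a

theorem s424_pp_012_a : ∃ t, chk3 f_pp_012_a t 42 35 1 = true := ex3_a s423_pp_012_a s418_pp_012_a

theorem s425_pp_012_a : ∃ t, chk3 f_pp_012_a t 168 139 1 = true := ex3_b k12_pp_012_a k13_pp_012_a

theorem s426_pp_012_a : ∃ t, chk3 f_pp_012_a t 168 69 1 = true := ex3_b k11_pp_012_a s425_pp_012_a

theorem s427_pp_012_a : ∃ t, chk3 f_pp_012_a t 84 69 1 = true := ex3_a s426_pp_012_a k14_pp_012_a

theorem s428_pp_012_a : ∃ t, chk3 f_pp_012_a t 84 34 1 = true := ex3_b k10_pp_012_a s427_pp_012_a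

theorem s429_pp_012_a : ∃ t, chk3 f_pp_012_a t 42 34 1 = true := ex3_a s428_pp_012_a k15_pp_012_a

theorem s430_pp_012_a : ∃ t, chk3 f_pp_012_a t 42 17 1 = true := ex3_b s429_pp_012_a s424_pp_012_a

theorem s431_pp_012_a : ∃ t, chk3 f_pp_012_a t 21 17 1 = true := ex3_a s430_pp_012_a k25_pp_012_a

theorem s432_pp_012_a : ∃ t, chk3 f_pp_012_a t 21 8 1 = true := ex3_b k9_pp_012_a s431_pp_012_a

theorem s433_pp_012_a : ∃ t, chk3 f_pp_012_a t 167 69 1 = true := ex3_b k6_pp_012_a k7_pp_012_a

theorem s434_pp_012_a : ∃ t, chk3 f_pp_012_a t 167 34 1 = true := ex3_b k5_pp_012_a s433_pp_012_a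

theorem s435_pp_012_a : ∃ t, chk3 f_pp_012_a t 167 17 1 = true := ex3_b s434_pp_012_a k8_pp_012_a

theorem s436_pp_012_a : ∃ t, chk3 f_pp_012_a t 167 8 1 = true := ex3_b k4_pp_012_a s435_pp_012_a

theorem s437_pp_012_a : ∃ t, chk3 f_pp_012_a t 83 8 1 = true := ex3_a k3_pp_012_a s436_pp_012_a

theorem s438_pp_012_a : ∃ t, chk3 f_pp_012_a t 41 8 1 = true := ex3_a k2_pp_012_a s437_pp_012_a

theorem s439_pp_012_a : ∃ t, chk3 f_pp_012_a t 20 8 1 = true := ex3_a k1_pp_012_a s438_pp_012_a

theorem s440_pp_012_a : ∃ t, chk3 f_pp_012_a t 10 8 1 = true := ex3_a s439_pp_012_a s432_pp_012_a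

theorem s441_pp_012_a : ∃ t, chk3 f_pp_012_a t 10 4 1 = true := ex3_b s440_pp_012_a s416_pp_012_a

theorem s442_pp_012_a : ∃ t, chk3 f_pp_012_a t 10 2 1 = true := ex3_b s441_pp_012_a k32_pp_012_a

theorem s443_pp_012_a : ∃ t, chk3 f_pp_012_a t 5 2 1 = true := ex3_a s442_pp_012_a s411_pp_012_a

theorem s444_pp_012_a : ∃ t, chk3 f_pp_012_a t 5 1 1 = true := ex3_b s443_pp_012_a k59_pp_012_a

theorem s445_pp_012_a : ∃ t, chk3 f_pp_012_a t 2 1 1 = true := ex3_a k0_pp_012_a s444_pp_012_a

theorem s446_pp_012_a : ∃ t, chk3 f_pp_012_a t 1 1 1 = true := ex3_a s445_pp_012_a s386_pp_012_a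

theorem c_pp_012_a : CertB 0 536870912 0 536870912 587336777 62277027 3 eng mog cd0q0 cd1q2a pd1 false true true .pnp 0 1 2
    ndB0q0 ndB1q2a pcB1 cut_pp_012_a Ext.none :=
  certB2 (fam := false) (s1 := true) (s2 := true) (a := 0) (b := 1) (c := 2) (cn := .pnp) (n1 := ndB0q0) (n2 := ndB1q2a) (pc := pcB1) (cut := cut_pp_012_a) (xt := Ext.none) (P1 := 0) (W1 := 536870912) (P2 := 0) (W2 := 536870912) (P3 := 587336777) (W3 := 62277027) (N0 := 3) (En := eng) (mo := mog) (C1 := cd0q0) (C2 := cd1q2a) (C3 := pd1)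
    rfl (fun _ => rfl) s446_pp_012_a

end Pool.Agent.Strip051.G.I5470_6050.Tab.C.BB01

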