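import Pool.Agent.Strip051.G.I5470_6050.Tab
import Pool.Agent.Strip051.PB.ExtD2

/-! # Certificates B20 (generated) -/

set_option linter.all false
set_option maxRecDepth 100000

namespace Pool.Agent.Strip051.G.I5470_6050.Tab.C.BB01

open Pool.Agent.Strip051.PB Pool.Agent.Strip051.PB.T
open Pool.Agent.Strip051.G.I5470_6050.Tab

noncomputable def cut_pp_012_b : Cut := Cut.of [[⟨0, 0, 0, 53687091⟩, ⟨1, 1, 0, 53687091⟩, ⟨2, 1, 0, 53687091⟩]]

noncomputable def f_pp_012_b : ℕ → ℕ → ℕ → ℕ → Bool := onCell 0 536870912 1239849684 370763052 587336777 62277027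
    (rowB 3 eng mog cd0q0 cd1q2b pd1 0 false true true .pnp 0 1 2 (qsf 0 536870912 1239849684 370763052 1) ndB0q0 ndB1q2b pcB1 cut_pp_012_b Ext.none)

def k0_pp_012_b : ∃ t, chk3 f_pp_012_b t 2 1 1 = true :=
  ⟨(a (l 2) (b (b (b (a (a (a (l 2) (l 16460864)) (a (l 16491664) (l 16523208))) (a (b (l 16518928) (l 16559096)) (a (l 16535328) (l 16526328)))) (a (l 2) (a (a (l 16398088) (l 16433648)) (b (l 16457640) (l 16434416))))) (a (l 2) (a (l 2) (b (a (l 2) (l 16352984)) (l 2))))) (l 2))), by decide +kernel⟩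

def k1_pp_012_b : ∃ t, chk3 f_pp_012_b t 3 1 1 = true :=
  ⟨(b (a (b (a (b (a (b (l 16564480) (l 16526632)) (b (l 16611728) (l 16555704))) (a (a (l 16459408) (l 16475528)) (a (l 16492112) (l 16509088)))) (b (a (b (a (l 16610984) (l 16624488)) (l 16585648)) (b (a (l 16637944) (l 16671880)) (a (l 16608072) (l 16622872)))) (a (b (l 16552136) (l 16517384)) (a (l 16560704) (l 16577688))))) (a (b (a (b (l 16404816) (l 16360760)) (a (l 16413104) (l 16433072))) (a (l 2) (b (l 16361344) (l 16318040)))) (b (a (l 16484208) (l 16503592)) (a (b (l 16407016) (l 16368104)) (l 16434224))))) (b (a (a (a (b (b (l 16663608) (l 16636968)) (l 16657448)) (b (b (l 16675720) (l 16650688)) (l 16694200))) (b (b (a (l 16708192) (l 16719176)) (l 16690928)) (b (l 16645592) (l 16619744)))) (b (a (b (b (a (l 16713816) (l 16724016)) (l 16751440)) (l 16715336)) (b (a (b (l 16734048) (l 16725856)) (b (a (l 16741592) (l 16746608)) (l 16757768))) (a (l 16712344) (l 16724344)))) (a (l 16724424) (b (l 16699464) (l 16679304)))))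 (a (a (b (l 16542656) (l 16479280)) (b (b (l 16592888) (l 16565064)) (l 16521104))) (b (a (b (l 16625784) (l 16600472)) (l 16646936)) (a (l 16623888) (l 16705112)))))) (a (a (l 2) (b (b (a (l 16453344) (l 16361400)) (a (l 2) (l 16283600))) (l 2))) (a (b (a (b (l 16412912) (l 16343568)) (b (l 16460320) (l 16397216))) (a (l 2) (b (l 16331600) (l 2)))) (b (b (a (l 16505376) (l 16613280)) (a (l 16447640) (l 16498640))) (a (b (l 16388224) (l 16326792)) (a (l 16402280) (l 16432248))))))), by decide +kernel⟩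

theorem s2_pp_012_b : ∃ t, chk3 f_pp_012_b t 1 1 1 = true := ex3_a k0_pp_012_b k1_pp_012_b

theorem c_pp_012_b : CertB 0 536870912 1239849684 370763052 587336777 62277027 3 eng mog cd0q0 cd1q2b pd1 false true true .pnp 0 1 2
    ndB0q0 ndB1q2b pcB1 cut_pp_012_b Ext.none :=
  certB0 (fam := false) (s1 := true) (s2 := true) (a := 0) (b := 1) (c := 2) (cn := .pnp) (n1 := ndB0q0) (n2 := ndB1q2b) (pc := pcB1) (cut := cut_pp_012_b) (xt := Ext.none) (P1 := 0) (W1 := 536870912) (P2 := 1239849684) (W2 := 370763052) (P3 := 587336777) (W3 := 62277027) (N0 := 3) (En := eng) (mo := mog) (C1 := cd0q0) (C2 := cd1q2b) (C3 := pd1)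
    rfl s2_pp_012_b

noncomputable def cut_pp_022_a : Cut := Cut.of [[⟨0, 0, 0, 67108864⟩, ⟨1, 1, 0, 67108864⟩, ⟨2, 1, 0, 67108864⟩]]

noncomputable def f_pp_022_a : ℕ → ℕ → ℕ → ℕ → Bool := onCell 1073741824 536870912 0 536870912 587336777 62277027
    (rowB 3 eng mog cd0q0 cd1q2a pd2 2 false true true .pp 0 2 2 (qsf 0 536870912 0 536870912 2) ndB0q0 ndB1q2a pcB2 cut_pp_022_a Ext.none)

def k0_pp_022_a : ∃ t, chk3 f_pp_022_a t 8 2 1 = true :=
  ⟨(b (b (a (l 16525616) (l 16495472)) (a (c (l 16571232) (l 16527616)) (b (l 16508680) (l 16519488)))) (b (a (b (c (l 16567296) (l 16547296)) (a (c (l 16586496) (l 16565752)) (l 16557632))) (b (a (l 16535480) (l 16527144)) (a (l 16548752) (l 16539472)))) (a (b (a (c (b (l 16577400) (l 16585584)) (b (l 16576888) (l 16584800))) (b (l 16568576) (l 16576208))) (b (a (c (a (l 16596096) (l 16591848)) (l 16593096)) (c (l 16585088) (l 16582600))) (a (c (a (l 16610104) (l 16600408)) (a (l 16604336) (l 16599040))) (c (l 16593336) (l 16590760))))) (b (a (b (l 16559104)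 (l 16566336)) (b (l 16549184) (l 16555992))) (a (b (l 16573832) (l 16581560)) (b (l 16563056) (l 16570320))))))), by decide +kernel⟩

def k1_pp_022_a : ∃ t, chk3 f_pp_022_a t 8 3 1 = true :=
  ⟨(b (b (a (b (a (a (a (c (b (l 16615016) (l 16619104)) (l 16619528)) (b (l 16612592) (l 16621864))) (b (c (l 16609208) (l 16607864)) (l 16620472))) (b (c (l 16612288) (l 16599216)) (c (l 16620976) (l 16608000)))) (b (a (a (c (a (l 16623424) (l 16631440)) (l 16632616)) (l 16627240)) (a (l 16621440) (l 16615464))) (c (a (a (a (l 16643488) (l 16641168)) (l 16637080)) (l 16628544)) (a (l 16639512) (l 16626440))))) (b (a (b (l 16589528) (l 16608224)) (b (l 16577792) (l 16585504))) (a (b (l 16606200) (l 16614848)) (b (l 16593416) (l 16601488))))) (b (a (c (a (a (b (l 16646816) (l 16661840)) (l 16641296)) (b (l 16637800) (l 16647272))) (b (a (l 16649488) (l 16635800)) (a (l 16659800) (l 16645472)))) (a (b (l 16623560) (l 16632480)) (b (l 16609576) (l 16617824)))) (a (a (c (a (b (l 16671680) (l 16681728)) (l 16671704))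 (b (l 16669944) (l 16690168))) (b (l 16656288) (l 16676416))) (a (b (l 16662528) (l 16668168)) (b (l 16636640) (a (l 16638392) (l 16630072))))))) (b (b (a (b (a (a (a (l 16692704) (l 16690408)) (l 16686824)) (a (l 16679688) (l 16671768))) (b (a (a (l 16698976) (l 16694128)) (l 16683232)) (l 6))) (a (a (b (l 16663640) (l 16672936)) (b (l 16655296) (l 16664104))) (b (a (l 16646728) (l 16637920)) (a (b (l 16652984) (l 6)) (b (l 16643768) (l 16647520)))))) (a (l 6) (a (l 6) (a (l 6) (b (l 16652560) (l 1)))))) (a (l 6) (a (l 6) (l 1))))), by decide +kernel⟩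

def k2_pp_022_a : ∃ t, chk3 f_pp_022_a t 9 1 1 = true :=
  ⟨(b (b (b (a (l 16484584) (l 16472800)) (a (a (l 16503520) (l 16496008)) (c (l 16480560) (b (l 16478808) (l 16485216))))) (b (a (c (b (l 16515560) (l 16527192)) (b (l 16511688) (l 16521928))) (b (a (l 16500680) (l 16491576)) (a (l 16510296) (l 16500264)))) (b (a (a (b (l 16538936) (l 16545336)) (b (l 16528520) (l 16534464))) (a (b (l 16517976) (l 16523408)) (b (l 16507200) (l 16512064)))) (a (a (b (l 16551936) (l 16558728)) (b (l 16540592) (l 16546872))) (a (c (l 16536024) (b (l 16523992) (l 16529464))) (c (l 16524360) (b (l 16511296) (l 16516008)))))))) (b (b (a (b (a (b (l 16565704) (l 16572864)) (b (l 16553288) (l 16559840))) (a (b (l 16580208) (l 16587640)) (c (b (l 16570496) (l 16577272)) (b (l 16561784) (l 16568440))))) (b (a (c (l 16561112) (b (l 16535056) (l 16540760))) (a (b (l 16530448) (l 16535680)) (b (l 16523544) (l 1)))) (a (a (b (l 16555840) (l 16561912)) (b (l 16548488) (l 16554096))) (l 1)))) (a (b (a (b (l 16595024)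 (c (l 16605864) (l 16598600))) (b (c (l 16583984) (l 16574928)) (a (l 16590504) (l 16582200)))) (a (b (a (l 16614112) (l 16605808)) (a (l 16621512) (l 16612696))) (b (a (l 16597256) (l 1)) (l 1)))) (a (b (b (c (l 16568824) (l 16568248)) (l 1)) (l 1)) (l 1)))) (b (a (b (a (b (a (l 16628824) (l 16619440)) (a (l 16635976) (l 1))) (l 1)) (l 1)) (l 1)) (l 1)))), by decide +kernel⟩

def k3_pp_022_a : ∃ t, chk3 f_pp_022_a t 5 1 1 = true :=
  ⟨(b (a (b (b (a (b (l 16458952) (l 16461528)) (l 1)) (a (c (b (l 16467624) (l 16473728)) (b (l 16462520) (l 16467064))) (l 1))) (a (b (b (a (l 16482200) (l 16472352)) (a (l 16489888) (l 16478960))) (a (b (b (l 16496032) (c (l 16505152) (l 16494176))) (c (l 16512152) (b (l 16497976) (l 1)))) (l 1))) (l 1))) (l 1)) (b (l 1) (l 1))), by decide +kernel⟩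

def k4_pp_022_a : ∃ t, chk3 f_pp_022_a t 3 1 1 = true :=
  ⟨(l 1), by decide +kernel⟩

theorem s5_pp_022_a : ∃ t, chk3 f_pp_022_a t 8 1 1 = true := ex3_b k0_pp_022_a k1_pp_022_a

theorem s6_pp_022_a : ∃ t, chk3 f_pp_022_a t 4 1 1 = true := ex3_a s5_pp_022_a k2_pp_022_a

theorem s7_pp_022_a : ∃ t, chk3 f_pp_022_a t 2 1 1 = true := ex3_a s6_pp_022_a k3_pp_022_a

theorem s8_pp_022_a : ∃ t, chk3 f_pp_022_a t 1 1 1 = true := ex3_a s7_pp_022_a k4_pp_022_a

theorem c_pp_022_a : CertB 0 536870912 0 536870912 587336777 62277027 3 eng mog cd0q0 cd1q2a pd2 false true true .pp 0 2 2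
    ndB0q0 ndB1q2a pcB2 cut_pp_022_a Ext.none :=
  certB2 (fam := false) (s1 := true) (s2 := true) (a := 0) (b := 2) (c := 2) (cn := .pp) (n1 := ndB0q0) (n2 := ndB1q2a) (pc := pcB2) (cut := cut_pp_022_a) (xt := Ext.none) (P1 := 0) (W1 := 536870912) (P2 := 0) (W2 := 536870912) (P3 := 587336777) (W3 := 62277027) (N0 := 3) (En := eng) (mo := mog) (C1 := cd0q0) (C2 := cd1q2a) (C3 := pd2)
    rfl (fun _ => rfl) s8_pp_022_a

noncomputable def cut_pp_022_b : Cut := Cut.of [[⟨0, 0, 0, 67108864⟩, ⟨1, 1, 0, 67108864⟩, ⟨2, 1, 0, 67108864⟩]]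

noncomputable def f_pp_022_b : ℕ → ℕ → ℕ → ℕ → Bool := onCell 0 536870912 1073741824 536870912 587336777 62277027
    (rowB 3 eng mog cd0q0 cd1q2b pd2 1 false true true .pp 0 2 2 (qsf 0 536870912 1239849684 370763052 2) ndB0q0 ndB1q2b pcB2 cut_pp_022_b Ext.none)

def k0_pp_022_b : ∃ t, chk3 f_pp_022_b t 1 1 1 = true :=
  ⟨(b (a (a (b (a (b (l 1) (a (b (l 1) (l 172368596103)) (b (l 136398288951) (l 16466224)))) (b (a (b (l 1) (l 96133021447)) (c (l 16600016) (l 16590496))) (a (l 16528472) (l 16437024)))) (b (b (a (a (l 16482464) (l 16401824)) (l 16370456)) (a (a (l 16455088) (l 16338344)) (l 16353440))) (a (a (b (l 16335984) (l 16286064)) (l 16264872)) (l 16235560)))) (b (b (a (a (l 16610872) (l 16522616)) (a (l 16441784) (l 16390256))) (a (a (l 16372336) (l 16315008)) (l 16360584))) (b (a (b (l 16275224) (l 16203992)) (l 16426440)) (a (l 16123480) (l 16117680))))) (a (b (a (b (a (l 16347328) (l 16312840)) (l 16256968)) (b (a (l 16307144) (l 16308720)) (l 16266936))) (b (a (l 16220784) (l 16230784))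 (a (l 16151368) (l 16208424)))) (b (a (b (a (l 16315960) (l 16325896)) (l 16295928)) (b (l 16349816) (l 16337160))) (a (b (l 16275776) (l 2)) (l 2))))) (a (b (a (b (a (l 16371104) (l 16130544)) (a (b (l 16153200) (l 16144480)) (l 16097384))) (b (a (l 16050408) (l 16020688)) (a (l 16042720) (l 15973640)))) (a (b (a (l 16152312) (l 16131616)) (a (l 16188928) (l 16190688))) (b (l 16098456) (l 2)))) (b (a (b (l 16175088) (l 2)) (l 2)) (l 2)))), by decide +kernel⟩

theorem c_pp_022_b : CertB 0 536870912 1239849684 370763052 587336777 62277027 3 eng mog cd0q0 cd1q2b pd2 false true true .pp 0 2 2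
    ndB0q0 ndB1q2b pcB2 cut_pp_022_b Ext.none :=
  certB1 (fam := false) (s1 := true) (s2 := true) (a := 0) (b := 2) (c := 2) (cn := .pp) (n1 := ndB0q0) (n2 := ndB1q2b) (pc := pcB2) (cut := cut_pp_022_b) (xt := Ext.none) (P1 := 0) (W1 := 536870912) (P2 := 1239849684) (W2 := 370763052) (P3 := 587336777) (W3 := 62277027) (N0 := 3) (En := eng) (mo := mog) (C1 := cd0q0) (C2 := cd1q2b) (C3 := pd2)
    rfl (fun _ => rfl) k0_pp_022_b

noncomputable def f_pp_023 : ℕ → ℕ → ℕ → ℕ → Bool := onCell 0 536870912 1073741824 536870912 587336777 62277027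
    (rowB 3 eng mog cd0q0 cd1q3 pd2 1 false true true .up 0 2 3 (qsf 0 536870912 1610612736 536870912 2) ndB0q0 ndB1q3 pcB2 Cut.none Ext.none)

def k0_pp_023 : ∃ t, chk3 f_pp_023 t 1 1 1 = true :=
  ⟨(b (a (a (l 1) (b (l 1) (b (l 1) (l 254509405255)))) (a (b (a (l 1) (l 227666266311)) (a (l 271152807655) (b (l 16239760) (l 16221600)))) (b (a (l 199749051463) (l 226592579783)) (b (a (l 16289152) (l 16347536)) (l 16362760))))) (a (b (a (b (l 1) (l 235719072423)) (b (l 16261312) (l 253435502855))) (a (b (l 278131902567) (l 325913340423)) (b (l 16079120) (l 16294936)))) (b (a (b (l 16171040) (l 16258728)) (b (l 16455976) (l 16533752))) (a (b (l 16418520) (l 16528360)) (a (l 16605208) (l 16652984)))))), by decide +kernel⟩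

theorem c_pp_023 : CertB 0 536870912 1610612736 536870912 587336777 62277027 3 eng mog cd0q0 cd1q3 pd2 false true true .up 0 2 3
    ndB0q0 ndB1q3 pcB2 Cut.none Ext.none :=
  certB1 (fam := false) (s1 := true) (s2 := true) (a := 0) (b := 2) (c := 3) (cn := .up) (n1 := ndB0q0) (n2 := ndB1q3) (pc := pcB2) (cut := Cut.none) (xt := Ext.none) (P1 := 0) (W1 := 536870912) (P2 := 1610612736) (W2 := 536870912) (P3 := 587336777) (W3 := 62277027) (N0 := 3) (En := eng) (mo := mog) (C1 := cd0q0) (C2 := cd1q3) (C3 := pd2)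
    rfl (fun _ => rfl) k0_pp_023

noncomputable def f_pp_033 : ℕ → ℕ → ℕ → ℕ → Bool := onCell 1610612736 536870912 1610612736 536870912 587336777 62277027
    (rowB 3 eng mog cd0q0 cd1q3 pd3 2 false true true .pnn 0 3 3 (qsf 0 536870912 1610612736 536870912 3) ndB0q0 ndB1q3 pcB3 Cut.none Ext.none)

def k0_pp_033 : ∃ t, chk3 f_pp_033 t 1 1 1 = true :=
  ⟨(a (a (b (b (a (b (l 16184008) (l 16195648)) (b (l 464425920039) (l 16221632))) (a (b (l 16311880) (l 16418208)) (b (l 16317400) (l 16403896)))) (b (a (b (l 16510664) (l 16587368)) (b (l 16485040) (l 16556832))) (a (l 16664000) (l 16639312)))) (a (b (b (b (l 1) (l 483216330119)) (b (l 418255636391) (l 16412400))) (b (b (l 16473856) (l 16534552)) (b (l 16590440) (l 16639352)))) (l 4))) (l 4)), by decide +kernel⟩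

theorem c_pp_033 : CertB 0 536870912 1610612736 536870912 587336777 62277027 3 eng mog cd0q0 cd1q3 pd3 false true true .pnn 0 3 3
    ndB0q0 ndB1q3 pcB3 Cut.none Ext.none :=
  certB2 (fam := false) (s1 := true) (s2 := true) (a := 0) (b := 3) (c := 3) (cn := .pnn) (n1 := ndB0q0) (n2 := ndB1q3) (pc := pcB3) (cut := Cut.none) (xt := Ext.none) (P1 := 0) (W1 := 536870912) (P2 := 1610612736) (W2 := 536870912) (P3 := 587336777) (W3 := 62277027) (N0 := 3) (En := eng) (mo := mog) (C1 := cd0q0) (C2 := cd1q3) (C3 := pd3)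
    rfl (fun _ => rfl) k0_pp_033

noncomputable def f_pp_101 : ℕ → ℕ → ℕ → ℕ → Bool := onCell 536870912 536870912 536870912 536870912 587336777 62277027
    (rowB 3 eng mog cd0q1 cd1q1 pd0 0 false true true .npn 1 0 1 (qsf 536870912 536870912 536870912 536870912 0) ndB0q1 ndB1q1 pcB0 Cut.none Ext.none)

def k0_pp_101 : ∃ t, chk3 f_pp_101 t 1 1 1 = true :=
  ⟨(l 3), by decide +kernel⟩

theorem c_pp_101 : CertB 536870912 536870912 536870912 536870912 587336777 62277027 3 eng mog cd0q1 cd1q1 pd0 false true true .npn 1 0 1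
    ndB0q1 ndB1q1 pcB0 Cut.none Ext.none :=
  certB0 (fam := false) (s1 := true) (s2 := true) (a := 1) (b := 0) (c := 1) (cn := .npn) (n1 := ndB0q1) (n2 := ndB1q1) (pc := pcB0) (cut := Cut.none) (xt := Ext.none) (P1 := 536870912) (W1 := 536870912) (P2 := 536870912) (W2 := 536870912) (P3 := 587336777) (W3 := 62277027) (N0 := 3) (En := eng) (mo := mog) (C1 := cd0q1) (C2 := cd1q1) (C3 := pd0)
    rfl k0_pp_101

noncomputable def f_pp_102_a : ℕ → ℕ → ℕ → ℕ → Bool := onCell 0 536870912 0 536870912 587336777 62277027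
    (rowB 3 eng mog cd0q1 cd1q2a pd0 2 false true true .npp 1 0 2 (qsf 536870912 536870912 0 536870912 0) ndB0q1 ndB1q2a pcB0 Cut.none Ext.none)

def k0_pp_102_a : ∃ t, chk3 f_pp_102_a t 1 1 1 = true :=
  ⟨(a (b (l 3) (l 3)) (l 3)), by decide +kernel⟩

theorem c_pp_102_a : CertB 536870912 536870912 0 536870912 587336777 62277027 3 eng mog cd0q1 cd1q2a pd0 false true true .npp 1 0 2
    ndB0q1 ndB1q2a pcB0 Cut.none Ext.none :=
  certB2 (fam := false) (s1 := true) (s2 := true) (a := 1) (b := 0) (c := 2) (cn := .npp) (n1 := ndB0q1) (n2 := ndB1q2a) (pc := pcB0) (cut := Cut.none) (xt := Ext.none) (P1 := 536870912) (W1 := 536870912) (P2 := 0) (W2 := 536870912) (P3 := 587336777) (W3 := 62277027) (N0 := 3) (En := eng) (mo := mog) (C1 := cd0q1) (C2 := cd1q2a) (C3 := pd0)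
    rfl (fun _ => rfl) k0_pp_102_a

noncomputable def f_pp_102_b : ℕ → ℕ → ℕ → ℕ → Bool := onCell 536870912 536870912 0 536870912 587336777 62277027
    (rowB 3 eng mog cd0q1 cd1q2b pd0 1 false true true .npp 1 0 2 (qsf 536870912 536870912 1239849684 370763052 0) ndB0q1 ndB1q2b pcB0 Cut.none Ext.none)

def k0_pp_102_b : ∃ t, chk3 f_pp_102_b t 1 1 1 = true :=
  ⟨(a (l 3) (l 3)), by decide +kernel⟩

theorem c_pp_102_b : CertB 536870912 536870912 1239849684 370763052 587336777 62277027 3 eng mog cd0q1 cd1q2b pd0 false true true .npp 1 0 2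
    ndB0q1 ndB1q2b pcB0 Cut.none Ext.none :=
  certB1 (fam := false) (s1 := true) (s2 := true) (a := 1) (b := 0) (c := 2) (cn := .npp) (n1 := ndB0q1) (n2 := ndB1q2b) (pc := pcB0) (cut := Cut.none) (xt := Ext.none) (P1 := 536870912) (W1 := 536870912) (P2 := 1239849684) (W2 := 370763052) (P3 := 587336777) (W3 := 62277027) (N0 := 3) (En := eng) (mo := mog) (C1 := cd0q1) (C2 := cd1q2b) (C3 := pd0)
    rfl (fun _ => rfl) k0_pp_102_b

noncomputable def f_pp_112_a : ℕ → ℕ → ℕ → ℕ → Bool := onCell 536870912 536870912 0 536870912 587336777 62277027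
    (rowB 3 eng mog cd0q1 cd1q2a pd1 2 false true true .dn 1 1 2 (qsf 536870912 536870912 0 536870912 1) ndB0q1 ndB1q2a pcB1 Cut.none Ext.none)

def k0_pp_112_a : ∃ t, chk3 f_pp_112_a t 8 2 1 = true :=
  ⟨(l 3), by decide +kernel⟩

def k1_pp_112_a : ∃ t, chk3 f_pp_112_a t 18 8 1 = true :=
  ⟨(l 3), by decide +kernel⟩

def k2_pp_112_a : ∃ t, chk3 f_pp_112_a t 38 16 1 = true :=
  ⟨(l 3), by decide +kernel⟩

def k3_pp_112_a : ∃ t, chk3 f_pp_112_a t 78 32 1 = true :=
  ⟨(b (a (l 3) (b (a (l 3) (b (a (l 3) (b (a (b (b (b (a (l 3) (a (l 3) (a (l 148881014135) (l 113984404823)))) (l 3)) (l 3)) (l 3)) (b (a (a (b (b (l 16776888) (a (l 142975434103) (l 108078824791))) (l 174113947111)) (b (l 16776856) (b (a (l 137606724967) (l 102710115655)) (l 168208366903)))) (a (b (l 16776808) (b (l 16776872) (a (l 130627403111) (l 96804535623)))) (l 16776800))) (a (l 3) (b (a (l 168208367063) (b (a (l 124721823063) (l 16776896)) (l 160155303239))) (l 3))))) (l 3))) (l 3))) (l 3))) (l 3)), by decide +kernel⟩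

def k4_pp_112_a : ∃ t, chk3 f_pp_112_a t 316 128 1 = true :=
  ⟨(a (b (a (b (b (l 16776648) (a (a (b (a (b (l 16776872) (l 119353113943)) (l 16776872)) (c (l 160155303495) (l 164987141447))) (b (l 16776832) (b (c (l 102173244983) (l 105931341095)) (c (l 148881014327) (l 153712852295))))) (c (l 81772150343) (c (l 83919633783) (l 85530246423))))) (b (b (a (l 3) (a (c (l 154249723447) (c (l 158007819639) (l 160692174071))) (b (l 96267664663) (c (l 140827950679) (l 145122917719))))) (l 3)) (l 3))) (b (l 16776504) (a (b (b (c (l 16776904) (l 84993375479)) (a (a (l 166597754135) (b (l 124721823047) (l 3))) (b (l 16776872) (c (l 132238016071) (l 136532983095))))) (l 3)) (b (l 78014053607) (b (a (b (c (l 127943048759) (l 132238015799)) (l 3)) (b (l 16776864) (c (l 124184952375) (l 127943048487)))) (l 174650817991)))))) (l 3)) (a (b (b (l 16776224) (b (l 16776592) (b (l 16776752) (a (a (b (c (l 119889985063) (l 123648081191)) (l 167671495943)) (a (b (l 16776864) (l 131164273975)) (l 16776856))) (l 16776800)))))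 (b (a (c (l 174650818103) (l 179482656055)) (b (b (a (b (c (l 109689437719) (l 113447533831)) (l 159618432295)) (c (l 95730794007) (l 98952019207))) (c (l 163376528951) (l 168745237799))) (l 3))) (l 3))) (b (l 16776192) (b (b (a (b (l 16776784) (a (b (l 103246986503) (l 151028497719)) (l 91972697335))) (l 16776720)) (a (c (l 164450270775) (c (l 168745237863) (c (l 170355850503) (l 171429592263)))) (b (a (b (l 94657051895) (l 142438563111)) (l 16776832)) (a (l 3) (b (l 138143595815) (l 3)))))) (l 3))))), by decide +kernel⟩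

def k5_pp_112_a : ∃ t, chk3 f_pp_112_a t 317 128 1 = true :=
  ⟨(b (l 16778048) (a (a (b (a (a (b (l 16776632) (b (l 16776784) (b (l 16776848) (l 133848628503)))) (l 16776680)) (l 16776584)) (b (a (a (l 3) (b (b (l 129553661207) (l 175724559511)) (l 3))) (b (a (b (l 16776840) (l 125258693895)) (l 16776808)) (a (l 172503334279) (b (l 120963726583) (l 166597754071))))) (l 3))) (b (l 16776384) (a (a (b (c (l 89825213959) (c (l 91972697463) (l 93583310039))) (l 170892721559)) (b (l 16776752) (b (b (l 110763179239) (l 158007819463)) (l 3)))) (b (l 16776664) (b (c (l 88751472119) (l 91972697319)) (a (l 161229044983) (a (l 135459241223) (l 114521275655)))))))) (a (a (b (l 16776168) (c (l 75866570215) (l 78550924503))) (l 16776280)) (l 16776064)))), by decide +kernel⟩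

def k6_pp_112_a : ∃ t, chk3 f_pp_112_a t 158 129 1 = true :=
  ⟨(b (a (l 3) (a (l 3) (b (a (b (b (a (a (l 155323464983) (a (l 127943048471) (l 107541953783))) (l 16776784)) (a (l 3) (a (c (l 146733530647) (l 151028497639)) (c (l 110763179527) (l 114521275607))))) (l 3)) (b (l 16776664) (b (a (a (c (l 140291079719) (l 145122917639)) (c (l 104857599479) (l 108615695543))) (l 16776760)) (a (l 173040205175) (a (c (l 134385499687) (l 138680466663)) (l 101099502791)))))) (a (l 3) (c (l 174650818039) (l 179482655975)))))) (l 3)), by decide +kernel⟩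

def k7_pp_112_a : ∃ t, chk3 f_pp_112_a t 159 64 1 = true :=
  ⟨(b (c (l 16776880) (l 16776520)) (a (a (b (b (c (l 16776496) (l 16776288)) (a (a (b (b (a (c (l 128479919639) (l 132774886615)) (l 95193922727)) (l 163913399639)) (l 3)) (b (a (b (l 16776760) (c (l 120963726855) (l 125258693831))) (l 82845891719)) (c (l 162839657975) (l 167671495879)))) (b (l 16776608) (a (b (a (a (l 126332435639) (l 105394470039)) (l 16776784)) (c (l 152639110615) (l 157470948503))) (a (b (l 16776728) (l 111300050135)) (l 16776728)))))) (a (l 3) (a (l 3) (a (l 3) (b (b (b (l 141364821223) (l 3)) (l 3)) (l 3)))))) (b (c (l 16776200) (l 16775960)) (b (a (a (b (b (c (l 95193923015) (l 98415148183)) (a (l 169818979639) (l 135459241175))) (l 3)) (b (c (l 83919633879) (l 87140858999)) (b (a (l 163913399431) (l 129016790215)) (l 3)))) (b (l 16776544) (a (b (l 88214600823) (a (l 158007819415) (l 121500597431))) (l 16776696)))) (b (b (a (l 3) (a (l 3) (a (l 151565368503) (l 115058146471)))) (l 3)) (l 3))))) (b (l 16775160)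 (a (b (l 16776264) (a (a (b (b (l 16776728) (a (l 145659788455) (l 109152566407))) (l 175724559671)) (b (l 16776672) (b (a (l 139217337495) (l 102710115447)) (l 169818979607)))) (a (b (l 16776552) (b (l 16776704) (a (l 133311757447) (l 96804535351)))) (l 16776536)))) (l 16775944))))), by decide +kernel⟩

def k8_pp_112_a : ∃ t, chk3 f_pp_112_a t 79 65 1 = true :=
  ⟨(a (l 3) (b (a (l 3) (b (a (b (a (l 3) (a (l 173040205111) (b (b (a (l 126869306519) (l 16776752)) (l 160692174071)) (l 3)))) (l 3)) (a (b (a (b (a (b (l 16776704) (l 119353113735)) (l 16776696)) (l 162839657735)) (b (l 16776608) (b (c (l 100025761223) (l 103783857239)) (l 151565368535)))) (l 3)) (b (a (c (l 79624666519) (c (l 81772149943) (l 83382762551))) (l 16776472)) (b (a (b (l 146733530279) (l 3)) (b (l 93046438967) (c (l 139754208695) (l 144049175671)))) (l 3))))) (l 3))) (l 3))), by decide +kernel⟩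

def k9_pp_112_a : ∃ t, chk3 f_pp_112_a t 39 33 1 = true :=
  ⟨(l 3), by decide +kernel⟩

def k10_pp_112_a : ∃ t, chk3 f_pp_112_a t 19 17 1 = true :=
  ⟨(l 3), by decide +kernel⟩

def k11_pp_112_a : ∃ t, chk3 f_pp_112_a t 9 9 1 = true :=
  ⟨(l 3), by decide +kernel⟩

def k12_pp_112_a : ∃ t, chk3 f_pp_112_a t 9 5 1 = true :=
  ⟨(l 3), by decide +kernel⟩

def k13_pp_112_a : ∃ t, chk3 f_pp_112_a t 4 3 1 = true :=
  ⟨(l 3), by decide +kernel⟩

def k14_pp_112_a : ∃ t, chk3 f_pp_112_a t 160 32 1 = true :=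
  ⟨(a (b (a (l 16776240) (l 16778200)) (b (b (a (b (l 16776136) (a (b (c (l 16776712) (l 80698407879)) (a (a (l 165524012263) (b (l 124184951863) (l 3))) (b (l 16776704) (c (l 130090532295) (l 134385499255))))) (l 55465474951))) (l 16775808)) (a (a (l 3) (b (b (a (b (c (l 125258694103) (l 129016790119)) (l 3)) (b (l 16776672) (c (l 119889984967) (l 124184951879)))) (l 173577075959)) (l 3))) (b (a (b (l 16776552) (a (b (c (l 115058146743) (l 119353113655)) (l 164987141303)) (c (l 96804535719) (c (l 98952019223) (l 101099502679))))) (l 16776408)) (a (c (l 169282108839) (l 174113946695)) (b (a (b (c (l 105394470279) (l 109152566279)) (l 155323464855)) (c (l 90362084727) (l 93583309815))) (c (l 160155303303) (l 165524012039))))))) (l 3))) (b (l 16777216) (b (b (l 16774880) (b (l 16777016) (a (b (l 16776360) (a (a (b (l 97878277143) (l 145659788359)) (l 85530246087)) (l 16776456))) (l 16775928)))) (b (a (b (a (a (l 3) (b (b (l 140291079239) (l 3)) (l 3))) (a (b (b (l 88214600615) (c (l 132774886807)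 (l 137606724647))) (l 3)) (b (l 16776608) (a (l 159618432135) (b (l 116131888071) (l 3)))))) (l 3)) (a (b (b (l 16776424) (a (b (l 16776640) (c (l 123111210391) (l 127943048183))) (l 16776576))) (b (a (l 3) (b (c (l 118279372167) (l 122574339047)) (l 168745237623))) (l 3))) (b (l 16776280) (a (b (a (b (l 16776640) (l 132238015447)) (l 86603987831)) (l 167134624903)) (b (l 16776544) (b (c (l 109152566615) (l 112373791655)) (l 159081561175))))))) (l 3))))), by decide +kernel⟩

def k15_pp_112_a : ∃ t, chk3 f_pp_112_a t 161 32 1 = true :=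
  ⟨(b (l 16775240) (b (c (l 16779016) (l 16778552)) (a (b (b (l 16776872) (a (a (a (a (b (l 16776456) (a (l 103783857079) (l 91435826039))) (l 16776504)) (l 16776408)) (l 16776208)) (l 16775784))) (a (b (b (a (a (l 160155303015) (b (c (l 97878277415) (l 102173244279)) (l 149417884727))) (c (l 78550924631) (c (l 81235278903) (l 83382762311)))) (a (l 3) (a (c (l 151028497687) (l 155860335479)) (b (l 90362084231) (c (l 137069854007) (l 141364820951)))))) (l 3)) (a (b (c (l 69960989943) (l 73719085895)) (b (a (a (l 162839657543) (b (l 121500597127) (l 3))) (b (l 16776608) (c (l 126869306727) (l 131164273575)))) (l 3))) (b (l 16776144) (b (l 71034731335) (a (b (a (l 143512304503) (l 108078824279)) (l 3)) (b (l 16776576) (a (l 137069853575) (l 101636373303))))))))) (a (a (b (l 16775072) (b (l 16775864) (l 16777000))) (l 16776616)) (l 16774840))))), by decide +kernel⟩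

def k16_pp_112_a : ∃ t, chk3 f_pp_112_a t 81 32 1 = true :=
  ⟨(b (l 16773936) (a (c (l 16777640) (l 16777072)) (l 16769512))), by decide +kernel⟩

def k17_pp_112_a : ∃ t, chk3 f_pp_112_a t 80 33 1 = true :=
  ⟨(b (a (l 3) (b (a (a (l 3) (a (l 3) (b (c (l 173577076023) (l 178408913863)) (l 3)))) (a (b (a (b (b (a (b (a (l 130090531703) (l 93583309559)) (l 162302786583)) (b (l 16776552) (c (l 105931341063) (l 110226307911)))) (c (l 162839657767) (l 168208366455))) (l 3)) (b (b (l 16776424) (a (b (c (l 100562631927) (l 105931340583)) (l 152639110119)) (c (l 86067117287) (c (l 88751471559) (l 90362084135))))) (a (l 3) (b (c (l 153175981287) (l 158007819047)) (l 3))))) (l 3)) (a (b (b (l 16776280) (a (b (b (c (l 90898955431) (l 95193922279)) (c (l 139754208503) (l 144586046183))) (l 3)) (b (c (l 79087795367) (l 82845891255)) (a (l 165524012023) (b (l 125795564343) (l 3)))))) (l 3)) (a (b (b (l 16776080) (b (l 16776424) (b (l 83382762199) (a (l 154786593479) (l 118816242471))))) (l 3)) (b (c (l 64055410151)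 (l 67276635191)) (b (b (b (a (l 147807271687) (l 111836920599)) (l 3)) (l 3)) (l 3))))))) (l 3))) (l 3)), by decide +kernel⟩

def k18_pp_112_a : ∃ t, chk3 f_pp_112_a t 162 132 1 = true :=
  ⟨(b (a (a (c (l 16776000) (l 16775672)) (l 16775240)) (l 16774320)) (a (a (a (b (a (b (b (l 16776544) (a (l 140827949815) (l 105394469575))) (l 170892721159)) (b (l 16776480) (b (a (l 134385498855) (l 98415147703)) (l 164987141063)))) (l 3)) (b (a (b (l 16776360) (b (l 16776512) (a (l 127406177015) (l 90362084071)))) (l 16776344)) (b (a (l 163913399271) (b (a (a (l 131701144183) (l 109689436839)) (l 16776568)) (l 154786593703))) (l 3)))) (b (l 16777320) (a (a (b (a (a (b (l 16776528) (l 123111209575)) (l 86603987831)) (l 16776504)) (c (l 154249723047) (l 159618431703))) (b (l 16776416) (b (c (l 93046438983) (l 96804535111)) (c (l 142438562935) (l 147270400663))))) (a (a (b (l 16776328) (b (l 16776488) (l 99488889655))) (l 16776376)) (l 16776280))))) (c (l 16776904) (l 16776528)))), by decide +kernel⟩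

def k19_pp_112_a : ∃ t, chk3 f_pp_112_a t 162 133 1 = true :=
  ⟨(a (b (a (l 3) (b (a (l 3) (b (a (a (l 167134624695) (a (l 154249722775) (b (l 119889984231) (l 3)))) (b (c (l 83382762519) (l 86067116967)) (a (l 158007818887) (c (l 119353113687) (l 123648080615))))) (l 3))) (l 3))) (l 3)) (b (b (a (a (b (c (l 69960989975) (l 73182215143)) (a (b (a (l 151028497015) (c (l 112373791815) (l 116131887895))) (l 3)) (b (l 16776840) (a (l 144049175143) (c (l 105394469927) (l 109152566103)))))) (c (l 16776432) (l 16776128))) (l 16775872)) (a (a (l 3) (a (b (b (a (c (l 134385499191) (l 139217336983)) (c (l 98952018967) (l 101099502471))) (l 167134624647)) (l 3)) (b (b (l 16776480) (a (c (l 127406177335) (l 131701144279)) (l 93046438903))) (l 164987141031)))) (a (b (l 16777008) (a (a (b (c (l 120426855479) (l 124184951607)) (l 3)) (b (l 84993375319) (l 152102238839))) (a (b (l 16776480) (c (l 113447533607) (l 117205629847))) (l 72645344455)))) (c (l 16776368) (l 16776064))))) (a (l 3) (b (a (a (l 3) (a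 (l 3) (b (b (l 144586046183) (l 3)) (l 3)))) (b (a (b (a (c (l 106468211767) (l 109689437127)) (l 16776512)) (a (l 3) (a (l 152639109863) (l 130627402599)))) (a (a (b (l 16776464) (l 108615695319)) (l 76403440871)) (l 16776440))) (a (l 3) (b (a (l 166597753671) (c (l 128479919111) (l 132238015319))) (l 3))))) (l 3))))), by decide +kernel⟩

def k20_pp_112_a : ∃ t, chk3 f_pp_112_a t 163 66 1 = true :=
  ⟨(b (l 16778232) (a (a (b (l 16776864) (a (b (b (l 16776296) (a (b (c (l 83919633623) (l 87140858871)) (a (l 159618431639) (a (l 135459240839) (l 112910662647)))) (c (l 73719086423) (l 76940311495)))) (b (a (l 3) (b (a (l 152639109847) (a (l 126332435431) (l 104320728167))) (l 3))) (l 3))) (b (l 16776144) (b (a (a (b (l 78014053559) (l 145659788087)) (b (l 16776448) (b (l 16776520) (l 128479919079)))) (l 67276635543)) (a (l 3) (b (a (c (l 135996111863) (l 140291078983)) (c (l 100025760935) (l 103246986199))) (l 168208366407))))))) (b (l 16774960) (b (l 16775736) (a (b (l 16776232) (a (b (l 16776448)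 (a (b (l 112373791847) (l 160692173655)) (c (l 92509568231) (l 95193922487)))) (l 16776384))) (l 16776080))))) (c (l 16777440) (l 16776984)))), by decide +kernel⟩

def k21_pp_112_a : ∃ t, chk3 f_pp_112_a t 162 67 1 = true :=
  ⟨(l 3), by decide +kernel⟩

def k22_pp_112_a : ∃ t, chk3 f_pp_112_a t 163 268 1 = true :=
  ⟨(a (a (l 3) (b (b (a (a (c (l 162839657575) (l 168208366183)) (a (b (b (l 101099502743) (l 150491626391)) (l 3)) (b (c (l 84456504615) (l 87677729703)) (l 153175980839)))) (a (b (l 16776416) (a (b (l 90362084487) (l 139754208215)) (l 78550924567))) (l 16776352))) (a (l 3) (a (c (c (l 154249723079) (l 156934077383)) (c (l 159618431671) (l 162302785975))) (a (b (b (l 16776504) (l 129016790071)) (l 3)) (b (l 16776472) (c (c (l 134922370247) (l 137606724615)) (l 140827949927))))))) (l 3))) (a (b (a (b (l 16776160) (a (a (b (l 16776416) (a (b (l 16776504) (l 136532982839)) (l 87140859047))) (l 16776408)) (l 16776320))) (l 16776016)) (a (b (a (a (l 168745237303) (b (a (l 145122917335)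 (c (l 120963726439) (l 124721822615))) (l 3))) (a (b (a (a (l 104857599111) (l 92509568183)) (l 16776816)) (l 160692173559)) (b (l 16776448) (b (c (l 100025760999) (l 103783856999)) (l 151028497351))))) (l 3)) (b (a (c (c (l 73182215527) (l 74792828039)) (c (l 76403440487) (l 78550923847))) (l 16776288)) (b (a (a (l 153175980855) (b (l 90898955447) (l 140291079175))) (c (l 73719086423) (l 76940311367))) (a (l 3) (a (c (l 144049175495) (l 148344142679)) (b (l 80161537255) (c (l 127406177383) (l 131701144455))))))))) (a (a (b (l 16775808) (c (l 64055409943) (l 67276634951))) (l 16776568)) (l 16775704)))), by decide +kernel⟩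

def k23_pp_112_a : ∃ t, chk3 f_pp_112_a t 163 269 1 = true :=
  ⟨(a (l 3) (a (l 3) (b (a (a (b (b (a (a (l 154249722743) (b (l 108078824567) (l 3))) (b (l 16776472) (c (l 116668759191) (l 120963726183)))) (l 168745237255)) (l 3)) (b (b (l 16776416) (a (b (c (l 111836921015) (l 115595017047)) (l 161765915575)) (a (b (l 16776472) (l 122574339191)) (l 77477182743)))) (c (l 162839657511) (l 168208366103)))) (a (b (l 16777000) (b (a (b (c (l 100025761015) (l 104857598791)) (l 151028497367)) (c (l 84993375543) (l 88214600535))) (c (l 155323464695) (l 160692173271)))) (b (l 16776224) (b (l 16776384) (b (c (l 80698408231) (l 83919633207)) (a (c (l 138143595607) (l 142438562679)) (l 85530246391))))))) (a (l 3) (a (l 3) (a (l 3) (b (a (l 166060882663) (b (b (l 122574339175) (l 3)) (l 3))) (l 3)))))))), by decide +kernel⟩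

def k24_pp_112_a : ∃ t, chk3 f_pp_112_a t 163 135 1 = true :=
  ⟨(l 3), by decide +kernel⟩

def k25_pp_112_a : ∃ t, chk3 f_pp_112_a t 41 32 1 = true :=
  ⟨(a (c (l 16774344) (l 16773280)) (l 16758280)), by decide +kernel⟩

def k26_pp_112_a : ∃ t, chk3 f_pp_112_a t 82 66 1 = true :=
  ⟨(a (c (l 16777152) (l 16776512)) (l 16769032)), by decide +kernel⟩

def k27_pp_112_a : ∃ t, chk3 f_pp_112_a t 164 134 1 = true :=
  ⟨(a (b (l 16776288) (a (b (a (c (l 16776312) (l 16775984)) (l 16775880)) (a (a (b (b (a (b (l 80161537303) (c (l 127406177431) (l 131701144407))) (l 71571602727)) (a (l 3) (b (c (l 122037468295) (l 126332435271)) (l 3)))) (l 3)) (b (b (l 16776352) (a (b (l 16776456) (c (l 116668759175) (l 120963726151))) (l 16776424))) (b (a (l 168208366279) (b (a (l 130090531943) (l 93583310039)) (l 161765915543))) (l 3)))) (b (l 16776880) (a (a (b (b (l 16776440) (c (l 105931341031) (l 110226307879))) (l 160692173495)) (b (l 16776408) (b (c (l 100562631943) (l 103783856919)) (l 151028497367)))) (b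 (l 16776320) (a (a (b (l 16776440) (l 108078824599)) (l 16776440)) (l 16776400))))))) (a (c (l 16776032) (l 16775664)) (l 16775568)))) (c (l 16774560) (l 16774064))), by decide +kernel⟩

def k28_pp_112_a : ∃ t, chk3 f_pp_112_a t 164 270 1 = true :=
  ⟨(b (a (b (a (b (a (l 3) (a (l 3) (a (c (l 150491626423) (l 155860334983)) (b (c (l 89288342759) (l 93046438647)) (c (l 137606724663) (l 142438562631)))))) (l 3)) (a (a (b (a (c (l 77477182727) (l 80698407687)) (l 16776384)) (a (a (l 162839657287) (b (l 122574339143) (l 3))) (b (l 79624666359) (a (l 151565368343) (l 115058146359))))) (c (l 66202893575) (l 69424118503))) (l 16776160))) (a (l 3) (a (a (l 3) (b (a (b (a (l 144049175559) (l 107541953671)) (l 3)) (b (l 16776440) (a (l 136532982855) (l 100562631799)))) (l 168208366279))) (a (b (l 16776704) (a (b (a (l 129553660999) (l 92509568183)) (l 161229044599)) (b (l 16776424) (a (a (l 134385499207) (l 112373791783)) (l 84993375399))))) (c (l 16776472) (l 16776160)))))) (a (c (l 16776072) (l 16775704))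 (l 16775320))) (b (a (a (l 3) (a (l 3) (a (c (l 162302786551) (l 167671495111)) (b (a (b (a (a (l 125258693687) (l 103246986359)) (l 16776456)) (l 150491626423)) (a (a (b (l 16776432) (l 116131888167)) (l 81772149975)) (l 16776424))) (a (l 3) (c (l 150491626391) (l 155323464039))))))) (a (a (a (b (l 16776352) (a (b (c (l 89288342743) (l 92509567703)) (c (l 137069853719) (l 141364820775))) (c (l 76940311783) (l 80161536743)))) (l 16776280)) (l 16776096)) (l 16775696))) (a (l 3) (a (a (b (b (a (a (l 3) (a (l 158007819175) (a (l 133311757367) (l 111836920855)))) (c (l 73182215383) (l 76403440327))) (a (l 3) (a (a (l 150491626439) (a (l 124721822759) (l 102710115431))) (l 73719086279)))) (b (a (l 3) (a (l 3) (a (l 142975433703) (c (l 104857599127) (l 109152565991))))) (l 3))) (a (a (b (l 16776352) (b (l 16776424) (a (l 135459240999) (c (l 97878277303) (l 101099502295))))) (l 16776672)) (l 16776256))) (l 16775936))))), by decide +kernel⟩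

def k29_pp_112_a : ∃ t, chk3 f_pp_112_a t 164 271 1 = true :=
  ⟨(a (l 3) (a (b (a (l 3) (b (a (a (l 168208366263) (b (b (a (c (l 126332435543) (l 130627402503)) (l 91972697159)) (l 160155302743)) (l 3))) (a (b (b (l 16776408) (a (c (l 118816242759) (l 123111209719)) (l 83919633543))) (l 159618431607)) (b (l 16776376) (b (a (a (l 123648080919) (l 101636373511)) (l 16776760)) (a (l 3) (l 142438562775)))))) (l 3))) (l 3)) (a (b (a (b (a (b (l 16776320) (a (b (l 16776408) (a (l 115058146311) (l 92509568071))) (l 16776408))) (l 16776312)) (b (a (a (l 3) (c (l 145659788151) (l 150491626183))) (b (c (l 88214600887) (l 91435825831)) (a (l 163913399111) (a (l 140827950023) (l 118816242695))))) (l 3))) (b (l 16776224) (a (b (c (l 76403440839) (l 79624665783)) (b (a (l 156397206359) (a (l 132238015415) (l 109689437175))) (l 3))) (b (l 16776344) (b (c (l 77477182615) (l 80161536663)) (a (l 149417884535) (c (l 110763179047) (l 115058146007)))))))) (l 3)) (b (a (c (c (l 16776792) (l 16776616)) (c (l 16776448)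 (l 16776616))) (l 16776080)) (b (b (b (a (a (a (l 141901691799) (c (l 103783857191) (l 107541953223))) (l 16776408)) (l 16776320)) (a (a (l 3) (a (c (l 132238015463) (l 136532982503)) (c (l 96267664487) (l 99488889527)))) (l 16776696))) (b (a (l 166060882535) (a (a (c (l 124721822695) (l 129016789719)) (c (l 88751471703) (l 91972696743))) (l 16776392))) (a (l 3) (a (l 159081560807) (a (c (l 117205629991) (l 121500596935)) (l 82845891607)))))) (a (l 3) (a (l 3) (c (l 160155302823) (l 165524011367))))))))), by decide +kernel⟩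

def k30_pp_112_a : ∃ t, chk3 f_pp_112_a t 165 67 1 = true :=
  ⟨(b (l 16777688) (a (a (b (l 16774992) (b (l 16777056) (a (b (c (l 16776392) (l 16776056)) (b (a (a (b (a (c (l 110226308135) (l 113984404167)) (l 16776744)) (c (l 145659788103) (l 150491626135))) (b (l 16776376) (a (b (l 16776424) (l 122574338983)) (l 16776408)))) (l 16776312)) (b (a (a (l 3) (a (l 3) (a (l 147807271783) (l 125795564455)))) (a (a (a (l 103783857111) (l 16776672)) (l 16776400)) (l 16776360))) (a (l 3) (a (a (l 162302786247) (c (l 123648080855) (l 127943047879))) (c (l 81235278903) (l 84456503927))))))) (c (l 16776256) (l 16775904))))) (c (l 16777784) (l 16777320))) (c (l 16774296) (l 16773768)))), by decide +kernel⟩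

def k31_pp_112_a : ∃ t, chk3 f_pp_112_a t 83 33 1 = true :=
  ⟨(a (c (l 16774456) (l 16776256)) (l 16776760)), by decide +kernel⟩

def k32_pp_112_a : ∃ t, chk3 f_pp_112_a t 40 17 1 = true :=
  ⟨(l 3), by decide +kernel⟩

def k33_pp_112_a : ∃ t, chk3 f_pp_112_a t 164 68 1 = true :=
  ⟨(l 3), by decide +kernel⟩

def k34_pp_112_a : ∃ t, chk3 f_pp_112_a t 660 136 1 = true :=
  ⟨(b (b (b (b (a (a (l 3) (a (l 3) (a (l 160155302503) (b (c (l 116668758983) (l 120426855095)) (l 3))))) (a (b (c (l 71571602583) (l 74255956599)) (a (a (l 147270400775) (c (l 109152566215) (l 112910662311))) (l 71571602471))) (l 16776288))) (a (l 3) (a (a (l 3) (a (c (l 148344142551) (l 153175980615)) (b (c (l 101636373511) (l 105394469527)) (l 3)))) (a (b (l 16776392) (a (c (l 130090531719) (l 134385498823)) (b (l 16776408) (l 110226307975)))) (l 16776360))))) (b (a (l 3) (a (l 3) (a (l 164987140679) (b (a (c (l 122574338935) (l 126869306039)) (c (l 86603987959) (l 89825213063))) (l 157470947959))))) (l 3))) (l 3)) (l 3)),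 by decide +kernel⟩

def k35_pp_112_a : ∃ t, chk3 f_pp_112_a t 661 136 1 = true :=
  ⟨(b (b (a (a (b (l 16776216) (b (a (b (l 16776376) (a (b (l 93046438855) (l 141364820759)) (l 80698407847))) (l 16776344)) (a (c (l 154786593623) (l 160155302151)) (b (a (b (l 16776584) (l 130090531639)) (l 16776400)) (c (c (l 142438562759) (l 145122917063)) (l 148881013367)))))) (b (l 16776096) (b (l 16776256) (a (b (l 16776360) (a (c (l 100562631591) (l 104320727687)) (l 16776392))) (l 16776328))))) (c (l 16776200) (l 16775832))) (a (a (l 3) (b (b (a (b (a (l 167671495271) (c (l 129016789831) (l 133311756967))) (l 3)) (b (a (c (l 93046438807) (l 96267663991)) (l 16776384)) (a (l 160155302487) (a (l 135996111591) (a (l 119889984295) (l 107541953351)))))) (l 3)) (l 3))) (b (a (b (a (a (c (l 76940311559) (l 80161536567)) (l 16776352)) (l 16776312)) (a (b (a (l 152639109751) (b (l 91435826007) (l 139754207975))) (l 3)) (b (c (l 74255956919) (l 77477182023)) (b (a (l 133848627927) (l 16776616)) (c (l 139754207959)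 (l 144049175127)))))) (a (c (l 16776800) (l 16776472)) (l 16776248))) (a (l 3) (b (a (b (a (c (l 134922369783) (l 139754207831)) (a (a (l 113984404247) (l 101099502391)) (l 86603987783))) (l 166597753271)) (b (l 16776368) (a (a (l 143512304263) (a (l 128479918807) (l 116131887847))) (c (l 91972696935) (l 95193922151))))) (c (l 161765915495) (l 167671494935))))))) (l 3)), by decide +kernel⟩

def k36_pp_112_a : ∃ t, chk3 f_pp_112_a t 662 136 1 = true :=
  ⟨(b (b (l 16775616) (a (b (l 16776096) (a (b (c (l 16776472) (l 16776152)) (a (b (b (c (l 87140858759) (l 90362083927)) (a (l 148881013383) (l 95193922343))) (c (l 153175980679) (l 158007818695))) (b (l 16776360) (a (b (l 89825213223) (l 137606724295)) (l 78550924071))))) (c (l 16776416) (l 16776080)))) (l 16776600))) (b (b (a (a (a (l 3) (a (l 3) (b (c (l 150491626119) (l 155860334967)) (l 3)))) (a (b (b (a (b (l 16776560) (a (l 147807271623) (l 111836920551))) (l 16776384)) (a (l 3) (c (l 133848627943) (l 138143595079)))) (l 3)) (a (b (b (l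 16776352) (a (a (l 111836920535) (l 99488889591)) (l 84993375031))) (l 166060882439)) (b (l 16776352) (b (a (l 141901691511) (a (l 126332435127) (l 113984404151))) (l 3)))))) (a (b (l 16776280) (a (b (a (c (l 90362084183) (l 93583309399)) (l 16776368)) (a (l 157470947863) (b (l 98952018679) (l 146733529719)))) (a (c (l 75329698711) (l 78550923799)) (l 16776336)))) (l 16776872))) (a (l 3) (a (b (a (l 3) (b (a (l 149954755111) (b (l 87677729559) (l 135459240631))) (l 3))) (l 3)) (b (b (c (l 68887247847) (l 72108472887)) (a (a (c (l 139754207927) (l 144586046007)) (a (a (l 120426855095) (l 107541953271)) (l 91972696839))) (l 16776528))) (a (l 3) (b (a (c (l 132238015191) (l 137069853223)) (c (l 96267664167) (l 99488889431))) (l 164987140503))))))) (l 3))), by decide +kernel⟩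

def k37_pp_112_a : ∃ t, chk3 f_pp_112_a t 663 136 1 = true :=
  ⟨(b (l 16776608) (a (b (b (l 16776032) (a (b (l 16776248) (a (b (l 16776352) (b (c (l 91972696903) (l 95193922119)) (a (l 155860335223) (l 102173244135)))) (l 16776320))) (l 16776184))) (b (a (a (c (l 162302786407) (l 168208365831)) (b (b (a (b (l 96267664135) (l 144586046055)) (c (l 81235278695) (l 83919632951))) (c (l 151028496967) (l 156397205927))) (l 3))) (a (b (b (l 16776336) (a (b (l 84993375015) (l 133311756967)) (l 16776536))) (a (l 3) (c (l 149417884279) (l 154249722279)))) (b (l 16776304) (b (a (c (l 102710115111) (l 105394469447)) (l 16776368)) (a (l 3) (b (l 116668758759) (l 164450269799))))))) (l 3))) (b (l 16775880) (b (a (a (b (l 16776248) (a (a (b (l 16776344) (l 102710115079)) (l 73719085959)) (l 16776336))) (l 16776240)) (l 16776152)) (a (b (a (b (a (l 162302786087) (c (l 123648080663) (l 126869305959))) (l 3)) (b (c (l 80698407831) (l 83919632919)) (a (l 154249722439) (c (l 115058146087) (l 119889984087)))))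 (l 3)) (a (b (c (l 71034731527) (l 74255956519)) (b (a (l 146733529703) (c (l 107541953351) (l 111300049479))) (l 3))) (b (l 16776280) (a (b (l 16776368) (c (l 136532982503) (l 141364820503))) (b (l 16776336) (a (l 110226307879) (l 87140858727))))))))))), by decide +kernel⟩

def k38_pp_112_a : ∃ t, chk3 f_pp_112_a t 165 137 1 = true :=
  ⟨(a (l 3) (a (l 3) (a (l 3) (b (a (l 3) (a (l 3) (b (b (l 168745237031) (l 3)) (l 3)))) (l 3))))), by decide +kernel⟩

def k39_pp_112_a : ∃ t, chk3 f_pp_112_a t 82 69 1 = true :=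
  ⟨(l 3), by decide +kernel⟩

def k40_pp_112_a : ∃ t, chk3 f_pp_112_a t 166 136 1 = true :=
  ⟨(a (b (l 16774416) (a (a (b (l 16775616) (c (c (l 16776352) (l 16776168)) (c (l 16775984) (l 16775808)))) (l 16776888)) (l 16775160))) (l 16778992)), by decide +kernel⟩

def k41_pp_112_a : ∃ t, chk3 f_pp_112_a t 664 137 1 = true :=
  ⟨(b (a (b (b (a (a (b (b (a (c (l 129016789767) (l 133311756887)) (c (l 91972696999) (l 95730792999))) (l 162302786039)) (l 3)) (b (b (l 16776336) (a (c (l 121500597031) (l 125795564103)) (l 86067116887))) (c (l 157470948119) (l 163376527527)))) (b (c (l 16776448) (l 16776112)) (a (b (a (c (l 113984404295) (l 117742500423)) (l 78550924103)) (c (l 148344142503) (l 153175980583))) (b (l 16776320) (a (a (l 117205629735) (l 94120180583)) (l 16776360)))))) (a (l 3) (a (l 3) (a (l 3) (b (c (l 146733529767) (l 151565367799)) (l 3)))))) (l 3)) (a (b (a (b (l 16776240) (b (b (a (a (l 107005082471) (l 84993375063)) (l 16776352)) (a (l 165524011607) (a (l 142438562535) (l 119889984295))))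 (l 3))) (b (l 16776176) (b (a (c (l 79624666103) (l 83382761959)) (l 16776320)) (b (a (l 158007818839) (a (l 133311757063) (l 110226307943))) (l 3))))) (l 3)) (b (b (l 16776088) (a (b (l 16776272) (b (c (l 77477182455) (l 80698407399)) (a (l 149954755223) (c (l 111836920679) (l 115058145831))))) (c (l 16776768) (l 16776432)))) (a (l 3) (b (b (b (a (l 142438562535) (c (l 103246986151) (l 107005082151))) (l 3)) (l 3)) (l 3)))))) (l 3)), by decide +kernel⟩

def k42_pp_112_a : ∃ t, chk3 f_pp_112_a t 665 137 1 = true :=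
  ⟨(a (b (b (c (l 16776200) (l 16775824)) (a (b (a (b (b (l 16776336) (a (c (l 132238015271) (l 137069853255)) (c (l 95730793367) (l 99488889367)))) (l 166060882391)) (b (l 16776304) (b (a (c (l 124721822567) (l 129016789559)) (l 89288342423)) (l 159081560663)))) (l 3)) (b (b (l 16776216) (a (b (l 16776320) (a (c (l 117205629783) (l 120963725863)) (l 81772149639))) (l 16776288))) (a (c (l 159618431783) (l 165524011191)) (b (b (a (a (l 120426855271) (l 97878276935)) (l 16776344)) (c (l 145122917079) (l 149954755143))) (l 3)))))) (l 3)) (b (b (l 16775752) (b (c (l 16776272) (l 16775912)) (b (a (a (a (c (l 86067117079) (l 89825212967)) (l 16776312)) (l 16776272)) (l 16776184)) (a (a (a (l 3) (b (l 132238015255) (l 3))) (b (c (l 84993375255) (l 88751471079)) (c (c (l 132238015335) (l 134385498903)) (l 138143595063)))) (a (c (l 74255957047) (l 77477181943)) (l 16776256)))))) (a (l 3) (b (b (b (a (a (l 159081560615) (b (a (l 126869306199) (l 104857598791)) (l 3))) (b (l 75329698807) (a (l 145122917143)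 (a (l 117742500695) (l 95193922439))))) (l 3)) (l 3)) (l 3))))), by decide +kernel⟩

def k43_pp_112_a : ∃ t, chk3 f_pp_112_a t 333 137 1 = true :=
  ⟨(b (a (a (c (l 16775920) (l 16775520)) (l 16775440)) (l 16775016)) (a (a (b (a (a (b (b (l 67813506071) (b (a (l 137069853463) (l 100562631559)) (l 166597753415))) (l 3)) (b (b (l 16776240) (b (l 16776312) (a (l 129553660759) (l 92509567911)))) (l 165524011495))) (b (c (l 16776384) (l 16776032)) (b (a (b (a (a (l 133848628055) (l 111300049735)) (l 84456504295)) (l 154786593415)) (b (l 16776304) (c (c (l 97878277159) (l 100025760599)) (l 102710114791)))) (c (c (l 154786593703) (l 157470947927)) (l 161765914759))))) (l 3)) (a (b (b (l 16776088) (b (l 16776240) (a (b (c (l 93046438935) (l 96804534823)) (c (l 140827949847) (l 145659787815))) (c (l 79624666151) (l 82845891047))))) (a (l 3) (b (a (l 166597753303) (b (b (l 126869306183) (l 3)) (l 3))) (l 3)))) (b (c (l 16776256) (l 16775888)) (b (b (b (c (l 75329698919) (l 78550923735)) (a (c (l 129553660743)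 (l 133848627735)) (l 77477182439))) (a (l 3) (b (a (l 147270400775) (l 110763178887)) (l 3)))) (l 3))))) (b (c (l 16775952) (l 16775552)) (a (a (b (b (l 16776208) (a (b (l 16776640) (a (l 139754208071) (l 102710115271))) (l 16776280))) (b (a (l 3) (b (a (l 131701144391) (l 94657051623)) (l 162302786167))) (l 3))) (b (l 16776144) (b (a (b (l 16776296) (a (l 123648080775) (l 87140858887))) (l 16776264)) (a (l 160155302295) (b (c (l 100562631687) (l 104857598423)) (l 150491626199)))))) (a (b (l 16776024) (a (a (b (l 16776224) (b (l 16776296) (l 108078824391))) (l 16776736)) (l 16776200))) (l 16776008)))))), by decide +kernel⟩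

def k44_pp_112_a : ∃ t, chk3 f_pp_112_a t 167 68 1 = true :=
  ⟨(b (l 16771904) (a (a (c (l 16776504) (l 16776024)) (l 16774368)) (l 1))), by decide +kernel⟩

def k45_pp_112_a : ∃ t, chk3 f_pp_112_a t 83 69 1 = true :=
  ⟨(a (b (a (l 3) (b (a (l 3) (b (a (l 3) (b (b (a (a (c (l 149417884359) (l 155323463751)) (b (c (l 88751471687) (l 93046438327)) (c (l 136532982599) (l 141364820487)))) (a (c (l 76403440743) (l 80161536455)) (l 16776240))) (a (l 3) (a (c (c (l 140291079047) (l 142975433399)) (l 146733529623)) (b (l 78550924327) (c (l 125258693511) (l 129553660391)))))) (l 3))) (l 3))) (l 3))) (l 3)) (a (b (b (a (a (a (b (b (c (l 65129151575) (l 16776352)) (b (a (b (c (l 119353113543) (l 123648080359)) (l 3)) (b (l 16776296) (c (l 113447533543) (l 117742500391)))) (l 166060882343))) (l 3)) (b (b (l 16776080) (b (l 16776728) (a (b (c (l 107541953543) (l 111836920343)) (l 157470948007)) (a (b (l 16776296) (l 117742500791)) (l 74255957079))))) (a (l 3) (c (l 161765915463) (l 167671494855))))) (b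 (c (c (l 16776296) (l 16776096)) (l 16776472)) (a (b (b (a (b (c (l 96267664455) (l 100025760247)) (l 146196658919)) (c (l 81235278935) (l 84993374647))) (a (l 3) (a (l 3) (l 144586046183)))) (l 3)) (b (b (l 16776208) (b (c (l 76940311623) (l 80698407335)) (a (c (l 131701144439) (l 136532982247)) (l 80161537047)))) (b (a (l 3) (a (l 157470947927) (b (l 114521275303) (l 3)))) (l 3)))))) (b (l 16776928) (a (a (b (l 16776136) (a (b (b (l 16776616) (c (l 120426855351) (l 124721822231))) (l 3)) (b (l 16776264) (b (c (l 114521275351) (l 118816242183)) (l 164450269767))))) (b (l 16776016) (a (b (l 16776200) (b (l 16776280) (c (l 108615695351) (l 112910662135)))) (l 16776192)))) (l 1)))) (b (a (l 3) (a (b (a (l 3) (a (l 163913398679) (a (b (b (l 118816242599) (l 3)) (l 3)) (l 1)))) (l 3)) (l 1))) (l 3))) (l 3)) (l 1))), by decide +kernel⟩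

def k46_pp_112_a : ∃ t, chk3 f_pp_112_a t 41 35 1 = true :=
  ⟨(l 3), by decide +kernel⟩

def k47_pp_112_a : ∃ t, chk3 f_pp_112_a t 21 8 1 = true :=
  ⟨(l 1), by decide +kernel⟩

def k48_pp_112_a : ∃ t, chk3 f_pp_112_a t 10 9 1 = true :=
  ⟨(a (l 3) (l 1)), by decide +kernel⟩

def k49_pp_112_a : ∃ t, chk3 f_pp_112_a t 10 5 1 = true :=
  ⟨(l 3), by decide +kernel⟩

def k50_pp_112_a : ∃ t, chk3 f_pp_112_a t 11 2 1 = true :=
  ⟨(l 1), by decide +kernel⟩

def k51_pp_112_a : ∃ t, chk3 f_pp_112_a t 5 3 1 = true :=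
  ⟨(l 3), by decide +kernel⟩

def k52_pp_112_a : ∃ t, chk3 f_pp_112_a t 3 1 1 = true :=
  ⟨(l 1), by decide +kernel⟩

theorem s53_pp_112_a : ∃ t, chk3 f_pp_112_a t 332 137 1 = true := ex3_a k41_pp_112_a k42_pp_112_a

theorem s54_pp_112_a : ∃ t, chk3 f_pp_112_a t 166 137 1 = true := ex3_a s53_pp_112_a k43_pp_112_a

theorem s55_pp_112_a : ∃ t, chk3 f_pp_112_a t 166 68 1 = true := ex3_b k40_pp_112_a s54_pp_112_a

theorem s56_pp_112_a : ∃ t, chk3 f_pp_112_a t 83 68 1 = true := ex3_a s55_pp_112_a k44_pp_112_a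

theorem s57_pp_112_a : ∃ t, chk3 f_pp_112_a t 83 34 1 = true := ex3_b s56_pp_112_a k45_pp_112_a

theorem s58_pp_112_a : ∃ t, chk3 f_pp_112_a t 331 136 1 = true := ex3_a k36_pp_112_a k37_pp_112_a

theorem s59_pp_112_a : ∃ t, chk3 f_pp_112_a t 330 136 1 = true := ex3_a k34_pp_112_a k35_pp_112_a

theorem s60_pp_112_a : ∃ t, chk3 f_pp_112_a t 165 136 1 = true := ex3_a s59_pp_112_a s58_pp_112_a

theorem s61_pp_112_a : ∃ t, chk3 f_pp_112_a t 165 68 1 = true := ex3_b s60_pp_112_a k38_pp_112_a

theorem s62_pp_112_a : ∃ t, chk3 f_pp_112_a t 82 68 1 = true := ex3_a k33_pp_112_a s61_pp_112_a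

theorem s63_pp_112_a : ∃ t, chk3 f_pp_112_a t 82 34 1 = true := ex3_b s62_pp_112_a k39_pp_112_a

theorem s64_pp_112_a : ∃ t, chk3 f_pp_112_a t 41 34 1 = true := ex3_a s63_pp_112_a s57_pp_112_a

theorem s65_pp_112_a : ∃ t, chk3 f_pp_112_a t 41 17 1 = true := ex3_b s64_pp_112_a k46_pp_112_a

theorem s66_pp_112_a : ∃ t, chk3 f_pp_112_a t 20 17 1 = true := ex3_a k32_pp_112_a s65_pp_112_a

theorem s67_pp_112_a : ∃ t, chk3 f_pp_112_a t 164 135 1 = true := ex3_b k28_pp_112_a k29_pp_112_a

theorem s68_pp_112_a : ∃ t, chk3 f_pp_112_a t 164 67 1 = true := ex3_b k27_pp_112_a s67_pp_112_a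

theorem s69_pp_112_a : ∃ t, chk3 f_pp_112_a t 82 67 1 = true := ex3_a s68_pp_112_a k30_pp_112_a

theorem s70_pp_112_a : ∃ t, chk3 f_pp_112_a t 82 33 1 = true := ex3_b k26_pp_112_a s69_pp_112_a

theorem s71_pp_112_a : ∃ t, chk3 f_pp_112_a t 41 33 1 = true := ex3_a s70_pp_112_a k31_pp_112_a

theorem s72_pp_112_a : ∃ t, chk3 f_pp_112_a t 41 16 1 = true := ex3_b k25_pp_112_a s71_pp_112_a

theorem s73_pp_112_a : ∃ t, chk3 f_pp_112_a t 163 134 1 = true := ex3_b k22_pp_112_a k23_pp_112_a

theorem s74_pp_112_a : ∃ t, chk3 f_pp_112_a t 163 67 1 = true := ex3_b s73_pp_112_a k24_pp_112_a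

theorem s75_pp_112_a : ∃ t, chk3 f_pp_112_a t 81 67 1 = true := ex3_a k21_pp_112_a s74_pp_112_a

theorem s76_pp_112_a : ∃ t, chk3 f_pp_112_a t 162 66 1 = true := ex3_b k18_pp_112_a k19_pp_112_a

theorem s77_pp_112_a : ∃ t, chk3 f_pp_112_a t 81 66 1 = true := ex3_a s76_pp_112_a k20_pp_112_a

theorem s78_pp_112_a : ∃ t, chk3 f_pp_112_a t 81 33 1 = true := ex3_b s77_pp_112_a s75_pp_112_a

theorem s79_pp_112_a : ∃ t, chk3 f_pp_112_a t 40 33 1 = true := ex3_a k17_pp_112_a s78_pp_112_a

theorem s80_pp_112_a : ∃ t, chk3 f_pp_112_a t 80 32 1 = true := ex3_a k14_pp_112_a k15_pp_112_a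

theorem s81_pp_112_a : ∃ t, chk3 f_pp_112_a t 40 32 1 = true := ex3_a s80_pp_112_a k16_pp_112_a

theorem s82_pp_112_a : ∃ t, chk3 f_pp_112_a t 40 16 1 = true := ex3_b s81_pp_112_a s79_pp_112_a

theorem s83_pp_112_a : ∃ t, chk3 f_pp_112_a t 20 16 1 = true := ex3_a s82_pp_112_a s72_pp_112_a

theorem s84_pp_112_a : ∃ t, chk3 f_pp_112_a t 20 8 1 = true := ex3_b s83_pp_112_a s66_pp_112_a

theorem s85_pp_112_a : ∃ t, chk3 f_pp_112_a t 10 8 1 = true := ex3_a s84_pp_112_a k47_pp_112_a

theorem s86_pp_112_a : ∃ t, chk3 f_pp_112_a t 10 4 1 = true := ex3_b s85_pp_112_a k48_pp_112_a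

theorem s87_pp_112_a : ∃ t, chk3 f_pp_112_a t 10 2 1 = true := ex3_b s86_pp_112_a k49_pp_112_a

theorem s88_pp_112_a : ∃ t, chk3 f_pp_112_a t 5 2 1 = true := ex3_a s87_pp_112_a k50_pp_112_a

theorem s89_pp_112_a : ∃ t, chk3 f_pp_112_a t 5 1 1 = true := ex3_b s88_pp_112_a k51_pp_112_a

theorem s90_pp_112_a : ∃ t, chk3 f_pp_112_a t 158 128 1 = true := ex3_a k4_pp_112_a k5_pp_112_a

theorem s91_pp_112_a : ∃ t, chk3 f_pp_112_a t 158 64 1 = true := ex3_b s90_pp_112_a k6_pp_112_a

theorem s92_pp_112_a : ∃ t, chk3 f_pp_112_a t 79 64 1 = true := ex3_a s91_pp_112_a k7_pp_112_a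

theorem s93_pp_112_a : ∃ t, chk3 f_pp_112_a t 79 32 1 = true := ex3_b s92_pp_112_a k8_pp_112_a

theorem s94_pp_112_a : ∃ t, chk3 f_pp_112_a t 39 32 1 = true := ex3_a k3_pp_112_a s93_pp_112_a

theorem s95_pp_112_a : ∃ t, chk3 f_pp_112_a t 39 16 1 = true := ex3_b s94_pp_112_a k9_pp_112_a

theorem s96_pp_112_a : ∃ t, chk3 f_pp_112_a t 19 16 1 = true := ex3_a k2_pp_112_a s95_pp_112_a

theorem s97_pp_112_a : ∃ t, chk3 f_pp_112_a t 19 8 1 = true := ex3_b s96_pp_112_a k10_pp_112_a

theorem s98_pp_112_a : ∃ t, chk3 f_pp_112_a t 9 8 1 = true := ex3_a k1_pp_112_a s97_pp_112_a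

theorem s99_pp_112_a : ∃ t, chk3 f_pp_112_a t 9 4 1 = true := ex3_b s98_pp_112_a k11_pp_112_a

theorem s100_pp_112_a : ∃ t, chk3 f_pp_112_a t 9 2 1 = true := ex3_b s99_pp_112_a k12_pp_112_a

theorem s101_pp_112_a : ∃ t, chk3 f_pp_112_a t 4 2 1 = true := ex3_a k0_pp_112_a s100_pp_112_a

theorem s102_pp_112_a : ∃ t, chk3 f_pp_112_a t 4 1 1 = true := ex3_b s101_pp_112_a k13_pp_112_a

theorem s103_pp_112_a : ∃ t, chk3 f_pp_112_a t 2 1 1 = true := ex3_a s102_pp_112_a s89_pp_112_a

theorem s104_pp_112_a : ∃ t, chk3 f_pp_112_a t 1 1 1 = true := ex3_a s103_pp_112_a k52_pp_112_a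

theorem c_pp_112_a : CertB 536870912 536870912 0 536870912 587336777 62277027 3 eng mog cd0q1 cd1q2a pd1 false true true .dn 1 1 2
    ndB0q1 ndB1q2a pcB1 Cut.none Ext.none :=
  certB2 (fam := false) (s1 := true) (s2 := true) (a := 1) (b := 1) (c := 2) (cn := .dn) (n1 := ndB0q1) (n2 := ndB1q2a) (pc := pcB1) (cut := Cut.none) (xt := Ext.none) (P1 := 536870912) (W1 := 536870912) (P2 := 0) (W2 := 536870912) (P3 := 587336777) (W3 := 62277027) (N0 := 3) (En := eng) (mo := mog) (C1 := cd0q1) (C2 := cd1q2a) (C3 := pd1)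
    rfl (fun _ => rfl) s104_pp_112_a

noncomputable def f_pp_112_b : ℕ → ℕ → ℕ → ℕ → Bool := onCell 536870912 536870912 1239849684 370763052 587336777 62277027
    (rowB 3 eng mog cd0q1 cd1q2b pd1 2 false true true .dn 1 1 2 (qsf 536870912 536870912 1239849684 370763052 1) ndB0q1 ndB1q2b pcB1 Cut.none Ext.none)

def k0_pp_112_b : ∃ t, chk3 f_pp_112_b t 4 2 1 = true :=
  ⟨(a (l 3) (b (a (l 3) (b (a (l 3) (b (a (b (a (l 3) (b (b (a (l 3) (a (l 3) (b (b (a (a (l 3) (a (l 3) (b (b (a (b (a (a (l 168745237703) (l 45264927927)) (l 16776912)) (l 164450270343)) (l 16776888)) (l 159081561159)) (l 3)))) (a (b (l 16776816) (c (l 124184952151) (l 127943048135))) (l 16776696))) (a (l 3) (a (l 166597753207) (l 16776576)))) (l 3)))) (l 3)) (l 3))) (l 3)) (b (a (b (a (b (a (b (l 16776368) (a (l 132238014663) (l 16776088))) (l 16775816)) (a (l 158544688151) (l 16775448))) (l 16774944)) (a (l 171429587751) (c (l 31843152759) (l 39359342807)))) (b (c (l 16773624) (l 16772872)) (l 16772992))) (a (l 3) (a (l 58149821751)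 (l 16771440))))) (l 3))) (l 3))) (l 3))), by decide +kernel⟩

def k1_pp_112_b : ∃ t, chk3 f_pp_112_b t 5 2 1 = true :=
  ⟨(a (b (a (b (a (b (b (a (b (a (c (l 16771232) (l 16770304)) (l 16768184)) (l 16769760)) (a (l 16765928) (l 16763344))) (a (a (l 16770280) (l 16768328)) (l 16764984))) (a (a (b (l 51170492487) (l 3)) (l 31843144519)) (l 16764208))) (b (b (a (l 16759432) (l 16754248)) (a (l 16760088) (l 16754912))) (a (l 16760024) (l 16755216)))) (a (a (l 3) (b (l 104320709143) (l 3))) (b (a (l 16759352) (l 16755384)) (l 100025751623)))) (b (b (a (b (a (l 16749120) (l 16744040)) (l 16746872)) (b (l 1) (l 16736104))) (a (l 16757760) (b (l 16735848) (l 16735816)))) (a (b (l 16748040) (l 16749408)) (b (l 16736512) (l 16738664))))) (a (b (a (l 3) (b (l 138680424647) (l 3))) (l 3)) (b (a (b (l 16751072) (l 108615680055)) (l 16743712)) (a (l 3) (b (l 16750192) (l 16754720)))))) (b (b (a (b (l 1) (a (l 16724024) (l 1))) (l 1)) (a (a (b (l 16724208) (l 16725760)) (l 16711160)) (b (l 16690848) (l 16690128))))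 (b (a (a (l 16731840) (b (l 16715224) (l 16720216))) (a (l 16702064) (l 16685552))) (a (a (l 16765560) (l 16732104)) (a (l 16716240) (l 16699256)))))), by decide +kernel⟩

def k2_pp_112_b : ∃ t, chk3 f_pp_112_b t 2 3 1 = true :=
  ⟨(a (l 3) (a (b (l 3) (l 3)) (b (a (b (a (l 79087836999) (l 16752736)) (a (l 3) (l 81772229543))) (b (a (l 16740112) (l 16723016)) (a (l 16769856) (l 16757312)))) (a (l 3) (b (a (l 117742753495) (l 16839560)) (l 3)))))), by decide +kernel⟩

def k3_pp_112_b : ∃ t, chk3 f_pp_112_b t 3 1 1 = true :=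
  ⟨(a (b (b (l 1) (a (a (b (l 16744680) (b (l 16667088) (l 16675360))) (b (l 16710680) (l 16694984))) (b (l 1) (a (l 16717512) (l 1))))) (a (b (a (b (a (l 16704312) (l 16683416)) (a (l 16739632) (l 16719568))) (b (l 16650240) (l 16684744))) (a (b (a (l 16786408) (l 16768416)) (a (l 80698623383) (l 16829968))) (b (a (l 16746712) (l 16722112)) (a (l 16812688) (l 16789792))))) (b (b (a (l 16603768) (l 16725856)) (a (l 16632248) (l 16579264))) (a (b (l 16679992) (a (l 16762272) (l 16731848))) (b (l 16619944) (l 16683048)))))) (b (l 1) (b (a (b (l 1) (a (l 16527168) (l 16474784))) (l 1)) (a (b (a (l 16559000) (l 16498720)) (a (l 16614432) (l 16544536))) (b (a (l 16440152) (l 1)) (a (l 16475680) (l 16409984))))))), by decide +kernel⟩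

theorem s4_pp_112_b : ∃ t, chk3 f_pp_112_b t 2 2 1 = true := ex3_a k0_pp_112_b k1_pp_112_b

theorem s5_pp_112_b : ∃ t, chk3 f_pp_112_b t 2 1 1 = true := ex3_b s4_pp_112_b k2_pp_112_b

theorem s6_pp_112_b : ∃ t, chk3 f_pp_112_b t 1 1 1 = true := ex3_a s5_pp_112_b k3_pp_112_b

theorem c_pp_112_b : CertB 536870912 536870912 1239849684 370763052 587336777 62277027 3 eng mog cd0q1 cd1q2b pd1 false true true .dn 1 1 2
    ndB0q1 ndB1q2b pcB1 Cut.none Ext.none :=
  certB2 (fam := false) (s1 := true) (s2 := true) (a := 1) (b := 1) (c := 2) (cn := .dn) (n1 := ndB0q1) (n2 := ndB1q2b) (pc := pcB1) (cut := Cut.none) (xt := Ext.none) (P1 := 536870912) (W1 := 536870912) (P2 := 1239849684) (W2 := 370763052) (P3 := 587336777) (W3 := 62277027) (N0 := 3) (En := eng) (mo := mog) (C1 := cd0q1) (C2 := cd1q2b) (C3 := pd1)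
    rfl (fun _ => rfl) s6_pp_112_b

noncomputable def cut_pp_113 : Cut := Cut.of [[⟨0, 1, 0, 67108864⟩, ⟨1, 1, 0, 67108864⟩, ⟨2, 2, 0, 16777216⟩]]

noncomputable def f_pp_113 : ℕ → ℕ → ℕ → ℕ → Bool := onCell 536870912 536870912 536870912 536870912 587336777 62277027
    (rowB 3 eng mog cd0q1 cd1q3 pd1 1 false true true .nn 1 1 3 (qsf 536870912 536870912 1610612736 536870912 1) ndB0q1 ndB1q3 pcB1 cut_pp_113 Ext.none)

def k0_pp_113 : ∃ t, chk3 f_pp_113 t 1 1 1 = true :=
  ⟨(b (a (a (l 1) (a (l 1) (a (l 1) (l 3)))) (l 3)) (a (b (a (b (l 1) (a (l 1) (l 16681624))) (b (a (b (l 1) (a (l 1) (l 16792416))) (b (a (l 16826608) (l 16873016)) (a (l 16849192) (l 16916480)))) (a (b (a (l 16739648) (l 16800392)) (l 16770456)) (b (a (l 16853520) (l 16890864)) (a (l 16826256) (l 16859288)))))) (a (b (a (l 94522674007) (a (l 16601376) (l 16660048))) (a (l 16480720) (l 16599360))) (a (b (a (l 16718736) (l 16759648)) (a (l 16683112) (l 16722880))) (b (a (l 16791608) (l 16819952)) (a (l 16752928) (l 16778272))))))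 (b (a (b (a (b (l 3) (a (l 16983192) (l 3))) (l 3)) (a (b (a (l 16935056) (l 16986520)) (a (l 16896192) (l 16937424))) (b (a (l 250886969239) (l 3)) (a (l 61908303719) (l 279341092295))))) (l 3)) (a (b (a (b (a (l 16864800) (l 16899304)) (a (l 16837592) (l 16867976))) (b (a (l 16932096) (b (l 16975608) (l 16949752))) (a (l 16894848) (l 16917560)))) (a (b (l 16827648) (l 16805264)) (b (a (l 16862888) (l 16880000)) (l 16842880)))) (b (a (b (a (a (l 207400174727) (l 3)) (l 3)) (a (b (l 16944256) (l 16920536)) (a (l 192904576967) (l 370072094695)))) (l 3)) (a (a (b (l 16889464) (l 16851920)) (b (b (l 16898944) (l 16876688)) (b (l 16856248) (l 16836528)))) (a (b (b (l 422685364519) (a (l 16868088) (l 391009950087))) (a (l 16835560) (b (l 16837352) (l 16815952)))) (b (l 3) (a (b (a (l 210621204439) (l 458118741383)) (a (l 16808032) (l 68887342039))) (b (l 3) (a (b (a (l 215989896535) (l 486035988679)) (l 16791360)) (b (l 3) (b (b (l 533817477431) (l 6)) (l 6)))))))))))))), by decide +kernel⟩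

theorem c_pp_113 : CertB 536870912 536870912 1610612736 536870912 587336777 62277027 3 eng mog cd0q1 cd1q3 pd1 false true true .nn 1 1 3
    ndB0q1 ndB1q3 pcB1 cut_pp_113 Ext.none :=
  certB1 (fam := false) (s1 := true) (s2 := true) (a := 1) (b := 1) (c := 3) (cn := .nn) (n1 := ndB0q1) (n2 := ndB1q3) (pc := pcB1) (cut := cut_pp_113) (xt := Ext.none) (P1 := 536870912) (W1 := 536870912) (P2 := 1610612736) (W2 := 536870912) (P3 := 587336777) (W3 := 62277027) (N0 := 3) (En := eng) (mo := mog) (C1 := cd0q1) (C2 := cd1q3) (C3 := pd1)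
    rfl (fun _ => rfl) k0_pp_113

noncomputable def cut_pp_123 : Cut := Cut.of [[⟨0, 1, 0, 67108864⟩, ⟨1, 1, 0, 67108864⟩, ⟨2, 2, 0, 16777216⟩]]

noncomputable def f_pp_123 : ℕ → ℕ → ℕ → ℕ → Bool := onCell 536870912 536870912 1073741824 536870912 587336777 62277027
    (rowB 3 eng mog cd0q1 cd1q3 pd2 1 false true true .npn 1 2 3 (qsf 536870912 536870912 1610612736 536870912 2) ndB0q1 ndB1q3 pcB2 cut_pp_123 Ext.none)

def k0_pp_123 : ∃ t, chk3 f_pp_123 t 1 1 1 = true :=
  ⟨(a (b (a (b (a (b (l 16438376) (l 16450864)) (l 16568456)) (b (a (l 16482936) (l 16571536)) (l 16778832))) (b (a (b (l 16663672) (l 16639632)) (b (l 16717008) (l 16678656))) (b (a (l 16623456) (b (b (l 16659056) (l 16652936)) (l 16646768))) (a (l 16635992) (l 16657576))))) (a (b (b (l 16607344) (l 16643080)) (l 16700256)) (b (a (b (l 16658024) (l 16682416)) (l 16849048)) (a (b (l 16710736) (l 2)) (l 2))))) (b (a (b (a (b (l 16758880) (l 16708864)) (b (l 16789696) (l 16730800))) (b (a (b (b (l 16684480) (l 16677640)) (l 16670600))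 (b (b (l 16706272) (l 16805360)) (l 16690000))) (a (l 16675240) (l 16629440)))) (b (b (a (a (l 16795752) (l 16789832)) (b (a (l 16760864) (a (l 16777968) (b (a (l 16777832) (b (l 6) (l 574552541751))) (l 563815130727)))) (a (l 16759464) (l 545561553943)))) (a (l 16767736) (a (l 16774344) (l 2)))) (a (b (b (b (l 16682912) (l 2)) (l 2)) (l 2)) (l 2)))) (a (b (a (b (l 16684248) (l 2)) (l 2)) (l 2)) (l 2)))), by decide +kernel⟩

theorem c_pp_123 : CertB 536870912 536870912 1610612736 536870912 587336777 62277027 3 eng mog cd0q1 cd1q3 pd2 false true true .npn 1 2 3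
    ndB0q1 ndB1q3 pcB2 cut_pp_123 Ext.none :=
  certB1 (fam := false) (s1 := true) (s2 := true) (a := 1) (b := 2) (c := 3) (cn := .npn) (n1 := ndB0q1) (n2 := ndB1q3) (pc := pcB2) (cut := cut_pp_123) (xt := Ext.none) (P1 := 536870912) (W1 := 536870912) (P2 := 1610612736) (W2 := 536870912) (P3 := 587336777) (W3 := 62277027) (N0 := 3) (En := eng) (mo := mog) (C1 := cd0q1) (C2 := cd1q3) (C3 := pd2)
    rfl (fun _ => rfl) k0_pp_123

noncomputable def f_pp_133 : ℕ → ℕ → ℕ → ℕ → Bool := onCell 1610612736 536870912 1610612736 536870912 587336777 62277027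
    (rowB 3 eng mog cd0q1 cd1q3 pd3 2 false true true .dn 1 3 3 (qsf 536870912 536870912 1610612736 536870912 3) ndB0q1 ndB1q3 pcB3 Cut.none Ext.none)

def k0_pp_133 : ∃ t, chk3 f_pp_133 t 1 1 1 = true :=
  ⟨(a (b (l 1) (a (b (l 1) (a (l 393023354359) (l 1))) (l 1))) (l 1)), by decide +kernel⟩

theorem c_pp_133 : CertB 536870912 536870912 1610612736 536870912 587336777 62277027 3 eng mog cd0q1 cd1q3 pd3 false true true .dn 1 3 3
    ndB0q1 ndB1q3 pcB3 Cut.none Ext.none :=
  certB2 (fam := false) (s1 := true) (s2 := true) (a := 1) (b := 3) (c := 3) (cn := .dn) (n1 := ndB0q1) (n2 := ndB1q3) (pc := pcB3) (cut := Cut.none) (xt := Ext.none) (P1 := 536870912) (W1 := 536870912) (P2 := 1610612736) (W2 := 536870912) (P3 := 587336777) (W3 := 62277027) (N0 := 3) (En := eng) (mo := mog) (C1 := cd0q1) (C2 := cd1q3) (C3 := pd3)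
    rfl (fun _ => rfl) k0_pp_133

noncomputable def f_pp_202_a : ℕ → ℕ → ℕ → ℕ → Bool := onCell 0 536870912 0 536870912 587336777 62277027
    (rowB 3 eng mog cd0q2 cd1q2a pd0 0 false true true .pp 2 0 2 (qsf 0 536870912 0 536870912 0) ndB0q2 ndB1q2a pcB0 Cut.none Ext.none)

def k0_pp_202_a : ∃ t, chk3 f_pp_202_a t 1 1 1 = true :=
  ⟨(l 3), by decide +kernel⟩

theorem c_pp_202_a : CertB 0 536870912 0 536870912 587336777 62277027 3 eng mog cd0q2 cd1q2a pd0 false true true .pp 2 0 2
    ndB0q2 ndB1q2a pcB0 Cut.none Ext.none :=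
  certB0 (fam := false) (s1 := true) (s2 := true) (a := 2) (b := 0) (c := 2) (cn := .pp) (n1 := ndB0q2) (n2 := ndB1q2a) (pc := pcB0) (cut := Cut.none) (xt := Ext.none) (P1 := 0) (W1 := 536870912) (P2 := 0) (W2 := 536870912) (P3 := 587336777) (W3 := 62277027) (N0 := 3) (En := eng) (mo := mog) (C1 := cd0q2) (C2 := cd1q2a) (C3 := pd0)
    rfl k0_pp_202_a

noncomputable def f_pp_202_b : ℕ → ℕ → ℕ → ℕ → Bool := onCell 0 536870912 1239849684 370763052 587336777 62277027
    (rowB 3 eng mog cd0q2 cd1q2b pd0 0 false true true .pp 2 0 2 (qsf 0 536870912 1239849684 370763052 0) ndB0q2 ndB1q2b pcB0 Cut.none Ext.none)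

def k0_pp_202_b : ∃ t, chk3 f_pp_202_b t 1 1 1 = true :=
  ⟨(l 3), by decide +kernel⟩

theorem c_pp_202_b : CertB 0 536870912 1239849684 370763052 587336777 62277027 3 eng mog cd0q2 cd1q2b pd0 false true true .pp 2 0 2
    ndB0q2 ndB1q2b pcB0 Cut.none Ext.none :=
  certB0 (fam := false) (s1 := true) (s2 := true) (a := 2) (b := 0) (c := 2) (cn := .pp) (n1 := ndB0q2) (n2 := ndB1q2b) (pc := pcB0) (cut := Cut.none) (xt := Ext.none) (P1 := 0) (W1 := 536870912) (P2 := 1239849684) (W2 := 370763052) (P3 := 587336777) (W3 := 62277027) (N0 := 3) (En := eng) (mo := mog) (C1 := cd0q2) (C2 := cd1q2b) (C3 := pd0)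
    rfl k0_pp_202_b

noncomputable def f_pp_203 : ℕ → ℕ → ℕ → ℕ → Bool := onCell 0 536870912 0 536870912 587336777 62277027
    (rowB 3 eng mog cd0q2 cd1q3 pd0 1 false true true .up 2 0 3 (qsf 0 536870912 1610612736 536870912 0) ndB0q2 ndB1q3 pcB0 Cut.none Ext.none)

def k0_pp_203 : ∃ t, chk3 f_pp_203 t 1 1 1 = true :=
  ⟨(l 3), by decide +kernel⟩

theorem c_pp_203 : CertB 0 536870912 1610612736 536870912 587336777 62277027 3 eng mog cd0q2 cd1q3 pd0 false true true .up 2 0 3
    ndB0q2 ndB1q3 pcB0 Cut.none Ext.none :=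
  certB1 (fam := false) (s1 := true) (s2 := true) (a := 2) (b := 0) (c := 3) (cn := .up) (n1 := ndB0q2) (n2 := ndB1q3) (pc := pcB0) (cut := Cut.none) (xt := Ext.none) (P1 := 0) (W1 := 536870912) (P2 := 1610612736) (W2 := 536870912) (P3 := 587336777) (W3 := 62277027) (N0 := 3) (En := eng) (mo := mog) (C1 := cd0q2) (C2 := cd1q3) (C3 := pd0)
    rfl (fun _ => rfl) k0_pp_203

noncomputable def cut_pp_213 : Cut := Cut.of [[⟨0, 1, 0, 67108864⟩, ⟨1, 1, 0, 67108864⟩, ⟨2, 2, 0, 16777216⟩]]

noncomputable def f_pp_213 : ℕ → ℕ → ℕ → ℕ → Bool := onCell 0 536870912 1610612736 536870912 587336777 62277027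
    (rowB 3 eng mog cd0q2 cd1q3 pd1 0 false true true .pnn 2 1 3 (qsf 0 536870912 1610612736 536870912 1) ndB0q2 ndB1q3 pcB1 cut_pp_213 Ext.none)

def k0_pp_213 : ∃ t, chk3 f_pp_213 t 1 1 1 = true :=
  ⟨(b (l 3) (a (l 3) (b (l 3) (a (l 3) (b (l 3) (b (l 3) (a (l 3) (b (l 3) (b (l 3) (l 6)))))))))), by decide +kernel⟩

theorem c_pp_213 : CertB 0 536870912 1610612736 536870912 587336777 62277027 3 eng mog cd0q2 cd1q3 pd1 false true true .pnn 2 1 3
    ndB0q2 ndB1q3 pcB1 cut_pp_213 Ext.none :=
  certB0 (fam := false) (s1 := true) (s2 := true) (a := 2) (b := 1) (c := 3) (cn := .pnn) (n1 := ndB0q2) (n2 := ndB1q3) (pc := pcB1) (cut := cut_pp_213) (xt := Ext.none) (P1 := 0) (W1 := 536870912) (P2 := 1610612736) (W2 := 536870912) (P3 := 587336777) (W3 := 62277027) (N0 := 3) (En := eng) (mo := mog) (C1 := cd0q2) (C2 := cd1q3) (C3 := pd1)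
    rfl k0_pp_213

noncomputable def f_pm_001 : ℕ → ℕ → ℕ → ℕ → Bool := onCell 0 536870912 0 536870912 587336777 62277027
    (rowB 3 eng mog cd0q0 cd1q1 pd0 1 false true false .up 0 0 1 (qsf 0 536870912 536870912 536870912 0) ndB0q0 ndB1q1 pcB0 Cut.none Ext.none)

def k0_pm_001 : ∃ t, chk3 f_pm_001 t 2 1 1 = true :=
  ⟨(l 4), by decide +kernel⟩

def k1_pm_001 : ∃ t, chk3 f_pm_001 t 3 2 1 = true :=
  ⟨(a (l 4) (b (l 4) (a (l 4) (b (l 4) (a (l 4) (b (l 4) (l 4))))))), by decide +kernel⟩

def k2_pm_001 : ∃ t, chk3 f_pm_001 t 3 6 1 = true :=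
  ⟨(a (l 4) (a (b (l 4) (a (l 4) (b (l 4) (a (l 4) (b (l 4) (l 16642264)))))) (b (a (b (l 4) (a (l 4) (l 31373244967))) (b (a (l 26541538759) (b (l 16695720) (l 16680440))) (a (b (l 16681848) (l 16663720)) (b (l 16665344) (l 16649632))))) (a (b (a (l 29762627991) (b (l 16664224) (l 16641832))) (a (b (l 16640800) (l 16612464)) (l 16584840))) (b (a (b (l 16645176) (l 16624864)) (b (l 16631472) (l 16611160))) (a (l 16572992) (b (l 16589752) (l 16568120)))))))), by decide +kernel⟩

def k3_pm_001 : ∃ t, chk3 f_pm_001 t 6 7 1 = true :=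
  ⟨(b (l 4) (a (l 4) (a (l 4) (b (l 4) (a (l 4) (b (l 27078070583) (a (l 16574096) (l 16549088)))))))), by decide +kernel⟩

def k4_pm_001 : ∃ t, chk3 f_pm_001 t 7 14 1 = true :=
  ⟨(a (b (a (l 4) (b (a (l 4) (l 16609000)) (a (b (l 16618480) (l 16597800)) (b (l 16582200) (l 16563920))))) (a (a (l 4) (b (l 4) (l 16628072))) (a (b (l 16613488) (l 16566968)) (b (l 16545576) (l 16520464))))) (a (b (b (l 16575024) (a (l 16552296) (l 16561640))) (a (b (l 16526896) (l 16497240)) (b (l 16510144) (a (l 16480952) (l 16470896))))) (b (b (a (l 16555368) (l 16547776)) (a (b (l 16539040) (l 16523744)) (b (l 16533672) (a (l 16517640) (c (l 16539888) (l 16502616)))))) (a (a (b (l 16499056) (b (l 16470880) (l 16473992))) (b (c (l 16505016) (l 16482416)) (c (b (l 16494488) (l 16472560)) (l 16464824)))) (b (b (a (l 16497200) (c (l 16510952) (l 16478600))) (a (c (l 16508264) (l 16465456)) (l 16469640))) (b (a (a (l 16456200) (l 16454016)) (l 16449688)) (l 16455744))))))), by decide +kernel⟩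

def k5_pm_001 : ∃ t, chk3 f_pm_001 t 7 15 1 = true :=
  ⟨(a (a (b (a (b (l 4) (l 16626360)) (b (l 16597968) (l 16528416))) (b (a (l 16574592) (l 16496632)) (a (l 16536424) (b (l 16503104) (l 16500968))))) (b (a (b (l 16521000) (l 16514856)) (b (l 16492360) (b (l 16470280) (l 16476320)))) (b (a (a (l 16474480) (l 16457544)) (a (l 16462448) (l 16425904))) (a (a (l 16469336) (l 16431448)) (a (b (l 16421512) (l 16409776)) (a (b (l 16409728) (l 16419360)) (b (l 16402776) (l 16391088)))))))) (a (b (a (a (b (l 16472104) (c (l 16445856) (l 16435808))) (b (l 16459248) (c (l 16432584) (l 16421456)))) (b (b (c (l 16456728) (l 16442664)) (c (a (l 16444928) (l 16434712)) (l 16427680))) (a (b (c (l 16429232) (l 16416640)) (c (l 16433272) (l 16400360))) (c (b (l 16417520) (l 16405912)) (l 16397216))))) (a (a (b (a (l 16414800) (b (l 16414224) (l 16400760))) (b (c (l 16417496) (l 16387544)) (l 16382944))) (b (b (a (l 16407824) (l 16421808)) (l 16392120)) (l 16398088))) (b (b (l 16412264) (l 16379680)) (c (l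 16409360) (l 16357264))))) (b (b (b (a (a (a (l 16436560) (l 16430992)) (l 16427088)) (l 16439824)) (a (c (l 16444088) (l 16406712)) (c (l 16414704) (l 16394624)))) (a (a (l 16419616) (l 16413688)) (b (l 16412472) (l 16379008)))) (b (a (b (l 16398656) (l 16364752)) (b (c (l 16376712) (l 16357360)) (l 16373816))) (b (a (l 16351656) (c (l 16344672) (l 16331440))) (a (l 16338712) (c (a (l 16331440) (l 16326280)) (l 16320456)))))))), by decide +kernel⟩

theorem s6_pm_001 : ∃ t, chk3 f_pm_001 t 7 7 1 = true := ex3_b k4_pm_001 k5_pm_001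

theorem s7_pm_001 : ∃ t, chk3 f_pm_001 t 3 7 1 = true := ex3_a k3_pm_001 s6_pm_001

theorem s8_pm_001 : ∃ t, chk3 f_pm_001 t 3 3 1 = true := ex3_b k2_pm_001 s7_pm_001

theorem s9_pm_001 : ∃ t, chk3 f_pm_001 t 3 1 1 = true := ex3_b k1_pm_001 s8_pm_001

theorem s10_pm_001 : ∃ t, chk3 f_pm_001 t 1 1 1 = true := ex3_a k0_pm_001 s9_pm_001

theorem c_pm_001 : CertB 0 536870912 536870912 536870912 587336777 62277027 3 eng mog cd0q0 cd1q1 pd0 false true false .up 0 0 1
    ndB0q0 ndB1q1 pcB0 Cut.none Ext.none :=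
  certB1 (fam := false) (s1 := true) (s2 := false) (a := 0) (b := 0) (c := 1) (cn := .up) (n1 := ndB0q0) (n2 := ndB1q1) (pc := pcB0) (cut := Cut.none) (xt := Ext.none) (P1 := 0) (W1 := 536870912) (P2 := 536870912) (W2 := 536870912) (P3 := 587336777) (W3 := 62277027) (N0 := 3) (En := eng) (mo := mog) (C1 := cd0q0) (C2 := cd1q1) (C3 := pd0)
    rfl (fun _ => rfl) s10_pm_001

noncomputable def f_pm_011 : ℕ → ℕ → ℕ → ℕ → Bool := onCell 0 536870912 536870912 536870912 587336777 62277027
    (rowB 3 eng mog cd0q0 cd1q1 pd1 0 false true false .pnn 0 1 1 (qsf 0 536870912 536870912 536870912 1) ndB0q0 ndB1q1 pcB1 Cut.none Ext.none)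

def k0_pm_011 : ∃ t, chk3 f_pm_011 t 2 1 1 = true :=
  ⟨(b (l 4) (a (l 4) (b (l 4) (b (l 4) (a (b (l 4) (a (l 4) (b (a (l 4) (a (l 4) (l 16627896))) (a (b (l 16650816) (l 16626448)) (b (l 16590960) (l 16577256)))))) (b (a (b (l 4) (a (l 4) (b (l 4) (l 16595352)))) (b (a (l 4) (b (l 4) (l 16583848))) (a (b (l 16589984) (l 16597672)) (l 16563816)))) (a (b (a (b (l 16600168) (l 16586640)) (b (l 16623888) (l 16568176))) (a (l 16576624) (l 16547992))) (b (a (l 16545600) (l 16515928)) (b (l 16547544) (l 16556256)))))))))), by decide +kernel⟩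

def k1_pm_011 : ∃ t, chk3 f_pm_011 t 3 2 1 = true :=
  ⟨(a (l 4) (l 1)), by decide +kernel⟩

def k2_pm_011 : ∃ t, chk3 f_pm_011 t 3 6 1 = true :=
  ⟨(a (a (l 4) (b (l 4) (a (l 4) (b (l 4) (b (a (l 4) (l 28151770119)) (a (l 16590368) (l 16567288))))))) (a (b (l 1) (b (l 1) (a (a (b (l 1) (l 16527000)) (l 1)) (l 1)))) (l 1))), by decide +kernel⟩

def k3_pm_011 : ∃ t, chk3 f_pm_011 t 3 7 1 = true :=
  ⟨(a (b (a (b (a (l 4) (a (l 4) (b (l 4) (l 16619264)))) (a (b (l 4) (a (b (l 4) (l 16588896)) (l 16598128))) (b (a (l 16608440) (l 16575872)) (a (l 16553008) (l 16529896))))) (b (a (b (a (l 4) (l 16581136)) (a (l 16575848) (l 16551200))) (b (a (l 16558584) (l 16517928)) (c (l 16543152) (l 16542296)))) (a (a (b (l 16530784) (l 16506096)) (l 16540728)) (b (a (l 16484520) (l 16466072)) (l 16492744))))) (a (b (a (b (a (l 16575376) (l 16549256)) (a (l 16564640) (l 16544408))) (b (a (l 16527568) (l 16505344)) (a (l 16503072) (l 16482168)))) (a (b (a (l 16517664) (l 16498112)) (a (l 16514432) (l 16475384)))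 (b (a (l 16479256) (l 16460424)) (l 16447920)))) (b (a (b (l 16492040) (c (l 16491120) (l 16490984))) (b (a (l 16436848) (l 16419672)) (l 16458200))) (b (a (l 16450984) (l 16387120)) (a (l 16431696) (l 16370584)))))) (a (b (b (a (a (b (l 16500152) (l 16474040)) (b (l 16505384) (l 16479536))) (a (b (l 1) (l 16466568)) (l 1))) (a (b (a (l 16448928) (l 16454632)) (a (l 16425000) (l 16410064))) (b (a (l 16420824) (l 16431056)) (a (l 16418768) (l 36540084535))))) (b (b (a (a (l 16402584) (l 16387072)) (a (l 16374904) (l 16364432))) (a (l 16374408) (l 16391240))) (a (c (l 16389944) (l 16388640)) (c (l 16376616) (l 16373688))))) (b (b (l 1) (a (b (l 1) (a (l 51035575047) (l 1))) (l 1))) (b (a (b (a (l 16354448) (l 16344736)) (l 42445559735)) (a (b (l 1) (l 16314984)) (l 1))) (a (b (l 16353080) (l 16337128)) (a (b (l 16296952) (l 16281272)) (b (l 16287024) (l 16293120)))))))), by decide +kernel⟩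

theorem s4_pm_011 : ∃ t, chk3 f_pm_011 t 3 3 1 = true := ex3_b k2_pm_011 k3_pm_011

theorem s5_pm_011 : ∃ t, chk3 f_pm_011 t 3 1 1 = true := ex3_b k1_pm_011 s4_pm_011

theorem s6_pm_011 : ∃ t, chk3 f_pm_011 t 1 1 1 = true := ex3_a k0_pm_011 s5_pm_011

theorem c_pm_011 : CertB 0 536870912 536870912 536870912 587336777 62277027 3 eng mog cd0q0 cd1q1 pd1 false true false .pnn 0 1 1
    ndB0q0 ndB1q1 pcB1 Cut.none Ext.none :=
  certB0 (fam := false) (s1 := true) (s2 := false) (a := 0) (b := 1) (c := 1) (cn := .pnn) (n1 := ndB0q0) (n2 := ndB1q1) (pc := pcB1) (cut := Cut.none) (xt := Ext.none) (P1 := 0) (W1 := 536870912) (P2 := 536870912) (W2 := 536870912) (P3 := 587336777) (W3 := 62277027) (N0 := 3) (En := eng) (mo := mog) (C1 := cd0q0) (C2 := cd1q1) (C3 := pd1)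
    rfl s6_pm_011

noncomputable def cut_pm_012_a : Cut := Cut.of [[⟨0, 0, 0, 67108864⟩, ⟨1, 1, 0, 67108864⟩, ⟨2, 1, 0, 67108864⟩]]

noncomputable def xt_pm_012_a : Ext := extD2 3 ⟨7, 3, 3, 10, 1815, 1000, 17, 20, 37, 100, 3, 16⟩ eng cd0q0 cd1q2a pd1 false true false .pnp 0 1 2 rfl ndB0q0 ndB1q2a pcB1

noncomputable def f_pm_012_a : ℕ → ℕ → ℕ → ℕ → Bool := onCell 0 536870912 0 536870912 587336777 62277027
    (rowB 3 eng mog cd0q0 cd1q2a pd1 0 false true false .pnp 0 1 2 (qsf 0 536870912 0 536870912 1) ndB0q0 ndB1q2a pcB1 cut_pm_012_a xt_pm_012_a)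

def k0_pm_012_a : ∃ t, chk3 f_pm_012_a t 4 2 1 = true :=
  ⟨(a (l 2) (b (l 2) (b (l 2) (a (l 2) (a (l 2) (b (l 2) (a (l 2) (l 177267501399)))))))), by decide +kernel⟩

def k1_pm_012_a : ∃ t, chk3 f_pm_012_a t 10 2 1 = true :=
  ⟨(b (a (a (l 2) (b (b (l 16477296) (l 16469728)) (b (a (l 2) (l 16466264)) (a (b (l 16461296) (l 16460896)) (l 16463824))))) (b (b (l 16488152) (l 16479864)) (b (a (l 16470904) (l 16477472)) (a (b (l 16468376) (l 16467568)) (b (l 16474512) (l 16473360)))))) (b (a (a (a (l 2) (b (b (l 2) (l 16470488)) (b (a (l 2) (l 16462392)) (a (l 16464144) (l 16464936))))) (b (a (b (l 16471672) (b (l 16461816) (l 16462480))) (b (l 16463608) (l 16464384))) (b (a (l 16463824) (l 16465792)) (a (l 16466152) (l 16467832))))) (b (a (b (l 16467408) (a (l 16466696) (l 16469096))) (b (l 16472832) (l 16472904))) (a (b (a (l 16467840) (l 16469984)) (l 16470504)) (b (l 16473400) (l 16474416))))) (a (b (a (a (b (l 16466592) (l 16470960)) (b (l 16467840) (l 16471824))) (b (a (l 16469136) (l 16470496))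 (l 16473224))) (a (b (l 16476224) (l 16481680)) (l 16500496))) (b (a (b (l 16472688) (l 16475344)) (b (l 16475968) (l 16477856))) (a (l 16480320) (l 16481520)))))), by decide +kernel⟩

def k2_pm_012_a : ∃ t, chk3 f_pm_012_a t 11 2 1 = true :=
  ⟨(b (a (b (b (l 16504416) (l 16516128)) (b (a (l 16484584) (l 16492272)) (a (b (l 16481176) (l 16479672)) (b (l 16488400) (l 16486544))))) (a (b (l 16534280) (b (l 16500512) (b (l 16496168) (l 16493952)))) (b (l 16564864) (b (l 16509288) (b (l 16504464) (l 16501872)))))) (b (a (b (a (b (l 16478768) (c (l 16483640) (l 16473224))) (b (l 16485256) (c (l 16490056) (l 16478944)))) (a (b (l 16478400) (l 16478824)) (b (l 16483936) (l 16483768)))) (b (a (b (c (l 16498048) (l 16486536)) (c (l 16497024) (l 16485152))) (b (c (l 16505960) (l 16493656)) (c (l 16504504) (l 16491840)))) (a (b (c (l 16496040) (l 16483952)) (l 16489224)) (b (c (l 16502992) (l 16490088)) (l 16495176))))) (a (b (a (b (l 16479736) (l 16480872)) (b (l 16484040) (l 16484424))) (a (l 16483232)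 (l 16485488))) (b (a (b (l 16488864) (l 16488496)) (b (l 16494176) (l 16493072))) (a (l 16488288) (l 16491600)))))), by decide +kernel⟩

def k3_pm_012_a : ∃ t, chk3 f_pm_012_a t 4 3 1 = true :=
  ⟨(b (a (l 2) (b (a (l 2) (b (a (l 16494496) (b (l 16488856) (l 16496520))) (a (l 16554152) (l 16529648)))) (a (a (b (l 2) (b (l 16558632) (l 16571736))) (b (a (l 16536552) (l 16534112)) (b (l 16552288) (l 16564328)))) (b (a (l 16530288) (l 16524944)) (l 16557848))))) (b (a (a (l 2) (b (a (l 2) (a (l 2) (l 16599488))) (a (l 6) (b (l 16625256) (l 16641792))))) (a (b (a (b (l 16585608) (l 16600208)) (l 16583864)) (a (l 16643664) (l 16610264))) (b (l 16603568) (a (l 16598264) (l 16586592))))) (a (a (l 6) (a (l 6) (a (l 6) (a (l 6) (b (b (l 16652488) (l 16667904)) (b (l 16683880) (b (l 16696032) (b (l 16702176) (c (l 16710616) (l 16706512)))))))))) (b (a (a (b (l 16643776) (a (l 16662384) (l 16655136))) (b (l 16651232) (l 16654992))) (b (a (l 16617184) (l 16604432)) (a (l 16630704) (l 16617240)))) (a (b (b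 (a (l 16670312) (l 16655536)) (a (a (l 16682024) (l 16674328)) (l 16663024))) (b (a (a (l 16690032) (l 16682160)) (a (l 16674408) (l 16666776))) (a (b (a (l 16696080) (l 16688064)) (a (a (c (l 16703968) (l 16700320)) (c (l 16699976) (l 16696144))) (b (l 16691040) (c (l 16695064) (l 16690896))))) (b (a (l 16680184) (l 16672416)) (a (b (l 16683088) (a (l 16687016) (l 16683048))) (c (l 16678488) (l 16673808))))))) (b (a (b (l 16641200) (l 16648320)) (l 16641088)) (b (a (l 16667320) (l 16640816)) (a (a (b (l 16664760) (a (l 16670384) (l 16666536))) (a (l 16666144) (l 16657120))) (a (b (l 16649712) (l 16653232)) (l 16644008)))))))))), by decide +kernel⟩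

def k4_pm_012_a : ∃ t, chk3 f_pm_012_a t 5 3 1 = true :=
  ⟨(b (a (b (a (b (a (l 16491072) (l 16489576)) (a (l 16504912) (l 16501224))) (b (l 16487928) (l 16517224))) (a (b (l 16537672) (l 16532008)) (b (l 16506168) (l 16516944)))) (b (a (b (l 16487424) (l 16491456)) (b (l 16489208) (l 16488976))) (a (b (b (l 16495344) (l 16498328)) (l 16545416)) (b (a (l 16491560) (l 16488768)) (a (l 16494920) (l 16490016)))))) (a (b (a (b (l 16570576) (a (l 16575112) (l 16563688))) (b (l 16530016) (l 16556728))) (b (a (b (a (l 16591896) (l 16579408)) (a (l 16603992) (l 16590800))) (b (l 16560416) (a (l 16577504) (l 16563912)))) (a (b (a (l 16616648) (l 16602752)) (a (b (l 16626328) (a (l 16636592) (l 16629200))) (b (l 16611912) (l 16639096)))) (a (b (l 16588760) (b (l 16597392) (l 16603256))) (b (a (l 16578080) (l 16570928)) (a (l 16610216) (l 16581976))))))) (b (a (b (l 16533024) (c (l 16566216) (l 16565304))) (a (b (a (l 16502064) (l 16498352)) (l 16508384)) (b (l 16513944) (l 16498304)))) (b (a (a (b (l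 16540504) (l 16550144)) (l 16595272)) (c (l 16534456) (l 16534504))) (a (b (a (b (l 16557840) (l 16563176)) (l 16546984)) (a (l 16571248) (l 16557000))) (b (a (l 16533448) (l 16519832)) (a (l 16542752) (l 16528408)))))))), by decide +kernel⟩

def k5_pm_012_a : ∃ t, chk3 f_pm_012_a t 6 4 1 = true :=
  ⟨(a (b (a (b (l 16543800) (a (l 16527392) (l 16537632))) (b (a (l 16560320) (l 16571232)) (a (l 16548112) (l 16558744)))) (a (b (a (l 16518544) (l 16528168)) (a (b (l 16513216) (l 16510248)) (b (l 16522328) (l 16518976)))) (b (a (l 16538032) (l 16548032)) (a (b (l 16531680) (l 16527936)) (b (l 16541168) (l 16537032)))))) (b (a (b (a (l 16582112) (l 16593280)) (a (a (l 16566760) (l 16572192)) (b (l 16583392) (l 16577152)))) (b (a (l 16604288) (l 16615088)) (a (b (l 16594096) (l 16587752)) (l 16601176)))) (a (a (b (a (l 16555576) (l 16560720)) (a (b (l 16548336) (l 16543952)) (l 16551072))) (b (l 16568576) (b (l 16560840) (l 16556072)))) (b (a (l 16578864) (b (l 16591848) (l 16585872))) (a (b (l 16570688)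 (l 16565576)) (b (l 16580248) (l 16574800))))))), by decide +kernel⟩

def k6_pm_012_a : ∃ t, chk3 f_pm_012_a t 6 5 1 = true :=
  ⟨(a (b (a (b (a (b (c (l 16514336) (l 16501224)) (c (l 16512432) (l 16498960))) (b (l 16516072) (c (l 16520688) (l 16506440)))) (a (b (c (l 16510400) (l 16496664)) (l 16501576)) (b (l 16500376) (l 16508328)))) (a (b (b (l 16524616) (c (l 16529144) (l 16514192))) (b (l 16518424) (l 16515312))) (b (b (l 16533296) (a (l 16527824) (l 16531976))) (a (b (l 16524208) (l 16520656)) (b (l 16528144) (l 16524424)))))) (a (b (a (b (l 16499944) (l 16498104)) (b (l 16506056) (l 16503504))) (a (l 16495400) (l 16499576))) (b (a (b (l 16512424) (l 16509160)) (b (l 16519168) (l 16515360))) (a (l 16504144) (l 16509376))))) (b (a (b (a (a (b (l 16539968) (l 16536344)) (l 16542784)) (b (l 16551664) (l 16547544))) (a (b (l 16534496) (l 16530416)) (b (l 16542936) (l 16538296)))) (b (a (b (l 16560792) (l 16556264)) (b (l 16569648) (l 16564720))) (a (b (l 16551160) (l 16545976)) (b (l 16559128)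 (l 16553400))))) (a (b (b (a (l 16526504) (l 16533768)) (l 16525328)) (a (l 16514816) (l 16520136))) (b (a (b (l 16540848) (l 16534968)) (l 16544456)) (a (l 16525288) (l 16530208)))))), by decide +kernel⟩

def k7_pm_012_a : ∃ t, chk3 f_pm_012_a t 7 2 1 = true :=
  ⟨(b (a (b (a (b (a (l 16625528) (l 16635472)) (a (l 16611144) (l 16620552))) (b (a (l 16644792) (l 16653552)) (a (l 16629344) (l 16637576)))) (a (b (a (b (l 16601336) (a (l 16593008) (l 16597616))) (b (l 16610384) (l 16625040))) (a (c (l 16593360) (l 16579688)) (b (l 16598008) (l 16591872)))) (b (a (l 16615464) (l 16623104)) (a (b (a (l 16603992) (l 16607680)) (l 16599440)) (b (l 16613000) (l 16606384)))))) (b (a (b (a (a (l 16659952) (l 16685176)) (b (a (l 16693632) (l 16676816)) (l 16666048))) (a (l 16645568) (l 16653400))) (b (a (b (l 16683024) (a (l 16672104) (l 16676096))) (l 16686768)) (a (l 16661088) (b (a (l 16671208) (l 16675216)) (l 16664464))))) (a (b (a (l 16630520) (l 16637792)) (a (b (l 16619960) (l 16612952)) (l 16623104)))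 (a (b (l 16644936) (l 16629624)) (b (l 16652152) (l 16636208)))))) (a (b (a (b (a (b (l 16578104) (l 16572784)) (l 16583168)) (a (l 16563616) (l 16570392))) (b (a (l 16590192) (l 16596584)) (a (l 16576480) (l 16581912)))) (a (b (a (l 16550560) (l 16556128)) (l 16536800)) (b (a (l 16560984) (l 16565168)) (l 16543264)))) (b (a (b (b (a (l 16606112) (l 16612184)) (l 16623072)) (a (l 16587040) (l 16591960))) (b (a (b (l 16618160) (l 16610496)) (l 16620168)) (a (l 16596688) (l 16601304)))) (a (b (a (l 16569008) (l 16572616)) (l 16547424)) (b (l 16577568) (l 16550288)))))), by decide +kernel⟩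

def k8_pm_012_a : ∃ t, chk3 f_pm_012_a t 6 3 1 = true :=
  ⟨(b (a (b (a (b (l 16514064) (l 16509848)) (b (a (l 16497408) (l 16500944)) (l 16491008))) (b (a (a (l 16486680) (l 16485280)) (l 16483448)) (a (b (l 16546752) (l 16483408)) (b (l 16477264) (l 16474056))))) (b (a (b (l 16506160) (l 16493464)) (b (l 16512640) (l 16495424))) (a (b (l 16480904) (l 16488704)) (b (l 16477872) (l 16459248))))) (a (b (a (b (l 16503424) (l 16483360)) (b (l 16468656) (l 16463728))) (a (b (l 16509264) (b (l 16541120) (a (l 16513912) (l 16499304)))) (b (l 16483640) (b (l 16513280) (a (l 16484632) (l 16469960)))))) (b (a (b (l 16454720) (l 16443952)) (b (l 16503032) (l 16423504))) (b (a (l 16458208) (a (l 16418696) (l 16407320))) (a (b (a (l 16450504) (l 16436784)) (a (l 16455336) (l 16441080))) (b (a (l 16423776) (l 16411800)) (a (l 16427736) (l 16415088)))))))), by decide +kernel⟩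

def k9_pm_012_a : ∃ t, chk3 f_pm_012_a t 7 6 1 = true :=
  ⟨(a (b (a (b (l 16517832) (l 16496016)) (b (l 16520240) (l 16493472))) (a (b (l 16473336) (l 16448800)) (b (l 16465128) (l 16434032)))) (b (a (b (l 16519888) (l 16487464)) (b (l 16517848) (l 16479416))) (a (b (l 16452656) (l 16414296)) (b (l 16437968) (l 16392200))))), by decide +kernel⟩

def k10_pm_012_a : ∃ t, chk3 f_pm_012_a t 7 14 1 = true :=
  ⟨(a (a (b (b (l 16472008) (l 16416664)) (l 16400208)) (b (b (l 16410256) (l 16392424)) (l 16378592))) (b (a (l 16417880) (b (l 16375872) (l 16370368))) (a (l 16371584) (a (l 16366944) (l 16363432))))), by decide +kernel⟩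

def k11_pm_012_a : ∃ t, chk3 f_pm_012_a t 14 15 1 = true :=
  ⟨(b (a (l 16434656) (a (l 16381376) (l 16375752))) (a (b (l 16416624) (a (l 16403280) (l 16392712))) (c (b (l 16381912) (a (l 16387352) (b (l 16379968) (l 16380728)))) (a (l 16380184) (l 16393640))))), by decide +kernel⟩

def k12_pm_012_a : ∃ t, chk3 f_pm_012_a t 15 30 1 = true :=
  ⟨(a (a (l 16370768) (l 16366112)) (a (c (l 16363776) (l 16359184)) (c (l 16358752) (l 16354248)))), by decide +kernel⟩

def k13_pm_012_a : ∃ t, chk3 f_pm_012_a t 30 31 1 = true :=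
  ⟨(b (a (l 16369920) (l 16364208)) (c (b (a (l 16373728) (l 16367664)) (a (c (a (l 16377928) (l 16374744)) (l 16371896)) (c (b (a (l 16371456) (l 16368328)) (a (c (b (l 16372744) (a (l 16373688) (c (l 16372648) (l 16371504)))) (l 16370528)) (b (l 592587241849145282615855) (c (b (l 592581189011246099110447) (c (b (l 592578306707484583238191) (a (c (a (l 593448762443462755865135) (l 593545031389097425900079)) (a (l 16371192) (l 593593454092290912309807))) (c (a (l 593642741486612854510127) (l 593742180966385193374255)) (a (l 593691164189806340919855) (l 593790315439202528072239))))) (a (l 16369904) (c (l 593883990311451834028591) (l 16367984))))) (a (l 16368136) (l 16366520)))))) (a (l 16367016) (l 16363824))))) (a (l 16365208) (b (l 16359048) (l 16358096))))), by decide +kernel⟩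

def k14_pm_012_a : ∃ t, chk3 f_pm_012_a t 31 62 2 = true :=
  ⟨(a (l 16362144) (b (l 16356424) (l 593919442647718468213295))), by decide +kernel⟩

def k15_pm_012_a : ∃ t, chk3 f_pm_012_a t 62 63 2 = true :=
  ⟨(b (a (l 16363144) (l 16360048)) (b (a (l 592921300855105105418799) (l 593261989159716422097455)) (a (c (b (l 592914959786829772266031) (a (b (l 592824167218341984770607) (a (c (c (c (a (l 593817697324936940540463) (l 593868137640763489243695)) (l 593985447403857235202607)) (l 594058657919399768232495)) (l 16365296)) (c (c (c (a (l 593919154417342341370415) (l 593970459424297345208879)) (l 594087480957014939456047)) (l 594160403242181320790575)) (l 594355535206836026085935)))) (b (l 592992493758014581070383) (b (l 592989034993500760545839) (c (c (a (c (a (l 594021764431252349063727) (l 594073934129335808037423)) (l 594190379201301098861103)) (a (l 594244566512017619948079) (l 594297312670853382328879))) (a (l 594263013256091328483887) (l 594367640882634398126639))) (c (l 594460162833379096105519)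 (l 16362656))))))) (c (l 16361744) (l 16359328))) (c (b (l 593262565620468729813551) (b (l 593254206939560330140207) (a (a (c (c (a (l 594256095727063686664751) (l 594403669679653362192943)) (l 594473709661058226311727)) (l 594667688704208324809263)) (c (c (a (l 594457280529617579692591) (l 594510891379581797192239)) (l 594580354900234357903919)) (l 594774045713008304706095))) (a (c (c (l 594591884115280426832431) (l 594688153060915096310319)) (l 594881267412936739705391)) (c (c (l 594700835197465772036655) (l 594796815912724289819183)) (l 594989642034369781518895)))))) (b (l 16357344) (c (a (l 16359240) (a (l 595081587524362174632495) (l 595186215150905244226095))) (l 16355984))))))), by decide +kernel⟩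

def k16_pm_012_a : ∃ t, chk3 f_pm_012_a t 63 126 2 = true :=
  ⟨(a (l 593664935225576508922415) (l 594040211175326030322223)), by decide +kernel⟩

def k17_pm_012_a : ∃ t, chk3 f_pm_012_a t 63 254 2 = true :=
  ⟨(a (l 593617953674263779072559) (c (l 594026952578023054645807) (l 593941348156305987705391))), by decide +kernel⟩

def k18_pm_012_a : ∃ t, chk3 f_pm_012_a t 63 255 4 = true :=
  ⟨(b (a (l 593626024124796031064623) (a (l 593908201663048551078447) (l 594100739554317890476591))) (b (a (a (l 593524278802014478604847) (l 593709034473127722048047)) (a (l 593897248908754785884719) (l 594089210339271821826607))) (a (c (a (c (a (l 594810939201155724071471) (l 594921907895974131192367)) (a (l 594906631686038090142255) (l 595111851713858107019823))) (c (a (l 595033741281920993432111) (l 595146727589372462469679)) (a (l 595223396869428817564207) (l 595336094946504134906415)))) (a (c (l 595105510645582768050735) (l 595211002963254292222511)) (a (l 595323989270705761571375) (c (l 595433228583267259535919)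 (l 595547944272975638516271))))) (a (b (l 593891772531607903296047) (a (c (c (l 595259713896823931474479) (l 595354253460201690747439)) (c (l 595543332586957211423279) (l 595644213218610308256303))) (b (l 593936736470287569279535) (c (c (l 595374141356156158988847) (l 595467816228405463142959)) (c (l 595573885006829290852911) (l 595659201198170195251759)))))) (a (b (l 594035023028555300969007) (b (l 594032140724793783818799) (c (c (c (l 595454557631102485008943) (l 595501250952039061246511)) (c (l 595547944272975637484079) (l 595594637593912213705263))) (c (c (l 595641619145224941605423) (l 595702147524216799957551)) (c (l 595756623065309472346671) (l 595808216302640627601967)))))) (b (l 594131580204566122322479) (c (b (l 594151179870144440818223) (b (l 594149738718263682243119) (b (l 594149162257511378819631) (c (c (a (l 595506150868433639821871) (c (a (l 595538432670562630996527) (l 595569273320810863612463)) (l 595576479080214656143919))) (a (l 595552555958994064347695) (c (l 595600690431811399406127)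 (l 595625190013784294380079)))) (c (a (l 595599249279930640585263) (c (l 595649689595757189337647) (l 595674477408106236023343))) (a (l 595645654370491065094703) (c (l 595698976990079130980911) (l 595723476572052025938479)))))))) (b (l 594104774779584010869295) (b (l 594103045397327100566063) (c (c (a (l 595697824068574523822639) (c (l 595756911295685623943727) (l 595787463715557704847919))) (a (l 595747976154024920551983) (c (l 595800145852108379607599) (l 595824645434081274548783)))) (c (a (l 595797840009099165569583) (c (l 595849145016054169489967) (l 595873932828403216126511))) (a (l 595847992094549562266159) (c (l 595898432410376111051311) (l 595922931992349005976111)))))))))))))), by decide +kernel⟩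

def k19_pm_012_a : ∃ t, chk3 f_pm_012_a t 63 255 5 = true :=
  ⟨(b (a (l 593557425295271914576431) (l 593912236888314664114735)) (a (b (l 593544166697968935541295) (a (c (a (l 595295454463466741109295) (l 595403540854523631178287)) (c (l 595557455875388642497071) (l 16352720))) (b (l 593624582972915261102639) (c (c (l 595535262136424961790511) (l 595633836925068844798511)) (a (l 595726070645437389787695) (c (l 595867879990504031326767) (l 595981442758707803247151))))))) (b (a (l 593808185722523897797167) (l 593987753246866410215983)) (b (a (l 593800979963120104839727) (c (l 594008794064325487368751) (l 593950283297966685084207))) (b (a (l 593797521198606284216879) (c (l 594005335299811666762287) (l 593946536303076712716847))) (c (a (c (a (l 595743364468006494736943) (l 595777952113144698163759)) (a (l 595854044932448749654575) (l 595849433246430320284207))) (c (a (c (l 595847992094549562675759) (l 595899297101504566186543)) (a (c (l 595927543678367433560623) (l 595977695763817830240815)) (c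 (c (l 595965301857643307045423) (l 595989801439616201970223)) (c (l 596014301021589096878639) (l 596038800603561991787055))))) (c (a (l 595945125731312687174191) (a (l 596027847849268226904623) (c (l 596063300185534886695471) (l 596075982322085561422383)))) (a (l 595993548434506173534767) (a (l 596077711704342471840303) (c (l 596100770134434608026159) (l 596125269716407502934575))))))) (b (a (l 593768698160991110535727) (l 593944518690443650685487)) (a (c (a (l 595864132995614057091631) (l 595973948768927857300015)) (a (l 595974525229680160182831) (l 596056959117259547791919))) (b (l 593943653999315195533871) (c (a (c (l 596056959117259548889647) (l 596108264124214552351279)) (c (a (l 596142563538976605737519) (l 596165045508316438221359)) (a (l 596192715624427002352175) (l 596214044672262227989039)))) (a (c (l 596159857361545707508271) (l 596211162368500710937135)) (c (a (l 596242867709877398950447) (l 596263332066584169452079)) (a (l 596292731564951643836975) (l 596300513785107739021871)))))))))))))),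 by decide +kernel⟩

def k20_pm_012_a : ∃ t, chk3 f_pm_012_a t 31 31 3 = true :=
  ⟨(b (a (l 16354904) (l 16348952)) (a (a (l 16353864) (b (l 16351408) (l 16355288))) (a (b (l 16348176) (c (b (l 16349512) (c (a (l 16351032) (b (l 16349392) (l 16349104))) (l 16347592))) (l 16344008))) (b (l 16344712) (c (b (l 16345904) (b (l 593792909512587845622319) (a (c (b (l 593723445991935287089711) (b (l 593715087311026887219759) (c (a (l 596148616376875791569455) (c (l 596177439414490961433135) (l 596230473803702875116079))) (a (l 16346960) (c (l 596283508192914788766255) (l 16345688)))))) (l 16344664)) (b (l 593858626038350433376815) (b (l 593849690896689730034223) (c (b (l 593880531546937965664815) (b (l 593878513934304903617071) (c (c (a (l 596265637909593383178799) (a (l 596345765954163557536303) (l 596376318374035637948975))) (a (l 596316942916548386591279) (a (l 596395918039613954085423) (l 596425317537981427651119)))) (a (c (l 596368247923503389970991) (l 596419841160834545062447)) (a (c (l 596445781894688198922799)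 (l 596495933980138595439151)) (c (l 596450970041458928701999) (l 596499969205404718387759))))))) (b (l 593807609261771577301551) (c (a (l 16343720) (a (c (l 596551562442735874511407) (l 16342656)) (c (l 596578367867717982687791) (l 596627655262039924052527)))) (l 16341904))))))))) (a (l 16341312) (l 16339432))))))), by decide +kernel⟩

theorem s21_pm_012_a : ∃ t, chk3 f_pm_012_a t 63 255 2 = true := ex3_c k18_pm_012_a k19_pm_012_a

theorem s22_pm_012_a : ∃ t, chk3 f_pm_012_a t 63 127 2 = true := ex3_b k17_pm_012_a s21_pm_012_a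

theorem s23_pm_012_a : ∃ t, chk3 f_pm_012_a t 63 63 2 = true := ex3_b k16_pm_012_a s22_pm_012_a

theorem s24_pm_012_a : ∃ t, chk3 f_pm_012_a t 31 63 2 = true := ex3_a k15_pm_012_a s23_pm_012_a

theorem s25_pm_012_a : ∃ t, chk3 f_pm_012_a t 31 31 2 = true := ex3_b k14_pm_012_a s24_pm_012_a

theorem s26_pm_012_a : ∃ t, chk3 f_pm_012_a t 31 31 1 = true := ex3_c s25_pm_012_a k20_pm_012_a

theorem s27_pm_012_a : ∃ t, chk3 f_pm_012_a t 15 31 1 = true := ex3_a k13_pm_012_a s26_pm_012_a

theorem s28_pm_012_a : ∃ t, chk3 f_pm_012_a t 15 15 1 = true := ex3_b k12_pm_012_a s27_pm_012_a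

theorem s29_pm_012_a : ∃ t, chk3 f_pm_012_a t 7 15 1 = true := ex3_a k11_pm_012_a s28_pm_012_a

theorem s30_pm_012_a : ∃ t, chk3 f_pm_012_a t 7 7 1 = true := ex3_b k10_pm_012_a s29_pm_012_a

theorem s31_pm_012_a : ∃ t, chk3 f_pm_012_a t 7 3 1 = true := ex3_b k9_pm_012_a s30_pm_012_a

theorem s32_pm_012_a : ∃ t, chk3 f_pm_012_a t 3 3 1 = true := ex3_a k8_pm_012_a s31_pm_012_a

theorem s33_pm_012_a : ∃ t, chk3 f_pm_012_a t 6 2 1 = true := ex3_b k5_pm_012_a k6_pm_012_a

theorem s34_pm_012_a : ∃ t, chk3 f_pm_012_a t 3 2 1 = true := ex3_a s33_pm_012_a k7_pm_012_a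

theorem s35_pm_012_a : ∃ t, chk3 f_pm_012_a t 3 1 1 = true := ex3_b s34_pm_012_a s32_pm_012_a

theorem s36_pm_012_a : ∃ t, chk3 f_pm_012_a t 2 3 1 = true := ex3_a k3_pm_012_a k4_pm_012_a

theorem s37_pm_012_a : ∃ t, chk3 f_pm_012_a t 5 2 1 = true := ex3_a k1_pm_012_a k2_pm_012_a

theorem s38_pm_012_a : ∃ t, chk3 f_pm_012_a t 2 2 1 = true := ex3_a k0_pm_012_a s37_pm_012_a

theorem s39_pm_012_a : ∃ t, chk3 f_pm_012_a t 2 1 1 = true := ex3_b s38_pm_012_a s36_pm_012_a

theorem s40_pm_012_a : ∃ t, chk3 f_pm_012_a t 1 1 1 = true := ex3_a s39_pm_012_a s35_pm_012_a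

theorem c_pm_012_a : CertB 0 536870912 0 536870912 587336777 62277027 3 eng mog cd0q0 cd1q2a pd1 false true false .pnp 0 1 2
    ndB0q0 ndB1q2a pcB1 cut_pm_012_a xt_pm_012_a :=
  certB0 (fam := false) (s1 := true) (s2 := false) (a := 0) (b := 1) (c := 2) (cn := .pnp) (n1 := ndB0q0) (n2 := ndB1q2a) (pc := pcB1) (cut := cut_pm_012_a) (xt := xt_pm_012_a) (P1 := 0) (W1 := 536870912) (P2 := 0) (W2 := 536870912) (P3 := 587336777) (W3 := 62277027) (N0 := 3) (En := eng) (mo := mog) (C1 := cd0q0) (C2 := cd1q2a) (C3 := pd1)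
    rfl s40_pm_012_a

noncomputable def cut_pm_012_b : Cut := Cut.of [[⟨0, 0, 0, 67108864⟩, ⟨1, 1, 0, 67108864⟩, ⟨2, 1, 0, 67108864⟩]]

noncomputable def f_pm_012_b : ℕ → ℕ → ℕ → ℕ → Bool := onCell 0 536870912 1239849684 370763052 587336777 62277027
    (rowB 3 eng mog cd0q0 cd1q2b pd1 0 false true false .pnp 0 1 2 (qsf 0 536870912 1239849684 370763052 1) ndB0q0 ndB1q2b pcB1 cut_pm_012_b Ext.none)

def k0_pm_012_b : ∃ t, chk3 f_pm_012_b t 1 1 1 = true :=
  ⟨(a (b (a (l 2) (b (b (a (a (a (l 2) (l 16473984)) (a (b (l 16465480) (l 2)) (b (l 16474200) (l 16426920)))) (a (a (l 16523952) (l 16471928)) (a (l 16483424) (l 16495512)))) (a (l 2) (a (a (l 16366112) (l 16464576)) (b (l 16426064) (l 16423280))))) (a (l 2) (a (l 2) (b (a (l 2) (l 16320984)) (l 2)))))) (l 2)) (b (a (b (a (b (a (b (l 16532624) (l 16495976)) (b (a (l 16550904) (l 16562880)) (l 16545448))) (a (a (l 16428560) (l 16445560)) (a (l 16462824) (l 16480224)))) (a (b (b (a (l 16574848) (l 16586928)) (l 16552296)) (b (l 16521816) (l 16489656)))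 (b (b (a (l 16599032) (l 16610984)) (l 16579648)) (b (l 16552632) (l 16524344))))) (a (a (b (b (l 16373816) (l 16329584)) (l 2)) (b (l 16415496) (b (l 16332616) (l 16289608)))) (a (b (l 16458744) (l 16362592)) (b (l 16500000) (l 16413440))))) (b (a (a (b (b (a (l 16622552) (l 16633624)) (l 16606184)) (l 16632864)) (b (b (a (l 16644072) (l 16654008)) (l 16630536)) (l 16599088))) (b (a (b (a (a (l 16661304) (l 16666184)) (b (l 16676328) (l 16669976))) (l 16674544)) (b (a (l 16682744) (l 16692280)) (l 16675768))) (a (l 16626632) (b (l 16661456) (l 16645640))))) (a (b (a (l 16517368) (l 16552432)) (a (l 16460336) (l 16502136))) (a (b (l 16585880) (l 16541152)) (b (l 16619264) (l 16579952)))))) (a (a (l 2) (b (a (b (l 16282400) (l 2)) (b (l 16341496) (l 16265576))) (l 2))) (a (b (a (b (l 16398208) (l 16330384)) (b (l 16448272) (l 16390016))) (a (l 2) (l 16356768))) (a (b (b (l 16493824) (l 16443728)) (b (l 16389840) (l 16331528))) (b (b (l 16538376) (l 16495056)) (a (l 16493664) (l 16525608)))))))),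 by decide +kernel⟩

theorem c_pm_012_b : CertB 0 536870912 1239849684 370763052 587336777 62277027 3 eng mog cd0q0 cd1q2b pd1 false true false .pnp 0 1 2
    ndB0q0 ndB1q2b pcB1 cut_pm_012_b Ext.none :=
  certB0 (fam := false) (s1 := true) (s2 := false) (a := 0) (b := 1) (c := 2) (cn := .pnp) (n1 := ndB0q0) (n2 := ndB1q2b) (pc := pcB1) (cut := cut_pm_012_b) (xt := Ext.none) (P1 := 0) (W1 := 536870912) (P2 := 1239849684) (W2 := 370763052) (P3 := 587336777) (W3 := 62277027) (N0 := 3) (En := eng) (mo := mog) (C1 := cd0q0) (C2 := cd1q2b) (C3 := pd1)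
    rfl k0_pm_012_b

noncomputable def cut_pm_022_a : Cut := Cut.of [[⟨0, 0, 0, 67108864⟩, ⟨1, 1, 0, 67108864⟩, ⟨2, 1, 0, 67108864⟩]]

noncomputable def f_pm_022_a : ℕ → ℕ → ℕ → ℕ → Bool := onCell 0 536870912 0 536870912 587336777 62277027
    (rowB 3 eng mog cd0q0 cd1q2a pd2 0 false true false .pp 0 2 2 (qsf 0 536870912 0 536870912 2) ndB0q0 ndB1q2a pcB2 cut_pm_022_a Ext.none)

def k0_pm_022_a : ∃ t, chk3 f_pm_022_a t 4 2 1 = true :=
  ⟨(b (a (b (b (l 16458880) (l 16480440)) (b (l 16493784) (a (l 16488496) (l 16467112)))) (a (b (l 16464928) (b (l 16463824) (l 16466096))) (b (l 16530584) (b (l 16463824) (l 16485144))))) (a (b (b (a (a (l 16476384) (l 16475392)) (b (a (l 16472136) (l 16470952)) (l 16538280))) (a (a (b (l 16484512) (l 16490792)) (l 16506536)) (a (l 16483096) (l 16480488)))) (a (a (c (b (a (l 16544968) (l 16501720)) (b (l 16514168) (l 16522936))) (b (l 16516776) (b (l 16513376) (l 16522600)))) (b (b (l 16494648) (l 16501600)) (b (l 16519720) (c (l 16518400) (l 16516992))))) (b (a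 (b (l 16491208) (l 16497480)) (b (l 16487568) (l 16493120))) (a (b (l 16504408) (l 16511976)) (b (l 16499304) (l 16506104)))))) (b (a (a (b (b (l 16469816) (l 16472768)) (l 16477848)) (b (l 16469528) (b (l 16473776) (l 16476584)))) (b (a (l 16467760) (l 16465424)) (a (b (l 16492136) (l 16473456)) (b (l 16489024) (a (l 16471072) (l 16469496)))))) (a (b (a (b (l 16483832) (l 16488616)) (b (l 16479984) (l 16483960))) (a (b (l 16494008) (l 16499976)) (b (l 16488504) (l 16493600)))) (b (a (b (l 16476024) (l 16479120)) (b (a (l 16472944) (l 16470840)) (a (l 16475360) (c (l 16476592) (l 16469152))))) (a (b (a (l 16484224) (l 16481288)) (a (l 16488624) (l 16485216))) (b (a (l 16478296) (c (l 16479144) (l 16471448))) (a (l 16502688) (c (l 16482144) (l 16474264)))))))))), by decide +kernel⟩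

def k1_pm_022_a : ∃ t, chk3 f_pm_022_a t 5 2 1 = true :=
  ⟨(a (a (a (b (b (l 16468680) (b (l 16462784) (l 16482640))) (b (b (b (l 16462080) (a (l 16463888) (l 16462200))) (b (a (l 16465584) (l 16463624)) (a (b (l 16467064) (l 16467960)) (b (l 16465032) (l 71436810391))))) (b (b (a (b (l 16468384) (l 16468968)) (l 205117652967)) (a (c (l 16474224) (l 16476688)) (l 1))) (b (a (c (l 16476296) (l 16467968)) (l 1)) (l 1))))) (b (b (l 16468680) (b (l 124050128407) (b (l 118681416215) (l 113849571319)))) (a (b (b (b (l 109017742215) (l 98817198679)) (b (l 1) (l 1))) (l 1)) (l 1)))) (b (b (l 1) (l 1)) (l 1))) (l 1)), by decide +kernel⟩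

def k2_pm_022_a : ∃ t, chk3 f_pm_022_a t 4 3 1 = true :=
  ⟨(b (a (a (a (b (b (b (a (l 16533648) (l 16530952)) (a (l 16543512) (l 16541256))) (b (a (l 16553888) (l 16551696)) (a (c (l 16565816) (l 16563600)) (l 16562416)))) (b (a (b (l 16576488) (l 16588696)) (b (l 16573840) (l 16585808))) (a (b (l 16601520) (l 16615272)) (b (l 16598384) (l 16611896))))) (b (b (b (a (l 16528048) (l 16525000)) (l 16551992)) (b (l 16546744) (l 16557928))) (b (b (l 16569328) (l 16580928)) (b (l 16593136) (l 16606256))))) (b (b (a (b (l 16541184) (l 16550120)) (b (l 16513536) (l 16521640))) (a (b (l 16538800) (l 16549128)) (b (l 16530424) (l 16539840)))) (b (b (a (l 16560008) (l 16549776)) (a (l 16571624) (l 16581368))) (a (b (l 16583920) (l 16596608)) (a (l 16580768) (l 16595160)))))) (b (a (b (a (b (l 16506560) (l 16513768)) (b (l 16499272) (l 16505536))) (a (b (l 16521632) (l 16530080)) (b (l 16512408) (l 16519824)))) (b (a (b (a (l 16493576) (l 16489664)) (a (l 16499088) (l 16494656))) (b (b (a (l 16484592)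 (l 16480600)) (l 14528490983)) (a (l 16490104) (l 1)))) (a (b (l 16502704) (l 16509024)) (l 1)))) (b (a (a (b (l 16539016) (l 16548576)) (b (l 16527680) (l 16536104))) (b (a (l 16515720) (l 1)) (l 1))) (a (a (b (l 16558712) (l 16569128)) (b (l 16545056) (l 1))) (l 1))))) (a (b (b (b (a (a (a (l 16629720) (l 16626088)) (l 16620064)) (a (l 16609936) (a (l 16599120) (l 16591656)))) (a (b (a (a (l 16640952) (l 16637136)) (l 16630816)) (l 6)) (a (l 16623880) (l 48888482519)))) (a (l 6) (a (l 6) (a (l 6) (a (l 6) (l 1)))))) (a (l 6) (a (l 6) (l 1)))) (b (a (b (a (b (l 16580056) (l 16612424)) (l 1)) (l 1)) (l 1)) (l 1)))), by decide +kernel⟩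

def k3_pm_022_a : ∃ t, chk3 f_pm_022_a t 5 3 1 = true :=
  ⟨(b (l 1) (l 1)), by decide +kernel⟩

def k4_pm_022_a : ∃ t, chk3 f_pm_022_a t 3 1 1 = true :=
  ⟨(l 1), by decide +kernel⟩

theorem s5_pm_022_a : ∃ t, chk3 f_pm_022_a t 2 3 1 = true := ex3_a k2_pm_022_a k3_pm_022_a

theorem s6_pm_022_a : ∃ t, chk3 f_pm_022_a t 2 2 1 = true := ex3_a k0_pm_022_a k1_pm_022_a

theorem s7_pm_022_a : ∃ t, chk3 f_pm_022_a t 2 1 1 = true := ex3_b s6_pm_022_a s5_pm_022_a

theorem s8_pm_022_a : ∃ t, chk3 f_pm_022_a t 1 1 1 = true := ex3_a s7_pm_022_a k4_pm_022_a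

theorem c_pm_022_a : CertB 0 536870912 0 536870912 587336777 62277027 3 eng mog cd0q0 cd1q2a pd2 false true false .pp 0 2 2
    ndB0q0 ndB1q2a pcB2 cut_pm_022_a Ext.none :=
  certB0 (fam := false) (s1 := true) (s2 := false) (a := 0) (b := 2) (c := 2) (cn := .pp) (n1 := ndB0q0) (n2 := ndB1q2a) (pc := pcB2) (cut := cut_pm_022_a) (xt := Ext.none) (P1 := 0) (W1 := 536870912) (P2 := 0) (W2 := 536870912) (P3 := 587336777) (W3 := 62277027) (N0 := 3) (En := eng) (mo := mog) (C1 := cd0q0) (C2 := cd1q2a) (C3 := pd2)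
    rfl s8_pm_022_a

noncomputable def cut_pm_022_b : Cut := Cut.of [[⟨0, 0, 0, 67108864⟩, ⟨1, 1, 0, 67108864⟩, ⟨2, 1, 0, 67108864⟩]]

noncomputable def f_pm_022_b : ℕ → ℕ → ℕ → ℕ → Bool := onCell 0 536870912 1073741824 536870912 587336777 62277027
    (rowB 3 eng mog cd0q0 cd1q2b pd2 1 false true false .pp 0 2 2 (qsf 0 536870912 1239849684 370763052 2) ndB0q0 ndB1q2b pcB2 cut_pm_022_b Ext.none)

def k0_pm_022_b : ∃ t, chk3 f_pm_022_b t 1 1 1 = true :=
  ⟨(b (a (a (b (a (b (l 1) (a (b (l 1) (l 157873108551)) (b (l 126197758679) (l 16479992)))) (a (b (b (l 1) (l 93448673959)) (l 16538480)) (b (b (l 41372259335) (l 16490072)) (l 16423592)))) (b (a (b (a (l 16494984) (l 16396248)) (l 16487400)) (b (l 16362696) (l 16309984))) (a (l 16377552) (l 16222872)))) (b (a (b (a (b (b (l 16507424) (l 16457880)) (l 16437120)) (l 16500200)) (a (l 16357560) (l 16299896))) (b (a (l 16418472) (l 16367264)) (l 16325736))) (b (a (b (l 16246184) (l 16201672)) (b (l 16209760) (l 16177080))) (a (l 16134720) (l 16131888)))))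 (a (b (a (b (a (l 16304864) (l 16293960)) (l 16247680)) (b (a (l 16291936) (l 16298192)) (l 16265384))) (a (b (l 16202320) (l 16168920)) (b (l 16240304) (l 16230448)))) (b (a (a (l 16386416) (l 16321952)) (b (l 16362120) (l 16358736))) (a (b (l 16294320) (l 2)) (l 2))))) (a (b (a (b (a (l 16279440) (l 16076560)) (a (b (l 16153192) (l 16097280)) (l 16027472))) (b (a (l 16030296) (l 16059096)) (a (l 15942328) (l 15964032)))) (a (b (a (l 16097344) (l 16056616)) (a (l 16112296) (l 16098408))) (b (l 16026376) (l 2)))) (b (a (a (l 16333136) (l 2)) (l 2)) (l 2)))), by decide +kernel⟩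

theorem c_pm_022_b : CertB 0 536870912 1239849684 370763052 587336777 62277027 3 eng mog cd0q0 cd1q2b pd2 false true false .pp 0 2 2
    ndB0q0 ndB1q2b pcB2 cut_pm_022_b Ext.none :=
  certB1 (fam := false) (s1 := true) (s2 := false) (a := 0) (b := 2) (c := 2) (cn := .pp) (n1 := ndB0q0) (n2 := ndB1q2b) (pc := pcB2) (cut := cut_pm_022_b) (xt := Ext.none) (P1 := 0) (W1 := 536870912) (P2 := 1239849684) (W2 := 370763052) (P3 := 587336777) (W3 := 62277027) (N0 := 3) (En := eng) (mo := mog) (C1 := cd0q0) (C2 := cd1q2b) (C3 := pd2)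
    rfl (fun _ => rfl) k0_pm_022_b

noncomputable def f_pm_023 : ℕ → ℕ → ℕ → ℕ → Bool := onCell 0 536870912 1073741824 536870912 587336777 62277027
    (rowB 3 eng mog cd0q0 cd1q3 pd2 1 false true false .up 0 2 3 (qsf 0 536870912 1610612736 536870912 2) ndB0q0 ndB1q3 pcB2 Cut.none Ext.none)

def k0_pm_023 : ∃ t, chk3 f_pm_023 t 1 1 1 = true :=
  ⟨(b (a (a (l 1) (b (l 1) (b (l 1) (l 299069441623)))) (a (b (a (l 1) (l 214781263015)) (b (a (l 16197736) (l 16231816)) (l 170220954951))) (b (a (l 201359618071) (b (l 16350032) (l 16343608))) (b (a (l 16281536) (l 16340216)) (l 16352664))))) (a (b (a (b (l 1) (l 267930907479)) (b (l 195990167303) (l 234108043607))) (a (b (l 275984325271) (l 326986993335)) (b (l 16014776) (l 16262552)))) (b (a (a (l 16295336) (l 16265056)) (b (l 16446200) (l 16525528))) (a (b (l 16402960) (l 16517848)) (l 16627200))))), by decide +kernel⟩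

theorem c_pm_023 : CertB 0 536870912 1610612736 536870912 587336777 62277027 3 eng mog cd0q0 cd1q3 pd2 false true false .up 0 2 3
    ndB0q0 ndB1q3 pcB2 Cut.none Ext.none :=
  certB1 (fam := false) (s1 := true) (s2 := false) (a := 0) (b := 2) (c := 3) (cn := .up) (n1 := ndB0q0) (n2 := ndB1q3) (pc := pcB2) (cut := Cut.none) (xt := Ext.none) (P1 := 0) (W1 := 536870912) (P2 := 1610612736) (W2 := 536870912) (P3 := 587336777) (W3 := 62277027) (N0 := 3) (En := eng) (mo := mog) (C1 := cd0q0) (C2 := cd1q3) (C3 := pd2)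
    rfl (fun _ => rfl) k0_pm_023

noncomputable def f_pm_033 : ℕ → ℕ → ℕ → ℕ → Bool := onCell 1610612736 536870912 1610612736 536870912 587336777 62277027
    (rowB 3 eng mog cd0q0 cd1q3 pd3 2 false true false .pnn 0 3 3 (qsf 0 536870912 1610612736 536870912 3) ndB0q0 ndB1q3 pcB3 Cut.none Ext.none)

def k0_pm_033 : ∃ t, chk3 f_pm_033 t 1 1 1 = true :=
  ⟨(a (a (b (b (a (b (l 16130728) (l 16144408)) (b (l 476773952871) (l 16185968))) (a (b (l 16279024) (l 16398296)) (b (l 16294056) (l 16389336)))) (b (a (b (l 16499320) (l 16581288)) (b (l 16476560) (l 16552360))) (a (l 16662800) (l 16638096)))) (a (b (l 4) (b (b (l 16470752) (l 16532872)) (b (l 16589712) (l 16639200)))) (l 4))) (l 4)), by decide +kernel⟩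

theorem c_pm_033 : CertB 0 536870912 1610612736 536870912 587336777 62277027 3 eng mog cd0q0 cd1q3 pd3 false true false .pnn 0 3 3
    ndB0q0 ndB1q3 pcB3 Cut.none Ext.none :=
  certB2 (fam := false) (s1 := true) (s2 := false) (a := 0) (b := 3) (c := 3) (cn := .pnn) (n1 := ndB0q0) (n2 := ndB1q3) (pc := pcB3) (cut := Cut.none) (xt := Ext.none) (P1 := 0) (W1 := 536870912) (P2 := 1610612736) (W2 := 536870912) (P3 := 587336777) (W3 := 62277027) (N0 := 3) (En := eng) (mo := mog) (C1 := cd0q0) (C2 := cd1q3) (C3 := pd3)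
    rfl (fun _ => rfl) k0_pm_033

noncomputable def xt_pm_101 : Ext := extD2 3 ⟨7, 3, 3, 10, 1815, 1000, 17, 20, 37, 100, 3, 16⟩ eng cd0q1 cd1q1 pd0 false true false .npn 1 0 1 rfl ndB0q1 ndB1q1 pcB0

noncomputable def f_pm_101 : ℕ → ℕ → ℕ → ℕ → Bool := onCell 536870912 536870912 536870912 536870912 587336777 62277027
    (rowB 3 eng mog cd0q1 cd1q1 pd0 0 false true false .npn 1 0 1 (qsf 536870912 536870912 536870912 536870912 0) ndB0q1 ndB1q1 pcB0 Cut.none xt_pm_101)

def k0_pm_101 : ∃ t, chk3 f_pm_101 t 2 2 1 = true :=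
  ⟨(a (b (a (l 4) (b (l 4) (b (l 4) (b (l 4) (a (l 4) (a (l 4) (l 16739984))))))) (a (b (l 4) (a (b (l 4) (a (l 16727416) (l 16703824))) (b (a (l 16721992) (b (l 16722944) (l 16714848))) (l 16765992)))) (b (b (a (a (l 4) (l 57680108679)) (a (l 39426501783) (l 16774856))) (a (a (l 54458906471) (l 16791368)) (a (l 16727104) (l 16727912)))) (a (b (a (l 16717864) (l 16718592)) (a (l 16705792) (l 16708664))) (b (l 16721872) (l 16735752)))))) (b (a (b (l 1) (a (b (l 1) (b (l 1) (a (l 16737032) (l 1)))) (l 1))) (l 1)) (a (b (a (b (a (l 16731792) (l 16733880)) (a (l 16730264) (l 16734248))) (b (l 103649791911) (l 16785728))) (b (a (l 16731232) (l 16746472)) (a (l 16727656) (l 16746344)))) (a (b (b (l 1) (l 16804856)) (b (l 16767800) (l 16770136))) (b (l 1) (b (l 88080741207) (l 36541126599))))))), by decide +kernel⟩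

def k1_pm_101 : ∃ t, chk3 f_pm_101 t 4 6 1 = true :=
  ⟨(a (b (a (b (a (b (l 16686752) (l 16674696)) (l 16682616)) (a (b (l 16661488) (l 16646384)) (b (l 16665904) (l 16652296)))) (b (a (l 16685096) (l 16688304)) (b (l 16672624) (l 16745512)))) (a (b (a (b (l 16628648) (l 16609592)) (b (l 16636144) (l 16618624))) (a (b (l 16589600) (l 16569656)) (b (l 16600136) (l 16581296)))) (a (b (l 16636096) (b (l 16610736) (l 16592944))) (b (l 16666416) (b (l 16622080) (l 16605248)))))) (b (a (b (l 16694296) (b (l 16683592) (l 16675056))) (b (l 16726416) (l 16693760))) (b (a (a (l 16654856) (l 16664008)) (l 16677384)) (a (b (l 16640408) (a (l 16619224) (l 16633488))) (b (a (l 16658696) (l 16670400)) (a (l 16646296) (l 16658624))))))), by decide +kernel⟩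

def k2_pm_101 : ∃ t, chk3 f_pm_101 t 4 14 1 = true :=
  ⟨(a (b (a (b (a (l 16530304) (l 16563376)) (a (b (c (l 16547272) (l 16518552)) (a (c (l 16548752) (l 16505992)) (l 16543840))) (b (a (l 16549008) (l 16553640)) (l 16522032)))) (b (a (a (l 16573504) (l 16600680)) (a (l 16606376) (l 16591176))) (a (b (l 16562376) (l 16575776)) (l 16572040)))) (a (b (a (a (l 16485680) (b (l 16515128) (l 16491480))) (a (b (l 16530232) (l 16521688)) (b (l 16537072) (l 16505808)))) (a (c (a (l 16456504) (l 16477736)) (l 16438376)) (a (a (l 16470624) (l 16479184)) (b (a (l 16502864) (l 16513848)) (l 16481256))))) (b (a (b (l 16567528) (l 16517072)) (b (l 16560120) (l 16573544))) (b (a (a (l 16503072) (l 16532800)) (l 16607584)) (a (a (b (l 16511880) (l 16499704)) (l 16501168)) (c (l 16568784) (l 16504000))))))) (b (a (a (b (b (l 16605600) (l 16598288)) (l 16586536)) (a (l 16668744) (l 16613616))) (b (a (l 16632760) (l 16648336)) (c (l 16651272) (l 16602104)))) (a (a (b (l 16571288) (b (l 16560224) (l 16616360)))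 (c (l 16609544) (l 16551688))) (a (c (l 16625592) (l 16569976)) (l 16678088))))), by decide +kernel⟩

def k3_pm_101 : ∃ t, chk3 f_pm_101 t 8 15 1 = true :=
  ⟨(b (a (b (c (b (a (l 16437128) (l 16475920)) (a (l 16421760) (l 16449584))) (a (l 16404912) (l 16427944))) (b (a (a (l 16391416) (l 16401136)) (c (l 16432312) (l 16403648))) (a (a (l 16378856) (l 16388224)) (a (l 16398440) (l 16409712))))) (b (a (b (a (l 16479072) (b (l 16489056) (l 16498192))) (l 16465248)) (b (a (l 16500104) (l 16531816)) (a (b (l 16488064) (l 16497584)) (l 16499888)))) (b (a (l 16446272) (a (l 16478552) (a (l 16497752) (l 16488080)))) (a (c (l 16452400) (l 16412800)) (l 16466864))))) (a (b (a (a (b (c (l 16377736) (l 16355560)) (c (l 16363304) (l 16343016))) (b (l 16375896) (c (l 16375784) (l 16351752)))) (b (a (l 16385904) (l 16396616)) (a (l 16373840) (l 16405480)))) (b (a (a (l 16337792) (a (l 16347112) (l 16353480))) (a (a (l 16380400) (l 16364816)) (l 16372768))) (a (c (a (l 16360640) (c (l 16347800) (l 16339536)))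 (a (l 16317344) (l 16326240))) (a (b (c (c (l 16391888) (l 16358792)) (l 16340264)) (c (l 16357104) (l 16334368))) (b (l 16364560) (l 16381336)))))) (b (b (a (c (l 16431280) (l 16398392)) (l 16444808)) (a (c (l 16418120) (l 16385624)) (l 591310669513169519841327))) (a (b (a (l 16384264) (l 16396440)) (b (a (l 16376008) (l 16388328)) (l 588058706406845604307503))) (a (b (l 16409712) (l 16399120)) (b (l 16424472) (l 16412896))))))), by decide +kernel⟩

def k4_pm_101 : ∃ t, chk3 f_pm_101 t 9 15 1 = true :=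
  ⟨(b (a (b (a (b (c (l 16578832) (l 16513312)) (b (l 16540120) (l 595934461207395582513199))) (b (l 16563336) (b (l 16558528) (l 16555760)))) (b (a (a (b (l 16524856) (a (l 16514752) (l 16522304))) (l 16534192)) (c (l 16584504) (l 16516760))) (a (a (b (l 16488728) (l 16499152)) (b (l 16526352) (a (l 16515960) (l 16523952)))) (a (l 16536672) (l 16548960))))) (b (a (l 16578288) (l 16596912)) (a (b (l 16569488) (a (l 16559512) (l 16568872))) (l 16586080)))) (a (b (a (a (l 16476248) (b (a (l 16500736) (b (l 16516896) (l 16507400))) (l 16485360))) (b (a (b (l 16528728) (l 16480248)) (l 16540024)) (a (b (l 16482544) (l 16504536)) (a (b (l 16528088) (l 16458168)) (l 16532984))))) (a (b (a (l 16440304) (l 16464960)) (l 589956127496007657496623)) (b (a (l 16468720) (b (b (l 16477848) (l 16473616)) (l 16508448))) (l 16461616)))) (b (b (a (a (l 16553120) (l 16564144)) (l 16578736)) (a (a (b (l 16546880) (l 16541872)) (c (l 16593488) (l 16522816))) (a (a (l 16566928) (l 16571960)) (l 16580264)))) (a (b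 (b (a (l 16536144) (l 16551240)) (a (l 16508112) (l 16545760))) (a (l 16453968) (b (l 16539440) (l 16490872)))) (b (a (b (l 16564688) (l 16560488)) (a (l 16571376) (l 16576280))) (a (c (l 16588192) (l 16516160)) (c (l 16601576) (l 16530568)))))))), by decide +kernel⟩

def k5_pm_101 : ∃ t, chk3 f_pm_101 t 5 3 1 = true :=
  ⟨(b (b (a (a (b (l 16720800) (l 16753272)) (b (l 16742168) (l 16734064))) (b (a (l 16768856) (l 16903280)) (a (l 16762720) (a (l 16787008) (l 16888920))))) (a (b (a (l 16719280) (b (l 16724896) (l 16718768))) (a (b (l 16769088) (l 16677336)) (l 16789000))) (b (a (b (l 16754856) (l 16742888)) (b (l 16781936) (l 16772888))) (a (l 16733352) (l 16759096))))) (b (a (a (b (a (b (l 16662232) (l 16651392)) (b (l 16675200) (l 16666664))) (a (l 16654024) (b (l 16656696) (l 16645648)))) (b (a (l 16685064) (l 16699480)) (a (l 16752656) (l 16685648)))) (b (a (l 16720552) (a (l 16740544) (l 16751872))) (a (c (l 16727744) (l 16691280)) (l 16736688)))) (a (b (a (a (a (l 16606000) (l 16615728))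 (l 16672472)) (a (l 16650584) (a (l 16665672) (l 16675408)))) (a (b (a (a (l 16593280) (l 16603752)) (b (l 16619592) (l 16615480))) (a (b (l 16588968) (a (b (l 16578936) (l 16575952)) (l 16587864))) (l 16606912))) (b (b (l 16652016) (a (l 16635592) (l 16656432))) (c (l 16666584) (l 16612248))))) (b (a (b (l 16700600) (l 16715872)) (a (l 16722344) (l 16736400))) (a (b (a (l 16678224) (b (l 16699936) (l 16695776))) (l 16680112)) (a (b (l 16712576) (l 16707080)) (b (l 16727136) (l 16721544)))))))), by decide +kernel⟩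

def k6_pm_101 : ∃ t, chk3 f_pm_101 t 3 2 1 = true :=
  ⟨(a (b (l 1) (a (a (b (l 1) (b (l 1) (a (l 16819232) (l 1)))) (l 1)) (l 1))) (l 1)), by decide +kernel⟩

def k7_pm_101 : ∃ t, chk3 f_pm_101 t 6 3 1 = true :=
  ⟨(b (b (a (a (b (a (l 16821128) (l 16919616)) (b (l 16869360) (a (l 16816400) (l 16848312)))) (b (c (l 114387470679) (a (l 138546586791) (l 1))) (b (a (b (l 16850488) (l 16892536)) (b (l 1) (l 114387399223))) (a (l 16838568) (l 16849832))))) (a (a (b (l 1) (b (l 1) (l 138546557159))) (l 1)) (l 1))) (a (b (a (l 16886488) (b (l 16849616) (l 16814872))) (a (l 16781160) (l 16839848))) (a (a (b (l 100965597895) (l 16807736)) (b (l 109018686711) (l 16812800))) (b (c (l 110092494183) (b (l 1) (l 126735388679))) (a (l 89154396967) (l 99891833527)))))) (b (a (b (a (l 16766064) (l 16781192)) (a (b (l 16758488) (l 16754928)) (b (l 16772336) (l 16768176)))) (a (b (l 16896888) (b (l 16782464) (l 16777544))) (b (b (l 16803224) (l 16795080)) (b (l 16788400) (l 16782984))))) (a (b (a (b (l 16751928)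 (b (l 16750032) (l 16749328))) (b (l 16765232) (b (l 16764168) (l 16760672)))) (a (b (l 16743792) (l 16737144)) (b (l 16756504) (l 16750112)))) (b (b (a (l 16773832) (l 16778736)) (a (b (a (l 16771176) (l 16773584)) (l 16768184)) (b (a (l 16774672) (l 16775184)) (l 16771504)))) (a (b (l 16763064) (l 16756584)) (b (l 16765528) (l 16842320))))))), by decide +kernel⟩

def k8_pm_101 : ∃ t, chk3 f_pm_101 t 7 3 1 = true :=
  ⟨(b (a (a (a (b (l 1) (b (l 1) (l 111703011255))) (l 1)) (l 1)) (l 1)) (b (a (b (a (b (l 97207443111) (l 16798928)) (b (l 1) (l 85933149975))) (a (b (l 16791464) (l 16785552)) (a (l 16789736) (l 16811488)))) (b (l 1) (a (b (l 1) (l 61773953175)) (l 1)))) (a (b (a (b (b (l 16781968) (l 16864656)) (a (l 16773376) (l 16774144))) (b (b (l 16782744) (a (l 16780360) (l 16779432))) (l 16773440))) (a (b (l 16765864) (l 16758352)) (b (l 16765200) (l 16778544)))) (b (b (a (b (l 16826416) (a (l 16778176) (l 16776832))) (l 1)) (a (l 16771720) (l 16786952))) (a (b (l 16783576) (a (l 16756112)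 (l 16753912))) (b (l 16819472) (a (l 16750472) (l 16745672)))))))), by decide +kernel⟩

theorem s9_pm_101 : ∃ t, chk3 f_pm_101 t 3 3 1 = true := ex3_a k7_pm_101 k8_pm_101

theorem s10_pm_101 : ∃ t, chk3 f_pm_101 t 3 1 1 = true := ex3_b k6_pm_101 s9_pm_101

theorem s11_pm_101 : ∃ t, chk3 f_pm_101 t 4 15 1 = true := ex3_a k3_pm_101 k4_pm_101

theorem s12_pm_101 : ∃ t, chk3 f_pm_101 t 4 7 1 = true := ex3_b k2_pm_101 s11_pm_101

theorem s13_pm_101 : ∃ t, chk3 f_pm_101 t 4 3 1 = true := ex3_b k1_pm_101 s12_pm_101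

theorem s14_pm_101 : ∃ t, chk3 f_pm_101 t 2 3 1 = true := ex3_a s13_pm_101 k5_pm_101

theorem s15_pm_101 : ∃ t, chk3 f_pm_101 t 2 1 1 = true := ex3_b k0_pm_101 s14_pm_101

theorem s16_pm_101 : ∃ t, chk3 f_pm_101 t 1 1 1 = true := ex3_a s15_pm_101 s10_pm_101

theorem c_pm_101 : CertB 536870912 536870912 536870912 536870912 587336777 62277027 3 eng mog cd0q1 cd1q1 pd0 false true false .npn 1 0 1
    ndB0q1 ndB1q1 pcB0 Cut.none xt_pm_101 :=
  certB0 (fam := false) (s1 := true) (s2 := false) (a := 1) (b := 0) (c := 1) (cn := .npn) (n1 := ndB0q1) (n2 := ndB1q1) (pc := pcB0) (cut := Cut.none) (xt := xt_pm_101) (P1 := 536870912) (W1 := 536870912) (P2 := 536870912) (W2 := 536870912) (P3 := 587336777) (W3 := 62277027) (N0 := 3) (En := eng) (mo := mog) (C1 := cd0q1) (C2 := cd1q1) (C3 := pd0)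
    rfl s16_pm_101

end Pool.Agent.Strip051.G.I5470_6050.Tab.C.BB01

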