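import Pool.Agent.Strip051.G.I5470_6050.Tab
import Pool.Agent.Strip051.PB.ExtD2

/-! # Certificates B22 (generated) -/

set_option linter.all false
set_option maxRecDepth 100000

namespace Pool.Agent.Strip051.G.I5470_6050.Tab.C.BB01

open Pool.Agent.Strip051.PB Pool.Agent.Strip051.PB.T
open Pool.Agent.Strip051.G.I5470_6050.Tab

noncomputable def cut_pm_102_b : Cut := Cut.of [[⟨0, 1, 0, 67108864⟩, ⟨1, 0, 0, 67108864⟩, ⟨2, 1, 0, 67108864⟩], [⟨0, 0, 1, 20971520⟩, ⟨1, 1, 2, 20971520⟩, ⟨2, 1, 0, 29360128⟩]]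

noncomputable def f_pm_102_b : ℕ → ℕ → ℕ → ℕ → Bool := onCell 536870912 536870912 0 536870912 587336777 62277027
    (rowB 3 eng mog cd0q1 cd1q2b pd0 1 false true false .npp 1 0 2 (qsf 536870912 536870912 1239849684 370763052 0) ndB0q1 ndB1q2b pcB0 cut_pm_102_b Ext.none)

def k0_pm_102_b : ∃ t, chk3 f_pm_102_b t 1 1 1 = true :=
  ⟨(a (a (l 1) (l 3)) (l 3)), by decide +kernel⟩

theorem c_pm_102_b : CertB 536870912 536870912 1239849684 370763052 587336777 62277027 3 eng mog cd0q1 cd1q2b pd0 false true false .npp 1 0 2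
    ndB0q1 ndB1q2b pcB0 cut_pm_102_b Ext.none :=
  certB1 (fam := false) (s1 := true) (s2 := false) (a := 1) (b := 0) (c := 2) (cn := .npp) (n1 := ndB0q1) (n2 := ndB1q2b) (pc := pcB0) (cut := cut_pm_102_b) (xt := Ext.none) (P1 := 536870912) (W1 := 536870912) (P2 := 1239849684) (W2 := 370763052) (P3 := 587336777) (W3 := 62277027) (N0 := 3) (En := eng) (mo := mog) (C1 := cd0q1) (C2 := cd1q2b) (C3 := pd0)
    rfl (fun _ => rfl) k0_pm_102_b

noncomputable def xt_pm_112_a : Ext := extD2 3 ⟨7, 3, 3, 10, 1815, 1000, 17, 20, 37, 100, 3, 16⟩ eng cd0q1 cd1q2a pd1 false true false .dn 1 1 2 rfl ndB0q1 ndB1q2a pcB1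

noncomputable def f_pm_112_a : ℕ → ℕ → ℕ → ℕ → Bool := onCell 536870912 536870912 0 536870912 587336777 62277027
    (rowB 3 eng mog cd0q1 cd1q2a pd1 0 false true false .dn 1 1 2 (qsf 536870912 536870912 0 536870912 1) ndB0q1 ndB1q2a pcB1 Cut.none xt_pm_112_a)

def k0_pm_112_a : ∃ t, chk3 f_pm_112_a t 8 2 1 = true :=
  ⟨(b (b (a (b (a (l 16695256) (l 16704232)) (a (b (l 16681376) (l 16672336)) (l 16706408))) (a (b (l 16713744) (l 16694424)) (b (a (l 16721144) (l 16747152)) (b (l 16708792) (l 16699048))))) (a (a (b (l 16659640) (l 16643072)) (b (b (l 16671880) (l 16663328)) (l 16650424))) (b (a (b (l 16680672) (l 16671600)) (b (l 16689696) (l 16680584))) (a (l 16658304) (b (l 16671232) (l 16661920)))))) (b (a (b (l 16650464) (a (l 16606376) (l 16612112))) (b (l 16643704) (l 16642496))) (a (b (l 16584824) (l 16553680)) (b (b (l 16602112) (l 16586272)) (l 16559744))))), by decide +kernel⟩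

def k1_pm_112_a : ∃ t, chk3 f_pm_112_a t 18 8 1 = true :=
  ⟨(b (a (b (a (l 16736336) (b (a (l 16742768) (l 16745528)) (l 16739080))) (l 16728872)) (b (a (b (l 16749632) (a (l 16743080) (l 16745888))) (b (l 16755224) (l 16750056))) (a (l 16736824) (b (a (l 16743456) (l 16746312)) (l 16739744))))) (a (b (l 16718784) (l 16708832)) (c (l 16746928) (l 16743488)))), by decide +kernel⟩

def k2_pm_112_a : ∃ t, chk3 f_pm_112_a t 38 16 1 = true :=
  ⟨(b (a (c (l 16769592) (l 16768072)) (b (a (l 16765280) (l 16773440)) (l 16772016))) (a (b (l 16750552) (a (l 16743904) (l 16746808))) (b (l 16756328) (l 16751096)))), by decide +kernel⟩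

def k3_pm_112_a : ∃ t, chk3 f_pm_112_a t 78 32 1 = true :=
  ⟨(a (b (a (l 16775624) (b (l 16773120) (l 16770544))) (l 16765920)) (b (b (a (c (l 16777376) (l 16776304)) (a (b (c (l 16776272) (l 16776664)) (l 16774960)) (b (a (b (b (a (l 16776816) (b (a (l 16776904) (b (l 23253220711) (l 16776912))) (l 16776856))) (l 16776672)) (l 16776312)) (b (a (b (b (a (c (l 22716350039) (l 17884511575)) (l 3)) (a (l 16776904) (b (l 22179478887) (l 16776912)))) (l 16776824)) (a (b (b (l 3) (l 18958253399)) (l 26474446103)) (b (l 3) (b (a (l 25937575255) (l 22716349815)) (l 16776880))))) (l 16776584))) (l 16775632)))) (c (l 16775640) (l 16775040))) (l 16774088))), by decide +kernel⟩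

def k4_pm_112_a : ∃ t, chk3 f_pm_112_a t 316 64 1 = true :=
  ⟨(b (a (b (a (a (b (b (l 3) (b (a (l 18421382471) (l 3)) (a (l 16776904) (a (l 24863833463) (l 21642607943))))) (l 16776752)) (b (b (l 3) (b (l 3) (l 53317992039))) (b (b (a (l 25937575239) (c (l 24326962759) (l 20031995239))) (l 16776872)) (l 16776760)))) (b (l 3) (b (a (b (l 57076088407) (a (l 26474446183) (c (l 23790091831) (l 18958253399)))) (l 139754208535)) (a (l 16776840) (b (a (c (l 16776968) (l 23790091607)) (l 20568866087)) (l 16776872)))))) (c (l 16776384) (l 16776768))) (b (a (a (b (l 3) (b (l 3) (b (l 3) (a (c (l 27011317303) (l 22716349767)) (l 19495124263))))) (l 3)) (l 3)) (a (b (b (a (l 16776848) (b (a (l 24326962519) (l 18421382375)) (l 16776872))) (l 16776736)) (l 16776408)) (b (a (b (b (l 3) (a (l 23253220679) (l 16776792))) (c (l 16776936) (l 24326962391))) (b (l 3) (b (c (l 23253220871) (l 18421382423)) (l 25937575207)))) (l 16776656))))) (c (l 16777664) (l 16776256))), by decide +kernel⟩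

def k5_pm_112_a : ∃ t, chk3 f_pm_112_a t 317 64 1 = true :=
  ⟨(a (b (b (l 3) (b (b (l 3) (b (l 3) (a (a (l 20031995127) (l 3)) (l 3)))) (b (b (a (a (c (l 16776944) (l 23253220615)) (a (l 20568866039) (l 3))) (l 3)) (a (a (l 16776824) (c (l 26474446359) (l 22716349703))) (a (l 51170507831) (l 3)))) (a (l 16776760) (a (a (l 16776840) (b (l 24326962471) (l 16776840))) (b (l 52781121159) (c (l 25937575463) (l 21642607863)))))))) (b (c (l 16777128) (c (l 16776280) (l 16776144))) (l 16775232))) (a (b (a (b (l 3) (b (l 3) (b (l 3) (l 134922370263)))) (l 3)) (b (b (b (b (a (c (l 25400704551) (l 22716349687)) (l 58149830135)) (a (l 16776832) (c (l 24863833623) (l 22179478807)))) (l 16776776)) (l 16776488)) (l 16775720))) (b (l 3) (b (b (b (l 141364821111) (b (a (c (l 25937575447) (l 21642607831)) (l 3)) (a (l 16776832) (c (l 25400704519) (l 21105736919))))) (c (l 16776816) (l 16776600))) (l 16776024))))), by decide +kernel⟩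

def k6_pm_112_a : ∃ t, chk3 f_pm_112_a t 159 64 1 = true :=
  ⟨(b (l 3) (a (a (a (b (b (l 3) (b (b (a (l 22716349671) (l 3)) (a (l 16776832) (l 21642607831))) (c (l 16776880) (l 16776688)))) (l 16776304)) (b (b (l 3) (b (l 3) (b (a (l 21105736871) (l 3)) (a (l 16776832) (l 20568865943))))) (b (b (c (l 26474446279) (l 23253220455)) (l 16776640)) (l 16776320)))) (b (l 3) (a (b (b (a (b (l 21105737415) (l 24863833287)) (a (l 56539217399) (l 3))) (c (l 26474446279) (c (l 23790091591) (l 22179478663)))) (l 16776560)) (b (b (l 3) (a (b (l 53317991927) (l 25400704183)) (l 135996111991))) (b (a (l 16776768) (b (l 24863833271) (l 16776792))) (l 16776664)))))) (b (l 3) (a (b (l 3) (b (b (l 141364820935) (a (a (l 24326962343) (l 3)) (l 3))) (b (a (a (l 16776792) (l 23790091415)) (l 3)) (a (l 16776776) (a (l 23253220455) (l 3)))))) (l 3))))), by decide +kernel⟩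

def k7_pm_112_a : ∃ t, chk3 f_pm_112_a t 79 65 1 = true :=
  ⟨(b (a (c (l 16775960) (l 16775352)) (a (c (l 16776632) (c (l 16777624) (l 16777408))) (a (b (b (a (l 16776592) (b (a (l 16776776) (a (l 26474445975) (l 24326962311))) (l 16776688))) (l 16776280)) (l 16775496)) (b (a (b (b (a (b (l 3) (l 22179478599)) (l 3)) (a (l 16776776) (a (l 25937575047) (l 23253220455)))) (l 16776616)) (b (a (a (b (l 3) (l 52244250199)) (l 3)) (l 3)) (b (a (l 25937574967) (c (l 25937575319) (l 21642607687))) (l 16776704)))) (l 16776088))))) (a (l 16770472) (c (l 16776280) (l 16775664)))), by decide +kernel⟩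

def k8_pm_112_a : ∃ t, chk3 f_pm_112_a t 39 33 1 = true :=
  ⟨(b (a (l 16772656) (a (l 16766584) (a (l 16768784) (l 16770248)))) (a (l 16756936) (l 16768072))), by decide +kernel⟩

def k9_pm_112_a : ∃ t, chk3 f_pm_112_a t 19 17 1 = true :=
  ⟨(a (b (a (l 16737560) (b (a (l 16744416) (l 16747336)) (l 16740632))) (l 16730088)) (b (a (b (l 16751696) (a (l 16744960) (l 16747904))) (b (l 16757576) (l 16752304))) (a (l 16738640) (b (a (l 16745568) (b (l 16749808) (l 16747224))) (l 16741936))))), by decide +kernel⟩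

def k10_pm_112_a : ∃ t, chk3 f_pm_112_a t 9 9 1 = true :=
  ⟨(a (b (a (l 16694512) (l 16725496)) (a (b (a (l 16678080) (l 16682792)) (l 16670504)) (b (l 16690016) (a (l 16677560) (l 16682504))))) (b (a (c (l 16738072) (l 16734184)) (a (l 16723496) (l 16729240))) (a (b (l 16700296) (l 16690000)) (b (l 16711216) (l 16700704))))), by decide +kernel⟩

def k11_pm_112_a : ∃ t, chk3 f_pm_112_a t 9 5 1 = true :=
  ⟨(b (a (b (a (l 16655712) (l 16685408)) (l 16656936)) (b (a (b (a (l 16677000) (l 16682192)) (l 16668728)) (b (l 16690024) (a (l 16676280) (b (l 16684600) (l 16678712))))) (a (l 16648944) (l 16658768)))) (a (b (a (l 16624672) (l 16610360)) (a (l 16566256) (l 16592528))) (b (a (l 16618368) (l 16627488)) (a (b (l 16590016) (l 16567704)) (b (l 16598192) (l 16576472)))))), by decide +kernel⟩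

def k12_pm_112_a : ∃ t, chk3 f_pm_112_a t 80 64 1 = true :=
  ⟨(l 3), by decide +kernel⟩

def k13_pm_112_a : ∃ t, chk3 f_pm_112_a t 80 65 1 = true :=
  ⟨(a (a (b (a (b (b (l 3) (a (b (l 134385499111) (a (l 25400704055) (a (l 24326962263) (l 47949282887)))) (l 141364820791))) (b (b (a (l 16776712) (a (c (l 28085058967) (l 24326962215)) (a (l 23253220375) (l 51170508327)))) (l 16776648)) (l 16776368))) (b (l 3) (b (b (l 3) (a (a (c (l 27548188039) (l 23790091287)) (a (l 23253220919) (l 54928604583))) (l 3))) (a (l 25400703831) (b (a (c (l 27548188007) (l 23253220391)) (a (l 49559895655) (l 135459241223))) (c (l 16776832) (l 16776600))))))) (a (l 16775048) (c (l 16775872) (l 16776784)))) (a (b (b (l 3) (b (l 3) (b (l 3) (a (a (c (l 27011317079) (l 22716349463)) (c (l 124721823127) (l 127943048199))) (l 3))))) (b (b (a (c (l 27548187911) (c (l 24863833143) (l 23253220167))) (a (b (c (l 26474446135) (l 22179478471)) (l 16776696)) (b (l 132238015783) (l 27011316695)))) (l 16776432))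 (l 16775728))) (b (l 3) (b (a (a (b (b (l 3) (c (l 27011317431) (l 22179478807))) (l 16776648)) (b (l 138143595271) (b (c (l 29158800711) (l 24863833063)) (l 16776656)))) (b (l 3) (a (b (a (l 24326962087) (l 53854862775)) (l 16776696)) (b (l 3) (c (l 28085058871) (l 24863833031)))))) (c (l 16776432) (l 16776104)))))) (b (l 3) (a (b (a (a (a (b (l 3) (b (l 3) (c (l 52781120983) (l 49559895175)))) (l 3)) (l 3)) (l 3)) (a (a (b (b (a (l 16776696) (a (l 26474445735) (l 24326962071))) (l 16776632)) (l 16776400)) (b (a (b (l 54391733639) (l 28085058455)) (b (l 3) (a (l 25937574807) (l 24863832951)))) (l 16776576))) (b (a (c (l 123648080759) (c (l 127406176823) (l 129553660903))) (l 3)) (b (a (a (c (l 29158800631) (l 25400703815)) (c (l 28085058791) (l 23253220135))) (l 127406177015)) (a (l 16776640) (a (c (l 28621929735) (l 25400703799)) (c (l 27548187799) (l 22716349191)))))))) (l 3)))), by decide +kernel⟩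

def k14_pm_112_a : ∃ t, chk3 f_pm_112_a t 81 32 1 = true :=
  ⟨(l 3), by decide +kernel⟩

def k15_pm_112_a : ∃ t, chk3 f_pm_112_a t 80 33 1 = true :=
  ⟨(a (b (a (c (l 16772088) (l 16771296)) (b (a (l 16774000) (l 16774672)) (l 16771856))) (l 16772504)) (b (a (b (b (a (l 16775840) (a (l 16776224) (c (l 16776600) (l 16776288)))) (l 16776368)) (l 16773264)) (b (b (a (a (b (b (a (b (l 25937574743) (l 16776672)) (c (l 27011316823) (l 21642607287))) (c (l 16776776) (l 16776520))) (l 16776456)) (b (b (l 3) (a (b (l 24863832855) (l 16776664)) (l 24326962247))) (a (l 16776576) (b (l 28085058311) (l 16776576))))) (b (l 3) (b (a (a (b (l 23790090951) (l 28621929223)) (l 46338669367)) (l 3)) (a (a (l 16776632) (c (l 29158800535) (l 25937574647))) (a (b (l 22716349335) (l 27011316535)) (l 48486152791)))))) (a (l 16775936) (b (a (l 16776480) (b (a (l 16776632) (b (l 27548187431) (l 16776640))) (l 16776560))) (l 16776208)))) (c (l 16774888) (l 16776960)))) (c (l 16775920) (c (l 16775176)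 (l 16774680))))), by decide +kernel⟩

def k16_pm_112_a : ∃ t, chk3 f_pm_112_a t 81 132 1 = true :=
  ⟨(a (a (b (l 3) (a (a (b (a (b (b (l 16776584) (l 27011316519)) (l 16776624)) (b (l 3) (b (l 26474445543) (l 16776632)))) (l 16776504)) (b (a (b (l 3) (c (l 27548187751) (l 22716349383))) (l 3)) (b (a (l 16776624) (b (l 25400703847) (l 16776624))) (l 16776568)))) (b (l 3) (a (b (a (c (l 27011316967) (l 22179478439)) (l 3)) (b (a (l 28621929079) (l 24863833111)) (c (l 29695671399) (l 26474445431)))) (a (b (l 3) (l 24863833367)) (l 3)))))) (l 3)) (l 3)), by decide +kernel⟩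

def k17_pm_112_a : ∃ t, chk3 f_pm_112_a t 81 133 1 = true :=
  ⟨(b (a (b (a (a (l 16776248) (a (l 16776520) (b (b (a (l 27548187303) (l 24326962407)) (a (l 16776608) (a (l 16776616) (l 27011316551)))) (l 16776576)))) (a (a (b (a (l 23253220215) (l 3)) (a (a (l 16776608) (b (l 26474445735) (l 16776608))) (b (l 23253220551) (c (l 28621929559) (l 25400703783))))) (c (l 129016789687) (l 133311756471))) (l 3))) (a (c (l 16776248) (l 16776512)) (a (a (c (l 16776680) (l 16776376)) (b (a (b (c (l 29158800455) (l 24863832967)) (l 16776600)) (a (c (l 28085058727) (l 23253220327)) (l 24326962439))) (c (l 16776720) (l 16776432)))) (a (b (l 3) (b (a (c (l 28621929639) (l 24326962151)) (l 3)) (a (l 16776592) (c (l 28085058791) (l 23790091223))))) (l 3))))) (l 3)) (b (b (a (a (l 16775696) (a (l 16776400) (b (a (c (l 29695671303) (l 25937574407)) (a (a (l 26474445927) (l 16776536)) (l 3))) (a (l 16776560) (a (l 28085058279) (l 25400704343)))))) (l 3)) (a (a (l 16775432) (a (l 16776216)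 (a (l 16776488) (a (l 16776560) (a (l 16776576) (b (l 28085058551) (l 16776576))))))) (a (a (a (a (b (l 24863833415) (c (l 29158800391) (l 25400703847))) (l 24326962263)) (l 3)) (l 3)) (l 3)))) (a (a (l 16775024) (a (l 16775888) (a (l 16776240) (l 16776424)))) (a (b (a (b (a (a (l 16776576) (c (l 29695671335) (l 25400703959))) (l 24326962231)) (a (l 16776560) (a (a (l 16776568) (l 26474446007)) (l 23253220455)))) (l 3)) (a (a (l 16776496) (a (l 16776560) (b (a (l 27548187623) (l 25937575079)) (l 16776568)))) (b (l 3) (a (a (a (l 27548187687) (l 25937575239)) (l 3)) (l 3))))) (l 3))))), by decide +kernel⟩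

def k18_pm_112_a : ∃ t, chk3 f_pm_112_a t 81 67 1 = true :=
  ⟨(b (b (a (a (l 16774160) (c (l 16775656) (l 16775168))) (a (a (c (l 16776384) (l 16776320)) (b (a (b (a (l 16776552) (b (a (l 27011316839) (l 24863833383)) (l 16776560))) (l 16776504)) (a (b (b (l 3) (a (l 26474445991) (l 24326962423))) (c (l 29158800295) (l 25400703495))) (b (l 3) (b (c (l 28085058967) (l 23790091127)) (a (l 16776552) (l 27548187655)))))) (c (l 16776560) (l 16776216)))) (a (b (a (a (b (l 3) (a (b (l 3) (l 26474446119)) (l 3))) (l 3)) (l 3)) (b (b (a (a (a (l 16776544) (l 27548187735)) (c (l 27548188007) (l 22716349255))) (l 3)) (a (a (l 16776544) (a (l 16776544) (a (l 28085058647) (l 26474445959)))) (c (l 27011316823) (l 21642607143)))) (a (l 16776512) (a (b (a (l 16776536) (c (l 28621929719) (l 24863832951))) (l 16776536)) (b (l 24326962311) (a (l 28085058551) (c (l 28621929783) (l 24326962023)))))))) (a (a (b (l 3) (b (l 3) (l 24326962151))) (l 3)) (l 3))))) (a (c (l 16773976) (l 16775904))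 (a (c (l 16775768) (l 16775272)) (a (a (l 16776144) (b (c (l 16776640) (l 16776304)) (l 16776168))) (a (b (b (a (b (a (c (l 29695671399) (l 25937574775)) (c (l 28621929863) (l 23790091095))) (l 16776528)) (b (l 3) (a (c (l 29158800551) (l 25400703847)) (l 25937575239)))) (c (l 16776672) (l 16776360))) (l 16776352)) (b (b (l 3) (a (b (a (c (l 29695671527) (l 24863832919)) (l 25400704279)) (l 28085058375)) (a (b (l 3) (c (l 28621929735) (l 24863832903))) (l 24863833159)))) (a (l 16776456) (b (c (c (l 29695671351) (l 27548187431)) (l 24863832663)) (l 16776456))))))))) (a (c (l 16772208) (l 16776568)) (a (c (l 16774176) (l 16773488)) (c (c (l 16776832) (l 16776552)) (c (l 16776272) (l 16775992)))))), by decide +kernel⟩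

def k19_pm_112_a : ∃ t, chk3 f_pm_112_a t 40 17 1 = true :=
  ⟨(a (b (a (l 16769864) (a (l 16761592) (l 16768312))) (b (l 16752936) (a (b (l 16747616) (l 16745072)) (b (l 16750552) (l 16747984))))) (a (b (b (a (l 16767168) (l 16768624)) (l 16762640)) (l 16765256)) (b (a (b (l 16772696) (l 16764840)) (b (b (l 16772752) (l 16770216)) (l 16766304))) (b (l 16760288) (l 16755112))))), by decide +kernel⟩

def k20_pm_112_a : ∃ t, chk3 f_pm_112_a t 41 32 1 = true :=
  ⟨(l 3), by decide +kernel⟩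

def k21_pm_112_a : ∃ t, chk3 f_pm_112_a t 82 66 1 = true :=
  ⟨(l 3), by decide +kernel⟩

def k22_pm_112_a : ∃ t, chk3 f_pm_112_a t 164 134 1 = true :=
  ⟨(a (b (l 3) (a (b (l 3) (a (b (b (a (a (c (l 28621929767) (l 24326961975)) (l 24326962295)) (l 3)) (a (a (l 16776520) (a (l 16776512) (l 27548187751))) (a (c (l 28621929831) (l 23790091047)) (l 3)))) (a (l 16776496) (b (a (l 16776512) (c (l 29158800519) (l 25937574727))) (l 16776504)))) (b (l 3) (a (b (a (a (l 25937575223) (l 24863833255)) (l 3)) (a (l 16776512) (b (l 26474446103) (l 16776504)))) (a (b (l 3) (l 25400704279)) (l 3)))))) (l 3))) (l 3)), by decide +kernel⟩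

def k23_pm_112_a : ∃ t, chk3 f_pm_112_a t 328 135 1 = true :=
  ⟨(a (b (b (a (l 16776368) (a (l 16776296) (b (b (a (l 28085058503) (b (l 25937575207) (l 28085058647))) (l 16776504)) (l 16776464)))) (l 16776128)) (l 16775448)) (b (a (b (b (b (c (l 27011316695) (l 22179477911)) (a (a (c (l 29158800439) (l 25937574711)) (b (l 24863833287) (l 28085058631))) (l 24326962215))) (a (l 16776496) (b (a (c (l 29158800503) (l 25400703783)) (b (l 23790091367) (l 27548187783))) (l 16776496)))) (c (l 16776568) (l 16776208))) (b (b (l 3) (a (b (l 3) (a (b (l 27011316871) (l 16776496)) (b (l 3) (l 26474446023)))) (l 3))) (b (b (a (l 27548187367) (a (b (l 26474446071) (l 16776488)) (c (l 27548187863) (l 22716349063)))) (a (l 16776480) (c (l 29158800231) (l 16776504)))) (l 16776448)))) (c (l 16776184) (l 16775736)))), by decide +kernel⟩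

def k24_pm_112_a : ∃ t, chk3 f_pm_112_a t 329 135 1 = true :=
  ⟨(a (a (b (b (l 3) (b (b (l 3) (a (a (b (l 25937575175) (l 28085058615)) (l 24863833239)) (l 3))) (a (a (l 16776480) (b (b (l 27548187687) (l 16776488)) (l 16776480))) (a (b (b (l 24863833255) (c (l 29158800471) (l 25400703751))) (l 16776488)) (b (l 24326962215) (a (l 16776648) (b (l 26474445927) (l 16776480)))))))) (b (c (l 16776584) (l 16776224)) (l 16776088))) (b (a (a (b (l 3) (b (l 3) (b (l 3) (a (b (l 16776784) (l 16776800)) (l 25400704231))))) (l 3)) (l 3)) (b (a (b (a (l 16776480) (b (b (c (l 28621929671) (l 24326961895)) (l 16776480)) (l 16776480))) (l 16776432)) (b (b (a (a (b (l 3) (l 27011316759)) (l 24863833223)) (l 3)) (a (l 16776640) (b (c (l 28085058775) (l 23790090967)) (l 28085058519)))) (l 16776464))) (l 16776280)))) (b (l 3) (a (b (a (b (c (c (l 28621929479) (l 25937574615)) (c (l 23790090663) (l 21105735815))) (b (b (a (l 27548187591) (l 25937575143)) (c (l 29158800279) (l 25400703735)))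 (l 16776472))) (b (l 3) (b (c (l 27011316791) (l 22179477991)) (b (a (c (l 29158800455) (l 25400703719)) (l 24863833223)) (a (l 16776472) (a (l 16776464) (l 26474445815))))))) (c (c (l 16776680) (l 16776504)) (l 16776240))) (a (b (a (c (l 56002346455) (l 53854861303)) (l 3)) (b (b (a (b (c (l 28621929527) (l 24863832791)) (l 16776464)) (b (l 24326962247) (c (l 28621929527) (l 24863832791)))) (l 16776464)) (l 16776432))) (b (l 3) (b (b (l 3) (b (a (c (l 28621929591) (l 24326961863)) (l 3)) (a (l 16776464) (c (l 28085058679) (l 23790090951))))) (c (l 27011316327) (l 16776296)))))))), by decide +kernel⟩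

def k25_pm_112_a : ∃ t, chk3 f_pm_112_a t 165 67 1 = true :=
  ⟨(b (l 3) (a (a (a (b (l 3) (b (l 3) (b (l 3) (b (a (a (b (a (l 26474445799) (l 24863833207)) (l 27548187479)) (c (l 27548187879) (l 22716348999))) (l 3)) (b (a (c (l 28621929255) (l 25400703623)) (c (l 27548187783) (l 22716348983))) (a (l 16776456) (a (c (l 29158800311) (l 25400703687)) (l 25400704151)))))))) (l 3)) (l 3)) (l 3))), by decide +kernel⟩

def k26_pm_112_a : ∃ t, chk3 f_pm_112_a t 83 33 1 = true :=
  ⟨(l 3), by decide +kernel⟩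

def k27_pm_112_a : ∃ t, chk3 f_pm_112_a t 164 68 1 = true :=
  ⟨(a (b (a (l 16773760) (l 16775720)) (l 16771632)) (a (b (b (l 16775544) (l 16774472)) (l 16772680)) (b (b (a (l 16775920) (b (l 16776304) (l 16775944))) (l 16775080)) (l 16773360)))), by decide +kernel⟩

def k28_pm_112_a : ∃ t, chk3 f_pm_112_a t 330 136 1 = true :=
  ⟨(a (b (b (a (b (a (l 16776440) (b (a (l 16776456) (a (l 16776456) (b (l 26474445799) (l 16776456)))) (l 16776448))) (l 16776376)) (a (b (b (a (b (l 24863833223) (c (l 28621929431) (l 24863832759))) (l 24863833111)) (a (l 16776456) (b (c (l 28621929415) (l 24863832759)) (l 16776448)))) (l 16776440)) (b (b (l 3) (b (l 24863833047) (a (c (l 28085058583) (l 24326961831)) (l 3)))) (b (a (l 16776448) (b (c (l 28085058567) (l 24326961831)) (l 16776448))) (l 16776448))))) (c (l 16776448) (l 16776040))) (c (l 16775896) (l 16775376))) (a (b (a (b (b (l 3) (b (a (b (l 3) (c (l 28085058567) (l 23790090903))) (l 3)) (b (a (l 27011316471) (c (l 27548187639)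 (l 23790090903))) (c (l 28085058199) (l 24863832631))))) (c (l 16776584) (l 16776224))) (b (b (l 3) (a (b (l 3) (c (l 27548187783) (l 22716348951))) (l 3))) (b (b (b (a (c (l 28621929271) (l 25400703575)) (c (l 27548187703) (l 22716348967))) (a (l 16776440) (c (l 28621929287) (l 24863832743)))) (l 16776440)) (l 16776408)))) (c (l 16776232) (l 16775768))) (b (b (l 3) (a (b (b (c (l 27011316727) (c (l 23253219719) (l 21105735767))) (b (a (a (l 16776432) (a (l 26474445607) (l 25937574759))) (l 24863833063)) (a (l 16776440) (a (l 27011316439) (a (l 25937574727) (l 25400703847)))))) (c (l 16776600) (l 16776264))) (b (c (l 27011316487) (l 22179477623)) (b (b (a (a (l 26474445527) (l 25400703847)) (l 3)) (a (l 16776432) (a (a (l 16776424) (l 25937574679)) (l 25400703911)))) (c (l 16776600) (l 16776272)))))) (b (c (l 16776528) (l 16776144)) (l 16776016))))), by decide +kernel⟩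

def k29_pm_112_a : ∃ t, chk3 f_pm_112_a t 662 136 1 = true :=
  ⟨(a (b (a (b (l 3) (b (l 3) (b (l 3) (b (a (a (a (l 26474445511) (l 25937574711)) (l 24863832999)) (l 3)) (a (l 26474445367) (a (a (l 25937574631) (l 25400703831)) (l 24326962071))))))) (l 3)) (b (b (b (a (a (l 16776432) (c (l 27548187175) (l 24326961559))) (b (a (c (l 27548187623) (l 22716349031)) (l 3)) (a (c (l 28085058247) (l 24326961719)) (c (l 27011316695) (l 22716349031))))) (a (l 16776424) (a (l 16776432) (b (c (l 28085058279) (l 24326961719)) (l 16776424))))) (c (l 16776576) (l 16776208))) (l 16776208))) (b (l 3) (b (a (b (a (b (l 3) (b (c (l 27011316695) (l 22179478023)) (a (l 16776424) (a (l 25937574583) (l 25400703751))))) (c (l 27011316599) (l 22179477767))) (b (a (l 16776424) (b (a (l 16776416) (c (l 27548187463) (l 23253219959))) (l 16776424))) (l 16776416))) (b (l 3) (a (b (b (l 24863833031) (a (l 25937574583) (a (l 25400703751) (l 24863832903)))) (l 16776424)) (b (l 24863832999) (b (a (l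 25937574583) (l 25400703815)) (l 16776416)))))) (c (c (l 16776640) (l 16776440)) (l 16776160))))), by decide +kernel⟩

def k30_pm_112_a : ∃ t, chk3 f_pm_112_a t 663 136 1 = true :=
  ⟨(b (l 3) (a (a (b (b (l 3) (b (l 3) (b (l 3) (a (a (c (l 27548187415) (l 23790090775)) (l 24863832967)) (l 3))))) (b (b (a (l 24863832487) (b (a (a (l 25937574615) (l 25400703767)) (l 24863832967)) (l 25400703543))) (l 16776416)) (l 16776376))) (b (l 3) (b (a (b (b (l 3) (c (l 27548187591) (l 23253219927))) (c (l 26474445367) (l 22716348871))) (b (l 3) (b (c (l 27548187591) (l 22716348999)) (a (l 16776408) (l 25937574599))))) (c (l 16776584) (l 16776232))))) (b (l 3) (b (a (a (b (l 3) (c (l 27548187719) (l 22716348887))) (l 3)) (l 3)) (b (a (b (a (c (l 27548187383) (l 23253219943)) (c (l 27011316775) (l 22179477991))) (a (l 16776408) (c (l 27011316503) (l 22716349015)))) (c (l 27548187591) (l 22179477799))) (b (a (l 16776408) (a (a (l 16776400) (l 25400703799)) (l 24863833079))) (a (l 16776408)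 (a (l 16776408) (a (l 25937574631) (l 25400703863)))))))))), by decide +kernel⟩

def k31_pm_112_a : ∃ t, chk3 f_pm_112_a t 165 137 1 = true :=
  ⟨(a (a (l 16774016) (b (l 16775192) (l 16774080))) (a (b (c (l 16775984) (l 16775472)) (l 16774704)) (a (b (c (l 16776296) (l 16775840)) (l 16775152)) (b (b (c (c (l 16776640) (l 16776456)) (c (l 16776264) (l 16776080))) (l 16776080)) (l 16775432))))), by decide +kernel⟩

def k32_pm_112_a : ∃ t, chk3 f_pm_112_a t 82 69 1 = true :=
  ⟨(a (c (l 16774384) (c (l 16768152) (l 16772744))) (a (c (l 16771200) (l 16775312)) (c (c (l 16772792) (l 16777536)) (c (l 16774416) (l 16773920))))), by decide +kernel⟩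

def k33_pm_112_a : ∃ t, chk3 f_pm_112_a t 332 68 1 = true :=
  ⟨(a (b (a (b (l 3) (b (l 3) (l 3))) (l 3)) (b (a (b (a (b (b (b (a (c (l 27548187511) (l 23253219911)) (l 3)) (a (l 16776400) (c (l 27548187591) (l 23253219895)))) (c (l 16776576) (l 16776240))) (l 16776376)) (b (b (l 3) (a (b (a (l 25400703863) (l 24863833015)) (l 24326961815)) (c (l 27548187783) (l 22716348951)))) (c (c (l 25400703831) (l 23790090791)) (c (l 21642606807) (l 20031993943))))) (c (l 16776464) (l 16776048))) (b (b (l 3) (b (a (b (c (l 27548187783) (l 22716348935)) (a (c (l 26474445607) (l 22716348999)) (l 25400704039))) (l 3)) (a (a (l 16776400) (a (l 16776400) (b (l 25400703863) (l 16776392)))) (a (b (l 25400704071) (c (l 27011316599) (l 22716348983))) (l 25400703943))))) (b (a (l 16776376) (b (a (l 16776392) (a (l 24326961799) (b (l 25400703847) (l 16776392)))) (l 16776392))) (c (l 16776520) (l 16776128))))) (c (l 16776064) (l 16775552)))) (b (l 3) (a (b (b (l 3) (a (b (a (b (a (c (l 27548187639)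 (l 23253219879)) (l 25400704055)) (l 16776392)) (b (l 3) (b (c (l 27548187607) (l 23253219879)) (l 16776392)))) (l 16776376)) (b (b (l 3) (a (a (b (l 3) (l 25400703847)) (l 25400704039)) (l 3))) (b (a (l 23790090807) (b (c (l 27548187719) (l 22716348951)) (l 24326961911))) (l 16776384))))) (c (l 16776352) (l 16775904))) (b (b (l 3) (b (l 3) (a (a (b (c (l 27548187767) (l 22716348919)) (c (l 25937574631) (l 16776224))) (b (l 3) (b (l 25400704055) (c (l 26474445671) (l 16776216))))) (c (l 28085058327) (l 22716348567))))) (b (a (c (l 16776536) (l 16776160)) (b (b (a (c (l 25937574679) (l 22179478055)) (b (l 25400704039) (a (l 16776376) (l 25400703911)))) (l 16776384)) (l 16776352))) (l 16776136)))))), by decide +kernel⟩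

def k34_pm_112_a : ∃ t, chk3 f_pm_112_a t 333 68 1 = true :=
  ⟨(b (l 3) (b (l 3) (a (a (b (a (a (b (b (l 25400703911) (a (l 24326961895) (b (l 25400703975) (l 16776376)))) (l 16776368)) (b (b (l 3) (a (b (l 3) (l 16776696)) (l 25400704023))) (l 16776376))) (b (l 3) (a (b (b (a (l 25400703895) (l 25400704039)) (l 16776376)) (l 16776376)) (b (c (l 27548187751) (l 22716348903)) (l 23253219991))))) (c (l 16776488) (l 16776088))) (b (b (l 3) (a (a (b (l 3) (b (l 25400704039) (l 24326962007))) (c (l 28085058423) (l 22716348663))) (l 3))) (b (a (c (c (l 24863832887) (l 22716348919)) (c (l 21105735991) (l 16776280))) (b (a (b (l 25400704103) (a (l 16776368) (l 24863832983))) (l 25937574903)) (a (l 16776368) (c (l 25937574743) (l 22179478023))))) (c (l 16776528) (l 16776152))))) (b (l 3) (a (b (a (b (l 3) (a (a (a (l 24863833047) (l 25400704039)) (l 25400704087)) (l 57076087687))) (l 3)) (b (a (a (l 16776368) (a (l 23790091079) (c (l 26474445831) (l 22716348919)))) (a (c (l 27548187735)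 (l 22716348887)) (l 3))) (a (l 16776360) (a (l 16776360) (b (l 25400704023) (l 16776360)))))) (a (b (l 3) (a (c (l 28085058583) (l 23253219639)) (l 3))) (l 3))))))), by decide +kernel⟩

def k35_pm_112_a : ∃ t, chk3 f_pm_112_a t 167 68 1 = true :=
  ⟨(l 3), by decide +kernel⟩

def k36_pm_112_a : ∃ t, chk3 f_pm_112_a t 83 69 1 = true :=
  ⟨(a (a (b (c (c (l 16775104) (l 16777368)) (c (l 16777016) (l 16775360))) (c (l 16772672) (l 16771672))) (b (b (a (b (a (l 16775976) (l 16776160)) (l 16775672)) (b (a (c (l 16776496) (l 16776104)) (b (a (b (a (l 23253220071) (b (l 25400704087) (l 23790091063))) (l 16776360)) (a (b (l 25937574887) (c (l 25400703815) (l 16776512))) (b (l 3) (b (l 25400703991) (l 24326962087))))) (c (l 16776528) (l 16776152)))) (c (l 16776336) (l 16775872)))) (a (l 16774928) (a (l 16775352) (l 16775616)))) (c (l 16773960) (c (l 16773312) (l 16772888))))) (a (a (b (b (a (b (b (c (l 28621929031) (l 23253219207)) (a (b (a (c (l 25400703879) (l 21642607079)) (c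 (l 27548187735) (l 22716348951))) (l 16776352)) (b (l 3) (a (b (l 24863833095) (l 16776352)) (c (l 27548187719) (l 22716348839)))))) (c (c (l 20568865527) (l 16776408)) (c (l 16776208) (l 16776016)))) (b (l 3) (b (b (a (a (b (l 25400704071) (l 16776344)) (c (l 28085058615) (l 22716348823))) (l 3)) (a (c (l 23790090951) (l 16776504)) (a (b (l 25400704055) (l 23790091111)) (l 25937574855)))) (a (l 16776328) (a (l 16776344) (a (l 16776344) (b (l 23790091111) (l 16776344)))))))) (c (c (l 16776336) (l 16776080)) (c (l 16775832) (l 16775592)))) (c (l 16774864) (l 16774120))) (b (a (b (b (l 3) (b (l 3) (b (a (a (b (l 25937574871) (l 24326962135)) (l 25937574759)) (l 3)) (a (a (l 16776344) (c (l 25400703943) (l 21642607127))) (a (b (l 3) (l 24863833079)) (l 3)))))) (b (b (a (l 16776328) (b (a (l 16776336) (a (l 23253220183) (l 1))) (l 16776336))) (l 16776272)) (l 16776072))) (b (l 3) (l 1))) (c (l 20971518055) (l 14529066279)))) (l 1))), by decide +kernel⟩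

def k37_pm_112_a : ∃ t, chk3 f_pm_112_a t 41 35 1 = true :=
  ⟨(a (b (c (a (l 16764136) (c (l 16767352) (l 16766544))) (a (l 16762304) (c (l 16770976) (l 16770168)))) (a (l 16758032) (c (l 16762032) (l 16759872)))) (a (a (b (b (a (l 16769248) (l 16769960)) (l 16767024)) (l 16763136)) (b (b (a (l 16770680) (l 16771384)) (l 16768472)) (a (l 16764232) (l 16764960)))) (a (c (b (c (l 16774688) (l 16774752)) (l 16766952)) (b (b (l 13455320743) (l 16769248)) (l 16765168))) (l 1)))), by decide +kernel⟩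

def k38_pm_112_a : ∃ t, chk3 f_pm_112_a t 20 9 1 = true :=
  ⟨(b (a (b (a (b (l 16742728) (l 16737632)) (b (a (b (l 16748336) (l 16745816)) (b (l 16751248) (l 16748656))) (a (l 16741984) (l 16744880)))) (a (l 16730000) (l 16735776))) (b (a (b (a (l 16752856) (l 16755752)) (a (b (l 16754200) (l 16746448)) (b (l 16751856) (a (l 16748520) (l 16749968))))) (a (b (a (l 16757936) (l 16759384)) (l 16753432)) (b (l 35467011207) (l 1)))) (a (a (l 16740056) (b (b (l 16746728) (l 16744152)) (l 16740336))) (a (b (b (a (l 16748776) (l 16750216)) (a (l 16746248) (l 16747648))) (l 16743128)) (l 1))))) (a (a (b (l 16719744) (l 16709104)) (b (l 16725480) (l 16714776))) (b (a (c (l 16733272) (l 16729064)) (c (l 40835665879) (l 31708851975))) (a (l 42983125639) (l 1))))), by decide +kernel⟩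

def k39_pm_112_a : ∃ t, chk3 f_pm_112_a t 21 4 1 = true :=
  ⟨(b (l 1) (l 1)), by decide +kernel⟩

def k40_pm_112_a : ∃ t, chk3 f_pm_112_a t 10 5 1 = true :=
  ⟨(a (a (b (b (b (a (l 16698272) (l 16703872)) (a (l 16687136) (l 16692600))) (b (a (l 16694728) (b (l 16682872) (l 16675752))) (l 16662080))) (b (l 56404808263) (l 70900244743))) (b (b (a (b (l 16709472) (l 16698128)) (l 1)) (b (l 1) (l 1))) (l 1))) (l 1)), by decide +kernel⟩

def k41_pm_112_a : ∃ t, chk3 f_pm_112_a t 11 2 1 = true :=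
  ⟨(l 1), by decide +kernel⟩

def k42_pm_112_a : ∃ t, chk3 f_pm_112_a t 4 6 1 = true :=
  ⟨(a (b (a (b (l 16516416) (l 16472112)) (b (l 16518056) (l 16468440))) (a (b (l 16424200) (l 16382304)) (a (l 16388640) (l 16404688)))) (b (a (b (l 16523608) (l 16469448)) (b (a (l 16531392) (l 16559456)) (l 16521840))) (a (b (l 16410904) (l 16387192)) (b (l 77342546343) (l 1))))), by decide +kernel⟩

def k43_pm_112_a : ∃ t, chk3 f_pm_112_a t 4 7 1 = true :=
  ⟨(b (a (a (b (a (l 16369160) (l 16365808)) (a (l 16380480) (b (l 16355816) (l 16349936)))) (b (l 16377912) (b (c (l 16364104) (l 16343256)) (l 61236039479)))) (b (a (l 120291803303) (l 1)) (l 1))) (a (b (a (a (c (b (l 16353920) (l 16351152)) (l 16348232)) (b (l 16345056) (a (l 16342944) (l 125660478231)))) (a (l 138545432487) (l 1))) (a (a (a (b (c (l 594549226019609948297775) (l 16343792)) (b (c (l 594427881031250074671663) (l 594177408834374220044847)) (b (c (c (l 594421251732598588004911) (l 594310283037780170611247)) (c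 (l 594171644226851187956271) (l 16336992))) (a (b (c (c (l 594296447979724898523695) (l 594185767515282632432175)) (c (l 594046840473977497639471) (l 16337208))) (a (b (c (c (l 594235054909604584790575) (l 594124374445162318486063)) (c (l 593985447403857183480367) (l 16337328))) (b (c (c (l 126322614546164040363874863) (l 594116592225006222072367)) (c (l 593976224031820328409647) (l 16337136))) (a (a (c (b (c (l 594189514510172615006767) (l 594078834045730348522031)) (a (b (c (l 594181732290016518887983) (l 594071051825574252386863)) (a (c (c (c (c (l 561537163121336427057123887) (l 595631242851683479982639)) (c (l 595691483000299186672175) (l 595740193933868824891951))) (c (c (l 595788616637062311367215) (l 595848856785678018007599)) (c (l 595897567719247656178223) (l 595945990422441142620719)))) (c (c (c (l 595994701356010780742191) (l 596043124059204267151919)) (c (l 596091834992773905257007) (l 596140257695967391633967))) (c (c (l 596188968629537029706287) (l 596237391332730516066863))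 (c (l 596286102266300154106415) (l 596334813199869792145967))))) (l 1))) (l 1))) (c (b (l 593939618774049061657135) (c (c (c (l 596399376804127774134831) (l 596447799507321260413487)) (c (l 596496222210514746692143) (l 596544644913708232954415))) (c (c (l 596593067616901719200303) (l 596641490320095205446191)) (l 16340784)))) (l 16337384))) (l 1)) (l 1)))) (l 1))) (l 1))))) (b (c (l 594959377844873825966639) (l 16339928)) (c (b (l 594825927180715579906607) (l 1)) (l 157872719783)))) (a (b (l 2099290138129593569888524847) (l 1)) (l 1))) (l 1))) (l 1))), by decide +kernel⟩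

def k44_pm_112_a : ∃ t, chk3 f_pm_112_a t 5 3 1 = true :=
  ⟨(b (l 1) (l 1)), by decide +kernel⟩

def k45_pm_112_a : ∃ t, chk3 f_pm_112_a t 3 1 1 = true :=
  ⟨(l 1), by decide +kernel⟩

theorem s46_pm_112_a : ∃ t, chk3 f_pm_112_a t 4 3 1 = true := ex3_b k42_pm_112_a k43_pm_112_a

theorem s47_pm_112_a : ∃ t, chk3 f_pm_112_a t 2 3 1 = true := ex3_a s46_pm_112_a k44_pm_112_a

theorem s48_pm_112_a : ∃ t, chk3 f_pm_112_a t 166 68 1 = true := ex3_a k33_pm_112_a k34_pm_112_a

theorem s49_pm_112_a : ∃ t, chk3 f_pm_112_a t 83 68 1 = true := ex3_a s48_pm_112_a k35_pm_112_a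

theorem s50_pm_112_a : ∃ t, chk3 f_pm_112_a t 83 34 1 = true := ex3_b s49_pm_112_a k36_pm_112_a

theorem s51_pm_112_a : ∃ t, chk3 f_pm_112_a t 331 136 1 = true := ex3_a k29_pm_112_a k30_pm_112_a

theorem s52_pm_112_a : ∃ t, chk3 f_pm_112_a t 165 136 1 = true := ex3_a k28_pm_112_a s51_pm_112_a

theorem s53_pm_112_a : ∃ t, chk3 f_pm_112_a t 165 68 1 = true := ex3_b s52_pm_112_a k31_pm_112_a

theorem s54_pm_112_a : ∃ t, chk3 f_pm_112_a t 82 68 1 = true := ex3_a k27_pm_112_a s53_pm_112_a

theorem s55_pm_112_a : ∃ t, chk3 f_pm_112_a t 82 34 1 = true := ex3_b s54_pm_112_a k32_pm_112_a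

theorem s56_pm_112_a : ∃ t, chk3 f_pm_112_a t 41 34 1 = true := ex3_a s55_pm_112_a s50_pm_112_a

theorem s57_pm_112_a : ∃ t, chk3 f_pm_112_a t 41 17 1 = true := ex3_b s56_pm_112_a k37_pm_112_a

theorem s58_pm_112_a : ∃ t, chk3 f_pm_112_a t 164 135 1 = true := ex3_a k23_pm_112_a k24_pm_112_a

theorem s59_pm_112_a : ∃ t, chk3 f_pm_112_a t 164 67 1 = true := ex3_b k22_pm_112_a s58_pm_112_a

theorem s60_pm_112_a : ∃ t, chk3 f_pm_112_a t 82 67 1 = true := ex3_a s59_pm_112_a k25_pm_112_a

theorem s61_pm_112_a : ∃ t, chk3 f_pm_112_a t 82 33 1 = true := ex3_b k21_pm_112_a s60_pm_112_a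

theorem s62_pm_112_a : ∃ t, chk3 f_pm_112_a t 41 33 1 = true := ex3_a s61_pm_112_a k26_pm_112_a

theorem s63_pm_112_a : ∃ t, chk3 f_pm_112_a t 41 16 1 = true := ex3_b k20_pm_112_a s62_pm_112_a

theorem s64_pm_112_a : ∃ t, chk3 f_pm_112_a t 41 8 1 = true := ex3_b s63_pm_112_a s57_pm_112_a

theorem s65_pm_112_a : ∃ t, chk3 f_pm_112_a t 81 66 1 = true := ex3_b k16_pm_112_a k17_pm_112_a

theorem s66_pm_112_a : ∃ t, chk3 f_pm_112_a t 81 33 1 = true := ex3_b s65_pm_112_a k18_pm_112_a

theorem s67_pm_112_a : ∃ t, chk3 f_pm_112_a t 40 33 1 = true := ex3_a k15_pm_112_a s66_pm_112_a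

theorem s68_pm_112_a : ∃ t, chk3 f_pm_112_a t 80 32 1 = true := ex3_b k12_pm_112_a k13_pm_112_a

theorem s69_pm_112_a : ∃ t, chk3 f_pm_112_a t 40 32 1 = true := ex3_a s68_pm_112_a k14_pm_112_a

theorem s70_pm_112_a : ∃ t, chk3 f_pm_112_a t 40 16 1 = true := ex3_b s69_pm_112_a s67_pm_112_a

theorem s71_pm_112_a : ∃ t, chk3 f_pm_112_a t 40 8 1 = true := ex3_b s70_pm_112_a k19_pm_112_a

theorem s72_pm_112_a : ∃ t, chk3 f_pm_112_a t 20 8 1 = true := ex3_a s71_pm_112_a s64_pm_112_a

theorem s73_pm_112_a : ∃ t, chk3 f_pm_112_a t 20 4 1 = true := ex3_b s72_pm_112_a k38_pm_112_a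

theorem s74_pm_112_a : ∃ t, chk3 f_pm_112_a t 10 4 1 = true := ex3_a s73_pm_112_a k39_pm_112_a

theorem s75_pm_112_a : ∃ t, chk3 f_pm_112_a t 10 2 1 = true := ex3_b s74_pm_112_a k40_pm_112_a

theorem s76_pm_112_a : ∃ t, chk3 f_pm_112_a t 5 2 1 = true := ex3_a s75_pm_112_a k41_pm_112_a

theorem s77_pm_112_a : ∃ t, chk3 f_pm_112_a t 158 64 1 = true := ex3_a k4_pm_112_a k5_pm_112_a

theorem s78_pm_112_a : ∃ t, chk3 f_pm_112_a t 79 64 1 = true := ex3_a s77_pm_112_a k6_pm_112_a

theorem s79_pm_112_a : ∃ t, chk3 f_pm_112_a t 79 32 1 = true := ex3_b s78_pm_112_a k7_pm_112_a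

theorem s80_pm_112_a : ∃ t, chk3 f_pm_112_a t 39 32 1 = true := ex3_a k3_pm_112_a s79_pm_112_a

theorem s81_pm_112_a : ∃ t, chk3 f_pm_112_a t 39 16 1 = true := ex3_b s80_pm_112_a k8_pm_112_a

theorem s82_pm_112_a : ∃ t, chk3 f_pm_112_a t 19 16 1 = true := ex3_a k2_pm_112_a s81_pm_112_a

theorem s83_pm_112_a : ∃ t, chk3 f_pm_112_a t 19 8 1 = true := ex3_b s82_pm_112_a k9_pm_112_a

theorem s84_pm_112_a : ∃ t, chk3 f_pm_112_a t 9 8 1 = true := ex3_a k1_pm_112_a s83_pm_112_a

theorem s85_pm_112_a : ∃ t, chk3 f_pm_112_a t 9 4 1 = true := ex3_b s84_pm_112_a k10_pm_112_a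

theorem s86_pm_112_a : ∃ t, chk3 f_pm_112_a t 9 2 1 = true := ex3_b s85_pm_112_a k11_pm_112_a

theorem s87_pm_112_a : ∃ t, chk3 f_pm_112_a t 4 2 1 = true := ex3_a k0_pm_112_a s86_pm_112_a

theorem s88_pm_112_a : ∃ t, chk3 f_pm_112_a t 2 2 1 = true := ex3_a s87_pm_112_a s76_pm_112_a

theorem s89_pm_112_a : ∃ t, chk3 f_pm_112_a t 2 1 1 = true := ex3_b s88_pm_112_a s47_pm_112_a

theorem s90_pm_112_a : ∃ t, chk3 f_pm_112_a t 1 1 1 = true := ex3_a s89_pm_112_a k45_pm_112_a

theorem c_pm_112_a : CertB 536870912 536870912 0 536870912 587336777 62277027 3 eng mog cd0q1 cd1q2a pd1 false true false .dn 1 1 2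
    ndB0q1 ndB1q2a pcB1 Cut.none xt_pm_112_a :=
  certB0 (fam := false) (s1 := true) (s2 := false) (a := 1) (b := 1) (c := 2) (cn := .dn) (n1 := ndB0q1) (n2 := ndB1q2a) (pc := pcB1) (cut := Cut.none) (xt := xt_pm_112_a) (P1 := 536870912) (W1 := 536870912) (P2 := 0) (W2 := 536870912) (P3 := 587336777) (W3 := 62277027) (N0 := 3) (En := eng) (mo := mog) (C1 := cd0q1) (C2 := cd1q2a) (C3 := pd1)
    rfl s90_pm_112_a

noncomputable def f_pm_112_b : ℕ → ℕ → ℕ → ℕ → Bool := onCell 536870912 536870912 1239849684 370763052 587336777 62277027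
    (rowB 3 eng mog cd0q1 cd1q2b pd1 0 false true false .dn 1 1 2 (qsf 536870912 536870912 1239849684 370763052 1) ndB0q1 ndB1q2b pcB1 Cut.none Ext.none)

def k0_pm_112_b : ∃ t, chk3 f_pm_112_b t 4 2 1 = true :=
  ⟨(b (a (b (a (b (a (l 16702104) (l 16712344)) (l 16698808)) (b (b (a (l 16723560) (a (l 16731408) (l 16736728))) (l 16748272)) (l 16722288))) (a (l 16680824) (l 16707728))) (b (a (b (a (a (b (l 16742128) (l 16740992)) (b (a (l 16746240) (l 16748976)) (l 16746520))) (b (b (a (l 16752872) (l 16758464)) (l 16755800)) (a (l 16751736) (l 16756992)))) (a (l 16739248) (b (l 16772272) (l 16747936)))) (b (a (b (a (b (a (l 16762672) (l 16765464)) (l 16763728)) (b (a (l 16768216) (a (l 16770232) (l 16771536))) (l 16768600))) (a (l 16761832) (l 16766168))) (b (a (b (a (b (a (l 16772984) (l 16774272)) (l 16773040)) (b (b (a (c (l 16775840) (l 16775408)) (a (a (l 16776288) (b (l 16776624) (l 16776360))) (b (b (a (b (a (l 16776856) (a (c (l 16776968) (l 16776816)) (a (a (c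 (l 16776968) (l 25400704263)) (l 112373792071)) (l 105931341111)))) (l 27011316951)) (l 104320728327)) (a (l 16776712) (c (l 51707379367) (l 48486153591)))) (c (l 27011317239) (l 23253220743))))) (a (l 16775224) (l 16776040))) (l 16774912))) (a (l 16771752) (l 16773368))) (a (b (a (a (b (b (l 180556397223) (l 110226307111)) (l 16775544)) (b (l 3) (l 138680464055))) (l 3)) (a (l 16774112) (l 128479919303))) (b (l 3) (l 250349609863)))) (a (l 16769656) (a (l 16771328) (b (l 138680457751) (l 16770832)))))) (a (b (l 16760552) (l 16756792)) (b (a (l 16765784) (l 16767936)) (l 16763328))))) (a (b (a (l 16731176) (l 16742272)) (l 16727984)) (b (a (b (l 16752896) (l 16749264)) (l 16779016)) (a (l 16744128) (l 16751464)))))) (a (a (b (l 16651600) (l 16619456)) (b (l 16684048) (l 16657352))) (b (a (l 16713760) (a (l 16732728) (b (l 16745624) (l 16740088)))) (a (l 16693640) (l 16724664))))), by decide +kernel⟩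

def k1_pm_112_b : ∃ t, chk3 f_pm_112_b t 5 2 1 = true :=
  ⟨(b (a (a (b (a (b (b (l 3) (a (a (l 237464702727) (l 3)) (l 3))) (a (b (a (l 109152565415) (l 221895440151)) (l 16765440)) (b (l 3) (l 197199371575)))) (l 3)) (a (b (a (l 16760992) (l 95730798295)) (l 16756240)) (b (a (l 190220041111) (l 3)) (a (l 16757176) (l 175724533095))))) (l 3)) (l 3)) (a (b (a (a (b (l 16751656) (l 16747520)) (b (l 16754192) (l 16751952))) (a (b (l 146196635831) (a (l 16752640) (l 16751664))) (b (l 3) (l 187535662631)))) (a (a (b (l 16744160) (l 16740552)) (b (l 16750304) (l 16749192))) (a (b (l 16752752) (l 16753896)) (b (l 91435807159) (l 16754200))))) (b (l 3) (a (a (b (l 3) (l 137606681783)) (l 3)) (l 3))))), by decide +kernel⟩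

def k2_pm_112_b : ∃ t, chk3 f_pm_112_b t 2 3 1 = true :=
  ⟨(a (b (a (b (a (l 16583704) (a (l 16618400) (l 16640480))) (a (l 16546872) (l 16599664))) (b (a (l 16672640) (l 16711584)) (a (a (l 16638760) (l 16663480)) (l 16699032)))) (a (a (b (l 16509096) (l 16470296)) (b (l 16569600) (l 16539480))) (b (a (l 16671936) (a (l 16673104) (l 16701088))) (a (l 16608560) (l 16676776))))) (b (a (b (a (b (l 16743720) (l 16741624)) (a (b (l 16755600) (l 16758200)) (l 16760928))) (a (l 16739864) (a (l 16762976) (b (l 16769544) (l 16776456))))) (a (b (a (b (l 16756376) (l 16764080)) (b (l 133311688391) (l 16759552))) (a (b (l 16773040) (l 16783112)) (b (l 16770800) (l 16784032)))) (b (l 3) (a (b (l 16763960) (l 16778840)) (l 3))))) (a (b (a (l 16739136) (l 16780224)) (a (a (l 16725128) (l 16755192)) (l 16795280))) (b (a (a (l 16800472) (b (l 16798960) (l 16815376))) (a (l 14126522823) (b (l 16788400) (l 16810928)))) (a (a (l 16827384) (l 16842864)) (a (b (l 16839824) (l 16864240))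 (l 16852760))))))), by decide +kernel⟩

def k3_pm_112_b : ∃ t, chk3 f_pm_112_b t 3 1 1 = true :=
  ⟨(b (l 3) (a (b (l 3) (a (a (b (a (b (l 3) (l 166060870967)) (l 3)) (a (b (l 16827616) (l 16861568)) (b (l 3) (l 174650881015)))) (l 3)) (l 3))) (l 3))), by decide +kernel⟩

theorem s4_pm_112_b : ∃ t, chk3 f_pm_112_b t 2 2 1 = true := ex3_a k0_pm_112_b k1_pm_112_b

theorem s5_pm_112_b : ∃ t, chk3 f_pm_112_b t 2 1 1 = true := ex3_b s4_pm_112_b k2_pm_112_b

theorem s6_pm_112_b : ∃ t, chk3 f_pm_112_b t 1 1 1 = true := ex3_a s5_pm_112_b k3_pm_112_b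

theorem c_pm_112_b : CertB 536870912 536870912 1239849684 370763052 587336777 62277027 3 eng mog cd0q1 cd1q2b pd1 false true false .dn 1 1 2
    ndB0q1 ndB1q2b pcB1 Cut.none Ext.none :=
  certB0 (fam := false) (s1 := true) (s2 := false) (a := 1) (b := 1) (c := 2) (cn := .dn) (n1 := ndB0q1) (n2 := ndB1q2b) (pc := pcB1) (cut := Cut.none) (xt := Ext.none) (P1 := 536870912) (W1 := 536870912) (P2 := 1239849684) (W2 := 370763052) (P3 := 587336777) (W3 := 62277027) (N0 := 3) (En := eng) (mo := mog) (C1 := cd0q1) (C2 := cd1q2b) (C3 := pd1)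
    rfl s6_pm_112_b

noncomputable def cut_pm_113 : Cut := Cut.of [[⟨0, 1, 0, 67108864⟩, ⟨1, 1, 0, 67108864⟩, ⟨2, 2, 0, 16777216⟩]]

noncomputable def f_pm_113 : ℕ → ℕ → ℕ → ℕ → Bool := onCell 536870912 536870912 536870912 536870912 587336777 62277027
    (rowB 3 eng mog cd0q1 cd1q3 pd1 1 false true false .nn 1 1 3 (qsf 536870912 536870912 1610612736 536870912 1) ndB0q1 ndB1q3 pcB1 cut_pm_113 Ext.none)

def k0_pm_113 : ∃ t, chk3 f_pm_113 t 1 2 1 = true :=
  ⟨(a (b (l 1) (a (l 1) (b (l 1) (a (l 1) (b (l 1) (a (l 1) (l 16840752))))))) (a (b (l 3) (b (l 3) (a (b (a (l 162839717479) (l 3)) (a (l 16877168) (l 224043213623))) (l 3)))) (l 3))), by decide +kernel⟩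

def k1_pm_113 : ∃ t, chk3 f_pm_113 t 1 3 1 = true :=
  ⟨(a (b (a (a (l 1) (b (l 1) (b (l 1) (l 16643120)))) (b (a (l 62310613063) (b (a (l 16823760) (l 16878400)) (a (l 16845752) (l 16911336)))) (a (a (l 53720607383) (l 16793912)) (a (l 16829344) (l 16862776))))) (a (a (b (l 54257256535) (b (l 16487232) (l 16458680))) (b (l 16621304) (l 16593568))) (a (b (a (l 16713144) (l 16753592)) (l 16677128)) (a (b (l 16785248) (l 16746904)) (b (l 16812800) (l 16771816)))))) (b (a (b (a (b (a (l 16939584) (l 16891240)) (a (l 16961672) (l 17025264))) (a (b (l 254644894551) (l 162839821623)) (l 3))) (a (b (a (l 16919960) (l 16968576)) (a (l 16884992) (l 16925392))) (a (b (l 17022664) (l 16966128)) (b (l 173040335287) (l 16943768))))) (a (b (l 3) (a (b (l 3) (l 285783461015)) (l 3))) (l 3))) (a (b (a (a (l 16842816) (l 16874440)) (b (a (l 16922840) (l 16952616)) (a (l 16887120) (l 16909816)))) (a (b (l 16821600) (l 16799888)) (a (l 16843016) (l 16858024)))) (b (a (a (b (b (l 16983928)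 (l 16961808)) (l 16925384)) (b (a (l 198810125111) (l 3)) (a (l 16929184) (l 190220183095)))) (a (b (l 3) (a (l 340007293511) (l 3))) (l 3))) (a (b (a (l 16883432) (a (l 16884200) (l 16880656))) (a (l 16847792) (b (l 16852144) (l 16833184)))) (a (b (a (b (l 16886920) (l 16864080)) (b (l 246054699767) (l 16814720))) (a (l 16833080) (l 16824160))) (a (b (b (l 3) (l 409263521479)) (b (a (l 16827592) (l 203641861831)) (l 16803936))) (b (l 3) (b (a (l 459192464967) (l 3)) (b (a (a (l 16802552) (l 211158048647)) (l 526838162711)) (a (l 16790664) (a (a (l 16787256) (l 6)) (l 6))))))))))))), by decide +kernel⟩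

theorem s2_pm_113 : ∃ t, chk3 f_pm_113 t 1 1 1 = true := ex3_b k0_pm_113 k1_pm_113

theorem c_pm_113 : CertB 536870912 536870912 1610612736 536870912 587336777 62277027 3 eng mog cd0q1 cd1q3 pd1 false true false .nn 1 1 3
    ndB0q1 ndB1q3 pcB1 cut_pm_113 Ext.none :=
  certB1 (fam := false) (s1 := true) (s2 := false) (a := 1) (b := 1) (c := 3) (cn := .nn) (n1 := ndB0q1) (n2 := ndB1q3) (pc := pcB1) (cut := cut_pm_113) (xt := Ext.none) (P1 := 536870912) (W1 := 536870912) (P2 := 1610612736) (W2 := 536870912) (P3 := 587336777) (W3 := 62277027) (N0 := 3) (En := eng) (mo := mog) (C1 := cd0q1) (C2 := cd1q3) (C3 := pd1)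
    rfl (fun _ => rfl) s2_pm_113

noncomputable def cut_pm_123 : Cut := Cut.of [[⟨0, 1, 0, 67108864⟩, ⟨1, 1, 0, 67108864⟩, ⟨2, 2, 0, 16777216⟩]]

noncomputable def f_pm_123 : ℕ → ℕ → ℕ → ℕ → Bool := onCell 536870912 536870912 1073741824 536870912 587336777 62277027
    (rowB 3 eng mog cd0q1 cd1q3 pd2 1 false true false .npn 1 2 3 (qsf 536870912 536870912 1610612736 536870912 2) ndB0q1 ndB1q3 pcB2 cut_pm_123 Ext.none)

def k0_pm_123 : ∃ t, chk3 f_pm_123 t 1 1 1 = true :=
  ⟨(a (b (a (b (a (b (l 16429176) (l 16442632)) (b (l 16560720) (l 16560216))) (a (b (l 16474848) (l 16524704)) (b (l 16564048) (l 16591376)))) (b (a (b (l 16676000) (l 16631624)) (b (l 16709128) (l 16670936))) (b (a (l 16616816) (b (b (l 16652424) (l 16646976)) (l 16641600))) (a (l 16630928) (l 16654496))))) (a (b (b (l 16601520) (l 16744264)) (l 16722904)) (b (a (b (l 16655208) (l 16682712)) (b (l 16675832) (l 16697208))) (a (b (l 16715024) (l 2)) (l 2))))) (b (a (b (a (b (l 16751976) (l 16702232)) (b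 (l 16784136) (l 16726952))) (b (a (b (b (l 16678920) (l 16672304)) (l 16666976)) (b (a (l 16802360) (l 16710064)) (l 16691720))) (a (l 16675648) (l 16639344)))) (b (b (a (a (l 16791704) (l 16787224)) (a (a (l 16778472) (l 16771288)) (b (a (l 16777536) (b (a (l 16777616) (b (l 6) (l 658841282263))) (l 660451910999))) (l 660988840855)))) (a (a (l 16734504) (l 16723616)) (a (l 525160574455) (l 2)))) (a (b (b (b (l 16687992) (l 2)) (l 2)) (l 2)) (l 2)))) (a (b (a (b (l 16689800) (l 2)) (l 2)) (l 2)) (l 2)))), by decide +kernel⟩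

theorem c_pm_123 : CertB 536870912 536870912 1610612736 536870912 587336777 62277027 3 eng mog cd0q1 cd1q3 pd2 false true false .npn 1 2 3
    ndB0q1 ndB1q3 pcB2 cut_pm_123 Ext.none :=
  certB1 (fam := false) (s1 := true) (s2 := false) (a := 1) (b := 2) (c := 3) (cn := .npn) (n1 := ndB0q1) (n2 := ndB1q3) (pc := pcB2) (cut := cut_pm_123) (xt := Ext.none) (P1 := 536870912) (W1 := 536870912) (P2 := 1610612736) (W2 := 536870912) (P3 := 587336777) (W3 := 62277027) (N0 := 3) (En := eng) (mo := mog) (C1 := cd0q1) (C2 := cd1q3) (C3 := pd2)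
    rfl (fun _ => rfl) k0_pm_123

noncomputable def f_pm_133 : ℕ → ℕ → ℕ → ℕ → Bool := onCell 536870912 536870912 1610612736 536870912 587336777 62277027
    (rowB 3 eng mog cd0q1 cd1q3 pd3 0 false true false .dn 1 3 3 (qsf 536870912 536870912 1610612736 536870912 3) ndB0q1 ndB1q3 pcB3 Cut.none Ext.none)

def k0_pm_133 : ∃ t, chk3 f_pm_133 t 1 1 1 = true :=
  ⟨(a (b (l 1) (a (b (l 1) (a (b (l 1) (l 350610686823)) (l 1))) (l 1))) (l 1)), by decide +kernel⟩

theorem c_pm_133 : CertB 536870912 536870912 1610612736 536870912 587336777 62277027 3 eng mog cd0q1 cd1q3 pd3 false true false .dn 1 3 3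
    ndB0q1 ndB1q3 pcB3 Cut.none Ext.none :=
  certB0 (fam := false) (s1 := true) (s2 := false) (a := 1) (b := 3) (c := 3) (cn := .dn) (n1 := ndB0q1) (n2 := ndB1q3) (pc := pcB3) (cut := Cut.none) (xt := Ext.none) (P1 := 536870912) (W1 := 536870912) (P2 := 1610612736) (W2 := 536870912) (P3 := 587336777) (W3 := 62277027) (N0 := 3) (En := eng) (mo := mog) (C1 := cd0q1) (C2 := cd1q3) (C3 := pd3)
    rfl k0_pm_133

noncomputable def cut_pm_202_a : Cut := Cut.of [[⟨0, 1, 0, 67108864⟩, ⟨1, 0, 0, 67108864⟩, ⟨2, 1, 0, 67108864⟩]]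

noncomputable def f_pm_202_a : ℕ → ℕ → ℕ → ℕ → Bool := onCell 0 536870912 0 536870912 587336777 62277027
    (rowB 3 eng mog cd0q2 cd1q2a pd0 0 false true false .pp 2 0 2 (qsf 0 536870912 0 536870912 0) ndB0q2 ndB1q2a pcB0 cut_pm_202_a Ext.none)

def k0_pm_202_a : ∃ t, chk3 f_pm_202_a t 1 1 1 = true :=
  ⟨(a (l 3) (b (l 3) (a (l 3) (b (l 3) (b (l 3) (a (l 3) (l 6))))))), by decide +kernel⟩

theorem c_pm_202_a : CertB 0 536870912 0 536870912 587336777 62277027 3 eng mog cd0q2 cd1q2a pd0 false true false .pp 2 0 2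
    ndB0q2 ndB1q2a pcB0 cut_pm_202_a Ext.none :=
  certB0 (fam := false) (s1 := true) (s2 := false) (a := 2) (b := 0) (c := 2) (cn := .pp) (n1 := ndB0q2) (n2 := ndB1q2a) (pc := pcB0) (cut := cut_pm_202_a) (xt := Ext.none) (P1 := 0) (W1 := 536870912) (P2 := 0) (W2 := 536870912) (P3 := 587336777) (W3 := 62277027) (N0 := 3) (En := eng) (mo := mog) (C1 := cd0q2) (C2 := cd1q2a) (C3 := pd0)
    rfl k0_pm_202_a

noncomputable def cut_pm_202_b : Cut := Cut.of [[⟨0, 1, 0, 67108864⟩, ⟨1, 0, 0, 67108864⟩, ⟨2, 1, 0, 67108864⟩]]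

noncomputable def f_pm_202_b : ℕ → ℕ → ℕ → ℕ → Bool := onCell 0 536870912 1239849684 370763052 587336777 62277027
    (rowB 3 eng mog cd0q2 cd1q2b pd0 0 false true false .pp 2 0 2 (qsf 0 536870912 1239849684 370763052 0) ndB0q2 ndB1q2b pcB0 cut_pm_202_b Ext.none)

def k0_pm_202_b : ∃ t, chk3 f_pm_202_b t 1 1 1 = true :=
  ⟨(l 3), by decide +kernel⟩

theorem c_pm_202_b : CertB 0 536870912 1239849684 370763052 587336777 62277027 3 eng mog cd0q2 cd1q2b pd0 false true false .pp 2 0 2
    ndB0q2 ndB1q2b pcB0 cut_pm_202_b Ext.none :=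
  certB0 (fam := false) (s1 := true) (s2 := false) (a := 2) (b := 0) (c := 2) (cn := .pp) (n1 := ndB0q2) (n2 := ndB1q2b) (pc := pcB0) (cut := cut_pm_202_b) (xt := Ext.none) (P1 := 0) (W1 := 536870912) (P2 := 1239849684) (W2 := 370763052) (P3 := 587336777) (W3 := 62277027) (N0 := 3) (En := eng) (mo := mog) (C1 := cd0q2) (C2 := cd1q2b) (C3 := pd0)
    rfl k0_pm_202_b

noncomputable def f_pm_203 : ℕ → ℕ → ℕ → ℕ → Bool := onCell 0 536870912 0 536870912 587336777 62277027
    (rowB 3 eng mog cd0q2 cd1q3 pd0 1 false true false .up 2 0 3 (qsf 0 536870912 1610612736 536870912 0) ndB0q2 ndB1q3 pcB0 Cut.none Ext.none)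

def k0_pm_203 : ∃ t, chk3 f_pm_203 t 1 1 1 = true :=
  ⟨(l 3), by decide +kernel⟩

theorem c_pm_203 : CertB 0 536870912 1610612736 536870912 587336777 62277027 3 eng mog cd0q2 cd1q3 pd0 false true false .up 2 0 3
    ndB0q2 ndB1q3 pcB0 Cut.none Ext.none :=
  certB1 (fam := false) (s1 := true) (s2 := false) (a := 2) (b := 0) (c := 3) (cn := .up) (n1 := ndB0q2) (n2 := ndB1q3) (pc := pcB0) (cut := Cut.none) (xt := Ext.none) (P1 := 0) (W1 := 536870912) (P2 := 1610612736) (W2 := 536870912) (P3 := 587336777) (W3 := 62277027) (N0 := 3) (En := eng) (mo := mog) (C1 := cd0q2) (C2 := cd1q3) (C3 := pd0)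
    rfl (fun _ => rfl) k0_pm_203

noncomputable def cut_pm_213 : Cut := Cut.of [[⟨0, 1, 0, 67108864⟩, ⟨1, 1, 0, 67108864⟩, ⟨2, 2, 0, 16777216⟩]]

noncomputable def f_pm_213 : ℕ → ℕ → ℕ → ℕ → Bool := onCell 0 536870912 1610612736 536870912 587336777 62277027
    (rowB 3 eng mog cd0q2 cd1q3 pd1 0 false true false .pnn 2 1 3 (qsf 0 536870912 1610612736 536870912 1) ndB0q2 ndB1q3 pcB1 cut_pm_213 Ext.none)

def k0_pm_213 : ∃ t, chk3 f_pm_213 t 1 1 1 = true :=
  ⟨(b (l 3) (a (l 3) (b (l 3) (a (l 3) (b (l 3) (b (l 3) (a (l 3) (b (l 3) (b (l 3) (l 6)))))))))), by decide +kernel⟩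

theorem c_pm_213 : CertB 0 536870912 1610612736 536870912 587336777 62277027 3 eng mog cd0q2 cd1q3 pd1 false true false .pnn 2 1 3
    ndB0q2 ndB1q3 pcB1 cut_pm_213 Ext.none :=
  certB0 (fam := false) (s1 := true) (s2 := false) (a := 2) (b := 1) (c := 3) (cn := .pnn) (n1 := ndB0q2) (n2 := ndB1q3) (pc := pcB1) (cut := cut_pm_213) (xt := Ext.none) (P1 := 0) (W1 := 536870912) (P2 := 1610612736) (W2 := 536870912) (P3 := 587336777) (W3 := 62277027) (N0 := 3) (En := eng) (mo := mog) (C1 := cd0q2) (C2 := cd1q3) (C3 := pd1)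
    rfl k0_pm_213

noncomputable def f_mm_001 : ℕ → ℕ → ℕ → ℕ → Bool := onCell 0 536870912 0 536870912 587336777 62277027
    (rowB 3 eng mog cd0q0 cd1q1 pd0 1 false false false .up 0 0 1 (qsf 0 536870912 536870912 536870912 0) ndB0q0 ndB1q1 pcB0 Cut.none Ext.none)

def k0_mm_001 : ∃ t, chk3 f_mm_001 t 1 1 1 = true :=
  ⟨(l 3), by decide +kernel⟩

theorem c_mm_001 : CertB 0 536870912 536870912 536870912 587336777 62277027 3 eng mog cd0q0 cd1q1 pd0 false false false .up 0 0 1
    ndB0q0 ndB1q1 pcB0 Cut.none Ext.none :=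
  certB1 (fam := false) (s1 := false) (s2 := false) (a := 0) (b := 0) (c := 1) (cn := .up) (n1 := ndB0q0) (n2 := ndB1q1) (pc := pcB0) (cut := Cut.none) (xt := Ext.none) (P1 := 0) (W1 := 536870912) (P2 := 536870912) (W2 := 536870912) (P3 := 587336777) (W3 := 62277027) (N0 := 3) (En := eng) (mo := mog) (C1 := cd0q0) (C2 := cd1q1) (C3 := pd0)
    rfl (fun _ => rfl) k0_mm_001

noncomputable def f_mm_011 : ℕ → ℕ → ℕ → ℕ → Bool := onCell 0 536870912 536870912 536870912 587336777 62277027
    (rowB 3 eng mog cd0q0 cd1q1 pd1 1 false false false .pnn 0 1 1 (qsf 0 536870912 536870912 536870912 1) ndB0q0 ndB1q1 pcB1 Cut.none Ext.none)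

def k0_mm_011 : ∃ t, chk3 f_mm_011 t 1 1 1 = true :=
  ⟨(l 5), by decide +kernel⟩

theorem c_mm_011 : CertB 0 536870912 536870912 536870912 587336777 62277027 3 eng mog cd0q0 cd1q1 pd1 false false false .pnn 0 1 1
    ndB0q0 ndB1q1 pcB1 Cut.none Ext.none :=
  certB1 (fam := false) (s1 := false) (s2 := false) (a := 0) (b := 1) (c := 1) (cn := .pnn) (n1 := ndB0q0) (n2 := ndB1q1) (pc := pcB1) (cut := Cut.none) (xt := Ext.none) (P1 := 0) (W1 := 536870912) (P2 := 536870912) (W2 := 536870912) (P3 := 587336777) (W3 := 62277027) (N0 := 3) (En := eng) (mo := mog) (C1 := cd0q0) (C2 := cd1q1) (C3 := pd1)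
    rfl (fun _ => rfl) k0_mm_011

noncomputable def f_mm_012_a : ℕ → ℕ → ℕ → ℕ → Bool := onCell 0 536870912 0 536870912 587336777 62277027
    (rowB 3 eng mog cd0q0 cd1q2a pd1 0 false false false .pnp 0 1 2 (qsf 0 536870912 0 536870912 1) ndB0q0 ndB1q2a pcB1 Cut.none Ext.none)

def k0_mm_012_a : ∃ t, chk3 f_mm_012_a t 1 1 1 = true :=
  ⟨(l 5), by decide +kernel⟩

theorem c_mm_012_a : CertB 0 536870912 0 536870912 587336777 62277027 3 eng mog cd0q0 cd1q2a pd1 false false false .pnp 0 1 2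
    ndB0q0 ndB1q2a pcB1 Cut.none Ext.none :=
  certB0 (fam := false) (s1 := false) (s2 := false) (a := 0) (b := 1) (c := 2) (cn := .pnp) (n1 := ndB0q0) (n2 := ndB1q2a) (pc := pcB1) (cut := Cut.none) (xt := Ext.none) (P1 := 0) (W1 := 536870912) (P2 := 0) (W2 := 536870912) (P3 := 587336777) (W3 := 62277027) (N0 := 3) (En := eng) (mo := mog) (C1 := cd0q0) (C2 := cd1q2a) (C3 := pd1)
    rfl k0_mm_012_a

noncomputable def f_mm_012_b : ℕ → ℕ → ℕ → ℕ → Bool := onCell 0 536870912 1239849684 370763052 587336777 62277027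
    (rowB 3 eng mog cd0q0 cd1q2b pd1 0 false false false .pnp 0 1 2 (qsf 0 536870912 1239849684 370763052 1) ndB0q0 ndB1q2b pcB1 Cut.none Ext.none)

def k0_mm_012_b : ∃ t, chk3 f_mm_012_b t 1 1 1 = true :=
  ⟨(l 5), by decide +kernel⟩

theorem c_mm_012_b : CertB 0 536870912 1239849684 370763052 587336777 62277027 3 eng mog cd0q0 cd1q2b pd1 false false false .pnp 0 1 2
    ndB0q0 ndB1q2b pcB1 Cut.none Ext.none :=
  certB0 (fam := false) (s1 := false) (s2 := false) (a := 0) (b := 1) (c := 2) (cn := .pnp) (n1 := ndB0q0) (n2 := ndB1q2b) (pc := pcB1) (cut := Cut.none) (xt := Ext.none) (P1 := 0) (W1 := 536870912) (P2 := 1239849684) (W2 := 370763052) (P3 := 587336777) (W3 := 62277027) (N0 := 3) (En := eng) (mo := mog) (C1 := cd0q0) (C2 := cd1q2b) (C3 := pd1)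
    rfl k0_mm_012_b

noncomputable def f_mm_022_a : ℕ → ℕ → ℕ → ℕ → Bool := onCell 0 536870912 0 536870912 587336777 62277027
    (rowB 3 eng mog cd0q0 cd1q2a pd2 0 false false false .pp 0 2 2 (qsf 0 536870912 0 536870912 2) ndB0q0 ndB1q2a pcB2 Cut.none Ext.none)

def k0_mm_022_a : ∃ t, chk3 f_mm_022_a t 1 1 1 = true :=
  ⟨(l 5), by decide +kernel⟩

theorem c_mm_022_a : CertB 0 536870912 0 536870912 587336777 62277027 3 eng mog cd0q0 cd1q2a pd2 false false false .pp 0 2 2
    ndB0q0 ndB1q2a pcB2 Cut.none Ext.none :=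
  certB0 (fam := false) (s1 := false) (s2 := false) (a := 0) (b := 2) (c := 2) (cn := .pp) (n1 := ndB0q0) (n2 := ndB1q2a) (pc := pcB2) (cut := Cut.none) (xt := Ext.none) (P1 := 0) (W1 := 536870912) (P2 := 0) (W2 := 536870912) (P3 := 587336777) (W3 := 62277027) (N0 := 3) (En := eng) (mo := mog) (C1 := cd0q0) (C2 := cd1q2a) (C3 := pd2)
    rfl k0_mm_022_a

noncomputable def f_mm_022_b : ℕ → ℕ → ℕ → ℕ → Bool := onCell 0 536870912 1239849684 370763052 587336777 62277027
    (rowB 3 eng mog cd0q0 cd1q2b pd2 0 false false false .pp 0 2 2 (qsf 0 536870912 1239849684 370763052 2) ndB0q0 ndB1q2b pcB2 Cut.none Ext.none)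

def k0_mm_022_b : ∃ t, chk3 f_mm_022_b t 1 1 1 = true :=
  ⟨(l 5), by decide +kernel⟩

theorem c_mm_022_b : CertB 0 536870912 1239849684 370763052 587336777 62277027 3 eng mog cd0q0 cd1q2b pd2 false false false .pp 0 2 2
    ndB0q0 ndB1q2b pcB2 Cut.none Ext.none :=
  certB0 (fam := false) (s1 := false) (s2 := false) (a := 0) (b := 2) (c := 2) (cn := .pp) (n1 := ndB0q0) (n2 := ndB1q2b) (pc := pcB2) (cut := Cut.none) (xt := Ext.none) (P1 := 0) (W1 := 536870912) (P2 := 1239849684) (W2 := 370763052) (P3 := 587336777) (W3 := 62277027) (N0 := 3) (En := eng) (mo := mog) (C1 := cd0q0) (C2 := cd1q2b) (C3 := pd2)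
    rfl k0_mm_022_b

noncomputable def f_mm_023 : ℕ → ℕ → ℕ → ℕ → Bool := onCell 0 536870912 1610612736 536870912 587336777 62277027
    (rowB 3 eng mog cd0q0 cd1q3 pd2 0 false false false .up 0 2 3 (qsf 0 536870912 1610612736 536870912 2) ndB0q0 ndB1q3 pcB2 Cut.none Ext.none)

def k0_mm_023 : ∃ t, chk3 f_mm_023 t 1 1 1 = true :=
  ⟨(l 5), by decide +kernel⟩

theorem c_mm_023 : CertB 0 536870912 1610612736 536870912 587336777 62277027 3 eng mog cd0q0 cd1q3 pd2 false false false .up 0 2 3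
    ndB0q0 ndB1q3 pcB2 Cut.none Ext.none :=
  certB0 (fam := false) (s1 := false) (s2 := false) (a := 0) (b := 2) (c := 3) (cn := .up) (n1 := ndB0q0) (n2 := ndB1q3) (pc := pcB2) (cut := Cut.none) (xt := Ext.none) (P1 := 0) (W1 := 536870912) (P2 := 1610612736) (W2 := 536870912) (P3 := 587336777) (W3 := 62277027) (N0 := 3) (En := eng) (mo := mog) (C1 := cd0q0) (C2 := cd1q3) (C3 := pd2)
    rfl k0_mm_023

noncomputable def f_mm_033 : ℕ → ℕ → ℕ → ℕ → Bool := onCell 0 536870912 1610612736 536870912 587336777 62277027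
    (rowB 3 eng mog cd0q0 cd1q3 pd3 0 false false false .pnn 0 3 3 (qsf 0 536870912 1610612736 536870912 3) ndB0q0 ndB1q3 pcB3 Cut.none Ext.none)

def k0_mm_033 : ∃ t, chk3 f_mm_033 t 1 1 1 = true :=
  ⟨(l 5), by decide +kernel⟩

theorem c_mm_033 : CertB 0 536870912 1610612736 536870912 587336777 62277027 3 eng mog cd0q0 cd1q3 pd3 false false false .pnn 0 3 3
    ndB0q0 ndB1q3 pcB3 Cut.none Ext.none :=
  certB0 (fam := false) (s1 := false) (s2 := false) (a := 0) (b := 3) (c := 3) (cn := .pnn) (n1 := ndB0q0) (n2 := ndB1q3) (pc := pcB3) (cut := Cut.none) (xt := Ext.none) (P1 := 0) (W1 := 536870912) (P2 := 1610612736) (W2 := 536870912) (P3 := 587336777) (W3 := 62277027) (N0 := 3) (En := eng) (mo := mog) (C1 := cd0q0) (C2 := cd1q3) (C3 := pd3)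
    rfl k0_mm_033

noncomputable def f_mm_101 : ℕ → ℕ → ℕ → ℕ → Bool := onCell 536870912 536870912 536870912 536870912 587336777 62277027
    (rowB 3 eng mog cd0q1 cd1q1 pd0 0 false false false .npn 1 0 1 (qsf 536870912 536870912 536870912 536870912 0) ndB0q1 ndB1q1 pcB0 Cut.none Ext.none)

def k0_mm_101 : ∃ t, chk3 f_mm_101 t 1 1 1 = true :=
  ⟨(l 3), by decide +kernel⟩

theorem c_mm_101 : CertB 536870912 536870912 536870912 536870912 587336777 62277027 3 eng mog cd0q1 cd1q1 pd0 false false false .npn 1 0 1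
    ndB0q1 ndB1q1 pcB0 Cut.none Ext.none :=
  certB0 (fam := false) (s1 := false) (s2 := false) (a := 1) (b := 0) (c := 1) (cn := .npn) (n1 := ndB0q1) (n2 := ndB1q1) (pc := pcB0) (cut := Cut.none) (xt := Ext.none) (P1 := 536870912) (W1 := 536870912) (P2 := 536870912) (W2 := 536870912) (P3 := 587336777) (W3 := 62277027) (N0 := 3) (En := eng) (mo := mog) (C1 := cd0q1) (C2 := cd1q1) (C3 := pd0)
    rfl k0_mm_101

noncomputable def f_mm_102_a : ℕ → ℕ → ℕ → ℕ → Bool := onCell 536870912 536870912 0 536870912 587336777 62277027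
    (rowB 3 eng mog cd0q1 cd1q2a pd0 0 false false false .npp 1 0 2 (qsf 536870912 536870912 0 536870912 0) ndB0q1 ndB1q2a pcB0 Cut.none Ext.none)

def k0_mm_102_a : ∃ t, chk3 f_mm_102_a t 1 1 1 = true :=
  ⟨(a (l 5) (l 3)), by decide +kernel⟩

theorem c_mm_102_a : CertB 536870912 536870912 0 536870912 587336777 62277027 3 eng mog cd0q1 cd1q2a pd0 false false false .npp 1 0 2
    ndB0q1 ndB1q2a pcB0 Cut.none Ext.none :=
  certB0 (fam := false) (s1 := false) (s2 := false) (a := 1) (b := 0) (c := 2) (cn := .npp) (n1 := ndB0q1) (n2 := ndB1q2a) (pc := pcB0) (cut := Cut.none) (xt := Ext.none) (P1 := 536870912) (W1 := 536870912) (P2 := 0) (W2 := 536870912) (P3 := 587336777) (W3 := 62277027) (N0 := 3) (En := eng) (mo := mog) (C1 := cd0q1) (C2 := cd1q2a) (C3 := pd0)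
    rfl k0_mm_102_a

noncomputable def f_mm_102_b : ℕ → ℕ → ℕ → ℕ → Bool := onCell 536870912 536870912 1239849684 370763052 587336777 62277027
    (rowB 3 eng mog cd0q1 cd1q2b pd0 0 false false false .npp 1 0 2 (qsf 536870912 536870912 1239849684 370763052 0) ndB0q1 ndB1q2b pcB0 Cut.none Ext.none)

def k0_mm_102_b : ∃ t, chk3 f_mm_102_b t 1 1 1 = true :=
  ⟨(l 5), by decide +kernel⟩

theorem c_mm_102_b : CertB 536870912 536870912 1239849684 370763052 587336777 62277027 3 eng mog cd0q1 cd1q2b pd0 false false false .npp 1 0 2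
    ndB0q1 ndB1q2b pcB0 Cut.none Ext.none :=
  certB0 (fam := false) (s1 := false) (s2 := false) (a := 1) (b := 0) (c := 2) (cn := .npp) (n1 := ndB0q1) (n2 := ndB1q2b) (pc := pcB0) (cut := Cut.none) (xt := Ext.none) (P1 := 536870912) (W1 := 536870912) (P2 := 1239849684) (W2 := 370763052) (P3 := 587336777) (W3 := 62277027) (N0 := 3) (En := eng) (mo := mog) (C1 := cd0q1) (C2 := cd1q2b) (C3 := pd0)
    rfl k0_mm_102_b

noncomputable def f_mm_112_a : ℕ → ℕ → ℕ → ℕ → Bool := onCell 536870912 536870912 0 536870912 587336777 62277027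
    (rowB 3 eng mog cd0q1 cd1q2a pd1 2 false false false .dn 1 1 2 (qsf 536870912 536870912 0 536870912 1) ndB0q1 ndB1q2a pcB1 Cut.none Ext.none)

def k0_mm_112_a : ∃ t, chk3 f_mm_112_a t 1 1 1 = true :=
  ⟨(l 5), by decide +kernel⟩

theorem c_mm_112_a : CertB 536870912 536870912 0 536870912 587336777 62277027 3 eng mog cd0q1 cd1q2a pd1 false false false .dn 1 1 2
    ndB0q1 ndB1q2a pcB1 Cut.none Ext.none :=
  certB2 (fam := false) (s1 := false) (s2 := false) (a := 1) (b := 1) (c := 2) (cn := .dn) (n1 := ndB0q1) (n2 := ndB1q2a) (pc := pcB1) (cut := Cut.none) (xt := Ext.none) (P1 := 536870912) (W1 := 536870912) (P2 := 0) (W2 := 536870912) (P3 := 587336777) (W3 := 62277027) (N0 := 3) (En := eng) (mo := mog) (C1 := cd0q1) (C2 := cd1q2a) (C3 := pd1)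
    rfl (fun _ => rfl) k0_mm_112_a

noncomputable def f_mm_112_b : ℕ → ℕ → ℕ → ℕ → Bool := onCell 536870912 536870912 1239849684 370763052 587336777 62277027
    (rowB 3 eng mog cd0q1 cd1q2b pd1 0 false false false .dn 1 1 2 (qsf 536870912 536870912 1239849684 370763052 1) ndB0q1 ndB1q2b pcB1 Cut.none Ext.none)

def k0_mm_112_b : ∃ t, chk3 f_mm_112_b t 1 1 1 = true :=
  ⟨(l 5), by decide +kernel⟩

theorem c_mm_112_b : CertB 536870912 536870912 1239849684 370763052 587336777 62277027 3 eng mog cd0q1 cd1q2b pd1 false false false .dn 1 1 2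
    ndB0q1 ndB1q2b pcB1 Cut.none Ext.none :=
  certB0 (fam := false) (s1 := false) (s2 := false) (a := 1) (b := 1) (c := 2) (cn := .dn) (n1 := ndB0q1) (n2 := ndB1q2b) (pc := pcB1) (cut := Cut.none) (xt := Ext.none) (P1 := 536870912) (W1 := 536870912) (P2 := 1239849684) (W2 := 370763052) (P3 := 587336777) (W3 := 62277027) (N0 := 3) (En := eng) (mo := mog) (C1 := cd0q1) (C2 := cd1q2b) (C3 := pd1)
    rfl k0_mm_112_b

noncomputable def f_mm_113 : ℕ → ℕ → ℕ → ℕ → Bool := onCell 536870912 536870912 1610612736 536870912 587336777 62277027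
    (rowB 3 eng mog cd0q1 cd1q3 pd1 0 false false false .nn 1 1 3 (qsf 536870912 536870912 1610612736 536870912 1) ndB0q1 ndB1q3 pcB1 Cut.none Ext.none)

def k0_mm_113 : ∃ t, chk3 f_mm_113 t 1 1 1 = true :=
  ⟨(l 5), by decide +kernel⟩

theorem c_mm_113 : CertB 536870912 536870912 1610612736 536870912 587336777 62277027 3 eng mog cd0q1 cd1q3 pd1 false false false .nn 1 1 3
    ndB0q1 ndB1q3 pcB1 Cut.none Ext.none :=
  certB0 (fam := false) (s1 := false) (s2 := false) (a := 1) (b := 1) (c := 3) (cn := .nn) (n1 := ndB0q1) (n2 := ndB1q3) (pc := pcB1) (cut := Cut.none) (xt := Ext.none) (P1 := 536870912) (W1 := 536870912) (P2 := 1610612736) (W2 := 536870912) (P3 := 587336777) (W3 := 62277027) (N0 := 3) (En := eng) (mo := mog) (C1 := cd0q1) (C2 := cd1q3) (C3 := pd1)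
    rfl k0_mm_113

noncomputable def f_mm_123 : ℕ → ℕ → ℕ → ℕ → Bool := onCell 536870912 536870912 1610612736 536870912 587336777 62277027
    (rowB 3 eng mog cd0q1 cd1q3 pd2 0 false false false .npn 1 2 3 (qsf 536870912 536870912 1610612736 536870912 2) ndB0q1 ndB1q3 pcB2 Cut.none Ext.none)

def k0_mm_123 : ∃ t, chk3 f_mm_123 t 1 1 1 = true :=
  ⟨(l 5), by decide +kernel⟩

theorem c_mm_123 : CertB 536870912 536870912 1610612736 536870912 587336777 62277027 3 eng mog cd0q1 cd1q3 pd2 false false false .npn 1 2 3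
    ndB0q1 ndB1q3 pcB2 Cut.none Ext.none :=
  certB0 (fam := false) (s1 := false) (s2 := false) (a := 1) (b := 2) (c := 3) (cn := .npn) (n1 := ndB0q1) (n2 := ndB1q3) (pc := pcB2) (cut := Cut.none) (xt := Ext.none) (P1 := 536870912) (W1 := 536870912) (P2 := 1610612736) (W2 := 536870912) (P3 := 587336777) (W3 := 62277027) (N0 := 3) (En := eng) (mo := mog) (C1 := cd0q1) (C2 := cd1q3) (C3 := pd2)
    rfl k0_mm_123

noncomputable def f_mm_133 : ℕ → ℕ → ℕ → ℕ → Bool := onCell 536870912 536870912 1610612736 536870912 587336777 62277027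
    (rowB 3 eng mog cd0q1 cd1q3 pd3 0 false false false .dn 1 3 3 (qsf 536870912 536870912 1610612736 536870912 3) ndB0q1 ndB1q3 pcB3 Cut.none Ext.none)

def k0_mm_133 : ∃ t, chk3 f_mm_133 t 1 1 1 = true :=
  ⟨(l 5), by decide +kernel⟩

theorem c_mm_133 : CertB 536870912 536870912 1610612736 536870912 587336777 62277027 3 eng mog cd0q1 cd1q3 pd3 false false false .dn 1 3 3
    ndB0q1 ndB1q3 pcB3 Cut.none Ext.none :=
  certB0 (fam := false) (s1 := false) (s2 := false) (a := 1) (b := 3) (c := 3) (cn := .dn) (n1 := ndB0q1) (n2 := ndB1q3) (pc := pcB3) (cut := Cut.none) (xt := Ext.none) (P1 := 536870912) (W1 := 536870912) (P2 := 1610612736) (W2 := 536870912) (P3 := 587336777) (W3 := 62277027) (N0 := 3) (En := eng) (mo := mog) (C1 := cd0q1) (C2 := cd1q3) (C3 := pd3)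
    rfl k0_mm_133

noncomputable def f_mm_202_a : ℕ → ℕ → ℕ → ℕ → Bool := onCell 0 536870912 0 536870912 587336777 62277027
    (rowB 3 eng mog cd0q2 cd1q2a pd0 0 false false false .pp 2 0 2 (qsf 0 536870912 0 536870912 0) ndB0q2 ndB1q2a pcB0 Cut.none Ext.none)

def k0_mm_202_a : ∃ t, chk3 f_mm_202_a t 1 1 1 = true :=
  ⟨(l 3), by decide +kernel⟩

theorem c_mm_202_a : CertB 0 536870912 0 536870912 587336777 62277027 3 eng mog cd0q2 cd1q2a pd0 false false false .pp 2 0 2
    ndB0q2 ndB1q2a pcB0 Cut.none Ext.none :=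
  certB0 (fam := false) (s1 := false) (s2 := false) (a := 2) (b := 0) (c := 2) (cn := .pp) (n1 := ndB0q2) (n2 := ndB1q2a) (pc := pcB0) (cut := Cut.none) (xt := Ext.none) (P1 := 0) (W1 := 536870912) (P2 := 0) (W2 := 536870912) (P3 := 587336777) (W3 := 62277027) (N0 := 3) (En := eng) (mo := mog) (C1 := cd0q2) (C2 := cd1q2a) (C3 := pd0)
    rfl k0_mm_202_a

noncomputable def f_mm_202_b : ℕ → ℕ → ℕ → ℕ → Bool := onCell 0 536870912 1239849684 370763052 587336777 62277027
    (rowB 3 eng mog cd0q2 cd1q2b pd0 0 false false false .pp 2 0 2 (qsf 0 536870912 1239849684 370763052 0) ndB0q2 ndB1q2b pcB0 Cut.none Ext.none)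

def k0_mm_202_b : ∃ t, chk3 f_mm_202_b t 1 1 1 = true :=
  ⟨(l 3), by decide +kernel⟩

theorem c_mm_202_b : CertB 0 536870912 1239849684 370763052 587336777 62277027 3 eng mog cd0q2 cd1q2b pd0 false false false .pp 2 0 2
    ndB0q2 ndB1q2b pcB0 Cut.none Ext.none :=
  certB0 (fam := false) (s1 := false) (s2 := false) (a := 2) (b := 0) (c := 2) (cn := .pp) (n1 := ndB0q2) (n2 := ndB1q2b) (pc := pcB0) (cut := Cut.none) (xt := Ext.none) (P1 := 0) (W1 := 536870912) (P2 := 1239849684) (W2 := 370763052) (P3 := 587336777) (W3 := 62277027) (N0 := 3) (En := eng) (mo := mog) (C1 := cd0q2) (C2 := cd1q2b) (C3 := pd0)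
    rfl k0_mm_202_b

noncomputable def f_mm_203 : ℕ → ℕ → ℕ → ℕ → Bool := onCell 0 536870912 0 536870912 587336777 62277027
    (rowB 3 eng mog cd0q2 cd1q3 pd0 1 false false false .up 2 0 3 (qsf 0 536870912 1610612736 536870912 0) ndB0q2 ndB1q3 pcB0 Cut.none Ext.none)

def k0_mm_203 : ∃ t, chk3 f_mm_203 t 1 1 1 = true :=
  ⟨(l 3), by decide +kernel⟩

theorem c_mm_203 : CertB 0 536870912 1610612736 536870912 587336777 62277027 3 eng mog cd0q2 cd1q3 pd0 false false false .up 2 0 3
    ndB0q2 ndB1q3 pcB0 Cut.none Ext.none :=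
  certB1 (fam := false) (s1 := false) (s2 := false) (a := 2) (b := 0) (c := 3) (cn := .up) (n1 := ndB0q2) (n2 := ndB1q3) (pc := pcB0) (cut := Cut.none) (xt := Ext.none) (P1 := 0) (W1 := 536870912) (P2 := 1610612736) (W2 := 536870912) (P3 := 587336777) (W3 := 62277027) (N0 := 3) (En := eng) (mo := mog) (C1 := cd0q2) (C2 := cd1q3) (C3 := pd0)
    rfl (fun _ => rfl) k0_mm_203

noncomputable def f_mm_213 : ℕ → ℕ → ℕ → ℕ → Bool := onCell 0 536870912 1610612736 536870912 587336777 62277027
    (rowB 3 eng mog cd0q2 cd1q3 pd1 0 false false false .pnn 2 1 3 (qsf 0 536870912 1610612736 536870912 1) ndB0q2 ndB1q3 pcB1 Cut.none Ext.none)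

def k0_mm_213 : ∃ t, chk3 f_mm_213 t 1 1 1 = true :=
  ⟨(a (l 3) (l 5)), by decide +kernel⟩

theorem c_mm_213 : CertB 0 536870912 1610612736 536870912 587336777 62277027 3 eng mog cd0q2 cd1q3 pd1 false false false .pnn 2 1 3
    ndB0q2 ndB1q3 pcB1 Cut.none Ext.none :=
  certB0 (fam := false) (s1 := false) (s2 := false) (a := 2) (b := 1) (c := 3) (cn := .pnn) (n1 := ndB0q2) (n2 := ndB1q3) (pc := pcB1) (cut := Cut.none) (xt := Ext.none) (P1 := 0) (W1 := 536870912) (P2 := 1610612736) (W2 := 536870912) (P3 := 587336777) (W3 := 62277027) (N0 := 3) (En := eng) (mo := mog) (C1 := cd0q2) (C2 := cd1q3) (C3 := pd1)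
    rfl k0_mm_213

end Pool.Agent.Strip051.G.I5470_6050.Tab.C.BB01

namespace Pool.Agent.Strip051.G.I5470_6050.Tab.C.BB02

open Pool.Agent.Strip051.PB Pool.Agent.Strip051.PB.T
open Pool.Agent.Strip051.G.I5470_6050.Tab

noncomputable def f_pp_001 : ℕ → ℕ → ℕ → ℕ → Bool := onCell 0 536870912 536870912 536870912 587336777 62277027
    (rowB 3 eng mog cd0q0 cd2q1 pd0 0 false true true .up 0 0 1 (qsf 0 536870912 536870912 536870912 0) ndB0q0 ndB2q1 pcB0 Cut.none Ext.none)

def k0_pp_001 : ∃ t, chk3 f_pp_001 t 1 1 1 = true :=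
  ⟨(l 3), by decide +kernel⟩

theorem c_pp_001 : CertB 0 536870912 536870912 536870912 587336777 62277027 3 eng mog cd0q0 cd2q1 pd0 false true true .up 0 0 1
    ndB0q0 ndB2q1 pcB0 Cut.none Ext.none :=
  certB0 (fam := false) (s1 := true) (s2 := true) (a := 0) (b := 0) (c := 1) (cn := .up) (n1 := ndB0q0) (n2 := ndB2q1) (pc := pcB0) (cut := Cut.none) (xt := Ext.none) (P1 := 0) (W1 := 536870912) (P2 := 536870912) (W2 := 536870912) (P3 := 587336777) (W3 := 62277027) (N0 := 3) (En := eng) (mo := mog) (C1 := cd0q0) (C2 := cd2q1) (C3 := pd0)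
    rfl k0_pp_001

noncomputable def f_pp_011 : ℕ → ℕ → ℕ → ℕ → Bool := onCell 0 536870912 536870912 536870912 587336777 62277027
    (rowB 3 eng mog cd0q0 cd2q1 pd1 0 false true true .pnn 0 1 1 (qsf 0 536870912 536870912 536870912 1) ndB0q0 ndB2q1 pcB1 Cut.none Ext.none)

def k0_pp_011 : ∃ t, chk3 f_pp_011 t 1 1 1 = true :=
  ⟨(l 3), by decide +kernel⟩

theorem c_pp_011 : CertB 0 536870912 536870912 536870912 587336777 62277027 3 eng mog cd0q0 cd2q1 pd1 false true true .pnn 0 1 1
    ndB0q0 ndB2q1 pcB1 Cut.none Ext.none :=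
  certB0 (fam := false) (s1 := true) (s2 := true) (a := 0) (b := 1) (c := 1) (cn := .pnn) (n1 := ndB0q0) (n2 := ndB2q1) (pc := pcB1) (cut := Cut.none) (xt := Ext.none) (P1 := 0) (W1 := 536870912) (P2 := 536870912) (W2 := 536870912) (P3 := 587336777) (W3 := 62277027) (N0 := 3) (En := eng) (mo := mog) (C1 := cd0q0) (C2 := cd2q1) (C3 := pd1)
    rfl k0_pp_011

noncomputable def cut_pp_012_a : Cut := Cut.of [[⟨0, 0, 0, 53687091⟩, ⟨1, 1, 0, 53687091⟩, ⟨2, 1, 0, 53687091⟩]]

noncomputable def f_pp_012_a : ℕ → ℕ → ℕ → ℕ → Bool := onCell 536870912 536870912 0 536870912 587336777 62277027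
    (rowB 3 eng mog cd0q0 cd2q2a pd1 2 false true true .pnp 0 1 2 (qsf 0 536870912 0 536870912 1) ndB0q0 ndB2q2a pcB1 cut_pp_012_a Ext.none)

def k0_pp_012_a : ∃ t, chk3 f_pp_012_a t 4 1 1 = true :=
  ⟨(l 3), by decide +kernel⟩

def k1_pp_012_a : ∃ t, chk3 f_pp_012_a t 10 2 1 = true :=
  ⟨(l 3), by decide +kernel⟩

def k2_pp_012_a : ∃ t, chk3 f_pp_012_a t 44 16 1 = true :=
  ⟨(b (a (l 3) (b (a (b (b (b (b (a (l 3) (a (l 3) (a (l 3) (a (c (l 123111196615) (c (l 125258680535) (l 126869293367))) (b (c (l 16769800) (l 53317978455)) (c (l 103246972839) (c (l 103246973447) (l 103246973543)))))))) (l 3)) (l 3)) (l 3)) (l 3)) (b (a (a (b (b (a (a (b (l 16770128) (b (a (l 105394457015) (l 58149816599)) (l 126869293719))) (a (c (l 52244236583) (l 49023011271)) (l 16769712))) (c (l 16769432) (l 16769568))) (a (c (l 128479906119) (c (l 131164260903) (l 133311744615))) (a (b (c (l 72645331383) (a (l 82309007943) (l 16769968))) (l 137606711559)) (b (l 16769784) (c (l 98952006215) (a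 (l 104857586295) (l 79624653367))))))) (l 3)) (a (b (c (l 43117431031) (c (l 16769448) (l 16769480))) (b (a (c (l 123648067735) (l 126869293463)) (b (a (l 76940298759) (l 16769896)) (l 133311744727))) (l 3))) (b (l 16769104) (b (b (l 16769696) (c (l 71034718951) (a (l 86067104503) (l 16769896)))) (c (l 124184938791) (l 127406164487)))))) (a (b (l 16768616) (a (b (l 16769488) (b (c (l 16769760) (l 54928591511)) (c (l 103783844887) (l 104857586775)))) (c (l 16769336) (l 16769424)))) (c (l 16768408) (l 16768432)))) (a (l 3) (b (a (a (l 3) (b (a (l 119889971447) (b (l 60834171415) (l 124721810151))) (l 3))) (a (c (b (l 57076075223) (l 119889971447)) (b (l 54928591687) (l 122574326183))) (b (l 16769448) (a (a (l 89825200935) (l 75866557223)) (l 59223558791))))) (l 3))))) (l 3))) (l 3)), by decide +kernel⟩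

def k3_pp_012_a : ∃ t, chk3 f_pp_012_a t 45 16 1 = true :=
  ⟨(b (a (b (a (b (c (l 16769464) (c (l 16766768) (l 16766672))) (a (b (c (l 16768840) (l 16770168)) (a (a (b (a (l 112910650503) (l 79624653815)) (l 3)) (b (l 51707366039) (l 116668746007))) (a (a (b (l 16769488) (l 76940299207)) (l 45264914935)) (l 16769320)))) (c (l 16768040) (l 16767968)))) (c (l 16765232) (l 16770176))) (a (b (a (a (l 3) (a (l 135996100327) (b (a (l 120426842631) (b (l 74255944519) (l 3))) (l 3)))) (a (b (a (b (l 16769696) (l 110226296135)) (b (l 16769360) (l 63518526327))) (l 132238003319)) (b (l 16769104) (a (b (l 79624653943) (l 3)) (b (l 16769640) (l 105394457815)))))) (l 3)) (a (b (c (c (l 16768592) (l 16768592)) (c (l 16771176) (l 33453755495))) (b (c (a (l 109689424311) (l 61371043687)) (a (b (l 97341394679) (l 3)) (c (l 59760430823) (l 58686688919)))) (c (l 127406165511) (l 131164261703)))) (b (l 16767248) (a (b (l 16768992) (c (l 75866558935) (b (l 56539204583) (l 107005069383))))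 (c (l 16768824) (l 16768720))))))) (a (b (l 16767680) (a (c (l 16766952) (l 16766704)) (l 16768128))) (c (l 16761944) (l 16766480)))) (a (b (a (l 3) (b (a (l 3) (b (c (l 111836908375) (a (l 3) (l 103783843911))) (l 3))) (l 3))) (l 3)) (b (b (a (a (a (b (c (l 16769552) (l 53317979463)) (l 119353100951)) (c (l 55465464487) (b (l 16768768) (l 69960978295)))) (c (l 16768400) (l 16768192))) (c (l 16766456) (l 16766064))) (a (a (l 3) (a (a (l 120426843127) (b (l 78014041351) (l 3))) (b (l 48486140951) (l 112373778823)))) (a (a (a (b (l 16768880) (l 73719073895)) (l 40433076935)) (l 16768496)) (l 16767480)))) (a (l 3) (b (a (b (c (l 101636360567) (a (l 130090519047) (l 86067105575))) (l 3)) (a (b (l 16769224) (l 104857585735)) (b (l 16768544) (l 57076075783)))) (a (l 3) (l 125258682071))))))), by decide +kernel⟩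

def k4_pp_012_a : ∃ t, chk3 f_pp_012_a t 22 17 1 = true :=
  ⟨(l 3), by decide +kernel⟩

def k5_pp_012_a : ∃ t, chk3 f_pp_012_a t 22 9 1 = true :=
  ⟨(l 3), by decide +kernel⟩

def k6_pp_012_a : ∃ t, chk3 f_pp_012_a t 46 8 1 = true :=
  ⟨(a (b (a (b (c (l 16759368) (l 16758368)) (b (c (l 16764768) (l 16764160)) (b (c (l 16767480) (l 16767064)) (a (a (b (l 72645332615) (l 3)) (b (l 16769048) (l 95193910951))) (c (l 16768632) (l 34527497383)))))) (b (l 16756144) (c (l 16774432) (b (l 16761240) (l 16765120))))) (b (b (a (a (l 3) (a (l 122574328007) (b (b (l 65129139239) (l 3)) (l 3)))) (a (b (c (l 52781110503) (b (l 16768264) (l 66202882183))) (l 113447521271)) (b (l 16767568) (c (l 66202884279) (b (l 16771328) (l 90362070023)))))) (l 3)) (l 3))) (b (b (c (l 16752840) (l 16751016)) (c (l 16770440) (c (l 16769520) (l 16768840)))) (b (b (c (a (l 16766704) (l 16764000)) (a (c (l 16766208) (l 16765808)) (l 16762984))) (a (b (a (b (c (l 70497850167) (l 68350365335)) (l 109689424071))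 (c (l 16768728) (l 40433077159))) (a (l 3) (b (l 90898941319) (l 3)))) (a (b (l 16767048) (c (l 57612948855) (b (l 16768080) (l 70497848679)))) (c (l 16766928) (l 16766088))))) (b (a (l 3) (b (a (l 111300037255) (c (l 69960980279) (b (l 51707365751) (l 93583294839)))) (l 3))) (l 3))))), by decide +kernel⟩

def k7_pp_012_a : ∃ t, chk3 f_pp_012_a t 47 8 1 = true :=
  ⟨(b (b (a (l 16746232) (l 16740312)) (a (c (l 16754512) (l 16752544)) (l 16747552))) (b (b (a (c (l 16759864) (l 16758328)) (l 16753072)) (a (c (l 16773944) (a (l 16763768) (l 16760616))) (c (l 16757712) (l 16755776)))) (a (b (a (b (c (l 16767544) (c (l 16766896) (l 16769000))) (b (a (c (l 72645333159) (l 72645331415)) (l 16767784)) (a (l 3) (c (l 16769064) (l 54391719527))))) (c (l 16765640) (l 16764480))) (a (b (a (l 3) (l 97341392343)) (l 3)) (a (b (c (l 58149818951) (b (l 16767640) (l 75866553239))) (l 3)) (b (l 16767128) (c (l 72645329447) (b (l 56002331527) (l 95193906455))))))) (c (a (b (l 16762760) (c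 (l 16766632) (l 16771320))) (l 16761640)) (a (b (l 16761272) (a (b (l 16764976) (l 30769397719)) (l 16764336))) (b (l 16758008) (l 16761888))))))), by decide +kernel⟩

def k8_pp_012_a : ∃ t, chk3 f_pp_012_a t 23 9 1 = true :=
  ⟨(a (l 3) (b (b (a (l 3) (b (c (a (b (a (l 83919619159) (l 48486140983)) (l 96804522647)) (b (l 16766144) (a (l 59760430711) (l 16767184)))) (a (b (a (l 85530229655) (a (l 54928588887) (l 16766784))) (l 100025745639)) (b (l 16764776) (a (b (l 39896202119) (l 78550906407)) (l 16765864))))) (a (l 3) (b (a (l 3) (c (l 72645328503) (b (l 60834167943) (l 96267646759)))) (l 3))))) (l 3)) (l 3))), by decide +kernel⟩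

def k9_pp_012_a : ∃ t, chk3 f_pp_012_a t 11 5 1 = true :=
  ⟨(l 3), by decide +kernel⟩

def k10_pp_012_a : ∃ t, chk3 f_pp_012_a t 5 3 1 = true :=
  ⟨(l 3), by decide +kernel⟩

def k11_pp_012_a : ∃ t, chk3 f_pp_012_a t 24 8 1 = true :=
  ⟨(b (a (b (a (b (l 16732424) (l 16735992)) (l 16728104)) (a (l 16741376) (l 16735048))) (b (l 16718640) (a (b (l 16726936) (l 16730352)) (l 16722240)))) (a (b (a (c (l 16749992) (l 16747272)) (l 16742248)) (b (a (c (l 16755328) (l 16753016)) (l 16747736)) (a (c (l 16758928) (a (l 16758576) (l 16755216))) (c (l 16752736) (l 16750096))))) (a (b (l 16735720) (c (l 16744584) (l 16741296))) (b (l 16729040) (l 16736248))))), by decide +kernel⟩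

def k12_pp_012_a : ∃ t, chk3 f_pp_012_a t 24 18 1 = true :=
  ⟨(a (b (a (b (c (a (l 16764056) (l 16761008)) (a (l 16767688) (l 16759088))) (a (b (a (a (b (l 16766776) (l 58686682679)) (l 16766456)) (l 16765280)) (a (c (l 82845876263) (l 84456486231)) (c (l 50096752263) (b (l 16765912) (a (l 82845872375) (l 44191166663)))))) (c (l 16764616) (c (l 16763392) (l 16762496))))) (c (a (l 16770200) (l 16756560)) (a (b (l 16755688) (l 16759560)) (b (l 16752240) (l 16756112))))) (a (b (a (a (l 3) (l 94120165639)) (b (c (a (l 59760429127) (l 16766520)) (a (b (c (l 42043685143) (l 40433070823)) (l 78550904647)) (c (l 16765384) (l 16767152)))) (a (l 3) (c (l 71034714407) (b (a (l 82309000519) (l 49023003863)) (l 3)))))) (l 3)) (a (b (a (b (l 16764176) (b (l 16765560) (a (a (l 72645323607) (l 52781099415)) (l 16766072)))) (c (l 16764328) (l 16762552))) (b (a (c (l 79624649335) (b (l 77477161815) (l 3))) (c (c (l 49559881015) (l 48486137863)) (b (c (l 16765352) (l 25400682471)) (a (l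 81772128567) (l 49559873591))))) (l 3))) (b (c (l 16761968) (c (l 16760504) (l 16759432))) (c (b (l 16764656) (a (b (l 42580556055) (l 74792809543)) (l 16765648))) (b (c (l 16763328) (l 16764976)) (a (b (c (l 40969941351) (a (l 59223549703) (l 16764232))) (a (l 3) (l 69960967319))) (c (l 22716328839) (b (l 16762928) (a (l 32916873767) (l 16763456))))))))))) (a (a (b (c (l 16753352) (l 16750696)) (c (b (l 16758760) (l 16762368)) (b (l 16756488) (c (l 16760880) (b (l 16758816) (l 16763392)))))) (b (l 16748680) (b (l 16754272) (a (a (l 16759288) (l 16758440)) (l 16757160))))) (b (c (l 16745152) (l 16741920)) (c (a (l 16754008) (l 16750656)) (a (b (l 16749424) (l 16753280)) (l 16747792)))))), by decide +kernel⟩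

def k13_pp_012_a : ∃ t, chk3 f_pp_012_a t 48 19 1 = true :=
  ⟨(b (a (l 3) (b (a (l 3) (b (a (l 3) (b (a (l 79087774679) (c (l 16766560) (a (l 58686677463) (l 39896194775)))) (l 3))) (l 3))) (l 3))) (l 3)), by decide +kernel⟩

def k14_pp_012_a : ∃ t, chk3 f_pp_012_a t 98 19 1 = true :=
  ⟨(b (b (a (b (c (a (c (l 34527493143) (l 33453749671)) (l 16764256)) (a (b (l 16763600) (c (a (l 58686679495) (l 16764584)) (a (b (l 42043678471) (l 76403416455)) (l 24326937495)))) (l 16763656))) (a (c (l 74792809303) (b (a (l 3) (c (l 68350354359) (b (l 61371031223) (l 3)))) (l 3))) (c (b (l 16765584) (l 57612940503)) (b (a (a (b (l 16764184) (l 61907901175)) (l 16763984)) (l 16763344)) (a (l 76940288087) (c (l 48486131063) (b (l 30769387783) (a (l 80161511911) (l 51707353191))))))))) (a (c (l 16763536) (c (l 16767328) (b (l 16760048) (c (l 16762256) (l 16761720))))) (c (l 16761904) (c (l 16760360) (l 16759232))))) (a (l 3) (b (b (c (a (l 43117424727) (l 16764168)) (a (a (b (a (l 60834158759)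 (l 16763920)) (l 73182190775)) (a (b (l 16763496) (l 40969934391)) (l 16763296))) (l 16762208))) (a (a (l 3) (a (l 77477160055) (b (c (l 16765840) (l 51170481783)) (l 3)))) (c (l 32380004871) (a (b (l 16763368) (a (l 59760416263) (l 31843128135))) (l 16762736))))) (b (a (l 3) (c (l 55465455767) (a (c (l 73182191527) (l 74255931319)) (c (l 46875517015) (b (c (l 16763184) (l 32916870151)) (a (l 76403414311) (l 50096739207))))))) (l 3))))) (l 3)), by decide +kernel⟩

def k15_pp_012_a : ∃ t, chk3 f_pp_012_a t 99 19 1 = true :=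
  ⟨(b (b (c (a (l 16759432) (l 16756080)) (a (c (l 16757744) (l 16760456)) (l 16753560))) (a (c (b (l 16762160) (a (c (l 36138103703) (b (l 16763888) (l 43654294423))) (l 16763160))) (b (c (l 16760600) (a (l 16760376) (l 16758576))) (a (a (b (l 22179451015) (b (a (l 58686673751) (l 33453740167)) (l 69960964103))) (a (b (l 16762160) (b (l 16762880) (l 41506803991))) (l 16762200))) (c (l 16761640) (l 16760544))))) (c (l 16759736) (c (l 16758056) (a (l 16757752) (l 16755928)))))) (b (a (b (a (c (l 67813485463) (b (a (l 3) (c (l 62981642951) (b (a (l 75329671847) (l 49559867655)) (l 3)))) (l 3))) (c (b (l 33453745431) (l 53317971031)) (a (a (b (b (l 16762968) (l 57612931303)) (l 3)) (b (l 28085030519) (l 69960963511))) (b (l 16762104) (c (l 46338644887) (b (l 33453739655) (a (l 74255929399) (l 47412383287)))))))) (l 3)) (b (a (c (l 16763320) (c (l 16761808) (c (l 16760984) (l 16760416)))) (c (l 16761648) (l 16759480))) (c (a (b (l 43117422471) (l 63518516311)) (l 30232519031))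 (b (a (a (b (a (l 57076059767) (l 16762680)) (l 68350350135)) (a (l 32379997287) (l 16762040))) (l 16760928)) (b (a (a (l 3) (c (l 56002320311) (l 57612930903))) (l 16761656)) (a (l 3) (c (l 37748709175) (a (l 46875512071) (l 16761136))))))))) (a (l 3) (b (b (a (l 3) (c (l 52244228055) (a (l 69960962599) (a (l 50096737639) (l 36138093111))))) (l 3)) (l 3))))), by decide +kernel⟩

def k16_pp_012_a : ∃ t, chk3 f_pp_012_a t 25 4 1 = true :=
  ⟨(b (b (a (l 16708912) (l 16695168)) (a (b (a (l 16722456) (l 16715624)) (a (l 16729416) (l 16722552))) (a (l 16712144) (l 16704784)))) (b (a (a (b (l 16736656) (c (l 16745544) (l 16742408))) (b (l 16729680) (l 16736936))) (b (a (l 16722552) (l 16715216)) (a (l 16729760) (l 16722264)))) (a (a (b (c (a (l 16754504) (l 16751056)) (a (b (l 16749952) (l 16753848)) (l 16748272))) (b (c (a (c (l 16760552) (l 16759488)) (l 16756592)) (a (c (l 16763592) (a (l 16758056) (l 16756224))) (l 16754120))) (b (a (c (a (c (l 36138101255) (l 35601228423))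 (l 16761936)) (a (b (l 16761080) (a (c (l 52781094679) (l 54391705223)) (l 16761592))) (l 16759768))) (c (l 16759360) (l 16757048))) (a (a (c (l 63518515911) (b (a (l 3) (l 60297284807)) (l 3))) (c (c (l 40969940039) (l 40969937943)) (b (c (l 16761760) (l 30769383783)) (a (l 65665993991) (l 42580543767))))) (c (l 16761208) (c (l 16759576) (l 16763648))))))) (b (a (l 16746128) (l 16742536)) (c (a (l 16760200) (l 16751432)) (a (b (l 16750456) (l 16754368)) (l 16748728))))) (a (b (l 16737080) (a (l 16746464) (l 16742752))) (b (l 16729560) (l 16737064)))))), by decide +kernel⟩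

def k17_pp_012_a : ∃ t, chk3 f_pp_012_a t 24 5 1 = true :=
  ⟨(l 3), by decide +kernel⟩

def k18_pp_012_a : ∃ t, chk3 f_pp_012_a t 25 20 1 = true :=
  ⟨(a (a (b (b (a (a (l 3) (c (l 67813484903) (l 72645318855))) (b (a (a (a (l 61371023303) (b (l 43117413991) (l 3))) (b (l 16761992) (l 54928575031))) (c (l 16762184) (c (l 16760592) (l 28621898727)))) (a (l 3) (a (l 61371028311) (b (l 41506800855) (l 62981640327)))))) (l 3)) (l 3)) (b (b (b (a (c (l 16759592) (l 16757296)) (l 16754872)) (a (a (a (b (l 16761240) (l 46338639079)) (l 16760824)) (l 16759488)) (l 16756784))) (a (b (a (c (l 54928578791) (l 58686670887)) (c (l 38822451783) (a (l 44191155831) (l 33990606455)))) (a (l 3) (l 59760415047))) (b (c (l 16759792) (l 16757528)) (a (c (l 42580548343) (b (l 37748703319) (l 50633606471))) (c (l 16760768) (l 16758552)))))) (b (a (l 3) (b (a (l 3) (c (l 45264902727) (b (l 43117412423) (l 56002314231)))) (l 3))) (l 3)))) (a (b (b (a (l 16752184) (l 16748472)) (a (a (l 16756928)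 (l 16755104)) (l 16752312))) (a (a (b (b (c (l 31306255463) (l 33453734535)) (a (l 57076058375) (l 47949250823))) (l 3)) (a (b (b (l 16758432) (a (l 43117410951) (l 38822442791))) (l 3)) (b (c (l 27011286727) (l 29158765879)) (b (l 48486122279) (l 3))))) (a (b (c (l 16758224) (l 16755912)) (b (b (l 32379991431) (l 41506798583)) (l 3))) (b (l 16755240) (b (l 16758144) (c (l 35064352503) (l 38285573415))))))) (a (b (l 16746616) (b (l 16752416) (a (b (l 16756280) (l 23790058135)) (l 16760632)))) (b (l 16742800) (b (l 16748608) (c (l 16753744) (l 16751272))))))), by decide +kernel⟩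

def k19_pp_012_a : ∃ t, chk3 f_pp_012_a t 25 21 1 = true :=
  ⟨(a (l 3) (b (a (l 3) (b (a (b (a (c (l 36138094199) (l 38285574743)) (c (l 16762064) (l 16762448))) (a (l 3) (l 37211836263))) (a (b (l 16756488) (a (l 26474418455) (l 16758000))) (a (l 16756064) (l 16755112)))) (a (l 3) (b (a (l 43117411319) (c (l 24863806471) (l 26474415111))) (l 3))))) (l 3))), by decide +kernel⟩

def k20_pp_012_a : ∃ t, chk3 f_pp_012_a t 25 11 1 = true :=
  ⟨(l 3), by decide +kernel⟩

def k21_pp_012_a : ∃ t, chk3 f_pp_012_a t 13 4 1 = true :=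
  ⟨(a (b (a (l 16708240) (l 16693624)) (b (a (b (l 16703872) (a (l 16714720) (l 16707088))) (l 16692112)) (a (b (a (l 16721936) (l 16714208)) (l 16746480)) (a (b (l 16706512) (l 16713784)) (l 16723336))))) (b (a (l 16678976) (l 16643448)) (a (b (l 16676792) (l 16690560)) (b (l 16661528) (l 16674912))))), by decide +kernel⟩

def k22_pp_012_a : ∃ t, chk3 f_pp_012_a t 26 10 1 = true :=
  ⟨(b (a (b (a (l 16737008) (l 16729192)) (a (a (a (l 16758176) (l 16745752)) (l 16753312)) (b (l 16734968) (l 16738896)))) (a (b (l 16721320) (l 16729008)) (b (l 16713392) (l 16721024)))) (a (b (a (b (a (c (l 16753904) (l 16751456)) (l 16748824)) (a (a (b (l 16756688) (a (l 29158773031) (l 23790062439))) (b (l 16754768) (l 17347610167))) (c (l 16764536) (l 16751648)))) (c (a (l 16758712) (l 16744336)) (a (l 16756072) (l 16741560)))) (a (b (a (b (a (l 3) (l 27011285543)) (l 3)) (b (a (c (l 16763208) (l 16755736)) (l 16754960)) (a (l 35064345367) (c (l 19495094199) (l 16761080))))) (a (l 3)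 (b (a (l 3) (l 57612923111)) (l 3)))) (b (c (a (c (l 16754744) (l 16753624)) (l 16750312)) (a (l 16757080) (l 16747816))) (b (a (a (a (l 20568835655) (l 17884479223)) (l 16760384)) (c (l 16753328) (l 16750976))) (a (a (l 3) (c (l 21642574231) (l 25400668551))) (a (a (l 16760968) (l 16754744)) (l 16753264))))))) (b (a (c (l 16748928) (l 16745968)) (l 16749920)) (b (a (a (l 16745104) (l 16741088)) (l 16745512)) (a (a (a (l 16755472) (l 16748232)) (l 16750456)) (c (l 16750960) (l 16748248))))))), by decide +kernel⟩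

def k23_pp_012_a : ∃ t, chk3 f_pp_012_a t 26 11 1 = true :=
  ⟨(b (a (b (a (l 3) (b (a (l 3) (b (a (b (l 17347608775) (l 3)) (c (l 16760320) (l 16759440))) (a (l 3) (b (l 20031962359) (l 3))))) (l 3))) (l 3)) (a (a (b (b (a (b (l 16753344) (a (l 15200122615) (l 10368281799))) (c (l 16753496) (l 16751232))) (b (a (l 56002309671) (c (l 15200119943) (l 15200117639))) (l 3))) (l 3)) (a (b (b (c (l 16751520) (l 16749192)) (c (b (l 16754584) (b (l 16757424) (l 22716315879))) (b (l 16752408) (b (l 16756624) (l 19495086551))))) (l 3)) (b (b (l 16753608) (b (l 16751512) (c (l 10905148919) (c (l 16753088) (l 16751952))))) (b (b (b (c (l 16757544) (l 16756760)) (l 3)) (l 3)) (l 3))))) (b (b (a (a (l 16746344) (l 16744312)) (l 16741264)) (b (a (a (l 16749488) (l 16747456)) (l 16744400)) (a (a (a (l 16752120) (l 16751104)) (l 16749584)) (a (l 16747544) (l 16745504))))) (b (a (a (b (b (l 16753232) (a (l 16754800) (l 16753800))) (b (c (l 7683928775) (l 16756904)) (l 3))) (b (c (l 16752792)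 (l 16750624)) (c (c (l 10368280423) (l 7147052999)) (c (l 6610179991) (l 6073306871))))) (a (b (l 16749704) (c (l 16752912) (l 16750776))) (c (l 16749832) (l 16750224)))) (b (a (a (l 3) (c (l 49022984695) (l 59760398855))) (a (a (c (l 7683923847) (l 6610177687)) (c (l 10368276423) (l 9831401223))) (c (l 16755648) (c (l 16751480) (l 16750368))))) (a (l 3) (a (l 3) (a (b (l 8220788551) (l 3)) (b (a (l 16753392) (l 16752880)) (l 6073305047)))))))))) (l 3)), by decide +kernel⟩

def k24_pp_012_a : ∃ t, chk3 f_pp_012_a t 27 10 1 = true :=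
  ⟨(a (b (a (b (l 16705472) (l 16713024)) (l 16722256)) (a (b (l 16720880) (a (l 16730992) (l 16726920))) (b (l 16712808) (l 16720816)))) (b (l 16710304) (a (b (l 16704752) (l 16712696)) (l 16721648)))), by decide +kernel⟩

def k25_pp_012_a : ∃ t, chk3 f_pp_012_a t 27 22 1 = true :=
  ⟨(a (a (a (b (b (l 16737176) (a (l 16742392) (l 16740344))) (a (c (b (l 16747808) (b (l 16751008) (a (l 16753656) (l 16752640)))) (b (l 16745528) (b (l 16748856) (a (l 9294528503) (l 16750576))))) (b (l 16747264) (b (l 16747904) (c (l 16751120) (l 16749016)))))) (a (b (l 16736200) (b (l 16742584) (b (l 16745848) (l 16748040)))) (b (l 16734152) (b (l 16740528) (a (l 16745400) (l 16744368)))))) (a (b (l 16731072) (b (l 16737440) (a (l 16742816) (l 16740752)))) (b (l 16726976) (b (l 16733320) (l 16737648))))) (a (b (l 16741808) (a (l 16736608) (l 16727248))) (b (l 16712704) (l 16742072)))), by decide +kernel⟩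

def k26_pp_012_a : ∃ t, chk3 f_pp_012_a t 108 23 1 = true :=
  ⟨(b (b (b (c (a (a (b (l 5536436023) (l 17347603767)) (a (l 9294530471) (l 16752768))) (a (l 16751240) (l 16749200))) (a (a (b (c (l 16753272) (l 16752208)) (l 15736987415)) (a (c (l 16752296) (l 16751232)) (l 16750736))) (a (l 16749176) (l 16747096)))) (b (a (a (l 3) (c (l 1778341207) (c (l 16753424) (l 16752384)))) (a (c (l 16752864) (l 16751848)) (a (l 16750344) (l 16749312)))) (a (l 3) (a (c (c (l 16754392) (l 16753472)) (c (l 16755112) (l 16751456))) (c (l 16751912) (l 16749912)))))) (a (l 3) (b (b (a (c (l 15736981735) (l 16753736)) (a (a (l 6610173175) (l 16752304)) (l 16751528))) (a (l 3) (c (c (l 16754520) (l 16753616)) (c (l 16752656) (l 16751640))))) (a (l 3) (b (c (l 43117395751) (l 10905142807)) (l 3)))))) (l 3)), by decide +kernel⟩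

def k27_pp_012_a : ∃ t, chk3 f_pp_012_a t 109 23 1 = true :=
  ⟨(b (a (a (b (b (l 16746104) (a (l 16748832) (l 16747800))) (a (b (c (l 16752008) (l 16750048)) (b (a (l 16752976) (l 5536432279)) (l 3))) (b (c (l 16750984) (l 16749000)) (c (a (l 3388951687) (l 7683917975)) (a (l 16752840) (l 16753632)))))) (c (b (l 16746184) (b (l 16749448) (a (l 11978884215) (l 16751120)))) (b (l 16744048) (b (l 16747432) (a (l 16752856) (l 16749184)))))) (a (b (l 16745696) (b (l 16746392) (a (l 16751760) (l 16748104)))) (b (l 16741000) (b (l 16744320) (l 16746552))))) (b (a (b (a (l 3) (b (c (c (l 16756328) (l 16752832)) (c (l 16751896) (l 16750912))) (c (c (l 16754792) (l 16753928)) (l 16752528)))) (l 3)) (c (b (a (a (l 7683917783) (l 16751264)) (l 16749720)) (a (b (c (l 16753848) (l 16752992)) (l 44191146791)) (c (c (l 4999566631) (l 16754760)) (l 3388952407)))) (a (a (b (l 16753048) (l 7147050519)) (b (l 16749384) (l 16751664))) (b (l 16747816) (a (l 16753248) (l 16749584)))))) (a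 (l 3) (b (a (l 3) (b (c (l 16753584) (l 16751816)) (l 3))) (l 3))))), by decide +kernel⟩

def k28_pp_012_a : ∃ t, chk3 f_pp_012_a t 55 23 1 = true :=
  ⟨(a (b (a (b (l 16737896) (a (l 16748600) (l 16741288))) (b (l 16733760) (l 16748664))) (b (a (a (b (l 16746712) (a (l 16752104) (l 16748448))) (c (l 16746696) (l 16744784))) (c (l 16748840) (l 16752144))) (b (a (a (a (c (l 16753912) (l 16750840)) (b (l 16750144) (l 16753904))) (c (l 16750024) (l 16748232))) (c (l 16752160) (l 16745104))) (a (a (b (c (l 16753752) (l 16752040)) (l 3)) (c (c (l 16752648) (l 16751840)) (l 16750544))) (a (a (l 16755112) (l 16748824)) (l 16747264)))))) (b (a (l 16742320) (l 16727720)) (a (b (l 16748976) (a (l 16749288) (l 16741968))) (b (l 16734352) (l 16749344))))), by decide +kernel⟩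

def k29_pp_012_a : ∃ t, chk3 f_pp_012_a t 6 3 1 = true :=
  ⟨(a (l 3) (b (a (l 3) (b (a (l 3) (b (b (b (a (a (a (l 3) (b (c (l 50633592455) (l 55465427383)) (l 3))) (b (a (c (c (l 16755448) (l 16752048)) (l 16750792)) (c (l 15200110903) (l 16748712))) (a (l 3) (c (c (l 16753032) (l 16752280)) (l 16751064))))) (a (a (b (l 16752728) (c (a (l 16753728) (l 16750072)) (l 16748984))) (c (c (l 16747768) (l 16746976)) (l 16745720))) (c (c (l 16755152) (l 16743856)) (l 16753088)))) (a (l 3) (b (a (c (a (a (l 16753400) (l 16752368)) (c (l 9831402423) (l 16750448))) (a (l 16751352) (l 16749272))) (a (a (l 16753744) (l 16747464)) (l 16745904))) (a (a (l 3) (c (c (c (l 16753640) (l 16753304)) (l 16752776)) (l 6610176007))) (a (c (c (c (l 6610177255) (l 16751240)) (l 16750704)) (l 16749576)) (c (l 16754232) (l 16747496))))))) (a (l 3) (b (a (l 3) (b (c (a (c (c (l 16753880) (l 16753552)) (l 16753040)) (c (c (l 2852081335) (l 16751488)) (l 16750968))) (a (l 62444751399) (l 16749888)))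 (a (l 3) (b (c (l 16753064) (l 16751696)) (l 3))))) (l 3)))) (l 3))) (l 3))) (l 3))), by decide +kernel⟩

def k30_pp_012_a : ∃ t, chk3 f_pp_012_a t 7 2 1 = true :=
  ⟨(a (b (a (b (b (l 16658736) (l 16681104)) (a (b (l 16646480) (l 16659464)) (b (l 16631808) (l 16644384)))) (b (a (l 16643720) (l 16589064)) (a (b (l 16617736) (l 16629912)) (a (l 16655616) (l 16649096))))) (a (b (b (a (l 16673512) (l 16658104)) (a (b (l 16684760) (l 16713592)) (a (l 16676864) (l 16669136)))) (a (b (a (b (l 16704640) (l 16712960)) (l 16727016)) (a (b (l 16732064) (a (l 16742968) (l 16728376))) (b (l 16713480) (l 16743240)))) (b (a (l 16713856) (l 16706040)) (a (l 16737416) (l 16733528))))) (b (b (a (a (l 16646912) (l 16639680)) (b (l 16646768) (l 16632584))) (a (a (l 16661576) (l 16654192)) (a (l 16667968) (l 16640000)))) (a (b (a (l 16698376) (l 16669888)) (b (l 16686200) (l 16704080))) (b (b (l 16654904) (l 16662960)) (b (l 16671336) (l 16679984))))))) (b (a (b (l 16592504) (a (b (l 16592008)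 (l 16603392)) (l 16622824))) (b (l 16583656) (a (l 16596672) (l 16565328)))) (a (b (a (b (l 16636976) (l 16645656)) (b (l 16604176) (l 16638760))) (b (a (a (l 16648480) (l 16641936)) (a (l 16635696) (l 16629456))) (b (a (l 16657408) (l 16644336)) (a (l 16666000) (l 16652544))))) (b (a (b (l 16593240) (l 16606048)) (b (l 16581800) (a (l 16597224) (l 16591392)))) (a (b (l 16627992) (a (l 16638616) (b (l 16628152) (l 16635952)))) (b (a (l 16610832) (l 16604656)) (a (l 16625600) (l 16619144)))))))), by decide +kernel⟩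

def k31_pp_012_a : ∃ t, chk3 f_pp_012_a t 56 12 1 = true :=
  ⟨(b (b (a (a (b (l 16749792) (a (b (l 16743832) (l 16751424)) (l 16753416))) (b (l 16735184) (l 16750320))) (a (c (l 16744656) (l 16732640)) (l 16750304))) (a (a (b (c (c (b (a (l 16749584) (l 16747520)) (a (c (l 16753376) (l 16751752)) (l 16752464))) (a (b (l 16748896) (l 16751256)) (l 16753248))) (a (l 16754256) (l 16746944))) (b (a (l 3) (c (c (c (l 16752336) (l 16752024)) (l 16751552)) (l 16750568))) (l 3))) (a (c (b (l 16751520) (c (b (l 14126367415) (c (l 16752616) (l 16752320))) (l 16753296))) (b (l 16744872) (l 16752336))) (b (l 16748760) (c (c (b (l 16748048) (l 9831400695)) (l 16753848)) (l 16747640))))) (a (c (b (l 16741112) (c (a (l 16752408) (l 16745096)) (l 16755992))) (b (l 16739728) (l 16755032))) (c (b (l 16737000) (l 16741704)) (l 16748544))))) (b (a (b (a (l 3) (b (a (l 3) (c (c (l 16751456) (l 16752200)) (l 16751312))) (l 3))) (l 3)) (b (a (c (c (b (a (l 16753328) (l 16748640)) (a (l 16753088)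 (l 16751024))) (b (l 16754336) (l 16751512))) (b (l 16748200) (a (l 58149784231) (l 16749624)))) (a (c (l 16752736) (l 16746344)) (l 16750112))) (a (b (a (l 3) (c (l 16753168) (l 59223527047))) (l 3)) (a (b (c (l 16751104) (l 16750040)) (c (l 54391691511) (l 102710067015))) (c (c (l 16753128) (l 16750000)) (l 16754472)))))) (l 3))), by decide +kernel⟩

def k32_pp_012_a : ∃ t, chk3 f_pp_012_a t 57 12 1 = true :=
  ⟨(b (a (b (l 16744248) (a (c (l 16745744) (l 16734016)) (l 16751568))) (b (l 16736328) (l 16745592))) (a (b (a (b (l 16747040) (a (a (l 16753440) (l 16747176)) (l 16750888))) (b (l 16737744) (l 16753080))) (a (b (b (c (c (l 16753680) (l 16750592)) (l 38285561111)) (a (l 3) (l 8220790135))) (l 3)) (b (a (c (l 16754224) (l 16748088)) (l 16751744)) (a (b (c (l 16752688) (l 16751880)) (l 3)) (c (b (l 16755880) (l 16753128)) (l 19495081991)))))) (a (c (b (l 16747112) (b (l 16754376) (a (b (l 16748600) (l 11978887175)) (l 16753048)))) (b (l 16735704) (b (l 16743072)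 (l 16758576)))) (b (l 16742656) (c (b (l 16739848) (l 16755256)) (l 16752112)))))), by decide +kernel⟩

def k33_pp_012_a : ∃ t, chk3 f_pp_012_a t 28 13 1 = true :=
  ⟨(a (l 3) (b (a (l 3) (b (a (b (b (c (c (a (l 16753768) (l 16754344)) (l 16755024)) (a (l 16752936) (l 16750896))) (a (l 3) (c (l 16754080) (l 16753496)))) (l 3)) (b (c (c (a (b (l 16749688) (l 16754816)) (l 16754160)) (b (l 16748352) (l 16756120))) (l 16754424)) (b (c (c (a (l 16754720) (l 16754648)) (l 16754088)) (c (l 16755800) (l 15736991223))) (l 3)))) (l 3))) (l 3))), by decide +kernel⟩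

def k34_pp_012_a : ∃ t, chk3 f_pp_012_a t 29 12 1 = true :=
  ⟨(a (b (a (l 16738440) (l 16725600)) (b (a (l 16747256) (l 16718592)) (a (a (l 16751096) (l 16744560)) (l 16738768)))) (b (b (a (l 16692600) (l 16685304)) (c (l 16708560) (l 16708720))) (a (c (l 16736928) (l 16736936)) (l 16724440)))), by decide +kernel⟩

def k35_pp_012_a : ∃ t, chk3 f_pp_012_a t 58 13 1 = true :=
  ⟨(b (b (c (b (a (a (l 16753608) (l 16741760)) (l 16735856)) (a (a (a (b (l 16755768) (a (l 16753584) (l 16753880))) (c (l 2852082951) (l 16754920))) (l 16754672)) (l 16751376))) (a (a (b (l 16745240) (l 16752984)) (l 16754392)) (l 16748640))) (a (a (a (l 3) (b (b (c (a (l 16754136) (l 16754112)) (l 16753264)) (l 3)) (l 3))) (b (c (b (c (c (l 16755376) (l 16755928)) (l 16750536)) (c (a (a (l 16754808) (l 16753808)) (l 16755584)) (l 16755744))) (l 16756856)) (b (a (l 3) (c (a (l 16755320) (l 16754968)) (l 16754568))) (l 3)))) (a (a (b (l 16755016) (c (c (b (l 16753552) (l 16755504)) (l 16756680))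 (l 16759160))) (b (l 16752080) (b (l 16755952) (c (l 16755408) (l 16753248))))) (b (l 16749176) (a (l 16754648) (l 16753368)))))) (b (a (l 3) (b (b (c (a (c (a (l 3) (l 16756136)) (l 16759664)) (a (l 16755392) (l 16752112))) (a (l 99488850279) (l 16752928))) (a (l 3) (a (b (l 16756000) (l 3)) (c (l 16756704) (l 16754576))))) (a (l 3) (a (l 3) (a (l 3) (b (l 16758168) (l 3))))))) (l 3))), by decide +kernel⟩

def k36_pp_012_a : ∃ t, chk3 f_pp_012_a t 59 13 1 = true :=
  ⟨(b (a (b (l 16741128) (c (c (l 16751312) (l 16751288)) (l 16751168))) (b (l 16733680) (l 16744992))) (b (b (a (a (b (l 16754376) (l 16756984)) (l 16751832)) (l 16748704)) (b (a (a (a (b (l 16757304) (a (l 16756520) (l 16756824))) (l 16756664)) (l 16755728)) (l 16751256)) (a (a (a (l 3) (c (b (l 16756760) (a (l 3) (l 16757600))) (l 16755912))) (c (c (l 16757136) (l 16758392)) (l 16752968))) (c (l 16755256) (l 16747136))))) (a (b (a (l 3) (b (c (a (a (b (l 16757952) (l 3)) (b (l 16758264) (l 16757816))) (c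 (l 16757496) (l 16754808))) (l 16758224)) (a (l 3) (c (c (a (b (l 16757704) (l 3)) (b (l 16757688) (l 704605095))) (l 16758472)) (l 16757272))))) (l 3)) (c (b (a (b (l 16757184) (a (a (b (l 16755368) (a (l 15200118631) (l 16757760))) (l 16757680)) (l 16756224))) (l 16754632)) (b (a (b (a (c (c (a (l 16758432) (l 16758072)) (l 16758224)) (l 16757504)) (l 16757216)) (a (a (l 3) (b (l 16758392) (l 3))) (a (b (l 16757800) (a (l 16757984) (l 16758136))) (l 16757728)))) (c (l 16757288) (l 16758528))) (a (a (l 3) (a (b (b (l 16758664) (l 3)) (l 3)) (c (b (b (l 16758104) (l 2852089447)) (a (l 3) (l 16758896))) (l 16758720)))) (a (c (a (b (l 16758112) (a (a (l 16758840) (l 16758752)) (l 16758704))) (l 16758456)) (l 16758872)) (l 16757624))))) (a (b (l 16756944) (b (c (l 3925831863) (l 16756888)) (a (l 3) (l 16758672)))) (b (l 16749120) (c (l 10905152487) (l 16756928)))))))), by decide +kernel⟩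

def k37_pp_012_a : ∃ t, chk3 f_pp_012_a t 14 7 1 = true :=
  ⟨(a (l 3) (b (b (a (l 3) (b (a (l 3) (a (l 3) (b (b (a (a (l 3) (c (b (a (b (l 16758864) (l 3)) (b (l 16757872) (l 16759040))) (l 3)) (l 16758896))) (c (c (b (l 16758984) (a (c (b (l 16759176) (l 16759528)) (l 16758840)) (l 16759168))) (l 16759256)) (l 16757424))) (a (l 3) (a (l 3) (c (b (a (b (l 16759416) (l 3)) (b (l 16759240) (l 16759592))) (l 3)) (l 16759624))))) (l 3)))) (l 3))) (l 3)) (l 3))), by decide +kernel⟩

def k38_pp_012_a : ∃ t, chk3 f_pp_012_a t 15 6 1 = true :=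
  ⟨(a (b (a (b (a (b (l 16678312) (l 16687424)) (l 16675880)) (b (a (l 16696784) (l 16689472)) (a (l 16706152) (l 16698912)))) (b (b (l 16661016) (l 16669736)) (b (l 16678704) (a (l 16691528) (l 16684272))))) (a (b (a (b (l 16715784) (l 16736152)) (b (l 16708400) (l 16718168))) (a (a (b (l 16748176) (b (l 16750672) (c (l 16756016) (l 16755752)))) (b (l 16744368) (c (l 16752184) (l 16754496)))) (b (l 16738672) (c (l 16749064) (l 16748712))))) (b (a (b (l 16701056) (l 16710704)) (b (l 16693632) (l 16703288))) (a (b (l 16720632) (l 16741280)) (b (l 16713104) (l 16733672)))))) (b (b (a (a (l 16655072) (a (l 16655192) (l 16646552))) (a (b (l 16637336) (l 16645560)) (l 16634760))) (a (b (l 16664528) (l 16673480)) (b (a (l 16654056) (l 16647152)) (a (l 16662832) (l 16655808))))) (a (b (a (b (l 16686328) (l 16695832)) (l 16683816)) (a (b (l 16705640) (l 16715640)) (b (l 16698184) (l 16708144)))) (a (b (l 16676576) (b (l 16690816) (l 16700688))) (b (l 16669400) (l 16698920)))))),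 by decide +kernel⟩

def k39_pp_012_a : ∃ t, chk3 f_pp_012_a t 60 56 1 = true :=
  ⟨(a (a (a (b (b (c (l 16758328) (l 16755464)) (c (c (b (c (l 16759696) (l 16760336)) (a (c (b (l 16759888) (l 16759920)) (l 16759560)) (l 16759880))) (c (l 16759672) (l 16759624))) (l 16759464))) (b (a (l 3) (b (c (a (b (l 16759808) (l 3)) (b (l 16759960) (l 16759992))) (l 16759680)) (l 3))) (l 3))) (b (c (c (c (l 16758400) (l 16757728)) (l 16760296)) (l 16760096)) (c (b (c (b (c (l 16760096) (l 16761048)) (a (b (l 16760352) (l 3)) (a (l 16760192) (l 16759048)))) (c (l 16760392) (l 16761664))) (a (l 3) (a (l 3) (b (b (l 16760688) (l 3)) (l 3))))) (b (l 16761512) (l 16761608))))) (c (b (c (l 16757440) (l 16757384)) (c (b (c (l 16759144) (l 16758784)) (a (b (c (l 16760576) (l 16761776)) (c (a (l 16761040) (l 16760696)) (l 16761168))) (l 16760504))) (b (l 16761368) (c (b (l 16760776) (l 16761792)) (l 16761752))))) (b (l 16757176) (b (l 16761200) (b (l 16763232) (l 16761968)))))) (a (b (l 16753456)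 (a (b (l 16753168) (l 16758472)) (l 16757808))) (b (l 16744344) (l 16754896)))), by decide +kernel⟩

def k40_pp_012_a : ∃ t, chk3 f_pp_012_a t 60 57 1 = true :=
  ⟨(a (b (a (l 3) (c (b (c (a (a (l 3) (b (l 16761392) (l 3))) (a (b (l 16761048) (l 16761760)) (c (l 16761000) (l 16760064)))) (a (l 16762536) (l 16762168))) (a (l 3) (a (l 3) (c (l 16762168) (l 16762768))))) (b (a (l 16762368) (l 16760416)) (l 65665997255)))) (l 3)) (a (a (b (c (b (c (l 16759912) (l 16758544)) (b (c (l 4462707911) (l 16760552)) (a (l 16762456) (l 16762096)))) (b (l 16758464) (l 16761200))) (l 3)) (b (c (c (b (l 16756640) (l 16759816)) (l 16763168)) (l 16757880)) (b (c (c (b (c (l 8757676055) (l 16763944)) (l 16763344)) (l 16763256)) (l 16761912)) (l 3)))) (c (b (c (l 16758976) (l 16760232)) (b (a (b (l 16759320) (l 16763256)) (l 16763248)) (c (b (a (a (a (l 16762744) (l 16762240)) (l 16761496)) (l 16760016)) (a (a (l 3) (l 16763472)) (l 16763944))) (a (l 16764584) (l 16763224))))) (b (l 16754960)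 (b (l 16764160) (c (l 16764224) (l 16764176))))))), by decide +kernel⟩

def k41_pp_012_a : ∃ t, chk3 f_pp_012_a t 60 29 1 = true :=
  ⟨(b (a (l 3) (b (b (a (l 3) (a (l 3) (c (a (b (a (l 16763704) (a (l 16763648) (l 16763392))) (l 3)) (c (b (l 16764760) (a (l 16763728) (l 16763872))) (l 16764088))) (l 16764504)))) (l 3)) (l 3))) (l 3)), by decide +kernel⟩

def k42_pp_012_a : ∃ t, chk3 f_pp_012_a t 122 28 1 = true :=
  ⟨(b (b (l 16749056) (l 16753032)) (a (b (l 16756328) (a (b (l 16755984) (l 16762552)) (l 16760584))) (b (l 16747184) (l 16760256)))), by decide +kernel⟩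

def k43_pp_012_a : ∃ t, chk3 f_pp_012_a t 122 58 1 = true :=
  ⟨(b (b (a (a (c (c (c (b (l 16763296) (c (l 16764288) (l 16764600))) (l 16763920)) (l 16763896)) (l 16766496)) (l 16763224)) (l 16761576)) (c (a (c (a (a (b (a (l 16764064) (a (l 16764000) (l 16764080))) (l 3)) (a (b (l 16764032) (l 3)) (b (l 16763856) (b (l 16764200) (l 3))))) (a (c (b (l 16764440) (l 4462713271)) (l 16763768)) (l 16764096))) (a (b (l 16764592) (l 16765096)) (l 16764568))) (c (l 16762936) (l 16764224))) (a (a (c (l 16810745879) (l 16763752)) (l 16764504)) (l 16764208)))) (a (a (l 3) (b (a (a (l 3) (c (c (b (b (l 16764288) (l 3)) (l 3)) (l 16273875271)) (l 16764688))) (c (c (a (b (c (b (l 16764696) (l 16764376)) (l 16765016)) (l 3)) (b (l 16764520) (b (a (l 16764336) (l 16764408)) (l 3)))) (b (l 16764760) (l 16764752))) (l 26474421831))) (l 3))) (b (c (a (a (b (l 16763768) (c (a (b (l 16764360) (a (l 16764504) (l 16764624))) (l 16764688)) (l 16765080))) (c (l 16764104) (l 16764752))) (l 16763264))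 (a (l 15737003143) (l 16760576))) (a (b (c (c (a (a (l 3) (b (b (l 16764704) (l 16764720)) (l 3))) (a (b (l 16764696) (a (l 3) (a (l 16764984) (l 16764856)))) (c (l 16764864) (l 16765184)))) (a (l 25937551543) (l 16764752))) (l 20568842103)) (a (l 3) (a (l 3) (c (a (l 3) (b (b (a (l 16764960) (l 16765000)) (l 3)) (l 3))) (l 49023000167))))) (c (a (b (c (l 16764448) (l 16763120)) (c (c (b (c (l 16764960) (l 16764784)) (a (b (l 16765048) (l 3)) (a (l 16765088) (l 16765080)))) (b (l 16765440) (l 8220811895))) (l 15737004343))) (c (l 16764936) (l 16765416))) (c (l 19495100103) (l 16763760))))))), by decide +kernel⟩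

def k44_pp_012_a : ∃ t, chk3 f_pp_012_a t 122 59 1 = true :=
  ⟨(b (a (l 3) (b (a (l 3) (c (c (b (b (a (a (l 3) (a (l 3) (b (l 16765248) (l 3)))) (a (a (b (l 16765328) (l 16765336)) (l 16765248)) (l 16764872))) (a (l 3) (b (c (a (l 16765384) (l 16765376)) (l 16765280)) (a (l 3) (a (l 16765496) (l 16765248)))))) (a (l 3) (a (l 3) (b (b (l 14663263287) (l 3)) (l 3))))) (b (a (l 39896195703) (l 22179455607)) (l 41506809255))) (c (b (l 29158777319) (l 59223548455)) (l 39896195703)))) (l 3))) (l 3)), by decide +kernel⟩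

def k45_pp_012_a : ∃ t, chk3 f_pp_012_a t 246 14 1 = true :=
  ⟨(b (b (l 16735464) (b (l 16743296) (l 16758944))) (b (b (l 16760264) (b (l 16762592) (a (c (l 16764264) (l 16761216)) (l 16761968)))) (b (b (c (a (a (b (c (l 16765120) (l 16763776)) (b (c (a (a (b (l 16765336) (l 16765504)) (l 7683941335)) (l 16765208)) (l 16764752)) (c (a (c (l 21642585463) (l 16765376)) (b (l 11978908711) (a (l 16765504) (l 16765584)))) (l 35601228615)))) (c (c (l 16765280) (l 16764792)) (l 16766072))) (l 16764776)) (a (c (b (l 16763216) (l 32380002631)) (l 16764736)) (l 16761872))) (b (c (a (c (a (a (l 3) (b (l 28621907495) (l 3))) (a (b (c (b (l 16765552) (l 20031972839)) (l 16765536)) (l 33990616791)) (b (l 16765544) (b (l 18421360087) (l 27548165831))))) (a (l 54928581895) (c (l 26474423687) (l 37211841527)))) (c (c (l 16765624) (l 16765288)) (l 16766568))) (a (c (l 37211841783) (l 87677702663)) (l 16763824))) (a (l 3) (a (c (c (a (b (a (l 30232520567) (l 21105714983)) (l 3)) (b (l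 16765872) (a (l 35064358983) (l 20568844391)))) (b (l 16765584) (l 47412389511))) (l 53317968583)) (c (c (c (l 16766128) (l 16766112)) (l 16764768)) (l 16764648)))))) (a (l 3) (b (b (c (a (l 3) (b (c (a (a (l 38285584711) (l 24326940951)) (l 16766208)) (l 16765752)) (a (l 3) (a (l 43117423127) (l 30769392183))))) (l 40969939287)) (l 3)) (l 3)))))), by decide +kernel⟩

def k46_pp_012_a : ∃ t, chk3 f_pp_012_a t 247 14 1 = true :=
  ⟨(b (b (l 16731640) (l 16749848)) (b (b (l 16755000) (l 16761592)) (b (a (b (l 16762624) (c (l 16765288) (l 16762536))) (c (l 16761968) (l 16759304))) (a (a (b (a (c (b (c (l 16766048) (l 16765344)) (a (l 39896198359) (b (l 32380005175) (l 3)))) (l 32380004855)) (c (b (l 16766192) (b (l 16766280) (l 39359327415))) (l 34527488039))) (l 3)) (c (b (b (l 16766768) (c (l 10368297911) (l 16765440))) (b (a (b (l 40969940407) (l 3)) (b (l 16766536) (l 41506811607))) (l 3))) (b (l 16767944) (l 40433070055)))) (c (b (l 16765952) (a (b (c (l 16766800) (l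 16765776)) (b (a (l 43117424599) (l 16766872)) (l 41506812359))) (c (c (l 3925848071) (l 16766800)) (l 16766768)))) (b (l 16763216) (b (l 16767800) (b (l 16766488) (l 44191166167))))))))), by decide +kernel⟩

def k47_pp_012_a : ∃ t, chk3 f_pp_012_a t 30 15 1 = true :=
  ⟨(b (a (l 3) (b (a (l 3) (b (a (l 3) (b (b (a (l 3) (a (l 3) (b (a (l 44728037927) (l 33990619591)) (l 43117425639)))) (l 3)) (l 3))) (l 3))) (l 3))) (l 3)), by decide +kernel⟩

def k48_pp_012_a : ∃ t, chk3 f_pp_012_a t 31 14 1 = true :=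
  ⟨(a (b (a (b (l 16736416) (a (l 16748568) (l 16734184))) (b (l 16718360) (c (l 16738880) (l 16733552)))) (b (a (b (l 16749168) (a (l 16756312) (l 16747096))) (a (l 16745784) (l 16736576))) (a (b (a (l 16761608) (l 16757616)) (a (a (b (l 16763960) (c (l 16766632) (l 16763896))) (l 16764640)) (c (l 16762928) (l 16762960)))) (a (b (l 16748376) (l 16756280)) (b (l 16744360) (l 16749616)))))) (b (a (b (l 16710848) (b (l 16718048) (l 16722944))) (b (l 16713768) (b (l 16710344) (l 16715072)))) (a (b (a (l 16732600) (l 16728608)) (a (b (l 16740328) (l 16745544)) (b (l 16736280) (l 16741456)))) (b (a (l 16724608) (l 16720616)) (a (l 16738736) (b (l 16728152) (l 6))))))), by decide +kernel⟩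

def k49_pp_012_a : ∃ t, chk3 f_pp_012_a t 31 15 1 = true :=
  ⟨(a (a (b (a (b (b (a (a (b (c (b (a (l 16767384) (l 16766232)) (b (l 35601233191) (l 46875522519))) (a (l 28621911031) (l 16767256))) (l 3)) (c (b (b (l 16765496) (l 11978913239)) (a (l 38285588919) (b (l 18421365031) (l 3)))) (b (l 16766696) (l 39896201815)))) (c (b (l 16767312) (a (b (l 16768144) (a (l 46875523703) (l 15737011159))) (a (l 16768480) (l 16769224)))) (b (l 16764592) (b (l 16769184) (l 33453750999))))) (b (b (a (l 3) (a (l 3) (a (l 43117428135) (l 15737011911)))) (l 3)) (l 3))) (l 3)) (b (a (a (b (c (l 16767816) (l 16767080)) (b (c (b (l 16769168) (l 28085043831)) (l 10368303511)) (l 3))) (b (l 16766816) (b (c (l 16769176) (l 16770080)) (c (b (l 28621915271) (l 3)) (l 43654300839))))) (b (l 16765960) (b (l 16768672) (a (b (l 10368304407) (l 37211850311)) (b (l 16767560) (l 21105722983)))))) (b (a (l 3) (a (l 3) (b (b (l 41506817975) (l 3)) (l 3)))) (l 3)))) (l 3)) (b (b (a (b (c (l 16761616)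 (l 16761600)) (a (b (l 16764008) (l 16769328)) (a (l 16766440) (l 16765416)))) (a (b (l 16755920) (a (l 16764384) (l 16763352))) (b (l 16753872) (l 16761808)))) (b (a (b (b (a (a (a (l 29695657815) (l 16768952)) (l 16768224)) (l 16766696)) (a (a (l 46338656583) (a (l 33990625527) (l 16769936))) (l 6))) (a (a (l 3) (l 6)) (l 6))) (l 6)) (l 6))) (l 6))) (b (a (b (b (a (l 16750792) (l 16746664)) (l 6)) (l 6)) (l 6)) (l 6))), by decide +kernel⟩

theorem s50_pp_012_a : ∃ t, chk3 f_pp_012_a t 31 7 1 = true := ex3_b k48_pp_012_a k49_pp_012_a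

theorem s51_pp_012_a : ∃ t, chk3 f_pp_012_a t 123 14 1 = true := ex3_a k45_pp_012_a k46_pp_012_a

theorem s52_pp_012_a : ∃ t, chk3 f_pp_012_a t 122 29 1 = true := ex3_b k43_pp_012_a k44_pp_012_a

theorem s53_pp_012_a : ∃ t, chk3 f_pp_012_a t 122 14 1 = true := ex3_b k42_pp_012_a s52_pp_012_a

theorem s54_pp_012_a : ∃ t, chk3 f_pp_012_a t 61 14 1 = true := ex3_a s53_pp_012_a s51_pp_012_a

theorem s55_pp_012_a : ∃ t, chk3 f_pp_012_a t 60 28 1 = true := ex3_b k39_pp_012_a k40_pp_012_a

theorem s56_pp_012_a : ∃ t, chk3 f_pp_012_a t 60 14 1 = true := ex3_b s55_pp_012_a k41_pp_012_a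

theorem s57_pp_012_a : ∃ t, chk3 f_pp_012_a t 30 14 1 = true := ex3_a s56_pp_012_a s54_pp_012_a

theorem s58_pp_012_a : ∃ t, chk3 f_pp_012_a t 30 7 1 = true := ex3_b s57_pp_012_a k47_pp_012_a

theorem s59_pp_012_a : ∃ t, chk3 f_pp_012_a t 15 7 1 = true := ex3_a s58_pp_012_a s50_pp_012_a

theorem s60_pp_012_a : ∃ t, chk3 f_pp_012_a t 15 3 1 = true := ex3_b k38_pp_012_a s59_pp_012_a

theorem s61_pp_012_a : ∃ t, chk3 f_pp_012_a t 29 13 1 = true := ex3_a k35_pp_012_a k36_pp_012_a

theorem s62_pp_012_a : ∃ t, chk3 f_pp_012_a t 29 6 1 = true := ex3_b k34_pp_012_a s61_pp_012_a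

theorem s63_pp_012_a : ∃ t, chk3 f_pp_012_a t 28 12 1 = true := ex3_a k31_pp_012_a k32_pp_012_a

theorem s64_pp_012_a : ∃ t, chk3 f_pp_012_a t 28 6 1 = true := ex3_b s63_pp_012_a k33_pp_012_a

theorem s65_pp_012_a : ∃ t, chk3 f_pp_012_a t 14 6 1 = true := ex3_a s64_pp_012_a s62_pp_012_a

theorem s66_pp_012_a : ∃ t, chk3 f_pp_012_a t 14 3 1 = true := ex3_b s65_pp_012_a k37_pp_012_a

theorem s67_pp_012_a : ∃ t, chk3 f_pp_012_a t 7 3 1 = true := ex3_a s66_pp_012_a s60_pp_012_a

theorem s68_pp_012_a : ∃ t, chk3 f_pp_012_a t 7 1 1 = true := ex3_b k30_pp_012_a s67_pp_012_a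

theorem s69_pp_012_a : ∃ t, chk3 f_pp_012_a t 54 23 1 = true := ex3_a k26_pp_012_a k27_pp_012_a

theorem s70_pp_012_a : ∃ t, chk3 f_pp_012_a t 27 23 1 = true := ex3_a s69_pp_012_a k28_pp_012_a

theorem s71_pp_012_a : ∃ t, chk3 f_pp_012_a t 27 11 1 = true := ex3_b k25_pp_012_a s70_pp_012_a

theorem s72_pp_012_a : ∃ t, chk3 f_pp_012_a t 27 5 1 = true := ex3_b k24_pp_012_a s71_pp_012_a

theorem s73_pp_012_a : ∃ t, chk3 f_pp_012_a t 26 5 1 = true := ex3_b k22_pp_012_a k23_pp_012_a

theorem s74_pp_012_a : ∃ t, chk3 f_pp_012_a t 13 5 1 = true := ex3_a s73_pp_012_a s72_pp_012_a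

theorem s75_pp_012_a : ∃ t, chk3 f_pp_012_a t 13 2 1 = true := ex3_b k21_pp_012_a s74_pp_012_a

theorem s76_pp_012_a : ∃ t, chk3 f_pp_012_a t 25 10 1 = true := ex3_b k18_pp_012_a k19_pp_012_a

theorem s77_pp_012_a : ∃ t, chk3 f_pp_012_a t 25 5 1 = true := ex3_b s76_pp_012_a k20_pp_012_a

theorem s78_pp_012_a : ∃ t, chk3 f_pp_012_a t 12 5 1 = true := ex3_a k17_pp_012_a s77_pp_012_a

theorem s79_pp_012_a : ∃ t, chk3 f_pp_012_a t 49 19 1 = true := ex3_a k14_pp_012_a k15_pp_012_a

theorem s80_pp_012_a : ∃ t, chk3 f_pp_012_a t 24 19 1 = true := ex3_a k13_pp_012_a s79_pp_012_a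

theorem s81_pp_012_a : ∃ t, chk3 f_pp_012_a t 24 9 1 = true := ex3_b k12_pp_012_a s80_pp_012_a

theorem s82_pp_012_a : ∃ t, chk3 f_pp_012_a t 24 4 1 = true := ex3_b k11_pp_012_a s81_pp_012_a

theorem s83_pp_012_a : ∃ t, chk3 f_pp_012_a t 12 4 1 = true := ex3_a s82_pp_012_a k16_pp_012_a

theorem s84_pp_012_a : ∃ t, chk3 f_pp_012_a t 12 2 1 = true := ex3_b s83_pp_012_a s78_pp_012_a

theorem s85_pp_012_a : ∃ t, chk3 f_pp_012_a t 6 2 1 = true := ex3_a s84_pp_012_a s75_pp_012_a

theorem s86_pp_012_a : ∃ t, chk3 f_pp_012_a t 6 1 1 = true := ex3_b s85_pp_012_a k29_pp_012_a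

theorem s87_pp_012_a : ∃ t, chk3 f_pp_012_a t 3 1 1 = true := ex3_a s86_pp_012_a s68_pp_012_a

theorem s88_pp_012_a : ∃ t, chk3 f_pp_012_a t 23 8 1 = true := ex3_a k6_pp_012_a k7_pp_012_a

theorem s89_pp_012_a : ∃ t, chk3 f_pp_012_a t 23 4 1 = true := ex3_b s88_pp_012_a k8_pp_012_a

theorem s90_pp_012_a : ∃ t, chk3 f_pp_012_a t 22 16 1 = true := ex3_a k2_pp_012_a k3_pp_012_a

theorem s91_pp_012_a : ∃ t, chk3 f_pp_012_a t 22 8 1 = true := ex3_b s90_pp_012_a k4_pp_012_a

theorem s92_pp_012_a : ∃ t, chk3 f_pp_012_a t 22 4 1 = true := ex3_b s91_pp_012_a k5_pp_012_a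

theorem s93_pp_012_a : ∃ t, chk3 f_pp_012_a t 11 4 1 = true := ex3_a s92_pp_012_a s89_pp_012_a

theorem s94_pp_012_a : ∃ t, chk3 f_pp_012_a t 11 2 1 = true := ex3_b s93_pp_012_a k9_pp_012_a

theorem s95_pp_012_a : ∃ t, chk3 f_pp_012_a t 5 2 1 = true := ex3_a k1_pp_012_a s94_pp_012_a

theorem s96_pp_012_a : ∃ t, chk3 f_pp_012_a t 5 1 1 = true := ex3_b s95_pp_012_a k10_pp_012_a

theorem s97_pp_012_a : ∃ t, chk3 f_pp_012_a t 2 1 1 = true := ex3_a k0_pp_012_a s96_pp_012_a

theorem s98_pp_012_a : ∃ t, chk3 f_pp_012_a t 1 1 1 = true := ex3_a s97_pp_012_a s87_pp_012_a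

theorem c_pp_012_a : CertB 0 536870912 0 536870912 587336777 62277027 3 eng mog cd0q0 cd2q2a pd1 false true true .pnp 0 1 2
    ndB0q0 ndB2q2a pcB1 cut_pp_012_a Ext.none :=
  certB2 (fam := false) (s1 := true) (s2 := true) (a := 0) (b := 1) (c := 2) (cn := .pnp) (n1 := ndB0q0) (n2 := ndB2q2a) (pc := pcB1) (cut := cut_pp_012_a) (xt := Ext.none) (P1 := 0) (W1 := 536870912) (P2 := 0) (W2 := 536870912) (P3 := 587336777) (W3 := 62277027) (N0 := 3) (En := eng) (mo := mog) (C1 := cd0q0) (C2 := cd2q2a) (C3 := pd1)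
    rfl (fun _ => rfl) s98_pp_012_a

noncomputable def cut_pp_012_b : Cut := Cut.of [[⟨0, 0, 0, 53687091⟩, ⟨1, 1, 0, 53687091⟩, ⟨2, 1, 0, 53687091⟩]]

noncomputable def f_pp_012_b : ℕ → ℕ → ℕ → ℕ → Bool := onCell 536870912 536870912 1239849684 370763052 587336777 62277027
    (rowB 3 eng mog cd0q0 cd2q2b pd1 2 false true true .pnp 0 1 2 (qsf 0 536870912 1239849684 370763052 1) ndB0q0 ndB2q2b pcB1 cut_pp_012_b Ext.none)

def k0_pp_012_b : ∃ t, chk3 f_pp_012_b t 2 1 1 = true :=
  ⟨(b (a (l 2) (a (l 3) (b (a (a (b (b (a (l 3) (a (b (b (b (b (a (l 3) (a (l 3) (a (l 3) (a (a (l 3) (b (c (l 112910648775) (l 113984391463)) (l 3))) (b (c (l 16769680) (l 16769824)) (l 116131874423)))))) (l 3)) (l 3)) (l 3)) (l 3)) (a (b (b (a (b (b (a (b (l 16769528) (l 16769328)) (l 16769104)) (a (a (l 121500582599) (l 16768936)) (l 16768688))) (b (l 111300035655) (l 3))) (b (l 16768408) (l 16770192))) (c (l 129016770423) (l 126869290215))) (l 3)) (b (b (c (l 16767104) (l 16766872)) (c (l 16765664)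 (l 16764936))) (c (l 132774859911) (l 126869287335)))))) (l 3)) (l 3)) (b (b (a (b (a (a (b (l 16765672) (l 16763968)) (l 16768712)) (c (l 16761856) (l 16761000))) (a (b (l 16768184) (l 90898936903)) (l 16758032))) (b (c (l 16757936) (l 16767184)) (l 16753744))) (b (a (a (l 126332415927) (c (l 16756288) (l 16753640))) (l 16750544)) (a (l 131701118615) (c (l 16749728) (l 16745888))))) (a (l 3) (b (a (l 122037438695) (l 9294545815)) (l 2))))) (b (a (b (a (a (l 16761712) (l 16769328)) (b (l 16746136) (l 16741968))) (a (l 16763904) (l 16736616))) (b (a (b (l 16740296) (l 16735888)) (l 16752952)) (l 16747816))) (a (b (a (b (l 16739048) (l 16737088)) (l 16731152)) (a (c (l 91435792087) (l 16730984)) (l 16727912))) (b (l 16720552) (l 16716456))))) (a (l 2) (b (a (l 2) (b (l 16714904) (l 2))) (l 2)))))) (l 2)), by decide +kernel⟩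

def k1_pp_012_b : ∃ t, chk3 f_pp_012_b t 6 1 1 = true :=
  ⟨(b (a (b (a (b (a (b (a (b (l 16728224) (l 16723424)) (l 16740624)) (a (l 16716984) (l 16710232))) (b (l 16731008) (l 16721296))) (a (b (l 16706176) (l 16700800)) (b (l 16713016) (l 16685120)))) (b (b (a (l 16696760) (l 16682800)) (a (l 16686560) (l 16671880))) (b (a (l 16677504) (l 16662280)) (a (l 16669880) (l 16654152))))) (a (b (a (b (l 16697792) (l 16697736)) (b (l 16680832) (l 16679144))) (l 2)) (b (a (b (l 16664400) (l 16661120)) (l 16665816)) (a (l 16662184) (l 16642208))))) (b (b (a (b (a (l 16668184) (l 16653440)) (a (l 16656384) (l 16640568))) (b (a (l 16638640) (l 16623888)) (l 16658464))) (a (b (a (l 16646296) (l 16629648)) (a (l 16637456) (l 16620448))) (b (l 16646032) (l 16614720)))) (b (a (b (l 16621272) (l 16615632)) (b (l 16585264) (l 16577928))) (a (b (l 16611256) (l 16610336)) (b (l 16572416) (l 16568320)))))) (a (l 2) (b (a (b (a (l 16627936) (l 16603520)) (l 2)) (b (l 16610560) (l 16581808)))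 (l 2)))), by decide +kernel⟩

def k2_pp_012_b : ∃ t, chk3 f_pp_012_b t 7 1 1 = true :=
  ⟨(b (b (a (b (b (a (a (l 16609328) (l 16595016)) (a (l 16581056) (l 16567776))) (a (l 16626488) (l 16574224))) (a (a (l 16613952) (l 16596000)) (b (l 16556112) (l 16520008)))) (b (b (a (l 16570344) (l 16549496)) (a (l 16587224) (l 16499128))) (a (b (l 16502296) (l 16483472)) (a (l 16489432) (l 16495704))))) (a (b (a (b (l 16547024) (l 16539032)) (a (l 16533624) (l 16492024))) (a (b (l 16532464) (l 16527544)) (b (l 16490576) (l 16484560)))) (b (a (b (l 16467944) (l 16455456)) (b (l 16430368) (l 16414328))) (a (b (l 16446096) (l 16439320)) (a (l 16407928) (l 16385344)))))) (b (a (b (a (b (l 16523976) (l 16523136)) (b (l 16480904) (l 16478488))) (a (l 16529264) (l 16478472))) (b (a (b (l 16434792) (l 16431608)) (b (l 16385992) (l 16382272))) (a (b (l 16430136) (l 16429664)) (b (l 16379824) (l 16379744))))) (a (b (a (l 2) (l 16492864)) (l 2)) (b (a (l 16436304) (l 16404304)) (a (l 16461832)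 (l 16398240)))))), by decide +kernel⟩

theorem s3_pp_012_b : ∃ t, chk3 f_pp_012_b t 3 1 1 = true := ex3_a k1_pp_012_b k2_pp_012_b

theorem s4_pp_012_b : ∃ t, chk3 f_pp_012_b t 1 1 1 = true := ex3_a k0_pp_012_b s3_pp_012_b

theorem c_pp_012_b : CertB 0 536870912 1239849684 370763052 587336777 62277027 3 eng mog cd0q0 cd2q2b pd1 false true true .pnp 0 1 2
    ndB0q0 ndB2q2b pcB1 cut_pp_012_b Ext.none :=
  certB2 (fam := false) (s1 := true) (s2 := true) (a := 0) (b := 1) (c := 2) (cn := .pnp) (n1 := ndB0q0) (n2 := ndB2q2b) (pc := pcB1) (cut := cut_pp_012_b) (xt := Ext.none) (P1 := 0) (W1 := 536870912) (P2 := 1239849684) (W2 := 370763052) (P3 := 587336777) (W3 := 62277027) (N0 := 3) (En := eng) (mo := mog) (C1 := cd0q0) (C2 := cd2q2b) (C3 := pd1)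
    rfl (fun _ => rfl) s4_pp_012_b

noncomputable def cut_pp_022_a : Cut := Cut.of [[⟨0, 0, 0, 67108864⟩, ⟨1, 1, 0, 67108864⟩, ⟨2, 1, 0, 67108864⟩]]

noncomputable def f_pp_022_a : ℕ → ℕ → ℕ → ℕ → Bool := onCell 1073741824 536870912 0 536870912 587336777 62277027
    (rowB 3 eng mog cd0q0 cd2q2a pd2 2 false true true .pp 0 2 2 (qsf 0 536870912 0 536870912 2) ndB0q0 ndB2q2a pcB2 cut_pp_022_a Ext.none)

def k0_pp_022_a : ∃ t, chk3 f_pp_022_a t 2 2 1 = true :=
  ⟨(a (b (a (a (b (l 16567168) (a (l 16598768) (l 16561048))) (b (l 16511512) (b (l 16522600) (l 16531840)))) (a (b (l 16495952) (a (l 16513600) (l 16504080))) (b (a (l 16483664) (l 16475328)) (a (l 16494408) (l 16484632))))) (a (b (b (a (a (l 16596184) (l 16556264)) (l 16542136)) (a (a (c (l 16597952) (l 16578040)) (l 16568576)) (a (l 16558656) (l 16548128)))) (a (b (a (a (c (l 16614424) (l 16594448)) (l 16589408)) (l 16581936)) (a (a (b (l 16626416) (l 16613400)) (l 16604376)) (l 16596288))) (a (b (l 16571288) (l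 16584824)) (b (l 16560000) (l 16572712))))) (a (b (b (a (l 16526832) (l 16516232)) (a (l 16537128) (l 16525816))) (a (b (l 16548256) (l 16560120)) (b (l 16536168) (l 16547144)))) (b (a (b (l 16505456) (l 16514280)) (b (l 16494512) (l 16502464))) (a (b (l 16523760) (l 16533736)) (b (l 16510944) (c (l 16524904) (l 23118497431)))))))) (a (b (b (a (a (l 16466808) (l 16457976)) (l 1)) (a (a (l 16474640) (l 16464272)) (l 1))) (a (a (b (b (l 16483296) (l 16490232)) (b (c (l 16502800) (l 16491248)) (c (l 16510992) (l 16518896)))) (a (b (b (l 16474600) (l 16480680)) (l 1)) (l 1))) (l 1))) (l 1))), by decide +kernel⟩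

def k1_pp_022_a : ∃ t, chk3 f_pp_022_a t 2 6 1 = true :=
  ⟨(a (a (a (a (a (b (b (b (l 16621616) (l 16630096)) (b (l 16638816) (l 16647744))) (b (b (l 16656768) (l 16665944)) (b (l 16675240) (l 16684680)))) (b (b (l 16620344) (l 16637272)) (b (l 16655120) (l 16694824)))) (b (b (l 16611568) (a (l 16651928) (l 16624432))) (b (a (l 16648224) (l 16641136)) (a (l 16666344) (l 16669112))))) (b (b (a (l 16620136) (l 16586144)) (a (a (l 16617720) (l 16610840)) (l 16621224))) (b (a (a (l 16633872) (l 16626424)) (a (l 16618824) (l 16611064))) (a (b (l 16642456) (l 16650864)) (b (l 16626240) (a (l 16638216) (l 16629504))))))) (b (a (b (a (l 16572624) (c (l 16562656) (l 16553912))) (a (b (l 16582296) (l 16588920)) (b (l 16567400) (l 16573344)))) (b (a (a (l 16547744) (l 16540264)) (a (l 16532568) (l 16524624))) (a (c (l 16580704) (b (l 16545816) (l 16550760))) (l 1)))) (a (b (a (b (l 16595632) (l 16602400)) (b (a (l 16583480) (l 16575088)) (a (l 16589640) (l 16580800)))) (a (b (a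 (l 16613544) (l 16604784)) (a (l 16620536) (l 16611296))) (b (a (l 16595760) (l 1)) (l 1)))) (b (a (b (a (l 16566448) (l 1)) (l 1)) (l 1)) (l 1))))) (l 1)), by decide +kernel⟩

def k2_pp_022_a : ∃ t, chk3 f_pp_022_a t 2 7 1 = true :=
  ⟨(a (a (a (b (b (a (a (b (a (l 16695352) (l 16693008)) (b (l 16701344) (l 6))) (c (l 16714576) (l 16714112))) (a (b (l 16680392) (l 16690024)) (b (l 16672168) (l 16681408)))) (l 6)) (l 6)) (b (b (a (b (a (l 16663720) (l 16655040)) (a (l 16672544) (b (l 16661336) (l 6)))) (b (a (l 16646120) (l 16636952)) (a (b (l 16652064) (l 6)) (b (l 16642520) (l 16646120))))) (a (l 6) (a (l 6) (a (l 6) (l 1))))) (a (l 6) (l 1)))) (b (b (a (a (b (a (l 16627488) (l 16617712)) (a (l 16634304) (l 1))) (l 1)) (l 1)) (l 1)) (l 1))) (l 1)), by decide +kernel⟩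

def k3_pp_022_a : ∃ t, chk3 f_pp_022_a t 3 1 1 = true :=
  ⟨(l 1), by decide +kernel⟩

theorem s4_pp_022_a : ∃ t, chk3 f_pp_022_a t 2 3 1 = true := ex3_b k1_pp_022_a k2_pp_022_a

theorem s5_pp_022_a : ∃ t, chk3 f_pp_022_a t 2 1 1 = true := ex3_b k0_pp_022_a s4_pp_022_a

theorem s6_pp_022_a : ∃ t, chk3 f_pp_022_a t 1 1 1 = true := ex3_a s5_pp_022_a k3_pp_022_a

theorem c_pp_022_a : CertB 0 536870912 0 536870912 587336777 62277027 3 eng mog cd0q0 cd2q2a pd2 false true true .pp 0 2 2
    ndB0q0 ndB2q2a pcB2 cut_pp_022_a Ext.none :=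
  certB2 (fam := false) (s1 := true) (s2 := true) (a := 0) (b := 2) (c := 2) (cn := .pp) (n1 := ndB0q0) (n2 := ndB2q2a) (pc := pcB2) (cut := cut_pp_022_a) (xt := Ext.none) (P1 := 0) (W1 := 536870912) (P2 := 0) (W2 := 536870912) (P3 := 587336777) (W3 := 62277027) (N0 := 3) (En := eng) (mo := mog) (C1 := cd0q0) (C2 := cd2q2a) (C3 := pd2)
    rfl (fun _ => rfl) s6_pp_022_a

noncomputable def cut_pp_022_b : Cut := Cut.of [[⟨0, 0, 0, 67108864⟩, ⟨1, 1, 0, 67108864⟩, ⟨2, 1, 0, 67108864⟩]]

noncomputable def f_pp_022_b : ℕ → ℕ → ℕ → ℕ → Bool := onCell 0 536870912 1073741824 536870912 587336777 62277027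
    (rowB 3 eng mog cd0q0 cd2q2b pd2 1 false true true .pp 0 2 2 (qsf 0 536870912 1239849684 370763052 2) ndB0q0 ndB2q2b pcB2 cut_pp_022_b Ext.none)

def k0_pp_022_b : ∃ t, chk3 f_pp_022_b t 1 1 1 = true :=
  ⟨(b (a (a (b (a (b (l 1) (a (b (l 1) (a (l 1) (l 187937836631))) (b (l 182032310727) (a (l 183105940999) (l 16462256))))) (b (b (a (l 1) (l 184179852343)) (a (l 141230194471) (l 97206734087))) (a (b (l 135324498471) (l 16427024)) (l 16493984)))) (b (b (a (a (a (l 176663477255) (l 156262314039)) (l 16412032)) (l 16404032)) (a (a (b (a (l 16423344) (l 16400480)) (l 16383264)) (l 16373248)) (l 16366848))) (a (a (b (l 16345240) (l 16300664)) (l 16286632)) (l 16232136)))) (b (a (b (b (a (l 77879470087) (l 16489800)) (l 16548680)) (l 16503816)) (b (a (l 16528480) (l 16476544)) (a (l 16322240) (l 16281408)))) (b (a (l 16420664) (b (l 16218920) (l 16172680))) (a (l 16154368) (l 16097384))))) (b (a (a (b (b (a (l 16368296) (l 16349568)) (l 16362648)) (l 16391712)) (b (b (a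 (l 16337864) (l 16332736)) (l 16349688)) (l 16352640))) (a (b (a (l 16322392) (l 16326368)) (l 16288024)) (b (b (l 16346568) (l 16334128)) (l 16317600)))) (a (b (a (b (l 16212480) (l 16178744)) (l 16283368)) (a (l 16129048) (l 16183200))) (b (a (l 16257376) (l 2)) (l 2))))) (a (a (b (a (b (a (l 16245696) (l 16221576)) (b (l 16196480) (l 16195136))) (b (l 16184336) (l 16166664))) (a (b (l 16213776) (l 16264664)) (l 16241104))) (b (b (a (l 16131224) (l 16064536)) (a (l 16136360) (l 16096360))) (a (l 16246976) (l 2)))) (b (a (b (l 16150128) (l 2)) (l 2)) (l 2)))), by decide +kernel⟩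

theorem c_pp_022_b : CertB 0 536870912 1239849684 370763052 587336777 62277027 3 eng mog cd0q0 cd2q2b pd2 false true true .pp 0 2 2
    ndB0q0 ndB2q2b pcB2 cut_pp_022_b Ext.none :=
  certB1 (fam := false) (s1 := true) (s2 := true) (a := 0) (b := 2) (c := 2) (cn := .pp) (n1 := ndB0q0) (n2 := ndB2q2b) (pc := pcB2) (cut := cut_pp_022_b) (xt := Ext.none) (P1 := 0) (W1 := 536870912) (P2 := 1239849684) (W2 := 370763052) (P3 := 587336777) (W3 := 62277027) (N0 := 3) (En := eng) (mo := mog) (C1 := cd0q0) (C2 := cd2q2b) (C3 := pd2)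
    rfl (fun _ => rfl) k0_pp_022_b

noncomputable def f_pp_023 : ℕ → ℕ → ℕ → ℕ → Bool := onCell 0 536870912 1073741824 536870912 587336777 62277027
    (rowB 3 eng mog cd0q0 cd2q3 pd2 1 false true true .up 0 2 3 (qsf 0 536870912 1610612736 536870912 2) ndB0q0 ndB2q3 pcB2 Cut.none Ext.none)

def k0_pp_023 : ∃ t, chk3 f_pp_023 t 1 1 1 = true :=
  ⟨(b (a (a (l 1) (b (l 1) (b (l 1) (l 264173207991)))) (b (a (a (l 1) (l 222297167703)) (a (l 223371378199) (b (l 221223797415) (l 16362792)))) (a (b (a (l 240014160455) (l 16289816)) (a (l 16159632) (l 16224224))) (b (a (l 16297336) (l 16357752)) (a (l 16293952) (l 16441208)))))) (a (a (b (b (l 1) (l 299069794807)) (a (l 304975556951) (l 16203368))) (b (b (l 215854675447) (l 243771790311)) (a (l 16198384) (l 16306904)))) (b (a (b (l 16330856) (l 16281584)) (b (l 16466760) (l 16542704))) (a (a (l 16438752) (l 16540952)) (a (l 16611976) (l 16656344)))))), by decide +kernel⟩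

theorem c_pp_023 : CertB 0 536870912 1610612736 536870912 587336777 62277027 3 eng mog cd0q0 cd2q3 pd2 false true true .up 0 2 3
    ndB0q0 ndB2q3 pcB2 Cut.none Ext.none :=
  certB1 (fam := false) (s1 := true) (s2 := true) (a := 0) (b := 2) (c := 3) (cn := .up) (n1 := ndB0q0) (n2 := ndB2q3) (pc := pcB2) (cut := Cut.none) (xt := Ext.none) (P1 := 0) (W1 := 536870912) (P2 := 1610612736) (W2 := 536870912) (P3 := 587336777) (W3 := 62277027) (N0 := 3) (En := eng) (mo := mog) (C1 := cd0q0) (C2 := cd2q3) (C3 := pd2)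
    rfl (fun _ => rfl) k0_pp_023

noncomputable def f_pp_033 : ℕ → ℕ → ℕ → ℕ → Bool := onCell 0 536870912 1610612736 536870912 587336777 62277027
    (rowB 3 eng mog cd0q0 cd2q3 pd3 1 false true true .pnn 0 3 3 (qsf 0 536870912 1610612736 536870912 3) ndB0q0 ndB2q3 pcB3 Cut.none Ext.none)

def k0_pp_033 : ∃ t, chk3 f_pp_033 t 1 1 1 = true :=
  ⟨(a (b (b (b (a (a (l 16248368) (l 16301536)) (l 16504264)) (a (l 16342544) (l 16493976))) (a (b (a (l 16391576) (l 16450368)) (b (l 16472792) (l 4))) (b (l 16537080) (l 4)))) (a (l 4) (b (l 4) (a (b (l 4) (l 2)) (l 2))))) (b (a (b (b (l 16594688) (l 16619296)) (b (l 16641424) (l 4))) (b (b (l 16685736) (l 16701848)) (a (b (l 16701240) (l 2)) (l 2)))) (a (b (a (b (l 4) (l 2)) (l 2)) (l 2)) (l 2)))), by decide +kernel⟩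

theorem c_pp_033 : CertB 0 536870912 1610612736 536870912 587336777 62277027 3 eng mog cd0q0 cd2q3 pd3 false true true .pnn 0 3 3
    ndB0q0 ndB2q3 pcB3 Cut.none Ext.none :=
  certB1 (fam := false) (s1 := true) (s2 := true) (a := 0) (b := 3) (c := 3) (cn := .pnn) (n1 := ndB0q0) (n2 := ndB2q3) (pc := pcB3) (cut := Cut.none) (xt := Ext.none) (P1 := 0) (W1 := 536870912) (P2 := 1610612736) (W2 := 536870912) (P3 := 587336777) (W3 := 62277027) (N0 := 3) (En := eng) (mo := mog) (C1 := cd0q0) (C2 := cd2q3) (C3 := pd3)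
    rfl (fun _ => rfl) k0_pp_033

noncomputable def f_pp_101 : ℕ → ℕ → ℕ → ℕ → Bool := onCell 536870912 536870912 536870912 536870912 587336777 62277027
    (rowB 3 eng mog cd0q1 cd2q1 pd0 0 false true true .npn 1 0 1 (qsf 536870912 536870912 536870912 536870912 0) ndB0q1 ndB2q1 pcB0 Cut.none Ext.none)

def k0_pp_101 : ∃ t, chk3 f_pp_101 t 1 1 1 = true :=
  ⟨(l 3), by decide +kernel⟩

theorem c_pp_101 : CertB 536870912 536870912 536870912 536870912 587336777 62277027 3 eng mog cd0q1 cd2q1 pd0 false true true .npn 1 0 1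
    ndB0q1 ndB2q1 pcB0 Cut.none Ext.none :=
  certB0 (fam := false) (s1 := true) (s2 := true) (a := 1) (b := 0) (c := 1) (cn := .npn) (n1 := ndB0q1) (n2 := ndB2q1) (pc := pcB0) (cut := Cut.none) (xt := Ext.none) (P1 := 536870912) (W1 := 536870912) (P2 := 536870912) (W2 := 536870912) (P3 := 587336777) (W3 := 62277027) (N0 := 3) (En := eng) (mo := mog) (C1 := cd0q1) (C2 := cd2q1) (C3 := pd0)
    rfl k0_pp_101

noncomputable def f_pp_102_a : ℕ → ℕ → ℕ → ℕ → Bool := onCell 0 536870912 0 536870912 587336777 62277027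
    (rowB 3 eng mog cd0q1 cd2q2a pd0 2 false true true .npp 1 0 2 (qsf 536870912 536870912 0 536870912 0) ndB0q1 ndB2q2a pcB0 Cut.none Ext.none)

def k0_pp_102_a : ∃ t, chk3 f_pp_102_a t 1 1 1 = true :=
  ⟨(a (l 3) (l 3)), by decide +kernel⟩

theorem c_pp_102_a : CertB 536870912 536870912 0 536870912 587336777 62277027 3 eng mog cd0q1 cd2q2a pd0 false true true .npp 1 0 2
    ndB0q1 ndB2q2a pcB0 Cut.none Ext.none :=
  certB2 (fam := false) (s1 := true) (s2 := true) (a := 1) (b := 0) (c := 2) (cn := .npp) (n1 := ndB0q1) (n2 := ndB2q2a) (pc := pcB0) (cut := Cut.none) (xt := Ext.none) (P1 := 536870912) (W1 := 536870912) (P2 := 0) (W2 := 536870912) (P3 := 587336777) (W3 := 62277027) (N0 := 3) (En := eng) (mo := mog) (C1 := cd0q1) (C2 := cd2q2a) (C3 := pd0)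
    rfl (fun _ => rfl) k0_pp_102_a

noncomputable def f_pp_102_b : ℕ → ℕ → ℕ → ℕ → Bool := onCell 536870912 536870912 0 536870912 587336777 62277027
    (rowB 3 eng mog cd0q1 cd2q2b pd0 1 false true true .npp 1 0 2 (qsf 536870912 536870912 1239849684 370763052 0) ndB0q1 ndB2q2b pcB0 Cut.none Ext.none)

def k0_pp_102_b : ∃ t, chk3 f_pp_102_b t 1 1 1 = true :=
  ⟨(l 3), by decide +kernel⟩

theorem c_pp_102_b : CertB 536870912 536870912 1239849684 370763052 587336777 62277027 3 eng mog cd0q1 cd2q2b pd0 false true true .npp 1 0 2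
    ndB0q1 ndB2q2b pcB0 Cut.none Ext.none :=
  certB1 (fam := false) (s1 := true) (s2 := true) (a := 1) (b := 0) (c := 2) (cn := .npp) (n1 := ndB0q1) (n2 := ndB2q2b) (pc := pcB0) (cut := Cut.none) (xt := Ext.none) (P1 := 536870912) (W1 := 536870912) (P2 := 1239849684) (W2 := 370763052) (P3 := 587336777) (W3 := 62277027) (N0 := 3) (En := eng) (mo := mog) (C1 := cd0q1) (C2 := cd2q2b) (C3 := pd0)
    rfl (fun _ => rfl) k0_pp_102_b

noncomputable def f_pp_112_a : ℕ → ℕ → ℕ → ℕ → Bool := onCell 536870912 536870912 0 536870912 587336777 62277027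
    (rowB 3 eng mog cd0q1 cd2q2a pd1 0 false true true .dn 1 1 2 (qsf 536870912 536870912 0 536870912 1) ndB0q1 ndB2q2a pcB1 Cut.none Ext.none)

def k0_pp_112_a : ∃ t, chk3 f_pp_112_a t 1 1 1 = true :=
  ⟨(a (b (l 3) (l 3)) (l 1)), by decide +kernel⟩

theorem c_pp_112_a : CertB 536870912 536870912 0 536870912 587336777 62277027 3 eng mog cd0q1 cd2q2a pd1 false true true .dn 1 1 2
    ndB0q1 ndB2q2a pcB1 Cut.none Ext.none :=
  certB0 (fam := false) (s1 := true) (s2 := true) (a := 1) (b := 1) (c := 2) (cn := .dn) (n1 := ndB0q1) (n2 := ndB2q2a) (pc := pcB1) (cut := Cut.none) (xt := Ext.none) (P1 := 536870912) (W1 := 536870912) (P2 := 0) (W2 := 536870912) (P3 := 587336777) (W3 := 62277027) (N0 := 3) (En := eng) (mo := mog) (C1 := cd0q1) (C2 := cd2q2a) (C3 := pd1)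
    rfl k0_pp_112_a

noncomputable def f_pp_112_b : ℕ → ℕ → ℕ → ℕ → Bool := onCell 536870912 536870912 536870912 536870912 587336777 62277027
    (rowB 3 eng mog cd0q1 cd2q2b pd1 1 false true true .dn 1 1 2 (qsf 536870912 536870912 1239849684 370763052 1) ndB0q1 ndB2q2b pcB1 Cut.none Ext.none)

def k0_pp_112_b : ∃ t, chk3 f_pp_112_b t 1 1 1 = true :=
  ⟨(b (a (b (l 3) (a (b (l 3) (a (b (l 3) (b (a (a (b (l 16734880) (l 16727336)) (l 134385464311)) (l 3)) (a (l 16735872) (l 16717840)))) (l 3))) (l 3))) (l 3)) (a (b (a (b (a (b (a (b (l 16697736) (l 16679976)) (l 16715896)) (a (l 16694656) (l 16661936))) (b (a (l 16727768) (l 16724416)) (b (l 16696648) (l 16683352)))) (a (b (a (l 16614040) (l 16626736)) (l 16622976)) (b (l 16662336) (l 16634848)))) (b (a (b (l 3) (a (l 16736864) (l 96267753863))) (l 3)) (a (b (a (l 16721888) (l 16775816)) (a (l 16706720) (l 16753328))) (b (a (l 95126987447) (l 2)) (l 2))))) (a (b (a (a (l 16514056) (l 16536616)) (l 16594144)) (a (a (l 16433656)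 (l 16466384)) (l 16546472))) (b (a (b (l 16709600) (l 2)) (l 2)) (l 2)))) (b (b (l 3) (l 2)) (l 2)))), by decide +kernel⟩

theorem c_pp_112_b : CertB 536870912 536870912 1239849684 370763052 587336777 62277027 3 eng mog cd0q1 cd2q2b pd1 false true true .dn 1 1 2
    ndB0q1 ndB2q2b pcB1 Cut.none Ext.none :=
  certB1 (fam := false) (s1 := true) (s2 := true) (a := 1) (b := 1) (c := 2) (cn := .dn) (n1 := ndB0q1) (n2 := ndB2q2b) (pc := pcB1) (cut := Cut.none) (xt := Ext.none) (P1 := 536870912) (W1 := 536870912) (P2 := 1239849684) (W2 := 370763052) (P3 := 587336777) (W3 := 62277027) (N0 := 3) (En := eng) (mo := mog) (C1 := cd0q1) (C2 := cd2q2b) (C3 := pd1)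
    rfl (fun _ => rfl) k0_pp_112_b

noncomputable def cut_pp_113 : Cut := Cut.of [[⟨0, 1, 0, 67108864⟩, ⟨1, 1, 0, 67108864⟩, ⟨2, 2, 0, 16777216⟩]]

noncomputable def f_pp_113 : ℕ → ℕ → ℕ → ℕ → Bool := onCell 536870912 536870912 536870912 536870912 587336777 62277027
    (rowB 3 eng mog cd0q1 cd2q3 pd1 1 false true true .nn 1 1 3 (qsf 536870912 536870912 1610612736 536870912 1) ndB0q1 ndB2q3 pcB1 cut_pp_113 Ext.none)

def k0_pp_113 : ∃ t, chk3 f_pp_113 t 1 2 1 = true :=
  ⟨(a (a (l 1) (l 3)) (l 3)), by decide +kernel⟩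

def k1_pp_113 : ∃ t, chk3 f_pp_113 t 1 3 1 = true :=
  ⟨(a (b (a (b (l 1) (a (l 1) (b (l 1) (l 16663168)))) (b (a (b (l 1) (a (l 1) (l 134251347879))) (l 3)) (a (b (a (l 16749656) (l 16807112)) (a (l 16744648) (l 16800248))) (b (a (l 16865464) (l 16882480)) (a (l 16835872) (l 16869336)))))) (a (b (a (l 65531477639) (l 16678328)) (a (b (l 16504688) (l 16474560)) (b (l 16612744) (l 16595976)))) (b (a (b (l 16757624) (l 16737280)) (b (a (l 16810720) (l 16819728)) (a (l 16788272) (l 16816008)))) (a (a (l 16668592) (l 16728832)) (a (l 16758696) (l 16783848)))))) (b (a (b (l 3) (a (b (l 3) (a (l 64055479463) (b (l 3) (l 16938624)))) (l 3))) (l 3)) (a (b (a (b (a (l 16851920) (b (l 16917600) (l 16898896))) (a (l 16845248) (l 16875288))) (b (a (b (l 16974960) (l 16930960)) (l 3)) (a (l 16891384) (b (l 16935688) (l 16914176))))) (a (b (a (l 16820616) (l 16846952)) (l 16811008)) (b (a (l 16869472) (b (l 16895168) (l 16877656))) (a (l 16840600) (l 16852624))))) (b (a (b (l 3) (a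 (b (l 3) (l 164450520727)) (l 3))) (l 3)) (a (b (a (b (l 16905248) (l 16884760)) (b (a (l 187535941847) (l 3)) (l 144049327367))) (a (b (l 16865832) (l 16847456)) (a (l 16852704) (l 16846480)))) (b (a (b (l 3) (a (l 372219504631) (l 3))) (l 3)) (a (a (b (l 16849424) (l 16827960)) (b (b (l 402284220679) (l 171429663959)) (l 16817968))) (b (a (b (l 3) (a (l 423759016583) (l 3))) (l 3)) (a (a (l 96267772983) (b (b (l 425906472967) (l 16806592)) (l 16798160))) (a (b (b (l 3) (l 468319249239)) (b (a (l 16796408) (b (l 437180728407) (l 16791976))) (l 16789280))) (b (l 3) (b (b (l 3) (l 6)) (l 6))))))))))))), by decide +kernel⟩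

theorem s2_pp_113 : ∃ t, chk3 f_pp_113 t 1 1 1 = true := ex3_b k0_pp_113 k1_pp_113

theorem c_pp_113 : CertB 536870912 536870912 1610612736 536870912 587336777 62277027 3 eng mog cd0q1 cd2q3 pd1 false true true .nn 1 1 3
    ndB0q1 ndB2q3 pcB1 cut_pp_113 Ext.none :=
  certB1 (fam := false) (s1 := true) (s2 := true) (a := 1) (b := 1) (c := 3) (cn := .nn) (n1 := ndB0q1) (n2 := ndB2q3) (pc := pcB1) (cut := cut_pp_113) (xt := Ext.none) (P1 := 536870912) (W1 := 536870912) (P2 := 1610612736) (W2 := 536870912) (P3 := 587336777) (W3 := 62277027) (N0 := 3) (En := eng) (mo := mog) (C1 := cd0q1) (C2 := cd2q3) (C3 := pd1)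
    rfl (fun _ => rfl) s2_pp_113

noncomputable def cut_pp_123 : Cut := Cut.of [[⟨0, 1, 0, 67108864⟩, ⟨1, 1, 0, 67108864⟩, ⟨2, 2, 0, 16777216⟩]]

noncomputable def f_pp_123 : ℕ → ℕ → ℕ → ℕ → Bool := onCell 536870912 536870912 1073741824 536870912 587336777 62277027
    (rowB 3 eng mog cd0q1 cd2q3 pd2 1 false true true .npn 1 2 3 (qsf 536870912 536870912 1610612736 536870912 2) ndB0q1 ndB2q3 pcB2 cut_pp_123 Ext.none)

def k0_pp_123 : ∃ t, chk3 f_pp_123 t 1 1 1 = true :=
  ⟨(a (b (b (a (a (b (l 16448928) (l 16460400)) (b (l 16578288) (l 16577624))) (b (a (l 16735240) (l 16746128)) (a (l 16649008) (l 16687576)))) (a (a (b (l 16491888) (l 16540824)) (b (b (l 16577904) (l 16581432)) (l 16604912))) (b (b (a (b (l 16636200) (l 16632104)) (b (l 16667512) (l 16661080))) (a (l 16628424) (l 16653088))) (a (l 16641312) (l 16660696))))) (a (b (b (l 16613496) (l 16709872)) (a (l 16687856) (l 16707328))) (b (b (l 16918248) (a (l 16682096) (l 16686968))) (a (b (l 16706152) (l 2)) (l 2)))))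 (b (a (b (a (b (l 16787176) (l 16715864)) (b (b (l 16812208) (l 16779128)) (l 16734840))) (b (a (b (b (l 16690304) (l 16682920)) (l 16674352)) (b (b (l 16707984) (l 16784928)) (l 16688184))) (a (l 16674768) (l 16681960)))) (b (b (a (b (l 16815096) (l 16779960)) (b (a (l 16794080) (b (a (b (l 16790744) (l 16782544)) (a (l 16778048) (b (l 6) (l 16768352)))) (l 393627062039))) (a (l 16759376) (l 472547084855)))) (a (l 16788184) (a (l 16767888) (l 2)))) (a (b (b (b (l 16677736) (l 2)) (l 2)) (l 2)) (l 2)))) (a (b (a (b (l 16677512) (l 2)) (l 2)) (l 2)) (l 2)))), by decide +kernel⟩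

theorem c_pp_123 : CertB 536870912 536870912 1610612736 536870912 587336777 62277027 3 eng mog cd0q1 cd2q3 pd2 false true true .npn 1 2 3
    ndB0q1 ndB2q3 pcB2 cut_pp_123 Ext.none :=
  certB1 (fam := false) (s1 := true) (s2 := true) (a := 1) (b := 2) (c := 3) (cn := .npn) (n1 := ndB0q1) (n2 := ndB2q3) (pc := pcB2) (cut := cut_pp_123) (xt := Ext.none) (P1 := 536870912) (W1 := 536870912) (P2 := 1610612736) (W2 := 536870912) (P3 := 587336777) (W3 := 62277027) (N0 := 3) (En := eng) (mo := mog) (C1 := cd0q1) (C2 := cd2q3) (C3 := pd2)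
    rfl (fun _ => rfl) k0_pp_123

noncomputable def f_pp_133 : ℕ → ℕ → ℕ → ℕ → Bool := onCell 1610612736 536870912 1610612736 536870912 587336777 62277027
    (rowB 3 eng mog cd0q1 cd2q3 pd3 2 false true true .dn 1 3 3 (qsf 536870912 536870912 1610612736 536870912 3) ndB0q1 ndB2q3 pcB3 Cut.none Ext.none)

def k0_pp_133 : ∃ t, chk3 f_pp_133 t 1 1 1 = true :=
  ⟨(a (b (l 1) (a (b (l 1) (a (l 417719398151) (l 1))) (l 1))) (l 1)), by decide +kernel⟩

theorem c_pp_133 : CertB 536870912 536870912 1610612736 536870912 587336777 62277027 3 eng mog cd0q1 cd2q3 pd3 false true true .dn 1 3 3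
    ndB0q1 ndB2q3 pcB3 Cut.none Ext.none :=
  certB2 (fam := false) (s1 := true) (s2 := true) (a := 1) (b := 3) (c := 3) (cn := .dn) (n1 := ndB0q1) (n2 := ndB2q3) (pc := pcB3) (cut := Cut.none) (xt := Ext.none) (P1 := 536870912) (W1 := 536870912) (P2 := 1610612736) (W2 := 536870912) (P3 := 587336777) (W3 := 62277027) (N0 := 3) (En := eng) (mo := mog) (C1 := cd0q1) (C2 := cd2q3) (C3 := pd3)
    rfl (fun _ => rfl) k0_pp_133

noncomputable def f_pp_202_a : ℕ → ℕ → ℕ → ℕ → Bool := onCell 0 536870912 0 536870912 587336777 62277027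
    (rowB 3 eng mog cd0q2 cd2q2a pd0 0 false true true .pp 2 0 2 (qsf 0 536870912 0 536870912 0) ndB0q2 ndB2q2a pcB0 Cut.none Ext.none)

def k0_pp_202_a : ∃ t, chk3 f_pp_202_a t 1 1 1 = true :=
  ⟨(l 3), by decide +kernel⟩

theorem c_pp_202_a : CertB 0 536870912 0 536870912 587336777 62277027 3 eng mog cd0q2 cd2q2a pd0 false true true .pp 2 0 2
    ndB0q2 ndB2q2a pcB0 Cut.none Ext.none :=
  certB0 (fam := false) (s1 := true) (s2 := true) (a := 2) (b := 0) (c := 2) (cn := .pp) (n1 := ndB0q2) (n2 := ndB2q2a) (pc := pcB0) (cut := Cut.none) (xt := Ext.none) (P1 := 0) (W1 := 536870912) (P2 := 0) (W2 := 536870912) (P3 := 587336777) (W3 := 62277027) (N0 := 3) (En := eng) (mo := mog) (C1 := cd0q2) (C2 := cd2q2a) (C3 := pd0)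
    rfl k0_pp_202_a

noncomputable def f_pp_202_b : ℕ → ℕ → ℕ → ℕ → Bool := onCell 0 536870912 1239849684 370763052 587336777 62277027
    (rowB 3 eng mog cd0q2 cd2q2b pd0 0 false true true .pp 2 0 2 (qsf 0 536870912 1239849684 370763052 0) ndB0q2 ndB2q2b pcB0 Cut.none Ext.none)

def k0_pp_202_b : ∃ t, chk3 f_pp_202_b t 1 1 1 = true :=
  ⟨(l 3), by decide +kernel⟩

theorem c_pp_202_b : CertB 0 536870912 1239849684 370763052 587336777 62277027 3 eng mog cd0q2 cd2q2b pd0 false true true .pp 2 0 2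
    ndB0q2 ndB2q2b pcB0 Cut.none Ext.none :=
  certB0 (fam := false) (s1 := true) (s2 := true) (a := 2) (b := 0) (c := 2) (cn := .pp) (n1 := ndB0q2) (n2 := ndB2q2b) (pc := pcB0) (cut := Cut.none) (xt := Ext.none) (P1 := 0) (W1 := 536870912) (P2 := 1239849684) (W2 := 370763052) (P3 := 587336777) (W3 := 62277027) (N0 := 3) (En := eng) (mo := mog) (C1 := cd0q2) (C2 := cd2q2b) (C3 := pd0)
    rfl k0_pp_202_b

noncomputable def f_pp_203 : ℕ → ℕ → ℕ → ℕ → Bool := onCell 0 536870912 0 536870912 587336777 62277027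
    (rowB 3 eng mog cd0q2 cd2q3 pd0 1 false true true .up 2 0 3 (qsf 0 536870912 1610612736 536870912 0) ndB0q2 ndB2q3 pcB0 Cut.none Ext.none)

def k0_pp_203 : ∃ t, chk3 f_pp_203 t 1 1 1 = true :=
  ⟨(l 3), by decide +kernel⟩

theorem c_pp_203 : CertB 0 536870912 1610612736 536870912 587336777 62277027 3 eng mog cd0q2 cd2q3 pd0 false true true .up 2 0 3
    ndB0q2 ndB2q3 pcB0 Cut.none Ext.none :=
  certB1 (fam := false) (s1 := true) (s2 := true) (a := 2) (b := 0) (c := 3) (cn := .up) (n1 := ndB0q2) (n2 := ndB2q3) (pc := pcB0) (cut := Cut.none) (xt := Ext.none) (P1 := 0) (W1 := 536870912) (P2 := 1610612736) (W2 := 536870912) (P3 := 587336777) (W3 := 62277027) (N0 := 3) (En := eng) (mo := mog) (C1 := cd0q2) (C2 := cd2q3) (C3 := pd0)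
    rfl (fun _ => rfl) k0_pp_203

noncomputable def cut_pp_213 : Cut := Cut.of [[⟨0, 1, 0, 67108864⟩, ⟨1, 1, 0, 67108864⟩, ⟨2, 2, 0, 16777216⟩]]

noncomputable def f_pp_213 : ℕ → ℕ → ℕ → ℕ → Bool := onCell 0 536870912 1610612736 536870912 587336777 62277027
    (rowB 3 eng mog cd0q2 cd2q3 pd1 0 false true true .pnn 2 1 3 (qsf 0 536870912 1610612736 536870912 1) ndB0q2 ndB2q3 pcB1 cut_pp_213 Ext.none)

def k0_pp_213 : ∃ t, chk3 f_pp_213 t 1 1 1 = true :=
  ⟨(b (l 3) (a (l 3) (b (l 3) (a (l 3) (b (l 3) (a (l 3) (b (l 3) (b (l 3) (b (l 3) (l 6)))))))))), by decide +kernel⟩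

theorem c_pp_213 : CertB 0 536870912 1610612736 536870912 587336777 62277027 3 eng mog cd0q2 cd2q3 pd1 false true true .pnn 2 1 3
    ndB0q2 ndB2q3 pcB1 cut_pp_213 Ext.none :=
  certB0 (fam := false) (s1 := true) (s2 := true) (a := 2) (b := 1) (c := 3) (cn := .pnn) (n1 := ndB0q2) (n2 := ndB2q3) (pc := pcB1) (cut := cut_pp_213) (xt := Ext.none) (P1 := 0) (W1 := 536870912) (P2 := 1610612736) (W2 := 536870912) (P3 := 587336777) (W3 := 62277027) (N0 := 3) (En := eng) (mo := mog) (C1 := cd0q2) (C2 := cd2q3) (C3 := pd1)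
    rfl k0_pp_213

noncomputable def f_pm_001 : ℕ → ℕ → ℕ → ℕ → Bool := onCell 0 536870912 0 536870912 587336777 62277027
    (rowB 3 eng mog cd0q0 cd2q1 pd0 1 false true false .up 0 0 1 (qsf 0 536870912 536870912 536870912 0) ndB0q0 ndB2q1 pcB0 Cut.none Ext.none)

def k0_pm_001 : ∃ t, chk3 f_pm_001 t 1 1 1 = true :=
  ⟨(a (l 4) (b (l 4) (b (l 4) (a (l 4) (b (l 4) (a (l 4) (a (l 4) (b (l 4) (b (l 16168328) (l 16140880)))))))))), by decide +kernel⟩

theorem c_pm_001 : CertB 0 536870912 536870912 536870912 587336777 62277027 3 eng mog cd0q0 cd2q1 pd0 false true false .up 0 0 1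
    ndB0q0 ndB2q1 pcB0 Cut.none Ext.none :=
  certB1 (fam := false) (s1 := true) (s2 := false) (a := 0) (b := 0) (c := 1) (cn := .up) (n1 := ndB0q0) (n2 := ndB2q1) (pc := pcB0) (cut := Cut.none) (xt := Ext.none) (P1 := 0) (W1 := 536870912) (P2 := 536870912) (W2 := 536870912) (P3 := 587336777) (W3 := 62277027) (N0 := 3) (En := eng) (mo := mog) (C1 := cd0q0) (C2 := cd2q1) (C3 := pd0)
    rfl (fun _ => rfl) k0_pm_001

noncomputable def f_pm_011 : ℕ → ℕ → ℕ → ℕ → Bool := onCell 0 536870912 536870912 536870912 587336777 62277027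
    (rowB 3 eng mog cd0q0 cd2q1 pd1 0 false true false .pnn 0 1 1 (qsf 0 536870912 536870912 536870912 1) ndB0q0 ndB2q1 pcB1 Cut.none Ext.none)

def k0_pm_011 : ∃ t, chk3 f_pm_011 t 1 1 1 = true :=
  ⟨(a (l 4) (b (l 4) (b (l 4) (a (l 4) (a (l 4) (b (l 4) (b (l 4) (a (l 16252688) (a (l 16133688) (l 16117192)))))))))), by decide +kernel⟩

theorem c_pm_011 : CertB 0 536870912 536870912 536870912 587336777 62277027 3 eng mog cd0q0 cd2q1 pd1 false true false .pnn 0 1 1
    ndB0q0 ndB2q1 pcB1 Cut.none Ext.none :=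
  certB0 (fam := false) (s1 := true) (s2 := false) (a := 0) (b := 1) (c := 1) (cn := .pnn) (n1 := ndB0q0) (n2 := ndB2q1) (pc := pcB1) (cut := Cut.none) (xt := Ext.none) (P1 := 0) (W1 := 536870912) (P2 := 536870912) (W2 := 536870912) (P3 := 587336777) (W3 := 62277027) (N0 := 3) (En := eng) (mo := mog) (C1 := cd0q0) (C2 := cd2q1) (C3 := pd1)
    rfl k0_pm_011

end Pool.Agent.Strip051.G.I5470_6050.Tab.C.BB02

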