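import Pool.Agent.Strip051.G.I5470_6050.Tab
import Pool.Agent.Strip051.PB.ExtD2

/-! # Certificates B24 (generated) -/

set_option linter.all false
set_option maxRecDepth 100000

namespace Pool.Agent.Strip051.G.I5470_6050.Tab.C.BB02

open Pool.Agent.Strip051.PB Pool.Agent.Strip051.PB.T
open Pool.Agent.Strip051.G.I5470_6050.Tab

noncomputable def cut_pm_102_a : Cut := Cut.of [[⟨0, 1, 0, 67108864⟩, ⟨1, 0, 0, 67108864⟩, ⟨2, 1, 0, 67108864⟩], [⟨0, 0, 1, 20971520⟩, ⟨1, 1, 2, 20971520⟩, ⟨2, 1, 0, 29360128⟩]]

noncomputable def xt_pm_102_a : Ext := extD2 3 ⟨7, 3, 3, 10, 1815, 1000, 17, 20, 37, 100, 3, 16⟩ eng cd0q1 cd2q2a pd0 false true false .npp 1 0 2 rfl ndB0q1 ndB2q2a pcB0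

noncomputable def f_pm_102_a : ℕ → ℕ → ℕ → ℕ → Bool := onCell 536870912 536870912 0 536870912 587336777 62277027
    (rowB 3 eng mog cd0q1 cd2q2a pd0 0 false true false .npp 1 0 2 (qsf 536870912 536870912 0 536870912 0) ndB0q1 ndB2q2a pcB0 cut_pm_102_a xt_pm_102_a)

def k0_pm_102_a : ∃ t, chk3 f_pm_102_a t 4 2 1 = true :=
  ⟨(b (l 2) (a (l 2) (b (l 2) (a (l 2) (l 16671064))))), by decide +kernel⟩

def k1_pm_102_a : ∃ t, chk3 f_pm_102_a t 10 2 1 = true :=
  ⟨(b (a (a (l 2) (b (b (a (l 2) (l 16747400)) (l 16733048)) (b (l 16721312) (l 16711880)))) (b (a (b (b (a (l 16754600) (c (l 16782768) (l 16770640))) (l 16770856)) (l 16740944)) (b (b (a (a (l 16765912) (l 16768672)) (c (l 16772896) (l 16770832))) (a (l 16778744) (b (l 16766824) (l 16762352)))) (a (l 16747048) (l 16772424)))) (a (b (l 16730000) (l 16719864)) (b (l 16738504) (l 16729456))))) (b (a (b (l 16698440) (l 16691272)) (b (a (l 16712592) (l 16722312)) (l 16711000))) (a (l 16685368) (b (l 16706792) (l 16704376))))), by decide +kernel⟩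

def k2_pm_102_a : ∃ t, chk3 f_pm_102_a t 22 16 1 = true :=
  ⟨(a (a (b (b (a (l 16774088) (c (l 16774264) (l 16773272))) (l 16773416)) (l 16769960)) (b (b (a (a (c (l 16773248) (l 16772616)) (b (a (c (l 16771736) (l 16771512)) (b (b (b (a (l 16770400) (c (l 48486139175) (l 46875527159))) (c (l 16770432) (l 16770496))) (l 16770176)) (l 16771472))) (l 16772688))) (b (a (a (a (b (c (b (l 61371041079) (l 16770280)) (b (l 58149815831) (l 16770368))) (l 16771032)) (b (b (l 3) (c (l 59760428407) (l 56002332439))) (l 16770064))) (b (c (l 66739749319) (l 61371040663)) (a (c (l 44728042999) (l 43654301447)) (b (l 60834170087) (l 44191172295))))) (a (b (l 3) (a (b (l 3) (l 58686687367)) (l 64592266167))) (l 3))) (a (c (l 16771928) (l 16771608)) (b (c (a (l 44191172055) (l 60834169479)) (a (l 43654301463) (l 57076073639))) (c (l 16771136) (l 16770976)))))) (a (l 16773776) (a (l 16773264) (a (l 16772824) (l 16772464))))) (a (l 16772488) (l 16773344)))) (b (a (b (a (b (l 3) (a (a (b (l 84993360519) (a (l 53854848423) (l 58149815431))) (a (l 64592265847)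 (l 3))) (l 3))) (l 3)) (a (b (a (c (l 41506817287) (c (l 42043688631) (l 42043688743))) (b (c (l 65129137079) (l 60297298247)) (c (l 47412397319) (l 46875526663)))) (c (l 16772224) (l 16771696))) (b (a (b (l 3) (l 66202878407)) (l 3)) (a (b (c (l 51170493303) (l 50633622647)) (l 16769512)) (c (l 66739749415) (l 62444782199)))))) (l 3)) (a (b (a (l 16773192) (a (l 16772344) (a (l 16771744) (b (l 45264913207) (l 16771872))))) (l 16773384)) (b (a (b (a (c (l 61907910567) (l 59223556247)) (l 70497844599)) (a (l 16771200) (b (l 54928589367) (l 16770528)))) (b (l 3) (a (l 67813490871) (l 3)))) (a (c (l 16772800) (l 16771856)) (a (c (l 43117429527) (l 45264913143)) (b (b (l 70497845479) (l 54391718471)) (l 16770864)))))))), by decide +kernel⟩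

def k3_pm_102_a : ∃ t, chk3 f_pm_102_a t 22 17 1 = true :=
  ⟨(a (b (a (l 16782744) (l 16767784)) (a (l 16752384) (l 16758472))) (a (b (l 16771784) (l 16786360)) (b (b (a (l 16773152) (l 16772568)) (l 16772864)) (l 16770336)))), by decide +kernel⟩

def k4_pm_102_a : ∃ t, chk3 f_pm_102_a t 22 9 1 = true :=
  ⟨(b (a (l 16746640) (b (a (l 16755376) (l 16762672)) (l 16752136))) (a (l 16738016) (l 16745896))), by decide +kernel⟩

def k5_pm_102_a : ∃ t, chk3 f_pm_102_a t 23 4 1 = true :=
  ⟨(b (a (b (b (l 3) (a (b (l 3) (a (b (l 3) (a (b (l 65129136119) (l 49023009655)) (l 71571586711))) (l 3))) (l 3))) (b (a (a (b (a (l 16771648) (c (l 46338654839) (l 49023009223))) (l 16772656)) (b (b (a (l 67276618471) (l 3)) (a (l 16770496) (l 64055393639))) (c (l 16772128) (l 16771064)))) (b (a (l 133311742455) (l 3)) (a (b (a (l 60297297815) (l 73182199335)) (c (l 16770896) (l 53854847399))) (b (l 3) (a (l 69960972743) (l 3)))))) (a (a (l 16772280) (l 16772672)) (b (a (l 16771808) (b (a (l 16770240) (l 65129135015)) (l 16770816))) (a (l 16772496) (l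 16771864)))))) (b (l 3) (b (l 3) (a (b (a (b (l 83382744631) (a (l 62981651111) (l 77477166039))) (l 3)) (a (c (l 16771208) (l 56539200519)) (b (a (l 73182196999) (l 88751453527)) (a (l 16769792) (l 68350358871))))) (b (l 3) (a (b (l 3) (l 88214581927)) (l 3))))))) (a (b (b (a (l 16768568) (l 16771752)) (a (l 16759416) (l 16787600))) (b (l 16776416) (l 16751232))) (b (b (a (b (a (l 16771808) (l 16770704)) (l 16771920)) (b (a (b (a (l 64055391431) (l 81235261383)) (l 58686682615)) (b (l 3) (a (b (l 82845871239) (l 67276615847)) (l 93583290503)))) (a (l 16770728) (b (a (l 16769160) (b (l 76940291431) (l 16768464))) (l 16769640))))) (a (l 16770752) (b (l 16771168) (l 16771384)))) (b (a (l 16764616) (l 16769608)) (a (l 16756168) (l 16762352)))))), by decide +kernel⟩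

def k6_pm_102_a : ∃ t, chk3 f_pm_102_a t 11 5 1 = true :=
  ⟨(b (a (b (a (l 16730592) (l 16739528)) (a (l 16726576) (l 16735248))) (a (b (l 16746792) (l 16742352)) (b (l 16752400) (l 16748576)))) (a (b (l 16727536) (l 16725952)) (b (a (l 16741800) (l 16747304)) (l 16744288)))), by decide +kernel⟩

def k7_pm_102_a : ∃ t, chk3 f_pm_102_a t 4 6 1 = true :=
  ⟨(a (l 2) (b (l 16667344) (a (l 16667368) (l 16672008)))), by decide +kernel⟩

def k8_pm_102_a : ∃ t, chk3 f_pm_102_a t 4 14 1 = true :=
  ⟨(a (a (l 2) (b (b (l 2) (a (l 2) (l 16666632))) (b (a (l 2) (l 16649400)) (a (c (l 16640240) (l 16593744)) (c (l 16652432) (l 16603536)))))) (b (a (a (b (l 16669096) (l 16669432)) (l 16672632)) (l 16680248)) (a (b (a (l 16659936) (b (l 16674000) (l 16665672))) (a (c (l 16666096) (l 16614976)) (l 16653920))) (b (l 16683896) (l 16676344))))), by decide +kernel⟩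

def k9_pm_102_a : ∃ t, chk3 f_pm_102_a t 8 30 1 = true :=
  ⟨(a (a (l 2) (a (b (l 2) (b (l 2) (l 141940387986145327))) (b (c (l 16609184) (l 142134176927154223)) (b (l 142057279847268399) (c (l 141878952831860783) (l 141718630204063791)))))) (b (b (a (l 142287558871613487) (c (l 16638832) (l 16589680))) (a (c (l 16614504) (l 141926506674274351)) (c (l 142289002042212399) (l 142158641093148719)))) (a (b (c (l 141982650564067375) (l 141841088347340847)) (c (l 141934959233384495) (l 141763435323441199))) (a (b (l 142150600943140911) (c (l 142012062517198895) (l 141823771047804975))) (b (l 142017560052875311) (l 141977015549411375)))))), by decide +kernel⟩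

def k10_pm_102_a : ∃ t, chk3 f_pm_102_a t 16 62 1 = true :=
  ⟨(a (a (l 2) (b (c (l 141701656532680751) (l 141563255426842671)) (c (l 141642214169378863) (l 141476875028152367)))) (a (b (c (l 141764534870310959) (l 141598783407980591)) (c (l 141712995249029167) (l 141519412397408303))) (b (c (l 141826657295663151) (l 141637747364446255)) (c (a (l 141771269380735023) (l 141797314073444399)) (a (l 141555833731072047) (l 141576793179389999)))))), by decide +kernel⟩

def k11_pm_102_a : ∃ t, chk3 f_pm_102_a t 64 63 1 = true :=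
  ⟨(a (b (l 2) (b (a (l 2) (c (l 141478936649089071) (l 141295249411653679))) (c (c (b (l 175294243985640436606615599) (c (b (l 141503194643431471) (c (b (l 141509173241610287) (a (a (l 141491993367543855) (l 141502095133491247)) (l 141517763178610735))) (a (a (l 141475294525964335) (l 141484915255476271)) (l 141499758666661935)))) (b (l 141465330193334319) (a (a (a (l 141467254332915759) (l 141449181111828527)) (a (l 141453579159633967) (l 141458114646409263))) (c (l 141479898728546351) (l 141459145437167663)))))) (b (l 141411110500237359) (c (b (l 141423754891280431) (a (c (b (l 141422036905639983) (l 141419219406438447)) (l 141398947151822895)) (c (l 141437498792525871) (l 141415027514130479)))) (b (l 141378537456730159) (a (c (l 141376338434621487) (l 141352836364156975)) (l 141402039518658607)))))) (c (b (l 141315933986947119) (c (b (l 141329746609160239) (a (c (l 141328372220952623) (l 141303014724501551)) (l 141329196853952559))) (b (l 141277313629077551) (a (l 141263226133053487) (l 141275320764612655))))) (b (l 141206257663148079)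 (a (c (b (l 141216015834677295) (l 141207013581652015)) (l 141152037981405231)) (c (l 141222269309534255) (l 141161796150018095)))))))) (b (c (b (l 141553840898457647) (l 141527796210139183)) (b (l 141387333529370671) (l 141348232139882543))) (c (b (c (l 141544014019870767) (l 141461069573111855)) (c (b (l 141530544998793263) (c (b (l 141544907377442863) (a (c (l 141540371892731951) (l 141520374515482671)) (l 141552603960934447))) (b (l 141502988477333551) (a (c (l 141499552504463407) (l 141477837140181039)) (l 141508829634641967))))) (b (l 141442584029823023) (c (b (l 141457771042144303) (a (l 141443683545710639) (l 141461756773285935))) (b (l 141409255071875119) (a (l 141395167575572527) (l 141411522815803439))))))) (b (c (l 141364724827553839) (l 141255117222133807)) (c (b (l 141341291481546799) (a (c (l 141346720325369903) (l 141291813443534895)) (c (l 141361288858746927) (l 141304938867507247)))) (b (l 141226804792934447) (b (l 141213267053740079) (a (l 141198767241003055) (l 141210105958039599))))))))), by decide +kernel⟩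

def k12_pm_102_a : ∃ t, chk3 f_pm_102_a t 65 63 1 = true :=
  ⟨(b (c (b (l 141603387654946863) (c (l 141623110159106095) (l 141535217908072495))) (b (l 141417913706135599) (c (l 141435712064765999) (l 141324661348663343)))) (c (b (c (a (l 141584695961206831) (l 141629020035530799)) (a (l 141493986211905583) (l 141529926508281903))) (c (a (b (l 141573013647065135) (c (b (l 141590537122381871) (a (l 141575762430902319) (c (l 141611496570404911) (l 141588131938074671)))) (b (l 141544288894320687) (a (l 141529789080879151) (l 141551710599954479))))) (b (c (l 141643726011514927) (l 141594247967227951)) (c (b (l 141640221317234735) (c (b (l 141696090256703535) (a (l 141636854064005167) (c (l 141692723008340015) (l 141657401191907375)))) (a (l 141612733517316143) (l 141638365888888879)))) (b (l 141589368883249199) (a (l 141574525472423983) (c (l 141611840160088111) (l 141584695955947567))))))) (a (b (l 141477149936500783) (a (c (l 141483059816923183) (l 141431382750036015)) (c (l 141502713592774703) (l 141449112380080175)))) (b (l 141514876939780143)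 (a (a (l 141490825116958767) (l 141500720724377647)) (c (l 141544632485101615) (l 141486908102869039))))))) (b (c (a (l 141391113114484783) (l 141420044022612015)) (a (l 141276282827391023) (l 141299372578488367))) (c (a (b (l 141369260316835887) (b (l 141358883673964591) (a (l 141344590019412015) (l 141359914467164207)))) (b (l 141399771773321263) (a (l 141424029744087087) (l 141395511165927471)))) (a (b (l 141249344788037679) (c (l 141264188202827823) (l 141199591873429551))) (b (l 141273946367950895) (c (l 141291194965049391) (l 141223849855795247)))))))), by decide +kernel⟩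

def k13_pm_102_a : ∃ t, chk3 f_pm_102_a t 33 126 2 = true :=
  ⟨(a (b (l 141680697086738479) (c (l 141714300928294959) (l 141608816487743535))) (a (a (l 141908296005894191) (l 141746118046859311)) (b (l 141774361762611247) (l 141762816887996463)))), by decide +kernel⟩

def k14_pm_102_a : ∃ t, chk3 f_pm_102_a t 66 127 2 = true :=
  ⟨(a (b (c (l 141677192401256495) (l 141569096620720175)) (c (c (b (l 141696502583296047) (a (b (l 141680216063098927) (b (l 141678979112222767) (a (c (l 141707222820651055) (l 141657813505916975)) (c (c (l 141705848437571631) (l 141692173256163375)) (l 141671419965849647))))) (b (l 141708184897323055) (b (l 141707291543896111) (c (b (l 141721104164274223) (a (a (l 141709834167222319) (l 141739727141486639)) (c (a (l 141731755686920239) (l 141739314831278127)) (l 141721172882767919)))) (a (l 141685301303754799) (l 141699457519599663))))))) (b (l 141642076735684655) (b (l 141638228444151855) (a (c (l 141637266373181487) (l 141608885218213935)) (a (l 141642351613984815) (l 141700557014204463)))))) (b (l 141555971198074927)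 (c (b (l 141580023025025071) (a (l 141565179614347311) (l 141588544242679855))) (a (l 141507042915090479) (l 141527933641736239)))))) (b (c (l 141729350497370159) (l 141611633988157487)) (c (b (c (l 141753539763437615) (l 141693753795575855)) (c (b (a (l 141737253243371567) (l 141767421101260847)) (b (a (l 141736634767949871) (l 141767146223304751)) (c (b (a (l 141796351998967855) (l 141782676830978095)) (b (a (a (l 141743575438884911) (l 141758968605556783)) (a (l 141774705369677871) (l 141790717011771439))) (a (c (a (c (a (l 141750653548314671) (l 141758418851151919)) (l 141747148853100591)) (b (l 141766459031437359) (c (a (c (l 141768108300075055) (l 141764397446873135)) (a (l 141772231469449263) (l 141776217200099375))) (l 141773949452943407)))) (a (l 141736085013020719) (l 141751409460199471))) (a (c (a (c (c (a (l 141782127076835375) (l 141786181526962223)) (l 141780340369457199)) (l 141774567931215919)) (c (c (a (l 141790167257628719) (l 141794290427248687)) (l 141788380550250543)) (l 141782539392516143))) (l 141789480054226991))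 (c (b (l 141798619754594351) (c (a (c (a (l 141798344877391919) (l 141802468047028271)) (l 141796489450537007)) (a (l 141804598351069231) (l 141808790240182319))) (a (l 141790579573309487) (l 141798757193072687)))) (l 141788380546580527)))))) (b (a (l 141721379038265391) (l 141751272018231343)) (a (a (l 141713819893923887) (l 141728525865697327)) (a (l 141788586692165679) (l 141781371150975023))))))) (b (l 141691005015998511) (a (b (l 141676092885794863) (a (l 141668465021976623) (l 141727151458648111))) (c (a (l 141712308061225007) (l 141726807874519087)) (l 141732305418911791)))))) (b (l 141600432711401519) (c (b (l 141627851793498159) (a (l 141657882201145391) (c (l 141654583678844975) (l 141621392159670319)))) (a (l 141549717721743407) (l 141572395155111983))))))), by decide +kernel⟩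

def k15_pm_102_a : ∃ t, chk3 f_pm_102_a t 67 254 2 = true :=
  ⟨(a (a (c (l 141771063230201903) (l 141645650138087471)) (l 141909395520028719)) (a (l 141745980611215407) (b (l 141765015913529391) (c (l 141828031698026543) (l 141694578423808047))))), by decide +kernel⟩

def k16_pm_102_a : ∃ t, chk3 f_pm_102_a t 67 510 2 = true :=
  ⟨(a (a (c (l 141767283658194991) (l 141636029409722415)) (c (l 141789961093054511) (l 141655751906000943))) (b (a (c (l 141808721517903919) (l 141673893854625839)) (l 141760342987374639)) (a (a (l 141736359882047535) (a (l 141923345580851247) (l 141747767319216175))) (l 141759380913881135)))), by decide +kernel⟩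

def k17_pm_102_a : ∃ t, chk3 f_pm_102_a t 67 511 2 = true :=
  ⟨(a (a (a (b (c (l 141758625002061871) (l 141625790205460527)) (c (c (b (l 141790717009723439) (b (l 141790717009756207) (c (b (l 141807003531804719) (c (a (c (a (l 141812913409818671) (l 141817036579455023)) (l 141806934812835887)) (a (l 141817174017933359) (l 141821365907046447))) (l 141798894630551599))) (l 141774361768263727)))) (c (l 141741582565752879) (l 141708322326937647))) (c (l 141657538615476271) (l 141588406797647919)))) (c (c (b (l 141806522493304879) (b (a (l 141802742921150511) (l 141810508224036911)) (a (b (l 141802811640676399) (c (c (a (l 141825557796143151) (l 141829749685272623)) (l 141811126700441647)) (l 141786250240704559))) (a (c (c (l 141833872854892591) (l 141817311454871599)) (l 141792228836671535)) (c (a (a (a (a (l 141827825538416687) (l 141828031696912431)) (l 141828306574917679)) (l 141828718891974703)) (l 141829680965042223)) (l 141795527372554287)))))) (b (l 141740414332403759) (a (l 141781027542155311) (a (l 141741513844441135) (l 141789686198566959)))))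 (a (c (l 141668465014964271) (l 141598852160684079)) (b (l 141641183372329007) (a (l 141637472519897135) (l 141730312533803055)))))) (c (b (l 141789411337273391) (b (c (c (l 141839782732431407) (l 141806247615365167)) (l 141755257744998447)) (a (c (b (l 141818342247497775) (c (a (l 141855313331191855) (l 141837789866721327)) (l 141801574689030191))) (l 141795321198051375)) (c (a (c (l 141842668951650351) (l 141808858956595247)) (a (a (l 141828925051355183) (b (l 141830093282934831) (a (l 141874967101194287) (b (l 141830505599991855) (l 141830643038928943))))) (b (l 141831948709527599) (b (l 141832086148431919) (l 141832154867826735))))) (a (l 141757388049760303) (b (l 141762198415015983) (a (l 141805972721270831) (l 141763297926987823)))))))) (b (l 141652109773291567) (a (c (l 141680971963990063) (l 141609916000272431)) (a (l 141652247212884015) (b (l 141657126297485359) (b (l 141656439102636079) (a (l 141654858554212399) (l 141657057578188847))))))))) (b (a (a (a (c (l 141801368531140655) (l 141663036174303279)) (c (b (l 141806178896379951)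 (l 141806247615643695)) (l 141667434222321711))) (l 141924719970385967)) (l 141893796209557551)) (c (b (a (a (a (b (l 141801437250601007) (l 141891528484503599)) (l 141806316334743599)) (l 141813738040164399)) (l 141828718889992239)) (c (a (a (l 141838339622502447) (l 141893521364959279)) (a (l 141903829289123887) (a (l 141866583334748207) (l 141871806016340015)))) (a (l 141774155607261231) (l 141793740663242799)))) (a (b (a (c (l 141699388790439983) (l 141627783070466095)) (l 141672656903782447)) (l 141667296782991407)) (c (l 141722203662647343) (l 141649017394446383)))))), by decide +kernel⟩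

def k18_pm_102_a : ∃ t, chk3 f_pm_102_a t 33 63 3 = true :=
  ⟨(b (a (b (l 141466154793238575) (c (l 141494398514757679) (l 141371047009353775))) (a (b (l 141507042893955119) (l 141477974550380591)) (l 141697739448303663))) (a (b (c (a (l 141451586271412271) (l 141485808580362287)) (a (l 141324523914362927) (l 141351805554507823))) (c (a (b (l 141433032009465903) (c (l 141499140155523119) (l 141388433055809583))) (b (l 141469041025286191) (c (b (l 141495566753857583) (l 141491168706674735)) (l 141423754876715055)))) (c (b (l 141349606535168047) (a (l 141320469470543919) (l 141352149158264879))) (a (l 141258003444498479) (l 141285903560032303))))) (a (b (a (l 141444302000226351) (l 141459282850906159)) (a (c (b (l 141497903213412399) (c (b (l 141526765404749871) (l 141522848394035247)) (l 141451998589435951))) (b (l 141352698910834735) (l 141339642208387119))) (b (l 141441965540229167) (a (c (l 141502301262790703) (l 141351324522922031)) (c (b (l 141512334309507119) (c (l 141590468366549039) (l 141470759013040175))) (l 141358608789831727))))))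 (b (a (l 141473301629075503) (b (l 141493436441608239) (l 141662486352592943))) (b (a (c (a (l 141526627964354607) (l 141534461987389487)) (l 141381698539143215)) (c (l 141546144301891631) (l 141395648597147695))) (a (b (c (a (l 141520305771577391) (l 141528208513777711)) (l 141372352688930863)) (c (b (l 141611290359332911) (l 141519274979524655)) (l 141366236654501935))) (c (l 141538172840689711) (l 141383347808698415)))))))), by decide +kernel⟩

def k19_pm_102_a : ∃ t, chk3 f_pm_102_a t 34 62 1 = true :=
  ⟨(b (a (c (l 141871118817706031) (l 141674031263121455)) (c (l 142105108658225199) (l 141717187111157807))) (a (b (l 141738696330723375) (c (l 141832086144761903) (l 141596653118603311))) (a (b (l 141779446995976239) (l 141761442488434735)) (l 141800956198780975)))), by decide +kernel⟩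

def k20_pm_102_a : ∃ t, chk3 f_pm_102_a t 34 126 1 = true :=
  ⟨(b (a (a (c (l 141805148101034031) (l 141556933252022319)) (c (l 141838477059113007) (l 141583871295946799))) (l 141762816877985839)) (a (a (c (b (l 141798207432179759) (l 141794634018095151)) (b (l 141538104112316463) (l 141526284360269871))) (l 141699526222086191)) (c (l 141889879239229487) (l 141606411292590127)))), by decide +kernel⟩

def k21_pm_102_a : ∃ t, chk3 f_pm_102_a t 34 127 1 = true :=
  ⟨(b (b (a (a (c (a (l 141782745544671279) (l 141801024930512943)) (l 141514945644527663)) (l 141690111650840623)) (c (l 141889535639715887) (l 141592942272348207))) (a (c (l 141808790232186927) (l 141519412412645423)) (c (l 141890291552763951) (l 141584833372389423)))) (a (a (c (b (l 141878403055484975) (c (b (l 141858955468226607) (a (b (l 141849197299367983) (b (l 141928362136322095) (c (c (a (l 141897507109011503) (l 14)) (l 141867614125162543)) (l 141813944194547759)))) (b (l 141870225464655919) (c (c (l 14) (a (l 141883488328482863) (l 141894277289099311))) (c (l 141852770710798383)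 (l 141816211936215087)))))) (b (l 141715056832446511) (c (a (l 141741238962716719) (l 141760824018698287)) (a (l 141667090621628463) (l 141685644885245999)))))) (b (l 141494261077917743) (c (a (l 141554665519579183) (l 141571570515410991)) (l 141405131888934959)))) (c (b (l 141918191642902575) (c (b (l 141901630274240559) (b (c (l 141939219840729135) (l 141865964852330543)) (c (l 14) (a (a (l 141850365526704175) (l 141861085767843887)) (a (l 141917023424675887) (a (l 141880258506735663) (l 141885756066283567))))))) (b (l 141753677188497455) (c (a (l 141825970087870511) (b (l 141801574679101487) (l 141801643398299695))) (a (l 141704748904792111) (l 141724402680250415)))))) (b (l 141526078204379183) (c (a (l 141679116501172271) (l 141697052289384495)) (l 141435986942492719))))) (c (b (c (a (l 141943617886601263) (l 141989866106142767)) (a (l 141794977605435439) (l 141837033936044079))) (c (b (a (l 141946504103968815) (l 141993645676904495)) (a (c (l 14) (c (l 14) (a (a (l 141874829665108015) (l 141885962223173679)) (a (l 141897232220225583)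 (a (l 141905753437503535) (l 141911525875007535)))))) (l 14))) (a (b (l 141794496568262703) (c (a (b (l 141822671563882543) (l 141867957698822191)) (a (l 141839026803392559) (l 141895101899227183))) (a (l 141744606211653679) (l 141765290779492399)))) (b (l 141837446252232751) (b (c (l 141877922037284911) (l 141797382783467567)) (c (a (a (l 141861498077839407) (l 141872768074907695)) (a (l 141929324207161391) (a (l 141892971606179887) (l 141898812763177007)))) (a (l 141786525103161391) (l 141808446621843503)))))))) (b (c (l 141793603167862831) (l 141494879549112367)) (c (a (b (l 141636029401743407) (c (l 141764603555397679) (l 141592598678470703))) (b (l 141674855916240943) (a (l 141843218631114799) (l 141773399647993903)))) (a (l 141468834861285423) (b (l 141505737229975599) (l 141501751499636783)))))))), by decide +kernel⟩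

def k22_pm_102_a : ∃ t, chk3 f_pm_102_a t 35 31 1 = true :=
  ⟨(b (b (a (b (l 141889673069101103) (l 141872355755687983)) (l 141944992263110703)) (a (l 141850365516218415) (l 142103802966114351))) (b (b (a (l 141834353872551983) (l 141915030559359023)) (a (c (l 141974060619989039) (l 141674443593121839)) (c (l 142068275046383663) (l 141751615585927215)))) (b (a (c (a (l 141955781231558703) (l 142002854085001263)) (a (l 141642420309098543) (l 141680971945721903))) (c (b (l 142075421871357999) (l 142171216821731375)) (b (l 141745087234113583) (l 141921765007949871)))) (c (c (l 14) (b (a (a (l 141881289290383407) (l 141928087265853487)) (a (l 141977290423533615) (l 142028967482851375))) (c (a (a (b (l 141923414342860847) (c (l 14) (b (l 141904172882329647) (a (a (l 141887199166988335) (l 141899018919952431)) (a (l 141910907392442415) (l 14)))))) (l 14)) (l 14)) (a (a (b (l 141841569418608687) (b (l 141932072969240623) (a (a (l 141825214178426927) (l 141836621614465071)) (c (l 141875104532742191) (l 141832773321228335))))) (b (l 141888161235615791)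 (b (l 141889054588665903) (a (c (l 141932760179736623) (l 141856137949216815)) (a (l 141940800356089903) (a (l 141904928791527471) (l 141911113545973807))))))) (c (l 14) (a (b (l 141915374153580591) (b (l 141916404945649711) (a (l 141949733888704559) (b (l 141929667807772719) (l 14))))) (l 14))))))) (a (b (a (c (l 141717874319999023) (l 141547930999357487)) (l 141854145025523759)) (c (a (b (l 141715812734992431) (c (a (b (l 141746873949143087) (l 141746599071039535)) (l 141768658028773423)) (a (l 141661112014651439) (l 141681934021476399)))) (b (l 141759174735921199) (b (l 141938876167340079) (c (a (l 141791129303302191) (l 141814287772811311)) (l 141804048539828271))))) (a (a (l 141531300882268207) (l 141550336182321199)) (a (l 141569989957795887) (l 141770307237724207))))) (a (b (l 141896751112060975) (c (b (l 141804804480041007) (c (a (b (l 141837721120440367) (l 141928087232266287)) (a (l 141856000505757743) (l 141958392529174575))) (a (l 141747836016492591) (l 141770994486001711)))) (b (l 141622697809952815) (c (l 141667090605768751)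 (l 141573219772088367))))) (b (l 141941693661282351) (c (b (l 141852839406354479) (c (b (l 141899362506489903) (a (c (l 141955231445106735) (l 141864315562967087)) (c (l 14) (l 141889604336697391)))) (a (l 141794702711439407) (l 141864109389037615)))) (b (l 141666265969344559) (a (l 141653209265618991) (l 141856000447217711))))))))))), by decide +kernel⟩

def k23_pm_102_a : ∃ t, chk3 f_pm_102_a t 18 30 1 = true :=
  ⟨(a (a (b (c (l 16646992) (l 16574608)) (l 142055836812083247)) (b (l 16628832) (l 142124899905028143))) (b (l 142548074490937391) (c (l 142339098603045039) (l 142304807470235695)))), by decide +kernel⟩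

def k24_pm_102_a : ∃ t, chk3 f_pm_102_a t 18 62 1 = true :=
  ⟨(b (a (a (l 142018315964497967) (l 142102840942788655)) (b (l 142282130094506031) (l 142287077895651375))) (a (a (l 142007320842534959) (l 142101054232559663)) (a (l 142220832306200623) (l 142197261551763503)))), by decide +kernel⟩

def k25_pm_102_a : ∃ t, chk3 f_pm_102_a t 18 126 1 = true :=
  ⟨(b (a (a (l 142006015169773615) (l 142106620508864559)) (a (l 142238630650806319) (l 142217052762062895))) (b (a (a (l 142007664436379695) (l 142111843188965423)) (a (l 142249900645580847) (l 142229284829921327))) (a (a (l 142189771049353263) (l 142206332469608495)) (a (l 142258353141792815) (l 142283298339471407))))), by decide +kernel⟩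

def k26_pm_102_a : ∃ t, chk3 f_pm_102_a t 18 127 2 = true :=
  ⟨(a (c (a (a (l 14) (b (l 142401702014271663) (b (l 142239317891842223) (b (l 142158641226842287) (c (b (l 142144553750495407) (a (c (l 142523129352437935) (l 14)) (l 142528901787812015))) (l 14)))))) (b (l 142163795207176367) (b (a (l 142501895026999471) (l 142582296828952751)) (a (b (l 142151219538002095) (a (c (l 142568003177185455) (l 14)) (c (l 142608341517189295) (a (l 14) (l 142478461676454063))))) (c (a (l 142644694127132847) (l 142684001674789039)) (b (l 142522785747370159) (b (l 142167368614150319) (a (l 142420599882645679) (l 142551098176127151))))))))) (l 14)) (b (a (b (l 142180287877841071) (l 142191626592518319)) (b (l 142513096330100911) (l 142164551145373871))) (a (c (a (b (l 142660843204657327) (b (l 142670738810273967) (c (l 142745574336561327) (a (l 142589306212106415) (l 142628682479255727))))) (b (l 142737396715176111) (a (a (l 142722278426689711) (l 142741382444581039)) (l 142589581125484719)))) (c (b (l 142225367841472687) (a (a (l 14) (b (l 142484715144069295)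 (a (l 142390844337733807) (l 142501001662496943)))) (b (l 142544363660411055) (b (l 142368922836828335) (a (l 142532475188314287) (l 142571920174956719)))))) (l 14))) (a (b (l 142251824875618479) (c (a (l 142807146995433647) (l 142844118080438447)) (b (l 142194375364100271) (a (c (l 142609303577018543) (l 14)) (c (l 142647786490790063) (a (l 142502582204694703) (l 142522235978514607))))))) (c (b (l 142885006177042607) (c (l 142963689994420399) (l 142833397836808367))) (b (l 142622360277631151) (c (a (l 142682558552326319) (l 142720079393243311)) (b (l 142564635903459503) (b (l 142569240108990639) (a (l 142553022309466287) (l 142591573942730927))))))))))), by decide +kernel⟩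

def k27_pm_102_a : ∃ t, chk3 f_pm_102_a t 18 127 3 = true :=
  ⟨(c (a (b (a (l 141925201034543151) (l 142030822896435247)) (a (b (a (l 141901905125359663) (l 141954063221112879)) (a (b (l 141903348234338351) (a (b (l 141891253603221551) (c (c (l 14) (l 141960522843111471)) (l 141844180747010095))) (c (l 14) (a (l 141863216046833711) (l 141966226545655855))))) (b (l 141956399683469359) (c (l 14) (b (l 141908914510217263) (a (c (l 141965676802195503) (l 141871599823650863)) (c (l 14) (l 141898262987194415)))))))) (a (b (l 142008695218569263) (b (l 142011993753780271) (c (l 14) (a (b (l 141949871328411695) (c (l 14) (l 141970624602898479))) (l 14))))) (l 14)))) (l 14)) (a (a (b (l 141742269729210415) (b (a (l 141714232176050223) (l 141761717346435119)) (a (b (l 141712170591420463) (c (a (l 141747836011331631) (l 141772300151160879)) (l 141661524322189359))) (b (l 141760480395690031) (c (a (l 141797314046935087) (l 141913106371608623)) (a (l 141697121020084271) (l 141721653879390255))))))) (b (l 141838545740365871) (b (a (l 141811676418474031)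 (l 141864178111692847)) (a (b (l 141811332821106735) (c (a (b (l 141849265984208943) (l 141849540862165039)) (a (l 141869538234826799) (l 141973304648056879))) (a (l 141746805214134319) (l 141772575024300079)))) (b (l 141864796587180079) (c (b (l 141917779319324719) (a (c (l 141975434964697135) (l 141878196889698351)) (c (l 14) (l 141906303162548271)))) (a (l 141799032029364271) (l 141916198743851055)))))))) (b (a (l 141945060955619375) (l 142062296411455535)) (a (b (a (l 141919291145568303) (l 141977221678546991)) (a (b (l 141920940413403183) (a (b (l 141907540112162863) (c (c (l 14) (l 141980107887575087)) (l 141854076343730223))) (c (l 14) (a (l 141875173228216367) (l 141889535602360367))))) (b (l 141979833019252783) (c (l 14) (b (l 141925956933845039) (a (c (l 141984574652071983) (l 141883969322188847)) (c (l 14) (l 141913587423838255)))))))) (a (b (l 142037832271691823) (a (b (l 142025806360281135) (b (l 142027730506039343) (l 14))) (l 14))) (l 14)))))), by decide +kernel⟩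

def k28_pm_102_a : ∃ t, chk3 f_pm_102_a t 19 30 1 = true :=
  ⟨(a (b (l 16660120) (a (l 142315871396151343) (l 142450630310789167))) (b (l 16635072) (b (l 16632704) (c (l 143042442525982831) (l 142423760971890863))))), by decide +kernel⟩

def k29_pm_102_a : ∃ t, chk3 f_pm_102_a t 19 62 1 = true :=
  ⟨(b (a (a (l 142506636660310063) (l 142646549537472559)) (b (l 142479217642897519) (l 142490968674648175))) (b (a (l 142412422269698095) (a (l 142798144726335599) (l 142750590870241391))) (a (a (l 142533368537759791) (l 142676579951132719)) (a (c (l 143047871361237103) (l 142571782717210799)) (a (l 142914211941236847) (l 142982038076178543)))))), by decide +kernel⟩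

def k30_pm_102_a : ∃ t, chk3 f_pm_102_a t 38 63 1 = true :=
  ⟨(c (b (a (b (l 142800687361163439) (l 142821440645316783)) (b (l 142937645301285039) (l 142959223219634351))) (b (a (a (c (l 142936270916698287) (l 142679741051617455)) (l 142699669741355183)) (a (l 142949052734374063) (c (l 143138374932578479) (l 142893115063779503)))) (b (a (b (l 142319651030876335) (a (l 142650604025413807) (l 142901979883765935))) (a (l 142787974283509935) (a (l 142838895424651439) (l 143052681722626223)))) (a (a (c (l 142969874744967343) (b (l 142706679089938607) (a (a (l 142685101170163887) (l 142703724151652527)) (l 142731555544629423)))) (c (l 143039281428644015) (a (c (l 142829893136384175) (l 142699669698887855)) (l 142801168386932911)))) (a (c (l 143106901405597871) (a (l 142836833801633967) (b (l 142868857083510959) (c (l 142938950965035183) (l 142811476307132591))))) (c (l 143172872114798767) (a (b (l 142903766583804079) (l 142910294935077039)) (l 142941562302562479)))))))) (b (b (l 142276151493148719) (a (l 142123937840791599) (l 142276769983266863)))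 (c (b (a (l 142274777123487919) (a (l 142567934430855343) (b (l 142635829285748911) (l 142646480806248623)))) (a (c (a (c (b (l 142532200300642479) (b (l 142540927675367599) (a (l 142527664813785263) (l 142566010288570543)))) (l 14)) (b (l 142574943821168815) (b (l 142583602476482735) (a (c (l 142603874726936751) (l 142537422978384047)) (l 142608410211778735))))) (l 14)) (a (b (l 142584083510263983) (b (l 142232377229639855) (c (a (l 142645587455246511) (a (l 142673212689760431) (a (l 142686887868039343) (l 142696027560050863)))) (c (a (l 142546906265092271) (b (l 142582915277275311) (a (l 142576593084252335) (a (l 142590543140487343) (l 142599820271485103))))) (l 14))))) (b (a (l 142279037762683055) (l 142675824027746479)) (b (a (a (l 142638852942643375) (l 142657132326666415)) (l 142684482683207855)) (c (b (l 142735197668704431) (l 142738221304692911)) (a (b (l 142587382042706095) (l 142590336980680879)) (l 142625727517458607)))))))) (l 14)))), by decide +kernel⟩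

def k31_pm_102_a : ∃ t, chk3 f_pm_102_a t 39 63 1 = true :=
  ⟨(a (a (b (b (l 142256154211778735) (c (l 143058454160900271) (l 142207088452780207))) (b (c (c (l 143202971251818671) (l 142961559674437807)) (b (l 142581747042255023) (l 142411872497451183))) (c (c (l 143230321607557295) (b (l 142979976497021103) (l 142992552163229871))) (b (c (l 142729974984900783) (l 142113080186470575)) (b (c (l 142558313733390511) (l 142278281809854639)) (c (c (l 142807628009914543) (a (l 142662217566011567) (l 142698157858668719))) (c (c (a (l 142565185643839663) (l 142601881850871983)) (l 14)) (l 14)))))))) (b (b (l 142324530102681711) (l 142345214668341359)) (c (b (l 143148407970758767) (c (l 143293199939698799) (b (l 143046771840041135) (l 143059003908866223)))) (b (l 142299859762266287) (b (c (l 142800687338815663) (l 142187709551280303)) (c (b (l 142808796238430383) (a (l 142796907766841519) (l 142831542389194927))) (b (l 142285016331616431) (c (a (c (l 142638165740978351) (l 142573981735862447)) (l 142642220189515951)) (l 14))))))))) (b (b (l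 142427059579371631) (c (l 143219807519752303) (l 142388507902623919))) (c (b (c (l 143358620893331695) (l 143126761325052079)) (a (c (l 143354429004103919) (l 143027805276766383)) (c (l 143413802642276591) (l 143180912281895087)))) (c (b (a (l 142854357259550895) (l 142922252114329775)) (a (b (l 142869681705484463) (a (l 142863153354031279) (l 142896963342516399))) (b (l 142936958084939951) (c (l 143007326844305583) (l 142795739548549295))))) (b (l 142283504518463663) (a (b (l 142260620928843951) (b (l 142267424158285999) (c (a (l 142677816884723887) (l 142713069982482607)) (a (c (l 142582502949994671) (l 14)) (a (l 142577692584558767) (l 142595628371148975)))))) (b (l 142692041816228015) (c (a (l 142745574300647599) (l 142779865325551791)) (b (l 142635966710988975) (a (c (l 142653902498857135) (l 142590749286236335)) (l 142567522094563503))))))))))), by decide +kernel⟩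

def k32_pm_102_a : ∃ t, chk3 f_pm_102_a t 5 6 1 = true :=
  ⟨(a (b (a (l 16682152) (l 16703776)) (a (l 16686696) (l 16666544))) (b (a (b (l 16706656) (l 16728336)) (b (l 16724416) (l 16730160))) (a (b (l 16731176) (l 16737256)) (b (l 16754376) (l 16761256))))), by decide +kernel⟩

def k33_pm_102_a : ∃ t, chk3 f_pm_102_a t 10 14 1 = true :=
  ⟨(a (b (l 16695296) (b (l 16638776) (a (l 16696752) (l 16710600)))) (b (a (l 16711216) (l 16725320)) (b (l 16728136) (a (b (l 16725888) (l 16728288)) (b (l 16742048) (l 16746896)))))), by decide +kernel⟩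

def k34_pm_102_a : ∃ t, chk3 f_pm_102_a t 10 30 1 = true :=
  ⟨(a (b (a (a (l 16688696) (l 16696568)) (a (l 16705480) (l 16715296))) (a (a (b (l 16687656) (a (l 142976265641230447) (l 143032065866580079))) (b (l 16697064) (l 143119408337502319))) (c (a (l 16730816) (l 16739336)) (b (l 16690088) (a (l 16686176) (l 16697024)))))) (c (a (b (l 16748784) (l 16751480)) (b (l 16764608) (l 16767352))) (b (a (l 16710232) (l 16731448)) (a (b (l 16711616) (l 143361094766231791)) (b (l 16732880) (l 16734208)))))), by decide +kernel⟩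

def k35_pm_102_a : ∃ t, chk3 f_pm_102_a t 10 31 2 = true :=
  ⟨(a (b (a (a (b (l 143242141356736623) (l 143280486830293103)) (b (l 143346251383636207) (a (l 143357796256579823) (l 143407068130541807)))) (a (b (l 143447406471807215) (l 143477574326239471)) (a (l 143533993027076335) (l 143581684352205039)))) (a (a (b (b (l 143310929563123823) (a (l 143307631026700399) (l 143357521376690287))) (b (a (c (l 143442183792083183) (l 143216371538837615)) (b (l 143372502224863343) (l 143381848074977391))) (a (a (b (l 143335187540836463) (a (l 143160571351089263) (l 143352023815487599))) (b (l 143358483448037487) (l 143368172895535215))) (c (l 143506573953057007) (l 143283785357607023))))) (b (b (l 143409129714122991) (l 143426240866173167)) (b (l 143443833054593263) (c (l 143568077896155375) (a (l 143330789488410863) (l 143378412094570735)))))) (b (a (l 143509322728849647) (l 143602368916947183)) (b (a (l 143534405341429999) (l 143626558176362735)) (a (b (l 143367279532949743) (a (l 143533718102753519) (l 143579073008664815))) (c (l 143736784242409775)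 (l 143548973866991855))))))) (a (b (b (l 143687855962325295) (l 143714587842822447)) (b (a (l 143696445897228591) (l 143791003913797935)) (a (b (l 143719741803479343) (l 143735959559635247)) (c (l 143900542785012015) (l 143741388436439343))))) (b (b (l 16769968) (l 143905421862404399)) (b (a (l 143885561930219823) (l 143978882995634479)) (a (c (l 143986991901933935) (l 143842062487634223)) (l 144006920547172655)))))), by decide +kernel⟩

def k36_pm_102_a : ∃ t, chk3 f_pm_102_a t 20 62 3 = true :=
  ⟨(a (a (b (l 142813812756299951) (b (l 142833878846947503) (l 142848378659094703))) (b (l 142939431983054959) (a (l 142933934423867567) (b (l 142989116173893743) (l 143001004645466223))))) (a (b (a (l 143034058719740015) (l 143095768820793455)) (l 143085117300031599)) (b (l 143188127813714031) (l 143207094392881263)))), by decide +kernel⟩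

def k37_pm_102_a : ∃ t, chk3 f_pm_102_a t 40 63 3 = true :=
  ⟨(a (b (a (b (l 142832985493143727) (l 142849203292586159)) (b (l 142893802241753263) (c (l 143023544642355375) (l 142792784587931823)))) (b (b (a (l 142861641520136367) (c (l 143035707991769263) (l 142803161230819503))) (a (a (l 142855525485412527) (l 142884868707713199)) (l 142927406071775407))) (b (a (c (a (l 142984374532440239) (l 143011656169980079)) (a (a (l 142734922777313455) (l 142750178504130735)) (l 142682421104312495))) (c (l 143051169876443311) (l 142816836409049263))) (a (c (a (a (l 142986848433897647) (l 143000248734433455)) (l 143019765069463727)) (a (a (b (l 142741038811922607) (c (l 142806665926279343) (a (b (l 142678297916178607) (l 142680222061887663)) (l 142686819132899503)))) (b (l 142755950941241519) (c (l 142820959580127407) (l 142698020409704623)))) (c (l 142840338476236975) (b (l 142716918269395119) (a (l 142713001258434735) (a (l 142724339974209711) (l 142731830398582959))))))) (a (c (l 143045947194982575) (c (l 142868925783883951) (b (l 142747223564271791)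 (c (l 142780964834476207) (a (l 142712863818596527) (a (l 142724408692850863) (l 142732105275670703))))))) (c (l 143072335478964399) (b (l 142837108658372783) (c (l 142899643395670191) (c (l 142811063968202927) (b (l 142750659537846447) (a (a (l 142740763931345071) (l 142748529233658031)) (b (l 142759730510463151) (a (l 142756706852913327) (l 142764472155226287)))))))))))))) (b (b (a (l 142954000514695343) (l 143012824397447279)) (c (l 143105939310166127) (l 142884799984205999))) (c (b (l 143120370402558063) (c (a (l 143164557036191919) (l 143217058726101231)) (b (l 143076046329381039) (a (l 143055774079860911) (l 143111505585799343))))) (b (a (l 142866932916928687) (l 142928230701416623)) (b (a (l 142876965962301615) (l 142938057588375727)) (a (b (l 142702006175449263) (a (c (l 142928780459212975) (b (l 142811270128468143) (c (l 142842331338604719) (c (l 142798350853243055) (b (l 142768457885188271) (a (l 142761448491892911) (l 142777253979832495))))))) (c (l 142958054961741999) (c (l 142872086877552815) (c (l 142828724872970415) (a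 (l 142791822506246319) (l 142807765433155759))))))) (a (c (l 142985886354964655) (b (l 142871193523257519) (a (a (l 142862741004599471) (l 142870643767345327)) (l 142882394778583215)))) (c (l 143015710613373103) (a (l 142896551004127407) (l 142912356497424559)))))))))), by decide +kernel⟩

def k38_pm_102_a : ∃ t, chk3 f_pm_102_a t 41 63 3 = true :=
  ⟨(b (a (c (l 143210392933810287) (l 143004165736923311)) (c (l 143323986249203951) (l 143132465023041647))) (c (a (b (l 143230665182838895) (a (c (l 143270247610859759) (l 143164419592650927)) (l 143272996388061423))) (b (l 143343365145100527) (a (l 143329002771824879) (l 143385558911434991)))) (c (a (b (l 143074534496239791) (a (b (l 143053918649483439) (l 143060721857446063)) (l 143118171371995311))) (b (l 143198160857301231) (a (l 143179675314897135) (l 143241797733138671)))) (a (b (l 142968706478506159) (b (l 142977914890191023) (a (a (l 142936270879735983) (l 142968294161776815)) (l 143016672682262703)))) (b (l 143099891983401135) (a (l 143078795100520623) (l 143144697090703535))))))),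 by decide +kernel⟩

def k39_pm_102_a : ∃ t, chk3 f_pm_102_a t 21 31 3 = true :=
  ⟨(a (b (b (l 143375869456875759) (a (l 143331064350769391) (l 143456408698306799))) (b (a (c (l 143439366271172847) (l 143262963332694255)) (c (l 143555845804818671) (l 143395110909903087))) (a (c (a (l 143435861577449711) (l 143493242350829807)) (b (l 143278768815767791) (a (l 143257946810941679) (l 143322886728188143)))) (c (b (l 143573437994369263) (l 143586082380595439)) (b (l 143410091759288559) (a (l 143388307681788143) (l 143453934793818351))))))) (b (a (b (l 16730560) (l 143582440240595183)) (l 143699469529071919)) (b (a (c (l 143672806374752559) (l 143528151840325871)) (l 143724071107772719)) (a (c (l 143695621245796655) (b (l 143542308055990511) (a (l 143519836783771887) (l 143585532615180527)))) (c (l 143809970475106607) (l 143677616729833775)))))), by decide +kernel⟩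

def k40_pm_102_a : ∃ t, chk3 f_pm_102_a t 11 7 1 = true :=
  ⟨(b (b (a (l 16747488) (a (l 16767040) (l 16776672))) (a (a (b (l 16751512) (l 16759696)) (l 16769592)) (a (l 16782768) (l 16792216)))) (b (a (a (b (l 16765376) (c (l 16782368) (l 16753720))) (b (c (l 16794128) (l 16771048)) (c (l 16796168) (l 16772264)))) (b (a (c (l 16805776) (l 16828936)) (c (l 16813560) (l 16798360))) (a (b (l 16797512) (l 16798936)) (l 16809336)))) (b (b (a (c (a (l 16785016) (l 16798808)) (a (l 143874223187132719) (l 16774464))) (a (c (l 16811008) (l 16790960)) (l 16811632))) (a (c (a (l 144090071127228783) (l 16800840)) (a (l 143887279891382575) (l 144116596823114031))) (a (c (l 16813024) (l 16792680)) (c (l 16822256) (l 16805616))))) (a (a (b (c (l 144114466546073967) (a (l 143844261493211439) (l 143961153342914863))) (c (a (l 144097011796623727) (l 144184697863733615)) (a (c (l 143921433485639983) (l 143804404186415407)) (c (l 144029872838377839) (l 143927686948765999))))) (b (c (l 144286883741466991) (a (l 144074677937373487) (l 144184491679203695)))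 (a (c (l 144269910029025647) (c (l 144135082374889839) (l 144047190138945839))) (c (l 144352304695066991) (b (l 144195555518349679) (l 144203801857999215)))))) (a (a (b (a (l 144325916397027695) (l 144370858941874543)) (c (l 144431469544898927) (a (l 144278774818767215) (l 144329489800708463)))) (b (l 144433943431119215) (c (b (l 16819792) (l 144509741041353071)) (c (l 144425284771840367) (a (l 144352442104283503) (l 144401370379272559)))))) (b (c (a (l 16822536) (l 16826336)) (a (l 16804728) (l 16810128))) (c (a (b (l 16824344) (c (l 16830824) (l 16820712))) (a (l 16827984) (l 16829840))) (a (b (l 144484589682671983) (a (c (l 16810256) (l 144450642252251503)) (c (l 16812960) (b (l 16804840) (c (l 16807272) (l 144487682053538159)))))) (b (l 16811680) (c (a (l 16815440) (l 16817712)) (a (b (l 16807680) (l 16808208)) (l 16810472)))))))))))), by decide +kernel⟩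

def k41_pm_102_a : ∃ t, chk3 f_pm_102_a t 12 8 1 = true :=
  ⟨(l 3), by decide +kernel⟩

def k42_pm_102_a : ∃ t, chk3 f_pm_102_a t 48 9 1 = true :=
  ⟨(b (b (a (b (l 3) (a (b (a (l 89288323431) (l 3)) (a (l 65666002263) (b (l 94120161223) (l 78550903143)))) (l 3))) (l 3)) (a (b (a (c (l 16770144) (l 16768320)) (b (a (b (l 86603965655) (l 68350355783)) (b (l 3) (l 96267643991))) (a (l 16768376) (b (c (l 80161517607) (l 80698385463)) (l 16767632))))) (a (l 16770576) (c (l 16770264) (l 16768208)))) (a (a (b (b (l 3) (b (l 107005061191) (c (l 88751451159) (l 89288320647)))) (c (l 63518519383) (b (l 67813483303) (l 16767392)))) (b (l 3) (b (c (l 88751452391) (a (l 79087771495) (l 90362061383))) (l 16767432)))) (b (l 3) (c (b (l 118816219959) (a (l 78014032343) (l 103246964823))) (b (l 118816216887) (a (b (a (l 78550899879) (l 101099479047)) (l 69424094551)) (a (l 100562607575) (l 3))))))))) (b (a (a (l 16770912) (l 16770744)) (b (a (l 16769224) (b (a (l 16767440) (b (c (l 76940290199) (a (l 16765448) (l 84993351655))) (l 16764032))) (l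 16767936))) (a (l 16770328) (l 16769176)))) (a (l 16789392) (l 16770488)))), by decide +kernel⟩

def k43_pm_102_a : ∃ t, chk3 f_pm_102_a t 49 18 1 = true :=
  ⟨(l 3), by decide +kernel⟩

def k44_pm_102_a : ∃ t, chk3 f_pm_102_a t 49 38 1 = true :=
  ⟨(a (b (a (b (a (c (l 97341384903) (b (l 117742475575) (a (b (l 90362058503) (l 16765024)) (l 102710090599)))) (l 3)) (a (c (l 66202871735) (b (a (l 16765416) (l 73182189223)) (l 16765648))) (b (c (l 101099480759) (a (b (l 108078799399) (l 89825186823)) (l 3))) (c (l 78550901671) (a (l 66739738087) (b (l 98951993879) (l 77477155815))))))) (b (l 3) (a (b (l 3) (c (l 112373768743) (l 110226281559))) (l 3)))) (b (a (c (l 16767952) (a (l 16766352) (l 16765376))) (a (b (c (l 91972675383) (a (b (c (l 89825188087) (l 89825187351)) (l 68887220967)) (b (l 3) (l 98951993271)))) (c (l 69424095831) (a (l 16764840) (b (c (l 78014028039) (l 80161509591)) (l 16764424))))) (b (l 3) (a (b (l 111836893863) (c (l 89825189511) (a (l 78014025847) (l 100562605703)))) (l 3))))) (a (l 16767928) (a (l 16766424) (b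 (c (l 81235255143) (a (l 66739736759) (a (b (l 93583283847) (l 16763992)) (b (l 3) (l 86067088935))))) (c (l 16766568) (l 16764544))))))) (b (l 3) (a (b (l 3) (a (b (c (l 114521251335) (a (l 110226280935) (l 3))) (c (l 92509545239) (a (b (a (l 79624637975) (l 100562605095)) (l 69424090599)) (b (l 3) (c (l 100025734887) (l 98951990999)))))) (l 3))) (l 3)))), by decide +kernel⟩

def k45_pm_102_a : ∃ t, chk3 f_pm_102_a t 49 39 1 = true :=
  ⟨(a (a (l 16769688) (b (c (l 16768608) (l 16766240)) (l 16769040))) (b (a (b (a (c (l 67276611399) (a (l 16764520) (a (l 16761488) (b (b (l 86603959239) (l 16763680)) (l 16764096))))) (b (a (c (l 97878253767) (a (b (l 112910635463) (l 79624637207)) (l 105394442391))) (l 3)) (c (l 81235254055) (a (c (l 16764200) (l 66739735431)) (c (l 89825187255) (b (l 100562603095) (l 78550894887))))))) (c (l 16766968) (a (l 16765264) (c (l 16764776) (l 16763640))))) (b (a (b (l 3) (c (l 116131862935) (l 114521246343))) (l 3)) (a (b (c (l 93046415015) (a (b (a (l 80698378407) (l 103783829303)) (l 68350347543)) (b (l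 3) (l 102173216263)))) (c (l 70497835431) (a (l 16763648) (b (c (l 79624638295) (l 78550894231)) (l 16763208))))) (b (l 3) (c (l 104857573831) (a (b (l 113984375703) (c (l 92509539559) (l 92509538727))) (l 3))))))) (a (l 16767424) (b (a (l 16765328) (b (c (l 81772123655) (a (l 65665992311) (b (l 103783828343) (l 78550893783)))) (c (l 16765472) (l 16763328)))) (l 16765888))))), by decide +kernel⟩

def k46_pm_102_a : ∃ t, chk3 f_pm_102_a t 25 9 1 = true :=
  ⟨(a (b (l 3) (b (l 3) (a (b (l 3) (a (b (a (b (l 117205601639) (c (l 95193897479) (a (b (l 91435797335) (l 68350346151)) (l 109152536503)))) (l 3)) (a (b (c (l 71571575927) (a (l 16763024) (l 74255925895))) (l 16764440)) (b (c (l 108078798071) (a (l 102173214615) (l 3))) (c (l 83919605927) (a (l 66739732855) (l 94657021815)))))) (l 3))) (l 3)))) (l 3)), by decide +kernel⟩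

def k47_pm_102_a : ∃ t, chk3 f_pm_102_a t 24 10 1 = true :=
  ⟨(a (b (b (a (l 16759952) (l 16777952)) (l 16756384)) (l 16752656)) (a (b (b (l 16770056) (l 16776952)) (l 16755816)) (b (a (b (l 16769496) (l 16769248)) (b (l 16768232) (l 16769784))) (b (l 16765144) (l 16756944))))), by decide +kernel⟩

def k48_pm_102_a : ∃ t, chk3 f_pm_102_a t 25 20 1 = true :=
  ⟨(b (a (a (b (b (a (c (l 16765864) (a (l 16764112) (l 16762984))) (a (b (c (l 97878250775) (a (l 86603955655) (l 112910631527))) (c (l 73182187415) (a (l 16762376) (l 76940279127)))) (b (l 3) (c (l 111836893159) (l 110226276279))))) (a (l 16765880) (a (l 16764128) (b (c (l 87677703495) (a (l 69424086071) (l 97878245927))) (l 16760552))))) (a (l 16767360) (c (l 16766552) (l 16764024)))) (b (a (b (l 3) (a (b (l 3) (c (l 101636345847) (a (l 89825179751) (l 118816210151)))) (l 3))) (l 3)) (a (b (a (b (c (l 75329669767) (a (l 16761704) (l 81772115959))) (l 16763176)) (a (b (l 110763148615) (l 73719052599)) (b (l 3) (l 103246953207)))) (c (l 61907897319) (a (l 16762880) (l 16761664))))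 (b (l 3) (a (b (c (l 106468182679) (a (l 94120148087) (l 125795530567))) (c (l 78014023143) (a (l 16761016) (l 85530210919)))) (b (l 3) (l 120426822919))))))) (l 3)) (a (a (b (l 16768152) (l 16769280)) (b (a (l 16765296) (b (a (l 16762840) (a (b (l 77477147751) (l 16762160)) (b (l 108615663511) (l 68887212663)))) (l 16763480))) (a (l 16767304) (l 16765296)))) (a (b (a (b (a (b (l 3) (c (l 111300019447) (a (l 100025726679) (l 3)))) (l 3)) (a (a (l 16761816) (b (a (l 79624630311) (l 98415111527)) (l 16761464))) (b (l 127406143287) (a (a (l 16760928) (l 88214564183)) (l 115594983895))))) (l 3)) (a (a (l 16763488) (a (l 16762504) (b (b (l 74792791399) (l 16761464)) (l 16762512)))) (b (a (a (b (c (l 108615664119) (l 106468176119)) (l 16760752)) (b (l 3) (c (l 102710084103) (l 102173208823)))) (l 133311721111)) (a (l 16761480) (a (a (l 72645310391) (b (l 101636339975) (l 16760592))) (b (l 124721787943) (l 83919600919))))))) (b (l 3) (a (a (b (l 3) (c (l 127406144487) (l 127406144087))) (l 3)) (l 3)))))), by decide +kernel⟩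

def k49_pm_102_a : ∃ t, chk3 f_pm_102_a t 25 21 1 = true :=
  ⟨(a (b (a (b (l 16769496) (l 16768536)) (l 16768736)) (a (l 16763448) (b (l 16769128) (l 16767848)))) (b (a (b (a (l 16765328) (c (l 16764160) (l 16761576))) (l 16766408)) (b (a (b (a (a (l 72645313031) (b (l 109152534135) (l 16760064))) (a (b (l 3) (a (l 90898925143) (l 110226272967))) (l 134385462183))) (a (l 16761536) (a (l 16760456) (b (l 92509537527) (l 16760088))))) (b (l 3) (a (a (b (l 124184915575) (l 84456473703)) (b (l 3) (l 116668722823))) (l 3)))) (a (l 16762936) (b (a (c (l 16761264) (l 16758904)) (b (c (a (l 109152532199) (l 140827914487)) (l 118816203463)) (c (a (l 16760480) (l 101636341095)) (l 90362048567)))) (c (l 16762088) (l 16759608)))))) (a (b (l 16768096) (l 16768944)) (b (a (l 16765408) (l 16762992)) (l 16766488))))), by decide +kernel⟩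

def k50_pm_102_a : ∃ t, chk3 f_pm_102_a t 12 11 1 = true :=
  ⟨(a (b (a (l 16750696) (l 16753624)) (a (l 16752920) (l 16795840))) (b (a (l 16777456) (b (a (l 16789128) (b (l 16768112) (l 16768824))) (l 16795688))) (a (l 16754936) (l 16756544)))), by decide +kernel⟩

def k51_pm_102_a : ∃ t, chk3 f_pm_102_a t 13 4 1 = true :=
  ⟨(l 3), by decide +kernel⟩

def k52_pm_102_a : ∃ t, chk3 f_pm_102_a t 26 10 1 = true :=
  ⟨(a (b (l 3) (a (b (b (l 3) (a (b (a (b (l 3) (l 136532944327)) (l 3)) (a (a (b (l 94120148807) (l 16759392)) (b (l 125258655927) (l 86067084983))) (b (l 3) (c (l 126332401751) (l 125795523815))))) (l 3))) (b (a (b (a (l 16760168) (a (l 16759024) (b (a (l 100562598615) (l 120426817335)) (l 16758640)))) (l 16760928)) (b (a (a (b (l 142438523591) (a (l 90362051303) (l 111300016087))) (l 139754168263)) (l 3)) (a (c (b (l 88751438231) (l 16760224)) (l 83919596263)) (a (b (l 127406138039) (l 88214567143)) (a (b (l 3) (l 112910628071)) (l 139754167863)))))) (a (l 16763056) (b (a (l 16760224) (c (l 16759848) (l 16757480))) (l 16760992)))))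 (b (l 3) (b (l 3) (a (b (a (a (b (c (l 112910625575) (l 113447494199)) (l 16757896)) (b (l 145659747495) (c (l 105394434631) (l 104857559623)))) (c (l 145122877143) (l 145659743719))) (a (l 16758720) (a (c (l 91435791175) (l 90898916215)) (b (a (l 126332399319) (l 146196618007)) (l 90898920103))))) (b (l 3) (a (a (a (b (l 3) (l 115058110167)) (l 143512262679)) (l 3)) (l 3)))))))) (l 3)), by decide +kernel⟩

def k53_pm_102_a : ∃ t, chk3 f_pm_102_a t 52 22 1 = true :=
  ⟨(b (a (b (l 16764384) (l 16766608)) (b (a (b (l 16759536) (l 16761072)) (b (a (a (l 83382727463) (b (a (l 105931304679) (l 126332398535)) (l 16757144))) (b (l 151565325159) (a (a (l 96804499207) (l 117205593207)) (l 142975391351)))) (a (l 16758792) (a (l 16757584) (a (l 16756960) (b (l 108078787543) (l 16756976))))))) (a (l 16763224) (l 16760408)))) (a (b (l 16768104) (l 16768704)) (b (l 16764608) (l 16766816)))), by decide +kernel⟩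

def k54_pm_102_a : ∃ t, chk3 f_pm_102_a t 106 22 1 = true :=
  ⟨(b (b (a (b (l 3) (a (a (b (c (l 135459200679) (l 136532938199)) (c (l 95193885303) (l 95193881223))) (b (l 3) (c (l 128479884071) (l 130090487271)))) (l 3))) (l 3)) (a (b (a (c (l 86603951175) (l 16756024)) (a (b (b (l 137606686087) (l 108615657687)) (l 16756376)) (b (l 154786549815) (a (l 102173205943) (b (l 144586005991) (l 102710075687)))))) (a (l 16758888) (c (l 16758408) (l 16756064)))) (b (a (b (l 3) (c (l 151028454679) (l 152639063191))) (l 3)) (a (a (b (a (l 16755760) (b (l 129553618743) (l 16755552))) (l 16756440)) (b (a (b (l 3) (l 119889941943)) (l 155860291239)) (c (l 98951978087) (l 100562588855)))) (a (b (l 3) (a (b (l 146196614599) (l 104857555975)) (l 146733485783))) (l 3)))))) (b (a (l 16760560) (b (a (l 16757344) (b (a (l 92509526343) (a (b (l 131164228791) (l 16755200)) (b (l 3) (l 123648035895)))) (l 16756096))) (l 16758256))) (a (l 16763544) (l 16760744)))), by decide +kernel⟩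

def k55_pm_102_a : ∃ t, chk3 f_pm_102_a t 107 22 1 = true :=
  ⟨(b (l 3) (b (a (b (a (b (c (l 159618387703) (l 161765867175)) (c (a (b (l 129016745847) (l 99488846279)) (l 151028453959)) (a (b (l 131701098183) (l 101636328775)) (l 153175933447)))) (l 3)) (a (a (l 16756160) (b (a (l 94657007207) (b (l 133848581159) (l 16754848))) (l 16755752))) (b (a (b (l 3) (c (l 137069810727) (l 139217289559))) (l 3)) (b (a (c (l 106468167527) (l 108615648935)) (l 156397160743)) (a (l 16755112) (a (a (l 16754552) (l 116131840775)) (l 144585997671))))))) (l 3)) (b (b (a (a (l 16757080) (a (l 16755800) (c (l 92509523735) (l 95193877143)))) (a (a (b (c (l 145122873639) (l 147270353175)) (a (l 93583263111) (a (l 117742452839) (l 141364772039)))) (l 3)) (l 3))) (a (l 16757128) (a (a (l 16754968) (a (b (a (l 108078776535) (l 131701095751)) (l 16754536)) (b (l 155860285415) (a (l 97878229415) (l 120426806871))))) (a (c (l 156934032519) (l 158544641175)) (l 3))))) (a (l 16758448) (a (c (l 16757032) (l 16754760)) (a (b (a (c (l 96804490167) (l 99488842519))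 (b (a (l 134385449863) (l 156934027175)) (l 96804487543))) (l 16755064)) (a (b (b (l 3) (b (l 151028447575) (l 121500548359))) (l 87677683383)) (b (l 3) (b (b (l 140827900279) (l 111300001223)) (l 16754184)))))))))), by decide +kernel⟩

def k56_pm_102_a : ∃ t, chk3 f_pm_102_a t 26 23 1 = true :=
  ⟨(a (b (a (l 16766064) (b (l 16768192) (l 16768464))) (l 16759912)) (b (a (b (l 16764944) (l 16767024)) (b (a (l 16760952) (b (a (l 16757728) (l 16756024)) (l 16758664))) (l 16762624))) (a (l 16789488) (b (l 16765344) (l 16767384))))), by decide +kernel⟩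

def k57_pm_102_a : ∃ t, chk3 f_pm_102_a t 27 10 1 = true :=
  ⟨(l 3), by decide +kernel⟩

def k58_pm_102_a : ∃ t, chk3 f_pm_102_a t 54 22 1 = true :=
  ⟨(a (b (l 3) (b (l 3) (a (b (l 3) (b (l 3) (a (a (b (l 163913352071) (a (c (l 116131842375) (l 118279322615)) (l 153175930263))) (l 3)) (l 3)))) (l 3)))) (l 3)), by decide +kernel⟩

def k59_pm_102_a : ∃ t, chk3 f_pm_102_a t 108 46 1 = true :=
  ⟨(b (a (b (a (a (a (l 16754920) (b (b (c (l 108078778567) (l 110763130055)) (l 16754232)) (l 16754944))) (c (b (b (l 152639064919) (a (l 100562585687) (l 137606677879))) (l 87677684103)) (b (b (l 154249673655) (a (l 102710066791) (l 140827901319))) (l 90898908999)))) (b (l 3) (a (a (b (b (l 147807221671) (a (l 16753584) (l 131701094951))) (l 16753832)) (b (l 3) (a (a (l 100025712167) (l 113447484583)) (b (l 160155252631) (l 115058097223))))) (c (l 163376481975) (l 165523961655))))) (a (l 16756128) (b (a (l 16754328) (a (b (a (l 99488841527) (b (l 144585996631) (l 16752104))) (l 16753888)) (c (b (l 152102193703) (l 105394423335)) (b (l 154249673399)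 (l 108078775815))))) (l 16754832)))) (b (l 3) (a (a (a (b (b (l 3) (c (l 144049130055) (l 146196609767))) (c (l 92509521511) (l 95730746375))) (b (l 3) (b (a (b (l 150491576647) (l 104857550327)) (l 151565318199)) (l 90898907847)))) (b (l 3) (b (l 3) (a (a (b (l 134922320727) (l 16753264)) (b (l 3) (l 126869257319))) (l 167134576583))))) (l 3)))) (a (b (l 16757112) (l 16758904)) (b (a (b (a (l 16754440) (b (a (l 16753512) (a (c (l 104857551863) (l 108615646935)) (b (l 156397156823) (l 110763130583)))) (l 16753776))) (l 16754952)) (b (a (b (c (l 161765868967) (l 163376477815)) (a (a (l 96804487719) (b (l 140827900999) (l 16753088))) (c (l 150491580263) (l 152639060055)))) (l 3)) (a (a (l 16753816) (a (l 16753472) (b (b (l 125258645159) (l 16753120)) (l 16753488)))) (b (a (a (b (l 162839608087) (l 117742452759)) (l 160155253239)) (l 3)) (a (c (l 95730747031) (l 99488842535)) (b (l 154249673655) (c (l 121500549607) (l 124721774503)))))))) (b (a (l 16755904) (a (l 16754560) (c (l 16754632) (l 88751424423)))) (l 16755968))))), by decide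 +kernel⟩

def k60_pm_102_a : ∃ t, chk3 f_pm_102_a t 109 46 1 = true :=
  ⟨(b (l 3) (a (b (l 3) (a (a (b (b (a (a (b (l 131701096551) (l 16752944)) (b (l 169282059431) (l 123648033223))) (l 166060834119)) (a (l 16753200) (b (c (l 131164226215) (l 133848578119)) (c (l 99488843639) (l 102710067479))))) (l 16753712)) (b (a (c (l 161228997351) (l 163376477207)) (l 3)) (b (a (a (l 95193876727) (b (l 138680419095) (l 16752776))) (c (c (l 148344096823) (l 149417836871)) (l 151565318951))) (a (l 16753264) (a (l 16752920) (b (l 123111163351) (l 16752808))))))) (b (l 3) (b (l 3) (a (a (a (b (l 161228997255) (l 115058100183)) (l 159618384327)) (l 3)) (l 3)))))) (l 3))), by decide +kernel⟩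

def k61_pm_102_a : ∃ t, chk3 f_pm_102_a t 54 47 1 = true :=
  ⟨(a (b (a (l 16761448) (l 16758288)) (l 16763152)) (b (a (b (a (c (l 16755784) (l 16753632)) (a (b (a (c (l 91435781831) (l 93046391079)) (b (b (c (l 151565321255) (l 154786542999)) (c (l 120426809991) (l 122037419879))) (l 88751427223))) (l 16753848)) (b (b (l 3) (a (a (b (l 130627357095) (l 16752640)) (b (l 169282061831) (l 123111164855))) (l 166060833495))) (b (a (l 16752904) (b (c (l 130090484871) (l 132237966871)) (c (l 97878232135) (l 99488841287)))) (l 16753168))))) (a (l 16756648) (l 16754872))) (b (a (a (b (l 3) (b (c (l 160692125799) (l 163913347575)) (a (a (l 93583265207) (b (l 138680421095) (l 16752480))) (c (a (l 142975386375) (l 168208318807)) (l 152102187991))))) (l 3)) (l 3)) (a (a (b (a (l 16753224) (b (c (l 101636328407) (l 103246937575)) (l 16753008))) (l 16753992)) (b (b (a (a (b (l 162302740855) (l 113447488327)) (l 161228998823)) (l 3)) (a (c (l 93583264583) (l 16752240)) (b (l 155323418839) (a (l 16754936) (l 138680420807))))) (c (l 16754008) (l 16752080))))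 (b (l 3) (a (a (b (a (b (l 131164228071) (l 16752352)) (b (l 170355803879) (l 123111164423))) (l 16752616)) (b (l 167134574727) (b (a (l 113447488039) (l 154786547815)) (l 98415102775)))) (c (l 164450223719) (l 167671442967))))))) (a (l 16758592) (b (a (l 16755024) (b (a (l 16753144) (a (b (a (l 91972651559) (b (l 139217291431) (l 16752192))) (l 16752688)) (c (b (l 150491578295) (l 100562585959)) (b (l 153175929303) (l 102173195239))))) (l 16753688))) (l 16756088))))), by decide +kernel⟩

def k62_pm_102_a : ∃ t, chk3 f_pm_102_a t 55 11 1 = true :=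
  ⟨(b (l 3) (b (l 3) (a (b (l 3) (a (b (a (a (a (b (a (b (l 3) (b (l 163376481767) (l 113447487767))) (l 166597708567)) (c (l 88751425847) (l 16751576))) (b (l 3) (b (a (b (l 148344096631) (l 16752032)) (l 152639063719)) (l 16752296)))) (b (l 3) (a (b (l 3) (c (c (l 126332390871) (l 127942999335)) (l 131164224103))) (l 170892670087)))) (l 3)) (b (a (a (l 16753304) (a (l 16752600) (b (a (l 102710069495) (a (l 125795518375) (l 140827903687))) (l 16752384)))) (a (a (b (l 162839610199) (c (l 109152520023) (l 110226258535))) (c (l 159618382727) (l 162839604759))) (l 3))) (a (l 16753856) (c (a (c (l 90362038119) (l 90898907479)) (a (b (l 144585997703) (l 16752840)) (b (l 3) (l 137069804999)))) (a (l 92509518807) (b (l 157470895767) (c (l 117742451111) (l 118279320215)))))))) (l 3))) (l 3)))), by decide +kernel⟩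

def k63_pm_102_a : ∃ t, chk3 f_pm_102_a t 7 2 1 = true :=
  ⟨(l 3), by decide +kernel⟩

def k64_pm_102_a : ∃ t, chk3 f_pm_102_a t 12 6 1 = true :=
  ⟨(b (a (b (l 16756168) (a (l 16759016) (l 16762448))) (b (a (l 16800600) (b (l 16757104) (l 16758736))) (a (l 16763160) (l 16763480)))) (a (b (a (l 16766008) (l 16770128)) (l 16774696)) (b (a (l 16770032) (l 16769288)) (a (l 16778568) (b (l 16777744) (l 16781328)))))), by decide +kernel⟩

def k65_pm_102_a : ∃ t, chk3 f_pm_102_a t 26 12 1 = true :=
  ⟨(b (a (l 16757768) (b (a (l 16762192) (l 16768288)) (l 16759304))) (a (b (l 16760016) (l 16763952)) (b (l 16759384) (l 16782080)))), by decide +kernel⟩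

def k66_pm_102_a : ∃ t, chk3 f_pm_102_a t 54 24 1 = true :=
  ⟨(b (a (b (a (l 16766808) (l 16764760)) (l 16767856)) (a (b (l 16762080) (l 16765088)) (b (l 16758952) (l 16762488)))) (a (l 16767712) (b (a (l 16767432) (l 16765464)) (l 16768320)))), by decide +kernel⟩

def k67_pm_102_a : ∃ t, chk3 f_pm_102_a t 110 48 1 = true :=
  ⟨(b (b (a (a (l 16755376) (c (b (l 16753928) (l 16755032)) (l 82845842887))) (b (a (c (a (a (b (l 124721774103) (l 16752936)) (b (l 165523962519) (l 118279324887))) (l 163913348967)) (a (b (l 141364768583) (l 107541903911)) (l 166597700199))) (l 3)) (a (c (a (l 16753528) (a (b (l 109152519479) (l 16753040)) (b (l 149954706215) (l 101636326647)))) (a (l 16751728) (b (c (l 130090480487) (l 129553607831)) (l 96267614631)))) (a (a (b (l 3) (c (l 142438513527) (l 146196608279))) (l 3)) (l 3))))) (a (l 16756480) (a (c (l 16754696) (l 16752776)) (a (b (a (c (l 89288295687) (l 16751168)) (c (b (c (l 134385450695) (l 134922320071)) (l 16752640)) (b (l 138680415783) (l 16750976)))) (l 16752864)) (b (b (l 3) (c (a (a (l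 115058099063) (l 140827900727)) (l 168208316583)) (l 144049125399))) (c (a (l 16752976) (b (a (l 104857551671) (l 130627353495)) (l 16752744))) (c (l 101099452663) (l 101099450919)))))))) (a (l 16759384) (a (l 16756824) (a (l 16755472) (c (l 16755536) (l 16753560)))))), by decide +kernel⟩

def k68_pm_102_a : ∃ t, chk3 f_pm_102_a t 111 48 1 = true :=
  ⟨(b (a (b (l 3) (a (a (b (l 3) (c (b (l 163913348935) (a (c (l 111300002407) (l 112910613783)) (l 152639060295))) (b (l 164450216663) (c (l 132774834663) (l 131701092231))))) (l 3)) (l 3))) (l 3)) (a (b (a (b (c (a (b (c (a (l 16753200) (l 103783809591)) (l 96804486455)) (l 16753120)) (a (b (c (l 145122868343) (l 146196608695)) (l 97341358727)) (a (b (l 3) (l 127943000055)) (l 161228994359)))) (a (l 96804485479) (b (l 154249669559) (l 124184901447)))) (c (a (l 16753968) (c (l 16753344) (l 16752552))) (l 87677680039))) (b (l 3) (c (a (a (b (a (l 119353065895) (l 145122867559)) (l 16752464)) (b (l 3) (b (l 138680416695) (l 105931293063)))) (l 168208315319)) (a (b (l 147270347927) (l 110763128551))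 (l 171966408647))))) (a (l 16754208) (a (c (l 16753648) (l 16751928)) (b (a (c (b (c (b (l 127942999271) (l 16752520)) (l 117205580679)) (l 16752584)) (l 104320677799)) (c (b (l 157470898071) (b (l 118816194631) (l 16752216))) (l 134922317255))) (l 16752384))))) (b (l 3) (a (b (c (a (b (l 3) (c (a (l 148880964279) (l 3)) (l 158007767927))) (l 3)) (l 168745182535)) (c (a (b (c (a (l 100562583671) (b (l 163913349639) (l 130627353607))) (a (l 100562582311) (l 144049124743))) (c (l 88751423607) (l 16752080))) (b (l 3) (c (a (b (l 154249673319) (l 121500548951)) (l 3)) (l 148344091719)))) (a (b (l 124184901159) (l 16750904)) (l 158007765399)))) (l 3))))), by decide +kernel⟩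

def k69_pm_102_a : ∃ t, chk3 f_pm_102_a t 55 49 1 = true :=
  ⟨(a (b (a (l 16762936) (l 16759864)) (a (l 16765904) (l 16763432))) (b (a (c (l 16754872) (l 16755352)) (b (a (b (a (l 16752512) (a (c (l 16752552) (l 16751008)) (b (c (b (l 145122867223) (l 111300001783)) (l 133311706151)) (l 16751584)))) (l 16753120)) (a (b (c (a (b (l 169818928551) (c (b (l 134385449783) (l 100562583367)) (l 120426805783))) (l 166060831783)) (l 151028449047)) (a (l 16751920) (b (b (a (l 103783808999) (l 146733483799)) (l 92509519991)) (l 16751720)))) (b (l 3) (c (b (c (a (l 154786543895) (l 3)) (l 162302734871)) (c (a (b (l 114521226919) (l 16752432)) (b (l 171429542007) (l 138143545959))) (a (l 105394420247) (l 149417833527)))) (b (l 165523958183) (l 126332382615)))))) (a (l 16754728) (b (c (a (l 16753584) (c (b (a (l 16752880) (l 98415099623)) (l 16753216)) (l 16752192))) (l 16751504)) (l 16753392))))) (a (l 16760400) (b (l 16755928) (l 16758000))))), by decide +kernel⟩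

def k70_pm_102_a : ∃ t, chk3 f_pm_102_a t 27 25 1 = true :=
  ⟨(a (b (l 16762240) (l 16760536)) (b (a (b (a (l 16768072) (l 16766416)) (l 16768640)) (b (a (l 16763968) (l 16760984)) (a (l 16766976) (l 16764552)))) (a (l 16764712) (b (l 16768392) (l 16768920))))), by decide +kernel⟩

def k71_pm_102_a : ∃ t, chk3 f_pm_102_a t 13 13 1 = true :=
  ⟨(a (b (a (l 16768944) (b (l 16765488) (l 16768664))) (a (b (l 16775192) (l 16781536)) (b (l 16773288) (l 16778000)))) (a (b (b (l 16782888) (l 16766440)) (l 16772664)) (b (a (b (l 16761896) (l 16763616)) (l 16762960)) (b (a (l 16768408) (l 16766648)) (l 16771872))))), by decide +kernel⟩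

def k72_pm_102_a : ∃ t, chk3 f_pm_102_a t 6 7 1 = true :=
  ⟨(a (b (a (b (l 16826936) (a (l 16798272) (l 16801616))) (b (a (l 16788536) (l 16788944)) (a (l 16803048) (l 16803048)))) (b (a (b (b (l 16811640) (a (l 16814360) (l 16817328))) (a (l 16837888) (a (l 16820768) (l 16823248)))) (b (l 16816536) (a (b (l 16823664) (l 16825312)) (b (l 16822952) (l 16826504))))) (a (b (a (a (b (l 16817608) (l 16819456)) (c (l 16828736) (l 16815552))) (a (l 16824080) (l 16825968))) (b (a (a (c (l 16829624) (l 16814552)) (c (l 16832368) (l 16818064))) (l 16828120)) (a (a (b (c (l 16831632) (l 16816040)) (c (l 16833048) (a (c (l 16819768) (l 16812752)) (l 16818064)))) (c (l 16835104) (l 16820032))) (a (l 16829464) (l 16831320))))) (a (b (l 16827832) (a (l 16831504) (l 16832392))) (b (l 16828792) (a (l 16832848) (l 16832896))))))) (b (b (a (a (l 16788104) (l 16808096)) (b (a (l 16780672) (l 16776824)) (a (l 16786224) (a (l 16784776) (l 16782416))))) (a (a (l 16801760) (l 16799392)) (a (l 16796312) (l 16814056)))) (b (a (b (l 16854904) (a (b (l 16821584)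 (l 16825920)) (b (l 16818272) (l 16822368)))) (a (b (l 16807792) (a (l 16817000) (l 16815264))) (b (l 16803824) (l 16811760)))) (a (a (b (l 16828144) (a (l 16832552) (l 16831840))) (b (l 16826056) (b (l 16828984) (a (l 16831936) (l 16830568))))) (b (a (b (a (l 16823248) (l 16821416)) (l 16823712)) (b (b (l 16816424) (l 16850160)) (l 16819720))) (a (b (l 16825728) (a (l 16828936) (c (l 16832672) (l 16822344)))) (b (a (l 16822808) (l 16820680)) (a (c (l 16830528) (l 16820456)) (a (c (l 16828840) (l 16818976)) (c (l 16838240) (l 16818000))))))))))), by decide +kernel⟩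

def k73_pm_102_a : ∃ t, chk3 f_pm_102_a t 28 24 1 = true :=
  ⟨(a (b (l 3) (a (b (a (b (l 3) (a (a (b (b (a (b (l 164987089143) (a (l 109152517975) (l 152639058439))) (l 3)) (c (c (a (l 16752416) (b (l 152102189383) (l 118279323111))) (l 116668708615)) (l 117742449943))) (c (l 16752696) (l 16751200))) (b (l 3) (c (b (a (b (l 143512256871) (l 109152517735)) (l 168745186487)) (c (a (l 16752552) (b (l 131701094951) (l 98415099303))) (l 107005032967))) (b (l 146733476807) (l 107541902727))))) (b (l 3) (c (a (b (l 3) (l 166060834231)) (l 3)) (l 174650762135))))) (l 3)) (a (b (a (c (b (l 16753352) (l 16754512)) (l 16752312)) (a (b (c (b (c (a (b (l 122574290311) (l 16752240)) (l 154249672727)) (l 131164222695)) (a (l 16752360) (b (l 113447484951) (l 16751984)))) (l 117742448359)) (l 16752248)) (b (c (b (l 3) (c (a (b (l 170355799943) (l 135996062087)) (l 3)) (l 158007767511))) (l 166060828679)) (c (b (c (a (l 97878228359) (b (l 160692123639) (l 126332385799))) (l 122037417463)) (l 88751423111)) (l 111836870279))))) (c (a (l 16756232) (l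 16754232)) (l 16753504))) (b (a (b (l 3) (c (a (b (l 3) (c (a (b (l 151565318247) (l 117742451943)) (l 3)) (l 148880962279))) (l 3)) (l 166060828119))) (l 3)) (a (b (c (a (a (l 16752360) (b (b (l 143512254087) (l 108615646583)) (l 16752136))) (b (l 171429540439) (c (a (b (l 131164223847) (l 16752080)) (l 161228994279)) (l 140291027959)))) (a (l 104857548487) (l 153175927399))) (c (a (l 16753288) (a (l 16752512) (b (b (l 123111161095) (l 16751840)) (l 16752288)))) (l 93046388823))) (b (l 3) (c (a (a (c (b (l 154786543447) (l 105394420983)) (l 133311706311)) (a (b (l 3) (l 141364773031)) (l 171429540535))) (l 3)) (l 158007770295))))))) (l 3))) (l 3)), by decide +kernel⟩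

def k74_pm_102_a : ∃ t, chk3 f_pm_102_a t 56 25 1 = true :=
  ⟨(b (a (b (a (l 16757576) (b (a (l 16753744) (b (c (a (c (b (l 94120131943) (l 16753040)) (l 16752088)) (b (a (b (l 162839606535) (l 127942999175)) (l 3)) (a (l 16751936) (a (l 125795515559) (l 151028446647))))) (a (l 16751080) (l 141364767975))) (c (c (l 16753424) (l 16752744)) (l 16751696)))) (c (l 16755856) (l 16754160)))) (a (l 16761624) (l 16758240))) (b (a (b (a (b (c (l 177335118903) (l 182166954663)) (c (a (b (a (a (l 117742451959) (l 142975383111)) (l 171429540775)) (a (l 16752096) (a (l 104320679143) (l 134922319575)))) (l 171429539991)) (a (l 132237962807) (l 176261375831)))) (l 3)) (a (b (c (a (l 16752736) (c (b (a (l 113447484647) (l 158007768823)) (l 99488841063)) (l 118816192151))) (l 109152516471)) (l 16752736)) (b (c (a (b (l 3) (c (l 160155252183) (l 162302734711))) (l 3)) (l 174650762567)) (c (a (a (l 95193873911) (b (l 146733479415) (l 16751912))) (a (b (l 3) (l 140827899527)) (l 3))) (a (l 113447483223) (l 164987087367)))))) (l 3)) (a (b (a (l 16754408)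 (c (a (l 16753672) (a (l 16752904) (b (b (l 134922319655) (l 16752088)) (l 16752992)))) (l 95193873063))) (l 16755696)) (b (a (a (c (a (b (b (l 174650766247) (l 122037419335)) (l 16752480)) (b (l 172503282247) (l 105931292327))) (l 138680414103)) (b (l 3) (a (b (l 165523959991) (l 110763130583)) (l 167671443287)))) (l 3)) (a (c (b (c (l 90362035751) (l 16752616)) (l 16754112)) (l 16752248)) (b (c (a (b (l 161228993639) (l 121500548727)) (l 3)) (l 160692120295)) (a (l 16752024) (b (l 155860289079) (l 114521227495))))))))) (a (b (a (l 16765224) (l 16762320)) (a (l 16768176) (l 16765976))) (b (a (l 16758960) (b (c (a (l 16755896) (l 16753888)) (l 16753528)) (l 16756448))) (a (l 16763088) (l 16759744))))), by decide +kernel⟩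

def k75_pm_102_a : ∃ t, chk3 f_pm_102_a t 57 25 1 = true :=
  ⟨(b (a (b (l 3) (a (b (l 3) (a (l 182166960663) (l 3))) (l 3))) (l 3)) (a (a (b (b (a (b (a (a (l 109689389255) (l 146733478791)) (l 175187635815)) (c (a (l 16752968) (l 117742452711)) (l 16751416))) (b (l 3) (l 166597705991))) (a (l 16753656) (c (b (a (l 105931292695) (l 148344091895)) (a (l 16753360) (l 101099454487))) (l 118816194263)))) (c (b (l 16755672) (l 16758040)) (l 16755456))) (b (b (l 3) (a (b (l 3) (c (a (l 142975383159) (l 3)) (l 151565315111))) (l 3))) (b (a (c (b (a (l 96267616263) (c (l 137069803943) (l 137606673991))) (l 16753272)) (l 115058098023)) (a (b (l 3) (a (a (l 113447485751) (l 127943000247)) (l 145122868935))) (l 168745184071))) (a (l 16754512) (c (b (a (l 16752984) (c (b (l 139754158711) (l 110226260695)) (l 130090484039))) (l 16753704)) (b (l 119889937367) (l 16752760))))))) (b (l 3) (a (b (l 3) (a (b (l 164987088343) (c (a (b (l 132774836871) (l 103246938135)) (l 157470897607)) (l 137606673255))) (l 3))) (l 3))))), by decide +kernel⟩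

def k76_pm_102_a : ∃ t, chk3 f_pm_102_a t 29 12 1 = true :=
  ⟨(l 3), by decide +kernel⟩

def k77_pm_102_a : ∃ t, chk3 f_pm_102_a t 28 13 1 = true :=
  ⟨(b (a (b (a (l 16769504) (a (b (l 16766800) (l 16769448)) (b (l 16763912) (l 16767688)))) (a (l 16764152) (l 16769296))) (b (a (b (a (l 16760600) (b (a (l 16756800) (l 16754968)) (l 16758176))) (a (b (l 16763808) (l 16765808)) (l 16761528))) (b (a (b (a (a (l 16753584) (b (a (l 102173196599) (b (l 141901641623) (l 16752128))) (l 16753240))) (a (c (b (b (l 3) (l 146733480327)) (c (b (l 118279323511) (l 16753184)) (l 16752504))) (l 132774835799)) (a (b (l 3) (b (l 168745186823) (l 130627354823))) (l 166597701783)))) (a (l 16755456) (a (l 16754080) (a (l 16753384) (b (b (l 124721775031) (l 16752624)) (l 16753512)))))) (b (l 3) (a (a (c (a (b (a (l 128479870343) (l 142438513591)) (l 16753416)) (b (l 158007769383) (l 103783809511))) (l 130627354823)) (b (l 3) (b (l 155860288087) (a (l 108615647767) (l 144585996983))))) (l 3)))) (a (c (l 16753464) (l 16757392)) (b (a (c (c (b (l 90362036615)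 (l 16755408)) (l 16754336)) (l 16753736)) (c (b (a (b (l 148344093767) (a (l 16752976) (l 134385450743))) (l 3)) (a (l 16753672) (c (b (l 141901643607) (l 112910615479)) (l 131164226007)))) (b (l 147270350535) (l 113984355767)))) (c (a (l 16757040) (l 16752448)) (l 16755128)))))) (a (b (a (l 16768472) (l 16776160)) (l 16769856)) (b (a (l 16762504) (c (l 16759768) (l 16758440))) (a (l 16766552) (b (l 16762432) (l 16764520))))))) (a (b (a (l 16765400) (l 16765512)) (a (l 16770408) (l 16789344))) (b (a (l 16766744) (b (a (l 16769600) (l 16767464)) (l 16770448))) (a (l 16767384) (l 16767072))))), by decide +kernel⟩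

def k78_pm_102_a : ∃ t, chk3 f_pm_102_a t 29 26 1 = true :=
  ⟨(a (b (a (b (l 3) (a (b (a (b (l 3) (c (l 166060832343) (l 169282056775))) (l 3)) (a (c (b (a (b (a (l 119889937367) (l 156397157975)) (l 105394422679)) (l 160692124551)) (a (l 16754208) (a (l 101099455383) (b (l 147807223895) (l 16753280))))) (b (l 137069804327) (l 104320678999))) (b (l 3) (c (a (b (l 3) (l 151565320103)) (l 3)) (l 163376477879))))) (l 3))) (l 3)) (a (b (a (a (b (c (l 16755616) (l 16754840)) (l 16757576)) (b (c (b (a (a (l 16753736) (b (l 139217289831) (l 16753552))) (c (b (l 3) (l 145659740839)) (l 153175932583))) (a (l 16754768) (c (b (l 114521228839) (l 16754232)) (l 16753648)))) (l 101099451575)) (l 16753160))) (b (a (c (a (a (b (l 3) (b (l 165523964167) (l 123111163415))) (l 166597704615)) (l 3)) (l 163913348823)) (l 3)) (a (c (b (a (c (b (l 107541907047) (l 16754520)) (l 16753936)) (a (b (l 157470901031) (l 111836874215)) (l 159081513479))) (c (a (l 16755512) (l 96267617815)) (l 16754704))) (l 100562582823)) (b (l 3) (c (a (a (b (l 148880966999)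 (l 16753928)) (l 154249675831)) (l 3)) (l 155860287495)))))) (a (l 16760176) (b (a (l 16756368) (c (b (a (l 16753336) (c (b (l 150491580071) (a (l 16754336) (l 137606678983))) (l 126332388119))) (l 16755440)) (l 101636327511))) (l 16755880)))) (b (l 3) (a (b (a (c (b (l 171429543479) (a (b (a (l 127943001767) (l 167671449191)) (l 88751425655)) (l 167671448503))) (l 156397158487)) (l 3)) (a (c (a (l 16755896) (b (a (l 83382716503) (a (l 118279325399) (l 143512259111))) (l 16755560))) (l 101099458983)) (c (b (l 167134577335) (a (a (l 16753520) (l 125795518631)) (l 161765869655))) (l 154786547015)))) (l 3))))) (l 3)), by decide +kernel⟩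

def k79_pm_102_a : ∃ t, chk3 f_pm_102_a t 58 27 1 = true :=
  ⟨(b (a (b (a (b (l 16763488) (l 16765520)) (l 16761320)) (a (l 16768392) (b (l 16764544) (l 16766568)))) (b (a (a (l 16753512) (b (c (b (a (l 16755880) (c (l 95193877031) (l 16754832))) (l 16756680)) (l 100025719239)) (l 16758192))) (b (a (c (b (a (l 158544644791) (l 3)) (a (c (l 92509523431) (l 16755144)) (l 155860290855))) (l 148344097351)) (l 3)) (a (c (b (a (l 16756512) (l 100025718135)) (l 16757312)) (l 16756248)) (c (b (a (l 154249678743) (l 3)) (a (l 93046396919) (l 145122875191))) (l 138680422247))))) (a (l 16762480) (a (l 16759976) (b (b (c (l 79087754167) (l 16756336)) (l 16757672)) (l 16759432)))))) (a (b (l 16770248) (l 16769736)) (a (b (b (l 16765632) (l 16767672)) (l 16770224)) (b (b (l 16762552) (l 16764720)) (b (l 16766800) (l 16768824)))))), by decide +kernel⟩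

def k80_pm_102_a : ∃ t, chk3 f_pm_102_a t 59 54 1 = true :=
  ⟨(a (b (l 3) (a (b (a (c (b (a (c (l 140291036439) (l 153712811047)) (l 3)) (a (l 16756520) (a (l 130090491703) (l 140291036487)))) (l 139217299735)) (c (b (l 3) (l 160155258119)) (l 162302740263))) (a (c (c (l 16755472) (l 16757832)) (l 16757536)) (c (b (a (c (b (l 147270358935) (l 116668718935)) (l 144586007095)) (l 157470905031)) (a (l 16757176) (c (b (l 145122875943) (l 112910623223)) (l 144049137095)))) (b (l 156397163751) (l 139754173223))))) (b (l 3) (a (c (b (l 3) (a (b (l 3) (l 155323422663)) (l 3))) (l 160155257895)) (l 3))))) (l 3)), by decide +kernel⟩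

def k81_pm_102_a : ∃ t, chk3 f_pm_102_a t 118 55 1 = true :=
  ⟨(b (b (a (c (a (l 16760480) (b (l 16757976) (l 16759248))) (l 16758952)) (a (c (b (b (a (a (l 140291041031) (l 154786552519)) (l 3)) (c (a (l 108078785639) (l 153175939719)) (l 147807233959))) (a (l 16757840) (c (b (a (l 119353074935) (l 151028456855)) (l 101636335175)) (l 142438526103)))) (b (l 155860294151) (l 139217303815))) (b (l 3) (c (a (b (l 3) (c (a (l 150491586279) (l 3)) (l 155860294839))) (l 3)) (l 156934034903))))) (a (l 16761544) (a (c (l 16756656) (l 16758848)) (b (c (a (c (b (a (l 16757216) (l 149954716999)) (l 16757632)) (l 140827914039)) (a (b (l 152639069351) (b (l 149417843879) (l 166060846583))) (l 154786552743))) (l 155860300743)) (c (a (l 16758520) (c (a (l 16757888) (b (l 156397169111) (l 16757736))) (l 138143560087))) (l 137606692263)))))) (a (b (l 16763792) (l 16765912)) (b (a (l 16761360) (c (l 16757328) (l 16759512))) (l 16762832)))), by decide +kernel⟩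

def k82_pm_102_a : ∃ t, chk3 f_pm_102_a t 119 55 1 = true :=
  ⟨(b (a (b (l 3) (a (b (l 3) (c (a (c (b (l 154249682375) (a (b (l 168745200151) (l 141901654807)) (l 153175941335))) (l 154786553767)) (l 3)) (l 156397165319))) (l 3))) (l 3)) (a (b (a (b (c (c (a (b (a (l 16757904) (b (l 165523975015) (l 136532945959))) (l 16758320)) (b (a (l 153175941671) (l 3)) (a (b (l 162302749879) (l 16757760)) (b (l 3) (l 154249684151))))) (a (l 135459206039) (l 154786554455))) (a (l 157470915991) (l 159081521399))) (a (l 16759032) (c (c (b (a (l 16758256) (b (l 159081524743) (l 16757936))) (l 16758664)) (l 131164239031)) (l 16758128)))) (b (l 3) (c (a (c (b (a (b (l 151028458407) (l 154249684487)) (l 3)) (a (b (c (l 144586009751) (l 16757784)) (l 16758112)) (b (l 152102200583) (l 154249684823)))) (l 154249686839)) (l 3)) (l 156397166679)))) (a (c (l 16760624) (l 16760176)) (b (c (a (c (b (a (l 16758600) (c (b (l 138143558999) (l 16758320)) (l 16758104))) (l 16759016)) (l 125795530343)) (b (c (a (b (l 152639071831) (l 168745201591)) (l 3)) (l 154786555207))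 (c (a (c (l 119353077271) (l 16758280)) (b (l 152639072167) (l 164987105463))) (l 167134590679)))) (a (l 16758480) (l 159618393575))) (c (a (l 16759880) (c (c (c (l 93046402551) (l 16757744)) (l 16759008)) (l 16758928))) (l 16759224))))) (b (l 3) (a (b (l 3) (c (a (b (c (a (b (l 153175943431) (c (l 151565332295) (l 167671460263))) (l 3)) (l 154786555895)) (c (c (a (l 16758680) (a (l 148880977831) (l 151028460215))) (l 148880978887)) (l 162839623911))) (a (b (l 3) (l 150491588583)) (l 3))) (a (l 159618394231) (l 148880974407)))) (l 3))))), by decide +kernel⟩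

def k83_pm_102_a : ∃ t, chk3 f_pm_102_a t 15 6 1 = true :=
  ⟨(a (l 3) (l 3)), by decide +kernel⟩

def k84_pm_102_a : ∃ t, chk3 f_pm_102_a t 28 14 1 = true :=
  ⟨(b (a (b (l 16774232) (a (l 16780208) (l 16779344))) (b (a (l 16793736) (b (l 16769736) (l 16772400))) (a (l 16777936) (l 16777304)))) (a (b (b (l 16806312) (l 16788920)) (l 16793288)) (a (b (l 16805072) (l 16791288)) (b (l 16783056) (b (l 16788976) (l 16791768)))))), by decide +kernel⟩

def k85_pm_102_a : ∃ t, chk3 f_pm_102_a t 29 28 1 = true :=
  ⟨(a (b (a (l 16769704) (l 16770040)) (a (b (l 16774040) (l 16778096)) (b (l 16772496) (l 16776032)))) (b (a (b (a (l 16779608) (b (l 16765064) (l 16767200))) (a (l 16772168) (l 16770440))) (b (a (a (l 16763824) (c (l 16759912) (l 16761936))) (b (a (b (c (a (c (c (l 16758120) (l 16759360)) (l 16759272)) (b (c (a (c (a (l 141364785335) (l 150491589655)) (l 162302751367)) (l 152639072631)) (l 154786556583)) (c (a (l 16759008) (c (b (l 149417848087) (l 132237980023)) (l 159081526231))) (l 157470915239)))) (a (l 16759184) (l 155323427479)))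 (c (a (l 16760568) (c (l 16758432) (l 16759616))) (l 16759904))) (a (b (a (a (b (l 3) (b (l 3) (l 164987105607))) (l 3)) (l 3)) (c (b (c (a (c (a (l 126869271047) (l 147270365543)) (l 155323430103)) (b (l 3) (l 152639073623))) (l 154786557287)) (c (a (l 16759360) (b (c (l 148344107463) (l 164450235575)) (l 114521237815))) (l 151028464423))) (l 155323428023))) (b (l 3) (c (b (l 3) (c (a (b (l 3) (l 152639073975)) (l 3)) (l 153712814935))) (l 152102201271))))) (a (l 16759112) (a (c (c (l 16758112) (l 16760568)) (l 16760416)) (b (c (b (c (c (a (a (l 16759216) (l 144049140487)) (a (l 151028461527) (l 156397170215))) (l 149954721175)) (l 154249687079)) (c (a (l 16759720) (b (c (l 136532947863) (l 153175946791)) (l 16759416))) (l 144049143015))) (l 173577045815)) (c (l 16760376) (l 16760208))))))) (a (b (l 16768976) (l 16768592)) (b (a (l 16764032) (l 16762416)) (l 16765520))))) (a (l 16772168) (b (a (l 16750800) (b (a (l 16768528) (l 16767008)) (l 16770048))) (l 16773464))))), by decide +kernel⟩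

def k86_pm_102_a : ∃ t, chk3 f_pm_102_a t 29 29 1 = true :=
  ⟨(a (b (a (l 16782736) (b (l 16738960) (l 16783576))) (a (b (l 16787288) (l 16812168)) (b (l 16786112) (l 16808848)))) (b (a (b (a (l 16778944) (l 16777032)) (a (l 16782280) (l 16780384))) (b (l 16774032) (l 16756016))) (a (l 16784296) (b (a (l 16781304) (l 16779248)) (l 16782400))))), by decide +kernel⟩

def k87_pm_102_a : ∃ t, chk3 f_pm_102_a t 14 15 1 = true :=
  ⟨(a (b (a (b (l 16800048) (a (l 16808384) (l 16806176))) (a (b (l 16797552) (l 16803960)) (b (l 16795976) (l 16822624)))) (b (a (b (a (l 16813432) (l 16811184)) (a (l 16816464) (b (l 16814096) (l 16814856)))) (b (a (l 16809000) (l 16806592)) (b (a (l 16811616) (l 16809104)) (a (l 16812848) (l 16811088))))) (a (b (a (l 16839528) (l 16816552)) (b (a (l 16841336) (l 16818384)) (a (c (l 16827040) (l 16817096)) (c (l 16824952) (l 16815144))))) (b (a (l 16814504) (l 16812480)) (b (a (l 16816320) (l 16814256)) (a (c (l 16822744) (l 16813128)) (c (l 16820488) (l 16811168)))))))) (b (b (a (a (l 16814968) (b (l 16812008)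 (l 16792648))) (a (b (a (l 16788536) (l 16786696)) (l 16790472)) (b (l 16784840) (a (l 16788480) (l 16786544))))) (a (a (l 16820200) (l 16817760)) (a (b (l 16792800) (l 16795840)) (b (l 16790216) (l 16793240))))) (b (a (b (a (l 16804200) (l 16801776)) (b (l 16805792) (a (l 16829896) (l 16827296)))) (b (a (l 16799264) (l 16796648)) (a (l 16823920) (l 16800432)))) (a (b (a (l 16810480) (l 16808448)) (a (c (l 16817416) (b (l 16808320) (l 16809280))) (c (l 16815040) (b (l 16806480) (l 16807400))))) (b (b (a (b (l 16805560) (l 16806096)) (b (l 16802840) (l 16803960))) (a (l 16806872) (l 16804640))) (a (c (l 16812536) (b (l 16804592) (l 16805488))) (c (l 16809872) (l 16803048)))))))), by decide +kernel⟩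

def k88_pm_102_a : ∃ t, chk3 f_pm_102_a t 60 56 1 = true :=
  ⟨(a (b (a (b (l 3) (a (b (c (a (b (l 3) (c (a (b (l 154786557703) (c (l 149954720151) (l 138143559031))) (l 3)) (l 154786557463))) (l 3)) (l 155323426615)) (c (a (b (c (c (a (l 120963691687) (a (l 148344107671) (l 155323429095))) (l 146196624183)) (l 164987108471)) (c (a (l 16760072) (c (l 113984369863) (l 16759592))) (l 16759760))) (b (l 3) (c (a (b (l 154786558407) (c (l 126869271559) (l 134922334103))) (l 3)) (l 155323429079)))) (a (l 170355820743) (l 155323428167)))) (l 3))) (l 3)) (a (b (a (b (c (a (l 16760720) (c (c (b (a (l 16759160) (b (l 153712816967) (l 135459206263))) (l 16758920)) (b (l 142438528503) (l 16760168))) (l 146733498119))) (a (l 16760552) (l 149417848631))) (c (l 16761512) (l 16761264))) (b (c (a (b (l 3) (c (a (b (l 153175946375) (c (l 127943013607) (l 144049141703))) (l 3)) (l 155323429783))) (l 3)) (l 156934040791)) (c (c (a (b (a (l 16760144) (b (l 152102204903) (l 122037432823))) (l 16760552)) (a (b (l 160155268023) (a (l 119353078615) (l 149954721703)))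 (l 159081525943))) (a (l 141364789047) (l 155860300791))) (a (l 145659752567) (l 157470913271))))) (b (a (l 16762528) (a (l 16761304) (c (c (b (a (l 16760504) (c (l 137069820439) (l 124184916759))) (l 16760912)) (l 135996080135)) (l 141364785447)))) (c (l 16760472) (l 16762712)))) (b (l 3) (a (b (c (a (c (b (l 159081526471) (a (c (l 125795530743) (l 124184917351)) (l 158007785447))) (l 155323430583)) (l 3)) (l 158544654999)) (c (c (a (b (a (l 16760856) (l 124184917991)) (l 16761264)) (b (l 158544656279) (a (l 122037434791) (l 156397173415)))) (a (l 119889948727) (l 155323431287))) (a (l 16760808) (l 158007785671)))) (l 3))))) (l 3)), by decide +kernel⟩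

def k89_pm_102_a : ∃ t, chk3 f_pm_102_a t 60 57 1 = true :=
  ⟨(a (b (a (b (l 16759376) (l 16766912)) (b (b (a (c (a (l 16762128) (c (b (l 113984371255) (l 16761616)) (l 16761208))) (l 16758256)) (c (a (c (a (b (b (l 3) (l 152639077687)) (l 119353081751)) (l 158007786247)) (l 154249690151)) (l 3)) (l 159081527399))) (a (l 16762752) (c (c (a (l 111300018359) (b (a (l 154249690839) (l 3)) (a (l 16761296) (l 153712820279)))) (a (l 16761552) (l 153175949031))) (a (l 16761480) (l 130627366391))))) (a (l 16764512) (c (b (a (l 16762824) (l 111836889031)) (l 16763616)) (l 16762776))))) (a (a (l 16750200) (l 16769632)) (b (l 16766056) (l 16768384)))) (b (a (b (l 3) (a (b (c (c (a (b (a (l 153175949719) (l 3)) (a (l 16761656) (l 152639079159))) (l 3)) (l 155860303383)) (l 158544657831)) (c (a (l 16760992) (c (b (l 156934046359) (l 141901662071)) (l 154786560519))) (l 124184915799))) (b (l 3) (c (a (l 166060850599) (l 3)) (l 162302753031))))) (l 3)) (a (b (a (c (b (a (l 16763528) (l 16762648)) (l 16764296)) (l 16763472)) (b (c (c (a (a (l 144049146007)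 (l 154249692679)) (l 162839625943)) (l 152639079271)) (l 154249691847)) (c (c (a (l 16763040) (a (l 133848599319) (l 143512275095))) (l 130627372935)) (l 112373758903)))) (a (l 16765952) (c (a (l 16764784) (l 16759968)) (l 16764208)))) (b (a (b (l 3) (c (a (l 159081532695) (l 3)) (l 161229012519))) (l 3)) (a (b (c (c (a (b (l 151028468327) (l 135996083831)) (l 159081530807)) (l 150491596935)) (l 150491596823)) (c (a (l 16763624) (c (b (a (l 138143567351) (l 155860306711)) (l 137069826295)) (l 135459212311))) (l 107005050295))) (b (l 3) (a (a (b (l 3) (c (l 161229017383) (l 16762328))) (l 3)) (l 3)))))))), by decide +kernel⟩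

def k90_pm_102_a : ∃ t, chk3 f_pm_102_a t 61 28 1 = true :=
  ⟨(l 3), by decide +kernel⟩

def k91_pm_102_a : ∃ t, chk3 f_pm_102_a t 60 29 1 = true :=
  ⟨(b (a (b (a (l 16774232) (l 16777248)) (l 16774400)) (a (b (b (l 16767552) (l 16770008)) (b (l 16772496) (l 16774640))) (b (b (a (c (b (l 16764400) (l 16765624)) (l 16764976)) (b (c (c (a (b (a (l 16763016) (l 155323436439)) (l 107005052407)) (b (l 3) (a (l 155323436743) (l 3)))) (a (l 104857566903) (l 159081531943))) (l 149417856407)) (c (a (l 16764288) (c (a (l 107005052903) (b (l 154786566151) (l 16763496))) (l 126332407159))) (l 101099470919)))) (a (l 16767480) (b (c (a (l 16765528) (l 16764624)) (l 16764952)) (l 16766256)))) (b (a (l 16769928) (l 16768096)) (l 16782024))))) (a (b (l 16776760) (a (l 16759528) (b (l 16777936) (l 16779240)))) (b (a (l 16775208) (b (l 16773792) (l 16775440))) (l 16776144)))), by decide +kernel⟩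

def k92_pm_102_a : ∃ t, chk3 f_pm_102_a t 122 116 1 = true :=
  ⟨(a (b (a (a (b (l 3) (c (b (l 3) (c (a (b (l 158007794263) (c (l 163913373543) (l 123648051319))) (l 3)) (l 154249695031))) (l 151565339815))) (l 3)) (l 3)) (a (b (c (c (a (b (a (l 16763656) (b (l 156934050151) (l 151565341591))) (l 16764048)) (b (l 160155274551) (a (b (l 156397179559) (l 109689408695)) (l 160155275335)))) (a (l 104857569063) (l 153712824151))) (l 146733503127)) (c (a (l 16764952) (b (c (a (l 16763984) (b (c (l 155323438087) (l 153712825303)) (l 108615667191))) (l 119889956935)) (l 16763048))) (l 105931311911))) (b (l 3) (c (a (c (b (a (l 158007793319) (l 3)) (a (c (b (l 154249696583) (l 143512278919)) (l 108078796119)) (l 166060856023))) (l 151565341159)) (l 3)) (l 151028469319))))) (l 3)), by decide +kernel⟩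

def k93_pm_102_a : ∃ t, chk3 f_pm_102_a t 244 117 1 = true :=
  ⟨(b (a (c (l 16763736) (l 16766200)) (b (c (c (a (b (a (l 16764312) (c (b (l 152639084167) (l 141901666503)) (l 107541925543))) (l 16764696)) (b (a (b (l 3) (l 163376502103)) (l 3)) (a (a (l 107005055367) (b (l 160692147927) (l 107541926615))) (b (l 3) (l 159618406695))))) (a (l 110763151575) (l 149954729095))) (a (l 16762952) (l 146196632599))) (c (a (l 16765616) (c (a (l 16764944) (b (a (l 107005055847) (b (l 155860310055) (l 107005056119))) (l 16764800))) (l 105394442615))) (l 110226281143)))) (a (l 16768800) (c (l 16764400) (l 16766880)))), by decide +kernel⟩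

def k94_pm_102_a : ∃ t, chk3 f_pm_102_a t 245 117 1 = true :=
  ⟨(b (a (a (b (l 3) (c (b (a (a (b (l 3) (c (l 153712826567) (l 16763984))) (l 3)) (l 3)) (c (a (a (l 106468185351) (b (l 152102213991) (l 16763736))) (b (l 3) (c (l 157470923719) (l 151565343015)))) (l 146733504935))) (l 144586020487))) (l 3)) (l 3)) (a (b (c (a (c (a (l 16765280) (a (l 105931314695) (b (b (b (l 155323439639) (l 119889958375)) (l 16764560)) (l 16765016)))) (l 107541927239)) (a (c (b (b (l 3) (a (b (l 153175956167) (l 110226282199)) (l 162839632263))) (c (b (b (l 144049150935) (l 107541928007)) (l 16764840)) (l 114521250071))) (l 140291054471)) (b (l 3) (c (c (b (l 166060857687) (b (l 156397181735) (a (l 140827925751) (l 166060858247)))) (l 149417859703)) (l 146196634215))))) (a (l 16764248) (l 143512279303))) (c (a (l 16766280) (c (a (l 16765608) (b (c (a (l 16764968) (b (b (l 151565343975) (l 132237991159)) (l 16764896))) (l 110226282903)) (l 16765464))) (l 110763153703))) (l 114521250423))) (a (b (l 3) (c (b (c (a (c (b (l 161765890727) (a (c (l 143512280535)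 (l 108078799223)) (l 159081536567))) (l 147807247303)) (l 3)) (l 147270375927)) (c (c (a (a (l 16765128) (b (c (l 138143571495) (l 108078799479)) (l 16765056))) (b (a (l 156397182167) (l 3)) (a (l 125258669399) (l 153712827767)))) (a (l 105931315783) (l 146196634903))) (l 143512280759))) (l 141901667191))) (l 3)))), by decide +kernel⟩

def k95_pm_102_a : ∃ t, chk3 f_pm_102_a t 123 58 1 = true :=
  ⟨(l 3), by decide +kernel⟩

def k96_pm_102_a : ∃ t, chk3 f_pm_102_a t 122 59 1 = true :=
  ⟨(b (a (b (a (l 16771296) (l 16769512)) (l 16783224)) (b (a (c (l 16765064) (l 16767584)) (a (b (c (c (a (l 16765936) (b (c (b (a (l 16765144) (l 122037444007)) (l 16765336)) (l 108615670839)) (l 16765800))) (l 113447509255)) (l 16764248)) (l 16766920)) (b (c (b (c (a (c (b (a (l 151028473383) (l 3)) (a (l 118816218631) (l 149417860807))) (l 145122893415)) (l 3)) (l 145122892935)) (c (c (a (b (a (l 16765304) (l 113984380423)) (l 16765504)) (a (b (l 147807248231) (l 111836896935)) (b (l 3) (c (l 147270377495) (l 145659764759))))) (a (l 111300025895) (l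 144049151927))) (a (l 16765304) (l 141364797303)))) (l 140291055111)) (c (b (c (a (l 16765960) (c (a (l 16765624) (l 107541929703)) (l 16764848))) (l 16764392)) (l 16766352)) (l 16765896))))) (a (l 16770136) (c (l 16768344) (l 16768296))))) (a (l 16775384) (b (a (l 16772520) (l 16770752)) (l 16773872)))), by decide +kernel⟩

def k97_pm_102_a : ∃ t, chk3 f_pm_102_a t 123 118 1 = true :=
  ⟨(a (b (a (a (b (l 3) (c (b (c (a (c (c (b (a (l 145659764919) (l 3)) (a (l 112373768343) (l 145122894183))) (b (l 146196635591) (l 141901668935))) (l 142438539511)) (l 3)) (l 142975409927)) (c (a (c (l 106468188199) (l 16765016)) (b (c (a (b (l 146733506919) (l 118816219079)) (l 3)) (l 142438539543)) (c (a (l 16765088) (b (l 145659765271) (l 115058122775))) (l 121500573607)))) (a (l 16765640) (l 139217314311)))) (b (l 137606700583) (l 129553637127)))) (l 3)) (l 3)) (b (b (a (c (a (c (c (a (l 16766296) (l 108615672343)) (l 16764760)) (l 16766040)) (a (c (b (a (b (l 140827927207) (l 120963703031)) (l 3)) (c (a (l 16765664) (b (l 142975411031) (l 118279348743)))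 (l 123111186823))) (l 138680443719)) (l 3))) (a (l 16763296) (l 136532959415))) (l 3)) (a (a (l 16766648) (c (b (c (a (l 16765360) (c (a (b (l 120426832247) (l 119889961719)) (l 3)) (l 141364798375))) (l 138680444199)) (a (l 16766152) (a (l 16765560) (b (a (l 127406154567) (l 120426832407)) (l 127406154679))))) (l 127943025287))) (c (a (c (a (b (l 3) (c (l 150491603591) (l 145659765383))) (l 3)) (l 147270377335)) (l 3)) (l 146733505431)))) (a (a (l 16767616) (c (c (c (l 16765320) (l 16765400)) (l 16766040)) (l 16766576))) (c (a (b (c (a (b (a (a (l 124184929383) (l 119889961607)) (l 143512282135)) (a (l 16765992) (a (l 124184929543) (l 117742478167)))) (b (l 3) (l 146733507543))) (a (l 124721799687) (l 141901668967))) (c (a (l 16765688) (c (b (a (l 113447511047) (l 145122895207)) (a (l 16766160) (l 115594994935))) (l 137606702951))) (a (l 16766304) (l 124184929111)))) (b (l 3) (c (a (b (l 3) (l 145659766055)) (l 3)) (l 146196636167)))) (a (b (l 135996089159) (l 129553638855)) (l 144049151767)))))) (l 3)), by decide +kernel⟩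

def k98_pm_102_a : ∃ t, chk3 f_pm_102_a t 123 119 1 = true :=
  ⟨(a (b (a (l 16765072) (b (c (a (c (b (l 16765432) (l 16767352)) (l 16767040)) (a (b (c (a (b (l 121500575207) (l 16766320)) (b (l 140827928231) (l 124184930007))) (l 125258671431)) (l 16765360)) (b (c (b (l 3) (l 144586024567)) (l 141364798711)) (a (b (l 128479897511) (l 16766472)) (b (l 136532961239) (l 129016768599)))))) (a (l 16766928) (b (l 134385477079) (l 130090510535)))) (c (c (a (l 16768280) (l 16766072)) (l 16765208)) (l 16765144)))) (a (l 16776608) (l 16764408))) (b (a (a (b (c (b (l 3) (c (a (b (l 3) (l 142975412151)) (l 3)) (l 145122894999))) (l 144049152423)) (c (b (b (a (a (l 129016768759) (l 136532961559)) (l 3)) (c (a (l 120963705287) (l 142438541575)) (l 135459220103))) (c (a (l 16767016) (b (c (l 135459220359) (l 121500575879)) (l 121500576615))) (l 119889963335))) (b (l 133848606839) (l 130090511303)))) (b (l 3) (c (b (l 3) (c (a (b (l 3) (l 141364800087)) (l 3)) (l 144586024759))) (l 143512282183)))) (l 3)) (a (b (c (a (l 16766400) (a (b (a (l 124721802215)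 (b (l 120963705047) (l 16766616))) (l 16767352)) (b (b (l 3) (l 138680446487)) (a (l 124721802631) (b (l 121500576327) (l 16766912)))))) (a (l 16767632) (b (l 133311736615) (l 129553641079)))) (c (a (l 16768928) (l 16766736)) (l 16768488))) (a (b (a (a (b (l 3) (b (l 3) (l 125795543799))) (l 3)) (l 3)) (b (c (a (c (b (l 117742480279) (l 16767216)) (l 126869286503)) (b (l 3) (l 138143575575))) (l 122574317735)) (a (l 16767648) (b (a (l 16767112) (l 126332415223)) (l 130090512583))))) (b (l 3) (a (b (l 3) (a (b (l 3) (l 127406157303)) (l 136532962567))) (l 3))))))), by decide +kernel⟩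

def k99_pm_102_a : ∃ t, chk3 f_pm_102_a t 31 14 1 = true :=
  ⟨(b (l 3) (l 3)), by decide +kernel⟩

def k100_pm_102_a : ∃ t, chk3 f_pm_102_a t 30 15 1 = true :=
  ⟨(b (a (b (a (b (l 16781880) (a (l 16784952) (l 16783712))) (b (a (b (l 16778808) (l 16780248)) (b (l 16777312) (l 16778392))) (a (l 16782128) (l 16759864)))) (a (b (b (a (l 16787704) (l 16785784)) (l 16788488)) (l 16790520)) (b (a (b (l 16784416) (l 16785912)) (l 16783584)) (b (a (l 16787720) (l 16786080)) (l 16788416))))) (b (a (b (l 16778864) (a (b (l 16778008) (l 16779792)) (b (l 16776576) (a (l 16778216) (l 16777488))))) (a (b (b (a (l 16773664) (b (l 16771424) (l 16772592))) (a (l 16775296) (l 16774176))) (l 16775600)) (b (b (a (l 16765048) (b (c (a (l 16768376) (b (a (b (l 122037448375) (l 16767544)) (c (l 140827930551) (l 138143575911))) (c (a (l 16768024) (l 113447514151)) (l 117205610967)))) (a (l 16768352) (b (l 122037447527) (l 16767360)))) (c (l 16766528) (l 16769184)))) (a (b (l 16772016) (l 16773184)) (c (l 16770944) (l 16770896)))) (b (a (l 16774632) (b (l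 16772624) (l 16773744))) (l 16775168))))) (a (b (a (l 16781904) (b (a (l 16779888) (l 16779064)) (l 16780984))) (a (b (l 16784216) (l 16807216)) (a (l 16804632) (l 16783072)))) (a (b (b (a (l 16777952) (l 16777232)) (a (l 16779808) (l 16778784))) (l 16781704)) (b (b (l 16775944) (l 6)) (l 6)))))) (b (a (b (a (l 16793888) (l 16811920)) (a (l 16818600) (b (l 16793680) (l 16795616)))) (b (a (a (l 16788608) (b (l 16807304) (l 6))) (l 6)) (l 6))) (a (b (a (b (a (l 16801200) (l 16799960)) (a (l 16802920) (l 16801832))) (b (l 16797656) (l 6))) (a (c (l 16807016) (l 16800952)) (l 6))) (l 6)))), by decide +kernel⟩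

def k101_pm_102_a : ∃ t, chk3 f_pm_102_a t 31 15 1 = true :=
  ⟨(b (a (a (b (b (a (b (a (a (b (c (b (l 3) (c (a (l 140291059975) (l 3)) (l 141901672199))) (l 142438542375)) (c (b (c (a (l 112910643591) (l 139217318487)) (l 132237997031)) (c (l 107005063847) (l 16767472))) (b (l 121500577303) (l 16768040)))) (b (l 3) (c (b (l 3) (c (a (l 138680447911) (l 3)) (l 141364801975))) (l 142438543063)))) (l 3)) (a (a (c (l 16767024) (l 16769664)) (b (a (c (c (l 91972677351) (l 16767736)) (l 16768312)) (c (b (c (l 138143577335) (l 115058126663)) (l 113447515511)) (l 117742481463))) (l 16766752))) (a (b (c (b (l 3) (c (a (l 137069835847) (l 3)) (l 140291060823))) (l 141901672839)) (b (c (a (l 112373774023) (l 136532965911)) (l 118816223991)) (c (l 102710097495) (l 16768760)))) (a (b (l 3) (b (l 3) (b (l 115058127079) (l 6)))) (l 3))))) (l 3)) (a (b (a (b (l 16770960) (l 16772080)) (a (a (l 16770488) (l 16767120)) (l 6))) (a (b (l 16773232) (l 6)) (l 6))) (l 6))) (l 6)) (l 6)) (l 6)) (l 6)), by decide +kernel⟩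

theorem s102_pm_102_a : ∃ t, chk3 f_pm_102_a t 15 15 1 = true := ex3_a k100_pm_102_a k101_pm_102_a

theorem s103_pm_102_a : ∃ t, chk3 f_pm_102_a t 123 59 1 = true := ex3_b k97_pm_102_a k98_pm_102_a

theorem s104_pm_102_a : ∃ t, chk3 f_pm_102_a t 61 59 1 = true := ex3_a k96_pm_102_a s103_pm_102_a

theorem s105_pm_102_a : ∃ t, chk3 f_pm_102_a t 122 117 1 = true := ex3_a k93_pm_102_a k94_pm_102_a

theorem s106_pm_102_a : ∃ t, chk3 f_pm_102_a t 122 58 1 = true := ex3_b k92_pm_102_a s105_pm_102_a

theorem s107_pm_102_a : ∃ t, chk3 f_pm_102_a t 61 58 1 = true := ex3_a s106_pm_102_a k95_pm_102_a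

theorem s108_pm_102_a : ∃ t, chk3 f_pm_102_a t 61 29 1 = true := ex3_b s107_pm_102_a s104_pm_102_a

theorem s109_pm_102_a : ∃ t, chk3 f_pm_102_a t 30 29 1 = true := ex3_a k91_pm_102_a s108_pm_102_a

theorem s110_pm_102_a : ∃ t, chk3 f_pm_102_a t 60 28 1 = true := ex3_b k88_pm_102_a k89_pm_102_a

theorem s111_pm_102_a : ∃ t, chk3 f_pm_102_a t 30 28 1 = true := ex3_a s110_pm_102_a k90_pm_102_a

theorem s112_pm_102_a : ∃ t, chk3 f_pm_102_a t 30 14 1 = true := ex3_b s111_pm_102_a s109_pm_102_a

theorem s113_pm_102_a : ∃ t, chk3 f_pm_102_a t 15 14 1 = true := ex3_a s112_pm_102_a k99_pm_102_a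

theorem s114_pm_102_a : ∃ t, chk3 f_pm_102_a t 15 7 1 = true := ex3_b s113_pm_102_a s102_pm_102_a

theorem s115_pm_102_a : ∃ t, chk3 f_pm_102_a t 29 14 1 = true := ex3_b k85_pm_102_a k86_pm_102_a

theorem s116_pm_102_a : ∃ t, chk3 f_pm_102_a t 14 14 1 = true := ex3_a k84_pm_102_a s115_pm_102_a

theorem s117_pm_102_a : ∃ t, chk3 f_pm_102_a t 14 7 1 = true := ex3_b s116_pm_102_a k87_pm_102_a

theorem s118_pm_102_a : ∃ t, chk3 f_pm_102_a t 7 7 1 = true := ex3_a s117_pm_102_a s114_pm_102_a

theorem s119_pm_102_a : ∃ t, chk3 f_pm_102_a t 59 55 1 = true := ex3_a k81_pm_102_a k82_pm_102_a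

theorem s120_pm_102_a : ∃ t, chk3 f_pm_102_a t 59 27 1 = true := ex3_b k80_pm_102_a s119_pm_102_a

theorem s121_pm_102_a : ∃ t, chk3 f_pm_102_a t 29 27 1 = true := ex3_a k79_pm_102_a s120_pm_102_a

theorem s122_pm_102_a : ∃ t, chk3 f_pm_102_a t 29 13 1 = true := ex3_b k78_pm_102_a s121_pm_102_a

theorem s123_pm_102_a : ∃ t, chk3 f_pm_102_a t 14 13 1 = true := ex3_a k77_pm_102_a s122_pm_102_a

theorem s124_pm_102_a : ∃ t, chk3 f_pm_102_a t 28 25 1 = true := ex3_a k74_pm_102_a k75_pm_102_a

theorem s125_pm_102_a : ∃ t, chk3 f_pm_102_a t 28 12 1 = true := ex3_b k73_pm_102_a s124_pm_102_a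

theorem s126_pm_102_a : ∃ t, chk3 f_pm_102_a t 14 12 1 = true := ex3_a s125_pm_102_a k76_pm_102_a

theorem s127_pm_102_a : ∃ t, chk3 f_pm_102_a t 14 6 1 = true := ex3_b s126_pm_102_a s123_pm_102_a

theorem s128_pm_102_a : ∃ t, chk3 f_pm_102_a t 7 6 1 = true := ex3_a s127_pm_102_a k83_pm_102_a

theorem s129_pm_102_a : ∃ t, chk3 f_pm_102_a t 7 3 1 = true := ex3_b s128_pm_102_a s118_pm_102_a

theorem s130_pm_102_a : ∃ t, chk3 f_pm_102_a t 55 48 1 = true := ex3_a k67_pm_102_a k68_pm_102_a

theorem s131_pm_102_a : ∃ t, chk3 f_pm_102_a t 55 24 1 = true := ex3_b s130_pm_102_a k69_pm_102_a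

theorem s132_pm_102_a : ∃ t, chk3 f_pm_102_a t 27 24 1 = true := ex3_a k66_pm_102_a s131_pm_102_a

theorem s133_pm_102_a : ∃ t, chk3 f_pm_102_a t 27 12 1 = true := ex3_b s132_pm_102_a k70_pm_102_a

theorem s134_pm_102_a : ∃ t, chk3 f_pm_102_a t 13 12 1 = true := ex3_a k65_pm_102_a s133_pm_102_a

theorem s135_pm_102_a : ∃ t, chk3 f_pm_102_a t 13 6 1 = true := ex3_b s134_pm_102_a k71_pm_102_a

theorem s136_pm_102_a : ∃ t, chk3 f_pm_102_a t 6 6 1 = true := ex3_a k64_pm_102_a s135_pm_102_a

theorem s137_pm_102_a : ∃ t, chk3 f_pm_102_a t 6 3 1 = true := ex3_b s136_pm_102_a k72_pm_102_a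

theorem s138_pm_102_a : ∃ t, chk3 f_pm_102_a t 3 3 1 = true := ex3_a s137_pm_102_a s129_pm_102_a

theorem s139_pm_102_a : ∃ t, chk3 f_pm_102_a t 54 46 1 = true := ex3_a k59_pm_102_a k60_pm_102_a

theorem s140_pm_102_a : ∃ t, chk3 f_pm_102_a t 54 23 1 = true := ex3_b s139_pm_102_a k61_pm_102_a

theorem s141_pm_102_a : ∃ t, chk3 f_pm_102_a t 54 11 1 = true := ex3_b k58_pm_102_a s140_pm_102_a

theorem s142_pm_102_a : ∃ t, chk3 f_pm_102_a t 27 11 1 = true := ex3_a s141_pm_102_a k62_pm_102_a

theorem s143_pm_102_a : ∃ t, chk3 f_pm_102_a t 27 5 1 = true := ex3_b k57_pm_102_a s142_pm_102_a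

theorem s144_pm_102_a : ∃ t, chk3 f_pm_102_a t 53 22 1 = true := ex3_a k54_pm_102_a k55_pm_102_a

theorem s145_pm_102_a : ∃ t, chk3 f_pm_102_a t 26 22 1 = true := ex3_a k53_pm_102_a s144_pm_102_a

theorem s146_pm_102_a : ∃ t, chk3 f_pm_102_a t 26 11 1 = true := ex3_b s145_pm_102_a k56_pm_102_a

theorem s147_pm_102_a : ∃ t, chk3 f_pm_102_a t 26 5 1 = true := ex3_b k52_pm_102_a s146_pm_102_a

theorem s148_pm_102_a : ∃ t, chk3 f_pm_102_a t 13 5 1 = true := ex3_a s147_pm_102_a s143_pm_102_a

theorem s149_pm_102_a : ∃ t, chk3 f_pm_102_a t 13 2 1 = true := ex3_b k51_pm_102_a s148_pm_102_a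

theorem s150_pm_102_a : ∃ t, chk3 f_pm_102_a t 25 10 1 = true := ex3_b k48_pm_102_a k49_pm_102_a

theorem s151_pm_102_a : ∃ t, chk3 f_pm_102_a t 12 10 1 = true := ex3_a k47_pm_102_a s150_pm_102_a

theorem s152_pm_102_a : ∃ t, chk3 f_pm_102_a t 12 5 1 = true := ex3_b s151_pm_102_a k50_pm_102_a

theorem s153_pm_102_a : ∃ t, chk3 f_pm_102_a t 49 19 1 = true := ex3_b k44_pm_102_a k45_pm_102_a

theorem s154_pm_102_a : ∃ t, chk3 f_pm_102_a t 49 9 1 = true := ex3_b k43_pm_102_a s153_pm_102_a

theorem s155_pm_102_a : ∃ t, chk3 f_pm_102_a t 24 9 1 = true := ex3_a k42_pm_102_a s154_pm_102_a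

theorem s156_pm_102_a : ∃ t, chk3 f_pm_102_a t 12 9 1 = true := ex3_a s155_pm_102_a k46_pm_102_a

theorem s157_pm_102_a : ∃ t, chk3 f_pm_102_a t 12 4 1 = true := ex3_b k41_pm_102_a s156_pm_102_a

theorem s158_pm_102_a : ∃ t, chk3 f_pm_102_a t 12 2 1 = true := ex3_b s157_pm_102_a s152_pm_102_a

theorem s159_pm_102_a : ∃ t, chk3 f_pm_102_a t 6 2 1 = true := ex3_a s158_pm_102_a s149_pm_102_a

theorem s160_pm_102_a : ∃ t, chk3 f_pm_102_a t 3 2 1 = true := ex3_a s159_pm_102_a k63_pm_102_a

theorem s161_pm_102_a : ∃ t, chk3 f_pm_102_a t 3 1 1 = true := ex3_b s160_pm_102_a s138_pm_102_a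

theorem s162_pm_102_a : ∃ t, chk3 f_pm_102_a t 20 63 3 = true := ex3_a k37_pm_102_a k38_pm_102_a

theorem s163_pm_102_a : ∃ t, chk3 f_pm_102_a t 20 31 3 = true := ex3_b k36_pm_102_a s162_pm_102_a

theorem s164_pm_102_a : ∃ t, chk3 f_pm_102_a t 10 31 3 = true := ex3_a s163_pm_102_a k39_pm_102_a

theorem s165_pm_102_a : ∃ t, chk3 f_pm_102_a t 10 31 1 = true := ex3_c k35_pm_102_a s164_pm_102_a

theorem s166_pm_102_a : ∃ t, chk3 f_pm_102_a t 10 15 1 = true := ex3_b k34_pm_102_a s165_pm_102_a

theorem s167_pm_102_a : ∃ t, chk3 f_pm_102_a t 10 7 1 = true := ex3_b k33_pm_102_a s166_pm_102_a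

theorem s168_pm_102_a : ∃ t, chk3 f_pm_102_a t 5 7 1 = true := ex3_a s167_pm_102_a k40_pm_102_a

theorem s169_pm_102_a : ∃ t, chk3 f_pm_102_a t 5 3 1 = true := ex3_b k32_pm_102_a s168_pm_102_a

theorem s170_pm_102_a : ∃ t, chk3 f_pm_102_a t 19 63 1 = true := ex3_a k30_pm_102_a k31_pm_102_a

theorem s171_pm_102_a : ∃ t, chk3 f_pm_102_a t 19 31 1 = true := ex3_b k29_pm_102_a s170_pm_102_a

theorem s172_pm_102_a : ∃ t, chk3 f_pm_102_a t 19 15 1 = true := ex3_b k28_pm_102_a s171_pm_102_a

theorem s173_pm_102_a : ∃ t, chk3 f_pm_102_a t 18 127 1 = true := ex3_c k26_pm_102_a k27_pm_102_a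

theorem s174_pm_102_a : ∃ t, chk3 f_pm_102_a t 18 63 1 = true := ex3_b k25_pm_102_a s173_pm_102_a

theorem s175_pm_102_a : ∃ t, chk3 f_pm_102_a t 18 31 1 = true := ex3_b k24_pm_102_a s174_pm_102_a

theorem s176_pm_102_a : ∃ t, chk3 f_pm_102_a t 18 15 1 = true := ex3_b k23_pm_102_a s175_pm_102_a

theorem s177_pm_102_a : ∃ t, chk3 f_pm_102_a t 9 15 1 = true := ex3_a s176_pm_102_a s172_pm_102_a

theorem s178_pm_102_a : ∃ t, chk3 f_pm_102_a t 34 63 1 = true := ex3_b k20_pm_102_a k21_pm_102_a

theorem s179_pm_102_a : ∃ t, chk3 f_pm_102_a t 34 31 1 = true := ex3_b k19_pm_102_a s178_pm_102_a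

theorem s180_pm_102_a : ∃ t, chk3 f_pm_102_a t 17 31 1 = true := ex3_a s179_pm_102_a k22_pm_102_a

theorem s181_pm_102_a : ∃ t, chk3 f_pm_102_a t 67 255 2 = true := ex3_b k16_pm_102_a k17_pm_102_a

theorem s182_pm_102_a : ∃ t, chk3 f_pm_102_a t 67 127 2 = true := ex3_b k15_pm_102_a s181_pm_102_a

theorem s183_pm_102_a : ∃ t, chk3 f_pm_102_a t 33 127 2 = true := ex3_a k14_pm_102_a s182_pm_102_a

theorem s184_pm_102_a : ∃ t, chk3 f_pm_102_a t 33 63 2 = true := ex3_b k13_pm_102_a s183_pm_102_a

theorem s185_pm_102_a : ∃ t, chk3 f_pm_102_a t 33 63 1 = true := ex3_c s184_pm_102_a k18_pm_102_a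

theorem s186_pm_102_a : ∃ t, chk3 f_pm_102_a t 32 63 1 = true := ex3_a k11_pm_102_a k12_pm_102_a

theorem s187_pm_102_a : ∃ t, chk3 f_pm_102_a t 16 63 1 = true := ex3_a s186_pm_102_a s185_pm_102_a

theorem s188_pm_102_a : ∃ t, chk3 f_pm_102_a t 16 31 1 = true := ex3_b k10_pm_102_a s187_pm_102_a

theorem s189_pm_102_a : ∃ t, chk3 f_pm_102_a t 8 31 1 = true := ex3_a s188_pm_102_a s180_pm_102_a

theorem s190_pm_102_a : ∃ t, chk3 f_pm_102_a t 8 15 1 = true := ex3_b k9_pm_102_a s189_pm_102_a

theorem s191_pm_102_a : ∃ t, chk3 f_pm_102_a t 4 15 1 = true := ex3_a s190_pm_102_a s177_pm_102_a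

theorem s192_pm_102_a : ∃ t, chk3 f_pm_102_a t 4 7 1 = true := ex3_b k8_pm_102_a s191_pm_102_a

theorem s193_pm_102_a : ∃ t, chk3 f_pm_102_a t 4 3 1 = true := ex3_b k7_pm_102_a s192_pm_102_a

theorem s194_pm_102_a : ∃ t, chk3 f_pm_102_a t 2 3 1 = true := ex3_a s193_pm_102_a s169_pm_102_a

theorem s195_pm_102_a : ∃ t, chk3 f_pm_102_a t 22 8 1 = true := ex3_b k2_pm_102_a k3_pm_102_a

theorem s196_pm_102_a : ∃ t, chk3 f_pm_102_a t 22 4 1 = true := ex3_b s195_pm_102_a k4_pm_102_a

theorem s197_pm_102_a : ∃ t, chk3 f_pm_102_a t 11 4 1 = true := ex3_a s196_pm_102_a k5_pm_102_a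

theorem s198_pm_102_a : ∃ t, chk3 f_pm_102_a t 11 2 1 = true := ex3_b s197_pm_102_a k6_pm_102_a

theorem s199_pm_102_a : ∃ t, chk3 f_pm_102_a t 5 2 1 = true := ex3_a k1_pm_102_a s198_pm_102_a

theorem s200_pm_102_a : ∃ t, chk3 f_pm_102_a t 2 2 1 = true := ex3_a k0_pm_102_a s199_pm_102_a

theorem s201_pm_102_a : ∃ t, chk3 f_pm_102_a t 2 1 1 = true := ex3_b s200_pm_102_a s194_pm_102_a

theorem s202_pm_102_a : ∃ t, chk3 f_pm_102_a t 1 1 1 = true := ex3_a s201_pm_102_a s161_pm_102_a

theorem c_pm_102_a : CertB 536870912 536870912 0 536870912 587336777 62277027 3 eng mog cd0q1 cd2q2a pd0 false true false .npp 1 0 2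
    ndB0q1 ndB2q2a pcB0 cut_pm_102_a xt_pm_102_a :=
  certB0 (fam := false) (s1 := true) (s2 := false) (a := 1) (b := 0) (c := 2) (cn := .npp) (n1 := ndB0q1) (n2 := ndB2q2a) (pc := pcB0) (cut := cut_pm_102_a) (xt := xt_pm_102_a) (P1 := 536870912) (W1 := 536870912) (P2 := 0) (W2 := 536870912) (P3 := 587336777) (W3 := 62277027) (N0 := 3) (En := eng) (mo := mog) (C1 := cd0q1) (C2 := cd2q2a) (C3 := pd0)
    rfl s202_pm_102_a

noncomputable def cut_pm_102_b : Cut := Cut.of [[⟨0, 1, 0, 67108864⟩, ⟨1, 0, 0, 67108864⟩, ⟨2, 1, 0, 67108864⟩], [⟨0, 0, 1, 20971520⟩, ⟨1, 1, 2, 20971520⟩, ⟨2, 1, 0, 29360128⟩]]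

noncomputable def f_pm_102_b : ℕ → ℕ → ℕ → ℕ → Bool := onCell 0 536870912 1239849684 370763052 587336777 62277027
    (rowB 3 eng mog cd0q1 cd2q2b pd0 2 false true false .npp 1 0 2 (qsf 536870912 536870912 1239849684 370763052 0) ndB0q1 ndB2q2b pcB0 cut_pm_102_b Ext.none)

def k0_pm_102_b : ∃ t, chk3 f_pm_102_b t 1 1 1 = true :=
  ⟨(a (l 3) (b (a (l 3) (a (l 3) (b (a (b (a (l 3) (b (a (b (a (a (l 3) (b (b (a (b (b (a (l 3) (a (l 3) (c (l 51707364023) (l 16769848)))) (l 3)) (l 3)) (b (a (c (c (l 6073336007) (l 16769688)) (c (l 16769736) (l 16769752))) (l 16770688)) (c (l 53854845175) (l 53854847623)))) (l 3)) (l 3))) (b (a (b (a (c (l 16769904) (l 16769824)) (l 16770496)) (c (c (l 51707359703) (l 51170488647)) (l 53317976327))) (c (l 16770296) (l 16769872))) (a (l 3) (c (l 53854839447) (l 16764768))))) (l 3)) (b (a (c (b (l 16771944) (a (l 16766608) (l 16767832))) (b (l 16771152) (l 16766352))) (c (l 16771584) (l 16775568))) (a (b (c (l 54928576055) (l 16761288)) (l 3)) (b (l 16764096) (l 57076057719))))) (l 3))) (l 3)) (b (a (b (a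 (b (a (c (l 16772856) (l 16771200)) (l 16772488)) (a (c (l 16764808) (l 16762896)) (l 16765728))) (b (b (l 16771736) (l 16771672)) (l 16767792))) (a (b (a (l 58686675863) (l 16810739575)) (l 3)) (b (l 8220809399) (c (l 60834146503) (l 63518487943))))) (b (a (b (b (l 16768056) (l 16770608)) (l 16769160)) (b (b (l 16762688) (l 16767952)) (l 16769144))) (a (b (l 16763144) (l 16754912)) (l 16762224)))) (a (b (a (l 3) (l 3)) (l 3)) (b (a (b (l 67813465047) (l 71571513223)) (b (l 16750392) (l 16741272))) (a (l 3) (l 83919555207)))))) (l 3)))) (a (l 3) (l 3)))), by decide +kernel⟩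

theorem c_pm_102_b : CertB 536870912 536870912 1239849684 370763052 587336777 62277027 3 eng mog cd0q1 cd2q2b pd0 false true false .npp 1 0 2
    ndB0q1 ndB2q2b pcB0 cut_pm_102_b Ext.none :=
  certB2 (fam := false) (s1 := true) (s2 := false) (a := 1) (b := 0) (c := 2) (cn := .npp) (n1 := ndB0q1) (n2 := ndB2q2b) (pc := pcB0) (cut := cut_pm_102_b) (xt := Ext.none) (P1 := 536870912) (W1 := 536870912) (P2 := 1239849684) (W2 := 370763052) (P3 := 587336777) (W3 := 62277027) (N0 := 3) (En := eng) (mo := mog) (C1 := cd0q1) (C2 := cd2q2b) (C3 := pd0)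
    rfl (fun _ => rfl) k0_pm_102_b

noncomputable def xt_pm_112_a : Ext := extD2 3 ⟨7, 3, 3, 10, 1815, 1000, 17, 20, 37, 100, 3, 16⟩ eng cd0q1 cd2q2a pd1 false true false .dn 1 1 2 rfl ndB0q1 ndB2q2a pcB1

noncomputable def f_pm_112_a : ℕ → ℕ → ℕ → ℕ → Bool := onCell 536870912 536870912 0 536870912 587336777 62277027
    (rowB 3 eng mog cd0q1 cd2q2a pd1 2 false true false .dn 1 1 2 (qsf 536870912 536870912 0 536870912 1) ndB0q1 ndB2q2a pcB1 Cut.none xt_pm_112_a)

def k0_pm_112_a : ∃ t, chk3 f_pm_112_a t 4 2 1 = true :=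
  ⟨(b (a (b (a (a (b (a (l 16739640) (l 16734368)) (a (l 16720376) (l 16714888))) (b (a (l 16728960) (l 16723456)) (l 16706552))) (b (a (l 16715160) (l 16704312)) (a (b (l 16700632) (l 16690272)) (b (l 16689896) (l 16679600))))) (a (b (a (a (l 16698480) (l 16692872)) (b (l 16690296) (l 16678680))) (a (b (l 16677568) (l 16664416)) (l 16659952))) (b (a (l 16673520) (l 16663200)) (l 16644344)))) (b (a (b (a (b (l 16698448) (l 16689256)) (b (l 16688416) (l 16679296))) (a (l 16674536) (l 16664968))) (b (a (l 16674328) (l 16665272)) (l 16651472))) (a (l 16658552) (b (l 16631624) (l 16610568))))) (a (a (b (a (l 16648640) (b (l 16632464) (l 16602008))) (b (a (l 16576432) (l 16567488)) (l 16533744))) (b (b (l 16617968) (l 16588424)) (l 16539048))) (b (a (b (l 16601480) (l 16574504)) (l 16617408)) (a (l 16529632) (l 16524088))))), by decide +kernel⟩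

def k1_pm_112_a : ∃ t, chk3 f_pm_112_a t 4 3 1 = true :=
  ⟨(b (a (b (a (l 16489480) (l 16442728)) (a (a (l 16370904) (l 16373336)) (b (l 16401280) (l 16358392)))) (b (a (b (l 16481072) (l 16446496)) (l 16447072)) (a (b (l 16411208) (l 16375840)) (b (l 16424720) (l 1))))) (a (b (b (a (b (l 16332144) (l 16373344)) (a (l 16362880) (l 16347688))) (a (b (l 16353264) (l 16376488)) (a (l 16344016) (l 16349040)))) (b (a (a (b (l 16333256) (c (l 16339048) (l 16334560))) (b (l 16341112) (l 16344576))) (a (l 109554454343) (l 1))) (a (b (a (c (b (l 16343152) (l 594359858662478264064559)) (b (l 16337104) (l 16338928))) (c (l 119218059527) (l 16345184))) (a (a (b (c (l 594302500817624075639343) (l 16338944)) (a (c (b (l 594211420018760137660975) (a (b (l 594166456080080472169007) (b (c (l 594171067766098905274927) (l 594063846066170459494959)) (b (c (l 594148297566382920784431) (l 594041075866454474889775)) (a (a (b (c (l 594173373609108119263791) (l 594063557835794307930671)) (b (c (l 594167897231961236920879) (l 594057793228271273843247)) (a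 (a (c (b (l 594173950069860422752815) (c (c (c (l 595572155624572380221999) (l 595620866558142018458159)) (c (l 595669289261335504966191) (l 595729817640327363351087))) (c (c (l 595790346019319221735983) (l 595839056952888859906607)) (c (l 595887479656082346365487) (l 595936190589651984503343))))) (c (c (c (l 595988936748487746572847) (l 596037647682057384694319)) (c (l 596086358615627022799407) (l 596134781318820509176367))) (c (c (l 596183492252390147248687) (l 596232203185959785321007)) (c (l 596280914119529423360559) (l 596329625053099061400111))))) (l 1)) (l 1)))) (l 1)) (l 1))))) (b (l 594071916516702712814127) (l 1)))) (b (l 593950571528342819985967) (c (a (b (l 593975071110315721366063) (b (l 593928666019755296758319) (a (b (l 593926648407122234759727) (b (l 593915119192076166535727) (a (c (c (c (l 596375453682907182436911) (l 596424452846852972155439)) (c (l 596473163780422610145839) (l 596521874713992248119855))) (c (c (l 596570873877938037789231) (l 596619584811507675730479)) (l 16340976))) (l 1)))) (l 1)))) (l 143377220935))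 (l 16337944)))) (b (c (l 594021187970500012022319) (l 16341480)) (l 1)))) (c (b (l 593917713265461548456495) (l 1)) (l 139619143415))) (l 1))) (l 1)))) (b (a (b (l 16408424) (l 1)) (l 1)) (l 1)))), by decide +kernel⟩

def k2_pm_112_a : ∃ t, chk3 f_pm_112_a t 5 1 1 = true :=
  ⟨(b (a (b (b (a (a (l 16647816) (l 16639792)) (l 1)) (a (b (l 16616584) (l 16596904)) (l 1))) (a (b (l 16565752) (l 16520960)) (l 1))) (l 1)) (b (l 1) (l 1))), by decide +kernel⟩

def k3_pm_112_a : ∃ t, chk3 f_pm_112_a t 3 1 1 = true :=
  ⟨(l 1), by decide +kernel⟩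

theorem s4_pm_112_a : ∃ t, chk3 f_pm_112_a t 4 1 1 = true := ex3_b k0_pm_112_a k1_pm_112_a

theorem s5_pm_112_a : ∃ t, chk3 f_pm_112_a t 2 1 1 = true := ex3_a s4_pm_112_a k2_pm_112_a

theorem s6_pm_112_a : ∃ t, chk3 f_pm_112_a t 1 1 1 = true := ex3_a s5_pm_112_a k3_pm_112_a

theorem c_pm_112_a : CertB 536870912 536870912 0 536870912 587336777 62277027 3 eng mog cd0q1 cd2q2a pd1 false true false .dn 1 1 2
    ndB0q1 ndB2q2a pcB1 Cut.none xt_pm_112_a :=
  certB2 (fam := false) (s1 := true) (s2 := false) (a := 1) (b := 1) (c := 2) (cn := .dn) (n1 := ndB0q1) (n2 := ndB2q2a) (pc := pcB1) (cut := Cut.none) (xt := xt_pm_112_a) (P1 := 536870912) (W1 := 536870912) (P2 := 0) (W2 := 536870912) (P3 := 587336777) (W3 := 62277027) (N0 := 3) (En := eng) (mo := mog) (C1 := cd0q1) (C2 := cd2q2a) (C3 := pd1)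
    rfl (fun _ => rfl) s6_pm_112_a

noncomputable def f_pm_112_b : ℕ → ℕ → ℕ → ℕ → Bool := onCell 536870912 536870912 536870912 536870912 587336777 62277027
    (rowB 3 eng mog cd0q1 cd2q2b pd1 1 false true false .dn 1 1 2 (qsf 536870912 536870912 1239849684 370763052 1) ndB0q1 ndB2q2b pcB1 Cut.none Ext.none)

def k0_pm_112_b : ∃ t, chk3 f_pm_112_b t 1 2 1 = true :=
  ⟨(a (b (a (a (b (l 1) (a (b (l 1) (a (l 1) (l 258268222759))) (a (b (l 1) (l 219076677735)) (b (l 276521858231) (l 219076679079))))) (b (b (a (l 1) (b (l 1) (a (l 1) (l 212634309719)))) (a (a (l 1) (l 270616349095)) (b (a (l 222834835719) (l 192770109623)) (a (l 199749409671) (l 16730120))))) (b (a (a (l 226592906231) (l 184180098423)) (l 16725392)) (a (b (l 16703528) (l 16702472)) (l 16721792))))) (b (a (a (b (a (b (b (l 1) (l 220150554551)) (b (l 183106451479) (l 155726017671))) (b (a (l 194380756823) (l 128345633687)) (l 16749464))) (a (l 16740584) (l 16747800))) (b (a (b (a (l 16755528) (l 16758200)) (l 16755288)) (b (l 16759472) (l 16755776))) (l 16773032))) (b (a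 (b (a (l 16755696) (l 16746136)) (l 16748504)) (a (b (l 55465422199) (l 16731376)) (l 153712788487))) (a (l 16787536) (a (l 16732264) (l 100025707927))))) (a (a (l 16759216) (l 16745952)) (b (a (l 16745112) (l 16732464)) (a (l 16748760) (l 16744136)))))) (a (a (b (a (b (a (l 207802356599) (l 231424679047)) (l 16657232)) (b (l 16680288) (l 16672296))) (a (l 16638464) (l 16654240))) (b (a (l 16694616) (l 16712256)) (a (l 16674856) (l 16700544)))) (b (a (a (l 16730704) (l 16747816)) (a (l 16762328) (b (l 16760656) (l 16783816)))) (a (a (l 16729256) (l 16761704)) (a (l 16796072) (l 16831192)))))) (a (a (b (b (b (l 3) (a (l 170892566567) (l 3))) (a (b (l 142975385767) (l 91972691447)) (b (l 3) (l 188609321031)))) (b (b (a (l 16754944) (l 139217245191)) (a (l 16791336) (l 16786072))) (b (a (l 16836600) (l 16849024)) (a (l 16893288) (l 16909848))))) (b (l 3) (b (a (b (l 3) (l 164450269447)) (l 3)) (a (b (l 222365222455) (l 2)) (l 2))))) (l 3))), by decide +kernel⟩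

def k1_pm_112_b : ∃ t, chk3 f_pm_112_b t 1 3 1 = true :=
  ⟨(a (a (b (a (b (a (l 16603272) (l 16624984)) (a (b (l 16572896) (l 16552344)) (l 16635728))) (b (a (l 16654120) (l 16691032)) (b (a (l 16639176) (l 16687128)) (l 16678112)))) (a (b (a (l 16582968) (l 16689240)) (a (l 16472160) (l 16530184))) (a (b (l 16619064) (l 16603840)) (b (l 16688416) (l 2))))) (b (a (b (a (l 16757336) (l 16788008)) (a (b (l 16746080) (l 16755744)) (b (l 16815888) (l 16820968)))) (b (a (l 16847808) (l 16916896)) (a (b (l 16876448) (l 2)) (l 2)))) (a (b (a (l 16755112) (l 2)) (l 2)) (l 2)))) (b (a (a (a (b (l 16996624) (l 2)) (l 2)) (l 2)) (l 2)) (l 2))), by decide +kernel⟩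

theorem s2_pm_112_b : ∃ t, chk3 f_pm_112_b t 1 1 1 = true := ex3_b k0_pm_112_b k1_pm_112_b

theorem c_pm_112_b : CertB 536870912 536870912 1239849684 370763052 587336777 62277027 3 eng mog cd0q1 cd2q2b pd1 false true false .dn 1 1 2
    ndB0q1 ndB2q2b pcB1 Cut.none Ext.none :=
  certB1 (fam := false) (s1 := true) (s2 := false) (a := 1) (b := 1) (c := 2) (cn := .dn) (n1 := ndB0q1) (n2 := ndB2q2b) (pc := pcB1) (cut := Cut.none) (xt := Ext.none) (P1 := 536870912) (W1 := 536870912) (P2 := 1239849684) (W2 := 370763052) (P3 := 587336777) (W3 := 62277027) (N0 := 3) (En := eng) (mo := mog) (C1 := cd0q1) (C2 := cd2q2b) (C3 := pd1)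
    rfl (fun _ => rfl) s2_pm_112_b

noncomputable def cut_pm_113 : Cut := Cut.of [[⟨0, 1, 0, 67108864⟩, ⟨1, 1, 0, 67108864⟩, ⟨2, 2, 0, 16777216⟩]]

noncomputable def f_pm_113 : ℕ → ℕ → ℕ → ℕ → Bool := onCell 536870912 536870912 536870912 536870912 587336777 62277027
    (rowB 3 eng mog cd0q1 cd2q3 pd1 1 false true false .nn 1 1 3 (qsf 536870912 536870912 1610612736 536870912 1) ndB0q1 ndB2q3 pcB1 cut_pm_113 Ext.none)

def k0_pm_113 : ∃ t, chk3 f_pm_113 t 1 2 1 = true :=
  ⟨(a (b (l 1) (a (l 1) (b (l 1) (a (l 1) (l 67142532343))))) (a (a (b (l 1) (b (b (l 1) (a (l 1) (l 16805696))) (b (a (l 16843696) (l 16867192)) (a (l 16895048) (l 16943888))))) (b (l 3) (b (a (b (l 3) (l 233706679415)) (l 3)) (a (b (l 195051910967) (l 16823568)) (b (l 3) (l 259476606215)))))) (l 3))), by decide +kernel⟩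

def k1_pm_113 : ∃ t, chk3 f_pm_113 t 2 3 1 = true :=
  ⟨(a (b (b (l 1) (a (l 1) (b (l 1) (l 75195318807)))) (a (b (a (l 1) (l 70363362487)) (a (l 16436360) (l 16484776))) (b (a (l 16582856) (l 16644144)) (b (l 16593344) (l 16576520))))) (b (b (a (a (l 1) (l 41909428231)) (a (l 16828936) (l 16899816))) (a (a (l 49962487399) (l 42983080903)) (a (b (l 16829256) (l 16807200)) (l 16850792)))) (a (a (b (l 16704152) (l 16670248)) (b (l 16744560) (l 16709320))) (a (b (l 16776144) (l 16739000)) (b (l 16804568) (l 16764336)))))), by decide +kernel⟩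

def k2_pm_113 : ∃ t, chk3 f_pm_113 t 3 3 1 = true :=
  ⟨(b (a (b (a (b (a (l 16953568) (l 17032184)) (l 16966432)) (a (b (l 16996688) (l 17059464)) (b (a (l 16931928) (l 260550210599)) (l 16865576)))) (a (a (l 16887424) (l 16929560)) (a (b (l 17000128) (l 16951144)) (b (l 17026544) (l 16990416))))) (a (b (a (b (l 3) (a (l 216526804343) (l 3))) (l 3)) (a (b (a (l 16965632) (l 182167086183)) (l 16882440)) (b (a (l 272361581543) (l 3)) (a (l 228874996839) (l 257329203047))))) (l 3))) (a (b (a (a (l 16834496) (l 16865464)) (b (a (l 16911872) (l 16941544)) (l 16891496))) (a (b (l 16814480) (l 16793056)) (a (l 16837656) (l 16852392)))) (b (a (a (b (l 16965056) (l 16917320)) (b (b (l 178945884967) (l 16946952)) (a (l 16922672) (l 16921648)))) (a (b (a (l 324438050519) (l 3)) (a (b (l 16906032) (l 16904968)) (b (l 266992818055) (l 202031288311)))) (l 3))) (a (a (l 16860000) (b (b (l 16888320) (l 16867296)) (a (l 16840920) (l 16836312)))) (a (a (b (l 16870776) (l 16829952)) (b (b (l 16831016) (l 16852920)) (l 16821992))) (b (a (b (l 345912777463)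 (a (l 16846200) (l 312089845527))) (l 3)) (b (b (a (l 173040249479) (l 448991914823)) (a (l 16817720) (a (l 295446794487) (l 3)))) (a (l 16802536) (a (a (l 16796240) (b (l 72108548503) (l 16788664))) (a (b (b (l 405505347975) (l 311016039911)) (a (l 16786752) (l 6))) (b (l 3) (l 6)))))))))))), by decide +kernel⟩

theorem s3_pm_113 : ∃ t, chk3 f_pm_113 t 1 3 1 = true := ex3_a k1_pm_113 k2_pm_113

theorem s4_pm_113 : ∃ t, chk3 f_pm_113 t 1 1 1 = true := ex3_b k0_pm_113 s3_pm_113

theorem c_pm_113 : CertB 536870912 536870912 1610612736 536870912 587336777 62277027 3 eng mog cd0q1 cd2q3 pd1 false true false .nn 1 1 3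
    ndB0q1 ndB2q3 pcB1 cut_pm_113 Ext.none :=
  certB1 (fam := false) (s1 := true) (s2 := false) (a := 1) (b := 1) (c := 3) (cn := .nn) (n1 := ndB0q1) (n2 := ndB2q3) (pc := pcB1) (cut := cut_pm_113) (xt := Ext.none) (P1 := 536870912) (W1 := 536870912) (P2 := 1610612736) (W2 := 536870912) (P3 := 587336777) (W3 := 62277027) (N0 := 3) (En := eng) (mo := mog) (C1 := cd0q1) (C2 := cd2q3) (C3 := pd1)
    rfl (fun _ => rfl) s4_pm_113

noncomputable def cut_pm_123 : Cut := Cut.of [[⟨0, 1, 0, 67108864⟩, ⟨1, 1, 0, 67108864⟩, ⟨2, 2, 0, 16777216⟩]]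

noncomputable def f_pm_123 : ℕ → ℕ → ℕ → ℕ → Bool := onCell 536870912 536870912 1073741824 536870912 587336777 62277027
    (rowB 3 eng mog cd0q1 cd2q3 pd2 1 false true false .npn 1 2 3 (qsf 536870912 536870912 1610612736 536870912 2) ndB0q1 ndB2q3 pcB2 cut_pm_123 Ext.none)

def k0_pm_123 : ∃ t, chk3 f_pm_123 t 1 1 1 = true :=
  ⟨(a (b (a (b (a (a (a (l 16381680) (l 16406928)) (l 16581888)) (b (l 16551080) (l 16551176))) (a (b (l 16466016) (l 16516440)) (b (l 16556000) (l 16584432)))) (b (a (b (a (l 16626520) (l 16661912)) (l 16623072)) (a (l 16670576) (l 16689616))) (b (a (l 16609784) (l 16639608)) (a (l 16625616) (l 16651512))))) (a (a (b (l 16654128) (l 16685416)) (b (l 16741544) (l 16715712))) (b (a (b (l 16652256) (l 16683032)) (b (l 16676160) (l 16702648))) (a (b (l 16719656) (l 2)) (l 2))))) (b (a (b (a (b (l 16744568) (l 16695448)) (b (l 16778320) (l 16722952))) (b (a (b (b (l 16673440) (l 16814536)) (l 16663688)) (b (a (l 16883688) (l 16710168)) (l 16693536))) (a (l 16676192) (l 16755064)))) (b (b (a (a (l 16787496) (l 16784528))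 (a (b (l 16788888) (l 16759640)) (b (a (l 16777080) (b (a (l 16777392) (b (l 6) (l 792522157543))) (l 796817162839))) (l 782321615623)))) (a (a (l 16733504) (l 16725592)) (a (l 675484543575) (l 2)))) (a (b (b (a (l 229881622935) (l 2)) (l 2)) (l 2)) (l 2)))) (a (b (a (b (l 16696536) (l 2)) (l 2)) (l 2)) (l 2)))), by decide +kernel⟩

theorem c_pm_123 : CertB 536870912 536870912 1610612736 536870912 587336777 62277027 3 eng mog cd0q1 cd2q3 pd2 false true false .npn 1 2 3
    ndB0q1 ndB2q3 pcB2 cut_pm_123 Ext.none :=
  certB1 (fam := false) (s1 := true) (s2 := false) (a := 1) (b := 2) (c := 3) (cn := .npn) (n1 := ndB0q1) (n2 := ndB2q3) (pc := pcB2) (cut := cut_pm_123) (xt := Ext.none) (P1 := 536870912) (W1 := 536870912) (P2 := 1610612736) (W2 := 536870912) (P3 := 587336777) (W3 := 62277027) (N0 := 3) (En := eng) (mo := mog) (C1 := cd0q1) (C2 := cd2q3) (C3 := pd2)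
    rfl (fun _ => rfl) k0_pm_123

noncomputable def f_pm_133 : ℕ → ℕ → ℕ → ℕ → Bool := onCell 536870912 536870912 1610612736 536870912 587336777 62277027
    (rowB 3 eng mog cd0q1 cd2q3 pd3 0 false true false .dn 1 3 3 (qsf 536870912 536870912 1610612736 536870912 3) ndB0q1 ndB2q3 pcB3 Cut.none Ext.none)

def k0_pm_133 : ∃ t, chk3 f_pm_133 t 1 1 1 = true :=
  ⟨(a (b (l 1) (a (b (l 1) (a (b (l 1) (l 16924480)) (l 1))) (l 1))) (l 1)), by decide +kernel⟩

theorem c_pm_133 : CertB 536870912 536870912 1610612736 536870912 587336777 62277027 3 eng mog cd0q1 cd2q3 pd3 false true false .dn 1 3 3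
    ndB0q1 ndB2q3 pcB3 Cut.none Ext.none :=
  certB0 (fam := false) (s1 := true) (s2 := false) (a := 1) (b := 3) (c := 3) (cn := .dn) (n1 := ndB0q1) (n2 := ndB2q3) (pc := pcB3) (cut := Cut.none) (xt := Ext.none) (P1 := 536870912) (W1 := 536870912) (P2 := 1610612736) (W2 := 536870912) (P3 := 587336777) (W3 := 62277027) (N0 := 3) (En := eng) (mo := mog) (C1 := cd0q1) (C2 := cd2q3) (C3 := pd3)
    rfl k0_pm_133

noncomputable def cut_pm_202_a : Cut := Cut.of [[⟨0, 1, 0, 67108864⟩, ⟨1, 0, 0, 67108864⟩, ⟨2, 1, 0, 67108864⟩]]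

noncomputable def f_pm_202_a : ℕ → ℕ → ℕ → ℕ → Bool := onCell 0 536870912 0 536870912 587336777 62277027
    (rowB 3 eng mog cd0q2 cd2q2a pd0 0 false true false .pp 2 0 2 (qsf 0 536870912 0 536870912 0) ndB0q2 ndB2q2a pcB0 cut_pm_202_a Ext.none)

def k0_pm_202_a : ∃ t, chk3 f_pm_202_a t 1 1 1 = true :=
  ⟨(a (l 3) (b (l 3) (a (l 3) (b (l 3) (b (l 3) (a (l 3) (l 6))))))), by decide +kernel⟩

theorem c_pm_202_a : CertB 0 536870912 0 536870912 587336777 62277027 3 eng mog cd0q2 cd2q2a pd0 false true false .pp 2 0 2
    ndB0q2 ndB2q2a pcB0 cut_pm_202_a Ext.none :=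
  certB0 (fam := false) (s1 := true) (s2 := false) (a := 2) (b := 0) (c := 2) (cn := .pp) (n1 := ndB0q2) (n2 := ndB2q2a) (pc := pcB0) (cut := cut_pm_202_a) (xt := Ext.none) (P1 := 0) (W1 := 536870912) (P2 := 0) (W2 := 536870912) (P3 := 587336777) (W3 := 62277027) (N0 := 3) (En := eng) (mo := mog) (C1 := cd0q2) (C2 := cd2q2a) (C3 := pd0)
    rfl k0_pm_202_a

noncomputable def cut_pm_202_b : Cut := Cut.of [[⟨0, 1, 0, 67108864⟩, ⟨1, 0, 0, 67108864⟩, ⟨2, 1, 0, 67108864⟩]]

noncomputable def f_pm_202_b : ℕ → ℕ → ℕ → ℕ → Bool := onCell 0 536870912 1239849684 370763052 587336777 62277027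
    (rowB 3 eng mog cd0q2 cd2q2b pd0 0 false true false .pp 2 0 2 (qsf 0 536870912 1239849684 370763052 0) ndB0q2 ndB2q2b pcB0 cut_pm_202_b Ext.none)

def k0_pm_202_b : ∃ t, chk3 f_pm_202_b t 1 1 1 = true :=
  ⟨(l 3), by decide +kernel⟩

theorem c_pm_202_b : CertB 0 536870912 1239849684 370763052 587336777 62277027 3 eng mog cd0q2 cd2q2b pd0 false true false .pp 2 0 2
    ndB0q2 ndB2q2b pcB0 cut_pm_202_b Ext.none :=
  certB0 (fam := false) (s1 := true) (s2 := false) (a := 2) (b := 0) (c := 2) (cn := .pp) (n1 := ndB0q2) (n2 := ndB2q2b) (pc := pcB0) (cut := cut_pm_202_b) (xt := Ext.none) (P1 := 0) (W1 := 536870912) (P2 := 1239849684) (W2 := 370763052) (P3 := 587336777) (W3 := 62277027) (N0 := 3) (En := eng) (mo := mog) (C1 := cd0q2) (C2 := cd2q2b) (C3 := pd0)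
    rfl k0_pm_202_b

noncomputable def f_pm_203 : ℕ → ℕ → ℕ → ℕ → Bool := onCell 0 536870912 0 536870912 587336777 62277027
    (rowB 3 eng mog cd0q2 cd2q3 pd0 1 false true false .up 2 0 3 (qsf 0 536870912 1610612736 536870912 0) ndB0q2 ndB2q3 pcB0 Cut.none Ext.none)

def k0_pm_203 : ∃ t, chk3 f_pm_203 t 1 1 1 = true :=
  ⟨(l 3), by decide +kernel⟩

theorem c_pm_203 : CertB 0 536870912 1610612736 536870912 587336777 62277027 3 eng mog cd0q2 cd2q3 pd0 false true false .up 2 0 3
    ndB0q2 ndB2q3 pcB0 Cut.none Ext.none :=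
  certB1 (fam := false) (s1 := true) (s2 := false) (a := 2) (b := 0) (c := 3) (cn := .up) (n1 := ndB0q2) (n2 := ndB2q3) (pc := pcB0) (cut := Cut.none) (xt := Ext.none) (P1 := 0) (W1 := 536870912) (P2 := 1610612736) (W2 := 536870912) (P3 := 587336777) (W3 := 62277027) (N0 := 3) (En := eng) (mo := mog) (C1 := cd0q2) (C2 := cd2q3) (C3 := pd0)
    rfl (fun _ => rfl) k0_pm_203

noncomputable def cut_pm_213 : Cut := Cut.of [[⟨0, 1, 0, 67108864⟩, ⟨1, 1, 0, 67108864⟩, ⟨2, 2, 0, 16777216⟩]]

noncomputable def f_pm_213 : ℕ → ℕ → ℕ → ℕ → Bool := onCell 0 536870912 1610612736 536870912 587336777 62277027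
    (rowB 3 eng mog cd0q2 cd2q3 pd1 0 false true false .pnn 2 1 3 (qsf 0 536870912 1610612736 536870912 1) ndB0q2 ndB2q3 pcB1 cut_pm_213 Ext.none)

def k0_pm_213 : ∃ t, chk3 f_pm_213 t 1 1 1 = true :=
  ⟨(b (l 3) (a (l 3) (b (l 3) (a (l 3) (b (l 3) (b (l 3) (a (l 3) (b (l 3) (b (l 3) (l 6)))))))))), by decide +kernel⟩

theorem c_pm_213 : CertB 0 536870912 1610612736 536870912 587336777 62277027 3 eng mog cd0q2 cd2q3 pd1 false true false .pnn 2 1 3
    ndB0q2 ndB2q3 pcB1 cut_pm_213 Ext.none :=
  certB0 (fam := false) (s1 := true) (s2 := false) (a := 2) (b := 1) (c := 3) (cn := .pnn) (n1 := ndB0q2) (n2 := ndB2q3) (pc := pcB1) (cut := cut_pm_213) (xt := Ext.none) (P1 := 0) (W1 := 536870912) (P2 := 1610612736) (W2 := 536870912) (P3 := 587336777) (W3 := 62277027) (N0 := 3) (En := eng) (mo := mog) (C1 := cd0q2) (C2 := cd2q3) (C3 := pd1)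
    rfl k0_pm_213

noncomputable def f_mm_001 : ℕ → ℕ → ℕ → ℕ → Bool := onCell 0 536870912 536870912 536870912 587336777 62277027
    (rowB 3 eng mog cd0q0 cd2q1 pd0 0 false false false .up 0 0 1 (qsf 0 536870912 536870912 536870912 0) ndB0q0 ndB2q1 pcB0 Cut.none Ext.none)

def k0_mm_001 : ∃ t, chk3 f_mm_001 t 1 1 1 = true :=
  ⟨(l 3), by decide +kernel⟩

theorem c_mm_001 : CertB 0 536870912 536870912 536870912 587336777 62277027 3 eng mog cd0q0 cd2q1 pd0 false false false .up 0 0 1
    ndB0q0 ndB2q1 pcB0 Cut.none Ext.none :=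
  certB0 (fam := false) (s1 := false) (s2 := false) (a := 0) (b := 0) (c := 1) (cn := .up) (n1 := ndB0q0) (n2 := ndB2q1) (pc := pcB0) (cut := Cut.none) (xt := Ext.none) (P1 := 0) (W1 := 536870912) (P2 := 536870912) (W2 := 536870912) (P3 := 587336777) (W3 := 62277027) (N0 := 3) (En := eng) (mo := mog) (C1 := cd0q0) (C2 := cd2q1) (C3 := pd0)
    rfl k0_mm_001

noncomputable def f_mm_011 : ℕ → ℕ → ℕ → ℕ → Bool := onCell 0 536870912 536870912 536870912 587336777 62277027
    (rowB 3 eng mog cd0q0 cd2q1 pd1 0 false false false .pnn 0 1 1 (qsf 0 536870912 536870912 536870912 1) ndB0q0 ndB2q1 pcB1 Cut.none Ext.none)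

def k0_mm_011 : ∃ t, chk3 f_mm_011 t 1 1 1 = true :=
  ⟨(l 3), by decide +kernel⟩

theorem c_mm_011 : CertB 0 536870912 536870912 536870912 587336777 62277027 3 eng mog cd0q0 cd2q1 pd1 false false false .pnn 0 1 1
    ndB0q0 ndB2q1 pcB1 Cut.none Ext.none :=
  certB0 (fam := false) (s1 := false) (s2 := false) (a := 0) (b := 1) (c := 1) (cn := .pnn) (n1 := ndB0q0) (n2 := ndB2q1) (pc := pcB1) (cut := Cut.none) (xt := Ext.none) (P1 := 0) (W1 := 536870912) (P2 := 536870912) (W2 := 536870912) (P3 := 587336777) (W3 := 62277027) (N0 := 3) (En := eng) (mo := mog) (C1 := cd0q0) (C2 := cd2q1) (C3 := pd1)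
    rfl k0_mm_011

noncomputable def f_mm_012_a : ℕ → ℕ → ℕ → ℕ → Bool := onCell 0 536870912 0 536870912 587336777 62277027
    (rowB 3 eng mog cd0q0 cd2q2a pd1 0 false false false .pnp 0 1 2 (qsf 0 536870912 0 536870912 1) ndB0q0 ndB2q2a pcB1 Cut.none Ext.none)

def k0_mm_012_a : ∃ t, chk3 f_mm_012_a t 1 1 1 = true :=
  ⟨(l 5), by decide +kernel⟩

theorem c_mm_012_a : CertB 0 536870912 0 536870912 587336777 62277027 3 eng mog cd0q0 cd2q2a pd1 false false false .pnp 0 1 2
    ndB0q0 ndB2q2a pcB1 Cut.none Ext.none :=
  certB0 (fam := false) (s1 := false) (s2 := false) (a := 0) (b := 1) (c := 2) (cn := .pnp) (n1 := ndB0q0) (n2 := ndB2q2a) (pc := pcB1) (cut := Cut.none) (xt := Ext.none) (P1 := 0) (W1 := 536870912) (P2 := 0) (W2 := 536870912) (P3 := 587336777) (W3 := 62277027) (N0 := 3) (En := eng) (mo := mog) (C1 := cd0q0) (C2 := cd2q2a) (C3 := pd1)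
    rfl k0_mm_012_a

noncomputable def f_mm_012_b : ℕ → ℕ → ℕ → ℕ → Bool := onCell 0 536870912 1239849684 370763052 587336777 62277027
    (rowB 3 eng mog cd0q0 cd2q2b pd1 0 false false false .pnp 0 1 2 (qsf 0 536870912 1239849684 370763052 1) ndB0q0 ndB2q2b pcB1 Cut.none Ext.none)

def k0_mm_012_b : ∃ t, chk3 f_mm_012_b t 1 1 1 = true :=
  ⟨(l 5), by decide +kernel⟩

theorem c_mm_012_b : CertB 0 536870912 1239849684 370763052 587336777 62277027 3 eng mog cd0q0 cd2q2b pd1 false false false .pnp 0 1 2
    ndB0q0 ndB2q2b pcB1 Cut.none Ext.none :=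
  certB0 (fam := false) (s1 := false) (s2 := false) (a := 0) (b := 1) (c := 2) (cn := .pnp) (n1 := ndB0q0) (n2 := ndB2q2b) (pc := pcB1) (cut := Cut.none) (xt := Ext.none) (P1 := 0) (W1 := 536870912) (P2 := 1239849684) (W2 := 370763052) (P3 := 587336777) (W3 := 62277027) (N0 := 3) (En := eng) (mo := mog) (C1 := cd0q0) (C2 := cd2q2b) (C3 := pd1)
    rfl k0_mm_012_b

noncomputable def f_mm_022_a : ℕ → ℕ → ℕ → ℕ → Bool := onCell 0 536870912 0 536870912 587336777 62277027
    (rowB 3 eng mog cd0q0 cd2q2a pd2 0 false false false .pp 0 2 2 (qsf 0 536870912 0 536870912 2) ndB0q0 ndB2q2a pcB2 Cut.none Ext.none)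

def k0_mm_022_a : ∃ t, chk3 f_mm_022_a t 1 1 1 = true :=
  ⟨(l 5), by decide +kernel⟩

theorem c_mm_022_a : CertB 0 536870912 0 536870912 587336777 62277027 3 eng mog cd0q0 cd2q2a pd2 false false false .pp 0 2 2
    ndB0q0 ndB2q2a pcB2 Cut.none Ext.none :=
  certB0 (fam := false) (s1 := false) (s2 := false) (a := 0) (b := 2) (c := 2) (cn := .pp) (n1 := ndB0q0) (n2 := ndB2q2a) (pc := pcB2) (cut := Cut.none) (xt := Ext.none) (P1 := 0) (W1 := 536870912) (P2 := 0) (W2 := 536870912) (P3 := 587336777) (W3 := 62277027) (N0 := 3) (En := eng) (mo := mog) (C1 := cd0q0) (C2 := cd2q2a) (C3 := pd2)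
    rfl k0_mm_022_a

noncomputable def f_mm_022_b : ℕ → ℕ → ℕ → ℕ → Bool := onCell 0 536870912 1239849684 370763052 587336777 62277027
    (rowB 3 eng mog cd0q0 cd2q2b pd2 0 false false false .pp 0 2 2 (qsf 0 536870912 1239849684 370763052 2) ndB0q0 ndB2q2b pcB2 Cut.none Ext.none)

def k0_mm_022_b : ∃ t, chk3 f_mm_022_b t 1 1 1 = true :=
  ⟨(l 5), by decide +kernel⟩

theorem c_mm_022_b : CertB 0 536870912 1239849684 370763052 587336777 62277027 3 eng mog cd0q0 cd2q2b pd2 false false false .pp 0 2 2
    ndB0q0 ndB2q2b pcB2 Cut.none Ext.none :=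
  certB0 (fam := false) (s1 := false) (s2 := false) (a := 0) (b := 2) (c := 2) (cn := .pp) (n1 := ndB0q0) (n2 := ndB2q2b) (pc := pcB2) (cut := Cut.none) (xt := Ext.none) (P1 := 0) (W1 := 536870912) (P2 := 1239849684) (W2 := 370763052) (P3 := 587336777) (W3 := 62277027) (N0 := 3) (En := eng) (mo := mog) (C1 := cd0q0) (C2 := cd2q2b) (C3 := pd2)
    rfl k0_mm_022_b

noncomputable def f_mm_023 : ℕ → ℕ → ℕ → ℕ → Bool := onCell 0 536870912 1610612736 536870912 587336777 62277027
    (rowB 3 eng mog cd0q0 cd2q3 pd2 0 false false false .up 0 2 3 (qsf 0 536870912 1610612736 536870912 2) ndB0q0 ndB2q3 pcB2 Cut.none Ext.none)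

def k0_mm_023 : ∃ t, chk3 f_mm_023 t 1 1 1 = true :=
  ⟨(l 5), by decide +kernel⟩

theorem c_mm_023 : CertB 0 536870912 1610612736 536870912 587336777 62277027 3 eng mog cd0q0 cd2q3 pd2 false false false .up 0 2 3
    ndB0q0 ndB2q3 pcB2 Cut.none Ext.none :=
  certB0 (fam := false) (s1 := false) (s2 := false) (a := 0) (b := 2) (c := 3) (cn := .up) (n1 := ndB0q0) (n2 := ndB2q3) (pc := pcB2) (cut := Cut.none) (xt := Ext.none) (P1 := 0) (W1 := 536870912) (P2 := 1610612736) (W2 := 536870912) (P3 := 587336777) (W3 := 62277027) (N0 := 3) (En := eng) (mo := mog) (C1 := cd0q0) (C2 := cd2q3) (C3 := pd2)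
    rfl k0_mm_023

noncomputable def f_mm_033 : ℕ → ℕ → ℕ → ℕ → Bool := onCell 0 536870912 1610612736 536870912 587336777 62277027
    (rowB 3 eng mog cd0q0 cd2q3 pd3 0 false false false .pnn 0 3 3 (qsf 0 536870912 1610612736 536870912 3) ndB0q0 ndB2q3 pcB3 Cut.none Ext.none)

def k0_mm_033 : ∃ t, chk3 f_mm_033 t 1 1 1 = true :=
  ⟨(l 5), by decide +kernel⟩

theorem c_mm_033 : CertB 0 536870912 1610612736 536870912 587336777 62277027 3 eng mog cd0q0 cd2q3 pd3 false false false .pnn 0 3 3
    ndB0q0 ndB2q3 pcB3 Cut.none Ext.none :=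
  certB0 (fam := false) (s1 := false) (s2 := false) (a := 0) (b := 3) (c := 3) (cn := .pnn) (n1 := ndB0q0) (n2 := ndB2q3) (pc := pcB3) (cut := Cut.none) (xt := Ext.none) (P1 := 0) (W1 := 536870912) (P2 := 1610612736) (W2 := 536870912) (P3 := 587336777) (W3 := 62277027) (N0 := 3) (En := eng) (mo := mog) (C1 := cd0q0) (C2 := cd2q3) (C3 := pd3)
    rfl k0_mm_033

noncomputable def f_mm_101 : ℕ → ℕ → ℕ → ℕ → Bool := onCell 536870912 536870912 536870912 536870912 587336777 62277027
    (rowB 3 eng mog cd0q1 cd2q1 pd0 0 false false false .npn 1 0 1 (qsf 536870912 536870912 536870912 536870912 0) ndB0q1 ndB2q1 pcB0 Cut.none Ext.none)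

def k0_mm_101 : ∃ t, chk3 f_mm_101 t 1 1 1 = true :=
  ⟨(l 3), by decide +kernel⟩

theorem c_mm_101 : CertB 536870912 536870912 536870912 536870912 587336777 62277027 3 eng mog cd0q1 cd2q1 pd0 false false false .npn 1 0 1
    ndB0q1 ndB2q1 pcB0 Cut.none Ext.none :=
  certB0 (fam := false) (s1 := false) (s2 := false) (a := 1) (b := 0) (c := 1) (cn := .npn) (n1 := ndB0q1) (n2 := ndB2q1) (pc := pcB0) (cut := Cut.none) (xt := Ext.none) (P1 := 536870912) (W1 := 536870912) (P2 := 536870912) (W2 := 536870912) (P3 := 587336777) (W3 := 62277027) (N0 := 3) (En := eng) (mo := mog) (C1 := cd0q1) (C2 := cd2q1) (C3 := pd0)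
    rfl k0_mm_101

noncomputable def f_mm_102_a : ℕ → ℕ → ℕ → ℕ → Bool := onCell 536870912 536870912 0 536870912 587336777 62277027
    (rowB 3 eng mog cd0q1 cd2q2a pd0 0 false false false .npp 1 0 2 (qsf 536870912 536870912 0 536870912 0) ndB0q1 ndB2q2a pcB0 Cut.none Ext.none)

def k0_mm_102_a : ∃ t, chk3 f_mm_102_a t 1 1 1 = true :=
  ⟨(a (l 5) (l 3)), by decide +kernel⟩

theorem c_mm_102_a : CertB 536870912 536870912 0 536870912 587336777 62277027 3 eng mog cd0q1 cd2q2a pd0 false false false .npp 1 0 2
    ndB0q1 ndB2q2a pcB0 Cut.none Ext.none :=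
  certB0 (fam := false) (s1 := false) (s2 := false) (a := 1) (b := 0) (c := 2) (cn := .npp) (n1 := ndB0q1) (n2 := ndB2q2a) (pc := pcB0) (cut := Cut.none) (xt := Ext.none) (P1 := 536870912) (W1 := 536870912) (P2 := 0) (W2 := 536870912) (P3 := 587336777) (W3 := 62277027) (N0 := 3) (En := eng) (mo := mog) (C1 := cd0q1) (C2 := cd2q2a) (C3 := pd0)
    rfl k0_mm_102_a

noncomputable def f_mm_102_b : ℕ → ℕ → ℕ → ℕ → Bool := onCell 536870912 536870912 1239849684 370763052 587336777 62277027
    (rowB 3 eng mog cd0q1 cd2q2b pd0 0 false false false .npp 1 0 2 (qsf 536870912 536870912 1239849684 370763052 0) ndB0q1 ndB2q2b pcB0 Cut.none Ext.none)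

def k0_mm_102_b : ∃ t, chk3 f_mm_102_b t 1 1 1 = true :=
  ⟨(l 5), by decide +kernel⟩

theorem c_mm_102_b : CertB 536870912 536870912 1239849684 370763052 587336777 62277027 3 eng mog cd0q1 cd2q2b pd0 false false false .npp 1 0 2
    ndB0q1 ndB2q2b pcB0 Cut.none Ext.none :=
  certB0 (fam := false) (s1 := false) (s2 := false) (a := 1) (b := 0) (c := 2) (cn := .npp) (n1 := ndB0q1) (n2 := ndB2q2b) (pc := pcB0) (cut := Cut.none) (xt := Ext.none) (P1 := 536870912) (W1 := 536870912) (P2 := 1239849684) (W2 := 370763052) (P3 := 587336777) (W3 := 62277027) (N0 := 3) (En := eng) (mo := mog) (C1 := cd0q1) (C2 := cd2q2b) (C3 := pd0)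
    rfl k0_mm_102_b

noncomputable def f_mm_112_a : ℕ → ℕ → ℕ → ℕ → Bool := onCell 536870912 536870912 0 536870912 587336777 62277027
    (rowB 3 eng mog cd0q1 cd2q2a pd1 2 false false false .dn 1 1 2 (qsf 536870912 536870912 0 536870912 1) ndB0q1 ndB2q2a pcB1 Cut.none Ext.none)

def k0_mm_112_a : ∃ t, chk3 f_mm_112_a t 1 1 1 = true :=
  ⟨(l 5), by decide +kernel⟩

theorem c_mm_112_a : CertB 536870912 536870912 0 536870912 587336777 62277027 3 eng mog cd0q1 cd2q2a pd1 false false false .dn 1 1 2
    ndB0q1 ndB2q2a pcB1 Cut.none Ext.none :=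
  certB2 (fam := false) (s1 := false) (s2 := false) (a := 1) (b := 1) (c := 2) (cn := .dn) (n1 := ndB0q1) (n2 := ndB2q2a) (pc := pcB1) (cut := Cut.none) (xt := Ext.none) (P1 := 536870912) (W1 := 536870912) (P2 := 0) (W2 := 536870912) (P3 := 587336777) (W3 := 62277027) (N0 := 3) (En := eng) (mo := mog) (C1 := cd0q1) (C2 := cd2q2a) (C3 := pd1)
    rfl (fun _ => rfl) k0_mm_112_a

noncomputable def f_mm_112_b : ℕ → ℕ → ℕ → ℕ → Bool := onCell 536870912 536870912 1239849684 370763052 587336777 62277027
    (rowB 3 eng mog cd0q1 cd2q2b pd1 0 false false false .dn 1 1 2 (qsf 536870912 536870912 1239849684 370763052 1) ndB0q1 ndB2q2b pcB1 Cut.none Ext.none)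

def k0_mm_112_b : ∃ t, chk3 f_mm_112_b t 1 1 1 = true :=
  ⟨(l 5), by decide +kernel⟩

theorem c_mm_112_b : CertB 536870912 536870912 1239849684 370763052 587336777 62277027 3 eng mog cd0q1 cd2q2b pd1 false false false .dn 1 1 2
    ndB0q1 ndB2q2b pcB1 Cut.none Ext.none :=
  certB0 (fam := false) (s1 := false) (s2 := false) (a := 1) (b := 1) (c := 2) (cn := .dn) (n1 := ndB0q1) (n2 := ndB2q2b) (pc := pcB1) (cut := Cut.none) (xt := Ext.none) (P1 := 536870912) (W1 := 536870912) (P2 := 1239849684) (W2 := 370763052) (P3 := 587336777) (W3 := 62277027) (N0 := 3) (En := eng) (mo := mog) (C1 := cd0q1) (C2 := cd2q2b) (C3 := pd1)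
    rfl k0_mm_112_b

noncomputable def f_mm_113 : ℕ → ℕ → ℕ → ℕ → Bool := onCell 536870912 536870912 1610612736 536870912 587336777 62277027
    (rowB 3 eng mog cd0q1 cd2q3 pd1 0 false false false .nn 1 1 3 (qsf 536870912 536870912 1610612736 536870912 1) ndB0q1 ndB2q3 pcB1 Cut.none Ext.none)

def k0_mm_113 : ∃ t, chk3 f_mm_113 t 1 1 1 = true :=
  ⟨(l 5), by decide +kernel⟩

theorem c_mm_113 : CertB 536870912 536870912 1610612736 536870912 587336777 62277027 3 eng mog cd0q1 cd2q3 pd1 false false false .nn 1 1 3
    ndB0q1 ndB2q3 pcB1 Cut.none Ext.none :=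
  certB0 (fam := false) (s1 := false) (s2 := false) (a := 1) (b := 1) (c := 3) (cn := .nn) (n1 := ndB0q1) (n2 := ndB2q3) (pc := pcB1) (cut := Cut.none) (xt := Ext.none) (P1 := 536870912) (W1 := 536870912) (P2 := 1610612736) (W2 := 536870912) (P3 := 587336777) (W3 := 62277027) (N0 := 3) (En := eng) (mo := mog) (C1 := cd0q1) (C2 := cd2q3) (C3 := pd1)
    rfl k0_mm_113

noncomputable def f_mm_123 : ℕ → ℕ → ℕ → ℕ → Bool := onCell 536870912 536870912 1610612736 536870912 587336777 62277027
    (rowB 3 eng mog cd0q1 cd2q3 pd2 0 false false false .npn 1 2 3 (qsf 536870912 536870912 1610612736 536870912 2) ndB0q1 ndB2q3 pcB2 Cut.none Ext.none)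

def k0_mm_123 : ∃ t, chk3 f_mm_123 t 1 1 1 = true :=
  ⟨(l 5), by decide +kernel⟩

theorem c_mm_123 : CertB 536870912 536870912 1610612736 536870912 587336777 62277027 3 eng mog cd0q1 cd2q3 pd2 false false false .npn 1 2 3
    ndB0q1 ndB2q3 pcB2 Cut.none Ext.none :=
  certB0 (fam := false) (s1 := false) (s2 := false) (a := 1) (b := 2) (c := 3) (cn := .npn) (n1 := ndB0q1) (n2 := ndB2q3) (pc := pcB2) (cut := Cut.none) (xt := Ext.none) (P1 := 536870912) (W1 := 536870912) (P2 := 1610612736) (W2 := 536870912) (P3 := 587336777) (W3 := 62277027) (N0 := 3) (En := eng) (mo := mog) (C1 := cd0q1) (C2 := cd2q3) (C3 := pd2)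
    rfl k0_mm_123

noncomputable def f_mm_133 : ℕ → ℕ → ℕ → ℕ → Bool := onCell 536870912 536870912 1610612736 536870912 587336777 62277027
    (rowB 3 eng mog cd0q1 cd2q3 pd3 0 false false false .dn 1 3 3 (qsf 536870912 536870912 1610612736 536870912 3) ndB0q1 ndB2q3 pcB3 Cut.none Ext.none)

def k0_mm_133 : ∃ t, chk3 f_mm_133 t 1 1 1 = true :=
  ⟨(l 5), by decide +kernel⟩

theorem c_mm_133 : CertB 536870912 536870912 1610612736 536870912 587336777 62277027 3 eng mog cd0q1 cd2q3 pd3 false false false .dn 1 3 3
    ndB0q1 ndB2q3 pcB3 Cut.none Ext.none :=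
  certB0 (fam := false) (s1 := false) (s2 := false) (a := 1) (b := 3) (c := 3) (cn := .dn) (n1 := ndB0q1) (n2 := ndB2q3) (pc := pcB3) (cut := Cut.none) (xt := Ext.none) (P1 := 536870912) (W1 := 536870912) (P2 := 1610612736) (W2 := 536870912) (P3 := 587336777) (W3 := 62277027) (N0 := 3) (En := eng) (mo := mog) (C1 := cd0q1) (C2 := cd2q3) (C3 := pd3)
    rfl k0_mm_133

noncomputable def f_mm_202_a : ℕ → ℕ → ℕ → ℕ → Bool := onCell 0 536870912 0 536870912 587336777 62277027
    (rowB 3 eng mog cd0q2 cd2q2a pd0 0 false false false .pp 2 0 2 (qsf 0 536870912 0 536870912 0) ndB0q2 ndB2q2a pcB0 Cut.none Ext.none)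

def k0_mm_202_a : ∃ t, chk3 f_mm_202_a t 1 1 1 = true :=
  ⟨(l 3), by decide +kernel⟩

theorem c_mm_202_a : CertB 0 536870912 0 536870912 587336777 62277027 3 eng mog cd0q2 cd2q2a pd0 false false false .pp 2 0 2
    ndB0q2 ndB2q2a pcB0 Cut.none Ext.none :=
  certB0 (fam := false) (s1 := false) (s2 := false) (a := 2) (b := 0) (c := 2) (cn := .pp) (n1 := ndB0q2) (n2 := ndB2q2a) (pc := pcB0) (cut := Cut.none) (xt := Ext.none) (P1 := 0) (W1 := 536870912) (P2 := 0) (W2 := 536870912) (P3 := 587336777) (W3 := 62277027) (N0 := 3) (En := eng) (mo := mog) (C1 := cd0q2) (C2 := cd2q2a) (C3 := pd0)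
    rfl k0_mm_202_a

noncomputable def f_mm_202_b : ℕ → ℕ → ℕ → ℕ → Bool := onCell 0 536870912 1239849684 370763052 587336777 62277027
    (rowB 3 eng mog cd0q2 cd2q2b pd0 0 false false false .pp 2 0 2 (qsf 0 536870912 1239849684 370763052 0) ndB0q2 ndB2q2b pcB0 Cut.none Ext.none)

def k0_mm_202_b : ∃ t, chk3 f_mm_202_b t 1 1 1 = true :=
  ⟨(l 3), by decide +kernel⟩

theorem c_mm_202_b : CertB 0 536870912 1239849684 370763052 587336777 62277027 3 eng mog cd0q2 cd2q2b pd0 false false false .pp 2 0 2
    ndB0q2 ndB2q2b pcB0 Cut.none Ext.none :=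
  certB0 (fam := false) (s1 := false) (s2 := false) (a := 2) (b := 0) (c := 2) (cn := .pp) (n1 := ndB0q2) (n2 := ndB2q2b) (pc := pcB0) (cut := Cut.none) (xt := Ext.none) (P1 := 0) (W1 := 536870912) (P2 := 1239849684) (W2 := 370763052) (P3 := 587336777) (W3 := 62277027) (N0 := 3) (En := eng) (mo := mog) (C1 := cd0q2) (C2 := cd2q2b) (C3 := pd0)
    rfl k0_mm_202_b

noncomputable def f_mm_203 : ℕ → ℕ → ℕ → ℕ → Bool := onCell 0 536870912 0 536870912 587336777 62277027
    (rowB 3 eng mog cd0q2 cd2q3 pd0 1 false false false .up 2 0 3 (qsf 0 536870912 1610612736 536870912 0) ndB0q2 ndB2q3 pcB0 Cut.none Ext.none)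

def k0_mm_203 : ∃ t, chk3 f_mm_203 t 1 1 1 = true :=
  ⟨(l 3), by decide +kernel⟩

theorem c_mm_203 : CertB 0 536870912 1610612736 536870912 587336777 62277027 3 eng mog cd0q2 cd2q3 pd0 false false false .up 2 0 3
    ndB0q2 ndB2q3 pcB0 Cut.none Ext.none :=
  certB1 (fam := false) (s1 := false) (s2 := false) (a := 2) (b := 0) (c := 3) (cn := .up) (n1 := ndB0q2) (n2 := ndB2q3) (pc := pcB0) (cut := Cut.none) (xt := Ext.none) (P1 := 0) (W1 := 536870912) (P2 := 1610612736) (W2 := 536870912) (P3 := 587336777) (W3 := 62277027) (N0 := 3) (En := eng) (mo := mog) (C1 := cd0q2) (C2 := cd2q3) (C3 := pd0)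
    rfl (fun _ => rfl) k0_mm_203

noncomputable def f_mm_213 : ℕ → ℕ → ℕ → ℕ → Bool := onCell 0 536870912 1610612736 536870912 587336777 62277027
    (rowB 3 eng mog cd0q2 cd2q3 pd1 0 false false false .pnn 2 1 3 (qsf 0 536870912 1610612736 536870912 1) ndB0q2 ndB2q3 pcB1 Cut.none Ext.none)

def k0_mm_213 : ∃ t, chk3 f_mm_213 t 1 1 1 = true :=
  ⟨(a (l 3) (l 5)), by decide +kernel⟩

theorem c_mm_213 : CertB 0 536870912 1610612736 536870912 587336777 62277027 3 eng mog cd0q2 cd2q3 pd1 false false false .pnn 2 1 3
    ndB0q2 ndB2q3 pcB1 Cut.none Ext.none :=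
  certB0 (fam := false) (s1 := false) (s2 := false) (a := 2) (b := 1) (c := 3) (cn := .pnn) (n1 := ndB0q2) (n2 := ndB2q3) (pc := pcB1) (cut := Cut.none) (xt := Ext.none) (P1 := 0) (W1 := 536870912) (P2 := 1610612736) (W2 := 536870912) (P3 := 587336777) (W3 := 62277027) (N0 := 3) (En := eng) (mo := mog) (C1 := cd0q2) (C2 := cd2q3) (C3 := pd1)
    rfl k0_mm_213

end Pool.Agent.Strip051.G.I5470_6050.Tab.C.BB02

namespace Pool.Agent.Strip051.G.I5470_6050.Tab.C.BB03

open Pool.Agent.Strip051.PB Pool.Agent.Strip051.PB.T
open Pool.Agent.Strip051.G.I5470_6050.Tab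

noncomputable def f_pp_001 : ℕ → ℕ → ℕ → ℕ → Bool := onCell 0 536870912 536870912 536870912 587336777 62277027
    (rowB 3 eng mog cd0q0 cd3q1 pd0 0 false true true .up 0 0 1 (qsf 0 536870912 536870912 536870912 0) ndB0q0 ndB3q1 pcB0 Cut.none Ext.none)

def k0_pp_001 : ∃ t, chk3 f_pp_001 t 1 1 1 = true :=
  ⟨(l 3), by decide +kernel⟩

theorem c_pp_001 : CertB 0 536870912 536870912 536870912 587336777 62277027 3 eng mog cd0q0 cd3q1 pd0 false true true .up 0 0 1
    ndB0q0 ndB3q1 pcB0 Cut.none Ext.none :=
  certB0 (fam := false) (s1 := true) (s2 := true) (a := 0) (b := 0) (c := 1) (cn := .up) (n1 := ndB0q0) (n2 := ndB3q1) (pc := pcB0) (cut := Cut.none) (xt := Ext.none) (P1 := 0) (W1 := 536870912) (P2 := 536870912) (W2 := 536870912) (P3 := 587336777) (W3 := 62277027) (N0 := 3) (En := eng) (mo := mog) (C1 := cd0q0) (C2 := cd3q1) (C3 := pd0)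
    rfl k0_pp_001

noncomputable def f_pp_011 : ℕ → ℕ → ℕ → ℕ → Bool := onCell 0 536870912 536870912 536870912 587336777 62277027
    (rowB 3 eng mog cd0q0 cd3q1 pd1 0 false true true .pnn 0 1 1 (qsf 0 536870912 536870912 536870912 1) ndB0q0 ndB3q1 pcB1 Cut.none Ext.none)

def k0_pp_011 : ∃ t, chk3 f_pp_011 t 1 1 1 = true :=
  ⟨(l 3), by decide +kernel⟩

theorem c_pp_011 : CertB 0 536870912 536870912 536870912 587336777 62277027 3 eng mog cd0q0 cd3q1 pd1 false true true .pnn 0 1 1
    ndB0q0 ndB3q1 pcB1 Cut.none Ext.none :=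
  certB0 (fam := false) (s1 := true) (s2 := true) (a := 0) (b := 1) (c := 1) (cn := .pnn) (n1 := ndB0q0) (n2 := ndB3q1) (pc := pcB1) (cut := Cut.none) (xt := Ext.none) (P1 := 0) (W1 := 536870912) (P2 := 536870912) (W2 := 536870912) (P3 := 587336777) (W3 := 62277027) (N0 := 3) (En := eng) (mo := mog) (C1 := cd0q0) (C2 := cd3q1) (C3 := pd1)
    rfl k0_pp_011

end Pool.Agent.Strip051.G.I5470_6050.Tab.C.BB03

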