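import Pool.Agent.Strip051.G.I5470_6050.Tab
import Pool.Agent.Strip051.PB.ExtD2

/-! # Certificates B25 (generated) -/

set_option linter.all false
set_option maxRecDepth 100000

namespace Pool.Agent.Strip051.G.I5470_6050.Tab.C.BB03

open Pool.Agent.Strip051.PB Pool.Agent.Strip051.PB.T
open Pool.Agent.Strip051.G.I5470_6050.Tab

noncomputable def cut_pp_012_a : Cut := Cut.of [[⟨0, 0, 0, 67108864⟩, ⟨1, 1, 0, 67108864⟩, ⟨2, 1, 0, 67108864⟩]]

noncomputable def f_pp_012_a : ℕ → ℕ → ℕ → ℕ → Bool := onCell 536870912 536870912 0 536870912 587336777 62277027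
    (rowB 3 eng mog cd0q0 cd3q2a pd1 2 false true true .pnp 0 1 2 (qsf 0 536870912 0 536870912 1) ndB0q0 ndB3q2a pcB1 cut_pp_012_a Ext.none)

def k0_pp_012_a : ∃ t, chk3 f_pp_012_a t 2 1 1 = true :=
  ⟨(l 3), by decide +kernel⟩

def k1_pp_012_a : ∃ t, chk3 f_pp_012_a t 24 32 1 = true :=
  ⟨(b (a (l 3) (a (l 3) (a (l 3) (a (b (a (a (l 3) (b (b (c (c (c (c (l 39896141959) (l 16737848)) (l 16738928)) (l 16740856)) (l 49559831719)) (l 3)) (l 3))) (b (c (c (c (a (b (l 16737104) (l 60297233815)) (l 16736952)) (l 33453691575)) (l 34527436535)) (c (l 31306218055) (c (l 31306221383) (l 32379964439)))) (a (l 3) (b (c (c (l 62981588807) (l 16740896)) (l 52781057047)) (l 3))))) (l 3)) (b (a (b (c (c (l 16735816) (l 16739648)) (l 16742536)) (c (c (a (b (l 16736624) (l 61907847575)) (l 16736464)) (l 35601178503)) (c (l 32379960119) (l 32379964215)))) (c (c (l 16735488) (l 16739256)) (l 16742048))) (a (a (l 3) (b (c (c (l 66739686359) (l 62444725527)) (l 60834121223)) (l 3))) (c (c (b (c (l 36138043511)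 (l 34527434039)) (l 62981587143)) (b (l 36674920439) (l 65129080807))) (b (c (l 33453702183) (l 33990576743)) (l 67813440807))))))))) (l 3)), by decide +kernel⟩

def k2_pp_012_a : ∃ t, chk3 f_pp_012_a t 25 32 1 = true :=
  ⟨(a (a (a (b (c (c (a (b (l 16735656) (a (b (l 16737288) (l 40969881863)) (l 16736944))) (l 16734936)) (a (b (l 16738016) (a (l 31843081863) (l 16739264))) (l 16737168))) (a (b (l 16740680) (a (c (l 28621863527) (b (l 16743040) (l 35064318327))) (l 16741872))) (l 16742296))) (b (c (c (a (a (l 65129071927) (b (l 41506752759) (l 68887171111))) (a (b (l 16737424) (l 43654236791)) (l 16737056))) (a (a (l 67813436311) (l 45801727351)) (l 28621857063))) (a (a (l 70497795991) (b (c (l 16742360) (l 36138059911)) (l 69960924103))) (c (l 27011250455) (a (l 30232479799) (l 16742264))))) (a (l 3) (c (a (l 66202816295) (b (l 41506755463) (l 68887174087))) (a (l 71571537415) (b (l 37748670999) (l 71571536423))))))) (b (c (c (l 16732544) (l 16734616)) (l 16740832)) (a (c (b (l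 16736968) (c (a (l 34527431751) (l 16737144)) (l 29695598983))) (b (l 16740280) (c (l 28084992119) (l 28084995975)))) (c (l 16735464) (l 16739224))))) (a (b (a (l 16732824) (l 16731032)) (c (l 16733560) (l 16736408))) (c (l 16728432) (l 16731040)))) (a (a (a (l 16727200) (l 16725376)) (l 16722608)) (l 16717024))), by decide +kernel⟩

def k3_pp_012_a : ∃ t, chk3 f_pp_012_a t 12 33 1 = true :=
  ⟨(a (l 3) (b (a (a (a (l 3) (a (a (l 3) (b (c (l 57612883767) (l 55465412247)) (l 3))) (b (c (c (l 30232465287) (l 16739584)) (c (l 16741096) (l 29158737239))) (c (l 59223498871) (l 62981601015))))) (a (b (c (l 16736072) (l 16738848)) (a (c (l 33990560999) (l 29158736087)) (l 16738424))) (c (l 16733408) (l 16735848)))) (a (a (l 16731128) (l 16727392)) (l 16721736))) (a (a (l 3) (a (c (a (l 60834110727) (b (l 33990561399) (l 59223497271))) (a (l 65665956599) (b (l 16741176) (l 58686637751)))) (a (b (l 16738248) (a (l 37748660711) (l 16739456))) (l 16734600)))) (a (a (c (l 16733200) (l 16735248))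 (l 16730648)) (l 16724936))))), by decide +kernel⟩

def k4_pp_012_a : ∃ t, chk3 f_pp_012_a t 12 17 1 = true :=
  ⟨(a (l 3) (a (a (l 3) (b (a (l 3) (b (a (b (l 59223500903) (l 3)) (b (l 36674914951) (l 60297239879))) (l 3))) (l 3))) (a (b (a (a (b (c (l 16738488) (l 16739488)) (l 57612889335)) (b (l 16735488) (c (l 35064308055) (l 36138055703)))) (b (l 16733944) (a (l 31843076967) (l 16736328)))) (a (l 3) (b (a (l 55465403143) (l 36674918839)) (l 3)))) (a (b (c (l 16730912) (l 16732256)) (b (c (l 16736024) (l 16737160)) (c (l 39359279143) (l 42580508535)))) (b (l 16727888) (c (b (l 16732224) (l 16735648)) (l 16745272))))))), by decide +kernel⟩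

def k5_pp_012_a : ∃ t, chk3 f_pp_012_a t 12 9 1 = true :=
  ⟨(a (l 3) (a (l 3) (b (a (l 3) (b (a (l 3) (b (c (l 35601182983) (l 38822411207)) (l 3))) (l 3))) (l 3)))), by decide +kernel⟩

def k6_pp_012_a : ∃ t, chk3 f_pp_012_a t 12 5 1 = true :=
  ⟨(l 3), by decide +kernel⟩

def k7_pp_012_a : ∃ t, chk3 f_pp_012_a t 13 4 1 = true :=
  ⟨(a (b (b (a (a (a (l 16714472) (l 16710656)) (l 16704896)) (a (l 16697168) (l 16689416))) (a (a (c (b (l 16721488) (a (l 16730096) (l 16726224))) (b (l 16722256) (l 16739176))) (b (l 16714168) (l 16731088))) (a (a (l 16711384) (l 16707384)) (l 16701376)))) (b (b (a (a (a (b (l 23790014487) (l 35064310311)) (a (l 22179400919) (l 16732280))) (c (l 16737592) (l 16727008))) (a (l 16719048) (l 16710856))) (a (a (b (a (l 3) (l 31306213831)) (l 3)) (a (b (l 16734312) (l 37211794535)) (c (l 16731984) (l 16731560)))) (a (c (l 16725920) (l 16725248)) (l 16717432)))) (a (b (a (l 3) (b (a (l 3) (l 38822405607)) (l 3))) (l 3)) (b (a (a (b (l 16732920) (l 53854789591))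 (l 20031916183)) (c (l 16724640) (l 16723440))) (a (b (a (l 3) (l 54391658999)) (l 3)) (a (b (l 16731440) (l 65665946951)) (b (l 16727208) (l 16730688)))))))) (b (a (b (a (l 16681696) (l 16673936)) (a (l 16693368) (l 16685352))) (b (l 16662360) (a (l 16677400) (l 16669448)))) (a (b (a (b (l 16702656) (l 16709112)) (l 16697632)) (a (b (l 16715760) (c (l 16723256) (l 16721632))) (b (l 16707344) (l 16714056)))) (b (a (l 16689432) (l 16681264)) (a (b (l 16698960) (l 16705576)) (l 16693896)))))), by decide +kernel⟩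

def k8_pp_012_a : ∃ t, chk3 f_pp_012_a t 13 5 1 = true :=
  ⟨(a (b (a (l 3) (b (a (l 3) (b (b (a (l 3) (l 67813418503)) (l 3)) (l 3))) (l 3))) (l 3)) (b (a (b (a (b (a (b (l 16729920) (a (l 86067035879) (l 56002265511))) (b (l 16725640) (l 16729152))) (a (l 3) (b (a (l 84993297511) (l 57076007975)) (l 3)))) (b (c (l 16721840) (l 16719840)) (a (b (l 16728392) (a (l 78013976455) (l 56002265143))) (b (l 16724072) (l 16727632))))) (a (l 3) (b (a (l 3) (b (a (l 75866491543) (l 56002263671)) (l 95730709623))) (l 3)))) (b (a (b (c (l 16713328) (l 16711224)) (c (l 16730904) (l 16728608))) (b (l 16703856) (a (l 16712912) (l 16708624)))) (a (a (b (b (l 16726888) (a (l 73182136055) (l 34527426071))) (b (l 93046353719) (l 3))) (b (c (l 16725480) (l 16723024)) (b (c (a (l 59223491191) (l 16729896)) (l 36674909719)) (a (l 3) (b (l 64055328455) (l 3)))))) (b (a (c (l 16721160) (l 16718680)) (l 16715688)) (a (b (c (l 16726648) (l 16724072)) (a (b (l 49022938823) (l 63518457127)) (c (l 45801712887)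 (l 16726640)))) (c (b (l 16722304) (l 16726008)) (l 16732032))))))) (a (l 3) (b (a (l 3) (b (a (b (a (l 3) (b (l 62444714679) (l 3))) (l 3)) (b (a (b (l 47949196023) (c (l 61370972487) (l 64055321959))) (c (l 16733912) (l 16725976))) (a (l 3) (b (c (l 60834100999) (l 63518450599)) (l 3))))) (l 3))) (l 3))))), by decide +kernel⟩

def k9_pp_012_a : ∃ t, chk3 f_pp_012_a t 6 3 1 = true :=
  ⟨(l 3), by decide +kernel⟩

def k10_pp_012_a : ∃ t, chk3 f_pp_012_a t 28 4 1 = true :=
  ⟨(b (a (a (l 16698160) (l 16690520)) (l 16626840)) (b (a (a (l 16673176) (l 16665128)) (l 16653240)) (a (a (l 16685600) (l 16677392)) (a (l 16669264) (l 16661240))))), by decide +kernel⟩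

def k11_pp_012_a : ∃ t, chk3 f_pp_012_a t 28 10 1 = true :=
  ⟨(a (b (a (b (l 16695408) (l 16702224)) (l 16711384)) (a (b (a (l 16711376) (l 16707088)) (a (c (l 16719816) (l 16717216)) (l 16724760))) (b (l 16700696) (a (l 16709968) (l 16705688))))) (b (a (l 16682144) (l 16705472)) (a (b (l 16692280) (l 16699336)) (l 16708504)))), by decide +kernel⟩

def k12_pp_012_a : ∃ t, chk3 f_pp_012_a t 28 11 1 = true :=
  ⟨(a (b (a (b (b (a (c (l 16725400) (l 16722712)) (l 16719784)) (c (a (a (b (l 16729320) (l 55465391319)) (l 16728088)) (l 16724824)) (a (a (l 56002257799) (l 16725352)) (l 16722096)))) (a (b (a (l 3) (b (c (l 53854778007) (l 56002256631)) (l 66202802951))) (l 3)) (b (c (a (b (l 16728752) (l 53317906535)) (l 16727520)) (a (l 50633547687) (l 16724776))) (a (b (l 65665931495) (l 3)) (b (c (l 51170422343) (l 16732872)) (l 65129060071)))))) (b (a (c (l 16718584) (l 16715936)) (l 16723504)) (a (c (b (l 16724248) (a (b (l 16728200) (l 50096680007)) (l 16726984))) (b (l 16721528) (a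 (l 49022934039) (l 16724248)))) (c (b (l 16719904) (l 16723720)) (l 16729616))))) (a (l 3) (b (a (b (a (c (l 65129064167) (l 66739671415)) (c (b (l 48486067111) (l 62981578103)) (l 52781033991))) (l 3)) (c (b (a (b (l 16727704) (l 16734896)) (l 16726504)) (a (l 64055321479) (b (l 16729432) (l 56539133847)))) (b (l 44191096023) (a (l 66202799671) (l 50633549687))))) (l 3)))) (b (a (b (a (l 16708744) (l 16704504)) (a (c (l 16717480) (l 16714864)) (l 16711960))) (b (l 16698224) (l 16726608))) (b (a (b (a (l 16732448) (l 16717680)) (a (c (a (l 16733488) (l 16726080)) (l 42043611575)) (l 16721568))) (a (l 16725864) (l 16711176))) (b (a (c (a (a (l 64055320711) (b (l 16729048) (l 57076004199))) (l 16732048)) (a (a (l 65665928055) (l 47949194439)) (l 16724160))) (a (l 16721256) (l 16717032))) (a (a (a (l 3) (l 100025672951)) (a (b (c (l 47949198375) (l 16728224)) (l 71034641383)) (c (l 43117360743) (l 16727104)))) (a (c (l 16726512) (l 16723936)) (l 16721024))))))), by decide +kernel⟩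

def k13_pp_012_a : ∃ t, chk3 f_pp_012_a t 29 2 1 = true :=
  ⟨(b (b (a (l 16622928) (l 16630344)) (a (c (l 16643808) (l 16633056)) (b (l 16623464) (l 16634472)))) (b (a (b (a (l 16665976) (l 16658104)) (a (l 16700416) (l 16692464))) (b (l 16646592) (l 16659752))) (a (a (b (l 16714672) (b (l 16704944) (c (l 16734840) (l 16732608)))) (b (l 16685632) (b (l 16696784) (l 16704560)))) (b (a (l 16698744) (l 16669992)) (a (l 16713656) (l 16705832)))))), by decide +kernel⟩

def k14_pp_012_a : ∃ t, chk3 f_pp_012_a t 15 2 1 = true :=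
  ⟨(b (a (a (b (l 16619344) (l 16630928)) (b (l 16587920) (l 16624592))) (b (a (l 16624520) (b (l 16563224) (l 16569088))) (a (l 16602496) (b (l 16576064) (l 16584376))))) (a (b (a (b (l 16632000) (l 16644768)) (b (l 16618848) (l 16630872))) (a (b (l 16658608) (a (l 16677256) (l 16669672))) (b (l 16644152) (l 16679656)))) (b (a (b (l 16606440) (l 16617888)) (l 16612712)) (a (b (l 16630600) (l 16644520)) (b (l 16617176) (l 16630608)))))), by decide +kernel⟩

def k15_pp_012_a : ∃ t, chk3 f_pp_012_a t 14 3 1 = true :=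
  ⟨(b (a (b (a (l 3) (b (a (b (a (l 3) (b (a (l 3) (l 71571514103)) (l 3))) (l 3)) (b (b (a (a (a (l 36138043095) (l 32379944551)) (l 27011233543)) (l 16725048)) (a (a (l 3) (l 59223496471)) (c (l 27548109287) (l 16735744)))) (a (l 3) (b (a (l 3) (l 35601176119)) (l 3))))) (l 3))) (l 3)) (b (a (b (a (b (a (l 16733368) (l 16718712)) (a (b (l 24326884855) (c (l 33453697415) (l 35064306359))) (c (l 16728008) (l 16736344)))) (b (l 16733520) (a (l 16722800) (l 16718704)))) (a (b (a (l 3) (b (l 28621861031) (l 3))) (l 3)) (b (a (b (l 16729112) (l 25937506919)) (l 16737640)) (a (l 3) (b (l 16744160) (l 47949221239)))))) (b (a (a (l 16731552) (l 16727544)) (b (l 16696568) (l 16704696))) (a (b (c (l 16721864) (l 16741264)) (a (c (l 16743064) (l 16741472)) (l 16738192))) (b (l 16713088) (c (l 16743328) (l 16742080)))))) (a (l 3) (b (a (b (a (a (l 3) (l 9294517127)) (b (l 16734312) (l 16738888))) (l 3)) (a (b (c (l 16743664) (l 16742416)) (b (l 16739384) (l 3))) (b (l 16739024) (b (l 16735296)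 (l 16745200))))) (l 3))))) (l 3)), by decide +kernel⟩

def k16_pp_012_a : ∃ t, chk3 f_pp_012_a t 15 6 1 = true :=
  ⟨(a (b (a (b (a (l 16692912) (l 16685320)) (a (a (l 16732504) (l 16707648)) (b (l 16697584) (l 16706096)))) (b (a (l 16698888) (l 16670432)) (a (l 16704768) (l 16686808)))) (a (b (a (b (c (l 16744088) (l 16743160)) (a (c (l 16744624) (l 16743664)) (l 16740160))) (b (l 16714816) (b (l 16742480) (l 16736536)))) (a (b (b (a (l 16745512) (l 16736576)) (a (c (l 16745832) (l 16745072)) (c (l 16746936) (l 16746168)))) (a (l 3) (a (l 3) (b (l 16747032) (l 3))))) (b (a (b (l 16732624) (l 16747768)) (b (l 16728696) (l 16733336))) (a (a (b (l 7683904055) (l 3)) (b (l 16740992) (c (l 16748752) (l 16748216)))) (b (l 16748512) (a (a (l 16746904) (l 16743280)) (l 16741792))))))) (b (a (b (l 16707120) (l 16716024)) (l 16715752)) (a (b (b (l 16722832) (l 16727448)) (a (c (b (l 16734368) (l 16739088)) (l 16748056)) (c (l 16732776) (l 16732352)))) (b (l 16727848) (c (l 16729464) (l 16736984)))))))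 (b (b (a (l 16680560) (l 16645232)) (a (a (l 16700376) (l 16671928)) (l 16681984))) (a (b (a (l 16717344) (l 16699408)) (a (b (l 16709624) (l 16729296)) (b (l 16701928) (l 16711016)))) (a (b (l 16702304) (l 16709288)) (b (l 16673904) (a (l 16714088) (l 16710240))))))), by decide +kernel⟩

def k17_pp_012_a : ∃ t, chk3 f_pp_012_a t 30 7 1 = true :=
  ⟨(b (a (b (a (l 3) (b (b (a (l 3) (a (b (l 16747464) (l 3)) (b (l 16745400) (l 16747872)))) (l 3)) (l 3))) (l 3)) (b (a (b (a (a (b (c (l 16744872) (l 16749672)) (b (c (l 16748528) (l 16748128)) (l 3))) (b (l 16745248) (b (l 16746256) (a (l 16749240) (l 16748208))))) (c (b (l 16739880) (a (l 16745712) (l 16743712))) (b (l 16749984) (a (l 16750576) (l 16743344))))) (a (b (b (c (a (l 3) (l 16751464)) (l 75866508343)) (l 3)) (l 3)) (a (b (b (c (l 16749384) (l 16749024)) (c (l 16751896) (l 16752896))) (l 3)) (b (b (l 16747152) (a (l 16750120) (l 16749104))) (b (a (l 16752688) (l 16752928)) (l 3)))))) (b (a (b (l 16735696) (a (l 16741504) (l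 16739512))) (l 16738080)) (a (a (c (b (l 16746584) (b (l 16750264) (l 16755400))) (b (l 16746240) (b (l 16752560) (c (l 16755176) (l 16753792))))) (b (l 16744376) (b (l 16748064) (a (l 16751056) (l 16750048))))) (a (b (l 16742376) (a (l 16749112) (l 16752040))) (b (l 16740384) (l 16750528)))))) (b (a (l 3) (a (a (l 3) (b (b (c (l 16755528) (a (l 16754840) (l 16752464))) (a (l 3) (b (l 16754496) (l 3)))) (l 3))) (a (a (b (b (l 16751544) (b (l 16753440) (l 16754736))) (l 3)) (b (b (l 16750536) (l 22716305751)) (b (b (l 16754984) (l 3)) (l 3)))) (b (b (l 16749024) (l 16752848)) (a (b (c (l 16754696) (l 16755832)) (l 3)) (b (l 16753560) (b (l 16755480) (l 16757456)))))))) (l 3)))) (l 3)), by decide +kernel⟩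

def k18_pp_012_a : ∃ t, chk3 f_pp_012_a t 31 7 1 = true :=
  ⟨(b (a (b (a (b (c (l 16731016) (l 16738592)) (a (b (l 16737392) (l 16752760)) (l 16739784))) (b (l 16730816) (b (l 16727416) (l 16734872)))) (a (b (b (a (c (l 16752648) (l 16748480)) (l 16743232)) (a (a (b (l 16753352) (a (a (l 16756664) (l 16754840)) (l 16754080))) (c (l 16756648) (l 16756472))) (l 16751216))) (a (a (b (b (c (b (l 16759232) (l 16759232)) (c (l 16758488) (l 16758480))) (l 3)) (l 3)) (b (a (b (l 16756928) (c (l 16759616) (l 16758216))) (c (b (l 16754696) (l 16757256)) (l 16758144))) (a (l 3) (b (l 16759848) (l 3))))) (a (b (a (c (l 16760200) (l 16756136)) (l 16755168)) (c (b (b (l 16757648) (l 16760264)) (l 16762264)) (b (l 16759520) (l 16761416)))) (b (l 16753648) (c (b (l 16756256) (c (l 16761504) (l 16762736))) (b (l 16761376) (l 16761360))))))) (b (a (b (l 16749696) (l 16744216)) (l 16742928)) (b (a (l 16754528) (l 16745208)) (a (c (l 16757280) (l 16757624)) (l 6)))))) (b (a (b (l 16712424) (b (l 16719424)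 (l 16737304))) (b (l 16704528) (l 16718368))) (a (b (a (l 16733624) (l 16729544)) (a (b (l 16751592) (l 6)) (l 6))) (b (a (c (l 16736176) (l 16735728)) (l 6)) (l 6))))) (a (b (b (a (b (b (a (l 3) (a (l 3) (a (l 16762000) (l 16762208)))) (l 3)) (l 3)) (l 6)) (l 6)) (l 3)) (l 6))), by decide +kernel⟩

theorem s19_pp_012_a : ∃ t, chk3 f_pp_012_a t 15 7 1 = true := ex3_a k17_pp_012_a k18_pp_012_a

theorem s20_pp_012_a : ∃ t, chk3 f_pp_012_a t 15 3 1 = true := ex3_b k16_pp_012_a s19_pp_012_a

theorem s21_pp_012_a : ∃ t, chk3 f_pp_012_a t 7 3 1 = true := ex3_a k15_pp_012_a s20_pp_012_a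

theorem s22_pp_012_a : ∃ t, chk3 f_pp_012_a t 28 5 1 = true := ex3_b k11_pp_012_a k12_pp_012_a

theorem s23_pp_012_a : ∃ t, chk3 f_pp_012_a t 28 2 1 = true := ex3_b k10_pp_012_a s22_pp_012_a

theorem s24_pp_012_a : ∃ t, chk3 f_pp_012_a t 14 2 1 = true := ex3_a s23_pp_012_a k13_pp_012_a

theorem s25_pp_012_a : ∃ t, chk3 f_pp_012_a t 7 2 1 = true := ex3_a s24_pp_012_a k14_pp_012_a

theorem s26_pp_012_a : ∃ t, chk3 f_pp_012_a t 7 1 1 = true := ex3_b s25_pp_012_a s21_pp_012_a

theorem s27_pp_012_a : ∃ t, chk3 f_pp_012_a t 13 2 1 = true := ex3_b k7_pp_012_a k8_pp_012_a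

theorem s28_pp_012_a : ∃ t, chk3 f_pp_012_a t 12 32 1 = true := ex3_a k1_pp_012_a k2_pp_012_a

theorem s29_pp_012_a : ∃ t, chk3 f_pp_012_a t 12 16 1 = true := ex3_b s28_pp_012_a k3_pp_012_a

theorem s30_pp_012_a : ∃ t, chk3 f_pp_012_a t 12 8 1 = true := ex3_b s29_pp_012_a k4_pp_012_a

theorem s31_pp_012_a : ∃ t, chk3 f_pp_012_a t 12 4 1 = true := ex3_b s30_pp_012_a k5_pp_012_a

theorem s32_pp_012_a : ∃ t, chk3 f_pp_012_a t 12 2 1 = true := ex3_b s31_pp_012_a k6_pp_012_a

theorem s33_pp_012_a : ∃ t, chk3 f_pp_012_a t 6 2 1 = true := ex3_a s32_pp_012_a s27_pp_012_a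

theorem s34_pp_012_a : ∃ t, chk3 f_pp_012_a t 6 1 1 = true := ex3_b s33_pp_012_a k9_pp_012_a

theorem s35_pp_012_a : ∃ t, chk3 f_pp_012_a t 3 1 1 = true := ex3_a s34_pp_012_a s26_pp_012_a

theorem s36_pp_012_a : ∃ t, chk3 f_pp_012_a t 1 1 1 = true := ex3_a k0_pp_012_a s35_pp_012_a

theorem c_pp_012_a : CertB 0 536870912 0 536870912 587336777 62277027 3 eng mog cd0q0 cd3q2a pd1 false true true .pnp 0 1 2
    ndB0q0 ndB3q2a pcB1 cut_pp_012_a Ext.none :=
  certB2 (fam := false) (s1 := true) (s2 := true) (a := 0) (b := 1) (c := 2) (cn := .pnp) (n1 := ndB0q0) (n2 := ndB3q2a) (pc := pcB1) (cut := cut_pp_012_a) (xt := Ext.none) (P1 := 0) (W1 := 536870912) (P2 := 0) (W2 := 536870912) (P3 := 587336777) (W3 := 62277027) (N0 := 3) (En := eng) (mo := mog) (C1 := cd0q0) (C2 := cd3q2a) (C3 := pd1)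
    rfl (fun _ => rfl) s36_pp_012_a

noncomputable def cut_pp_012_b : Cut := Cut.of [[⟨0, 0, 0, 67108864⟩, ⟨1, 1, 0, 67108864⟩, ⟨2, 1, 0, 67108864⟩]]

noncomputable def f_pp_012_b : ℕ → ℕ → ℕ → ℕ → Bool := onCell 536870912 536870912 1239849684 370763052 587336777 62277027
    (rowB 3 eng mog cd0q0 cd3q2b pd1 2 false true true .pnp 0 1 2 (qsf 0 536870912 1239849684 370763052 1) ndB0q0 ndB3q2b pcB1 cut_pp_012_b Ext.none)

def k0_pp_012_b : ∃ t, chk3 f_pp_012_b t 2 1 1 = true :=
  ⟨(b (a (l 2) (l 3)) (l 2)), by decide +kernel⟩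

def k1_pp_012_b : ∃ t, chk3 f_pp_012_b t 12 4 1 = true :=
  ⟨(a (b (a (l 3) (b (a (l 3) (a (l 3) (a (b (b (a (a (l 3) (b (c (c (c (b (l 44191107783) (l 16736192)) (l 16737856)) (l 16739808)) (c (l 16741960) (l 16746240))) (l 3))) (b (c (c (c (l 16737792) (l 16737272)) (l 16739192)) (c (l 16741312) (l 16742936))) (c (c (l 16735664) (l 16738048)) (l 44191119495)))) (c (l 66202814343) (l 67813434791))) (l 3)) (b (c (b (c (b (c (l 16734736) (l 16736128)) (l 16734504)) (l 16740008)) (c (l 16733008) (l 16734984))) (b (c (l 16739312) (l 16745992)) (c (l 16736504) (l 16742808)))) (b (b (l 52781039703) (l 64055326071)) (l 3)))))) (l 3))) (l 3)) (b (a (a (b (a (b (b (a (c (c (l 16734752) (l 16735728)) (l 16743504)) (c (l 16733016) (l 16736416))) (c (l 16736808) (l 16739536))) (c (b (l 16729224) (l 16726840)) (b (l 16731256) (l 16728216)))) (b (c (b (l 16731992) (l 16728184)) (b (l 16733632) (l 16730528))) (c (l 16724568) (l 16725888)))) (a (b (b (l 46338578647) (l 57612859879)) (l 3)) (b (l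 16730456) (l 16725072)))) (b (a (b (c (l 16728544) (l 16728320)) (l 16732208)) (b (c (l 16722424) (l 16724544)) (l 16717984))) (b (c (l 16714296) (l 16713896)) (l 16719344)))) (b (a (b (c (l 16738056) (l 16739816)) (l 16722768)) (b (l 16710640) (l 16704520))) (a (a (l 16726704) (l 16701784)) (l 16716696)))) (b (a (a (b (a (l 3) (l 16709208)) (l 3)) (b (l 16724544) (l 40969828983))) (a (b (l 16695664) (l 16690408)) (l 16684840))) (a (a (l 3) (b (l 16693344) (l 61370906663))) (a (b (l 16685392) (l 16680640)) (l 16674616)))))), by decide +kernel⟩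

def k2_pp_012_b : ∃ t, chk3 f_pp_012_b t 12 5 1 = true :=
  ⟨(a (l 3) (a (l 3) (b (b (a (a (l 57612794247) (l 16672184)) (l 16665544)) (a (b (l 64592108023) (l 3)) (b (l 16660040) (l 16657040)))) (a (l 3) (b (l 59223392279) (l 3)))))), by decide +kernel⟩

def k3_pp_012_b : ∃ t, chk3 f_pp_012_b t 13 2 1 = true :=
  ⟨(b (a (b (a (b (b (l 16741136) (l 16692640)) (a (l 16687552) (l 16679240))) (b (a (l 16684064) (l 16697144)) (a (l 16670840) (l 16662360)))) (a (b (l 16714072) (a (l 16666048) (l 16657392))) (b (a (l 16659048) (l 16650208)) (l 16643960)))) (b (b (a (b (l 16668176) (l 16660424)) (b (l 16652688) (l 16644280))) (a (l 16670568) (l 16632552))) (a (b (a (l 16641288) (l 16632256)) (a (l 16630216) (l 16620888))) (b (l 16618624) (l 16606656))))) (a (b (a (b (a (l 16656816) (l 16647712)) (a (l 16649016) (l 16639496))) (b (l 16634048) (l 16625496))) (a (b (a (l 16643752) (l 16633592)) (a (l 16641264) (l 16630352))) (b (l 16618360) (l 16614048)))) (b (a (b (l 16636528) (l 16627280))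 (b (l 16596328) (l 16586960))) (a (b (l 16598448) (l 16592704)) (b (l 16578824) (l 16571928)))))), by decide +kernel⟩

def k4_pp_012_b : ∃ t, chk3 f_pp_012_b t 6 3 1 = true :=
  ⟨(a (l 2) (b (a (b (b (a (l 83852347623) (l 16612792)) (l 2)) (l 2)) (b (a (b (l 16589728) (l 16590368)) (b (l 16567416) (l 16566120))) (a (l 2) (b (l 16568560) (l 2))))) (l 2))), by decide +kernel⟩

def k5_pp_012_b : ∃ t, chk3 f_pp_012_b t 7 2 1 = true :=
  ⟨(a (b (b (a (b (a (l 16685240) (l 16617560)) (a (l 16615608) (l 16598936))) (a (b (l 16602960) (l 16582704)) (b (l 16589152) (l 16567112)))) (a (b (a (l 16600520) (l 16582536)) (a (l 16587584) (l 16568408))) (a (b (l 16564872) (l 16549472)) (b (l 16547712) (l 16530872))))) (a (b (b (a (l 16576528) (l 16556504)) (a (l 16567120) (l 16546544))) (b (a (l 16558640) (l 16538168)) (a (l 16551376) (l 16530488)))) (b (b (a (l 16536416) (l 16516560)) (a (l 16525680) (l 16504704))) (b (a (l 16516888) (l 16495264)) (a (l 16509072) (l 16487608)))))) (b (a (b (b (a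 (l 16576312) (l 16566536)) (l 16572984)) (b (l 16607216) (l 16587856))) (b (b (a (l 16556576) (l 16525152)) (l 16562152)) (b (l 16515160) (l 16554992)))) (a (b (b (l 16529456) (l 16536624)) (a (b (l 16473496) (l 16465200)) (b (l 16451808) (l 16442624)))) (b (a (l 16514472) (l 16496008)) (a (b (l 16430648) (l 16420120)) (b (l 16409744) (l 16397832))))))), by decide +kernel⟩

def k6_pp_012_b : ∃ t, chk3 f_pp_012_b t 7 3 1 = true :=
  ⟨(a (b (a (b (b (a (l 16545600) (l 16523920)) (a (l 16542592) (l 16519560))) (a (b (l 16542928) (l 2)) (b (l 16518216) (l 16520728)))) (b (b (a (l 16502576) (l 16480744)) (a (l 16497120) (l 16475056))) (b (a (l 16494224) (l 16470848)) (l 16503032)))) (a (l 2) (b (b (l 16486008) (l 16494672)) (l 2)))) (b (b (a (b (a (l 16458600) (l 16435544)) (a (l 16452672) (l 16429976))) (a (b (l 16412240) (l 16406320)) (b (l 16388752) (l 16403272)))) (a (b (a (l 16448128) (l 16424968)) (a (l 16445104) (l 16421304))) (a (b (l 16401432) (l 16397816)) (b (c (l 16391088) (l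 16364296)) (b (l 16375040) (l 16373264)))))) (b (b (a (l 16432944) (a (l 16395536) (l 16371400))) (a (l 16436792) (b (l 16382856) (l 16383856)))) (a (b (l 16445576) (l 2)) (b (l 16387104) (l 16396080)))))), by decide +kernel⟩

theorem s7_pp_012_b : ∃ t, chk3 f_pp_012_b t 7 1 1 = true := ex3_b k5_pp_012_b k6_pp_012_b

theorem s8_pp_012_b : ∃ t, chk3 f_pp_012_b t 12 2 1 = true := ex3_b k1_pp_012_b k2_pp_012_b

theorem s9_pp_012_b : ∃ t, chk3 f_pp_012_b t 6 2 1 = true := ex3_a s8_pp_012_b k3_pp_012_b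

theorem s10_pp_012_b : ∃ t, chk3 f_pp_012_b t 6 1 1 = true := ex3_b s9_pp_012_b k4_pp_012_b

theorem s11_pp_012_b : ∃ t, chk3 f_pp_012_b t 3 1 1 = true := ex3_a s10_pp_012_b s7_pp_012_b

theorem s12_pp_012_b : ∃ t, chk3 f_pp_012_b t 1 1 1 = true := ex3_a k0_pp_012_b s11_pp_012_b

theorem c_pp_012_b : CertB 0 536870912 1239849684 370763052 587336777 62277027 3 eng mog cd0q0 cd3q2b pd1 false true true .pnp 0 1 2
    ndB0q0 ndB3q2b pcB1 cut_pp_012_b Ext.none :=
  certB2 (fam := false) (s1 := true) (s2 := true) (a := 0) (b := 1) (c := 2) (cn := .pnp) (n1 := ndB0q0) (n2 := ndB3q2b) (pc := pcB1) (cut := cut_pp_012_b) (xt := Ext.none) (P1 := 0) (W1 := 536870912) (P2 := 1239849684) (W2 := 370763052) (P3 := 587336777) (W3 := 62277027) (N0 := 3) (En := eng) (mo := mog) (C1 := cd0q0) (C2 := cd3q2b) (C3 := pd1)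
    rfl (fun _ => rfl) s12_pp_012_b

noncomputable def cut_pp_022_a : Cut := Cut.of [[⟨0, 0, 0, 67108864⟩, ⟨1, 1, 0, 67108864⟩, ⟨2, 1, 0, 67108864⟩]]

noncomputable def f_pp_022_a : ℕ → ℕ → ℕ → ℕ → Bool := onCell 1073741824 536870912 0 536870912 587336777 62277027
    (rowB 3 eng mog cd0q0 cd3q2a pd2 2 false true true .pp 0 2 2 (qsf 0 536870912 0 536870912 2) ndB0q0 ndB3q2a pcB2 cut_pp_022_a Ext.none)

def k0_pp_022_a : ∃ t, chk3 f_pp_022_a t 1 2 1 = true :=
  ⟨(a (a (a (b (a (b (a (l 16548552) (l 16561528)) (a (c (l 16562960) (l 16563224)) (b (l 16550216) (l 16558536)))) (b (a (l 16531696) (l 16522192)) (a (l 16565824) (l 16534504)))) (a (b (a (b (l 16577528) (l 16588896)) (b (l 16568112) (l 16578888))) (b (a (l 16622456) (l 16590792)) (a (l 16646704) (l 16603768)))) (b (b (l 16573232) (l 16598832)) (a (b (l 16579128) (l 16591328)) (b (l 16566680) (l 16578112)))))) (b (a (b (a (l 16512216) (l 16501904)) (a (l 16523600) (l 16512288))) (b (a (l 16491400) (l 16480784)) (a (l 16500704)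 (l 16488896)))) (b (a (a (l 16539464) (l 16526992)) (a (b (l 16510232) (l 16517824)) (b (l 16497408) (l 16504208)))) (a (a (b (l 16553648) (l 16564296)) (b (l 16540120) (l 16549968))) (a (b (l 16526152) (l 16535072)) (b (l 16511608) (a (l 16523432) (l 16515392)))))))) (a (a (a (b (b (l 16470008) (b (l 16474440) (l 16478880))) (b (b (l 16484120) (l 16489984)) (b (c (l 16502904) (l 16488888)) (c (l 16509864) (l 16494992))))) (b (a (b (l 16461720) (l 16467392)) (a (b (l 16457480) (l 16462576)) (b (b (l 16453880) (a (l 16455904) (l 1))) (a (l 16460128) (l 1))))) (a (b (b (l 16473728) (l 16478784)) (l 1)) (l 1)))) (b (b (l 1) (l 1)) (l 1))) (l 1))) (l 1)), by decide +kernel⟩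

def k1_pp_022_a : ∃ t, chk3 f_pp_022_a t 1 3 1 = true :=
  ⟨(a (a (a (a (b (a (a (b (b (l 16632368) (l 16648056)) (b (l 16675160) (b (l 16677608) (l 16686648)))) (b (b (l 16627128) (l 16642800)) (b (l 16659408) (l 16676864)))) (b (b (l 16617752) (l 16643160)) (b (a (l 16652176) (l 16644712)) (a (l 16669040) (l 16671480))))) (b (b (a (a (b (a (l 16697064) (l 16694664)) (a (l 16706512) (l 16704064))) (a (l 16717904) (l 16692936))) (a (b (l 16682048) (l 16690984)) (b (l 16673520) (l 16682088)))) (l 6)) (l 6))) (b (b (a (b (l 16604432) (l 16639384)) (b (l 16590376) (l 16603392))) (a (b (a (l 16637048) (l 16629184)) (b (l 16644592) (l 16673344))) (b (a (l 16621136) (l 16612904)) (b (l 16627560) (a (l 16639160) (l 16630048)))))) (b (b (a (b (a (l 16664752) (l 16655736)) (a (l 16672936) (b (l 16661560) (l 6)))) (b (a (l 16646472) (b (l 16635200) (l 16638640))) (a (b (l 16651968) (l 6)) (b (l 16652568) (l 16666424))))) (a (l 6) (a (l 6) (a (l 6) (l 1))))) (a (l 6) (l 1))))) (b (b (a (a (b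 (l 16575688) (l 16587712)) (b (l 16560408) (b (l 16568496) (l 16574016)))) (a (a (b (l 16548496) (l 16558408)) (b (l 16540280) (l 16549464))) (b (a (l 16531816) (l 16523056)) (l 1)))) (a (b (a (b (l 16596968) (l 16603264)) (a (b (l 16584000) (l 16589736)) (b (l 16575024) (l 16580352)))) (a (b (a (l 16614200) (l 16604968)) (a (l 16620656) (l 16610984))) (b (a (l 16595448) (l 1)) (l 1)))) (b (a (a (l 16568264) (l 1)) (l 1)) (l 1)))) (b (b (a (a (b (a (b (l 16625472) (l 16628672)) (l 16616912)) (a (b (l 16631848) (l 1)) (l 1))) (l 1)) (l 1)) (l 1)) (l 1)))) (b (l 1) (l 1))) (l 1)), by decide +kernel⟩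

theorem s2_pp_022_a : ∃ t, chk3 f_pp_022_a t 1 1 1 = true := ex3_b k0_pp_022_a k1_pp_022_a

theorem c_pp_022_a : CertB 0 536870912 0 536870912 587336777 62277027 3 eng mog cd0q0 cd3q2a pd2 false true true .pp 0 2 2
    ndB0q0 ndB3q2a pcB2 cut_pp_022_a Ext.none :=
  certB2 (fam := false) (s1 := true) (s2 := true) (a := 0) (b := 2) (c := 2) (cn := .pp) (n1 := ndB0q0) (n2 := ndB3q2a) (pc := pcB2) (cut := cut_pp_022_a) (xt := Ext.none) (P1 := 0) (W1 := 536870912) (P2 := 0) (W2 := 536870912) (P3 := 587336777) (W3 := 62277027) (N0 := 3) (En := eng) (mo := mog) (C1 := cd0q0) (C2 := cd3q2a) (C3 := pd2)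
    rfl (fun _ => rfl) s2_pp_022_a

noncomputable def cut_pp_022_b : Cut := Cut.of [[⟨0, 0, 0, 67108864⟩, ⟨1, 1, 0, 67108864⟩, ⟨2, 1, 0, 67108864⟩]]

noncomputable def f_pp_022_b : ℕ → ℕ → ℕ → ℕ → Bool := onCell 0 536870912 1073741824 536870912 587336777 62277027
    (rowB 3 eng mog cd0q0 cd3q2b pd2 1 false true true .pp 0 2 2 (qsf 0 536870912 1239849684 370763052 2) ndB0q0 ndB3q2b pcB2 cut_pp_022_b Ext.none)

def k0_pp_022_b : ∃ t, chk3 f_pp_022_b t 2 1 1 = true :=
  ⟨(b (b (a (b (a (l 1) (b (a (l 1) (b (l 1) (l 216928978103))) (a (b (l 1) (l 192769749287)) (b (l 186327312983) (l 147135674295))))) (a (a (b (l 1) (a (l 1) (l 168073617159))) (b (a (l 1) (l 193843461415)) (a (l 132103319223) (l 16471648)))) (a (b (a (l 117607856327) (l 16491336)) (a (l 16452152) (l 16432680))) (b (b (l 16476056) (l 16446816)) (l 16403272))))) (b (a (a (b (b (l 236256288359) (l 198138384039)) (l 16479992)) (b (l 16534272) (l 16434952))) (b (a (l 16452136) (l 16418192)) (l 16507248))) (a (a (b (l 16420656)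 (l 16363144)) (l 16391032)) (a (l 16354744) (l 16333952))))) (a (b (a (b (a (a (l 148746225687) (l 100964718679)) (a (l 16432280) (l 16413064))) (a (b (a (l 16426416) (l 16407624)) (l 16390216)) (b (l 16379192) (l 16354952)))) (b (a (l 16384336) (l 16345808)) (a (l 16456168) (l 16293456)))) (a (a (b (l 16355504) (l 16316288)) (l 16308752)) (a (l 16282448) (l 16255872)))) (b (a (b (l 16285424) (l 16256280)) (b (l 16220120) (l 16229152))) (a (l 16381528) (l 16146040))))) (a (b (b (a (a (l 16334080) (l 16256640)) (l 16234104)) (a (b (l 16238208) (l 16243136)) (l 16354832))) (a (b (l 16270608) (l 16332984)) (b (l 16279952) (l 16353392)))) (b (b (a (l 16202192) (l 16160776)) (a (l 16216680) (l 16197104))) (a (l 16327944) (l 2))))), by decide +kernel⟩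

def k1_pp_022_b : ∃ t, chk3 f_pp_022_b t 3 1 1 = true :=
  ⟨(b (b (a (a (b (b (a (l 16390824) (l 16370120)) (a (l 16346272) (l 16330984))) (b (a (l 16301136) (l 16291416)) (l 16378784))) (b (a (b (l 16355624) (l 16321672)) (b (b (l 16354192) (l 16339696)) (l 16317920))) (b (a (l 16287552) (l 16288896)) (l 16298408)))) (a (b (a (b (b (l 16348872) (l 16336552)) (l 16318104)) (b (l 16340168) (l 16319264))) (a (l 16281440) (l 16288680))) (b (a (b (l 16340800) (l 16323344)) (l 16341824)) (a (l 16298320) (l 2))))) (a (b (a (b (l 16253008) (b (l 16180088) (l 16160320))) (b (l 16226016) (l 16197824))) (a (l 16104544) (l 16159000))) (b (b (a (b (l 16257496) (l 2)) (l 2)) (l 2)) (l 2)))) (a (b (b (a (l 16094816) (l 2)) (l 2)) (l 2)) (l 2))), by decide +kernel⟩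

theorem s2_pp_022_b : ∃ t, chk3 f_pp_022_b t 1 1 1 = true := ex3_a k0_pp_022_b k1_pp_022_b

theorem c_pp_022_b : CertB 0 536870912 1239849684 370763052 587336777 62277027 3 eng mog cd0q0 cd3q2b pd2 false true true .pp 0 2 2
    ndB0q0 ndB3q2b pcB2 cut_pp_022_b Ext.none :=
  certB1 (fam := false) (s1 := true) (s2 := true) (a := 0) (b := 2) (c := 2) (cn := .pp) (n1 := ndB0q0) (n2 := ndB3q2b) (pc := pcB2) (cut := cut_pp_022_b) (xt := Ext.none) (P1 := 0) (W1 := 536870912) (P2 := 1239849684) (W2 := 370763052) (P3 := 587336777) (W3 := 62277027) (N0 := 3) (En := eng) (mo := mog) (C1 := cd0q0) (C2 := cd3q2b) (C3 := pd2)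
    rfl (fun _ => rfl) s2_pp_022_b

noncomputable def f_pp_023 : ℕ → ℕ → ℕ → ℕ → Bool := onCell 0 536870912 1073741824 536870912 587336777 62277027
    (rowB 3 eng mog cd0q0 cd3q3 pd2 1 false true true .up 0 2 3 (qsf 0 536870912 1610612736 536870912 2) ndB0q0 ndB3q3 pcB2 Cut.none Ext.none)

def k0_pp_023 : ∃ t, chk3 f_pp_023 t 1 1 1 = true :=
  ⟨(a (b (b (l 1) (a (l 1) (b (l 1) (l 238403476775)))) (a (b (a (l 1) (b (l 1) (l 245382877415))) (a (l 307659894839) (l 240014130999))) (b (b (l 219612713415) (a (l 16174096) (l 16131352))) (a (l 16260760) (l 16341120))))) (b (b (a (b (l 1) (a (l 1) (l 176663451015))) (a (b (l 231960950647) (l 203507015351)) (b (a (l 221223749975) (l 16402176)) (l 16375016)))) (a (b (a (l 226592419991) (b (l 16265528) (l 16246728))) (a (l 16156512) (l 16226240))) (b (b (a (b (l 16314520) (l 16308184)) (b (l 16365608) (l 16362232))) (a (l 16301168) (l 16386360))) (a (l 16302800) (l 16452016))))) (a (b (b (a (l 16078472) (l 16243144)) (a (l 16210504) (l 16388224)))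 (a (l 16458752) (l 16552200))) (b (b (l 16457096) (l 16551888)) (a (l 16618288) (l 16659712)))))), by decide +kernel⟩

theorem c_pp_023 : CertB 0 536870912 1610612736 536870912 587336777 62277027 3 eng mog cd0q0 cd3q3 pd2 false true true .up 0 2 3
    ndB0q0 ndB3q3 pcB2 Cut.none Ext.none :=
  certB1 (fam := false) (s1 := true) (s2 := true) (a := 0) (b := 2) (c := 3) (cn := .up) (n1 := ndB0q0) (n2 := ndB3q3) (pc := pcB2) (cut := Cut.none) (xt := Ext.none) (P1 := 0) (W1 := 536870912) (P2 := 1610612736) (W2 := 536870912) (P3 := 587336777) (W3 := 62277027) (N0 := 3) (En := eng) (mo := mog) (C1 := cd0q0) (C2 := cd3q3) (C3 := pd2)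
    rfl (fun _ => rfl) k0_pp_023

noncomputable def f_pp_033 : ℕ → ℕ → ℕ → ℕ → Bool := onCell 0 536870912 1610612736 536870912 587336777 62277027
    (rowB 3 eng mog cd0q0 cd3q3 pd3 1 false true true .pnn 0 3 3 (qsf 0 536870912 1610612736 536870912 3) ndB0q0 ndB3q3 pcB3 Cut.none Ext.none)

def k0_pp_033 : ∃ t, chk3 f_pp_033 t 1 1 1 = true :=
  ⟨(a (b (b (b (a (b (a (l 16306064) (l 16324984)) (l 16308264)) (a (l 16420760) (l 16498200))) (a (a (l 16334456) (l 16403696)) (l 16504832))) (b (a (a (l 16404768) (l 16458584)) (l 16540272)) (a (b (l 16476472) (l 16501288)) (l 16572424)))) (a (l 4) (b (l 4) (a (b (l 4) (l 2)) (l 2))))) (b (a (b (b (a (l 16569352) (l 16627328)) (l 16621472)) (b (l 16641832) (l 16660696))) (b (b (l 16686344) (l 16701064)) (a (b (l 16703200) (l 2)) (l 2)))) (a (b (a (b (l 4) (l 2)) (l 2)) (l 2)) (l 2)))), by decide +kernel⟩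

theorem c_pp_033 : CertB 0 536870912 1610612736 536870912 587336777 62277027 3 eng mog cd0q0 cd3q3 pd3 false true true .pnn 0 3 3
    ndB0q0 ndB3q3 pcB3 Cut.none Ext.none :=
  certB1 (fam := false) (s1 := true) (s2 := true) (a := 0) (b := 3) (c := 3) (cn := .pnn) (n1 := ndB0q0) (n2 := ndB3q3) (pc := pcB3) (cut := Cut.none) (xt := Ext.none) (P1 := 0) (W1 := 536870912) (P2 := 1610612736) (W2 := 536870912) (P3 := 587336777) (W3 := 62277027) (N0 := 3) (En := eng) (mo := mog) (C1 := cd0q0) (C2 := cd3q3) (C3 := pd3)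
    rfl (fun _ => rfl) k0_pp_033

noncomputable def f_pp_101 : ℕ → ℕ → ℕ → ℕ → Bool := onCell 536870912 536870912 536870912 536870912 587336777 62277027
    (rowB 3 eng mog cd0q1 cd3q1 pd0 0 false true true .npn 1 0 1 (qsf 536870912 536870912 536870912 536870912 0) ndB0q1 ndB3q1 pcB0 Cut.none Ext.none)

def k0_pp_101 : ∃ t, chk3 f_pp_101 t 1 1 1 = true :=
  ⟨(l 3), by decide +kernel⟩

theorem c_pp_101 : CertB 536870912 536870912 536870912 536870912 587336777 62277027 3 eng mog cd0q1 cd3q1 pd0 false true true .npn 1 0 1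
    ndB0q1 ndB3q1 pcB0 Cut.none Ext.none :=
  certB0 (fam := false) (s1 := true) (s2 := true) (a := 1) (b := 0) (c := 1) (cn := .npn) (n1 := ndB0q1) (n2 := ndB3q1) (pc := pcB0) (cut := Cut.none) (xt := Ext.none) (P1 := 536870912) (W1 := 536870912) (P2 := 536870912) (W2 := 536870912) (P3 := 587336777) (W3 := 62277027) (N0 := 3) (En := eng) (mo := mog) (C1 := cd0q1) (C2 := cd3q1) (C3 := pd0)
    rfl k0_pp_101

noncomputable def f_pp_102_a : ℕ → ℕ → ℕ → ℕ → Bool := onCell 536870912 536870912 0 536870912 587336777 62277027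
    (rowB 3 eng mog cd0q1 cd3q2a pd0 0 false true true .npp 1 0 2 (qsf 536870912 536870912 0 536870912 0) ndB0q1 ndB3q2a pcB0 Cut.none Ext.none)

def k0_pp_102_a : ∃ t, chk3 f_pp_102_a t 1 1 1 = true :=
  ⟨(a (l 3) (l 3)), by decide +kernel⟩

theorem c_pp_102_a : CertB 536870912 536870912 0 536870912 587336777 62277027 3 eng mog cd0q1 cd3q2a pd0 false true true .npp 1 0 2
    ndB0q1 ndB3q2a pcB0 Cut.none Ext.none :=
  certB0 (fam := false) (s1 := true) (s2 := true) (a := 1) (b := 0) (c := 2) (cn := .npp) (n1 := ndB0q1) (n2 := ndB3q2a) (pc := pcB0) (cut := Cut.none) (xt := Ext.none) (P1 := 536870912) (W1 := 536870912) (P2 := 0) (W2 := 536870912) (P3 := 587336777) (W3 := 62277027) (N0 := 3) (En := eng) (mo := mog) (C1 := cd0q1) (C2 := cd3q2a) (C3 := pd0)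
    rfl k0_pp_102_a

noncomputable def f_pp_102_b : ℕ → ℕ → ℕ → ℕ → Bool := onCell 536870912 536870912 0 536870912 587336777 62277027
    (rowB 3 eng mog cd0q1 cd3q2b pd0 1 false true true .npp 1 0 2 (qsf 536870912 536870912 1239849684 370763052 0) ndB0q1 ndB3q2b pcB0 Cut.none Ext.none)

def k0_pp_102_b : ∃ t, chk3 f_pp_102_b t 1 1 1 = true :=
  ⟨(l 3), by decide +kernel⟩

theorem c_pp_102_b : CertB 536870912 536870912 1239849684 370763052 587336777 62277027 3 eng mog cd0q1 cd3q2b pd0 false true true .npp 1 0 2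
    ndB0q1 ndB3q2b pcB0 Cut.none Ext.none :=
  certB1 (fam := false) (s1 := true) (s2 := true) (a := 1) (b := 0) (c := 2) (cn := .npp) (n1 := ndB0q1) (n2 := ndB3q2b) (pc := pcB0) (cut := Cut.none) (xt := Ext.none) (P1 := 536870912) (W1 := 536870912) (P2 := 1239849684) (W2 := 370763052) (P3 := 587336777) (W3 := 62277027) (N0 := 3) (En := eng) (mo := mog) (C1 := cd0q1) (C2 := cd3q2b) (C3 := pd0)
    rfl (fun _ => rfl) k0_pp_102_b

noncomputable def f_pp_112_a : ℕ → ℕ → ℕ → ℕ → Bool := onCell 536870912 536870912 0 536870912 587336777 62277027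
    (rowB 3 eng mog cd0q1 cd3q2a pd1 0 false true true .dn 1 1 2 (qsf 536870912 536870912 0 536870912 1) ndB0q1 ndB3q2a pcB1 Cut.none Ext.none)

def k0_pp_112_a : ∃ t, chk3 f_pp_112_a t 1 1 1 = true :=
  ⟨(a (l 3) (l 1)), by decide +kernel⟩

theorem c_pp_112_a : CertB 536870912 536870912 0 536870912 587336777 62277027 3 eng mog cd0q1 cd3q2a pd1 false true true .dn 1 1 2
    ndB0q1 ndB3q2a pcB1 Cut.none Ext.none :=
  certB0 (fam := false) (s1 := true) (s2 := true) (a := 1) (b := 1) (c := 2) (cn := .dn) (n1 := ndB0q1) (n2 := ndB3q2a) (pc := pcB1) (cut := Cut.none) (xt := Ext.none) (P1 := 536870912) (W1 := 536870912) (P2 := 0) (W2 := 536870912) (P3 := 587336777) (W3 := 62277027) (N0 := 3) (En := eng) (mo := mog) (C1 := cd0q1) (C2 := cd3q2a) (C3 := pd1)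
    rfl k0_pp_112_a

noncomputable def f_pp_112_b : ℕ → ℕ → ℕ → ℕ → Bool := onCell 536870912 536870912 536870912 536870912 587336777 62277027
    (rowB 3 eng mog cd0q1 cd3q2b pd1 1 false true true .dn 1 1 2 (qsf 536870912 536870912 1239849684 370763052 1) ndB0q1 ndB3q2b pcB1 Cut.none Ext.none)

def k0_pp_112_b : ∃ t, chk3 f_pp_112_b t 1 1 1 = true :=
  ⟨(b (a (l 3) (l 3)) (a (b (a (b (a (l 3) (l 3)) (a (b (a (b (a (l 16635696) (l 16637288)) (l 16614080)) (b (l 16643400) (l 16623352))) (a (b (l 16591448) (l 16568896)) (l 16591960))) (b (a (l 55465353479) (l 3)) (b (a (l 16623248) (l 16655352)) (l 16621032))))) (b (l 3) (a (b (l 3) (a (b (l 134385433175) (l 16689120)) (b (l 3) (l 2)))) (l 3)))) (a (b (a (b (a (b (l 16546536) (l 16524064)) (b (l 16561192) (l 16540800))) (a (l 16490440) (l 16510336))) (b (a (l 16598920) (l 16618256)) (b (l 16593800) (l 16557400)))) (a (a (l 16508184) (l 16451152)) (a (l 16492840) (l 2)))) (b (a (b (a (l 31238992231) (l 2)) (l 2)) (l 2)) (l 2)))) (b (a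 (l 3) (l 2)) (l 2)))), by decide +kernel⟩

theorem c_pp_112_b : CertB 536870912 536870912 1239849684 370763052 587336777 62277027 3 eng mog cd0q1 cd3q2b pd1 false true true .dn 1 1 2
    ndB0q1 ndB3q2b pcB1 Cut.none Ext.none :=
  certB1 (fam := false) (s1 := true) (s2 := true) (a := 1) (b := 1) (c := 2) (cn := .dn) (n1 := ndB0q1) (n2 := ndB3q2b) (pc := pcB1) (cut := Cut.none) (xt := Ext.none) (P1 := 536870912) (W1 := 536870912) (P2 := 1239849684) (W2 := 370763052) (P3 := 587336777) (W3 := 62277027) (N0 := 3) (En := eng) (mo := mog) (C1 := cd0q1) (C2 := cd3q2b) (C3 := pd1)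
    rfl (fun _ => rfl) k0_pp_112_b

noncomputable def cut_pp_113 : Cut := Cut.of [[⟨0, 1, 0, 67108864⟩, ⟨1, 1, 0, 67108864⟩, ⟨2, 2, 0, 16777216⟩]]

noncomputable def f_pp_113 : ℕ → ℕ → ℕ → ℕ → Bool := onCell 536870912 536870912 536870912 536870912 587336777 62277027
    (rowB 3 eng mog cd0q1 cd3q3 pd1 1 false true true .nn 1 1 3 (qsf 536870912 536870912 1610612736 536870912 1) ndB0q1 ndB3q3 pcB1 cut_pp_113 Ext.none)

def k0_pp_113 : ∃ t, chk3 f_pp_113 t 1 2 1 = true :=
  ⟨(a (l 3) (l 3)), by decide +kernel⟩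

def k1_pp_113 : ∃ t, chk3 f_pp_113 t 2 3 1 = true :=
  ⟨(b (a (b (l 1) (a (l 1) (b (l 1) (a (l 1) (l 66605413495))))) (b (l 3) (a (b (l 3) (a (b (l 16754504) (l 16751800)) (b (l 3) (l 16803168)))) (l 3)))) (a (b (a (b (l 1) (l 149820243655)) (b (a (l 68215957223) (l 16681848)) (l 37614177719))) (a (a (l 75731857095) (l 16521224)) (b (l 16619824) (l 16602512)))) (b (a (b (a (b (l 16748368) (l 16737920)) (b (l 16790880) (l 16779504))) (b (l 16749816) (l 16719024))) (b (a (b (l 16804000) (l 16812248)) (b (l 3) (c (l 16856784) (l 16826400)))) (a (a (l 16788336) (l 16802376)) (a (l 16815568) (l 16829328))))) (a (a (l 16674760) (b (l 16744704) (l 16726640))) (b (a (l 16775016) (l 16800808)) (a (l 16756000) (l 16780376))))))), by decide +kernel⟩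

def k2_pp_113 : ∃ t, chk3 f_pp_113 t 3 3 1 = true :=
  ⟨(b (a (l 3) (l 3)) (a (b (a (b (a (b (l 3) (l 16894936)) (l 3)) (a (b (l 16858768) (l 16845520)) (b (l 114521615607) (l 16874368)))) (b (l 3) (a (b (l 3) (l 174114276407)) (a (l 3) (l 3))))) (a (b (a (l 16827496) (b (l 16860184) (l 16846976))) (a (l 16804752) (l 16827680))) (b (a (b (l 16883392) (l 16867840)) (b (a (l 16897472) (l 146196979335)) (l 16883024))) (a (l 16866800) (b (l 16865880) (l 16849552)))))) (b (l 3) (a (b (a (b (a (l 102173530663) (l 3)) (a (l 16888992) (l 16895456))) (b (l 3) (a (l 154249925223) (l 365240208039)))) (a (b (l 16870176) (l 16851752)) (b (a (l 16866400) (l 115595188583)) (l 16843016)))) (b (l 3) (a (b (a (b (l 366850769239) (l 16836600)) (b (l 3) (a (l 224043019047) (l 467782445911)))) (a (l 16830400) (b (a (l 16828224) (l 155860408119)) (l 16814336)))) (b (l 3) (a (b (a (b (l 434496424247) (l 178945837575)) (b (l 3) (a (l 260550196215) (l 481741034855)))) (a (l 16805424) (b (a (l 16803608) (l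 170355885031)) (l 16796312)))) (b (l 3) (a (b (a (b (l 443623187575) (l 189683228903)) (b (l 3) (a (l 270213855831) (l 486035974951)))) (a (l 16791480) (b (l 171966479799) (l 6)))) (b (l 3) (l 6)))))))))))), by decide +kernel⟩

theorem s3_pp_113 : ∃ t, chk3 f_pp_113 t 1 3 1 = true := ex3_a k1_pp_113 k2_pp_113

theorem s4_pp_113 : ∃ t, chk3 f_pp_113 t 1 1 1 = true := ex3_b k0_pp_113 s3_pp_113

theorem c_pp_113 : CertB 536870912 536870912 1610612736 536870912 587336777 62277027 3 eng mog cd0q1 cd3q3 pd1 false true true .nn 1 1 3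
    ndB0q1 ndB3q3 pcB1 cut_pp_113 Ext.none :=
  certB1 (fam := false) (s1 := true) (s2 := true) (a := 1) (b := 1) (c := 3) (cn := .nn) (n1 := ndB0q1) (n2 := ndB3q3) (pc := pcB1) (cut := cut_pp_113) (xt := Ext.none) (P1 := 536870912) (W1 := 536870912) (P2 := 1610612736) (W2 := 536870912) (P3 := 587336777) (W3 := 62277027) (N0 := 3) (En := eng) (mo := mog) (C1 := cd0q1) (C2 := cd3q3) (C3 := pd1)
    rfl (fun _ => rfl) s4_pp_113

noncomputable def cut_pp_123 : Cut := Cut.of [[⟨0, 1, 0, 67108864⟩, ⟨1, 1, 0, 67108864⟩, ⟨2, 2, 0, 16777216⟩]]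

noncomputable def f_pp_123 : ℕ → ℕ → ℕ → ℕ → Bool := onCell 536870912 536870912 1073741824 536870912 587336777 62277027
    (rowB 3 eng mog cd0q1 cd3q3 pd2 1 false true true .npn 1 2 3 (qsf 536870912 536870912 1610612736 536870912 2) ndB0q1 ndB3q3 pcB2 cut_pp_123 Ext.none)

def k0_pp_123 : ∃ t, chk3 f_pp_123 t 1 1 1 = true :=
  ⟨(a (b (b (a (a (b (a (l 16437016) (l 16487032)) (l 16472408)) (b (l 16587872) (l 16589064))) (b (a (b (l 16687280) (l 16675624)) (b (l 16743448) (l 16723704))) (a (l 16659392) (l 16696424)))) (a (b (b (a (b (l 16491216) (l 16498568)) (b (l 16589024) (l 16589392))) (a (l 16509784) (l 16590488))) (a (l 16549392) (l 16611776))) (b (b (a (b (l 16646816) (l 16642704)) (b (l 16676024) (l 16669536))) (a (l 16637584) (l 16660808))) (a (l 16646872) (l 16664096))))) (a (b (b (l 16619568) (l 16776576)) (b (l 16684968) (l 16709432))) (b (b (l 16919280) (a (l 16681792) (l 16681640))) (a (b (l 16701488) (l 2)) (l 2))))) (b (a (b (a (b (b (l 16787072) (l 16760008)) (l 16722672))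 (b (b (l 16817920) (l 16784664)) (l 16885536))) (b (a (b (b (l 16695952) (l 16688168)) (l 16678000)) (b (b (l 16709648) (l 16764472)) (l 16686400))) (a (l 16674416) (l 16778696)))) (b (b (a (a (l 16867000) (l 16816144)) (b (a (b (l 16804560) (l 16786864)) (b (a (b (l 16770784) (l 16783208)) (b (a (b (l 16784560) (l 6)) (l 6)) (l 322760080215))) (l 314170158055))) (a (l 16759288) (l 416175621607)))) (a (l 16808648) (a (l 16761936) (l 2)))) (a (b (b (b (l 16672896) (l 2)) (l 2)) (l 2)) (l 2)))) (a (b (a (b (l 16672440) (l 2)) (l 2)) (l 2)) (l 2)))), by decide +kernel⟩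

theorem c_pp_123 : CertB 536870912 536870912 1610612736 536870912 587336777 62277027 3 eng mog cd0q1 cd3q3 pd2 false true true .npn 1 2 3
    ndB0q1 ndB3q3 pcB2 cut_pp_123 Ext.none :=
  certB1 (fam := false) (s1 := true) (s2 := true) (a := 1) (b := 2) (c := 3) (cn := .npn) (n1 := ndB0q1) (n2 := ndB3q3) (pc := pcB2) (cut := cut_pp_123) (xt := Ext.none) (P1 := 536870912) (W1 := 536870912) (P2 := 1610612736) (W2 := 536870912) (P3 := 587336777) (W3 := 62277027) (N0 := 3) (En := eng) (mo := mog) (C1 := cd0q1) (C2 := cd3q3) (C3 := pd2)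
    rfl (fun _ => rfl) k0_pp_123

noncomputable def f_pp_133 : ℕ → ℕ → ℕ → ℕ → Bool := onCell 536870912 536870912 1610612736 536870912 587336777 62277027
    (rowB 3 eng mog cd0q1 cd3q3 pd3 1 false true true .dn 1 3 3 (qsf 536870912 536870912 1610612736 536870912 3) ndB0q1 ndB3q3 pcB3 Cut.none Ext.none)

def k0_pp_133 : ∃ t, chk3 f_pp_133 t 1 1 1 = true :=
  ⟨(a (b (a (b (a (b (l 16712296) (l 2)) (l 2)) (l 2)) (l 2)) (l 2)) (l 2)), by decide +kernel⟩

theorem c_pp_133 : CertB 536870912 536870912 1610612736 536870912 587336777 62277027 3 eng mog cd0q1 cd3q3 pd3 false true true .dn 1 3 3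
    ndB0q1 ndB3q3 pcB3 Cut.none Ext.none :=
  certB1 (fam := false) (s1 := true) (s2 := true) (a := 1) (b := 3) (c := 3) (cn := .dn) (n1 := ndB0q1) (n2 := ndB3q3) (pc := pcB3) (cut := Cut.none) (xt := Ext.none) (P1 := 536870912) (W1 := 536870912) (P2 := 1610612736) (W2 := 536870912) (P3 := 587336777) (W3 := 62277027) (N0 := 3) (En := eng) (mo := mog) (C1 := cd0q1) (C2 := cd3q3) (C3 := pd3)
    rfl (fun _ => rfl) k0_pp_133

noncomputable def f_pp_202_a : ℕ → ℕ → ℕ → ℕ → Bool := onCell 0 536870912 0 536870912 587336777 62277027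
    (rowB 3 eng mog cd0q2 cd3q2a pd0 0 false true true .pp 2 0 2 (qsf 0 536870912 0 536870912 0) ndB0q2 ndB3q2a pcB0 Cut.none Ext.none)

def k0_pp_202_a : ∃ t, chk3 f_pp_202_a t 1 1 1 = true :=
  ⟨(l 3), by decide +kernel⟩

theorem c_pp_202_a : CertB 0 536870912 0 536870912 587336777 62277027 3 eng mog cd0q2 cd3q2a pd0 false true true .pp 2 0 2
    ndB0q2 ndB3q2a pcB0 Cut.none Ext.none :=
  certB0 (fam := false) (s1 := true) (s2 := true) (a := 2) (b := 0) (c := 2) (cn := .pp) (n1 := ndB0q2) (n2 := ndB3q2a) (pc := pcB0) (cut := Cut.none) (xt := Ext.none) (P1 := 0) (W1 := 536870912) (P2 := 0) (W2 := 536870912) (P3 := 587336777) (W3 := 62277027) (N0 := 3) (En := eng) (mo := mog) (C1 := cd0q2) (C2 := cd3q2a) (C3 := pd0)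
    rfl k0_pp_202_a

noncomputable def f_pp_202_b : ℕ → ℕ → ℕ → ℕ → Bool := onCell 0 536870912 1239849684 370763052 587336777 62277027
    (rowB 3 eng mog cd0q2 cd3q2b pd0 0 false true true .pp 2 0 2 (qsf 0 536870912 1239849684 370763052 0) ndB0q2 ndB3q2b pcB0 Cut.none Ext.none)

def k0_pp_202_b : ∃ t, chk3 f_pp_202_b t 1 1 1 = true :=
  ⟨(l 3), by decide +kernel⟩

theorem c_pp_202_b : CertB 0 536870912 1239849684 370763052 587336777 62277027 3 eng mog cd0q2 cd3q2b pd0 false true true .pp 2 0 2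
    ndB0q2 ndB3q2b pcB0 Cut.none Ext.none :=
  certB0 (fam := false) (s1 := true) (s2 := true) (a := 2) (b := 0) (c := 2) (cn := .pp) (n1 := ndB0q2) (n2 := ndB3q2b) (pc := pcB0) (cut := Cut.none) (xt := Ext.none) (P1 := 0) (W1 := 536870912) (P2 := 1239849684) (W2 := 370763052) (P3 := 587336777) (W3 := 62277027) (N0 := 3) (En := eng) (mo := mog) (C1 := cd0q2) (C2 := cd3q2b) (C3 := pd0)
    rfl k0_pp_202_b

noncomputable def f_pp_203 : ℕ → ℕ → ℕ → ℕ → Bool := onCell 0 536870912 0 536870912 587336777 62277027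
    (rowB 3 eng mog cd0q2 cd3q3 pd0 1 false true true .up 2 0 3 (qsf 0 536870912 1610612736 536870912 0) ndB0q2 ndB3q3 pcB0 Cut.none Ext.none)

def k0_pp_203 : ∃ t, chk3 f_pp_203 t 1 1 1 = true :=
  ⟨(l 3), by decide +kernel⟩

theorem c_pp_203 : CertB 0 536870912 1610612736 536870912 587336777 62277027 3 eng mog cd0q2 cd3q3 pd0 false true true .up 2 0 3
    ndB0q2 ndB3q3 pcB0 Cut.none Ext.none :=
  certB1 (fam := false) (s1 := true) (s2 := true) (a := 2) (b := 0) (c := 3) (cn := .up) (n1 := ndB0q2) (n2 := ndB3q3) (pc := pcB0) (cut := Cut.none) (xt := Ext.none) (P1 := 0) (W1 := 536870912) (P2 := 1610612736) (W2 := 536870912) (P3 := 587336777) (W3 := 62277027) (N0 := 3) (En := eng) (mo := mog) (C1 := cd0q2) (C2 := cd3q3) (C3 := pd0)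
    rfl (fun _ => rfl) k0_pp_203

noncomputable def cut_pp_213 : Cut := Cut.of [[⟨0, 1, 0, 67108864⟩, ⟨1, 1, 0, 67108864⟩, ⟨2, 2, 0, 16777216⟩]]

noncomputable def f_pp_213 : ℕ → ℕ → ℕ → ℕ → Bool := onCell 0 536870912 1610612736 536870912 587336777 62277027
    (rowB 3 eng mog cd0q2 cd3q3 pd1 0 false true true .pnn 2 1 3 (qsf 0 536870912 1610612736 536870912 1) ndB0q2 ndB3q3 pcB1 cut_pp_213 Ext.none)

def k0_pp_213 : ∃ t, chk3 f_pp_213 t 1 1 1 = true :=
  ⟨(b (l 3) (a (l 3) (b (l 3) (a (l 3) (b (l 3) (a (l 3) (b (l 3) (b (l 3) (b (l 3) (l 6)))))))))), by decide +kernel⟩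

theorem c_pp_213 : CertB 0 536870912 1610612736 536870912 587336777 62277027 3 eng mog cd0q2 cd3q3 pd1 false true true .pnn 2 1 3
    ndB0q2 ndB3q3 pcB1 cut_pp_213 Ext.none :=
  certB0 (fam := false) (s1 := true) (s2 := true) (a := 2) (b := 1) (c := 3) (cn := .pnn) (n1 := ndB0q2) (n2 := ndB3q3) (pc := pcB1) (cut := cut_pp_213) (xt := Ext.none) (P1 := 0) (W1 := 536870912) (P2 := 1610612736) (W2 := 536870912) (P3 := 587336777) (W3 := 62277027) (N0 := 3) (En := eng) (mo := mog) (C1 := cd0q2) (C2 := cd3q3) (C3 := pd1)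
    rfl k0_pp_213

noncomputable def f_pm_001 : ℕ → ℕ → ℕ → ℕ → Bool := onCell 0 536870912 536870912 536870912 587336777 62277027
    (rowB 3 eng mog cd0q0 cd3q1 pd0 0 false true false .up 0 0 1 (qsf 0 536870912 536870912 536870912 0) ndB0q0 ndB3q1 pcB0 Cut.none Ext.none)

def k0_pm_001 : ∃ t, chk3 f_pm_001 t 1 1 1 = true :=
  ⟨(l 4), by decide +kernel⟩

theorem c_pm_001 : CertB 0 536870912 536870912 536870912 587336777 62277027 3 eng mog cd0q0 cd3q1 pd0 false true false .up 0 0 1
    ndB0q0 ndB3q1 pcB0 Cut.none Ext.none :=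
  certB0 (fam := false) (s1 := true) (s2 := false) (a := 0) (b := 0) (c := 1) (cn := .up) (n1 := ndB0q0) (n2 := ndB3q1) (pc := pcB0) (cut := Cut.none) (xt := Ext.none) (P1 := 0) (W1 := 536870912) (P2 := 536870912) (W2 := 536870912) (P3 := 587336777) (W3 := 62277027) (N0 := 3) (En := eng) (mo := mog) (C1 := cd0q0) (C2 := cd3q1) (C3 := pd0)
    rfl k0_pm_001

noncomputable def f_pm_011 : ℕ → ℕ → ℕ → ℕ → Bool := onCell 0 536870912 536870912 536870912 587336777 62277027
    (rowB 3 eng mog cd0q0 cd3q1 pd1 0 false true false .pnn 0 1 1 (qsf 0 536870912 536870912 536870912 1) ndB0q0 ndB3q1 pcB1 Cut.none Ext.none)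

def k0_pm_011 : ∃ t, chk3 f_pm_011 t 1 1 1 = true :=
  ⟨(l 4), by decide +kernel⟩

theorem c_pm_011 : CertB 0 536870912 536870912 536870912 587336777 62277027 3 eng mog cd0q0 cd3q1 pd1 false true false .pnn 0 1 1
    ndB0q0 ndB3q1 pcB1 Cut.none Ext.none :=
  certB0 (fam := false) (s1 := true) (s2 := false) (a := 0) (b := 1) (c := 1) (cn := .pnn) (n1 := ndB0q0) (n2 := ndB3q1) (pc := pcB1) (cut := Cut.none) (xt := Ext.none) (P1 := 0) (W1 := 536870912) (P2 := 536870912) (W2 := 536870912) (P3 := 587336777) (W3 := 62277027) (N0 := 3) (En := eng) (mo := mog) (C1 := cd0q0) (C2 := cd3q1) (C3 := pd1)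
    rfl k0_pm_011

noncomputable def cut_pm_012_a : Cut := Cut.of [[⟨0, 0, 0, 67108864⟩, ⟨1, 1, 0, 67108864⟩, ⟨2, 1, 0, 67108864⟩]]

noncomputable def xt_pm_012_a : Ext := extD2 3 ⟨7, 3, 3, 10, 1815, 1000, 17, 20, 37, 100, 3, 16⟩ eng cd0q0 cd3q2a pd1 false true false .pnp 0 1 2 rfl ndB0q0 ndB3q2a pcB1

noncomputable def f_pm_012_a : ℕ → ℕ → ℕ → ℕ → Bool := onCell 0 536870912 0 536870912 587336777 62277027
    (rowB 3 eng mog cd0q0 cd3q2a pd1 0 false true false .pnp 0 1 2 (qsf 0 536870912 0 536870912 1) ndB0q0 ndB3q2a pcB1 cut_pm_012_a xt_pm_012_a)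

def k0_pm_012_a : ∃ t, chk3 f_pm_012_a t 2 2 1 = true :=
  ⟨(a (a (l 2) (b (l 2) (a (l 2) (b (l 2) (a (l 2) (b (l 2) (l 16448072))))))) (a (b (a (a (l 2) (b (a (l 2) (b (b (l 16443648) (l 16420128)) (l 16417672))) (b (l 16415368) (l 16417112)))) (b (a (b (b (c (l 16436152) (l 16419416)) (l 16424840)) (l 16421976)) (b (b (l 16434544) (l 16431448)) (l 16428056))) (a (b (l 16420224) (l 16420968)) (l 16425512)))) (a (b (a (b (l 16419032) (l 16426760)) (b (l 16421448) (l 16428088))) (a (l 16483704) (l 16441672))) (b (b (l 16425656) (l 16430496)) (b (l 16437368) (l 16445552))))) (b (a (b (b (a (l 16440264) (l 16447984)) (a (l 16434600) (l 16441640))) (a (l 16430736) (l 16436464))) (b (b (a (l 16456144) (l 16464736)) (l 16495000)) (a (l 16442672) (l 16449344)))) (b (a (b (l 16432840) (l 16435224)) (l 16442264)) (a (b (l 16439368) (l 16445352)) (l 16487120)))))), by decide +kernel⟩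

def k1_pm_012_a : ∃ t, chk3 f_pm_012_a t 4 3 1 = true :=
  ⟨(b (a (l 2) (b (a (l 2) (a (b (l 16465920) (l 16486096)) (b (l 16463848) (l 16482336)))) (a (a (b (l 2) (a (l 2) (l 16567696))) (b (a (l 16515480) (l 16512944)) (b (l 16534368) (l 16548640)))) (b (a (l 16508960) (l 16503376)) (a (l 16534368) (l 16526840)))))) (b (a (a (l 2) (a (b (l 2) (l 6)) (a (b (l 2) (l 6)) (b (b (l 2) (l 16595136)) (b (l 16612968) (l 16631416)))))) (a (b (a (b (a (l 16573864) (l 16569824)) (l 16588432)) (l 16592352)) (a (b (l 16605488) (l 16644104)) (b (l 16595064) (l 16580176)))) (b (a (l 16562128) (l 16552552)) (a (l 16592064) (l 16580368))))) (a (a (l 6) (a (l 6) (a (l 6) (a (l 6) (b (l 16679752) (b (b (l 16680264) (l 16688224)) (b (l 16696248) (b (l 16702288) (c (l 16710624) (l 16707232)))))))))) (b (a (a (b (l 16641352) (l 16658896)) (b (l 16628728) (l 16644016))) (b (l 16629488) (a (l 16629584) (b (l 16611984) (l 16618968))))) (b (a (a (b (l 16691440) (l 16688776)) (b (l 16655240) (l 16662832)))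 (a (b (l 16640464) (l 16647816)) (l 16629616))) (a (b (a (a (l 16690168) (l 16682200)) (a (l 16674352) (l 16666624))) (a (b (a (l 16696144) (l 16688088)) (b (a (l 16699144) (l 16691048)) (a (b (l 16703272) (a (l 16703712) (l 16699608))) (c (l 16695048) (l 16690920))))) (b (a (l 16680160) (l 16672344)) (a (c (l 16691424) (b (l 16680904) (l 16682752))) (c (l 16678440) (l 16673808)))))) (b (a (l 16655232) (l 16640336)) (a (b (l 16671304) (a (a (l 16670352) (l 16666488)) (l 16660744))) (a (b (l 16649496) (l 16653160)) (l 16643840)))))))))), by decide +kernel⟩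

def k2_pm_012_a : ∃ t, chk3 f_pm_012_a t 5 3 1 = true :=
  ⟨(b (a (b (a (b (l 16460416) (l 16476368)) (b (l 16455936) (l 16468512))) (a (b (l 16494688) (l 16536208)) (b (l 16483216) (l 16499896)))) (b (a (b (l 16452584) (l 16461816)) (b (l 16451048) (l 16456992))) (a (b (l 16472952) (l 16485800)) (b (l 16464608) (a (l 16476544) (l 16471088)))))) (a (b (a (b (a (l 16542784) (l 16532960)) (l 16583472)) (b (l 16539432) (l 16538848))) (b (a (a (l 16601000) (l 16581544)) (b (l 16554912) (l 16566928))) (a (b (a (l 16615288) (l 16601040)) (b (a (l 16625664) (l 16611064)) (a (a (l 16636392) (l 16628968)) (l 16617848)))) (a (b (l 16586688) (b (l 16596368) (l 16602920))) (b (l 16572112) (b (l 16581560) (l 16588008))))))) (b (a (b (l 16521320) (a (l 16521984) (l 16511392))) (b (a (l 16488168) (l 16480752)) (a (l 16522200) (l 16491184)))) (b (a (a (l 16561440) (l 16548328)) (l 16549536)) (a (b (a (l 16557768) (l 16543872)) (a (l 16570336) (l 16555976))) (b (a (l 16529984) (l 16516016)) (a (l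 16541608) (l 16527144)))))))), by decide +kernel⟩

def k3_pm_012_a : ∃ t, chk3 f_pm_012_a t 3 2 1 = true :=
  ⟨(a (a (b (a (b (b (a (l 16473696) (l 16482912)) (l 16469656)) (b (l 16462624) (l 16457152))) (b (a (l 16508696) (l 16496888)) (l 16496248))) (b (a (l 16452152) (a (l 16460456) (l 16466344))) (a (l 16491792) (b (l 16457368) (l 16455144))))) (b (a (b (a (l 16527112) (l 16516104)) (a (l 16487248) (l 16496064))) (b (l 16552048) (l 16509120))) (b (a (l 16476496) (l 16490136)) (a (l 16465056) (l 16473352))))) (a (b (a (b (l 16549680) (l 16525240)) (b (l 16566040) (l 16539048))) (b (a (l 16502424) (l 16512328)) (a (l 16480336) (l 16484744)))) (b (a (b (l 16580656) (l 16551032)) (b (l 16594784) (l 16562496))) (b (a (l 16520240) (l 16527512)) (a (l 16486888) (l 16488000)))))), by decide +kernel⟩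

def k4_pm_012_a : ∃ t, chk3 f_pm_012_a t 6 3 1 = true :=
  ⟨(b (a (a (b (b (l 16493368) (a (l 16454656) (l 16453872))) (b (a (l 16459800) (l 16457464)) (l 16505968))) (b (b (a (l 16453056) (l 16454984)) (l 16453824)) (b (l 16454320) (l 16455080)))) (b (a (b (l 16457848) (l 16453776)) (b (l 16461160) (l 16453168))) (a (l 16448392) (l 16441136)))) (a (b (a (b (l 16470024) (l 16476280)) (b (l 16455928) (l 16456656))) (b (a (l 16502584) (l 16456000)) (a (b (l 16494848) (a (l 16512536) (l 16497816))) (b (l 16466312) (a (l 16483032) (l 16468240)))))) (b (a (b (l 16441688) (l 16436896)) (b (l 16426880) (l 16416504))) (b (a (l 16430240) (a (l 16410448) (l 16396384))) (b (a (l 16479880) (l 16453320)) (a (a (l 16453504) (l 16439136)) (a (l 16425688) (l 16412936)))))))), by decide +kernel⟩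

def k5_pm_012_a : ∃ t, chk3 f_pm_012_a t 7 6 1 = true :=
  ⟨(a (b (a (l 16457632) (l 16454680)) (a (b (l 16438576) (l 16425104)) (b (l 16428808) (l 16409696)))) (b (a (l 16448832) (l 16441464)) (a (b (l 16415464) (l 16389696)) (b (l 16399896) (l 16367896))))), by decide +kernel⟩

def k6_pm_012_a : ∃ t, chk3 f_pm_012_a t 14 7 1 = true :=
  ⟨(b (a (b (l 16452088) (l 16372464)) (b (l 16388304) (l 16364304))) (b (a (l 16399616) (l 16405192)) (a (b (l 16430664) (a (l 16401032) (l 16390376))) (b (l 16413624) (a (c (l 16384824) (l 16377816)) (c (b (l 16376024) (l 16379416)) (l 16369880))))))), by decide +kernel⟩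

def k7_pm_012_a : ∃ t, chk3 f_pm_012_a t 15 14 1 = true :=
  ⟨(a (b (l 16361520) (l 16343712)) (b (l 16332720) (l 16335824))), by decide +kernel⟩

def k8_pm_012_a : ∃ t, chk3 f_pm_012_a t 15 30 1 = true :=
  ⟨(a (l 16394224) (a (l 16344760) (l 16339368))), by decide +kernel⟩

def k9_pm_012_a : ∃ t, chk3 f_pm_012_a t 30 31 1 = true :=
  ⟨(b (a (l 16362056) (l 16356096)) (c (b (a (l 16369648) (l 16363464)) (c (a (a (l 16376560) (l 16373352)) (b (l 16367768) (a (a (l 16371776) (a (l 16370568) (c (l 16372200) (l 16368616)))) (b (l 16367352) (c (b (l 592553518895135533668911) (b (l 592565048110181602777647) (c (b (l 592570236256952335079983) (a (a (l 593564919285051895026223) (a (l 593542437315712060265007) (l 593591148249281698697775))) (c (a (l 593640435643603640734255) (l 593739586892999827886639)) (a (l 593688570116420975432239) (l 593787721365817162584623))))) (a (l 16369832) (a (l 16368600) (l 593952877371352091546159)))))) (a (l 16367784) (l 16366160))))))) (a (l 16370568) (a (l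 16365656) (l 16362440))))) (a (l 16362696) (b (l 16355144) (l 16356792))))), by decide +kernel⟩

def k10_pm_012_a : ∃ t, chk3 f_pm_012_a t 62 31 1 = true :=
  ⟨(b (c (l 16353488) (l 16346864)) (b (c (l 593659747078805779225135) (l 16348912)) (a (c (b (l 16360856) (c (b (l 592858754863480186231343) (b (l 592879795680939262351919) (a (a (c (c (c (a (l 593807609261771630252591) (l 593858337807974330683951)) (l 593975647571068076626479)) (l 594048858086610609656367)) (l 16365120)) (c (c (c (a (l 593909354584553182810671) (l 593960659591508186632751)) (l 594077681124225780879919)) (l 594150603409392162214447)) (l 594345447143670715798063))) (b (l 592974911705069326096943) (c (c (a (c (a (l 594016864514857769783855) (l 594068745982565077029423)) (l 594185479284906519581231)) (a (l 594239666595623040668207) (l 594292124524082651337263))) (a (l 594258113339696749187631) (l 594362452735863667135023))) (c (l 594455262916984516825647) (l 16362568))))))) (a (l 16360648) (l 16359032)))) (l 16351920))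 (c (b (l 593148426391512643213871) (c (b (l 593204919545238385203759) (b (l 593225383901945157835311) (a (a (c (c (a (l 594340547227276137828911) (l 594393581616488051905071)) (l 594463621597892916023855)) (l 594657888871419166233135)) (c (c (a (l 594447192466452269404719) (l 594500803316416486887983)) (l 594570266837069047616047)) (l 594763957649842994418223))) (a (c (c (l 594558161161270676181551) (l 594678064997749786006063)) (l 594871179349771429417519)) (c (c (l 594690747134300461748783) (l 594786727849558979531311)) (l 594979553971204471231023)))))) (b (l 16356272) (c (a (l 16358880) (c (l 595100610729188187197999) (l 16356584))) (l 16355624))))) (l 16348696))))), by decide +kernel⟩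

def k11_pm_012_a : ∃ t, chk3 f_pm_012_a t 126 31 1 = true :=
  ⟨(b (l 16345760) (b (c (l 593433774463902827076143) (l 16344064)) (c (b (l 593502085063050786445871) (a (b (l 593447321291581964917295) (b (l 593465191574903372012079) (a (c (c (c (l 594800562907614262055471) (l 594990794955874389594671)) (l 595088793283765968163375)) (c (l 595287960473686796243503) (l 16353600))) (c (c (c (l 594911531602432669192751) (l 595101475420316645020207)) (l 595199185517832071893551)) (c (l 595395758634367534584367) (l 595638160380711119245871)))))) (b (l 593626888815924477614639) (b (c (l 593679346744384094591535) (l 593602389233951578331695)) (a (c (c (c (l 595023364988379531416111) (l 595213020575887355548207)) (l 595316495280925816689199)) (c (l 595517391853103555072559) (c (l 595776222730887788565039) (l 16351192)))) (b (l 593698081718833950857775) (c (c (c (l 595140674751473276326447) (l 595329753878228797035055)) (l 595425734593487313670703)) (c (l 595627784087169658917423) (c (l 595863844765237907165743)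 (l 595977695763817830797871)))))))))) (c (b (l 16347416) (b (l 16347992) (c (a (l 16350544) (l 16348752)) (l 16347072)))) (l 16342664))))), by decide +kernel⟩

def k12_pm_012_a : ∃ t, chk3 f_pm_012_a t 127 62 1 = true :=
  ⟨(l 593630635810814425848367), by decide +kernel⟩

def k13_pm_012_a : ∃ t, chk3 f_pm_012_a t 127 126 2 = true :=
  ⟨(l 593804438727633920973359), by decide +kernel⟩

def k14_pm_012_a : ∃ t, chk3 f_pm_012_a t 127 127 2 = true :=
  ⟨(c (b (l 593907336971920089635375) (b (l 593944230460067510721071) (b (a (l 593867561180011158428207) (l 594058946149775890930223)) (a (a (c (c (l 595297472076099805319727) (l 595392011639477564609071)) (c (l 595501539182415212859951) (l 595600402201435247727151))) (b (l 593924342564113045133871) (b (l 593929242480507624479279) (c (c (l 595371547282770793484847) (l 595477039600442317820463)) (c (l 595571290933443925348911) (l 595657183585537133171247)))))) (a (b (l 594020035048995411384879) (b (l 594024646735013839018543) (c (c (c (l 595451963557717119504943)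 (l 595498656878653695758895)) (c (l 595545350199590271980079) (l 595592043520526848201263))) (c (c (l 595651418978014099706415) (l 595703012215345254994479)) (c (l 595754605452676410266159) (l 595806198690007565537839)))))) (b (l 594116592225006232721967) (c (b (l 594143397649988344306223) (b (l 594145991723373709842991) (b (l 594147144644878316755503) (c (c (a (l 595505574407681336365615) (c (l 595546791351471030342191) (l 595575614389086200992303))) (a (l 595551979498241760907823) (c (l 595600113971059095966255) (l 595624901783408142635567)))) (c (a (l 595598384588802185433647) (c (l 595649401365381037609519) (l 595673900947353932567087))) (a (l 595645077909738761654831) (c (l 595698400529326827524655) (l 595722900111299722482223)))))))) (b (l 594097280789804066069039) (b (l 594099298402437128165935) (c (c (a (l 595696671147069916926511) (c (l 595749993766657982812719) (l 595774493348630877770287))) (a (l 595746823232520313655855) (c (l 595799281160979924423215) (l 595823780742952819364399))))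 (c (a (l 595796975317970710385199) (c (l 595848280324925714305583) (l 595872779906898609230383))) (a (l 595847127403421107081775) (c (l 595897279488871504155183) (l 595921779070844399096367)))))))))))))) (b (l 593824614853964539959855) (b (l 593853726121955864386095) (a (b (l 593779074454532573796911) (b (l 593786568444312518695471) (b (l 593790315439202491144751) (c (c (a (l 595741346855373432656431) (l 595787751945933856264751)) (a (l 595852027319815687574063) (l 595853180241320292438575))) (c (a (l 595867879990504029278767) (l 595977695763817829470767)) (a (l 596025253775882861384239) (c (l 596057535578011851772463) (l 596110858197599917167151)))))))) (b (l 593958353748498934487599) (b (l 593965847738278879386159) (b (c (l 593997841310031721962031) (l 593939042313296767932975)) (a (c (c (c (l 595845974481916500595247) (l 595897279488871504106031)) (c (l 595948872726202659328559) (l 595988648518111594353199))) (c (c (l 596039953525066597814831) (l 596115181653242193351215)) (c (l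 596166486660197196796463) (l 596217791667152200241711)))) (a (c (c (c (l 595925526065734371480111) (l 595975678151184768160303)) (c (l 596025830236635164824111) (l 596075694091709409759791))) (c (c (l 596125846177159806390831) (l 596175710032234051293743)) (c (l 596225862117684447892015) (l 596275725972758692778543)))) (b (l 594039058253821412907567) (b (l 594039922944949868091951) (b (l 594040499405702171531823) (c (c (c (l 595954925564101845094959) (c (l 595991819052249263329839) (l 596016318634222158238255))) (c (l 596065029567791796638255) (l 596114316962113738150447))) (c (c (l 596163316126059527934511) (l 596212315290005317702191)) (c (l 596249785238905038983727) (l 596298784402850828735023)))))))))))))))), by decide +kernel⟩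

def k15_pm_012_a : ∃ t, chk3 f_pm_012_a t 127 63 3 = true :=
  ⟨(b (l 16340544) (b (l 593649659015640436660783) (c (b (l 593735839898109804534319) (a (c (b (l 593694911184696266529327) (b (l 593700675792219301075503) (c (a (l 596144581151609667424815) (c (l 596173404189224837288495) (l 596226438578436750971439))) (a (l 16346872) (c (l 596279472967648664621615) (l 16345600)))))) (l 16344320)) (b (l 593830091231111412816431) (b (l 593835279377882143889967) (b (c (l 593873325787534172592687) (l 593800691732743935941167)) (c (b (l 593874766939414931233327) (c (c (a (l 596264484988088776299055) (a (l 596344613032658950640175) (l 596375165452531031052847))) (a (l 596316078225419931406895) (a (l 596394765118109347189295) (l 596400817956008532120111)))) (a (c (l 596367383232374934786607) (l 596418688239329938166319)) (a (c (l 596444917203559743738415) (l 596494781058633988559407)) (c (l 596449817119954321805871) (l 596499104514276263203375)))))) (c (a (l 16343680) (a (c (l 596549544830102812430895)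 (l 16342608)) (c (l 596576350255084920607279) (l 596602002758562421609007)))) (l 16341864)))))))) (c (l 16340568) (l 16337824))))), by decide +kernel⟩

theorem s16_pm_012_a : ∃ t, chk3 f_pm_012_a t 127 63 2 = true := ex3_b k13_pm_012_a k14_pm_012_a

theorem s17_pm_012_a : ∃ t, chk3 f_pm_012_a t 127 63 1 = true := ex3_c s16_pm_012_a k15_pm_012_a

theorem s18_pm_012_a : ∃ t, chk3 f_pm_012_a t 127 31 1 = true := ex3_b k12_pm_012_a s17_pm_012_a

theorem s19_pm_012_a : ∃ t, chk3 f_pm_012_a t 63 31 1 = true := ex3_a k11_pm_012_a s18_pm_012_a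

theorem s20_pm_012_a : ∃ t, chk3 f_pm_012_a t 31 31 1 = true := ex3_a k10_pm_012_a s19_pm_012_a

theorem s21_pm_012_a : ∃ t, chk3 f_pm_012_a t 15 31 1 = true := ex3_a k9_pm_012_a s20_pm_012_a

theorem s22_pm_012_a : ∃ t, chk3 f_pm_012_a t 15 15 1 = true := ex3_b k8_pm_012_a s21_pm_012_a

theorem s23_pm_012_a : ∃ t, chk3 f_pm_012_a t 15 7 1 = true := ex3_b k7_pm_012_a s22_pm_012_a

theorem s24_pm_012_a : ∃ t, chk3 f_pm_012_a t 7 7 1 = true := ex3_a k6_pm_012_a s23_pm_012_a

theorem s25_pm_012_a : ∃ t, chk3 f_pm_012_a t 7 3 1 = true := ex3_b k5_pm_012_a s24_pm_012_a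

theorem s26_pm_012_a : ∃ t, chk3 f_pm_012_a t 3 3 1 = true := ex3_a k4_pm_012_a s25_pm_012_a

theorem s27_pm_012_a : ∃ t, chk3 f_pm_012_a t 3 1 1 = true := ex3_b k3_pm_012_a s26_pm_012_a

theorem s28_pm_012_a : ∃ t, chk3 f_pm_012_a t 2 3 1 = true := ex3_a k1_pm_012_a k2_pm_012_a

theorem s29_pm_012_a : ∃ t, chk3 f_pm_012_a t 2 1 1 = true := ex3_b k0_pm_012_a s28_pm_012_a

theorem s30_pm_012_a : ∃ t, chk3 f_pm_012_a t 1 1 1 = true := ex3_a s29_pm_012_a s27_pm_012_a

theorem c_pm_012_a : CertB 0 536870912 0 536870912 587336777 62277027 3 eng mog cd0q0 cd3q2a pd1 false true false .pnp 0 1 2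
    ndB0q0 ndB3q2a pcB1 cut_pm_012_a xt_pm_012_a :=
  certB0 (fam := false) (s1 := true) (s2 := false) (a := 0) (b := 1) (c := 2) (cn := .pnp) (n1 := ndB0q0) (n2 := ndB3q2a) (pc := pcB1) (cut := cut_pm_012_a) (xt := xt_pm_012_a) (P1 := 0) (W1 := 536870912) (P2 := 0) (W2 := 536870912) (P3 := 587336777) (W3 := 62277027) (N0 := 3) (En := eng) (mo := mog) (C1 := cd0q0) (C2 := cd3q2a) (C3 := pd1)
    rfl s30_pm_012_a

noncomputable def cut_pm_012_b : Cut := Cut.of [[⟨0, 0, 0, 67108864⟩, ⟨1, 1, 0, 67108864⟩, ⟨2, 1, 0, 67108864⟩]]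

noncomputable def f_pm_012_b : ℕ → ℕ → ℕ → ℕ → Bool := onCell 0 536870912 536870912 536870912 587336777 62277027
    (rowB 3 eng mog cd0q0 cd3q2b pd1 1 false true false .pnp 0 1 2 (qsf 0 536870912 1239849684 370763052 1) ndB0q0 ndB3q2b pcB1 cut_pm_012_b Ext.none)

def k0_pm_012_b : ∃ t, chk3 f_pm_012_b t 2 1 1 = true :=
  ⟨(b (l 1) (a (l 1) (b (l 1) (a (b (l 1) (b (a (l 1) (a (l 1) (b (l 1) (a (l 1) (l 79489898167))))) (a (a (l 1) (b (l 1) (a (l 1) (b (l 1) (l 84321678391))))) (b (a (a (l 1) (l 78953016023)) (a (l 53183187735) (l 16426392))) (a (b (l 80563593143) (a (l 16444904) (l 16409624))) (a (l 16404872) (l 16391816))))))) (b (a (b (l 1) (a (l 1) (b (l 1) (l 97206592183)))) (b (a (l 1) (b (l 1) (l 110628393319))) (a (b (l 100427831399) (l 76805552375)) (b (l 84858633511) (l 16439000))))) (a (b (a (b (l 95059095703) (l 59088788791)) (b (l 68215605095) (l 16417744))) (a (b (l 16407768) (l 16373544)) (b (l 16385328) (l 16351648)))) (b (a (b (l 16428168) (l 16397560)) (l 16395336))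 (a (l 16349336) (l 16332992))))))))), by decide +kernel⟩

def k1_pm_012_b : ∃ t, chk3 f_pm_012_b t 3 1 1 = true :=
  ⟨(b (a (l 1) (b (l 1) (a (b (l 1) (a (b (l 1) (l 272226714599)) (b (l 294775314087) (l 236793315927)))) (b (a (b (l 1) (l 309270846087)) (b (l 287796025143) (l 266858052727))) (a (b (l 252362580823) (l 16581080)) (l 16596152)))))) (a (b (a (b (l 1) (b (a (l 1) (b (l 1) (l 160020634119))) (a (a (l 1) (l 138008862791)) (a (l 112775971927) (l 87543045943))))) (b (a (b (l 1) (a (l 1) (l 211560240311))) (b (l 246456885207) (a (l 209949614871) (l 16560344)))) (a (b (b (l 198138425335) (l 112776043607)) (l 16524616)) (b (b (l 16517248) (l 16499896)) (l 16473336))))) (a (b (a (b (a (b (l 123513310551) (l 92911713383)) (b (l 100427921879) (l 16461584))) (a (l 16499736) (l 16423304))) (b (a (l 16461528) (l 16451632)) (l 16407840))) (a (b (a (l 16380456) (l 16368368)) (a (l 16319648) (l 16309280))) (b (l 16355384) (l 16299160)))) (b (a (b (l 16441152) (l 16395960)) (l 16477592))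 (a (b (l 16347320) (l 16295432)) (b (l 16349312) (l 16302344)))))) (b (a (b (a (b (l 219613441767) (l 16535080)) (l 16610056)) (a (b (l 16504128) (l 16471704)) (l 16491208))) (a (b (l 16550976) (l 16584360)) (b (l 16561392) (b (l 16528344) (l 16506224))))) (a (b (a (l 16418592) (l 16428824)) (a (l 16423320) (b (l 16377128) (l 16340384)))) (b (a (l 16445792) (a (l 16464120) (l 16479424))) (a (b (l 16401024) (l 16369344)) (b (l 16434360) (l 16429208)))))))), by decide +kernel⟩

theorem s2_pm_012_b : ∃ t, chk3 f_pm_012_b t 1 1 1 = true := ex3_a k0_pm_012_b k1_pm_012_b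

theorem c_pm_012_b : CertB 0 536870912 1239849684 370763052 587336777 62277027 3 eng mog cd0q0 cd3q2b pd1 false true false .pnp 0 1 2
    ndB0q0 ndB3q2b pcB1 cut_pm_012_b Ext.none :=
  certB1 (fam := false) (s1 := true) (s2 := false) (a := 0) (b := 1) (c := 2) (cn := .pnp) (n1 := ndB0q0) (n2 := ndB3q2b) (pc := pcB1) (cut := cut_pm_012_b) (xt := Ext.none) (P1 := 0) (W1 := 536870912) (P2 := 1239849684) (W2 := 370763052) (P3 := 587336777) (W3 := 62277027) (N0 := 3) (En := eng) (mo := mog) (C1 := cd0q0) (C2 := cd3q2b) (C3 := pd1)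
    rfl (fun _ => rfl) s2_pm_012_b

noncomputable def cut_pm_022_a : Cut := Cut.of [[⟨0, 0, 0, 67108864⟩, ⟨1, 1, 0, 67108864⟩, ⟨2, 1, 0, 67108864⟩]]

noncomputable def f_pm_022_a : ℕ → ℕ → ℕ → ℕ → Bool := onCell 0 536870912 0 536870912 587336777 62277027
    (rowB 3 eng mog cd0q0 cd3q2a pd2 0 false true false .pp 0 2 2 (qsf 0 536870912 0 536870912 2) ndB0q0 ndB3q2a pcB2 cut_pm_022_a Ext.none)

def k0_pm_022_a : ∃ t, chk3 f_pm_022_a t 2 2 1 = true :=
  ⟨(a (a (a (a (b (b (l 16453304) (b (l 16458576) (l 16465272))) (b (b (l 16474344) (l 16485872)) (l 16550320))) (b (b (l 16450792) (l 16479176)) (b (b (l 16469296) (l 16479896)) (b (l 16492912) (l 16508424))))) (b (b (a (l 16447728) (l 16444376)) (a (l 16453656) (l 16448696))) (b (b (l 16460352) (l 16490464)) (b (l 16522864) (a (l 16499424) (l 16489832)))))) (b (a (b (a (l 16440912) (l 16437360)) (a (l 16443496) (l 16438088))) (b (a (l 16433712) (l 16429960)) (a (l 16432464) (l 16447592)))) (a (b (b (l 16447048) (l 16475024)) (b (l 16484160)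 (l 16537392))) (b (b (l 16453512) (l 16479096)) (b (a (l 16448760) (l 16438536)) (a (l 16457992) (l 16446272))))))) (a (b (a (b (a (b (l 16428280) (l 16423632)) (b (a (l 16425680) (b (l 103112128343) (l 16422120))) (l 80026658375))) (a (b (l 16420864) (l 16419920)) (b (l 75194819815) (l 16433872)))) (b (l 1) (l 1))) (a (b (a (b (l 16420768) (l 16423384)) (b (l 16412400) (l 16413576))) (a (b (l 16427768) (l 16433904)) (l 1))) (l 1))) (l 1))), by decide +kernel⟩

def k1_pm_022_a : ∃ t, chk3 f_pm_022_a t 2 3 1 = true :=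
  ⟨(a (b (b (a (a (b (a (l 16535888) (l 16526488)) (b (l 16567936) (l 16579304))) (b (a (l 16516248) (l 16505368)) (a (l 16535592) (l 16523328)))) (a (b (a (l 16493928) (l 16481888)) (a (l 16510408) (l 16496808))) (b (a (l 16469232) (l 16455880)) (a (l 16482480) (l 1))))) (a (a (a (b (l 16582128) (a (l 16610656) (l 16606736))) (b (l 16570528) (l 16617528))) (b (a (l 16578432) (l 16543680)) (a (b (l 16575456) (l 16588240)) (l 16608368)))) (a (b (a (l 16529152) (l 16513832)) (a (b (l 16544592) (l 16555560)) (b (l 16527864) (l 1)))) (b (a (l 16497656) (l 1)) (l 1))))) (a (a (b (b (b (a (l 16651504) (l 16617648)) (a (a (l 16648224) (l 16643856)) (l 16632632))) (l 6)) (l 6)) (a (b (b (b (l 16601664) (l 16636680)) (l 6)) (l 6)) (b (b (b (l 16584840) (a (l 16602448) (l 16593304))) (a (l 6) (a (l 6) (l 1)))) (l 1)))) (b (b (a (a (b (l 16567056) (l 16579064)) (l 1)) (l 1)) (l 1)) (l 1)))) (b (l 1) (l 1))), by decide +kernel⟩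

def k2_pm_022_a : ∃ t, chk3 f_pm_022_a t 3 1 1 = true :=
  ⟨(l 1), by decide +kernel⟩

theorem s3_pm_022_a : ∃ t, chk3 f_pm_022_a t 2 1 1 = true := ex3_b k0_pm_022_a k1_pm_022_a

theorem s4_pm_022_a : ∃ t, chk3 f_pm_022_a t 1 1 1 = true := ex3_a s3_pm_022_a k2_pm_022_a

theorem c_pm_022_a : CertB 0 536870912 0 536870912 587336777 62277027 3 eng mog cd0q0 cd3q2a pd2 false true false .pp 0 2 2
    ndB0q0 ndB3q2a pcB2 cut_pm_022_a Ext.none :=
  certB0 (fam := false) (s1 := true) (s2 := false) (a := 0) (b := 2) (c := 2) (cn := .pp) (n1 := ndB0q0) (n2 := ndB3q2a) (pc := pcB2) (cut := cut_pm_022_a) (xt := Ext.none) (P1 := 0) (W1 := 536870912) (P2 := 0) (W2 := 536870912) (P3 := 587336777) (W3 := 62277027) (N0 := 3) (En := eng) (mo := mog) (C1 := cd0q0) (C2 := cd3q2a) (C3 := pd2)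
    rfl s4_pm_022_a

noncomputable def cut_pm_022_b : Cut := Cut.of [[⟨0, 0, 0, 67108864⟩, ⟨1, 1, 0, 67108864⟩, ⟨2, 1, 0, 67108864⟩]]

noncomputable def f_pm_022_b : ℕ → ℕ → ℕ → ℕ → Bool := onCell 0 536870912 1073741824 536870912 587336777 62277027
    (rowB 3 eng mog cd0q0 cd3q2b pd2 1 false true false .pp 0 2 2 (qsf 0 536870912 1239849684 370763052 2) ndB0q0 ndB3q2b pcB2 cut_pm_022_b Ext.none)

def k0_pm_022_b : ∃ t, chk3 f_pm_022_b t 2 2 1 = true :=
  ⟨(a (b (a (b (l 1) (a (b (l 1) (b (l 1) (a (l 1) (l 199212063927)))) (b (b (l 1) (a (l 1) (l 193843343399))) (b (a (l 188474640151) (l 16441928)) (l 57478205655))))) (b (a (b (l 1) (b (l 1) (a (l 1) (l 194380202295)))) (b (b (l 1) (a (l 1) (l 195453931591))) (b (a (l 194917067031) (l 16452240)) (l 73047436119)))) (b (a (a (b (l 193843337431) (l 16439320)) (l 69289343175)) (l 16441456)) (a (l 16486808) (l 16328432))))) (b (a (b (a (b (a (a (l 1) (l 145525032695)) (l 16467808)) (a (l 16490648) (l 16416704))) (a (l 16400376) (l 16370656)))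 (a (b (l 16465368) (l 16372808)) (b (l 16343848) (l 16317072)))) (b (a (l 16329472) (l 16281656)) (a (l 16280104) (l 16237952)))) (a (b (a (l 16327344) (l 16276224)) (l 16282968)) (a (l 16311864) (l 16174456))))) (a (b (b (a (b (b (a (l 198675150631) (b (c (l 87006039511) (l 84321662039)) (l 16418960))) (a (l 111702108903) (l 16399392))) (b (l 16387744) (l 16362944))) (b (b (a (b (l 16402840) (l 16390664)) (l 16370384)) (l 16360352)) (l 16327392))) (b (a (l 16327648) (l 16286672)) (l 16411872))) (b (b (l 16227184) (l 16255240)) (a (l 16151552) (l 16139752)))) (b (a (b (b (b (l 16336016) (l 16317304)) (l 16290544)) (l 16241128)) (b (b (b (l 16300384) (l 16285760)) (l 16264696)) (l 16226352))) (b (b (l 16192808) (l 16170352)) (l 16143592))))), by decide +kernel⟩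

def k1_pm_022_b : ∃ t, chk3 f_pm_022_b t 3 2 1 = true :=
  ⟨(a (b (a (b (b (a (l 16292296) (l 16261312)) (l 16310232)) (a (l 16221792) (l 16227424))) (b (a (l 16258048) (l 16313824)) (a (l 16242240) (l 16265040)))) (b (a (b (l 16201976) (l 16190704)) (b (l 16245328) (l 16242568))) (a (l 16184080) (l 16251400)))) (b (a (b (a (l 16293728) (l 16320440)) (l 16329912)) (b (a (b (l 16350576) (l 16355528)) (b (a (l 16380584) (l 16404216)) (l 16398424))) (l 2247777575))) (a (b (l 16312144) (l 2)) (l 2)))), by decide +kernel⟩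

def k2_pm_022_b : ∃ t, chk3 f_pm_022_b t 1 3 1 = true :=
  ⟨(a (b (a (b (a (l 16269768) (b (l 16114256) (l 16059248))) (a (b (l 16059032) (l 16028520)) (l 16118496))) (b (a (l 16112568) (l 16100360)) (a (l 15955968) (l 16041592)))) (a (b (a (l 16183072) (l 15913120)) (a (b (l 15968776) (l 15960312)) (l 15912512))) (b (a (l 15838240) (l 2)) (l 2)))) (b (a (b (a (l 16168920) (l 2)) (l 2)) (l 2)) (l 2))), by decide +kernel⟩

theorem s3_pm_022_b : ∃ t, chk3 f_pm_022_b t 1 2 1 = true := ex3_a k0_pm_022_b k1_pm_022_b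

theorem s4_pm_022_b : ∃ t, chk3 f_pm_022_b t 1 1 1 = true := ex3_b s3_pm_022_b k2_pm_022_b

theorem c_pm_022_b : CertB 0 536870912 1239849684 370763052 587336777 62277027 3 eng mog cd0q0 cd3q2b pd2 false true false .pp 0 2 2
    ndB0q0 ndB3q2b pcB2 cut_pm_022_b Ext.none :=
  certB1 (fam := false) (s1 := true) (s2 := false) (a := 0) (b := 2) (c := 2) (cn := .pp) (n1 := ndB0q0) (n2 := ndB3q2b) (pc := pcB2) (cut := cut_pm_022_b) (xt := Ext.none) (P1 := 0) (W1 := 536870912) (P2 := 1239849684) (W2 := 370763052) (P3 := 587336777) (W3 := 62277027) (N0 := 3) (En := eng) (mo := mog) (C1 := cd0q0) (C2 := cd3q2b) (C3 := pd2)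
    rfl (fun _ => rfl) s4_pm_022_b

noncomputable def f_pm_023 : ℕ → ℕ → ℕ → ℕ → Bool := onCell 0 536870912 1073741824 536870912 587336777 62277027
    (rowB 3 eng mog cd0q0 cd3q3 pd2 1 false true false .up 0 2 3 (qsf 0 536870912 1610612736 536870912 2) ndB0q0 ndB3q3 pcB2 Cut.none Ext.none)

def k0_pm_023 : ∃ t, chk3 f_pm_023 t 1 1 1 = true :=
  ⟨(b (a (a (l 1) (b (l 1) (b (l 1) (a (l 1) (l 16167176))))) (a (b (a (l 1) (l 182568596551)) (b (a (l 212096806871) (l 16315192)) (a (l 16152280) (l 16205928)))) (b (a (b (l 202969940039) (l 16268392)) (a (l 180958332999) (b (l 16337144) (l 16339216)))) (a (b (l 16261536) (l 16272440)) (b (l 16323752) (l 16402080)))))) (a (b (a (b (l 1) (a (l 1) (l 16146720))) (b (l 214781009687) (a (l 15927736) (l 15979616)))) (a (b (a (l 267394162247) (l 15968256)) (a (l 302290753239) (l 15992184))) (b (a (l 15909752) (l 16075072)) (a (l 16099704) (l 16289016))))) (b (a (b (a (l 16120824) (l 16199504)) (a (l 16083792) (l 16311944))) (a (b (l 16356064) (l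 16458880)) (b (l 16479344) (l 16547984)))) (a (b (l 16378416) (l 16497248)) (a (l 16589936) (l 16643088)))))), by decide +kernel⟩

theorem c_pm_023 : CertB 0 536870912 1610612736 536870912 587336777 62277027 3 eng mog cd0q0 cd3q3 pd2 false true false .up 0 2 3
    ndB0q0 ndB3q3 pcB2 Cut.none Ext.none :=
  certB1 (fam := false) (s1 := true) (s2 := false) (a := 0) (b := 2) (c := 3) (cn := .up) (n1 := ndB0q0) (n2 := ndB3q3) (pc := pcB2) (cut := Cut.none) (xt := Ext.none) (P1 := 0) (W1 := 536870912) (P2 := 1610612736) (W2 := 536870912) (P3 := 587336777) (W3 := 62277027) (N0 := 3) (En := eng) (mo := mog) (C1 := cd0q0) (C2 := cd3q3) (C3 := pd2)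
    rfl (fun _ => rfl) k0_pm_023

noncomputable def f_pm_033 : ℕ → ℕ → ℕ → ℕ → Bool := onCell 1610612736 536870912 1610612736 536870912 587336777 62277027
    (rowB 3 eng mog cd0q0 cd3q3 pd3 2 false true false .pnn 0 3 3 (qsf 0 536870912 1610612736 536870912 3) ndB0q0 ndB3q3 pcB3 Cut.none Ext.none)

def k0_pm_033 : ∃ t, chk3 f_pm_033 t 1 1 1 = true :=
  ⟨(a (a (b (a (b (b (l 4) (l 540862846039)) (b (a (l 16214464) (l 4)) (l 16361480))) (l 4)) (a (b (b (l 16476600) (l 16568688)) (l 16657760)) (b (a (l 16509944) (l 16503392)) (l 16635800)))) (b (l 4) (b (l 4) (a (l 16617736) (l 4))))) (l 4)), by decide +kernel⟩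

theorem c_pm_033 : CertB 0 536870912 1610612736 536870912 587336777 62277027 3 eng mog cd0q0 cd3q3 pd3 false true false .pnn 0 3 3
    ndB0q0 ndB3q3 pcB3 Cut.none Ext.none :=
  certB2 (fam := false) (s1 := true) (s2 := false) (a := 0) (b := 3) (c := 3) (cn := .pnn) (n1 := ndB0q0) (n2 := ndB3q3) (pc := pcB3) (cut := Cut.none) (xt := Ext.none) (P1 := 0) (W1 := 536870912) (P2 := 1610612736) (W2 := 536870912) (P3 := 587336777) (W3 := 62277027) (N0 := 3) (En := eng) (mo := mog) (C1 := cd0q0) (C2 := cd3q3) (C3 := pd3)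
    rfl (fun _ => rfl) k0_pm_033

noncomputable def f_pm_101 : ℕ → ℕ → ℕ → ℕ → Bool := onCell 0 536870912 536870912 536870912 587336777 62277027
    (rowB 3 eng mog cd0q1 cd3q1 pd0 2 false true false .npn 1 0 1 (qsf 536870912 536870912 536870912 536870912 0) ndB0q1 ndB3q1 pcB0 Cut.none Ext.none)

def k0_pm_101 : ∃ t, chk3 f_pm_101 t 1 2 1 = true :=
  ⟨(l 4), by decide +kernel⟩

def k1_pm_101 : ∃ t, chk3 f_pm_101 t 4 6 1 = true :=
  ⟨(b (l 4) (a (a (b (a (b (l 16520776) (l 16509888)) (b (l 4) (l 16512336))) (a (b (l 16505968) (l 16504960)) (l 16544960))) (b (l 4) (a (b (l 16503440) (l 16498088)) (b (l 16503880) (l 16493648))))) (a (b (l 4) (a (l 16561416) (l 16498224))) (l 4)))), by decide +kernel⟩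

def k2_pm_101 : ∃ t, chk3 f_pm_101 t 4 7 1 = true :=
  ⟨(b (a (b (a (a (b (l 16506240) (l 16509728)) (b (l 16501680) (l 16503464))) (a (l 16559208) (l 16489312))) (a (a (b (a (l 16517344) (l 16513464)) (c (l 16569784) (l 16478672))) (b (l 16507256) (a (l 16515696) (l 16510464)))) (a (b (l 16498472) (l 16502264)) (b (l 16489040) (l 16490944))))) (a (b (a (l 16481600) (l 16474008)) (a (l 16479064) (l 16467568))) (b (a (l 16467624) (l 16462272)) (a (l 16455592) (l 16443008))))) (a (b (a (b (a (c (l 16577184) (a (l 16494440) (l 16487240))) (c (l 16567544) (l 16476064))) (a (b (a (b (l 16542584) (a (l 16546120) (l 16544096))) (l 16537920)) (a (l 16546064) (b (c (l 16583120) (l 16501520)) (l 16542048)))) (b (l 16527712) (a (b (l 16535352) (l 16536408)) (b (l 16527616) (l 16530424)))))) (a (b (a (l 16511152) (l 16504536)) (c (l 16561976) (l 16470008))) (b (l 16494320) (a (l 16503120) (l 16495104))))) (a (b (a (b (l 16544912) (l 16545816)) (b (a (l 16537416) (l 16530728)) (l 16534928))) (a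 (l 16546872) (l 16533488))) (b (a (b (a (b (l 16524520) (l 16524576)) (b (l 16515728) (l 16517672))) (l 16521024)) (b (l 16503352) (a (b (l 16509936) (l 16509952)) (b (l 16500944) (l 16501352))))) (a (l 16520368) (l 16504192))))) (b (a (a (b (l 16480464) (l 16482888)) (b (l 16466280) (l 16466568))) (a (l 16451112) (l 16435416))) (a (b (a (b (l 16485232) (l 16487520)) (l 16467272)) (a (b (a (l 16491160) (l 16482600)) (l 16485096)) (b (a (l 16473536) (l 16462464)) (l 16464944)))) (a (b (l 16448640) (b (l 16447120) (l 16446720))) (l 16449496)))))), by decide +kernel⟩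

def k3_pm_101 : ∃ t, chk3 f_pm_101 t 5 3 1 = true :=
  ⟨(b (l 4) (b (a (a (b (a (l 16458080) (l 4)) (a (l 16430600) (l 16419584))) (b (l 4) (l 16594224))) (l 4)) (a (a (b (a (l 16419720) (l 16404048)) (a (l 16409432) (l 16391480))) (b (l 16379552) (l 16364272))) (a (b (l 16347104) (l 16326104)) (b (l 16318768) (l 16281248)))))), by decide +kernel⟩

def k4_pm_101 : ∃ t, chk3 f_pm_101 t 3 3 1 = true :=
  ⟨(a (b (l 4) (a (b (l 4) (b (l 4) (a (l 16237616) (l 16191392)))) (l 4))) (l 4)), by decide +kernel⟩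

theorem s5_pm_101 : ∃ t, chk3 f_pm_101 t 4 3 1 = true := ex3_b k1_pm_101 k2_pm_101

theorem s6_pm_101 : ∃ t, chk3 f_pm_101 t 2 3 1 = true := ex3_a s5_pm_101 k3_pm_101

theorem s7_pm_101 : ∃ t, chk3 f_pm_101 t 1 3 1 = true := ex3_a s6_pm_101 k4_pm_101

theorem s8_pm_101 : ∃ t, chk3 f_pm_101 t 1 1 1 = true := ex3_b k0_pm_101 s7_pm_101

theorem c_pm_101 : CertB 536870912 536870912 536870912 536870912 587336777 62277027 3 eng mog cd0q1 cd3q1 pd0 false true false .npn 1 0 1
    ndB0q1 ndB3q1 pcB0 Cut.none Ext.none :=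
  certB2 (fam := false) (s1 := true) (s2 := false) (a := 1) (b := 0) (c := 1) (cn := .npn) (n1 := ndB0q1) (n2 := ndB3q1) (pc := pcB0) (cut := Cut.none) (xt := Ext.none) (P1 := 536870912) (W1 := 536870912) (P2 := 536870912) (W2 := 536870912) (P3 := 587336777) (W3 := 62277027) (N0 := 3) (En := eng) (mo := mog) (C1 := cd0q1) (C2 := cd3q1) (C3 := pd0)
    rfl (fun _ => rfl) s8_pm_101

end Pool.Agent.Strip051.G.I5470_6050.Tab.C.BB03

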