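import Pool.Agent.Strip051.G.I5470_6050.Tab
import Pool.Agent.Strip051.PB.ExtD2

/-! # Certificates B26 (generated) -/

set_option linter.all false
set_option maxRecDepth 100000

namespace Pool.Agent.Strip051.G.I5470_6050.Tab.C.BB03

open Pool.Agent.Strip051.PB Pool.Agent.Strip051.PB.T
open Pool.Agent.Strip051.G.I5470_6050.Tab

noncomputable def cut_pm_102_a : Cut := Cut.of [[⟨0, 1, 0, 67108864⟩, ⟨1, 0, 0, 67108864⟩, ⟨2, 1, 0, 67108864⟩], [⟨0, 0, 1, 20971520⟩, ⟨1, 1, 2, 20971520⟩, ⟨2, 1, 0, 29360128⟩]]

noncomputable def xt_pm_102_a : Ext := extD2 3 ⟨7, 3, 3, 10, 1815, 1000, 17, 20, 37, 100, 3, 16⟩ eng cd0q1 cd3q2a pd0 false true false .npp 1 0 2 rfl ndB0q1 ndB3q2a pcB0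

noncomputable def f_pm_102_a : ℕ → ℕ → ℕ → ℕ → Bool := onCell 536870912 536870912 0 536870912 587336777 62277027
    (rowB 3 eng mog cd0q1 cd3q2a pd0 0 false true false .npp 1 0 2 (qsf 536870912 536870912 0 536870912 0) ndB0q1 ndB3q2a pcB0 cut_pm_102_a xt_pm_102_a)

def k0_pm_102_a : ∃ t, chk3 f_pm_102_a t 2 2 1 = true :=
  ⟨(a (a (l 2) (b (l 2) (b (l 2) (l 16647488)))) (a (b (a (b (l 16698776) (l 16678008)) (b (b (l 16723480) (l 16713544)) (l 16699464))) (b (a (l 16665776) (l 16685864)) (l 16668176))) (b (a (b (b (l 16727408) (l 16711424)) (b (l 16724280) (l 16716064))) (b (a (l 16781152) (b (b (l 16769056) (l 16768888)) (l 16764352))) (b (l 16762368) (l 16754864)))) (a (b (l 16706824) (l 16703320)) (b (l 16705576) (b (l 16721616) (l 16722592))))))), by decide +kernel⟩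

def k1_pm_102_a : ∃ t, chk3 f_pm_102_a t 4 6 1 = true :=
  ⟨(a (l 2) (b (l 16646160) (a (l 16651600) (l 16652784)))), by decide +kernel⟩

def k2_pm_102_a : ∃ t, chk3 f_pm_102_a t 4 14 1 = true :=
  ⟨(a (a (l 2) (b (b (l 2) (l 16625512)) (b (a (l 2) (l 16612432)) (a (l 16586296) (l 16598192))))) (b (a (b (a (l 16653328) (l 16657000)) (l 16643376)) (b (l 16664056) (l 16663616))) (a (a (b (l 16623736) (l 16611960)) (b (l 16635912) (l 16626328))) (b (l 16657056) (l 16652232))))), by decide +kernel⟩

def k3_pm_102_a : ∃ t, chk3 f_pm_102_a t 8 30 1 = true :=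
  ⟨(a (a (l 2) (b (c (l 16580344) (l 16541216)) (a (b (l 2) (l 141631974943457327)) (c (l 141768177006968879) (l 141618849500364847))))) (b (a (c (l 16594088) (l 16551248)) (c (l 16610968) (l 16564104))) (a (b (c (l 141829887127896111) (l 141685644856148015)) (c (l 141811745179942959) (l 141638434567143471))) (a (b (l 141819785346301999) (c (l 141891940841488431) (l 141702137546571823))) (b (l 141869675703779375) (l 141858474423566383)))))), by decide +kernel⟩

def k4_pm_102_a : ∃ t, chk3 f_pm_102_a t 16 62 1 = true :=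
  ⟨(a (a (l 2) (b (c (l 141603525093933103) (l 141462443932074031)) (c (l 141572944918544431) (l 141406093951287343)))) (a (b (c (l 141667228065677359) (l 141499415022370863)) (c (l 141644413193273391) (l 141449730832302127))) (b (c (l 141730450003148847) (l 141539959527014447)) (c (a (l 141703374520041519) (l 141729900249301039)) (l 141677673351692335))))), by decide +kernel⟩

def k5_pm_102_a : ∃ t, chk3 f_pm_102_a t 16 126 1 = true :=
  ⟨(a (a (a (l 2) (c (l 141499277619609647) (l 141325348548263983))) (c (b (l 141555352728076335) (c (l 141589231447834671) (l 141500995600007215))) (b (l 141369054147199023) (l 141527177659744303)))) (a (c (b (l 141633280635387951) (c (l 141680834534080559) (l 141575075216162863))) (b (l 141418051148644399) (l 141624965490573359))) (c (a (b (l 141697464643829807) (l 141877097356296239)) (l 141728525860012079)) (a (b (l 141459557724749871) (l 141444439438098479)) (l 141477424796762159))))), by decide +kernel⟩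

def k6_pm_102_a : ∃ t, chk3 f_pm_102_a t 64 127 1 = true :=
  ⟨(a (b (a (l 2) (c (l 141458389520121903) (l 141274358686040111))) (c (c (b (l 141481616717643823) (c (b (l 141498178120204335) (c (b (l 141506630620266543) (a (a (l 141491100014100527) (l 141501270499541039)) (l 141516938544644143))) (a (a (l 141473576538587183) (l 141483197268082735)) (l 141498040679284783)))) (b (l 141460244950695983) (a (b (l 141450074465288239) (c (a (l 141454541234389039) (l 141463749646925871)) (l 141439216783212591))) (a (l 141463268608688175) (l 141472614460211247)))))) (b (l 141400871295598639) (c (b (l 141418669648691247) (a (b (l 141408774041321519) (c (l 141418394772504623) (l 141396610689073199))) (b (l 141425198001094703) (l 141424167208779823)))) (b (l 141373452214173743) (a (c (l 141374620447277103) (l 141351118376812591)) (l 141377850262421551)))))) (a (b (l 262336902997729222659735599) (c (a (c (l 141312841613377583) (l 141260958389387311)) (c (l 141319301246156847) (l 141266799546695727))) (c (l 141208044373819439)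 (l 141148533287354415)))) (b (l 141257934728593455) (c (c (b (l 141331258438418479) (l 141327478866624559)) (l 141275870520361007)) (c (l 141218833334943791) (l 141158360175460399))))))) (c (b (c (l 141523673049186351) (l 141440522444357679)) (c (b (l 141520443232944175) (c (b (l 141539890854232111) (a (a (l 141523398175260719) (l 141534255855583279)) (l 141550954693034031))) (b (l 141497971954171951) (a (b (l 141487320432377903) (l 141486839395958831)) (l 141507180366757935))))) (b (l 141432413544677423) (a (b (l 141420456352743471) (c (l 141441965558349871) (l 141393449588228143))) (c (l 141460863419760687) (l 141411041779204143)))))) (a (b (l 141285147647213615) (b (l 141269410884681775) (c (c (l 141343284350713903) (l 141288377468911663)) (a (l 141197049253265455) (l 141202546813059119))))) (b (l 141296486364315695) (b (l 141281436796731439) (c (c (l 141357921603584047) (l 141301571612360751)) (l 141301090545221679))))))), by decide +kernel⟩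

def k7_pm_102_a : ∃ t, chk3 f_pm_102_a t 65 127 1 = true :=
  ⟨(c (b (c (a (l 141564423710048303) (l 141608885223374895)) (a (l 141473576522137647) (l 141509654257516591))) (c (a (b (l 141562911881248815) (c (b (l 141585520599187503) (a (l 141574113162985519) (c (l 141609847302504495) (l 141586482670174255)))) (a (l 141528345971408943) (l 141550061332021295)))) (b (l 141699388774465583) (c (b (l 141635204794073135) (a (c (b (l 141635342235107375) (l 141636029430054959)) (l 141611084249415727)) (c (a (l 141655751925039151) (l 141669427104464943)) (l 141636716621004847)))) (b (l 141584352360120367) (a (l 141572876204539951) (l 141641733126619183)))))) (a (b (l 141466979451387951) (a (c (l 141479692561711151) (l 141427946775363631)) (c (l 141499346337546287) (l 141445745124884527)))) (b (l 141504843893620783) (a (a (l 141487457861746735) (l 141497422188642351)) (a (l 141507592674000943) (l 141608060551839791))))))) (b (c (l 141384790921953327) (l 141266936977473583)) (c (a (b (l 141359021112393775) (b (l 141353798431490095)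 (a (l 141342940751577135) (l 141358196479836207)))) (b (l 141389670007865391) (c (l 141414477749223471) (l 141352492759433263)))) (a (b (l 141239105583775791) (c (l 141260820947714095) (l 141196224618332207))) (b (l 141263775883165743) (c (l 141287827709935663) (l 141220482600697903))))))), by decide +kernel⟩

def k8_pm_102_a : ∃ t, chk3 f_pm_102_a t 132 127 1 = true :=
  ⟨(c (b (c (l 141657195028119599) (l 141549030528434223)) (c (a (b (l 141646680945623087) (b (l 141648261494112303) (c (b (l 141676505210372143) (a (c (l 141683926917824559) (l 141656988871966767)) (c (c (l 141705023803621423) (l 141691348622213167)) (l 141670595331899439)))) (c (l 141635548385820719) (l 141607235950329903))))) (b (l 141672863073026095) (b (l 141674924658016303) (c (b (l 141704817642061871) (c (b (l 141719867213365295) (a (a (l 141709421850247215) (l 141739314824511535)) (c (a (l 141731343369945135) (l 141738902514303023)) (l 141720760565792815)))) (a (l 141684476669804591) (l 141698701605142575)))) (a (l 141640702346100783) (l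 141698907746336815)))))) (b (l 141546006871425071) (a (c (l 141563599065841711) (l 141503675659911215)) (b (l 141556108637634607) (a (l 141550267480817711) (l 141651628712050735))))))) (b (l 141549030462586927) (c (b (l 141422930244026415) (c (l 141450761643098159) (l 141385134520156207))) (a (l 141369397724201007) (l 141293462706470959))))), by decide +kernel⟩

def k9_pm_102_a : ∃ t, chk3 f_pm_102_a t 133 127 1 = true :=
  ⟨(c (b (c (l 141709490563268655) (l 141591636615397423)) (c (b (c (l 141743644156100655) (l 141683926907797551)) (b (a (l 141792778567745583) (l 141821572035821615)) (c (a (b (l 141734229585592367) (b (c (l 141750103790796847) (l 141720142087356463)) (a (c (c (c (b (l 141753952084017199) (a (l 141750447389818927) (l 141758212692656175))) (l 141746805255602223)) (l 141735741415538735)) (l 141713407576948783)) (c (c (b (l 141765909275459631) (b (l 141766184153448495) (c (a (c (l 141768039580565551) (l 141764328727363631)) (a (l 141772094030463023) (l 141776079761113135))) (l 141773880733433903))))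 (l 141773537131593775)) (l 141728113548722223))))) (b (l 141764672321486895) (c (b (l 141781439880052783) (b (a (l 141774086894223407) (l 141790098536316975)) (c (a (a (c (c (a (l 141781920918339631) (l 141785975368482863)) (l 141780134210977839)) (l 141774361772720175)) (c (c (a (l 141790029818609711) (l 141794084268752943)) (l 141788174391771183)) (l 141782333234020399))) (a (c (c (a (l 141798138718912559) (l 141802261888532527)) (l 141796283292057647)) (l 141790373414813743)) (b (l 141802399326748719) (c (a (l 141804529631576111) (l 141808652801196079)) (l 141798619754086447))))) (a (l 141789273895747631) (l 141788174388084783))))) (b (l 141750035067322415) (a (l 141743163117944879) (l 141780958833999919)))))) (a (b (l 141673618983993391) (a (l 141667640388042799) (l 141726395544191023))) (c (a (l 141710727512834095) (l 141725227326111791)) (l 141685644893782063)))))) (b (l 141590537104261167) (c (b (l 141622903989927983) (a (l 141701244190556207) (c (l 141652934410977327) (l 141619742891819055)))) (a (l 141546419186040879)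 (l 141569096619425839)))))) (b (c (l 141465742488436783) (l 141331602023923759)) (c (b (l 141459076698800175) (c (b (l 141490618950352943) (l 141489519438839855)) (l 141420456341061679))) (a (l 141308237398179887) (l 141413653079818287))))), by decide +kernel⟩

def k10_pm_102_a : ∃ t, chk3 f_pm_102_a t 134 127 1 = true :=
  ⟨(c (b (a (c (l 141751340735103023) (l 141625858923806767)) (l 141709559276601391)) (b (a (c (l 141757456770400303) (l 141626202522075183)) (c (l 141780202924769327) (l 141645925018386479))) (a (a (b (c (l 141753745917919279) (l 141620842401906735)) (c (b (l 141845830017368111) (b (c (l 141789480058847279) (l 141723646775967791)) (c (c (b (l 141806385056350255) (c (a (a (a (l 141807690727768111) (l 141809752312578095)) (l 141818479686893615)) (a (l 141816967859437615) (l 141821159748550703))) (l 141798688472055855))) (l 141773949451288623)) (l 141769276508717103)))) (c (l 141655958067101743) (l 141586757529813039)))) (b (c (c (l 141801643409145903) (l 141735535248277551)) (l 141633211910979631))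 (c (c (a (b (l 141800337738809391) (b (l 141801574689767471) (c (c (a (l 141825145479184431) (l 141829337368297519)) (l 141810783102959663)) (l 141785837923745839)))) (b (l 141808034322219055) (a (c (c (l 141833116940419119) (l 141816486820921391)) (l 141791404202721327)) (c (a (a (a (a (l 141827000904482863) (l 141827275782455343)) (l 141827481940983855)) (l 141827962977517615)) (l 141828856331108399)) (l 141794702738604079))))) (a (l 141779378274287663) (a (l 141739933296050223) (l 141788036930699311)))) (a (l 141721104121413679) (a (l 141635823252045871) (l 141728663265951791)))))) (c (b (l 141784532253130799) (b (c (l 141820678711033903) (l 141752852562673711)) (a (c (b (l 141817105296605231) (c (a (l 141832429745340463) (l 141837377549762607)) (l 141801162372071471))) (l 141794496564117551)) (c (a (c (l 141841844317700143) (l 141808034322661423)) (a (a (l 141828100417421359) (b (l 141828856332042287) (a (l 141874554784219183) (b (l 141829887124537391) (l 141830436880433199))))) (b (l 141830711758618671) (b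 (l 141831467672977455) (l 141832017428824111))))) (a (l 141756563415826479) (b (l 141760961464123439) (a (l 141805560404295727) (l 141762885610029103)))))))) (b (l 141647230689230895) (a (c (l 141679391415615535) (l 141608266732437551)) (a (l 141650597945032751) (b (l 141654721115193391) (b (l 141655202151743535) (a (l 141654446237253679) (l 141656713980706863))))))))))) (b (a (l 141424373347418159) (l 141439422917591087)) (a (c (b (l 141488007606435887) (c (b (l 141521886320721967) (l 141521199126200367)) (l 141448768773275695))) (b (l 141342734584512559) (l 141336343672782895))) (b (l 141432138652811311) (b (l 141609228744392751) (c (c (a (l 141535561501278255) (l 141543807841468463)) (l 141465192733671471)) (l 141440384965181487))))))), by decide +kernel⟩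

def k11_pm_102_a : ∃ t, chk3 f_pm_102_a t 135 127 1 = true :=
  ⟨(b (c (a (l 141726326835822639) (b (l 141742201041387567) (c (l 141811813897240623) (l 141678291903774767)))) (a (l 141453579134730287) (b (l 141470415411642415) (l 141466017364869167)))) (c (b (a (a (l 141907333937725487) (b (l 141735260371189807) (a (l 141735122931990575) (l 141739727138373679)))) (c (l 141818204809150511) (l 141680490927194159))) (b (a (a (a (c (l 141796489447014447) (l 141658225809719343)) (b (l 141912281741836335) (a (l 141867270484410415) (l 141734504455995439)))) (l 141739727137767471)) (l 141933997102219311)) (c (b (a (a (a (b (l 141798619751317551) (l 141799444385136687)) (l 141803911152418863)) (l 141811332857839663)) (l 141826313707667503)) (c (a (a (l 141837514988568623) (l 141847685473763375)) (a (l 141903004655190063) (a (l 141865827420291119) (l 141871050101882927)))) (a (l 141773330973327407) (l 141792916029308975)))) (a (b (a (c (l 141696983608131631) (l 141625377888190511)) (l 141670251721490479)) (l 141666472149073967))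 (c (l 141720554394796079) (l 141647436846071855)))))) (b (a (c (l 141610740602863663) (l 141371871651790895)) (c (l 141536386133901359) (l 141385821709811759))) (a (b (c (a (l 141515426687582255) (l 141523398149259311)) (l 141367473604984879)) (b (c (l 141698907691597871) (l 141365343301025839)) (l 141622079291244591))) (c (l 141534943024529455) (l 141380117992570927)))))), by decide +kernel⟩

def k12_pm_102_a : ∃ t, chk3 f_pm_102_a t 34 62 1 = true :=
  ⟨(b (a (l 141860398508687407) (c (l 141831536397549615) (l 141622766528774191))) (a (a (l 141827550590468143) (b (l 141677948300754991) (l 141671969705639983))) (a (b (l 141706398174642223) (l 141702275004694575)) (l 141735535241117743)))), by decide +kernel⟩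

def k13_pm_102_a : ∃ t, chk3 f_pm_102_a t 34 63 1 = true :=
  ⟨(b (a (a (b (c (l 141758968600821807) (l 141510341436194863)) (c (b (l 141762198417145903) (l 141765290794008623)) (b (l 141501751500849199) (l 141496734978539567)))) (b (c (l 141792778595385391) (l 141537691797061679)) (l 141667021901692975))) (c (l 141852564555087919) (l 141577480386019375))) (b (a (b (a (c (l 141769070365442095) (l 141492130773024815)) (l 141667571656982575)) (c (l 141792709870485551) (l 141503263331893295))) (c (b (l 141867407962488879) (l 141874554788511791)) (l 141749897551921199))) (a (a (c (b (l 141958873560268847) (c (b (l 141854213823053871) (c (b (l 141892696743084079) (b (a (l 141883694488977455) (l 141905341129687087)) (b (a (l 141884587842224175) (l 141906303202426927)) (c (l 14) (a (l 141867476686110767) (l 141911457156743215)))))) (b (l 141821503339413551) (a (l 141858130817957935) (c (l 141851946076864559) (l 141815456021774383)))))) (b (l 141710246467878959) (a (c (l 141739658414342191) (l 141665510073253935)) (a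 (l 141807072211927087) (l 141816761660669999)))))) (b (l 141484571629469743) (c (b (l 141559956920844335) (l 141649841996316719)) (l 141401970792284207)))) (c (b (l 141998730867163183) (c (b (l 141896888629084207) (c (b (l 141936814658404399) (l 14)) (b (l 141863628389498927) (a (a (l 141849609612263471) (l 141860329853386799)) (a (l 141916267510235183) (a (l 141879433872801839) (l 141885000151842863))))))) (b (l 141748935543406639) (a (c (l 141779378282233903) (l 141703168356433967)) (b (l 141760961454587951) (c (l 141800818764382255) (l 141723371887755311))))))) (b (l 141516457475407919) (c (a (l 141585795451011119) (l 141693891192700975)) (l 141432825845841967))))) (a (c (b (l 142040787197771823) (c (b (l 141941831178305583) (c (l 14) (c (l 14) (a (a (l 141873249116733487) (l 141884381674799151)) (a (l 141895651671851055) (l 141952139084611631)))))) (b (l 141789754923171887) (b (l 141882113900118063) (c (a (l 141912213041627183) (c (l 141863559664369711) (l 141824183390814255))) (a (l 141743644138651695) (l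 141764397425983535))))))) (b (l 141550336186597423) (c (b (l 141631287756718127) (c (l 141763023007039535) (l 141591018130128943))) (l 141465673764634671)))) (c (b (l 141994882598600751) (c (b (l 141988972751241263) (l 14)) (b (l 141832773326635055) (c (b (l 141875585574469679) (a (c (l 141931248354721839) (l 141846379787452463)) (a (l 141973579549982767) (l 141940181887238191)))) (a (l 141785013274394671) (l 141851877330845743)))))) (b (l 141586276482514991) (b (l 141766527670108207) (c (a (l 141661524334247983) (l 141771819099652143)) (l 141500170951327791))))))))), by decide +kernel⟩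

def k14_pm_102_a : ∃ t, chk3 f_pm_102_a t 35 31 1 = true :=
  ⟨(b (b (a (b (l 141790442120855599) (l 141787212303466543)) (l 141854763568250927)) (a (l 141785975350853679) (l 141860536002986031))) (b (c (b (l 142151975347470383) (a (l 141942861969440815) (l 142037488712777775))) (a (l 141824252045246511) (l 141899706050756655))) (b (a (c (a (l 141937158248497199) (l 141984368540925999)) (a (l 141623659887575087) (l 141662348963151919))) (c (b (l 142053981389013039) (l 142065869859897391)) (b (l 141723509313339439) (l 141726258093015087)))) (c (c (l 14) (a (b (a (l 141872012158664751) (l 141918878853627951)) (a (b (l 141968150707322927) (b (a (l 141869606975111215) (l 141893040322609199)) (c (c (l 14) (a (a (l 141886443252547631) (l 141898263005511727)) (a (l 141910151478001711) (l 14)))) (a (a (l 141824458264002607) (l 141835865700024367)) (c (l 141874279898824751) (l 141832017406787631)))))) (b (l 141925750802169903) (c (l 14) (b (l 141886718125883439) (a (c (l 141943274259480623) (l 141855382034792495)) (a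 (l 141985055698911279) (a (l 141904172877086767) (l 141910357631533103))))))))) (c (l 14) (b (l 141950695975829551) (c (l 14) (a (b (l 141910769947492399) (b (l 141914137202343983) (a (l 141948977974263855) (b (l 141928499576389679) (l 14))))) (l 14))))))) (a (b (a (l 141804460831162415) (l 141664754145460271)) (c (a (b (l 141711208528937007) (c (a (l 141835247195750447) (l 141767146199908399)) (a (l 141659531466326063) (l 141680353473151023)))) (b (l 141754570529865775) (a (c (l 141789617474502703) (l 141701793955381295)) (c (l 141857718481797167) (l 141723784193540143))))) (a (a (l 141528208505110575) (l 141547243805163567)) (a (l 141566897580638255) (l 141587101112041519))))) (a (b (l 141707428951474223) (c (b (l 141800268993462319) (b (l 141892627970605103) (c (a (l 141837240083824687) (c (l 141884175499690031) (l 141838889350217775))) (a (l 141746942663049263) (l 141770169852035119))))) (b (l 141618093603962927) (c (l 141665578776920111) (l 141571707943256111))))) (b (l 141932553968713775) (c (b (l 141848303919775791)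 (c (b (l 141897094763184175) (a (c (l 141954475530666031) (l 141863559648526383)) (c (l 14) (l 141888848422273071)))) (a (l 141793190882590767) (l 141907677536927791)))) (b (l 141661661763338287) (a (l 141651697436786735) (l 141854488618369071))))))))))), by decide +kernel⟩

def k15_pm_102_a : ∃ t, chk3 f_pm_102_a t 18 30 1 = true :=
  ⟨(b (a (c (l 16628248) (l 16578336)) (l 16620464)) (c (a (l 142106208219611183) (l 142228597655716015)) (a (l 141852289647198255) (l 141998937050120239)))), by decide +kernel⟩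

def k16_pm_102_a : ∃ t, chk3 f_pm_102_a t 18 62 1 = true :=
  ⟨(b (a (l 142151631738535983) (l 142201590846324783)) (a (a (l 141945060981276719) (l 142039550285660207)) (a (l 142161183785369647) (l 142140636688842799)))), by decide +kernel⟩

def k17_pm_102_a : ∃ t, chk3 f_pm_102_a t 18 63 2 = true :=
  ⟨(b (a (a (l 142153968251174959) (l 142142217249833007)) (a (l 142122700946161839) (l 142275807966642351))) (a (c (b (a (l 142162833101324463) (l 142147783564886191)) (a (a (l 14) (b (l 142411185300963503) (b (l 142064495542616239) (c (b (l 142322674633654447) (a (l 142396754205032623) (l 142528214592864431))) (l 14))))) (b (a (l 142493786126614703) (l 142574462806540463)) (b (a (l 142147165087809711) (l 142408024235802799)) (a (a (c (l 142566697506783407) (l 14)) (c (l 142607035846787247) (a (l 14) (l 142477087286575279)))) (c (a (l 142646824430895279) (l 142686200698044591)) (b (l 142525671965327535) (a (l 142510003921698991) (l 142550410981195951))))))))) (l 14)) (b (a (b (l 142522029830881455) (l 142178432449593519))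 (a (l 142421080940986543) (l 142541065160425647))) (b (a (a (l 142156098615197871) (l 142234919868891311)) (a (l 142131634508890287) (c (l 142877928069136559) (l 142614663694303407)))) (c (b (a (a (l 142666890518593711) (l 142743718907134127)) (a (l 142818623149981871) (l 142891740686090415))) (a (a (a (a (l 142646961866490031) (l 142666478201356463)) (l 142515501516128431)) (a (l 142734029458948271) (l 142771962616807599))) (a (l 142692866466037935) (l 142901086536384687)))) (a (c (a (a (l 14) (b (l 142480660693909679) (a (l 142389469947855023) (l 142499627272618159)))) (b (l 142540377929760943) (b (l 142547112439513263) (a (l 142531856712859823) (l 142571301699502255))))) (l 14)) (a (b (l 142190389633450159) (a (c (l 142607997906632879) (l 14)) (c (l 142646480820404399) (a (l 142501276534309039) (l 142520861588652207))))) (b (l 142627720396996783) (c (a (l 142684551417249967) (l 142722072258166959)) (a (b (l 142547937067286703) (l 142552335114535087)) (l 142588687724183727))))))))))), by decide +kernel⟩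

def k18_pm_102_a : ∃ t, chk3 f_pm_102_a t 18 63 3 = true :=
  ⟨(b (a (a (l 141804529597481007) (l 141898881462911023)) (a (l 142003060215529519) (l 142117684330709039))) (a (a (a (b (l 141792503685513263) (b (l 141979901700112431) (c (b (l 141898812747759663) (a (b (l 141888985859932207) (c (c (l 14) (l 141959766928687151)) (l 141843424832585775))) (c (l 14) (a (l 141861704217968687) (l 141874623482806319))))) (b (l 141707635104907311) (b (l 141708940775358511) (a (l 141878196843839535) (l 141812088713232431))))))) (b (l 141840607331336239) (b (l 142029792052674607) (c (b (l 141951864196907055) (c (l 14) (b (l 141906646766927919) (a (c (l 141964920887771183) (l 141870843909226543)) (c (l 14) (l 141897507072770095)))))) (b (l 141756013628653615) (a (a (l 141919909576654895) (l 141842256571039791)) (c (l 141911594542776367) (l 141720142050557999)))))))) (a (b (l 141891184878829615) (b (l 142082156306907183) (c (b (l 142007526986694703) (c (l 14) (b (l 141961622361800751) (a (c (l 14) (l 141924857431212079)) (l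 14))))) (b (l 141806866054070319) (b (l 141989247545901103) (c (a (l 141848784947740719) (c (l 141901630239653935) (l 141850021897338927))) (a (l 141745911860756527) (l 141771750390415407)))))))) (b (l 141944305047470127) (b (l 142137063182319663) (c (l 14) (b (l 141860329820143663) (c (b (l 141915511576068143) (a (c (l 141929667793010735) (l 141877440975290415)) (c (l 14) (l 141905547248140335)))) (a (l 141797520200532015) (l 141824664400494639))))))))) (c (l 14) (a (b (l 141927193887506479) (b (a (l 141910426330988591) (l 141968356863967279)) (a (b (l 141916542365843503) (a (b (l 141905272368906287) (c (c (l 14) (l 141934340715888687)) (l 141853320429322287))) (c (l 14) (a (l 141873661399384111) (l 141888092493004847))))) (b (l 141975434971693103) (c (l 14) (b (l 141923757910081583) (a (c (l 141983887457124399) (l 141883282127257647)) (c (l 14) (l 141912900228907055))))))))) (c (l 14) (b (l 141990621977067567) (b (l 142004640753696815) (a (b (l 141981001247997999) (b (l 141984712100642863) (l 14))) (l 14))))))))),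 by decide +kernel⟩

def k19_pm_102_a : ∃ t, chk3 f_pm_102_a t 38 15 1 = true :=
  ⟨(b (b (l 16640928) (a (l 142203927340695599) (l 142344321254113327))) (b (b (l 142322605894664239) (c (a (l 142724821044166831) (l 142862741057011887)) (l 142291475921076271))) (c (b (a (b (l 142766671211626671) (l 142797388822429871)) (b (l 142905347139207343) (l 142936339628212399))) (a (b (a (l 142794365164388527) (l 142865695993626799)) (b (a (c (l 142949190178963631) (l 142689774095564975)) (l 142711489492058287)) (c (a (l 142967607001661615) (l 143037082404831407)) (a (b (l 142702899517784239) (c (l 142777528885690543) (a (l 142626758321012911) (l 142664347881439407)))) (c (l 142845423740698799) (b (l 142711145853386927) (l 142629850713915567))))))) (a (b (l 142935240116125871) (b (l 142961284802150575) (c (l 143104771101278383) (a (l 142834497338851503) (b (l 142865352389329071) (c (l 142937782733652143) (l 142810308075733167))))))) (b (c (l 143125593106710703) (l 142879027567624367)) (c (b (l 143152324987633839) (l 143170741810495663))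 (b (l 142904453778456751) (a (b (l 142900261889638575) (l 142909126703693999)) (l 142939225839780015)))))))) (b (a (l 142262201418858543) (l 142236019324698671)) (c (b (a (l 142258490603552943) (b (l 142581403449573551) (l 142236843910135983))) (a (c (a (c (b (l 142524228839407791) (b (l 142536941944750255) (a (l 142526359143399599) (l 142564704618201263)))) (l 14)) (b (l 142567109798920367) (b (l 142579685465374895) (a (b (l 142567247237873839) (l 142571576565661871)) (l 142607104541409455))))) (l 14)) (a (b (l 142576249488048303) (b (l 142228460218532015) (c (a (l 142644350504353967) (a (l 142671907019391151) (a (l 142685650917163183) (l 142694721889697967)))) (c (a (l 142545600594722991) (b (l 142580991131467951) (a (l 142575905889321135) (a (l 142589924665049263) (l 142599201796047023))))) (l 14))))) (b (a (l 142631637395996847) (l 142668196164026543)) (b (a (l 142283916803047599) (l 142680703111086255)) (c (b (l 142733342242390191) (l 142737602829254831)) (a (b (l 142585457896882351) (l 142589649785749679))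 (l 142624421847089327)))))))) (l 14)))))), by decide +kernel⟩

def k20_pm_102_a : ∃ t, chk3 f_pm_102_a t 39 15 1 = true :=
  ⟨(b (b (l 16660080) (a (l 16615824) (b (l 16666536) (l 16606008)))) (a (b (b (l 142710939691909231) (l 142396685532463215)) (b (b (l 142347001357795439) (a (l 142251618723332271) (l 142321300284751983))) (a (b (c (l 142889679126347951) (l 142210868023476399)) (c (c (l 143226129718444207) (b (l 142972967108722863) (l 142990215700463791))) (b (c (l 142722415840673967) (l 142285016315363503)) (b (c (l 142734647909810351) (l 142206607394668719)) (c (c (l 142806391059038383) (a (l 142660911895658671) (l 142696920907792559))) (c (c (a (l 142563879973470383) (l 142600576180502703)) (l 14)) (l 14))))))) (b (c (l 143135282547523695) (l 142284191717933231)) (c (c (l 143289008050602095) (b (l 143039831171252399) (l 143056667446100143))) (b (l 142307006588600495) (c (a (c (l 142854425981649071) (l 142728463153103023)) (l 142736297150447791)) (b (l 142190801928077487) (c (a (b (l 142602843922317487)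 (l 142606760933245103)) (l 142640845799686319)) (l 14)))))))))) (b (b (c (l 143068349765632111) (l 142610540504432815)) (b (l 142878958840529007) (l 142725851851243631))) (b (c (b (l 143166962231476335) (l 143198298318389359)) (l 142348994194882735)) (c (b (c (l 143346320104030447) (l 143113154865447087)) (a (c (l 143350305834500335) (l 143113292304744623)) (c (l 143409679472689391) (l 143176376795381935)))) (c (b (a (l 142839376410165423) (l 142907408703946927)) (a (b (l 142862191280783535) (a (l 142860610732818607) (l 142894489440780463))) (b (l 142929467660271791) (a (l 142927887112323247) (l 142960803747446959))))) (b (l 142267286718283951) (a (b (l 142612739525787823) (b (l 142263369708241071) (c (a (l 142676511214370991) (l 142711695592636591)) (a (c (l 142581128560148655) (l 14)) (a (l 142576249475236015) (l 142594253981302959)))))) (b (l 142683932916138159) (c (a (l 142742894240448687) (l 142777253984845999)) (b (l 142631843541450927) (a (b (l 142619267875160239) (l 142622772569194671)) (l 142566147704717487))))))))))))),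 by decide +kernel⟩

def k21_pm_102_a : ∃ t, chk3 f_pm_102_a t 5 6 1 = true :=
  ⟨(a (b (l 16668264) (a (l 16666920) (b (l 16684304) (l 16691824)))) (b (a (l 16702792) (l 16725072)) (a (b (l 16709376) (l 16718976)) (l 16780488)))), by decide +kernel⟩

def k22_pm_102_a : ∃ t, chk3 f_pm_102_a t 10 14 1 = true :=
  ⟨(a (b (l 16658408) (a (l 16677056) (b (l 16691712) (l 16692504)))) (b (l 16703904) (b (a (l 16706896) (l 16723568)) (a (l 16711240) (l 16730192))))), by decide +kernel⟩

def k23_pm_102_a : ∃ t, chk3 f_pm_102_a t 10 30 1 = true :=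
  ⟨(a (a (b (c (l 16702224) (l 16653232)) (a (b (l 16675872) (l 142922045959815279)) (b (l 16685800) (l 16689544)))) (a (b (l 16691528) (b (l 16696272) (l 16699976))) (b (l 16701720) (a (l 16705656) (l 16710464))))) (b (a (l 16716248) (l 16734968)) (a (a (l 16696552) (l 16726944)) (a (l 16736336) (l 16745520))))), by decide +kernel⟩

def k24_pm_102_a : ∃ t, chk3 f_pm_102_a t 10 31 2 = true :=
  ⟨(a (b (a (a (b (l 16708384) (l 143238499220029551)) (b (l 16718208) (a (l 143316220963389679) (l 143365767715406063)))) (b (a (l 16727368) (l 16735608)) (l 143483003163623663))) (b (a (a (a (l 143271209696280687) (b (l 143307287429054575) (l 143336355772907631))) (b (l 143379786490757359) (l 143405143981916399))) (a (l 143484171394597103) (l 143577217582760175))) (b (a (a (a (c (l 143430020441817327) (l 143202902518268015)) (b (l 143357658814414959) (l 143371196553592943))) (l 143431051228971247)) (a (l 143521692235317487) (l 143613845070299375))) (a (a (a (a (b (l 143328796627992687) (a (l 143158372327325807) (l 143349893511200879)))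 (b (l 143352092535193711) (l 143365973871788143))) (c (l 143502450783502575) (l 143279249871110255))) (c (l 143564023446077679) (a (l 143326254001914095) (l 143373876608090351)))) (a (b (l 143541002411622639) (a (l 143531587798483183) (l 143576942704394479))) (c (l 143732729792364847) (l 143544507100004591))))))) (b (c (a (l 143731424122716463) (l 16774808)) (a (l 143572063614026031) (l 143778771835601199))) (a (b (a (l 143671363282600239) (l 143766058738188591)) (a (c (l 143805984767836463) (l 143631987009585455)) (c (l 143892571323924783) (l 143732523621990703)))) (b (a (l 143860754193645871) (l 143954281417572655)) (a (l 143906383934832943) (l 143998605488685359)))))), by decide +kernel⟩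

def k25_pm_102_a : ∃ t, chk3 f_pm_102_a t 20 62 3 = true :=
  ⟨(a (a (b (l 142743512715460783) (l 142790585566347439)) (b (l 142869819137359983) (a (l 142883631755542703) (l 142944792101142639)))) (b (a (l 142995575802740847) (l 16691024)) (a (l 143035020790349935) (l 143157066602791023)))), by decide +kernel⟩

def k26_pm_102_a : ∃ t, chk3 f_pm_102_a t 40 63 3 = true :=
  ⟨(b (b (a (a (l 142797251357098159) (l 142858205544743087)) (a (l 142918541256720559) (l 142977365139521647))) (a (a (l 142823570921930927) (c (l 142999080503083183) (l 142766190144454831))) (l 142970630629834863))) (c (a (b (a (l 142969531122335919) (l 143024850311708847)) (a (a (b (l 142976952827265199) (a (l 142984374532161711) (l 142997774832697519))) (b (l 143004234464788655) (l 143017222448267439))) (b (l 143043748171268271) (a (l 143043473293263023) (l 143069861577244847))))) (b (l 143105595711750255) (c (a (l 143159746671722671) (l 143212248361648367)) (b (l 143068418465775791) (a (l 143053231458648239) (l 143108962964586671)))))) (a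 (b (a (b (l 142723103024513199) (l 142736297166733487)) (b (l 142784400809476271) (l 142796495439741103))) (b (a (a (l 142734441740648623) (l 142764403438239919)) (l 142808796228468911)) (b (a (a (a (l 142736984361894063) (l 142751896491212975)) (l 142773818008371375)) (l 142818142079107247)) (a (a (a (c (l 142805360255926447) (a (b (l 142676167611924655) (l 142679534866956463)) (l 142685444743069871))) (c (l 142819585190297775) (l 142696646019874991))) (b (l 142778628372660399) (c (l 142842468780327087) (a (l 142713207416864943) (l 142728256974340271))))) (a (c (l 142869475539714223) (c (l 142779590444630191) (a (l 142711489428750511) (a (l 142723034303004847) (l 142730730885824687))))) (c (l 142898337725317295) (b (l 142778353492918447) (c (l 142811270129320111) (a (a (l 142740076736413871) (l 142747773319250095)) (b (l 142758699718066351) (a (l 142756363255447727) (l 142764128557777071)))))))))))) (b (a (l 142850852555800751) (l 142912150340305071)) (b (a (l 142868857062260911) (l 142929948688335023)) (a (b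 (l 142878134193438895) (a (c (l 142927406069383343) (b (l 142809208543707311) (c (l 142841644143689903) (b (l 142782133063991471) (c (l 142798419583467695) (a (l 142761104894427311) (l 142776841662906543))))))) (c (l 142956749291389103) (c (l 142870712487706799) (c (l 142827350483140783) (a (l 142790379396923567) (l 142806322323849391))))))) (a (b (l 142923763934429359) (c (l 142986298671841455) (a (a (l 142861366614753455) (l 142869200658038959)) (l 142881020410216623)))) (c (l 143013030553190575) (a (l 142893733494227119) (l 142909607717748911)))))))))), by decide +kernel⟩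

def k27_pm_102_a : ∃ t, chk3 f_pm_102_a t 41 63 3 = true :=
  ⟨(b (a (c (l 143181255869153391) (l 142972417331658927)) (b (l 143187715495690351) (l 143209224696283247))) (a (b (c (l 143215959211540591) (l 143005746284708015)) (c (a (c (l 143265368526930159) (l 143159334350258351)) (l 143268048584638703)) (b (a (l 142991933667737775) (l 143054743280959663)) (c (a (l 143058110516756655) (l 143118858566811823)) (a (a (l 142933453380583599) (l 142965476662624431)) (l 143013923902603439)))))) (a (b (l 143201321955541103) (c (l 143324123687878895) (c (l 143174452633501935) (l 143073297541202095)))) (b (l 143261863825490031) (c (l 143380611108028655) (c (l 143236575051776239) (l 143139268250861743))))))), by decide +kernel⟩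

def k28_pm_102_a : ∃ t, chk3 f_pm_102_a t 21 31 3 = true :=
  ⟨(b (a (b (l 143307012526145775) (a (l 143281173999763695) (l 143406724505862383))) (a (l 143515438736212207) (l 143640645644419375))) (a (a (b (l 143321374902108399) (c (a (l 143426034690130159) (l 143483484183003375)) (b (l 143262894613201135) (a (l 143252586690609391) (l 143317595327332591))))) (b (l 143445688457593071) (b (l 143476955826225391) (c (l 143581203296698607) (a (l 143382947561455855) (l 143448643392979183)))))) (b (a (l 143570826646782191) (l 143694315568005423)) (a (c (l 143685931797496111) (a (l 143504031300616431) (l 143569933290488047))) (c (l 143800349746315567) (l 143667171367158063)))))), by decide +kernel⟩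

def k29_pm_102_a : ∃ t, chk3 f_pm_102_a t 11 7 1 = true :=
  ⟨(b (b (a (l 16733536) (l 16758416)) (a (b (l 16746760) (a (l 16748480) (l 16764536))) (b (l 16772424) (a (l 16777576) (l 16787208))))) (a (b (a (b (l 16752744) (b (l 16757040) (l 16760272))) (b (l 16769152) (l 16774976))) (b (a (c (l 144030834925764975) (a (l 143762828894830895) (l 16755688))) (b (l 16779992) (c (l 16796712) (l 16771328)))) (a (b (c (l 144090139846050159) (a (l 143814712111956271) (l 143931878839648559))) (c (a (l 144088765457629551) (l 144176588963742063)) (a (c (l 143911950195818799) (l 143794096262725935)) (c (l 144020458268082543) (l 143917379025092911))))) (c (b (l 144263038077944175) (a (l 144261869848527215) (l 144344333234061679))) (c (a (l 144107388419490159) (l 144209986636562799)) (b (l 144061071472017711) (a (l 144037088373735727) (l 144152811991761263)))))))) (a (a (b (l 16804360) (b (b (l 16791184) (l 16794784)) (b (l 144322480421290351) (c (l 144423635522879855) (a (l 144269222809518447) (l 144320006510952815)))))) (b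 (l 16790016) (b (l 16799496) (b (l 144408311060939119) (c (b (l 16818592) (l 144505892749836655)) (c (l 144416351237996911) (a (l 144342683936555375) (l 144391612211560815)))))))) (b (b (l 16795336) (l 16800904)) (b (a (l 16805048) (l 16809712)) (b (c (l 144555508215136623) (a (l 16801928) (l 16807376))) (c (a (c (l 16829408) (l 144538946815263087)) (a (l 16827208) (l 16829080))) (b (a (l 16804920) (l 16810296)) (a (a (c (l 16809808) (l 144445831887880559)) (c (l 16812512) (b (l 16804112) (c (l 16807032) (l 144485276871344495))))) (c (a (l 16815000) (l 16817272)) (a (b (l 16806960) (l 16807968)) (l 16810000)))))))))))), by decide +kernel⟩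

def k30_pm_102_a : ∃ t, chk3 f_pm_102_a t 24 4 1 = true :=
  ⟨(b (a (b (a (b (l 16764240) (l 16767200)) (b (l 16738136) (l 16763576))) (a (l 16767760) (l 16767136))) (b (a (b (a (l 16733552) (c (l 16739328) (l 16752224))) (l 16758480)) (b (b (b (a (c (c (c (l 16738576) (l 16737240)) (l 16738944)) (a (l 16747648) (l 16745976))) (b (a (c (a (c (c (b (a (l 16735376) (b (l 86067036087) (l 16736320))) (l 16735704)) (l 74792750967)) (l 78013980727)) (c (c (b (b (l 3) (l 123111127991)) (a (l 80161456487) (l 120426776327))) (l 109689359639)) (l 107005010231))) (a (c (l 79624598791) (l 80161473255)) (c (l 105931272663) (l 104857534135)))) (l 3)) (a (c (a (l 16735928) (c (c (l 68887167239) (l 74792751575)) (l 76940239287))) (c (l 74792760407) (l 75329634759))) (a (c (c (a (b (l 119353030823) (l 79087715671)) (l 120963645863)) (l 106468139383)) (c (l 104857530759) (l 103783792087))) (l 3))))) (a (c (l 16734632) (l 16748312)) (c (a (l 16737000) (c (b (a (l 68887168199) (b (l 119353033271) (l 96804455879))) (l 65665943111))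 (b (a (l 16741416) (l 105394397591)) (l 16741912)))) (a (l 16745816) (b (a (l 75866503383) (b (l 113984337431) (l 93046372391))) (c (l 16743752) (l 72645279655))))))) (a (l 16738952) (a (l 16736352) (c (l 16738088) (l 16746360))))) (a (l 16753976) (l 16740256)))) (a (b (l 16762768) (l 16765568)) (b (l 16757680) (l 16761880))))) (a (l 16735304) (b (l 16766240) (l 16761808)))), by decide +kernel⟩

def k31_pm_102_a : ∃ t, chk3 f_pm_102_a t 50 8 1 = true :=
  ⟨(b (a (b (b (a (b (l 3) (b (l 3) (a (a (c (c (a (l 101636294231) (l 116668681559)) (l 104320655799)) (b (l 112373724519) (l 91435759543))) (l 3)) (l 3)))) (l 3)) (a (a (c (b (a (c (l 16737104) (l 16741920)) (b (c (l 105931261287) (l 103246913975)) (l 16737792))) (l 16742392)) (b (b (a (l 16743984) (l 101636306439)) (l 16744312)) (l 16745416))) (a (b (b (l 3) (c (b (l 113447453479) (l 84993297991)) (l 101099435319))) (c (l 16735704) (l 16744152))) (b (l 3) (b (c (b (l 111836846039) (l 84456427783)) (l 99488821879)) (c (l 16740464) (l 16743672)))))) (b (l 3) (a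 (b (l 3) (c (a (l 97878199543) (l 125795488615)) (a (l 98951950823) (l 124184882535)))) (l 3))))) (a (b (c (l 16739088) (l 16746736)) (l 16748896)) (b (b (a (b (c (a (l 16740480) (l 97341329303)) (l 82308952247)) (c (l 16740976) (l 16743864))) (b (c (l 125795487863) (l 124184881543)) (c (a (l 96804458567) (l 125258617703)) (l 106468142743)))) (a (l 16743888) (b (c (l 80161460423) (l 80161468103)) (l 16737256)))) (c (l 16744280) (l 16746208))))) (b (l 3) (a (b (a (b (l 3) (a (c (l 107541878439) (l 105931271447)) (l 125258609767))) (l 3)) (c (b (a (l 74792750887) (l 112373713159)) (a (l 16742352) (l 73719008311))) (b (a (l 74792758023) (l 110763108327)) (l 70497790231)))) (a (b (l 3) (b (l 3) (c (l 112373715671) (l 110763107751)))) (l 3))))) (a (b (a (l 16753216) (l 16749992)) (l 16756784)) (b (a (b (l 16745064) (l 16748096)) (b (b (a (l 71571524679) (b (l 124184877431) (l 94120101239))) (c (l 69424040167) (l 16742960))) (l 16744640))) (l 16750696)))), by decide +kernel⟩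

def k32_pm_102_a : ∃ t, chk3 f_pm_102_a t 51 8 1 = true :=
  ⟨(b (l 3) (a (b (b (a (b (l 3) (a (b (l 124184877015) (l 93583228919)) (l 3))) (l 3)) (a (b (a (l 16735936) (b (l 124184876583) (l 93583228807))) (l 68350298423)) (b (l 3) (a (l 111836845863) (l 3))))) (a (b (l 16744168) (l 16747120)) (b (b (a (l 16740712) (l 111836845383)) (l 16736120)) (l 16743656)))) (b (l 3) (b (a (b (l 3) (a (l 111836844855) (l 3))) (l 3)) (a (b (a (l 16740192) (l 112373715223)) (l 16740832)) (c (l 126869225079) (l 126332356023))))))), by decide +kernel⟩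

def k33_pm_102_a : ∃ t, chk3 f_pm_102_a t 25 9 1 = true :=
  ⟨(a (b (a (l 16762616) (b (l 16755792) (l 16759968))) (l 16764776)) (b (a (b (l 16749640) (l 16754736)) (b (a (l 16744584) (b (b (a (l 16739640) (l 112373709831)) (l 16740264)) (l 16742528))) (l 16748512))) (a (l 16760760) (b (l 16753640) (l 16757976))))), by decide +kernel⟩

def k34_pm_102_a : ∃ t, chk3 f_pm_102_a t 12 5 1 = true :=
  ⟨(a (b (a (l 16757184) (l 16782888)) (a (l 16731144) (l 16735472))) (b (a (b (l 16760808) (l 16744264)) (b (l 16763368) (l 16759880))) (b (a (l 16739600) (l 16744096)) (l 16739784)))), by decide +kernel⟩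

def k35_pm_102_a : ∃ t, chk3 f_pm_102_a t 13 4 1 = true :=
  ⟨(a (b (l 3) (a (b (a (b (a (a (b (l 123648001319) (l 16739816)) (b (l 3) (a (l 93583229719) (l 107541871671)))) (b (l 3) (b (l 3) (l 126869225239)))) (a (l 16743392) (b (a (l 16739192) (l 104320646663)) (l 16741296)))) (b (l 3) (a (a (b (l 129016707927) (l 16738552)) (b (l 3) (l 107541871815))) (b (l 3) (l 137069771239))))) (a (b (l 16747320) (l 16752512)) (b (a (l 16742128) (b (b (l 105931258887) (l 16737720)) (l 16739984))) (l 16746080)))) (b (l 3) (a (b (a (b (l 139754121815) (a (l 16737200) (l 111836838055))) (b (l 3) (l 142438474951))) (a (l 16740800) (b (a (l 16736504) (l 116668675783)) (l 16738616)))) (b (l 3) (a (b (l 144585957175) (c (l 111299966983) (l 112373707783))) (b (l 3) (l 147270310279)))))))) (l 3)), by decide +kernel⟩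

def k36_pm_102_a : ∃ t, chk3 f_pm_102_a t 26 5 1 = true :=
  ⟨(b (a (b (a (l 16758896) (b (l 16751368) (l 16755976))) (l 16762088)) (b (a (b (l 16744816) (l 16750240)) (b (a (l 16739448) (b (a (l 100025673943) (l 123111125591)) (l 16737232))) (l 16743560))) (b (a (l 16755000) (l 16749120)) (l 16756656)))) (b (a (l 16759016) (l 16761008)) (a (l 16744488) (l 16758000)))), by decide +kernel⟩

def k37_pm_102_a : ∃ t, chk3 f_pm_102_a t 27 10 1 = true :=
  ⟨(a (b (a (b (a (b (a (l 149954665095) (l 3)) (a (l 105394387543) (b (l 135996022023) (l 101636289527)))) (b (l 3) (l 156397112887))) (a (b (l 16736544) (l 16739616)) (b (a (l 109152475463) (b (l 138680375159) (l 107004990183))) (l 16735848)))) (b (l 3) (a (b (l 160155207831) (a (c (l 105394385383) (l 105394377143)) (c (l 124721733543) (l 123111116343)))) (b (l 3) (l 161228948247))))) (a (b (l 16742304) (a (l 16749632) (l 16746384))) (c (b (a (l 16738208) (b (a (l 104320642775) (l 123647990455)) (l 16735848))) (l 16743008)) (b (a (b (l 16733672) (l 16736560)) (b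 (a (l 113447439559) (l 130090436695)) (l 100025673111))) (l 16739088))))) (b (l 3) (a (b (a (b (l 3) (c (a (l 109152478423) (l 133311665639)) (a (b (l 132237920999) (l 16730936)) (b (l 3) (l 134922274855))))) (l 3)) (a (b (c (l 100562547287) (c (l 100562542375) (l 101099407623))) (l 16737080)) (b (a (b (c (l 122574248295) (a (l 123647983367) (l 141364724215))) (c (l 112373705303) (l 108078733031))) (b (l 3) (c (l 120426764055) (a (l 127406081623) (l 144585949015))))) (a (l 16734184) (b (c (l 111836834119) (a (l 16730384) (l 110763081655))) (l 16733056)))))) (b (l 3) (a (b (l 3) (a (b (c (a (l 111299958871) (l 147807179063)) (c (l 134922274295) (l 135996013159))) (c (l 111299962951) (c (l 111299958071) (l 112373694007)))) (a (b (l 3) (b (l 3) (c (l 112910574103) (l 110226209127)))) (l 3)))) (l 3)))))), by decide +kernel⟩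

def k38_pm_102_a : ∃ t, chk3 f_pm_102_a t 27 11 1 = true :=
  ⟨(a (b (a (b (l 16753208) (l 16757464)) (b (a (l 16748664) (l 16745360)) (l 16752432))) (l 16760288)) (b (a (b (a (l 16741824) (b (l 16736504) (l 16739736))) (a (l 16747792) (l 16744432))) (b (a (b (a (c (l 16735120) (l 16731936)) (b (c (a (l 16732608) (l 108615605127)) (c (l 110226215975) (l 115058048279))) (l 16732464))) (l 16735952)) (b (a (b (a (b (l 3) (c (l 110226216711) (l 108615595623))) (l 3)) (c (a (l 112910575047) (l 108078733671)) (a (l 113984312311) (b (l 135459143879) (l 112910569895))))) (b (l 3) (c (l 144049092455) (a (l 142438464711) (l 3))))) (a (c (l 16734568) (l 16731368)) (b (c (a (l 111836833175) (b (l 107541861367) (l 110226219975))) (a (l 112910570327) (b (l 141364723351) (l 110763086023)))) (c (l 16733368) (l 16730312)))))) (a (l 16740848) (b (l 16735424) (l 16738752))))) (a (b (l 16751784) (l 16756600)) (b (a (l 16747056) (l 16743640)) (l 16751312))))), by decide +kernel⟩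

def k39_pm_102_a : ∃ t, chk3 f_pm_102_a t 14 4 1 = true :=
  ⟨(l 3), by decide +kernel⟩

def k40_pm_102_a : ∃ t, chk3 f_pm_102_a t 28 10 1 = true :=
  ⟨(l 3), by decide +kernel⟩

def k41_pm_102_a : ∃ t, chk3 f_pm_102_a t 56 11 1 = true :=
  ⟨(a (b (b (a (b (l 3) (c (a (b (l 146196565127) (a (l 113984316759) (b (l 105931248119) (l 112910574151)))) (l 149417788583)) (a (b (l 147270301479) (a (l 115058053687) (b (l 145122819207) (l 112910569303)))) (l 149954654007)))) (l 3)) (a (b (c (a (l 16734016) (b (a (b (l 111299958615) (l 16731944)) (l 108615602999)) (l 16732808))) (a (l 16730848) (b (a (l 114521182583) (l 132774798967)) (l 16729792)))) (l 16734928)) (b (a (b (l 3) (c (a (b (l 109689345351) (l 16731672)) (l 107541860679)) (a (l 112910569671) (l 137069755287)))) (l 3)) (a (b (c (l 115058058823) (l 111299957591)) (l 16732856)) (b (c (a (b (l 108078732135) (l 113447445127)) (l 107004989303)) (a (l 110763081943) (l 141901593031))) (c (a (l 16732824) (l 113447445655)) (l 111299957639))))))) (b (a (l 16740000) (b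 (a (l 16735456) (l 16733504)) (l 16737936))) (a (l 16746488) (l 16743024)))) (b (b (l 3) (a (b (l 3) (a (b (l 3) (a (b (l 106468116295) (a (l 16730064) (l 112910574311))) (l 145659702359))) (l 3))) (l 3))) (b (a (b (a (b (c (a (l 16732584) (l 112373703863)) (l 113984312279)) (l 16732416)) (b (a (c (l 108615603031) (l 131164175767)) (l 149954658775)) (c (a (l 16732360) (l 112373703751)) (l 112373699495)))) (a (l 16735056) (l 16733112))) (b (a (b (l 3) (c (a (l 107541860807) (l 3)) (l 139217248663))) (l 3)) (a (b (c (a (l 16732144) (l 110226216919)) (l 111299957655)) (l 16732032)) (b (c (a (l 107004989527) (l 3)) (l 142438463335)) (c (a (l 111299962215) (l 109152474743)) (a (l 16729064) (l 109152469175))))))) (a (l 16739344) (b (a (l 16734720) (b (l 16731864) (l 16733664))) (l 16737320)))))), by decide +kernel⟩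

def k42_pm_102_a : ∃ t, chk3 f_pm_102_a t 57 11 1 = true :=
  ⟨(b (l 3) (a (b (a (b (l 3) (a (b (l 3) (c (l 145122823079) (l 145659688503))) (l 3))) (l 3)) (a (b (a (b (c (a (l 110226220679) (l 108078732583)) (a (l 111299957319) (l 107541856167))) (l 16731704)) (b (l 148344045623) (c (a (l 110226220855) (l 108078732311)) (a (l 109152474087) (l 132774788807))))) (a (l 16734440) (b (c (l 16733016) (l 16730072)) (l 16733408)))) (b (l 3) (a (b (c (a (l 111299962727) (l 107004990247)) (a (l 111299957543) (l 136532885015))) (c (l 107004996199) (l 16729992))) (b (l 3) (c (a (l 108078733751) (l 140290986599)) (l 128479832583))))))) (l 3))), by decide +kernel⟩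

def k43_pm_102_a : ∃ t, chk3 f_pm_102_a t 29 5 1 = true :=
  ⟨(l 3), by decide +kernel⟩

def k44_pm_102_a : ∃ t, chk3 f_pm_102_a t 15 2 1 = true :=
  ⟨(l 3), by decide +kernel⟩

def k45_pm_102_a : ∃ t, chk3 f_pm_102_a t 6 6 1 = true :=
  ⟨(a (a (b (b (l 16736680) (l 16740768)) (b (l 16747544) (l 16757864))) (b (b (l 16740688) (l 16808656)) (b (l 16753920) (l 16762808)))) (b (a (b (a (l 16742656) (l 16745640)) (l 16746064)) (a (b (a (l 16752856) (l 16759992)) (l 16789600)) (b (l 16760128) (b (l 16759632) (l 16751296))))) (b (a (a (l 16754176) (l 16751680)) (a (l 16750912) (l 16750944))) (a (a (l 16763176) (l 16762888)) (a (l 16781504) (l 16798768)))))), by decide +kernel⟩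

def k46_pm_102_a : ∃ t, chk3 f_pm_102_a t 6 7 1 = true :=
  ⟨(a (a (b (b (l 16772200) (a (l 16788576) (l 16792592))) (b (b (a (l 16803968) (a (l 16807384) (l 16808600))) (a (l 16808736) (a (l 16812784) (l 16814824)))) (b (a (a (l 16824064) (a (l 16816024) (l 16817456))) (a (l 16819288) (l 16821256))) (b (a (a (c (l 16827360) (l 16811840)) (c (l 16830144) (l 16815400))) (l 16825744)) (a (a (b (c (l 16830496) (l 16814688)) (c (l 16832672) (a (c (l 16819328) (l 16812288)) (l 16817616)))) (c (l 16834360) (l 16819144))) (a (l 16828672) (l 16830536))))))) (b (b (a (l 16776088) (l 16776728)) (a (l 16794192) (l 16794368))) (b (b (a (l 16809288) (l 16809152)) (a (l 16816936) (l 16818744))) (a (b (l 16823240) (a (l 16829968) (l 16830888))) (b (l 16824384) (b (l 16829560) (l 16833312))))))) (b (a (b (l 16775312) (a (l 16793240) (l 16791000))) (b (a (l 16772256) (l 16812848)) (a (l 16788000) (l 16784792)))) (a (b (b (l 16806984) (a (l 16860456) (b (l 16812904) (l 16817984)))) (a (b (l 16823904) (b (l 16828984) (l 16832656)))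 (b (l 16822000) (b (l 16826976) (a (l 16831256) (l 16829912)))))) (b (b (a (l 16801832) (l 16797848)) (a (b (l 16809408) (l 16814248)) (b (l 16804936) (l 16809232)))) (b (a (l 16818928) (b (a (l 16814672) (l 16813088)) (l 16816656))) (a (b (l 16823808) (a (l 16828288) (c (l 16832112) (l 16821648)))) (b (a (l 16820960) (l 16818880)) (a (c (l 16829984) (l 16819776)) (a (c (l 16828312) (l 16818320)) (c (l 16837712) (l 16817344))))))))))), by decide +kernel⟩

def k47_pm_102_a : ∃ t, chk3 f_pm_102_a t 14 12 1 = true :=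
  ⟨(a (a (b (a (b (l 16751008) (l 16756424)) (b (a (l 16746088) (l 16742568)) (l 16750888))) (a (l 16761608) (l 16759184))) (b (b (a (a (l 16738864) (b (a (l 16734208) (b (c (l 105931255015) (l 107004991863)) (l 16733192))) (l 16736888))) (a (b (a (b (c (l 115594925399) (l 131701047463)) (c (l 104857513415) (l 105394379527))) (b (l 3) (l 134922285975))) (a (l 16734040) (b (c (l 104320642791) (l 110226213431)) (l 16733056)))) (b (l 3) (a (b (l 138143500871) (c (l 103783767623) (l 115058052055))) (l 142975337319))))) (a (a (b (l 16744136) (l 16747584)) (l 16742328)) (a (l 16738648) (b (a (l 16733960) (b (l 113984312551) (l 16733000))) (l 16736768))))) (a (b (a (l 16752552) (l 16749408)) (l 16757232)) (b (a (b (l 16744152) (l 16747784)) (b (l 16740528) (l 16744288))) (a (l 16753016) (l 16749808)))))) (a (b (a (b (l 3) (a (b (a (b (l 151565273623) (l 121500505495)) (l 3)) (a (l 16733968) (b (l 125795473511) (l 16733056)))) (b (l 3) (b (l 3) (l 142975341047))))) (l 3)) (a (b (a (b (l 16736856) (l 16740696)) (b (a (l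 103246902647) (b (l 141364730231) (l 110226223575))) (l 16737048))) (a (b (l 16744496) (l 16748208)) (b (l 16740936) (l 16744744)))) (b (a (b (l 156933983303) (a (l 107005001111) (l 134385410743))) (l 167671398375)) (a (b (l 16737320) (l 16741216)) (b (a (l 118816166023) (l 143512216903)) (l 89288264967)))))) (b (l 3) (a (b (l 3) (a (b (l 3) (a (b (l 141364735527) (l 16735928)) (l 152639023143))) (l 3))) (l 3))))), by decide +kernel⟩

def k48_pm_102_a : ∃ t, chk3 f_pm_102_a t 14 13 1 = true :=
  ⟨(a (b (a (b (l 16759264) (l 16774416)) (a (l 16762824) (l 16760672))) (a (l 16756240) (b (a (l 16756304) (l 16762456)) (l 16758664)))) (a (b (a (b (a (l 16753560) (l 16750384)) (l 16758760)) (b (a (b (l 16745072) (l 16748880)) (b (l 16741576) (l 16745488))) (a (l 16754448) (b (l 16749336) (l 16753136))))) (b (a (l 16764080) (l 16760072)) (a (l 16762312) (l 16765944)))) (b (a (b (a (b (a (l 16738928) (l 104320651911)) (l 16742032)) (b (a (b (l 154786509191) (l 122037392279)) (l 161765829575)) (a (l 16739416) (b (l 131701069559)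 (l 16738672))))) (a (b (l 16745984) (l 16749880)) (b (l 16742568) (l 16746568)))) (b (a (b (l 3) (a (b (l 3) (l 135459161431)) (l 3))) (l 3)) (b (a (a (l 97341331639) (b (l 142975354807) (l 110226235079))) (a (l 154786513463) (l 3))) (a (l 16743200) (a (b (l 119353041911) (l 16741680)) (b (l 156397128935) (l 129553590455))))))) (a (b (a (l 16755736) (b (l 16750520) (l 16754480))) (l 16761840)) (b (a (b (l 16747232) (l 16751224)) (b (a (l 16744744) (l 16743080)) (l 16747968))) (a (b (l 16755296) (l 16759384)) (b (l 16762504) (l 16756216)))))))), by decide +kernel⟩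

def k49_pm_102_a : ∃ t, chk3 f_pm_102_a t 15 6 1 = true :=
  ⟨(a (b (l 3) (a (b (a (b (l 3) (a (b (l 3) (l 162839576759)) (l 3))) (l 3)) (a (b (a (b (a (b (l 133848555543) (l 16742440)) (b (l 3) (l 140827878183))) (a (l 16745504) (b (l 16742832) (l 16744888)))) (b (l 3) (a (b (l 147270329895) (c (l 114521210103) (l 112373724343))) (b (l 3) (l 153175910711))))) (a (b (l 16748784) (a (l 16753752) (l 16752104))) (b (a (l 16746344) (b (c (l 123648017367) (l 122037402615)) (l 16745752))) (l 16749704)))) (b (l 3) (b (a (a (b (l 158007749735) (a (l 117742436551) (l 144585980423))) (l 162839586583)) (l 3)) (a (a (b (l 16746216) (l 16748320)) (a (b (l 128479856487) (l 16747104)) (b (l 152102174071) (l 119353052615)))) (a (a (b (l 3) (a (l 132237953991) (l 140827887143))) (l 160155240343)) (l 3))))))) (l 3))) (l 3)), by decide +kernel⟩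

def k50_pm_102_a : ∃ t, chk3 f_pm_102_a t 14 7 1 = true :=
  ⟨(b (a (b (a (b (l 16763784) (l 16771560)) (b (l 16762504) (l 16810008))) (a (l 16781800) (b (l 16797584) (l 16783016)))) (b (a (b (a (l 16762688) (l 16763920)) (l 16767584)) (a (b (l 16768176) (b (l 16767136) (l 16769224))) (b (b (l 16762008) (l 16766112)) (b (l 16769632) (l 16768800))))) (a (b (a (l 16774520) (l 16794344)) (a (l 16781576) (b (l 16779160) (l 16781408)))) (b (a (l 16772528) (b (l 16769688) (l 16771360))) (a (b (l 16775960) (l 16779528)) (b (l 16773816) (l 16776176))))))) (a (b (a (b (l 16793984) (l 16844720)) (b (l 16832456) (a (l 16799480) (l 16797288)))) (b (a (b (a (l 16810696) (l 16849888)) (l 16833464)) (b (a (l 16826400) (l 16803448)) (a (l 16809528) (b (l 16807040) (l 16808408))))) (a (b (a (l 16816808) (l 16814840)) (b (a (l 16819496) (l 16817544)) (a (c (l 16826784) (l 16816776)) (c (l 16824704) (l 16814832))))) (b (a (l 16812848) (l 16810864)) (b (a (l 16815496) (l 16813456)) (a (c (l 16822504) (l 16812824)) (c (l 16820256)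 (l 16810872)))))))) (b (a (b (a (l 16787904) (l 16785712)) (a (l 16795056) (l 16792800))) (b (a (l 16783464) (b (l 16800968) (l 16782680))) (a (l 16790472) (l 16809024)))) (b (a (b (l 16821176) (a (b (l 16804632) (l 16806520)) (b (l 16802360) (l 16804808)))) (b (a (l 16796696) (l 16794192)) (b (l 16798824) (a (l 16802288) (l 16799728))))) (a (b (a (l 16808912) (l 16806928)) (c (a (l 16816960) (l 16814600)) (b (l 16806512) (a (l 16808992) (l 16807128))))) (b (a (l 16804864) (b (l 16823136) (l 16803448))) (a (c (l 16812112) (l 16804480)) (c (l 16809464) (l 16802520))))))))), by decide +kernel⟩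

def k51_pm_102_a : ∃ t, chk3 f_pm_102_a t 30 28 1 = true :=
  ⟨(a (a (b (a (b (l 16757256) (l 16761544)) (b (a (l 16754768) (l 16753120)) (l 16758360))) (l 16745312)) (b (a (b (a (l 16751528) (l 16749896)) (a (l 16755888) (l 16754248))) (b (a (b (a (l 16747600) (a (l 16746984) (l 131164213383))) (l 16749336)) (a (b (b (l 160692111127) (l 144585986743)) (l 16748104)) (b (l 3) (b (l 148344082855) (l 16747816))))) (a (l 16752632) (b (l 16749864) (l 16752080))))) (a (b (l 16738592) (l 16763856)) (b (b (l 16739408) (l 16757440)) (l 16760880))))) (a (b (a (b (a (b (l 3) (c (l 157470887351) (l 158007757239))) (l 3)) (a (b (c (a (l 133311701367) (l 145122859991)) (a (l 132774830375) (l 148344084535))) (l 16750400)) (b (l 161228984087) (c (a (l 142975379719) (l 154249666423)) (a (l 141901637031) (l 154249665559)))))) (l 3)) (a (a (b (l 16753808) (l 16758480)) (b (b (a (l 16751376) (l 139217285287)) (l 16753240)) (l 16756792))) (b (a (a (b (b (l 154786538487) (l 144049122887)) (l 16751928)) (b (l 159081505095) (b (l 149417832519)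 (l 16751616)))) (a (b (l 3) (b (l 159618377655) (c (l 152102187671) (l 151028450375)))) (l 3))) (a (b (c (l 16756640) (l 16745832)) (l 16756184)) (b (b (a (l 16751872) (l 153175929559)) (l 137606676871)) (l 16754336)))))) (b (l 3) (a (b (l 3) (b (a (b (l 3) (l 155860283655)) (l 3)) (b (a (c (l 149954706391) (l 149417834839)) (l 3)) (a (c (l 138680419655) (l 139754161479)) (l 156934026471))))) (l 3))))), by decide +kernel⟩

def k52_pm_102_a : ∃ t, chk3 f_pm_102_a t 30 29 1 = true :=
  ⟨(a (a (b (b (l 16770768) (a (l 16770080) (l 16769456))) (b (l 16771520) (l 16773960))) (b (l 16768584) (b (a (l 16770072) (l 16771536)) (a (l 16772016) (l 16771120))))) (a (b (a (b (l 16762184) (l 16766232)) (b (a (l 16759632) (l 16757832)) (a (l 16763936) (l 16762392)))) (a (b (l 16770048) (l 16770936)) (l 16769184))) (b (a (b (a (b (c (l 16755016) (l 16754752)) (l 16757200)) (a (b (b (l 146196611607) (l 16754080)) (l 16755832)) (b (b (l 158007769767) (l 147270353959)) (c (l 131701101495) (l 133311714263))))) (a (b (l 16759536)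 (l 16761816)) (b (l 16757720) (l 16760064)))) (b (b (l 3) (a (a (b (l 148880967207) (l 136532939127)) (b (l 3) (l 150491580471))) (l 3))) (a (b (a (l 16756376) (b (c (l 137606681495) (l 139754165143)) (l 16756072))) (l 16758264)) (a (b (b (l 153712806471) (c (l 138143552695) (l 139217294135))) (c (l 16757056) (l 16756864))) (b (l 156934031207) (b (c (l 141901649623) (l 142975391079)) (l 125795524903))))))) (a (b (a (l 16764960) (l 16763432)) (l 16768248)) (b (a (b (l 16760600) (l 16762864)) (b (c (l 16758952) (l 16758744)) (l 16761152))) (a (l 16766064) (b (l 16763408) (l 16765584)))))))), by decide +kernel⟩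

def k53_pm_102_a : ∃ t, chk3 f_pm_102_a t 31 14 1 = true :=
  ⟨(a (b (l 3) (a (b (a (b (l 3) (a (a (b (l 3) (b (l 3) (c (l 145122875623) (l 146196617095)))) (l 3)) (l 3))) (l 3)) (a (b (b (a (a (b (c (l 125795525511) (l 129016750919)) (l 16758088)) (b (l 148880974967) (c (l 127943009719) (l 132237977047)))) (c (l 154249681303) (a (l 152639070455) (l 3)))) (a (c (l 16759512) (l 16754088)) (a (b (c (l 131164235431) (l 133311718791)) (l 16758680)) (b (l 3) (c (l 135996074199) (l 137606689287)))))) (a (b (l 16761712) (l 16763960)) (b (b (c (l 111836886599) (l 83919591495)) (l 16760560)) (l 16757056)))) (b (l 3) (a (a (b (b (c (l 140291042055) (l 141901657143)) (c (l 117205595591) (l 87140818215))) (l 16755776)) (b (b (l 3) (c (l 144586009911) (l 146196622375))) (b (a (l 16759808) (l 132774852199)) (l 16760744)))) (a (b (l 3) (b (l 150491590327) (a (l 118279339079) (l 136532948679)))) (l 3)))))) (l 3))) (l 3)), by decide +kernel⟩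

def k54_pm_102_a : ∃ t, chk3 f_pm_102_a t 15 15 1 = true :=
  ⟨(a (b (a (b (a (b (l 16776528) (l 16812056)) (b (l 16774160) (a (l 16777872) (l 16776664)))) (a (b (l 16783640) (l 16787424)) (b (b (l 16801192) (l 16781952)) (l 16784680)))) (b (a (b (a (l 16772400) (b (l 16771264) (l 16771632))) (l 16774360)) (a (b (l 16771832) (b (l 16771616) (l 16773072))) (b (l 16769328) (b (l 16772104) (l 16772000))))) (a (a (b (l 16778488) (l 16782616)) (b (l 16777120) (b (l 16780000) (l 16781896)))) (b (a (l 16775440) (a (l 16774352) (l 16794552))) (a (b (l 16778176) (l 6)) (l 6)))))) (b (a (b (a (l 16791544) (l 16788720)) (a (l 16796008) (l 16793096))) (a (b (l 16806640) (l 6)) (l 6))) (a (b (a (b (a (l 16800168) (l 16798664)) (l 16801096)) (b (a (l 16797192) (l 6)) (l 6))) (a (c (l 16806616) (l 16800432)) (l 6))) (l 6)))) (b (a (b (a (a (b (a (b (l 16766160) (l 16768168)) (b (a (l 16754496) (l 16753640)) (l 16766752))) (l 16770480)) (b (a (b (l 16762888) (b (l 16754080) (l 6))) (b (a (c (l 16761720) (l 16758952)) (b (b (l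 140827916391) (l 6)) (l 6))) (l 6))) (l 6))) (l 6)) (l 6)) (l 6)) (l 6))), by decide +kernel⟩

theorem s55_pm_102_a : ∃ t, chk3 f_pm_102_a t 30 14 1 = true := ex3_b k51_pm_102_a k52_pm_102_a

theorem s56_pm_102_a : ∃ t, chk3 f_pm_102_a t 15 14 1 = true := ex3_a s55_pm_102_a k53_pm_102_a

theorem s57_pm_102_a : ∃ t, chk3 f_pm_102_a t 15 7 1 = true := ex3_b s56_pm_102_a k54_pm_102_a

theorem s58_pm_102_a : ∃ t, chk3 f_pm_102_a t 7 7 1 = true := ex3_a k50_pm_102_a s57_pm_102_a

theorem s59_pm_102_a : ∃ t, chk3 f_pm_102_a t 14 6 1 = true := ex3_b k47_pm_102_a k48_pm_102_a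

theorem s60_pm_102_a : ∃ t, chk3 f_pm_102_a t 7 6 1 = true := ex3_a s59_pm_102_a k49_pm_102_a

theorem s61_pm_102_a : ∃ t, chk3 f_pm_102_a t 7 3 1 = true := ex3_b s60_pm_102_a s58_pm_102_a

theorem s62_pm_102_a : ∃ t, chk3 f_pm_102_a t 6 3 1 = true := ex3_b k45_pm_102_a k46_pm_102_a

theorem s63_pm_102_a : ∃ t, chk3 f_pm_102_a t 3 3 1 = true := ex3_a s62_pm_102_a s61_pm_102_a

theorem s64_pm_102_a : ∃ t, chk3 f_pm_102_a t 28 11 1 = true := ex3_a k41_pm_102_a k42_pm_102_a

theorem s65_pm_102_a : ∃ t, chk3 f_pm_102_a t 28 5 1 = true := ex3_b k40_pm_102_a s64_pm_102_a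

theorem s66_pm_102_a : ∃ t, chk3 f_pm_102_a t 14 5 1 = true := ex3_a s65_pm_102_a k43_pm_102_a

theorem s67_pm_102_a : ∃ t, chk3 f_pm_102_a t 14 2 1 = true := ex3_b k39_pm_102_a s66_pm_102_a

theorem s68_pm_102_a : ∃ t, chk3 f_pm_102_a t 7 2 1 = true := ex3_a s67_pm_102_a k44_pm_102_a

theorem s69_pm_102_a : ∃ t, chk3 f_pm_102_a t 27 5 1 = true := ex3_b k37_pm_102_a k38_pm_102_a

theorem s70_pm_102_a : ∃ t, chk3 f_pm_102_a t 13 5 1 = true := ex3_a k36_pm_102_a s69_pm_102_a

theorem s71_pm_102_a : ∃ t, chk3 f_pm_102_a t 13 2 1 = true := ex3_b k35_pm_102_a s70_pm_102_a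

theorem s72_pm_102_a : ∃ t, chk3 f_pm_102_a t 25 8 1 = true := ex3_a k31_pm_102_a k32_pm_102_a

theorem s73_pm_102_a : ∃ t, chk3 f_pm_102_a t 25 4 1 = true := ex3_b s72_pm_102_a k33_pm_102_a

theorem s74_pm_102_a : ∃ t, chk3 f_pm_102_a t 12 4 1 = true := ex3_a k30_pm_102_a s73_pm_102_a

theorem s75_pm_102_a : ∃ t, chk3 f_pm_102_a t 12 2 1 = true := ex3_b s74_pm_102_a k34_pm_102_a

theorem s76_pm_102_a : ∃ t, chk3 f_pm_102_a t 6 2 1 = true := ex3_a s75_pm_102_a s71_pm_102_a

theorem s77_pm_102_a : ∃ t, chk3 f_pm_102_a t 3 2 1 = true := ex3_a s76_pm_102_a s68_pm_102_a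

theorem s78_pm_102_a : ∃ t, chk3 f_pm_102_a t 3 1 1 = true := ex3_b s77_pm_102_a s63_pm_102_a

theorem s79_pm_102_a : ∃ t, chk3 f_pm_102_a t 20 63 3 = true := ex3_a k26_pm_102_a k27_pm_102_a

theorem s80_pm_102_a : ∃ t, chk3 f_pm_102_a t 20 31 3 = true := ex3_b k25_pm_102_a s79_pm_102_a

theorem s81_pm_102_a : ∃ t, chk3 f_pm_102_a t 10 31 3 = true := ex3_a s80_pm_102_a k28_pm_102_a

theorem s82_pm_102_a : ∃ t, chk3 f_pm_102_a t 10 31 1 = true := ex3_c k24_pm_102_a s81_pm_102_a

theorem s83_pm_102_a : ∃ t, chk3 f_pm_102_a t 10 15 1 = true := ex3_b k23_pm_102_a s82_pm_102_a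

theorem s84_pm_102_a : ∃ t, chk3 f_pm_102_a t 10 7 1 = true := ex3_b k22_pm_102_a s83_pm_102_a

theorem s85_pm_102_a : ∃ t, chk3 f_pm_102_a t 5 7 1 = true := ex3_a s84_pm_102_a k29_pm_102_a

theorem s86_pm_102_a : ∃ t, chk3 f_pm_102_a t 5 3 1 = true := ex3_b k21_pm_102_a s85_pm_102_a

theorem s87_pm_102_a : ∃ t, chk3 f_pm_102_a t 19 15 1 = true := ex3_a k19_pm_102_a k20_pm_102_a

theorem s88_pm_102_a : ∃ t, chk3 f_pm_102_a t 18 63 1 = true := ex3_c k17_pm_102_a k18_pm_102_a

theorem s89_pm_102_a : ∃ t, chk3 f_pm_102_a t 18 31 1 = true := ex3_b k16_pm_102_a s88_pm_102_a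

theorem s90_pm_102_a : ∃ t, chk3 f_pm_102_a t 18 15 1 = true := ex3_b k15_pm_102_a s89_pm_102_a

theorem s91_pm_102_a : ∃ t, chk3 f_pm_102_a t 9 15 1 = true := ex3_a s90_pm_102_a s87_pm_102_a

theorem s92_pm_102_a : ∃ t, chk3 f_pm_102_a t 34 31 1 = true := ex3_b k12_pm_102_a k13_pm_102_a

theorem s93_pm_102_a : ∃ t, chk3 f_pm_102_a t 17 31 1 = true := ex3_a s92_pm_102_a k14_pm_102_a

theorem s94_pm_102_a : ∃ t, chk3 f_pm_102_a t 67 127 1 = true := ex3_a k10_pm_102_a k11_pm_102_a

theorem s95_pm_102_a : ∃ t, chk3 f_pm_102_a t 66 127 1 = true := ex3_a k8_pm_102_a k9_pm_102_a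

theorem s96_pm_102_a : ∃ t, chk3 f_pm_102_a t 33 127 1 = true := ex3_a s95_pm_102_a s94_pm_102_a

theorem s97_pm_102_a : ∃ t, chk3 f_pm_102_a t 32 127 1 = true := ex3_a k6_pm_102_a k7_pm_102_a

theorem s98_pm_102_a : ∃ t, chk3 f_pm_102_a t 16 127 1 = true := ex3_a s97_pm_102_a s96_pm_102_a

theorem s99_pm_102_a : ∃ t, chk3 f_pm_102_a t 16 63 1 = true := ex3_b k5_pm_102_a s98_pm_102_a

theorem s100_pm_102_a : ∃ t, chk3 f_pm_102_a t 16 31 1 = true := ex3_b k4_pm_102_a s99_pm_102_a

theorem s101_pm_102_a : ∃ t, chk3 f_pm_102_a t 8 31 1 = true := ex3_a s100_pm_102_a s93_pm_102_a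

theorem s102_pm_102_a : ∃ t, chk3 f_pm_102_a t 8 15 1 = true := ex3_b k3_pm_102_a s101_pm_102_a

theorem s103_pm_102_a : ∃ t, chk3 f_pm_102_a t 4 15 1 = true := ex3_a s102_pm_102_a s91_pm_102_a

theorem s104_pm_102_a : ∃ t, chk3 f_pm_102_a t 4 7 1 = true := ex3_b k2_pm_102_a s103_pm_102_a

theorem s105_pm_102_a : ∃ t, chk3 f_pm_102_a t 4 3 1 = true := ex3_b k1_pm_102_a s104_pm_102_a

theorem s106_pm_102_a : ∃ t, chk3 f_pm_102_a t 2 3 1 = true := ex3_a s105_pm_102_a s86_pm_102_a

theorem s107_pm_102_a : ∃ t, chk3 f_pm_102_a t 2 1 1 = true := ex3_b k0_pm_102_a s106_pm_102_a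

theorem s108_pm_102_a : ∃ t, chk3 f_pm_102_a t 1 1 1 = true := ex3_a s107_pm_102_a s78_pm_102_a

theorem c_pm_102_a : CertB 536870912 536870912 0 536870912 587336777 62277027 3 eng mog cd0q1 cd3q2a pd0 false true false .npp 1 0 2
    ndB0q1 ndB3q2a pcB0 cut_pm_102_a xt_pm_102_a :=
  certB0 (fam := false) (s1 := true) (s2 := false) (a := 1) (b := 0) (c := 2) (cn := .npp) (n1 := ndB0q1) (n2 := ndB3q2a) (pc := pcB0) (cut := cut_pm_102_a) (xt := xt_pm_102_a) (P1 := 536870912) (W1 := 536870912) (P2 := 0) (W2 := 536870912) (P3 := 587336777) (W3 := 62277027) (N0 := 3) (En := eng) (mo := mog) (C1 := cd0q1) (C2 := cd3q2a) (C3 := pd0)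
    rfl s108_pm_102_a

noncomputable def cut_pm_102_b : Cut := Cut.of [[⟨0, 1, 0, 67108864⟩, ⟨1, 0, 0, 67108864⟩, ⟨2, 1, 0, 67108864⟩], [⟨0, 0, 1, 20971520⟩, ⟨1, 1, 2, 20971520⟩, ⟨2, 1, 0, 29360128⟩]]

noncomputable def f_pm_102_b : ℕ → ℕ → ℕ → ℕ → Bool := onCell 536870912 536870912 0 536870912 587336777 62277027
    (rowB 3 eng mog cd0q1 cd3q2b pd0 1 false true false .npp 1 0 2 (qsf 536870912 536870912 1239849684 370763052 0) ndB0q1 ndB3q2b pcB0 cut_pm_102_b Ext.none)

def k0_pm_102_b : ∃ t, chk3 f_pm_102_b t 2 1 1 = true :=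
  ⟨(b (l 1) (b (l 1) (a (l 1) (b (a (l 1) (a (b (l 1) (a (l 1) (l 270079564695))) (b (b (l 1) (b (l 1) (a (l 1) (l 16773344)))) (a (l 115997699735) (b (a (l 16770376) (l 16763424)) (l 16759296)))))) (a (a (b (l 1) (l 335040936647)) (b (a (l 1) (l 297459991703)) (a (l 249141698919) (l 16746920)))) (a (b (a (l 205655148743) (l 16764408)) (l 16759976)) (b (a (l 16761176) (l 16748648)) (l 16744136)))))))), by decide +kernel⟩

def k1_pm_102_b : ∃ t, chk3 f_pm_102_b t 6 2 1 = true :=
  ⟨(l 1), by decide +kernel⟩

def k2_pm_102_b : ∃ t, chk3 f_pm_102_b t 6 6 1 = true :=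
  ⟨(a (a (a (l 1) (a (l 1) (a (l 1) (a (l 1) (l 3))))) (l 3)) (l 3)), by decide +kernel⟩

def k3_pm_102_b : ∃ t, chk3 f_pm_102_b t 6 14 1 = true :=
  ⟨(a (a (b (a (b (b (l 1) (a (l 1) (l 74121726279))) (a (l 16763232) (l 16753120))) (a (b (b (a (l 1) (b (l 1) (c (l 16746320) (l 16750608)))) (c (l 16751440) (a (l 16752736) (l 16747240)))) (b (l 16744688) (l 16740560))) (b (a (b (a (b (l 1) (c (l 16742448) (l 16746456))) (b (b (l 1) (c (a (l 56941804167) (c (l 57478668087) (l 16741472))) (l 62847387735))) (c (c (l 16738584) (l 16740992)) (l 16743680)))) (c (b (l 16739728) (l 16738176)) (l 16741704))) (a (b (b (b (a (b (l 1) (b (a (l 1) (l 3)) (c (c (c (a (l 69289824343) (l 162839578503)) (a (l 16738840) (l 191293737943))) (l 68887174743)) (c (l 75866503031) (l 75866506295))))) (l 3)) (c (a (c (c (c (l 63518459671) (l 57076008871)) (l 64055333319)) (l 61370981543)) (c (c (l 132774804215) (l 182166930983)) (l 176261354759))) (a (c (l 68887181591) (l 68887184439)) (l 167134555159)))) (c (c (a (l 16736656) (l 71571521047))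 (l 67813430807)) (c (l 72108404375) (b (l 71034663351) (l 16740912))))) (c (l 16734976) (l 16742760))) (b (b (l 3) (c (l 176798217415) (l 166060805959))) (b (c (l 83382679687) (l 84993297543)) (l 16732768))))) (b (a (l 16736608) (b (l 16732160) (l 16730168))) (l 16729864))))) (a (b (l 16749680) (l 16741864)) (b (a (l 16734448) (l 16723856)) (l 16721616)))) (a (a (b (b (b (l 3) (a (b (l 3) (l 168208270919)) (l 3))) (b (a (b (l 90898856743) (l 83919530439)) (l 3)) (a (l 16721704) (l 162839541127)))) (b (b (l 84993253847) (l 16711096)) (l 16705520))) (b (l 3) (b (b (l 171966318727) (l 111299896407)) (l 108078685831)))) (l 3))) (l 3)), by decide +kernel⟩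

def k4_pm_102_b : ∃ t, chk3 f_pm_102_b t 6 15 1 = true :=
  ⟨(a (a (b (a (b (l 16734800) (l 16728552)) (b (l 16714928) (l 16709160))) (a (l 16720888) (b (l 16704408) (l 16700472)))) (a (b (b (a (l 16698952) (l 16687896)) (l 16687952)) (b (l 16683504) (l 16680240))) (b (b (a (l 138680294695) (l 3)) (a (b (l 16672520) (l 16670008)) (l 169281876471))) (b (a (l 16667024) (l 112373588119)) (l 16679752))))) (a (b (l 3) (a (b (l 3) (l 190756667159)) (l 3))) (l 3))), by decide +kernel⟩

def k5_pm_102_b : ∃ t, chk3 f_pm_102_b t 7 1 1 = true :=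
  ⟨(l 3), by decide +kernel⟩

theorem s6_pm_102_b : ∃ t, chk3 f_pm_102_b t 6 7 1 = true := ex3_b k3_pm_102_b k4_pm_102_b

theorem s7_pm_102_b : ∃ t, chk3 f_pm_102_b t 6 3 1 = true := ex3_b k2_pm_102_b s6_pm_102_b

theorem s8_pm_102_b : ∃ t, chk3 f_pm_102_b t 6 1 1 = true := ex3_b k1_pm_102_b s7_pm_102_b

theorem s9_pm_102_b : ∃ t, chk3 f_pm_102_b t 3 1 1 = true := ex3_a s8_pm_102_b k5_pm_102_b

theorem s10_pm_102_b : ∃ t, chk3 f_pm_102_b t 1 1 1 = true := ex3_a k0_pm_102_b s9_pm_102_b

theorem c_pm_102_b : CertB 536870912 536870912 1239849684 370763052 587336777 62277027 3 eng mog cd0q1 cd3q2b pd0 false true false .npp 1 0 2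
    ndB0q1 ndB3q2b pcB0 cut_pm_102_b Ext.none :=
  certB1 (fam := false) (s1 := true) (s2 := false) (a := 1) (b := 0) (c := 2) (cn := .npp) (n1 := ndB0q1) (n2 := ndB3q2b) (pc := pcB0) (cut := cut_pm_102_b) (xt := Ext.none) (P1 := 536870912) (W1 := 536870912) (P2 := 1239849684) (W2 := 370763052) (P3 := 587336777) (W3 := 62277027) (N0 := 3) (En := eng) (mo := mog) (C1 := cd0q1) (C2 := cd3q2b) (C3 := pd0)
    rfl (fun _ => rfl) s10_pm_102_b

noncomputable def xt_pm_112_a : Ext := extD2 3 ⟨7, 3, 3, 10, 1815, 1000, 17, 20, 37, 100, 3, 16⟩ eng cd0q1 cd3q2a pd1 false true false .dn 1 1 2 rfl ndB0q1 ndB3q2a pcB1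

noncomputable def f_pm_112_a : ℕ → ℕ → ℕ → ℕ → Bool := onCell 536870912 536870912 0 536870912 587336777 62277027
    (rowB 3 eng mog cd0q1 cd3q2a pd1 0 false true false .dn 1 1 2 (qsf 536870912 536870912 0 536870912 1) ndB0q1 ndB3q2a pcB1 Cut.none xt_pm_112_a)

def k0_pm_112_a : ∃ t, chk3 f_pm_112_a t 2 2 1 = true :=
  ⟨(a (b (a (b (a (l 16609696) (l 16626032)) (l 16644328)) (b (a (l 16643632) (l 16662976)) (a (l 16604416) (l 16622680)))) (a (a (b (l 16535464) (l 16489824)) (l 16584352)) (b (l 16565720) (l 16549552)))) (a (a (b (b (l 16683368) (a (l 16637928) (l 16648504))) (b (l 16635280) (l 16531680))) (b (b (l 1) (l 1)) (l 1))) (l 1))), by decide +kernel⟩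

def k1_pm_112_a : ∃ t, chk3 f_pm_112_a t 2 3 1 = true :=
  ⟨(a (b (a (b (a (l 16435024) (l 16431976)) (a (b (l 16385776) (l 16348568)) (l 16345888))) (b (a (l 16433112) (l 16440288)) (a (l 16348504) (l 85932056823)))) (a (b (a (b (l 16321672) (l 16366880)) (b (l 16307792) (l 595826951277090398181423))) (b (a (a (b (l 16331512) (l 16334040)) (b (l 16323704) (l 25265651719))) (l 172905150759)) (a (b (c (a (l 594270507245871220415023) (l 180421287751)) (a (l 16333416) (l 189011215111))) (a (a (a (b (l 593990347320251761220143) (b (c (l 594152621022025186089519) (l 593894078374617082255919)) (b (c (l 116651299070045870899780143) (l 593909642814929275460143)) (a (b (c (c (l 594204790720108653894191) (l 594094686716418691045935)) (l 203693632670204496178174511)) (a (c (b (c (l 594189514510172614187567) (l 594079122276106499512879)) (b (c (l 594193837965814890109487) (l 594082581040620320234031)) (a (a (b (c (l 594177985295126546487855) (l 594067304830684280003119)) (a (c (c (c (c (l 561537161968414922450227759) (l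 595630089930178873086511)) (c (l 595690618309170731487791) (l 595739041012364217995823))) (c (c (l 595787751945933856182831) (l 595847992094549562823215)) (c (l 595896414797743049282095) (l 595945125731312687436335)))) (c (c (c (l 595993548434506173846063) (l 596042259368075811967535)) (c (l 596090682071269298360879) (l 596139393004838936449583))) (c (c (l 596187815708032422826543) (l 596236526641602060882479)) (c (l 596284949344795547210287) (l 596333660278365185249839))))) (l 1))) (l 1)) (l 1)))) (c (b (l 593940483465177516120623) (a (b (l 593932413014645268585007) (c (c (c (l 596397359191494712054319) (l 596445781894688198349359)) (c (l 596494204597881684628015) (l 596542627301075170890287))) (c (c (l 596591050004268657136175) (l 596639472707462143365679)) (l 16340744)))) (l 1))) (l 16337152))) (l 1))) (l 1))))) (b (l 594926807812368668547631) (a (b (l 3095444605646065755179162159) (l 1)) (l 1)))) (b (l 3018073740860585412040301103) (l 1))) (l 1))) (l 1)))) (b (b (a (l 16332152) (l 1)) (l 1)) (l 1)))) (b (l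 1) (l 1))), by decide +kernel⟩

def k2_pm_112_a : ∃ t, chk3 f_pm_112_a t 3 1 1 = true :=
  ⟨(l 1), by decide +kernel⟩

theorem s3_pm_112_a : ∃ t, chk3 f_pm_112_a t 2 1 1 = true := ex3_b k0_pm_112_a k1_pm_112_a

theorem s4_pm_112_a : ∃ t, chk3 f_pm_112_a t 1 1 1 = true := ex3_a s3_pm_112_a k2_pm_112_a

theorem c_pm_112_a : CertB 536870912 536870912 0 536870912 587336777 62277027 3 eng mog cd0q1 cd3q2a pd1 false true false .dn 1 1 2
    ndB0q1 ndB3q2a pcB1 Cut.none xt_pm_112_a :=
  certB0 (fam := false) (s1 := true) (s2 := false) (a := 1) (b := 1) (c := 2) (cn := .dn) (n1 := ndB0q1) (n2 := ndB3q2a) (pc := pcB1) (cut := Cut.none) (xt := xt_pm_112_a) (P1 := 536870912) (W1 := 536870912) (P2 := 0) (W2 := 536870912) (P3 := 587336777) (W3 := 62277027) (N0 := 3) (En := eng) (mo := mog) (C1 := cd0q1) (C2 := cd3q2a) (C3 := pd1)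
    rfl s4_pm_112_a

noncomputable def f_pm_112_b : ℕ → ℕ → ℕ → ℕ → Bool := onCell 536870912 536870912 536870912 536870912 587336777 62277027
    (rowB 3 eng mog cd0q1 cd3q2b pd1 1 false true false .dn 1 1 2 (qsf 536870912 536870912 1239849684 370763052 1) ndB0q1 ndB3q2b pcB1 Cut.none Ext.none)

def k0_pm_112_b : ∃ t, chk3 f_pm_112_b t 1 2 1 = true :=
  ⟨(a (a (b (a (b (l 1) (a (b (l 1) (l 271689914007)) (b (l 284574836679) (l 246993850423)))) (a (b (l 336114507367) (b (l 234108971703) (l 16668616))) (b (b (l 287259248583) (l 219076622695)) (l 16691984)))) (a (b (a (b (l 272763641463) (l 16623720)) (l 16644296)) (a (l 16609368) (l 16628776))) (b (l 16676368) (a (l 16652584) (l 16682040))))) (b (b (a (a (b (l 181495684727) (l 16711392)) (b (l 16749608) (l 16730776))) (a (l 16740616) (l 16737352))) (a (a (l 16713608) (l 16731088)) (a (l 16741976) (l 16745248)))) (a (b (a (l 16711840) (l 16735872)) (a (l 16715992) (l 16753696))) (b (a (l 16758448) (l 16777104)) (a (l 16794456) (l 16837104)))))) (a (b (b (a (b (a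 (l 16780072) (b (a (l 16689688) (l 16664512)) (l 16679616))) (a (l 16719496) (l 16727976))) (a (b (a (b (l 138680246055) (l 150491402839)) (l 3)) (a (l 16649480) (l 156933766311))) (l 3))) (a (a (l 16736168) (b (l 16700664) (l 16725456))) (a (b (a (l 16670168) (l 16646072)) (l 16692152)) (a (b (l 163376225367) (l 116668447015)) (l 3))))) (b (b (a (a (l 16771472) (l 16762616)) (a (a (l 16746120) (l 16730032)) (a (l 16710336) (b (l 154249559831) (l 320075624119))))) (a (l 16811520) (a (a (l 16805848) (l 16797848)) (l 254040513335)))) (a (a (l 16879520) (l 16915976)) (a (b (l 16834000) (l 2)) (l 2))))) (b (l 3) (a (b (b (l 3) (l 2)) (l 2)) (l 2))))), by decide +kernel⟩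

def k1_pm_112_b : ∃ t, chk3 f_pm_112_b t 1 3 1 = true :=
  ⟨(a (a (b (a (b (a (l 16579304) (l 16605360)) (b (a (l 16615136) (b (l 16589104) (l 16582800))) (a (l 16534816) (l 16574320)))) (b (a (b (l 16642720) (l 16636104)) (b (l 16680448) (l 16680880))) (b (a (b (l 16630928) (l 16628024)) (b (l 16682272) (l 16683920))) (a (l 16624848) (l 16687568))))) (a (b (a (b (l 16517136) (l 16498832)) (a (l 16564696) (l 16571504))) (a (b (l 16584752) (l 32312609143)) (a (l 23185816775) (l 16206455735)))) (b (a (a (l 16602584) (l 16637200)) (a (l 16675624) (l 16718176))) (a (c (l 2247799959) (l 11374544407)) (l 2))))) (b (a (b (a (b (l 16725344) (l 16734696)) (l 16786512)) (a (b (l 16746696) (l 16762040)) (b (l 16821152) (l 16831904)))) (b (a (l 16851624) (l 21038812855)) (a (b (l 16883904) (l 2)) (l 2)))) (a (b (a (b (a (l 16757344) (l 2)) (l 2)) (l 2)) (l 2)) (l 2)))) (b (a (b (a (a (l 16925488) (l 2)) (l 2)) (l 2)) (l 2)) (l 2))), by decide +kernel⟩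

theorem s2_pm_112_b : ∃ t, chk3 f_pm_112_b t 1 1 1 = true := ex3_b k0_pm_112_b k1_pm_112_b

theorem c_pm_112_b : CertB 536870912 536870912 1239849684 370763052 587336777 62277027 3 eng mog cd0q1 cd3q2b pd1 false true false .dn 1 1 2
    ndB0q1 ndB3q2b pcB1 Cut.none Ext.none :=
  certB1 (fam := false) (s1 := true) (s2 := false) (a := 1) (b := 1) (c := 2) (cn := .dn) (n1 := ndB0q1) (n2 := ndB3q2b) (pc := pcB1) (cut := Cut.none) (xt := Ext.none) (P1 := 536870912) (W1 := 536870912) (P2 := 1239849684) (W2 := 370763052) (P3 := 587336777) (W3 := 62277027) (N0 := 3) (En := eng) (mo := mog) (C1 := cd0q1) (C2 := cd3q2b) (C3 := pd1)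
    rfl (fun _ => rfl) s2_pm_112_b

noncomputable def cut_pm_113 : Cut := Cut.of [[⟨0, 1, 0, 67108864⟩, ⟨1, 1, 0, 67108864⟩, ⟨2, 2, 0, 16777216⟩]]

noncomputable def xt_pm_113 : Ext := extD2 3 ⟨7, 3, 3, 10, 1815, 1000, 17, 20, 37, 100, 3, 16⟩ eng cd0q1 cd3q3 pd1 false true false .nn 1 1 3 rfl ndB0q1 ndB3q3 pcB1

noncomputable def f_pm_113 : ℕ → ℕ → ℕ → ℕ → Bool := onCell 536870912 536870912 536870912 536870912 587336777 62277027
    (rowB 3 eng mog cd0q1 cd3q3 pd1 1 false true false .nn 1 1 3 (qsf 536870912 536870912 1610612736 536870912 1) ndB0q1 ndB3q3 pcB1 cut_pm_113 xt_pm_113)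

def k0_pm_113 : ∃ t, chk3 f_pm_113 t 1 2 1 = true :=
  ⟨(a (a (l 1) (b (l 1) (a (l 1) (b (l 1) (a (l 1) (l 16829344)))))) (a (b (a (l 1) (a (l 1) (a (l 1) (l 3)))) (b (a (b (l 1) (l 16826480)) (a (b (l 115460748647) (l 16843288)) (b (a (l 16763000) (l 235317184087)) (a (l 16839344) (b (l 16736304) (l 16824296)))))) (a (a (l 16880584) (l 16932104)) (b (a (l 16925472) (l 16818648)) (a (l 17023008) (l 16894152)))))) (b (l 3) (a (a (b (a (b (l 3) (l 239075355223)) (l 3)) (b (a (a (l 257865774855) (l 4625350185989379887220359455)) (l 250886554327)) (a (l 16875240) (b (l 248739117639) (l 260550298903))))) (l 3)) (l 3))))), by decide +kernel⟩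

def k1_pm_113 : ∃ t, chk3 f_pm_113 t 2 3 1 = true :=
  ⟨(a (b (a (l 1) (b (l 1) (b (l 1) (a (l 1) (l 87006491735))))) (a (b (a (l 1) (l 108481177479)) (a (l 31171594327) (l 16507992))) (a (b (l 49425397047) (l 16531616)) (b (l 54794127591) (l 16602152))))) (b (a (b (a (l 1) (l 16758448)) (a (b (l 16705920) (l 16707544)) (b (l 16773752) (l 16760368)))) (b (a (l 16821072) (l 16886384)) (a (b (l 16814136) (l 16793904)) (l 16836016)))) (a (b (a (b (l 16701560) (l 16684320)) (l 16670960)) (a (b (l 16666424) (l 16648560)) (b (l 16708376) (l 16691008)))) (a (b (l 16765576) (l 16730832)) (b (l 16793608) (l 16756336)))))), by decide +kernel⟩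

def k2_pm_113 : ∃ t, chk3 f_pm_113 t 3 3 1 = true :=
  ⟨(b (a (b (a (a (l 16932048) (l 16989744)) (a (l 17056088) (b (l 16984784) (l 17029880)))) (a (a (l 16872856) (l 16913176)) (a (l 16955744) (l 16998824)))) (a (b (a (b (a (l 16923440) (l 155860334327)) (a (l 16967416) (l 16929096))) (b (a (l 335175404359) (l 3)) (a (b (l 16886160) (l 16905264)) (l 256792256551)))) (a (b (l 16966824) (l 17007808)) (b (b (l 154249735735) (l 113447573015)) (a (l 16961792) (b (l 16923432) (l 16934376)))))) (b (l 3) (a (a (b (l 242833626983) (b (l 219748261591) (l 220285070263))) (l 3)) (l 3))))) (a (a (b (a (l 16823952) (l 16855768)) (a (l 16782720) (l 16808744))) (b (a (l 16885160) (l 16910880)) (a (l 16830952) (l 16847104)))) (b (b (a (a (l 16953592) (a (l 16964880) (l 16944664))) (a (a (b (l 16933432) (l 16916288)) (b (l 233706835751) (a (l 16895728) (l 249812985287)))) (l 3))) (a (a (l 16909296) (a (l 16914904) (l 16915304))) (a (a (l 16912488) (b (l 299205101063) (l 16885352))) (a (b (l 3) (l 320679869079)) (l 3))))) (b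 (b (a (a (l 16880584) (l 16882416)) (a (l 16833008) (a (a (l 16859096) (l 322290442775)) (l 3)))) (a (l 16864496) (a (l 16853552) (b (a (a (l 16849096) (l 290078155895)) (l 3)) (a (l 16815320) (a (l 345912728615) (l 3))))))) (a (l 16838848) (a (a (l 16826816) (l 16819784)) (a (b (l 16820824) (l 16801216)) (a (b (a (a (l 16815752) (l 16835608)) (b (l 327122211111) (l 213305549559))) (a (l 16795304) (l 16813920))) (b (b (l 3) (b (l 3) (l 383493636983))) (a (b (a (l 16810568) (b (l 340543956135) (l 222432342679))) (l 16793552)) (b (a (b (l 3) (l 382419880647)) (l 3)) (l 6)))))))))))), by decide +kernel⟩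

theorem s3_pm_113 : ∃ t, chk3 f_pm_113 t 1 3 1 = true := ex3_a k1_pm_113 k2_pm_113

theorem s4_pm_113 : ∃ t, chk3 f_pm_113 t 1 1 1 = true := ex3_b k0_pm_113 s3_pm_113

theorem c_pm_113 : CertB 536870912 536870912 1610612736 536870912 587336777 62277027 3 eng mog cd0q1 cd3q3 pd1 false true false .nn 1 1 3
    ndB0q1 ndB3q3 pcB1 cut_pm_113 xt_pm_113 :=
  certB1 (fam := false) (s1 := true) (s2 := false) (a := 1) (b := 1) (c := 3) (cn := .nn) (n1 := ndB0q1) (n2 := ndB3q3) (pc := pcB1) (cut := cut_pm_113) (xt := xt_pm_113) (P1 := 536870912) (W1 := 536870912) (P2 := 1610612736) (W2 := 536870912) (P3 := 587336777) (W3 := 62277027) (N0 := 3) (En := eng) (mo := mog) (C1 := cd0q1) (C2 := cd3q3) (C3 := pd1)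
    rfl (fun _ => rfl) s4_pm_113

noncomputable def cut_pm_123 : Cut := Cut.of [[⟨0, 1, 0, 67108864⟩, ⟨1, 1, 0, 67108864⟩, ⟨2, 2, 0, 16777216⟩]]

noncomputable def f_pm_123 : ℕ → ℕ → ℕ → ℕ → Bool := onCell 536870912 536870912 1073741824 536870912 587336777 62277027
    (rowB 3 eng mog cd0q1 cd3q3 pd2 1 false true false .npn 1 2 3 (qsf 536870912 536870912 1610612736 536870912 2) ndB0q1 ndB3q3 pcB2 cut_pm_123 Ext.none)

def k0_pm_123 : ∃ t, chk3 f_pm_123 t 1 1 1 = true :=
  ⟨(a (b (a (b (a (b (a (b (l 16377688) (l 16380488)) (l 16436800)) (l 16422824)) (b (b (l 16540304) (l 16540096)) (l 16541528))) (a (b (l 16456680) (l 16508080)) (b (l 16547800) (l 16577568)))) (b (a (b (a (l 16616008) (l 16651784)) (l 16614352)) (b (a (l 16678848) (l 16701808)) (l 16655784))) (a (b (l 16602848) (l 16620464)) (b (l 16634344) (l 16648632))))) (a (b (a (b (l 16559480) (l 16608200)) (b (l 16613032) (l 16650976))) (a (l 16684600) (l 16718600))) (b (a (b (l 16649400) (l 16683336)) (b (l 16676624) (l 16709176))) (a (b (l 16724464) (l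 2)) (l 2))))) (b (a (b (b (a (l 16736712) (l 16772760)) (a (l 16689432) (l 16719128))) (b (a (b (b (l 16668832) (a (l 16655056) (l 16671152))) (l 16661064)) (b (b (l 16701272) (l 16698944)) (l 16695312))) (a (l 16677008) (l 358730829735)))) (b (b (a (c (l 16793984) (l 16775368)) (a (b (l 16787232) (l 16759728)) (a (b (l 16776656) (l 816681424919)) (b (b (a (l 16777176) (b (l 6) (l 912781194999))) (l 912781176279)) (l 2))))) (a (a (l 16732552) (l 16748464)) (a (l 841914655255) (l 2)))) (a (b (b (b (l 16824648) (l 2)) (l 2)) (l 2)) (l 2)))) (a (b (a (b (l 16766904) (l 2)) (l 2)) (l 2)) (l 2)))), by decide +kernel⟩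

theorem c_pm_123 : CertB 536870912 536870912 1610612736 536870912 587336777 62277027 3 eng mog cd0q1 cd3q3 pd2 false true false .npn 1 2 3
    ndB0q1 ndB3q3 pcB2 cut_pm_123 Ext.none :=
  certB1 (fam := false) (s1 := true) (s2 := false) (a := 1) (b := 2) (c := 3) (cn := .npn) (n1 := ndB0q1) (n2 := ndB3q3) (pc := pcB2) (cut := cut_pm_123) (xt := Ext.none) (P1 := 536870912) (W1 := 536870912) (P2 := 1610612736) (W2 := 536870912) (P3 := 587336777) (W3 := 62277027) (N0 := 3) (En := eng) (mo := mog) (C1 := cd0q1) (C2 := cd3q3) (C3 := pd2)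
    rfl (fun _ => rfl) k0_pm_123

noncomputable def f_pm_133 : ℕ → ℕ → ℕ → ℕ → Bool := onCell 536870912 536870912 1610612736 536870912 587336777 62277027
    (rowB 3 eng mog cd0q1 cd3q3 pd3 0 false true false .dn 1 3 3 (qsf 536870912 536870912 1610612736 536870912 3) ndB0q1 ndB3q3 pcB3 Cut.none Ext.none)

def k0_pm_133 : ∃ t, chk3 f_pm_133 t 1 1 1 = true :=
  ⟨(a (b (l 1) (a (b (l 1) (a (b (l 1) (l 16732520)) (l 1))) (l 1))) (l 1)), by decide +kernel⟩

theorem c_pm_133 : CertB 536870912 536870912 1610612736 536870912 587336777 62277027 3 eng mog cd0q1 cd3q3 pd3 false true false .dn 1 3 3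
    ndB0q1 ndB3q3 pcB3 Cut.none Ext.none :=
  certB0 (fam := false) (s1 := true) (s2 := false) (a := 1) (b := 3) (c := 3) (cn := .dn) (n1 := ndB0q1) (n2 := ndB3q3) (pc := pcB3) (cut := Cut.none) (xt := Ext.none) (P1 := 536870912) (W1 := 536870912) (P2 := 1610612736) (W2 := 536870912) (P3 := 587336777) (W3 := 62277027) (N0 := 3) (En := eng) (mo := mog) (C1 := cd0q1) (C2 := cd3q3) (C3 := pd3)
    rfl k0_pm_133

noncomputable def cut_pm_202_a : Cut := Cut.of [[⟨0, 1, 0, 67108864⟩, ⟨1, 0, 0, 67108864⟩, ⟨2, 1, 0, 67108864⟩]]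

noncomputable def f_pm_202_a : ℕ → ℕ → ℕ → ℕ → Bool := onCell 0 536870912 0 536870912 587336777 62277027
    (rowB 3 eng mog cd0q2 cd3q2a pd0 0 false true false .pp 2 0 2 (qsf 0 536870912 0 536870912 0) ndB0q2 ndB3q2a pcB0 cut_pm_202_a Ext.none)

def k0_pm_202_a : ∃ t, chk3 f_pm_202_a t 1 1 1 = true :=
  ⟨(a (l 3) (b (l 3) (a (l 3) (b (l 3) (b (l 3) (a (l 3) (l 6))))))), by decide +kernel⟩

theorem c_pm_202_a : CertB 0 536870912 0 536870912 587336777 62277027 3 eng mog cd0q2 cd3q2a pd0 false true false .pp 2 0 2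
    ndB0q2 ndB3q2a pcB0 cut_pm_202_a Ext.none :=
  certB0 (fam := false) (s1 := true) (s2 := false) (a := 2) (b := 0) (c := 2) (cn := .pp) (n1 := ndB0q2) (n2 := ndB3q2a) (pc := pcB0) (cut := cut_pm_202_a) (xt := Ext.none) (P1 := 0) (W1 := 536870912) (P2 := 0) (W2 := 536870912) (P3 := 587336777) (W3 := 62277027) (N0 := 3) (En := eng) (mo := mog) (C1 := cd0q2) (C2 := cd3q2a) (C3 := pd0)
    rfl k0_pm_202_a

noncomputable def cut_pm_202_b : Cut := Cut.of [[⟨0, 1, 0, 67108864⟩, ⟨1, 0, 0, 67108864⟩, ⟨2, 1, 0, 67108864⟩]]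

noncomputable def f_pm_202_b : ℕ → ℕ → ℕ → ℕ → Bool := onCell 0 536870912 1239849684 370763052 587336777 62277027
    (rowB 3 eng mog cd0q2 cd3q2b pd0 0 false true false .pp 2 0 2 (qsf 0 536870912 1239849684 370763052 0) ndB0q2 ndB3q2b pcB0 cut_pm_202_b Ext.none)

def k0_pm_202_b : ∃ t, chk3 f_pm_202_b t 1 1 1 = true :=
  ⟨(l 3), by decide +kernel⟩

theorem c_pm_202_b : CertB 0 536870912 1239849684 370763052 587336777 62277027 3 eng mog cd0q2 cd3q2b pd0 false true false .pp 2 0 2
    ndB0q2 ndB3q2b pcB0 cut_pm_202_b Ext.none :=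
  certB0 (fam := false) (s1 := true) (s2 := false) (a := 2) (b := 0) (c := 2) (cn := .pp) (n1 := ndB0q2) (n2 := ndB3q2b) (pc := pcB0) (cut := cut_pm_202_b) (xt := Ext.none) (P1 := 0) (W1 := 536870912) (P2 := 1239849684) (W2 := 370763052) (P3 := 587336777) (W3 := 62277027) (N0 := 3) (En := eng) (mo := mog) (C1 := cd0q2) (C2 := cd3q2b) (C3 := pd0)
    rfl k0_pm_202_b

noncomputable def f_pm_203 : ℕ → ℕ → ℕ → ℕ → Bool := onCell 0 536870912 0 536870912 587336777 62277027
    (rowB 3 eng mog cd0q2 cd3q3 pd0 1 false true false .up 2 0 3 (qsf 0 536870912 1610612736 536870912 0) ndB0q2 ndB3q3 pcB0 Cut.none Ext.none)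

def k0_pm_203 : ∃ t, chk3 f_pm_203 t 1 1 1 = true :=
  ⟨(l 3), by decide +kernel⟩

theorem c_pm_203 : CertB 0 536870912 1610612736 536870912 587336777 62277027 3 eng mog cd0q2 cd3q3 pd0 false true false .up 2 0 3
    ndB0q2 ndB3q3 pcB0 Cut.none Ext.none :=
  certB1 (fam := false) (s1 := true) (s2 := false) (a := 2) (b := 0) (c := 3) (cn := .up) (n1 := ndB0q2) (n2 := ndB3q3) (pc := pcB0) (cut := Cut.none) (xt := Ext.none) (P1 := 0) (W1 := 536870912) (P2 := 1610612736) (W2 := 536870912) (P3 := 587336777) (W3 := 62277027) (N0 := 3) (En := eng) (mo := mog) (C1 := cd0q2) (C2 := cd3q3) (C3 := pd0)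
    rfl (fun _ => rfl) k0_pm_203

noncomputable def cut_pm_213 : Cut := Cut.of [[⟨0, 1, 0, 67108864⟩, ⟨1, 1, 0, 67108864⟩, ⟨2, 2, 0, 16777216⟩]]

noncomputable def f_pm_213 : ℕ → ℕ → ℕ → ℕ → Bool := onCell 0 536870912 1610612736 536870912 587336777 62277027
    (rowB 3 eng mog cd0q2 cd3q3 pd1 0 false true false .pnn 2 1 3 (qsf 0 536870912 1610612736 536870912 1) ndB0q2 ndB3q3 pcB1 cut_pm_213 Ext.none)

def k0_pm_213 : ∃ t, chk3 f_pm_213 t 1 1 1 = true :=
  ⟨(b (l 3) (a (l 3) (b (l 3) (a (l 3) (b (l 3) (b (l 3) (b (l 3) (b (l 3) (a (l 3) (l 6)))))))))), by decide +kernel⟩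

theorem c_pm_213 : CertB 0 536870912 1610612736 536870912 587336777 62277027 3 eng mog cd0q2 cd3q3 pd1 false true false .pnn 2 1 3
    ndB0q2 ndB3q3 pcB1 cut_pm_213 Ext.none :=
  certB0 (fam := false) (s1 := true) (s2 := false) (a := 2) (b := 1) (c := 3) (cn := .pnn) (n1 := ndB0q2) (n2 := ndB3q3) (pc := pcB1) (cut := cut_pm_213) (xt := Ext.none) (P1 := 0) (W1 := 536870912) (P2 := 1610612736) (W2 := 536870912) (P3 := 587336777) (W3 := 62277027) (N0 := 3) (En := eng) (mo := mog) (C1 := cd0q2) (C2 := cd3q3) (C3 := pd1)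
    rfl k0_pm_213

noncomputable def f_mm_001 : ℕ → ℕ → ℕ → ℕ → Bool := onCell 0 536870912 536870912 536870912 587336777 62277027
    (rowB 3 eng mog cd0q0 cd3q1 pd0 0 false false false .up 0 0 1 (qsf 0 536870912 536870912 536870912 0) ndB0q0 ndB3q1 pcB0 Cut.none Ext.none)

def k0_mm_001 : ∃ t, chk3 f_mm_001 t 1 1 1 = true :=
  ⟨(l 3), by decide +kernel⟩

theorem c_mm_001 : CertB 0 536870912 536870912 536870912 587336777 62277027 3 eng mog cd0q0 cd3q1 pd0 false false false .up 0 0 1
    ndB0q0 ndB3q1 pcB0 Cut.none Ext.none :=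
  certB0 (fam := false) (s1 := false) (s2 := false) (a := 0) (b := 0) (c := 1) (cn := .up) (n1 := ndB0q0) (n2 := ndB3q1) (pc := pcB0) (cut := Cut.none) (xt := Ext.none) (P1 := 0) (W1 := 536870912) (P2 := 536870912) (W2 := 536870912) (P3 := 587336777) (W3 := 62277027) (N0 := 3) (En := eng) (mo := mog) (C1 := cd0q0) (C2 := cd3q1) (C3 := pd0)
    rfl k0_mm_001

noncomputable def f_mm_011 : ℕ → ℕ → ℕ → ℕ → Bool := onCell 0 536870912 536870912 536870912 587336777 62277027
    (rowB 3 eng mog cd0q0 cd3q1 pd1 0 false false false .pnn 0 1 1 (qsf 0 536870912 536870912 536870912 1) ndB0q0 ndB3q1 pcB1 Cut.none Ext.none)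

def k0_mm_011 : ∃ t, chk3 f_mm_011 t 1 1 1 = true :=
  ⟨(l 3), by decide +kernel⟩

theorem c_mm_011 : CertB 0 536870912 536870912 536870912 587336777 62277027 3 eng mog cd0q0 cd3q1 pd1 false false false .pnn 0 1 1
    ndB0q0 ndB3q1 pcB1 Cut.none Ext.none :=
  certB0 (fam := false) (s1 := false) (s2 := false) (a := 0) (b := 1) (c := 1) (cn := .pnn) (n1 := ndB0q0) (n2 := ndB3q1) (pc := pcB1) (cut := Cut.none) (xt := Ext.none) (P1 := 0) (W1 := 536870912) (P2 := 536870912) (W2 := 536870912) (P3 := 587336777) (W3 := 62277027) (N0 := 3) (En := eng) (mo := mog) (C1 := cd0q0) (C2 := cd3q1) (C3 := pd1)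
    rfl k0_mm_011

noncomputable def f_mm_012_a : ℕ → ℕ → ℕ → ℕ → Bool := onCell 0 536870912 0 536870912 587336777 62277027
    (rowB 3 eng mog cd0q0 cd3q2a pd1 0 false false false .pnp 0 1 2 (qsf 0 536870912 0 536870912 1) ndB0q0 ndB3q2a pcB1 Cut.none Ext.none)

def k0_mm_012_a : ∃ t, chk3 f_mm_012_a t 1 1 1 = true :=
  ⟨(l 5), by decide +kernel⟩

theorem c_mm_012_a : CertB 0 536870912 0 536870912 587336777 62277027 3 eng mog cd0q0 cd3q2a pd1 false false false .pnp 0 1 2
    ndB0q0 ndB3q2a pcB1 Cut.none Ext.none :=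
  certB0 (fam := false) (s1 := false) (s2 := false) (a := 0) (b := 1) (c := 2) (cn := .pnp) (n1 := ndB0q0) (n2 := ndB3q2a) (pc := pcB1) (cut := Cut.none) (xt := Ext.none) (P1 := 0) (W1 := 536870912) (P2 := 0) (W2 := 536870912) (P3 := 587336777) (W3 := 62277027) (N0 := 3) (En := eng) (mo := mog) (C1 := cd0q0) (C2 := cd3q2a) (C3 := pd1)
    rfl k0_mm_012_a

noncomputable def f_mm_012_b : ℕ → ℕ → ℕ → ℕ → Bool := onCell 0 536870912 1239849684 370763052 587336777 62277027
    (rowB 3 eng mog cd0q0 cd3q2b pd1 0 false false false .pnp 0 1 2 (qsf 0 536870912 1239849684 370763052 1) ndB0q0 ndB3q2b pcB1 Cut.none Ext.none)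

def k0_mm_012_b : ∃ t, chk3 f_mm_012_b t 1 1 1 = true :=
  ⟨(l 5), by decide +kernel⟩

theorem c_mm_012_b : CertB 0 536870912 1239849684 370763052 587336777 62277027 3 eng mog cd0q0 cd3q2b pd1 false false false .pnp 0 1 2
    ndB0q0 ndB3q2b pcB1 Cut.none Ext.none :=
  certB0 (fam := false) (s1 := false) (s2 := false) (a := 0) (b := 1) (c := 2) (cn := .pnp) (n1 := ndB0q0) (n2 := ndB3q2b) (pc := pcB1) (cut := Cut.none) (xt := Ext.none) (P1 := 0) (W1 := 536870912) (P2 := 1239849684) (W2 := 370763052) (P3 := 587336777) (W3 := 62277027) (N0 := 3) (En := eng) (mo := mog) (C1 := cd0q0) (C2 := cd3q2b) (C3 := pd1)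
    rfl k0_mm_012_b

noncomputable def f_mm_022_a : ℕ → ℕ → ℕ → ℕ → Bool := onCell 0 536870912 0 536870912 587336777 62277027
    (rowB 3 eng mog cd0q0 cd3q2a pd2 0 false false false .pp 0 2 2 (qsf 0 536870912 0 536870912 2) ndB0q0 ndB3q2a pcB2 Cut.none Ext.none)

def k0_mm_022_a : ∃ t, chk3 f_mm_022_a t 1 1 1 = true :=
  ⟨(l 5), by decide +kernel⟩

theorem c_mm_022_a : CertB 0 536870912 0 536870912 587336777 62277027 3 eng mog cd0q0 cd3q2a pd2 false false false .pp 0 2 2
    ndB0q0 ndB3q2a pcB2 Cut.none Ext.none :=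
  certB0 (fam := false) (s1 := false) (s2 := false) (a := 0) (b := 2) (c := 2) (cn := .pp) (n1 := ndB0q0) (n2 := ndB3q2a) (pc := pcB2) (cut := Cut.none) (xt := Ext.none) (P1 := 0) (W1 := 536870912) (P2 := 0) (W2 := 536870912) (P3 := 587336777) (W3 := 62277027) (N0 := 3) (En := eng) (mo := mog) (C1 := cd0q0) (C2 := cd3q2a) (C3 := pd2)
    rfl k0_mm_022_a

noncomputable def f_mm_022_b : ℕ → ℕ → ℕ → ℕ → Bool := onCell 0 536870912 1239849684 370763052 587336777 62277027
    (rowB 3 eng mog cd0q0 cd3q2b pd2 0 false false false .pp 0 2 2 (qsf 0 536870912 1239849684 370763052 2) ndB0q0 ndB3q2b pcB2 Cut.none Ext.none)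

def k0_mm_022_b : ∃ t, chk3 f_mm_022_b t 1 1 1 = true :=
  ⟨(l 5), by decide +kernel⟩

theorem c_mm_022_b : CertB 0 536870912 1239849684 370763052 587336777 62277027 3 eng mog cd0q0 cd3q2b pd2 false false false .pp 0 2 2
    ndB0q0 ndB3q2b pcB2 Cut.none Ext.none :=
  certB0 (fam := false) (s1 := false) (s2 := false) (a := 0) (b := 2) (c := 2) (cn := .pp) (n1 := ndB0q0) (n2 := ndB3q2b) (pc := pcB2) (cut := Cut.none) (xt := Ext.none) (P1 := 0) (W1 := 536870912) (P2 := 1239849684) (W2 := 370763052) (P3 := 587336777) (W3 := 62277027) (N0 := 3) (En := eng) (mo := mog) (C1 := cd0q0) (C2 := cd3q2b) (C3 := pd2)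
    rfl k0_mm_022_b

noncomputable def f_mm_023 : ℕ → ℕ → ℕ → ℕ → Bool := onCell 0 536870912 1610612736 536870912 587336777 62277027
    (rowB 3 eng mog cd0q0 cd3q3 pd2 0 false false false .up 0 2 3 (qsf 0 536870912 1610612736 536870912 2) ndB0q0 ndB3q3 pcB2 Cut.none Ext.none)

def k0_mm_023 : ∃ t, chk3 f_mm_023 t 1 1 1 = true :=
  ⟨(l 5), by decide +kernel⟩

theorem c_mm_023 : CertB 0 536870912 1610612736 536870912 587336777 62277027 3 eng mog cd0q0 cd3q3 pd2 false false false .up 0 2 3
    ndB0q0 ndB3q3 pcB2 Cut.none Ext.none :=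
  certB0 (fam := false) (s1 := false) (s2 := false) (a := 0) (b := 2) (c := 3) (cn := .up) (n1 := ndB0q0) (n2 := ndB3q3) (pc := pcB2) (cut := Cut.none) (xt := Ext.none) (P1 := 0) (W1 := 536870912) (P2 := 1610612736) (W2 := 536870912) (P3 := 587336777) (W3 := 62277027) (N0 := 3) (En := eng) (mo := mog) (C1 := cd0q0) (C2 := cd3q3) (C3 := pd2)
    rfl k0_mm_023

noncomputable def f_mm_033 : ℕ → ℕ → ℕ → ℕ → Bool := onCell 0 536870912 1610612736 536870912 587336777 62277027
    (rowB 3 eng mog cd0q0 cd3q3 pd3 0 false false false .pnn 0 3 3 (qsf 0 536870912 1610612736 536870912 3) ndB0q0 ndB3q3 pcB3 Cut.none Ext.none)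

def k0_mm_033 : ∃ t, chk3 f_mm_033 t 1 1 1 = true :=
  ⟨(l 5), by decide +kernel⟩

theorem c_mm_033 : CertB 0 536870912 1610612736 536870912 587336777 62277027 3 eng mog cd0q0 cd3q3 pd3 false false false .pnn 0 3 3
    ndB0q0 ndB3q3 pcB3 Cut.none Ext.none :=
  certB0 (fam := false) (s1 := false) (s2 := false) (a := 0) (b := 3) (c := 3) (cn := .pnn) (n1 := ndB0q0) (n2 := ndB3q3) (pc := pcB3) (cut := Cut.none) (xt := Ext.none) (P1 := 0) (W1 := 536870912) (P2 := 1610612736) (W2 := 536870912) (P3 := 587336777) (W3 := 62277027) (N0 := 3) (En := eng) (mo := mog) (C1 := cd0q0) (C2 := cd3q3) (C3 := pd3)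
    rfl k0_mm_033

noncomputable def f_mm_101 : ℕ → ℕ → ℕ → ℕ → Bool := onCell 536870912 536870912 536870912 536870912 587336777 62277027
    (rowB 3 eng mog cd0q1 cd3q1 pd0 0 false false false .npn 1 0 1 (qsf 536870912 536870912 536870912 536870912 0) ndB0q1 ndB3q1 pcB0 Cut.none Ext.none)

def k0_mm_101 : ∃ t, chk3 f_mm_101 t 1 1 1 = true :=
  ⟨(l 3), by decide +kernel⟩

theorem c_mm_101 : CertB 536870912 536870912 536870912 536870912 587336777 62277027 3 eng mog cd0q1 cd3q1 pd0 false false false .npn 1 0 1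
    ndB0q1 ndB3q1 pcB0 Cut.none Ext.none :=
  certB0 (fam := false) (s1 := false) (s2 := false) (a := 1) (b := 0) (c := 1) (cn := .npn) (n1 := ndB0q1) (n2 := ndB3q1) (pc := pcB0) (cut := Cut.none) (xt := Ext.none) (P1 := 536870912) (W1 := 536870912) (P2 := 536870912) (W2 := 536870912) (P3 := 587336777) (W3 := 62277027) (N0 := 3) (En := eng) (mo := mog) (C1 := cd0q1) (C2 := cd3q1) (C3 := pd0)
    rfl k0_mm_101

noncomputable def f_mm_102_a : ℕ → ℕ → ℕ → ℕ → Bool := onCell 536870912 536870912 0 536870912 587336777 62277027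
    (rowB 3 eng mog cd0q1 cd3q2a pd0 0 false false false .npp 1 0 2 (qsf 536870912 536870912 0 536870912 0) ndB0q1 ndB3q2a pcB0 Cut.none Ext.none)

def k0_mm_102_a : ∃ t, chk3 f_mm_102_a t 1 1 1 = true :=
  ⟨(a (l 3) (l 3)), by decide +kernel⟩

theorem c_mm_102_a : CertB 536870912 536870912 0 536870912 587336777 62277027 3 eng mog cd0q1 cd3q2a pd0 false false false .npp 1 0 2
    ndB0q1 ndB3q2a pcB0 Cut.none Ext.none :=
  certB0 (fam := false) (s1 := false) (s2 := false) (a := 1) (b := 0) (c := 2) (cn := .npp) (n1 := ndB0q1) (n2 := ndB3q2a) (pc := pcB0) (cut := Cut.none) (xt := Ext.none) (P1 := 536870912) (W1 := 536870912) (P2 := 0) (W2 := 536870912) (P3 := 587336777) (W3 := 62277027) (N0 := 3) (En := eng) (mo := mog) (C1 := cd0q1) (C2 := cd3q2a) (C3 := pd0)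
    rfl k0_mm_102_a

noncomputable def f_mm_102_b : ℕ → ℕ → ℕ → ℕ → Bool := onCell 536870912 536870912 1239849684 370763052 587336777 62277027
    (rowB 3 eng mog cd0q1 cd3q2b pd0 0 false false false .npp 1 0 2 (qsf 536870912 536870912 1239849684 370763052 0) ndB0q1 ndB3q2b pcB0 Cut.none Ext.none)

def k0_mm_102_b : ∃ t, chk3 f_mm_102_b t 1 1 1 = true :=
  ⟨(l 5), by decide +kernel⟩

theorem c_mm_102_b : CertB 536870912 536870912 1239849684 370763052 587336777 62277027 3 eng mog cd0q1 cd3q2b pd0 false false false .npp 1 0 2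
    ndB0q1 ndB3q2b pcB0 Cut.none Ext.none :=
  certB0 (fam := false) (s1 := false) (s2 := false) (a := 1) (b := 0) (c := 2) (cn := .npp) (n1 := ndB0q1) (n2 := ndB3q2b) (pc := pcB0) (cut := Cut.none) (xt := Ext.none) (P1 := 536870912) (W1 := 536870912) (P2 := 1239849684) (W2 := 370763052) (P3 := 587336777) (W3 := 62277027) (N0 := 3) (En := eng) (mo := mog) (C1 := cd0q1) (C2 := cd3q2b) (C3 := pd0)
    rfl k0_mm_102_b

noncomputable def f_mm_112_a : ℕ → ℕ → ℕ → ℕ → Bool := onCell 536870912 536870912 0 536870912 587336777 62277027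
    (rowB 3 eng mog cd0q1 cd3q2a pd1 2 false false false .dn 1 1 2 (qsf 536870912 536870912 0 536870912 1) ndB0q1 ndB3q2a pcB1 Cut.none Ext.none)

def k0_mm_112_a : ∃ t, chk3 f_mm_112_a t 1 1 1 = true :=
  ⟨(l 5), by decide +kernel⟩

theorem c_mm_112_a : CertB 536870912 536870912 0 536870912 587336777 62277027 3 eng mog cd0q1 cd3q2a pd1 false false false .dn 1 1 2
    ndB0q1 ndB3q2a pcB1 Cut.none Ext.none :=
  certB2 (fam := false) (s1 := false) (s2 := false) (a := 1) (b := 1) (c := 2) (cn := .dn) (n1 := ndB0q1) (n2 := ndB3q2a) (pc := pcB1) (cut := Cut.none) (xt := Ext.none) (P1 := 536870912) (W1 := 536870912) (P2 := 0) (W2 := 536870912) (P3 := 587336777) (W3 := 62277027) (N0 := 3) (En := eng) (mo := mog) (C1 := cd0q1) (C2 := cd3q2a) (C3 := pd1)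
    rfl (fun _ => rfl) k0_mm_112_a

noncomputable def f_mm_112_b : ℕ → ℕ → ℕ → ℕ → Bool := onCell 536870912 536870912 1239849684 370763052 587336777 62277027
    (rowB 3 eng mog cd0q1 cd3q2b pd1 0 false false false .dn 1 1 2 (qsf 536870912 536870912 1239849684 370763052 1) ndB0q1 ndB3q2b pcB1 Cut.none Ext.none)

def k0_mm_112_b : ∃ t, chk3 f_mm_112_b t 1 1 1 = true :=
  ⟨(l 5), by decide +kernel⟩

theorem c_mm_112_b : CertB 536870912 536870912 1239849684 370763052 587336777 62277027 3 eng mog cd0q1 cd3q2b pd1 false false false .dn 1 1 2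
    ndB0q1 ndB3q2b pcB1 Cut.none Ext.none :=
  certB0 (fam := false) (s1 := false) (s2 := false) (a := 1) (b := 1) (c := 2) (cn := .dn) (n1 := ndB0q1) (n2 := ndB3q2b) (pc := pcB1) (cut := Cut.none) (xt := Ext.none) (P1 := 536870912) (W1 := 536870912) (P2 := 1239849684) (W2 := 370763052) (P3 := 587336777) (W3 := 62277027) (N0 := 3) (En := eng) (mo := mog) (C1 := cd0q1) (C2 := cd3q2b) (C3 := pd1)
    rfl k0_mm_112_b

noncomputable def f_mm_113 : ℕ → ℕ → ℕ → ℕ → Bool := onCell 536870912 536870912 1610612736 536870912 587336777 62277027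
    (rowB 3 eng mog cd0q1 cd3q3 pd1 0 false false false .nn 1 1 3 (qsf 536870912 536870912 1610612736 536870912 1) ndB0q1 ndB3q3 pcB1 Cut.none Ext.none)

def k0_mm_113 : ∃ t, chk3 f_mm_113 t 1 1 1 = true :=
  ⟨(l 5), by decide +kernel⟩

theorem c_mm_113 : CertB 536870912 536870912 1610612736 536870912 587336777 62277027 3 eng mog cd0q1 cd3q3 pd1 false false false .nn 1 1 3
    ndB0q1 ndB3q3 pcB1 Cut.none Ext.none :=
  certB0 (fam := false) (s1 := false) (s2 := false) (a := 1) (b := 1) (c := 3) (cn := .nn) (n1 := ndB0q1) (n2 := ndB3q3) (pc := pcB1) (cut := Cut.none) (xt := Ext.none) (P1 := 536870912) (W1 := 536870912) (P2 := 1610612736) (W2 := 536870912) (P3 := 587336777) (W3 := 62277027) (N0 := 3) (En := eng) (mo := mog) (C1 := cd0q1) (C2 := cd3q3) (C3 := pd1)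
    rfl k0_mm_113

noncomputable def f_mm_123 : ℕ → ℕ → ℕ → ℕ → Bool := onCell 536870912 536870912 1610612736 536870912 587336777 62277027
    (rowB 3 eng mog cd0q1 cd3q3 pd2 0 false false false .npn 1 2 3 (qsf 536870912 536870912 1610612736 536870912 2) ndB0q1 ndB3q3 pcB2 Cut.none Ext.none)

def k0_mm_123 : ∃ t, chk3 f_mm_123 t 1 1 1 = true :=
  ⟨(l 5), by decide +kernel⟩

theorem c_mm_123 : CertB 536870912 536870912 1610612736 536870912 587336777 62277027 3 eng mog cd0q1 cd3q3 pd2 false false false .npn 1 2 3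
    ndB0q1 ndB3q3 pcB2 Cut.none Ext.none :=
  certB0 (fam := false) (s1 := false) (s2 := false) (a := 1) (b := 2) (c := 3) (cn := .npn) (n1 := ndB0q1) (n2 := ndB3q3) (pc := pcB2) (cut := Cut.none) (xt := Ext.none) (P1 := 536870912) (W1 := 536870912) (P2 := 1610612736) (W2 := 536870912) (P3 := 587336777) (W3 := 62277027) (N0 := 3) (En := eng) (mo := mog) (C1 := cd0q1) (C2 := cd3q3) (C3 := pd2)
    rfl k0_mm_123

noncomputable def f_mm_133 : ℕ → ℕ → ℕ → ℕ → Bool := onCell 536870912 536870912 1610612736 536870912 587336777 62277027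
    (rowB 3 eng mog cd0q1 cd3q3 pd3 0 false false false .dn 1 3 3 (qsf 536870912 536870912 1610612736 536870912 3) ndB0q1 ndB3q3 pcB3 Cut.none Ext.none)

def k0_mm_133 : ∃ t, chk3 f_mm_133 t 1 1 1 = true :=
  ⟨(l 5), by decide +kernel⟩

theorem c_mm_133 : CertB 536870912 536870912 1610612736 536870912 587336777 62277027 3 eng mog cd0q1 cd3q3 pd3 false false false .dn 1 3 3
    ndB0q1 ndB3q3 pcB3 Cut.none Ext.none :=
  certB0 (fam := false) (s1 := false) (s2 := false) (a := 1) (b := 3) (c := 3) (cn := .dn) (n1 := ndB0q1) (n2 := ndB3q3) (pc := pcB3) (cut := Cut.none) (xt := Ext.none) (P1 := 536870912) (W1 := 536870912) (P2 := 1610612736) (W2 := 536870912) (P3 := 587336777) (W3 := 62277027) (N0 := 3) (En := eng) (mo := mog) (C1 := cd0q1) (C2 := cd3q3) (C3 := pd3)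
    rfl k0_mm_133

noncomputable def f_mm_202_a : ℕ → ℕ → ℕ → ℕ → Bool := onCell 0 536870912 0 536870912 587336777 62277027
    (rowB 3 eng mog cd0q2 cd3q2a pd0 0 false false false .pp 2 0 2 (qsf 0 536870912 0 536870912 0) ndB0q2 ndB3q2a pcB0 Cut.none Ext.none)

def k0_mm_202_a : ∃ t, chk3 f_mm_202_a t 1 1 1 = true :=
  ⟨(l 3), by decide +kernel⟩

theorem c_mm_202_a : CertB 0 536870912 0 536870912 587336777 62277027 3 eng mog cd0q2 cd3q2a pd0 false false false .pp 2 0 2
    ndB0q2 ndB3q2a pcB0 Cut.none Ext.none :=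
  certB0 (fam := false) (s1 := false) (s2 := false) (a := 2) (b := 0) (c := 2) (cn := .pp) (n1 := ndB0q2) (n2 := ndB3q2a) (pc := pcB0) (cut := Cut.none) (xt := Ext.none) (P1 := 0) (W1 := 536870912) (P2 := 0) (W2 := 536870912) (P3 := 587336777) (W3 := 62277027) (N0 := 3) (En := eng) (mo := mog) (C1 := cd0q2) (C2 := cd3q2a) (C3 := pd0)
    rfl k0_mm_202_a

noncomputable def f_mm_202_b : ℕ → ℕ → ℕ → ℕ → Bool := onCell 0 536870912 1239849684 370763052 587336777 62277027
    (rowB 3 eng mog cd0q2 cd3q2b pd0 0 false false false .pp 2 0 2 (qsf 0 536870912 1239849684 370763052 0) ndB0q2 ndB3q2b pcB0 Cut.none Ext.none)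

def k0_mm_202_b : ∃ t, chk3 f_mm_202_b t 1 1 1 = true :=
  ⟨(l 3), by decide +kernel⟩

theorem c_mm_202_b : CertB 0 536870912 1239849684 370763052 587336777 62277027 3 eng mog cd0q2 cd3q2b pd0 false false false .pp 2 0 2
    ndB0q2 ndB3q2b pcB0 Cut.none Ext.none :=
  certB0 (fam := false) (s1 := false) (s2 := false) (a := 2) (b := 0) (c := 2) (cn := .pp) (n1 := ndB0q2) (n2 := ndB3q2b) (pc := pcB0) (cut := Cut.none) (xt := Ext.none) (P1 := 0) (W1 := 536870912) (P2 := 1239849684) (W2 := 370763052) (P3 := 587336777) (W3 := 62277027) (N0 := 3) (En := eng) (mo := mog) (C1 := cd0q2) (C2 := cd3q2b) (C3 := pd0)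
    rfl k0_mm_202_b

noncomputable def f_mm_203 : ℕ → ℕ → ℕ → ℕ → Bool := onCell 0 536870912 0 536870912 587336777 62277027
    (rowB 3 eng mog cd0q2 cd3q3 pd0 1 false false false .up 2 0 3 (qsf 0 536870912 1610612736 536870912 0) ndB0q2 ndB3q3 pcB0 Cut.none Ext.none)

def k0_mm_203 : ∃ t, chk3 f_mm_203 t 1 1 1 = true :=
  ⟨(l 3), by decide +kernel⟩

theorem c_mm_203 : CertB 0 536870912 1610612736 536870912 587336777 62277027 3 eng mog cd0q2 cd3q3 pd0 false false false .up 2 0 3
    ndB0q2 ndB3q3 pcB0 Cut.none Ext.none :=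
  certB1 (fam := false) (s1 := false) (s2 := false) (a := 2) (b := 0) (c := 3) (cn := .up) (n1 := ndB0q2) (n2 := ndB3q3) (pc := pcB0) (cut := Cut.none) (xt := Ext.none) (P1 := 0) (W1 := 536870912) (P2 := 1610612736) (W2 := 536870912) (P3 := 587336777) (W3 := 62277027) (N0 := 3) (En := eng) (mo := mog) (C1 := cd0q2) (C2 := cd3q3) (C3 := pd0)
    rfl (fun _ => rfl) k0_mm_203

noncomputable def f_mm_213 : ℕ → ℕ → ℕ → ℕ → Bool := onCell 0 536870912 1610612736 536870912 587336777 62277027
    (rowB 3 eng mog cd0q2 cd3q3 pd1 0 false false false .pnn 2 1 3 (qsf 0 536870912 1610612736 536870912 1) ndB0q2 ndB3q3 pcB1 Cut.none Ext.none)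

def k0_mm_213 : ∃ t, chk3 f_mm_213 t 1 1 1 = true :=
  ⟨(a (l 3) (l 5)), by decide +kernel⟩

theorem c_mm_213 : CertB 0 536870912 1610612736 536870912 587336777 62277027 3 eng mog cd0q2 cd3q3 pd1 false false false .pnn 2 1 3
    ndB0q2 ndB3q3 pcB1 Cut.none Ext.none :=
  certB0 (fam := false) (s1 := false) (s2 := false) (a := 2) (b := 1) (c := 3) (cn := .pnn) (n1 := ndB0q2) (n2 := ndB3q3) (pc := pcB1) (cut := Cut.none) (xt := Ext.none) (P1 := 0) (W1 := 536870912) (P2 := 1610612736) (W2 := 536870912) (P3 := 587336777) (W3 := 62277027) (N0 := 3) (En := eng) (mo := mog) (C1 := cd0q2) (C2 := cd3q3) (C3 := pd1)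
    rfl k0_mm_213

end Pool.Agent.Strip051.G.I5470_6050.Tab.C.BB03

namespace Pool.Agent.Strip051.G.I5470_6050.Tab.C.BB04

open Pool.Agent.Strip051.PB Pool.Agent.Strip051.PB.T
open Pool.Agent.Strip051.G.I5470_6050.Tab

noncomputable def f_pp_001 : ℕ → ℕ → ℕ → ℕ → Bool := onCell 0 536870912 536870912 536870912 587336777 62277027
    (rowB 3 eng mog cd0q0 cd4q1 pd0 0 false true true .up 0 0 1 (qsf 0 536870912 536870912 536870912 0) ndB0q0 ndB4q1 pcB0 Cut.none Ext.none)

def k0_pp_001 : ∃ t, chk3 f_pp_001 t 1 1 1 = true :=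
  ⟨(l 3), by decide +kernel⟩

theorem c_pp_001 : CertB 0 536870912 536870912 536870912 587336777 62277027 3 eng mog cd0q0 cd4q1 pd0 false true true .up 0 0 1
    ndB0q0 ndB4q1 pcB0 Cut.none Ext.none :=
  certB0 (fam := false) (s1 := true) (s2 := true) (a := 0) (b := 0) (c := 1) (cn := .up) (n1 := ndB0q0) (n2 := ndB4q1) (pc := pcB0) (cut := Cut.none) (xt := Ext.none) (P1 := 0) (W1 := 536870912) (P2 := 536870912) (W2 := 536870912) (P3 := 587336777) (W3 := 62277027) (N0 := 3) (En := eng) (mo := mog) (C1 := cd0q0) (C2 := cd4q1) (C3 := pd0)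
    rfl k0_pp_001

noncomputable def f_pp_011 : ℕ → ℕ → ℕ → ℕ → Bool := onCell 0 536870912 536870912 536870912 587336777 62277027
    (rowB 3 eng mog cd0q0 cd4q1 pd1 0 false true true .pnn 0 1 1 (qsf 0 536870912 536870912 536870912 1) ndB0q0 ndB4q1 pcB1 Cut.none Ext.none)

def k0_pp_011 : ∃ t, chk3 f_pp_011 t 1 1 1 = true :=
  ⟨(l 3), by decide +kernel⟩

theorem c_pp_011 : CertB 0 536870912 536870912 536870912 587336777 62277027 3 eng mog cd0q0 cd4q1 pd1 false true true .pnn 0 1 1
    ndB0q0 ndB4q1 pcB1 Cut.none Ext.none :=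
  certB0 (fam := false) (s1 := true) (s2 := true) (a := 0) (b := 1) (c := 1) (cn := .pnn) (n1 := ndB0q0) (n2 := ndB4q1) (pc := pcB1) (cut := Cut.none) (xt := Ext.none) (P1 := 0) (W1 := 536870912) (P2 := 536870912) (W2 := 536870912) (P3 := 587336777) (W3 := 62277027) (N0 := 3) (En := eng) (mo := mog) (C1 := cd0q0) (C2 := cd4q1) (C3 := pd1)
    rfl k0_pp_011

noncomputable def cut_pp_012_a : Cut := Cut.of [[⟨0, 0, 0, 67108864⟩, ⟨1, 1, 0, 67108864⟩, ⟨2, 1, 0, 67108864⟩]]

noncomputable def f_pp_012_a : ℕ → ℕ → ℕ → ℕ → Bool := onCell 536870912 536870912 0 536870912 587336777 62277027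
    (rowB 3 eng mog cd0q0 cd4q2a pd1 2 false true true .pnp 0 1 2 (qsf 0 536870912 0 536870912 1) ndB0q0 ndB4q2a pcB1 cut_pp_012_a Ext.none)

def k0_pp_012_a : ∃ t, chk3 f_pp_012_a t 2 1 1 = true :=
  ⟨(l 3), by decide +kernel⟩

def k1_pp_012_a : ∃ t, chk3 f_pp_012_a t 6 1 1 = true :=
  ⟨(l 3), by decide +kernel⟩

def k2_pp_012_a : ∃ t, chk3 f_pp_012_a t 7 2 1 = true :=
  ⟨(a (a (l 3) (b (a (l 3) (a (l 3) (b (b (c (a (l 16663952) (l 47412165447)) (a (l 25937356951) (b (l 16657872) (l 16659976)))) (l 3)) (l 3)))) (l 3))) (a (b (a (a (b (b (c (b (l 16680208) (l 16654096)) (a (l 16654640) (l 16650488))) (c (l 44190949063) (a (l 40969738679) (l 16654704)))) (b (b (c (l 16663464) (l 16660832)) (l 76940101159)) (l 3))) (b (b (c (l 16644168) (l 16644352)) (c (l 16649672) (l 16648384))) (b (c (l 16655968) (l 16663896)) (b (l 46338449863) (l 72108241175))))) (a (b (b (l 16636384) (c (l 16641016) (l 16640152))) (b (l 16646192) (c (l 16653896) (l 16650800)))) (b (b (l 16628440) (l 16632576)) (b (l 16637720) (l 16643824)))))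 (b (a (a (l 3) (b (b (l 73182012007) (l 3)) (l 3))) (a (b (b (l 16657736) (l 49022810583)) (b (l 49559691015) (a (l 3) (l 16667680)))) (b (l 16650872) (b (l 16656736) (l 16660976))))) (a (l 3) (a (b (b (l 40969772503) (l 3)) (l 3)) (a (b (b (l 16667688) (l 16672480)) (b (l 16677592) (l 3))) (b (b (l 16663264) (l 16667992)) (b (l 16672976) (l 22716181463)))))))) (b (b (a (c (l 16660680) (l 16639952)) (a (l 16644744) (b (l 16599352) (l 16601944)))) (a (b (l 16625416) (a (l 16635376) (l 16627128))) (b (l 16609888) (l 16615088)))) (a (b (a (b (l 16642280) (l 16650176)) (b (l 16633864) (l 16641632))) (b (a (b (l 16656704) (l 16661408)) (l 16650440)) (a (b (l 16687352) (c (l 16673656) (l 16669696))) (b (l 16657688) (l 16662896))))) (b (b (l 16663472) (l 16671000)) (a (b (l 16641904) (l 16651696)) (b (l 16633480) (l 16643136)))))))), by decide +kernel⟩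

def k3_pp_012_a : ∃ t, chk3 f_pp_012_a t 14 3 1 = true :=
  ⟨(l 3), by decide +kernel⟩

def k4_pp_012_a : ∃ t, chk3 f_pp_012_a t 15 6 1 = true :=
  ⟨(a (b (a (l 3) (b (a (l 3) (b (c (l 13589392375) (l 16684320)) (l 3))) (l 3))) (l 3)) (b (a (b (a (a (b (l 16695056) (l 20568709639)) (b (l 16674936) (l 16680728))) (b (l 16689360) (c (l 16675984) (l 16672512)))) (a (b (a (l 6610077639) (c (l 16688696) (l 16685112))) (a (l 3) (c (l 18421241495) (l 16691696)))) (b (c (l 16702992) (l 16678656)) (c (a (l 16690560) (l 16686136)) (l 16700872))))) (b (a (b (l 16659712) (l 16665472)) (l 16674944)) (a (b (l 16671544) (l 16698896)) (b (l 16662832) (l 16669192))))) (a (b (a (a (l 3) (a (l 3) (b (l 16709472) (l 3)))) (b (a (c (l 29695532759) (l 16694160)) (l 16712192)) (a (c (b (l 16712872) (l 16716472)) (l 16711944)) (c (l 16699720) (l 16697032))))) (a (l 3) (b (a (c (b (l 16709696) (l 3)) (l 16714440)) (c (b (l 16705152) (l 16719392)) (l 30232419287))) (a (l 3) (c (b (l 23253108055) (l 18958144279)) (b (l 16710544) (l 16714688)))))))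 (b (a (b (a (l 16686856) (l 16682480)) (c (l 16703600) (l 16711504))) (b (l 16675912) (l 16703952))) (a (b (a (c (l 16702632) (l 16700240)) (l 16696984)) (a (c (l 16720800) (l 16708176)) (l 16715288))) (b (a (l 16692600) (l 16688192)) (a (l 16700408) (l 16696000)))))))), by decide +kernel⟩

def k5_pp_012_a : ∃ t, chk3 f_pp_012_a t 15 7 1 = true :=
  ⟨(a (l 3) (b (a (b (a (l 3) (a (l 3) (a (l 3) (b (b (l 16718632) (l 3)) (l 3))))) (l 3)) (a (b (b (a (c (b (l 16716296) (l 23253122887)) (b (l 16714352) (l 16718624))) (c (l 16724472) (l 16712104))) (b (a (a (l 16724936) (l 16722648)) (l 16729848)) (a (a (l 3) (l 16732312)) (c (l 16724584) (l 16723000))))) (b (a (b (c (l 16733560) (l 16732232)) (l 3)) (a (b (l 16734592) (c (l 16734672) (l 16733368))) (b (l 16727144) (l 6)))) (a (l 3) (l 6)))) (b (a (b (l 16719080) (c (l 16718040) (l 16716376))) (b (l 16704184) (l 16723224))) (a (b (b (l 16734328) (l 6)) (l 6)) (l 6))))) (a (l 3) (l 6)))), by decide +kernel⟩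

theorem s6_pp_012_a : ∃ t, chk3 f_pp_012_a t 15 3 1 = true := ex3_b k4_pp_012_a k5_pp_012_a

theorem s7_pp_012_a : ∃ t, chk3 f_pp_012_a t 7 3 1 = true := ex3_a k3_pp_012_a s6_pp_012_a

theorem s8_pp_012_a : ∃ t, chk3 f_pp_012_a t 7 1 1 = true := ex3_b k2_pp_012_a s7_pp_012_a

theorem s9_pp_012_a : ∃ t, chk3 f_pp_012_a t 3 1 1 = true := ex3_a k1_pp_012_a s8_pp_012_a

theorem s10_pp_012_a : ∃ t, chk3 f_pp_012_a t 1 1 1 = true := ex3_a k0_pp_012_a s9_pp_012_a

theorem c_pp_012_a : CertB 0 536870912 0 536870912 587336777 62277027 3 eng mog cd0q0 cd4q2a pd1 false true true .pnp 0 1 2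
    ndB0q0 ndB4q2a pcB1 cut_pp_012_a Ext.none :=
  certB2 (fam := false) (s1 := true) (s2 := true) (a := 0) (b := 1) (c := 2) (cn := .pnp) (n1 := ndB0q0) (n2 := ndB4q2a) (pc := pcB1) (cut := cut_pp_012_a) (xt := Ext.none) (P1 := 0) (W1 := 536870912) (P2 := 0) (W2 := 536870912) (P3 := 587336777) (W3 := 62277027) (N0 := 3) (En := eng) (mo := mog) (C1 := cd0q0) (C2 := cd4q2a) (C3 := pd1)
    rfl (fun _ => rfl) s10_pp_012_a

noncomputable def cut_pp_012_b : Cut := Cut.of [[⟨0, 0, 0, 67108864⟩, ⟨1, 1, 0, 67108864⟩, ⟨2, 1, 0, 67108864⟩]]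

noncomputable def xt_pp_012_b : Ext := extD2 3 ⟨7, 3, 3, 10, 1815, 1000, 17, 20, 37, 100, 3, 16⟩ eng cd0q0 cd4q2b pd1 false true true .pnp 0 1 2 rfl ndB0q0 ndB4q2b pcB1

noncomputable def f_pp_012_b : ℕ → ℕ → ℕ → ℕ → Bool := onCell 0 536870912 536870912 536870912 587336777 62277027
    (rowB 3 eng mog cd0q0 cd4q2b pd1 1 false true true .pnp 0 1 2 (qsf 0 536870912 1239849684 370763052 1) ndB0q0 ndB4q2b pcB1 cut_pp_012_b xt_pp_012_b)

def k0_pp_012_b : ∃ t, chk3 f_pp_012_b t 1 2 1 = true :=
  ⟨(l 3), by decide +kernel⟩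

def k1_pp_012_b : ∃ t, chk3 f_pp_012_b t 2 3 1 = true :=
  ⟨(b (l 1) (a (l 1) (b (a (l 1) (b (l 3) (b (l 3) (b (l 3) (b (a (l 1) (a (a (c (l 16666736) (l 28621718567)) (l 3)) (l 3))) (a (a (l 1) (a (l 1) (a (l 1) (l 163778939095)))) (a (c (a (l 16652880) (l 16644688)) (a (l 16652992) (l 16644296))) (c (l 54391458231) (a (l 16635768) (l 16627408)))))))))) (b (a (a (l 1) (b (l 1) (a (l 1) (b (l 1) (c (l 62310332503) (l 16660264)))))) (a (a (b (b (l 1) (c (a (l 1) (l 16669704)) (l 97743838791))) (b (c (l 16657368) (l 16637584)) (l 16641344))) (b (c (b (a (l 13992007223) (l 16653704)) (l 16656688)) (b (a (b (l 1) (l 16653648)) (l 16658136)) (a (l 16640872) (l 16631928)))) (b (l 16640392) (l 16602600)))) (b (b (a (a (c (l 16661064) (l 16640136)) (b (l 16636248) (l 16627720))) (a (a (l 16625768) (l 16621688)) (l 16620904))) (c (a (l 16619016) (l 16603144)) (a (l 16618768) (l 16601776)))) (a (b (l 16602264) (l 16585464)) (b (l 16585840) (l 16569088)))))) (a (a (a (l 1) (b (l 1) (b (l 1) (l 45667274439)))) (b (b (a (l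 1) (l 16654008)) (a (b (l 1) (l 16662440)) (l 16627232))) (a (b (l 37077344183) (l 16634112)) (b (l 16590112) (l 16574224))))) (a (a (b (l 16637568) (l 16584608)) (b (l 16598560) (l 16544712))) (b (a (l 16560488) (l 16544160)) (l 16569480)))))))), by decide +kernel⟩

def k2_pp_012_b : ∃ t, chk3 f_pp_012_b t 3 6 1 = true :=
  ⟨(l 3), by decide +kernel⟩

def k3_pp_012_b : ∃ t, chk3 f_pp_012_b t 6 7 1 = true :=
  ⟨(b (a (b (l 3) (b (l 3) (b (l 3) (b (l 3) (a (a (c (l 16617720) (l 16615224)) (a (l 16605448) (l 16598168))) (a (l 299204512231) (l 3))))))) (l 3)) (b (a (b (a (b (a (c (l 16605008) (l 16602408)) (a (l 16592680) (l 16585408))) (a (l 16587048) (l 16572200))) (b (a (a (l 16578336) (l 16571448)) (a (l 44727666695) (a (l 16559864) (l 16577624)))) (a (l 16558144) (l 16565824)))) (a (b (a (l 16570248) (l 16555480)) (a (l 16553544) (l 16538848))) (a (b (l 16541512) (l 16524960)) (b (l 16528304) (l 16511648))))) (a (b (b (a (c (a (l 16556024) (l 49559474311)) (b (l 16548512) (l 16540136))) (c (a (b (l 16548584)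 (l 16539888)) (l 38285155431)) (a (l 16555440) (l 16527832)))) (a (c (l 16536336) (l 16527616)) (c (l 16523496) (l 16514232)))) (a (b (l 16515176) (l 16498192)) (b (l 16501944) (l 16485040)))) (b (b (b (a (c (l 110225834295) (l 75866077287)) (l 3)) (a (a (l 16522032) (l 42580077623)) (c (a (l 16514176) (l 16507944)) (l 16501152)))) (a (c (l 16521144) (l 16501216)) (c (a (l 16501280) (l 16495104)) (l 16488680)))) (a (b (l 16489192) (l 16472416)) (b (l 16497840) (l 16460248)))))) (a (b (a (a (l 16549664) (l 16514080)) (a (l 16500160) (l 16486440))) (a (b (l 16538680) (l 16522392)) (a (l 16467032) (l 16453048)))) (a (b (a (l 16472888) (l 16459912)) (a (l 16439680) (l 16426944))) (b (a (l 16447488) (l 16435536)) (a (l 16414784) (l 16403136))))))), by decide +kernel⟩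

def k4_pp_012_b : ∃ t, chk3 f_pp_012_b t 7 7 1 = true :=
  ⟨(b (l 3) (a (b (b (a (b (b (l 3) (a (c (c (l 47948739303) (l 16496288)) (l 73181656231)) (a (l 55464914951) (l 156396632743)))) (a (c (c (l 16487904) (l 16483608)) (l 16476376)) (b (c (l 141224949349482511) (l 16468048)) (l 16485680)))) (b (l 3) (c (a (a (l 141081050736623631) (l 141007452163227663)) (a (l 141248520074035215) (b (l 141177670291161103) (l 141036383035179023)))) (c (a (l 141192857305137167) (l 1288714923850359313813225487)) (a (l 97340769479) (a (l 91435175831) (a (l 89287685319) (l 88750807463)))))))) (a (a (b (l 16485688) (l 16448256)) (b (l 16473376) (l 16436104))) (b (a (a (l 16442912) (l 16457520)) (c (b (l 16459680) (l 16433264)) (l 16426456))) (a (a (l 16426912) (l 16422704)) (l 16420496))))) (a (b (a (l 16423792) (b (l 16420040) (l 16405344))) (a (l 16413688) (l 16386576))) (b (a (b (l 16412160) (l 16400776)) (l 16425280)) (a (l 16384160) (l 16382544))))) (b (a (b (b (l 3) (c (a (b (l 1153315232053487379874480143) (l 141017004143935503))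 (b (l 2188155733643530719871123471) (l 140998106292748303))) (c (a (l 1375757582862597564817604623) (l 2584683402476961963378671631)) (a (a (l 86066449591) (l 81771480487)) (b (l 156933387783) (l 141039200498581519)))))) (a (c (a (l 141094519688167439) (l 140905609848406031)) (l 140994738980159503)) (a (c (l 140898737903468559) (l 140813388278792207)) (c (l 140893858824339471) (l 140844655640182799))))) (b (b (l 3) (b (l 3) (a (c (l 1540171494330036774388957199) (a (l 141200210240782351) (l 141223643583365135))) (c (c (l 1791628064809808174532362255) (l 141080982034694159)) (c (l 141058648136400911) (l 141105102477492239)))))) (b (a (c (l 140930280163999759) (l 140834485169455119)) (c (l 140935021822197775) (b (l 140784113803296783) (l 140617194183622671)))) (c (a (l 140669558450389007) (l 140678629436309519)) (l 140904166699089935))))) (a (a (b (b (l 16409000) (l 16398352)) (l 16403328)) (b (b (l 16430936) (l 16399560)) (l 16425880))) (b (a (a (l 140997075420037135) (l 140996182070935567)) (b (l 140960722839846927)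 (l 16408208))) (a (a (l 16386352) (l 16388656)) (l 16456400))))))), by decide +kernel⟩

theorem s5_pp_012_b : ∃ t, chk3 f_pp_012_b t 3 7 1 = true := ex3_a k3_pp_012_b k4_pp_012_b

theorem s6_pp_012_b : ∃ t, chk3 f_pp_012_b t 3 3 1 = true := ex3_b k2_pp_012_b s5_pp_012_b

theorem s7_pp_012_b : ∃ t, chk3 f_pp_012_b t 1 3 1 = true := ex3_a k1_pp_012_b s6_pp_012_b

theorem s8_pp_012_b : ∃ t, chk3 f_pp_012_b t 1 1 1 = true := ex3_b k0_pp_012_b s7_pp_012_b

theorem c_pp_012_b : CertB 0 536870912 1239849684 370763052 587336777 62277027 3 eng mog cd0q0 cd4q2b pd1 false true true .pnp 0 1 2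
    ndB0q0 ndB4q2b pcB1 cut_pp_012_b xt_pp_012_b :=
  certB1 (fam := false) (s1 := true) (s2 := true) (a := 0) (b := 1) (c := 2) (cn := .pnp) (n1 := ndB0q0) (n2 := ndB4q2b) (pc := pcB1) (cut := cut_pp_012_b) (xt := xt_pp_012_b) (P1 := 0) (W1 := 536870912) (P2 := 1239849684) (W2 := 370763052) (P3 := 587336777) (W3 := 62277027) (N0 := 3) (En := eng) (mo := mog) (C1 := cd0q0) (C2 := cd4q2b) (C3 := pd1)
    rfl (fun _ => rfl) s8_pp_012_b

noncomputable def cut_pp_022_a : Cut := Cut.of [[⟨0, 0, 0, 67108864⟩, ⟨1, 1, 0, 67108864⟩, ⟨2, 1, 0, 67108864⟩]]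

noncomputable def f_pp_022_a : ℕ → ℕ → ℕ → ℕ → Bool := onCell 1073741824 536870912 0 536870912 587336777 62277027
    (rowB 3 eng mog cd0q0 cd4q2a pd2 2 false true true .pp 0 2 2 (qsf 0 536870912 0 536870912 2) ndB0q0 ndB4q2a pcB2 cut_pp_022_a Ext.none)

def k0_pp_022_a : ∃ t, chk3 f_pp_022_a t 8 1 1 = true :=
  ⟨(b (a (a (b (b (c (l 16610936) (l 16589296)) (a (l 16599872) (l 16595088))) (b (b (l 16606488) (l 16666432)) (a (b (l 16624992) (l 16634768)) (b (l 16620152) (l 16629888))))) (b (b (b (l 16577712) (l 16580448)) (b (l 16584336) (l 16589392))) (b (l 16599432) (l 16658600)))) (a (b (b (l 16588368) (l 16574752)) (b (l 16607424) (l 16618224))) (b (b (l 16575472) (l 16561376)) (b (l 16572264) (b (l 16582872) (l 16591320)))))) (b (a (b (b (a (a (l 16666696) (l 16640800)) (l 16632384)) (a (a (b (l 16654688) (l 16661112)) (l 16652952)) (l 16665320))) (a (b (a (a (l 16693688) (l 16670288)) (b (l 16662880) (l 16669984))) (a (b (a (l 16683760) (l 16681296)) (a (l 16691656) (l 16689176))) (b (l 16677432) (l 16685272))))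 (b (l 16678264) (a (l 16675552) (l 16666760))))) (b (a (b (l 16617088) (l 16633456)) (b (l 16600720) (l 16611024))) (b (a (a (l 16644584) (l 16635776)) (a (l 16626736) (l 16617456))) (a (a (l 16670824) (l 16648400)) (a (b (l 16635704) (l 16641888)) (b (l 16626016) (l 16631888))))))) (a (b (b (b (a (a (a (l 16699928) (l 16697416)) (l 16693480)) (a (l 16686704) (l 16677512))) (a (a (a (c (l 16709392) (l 16707856)) (l 16706024)) (l 16712520)) (a (l 16694480) (l 16695464)))) (l 6)) (l 6)) (b (b (a (b (a (l 16668032) (l 16658264)) (a (l 16675176) (l 16665064))) (b (a (l 16648216) (c (l 16641136) (l 16634248))) (a (a (l 16657280) (l 16651992)) (b (l 16652856) (l 16655872))))) (a (l 6) (a (l 6) (a (l 6) (l 1))))) (a (l 6) (l 1)))))), by decide +kernel⟩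

def k1_pp_022_a : ∃ t, chk3 f_pp_022_a t 9 1 1 = true :=
  ⟨(b (b (a (b (a (l 16540680) (l 16526080)) (a (l 16547016) (l 16531840))) (b (a (l 16531848) (c (l 16503448) (l 16486784))) (a (c (l 16522480) (l 16509360)) (c (l 16507184) (l 16491744))))) (a (b (a (l 16578056) (b (l 16538288) (l 16543776))) (a (b (l 16566920) (l 16574728)) (b (l 16550136) (l 16557320)))) (b (a (b (l 16521848) (l 16526832)) (b (c (l 16511920) (l 16497144)) (c (l 16516136) (l 16501624)))) (a (b (l 16532584) (a (l 16543704) (l 16534312))) (b (a (l 16518832) (l 16509320)) (a (l 16524640) (c (l 16521928) (l 16506840)))))))) (b (b (a (a (b (l 16583424) (a (l 16597536) (l 16588248))) (b (l 16586232) (a (l 16578712) (l 16568888)))) (a (b (a (l 16550992) (l 16562088)) (a (b (l 16556760) (l 16560736)) (l 6475590791))) (b (a (l 25266039559) (l 16541288)) (l 1)))) (a (b (a (a (l 16607912) (l 16598096)) (a (b (l 16585600) (l 16590336)) (b (l 16575328) (l 16579720)))) (a (a (b (l 16616024) (l 16621560)) (b (l 16605744) (l 16631880))) (b (a (l 16595128)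 (l 1)) (l 1)))) (b (a (a (b (l 16564728) (l 1)) (l 1)) (l 1)) (l 1)))) (b (b (a (a (b (a (c (l 16631072) (l 16622864)) (l 16616080)) (a (l 16653712) (l 1))) (l 1)) (l 1)) (l 1)) (l 1)))), by decide +kernel⟩

def k2_pp_022_a : ∃ t, chk3 f_pp_022_a t 5 1 1 = true :=
  ⟨(b (a (a (a (c (b (b (l 16509256) (a (l 16495280) (l 16487112))) (b (b (a (l 16499424) (l 16490824)) (a (l 16503144) (l 16494152))) (b (a (l 16507456) (l 16498000)) (a (l 16512280) (l 1))))) (b (b (b (l 16468432) (l 16469840)) (b (l 16471896) (l 16474560))) (b (b (l 16477784) (l 49425129847)) (b (l 19360368983) (l 16490024))))) (b (a (b (c (l 16476448) (b (l 16454752) (l 16455864))) (c (b (l 16477792) (l 16479584)) (l 16479672))) (a (b (c (l 16470408) (b (l 16447640) (l 16448592))) (c (b (l 16471488) (l 16473048)) (l 16451080))) (b (b (a (c (l 16467240) (c (l 16449768) (l 16438160))) (a (a (a (c (l 16466160) (l 16442536)) (a (c (l 16466008) (l 16442272)) (c (l 16465944) (c (l 16448024) (l 16436152))))) (c (l 16465608) (l 16441696))) (l 1))) (a (c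 (l 16467496) (l 16444816)) (l 1))) (a (c (b (l 16468352) (l 1)) (l 172368470423)) (l 1))))) (a (b (b (c (l 16481960) (l 16462432)) (c (l 16484864) (l 16465480))) (l 1)) (l 1)))) (b (b (l 1) (l 1)) (l 1))) (l 1)) (b (l 1) (l 1))), by decide +kernel⟩

def k3_pp_022_a : ∃ t, chk3 f_pp_022_a t 3 1 1 = true :=
  ⟨(l 1), by decide +kernel⟩

theorem s4_pp_022_a : ∃ t, chk3 f_pp_022_a t 4 1 1 = true := ex3_a k0_pp_022_a k1_pp_022_a

theorem s5_pp_022_a : ∃ t, chk3 f_pp_022_a t 2 1 1 = true := ex3_a s4_pp_022_a k2_pp_022_a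

theorem s6_pp_022_a : ∃ t, chk3 f_pp_022_a t 1 1 1 = true := ex3_a s5_pp_022_a k3_pp_022_a

theorem c_pp_022_a : CertB 0 536870912 0 536870912 587336777 62277027 3 eng mog cd0q0 cd4q2a pd2 false true true .pp 0 2 2
    ndB0q0 ndB4q2a pcB2 cut_pp_022_a Ext.none :=
  certB2 (fam := false) (s1 := true) (s2 := true) (a := 0) (b := 2) (c := 2) (cn := .pp) (n1 := ndB0q0) (n2 := ndB4q2a) (pc := pcB2) (cut := cut_pp_022_a) (xt := Ext.none) (P1 := 0) (W1 := 536870912) (P2 := 0) (W2 := 536870912) (P3 := 587336777) (W3 := 62277027) (N0 := 3) (En := eng) (mo := mog) (C1 := cd0q0) (C2 := cd4q2a) (C3 := pd2)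
    rfl (fun _ => rfl) s6_pp_022_a

noncomputable def cut_pp_022_b : Cut := Cut.of [[⟨0, 0, 0, 67108864⟩, ⟨1, 1, 0, 67108864⟩, ⟨2, 1, 0, 67108864⟩]]

noncomputable def f_pp_022_b : ℕ → ℕ → ℕ → ℕ → Bool := onCell 0 536870912 1073741824 536870912 587336777 62277027
    (rowB 3 eng mog cd0q0 cd4q2b pd2 1 false true true .pp 0 2 2 (qsf 0 536870912 1239849684 370763052 2) ndB0q0 ndB4q2b pcB2 cut_pp_022_b Ext.none)

def k0_pp_022_b : ∃ t, chk3 f_pp_022_b t 2 4 1 = true :=
  ⟨(a (b (a (l 1) (b (a (l 1) (a (l 1) (a (l 1) (b (l 1) (l 16608408))))) (a (b (l 1) (a (l 1) (l 38687933655))) (b (a (c (l 16582168) (l 16576280)) (l 16605464)) (a (l 16592816) (l 16536712)))))) (a (b (a (l 1) (a (l 1) (b (l 1) (l 53183396023)))) (a (a (l 1) (b (l 1) (c (l 80563731543) (l 76268717831)))) (b (a (l 65531361719) (l 42445872727)) (a (c (l 16501488) (l 16484056)) (l 16481728))))) (b (a (a (b (l 46740972535) (l 16564976)) (b (l 16558304) (l 16510520))) (b (a (l 16524024) (l 16511144)) (l 16513560))) (a (b (a (l 16496368) (l 16485104))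 (a (l 16471224) (l 16461168))) (b (l 16468952) (l 16446760)))))) (b (a (a (b (b (c (a (l 59089038103) (l 16591432)) (a (l 16636632) (l 16584608))) (a (l 10233787255) (l 16579760))) (b (a (l 16548384) (l 16533504)) (l 16558040))) (b (b (a (l 16588520) (l 16549792)) (a (l 16542608) (l 16526360))) (b (l 16532288) (l 16489144)))) (a (b (c (l 16554448) (l 16553216)) (a (l 16478640) (l 16484800))) (b (l 16548288) (l 16440968)))) (a (b (a (b (l 16492416) (l 16469864)) (l 16499736)) (a (b (l 16448504) (l 16428544)) (l 16420144))) (a (b (l 16434456) (l 16402008)) (b (l 16410184) (l 16382664)))))), by decide +kernel⟩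

def k1_pp_022_b : ∃ t, chk3 f_pp_022_b t 4 10 1 = true :=
  ⟨(a (b (b (a (a (c (l 76805589079) (b (l 1) (l 93448505367))) (b (l 54793818055) (l 39224532039))) (a (c (l 16476856) (l 16456392)) (l 16456944))) (b (a (a (c (l 16498472) (l 98817188359)) (c (l 16468432) (l 16446176))) (a (l 16448232) (l 16439464))) (a (b (a (c (l 16468304) (a (l 16447584) (l 16443016))) (l 16448040)) (b (a (c (l 16474408) (c (l 16446040) (l 105796450727))) (l 16438344)) (b (a (b (b (c (l 16462360) (l 110628279415)) (b (c (l 16462144) (a (l 16439952) (l 16435664))) (c (a (l 16464024) (l 16460064)) (a (c (l 16445760) (l 16433664)) (l 16435448))))) (c (l 16461568) (a (l 16439168) (l 16434928)))) (c (l 16454040) (c (l 16435272) (l 16422696)))) (a (c (l 16460448) (a (l 16437888) (l 16433672))) (l 16440032))))) (b (a (l 16439472) (l 16431216)) (b (a (l 16435336) (l 16427400)) (a (c (l 16445560) (l 16419944)) (l 16425152))))))) (a (a (b (c (b (l 16453760) (a (l 16443912) (l 16440424))) (b (c (l 16434656) (l 16421880)) (b (l 16418472) (l 16412080))))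 (c (a (l 16428456) (l 16425648)) (a (l 16398248) (l 16395328)))) (b (c (l 16440664) (l 16435000)) (c (l 16421400) (l 16390920)))) (b (c (l 16450912) (l 16402840)) (l 16450272)))) (b (b (a (a (l 16447680) (l 16438816)) (l 16426104)) (a (b (l 16427056) (b (l 16419536) (b (l 16416152) (l 16414288)))) (b (l 16411672) (b (l 16405064) (l 16423048))))) (a (b (l 16403040) (l 16387344)) (l 16447272)))), by decide +kernel⟩

def k2_pp_022_b : ∃ t, chk3 f_pp_022_b t 4 11 1 = true :=
  ⟨(a (a (c (a (b (b (a (c (l 16419032) (l 16401904)) (l 16408648)) (b (l 16419104) (l 16391264))) (b (l 16403048) (l 16371880))) (b (l 16398832) (l 16376928))) (a (b (b (a (l 16375536) (l 16373648)) (l 16355120)) (b (l 16338288) (l 16324024))) (b (l 16361632) (l 16331424)))) (b (a (l 16377520) (l 16374656)) (a (l 16354992) (l 16355592)))) (a (b (l 16371040) (l 16356840)) (l 16403896))), by decide +kernel⟩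

def k3_pp_022_b : ∃ t, chk3 f_pp_022_b t 5 5 1 = true :=
  ⟨(b (a (b (b (a (l 16410216) (l 16395480)) (b (l 16391064) (b (l 16385912) (a (l 16390016) (l 16378736))))) (a (l 16374984) (l 16366056))) (b (b (a (l 16380704) (l 16364112)) (b (l 16405472) (a (l 16390160) (l 16395096)))) (a (l 16355120) (l 16336792)))) (a (a (b (l 16363952) (l 16359096)) (l 16355808)) (a (l 16346504) (l 16330952)))), by decide +kernel⟩

def k4_pp_022_b : ∃ t, chk3 f_pp_022_b t 3 2 1 = true :=
  ⟨(b (a (b (a (a (b (b (l 16477416) (l 16429912)) (l 16408680)) (b (c (l 16500056) (l 16498736)) (l 16373440))) (a (b (c (l 16475232) (l 16472992)) (l 16363464)) (b (b (a (l 16384472) (l 16374248)) (l 16402120)) (l 16335480)))) (a (b (a (l 16383704) (l 16351768)) (a (l 16358976) (l 16324264))) (b (l 16406336) (l 16308680)))) (b (a (a (b (b (a (l 16368416) (l 16366432)) (l 16355608)) (l 16337864)) (b (b (c (l 16372592) (l 16356400)) (l 16355400)) (l 16341472))) (b (a (b (b (l 16409416) (l 16364040)) (l 16358816)) (b (a (l 16371608) (l 16378640))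 (l 16370096))) (a (l 16348296) (l 16363000)))) (a (b (l 16380368) (l 16338008)) (b (l 16363376) (l 2))))) (a (b (b (a (b (a (l 16338832) (l 16300656)) (b (l 16309928) (b (l 16305096) (l 16378640)))) (b (l 16240720) (b (l 16227784) (l 16282144)))) (a (l 16385488) (l 16197632))) (a (l 16399128) (l 16207800))) (b (b (a (b (l 16280344) (l 2)) (l 2)) (l 2)) (l 2)))), by decide +kernel⟩

def k5_pp_022_b : ∃ t, chk3 f_pp_022_b t 1 3 1 = true :=
  ⟨(a (a (b (a (b (a (b (a (b (c (l 16364136) (a (l 16311480) (l 16313048))) (c (l 16359448) (l 16303224))) (b (l 16341624) (l 16336368))) (a (a (b (l 16326248) (l 16324328)) (l 16286368)) (l 16332984))) (b (a (l 16342272) (l 16345656)) (l 16341464))) (a (a (b (b (l 16326632) (l 16331168)) (b (l 16341520) (l 16353888))) (b (l 16336672) (l 16354152))) (b (b (l 16344112) (l 16348080)) (l 16358944)))) (b (a (b (l 16350536) (l 16349928)) (b (l 16355168) (l 16352432))) (a (b (l 16350376) (l 16362104)) (l 16356760)))) (a (b (b (a (a (l 16369120) (l 16372552)) (l 16376720)) (a (l 16394024)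 (l 16402136))) (b (a (l 16426200) (l 16434328)) (l 16466592))) (b (b (l 16383400) (l 16412744)) (l 16462504)))) (b (a (b (a (l 16352088) (l 16348160)) (l 16356976)) (b (l 16337112) (l 16371072))) (b (a (l 16409464) (l 2)) (l 2)))) (b (a (b (a (l 16304088) (l 2)) (l 2)) (l 2)) (l 2))), by decide +kernel⟩

theorem s6_pp_022_b : ∃ t, chk3 f_pp_022_b t 4 5 1 = true := ex3_b k1_pp_022_b k2_pp_022_b

theorem s7_pp_022_b : ∃ t, chk3 f_pp_022_b t 2 5 1 = true := ex3_a s6_pp_022_b k3_pp_022_b

theorem s8_pp_022_b : ∃ t, chk3 f_pp_022_b t 2 2 1 = true := ex3_b k0_pp_022_b s7_pp_022_b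

theorem s9_pp_022_b : ∃ t, chk3 f_pp_022_b t 1 2 1 = true := ex3_a s8_pp_022_b k4_pp_022_b

theorem s10_pp_022_b : ∃ t, chk3 f_pp_022_b t 1 1 1 = true := ex3_b s9_pp_022_b k5_pp_022_b

theorem c_pp_022_b : CertB 0 536870912 1239849684 370763052 587336777 62277027 3 eng mog cd0q0 cd4q2b pd2 false true true .pp 0 2 2
    ndB0q0 ndB4q2b pcB2 cut_pp_022_b Ext.none :=
  certB1 (fam := false) (s1 := true) (s2 := true) (a := 0) (b := 2) (c := 2) (cn := .pp) (n1 := ndB0q0) (n2 := ndB4q2b) (pc := pcB2) (cut := cut_pp_022_b) (xt := Ext.none) (P1 := 0) (W1 := 536870912) (P2 := 1239849684) (W2 := 370763052) (P3 := 587336777) (W3 := 62277027) (N0 := 3) (En := eng) (mo := mog) (C1 := cd0q0) (C2 := cd4q2b) (C3 := pd2)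
    rfl (fun _ => rfl) s10_pp_022_b

noncomputable def f_pp_023 : ℕ → ℕ → ℕ → ℕ → Bool := onCell 0 536870912 1073741824 536870912 587336777 62277027
    (rowB 3 eng mog cd0q0 cd4q3 pd2 1 false true true .up 0 2 3 (qsf 0 536870912 1610612736 536870912 2) ndB0q0 ndB4q3 pcB2 Cut.none Ext.none)

def k0_pp_023 : ∃ t, chk3 f_pp_023 t 1 1 1 = true :=
  ⟨(b (a (b (l 1) (a (l 1) (b (l 1) (a (l 1) (l 309270353895))))) (b (a (b (l 1) (a (l 1) (b (l 1) (l 16424568)))) (b (b (a (l 1) (a (l 327524100103) (a (l 194380254103) (b (l 263636619495) (l 16446640))))) (a (l 297459445799) (a (l 16413088) (l 16435728)))) (a (b (l 53183152279) (l 16360944)) (b (l 16436056) (l 16406664))))) (a (b (b (a (l 1) (b (l 16300184) (b (l 16290496) (l 16284512)))) (a (l 16244784) (l 16268288))) (a (l 16240800) (l 16227904))) (b (a (b (b (l 16349416) (b (l 16343736) (l 16340816))) (l 16331496)) (b (b (l 16400312) (l 16408632)) (l 16433296))) (a (l 16355008) (l 16489896)))))) (a (a (b (a (l 1) (b (l 1) (l 302828008807))) (a (b (l 335040226791) (l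 267394719815)) (b (l 190085289047) (l 16401080)))) (b (a (b (l 16341632) (l 16314952)) (b (l 16295056) (l 16339752))) (b (a (l 16357496) (l 16358512)) (a (l 16416392) (l 16480496))))) (b (a (b (a (l 16242120) (l 16307216)) (a (l 16292288) (l 16435392))) (b (a (l 16456488) (l 16550576)) (a (l 16538168) (l 16602168)))) (a (a (l 16568776) (l 16579240)) (a (l 16633288) (l 16667216)))))), by decide +kernel⟩

theorem c_pp_023 : CertB 0 536870912 1610612736 536870912 587336777 62277027 3 eng mog cd0q0 cd4q3 pd2 false true true .up 0 2 3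
    ndB0q0 ndB4q3 pcB2 Cut.none Ext.none :=
  certB1 (fam := false) (s1 := true) (s2 := true) (a := 0) (b := 2) (c := 3) (cn := .up) (n1 := ndB0q0) (n2 := ndB4q3) (pc := pcB2) (cut := Cut.none) (xt := Ext.none) (P1 := 0) (W1 := 536870912) (P2 := 1610612736) (W2 := 536870912) (P3 := 587336777) (W3 := 62277027) (N0 := 3) (En := eng) (mo := mog) (C1 := cd0q0) (C2 := cd4q3) (C3 := pd2)
    rfl (fun _ => rfl) k0_pp_023

noncomputable def f_pp_033 : ℕ → ℕ → ℕ → ℕ → Bool := onCell 0 536870912 1610612736 536870912 587336777 62277027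
    (rowB 3 eng mog cd0q0 cd4q3 pd3 1 false true true .pnn 0 3 3 (qsf 0 536870912 1610612736 536870912 3) ndB0q0 ndB4q3 pcB3 Cut.none Ext.none)

def k0_pp_033 : ∃ t, chk3 f_pp_033 t 1 1 1 = true :=
  ⟨(a (b (b (b (a (b (a (b (l 16448720) (l 16361784)) (l 16422920)) (a (l 16344528) (l 16397024))) (b (a (l 16472216) (l 16529192)) (l 16494160))) (a (a (b (l 16375128) (l 16404840)) (l 16439760)) (a (l 16494224) (l 16551680)))) (b (a (a (b (l 16422160) (l 16441552)) (b (l 16466440) (l 16485616))) (a (l 16526432) (l 16574736))) (a (a (l 16479744) (l 16516320)) (l 16575632)))) (b (b (a (b (l 16522968) (l 4)) (l 4)) (l 4)) (a (l 4) (a (b (l 4) (l 2)) (l 2))))) (b (a (b (b (b (l 16801720) (l 16614712)) (a (l 16605784) (l 16649192))) (b (l 16749632) (l 16702296))) (b (b (a (l 16903312) (l 16699648)) (b (l 16698256) (l 16707392))) (a (b (l 16704952) (l 2)) (l 2)))) (a (b (a (b (l 4) (l 2)) (l 2)) (l 2)) (l 2)))), by decide +kernel⟩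

theorem c_pp_033 : CertB 0 536870912 1610612736 536870912 587336777 62277027 3 eng mog cd0q0 cd4q3 pd3 false true true .pnn 0 3 3
    ndB0q0 ndB4q3 pcB3 Cut.none Ext.none :=
  certB1 (fam := false) (s1 := true) (s2 := true) (a := 0) (b := 3) (c := 3) (cn := .pnn) (n1 := ndB0q0) (n2 := ndB4q3) (pc := pcB3) (cut := Cut.none) (xt := Ext.none) (P1 := 0) (W1 := 536870912) (P2 := 1610612736) (W2 := 536870912) (P3 := 587336777) (W3 := 62277027) (N0 := 3) (En := eng) (mo := mog) (C1 := cd0q0) (C2 := cd4q3) (C3 := pd3)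
    rfl (fun _ => rfl) k0_pp_033

noncomputable def f_pp_101 : ℕ → ℕ → ℕ → ℕ → Bool := onCell 536870912 536870912 536870912 536870912 587336777 62277027
    (rowB 3 eng mog cd0q1 cd4q1 pd0 0 false true true .npn 1 0 1 (qsf 536870912 536870912 536870912 536870912 0) ndB0q1 ndB4q1 pcB0 Cut.none Ext.none)

def k0_pp_101 : ∃ t, chk3 f_pp_101 t 1 1 1 = true :=
  ⟨(l 3), by decide +kernel⟩

theorem c_pp_101 : CertB 536870912 536870912 536870912 536870912 587336777 62277027 3 eng mog cd0q1 cd4q1 pd0 false true true .npn 1 0 1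
    ndB0q1 ndB4q1 pcB0 Cut.none Ext.none :=
  certB0 (fam := false) (s1 := true) (s2 := true) (a := 1) (b := 0) (c := 1) (cn := .npn) (n1 := ndB0q1) (n2 := ndB4q1) (pc := pcB0) (cut := Cut.none) (xt := Ext.none) (P1 := 536870912) (W1 := 536870912) (P2 := 536870912) (W2 := 536870912) (P3 := 587336777) (W3 := 62277027) (N0 := 3) (En := eng) (mo := mog) (C1 := cd0q1) (C2 := cd4q1) (C3 := pd0)
    rfl k0_pp_101

noncomputable def f_pp_102_a : ℕ → ℕ → ℕ → ℕ → Bool := onCell 536870912 536870912 0 536870912 587336777 62277027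
    (rowB 3 eng mog cd0q1 cd4q2a pd0 0 false true true .npp 1 0 2 (qsf 536870912 536870912 0 536870912 0) ndB0q1 ndB4q2a pcB0 Cut.none Ext.none)

def k0_pp_102_a : ∃ t, chk3 f_pp_102_a t 1 1 1 = true :=
  ⟨(l 3), by decide +kernel⟩

theorem c_pp_102_a : CertB 536870912 536870912 0 536870912 587336777 62277027 3 eng mog cd0q1 cd4q2a pd0 false true true .npp 1 0 2
    ndB0q1 ndB4q2a pcB0 Cut.none Ext.none :=
  certB0 (fam := false) (s1 := true) (s2 := true) (a := 1) (b := 0) (c := 2) (cn := .npp) (n1 := ndB0q1) (n2 := ndB4q2a) (pc := pcB0) (cut := Cut.none) (xt := Ext.none) (P1 := 536870912) (W1 := 536870912) (P2 := 0) (W2 := 536870912) (P3 := 587336777) (W3 := 62277027) (N0 := 3) (En := eng) (mo := mog) (C1 := cd0q1) (C2 := cd4q2a) (C3 := pd0)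
    rfl k0_pp_102_a

noncomputable def f_pp_102_b : ℕ → ℕ → ℕ → ℕ → Bool := onCell 536870912 536870912 0 536870912 587336777 62277027
    (rowB 3 eng mog cd0q1 cd4q2b pd0 1 false true true .npp 1 0 2 (qsf 536870912 536870912 1239849684 370763052 0) ndB0q1 ndB4q2b pcB0 Cut.none Ext.none)

def k0_pp_102_b : ∃ t, chk3 f_pp_102_b t 1 1 1 = true :=
  ⟨(l 3), by decide +kernel⟩

theorem c_pp_102_b : CertB 536870912 536870912 1239849684 370763052 587336777 62277027 3 eng mog cd0q1 cd4q2b pd0 false true true .npp 1 0 2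
    ndB0q1 ndB4q2b pcB0 Cut.none Ext.none :=
  certB1 (fam := false) (s1 := true) (s2 := true) (a := 1) (b := 0) (c := 2) (cn := .npp) (n1 := ndB0q1) (n2 := ndB4q2b) (pc := pcB0) (cut := Cut.none) (xt := Ext.none) (P1 := 536870912) (W1 := 536870912) (P2 := 1239849684) (W2 := 370763052) (P3 := 587336777) (W3 := 62277027) (N0 := 3) (En := eng) (mo := mog) (C1 := cd0q1) (C2 := cd4q2b) (C3 := pd0)
    rfl (fun _ => rfl) k0_pp_102_b

noncomputable def f_pp_112_a : ℕ → ℕ → ℕ → ℕ → Bool := onCell 536870912 536870912 0 536870912 587336777 62277027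
    (rowB 3 eng mog cd0q1 cd4q2a pd1 0 false true true .dn 1 1 2 (qsf 536870912 536870912 0 536870912 1) ndB0q1 ndB4q2a pcB1 Cut.none Ext.none)

def k0_pp_112_a : ∃ t, chk3 f_pp_112_a t 1 1 1 = true :=
  ⟨(l 3), by decide +kernel⟩

theorem c_pp_112_a : CertB 536870912 536870912 0 536870912 587336777 62277027 3 eng mog cd0q1 cd4q2a pd1 false true true .dn 1 1 2
    ndB0q1 ndB4q2a pcB1 Cut.none Ext.none :=
  certB0 (fam := false) (s1 := true) (s2 := true) (a := 1) (b := 1) (c := 2) (cn := .dn) (n1 := ndB0q1) (n2 := ndB4q2a) (pc := pcB1) (cut := Cut.none) (xt := Ext.none) (P1 := 536870912) (W1 := 536870912) (P2 := 0) (W2 := 536870912) (P3 := 587336777) (W3 := 62277027) (N0 := 3) (En := eng) (mo := mog) (C1 := cd0q1) (C2 := cd4q2a) (C3 := pd1)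
    rfl k0_pp_112_a

noncomputable def xt_pp_112_b : Ext := extD2 3 ⟨7, 3, 3, 10, 1815, 1000, 17, 20, 37, 100, 3, 16⟩ eng cd0q1 cd4q2b pd1 false true true .dn 1 1 2 rfl ndB0q1 ndB4q2b pcB1

noncomputable def f_pp_112_b : ℕ → ℕ → ℕ → ℕ → Bool := onCell 536870912 536870912 536870912 536870912 587336777 62277027
    (rowB 3 eng mog cd0q1 cd4q2b pd1 1 false true true .dn 1 1 2 (qsf 536870912 536870912 1239849684 370763052 1) ndB0q1 ndB4q2b pcB1 Cut.none xt_pp_112_b)

def k0_pp_112_b : ∃ t, chk3 f_pp_112_b t 1 1 1 = true :=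
  ⟨(b (l 3) (a (b (l 3) (b (l 3) (a (a (b (b (a (a (b (l 3) (b (l 3) (a (c (l 1491814461545589115145961487) (l 141129841509023759)) (c (l 2700740281160269966913699855) (l 141163239181664271))))) (l 3)) (l 3)) (b (a (a (a (c (l 140949727847907343) (l 141073010485706767)) (c (b (l 2371912458224884672955334671) (l 140768239674540047)) (l 2816797159842855453629415439))) (a (c (b (l 2139798700858896281113460751) (l 140789817604046863)) (l 2787782940172123938496184335)) (c (c (l 2197827140200421433823248399) (l 1549842900887036271234662415)) (a (l 141135201635909647) (l 140892072133033999))))) (a (b (c (l 1723928218911641484919095311) (l 1752942438582200376656281615)) (l 141220276492599311)) (c (b (l 1453128835317994992478011407) (l 2)) (l 1868999317265323937039613967)))) (a (a (a (l 140797101797294095) (l 140812082653052943)) (a (l 140832835946692623) (l 141005596724789263))) (a (l 141157879108976655) (l 2))))) (a (b (a (b (l 140893927525531663) (l 140800262859456527)) (c (b (l 140866371079962639) (l 16449824)) (l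 140619393191034895))) (a (l 140835996958392335) (b (l 16441264) (l 2)))) (b (c (a (l 140804179982909455) (l 2)) (l 141146540340871183)) (l 2)))) (b (b (l 3) (l 2)) (l 2))) (l 2)))) (b (l 3) (l 2)))), by decide +kernel⟩

theorem c_pp_112_b : CertB 536870912 536870912 1239849684 370763052 587336777 62277027 3 eng mog cd0q1 cd4q2b pd1 false true true .dn 1 1 2
    ndB0q1 ndB4q2b pcB1 Cut.none xt_pp_112_b :=
  certB1 (fam := false) (s1 := true) (s2 := true) (a := 1) (b := 1) (c := 2) (cn := .dn) (n1 := ndB0q1) (n2 := ndB4q2b) (pc := pcB1) (cut := Cut.none) (xt := xt_pp_112_b) (P1 := 536870912) (W1 := 536870912) (P2 := 1239849684) (W2 := 370763052) (P3 := 587336777) (W3 := 62277027) (N0 := 3) (En := eng) (mo := mog) (C1 := cd0q1) (C2 := cd4q2b) (C3 := pd1)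
    rfl (fun _ => rfl) k0_pp_112_b

noncomputable def cut_pp_113 : Cut := Cut.of [[⟨0, 1, 0, 67108864⟩, ⟨1, 1, 0, 67108864⟩, ⟨2, 2, 0, 16777216⟩]]

noncomputable def xt_pp_113 : Ext := extD2 3 ⟨7, 3, 3, 10, 1815, 1000, 17, 20, 37, 100, 3, 16⟩ eng cd0q1 cd4q3 pd1 false true true .nn 1 1 3 rfl ndB0q1 ndB4q3 pcB1

noncomputable def f_pp_113 : ℕ → ℕ → ℕ → ℕ → Bool := onCell 536870912 536870912 536870912 536870912 587336777 62277027
    (rowB 3 eng mog cd0q1 cd4q3 pd1 1 false true true .nn 1 1 3 (qsf 536870912 536870912 1610612736 536870912 1) ndB0q1 ndB4q3 pcB1 cut_pp_113 xt_pp_113)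

def k0_pp_113 : ∃ t, chk3 f_pp_113 t 1 2 1 = true :=
  ⟨(l 3), by decide +kernel⟩

def k1_pp_113 : ∃ t, chk3 f_pp_113 t 1 6 1 = true :=
  ⟨(a (l 3) (l 3)), by decide +kernel⟩

def k2_pp_113 : ∃ t, chk3 f_pp_113 t 1 14 1 = true :=
  ⟨(a (l 3) (l 3)), by decide +kernel⟩

def k3_pp_113 : ∃ t, chk3 f_pp_113 t 1 30 1 = true :=
  ⟨(a (b (a (a (a (l 1) (l 3)) (l 3)) (l 3)) (b (a (a (a (l 1) (a (b (l 1491814461546261947819802639) (l 141758762386554895)) (c (l 142146271708004367) (l 141796420695277583)))) (a (a (l 1472471648432810167478583311) (l 1192000858282471904106414095)) (a (l 2120455887746826793291694095) (l 3)))) (a (l 3) (l 3))) (a (a (a (a (l 1) (a (l 1) (l 141560369215766543))) (l 141774430502977551)) (a (a (l 142097412056989711) (l 142358339972087823)) (a (l 142694240797376527) (l 1356414769750622016704462927)))) (a (a (a (c (l 1665899779572480282608828495) (a (l 1868999317267224718098006159) (l 143167236986617935))) (c (l 1375757582865231926568059087) (b (l 1037258353372756357313151055) (l 143367691820613711))))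 (b (l 3) (a (l 1636885559902016567266623695) (l 1298386330410119341278806223)))) (a (a (l 58149787783) (l 3)) (l 3)))))) (a (l 3) (l 3))), by decide +kernel⟩

def k4_pp_113 : ∃ t, chk3 f_pp_113 t 1 31 1 = true :=
  ⟨(a (a (a (a (a (b (c (l 168073636807) (l 169684210231)) (l 141246046226366479)) (b (a (l 141346514161336335) (l 141403757504479247)) (a (l 16489096) (l 16498976)))) (b (a (l 141529514178756623) (l 141725777052925967)) (a (l 141324386510405647) (l 141528689566367759)))) (b (a (a (l 141956949428977679) (l 142238905506938895)) (b (l 142607860393541647) (l 142721316240359439))) (a (l 141906371860742159) (l 142444651613257743)))) (a (a (b (b (a (l 143243928037818447) (l 143524715866275919)) (a (l 16698560) (l 16721304))) (a (l 143092882605949007) (l 16714800))) (b (a (b (l 143761798100648143) (l 16740568)) (b (l 143959297910407375) (l 16756872))) (a (l 16733936) (l 16750072)))) (b (a (b (a (l 16775744) (l 16788576)) (l 16777704)) (a (b (l 102173283431) (l 16795088)) (b (l 112910730231) (l 16806632)))) (a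 (a (l 16764096) (l 16776472)) (a (l 16787544) (l 16798608)))))) (a (a (b (a (b (b (l 3) (a (l 118816330503) (l 150491741111))) (a (l 16818528) (l 16829672))) (b (l 3) (a (l 131164403783) (c (l 16858680) (l 139217490439))))) (a (a (l 16809568) (l 16820024)) (a (l 16829760) (l 16838408)))) (b (b (l 3) (a (a (l 150491806727) (l 160692372167)) (a (l 173040391063) (l 3)))) (a (b (a (l 16849584) (l 16855816)) (l 16845224)) (b (a (l 16860432) (l 146733731719)) (l 16853256))))) (a (b (l 3) (a (b (a (l 155323673143) (l 163376739271)) (a (l 16853736) (l 16851120))) (b (a (l 179482858567) (b (l 3) (l 112910793591))) (a (l 16845840) (l 151028654935))))) (b (l 3) (a (b (l 3) (a (l 105394577623) (b (a (l 125795657991) (l 342154600359)) (l 16813888)))) (b (l 3) (b (l 3) (a (a (l 116131944119) (b (a (l 154249766631) (l 494625922967)) (l 16796112))) (a (b (l 3) (a (l 119890013191) (l 6))) (l 6)))))))))), by decide +kernel⟩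

theorem s5_pp_113 : ∃ t, chk3 f_pp_113 t 1 15 1 = true := ex3_b k3_pp_113 k4_pp_113

theorem s6_pp_113 : ∃ t, chk3 f_pp_113 t 1 7 1 = true := ex3_b k2_pp_113 s5_pp_113

theorem s7_pp_113 : ∃ t, chk3 f_pp_113 t 1 3 1 = true := ex3_b k1_pp_113 s6_pp_113

theorem s8_pp_113 : ∃ t, chk3 f_pp_113 t 1 1 1 = true := ex3_b k0_pp_113 s7_pp_113

theorem c_pp_113 : CertB 536870912 536870912 1610612736 536870912 587336777 62277027 3 eng mog cd0q1 cd4q3 pd1 false true true .nn 1 1 3
    ndB0q1 ndB4q3 pcB1 cut_pp_113 xt_pp_113 :=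
  certB1 (fam := false) (s1 := true) (s2 := true) (a := 1) (b := 1) (c := 3) (cn := .nn) (n1 := ndB0q1) (n2 := ndB4q3) (pc := pcB1) (cut := cut_pp_113) (xt := xt_pp_113) (P1 := 536870912) (W1 := 536870912) (P2 := 1610612736) (W2 := 536870912) (P3 := 587336777) (W3 := 62277027) (N0 := 3) (En := eng) (mo := mog) (C1 := cd0q1) (C2 := cd4q3) (C3 := pd1)
    rfl (fun _ => rfl) s8_pp_113

noncomputable def cut_pp_123 : Cut := Cut.of [[⟨0, 1, 0, 67108864⟩, ⟨1, 1, 0, 67108864⟩, ⟨2, 2, 0, 16777216⟩]]

noncomputable def xt_pp_123 : Ext := extD2 3 ⟨7, 3, 3, 10, 1815, 1000, 17, 20, 37, 100, 3, 16⟩ eng cd0q1 cd4q3 pd2 false true true .npn 1 2 3 rfl ndB0q1 ndB4q3 pcB2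

noncomputable def f_pp_123 : ℕ → ℕ → ℕ → ℕ → Bool := onCell 536870912 536870912 1073741824 536870912 587336777 62277027
    (rowB 3 eng mog cd0q1 cd4q3 pd2 1 false true true .npn 1 2 3 (qsf 536870912 536870912 1610612736 536870912 2) ndB0q1 ndB4q3 pcB2 cut_pp_123 xt_pp_123)

def k0_pp_123 : ∃ t, chk3 f_pp_123 t 2 1 1 = true :=
  ⟨(b (b (a (b (a (b (b (a (a (l 140916536310464527) (l 16482768)) (l 141286796961939471)) (a (l 16471824) (l 16518288))) (a (l 16469736) (l 16519400))) (b (b (a (l 16580224) (l 16581632)) (l 16573768)) (a (l 16588056) (l 16642936)))) (a (b (l 16498392) (l 16516112)) (b (l 16619080) (l 16620216)))) (a (c (b (b (a (l 16718920) (l 16751752)) (l 16724592)) (l 16706648)) (b (b (a (l 16668176) (l 16707104)) (l 16679832)) (l 16664296))) (b (b (a (l 16755080) (b (l 16780704) (l 16769344))) (l 16744752)) (l 16820088)))) (a (b (b (a (b (l 16528360) (b (l 16534216) (l 16539296))) (b (l 16620568) (l 16622328))) (a (l 16548488) (l 16621608))) (a (l 16578128) (l 16632768))) (b (b (a (b (l 16670896)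 (l 16667464)) (b (l 16692768) (l 16686560))) (a (l 16660104) (l 16675528))) (a (l 16660840) (l 16671176))))) (a (b (b (a (l 16611720) (l 16649664)) (a (l 16644304) (l 16670080))) (b (l 16707720) (a (l 16701184) (l 16704456)))) (b (b (a (l 16669424) (l 16673936)) (a (l 16681168) (l 16690504))) (a (b (l 16765920) (l 2)) (l 2))))), by decide +kernel⟩

def k1_pp_123 : ∃ t, chk3 f_pp_123 t 3 1 1 = true :=
  ⟨(b (a (b (a (b (b (a (l 16793608) (l 16810880)) (l 16774704)) (l 16986832)) (b (b (a (l 16823648) (b (l 16839088) (l 16821616))) (l 16815184)) (b (l 16760816) (l 16730744)))) (b (a (b (b (l 16706000) (l 16697672)) (l 16684712)) (b (b (l 16712528) (l 16807376)) (l 16682928))) (a (l 16674368) (a (l 16669192) (l 2))))) (b (b (a (b (a (b (l 16838080) (l 16819904)) (b (a (l 16830792) (l 16822928)) (l 16808672))) (a (l 16792112) (l 16780096))) (b (a (b (b (c (l 16802488) (l 16811648)) (l 16803056)) (l 16788992)) (b (b (a (b (l 16795568) (l 16770112)) (a (a (a (l 16796184) (l 6)) (l 6)) (l 6))) (a (l 16784232) (l 16770576)))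 (l 16779000))) (a (l 16759152) (l 16732664)))) (a (b (l 16746232) (l 16869224)) (b (l 138613367495) (l 2)))) (a (b (b (b (l 16665344) (l 2)) (l 2)) (l 2)) (l 2)))) (a (b (a (b (a (l 16669928) (l 2)) (l 2)) (l 2)) (l 2)) (l 2))), by decide +kernel⟩

theorem s2_pp_123 : ∃ t, chk3 f_pp_123 t 1 1 1 = true := ex3_a k0_pp_123 k1_pp_123

theorem c_pp_123 : CertB 536870912 536870912 1610612736 536870912 587336777 62277027 3 eng mog cd0q1 cd4q3 pd2 false true true .npn 1 2 3
    ndB0q1 ndB4q3 pcB2 cut_pp_123 xt_pp_123 :=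
  certB1 (fam := false) (s1 := true) (s2 := true) (a := 1) (b := 2) (c := 3) (cn := .npn) (n1 := ndB0q1) (n2 := ndB4q3) (pc := pcB2) (cut := cut_pp_123) (xt := xt_pp_123) (P1 := 536870912) (W1 := 536870912) (P2 := 1610612736) (W2 := 536870912) (P3 := 587336777) (W3 := 62277027) (N0 := 3) (En := eng) (mo := mog) (C1 := cd0q1) (C2 := cd4q3) (C3 := pd2)
    rfl (fun _ => rfl) s2_pp_123

noncomputable def f_pp_133 : ℕ → ℕ → ℕ → ℕ → Bool := onCell 536870912 536870912 1610612736 536870912 587336777 62277027
    (rowB 3 eng mog cd0q1 cd4q3 pd3 1 false true true .dn 1 3 3 (qsf 536870912 536870912 1610612736 536870912 3) ndB0q1 ndB4q3 pcB3 Cut.none Ext.none)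

def k0_pp_133 : ∃ t, chk3 f_pp_133 t 1 1 1 = true :=
  ⟨(a (b (a (b (a (b (l 16713544) (l 2)) (l 2)) (l 2)) (l 2)) (l 2)) (l 2)), by decide +kernel⟩

theorem c_pp_133 : CertB 536870912 536870912 1610612736 536870912 587336777 62277027 3 eng mog cd0q1 cd4q3 pd3 false true true .dn 1 3 3
    ndB0q1 ndB4q3 pcB3 Cut.none Ext.none :=
  certB1 (fam := false) (s1 := true) (s2 := true) (a := 1) (b := 3) (c := 3) (cn := .dn) (n1 := ndB0q1) (n2 := ndB4q3) (pc := pcB3) (cut := Cut.none) (xt := Ext.none) (P1 := 536870912) (W1 := 536870912) (P2 := 1610612736) (W2 := 536870912) (P3 := 587336777) (W3 := 62277027) (N0 := 3) (En := eng) (mo := mog) (C1 := cd0q1) (C2 := cd4q3) (C3 := pd3)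
    rfl (fun _ => rfl) k0_pp_133

noncomputable def f_pp_202_a : ℕ → ℕ → ℕ → ℕ → Bool := onCell 0 536870912 0 536870912 587336777 62277027
    (rowB 3 eng mog cd0q2 cd4q2a pd0 0 false true true .pp 2 0 2 (qsf 0 536870912 0 536870912 0) ndB0q2 ndB4q2a pcB0 Cut.none Ext.none)

def k0_pp_202_a : ∃ t, chk3 f_pp_202_a t 1 1 1 = true :=
  ⟨(l 3), by decide +kernel⟩

theorem c_pp_202_a : CertB 0 536870912 0 536870912 587336777 62277027 3 eng mog cd0q2 cd4q2a pd0 false true true .pp 2 0 2
    ndB0q2 ndB4q2a pcB0 Cut.none Ext.none :=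
  certB0 (fam := false) (s1 := true) (s2 := true) (a := 2) (b := 0) (c := 2) (cn := .pp) (n1 := ndB0q2) (n2 := ndB4q2a) (pc := pcB0) (cut := Cut.none) (xt := Ext.none) (P1 := 0) (W1 := 536870912) (P2 := 0) (W2 := 536870912) (P3 := 587336777) (W3 := 62277027) (N0 := 3) (En := eng) (mo := mog) (C1 := cd0q2) (C2 := cd4q2a) (C3 := pd0)
    rfl k0_pp_202_a

noncomputable def f_pp_202_b : ℕ → ℕ → ℕ → ℕ → Bool := onCell 0 536870912 1239849684 370763052 587336777 62277027
    (rowB 3 eng mog cd0q2 cd4q2b pd0 0 false true true .pp 2 0 2 (qsf 0 536870912 1239849684 370763052 0) ndB0q2 ndB4q2b pcB0 Cut.none Ext.none)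

def k0_pp_202_b : ∃ t, chk3 f_pp_202_b t 1 1 1 = true :=
  ⟨(l 3), by decide +kernel⟩

theorem c_pp_202_b : CertB 0 536870912 1239849684 370763052 587336777 62277027 3 eng mog cd0q2 cd4q2b pd0 false true true .pp 2 0 2
    ndB0q2 ndB4q2b pcB0 Cut.none Ext.none :=
  certB0 (fam := false) (s1 := true) (s2 := true) (a := 2) (b := 0) (c := 2) (cn := .pp) (n1 := ndB0q2) (n2 := ndB4q2b) (pc := pcB0) (cut := Cut.none) (xt := Ext.none) (P1 := 0) (W1 := 536870912) (P2 := 1239849684) (W2 := 370763052) (P3 := 587336777) (W3 := 62277027) (N0 := 3) (En := eng) (mo := mog) (C1 := cd0q2) (C2 := cd4q2b) (C3 := pd0)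
    rfl k0_pp_202_b

noncomputable def f_pp_203 : ℕ → ℕ → ℕ → ℕ → Bool := onCell 0 536870912 0 536870912 587336777 62277027
    (rowB 3 eng mog cd0q2 cd4q3 pd0 1 false true true .up 2 0 3 (qsf 0 536870912 1610612736 536870912 0) ndB0q2 ndB4q3 pcB0 Cut.none Ext.none)

def k0_pp_203 : ∃ t, chk3 f_pp_203 t 1 1 1 = true :=
  ⟨(l 3), by decide +kernel⟩

theorem c_pp_203 : CertB 0 536870912 1610612736 536870912 587336777 62277027 3 eng mog cd0q2 cd4q3 pd0 false true true .up 2 0 3
    ndB0q2 ndB4q3 pcB0 Cut.none Ext.none :=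
  certB1 (fam := false) (s1 := true) (s2 := true) (a := 2) (b := 0) (c := 3) (cn := .up) (n1 := ndB0q2) (n2 := ndB4q3) (pc := pcB0) (cut := Cut.none) (xt := Ext.none) (P1 := 0) (W1 := 536870912) (P2 := 1610612736) (W2 := 536870912) (P3 := 587336777) (W3 := 62277027) (N0 := 3) (En := eng) (mo := mog) (C1 := cd0q2) (C2 := cd4q3) (C3 := pd0)
    rfl (fun _ => rfl) k0_pp_203

noncomputable def cut_pp_213 : Cut := Cut.of [[⟨0, 1, 0, 67108864⟩, ⟨1, 1, 0, 67108864⟩, ⟨2, 2, 0, 16777216⟩]]

noncomputable def f_pp_213 : ℕ → ℕ → ℕ → ℕ → Bool := onCell 0 536870912 1610612736 536870912 587336777 62277027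
    (rowB 3 eng mog cd0q2 cd4q3 pd1 0 false true true .pnn 2 1 3 (qsf 0 536870912 1610612736 536870912 1) ndB0q2 ndB4q3 pcB1 cut_pp_213 Ext.none)

def k0_pp_213 : ∃ t, chk3 f_pp_213 t 1 1 1 = true :=
  ⟨(b (l 3) (a (l 3) (b (l 3) (a (l 3) (b (l 3) (a (l 3) (b (l 3) (b (l 3) (b (l 3) (l 6)))))))))), by decide +kernel⟩

theorem c_pp_213 : CertB 0 536870912 1610612736 536870912 587336777 62277027 3 eng mog cd0q2 cd4q3 pd1 false true true .pnn 2 1 3
    ndB0q2 ndB4q3 pcB1 cut_pp_213 Ext.none :=
  certB0 (fam := false) (s1 := true) (s2 := true) (a := 2) (b := 1) (c := 3) (cn := .pnn) (n1 := ndB0q2) (n2 := ndB4q3) (pc := pcB1) (cut := cut_pp_213) (xt := Ext.none) (P1 := 0) (W1 := 536870912) (P2 := 1610612736) (W2 := 536870912) (P3 := 587336777) (W3 := 62277027) (N0 := 3) (En := eng) (mo := mog) (C1 := cd0q2) (C2 := cd4q3) (C3 := pd1)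
    rfl k0_pp_213

noncomputable def f_pm_001 : ℕ → ℕ → ℕ → ℕ → Bool := onCell 0 536870912 536870912 536870912 587336777 62277027
    (rowB 3 eng mog cd0q0 cd4q1 pd0 0 false true false .up 0 0 1 (qsf 0 536870912 536870912 536870912 0) ndB0q0 ndB4q1 pcB0 Cut.none Ext.none)

def k0_pm_001 : ∃ t, chk3 f_pm_001 t 1 1 1 = true :=
  ⟨(l 4), by decide +kernel⟩

theorem c_pm_001 : CertB 0 536870912 536870912 536870912 587336777 62277027 3 eng mog cd0q0 cd4q1 pd0 false true false .up 0 0 1
    ndB0q0 ndB4q1 pcB0 Cut.none Ext.none :=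
  certB0 (fam := false) (s1 := true) (s2 := false) (a := 0) (b := 0) (c := 1) (cn := .up) (n1 := ndB0q0) (n2 := ndB4q1) (pc := pcB0) (cut := Cut.none) (xt := Ext.none) (P1 := 0) (W1 := 536870912) (P2 := 536870912) (W2 := 536870912) (P3 := 587336777) (W3 := 62277027) (N0 := 3) (En := eng) (mo := mog) (C1 := cd0q0) (C2 := cd4q1) (C3 := pd0)
    rfl k0_pm_001

noncomputable def f_pm_011 : ℕ → ℕ → ℕ → ℕ → Bool := onCell 0 536870912 536870912 536870912 587336777 62277027
    (rowB 3 eng mog cd0q0 cd4q1 pd1 0 false true false .pnn 0 1 1 (qsf 0 536870912 536870912 536870912 1) ndB0q0 ndB4q1 pcB1 Cut.none Ext.none)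

def k0_pm_011 : ∃ t, chk3 f_pm_011 t 1 1 1 = true :=
  ⟨(l 4), by decide +kernel⟩

theorem c_pm_011 : CertB 0 536870912 536870912 536870912 587336777 62277027 3 eng mog cd0q0 cd4q1 pd1 false true false .pnn 0 1 1
    ndB0q0 ndB4q1 pcB1 Cut.none Ext.none :=
  certB0 (fam := false) (s1 := true) (s2 := false) (a := 0) (b := 1) (c := 1) (cn := .pnn) (n1 := ndB0q0) (n2 := ndB4q1) (pc := pcB1) (cut := Cut.none) (xt := Ext.none) (P1 := 0) (W1 := 536870912) (P2 := 536870912) (W2 := 536870912) (P3 := 587336777) (W3 := 62277027) (N0 := 3) (En := eng) (mo := mog) (C1 := cd0q0) (C2 := cd4q1) (C3 := pd1)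
    rfl k0_pm_011

end Pool.Agent.Strip051.G.I5470_6050.Tab.C.BB04

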