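import Pool.Agent.Strip051.G.I5470_6050.Tab
import Pool.Agent.Strip051.PB.ExtD2

/-! # Certificates B27 (generated) -/

set_option linter.all false
set_option maxRecDepth 100000

namespace Pool.Agent.Strip051.G.I5470_6050.Tab.C.BB04

open Pool.Agent.Strip051.PB Pool.Agent.Strip051.PB.T
open Pool.Agent.Strip051.G.I5470_6050.Tab

noncomputable def cut_pm_012_a : Cut := Cut.of [[⟨0, 0, 0, 67108864⟩, ⟨1, 1, 0, 67108864⟩, ⟨2, 1, 0, 67108864⟩]]

noncomputable def xt_pm_012_a : Ext := extD2 3 ⟨7, 3, 3, 10, 1815, 1000, 17, 20, 37, 100, 3, 16⟩ eng cd0q0 cd4q2a pd1 false true false .pnp 0 1 2 rfl ndB0q0 ndB4q2a pcB1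

noncomputable def f_pm_012_a : ℕ → ℕ → ℕ → ℕ → Bool := onCell 0 536870912 0 536870912 587336777 62277027
    (rowB 3 eng mog cd0q0 cd4q2a pd1 0 false true false .pnp 0 1 2 (qsf 0 536870912 0 536870912 1) ndB0q0 ndB4q2a pcB1 cut_pm_012_a xt_pm_012_a)

def k0_pm_012_a : ∃ t, chk3 f_pm_012_a t 2 2 1 = true :=
  ⟨(a (a (l 2) (a (l 2) (b (l 2) (b (l 2) (a (l 2) (b (l 2) (a (l 2) (l 16407024)))))))) (a (b (a (a (l 2) (b (b (l 16345176) (l 16345208)) (b (l 16369048) (l 16353752)))) (b (a (b (l 16350072) (l 16349440)) (l 16354552)) (a (b (l 16351528) (l 16356288)) (l 16357160)))) (a (b (a (b (l 16360640) (a (l 2) (l 16372984))) (b (l 16362168) (l 16373264))) (a (b (l 16408808) (l 16405408)) (b (l 16386952) (l 16403144)))) (b (a (b (l 16363672) (l 16373616)) (l 16369872)) (a (l 16435632) (l 16392216))))) (b (a (b (a (l 16359344) (l 16364368)) (a (l 16360416) (l 16363944))) (b (l 16372368) (l 16369760))) (a (b (a (l 16371120) (l 16372664)) (b (l 16384536) (l 16396008))) (b (l 16375584) (l 16410432)))))), by decide +kernel⟩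

def k1_pm_012_a : ∃ t, chk3 f_pm_012_a t 4 6 1 = true :=
  ⟨(a (l 2) (b (a (l 2) (a (b (a (l 2) (l 16431616)) (a (l 16459184) (l 16456800))) (b (a (l 16429936) (l 16428192)) (l 16453088)))) (a (a (b (l 2) (a (l 2) (b (l 16521128) (l 16538352)))) (b (a (l 16493648) (b (l 16482968) (l 16498176))) (b (a (l 16517608) (l 16513968)) (l 16532368)))) (b (a (a (l 16487552) (l 16484368)) (l 16479432)) (a (l 16516256) (l 16508000)))))), by decide +kernel⟩

def k2_pm_012_a : ∃ t, chk3 f_pm_012_a t 4 7 1 = true :=
  ⟨(b (a (a (l 2) (b (a (l 2) (a (l 2) (b (l 2) (b (l 16579016) (l 16588816))))) (a (l 6) (a (l 6) (b (l 16603792) (l 16624168)))))) (a (a (b (b (a (l 16560464) (l 16556168)) (a (l 16579312) (l 16574544))) (b (a (l 16598672) (l 16593424)) (a (l 16618552) (l 16612792)))) (b (b (l 16549504) (l 16567168)) (b (l 16585320) (l 16603936)))) (b (a (l 16548688) (l 16538608)) (a (l 16614504) (l 16591992))))) (a (a (l 6) (a (l 6) (a (l 6) (a (l 6) (b (b (l 16643520) (l 16664672)) (b (l 16684024) (b (l 16696152) (b (l 16702240)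 (c (l 16713200) (l 16707248)))))))))) (b (a (a (b (a (l 16638896) (l 16632624)) (l 16656264)) (b (l 16622976) (l 16642304))) (a (l 16650464) (l 16625840))) (b (b (a (a (l 16669840) (l 16654112)) (l 16633952)) (a (a (a (l 16681912) (l 16673872)) (l 16662048)) (a (l 16646680) (l 16631664)))) (a (b (a (a (l 16689992) (l 16681912)) (l 16675264)) (a (b (a (l 16696064) (l 16687952)) (b (a (l 16699104) (l 16690984)) (a (a (a (l 16704232) (l 16702168)) (l 16700736)) (c (l 16695016) (l 16690912))))) (b (a (l 16679968) (l 16672096)) (a (c (l 16691336) (b (l 16680848) (l 16682728))) (c (l 16678328) (l 16673760)))))) (b (a (l 16654568) (l 16639456)) (a (b (l 16660496) (a (a (l 16670256) (l 16666392)) (l 16660632))) (a (a (l 16652960) (l 16649176)) (l 16643536))))))))), by decide +kernel⟩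

def k3_pm_012_a : ∃ t, chk3 f_pm_012_a t 5 3 1 = true :=
  ⟨(b (a (b (a (a (b (l 16425472) (l 16447928)) (b (l 16421744) (l 16442640))) (b (l 16416192) (l 16434784))) (a (b (a (l 16472648) (l 16465760)) (a (l 16499504) (l 16490912))) (b (l 16455512) (l 16478136)))) (b (a (b (l 16409576) (l 16425144)) (l 16473984)) (a (b (l 16442736) (l 16462048)) (b (l 16431640) (l 16447768))))) (a (b (a (b (a (l 16528304) (l 16517904)) (a (l 16579744) (l 16546440))) (b (l 16502440) (l 16528112))) (b (a (a (l 16611424) (l 16576088)) (a (l 16561760) (l 16547704))) (a (a (b (l 16613080) (b (l 16624584) (a (l 16636048) (l 16628592)))) (b (l 16598424) (b (l 16609776) (l 16617424)))) (a (b (l 16583680) (b (l 16594888) (l 16602432))) (b (l 16568720) (b (l 16579888) (l 16587456))))))) (b (a (b (l 16482856) (a (l 16510480) (l 16499328))) (b (a (l 16469424) (l 16461168)) (a (l 16488608) (l 16478032)))) (b (a (c (l 16580312) (l 16568784)) (l 16521464)) (a (b (a (l 16553984) (l 16539696)) (a (l 16579584) (l 16554600))) (b (l 16539232)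 (a (l 16540104) (l 16525512)))))))), by decide +kernel⟩

def k4_pm_012_a : ∃ t, chk3 f_pm_012_a t 3 2 1 = true :=
  ⟨(a (a (b (a (b (l 16383880) (l 16378512)) (b (l 16396016) (l 16388072))) (a (b (l 16380624) (l 16389912)) (b (a (l 16385112) (l 16388424)) (a (l 16391192) (l 16392856))))) (b (a (b (a (l 16405336) (l 16412752)) (a (l 16395856) (l 16402160))) (b (l 16424176) (l 16411560))) (a (b (l 16394880) (l 16396048)) (b (l 16403664) (l 16399800))))) (a (b (a (b (l 16438152) (l 16422784)) (l 16504032)) (a (b (l 16411064) (l 16402184)) (b (l 16415888) (l 16401824)))) (b (a (l 16449136) (b (l 16468072) (l 16444264))) (a (b (l 16418520) (l 16399016)) (b (l 16420336) (l 16395128)))))), by decide +kernel⟩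

def k5_pm_012_a : ∃ t, chk3 f_pm_012_a t 6 3 1 = true :=
  ⟨(b (a (b (a (b (l 16401000) (l 16410936)) (b (l 16399752) (l 16406960))) (a (b (l 16422720) (l 16435696)) (l 16420280))) (b (a (l 16401784) (l 16399304)) (a (l 16410872) (l 16400928)))) (a (b (a (b (l 16449200) (l 16462320)) (b (l 16433432) (l 16441600))) (b (a (l 16473944) (l 16447736)) (b (a (l 16489312) (l 16460008)) (a (a (l 16510776) (l 16495920)) (a (l 16481008) (l 16466088)))))) (b (a (b (l 16417520) (l 16420744)) (b (l 16401032) (l 16441200))) (b (a (l 16421384) (l 16425432)) (b (a (l 16451848) (l 16445544)) (a (a (l 16451232) (l 16436736)) (a (l 16423168) (l 16410312)))))))), by decide +kernel⟩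

def k6_pm_012_a : ∃ t, chk3 f_pm_012_a t 7 6 1 = true :=
  ⟨(a (b (a (l 16395424) (l 16388512)) (a (l 16389448) (b (l 16377880) (l 16369712)))) (b (a (l 16378552) (l 16367080)) (a (l 16333848) (l 16333640)))), by decide +kernel⟩

def k7_pm_012_a : ∃ t, chk3 f_pm_012_a t 14 7 1 = true :=
  ⟨(b (a (b (l 16382664) (l 16375136)) (l 16358088)) (b (a (l 16362880) (l 16365872)) (a (b (l 16380288) (a (l 16398296) (l 16387528))) (b (l 16404568) (a (c (l 16381808) (l 16374944)) (c (b (l 16371344) (l 16377864)) (l 16366904))))))), by decide +kernel⟩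

def k8_pm_012_a : ∃ t, chk3 f_pm_012_a t 15 14 1 = true :=
  ⟨(a (l 16342032) (l 16353896)), by decide +kernel⟩

def k9_pm_012_a : ∃ t, chk3 f_pm_012_a t 15 30 1 = true :=
  ⟨(a (l 16374736) (a (l 16324464) (l 16318552))), by decide +kernel⟩

def k10_pm_012_a : ∃ t, chk3 f_pm_012_a t 30 31 1 = true :=
  ⟨(b (a (l 16352568) (l 16346328)) (b (a (l 16361048) (l 16354560)) (c (a (a (l 16372824) (a (l 16370352) (l 16368728))) (b (l 16363136) (a (c (a (l 16370952) (a (l 16369736) (c (l 16372680) (l 16367792)))) (l 16365504)) (c (b (l 16366088) (b (l 592522101784134993484335) (b (c (l 592548907209117106281007) (l 16366760)) (c (c (b (l 592562165806420086823471) (a (a (l 593562036981290377810479) (a (l 593539843242326694744623) (l 593588265945520181482031))) (c (a (l 593637553339842123502127) (l 593736704589238310654511)) (a (l 593685687812659458200111) (l 593784839062055645352495))))) (a (l 16369728) (a (l 16368496) (l 593947112763829057081903)))) (l 16367152))))) (l 16362248))))) (a (l 16362088) (l 16355216))))),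 by decide +kernel⟩

def k11_pm_012_a : ∃ t, chk3 f_pm_012_a t 31 62 1 = true :=
  ⟨(a (l 16340288) (c (l 16336664) (l 16330592))), by decide +kernel⟩

def k12_pm_012_a : ∃ t, chk3 f_pm_012_a t 62 63 2 = true :=
  ⟨(b (l 16352192) (b (a (l 16358320) (l 593016416879235153992239)) (b (a (l 592783526735304582289967) (l 593118738662769016265263)) (c (b (a (l 592847225648434117614127) (l 593191949178311557962287)) (c (c (a (c (b (l 592880948602443873163823) (b (l 592894783660499155966511) (b (l 592712910293147426183727) (a (a (l 593839891063900621869615) (l 593929818941259954229807)) (a (l 594033005415922265313839) (l 594220355160420876210735)))))) (a (a (l 593964406586398159442479) (l 594066151909179711984175)) (a (l 594169338383842023068207) (l 594273966010385092710959)))) (a (a (a (l 594329018012230068916783) (l 594382052401441982992943)) (a (l 594435375021030048780847) (l 594488985870994266264111))) (a (a (l 594542884951334635459119) (l 594597072262051156365871)) (l 594678929688878241124911)))) (a (a (a (l 594037328871564540760623)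 (l 594139074194346093302319)) (a (l 594242260669008404419119) (l 594346600065175322350127))) (a (a (l 594452092382846847111727) (l 594558737622022978703919)) (a (l 594666247552327565382191) (l 594869449967514520343087))))) (a (a (c (l 594233613757723853247023) (l 16363912)) (a (l 594436816172910806307375) (l 594541155569077724271151))) (a (a (l 594646071425996945625647) (l 594752428434796925506095)) (c (l 594864838281496091595311) (l 594968601216910705480239)))))) (a (c (l 16360936) (l 16358504)) (c (a (l 16358464) (c (l 595077552299096049373743) (l 16356160))) (l 16355208))))))), by decide +kernel⟩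

def k13_pm_012_a : ∃ t, chk3 f_pm_012_a t 63 126 2 = true :=
  ⟨(a (l 16347144) (l 593530331639913632307759)), by decide +kernel⟩

def k14_pm_012_a : ∃ t, chk3 f_pm_012_a t 63 254 2 = true :=
  ⟨(a (l 593367193247011780041263) (l 593731804672843687696943)), by decide +kernel⟩

def k15_pm_012_a : ∃ t, chk3 f_pm_012_a t 126 255 2 = true :=
  ⟨(c (b (l 593499490989665424644655) (b (l 593552813609253493709359) (c (a (a (c (l 594788745462192041431599) (l 594978977510452168970799)) (a (l 594966871834653796766255) (l 595022500297251076182575))) (a (a (l 595078128759848355598895) (l 595087063901509057696303)) (a (l 595190826836923672941103) (l 595247319990649407459887)))) (a (c (l 595130586688307966153263) (l 595191691528052126716463)) (c (l 595353100538697083818543) (l 595445910719817932706351)))))) (b (l 593432909772774370253359) (b (l 593482197167096315091503) (b (l 593506696749069211671087) (c (a (c (l 595349930004559414481455) (l 595473580835928496394799)) (c (l 595572732085324683907631) (l 595665254036069380969007)))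 (a (c (l 595596655206545274835503) (l 16352496)) (a (l 595716270812648231178799) (c (l 595858080157714872717871) (l 595971642925918644638255))))))))), by decide +kernel⟩

def k16_pm_012_a : ∃ t, chk3 f_pm_012_a t 127 255 2 = true :=
  ⟨(a (b (l 593741028044880548928047) (c (b (l 593832973534872951659055) (b (l 593859778959855062047279) (c (c (a (l 595248472912154014290479) (l 595386823492706833879599)) (a (l 595437263808533383303727) (l 595480786595332289761839))) (a (c (l 595532091602287294255663) (l 595634413385821149647407)) (b (l 593899554751763995613743) (c (l 595580226075104628298287) (l 595654301281775615939119))))))) (b (l 593745063270146670484015) (b (l 593769562852119567030831) (b (l 593781668527917939464751) (c (c (a (l 595738464551611915440687) (l 595761234751327898669615)) (a (l 595849145016054170341935) (l 595867879990504029639215))) (c (a (l 595864997686742512046639) (l 595974813460056312255023)) (a (l 595927831908743582700079) (c (l 596054653274250334540335) (l 596107687663462248239663))))))))))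 (b (l 593926360176746095548975) (b (c (l 594024070274261532449327) (l 593924054333736879462959)) (b (c (c (l 594072204747078871620143) (l 594027817269151503686191)) (l 593948553915709776009775)) (b (c (c (l 594085751574758002678319) (l 594041075866454482999855)) (c (l 593989194398747170282031) (l 593930683632388367964719))) (a (c (c (c (c (l 595449081253955602272815) (l 595495486344516026815023)) (c (l 595542179665452603036207) (l 595589161216765330969135))) (c (c (l 595648536674252582490671) (l 595700129911583737778735)) (c (l 595751723148914893050415) (l 595803316386246048305711)))) (c (c (c (l 595854621393201051832879) (l 595906214630532207071791)) (c (l 595957807867863362277935) (l 596009112874818365772335))) (c (c (l 596060706112149520962095) (l 596112011119104524423727)) (c (l 596163604356435679580719) (l 596214909363390683009583))))) (a (c (c (c (c (l 595512780167085128978991) (l 595560338179150160368175)) (c (l 595622019479646625616431) (l 595648536674252582015535))) (c (c (l 595698688759702978761263)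 (l 595748840845153375490607)) (c (l 595798992930603772203567) (l 595848856785678017204783)))) (c (c (c (l 595899008871128413901359) (l 595972795847423250928175)) (c (l 596022659702497495880239) (l 596072811787947892527663))) (c (c (l 596122675643022137446959) (l 596172827728472534061615)) (c (l 596199344923078490296879) (l 596296478559841615909423))))) (c (b (c (l 594166167849704328960559) (l 594118898068015443876399)) (c (b (l 594169626614218149648943) (c (c (c (l 595545926660342575174191) (l 595575037928333897536047)) (c (l 595599537510306792509999) (l 595624037092279687483951))) (c (c (l 595648536674252582441519) (l 595673036256225477399087)) (c (l 595697824068574524068399) (l 595722323650547419025967))))) (c (c (c (l 595748552614777224204847) (l 595773052196750119146031)) (c (l 595797551778723014103599) (l 595822051360695909028399))) (c (c (l 595846839173044955681327) (l 595871338755017850622511)) (c (l 595895838336990745547311) (l 595920337918963640472111)))))) (b (l 594034734798179137051183) (b (l 594037905332316806011439)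 (b (l 594039346484197564635695) (c (c (c (l 595954637333725693366831) (c (l 595991530821873111601711) (l 596016030403846006510127))) (c (l 596064741337415644910127) (l 596113740501361434710575))) (c (c (l 596163027895683376206383) (l 596212027059629165974063)) (c (l 596249497008528887255599) (l 596298496172474677006895))))))))))))))), by decide +kernel⟩

def k17_pm_012_a : ∃ t, chk3 f_pm_012_a t 31 63 3 = true :=
  ⟨(b (a (l 16344024) (l 16337320)) (a (a (l 16350304) (l 16347056)) (c (b (l 594171067766098886793775) (a (b (l 16346728) (c (a (l 16350120) (l 16348328)) (l 16346656))) (b (l 593668393990090301364783) (a (c (b (l 16346152) (b (l 593683958430402501138991) (c (a (l 596138528313710481265199) (c (l 596167351351325651128879) (l 596220385740537564795439))) (a (l 16346768) (c (l 596273708360125630173743) (l 16345496)))))) (l 16343896)) (b (l 593796080046725509519919) (b (l 593818273785689192241711) (b (l 594018305666738480650799) (c (c (c (a (l 596266214370345686422063) (a (l 596346630645292012474927) (l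 596365077389365721010735))) (a (l 596317519377300689834543) (a (l 596396494500366257328687) (l 596426182229109882606127)))) (a (c (l 596369112614631844925999) (l 596420417621586848305711)) (a (c (l 596446646585816653877807) (l 596496510440890898698799)) (c (l 596475181393055672308271) (l 596524180557001461994031))))) (c (a (l 16343624) (c (a (l 596546662526341295215151) (l 596549833060478963012143)) (a (l 16342560) (l 596598832224424752665135)))) (l 16341808)))))))))) (a (l 16341024) (a (l 16338296) (l 16336392)))))), by decide +kernel⟩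

theorem s18_pm_012_a : ∃ t, chk3 f_pm_012_a t 63 255 2 = true := ex3_a k15_pm_012_a k16_pm_012_a

theorem s19_pm_012_a : ∃ t, chk3 f_pm_012_a t 63 127 2 = true := ex3_b k14_pm_012_a s18_pm_012_a

theorem s20_pm_012_a : ∃ t, chk3 f_pm_012_a t 63 63 2 = true := ex3_b k13_pm_012_a s19_pm_012_a

theorem s21_pm_012_a : ∃ t, chk3 f_pm_012_a t 31 63 2 = true := ex3_a k12_pm_012_a s20_pm_012_a

theorem s22_pm_012_a : ∃ t, chk3 f_pm_012_a t 31 63 1 = true := ex3_c s21_pm_012_a k17_pm_012_a

theorem s23_pm_012_a : ∃ t, chk3 f_pm_012_a t 31 31 1 = true := ex3_b k11_pm_012_a s22_pm_012_a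

theorem s24_pm_012_a : ∃ t, chk3 f_pm_012_a t 15 31 1 = true := ex3_a k10_pm_012_a s23_pm_012_a

theorem s25_pm_012_a : ∃ t, chk3 f_pm_012_a t 15 15 1 = true := ex3_b k9_pm_012_a s24_pm_012_a

theorem s26_pm_012_a : ∃ t, chk3 f_pm_012_a t 15 7 1 = true := ex3_b k8_pm_012_a s25_pm_012_a

theorem s27_pm_012_a : ∃ t, chk3 f_pm_012_a t 7 7 1 = true := ex3_a k7_pm_012_a s26_pm_012_a

theorem s28_pm_012_a : ∃ t, chk3 f_pm_012_a t 7 3 1 = true := ex3_b k6_pm_012_a s27_pm_012_a

theorem s29_pm_012_a : ∃ t, chk3 f_pm_012_a t 3 3 1 = true := ex3_a k5_pm_012_a s28_pm_012_a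

theorem s30_pm_012_a : ∃ t, chk3 f_pm_012_a t 3 1 1 = true := ex3_b k4_pm_012_a s29_pm_012_a

theorem s31_pm_012_a : ∃ t, chk3 f_pm_012_a t 4 3 1 = true := ex3_b k1_pm_012_a k2_pm_012_a

theorem s32_pm_012_a : ∃ t, chk3 f_pm_012_a t 2 3 1 = true := ex3_a s31_pm_012_a k3_pm_012_a

theorem s33_pm_012_a : ∃ t, chk3 f_pm_012_a t 2 1 1 = true := ex3_b k0_pm_012_a s32_pm_012_a

theorem s34_pm_012_a : ∃ t, chk3 f_pm_012_a t 1 1 1 = true := ex3_a s33_pm_012_a s30_pm_012_a

theorem c_pm_012_a : CertB 0 536870912 0 536870912 587336777 62277027 3 eng mog cd0q0 cd4q2a pd1 false true false .pnp 0 1 2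
    ndB0q0 ndB4q2a pcB1 cut_pm_012_a xt_pm_012_a :=
  certB0 (fam := false) (s1 := true) (s2 := false) (a := 0) (b := 1) (c := 2) (cn := .pnp) (n1 := ndB0q0) (n2 := ndB4q2a) (pc := pcB1) (cut := cut_pm_012_a) (xt := xt_pm_012_a) (P1 := 0) (W1 := 536870912) (P2 := 0) (W2 := 536870912) (P3 := 587336777) (W3 := 62277027) (N0 := 3) (En := eng) (mo := mog) (C1 := cd0q0) (C2 := cd4q2a) (C3 := pd1)
    rfl s34_pm_012_a

noncomputable def cut_pm_012_b : Cut := Cut.of [[⟨0, 0, 0, 67108864⟩, ⟨1, 1, 0, 67108864⟩, ⟨2, 1, 0, 67108864⟩]]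

noncomputable def f_pm_012_b : ℕ → ℕ → ℕ → ℕ → Bool := onCell 0 536870912 536870912 536870912 587336777 62277027
    (rowB 3 eng mog cd0q0 cd4q2b pd1 1 false true false .pnp 0 1 2 (qsf 0 536870912 1239849684 370763052 1) ndB0q0 ndB4q2b pcB1 cut_pm_012_b Ext.none)

def k0_pm_012_b : ∃ t, chk3 f_pm_012_b t 2 1 1 = true :=
  ⟨(b (l 1) (a (l 1) (b (l 1) (a (b (l 1) (b (a (l 1) (b (l 1) (a (l 1) (l 16387192)))) (a (b (l 1) (a (l 1) (c (l 16393760) (l 16369792)))) (b (a (l 16384280) (l 16353008)) (a (c (l 16362496) (l 16333104)) (c (l 16334584) (l 16299696))))))) (b (a (b (l 1) (a (l 1) (l 16407560))) (b (a (l 1) (l 16412800)) (a (l 16384200) (l 16364064)))) (b (a (b (a (l 16390304) (l 16364512)) (a (l 16358656) (l 16333520))) (b (a (l 16342064) (l 16323048)) (a (l 16311864) (l 16293776)))) (a (b (a (l 16325136) (l 16300800)) (a (c (l 16310224) (l 16269784)) (c (l 16289512) (l 16243536)))) (b (a (l 16280072) (l 16263024)) (a (c (l 16272496) (l 16221056)) (c (l 16259248) (l 16202432))))))))))), by decide +kernel⟩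

def k1_pm_012_b : ∃ t, chk3 f_pm_012_b t 3 2 1 = true :=
  ⟨(a (l 1) (b (l 1) (a (b (l 1) (a (b (l 1) (l 16453272)) (b (l 16456752) (l 16459200)))) (b (a (b (l 1) (l 16458120)) (b (l 16458576) (l 16480728))) (a (l 16471600) (l 16489384)))))), by decide +kernel⟩

def k2_pm_012_b : ∃ t, chk3 f_pm_012_b t 3 3 1 = true :=
  ⟨(a (b (a (b (l 1) (a (b (l 1) (a (l 1) (l 16419248))) (b (b (l 1) (l 16424624)) (a (l 16405944) (l 16395312))))) (b (a (b (l 1) (l 16440008)) (b (l 16447280) (l 16430952))) (b (a (b (l 16421472) (l 16407016)) (b (l 16412640) (l 16399144))) (a (l 16384392) (l 16378976))))) (a (b (a (b (a (l 16394696) (l 16379576)) (a (l 16347200) (l 16333600))) (b (a (l 16367424) (l 16358224)) (a (l 16323240) (l 16316072)))) (b (a (b (l 16301064) (l 16273416)) (a (l 16274048) (l 16269528))) (a (b (a (l 16249720) (l 16240104)) (a (l 16239808) (c (l 16244296) (l 16176944)))) (b (a (l 16234264) (l 16232568)) (a (b (l 16213760) (l 16199992)) (l 16196816)))))) (b (a (b (l 16349944) (l 16311336)) (b (l 16348888) (a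 (l 16313912) (l 16320032)))) (a (b (b (l 16280360) (l 16259208)) (b (a (l 16234928) (l 16240896)) (a (l 16211472) (l 16219320)))) (b (a (l 16278488) (l 16288360)) (a (b (l 16250320) (l 16230712)) (b (l 16263032) (l 16245448)))))))) (b (a (b (a (b (l 16446280) (l 16429608)) (b (l 16450968) (l 16435312))) (a (b (b (l 16412448) (l 16400360)) (l 16383208)) (b (l 16415064) (l 16397080)))) (b (a (l 16476944) (l 16476976)) (a (b (l 16432984) (l 16421080)) (b (l 16461816) (l 16455320))))) (a (b (a (b (l 16359176) (l 16334272)) (b (l 16379536) (l 16360784))) (a (b (a (l 16300736) (l 16315256)) (a (b (l 16278304) (a (l 16258296) (l 16266168))) (b (l 16294592) (l 16275880)))) (b (a (l 16331104) (l 16346024)) (c (l 16359712) (l 16248352))))) (b (a (b (l 16409192) (l 16393152)) (b (l 16445872) (l 16426168))) (a (b (b (l 16375000) (l 16358376)) (b (l 16341200) (l 16323616))) (a (b (l 16389824) (l 16359592)) (b (l 16408424) (l 16381160)))))))), by decide +kernel⟩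

theorem s3_pm_012_b : ∃ t, chk3 f_pm_012_b t 3 1 1 = true := ex3_b k1_pm_012_b k2_pm_012_b

theorem s4_pm_012_b : ∃ t, chk3 f_pm_012_b t 1 1 1 = true := ex3_a k0_pm_012_b s3_pm_012_b

theorem c_pm_012_b : CertB 0 536870912 1239849684 370763052 587336777 62277027 3 eng mog cd0q0 cd4q2b pd1 false true false .pnp 0 1 2
    ndB0q0 ndB4q2b pcB1 cut_pm_012_b Ext.none :=
  certB1 (fam := false) (s1 := true) (s2 := false) (a := 0) (b := 1) (c := 2) (cn := .pnp) (n1 := ndB0q0) (n2 := ndB4q2b) (pc := pcB1) (cut := cut_pm_012_b) (xt := Ext.none) (P1 := 0) (W1 := 536870912) (P2 := 1239849684) (W2 := 370763052) (P3 := 587336777) (W3 := 62277027) (N0 := 3) (En := eng) (mo := mog) (C1 := cd0q0) (C2 := cd4q2b) (C3 := pd1)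
    rfl (fun _ => rfl) s4_pm_012_b

noncomputable def cut_pm_022_a : Cut := Cut.of [[⟨0, 0, 0, 67108864⟩, ⟨1, 1, 0, 67108864⟩, ⟨2, 1, 0, 67108864⟩]]

noncomputable def f_pm_022_a : ℕ → ℕ → ℕ → ℕ → Bool := onCell 1073741824 536870912 0 536870912 587336777 62277027
    (rowB 3 eng mog cd0q0 cd4q2a pd2 2 false true false .pp 0 2 2 (qsf 0 536870912 0 536870912 2) ndB0q0 ndB4q2a pcB2 cut_pm_022_a Ext.none)

def k0_pm_022_a : ∃ t, chk3 f_pm_022_a t 2 1 1 = true :=
  ⟨(a (b (a (b (a (b (a (b (c (l 16364432) (l 16336632)) (c (l 16363888) (l 16336968))) (b (l 16363904) (l 16364320))) (a (b (l 16352784) (l 16358272)) (l 16370584))) (b (a (l 16398520) (l 16390248)) (a (l 16384800) (l 16398360)))) (a (b (a (b (l 16366840) (l 16378736)) (l 16409880)) (a (b (l 16394248) (l 16413688)) (b (l 16411096) (l 16431096)))) (a (b (l 16404136) (l 16458424)) (b (l 16418632) (l 16452912))))) (b (a (b (a (l 16402392) (l 16413960)) (a (l 16411288) (l 16423576))) (b (a (l 16424920) (l 16435144)) (a (l 16435184) (l 16445936)))) (a (b (a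 (l 16432416) (l 16445504)) (a (l 16467592) (l 16502424))) (a (b (l 16457784) (l 16515408)) (b (l 16469048) (l 16569256)))))) (a (b (a (b (a (b (l 16437376) (l 16465648)) (b (l 16455320) (l 16484112))) (b (a (l 16530264) (l 16517744)) (a (a (l 16532264) (l 16542224)) (a (l 16551904) (l 16561336))))) (b (a (b (l 16472344) (l 16501616)) (b (l 16488504) (l 16518208))) (a (b (l 16535688) (l 16616960)) (b (l 16573680) (b (l 16581864) (l 16603376)))))) (b (b (b (a (a (l 16590600) (l 16589304)) (a (l 16628952) (l 16668528))) (a (a (a (l 16588088) (l 16598288)) (l 16634056)) (a (a (l 16627336) (l 16636904)) (l 4)))) (a (l 6) (a (l 6) (l 4)))) (a (l 6) (l 4)))) (b (b (a (a (b (l 16503816) (l 16554896)) (b (l 16518256) (l 16549088))) (a (b (l 16531992) (l 4)) (l 4))) (a (a (b (l 16590136) (l 112977503303)) (l 4)) (l 4))) (l 4)))) (b (a (b (b (a (a (l 16444336) (b (l 16450504) (l 16453344))) (l 1)) (a (a (l 16455504) (l 16463440)) (l 1))) (a (b (b (l 59088940231) (l 105461174855)) (a (l 198876660487) (l 1))) (l 1))) (l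 1)) (l 4))), by decide +kernel⟩

def k1_pm_022_a : ∃ t, chk3 f_pm_022_a t 3 1 1 = true :=
  ⟨(l 1), by decide +kernel⟩

theorem s2_pm_022_a : ∃ t, chk3 f_pm_022_a t 1 1 1 = true := ex3_a k0_pm_022_a k1_pm_022_a

theorem c_pm_022_a : CertB 0 536870912 0 536870912 587336777 62277027 3 eng mog cd0q0 cd4q2a pd2 false true false .pp 0 2 2
    ndB0q0 ndB4q2a pcB2 cut_pm_022_a Ext.none :=
  certB2 (fam := false) (s1 := true) (s2 := false) (a := 0) (b := 2) (c := 2) (cn := .pp) (n1 := ndB0q0) (n2 := ndB4q2a) (pc := pcB2) (cut := cut_pm_022_a) (xt := Ext.none) (P1 := 0) (W1 := 536870912) (P2 := 0) (W2 := 536870912) (P3 := 587336777) (W3 := 62277027) (N0 := 3) (En := eng) (mo := mog) (C1 := cd0q0) (C2 := cd4q2a) (C3 := pd2)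
    rfl (fun _ => rfl) s2_pm_022_a

noncomputable def cut_pm_022_b : Cut := Cut.of [[⟨0, 0, 0, 67108864⟩, ⟨1, 1, 0, 67108864⟩, ⟨2, 1, 0, 67108864⟩]]

noncomputable def f_pm_022_b : ℕ → ℕ → ℕ → ℕ → Bool := onCell 1073741824 536870912 1239849684 370763052 587336777 62277027
    (rowB 3 eng mog cd0q0 cd4q2b pd2 2 false true false .pp 0 2 2 (qsf 0 536870912 1239849684 370763052 2) ndB0q0 ndB4q2b pcB2 cut_pm_022_b Ext.none)

def k0_pm_022_b : ∃ t, chk3 f_pm_022_b t 4 2 1 = true :=
  ⟨(b (a (b (a (a (b (c (a (b (l 16351624) (l 16331376)) (l 16347240)) (b (l 16324696) (l 16300584))) (c (a (b (l 16312776) (l 16295888)) (l 16309312)) (b (l 16278048) (l 16257176)))) (b (c (l 16376864) (l 16326800)) (c (l 16316920) (l 16280640)))) (b (a (c (l 16367016) (l 16340480)) (l 16365312)) (a (l 16309768) (l 16320600)))) (a (a (b (a (b (a (l 16277272) (l 16258992)) (l 16263384)) (c (l 16278128) (l 16232080))) (a (c (l 16250640) (l 16195352)) (l 16248080))) (b (c (l 16284432) (l 16240848)) (l 16275136))) (b (a (l 16272192) (l 16281664))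 (a (l 16241184) (l 16248992))))) (b (a (b (a (l 16376712) (l 16387592)) (a (l 16331056) (l 16341120))) (b (a (l 16397976) (l 16407736)) (a (l 16350760) (l 16359840)))) (a (b (l 16316344) (l 16260344)) (b (l 16312640) (l 16275088))))) (a (b (a (b (a (a (b (l 16207544) (l 16199600)) (l 16206440)) (l 16211016)) (a (b (l 16236560) (l 16232448)) (l 16217112))) (b (a (l 16217032) (l 16222872)) (a (l 16199976) (l 16203784)))) (a (b (a (a (c (l 16226936) (l 16148472)) (l 16188352)) (l 16189328)) (a (b (l 16273552) (l 16234936)) (l 16189744))) (a (a (l 16209712) (l 16188904)) (l 16252104)))) (b (a (b (l 16231616) (l 16209424)) (b (l 16243080) (l 16217184))) (a (b (l 16194448) (l 16186904)) (l 16296272))))), by decide +kernel⟩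

def k1_pm_022_b : ∃ t, chk3 f_pm_022_b t 5 2 1 = true :=
  ⟨(b (a (a (b (b (a (l 16416608) (l 16424344)) (l 16414144)) (b (l 16327952) (l 16288312))) (b (a (b (a (l 16429088) (l 16431600)) (l 16382168)) (b (l 102038506663) (l 16386728))) (a (l 16337584) (l 16321336)))) (a (b (b (l 1) (a (l 16388680) (l 1))) (a (l 16366144) (l 16345600))) (l 4))) (a (a (b (l 16259752) (l 16193520)) (b (a (l 16244936) (l 16248088)) (l 16258328))) (a (b (l 16334784) (l 16195360)) (b (l 4) (l 16191080))))), by decide +kernel⟩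

def k2_pm_022_b : ∃ t, chk3 f_pm_022_b t 2 3 1 = true :=
  ⟨(a (b (a (b (a (b (a (a (l 16202376) (l 16200168)) (l 16197112)) (a (a (l 16220000) (l 16216296)) (l 16211088))) (b (a (l 16193432) (l 16190144)) (l 16222688))) (a (b (a (b (l 16234808) (l 16244208)) (l 16229768)) (a (l 16256680) (l 16245488))) (b (l 16216512) (l 16229600)))) (b (a (b (l 16185696) (l 16190976)) (l 16201424)) (a (b (l 16201008) (l 16210384)) (l 16189656)))) (a (b (a (a (a (l 16309664) (l 16282008)) (l 16272384)) (b (l 16245384) (l 16263184))) (a (a (b (l 16320856) (l 16497520)) (a (l 16384512) (l 16313128))) (b (l 16283984) (l 16307424)))) (b (a (l 16230808) (l 16208984)) (a (l 16267136) (l 16242208))))) (b (a (b (a (l 16173760) (l 16168248)) (a (l 16175776) (l 16162024))) (b (a (l 16162136) (l 16153344)) (a (l 16149408) (l 16133904)))) (a (a (b (l 16188840) (l 16217112)) (b (l 16169800) (l 16193112))) (b (l 16286768) (l 16157800))))), by decide +kernel⟩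

def k3_pm_022_b : ∃ t, chk3 f_pm_022_b t 3 1 1 = true :=
  ⟨(a (b (l 4) (a (a (b (b (l 4) (l 16114344)) (l 16104240)) (b (l 4) (l 16215800))) (l 4))) (l 4)), by decide +kernel⟩

theorem s4_pm_022_b : ∃ t, chk3 f_pm_022_b t 2 2 1 = true := ex3_a k0_pm_022_b k1_pm_022_b

theorem s5_pm_022_b : ∃ t, chk3 f_pm_022_b t 2 1 1 = true := ex3_b s4_pm_022_b k2_pm_022_b

theorem s6_pm_022_b : ∃ t, chk3 f_pm_022_b t 1 1 1 = true := ex3_a s5_pm_022_b k3_pm_022_b

theorem c_pm_022_b : CertB 0 536870912 1239849684 370763052 587336777 62277027 3 eng mog cd0q0 cd4q2b pd2 false true false .pp 0 2 2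
    ndB0q0 ndB4q2b pcB2 cut_pm_022_b Ext.none :=
  certB2 (fam := false) (s1 := true) (s2 := false) (a := 0) (b := 2) (c := 2) (cn := .pp) (n1 := ndB0q0) (n2 := ndB4q2b) (pc := pcB2) (cut := cut_pm_022_b) (xt := Ext.none) (P1 := 0) (W1 := 536870912) (P2 := 1239849684) (W2 := 370763052) (P3 := 587336777) (W3 := 62277027) (N0 := 3) (En := eng) (mo := mog) (C1 := cd0q0) (C2 := cd4q2b) (C3 := pd2)
    rfl (fun _ => rfl) s6_pm_022_b

noncomputable def f_pm_023 : ℕ → ℕ → ℕ → ℕ → Bool := onCell 0 536870912 1073741824 536870912 587336777 62277027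
    (rowB 3 eng mog cd0q0 cd4q3 pd2 1 false true false .up 0 2 3 (qsf 0 536870912 1610612736 536870912 2) ndB0q0 ndB4q3 pcB2 Cut.none Ext.none)

def k0_pm_023 : ∃ t, chk3 f_pm_023 t 1 1 1 = true :=
  ⟨(b (a (b (l 1) (a (l 1) (b (l 1) (a (l 1) (l 16114312))))) (b (a (a (l 1) (b (l 1) (l 230886976151))) (a (b (a (l 1) (l 220149446167)) (a (l 16216520) (l 16239976))) (b (a (l 137471664583) (a (l 137471791927) (b (l 16299776) (l 16305832)))) (a (l 16268032) (l 16305056))))) (a (b (a (l 245919479287) (l 16225872)) (a (l 16137456) (l 16189232))) (a (b (l 16235168) (l 16255168)) (b (l 16298976) (l 16379568)))))) (a (b (a (b (l 1) (l 4)) (b (a (l 16287184) (l 16065672)) (a (l 136061699607) (l 16142656)))) (a (l 4) (b (l 195654562919) (l 4)))) (b (a (b (a (l 16116824) (l 16192224)) (a (l 16081968) (l 16293152))) (b (a (l 16338064) (l 16462496)) (a (l 16446184) (l 16537280)))) (a (b (a (l 16260960) (l 16429992)) (a (l 16412216) (l 16529808))) (b (l 16662712) (a (l 16610096) (l 16662320))))))), by decide +kernel⟩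

theorem c_pm_023 : CertB 0 536870912 1610612736 536870912 587336777 62277027 3 eng mog cd0q0 cd4q3 pd2 false true false .up 0 2 3
    ndB0q0 ndB4q3 pcB2 Cut.none Ext.none :=
  certB1 (fam := false) (s1 := true) (s2 := false) (a := 0) (b := 2) (c := 3) (cn := .up) (n1 := ndB0q0) (n2 := ndB4q3) (pc := pcB2) (cut := Cut.none) (xt := Ext.none) (P1 := 0) (W1 := 536870912) (P2 := 1610612736) (W2 := 536870912) (P3 := 587336777) (W3 := 62277027) (N0 := 3) (En := eng) (mo := mog) (C1 := cd0q0) (C2 := cd4q3) (C3 := pd2)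
    rfl (fun _ => rfl) k0_pm_023

noncomputable def f_pm_033 : ℕ → ℕ → ℕ → ℕ → Bool := onCell 1610612736 536870912 1610612736 536870912 587336777 62277027
    (rowB 3 eng mog cd0q0 cd4q3 pd3 2 false true false .pnn 0 3 3 (qsf 0 536870912 1610612736 536870912 3) ndB0q0 ndB4q3 pcB3 Cut.none Ext.none)

def k0_pm_033 : ∃ t, chk3 f_pm_033 t 1 1 1 = true :=
  ⟨(b (l 4) (a (a (a (b (b (l 16674368) (l 16557456)) (b (l 16625824) (l 16843880))) (b (l 4) (l 16659288))) (b (l 4) (a (l 16616248) (l 4)))) (l 4))), by decide +kernel⟩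

theorem c_pm_033 : CertB 0 536870912 1610612736 536870912 587336777 62277027 3 eng mog cd0q0 cd4q3 pd3 false true false .pnn 0 3 3
    ndB0q0 ndB4q3 pcB3 Cut.none Ext.none :=
  certB2 (fam := false) (s1 := true) (s2 := false) (a := 0) (b := 3) (c := 3) (cn := .pnn) (n1 := ndB0q0) (n2 := ndB4q3) (pc := pcB3) (cut := Cut.none) (xt := Ext.none) (P1 := 0) (W1 := 536870912) (P2 := 1610612736) (W2 := 536870912) (P3 := 587336777) (W3 := 62277027) (N0 := 3) (En := eng) (mo := mog) (C1 := cd0q0) (C2 := cd4q3) (C3 := pd3)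
    rfl (fun _ => rfl) k0_pm_033

noncomputable def f_pm_101 : ℕ → ℕ → ℕ → ℕ → Bool := onCell 536870912 536870912 536870912 536870912 587336777 62277027
    (rowB 3 eng mog cd0q1 cd4q1 pd0 0 false true false .npn 1 0 1 (qsf 536870912 536870912 536870912 536870912 0) ndB0q1 ndB4q1 pcB0 Cut.none Ext.none)

def k0_pm_101 : ∃ t, chk3 f_pm_101 t 1 1 1 = true :=
  ⟨(l 4), by decide +kernel⟩

theorem c_pm_101 : CertB 536870912 536870912 536870912 536870912 587336777 62277027 3 eng mog cd0q1 cd4q1 pd0 false true false .npn 1 0 1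
    ndB0q1 ndB4q1 pcB0 Cut.none Ext.none :=
  certB0 (fam := false) (s1 := true) (s2 := false) (a := 1) (b := 0) (c := 1) (cn := .npn) (n1 := ndB0q1) (n2 := ndB4q1) (pc := pcB0) (cut := Cut.none) (xt := Ext.none) (P1 := 536870912) (W1 := 536870912) (P2 := 536870912) (W2 := 536870912) (P3 := 587336777) (W3 := 62277027) (N0 := 3) (En := eng) (mo := mog) (C1 := cd0q1) (C2 := cd4q1) (C3 := pd0)
    rfl k0_pm_101

noncomputable def cut_pm_102_a : Cut := Cut.of [[⟨0, 1, 0, 67108864⟩, ⟨1, 0, 0, 67108864⟩, ⟨2, 1, 0, 67108864⟩], [⟨0, 0, 1, 20971520⟩, ⟨1, 1, 2, 20971520⟩, ⟨2, 1, 0, 29360128⟩]]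

noncomputable def xt_pm_102_a : Ext := extD2 3 ⟨7, 3, 3, 10, 1815, 1000, 17, 20, 37, 100, 3, 16⟩ eng cd0q1 cd4q2a pd0 false true false .npp 1 0 2 rfl ndB0q1 ndB4q2a pcB0

noncomputable def f_pm_102_a : ℕ → ℕ → ℕ → ℕ → Bool := onCell 536870912 536870912 0 536870912 587336777 62277027
    (rowB 3 eng mog cd0q1 cd4q2a pd0 0 false true false .npp 1 0 2 (qsf 536870912 536870912 0 536870912 0) ndB0q1 ndB4q2a pcB0 cut_pm_102_a xt_pm_102_a)

def k0_pm_102_a : ∃ t, chk3 f_pm_102_a t 2 2 1 = true :=
  ⟨(a (a (l 2) (a (l 2) (l 16625160))) (a (b (l 16612056) (l 16602832)) (b (l 16656680) (a (l 16635400) (l 16657392))))), by decide +kernel⟩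

def k1_pm_102_a : ∃ t, chk3 f_pm_102_a t 4 6 1 = true :=
  ⟨(a (l 2) (b (a (l 2) (b (l 16583592) (l 16581576))) (a (l 16569824) (b (l 16573000) (l 16571672))))), by decide +kernel⟩

def k2_pm_102_a : ∃ t, chk3 f_pm_102_a t 8 14 1 = true :=
  ⟨(a (l 2) (b (l 16520440) (a (l 16513832) (l 16526728)))), by decide +kernel⟩

def k3_pm_102_a : ∃ t, chk3 f_pm_102_a t 8 30 1 = true :=
  ⟨(a (a (l 2) (b (l 16505264) (a (l 141508004933091375) (a (l 141364037639929903) (l 141379911846723631))))) (b (a (l 16518392) (l 16535304)) (a (c (l 141504981357215791) (l 141338130384945199)) (a (b (l 16537704) (l 141522023781564463)) (b (l 16546952) (l 16551840)))))), by decide +kernel⟩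

def k4_pm_102_a : ∃ t, chk3 f_pm_102_a t 64 31 1 = true :=
  ⟨(b (l 2) (b (c (c (l 141422930268635183) (l 141351324539306031)) (l 141397710132363311)) (c (b (c (l 141458114650308655) (l 141377850265124911)) (c (a (b (l 141458389528150063) (a (b (l 141458664406073391) (a (c (c (l 141487457880801327) (l 141469728246825007)) (a (l 141439148065439791) (l 141443546113228847))) (c (a (l 141486083488890927) (l 141491031292641327)) (l 141450280623898671)))) (b (l 141477630987075631) (a (c (l 141498659156705327) (l 141459420316958767)) (c (l 141509035800608815) (l 141468766168481839)))))) (b (l 141497284762992687) (b (l 141507798845849647) (c (a (b (l 141523123297271855) (l 141538104144232495)) (l 141547106401271855)) (a (l 141483265982185519) (l 141503332075028527)))))) (a (b (l 141377231789637679) (b (l 141429733472092207) (a (a (c (l 141400252823912495) (l 141355447706501167)) (c (l 141408293005066287) (l 141362663253737519))) (c (b (l 141419356844064815) (l 141422174343446575)) (l 141373933251264559))))) (b (l 141408911477719087)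 (a (b (l 141408705319256111) (c (l 141438117266653231) (l 141389532577087535))) (c (l 141453166836367407) (l 141403207756922927))))))) (b (c (l 141283635825229871) (l 141175608769577007)) (c (a (b (l 141281574240583727) (b (l 141286865642045487) (c (a (b (l 141309130761027631) (l 141311123626491951)) (l 141323493136039983)) (a (l 141257522415173679) (l 141269617046749231))))) (b (l 141307275332599855) (a (a (l 141372558835040303) (l 141311742100144175)) (a (l 141318682769358895) (l 141325829597020207))))) (a (b (l 141171554319941679) (a (c (l 141200004193288239) (l 141140493106872367)) (a (l 141178357550678063) (l 141183648951975983)))) (b (l 141192376327651375) (c (b (l 141226598638682159) (l 141229553577263151)) (l 141165850601340975))))))))), by decide +kernel⟩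

def k5_pm_102_a : ∃ t, chk3 f_pm_102_a t 65 31 1 = true :=
  ⟨(b (b (l 141310092835160111) (a (l 141321156674404399) (l 141347613680664623))) (b (c (c (l 141498452994408495) (l 141412210013290543)) (c (l 141314490878804015) (l 141205158151946287))) (c (c (b (a (l 141518175489638447) (l 141562843161526319)) (a (b (l 141539890850299951) (c (b (l 141574113162903599) (a (l 141570264871239727) (c (l 141606067730235439) (l 141582703097921583)))) (a (l 141520649387982895) (l 141542433468071983)))) (b (l 141586413948534831) (c (b (l 141623866077282351) (a (c (l 141676917517565999) (l 141607304677163055)) (c (a (l 141651972352770095) (l 141665647532212271)) (l 141632868329275439)))) (b (l 141572876204474415) (a (l 141569027912826927) (l 141592873577660463))))))) (b (l 141444439457185839) (a (b (l 141443683542892591) (a (a (l 141441896836087855) (l 141451036529098799)) (a (l 141460382380572719) (l 141470003110002735)))) (b (l 141481685424128047) (a (a (l 141479761278418991) (l 141489725605314607)) (a (l 141499896090673199)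 (l 141510272734527535))))))) (b (c (l 141337443191390255) (l 141219039491784751)) (b (a (l 141456946340626479) (l 141484571578318895)) (c (a (c (b (l 141370840869322799) (l 141375788673187887)) (l 141314559597789231)) (c (l 141406712446500911) (l 141344658737299503))) (a (c (l 141252918206136367) (l 141188253157343279)) (c (l 141279993687834671) (l 141212648578662447))))))))), by decide +kernel⟩

def k6_pm_102_a : ∃ t, chk3 f_pm_102_a t 33 62 1 = true :=
  ⟨(a (c (b (l 141444714341580847) (l 141487457867382831)) (l 141278619295367215)) (c (b (l 141510272742391855) (l 141561331327025199)) (b (l 141313941117075503) (l 141338955014979631)))), by decide +kernel⟩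

def k7_pm_102_a : ∃ t, chk3 f_pm_102_a t 132 63 1 = true :=
  ⟨(b (c (l 141516457494609967) (l 141299647463440431)) (c (b (a (l 141546900231389231) (l 141569783823220783)) (c (b (l 141636922777190447) (c (b (l 141677810880561199) (b (a (l 141670870211739695) (l 141699182643445807)) (a (c (a (l 141682002771951663) (a (l 141692723013074991) (l 141699938559983663))) (l 141695609219153967)) (c (b (l 141717049714049071) (c (a (l 141730381294141487) (a (l 141730381297008687) (l 141738009160859695))) (a (l 141705092521082927) (l 141719798492872751)))) (c (l 141741926156501039) (l 141682415083978799)))))) (b (l 141621873204379695) (a (c (l 141631768813600815) (l 141603456378126383)) (c (l 141658225819041839) (l 141628607713247279)))))) (b (l 141522985840934959) (a (c (l 141555971201990703) (l 141496047796109359)) (b (l 141544701201629231) (a (l 141546419189170223) (l 141647849139879983))))))) (b (l 141321843861848111) (c (b (l 141399703055433775) (c (l 141443065059868719) (l 141377369217499183))) (a (l 141263638446080047)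 (l 141277932101320751)))))), by decide +kernel⟩

def k8_pm_102_a : ∃ t, chk3 f_pm_102_a t 133 63 1 = true :=
  ⟨(b (c (l 141560575410241583) (l 141328166054379567)) (c (b (c (l 141664066977005615) (l 141545731993436207)) (c (b (l 141691417336266799) (c (a (b (l 141721104161964079) (b (l 141728594586992687) (c (b (l 141747286291480623) (c (b (l 141756632143740975) (a (c (a (l 141749966353367087) (l 141757731656204335)) (l 141746530377629743)) (b (l 141765496958484527) (c (a (c (l 141767833422069807) (l 141764053849391151)) (a (l 141771887871967279) (l 141775873602617391))) (l 141773605855477807))))) (a (l 141734779342602287) (l 141750035070304303)))) (a (l 141711208553103407) (l 141770994501615663))))) (b (l 141751340739346479) (b (l 141759106042363951) (b (c (l 141778622380752943) (l 141747217568038959)) (a (c (b (l 141772712504311855) (c (a (c (c (a (l 141781439881871407) (l 141785494332014639)) (l 141779653174509615)) (l 141773880736268335)) (c (c (a (l 141789548782157871) (l 141793603232301103)) (l 141787693355302959))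 (l 141781852197568559))) (l 141788792859279407))) (l 141742201045024815)) (c (b (l 141788655426912303) (c (a (c (c (a (l 141797657682444335) (l 141801780852064303)) (l 141795802255589423)) (l 141789961097838639)) (b (l 141801712131784751) (c (a (l 141804323473080367) (l 141808446642716719)) (l 141798413595590703)))) (l 141782127074017327))) (l 141757456772710447))))))) (b (l 141674855934705711) (a (c (b (l 141683308434505775) (l 141733061336973359)) (l 141654789840732207)) (c (a (l 141706947940614191) (l 141721447753908271)) (l 141681934041071663)))))) (b (l 141567722232266799) (c (b (l 141611565273382959) (a (l 141607442103844911) (c (l 141649154838790191) (l 141615963319648303)))) (a (l 141538860041732143) (l 141561537475117103)))))) (b (l 141353042513084463) (c (b (l 141435986949210159) (c (b (l 141479211514478639) (l 141485671147241519)) (l 141412759757897775))) (a (l 141292775512506415) (l 141308168679637039)))))), by decide +kernel⟩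

def k9_pm_102_a : ∃ t, chk3 f_pm_102_a t 67 126 1 = true :=
  ⟨(c (a (b (l 141589849915441199) (l 141620773688410159)) (l 141637403810463791)) (a (l 141357921596424239) (l 141384516043112495))), by decide +kernel⟩

def k10_pm_102_a : ∃ t, chk3 f_pm_102_a t 134 127 1 = true :=
  ⟨(c (b (a (l 141644000877379631) (l 141664273129799727)) (a (c (b (l 141735054215036975) (c (b (l 141782608109109295) (a (b (l 141782676828799023) (b (l 141786731279024175) (c (b (l 141805010666438703) (c (a (a (a (l 141807209691299887) (l 141809271276109871)) (l 141823633647534127)) (a (l 141816555542446127) (l 141820747431575599))) (l 141798207435604015))) (l 141773056097845295)))) (c (b (l 141815112431910959) (a (c (a (l 141822809016336431) (l 141827000905449519)) (l 141808446640111663)) (a (b (l 141821572064378927) (l 141846860832604207)) (a (a (a (a (l 141825214197596207) (l 141825420356091951)) (l 141825626514620463)) (l 141826107551137839)) (l 141827000904728623))))) (a (l 141780890120060975) (a (l 141786868716027951) (l 141812707240280111))))))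 (b (l 141717118423744559) (a (a (l 141716018912051247) (l 141723303178436655)) (a (l 141730656164315183) (a (l 141736222443339823) (l 141739314820726831))))))) (b (l 141603525089099823) (b (l 141615688439955503) (a (c (l 141652178494930991) (l 141582977957658671)) (a (l 141717393268736047) (a (l 141632112399368239) (l 141724883693797423))))))) (b (c (l 141757869088931887) (l 141623316304920623)) (c (b (l 141773399694966831) (b (c (l 141815112431943727) (l 141747286283616303)) (a (c (b (l 141814356516782127) (c (a (l 141831467672404015) (l 141836415476842543)) (l 141800269018628143))) (l 141747629880492079)) (c (a (c (l 141839988891336751) (l 141806178896298031)) (a (a (l 141826244991057967) (b (l 141826107552235567) (a (l 141873661430775855) (b (l 141828512734625839) (l 141829955843981359))))) (b (l 141827962978811951) (b (l 141830093283082287) (l 141831536392355887))))) (a (l 141754707989479471) (b (l 141758212684333103) (a (l 141804598331392047) (l 141761992256585775)))))))) (b (l 141636029411721263) (a (c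 (l 141675611843444783) (l 141604555879776303)) (a (l 141646887092371503) (b (l 141649086116708399) (b (l 141652453371985967) (a (l 141653552883826735) (l 141655751907803183))))))))))) (b (a (l 141378056409579567) (l 141393312138215471)) (b (a (l 141393243418755119) (l 141409255061848111)) (a (c (c (b (l 141510478884880431) (l 141517419554078767)) (l 141441140909588527)) (l 141328647089700911)) (b (l 141597821308649519) (c (a (l 141494810838302767) (a (l 141500858154401839) (l 141595003838939183))) (l 141436605393125423))))))), by decide +kernel⟩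

def k11_pm_102_a : ∃ t, chk3 f_pm_102_a t 135 127 1 = true :=
  ⟨(b (c (a (l 141681315567026223) (b (l 141689768067252271) (l 141888710957105199))) (a (l 141407674513834031) (b (l 141417020366061615) (l 141428015485583407)))) (b (c (a (a (l 141704817634050095) (c (l 141871531112955951) (l 141644962948251695))) (c (l 141796077131825199) (l 141658157091700783))) (a (c (l 141498040655708207) (l 141348988060991535)) (l 141619399231340591))) (c (b (a (a (a (c (l 141785425608343599) (l 141646955812749359)) (c (l 141790235973435439) (l 141651422580244527))) (l 141728594579685423)) (l 141742750795612207)) (c (b (a (a (a (a (l 141882320072196143) (l 141794702740111407)) (l 141798413592821807)) (l 141805766578765871)) (l 141820816148086831)) (c (a (a (l 141835659562205231) (l 141845830047399983)) (a (l 141901217948303407) (l 141911594591993903))) (a (l 141771475546980399) (l 141791129322438703)))) (a (b (a (c (l 141691417329106991) (l 141619742889721903)) (l 141664685442498607)) (l 141664616722726959)) (c (l 141716843542118447)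 (l 141643725993426991))))) (a (c (b (a (l 141504156690743343) (l 141512059432943663)) (b (l 141513158944653359) (l 141516594919292975))) (b (l 141356134888800303) (l 141360807814627375))) (c (l 141527452599795759) (l 141372558848458799)))))), by decide +kernel⟩

def k12_pm_102_a : ∃ t, chk3 f_pm_102_a t 34 31 1 = true :=
  ⟨(a (b (b (l 141460382381522991) (c (l 141619468029165615) (l 141387883300110383))) (a (b (b (l 141530751143919663) (c (a (l 141679941181554735) (l 141697808251600943)) (l 141422724084891695))) (b (b (c (l 141716980988788783) (l 141439079324893231)) (l 141776629447966767)) (c (b (l 141756632134565935) (c (b (l 141843218703892527) (a (b (l 141841363276939311) (c (c (a (l 141894689609842735) (l 14)) (l 141909876602732591)) (l 141856275391610927))) (c (c (l 14) (a (l 141877853330128943) (l 141888711010222127))) (a (l 141823908521525295) (l 141834353884692527))))) (b (l 141699182629355567) (c (a (l 141735947561664559) (l 141755532617646127)) (l 141761098866933807))))) (b (l 141462031635939375)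 (c (b (l 141548755643498543) (l 141736153658228783)) (l 141394480367648815)))))) (b (b (c (l 141687843927670831) (l 141430764266930223)) (l 141592048934453295)) (b (c (l 141765496951455791) (l 141475569377017903)) (c (b (l 141796695599939631) (c (b (l 141886030948892719) (c (b (l 141931454537777199) (l 14)) (b (l 141858199549411375) (a (c (l 141916611109503023) (l 141834560041222191)) (a (l 141959492060626991) (l 141925475922460719)))))) (b (l 141738009143869487) (a (c (l 141775667429556271) (l 141699526223249455)) (c (l 141886443231395887) (l 141719179998724143)))))) (b (l 141494123640340527) (c (a (l 141578442465247279) (l 141596446972936239)) (l 141425404140683311)))))))) (b (b (c (l 141617750051029039) (l 141404444701769775)) (a (c (l 141669220948820015) (l 141428633963659311)) (l 141584764672786479))) (b (c (l 141764397443809327) (l 141487526570328111)) (c (b (l 141827413216018479) (b (c (l 142025668939399215) (l 141784600961974319)) (c (b (a (l 141931042217590831) (l 141978389948989487)) (a (c (l 14) (c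 (l 14) (a (a (l 141869675702992943) (l 141880808261074991)) (a (l 141892078258126895) (l 141903485694148655))))) (l 14))) (a (b (l 141778897243111471) (b (l 141786662545555503) (c (a (l 141820335100772399) (c (l 141861772957515823) (l 141822396683976751))) (a (l 141741788712321071) (l 141762610719146031))))) (b (l 141822053085560879) (b (l 141920184499994671) (c (a (c (l 141884450390605871) (l 141844524361121839)) (a (l 141881701609127983) (l 141938395180384303))) (a (l 141783982481883183) (l 141805904000565295))))))))) (b (l 141525459730661423) (b (c (l 141627164587737135) (l 141463337302179887)) (c (a (a (l 141795114985078831) (l 141724127770607663)) (b (l 141659325310779439) (a (l 141657882201112623) (l 141858336919994415)))) (a (l 141458320778969135) (l 141493299001983023))))))))), by decide +kernel⟩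

def k13_pm_102_a : ∃ t, chk3 f_pm_102_a t 35 31 1 = true :=
  ⟨(c (b (b (l 141722959601221679) (l 141805697865957423)) (b (a (l 141848716263489583) (l 141942312214413359)) (b (a (a (l 141894346003398703) (l 141941831173783599)) (l 142017697494990895)) (c (l 14) (b (a (a (l 141850640395976751) (l 141897644529926191)) (l 142062640012279855)) (a (a (b (l 141867407951724591) (c (c (l 14) (b (l 141896545018462255) (a (a (l 141884656545693743) (l 141896476298674223)) (a (l 141908433490624559) (l 14))))) (a (a (a (l 141817173997748271) (l 141822808996266031)) (l 141831398933020719)) (a (l 141842875088551983) (l 141854488683053103))))) (b (l 141915168000065583) (c (l 14) (b (l 141881426724831279) (a (c (l 141896476295381039) (l 141853595327954991)) (a (l 141893246477549615) (l 141950489804734511))))))) (a (b (l 141965333230583855) (c (l 14) (b (l 141930904760451119) (a (c (l 14) (l 141902180010180655)) (b (l 141948153353224239) (l 14)))))) (l 14)))))))) (b (b (l 141488694805807151) (l 141538310279233583)) (b (a (l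 141555902468161583) (l 141632730863386671)) (a (b (l 141779378216747055) (b (a (l 141602700442402863) (l 141643176224718895)) (c (a (b (l 141700419568500783) (a (a (l 141783776291749935) (l 141704267859886127)) (a (l 141714988100993071) (l 141905959529627695)))) (b (l 141743850288906287) (a (a (l 141826863414689839) (l 141837995972755503)) (c (l 141899225044877359) (l 141720210779897903))))) (a (a (l 141520924238921775) (l 141540028258467887)) (b (l 141566072946950191) (l 141708597143568431)))))) (b (l 141681934020116527) (b (c (l 141798001250746415) (l 141616925372956719)) (c (a (b (l 141789617471995951) (b (l 141797245335601199) (c (a (l 141835453377003567) (c (l 141882457512329263) (l 141837102643396655))) (a (l 141745155956228143) (l 141768383145213999))))) (b (l 141837721117802543) (b (l 141935783812857903) (c (a (c (l 141907677566582831) (l 141861772941705263)) (c (l 14) (l 141887061715435567))) (a (l 141792228809637935) (l 141816624229990447)))))) (a (a (l 141600707572138031) (l 141802193083400239)) (b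 (l 141651010242002991) (a (l 141648124023177263) (l 141850983924236335))))))))))), by decide +kernel⟩

def k14_pm_102_a : ∃ t, chk3 f_pm_102_a t 9 14 1 = true :=
  ⟨(b (a (l 16542840) (l 16577768)) (a (a (l 16542360) (l 16557960)) (l 16592328))), by decide +kernel⟩

def k15_pm_102_a : ∃ t, chk3 f_pm_102_a t 9 30 1 = true :=
  ⟨(a (a (b (l 16552944) (l 141843493535154223)) (b (l 16571488) (l 141881495449944111))) (b (l 16588432) (a (l 16590680) (l 142314290819498095)))), by decide +kernel⟩

def k16_pm_102_a : ∃ t, chk3 f_pm_102_a t 18 62 1 = true :=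
  ⟨(b (a (l 141768589325582383) (l 142010275775348783)) (a (a (l 141801437239590959) (l 141897507092201519)) (b (l 142082156362317871) (l 142132802626715695)))), by decide +kernel⟩

def k17_pm_102_a : ∃ t, chk3 f_pm_102_a t 18 126 1 = true :=
  ⟨(a (a (c (l 142071298699083823) (l 141718767670362159)) (b (l 141965539388112943) (l 142013849190252591))) (b (a (l 142101947577417775) (l 142267355386921007)) (a (l 142157266767036463) (l 142141736194244655)))), by decide +kernel⟩

def k18_pm_102_a : ∃ t, chk3 f_pm_102_a t 18 127 2 = true :=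
  ⟨(a (c (b (a (l 142124006586679471) (l 142110949915705519)) (b (a (l 142169636327686319) (l 142155823742419119)) (a (a (l 14) (b (l 142054943532859567) (c (b (l 142498252895486127) (a (l 142395242397614255) (l 142526702763966639))) (l 14)))) (a (b (l 142318070424027311) (a (c (l 142563673849004207) (l 14)) (c (l 142604012189024431) (a (l 14) (l 142473994909302959))))) (b (l 142579204450009263) (c (a (l 142643938212102319) (l 142683314479268015)) (b (l 142521067759190191) (a (l 142508492092817583) (l 142548899152314543))))))))) (l 14)) (b (a (l 142133352462270639) (a (l 142610952846262447) (l 142686750442438831))) (b (a (a (l 142137613071237295) (l 142216915361415343)) (a (l 142114111037882543) (l 142549861253169327))) (c (a (a (c (l 142733892023025839) (b (l 142589581089521839) (a (l 142584976883957935) (l 142624421870600367)))) (a (l 142633561581781167) (l 142761654693150895))) (a (c (l 142883906667266223) (l 142751209327526063)) (l 142890984771207343))) (a (c (a (a (l 14) (b (l 142471246123221167) (a (l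 142476400085123247) (l 142496534895378607)))) (b (l 142531169517551791) (a (b (l 142522717020602543) (l 142530276164501679)) (l 142566010298679471)))) (l 14)) (a (a (c (l 142507392590479535) (l 14)) (c (l 142636035457745071) (c (l 142534536768061615) (l 14)))) (b (l 142618786862792879) (c (l 142700494338457775) (a (l 142456952479695023) (l 142585664066453679)))))))))), by decide +kernel⟩

def k19_pm_102_a : ∃ t, chk3 f_pm_102_a t 18 127 3 = true :=
  ⟨(a (b (a (l 141773811983794223) (l 141875448115167279)) (b (a (c (l 141897575797391407) (l 141707428946772015)) (c (l 142007252109197359) (l 141807690688299055))) (a (c (a (b (l 141888298665263151) (c (b (l 141943961457934383) (a (c (l 14) (l 141912968964587567)) (l 14))) (b (l 141849059831218223) (a (l 141841706845241391) (l 141934890462068783))))) (b (l 141941418833887279) (c (l 14) (a (a (l 141974335445958703) (l 141942587050983471)) (c (l 14) (l 141892971586256943)))))) (a (a (b (l 141685301269561391) (l 141784119879237679)) (c (l 141852495778201647) (l 141663998224089135)))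 (b (l 141745430826795055) (c (a (l 141792366243446831) (l 141818067334103087)) (l 141794359081549871))))) (a (c (b (l 141997081623691311) (c (l 14) (b (l 141956399680307247) (a (c (l 14) (l 141923139443884079)) (l 14))))) (b (l 141796420691181615) (b (l 141803911115915311) (a (c (l 141847066960412719) (l 141744125153968175)) (c (l 141964164955422767) (l 141770032403103791)))))) (c (l 14) (b (l 141849953176731695) (a (c (a (l 141982169462767663) (l 141996188239446063)) (l 141794084225892399)) (c (c (l 14) (l 141901011761610799)) (l 141821159706378287))))))))) (c (l 14) (b (a (l 141885549874888751) (l 142003403806097455)) (b (a (l 141918329072943151) (l 142039962576142383)) (a (a (b (l 141906165722431535) (c (b (l 141968219427586095) (a (c (l 14) (l 141932622728577071)) (l 14))) (b (l 141860467256672303) (a (l 141851602441994287) (l 141970212265803823))))) (b (l 141965127047774255) (c (l 14) (a (a (l 141989316284973103) (l 142004022256582703)) (c (l 14) (l 141908364742377519)))))) (a (b (l 142026905872236591)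 (c (l 14) (b (l 141979558138708015) (l 14)))) (l 14))))))), by decide +kernel⟩

def k20_pm_102_a : ∃ t, chk3 f_pm_102_a t 19 62 1 = true :=
  ⟨(a (b (l 142149570210005039) (a (l 142348238223212591) (l 142499489817706543))) (b (a (l 16579936) (l 142688812005589103)) (a (l 142283229649305711) (c (l 143022720018137199) (l 142536392170061999))))), by decide +kernel⟩

def k21_pm_102_a : ∃ t, chk3 f_pm_102_a t 38 63 1 = true :=
  ⟨(b (c (a (b (l 142688056110563503) (l 142741657312886959)) (l 142856831175344303)) (a (l 142182005770371119) (l 142159534529036335))) (c (a (b (a (l 142760692612399279) (l 142832848075604143)) (b (a (l 142803573574238383) (l 142875385440043183)) (c (a (l 142962315600625839) (l 143031928442798255)) (a (b (l 142694172142092463) (a (l 142510072620581039) (l 142727432375009455))) (a (l 142576661848080559) (l 142793059486711983)))))) (b (a (l 142903216832086191) (l 142791685133320367)) (b (a (l 142945341879632047) (c (l 143137550296465583) (l 142888098539045039))) (a (c (l 143099685858754735)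 (a (l 142828862340399279) (b (l 142857037330628783) (c (l 142935102673404079) (l 142807421857022127))))) (c (l 143165794006958255) (a (b (l 142892015550447791) (l 142906377923969199)) (l 142933796999807151))))))) (c (b (a (l 142220420004298927) (a (l 142515501457588399) (l 142589924663951535))) (b (a (l 142173415890927791) (a (l 142558038822371503) (a (l 142613701608325295) (l 142650397815357615)))) (b (a (a (l 142156304738779311) (l 142323911556219055)) (a (l 142579685461967023) (a (l 142274914592424111) (l 142671769577013423)))) (c (a (a (c (a (l 142523266766192815) (l 142561680960487599)) (l 14)) (a (l 142566353884315823) (l 142604080883712175))) (a (a (l 142641326846673071) (a (l 142668952081186991) (a (l 142682695978959023) (l 142691835670970543)))) (a (l 142714513091559599) (l 142750453394948271)))) (a (l 14) (a (c (a (l 142542508217548975) (b (l 142576386925445295) (a (l 142574394060472495) (a (l 142588344116723887) (l 142597689967198383))))) (l 14)) (a (b (l 142580853690876079) (l 142588137956901039))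 (l 142621398189392047)))))))) (l 14)))), by decide +kernel⟩

def k22_pm_102_a : ∃ t, chk3 f_pm_102_a t 39 63 1 = true :=
  ⟨(b (a (c (b (l 142966232600592495) (l 143018459413332079)) (b (l 142464374148677807) (l 142156785781850287))) (b (l 142857312197410927) (l 142368098253127791))) (a (c (b (a (l 143039006541824175) (l 143104771092529263)) (c (a (l 143216371550355631) (l 143279387321516143)) (b (l 142990559296815279) (a (l 142984786860507311) (l 143051307325653167))))) (b (b (l 142197261562118319) (l 142224749358563503)) (b (a (l 142215815825932463) (l 142288658484068527)) (c (b (a (l 142725783095230639) (l 142796220571271343)) (a (c (l 142803504840327343) (a (l 142657888237961391) (l 142693897250111663))) (a (l 142792715877777583) (l 142827350500147375)))) (c (a (c (b (l 142564979484639407) (a (l 142560718876819631) (l 142597483803328687))) (l 14)) (b (l 142605798859735215) (a (b (l 142598170996818095) (l 142605180384919727)) (l 142637753422512303)))) (l 14)))))) (c (c (a (l 143314021943165167) (l 143373945337282799))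 (b (l 143081475179233455) (a (l 143102640783360175) (l 143165793993490607)))) (c (b (l 142838757932794031) (c (a (l 142919915653709999) (l 142985817643434159)) (a (a (l 142778834537595055) (l 142813263001485487)) (b (l 142850852561371311) (l 142877309565501615))))) (b (l 142229353558524079) (b (l 142269279583027375) (a (b (l 142253748979335343) (c (a (l 142673350117720239) (l 142708603215478959)) (a (a (l 142491724500992175) (l 142554946433532079)) (a (l 142573019659092143) (l 142591024165159087))))) (b (l 142684894988796079) (c (a (l 142743375276818607) (l 142777666301722799)) (a (l 142527664801562799) (l 142653009144053935))))))))))), by decide +kernel⟩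

def k23_pm_102_a : ∃ t, chk3 f_pm_102_a t 5 6 1 = true :=
  ⟨(a (b (a (b (l 16598632) (l 16604320)) (l 16621768)) (a (l 16608848) (b (l 16634088) (l 16643496)))) (b (a (l 16645272) (l 16669136)) (a (b (l 16660016) (l 16676232)) (b (l 16687080) (l 16703648))))), by decide +kernel⟩

def k24_pm_102_a : ∃ t, chk3 f_pm_102_a t 20 14 1 = true :=
  ⟨(b (l 16618624) (a (l 16625320) (l 16645712))), by decide +kernel⟩

def k25_pm_102_a : ∃ t, chk3 f_pm_102_a t 40 30 1 = true :=
  ⟨(b (l 16643168) (b (l 16654304) (a (l 16656904) (l 16668200)))), by decide +kernel⟩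

def k26_pm_102_a : ∃ t, chk3 f_pm_102_a t 80 31 1 = true :=
  ⟨(b (b (l 142816767694651503) (c (l 143140780100993135) (l 142672113161519279))) (b (a (c (l 143211973493375087) (l 142738633629778095)) (b (l 143009938183864431) (c (l 143287152616095855) (l 142823570920046767)))) (c (a (b (l 143107245026132079) (c (b (l 143439641169379567) (l 143464242746818799)) (b (l 143209430869000303) (a (l 143222693730779311) (l 143245989637816431))))) (b (b (l 143323092909572207) (l 143346388816740463)) (c (l 143493036212977903) (l 143268735788744815)))) (b (a (c (l 142934896498180271) (l 142691904374931631)) (b (l 142860129689370799) (l 142884318950195375))) (a (c (a (b (l 142959566795686063) (a (l 142978533375312047) (l 142991933675864239))) (b (l 142986848433242287) (l 143011450010894511))) (b (a (l 142715406441332911) (l 142745368138940591)) (c (a (b (l 142796495441379503) (a (l 142802267878768815) (l 142816492813140143))) (l 142831473661739183)) (a (b (l 142672937795518639) (a (a (b (l 142671357247471791) (l 142677885599154351))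 (l 142682214926925999)) (l 142693416203731119))) (c (l 142740145457381551) (a (l 142671151088124079) (l 142686406814810287))))))) (c (b (l 143026362139738287) (a (l 143037632136429743) (l 143064020420411567))) (b (l 142789760929185967) (b (l 142808590069727407) (c (a (l 142866383162556591) (l 142895176628682927)) (b (l 142758218682319023) (a (b (l 142747773320020143) (c (l 142781170992890031) (a (l 142713001257533615) (l 142728394423189679)))) (c (l 142809620861517999) (b (l 142748460514050223) (c (l 142766602459791535) (b (l 142735884847104175) (a (l 142729700093083823) (l 142745368136679599))))))))))))))))), by decide +kernel⟩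

def k27_pm_102_a : ∃ t, chk3 f_pm_102_a t 81 31 1 = true :=
  ⟨(b (b (l 142934278022692975) (c (l 143244134214369519) (a (l 142765846545907887) (l 142827350489153647)))) (b (c (b (l 143311616754041071) (l 143356078264205551)) (b (l 142864871332184175) (l 142910775952261231))) (c (b (l 143401364408189167) (c (l 143554540156109039) (a (l 143315739919565039) (l 143363362525757679)))) (c (b (l 143071029807202415) (b (l 143106763942412399) (a (a (l 143090683582333103) (l 143117552902717615)) (c (l 143212866836840687) (l 143103053088276655))))) (b (l 142843568288514223) (b (a (l 142849890482471087) (l 142911050828054703)) (b (a (l 142868582184059055) (l 142929536371196079)) (a (c (a (l 142924313692225711) (l 142953656914247855)) (b (l 142819860064403631) (a (b (l 142809071104671919) (c (l 142841575424180399) (c (l 142797594949566639) (a (l 142760280265900207) (l 142776017028989103))))) (c (l 142870643768197295) (a (a (l 142800962204057775) (l 142808864945356975)) (l 142820684697551023)))))) (a (c (l 142983206294716591)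 (a (a (l 142858136798642351) (l 142865970841911471)) (l 142877790594089135))) (c (l 143013030553108655) (b (l 142898337721352367) (l 142904591181643951)))))))))))), by decide +kernel⟩

def k28_pm_102_a : ∃ t, chk3 f_pm_102_a t 41 15 1 = true :=
  ⟨(b (b (l 16664608) (a (b (l 16670936) (l 16679176)) (l 16685400))) (b (a (b (a (l 16685104) (l 16690040)) (l 143131846557007983)) (c (l 143394423736680687) (l 142998393296339055))) (b (c (a (l 143425553667539183) (l 143518737294835951)) (a (l 142825976134762607) (l 143127173623251055))) (c (a (c (l 143615631781986543) (a (l 143388445139026159) (l 143437304695931119))) (c (l 143701050107117871) (b (l 143488706873409775) (l 143533993017737455)))) (a (b (c (l 143181462026567791) (l 142968088003215535)) (c (a (c (l 143254098530222319) (l 143147514597638319)) (l 143256503709991151)) (c (b (l 143057835659395247) (a (l 143051925783953583) (l 143112673812545711))) (b (l 142950358374006959) (a (a (l 142926993748345007) (l 142959017030402223)) (l 143007464270381231)))))) (a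 (b (l 143165381661327471) (c (l 143312578813247727) (c (l 143162083125002479) (l 143060446996250799)))) (c (l 143345976484397295) (c (l 143200634757726447) (l 143102434603385007))))))))), by decide +kernel⟩

def k29_pm_102_a : ∃ t, chk3 f_pm_102_a t 21 7 1 = true :=
  ⟨(b (b (a (l 16646336) (l 16665512)) (a (l 16666304) (l 16686536))) (b (a (b (l 16685728) (b (l 16696248) (l 16703712))) (c (l 16732168) (l 16692336))) (b (c (a (l 143538528504824111) (l 143731698987516207)) (a (b (l 16689976) (l 143226816879313135)) (a (l 143377175119282415) (l 16721440)))) (c (b (a (a (l 143613089153270063) (l 143708059486945583)) (l 143849759072764207)) (a (a (c (l 143787361785446703) (l 143611165003546927)) (c (l 143874017061077295) (l 143711839054954799))) (a (l 143886867599163695) (l 143979295311511855)))) (b (a (a (l 143250387667206383) (l 143375044820271343)) (a (l 143500526607007983) (l 143624427845288239))) (b (a (a (l 143317664049316079) (l 143441290410115311)) (a (l 143565672685125871) (l 143688474411647279))) (a (a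 (c (l 143454621997400303) (a (l 143240011023646959) (l 143305088379863279))) (c (l 143569795861086447) (a (l 143370509333496047) (l 143436205165035759)))) (a (a (l 143399508994605295) (l 143641332844183791)) (l 143732386166882607))))))))), by decide +kernel⟩

def k30_pm_102_a : ∃ t, chk3 f_pm_102_a t 11 7 1 = true :=
  ⟨(b (a (b (l 16693504) (l 16713808)) (b (l 16724896) (l 16765136))) (b (a (a (a (l 16726000) (l 16734824)) (a (l 16743296) (l 16751408))) (a (a (l 16759112) (l 16766040)) (l 16774608))) (c (a (a (b (l 16769096) (b (l 144033446265471343) (a (l 144069592719475055) (l 144157622384066927)))) (b (l 16783376) (b (l 144207444009369967) (c (l 144328596477346159) (l 144240910418641263))))) (b (a (l 16796064) (l 16805816)) (a (a (b (l 16804432) (l 144405287418708335)) (c (l 144471395570467247) (l 144413052732948847))) (b (l 16816752) (a (a (l 144527814264209775) (l 144558531874619823)) (a (l 16825400) (l 16827280))))))) (a (b (a (l 143685863062012207) (l 16755720)) (b (a (a (l 143745305425756463) (l 143863021909459247))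 (l 144032965203788079)) (a (a (b (l 143808183760863535) (l 143851339601756463)) (b (l 143924732013314351) (l 143966925781434671))) (a (b (l 144037775571566895) (l 144079144705851695)) (b (l 144147314435588463) (l 144187652777607535)))))) (a (b (l 16772704) (b (l 144244552506818927) (a (a (l 144246820255433071) (l 144297741395853679)) (c (l 144395323073724783) (a (l 144319525468111215) (l 144368659901563247)))))) (b (l 16786200) (b (a (l 16795328) (l 16800872)) (b (a (l 16801616) (l 16807048)) (a (a (c (l 16808744) (l 144434424452366703)) (c (l 16811464) (b (l 16802400) (c (l 16806472) (l 16802768))))) (c (a (l 16813960) (l 16816240)) (a (b (l 16805256) (l 16807400)) (l 16808872)))))))))))), by decide +kernel⟩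

def k31_pm_102_a : ∃ t, chk3 f_pm_102_a t 6 2 1 = true :=
  ⟨(a (b (a (l 16687208) (l 16689792)) (a (l 16675160) (l 16689440))) (b (a (b (l 16745224) (l 16737256)) (b (l 16735976) (l 16739760))) (a (b (l 16717584) (l 16701824)) (b (l 16824168) (a (l 16722968) (l 16737984)))))), by decide +kernel⟩

def k32_pm_102_a : ∃ t, chk3 f_pm_102_a t 14 2 1 = true :=
  ⟨(a (b (a (b (l 16716784) (l 16725216)) (b (l 16701128) (a (l 16714792) (l 16707200)))) (b (a (l 16733448) (l 16722064)) (a (l 16739488) (l 16733304)))) (b (a (b (a (l 16688736) (b (a (l 16679904) (l 16675760)) (l 16682712))) (b (l 16692224) (l 16698008))) (b (a (b (a (l 16671600) (l 16667440)) (a (l 16676384) (l 16672280))) (b (c (a (l 16653248) (b (l 123647844071) (l 98414907335))) (a (b (l 16661576) (l 16663200)) (b (l 130627165607) (l 101636136967)))) (a (l 16668096) (b (l 16662768) (l 16665256))))) (b (a (a (l 16681808) (l 16677568)) (a (l 16673488) (l 16669328))) (a (l 16685680) (a (l 16679384) (l 16675304)))))) (a (b (b (l 16704240) (l 16710896))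 (b (l 16717984) (l 16725472))) (b (b (a (l 16692216) (l 16683952)) (l 16695312)) (b (l 16703152) (a (l 16715240) (l 16707880))))))), by decide +kernel⟩

def k33_pm_102_a : ∃ t, chk3 f_pm_102_a t 15 2 1 = true :=
  ⟨(a (b (a (b (a (b (a (b (l 3) (l 142975194279)) (l 3)) (a (b (a (l 103783615399) (l 140827712791)) (c (l 16662288) (l 16659776))) (b (l 3) (l 139217099255)))) (l 3)) (a (b (a (l 16665288) (b (a (l 16660928) (l 133311518023)) (l 16662696))) (b (l 16667608) (l 16670720))) (b (a (b (l 3) (l 140290843831)) (l 3)) (a (b (a (l 16662696) (l 126332204071)) (l 16664816)) (b (l 3) (l 125258466439)))))) (l 3)) (a (b (a (b (a (l 16677808) (l 16673816)) (a (l 16685208) (l 16681208))) (b (a (l 16669880) (b (l 107004870919) (l 16667744))) (a (l 16698296) (l 16673408)))) (a (b (l 16691368) (l 16700232)) (b (a (l 16685480) (b (l 16679448) (l 16683752))) (a (l 16694456) (l 16690632))))) (b (a (b (a (b (l 142438330903) (l 124721612455)) (l 3)) (a (b (l 97878074055) (l 16671504)) (b (l 138143370215) (a (l 104320527127)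 (l 137606516487))))) (l 3)) (b (a (a (l 16677800) (b (a (l 16672784) (l 102173048951)) (l 16676176))) (a (b (l 136532765943) (a (l 95730601639) (l 133311547175))) (l 3))) (a (a (b (l 16684456) (l 16689192)) (b (l 16680712) (l 16685472))) (a (b (b (l 104320540183) (l 16678208)) (l 16681824)) (b (a (l 132237810807) (l 3)) (a (b (l 112910477863) (l 16680368)) (b (l 3) (l 130627218999)))))))))) (b (l 3) (l 3))), by decide +kernel⟩

def k34_pm_102_a : ∃ t, chk3 f_pm_102_a t 6 3 1 = true :=
  ⟨(b (a (a (b (l 16686520) (l 16712024)) (b (l 16696328) (l 16719272))) (b (a (l 16703288) (l 16797304)) (a (l 16763728) (l 16743504)))) (a (b (a (b (l 16741048) (a (l 16759592) (l 16765808))) (b (l 16789088) (a (l 16812704) (l 16772288)))) (b (a (a (c (l 16792832) (l 16774464)) (b (l 16782624) (l 16795320))) (a (b (l 16786544) (l 16798984)) (l 16794800))) (a (b (a (a (l 16801928) (l 16826256)) (a (l 16808000) (l 16810160))) (b (a (a (a (l 16812296) (l 16814120)) (l 16816496)) (l 16820136)) (a (a (b (c (l 16827840) (l 16811488))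 (c (l 16831784) (a (c (l 16818304) (l 16811168)) (l 16816552)))) (l 144683326446223791)) (c (l 16835656) (l 144743112384119151))))) (a (b (l 16812432) (a (l 16826328) (l 16827320))) (b (l 16813960) (b (l 16824360) (l 16831584))))))) (b (a (b (l 16747904) (a (l 16771544) (l 16769648))) (b (l 16744728) (a (l 16767976) (l 16764880)))) (a (b (a (l 16795264) (l 16815832)) (a (b (l 16813880) (b (l 16823984) (l 16831000))) (b (l 16812376) (a (l 16826216) (l 16824952))))) (b (b (a (l 16786832) (l 16782648)) (a (l 16797768) (l 16794920))) (b (a (l 16809712) (l 16806312)) (a (b (l 16819232) (a (l 16826760) (l 16830192))) (b (l 16836504) (a (c (l 16828688) (l 16818152)) (a (c (l 16827048) (l 16816720)) (c (l 16825976) (l 16815768)))))))))))), by decide +kernel⟩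

def k35_pm_102_a : ∃ t, chk3 f_pm_102_a t 14 6 1 = true :=
  ⟨(a (b (a (l 16736784) (l 16804912)) (b (l 16749688) (l 16730024))) (a (b (l 16737000) (b (l 16746336) (l 16744168))) (b (b (a (l 16724176) (l 16717184)) (l 16730704)) (b (l 16740928) (a (l 16751136) (l 16749312)))))), by decide +kernel⟩

def k36_pm_102_a : ∃ t, chk3 f_pm_102_a t 30 6 1 = true :=
  ⟨(a (b (b (a (l 16709904) (l 16702400)) (a (l 16720536) (l 16713352))) (b (a (l 16732480) (l 16725608)) (a (l 16745096) (a (l 16740800) (l 16779600))))) (b (a (b (a (l 16696800) (b (l 16711416) (l 16695696))) (l 16706024)) (a (b (b (l 16686824) (l 16692056)) (b (a (l 16698520) (l 16696712)) (l 16703528))) (b (b (a (l 16684160) (b (l 112373613351) (l 16683696))) (l 16688552)) (b (l 16694104) (a (l 16700824) (l 16699104)))))) (b (a (l 16739504) (b (a (l 16709792) (a (l 16707112) (l 16705352))) (l 16714640))) (a (b (l 16728736) (l 16735784)) (b (l 16721608) (l 16728864)))))), by decide +kernel⟩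

def k37_pm_102_a : ∃ t, chk3 f_pm_102_a t 31 6 1 = true :=
  ⟨(b (a (a (b (a (b (b (l 3) (l 133848457879)) (a (b (l 112373619015) (l 16687320)) (b (l 3) (l 129553489495)))) (l 3)) (a (b (a (l 16691528) (b (l 104320562263) (l 16691256))) (c (l 16698728) (l 16694560))) (b (a (b (l 143512124455) (l 127406023911)) (l 3)) (a (b (c (l 104320569687) (l 16690776)) (l 16695536)) (b (l 151565196343) (c (l 136532820519) (l 130627238983))))))) (l 3)) (l 3)) (a (b (a (a (b (a (l 16703632) (l 16701944)) (a (l 16710328) (l 16708600))) (b (a (l 16700256) (b (c (l 113447382599) (l 16695392)) (l 16700168))) (a (l 16706920) (l 16705208)))) (a (b (a (b (l 149954592471) (c (l 137606571255) (l 139754054455))) (l 3)) (a (b (c (l 123111067463) (l 16700368)) (l 16705192)) (b (l 148880860199) (c (l 139754064519) (l 140827800871))))) (l 3))) (a (b (a (l 16716600) (b (l 16711344) (l 16736040))) (a (l 16723952) (a (l 16721624) (b (l 16718096) (l 16721888))))) (a (b (a (b (l 16708744) (l 16712464)) (a (b (l 16707400) (l 16711080)) (b (l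 133311622775) (l 16715392)))) (a (l 16718144) (l 16716288))) (b (a (b (a (l 147807129591) (l 3)) (c (l 141364692855) (l 142975295495))) (l 3)) (a (b (c (l 130627278375) (l 16711424)) (l 16716312)) (b (l 146733397799) (c (l 136532860503) (l 138680339879)))))))) (l 3))), by decide +kernel⟩

def k38_pm_102_a : ∃ t, chk3 f_pm_102_a t 14 7 1 = true :=
  ⟨(b (a (b (l 16741800) (a (l 16761896) (l 16759376))) (a (b (l 16743112) (l 16799576)) (b (a (l 16747088) (l 16839208)) (b (l 16752824) (l 16759872))))) (a (b (b (a (l 16779016) (l 16775624)) (a (b (l 16788504) (l 16794016)) (a (l 16830224) (l 16828064)))) (b (a (b (l 16799624) (l 16805504)) (l 16798992)) (b (a (a (l 16812592) (l 16810736)) (a (l 16808840) (l 16806952))) (a (b (a (l 16817400) (l 16815504)) (a (c (l 16826176) (l 16816000)) (c (l 16824112) (l 16814072)))) (a (c (l 16820304) (b (l 16808976) (l 16812088))) (c (l 16818104) (l 16813872))))))) (b (a (b (l 16772424) (b (l 16780872) (l 16807520))) (b (l 16769088) (l 16801000))) (a (b (b (a (l 16794008) (l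 16792272)) (l 16798440)) (b (l 16819856) (a (c (l 16815864) (l 16806808)) (c (l 16813536) (l 16805000))))) (b (b (a (l 16789984) (l 16787840)) (a (l 16795808) (l 16815168))) (b (l 16815928) (a (c (l 16811088) (l 16803152)) (c (l 16808464) (l 16801224))))))))), by decide +kernel⟩

def k39_pm_102_a : ∃ t, chk3 f_pm_102_a t 15 14 1 = true :=
  ⟨(a (a (b (a (b (l 16754152) (l 16757856)) (l 16752472)) (b (a (l 16754424) (l 16760024)) (a (l 16758168) (l 16758096)))) (b (a (b (l 16743064) (l 16750152)) (b (a (l 16737880) (l 16734680)) (a (l 16745600) (l 16742184)))) (a (b (l 16757280) (l 16783416)) (b (l 16772776) (l 16780320))))) (a (b (a (b (a (l 16731432) (l 16728216)) (l 16737440)) (a (b (a (b (l 16723912) (l 16727728)) (b (l 16722096) (l 16726016))) (b (l 16730800) (l 16734680))) (b (a (l 16722224) (b (c (l 126869194119) (l 123111093751)) (l 16722376))) (a (b (l 16728232) (l 16732344)) (b (l 16726440) (l 16730600)))))) (a (b (a (l 16767928) (l 16743856)) (a (l 16755376) (b (l 16750016) (l 16754448)))) (a (b (l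 16740760) (b (l 16747016) (l 16751216))) (b (a (l 16738512) (b (c (l 16735704) (l 16733992)) (l 16739056))) (b (l 16743992) (l 6)))))) (a (b (a (b (a (b (l 143512184103) (c (l 130090421415) (l 132774772263))) (l 3)) (a (b (c (l 115594917719) (l 115594913911)) (l 16728808)) (b (c (l 141901585735) (l 143512194951)) (c (a (l 118279277575) (l 138143496791)) (l 128479818119))))) (l 3)) (b (a (a (b (l 16733064) (c (l 16738168) (l 16736616))) (b (c (a (l 16732552) (l 113984316967)) (l 111299960663)) (c (l 16736408) (l 16734992)))) (a (b (c (l 140290986055) (l 142975337591)) (a (a (l 16734576) (l 6)) (l 6))) (l 3))) (a (a (a (a (l 16744480) (l 6)) (l 6)) (l 6)) (l 6)))) (l 3)))), by decide +kernel⟩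

def k40_pm_102_a : ∃ t, chk3 f_pm_102_a t 15 15 1 = true :=
  ⟨(a (b (a (b (l 16786456) (a (l 16776856) (l 16774520))) (a (b (l 16762896) (l 16772000)) (b (a (l 16784136) (l 16786168)) (b (l 16766992) (l 16771800))))) (a (b (b (l 16805328) (a (b (l 16790104) (l 16793304)) (b (l 16787608) (l 16790552)))) (b (a (l 16796960) (b (l 16793400) (l 6))) (a (b (l 16800904) (l 16803576)) (l 6)))) (b (a (b (l 16780256) (l 6)) (l 6)) (l 6)))) (b (a (a (b (a (l 16784392) (l 16760936)) (l 6)) (l 6)) (l 6)) (l 6))), by decide +kernel⟩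

theorem s41_pm_102_a : ∃ t, chk3 f_pm_102_a t 15 7 1 = true := ex3_b k39_pm_102_a k40_pm_102_a

theorem s42_pm_102_a : ∃ t, chk3 f_pm_102_a t 7 7 1 = true := ex3_a k38_pm_102_a s41_pm_102_a

theorem s43_pm_102_a : ∃ t, chk3 f_pm_102_a t 15 6 1 = true := ex3_a k36_pm_102_a k37_pm_102_a

theorem s44_pm_102_a : ∃ t, chk3 f_pm_102_a t 7 6 1 = true := ex3_a k35_pm_102_a s43_pm_102_a

theorem s45_pm_102_a : ∃ t, chk3 f_pm_102_a t 7 3 1 = true := ex3_b s44_pm_102_a s42_pm_102_a

theorem s46_pm_102_a : ∃ t, chk3 f_pm_102_a t 3 3 1 = true := ex3_a k34_pm_102_a s45_pm_102_a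

theorem s47_pm_102_a : ∃ t, chk3 f_pm_102_a t 7 2 1 = true := ex3_a k32_pm_102_a k33_pm_102_a

theorem s48_pm_102_a : ∃ t, chk3 f_pm_102_a t 3 2 1 = true := ex3_a k31_pm_102_a s47_pm_102_a

theorem s49_pm_102_a : ∃ t, chk3 f_pm_102_a t 3 1 1 = true := ex3_b s48_pm_102_a s46_pm_102_a

theorem s50_pm_102_a : ∃ t, chk3 f_pm_102_a t 40 31 1 = true := ex3_a k26_pm_102_a k27_pm_102_a

theorem s51_pm_102_a : ∃ t, chk3 f_pm_102_a t 40 15 1 = true := ex3_b k25_pm_102_a s50_pm_102_a

theorem s52_pm_102_a : ∃ t, chk3 f_pm_102_a t 20 15 1 = true := ex3_a s51_pm_102_a k28_pm_102_a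

theorem s53_pm_102_a : ∃ t, chk3 f_pm_102_a t 20 7 1 = true := ex3_b k24_pm_102_a s52_pm_102_a

theorem s54_pm_102_a : ∃ t, chk3 f_pm_102_a t 10 7 1 = true := ex3_a s53_pm_102_a k29_pm_102_a

theorem s55_pm_102_a : ∃ t, chk3 f_pm_102_a t 5 7 1 = true := ex3_a s54_pm_102_a k30_pm_102_a

theorem s56_pm_102_a : ∃ t, chk3 f_pm_102_a t 5 3 1 = true := ex3_b k23_pm_102_a s55_pm_102_a

theorem s57_pm_102_a : ∃ t, chk3 f_pm_102_a t 19 63 1 = true := ex3_a k21_pm_102_a k22_pm_102_a

theorem s58_pm_102_a : ∃ t, chk3 f_pm_102_a t 19 31 1 = true := ex3_b k20_pm_102_a s57_pm_102_a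

theorem s59_pm_102_a : ∃ t, chk3 f_pm_102_a t 18 127 1 = true := ex3_c k18_pm_102_a k19_pm_102_a

theorem s60_pm_102_a : ∃ t, chk3 f_pm_102_a t 18 63 1 = true := ex3_b k17_pm_102_a s59_pm_102_a

theorem s61_pm_102_a : ∃ t, chk3 f_pm_102_a t 18 31 1 = true := ex3_b k16_pm_102_a s60_pm_102_a

theorem s62_pm_102_a : ∃ t, chk3 f_pm_102_a t 9 31 1 = true := ex3_a s61_pm_102_a s58_pm_102_a

theorem s63_pm_102_a : ∃ t, chk3 f_pm_102_a t 9 15 1 = true := ex3_b k15_pm_102_a s62_pm_102_a

theorem s64_pm_102_a : ∃ t, chk3 f_pm_102_a t 9 7 1 = true := ex3_b k14_pm_102_a s63_pm_102_a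

theorem s65_pm_102_a : ∃ t, chk3 f_pm_102_a t 17 31 1 = true := ex3_a k12_pm_102_a k13_pm_102_a

theorem s66_pm_102_a : ∃ t, chk3 f_pm_102_a t 67 127 1 = true := ex3_a k10_pm_102_a k11_pm_102_a

theorem s67_pm_102_a : ∃ t, chk3 f_pm_102_a t 67 63 1 = true := ex3_b k9_pm_102_a s66_pm_102_a

theorem s68_pm_102_a : ∃ t, chk3 f_pm_102_a t 66 63 1 = true := ex3_a k7_pm_102_a k8_pm_102_a

theorem s69_pm_102_a : ∃ t, chk3 f_pm_102_a t 33 63 1 = true := ex3_a s68_pm_102_a s67_pm_102_a

theorem s70_pm_102_a : ∃ t, chk3 f_pm_102_a t 33 31 1 = true := ex3_b k6_pm_102_a s69_pm_102_a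

theorem s71_pm_102_a : ∃ t, chk3 f_pm_102_a t 32 31 1 = true := ex3_a k4_pm_102_a k5_pm_102_a

theorem s72_pm_102_a : ∃ t, chk3 f_pm_102_a t 16 31 1 = true := ex3_a s71_pm_102_a s70_pm_102_a

theorem s73_pm_102_a : ∃ t, chk3 f_pm_102_a t 8 31 1 = true := ex3_a s72_pm_102_a s65_pm_102_a

theorem s74_pm_102_a : ∃ t, chk3 f_pm_102_a t 8 15 1 = true := ex3_b k3_pm_102_a s73_pm_102_a

theorem s75_pm_102_a : ∃ t, chk3 f_pm_102_a t 8 7 1 = true := ex3_b k2_pm_102_a s74_pm_102_a

theorem s76_pm_102_a : ∃ t, chk3 f_pm_102_a t 4 7 1 = true := ex3_a s75_pm_102_a s64_pm_102_a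

theorem s77_pm_102_a : ∃ t, chk3 f_pm_102_a t 4 3 1 = true := ex3_b k1_pm_102_a s76_pm_102_a

theorem s78_pm_102_a : ∃ t, chk3 f_pm_102_a t 2 3 1 = true := ex3_a s77_pm_102_a s56_pm_102_a

theorem s79_pm_102_a : ∃ t, chk3 f_pm_102_a t 2 1 1 = true := ex3_b k0_pm_102_a s78_pm_102_a

theorem s80_pm_102_a : ∃ t, chk3 f_pm_102_a t 1 1 1 = true := ex3_a s79_pm_102_a s49_pm_102_a

theorem c_pm_102_a : CertB 536870912 536870912 0 536870912 587336777 62277027 3 eng mog cd0q1 cd4q2a pd0 false true false .npp 1 0 2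
    ndB0q1 ndB4q2a pcB0 cut_pm_102_a xt_pm_102_a :=
  certB0 (fam := false) (s1 := true) (s2 := false) (a := 1) (b := 0) (c := 2) (cn := .npp) (n1 := ndB0q1) (n2 := ndB4q2a) (pc := pcB0) (cut := cut_pm_102_a) (xt := xt_pm_102_a) (P1 := 536870912) (W1 := 536870912) (P2 := 0) (W2 := 536870912) (P3 := 587336777) (W3 := 62277027) (N0 := 3) (En := eng) (mo := mog) (C1 := cd0q1) (C2 := cd4q2a) (C3 := pd0)
    rfl s80_pm_102_a

noncomputable def cut_pm_102_b : Cut := Cut.of [[⟨0, 1, 0, 67108864⟩, ⟨1, 0, 0, 67108864⟩, ⟨2, 1, 0, 67108864⟩], [⟨0, 0, 1, 20971520⟩, ⟨1, 1, 2, 20971520⟩, ⟨2, 1, 0, 29360128⟩]]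

noncomputable def xt_pm_102_b : Ext := extD2 3 ⟨7, 3, 3, 10, 1815, 1000, 17, 20, 37, 100, 3, 16⟩ eng cd0q1 cd4q2b pd0 false true false .npp 1 0 2 rfl ndB0q1 ndB4q2b pcB0

noncomputable def f_pm_102_b : ℕ → ℕ → ℕ → ℕ → Bool := onCell 536870912 536870912 0 536870912 587336777 62277027
    (rowB 3 eng mog cd0q1 cd4q2b pd0 1 false true false .npp 1 0 2 (qsf 536870912 536870912 1239849684 370763052 0) ndB0q1 ndB4q2b pcB0 cut_pm_102_b xt_pm_102_b)

def k0_pm_102_b : ∃ t, chk3 f_pm_102_b t 2 1 1 = true :=
  ⟨(b (l 1) (b (l 1) (a (l 1) (b (a (l 1) (b (l 309807956295) (l 191696237335))) (a (a (l 359200057511) (l 16638416)) (a (l 16656176) (l 16722784))))))), by decide +kernel⟩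

def k1_pm_102_b : ∃ t, chk3 f_pm_102_b t 3 2 1 = true :=
  ⟨(a (l 1) (b (l 1) (a (b (l 1) (a (a (l 1) (b (l 1) (a (l 1) (l 49962464807)))) (b (a (l 1) (a (l 1) (a (l 1) (l 3)))) (a (a (b (l 1) (l 16686456)) (a (b (l 1) (l 16673992)) (b (l 16682344) (l 16665704)))) (a (b (a (l 59089143463) (c (l 21508184215) (l 30634989191))) (b (l 16657320) (l 16649176))) (a (b (b (c (l 45667343143) (a (l 16663296) (l 16659304))) (c (l 16653224) (l 16652520))) (b (l 16644872) (l 16636744))) (b (c (b (l 284709107991) (l 125258435479)) (b (l 333564361095) (l 119889720551))) (a (b (l 108615420471) (l 16630592)) (l 3))))))))) (b (l 3) (l 3))))), by decide +kernel⟩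

def k2_pm_102_b : ∃ t, chk3 f_pm_102_b t 6 3 1 = true :=
  ⟨(b (a (b (l 1) (a (l 296386223191) (b (l 230351288519) (l 16735400)))) (b (a (b (l 1) (l 171295569991)) (b (a (l 1) (l 52109993751)) (a (l 16742928) (l 16719128)))) (a (b (l 16747000) (l 16732928)) (a (l 16709120) (l 16680752))))) (a (a (b (l 16782424) (l 16740768)) (b (l 16740080) (l 16718488))) (a (b (l 16706264) (l 16672472)) (b (a (l 16666496) (l 16636184)) (l 16612024))))), by decide +kernel⟩

def k3_pm_102_b : ∃ t, chk3 f_pm_102_b t 7 6 1 = true :=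
  ⟨(a (b (a (a (b (l 16760520) (l 16689512)) (b (a (l 16695232) (l 16679032)) (l 16657576))) (a (b (a (l 16683576) (a (l 16671152) (b (l 16649712) (l 16634368)))) (a (l 16633048) (b (l 16623768) (l 16609696)))) (b (b (b (a (l 16641200) (a (l 16628800) (c (l 16621600) (l 113447225207)))) (a (l 16633408) (a (l 16621048) (l 110225983543)))) (a (l 16622024) (a (l 16609752) (c (l 116668433623) (l 113447200055))))) (a (b (l 16607464) (l 16593576)) (b (a (l 16595320) (b (l 16590792) (l 16583800))) (a (l 16581584) (b (l 16576992) (l 16570344)))))))) (a (a (l 16649992) (b (l 16630520) (l 16606056))) (a (b (a (l 16606128) (l 16589824)) (a (l 16581480) (l 16564744))) (b (a (b (l 16580360) (l 16567800)) (b (a (l 16568536) (c (l 16565240) (l 16555976))) (a (l 16556032) (c (l 16553440) (l 16542648))))) (a (b (l 16555120) (l 16542136)) (b (a (l 16543016) (l 16555952)) (a (l 16530080) (l 16522104)))))))) (a (a (a (b (b (l 3) (a (a (b (c (l 118815860743) (l 16589064)) (b (l 128479530935) (l 135995711703))) (l 3)) (l 3))) (b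 (a (b (a (b (l 96267251943) (l 16551776)) (c (b (l 139216914727) (l 134385060023)) (l 134921939591))) (c (b (a (l 16550560) (l 122573897751)) (a (l 16544032) (l 134385041511))) (b (l 115594558503) (l 110762704055)))) (l 3)) (a (b (c (a (l 16534200) (b (l 16533272) (l 16526808))) (a (l 16523552) (l 16540752))) (c (b (l 16522520) (l 16516216)) (l 16508720))) (a (b (c (b (l 132237535991) (l 139216845031)) (l 138679974567)) (c (b (c (l 145122411559) (l 16514008)) (l 151027979175)) (l 140827433159))) (l 3))))) (l 3)) (l 3)) (l 3))), by decide +kernel⟩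

def k4_pm_102_b : ∃ t, chk3 f_pm_102_b t 14 7 1 = true :=
  ⟨(b (a (b (l 16598848) (l 16575632)) (a (b (l 16548216) (l 16524056)) (b (a (l 16523416) (b (a (l 16517536) (l 16509552)) (l 16501088))) (a (b (l 16504816) (l 16492784)) (b (l 16488312) (l 16475752)))))) (a (b (l 16554184) (l 16539800)) (a (b (l 16502840) (l 16497440)) (b (a (l 16479272) (b (l 16465688) (l 16464048))) (a (l 16480048) (c (l 16478824) (l 16457768))))))), by decide +kernel⟩

def k5_pm_102_b : ∃ t, chk3 f_pm_102_b t 60 14 1 = true :=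
  ⟨(b (a (a (b (c (l 16506792) (l 16496080)) (b (l 16492232) (l 16485848))) (b (c (a (c (l 593368775882124965325343) (l 16498192)) (c (l 2914105135343915828236397087) (l 135458698487))) (a (l 16490472) (l 135458690903))) (b (c (a (l 16491080) (l 137069289959)) (l 137069274343)) (c (l 2411190479156821673300683295) (l 16472744))))) (b (l 3) (b (l 3) (c (l 138142985623) (l 136532354903))))) (a (c (b (a (l 16481088) (b (l 16475960) (l 16469272))) (a (l 16468032) (b (l 16462552) (l 591282275726680550304287)))) (b (b (l 16470080) (l 16463584)) (b (l 16457080) (l 16456128)))) (a (b (b (c (l 139216720471) (l 137606089719)) (a (c (l 144048551495) (l 143511675831)) (l 3))) (b (a (c (b (l 145659158679) (l 147806634855)) (l 16447368)) (l 3)) (b (a (c (l 141123381909094431) (l 16442472)) (c (l 141082218935746591) (l 140827275351))) (a (c (l 16454728) (l 16440408)) (c (l 141067856563601439) (l 142437885207)))))) (l 3)))), by decide +kernel⟩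

def k6_pm_102_b : ∃ t, chk3 f_pm_102_b t 60 15 1 = true :=
  ⟨(b (a (b (a (a (l 16456488) (l 16453320)) (c (a (l 16455768) (l 16452936)) (l 16442960))) (a (l 16455352) (b (l 16449216) (l 16449968)))) (a (b (b (c (a (l 16449752) (l 2836139972957047411491487775)) (c (l 3077925136879973521297408031) (l 149954079831))) (c (a (l 16450632) (a (l 140881489345642527) (l 141040300053839903))) (c (l 2952196851640021987995648031) (l 153712172599)))) (c (a (l 141112730393690143) (b (l 141140905371598879) (l 140877297462509599))) (b (b (l 141159803201110047) (l 141008208034889759)) (l 141182480627466271)))) (b (l 3) (a (b (c (l 2662054654932434913619574815) (l 2507312150021626864418865183)) (c (l 2855482786070791936811073567) (c (l 3261681861461155263284609055) (l 3987037353229854565326127135)))) (l 3))))) (a (a (b (l 16457776) (l 16462080)) (b (l 16451920) (l 16456352))) (a (b (b (c (l 141102216317517855) (l 140997900113149983)) (c (l 140941618906202143) (l 16436360))) (c (b (l 140967732314439711) (l 141000511513215007))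 (a (l 16439840) (l 140804386068922399)))) (b (b (a (c (a (l 140839364311646239) (l 140996938069426207)) (a (l 140879290288701471) (c (l 140808234357063711) (l 4054737199128213188528554015)))) (l 3)) (a (c (a (l 140853932846579743) (l 141000717646086175)) (c (l 140856200555151391) (l 5544133808893543396712513567))) (c (l 2391255271338690014931615775) (l 2807125753286224018373001247)))) (b (a (c (l 140856475472986143) (l 140928562155585567)) (c (l 2797454346729198614433742879) (b (l 2932854038526135075902652447) (l 3803280628648427632243294239)))) (a (c (l 140884169430728735) (l 140757588101300255)) (a (c (l 141004565949825055) (l 5457091149881294837790277663)) (c (l 140936464946249759) (l 3319710300802546894023688223))))))))), by decide +kernel⟩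

def k7_pm_102_b : ∃ t, chk3 f_pm_102_b t 61 7 1 = true :=
  ⟨(b (l 3) (l 3)), by decide +kernel⟩

def k8_pm_102_b : ∃ t, chk3 f_pm_102_b t 31 7 1 = true :=
  ⟨(l 3), by decide +kernel⟩

theorem s9_pm_102_b : ∃ t, chk3 f_pm_102_b t 60 7 1 = true := ex3_b k5_pm_102_b k6_pm_102_b

theorem s10_pm_102_b : ∃ t, chk3 f_pm_102_b t 30 7 1 = true := ex3_a s9_pm_102_b k7_pm_102_b

theorem s11_pm_102_b : ∃ t, chk3 f_pm_102_b t 15 7 1 = true := ex3_a s10_pm_102_b k8_pm_102_b

theorem s12_pm_102_b : ∃ t, chk3 f_pm_102_b t 7 7 1 = true := ex3_a k4_pm_102_b s11_pm_102_b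

theorem s13_pm_102_b : ∃ t, chk3 f_pm_102_b t 7 3 1 = true := ex3_b k3_pm_102_b s12_pm_102_b

theorem s14_pm_102_b : ∃ t, chk3 f_pm_102_b t 3 3 1 = true := ex3_a k2_pm_102_b s13_pm_102_b

theorem s15_pm_102_b : ∃ t, chk3 f_pm_102_b t 3 1 1 = true := ex3_b k1_pm_102_b s14_pm_102_b

theorem s16_pm_102_b : ∃ t, chk3 f_pm_102_b t 1 1 1 = true := ex3_a k0_pm_102_b s15_pm_102_b

theorem c_pm_102_b : CertB 536870912 536870912 1239849684 370763052 587336777 62277027 3 eng mog cd0q1 cd4q2b pd0 false true false .npp 1 0 2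
    ndB0q1 ndB4q2b pcB0 cut_pm_102_b xt_pm_102_b :=
  certB1 (fam := false) (s1 := true) (s2 := false) (a := 1) (b := 0) (c := 2) (cn := .npp) (n1 := ndB0q1) (n2 := ndB4q2b) (pc := pcB0) (cut := cut_pm_102_b) (xt := xt_pm_102_b) (P1 := 536870912) (W1 := 536870912) (P2 := 1239849684) (W2 := 370763052) (P3 := 587336777) (W3 := 62277027) (N0 := 3) (En := eng) (mo := mog) (C1 := cd0q1) (C2 := cd4q2b) (C3 := pd0)
    rfl (fun _ => rfl) s16_pm_102_b

noncomputable def xt_pm_112_a : Ext := extD2 3 ⟨7, 3, 3, 10, 1815, 1000, 17, 20, 37, 100, 3, 16⟩ eng cd0q1 cd4q2a pd1 false true false .dn 1 1 2 rfl ndB0q1 ndB4q2a pcB1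

noncomputable def f_pm_112_a : ℕ → ℕ → ℕ → ℕ → Bool := onCell 536870912 536870912 0 536870912 587336777 62277027
    (rowB 3 eng mog cd0q1 cd4q2a pd1 2 false true false .dn 1 1 2 (qsf 536870912 536870912 0 536870912 1) ndB0q1 ndB4q2a pcB1 Cut.none xt_pm_112_a)

def k0_pm_112_a : ∃ t, chk3 f_pm_112_a t 1 1 1 = true :=
  ⟨(a (b (a (a (b (l 16593248) (a (l 16472928) (l 16461464))) (b (a (l 16485424) (l 16473312)) (a (b (l 16431680) (l 16391840)) (b (l 16425280) (l 16391840))))) (a (b (a (l 16463544) (l 495027989975)) (a (b (l 16421344) (l 16394888)) (l 1))) (l 1))) (a (b (a (b (a (l 16348360) (l 16348048)) (a (l 16291496) (l 16298592))) (b (a (l 16353032) (l 16362200)) (a (l 16299312) (l 16402880)))) (a (b (a (b (l 16273352) (l 16342904)) (b (l 16271672) (l 16337504))) (b (a (a (b (l 16296632) (l 16353392)) (b (l 16305296) (l 16319584))) (b (l 16336320) (l 1))) (a (a (b (c (l 594443157241186074384943) (l 16323400)) (b (c (a (l 593902725285901635885615) (l 165388942407)) (a (l 16331688) (l 16335568))) (a (a (b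 (c (l 594011964598463145384495) (l 16346400)) (b (c (l 594208825945374770993711) (l 593760339480082688252463)) (a (b (c (c (l 594120915680648505481775) (l 594014558671848514886191)) (l 593802132884624688142895)) (b (c (c (l 594123221523657720879663) (l 594016288054105426729519)) (c (l 593881396238066415589935) (l 16337312))) (a (a (c (b (c (l 594160979702933595167279) (l 594051163929619783850543)) (a (c (b (l 594167609001585084832303) (a (c (c (c (l 595574461467581593801263) (l 595622884170775080325679)) (c (l 595671595104344718545455) (l 595732123483336576946735))) (c (c (l 595792363631952283603503) (l 595841074565521921774127)) (c (l 595889785499091559944751) (l 595938208202285046387247)))) (l 1))) (c (c (c (l 595988936748487746425391) (l 596037647682057384546863)) (c (l 596086358615627022651951) (l 596135069549196660740655))) (c (c (l 596183780482766298829359) (l 596232203185959785173551)) (c (l 596280914119529423213103) (l 596329625053099061252655))))) (l 1))) (c (b (l 593913389809819255544367) (c (c (c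 (l 596371418457641058325039) (l 596420417621586848027183)) (c (l 596469128555156486017583) (l 596517839488726123991599))) (c (c (l 596566838652671913660975) (l 596615549586241551618607)) (l 16340896)))) (l 16337360))) (l 1)) (l 1)))) (l 1)))) (c (b (l 593823461932459930065455) (l 1)) (l 190621853063))) (l 1)))) (b (l 147135382343) (l 1))) (l 1)))) (b (a (l 110091292071) (l 1)) (l 1)))) (b (l 1) (l 1)))) (l 1)), by decide +kernel⟩

theorem c_pm_112_a : CertB 536870912 536870912 0 536870912 587336777 62277027 3 eng mog cd0q1 cd4q2a pd1 false true false .dn 1 1 2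
    ndB0q1 ndB4q2a pcB1 Cut.none xt_pm_112_a :=
  certB2 (fam := false) (s1 := true) (s2 := false) (a := 1) (b := 1) (c := 2) (cn := .dn) (n1 := ndB0q1) (n2 := ndB4q2a) (pc := pcB1) (cut := Cut.none) (xt := xt_pm_112_a) (P1 := 536870912) (W1 := 536870912) (P2 := 0) (W2 := 536870912) (P3 := 587336777) (W3 := 62277027) (N0 := 3) (En := eng) (mo := mog) (C1 := cd0q1) (C2 := cd4q2a) (C3 := pd1)
    rfl (fun _ => rfl) k0_pm_112_a

noncomputable def xt_pm_112_b : Ext := extD2 3 ⟨7, 3, 3, 10, 1815, 1000, 17, 20, 37, 100, 3, 16⟩ eng cd0q1 cd4q2b pd1 false true false .dn 1 1 2 rfl ndB0q1 ndB4q2b pcB1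

noncomputable def f_pm_112_b : ℕ → ℕ → ℕ → ℕ → Bool := onCell 536870912 536870912 1239849684 370763052 587336777 62277027
    (rowB 3 eng mog cd0q1 cd4q2b pd1 0 false true false .dn 1 1 2 (qsf 536870912 536870912 1239849684 370763052 1) ndB0q1 ndB4q2b pcB1 Cut.none xt_pm_112_b)

def k0_pm_112_b : ∃ t, chk3 f_pm_112_b t 2 1 1 = true :=
  ⟨(a (b (a (b (a (b (l 16503512) (l 16513480)) (l 16532952)) (a (b (l 16511344) (l 16506496)) (l 16547352))) (b (b (l 16550232) (l 16579872)) (b (l 16594696) (l 16606944)))) (a (b (b (a (b (l 16502160) (l 16500688)) (l 16549952)) (a (l 16492528) (b (l 16550696) (l 16542480)))) (a (b (b (l 16472488) (l 16458136)) (a (b (l 16425184) (l 16408528)) (l 16475416))) (b (l 16529008) (b (l 16515112) (l 16505520))))) (b (b (l 16619144) (a (b (l 16602640) (l 16597384)) (l 16651200))) (b (a (b (l 16592248) (l 16588336)) (b (l 16649648) (l 16649712))) (a (l 16582760) (l 16652488)))))) (b (a (b (b (l 16593784) (l 16632640)) (a (l 16650600) (l 16679184))) (b (b (l 180422237063) (l 16679432))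 (l 16712432))) (a (b (b (l 16695456) (l 16716776)) (a (b (l 16705992) (a (l 16702616) (l 16734680))) (b (l 16754736) (a (l 16765032) (l 16793352))))) (b (b (l 16743400) (l 16772656)) (a (l 16811344) (l 16843896)))))), by decide +kernel⟩

def k1_pm_112_b : ∃ t, chk3 f_pm_112_b t 6 1 1 = true :=
  ⟨(b (b (l 1) (a (a (l 16727520) (l 16764256)) (a (l 241625515991) (l 1)))) (a (b (a (l 16761824) (l 16742424)) (a (l 16858864) (l 16847776))) (a (b (l 16705056) (l 16805264)) (b (b (l 16655344) (l 16658104)) (l 16734168))))), by decide +kernel⟩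

def k2_pm_112_b : ∃ t, chk3 f_pm_112_b t 7 1 1 = true :=
  ⟨(b (l 1) (b (a (b (l 1) (a (l 16593104) (a (l 401612634311) (l 1)))) (l 1)) (a (a (b (l 16621848) (l 16680464)) (a (b (l 16558040) (l 16602008)) (b (a (b (l 16521160) (l 16531584)) (b (l 16497744) (l 16507776))) (a (l 16560824) (a (l 16541896) (l 16549072)))))) (a (a (b (b (l 1) (a (a (l 16488432) (b (l 37613959495) (l 16478328))) (b (a (c (l 352757133383) (l 351146486391)) (l 1)) (b (a (c (a (l 16481496) (l 141239174274220063)) (l 16448376)) (a (c (l 141010819437395999) (l 141254567364821023)) (a (b (l 1) (l 140899356408348703)) (l 1)))) (a (c (l 141716705934409759) (l 16450864)) (a (c (l 141056655336964127) (l 141096650012246047)) (c (a (l 140886505900687391) (l 140896676376346655)) (a (l 140966220435324959) (l 140705498734755871))))))))) (a (b (b (l 16492752) (l 16502080)) (l 16519392)) (b (b (a (a (l 16475512) (b (l 141452410795180063) (l 141451723608752159))) (c (a (l 140987111240810527) (b (l 140937633196834847) (l 140944092837560351))) (b (a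 (l 141112730375487519) (l 140775730048155679)) (l 140828918936223775)))) (b (a (c (l 16496952) (l 16460608)) (c (c (l 140883688454340639) (l 140894339937550367)) (l 140863003803893791))) (a (l 141205433030688799) (c (a (l 141121182967808031) (l 141016798066524191)) (c (l 140932204343181343) (l 141306038260514847)))))) (a (l 141654308681662495) (b (a (l 141134995561299999) (l 141206807399301151)) (l 141405406719344671)))))) (b (l 3) (a (a (b (a (b (c (b (l 2371912458224816159582191647) (l 2575011995920091178276585503)) (b (l 140748860723986463) (l 1375757582862218164611579935))) (a (b (c (l 2981211071310584934355386399) (l 140725015077781535)) (b (l 1839985097594386194719834143) (l 140939007573377055))) (c (l 2652383248375453009114808351) (l 3048910917209134872518311967)))) (l 3)) (b (b (a (c (l 2923182631969231855254044703) (l 2604026215590804345248088095)) (l 3)) (c (l 3029568104095397700249190431) (l 2981211071310652485552291871))) (a (l 141304663986126879) (c (l 3010225290981652075461738527) (l 2913511225412233183059378207)))))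 (l 3)) (l 3)))) (l 3))))), by decide +kernel⟩

theorem s3_pm_112_b : ∃ t, chk3 f_pm_112_b t 3 1 1 = true := ex3_a k1_pm_112_b k2_pm_112_b

theorem s4_pm_112_b : ∃ t, chk3 f_pm_112_b t 1 1 1 = true := ex3_a k0_pm_112_b s3_pm_112_b

theorem c_pm_112_b : CertB 536870912 536870912 1239849684 370763052 587336777 62277027 3 eng mog cd0q1 cd4q2b pd1 false true false .dn 1 1 2
    ndB0q1 ndB4q2b pcB1 Cut.none xt_pm_112_b :=
  certB0 (fam := false) (s1 := true) (s2 := false) (a := 1) (b := 1) (c := 2) (cn := .dn) (n1 := ndB0q1) (n2 := ndB4q2b) (pc := pcB1) (cut := Cut.none) (xt := xt_pm_112_b) (P1 := 536870912) (W1 := 536870912) (P2 := 1239849684) (W2 := 370763052) (P3 := 587336777) (W3 := 62277027) (N0 := 3) (En := eng) (mo := mog) (C1 := cd0q1) (C2 := cd4q2b) (C3 := pd1)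
    rfl s4_pm_112_b

noncomputable def cut_pm_113 : Cut := Cut.of [[⟨0, 1, 0, 67108864⟩, ⟨1, 1, 0, 67108864⟩, ⟨2, 2, 0, 16777216⟩]]

noncomputable def xt_pm_113 : Ext := extD2 3 ⟨7, 3, 3, 10, 1815, 1000, 17, 20, 37, 100, 3, 16⟩ eng cd0q1 cd4q3 pd1 false true false .nn 1 1 3 rfl ndB0q1 ndB4q3 pcB1

noncomputable def f_pm_113 : ℕ → ℕ → ℕ → ℕ → Bool := onCell 536870912 536870912 536870912 536870912 587336777 62277027
    (rowB 3 eng mog cd0q1 cd4q3 pd1 1 false true false .nn 1 1 3 (qsf 536870912 536870912 1610612736 536870912 1) ndB0q1 ndB4q3 pcB1 cut_pm_113 xt_pm_113)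

def k0_pm_113 : ∃ t, chk3 f_pm_113 t 2 2 1 = true :=
  ⟨(a (l 1) (b (l 1) (a (l 1) (b (l 1) (l 16783920))))), by decide +kernel⟩

def k1_pm_113 : ∃ t, chk3 f_pm_113 t 3 2 1 = true :=
  ⟨(a (b (a (l 1) (a (l 1) (b (l 1) (l 16776824)))) (a (b (l 16833208) (a (l 16889024) (l 16971704))) (a (l 16965944) (b (l 16914984) (l 17105016))))) (a (b (b (a (l 1) (a (l 1) (b (l 1) (a (l 1) (l 16610448))))) (a (l 16755336) (a (l 16726840) (b (a (l 16675800) (l 16662680)) (l 16738032))))) (b (a (l 16918864) (a (l 16856752) (b (l 16793168) (l 16837904)))) (a (l 17000656) (a (l 16934832) (b (l 16877584) (l 16910928)))))) (a (b (b (a (b (l 1) (a (l 44056526823) (b (l 141958529943633951) (l 142161802203201567)))) (a (b (l 1) (a (b (c (l 3116610763108606682815873055) (l 2497640743465666543805562911)) (l 2584683402478095697677844511)) (b (l 3) (l 2961868258198138795002495007)))) (l 3))) (a (b (b (l 142498115394732063) (l 142786668541444127)) (a (l 16715632) (l 142833810189893663))) (a (b (b (a (l 142255604317011999) (l 3252010454905730611143704607))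 (b (l 2333226831998698475142250527) (l 2014070415620534916737384479))) (b (b (l 1878670723823871958710501407) (l 142911669304016927)) (l 143158097351016543))) (b (l 3) (a (a (b (b (l 3) (l 3310038894247658940967157791)) (l 3774266408979733924843847775)) (l 3)) (l 3)))))) (b (a (b (a (l 16767744) (l 16709024)) (c (l 16823008) (l 16762880))) (b (b (a (l 143294230733537375) (a (b (l 3880651881105675950583038047) (l 4132108451585676255264342111)) (l 3))) (a (l 16683192) (a (c (l 3861309067992951428635689183) (b (l 3783937815537145188842324063) (l 143501900981747807))) (b (l 3) (l 5060563481050144188056027231))))) (a (b (l 16767776) (l 16787064)) (a (b (l 143887623483949279) (l 16774320)) (b (b (l 3851637661435682826338402527) (l 4093422825358748436719108319)) (b (l 4325536582724934190936309983) (l 212231695063))))))) (a (a (b (l 16850296) (l 16882568)) (b (l 16831128) (l 16863008))) (b (a (l 16812968) (b (a (l 16791408) (l 3029568104098467674694877471)) (l 16802632))) (b (a (l 16836072) (l 16817160)) (l 16840888))))))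 (b (l 3) (a (a (b (l 3) (b (b (l 6511274464588405496659296543) (a (l 217063595287) (l 3))) (a (b (l 147807280007) (l 16817520)) (b (l 3) (l 177872071207))))) (l 3)) (l 3)))))), by decide +kernel⟩

def k2_pm_113 : ∃ t, chk3 f_pm_113 t 2 3 1 = true :=
  ⟨(a (b (a (l 1) (b (l 1) (b (l 1) (a (l 1) (l 16588072))))) (a (b (a (l 1) (a (l 1) (l 16470936))) (b (a (b (l 1) (l 16369632)) (l 16426008)) (a (a (l 16335536) (l 16359688)) (a (l 16387960) (l 16420240))))) (b (a (a (l 16497032) (l 16526944)) (a (l 16561040) (l 16599736))) (b (a (l 16490576) (l 16564992)) (a (l 16372224) (l 16507944)))))) (b (a (b (a (l 1) (l 16717488)) (a (b (l 111702298055) (l 16658920)) (b (l 16643384) (l 16712112)))) (b (a (l 16790160) (l 16831760)) (a (b (l 16765616) (l 16749688)) (b (l 16801936) (l 16784600))))) (a (a (a (b (l 16631584) (b (l 16609584) (l 16594488))) (b (l 16657200) (b (l 16635136) (l 16619832)))) (b (b (l 16697416) (l 16682576)) (a (l 16649584) (l 16668904)))) (b (a (a (l 16717656) (l 16734472)) (a (l 16750424) (l 16767080)))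 (a (c (l 16737864) (l 16651600)) (l 16726248)))))), by decide +kernel⟩

def k3_pm_113 : ∃ t, chk3 f_pm_113 t 6 3 1 = true :=
  ⟨(b (a (b (a (l 16876680) (l 16926320)) (a (b (l 16842840) (l 16822864)) (l 16872752))) (b (a (l 16980408) (l 17040632)) (a (l 16912728) (l 16953344)))) (a (b (a (l 16794400) (l 16828024)) (a (l 16759552) (l 16790504))) (b (a (l 16858928) (l 16887304)) (a (l 16815536) (l 16834928))))), by decide +kernel⟩

def k4_pm_113 : ∃ t, chk3 f_pm_113 t 7 3 1 = true :=
  ⟨(b (a (b (a (l 17060296) (b (l 16956680) (l 16976704))) (a (l 16990424) (l 16999768))) (b (a (a (b (a (l 16907960) (l 16889768)) (l 16917568)) (b (b (l 16854832) (l 16867520)) (b (l 16878008) (l 16887120)))) (a (b (b (a (a (l 16832040) (b (l 175724602679) (l 172503394967))) (l 3)) (a (b (a (l 16842432) (l 16833736)) (l 16844240)) (l 236927946823))) (a (b (a (l 16857008) (l 16848808)) (l 16863216)) (a (b (l 186998958695) (b (l 194515167015) (l 16854344))) (l 3)))) (l 3))) (b (a (a (l 16934232) (l 16900184)) (a (c (b (l 209010767895)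 (l 221358814183)) (a (l 16870864) (b (l 207400100679) (l 220285027031)))) (l 3))) (a (a (l 16943912) (l 16910384)) (a (a (l 16887744) (b (l 239075529623) (l 16875040))) (a (b (l 227264330935) (l 240686110199)) (l 3))))))) (a (b (a (l 16909352) (l 16921160)) (a (l 16846224) (l 16846440))) (a (b (a (l 16923456) (b (l 16910992) (l 16897832))) (a (l 16840552) (b (l 16854056) (l 16815960)))) (a (b (a (b (l 16889224) (l 16880408)) (b (b (l 16876064) (l 16874416)) (l 16866792))) (b (a (l 16849232) (l 16845544)) (l 16808416))) (a (b (b (b (l 256792239511) (a (l 16864688) (l 269140294727))) (b (a (l 16860240) (l 293299488871)) (a (l 16853152) (l 194515208935)))) (b (b (l 16840640) (l 16829584)) (b (l 16811632) (l 16792880)))) (b (b (l 3) (a (b (l 3) (l 283635739383)) (l 3))) (b (b (a (l 360408256711) (l 3)) (b (l 362018861415) (a (l 16816856) (l 385641152663)))) (a (b (b (l 16810536) (l 16803840)) (b (l 16794384) (l 16785064))) (b (b (l 388862365815) (a (a (l 16799936) (l 119890029495)) (l 407652831367))) (b (b (a (l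 16794024) (l 408726563255)) (a (l 16790504) (l 6))) (l 6))))))))))), by decide +kernel⟩

theorem s5_pm_113 : ∃ t, chk3 f_pm_113 t 3 3 1 = true := ex3_a k3_pm_113 k4_pm_113

theorem s6_pm_113 : ∃ t, chk3 f_pm_113 t 1 3 1 = true := ex3_a k2_pm_113 s5_pm_113

theorem s7_pm_113 : ∃ t, chk3 f_pm_113 t 1 2 1 = true := ex3_a k0_pm_113 k1_pm_113

theorem s8_pm_113 : ∃ t, chk3 f_pm_113 t 1 1 1 = true := ex3_b s7_pm_113 s6_pm_113

theorem c_pm_113 : CertB 536870912 536870912 1610612736 536870912 587336777 62277027 3 eng mog cd0q1 cd4q3 pd1 false true false .nn 1 1 3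
    ndB0q1 ndB4q3 pcB1 cut_pm_113 xt_pm_113 :=
  certB1 (fam := false) (s1 := true) (s2 := false) (a := 1) (b := 1) (c := 3) (cn := .nn) (n1 := ndB0q1) (n2 := ndB4q3) (pc := pcB1) (cut := cut_pm_113) (xt := xt_pm_113) (P1 := 536870912) (W1 := 536870912) (P2 := 1610612736) (W2 := 536870912) (P3 := 587336777) (W3 := 62277027) (N0 := 3) (En := eng) (mo := mog) (C1 := cd0q1) (C2 := cd4q3) (C3 := pd1)
    rfl (fun _ => rfl) s8_pm_113

noncomputable def cut_pm_123 : Cut := Cut.of [[⟨0, 1, 0, 67108864⟩, ⟨1, 1, 0, 67108864⟩, ⟨2, 2, 0, 16777216⟩]]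

noncomputable def f_pm_123 : ℕ → ℕ → ℕ → ℕ → Bool := onCell 536870912 536870912 1073741824 536870912 587336777 62277027
    (rowB 3 eng mog cd0q1 cd4q3 pd2 1 false true false .npn 1 2 3 (qsf 536870912 536870912 1610612736 536870912 2) ndB0q1 ndB4q3 pcB2 cut_pm_123 Ext.none)

def k0_pm_123 : ∃ t, chk3 f_pm_123 t 1 1 1 = true :=
  ⟨(a (b (a (b (a (b (a (b (a (l 16322952) (l 16434288)) (l 16343568)) (b (b (l 16416200) (l 16399600)) (l 16406320))) (a (l 16354984) (l 16428456))) (b (a (b (b (l 16470648) (l 16473912)) (l 16478672)) (b (b (l 16538704) (l 16537744)) (l 16536840))) (a (l 16488824) (l 16537192)))) (a (b (a (l 16400952) (l 16458864)) (l 16487608)) (b (b (l 16522320) (l 16531616)) (l 16563088)))) (b (a (b (a (b (l 16590472) (l 16583080)) (b (l 16630232) (l 16618200))) (a (l 16576112) (l 16606184))) (b (a (l 16653568) (l 16679696)) (l 16640120))) (a (b (b (l 16587496) (l 16589064)) (l 16611176)) (b (l 16625048) (l 16643816))))) (a (b (a (b (l 16544432) (l 16598112)) (b (l 16603392) (l 16645896))) (a (l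 16681768) (b (l 16696992) (l 16749920)))) (b (a (b (l 16644376) (l 16683960)) (b (l 16678408) (a (l 16711744) (l 2)))) (a (b (l 16741152) (l 2)) (l 2))))) (b (a (b (a (b (a (l 16706392) (l 16731896)) (l 16679088)) (b (l 16930184) (a (l 16704272) (l 16719416)))) (b (a (a (l 16648248) (b (b (l 16669488) (l 16665832)) (l 16666296))) (b (b (l 16698312) (a (l 16687840) (l 16711392))) (l 16698816))) (a (a (l 16669816) (l 16690504)) (a (l 16716200) (l 2))))) (b (b (a (c (l 16790216) (l 16769096)) (a (b (l 16784672) (l 16817536)) (a (b (a (l 16777400) (l 16774448)) (l 1075990187671)) (b (b (a (l 16776848) (b (l 6) (l 1118402816167))) (a (l 1058810184839) (l 2))) (l 2))))) (a (a (l 16731008) (a (l 16728064) (l 16878840))) (b (a (l 968079248519) (l 2)) (l 2)))) (a (b (b (b (l 667431571191) (l 2)) (l 2)) (l 2)) (l 2)))) (a (b (a (b (a (l 16707416) (l 2)) (l 2)) (l 2)) (l 2)) (l 2)))), by decide +kernel⟩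

theorem c_pm_123 : CertB 536870912 536870912 1610612736 536870912 587336777 62277027 3 eng mog cd0q1 cd4q3 pd2 false true false .npn 1 2 3
    ndB0q1 ndB4q3 pcB2 cut_pm_123 Ext.none :=
  certB1 (fam := false) (s1 := true) (s2 := false) (a := 1) (b := 2) (c := 3) (cn := .npn) (n1 := ndB0q1) (n2 := ndB4q3) (pc := pcB2) (cut := cut_pm_123) (xt := Ext.none) (P1 := 536870912) (W1 := 536870912) (P2 := 1610612736) (W2 := 536870912) (P3 := 587336777) (W3 := 62277027) (N0 := 3) (En := eng) (mo := mog) (C1 := cd0q1) (C2 := cd4q3) (C3 := pd2)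
    rfl (fun _ => rfl) k0_pm_123

noncomputable def f_pm_133 : ℕ → ℕ → ℕ → ℕ → Bool := onCell 536870912 536870912 1610612736 536870912 587336777 62277027
    (rowB 3 eng mog cd0q1 cd4q3 pd3 0 false true false .dn 1 3 3 (qsf 536870912 536870912 1610612736 536870912 3) ndB0q1 ndB4q3 pcB3 Cut.none Ext.none)

def k0_pm_133 : ∃ t, chk3 f_pm_133 t 1 1 1 = true :=
  ⟨(a (b (l 1) (a (a (b (l 1) (b (l 1) (l 464964170103))) (l 1)) (l 1))) (l 1)), by decide +kernel⟩

theorem c_pm_133 : CertB 536870912 536870912 1610612736 536870912 587336777 62277027 3 eng mog cd0q1 cd4q3 pd3 false true false .dn 1 3 3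
    ndB0q1 ndB4q3 pcB3 Cut.none Ext.none :=
  certB0 (fam := false) (s1 := true) (s2 := false) (a := 1) (b := 3) (c := 3) (cn := .dn) (n1 := ndB0q1) (n2 := ndB4q3) (pc := pcB3) (cut := Cut.none) (xt := Ext.none) (P1 := 536870912) (W1 := 536870912) (P2 := 1610612736) (W2 := 536870912) (P3 := 587336777) (W3 := 62277027) (N0 := 3) (En := eng) (mo := mog) (C1 := cd0q1) (C2 := cd4q3) (C3 := pd3)
    rfl k0_pm_133

noncomputable def cut_pm_202_a : Cut := Cut.of [[⟨0, 1, 0, 67108864⟩, ⟨1, 0, 0, 67108864⟩, ⟨2, 1, 0, 67108864⟩]]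

noncomputable def f_pm_202_a : ℕ → ℕ → ℕ → ℕ → Bool := onCell 0 536870912 0 536870912 587336777 62277027
    (rowB 3 eng mog cd0q2 cd4q2a pd0 0 false true false .pp 2 0 2 (qsf 0 536870912 0 536870912 0) ndB0q2 ndB4q2a pcB0 cut_pm_202_a Ext.none)

def k0_pm_202_a : ∃ t, chk3 f_pm_202_a t 1 1 1 = true :=
  ⟨(a (l 3) (b (l 3) (a (l 3) (b (l 3) (a (l 3) (b (l 3) (l 6))))))), by decide +kernel⟩

theorem c_pm_202_a : CertB 0 536870912 0 536870912 587336777 62277027 3 eng mog cd0q2 cd4q2a pd0 false true false .pp 2 0 2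
    ndB0q2 ndB4q2a pcB0 cut_pm_202_a Ext.none :=
  certB0 (fam := false) (s1 := true) (s2 := false) (a := 2) (b := 0) (c := 2) (cn := .pp) (n1 := ndB0q2) (n2 := ndB4q2a) (pc := pcB0) (cut := cut_pm_202_a) (xt := Ext.none) (P1 := 0) (W1 := 536870912) (P2 := 0) (W2 := 536870912) (P3 := 587336777) (W3 := 62277027) (N0 := 3) (En := eng) (mo := mog) (C1 := cd0q2) (C2 := cd4q2a) (C3 := pd0)
    rfl k0_pm_202_a

noncomputable def cut_pm_202_b : Cut := Cut.of [[⟨0, 1, 0, 67108864⟩, ⟨1, 0, 0, 67108864⟩, ⟨2, 1, 0, 67108864⟩]]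

noncomputable def f_pm_202_b : ℕ → ℕ → ℕ → ℕ → Bool := onCell 0 536870912 1239849684 370763052 587336777 62277027
    (rowB 3 eng mog cd0q2 cd4q2b pd0 0 false true false .pp 2 0 2 (qsf 0 536870912 1239849684 370763052 0) ndB0q2 ndB4q2b pcB0 cut_pm_202_b Ext.none)

def k0_pm_202_b : ∃ t, chk3 f_pm_202_b t 1 1 1 = true :=
  ⟨(l 3), by decide +kernel⟩

theorem c_pm_202_b : CertB 0 536870912 1239849684 370763052 587336777 62277027 3 eng mog cd0q2 cd4q2b pd0 false true false .pp 2 0 2
    ndB0q2 ndB4q2b pcB0 cut_pm_202_b Ext.none :=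
  certB0 (fam := false) (s1 := true) (s2 := false) (a := 2) (b := 0) (c := 2) (cn := .pp) (n1 := ndB0q2) (n2 := ndB4q2b) (pc := pcB0) (cut := cut_pm_202_b) (xt := Ext.none) (P1 := 0) (W1 := 536870912) (P2 := 1239849684) (W2 := 370763052) (P3 := 587336777) (W3 := 62277027) (N0 := 3) (En := eng) (mo := mog) (C1 := cd0q2) (C2 := cd4q2b) (C3 := pd0)
    rfl k0_pm_202_b

noncomputable def f_pm_203 : ℕ → ℕ → ℕ → ℕ → Bool := onCell 0 536870912 0 536870912 587336777 62277027
    (rowB 3 eng mog cd0q2 cd4q3 pd0 1 false true false .up 2 0 3 (qsf 0 536870912 1610612736 536870912 0) ndB0q2 ndB4q3 pcB0 Cut.none Ext.none)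

def k0_pm_203 : ∃ t, chk3 f_pm_203 t 1 1 1 = true :=
  ⟨(l 3), by decide +kernel⟩

theorem c_pm_203 : CertB 0 536870912 1610612736 536870912 587336777 62277027 3 eng mog cd0q2 cd4q3 pd0 false true false .up 2 0 3
    ndB0q2 ndB4q3 pcB0 Cut.none Ext.none :=
  certB1 (fam := false) (s1 := true) (s2 := false) (a := 2) (b := 0) (c := 3) (cn := .up) (n1 := ndB0q2) (n2 := ndB4q3) (pc := pcB0) (cut := Cut.none) (xt := Ext.none) (P1 := 0) (W1 := 536870912) (P2 := 1610612736) (W2 := 536870912) (P3 := 587336777) (W3 := 62277027) (N0 := 3) (En := eng) (mo := mog) (C1 := cd0q2) (C2 := cd4q3) (C3 := pd0)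
    rfl (fun _ => rfl) k0_pm_203

noncomputable def cut_pm_213 : Cut := Cut.of [[⟨0, 1, 0, 67108864⟩, ⟨1, 1, 0, 67108864⟩, ⟨2, 2, 0, 16777216⟩]]

noncomputable def f_pm_213 : ℕ → ℕ → ℕ → ℕ → Bool := onCell 0 536870912 1610612736 536870912 587336777 62277027
    (rowB 3 eng mog cd0q2 cd4q3 pd1 0 false true false .pnn 2 1 3 (qsf 0 536870912 1610612736 536870912 1) ndB0q2 ndB4q3 pcB1 cut_pm_213 Ext.none)

def k0_pm_213 : ∃ t, chk3 f_pm_213 t 1 1 1 = true :=
  ⟨(a (l 3) (b (l 3) (b (l 3) (a (l 3) (b (l 3) (b (l 3) (b (l 3) (a (l 3) (b (l 3) (l 6)))))))))), by decide +kernel⟩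

theorem c_pm_213 : CertB 0 536870912 1610612736 536870912 587336777 62277027 3 eng mog cd0q2 cd4q3 pd1 false true false .pnn 2 1 3
    ndB0q2 ndB4q3 pcB1 cut_pm_213 Ext.none :=
  certB0 (fam := false) (s1 := true) (s2 := false) (a := 2) (b := 1) (c := 3) (cn := .pnn) (n1 := ndB0q2) (n2 := ndB4q3) (pc := pcB1) (cut := cut_pm_213) (xt := Ext.none) (P1 := 0) (W1 := 536870912) (P2 := 1610612736) (W2 := 536870912) (P3 := 587336777) (W3 := 62277027) (N0 := 3) (En := eng) (mo := mog) (C1 := cd0q2) (C2 := cd4q3) (C3 := pd1)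
    rfl k0_pm_213

noncomputable def f_mm_001 : ℕ → ℕ → ℕ → ℕ → Bool := onCell 0 536870912 536870912 536870912 587336777 62277027
    (rowB 3 eng mog cd0q0 cd4q1 pd0 0 false false false .up 0 0 1 (qsf 0 536870912 536870912 536870912 0) ndB0q0 ndB4q1 pcB0 Cut.none Ext.none)

def k0_mm_001 : ∃ t, chk3 f_mm_001 t 1 1 1 = true :=
  ⟨(l 3), by decide +kernel⟩

theorem c_mm_001 : CertB 0 536870912 536870912 536870912 587336777 62277027 3 eng mog cd0q0 cd4q1 pd0 false false false .up 0 0 1
    ndB0q0 ndB4q1 pcB0 Cut.none Ext.none :=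
  certB0 (fam := false) (s1 := false) (s2 := false) (a := 0) (b := 0) (c := 1) (cn := .up) (n1 := ndB0q0) (n2 := ndB4q1) (pc := pcB0) (cut := Cut.none) (xt := Ext.none) (P1 := 0) (W1 := 536870912) (P2 := 536870912) (W2 := 536870912) (P3 := 587336777) (W3 := 62277027) (N0 := 3) (En := eng) (mo := mog) (C1 := cd0q0) (C2 := cd4q1) (C3 := pd0)
    rfl k0_mm_001

noncomputable def f_mm_011 : ℕ → ℕ → ℕ → ℕ → Bool := onCell 0 536870912 536870912 536870912 587336777 62277027
    (rowB 3 eng mog cd0q0 cd4q1 pd1 0 false false false .pnn 0 1 1 (qsf 0 536870912 536870912 536870912 1) ndB0q0 ndB4q1 pcB1 Cut.none Ext.none)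

def k0_mm_011 : ∃ t, chk3 f_mm_011 t 1 1 1 = true :=
  ⟨(l 3), by decide +kernel⟩

theorem c_mm_011 : CertB 0 536870912 536870912 536870912 587336777 62277027 3 eng mog cd0q0 cd4q1 pd1 false false false .pnn 0 1 1
    ndB0q0 ndB4q1 pcB1 Cut.none Ext.none :=
  certB0 (fam := false) (s1 := false) (s2 := false) (a := 0) (b := 1) (c := 1) (cn := .pnn) (n1 := ndB0q0) (n2 := ndB4q1) (pc := pcB1) (cut := Cut.none) (xt := Ext.none) (P1 := 0) (W1 := 536870912) (P2 := 536870912) (W2 := 536870912) (P3 := 587336777) (W3 := 62277027) (N0 := 3) (En := eng) (mo := mog) (C1 := cd0q0) (C2 := cd4q1) (C3 := pd1)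
    rfl k0_mm_011

noncomputable def f_mm_012_a : ℕ → ℕ → ℕ → ℕ → Bool := onCell 0 536870912 0 536870912 587336777 62277027
    (rowB 3 eng mog cd0q0 cd4q2a pd1 0 false false false .pnp 0 1 2 (qsf 0 536870912 0 536870912 1) ndB0q0 ndB4q2a pcB1 Cut.none Ext.none)

def k0_mm_012_a : ∃ t, chk3 f_mm_012_a t 1 1 1 = true :=
  ⟨(l 5), by decide +kernel⟩

theorem c_mm_012_a : CertB 0 536870912 0 536870912 587336777 62277027 3 eng mog cd0q0 cd4q2a pd1 false false false .pnp 0 1 2
    ndB0q0 ndB4q2a pcB1 Cut.none Ext.none :=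
  certB0 (fam := false) (s1 := false) (s2 := false) (a := 0) (b := 1) (c := 2) (cn := .pnp) (n1 := ndB0q0) (n2 := ndB4q2a) (pc := pcB1) (cut := Cut.none) (xt := Ext.none) (P1 := 0) (W1 := 536870912) (P2 := 0) (W2 := 536870912) (P3 := 587336777) (W3 := 62277027) (N0 := 3) (En := eng) (mo := mog) (C1 := cd0q0) (C2 := cd4q2a) (C3 := pd1)
    rfl k0_mm_012_a

noncomputable def f_mm_012_b : ℕ → ℕ → ℕ → ℕ → Bool := onCell 0 536870912 1239849684 370763052 587336777 62277027
    (rowB 3 eng mog cd0q0 cd4q2b pd1 0 false false false .pnp 0 1 2 (qsf 0 536870912 1239849684 370763052 1) ndB0q0 ndB4q2b pcB1 Cut.none Ext.none)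

def k0_mm_012_b : ∃ t, chk3 f_mm_012_b t 1 1 1 = true :=
  ⟨(l 5), by decide +kernel⟩

theorem c_mm_012_b : CertB 0 536870912 1239849684 370763052 587336777 62277027 3 eng mog cd0q0 cd4q2b pd1 false false false .pnp 0 1 2
    ndB0q0 ndB4q2b pcB1 Cut.none Ext.none :=
  certB0 (fam := false) (s1 := false) (s2 := false) (a := 0) (b := 1) (c := 2) (cn := .pnp) (n1 := ndB0q0) (n2 := ndB4q2b) (pc := pcB1) (cut := Cut.none) (xt := Ext.none) (P1 := 0) (W1 := 536870912) (P2 := 1239849684) (W2 := 370763052) (P3 := 587336777) (W3 := 62277027) (N0 := 3) (En := eng) (mo := mog) (C1 := cd0q0) (C2 := cd4q2b) (C3 := pd1)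
    rfl k0_mm_012_b

noncomputable def f_mm_022_a : ℕ → ℕ → ℕ → ℕ → Bool := onCell 0 536870912 0 536870912 587336777 62277027
    (rowB 3 eng mog cd0q0 cd4q2a pd2 0 false false false .pp 0 2 2 (qsf 0 536870912 0 536870912 2) ndB0q0 ndB4q2a pcB2 Cut.none Ext.none)

def k0_mm_022_a : ∃ t, chk3 f_mm_022_a t 1 1 1 = true :=
  ⟨(l 5), by decide +kernel⟩

theorem c_mm_022_a : CertB 0 536870912 0 536870912 587336777 62277027 3 eng mog cd0q0 cd4q2a pd2 false false false .pp 0 2 2
    ndB0q0 ndB4q2a pcB2 Cut.none Ext.none :=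
  certB0 (fam := false) (s1 := false) (s2 := false) (a := 0) (b := 2) (c := 2) (cn := .pp) (n1 := ndB0q0) (n2 := ndB4q2a) (pc := pcB2) (cut := Cut.none) (xt := Ext.none) (P1 := 0) (W1 := 536870912) (P2 := 0) (W2 := 536870912) (P3 := 587336777) (W3 := 62277027) (N0 := 3) (En := eng) (mo := mog) (C1 := cd0q0) (C2 := cd4q2a) (C3 := pd2)
    rfl k0_mm_022_a

noncomputable def f_mm_022_b : ℕ → ℕ → ℕ → ℕ → Bool := onCell 0 536870912 1239849684 370763052 587336777 62277027
    (rowB 3 eng mog cd0q0 cd4q2b pd2 0 false false false .pp 0 2 2 (qsf 0 536870912 1239849684 370763052 2) ndB0q0 ndB4q2b pcB2 Cut.none Ext.none)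

def k0_mm_022_b : ∃ t, chk3 f_mm_022_b t 1 1 1 = true :=
  ⟨(l 5), by decide +kernel⟩

theorem c_mm_022_b : CertB 0 536870912 1239849684 370763052 587336777 62277027 3 eng mog cd0q0 cd4q2b pd2 false false false .pp 0 2 2
    ndB0q0 ndB4q2b pcB2 Cut.none Ext.none :=
  certB0 (fam := false) (s1 := false) (s2 := false) (a := 0) (b := 2) (c := 2) (cn := .pp) (n1 := ndB0q0) (n2 := ndB4q2b) (pc := pcB2) (cut := Cut.none) (xt := Ext.none) (P1 := 0) (W1 := 536870912) (P2 := 1239849684) (W2 := 370763052) (P3 := 587336777) (W3 := 62277027) (N0 := 3) (En := eng) (mo := mog) (C1 := cd0q0) (C2 := cd4q2b) (C3 := pd2)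
    rfl k0_mm_022_b

noncomputable def f_mm_023 : ℕ → ℕ → ℕ → ℕ → Bool := onCell 0 536870912 1610612736 536870912 587336777 62277027
    (rowB 3 eng mog cd0q0 cd4q3 pd2 0 false false false .up 0 2 3 (qsf 0 536870912 1610612736 536870912 2) ndB0q0 ndB4q3 pcB2 Cut.none Ext.none)

def k0_mm_023 : ∃ t, chk3 f_mm_023 t 1 1 1 = true :=
  ⟨(l 5), by decide +kernel⟩

theorem c_mm_023 : CertB 0 536870912 1610612736 536870912 587336777 62277027 3 eng mog cd0q0 cd4q3 pd2 false false false .up 0 2 3
    ndB0q0 ndB4q3 pcB2 Cut.none Ext.none :=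
  certB0 (fam := false) (s1 := false) (s2 := false) (a := 0) (b := 2) (c := 3) (cn := .up) (n1 := ndB0q0) (n2 := ndB4q3) (pc := pcB2) (cut := Cut.none) (xt := Ext.none) (P1 := 0) (W1 := 536870912) (P2 := 1610612736) (W2 := 536870912) (P3 := 587336777) (W3 := 62277027) (N0 := 3) (En := eng) (mo := mog) (C1 := cd0q0) (C2 := cd4q3) (C3 := pd2)
    rfl k0_mm_023

noncomputable def f_mm_033 : ℕ → ℕ → ℕ → ℕ → Bool := onCell 0 536870912 1610612736 536870912 587336777 62277027
    (rowB 3 eng mog cd0q0 cd4q3 pd3 0 false false false .pnn 0 3 3 (qsf 0 536870912 1610612736 536870912 3) ndB0q0 ndB4q3 pcB3 Cut.none Ext.none)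

def k0_mm_033 : ∃ t, chk3 f_mm_033 t 1 1 1 = true :=
  ⟨(l 5), by decide +kernel⟩

theorem c_mm_033 : CertB 0 536870912 1610612736 536870912 587336777 62277027 3 eng mog cd0q0 cd4q3 pd3 false false false .pnn 0 3 3
    ndB0q0 ndB4q3 pcB3 Cut.none Ext.none :=
  certB0 (fam := false) (s1 := false) (s2 := false) (a := 0) (b := 3) (c := 3) (cn := .pnn) (n1 := ndB0q0) (n2 := ndB4q3) (pc := pcB3) (cut := Cut.none) (xt := Ext.none) (P1 := 0) (W1 := 536870912) (P2 := 1610612736) (W2 := 536870912) (P3 := 587336777) (W3 := 62277027) (N0 := 3) (En := eng) (mo := mog) (C1 := cd0q0) (C2 := cd4q3) (C3 := pd3)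
    rfl k0_mm_033

noncomputable def f_mm_101 : ℕ → ℕ → ℕ → ℕ → Bool := onCell 536870912 536870912 536870912 536870912 587336777 62277027
    (rowB 3 eng mog cd0q1 cd4q1 pd0 0 false false false .npn 1 0 1 (qsf 536870912 536870912 536870912 536870912 0) ndB0q1 ndB4q1 pcB0 Cut.none Ext.none)

def k0_mm_101 : ∃ t, chk3 f_mm_101 t 1 1 1 = true :=
  ⟨(l 3), by decide +kernel⟩

theorem c_mm_101 : CertB 536870912 536870912 536870912 536870912 587336777 62277027 3 eng mog cd0q1 cd4q1 pd0 false false false .npn 1 0 1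
    ndB0q1 ndB4q1 pcB0 Cut.none Ext.none :=
  certB0 (fam := false) (s1 := false) (s2 := false) (a := 1) (b := 0) (c := 1) (cn := .npn) (n1 := ndB0q1) (n2 := ndB4q1) (pc := pcB0) (cut := Cut.none) (xt := Ext.none) (P1 := 536870912) (W1 := 536870912) (P2 := 536870912) (W2 := 536870912) (P3 := 587336777) (W3 := 62277027) (N0 := 3) (En := eng) (mo := mog) (C1 := cd0q1) (C2 := cd4q1) (C3 := pd0)
    rfl k0_mm_101

noncomputable def f_mm_102_a : ℕ → ℕ → ℕ → ℕ → Bool := onCell 536870912 536870912 0 536870912 587336777 62277027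
    (rowB 3 eng mog cd0q1 cd4q2a pd0 0 false false false .npp 1 0 2 (qsf 536870912 536870912 0 536870912 0) ndB0q1 ndB4q2a pcB0 Cut.none Ext.none)

def k0_mm_102_a : ∃ t, chk3 f_mm_102_a t 1 1 1 = true :=
  ⟨(l 3), by decide +kernel⟩

theorem c_mm_102_a : CertB 536870912 536870912 0 536870912 587336777 62277027 3 eng mog cd0q1 cd4q2a pd0 false false false .npp 1 0 2
    ndB0q1 ndB4q2a pcB0 Cut.none Ext.none :=
  certB0 (fam := false) (s1 := false) (s2 := false) (a := 1) (b := 0) (c := 2) (cn := .npp) (n1 := ndB0q1) (n2 := ndB4q2a) (pc := pcB0) (cut := Cut.none) (xt := Ext.none) (P1 := 536870912) (W1 := 536870912) (P2 := 0) (W2 := 536870912) (P3 := 587336777) (W3 := 62277027) (N0 := 3) (En := eng) (mo := mog) (C1 := cd0q1) (C2 := cd4q2a) (C3 := pd0)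
    rfl k0_mm_102_a

noncomputable def f_mm_102_b : ℕ → ℕ → ℕ → ℕ → Bool := onCell 536870912 536870912 1239849684 370763052 587336777 62277027
    (rowB 3 eng mog cd0q1 cd4q2b pd0 0 false false false .npp 1 0 2 (qsf 536870912 536870912 1239849684 370763052 0) ndB0q1 ndB4q2b pcB0 Cut.none Ext.none)

def k0_mm_102_b : ∃ t, chk3 f_mm_102_b t 1 1 1 = true :=
  ⟨(l 5), by decide +kernel⟩

theorem c_mm_102_b : CertB 536870912 536870912 1239849684 370763052 587336777 62277027 3 eng mog cd0q1 cd4q2b pd0 false false false .npp 1 0 2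
    ndB0q1 ndB4q2b pcB0 Cut.none Ext.none :=
  certB0 (fam := false) (s1 := false) (s2 := false) (a := 1) (b := 0) (c := 2) (cn := .npp) (n1 := ndB0q1) (n2 := ndB4q2b) (pc := pcB0) (cut := Cut.none) (xt := Ext.none) (P1 := 536870912) (W1 := 536870912) (P2 := 1239849684) (W2 := 370763052) (P3 := 587336777) (W3 := 62277027) (N0 := 3) (En := eng) (mo := mog) (C1 := cd0q1) (C2 := cd4q2b) (C3 := pd0)
    rfl k0_mm_102_b

noncomputable def f_mm_112_a : ℕ → ℕ → ℕ → ℕ → Bool := onCell 536870912 536870912 0 536870912 587336777 62277027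
    (rowB 3 eng mog cd0q1 cd4q2a pd1 0 false false false .dn 1 1 2 (qsf 536870912 536870912 0 536870912 1) ndB0q1 ndB4q2a pcB1 Cut.none Ext.none)

def k0_mm_112_a : ∃ t, chk3 f_mm_112_a t 1 1 1 = true :=
  ⟨(l 3), by decide +kernel⟩

theorem c_mm_112_a : CertB 536870912 536870912 0 536870912 587336777 62277027 3 eng mog cd0q1 cd4q2a pd1 false false false .dn 1 1 2
    ndB0q1 ndB4q2a pcB1 Cut.none Ext.none :=
  certB0 (fam := false) (s1 := false) (s2 := false) (a := 1) (b := 1) (c := 2) (cn := .dn) (n1 := ndB0q1) (n2 := ndB4q2a) (pc := pcB1) (cut := Cut.none) (xt := Ext.none) (P1 := 536870912) (W1 := 536870912) (P2 := 0) (W2 := 536870912) (P3 := 587336777) (W3 := 62277027) (N0 := 3) (En := eng) (mo := mog) (C1 := cd0q1) (C2 := cd4q2a) (C3 := pd1)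
    rfl k0_mm_112_a

noncomputable def f_mm_112_b : ℕ → ℕ → ℕ → ℕ → Bool := onCell 536870912 536870912 1239849684 370763052 587336777 62277027
    (rowB 3 eng mog cd0q1 cd4q2b pd1 0 false false false .dn 1 1 2 (qsf 536870912 536870912 1239849684 370763052 1) ndB0q1 ndB4q2b pcB1 Cut.none Ext.none)

def k0_mm_112_b : ∃ t, chk3 f_mm_112_b t 1 1 1 = true :=
  ⟨(l 5), by decide +kernel⟩

theorem c_mm_112_b : CertB 536870912 536870912 1239849684 370763052 587336777 62277027 3 eng mog cd0q1 cd4q2b pd1 false false false .dn 1 1 2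
    ndB0q1 ndB4q2b pcB1 Cut.none Ext.none :=
  certB0 (fam := false) (s1 := false) (s2 := false) (a := 1) (b := 1) (c := 2) (cn := .dn) (n1 := ndB0q1) (n2 := ndB4q2b) (pc := pcB1) (cut := Cut.none) (xt := Ext.none) (P1 := 536870912) (W1 := 536870912) (P2 := 1239849684) (W2 := 370763052) (P3 := 587336777) (W3 := 62277027) (N0 := 3) (En := eng) (mo := mog) (C1 := cd0q1) (C2 := cd4q2b) (C3 := pd1)
    rfl k0_mm_112_b

noncomputable def f_mm_113 : ℕ → ℕ → ℕ → ℕ → Bool := onCell 536870912 536870912 1610612736 536870912 587336777 62277027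
    (rowB 3 eng mog cd0q1 cd4q3 pd1 0 false false false .nn 1 1 3 (qsf 536870912 536870912 1610612736 536870912 1) ndB0q1 ndB4q3 pcB1 Cut.none Ext.none)

def k0_mm_113 : ∃ t, chk3 f_mm_113 t 1 1 1 = true :=
  ⟨(l 5), by decide +kernel⟩

theorem c_mm_113 : CertB 536870912 536870912 1610612736 536870912 587336777 62277027 3 eng mog cd0q1 cd4q3 pd1 false false false .nn 1 1 3
    ndB0q1 ndB4q3 pcB1 Cut.none Ext.none :=
  certB0 (fam := false) (s1 := false) (s2 := false) (a := 1) (b := 1) (c := 3) (cn := .nn) (n1 := ndB0q1) (n2 := ndB4q3) (pc := pcB1) (cut := Cut.none) (xt := Ext.none) (P1 := 536870912) (W1 := 536870912) (P2 := 1610612736) (W2 := 536870912) (P3 := 587336777) (W3 := 62277027) (N0 := 3) (En := eng) (mo := mog) (C1 := cd0q1) (C2 := cd4q3) (C3 := pd1)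
    rfl k0_mm_113

noncomputable def f_mm_123 : ℕ → ℕ → ℕ → ℕ → Bool := onCell 536870912 536870912 1610612736 536870912 587336777 62277027
    (rowB 3 eng mog cd0q1 cd4q3 pd2 0 false false false .npn 1 2 3 (qsf 536870912 536870912 1610612736 536870912 2) ndB0q1 ndB4q3 pcB2 Cut.none Ext.none)

def k0_mm_123 : ∃ t, chk3 f_mm_123 t 1 1 1 = true :=
  ⟨(l 5), by decide +kernel⟩

theorem c_mm_123 : CertB 536870912 536870912 1610612736 536870912 587336777 62277027 3 eng mog cd0q1 cd4q3 pd2 false false false .npn 1 2 3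
    ndB0q1 ndB4q3 pcB2 Cut.none Ext.none :=
  certB0 (fam := false) (s1 := false) (s2 := false) (a := 1) (b := 2) (c := 3) (cn := .npn) (n1 := ndB0q1) (n2 := ndB4q3) (pc := pcB2) (cut := Cut.none) (xt := Ext.none) (P1 := 536870912) (W1 := 536870912) (P2 := 1610612736) (W2 := 536870912) (P3 := 587336777) (W3 := 62277027) (N0 := 3) (En := eng) (mo := mog) (C1 := cd0q1) (C2 := cd4q3) (C3 := pd2)
    rfl k0_mm_123

noncomputable def f_mm_133 : ℕ → ℕ → ℕ → ℕ → Bool := onCell 536870912 536870912 1610612736 536870912 587336777 62277027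
    (rowB 3 eng mog cd0q1 cd4q3 pd3 0 false false false .dn 1 3 3 (qsf 536870912 536870912 1610612736 536870912 3) ndB0q1 ndB4q3 pcB3 Cut.none Ext.none)

def k0_mm_133 : ∃ t, chk3 f_mm_133 t 1 1 1 = true :=
  ⟨(l 5), by decide +kernel⟩

theorem c_mm_133 : CertB 536870912 536870912 1610612736 536870912 587336777 62277027 3 eng mog cd0q1 cd4q3 pd3 false false false .dn 1 3 3
    ndB0q1 ndB4q3 pcB3 Cut.none Ext.none :=
  certB0 (fam := false) (s1 := false) (s2 := false) (a := 1) (b := 3) (c := 3) (cn := .dn) (n1 := ndB0q1) (n2 := ndB4q3) (pc := pcB3) (cut := Cut.none) (xt := Ext.none) (P1 := 536870912) (W1 := 536870912) (P2 := 1610612736) (W2 := 536870912) (P3 := 587336777) (W3 := 62277027) (N0 := 3) (En := eng) (mo := mog) (C1 := cd0q1) (C2 := cd4q3) (C3 := pd3)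
    rfl k0_mm_133

noncomputable def f_mm_202_a : ℕ → ℕ → ℕ → ℕ → Bool := onCell 0 536870912 0 536870912 587336777 62277027
    (rowB 3 eng mog cd0q2 cd4q2a pd0 0 false false false .pp 2 0 2 (qsf 0 536870912 0 536870912 0) ndB0q2 ndB4q2a pcB0 Cut.none Ext.none)

def k0_mm_202_a : ∃ t, chk3 f_mm_202_a t 1 1 1 = true :=
  ⟨(l 3), by decide +kernel⟩

theorem c_mm_202_a : CertB 0 536870912 0 536870912 587336777 62277027 3 eng mog cd0q2 cd4q2a pd0 false false false .pp 2 0 2
    ndB0q2 ndB4q2a pcB0 Cut.none Ext.none :=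
  certB0 (fam := false) (s1 := false) (s2 := false) (a := 2) (b := 0) (c := 2) (cn := .pp) (n1 := ndB0q2) (n2 := ndB4q2a) (pc := pcB0) (cut := Cut.none) (xt := Ext.none) (P1 := 0) (W1 := 536870912) (P2 := 0) (W2 := 536870912) (P3 := 587336777) (W3 := 62277027) (N0 := 3) (En := eng) (mo := mog) (C1 := cd0q2) (C2 := cd4q2a) (C3 := pd0)
    rfl k0_mm_202_a

noncomputable def f_mm_202_b : ℕ → ℕ → ℕ → ℕ → Bool := onCell 0 536870912 1239849684 370763052 587336777 62277027
    (rowB 3 eng mog cd0q2 cd4q2b pd0 0 false false false .pp 2 0 2 (qsf 0 536870912 1239849684 370763052 0) ndB0q2 ndB4q2b pcB0 Cut.none Ext.none)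

def k0_mm_202_b : ∃ t, chk3 f_mm_202_b t 1 1 1 = true :=
  ⟨(l 3), by decide +kernel⟩

theorem c_mm_202_b : CertB 0 536870912 1239849684 370763052 587336777 62277027 3 eng mog cd0q2 cd4q2b pd0 false false false .pp 2 0 2
    ndB0q2 ndB4q2b pcB0 Cut.none Ext.none :=
  certB0 (fam := false) (s1 := false) (s2 := false) (a := 2) (b := 0) (c := 2) (cn := .pp) (n1 := ndB0q2) (n2 := ndB4q2b) (pc := pcB0) (cut := Cut.none) (xt := Ext.none) (P1 := 0) (W1 := 536870912) (P2 := 1239849684) (W2 := 370763052) (P3 := 587336777) (W3 := 62277027) (N0 := 3) (En := eng) (mo := mog) (C1 := cd0q2) (C2 := cd4q2b) (C3 := pd0)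
    rfl k0_mm_202_b

noncomputable def f_mm_203 : ℕ → ℕ → ℕ → ℕ → Bool := onCell 0 536870912 0 536870912 587336777 62277027
    (rowB 3 eng mog cd0q2 cd4q3 pd0 1 false false false .up 2 0 3 (qsf 0 536870912 1610612736 536870912 0) ndB0q2 ndB4q3 pcB0 Cut.none Ext.none)

def k0_mm_203 : ∃ t, chk3 f_mm_203 t 1 1 1 = true :=
  ⟨(l 3), by decide +kernel⟩

theorem c_mm_203 : CertB 0 536870912 1610612736 536870912 587336777 62277027 3 eng mog cd0q2 cd4q3 pd0 false false false .up 2 0 3
    ndB0q2 ndB4q3 pcB0 Cut.none Ext.none :=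
  certB1 (fam := false) (s1 := false) (s2 := false) (a := 2) (b := 0) (c := 3) (cn := .up) (n1 := ndB0q2) (n2 := ndB4q3) (pc := pcB0) (cut := Cut.none) (xt := Ext.none) (P1 := 0) (W1 := 536870912) (P2 := 1610612736) (W2 := 536870912) (P3 := 587336777) (W3 := 62277027) (N0 := 3) (En := eng) (mo := mog) (C1 := cd0q2) (C2 := cd4q3) (C3 := pd0)
    rfl (fun _ => rfl) k0_mm_203

noncomputable def f_mm_213 : ℕ → ℕ → ℕ → ℕ → Bool := onCell 0 536870912 1610612736 536870912 587336777 62277027
    (rowB 3 eng mog cd0q2 cd4q3 pd1 0 false false false .pnn 2 1 3 (qsf 0 536870912 1610612736 536870912 1) ndB0q2 ndB4q3 pcB1 Cut.none Ext.none)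

def k0_mm_213 : ∃ t, chk3 f_mm_213 t 1 1 1 = true :=
  ⟨(b (l 3) (a (l 3) (l 5))), by decide +kernel⟩

theorem c_mm_213 : CertB 0 536870912 1610612736 536870912 587336777 62277027 3 eng mog cd0q2 cd4q3 pd1 false false false .pnn 2 1 3
    ndB0q2 ndB4q3 pcB1 Cut.none Ext.none :=
  certB0 (fam := false) (s1 := false) (s2 := false) (a := 2) (b := 1) (c := 3) (cn := .pnn) (n1 := ndB0q2) (n2 := ndB4q3) (pc := pcB1) (cut := Cut.none) (xt := Ext.none) (P1 := 0) (W1 := 536870912) (P2 := 1610612736) (W2 := 536870912) (P3 := 587336777) (W3 := 62277027) (N0 := 3) (En := eng) (mo := mog) (C1 := cd0q2) (C2 := cd4q3) (C3 := pd1)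
    rfl k0_mm_213

end Pool.Agent.Strip051.G.I5470_6050.Tab.C.BB04

namespace Pool.Agent.Strip051.G.I5470_6050.Tab.C.BB05

open Pool.Agent.Strip051.PB Pool.Agent.Strip051.PB.T
open Pool.Agent.Strip051.G.I5470_6050.Tab

noncomputable def f_pp_001 : ℕ → ℕ → ℕ → ℕ → Bool := onCell 0 536870912 0 536870912 587336777 62277027
    (rowB 3 eng mog cd0q0 cd5q1 pd0 1 false true true .up 0 0 1 (qsf 0 536870912 536870912 536870912 0) ndB0q0 ndB5q1 pcB0 Cut.none Ext.none)

def k0_pp_001 : ∃ t, chk3 f_pp_001 t 1 1 1 = true :=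
  ⟨(l 3), by decide +kernel⟩

theorem c_pp_001 : CertB 0 536870912 536870912 536870912 587336777 62277027 3 eng mog cd0q0 cd5q1 pd0 false true true .up 0 0 1
    ndB0q0 ndB5q1 pcB0 Cut.none Ext.none :=
  certB1 (fam := false) (s1 := true) (s2 := true) (a := 0) (b := 0) (c := 1) (cn := .up) (n1 := ndB0q0) (n2 := ndB5q1) (pc := pcB0) (cut := Cut.none) (xt := Ext.none) (P1 := 0) (W1 := 536870912) (P2 := 536870912) (W2 := 536870912) (P3 := 587336777) (W3 := 62277027) (N0 := 3) (En := eng) (mo := mog) (C1 := cd0q0) (C2 := cd5q1) (C3 := pd0)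
    rfl (fun _ => rfl) k0_pp_001

noncomputable def cut_pp_011 : Cut := Cut.of [[⟨0, 0, 0, 67108864⟩, ⟨1, 1, 0, 67108864⟩, ⟨2, 1, 0, 67108864⟩]]

noncomputable def f_pp_011 : ℕ → ℕ → ℕ → ℕ → Bool := onCell 0 536870912 536870912 536870912 587336777 62277027
    (rowB 3 eng mog cd0q0 cd5q1 pd1 1 false true true .pnn 0 1 1 (qsf 0 536870912 536870912 536870912 1) ndB0q0 ndB5q1 pcB1 cut_pp_011 Ext.none)

def k0_pp_011 : ∃ t, chk3 f_pp_011 t 1 1 1 = true :=
  ⟨(b (l 3) (a (b (l 3) (a (b (l 3) (a (b (l 3) (a (l 6) (l 3))) (l 3))) (l 3))) (l 3))), by decide +kernel⟩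

theorem c_pp_011 : CertB 0 536870912 536870912 536870912 587336777 62277027 3 eng mog cd0q0 cd5q1 pd1 false true true .pnn 0 1 1
    ndB0q0 ndB5q1 pcB1 cut_pp_011 Ext.none :=
  certB1 (fam := false) (s1 := true) (s2 := true) (a := 0) (b := 1) (c := 1) (cn := .pnn) (n1 := ndB0q0) (n2 := ndB5q1) (pc := pcB1) (cut := cut_pp_011) (xt := Ext.none) (P1 := 0) (W1 := 536870912) (P2 := 536870912) (W2 := 536870912) (P3 := 587336777) (W3 := 62277027) (N0 := 3) (En := eng) (mo := mog) (C1 := cd0q0) (C2 := cd5q1) (C3 := pd1)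
    rfl (fun _ => rfl) k0_pp_011

noncomputable def f_pp_012 : ℕ → ℕ → ℕ → ℕ → Bool := onCell 0 536870912 536870912 536870912 587336777 62277027
    (rowB 3 eng mog cd0q0 cd5q2 pd1 1 false true true .pnp 0 1 2 (qsf 0 536870912 1073741824 536870912 1) ndB0q0 ndB5q2 pcB1 Cut.none Ext.none)

def k0_pp_012 : ∃ t, chk3 f_pp_012 t 1 1 1 = true :=
  ⟨(l 3), by decide +kernel⟩

theorem c_pp_012 : CertB 0 536870912 1073741824 536870912 587336777 62277027 3 eng mog cd0q0 cd5q2 pd1 false true true .pnp 0 1 2
    ndB0q0 ndB5q2 pcB1 Cut.none Ext.none :=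
  certB1 (fam := false) (s1 := true) (s2 := true) (a := 0) (b := 1) (c := 2) (cn := .pnp) (n1 := ndB0q0) (n2 := ndB5q2) (pc := pcB1) (cut := Cut.none) (xt := Ext.none) (P1 := 0) (W1 := 536870912) (P2 := 1073741824) (W2 := 536870912) (P3 := 587336777) (W3 := 62277027) (N0 := 3) (En := eng) (mo := mog) (C1 := cd0q0) (C2 := cd5q2) (C3 := pd1)
    rfl (fun _ => rfl) k0_pp_012

noncomputable def f_pp_022 : ℕ → ℕ → ℕ → ℕ → Bool := onCell 0 536870912 1073741824 536870912 587336777 62277027
    (rowB 3 eng mog cd0q0 cd5q2 pd2 1 false true true .pp 0 2 2 (qsf 0 536870912 1073741824 536870912 2) ndB0q0 ndB5q2 pcB2 Cut.none Ext.none)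

def k0_pp_022 : ∃ t, chk3 f_pp_022 t 1 4 1 = true :=
  ⟨(b (l 3) (b (a (l 3) (a (l 3) (a (l 3) (b (l 3) (l 2))))) (a (a (b (l 3) (b (a (l 3) (a (l 3) (l 3))) (b (a (l 3) (a (a (l 16515200) (l 16513920)) (a (l 16513216) (l 16512984)))) (a (a (a (l 16515352) (c (l 16516576) (l 16511704))) (a (c (l 16513136) (l 16511304)) (l 16510632))) (a (a (l 16509496) (l 16509080)) (a (l 16509160) (l 16509520))))))) (a (b (l 3) (b (a (c (l 16517816) (l 16538760)) (b (l 16517664) (l 16515288))) (a (b (a (l 16513128) (l 16513472)) (a (l 16509992) (l 16510376))) (b (a (l 16513720) (l 16513608)) (l 16510488))))) (b (a (l 3) (b (l 3) (l 16552664))) (a (b (a (l 16514176) (b (l 16512240) (l 16512464))) (b (a (l 16512888) (l 16512088)) (l 16509920))) (b (b (l 16512688) (l 16514816)) (l 16514904)))))) (a (a (b (a (l 16593184) (b (l 3) (l 16512240))) (b (a (l 16517696) (l 16519432)) (a (l 16519112) (l 16522304)))) (b (b (l 16550640) (a (l 16511000) (l 16507800))) (a (b (l 16520512) (l 16523952)) (b (l 16517624) (l 16523704))))) (a (a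 (b (b (l 16490744) (l 16502920)) (b (l 16513840) (l 16521280))) (b (b (l 16463728) (l 2)) (l 2))) (l 2)))))), by decide +kernel⟩

def k1_pp_022 : ∃ t, chk3 f_pp_022 t 4 10 1 = true :=
  ⟨(b (b (a (b (b (a (a (l 16507592) (c (l 16509336) (l 16503992))) (a (c (l 16506384) (l 16503888)) (l 16504376))) (a (a (c (l 16503608) (l 16494952)) (c (l 16501936) (l 16496400))) (a (l 16503752) (l 16497504)))) (a (a (c (l 16491960) (l 16483864)) (c (l 16490088) (l 16485104))) (c (a (l 16488216) (l 16488192)) (a (l 16484736) (l 16484064))))) (b (a (b (a (c (l 16504568) (l 16501720)) (l 16503792)) (l 16497304)) (b (l 16504240) (l 16498408))) (a (b (l 16490632) (l 16484440)) (b (l 16492440) (l 16487624))))) (b (a (a (b (a (l 16477152) (c (l 16478712) (l 16473720))) (a (l 16469624) (l 16469768))) (b (a (l 16476544) (l 16477144)) (l 16470944))) (a (b (l 16479328) (l 16475080)) (l 16482592))) (b (a (a (a (l 16462288) (l 16463200)) (b (l 16467032) (l 16464776))) (a (b (l 16472512) (l 16471024)) (l 16479144))) (a (b (b (a (a (l 16457864)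 (l 16459424)) (l 16463128)) (a (a (l 16456128) (l 16457960)) (l 16461992))) (b (b (b (a (a (l 16455048) (l 16457072)) (l 16461392)) (a (a (c (l 16459720) (l 16480120)) (l 16456920)) (c (l 16467288) (l 16454872)))) (a (a (l 16454016) (l 16456304)) (l 16461024))) (a (a (l 16452648) (l 16455048)) (l 16459912)))) (b (a (l 16469512) (l 16477744)) (a (a (c (l 16494192) (l 16521720)) (c (l 16478184) (l 16462672))) (a (c (l 16483328) (l 16466864)) (c (l 16488560) (l 16471336))))))))) (a (a (a (b (l 16458560) (l 16411008)) (l 16428752)) (a (l 16433984) (l 16439616))) (a (l 16490704) (l 16461816)))), by decide +kernel⟩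

def k2_pp_022 : ∃ t, chk3 f_pp_022 t 5 10 1 = true :=
  ⟨(b (b (a (b (a (l 16502768) (l 16503824)) (a (l 16493744) (l 16497616))) (b (a (a (l 16504192) (l 16506520)) (l 16512656)) (a (l 16503496) (l 16514032)))) (b (a (a (b (l 16489616) (l 16488312)) (b (l 16495536) (l 16495376))) (a (b (l 16504856) (l 16506032)) (l 16517712))) (b (a (a (l 16487032) (l 16494928)) (a (l 16507008) (l 16520376))) (a (b (a (l 16486520) (l 16495640)) (a (c (l 16517336) (l 16499376)) (a (l 16495096) (l 16501040)))) (b (a (l 16509336) (l 16523752)) (a (l 16513072) (l 16528424))))))) (a (a (b (l 16480968) (l 16470416)) (l 16491992)) (a (l 16511112) (l 16529688)))), by decide +kernel⟩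

def k3_pp_022 : ∃ t, chk3 f_pp_022 t 2 11 1 = true :=
  ⟨(a (a (a (b (a (l 16376256) (l 16385224)) (a (l 16338984) (l 16351784))) (b (l 16398984) (l 16370936))) (a (b (l 16418080) (l 16396984)) (b (l 16438000) (l 16426200)))) (a (a (b (l 16460800) (l 16458072)) (b (l 16486304) (l 16489232))) (a (l 16514192) (l 16540008)))), by decide +kernel⟩

def k4_pp_022 : ∃ t, chk3 f_pp_022 t 3 5 1 = true :=
  ⟨(b (a (b (b (a (b (a (l 16519864) (l 16525360)) (l 16569496)) (b (l 16530472) (l 16537888))) (b (a (a (l 16528328) (l 16536824)) (l 16545104)) (b (a (l 16537448) (l 16552848)) (a (b (l 16542416) (a (l 16542304) (l 16554312))) (b (l 16560032) (l 16589152)))))) (a (l 16554248) (l 16579584))) (b (b (a (b (l 16549920) (l 2)) (l 2)) (l 2)) (l 2))) (a (a (a (l 16563680) (l 16584920)) (b (l 16600632) (l 2))) (l 2))), by decide +kernel⟩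

def k5_pp_022 : ∃ t, chk3 f_pp_022 t 1 3 1 = true :=
  ⟨(a (a (b (a (b (a (b (a (l 16312400) (l 16328808)) (a (l 16297600) (l 16318200))) (b (a (l 16344976) (l 16361568)) (l 16352024))) (a (b (a (l 16298856) (l 16326928)) (a (l 16322696) (l 16355608))) (b (l 16369264) (l 16402360)))) (b (a (b (l 16389392) (l 16398728)) (b (l 16428200) (l 16443528))) (a (b (l 16422416) (l 16459880)) (b (l 16471440) (l 16510008))))) (b (a (b (a (a (l 16360096) (l 16395400)) (l 16443720)) (a (a (l 16399656) (l 16433976)) (l 16478152))) (b (a (l 16499624) (l 16543960)) (l 16546472))) (a (a (b (a (l 16439360) (l 16469936)) (l 16499384)) (b (l 16511032) (l 16555096))) (a (l 16578368) (l 2))))) (b (b (a (a (l 16474056) (l 16511144)) (b (l 16549648) (l 16573568))) (a (b (l 16534640) (l 16567496)) (b (l 16598448) (l 2)))) (b (a (l 16749816) (l 2)) (l 2)))) (b (a (b (a (b (l 16602832) (l 2)) (l 2)) (l 2)) (l 2)) (l 2))), by decide +kernel⟩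

theorem s6_pp_022 : ∃ t, chk3 f_pp_022 t 2 10 1 = true := ex3_a k1_pp_022 k2_pp_022

theorem s7_pp_022 : ∃ t, chk3 f_pp_022 t 2 5 1 = true := ex3_b s6_pp_022 k3_pp_022

theorem s8_pp_022 : ∃ t, chk3 f_pp_022 t 1 5 1 = true := ex3_a s7_pp_022 k4_pp_022

theorem s9_pp_022 : ∃ t, chk3 f_pp_022 t 1 2 1 = true := ex3_b k0_pp_022 s8_pp_022

theorem s10_pp_022 : ∃ t, chk3 f_pp_022 t 1 1 1 = true := ex3_b s9_pp_022 k5_pp_022

theorem c_pp_022 : CertB 0 536870912 1073741824 536870912 587336777 62277027 3 eng mog cd0q0 cd5q2 pd2 false true true .pp 0 2 2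
    ndB0q0 ndB5q2 pcB2 Cut.none Ext.none :=
  certB1 (fam := false) (s1 := true) (s2 := true) (a := 0) (b := 2) (c := 2) (cn := .pp) (n1 := ndB0q0) (n2 := ndB5q2) (pc := pcB2) (cut := Cut.none) (xt := Ext.none) (P1 := 0) (W1 := 536870912) (P2 := 1073741824) (W2 := 536870912) (P3 := 587336777) (W3 := 62277027) (N0 := 3) (En := eng) (mo := mog) (C1 := cd0q0) (C2 := cd5q2) (C3 := pd2)
    rfl (fun _ => rfl) s10_pp_022

noncomputable def f_pp_023 : ℕ → ℕ → ℕ → ℕ → Bool := onCell 1073741824 536870912 0 1230186008 587336777 62277027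
    (rowB 3 eng mog cd0q0 cd5q3 pd2 2 false true true .up 0 2 3 (qsf 0 536870912 0 1230186008 2) ndB0q0 ndB5q3 pcB2 Cut.none Ext.none)

def k0_pp_023 : ∃ t, chk3 f_pp_023 t 2 1 1 = true :=
  ⟨(b (l 2) (b (a (l 2) (a (l 2) (b (l 2) (b (l 2) (l 16667704))))) (a (b (l 2) (a (l 3) (a (a (l 3) (b (b (l 2) (a (l 3) (b (l 16581744) (l 16575544)))) (b (a (l 3) (l 16634424)) (b (b (l 273434836775) (l 3)) (l 3))))) (b (b (a (b (l 2) (l 527844407991)) (a (l 16572672) (l 16562912))) (a (a (l 16588472) (l 16556768)) (a (l 16545120) (l 16533328)))) (b (a (a (a (l 16564160) (l 16559440)) (l 16552000)) (a (l 16541984) (l 16530000))) (a (b (a (b (l 16561384) (l 16527856)) (l 16597376)) (c (a (l 16494352) (l 16509280)) (b (l 16530392) (a (l 16613408) (l 16516880))))) (b (a (l 16522736) (l 16510112)) (a (b (l 16502912) (l 16544360)) (b (l 16512584) (l 16549600)))))))))) (b (b (a (a (l 2) (l 16657920)) (a (l 16638224) (l 16623888))) (a (a (a (l 16617920) (a (l 16607352) (a (l 16604056) (a (l 16604096) (l 16605568))))) (l 16595104))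 (a (l 16581720) (l 16572560)))) (b (a (a (a (b (l 16549848) (l 16514560)) (a (b (l 16539336) (l 16496872)) (a (b (l 16536328) (l 16489072)) (b (a (l 16536752) (l 16538928)) (a (l 16489120) (l 16491320)))))) (b (l 16531240) (l 16514104))) (b (a (l 16559904) (l 16586568)) (l 16637200))) (a (a (a (b (a (l 16517744) (l 16504480)) (b (a (l 16496064) (l 16480264)) (a (l 16626056) (l 16549056)))) (b (a (l 16489864) (a (l 16478616) (a (l 16473144) (l 16491144)))) (a (b (l 16473720) (l 16555984)) (a (b (l 16491008) (l 16563136)) (a (b (l 16504368) (l 16569720)) (b (l 16518240) (l 16619176))))))) (b (l 16523088) (b (l 16539088) (l 16583224)))) (b (l 16587008) (b (l 16667432) (a (l 16586040) (l 16583216)))))))))), by decide +kernel⟩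

def k1_pp_023 : ∃ t, chk3 f_pp_023 t 3 1 1 = true :=
  ⟨(b (a (l 2) (b (l 16705816) (a (l 16703848) (l 16712312)))) (b (a (b (a (l 2) (l 16765512)) (a (b (l 16668848) (l 16647128)) (b (l 16663944) (l 16643088)))) (b (a (l 16667024) (l 16693656)) (b (a (l 16667184) (l 16668568)) (a (l 16645064) (l 16640616))))) (b (a (b (a (l 16614944) (l 16615192)) (a (a (l 16581912) (l 16596952)) (l 16648408))) (a (b (l 16619192) (l 16599392)) (b (l 16611424) (l 16584960)))) (a (b (a (b (l 16598816) (l 16588312)) (b (l 16597096) (l 16578624))) (b (a (l 16571912) (l 16555216)) (a (b (l 16559712) (l 16576360)) (b (l 16541944) (a (l 16572880) (l 16570480)))))) (b (b (a (l 16579936) (l 16557632)) (a (l 16553752) (l 16522840))) (b (a (l 16523352) (a (l 16491512) (l 16475168))) (a (b (l 16612720) (a (l 16564912) (l 16551832))) (b (b (l 16453920) (l 16472720)) (a (l 16542336) (l 16557512)))))))))), by decide +kernel⟩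

theorem s2_pp_023 : ∃ t, chk3 f_pp_023 t 1 1 1 = true := ex3_a k0_pp_023 k1_pp_023

theorem c_pp_023 : CertB 0 536870912 0 1230186008 587336777 62277027 3 eng mog cd0q0 cd5q3 pd2 false true true .up 0 2 3
    ndB0q0 ndB5q3 pcB2 Cut.none Ext.none :=
  certB2 (fam := false) (s1 := true) (s2 := true) (a := 0) (b := 2) (c := 3) (cn := .up) (n1 := ndB0q0) (n2 := ndB5q3) (pc := pcB2) (cut := Cut.none) (xt := Ext.none) (P1 := 0) (W1 := 536870912) (P2 := 0) (W2 := 1230186008) (P3 := 587336777) (W3 := 62277027) (N0 := 3) (En := eng) (mo := mog) (C1 := cd0q0) (C2 := cd5q3) (C3 := pd2)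
    rfl (fun _ => rfl) s2_pp_023

noncomputable def f_pp_033 : ℕ → ℕ → ℕ → ℕ → Bool := onCell 1610612736 536870912 0 1230186008 587336777 62277027
    (rowB 3 eng mog cd0q0 cd5q3 pd3 2 false true true .pnn 0 3 3 (qsf 0 536870912 0 1230186008 3) ndB0q0 ndB5q3 pcB3 Cut.none Ext.none)

def k0_pp_033 : ∃ t, chk3 f_pp_033 t 1 2 1 = true :=
  ⟨(b (a (a (a (l 16697320) (l 16680224)) (a (l 16659960) (l 16636408))) (l 4)) (a (a (a (b (l 16698656) (l 16730840)) (b (l 16675536) (l 16660424))) (a (b (l 16649048) (l 16628632)) (b (l 16621272) (l 16600000)))) (a (a (b (l 16594560) (l 16577664)) (a (l 16567520) (l 4))) (l 4)))), by decide +kernel⟩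

def k1_pp_033 : ∃ t, chk3 f_pp_033 t 1 3 1 = true :=
  ⟨(b (b (a (a (a (a (a (l 16708184) (l 16663240)) (l 16646232)) (a (l 16634592) (l 16620624))) (a (a (l 16602552) (l 16584432)) (l 16566520))) (a (a (a (l 16554832) (l 16552176)) (a (l 16549112) (l 16546304))) (l 4))) (a (a (a (a (b (l 16651944) (l 16614560)) (b (l 16604232) (l 16564768))) (a (b (l 16593696) (l 16556336)) (b (l 16581096) (l 16547840)))) (a (a (b (l 16564400) (l 16533288)) (b (l 16546224) (l 16514848))) (b (l 16528944) (a (l 16502232) (l 16495784))))) (a (a (b (l 16650464) (a (l 16494440) (l 16497280))) (a (b (l 16529792) (l 1)) (l 1))) (l 1)))) (a (a (b (a (a (b (a (l 16605512) (l 16545720)) (a (l 16564800) (l 16503912))) (b (l 16524136) (l 16483080))) (a (b (l 16518120) (b (l 16489376) (l 16469816))) (b (b (l 16523016) (l 16505528)) (b (l 16487584) (l 16468888))))) (b (a (a (b (a (l 16523928) (l 16464320)) (a (l 16475232) (l 16421128))) (b (l 16443952) (l 16394984))) (a (b (b (l 16452632) (l 16429368)) (l 16386896)) (b (b (l 116533926103)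 (l 118681283447)) (l 127270929383)))) (a (b (a (a (l 16420488) (b (l 16386088) (l 16359760))) (l 99890774055)) (a (b (a (b (l 16381896) (l 16403136)) (b (l 16338160) (l 16363232))) (c (a (l 16521032) (l 16493728)) (a (l 16439560) (l 16405784)))) (b (b (l 16307512) (l 1)) (l 1)))) (a (b (l 125123558247) (l 1)) (l 1))))) (b (a (a (b (a (l 16508680) (l 16499936)) (a (l 62846877479) (l 16467232))) (b (l 16487232) (b (l 16464880) (l 16445632)))) (b (a (l 16472920) (l 323229369255)) (l 1))) (a (b (b (a (b (a (l 16448112) (l 1)) (l 1)) (l 1)) (l 1)) (l 1)) (l 1)))) (l 1))), by decide +kernel⟩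

theorem s2_pp_033 : ∃ t, chk3 f_pp_033 t 1 1 1 = true := ex3_b k0_pp_033 k1_pp_033

theorem c_pp_033 : CertB 0 536870912 0 1230186008 587336777 62277027 3 eng mog cd0q0 cd5q3 pd3 false true true .pnn 0 3 3
    ndB0q0 ndB5q3 pcB3 Cut.none Ext.none :=
  certB2 (fam := false) (s1 := true) (s2 := true) (a := 0) (b := 3) (c := 3) (cn := .pnn) (n1 := ndB0q0) (n2 := ndB5q3) (pc := pcB3) (cut := Cut.none) (xt := Ext.none) (P1 := 0) (W1 := 536870912) (P2 := 0) (W2 := 1230186008) (P3 := 587336777) (W3 := 62277027) (N0 := 3) (En := eng) (mo := mog) (C1 := cd0q0) (C2 := cd5q3) (C3 := pd3)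
    rfl (fun _ => rfl) s2_pp_033

noncomputable def f_pp_101 : ℕ → ℕ → ℕ → ℕ → Bool := onCell 536870912 536870912 536870912 536870912 587336777 62277027
    (rowB 3 eng mog cd0q1 cd5q1 pd0 0 false true true .npn 1 0 1 (qsf 536870912 536870912 536870912 536870912 0) ndB0q1 ndB5q1 pcB0 Cut.none Ext.none)

def k0_pp_101 : ∃ t, chk3 f_pp_101 t 1 1 1 = true :=
  ⟨(a (l 3) (l 5)), by decide +kernel⟩

theorem c_pp_101 : CertB 536870912 536870912 536870912 536870912 587336777 62277027 3 eng mog cd0q1 cd5q1 pd0 false true true .npn 1 0 1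
    ndB0q1 ndB5q1 pcB0 Cut.none Ext.none :=
  certB0 (fam := false) (s1 := true) (s2 := true) (a := 1) (b := 0) (c := 1) (cn := .npn) (n1 := ndB0q1) (n2 := ndB5q1) (pc := pcB0) (cut := Cut.none) (xt := Ext.none) (P1 := 536870912) (W1 := 536870912) (P2 := 536870912) (W2 := 536870912) (P3 := 587336777) (W3 := 62277027) (N0 := 3) (En := eng) (mo := mog) (C1 := cd0q1) (C2 := cd5q1) (C3 := pd0)
    rfl k0_pp_101

noncomputable def f_pp_102 : ℕ → ℕ → ℕ → ℕ → Bool := onCell 536870912 536870912 1073741824 536870912 587336777 62277027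
    (rowB 3 eng mog cd0q1 cd5q2 pd0 0 false true true .npp 1 0 2 (qsf 536870912 536870912 1073741824 536870912 0) ndB0q1 ndB5q2 pcB0 Cut.none Ext.none)

def k0_pp_102 : ∃ t, chk3 f_pp_102 t 1 1 1 = true :=
  ⟨(l 3), by decide +kernel⟩

theorem c_pp_102 : CertB 536870912 536870912 1073741824 536870912 587336777 62277027 3 eng mog cd0q1 cd5q2 pd0 false true true .npp 1 0 2
    ndB0q1 ndB5q2 pcB0 Cut.none Ext.none :=
  certB0 (fam := false) (s1 := true) (s2 := true) (a := 1) (b := 0) (c := 2) (cn := .npp) (n1 := ndB0q1) (n2 := ndB5q2) (pc := pcB0) (cut := Cut.none) (xt := Ext.none) (P1 := 536870912) (W1 := 536870912) (P2 := 1073741824) (W2 := 536870912) (P3 := 587336777) (W3 := 62277027) (N0 := 3) (En := eng) (mo := mog) (C1 := cd0q1) (C2 := cd5q2) (C3 := pd0)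
    rfl k0_pp_102

noncomputable def f_pp_112 : ℕ → ℕ → ℕ → ℕ → Bool := onCell 536870912 536870912 1073741824 536870912 587336777 62277027
    (rowB 3 eng mog cd0q1 cd5q2 pd1 0 false true true .dn 1 1 2 (qsf 536870912 536870912 1073741824 536870912 1) ndB0q1 ndB5q2 pcB1 Cut.none Ext.none)

def k0_pp_112 : ∃ t, chk3 f_pp_112 t 1 1 1 = true :=
  ⟨(l 3), by decide +kernel⟩

theorem c_pp_112 : CertB 536870912 536870912 1073741824 536870912 587336777 62277027 3 eng mog cd0q1 cd5q2 pd1 false true true .dn 1 1 2
    ndB0q1 ndB5q2 pcB1 Cut.none Ext.none :=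
  certB0 (fam := false) (s1 := true) (s2 := true) (a := 1) (b := 1) (c := 2) (cn := .dn) (n1 := ndB0q1) (n2 := ndB5q2) (pc := pcB1) (cut := Cut.none) (xt := Ext.none) (P1 := 536870912) (W1 := 536870912) (P2 := 1073741824) (W2 := 536870912) (P3 := 587336777) (W3 := 62277027) (N0 := 3) (En := eng) (mo := mog) (C1 := cd0q1) (C2 := cd5q2) (C3 := pd1)
    rfl k0_pp_112

noncomputable def cut_pp_113 : Cut := Cut.of [[⟨0, 1, 0, 67108864⟩, ⟨1, 1, 0, 67108864⟩, ⟨2, 2, 0, 16777216⟩]]

noncomputable def f_pp_113 : ℕ → ℕ → ℕ → ℕ → Bool := onCell 536870912 536870912 0 1230186008 587336777 62277027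
    (rowB 3 eng mog cd0q1 cd5q3 pd1 2 false true true .nn 1 1 3 (qsf 536870912 536870912 0 1230186008 1) ndB0q1 ndB5q3 pcB1 cut_pp_113 Ext.none)

def k0_pp_113 : ∃ t, chk3 f_pp_113 t 1 1 1 = true :=
  ⟨(b (a (l 2) (a (l 2) (a (l 3) (a (l 3) (b (b (l 6) (l 3)) (l 3)))))) (b (a (l 3) (a (l 3) (l 3))) (a (b (l 3) (l 3)) (l 3)))), by decide +kernel⟩

theorem c_pp_113 : CertB 536870912 536870912 0 1230186008 587336777 62277027 3 eng mog cd0q1 cd5q3 pd1 false true true .nn 1 1 3
    ndB0q1 ndB5q3 pcB1 cut_pp_113 Ext.none :=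
  certB2 (fam := false) (s1 := true) (s2 := true) (a := 1) (b := 1) (c := 3) (cn := .nn) (n1 := ndB0q1) (n2 := ndB5q3) (pc := pcB1) (cut := cut_pp_113) (xt := Ext.none) (P1 := 536870912) (W1 := 536870912) (P2 := 0) (W2 := 1230186008) (P3 := 587336777) (W3 := 62277027) (N0 := 3) (En := eng) (mo := mog) (C1 := cd0q1) (C2 := cd5q3) (C3 := pd1)
    rfl (fun _ => rfl) k0_pp_113

noncomputable def cut_pp_123 : Cut := Cut.of [[⟨0, 1, 0, 67108864⟩, ⟨1, 1, 0, 67108864⟩, ⟨2, 2, 0, 16777216⟩]]

noncomputable def f_pp_123 : ℕ → ℕ → ℕ → ℕ → Bool := onCell 1073741824 536870912 0 1230186008 587336777 62277027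
    (rowB 3 eng mog cd0q1 cd5q3 pd2 2 false true true .npn 1 2 3 (qsf 536870912 536870912 0 1230186008 2) ndB0q1 ndB5q3 pcB2 cut_pp_123 Ext.none)

def k0_pp_123 : ∃ t, chk3 f_pp_123 t 8 4 1 = true :=
  ⟨(a (b (l 6) (b (l 6) (a (l 3) (a (a (l 3) (b (a (b (a (l 238001618071) (a (l 204178754343) (l 16793736))) (l 265382035287)) (b (a (l 16790000) (l 16790208)) (c (l 198273177335) (a (l 205789372679) (l 16797440))))) (a (l 3) (b (l 249275911447) (l 3))))) (a (b (b (l 16788920) (a (c (l 16791872) (l 16796672)) (l 16791064))) (a (a (b (l 206863114151) (l 283635654087)) (b (l 16794040) (l 212231827719))) (b (l 16794048) (l 214379307223)))) (b (l 16788680) (a (l 16794304) (l 16761672)))))))) (b (a (l 6) (l 16762424)) (a (b (l 6) (a (l 16788328) (l 16784160))) (l 16773208)))), by decide +kernel⟩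

def k1_pp_123 : ∃ t, chk3 f_pp_123 t 16 5 1 = true :=
  ⟨(b (a (l 3) (a (l 3) (b (a (b (a (l 3) (b (b (l 231559180519) (l 278803829223)) (l 280414438039))) (l 3)) (b (a (a (b (l 16798112) (l 16806232)) (b (l 16797728) (l 16810976))) (a (b (l 16797728) (l 16799920)) (b (l 16797376) (l 16799800)))) (b (a (l 278266957911) (a (l 241759748999) (l 16802216))) (l 276656371127)))) (l 3)))) (l 3)), by decide +kernel⟩

def k2_pp_123 : ∃ t, chk3 f_pp_123 t 17 10 1 = true :=
  ⟨(a (b (a (b (b (l 16794592) (l 16802848)) (a (a (b (l 16822328) (a (l 16815040) (l 16803944))) (b (l 16801144) (a (l 16803792) (l 16803520)))) (a (l 16769792) (l 16800760)))) (b (l 16792024) (l 16797224))) (a (a (b (a (a (l 286320032055) (b (l 255181535495) (l 282025084647))) (a (b (l 16806168) (l 266455826775)) (b (l 16805584) (l 16829296)))) (b (l 287930651367) (l 3))) (b (b (l 16825992) (a (l 16807352) (l 16806800))) (a (a (l 276119519079) (b (l 16809512) (l 289004411943))) (b (l 16808560) (c (l 16812168) (l 282025100871)))))) (b (b (l 16801320)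 (l 16824096)) (a (b (l 16828272) (a (l 16809488) (l 16808768))) (l 16826032))))) (b (l 16807304) (a (l 16819376) (l 16791768)))), by decide +kernel⟩

def k3_pp_123 : ∃ t, chk3 f_pp_123 t 17 11 1 = true :=
  ⟨(a (a (b (b (a (l 3) (a (l 3) (b (l 278803869351) (l 320679782807)))) (l 3)) (l 3)) (a (b (b (a (b (c (l 16813000) (l 16825752)) (b (l 278267002503) (l 279340736615))) (b (l 16810320) (c (l 16813472) (l 16830760)))) (b (a (c (l 311553000199) (l 333027809863)) (a (l 280951349559) (b (l 16812280) (l 16812728)))) (a (l 3) (c (l 316384837479) (a (l 335712163719) (l 331417212839)))))) (l 3)) (a (b (b (b (l 16809160) (l 16810440)) (b (l 16832256) (a (a (l 16812896) (l 16812584)) (a (l 16812280) (l 16811896))))) (b (a (b (b (l 327659099127) (l 3)) (l 3)) (a (b (l 326048487591) (l 3)) (b (l 16812472) (l 330343454935)))) (l 3))) (b (b (l 16829152) (b (l 16810192) (l 16810712))) (a (b (b (b (l 16811872) (l 16812032)) (b (l 16812208) (l 329269707127))) (l 3)) (b (b (b (l 16811064) (l 16811328)) (b (l 16811440) (l 16811496)))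 (b (a (l 329269710775) (l 326048484151)) (l 3)))))))) (b (a (b (a (l 16805304) (l 16802248)) (a (a (b (l 16808776) (l 16809568)) (l 16807536)) (l 16805168))) (l 16818720)) (a (b (a (a (b (l 16809784) (a (a (l 16810952) (l 16810520)) (l 16830616))) (l 16808688)) (b (l 16805912) (l 16806248))) (a (a (a (b (b (l 16810680) (l 286856900135)) (b (l 336249030023) (l 3))) (b (b (l 16809912) (l 16809760)) (b (l 280951316375) (l 338396511319)))) (a (b (b (l 16809016) (l 16808952)) (b (l 16808728) (l 16808480))) (b (l 16807872) (b (l 16807872) (l 16807616))))) (a (a (b (l 16807304) (l 16806816)) (l 16806264)) (l 16805064)))) (b (l 16800368) (a (b (l 16802328) (l 16802040)) (l 16798624)))))), by decide +kernel⟩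

def k4_pp_123 : ∃ t, chk3 f_pp_123 t 9 2 1 = true :=
  ⟨(b (a (b (l 16752192) (l 16759144)) (b (l 16736008) (l 16740104))) (a (b (a (l 16778136) (l 16785520)) (a (b (l 16827936) (a (l 16792232) (l 16783696))) (b (l 16770208) (l 16771304)))) (b (l 16850432) (a (l 16840032) (l 16742400))))), by decide +kernel⟩

def k5_pp_123 : ∃ t, chk3 f_pp_123 t 5 2 1 = true :=
  ⟨(b (a (a (a (l 16743568) (b (l 16714608) (l 16908408))) (l 16786192)) (b (l 16688848) (l 16696000))) (a (a (b (a (l 16728808) (a (l 16721688) (l 16719488))) (a (l 16730800) (a (l 16723408) (l 16805584)))) (b (l 16709176) (l 16712240))) (b (l 16699664) (a (l 16703848) (l 16699752))))), by decide +kernel⟩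

def k6_pp_123 : ∃ t, chk3 f_pp_123 t 3 2 1 = true :=
  ⟨(a (b (a (b (l 16685080) (l 16690520)) (l 16901816)) (a (b (l 16693864) (l 16695024)) (b (l 16696032) (l 16693128)))) (b (l 16705936) (a (l 16766712) (l 16879496)))), by decide +kernel⟩

def k7_pp_123 : ∃ t, chk3 f_pp_123 t 8 6 1 = true :=
  ⟨(a (l 3) (b (a (l 3) (b (a (a (b (a (l 3) (a (b (b (l 285246288535) (l 354502635879)) (l 3)) (b (b (l 16807280) (c (l 16811880) (l 282561918983))) (a (l 3) (b (l 291688722775) (l 3)))))) (l 3)) (b (a (a (b (b (l 16806408) (l 16805984)) (b (l 158544736967) (l 287930625831))) (b (l 16805272) (l 143512352231))) (a (b (l 16804320) (l 16803680)) (b (l 16803472) (l 16802648)))) (a (a (l 3) (b (l 285246272471) (l 3))) (a (b (l 16803040) (l 294909942599)) (b (l 16802056) (l 16801296)))))) (a (b (b (l 16801368) (l 16800432)) (a (a (b (l 16801048) (l 16800208)) (b (l 16800032) (l 16799216))) (b (l 16798712) (l 16797520)))) (b (b (l 16797640) (l 16797048)) (b (l 16796424) (l 16795344))))) (b (a (l 3) (a (a (b (c (l 16805576)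 (l 298131170983)) (l 291688721479)) (b (a (l 16797128) (l 16796080)) (l 161229083991))) (a (b (l 16794640) (l 16793456)) (l 16792360)))) (a (l 3) (b (a (l 294909940199) (a (l 16792072) (l 16790152))) (a (l 3) (c (l 16797720) (l 335175266055)))))))) (b (a (l 3) (a (l 3) (a (l 3) (b (l 321216633239) (l 3))))) (l 3)))), by decide +kernel⟩

def k8_pp_123 : ∃ t, chk3 f_pp_123 t 9 6 1 = true :=
  ⟨(a (b (a (b (a (b (l 16791472) (a (l 16792336) (l 16788480))) (l 16782496)) (a (b (a (b (l 16791008) (l 16789576)) (l 16786616)) (a (b (l 16787952) (l 16785952)) (l 16784040))) (b (l 16780472) (l 16777800)))) (b (l 16769808) (a (l 16771432) (l 16763728)))) (b (a (a (b (a (b (l 16784504) (l 16783360)) (l 16780576)) (a (l 321216633399) (c (l 16787312) (l 16770736)))) (b (l 16776104) (a (l 16776440) (l 16773896)))) (a (b (l 16769672) (l 16768416)) (l 16762752))) (a (a (b (a (l 313163564407) (l 255181515575)) (b (l 311016082343) (l 3))) (a (b (l 16774392) (a (l 158007866119) (l 16806152))) (b (l 16772120) (l 16787912)))) (b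 (a (a (l 16769424) (l 16766312)) (l 16761136)) (a (a (l 16764480) (l 16761440)) (l 16755624)))))) (b (b (a (l 16754528) (l 16741336)) (a (l 16753752) (l 16741952))) (a (b (l 16752856) (b (l 16750928) (l 16744736))) (b (l 16742192) (l 16734000))))), by decide +kernel⟩

def k9_pp_123 : ∃ t, chk3 f_pp_123 t 5 6 1 = true :=
  ⟨(a (a (a (b (b (l 16731112) (l 16732056)) (b (l 16732272) (l 16742456))) (a (b (l 16725472) (b (l 16725344) (l 16713368))) (b (b (l 16723592) (l 16726184)) (b (l 16724248) (a (l 16709960) (l 16709728)))))) (b (b (l 16714032) (l 16715784)) (b (l 16711592) (l 16696192)))) (b (b (l 16701400) (l 16698288)) (b (l 16688616) (a (l 16675904) (l 16660544))))), by decide +kernel⟩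

def k10_pp_123 : ∃ t, chk3 f_pp_123 t 3 6 1 = true :=
  ⟨(a (b (a (b (l 16690104) (l 16681744)) (b (l 16685576) (l 16676680))) (a (b (l 16668800) (l 16625872)) (b (l 16663640) (l 1)))) (b (b (l 16925832) (l 1)) (l 1))), by decide +kernel⟩

def k11_pp_123 : ∃ t, chk3 f_pp_123 t 1 7 1 = true :=
  ⟨(a (a (a (l 3) (a (a (b (a (l 3) (b (b (a (l 308868548423) (l 16754208)) (l 287393688903)) (b (l 3) (l 3)))) (l 3)) (b (b (a (b (a (l 16750280) (l 16747168)) (a (l 16729288) (l 16725136))) (b (l 16741136) (l 16719184))) (a (a (l 240685705639) (b (l 16695624) (l 16656896))) (b (b (l 16697720) (l 16680512)) (a (l 16651656) (l 16647168))))) (b (b (b (a (l 299204562647) (l 16613608)) (a (l 293298970231) (l 16595424))) (a (l 3) (b (l 16581728) (l 1)))) (l 1)))) (b (b (a (b (l 16749736) (l 16726560)) (l 16679920)) (b (a (a (l 16679848) (l 16669936)) (l 16655848)) (a (a (l 16639632) (l 16628976)) (l 16593112)))) (b (b (a (a (b (l 16603480) (l 16584648)) (l 16583456)) (a (l 16572632) (l 16562864))) (a (a (l 16588376) (l 1))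 (l 1))) (l 1))))) (b (a (a (a (b (l 16685000) (l 16617880)) (a (b (l 16675376) (l 16607296)) (b (a (l 16672000) (a (l 16671416) (l 16671864))) (a (l 16603992) (a (l 16604032) (l 16605496)))))) (b (l 16657920) (l 16615800))) (b (a (l 16638136) (l 16623680)) (l 1))) (b (a (a (a (b (l 16549744) (l 1)) (l 1)) (l 1)) (l 1)) (l 1)))) (l 1)), by decide +kernel⟩

theorem s12_pp_123 : ∃ t, chk3 f_pp_123 t 4 6 1 = true := ex3_a k7_pp_123 k8_pp_123

theorem s13_pp_123 : ∃ t, chk3 f_pp_123 t 2 6 1 = true := ex3_a s12_pp_123 k9_pp_123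

theorem s14_pp_123 : ∃ t, chk3 f_pp_123 t 1 6 1 = true := ex3_a s13_pp_123 k10_pp_123

theorem s15_pp_123 : ∃ t, chk3 f_pp_123 t 1 3 1 = true := ex3_b s14_pp_123 k11_pp_123

theorem s16_pp_123 : ∃ t, chk3 f_pp_123 t 17 5 1 = true := ex3_b k2_pp_123 k3_pp_123

theorem s17_pp_123 : ∃ t, chk3 f_pp_123 t 8 5 1 = true := ex3_a k1_pp_123 s16_pp_123

theorem s18_pp_123 : ∃ t, chk3 f_pp_123 t 8 2 1 = true := ex3_b k0_pp_123 s17_pp_123

theorem s19_pp_123 : ∃ t, chk3 f_pp_123 t 4 2 1 = true := ex3_a s18_pp_123 k4_pp_123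

theorem s20_pp_123 : ∃ t, chk3 f_pp_123 t 2 2 1 = true := ex3_a s19_pp_123 k5_pp_123

theorem s21_pp_123 : ∃ t, chk3 f_pp_123 t 1 2 1 = true := ex3_a s20_pp_123 k6_pp_123

theorem s22_pp_123 : ∃ t, chk3 f_pp_123 t 1 1 1 = true := ex3_b s21_pp_123 s15_pp_123

theorem c_pp_123 : CertB 536870912 536870912 0 1230186008 587336777 62277027 3 eng mog cd0q1 cd5q3 pd2 false true true .npn 1 2 3
    ndB0q1 ndB5q3 pcB2 cut_pp_123 Ext.none :=
  certB2 (fam := false) (s1 := true) (s2 := true) (a := 1) (b := 2) (c := 3) (cn := .npn) (n1 := ndB0q1) (n2 := ndB5q3) (pc := pcB2) (cut := cut_pp_123) (xt := Ext.none) (P1 := 536870912) (W1 := 536870912) (P2 := 0) (W2 := 1230186008) (P3 := 587336777) (W3 := 62277027) (N0 := 3) (En := eng) (mo := mog) (C1 := cd0q1) (C2 := cd5q3) (C3 := pd2)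
    rfl (fun _ => rfl) s22_pp_123

noncomputable def f_pp_133 : ℕ → ℕ → ℕ → ℕ → Bool := onCell 1610612736 536870912 0 1230186008 587336777 62277027
    (rowB 3 eng mog cd0q1 cd5q3 pd3 2 false true true .dn 1 3 3 (qsf 536870912 536870912 0 1230186008 3) ndB0q1 ndB5q3 pcB3 Cut.none Ext.none)

def k0_pp_133 : ∃ t, chk3 f_pp_133 t 1 1 1 = true :=
  ⟨(b (b (a (a (a (l 16696792) (l 1)) (l 1)) (l 1)) (l 1)) (l 1)), by decide +kernel⟩

theorem c_pp_133 : CertB 536870912 536870912 0 1230186008 587336777 62277027 3 eng mog cd0q1 cd5q3 pd3 false true true .dn 1 3 3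
    ndB0q1 ndB5q3 pcB3 Cut.none Ext.none :=
  certB2 (fam := false) (s1 := true) (s2 := true) (a := 1) (b := 3) (c := 3) (cn := .dn) (n1 := ndB0q1) (n2 := ndB5q3) (pc := pcB3) (cut := Cut.none) (xt := Ext.none) (P1 := 536870912) (W1 := 536870912) (P2 := 0) (W2 := 1230186008) (P3 := 587336777) (W3 := 62277027) (N0 := 3) (En := eng) (mo := mog) (C1 := cd0q1) (C2 := cd5q3) (C3 := pd3)
    rfl (fun _ => rfl) k0_pp_133

noncomputable def f_pp_202 : ℕ → ℕ → ℕ → ℕ → Bool := onCell 0 536870912 1073741824 536870912 587336777 62277027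
    (rowB 3 eng mog cd0q2 cd5q2 pd0 0 false true true .pp 2 0 2 (qsf 0 536870912 1073741824 536870912 0) ndB0q2 ndB5q2 pcB0 Cut.none Ext.none)

def k0_pp_202 : ∃ t, chk3 f_pp_202 t 1 1 1 = true :=
  ⟨(l 3), by decide +kernel⟩

theorem c_pp_202 : CertB 0 536870912 1073741824 536870912 587336777 62277027 3 eng mog cd0q2 cd5q2 pd0 false true true .pp 2 0 2
    ndB0q2 ndB5q2 pcB0 Cut.none Ext.none :=
  certB0 (fam := false) (s1 := true) (s2 := true) (a := 2) (b := 0) (c := 2) (cn := .pp) (n1 := ndB0q2) (n2 := ndB5q2) (pc := pcB0) (cut := Cut.none) (xt := Ext.none) (P1 := 0) (W1 := 536870912) (P2 := 1073741824) (W2 := 536870912) (P3 := 587336777) (W3 := 62277027) (N0 := 3) (En := eng) (mo := mog) (C1 := cd0q2) (C2 := cd5q2) (C3 := pd0)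
    rfl k0_pp_202

noncomputable def f_pp_203 : ℕ → ℕ → ℕ → ℕ → Bool := onCell 0 536870912 0 1230186008 587336777 62277027
    (rowB 3 eng mog cd0q2 cd5q3 pd0 0 false true true .up 2 0 3 (qsf 0 536870912 0 1230186008 0) ndB0q2 ndB5q3 pcB0 Cut.none Ext.none)

def k0_pp_203 : ∃ t, chk3 f_pp_203 t 1 1 1 = true :=
  ⟨(b (l 2) (l 3)), by decide +kernel⟩

theorem c_pp_203 : CertB 0 536870912 0 1230186008 587336777 62277027 3 eng mog cd0q2 cd5q3 pd0 false true true .up 2 0 3
    ndB0q2 ndB5q3 pcB0 Cut.none Ext.none :=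
  certB0 (fam := false) (s1 := true) (s2 := true) (a := 2) (b := 0) (c := 3) (cn := .up) (n1 := ndB0q2) (n2 := ndB5q3) (pc := pcB0) (cut := Cut.none) (xt := Ext.none) (P1 := 0) (W1 := 536870912) (P2 := 0) (W2 := 1230186008) (P3 := 587336777) (W3 := 62277027) (N0 := 3) (En := eng) (mo := mog) (C1 := cd0q2) (C2 := cd5q3) (C3 := pd0)
    rfl k0_pp_203

noncomputable def cut_pp_213 : Cut := Cut.of [[⟨0, 1, 0, 67108864⟩, ⟨1, 1, 0, 67108864⟩, ⟨2, 2, 0, 16777216⟩]]

noncomputable def f_pp_213 : ℕ → ℕ → ℕ → ℕ → Bool := onCell 0 536870912 0 1230186008 587336777 62277027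
    (rowB 3 eng mog cd0q2 cd5q3 pd1 0 false true true .pnn 2 1 3 (qsf 0 536870912 0 1230186008 1) ndB0q2 ndB5q3 pcB1 cut_pp_213 Ext.none)

def k0_pp_213 : ∃ t, chk3 f_pp_213 t 1 1 1 = true :=
  ⟨(b (a (l 3) (a (l 3) (b (a (l 3) (b (l 6) (l 3))) (l 3)))) (l 3)), by decide +kernel⟩

theorem c_pp_213 : CertB 0 536870912 0 1230186008 587336777 62277027 3 eng mog cd0q2 cd5q3 pd1 false true true .pnn 2 1 3
    ndB0q2 ndB5q3 pcB1 cut_pp_213 Ext.none :=
  certB0 (fam := false) (s1 := true) (s2 := true) (a := 2) (b := 1) (c := 3) (cn := .pnn) (n1 := ndB0q2) (n2 := ndB5q3) (pc := pcB1) (cut := cut_pp_213) (xt := Ext.none) (P1 := 0) (W1 := 536870912) (P2 := 0) (W2 := 1230186008) (P3 := 587336777) (W3 := 62277027) (N0 := 3) (En := eng) (mo := mog) (C1 := cd0q2) (C2 := cd5q3) (C3 := pd1)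
    rfl k0_pp_213

noncomputable def f_pm_001 : ℕ → ℕ → ℕ → ℕ → Bool := onCell 0 536870912 536870912 536870912 587336777 62277027
    (rowB 3 eng mog cd0q0 cd5q1 pd0 0 false true false .up 0 0 1 (qsf 0 536870912 536870912 536870912 0) ndB0q0 ndB5q1 pcB0 Cut.none Ext.none)

def k0_pm_001 : ∃ t, chk3 f_pm_001 t 1 1 1 = true :=
  ⟨(l 4), by decide +kernel⟩

theorem c_pm_001 : CertB 0 536870912 536870912 536870912 587336777 62277027 3 eng mog cd0q0 cd5q1 pd0 false true false .up 0 0 1
    ndB0q0 ndB5q1 pcB0 Cut.none Ext.none :=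
  certB0 (fam := false) (s1 := true) (s2 := false) (a := 0) (b := 0) (c := 1) (cn := .up) (n1 := ndB0q0) (n2 := ndB5q1) (pc := pcB0) (cut := Cut.none) (xt := Ext.none) (P1 := 0) (W1 := 536870912) (P2 := 536870912) (W2 := 536870912) (P3 := 587336777) (W3 := 62277027) (N0 := 3) (En := eng) (mo := mog) (C1 := cd0q0) (C2 := cd5q1) (C3 := pd0)
    rfl k0_pm_001

noncomputable def f_pm_011 : ℕ → ℕ → ℕ → ℕ → Bool := onCell 0 536870912 536870912 536870912 587336777 62277027
    (rowB 3 eng mog cd0q0 cd5q1 pd1 0 false true false .pnn 0 1 1 (qsf 0 536870912 536870912 536870912 1) ndB0q0 ndB5q1 pcB1 Cut.none Ext.none)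

def k0_pm_011 : ∃ t, chk3 f_pm_011 t 1 1 1 = true :=
  ⟨(l 4), by decide +kernel⟩

theorem c_pm_011 : CertB 0 536870912 536870912 536870912 587336777 62277027 3 eng mog cd0q0 cd5q1 pd1 false true false .pnn 0 1 1
    ndB0q0 ndB5q1 pcB1 Cut.none Ext.none :=
  certB0 (fam := false) (s1 := true) (s2 := false) (a := 0) (b := 1) (c := 1) (cn := .pnn) (n1 := ndB0q0) (n2 := ndB5q1) (pc := pcB1) (cut := Cut.none) (xt := Ext.none) (P1 := 0) (W1 := 536870912) (P2 := 536870912) (W2 := 536870912) (P3 := 587336777) (W3 := 62277027) (N0 := 3) (En := eng) (mo := mog) (C1 := cd0q0) (C2 := cd5q1) (C3 := pd1)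
    rfl k0_pm_011

noncomputable def f_pm_012 : ℕ → ℕ → ℕ → ℕ → Bool := onCell 0 536870912 1073741824 536870912 587336777 62277027
    (rowB 3 eng mog cd0q0 cd5q2 pd1 0 false true false .pnp 0 1 2 (qsf 0 536870912 1073741824 536870912 1) ndB0q0 ndB5q2 pcB1 Cut.none Ext.none)

def k0_pm_012 : ∃ t, chk3 f_pm_012 t 1 1 1 = true :=
  ⟨(a (l 4) (b (l 4) (l 4))), by decide +kernel⟩

theorem c_pm_012 : CertB 0 536870912 1073741824 536870912 587336777 62277027 3 eng mog cd0q0 cd5q2 pd1 false true false .pnp 0 1 2
    ndB0q0 ndB5q2 pcB1 Cut.none Ext.none :=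
  certB0 (fam := false) (s1 := true) (s2 := false) (a := 0) (b := 1) (c := 2) (cn := .pnp) (n1 := ndB0q0) (n2 := ndB5q2) (pc := pcB1) (cut := Cut.none) (xt := Ext.none) (P1 := 0) (W1 := 536870912) (P2 := 1073741824) (W2 := 536870912) (P3 := 587336777) (W3 := 62277027) (N0 := 3) (En := eng) (mo := mog) (C1 := cd0q0) (C2 := cd5q2) (C3 := pd1)
    rfl k0_pm_012

noncomputable def f_pm_022 : ℕ → ℕ → ℕ → ℕ → Bool := onCell 1073741824 536870912 1073741824 536870912 587336777 62277027
    (rowB 3 eng mog cd0q0 cd5q2 pd2 2 false true false .pp 0 2 2 (qsf 0 536870912 1073741824 536870912 2) ndB0q0 ndB5q2 pcB2 Cut.none Ext.none)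

def k0_pm_022 : ∃ t, chk3 f_pm_022 t 1 1 1 = true :=
  ⟨(a (l 4) (l 4)), by decide +kernel⟩

theorem c_pm_022 : CertB 0 536870912 1073741824 536870912 587336777 62277027 3 eng mog cd0q0 cd5q2 pd2 false true false .pp 0 2 2
    ndB0q0 ndB5q2 pcB2 Cut.none Ext.none :=
  certB2 (fam := false) (s1 := true) (s2 := false) (a := 0) (b := 2) (c := 2) (cn := .pp) (n1 := ndB0q0) (n2 := ndB5q2) (pc := pcB2) (cut := Cut.none) (xt := Ext.none) (P1 := 0) (W1 := 536870912) (P2 := 1073741824) (W2 := 536870912) (P3 := 587336777) (W3 := 62277027) (N0 := 3) (En := eng) (mo := mog) (C1 := cd0q0) (C2 := cd5q2) (C3 := pd2)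
    rfl (fun _ => rfl) k0_pm_022

noncomputable def f_pm_023 : ℕ → ℕ → ℕ → ℕ → Bool := onCell 0 536870912 0 1230186008 587336777 62277027
    (rowB 3 eng mog cd0q0 cd5q3 pd2 0 false true false .up 0 2 3 (qsf 0 536870912 0 1230186008 2) ndB0q0 ndB5q3 pcB2 Cut.none Ext.none)

def k0_pm_023 : ∃ t, chk3 f_pm_023 t 1 1 1 = true :=
  ⟨(a (b (l 2) (l 4)) (a (b (l 2) (b (l 4) (l 4))) (b (b (a (l 2) (l 16690080)) (a (b (a (l 2) (l 16655792)) (a (l 4) (l 16626608))) (b (l 16661808) (l 16733216)))) (b (b (b (a (l 4) (l 16590264)) (a (l 4) (l 16554176))) (a (l 4) (b (a (l 16507416) (l 16506880)) (a (l 4) (l 16447184))))) (a (l 4) (a (l 4) (b (b (l 16377264) (l 16294120)) (l 4)))))))), by decide +kernel⟩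

theorem c_pm_023 : CertB 0 536870912 0 1230186008 587336777 62277027 3 eng mog cd0q0 cd5q3 pd2 false true false .up 0 2 3
    ndB0q0 ndB5q3 pcB2 Cut.none Ext.none :=
  certB0 (fam := false) (s1 := true) (s2 := false) (a := 0) (b := 2) (c := 3) (cn := .up) (n1 := ndB0q0) (n2 := ndB5q3) (pc := pcB2) (cut := Cut.none) (xt := Ext.none) (P1 := 0) (W1 := 536870912) (P2 := 0) (W2 := 1230186008) (P3 := 587336777) (W3 := 62277027) (N0 := 3) (En := eng) (mo := mog) (C1 := cd0q0) (C2 := cd5q3) (C3 := pd2)
    rfl k0_pm_023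

noncomputable def f_pm_033 : ℕ → ℕ → ℕ → ℕ → Bool := onCell 1610612736 536870912 0 1230186008 587336777 62277027
    (rowB 3 eng mog cd0q0 cd5q3 pd3 2 false true false .pnn 0 3 3 (qsf 0 536870912 0 1230186008 3) ndB0q0 ndB5q3 pcB3 Cut.none Ext.none)

def k0_pm_033 : ∃ t, chk3 f_pm_033 t 1 1 1 = true :=
  ⟨(b (a (b (a (a (l 16687272) (l 16776656)) (a (l 16654544) (l 4))) (a (a (l 16651112) (b (l 16643728) (l 4))) (l 4))) (l 4)) (b (l 4) (l 4))), by decide +kernel⟩

theorem c_pm_033 : CertB 0 536870912 0 1230186008 587336777 62277027 3 eng mog cd0q0 cd5q3 pd3 false true false .pnn 0 3 3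
    ndB0q0 ndB5q3 pcB3 Cut.none Ext.none :=
  certB2 (fam := false) (s1 := true) (s2 := false) (a := 0) (b := 3) (c := 3) (cn := .pnn) (n1 := ndB0q0) (n2 := ndB5q3) (pc := pcB3) (cut := Cut.none) (xt := Ext.none) (P1 := 0) (W1 := 536870912) (P2 := 0) (W2 := 1230186008) (P3 := 587336777) (W3 := 62277027) (N0 := 3) (En := eng) (mo := mog) (C1 := cd0q0) (C2 := cd5q3) (C3 := pd3)
    rfl (fun _ => rfl) k0_pm_033

noncomputable def f_pm_101 : ℕ → ℕ → ℕ → ℕ → Bool := onCell 536870912 536870912 536870912 536870912 587336777 62277027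
    (rowB 3 eng mog cd0q1 cd5q1 pd0 0 false true false .npn 1 0 1 (qsf 536870912 536870912 536870912 536870912 0) ndB0q1 ndB5q1 pcB0 Cut.none Ext.none)

def k0_pm_101 : ∃ t, chk3 f_pm_101 t 1 1 1 = true :=
  ⟨(l 4), by decide +kernel⟩

theorem c_pm_101 : CertB 536870912 536870912 536870912 536870912 587336777 62277027 3 eng mog cd0q1 cd5q1 pd0 false true false .npn 1 0 1
    ndB0q1 ndB5q1 pcB0 Cut.none Ext.none :=
  certB0 (fam := false) (s1 := true) (s2 := false) (a := 1) (b := 0) (c := 1) (cn := .npn) (n1 := ndB0q1) (n2 := ndB5q1) (pc := pcB0) (cut := Cut.none) (xt := Ext.none) (P1 := 536870912) (W1 := 536870912) (P2 := 536870912) (W2 := 536870912) (P3 := 587336777) (W3 := 62277027) (N0 := 3) (En := eng) (mo := mog) (C1 := cd0q1) (C2 := cd5q1) (C3 := pd0)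
    rfl k0_pm_101

noncomputable def f_pm_102 : ℕ → ℕ → ℕ → ℕ → Bool := onCell 536870912 536870912 0 536870912 587336777 62277027
    (rowB 3 eng mog cd0q1 cd5q2 pd0 1 false true false .npp 1 0 2 (qsf 536870912 536870912 1073741824 536870912 0) ndB0q1 ndB5q2 pcB0 Cut.none Ext.none)

def k0_pm_102 : ∃ t, chk3 f_pm_102 t 2 1 1 = true :=
  ⟨(b (a (l 1) (b (l 1) (b (l 1) (a (l 1) (a (l 1) (b (l 1) (l 265247579655))))))) (b (b (a (l 1) (a (a (l 1) (l 281353291639)) (a (b (l 287258778615) (l 16333120)) (b (l 16389016) (l 16362352))))) (a (a (l 1) (b (l 1) (l 255045944007))) (a (a (l 232497917719) (a (l 16239408) (l 16306080))) (b (a (l 16304688) (l 16343816)) (a (l 16287720) (l 16334216)))))) (a (b (a (b (l 1) (a (l 1) (l 237866121623))) (b (b (l 194379507591) (l 186863309047)) (l 138544870823))) (a (a (l 4) (b (l 16041776) (l 15942272))) (b (l 16004464) (l 15930328)))) (b (a (b (a (l 16163656) (l 16225600)) (a (l 16107888) (l 16177080))) (b (a (l 16278080) (l 16327024)) (l 16297856))) (a (b (a (l 16058784) (l 16137296))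 (a (l 16026552) (l 16116392))) (b (a (l 16219376) (l 16304328)) (a (l 16216904) (l 16319024)))))))), by decide +kernel⟩

def k1_pm_102 : ∃ t, chk3 f_pm_102 t 3 2 1 = true :=
  ⟨(a (b (a (l 1) (b (l 1) (a (l 1) (b (l 1) (l 237867443015))))) (a (b (b (l 1) (a (l 1) (l 289406867015))) (a (l 238940958311) (l 148746652071))) (b (b (a (l 278669573287) (l 220687490535)) (a (l 16495784) (l 16493320))) (b (l 16472792) (l 16463504))))) (b (a (b (a (l 1) (b (l 1) (a (l 1) (b (l 1) (l 16599160))))) (b (a (b (l 1) (l 249141617911)) (b (l 16665520) (l 16561544))) (a (l 212097606279) (l 16542208)))) (b (a (b (a (l 1) (b (l 1) (a (l 1) (b (l 1) (l 16611104))))) (a (b (b (l 1) (l 16604760)) (l 16587856)) (b (b (l 16603056) (l 16592584)) (l 16581544)))) (b (a (b (l 307123812599) (l 16605840)) (l 199212784743)) (a (b (l 16592976) (l 16597144)) (l 16614232)))) (a (b (a (l 16565336) (l 16578232)) (l 16578840)) (b (a (l 16612368) (l 16615400)) (a (l 16621408) (l 16616408)))))) (b (a (a (b (l 16516904) (l 16506592)) (b (l 16537320)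 (l 16549768))) (a (b (a (l 16583160) (l 16618408)) (l 16622328)) (b (l 16627168) (l 16637712)))) (a (a (b (l 16509048) (l 16521408)) (b (l 16569816) (l 16595816))) (a (b (l 16641960) (l 16663832)) (b (l 16650320) (l 16660392))))))), by decide +kernel⟩

def k2_pm_102 : ∃ t, chk3 f_pm_102 t 3 3 1 = true :=
  ⟨(b (b (a (a (a (l 16397344) (l 16418544)) (b (l 16462472) (l 16470368))) (a (a (b (l 16538488) (l 16571840)) (l 16656840)) (a (l 16692936) (b (l 16667688) (l 16672120))))) (a (a (b (l 16394648) (l 16584624)) (b (l 16571552) (a (l 16478248) (l 16562736)))) (a (b (l 16675432) (l 16709120)) (a (b (l 16714512) (l 16725400)) (b (l 16679288) (l 16680936)))))) (a (b (b (a (a (l 16374248) (l 16432944)) (l 16556416)) (a (l 16416656) (l 16600104))) (a (b (l 16439664) (l 16467904)) (b (l 16648416) (l 16705792)))) (b (a (b (l 16737760) (l 16762392)) (b (a (l 16732712) (l 16677568)) (l 16704032))) (a (b (l 16780536) (a (l 16794416) (l 16771112))) (l 16689984))))), by decide +kernel⟩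

theorem s3_pm_102 : ∃ t, chk3 f_pm_102 t 3 1 1 = true := ex3_b k1_pm_102 k2_pm_102

theorem s4_pm_102 : ∃ t, chk3 f_pm_102 t 1 1 1 = true := ex3_a k0_pm_102 s3_pm_102

theorem c_pm_102 : CertB 536870912 536870912 1073741824 536870912 587336777 62277027 3 eng mog cd0q1 cd5q2 pd0 false true false .npp 1 0 2
    ndB0q1 ndB5q2 pcB0 Cut.none Ext.none :=
  certB1 (fam := false) (s1 := true) (s2 := false) (a := 1) (b := 0) (c := 2) (cn := .npp) (n1 := ndB0q1) (n2 := ndB5q2) (pc := pcB0) (cut := Cut.none) (xt := Ext.none) (P1 := 536870912) (W1 := 536870912) (P2 := 1073741824) (W2 := 536870912) (P3 := 587336777) (W3 := 62277027) (N0 := 3) (En := eng) (mo := mog) (C1 := cd0q1) (C2 := cd5q2) (C3 := pd0)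
    rfl (fun _ => rfl) s4_pm_102

noncomputable def f_pm_112 : ℕ → ℕ → ℕ → ℕ → Bool := onCell 536870912 536870912 1073741824 536870912 587336777 62277027
    (rowB 3 eng mog cd0q1 cd5q2 pd1 0 false true false .dn 1 1 2 (qsf 536870912 536870912 1073741824 536870912 1) ndB0q1 ndB5q2 pcB1 Cut.none Ext.none)

def k0_pm_112 : ∃ t, chk3 f_pm_112 t 1 1 1 = true :=
  ⟨(a (b (a (a (a (b (l 4) (l 4)) (b (a (b (l 16037968) (l 15970232)) (b (l 15952640) (l 15955552))) (b (b (l 15957288) (l 15959024)) (b (l 16008736) (l 16048888))))) (b (b (b (l 1) (l 117069805863)) (a (l 15996064) (l 74656898471))) (b (b (l 15972784) (l 16070328)) (a (l 16037648) (l 16048560))))) (b (a (b (l 1) (a (l 16039288) (l 1))) (l 1)) (a (b (a (b (l 16009128) (l 15996744)) (l 16146792)) (a (l 16066000) (l 16135696))) (b (l 146061842903) (l 16265416))))) (a (b (a (a (l 4) (b (l 16086416) (l 16126272))) (b (a (l 16112720) (l 16142984)) (a (a (l 16155832) (l 16178488)) (l 16211416)))) (a (b (b (l 16227496) (l 30298894039)) (a (l 16267312) (b (l 16217192)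 (l 16243616)))) (b (a (b (l 16218456) (l 16250240)) (l 16298800)) (a (l 16303408) (l 16377464))))) (b (a (b (a (l 16177920) (l 16217240)) (a (l 16264568) (l 16317656))) (b (l 16333368) (a (l 16380744) (l 16454856)))) (a (b (l 16395496) (l 16495152)) (b (l 16531744) (l 16625832)))))) (b (a (b (l 1) (a (b (l 1) (l 16388664)) (l 1))) (l 1)) (a (b (a (b (l 16465408) (l 16555360)) (l 130493119751)) (a (b (l 16663456) (l 16750200)) (b (l 16809728) (l 16902808)))) (b (a (b (l 1) (l 324840441447)) (l 1)) (a (b (l 16867904) (l 16952896)) (b (l 16834248) (l 16855128))))))), by decide +kernel⟩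

theorem c_pm_112 : CertB 536870912 536870912 1073741824 536870912 587336777 62277027 3 eng mog cd0q1 cd5q2 pd1 false true false .dn 1 1 2
    ndB0q1 ndB5q2 pcB1 Cut.none Ext.none :=
  certB0 (fam := false) (s1 := true) (s2 := false) (a := 1) (b := 1) (c := 2) (cn := .dn) (n1 := ndB0q1) (n2 := ndB5q2) (pc := pcB1) (cut := Cut.none) (xt := Ext.none) (P1 := 536870912) (W1 := 536870912) (P2 := 1073741824) (W2 := 536870912) (P3 := 587336777) (W3 := 62277027) (N0 := 3) (En := eng) (mo := mog) (C1 := cd0q1) (C2 := cd5q2) (C3 := pd1)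
    rfl k0_pm_112

end Pool.Agent.Strip051.G.I5470_6050.Tab.C.BB05

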