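import Pool.Agent.Strip051.G.I5470_6050.Tab

/-! # Certificates B28 (generated) -/

set_option linter.all false
set_option maxRecDepth 100000

namespace Pool.Agent.Strip051.G.I5470_6050.Tab.C.BB05

open Pool.Agent.Strip051.PB Pool.Agent.Strip051.PB.T
open Pool.Agent.Strip051.G.I5470_6050.Tab

noncomputable def cut_pm_113 : Cut := Cut.of [[⟨0, 1, 0, 67108864⟩, ⟨1, 1, 0, 67108864⟩, ⟨2, 2, 0, 16777216⟩]]

noncomputable def f_pm_113 : ℕ → ℕ → ℕ → ℕ → Bool := onCell 536870912 536870912 0 1230186008 587336777 62277027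
    (rowB 3 eng mog cd0q1 cd5q3 pd1 0 false true false .nn 1 1 3 (qsf 536870912 536870912 0 1230186008 1) ndB0q1 ndB5q3 pcB1 cut_pm_113 Ext.none)

def k0_pm_113 : ∃ t, chk3 f_pm_113 t 1 2 1 = true :=
  ⟨(a (l 2) (a (l 2) (a (b (l 2) (b (a (l 2) (l 16845480)) (l 16805152))) (b (a (l 2) (b (l 6) (a (l 16717800) (b (l 6) (l 16793152))))) (b (a (l 16796824) (a (l 16807872) (b (l 16807896) (l 16827112)))) (a (l 16834376) (l 16859336))))))), by decide +kernel⟩

def k1_pm_113 : ∃ t, chk3 f_pm_113 t 1 6 1 = true :=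
  ⟨(a (a (l 2) (b (l 2) (a (l 2) (b (l 2) (a (l 2) (l 16625544)))))) (a (b (a (l 2) (l 125192075975)) (a (b (l 16694872) (a (l 16671728) (l 16718984))) (b (l 16781368) (l 16790680)))) (a (b (a (l 16823528) (l 16855448)) (b (l 16871064) (a (l 16865720) (l 16878352)))) (b (a (l 16888552) (a (l 16916384) (l 16916696))) (a (l 17021536) (b (l 16974248) (l 17002464))))))), by decide +kernel⟩

def k2_pm_113 : ∃ t, chk3 f_pm_113 t 1 7 1 = true :=
  ⟨(a (b (a (l 2) (a (b (a (l 2) (b (l 2) (l 114453572631))) (a (b (l 2) (l 16475960)) (a (l 16524880) (l 16555024)))) (b (a (l 16584584) (l 16631464)) (a (a (l 16582056) (l 16606720)) (l 16642376))))) (a (b (a (l 2) (b (a (l 2) (b (l 119821896951) (l 16386928))) (a (l 148812562055) (l 16287152)))) (a (b (a (l 2) (l 171898227943)) (b (a (b (l 184783213239) (l 16097800)) (b (l 16142160) (l 16181344))) (a (b (l 16171648) (l 16239112)) (b (l 16253280) (l 16319856))))) (b (c (l 16320928) (l 91367477255)) (b (b (l 16277296)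 (l 16314376)) (l 16417624))))) (b (a (a (b (b (l 80093676855) (l 16470384)) (b (l 16461368) (l 16451376))) (b (b (l 16544960) (l 16538056)) (l 16525928))) (b (a (b (l 16600376) (l 16594400)) (b (l 16649648) (l 16645168))) (a (l 16583872) (b (l 16639712) (l 16633112))))) (b (a (a (l 16433024) (l 16505248)) (a (l 16565936) (l 16623368))) (a (b (l 16467728) (l 16575672)) (b (a (l 16544264) (l 16625816)) (l 16688136))))))) (b (a (a (b (a (l 16679680) (l 16729672)) (a (l 16692680) (l 16745120))) (b (a (l 16780464) (l 16834176)) (a (l 16801256) (l 16863720)))) (a (b (a (l 16893784) (l 16961920)) (l 16973656)) (b (a (l 17034840) (l 17025392)) (a (l 17111536) (l 17035248))))) (a (b (a (b (a (b (l 16700376) (l 16697016)) (l 16755816)) (a (l 16818096) (l 16754520))) (b (l 16853264) (l 16856464))) (b (a (a (l 16684936) (l 16748792)) (l 16854496)) (a (b (l 16721136) (l 16806256)) (b (l 16861856) (l 16957760))))) (b (a (b (l 17011184) (l 17023600)) (a (b (l 17168240)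 (l 17197904)) (b (l 17044536) (l 17068160)))) (a (b (l 17030152) (l 17075416)) (b (a (l 17135312) (l 17023584)) (a (l 16977480) (l 16879080)))))))), by decide +kernel⟩

theorem s3_pm_113 : ∃ t, chk3 f_pm_113 t 1 3 1 = true := ex3_b k1_pm_113 k2_pm_113

theorem s4_pm_113 : ∃ t, chk3 f_pm_113 t 1 1 1 = true := ex3_b k0_pm_113 s3_pm_113

theorem c_pm_113 : CertB 536870912 536870912 0 1230186008 587336777 62277027 3 eng mog cd0q1 cd5q3 pd1 false true false .nn 1 1 3
    ndB0q1 ndB5q3 pcB1 cut_pm_113 Ext.none :=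
  certB0 (fam := false) (s1 := true) (s2 := false) (a := 1) (b := 1) (c := 3) (cn := .nn) (n1 := ndB0q1) (n2 := ndB5q3) (pc := pcB1) (cut := cut_pm_113) (xt := Ext.none) (P1 := 536870912) (W1 := 536870912) (P2 := 0) (W2 := 1230186008) (P3 := 587336777) (W3 := 62277027) (N0 := 3) (En := eng) (mo := mog) (C1 := cd0q1) (C2 := cd5q3) (C3 := pd1)
    rfl s4_pm_113

noncomputable def cut_pm_123 : Cut := Cut.of [[⟨0, 1, 0, 67108864⟩, ⟨1, 1, 0, 67108864⟩, ⟨2, 2, 0, 16777216⟩]]

noncomputable def f_pm_123 : ℕ → ℕ → ℕ → ℕ → Bool := onCell 1073741824 536870912 0 1230186008 587336777 62277027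
    (rowB 3 eng mog cd0q1 cd5q3 pd2 2 false true false .npn 1 2 3 (qsf 536870912 536870912 0 1230186008 2) ndB0q1 ndB5q3 pcB2 cut_pm_123 Ext.none)

def k0_pm_123 : ∃ t, chk3 f_pm_123 t 1 2 1 = true :=
  ⟨(a (a (a (b (a (b (l 6) (b (l 6) (l 16775080))) (b (l 16760488) (l 16757344))) (b (a (l 16780952) (l 16754032)) (b (l 16785032) (l 16755024)))) (b (b (l 16836760) (a (l 16736160) (l 16712384))) (b (l 16710480) (b (l 16693064) (l 16677376))))) (b (a (a (a (l 16764520) (b (l 16702544) (l 16829632))) (b (l 16687616) (l 16669024))) (b (l 16678920) (l 16663288))) (a (b (l 16783688) (a (l 16641104) (l 16622152))) (b (l 16643776) (a (l 16617904) (l 16616584)))))) (a (b (a (l 16668872) (l 16673088)) (a (b (l 16641552) (l 16720336)) (b (l 16645624) (l 16787616)))) (b (a (l 16683584) (l 16690432)) (a (b (l 16659416) (l 16628072)) (l 95059962023))))), by decide +kernel⟩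

def k1_pm_123 : ∃ t, chk3 f_pm_123 t 1 3 1 = true :=
  ⟨(b (a (a (b (a (b (l 16737240) (l 16729224)) (b (l 16655800) (l 16774784))) (a (a (b (l 16691232) (b (l 16650552) (l 16621040))) (b (l 16645208) (b (l 16606824) (l 16576648)))) (a (b (l 16605952) (l 16557696)) (b (l 16576928) (l 16527368))))) (b (a (b (l 16708304) (a (l 16586888) (l 16571176))) (b (l 16590504) (l 16563872))) (a (b (a (l 16553584) (l 16536112)) (a (l 16502552) (l 16482128))) (b (l 16524064) (l 16462904))))) (a (b (a (a (l 16573800) (l 16570880)) (a (l 16570032) (l 16572392))) (a (b (l 16511552) (l 16573896)) (b (l 80564179367) (l 1)))) (b (a (a (l 16575408) (l 1)) (l 1)) (l 1)))) (a (b (a (a (b (a (b (l 16588168) (l 16553384)) (a (l 16539840) (l 16519664))) (a (b (l 16510264) (a (l 16469064) (l 16443608))) (b (l 16465064) (l 16407576)))) (b (a (c (l 16558680) (l 16423840)) (l 16459640)) (a (l 16394440) (b (l 16386368) (l 16321896))))) (a (b (a (l 16430416) (l 16406280)) (a (l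 16324680) (l 16297616))) (b (a (l 16389808) (l 16375760)) (l 1)))) (a (b (a (a (b (b (a (l 16417736) (l 16390632)) (l 16352720)) (l 16260416)) (b (l 16305584) (l 16213552))) (b (a (l 16277664) (l 16237248)) (a (l 16186616) (l 4)))) (a (b (a (a (l 16155016) (l 16141192)) (l 16277064)) (a (b (b (l 16090992) (l 16110240)) (l 4)) (l 4))) (l 4))) (b (l 4) (l 1)))) (l 1))), by decide +kernel⟩

theorem s2_pm_123 : ∃ t, chk3 f_pm_123 t 1 1 1 = true := ex3_b k0_pm_123 k1_pm_123

theorem c_pm_123 : CertB 536870912 536870912 0 1230186008 587336777 62277027 3 eng mog cd0q1 cd5q3 pd2 false true false .npn 1 2 3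
    ndB0q1 ndB5q3 pcB2 cut_pm_123 Ext.none :=
  certB2 (fam := false) (s1 := true) (s2 := false) (a := 1) (b := 2) (c := 3) (cn := .npn) (n1 := ndB0q1) (n2 := ndB5q3) (pc := pcB2) (cut := cut_pm_123) (xt := Ext.none) (P1 := 536870912) (W1 := 536870912) (P2 := 0) (W2 := 1230186008) (P3 := 587336777) (W3 := 62277027) (N0 := 3) (En := eng) (mo := mog) (C1 := cd0q1) (C2 := cd5q3) (C3 := pd2)
    rfl (fun _ => rfl) s2_pm_123

noncomputable def f_pm_133 : ℕ → ℕ → ℕ → ℕ → Bool := onCell 1610612736 536870912 0 1230186008 587336777 62277027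
    (rowB 3 eng mog cd0q1 cd5q3 pd3 2 false true false .dn 1 3 3 (qsf 536870912 536870912 0 1230186008 3) ndB0q1 ndB5q3 pcB3 Cut.none Ext.none)

def k0_pm_133 : ∃ t, chk3 f_pm_133 t 1 1 1 = true :=
  ⟨(b (b (a (a (a (l 16686592) (l 1)) (l 1)) (l 1)) (l 1)) (l 1)), by decide +kernel⟩

theorem c_pm_133 : CertB 536870912 536870912 0 1230186008 587336777 62277027 3 eng mog cd0q1 cd5q3 pd3 false true false .dn 1 3 3
    ndB0q1 ndB5q3 pcB3 Cut.none Ext.none :=
  certB2 (fam := false) (s1 := true) (s2 := false) (a := 1) (b := 3) (c := 3) (cn := .dn) (n1 := ndB0q1) (n2 := ndB5q3) (pc := pcB3) (cut := Cut.none) (xt := Ext.none) (P1 := 536870912) (W1 := 536870912) (P2 := 0) (W2 := 1230186008) (P3 := 587336777) (W3 := 62277027) (N0 := 3) (En := eng) (mo := mog) (C1 := cd0q1) (C2 := cd5q3) (C3 := pd3)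
    rfl (fun _ => rfl) k0_pm_133

noncomputable def f_pm_202 : ℕ → ℕ → ℕ → ℕ → Bool := onCell 0 536870912 1073741824 536870912 587336777 62277027
    (rowB 3 eng mog cd0q2 cd5q2 pd0 0 false true false .pp 2 0 2 (qsf 0 536870912 1073741824 536870912 0) ndB0q2 ndB5q2 pcB0 Cut.none Ext.none)

def k0_pm_202 : ∃ t, chk3 f_pm_202 t 2 1 1 = true :=
  ⟨(a (l 3) (b (a (b (l 1) (l 3)) (a (b (l 1) (l 3)) (b (b (l 1) (b (l 1) (b (l 1) (a (a (a (l 1) (a (l 1) (l 16514184))) (l 16518288)) (c (l 16530608) (l 16524600)))))) (b (b (a (a (b (b (b (b (l 138679950743) (l 152101719351)) (l 16511176)) (l 16511584)) (l 3)) (b (b (c (b (l 16538776) (a (l 16516432) (l 16518488))) (a (b (l 16528904) (a (l 16507992) (l 16508984))) (b (l 16511600) (l 16511080)))) (b (a (l 16513424) (b (l 16515184) (l 16515232))) (c (l 16516880) (l 16531600)))) (c (l 160691705463) (b (l 16511176) (a (l 16510800) (l 16533576)))))) (b (b (a (c (l 16522592) (l 16537136)) (l 16526672)) (a (b (c (l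 16521104) (a (l 16513832) (l 16517528))) (c (l 16540992) (a (l 16513640) (l 16516584)))) (c (l 16525384) (l 16521680)))) (a (b (b (a (l 16517160) (l 16519736)) (l 16538960)) (a (a (l 16515224) (l 16516440)) (l 16539440))) (b (c (l 16523328) (l 16562808)) (l 16593984))))) (b (a (l 155323029511) (a (b (l 16573440) (l 16593656)) (c (l 16562632) (l 16560904)))) (a (l 3) (c (l 138680050327) (b (l 16559368) (l 160691729031)))))) (a (l 3) (b (b (a (l 279340163335) (l 16513768)) (l 174113443223)) (b (l 216526235591) (l 3)))))))) (b (l 3) (l 3)))), by decide +kernel⟩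

def k1_pm_202 : ∃ t, chk3 f_pm_202 t 3 4 1 = true :=
  ⟨(a (b (l 1) (a (b (l 1) (a (b (l 16553552) (l 16546048)) (b (l 16567584) (l 16561200)))) (b (b (a (l 1) (l 16597672)) (a (l 16584616) (l 16592208))) (a (l 16575960) (l 16584304))))) (b (a (b (l 1) (a (b (l 1) (l 16607520)) (b (b (l 16615968) (l 16613384)) (l 16609048)))) (a (b (b (l 1) (a (b (l 1) (l 16616840)) (l 16655552))) (b (l 16612536) (l 16607960))) (b (a (b (l 16615592) (l 16612656)) (b (l 16613888) (l 16610688))) (a (l 16608240) (l 16607312))))) (b (a (a (l 16599416) (l 16601416)) (a (l 16601648) (l 16602744))) (a (l 16592016) (l 16598792))))), by decide +kernel⟩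

def k2_pm_202 : ∃ t, chk3 f_pm_202 t 3 5 1 = true :=
  ⟨(a (b (a (b (a (a (b (a (l 16613848) (l 16536464)) (b (a (l 16528072) (l 16531200)) (a (l 16524896) (l 16529488)))) (b (l 16543136) (b (l 16599792) (a (l 16533744) (l 16537824))))) (a (b (l 16551296) (b (l 16546848) (l 16543784))) (l 16555944))) (a (a (b (b (l 16567912) (a (l 16563480) (l 16526728))) (c (b (l 16524832) (l 16534952)) (l 16562800))) (a (b (l 16550896) (l 16528912)) (b (l 16535184) (l 16531336)))) (b (a (b (l 16542144) (l 16540376)) (b (l 16549416) (l 16548024))) (a (l 16521208) (l 16546096))))) (b (a (l 16565720) (l 16575584)) (a (b (b (l 16560344) (l 16558240)) (a (l 16553584) (l 16559728))) (b (l 16570664) (l 16568920))))) (a (a (b (a (a (b (l 16514960) (l 16513744)) (a (l 16599904) (b (l 16520400) (l 16515120)))) (b (a (l 16523392) (l 16528104)) (a (l 16518592) (l 16522912)))) (a (b (a (l 16524520) (l 16513824)) (a (l 191293305543) (l 16513992))) (b (l 16515664) (l 16512648))))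 (b (a (b (a (l 16532816) (l 16536456)) (a (l 16527264) (l 16532160))) (c (b (l 16653416) (l 16691280)) (l 16533520))) (b (a (l 16524128) (l 16534496)) (a (l 16521184) (l 16530064))))) (b (a (b (l 16554504) (l 16551400)) (b (l 16567472) (l 16565920))) (a (b (a (l 16542848) (l 16552016)) (a (l 16541024) (l 16548968))) (l 16562600))))) (b (a (b (l 16585968) (l 16583752)) (b (l 16599296) (l 16604224))) (a (b (a (b (l 16578840) (l 16577448)) (l 16589488)) (a (l 16576624) (l 16588672))) (b (l 16610504) (l 16613048))))), by decide +kernel⟩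

def k3_pm_202 : ∃ t, chk3 f_pm_202 t 3 3 1 = true :=
  ⟨(a (b (a (b (a (a (b (b (l 190219582311) (l 192367062199)) (b (l 192903934199) (l 191293331303))) (b (a (l 16572792) (l 16552232)) (b (a (l 16512176) (l 16508536)) (l 141901259591)))) (a (b (l 16518336) (b (l 16511984) (l 16562208))) (b (l 16528048) (l 16524712)))) (a (a (l 3) (b (b (l 173576656503) (a (l 16512872) (l 16506904))) (b (l 16514272) (l 16518584)))) (a (b (a (l 16507912) (l 16513496)) (b (l 16504200) (l 16502496))) (b (a (l 16519656) (l 16525288)) (b (l 16515784) (l 16510608)))))) (b (b (a (a (b (l 16538440) (l 16536376)) (b (l 16547736) (l 16545824))) (a (l 16573104) (l 16562744))) (a (a (l 16535264) (l 16543576)) (a (l 16553312) (l 16560408)))) (b (a (a (l 16533096) (l 16542552)) (b (l 16555944) (l 16553904))) (a (l 16529568) (l 16546744))))) (a (b (a (l 3) (b (b (a (l 16505880) (l 16505256)) (l 143511907639)) (a (l 16513360) (l 16489432)))) (a (l 3) (a (l 3) (b (l 16492392) (l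 16495384))))) (b (a (a (b (l 16509568) (l 16561560)) (l 16517224)) (b (l 16537776) (l 16526304))) (a (b (a (l 16487984) (l 16497024)) (a (l 16473128) (l 16483656))) (l 16506232))))) (b (b (a (a (b (l 16573864) (l 16568608)) (l 16588320)) (a (l 16690800) (l 16712592))) (a (b (a (l 16757560) (l 16589008)) (a (l 16565456) (l 16581768))) (b (l 16621696) (l 16617560)))) (a (b (a (b (l 16554824) (l 16542896)) (l 16569776)) (a (l 16526976) (l 16545400))) (b (a (l 16585560) (l 16618840)) (l 16582544))))), by decide +kernel⟩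

theorem s4_pm_202 : ∃ t, chk3 f_pm_202 t 3 2 1 = true := ex3_b k1_pm_202 k2_pm_202

theorem s5_pm_202 : ∃ t, chk3 f_pm_202 t 3 1 1 = true := ex3_b s4_pm_202 k3_pm_202

theorem s6_pm_202 : ∃ t, chk3 f_pm_202 t 1 1 1 = true := ex3_a k0_pm_202 s5_pm_202

theorem c_pm_202 : CertB 0 536870912 1073741824 536870912 587336777 62277027 3 eng mog cd0q2 cd5q2 pd0 false true false .pp 2 0 2
    ndB0q2 ndB5q2 pcB0 Cut.none Ext.none :=
  certB0 (fam := false) (s1 := true) (s2 := false) (a := 2) (b := 0) (c := 2) (cn := .pp) (n1 := ndB0q2) (n2 := ndB5q2) (pc := pcB0) (cut := Cut.none) (xt := Ext.none) (P1 := 0) (W1 := 536870912) (P2 := 1073741824) (W2 := 536870912) (P3 := 587336777) (W3 := 62277027) (N0 := 3) (En := eng) (mo := mog) (C1 := cd0q2) (C2 := cd5q2) (C3 := pd0)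
    rfl s6_pm_202

noncomputable def f_pm_203 : ℕ → ℕ → ℕ → ℕ → Bool := onCell 0 536870912 0 1230186008 587336777 62277027
    (rowB 3 eng mog cd0q2 cd5q3 pd0 0 false true false .up 2 0 3 (qsf 0 536870912 0 1230186008 0) ndB0q2 ndB5q3 pcB0 Cut.none Ext.none)

def k0_pm_203 : ∃ t, chk3 f_pm_203 t 1 1 1 = true :=
  ⟨(b (l 2) (b (l 2) (a (l 3) (b (l 2) (b (a (a (l 3) (b (l 2) (a (a (l 3) (b (l 16585368) (l 16579712))) (a (l 98884588455) (l 16605464))))) (a (b (l 2) (b (l 2) (l 16640728))) (l 2))) (a (a (b (l 3) (b (l 3) (a (l 3) (a (l 3) (b (l 3) (l 158007629015)))))) (b (a (a (b (l 16570072) (l 16567704)) (b (l 16576840) (l 16575544))) (a (b (l 16588992) (l 16586856)) (l 16598256))) (b (a (a (b (l 16566632) (l 16532992)) (c (l 16561760) (l 16595432))) (a (l 16588840) (l 16578520))) (a (a (b (l 16467888) (c (l 16497384) (l 16597776))) (l 16551608)) (a (l 16457904) (l 16470680)))))) (b (a (a (l 16618232) (l 16649136)) (l 16684248)) (a (b (a (l 16595632)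 (l 16621928)) (a (l 16488264) (l 16511000))) (b (l 16673760) (l 16552896)))))))))), by decide +kernel⟩

theorem c_pm_203 : CertB 0 536870912 0 1230186008 587336777 62277027 3 eng mog cd0q2 cd5q3 pd0 false true false .up 2 0 3
    ndB0q2 ndB5q3 pcB0 Cut.none Ext.none :=
  certB0 (fam := false) (s1 := true) (s2 := false) (a := 2) (b := 0) (c := 3) (cn := .up) (n1 := ndB0q2) (n2 := ndB5q3) (pc := pcB0) (cut := Cut.none) (xt := Ext.none) (P1 := 0) (W1 := 536870912) (P2 := 0) (W2 := 1230186008) (P3 := 587336777) (W3 := 62277027) (N0 := 3) (En := eng) (mo := mog) (C1 := cd0q2) (C2 := cd5q3) (C3 := pd0)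
    rfl k0_pm_203

noncomputable def cut_pm_213 : Cut := Cut.of [[⟨0, 1, 0, 67108864⟩, ⟨1, 1, 0, 67108864⟩, ⟨2, 2, 0, 16777216⟩]]

noncomputable def f_pm_213 : ℕ → ℕ → ℕ → ℕ → Bool := onCell 0 536870912 0 1230186008 587336777 62277027
    (rowB 3 eng mog cd0q2 cd5q3 pd1 0 false true false .pnn 2 1 3 (qsf 0 536870912 0 1230186008 1) ndB0q2 ndB5q3 pcB1 cut_pm_213 Ext.none)

def k0_pm_213 : ∃ t, chk3 f_pm_213 t 2 1 1 = true :=
  ⟨(b (l 3) (b (l 3) (l 3))), by decide +kernel⟩

def k1_pm_213 : ∃ t, chk3 f_pm_213 t 3 2 1 = true :=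
  ⟨(a (l 3) (b (a (l 3) (b (l 6) (a (a (l 3) (b (l 6) (a (b (l 3) (a (l 3) (l 297594291319))) (b (a (l 305110496407) (b (l 308868571719) (l 278266941719))) (b (l 273971982407) (l 16797296)))))) (b (a (l 6) (l 6)) (a (a (b (b (l 300815513207) (l 16793656)) (l 16797720)) (l 16796744)) (l 16798368)))))) (b (b (a (l 3) (a (a (a (l 3) (b (l 3) (a (l 270750760679) (l 275045731223)))) (a (b (b (l 261623947623) (l 268603275399)) (b (l 16803768) (l 16806688))) (b (l 16780600) (l 16807592)))) (a (l 16807936) (l 16812168)))) (a (l 3) (a (a (a (b (l 250886543479) (a (l 245517843543) (l 261623993383))) (b (a (l 262697708903) (l 16809104)) (l 16813960))) (a (l 16814280) (l 16817256))) (a (l 16821520) (l 16827984))))) (a (a (l 3) (b (a (l 3) (b (a (l 3) (b (l 232096071639) (l 240149139527))) (b (a (l 3) (l 246591594279)) (a (l 215989945783) (l 213305606215))))) (a (b (l 3) (a (l 3) (b (a (l 3) (l 201494426503)) (c (l 205789403335) (b (l 197199451623) (l 199346935207))))))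 (b (a (a (b (l 3) (l 215453076887)) (b (l 230485464535) (l 16814576))) (b (l 16817432) (l 16819040))) (a (b (a (c (l 16816400) (l 191293881655)) (l 16815768)) (l 16815176)) (l 16821272)))))) (a (b (a (b (a (b (l 246591605559) (l 16816488)) (l 16819368)) (a (l 16819792) (l 16824520))) (l 16828336)) (a (b (l 16826720) (l 16831000)) (l 16756736))) (a (b (l 16836656) (l 16852304)) (l 16854824))))))), by decide +kernel⟩

def k2_pm_213 : ∃ t, chk3 f_pm_213 t 3 6 1 = true :=
  ⟨(a (b (l 3) (a (l 3) (a (l 3) (b (l 3) (b (l 3) (b (l 183777606487) (l 124721839575))))))) (b (a (b (a (b (l 3) (l 3)) (a (b (a (b (l 3) (a (l 3) (b (l 255718380791) (l 187535775047)))) (c (b (l 207400017399) (l 207400019335)) (b (a (b (l 191293868023) (l 195051964071)) (l 16806224)) (a (b (l 197736312407) (l 16802864)) (l 16806664))))) (a (b (b (l 184851417943) (l 184851418023)) (a (l 179482699943) (l 16805232))) (b (l 16810472) (l 16811312)))) (b (b (l 16819712) (l 16820968)) (l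 16823128)))) (a (a (l 3) (b (a (l 3) (b (l 254107753175) (l 164987179863))) (a (l 250886513175) (b (l 16796448) (l 16796888))))) (a (b (b (a (a (l 16801720) (l 16805816)) (l 16812096)) (l 16808912)) (l 16810920)) (b (l 16825816) (l 16829912))))) (a (b (a (b (l 16835096) (l 16839816)) (l 16831704)) (b (l 16894776) (l 16879224))) (l 16885792))) (a (b (b (a (a (l 236390981287) (b (l 140828003815) (l 16794024))) (a (l 16814312) (l 16836264))) (a (a (b (l 137069916775) (l 126869346295)) (b (l 16795432) (l 16797312))) (a (l 16818496) (l 16841176)))) (a (b (a (b (l 115595047463) (l 16781376)) (l 16799976)) (a (b (l 16781776) (l 16780128)) (l 16801424))) (a (b (l 16823576) (l 16824224)) (b (l 16845352) (l 16848744))))) (b (a (a (l 16859256) (l 16881768)) (l 16915512)) (a (l 16885176) (l 16937336)))))), by decide +kernel⟩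

def k3_pm_213 : ∃ t, chk3 f_pm_213 t 3 7 1 = true :=
  ⟨(b (a (a (l 3) (b (a (l 3) (a (b (l 3) (l 150491615047)) (b (b (l 16760656) (l 16753560)) (b (l 16745128) (l 16735512))))) (a (a (l 3) (b (l 3) (l 145659591111))) (a (b (l 130090480055) (l 16665888)) (b (l 16718768) (l 16689952)))))) (a (b (a (a (b (l 16774152) (l 16761184)) (b (l 16796040) (l 16784336))) (a (b (l 16817816) (l 16809984)) (l 16841984))) (a (b (a (l 16743776) (l 16767344)) (a (l 16717760) (l 16747232))) (l 16803936))) (a (b (l 16885480) (l 16873160)) (b (l 16926288) (l 16938312))))) (b (a (a (l 3) (b (a (a (l 3) (b (l 16618360) (l 16601208))) (a (b (l 16636896) (l 16626704)) (b (l 16666032) (l 16660992)))) (a (a (l 3) (b (l 16590648) (l 16589792))) (a (l 16623736) (l 16656272))))) (b (a (a (a (b (l 16694952) (l 16691448)) (l 16727656)) (l 16780936)) (b (l 16890488) (l 16894760))) (a (b (l 16737744) (l 16730168)) (a (l 16846992) (l 16956096))))) (a (l 1) (b (a (a (l 16698048) (l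 16754376)) (b (l 16866032) (l 16852064))) (a (l 1) (b (l 16822424) (l 16705048))))))), by decide +kernel⟩

theorem s4_pm_213 : ∃ t, chk3 f_pm_213 t 3 3 1 = true := ex3_b k2_pm_213 k3_pm_213

theorem s5_pm_213 : ∃ t, chk3 f_pm_213 t 3 1 1 = true := ex3_b k1_pm_213 s4_pm_213

theorem s6_pm_213 : ∃ t, chk3 f_pm_213 t 1 1 1 = true := ex3_a k0_pm_213 s5_pm_213

theorem c_pm_213 : CertB 0 536870912 0 1230186008 587336777 62277027 3 eng mog cd0q2 cd5q3 pd1 false true false .pnn 2 1 3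
    ndB0q2 ndB5q3 pcB1 cut_pm_213 Ext.none :=
  certB0 (fam := false) (s1 := true) (s2 := false) (a := 2) (b := 1) (c := 3) (cn := .pnn) (n1 := ndB0q2) (n2 := ndB5q3) (pc := pcB1) (cut := cut_pm_213) (xt := Ext.none) (P1 := 0) (W1 := 536870912) (P2 := 0) (W2 := 1230186008) (P3 := 587336777) (W3 := 62277027) (N0 := 3) (En := eng) (mo := mog) (C1 := cd0q2) (C2 := cd5q3) (C3 := pd1)
    rfl s6_pm_213

noncomputable def f_mm_001 : ℕ → ℕ → ℕ → ℕ → Bool := onCell 0 536870912 0 536870912 587336777 62277027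
    (rowB 3 eng mog cd0q0 cd5q1 pd0 1 false false false .up 0 0 1 (qsf 0 536870912 536870912 536870912 0) ndB0q0 ndB5q1 pcB0 Cut.none Ext.none)

def k0_mm_001 : ∃ t, chk3 f_mm_001 t 1 1 1 = true :=
  ⟨(l 3), by decide +kernel⟩

theorem c_mm_001 : CertB 0 536870912 536870912 536870912 587336777 62277027 3 eng mog cd0q0 cd5q1 pd0 false false false .up 0 0 1
    ndB0q0 ndB5q1 pcB0 Cut.none Ext.none :=
  certB1 (fam := false) (s1 := false) (s2 := false) (a := 0) (b := 0) (c := 1) (cn := .up) (n1 := ndB0q0) (n2 := ndB5q1) (pc := pcB0) (cut := Cut.none) (xt := Ext.none) (P1 := 0) (W1 := 536870912) (P2 := 536870912) (W2 := 536870912) (P3 := 587336777) (W3 := 62277027) (N0 := 3) (En := eng) (mo := mog) (C1 := cd0q0) (C2 := cd5q1) (C3 := pd0)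
    rfl (fun _ => rfl) k0_mm_001

noncomputable def f_mm_011 : ℕ → ℕ → ℕ → ℕ → Bool := onCell 0 536870912 536870912 536870912 587336777 62277027
    (rowB 3 eng mog cd0q0 cd5q1 pd1 1 false false false .pnn 0 1 1 (qsf 0 536870912 536870912 536870912 1) ndB0q0 ndB5q1 pcB1 Cut.none Ext.none)

def k0_mm_011 : ∃ t, chk3 f_mm_011 t 1 1 1 = true :=
  ⟨(l 5), by decide +kernel⟩

theorem c_mm_011 : CertB 0 536870912 536870912 536870912 587336777 62277027 3 eng mog cd0q0 cd5q1 pd1 false false false .pnn 0 1 1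
    ndB0q0 ndB5q1 pcB1 Cut.none Ext.none :=
  certB1 (fam := false) (s1 := false) (s2 := false) (a := 0) (b := 1) (c := 1) (cn := .pnn) (n1 := ndB0q0) (n2 := ndB5q1) (pc := pcB1) (cut := Cut.none) (xt := Ext.none) (P1 := 0) (W1 := 536870912) (P2 := 536870912) (W2 := 536870912) (P3 := 587336777) (W3 := 62277027) (N0 := 3) (En := eng) (mo := mog) (C1 := cd0q0) (C2 := cd5q1) (C3 := pd1)
    rfl (fun _ => rfl) k0_mm_011

noncomputable def f_mm_012 : ℕ → ℕ → ℕ → ℕ → Bool := onCell 0 536870912 1073741824 536870912 587336777 62277027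
    (rowB 3 eng mog cd0q0 cd5q2 pd1 0 false false false .pnp 0 1 2 (qsf 0 536870912 1073741824 536870912 1) ndB0q0 ndB5q2 pcB1 Cut.none Ext.none)

def k0_mm_012 : ∃ t, chk3 f_mm_012 t 1 1 1 = true :=
  ⟨(l 5), by decide +kernel⟩

theorem c_mm_012 : CertB 0 536870912 1073741824 536870912 587336777 62277027 3 eng mog cd0q0 cd5q2 pd1 false false false .pnp 0 1 2
    ndB0q0 ndB5q2 pcB1 Cut.none Ext.none :=
  certB0 (fam := false) (s1 := false) (s2 := false) (a := 0) (b := 1) (c := 2) (cn := .pnp) (n1 := ndB0q0) (n2 := ndB5q2) (pc := pcB1) (cut := Cut.none) (xt := Ext.none) (P1 := 0) (W1 := 536870912) (P2 := 1073741824) (W2 := 536870912) (P3 := 587336777) (W3 := 62277027) (N0 := 3) (En := eng) (mo := mog) (C1 := cd0q0) (C2 := cd5q2) (C3 := pd1)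
    rfl k0_mm_012

noncomputable def f_mm_022 : ℕ → ℕ → ℕ → ℕ → Bool := onCell 0 536870912 1073741824 536870912 587336777 62277027
    (rowB 3 eng mog cd0q0 cd5q2 pd2 0 false false false .pp 0 2 2 (qsf 0 536870912 1073741824 536870912 2) ndB0q0 ndB5q2 pcB2 Cut.none Ext.none)

def k0_mm_022 : ∃ t, chk3 f_mm_022 t 1 1 1 = true :=
  ⟨(l 5), by decide +kernel⟩

theorem c_mm_022 : CertB 0 536870912 1073741824 536870912 587336777 62277027 3 eng mog cd0q0 cd5q2 pd2 false false false .pp 0 2 2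
    ndB0q0 ndB5q2 pcB2 Cut.none Ext.none :=
  certB0 (fam := false) (s1 := false) (s2 := false) (a := 0) (b := 2) (c := 2) (cn := .pp) (n1 := ndB0q0) (n2 := ndB5q2) (pc := pcB2) (cut := Cut.none) (xt := Ext.none) (P1 := 0) (W1 := 536870912) (P2 := 1073741824) (W2 := 536870912) (P3 := 587336777) (W3 := 62277027) (N0 := 3) (En := eng) (mo := mog) (C1 := cd0q0) (C2 := cd5q2) (C3 := pd2)
    rfl k0_mm_022

noncomputable def f_mm_023 : ℕ → ℕ → ℕ → ℕ → Bool := onCell 0 536870912 0 1230186008 587336777 62277027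
    (rowB 3 eng mog cd0q0 cd5q3 pd2 0 false false false .up 0 2 3 (qsf 0 536870912 0 1230186008 2) ndB0q0 ndB5q3 pcB2 Cut.none Ext.none)

def k0_mm_023 : ∃ t, chk3 f_mm_023 t 1 1 1 = true :=
  ⟨(l 5), by decide +kernel⟩

theorem c_mm_023 : CertB 0 536870912 0 1230186008 587336777 62277027 3 eng mog cd0q0 cd5q3 pd2 false false false .up 0 2 3
    ndB0q0 ndB5q3 pcB2 Cut.none Ext.none :=
  certB0 (fam := false) (s1 := false) (s2 := false) (a := 0) (b := 2) (c := 3) (cn := .up) (n1 := ndB0q0) (n2 := ndB5q3) (pc := pcB2) (cut := Cut.none) (xt := Ext.none) (P1 := 0) (W1 := 536870912) (P2 := 0) (W2 := 1230186008) (P3 := 587336777) (W3 := 62277027) (N0 := 3) (En := eng) (mo := mog) (C1 := cd0q0) (C2 := cd5q3) (C3 := pd2)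
    rfl k0_mm_023

noncomputable def f_mm_033 : ℕ → ℕ → ℕ → ℕ → Bool := onCell 0 536870912 0 1230186008 587336777 62277027
    (rowB 3 eng mog cd0q0 cd5q3 pd3 0 false false false .pnn 0 3 3 (qsf 0 536870912 0 1230186008 3) ndB0q0 ndB5q3 pcB3 Cut.none Ext.none)

def k0_mm_033 : ∃ t, chk3 f_mm_033 t 1 1 1 = true :=
  ⟨(l 5), by decide +kernel⟩

theorem c_mm_033 : CertB 0 536870912 0 1230186008 587336777 62277027 3 eng mog cd0q0 cd5q3 pd3 false false false .pnn 0 3 3
    ndB0q0 ndB5q3 pcB3 Cut.none Ext.none :=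
  certB0 (fam := false) (s1 := false) (s2 := false) (a := 0) (b := 3) (c := 3) (cn := .pnn) (n1 := ndB0q0) (n2 := ndB5q3) (pc := pcB3) (cut := Cut.none) (xt := Ext.none) (P1 := 0) (W1 := 536870912) (P2 := 0) (W2 := 1230186008) (P3 := 587336777) (W3 := 62277027) (N0 := 3) (En := eng) (mo := mog) (C1 := cd0q0) (C2 := cd5q3) (C3 := pd3)
    rfl k0_mm_033

noncomputable def cut_mm_101 : Cut := Cut.of [[⟨0, 1, 0, 67108864⟩, ⟨1, 0, 0, 67108864⟩, ⟨2, 1, 0, 67108864⟩]]

noncomputable def f_mm_101 : ℕ → ℕ → ℕ → ℕ → Bool := onCell 536870912 536870912 0 536870912 587336777 62277027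
    (rowB 3 eng mog cd0q1 cd5q1 pd0 1 false false false .npn 1 0 1 (qsf 536870912 536870912 536870912 536870912 0) ndB0q1 ndB5q1 pcB0 cut_mm_101 Ext.none)

def k0_mm_101 : ∃ t, chk3 f_mm_101 t 1 1 1 = true :=
  ⟨(a (l 3) (b (a (l 3) (b (a (l 3) (b (a (l 3) (b (l 6) (l 3))) (l 3))) (l 3))) (l 3))), by decide +kernel⟩

theorem c_mm_101 : CertB 536870912 536870912 536870912 536870912 587336777 62277027 3 eng mog cd0q1 cd5q1 pd0 false false false .npn 1 0 1
    ndB0q1 ndB5q1 pcB0 cut_mm_101 Ext.none :=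
  certB1 (fam := false) (s1 := false) (s2 := false) (a := 1) (b := 0) (c := 1) (cn := .npn) (n1 := ndB0q1) (n2 := ndB5q1) (pc := pcB0) (cut := cut_mm_101) (xt := Ext.none) (P1 := 536870912) (W1 := 536870912) (P2 := 536870912) (W2 := 536870912) (P3 := 587336777) (W3 := 62277027) (N0 := 3) (En := eng) (mo := mog) (C1 := cd0q1) (C2 := cd5q1) (C3 := pd0)
    rfl (fun _ => rfl) k0_mm_101

noncomputable def f_mm_102 : ℕ → ℕ → ℕ → ℕ → Bool := onCell 536870912 536870912 1073741824 536870912 587336777 62277027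
    (rowB 3 eng mog cd0q1 cd5q2 pd0 0 false false false .npp 1 0 2 (qsf 536870912 536870912 1073741824 536870912 0) ndB0q1 ndB5q2 pcB0 Cut.none Ext.none)

def k0_mm_102 : ∃ t, chk3 f_mm_102 t 1 1 1 = true :=
  ⟨(l 3), by decide +kernel⟩

theorem c_mm_102 : CertB 536870912 536870912 1073741824 536870912 587336777 62277027 3 eng mog cd0q1 cd5q2 pd0 false false false .npp 1 0 2
    ndB0q1 ndB5q2 pcB0 Cut.none Ext.none :=
  certB0 (fam := false) (s1 := false) (s2 := false) (a := 1) (b := 0) (c := 2) (cn := .npp) (n1 := ndB0q1) (n2 := ndB5q2) (pc := pcB0) (cut := Cut.none) (xt := Ext.none) (P1 := 536870912) (W1 := 536870912) (P2 := 1073741824) (W2 := 536870912) (P3 := 587336777) (W3 := 62277027) (N0 := 3) (En := eng) (mo := mog) (C1 := cd0q1) (C2 := cd5q2) (C3 := pd0)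
    rfl k0_mm_102

noncomputable def f_mm_112 : ℕ → ℕ → ℕ → ℕ → Bool := onCell 536870912 536870912 1073741824 536870912 587336777 62277027
    (rowB 3 eng mog cd0q1 cd5q2 pd1 0 false false false .dn 1 1 2 (qsf 536870912 536870912 1073741824 536870912 1) ndB0q1 ndB5q2 pcB1 Cut.none Ext.none)

def k0_mm_112 : ∃ t, chk3 f_mm_112 t 1 1 1 = true :=
  ⟨(l 3), by decide +kernel⟩

theorem c_mm_112 : CertB 536870912 536870912 1073741824 536870912 587336777 62277027 3 eng mog cd0q1 cd5q2 pd1 false false false .dn 1 1 2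
    ndB0q1 ndB5q2 pcB1 Cut.none Ext.none :=
  certB0 (fam := false) (s1 := false) (s2 := false) (a := 1) (b := 1) (c := 2) (cn := .dn) (n1 := ndB0q1) (n2 := ndB5q2) (pc := pcB1) (cut := Cut.none) (xt := Ext.none) (P1 := 536870912) (W1 := 536870912) (P2 := 1073741824) (W2 := 536870912) (P3 := 587336777) (W3 := 62277027) (N0 := 3) (En := eng) (mo := mog) (C1 := cd0q1) (C2 := cd5q2) (C3 := pd1)
    rfl k0_mm_112

noncomputable def f_mm_113 : ℕ → ℕ → ℕ → ℕ → Bool := onCell 536870912 536870912 0 1230186008 587336777 62277027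
    (rowB 3 eng mog cd0q1 cd5q3 pd1 0 false false false .nn 1 1 3 (qsf 536870912 536870912 0 1230186008 1) ndB0q1 ndB5q3 pcB1 Cut.none Ext.none)

def k0_mm_113 : ∃ t, chk3 f_mm_113 t 1 1 1 = true :=
  ⟨(b (l 5) (b (l 5) (l 5))), by decide +kernel⟩

theorem c_mm_113 : CertB 536870912 536870912 0 1230186008 587336777 62277027 3 eng mog cd0q1 cd5q3 pd1 false false false .nn 1 1 3
    ndB0q1 ndB5q3 pcB1 Cut.none Ext.none :=
  certB0 (fam := false) (s1 := false) (s2 := false) (a := 1) (b := 1) (c := 3) (cn := .nn) (n1 := ndB0q1) (n2 := ndB5q3) (pc := pcB1) (cut := Cut.none) (xt := Ext.none) (P1 := 536870912) (W1 := 536870912) (P2 := 0) (W2 := 1230186008) (P3 := 587336777) (W3 := 62277027) (N0 := 3) (En := eng) (mo := mog) (C1 := cd0q1) (C2 := cd5q3) (C3 := pd1)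
    rfl k0_mm_113

noncomputable def f_mm_123 : ℕ → ℕ → ℕ → ℕ → Bool := onCell 1073741824 536870912 0 1230186008 587336777 62277027
    (rowB 3 eng mog cd0q1 cd5q3 pd2 2 false false false .npn 1 2 3 (qsf 536870912 536870912 0 1230186008 2) ndB0q1 ndB5q3 pcB2 Cut.none Ext.none)

def k0_mm_123 : ∃ t, chk3 f_mm_123 t 1 1 1 = true :=
  ⟨(b (l 5) (l 5)), by decide +kernel⟩

theorem c_mm_123 : CertB 536870912 536870912 0 1230186008 587336777 62277027 3 eng mog cd0q1 cd5q3 pd2 false false false .npn 1 2 3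
    ndB0q1 ndB5q3 pcB2 Cut.none Ext.none :=
  certB2 (fam := false) (s1 := false) (s2 := false) (a := 1) (b := 2) (c := 3) (cn := .npn) (n1 := ndB0q1) (n2 := ndB5q3) (pc := pcB2) (cut := Cut.none) (xt := Ext.none) (P1 := 536870912) (W1 := 536870912) (P2 := 0) (W2 := 1230186008) (P3 := 587336777) (W3 := 62277027) (N0 := 3) (En := eng) (mo := mog) (C1 := cd0q1) (C2 := cd5q3) (C3 := pd2)
    rfl (fun _ => rfl) k0_mm_123

noncomputable def f_mm_133 : ℕ → ℕ → ℕ → ℕ → Bool := onCell 1610612736 536870912 0 1230186008 587336777 62277027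
    (rowB 3 eng mog cd0q1 cd5q3 pd3 2 false false false .dn 1 3 3 (qsf 536870912 536870912 0 1230186008 3) ndB0q1 ndB5q3 pcB3 Cut.none Ext.none)

def k0_mm_133 : ∃ t, chk3 f_mm_133 t 1 1 1 = true :=
  ⟨(l 5), by decide +kernel⟩

theorem c_mm_133 : CertB 536870912 536870912 0 1230186008 587336777 62277027 3 eng mog cd0q1 cd5q3 pd3 false false false .dn 1 3 3
    ndB0q1 ndB5q3 pcB3 Cut.none Ext.none :=
  certB2 (fam := false) (s1 := false) (s2 := false) (a := 1) (b := 3) (c := 3) (cn := .dn) (n1 := ndB0q1) (n2 := ndB5q3) (pc := pcB3) (cut := Cut.none) (xt := Ext.none) (P1 := 536870912) (W1 := 536870912) (P2 := 0) (W2 := 1230186008) (P3 := 587336777) (W3 := 62277027) (N0 := 3) (En := eng) (mo := mog) (C1 := cd0q1) (C2 := cd5q3) (C3 := pd3)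
    rfl (fun _ => rfl) k0_mm_133

noncomputable def f_mm_202 : ℕ → ℕ → ℕ → ℕ → Bool := onCell 0 536870912 1073741824 536870912 587336777 62277027
    (rowB 3 eng mog cd0q2 cd5q2 pd0 0 false false false .pp 2 0 2 (qsf 0 536870912 1073741824 536870912 0) ndB0q2 ndB5q2 pcB0 Cut.none Ext.none)

def k0_mm_202 : ∃ t, chk3 f_mm_202 t 1 1 1 = true :=
  ⟨(l 3), by decide +kernel⟩

theorem c_mm_202 : CertB 0 536870912 1073741824 536870912 587336777 62277027 3 eng mog cd0q2 cd5q2 pd0 false false false .pp 2 0 2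
    ndB0q2 ndB5q2 pcB0 Cut.none Ext.none :=
  certB0 (fam := false) (s1 := false) (s2 := false) (a := 2) (b := 0) (c := 2) (cn := .pp) (n1 := ndB0q2) (n2 := ndB5q2) (pc := pcB0) (cut := Cut.none) (xt := Ext.none) (P1 := 0) (W1 := 536870912) (P2 := 1073741824) (W2 := 536870912) (P3 := 587336777) (W3 := 62277027) (N0 := 3) (En := eng) (mo := mog) (C1 := cd0q2) (C2 := cd5q2) (C3 := pd0)
    rfl k0_mm_202

noncomputable def f_mm_203 : ℕ → ℕ → ℕ → ℕ → Bool := onCell 0 536870912 0 1230186008 587336777 62277027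
    (rowB 3 eng mog cd0q2 cd5q3 pd0 0 false false false .up 2 0 3 (qsf 0 536870912 0 1230186008 0) ndB0q2 ndB5q3 pcB0 Cut.none Ext.none)

def k0_mm_203 : ∃ t, chk3 f_mm_203 t 1 1 1 = true :=
  ⟨(b (l 2) (l 3)), by decide +kernel⟩

theorem c_mm_203 : CertB 0 536870912 0 1230186008 587336777 62277027 3 eng mog cd0q2 cd5q3 pd0 false false false .up 2 0 3
    ndB0q2 ndB5q3 pcB0 Cut.none Ext.none :=
  certB0 (fam := false) (s1 := false) (s2 := false) (a := 2) (b := 0) (c := 3) (cn := .up) (n1 := ndB0q2) (n2 := ndB5q3) (pc := pcB0) (cut := Cut.none) (xt := Ext.none) (P1 := 0) (W1 := 536870912) (P2 := 0) (W2 := 1230186008) (P3 := 587336777) (W3 := 62277027) (N0 := 3) (En := eng) (mo := mog) (C1 := cd0q2) (C2 := cd5q3) (C3 := pd0)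
    rfl k0_mm_203

noncomputable def f_mm_213 : ℕ → ℕ → ℕ → ℕ → Bool := onCell 0 536870912 0 1230186008 587336777 62277027
    (rowB 3 eng mog cd0q2 cd5q3 pd1 0 false false false .pnn 2 1 3 (qsf 0 536870912 0 1230186008 1) ndB0q2 ndB5q3 pcB1 Cut.none Ext.none)

def k0_mm_213 : ∃ t, chk3 f_mm_213 t 1 1 1 = true :=
  ⟨(b (a (l 3) (l 5)) (l 3)), by decide +kernel⟩

theorem c_mm_213 : CertB 0 536870912 0 1230186008 587336777 62277027 3 eng mog cd0q2 cd5q3 pd1 false false false .pnn 2 1 3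
    ndB0q2 ndB5q3 pcB1 Cut.none Ext.none :=
  certB0 (fam := false) (s1 := false) (s2 := false) (a := 2) (b := 1) (c := 3) (cn := .pnn) (n1 := ndB0q2) (n2 := ndB5q3) (pc := pcB1) (cut := Cut.none) (xt := Ext.none) (P1 := 0) (W1 := 536870912) (P2 := 0) (W2 := 1230186008) (P3 := 587336777) (W3 := 62277027) (N0 := 3) (En := eng) (mo := mog) (C1 := cd0q2) (C2 := cd5q3) (C3 := pd1)
    rfl k0_mm_213

end Pool.Agent.Strip051.G.I5470_6050.Tab.C.BB05

namespace Pool.Agent.Strip051.G.I5470_6050.Tab.C.BB06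

open Pool.Agent.Strip051.PB Pool.Agent.Strip051.PB.T
open Pool.Agent.Strip051.G.I5470_6050.Tab

noncomputable def f_pp_001 : ℕ → ℕ → ℕ → ℕ → Bool := onCell 0 536870912 0 536870912 587336777 62277027
    (rowB 3 eng mog cd0q0 cd6q1 pd0 1 false true true .up 0 0 1 (qsf 0 536870912 536870912 536870912 0) ndB0q0 ndB6q1 pcB0 Cut.none Ext.none)

def k0_pp_001 : ∃ t, chk3 f_pp_001 t 1 1 1 = true :=
  ⟨(l 3), by decide +kernel⟩

theorem c_pp_001 : CertB 0 536870912 536870912 536870912 587336777 62277027 3 eng mog cd0q0 cd6q1 pd0 false true true .up 0 0 1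
    ndB0q0 ndB6q1 pcB0 Cut.none Ext.none :=
  certB1 (fam := false) (s1 := true) (s2 := true) (a := 0) (b := 0) (c := 1) (cn := .up) (n1 := ndB0q0) (n2 := ndB6q1) (pc := pcB0) (cut := Cut.none) (xt := Ext.none) (P1 := 0) (W1 := 536870912) (P2 := 536870912) (W2 := 536870912) (P3 := 587336777) (W3 := 62277027) (N0 := 3) (En := eng) (mo := mog) (C1 := cd0q0) (C2 := cd6q1) (C3 := pd0)
    rfl (fun _ => rfl) k0_pp_001

noncomputable def cut_pp_011 : Cut := Cut.of [[⟨0, 0, 0, 67108864⟩, ⟨1, 1, 0, 67108864⟩, ⟨2, 1, 0, 67108864⟩]]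

noncomputable def f_pp_011 : ℕ → ℕ → ℕ → ℕ → Bool := onCell 0 536870912 536870912 536870912 587336777 62277027
    (rowB 3 eng mog cd0q0 cd6q1 pd1 1 false true true .pnn 0 1 1 (qsf 0 536870912 536870912 536870912 1) ndB0q0 ndB6q1 pcB1 cut_pp_011 Ext.none)

def k0_pp_011 : ∃ t, chk3 f_pp_011 t 1 1 1 = true :=
  ⟨(b (l 3) (a (b (l 3) (a (b (l 3) (a (b (l 3) (a (l 6) (l 3))) (l 3))) (l 3))) (l 3))), by decide +kernel⟩

theorem c_pp_011 : CertB 0 536870912 536870912 536870912 587336777 62277027 3 eng mog cd0q0 cd6q1 pd1 false true true .pnn 0 1 1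
    ndB0q0 ndB6q1 pcB1 cut_pp_011 Ext.none :=
  certB1 (fam := false) (s1 := true) (s2 := true) (a := 0) (b := 1) (c := 1) (cn := .pnn) (n1 := ndB0q0) (n2 := ndB6q1) (pc := pcB1) (cut := cut_pp_011) (xt := Ext.none) (P1 := 0) (W1 := 536870912) (P2 := 536870912) (W2 := 536870912) (P3 := 587336777) (W3 := 62277027) (N0 := 3) (En := eng) (mo := mog) (C1 := cd0q0) (C2 := cd6q1) (C3 := pd1)
    rfl (fun _ => rfl) k0_pp_011

noncomputable def f_pp_012 : ℕ → ℕ → ℕ → ℕ → Bool := onCell 0 536870912 536870912 536870912 587336777 62277027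
    (rowB 3 eng mog cd0q0 cd6q2 pd1 1 false true true .pnp 0 1 2 (qsf 0 536870912 1073741824 536870912 1) ndB0q0 ndB6q2 pcB1 Cut.none Ext.none)

def k0_pp_012 : ∃ t, chk3 f_pp_012 t 1 1 1 = true :=
  ⟨(l 3), by decide +kernel⟩

theorem c_pp_012 : CertB 0 536870912 1073741824 536870912 587336777 62277027 3 eng mog cd0q0 cd6q2 pd1 false true true .pnp 0 1 2
    ndB0q0 ndB6q2 pcB1 Cut.none Ext.none :=
  certB1 (fam := false) (s1 := true) (s2 := true) (a := 0) (b := 1) (c := 2) (cn := .pnp) (n1 := ndB0q0) (n2 := ndB6q2) (pc := pcB1) (cut := Cut.none) (xt := Ext.none) (P1 := 0) (W1 := 536870912) (P2 := 1073741824) (W2 := 536870912) (P3 := 587336777) (W3 := 62277027) (N0 := 3) (En := eng) (mo := mog) (C1 := cd0q0) (C2 := cd6q2) (C3 := pd1)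
    rfl (fun _ => rfl) k0_pp_012

noncomputable def f_pp_022 : ℕ → ℕ → ℕ → ℕ → Bool := onCell 0 536870912 1073741824 536870912 587336777 62277027
    (rowB 3 eng mog cd0q0 cd6q2 pd2 1 false true true .pp 0 2 2 (qsf 0 536870912 1073741824 536870912 2) ndB0q0 ndB6q2 pcB2 Cut.none Ext.none)

def k0_pp_022 : ∃ t, chk3 f_pp_022 t 1 4 1 = true :=
  ⟨(a (l 3) (l 3)), by decide +kernel⟩

def k1_pp_022 : ∃ t, chk3 f_pp_022 t 2 5 1 = true :=
  ⟨(b (b (b (a (l 3) (l 3)) (b (a (a (a (b (a (l 16481560) (l 265918273783)) (a (l 16473536) (l 16462912))) (b (l 3) (a (l 16488600) (l 16495224)))) (b (l 3) (a (l 16504488) (l 3)))) (l 3)) (a (b (a (a (b (a (l 16467544) (l 16475360)) (l 16467448)) (b (l 16485816) (l 16481696))) (b (a (l 16498096) (l 16510152)) (a (l 16493792) (l 16506704)))) (a (a (b (a (l 16459544) (l 16467376)) (b (b (b (l 16440224) (a (c (l 16522016) (l 16455256)) (l 16454072))) (l 16438936)) (l 16437448))) (b (l 16477520) (a (c (l 16472472) (l 16468672))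 (l 16476392)))) (b (a (c (l 16533096) (l 16531016)) (b (l 16504240) (l 16502296))) (a (l 16485128) (l 16498696))))) (b (a (b (l 3) (a (l 16521064) (l 337322326615))) (l 3)) (a (b (b (a (l 16518936) (l 16532952)) (a (l 16538224) (a (l 16527368) (l 16556688)))) (a (l 16514000) (a (l 16524536) (l 16534032)))) (b (b (a (l 16558952) (l 3)) (a (a (l 16550584) (l 16607448)) (a (l 16621736) (l 3)))) (a (a (l 16549280) (l 16564312)) (l 16585768)))))))) (a (a (a (a (b (l 16437648) (l 16405328)) (l 16428568)) (l 16437280)) (a (l 16451992) (l 16469136))) (a (a (b (l 16498864) (l 16485800)) (a (l 16556432) (l 16550664))) (a (b (l 16528928) (l 16538320)) (b (l 16579784) (l 16569992)))))) (a (a (a (b (l 16359432) (l 16301752)) (b (l 16377416) (l 16324024))) (a (b (l 16397320) (a (l 16342040) (l 16355624))) (b (a (l 16413136) (l 16424936)) (a (l 16372496) (l 16392624))))) (a (a (b (b (a (l 16447592) (l 16463856)) (l 16441480)) (l 16425792)) (b (l 16507376) (l 16469208)))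 (a (b (l 16523584) (l 16510664)) (b (l 16558168) (l 16549208)))))), by decide +kernel⟩

def k2_pp_022 : ∃ t, chk3 f_pp_022 t 3 5 1 = true :=
  ⟨(b (b (b (l 3) (a (b (l 3) (b (l 3) (a (b (l 3) (a (l 16611728) (l 16634384))) (a (a (b (l 3) (l 16649072)) (b (b (l 3) (b (l 3) (l 16658200))) (l 16657736))) (a (b (b (l 3) (b (l 3) (l 103179659223))) (a (l 16663656) (l 2))) (l 2)))))) (l 2))) (a (a (a (b (l 16606640) (l 16598576)) (b (l 16630128) (l 16623664))) (a (b (a (l 16645416) (l 16654544)) (l 16645440)) (b (a (l 89221018695) (l 2)) (l 2)))) (l 2))) (a (b (a (a (l 16589496) (l 16617376)) (a (l 16641856) (l 2))) (a (l 16600432) (l 2))) (l 2))), by decide +kernel⟩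

def k3_pp_022 : ∃ t, chk3 f_pp_022 t 1 3 1 = true :=
  ⟨(a (a (b (a (b (a (b (l 16249528) (l 16204328)) (b (l 16298264) (l 16245664))) (a (b (l 16174936) (l 16166488)) (l 16232928))) (b (a (b (l 16356936) (l 16298896)) (b (l 16363136) (l 16354944))) (a (l 16298952) (l 16363776)))) (a (b (a (l 16182976) (l 16263720)) (l 16302672)) (b (a (l 16341960) (l 16415296)) (l 16474864)))) (b (b (a (a (b (l 16412808) (l 16409952)) (l 16460624)) (a (l 16508128) (l 16551944))) (a (a (l 16425592) (l 16483568)) (l 16562040))) (b (a (l 16515888) (l 2)) (l 2)))) (b (a (b (a (b (l 16604888) (l 2)) (l 2)) (l 2)) (l 2)) (l 2))), by decide +kernel⟩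

theorem s4_pp_022 : ∃ t, chk3 f_pp_022 t 1 5 1 = true := ex3_a k1_pp_022 k2_pp_022

theorem s5_pp_022 : ∃ t, chk3 f_pp_022 t 1 2 1 = true := ex3_b k0_pp_022 s4_pp_022

theorem s6_pp_022 : ∃ t, chk3 f_pp_022 t 1 1 1 = true := ex3_b s5_pp_022 k3_pp_022

theorem c_pp_022 : CertB 0 536870912 1073741824 536870912 587336777 62277027 3 eng mog cd0q0 cd6q2 pd2 false true true .pp 0 2 2
    ndB0q0 ndB6q2 pcB2 Cut.none Ext.none :=
  certB1 (fam := false) (s1 := true) (s2 := true) (a := 0) (b := 2) (c := 2) (cn := .pp) (n1 := ndB0q0) (n2 := ndB6q2) (pc := pcB2) (cut := Cut.none) (xt := Ext.none) (P1 := 0) (W1 := 536870912) (P2 := 1073741824) (W2 := 536870912) (P3 := 587336777) (W3 := 62277027) (N0 := 3) (En := eng) (mo := mog) (C1 := cd0q0) (C2 := cd6q2) (C3 := pd2)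
    rfl (fun _ => rfl) s6_pp_022

noncomputable def f_pp_023 : ℕ → ℕ → ℕ → ℕ → Bool := onCell 1073741824 536870912 0 1230186008 587336777 62277027
    (rowB 3 eng mog cd0q0 cd6q3 pd2 2 false true true .up 0 2 3 (qsf 0 536870912 0 1230186008 2) ndB0q0 ndB6q3 pcB2 Cut.none Ext.none)

def k0_pp_023 : ∃ t, chk3 f_pp_023 t 2 1 1 = true :=
  ⟨(b (l 2) (a (b (l 2) (l 3)) (b (a (l 2) (b (l 2) (a (l 2) (l 16791864)))) (b (b (a (a (l 2) (l 554151222503)) (a (l 16703944) (l 16694392))) (b (a (a (l 2) (l 16700880)) (l 16671032)) (a (a (a (l 3) (a (a (l 3) (a (l 16708856) (l 16705928))) (a (a (l 16703072) (l 16679176)) (a (l 16697904) (b (l 29091516279) (l 16690240)))))) (l 16678544)) (l 16654792)))) (a (a (a (l 3) (a (b (b (a (l 3) (l 148343982087)) (l 3)) (l 3)) (b (a (b (a (l 16676360) (l 16673304)) (a (l 16644944) (l 16641424))) (b (a (a (l 16671136) (l 16670192)) (l 16669024)) (a (a (l 16640912) (l 16641560)) (l 16645992)))) (a (b (a (l 3) (l 16658840)) (l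 3)) (b (a (a (l 16657904) (l 16699360)) (l 16658144)) (a (a (l 16667480) (a (l 16666752) (l 16666448))) (b (l 16664440) (l 16666264)))))))) (b (b (l 16671456) (l 16649832)) (b (l 16648872) (a (l 16659560) (l 16647448))))) (b (b (a (l 16649336) (l 16645832)) (l 16639400)) (b (a (l 16637784) (l 16616152)) (a (l 16627584) (l 16598208))))))))), by decide +kernel⟩

def k1_pp_023 : ∃ t, chk3 f_pp_023 t 3 1 1 = true :=
  ⟨(b (a (l 2) (b (a (l 2) (l 16719424)) (b (l 16794528) (a (l 16774048) (l 16769816))))) (b (a (b (a (l 2) (b (l 16774584) (l 16792048))) (a (a (l 16735040) (l 16742960)) (b (l 16785712) (l 16742296)))) (b (a (l 16962784) (l 16810928)) (a (b (l 16782232) (l 16753680)) (b (l 16753000) (l 16722560))))) (a (b (a (b (a (l 16697864) (l 16699880)) (a (l 16662792) (l 16656832))) (b (l 16698840) (l 16641208))) (b (a (b (l 16628880) (l 16603888)) (l 16574656)) (a (b (l 16577216) (l 16549144)) (b (l 16518352) (l 16480336))))) (b (a (b (l 16693944) (l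 16615320)) (b (l 16664488) (l 16582352))) (b (a (l 16528360) (l 16483264)) (a (b (l 16457968) (l 16410576)) (l 16369776))))))), by decide +kernel⟩

theorem s2_pp_023 : ∃ t, chk3 f_pp_023 t 1 1 1 = true := ex3_a k0_pp_023 k1_pp_023

theorem c_pp_023 : CertB 0 536870912 0 1230186008 587336777 62277027 3 eng mog cd0q0 cd6q3 pd2 false true true .up 0 2 3
    ndB0q0 ndB6q3 pcB2 Cut.none Ext.none :=
  certB2 (fam := false) (s1 := true) (s2 := true) (a := 0) (b := 2) (c := 3) (cn := .up) (n1 := ndB0q0) (n2 := ndB6q3) (pc := pcB2) (cut := Cut.none) (xt := Ext.none) (P1 := 0) (W1 := 536870912) (P2 := 0) (W2 := 1230186008) (P3 := 587336777) (W3 := 62277027) (N0 := 3) (En := eng) (mo := mog) (C1 := cd0q0) (C2 := cd6q3) (C3 := pd2)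
    rfl (fun _ => rfl) s2_pp_023

noncomputable def f_pp_033 : ℕ → ℕ → ℕ → ℕ → Bool := onCell 1610612736 536870912 0 1230186008 587336777 62277027
    (rowB 3 eng mog cd0q0 cd6q3 pd3 2 false true true .pnn 0 3 3 (qsf 0 536870912 0 1230186008 3) ndB0q0 ndB6q3 pcB3 Cut.none Ext.none)

def k0_pp_033 : ∃ t, chk3 f_pp_033 t 1 1 1 = true :=
  ⟨(a (b (a (b (a (b (l 16699464) (l 16716392)) (l 16687936)) (b (a (a (l 16746512) (l 16715872)) (l 16701168)) (a (a (l 16749976) (l 16712576)) (a (l 16702248) (l 16688952))))) (a (b (a (l 16672896) (l 16663304)) (b (l 16876880) (a (l 16670552) (l 16649248)))) (b (l 16641656) (b (l 16636568) (l 16621584))))) (a (b (a (b (a (b (l 16733304) (l 16711784)) (l 16689896)) (a (b (l 16681864) (l 16641672)) (b (l 16652528) (l 16616688)))) (a (b (l 16674864) (l 16740272)) (b (l 16659720) (l 16721632)))) (b (a (a (l 16538952) (l 16496568)) (b (a (l 16537856) (l 16518176)) (l 16441704))) (b (a (l 16362256) (l 16319736)) (a (l 16252472)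 (l 135860806295))))) (b (a (b (a (l 16640800) (l 16619584)) (a (l 16766096) (b (l 16576936) (l 16537576)))) (b (b (l 16604000) (l 16580592)) (b (l 16550160) (l 16512760)))) (b (a (b (a (l 16499232) (l 16480656)) (a (l 16413584) (l 16393816))) (b (l 16453720) (l 1))) (b (a (b (l 16313920) (l 1)) (l 1)) (l 1)))))) (b (a (a (b (l 16612520) (a (l 16797072) (l 16721984))) (b (l 4) (a (b (l 16589416) (l 16581496)) (l 16596288)))) (a (b (l 4) (a (l 16565872) (l 4))) (l 4))) (b (a (a (b (b (l 16577512) (l 16557912)) (b (l 16529720) (l 16489976))) (b (a (l 16564040) (l 333430465319)) (b (l 16524000) (l 1)))) (a (b (a (l 390875639751) (l 1)) (l 1)) (l 1))) (l 1)))), by decide +kernel⟩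

theorem c_pp_033 : CertB 0 536870912 0 1230186008 587336777 62277027 3 eng mog cd0q0 cd6q3 pd3 false true true .pnn 0 3 3
    ndB0q0 ndB6q3 pcB3 Cut.none Ext.none :=
  certB2 (fam := false) (s1 := true) (s2 := true) (a := 0) (b := 3) (c := 3) (cn := .pnn) (n1 := ndB0q0) (n2 := ndB6q3) (pc := pcB3) (cut := Cut.none) (xt := Ext.none) (P1 := 0) (W1 := 536870912) (P2 := 0) (W2 := 1230186008) (P3 := 587336777) (W3 := 62277027) (N0 := 3) (En := eng) (mo := mog) (C1 := cd0q0) (C2 := cd6q3) (C3 := pd3)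
    rfl (fun _ => rfl) k0_pp_033

noncomputable def f_pp_101 : ℕ → ℕ → ℕ → ℕ → Bool := onCell 536870912 536870912 536870912 536870912 587336777 62277027
    (rowB 3 eng mog cd0q1 cd6q1 pd0 0 false true true .npn 1 0 1 (qsf 536870912 536870912 536870912 536870912 0) ndB0q1 ndB6q1 pcB0 Cut.none Ext.none)

def k0_pp_101 : ∃ t, chk3 f_pp_101 t 1 1 1 = true :=
  ⟨(a (l 3) (l 5)), by decide +kernel⟩

theorem c_pp_101 : CertB 536870912 536870912 536870912 536870912 587336777 62277027 3 eng mog cd0q1 cd6q1 pd0 false true true .npn 1 0 1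
    ndB0q1 ndB6q1 pcB0 Cut.none Ext.none :=
  certB0 (fam := false) (s1 := true) (s2 := true) (a := 1) (b := 0) (c := 1) (cn := .npn) (n1 := ndB0q1) (n2 := ndB6q1) (pc := pcB0) (cut := Cut.none) (xt := Ext.none) (P1 := 536870912) (W1 := 536870912) (P2 := 536870912) (W2 := 536870912) (P3 := 587336777) (W3 := 62277027) (N0 := 3) (En := eng) (mo := mog) (C1 := cd0q1) (C2 := cd6q1) (C3 := pd0)
    rfl k0_pp_101

noncomputable def f_pp_102 : ℕ → ℕ → ℕ → ℕ → Bool := onCell 536870912 536870912 1073741824 536870912 587336777 62277027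
    (rowB 3 eng mog cd0q1 cd6q2 pd0 0 false true true .npp 1 0 2 (qsf 536870912 536870912 1073741824 536870912 0) ndB0q1 ndB6q2 pcB0 Cut.none Ext.none)

def k0_pp_102 : ∃ t, chk3 f_pp_102 t 1 1 1 = true :=
  ⟨(l 3), by decide +kernel⟩

theorem c_pp_102 : CertB 536870912 536870912 1073741824 536870912 587336777 62277027 3 eng mog cd0q1 cd6q2 pd0 false true true .npp 1 0 2
    ndB0q1 ndB6q2 pcB0 Cut.none Ext.none :=
  certB0 (fam := false) (s1 := true) (s2 := true) (a := 1) (b := 0) (c := 2) (cn := .npp) (n1 := ndB0q1) (n2 := ndB6q2) (pc := pcB0) (cut := Cut.none) (xt := Ext.none) (P1 := 536870912) (W1 := 536870912) (P2 := 1073741824) (W2 := 536870912) (P3 := 587336777) (W3 := 62277027) (N0 := 3) (En := eng) (mo := mog) (C1 := cd0q1) (C2 := cd6q2) (C3 := pd0)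
    rfl k0_pp_102

noncomputable def f_pp_112 : ℕ → ℕ → ℕ → ℕ → Bool := onCell 536870912 536870912 1073741824 536870912 587336777 62277027
    (rowB 3 eng mog cd0q1 cd6q2 pd1 0 false true true .dn 1 1 2 (qsf 536870912 536870912 1073741824 536870912 1) ndB0q1 ndB6q2 pcB1 Cut.none Ext.none)

def k0_pp_112 : ∃ t, chk3 f_pp_112 t 1 1 1 = true :=
  ⟨(l 3), by decide +kernel⟩

theorem c_pp_112 : CertB 536870912 536870912 1073741824 536870912 587336777 62277027 3 eng mog cd0q1 cd6q2 pd1 false true true .dn 1 1 2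
    ndB0q1 ndB6q2 pcB1 Cut.none Ext.none :=
  certB0 (fam := false) (s1 := true) (s2 := true) (a := 1) (b := 1) (c := 2) (cn := .dn) (n1 := ndB0q1) (n2 := ndB6q2) (pc := pcB1) (cut := Cut.none) (xt := Ext.none) (P1 := 536870912) (W1 := 536870912) (P2 := 1073741824) (W2 := 536870912) (P3 := 587336777) (W3 := 62277027) (N0 := 3) (En := eng) (mo := mog) (C1 := cd0q1) (C2 := cd6q2) (C3 := pd1)
    rfl k0_pp_112

noncomputable def cut_pp_113 : Cut := Cut.of [[⟨0, 1, 0, 67108864⟩, ⟨1, 1, 0, 67108864⟩, ⟨2, 2, 0, 16777216⟩]]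

noncomputable def f_pp_113 : ℕ → ℕ → ℕ → ℕ → Bool := onCell 536870912 536870912 0 1230186008 587336777 62277027
    (rowB 3 eng mog cd0q1 cd6q3 pd1 2 false true true .nn 1 1 3 (qsf 536870912 536870912 0 1230186008 1) ndB0q1 ndB6q3 pcB1 cut_pp_113 Ext.none)

def k0_pp_113 : ∃ t, chk3 f_pp_113 t 1 1 1 = true :=
  ⟨(b (a (l 2) (a (l 2) (b (a (l 2) (a (l 2) (b (l 6) (l 3)))) (l 3)))) (b (a (a (l 2) (b (l 2) (a (l 2) (l 3)))) (l 3)) (a (a (b (l 2) (l 3)) (l 3)) (l 3)))), by decide +kernel⟩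

theorem c_pp_113 : CertB 536870912 536870912 0 1230186008 587336777 62277027 3 eng mog cd0q1 cd6q3 pd1 false true true .nn 1 1 3
    ndB0q1 ndB6q3 pcB1 cut_pp_113 Ext.none :=
  certB2 (fam := false) (s1 := true) (s2 := true) (a := 1) (b := 1) (c := 3) (cn := .nn) (n1 := ndB0q1) (n2 := ndB6q3) (pc := pcB1) (cut := cut_pp_113) (xt := Ext.none) (P1 := 536870912) (W1 := 536870912) (P2 := 0) (W2 := 1230186008) (P3 := 587336777) (W3 := 62277027) (N0 := 3) (En := eng) (mo := mog) (C1 := cd0q1) (C2 := cd6q3) (C3 := pd1)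
    rfl (fun _ => rfl) k0_pp_113

noncomputable def cut_pp_123 : Cut := Cut.of [[⟨0, 1, 0, 67108864⟩, ⟨1, 1, 0, 67108864⟩, ⟨2, 2, 0, 16777216⟩]]

noncomputable def f_pp_123 : ℕ → ℕ → ℕ → ℕ → Bool := onCell 1073741824 536870912 0 1230186008 587336777 62277027
    (rowB 3 eng mog cd0q1 cd6q3 pd2 2 false true true .npn 1 2 3 (qsf 536870912 536870912 0 1230186008 2) ndB0q1 ndB6q3 pcB2 cut_pp_123 Ext.none)

def k0_pp_123 : ∃ t, chk3 f_pp_123 t 16 4 1 = true :=
  ⟨(b (l 6) (b (l 6) (l 3))), by decide +kernel⟩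

def k1_pp_123 : ∃ t, chk3 f_pp_123 t 17 8 1 = true :=
  ⟨(a (l 6) (b (l 16763616) (l 16769240))), by decide +kernel⟩

def k2_pp_123 : ∃ t, chk3 f_pp_123 t 34 9 1 = true :=
  ⟨(b (l 6) (a (l 3) (b (a (l 3) (b (b (a (l 3) (a (b (l 406042195767) (l 3)) (b (l 309405432711) (l 395841649223)))) (l 3)) (l 3))) (l 3)))), by decide +kernel⟩

def k3_pp_123 : ∃ t, chk3 f_pp_123 t 35 18 1 = true :=
  ⟨(a (b (l 16776504) (a (b (l 16802272) (a (b (l 16782816) (l 16794560)) (b (l 16782976) (l 16783512)))) (b (l 16779904) (l 16803016)))) (b (l 16772904) (l 16777864))), by decide +kernel⟩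

def k4_pp_123 : ∃ t, chk3 f_pp_123 t 35 19 1 = true :=
  ⟨(a (b (a (b (b (a (a (b (l 16784296) (l 298131144679)) (b (l 16784336) (l 16784664))) (l 16784824)) (a (a (b (l 384030489959) (l 3)) (b (l 16785184) (l 370071847063))) (a (b (l 16785056) (l 16785560)) (b (l 16785120) (l 16785472))))) (a (a (l 3) (b (b (l 451139354823) (l 3)) (l 3))) (a (b (b (l 335712109527) (l 436106970215)) (l 3)) (b (b (l 16785960) (l 315311019511)) (b (l 416242747431) (l 3)))))) (b (a (b (l 16784272) (l 16785216)) (b (l 16784080) (l 16785088))) (a (a (b (b (l 16785912) (l 16786384)) (b (l 300278635351) (l 395304782823))) (b (b (l 16785960) (l 16786384)) (b (l 16786832) (l 283635638647)))) (a (b (l 16785720) (a (l 16787008) (l 16786872))) (l 16796360))))) (a (l 3) (b (a (a (l 3) (b (b (l 374903689175) (l 3)) (l 3))) (a (b (b (l 16787704) (l 354502595543)) (l 3)) (b (b (l 16787376) (l 16787920)) (b (l 331954010343) (l 414632138855))))) (l 3)))) (b (a (b (l 16803416) (a (b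 (l 16785368) (l 16786152)) (l 16785168))) (b (l 16781328) (l 16783208))) (a (b (a (a (b (b (l 16786928) (l 16787520)) (b (l 16788080) (l 309942305415))) (b (l 16786592) (b (l 16787640) (l 16788216)))) (a (a (b (l 16786600) (l 16787568)) (l 16791888)) (l 16786392))) (b (a (a (b (l 386177981687) (l 3)) (b (l 283098762199) (l 358260695447))) (a (b (l 16788328) (l 16789008)) (b (l 16787808) (l 16788424)))) (a (l 3) (a (b (l 329806537319) (l 3)) (b (l 16789112) (l 301889246727)))))) (b (a (l 16786456) (l 16786080)) (a (a (b (b (l 16787456) (l 16788024)) (b (l 16788608) (l 16789256))) (b (l 16787552) (l 16788600))) (b (l 16787352) (l 16793160))))))), by decide +kernel⟩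

def k5_pp_123 : ∃ t, chk3 f_pp_123 t 8 5 1 = true :=
  ⟨(b (a (l 3) (a (l 3) (b (a (l 3) (b (a (l 3) (b (a (a (b (b (l 281488155479) (l 348060150423)) (l 3)) (b (l 254107743223) (b (l 317458508519) (l 3)))) (a (b (l 16789328) (l 280414420039)) (b (l 16789024) (l 16792632)))) (a (l 3) (a (l 3) (b (l 311552929495) (l 3)))))) (l 3))) (l 3)))) (l 3)), by decide +kernel⟩

def k6_pp_123 : ∃ t, chk3 f_pp_123 t 9 4 1 = true :=
  ⟨(a (b (l 16756592) (a (b (l 16790560) (a (b (l 16779160) (a (b (l 16783976) (a (l 16787424) (l 16786856))) (l 16783048))) (l 16776888))) (b (l 16762840) (l 16790032)))) (b (l 16741616) (b (l 16752760) (a (l 16761040) (l 16753448))))), by decide +kernel⟩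

def k7_pp_123 : ∃ t, chk3 f_pp_123 t 36 10 1 = true :=
  ⟨(b (a (b (a (b (a (b (l 16788280) (a (l 16789720) (l 16789384))) (l 16788120)) (a (a (b (l 291688709591) (l 3)) (b (l 16790240) (l 335712120535))) (a (b (l 16779536) (l 16793424)) (b (l 16789648) (l 16790448))))) (b (a (l 16788064) (l 16787288)) (a (a (b (l 16789392) (l 16790224)) (l 16788992)) (l 16788992)))) (a (b (a (l 3) (b (a (l 353965732967) (l 310479195127)) (l 3))) (l 3)) (b (a (a (b (l 16790872) (l 349670765319)) (b (l 16790648) (l 303499874935))) (a (b (l 16790312) (l 16790912)) (b (l 16789904) (l 16790696)))) (a (a (l 3) (b (l 368461248407) (l 3))) (a (b (l 330880282967) (l 3)) (b (l 16791176) (l 360945054919))))))) (b (a (b (l 16785384) (a (l 16788304) (l 16787320))) (l 16783104)) (a (b (a (b (l 16789392) (l 16794888)) (l 16788920)) (a (a (b (l 16790864) (l 313163551207)) (b (l 16790600) (l 16791040))) (a (b (l 16790112) (l 16790792)) (b (l 16789744) (l 16790384))))) (b (l 16787488)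 (a (b (l 16789056) (c (l 16789504) (l 16767920))) (l 16788440)))))) (a (l 3) (b (a (b (a (b (a (l 380809279623) (l 349133894119)) (l 3)) (a (b (l 16791208) (l 370071860407)) (b (l 16790856) (l 316921646599)))) (l 3)) (b (b (a (a (l 16790576) (l 16790064)) (l 16789384)) (b (a (l 16790672) (l 16789768)) (a (l 16790872) (l 16790112)))) (a (a (b (l 354502602967) (l 3)) (b (l 16791032) (l 379198665431))) (a (b (l 16790624) (l 316384774103)) (b (l 16790280) (l 16790624)))))) (a (l 3) (b (a (l 3) (a (l 3) (b (l 355576350295) (l 3)))) (l 3)))))), by decide +kernel⟩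

def k8_pp_123 : ∃ t, chk3 f_pp_123 t 37 10 1 = true :=
  ⟨(b (a (b (l 16779136) (b (l 16792608) (a (l 16786792) (l 16783768)))) (b (l 16772984) (l 16777648))) (a (b (a (b (l 16788144) (a (b (l 16789432) (l 16790040)) (b (l 16788424) (l 16788856)))) (b (l 16785848) (l 16787216))) (a (b (a (b (l 16790408) (l 351281376375)) (b (l 16789456) (l 16789832))) (a (l 3) (b (l 323900969927) (l 395841662311)))) (b (a (b (l 16788384) (l 16788920)) (l 16787720)) (a (b (l 16789328) (l 288467484871)) (b (l 16788360) (l 16788784)))))) (b (a (b (l 16782680) (l 16784624)) (l 16780160)) (a (b (l 16785912) (a (b (l 16787336) (l 16787688)) (l 16786344))) (b (l 16783040) (l 16784296)))))), by decide +kernel⟩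

def k9_pp_123 : ∃ t, chk3 f_pp_123 t 18 11 1 = true :=
  ⟨(a (l 3) (b (a (b (a (l 3) (b (a (b (l 380809274983) (l 3)) (b (l 16788968) (l 365776895655))) (a (l 3) (b (l 427517043863) (l 3))))) (l 3)) (b (a (b (a (b (l 16788112) (l 16788224)) (b (l 16786928) (l 16787320))) (a (b (l 326585315751) (l 411947785207)) (b (l 16787448) (l 16787560)))) (b (l 16784680) (a (b (l 16786416) (l 16786648)) (l 16784880)))) (a (b (a (l 3) (b (l 395304784727) (l 3))) (l 3)) (b (a (b (l 16786624) (l 373829950807)) (b (l 16785704) (l 16785672))) (a (b (l 437180714423) (l 3)) (b (l 16785688) (l 415705875431))))))) (l 3))), by decide +kernel⟩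

def k10_pp_123 : ∃ t, chk3 f_pp_123 t 19 5 1 = true :=
  ⟨(b (a (b (a (l 16769280) (l 16764024)) (a (b (l 16775184) (a (l 16780064) (l 16776800))) (l 16791432))) (b (l 16757688) (l 16762104))) (a (b (a (b (a (b (l 16782320) (l 16783184)) (l 16779512)) (a (b (a (b (l 16784376) (l 16784632)) (l 16783120)) (a (b (l 16784664) (l 16784592)) (b (l 16783472) (l 16783592)))) (b (l 16780824) (l 16801928)))) (b (a (l 16776088) (l 16772720)) (a (l 16777984) (l 16774648)))) (a (b (a (b (a (b (l 385641105479) (l 457044933655)) (b (l 16783480) (l 16783424))) (a (l 3) (b (l 423758934359) (l 3)))) (b (a (b (l 16782384) (l 16782312)) (b (l 16780928) (l 16781072))) (a (b (l 16782192) (l 382419873223)) (b (l 16781080) (l 16780936))))) (a (l 3) (b (a (b (l 467782346663) (l 3)) (b (l 16780824) (l 429127638615))) (l 3)))) (b (a (b (l 16778864) (a (b (l 16779800) (l 16779864)) (l 16778504))) (l 16775944)) (a (b (a (b (l 16779696) (l 16779496)) (l 16778568)) (a (b (l 16779360)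 (l 482814726263)) (b (l 16778224) (l 16777952)))) (b (l 16797160) (a (l 16777120) (l 16775896))))))) (b (a (b (l 16768184) (a (l 16771320) (l 16768232))) (l 16763360)) (a (b (a (l 16772552) (l 16769288)) (a (l 16773448) (l 16769944))) (b (a (l 16766272) (l 16763592)) (a (l 16766680) (l 16763712))))))), by decide +kernel⟩

def k11_pp_123 : ∃ t, chk3 f_pp_123 t 5 2 1 = true :=
  ⟨(b (a (a (a (b (l 16728712) (l 16744208)) (b (l 16722096) (a (l 16739472) (l 16739008)))) (b (l 16708648) (l 16730752))) (b (l 16696632) (l 16721072))) (a (a (a (b (b (l 16751552) (l 16754312)) (b (l 16756568) (a (b (l 16759944) (a (l 16761256) (l 16759064))) (l 16755672)))) (b (a (l 16812104) (b (l 16748680) (a (l 16750784) (l 16752416)))) (a (l 16920128) (a (l 16835440) (a (b (l 16753152) (l 16752544)) (b (l 16713216) (l 16754304))))))) (b (l 16744656) (b (l 16752456) (l 16721128)))) (b (l 16740032) (b (l 16752568) (l 16758200))))), by decide +kernel⟩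

def k12_pp_123 : ∃ t, chk3 f_pp_123 t 3 2 1 = true :=
  ⟨(a (b (a (b (l 16691800) (l 16715872)) (l 16705688)) (a (b (l 16738672) (l 16765512)) (b (l 16743312) (l 16773096)))) (b (a (l 16716312) (l 16719592)) (a (b (l 16748072) (l 16773920)) (b (l 16753952) (l 16769160))))), by decide +kernel⟩

def k13_pp_123 : ∃ t, chk3 f_pp_123 t 4 6 1 = true :=
  ⟨(a (l 3) (a (l 3) (b (a (b (a (l 3) (b (a (b (a (l 3) (b (l 443623145783) (l 3))) (l 3)) (b (a (l 346449512167) (l 16775480)) (a (l 510732007079) (l 371145572327)))) (a (l 3) (a (l 3) (b (l 486572813111) (l 3)))))) (l 3)) (a (b (b (a (b (a (l 16774376) (l 16772952)) (a (l 16773696) (l 16772736))) (b (l 16770424) (a (l 16771400) (l 16769768)))) (a (a (b (b (l 16773088) (l 16773344)) (l 3)) (b (l 16772240) (l 16772912))) (b (a (l 16771392) (l 16770184)) (a (l 16771936) (l 16771176))))) (a (l 3) (b (b (l 496773390023) (l 488720331447)) (l 3)))) (b (b (a (l 16767032) (l 16763744)) (a (b (l 16767792) (l 16769080))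 (l 16765224))) (b (a (a (l 16793392) (l 16771152)) (l 16811040)) (a (l 122574403319) (b (l 16772496) (l 16774280))))))) (a (l 3) (b (a (l 3) (b (a (l 3) (b (l 16776168) (l 16777936))) (l 3))) (l 3)))))), by decide +kernel⟩

def k14_pp_123 : ∃ t, chk3 f_pp_123 t 5 6 1 = true :=
  ⟨(a (a (a (b (a (b (b (a (l 16760968) (l 16758760)) (a (l 16761984) (l 16759472))) (b (a (l 16766184) (l 16762976)) (a (b (l 16769720) (l 16772040)) (l 16767792)))) (b (b (l 16756104) (a (l 16757640) (l 16756248))) (b (a (l 16760448) (l 16758800)) (a (l 16764224) (l 16761600))))) (a (b (b (a (b (l 16773984) (l 16775424)) (a (a (l 16773368) (l 16772696)) (l 16750216))) (a (b (l 16797736) (l 16758000)) (a (l 16754208) (b (l 16773648) (l 16773936))))) (b (a (l 3) (b (l 71034693415) (l 86067079815))) (l 3))) (b (b (a (l 16768328) (l 16764600)) (a (b (l 16791624) (l 16750432)) (l 16766944))) (b (a (b (l 16750224) (l 16769928)) (a (l 16746712) (l 16765384))) (a (a (l 16746480) (l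 16765312)) (l 16741264)))))) (b (a (a (b (l 16754432) (l 16758784)) (b (l 16753224) (l 16757960))) (b (a (l 16752552) (a (l 16752952) (l 16691392))) (a (b (l 16756008) (l 16758480)) (a (l 16757136) (l 16736920))))) (a (b (b (a (l 16761912) (l 16760264)) (a (l 16763016) (l 16760192))) (a (b (l 16761880) (a (l 16758912) (l 16756352))) (b (l 16757824) (l 16752736)))) (b (a (b (l 16759832) (l 16758960)) (a (b (l 16759880) (l 16759272)) (a (a (a (l 16759920) (l 16739584)) (l 16760360)) (l 16759864)))) (a (b (l 16755512) (l 16749344)) (a (b (l 16755464) (l 16748608)) (a (a (a (l 16753192) (b (l 16736160) (l 16750176))) (l 16754232)) (l 16753328)))))))) (b (b (l 16667088) (l 16751728)) (b (a (l 16754600) (l 16746256)) (a (l 16746640) (l 16736176))))) (b (b (l 16757416) (l 16747984)) (b (l 16737312) (l 16784568)))), by decide +kernel⟩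

def k15_pp_123 : ∃ t, chk3 f_pp_123 t 3 6 1 = true :=
  ⟨(a (b (a (b (l 16765376) (l 16761496)) (b (l 16774584) (l 16771072))) (a (b (l 16875240) (l 109555625479)) (b (l 16764608) (l 1)))) (b (a (l 339873380711) (l 1)) (l 1))), by decide +kernel⟩

def k16_pp_123 : ∃ t, chk3 f_pp_123 t 1 7 1 = true :=
  ⟨(a (a (l 3) (a (a (a (b (a (l 3) (a (l 3) (b (b (l 16736720) (l 16730040)) (l 3)))) (l 3)) (b (a (b (a (b (a (l 16754328) (l 16751744)) (a (l 16747176) (l 16744496))) (b (a (l 16749048) (l 16746536)) (a (l 16741840) (l 16739056)))) (a (b (a (l 3) (l 16731416)) (l 3)) (b (a (l 16728544) (l 16725736)) (a (l 16708832) (l 16705904))))) (b (a (b (l 16743416) (l 16735192)) (a (b (l 16741608) (l 16732584)) (b (b (l 16722816) (l 16719080)) (b (l 16714224) (l 16708072))))) (a (b (a (l 16701848) (l 16720160)) (a (l 16682072) (l 16679144))) (a (b (l 16718200) (l 16697872)) (a (a (a (l 16728840) (b (l 16696936) (l 16697368))) (l 16708008)) (l 16707144)))))) (l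 1))) (b (b (b (l 16728192) (l 16716664)) (b (l 16700816) (l 16667880))) (l 1))) (b (b (a (l 16703872) (l 16694248)) (l 1)) (l 1)))) (l 1)), by decide +kernel⟩

theorem s17_pp_123 : ∃ t, chk3 f_pp_123 t 2 6 1 = true := ex3_a k13_pp_123 k14_pp_123

theorem s18_pp_123 : ∃ t, chk3 f_pp_123 t 1 6 1 = true := ex3_a s17_pp_123 k15_pp_123

theorem s19_pp_123 : ∃ t, chk3 f_pp_123 t 1 3 1 = true := ex3_b s18_pp_123 k16_pp_123

theorem s20_pp_123 : ∃ t, chk3 f_pp_123 t 18 10 1 = true := ex3_a k7_pp_123 k8_pp_123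

theorem s21_pp_123 : ∃ t, chk3 f_pp_123 t 18 5 1 = true := ex3_b s20_pp_123 k9_pp_123

theorem s22_pp_123 : ∃ t, chk3 f_pp_123 t 9 5 1 = true := ex3_a s21_pp_123 k10_pp_123

theorem s23_pp_123 : ∃ t, chk3 f_pp_123 t 9 2 1 = true := ex3_b k6_pp_123 s22_pp_123

theorem s24_pp_123 : ∃ t, chk3 f_pp_123 t 35 9 1 = true := ex3_b k3_pp_123 k4_pp_123

theorem s25_pp_123 : ∃ t, chk3 f_pp_123 t 17 9 1 = true := ex3_a k2_pp_123 s24_pp_123

theorem s26_pp_123 : ∃ t, chk3 f_pp_123 t 17 4 1 = true := ex3_b k1_pp_123 s25_pp_123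

theorem s27_pp_123 : ∃ t, chk3 f_pp_123 t 8 4 1 = true := ex3_a k0_pp_123 s26_pp_123

theorem s28_pp_123 : ∃ t, chk3 f_pp_123 t 8 2 1 = true := ex3_b s27_pp_123 k5_pp_123

theorem s29_pp_123 : ∃ t, chk3 f_pp_123 t 4 2 1 = true := ex3_a s28_pp_123 s23_pp_123

theorem s30_pp_123 : ∃ t, chk3 f_pp_123 t 2 2 1 = true := ex3_a s29_pp_123 k11_pp_123

theorem s31_pp_123 : ∃ t, chk3 f_pp_123 t 1 2 1 = true := ex3_a s30_pp_123 k12_pp_123

theorem s32_pp_123 : ∃ t, chk3 f_pp_123 t 1 1 1 = true := ex3_b s31_pp_123 s19_pp_123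

theorem c_pp_123 : CertB 536870912 536870912 0 1230186008 587336777 62277027 3 eng mog cd0q1 cd6q3 pd2 false true true .npn 1 2 3
    ndB0q1 ndB6q3 pcB2 cut_pp_123 Ext.none :=
  certB2 (fam := false) (s1 := true) (s2 := true) (a := 1) (b := 2) (c := 3) (cn := .npn) (n1 := ndB0q1) (n2 := ndB6q3) (pc := pcB2) (cut := cut_pp_123) (xt := Ext.none) (P1 := 536870912) (W1 := 536870912) (P2 := 0) (W2 := 1230186008) (P3 := 587336777) (W3 := 62277027) (N0 := 3) (En := eng) (mo := mog) (C1 := cd0q1) (C2 := cd6q3) (C3 := pd2)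
    rfl (fun _ => rfl) s32_pp_123

noncomputable def f_pp_133 : ℕ → ℕ → ℕ → ℕ → Bool := onCell 536870912 536870912 0 1230186008 587336777 62277027
    (rowB 3 eng mog cd0q1 cd6q3 pd3 0 false true true .dn 1 3 3 (qsf 536870912 536870912 0 1230186008 3) ndB0q1 ndB6q3 pcB3 Cut.none Ext.none)

def k0_pp_133 : ∃ t, chk3 f_pp_133 t 1 1 1 = true :=
  ⟨(b (b (a (a (a (b (l 16749928) (l 1)) (l 1)) (l 1)) (l 1)) (l 1)) (l 1)), by decide +kernel⟩

theorem c_pp_133 : CertB 536870912 536870912 0 1230186008 587336777 62277027 3 eng mog cd0q1 cd6q3 pd3 false true true .dn 1 3 3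
    ndB0q1 ndB6q3 pcB3 Cut.none Ext.none :=
  certB0 (fam := false) (s1 := true) (s2 := true) (a := 1) (b := 3) (c := 3) (cn := .dn) (n1 := ndB0q1) (n2 := ndB6q3) (pc := pcB3) (cut := Cut.none) (xt := Ext.none) (P1 := 536870912) (W1 := 536870912) (P2 := 0) (W2 := 1230186008) (P3 := 587336777) (W3 := 62277027) (N0 := 3) (En := eng) (mo := mog) (C1 := cd0q1) (C2 := cd6q3) (C3 := pd3)
    rfl k0_pp_133

noncomputable def f_pp_202 : ℕ → ℕ → ℕ → ℕ → Bool := onCell 0 536870912 1073741824 536870912 587336777 62277027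
    (rowB 3 eng mog cd0q2 cd6q2 pd0 0 false true true .pp 2 0 2 (qsf 0 536870912 1073741824 536870912 0) ndB0q2 ndB6q2 pcB0 Cut.none Ext.none)

def k0_pp_202 : ∃ t, chk3 f_pp_202 t 1 1 1 = true :=
  ⟨(l 5), by decide +kernel⟩

theorem c_pp_202 : CertB 0 536870912 1073741824 536870912 587336777 62277027 3 eng mog cd0q2 cd6q2 pd0 false true true .pp 2 0 2
    ndB0q2 ndB6q2 pcB0 Cut.none Ext.none :=
  certB0 (fam := false) (s1 := true) (s2 := true) (a := 2) (b := 0) (c := 2) (cn := .pp) (n1 := ndB0q2) (n2 := ndB6q2) (pc := pcB0) (cut := Cut.none) (xt := Ext.none) (P1 := 0) (W1 := 536870912) (P2 := 1073741824) (W2 := 536870912) (P3 := 587336777) (W3 := 62277027) (N0 := 3) (En := eng) (mo := mog) (C1 := cd0q2) (C2 := cd6q2) (C3 := pd0)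
    rfl k0_pp_202

noncomputable def f_pp_203 : ℕ → ℕ → ℕ → ℕ → Bool := onCell 0 536870912 0 1230186008 587336777 62277027
    (rowB 3 eng mog cd0q2 cd6q3 pd0 0 false true true .up 2 0 3 (qsf 0 536870912 0 1230186008 0) ndB0q2 ndB6q3 pcB0 Cut.none Ext.none)

def k0_pp_203 : ∃ t, chk3 f_pp_203 t 1 1 1 = true :=
  ⟨(b (l 2) (b (l 2) (a (l 3) (l 3)))), by decide +kernel⟩

theorem c_pp_203 : CertB 0 536870912 0 1230186008 587336777 62277027 3 eng mog cd0q2 cd6q3 pd0 false true true .up 2 0 3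
    ndB0q2 ndB6q3 pcB0 Cut.none Ext.none :=
  certB0 (fam := false) (s1 := true) (s2 := true) (a := 2) (b := 0) (c := 3) (cn := .up) (n1 := ndB0q2) (n2 := ndB6q3) (pc := pcB0) (cut := Cut.none) (xt := Ext.none) (P1 := 0) (W1 := 536870912) (P2 := 0) (W2 := 1230186008) (P3 := 587336777) (W3 := 62277027) (N0 := 3) (En := eng) (mo := mog) (C1 := cd0q2) (C2 := cd6q3) (C3 := pd0)
    rfl k0_pp_203

noncomputable def cut_pp_213 : Cut := Cut.of [[⟨0, 1, 0, 67108864⟩, ⟨1, 1, 0, 67108864⟩, ⟨2, 2, 0, 16777216⟩]]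

noncomputable def f_pp_213 : ℕ → ℕ → ℕ → ℕ → Bool := onCell 0 536870912 0 1230186008 587336777 62277027
    (rowB 3 eng mog cd0q2 cd6q3 pd1 0 false true true .pnn 2 1 3 (qsf 0 536870912 0 1230186008 1) ndB0q2 ndB6q3 pcB1 cut_pp_213 Ext.none)

def k0_pp_213 : ∃ t, chk3 f_pp_213 t 1 1 1 = true :=
  ⟨(b (a (l 3) (a (l 3) (b (a (l 3) (b (l 6) (l 3))) (l 3)))) (b (l 3) (a (l 3) (l 3)))), by decide +kernel⟩

theorem c_pp_213 : CertB 0 536870912 0 1230186008 587336777 62277027 3 eng mog cd0q2 cd6q3 pd1 false true true .pnn 2 1 3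
    ndB0q2 ndB6q3 pcB1 cut_pp_213 Ext.none :=
  certB0 (fam := false) (s1 := true) (s2 := true) (a := 2) (b := 1) (c := 3) (cn := .pnn) (n1 := ndB0q2) (n2 := ndB6q3) (pc := pcB1) (cut := cut_pp_213) (xt := Ext.none) (P1 := 0) (W1 := 536870912) (P2 := 0) (W2 := 1230186008) (P3 := 587336777) (W3 := 62277027) (N0 := 3) (En := eng) (mo := mog) (C1 := cd0q2) (C2 := cd6q3) (C3 := pd1)
    rfl k0_pp_213

noncomputable def f_pm_001 : ℕ → ℕ → ℕ → ℕ → Bool := onCell 0 536870912 536870912 536870912 587336777 62277027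
    (rowB 3 eng mog cd0q0 cd6q1 pd0 0 false true false .up 0 0 1 (qsf 0 536870912 536870912 536870912 0) ndB0q0 ndB6q1 pcB0 Cut.none Ext.none)

def k0_pm_001 : ∃ t, chk3 f_pm_001 t 1 1 1 = true :=
  ⟨(l 4), by decide +kernel⟩

theorem c_pm_001 : CertB 0 536870912 536870912 536870912 587336777 62277027 3 eng mog cd0q0 cd6q1 pd0 false true false .up 0 0 1
    ndB0q0 ndB6q1 pcB0 Cut.none Ext.none :=
  certB0 (fam := false) (s1 := true) (s2 := false) (a := 0) (b := 0) (c := 1) (cn := .up) (n1 := ndB0q0) (n2 := ndB6q1) (pc := pcB0) (cut := Cut.none) (xt := Ext.none) (P1 := 0) (W1 := 536870912) (P2 := 536870912) (W2 := 536870912) (P3 := 587336777) (W3 := 62277027) (N0 := 3) (En := eng) (mo := mog) (C1 := cd0q0) (C2 := cd6q1) (C3 := pd0)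
    rfl k0_pm_001

noncomputable def f_pm_011 : ℕ → ℕ → ℕ → ℕ → Bool := onCell 0 536870912 536870912 536870912 587336777 62277027
    (rowB 3 eng mog cd0q0 cd6q1 pd1 0 false true false .pnn 0 1 1 (qsf 0 536870912 536870912 536870912 1) ndB0q0 ndB6q1 pcB1 Cut.none Ext.none)

def k0_pm_011 : ∃ t, chk3 f_pm_011 t 1 1 1 = true :=
  ⟨(l 4), by decide +kernel⟩

theorem c_pm_011 : CertB 0 536870912 536870912 536870912 587336777 62277027 3 eng mog cd0q0 cd6q1 pd1 false true false .pnn 0 1 1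
    ndB0q0 ndB6q1 pcB1 Cut.none Ext.none :=
  certB0 (fam := false) (s1 := true) (s2 := false) (a := 0) (b := 1) (c := 1) (cn := .pnn) (n1 := ndB0q0) (n2 := ndB6q1) (pc := pcB1) (cut := Cut.none) (xt := Ext.none) (P1 := 0) (W1 := 536870912) (P2 := 536870912) (W2 := 536870912) (P3 := 587336777) (W3 := 62277027) (N0 := 3) (En := eng) (mo := mog) (C1 := cd0q0) (C2 := cd6q1) (C3 := pd1)
    rfl k0_pm_011

noncomputable def f_pm_012 : ℕ → ℕ → ℕ → ℕ → Bool := onCell 0 536870912 1073741824 536870912 587336777 62277027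
    (rowB 3 eng mog cd0q0 cd6q2 pd1 0 false true false .pnp 0 1 2 (qsf 0 536870912 1073741824 536870912 1) ndB0q0 ndB6q2 pcB1 Cut.none Ext.none)

def k0_pm_012 : ∃ t, chk3 f_pm_012 t 1 1 1 = true :=
  ⟨(l 4), by decide +kernel⟩

theorem c_pm_012 : CertB 0 536870912 1073741824 536870912 587336777 62277027 3 eng mog cd0q0 cd6q2 pd1 false true false .pnp 0 1 2
    ndB0q0 ndB6q2 pcB1 Cut.none Ext.none :=
  certB0 (fam := false) (s1 := true) (s2 := false) (a := 0) (b := 1) (c := 2) (cn := .pnp) (n1 := ndB0q0) (n2 := ndB6q2) (pc := pcB1) (cut := Cut.none) (xt := Ext.none) (P1 := 0) (W1 := 536870912) (P2 := 1073741824) (W2 := 536870912) (P3 := 587336777) (W3 := 62277027) (N0 := 3) (En := eng) (mo := mog) (C1 := cd0q0) (C2 := cd6q2) (C3 := pd1)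
    rfl k0_pm_012

noncomputable def f_pm_022 : ℕ → ℕ → ℕ → ℕ → Bool := onCell 0 536870912 1073741824 536870912 587336777 62277027
    (rowB 3 eng mog cd0q0 cd6q2 pd2 0 false true false .pp 0 2 2 (qsf 0 536870912 1073741824 536870912 2) ndB0q0 ndB6q2 pcB2 Cut.none Ext.none)

def k0_pm_022 : ∃ t, chk3 f_pm_022 t 1 1 1 = true :=
  ⟨(l 4), by decide +kernel⟩

theorem c_pm_022 : CertB 0 536870912 1073741824 536870912 587336777 62277027 3 eng mog cd0q0 cd6q2 pd2 false true false .pp 0 2 2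
    ndB0q0 ndB6q2 pcB2 Cut.none Ext.none :=
  certB0 (fam := false) (s1 := true) (s2 := false) (a := 0) (b := 2) (c := 2) (cn := .pp) (n1 := ndB0q0) (n2 := ndB6q2) (pc := pcB2) (cut := Cut.none) (xt := Ext.none) (P1 := 0) (W1 := 536870912) (P2 := 1073741824) (W2 := 536870912) (P3 := 587336777) (W3 := 62277027) (N0 := 3) (En := eng) (mo := mog) (C1 := cd0q0) (C2 := cd6q2) (C3 := pd2)
    rfl k0_pm_022

noncomputable def f_pm_023 : ℕ → ℕ → ℕ → ℕ → Bool := onCell 0 536870912 0 1230186008 587336777 62277027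
    (rowB 3 eng mog cd0q0 cd6q3 pd2 0 false true false .up 0 2 3 (qsf 0 536870912 0 1230186008 2) ndB0q0 ndB6q3 pcB2 Cut.none Ext.none)

def k0_pm_023 : ∃ t, chk3 f_pm_023 t 1 1 1 = true :=
  ⟨(a (b (l 2) (l 4)) (b (a (l 2) (a (b (l 2) (l 4)) (b (l 16805576) (a (l 115662363367) (l 111904259639))))) (l 4))), by decide +kernel⟩

theorem c_pm_023 : CertB 0 536870912 0 1230186008 587336777 62277027 3 eng mog cd0q0 cd6q3 pd2 false true false .up 0 2 3
    ndB0q0 ndB6q3 pcB2 Cut.none Ext.none :=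
  certB0 (fam := false) (s1 := true) (s2 := false) (a := 0) (b := 2) (c := 3) (cn := .up) (n1 := ndB0q0) (n2 := ndB6q3) (pc := pcB2) (cut := Cut.none) (xt := Ext.none) (P1 := 0) (W1 := 536870912) (P2 := 0) (W2 := 1230186008) (P3 := 587336777) (W3 := 62277027) (N0 := 3) (En := eng) (mo := mog) (C1 := cd0q0) (C2 := cd6q3) (C3 := pd2)
    rfl k0_pm_023

noncomputable def f_pm_033 : ℕ → ℕ → ℕ → ℕ → Bool := onCell 1610612736 536870912 0 1230186008 587336777 62277027
    (rowB 3 eng mog cd0q0 cd6q3 pd3 2 false true false .pnn 0 3 3 (qsf 0 536870912 0 1230186008 3) ndB0q0 ndB6q3 pcB3 Cut.none Ext.none)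

def k0_pm_033 : ∃ t, chk3 f_pm_033 t 1 1 1 = true :=
  ⟨(b (a (a (a (b (b (l 16687312) (l 16672792)) (l 16657768)) (b (l 16840664) (l 4))) (b (a (l 16654024) (l 4)) (l 4))) (l 4)) (l 4)), by decide +kernel⟩

theorem c_pm_033 : CertB 0 536870912 0 1230186008 587336777 62277027 3 eng mog cd0q0 cd6q3 pd3 false true false .pnn 0 3 3
    ndB0q0 ndB6q3 pcB3 Cut.none Ext.none :=
  certB2 (fam := false) (s1 := true) (s2 := false) (a := 0) (b := 3) (c := 3) (cn := .pnn) (n1 := ndB0q0) (n2 := ndB6q3) (pc := pcB3) (cut := Cut.none) (xt := Ext.none) (P1 := 0) (W1 := 536870912) (P2 := 0) (W2 := 1230186008) (P3 := 587336777) (W3 := 62277027) (N0 := 3) (En := eng) (mo := mog) (C1 := cd0q0) (C2 := cd6q3) (C3 := pd3)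
    rfl (fun _ => rfl) k0_pm_033

noncomputable def f_pm_101 : ℕ → ℕ → ℕ → ℕ → Bool := onCell 536870912 536870912 536870912 536870912 587336777 62277027
    (rowB 3 eng mog cd0q1 cd6q1 pd0 0 false true false .npn 1 0 1 (qsf 536870912 536870912 536870912 536870912 0) ndB0q1 ndB6q1 pcB0 Cut.none Ext.none)

def k0_pm_101 : ∃ t, chk3 f_pm_101 t 1 1 1 = true :=
  ⟨(l 4), by decide +kernel⟩

theorem c_pm_101 : CertB 536870912 536870912 536870912 536870912 587336777 62277027 3 eng mog cd0q1 cd6q1 pd0 false true false .npn 1 0 1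
    ndB0q1 ndB6q1 pcB0 Cut.none Ext.none :=
  certB0 (fam := false) (s1 := true) (s2 := false) (a := 1) (b := 0) (c := 1) (cn := .npn) (n1 := ndB0q1) (n2 := ndB6q1) (pc := pcB0) (cut := Cut.none) (xt := Ext.none) (P1 := 536870912) (W1 := 536870912) (P2 := 536870912) (W2 := 536870912) (P3 := 587336777) (W3 := 62277027) (N0 := 3) (En := eng) (mo := mog) (C1 := cd0q1) (C2 := cd6q1) (C3 := pd0)
    rfl k0_pm_101

noncomputable def f_pm_102 : ℕ → ℕ → ℕ → ℕ → Bool := onCell 536870912 536870912 0 536870912 587336777 62277027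
    (rowB 3 eng mog cd0q1 cd6q2 pd0 1 false true false .npp 1 0 2 (qsf 536870912 536870912 1073741824 536870912 0) ndB0q1 ndB6q2 pcB0 Cut.none Ext.none)

def k0_pm_102 : ∃ t, chk3 f_pm_102 t 1 1 1 = true :=
  ⟨(a (l 4) (b (a (l 4) (b (a (l 4) (b (a (l 4) (b (a (b (a (l 1) (b (l 1) (l 314101896151))) (a (l 116734779303) (b (l 16254864) (l 16264736)))) (b (c (l 169146915607) (l 173978521367)) (b (l 16292552) (l 16302904)))) (a (b (a (l 16257160) (l 16279752)) (l 16287696)) (b (l 16317952) (l 16337856))))) (a (a (l 4) (b (b (l 16265208) (l 16282168)) (l 16308280))) (b (b (l 16331648) (l 16350592)) (l 16378280))))) (b (a (l 4) (b (a (a (l 16303768) (l 16342840)) (l 16414104)) (a (l 16356800) (l 16450488)))) (a (a (l 4) (l 160758891671)) (a (b (l 16391032) (l 16433432)) (l 16520368)))))) (b (a (l 4) (b (a (a (l 4) (l 16406784)) (a (l 16507816) (l 16624312))) (a (l 16465696) (a (l 16607168) (b (l 16694576) (l 16755256)))))) (a (b (l 4) (a (l 4) (l 16435952)))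 (b (a (b (l 16527616) (l 16566616)) (a (b (l 16688040) (l 16737536)) (l 16853536))) (a (a (l 16581392) (l 16690184)) (b (a (l 16785880) (l 16928352)) (a (l 16830752) (l 16963136))))))))), by decide +kernel⟩

theorem c_pm_102 : CertB 536870912 536870912 1073741824 536870912 587336777 62277027 3 eng mog cd0q1 cd6q2 pd0 false true false .npp 1 0 2
    ndB0q1 ndB6q2 pcB0 Cut.none Ext.none :=
  certB1 (fam := false) (s1 := true) (s2 := false) (a := 1) (b := 0) (c := 2) (cn := .npp) (n1 := ndB0q1) (n2 := ndB6q2) (pc := pcB0) (cut := Cut.none) (xt := Ext.none) (P1 := 536870912) (W1 := 536870912) (P2 := 1073741824) (W2 := 536870912) (P3 := 587336777) (W3 := 62277027) (N0 := 3) (En := eng) (mo := mog) (C1 := cd0q1) (C2 := cd6q2) (C3 := pd0)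
    rfl (fun _ => rfl) k0_pm_102

noncomputable def f_pm_112 : ℕ → ℕ → ℕ → ℕ → Bool := onCell 536870912 536870912 1073741824 536870912 587336777 62277027
    (rowB 3 eng mog cd0q1 cd6q2 pd1 2 false true false .dn 1 1 2 (qsf 536870912 536870912 1073741824 536870912 1) ndB0q1 ndB6q2 pcB1 Cut.none Ext.none)

def k0_pm_112 : ∃ t, chk3 f_pm_112 t 1 1 1 = true :=
  ⟨(a (b (l 4) (a (b (a (b (l 4) (l 16411848)) (l 4)) (a (b (l 16633720) (l 16835848)) (b (l 16505832) (l 16711112)))) (b (l 4) (a (b (l 4) (l 16591320)) (l 4))))) (l 4)), by decide +kernel⟩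

theorem c_pm_112 : CertB 536870912 536870912 1073741824 536870912 587336777 62277027 3 eng mog cd0q1 cd6q2 pd1 false true false .dn 1 1 2
    ndB0q1 ndB6q2 pcB1 Cut.none Ext.none :=
  certB2 (fam := false) (s1 := true) (s2 := false) (a := 1) (b := 1) (c := 2) (cn := .dn) (n1 := ndB0q1) (n2 := ndB6q2) (pc := pcB1) (cut := Cut.none) (xt := Ext.none) (P1 := 536870912) (W1 := 536870912) (P2 := 1073741824) (W2 := 536870912) (P3 := 587336777) (W3 := 62277027) (N0 := 3) (En := eng) (mo := mog) (C1 := cd0q1) (C2 := cd6q2) (C3 := pd1)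
    rfl (fun _ => rfl) k0_pm_112

noncomputable def cut_pm_113 : Cut := Cut.of [[⟨0, 1, 0, 67108864⟩, ⟨1, 1, 0, 67108864⟩, ⟨2, 2, 0, 16777216⟩]]

noncomputable def f_pm_113 : ℕ → ℕ → ℕ → ℕ → Bool := onCell 536870912 536870912 0 1230186008 587336777 62277027
    (rowB 3 eng mog cd0q1 cd6q3 pd1 0 false true false .nn 1 1 3 (qsf 536870912 536870912 0 1230186008 1) ndB0q1 ndB6q3 pcB1 cut_pm_113 Ext.none)

def k0_pm_113 : ∃ t, chk3 f_pm_113 t 1 1 1 = true :=
  ⟨(b (a (l 2) (a (l 2) (a (b (l 2) (b (l 16766984) (a (l 16767304) (l 16785384)))) (b (a (l 2) (b (l 6) (b (l 6) (l 16783336)))) (b (a (l 16786352) (l 16901632)) (l 16817736)))))) (b (a (a (l 2) (b (l 2) (a (l 2) (b (l 2) (l 247060946327))))) (a (b (a (l 2) (l 175657875431)) (a (b (l 16716520) (l 16611648)) (b (l 16714800) (l 16706664)))) (a (b (l 16806760) (b (l 16786328) (l 16786912))) (b (b (l 16839392) (l 16851960)) (b (l 16853736) (l 16865624)))))) (a (a (l 4) (b (a (l 4) (b (b (l 242766243703)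 (l 220754511591)) (b (l 16639424) (l 16462232)))) (l 4))) (a (b (a (b (l 16590056) (a (l 16542160) (l 16598120))) (b (l 16693272) (l 16682256))) (b (a (a (l 16535920) (l 16593752)) (b (l 16683416) (l 16682056))) (a (l 16561896) (l 16679808)))) (b (a (b (l 16788624) (l 16794968)) (b (l 16879288) (l 16892392))) (a (b (l 16795408) (l 16803232)) (b (l 16912008) (l 16912000)))))))), by decide +kernel⟩

theorem c_pm_113 : CertB 536870912 536870912 0 1230186008 587336777 62277027 3 eng mog cd0q1 cd6q3 pd1 false true false .nn 1 1 3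
    ndB0q1 ndB6q3 pcB1 cut_pm_113 Ext.none :=
  certB0 (fam := false) (s1 := true) (s2 := false) (a := 1) (b := 1) (c := 3) (cn := .nn) (n1 := ndB0q1) (n2 := ndB6q3) (pc := pcB1) (cut := cut_pm_113) (xt := Ext.none) (P1 := 536870912) (W1 := 536870912) (P2 := 0) (W2 := 1230186008) (P3 := 587336777) (W3 := 62277027) (N0 := 3) (En := eng) (mo := mog) (C1 := cd0q1) (C2 := cd6q3) (C3 := pd1)
    rfl k0_pm_113

noncomputable def cut_pm_123 : Cut := Cut.of [[⟨0, 1, 0, 67108864⟩, ⟨1, 1, 0, 67108864⟩, ⟨2, 2, 0, 16777216⟩]]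

noncomputable def f_pm_123 : ℕ → ℕ → ℕ → ℕ → Bool := onCell 1073741824 536870912 0 1230186008 587336777 62277027
    (rowB 3 eng mog cd0q1 cd6q3 pd2 2 false true false .npn 1 2 3 (qsf 536870912 536870912 0 1230186008 2) ndB0q1 ndB6q3 pcB2 cut_pm_123 Ext.none)

def k0_pm_123 : ∃ t, chk3 f_pm_123 t 1 1 1 = true :=
  ⟨(b (a (a (a (b (b (a (l 6) (l 16799600)) (a (l 16766144) (l 16748032))) (b (a (l 16764888) (l 16737104)) (b (l 16741224) (l 16728792)))) (b (b (a (l 16741880) (l 16722808)) (l 16714688)) (b (l 16694920) (b (l 16673176) (l 16694664))))) (b (a (a (a (b (l 16706632) (l 16683800)) (a (l 16686424) (l 16681672))) (b (l 16682336) (l 16659576))) (b (l 16675552) (l 16654232))) (a (b (l 16644248) (b (l 16619960) (l 16731368))) (b (l 16629024) (a (l 16604024) (l 16604992)))))) (a (b (a (l 16662248) (b (l 16676776) (l 16656968))) (a (b (l 16630168) (l 16608064)) (b (l 16641184) (a (l 16613736) (l 16619128))))) (b (a (l 16675056) (l 16692960)) (a (b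 (l 16652240) (l 16669360)) (l 16878157799))))) (b (a (a (b (a (b (a (l 16728016) (l 16683536)) (a (l 16691760) (l 16641672))) (b (a (l 16644984) (l 16612608)) (l 16591312))) (a (b (a (l 16628432) (l 16586352)) (a (l 16551552) (l 16516408))) (b (a (l 16553536) (l 16532760)) (a (l 16496080) (l 16482360))))) (b (a (a (l 16578128) (l 16671664)) (b (l 16578424) (l 16551416))) (b (a (a (l 16522448) (l 16517032)) (l 4)) (l 4)))) (a (b (a (a (l 16568352) (l 16570872)) (a (l 16574984) (l 4))) (l 4)) (l 4))) (a (a (b (a (b (a (a (l 16464760) (l 16450664)) (l 16438232)) (l 4)) (l 4)) (l 4)) (l 4)) (l 1)))), by decide +kernel⟩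

theorem c_pm_123 : CertB 536870912 536870912 0 1230186008 587336777 62277027 3 eng mog cd0q1 cd6q3 pd2 false true false .npn 1 2 3
    ndB0q1 ndB6q3 pcB2 cut_pm_123 Ext.none :=
  certB2 (fam := false) (s1 := true) (s2 := false) (a := 1) (b := 2) (c := 3) (cn := .npn) (n1 := ndB0q1) (n2 := ndB6q3) (pc := pcB2) (cut := cut_pm_123) (xt := Ext.none) (P1 := 536870912) (W1 := 536870912) (P2 := 0) (W2 := 1230186008) (P3 := 587336777) (W3 := 62277027) (N0 := 3) (En := eng) (mo := mog) (C1 := cd0q1) (C2 := cd6q3) (C3 := pd2)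
    rfl (fun _ => rfl) k0_pm_123

noncomputable def f_pm_133 : ℕ → ℕ → ℕ → ℕ → Bool := onCell 536870912 536870912 0 1230186008 587336777 62277027
    (rowB 3 eng mog cd0q1 cd6q3 pd3 0 false true false .dn 1 3 3 (qsf 536870912 536870912 0 1230186008 3) ndB0q1 ndB6q3 pcB3 Cut.none Ext.none)

def k0_pm_133 : ∃ t, chk3 f_pm_133 t 1 1 1 = true :=
  ⟨(b (b (a (a (a (b (l 16714280) (l 1)) (l 1)) (l 1)) (l 1)) (l 1)) (l 1)), by decide +kernel⟩

theorem c_pm_133 : CertB 536870912 536870912 0 1230186008 587336777 62277027 3 eng mog cd0q1 cd6q3 pd3 false true false .dn 1 3 3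
    ndB0q1 ndB6q3 pcB3 Cut.none Ext.none :=
  certB0 (fam := false) (s1 := true) (s2 := false) (a := 1) (b := 3) (c := 3) (cn := .dn) (n1 := ndB0q1) (n2 := ndB6q3) (pc := pcB3) (cut := Cut.none) (xt := Ext.none) (P1 := 536870912) (W1 := 536870912) (P2 := 0) (W2 := 1230186008) (P3 := 587336777) (W3 := 62277027) (N0 := 3) (En := eng) (mo := mog) (C1 := cd0q1) (C2 := cd6q3) (C3 := pd3)
    rfl k0_pm_133

noncomputable def f_pm_202 : ℕ → ℕ → ℕ → ℕ → Bool := onCell 0 536870912 0 536870912 587336777 62277027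
    (rowB 3 eng mog cd0q2 cd6q2 pd0 1 false true false .pp 2 0 2 (qsf 0 536870912 1073741824 536870912 0) ndB0q2 ndB6q2 pcB0 Cut.none Ext.none)

def k0_pm_202 : ∃ t, chk3 f_pm_202 t 2 2 1 = true :=
  ⟨(b (b (a (a (b (l 16492232) (l 16507432)) (b (a (l 16605320) (b (l 16499984) (l 16508584))) (l 16521688))) (a (b (b (l 16507048) (l 16514912)) (a (b (l 16522760) (l 16534496)) (l 16531000))) (b (a (l 16511560) (l 16507872)) (b (l 16523080) (l 16534344))))) (a (a (b (a (b (l 16511000) (b (l 16513792) (a (l 16511304) (l 16518248)))) (l 16523640)) (b (a (b (l 16516144) (l 16519736)) (l 16530440)) (a (l 16523384) (a (l 16529928) (l 16536896))))) (b (l 16538312) (l 16552008))) (a (b (a (l 16549160) (l 16554112)) (l 16570968)) (b (a (l 16553864) (l 16550416)) (a (l 16576864) (l 16574304)))))) (a (b (a (b (a (b (l 16520272) (a (l 16485376) (l 16528832))) (b (l 16539680) (l 16543504))) (a (a (b (l 16537616) (l 16543944)) (b (l 16542016) (l 16549144))) (b (l 16550312)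 (a (l 16553248) (l 16559264))))) (b (a (b (l 16550752) (l 16556096)) (l 16569184)) (a (b (l 16563384) (l 16568408)) (b (l 16574232) (l 16581888))))) (a (b (a (a (b (l 16546952) (l 16545336)) (b (l 16549608) (l 16550864))) (b (a (l 16556144) (l 16560360)) (a (l 16556080) (l 16562712)))) (a (a (b (l 16555576) (b (l 16569688) (l 16578936))) (l 16553544)) (a (l 16555200) (l 16559648)))) (b (a (b (l 16571184) (l 16523336)) (l 16587016)) (a (b (a (l 16569208) (l 16574520)) (a (l 16567432) (l 16575736))) (a (l 16576192) (l 16592552)))))) (b (a (b (l 16587360) (a (b (l 16591032) (l 16596176)) (l 16606328))) (b (a (l 16596280) (l 16597328)) (l 16616384))) (a (b (a (b (l 16598616) (l 16603072)) (l 16615752)) (a (l 16604944) (l 16621880))) (b (l 16633280) (b (l 16642440) (l 16644384))))))), by decide +kernel⟩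

def k1_pm_202 : ∃ t, chk3 f_pm_202 t 2 3 1 = true :=
  ⟨(b (b (a (a (b (a (b (a (a (l 16594832) (l 16589768)) (l 16581632)) (a (b (l 16605328) (l 16613752)) (a (l 16601888) (l 16596464)))) (b (l 16563336) (l 16581784))) (a (b (a (l 16625912) (a (l 16618448) (l 16613240))) (a (l 103246750231) (l 16631584))) (a (b (l 16647320) (l 16621088)) (l 16601280)))) (a (b (a (l 16563208) (l 16572824)) (a (l 16587936) (l 16574008))) (b (a (l 16583168) (l 16589696)) (a (l 16576464) (l 16588648))))) (a (b (l 16615872) (a (a (l 16598016) (l 16606784)) (l 16624600))) (b (a (l 16641032) (l 16654240)) (l 16654408)))) (b (a (a (a (b (a (l 195051670615) (l 89288111207)) (a (l 3) (a (l 211157811111) (l 98414927303)))) (a (b (l 16636136) (l 16650232)) (b (l 16625080) (l 16639560)))) (a (l 16634936) (a (l 16592024) (l 16579720)))) (a (a (a (l 16592688) (l 16605664)) (l 16613456)) (l 16652728))) (a (b (a (a (a (l 3) (l 234243281367)) (a (b (l 191763349447) (l 2)) (l 178341587207)))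 (a (a (l 16641912) (l 16629480)) (l 16607232))) (l 2)) (a (a (l 16590024) (l 16618160)) (l 16643104))))) (a (l 2) (b (a (l 2) (l 1072768491703)) (l 2)))), by decide +kernel⟩

def k2_pm_202 : ∃ t, chk3 f_pm_202 t 3 2 1 = true :=
  ⟨(b (a (b (a (b (b (l 16492104) (l 16499368)) (b (l 16507232) (l 16516376))) (b (a (l 16475424) (b (a (l 16459248) (l 16447184)) (a (l 16465384) (l 16455680)))) (a (l 16490480) (b (l 16467688) (l 16477328))))) (a (b (l 16535296) (l 16563144)) (b (a (l 16511280) (l 16493064)) (l 16532432)))) (a (b (b (b (a (l 16426280) (l 16394552)) (a (l 16435272) (l 16405168))) (a (b (l 16445888) (l 16457328)) (l 16424360))) (b (a (a (l 16478912) (l 16470120)) (l 16455224)) (a (l 16505040) (a (l 16492928) (l 16487448))))) (b (b (a (b (a (l 16368464) (b (l 16347208) (l 16353096))) (l 16372360)) (b (a (b (b (l 16326000) (l 16329200)) (l 16334616)) (a (b (b (l 16310440) (l 16314448)) (l 16321720)) (b (a (b (l 16300848) (l 16307728)) (b (l 16298776)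 (l 16305280))) (l 16317016)))) (a (l 16348528) (a (l 16339960) (l 16337944))))) (a (b (l 16388680) (l 16407272)) (a (l 16382968) (b (l 16368448) (l 16387352))))) (b (a (l 16438024) (b (l 16424424) (l 16445536))) (a (l 16482800) (l 16472240)))))) (a (b (a (b (a (l 16592880) (l 16585072)) (a (l 16616504) (l 16611136))) (b (l 16566208) (l 16599008))) (a (b (l 16638000) (l 16658328)) (b (l 16629824) (l 16659240)))) (b (a (b (a (l 16544648) (l 16532904)) (l 16582872)) (b (a (l 16533384) (l 16505240)) (a (l 16588240) (l 16546264)))) (a (l 16646072) (b (l 16636464) (l 16682760)))))), by decide +kernel⟩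

def k3_pm_202 : ∃ t, chk3 f_pm_202 t 3 3 1 = true :=
  ⟨(b (b (a (a (b (l 16673848) (a (l 16672440) (l 16688800))) (b (l 16687112) (l 16706504))) (a (b (l 16703752) (l 16736904)) (b (l 16731880) (l 16783688)))) (a (a (b (l 16684600) (l 16687688)) (b (l 16720296) (l 16726512))) (b (a (l 16764544) (l 16844728)) (a (l 16782760) (l 16875608))))) (b (a (a (l 16688272) (b (l 16729072) (l 16730632))) (a (b (l 16796616) (l 16807384)) (b (l 16902176) (l 16936744)))) (a (l 2) (a (b (l 16805400) (l 2)) (b (l 16987536) (l 16979784)))))), by decide +kernel⟩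

theorem s4_pm_202 : ∃ t, chk3 f_pm_202 t 3 1 1 = true := ex3_b k2_pm_202 k3_pm_202

theorem s5_pm_202 : ∃ t, chk3 f_pm_202 t 2 1 1 = true := ex3_b k0_pm_202 k1_pm_202

theorem s6_pm_202 : ∃ t, chk3 f_pm_202 t 1 1 1 = true := ex3_a s5_pm_202 s4_pm_202

theorem c_pm_202 : CertB 0 536870912 1073741824 536870912 587336777 62277027 3 eng mog cd0q2 cd6q2 pd0 false true false .pp 2 0 2
    ndB0q2 ndB6q2 pcB0 Cut.none Ext.none :=
  certB1 (fam := false) (s1 := true) (s2 := false) (a := 2) (b := 0) (c := 2) (cn := .pp) (n1 := ndB0q2) (n2 := ndB6q2) (pc := pcB0) (cut := Cut.none) (xt := Ext.none) (P1 := 0) (W1 := 536870912) (P2 := 1073741824) (W2 := 536870912) (P3 := 587336777) (W3 := 62277027) (N0 := 3) (En := eng) (mo := mog) (C1 := cd0q2) (C2 := cd6q2) (C3 := pd0)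
    rfl (fun _ => rfl) s6_pm_202

noncomputable def f_pm_203 : ℕ → ℕ → ℕ → ℕ → Bool := onCell 0 536870912 0 1230186008 587336777 62277027
    (rowB 3 eng mog cd0q2 cd6q3 pd0 0 false true false .up 2 0 3 (qsf 0 536870912 0 1230186008 0) ndB0q2 ndB6q3 pcB0 Cut.none Ext.none)

def k0_pm_203 : ∃ t, chk3 f_pm_203 t 1 1 1 = true :=
  ⟨(b (l 2) (b (l 2) (a (b (b (l 2) (b (a (l 2) (l 2)) (a (a (l 3) (a (l 3) (a (l 190219936951) (l 144049048887)))) (a (a (a (l 16712208) (l 16718792)) (a (l 16724448) (l 16733856))) (l 16765776))))) (a (b (a (l 3) (b (a (a (l 3) (l 178945621031)) (a (b (l 16686240) (l 16670128)) (l 16683144))) (a (b (a (l 3) (l 16652056)) (a (l 16648368) (l 16632008))) (b (a (l 16654264) (l 16661696)) (a (l 16642320) (l 16650336)))))) (a (b (a (l 3) (a (l 3) (a (l 138143341575) (l 131700896135)))) (a (l 3) (b (a (l 16670096) (l 16659160)) (a (l 16665824) (l 16656256))))) (b (a (b (a (l 16647824) (l 16629840)) (a (l 16647856) (l 16632368))) (b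 (a (l 16626592) (l 16637016)) (l 16614320))) (a (b (a (l 16647216) (l 16634368)) (a (l 16646128) (l 16635072))) (l 16613432))))) (b (a (b (a (b (a (l 16696432) (l 16702680)) (a (l 16680488) (l 16690816))) (l 16711352)) (a (l 16671688) (l 16692008))) (b (l 16734976) (l 16701680))) (a (b (a (l 16644856) (l 16661008)) (a (l 16602448) (l 16625808))) (b (l 16692344) (l 16652216)))))) (b (l 2) (a (b (a (l 16761704) (l 16809000)) (b (l 16713680) (a (l 16696824) (l 16733976)))) (b (a (l 16872984) (l 2)) (a (b (l 16843312) (l 16811984)) (b (l 17012512) (l 16996056))))))))), by decide +kernel⟩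

theorem c_pm_203 : CertB 0 536870912 0 1230186008 587336777 62277027 3 eng mog cd0q2 cd6q3 pd0 false true false .up 2 0 3
    ndB0q2 ndB6q3 pcB0 Cut.none Ext.none :=
  certB0 (fam := false) (s1 := true) (s2 := false) (a := 2) (b := 0) (c := 3) (cn := .up) (n1 := ndB0q2) (n2 := ndB6q3) (pc := pcB0) (cut := Cut.none) (xt := Ext.none) (P1 := 0) (W1 := 536870912) (P2 := 0) (W2 := 1230186008) (P3 := 587336777) (W3 := 62277027) (N0 := 3) (En := eng) (mo := mog) (C1 := cd0q2) (C2 := cd6q3) (C3 := pd0)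
    rfl k0_pm_203

noncomputable def cut_pm_213 : Cut := Cut.of [[⟨0, 1, 0, 67108864⟩, ⟨1, 1, 0, 67108864⟩, ⟨2, 2, 0, 16777216⟩]]

noncomputable def f_pm_213 : ℕ → ℕ → ℕ → ℕ → Bool := onCell 0 536870912 0 1230186008 587336777 62277027
    (rowB 3 eng mog cd0q2 cd6q3 pd1 0 false true false .pnn 2 1 3 (qsf 0 536870912 0 1230186008 1) ndB0q2 ndB6q3 pcB1 cut_pm_213 Ext.none)

def k0_pm_213 : ∃ t, chk3 f_pm_213 t 2 2 1 = true :=
  ⟨(l 3), by decide +kernel⟩

def k1_pm_213 : ∃ t, chk3 f_pm_213 t 6 2 1 = true :=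
  ⟨(b (l 3) (b (a (l 3) (a (l 3) (b (a (l 3) (b (l 3) (a (l 3) (b (l 3) (l 270750736343))))) (b (a (l 3) (a (b (l 295446797415) (l 224042970375)) (b (l 233706648007) (l 16794096)))) (a (a (b (l 3) (l 247128416055)) (b (l 225116710615) (l 228874822631))) (a (b (l 16793392) (l 16795848)) (l 16797904))))))) (a (b (l 3) (a (l 3) (b (a (l 3) (b (l 3) (a (l 3) (l 185388247703)))) (a (b (l 3) (l 221895480679)) (b (a (l 180556405447) (l 16784168)) (l 165524049207)))))) (b (a (a (b (l 3) (a (l 308331688231) (b (l 261087051655) (l 198810028167)))) (b (a (b (l 3) (l 264845151015)) (b (l 241222833639) (l 209010594343))) (b (a (l 200420656551) (l 16792104)) (l 16792536)))) (a (b (a (b (l 218137403015) (l 16793600)) (l 16796136)) (l 16799736)) (b (l 16801864) (l 16808616)))) (a (a (b (a (b (l 191293831655) (l 16786352)) (l 16789640)) (b (l 16791120) (l 16794104))) (b (l 16796568) (l 16803032))) (b (a (l 16806448) (l 16815880)) (l 16857288))))))), by decide +kernel⟩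

def k2_pm_213 : ∃ t, chk3 f_pm_213 t 7 2 1 = true :=
  ⟨(b (a (b (l 3) (a (b (l 3) (a (l 3) (a (l 3) (b (l 3) (b (l 313700402647) (b (l 256792090535) (l 258402706039))))))) (b (a (l 3) (l 6)) (a (b (a (b (l 3) (a (l 3) (b (l 3) (l 253033991319)))) (b (a (l 3) (b (l 282025016183) (a (l 246591537607) (l 247128408375)))) (a (b (l 254644602839) (l 258402696231)) (b (l 16786400) (l 16787392))))) (a (b (c (l 268603250343) (a (l 256792090071) (l 257865832423))) (l 16790848)) (l 16790136))) (b (a (b (a (b (a (l 249275890647) (l 252497115815)) (l 16785656)) (l 16785392)) (l 16787176)) (l 16786584)) (l 16790736)))))) (b (l 6) (a (b (a (l 6) (l 6)) (a (b (l 16786968) (l 16791504)) (l 16789168))) (b (a (l 6) (l 6)) (a (l 16789104) (l 16789752)))))) (b (a (a (b (a (b (a (l 3) (b (l 3) (a (l 266455768375) (b (l 238538482279) (l 250886515927))))) (a (b (l 268603274231) (a (l 243907194855) (l 250886509367))) (b (a (b (l 243907194119) (l 16792368)) (l 16792944)) (l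 16794768)))) (b (a (b (a (l 285246249927) (l 260550190407)) (a (l 269140130631) (l 16792696))) (b (a (l 270750737239) (l 16792184)) (l 16794248))) (l 16797160))) (a (b (b (a (l 16794552) (l 16797312)) (l 16798576)) (l 16802912)) (b (l 16802712) (l 16809672)))) (b (a (b (l 16795232) (l 16801720)) (l 16799176)) (a (l 16812472) (l 16812608)))) (a (b (a (l 16798984) (l 16799400)) (l 16812560)) (l 16807232))) (b (a (a (a (l 16813720) (l 16823032)) (l 16829144)) (l 16829608)) (a (a (l 16837800) (l 16849504)) (l 16850120))))), by decide +kernel⟩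

def k3_pm_213 : ∃ t, chk3 f_pm_213 t 1 6 1 = true :=
  ⟨(a (a (l 3) (b (a (l 3) (b (l 3) (a (l 3) (b (a (l 3) (l 238001574247)) (a (l 219211095799) (a (l 227801054935) (l 237464661927))))))) (a (b (l 3) (a (l 3) (b (l 3) (a (l 3) (b (l 220821698023) (l 206326162663)))))) (b (a (b (l 3) (a (l 3) (b (l 219747973095) (l 240149048183)))) (b (a (b (l 235317228695) (l 253570811735)) (l 16744952)) (a (b (l 16783888) (l 16789248)) (l 16799808)))) (a (b (a (b (l 210084292423) (l 224042920103)) (b (l 16781864) (l 16785816))) (a (b (l 16776232) (l 16779088)) (l 16793344))) (b (b (l 16802544) (l 16806904)) (a (l 16806384) (l 16824464)))))))) (a (b (a (b (a (b (a (l 3) (b (l 3) (l 188072604871))) (a (l 306184179479) (b (a (l 271287573111) (b (l 174650818951) (l 16776336))) (l 169282140247)))) (b (a (a (b (l 181630138791) (l 153712868119)) (b (l 160692190567) (l 16782800))) (l 16810264)) (a (b (l 16783872) (l 16789440)) (l 16778584)))) (a (b (a (a (l 227264160295)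 (l 170892773367)) (l 16785888)) (b (l 16768512) (l 16797112))) (b (a (l 16799928) (l 16812608)) (a (l 16813480) (l 16828056))))) (b (a (b (a (l 16800608) (l 16810656)) (a (l 16811032) (l 16823760))) (l 16836168)) (a (l 16841168) (l 16870296)))) (a (b (a (b (b (l 16804592) (l 16810544)) (l 16855288)) (l 16844784)) (a (l 16844208) (l 16886512))) (b (a (l 16880904) (l 16909664)) (a (l 16921688) (l 16928968))))) (b (a (b (a (l 16863176) (l 16870280)) (a (l 16890648) (l 16890336))) (b (a (l 16869104) (l 16867448)) (a (l 16886568) (l 16862472)))) (a (b (a (l 16909400) (l 16908440)) (l 16929440)) (b (l 16908384) (l 16931744)))))), by decide +kernel⟩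

def k4_pm_213 : ∃ t, chk3 f_pm_213 t 1 7 1 = true :=
  ⟨(a (b (a (b (l 3) (a (l 3) (a (l 3) (b (a (l 3) (l 171966369623)) (a (l 198273000183) (b (l 161228914295) (l 1))))))) (b (a (a (b (a (l 3) (l 171966421831)) (a (l 171429530663) (l 184314441799))) (b (a (l 196125621383) (l 16771448)) (a (l 16763176) (l 16783440)))) (a (b (a (l 16789336) (l 16803880)) (a (l 16799328) (l 16822304))) (l 16844528))) (a (a (b (a (b (l 168745138215) (l 16732560)) (l 16750608)) (a (l 16734288) (l 16762216))) (b (a (l 16774656) (l 16792816)) (a (l 16779528) (l 16798568)))) (a (l 16825720) (l 16864120))))) (a (l 1) (b (a (l 1) (b (l 16990704) (l 1))) (l 1)))) (b (a (b (a (b (l 16901368) (l 16927224)) (l 16929696)) (a (a (l 16900944) (l 16940744)) (l 16971152))) (a (b (l 16960776) (l 16958696)) (l 16944168))) (a (b (a (l 16876728) (l 16962144)) (l 1)) (b (b (l 16966376) (l 16970840)) (b (l 16977776) (l 16982264)))))), by decide +kernel⟩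

theorem s5_pm_213 : ∃ t, chk3 f_pm_213 t 1 3 1 = true := ex3_b k3_pm_213 k4_pm_213

theorem s6_pm_213 : ∃ t, chk3 f_pm_213 t 3 2 1 = true := ex3_a k1_pm_213 k2_pm_213

theorem s7_pm_213 : ∃ t, chk3 f_pm_213 t 1 2 1 = true := ex3_a k0_pm_213 s6_pm_213

theorem s8_pm_213 : ∃ t, chk3 f_pm_213 t 1 1 1 = true := ex3_b s7_pm_213 s5_pm_213

theorem c_pm_213 : CertB 0 536870912 0 1230186008 587336777 62277027 3 eng mog cd0q2 cd6q3 pd1 false true false .pnn 2 1 3
    ndB0q2 ndB6q3 pcB1 cut_pm_213 Ext.none :=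
  certB0 (fam := false) (s1 := true) (s2 := false) (a := 2) (b := 1) (c := 3) (cn := .pnn) (n1 := ndB0q2) (n2 := ndB6q3) (pc := pcB1) (cut := cut_pm_213) (xt := Ext.none) (P1 := 0) (W1 := 536870912) (P2 := 0) (W2 := 1230186008) (P3 := 587336777) (W3 := 62277027) (N0 := 3) (En := eng) (mo := mog) (C1 := cd0q2) (C2 := cd6q3) (C3 := pd1)
    rfl s8_pm_213

noncomputable def f_mm_001 : ℕ → ℕ → ℕ → ℕ → Bool := onCell 0 536870912 0 536870912 587336777 62277027
    (rowB 3 eng mog cd0q0 cd6q1 pd0 1 false false false .up 0 0 1 (qsf 0 536870912 536870912 536870912 0) ndB0q0 ndB6q1 pcB0 Cut.none Ext.none)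

def k0_mm_001 : ∃ t, chk3 f_mm_001 t 1 1 1 = true :=
  ⟨(l 3), by decide +kernel⟩

theorem c_mm_001 : CertB 0 536870912 536870912 536870912 587336777 62277027 3 eng mog cd0q0 cd6q1 pd0 false false false .up 0 0 1
    ndB0q0 ndB6q1 pcB0 Cut.none Ext.none :=
  certB1 (fam := false) (s1 := false) (s2 := false) (a := 0) (b := 0) (c := 1) (cn := .up) (n1 := ndB0q0) (n2 := ndB6q1) (pc := pcB0) (cut := Cut.none) (xt := Ext.none) (P1 := 0) (W1 := 536870912) (P2 := 536870912) (W2 := 536870912) (P3 := 587336777) (W3 := 62277027) (N0 := 3) (En := eng) (mo := mog) (C1 := cd0q0) (C2 := cd6q1) (C3 := pd0)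
    rfl (fun _ => rfl) k0_mm_001

noncomputable def f_mm_011 : ℕ → ℕ → ℕ → ℕ → Bool := onCell 0 536870912 536870912 536870912 587336777 62277027
    (rowB 3 eng mog cd0q0 cd6q1 pd1 1 false false false .pnn 0 1 1 (qsf 0 536870912 536870912 536870912 1) ndB0q0 ndB6q1 pcB1 Cut.none Ext.none)

def k0_mm_011 : ∃ t, chk3 f_mm_011 t 1 1 1 = true :=
  ⟨(l 5), by decide +kernel⟩

theorem c_mm_011 : CertB 0 536870912 536870912 536870912 587336777 62277027 3 eng mog cd0q0 cd6q1 pd1 false false false .pnn 0 1 1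
    ndB0q0 ndB6q1 pcB1 Cut.none Ext.none :=
  certB1 (fam := false) (s1 := false) (s2 := false) (a := 0) (b := 1) (c := 1) (cn := .pnn) (n1 := ndB0q0) (n2 := ndB6q1) (pc := pcB1) (cut := Cut.none) (xt := Ext.none) (P1 := 0) (W1 := 536870912) (P2 := 536870912) (W2 := 536870912) (P3 := 587336777) (W3 := 62277027) (N0 := 3) (En := eng) (mo := mog) (C1 := cd0q0) (C2 := cd6q1) (C3 := pd1)
    rfl (fun _ => rfl) k0_mm_011

noncomputable def f_mm_012 : ℕ → ℕ → ℕ → ℕ → Bool := onCell 0 536870912 1073741824 536870912 587336777 62277027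
    (rowB 3 eng mog cd0q0 cd6q2 pd1 0 false false false .pnp 0 1 2 (qsf 0 536870912 1073741824 536870912 1) ndB0q0 ndB6q2 pcB1 Cut.none Ext.none)

def k0_mm_012 : ∃ t, chk3 f_mm_012 t 1 1 1 = true :=
  ⟨(l 5), by decide +kernel⟩

theorem c_mm_012 : CertB 0 536870912 1073741824 536870912 587336777 62277027 3 eng mog cd0q0 cd6q2 pd1 false false false .pnp 0 1 2
    ndB0q0 ndB6q2 pcB1 Cut.none Ext.none :=
  certB0 (fam := false) (s1 := false) (s2 := false) (a := 0) (b := 1) (c := 2) (cn := .pnp) (n1 := ndB0q0) (n2 := ndB6q2) (pc := pcB1) (cut := Cut.none) (xt := Ext.none) (P1 := 0) (W1 := 536870912) (P2 := 1073741824) (W2 := 536870912) (P3 := 587336777) (W3 := 62277027) (N0 := 3) (En := eng) (mo := mog) (C1 := cd0q0) (C2 := cd6q2) (C3 := pd1)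
    rfl k0_mm_012

noncomputable def f_mm_022 : ℕ → ℕ → ℕ → ℕ → Bool := onCell 0 536870912 1073741824 536870912 587336777 62277027
    (rowB 3 eng mog cd0q0 cd6q2 pd2 0 false false false .pp 0 2 2 (qsf 0 536870912 1073741824 536870912 2) ndB0q0 ndB6q2 pcB2 Cut.none Ext.none)

def k0_mm_022 : ∃ t, chk3 f_mm_022 t 1 1 1 = true :=
  ⟨(l 5), by decide +kernel⟩

theorem c_mm_022 : CertB 0 536870912 1073741824 536870912 587336777 62277027 3 eng mog cd0q0 cd6q2 pd2 false false false .pp 0 2 2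
    ndB0q0 ndB6q2 pcB2 Cut.none Ext.none :=
  certB0 (fam := false) (s1 := false) (s2 := false) (a := 0) (b := 2) (c := 2) (cn := .pp) (n1 := ndB0q0) (n2 := ndB6q2) (pc := pcB2) (cut := Cut.none) (xt := Ext.none) (P1 := 0) (W1 := 536870912) (P2 := 1073741824) (W2 := 536870912) (P3 := 587336777) (W3 := 62277027) (N0 := 3) (En := eng) (mo := mog) (C1 := cd0q0) (C2 := cd6q2) (C3 := pd2)
    rfl k0_mm_022

noncomputable def f_mm_023 : ℕ → ℕ → ℕ → ℕ → Bool := onCell 0 536870912 0 1230186008 587336777 62277027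
    (rowB 3 eng mog cd0q0 cd6q3 pd2 0 false false false .up 0 2 3 (qsf 0 536870912 0 1230186008 2) ndB0q0 ndB6q3 pcB2 Cut.none Ext.none)

def k0_mm_023 : ∃ t, chk3 f_mm_023 t 1 1 1 = true :=
  ⟨(l 5), by decide +kernel⟩

theorem c_mm_023 : CertB 0 536870912 0 1230186008 587336777 62277027 3 eng mog cd0q0 cd6q3 pd2 false false false .up 0 2 3
    ndB0q0 ndB6q3 pcB2 Cut.none Ext.none :=
  certB0 (fam := false) (s1 := false) (s2 := false) (a := 0) (b := 2) (c := 3) (cn := .up) (n1 := ndB0q0) (n2 := ndB6q3) (pc := pcB2) (cut := Cut.none) (xt := Ext.none) (P1 := 0) (W1 := 536870912) (P2 := 0) (W2 := 1230186008) (P3 := 587336777) (W3 := 62277027) (N0 := 3) (En := eng) (mo := mog) (C1 := cd0q0) (C2 := cd6q3) (C3 := pd2)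
    rfl k0_mm_023

noncomputable def f_mm_033 : ℕ → ℕ → ℕ → ℕ → Bool := onCell 0 536870912 0 1230186008 587336777 62277027
    (rowB 3 eng mog cd0q0 cd6q3 pd3 0 false false false .pnn 0 3 3 (qsf 0 536870912 0 1230186008 3) ndB0q0 ndB6q3 pcB3 Cut.none Ext.none)

def k0_mm_033 : ∃ t, chk3 f_mm_033 t 1 1 1 = true :=
  ⟨(l 5), by decide +kernel⟩

theorem c_mm_033 : CertB 0 536870912 0 1230186008 587336777 62277027 3 eng mog cd0q0 cd6q3 pd3 false false false .pnn 0 3 3
    ndB0q0 ndB6q3 pcB3 Cut.none Ext.none :=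
  certB0 (fam := false) (s1 := false) (s2 := false) (a := 0) (b := 3) (c := 3) (cn := .pnn) (n1 := ndB0q0) (n2 := ndB6q3) (pc := pcB3) (cut := Cut.none) (xt := Ext.none) (P1 := 0) (W1 := 536870912) (P2 := 0) (W2 := 1230186008) (P3 := 587336777) (W3 := 62277027) (N0 := 3) (En := eng) (mo := mog) (C1 := cd0q0) (C2 := cd6q3) (C3 := pd3)
    rfl k0_mm_033

noncomputable def cut_mm_101 : Cut := Cut.of [[⟨0, 1, 0, 67108864⟩, ⟨1, 0, 0, 67108864⟩, ⟨2, 1, 0, 67108864⟩]]

noncomputable def f_mm_101 : ℕ → ℕ → ℕ → ℕ → Bool := onCell 536870912 536870912 0 536870912 587336777 62277027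
    (rowB 3 eng mog cd0q1 cd6q1 pd0 1 false false false .npn 1 0 1 (qsf 536870912 536870912 536870912 536870912 0) ndB0q1 ndB6q1 pcB0 cut_mm_101 Ext.none)

def k0_mm_101 : ∃ t, chk3 f_mm_101 t 1 1 1 = true :=
  ⟨(a (l 3) (b (a (l 3) (b (a (l 3) (b (a (l 3) (b (l 6) (l 3))) (l 3))) (l 3))) (l 3))), by decide +kernel⟩

theorem c_mm_101 : CertB 536870912 536870912 536870912 536870912 587336777 62277027 3 eng mog cd0q1 cd6q1 pd0 false false false .npn 1 0 1
    ndB0q1 ndB6q1 pcB0 cut_mm_101 Ext.none :=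
  certB1 (fam := false) (s1 := false) (s2 := false) (a := 1) (b := 0) (c := 1) (cn := .npn) (n1 := ndB0q1) (n2 := ndB6q1) (pc := pcB0) (cut := cut_mm_101) (xt := Ext.none) (P1 := 536870912) (W1 := 536870912) (P2 := 536870912) (W2 := 536870912) (P3 := 587336777) (W3 := 62277027) (N0 := 3) (En := eng) (mo := mog) (C1 := cd0q1) (C2 := cd6q1) (C3 := pd0)
    rfl (fun _ => rfl) k0_mm_101

noncomputable def f_mm_102 : ℕ → ℕ → ℕ → ℕ → Bool := onCell 536870912 536870912 1073741824 536870912 587336777 62277027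
    (rowB 3 eng mog cd0q1 cd6q2 pd0 0 false false false .npp 1 0 2 (qsf 536870912 536870912 1073741824 536870912 0) ndB0q1 ndB6q2 pcB0 Cut.none Ext.none)

def k0_mm_102 : ∃ t, chk3 f_mm_102 t 1 1 1 = true :=
  ⟨(l 3), by decide +kernel⟩

theorem c_mm_102 : CertB 536870912 536870912 1073741824 536870912 587336777 62277027 3 eng mog cd0q1 cd6q2 pd0 false false false .npp 1 0 2
    ndB0q1 ndB6q2 pcB0 Cut.none Ext.none :=
  certB0 (fam := false) (s1 := false) (s2 := false) (a := 1) (b := 0) (c := 2) (cn := .npp) (n1 := ndB0q1) (n2 := ndB6q2) (pc := pcB0) (cut := Cut.none) (xt := Ext.none) (P1 := 536870912) (W1 := 536870912) (P2 := 1073741824) (W2 := 536870912) (P3 := 587336777) (W3 := 62277027) (N0 := 3) (En := eng) (mo := mog) (C1 := cd0q1) (C2 := cd6q2) (C3 := pd0)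
    rfl k0_mm_102

noncomputable def f_mm_112 : ℕ → ℕ → ℕ → ℕ → Bool := onCell 536870912 536870912 1073741824 536870912 587336777 62277027
    (rowB 3 eng mog cd0q1 cd6q2 pd1 0 false false false .dn 1 1 2 (qsf 536870912 536870912 1073741824 536870912 1) ndB0q1 ndB6q2 pcB1 Cut.none Ext.none)

def k0_mm_112 : ∃ t, chk3 f_mm_112 t 1 1 1 = true :=
  ⟨(l 3), by decide +kernel⟩

theorem c_mm_112 : CertB 536870912 536870912 1073741824 536870912 587336777 62277027 3 eng mog cd0q1 cd6q2 pd1 false false false .dn 1 1 2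
    ndB0q1 ndB6q2 pcB1 Cut.none Ext.none :=
  certB0 (fam := false) (s1 := false) (s2 := false) (a := 1) (b := 1) (c := 2) (cn := .dn) (n1 := ndB0q1) (n2 := ndB6q2) (pc := pcB1) (cut := Cut.none) (xt := Ext.none) (P1 := 536870912) (W1 := 536870912) (P2 := 1073741824) (W2 := 536870912) (P3 := 587336777) (W3 := 62277027) (N0 := 3) (En := eng) (mo := mog) (C1 := cd0q1) (C2 := cd6q2) (C3 := pd1)
    rfl k0_mm_112

noncomputable def f_mm_113 : ℕ → ℕ → ℕ → ℕ → Bool := onCell 536870912 536870912 0 1230186008 587336777 62277027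
    (rowB 3 eng mog cd0q1 cd6q3 pd1 0 false false false .nn 1 1 3 (qsf 536870912 536870912 0 1230186008 1) ndB0q1 ndB6q3 pcB1 Cut.none Ext.none)

def k0_mm_113 : ∃ t, chk3 f_mm_113 t 1 1 1 = true :=
  ⟨(b (l 5) (b (l 5) (a (l 5) (l 3)))), by decide +kernel⟩

theorem c_mm_113 : CertB 536870912 536870912 0 1230186008 587336777 62277027 3 eng mog cd0q1 cd6q3 pd1 false false false .nn 1 1 3
    ndB0q1 ndB6q3 pcB1 Cut.none Ext.none :=
  certB0 (fam := false) (s1 := false) (s2 := false) (a := 1) (b := 1) (c := 3) (cn := .nn) (n1 := ndB0q1) (n2 := ndB6q3) (pc := pcB1) (cut := Cut.none) (xt := Ext.none) (P1 := 536870912) (W1 := 536870912) (P2 := 0) (W2 := 1230186008) (P3 := 587336777) (W3 := 62277027) (N0 := 3) (En := eng) (mo := mog) (C1 := cd0q1) (C2 := cd6q3) (C3 := pd1)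
    rfl k0_mm_113

noncomputable def f_mm_123 : ℕ → ℕ → ℕ → ℕ → Bool := onCell 1073741824 536870912 0 1230186008 587336777 62277027
    (rowB 3 eng mog cd0q1 cd6q3 pd2 2 false false false .npn 1 2 3 (qsf 536870912 536870912 0 1230186008 2) ndB0q1 ndB6q3 pcB2 Cut.none Ext.none)

def k0_mm_123 : ∃ t, chk3 f_mm_123 t 1 1 1 = true :=
  ⟨(b (l 5) (l 5)), by decide +kernel⟩

theorem c_mm_123 : CertB 536870912 536870912 0 1230186008 587336777 62277027 3 eng mog cd0q1 cd6q3 pd2 false false false .npn 1 2 3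
    ndB0q1 ndB6q3 pcB2 Cut.none Ext.none :=
  certB2 (fam := false) (s1 := false) (s2 := false) (a := 1) (b := 2) (c := 3) (cn := .npn) (n1 := ndB0q1) (n2 := ndB6q3) (pc := pcB2) (cut := Cut.none) (xt := Ext.none) (P1 := 536870912) (W1 := 536870912) (P2 := 0) (W2 := 1230186008) (P3 := 587336777) (W3 := 62277027) (N0 := 3) (En := eng) (mo := mog) (C1 := cd0q1) (C2 := cd6q3) (C3 := pd2)
    rfl (fun _ => rfl) k0_mm_123

noncomputable def f_mm_133 : ℕ → ℕ → ℕ → ℕ → Bool := onCell 1610612736 536870912 0 1230186008 587336777 62277027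
    (rowB 3 eng mog cd0q1 cd6q3 pd3 2 false false false .dn 1 3 3 (qsf 536870912 536870912 0 1230186008 3) ndB0q1 ndB6q3 pcB3 Cut.none Ext.none)

def k0_mm_133 : ∃ t, chk3 f_mm_133 t 1 1 1 = true :=
  ⟨(l 5), by decide +kernel⟩

theorem c_mm_133 : CertB 536870912 536870912 0 1230186008 587336777 62277027 3 eng mog cd0q1 cd6q3 pd3 false false false .dn 1 3 3
    ndB0q1 ndB6q3 pcB3 Cut.none Ext.none :=
  certB2 (fam := false) (s1 := false) (s2 := false) (a := 1) (b := 3) (c := 3) (cn := .dn) (n1 := ndB0q1) (n2 := ndB6q3) (pc := pcB3) (cut := Cut.none) (xt := Ext.none) (P1 := 536870912) (W1 := 536870912) (P2 := 0) (W2 := 1230186008) (P3 := 587336777) (W3 := 62277027) (N0 := 3) (En := eng) (mo := mog) (C1 := cd0q1) (C2 := cd6q3) (C3 := pd3)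
    rfl (fun _ => rfl) k0_mm_133

noncomputable def f_mm_202 : ℕ → ℕ → ℕ → ℕ → Bool := onCell 0 536870912 0 536870912 587336777 62277027
    (rowB 3 eng mog cd0q2 cd6q2 pd0 1 false false false .pp 2 0 2 (qsf 0 536870912 1073741824 536870912 0) ndB0q2 ndB6q2 pcB0 Cut.none Ext.none)

def k0_mm_202 : ∃ t, chk3 f_mm_202 t 4 4 1 = true :=
  ⟨(b (a (b (b (l 16480080) (l 16485712)) (a (l 16496040) (b (l 16487584) (c (b (l 16493480) (l 16623296)) (l 16462752))))) (b (a (b (l 16476168) (b (l 16478984) (l 16479056))) (b (a (l 16475680) (b (l 16475480) (b (l 16475768) (l 16465432)))) (a (b (l 16477000) (a (l 16542760) (b (l 16480120) (l 16480992)))) (b (b (c (l 16565296) (l 16475688)) (c (l 16586912) (l 16455464))) (a (a (l 16481728) (l 16544536)) (c (l 16549272) (l 16480992))))))) (a (b (a (c (l 16592576) (l 16477416)) (b (l 16482592) (l 16461864))) (b (a (l 16511152) (l 16488112)) (a (l 16488416) (l 16488952)))) (b (a (a (b (l 16482000) (l 16486992)) (b (l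 16482560) (l 16487552))) (b (c (l 16594360) (l 16473744)) (l 215989289463))) (a (a (l 16491304) (b (a (l 16490296) (l 16490032)) (l 16492744))) (a (l 70497320567) (l 16498832))))))) (a (b (a (b (a (l 16503424) (b (l 16497320) (l 16499632))) (a (l 16506696) (l 16503488))) (b (a (b (l 16495216) (l 16497144)) (b (l 16493304) (l 16493200))) (a (l 16497376) (l 16499976)))) (a (b (a (l 16510920) (l 16503136)) (l 16510360)) (a (b (l 16505112) (l 16524352)) (b (l 16531704) (a (l 16506992) (l 16506616)))))) (b (a (b (a (b (l 16492512) (l 16512472)) (c (l 16478832) (l 16493560))) (a (l 16527016) (l 16539720))) (a (b (l 103783359431) (a (l 16502760) (l 16507000))) (l 195051428343))) (a (b (a (a (l 16502392) (l 16500360)) (b (l 16502144) (l 16507000))) (a (b (l 16504984) (l 16509904)) (l 16514584))) (l 186461560727))))), by decide +kernel⟩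

def k1_mm_202 : ∃ t, chk3 f_mm_202 t 5 4 1 = true :=
  ⟨(b (a (a (b (b (a (b (a (l 16475856) (a (l 16496808) (l 16510040))) (a (b (l 16476672) (l 16474104)) (b (l 185387660743) (l 16482560)))) (b (b (l 168744779191) (l 16526496)) (l 3))) (a (b (c (l 158007409783) (l 199346266647)) (l 160691773015)) (l 3))) (a (l 219747420151) (l 3))) (l 3)) (l 3)) (l 3)), by decide +kernel⟩

def k2_mm_202 : ∃ t, chk3 f_mm_202 t 2 5 1 = true :=
  ⟨(a (b (a (b (a (a (b (l 16495752) (l 16524992)) (b (l 16539384) (l 16522720))) (a (b (b (l 16509952) (l 16514976)) (l 16522640)) (a (l 16557256) (l 16565688)))) (a (b (a (l 16533928) (l 16533032)) (a (l 16542856) (l 16535992))) (b (a (l 16529168) (a (l 16533048) (l 16530416))) (a (a (l 16538160) (l 16537976)) (l 102172856023))))) (a (b (b (a (l 16519048) (l 16547808)) (l 101635945431)) (b (l 197198975447) (l 3))) (l 3))) (a (b (a (a (b (l 16541704) (l 16568528)) (b (l 16600832) (a (l 16554456) (l 16559272)))) (a (b (l 96804151943)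 (l 105930925959)) (b (l 100562278951) (l 3)))) (a (b (a (b (l 16561344) (l 16570632)) (b (l 16571072) (l 16580360))) (a (b (l 16579856) (l 16589008)) (a (l 16591696) (l 16596280)))) (a (b (b (l 16580184) (l 3)) (l 3)) (l 3)))) (l 3))) (l 3)), by decide +kernel⟩

def k3_mm_202 : ∃ t, chk3 f_mm_202 t 2 3 1 = true :=
  ⟨(b (a (b (a (a (b (b (a (a (l 16599856) (l 16604648)) (a (l 16609288) (l 3))) (a (l 16619216) (l 3))) (b (a (l 155323208327) (l 3)) (l 3))) (l 3)) (l 3)) (l 3)) (l 3)) (l 3)), by decide +kernel⟩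

def k4_mm_202 : ∃ t, chk3 f_mm_202 t 3 1 1 = true :=
  ⟨(l 3), by decide +kernel⟩

theorem s5_mm_202 : ∃ t, chk3 f_mm_202 t 2 4 1 = true := ex3_a k0_mm_202 k1_mm_202

theorem s6_mm_202 : ∃ t, chk3 f_mm_202 t 2 2 1 = true := ex3_b s5_mm_202 k2_mm_202

theorem s7_mm_202 : ∃ t, chk3 f_mm_202 t 2 1 1 = true := ex3_b s6_mm_202 k3_mm_202

theorem s8_mm_202 : ∃ t, chk3 f_mm_202 t 1 1 1 = true := ex3_a s7_mm_202 k4_mm_202

theorem c_mm_202 : CertB 0 536870912 1073741824 536870912 587336777 62277027 3 eng mog cd0q2 cd6q2 pd0 false false false .pp 2 0 2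
    ndB0q2 ndB6q2 pcB0 Cut.none Ext.none :=
  certB1 (fam := false) (s1 := false) (s2 := false) (a := 2) (b := 0) (c := 2) (cn := .pp) (n1 := ndB0q2) (n2 := ndB6q2) (pc := pcB0) (cut := Cut.none) (xt := Ext.none) (P1 := 0) (W1 := 536870912) (P2 := 1073741824) (W2 := 536870912) (P3 := 587336777) (W3 := 62277027) (N0 := 3) (En := eng) (mo := mog) (C1 := cd0q2) (C2 := cd6q2) (C3 := pd0)
    rfl (fun _ => rfl) s8_mm_202

noncomputable def f_mm_203 : ℕ → ℕ → ℕ → ℕ → Bool := onCell 0 536870912 0 1230186008 587336777 62277027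
    (rowB 3 eng mog cd0q2 cd6q3 pd0 0 false false false .up 2 0 3 (qsf 0 536870912 0 1230186008 0) ndB0q2 ndB6q3 pcB0 Cut.none Ext.none)

def k0_mm_203 : ∃ t, chk3 f_mm_203 t 1 1 1 = true :=
  ⟨(b (l 2) (b (l 2) (a (l 3) (l 3)))), by decide +kernel⟩

theorem c_mm_203 : CertB 0 536870912 0 1230186008 587336777 62277027 3 eng mog cd0q2 cd6q3 pd0 false false false .up 2 0 3
    ndB0q2 ndB6q3 pcB0 Cut.none Ext.none :=
  certB0 (fam := false) (s1 := false) (s2 := false) (a := 2) (b := 0) (c := 3) (cn := .up) (n1 := ndB0q2) (n2 := ndB6q3) (pc := pcB0) (cut := Cut.none) (xt := Ext.none) (P1 := 0) (W1 := 536870912) (P2 := 0) (W2 := 1230186008) (P3 := 587336777) (W3 := 62277027) (N0 := 3) (En := eng) (mo := mog) (C1 := cd0q2) (C2 := cd6q3) (C3 := pd0)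
    rfl k0_mm_203

noncomputable def f_mm_213 : ℕ → ℕ → ℕ → ℕ → Bool := onCell 0 536870912 0 1230186008 587336777 62277027
    (rowB 3 eng mog cd0q2 cd6q3 pd1 0 false false false .pnn 2 1 3 (qsf 0 536870912 0 1230186008 1) ndB0q2 ndB6q3 pcB1 Cut.none Ext.none)

def k0_mm_213 : ∃ t, chk3 f_mm_213 t 1 1 1 = true :=
  ⟨(b (a (l 3) (a (l 3) (l 5))) (b (l 3) (a (l 3) (l 3)))), by decide +kernel⟩

theorem c_mm_213 : CertB 0 536870912 0 1230186008 587336777 62277027 3 eng mog cd0q2 cd6q3 pd1 false false false .pnn 2 1 3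
    ndB0q2 ndB6q3 pcB1 Cut.none Ext.none :=
  certB0 (fam := false) (s1 := false) (s2 := false) (a := 2) (b := 1) (c := 3) (cn := .pnn) (n1 := ndB0q2) (n2 := ndB6q3) (pc := pcB1) (cut := Cut.none) (xt := Ext.none) (P1 := 0) (W1 := 536870912) (P2 := 0) (W2 := 1230186008) (P3 := 587336777) (W3 := 62277027) (N0 := 3) (En := eng) (mo := mog) (C1 := cd0q2) (C2 := cd6q3) (C3 := pd1)
    rfl k0_mm_213

end Pool.Agent.Strip051.G.I5470_6050.Tab.C.BB06

namespace Pool.Agent.Strip051.G.I5470_6050.Tab.C.BB07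

open Pool.Agent.Strip051.PB Pool.Agent.Strip051.PB.T
open Pool.Agent.Strip051.G.I5470_6050.Tab

noncomputable def cut_pp_001 : Cut := Cut.of [[⟨3, 0, 0, 1449551462⟩]]

noncomputable def f_pp_001 : ℕ → ℕ → ℕ → ℕ → Bool := onCell 0 536870912 536870912 536870912 587336777 62277027
    (rowB 3 eng mog cd0q0 cd7q1 pd0 0 false true true .up 0 0 1 (qsf 0 536870912 536870912 536870912 0) ndB0q0 ndB7q1 pcB0 cut_pp_001 Ext.none)

def k0_pp_001 : ∃ t, chk3 f_pp_001 t 1 1 1 = true :=
  ⟨(l 6), by decide +kernel⟩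

theorem c_pp_001 : CertB 0 536870912 536870912 536870912 587336777 62277027 3 eng mog cd0q0 cd7q1 pd0 false true true .up 0 0 1
    ndB0q0 ndB7q1 pcB0 cut_pp_001 Ext.none :=
  certB0 (fam := false) (s1 := true) (s2 := true) (a := 0) (b := 0) (c := 1) (cn := .up) (n1 := ndB0q0) (n2 := ndB7q1) (pc := pcB0) (cut := cut_pp_001) (xt := Ext.none) (P1 := 0) (W1 := 536870912) (P2 := 536870912) (W2 := 536870912) (P3 := 587336777) (W3 := 62277027) (N0 := 3) (En := eng) (mo := mog) (C1 := cd0q0) (C2 := cd7q1) (C3 := pd0)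
    rfl k0_pp_001

noncomputable def cut_pp_011 : Cut := Cut.of [[⟨3, 0, 0, 1449551462⟩], [⟨0, 0, 0, 67108864⟩, ⟨1, 1, 0, 67108864⟩, ⟨2, 1, 0, 67108864⟩]]

noncomputable def f_pp_011 : ℕ → ℕ → ℕ → ℕ → Bool := onCell 0 536870912 536870912 536870912 587336777 62277027
    (rowB 3 eng mog cd0q0 cd7q1 pd1 0 false true true .pnn 0 1 1 (qsf 0 536870912 536870912 536870912 1) ndB0q0 ndB7q1 pcB1 cut_pp_011 Ext.none)

def k0_pp_011 : ∃ t, chk3 f_pp_011 t 1 1 1 = true :=
  ⟨(l 6), by decide +kernel⟩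

theorem c_pp_011 : CertB 0 536870912 536870912 536870912 587336777 62277027 3 eng mog cd0q0 cd7q1 pd1 false true true .pnn 0 1 1
    ndB0q0 ndB7q1 pcB1 cut_pp_011 Ext.none :=
  certB0 (fam := false) (s1 := true) (s2 := true) (a := 0) (b := 1) (c := 1) (cn := .pnn) (n1 := ndB0q0) (n2 := ndB7q1) (pc := pcB1) (cut := cut_pp_011) (xt := Ext.none) (P1 := 0) (W1 := 536870912) (P2 := 536870912) (W2 := 536870912) (P3 := 587336777) (W3 := 62277027) (N0 := 3) (En := eng) (mo := mog) (C1 := cd0q0) (C2 := cd7q1) (C3 := pd1)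
    rfl k0_pp_011

noncomputable def cut_pp_012 : Cut := Cut.of [[⟨3, 0, 0, 1449551462⟩], [⟨0, 0, 0, 67108864⟩, ⟨1, 1, 0, 67108864⟩, ⟨2, 1, 0, 67108864⟩]]

noncomputable def f_pp_012 : ℕ → ℕ → ℕ → ℕ → Bool := onCell 0 536870912 536870912 536870912 587336777 62277027
    (rowB 3 eng mog cd0q0 cd7q2 pd1 1 false true true .pnp 0 1 2 (qsf 0 536870912 1073741824 536870912 1) ndB0q0 ndB7q2 pcB1 cut_pp_012 Ext.none)

def k0_pp_012 : ∃ t, chk3 f_pp_012 t 1 1 1 = true :=
  ⟨(l 6), by decide +kernel⟩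

theorem c_pp_012 : CertB 0 536870912 1073741824 536870912 587336777 62277027 3 eng mog cd0q0 cd7q2 pd1 false true true .pnp 0 1 2
    ndB0q0 ndB7q2 pcB1 cut_pp_012 Ext.none :=
  certB1 (fam := false) (s1 := true) (s2 := true) (a := 0) (b := 1) (c := 2) (cn := .pnp) (n1 := ndB0q0) (n2 := ndB7q2) (pc := pcB1) (cut := cut_pp_012) (xt := Ext.none) (P1 := 0) (W1 := 536870912) (P2 := 1073741824) (W2 := 536870912) (P3 := 587336777) (W3 := 62277027) (N0 := 3) (En := eng) (mo := mog) (C1 := cd0q0) (C2 := cd7q2) (C3 := pd1)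
    rfl (fun _ => rfl) k0_pp_012

noncomputable def cut_pp_022 : Cut := Cut.of [[⟨3, 0, 0, 1449551462⟩], [⟨0, 0, 0, 67108864⟩, ⟨1, 1, 0, 67108864⟩, ⟨2, 1, 0, 67108864⟩]]

noncomputable def f_pp_022 : ℕ → ℕ → ℕ → ℕ → Bool := onCell 0 536870912 1073741824 536870912 587336777 62277027
    (rowB 3 eng mog cd0q0 cd7q2 pd2 0 false true true .pp 0 2 2 (qsf 0 536870912 1073741824 536870912 2) ndB0q0 ndB7q2 pcB2 cut_pp_022 Ext.none)

def k0_pp_022 : ∃ t, chk3 f_pp_022 t 1 1 1 = true :=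
  ⟨(a (b (l 6) (a (b (b (a (b (l 6) (a (l 16200144) (l 6))) (l 6)) (a (b (l 16307784) (l 16197680)) (a (b (l 6) (l 16264960)) (l 6)))) (b (a (b (a (l 16057368) (l 16139664)) (a (l 16036112) (l 16113576))) (b (a (l 16223704) (l 6)) (a (l 16193200) (l 16273664)))) (a (b (l 16146040) (l 16060208)) (b (a (l 16174936) (l 16250576)) (l 16202984))))) (b (l 6) (a (b (l 6) (b (a (l 16325824) (l 6)) (l 16386640))) (l 6))))) (l 6)), by decide +kernel⟩

theorem c_pp_022 : CertB 0 536870912 1073741824 536870912 587336777 62277027 3 eng mog cd0q0 cd7q2 pd2 false true true .pp 0 2 2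
    ndB0q0 ndB7q2 pcB2 cut_pp_022 Ext.none :=
  certB0 (fam := false) (s1 := true) (s2 := true) (a := 0) (b := 2) (c := 2) (cn := .pp) (n1 := ndB0q0) (n2 := ndB7q2) (pc := pcB2) (cut := cut_pp_022) (xt := Ext.none) (P1 := 0) (W1 := 536870912) (P2 := 1073741824) (W2 := 536870912) (P3 := 587336777) (W3 := 62277027) (N0 := 3) (En := eng) (mo := mog) (C1 := cd0q0) (C2 := cd7q2) (C3 := pd2)
    rfl k0_pp_022

noncomputable def cut_pp_023 : Cut := Cut.of [[⟨3, 0, 0, 1449551462⟩]]

noncomputable def f_pp_023 : ℕ → ℕ → ℕ → ℕ → Bool := onCell 1073741824 536870912 0 1230186008 587336777 62277027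
    (rowB 3 eng mog cd0q0 cd7q3 pd2 2 false true true .up 0 2 3 (qsf 0 536870912 0 1230186008 2) ndB0q0 ndB7q3 pcB2 cut_pp_023 Ext.none)

def k0_pp_023 : ∃ t, chk3 f_pp_023 t 1 1 1 = true :=
  ⟨(a (b (l 2) (l 6)) (a (b (l 2) (a (b (b (l 2) (l 6)) (l 6)) (b (b (b (l 16761120) (l 16769400)) (b (l 16805832) (l 16800328))) (b (b (l 16724656) (b (l 16626456) (l 16582224))) (b (b (l 16535552) (l 16486040)) (b (l 16432512) (a (l 16404264) (l 16339592)))))))) (b (b (b (l 16713696) (l 16991632)) (b (l 146130193927) (a (b (l 16783824) (l 16775232)) (l 16845968)))) (b (b (a (b (l 16784960) (l 16793864)) (b (l 16838912) (l 16808376))) (a (b (l 16780656) (l 16732792)) (b (l 16767352) (l 16708424)))) (b (b (a (l 16654328) (l 16620488)) (a (l 16541320) (l 16492808))) (b (a (b (l 16447488) (l 16382512)) (l 16315736)) (a (b (l 16314744) (a (l 16274016) (l 16207872))) (b (l 16194176) (l 16107968))))))))), by decide +kernel⟩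

theorem c_pp_023 : CertB 0 536870912 0 1230186008 587336777 62277027 3 eng mog cd0q0 cd7q3 pd2 false true true .up 0 2 3
    ndB0q0 ndB7q3 pcB2 cut_pp_023 Ext.none :=
  certB2 (fam := false) (s1 := true) (s2 := true) (a := 0) (b := 2) (c := 3) (cn := .up) (n1 := ndB0q0) (n2 := ndB7q3) (pc := pcB2) (cut := cut_pp_023) (xt := Ext.none) (P1 := 0) (W1 := 536870912) (P2 := 0) (W2 := 1230186008) (P3 := 587336777) (W3 := 62277027) (N0 := 3) (En := eng) (mo := mog) (C1 := cd0q0) (C2 := cd7q3) (C3 := pd2)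
    rfl (fun _ => rfl) k0_pp_023

noncomputable def cut_pp_033 : Cut := Cut.of [[⟨3, 0, 0, 1449551462⟩]]

noncomputable def f_pp_033 : ℕ → ℕ → ℕ → ℕ → Bool := onCell 1610612736 536870912 0 1230186008 587336777 62277027
    (rowB 3 eng mog cd0q0 cd7q3 pd3 2 false true true .pnn 0 3 3 (qsf 0 536870912 0 1230186008 3) ndB0q0 ndB7q3 pcB3 cut_pp_033 Ext.none)

def k0_pp_033 : ∃ t, chk3 f_pp_033 t 1 1 1 = true :=
  ⟨(b (b (a (a (a (b (l 16697280) (l 16991592)) (l 16863416)) (a (b (l 16668776) (l 16870720)) (b (l 16644000) (l 16654960)))) (a (a (l 16682104) (a (l 16595952) (l 4))) (l 4))) (a (a (a (b (a (l 16789936) (l 16747920)) (a (l 16987360) (l 16744944))) (a (b (l 16737944) (l 16728936)) (b (l 16724200) (l 16712232)))) (a (b (a (l 16705320) (l 16683968)) (a (l 16692152) (l 16669696))) (b (l 16654128) (b (l 16644408) (l 16630448))))) (a (a (b (l 16624256) (b (l 16611984) (l 16598760))) (b (a (l 16604144) (l 16592704)) (a (l 16591704) (l 16584440)))) (a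 (b (a (l 16580280) (l 4)) (a (l 16576872) (l 16570496))) (a (b (l 4) (l 16554080)) (l 4)))))) (b (a (a (b (a (a (b (l 16753512) (l 16730056)) (b (l 16728544) (l 16709768))) (a (l 16907584) (l 16719000))) (b (a (l 16685744) (l 16642080)) (a (l 16633592) (l 16590824)))) (a (b (a (l 16906520) (l 16632112)) (b (l 16599984) (l 16550864))) (b (b (l 16612392) (l 16590936)) (b (l 16562064) (l 16515200))))) (a (a (b (b (l 16581472) (l 16561384)) (b (l 16532464) (l 16483160))) (b (b (l 16566576) (l 16546136)) (b (l 16510824) (l 1)))) (a (b (a (b (l 16564920) (l 1)) (l 1)) (l 1)) (l 1)))) (a (b (a (a (b (l 16555928) (l 16438024)) (b (l 16513144) (l 16393896))) (b (a (l 16475552) (l 16439328)) (a (l 16352600) (l 1)))) (a (b (a (l 16251600) (l 16198536)) (a (b (l 16121264) (l 16029416)) (l 301753673159))) (b (b (l 403759195623) (l 1)) (l 1)))) (l 1)))), by decide +kernel⟩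

theorem c_pp_033 : CertB 0 536870912 0 1230186008 587336777 62277027 3 eng mog cd0q0 cd7q3 pd3 false true true .pnn 0 3 3
    ndB0q0 ndB7q3 pcB3 cut_pp_033 Ext.none :=
  certB2 (fam := false) (s1 := true) (s2 := true) (a := 0) (b := 3) (c := 3) (cn := .pnn) (n1 := ndB0q0) (n2 := ndB7q3) (pc := pcB3) (cut := cut_pp_033) (xt := Ext.none) (P1 := 0) (W1 := 536870912) (P2 := 0) (W2 := 1230186008) (P3 := 587336777) (W3 := 62277027) (N0 := 3) (En := eng) (mo := mog) (C1 := cd0q0) (C2 := cd7q3) (C3 := pd3)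
    rfl (fun _ => rfl) k0_pp_033

noncomputable def cut_pp_101 : Cut := Cut.of [[⟨3, 0, 0, 1449551462⟩]]

noncomputable def f_pp_101 : ℕ → ℕ → ℕ → ℕ → Bool := onCell 536870912 536870912 0 536870912 587336777 62277027
    (rowB 3 eng mog cd0q1 cd7q1 pd0 1 false true true .npn 1 0 1 (qsf 536870912 536870912 536870912 536870912 0) ndB0q1 ndB7q1 pcB0 cut_pp_101 Ext.none)

def k0_pp_101 : ∃ t, chk3 f_pp_101 t 1 1 1 = true :=
  ⟨(l 6), by decide +kernel⟩

theorem c_pp_101 : CertB 536870912 536870912 536870912 536870912 587336777 62277027 3 eng mog cd0q1 cd7q1 pd0 false true true .npn 1 0 1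
    ndB0q1 ndB7q1 pcB0 cut_pp_101 Ext.none :=
  certB1 (fam := false) (s1 := true) (s2 := true) (a := 1) (b := 0) (c := 1) (cn := .npn) (n1 := ndB0q1) (n2 := ndB7q1) (pc := pcB0) (cut := cut_pp_101) (xt := Ext.none) (P1 := 536870912) (W1 := 536870912) (P2 := 536870912) (W2 := 536870912) (P3 := 587336777) (W3 := 62277027) (N0 := 3) (En := eng) (mo := mog) (C1 := cd0q1) (C2 := cd7q1) (C3 := pd0)
    rfl (fun _ => rfl) k0_pp_101

noncomputable def cut_pp_102 : Cut := Cut.of [[⟨3, 0, 0, 1449551462⟩]]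

noncomputable def f_pp_102 : ℕ → ℕ → ℕ → ℕ → Bool := onCell 536870912 536870912 1073741824 536870912 587336777 62277027
    (rowB 3 eng mog cd0q1 cd7q2 pd0 0 false true true .npp 1 0 2 (qsf 536870912 536870912 1073741824 536870912 0) ndB0q1 ndB7q2 pcB0 cut_pp_102 Ext.none)

def k0_pp_102 : ∃ t, chk3 f_pp_102 t 1 1 1 = true :=
  ⟨(l 6), by decide +kernel⟩

theorem c_pp_102 : CertB 536870912 536870912 1073741824 536870912 587336777 62277027 3 eng mog cd0q1 cd7q2 pd0 false true true .npp 1 0 2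
    ndB0q1 ndB7q2 pcB0 cut_pp_102 Ext.none :=
  certB0 (fam := false) (s1 := true) (s2 := true) (a := 1) (b := 0) (c := 2) (cn := .npp) (n1 := ndB0q1) (n2 := ndB7q2) (pc := pcB0) (cut := cut_pp_102) (xt := Ext.none) (P1 := 536870912) (W1 := 536870912) (P2 := 1073741824) (W2 := 536870912) (P3 := 587336777) (W3 := 62277027) (N0 := 3) (En := eng) (mo := mog) (C1 := cd0q1) (C2 := cd7q2) (C3 := pd0)
    rfl k0_pp_102

noncomputable def cut_pp_112 : Cut := Cut.of [[⟨3, 0, 0, 1449551462⟩]]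

noncomputable def f_pp_112 : ℕ → ℕ → ℕ → ℕ → Bool := onCell 536870912 536870912 1073741824 536870912 587336777 62277027
    (rowB 3 eng mog cd0q1 cd7q2 pd1 0 false true true .dn 1 1 2 (qsf 536870912 536870912 1073741824 536870912 1) ndB0q1 ndB7q2 pcB1 cut_pp_112 Ext.none)

def k0_pp_112 : ∃ t, chk3 f_pp_112 t 1 1 1 = true :=
  ⟨(l 6), by decide +kernel⟩

theorem c_pp_112 : CertB 536870912 536870912 1073741824 536870912 587336777 62277027 3 eng mog cd0q1 cd7q2 pd1 false true true .dn 1 1 2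
    ndB0q1 ndB7q2 pcB1 cut_pp_112 Ext.none :=
  certB0 (fam := false) (s1 := true) (s2 := true) (a := 1) (b := 1) (c := 2) (cn := .dn) (n1 := ndB0q1) (n2 := ndB7q2) (pc := pcB1) (cut := cut_pp_112) (xt := Ext.none) (P1 := 536870912) (W1 := 536870912) (P2 := 1073741824) (W2 := 536870912) (P3 := 587336777) (W3 := 62277027) (N0 := 3) (En := eng) (mo := mog) (C1 := cd0q1) (C2 := cd7q2) (C3 := pd1)
    rfl k0_pp_112

noncomputable def cut_pp_113 : Cut := Cut.of [[⟨3, 0, 0, 1449551462⟩], [⟨0, 1, 0, 67108864⟩, ⟨1, 1, 0, 67108864⟩, ⟨2, 2, 0, 16777216⟩]]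

noncomputable def f_pp_113 : ℕ → ℕ → ℕ → ℕ → Bool := onCell 536870912 536870912 0 1230186008 587336777 62277027
    (rowB 3 eng mog cd0q1 cd7q3 pd1 0 false true true .nn 1 1 3 (qsf 536870912 536870912 0 1230186008 1) ndB0q1 ndB7q3 pcB1 cut_pp_113 Ext.none)

def k0_pp_113 : ∃ t, chk3 f_pp_113 t 1 1 1 = true :=
  ⟨(b (a (l 2) (a (l 2) (b (a (l 2) (l 6)) (l 6)))) (b (a (a (l 2) (l 6)) (l 6)) (l 6))), by decide +kernel⟩

theorem c_pp_113 : CertB 536870912 536870912 0 1230186008 587336777 62277027 3 eng mog cd0q1 cd7q3 pd1 false true true .nn 1 1 3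
    ndB0q1 ndB7q3 pcB1 cut_pp_113 Ext.none :=
  certB0 (fam := false) (s1 := true) (s2 := true) (a := 1) (b := 1) (c := 3) (cn := .nn) (n1 := ndB0q1) (n2 := ndB7q3) (pc := pcB1) (cut := cut_pp_113) (xt := Ext.none) (P1 := 536870912) (W1 := 536870912) (P2 := 0) (W2 := 1230186008) (P3 := 587336777) (W3 := 62277027) (N0 := 3) (En := eng) (mo := mog) (C1 := cd0q1) (C2 := cd7q3) (C3 := pd1)
    rfl k0_pp_113

noncomputable def cut_pp_123 : Cut := Cut.of [[⟨3, 0, 0, 1449551462⟩], [⟨0, 1, 0, 67108864⟩, ⟨1, 1, 0, 67108864⟩, ⟨2, 2, 0, 16777216⟩]]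

noncomputable def f_pp_123 : ℕ → ℕ → ℕ → ℕ → Bool := onCell 1073741824 536870912 0 1230186008 587336777 62277027
    (rowB 3 eng mog cd0q1 cd7q3 pd2 2 false true true .npn 1 2 3 (qsf 536870912 536870912 0 1230186008 2) ndB0q1 ndB7q3 pcB2 cut_pp_123 Ext.none)

def k0_pp_123 : ∃ t, chk3 f_pp_123 t 1 1 1 = true :=
  ⟨(a (b (a (a (l 6) (b (a (l 6) (b (l 16746352) (l 6))) (l 6))) (b (b (a (a (a (l 16733960) (b (l 16740568) (l 16739424))) (l 16714936)) (l 16702808)) (a (a (l 6) (l 16758624)) (l 16752960))) (a (l 6) (b (b (l 16755360) (l 16793120)) (l 6))))) (l 6)) (b (b (a (b (a (l 16697152) (l 16701536)) (a (l 16747760) (l 16748304))) (b (l 16713728) (a (l 16756496) (l 16763280)))) (a (b (a (a (l 16755808) (l 16760752)) (l 16773720)) (a (b (l 16742792) (l 16747528)) (b (l 16745000) (l 16745904)))) (b (a (l 16808448) (l 16817104)) (a (b (l 16783864) (l 16775360)) (l 16844672))))) (b (a (b (a (b (l 16756184) (l 6)) (b (l 16761136) (l 16790384))) (a (l 6)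 (b (l 89154602231) (l 1)))) (b (a (b (l 16785184) (l 1)) (l 1)) (l 1))) (l 1)))), by decide +kernel⟩

theorem c_pp_123 : CertB 536870912 536870912 0 1230186008 587336777 62277027 3 eng mog cd0q1 cd7q3 pd2 false true true .npn 1 2 3
    ndB0q1 ndB7q3 pcB2 cut_pp_123 Ext.none :=
  certB2 (fam := false) (s1 := true) (s2 := true) (a := 1) (b := 2) (c := 3) (cn := .npn) (n1 := ndB0q1) (n2 := ndB7q3) (pc := pcB2) (cut := cut_pp_123) (xt := Ext.none) (P1 := 536870912) (W1 := 536870912) (P2 := 0) (W2 := 1230186008) (P3 := 587336777) (W3 := 62277027) (N0 := 3) (En := eng) (mo := mog) (C1 := cd0q1) (C2 := cd7q3) (C3 := pd2)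
    rfl (fun _ => rfl) k0_pp_123

noncomputable def cut_pp_133 : Cut := Cut.of [[⟨3, 0, 0, 1449551462⟩]]

noncomputable def f_pp_133 : ℕ → ℕ → ℕ → ℕ → Bool := onCell 536870912 536870912 0 1230186008 587336777 62277027
    (rowB 3 eng mog cd0q1 cd7q3 pd3 0 false true true .dn 1 3 3 (qsf 536870912 536870912 0 1230186008 3) ndB0q1 ndB7q3 pcB3 cut_pp_133 Ext.none)

def k0_pp_133 : ∃ t, chk3 f_pp_133 t 1 1 1 = true :=
  ⟨(b (b (a (a (b (a (l 16973104) (l 1)) (l 1)) (l 1)) (l 1)) (l 1)) (l 1)), by decide +kernel⟩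

theorem c_pp_133 : CertB 536870912 536870912 0 1230186008 587336777 62277027 3 eng mog cd0q1 cd7q3 pd3 false true true .dn 1 3 3
    ndB0q1 ndB7q3 pcB3 cut_pp_133 Ext.none :=
  certB0 (fam := false) (s1 := true) (s2 := true) (a := 1) (b := 3) (c := 3) (cn := .dn) (n1 := ndB0q1) (n2 := ndB7q3) (pc := pcB3) (cut := cut_pp_133) (xt := Ext.none) (P1 := 536870912) (W1 := 536870912) (P2 := 0) (W2 := 1230186008) (P3 := 587336777) (W3 := 62277027) (N0 := 3) (En := eng) (mo := mog) (C1 := cd0q1) (C2 := cd7q3) (C3 := pd3)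
    rfl k0_pp_133

noncomputable def cut_pp_202 : Cut := Cut.of [[⟨3, 0, 0, 1449551462⟩]]

noncomputable def f_pp_202 : ℕ → ℕ → ℕ → ℕ → Bool := onCell 0 536870912 1073741824 536870912 587336777 62277027
    (rowB 3 eng mog cd0q2 cd7q2 pd0 0 false true true .pp 2 0 2 (qsf 0 536870912 1073741824 536870912 0) ndB0q2 ndB7q2 pcB0 cut_pp_202 Ext.none)

def k0_pp_202 : ∃ t, chk3 f_pp_202 t 1 1 1 = true :=
  ⟨(l 5), by decide +kernel⟩

theorem c_pp_202 : CertB 0 536870912 1073741824 536870912 587336777 62277027 3 eng mog cd0q2 cd7q2 pd0 false true true .pp 2 0 2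
    ndB0q2 ndB7q2 pcB0 cut_pp_202 Ext.none :=
  certB0 (fam := false) (s1 := true) (s2 := true) (a := 2) (b := 0) (c := 2) (cn := .pp) (n1 := ndB0q2) (n2 := ndB7q2) (pc := pcB0) (cut := cut_pp_202) (xt := Ext.none) (P1 := 0) (W1 := 536870912) (P2 := 1073741824) (W2 := 536870912) (P3 := 587336777) (W3 := 62277027) (N0 := 3) (En := eng) (mo := mog) (C1 := cd0q2) (C2 := cd7q2) (C3 := pd0)
    rfl k0_pp_202

noncomputable def cut_pp_203 : Cut := Cut.of [[⟨3, 0, 0, 1449551462⟩]]

noncomputable def f_pp_203 : ℕ → ℕ → ℕ → ℕ → Bool := onCell 0 536870912 0 1230186008 587336777 62277027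
    (rowB 3 eng mog cd0q2 cd7q3 pd0 0 false true true .up 2 0 3 (qsf 0 536870912 0 1230186008 0) ndB0q2 ndB7q3 pcB0 cut_pp_203 Ext.none)

def k0_pp_203 : ∃ t, chk3 f_pp_203 t 1 1 1 = true :=
  ⟨(b (l 2) (a (l 5) (l 6))), by decide +kernel⟩

theorem c_pp_203 : CertB 0 536870912 0 1230186008 587336777 62277027 3 eng mog cd0q2 cd7q3 pd0 false true true .up 2 0 3
    ndB0q2 ndB7q3 pcB0 cut_pp_203 Ext.none :=
  certB0 (fam := false) (s1 := true) (s2 := true) (a := 2) (b := 0) (c := 3) (cn := .up) (n1 := ndB0q2) (n2 := ndB7q3) (pc := pcB0) (cut := cut_pp_203) (xt := Ext.none) (P1 := 0) (W1 := 536870912) (P2 := 0) (W2 := 1230186008) (P3 := 587336777) (W3 := 62277027) (N0 := 3) (En := eng) (mo := mog) (C1 := cd0q2) (C2 := cd7q3) (C3 := pd0)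
    rfl k0_pp_203

noncomputable def cut_pp_213 : Cut := Cut.of [[⟨3, 0, 0, 1449551462⟩], [⟨0, 1, 0, 67108864⟩, ⟨1, 1, 0, 67108864⟩, ⟨2, 2, 0, 16777216⟩]]

noncomputable def f_pp_213 : ℕ → ℕ → ℕ → ℕ → Bool := onCell 0 536870912 0 1230186008 587336777 62277027
    (rowB 3 eng mog cd0q2 cd7q3 pd1 0 false true true .pnn 2 1 3 (qsf 0 536870912 0 1230186008 1) ndB0q2 ndB7q3 pcB1 cut_pp_213 Ext.none)

def k0_pp_213 : ∃ t, chk3 f_pp_213 t 1 1 1 = true :=
  ⟨(b (l 6) (a (l 5) (l 6))), by decide +kernel⟩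

theorem c_pp_213 : CertB 0 536870912 0 1230186008 587336777 62277027 3 eng mog cd0q2 cd7q3 pd1 false true true .pnn 2 1 3
    ndB0q2 ndB7q3 pcB1 cut_pp_213 Ext.none :=
  certB0 (fam := false) (s1 := true) (s2 := true) (a := 2) (b := 1) (c := 3) (cn := .pnn) (n1 := ndB0q2) (n2 := ndB7q3) (pc := pcB1) (cut := cut_pp_213) (xt := Ext.none) (P1 := 0) (W1 := 536870912) (P2 := 0) (W2 := 1230186008) (P3 := 587336777) (W3 := 62277027) (N0 := 3) (En := eng) (mo := mog) (C1 := cd0q2) (C2 := cd7q3) (C3 := pd1)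
    rfl k0_pp_213

noncomputable def cut_pm_001 : Cut := Cut.of [[⟨3, 0, 0, 1449551462⟩]]

noncomputable def f_pm_001 : ℕ → ℕ → ℕ → ℕ → Bool := onCell 0 536870912 536870912 536870912 587336777 62277027
    (rowB 3 eng mog cd0q0 cd7q1 pd0 0 false true false .up 0 0 1 (qsf 0 536870912 536870912 536870912 0) ndB0q0 ndB7q1 pcB0 cut_pm_001 Ext.none)

def k0_pm_001 : ∃ t, chk3 f_pm_001 t 1 1 1 = true :=
  ⟨(l 4), by decide +kernel⟩

theorem c_pm_001 : CertB 0 536870912 536870912 536870912 587336777 62277027 3 eng mog cd0q0 cd7q1 pd0 false true false .up 0 0 1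
    ndB0q0 ndB7q1 pcB0 cut_pm_001 Ext.none :=
  certB0 (fam := false) (s1 := true) (s2 := false) (a := 0) (b := 0) (c := 1) (cn := .up) (n1 := ndB0q0) (n2 := ndB7q1) (pc := pcB0) (cut := cut_pm_001) (xt := Ext.none) (P1 := 0) (W1 := 536870912) (P2 := 536870912) (W2 := 536870912) (P3 := 587336777) (W3 := 62277027) (N0 := 3) (En := eng) (mo := mog) (C1 := cd0q0) (C2 := cd7q1) (C3 := pd0)
    rfl k0_pm_001

noncomputable def cut_pm_011 : Cut := Cut.of [[⟨3, 0, 0, 1449551462⟩]]

noncomputable def f_pm_011 : ℕ → ℕ → ℕ → ℕ → Bool := onCell 0 536870912 536870912 536870912 587336777 62277027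
    (rowB 3 eng mog cd0q0 cd7q1 pd1 0 false true false .pnn 0 1 1 (qsf 0 536870912 536870912 536870912 1) ndB0q0 ndB7q1 pcB1 cut_pm_011 Ext.none)

def k0_pm_011 : ∃ t, chk3 f_pm_011 t 1 1 1 = true :=
  ⟨(l 4), by decide +kernel⟩

theorem c_pm_011 : CertB 0 536870912 536870912 536870912 587336777 62277027 3 eng mog cd0q0 cd7q1 pd1 false true false .pnn 0 1 1
    ndB0q0 ndB7q1 pcB1 cut_pm_011 Ext.none :=
  certB0 (fam := false) (s1 := true) (s2 := false) (a := 0) (b := 1) (c := 1) (cn := .pnn) (n1 := ndB0q0) (n2 := ndB7q1) (pc := pcB1) (cut := cut_pm_011) (xt := Ext.none) (P1 := 0) (W1 := 536870912) (P2 := 536870912) (W2 := 536870912) (P3 := 587336777) (W3 := 62277027) (N0 := 3) (En := eng) (mo := mog) (C1 := cd0q0) (C2 := cd7q1) (C3 := pd1)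
    rfl k0_pm_011

noncomputable def cut_pm_012 : Cut := Cut.of [[⟨3, 0, 0, 1449551462⟩]]

noncomputable def f_pm_012 : ℕ → ℕ → ℕ → ℕ → Bool := onCell 0 536870912 1073741824 536870912 587336777 62277027
    (rowB 3 eng mog cd0q0 cd7q2 pd1 0 false true false .pnp 0 1 2 (qsf 0 536870912 1073741824 536870912 1) ndB0q0 ndB7q2 pcB1 cut_pm_012 Ext.none)

def k0_pm_012 : ∃ t, chk3 f_pm_012 t 1 1 1 = true :=
  ⟨(l 4), by decide +kernel⟩

theorem c_pm_012 : CertB 0 536870912 1073741824 536870912 587336777 62277027 3 eng mog cd0q0 cd7q2 pd1 false true false .pnp 0 1 2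
    ndB0q0 ndB7q2 pcB1 cut_pm_012 Ext.none :=
  certB0 (fam := false) (s1 := true) (s2 := false) (a := 0) (b := 1) (c := 2) (cn := .pnp) (n1 := ndB0q0) (n2 := ndB7q2) (pc := pcB1) (cut := cut_pm_012) (xt := Ext.none) (P1 := 0) (W1 := 536870912) (P2 := 1073741824) (W2 := 536870912) (P3 := 587336777) (W3 := 62277027) (N0 := 3) (En := eng) (mo := mog) (C1 := cd0q0) (C2 := cd7q2) (C3 := pd1)
    rfl k0_pm_012

noncomputable def cut_pm_022 : Cut := Cut.of [[⟨3, 0, 0, 1449551462⟩]]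

noncomputable def f_pm_022 : ℕ → ℕ → ℕ → ℕ → Bool := onCell 0 536870912 1073741824 536870912 587336777 62277027
    (rowB 3 eng mog cd0q0 cd7q2 pd2 0 false true false .pp 0 2 2 (qsf 0 536870912 1073741824 536870912 2) ndB0q0 ndB7q2 pcB2 cut_pm_022 Ext.none)

def k0_pm_022 : ∃ t, chk3 f_pm_022 t 1 1 1 = true :=
  ⟨(l 4), by decide +kernel⟩

theorem c_pm_022 : CertB 0 536870912 1073741824 536870912 587336777 62277027 3 eng mog cd0q0 cd7q2 pd2 false true false .pp 0 2 2
    ndB0q0 ndB7q2 pcB2 cut_pm_022 Ext.none :=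
  certB0 (fam := false) (s1 := true) (s2 := false) (a := 0) (b := 2) (c := 2) (cn := .pp) (n1 := ndB0q0) (n2 := ndB7q2) (pc := pcB2) (cut := cut_pm_022) (xt := Ext.none) (P1 := 0) (W1 := 536870912) (P2 := 1073741824) (W2 := 536870912) (P3 := 587336777) (W3 := 62277027) (N0 := 3) (En := eng) (mo := mog) (C1 := cd0q0) (C2 := cd7q2) (C3 := pd2)
    rfl k0_pm_022

noncomputable def cut_pm_023 : Cut := Cut.of [[⟨3, 0, 0, 1449551462⟩]]

noncomputable def f_pm_023 : ℕ → ℕ → ℕ → ℕ → Bool := onCell 0 536870912 0 1230186008 587336777 62277027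
    (rowB 3 eng mog cd0q0 cd7q3 pd2 0 false true false .up 0 2 3 (qsf 0 536870912 0 1230186008 2) ndB0q0 ndB7q3 pcB2 cut_pm_023 Ext.none)

def k0_pm_023 : ∃ t, chk3 f_pm_023 t 1 1 1 = true :=
  ⟨(b (a (l 2) (a (l 2) (b (a (l 2) (a (l 2) (l 16704824))) (a (l 4) (l 4))))) (l 4)), by decide +kernel⟩

theorem c_pm_023 : CertB 0 536870912 0 1230186008 587336777 62277027 3 eng mog cd0q0 cd7q3 pd2 false true false .up 0 2 3
    ndB0q0 ndB7q3 pcB2 cut_pm_023 Ext.none :=
  certB0 (fam := false) (s1 := true) (s2 := false) (a := 0) (b := 2) (c := 3) (cn := .up) (n1 := ndB0q0) (n2 := ndB7q3) (pc := pcB2) (cut := cut_pm_023) (xt := Ext.none) (P1 := 0) (W1 := 536870912) (P2 := 0) (W2 := 1230186008) (P3 := 587336777) (W3 := 62277027) (N0 := 3) (En := eng) (mo := mog) (C1 := cd0q0) (C2 := cd7q3) (C3 := pd2)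
    rfl k0_pm_023

noncomputable def cut_pm_033 : Cut := Cut.of [[⟨3, 0, 0, 1449551462⟩]]

noncomputable def f_pm_033 : ℕ → ℕ → ℕ → ℕ → Bool := onCell 1610612736 536870912 0 1230186008 587336777 62277027
    (rowB 3 eng mog cd0q0 cd7q3 pd3 2 false true false .pnn 0 3 3 (qsf 0 536870912 0 1230186008 3) ndB0q0 ndB7q3 pcB3 cut_pm_033 Ext.none)

def k0_pm_033 : ∃ t, chk3 f_pm_033 t 1 1 1 = true :=
  ⟨(b (b (a (a (a (a (l 16891184) (l 16684312)) (l 16738736)) (a (l 16654952) (l 4))) (l 4)) (l 4)) (l 4)), by decide +kernel⟩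

theorem c_pm_033 : CertB 0 536870912 0 1230186008 587336777 62277027 3 eng mog cd0q0 cd7q3 pd3 false true false .pnn 0 3 3
    ndB0q0 ndB7q3 pcB3 cut_pm_033 Ext.none :=
  certB2 (fam := false) (s1 := true) (s2 := false) (a := 0) (b := 3) (c := 3) (cn := .pnn) (n1 := ndB0q0) (n2 := ndB7q3) (pc := pcB3) (cut := cut_pm_033) (xt := Ext.none) (P1 := 0) (W1 := 536870912) (P2 := 0) (W2 := 1230186008) (P3 := 587336777) (W3 := 62277027) (N0 := 3) (En := eng) (mo := mog) (C1 := cd0q0) (C2 := cd7q3) (C3 := pd3)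
    rfl (fun _ => rfl) k0_pm_033

noncomputable def cut_pm_101 : Cut := Cut.of [[⟨3, 0, 0, 1449551462⟩]]

noncomputable def f_pm_101 : ℕ → ℕ → ℕ → ℕ → Bool := onCell 536870912 536870912 536870912 536870912 587336777 62277027
    (rowB 3 eng mog cd0q1 cd7q1 pd0 0 false true false .npn 1 0 1 (qsf 536870912 536870912 536870912 536870912 0) ndB0q1 ndB7q1 pcB0 cut_pm_101 Ext.none)

def k0_pm_101 : ∃ t, chk3 f_pm_101 t 1 1 1 = true :=
  ⟨(l 4), by decide +kernel⟩

theorem c_pm_101 : CertB 536870912 536870912 536870912 536870912 587336777 62277027 3 eng mog cd0q1 cd7q1 pd0 false true false .npn 1 0 1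
    ndB0q1 ndB7q1 pcB0 cut_pm_101 Ext.none :=
  certB0 (fam := false) (s1 := true) (s2 := false) (a := 1) (b := 0) (c := 1) (cn := .npn) (n1 := ndB0q1) (n2 := ndB7q1) (pc := pcB0) (cut := cut_pm_101) (xt := Ext.none) (P1 := 536870912) (W1 := 536870912) (P2 := 536870912) (W2 := 536870912) (P3 := 587336777) (W3 := 62277027) (N0 := 3) (En := eng) (mo := mog) (C1 := cd0q1) (C2 := cd7q1) (C3 := pd0)
    rfl k0_pm_101

noncomputable def cut_pm_102 : Cut := Cut.of [[⟨3, 0, 0, 1449551462⟩]]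

noncomputable def f_pm_102 : ℕ → ℕ → ℕ → ℕ → Bool := onCell 536870912 536870912 1073741824 536870912 587336777 62277027
    (rowB 3 eng mog cd0q1 cd7q2 pd0 0 false true false .npp 1 0 2 (qsf 536870912 536870912 1073741824 536870912 0) ndB0q1 ndB7q2 pcB0 cut_pm_102 Ext.none)

def k0_pm_102 : ∃ t, chk3 f_pm_102 t 1 1 1 = true :=
  ⟨(a (l 4) (b (l 4) (a (l 4) (b (l 4) (a (l 4) (b (l 4) (l 16740048))))))), by decide +kernel⟩

theorem c_pm_102 : CertB 536870912 536870912 1073741824 536870912 587336777 62277027 3 eng mog cd0q1 cd7q2 pd0 false true false .npp 1 0 2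
    ndB0q1 ndB7q2 pcB0 cut_pm_102 Ext.none :=
  certB0 (fam := false) (s1 := true) (s2 := false) (a := 1) (b := 0) (c := 2) (cn := .npp) (n1 := ndB0q1) (n2 := ndB7q2) (pc := pcB0) (cut := cut_pm_102) (xt := Ext.none) (P1 := 536870912) (W1 := 536870912) (P2 := 1073741824) (W2 := 536870912) (P3 := 587336777) (W3 := 62277027) (N0 := 3) (En := eng) (mo := mog) (C1 := cd0q1) (C2 := cd7q2) (C3 := pd0)
    rfl k0_pm_102

noncomputable def cut_pm_112 : Cut := Cut.of [[⟨3, 0, 0, 1449551462⟩]]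

noncomputable def f_pm_112 : ℕ → ℕ → ℕ → ℕ → Bool := onCell 536870912 536870912 1073741824 536870912 587336777 62277027
    (rowB 3 eng mog cd0q1 cd7q2 pd1 0 false true false .dn 1 1 2 (qsf 536870912 536870912 1073741824 536870912 1) ndB0q1 ndB7q2 pcB1 cut_pm_112 Ext.none)

def k0_pm_112 : ∃ t, chk3 f_pm_112 t 1 1 1 = true :=
  ⟨(a (l 4) (b (l 4) (a (l 4) (b (l 4) (a (l 4) (b (l 4) (l 16739520))))))), by decide +kernel⟩

theorem c_pm_112 : CertB 536870912 536870912 1073741824 536870912 587336777 62277027 3 eng mog cd0q1 cd7q2 pd1 false true false .dn 1 1 2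
    ndB0q1 ndB7q2 pcB1 cut_pm_112 Ext.none :=
  certB0 (fam := false) (s1 := true) (s2 := false) (a := 1) (b := 1) (c := 2) (cn := .dn) (n1 := ndB0q1) (n2 := ndB7q2) (pc := pcB1) (cut := cut_pm_112) (xt := Ext.none) (P1 := 536870912) (W1 := 536870912) (P2 := 1073741824) (W2 := 536870912) (P3 := 587336777) (W3 := 62277027) (N0 := 3) (En := eng) (mo := mog) (C1 := cd0q1) (C2 := cd7q2) (C3 := pd1)
    rfl k0_pm_112

noncomputable def cut_pm_113 : Cut := Cut.of [[⟨3, 0, 0, 1449551462⟩], [⟨0, 1, 0, 67108864⟩, ⟨1, 1, 0, 67108864⟩, ⟨2, 2, 0, 16777216⟩]]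

noncomputable def f_pm_113 : ℕ → ℕ → ℕ → ℕ → Bool := onCell 536870912 536870912 0 1230186008 587336777 62277027
    (rowB 3 eng mog cd0q1 cd7q3 pd1 0 false true false .nn 1 1 3 (qsf 536870912 536870912 0 1230186008 1) ndB0q1 ndB7q3 pcB1 cut_pm_113 Ext.none)

def k0_pm_113 : ∃ t, chk3 f_pm_113 t 1 1 1 = true :=
  ⟨(b (a (l 2) (a (l 2) (b (a (l 2) (a (l 2) (b (l 6) (b (l 14) (l 16780448))))) (a (b (l 16760672) (l 16751032)) (b (l 16967984) (l 16787536)))))) (a (b (b (l 2) (l 4)) (l 4)) (b (a (b (a (l 2) (b (l 16690248) (l 16673040))) (a (b (l 328128883447) (l 16559032)) (b (l 16652904) (l 16635416)))) (b (a (b (l 16739992) (l 16732912)) (b (l 16779312) (l 16777064))) (a (b (l 16724456) (l 16710680)) (b (l 16774520) (l 16776944))))) (a (b (a (l 4) (b (l 16628864) (l 16621536))) (l 4)) (b (b (a (l 16743208) (l 16773832)) (a (l 16748336) (l 16748408))) (b (a (l 16700760) (l 16778464)) (a (l 4) (l 16775640)))))))), by decide +kernel⟩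

theorem c_pm_113 : CertB 536870912 536870912 0 1230186008 587336777 62277027 3 eng mog cd0q1 cd7q3 pd1 false true false .nn 1 1 3
    ndB0q1 ndB7q3 pcB1 cut_pm_113 Ext.none :=
  certB0 (fam := false) (s1 := true) (s2 := false) (a := 1) (b := 1) (c := 3) (cn := .nn) (n1 := ndB0q1) (n2 := ndB7q3) (pc := pcB1) (cut := cut_pm_113) (xt := Ext.none) (P1 := 536870912) (W1 := 536870912) (P2 := 0) (W2 := 1230186008) (P3 := 587336777) (W3 := 62277027) (N0 := 3) (En := eng) (mo := mog) (C1 := cd0q1) (C2 := cd7q3) (C3 := pd1)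
    rfl k0_pm_113

noncomputable def cut_pm_123 : Cut := Cut.of [[⟨3, 0, 0, 1449551462⟩], [⟨0, 1, 0, 67108864⟩, ⟨1, 1, 0, 67108864⟩, ⟨2, 2, 0, 16777216⟩]]

noncomputable def f_pm_123 : ℕ → ℕ → ℕ → ℕ → Bool := onCell 1073741824 536870912 0 1230186008 587336777 62277027
    (rowB 3 eng mog cd0q1 cd7q3 pd2 2 false true false .npn 1 2 3 (qsf 536870912 536870912 0 1230186008 2) ndB0q1 ndB7q3 pcB2 cut_pm_123 Ext.none)

def k0_pm_123 : ∃ t, chk3 f_pm_123 t 1 1 1 = true :=
  ⟨(b (a (a (b (a (b (a (l 6) (b (l 6) (l 16752848))) (a (l 16762912) (l 16744208))) (b (a (l 16739928) (l 16720104)) (l 16711240))) (b (a (b (l 16746280) (l 16737552)) (l 16688176)) (b (a (l 16723616) (l 16657304)) (a (a (l 16721320) (l 16681984)) (l 16629560))))) (b (a (b (a (a (l 16703704) (l 16693632)) (l 16679984)) (l 16666272)) (b (l 16673512) (l 16651016))) (a (b (a (l 16647112) (l 16628768)) (a (l 16608248) (l 16596168))) (b (l 16879272) (a (l 16595192) (l 16599112)))))) (a (b (a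 (b (l 16670184) (l 16648728)) (b (l 16674408) (l 16657824))) (a (b (l 16631352) (a (l 16604528) (l 16612064))) (b (a (l 16639696) (l 16647848)) (a (l 16619888) (l 16627232))))) (b (a (a (l 16676600) (l 16686336)) (l 16845576)) (b (a (a (l 16654600) (l 16659864)) (l 16645208)) (l 4))))) (b (a (a (b (a (b (l 16664728) (l 16616056)) (b (l 16594032) (a (l 16566760) (l 16552696)))) (b (a (a (l 16577304) (l 16550600)) (a (l 4) (l 4))) (l 4))) (b (a (b (a (l 16568728) (l 16565768)) (a (l 16549144) (l 4))) (b (l 16573096) (l 4))) (l 4))) (l 4)) (l 4))), by decide +kernel⟩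

theorem c_pm_123 : CertB 536870912 536870912 0 1230186008 587336777 62277027 3 eng mog cd0q1 cd7q3 pd2 false true false .npn 1 2 3
    ndB0q1 ndB7q3 pcB2 cut_pm_123 Ext.none :=
  certB2 (fam := false) (s1 := true) (s2 := false) (a := 1) (b := 2) (c := 3) (cn := .npn) (n1 := ndB0q1) (n2 := ndB7q3) (pc := pcB2) (cut := cut_pm_123) (xt := Ext.none) (P1 := 536870912) (W1 := 536870912) (P2 := 0) (W2 := 1230186008) (P3 := 587336777) (W3 := 62277027) (N0 := 3) (En := eng) (mo := mog) (C1 := cd0q1) (C2 := cd7q3) (C3 := pd2)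
    rfl (fun _ => rfl) k0_pm_123

noncomputable def cut_pm_133 : Cut := Cut.of [[⟨3, 0, 0, 1449551462⟩]]

noncomputable def f_pm_133 : ℕ → ℕ → ℕ → ℕ → Bool := onCell 536870912 536870912 0 1230186008 587336777 62277027
    (rowB 3 eng mog cd0q1 cd7q3 pd3 0 false true false .dn 1 3 3 (qsf 536870912 536870912 0 1230186008 3) ndB0q1 ndB7q3 pcB3 cut_pm_133 Ext.none)

def k0_pm_133 : ∃ t, chk3 f_pm_133 t 1 1 1 = true :=
  ⟨(b (b (a (a (a (b (l 16712264) (l 1)) (l 1)) (l 1)) (l 1)) (l 1)) (l 1)), by decide +kernel⟩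

theorem c_pm_133 : CertB 536870912 536870912 0 1230186008 587336777 62277027 3 eng mog cd0q1 cd7q3 pd3 false true false .dn 1 3 3
    ndB0q1 ndB7q3 pcB3 cut_pm_133 Ext.none :=
  certB0 (fam := false) (s1 := true) (s2 := false) (a := 1) (b := 3) (c := 3) (cn := .dn) (n1 := ndB0q1) (n2 := ndB7q3) (pc := pcB3) (cut := cut_pm_133) (xt := Ext.none) (P1 := 536870912) (W1 := 536870912) (P2 := 0) (W2 := 1230186008) (P3 := 587336777) (W3 := 62277027) (N0 := 3) (En := eng) (mo := mog) (C1 := cd0q1) (C2 := cd7q3) (C3 := pd3)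
    rfl k0_pm_133

noncomputable def cut_pm_202 : Cut := Cut.of [[⟨3, 0, 0, 1449551462⟩]]

noncomputable def f_pm_202 : ℕ → ℕ → ℕ → ℕ → Bool := onCell 0 536870912 0 536870912 587336777 62277027
    (rowB 3 eng mog cd0q2 cd7q2 pd0 1 false true false .pp 2 0 2 (qsf 0 536870912 1073741824 536870912 0) ndB0q2 ndB7q2 pcB0 cut_pm_202 Ext.none)

def k0_pm_202 : ∃ t, chk3 f_pm_202 t 1 1 1 = true :=
  ⟨(b (a (b (b (a (b (a (l 16492808) (l 16479352)) (l 16521456)) (a (b (l 16454896) (l 16491416)) (b (l 16407840) (l 16445592)))) (a (b (l 16555208) (l 16587752)) (a (b (l 16525072) (l 16559656)) (b (l 16484112) (l 16524272))))) (b (a (a (b (l 16619712) (l 16646992)) (l 16879704)) (a (l 16612008) (b (l 16561168) (l 16598568)))) (a (a (l 16677688) (b (l 16669024) (l 16692448))) (a (b (l 16660256) (l 16688416)) (l 16655184))))) (a (b (b (a (b (l 16340632) (l 16378952)) (b (l 4) (l 16318224))) (a (l 16443600) (b (l 16359984) (l 16408256)))) (b (a (l 16537248) (l 16489896))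 (a (b (l 16606128) (l 16648528)) (l 16602784)))) (a (b (l 4) (b (l 16476072) (l 16556288))) (l 4)))) (b (a (b (a (a (b (a (l 16692984) (l 16702456)) (l 16710880)) (l 16718680)) (a (l 16892704) (l 16719288))) (a (a (b (l 16724616) (l 16737240)) (b (l 16735336) (l 16748272))) (b (a (l 16751656) (l 16758016)) (a (l 16764320) (l 16778984))))) (b (a (a (b (l 16689808) (l 16728448)) (b (l 16685384) (l 16727000))) (a (l 16662544) (l 4))) (a (b (a (l 16763008) (l 16740200)) (a (l 16793144) (l 16772344))) (b (l 16690416) (a (l 16751920) (l 16708256)))))) (a (a (l 2) (b (b (a (l 2) (l 16797864)) (l 2)) (l 2))) (b (a (b (a (l 16822056) (l 16838112)) (l 779100990071)) (b (a (l 16777536) (l 16740504)) (l 16793208))) (a (l 2) (b (l 16791680) (a (l 2) (l 16795536)))))))), by decide +kernel⟩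

theorem c_pm_202 : CertB 0 536870912 1073741824 536870912 587336777 62277027 3 eng mog cd0q2 cd7q2 pd0 false true false .pp 2 0 2
    ndB0q2 ndB7q2 pcB0 cut_pm_202 Ext.none :=
  certB1 (fam := false) (s1 := true) (s2 := false) (a := 2) (b := 0) (c := 2) (cn := .pp) (n1 := ndB0q2) (n2 := ndB7q2) (pc := pcB0) (cut := cut_pm_202) (xt := Ext.none) (P1 := 0) (W1 := 536870912) (P2 := 1073741824) (W2 := 536870912) (P3 := 587336777) (W3 := 62277027) (N0 := 3) (En := eng) (mo := mog) (C1 := cd0q2) (C2 := cd7q2) (C3 := pd0)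
    rfl (fun _ => rfl) k0_pm_202

noncomputable def cut_pm_203 : Cut := Cut.of [[⟨3, 0, 0, 1449551462⟩]]

noncomputable def f_pm_203 : ℕ → ℕ → ℕ → ℕ → Bool := onCell 0 536870912 0 1230186008 587336777 62277027
    (rowB 3 eng mog cd0q2 cd7q3 pd0 0 false true false .up 2 0 3 (qsf 0 536870912 0 1230186008 0) ndB0q2 ndB7q3 pcB0 cut_pm_203 Ext.none)

def k0_pm_203 : ∃ t, chk3 f_pm_203 t 1 1 1 = true :=
  ⟨(b (l 2) (b (l 2) (a (b (b (l 2) (a (a (l 6) (b (l 2) (l 16806048))) (a (l 16824064) (l 16855832)))) (b (a (a (b (a (l 6) (l 16783656)) (l 16773384)) (l 16784976)) (a (l 16805608) (b (l 16837624) (l 16828368)))) (a (a (b (l 16750608) (l 16732648)) (b (l 16767576) (l 16752352))) (b (a (l 16785824) (l 16814800)) (a (l 16771176) (l 16798272)))))) (b (l 2) (a (b (a (b (l 16889760) (l 16886800)) (b (l 2) (l 16878760))) (b (a (l 16867720) (l 16841712)) (a (l 16839728) (l 16842848)))) (b (a (l 17032224) (l 2)) (a (b (l 16816328) (l 16810328)) (b (l 16794840)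 (b (l 16789280) (l 16785576)))))))))), by decide +kernel⟩

theorem c_pm_203 : CertB 0 536870912 0 1230186008 587336777 62277027 3 eng mog cd0q2 cd7q3 pd0 false true false .up 2 0 3
    ndB0q2 ndB7q3 pcB0 cut_pm_203 Ext.none :=
  certB0 (fam := false) (s1 := true) (s2 := false) (a := 2) (b := 0) (c := 3) (cn := .up) (n1 := ndB0q2) (n2 := ndB7q3) (pc := pcB0) (cut := cut_pm_203) (xt := Ext.none) (P1 := 0) (W1 := 536870912) (P2 := 0) (W2 := 1230186008) (P3 := 587336777) (W3 := 62277027) (N0 := 3) (En := eng) (mo := mog) (C1 := cd0q2) (C2 := cd7q3) (C3 := pd0)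
    rfl k0_pm_203

noncomputable def cut_pm_213 : Cut := Cut.of [[⟨3, 0, 0, 1449551462⟩], [⟨0, 1, 0, 67108864⟩, ⟨1, 1, 0, 67108864⟩, ⟨2, 2, 0, 16777216⟩]]

noncomputable def f_pm_213 : ℕ → ℕ → ℕ → ℕ → Bool := onCell 0 536870912 0 1230186008 587336777 62277027
    (rowB 3 eng mog cd0q2 cd7q3 pd1 0 false true false .pnn 2 1 3 (qsf 0 536870912 0 1230186008 1) ndB0q2 ndB7q3 pcB1 cut_pm_213 Ext.none)

def k0_pm_213 : ∃ t, chk3 f_pm_213 t 1 1 1 = true :=
  ⟨(b (a (l 6) (b (a (l 6) (l 6)) (a (b (l 6) (a (l 6) (b (l 6) (a (l 6) (l 16790880))))) (b (b (a (l 6) (a (l 6) (l 16791944))) (a (a (l 6) (l 16792208)) (l 16797040))) (a (b (a (l 16792928) (l 16796800)) (a (l 16795736) (l 16799712))) (b (l 16801104) (l 16805136))))))) (b (a (b (l 6) (a (l 6) (b (a (l 6) (b (l 16744448) (l 16766552))) (a (b (l 6) (l 16763096)) (b (l 16765664) (l 16759968)))))) (a (b (a (b (b (l 6) (l 6)) (a (l 16751944) (l 16780904))) (b (a (l 16786520) (l 16792752)) (l 16809840))) (b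 (a (l 16789664) (l 16800416)) (a (l 16780664) (l 16789176)))) (b (a (b (l 16842040) (l 16808632)) (b (l 16807400) (l 16799824))) (b (l 16802256) (l 16918544))))) (a (b (a (b (l 6) (a (l 6) (b (a (l 6) (l 16756112)) (a (l 16753040) (l 16746760))))) (b (a (b (l 16878328) (l 16685680)) (l 16763408)) (a (l 16793288) (l 16747032)))) (a (l 1) (b (a (l 1) (l 16729528)) (l 1)))) (b (a (b (l 16778168) (a (l 16758176) (l 16781928))) (b (l 16885440) (a (l 16802376) (l 16806992)))) (a (b (a (l 16750720) (l 16774080)) (l 1)) (b (b (l 16796488) (l 16797872)) (a (l 16784864) (l 16787448)))))))), by decide +kernel⟩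

theorem c_pm_213 : CertB 0 536870912 0 1230186008 587336777 62277027 3 eng mog cd0q2 cd7q3 pd1 false true false .pnn 2 1 3
    ndB0q2 ndB7q3 pcB1 cut_pm_213 Ext.none :=
  certB0 (fam := false) (s1 := true) (s2 := false) (a := 2) (b := 1) (c := 3) (cn := .pnn) (n1 := ndB0q2) (n2 := ndB7q3) (pc := pcB1) (cut := cut_pm_213) (xt := Ext.none) (P1 := 0) (W1 := 536870912) (P2 := 0) (W2 := 1230186008) (P3 := 587336777) (W3 := 62277027) (N0 := 3) (En := eng) (mo := mog) (C1 := cd0q2) (C2 := cd7q3) (C3 := pd1)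
    rfl k0_pm_213

noncomputable def cut_mm_001 : Cut := Cut.of [[⟨3, 0, 0, 1449551462⟩]]

noncomputable def f_mm_001 : ℕ → ℕ → ℕ → ℕ → Bool := onCell 0 536870912 536870912 536870912 587336777 62277027
    (rowB 3 eng mog cd0q0 cd7q1 pd0 0 false false false .up 0 0 1 (qsf 0 536870912 536870912 536870912 0) ndB0q0 ndB7q1 pcB0 cut_mm_001 Ext.none)

def k0_mm_001 : ∃ t, chk3 f_mm_001 t 1 1 1 = true :=
  ⟨(l 6), by decide +kernel⟩

theorem c_mm_001 : CertB 0 536870912 536870912 536870912 587336777 62277027 3 eng mog cd0q0 cd7q1 pd0 false false false .up 0 0 1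
    ndB0q0 ndB7q1 pcB0 cut_mm_001 Ext.none :=
  certB0 (fam := false) (s1 := false) (s2 := false) (a := 0) (b := 0) (c := 1) (cn := .up) (n1 := ndB0q0) (n2 := ndB7q1) (pc := pcB0) (cut := cut_mm_001) (xt := Ext.none) (P1 := 0) (W1 := 536870912) (P2 := 536870912) (W2 := 536870912) (P3 := 587336777) (W3 := 62277027) (N0 := 3) (En := eng) (mo := mog) (C1 := cd0q0) (C2 := cd7q1) (C3 := pd0)
    rfl k0_mm_001

noncomputable def cut_mm_011 : Cut := Cut.of [[⟨3, 0, 0, 1449551462⟩]]

noncomputable def f_mm_011 : ℕ → ℕ → ℕ → ℕ → Bool := onCell 0 536870912 536870912 536870912 587336777 62277027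
    (rowB 3 eng mog cd0q0 cd7q1 pd1 0 false false false .pnn 0 1 1 (qsf 0 536870912 536870912 536870912 1) ndB0q0 ndB7q1 pcB1 cut_mm_011 Ext.none)

def k0_mm_011 : ∃ t, chk3 f_mm_011 t 1 1 1 = true :=
  ⟨(l 6), by decide +kernel⟩

theorem c_mm_011 : CertB 0 536870912 536870912 536870912 587336777 62277027 3 eng mog cd0q0 cd7q1 pd1 false false false .pnn 0 1 1
    ndB0q0 ndB7q1 pcB1 cut_mm_011 Ext.none :=
  certB0 (fam := false) (s1 := false) (s2 := false) (a := 0) (b := 1) (c := 1) (cn := .pnn) (n1 := ndB0q0) (n2 := ndB7q1) (pc := pcB1) (cut := cut_mm_011) (xt := Ext.none) (P1 := 0) (W1 := 536870912) (P2 := 536870912) (W2 := 536870912) (P3 := 587336777) (W3 := 62277027) (N0 := 3) (En := eng) (mo := mog) (C1 := cd0q0) (C2 := cd7q1) (C3 := pd1)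
    rfl k0_mm_011

noncomputable def cut_mm_012 : Cut := Cut.of [[⟨3, 0, 0, 1449551462⟩]]

noncomputable def f_mm_012 : ℕ → ℕ → ℕ → ℕ → Bool := onCell 0 536870912 1073741824 536870912 587336777 62277027
    (rowB 3 eng mog cd0q0 cd7q2 pd1 0 false false false .pnp 0 1 2 (qsf 0 536870912 1073741824 536870912 1) ndB0q0 ndB7q2 pcB1 cut_mm_012 Ext.none)

def k0_mm_012 : ∃ t, chk3 f_mm_012 t 1 1 1 = true :=
  ⟨(l 5), by decide +kernel⟩

theorem c_mm_012 : CertB 0 536870912 1073741824 536870912 587336777 62277027 3 eng mog cd0q0 cd7q2 pd1 false false false .pnp 0 1 2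
    ndB0q0 ndB7q2 pcB1 cut_mm_012 Ext.none :=
  certB0 (fam := false) (s1 := false) (s2 := false) (a := 0) (b := 1) (c := 2) (cn := .pnp) (n1 := ndB0q0) (n2 := ndB7q2) (pc := pcB1) (cut := cut_mm_012) (xt := Ext.none) (P1 := 0) (W1 := 536870912) (P2 := 1073741824) (W2 := 536870912) (P3 := 587336777) (W3 := 62277027) (N0 := 3) (En := eng) (mo := mog) (C1 := cd0q0) (C2 := cd7q2) (C3 := pd1)
    rfl k0_mm_012

noncomputable def cut_mm_022 : Cut := Cut.of [[⟨3, 0, 0, 1449551462⟩]]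

noncomputable def f_mm_022 : ℕ → ℕ → ℕ → ℕ → Bool := onCell 0 536870912 1073741824 536870912 587336777 62277027
    (rowB 3 eng mog cd0q0 cd7q2 pd2 0 false false false .pp 0 2 2 (qsf 0 536870912 1073741824 536870912 2) ndB0q0 ndB7q2 pcB2 cut_mm_022 Ext.none)

def k0_mm_022 : ∃ t, chk3 f_mm_022 t 1 1 1 = true :=
  ⟨(l 5), by decide +kernel⟩

theorem c_mm_022 : CertB 0 536870912 1073741824 536870912 587336777 62277027 3 eng mog cd0q0 cd7q2 pd2 false false false .pp 0 2 2
    ndB0q0 ndB7q2 pcB2 cut_mm_022 Ext.none :=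
  certB0 (fam := false) (s1 := false) (s2 := false) (a := 0) (b := 2) (c := 2) (cn := .pp) (n1 := ndB0q0) (n2 := ndB7q2) (pc := pcB2) (cut := cut_mm_022) (xt := Ext.none) (P1 := 0) (W1 := 536870912) (P2 := 1073741824) (W2 := 536870912) (P3 := 587336777) (W3 := 62277027) (N0 := 3) (En := eng) (mo := mog) (C1 := cd0q0) (C2 := cd7q2) (C3 := pd2)
    rfl k0_mm_022

noncomputable def cut_mm_023 : Cut := Cut.of [[⟨3, 0, 0, 1449551462⟩]]

noncomputable def f_mm_023 : ℕ → ℕ → ℕ → ℕ → Bool := onCell 0 536870912 0 1230186008 587336777 62277027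
    (rowB 3 eng mog cd0q0 cd7q3 pd2 0 false false false .up 0 2 3 (qsf 0 536870912 0 1230186008 2) ndB0q0 ndB7q3 pcB2 cut_mm_023 Ext.none)

def k0_mm_023 : ∃ t, chk3 f_mm_023 t 1 1 1 = true :=
  ⟨(l 5), by decide +kernel⟩

theorem c_mm_023 : CertB 0 536870912 0 1230186008 587336777 62277027 3 eng mog cd0q0 cd7q3 pd2 false false false .up 0 2 3
    ndB0q0 ndB7q3 pcB2 cut_mm_023 Ext.none :=
  certB0 (fam := false) (s1 := false) (s2 := false) (a := 0) (b := 2) (c := 3) (cn := .up) (n1 := ndB0q0) (n2 := ndB7q3) (pc := pcB2) (cut := cut_mm_023) (xt := Ext.none) (P1 := 0) (W1 := 536870912) (P2 := 0) (W2 := 1230186008) (P3 := 587336777) (W3 := 62277027) (N0 := 3) (En := eng) (mo := mog) (C1 := cd0q0) (C2 := cd7q3) (C3 := pd2)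
    rfl k0_mm_023

noncomputable def cut_mm_033 : Cut := Cut.of [[⟨3, 0, 0, 1449551462⟩]]

noncomputable def f_mm_033 : ℕ → ℕ → ℕ → ℕ → Bool := onCell 0 536870912 0 1230186008 587336777 62277027
    (rowB 3 eng mog cd0q0 cd7q3 pd3 0 false false false .pnn 0 3 3 (qsf 0 536870912 0 1230186008 3) ndB0q0 ndB7q3 pcB3 cut_mm_033 Ext.none)

def k0_mm_033 : ∃ t, chk3 f_mm_033 t 1 1 1 = true :=
  ⟨(l 5), by decide +kernel⟩

theorem c_mm_033 : CertB 0 536870912 0 1230186008 587336777 62277027 3 eng mog cd0q0 cd7q3 pd3 false false false .pnn 0 3 3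
    ndB0q0 ndB7q3 pcB3 cut_mm_033 Ext.none :=
  certB0 (fam := false) (s1 := false) (s2 := false) (a := 0) (b := 3) (c := 3) (cn := .pnn) (n1 := ndB0q0) (n2 := ndB7q3) (pc := pcB3) (cut := cut_mm_033) (xt := Ext.none) (P1 := 0) (W1 := 536870912) (P2 := 0) (W2 := 1230186008) (P3 := 587336777) (W3 := 62277027) (N0 := 3) (En := eng) (mo := mog) (C1 := cd0q0) (C2 := cd7q3) (C3 := pd3)
    rfl k0_mm_033

noncomputable def cut_mm_101 : Cut := Cut.of [[⟨3, 0, 0, 1449551462⟩], [⟨0, 1, 0, 67108864⟩, ⟨1, 0, 0, 67108864⟩, ⟨2, 1, 0, 67108864⟩]]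

noncomputable def f_mm_101 : ℕ → ℕ → ℕ → ℕ → Bool := onCell 536870912 536870912 0 536870912 587336777 62277027
    (rowB 3 eng mog cd0q1 cd7q1 pd0 1 false false false .npn 1 0 1 (qsf 536870912 536870912 536870912 536870912 0) ndB0q1 ndB7q1 pcB0 cut_mm_101 Ext.none)

def k0_mm_101 : ∃ t, chk3 f_mm_101 t 1 1 1 = true :=
  ⟨(l 6), by decide +kernel⟩

theorem c_mm_101 : CertB 536870912 536870912 536870912 536870912 587336777 62277027 3 eng mog cd0q1 cd7q1 pd0 false false false .npn 1 0 1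
    ndB0q1 ndB7q1 pcB0 cut_mm_101 Ext.none :=
  certB1 (fam := false) (s1 := false) (s2 := false) (a := 1) (b := 0) (c := 1) (cn := .npn) (n1 := ndB0q1) (n2 := ndB7q1) (pc := pcB0) (cut := cut_mm_101) (xt := Ext.none) (P1 := 536870912) (W1 := 536870912) (P2 := 536870912) (W2 := 536870912) (P3 := 587336777) (W3 := 62277027) (N0 := 3) (En := eng) (mo := mog) (C1 := cd0q1) (C2 := cd7q1) (C3 := pd0)
    rfl (fun _ => rfl) k0_mm_101

noncomputable def cut_mm_102 : Cut := Cut.of [[⟨3, 0, 0, 1449551462⟩], [⟨0, 1, 0, 67108864⟩, ⟨1, 0, 0, 67108864⟩, ⟨2, 1, 0, 67108864⟩]]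

noncomputable def f_mm_102 : ℕ → ℕ → ℕ → ℕ → Bool := onCell 536870912 536870912 1073741824 536870912 587336777 62277027
    (rowB 3 eng mog cd0q1 cd7q2 pd0 0 false false false .npp 1 0 2 (qsf 536870912 536870912 1073741824 536870912 0) ndB0q1 ndB7q2 pcB0 cut_mm_102 Ext.none)

def k0_mm_102 : ∃ t, chk3 f_mm_102 t 1 1 1 = true :=
  ⟨(l 6), by decide +kernel⟩

theorem c_mm_102 : CertB 536870912 536870912 1073741824 536870912 587336777 62277027 3 eng mog cd0q1 cd7q2 pd0 false false false .npp 1 0 2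
    ndB0q1 ndB7q2 pcB0 cut_mm_102 Ext.none :=
  certB0 (fam := false) (s1 := false) (s2 := false) (a := 1) (b := 0) (c := 2) (cn := .npp) (n1 := ndB0q1) (n2 := ndB7q2) (pc := pcB0) (cut := cut_mm_102) (xt := Ext.none) (P1 := 536870912) (W1 := 536870912) (P2 := 1073741824) (W2 := 536870912) (P3 := 587336777) (W3 := 62277027) (N0 := 3) (En := eng) (mo := mog) (C1 := cd0q1) (C2 := cd7q2) (C3 := pd0)
    rfl k0_mm_102

noncomputable def cut_mm_112 : Cut := Cut.of [[⟨3, 0, 0, 1449551462⟩]]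

noncomputable def f_mm_112 : ℕ → ℕ → ℕ → ℕ → Bool := onCell 536870912 536870912 1073741824 536870912 587336777 62277027
    (rowB 3 eng mog cd0q1 cd7q2 pd1 0 false false false .dn 1 1 2 (qsf 536870912 536870912 1073741824 536870912 1) ndB0q1 ndB7q2 pcB1 cut_mm_112 Ext.none)

def k0_mm_112 : ∃ t, chk3 f_mm_112 t 1 1 1 = true :=
  ⟨(l 6), by decide +kernel⟩

theorem c_mm_112 : CertB 536870912 536870912 1073741824 536870912 587336777 62277027 3 eng mog cd0q1 cd7q2 pd1 false false false .dn 1 1 2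
    ndB0q1 ndB7q2 pcB1 cut_mm_112 Ext.none :=
  certB0 (fam := false) (s1 := false) (s2 := false) (a := 1) (b := 1) (c := 2) (cn := .dn) (n1 := ndB0q1) (n2 := ndB7q2) (pc := pcB1) (cut := cut_mm_112) (xt := Ext.none) (P1 := 536870912) (W1 := 536870912) (P2 := 1073741824) (W2 := 536870912) (P3 := 587336777) (W3 := 62277027) (N0 := 3) (En := eng) (mo := mog) (C1 := cd0q1) (C2 := cd7q2) (C3 := pd1)
    rfl k0_mm_112

noncomputable def cut_mm_113 : Cut := Cut.of [[⟨3, 0, 0, 1449551462⟩]]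

noncomputable def f_mm_113 : ℕ → ℕ → ℕ → ℕ → Bool := onCell 536870912 536870912 0 1230186008 587336777 62277027
    (rowB 3 eng mog cd0q1 cd7q3 pd1 0 false false false .nn 1 1 3 (qsf 536870912 536870912 0 1230186008 1) ndB0q1 ndB7q3 pcB1 cut_mm_113 Ext.none)

def k0_mm_113 : ∃ t, chk3 f_mm_113 t 1 1 1 = true :=
  ⟨(a (l 5) (b (l 5) (l 6))), by decide +kernel⟩

theorem c_mm_113 : CertB 536870912 536870912 0 1230186008 587336777 62277027 3 eng mog cd0q1 cd7q3 pd1 false false false .nn 1 1 3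
    ndB0q1 ndB7q3 pcB1 cut_mm_113 Ext.none :=
  certB0 (fam := false) (s1 := false) (s2 := false) (a := 1) (b := 1) (c := 3) (cn := .nn) (n1 := ndB0q1) (n2 := ndB7q3) (pc := pcB1) (cut := cut_mm_113) (xt := Ext.none) (P1 := 536870912) (W1 := 536870912) (P2 := 0) (W2 := 1230186008) (P3 := 587336777) (W3 := 62277027) (N0 := 3) (En := eng) (mo := mog) (C1 := cd0q1) (C2 := cd7q3) (C3 := pd1)
    rfl k0_mm_113

noncomputable def cut_mm_123 : Cut := Cut.of [[⟨3, 0, 0, 1449551462⟩]]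

noncomputable def f_mm_123 : ℕ → ℕ → ℕ → ℕ → Bool := onCell 1073741824 536870912 0 1230186008 587336777 62277027
    (rowB 3 eng mog cd0q1 cd7q3 pd2 2 false false false .npn 1 2 3 (qsf 536870912 536870912 0 1230186008 2) ndB0q1 ndB7q3 pcB2 cut_mm_123 Ext.none)

def k0_mm_123 : ∃ t, chk3 f_mm_123 t 1 1 1 = true :=
  ⟨(b (l 5) (l 5)), by decide +kernel⟩

theorem c_mm_123 : CertB 536870912 536870912 0 1230186008 587336777 62277027 3 eng mog cd0q1 cd7q3 pd2 false false false .npn 1 2 3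
    ndB0q1 ndB7q3 pcB2 cut_mm_123 Ext.none :=
  certB2 (fam := false) (s1 := false) (s2 := false) (a := 1) (b := 2) (c := 3) (cn := .npn) (n1 := ndB0q1) (n2 := ndB7q3) (pc := pcB2) (cut := cut_mm_123) (xt := Ext.none) (P1 := 536870912) (W1 := 536870912) (P2 := 0) (W2 := 1230186008) (P3 := 587336777) (W3 := 62277027) (N0 := 3) (En := eng) (mo := mog) (C1 := cd0q1) (C2 := cd7q3) (C3 := pd2)
    rfl (fun _ => rfl) k0_mm_123

noncomputable def cut_mm_133 : Cut := Cut.of [[⟨3, 0, 0, 1449551462⟩]]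

noncomputable def f_mm_133 : ℕ → ℕ → ℕ → ℕ → Bool := onCell 1610612736 536870912 0 1230186008 587336777 62277027
    (rowB 3 eng mog cd0q1 cd7q3 pd3 2 false false false .dn 1 3 3 (qsf 536870912 536870912 0 1230186008 3) ndB0q1 ndB7q3 pcB3 cut_mm_133 Ext.none)

def k0_mm_133 : ∃ t, chk3 f_mm_133 t 1 1 1 = true :=
  ⟨(l 5), by decide +kernel⟩

theorem c_mm_133 : CertB 536870912 536870912 0 1230186008 587336777 62277027 3 eng mog cd0q1 cd7q3 pd3 false false false .dn 1 3 3
    ndB0q1 ndB7q3 pcB3 cut_mm_133 Ext.none :=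
  certB2 (fam := false) (s1 := false) (s2 := false) (a := 1) (b := 3) (c := 3) (cn := .dn) (n1 := ndB0q1) (n2 := ndB7q3) (pc := pcB3) (cut := cut_mm_133) (xt := Ext.none) (P1 := 536870912) (W1 := 536870912) (P2 := 0) (W2 := 1230186008) (P3 := 587336777) (W3 := 62277027) (N0 := 3) (En := eng) (mo := mog) (C1 := cd0q1) (C2 := cd7q3) (C3 := pd3)
    rfl (fun _ => rfl) k0_mm_133

noncomputable def cut_mm_202 : Cut := Cut.of [[⟨3, 0, 0, 1449551462⟩], [⟨0, 1, 0, 67108864⟩, ⟨1, 0, 0, 67108864⟩, ⟨2, 1, 0, 67108864⟩]]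

noncomputable def f_mm_202 : ℕ → ℕ → ℕ → ℕ → Bool := onCell 0 536870912 0 536870912 587336777 62277027
    (rowB 3 eng mog cd0q2 cd7q2 pd0 1 false false false .pp 2 0 2 (qsf 0 536870912 1073741824 536870912 0) ndB0q2 ndB7q2 pcB0 cut_mm_202 Ext.none)

def k0_mm_202 : ∃ t, chk3 f_mm_202 t 1 1 1 = true :=
  ⟨(a (a (b (b (b (b (l 16504184) (a (l 16534632) (l 16538640))) (a (b (l 16565400) (l 16595264)) (b (l 16570536) (l 16597352)))) (b (a (l 16635000) (b (l 16621480) (l 16632016))) (a (b (l 16661816) (a (l 16676496) (l 16670640))) (b (a (l 16653240) (l 16655024)) (a (l 16671504) (l 16671128)))))) (b (b (a (b (l 16690320) (l 16702408)) (b (a (l 16685848) (l 16681056)) (a (l 16694648) (l 6)))) (a (b (l 16710032) (l 154182614247)) (l 6))) (l 2))) (b (b (b (b (a (l 16514560) (a (l 16527072) (l 16538064))) (a (l 16548192) (l 16564328))) (a (l 16590320) (b (l 16593184) (a (l 16612736) (l 6))))) (b (a (b (b (l 16619600) (l 16620568)) (a (b (l 16634344) (l 16643440))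 (l 16646280))) (b (a (b (l 16627304) (l 6)) (l 6)) (l 6))) (a (b (a (l 16657824) (l 6)) (l 6)) (l 6)))) (l 6))) (b (b (a (a (b (a (b (l 16552752) (l 16585208)) (l 6)) (l 6)) (l 6)) (l 6)) (l 6)) (l 6))), by decide +kernel⟩

theorem c_mm_202 : CertB 0 536870912 1073741824 536870912 587336777 62277027 3 eng mog cd0q2 cd7q2 pd0 false false false .pp 2 0 2
    ndB0q2 ndB7q2 pcB0 cut_mm_202 Ext.none :=
  certB1 (fam := false) (s1 := false) (s2 := false) (a := 2) (b := 0) (c := 2) (cn := .pp) (n1 := ndB0q2) (n2 := ndB7q2) (pc := pcB0) (cut := cut_mm_202) (xt := Ext.none) (P1 := 0) (W1 := 536870912) (P2 := 1073741824) (W2 := 536870912) (P3 := 587336777) (W3 := 62277027) (N0 := 3) (En := eng) (mo := mog) (C1 := cd0q2) (C2 := cd7q2) (C3 := pd0)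
    rfl (fun _ => rfl) k0_mm_202

noncomputable def cut_mm_203 : Cut := Cut.of [[⟨3, 0, 0, 1449551462⟩]]

noncomputable def f_mm_203 : ℕ → ℕ → ℕ → ℕ → Bool := onCell 0 536870912 0 1230186008 587336777 62277027
    (rowB 3 eng mog cd0q2 cd7q3 pd0 0 false false false .up 2 0 3 (qsf 0 536870912 0 1230186008 0) ndB0q2 ndB7q3 pcB0 cut_mm_203 Ext.none)

def k0_mm_203 : ∃ t, chk3 f_mm_203 t 1 1 1 = true :=
  ⟨(b (l 2) (b (l 2) (a (b (l 6) (a (b (l 6) (a (b (l 6) (a (l 16728920) (l 6))) (l 6))) (l 6))) (l 3)))), by decide +kernel⟩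

theorem c_mm_203 : CertB 0 536870912 0 1230186008 587336777 62277027 3 eng mog cd0q2 cd7q3 pd0 false false false .up 2 0 3
    ndB0q2 ndB7q3 pcB0 cut_mm_203 Ext.none :=
  certB0 (fam := false) (s1 := false) (s2 := false) (a := 2) (b := 0) (c := 3) (cn := .up) (n1 := ndB0q2) (n2 := ndB7q3) (pc := pcB0) (cut := cut_mm_203) (xt := Ext.none) (P1 := 0) (W1 := 536870912) (P2 := 0) (W2 := 1230186008) (P3 := 587336777) (W3 := 62277027) (N0 := 3) (En := eng) (mo := mog) (C1 := cd0q2) (C2 := cd7q3) (C3 := pd0)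
    rfl k0_mm_203

noncomputable def cut_mm_213 : Cut := Cut.of [[⟨3, 0, 0, 1449551462⟩]]

noncomputable def f_mm_213 : ℕ → ℕ → ℕ → ℕ → Bool := onCell 0 536870912 0 1230186008 587336777 62277027
    (rowB 3 eng mog cd0q2 cd7q3 pd1 0 false false false .pnn 2 1 3 (qsf 0 536870912 0 1230186008 1) ndB0q2 ndB7q3 pcB1 cut_mm_213 Ext.none)

def k0_mm_213 : ∃ t, chk3 f_mm_213 t 1 1 1 = true :=
  ⟨(b (l 6) (b (l 6) (a (b (l 6) (b (l 6) (l 1))) (l 3)))), by decide +kernel⟩

theorem c_mm_213 : CertB 0 536870912 0 1230186008 587336777 62277027 3 eng mog cd0q2 cd7q3 pd1 false false false .pnn 2 1 3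
    ndB0q2 ndB7q3 pcB1 cut_mm_213 Ext.none :=
  certB0 (fam := false) (s1 := false) (s2 := false) (a := 2) (b := 1) (c := 3) (cn := .pnn) (n1 := ndB0q2) (n2 := ndB7q3) (pc := pcB1) (cut := cut_mm_213) (xt := Ext.none) (P1 := 0) (W1 := 536870912) (P2 := 0) (W2 := 1230186008) (P3 := 587336777) (W3 := 62277027) (N0 := 3) (En := eng) (mo := mog) (C1 := cd0q2) (C2 := cd7q3) (C3 := pd1)
    rfl k0_mm_213

end Pool.Agent.Strip051.G.I5470_6050.Tab.C.BB07

namespace Pool.Agent.Strip051.G.I5470_6050.Tab.C.BB10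

open Pool.Agent.Strip051.PB Pool.Agent.Strip051.PB.T
open Pool.Agent.Strip051.G.I5470_6050.Tab

noncomputable def f_pp_001 : ℕ → ℕ → ℕ → ℕ → Bool := onCell 0 536870912 0 536870912 587336777 62277027
    (rowB 3 eng mog cd1q0 cd0q1 pd0 1 false true true .up 0 0 1 (qsf 0 536870912 536870912 536870912 0) ndB1q0 ndB0q1 pcB0 Cut.none Ext.none)

def k0_pp_001 : ∃ t, chk3 f_pp_001 t 1 1 1 = true :=
  ⟨(l 3), by decide +kernel⟩

theorem c_pp_001 : CertB 0 536870912 536870912 536870912 587336777 62277027 3 eng mog cd1q0 cd0q1 pd0 false true true .up 0 0 1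
    ndB1q0 ndB0q1 pcB0 Cut.none Ext.none :=
  certB1 (fam := false) (s1 := true) (s2 := true) (a := 0) (b := 0) (c := 1) (cn := .up) (n1 := ndB1q0) (n2 := ndB0q1) (pc := pcB0) (cut := Cut.none) (xt := Ext.none) (P1 := 0) (W1 := 536870912) (P2 := 536870912) (W2 := 536870912) (P3 := 587336777) (W3 := 62277027) (N0 := 3) (En := eng) (mo := mog) (C1 := cd1q0) (C2 := cd0q1) (C3 := pd0)
    rfl (fun _ => rfl) k0_pp_001

noncomputable def cut_pp_011 : Cut := Cut.of [[⟨0, 0, 0, 67108864⟩, ⟨1, 1, 0, 67108864⟩, ⟨2, 1, 0, 67108864⟩]]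

noncomputable def f_pp_011 : ℕ → ℕ → ℕ → ℕ → Bool := onCell 0 536870912 536870912 536870912 587336777 62277027
    (rowB 3 eng mog cd1q0 cd0q1 pd1 0 false true true .pnn 0 1 1 (qsf 0 536870912 536870912 536870912 1) ndB1q0 ndB0q1 pcB1 cut_pp_011 Ext.none)

def k0_pp_011 : ∃ t, chk3 f_pp_011 t 1 1 1 = true :=
  ⟨(a (b (l 3) (b (l 3) (a (b (l 3) (a (b (l 3) (a (b (l 3) (l 6)) (l 3))) (l 3))) (l 3)))) (l 3)), by decide +kernel⟩

theorem c_pp_011 : CertB 0 536870912 536870912 536870912 587336777 62277027 3 eng mog cd1q0 cd0q1 pd1 false true true .pnn 0 1 1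
    ndB1q0 ndB0q1 pcB1 cut_pp_011 Ext.none :=
  certB0 (fam := false) (s1 := true) (s2 := true) (a := 0) (b := 1) (c := 1) (cn := .pnn) (n1 := ndB1q0) (n2 := ndB0q1) (pc := pcB1) (cut := cut_pp_011) (xt := Ext.none) (P1 := 0) (W1 := 536870912) (P2 := 536870912) (W2 := 536870912) (P3 := 587336777) (W3 := 62277027) (N0 := 3) (En := eng) (mo := mog) (C1 := cd1q0) (C2 := cd0q1) (C3 := pd1)
    rfl k0_pp_011

noncomputable def cut_pp_012 : Cut := Cut.of [[⟨0, 0, 0, 44739242⟩, ⟨1, 1, 0, 44739242⟩, ⟨2, 1, 0, 44739242⟩]]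

noncomputable def f_pp_012 : ℕ → ℕ → ℕ → ℕ → Bool := onCell 536870912 536870912 0 536870912 587336777 62277027
    (rowB 3 eng mog cd1q0 cd0q2 pd1 2 false true true .pnp 0 1 2 (qsf 0 536870912 0 536870912 1) ndB1q0 ndB0q2 pcB1 cut_pp_012 Ext.none)

def k0_pp_012 : ∃ t, chk3 f_pp_012 t 4 2 1 = true :=
  ⟨(b (l 2) (l 3)), by decide +kernel⟩

def k1_pp_012 : ∃ t, chk3 f_pp_012 t 5 4 1 = true :=
  ⟨(a (b (b (l 16755304) (a (a (l 2) (l 16756600)) (l 16743184))) (a (a (l 2) (b (b (l 16766184) (l 16769160)) (b (b (l 94053042887) (a (l 201964112007) (l 16760880))) (a (b (a (l 2) (b (b (l 16761488) (l 156397178199)) (l 191293789223))) (l 3)) (b (a (b (l 16759640) (b (l 16761416) (l 155860307111))) (l 16758720)) (a (l 192904402407) (b (b (l 128479890727) (l 155323436231)) (l 188609434503)))))))) (b (a (b (l 16759856) (l 16765584)) (b (l 16751288) (l 16759096))) (a (b (l 16768832) (a (b (l 16761064) (a (b (l 16759808) (a (l 160155274615) (l 128479889031))) (l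 16759032))) (b (l 16767592) (l 16761152)))) (b (a (l 16766616) (l 16763496)) (l 16763528)))))) (b (b (a (l 16705744) (l 16685840)) (a (l 16724144) (l 16703624))) (b (a (l 16741552) (l 16721184)) (a (a (b (l 16758136) (a (l 16766200) (l 16762824))) (b (l 16748984) (l 16777888))) (l 16738136))))), by decide +kernel⟩

def k2_pp_012 : ∃ t, chk3 f_pp_012 t 10 5 1 = true :=
  ⟨(b (a (l 3) (b (a (b (b (a (a (b (l 186998822039) (l 3)) (b (a (l 159081527943) (l 128479887783)) (l 185925059719))) (a (b (l 16760288) (a (b (l 137069821735) (l 176798274919)) (l 129016758039))) (l 16759624))) (a (l 3) (b (a (l 184314458167) (a (b (l 137606691783) (l 175724533895)) (l 129016757399))) (c (l 183240733415) (l 188609431751))))) (l 3)) (b (a (b (l 16761144) (a (b (l 16761064) (a (b (l 138143562327) (l 174650793063)) (l 129553628167))) (l 16765040))) (b (l 16767856) (l 16761112))) (a (b (a (c (l 180556380151) (l 189146304759)) (b (a (b (l 138680433031) (l 173577052407))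 (l 130627369783)) (l 181093235943))) (l 3)) (b (a (b (l 16762064) (a (b (l 139217304327) (l 173040182743)) (l 131164241063))) (b (l 16760472) (l 16762616))) (a (b (l 180556366375) (l 3)) (b (a (b (l 139754175527) (l 173040184087)) (l 130627370599)) (l 180556378263))))))) (l 3))) (l 3)), by decide +kernel⟩

def k3_pp_012 : ∃ t, chk3 f_pp_012 t 11 10 1 = true :=
  ⟨(a (b (a (b (a (l 16768880) (l 16768296)) (a (b (l 16761088) (a (b (l 16763208) (a (l 152102208231) (l 125795544071))) (l 16767800))) (b (l 16768376) (l 16761040)))) (b (l 16763912) (a (l 16769352) (l 16768280)))) (a (b (a (b (a (b (l 176798283399) (l 3)) (b (a (l 151028478407) (l 122574333975)) (l 175724543207))) (l 3)) (b (a (b (l 16764512) (a (b (l 130627397143) (l 168208350455)) (l 122037464231))) (l 16763784)) (a (l 177872029783) (b (a (b (l 129553657191) (l 167671481191)) (l 120426852999)) (l 174650804775))))) (l 3)) (b (a (b (l 16761936) (a (b (l 16765848) (a (b (l 127943045383) (l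 167134611975)) (l 118816241799))) (l 16765008))) (b (l 16769040) (l 16762808))) (a (b (a (l 176798283703) (b (a (b (l 126332434263) (l 166060871879)) (l 117742501207)) (l 173040195607))) (l 3)) (b (a (b (l 16767216) (a (b (l 124184952263) (l 164987131815)) (l 115595019159))) (l 16766264)) (a (b (l 171966455623) (l 3)) (b (a (b (l 123111211783) (l 163913391783)) (l 113984408023)) (l 170892715671)))))))) (b (a (b (a (l 16757688) (l 16753200)) (l 16763216)) (b (l 16745520) (a (l 16756320) (l 16751544)))) (a (b (l 16764120) (a (b (l 16763648) (a (b (l 16768632) (a (b (l 120963729815) (l 162302780871)) (l 112373796919))) (l 16767504))) (b (l 16769456) (l 16764336)))) (b (l 16762480) (a (l 16770072) (l 16768104)))))), by decide +kernel⟩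

def k4_pp_012 : ∃ t, chk3 f_pp_012 t 11 11 1 = true :=
  ⟨(a (l 3) (b (a (b (a (b (a (l 173577068519) (b (a (l 139754202583) (l 16772472)) (l 168208364791))) (l 3)) (b (a (b (l 16769840) (a (l 138143591271) (l 16773056))) (l 16768408)) (a (l 169282109831) (b (l 118279387431) (l 163376529207))))) (l 3)) (b (a (b (l 16764880) (a (b (l 16770624) (l 116668774967)) (l 16769304))) (b (l 16769864) (l 16765768))) (a (b (a (l 157470952407) (b (l 109689452423) (l 152639114119))) (l 3)) (b (a (b (l 16771952) (l 109152579751)) (l 16770488)) (a (l 151565370887) (b (a (l 120426870199) (l 16776048)) (l 145659795399))))))) (l 3))), by decide +kernel⟩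

def k5_pp_012 : ∃ t, chk3 f_pp_012 t 2 3 1 = true :=
  ⟨(l 3), by decide +kernel⟩

def k6_pp_012 : ∃ t, chk3 f_pp_012 t 6 4 1 = true :=
  ⟨(b (a (b (l 16653408) (a (l 16681632) (l 16658200))) (a (l 16625536) (l 16601168))) (a (b (a (l 16699040) (l 16674840)) (a (l 16716096) (l 16691784))) (b (a (l 16649800) (l 16623872)) (a (b (l 16661776) (l 16669968)) (l 16681512))))), by decide +kernel⟩

def k7_pp_012 : ∃ t, chk3 f_pp_012 t 12 5 1 = true :=
  ⟨(b (a (b (a (l 16739080) (l 16727544)) (a (b (a (l 16754976) (l 16749840)) (l 16761808)) (b (l 16741320) (a (l 16753760) (l 16748256))))) (b (l 16709032) (a (l 16734232) (l 16721288)))) (a (b (a (b (a (l 16770552) (l 16768104)) (a (b (l 16766552) (a (b (l 16773008) (a (l 119353126551) (l 16776512))) (l 16771344))) (b (l 16770472) (l 16767152)))) (b (l 16761128) (a (l 16770888) (l 16767912)))) (a (b (a (b (a (b (l 141901689703) (l 3)) (b (a (l 116131902103) (l 16776856)) (a (l 3) (l 134922378263)))) (l 3))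 (b (a (b (l 16773680) (a (l 112910677511) (l 16777104))) (l 16771872)) (a (b (a (l 146196670455) (l 131164282471)) (l 3)) (b (a (l 107541968887) (l 16777248)) (a (l 144586058295) (l 127943057351)))))) (l 3)) (b (a (b (l 16788560) (a (b (l 16774024) (a (l 106468227271) (l 16777312))) (l 16772144))) (b (l 16771024) (l 16767928))) (a (b (a (b (a (l 137606736775) (l 125795568615)) (l 3)) (b (c (l 101636390343) (l 98415164327)) (c (l 129553672551) (l 129016794743)))) (l 3)) (b (a (b (l 16774144) (c (l 99488906647) (l 97341421831))) (l 16772272)) (a (b (a (l 135996124279) (l 117742510167)) (l 3)) (b (c (l 16778792) (l 95730808647)) (a (l 134922382407) (l 114521284519))))))))) (b (a (b (a (l 16752616) (l 16746784)) (l 16760376)) (b (l 16737080) (l 16748096))) (a (b (a (l 16771064) (l 16767552)) (a (b (l 16768208) (a (b (l 16774120) (l 94657067719)) (l 16772288))) (l 16779688))) (b (l 16759192) (a (l 16771016) (l 16766536))))))), by decide +kernel⟩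

def k8_pp_012 : ∃ t, chk3 f_pp_012 t 13 5 1 = true :=
  ⟨(b (a (b (l 16703544) (a (l 16707680) (l 16693936))) (b (b (l 16651552) (l 16659816)) (a (l 16680128) (l 16666360)))) (a (b (a (l 16728832) (l 16714752)) (a (b (l 16745816) (l 16757240)) (b (l 16731816) (l 16743416)))) (b (a (l 16700592) (l 16686440)) (a (b (l 16717328) (l 16729080)) (l 16708624))))), by decide +kernel⟩

def k9_pp_012 : ∃ t, chk3 f_pp_012 t 7 2 1 = true :=
  ⟨(b (a (b (a (l 16577072) (l 16638128)) (a (b (l 16598400) (l 16613320)) (b (l 16574296) (l 16588480)))) (b (a (l 16533384) (l 16514848)) (a (b (l 16553016) (l 16566600)) (b (l 16535144) (l 16548608))))) (a (b (a (b (b (l 16625112) (l 16633144)) (a (l 16652776) (l 16639504))) (b (l 16603712) (a (l 16626696) (l 16614448)))) (a (b (a (l 16693408) (b (l 16653664) (l 16663840))) (a (b (l 16688528) (l 16699800)) (b (l 16674456) (l 16685472)))) (b (a (b (l 16640584) (l 16650512)) (l 16675096)) (a (a (l 16711560) (l 16662928))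 (l 16679688))))) (b (a (b (l 16581488) (l 16598016)) (b (l 16562976) (l 16578896))) (a (a (b (l 16642776) (l 16662560)) (b (l 16611168) (l 16630528))) (b (a (l 16601064) (l 16590744)) (a (l 16619576) (l 16608248))))))), by decide +kernel⟩

def k10_pp_012 : ∃ t, chk3 f_pp_012 t 6 3 1 = true :=
  ⟨(b (a (b (a (l 3) (b (a (b (a (b (a (b (a (l 134385511335) (l 104857617335)) (l 3)) (b (l 16778040) (l 130090541895))) (l 3)) (b (a (l 16786368) (l 16772216)) (a (l 133311764519) (l 90362110695)))) (l 3)) (b (a (a (b (l 16769480) (l 16775568)) (l 16790376)) (l 16770624)) (a (b (a (l 134385510711) (l 16789360)) (l 144049195479)) (b (l 16773136) (l 84993413111))))) (a (l 3) (b (a (l 3) (l 178945809639)) (l 3))))) (l 3)) (b (a (b (a (b (l 16767776) (a (l 16790856) (l 16771464))) (b (l 16755136) (l 16766216))) (b (a (a (b (l 75329735223) (l 180019544679)) (b (l 16772000) (l 75329735287))) (a (l 16790264) (l 16771552))) (a (a (l 3) (b (l 174650834359) (l 3))) (a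 (b (l 76403476951) (l 171429586631)) (a (l 79624699959) (l 16793224)))))) (b (a (b (l 16740920) (l 16752856)) (b (l 16726288) (l 16738296))) (a (b (l 16764376) (a (l 16790184) (l 16770960))) (b (l 16750392) (l 16762248))))) (a (b (a (l 3) (b (a (l 3) (b (a (l 3) (l 138143606327)) (l 3))) (l 3))) (l 3)) (b (b (a (a (b (l 83919662455) (a (l 205789347287) (l 139217346919))) (a (l 85530271879) (l 16792504))) (a (l 16771032) (l 16769760))) (a (a (l 3) (b (a (l 202568120887) (l 141364829607)) (l 3))) (a (b (l 95193947383) (a (l 175187703799) (l 144586054567))) (b (l 16770832) (l 16796584))))) (a (l 3) (b (a (l 3) (b (a (l 191293831015) (l 131164298759)) (l 3))) (l 3))))))) (l 3)), by decide +kernel⟩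

def k11_pp_012 : ∃ t, chk3 f_pp_012 t 7 6 1 = true :=
  ⟨(a (b (a (b (a (b (l 16711432) (l 16723448)) (b (l 16696848) (l 16708544))) (a (a (l 16766376) (l 16779856)) (b (l 16720536) (l 16732736)))) (b (a (b (l 16682768) (l 16694272)) (b (l 16669632) (l 16680808))) (a (b (l 16706072) (l 16718080)) (l 16687576)))) (a (b (a (a (b (l 16763352) (l 16772896)) (l 16762128)) (a (l 16796672) (l 16768264))) (a (b (a (b (l 16796704) (a (l 186461993111) (l 140291107015))) (b (l 16772888) (l 16774456))) (a (a (l 3) (l 222969227415)) (b (a (l 193978181959) (l 129016810983)) (a (l 3) (l 213305539239))))) (b (a (l 16771400) (l 16764824)) (a (b (l 16793792) (a (b (l 134385518503) (l 204715599127)) (b (l 16774928) (l 129553679559)))) (b (l 16772064) (b (l 16771344) (l 16793784))))))) (b (a (b (l 16730128) (l 16763072)) (b (l 16715504) (l 16727232))) (a (b (l 16753792) (a (l 16768664) (l 16761608))) (b (l 16759944) (l 16771424)))))) (a (a (b (b (l 16673040) (l 16684480))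 (b (l 16707048) (b (l 16724128) (l 16740944)))) (b (b (l 16650504) (l 16671544)) (b (l 16693256) (b (l 16709832) (l 16721072))))) (a (b (b (l 16638728) (l 16658912)) (b (l 16680008) (l 16722560))) (b (b (l 16637248) (l 16645920)) (b (l 16687280) (l 16708648)))))), by decide +kernel⟩

def k12_pp_012 : ∃ t, chk3 f_pp_012 t 28 14 1 = true :=
  ⟨(b (a (l 3) (b (a (b (a (l 3) (b (l 198810017319) (l 3))) (l 3)) (b (a (b (a (l 133311772455) (l 16776232)) (a (l 206326210679) (l 184851370135))) (b (l 16773792) (a (l 130627416375) (l 16775728)))) (a (l 3) (b (a (l 196662533015) (b (l 134385511015) (l 185925112503))) (l 3))))) (l 3))) (l 3)), by decide +kernel⟩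

def k13_pp_012 : ∃ t, chk3 f_pp_012 t 58 28 1 = true :=
  ⟨(b (a (b (a (l 16772336) (l 16772720)) (a (b (a (l 127943060247) (l 16775344)) (a (b (c (l 175724566343) (l 184314497751)) (l 3)) (a (b (l 16778000) (l 183777628935)) (c (l 140827959399) (l 143512312759))))) (b (l 16773184) (c (l 16781880) (l 16785592))))) (b (l 16769808) (l 16783472))) (a (b (a (b (a (l 3) (b (l 197736275239) (l 3))) (l 3)) (b (a (b (c (a (l 172503341015) (l 138680476807)) (a (l 181093272503) (l 146733537415))) (c (l 187535729095) (l 196662531607))) (b (l 16777304) (a (b (l 142975444359) (a (l 192904435111) (l 173577081335))) (a (l 138143605671) (l 16778240))))) (a (l 3) (a (l 3) (b (a (l 190220081335) (b (l 167134630263) (l 3))) (l 3)))))) (l 3)) (b (a (b (a (l 16776448) (l 16774920)) (a (a (b (b (l 16781424) (a (l 180019532967) (l 151565378999))) (l 193978178967)) (b (l 16783600) (b (a (l 173577084551) (l 146733540583)) (l 188609468807)))) (a (b (l 16777536) (b (l 16778728)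 (a (a (l 173040211159) (l 156397217175)) (l 141901702151)))) (l 16782752)))) (b (l 16773056) (l 16786056))) (a (b (a (l 3) (b (c (a (l 182167020087) (b (l 151565376663) (l 174650826295))) (a (l 191293822887) (b (l 155323472935) (l 183777629111)))) (l 3))) (l 3)) (b (b (a (a (a (c (l 141901702727) (l 148881021895)) (l 16778880)) (l 16778264)) (l 16777064)) (a (c (a (b (l 171429600727) (l 3)) (b (l 139217347831) (c (l 165524021287) (l 169818987255)))) (a (l 185925113703) (b (l 146196667095) (l 176261436311)))) (c (l 131164284743) (l 16780664)))) (a (l 3) (a (b (b (a (l 177872050711) (l 149417896391)) (l 191830695831)) (l 3)) (b (b (l 16779472) (a (l 168208374263) (l 143512316183))) (l 190220084039))))))))), by decide +kernel⟩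

def k14_pp_012 : ∃ t, chk3 f_pp_012 t 59 28 1 = true :=
  ⟨(b (a (l 16765640) (l 16758256)) (a (b (l 16783872) (a (b (l 16775560) (a (b (l 16783904) (a (b (a (l 163376536055) (l 16782720)) (l 184851373927)) (c (l 137606736903) (l 144049185639)))) (l 16783120))) (l 16784800))) (b (l 16766912) (l 16772576)))), by decide +kernel⟩

def k15_pp_012 : ∃ t, chk3 f_pp_012 t 29 29 1 = true :=
  ⟨(a (l 3) (b (a (b (a (b (a (b (c (l 183777635111) (l 192904438535)) (l 3)) (a (b (b (l 139217349783) (l 177872052087)) (l 3)) (b (l 131701157287) (c (l 176798312231) (l 185388244919))))) (l 3)) (b (a (b (l 16778736) (c (a (l 148344152071) (l 16780464)) (l 150491638295))) (l 16777976)) (a (b (c (a (l 189683215991) (l 159081572119)) (l 185925116983)) (l 3)) (b (c (l 129553675239) (l 134385511847)) (c (l 174113958615) (l 182703891735)))))) (l 3)) (b (a (b (l 16775760) (a (l 119889999575) (l 16778152))) (l 16774992)) (a (b (a (b (c (l 171966474999) (l 179482666567)) (l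 197736282087)) (b (l 16780696) (l 154786610647))) (a (l 3) (l 196662542519))) (b (l 16784416) (a (b (l 126869325111) (l 192367573399)) (l 108078843847)))))) (a (l 3) (b (a (l 3) (b (a (l 3) (b (l 190220090023) (l 3))) (l 3))) (l 3))))), by decide +kernel⟩

def k16_pp_012 : ∃ t, chk3 f_pp_012 t 14 15 1 = true :=
  ⟨(l 3), by decide +kernel⟩

def k17_pp_012 : ∃ t, chk3 f_pp_012 t 15 14 1 = true :=
  ⟨(a (b (b (a (l 16747104) (l 16753536)) (a (b (l 16755784) (l 16761656)) (l 16762168))) (a (b (a (a (b (l 16773088) (l 16788264)) (l 16772448)) (l 16777296)) (a (b (a (b (a (b (l 16788200) (l 166597773815)) (l 16782256)) (a (l 3) (l 178408931943))) (a (a (l 124721840711) (l 89825230007)) (l 16785552))) (a (l 3) (b (a (l 215989895911) (l 170355865303)) (l 3)))) (b (l 16786072) (a (b (l 102710133271) (a (l 196125671271) (l 120963746407))) (l 16784264))))) (b (a (l 16759080) (l 16751144)) (a (b (l 16767552) (l 16783720)) (l 16767584))))) (b (b (a (l 16717616)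 (l 16702640)) (a (a (l 16732368) (l 16724472)) (a (b (l 16714120) (l 16719344)) (l 16709112)))) (a (a (b (l 16743200) (b (l 16751472) (l 16757056))) (b (l 16735272) (b (l 16743456) (l 16748992)))) (a (b (b (l 16745656) (l 16730056)) (a (l 16740208) (l 16736192))) (b (b (l 16716880) (l 16743096)) (a (l 16732192) (l 16738776))))))), by decide +kernel⟩

def k18_pp_012 : ∃ t, chk3 f_pp_012 t 15 15 1 = true :=
  ⟨(a (b (a (b (a (l 3) (b (a (l 3) (b (a (l 167671511719) (l 96267683863)) (l 190756964487))) (l 3))) (l 3)) (b (a (b (a (b (l 16779032) (a (l 160155315927) (l 16783536))) (l 16786928)) (a (b (a (l 3) (l 171429606983)) (l 3)) (b (a (l 119353130343) (l 16784808)) (a (l 3) (l 158007831367))))) (b (l 16770824) (a (b (l 16786968) (a (b (l 16779664) (l 199883749943)) (l 16778296))) (l 16784976)))) (a (l 3) (b (a (b (a (l 168745251687) (l 123648096247)) (l 3)) (b (a (l 16781816) (l 16777104)) (b (l 112910676439) (a (l 3) (l 119889997783))))) (l 3)))))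 (l 3)) (b (a (b (b (a (l 16766632) (l 16754584)) (a (a (l 16770424) (l 16766352)) (a (l 16762272) (l 16758192)))) (a (b (a (b (l 16774712) (c (l 16782304) (l 16782216))) (l 16782568)) (a (b (a (b (l 97341418103) (l 112910673367)) (b (l 16778208) (l 91972709767))) (a (l 3) (b (c (l 122037477639) (l 117742510439)) (l 3)))) (b (l 16781536) (a (b (l 102710126535) (c (l 127943061735) (a (l 166060892471) (l 102710127063)))) (b (l 16777112) (l 115058155735)))))) (b (a (l 16768000) (l 16763904)) (a (b (l 16772336) (l 16780480)) (l 16772312))))) (a (b (b (l 16746464) (a (l 16754112) (l 16750024))) (b (a (l 16759800) (l 6)) (l 6))) (b (a (b (l 16740384) (l 16745944)) (b (l 16736344) (l 6))) (l 6)))) (a (b (a (b (a (l 3) (b (a (l 3) (b (a (a (l 3) (l 95193933319)) (l 116131898679)) (l 3))) (l 3))) (l 3)) (b (a (b (a (b (l 16780704) (a (a (l 118816252935) (l 108078834199)) (l 6))) (l 6)) (l 6)) (l 6)) (l 6))) (l 3)) (l 6)))), by decide +kernel⟩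

theorem s19_pp_012 : ∃ t, chk3 f_pp_012 t 15 7 1 = true := ex3_b k17_pp_012 k18_pp_012

theorem s20_pp_012 : ∃ t, chk3 f_pp_012 t 29 28 1 = true := ex3_a k13_pp_012 k14_pp_012

theorem s21_pp_012 : ∃ t, chk3 f_pp_012 t 29 14 1 = true := ex3_b s20_pp_012 k15_pp_012

theorem s22_pp_012 : ∃ t, chk3 f_pp_012 t 14 14 1 = true := ex3_a k12_pp_012 s21_pp_012

theorem s23_pp_012 : ∃ t, chk3 f_pp_012 t 14 7 1 = true := ex3_b s22_pp_012 k16_pp_012

theorem s24_pp_012 : ∃ t, chk3 f_pp_012 t 7 7 1 = true := ex3_a s23_pp_012 s19_pp_012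

theorem s25_pp_012 : ∃ t, chk3 f_pp_012 t 7 3 1 = true := ex3_b k11_pp_012 s24_pp_012

theorem s26_pp_012 : ∃ t, chk3 f_pp_012 t 3 3 1 = true := ex3_a k10_pp_012 s25_pp_012

theorem s27_pp_012 : ∃ t, chk3 f_pp_012 t 6 5 1 = true := ex3_a k7_pp_012 k8_pp_012

theorem s28_pp_012 : ∃ t, chk3 f_pp_012 t 6 2 1 = true := ex3_b k6_pp_012 s27_pp_012

theorem s29_pp_012 : ∃ t, chk3 f_pp_012 t 3 2 1 = true := ex3_a s28_pp_012 k9_pp_012

theorem s30_pp_012 : ∃ t, chk3 f_pp_012 t 3 1 1 = true := ex3_b s29_pp_012 s26_pp_012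

theorem s31_pp_012 : ∃ t, chk3 f_pp_012 t 11 5 1 = true := ex3_b k3_pp_012 k4_pp_012

theorem s32_pp_012 : ∃ t, chk3 f_pp_012 t 5 5 1 = true := ex3_a k2_pp_012 s31_pp_012

theorem s33_pp_012 : ∃ t, chk3 f_pp_012 t 5 2 1 = true := ex3_b k1_pp_012 s32_pp_012

theorem s34_pp_012 : ∃ t, chk3 f_pp_012 t 2 2 1 = true := ex3_a k0_pp_012 s33_pp_012

theorem s35_pp_012 : ∃ t, chk3 f_pp_012 t 2 1 1 = true := ex3_b s34_pp_012 k5_pp_012

theorem s36_pp_012 : ∃ t, chk3 f_pp_012 t 1 1 1 = true := ex3_a s35_pp_012 s30_pp_012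

theorem c_pp_012 : CertB 0 536870912 0 536870912 587336777 62277027 3 eng mog cd1q0 cd0q2 pd1 false true true .pnp 0 1 2
    ndB1q0 ndB0q2 pcB1 cut_pp_012 Ext.none :=
  certB2 (fam := false) (s1 := true) (s2 := true) (a := 0) (b := 1) (c := 2) (cn := .pnp) (n1 := ndB1q0) (n2 := ndB0q2) (pc := pcB1) (cut := cut_pp_012) (xt := Ext.none) (P1 := 0) (W1 := 536870912) (P2 := 0) (W2 := 536870912) (P3 := 587336777) (W3 := 62277027) (N0 := 3) (En := eng) (mo := mog) (C1 := cd1q0) (C2 := cd0q2) (C3 := pd1)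
    rfl (fun _ => rfl) s36_pp_012

noncomputable def cut_pp_022 : Cut := Cut.of [[⟨0, 0, 0, 67108864⟩, ⟨1, 1, 0, 67108864⟩, ⟨2, 1, 0, 67108864⟩]]

noncomputable def f_pp_022 : ℕ → ℕ → ℕ → ℕ → Bool := onCell 1073741824 536870912 0 536870912 587336777 62277027
    (rowB 3 eng mog cd1q0 cd0q2 pd2 2 false true true .pp 0 2 2 (qsf 0 536870912 0 536870912 2) ndB1q0 ndB0q2 pcB2 cut_pp_022 Ext.none)

def k0_pp_022 : ∃ t, chk3 f_pp_022 t 2 2 1 = true :=
  ⟨(a (b (b (a (a (l 16491512) (l 16485400)) (l 16557512)) (b (a (a (l 16508360) (l 16499584)) (l 16504656)) (a (a (l 16521936) (l 16511384)) (a (l 16498968) (l 16485464))))) (b (a (a (b (l 16558072) (l 16574736)) (b (l 16524304) (l 16538192))) (a (b (l 16509896) (a (l 16525968) (l 16517456))) (b (c (l 16496120) (l 16491440)) (a (l 16508584) (l 16499376))))) (a (b (a (c (l 16591320) (l 16570824)) (a (l 16557464) (l 16548560))) (a (a (l 16634896) (l 16583416)) (a (l 16573760) (l 16563848)))) (a (b (a (l 16539304)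 (l 16529680)) (a (l 16553488) (l 16542712))) (b (a (l 16519712) (l 16509400)) (a (b (l 16528464) (l 16534480)) (b (l 16517272) (l 46740823031)))))))) (a (b (b (a (l 16480240) (l 1)) (a (b (l 120828892503) (c (l 16472808) (l 16467272))) (l 1))) (a (b (b (c (l 16480424) (l 76805496823)) (a (l 58551912055) (l 157336144407))) (a (b (c (l 16502920) (l 16493376)) (b (l 106870333479) (l 1))) (l 1))) (l 1))) (l 1))), by decide +kernel⟩

def k1_pp_022 : ∃ t, chk3 f_pp_022 t 2 3 1 = true :=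
  ⟨(a (a (a (b (a (b (b (c (l 16632304) (l 16611504)) (b (l 16626320) (l 16636592))) (b (c (l 16651112) (l 16651984)) (b (l 16666168) (l 16678872)))) (b (b (l 16601376) (l 16620504)) (b (l 16640432) (l 16681768)))) (b (b (a (a (b (l 16688792) (l 16699368)) (l 16700016)) (c (l 16702200) (l 16701360))) (l 6)) (l 6))) (a (b (b (b (b (l 16586456) (l 16595240)) (c (l 16631024) (l 16607112))) (b (a (l 16630736) (l 16624032)) (a (l 16649904) (l 16663336)))) (b (b (b (a (l 16663968) (l 16655712)) (a (l 16673112) (l 16664336))) (l 6)) (l 6))) (b (b (b (l 16579880) (l 16596552)) (b (b (l 16609264) (l 16617824)) (b (l 16626368) (l 16634760)))) (b (a (b (b (l 16647224) (l 16655312)) (l 6)) (b (b (l 16638512) (l 53720404615)) (b (l 16653184) (l 1)))) (l 1))))) (b (b (a (b (a (l 16568320) (b (l 16552752) (l 16559600))) (a (b (l 16579680) (l 16587400)) (b (l 16566512) (l 16578680)))) (b (a (b (l 16540552) (c (l 16550776) (l 16541608))) (c (l 55330792439) (b (l 38687753063)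 (l 59625728007)))) (a (c (l 27950431047) (b (l 54257061287) (l 31708494679))) (l 1)))) (a (b (a (b (l 16595152) (l 16602864)) (b (c (l 16584136) (l 16575840)) (c (l 16591088) (l 16582544)))) (a (b (a (l 16614528) (l 16606384)) (a (l 16622192) (l 16613552))) (b (c (l 16597896) (l 16589096)) (l 1)))) (b (a (b (c (l 16569584) (l 16559304)) (l 1)) (l 1)) (l 1)))) (b (b (a (a (b (a (l 16629552) (l 16620368)) (c (l 16635368) (l 16627600))) (l 1)) (l 1)) (l 1)) (l 1)))) (b (l 1) (l 1))), by decide +kernel⟩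

def k2_pp_022 : ∃ t, chk3 f_pp_022 t 3 1 1 = true :=
  ⟨(l 1), by decide +kernel⟩

theorem s3_pp_022 : ∃ t, chk3 f_pp_022 t 2 1 1 = true := ex3_b k0_pp_022 k1_pp_022

theorem s4_pp_022 : ∃ t, chk3 f_pp_022 t 1 1 1 = true := ex3_a s3_pp_022 k2_pp_022

theorem c_pp_022 : CertB 0 536870912 0 536870912 587336777 62277027 3 eng mog cd1q0 cd0q2 pd2 false true true .pp 0 2 2
    ndB1q0 ndB0q2 pcB2 cut_pp_022 Ext.none :=
  certB2 (fam := false) (s1 := true) (s2 := true) (a := 0) (b := 2) (c := 2) (cn := .pp) (n1 := ndB1q0) (n2 := ndB0q2) (pc := pcB2) (cut := cut_pp_022) (xt := Ext.none) (P1 := 0) (W1 := 536870912) (P2 := 0) (W2 := 536870912) (P3 := 587336777) (W3 := 62277027) (N0 := 3) (En := eng) (mo := mog) (C1 := cd1q0) (C2 := cd0q2) (C3 := pd2)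
    rfl (fun _ => rfl) s4_pp_022

noncomputable def f_pp_101 : ℕ → ℕ → ℕ → ℕ → Bool := onCell 536870912 536870912 536870912 536870912 587336777 62277027
    (rowB 3 eng mog cd1q1 cd0q1 pd0 0 false true true .npn 1 0 1 (qsf 536870912 536870912 536870912 536870912 0) ndB1q1 ndB0q1 pcB0 Cut.none Ext.none)

def k0_pp_101 : ∃ t, chk3 f_pp_101 t 1 1 1 = true :=
  ⟨(l 3), by decide +kernel⟩

theorem c_pp_101 : CertB 536870912 536870912 536870912 536870912 587336777 62277027 3 eng mog cd1q1 cd0q1 pd0 false true true .npn 1 0 1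
    ndB1q1 ndB0q1 pcB0 Cut.none Ext.none :=
  certB0 (fam := false) (s1 := true) (s2 := true) (a := 1) (b := 0) (c := 1) (cn := .npn) (n1 := ndB1q1) (n2 := ndB0q1) (pc := pcB0) (cut := Cut.none) (xt := Ext.none) (P1 := 536870912) (W1 := 536870912) (P2 := 536870912) (W2 := 536870912) (P3 := 587336777) (W3 := 62277027) (N0 := 3) (En := eng) (mo := mog) (C1 := cd1q1) (C2 := cd0q1) (C3 := pd0)
    rfl k0_pp_101

noncomputable def f_pp_102 : ℕ → ℕ → ℕ → ℕ → Bool := onCell 0 536870912 0 536870912 587336777 62277027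
    (rowB 3 eng mog cd1q1 cd0q2 pd0 2 false true true .npp 1 0 2 (qsf 536870912 536870912 0 536870912 0) ndB1q1 ndB0q2 pcB0 Cut.none Ext.none)

def k0_pp_102 : ∃ t, chk3 f_pp_102 t 1 1 1 = true :=
  ⟨(b (a (l 3) (l 3)) (l 3)), by decide +kernel⟩

theorem c_pp_102 : CertB 536870912 536870912 0 536870912 587336777 62277027 3 eng mog cd1q1 cd0q2 pd0 false true true .npp 1 0 2
    ndB1q1 ndB0q2 pcB0 Cut.none Ext.none :=
  certB2 (fam := false) (s1 := true) (s2 := true) (a := 1) (b := 0) (c := 2) (cn := .npp) (n1 := ndB1q1) (n2 := ndB0q2) (pc := pcB0) (cut := Cut.none) (xt := Ext.none) (P1 := 536870912) (W1 := 536870912) (P2 := 0) (W2 := 536870912) (P3 := 587336777) (W3 := 62277027) (N0 := 3) (En := eng) (mo := mog) (C1 := cd1q1) (C2 := cd0q2) (C3 := pd0)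
    rfl (fun _ => rfl) k0_pp_102

noncomputable def f_pp_112 : ℕ → ℕ → ℕ → ℕ → Bool := onCell 536870912 536870912 0 536870912 587336777 62277027
    (rowB 3 eng mog cd1q1 cd0q2 pd1 0 false true true .dn 1 1 2 (qsf 536870912 536870912 0 536870912 1) ndB1q1 ndB0q2 pcB1 Cut.none Ext.none)

def k0_pp_112 : ∃ t, chk3 f_pp_112 t 8 4 1 = true :=
  ⟨(b (b (a (l 16743912) (a (l 16754280) (b (l 16756688) (l 16760360)))) (a (b (l 16754128) (a (l 16756200) (l 16759840))) (b (a (l 16760264) (l 16761224)) (a (l 16760720) (a (l 16757584) (b (l 16755704) (b (l 16750472) (l 157470886743)))))))) (a (b (b (a (l 16759080) (l 16759888)) (a (a (l 16759064) (l 16758088)) (b (a (l 16757256) (l 16753072)) (a (b (l 16753864) (l 16740032)) (b (a (l 16749064) (l 157470884759)) (l 174113899431)))))) (b (a (b (a (l 16755848) (b (l 16753072) (a (l 16751256) (l 100025693751)))) (a (b (l 16752200) (a (l 16750272) (b (l 16747816) (l 122037406103)))) (b (a (l 102173177143) (l 173040138295))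 (a (l 176798233847) (l 3))))) (b (a (b (a (l 16748216) (l 165523946999)) (a (l 169282042663) (l 3))) (l 3)) (l 3))) (a (b (a (b (a (b (l 88214534135) (a (l 131164205863) (l 177335107095))) (l 180556329335)) (l 3)) (l 3)) (l 3)) (l 3)))) (b (b (a (a (l 16735512) (b (l 16754480) (a (l 119353041863) (l 164987097431)))) (b (a (b (l 16741792) (a (l 16746992) (l 181093200135))) (l 191293761095)) (a (l 193978113751) (l 3)))) (a (b (a (b (l 120426783095) (l 169818933591)) (l 196662445623)) (l 3)) (l 3))) (l 3)))), by decide +kernel⟩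

def k1_pp_112 : ∃ t, chk3 f_pp_112 t 9 4 1 = true :=
  ⟨(b (b (a (b (a (l 16760384) (l 16761256)) (a (l 16761424) (a (l 16758760) (b (l 16757040) (l 115594952631))))) (a (b (a (l 16758768) (l 16734168)) (b (a (a (l 16753328) (l 16739512)) (b (a (l 16748160) (l 164450205079)) (l 179482607751))) (a (b (a (l 16747496) (l 171429525687)) (l 186998799111)) (l 3)))) (b (b (a (l 16752640) (a (l 106468141799) (l 167671429271))) (a (b (l 129016757335) (l 174113878855)) (l 198273060215))) (l 3)))) (a (a (b (a (l 16758368) (b (l 16756576) (a (l 16751808) (l 132237943719)))) (b (a (b (l 16751264) (l 141364744183)) (l 186998798039)) (a (l 189146279511) (l 3)))) (b (a (b (l 119889915175) (b (l 174650773175) (l 202031159799))) (b (b (l 170355807655) (l 198809936359)) (l 3))) (l 3))) (l 3))) (l 3)), by decide +kernel⟩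

def k2_pp_112 : ∃ t, chk3 f_pp_112 t 4 5 1 = true :=
  ⟨(l 3), by decide +kernel⟩

def k3_pp_112 : ∃ t, chk3 f_pp_112 t 5 2 1 = true :=
  ⟨(b (a (b (a (b (a (b (l 190219984855) (l 3)) (l 3)) (l 3)) (l 1)) (l 3)) (l 1)) (l 3)), by decide +kernel⟩

def k4_pp_112 : ∃ t, chk3 f_pp_112 t 2 3 1 = true :=
  ⟨(l 3), by decide +kernel⟩

def k5_pp_112 : ∃ t, chk3 f_pp_112 t 3 1 1 = true :=
  ⟨(l 1), by decide +kernel⟩

theorem s6_pp_112 : ∃ t, chk3 f_pp_112 t 4 4 1 = true := ex3_a k0_pp_112 k1_pp_112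

theorem s7_pp_112 : ∃ t, chk3 f_pp_112 t 4 2 1 = true := ex3_b s6_pp_112 k2_pp_112

theorem s8_pp_112 : ∃ t, chk3 f_pp_112 t 2 2 1 = true := ex3_a s7_pp_112 k3_pp_112

theorem s9_pp_112 : ∃ t, chk3 f_pp_112 t 2 1 1 = true := ex3_b s8_pp_112 k4_pp_112

theorem s10_pp_112 : ∃ t, chk3 f_pp_112 t 1 1 1 = true := ex3_a s9_pp_112 k5_pp_112

theorem c_pp_112 : CertB 536870912 536870912 0 536870912 587336777 62277027 3 eng mog cd1q1 cd0q2 pd1 false true true .dn 1 1 2
    ndB1q1 ndB0q2 pcB1 Cut.none Ext.none :=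
  certB0 (fam := false) (s1 := true) (s2 := true) (a := 1) (b := 1) (c := 2) (cn := .dn) (n1 := ndB1q1) (n2 := ndB0q2) (pc := pcB1) (cut := Cut.none) (xt := Ext.none) (P1 := 536870912) (W1 := 536870912) (P2 := 0) (W2 := 536870912) (P3 := 587336777) (W3 := 62277027) (N0 := 3) (En := eng) (mo := mog) (C1 := cd1q1) (C2 := cd0q2) (C3 := pd1)
    rfl s10_pp_112

noncomputable def f_pp_202_a : ℕ → ℕ → ℕ → ℕ → Bool := onCell 0 536870912 0 536870912 587336777 62277027
    (rowB 3 eng mog cd1q2a cd0q2 pd0 0 false true true .pp 2 0 2 (qsf 0 536870912 0 536870912 0) ndB1q2a ndB0q2 pcB0 Cut.none Ext.none)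

def k0_pp_202_a : ∃ t, chk3 f_pp_202_a t 1 1 1 = true :=
  ⟨(l 3), by decide +kernel⟩

theorem c_pp_202_a : CertB 0 536870912 0 536870912 587336777 62277027 3 eng mog cd1q2a cd0q2 pd0 false true true .pp 2 0 2
    ndB1q2a ndB0q2 pcB0 Cut.none Ext.none :=
  certB0 (fam := false) (s1 := true) (s2 := true) (a := 2) (b := 0) (c := 2) (cn := .pp) (n1 := ndB1q2a) (n2 := ndB0q2) (pc := pcB0) (cut := Cut.none) (xt := Ext.none) (P1 := 0) (W1 := 536870912) (P2 := 0) (W2 := 536870912) (P3 := 587336777) (W3 := 62277027) (N0 := 3) (En := eng) (mo := mog) (C1 := cd1q2a) (C2 := cd0q2) (C3 := pd0)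
    rfl k0_pp_202_a

noncomputable def f_pp_202_b : ℕ → ℕ → ℕ → ℕ → Bool := onCell 1239849684 370763052 0 536870912 587336777 62277027
    (rowB 3 eng mog cd1q2b cd0q2 pd0 0 false true true .pp 2 0 2 (qsf 1239849684 370763052 0 536870912 0) ndB1q2b ndB0q2 pcB0 Cut.none Ext.none)

def k0_pp_202_b : ∃ t, chk3 f_pp_202_b t 1 1 1 = true :=
  ⟨(l 3), by decide +kernel⟩

theorem c_pp_202_b : CertB 1239849684 370763052 0 536870912 587336777 62277027 3 eng mog cd1q2b cd0q2 pd0 false true true .pp 2 0 2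
    ndB1q2b ndB0q2 pcB0 Cut.none Ext.none :=
  certB0 (fam := false) (s1 := true) (s2 := true) (a := 2) (b := 0) (c := 2) (cn := .pp) (n1 := ndB1q2b) (n2 := ndB0q2) (pc := pcB0) (cut := Cut.none) (xt := Ext.none) (P1 := 1239849684) (W1 := 370763052) (P2 := 0) (W2 := 536870912) (P3 := 587336777) (W3 := 62277027) (N0 := 3) (En := eng) (mo := mog) (C1 := cd1q2b) (C2 := cd0q2) (C3 := pd0)
    rfl k0_pp_202_b

noncomputable def f_pm_001 : ℕ → ℕ → ℕ → ℕ → Bool := onCell 0 536870912 536870912 536870912 587336777 62277027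
    (rowB 3 eng mog cd1q0 cd0q1 pd0 0 false true false .up 0 0 1 (qsf 0 536870912 536870912 536870912 0) ndB1q0 ndB0q1 pcB0 Cut.none Ext.none)

def k0_pm_001 : ∃ t, chk3 f_pm_001 t 2 1 1 = true :=
  ⟨(b (l 4) (b (l 4) (l 2))), by decide +kernel⟩

def k1_pm_001 : ∃ t, chk3 f_pm_001 t 3 2 1 = true :=
  ⟨(b (l 4) (a (l 4) (b (l 4) (a (l 4) (b (l 4) (a (b (l 4) (l 16796480)) (b (l 16777272) (l 16764312)))))))), by decide +kernel⟩

def k2_pm_001 : ∃ t, chk3 f_pm_001 t 3 3 1 = true :=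
  ⟨(a (b (b (a (l 4) (b (l 4) (a (l 4) (b (l 4) (b (l 4) (l 29762769015)))))) (a (b (l 4) (l 2)) (a (b (b (l 4) (a (l 16754232) (l 16710672))) (b (a (l 2) (l 16654032)) (l 2))) (b (b (a (l 16719848) (l 16674520)) (l 16736032)) (b (l 16657568) (l 16628744)))))) (b (a (l 2) (b (a (l 2) (b (l 16607304) (l 2))) (l 2))) (l 2))) (b (b (a (b (a (l 4) (b (l 4) (l 16771520))) (a (b (a (l 4) (a (l 16762272) (l 16691456))) (a (l 16704608) (l 16702616))) (b (l 16724688) (a (l 16678616) (l 16656528))))) (b (a (b (l 16757752) (l 16696840)) (b (l 16709088) (l 16695272))) (a (l 16667176) (l 16671552)))) (a (b (a (a (l 16709600) (l 16657216)) (a (l 16676072) (b (l 16630592) (l 16604968)))) (a (b (l 16601376) (l 16573856)) (b (l 16572816) (l 16541560)))) (b (a (b (l 16635352) (l 16612152)) (l 16635648)) (a (b (l 16608928) (l 16560352)) (b (l 16607976) (l 16588976)))))) (b (a (b (a (b (l 16526792) (l 76872795703)) (b (l 16509840) (a (l 16505504) (l 16479424)))) (a (b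 (l 65061622695) (l 2)) (b (l 16522688) (l 16459864)))) (b (a (b (l 16524952) (l 16487872)) (b (a (l 16558304) (l 16576016)) (l 16530432))) (a (b (a (l 16459368) (l 16467816)) (a (l 16435832) (l 16442864))) (b (l 16493640) (l 16463776))))) (a (b (b (a (l 2) (l 16459912)) (l 2)) (l 2)) (b (a (b (a (l 16411416) (l 16417880)) (l 16450904)) (b (a (l 16430800) (l 16448096)) (a (l 16404328) (l 16423568)))) (a (b (a (l 2) (l 16431560)) (l 2)) (b (b (a (l 16382880) (l 16404688)) (l 16383912)) (l 16427856)))))))), by decide +kernel⟩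

theorem s3_pm_001 : ∃ t, chk3 f_pm_001 t 3 1 1 = true := ex3_b k1_pm_001 k2_pm_001

theorem s4_pm_001 : ∃ t, chk3 f_pm_001 t 1 1 1 = true := ex3_a k0_pm_001 s3_pm_001

theorem c_pm_001 : CertB 0 536870912 536870912 536870912 587336777 62277027 3 eng mog cd1q0 cd0q1 pd0 false true false .up 0 0 1
    ndB1q0 ndB0q1 pcB0 Cut.none Ext.none :=
  certB0 (fam := false) (s1 := true) (s2 := false) (a := 0) (b := 0) (c := 1) (cn := .up) (n1 := ndB1q0) (n2 := ndB0q1) (pc := pcB0) (cut := Cut.none) (xt := Ext.none) (P1 := 0) (W1 := 536870912) (P2 := 536870912) (W2 := 536870912) (P3 := 587336777) (W3 := 62277027) (N0 := 3) (En := eng) (mo := mog) (C1 := cd1q0) (C2 := cd0q1) (C3 := pd0)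
    rfl s4_pm_001

end Pool.Agent.Strip051.G.I5470_6050.Tab.C.BB10

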