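import Pool.Agent.Strip051.G.I5470_6050.CrnB
import Pool.Agent.Strip051.G.I5470_6050.CG_1
import Pool.Agent.Strip051.G.I5470_6050.CW_1

/-! # Aligned corners: the alternatives (generated) -/

set_option linter.all false

namespace Pool.Agent.Strip051.G.I5470_6050.Tab

open Pool.Agent.Strip051.PB Pool.Agent.StripNear Pool.Agent.Strip051.LC

theorem altB_B011E_10 {κ x : ℝ} (hκ : κ * h0 = ken x) (hx : ((587336777 : ℕ) : ℝ) / S ≤ x) (hx' : x ≤ (((587336777 : ℕ) : ℝ) + (62277027 : ℕ)) / S) :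
    AltEB 3 κ (eng.v x) (3 / 40) (tnt (h0 * x) (3 / 10)) PP tK tL tC pcB (scP esg pd) [⟨0, 0, 0, 67108864⟩, ⟨1, 1, 0, 67108864⟩, ⟨2, 1, 0, 67108864⟩] 0 1 1 1 0 (sgb true) (sgb true) x := by
  have X : XR 67108864 x := XR.of hx hx' (by norm_num) (by norm_num) (by norm_num) (by norm_num)
  have hen : 0 < eng.v x := en_pos X.x0.le
  refine CornW.altB (C := cB011E) (j := (1 : Fin 8)) (k := (0 : Fin 8)) (Ef := esg) (pd := pd) (o := 3 / 40)
    (cornW_of (C := cB011E) (C0 := c0B) (En := eng) (mo := mog) (j := (1 : Fin 8)) (k := (0 : Fin 8)) (lo := 0) (hi := 0) (W := 67108864) (N0 := 3) cB011E_q (sideB hx hx') gokB (pinU hx hx') dokB X (by norm_num) (by norm_num) (l := (0 : Fin 8)) rfl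
      (gatB10 x) (gatB01 x) (gatB01 x) (datB10 x) (datB01 x) (datB01 x) ?_)
    (cornS_of (C := cB011E) (C0 := c0B) (j := (1 : Fin 8)) (k := (0 : Fin 8)) (lo := 0) (hi := 0) (W := 67108864) (N0 := 3) cB011E_q (sideB hx hx') gokB X (by norm_num) (by norm_num) (l := (0 : Fin 8)) rfl
      (gatB10 x) (gatB01 x) (gatB01 x) ?_)
    (thU (pinU hx hx')) rfl hκ (fun j q y => tC_eq j q y x) (esg_rng X.x0.le (by linarith [X.b, X.p0])).1 (mo_v x) le_rfl le_rfl
  · intro ρ a B hρ hd i h1 h2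
    fin_cases i
    · exact corW_cert (G1 := gB1q0) (G2 := gB0q1) (Ga := gB0q1) (Gb := gB1q1) (D1 := dB1q0) (D2 := dB0q1) (Da := dB0q1) (Db := dB1q1) cB011E_ok B hρ hen (gatB10 x) (gatB01 x) (fun _ => gatB01 x) (fun h => absurd h (by decide)) (datB10 x) (datB01 x) (fun _ => datB01 x) (fun h => absurd h (by decide)) hd hx hx' CW.B011E_100
    · exact absurd h2 (by norm_num)
    · exact absurd h2 (by norm_num)
    · exact absurd h2 (by norm_num)
    · exact absurd h2 (by norm_num)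
    · exact absurd h2 (by norm_num)
    · exact absurd h2 (by norm_num)
  · intro ρ a B hρ hd i h1 h2
    fin_cases i
    · exact corT_cert (G1 := gB1q0) (G2 := gB0q1) (Ga := gB0q1) (Gb := gB1q1) cB011E_ok B hρ (gatB10 x) (gatB01 x) (fun _ => gatB01 x) (fun h => absurd h (by decide)) hd hx hx' CG.B011E_100
    · exact absurd h2 (by norm_num)
    · exact absurd h2 (by norm_num)
    · exact absurd h2 (by norm_num)
    · exact absurd h2 (by norm_num)
    · exact absurd h2 (by norm_num)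
    · exact absurd h2 (by norm_num)

theorem altB_B011E_20 {κ x : ℝ} (hκ : κ * h0 = ken x) (hx : ((587336777 : ℕ) : ℝ) / S ≤ x) (hx' : x ≤ (((587336777 : ℕ) : ℝ) + (62277027 : ℕ)) / S) :
    AltEB 3 κ (eng.v x) (3 / 40) (tnt (h0 * x) (3 / 10)) PP tK tL tC pcB (scP esg pd) [⟨0, 0, 0, 67108864⟩, ⟨1, 1, 0, 67108864⟩, ⟨2, 1, 0, 67108864⟩] 0 1 1 2 0 (sgb true) (sgb true) x := by
  have X : XR 67108864 x := XR.of hx hx' (by norm_num) (by norm_num) (by norm_num) (by norm_num)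
  have hen : 0 < eng.v x := en_pos X.x0.le
  refine CornW.altB (C := cB011E) (j := (2 : Fin 8)) (k := (0 : Fin 8)) (Ef := esg) (pd := pd) (o := 3 / 40)
    (cornW_of (C := cB011E) (C0 := c0B) (En := eng) (mo := mog) (j := (2 : Fin 8)) (k := (0 : Fin 8)) (lo := 0) (hi := 0) (W := 67108864) (N0 := 3) cB011E_q (sideB hx hx') gokB (pinU hx hx') dokB X (by norm_num) (by norm_num) (l := (0 : Fin 8)) rfl
      (gatB20 x) (gatB01 x) (gatB01 x) (datB20 x) (datB01 x) (datB01 x) ?_)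
    (cornS_of (C := cB011E) (C0 := c0B) (j := (2 : Fin 8)) (k := (0 : Fin 8)) (lo := 0) (hi := 0) (W := 67108864) (N0 := 3) cB011E_q (sideB hx hx') gokB X (by norm_num) (by norm_num) (l := (0 : Fin 8)) rfl
      (gatB20 x) (gatB01 x) (gatB01 x) ?_)
    (thU (pinU hx hx')) rfl hκ (fun j q y => tC_eq j q y x) (esg_rng X.x0.le (by linarith [X.b, X.p0])).1 (mo_v x) le_rfl le_rfl
  · intro ρ a B hρ hd i h1 h2
    fin_cases i
    · exact corW_cert (G1 := gB2q0) (G2 := gB0q1) (Ga := gB0q1) (Gb := gB1q1) (D1 := dB2q0) (D2 := dB0q1) (Da := dB0q1) (Db := dB1q1) cB011E_ok B hρ hen (gatB20 x) (gatB01 x) (fun _ => gatB01 x) (fun h => absurd h (by decide)) (datB20 x) (datB01 x) (fun _ => datB01 x) (fun h => absurd h (by decide)) hd hx hx' CW.B011E_200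
    · exact absurd h2 (by norm_num)
    · exact absurd h2 (by norm_num)
    · exact absurd h2 (by norm_num)
    · exact absurd h2 (by norm_num)
    · exact absurd h2 (by norm_num)
    · exact absurd h2 (by norm_num)
  · intro ρ a B hρ hd i h1 h2
    fin_cases i
    · exact corT_cert (G1 := gB2q0) (G2 := gB0q1) (Ga := gB0q1) (Gb := gB1q1) cB011E_ok B hρ (gatB20 x) (gatB01 x) (fun _ => gatB01 x) (fun h => absurd h (by decide)) hd hx hx' CG.B011E_200
    · exact absurd h2 (by norm_num)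
    · exact absurd h2 (by norm_num)
    · exact absurd h2 (by norm_num)
    · exact absurd h2 (by norm_num)
    · exact absurd h2 (by norm_num)
    · exact absurd h2 (by norm_num)

theorem altB_B011E_30 {κ x : ℝ} (hκ : κ * h0 = ken x) (hx : ((587336777 : ℕ) : ℝ) / S ≤ x) (hx' : x ≤ (((587336777 : ℕ) : ℝ) + (62277027 : ℕ)) / S) :
    AltEB 3 κ (eng.v x) (3 / 40) (tnt (h0 * x) (3 / 10)) PP tK tL tC pcB (scP esg pd) [⟨0, 0, 0, 67108864⟩, ⟨1, 1, 0, 67108864⟩, ⟨2, 1, 0, 67108864⟩] 0 1 1 3 0 (sgb true) (sgb true) x := by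
  have X : XR 67108864 x := XR.of hx hx' (by norm_num) (by norm_num) (by norm_num) (by norm_num)
  have hen : 0 < eng.v x := en_pos X.x0.le
  refine CornW.altB (C := cB011E) (j := (3 : Fin 8)) (k := (0 : Fin 8)) (Ef := esg) (pd := pd) (o := 3 / 40)
    (cornW_of (C := cB011E) (C0 := c0B) (En := eng) (mo := mog) (j := (3 : Fin 8)) (k := (0 : Fin 8)) (lo := 0) (hi := 0) (W := 67108864) (N0 := 3) cB011E_q (sideB hx hx') gokB (pinU hx hx') dokB X (by norm_num) (by norm_num) (l := (0 : Fin 8)) rfl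
      (gatB30 x) (gatB01 x) (gatB01 x) (datB30 x) (datB01 x) (datB01 x) ?_)
    (cornS_of (C := cB011E) (C0 := c0B) (j := (3 : Fin 8)) (k := (0 : Fin 8)) (lo := 0) (hi := 0) (W := 67108864) (N0 := 3) cB011E_q (sideB hx hx') gokB X (by norm_num) (by norm_num) (l := (0 : Fin 8)) rfl
      (gatB30 x) (gatB01 x) (gatB01 x) ?_)
    (thU (pinU hx hx')) rfl hκ (fun j q y => tC_eq j q y x) (esg_rng X.x0.le (by linarith [X.b, X.p0])).1 (mo_v x) le_rfl le_rfl
  · intro ρ a B hρ hd i h1 h2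
    fin_cases i
    · exact corW_cert (G1 := gB3q0) (G2 := gB0q1) (Ga := gB0q1) (Gb := gB1q1) (D1 := dB3q0) (D2 := dB0q1) (Da := dB0q1) (Db := dB1q1) cB011E_ok B hρ hen (gatB30 x) (gatB01 x) (fun _ => gatB01 x) (fun h => absurd h (by decide)) (datB30 x) (datB01 x) (fun _ => datB01 x) (fun h => absurd h (by decide)) hd hx hx' CW.B011E_300
    · exact absurd h2 (by norm_num)
    · exact absurd h2 (by norm_num)
    · exact absurd h2 (by norm_num)
    · exact absurd h2 (by norm_num)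
    · exact absurd h2 (by norm_num)
    · exact absurd h2 (by norm_num)
  · intro ρ a B hρ hd i h1 h2
    fin_cases i
    · exact corT_cert (G1 := gB3q0) (G2 := gB0q1) (Ga := gB0q1) (Gb := gB1q1) cB011E_ok B hρ (gatB30 x) (gatB01 x) (fun _ => gatB01 x) (fun h => absurd h (by decide)) hd hx hx' CG.B011E_300
    · exact absurd h2 (by norm_num)
    · exact absurd h2 (by norm_num)
    · exact absurd h2 (by norm_num)
    · exact absurd h2 (by norm_num)
    · exact absurd h2 (by norm_num)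
    · exact absurd h2 (by norm_num)

theorem altB_B011E_40 {κ x : ℝ} (hκ : κ * h0 = ken x) (hx : ((587336777 : ℕ) : ℝ) / S ≤ x) (hx' : x ≤ (((587336777 : ℕ) : ℝ) + (62277027 : ℕ)) / S) :
    AltEB 3 κ (eng.v x) (3 / 40) (tnt (h0 * x) (3 / 10)) PP tK tL tC pcB (scP esg pd) [⟨0, 0, 0, 67108864⟩, ⟨1, 1, 0, 67108864⟩, ⟨2, 1, 0, 67108864⟩] 0 1 1 4 0 (sgb true) (sgb true) x := by
  have X : XR 67108864 x := XR.of hx hx' (by norm_num) (by norm_num) (by norm_num) (by norm_num)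
  have hen : 0 < eng.v x := en_pos X.x0.le
  refine CornW.altB (C := cB011E) (j := (4 : Fin 8)) (k := (0 : Fin 8)) (Ef := esg) (pd := pd) (o := 3 / 40)
    (cornW_of (C := cB011E) (C0 := c0B) (En := eng) (mo := mog) (j := (4 : Fin 8)) (k := (0 : Fin 8)) (lo := 0) (hi := 0) (W := 67108864) (N0 := 3) cB011E_q (sideB hx hx') gokB (pinU hx hx') dokB X (by norm_num) (by norm_num) (l := (0 : Fin 8)) rfl
      (gatB40 x) (gatB01 x) (gatB01 x) (datB40 x) (datB01 x) (datB01 x) ?_)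
    (cornS_of (C := cB011E) (C0 := c0B) (j := (4 : Fin 8)) (k := (0 : Fin 8)) (lo := 0) (hi := 0) (W := 67108864) (N0 := 3) cB011E_q (sideB hx hx') gokB X (by norm_num) (by norm_num) (l := (0 : Fin 8)) rfl
      (gatB40 x) (gatB01 x) (gatB01 x) ?_)
    (thU (pinU hx hx')) rfl hκ (fun j q y => tC_eq j q y x) (esg_rng X.x0.le (by linarith [X.b, X.p0])).1 (mo_v x) le_rfl le_rfl
  · intro ρ a B hρ hd i h1 h2
    fin_cases i
    · exact corW_cert (G1 := gB4q0) (G2 := gB0q1) (Ga := gB0q1) (Gb := gB1q1) (D1 := dB4q0) (D2 := dB0q1) (Da := dB0q1) (Db := dB1q1) cB011E_ok B hρ hen (gatB40 x) (gatB01 x) (fun _ => gatB01 x) (fun h => absurd h (by decide)) (datB40 x) (datB01 x) (fun _ => datB01 x) (fun h => absurd h (by decide)) hd hx hx' CW.B011E_400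
    · exact absurd h2 (by norm_num)
    · exact absurd h2 (by norm_num)
    · exact absurd h2 (by norm_num)
    · exact absurd h2 (by norm_num)
    · exact absurd h2 (by norm_num)
    · exact absurd h2 (by norm_num)
  · intro ρ a B hρ hd i h1 h2
    fin_cases i
    · exact corT_cert (G1 := gB4q0) (G2 := gB0q1) (Ga := gB0q1) (Gb := gB1q1) cB011E_ok B hρ (gatB40 x) (gatB01 x) (fun _ => gatB01 x) (fun h => absurd h (by decide)) hd hx hx' CG.B011E_400
    · exact absurd h2 (by norm_num)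
    · exact absurd h2 (by norm_num)
    · exact absurd h2 (by norm_num)
    · exact absurd h2 (by norm_num)
    · exact absurd h2 (by norm_num)
    · exact absurd h2 (by norm_num)

theorem altB_B011L_05 {κ x : ℝ} (hκ : κ * h0 = ken x) (hx : ((587336777 : ℕ) : ℝ) / S ≤ x) (hx' : x ≤ (((587336777 : ℕ) : ℝ) + (62277027 : ℕ)) / S) :
    AltEB 3 κ (eng.v x) (3 / 40) (tnt (h0 * x) (3 / 10)) PP tK tL tC pcB (scP esg pd) [⟨0, 0, 0, 67108864⟩, ⟨1, 1, 0, 67108864⟩, ⟨2, 1, 0, 67108864⟩] 0 1 1 0 5 (sgb true) (sgb true) x := by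
  have X : XR 67108864 x := XR.of hx hx' (by norm_num) (by norm_num) (by norm_num) (by norm_num)
  have hen : 0 < eng.v x := en_pos X.x0.le
  refine CornW.altB (C := cB011L) (j := (0 : Fin 8)) (k := (5 : Fin 8)) (Ef := esg) (pd := pd) (o := 3 / 40)
    (cornW_of (C := cB011L) (C0 := c0B) (En := eng) (mo := mog) (j := (0 : Fin 8)) (k := (5 : Fin 8)) (lo := 0) (hi := 0) (W := 67108864) (N0 := 3) cB011L_q (sideB hx hx') gokB (pinU hx hx') dokB X (by norm_num) (by norm_num) (l := (0 : Fin 8)) rfl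
      (gatB00 x) (gatB51 x) (gatB01 x) (datB00 x) (datB51 x) (datB01 x) ?_)
    (cornS_of (C := cB011L) (C0 := c0B) (j := (0 : Fin 8)) (k := (5 : Fin 8)) (lo := 0) (hi := 0) (W := 67108864) (N0 := 3) cB011L_q (sideB hx hx') gokB X (by norm_num) (by norm_num) (l := (0 : Fin 8)) rfl
      (gatB00 x) (gatB51 x) (gatB01 x) ?_)
    (thU (pinU hx hx')) rfl hκ (fun j q y => tC_eq j q y x) (esg_rng X.x0.le (by linarith [X.b, X.p0])).1 (mo_v x) le_rfl le_rfl
  · intro ρ a B hρ hd i h1 h2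
    fin_cases i
    · exact corW_cert (G1 := gB0q0) (G2 := gB5q1) (Ga := gB0q1) (Gb := gB1q1) (D1 := dB0q0) (D2 := dB5q1) (Da := dB0q1) (Db := dB1q1) cB011L_ok B hρ hen (gatB00 x) (gatB51 x) (fun _ => gatB01 x) (fun h => absurd h (by decide)) (datB00 x) (datB51 x) (fun _ => datB01 x) (fun h => absurd h (by decide)) hd hx hx' CW.B011L_050
    · exact absurd h2 (by norm_num)
    · exact absurd h2 (by norm_num)
    · exact absurd h2 (by norm_num)
    · exact absurd h2 (by norm_num)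
    · exact absurd h2 (by norm_num)
    · exact absurd h2 (by norm_num)
  · intro ρ a B hρ hd i h1 h2
    fin_cases i
    · exact corT_cert (G1 := gB0q0) (G2 := gB5q1) (Ga := gB0q1) (Gb := gB1q1) cB011L_ok B hρ (gatB00 x) (gatB51 x) (fun _ => gatB01 x) (fun h => absurd h (by decide)) hd hx hx' CG.B011L_050
    · exact absurd h2 (by norm_num)
    · exact absurd h2 (by norm_num)
    · exact absurd h2 (by norm_num)
    · exact absurd h2 (by norm_num)
    · exact absurd h2 (by norm_num)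
    · exact absurd h2 (by norm_num)

theorem altB_B011L_06 {κ x : ℝ} (hκ : κ * h0 = ken x) (hx : ((587336777 : ℕ) : ℝ) / S ≤ x) (hx' : x ≤ (((587336777 : ℕ) : ℝ) + (62277027 : ℕ)) / S) :
    AltEB 3 κ (eng.v x) (3 / 40) (tnt (h0 * x) (3 / 10)) PP tK tL tC pcB (scP esg pd) [⟨0, 0, 0, 67108864⟩, ⟨1, 1, 0, 67108864⟩, ⟨2, 1, 0, 67108864⟩] 0 1 1 0 6 (sgb true) (sgb true) x := by
  have X : XR 67108864 x := XR.of hx hx' (by norm_num) (by norm_num) (by norm_num) (by norm_num)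
  have hen : 0 < eng.v x := en_pos X.x0.le
  refine CornW.altB (C := cB011L) (j := (0 : Fin 8)) (k := (6 : Fin 8)) (Ef := esg) (pd := pd) (o := 3 / 40)
    (cornW_of (C := cB011L) (C0 := c0B) (En := eng) (mo := mog) (j := (0 : Fin 8)) (k := (6 : Fin 8)) (lo := 0) (hi := 0) (W := 67108864) (N0 := 3) cB011L_q (sideB hx hx') gokB (pinU hx hx') dokB X (by norm_num) (by norm_num) (l := (0 : Fin 8)) rfl
      (gatB00 x) (gatB61 x) (gatB01 x) (datB00 x) (datB61 x) (datB01 x) ?_)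
    (cornS_of (C := cB011L) (C0 := c0B) (j := (0 : Fin 8)) (k := (6 : Fin 8)) (lo := 0) (hi := 0) (W := 67108864) (N0 := 3) cB011L_q (sideB hx hx') gokB X (by norm_num) (by norm_num) (l := (0 : Fin 8)) rfl
      (gatB00 x) (gatB61 x) (gatB01 x) ?_)
    (thU (pinU hx hx')) rfl hκ (fun j q y => tC_eq j q y x) (esg_rng X.x0.le (by linarith [X.b, X.p0])).1 (mo_v x) le_rfl le_rfl
  · intro ρ a B hρ hd i h1 h2
    fin_cases i
    · exact corW_cert (G1 := gB0q0) (G2 := gB6q1) (Ga := gB0q1) (Gb := gB1q1) (D1 := dB0q0) (D2 := dB6q1) (Da := dB0q1) (Db := dB1q1) cB011L_ok B hρ hen (gatB00 x) (gatB61 x) (fun _ => gatB01 x) (fun h => absurd h (by decide)) (datB00 x) (datB61 x) (fun _ => datB01 x) (fun h => absurd h (by decide)) hd hx hx' CW.B011L_060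
    · exact absurd h2 (by norm_num)
    · exact absurd h2 (by norm_num)
    · exact absurd h2 (by norm_num)
    · exact absurd h2 (by norm_num)
    · exact absurd h2 (by norm_num)
    · exact absurd h2 (by norm_num)
  · intro ρ a B hρ hd i h1 h2
    fin_cases i
    · exact corT_cert (G1 := gB0q0) (G2 := gB6q1) (Ga := gB0q1) (Gb := gB1q1) cB011L_ok B hρ (gatB00 x) (gatB61 x) (fun _ => gatB01 x) (fun h => absurd h (by decide)) hd hx hx' CG.B011L_060
    · exact absurd h2 (by norm_num)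
    · exact absurd h2 (by norm_num)
    · exact absurd h2 (by norm_num)
    · exact absurd h2 (by norm_num)
    · exact absurd h2 (by norm_num)
    · exact absurd h2 (by norm_num)

theorem altB_B011L_07 {κ x : ℝ} (hκ : κ * h0 = ken x) (hx : ((587336777 : ℕ) : ℝ) / S ≤ x) (hx' : x ≤ (((587336777 : ℕ) : ℝ) + (62277027 : ℕ)) / S) :
    AltEB 3 κ (eng.v x) (3 / 40) (tnt (h0 * x) (3 / 10)) PP tK tL tC pcB (scP esg pd) [⟨0, 0, 0, 67108864⟩, ⟨1, 1, 0, 67108864⟩, ⟨2, 1, 0, 67108864⟩] 0 1 1 0 7 (sgb true) (sgb true) x := by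
  have X : XR 67108864 x := XR.of hx hx' (by norm_num) (by norm_num) (by norm_num) (by norm_num)
  have hen : 0 < eng.v x := en_pos X.x0.le
  refine CornW.altB (C := cB011L) (j := (0 : Fin 8)) (k := (7 : Fin 8)) (Ef := esg) (pd := pd) (o := 3 / 40)
    (cornW_of (C := cB011L) (C0 := c0B) (En := eng) (mo := mog) (j := (0 : Fin 8)) (k := (7 : Fin 8)) (lo := 0) (hi := 0) (W := 67108864) (N0 := 3) cB011L_q (sideB hx hx') gokB (pinU hx hx') dokB X (by norm_num) (by norm_num) (l := (0 : Fin 8)) rfl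
      (gatB00 x) (gatB71 x) (gatB01 x) (datB00 x) (datB71 x) (datB01 x) ?_)
    (cornS_of (C := cB011L) (C0 := c0B) (j := (0 : Fin 8)) (k := (7 : Fin 8)) (lo := 0) (hi := 0) (W := 67108864) (N0 := 3) cB011L_q (sideB hx hx') gokB X (by norm_num) (by norm_num) (l := (0 : Fin 8)) rfl
      (gatB00 x) (gatB71 x) (gatB01 x) ?_)
    (thU (pinU hx hx')) rfl hκ (fun j q y => tC_eq j q y x) (esg_rng X.x0.le (by linarith [X.b, X.p0])).1 (mo_v x) le_rfl le_rfl
  · intro ρ a B hρ hd i h1 h2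
    fin_cases i
    · exact corW_cert (G1 := gB0q0) (G2 := gB7q1) (Ga := gB0q1) (Gb := gB1q1) (D1 := dB0q0) (D2 := dB7q1) (Da := dB0q1) (Db := dB1q1) cB011L_ok B hρ hen (gatB00 x) (gatB71 x) (fun _ => gatB01 x) (fun h => absurd h (by decide)) (datB00 x) (datB71 x) (fun _ => datB01 x) (fun h => absurd h (by decide)) hd hx hx' CW.B011L_070
    · exact absurd h2 (by norm_num)
    · exact absurd h2 (by norm_num)
    · exact absurd h2 (by norm_num)
    · exact absurd h2 (by norm_num)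
    · exact absurd h2 (by norm_num)
    · exact absurd h2 (by norm_num)
  · intro ρ a B hρ hd i h1 h2
    fin_cases i
    · exact corT_cert (G1 := gB0q0) (G2 := gB7q1) (Ga := gB0q1) (Gb := gB1q1) cB011L_ok B hρ (gatB00 x) (gatB71 x) (fun _ => gatB01 x) (fun h => absurd h (by decide)) hd hx hx' CG.B011L_070
    · exact absurd h2 (by norm_num)
    · exact absurd h2 (by norm_num)
    · exact absurd h2 (by norm_num)
    · exact absurd h2 (by norm_num)
    · exact absurd h2 (by norm_num)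
    · exact absurd h2 (by norm_num)

theorem altB_B011L_15 {κ x : ℝ} (hκ : κ * h0 = ken x) (hx : ((587336777 : ℕ) : ℝ) / S ≤ x) (hx' : x ≤ (((587336777 : ℕ) : ℝ) + (62277027 : ℕ)) / S) :
    AltEB 3 κ (eng.v x) (3 / 40) (tnt (h0 * x) (3 / 10)) PP tK tL tC pcB (scP esg pd) [⟨0, 0, 0, 67108864⟩, ⟨1, 1, 0, 67108864⟩, ⟨2, 1, 0, 67108864⟩] 0 1 1 1 5 (sgb true) (sgb true) x := by
  have X : XR 67108864 x := XR.of hx hx' (by norm_num) (by norm_num) (by norm_num) (by norm_num)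
  have hen : 0 < eng.v x := en_pos X.x0.le
  refine CornW.altB (C := cB011L) (j := (1 : Fin 8)) (k := (5 : Fin 8)) (Ef := esg) (pd := pd) (o := 3 / 40)
    (cornW_of (C := cB011L) (C0 := c0B) (En := eng) (mo := mog) (j := (1 : Fin 8)) (k := (5 : Fin 8)) (lo := 0) (hi := 0) (W := 67108864) (N0 := 3) cB011L_q (sideB hx hx') gokB (pinU hx hx') dokB X (by norm_num) (by norm_num) (l := (0 : Fin 8)) rfl
      (gatB10 x) (gatB51 x) (gatB01 x) (datB10 x) (datB51 x) (datB01 x) ?_)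
    (cornS_of (C := cB011L) (C0 := c0B) (j := (1 : Fin 8)) (k := (5 : Fin 8)) (lo := 0) (hi := 0) (W := 67108864) (N0 := 3) cB011L_q (sideB hx hx') gokB X (by norm_num) (by norm_num) (l := (0 : Fin 8)) rfl
      (gatB10 x) (gatB51 x) (gatB01 x) ?_)
    (thU (pinU hx hx')) rfl hκ (fun j q y => tC_eq j q y x) (esg_rng X.x0.le (by linarith [X.b, X.p0])).1 (mo_v x) le_rfl le_rfl
  · intro ρ a B hρ hd i h1 h2
    fin_cases i
    · exact corW_cert (G1 := gB1q0) (G2 := gB5q1) (Ga := gB0q1) (Gb := gB1q1) (D1 := dB1q0) (D2 := dB5q1) (Da := dB0q1) (Db := dB1q1) cB011L_ok B hρ hen (gatB10 x) (gatB51 x) (fun _ => gatB01 x) (fun h => absurd h (by decide)) (datB10 x) (datB51 x) (fun _ => datB01 x) (fun h => absurd h (by decide)) hd hx hx' CW.B011L_150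
    · exact absurd h2 (by norm_num)
    · exact absurd h2 (by norm_num)
    · exact absurd h2 (by norm_num)
    · exact absurd h2 (by norm_num)
    · exact absurd h2 (by norm_num)
    · exact absurd h2 (by norm_num)
  · intro ρ a B hρ hd i h1 h2
    fin_cases i
    · exact corT_cert (G1 := gB1q0) (G2 := gB5q1) (Ga := gB0q1) (Gb := gB1q1) cB011L_ok B hρ (gatB10 x) (gatB51 x) (fun _ => gatB01 x) (fun h => absurd h (by decide)) hd hx hx' CG.B011L_150
    · exact absurd h2 (by norm_num)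
    · exact absurd h2 (by norm_num)
    · exact absurd h2 (by norm_num)
    · exact absurd h2 (by norm_num)
    · exact absurd h2 (by norm_num)
    · exact absurd h2 (by norm_num)

theorem altB_B011L_16 {κ x : ℝ} (hκ : κ * h0 = ken x) (hx : ((587336777 : ℕ) : ℝ) / S ≤ x) (hx' : x ≤ (((587336777 : ℕ) : ℝ) + (62277027 : ℕ)) / S) :
    AltEB 3 κ (eng.v x) (3 / 40) (tnt (h0 * x) (3 / 10)) PP tK tL tC pcB (scP esg pd) [⟨0, 0, 0, 67108864⟩, ⟨1, 1, 0, 67108864⟩, ⟨2, 1, 0, 67108864⟩] 0 1 1 1 6 (sgb true) (sgb true) x := by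
  have X : XR 67108864 x := XR.of hx hx' (by norm_num) (by norm_num) (by norm_num) (by norm_num)
  have hen : 0 < eng.v x := en_pos X.x0.le
  refine CornW.altB (C := cB011L) (j := (1 : Fin 8)) (k := (6 : Fin 8)) (Ef := esg) (pd := pd) (o := 3 / 40)
    (cornW_of (C := cB011L) (C0 := c0B) (En := eng) (mo := mog) (j := (1 : Fin 8)) (k := (6 : Fin 8)) (lo := 0) (hi := 0) (W := 67108864) (N0 := 3) cB011L_q (sideB hx hx') gokB (pinU hx hx') dokB X (by norm_num) (by norm_num) (l := (0 : Fin 8)) rfl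
      (gatB10 x) (gatB61 x) (gatB01 x) (datB10 x) (datB61 x) (datB01 x) ?_)
    (cornS_of (C := cB011L) (C0 := c0B) (j := (1 : Fin 8)) (k := (6 : Fin 8)) (lo := 0) (hi := 0) (W := 67108864) (N0 := 3) cB011L_q (sideB hx hx') gokB X (by norm_num) (by norm_num) (l := (0 : Fin 8)) rfl
      (gatB10 x) (gatB61 x) (gatB01 x) ?_)
    (thU (pinU hx hx')) rfl hκ (fun j q y => tC_eq j q y x) (esg_rng X.x0.le (by linarith [X.b, X.p0])).1 (mo_v x) le_rfl le_rfl
  · intro ρ a B hρ hd i h1 h2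
    fin_cases i
    · exact corW_cert (G1 := gB1q0) (G2 := gB6q1) (Ga := gB0q1) (Gb := gB1q1) (D1 := dB1q0) (D2 := dB6q1) (Da := dB0q1) (Db := dB1q1) cB011L_ok B hρ hen (gatB10 x) (gatB61 x) (fun _ => gatB01 x) (fun h => absurd h (by decide)) (datB10 x) (datB61 x) (fun _ => datB01 x) (fun h => absurd h (by decide)) hd hx hx' CW.B011L_160
    · exact absurd h2 (by norm_num)
    · exact absurd h2 (by norm_num)
    · exact absurd h2 (by norm_num)
    · exact absurd h2 (by norm_num)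
    · exact absurd h2 (by norm_num)
    · exact absurd h2 (by norm_num)
  · intro ρ a B hρ hd i h1 h2
    fin_cases i
    · exact corT_cert (G1 := gB1q0) (G2 := gB6q1) (Ga := gB0q1) (Gb := gB1q1) cB011L_ok B hρ (gatB10 x) (gatB61 x) (fun _ => gatB01 x) (fun h => absurd h (by decide)) hd hx hx' CG.B011L_160
    · exact absurd h2 (by norm_num)
    · exact absurd h2 (by norm_num)
    · exact absurd h2 (by norm_num)
    · exact absurd h2 (by norm_num)
    · exact absurd h2 (by norm_num)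
    · exact absurd h2 (by norm_num)

theorem altB_B011L_17 {κ x : ℝ} (hκ : κ * h0 = ken x) (hx : ((587336777 : ℕ) : ℝ) / S ≤ x) (hx' : x ≤ (((587336777 : ℕ) : ℝ) + (62277027 : ℕ)) / S) :
    AltEB 3 κ (eng.v x) (3 / 40) (tnt (h0 * x) (3 / 10)) PP tK tL tC pcB (scP esg pd) [⟨0, 0, 0, 67108864⟩, ⟨1, 1, 0, 67108864⟩, ⟨2, 1, 0, 67108864⟩] 0 1 1 1 7 (sgb true) (sgb true) x := by
  have X : XR 67108864 x := XR.of hx hx' (by norm_num) (by norm_num) (by norm_num) (by norm_num)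
  have hen : 0 < eng.v x := en_pos X.x0.le
  refine CornW.altB (C := cB011L) (j := (1 : Fin 8)) (k := (7 : Fin 8)) (Ef := esg) (pd := pd) (o := 3 / 40)
    (cornW_of (C := cB011L) (C0 := c0B) (En := eng) (mo := mog) (j := (1 : Fin 8)) (k := (7 : Fin 8)) (lo := 0) (hi := 0) (W := 67108864) (N0 := 3) cB011L_q (sideB hx hx') gokB (pinU hx hx') dokB X (by norm_num) (by norm_num) (l := (0 : Fin 8)) rfl
      (gatB10 x) (gatB71 x) (gatB01 x) (datB10 x) (datB71 x) (datB01 x) ?_)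
    (cornS_of (C := cB011L) (C0 := c0B) (j := (1 : Fin 8)) (k := (7 : Fin 8)) (lo := 0) (hi := 0) (W := 67108864) (N0 := 3) cB011L_q (sideB hx hx') gokB X (by norm_num) (by norm_num) (l := (0 : Fin 8)) rfl
      (gatB10 x) (gatB71 x) (gatB01 x) ?_)
    (thU (pinU hx hx')) rfl hκ (fun j q y => tC_eq j q y x) (esg_rng X.x0.le (by linarith [X.b, X.p0])).1 (mo_v x) le_rfl le_rfl
  · intro ρ a B hρ hd i h1 h2
    fin_cases i
    · exact corW_cert (G1 := gB1q0) (G2 := gB7q1) (Ga := gB0q1) (Gb := gB1q1) (D1 := dB1q0) (D2 := dB7q1) (Da := dB0q1) (Db := dB1q1) cB011L_ok B hρ hen (gatB10 x) (gatB71 x) (fun _ => gatB01 x) (fun h => absurd h (by decide)) (datB10 x) (datB71 x) (fun _ => datB01 x) (fun h => absurd h (by decide)) hd hx hx' CW.B011L_170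
    · exact absurd h2 (by norm_num)
    · exact absurd h2 (by norm_num)
    · exact absurd h2 (by norm_num)
    · exact absurd h2 (by norm_num)
    · exact absurd h2 (by norm_num)
    · exact absurd h2 (by norm_num)
  · intro ρ a B hρ hd i h1 h2
    fin_cases i
    · exact corT_cert (G1 := gB1q0) (G2 := gB7q1) (Ga := gB0q1) (Gb := gB1q1) cB011L_ok B hρ (gatB10 x) (gatB71 x) (fun _ => gatB01 x) (fun h => absurd h (by decide)) hd hx hx' CG.B011L_170
    · exact absurd h2 (by norm_num)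
    · exact absurd h2 (by norm_num)
    · exact absurd h2 (by norm_num)
    · exact absurd h2 (by norm_num)
    · exact absurd h2 (by norm_num)
    · exact absurd h2 (by norm_num)

theorem altB_B011L_25 {κ x : ℝ} (hκ : κ * h0 = ken x) (hx : ((587336777 : ℕ) : ℝ) / S ≤ x) (hx' : x ≤ (((587336777 : ℕ) : ℝ) + (62277027 : ℕ)) / S) :
    AltEB 3 κ (eng.v x) (3 / 40) (tnt (h0 * x) (3 / 10)) PP tK tL tC pcB (scP esg pd) [⟨0, 0, 0, 67108864⟩, ⟨1, 1, 0, 67108864⟩, ⟨2, 1, 0, 67108864⟩] 0 1 1 2 5 (sgb true) (sgb true) x := by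
  have X : XR 67108864 x := XR.of hx hx' (by norm_num) (by norm_num) (by norm_num) (by norm_num)
  have hen : 0 < eng.v x := en_pos X.x0.le
  refine CornW.altB (C := cB011L) (j := (2 : Fin 8)) (k := (5 : Fin 8)) (Ef := esg) (pd := pd) (o := 3 / 40)
    (cornW_of (C := cB011L) (C0 := c0B) (En := eng) (mo := mog) (j := (2 : Fin 8)) (k := (5 : Fin 8)) (lo := 0) (hi := 0) (W := 67108864) (N0 := 3) cB011L_q (sideB hx hx') gokB (pinU hx hx') dokB X (by norm_num) (by norm_num) (l := (0 : Fin 8)) rfl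
      (gatB20 x) (gatB51 x) (gatB01 x) (datB20 x) (datB51 x) (datB01 x) ?_)
    (cornS_of (C := cB011L) (C0 := c0B) (j := (2 : Fin 8)) (k := (5 : Fin 8)) (lo := 0) (hi := 0) (W := 67108864) (N0 := 3) cB011L_q (sideB hx hx') gokB X (by norm_num) (by norm_num) (l := (0 : Fin 8)) rfl
      (gatB20 x) (gatB51 x) (gatB01 x) ?_)
    (thU (pinU hx hx')) rfl hκ (fun j q y => tC_eq j q y x) (esg_rng X.x0.le (by linarith [X.b, X.p0])).1 (mo_v x) le_rfl le_rfl
  · intro ρ a B hρ hd i h1 h2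
    fin_cases i
    · exact corW_cert (G1 := gB2q0) (G2 := gB5q1) (Ga := gB0q1) (Gb := gB1q1) (D1 := dB2q0) (D2 := dB5q1) (Da := dB0q1) (Db := dB1q1) cB011L_ok B hρ hen (gatB20 x) (gatB51 x) (fun _ => gatB01 x) (fun h => absurd h (by decide)) (datB20 x) (datB51 x) (fun _ => datB01 x) (fun h => absurd h (by decide)) hd hx hx' CW.B011L_250
    · exact absurd h2 (by norm_num)
    · exact absurd h2 (by norm_num)
    · exact absurd h2 (by norm_num)
    · exact absurd h2 (by norm_num)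
    · exact absurd h2 (by norm_num)
    · exact absurd h2 (by norm_num)
  · intro ρ a B hρ hd i h1 h2
    fin_cases i
    · exact corT_cert (G1 := gB2q0) (G2 := gB5q1) (Ga := gB0q1) (Gb := gB1q1) cB011L_ok B hρ (gatB20 x) (gatB51 x) (fun _ => gatB01 x) (fun h => absurd h (by decide)) hd hx hx' CG.B011L_250
    · exact absurd h2 (by norm_num)
    · exact absurd h2 (by norm_num)
    · exact absurd h2 (by norm_num)
    · exact absurd h2 (by norm_num)
    · exact absurd h2 (by norm_num)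
    · exact absurd h2 (by norm_num)

theorem altB_B011L_26 {κ x : ℝ} (hκ : κ * h0 = ken x) (hx : ((587336777 : ℕ) : ℝ) / S ≤ x) (hx' : x ≤ (((587336777 : ℕ) : ℝ) + (62277027 : ℕ)) / S) :
    AltEB 3 κ (eng.v x) (3 / 40) (tnt (h0 * x) (3 / 10)) PP tK tL tC pcB (scP esg pd) [⟨0, 0, 0, 67108864⟩, ⟨1, 1, 0, 67108864⟩, ⟨2, 1, 0, 67108864⟩] 0 1 1 2 6 (sgb true) (sgb true) x := by
  have X : XR 67108864 x := XR.of hx hx' (by norm_num) (by norm_num) (by norm_num) (by norm_num)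
  have hen : 0 < eng.v x := en_pos X.x0.le
  refine CornW.altB (C := cB011L) (j := (2 : Fin 8)) (k := (6 : Fin 8)) (Ef := esg) (pd := pd) (o := 3 / 40)
    (cornW_of (C := cB011L) (C0 := c0B) (En := eng) (mo := mog) (j := (2 : Fin 8)) (k := (6 : Fin 8)) (lo := 0) (hi := 0) (W := 67108864) (N0 := 3) cB011L_q (sideB hx hx') gokB (pinU hx hx') dokB X (by norm_num) (by norm_num) (l := (0 : Fin 8)) rfl
      (gatB20 x) (gatB61 x) (gatB01 x) (datB20 x) (datB61 x) (datB01 x) ?_)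
    (cornS_of (C := cB011L) (C0 := c0B) (j := (2 : Fin 8)) (k := (6 : Fin 8)) (lo := 0) (hi := 0) (W := 67108864) (N0 := 3) cB011L_q (sideB hx hx') gokB X (by norm_num) (by norm_num) (l := (0 : Fin 8)) rfl
      (gatB20 x) (gatB61 x) (gatB01 x) ?_)
    (thU (pinU hx hx')) rfl hκ (fun j q y => tC_eq j q y x) (esg_rng X.x0.le (by linarith [X.b, X.p0])).1 (mo_v x) le_rfl le_rfl
  · intro ρ a B hρ hd i h1 h2
    fin_cases i
    · exact corW_cert (G1 := gB2q0) (G2 := gB6q1) (Ga := gB0q1) (Gb := gB1q1) (D1 := dB2q0) (D2 := dB6q1) (Da := dB0q1) (Db := dB1q1) cB011L_ok B hρ hen (gatB20 x) (gatB61 x) (fun _ => gatB01 x) (fun h => absurd h (by decide)) (datB20 x) (datB61 x) (fun _ => datB01 x) (fun h => absurd h (by decide)) hd hx hx' CW.B011L_260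
    · exact absurd h2 (by norm_num)
    · exact absurd h2 (by norm_num)
    · exact absurd h2 (by norm_num)
    · exact absurd h2 (by norm_num)
    · exact absurd h2 (by norm_num)
    · exact absurd h2 (by norm_num)
  · intro ρ a B hρ hd i h1 h2
    fin_cases i
    · exact corT_cert (G1 := gB2q0) (G2 := gB6q1) (Ga := gB0q1) (Gb := gB1q1) cB011L_ok B hρ (gatB20 x) (gatB61 x) (fun _ => gatB01 x) (fun h => absurd h (by decide)) hd hx hx' CG.B011L_260
    · exact absurd h2 (by norm_num)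
    · exact absurd h2 (by norm_num)
    · exact absurd h2 (by norm_num)
    · exact absurd h2 (by norm_num)
    · exact absurd h2 (by norm_num)
    · exact absurd h2 (by norm_num)

theorem altB_B011L_27 {κ x : ℝ} (hκ : κ * h0 = ken x) (hx : ((587336777 : ℕ) : ℝ) / S ≤ x) (hx' : x ≤ (((587336777 : ℕ) : ℝ) + (62277027 : ℕ)) / S) :
    AltEB 3 κ (eng.v x) (3 / 40) (tnt (h0 * x) (3 / 10)) PP tK tL tC pcB (scP esg pd) [⟨0, 0, 0, 67108864⟩, ⟨1, 1, 0, 67108864⟩, ⟨2, 1, 0, 67108864⟩] 0 1 1 2 7 (sgb true) (sgb true) x := by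
  have X : XR 67108864 x := XR.of hx hx' (by norm_num) (by norm_num) (by norm_num) (by norm_num)
  have hen : 0 < eng.v x := en_pos X.x0.le
  refine CornW.altB (C := cB011L) (j := (2 : Fin 8)) (k := (7 : Fin 8)) (Ef := esg) (pd := pd) (o := 3 / 40)
    (cornW_of (C := cB011L) (C0 := c0B) (En := eng) (mo := mog) (j := (2 : Fin 8)) (k := (7 : Fin 8)) (lo := 0) (hi := 0) (W := 67108864) (N0 := 3) cB011L_q (sideB hx hx') gokB (pinU hx hx') dokB X (by norm_num) (by norm_num) (l := (0 : Fin 8)) rfl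
      (gatB20 x) (gatB71 x) (gatB01 x) (datB20 x) (datB71 x) (datB01 x) ?_)
    (cornS_of (C := cB011L) (C0 := c0B) (j := (2 : Fin 8)) (k := (7 : Fin 8)) (lo := 0) (hi := 0) (W := 67108864) (N0 := 3) cB011L_q (sideB hx hx') gokB X (by norm_num) (by norm_num) (l := (0 : Fin 8)) rfl
      (gatB20 x) (gatB71 x) (gatB01 x) ?_)
    (thU (pinU hx hx')) rfl hκ (fun j q y => tC_eq j q y x) (esg_rng X.x0.le (by linarith [X.b, X.p0])).1 (mo_v x) le_rfl le_rfl
  · intro ρ a B hρ hd i h1 h2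
    fin_cases i
    · exact corW_cert (G1 := gB2q0) (G2 := gB7q1) (Ga := gB0q1) (Gb := gB1q1) (D1 := dB2q0) (D2 := dB7q1) (Da := dB0q1) (Db := dB1q1) cB011L_ok B hρ hen (gatB20 x) (gatB71 x) (fun _ => gatB01 x) (fun h => absurd h (by decide)) (datB20 x) (datB71 x) (fun _ => datB01 x) (fun h => absurd h (by decide)) hd hx hx' CW.B011L_270
    · exact absurd h2 (by norm_num)
    · exact absurd h2 (by norm_num)
    · exact absurd h2 (by norm_num)
    · exact absurd h2 (by norm_num)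
    · exact absurd h2 (by norm_num)
    · exact absurd h2 (by norm_num)
  · intro ρ a B hρ hd i h1 h2
    fin_cases i
    · exact corT_cert (G1 := gB2q0) (G2 := gB7q1) (Ga := gB0q1) (Gb := gB1q1) cB011L_ok B hρ (gatB20 x) (gatB71 x) (fun _ => gatB01 x) (fun h => absurd h (by decide)) hd hx hx' CG.B011L_270
    · exact absurd h2 (by norm_num)
    · exact absurd h2 (by norm_num)
    · exact absurd h2 (by norm_num)
    · exact absurd h2 (by norm_num)
    · exact absurd h2 (by norm_num)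
    · exact absurd h2 (by norm_num)

theorem altB_B011L_35 {κ x : ℝ} (hκ : κ * h0 = ken x) (hx : ((587336777 : ℕ) : ℝ) / S ≤ x) (hx' : x ≤ (((587336777 : ℕ) : ℝ) + (62277027 : ℕ)) / S) :
    AltEB 3 κ (eng.v x) (3 / 40) (tnt (h0 * x) (3 / 10)) PP tK tL tC pcB (scP esg pd) [⟨0, 0, 0, 67108864⟩, ⟨1, 1, 0, 67108864⟩, ⟨2, 1, 0, 67108864⟩] 0 1 1 3 5 (sgb true) (sgb true) x := by
  have X : XR 67108864 x := XR.of hx hx' (by norm_num) (by norm_num) (by norm_num) (by norm_num)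
  have hen : 0 < eng.v x := en_pos X.x0.le
  refine CornW.altB (C := cB011L) (j := (3 : Fin 8)) (k := (5 : Fin 8)) (Ef := esg) (pd := pd) (o := 3 / 40)
    (cornW_of (C := cB011L) (C0 := c0B) (En := eng) (mo := mog) (j := (3 : Fin 8)) (k := (5 : Fin 8)) (lo := 0) (hi := 0) (W := 67108864) (N0 := 3) cB011L_q (sideB hx hx') gokB (pinU hx hx') dokB X (by norm_num) (by norm_num) (l := (0 : Fin 8)) rfl
      (gatB30 x) (gatB51 x) (gatB01 x) (datB30 x) (datB51 x) (datB01 x) ?_)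
    (cornS_of (C := cB011L) (C0 := c0B) (j := (3 : Fin 8)) (k := (5 : Fin 8)) (lo := 0) (hi := 0) (W := 67108864) (N0 := 3) cB011L_q (sideB hx hx') gokB X (by norm_num) (by norm_num) (l := (0 : Fin 8)) rfl
      (gatB30 x) (gatB51 x) (gatB01 x) ?_)
    (thU (pinU hx hx')) rfl hκ (fun j q y => tC_eq j q y x) (esg_rng X.x0.le (by linarith [X.b, X.p0])).1 (mo_v x) le_rfl le_rfl
  · intro ρ a B hρ hd i h1 h2
    fin_cases i
    · exact corW_cert (G1 := gB3q0) (G2 := gB5q1) (Ga := gB0q1) (Gb := gB1q1) (D1 := dB3q0) (D2 := dB5q1) (Da := dB0q1) (Db := dB1q1) cB011L_ok B hρ hen (gatB30 x) (gatB51 x) (fun _ => gatB01 x) (fun h => absurd h (by decide)) (datB30 x) (datB51 x) (fun _ => datB01 x) (fun h => absurd h (by decide)) hd hx hx' CW.B011L_350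
    · exact absurd h2 (by norm_num)
    · exact absurd h2 (by norm_num)
    · exact absurd h2 (by norm_num)
    · exact absurd h2 (by norm_num)
    · exact absurd h2 (by norm_num)
    · exact absurd h2 (by norm_num)
  · intro ρ a B hρ hd i h1 h2
    fin_cases i
    · exact corT_cert (G1 := gB3q0) (G2 := gB5q1) (Ga := gB0q1) (Gb := gB1q1) cB011L_ok B hρ (gatB30 x) (gatB51 x) (fun _ => gatB01 x) (fun h => absurd h (by decide)) hd hx hx' CG.B011L_350
    · exact absurd h2 (by norm_num)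
    · exact absurd h2 (by norm_num)
    · exact absurd h2 (by norm_num)
    · exact absurd h2 (by norm_num)
    · exact absurd h2 (by norm_num)
    · exact absurd h2 (by norm_num)

theorem altB_B011L_36 {κ x : ℝ} (hκ : κ * h0 = ken x) (hx : ((587336777 : ℕ) : ℝ) / S ≤ x) (hx' : x ≤ (((587336777 : ℕ) : ℝ) + (62277027 : ℕ)) / S) :
    AltEB 3 κ (eng.v x) (3 / 40) (tnt (h0 * x) (3 / 10)) PP tK tL tC pcB (scP esg pd) [⟨0, 0, 0, 67108864⟩, ⟨1, 1, 0, 67108864⟩, ⟨2, 1, 0, 67108864⟩] 0 1 1 3 6 (sgb true) (sgb true) x := by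
  have X : XR 67108864 x := XR.of hx hx' (by norm_num) (by norm_num) (by norm_num) (by norm_num)
  have hen : 0 < eng.v x := en_pos X.x0.le
  refine CornW.altB (C := cB011L) (j := (3 : Fin 8)) (k := (6 : Fin 8)) (Ef := esg) (pd := pd) (o := 3 / 40)
    (cornW_of (C := cB011L) (C0 := c0B) (En := eng) (mo := mog) (j := (3 : Fin 8)) (k := (6 : Fin 8)) (lo := 0) (hi := 0) (W := 67108864) (N0 := 3) cB011L_q (sideB hx hx') gokB (pinU hx hx') dokB X (by norm_num) (by norm_num) (l := (0 : Fin 8)) rfl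
      (gatB30 x) (gatB61 x) (gatB01 x) (datB30 x) (datB61 x) (datB01 x) ?_)
    (cornS_of (C := cB011L) (C0 := c0B) (j := (3 : Fin 8)) (k := (6 : Fin 8)) (lo := 0) (hi := 0) (W := 67108864) (N0 := 3) cB011L_q (sideB hx hx') gokB X (by norm_num) (by norm_num) (l := (0 : Fin 8)) rfl
      (gatB30 x) (gatB61 x) (gatB01 x) ?_)
    (thU (pinU hx hx')) rfl hκ (fun j q y => tC_eq j q y x) (esg_rng X.x0.le (by linarith [X.b, X.p0])).1 (mo_v x) le_rfl le_rfl
  · intro ρ a B hρ hd i h1 h2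
    fin_cases i
    · exact corW_cert (G1 := gB3q0) (G2 := gB6q1) (Ga := gB0q1) (Gb := gB1q1) (D1 := dB3q0) (D2 := dB6q1) (Da := dB0q1) (Db := dB1q1) cB011L_ok B hρ hen (gatB30 x) (gatB61 x) (fun _ => gatB01 x) (fun h => absurd h (by decide)) (datB30 x) (datB61 x) (fun _ => datB01 x) (fun h => absurd h (by decide)) hd hx hx' CW.B011L_360
    · exact absurd h2 (by norm_num)
    · exact absurd h2 (by norm_num)
    · exact absurd h2 (by norm_num)
    · exact absurd h2 (by norm_num)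
    · exact absurd h2 (by norm_num)
    · exact absurd h2 (by norm_num)
  · intro ρ a B hρ hd i h1 h2
    fin_cases i
    · exact corT_cert (G1 := gB3q0) (G2 := gB6q1) (Ga := gB0q1) (Gb := gB1q1) cB011L_ok B hρ (gatB30 x) (gatB61 x) (fun _ => gatB01 x) (fun h => absurd h (by decide)) hd hx hx' CG.B011L_360
    · exact absurd h2 (by norm_num)
    · exact absurd h2 (by norm_num)
    · exact absurd h2 (by norm_num)
    · exact absurd h2 (by norm_num)
    · exact absurd h2 (by norm_num)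
    · exact absurd h2 (by norm_num)

theorem altB_B011L_37 {κ x : ℝ} (hκ : κ * h0 = ken x) (hx : ((587336777 : ℕ) : ℝ) / S ≤ x) (hx' : x ≤ (((587336777 : ℕ) : ℝ) + (62277027 : ℕ)) / S) :
    AltEB 3 κ (eng.v x) (3 / 40) (tnt (h0 * x) (3 / 10)) PP tK tL tC pcB (scP esg pd) [⟨0, 0, 0, 67108864⟩, ⟨1, 1, 0, 67108864⟩, ⟨2, 1, 0, 67108864⟩] 0 1 1 3 7 (sgb true) (sgb true) x := by
  have X : XR 67108864 x := XR.of hx hx' (by norm_num) (by norm_num) (by norm_num) (by norm_num)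
  have hen : 0 < eng.v x := en_pos X.x0.le
  refine CornW.altB (C := cB011L) (j := (3 : Fin 8)) (k := (7 : Fin 8)) (Ef := esg) (pd := pd) (o := 3 / 40)
    (cornW_of (C := cB011L) (C0 := c0B) (En := eng) (mo := mog) (j := (3 : Fin 8)) (k := (7 : Fin 8)) (lo := 0) (hi := 0) (W := 67108864) (N0 := 3) cB011L_q (sideB hx hx') gokB (pinU hx hx') dokB X (by norm_num) (by norm_num) (l := (0 : Fin 8)) rfl
      (gatB30 x) (gatB71 x) (gatB01 x) (datB30 x) (datB71 x) (datB01 x) ?_)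
    (cornS_of (C := cB011L) (C0 := c0B) (j := (3 : Fin 8)) (k := (7 : Fin 8)) (lo := 0) (hi := 0) (W := 67108864) (N0 := 3) cB011L_q (sideB hx hx') gokB X (by norm_num) (by norm_num) (l := (0 : Fin 8)) rfl
      (gatB30 x) (gatB71 x) (gatB01 x) ?_)
    (thU (pinU hx hx')) rfl hκ (fun j q y => tC_eq j q y x) (esg_rng X.x0.le (by linarith [X.b, X.p0])).1 (mo_v x) le_rfl le_rfl
  · intro ρ a B hρ hd i h1 h2
    fin_cases i
    · exact corW_cert (G1 := gB3q0) (G2 := gB7q1) (Ga := gB0q1) (Gb := gB1q1) (D1 := dB3q0) (D2 := dB7q1) (Da := dB0q1) (Db := dB1q1) cB011L_ok B hρ hen (gatB30 x) (gatB71 x) (fun _ => gatB01 x) (fun h => absurd h (by decide)) (datB30 x) (datB71 x) (fun _ => datB01 x) (fun h => absurd h (by decide)) hd hx hx' CW.B011L_370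
    · exact absurd h2 (by norm_num)
    · exact absurd h2 (by norm_num)
    · exact absurd h2 (by norm_num)
    · exact absurd h2 (by norm_num)
    · exact absurd h2 (by norm_num)
    · exact absurd h2 (by norm_num)
  · intro ρ a B hρ hd i h1 h2
    fin_cases i
    · exact corT_cert (G1 := gB3q0) (G2 := gB7q1) (Ga := gB0q1) (Gb := gB1q1) cB011L_ok B hρ (gatB30 x) (gatB71 x) (fun _ => gatB01 x) (fun h => absurd h (by decide)) hd hx hx' CG.B011L_370
    · exact absurd h2 (by norm_num)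
    · exact absurd h2 (by norm_num)
    · exact absurd h2 (by norm_num)
    · exact absurd h2 (by norm_num)
    · exact absurd h2 (by norm_num)
    · exact absurd h2 (by norm_num)

theorem altB_B011L_45 {κ x : ℝ} (hκ : κ * h0 = ken x) (hx : ((587336777 : ℕ) : ℝ) / S ≤ x) (hx' : x ≤ (((587336777 : ℕ) : ℝ) + (62277027 : ℕ)) / S) :
    AltEB 3 κ (eng.v x) (3 / 40) (tnt (h0 * x) (3 / 10)) PP tK tL tC pcB (scP esg pd) [⟨0, 0, 0, 67108864⟩, ⟨1, 1, 0, 67108864⟩, ⟨2, 1, 0, 67108864⟩] 0 1 1 4 5 (sgb true) (sgb true) x := by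
  have X : XR 67108864 x := XR.of hx hx' (by norm_num) (by norm_num) (by norm_num) (by norm_num)
  have hen : 0 < eng.v x := en_pos X.x0.le
  refine CornW.altB (C := cB011L) (j := (4 : Fin 8)) (k := (5 : Fin 8)) (Ef := esg) (pd := pd) (o := 3 / 40)
    (cornW_of (C := cB011L) (C0 := c0B) (En := eng) (mo := mog) (j := (4 : Fin 8)) (k := (5 : Fin 8)) (lo := 0) (hi := 0) (W := 67108864) (N0 := 3) cB011L_q (sideB hx hx') gokB (pinU hx hx') dokB X (by norm_num) (by norm_num) (l := (0 : Fin 8)) rfl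
      (gatB40 x) (gatB51 x) (gatB01 x) (datB40 x) (datB51 x) (datB01 x) ?_)
    (cornS_of (C := cB011L) (C0 := c0B) (j := (4 : Fin 8)) (k := (5 : Fin 8)) (lo := 0) (hi := 0) (W := 67108864) (N0 := 3) cB011L_q (sideB hx hx') gokB X (by norm_num) (by norm_num) (l := (0 : Fin 8)) rfl
      (gatB40 x) (gatB51 x) (gatB01 x) ?_)
    (thU (pinU hx hx')) rfl hκ (fun j q y => tC_eq j q y x) (esg_rng X.x0.le (by linarith [X.b, X.p0])).1 (mo_v x) le_rfl le_rfl
  · intro ρ a B hρ hd i h1 h2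
    fin_cases i
    · exact corW_cert (G1 := gB4q0) (G2 := gB5q1) (Ga := gB0q1) (Gb := gB1q1) (D1 := dB4q0) (D2 := dB5q1) (Da := dB0q1) (Db := dB1q1) cB011L_ok B hρ hen (gatB40 x) (gatB51 x) (fun _ => gatB01 x) (fun h => absurd h (by decide)) (datB40 x) (datB51 x) (fun _ => datB01 x) (fun h => absurd h (by decide)) hd hx hx' CW.B011L_450
    · exact absurd h2 (by norm_num)
    · exact absurd h2 (by norm_num)
    · exact absurd h2 (by norm_num)
    · exact absurd h2 (by norm_num)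
    · exact absurd h2 (by norm_num)
    · exact absurd h2 (by norm_num)
  · intro ρ a B hρ hd i h1 h2
    fin_cases i
    · exact corT_cert (G1 := gB4q0) (G2 := gB5q1) (Ga := gB0q1) (Gb := gB1q1) cB011L_ok B hρ (gatB40 x) (gatB51 x) (fun _ => gatB01 x) (fun h => absurd h (by decide)) hd hx hx' CG.B011L_450
    · exact absurd h2 (by norm_num)
    · exact absurd h2 (by norm_num)
    · exact absurd h2 (by norm_num)
    · exact absurd h2 (by norm_num)
    · exact absurd h2 (by norm_num)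
    · exact absurd h2 (by norm_num)

theorem altB_B011L_46 {κ x : ℝ} (hκ : κ * h0 = ken x) (hx : ((587336777 : ℕ) : ℝ) / S ≤ x) (hx' : x ≤ (((587336777 : ℕ) : ℝ) + (62277027 : ℕ)) / S) :
    AltEB 3 κ (eng.v x) (3 / 40) (tnt (h0 * x) (3 / 10)) PP tK tL tC pcB (scP esg pd) [⟨0, 0, 0, 67108864⟩, ⟨1, 1, 0, 67108864⟩, ⟨2, 1, 0, 67108864⟩] 0 1 1 4 6 (sgb true) (sgb true) x := by
  have X : XR 67108864 x := XR.of hx hx' (by norm_num) (by norm_num) (by norm_num) (by norm_num)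
  have hen : 0 < eng.v x := en_pos X.x0.le
  refine CornW.altB (C := cB011L) (j := (4 : Fin 8)) (k := (6 : Fin 8)) (Ef := esg) (pd := pd) (o := 3 / 40)
    (cornW_of (C := cB011L) (C0 := c0B) (En := eng) (mo := mog) (j := (4 : Fin 8)) (k := (6 : Fin 8)) (lo := 0) (hi := 0) (W := 67108864) (N0 := 3) cB011L_q (sideB hx hx') gokB (pinU hx hx') dokB X (by norm_num) (by norm_num) (l := (0 : Fin 8)) rfl
      (gatB40 x) (gatB61 x) (gatB01 x) (datB40 x) (datB61 x) (datB01 x) ?_)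
    (cornS_of (C := cB011L) (C0 := c0B) (j := (4 : Fin 8)) (k := (6 : Fin 8)) (lo := 0) (hi := 0) (W := 67108864) (N0 := 3) cB011L_q (sideB hx hx') gokB X (by norm_num) (by norm_num) (l := (0 : Fin 8)) rfl
      (gatB40 x) (gatB61 x) (gatB01 x) ?_)
    (thU (pinU hx hx')) rfl hκ (fun j q y => tC_eq j q y x) (esg_rng X.x0.le (by linarith [X.b, X.p0])).1 (mo_v x) le_rfl le_rfl
  · intro ρ a B hρ hd i h1 h2
    fin_cases i
    · exact corW_cert (G1 := gB4q0) (G2 := gB6q1) (Ga := gB0q1) (Gb := gB1q1) (D1 := dB4q0) (D2 := dB6q1) (Da := dB0q1) (Db := dB1q1) cB011L_ok B hρ hen (gatB40 x) (gatB61 x) (fun _ => gatB01 x) (fun h => absurd h (by decide)) (datB40 x) (datB61 x) (fun _ => datB01 x) (fun h => absurd h (by decide)) hd hx hx' CW.B011L_460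
    · exact absurd h2 (by norm_num)
    · exact absurd h2 (by norm_num)
    · exact absurd h2 (by norm_num)
    · exact absurd h2 (by norm_num)
    · exact absurd h2 (by norm_num)
    · exact absurd h2 (by norm_num)
  · intro ρ a B hρ hd i h1 h2
    fin_cases i
    · exact corT_cert (G1 := gB4q0) (G2 := gB6q1) (Ga := gB0q1) (Gb := gB1q1) cB011L_ok B hρ (gatB40 x) (gatB61 x) (fun _ => gatB01 x) (fun h => absurd h (by decide)) hd hx hx' CG.B011L_460
    · exact absurd h2 (by norm_num)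
    · exact absurd h2 (by norm_num)
    · exact absurd h2 (by norm_num)
    · exact absurd h2 (by norm_num)
    · exact absurd h2 (by norm_num)
    · exact absurd h2 (by norm_num)

theorem altB_B011L_47 {κ x : ℝ} (hκ : κ * h0 = ken x) (hx : ((587336777 : ℕ) : ℝ) / S ≤ x) (hx' : x ≤ (((587336777 : ℕ) : ℝ) + (62277027 : ℕ)) / S) :
    AltEB 3 κ (eng.v x) (3 / 40) (tnt (h0 * x) (3 / 10)) PP tK tL tC pcB (scP esg pd) [⟨0, 0, 0, 67108864⟩, ⟨1, 1, 0, 67108864⟩, ⟨2, 1, 0, 67108864⟩] 0 1 1 4 7 (sgb true) (sgb true) x := by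
  have X : XR 67108864 x := XR.of hx hx' (by norm_num) (by norm_num) (by norm_num) (by norm_num)
  have hen : 0 < eng.v x := en_pos X.x0.le
  refine CornW.altB (C := cB011L) (j := (4 : Fin 8)) (k := (7 : Fin 8)) (Ef := esg) (pd := pd) (o := 3 / 40)
    (cornW_of (C := cB011L) (C0 := c0B) (En := eng) (mo := mog) (j := (4 : Fin 8)) (k := (7 : Fin 8)) (lo := 0) (hi := 0) (W := 67108864) (N0 := 3) cB011L_q (sideB hx hx') gokB (pinU hx hx') dokB X (by norm_num) (by norm_num) (l := (0 : Fin 8)) rfl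
      (gatB40 x) (gatB71 x) (gatB01 x) (datB40 x) (datB71 x) (datB01 x) ?_)
    (cornS_of (C := cB011L) (C0 := c0B) (j := (4 : Fin 8)) (k := (7 : Fin 8)) (lo := 0) (hi := 0) (W := 67108864) (N0 := 3) cB011L_q (sideB hx hx') gokB X (by norm_num) (by norm_num) (l := (0 : Fin 8)) rfl
      (gatB40 x) (gatB71 x) (gatB01 x) ?_)
    (thU (pinU hx hx')) rfl hκ (fun j q y => tC_eq j q y x) (esg_rng X.x0.le (by linarith [X.b, X.p0])).1 (mo_v x) le_rfl le_rfl
  · intro ρ a B hρ hd i h1 h2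
    fin_cases i
    · exact corW_cert (G1 := gB4q0) (G2 := gB7q1) (Ga := gB0q1) (Gb := gB1q1) (D1 := dB4q0) (D2 := dB7q1) (Da := dB0q1) (Db := dB1q1) cB011L_ok B hρ hen (gatB40 x) (gatB71 x) (fun _ => gatB01 x) (fun h => absurd h (by decide)) (datB40 x) (datB71 x) (fun _ => datB01 x) (fun h => absurd h (by decide)) hd hx hx' CW.B011L_470
    · exact absurd h2 (by norm_num)
    · exact absurd h2 (by norm_num)
    · exact absurd h2 (by norm_num)
    · exact absurd h2 (by norm_num)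
    · exact absurd h2 (by norm_num)
    · exact absurd h2 (by norm_num)
  · intro ρ a B hρ hd i h1 h2
    fin_cases i
    · exact corT_cert (G1 := gB4q0) (G2 := gB7q1) (Ga := gB0q1) (Gb := gB1q1) cB011L_ok B hρ (gatB40 x) (gatB71 x) (fun _ => gatB01 x) (fun h => absurd h (by decide)) hd hx hx' CG.B011L_470
    · exact absurd h2 (by norm_num)
    · exact absurd h2 (by norm_num)
    · exact absurd h2 (by norm_num)
    · exact absurd h2 (by norm_num)
    · exact absurd h2 (by norm_num)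
    · exact absurd h2 (by norm_num)

theorem altB_B011R_00 {κ x : ℝ} (hκ : κ * h0 = ken x) (hx : ((587336777 : ℕ) : ℝ) / S ≤ x) (hx' : x ≤ (((587336777 : ℕ) : ℝ) + (62277027 : ℕ)) / S) :
    AltEB 3 κ (eng.v x) (3 / 40) (tnt (h0 * x) (3 / 10)) PP tK tL tC pcB (scP esg pd) [⟨0, 0, 0, 67108864⟩, ⟨1, 1, 0, 67108864⟩, ⟨2, 1, 0, 67108864⟩] 0 1 1 0 0 (sgb true) (sgb false) x := by
  have X : XR 67108864 x := XR.of hx hx' (by norm_num) (by norm_num) (by norm_num) (by norm_num)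
  have hen : 0 < eng.v x := en_pos X.x0.le
  refine CornW.altB (C := cB011R) (j := (0 : Fin 8)) (k := (0 : Fin 8)) (Ef := esg) (pd := pd) (o := 3 / 40)
    (cornW_of (C := cB011R) (C0 := c0B) (En := eng) (mo := mog) (j := (0 : Fin 8)) (k := (0 : Fin 8)) (lo := 5) (hi := 7) (W := 67108864) (N0 := 3) cB011R_q (sideB hx hx') gokB (pinU hx hx') dokB X (by norm_num) (by norm_num) (l := (5 : Fin 8)) rfl
      (gatB00 x) (gatB01 x) (gatB51 x) (datB00 x) (datB01 x) (datB51 x) ?_)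
    (cornS_of (C := cB011R) (C0 := c0B) (j := (0 : Fin 8)) (k := (0 : Fin 8)) (lo := 5) (hi := 7) (W := 67108864) (N0 := 3) cB011R_q (sideB hx hx') gokB X (by norm_num) (by norm_num) (l := (5 : Fin 8)) rfl
      (gatB00 x) (gatB01 x) (gatB51 x) ?_)
    (thU (pinU hx hx')) rfl hκ (fun j q y => tC_eq j q y x) (esg_rng X.x0.le (by linarith [X.b, X.p0])).1 (mo_v x) le_rfl le_rfl
  · intro ρ a B hρ hd i h1 h2
    fin_cases i
    · exact absurd h1 (by norm_num)
    · exact absurd h1 (by norm_num)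
    · exact absurd h1 (by norm_num)
    · exact absurd h1 (by norm_num)
    · exact corW_cert (G1 := gB0q0) (G2 := gB0q1) (Ga := gB4q1) (Gb := gB5q1) (D1 := dB0q0) (D2 := dB0q1) (Da := dB4q1) (Db := dB5q1) cB011R_ok B hρ hen (gatB00 x) (gatB01 x) (fun h => absurd h (by decide)) (fun _ => gatB51 x) (datB00 x) (datB01 x) (fun h => absurd h (by decide)) (fun _ => datB51 x) hd hx hx' CW.B011R_004
    · exact corW_cert (G1 := gB0q0) (G2 := gB0q1) (Ga := gB5q1) (Gb := gB6q1) (D1 := dB0q0) (D2 := dB0q1) (Da := dB5q1) (Db := dB6q1) cB011R_ok B hρ hen (gatB00 x) (gatB01 x) (fun _ => gatB51 x) (fun _ => gatB61 x) (datB00 x) (datB01 x) (fun _ => datB51 x) (fun _ => datB61 x) hd hx hx' CW.B011R_005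
    · exact corW_cert (G1 := gB0q0) (G2 := gB0q1) (Ga := gB6q1) (Gb := gB7q1) (D1 := dB0q0) (D2 := dB0q1) (Da := dB6q1) (Db := dB7q1) cB011R_ok B hρ hen (gatB00 x) (gatB01 x) (fun _ => gatB61 x) (fun _ => gatB71 x) (datB00 x) (datB01 x) (fun _ => datB61 x) (fun _ => datB71 x) hd hx hx' CW.B011R_006
  · intro ρ a B hρ hd i h1 h2
    fin_cases i
    · exact absurd h1 (by norm_num)
    · exact absurd h1 (by norm_num)
    · exact absurd h1 (by norm_num)
    · exact absurd h1 (by norm_num)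
    · exact corT_cert (G1 := gB0q0) (G2 := gB0q1) (Ga := gB4q1) (Gb := gB5q1) cB011R_ok B hρ (gatB00 x) (gatB01 x) (fun h => absurd h (by decide)) (fun _ => gatB51 x) hd hx hx' CG.B011R_004
    · exact corT_cert (G1 := gB0q0) (G2 := gB0q1) (Ga := gB5q1) (Gb := gB6q1) cB011R_ok B hρ (gatB00 x) (gatB01 x) (fun _ => gatB51 x) (fun _ => gatB61 x) hd hx hx' CG.B011R_005
    · exact corX_cert (G1 := gB0q0) (G2 := gB0q1) (Ga := gB6q1) (Gb := gB7q1) (GT := gB7q1) cB011R_ok tB011R_ok B hρ (gatB00 x) (gatB01 x) (fun _ => gatB61 x) (fun _ => gatB71 x) rfl (tgh_B011R (kodd x) (gpu0 x) (gpu1 x) (gpt1 x) (gatB00 x) (gatB01 x) (gatB71 x) B (le_sixteenth hd (by norm_num))) hd hx hx' CG.B011R_006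

theorem altB_B011R_10 {κ x : ℝ} (hκ : κ * h0 = ken x) (hx : ((587336777 : ℕ) : ℝ) / S ≤ x) (hx' : x ≤ (((587336777 : ℕ) : ℝ) + (62277027 : ℕ)) / S) :
    AltEB 3 κ (eng.v x) (3 / 40) (tnt (h0 * x) (3 / 10)) PP tK tL tC pcB (scP esg pd) [⟨0, 0, 0, 67108864⟩, ⟨1, 1, 0, 67108864⟩, ⟨2, 1, 0, 67108864⟩] 0 1 1 1 0 (sgb true) (sgb false) x := by
  have X : XR 67108864 x := XR.of hx hx' (by norm_num) (by norm_num) (by norm_num) (by norm_num)
  have hen : 0 < eng.v x := en_pos X.x0.le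
  refine CornW.altB (C := cB011R) (j := (1 : Fin 8)) (k := (0 : Fin 8)) (Ef := esg) (pd := pd) (o := 3 / 40)
    (cornW_of (C := cB011R) (C0 := c0B) (En := eng) (mo := mog) (j := (1 : Fin 8)) (k := (0 : Fin 8)) (lo := 5) (hi := 7) (W := 67108864) (N0 := 3) cB011R_q (sideB hx hx') gokB (pinU hx hx') dokB X (by norm_num) (by norm_num) (l := (5 : Fin 8)) rfl
      (gatB10 x) (gatB01 x) (gatB51 x) (datB10 x) (datB01 x) (datB51 x) ?_)
    (cornS_of (C := cB011R) (C0 := c0B) (j := (1 : Fin 8)) (k := (0 : Fin 8)) (lo := 5) (hi := 7) (W := 67108864) (N0 := 3) cB011R_q (sideB hx hx') gokB X (by norm_num) (by norm_num) (l := (5 : Fin 8)) rfl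
      (gatB10 x) (gatB01 x) (gatB51 x) ?_)
    (thU (pinU hx hx')) rfl hκ (fun j q y => tC_eq j q y x) (esg_rng X.x0.le (by linarith [X.b, X.p0])).1 (mo_v x) le_rfl le_rfl
  · intro ρ a B hρ hd i h1 h2
    fin_cases i
    · exact absurd h1 (by norm_num)
    · exact absurd h1 (by norm_num)
    · exact absurd h1 (by norm_num)
    · exact absurd h1 (by norm_num)
    · exact corW_cert (G1 := gB1q0) (G2 := gB0q1) (Ga := gB4q1) (Gb := gB5q1) (D1 := dB1q0) (D2 := dB0q1) (Da := dB4q1) (Db := dB5q1) cB011R_ok B hρ hen (gatB10 x) (gatB01 x) (fun h => absurd h (by decide)) (fun _ => gatB51 x) (datB10 x) (datB01 x) (fun h => absurd h (by decide)) (fun _ => datB51 x) hd hx hx' CW.B011R_104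
    · exact corW_cert (G1 := gB1q0) (G2 := gB0q1) (Ga := gB5q1) (Gb := gB6q1) (D1 := dB1q0) (D2 := dB0q1) (Da := dB5q1) (Db := dB6q1) cB011R_ok B hρ hen (gatB10 x) (gatB01 x) (fun _ => gatB51 x) (fun _ => gatB61 x) (datB10 x) (datB01 x) (fun _ => datB51 x) (fun _ => datB61 x) hd hx hx' CW.B011R_105
    · exact corW_cert (G1 := gB1q0) (G2 := gB0q1) (Ga := gB6q1) (Gb := gB7q1) (D1 := dB1q0) (D2 := dB0q1) (Da := dB6q1) (Db := dB7q1) cB011R_ok B hρ hen (gatB10 x) (gatB01 x) (fun _ => gatB61 x) (fun _ => gatB71 x) (datB10 x) (datB01 x) (fun _ => datB61 x) (fun _ => datB71 x) hd hx hx' CW.B011R_106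
  · intro ρ a B hρ hd i h1 h2
    fin_cases i
    · exact absurd h1 (by norm_num)
    · exact absurd h1 (by norm_num)
    · exact absurd h1 (by norm_num)
    · exact absurd h1 (by norm_num)
    · exact corT_cert (G1 := gB1q0) (G2 := gB0q1) (Ga := gB4q1) (Gb := gB5q1) cB011R_ok B hρ (gatB10 x) (gatB01 x) (fun h => absurd h (by decide)) (fun _ => gatB51 x) hd hx hx' CG.B011R_104
    · exact corT_cert (G1 := gB1q0) (G2 := gB0q1) (Ga := gB5q1) (Gb := gB6q1) cB011R_ok B hρ (gatB10 x) (gatB01 x) (fun _ => gatB51 x) (fun _ => gatB61 x) hd hx hx' CG.B011R_105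
    · exact corT_cert (G1 := gB1q0) (G2 := gB0q1) (Ga := gB6q1) (Gb := gB7q1) cB011R_ok B hρ (gatB10 x) (gatB01 x) (fun _ => gatB61 x) (fun _ => gatB71 x) hd hx hx' CG.B011R_106

theorem altB_B011R_20 {κ x : ℝ} (hκ : κ * h0 = ken x) (hx : ((587336777 : ℕ) : ℝ) / S ≤ x) (hx' : x ≤ (((587336777 : ℕ) : ℝ) + (62277027 : ℕ)) / S) :
    AltEB 3 κ (eng.v x) (3 / 40) (tnt (h0 * x) (3 / 10)) PP tK tL tC pcB (scP esg pd) [⟨0, 0, 0, 67108864⟩, ⟨1, 1, 0, 67108864⟩, ⟨2, 1, 0, 67108864⟩] 0 1 1 2 0 (sgb true) (sgb false) x := by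
  have X : XR 67108864 x := XR.of hx hx' (by norm_num) (by norm_num) (by norm_num) (by norm_num)
  have hen : 0 < eng.v x := en_pos X.x0.le
  refine CornW.altB (C := cB011R) (j := (2 : Fin 8)) (k := (0 : Fin 8)) (Ef := esg) (pd := pd) (o := 3 / 40)
    (cornW_of (C := cB011R) (C0 := c0B) (En := eng) (mo := mog) (j := (2 : Fin 8)) (k := (0 : Fin 8)) (lo := 5) (hi := 7) (W := 67108864) (N0 := 3) cB011R_q (sideB hx hx') gokB (pinU hx hx') dokB X (by norm_num) (by norm_num) (l := (5 : Fin 8)) rfl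
      (gatB20 x) (gatB01 x) (gatB51 x) (datB20 x) (datB01 x) (datB51 x) ?_)
    (cornS_of (C := cB011R) (C0 := c0B) (j := (2 : Fin 8)) (k := (0 : Fin 8)) (lo := 5) (hi := 7) (W := 67108864) (N0 := 3) cB011R_q (sideB hx hx') gokB X (by norm_num) (by norm_num) (l := (5 : Fin 8)) rfl
      (gatB20 x) (gatB01 x) (gatB51 x) ?_)
    (thU (pinU hx hx')) rfl hκ (fun j q y => tC_eq j q y x) (esg_rng X.x0.le (by linarith [X.b, X.p0])).1 (mo_v x) le_rfl le_rfl
  · intro ρ a B hρ hd i h1 h2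
    fin_cases i
    · exact absurd h1 (by norm_num)
    · exact absurd h1 (by norm_num)
    · exact absurd h1 (by norm_num)
    · exact absurd h1 (by norm_num)
    · exact corW_cert (G1 := gB2q0) (G2 := gB0q1) (Ga := gB4q1) (Gb := gB5q1) (D1 := dB2q0) (D2 := dB0q1) (Da := dB4q1) (Db := dB5q1) cB011R_ok B hρ hen (gatB20 x) (gatB01 x) (fun h => absurd h (by decide)) (fun _ => gatB51 x) (datB20 x) (datB01 x) (fun h => absurd h (by decide)) (fun _ => datB51 x) hd hx hx' CW.B011R_204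
    · exact corW_cert (G1 := gB2q0) (G2 := gB0q1) (Ga := gB5q1) (Gb := gB6q1) (D1 := dB2q0) (D2 := dB0q1) (Da := dB5q1) (Db := dB6q1) cB011R_ok B hρ hen (gatB20 x) (gatB01 x) (fun _ => gatB51 x) (fun _ => gatB61 x) (datB20 x) (datB01 x) (fun _ => datB51 x) (fun _ => datB61 x) hd hx hx' CW.B011R_205
    · exact corW_cert (G1 := gB2q0) (G2 := gB0q1) (Ga := gB6q1) (Gb := gB7q1) (D1 := dB2q0) (D2 := dB0q1) (Da := dB6q1) (Db := dB7q1) cB011R_ok B hρ hen (gatB20 x) (gatB01 x) (fun _ => gatB61 x) (fun _ => gatB71 x) (datB20 x) (datB01 x) (fun _ => datB61 x) (fun _ => datB71 x) hd hx hx' CW.B011R_206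
  · intro ρ a B hρ hd i h1 h2
    fin_cases i
    · exact absurd h1 (by norm_num)
    · exact absurd h1 (by norm_num)
    · exact absurd h1 (by norm_num)
    · exact absurd h1 (by norm_num)
    · exact corT_cert (G1 := gB2q0) (G2 := gB0q1) (Ga := gB4q1) (Gb := gB5q1) cB011R_ok B hρ (gatB20 x) (gatB01 x) (fun h => absurd h (by decide)) (fun _ => gatB51 x) hd hx hx' CG.B011R_204
    · exact corT_cert (G1 := gB2q0) (G2 := gB0q1) (Ga := gB5q1) (Gb := gB6q1) cB011R_ok B hρ (gatB20 x) (gatB01 x) (fun _ => gatB51 x) (fun _ => gatB61 x) hd hx hx' CG.B011R_205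
    · exact corT_cert (G1 := gB2q0) (G2 := gB0q1) (Ga := gB6q1) (Gb := gB7q1) cB011R_ok B hρ (gatB20 x) (gatB01 x) (fun _ => gatB61 x) (fun _ => gatB71 x) hd hx hx' CG.B011R_206

theorem altB_B011R_30 {κ x : ℝ} (hκ : κ * h0 = ken x) (hx : ((587336777 : ℕ) : ℝ) / S ≤ x) (hx' : x ≤ (((587336777 : ℕ) : ℝ) + (62277027 : ℕ)) / S) :
    AltEB 3 κ (eng.v x) (3 / 40) (tnt (h0 * x) (3 / 10)) PP tK tL tC pcB (scP esg pd) [⟨0, 0, 0, 67108864⟩, ⟨1, 1, 0, 67108864⟩, ⟨2, 1, 0, 67108864⟩] 0 1 1 3 0 (sgb true) (sgb false) x := by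
  have X : XR 67108864 x := XR.of hx hx' (by norm_num) (by norm_num) (by norm_num) (by norm_num)
  have hen : 0 < eng.v x := en_pos X.x0.le
  refine CornW.altB (C := cB011R) (j := (3 : Fin 8)) (k := (0 : Fin 8)) (Ef := esg) (pd := pd) (o := 3 / 40)
    (cornW_of (C := cB011R) (C0 := c0B) (En := eng) (mo := mog) (j := (3 : Fin 8)) (k := (0 : Fin 8)) (lo := 5) (hi := 7) (W := 67108864) (N0 := 3) cB011R_q (sideB hx hx') gokB (pinU hx hx') dokB X (by norm_num) (by norm_num) (l := (5 : Fin 8)) rfl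
      (gatB30 x) (gatB01 x) (gatB51 x) (datB30 x) (datB01 x) (datB51 x) ?_)
    (cornS_of (C := cB011R) (C0 := c0B) (j := (3 : Fin 8)) (k := (0 : Fin 8)) (lo := 5) (hi := 7) (W := 67108864) (N0 := 3) cB011R_q (sideB hx hx') gokB X (by norm_num) (by norm_num) (l := (5 : Fin 8)) rfl
      (gatB30 x) (gatB01 x) (gatB51 x) ?_)
    (thU (pinU hx hx')) rfl hκ (fun j q y => tC_eq j q y x) (esg_rng X.x0.le (by linarith [X.b, X.p0])).1 (mo_v x) le_rfl le_rfl
  · intro ρ a B hρ hd i h1 h2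
    fin_cases i
    · exact absurd h1 (by norm_num)
    · exact absurd h1 (by norm_num)
    · exact absurd h1 (by norm_num)
    · exact absurd h1 (by norm_num)
    · exact corW_cert (G1 := gB3q0) (G2 := gB0q1) (Ga := gB4q1) (Gb := gB5q1) (D1 := dB3q0) (D2 := dB0q1) (Da := dB4q1) (Db := dB5q1) cB011R_ok B hρ hen (gatB30 x) (gatB01 x) (fun h => absurd h (by decide)) (fun _ => gatB51 x) (datB30 x) (datB01 x) (fun h => absurd h (by decide)) (fun _ => datB51 x) hd hx hx' CW.B011R_304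
    · exact corW_cert (G1 := gB3q0) (G2 := gB0q1) (Ga := gB5q1) (Gb := gB6q1) (D1 := dB3q0) (D2 := dB0q1) (Da := dB5q1) (Db := dB6q1) cB011R_ok B hρ hen (gatB30 x) (gatB01 x) (fun _ => gatB51 x) (fun _ => gatB61 x) (datB30 x) (datB01 x) (fun _ => datB51 x) (fun _ => datB61 x) hd hx hx' CW.B011R_305
    · exact corW_cert (G1 := gB3q0) (G2 := gB0q1) (Ga := gB6q1) (Gb := gB7q1) (D1 := dB3q0) (D2 := dB0q1) (Da := dB6q1) (Db := dB7q1) cB011R_ok B hρ hen (gatB30 x) (gatB01 x) (fun _ => gatB61 x) (fun _ => gatB71 x) (datB30 x) (datB01 x) (fun _ => datB61 x) (fun _ => datB71 x) hd hx hx' CW.B011R_306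
  · intro ρ a B hρ hd i h1 h2
    fin_cases i
    · exact absurd h1 (by norm_num)
    · exact absurd h1 (by norm_num)
    · exact absurd h1 (by norm_num)
    · exact absurd h1 (by norm_num)
    · exact corT_cert (G1 := gB3q0) (G2 := gB0q1) (Ga := gB4q1) (Gb := gB5q1) cB011R_ok B hρ (gatB30 x) (gatB01 x) (fun h => absurd h (by decide)) (fun _ => gatB51 x) hd hx hx' CG.B011R_304
    · exact corT_cert (G1 := gB3q0) (G2 := gB0q1) (Ga := gB5q1) (Gb := gB6q1) cB011R_ok B hρ (gatB30 x) (gatB01 x) (fun _ => gatB51 x) (fun _ => gatB61 x) hd hx hx' CG.B011R_305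
    · exact corT_cert (G1 := gB3q0) (G2 := gB0q1) (Ga := gB6q1) (Gb := gB7q1) cB011R_ok B hρ (gatB30 x) (gatB01 x) (fun _ => gatB61 x) (fun _ => gatB71 x) hd hx hx' CG.B011R_306

theorem altB_B011R_40 {κ x : ℝ} (hκ : κ * h0 = ken x) (hx : ((587336777 : ℕ) : ℝ) / S ≤ x) (hx' : x ≤ (((587336777 : ℕ) : ℝ) + (62277027 : ℕ)) / S) :
    AltEB 3 κ (eng.v x) (3 / 40) (tnt (h0 * x) (3 / 10)) PP tK tL tC pcB (scP esg pd) [⟨0, 0, 0, 67108864⟩, ⟨1, 1, 0, 67108864⟩, ⟨2, 1, 0, 67108864⟩] 0 1 1 4 0 (sgb true) (sgb false) x := by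
  have X : XR 67108864 x := XR.of hx hx' (by norm_num) (by norm_num) (by norm_num) (by norm_num)
  have hen : 0 < eng.v x := en_pos X.x0.le
  refine CornW.altB (C := cB011R) (j := (4 : Fin 8)) (k := (0 : Fin 8)) (Ef := esg) (pd := pd) (o := 3 / 40)
    (cornW_of (C := cB011R) (C0 := c0B) (En := eng) (mo := mog) (j := (4 : Fin 8)) (k := (0 : Fin 8)) (lo := 5) (hi := 7) (W := 67108864) (N0 := 3) cB011R_q (sideB hx hx') gokB (pinU hx hx') dokB X (by norm_num) (by norm_num) (l := (5 : Fin 8)) rfl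
      (gatB40 x) (gatB01 x) (gatB51 x) (datB40 x) (datB01 x) (datB51 x) ?_)
    (cornS_of (C := cB011R) (C0 := c0B) (j := (4 : Fin 8)) (k := (0 : Fin 8)) (lo := 5) (hi := 7) (W := 67108864) (N0 := 3) cB011R_q (sideB hx hx') gokB X (by norm_num) (by norm_num) (l := (5 : Fin 8)) rfl
      (gatB40 x) (gatB01 x) (gatB51 x) ?_)
    (thU (pinU hx hx')) rfl hκ (fun j q y => tC_eq j q y x) (esg_rng X.x0.le (by linarith [X.b, X.p0])).1 (mo_v x) le_rfl le_rfl
  · intro ρ a B hρ hd i h1 h2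
    fin_cases i
    · exact absurd h1 (by norm_num)
    · exact absurd h1 (by norm_num)
    · exact absurd h1 (by norm_num)
    · exact absurd h1 (by norm_num)
    · exact corW_cert (G1 := gB4q0) (G2 := gB0q1) (Ga := gB4q1) (Gb := gB5q1) (D1 := dB4q0) (D2 := dB0q1) (Da := dB4q1) (Db := dB5q1) cB011R_ok B hρ hen (gatB40 x) (gatB01 x) (fun h => absurd h (by decide)) (fun _ => gatB51 x) (datB40 x) (datB01 x) (fun h => absurd h (by decide)) (fun _ => datB51 x) hd hx hx' CW.B011R_404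
    · exact corW_cert (G1 := gB4q0) (G2 := gB0q1) (Ga := gB5q1) (Gb := gB6q1) (D1 := dB4q0) (D2 := dB0q1) (Da := dB5q1) (Db := dB6q1) cB011R_ok B hρ hen (gatB40 x) (gatB01 x) (fun _ => gatB51 x) (fun _ => gatB61 x) (datB40 x) (datB01 x) (fun _ => datB51 x) (fun _ => datB61 x) hd hx hx' CW.B011R_405
    · exact corW_cert (G1 := gB4q0) (G2 := gB0q1) (Ga := gB6q1) (Gb := gB7q1) (D1 := dB4q0) (D2 := dB0q1) (Da := dB6q1) (Db := dB7q1) cB011R_ok B hρ hen (gatB40 x) (gatB01 x) (fun _ => gatB61 x) (fun _ => gatB71 x) (datB40 x) (datB01 x) (fun _ => datB61 x) (fun _ => datB71 x) hd hx hx' CW.B011R_406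
  · intro ρ a B hρ hd i h1 h2
    fin_cases i
    · exact absurd h1 (by norm_num)
    · exact absurd h1 (by norm_num)
    · exact absurd h1 (by norm_num)
    · exact absurd h1 (by norm_num)
    · exact corT_cert (G1 := gB4q0) (G2 := gB0q1) (Ga := gB4q1) (Gb := gB5q1) cB011R_ok B hρ (gatB40 x) (gatB01 x) (fun h => absurd h (by decide)) (fun _ => gatB51 x) hd hx hx' CG.B011R_404
    · exact corT_cert (G1 := gB4q0) (G2 := gB0q1) (Ga := gB5q1) (Gb := gB6q1) cB011R_ok B hρ (gatB40 x) (gatB01 x) (fun _ => gatB51 x) (fun _ => gatB61 x) hd hx hx' CG.B011R_405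
    · exact corT_cert (G1 := gB4q0) (G2 := gB0q1) (Ga := gB6q1) (Gb := gB7q1) cB011R_ok B hρ (gatB40 x) (gatB01 x) (fun _ => gatB61 x) (fun _ => gatB71 x) hd hx hx' CG.B011R_406

theorem altB_B012E_00 {κ x : ℝ} (hκ : κ * h0 = ken x) (hx : ((587336777 : ℕ) : ℝ) / S ≤ x) (hx' : x ≤ (((587336777 : ℕ) : ℝ) + (62277027 : ℕ)) / S) :
    AltEB 3 κ (eng.v x) (3 / 40) (tnt (h0 * x) (3 / 10)) PP tK tL tC pcB (scP esg pd) [⟨0, 0, 0, 44739242⟩, ⟨1, 1, 0, 44739242⟩, ⟨2, 1, 0, 44739242⟩] 0 1 2 0 0 (sgb true) (sgb true) x := by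
  have X : XR 44739242 x := XR.of hx hx' (by norm_num) (by norm_num) (by norm_num) (by norm_num)
  have hen : 0 < eng.v x := en_pos X.x0.le
  refine CornW.altB (C := cB012E) (j := (0 : Fin 8)) (k := (0 : Fin 8)) (Ef := esg) (pd := pd) (o := 3 / 40)
    (cornW_of (C := cB012E) (C0 := c0B) (En := eng) (mo := mog) (j := (0 : Fin 8)) (k := (0 : Fin 8)) (lo := 0) (hi := 0) (W := 44739242) (N0 := 3) cB012E_q (sideB hx hx') gokB (pinU hx hx') dokB X (by norm_num) (by norm_num) (l := (0 : Fin 8)) rfl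
      (gatB00 x) (gatB02 x) (gatB01 x) (datB00 x) (datB02 x) (datB01 x) ?_)
    (cornS_of (C := cB012E) (C0 := c0B) (j := (0 : Fin 8)) (k := (0 : Fin 8)) (lo := 0) (hi := 0) (W := 44739242) (N0 := 3) cB012E_q (sideB hx hx') gokB X (by norm_num) (by norm_num) (l := (0 : Fin 8)) rfl
      (gatB00 x) (gatB02 x) (gatB01 x) ?_)
    (thU (pinU hx hx')) rfl hκ (fun j q y => tC_eq j q y x) (esg_rng X.x0.le (by linarith [X.b, X.p0])).1 (mo_v x) le_rfl le_rfl
  · intro ρ a B hρ hd i h1 h2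
    fin_cases i
    · exact corW_cert (G1 := gB0q0) (G2 := gB0q2) (Ga := gB0q1) (Gb := gB1q1) (D1 := dB0q0) (D2 := dB0q2) (Da := dB0q1) (Db := dB1q1) cB012E_ok B hρ hen (gatB00 x) (gatB02 x) (fun _ => gatB01 x) (fun h => absurd h (by decide)) (datB00 x) (datB02 x) (fun _ => datB01 x) (fun h => absurd h (by decide)) hd hx hx' CW.B012E_000
    · exact absurd h2 (by norm_num)
    · exact absurd h2 (by norm_num)
    · exact absurd h2 (by norm_num)
    · exact absurd h2 (by norm_num)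
    · exact absurd h2 (by norm_num)
    · exact absurd h2 (by norm_num)
  · intro ρ a B hρ hd i h1 h2
    fin_cases i
    · exact corX_cert (G1 := gB0q0) (G2 := gB0q2) (Ga := gB0q1) (Gb := gB1q1) (GT := gB0q1) cB012E_ok tB012E_ok B hρ (gatB00 x) (gatB02 x) (fun _ => gatB01 x) (fun h => absurd h (by decide)) rfl (tgh_B012E (kodd x) (gpu0 x) (gpu2 x) (gpu1 x) (gatB00 x) (gatB02 x) (gatB01 x) B (le_sixteenth hd (by norm_num))) hd hx hx' CG.B012E_000
    · exact absurd h2 (by norm_num)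
    · exact absurd h2 (by norm_num)
    · exact absurd h2 (by norm_num)
    · exact absurd h2 (by norm_num)
    · exact absurd h2 (by norm_num)
    · exact absurd h2 (by norm_num)

theorem altB_B012E_01 {κ x : ℝ} (hκ : κ * h0 = ken x) (hx : ((587336777 : ℕ) : ℝ) / S ≤ x) (hx' : x ≤ (((587336777 : ℕ) : ℝ) + (62277027 : ℕ)) / S) :
    AltEB 3 κ (eng.v x) (3 / 40) (tnt (h0 * x) (3 / 10)) PP tK tL tC pcB (scP esg pd) [⟨0, 0, 0, 53687091⟩, ⟨1, 1, 0, 53687091⟩, ⟨2, 1, 0, 53687091⟩] 0 1 2 0 1 (sgb true) (sgb true) x := by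
  have X : XR 53687091 x := XR.of hx hx' (by norm_num) (by norm_num) (by norm_num) (by norm_num)
  have hen : 0 < eng.v x := en_pos X.x0.le
  refine CornW.altB (C := cB012E) (j := (0 : Fin 8)) (k := (1 : Fin 8)) (Ef := esg) (pd := pd) (o := 3 / 40)
    (cornW_of (C := cB012E) (C0 := c0B) (En := eng) (mo := mog) (j := (0 : Fin 8)) (k := (1 : Fin 8)) (lo := 0) (hi := 0) (W := 53687091) (N0 := 3) cB012E_q (sideB hx hx') gokB (pinU hx hx') dokB X (by norm_num) (by norm_num) (l := (0 : Fin 8)) rfl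
      (gatB00 x) (gatB12 x) (gatB01 x) (datB00 x) (datB12 x) (datB01 x) ?_)
    (cornS_of (C := cB012E) (C0 := c0B) (j := (0 : Fin 8)) (k := (1 : Fin 8)) (lo := 0) (hi := 0) (W := 53687091) (N0 := 3) cB012E_q (sideB hx hx') gokB X (by norm_num) (by norm_num) (l := (0 : Fin 8)) rfl
      (gatB00 x) (gatB12 x) (gatB01 x) ?_)
    (thU (pinU hx hx')) rfl hκ (fun j q y => tC_eq j q y x) (esg_rng X.x0.le (by linarith [X.b, X.p0])).1 (mo_v x) le_rfl le_rfl
  · intro ρ a B hρ hd i h1 h2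
    fin_cases i
    · exact corW_cert (G1 := gB0q0) (G2 := gB1q2) (Ga := gB0q1) (Gb := gB1q1) (D1 := dB0q0) (D2 := dB1q2) (Da := dB0q1) (Db := dB1q1) cB012E_ok B hρ hen (gatB00 x) (gatB12 x) (fun _ => gatB01 x) (fun h => absurd h (by decide)) (datB00 x) (datB12 x) (fun _ => datB01 x) (fun h => absurd h (by decide)) hd hx hx' CW.B012E_010
    · exact absurd h2 (by norm_num)
    · exact absurd h2 (by norm_num)
    · exact absurd h2 (by norm_num)
    · exact absurd h2 (by norm_num)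
    · exact absurd h2 (by norm_num)
    · exact absurd h2 (by norm_num)
  · intro ρ a B hρ hd i h1 h2
    fin_cases i
    · exact corT_cert (G1 := gB0q0) (G2 := gB1q2) (Ga := gB0q1) (Gb := gB1q1) cB012E_ok B hρ (gatB00 x) (gatB12 x) (fun _ => gatB01 x) (fun h => absurd h (by decide)) hd hx hx' CG.B012E_010
    · exact absurd h2 (by norm_num)
    · exact absurd h2 (by norm_num)
    · exact absurd h2 (by norm_num)
    · exact absurd h2 (by norm_num)
    · exact absurd h2 (by norm_num)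
    · exact absurd h2 (by norm_num)

theorem altB_B012E_02 {κ x : ℝ} (hκ : κ * h0 = ken x) (hx : ((587336777 : ℕ) : ℝ) / S ≤ x) (hx' : x ≤ (((587336777 : ℕ) : ℝ) + (62277027 : ℕ)) / S) :
    AltEB 3 κ (eng.v x) (3 / 40) (tnt (h0 * x) (3 / 10)) PP tK tL tC pcB (scP esg pd) [⟨0, 0, 0, 53687091⟩, ⟨1, 1, 0, 53687091⟩, ⟨2, 1, 0, 53687091⟩] 0 1 2 0 2 (sgb true) (sgb true) x := by
  have X : XR 53687091 x := XR.of hx hx' (by norm_num) (by norm_num) (by norm_num) (by norm_num)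
  have hen : 0 < eng.v x := en_pos X.x0.le
  refine CornW.altB (C := cB012E) (j := (0 : Fin 8)) (k := (2 : Fin 8)) (Ef := esg) (pd := pd) (o := 3 / 40)
    (cornW_of (C := cB012E) (C0 := c0B) (En := eng) (mo := mog) (j := (0 : Fin 8)) (k := (2 : Fin 8)) (lo := 0) (hi := 0) (W := 53687091) (N0 := 3) cB012E_q (sideB hx hx') gokB (pinU hx hx') dokB X (by norm_num) (by norm_num) (l := (0 : Fin 8)) rfl
      (gatB00 x) (gatB22 x) (gatB01 x) (datB00 x) (datB22 x) (datB01 x) ?_)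
    (cornS_of (C := cB012E) (C0 := c0B) (j := (0 : Fin 8)) (k := (2 : Fin 8)) (lo := 0) (hi := 0) (W := 53687091) (N0 := 3) cB012E_q (sideB hx hx') gokB X (by norm_num) (by norm_num) (l := (0 : Fin 8)) rfl
      (gatB00 x) (gatB22 x) (gatB01 x) ?_)
    (thU (pinU hx hx')) rfl hκ (fun j q y => tC_eq j q y x) (esg_rng X.x0.le (by linarith [X.b, X.p0])).1 (mo_v x) le_rfl le_rfl
  · intro ρ a B hρ hd i h1 h2
    fin_cases i
    · exact corW_cert (G1 := gB0q0) (G2 := gB2q2) (Ga := gB0q1) (Gb := gB1q1) (D1 := dB0q0) (D2 := dB2q2) (Da := dB0q1) (Db := dB1q1) cB012E_ok B hρ hen (gatB00 x) (gatB22 x) (fun _ => gatB01 x) (fun h => absurd h (by decide)) (datB00 x) (datB22 x) (fun _ => datB01 x) (fun h => absurd h (by decide)) hd hx hx' CW.B012E_020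
    · exact absurd h2 (by norm_num)
    · exact absurd h2 (by norm_num)
    · exact absurd h2 (by norm_num)
    · exact absurd h2 (by norm_num)
    · exact absurd h2 (by norm_num)
    · exact absurd h2 (by norm_num)
  · intro ρ a B hρ hd i h1 h2
    fin_cases i
    · exact corT_cert (G1 := gB0q0) (G2 := gB2q2) (Ga := gB0q1) (Gb := gB1q1) cB012E_ok B hρ (gatB00 x) (gatB22 x) (fun _ => gatB01 x) (fun h => absurd h (by decide)) hd hx hx' CG.B012E_020
    · exact absurd h2 (by norm_num)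
    · exact absurd h2 (by norm_num)
    · exact absurd h2 (by norm_num)
    · exact absurd h2 (by norm_num)
    · exact absurd h2 (by norm_num)
    · exact absurd h2 (by norm_num)

theorem altB_B012E_03 {κ x : ℝ} (hκ : κ * h0 = ken x) (hx : ((587336777 : ℕ) : ℝ) / S ≤ x) (hx' : x ≤ (((587336777 : ℕ) : ℝ) + (62277027 : ℕ)) / S) :
    AltEB 3 κ (eng.v x) (3 / 40) (tnt (h0 * x) (3 / 10)) PP tK tL tC pcB (scP esg pd) [⟨0, 0, 0, 67108864⟩, ⟨1, 1, 0, 67108864⟩, ⟨2, 1, 0, 67108864⟩] 0 1 2 0 3 (sgb true) (sgb true) x := by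
  have X : XR 67108864 x := XR.of hx hx' (by norm_num) (by norm_num) (by norm_num) (by norm_num)
  have hen : 0 < eng.v x := en_pos X.x0.le
  refine CornW.altB (C := cB012E) (j := (0 : Fin 8)) (k := (3 : Fin 8)) (Ef := esg) (pd := pd) (o := 3 / 40)
    (cornW_of (C := cB012E) (C0 := c0B) (En := eng) (mo := mog) (j := (0 : Fin 8)) (k := (3 : Fin 8)) (lo := 0) (hi := 0) (W := 67108864) (N0 := 3) cB012E_q (sideB hx hx') gokB (pinU hx hx') dokB X (by norm_num) (by norm_num) (l := (0 : Fin 8)) rfl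
      (gatB00 x) (gatB32 x) (gatB01 x) (datB00 x) (datB32 x) (datB01 x) ?_)
    (cornS_of (C := cB012E) (C0 := c0B) (j := (0 : Fin 8)) (k := (3 : Fin 8)) (lo := 0) (hi := 0) (W := 67108864) (N0 := 3) cB012E_q (sideB hx hx') gokB X (by norm_num) (by norm_num) (l := (0 : Fin 8)) rfl
      (gatB00 x) (gatB32 x) (gatB01 x) ?_)
    (thU (pinU hx hx')) rfl hκ (fun j q y => tC_eq j q y x) (esg_rng X.x0.le (by linarith [X.b, X.p0])).1 (mo_v x) le_rfl le_rfl
  · intro ρ a B hρ hd i h1 h2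
    fin_cases i
    · exact corW_cert (G1 := gB0q0) (G2 := gB3q2) (Ga := gB0q1) (Gb := gB1q1) (D1 := dB0q0) (D2 := dB3q2) (Da := dB0q1) (Db := dB1q1) cB012E_ok B hρ hen (gatB00 x) (gatB32 x) (fun _ => gatB01 x) (fun h => absurd h (by decide)) (datB00 x) (datB32 x) (fun _ => datB01 x) (fun h => absurd h (by decide)) hd hx hx' CW.B012E_030
    · exact absurd h2 (by norm_num)
    · exact absurd h2 (by norm_num)
    · exact absurd h2 (by norm_num)
    · exact absurd h2 (by norm_num)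
    · exact absurd h2 (by norm_num)
    · exact absurd h2 (by norm_num)
  · intro ρ a B hρ hd i h1 h2
    fin_cases i
    · exact corT_cert (G1 := gB0q0) (G2 := gB3q2) (Ga := gB0q1) (Gb := gB1q1) cB012E_ok B hρ (gatB00 x) (gatB32 x) (fun _ => gatB01 x) (fun h => absurd h (by decide)) hd hx hx' CG.B012E_030
    · exact absurd h2 (by norm_num)
    · exact absurd h2 (by norm_num)
    · exact absurd h2 (by norm_num)
    · exact absurd h2 (by norm_num)
    · exact absurd h2 (by norm_num)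
    · exact absurd h2 (by norm_num)

theorem altB_B012E_04 {κ x : ℝ} (hκ : κ * h0 = ken x) (hx : ((587336777 : ℕ) : ℝ) / S ≤ x) (hx' : x ≤ (((587336777 : ℕ) : ℝ) + (62277027 : ℕ)) / S) :
    AltEB 3 κ (eng.v x) (3 / 40) (tnt (h0 * x) (3 / 10)) PP tK tL tC pcB (scP esg pd) [⟨0, 0, 0, 67108864⟩, ⟨1, 1, 0, 67108864⟩, ⟨2, 1, 0, 67108864⟩] 0 1 2 0 4 (sgb true) (sgb true) x := by
  have X : XR 67108864 x := XR.of hx hx' (by norm_num) (by norm_num) (by norm_num) (by norm_num)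
  have hen : 0 < eng.v x := en_pos X.x0.le
  refine CornW.altB (C := cB012E) (j := (0 : Fin 8)) (k := (4 : Fin 8)) (Ef := esg) (pd := pd) (o := 3 / 40)
    (cornW_of (C := cB012E) (C0 := c0B) (En := eng) (mo := mog) (j := (0 : Fin 8)) (k := (4 : Fin 8)) (lo := 0) (hi := 0) (W := 67108864) (N0 := 3) cB012E_q (sideB hx hx') gokB (pinU hx hx') dokB X (by norm_num) (by norm_num) (l := (0 : Fin 8)) rfl
      (gatB00 x) (gatB42 x) (gatB01 x) (datB00 x) (datB42 x) (datB01 x) ?_)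
    (cornS_of (C := cB012E) (C0 := c0B) (j := (0 : Fin 8)) (k := (4 : Fin 8)) (lo := 0) (hi := 0) (W := 67108864) (N0 := 3) cB012E_q (sideB hx hx') gokB X (by norm_num) (by norm_num) (l := (0 : Fin 8)) rfl
      (gatB00 x) (gatB42 x) (gatB01 x) ?_)
    (thU (pinU hx hx')) rfl hκ (fun j q y => tC_eq j q y x) (esg_rng X.x0.le (by linarith [X.b, X.p0])).1 (mo_v x) le_rfl le_rfl
  · intro ρ a B hρ hd i h1 h2
    fin_cases i
    · exact corW_cert (G1 := gB0q0) (G2 := gB4q2) (Ga := gB0q1) (Gb := gB1q1) (D1 := dB0q0) (D2 := dB4q2) (Da := dB0q1) (Db := dB1q1) cB012E_ok B hρ hen (gatB00 x) (gatB42 x) (fun _ => gatB01 x) (fun h => absurd h (by decide)) (datB00 x) (datB42 x) (fun _ => datB01 x) (fun h => absurd h (by decide)) hd hx hx' CW.B012E_040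
    · exact absurd h2 (by norm_num)
    · exact absurd h2 (by norm_num)
    · exact absurd h2 (by norm_num)
    · exact absurd h2 (by norm_num)
    · exact absurd h2 (by norm_num)
    · exact absurd h2 (by norm_num)
  · intro ρ a B hρ hd i h1 h2
    fin_cases i
    · exact corT_cert (G1 := gB0q0) (G2 := gB4q2) (Ga := gB0q1) (Gb := gB1q1) cB012E_ok B hρ (gatB00 x) (gatB42 x) (fun _ => gatB01 x) (fun h => absurd h (by decide)) hd hx hx' CG.B012E_040
    · exact absurd h2 (by norm_num)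
    · exact absurd h2 (by norm_num)
    · exact absurd h2 (by norm_num)
    · exact absurd h2 (by norm_num)
    · exact absurd h2 (by norm_num)
    · exact absurd h2 (by norm_num)

theorem altB_B012E_10 {κ x : ℝ} (hκ : κ * h0 = ken x) (hx : ((587336777 : ℕ) : ℝ) / S ≤ x) (hx' : x ≤ (((587336777 : ℕ) : ℝ) + (62277027 : ℕ)) / S) :
    AltEB 3 κ (eng.v x) (3 / 40) (tnt (h0 * x) (3 / 10)) PP tK tL tC pcB (scP esg pd) [⟨0, 0, 0, 44739242⟩, ⟨1, 1, 0, 44739242⟩, ⟨2, 1, 0, 44739242⟩] 0 1 2 1 0 (sgb true) (sgb true) x := by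
  have X : XR 44739242 x := XR.of hx hx' (by norm_num) (by norm_num) (by norm_num) (by norm_num)
  have hen : 0 < eng.v x := en_pos X.x0.le
  refine CornW.altB (C := cB012E) (j := (1 : Fin 8)) (k := (0 : Fin 8)) (Ef := esg) (pd := pd) (o := 3 / 40)
    (cornW_of (C := cB012E) (C0 := c0B) (En := eng) (mo := mog) (j := (1 : Fin 8)) (k := (0 : Fin 8)) (lo := 0) (hi := 0) (W := 44739242) (N0 := 3) cB012E_q (sideB hx hx') gokB (pinU hx hx') dokB X (by norm_num) (by norm_num) (l := (0 : Fin 8)) rfl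
      (gatB10 x) (gatB02 x) (gatB01 x) (datB10 x) (datB02 x) (datB01 x) ?_)
    (cornS_of (C := cB012E) (C0 := c0B) (j := (1 : Fin 8)) (k := (0 : Fin 8)) (lo := 0) (hi := 0) (W := 44739242) (N0 := 3) cB012E_q (sideB hx hx') gokB X (by norm_num) (by norm_num) (l := (0 : Fin 8)) rfl
      (gatB10 x) (gatB02 x) (gatB01 x) ?_)
    (thU (pinU hx hx')) rfl hκ (fun j q y => tC_eq j q y x) (esg_rng X.x0.le (by linarith [X.b, X.p0])).1 (mo_v x) le_rfl le_rfl
  · intro ρ a B hρ hd i h1 h2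
    fin_cases i
    · exact corW_cert (G1 := gB1q0) (G2 := gB0q2) (Ga := gB0q1) (Gb := gB1q1) (D1 := dB1q0) (D2 := dB0q2) (Da := dB0q1) (Db := dB1q1) cB012E_ok B hρ hen (gatB10 x) (gatB02 x) (fun _ => gatB01 x) (fun h => absurd h (by decide)) (datB10 x) (datB02 x) (fun _ => datB01 x) (fun h => absurd h (by decide)) hd hx hx' CW.B012E_100
    · exact absurd h2 (by norm_num)
    · exact absurd h2 (by norm_num)
    · exact absurd h2 (by norm_num)
    · exact absurd h2 (by norm_num)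
    · exact absurd h2 (by norm_num)
    · exact absurd h2 (by norm_num)
  · intro ρ a B hρ hd i h1 h2
    fin_cases i
    · exact corT_cert (G1 := gB1q0) (G2 := gB0q2) (Ga := gB0q1) (Gb := gB1q1) cB012E_ok B hρ (gatB10 x) (gatB02 x) (fun _ => gatB01 x) (fun h => absurd h (by decide)) hd hx hx' CG.B012E_100
    · exact absurd h2 (by norm_num)
    · exact absurd h2 (by norm_num)
    · exact absurd h2 (by norm_num)
    · exact absurd h2 (by norm_num)
    · exact absurd h2 (by norm_num)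
    · exact absurd h2 (by norm_num)

theorem altB_B012E_11 {κ x : ℝ} (hκ : κ * h0 = ken x) (hx : ((587336777 : ℕ) : ℝ) / S ≤ x) (hx' : x ≤ (((587336777 : ℕ) : ℝ) + (62277027 : ℕ)) / S) :
    AltEB 3 κ (eng.v x) (3 / 40) (tnt (h0 * x) (3 / 10)) PP tK tL tC pcB (scP esg pd) [⟨0, 0, 0, 44739242⟩, ⟨1, 1, 0, 44739242⟩, ⟨2, 1, 0, 44739242⟩] 0 1 2 1 1 (sgb true) (sgb true) x := by
  have X : XR 44739242 x := XR.of hx hx' (by norm_num) (by norm_num) (by norm_num) (by norm_num)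
  have hen : 0 < eng.v x := en_pos X.x0.le
  refine CornW.altB (C := cB012E) (j := (1 : Fin 8)) (k := (1 : Fin 8)) (Ef := esg) (pd := pd) (o := 3 / 40)
    (cornW_of (C := cB012E) (C0 := c0B) (En := eng) (mo := mog) (j := (1 : Fin 8)) (k := (1 : Fin 8)) (lo := 0) (hi := 0) (W := 44739242) (N0 := 3) cB012E_q (sideB hx hx') gokB (pinU hx hx') dokB X (by norm_num) (by norm_num) (l := (0 : Fin 8)) rfl
      (gatB10 x) (gatB12 x) (gatB01 x) (datB10 x) (datB12 x) (datB01 x) ?_)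
    (cornS_of (C := cB012E) (C0 := c0B) (j := (1 : Fin 8)) (k := (1 : Fin 8)) (lo := 0) (hi := 0) (W := 44739242) (N0 := 3) cB012E_q (sideB hx hx') gokB X (by norm_num) (by norm_num) (l := (0 : Fin 8)) rfl
      (gatB10 x) (gatB12 x) (gatB01 x) ?_)
    (thU (pinU hx hx')) rfl hκ (fun j q y => tC_eq j q y x) (esg_rng X.x0.le (by linarith [X.b, X.p0])).1 (mo_v x) le_rfl le_rfl
  · intro ρ a B hρ hd i h1 h2
    fin_cases i
    · exact corW_cert (G1 := gB1q0) (G2 := gB1q2) (Ga := gB0q1) (Gb := gB1q1) (D1 := dB1q0) (D2 := dB1q2) (Da := dB0q1) (Db := dB1q1) cB012E_ok B hρ hen (gatB10 x) (gatB12 x) (fun _ => gatB01 x) (fun h => absurd h (by decide)) (datB10 x) (datB12 x) (fun _ => datB01 x) (fun h => absurd h (by decide)) hd hx hx' CW.B012E_110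
    · exact absurd h2 (by norm_num)
    · exact absurd h2 (by norm_num)
    · exact absurd h2 (by norm_num)
    · exact absurd h2 (by norm_num)
    · exact absurd h2 (by norm_num)
    · exact absurd h2 (by norm_num)
  · intro ρ a B hρ hd i h1 h2
    fin_cases i
    · exact corT_cert (G1 := gB1q0) (G2 := gB1q2) (Ga := gB0q1) (Gb := gB1q1) cB012E_ok B hρ (gatB10 x) (gatB12 x) (fun _ => gatB01 x) (fun h => absurd h (by decide)) hd hx hx' CG.B012E_110
    · exact absurd h2 (by norm_num)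
    · exact absurd h2 (by norm_num)
    · exact absurd h2 (by norm_num)
    · exact absurd h2 (by norm_num)
    · exact absurd h2 (by norm_num)
    · exact absurd h2 (by norm_num)

theorem altB_B012E_12 {κ x : ℝ} (hκ : κ * h0 = ken x) (hx : ((587336777 : ℕ) : ℝ) / S ≤ x) (hx' : x ≤ (((587336777 : ℕ) : ℝ) + (62277027 : ℕ)) / S) :
    AltEB 3 κ (eng.v x) (3 / 40) (tnt (h0 * x) (3 / 10)) PP tK tL tC pcB (scP esg pd) [⟨0, 0, 0, 53687091⟩, ⟨1, 1, 0, 53687091⟩, ⟨2, 1, 0, 53687091⟩] 0 1 2 1 2 (sgb true) (sgb true) x := by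
  have X : XR 53687091 x := XR.of hx hx' (by norm_num) (by norm_num) (by norm_num) (by norm_num)
  have hen : 0 < eng.v x := en_pos X.x0.le
  refine CornW.altB (C := cB012E) (j := (1 : Fin 8)) (k := (2 : Fin 8)) (Ef := esg) (pd := pd) (o := 3 / 40)
    (cornW_of (C := cB012E) (C0 := c0B) (En := eng) (mo := mog) (j := (1 : Fin 8)) (k := (2 : Fin 8)) (lo := 0) (hi := 0) (W := 53687091) (N0 := 3) cB012E_q (sideB hx hx') gokB (pinU hx hx') dokB X (by norm_num) (by norm_num) (l := (0 : Fin 8)) rfl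
      (gatB10 x) (gatB22 x) (gatB01 x) (datB10 x) (datB22 x) (datB01 x) ?_)
    (cornS_of (C := cB012E) (C0 := c0B) (j := (1 : Fin 8)) (k := (2 : Fin 8)) (lo := 0) (hi := 0) (W := 53687091) (N0 := 3) cB012E_q (sideB hx hx') gokB X (by norm_num) (by norm_num) (l := (0 : Fin 8)) rfl
      (gatB10 x) (gatB22 x) (gatB01 x) ?_)
    (thU (pinU hx hx')) rfl hκ (fun j q y => tC_eq j q y x) (esg_rng X.x0.le (by linarith [X.b, X.p0])).1 (mo_v x) le_rfl le_rfl
  · intro ρ a B hρ hd i h1 h2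
    fin_cases i
    · exact corW_cert (G1 := gB1q0) (G2 := gB2q2) (Ga := gB0q1) (Gb := gB1q1) (D1 := dB1q0) (D2 := dB2q2) (Da := dB0q1) (Db := dB1q1) cB012E_ok B hρ hen (gatB10 x) (gatB22 x) (fun _ => gatB01 x) (fun h => absurd h (by decide)) (datB10 x) (datB22 x) (fun _ => datB01 x) (fun h => absurd h (by decide)) hd hx hx' CW.B012E_120
    · exact absurd h2 (by norm_num)
    · exact absurd h2 (by norm_num)
    · exact absurd h2 (by norm_num)
    · exact absurd h2 (by norm_num)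
    · exact absurd h2 (by norm_num)
    · exact absurd h2 (by norm_num)
  · intro ρ a B hρ hd i h1 h2
    fin_cases i
    · exact corT_cert (G1 := gB1q0) (G2 := gB2q2) (Ga := gB0q1) (Gb := gB1q1) cB012E_ok B hρ (gatB10 x) (gatB22 x) (fun _ => gatB01 x) (fun h => absurd h (by decide)) hd hx hx' CG.B012E_120
    · exact absurd h2 (by norm_num)
    · exact absurd h2 (by norm_num)
    · exact absurd h2 (by norm_num)
    · exact absurd h2 (by norm_num)
    · exact absurd h2 (by norm_num)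
    · exact absurd h2 (by norm_num)

theorem altB_B012E_13 {κ x : ℝ} (hκ : κ * h0 = ken x) (hx : ((587336777 : ℕ) : ℝ) / S ≤ x) (hx' : x ≤ (((587336777 : ℕ) : ℝ) + (62277027 : ℕ)) / S) :
    AltEB 3 κ (eng.v x) (3 / 40) (tnt (h0 * x) (3 / 10)) PP tK tL tC pcB (scP esg pd) [⟨0, 0, 0, 67108864⟩, ⟨1, 1, 0, 67108864⟩, ⟨2, 1, 0, 67108864⟩] 0 1 2 1 3 (sgb true) (sgb true) x := by
  have X : XR 67108864 x := XR.of hx hx' (by norm_num) (by norm_num) (by norm_num) (by norm_num)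
  have hen : 0 < eng.v x := en_pos X.x0.le
  refine CornW.altB (C := cB012E) (j := (1 : Fin 8)) (k := (3 : Fin 8)) (Ef := esg) (pd := pd) (o := 3 / 40)
    (cornW_of (C := cB012E) (C0 := c0B) (En := eng) (mo := mog) (j := (1 : Fin 8)) (k := (3 : Fin 8)) (lo := 0) (hi := 0) (W := 67108864) (N0 := 3) cB012E_q (sideB hx hx') gokB (pinU hx hx') dokB X (by norm_num) (by norm_num) (l := (0 : Fin 8)) rfl
      (gatB10 x) (gatB32 x) (gatB01 x) (datB10 x) (datB32 x) (datB01 x) ?_)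
    (cornS_of (C := cB012E) (C0 := c0B) (j := (1 : Fin 8)) (k := (3 : Fin 8)) (lo := 0) (hi := 0) (W := 67108864) (N0 := 3) cB012E_q (sideB hx hx') gokB X (by norm_num) (by norm_num) (l := (0 : Fin 8)) rfl
      (gatB10 x) (gatB32 x) (gatB01 x) ?_)
    (thU (pinU hx hx')) rfl hκ (fun j q y => tC_eq j q y x) (esg_rng X.x0.le (by linarith [X.b, X.p0])).1 (mo_v x) le_rfl le_rfl
  · intro ρ a B hρ hd i h1 h2
    fin_cases i
    · exact corW_cert (G1 := gB1q0) (G2 := gB3q2) (Ga := gB0q1) (Gb := gB1q1) (D1 := dB1q0) (D2 := dB3q2) (Da := dB0q1) (Db := dB1q1) cB012E_ok B hρ hen (gatB10 x) (gatB32 x) (fun _ => gatB01 x) (fun h => absurd h (by decide)) (datB10 x) (datB32 x) (fun _ => datB01 x) (fun h => absurd h (by decide)) hd hx hx' CW.B012E_130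
    · exact absurd h2 (by norm_num)
    · exact absurd h2 (by norm_num)
    · exact absurd h2 (by norm_num)
    · exact absurd h2 (by norm_num)
    · exact absurd h2 (by norm_num)
    · exact absurd h2 (by norm_num)
  · intro ρ a B hρ hd i h1 h2
    fin_cases i
    · exact corT_cert (G1 := gB1q0) (G2 := gB3q2) (Ga := gB0q1) (Gb := gB1q1) cB012E_ok B hρ (gatB10 x) (gatB32 x) (fun _ => gatB01 x) (fun h => absurd h (by decide)) hd hx hx' CG.B012E_130
    · exact absurd h2 (by norm_num)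
    · exact absurd h2 (by norm_num)
    · exact absurd h2 (by norm_num)
    · exact absurd h2 (by norm_num)
    · exact absurd h2 (by norm_num)
    · exact absurd h2 (by norm_num)

theorem altB_B012E_14 {κ x : ℝ} (hκ : κ * h0 = ken x) (hx : ((587336777 : ℕ) : ℝ) / S ≤ x) (hx' : x ≤ (((587336777 : ℕ) : ℝ) + (62277027 : ℕ)) / S) :
    AltEB 3 κ (eng.v x) (3 / 40) (tnt (h0 * x) (3 / 10)) PP tK tL tC pcB (scP esg pd) [⟨0, 0, 0, 67108864⟩, ⟨1, 1, 0, 67108864⟩, ⟨2, 1, 0, 67108864⟩] 0 1 2 1 4 (sgb true) (sgb true) x := by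
  have X : XR 67108864 x := XR.of hx hx' (by norm_num) (by norm_num) (by norm_num) (by norm_num)
  have hen : 0 < eng.v x := en_pos X.x0.le
  refine CornW.altB (C := cB012E) (j := (1 : Fin 8)) (k := (4 : Fin 8)) (Ef := esg) (pd := pd) (o := 3 / 40)
    (cornW_of (C := cB012E) (C0 := c0B) (En := eng) (mo := mog) (j := (1 : Fin 8)) (k := (4 : Fin 8)) (lo := 0) (hi := 0) (W := 67108864) (N0 := 3) cB012E_q (sideB hx hx') gokB (pinU hx hx') dokB X (by norm_num) (by norm_num) (l := (0 : Fin 8)) rfl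
      (gatB10 x) (gatB42 x) (gatB01 x) (datB10 x) (datB42 x) (datB01 x) ?_)
    (cornS_of (C := cB012E) (C0 := c0B) (j := (1 : Fin 8)) (k := (4 : Fin 8)) (lo := 0) (hi := 0) (W := 67108864) (N0 := 3) cB012E_q (sideB hx hx') gokB X (by norm_num) (by norm_num) (l := (0 : Fin 8)) rfl
      (gatB10 x) (gatB42 x) (gatB01 x) ?_)
    (thU (pinU hx hx')) rfl hκ (fun j q y => tC_eq j q y x) (esg_rng X.x0.le (by linarith [X.b, X.p0])).1 (mo_v x) le_rfl le_rfl
  · intro ρ a B hρ hd i h1 h2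
    fin_cases i
    · exact corW_cert (G1 := gB1q0) (G2 := gB4q2) (Ga := gB0q1) (Gb := gB1q1) (D1 := dB1q0) (D2 := dB4q2) (Da := dB0q1) (Db := dB1q1) cB012E_ok B hρ hen (gatB10 x) (gatB42 x) (fun _ => gatB01 x) (fun h => absurd h (by decide)) (datB10 x) (datB42 x) (fun _ => datB01 x) (fun h => absurd h (by decide)) hd hx hx' CW.B012E_140
    · exact absurd h2 (by norm_num)
    · exact absurd h2 (by norm_num)
    · exact absurd h2 (by norm_num)
    · exact absurd h2 (by norm_num)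
    · exact absurd h2 (by norm_num)
    · exact absurd h2 (by norm_num)
  · intro ρ a B hρ hd i h1 h2
    fin_cases i
    · exact corT_cert (G1 := gB1q0) (G2 := gB4q2) (Ga := gB0q1) (Gb := gB1q1) cB012E_ok B hρ (gatB10 x) (gatB42 x) (fun _ => gatB01 x) (fun h => absurd h (by decide)) hd hx hx' CG.B012E_140
    · exact absurd h2 (by norm_num)
    · exact absurd h2 (by norm_num)
    · exact absurd h2 (by norm_num)
    · exact absurd h2 (by norm_num)
    · exact absurd h2 (by norm_num)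
    · exact absurd h2 (by norm_num)

theorem altB_B012E_20 {κ x : ℝ} (hκ : κ * h0 = ken x) (hx : ((587336777 : ℕ) : ℝ) / S ≤ x) (hx' : x ≤ (((587336777 : ℕ) : ℝ) + (62277027 : ℕ)) / S) :
    AltEB 3 κ (eng.v x) (3 / 40) (tnt (h0 * x) (3 / 10)) PP tK tL tC pcB (scP esg pd) [⟨0, 0, 0, 33554432⟩, ⟨1, 1, 0, 33554432⟩, ⟨2, 1, 0, 33554432⟩] 0 1 2 2 0 (sgb true) (sgb true) x := by
  have X : XR 33554432 x := XR.of hx hx' (by norm_num) (by norm_num) (by norm_num) (by norm_num)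
  have hen : 0 < eng.v x := en_pos X.x0.le
  refine CornW.altB (C := cB012E) (j := (2 : Fin 8)) (k := (0 : Fin 8)) (Ef := esg) (pd := pd) (o := 3 / 40)
    (cornW_of (C := cB012E) (C0 := c0B) (En := eng) (mo := mog) (j := (2 : Fin 8)) (k := (0 : Fin 8)) (lo := 0) (hi := 0) (W := 33554432) (N0 := 3) cB012E_q (sideB hx hx') gokB (pinU hx hx') dokB X (by norm_num) (by norm_num) (l := (0 : Fin 8)) rfl
      (gatB20 x) (gatB02 x) (gatB01 x) (datB20 x) (datB02 x) (datB01 x) ?_)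
    (cornS_of (C := cB012E) (C0 := c0B) (j := (2 : Fin 8)) (k := (0 : Fin 8)) (lo := 0) (hi := 0) (W := 33554432) (N0 := 3) cB012E_q (sideB hx hx') gokB X (by norm_num) (by norm_num) (l := (0 : Fin 8)) rfl
      (gatB20 x) (gatB02 x) (gatB01 x) ?_)
    (thU (pinU hx hx')) rfl hκ (fun j q y => tC_eq j q y x) (esg_rng X.x0.le (by linarith [X.b, X.p0])).1 (mo_v x) le_rfl le_rfl
  · intro ρ a B hρ hd i h1 h2
    fin_cases i
    · exact corW_cert (G1 := gB2q0) (G2 := gB0q2) (Ga := gB0q1) (Gb := gB1q1) (D1 := dB2q0) (D2 := dB0q2) (Da := dB0q1) (Db := dB1q1) cB012E_ok B hρ hen (gatB20 x) (gatB02 x) (fun _ => gatB01 x) (fun h => absurd h (by decide)) (datB20 x) (datB02 x) (fun _ => datB01 x) (fun h => absurd h (by decide)) hd hx hx' CW.B012E_200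
    · exact absurd h2 (by norm_num)
    · exact absurd h2 (by norm_num)
    · exact absurd h2 (by norm_num)
    · exact absurd h2 (by norm_num)
    · exact absurd h2 (by norm_num)
    · exact absurd h2 (by norm_num)
  · intro ρ a B hρ hd i h1 h2
    fin_cases i
    · exact corT_cert (G1 := gB2q0) (G2 := gB0q2) (Ga := gB0q1) (Gb := gB1q1) cB012E_ok B hρ (gatB20 x) (gatB02 x) (fun _ => gatB01 x) (fun h => absurd h (by decide)) hd hx hx' CG.B012E_200
    · exact absurd h2 (by norm_num)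
    · exact absurd h2 (by norm_num)
    · exact absurd h2 (by norm_num)
    · exact absurd h2 (by norm_num)
    · exact absurd h2 (by norm_num)
    · exact absurd h2 (by norm_num)

theorem altB_B012E_21 {κ x : ℝ} (hκ : κ * h0 = ken x) (hx : ((587336777 : ℕ) : ℝ) / S ≤ x) (hx' : x ≤ (((587336777 : ℕ) : ℝ) + (62277027 : ℕ)) / S) :
    AltEB 3 κ (eng.v x) (3 / 40) (tnt (h0 * x) (3 / 10)) PP tK tL tC pcB (scP esg pd) [⟨0, 0, 0, 44739242⟩, ⟨1, 1, 0, 44739242⟩, ⟨2, 1, 0, 44739242⟩] 0 1 2 2 1 (sgb true) (sgb true) x := by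
  have X : XR 44739242 x := XR.of hx hx' (by norm_num) (by norm_num) (by norm_num) (by norm_num)
  have hen : 0 < eng.v x := en_pos X.x0.le
  refine CornW.altB (C := cB012E) (j := (2 : Fin 8)) (k := (1 : Fin 8)) (Ef := esg) (pd := pd) (o := 3 / 40)
    (cornW_of (C := cB012E) (C0 := c0B) (En := eng) (mo := mog) (j := (2 : Fin 8)) (k := (1 : Fin 8)) (lo := 0) (hi := 0) (W := 44739242) (N0 := 3) cB012E_q (sideB hx hx') gokB (pinU hx hx') dokB X (by norm_num) (by norm_num) (l := (0 : Fin 8)) rfl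
      (gatB20 x) (gatB12 x) (gatB01 x) (datB20 x) (datB12 x) (datB01 x) ?_)
    (cornS_of (C := cB012E) (C0 := c0B) (j := (2 : Fin 8)) (k := (1 : Fin 8)) (lo := 0) (hi := 0) (W := 44739242) (N0 := 3) cB012E_q (sideB hx hx') gokB X (by norm_num) (by norm_num) (l := (0 : Fin 8)) rfl
      (gatB20 x) (gatB12 x) (gatB01 x) ?_)
    (thU (pinU hx hx')) rfl hκ (fun j q y => tC_eq j q y x) (esg_rng X.x0.le (by linarith [X.b, X.p0])).1 (mo_v x) le_rfl le_rfl
  · intro ρ a B hρ hd i h1 h2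
    fin_cases i
    · exact corW_cert (G1 := gB2q0) (G2 := gB1q2) (Ga := gB0q1) (Gb := gB1q1) (D1 := dB2q0) (D2 := dB1q2) (Da := dB0q1) (Db := dB1q1) cB012E_ok B hρ hen (gatB20 x) (gatB12 x) (fun _ => gatB01 x) (fun h => absurd h (by decide)) (datB20 x) (datB12 x) (fun _ => datB01 x) (fun h => absurd h (by decide)) hd hx hx' CW.B012E_210
    · exact absurd h2 (by norm_num)
    · exact absurd h2 (by norm_num)
    · exact absurd h2 (by norm_num)
    · exact absurd h2 (by norm_num)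
    · exact absurd h2 (by norm_num)
    · exact absurd h2 (by norm_num)
  · intro ρ a B hρ hd i h1 h2
    fin_cases i
    · exact corT_cert (G1 := gB2q0) (G2 := gB1q2) (Ga := gB0q1) (Gb := gB1q1) cB012E_ok B hρ (gatB20 x) (gatB12 x) (fun _ => gatB01 x) (fun h => absurd h (by decide)) hd hx hx' CG.B012E_210
    · exact absurd h2 (by norm_num)
    · exact absurd h2 (by norm_num)
    · exact absurd h2 (by norm_num)
    · exact absurd h2 (by norm_num)
    · exact absurd h2 (by norm_num)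
    · exact absurd h2 (by norm_num)

theorem altB_B012E_22 {κ x : ℝ} (hκ : κ * h0 = ken x) (hx : ((587336777 : ℕ) : ℝ) / S ≤ x) (hx' : x ≤ (((587336777 : ℕ) : ℝ) + (62277027 : ℕ)) / S) :
    AltEB 3 κ (eng.v x) (3 / 40) (tnt (h0 * x) (3 / 10)) PP tK tL tC pcB (scP esg pd) [⟨0, 0, 0, 53687091⟩, ⟨1, 1, 0, 53687091⟩, ⟨2, 1, 0, 53687091⟩] 0 1 2 2 2 (sgb true) (sgb true) x := by
  have X : XR 53687091 x := XR.of hx hx' (by norm_num) (by norm_num) (by norm_num) (by norm_num)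
  have hen : 0 < eng.v x := en_pos X.x0.le
  refine CornW.altB (C := cB012E) (j := (2 : Fin 8)) (k := (2 : Fin 8)) (Ef := esg) (pd := pd) (o := 3 / 40)
    (cornW_of (C := cB012E) (C0 := c0B) (En := eng) (mo := mog) (j := (2 : Fin 8)) (k := (2 : Fin 8)) (lo := 0) (hi := 0) (W := 53687091) (N0 := 3) cB012E_q (sideB hx hx') gokB (pinU hx hx') dokB X (by norm_num) (by norm_num) (l := (0 : Fin 8)) rfl
      (gatB20 x) (gatB22 x) (gatB01 x) (datB20 x) (datB22 x) (datB01 x) ?_)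
    (cornS_of (C := cB012E) (C0 := c0B) (j := (2 : Fin 8)) (k := (2 : Fin 8)) (lo := 0) (hi := 0) (W := 53687091) (N0 := 3) cB012E_q (sideB hx hx') gokB X (by norm_num) (by norm_num) (l := (0 : Fin 8)) rfl
      (gatB20 x) (gatB22 x) (gatB01 x) ?_)
    (thU (pinU hx hx')) rfl hκ (fun j q y => tC_eq j q y x) (esg_rng X.x0.le (by linarith [X.b, X.p0])).1 (mo_v x) le_rfl le_rfl
  · intro ρ a B hρ hd i h1 h2
    fin_cases i
    · exact corW_cert (G1 := gB2q0) (G2 := gB2q2) (Ga := gB0q1) (Gb := gB1q1) (D1 := dB2q0) (D2 := dB2q2) (Da := dB0q1) (Db := dB1q1) cB012E_ok B hρ hen (gatB20 x) (gatB22 x) (fun _ => gatB01 x) (fun h => absurd h (by decide)) (datB20 x) (datB22 x) (fun _ => datB01 x) (fun h => absurd h (by decide)) hd hx hx' CW.B012E_220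
    · exact absurd h2 (by norm_num)
    · exact absurd h2 (by norm_num)
    · exact absurd h2 (by norm_num)
    · exact absurd h2 (by norm_num)
    · exact absurd h2 (by norm_num)
    · exact absurd h2 (by norm_num)
  · intro ρ a B hρ hd i h1 h2
    fin_cases i
    · exact corT_cert (G1 := gB2q0) (G2 := gB2q2) (Ga := gB0q1) (Gb := gB1q1) cB012E_ok B hρ (gatB20 x) (gatB22 x) (fun _ => gatB01 x) (fun h => absurd h (by decide)) hd hx hx' CG.B012E_220
    · exact absurd h2 (by norm_num)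
    · exact absurd h2 (by norm_num)
    · exact absurd h2 (by norm_num)
    · exact absurd h2 (by norm_num)
    · exact absurd h2 (by norm_num)
    · exact absurd h2 (by norm_num)

theorem altB_B012E_23 {κ x : ℝ} (hκ : κ * h0 = ken x) (hx : ((587336777 : ℕ) : ℝ) / S ≤ x) (hx' : x ≤ (((587336777 : ℕ) : ℝ) + (62277027 : ℕ)) / S) :
    AltEB 3 κ (eng.v x) (3 / 40) (tnt (h0 * x) (3 / 10)) PP tK tL tC pcB (scP esg pd) [⟨0, 0, 0, 53687091⟩, ⟨1, 1, 0, 53687091⟩, ⟨2, 1, 0, 53687091⟩] 0 1 2 2 3 (sgb true) (sgb true) x := by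
  have X : XR 53687091 x := XR.of hx hx' (by norm_num) (by norm_num) (by norm_num) (by norm_num)
  have hen : 0 < eng.v x := en_pos X.x0.le
  refine CornW.altB (C := cB012E) (j := (2 : Fin 8)) (k := (3 : Fin 8)) (Ef := esg) (pd := pd) (o := 3 / 40)
    (cornW_of (C := cB012E) (C0 := c0B) (En := eng) (mo := mog) (j := (2 : Fin 8)) (k := (3 : Fin 8)) (lo := 0) (hi := 0) (W := 53687091) (N0 := 3) cB012E_q (sideB hx hx') gokB (pinU hx hx') dokB X (by norm_num) (by norm_num) (l := (0 : Fin 8)) rfl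
      (gatB20 x) (gatB32 x) (gatB01 x) (datB20 x) (datB32 x) (datB01 x) ?_)
    (cornS_of (C := cB012E) (C0 := c0B) (j := (2 : Fin 8)) (k := (3 : Fin 8)) (lo := 0) (hi := 0) (W := 53687091) (N0 := 3) cB012E_q (sideB hx hx') gokB X (by norm_num) (by norm_num) (l := (0 : Fin 8)) rfl
      (gatB20 x) (gatB32 x) (gatB01 x) ?_)
    (thU (pinU hx hx')) rfl hκ (fun j q y => tC_eq j q y x) (esg_rng X.x0.le (by linarith [X.b, X.p0])).1 (mo_v x) le_rfl le_rfl
  · intro ρ a B hρ hd i h1 h2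
    fin_cases i
    · exact corW_cert (G1 := gB2q0) (G2 := gB3q2) (Ga := gB0q1) (Gb := gB1q1) (D1 := dB2q0) (D2 := dB3q2) (Da := dB0q1) (Db := dB1q1) cB012E_ok B hρ hen (gatB20 x) (gatB32 x) (fun _ => gatB01 x) (fun h => absurd h (by decide)) (datB20 x) (datB32 x) (fun _ => datB01 x) (fun h => absurd h (by decide)) hd hx hx' CW.B012E_230
    · exact absurd h2 (by norm_num)
    · exact absurd h2 (by norm_num)
    · exact absurd h2 (by norm_num)
    · exact absurd h2 (by norm_num)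
    · exact absurd h2 (by norm_num)
    · exact absurd h2 (by norm_num)
  · intro ρ a B hρ hd i h1 h2
    fin_cases i
    · exact corT_cert (G1 := gB2q0) (G2 := gB3q2) (Ga := gB0q1) (Gb := gB1q1) cB012E_ok B hρ (gatB20 x) (gatB32 x) (fun _ => gatB01 x) (fun h => absurd h (by decide)) hd hx hx' CG.B012E_230
    · exact absurd h2 (by norm_num)
    · exact absurd h2 (by norm_num)
    · exact absurd h2 (by norm_num)
    · exact absurd h2 (by norm_num)
    · exact absurd h2 (by norm_num)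
    · exact absurd h2 (by norm_num)

theorem altB_B012E_24 {κ x : ℝ} (hκ : κ * h0 = ken x) (hx : ((587336777 : ℕ) : ℝ) / S ≤ x) (hx' : x ≤ (((587336777 : ℕ) : ℝ) + (62277027 : ℕ)) / S) :
    AltEB 3 κ (eng.v x) (3 / 40) (tnt (h0 * x) (3 / 10)) PP tK tL tC pcB (scP esg pd) [⟨0, 0, 0, 67108864⟩, ⟨1, 1, 0, 67108864⟩, ⟨2, 1, 0, 67108864⟩] 0 1 2 2 4 (sgb true) (sgb true) x := by
  have X : XR 67108864 x := XR.of hx hx' (by norm_num) (by norm_num) (by norm_num) (by norm_num)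
  have hen : 0 < eng.v x := en_pos X.x0.le
  refine CornW.altB (C := cB012E) (j := (2 : Fin 8)) (k := (4 : Fin 8)) (Ef := esg) (pd := pd) (o := 3 / 40)
    (cornW_of (C := cB012E) (C0 := c0B) (En := eng) (mo := mog) (j := (2 : Fin 8)) (k := (4 : Fin 8)) (lo := 0) (hi := 0) (W := 67108864) (N0 := 3) cB012E_q (sideB hx hx') gokB (pinU hx hx') dokB X (by norm_num) (by norm_num) (l := (0 : Fin 8)) rfl
      (gatB20 x) (gatB42 x) (gatB01 x) (datB20 x) (datB42 x) (datB01 x) ?_)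
    (cornS_of (C := cB012E) (C0 := c0B) (j := (2 : Fin 8)) (k := (4 : Fin 8)) (lo := 0) (hi := 0) (W := 67108864) (N0 := 3) cB012E_q (sideB hx hx') gokB X (by norm_num) (by norm_num) (l := (0 : Fin 8)) rfl
      (gatB20 x) (gatB42 x) (gatB01 x) ?_)
    (thU (pinU hx hx')) rfl hκ (fun j q y => tC_eq j q y x) (esg_rng X.x0.le (by linarith [X.b, X.p0])).1 (mo_v x) le_rfl le_rfl
  · intro ρ a B hρ hd i h1 h2
    fin_cases i
    · exact corW_cert (G1 := gB2q0) (G2 := gB4q2) (Ga := gB0q1) (Gb := gB1q1) (D1 := dB2q0) (D2 := dB4q2) (Da := dB0q1) (Db := dB1q1) cB012E_ok B hρ hen (gatB20 x) (gatB42 x) (fun _ => gatB01 x) (fun h => absurd h (by decide)) (datB20 x) (datB42 x) (fun _ => datB01 x) (fun h => absurd h (by decide)) hd hx hx' CW.B012E_240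
    · exact absurd h2 (by norm_num)
    · exact absurd h2 (by norm_num)
    · exact absurd h2 (by norm_num)
    · exact absurd h2 (by norm_num)
    · exact absurd h2 (by norm_num)
    · exact absurd h2 (by norm_num)
  · intro ρ a B hρ hd i h1 h2
    fin_cases i
    · exact corT_cert (G1 := gB2q0) (G2 := gB4q2) (Ga := gB0q1) (Gb := gB1q1) cB012E_ok B hρ (gatB20 x) (gatB42 x) (fun _ => gatB01 x) (fun h => absurd h (by decide)) hd hx hx' CG.B012E_240
    · exact absurd h2 (by norm_num)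
    · exact absurd h2 (by norm_num)
    · exact absurd h2 (by norm_num)
    · exact absurd h2 (by norm_num)
    · exact absurd h2 (by norm_num)
    · exact absurd h2 (by norm_num)

theorem altB_B012E_30 {κ x : ℝ} (hκ : κ * h0 = ken x) (hx : ((587336777 : ℕ) : ℝ) / S ≤ x) (hx' : x ≤ (((587336777 : ℕ) : ℝ) + (62277027 : ℕ)) / S) :
    AltEB 3 κ (eng.v x) (3 / 40) (tnt (h0 * x) (3 / 10)) PP tK tL tC pcB (scP esg pd) [⟨0, 0, 0, 33554432⟩, ⟨1, 1, 0, 33554432⟩, ⟨2, 1, 0, 33554432⟩] 0 1 2 3 0 (sgb true) (sgb true) x := by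
  have X : XR 33554432 x := XR.of hx hx' (by norm_num) (by norm_num) (by norm_num) (by norm_num)
  have hen : 0 < eng.v x := en_pos X.x0.le
  refine CornW.altB (C := cB012E) (j := (3 : Fin 8)) (k := (0 : Fin 8)) (Ef := esg) (pd := pd) (o := 3 / 40)
    (cornW_of (C := cB012E) (C0 := c0B) (En := eng) (mo := mog) (j := (3 : Fin 8)) (k := (0 : Fin 8)) (lo := 0) (hi := 0) (W := 33554432) (N0 := 3) cB012E_q (sideB hx hx') gokB (pinU hx hx') dokB X (by norm_num) (by norm_num) (l := (0 : Fin 8)) rfl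
      (gatB30 x) (gatB02 x) (gatB01 x) (datB30 x) (datB02 x) (datB01 x) ?_)
    (cornS_of (C := cB012E) (C0 := c0B) (j := (3 : Fin 8)) (k := (0 : Fin 8)) (lo := 0) (hi := 0) (W := 33554432) (N0 := 3) cB012E_q (sideB hx hx') gokB X (by norm_num) (by norm_num) (l := (0 : Fin 8)) rfl
      (gatB30 x) (gatB02 x) (gatB01 x) ?_)
    (thU (pinU hx hx')) rfl hκ (fun j q y => tC_eq j q y x) (esg_rng X.x0.le (by linarith [X.b, X.p0])).1 (mo_v x) le_rfl le_rfl
  · intro ρ a B hρ hd i h1 h2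
    fin_cases i
    · exact corW_cert (G1 := gB3q0) (G2 := gB0q2) (Ga := gB0q1) (Gb := gB1q1) (D1 := dB3q0) (D2 := dB0q2) (Da := dB0q1) (Db := dB1q1) cB012E_ok B hρ hen (gatB30 x) (gatB02 x) (fun _ => gatB01 x) (fun h => absurd h (by decide)) (datB30 x) (datB02 x) (fun _ => datB01 x) (fun h => absurd h (by decide)) hd hx hx' CW.B012E_300
    · exact absurd h2 (by norm_num)
    · exact absurd h2 (by norm_num)
    · exact absurd h2 (by norm_num)
    · exact absurd h2 (by norm_num)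
    · exact absurd h2 (by norm_num)
    · exact absurd h2 (by norm_num)
  · intro ρ a B hρ hd i h1 h2
    fin_cases i
    · exact corT_cert (G1 := gB3q0) (G2 := gB0q2) (Ga := gB0q1) (Gb := gB1q1) cB012E_ok B hρ (gatB30 x) (gatB02 x) (fun _ => gatB01 x) (fun h => absurd h (by decide)) hd hx hx' CG.B012E_300
    · exact absurd h2 (by norm_num)
    · exact absurd h2 (by norm_num)
    · exact absurd h2 (by norm_num)
    · exact absurd h2 (by norm_num)
    · exact absurd h2 (by norm_num)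
    · exact absurd h2 (by norm_num)

theorem altB_B012E_31 {κ x : ℝ} (hκ : κ * h0 = ken x) (hx : ((587336777 : ℕ) : ℝ) / S ≤ x) (hx' : x ≤ (((587336777 : ℕ) : ℝ) + (62277027 : ℕ)) / S) :
    AltEB 3 κ (eng.v x) (3 / 40) (tnt (h0 * x) (3 / 10)) PP tK tL tC pcB (scP esg pd) [⟨0, 0, 0, 33554432⟩, ⟨1, 1, 0, 33554432⟩, ⟨2, 1, 0, 33554432⟩] 0 1 2 3 1 (sgb true) (sgb true) x := by
  have X : XR 33554432 x := XR.of hx hx' (by norm_num) (by norm_num) (by norm_num) (by norm_num)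
  have hen : 0 < eng.v x := en_pos X.x0.le
  refine CornW.altB (C := cB012E) (j := (3 : Fin 8)) (k := (1 : Fin 8)) (Ef := esg) (pd := pd) (o := 3 / 40)
    (cornW_of (C := cB012E) (C0 := c0B) (En := eng) (mo := mog) (j := (3 : Fin 8)) (k := (1 : Fin 8)) (lo := 0) (hi := 0) (W := 33554432) (N0 := 3) cB012E_q (sideB hx hx') gokB (pinU hx hx') dokB X (by norm_num) (by norm_num) (l := (0 : Fin 8)) rfl
      (gatB30 x) (gatB12 x) (gatB01 x) (datB30 x) (datB12 x) (datB01 x) ?_)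
    (cornS_of (C := cB012E) (C0 := c0B) (j := (3 : Fin 8)) (k := (1 : Fin 8)) (lo := 0) (hi := 0) (W := 33554432) (N0 := 3) cB012E_q (sideB hx hx') gokB X (by norm_num) (by norm_num) (l := (0 : Fin 8)) rfl
      (gatB30 x) (gatB12 x) (gatB01 x) ?_)
    (thU (pinU hx hx')) rfl hκ (fun j q y => tC_eq j q y x) (esg_rng X.x0.le (by linarith [X.b, X.p0])).1 (mo_v x) le_rfl le_rfl
  · intro ρ a B hρ hd i h1 h2
    fin_cases i
    · exact corW_cert (G1 := gB3q0) (G2 := gB1q2) (Ga := gB0q1) (Gb := gB1q1) (D1 := dB3q0) (D2 := dB1q2) (Da := dB0q1) (Db := dB1q1) cB012E_ok B hρ hen (gatB30 x) (gatB12 x) (fun _ => gatB01 x) (fun h => absurd h (by decide)) (datB30 x) (datB12 x) (fun _ => datB01 x) (fun h => absurd h (by decide)) hd hx hx' CW.B012E_310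
    · exact absurd h2 (by norm_num)
    · exact absurd h2 (by norm_num)
    · exact absurd h2 (by norm_num)
    · exact absurd h2 (by norm_num)
    · exact absurd h2 (by norm_num)
    · exact absurd h2 (by norm_num)
  · intro ρ a B hρ hd i h1 h2
    fin_cases i
    · exact corT_cert (G1 := gB3q0) (G2 := gB1q2) (Ga := gB0q1) (Gb := gB1q1) cB012E_ok B hρ (gatB30 x) (gatB12 x) (fun _ => gatB01 x) (fun h => absurd h (by decide)) hd hx hx' CG.B012E_310
    · exact absurd h2 (by norm_num)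
    · exact absurd h2 (by norm_num)
    · exact absurd h2 (by norm_num)
    · exact absurd h2 (by norm_num)
    · exact absurd h2 (by norm_num)
    · exact absurd h2 (by norm_num)

theorem altB_B012E_32 {κ x : ℝ} (hκ : κ * h0 = ken x) (hx : ((587336777 : ℕ) : ℝ) / S ≤ x) (hx' : x ≤ (((587336777 : ℕ) : ℝ) + (62277027 : ℕ)) / S) :
    AltEB 3 κ (eng.v x) (3 / 40) (tnt (h0 * x) (3 / 10)) PP tK tL tC pcB (scP esg pd) [⟨0, 0, 0, 44739242⟩, ⟨1, 1, 0, 44739242⟩, ⟨2, 1, 0, 44739242⟩] 0 1 2 3 2 (sgb true) (sgb true) x := by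
  have X : XR 44739242 x := XR.of hx hx' (by norm_num) (by norm_num) (by norm_num) (by norm_num)
  have hen : 0 < eng.v x := en_pos X.x0.le
  refine CornW.altB (C := cB012E) (j := (3 : Fin 8)) (k := (2 : Fin 8)) (Ef := esg) (pd := pd) (o := 3 / 40)
    (cornW_of (C := cB012E) (C0 := c0B) (En := eng) (mo := mog) (j := (3 : Fin 8)) (k := (2 : Fin 8)) (lo := 0) (hi := 0) (W := 44739242) (N0 := 3) cB012E_q (sideB hx hx') gokB (pinU hx hx') dokB X (by norm_num) (by norm_num) (l := (0 : Fin 8)) rfl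
      (gatB30 x) (gatB22 x) (gatB01 x) (datB30 x) (datB22 x) (datB01 x) ?_)
    (cornS_of (C := cB012E) (C0 := c0B) (j := (3 : Fin 8)) (k := (2 : Fin 8)) (lo := 0) (hi := 0) (W := 44739242) (N0 := 3) cB012E_q (sideB hx hx') gokB X (by norm_num) (by norm_num) (l := (0 : Fin 8)) rfl
      (gatB30 x) (gatB22 x) (gatB01 x) ?_)
    (thU (pinU hx hx')) rfl hκ (fun j q y => tC_eq j q y x) (esg_rng X.x0.le (by linarith [X.b, X.p0])).1 (mo_v x) le_rfl le_rfl
  · intro ρ a B hρ hd i h1 h2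
    fin_cases i
    · exact corW_cert (G1 := gB3q0) (G2 := gB2q2) (Ga := gB0q1) (Gb := gB1q1) (D1 := dB3q0) (D2 := dB2q2) (Da := dB0q1) (Db := dB1q1) cB012E_ok B hρ hen (gatB30 x) (gatB22 x) (fun _ => gatB01 x) (fun h => absurd h (by decide)) (datB30 x) (datB22 x) (fun _ => datB01 x) (fun h => absurd h (by decide)) hd hx hx' CW.B012E_320
    · exact absurd h2 (by norm_num)
    · exact absurd h2 (by norm_num)
    · exact absurd h2 (by norm_num)
    · exact absurd h2 (by norm_num)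
    · exact absurd h2 (by norm_num)
    · exact absurd h2 (by norm_num)
  · intro ρ a B hρ hd i h1 h2
    fin_cases i
    · exact corT_cert (G1 := gB3q0) (G2 := gB2q2) (Ga := gB0q1) (Gb := gB1q1) cB012E_ok B hρ (gatB30 x) (gatB22 x) (fun _ => gatB01 x) (fun h => absurd h (by decide)) hd hx hx' CG.B012E_320
    · exact absurd h2 (by norm_num)
    · exact absurd h2 (by norm_num)
    · exact absurd h2 (by norm_num)
    · exact absurd h2 (by norm_num)
    · exact absurd h2 (by norm_num)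
    · exact absurd h2 (by norm_num)

theorem altB_B012E_33 {κ x : ℝ} (hκ : κ * h0 = ken x) (hx : ((587336777 : ℕ) : ℝ) / S ≤ x) (hx' : x ≤ (((587336777 : ℕ) : ℝ) + (62277027 : ℕ)) / S) :
    AltEB 3 κ (eng.v x) (3 / 40) (tnt (h0 * x) (3 / 10)) PP tK tL tC pcB (scP esg pd) [⟨0, 0, 0, 53687091⟩, ⟨1, 1, 0, 53687091⟩, ⟨2, 1, 0, 53687091⟩] 0 1 2 3 3 (sgb true) (sgb true) x := by
  have X : XR 53687091 x := XR.of hx hx' (by norm_num) (by norm_num) (by norm_num) (by norm_num)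
  have hen : 0 < eng.v x := en_pos X.x0.le
  refine CornW.altB (C := cB012E) (j := (3 : Fin 8)) (k := (3 : Fin 8)) (Ef := esg) (pd := pd) (o := 3 / 40)
    (cornW_of (C := cB012E) (C0 := c0B) (En := eng) (mo := mog) (j := (3 : Fin 8)) (k := (3 : Fin 8)) (lo := 0) (hi := 0) (W := 53687091) (N0 := 3) cB012E_q (sideB hx hx') gokB (pinU hx hx') dokB X (by norm_num) (by norm_num) (l := (0 : Fin 8)) rfl
      (gatB30 x) (gatB32 x) (gatB01 x) (datB30 x) (datB32 x) (datB01 x) ?_)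
    (cornS_of (C := cB012E) (C0 := c0B) (j := (3 : Fin 8)) (k := (3 : Fin 8)) (lo := 0) (hi := 0) (W := 53687091) (N0 := 3) cB012E_q (sideB hx hx') gokB X (by norm_num) (by norm_num) (l := (0 : Fin 8)) rfl
      (gatB30 x) (gatB32 x) (gatB01 x) ?_)
    (thU (pinU hx hx')) rfl hκ (fun j q y => tC_eq j q y x) (esg_rng X.x0.le (by linarith [X.b, X.p0])).1 (mo_v x) le_rfl le_rfl
  · intro ρ a B hρ hd i h1 h2
    fin_cases i
    · exact corW_cert (G1 := gB3q0) (G2 := gB3q2) (Ga := gB0q1) (Gb := gB1q1) (D1 := dB3q0) (D2 := dB3q2) (Da := dB0q1) (Db := dB1q1) cB012E_ok B hρ hen (gatB30 x) (gatB32 x) (fun _ => gatB01 x) (fun h => absurd h (by decide)) (datB30 x) (datB32 x) (fun _ => datB01 x) (fun h => absurd h (by decide)) hd hx hx' CW.B012E_330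
    · exact absurd h2 (by norm_num)
    · exact absurd h2 (by norm_num)
    · exact absurd h2 (by norm_num)
    · exact absurd h2 (by norm_num)
    · exact absurd h2 (by norm_num)
    · exact absurd h2 (by norm_num)
  · intro ρ a B hρ hd i h1 h2
    fin_cases i
    · exact corT_cert (G1 := gB3q0) (G2 := gB3q2) (Ga := gB0q1) (Gb := gB1q1) cB012E_ok B hρ (gatB30 x) (gatB32 x) (fun _ => gatB01 x) (fun h => absurd h (by decide)) hd hx hx' CG.B012E_330
    · exact absurd h2 (by norm_num)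
    · exact absurd h2 (by norm_num)
    · exact absurd h2 (by norm_num)
    · exact absurd h2 (by norm_num)
    · exact absurd h2 (by norm_num)
    · exact absurd h2 (by norm_num)

theorem altB_B012E_34 {κ x : ℝ} (hκ : κ * h0 = ken x) (hx : ((587336777 : ℕ) : ℝ) / S ≤ x) (hx' : x ≤ (((587336777 : ℕ) : ℝ) + (62277027 : ℕ)) / S) :
    AltEB 3 κ (eng.v x) (3 / 40) (tnt (h0 * x) (3 / 10)) PP tK tL tC pcB (scP esg pd) [⟨0, 0, 0, 67108864⟩, ⟨1, 1, 0, 67108864⟩, ⟨2, 1, 0, 67108864⟩] 0 1 2 3 4 (sgb true) (sgb true) x := by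
  have X : XR 67108864 x := XR.of hx hx' (by norm_num) (by norm_num) (by norm_num) (by norm_num)
  have hen : 0 < eng.v x := en_pos X.x0.le
  refine CornW.altB (C := cB012E) (j := (3 : Fin 8)) (k := (4 : Fin 8)) (Ef := esg) (pd := pd) (o := 3 / 40)
    (cornW_of (C := cB012E) (C0 := c0B) (En := eng) (mo := mog) (j := (3 : Fin 8)) (k := (4 : Fin 8)) (lo := 0) (hi := 0) (W := 67108864) (N0 := 3) cB012E_q (sideB hx hx') gokB (pinU hx hx') dokB X (by norm_num) (by norm_num) (l := (0 : Fin 8)) rfl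
      (gatB30 x) (gatB42 x) (gatB01 x) (datB30 x) (datB42 x) (datB01 x) ?_)
    (cornS_of (C := cB012E) (C0 := c0B) (j := (3 : Fin 8)) (k := (4 : Fin 8)) (lo := 0) (hi := 0) (W := 67108864) (N0 := 3) cB012E_q (sideB hx hx') gokB X (by norm_num) (by norm_num) (l := (0 : Fin 8)) rfl
      (gatB30 x) (gatB42 x) (gatB01 x) ?_)
    (thU (pinU hx hx')) rfl hκ (fun j q y => tC_eq j q y x) (esg_rng X.x0.le (by linarith [X.b, X.p0])).1 (mo_v x) le_rfl le_rfl
  · intro ρ a B hρ hd i h1 h2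
    fin_cases i
    · exact corW_cert (G1 := gB3q0) (G2 := gB4q2) (Ga := gB0q1) (Gb := gB1q1) (D1 := dB3q0) (D2 := dB4q2) (Da := dB0q1) (Db := dB1q1) cB012E_ok B hρ hen (gatB30 x) (gatB42 x) (fun _ => gatB01 x) (fun h => absurd h (by decide)) (datB30 x) (datB42 x) (fun _ => datB01 x) (fun h => absurd h (by decide)) hd hx hx' CW.B012E_340
    · exact absurd h2 (by norm_num)
    · exact absurd h2 (by norm_num)
    · exact absurd h2 (by norm_num)
    · exact absurd h2 (by norm_num)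
    · exact absurd h2 (by norm_num)
    · exact absurd h2 (by norm_num)
  · intro ρ a B hρ hd i h1 h2
    fin_cases i
    · exact corT_cert (G1 := gB3q0) (G2 := gB4q2) (Ga := gB0q1) (Gb := gB1q1) cB012E_ok B hρ (gatB30 x) (gatB42 x) (fun _ => gatB01 x) (fun h => absurd h (by decide)) hd hx hx' CG.B012E_340
    · exact absurd h2 (by norm_num)
    · exact absurd h2 (by norm_num)
    · exact absurd h2 (by norm_num)
    · exact absurd h2 (by norm_num)
    · exact absurd h2 (by norm_num)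
    · exact absurd h2 (by norm_num)

theorem altB_B012E_40 {κ x : ℝ} (hκ : κ * h0 = ken x) (hx : ((587336777 : ℕ) : ℝ) / S ≤ x) (hx' : x ≤ (((587336777 : ℕ) : ℝ) + (62277027 : ℕ)) / S) :
    AltEB 3 κ (eng.v x) (3 / 40) (tnt (h0 * x) (3 / 10)) PP tK tL tC pcB (scP esg pd) [⟨0, 0, 0, 26843545⟩, ⟨1, 1, 0, 26843545⟩, ⟨2, 1, 0, 26843545⟩] 0 1 2 4 0 (sgb true) (sgb true) x := by
  have X : XR 26843545 x := XR.of hx hx' (by norm_num) (by norm_num) (by norm_num) (by norm_num)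
  have hen : 0 < eng.v x := en_pos X.x0.le
  refine CornW.altB (C := cB012E) (j := (4 : Fin 8)) (k := (0 : Fin 8)) (Ef := esg) (pd := pd) (o := 3 / 40)
    (cornW_of (C := cB012E) (C0 := c0B) (En := eng) (mo := mog) (j := (4 : Fin 8)) (k := (0 : Fin 8)) (lo := 0) (hi := 0) (W := 26843545) (N0 := 3) cB012E_q (sideB hx hx') gokB (pinU hx hx') dokB X (by norm_num) (by norm_num) (l := (0 : Fin 8)) rfl
      (gatB40 x) (gatB02 x) (gatB01 x) (datB40 x) (datB02 x) (datB01 x) ?_)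
    (cornS_of (C := cB012E) (C0 := c0B) (j := (4 : Fin 8)) (k := (0 : Fin 8)) (lo := 0) (hi := 0) (W := 26843545) (N0 := 3) cB012E_q (sideB hx hx') gokB X (by norm_num) (by norm_num) (l := (0 : Fin 8)) rfl
      (gatB40 x) (gatB02 x) (gatB01 x) ?_)
    (thU (pinU hx hx')) rfl hκ (fun j q y => tC_eq j q y x) (esg_rng X.x0.le (by linarith [X.b, X.p0])).1 (mo_v x) le_rfl le_rfl
  · intro ρ a B hρ hd i h1 h2
    fin_cases i
    · exact corW_cert (G1 := gB4q0) (G2 := gB0q2) (Ga := gB0q1) (Gb := gB1q1) (D1 := dB4q0) (D2 := dB0q2) (Da := dB0q1) (Db := dB1q1) cB012E_ok B hρ hen (gatB40 x) (gatB02 x) (fun _ => gatB01 x) (fun h => absurd h (by decide)) (datB40 x) (datB02 x) (fun _ => datB01 x) (fun h => absurd h (by decide)) hd hx hx' CW.B012E_400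
    · exact absurd h2 (by norm_num)
    · exact absurd h2 (by norm_num)
    · exact absurd h2 (by norm_num)
    · exact absurd h2 (by norm_num)
    · exact absurd h2 (by norm_num)
    · exact absurd h2 (by norm_num)
  · intro ρ a B hρ hd i h1 h2
    fin_cases i
    · exact corT_cert (G1 := gB4q0) (G2 := gB0q2) (Ga := gB0q1) (Gb := gB1q1) cB012E_ok B hρ (gatB40 x) (gatB02 x) (fun _ => gatB01 x) (fun h => absurd h (by decide)) hd hx hx' CG.B012E_400
    · exact absurd h2 (by norm_num)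
    · exact absurd h2 (by norm_num)
    · exact absurd h2 (by norm_num)
    · exact absurd h2 (by norm_num)
    · exact absurd h2 (by norm_num)
    · exact absurd h2 (by norm_num)

theorem altB_B012E_41 {κ x : ℝ} (hκ : κ * h0 = ken x) (hx : ((587336777 : ℕ) : ℝ) / S ≤ x) (hx' : x ≤ (((587336777 : ℕ) : ℝ) + (62277027 : ℕ)) / S) :
    AltEB 3 κ (eng.v x) (3 / 40) (tnt (h0 * x) (3 / 10)) PP tK tL tC pcB (scP esg pd) [⟨0, 0, 0, 26843545⟩, ⟨1, 1, 0, 26843545⟩, ⟨2, 1, 0, 26843545⟩] 0 1 2 4 1 (sgb true) (sgb true) x := by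
  have X : XR 26843545 x := XR.of hx hx' (by norm_num) (by norm_num) (by norm_num) (by norm_num)
  have hen : 0 < eng.v x := en_pos X.x0.le
  refine CornW.altB (C := cB012E) (j := (4 : Fin 8)) (k := (1 : Fin 8)) (Ef := esg) (pd := pd) (o := 3 / 40)
    (cornW_of (C := cB012E) (C0 := c0B) (En := eng) (mo := mog) (j := (4 : Fin 8)) (k := (1 : Fin 8)) (lo := 0) (hi := 0) (W := 26843545) (N0 := 3) cB012E_q (sideB hx hx') gokB (pinU hx hx') dokB X (by norm_num) (by norm_num) (l := (0 : Fin 8)) rfl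
      (gatB40 x) (gatB12 x) (gatB01 x) (datB40 x) (datB12 x) (datB01 x) ?_)
    (cornS_of (C := cB012E) (C0 := c0B) (j := (4 : Fin 8)) (k := (1 : Fin 8)) (lo := 0) (hi := 0) (W := 26843545) (N0 := 3) cB012E_q (sideB hx hx') gokB X (by norm_num) (by norm_num) (l := (0 : Fin 8)) rfl
      (gatB40 x) (gatB12 x) (gatB01 x) ?_)
    (thU (pinU hx hx')) rfl hκ (fun j q y => tC_eq j q y x) (esg_rng X.x0.le (by linarith [X.b, X.p0])).1 (mo_v x) le_rfl le_rfl
  · intro ρ a B hρ hd i h1 h2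
    fin_cases i
    · exact corW_cert (G1 := gB4q0) (G2 := gB1q2) (Ga := gB0q1) (Gb := gB1q1) (D1 := dB4q0) (D2 := dB1q2) (Da := dB0q1) (Db := dB1q1) cB012E_ok B hρ hen (gatB40 x) (gatB12 x) (fun _ => gatB01 x) (fun h => absurd h (by decide)) (datB40 x) (datB12 x) (fun _ => datB01 x) (fun h => absurd h (by decide)) hd hx hx' CW.B012E_410
    · exact absurd h2 (by norm_num)
    · exact absurd h2 (by norm_num)
    · exact absurd h2 (by norm_num)
    · exact absurd h2 (by norm_num)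
    · exact absurd h2 (by norm_num)
    · exact absurd h2 (by norm_num)
  · intro ρ a B hρ hd i h1 h2
    fin_cases i
    · exact corT_cert (G1 := gB4q0) (G2 := gB1q2) (Ga := gB0q1) (Gb := gB1q1) cB012E_ok B hρ (gatB40 x) (gatB12 x) (fun _ => gatB01 x) (fun h => absurd h (by decide)) hd hx hx' CG.B012E_410
    · exact absurd h2 (by norm_num)
    · exact absurd h2 (by norm_num)
    · exact absurd h2 (by norm_num)
    · exact absurd h2 (by norm_num)
    · exact absurd h2 (by norm_num)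
    · exact absurd h2 (by norm_num)

theorem altB_B012E_42 {κ x : ℝ} (hκ : κ * h0 = ken x) (hx : ((587336777 : ℕ) : ℝ) / S ≤ x) (hx' : x ≤ (((587336777 : ℕ) : ℝ) + (62277027 : ℕ)) / S) :
    AltEB 3 κ (eng.v x) (3 / 40) (tnt (h0 * x) (3 / 10)) PP tK tL tC pcB (scP esg pd) [⟨0, 0, 0, 33554432⟩, ⟨1, 1, 0, 33554432⟩, ⟨2, 1, 0, 33554432⟩] 0 1 2 4 2 (sgb true) (sgb true) x := by
  have X : XR 33554432 x := XR.of hx hx' (by norm_num) (by norm_num) (by norm_num) (by norm_num)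
  have hen : 0 < eng.v x := en_pos X.x0.le
  refine CornW.altB (C := cB012E) (j := (4 : Fin 8)) (k := (2 : Fin 8)) (Ef := esg) (pd := pd) (o := 3 / 40)
    (cornW_of (C := cB012E) (C0 := c0B) (En := eng) (mo := mog) (j := (4 : Fin 8)) (k := (2 : Fin 8)) (lo := 0) (hi := 0) (W := 33554432) (N0 := 3) cB012E_q (sideB hx hx') gokB (pinU hx hx') dokB X (by norm_num) (by norm_num) (l := (0 : Fin 8)) rfl
      (gatB40 x) (gatB22 x) (gatB01 x) (datB40 x) (datB22 x) (datB01 x) ?_)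
    (cornS_of (C := cB012E) (C0 := c0B) (j := (4 : Fin 8)) (k := (2 : Fin 8)) (lo := 0) (hi := 0) (W := 33554432) (N0 := 3) cB012E_q (sideB hx hx') gokB X (by norm_num) (by norm_num) (l := (0 : Fin 8)) rfl
      (gatB40 x) (gatB22 x) (gatB01 x) ?_)
    (thU (pinU hx hx')) rfl hκ (fun j q y => tC_eq j q y x) (esg_rng X.x0.le (by linarith [X.b, X.p0])).1 (mo_v x) le_rfl le_rfl
  · intro ρ a B hρ hd i h1 h2
    fin_cases i
    · exact corW_cert (G1 := gB4q0) (G2 := gB2q2) (Ga := gB0q1) (Gb := gB1q1) (D1 := dB4q0) (D2 := dB2q2) (Da := dB0q1) (Db := dB1q1) cB012E_ok B hρ hen (gatB40 x) (gatB22 x) (fun _ => gatB01 x) (fun h => absurd h (by decide)) (datB40 x) (datB22 x) (fun _ => datB01 x) (fun h => absurd h (by decide)) hd hx hx' CW.B012E_420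
    · exact absurd h2 (by norm_num)
    · exact absurd h2 (by norm_num)
    · exact absurd h2 (by norm_num)
    · exact absurd h2 (by norm_num)
    · exact absurd h2 (by norm_num)
    · exact absurd h2 (by norm_num)
  · intro ρ a B hρ hd i h1 h2
    fin_cases i
    · exact corT_cert (G1 := gB4q0) (G2 := gB2q2) (Ga := gB0q1) (Gb := gB1q1) cB012E_ok B hρ (gatB40 x) (gatB22 x) (fun _ => gatB01 x) (fun h => absurd h (by decide)) hd hx hx' CG.B012E_420
    · exact absurd h2 (by norm_num)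
    · exact absurd h2 (by norm_num)
    · exact absurd h2 (by norm_num)
    · exact absurd h2 (by norm_num)
    · exact absurd h2 (by norm_num)
    · exact absurd h2 (by norm_num)

theorem altB_B012E_43 {κ x : ℝ} (hκ : κ * h0 = ken x) (hx : ((587336777 : ℕ) : ℝ) / S ≤ x) (hx' : x ≤ (((587336777 : ℕ) : ℝ) + (62277027 : ℕ)) / S) :
    AltEB 3 κ (eng.v x) (3 / 40) (tnt (h0 * x) (3 / 10)) PP tK tL tC pcB (scP esg pd) [⟨0, 0, 0, 33554432⟩, ⟨1, 1, 0, 33554432⟩, ⟨2, 1, 0, 33554432⟩] 0 1 2 4 3 (sgb true) (sgb true) x := by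
  have X : XR 33554432 x := XR.of hx hx' (by norm_num) (by norm_num) (by norm_num) (by norm_num)
  have hen : 0 < eng.v x := en_pos X.x0.le
  refine CornW.altB (C := cB012E) (j := (4 : Fin 8)) (k := (3 : Fin 8)) (Ef := esg) (pd := pd) (o := 3 / 40)
    (cornW_of (C := cB012E) (C0 := c0B) (En := eng) (mo := mog) (j := (4 : Fin 8)) (k := (3 : Fin 8)) (lo := 0) (hi := 0) (W := 33554432) (N0 := 3) cB012E_q (sideB hx hx') gokB (pinU hx hx') dokB X (by norm_num) (by norm_num) (l := (0 : Fin 8)) rfl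
      (gatB40 x) (gatB32 x) (gatB01 x) (datB40 x) (datB32 x) (datB01 x) ?_)
    (cornS_of (C := cB012E) (C0 := c0B) (j := (4 : Fin 8)) (k := (3 : Fin 8)) (lo := 0) (hi := 0) (W := 33554432) (N0 := 3) cB012E_q (sideB hx hx') gokB X (by norm_num) (by norm_num) (l := (0 : Fin 8)) rfl
      (gatB40 x) (gatB32 x) (gatB01 x) ?_)
    (thU (pinU hx hx')) rfl hκ (fun j q y => tC_eq j q y x) (esg_rng X.x0.le (by linarith [X.b, X.p0])).1 (mo_v x) le_rfl le_rfl
  · intro ρ a B hρ hd i h1 h2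
    fin_cases i
    · exact corW_cert (G1 := gB4q0) (G2 := gB3q2) (Ga := gB0q1) (Gb := gB1q1) (D1 := dB4q0) (D2 := dB3q2) (Da := dB0q1) (Db := dB1q1) cB012E_ok B hρ hen (gatB40 x) (gatB32 x) (fun _ => gatB01 x) (fun h => absurd h (by decide)) (datB40 x) (datB32 x) (fun _ => datB01 x) (fun h => absurd h (by decide)) hd hx hx' CW.B012E_430
    · exact absurd h2 (by norm_num)
    · exact absurd h2 (by norm_num)
    · exact absurd h2 (by norm_num)
    · exact absurd h2 (by norm_num)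
    · exact absurd h2 (by norm_num)
    · exact absurd h2 (by norm_num)
  · intro ρ a B hρ hd i h1 h2
    fin_cases i
    · exact corT_cert (G1 := gB4q0) (G2 := gB3q2) (Ga := gB0q1) (Gb := gB1q1) cB012E_ok B hρ (gatB40 x) (gatB32 x) (fun _ => gatB01 x) (fun h => absurd h (by decide)) hd hx hx' CG.B012E_430
    · exact absurd h2 (by norm_num)
    · exact absurd h2 (by norm_num)
    · exact absurd h2 (by norm_num)
    · exact absurd h2 (by norm_num)
    · exact absurd h2 (by norm_num)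
    · exact absurd h2 (by norm_num)

theorem altB_B012E_44 {κ x : ℝ} (hκ : κ * h0 = ken x) (hx : ((587336777 : ℕ) : ℝ) / S ≤ x) (hx' : x ≤ (((587336777 : ℕ) : ℝ) + (62277027 : ℕ)) / S) :
    AltEB 3 κ (eng.v x) (3 / 40) (tnt (h0 * x) (3 / 10)) PP tK tL tC pcB (scP esg pd) [⟨0, 0, 0, 53687091⟩, ⟨1, 1, 0, 53687091⟩, ⟨2, 1, 0, 53687091⟩] 0 1 2 4 4 (sgb true) (sgb true) x := by
  have X : XR 53687091 x := XR.of hx hx' (by norm_num) (by norm_num) (by norm_num) (by norm_num)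
  have hen : 0 < eng.v x := en_pos X.x0.le
  refine CornW.altB (C := cB012E) (j := (4 : Fin 8)) (k := (4 : Fin 8)) (Ef := esg) (pd := pd) (o := 3 / 40)
    (cornW_of (C := cB012E) (C0 := c0B) (En := eng) (mo := mog) (j := (4 : Fin 8)) (k := (4 : Fin 8)) (lo := 0) (hi := 0) (W := 53687091) (N0 := 3) cB012E_q (sideB hx hx') gokB (pinU hx hx') dokB X (by norm_num) (by norm_num) (l := (0 : Fin 8)) rfl
      (gatB40 x) (gatB42 x) (gatB01 x) (datB40 x) (datB42 x) (datB01 x) ?_)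
    (cornS_of (C := cB012E) (C0 := c0B) (j := (4 : Fin 8)) (k := (4 : Fin 8)) (lo := 0) (hi := 0) (W := 53687091) (N0 := 3) cB012E_q (sideB hx hx') gokB X (by norm_num) (by norm_num) (l := (0 : Fin 8)) rfl
      (gatB40 x) (gatB42 x) (gatB01 x) ?_)
    (thU (pinU hx hx')) rfl hκ (fun j q y => tC_eq j q y x) (esg_rng X.x0.le (by linarith [X.b, X.p0])).1 (mo_v x) le_rfl le_rfl
  · intro ρ a B hρ hd i h1 h2
    fin_cases i
    · exact corW_cert (G1 := gB4q0) (G2 := gB4q2) (Ga := gB0q1) (Gb := gB1q1) (D1 := dB4q0) (D2 := dB4q2) (Da := dB0q1) (Db := dB1q1) cB012E_ok B hρ hen (gatB40 x) (gatB42 x) (fun _ => gatB01 x) (fun h => absurd h (by decide)) (datB40 x) (datB42 x) (fun _ => datB01 x) (fun h => absurd h (by decide)) hd hx hx' CW.B012E_440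
    · exact absurd h2 (by norm_num)
    · exact absurd h2 (by norm_num)
    · exact absurd h2 (by norm_num)
    · exact absurd h2 (by norm_num)
    · exact absurd h2 (by norm_num)
    · exact absurd h2 (by norm_num)
  · intro ρ a B hρ hd i h1 h2
    fin_cases i
    · exact corT_cert (G1 := gB4q0) (G2 := gB4q2) (Ga := gB0q1) (Gb := gB1q1) cB012E_ok B hρ (gatB40 x) (gatB42 x) (fun _ => gatB01 x) (fun h => absurd h (by decide)) hd hx hx' CG.B012E_440
    · exact absurd h2 (by norm_num)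
    · exact absurd h2 (by norm_num)
    · exact absurd h2 (by norm_num)
    · exact absurd h2 (by norm_num)
    · exact absurd h2 (by norm_num)
    · exact absurd h2 (by norm_num)

theorem altB_B012L_07 {κ x : ℝ} (hκ : κ * h0 = ken x) (hx : ((587336777 : ℕ) : ℝ) / S ≤ x) (hx' : x ≤ (((587336777 : ℕ) : ℝ) + (62277027 : ℕ)) / S) :
    AltEB 3 κ (eng.v x) (3 / 40) (tnt (h0 * x) (3 / 10)) PP tK tL tC pcB (scP esg pd) [⟨0, 0, 0, 67108864⟩, ⟨1, 1, 0, 67108864⟩, ⟨2, 1, 0, 67108864⟩] 0 1 2 0 7 (sgb true) (sgb true) x := by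
  have X : XR 67108864 x := XR.of hx hx' (by norm_num) (by norm_num) (by norm_num) (by norm_num)
  have hen : 0 < eng.v x := en_pos X.x0.le
  refine CornW.altB (C := cB012L) (j := (0 : Fin 8)) (k := (7 : Fin 8)) (Ef := esg) (pd := pd) (o := 3 / 40)
    (cornW_of (C := cB012L) (C0 := c0B) (En := eng) (mo := mog) (j := (0 : Fin 8)) (k := (7 : Fin 8)) (lo := 0) (hi := 0) (W := 67108864) (N0 := 3) cB012L_q (sideB hx hx') gokB (pinU hx hx') dokB X (by norm_num) (by norm_num) (l := (0 : Fin 8)) rfl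
      (gatB00 x) (gatB72 x) (gatB01 x) (datB00 x) (datB72 x) (datB01 x) ?_)
    (cornS_of (C := cB012L) (C0 := c0B) (j := (0 : Fin 8)) (k := (7 : Fin 8)) (lo := 0) (hi := 0) (W := 67108864) (N0 := 3) cB012L_q (sideB hx hx') gokB X (by norm_num) (by norm_num) (l := (0 : Fin 8)) rfl
      (gatB00 x) (gatB72 x) (gatB01 x) ?_)
    (thU (pinU hx hx')) rfl hκ (fun j q y => tC_eq j q y x) (esg_rng X.x0.le (by linarith [X.b, X.p0])).1 (mo_v x) le_rfl le_rfl
  · intro ρ a B hρ hd i h1 h2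
    fin_cases i
    · exact corW_cert (G1 := gB0q0) (G2 := gB7q2) (Ga := gB0q1) (Gb := gB1q1) (D1 := dB0q0) (D2 := dB7q2) (Da := dB0q1) (Db := dB1q1) cB012L_ok B hρ hen (gatB00 x) (gatB72 x) (fun _ => gatB01 x) (fun h => absurd h (by decide)) (datB00 x) (datB72 x) (fun _ => datB01 x) (fun h => absurd h (by decide)) hd hx hx' CW.B012L_070
    · exact absurd h2 (by norm_num)
    · exact absurd h2 (by norm_num)
    · exact absurd h2 (by norm_num)
    · exact absurd h2 (by norm_num)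
    · exact absurd h2 (by norm_num)
    · exact absurd h2 (by norm_num)
  · intro ρ a B hρ hd i h1 h2
    fin_cases i
    · exact corT_cert (G1 := gB0q0) (G2 := gB7q2) (Ga := gB0q1) (Gb := gB1q1) cB012L_ok B hρ (gatB00 x) (gatB72 x) (fun _ => gatB01 x) (fun h => absurd h (by decide)) hd hx hx' CG.B012L_070
    · exact absurd h2 (by norm_num)
    · exact absurd h2 (by norm_num)
    · exact absurd h2 (by norm_num)
    · exact absurd h2 (by norm_num)
    · exact absurd h2 (by norm_num)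
    · exact absurd h2 (by norm_num)

theorem altB_B012L_17 {κ x : ℝ} (hκ : κ * h0 = ken x) (hx : ((587336777 : ℕ) : ℝ) / S ≤ x) (hx' : x ≤ (((587336777 : ℕ) : ℝ) + (62277027 : ℕ)) / S) :
    AltEB 3 κ (eng.v x) (3 / 40) (tnt (h0 * x) (3 / 10)) PP tK tL tC pcB (scP esg pd) [⟨0, 0, 0, 67108864⟩, ⟨1, 1, 0, 67108864⟩, ⟨2, 1, 0, 67108864⟩] 0 1 2 1 7 (sgb true) (sgb true) x := by
  have X : XR 67108864 x := XR.of hx hx' (by norm_num) (by norm_num) (by norm_num) (by norm_num)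
  have hen : 0 < eng.v x := en_pos X.x0.le
  refine CornW.altB (C := cB012L) (j := (1 : Fin 8)) (k := (7 : Fin 8)) (Ef := esg) (pd := pd) (o := 3 / 40)
    (cornW_of (C := cB012L) (C0 := c0B) (En := eng) (mo := mog) (j := (1 : Fin 8)) (k := (7 : Fin 8)) (lo := 0) (hi := 0) (W := 67108864) (N0 := 3) cB012L_q (sideB hx hx') gokB (pinU hx hx') dokB X (by norm_num) (by norm_num) (l := (0 : Fin 8)) rfl
      (gatB10 x) (gatB72 x) (gatB01 x) (datB10 x) (datB72 x) (datB01 x) ?_)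
    (cornS_of (C := cB012L) (C0 := c0B) (j := (1 : Fin 8)) (k := (7 : Fin 8)) (lo := 0) (hi := 0) (W := 67108864) (N0 := 3) cB012L_q (sideB hx hx') gokB X (by norm_num) (by norm_num) (l := (0 : Fin 8)) rfl
      (gatB10 x) (gatB72 x) (gatB01 x) ?_)
    (thU (pinU hx hx')) rfl hκ (fun j q y => tC_eq j q y x) (esg_rng X.x0.le (by linarith [X.b, X.p0])).1 (mo_v x) le_rfl le_rfl
  · intro ρ a B hρ hd i h1 h2
    fin_cases i
    · exact corW_cert (G1 := gB1q0) (G2 := gB7q2) (Ga := gB0q1) (Gb := gB1q1) (D1 := dB1q0) (D2 := dB7q2) (Da := dB0q1) (Db := dB1q1) cB012L_ok B hρ hen (gatB10 x) (gatB72 x) (fun _ => gatB01 x) (fun h => absurd h (by decide)) (datB10 x) (datB72 x) (fun _ => datB01 x) (fun h => absurd h (by decide)) hd hx hx' CW.B012L_170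
    · exact absurd h2 (by norm_num)
    · exact absurd h2 (by norm_num)
    · exact absurd h2 (by norm_num)
    · exact absurd h2 (by norm_num)
    · exact absurd h2 (by norm_num)
    · exact absurd h2 (by norm_num)
  · intro ρ a B hρ hd i h1 h2
    fin_cases i
    · exact corT_cert (G1 := gB1q0) (G2 := gB7q2) (Ga := gB0q1) (Gb := gB1q1) cB012L_ok B hρ (gatB10 x) (gatB72 x) (fun _ => gatB01 x) (fun h => absurd h (by decide)) hd hx hx' CG.B012L_170
    · exact absurd h2 (by norm_num)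
    · exact absurd h2 (by norm_num)
    · exact absurd h2 (by norm_num)
    · exact absurd h2 (by norm_num)
    · exact absurd h2 (by norm_num)
    · exact absurd h2 (by norm_num)

theorem altB_B012L_27 {κ x : ℝ} (hκ : κ * h0 = ken x) (hx : ((587336777 : ℕ) : ℝ) / S ≤ x) (hx' : x ≤ (((587336777 : ℕ) : ℝ) + (62277027 : ℕ)) / S) :
    AltEB 3 κ (eng.v x) (3 / 40) (tnt (h0 * x) (3 / 10)) PP tK tL tC pcB (scP esg pd) [⟨0, 0, 0, 67108864⟩, ⟨1, 1, 0, 67108864⟩, ⟨2, 1, 0, 67108864⟩] 0 1 2 2 7 (sgb true) (sgb true) x := by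
  have X : XR 67108864 x := XR.of hx hx' (by norm_num) (by norm_num) (by norm_num) (by norm_num)
  have hen : 0 < eng.v x := en_pos X.x0.le
  refine CornW.altB (C := cB012L) (j := (2 : Fin 8)) (k := (7 : Fin 8)) (Ef := esg) (pd := pd) (o := 3 / 40)
    (cornW_of (C := cB012L) (C0 := c0B) (En := eng) (mo := mog) (j := (2 : Fin 8)) (k := (7 : Fin 8)) (lo := 0) (hi := 0) (W := 67108864) (N0 := 3) cB012L_q (sideB hx hx') gokB (pinU hx hx') dokB X (by norm_num) (by norm_num) (l := (0 : Fin 8)) rfl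
      (gatB20 x) (gatB72 x) (gatB01 x) (datB20 x) (datB72 x) (datB01 x) ?_)
    (cornS_of (C := cB012L) (C0 := c0B) (j := (2 : Fin 8)) (k := (7 : Fin 8)) (lo := 0) (hi := 0) (W := 67108864) (N0 := 3) cB012L_q (sideB hx hx') gokB X (by norm_num) (by norm_num) (l := (0 : Fin 8)) rfl
      (gatB20 x) (gatB72 x) (gatB01 x) ?_)
    (thU (pinU hx hx')) rfl hκ (fun j q y => tC_eq j q y x) (esg_rng X.x0.le (by linarith [X.b, X.p0])).1 (mo_v x) le_rfl le_rfl
  · intro ρ a B hρ hd i h1 h2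
    fin_cases i
    · exact corW_cert (G1 := gB2q0) (G2 := gB7q2) (Ga := gB0q1) (Gb := gB1q1) (D1 := dB2q0) (D2 := dB7q2) (Da := dB0q1) (Db := dB1q1) cB012L_ok B hρ hen (gatB20 x) (gatB72 x) (fun _ => gatB01 x) (fun h => absurd h (by decide)) (datB20 x) (datB72 x) (fun _ => datB01 x) (fun h => absurd h (by decide)) hd hx hx' CW.B012L_270
    · exact absurd h2 (by norm_num)
    · exact absurd h2 (by norm_num)
    · exact absurd h2 (by norm_num)
    · exact absurd h2 (by norm_num)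
    · exact absurd h2 (by norm_num)
    · exact absurd h2 (by norm_num)
  · intro ρ a B hρ hd i h1 h2
    fin_cases i
    · exact corT_cert (G1 := gB2q0) (G2 := gB7q2) (Ga := gB0q1) (Gb := gB1q1) cB012L_ok B hρ (gatB20 x) (gatB72 x) (fun _ => gatB01 x) (fun h => absurd h (by decide)) hd hx hx' CG.B012L_270
    · exact absurd h2 (by norm_num)
    · exact absurd h2 (by norm_num)
    · exact absurd h2 (by norm_num)
    · exact absurd h2 (by norm_num)
    · exact absurd h2 (by norm_num)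
    · exact absurd h2 (by norm_num)

theorem altB_B012L_37 {κ x : ℝ} (hκ : κ * h0 = ken x) (hx : ((587336777 : ℕ) : ℝ) / S ≤ x) (hx' : x ≤ (((587336777 : ℕ) : ℝ) + (62277027 : ℕ)) / S) :
    AltEB 3 κ (eng.v x) (3 / 40) (tnt (h0 * x) (3 / 10)) PP tK tL tC pcB (scP esg pd) [⟨0, 0, 0, 67108864⟩, ⟨1, 1, 0, 67108864⟩, ⟨2, 1, 0, 67108864⟩] 0 1 2 3 7 (sgb true) (sgb true) x := by
  have X : XR 67108864 x := XR.of hx hx' (by norm_num) (by norm_num) (by norm_num) (by norm_num)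
  have hen : 0 < eng.v x := en_pos X.x0.le
  refine CornW.altB (C := cB012L) (j := (3 : Fin 8)) (k := (7 : Fin 8)) (Ef := esg) (pd := pd) (o := 3 / 40)
    (cornW_of (C := cB012L) (C0 := c0B) (En := eng) (mo := mog) (j := (3 : Fin 8)) (k := (7 : Fin 8)) (lo := 0) (hi := 0) (W := 67108864) (N0 := 3) cB012L_q (sideB hx hx') gokB (pinU hx hx') dokB X (by norm_num) (by norm_num) (l := (0 : Fin 8)) rfl
      (gatB30 x) (gatB72 x) (gatB01 x) (datB30 x) (datB72 x) (datB01 x) ?_)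
    (cornS_of (C := cB012L) (C0 := c0B) (j := (3 : Fin 8)) (k := (7 : Fin 8)) (lo := 0) (hi := 0) (W := 67108864) (N0 := 3) cB012L_q (sideB hx hx') gokB X (by norm_num) (by norm_num) (l := (0 : Fin 8)) rfl
      (gatB30 x) (gatB72 x) (gatB01 x) ?_)
    (thU (pinU hx hx')) rfl hκ (fun j q y => tC_eq j q y x) (esg_rng X.x0.le (by linarith [X.b, X.p0])).1 (mo_v x) le_rfl le_rfl
  · intro ρ a B hρ hd i h1 h2
    fin_cases i
    · exact corW_cert (G1 := gB3q0) (G2 := gB7q2) (Ga := gB0q1) (Gb := gB1q1) (D1 := dB3q0) (D2 := dB7q2) (Da := dB0q1) (Db := dB1q1) cB012L_ok B hρ hen (gatB30 x) (gatB72 x) (fun _ => gatB01 x) (fun h => absurd h (by decide)) (datB30 x) (datB72 x) (fun _ => datB01 x) (fun h => absurd h (by decide)) hd hx hx' CW.B012L_370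
    · exact absurd h2 (by norm_num)
    · exact absurd h2 (by norm_num)
    · exact absurd h2 (by norm_num)
    · exact absurd h2 (by norm_num)
    · exact absurd h2 (by norm_num)
    · exact absurd h2 (by norm_num)
  · intro ρ a B hρ hd i h1 h2
    fin_cases i
    · exact corT_cert (G1 := gB3q0) (G2 := gB7q2) (Ga := gB0q1) (Gb := gB1q1) cB012L_ok B hρ (gatB30 x) (gatB72 x) (fun _ => gatB01 x) (fun h => absurd h (by decide)) hd hx hx' CG.B012L_370
    · exact absurd h2 (by norm_num)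
    · exact absurd h2 (by norm_num)
    · exact absurd h2 (by norm_num)
    · exact absurd h2 (by norm_num)
    · exact absurd h2 (by norm_num)
    · exact absurd h2 (by norm_num)

theorem altB_B012L_47 {κ x : ℝ} (hκ : κ * h0 = ken x) (hx : ((587336777 : ℕ) : ℝ) / S ≤ x) (hx' : x ≤ (((587336777 : ℕ) : ℝ) + (62277027 : ℕ)) / S) :
    AltEB 3 κ (eng.v x) (3 / 40) (tnt (h0 * x) (3 / 10)) PP tK tL tC pcB (scP esg pd) [⟨0, 0, 0, 67108864⟩, ⟨1, 1, 0, 67108864⟩, ⟨2, 1, 0, 67108864⟩] 0 1 2 4 7 (sgb true) (sgb true) x := by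
  have X : XR 67108864 x := XR.of hx hx' (by norm_num) (by norm_num) (by norm_num) (by norm_num)
  have hen : 0 < eng.v x := en_pos X.x0.le
  refine CornW.altB (C := cB012L) (j := (4 : Fin 8)) (k := (7 : Fin 8)) (Ef := esg) (pd := pd) (o := 3 / 40)
    (cornW_of (C := cB012L) (C0 := c0B) (En := eng) (mo := mog) (j := (4 : Fin 8)) (k := (7 : Fin 8)) (lo := 0) (hi := 0) (W := 67108864) (N0 := 3) cB012L_q (sideB hx hx') gokB (pinU hx hx') dokB X (by norm_num) (by norm_num) (l := (0 : Fin 8)) rfl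
      (gatB40 x) (gatB72 x) (gatB01 x) (datB40 x) (datB72 x) (datB01 x) ?_)
    (cornS_of (C := cB012L) (C0 := c0B) (j := (4 : Fin 8)) (k := (7 : Fin 8)) (lo := 0) (hi := 0) (W := 67108864) (N0 := 3) cB012L_q (sideB hx hx') gokB X (by norm_num) (by norm_num) (l := (0 : Fin 8)) rfl
      (gatB40 x) (gatB72 x) (gatB01 x) ?_)
    (thU (pinU hx hx')) rfl hκ (fun j q y => tC_eq j q y x) (esg_rng X.x0.le (by linarith [X.b, X.p0])).1 (mo_v x) le_rfl le_rfl
  · intro ρ a B hρ hd i h1 h2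
    fin_cases i
    · exact corW_cert (G1 := gB4q0) (G2 := gB7q2) (Ga := gB0q1) (Gb := gB1q1) (D1 := dB4q0) (D2 := dB7q2) (Da := dB0q1) (Db := dB1q1) cB012L_ok B hρ hen (gatB40 x) (gatB72 x) (fun _ => gatB01 x) (fun h => absurd h (by decide)) (datB40 x) (datB72 x) (fun _ => datB01 x) (fun h => absurd h (by decide)) hd hx hx' CW.B012L_470
    · exact absurd h2 (by norm_num)
    · exact absurd h2 (by norm_num)
    · exact absurd h2 (by norm_num)
    · exact absurd h2 (by norm_num)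
    · exact absurd h2 (by norm_num)
    · exact absurd h2 (by norm_num)
  · intro ρ a B hρ hd i h1 h2
    fin_cases i
    · exact corT_cert (G1 := gB4q0) (G2 := gB7q2) (Ga := gB0q1) (Gb := gB1q1) cB012L_ok B hρ (gatB40 x) (gatB72 x) (fun _ => gatB01 x) (fun h => absurd h (by decide)) hd hx hx' CG.B012L_470
    · exact absurd h2 (by norm_num)
    · exact absurd h2 (by norm_num)
    · exact absurd h2 (by norm_num)
    · exact absurd h2 (by norm_num)
    · exact absurd h2 (by norm_num)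
    · exact absurd h2 (by norm_num)

theorem altB_B012R_00 {κ x : ℝ} (hκ : κ * h0 = ken x) (hx : ((587336777 : ℕ) : ℝ) / S ≤ x) (hx' : x ≤ (((587336777 : ℕ) : ℝ) + (62277027 : ℕ)) / S) :
    AltEB 3 κ (eng.v x) (3 / 40) (tnt (h0 * x) (3 / 10)) PP tK tL tC pcB (scP esg pd) [⟨0, 0, 0, 67108864⟩, ⟨1, 1, 0, 67108864⟩, ⟨2, 1, 0, 67108864⟩] 0 1 2 0 0 (sgb true) (sgb false) x := by
  have X : XR 67108864 x := XR.of hx hx' (by norm_num) (by norm_num) (by norm_num) (by norm_num)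
  have hen : 0 < eng.v x := en_pos X.x0.le
  refine CornW.altB (C := cB012R) (j := (0 : Fin 8)) (k := (0 : Fin 8)) (Ef := esg) (pd := pd) (o := 3 / 40)
    (cornW_of (C := cB012R) (C0 := c0B) (En := eng) (mo := mog) (j := (0 : Fin 8)) (k := (0 : Fin 8)) (lo := 5) (hi := 7) (W := 67108864) (N0 := 3) cB012R_q (sideB hx hx') gokB (pinU hx hx') dokB X (by norm_num) (by norm_num) (l := (5 : Fin 8)) rfl
      (gatB00 x) (gatB02 x) (gatB51 x) (datB00 x) (datB02 x) (datB51 x) ?_)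
    (cornS_of (C := cB012R) (C0 := c0B) (j := (0 : Fin 8)) (k := (0 : Fin 8)) (lo := 5) (hi := 7) (W := 67108864) (N0 := 3) cB012R_q (sideB hx hx') gokB X (by norm_num) (by norm_num) (l := (5 : Fin 8)) rfl
      (gatB00 x) (gatB02 x) (gatB51 x) ?_)
    (thU (pinU hx hx')) rfl hκ (fun j q y => tC_eq j q y x) (esg_rng X.x0.le (by linarith [X.b, X.p0])).1 (mo_v x) le_rfl le_rfl
  · intro ρ a B hρ hd i h1 h2
    fin_cases i
    · exact absurd h1 (by norm_num)
    · exact absurd h1 (by norm_num)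
    · exact absurd h1 (by norm_num)
    · exact absurd h1 (by norm_num)
    · exact corW_cert (G1 := gB0q0) (G2 := gB0q2) (Ga := gB4q1) (Gb := gB5q1) (D1 := dB0q0) (D2 := dB0q2) (Da := dB4q1) (Db := dB5q1) cB012R_ok B hρ hen (gatB00 x) (gatB02 x) (fun h => absurd h (by decide)) (fun _ => gatB51 x) (datB00 x) (datB02 x) (fun h => absurd h (by decide)) (fun _ => datB51 x) hd hx hx' CW.B012R_004
    · exact corW_cert (G1 := gB0q0) (G2 := gB0q2) (Ga := gB5q1) (Gb := gB6q1) (D1 := dB0q0) (D2 := dB0q2) (Da := dB5q1) (Db := dB6q1) cB012R_ok B hρ hen (gatB00 x) (gatB02 x) (fun _ => gatB51 x) (fun _ => gatB61 x) (datB00 x) (datB02 x) (fun _ => datB51 x) (fun _ => datB61 x) hd hx hx' CW.B012R_005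
    · exact corW_cert (G1 := gB0q0) (G2 := gB0q2) (Ga := gB6q1) (Gb := gB7q1) (D1 := dB0q0) (D2 := dB0q2) (Da := dB6q1) (Db := dB7q1) cB012R_ok B hρ hen (gatB00 x) (gatB02 x) (fun _ => gatB61 x) (fun _ => gatB71 x) (datB00 x) (datB02 x) (fun _ => datB61 x) (fun _ => datB71 x) hd hx hx' CW.B012R_006
  · intro ρ a B hρ hd i h1 h2
    fin_cases i
    · exact absurd h1 (by norm_num)
    · exact absurd h1 (by norm_num)
    · exact absurd h1 (by norm_num)
    · exact absurd h1 (by norm_num)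
    · exact corT_cert (G1 := gB0q0) (G2 := gB0q2) (Ga := gB4q1) (Gb := gB5q1) cB012R_ok B hρ (gatB00 x) (gatB02 x) (fun h => absurd h (by decide)) (fun _ => gatB51 x) hd hx hx' CG.B012R_004
    · exact corT_cert (G1 := gB0q0) (G2 := gB0q2) (Ga := gB5q1) (Gb := gB6q1) cB012R_ok B hρ (gatB00 x) (gatB02 x) (fun _ => gatB51 x) (fun _ => gatB61 x) hd hx hx' CG.B012R_005
    · exact corT_cert (G1 := gB0q0) (G2 := gB0q2) (Ga := gB6q1) (Gb := gB7q1) cB012R_ok B hρ (gatB00 x) (gatB02 x) (fun _ => gatB61 x) (fun _ => gatB71 x) hd hx hx' CG.B012R_006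

theorem altB_B012R_01 {κ x : ℝ} (hκ : κ * h0 = ken x) (hx : ((587336777 : ℕ) : ℝ) / S ≤ x) (hx' : x ≤ (((587336777 : ℕ) : ℝ) + (62277027 : ℕ)) / S) :
    AltEB 3 κ (eng.v x) (3 / 40) (tnt (h0 * x) (3 / 10)) PP tK tL tC pcB (scP esg pd) [⟨0, 0, 0, 67108864⟩, ⟨1, 1, 0, 67108864⟩, ⟨2, 1, 0, 67108864⟩] 0 1 2 0 1 (sgb true) (sgb false) x := by
  have X : XR 67108864 x := XR.of hx hx' (by norm_num) (by norm_num) (by norm_num) (by norm_num)
  have hen : 0 < eng.v x := en_pos X.x0.le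
  refine CornW.altB (C := cB012R) (j := (0 : Fin 8)) (k := (1 : Fin 8)) (Ef := esg) (pd := pd) (o := 3 / 40)
    (cornW_of (C := cB012R) (C0 := c0B) (En := eng) (mo := mog) (j := (0 : Fin 8)) (k := (1 : Fin 8)) (lo := 5) (hi := 7) (W := 67108864) (N0 := 3) cB012R_q (sideB hx hx') gokB (pinU hx hx') dokB X (by norm_num) (by norm_num) (l := (5 : Fin 8)) rfl
      (gatB00 x) (gatB12 x) (gatB51 x) (datB00 x) (datB12 x) (datB51 x) ?_)
    (cornS_of (C := cB012R) (C0 := c0B) (j := (0 : Fin 8)) (k := (1 : Fin 8)) (lo := 5) (hi := 7) (W := 67108864) (N0 := 3) cB012R_q (sideB hx hx') gokB X (by norm_num) (by norm_num) (l := (5 : Fin 8)) rfl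
      (gatB00 x) (gatB12 x) (gatB51 x) ?_)
    (thU (pinU hx hx')) rfl hκ (fun j q y => tC_eq j q y x) (esg_rng X.x0.le (by linarith [X.b, X.p0])).1 (mo_v x) le_rfl le_rfl
  · intro ρ a B hρ hd i h1 h2
    fin_cases i
    · exact absurd h1 (by norm_num)
    · exact absurd h1 (by norm_num)
    · exact absurd h1 (by norm_num)
    · exact absurd h1 (by norm_num)
    · exact corW_cert (G1 := gB0q0) (G2 := gB1q2) (Ga := gB4q1) (Gb := gB5q1) (D1 := dB0q0) (D2 := dB1q2) (Da := dB4q1) (Db := dB5q1) cB012R_ok B hρ hen (gatB00 x) (gatB12 x) (fun h => absurd h (by decide)) (fun _ => gatB51 x) (datB00 x) (datB12 x) (fun h => absurd h (by decide)) (fun _ => datB51 x) hd hx hx' CW.B012R_014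
    · exact corW_cert (G1 := gB0q0) (G2 := gB1q2) (Ga := gB5q1) (Gb := gB6q1) (D1 := dB0q0) (D2 := dB1q2) (Da := dB5q1) (Db := dB6q1) cB012R_ok B hρ hen (gatB00 x) (gatB12 x) (fun _ => gatB51 x) (fun _ => gatB61 x) (datB00 x) (datB12 x) (fun _ => datB51 x) (fun _ => datB61 x) hd hx hx' CW.B012R_015
    · exact corW_cert (G1 := gB0q0) (G2 := gB1q2) (Ga := gB6q1) (Gb := gB7q1) (D1 := dB0q0) (D2 := dB1q2) (Da := dB6q1) (Db := dB7q1) cB012R_ok B hρ hen (gatB00 x) (gatB12 x) (fun _ => gatB61 x) (fun _ => gatB71 x) (datB00 x) (datB12 x) (fun _ => datB61 x) (fun _ => datB71 x) hd hx hx' CW.B012R_016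
  · intro ρ a B hρ hd i h1 h2
    fin_cases i
    · exact absurd h1 (by norm_num)
    · exact absurd h1 (by norm_num)
    · exact absurd h1 (by norm_num)
    · exact absurd h1 (by norm_num)
    · exact corT_cert (G1 := gB0q0) (G2 := gB1q2) (Ga := gB4q1) (Gb := gB5q1) cB012R_ok B hρ (gatB00 x) (gatB12 x) (fun h => absurd h (by decide)) (fun _ => gatB51 x) hd hx hx' CG.B012R_014
    · exact corT_cert (G1 := gB0q0) (G2 := gB1q2) (Ga := gB5q1) (Gb := gB6q1) cB012R_ok B hρ (gatB00 x) (gatB12 x) (fun _ => gatB51 x) (fun _ => gatB61 x) hd hx hx' CG.B012R_015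
    · exact corT_cert (G1 := gB0q0) (G2 := gB1q2) (Ga := gB6q1) (Gb := gB7q1) cB012R_ok B hρ (gatB00 x) (gatB12 x) (fun _ => gatB61 x) (fun _ => gatB71 x) hd hx hx' CG.B012R_016

theorem altB_B012R_02 {κ x : ℝ} (hκ : κ * h0 = ken x) (hx : ((587336777 : ℕ) : ℝ) / S ≤ x) (hx' : x ≤ (((587336777 : ℕ) : ℝ) + (62277027 : ℕ)) / S) :
    AltEB 3 κ (eng.v x) (3 / 40) (tnt (h0 * x) (3 / 10)) PP tK tL tC pcB (scP esg pd) [⟨0, 0, 0, 67108864⟩, ⟨1, 1, 0, 67108864⟩, ⟨2, 1, 0, 67108864⟩] 0 1 2 0 2 (sgb true) (sgb false) x := by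
  have X : XR 67108864 x := XR.of hx hx' (by norm_num) (by norm_num) (by norm_num) (by norm_num)
  have hen : 0 < eng.v x := en_pos X.x0.le
  refine CornW.altB (C := cB012R) (j := (0 : Fin 8)) (k := (2 : Fin 8)) (Ef := esg) (pd := pd) (o := 3 / 40)
    (cornW_of (C := cB012R) (C0 := c0B) (En := eng) (mo := mog) (j := (0 : Fin 8)) (k := (2 : Fin 8)) (lo := 5) (hi := 7) (W := 67108864) (N0 := 3) cB012R_q (sideB hx hx') gokB (pinU hx hx') dokB X (by norm_num) (by norm_num) (l := (5 : Fin 8)) rfl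
      (gatB00 x) (gatB22 x) (gatB51 x) (datB00 x) (datB22 x) (datB51 x) ?_)
    (cornS_of (C := cB012R) (C0 := c0B) (j := (0 : Fin 8)) (k := (2 : Fin 8)) (lo := 5) (hi := 7) (W := 67108864) (N0 := 3) cB012R_q (sideB hx hx') gokB X (by norm_num) (by norm_num) (l := (5 : Fin 8)) rfl
      (gatB00 x) (gatB22 x) (gatB51 x) ?_)
    (thU (pinU hx hx')) rfl hκ (fun j q y => tC_eq j q y x) (esg_rng X.x0.le (by linarith [X.b, X.p0])).1 (mo_v x) le_rfl le_rfl
  · intro ρ a B hρ hd i h1 h2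
    fin_cases i
    · exact absurd h1 (by norm_num)
    · exact absurd h1 (by norm_num)
    · exact absurd h1 (by norm_num)
    · exact absurd h1 (by norm_num)
    · exact corW_cert (G1 := gB0q0) (G2 := gB2q2) (Ga := gB4q1) (Gb := gB5q1) (D1 := dB0q0) (D2 := dB2q2) (Da := dB4q1) (Db := dB5q1) cB012R_ok B hρ hen (gatB00 x) (gatB22 x) (fun h => absurd h (by decide)) (fun _ => gatB51 x) (datB00 x) (datB22 x) (fun h => absurd h (by decide)) (fun _ => datB51 x) hd hx hx' CW.B012R_024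
    · exact corW_cert (G1 := gB0q0) (G2 := gB2q2) (Ga := gB5q1) (Gb := gB6q1) (D1 := dB0q0) (D2 := dB2q2) (Da := dB5q1) (Db := dB6q1) cB012R_ok B hρ hen (gatB00 x) (gatB22 x) (fun _ => gatB51 x) (fun _ => gatB61 x) (datB00 x) (datB22 x) (fun _ => datB51 x) (fun _ => datB61 x) hd hx hx' CW.B012R_025
    · exact corW_cert (G1 := gB0q0) (G2 := gB2q2) (Ga := gB6q1) (Gb := gB7q1) (D1 := dB0q0) (D2 := dB2q2) (Da := dB6q1) (Db := dB7q1) cB012R_ok B hρ hen (gatB00 x) (gatB22 x) (fun _ => gatB61 x) (fun _ => gatB71 x) (datB00 x) (datB22 x) (fun _ => datB61 x) (fun _ => datB71 x) hd hx hx' CW.B012R_026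
  · intro ρ a B hρ hd i h1 h2
    fin_cases i
    · exact absurd h1 (by norm_num)
    · exact absurd h1 (by norm_num)
    · exact absurd h1 (by norm_num)
    · exact absurd h1 (by norm_num)
    · exact corT_cert (G1 := gB0q0) (G2 := gB2q2) (Ga := gB4q1) (Gb := gB5q1) cB012R_ok B hρ (gatB00 x) (gatB22 x) (fun h => absurd h (by decide)) (fun _ => gatB51 x) hd hx hx' CG.B012R_024
    · exact corT_cert (G1 := gB0q0) (G2 := gB2q2) (Ga := gB5q1) (Gb := gB6q1) cB012R_ok B hρ (gatB00 x) (gatB22 x) (fun _ => gatB51 x) (fun _ => gatB61 x) hd hx hx' CG.B012R_025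
    · exact corT_cert (G1 := gB0q0) (G2 := gB2q2) (Ga := gB6q1) (Gb := gB7q1) cB012R_ok B hρ (gatB00 x) (gatB22 x) (fun _ => gatB61 x) (fun _ => gatB71 x) hd hx hx' CG.B012R_026

theorem altB_B012R_03 {κ x : ℝ} (hκ : κ * h0 = ken x) (hx : ((587336777 : ℕ) : ℝ) / S ≤ x) (hx' : x ≤ (((587336777 : ℕ) : ℝ) + (62277027 : ℕ)) / S) :
    AltEB 3 κ (eng.v x) (3 / 40) (tnt (h0 * x) (3 / 10)) PP tK tL tC pcB (scP esg pd) [⟨0, 0, 0, 67108864⟩, ⟨1, 1, 0, 67108864⟩, ⟨2, 1, 0, 67108864⟩] 0 1 2 0 3 (sgb true) (sgb false) x := by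
  have X : XR 67108864 x := XR.of hx hx' (by norm_num) (by norm_num) (by norm_num) (by norm_num)
  have hen : 0 < eng.v x := en_pos X.x0.le
  refine CornW.altB (C := cB012R) (j := (0 : Fin 8)) (k := (3 : Fin 8)) (Ef := esg) (pd := pd) (o := 3 / 40)
    (cornW_of (C := cB012R) (C0 := c0B) (En := eng) (mo := mog) (j := (0 : Fin 8)) (k := (3 : Fin 8)) (lo := 5) (hi := 7) (W := 67108864) (N0 := 3) cB012R_q (sideB hx hx') gokB (pinU hx hx') dokB X (by norm_num) (by norm_num) (l := (5 : Fin 8)) rfl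
      (gatB00 x) (gatB32 x) (gatB51 x) (datB00 x) (datB32 x) (datB51 x) ?_)
    (cornS_of (C := cB012R) (C0 := c0B) (j := (0 : Fin 8)) (k := (3 : Fin 8)) (lo := 5) (hi := 7) (W := 67108864) (N0 := 3) cB012R_q (sideB hx hx') gokB X (by norm_num) (by norm_num) (l := (5 : Fin 8)) rfl
      (gatB00 x) (gatB32 x) (gatB51 x) ?_)
    (thU (pinU hx hx')) rfl hκ (fun j q y => tC_eq j q y x) (esg_rng X.x0.le (by linarith [X.b, X.p0])).1 (mo_v x) le_rfl le_rfl
  · intro ρ a B hρ hd i h1 h2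
    fin_cases i
    · exact absurd h1 (by norm_num)
    · exact absurd h1 (by norm_num)
    · exact absurd h1 (by norm_num)
    · exact absurd h1 (by norm_num)
    · exact corW_cert (G1 := gB0q0) (G2 := gB3q2) (Ga := gB4q1) (Gb := gB5q1) (D1 := dB0q0) (D2 := dB3q2) (Da := dB4q1) (Db := dB5q1) cB012R_ok B hρ hen (gatB00 x) (gatB32 x) (fun h => absurd h (by decide)) (fun _ => gatB51 x) (datB00 x) (datB32 x) (fun h => absurd h (by decide)) (fun _ => datB51 x) hd hx hx' CW.B012R_034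
    · exact corW_cert (G1 := gB0q0) (G2 := gB3q2) (Ga := gB5q1) (Gb := gB6q1) (D1 := dB0q0) (D2 := dB3q2) (Da := dB5q1) (Db := dB6q1) cB012R_ok B hρ hen (gatB00 x) (gatB32 x) (fun _ => gatB51 x) (fun _ => gatB61 x) (datB00 x) (datB32 x) (fun _ => datB51 x) (fun _ => datB61 x) hd hx hx' CW.B012R_035
    · exact corW_cert (G1 := gB0q0) (G2 := gB3q2) (Ga := gB6q1) (Gb := gB7q1) (D1 := dB0q0) (D2 := dB3q2) (Da := dB6q1) (Db := dB7q1) cB012R_ok B hρ hen (gatB00 x) (gatB32 x) (fun _ => gatB61 x) (fun _ => gatB71 x) (datB00 x) (datB32 x) (fun _ => datB61 x) (fun _ => datB71 x) hd hx hx' CW.B012R_036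
  · intro ρ a B hρ hd i h1 h2
    fin_cases i
    · exact absurd h1 (by norm_num)
    · exact absurd h1 (by norm_num)
    · exact absurd h1 (by norm_num)
    · exact absurd h1 (by norm_num)
    · exact corT_cert (G1 := gB0q0) (G2 := gB3q2) (Ga := gB4q1) (Gb := gB5q1) cB012R_ok B hρ (gatB00 x) (gatB32 x) (fun h => absurd h (by decide)) (fun _ => gatB51 x) hd hx hx' CG.B012R_034
    · exact corT_cert (G1 := gB0q0) (G2 := gB3q2) (Ga := gB5q1) (Gb := gB6q1) cB012R_ok B hρ (gatB00 x) (gatB32 x) (fun _ => gatB51 x) (fun _ => gatB61 x) hd hx hx' CG.B012R_035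
    · exact corT_cert (G1 := gB0q0) (G2 := gB3q2) (Ga := gB6q1) (Gb := gB7q1) cB012R_ok B hρ (gatB00 x) (gatB32 x) (fun _ => gatB61 x) (fun _ => gatB71 x) hd hx hx' CG.B012R_036

theorem altB_B012R_04 {κ x : ℝ} (hκ : κ * h0 = ken x) (hx : ((587336777 : ℕ) : ℝ) / S ≤ x) (hx' : x ≤ (((587336777 : ℕ) : ℝ) + (62277027 : ℕ)) / S) :
    AltEB 3 κ (eng.v x) (3 / 40) (tnt (h0 * x) (3 / 10)) PP tK tL tC pcB (scP esg pd) [⟨0, 0, 0, 67108864⟩, ⟨1, 1, 0, 67108864⟩, ⟨2, 1, 0, 67108864⟩] 0 1 2 0 4 (sgb true) (sgb false) x := by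
  have X : XR 67108864 x := XR.of hx hx' (by norm_num) (by norm_num) (by norm_num) (by norm_num)
  have hen : 0 < eng.v x := en_pos X.x0.le
  refine CornW.altB (C := cB012R) (j := (0 : Fin 8)) (k := (4 : Fin 8)) (Ef := esg) (pd := pd) (o := 3 / 40)
    (cornW_of (C := cB012R) (C0 := c0B) (En := eng) (mo := mog) (j := (0 : Fin 8)) (k := (4 : Fin 8)) (lo := 5) (hi := 7) (W := 67108864) (N0 := 3) cB012R_q (sideB hx hx') gokB (pinU hx hx') dokB X (by norm_num) (by norm_num) (l := (5 : Fin 8)) rfl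
      (gatB00 x) (gatB42 x) (gatB51 x) (datB00 x) (datB42 x) (datB51 x) ?_)
    (cornS_of (C := cB012R) (C0 := c0B) (j := (0 : Fin 8)) (k := (4 : Fin 8)) (lo := 5) (hi := 7) (W := 67108864) (N0 := 3) cB012R_q (sideB hx hx') gokB X (by norm_num) (by norm_num) (l := (5 : Fin 8)) rfl
      (gatB00 x) (gatB42 x) (gatB51 x) ?_)
    (thU (pinU hx hx')) rfl hκ (fun j q y => tC_eq j q y x) (esg_rng X.x0.le (by linarith [X.b, X.p0])).1 (mo_v x) le_rfl le_rfl
  · intro ρ a B hρ hd i h1 h2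
    fin_cases i
    · exact absurd h1 (by norm_num)
    · exact absurd h1 (by norm_num)
    · exact absurd h1 (by norm_num)
    · exact absurd h1 (by norm_num)
    · exact corW_cert (G1 := gB0q0) (G2 := gB4q2) (Ga := gB4q1) (Gb := gB5q1) (D1 := dB0q0) (D2 := dB4q2) (Da := dB4q1) (Db := dB5q1) cB012R_ok B hρ hen (gatB00 x) (gatB42 x) (fun h => absurd h (by decide)) (fun _ => gatB51 x) (datB00 x) (datB42 x) (fun h => absurd h (by decide)) (fun _ => datB51 x) hd hx hx' CW.B012R_044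
    · exact corW_cert (G1 := gB0q0) (G2 := gB4q2) (Ga := gB5q1) (Gb := gB6q1) (D1 := dB0q0) (D2 := dB4q2) (Da := dB5q1) (Db := dB6q1) cB012R_ok B hρ hen (gatB00 x) (gatB42 x) (fun _ => gatB51 x) (fun _ => gatB61 x) (datB00 x) (datB42 x) (fun _ => datB51 x) (fun _ => datB61 x) hd hx hx' CW.B012R_045
    · exact corW_cert (G1 := gB0q0) (G2 := gB4q2) (Ga := gB6q1) (Gb := gB7q1) (D1 := dB0q0) (D2 := dB4q2) (Da := dB6q1) (Db := dB7q1) cB012R_ok B hρ hen (gatB00 x) (gatB42 x) (fun _ => gatB61 x) (fun _ => gatB71 x) (datB00 x) (datB42 x) (fun _ => datB61 x) (fun _ => datB71 x) hd hx hx' CW.B012R_046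
  · intro ρ a B hρ hd i h1 h2
    fin_cases i
    · exact absurd h1 (by norm_num)
    · exact absurd h1 (by norm_num)
    · exact absurd h1 (by norm_num)
    · exact absurd h1 (by norm_num)
    · exact corT_cert (G1 := gB0q0) (G2 := gB4q2) (Ga := gB4q1) (Gb := gB5q1) cB012R_ok B hρ (gatB00 x) (gatB42 x) (fun h => absurd h (by decide)) (fun _ => gatB51 x) hd hx hx' CG.B012R_044
    · exact corT_cert (G1 := gB0q0) (G2 := gB4q2) (Ga := gB5q1) (Gb := gB6q1) cB012R_ok B hρ (gatB00 x) (gatB42 x) (fun _ => gatB51 x) (fun _ => gatB61 x) hd hx hx' CG.B012R_045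
    · exact corT_cert (G1 := gB0q0) (G2 := gB4q2) (Ga := gB6q1) (Gb := gB7q1) cB012R_ok B hρ (gatB00 x) (gatB42 x) (fun _ => gatB61 x) (fun _ => gatB71 x) hd hx hx' CG.B012R_046

theorem altB_B012R_10 {κ x : ℝ} (hκ : κ * h0 = ken x) (hx : ((587336777 : ℕ) : ℝ) / S ≤ x) (hx' : x ≤ (((587336777 : ℕ) : ℝ) + (62277027 : ℕ)) / S) :
    AltEB 3 κ (eng.v x) (3 / 40) (tnt (h0 * x) (3 / 10)) PP tK tL tC pcB (scP esg pd) [⟨0, 0, 0, 67108864⟩, ⟨1, 1, 0, 67108864⟩, ⟨2, 1, 0, 67108864⟩] 0 1 2 1 0 (sgb true) (sgb false) x := by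
  have X : XR 67108864 x := XR.of hx hx' (by norm_num) (by norm_num) (by norm_num) (by norm_num)
  have hen : 0 < eng.v x := en_pos X.x0.le
  refine CornW.altB (C := cB012R) (j := (1 : Fin 8)) (k := (0 : Fin 8)) (Ef := esg) (pd := pd) (o := 3 / 40)
    (cornW_of (C := cB012R) (C0 := c0B) (En := eng) (mo := mog) (j := (1 : Fin 8)) (k := (0 : Fin 8)) (lo := 5) (hi := 7) (W := 67108864) (N0 := 3) cB012R_q (sideB hx hx') gokB (pinU hx hx') dokB X (by norm_num) (by norm_num) (l := (5 : Fin 8)) rfl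
      (gatB10 x) (gatB02 x) (gatB51 x) (datB10 x) (datB02 x) (datB51 x) ?_)
    (cornS_of (C := cB012R) (C0 := c0B) (j := (1 : Fin 8)) (k := (0 : Fin 8)) (lo := 5) (hi := 7) (W := 67108864) (N0 := 3) cB012R_q (sideB hx hx') gokB X (by norm_num) (by norm_num) (l := (5 : Fin 8)) rfl
      (gatB10 x) (gatB02 x) (gatB51 x) ?_)
    (thU (pinU hx hx')) rfl hκ (fun j q y => tC_eq j q y x) (esg_rng X.x0.le (by linarith [X.b, X.p0])).1 (mo_v x) le_rfl le_rfl
  · intro ρ a B hρ hd i h1 h2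
    fin_cases i
    · exact absurd h1 (by norm_num)
    · exact absurd h1 (by norm_num)
    · exact absurd h1 (by norm_num)
    · exact absurd h1 (by norm_num)
    · exact corW_cert (G1 := gB1q0) (G2 := gB0q2) (Ga := gB4q1) (Gb := gB5q1) (D1 := dB1q0) (D2 := dB0q2) (Da := dB4q1) (Db := dB5q1) cB012R_ok B hρ hen (gatB10 x) (gatB02 x) (fun h => absurd h (by decide)) (fun _ => gatB51 x) (datB10 x) (datB02 x) (fun h => absurd h (by decide)) (fun _ => datB51 x) hd hx hx' CW.B012R_104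
    · exact corW_cert (G1 := gB1q0) (G2 := gB0q2) (Ga := gB5q1) (Gb := gB6q1) (D1 := dB1q0) (D2 := dB0q2) (Da := dB5q1) (Db := dB6q1) cB012R_ok B hρ hen (gatB10 x) (gatB02 x) (fun _ => gatB51 x) (fun _ => gatB61 x) (datB10 x) (datB02 x) (fun _ => datB51 x) (fun _ => datB61 x) hd hx hx' CW.B012R_105
    · exact corW_cert (G1 := gB1q0) (G2 := gB0q2) (Ga := gB6q1) (Gb := gB7q1) (D1 := dB1q0) (D2 := dB0q2) (Da := dB6q1) (Db := dB7q1) cB012R_ok B hρ hen (gatB10 x) (gatB02 x) (fun _ => gatB61 x) (fun _ => gatB71 x) (datB10 x) (datB02 x) (fun _ => datB61 x) (fun _ => datB71 x) hd hx hx' CW.B012R_106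
  · intro ρ a B hρ hd i h1 h2
    fin_cases i
    · exact absurd h1 (by norm_num)
    · exact absurd h1 (by norm_num)
    · exact absurd h1 (by norm_num)
    · exact absurd h1 (by norm_num)
    · exact corT_cert (G1 := gB1q0) (G2 := gB0q2) (Ga := gB4q1) (Gb := gB5q1) cB012R_ok B hρ (gatB10 x) (gatB02 x) (fun h => absurd h (by decide)) (fun _ => gatB51 x) hd hx hx' CG.B012R_104
    · exact corT_cert (G1 := gB1q0) (G2 := gB0q2) (Ga := gB5q1) (Gb := gB6q1) cB012R_ok B hρ (gatB10 x) (gatB02 x) (fun _ => gatB51 x) (fun _ => gatB61 x) hd hx hx' CG.B012R_105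
    · exact corT_cert (G1 := gB1q0) (G2 := gB0q2) (Ga := gB6q1) (Gb := gB7q1) cB012R_ok B hρ (gatB10 x) (gatB02 x) (fun _ => gatB61 x) (fun _ => gatB71 x) hd hx hx' CG.B012R_106

end Pool.Agent.Strip051.G.I5470_6050.Tab
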