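import Pool.Agent.Strip051.G.I5470_6050.Tab
import Pool.Agent.Strip051.PB.ExtD2

/-! # Certificates B29 (generated) -/

set_option linter.all false
set_option maxRecDepth 100000

namespace Pool.Agent.Strip051.G.I5470_6050.Tab.C.BB10

open Pool.Agent.Strip051.PB Pool.Agent.Strip051.PB.T
open Pool.Agent.Strip051.G.I5470_6050.Tab

noncomputable def cut_pm_011 : Cut := Cut.of [[⟨0, 0, 0, 67108864⟩, ⟨1, 1, 0, 67108864⟩, ⟨2, 1, 0, 67108864⟩]]

noncomputable def f_pm_011 : ℕ → ℕ → ℕ → ℕ → Bool := onCell 0 536870912 536870912 536870912 587336777 62277027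
    (rowB 3 eng mog cd1q0 cd0q1 pd1 0 false true false .pnn 0 1 1 (qsf 0 536870912 536870912 536870912 1) ndB1q0 ndB0q1 pcB1 cut_pm_011 Ext.none)

def k0_pm_011 : ∃ t, chk3 f_pm_011 t 1 2 1 = true :=
  ⟨(a (l 4) (a (l 4) (l 1))), by decide +kernel⟩

def k1_pm_011 : ∃ t, chk3 f_pm_011 t 2 6 1 = true :=
  ⟨(l 4), by decide +kernel⟩

def k2_pm_011 : ∃ t, chk3 f_pm_011 t 4 7 1 = true :=
  ⟨(b (l 4) (a (b (l 4) (a (b (l 4) (l 6)) (b (a (b (l 4) (a (l 4) (b (l 4) (a (b (l 4) (l 6)) (b (l 16767432) (l 16763576)))))) (b (a (l 4) (b (l 4) (b (l 4) (l 16775016)))) (b (a (a (c (l 16779752) (l 16779728)) (l 16775456)) (l 16769288)) (a (b (l 16771768) (l 16757360)) (l 16750648))))) (a (a (l 6) (a (l 6) (b (b (l 16757560) (l 6)) (l 6)))) (a (b (b (l 16750952) (c (l 16753360) (l 16747152))) (b (l 16733712) (l 6))) (b (b (l 16752632) (c (l 16755344) (l 16754056))) (b (l 16725152) (l 16716504)))))))) (b (a (b (l 4) (b (l 4) (a (a (l 4) (b (l 4) (l 16775800))) (a (b (l 16764568)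 (l 16756744)) (l 16772928))))) (b (b (l 4) (a (l 4) (a (l 16777120) (l 16762656)))) (b (a (a (b (l 4) (l 16755000)) (l 16770880)) (l 16757136)) (a (c (l 16759976) (l 16759592)) (l 16720976))))) (a (b (b (a (a (b (a (l 4) (l 16763784)) (l 16768632)) (b (l 16767952) (l 16749576))) (c (l 16761688) (l 16761112))) (b (a (l 16761520) (l 16749352)) (a (b (l 16739600) (l 16745888)) (l 16730864)))) (b (a (b (b (l 16741792) (a (l 16731472) (l 16722872))) (l 16741848)) (c (l 16730176) (l 16727944))) (b (a (l 16712456) (l 16695824)) (a (l 16724944) (l 16687528))))) (b (b (a (a (l 16727496) (l 16718920)) (l 16726880)) (a (b (l 16711472) (l 16703576)) (l 16690832))) (b (a (a (l 16695688) (l 16687664)) (l 16696600)) (a (b (l 16679672) (l 16671592)) (l 16681216)))))))), by decide +kernel⟩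

def k3_pm_011 : ∃ t, chk3 f_pm_011 t 5 7 1 = true :=
  ⟨(b (a (b (l 4) (a (b (l 4) (b (l 4) (a (l 4) (a (l 115662013399) (l 16761624))))) (b (a (l 4) (b (l 4) (l 16738192))) (a (b (l 16747088) (a (l 16731360) (l 16721864))) (a (l 16719928) (l 16710128)))))) (b (a (b (l 4) (a (l 4) (b (l 4) (l 16729440)))) (b (a (l 4) (b (l 4) (l 16740392))) (a (b (l 16724528) (l 16729944)) (l 16695544)))) (b (a (a (b (l 16734104) (l 16697736)) (l 16705992)) (a (l 16685192) (l 16664160))) (a (a (l 16695024) (l 16674760)) (l 16665440))))) (a (b (b (a (a (b (b (l 16773240) (l 16765616)) (l 16743664)) (b (l 16732640) (l 16714760))) (a (l 16714056) (l 16684320))) (a (a (b (l 16738984) (l 16703040)) (b (l 16699776) (l 16685072))) (a (b (l 16681232) (l 16666840)) (l 16697768)))) (b (a (b (a (l 16709264) (l 16670696)) (l 16707112)) (l 16658504)) (a (b (l 16671928) (l 16636608)) (b (l 16638416) (l 16646056))))) (b (b (b (a (l 16683120) (l 16622512)) (a (l 16690880) (l 16630144)))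 (a (b (l 16677520) (l 16622800)) (l 16591392))) (b (a (l 16624608) (l 16567976)) (a (l 16620424) (l 16545056)))))), by decide +kernel⟩

def k4_pm_011 : ∃ t, chk3 f_pm_011 t 3 3 1 = true :=
  ⟨(b (a (b (a (l 4) (a (l 4) (l 1))) (a (b (l 4) (a (b (l 4) (a (l 17951627367) (l 16757432))) (b (b (l 16773944) (l 16748032)) (a (l 16693408) (l 16669920))))) (b (a (b (l 4) (c (l 16764616) (l 16762264))) (b (l 1) (l 16674072))) (a (b (l 16709600) (l 16654232)) (b (l 16638544) (l 16583024)))))) (b (l 1) (a (b (l 1) (a (l 16620288) (l 1))) (l 1)))) (a (b (a (b (a (b (a (l 16747720) (l 16683528)) (l 16683320)) (b (l 16669408) (l 16637440))) (a (b (l 16652784) (l 16655552)) (b (l 16587168) (l 16602608)))) (b (a (l 16646864) (l 16607352)) (b (a (l 16546080) (l 16507864)) (a (l 16521160) (l 16485360))))) (a (a (b (b (l 16619584) (l 16552896)) (b (l 16531744) (l 16511080))) (b (b (l 16536688) (l 16515088)) (b (l 16495464) (l 16476872)))) (a (b (l 16531528) (b (l 16460968) (l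 16443408))) (b (l 16475656) (l 16498376))))) (b (a (b (a (l 16571448) (l 16539856)) (a (l 16501568) (l 16430664))) (b (l 1) (a (l 16403472) (l 1)))) (b (a (a (l 16421168) (l 16392072)) (l 12380917415)) (a (b (l 16424536) (l 16368832)) (b (l 16331792) (l 16321192))))))), by decide +kernel⟩

theorem s5_pm_011 : ∃ t, chk3 f_pm_011 t 2 7 1 = true := ex3_a k2_pm_011 k3_pm_011

theorem s6_pm_011 : ∃ t, chk3 f_pm_011 t 2 3 1 = true := ex3_b k1_pm_011 s5_pm_011

theorem s7_pm_011 : ∃ t, chk3 f_pm_011 t 1 3 1 = true := ex3_a s6_pm_011 k4_pm_011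

theorem s8_pm_011 : ∃ t, chk3 f_pm_011 t 1 1 1 = true := ex3_b k0_pm_011 s7_pm_011

theorem c_pm_011 : CertB 0 536870912 536870912 536870912 587336777 62277027 3 eng mog cd1q0 cd0q1 pd1 false true false .pnn 0 1 1
    ndB1q0 ndB0q1 pcB1 cut_pm_011 Ext.none :=
  certB0 (fam := false) (s1 := true) (s2 := false) (a := 0) (b := 1) (c := 1) (cn := .pnn) (n1 := ndB1q0) (n2 := ndB0q1) (pc := pcB1) (cut := cut_pm_011) (xt := Ext.none) (P1 := 0) (W1 := 536870912) (P2 := 536870912) (W2 := 536870912) (P3 := 587336777) (W3 := 62277027) (N0 := 3) (En := eng) (mo := mog) (C1 := cd1q0) (C2 := cd0q1) (C3 := pd1)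
    rfl s8_pm_011

noncomputable def cut_pm_012 : Cut := Cut.of [[⟨0, 0, 0, 67108864⟩, ⟨1, 1, 0, 67108864⟩, ⟨2, 1, 0, 67108864⟩]]

noncomputable def f_pm_012 : ℕ → ℕ → ℕ → ℕ → Bool := onCell 536870912 536870912 0 536870912 587336777 62277027
    (rowB 3 eng mog cd1q0 cd0q2 pd1 2 false true false .pnp 0 1 2 (qsf 0 536870912 0 536870912 1) ndB1q0 ndB0q2 pcB1 cut_pm_012 Ext.none)

def k0_pm_012 : ∃ t, chk3 f_pm_012 t 2 1 1 = true :=
  ⟨(b (a (b (l 2) (b (l 2) (a (l 2) (b (l 2) (l 16578480))))) (b (b (a (b (a (l 16724272) (l 16706112)) (a (l 16704336) (l 16687304))) (b (l 16720384) (l 16659800))) (a (a (l 16674512) (l 16658624)) (b (l 16642232) (a (l 16633536) (l 16617064))))) (b (a (b (a (l 16645096) (l 16631288)) (l 16617976)) (a (l 16607584) (l 16592672))) (a (a (l 16585040) (l 16576256)) (b (l 16571520) (l 16550056)))))) (b (a (a (l 2) (b (l 16606712) (b (l 16464168) (l 16427400)))) (b (a (l 16648776) (b (l 16527864) (l 16505712))) (a (b (l 16478352) (l 16556320))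 (b (l 16485016) (l 16572528))))) (a (b (a (a (l 2) (l 16343368)) (b (l 16394640) (l 16370368))) (a (b (l 16307496) (l 16312208)) (b (l 16353096) (l 16395920)))) (b (a (b (l 16493208) (a (l 16406320) (l 16426664))) (a (l 16509928) (l 16545896))) (a (b (l 16429792) (l 16484496)) (b (l 16479160) (a (l 16456432) (l 16485824)))))))), by decide +kernel⟩

def k1_pm_012 : ∃ t, chk3 f_pm_012 t 3 2 1 = true :=
  ⟨(a (b (a (b (b (l 16636280) (l 16619920)) (b (l 16646272) (l 16589192))) (b (a (b (l 16602184) (l 16587280)) (l 16614224)) (a (b (l 16572504) (l 16559136)) (l 16545672)))) (a (b (b (l 16574920) (l 16560568)) (b (l 16544960) (l 16528944))) (b (a (b (l 16547000) (l 16535336)) (l 16545600)) (a (b (l 16523312) (l 16511816)) (l 16548400))))) (b (a (b (a (l 16550080) (l 16528368)) (a (l 16526056) (b (l 16511640) (l 16503048)))) (b (a (l 16508616) (l 16491600)) (a (b (l 16494024) (l 16487168)) (b (l 16479000) (l 16473704))))) (a (b (a (b (l 16512336) (l 16505056))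 (b (l 16496424) (l 16491552))) (a (b (l 16498648) (l 16493960)) (b (l 16488320) (l 16487544)))) (b (a (b (l 16482584) (l 16480272)) (b (a (l 16473704) (l 16468304)) (a (l 16473144) (l 16468920)))) (a (b (l 16480344) (l 16483496)) (b (a (l 16475560) (l 16472936)) (a (l 16481632) (l 16480992)))))))), by decide +kernel⟩

def k2_pm_012 : ∃ t, chk3 f_pm_012 t 3 3 1 = true :=
  ⟨(b (a (a (b (a (l 16509064) (l 16503456)) (b (a (l 16487352) (l 16488640)) (a (l 16477832) (l 16484464)))) (b (a (l 16518800) (l 16494232)) (b (a (l 16490064) (l 16493584)) (a (l 16491216) (l 16499808))))) (a (b (a (b (l 16491920) (l 16493440)) (b (l 16490080) (l 16496656))) (a (b (l 16499584) (l 16511144)) (b (l 16508024) (l 16524600)))) (b (a (b (l 16490536) (l 16501984)) (b (a (l 16492080) (l 16493768)) (a (l 16507320) (l 16511472)))) (a (b (l 16517984) (l 16539640)) (a (l 16559960) (a (l 16544216) (l 16547520))))))) (a (a (b (a (b (l 16474992) (l 16480008)) (b (l 16487096) (l 16497768)))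 (b (l 16552328) (a (l 16515384) (l 16566680)))) (a (b (b (l 16520368) (l 16515800)) (b (l 16583104) (a (l 16568328) (l 16583656)))) (b (b (l 16534432) (l 16535544)) (b (l 16566512) (b (l 16595664) (l 16617792)))))) (b (a (a (b (l 16551168) (l 16557432)) (b (l 16548648) (l 16580848))) (a (b (l 16568576) (a (l 16598648) (l 16610648))) (a (b (l 16583552) (l 16622280)) (b (l 16592768) (b (l 16622200) (l 16644312)))))) (a (b (a (l 16614360) (b (l 16609208) (l 16635472))) (b (a (l 16624800) (a (l 16666872) (l 16660568))) (a (a (l 16640528) (b (l 16649200) (l 16661320))) (a (b (l 16663984) (l 16676768)) (b (l 16679600) (l 16692880)))))) (b (a (a (l 16660720) (b (l 16642168) (l 16665776))) (a (b (l 16656168) (l 6)) (l 6))) (a (b (a (l 16696800) (l 16701896)) (a (b (l 16695568) (l 16730296)) (l 6))) (l 6))))))), by decide +kernel⟩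

theorem s3_pm_012 : ∃ t, chk3 f_pm_012 t 3 1 1 = true := ex3_b k1_pm_012 k2_pm_012

theorem s4_pm_012 : ∃ t, chk3 f_pm_012 t 1 1 1 = true := ex3_a k0_pm_012 s3_pm_012

theorem c_pm_012 : CertB 0 536870912 0 536870912 587336777 62277027 3 eng mog cd1q0 cd0q2 pd1 false true false .pnp 0 1 2
    ndB1q0 ndB0q2 pcB1 cut_pm_012 Ext.none :=
  certB2 (fam := false) (s1 := true) (s2 := false) (a := 0) (b := 1) (c := 2) (cn := .pnp) (n1 := ndB1q0) (n2 := ndB0q2) (pc := pcB1) (cut := cut_pm_012) (xt := Ext.none) (P1 := 0) (W1 := 536870912) (P2 := 0) (W2 := 536870912) (P3 := 587336777) (W3 := 62277027) (N0 := 3) (En := eng) (mo := mog) (C1 := cd1q0) (C2 := cd0q2) (C3 := pd1)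
    rfl (fun _ => rfl) s4_pm_012

noncomputable def cut_pm_022 : Cut := Cut.of [[⟨0, 0, 0, 67108864⟩, ⟨1, 1, 0, 67108864⟩, ⟨2, 1, 0, 67108864⟩]]

noncomputable def f_pm_022 : ℕ → ℕ → ℕ → ℕ → Bool := onCell 0 536870912 0 536870912 587336777 62277027
    (rowB 3 eng mog cd1q0 cd0q2 pd2 0 false true false .pp 0 2 2 (qsf 0 536870912 0 536870912 2) ndB1q0 ndB0q2 pcB2 cut_pm_022 Ext.none)

def k0_pm_022 : ∃ t, chk3 f_pm_022 t 4 2 1 = true :=
  ⟨(b (b (a (l 16539992) (a (l 16468848) (l 16472816))) (b (a (l 16464176) (a (l 16467224) (l 16468200))) (a (l 16469176) (a (l 16469160) (l 16468048))))) (a (b (b (a (l 16518680) (l 16475600)) (a (b (l 16484480) (l 16490480)) (b (l 16481720) (l 16486352)))) (a (c (a (b (l 16523576) (b (l 16514424) (l 16523224))) (b (l 16521288) (l 16536232))) (b (a (l 16523072) (l 16498960)) (a (a (b (l 16514912) (b (l 16521208) (l 16504616))) (l 16539008)) (l 16535448)))) (b (b (l 16491600) (l 16518440)) (a (b (l 16506216) (l 16513736)) (l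 16525912))))) (b (b (a (l 16473296) (l 16470024)) (a (b (l 16477624) (l 16481392)) (a (l 16517256) (l 16472304)))) (b (a (b (l 16484968) (l 16489200)) (b (l 16519896) (l 16501136))) (a (b (l 16494000) (l 16499360)) (a (l 16508896) (l 44056441031))))))), by decide +kernel⟩

def k1_pm_022 : ∃ t, chk3 f_pm_022 t 4 6 1 = true :=
  ⟨(b (a (b (a (b (a (c (a (a (l 16534136) (l 16533200)) (l 16531632)) (a (b (b (l 16507976) (l 16510264)) (l 16534736)) (l 16531368))) (l 16548752)) (a (b (a (c (l 16520200) (l 16539504)) (l 16538840)) (a (c (a (l 16546896) (l 16545824)) (l 16544400)) (l 16543760))) (l 16542728))) (a (b (l 16521904) (l 16530752)) (b (l 16515552) (l 16523504)))) (a (a (a (c (b (a (l 16555016) (l 16553848)) (a (l 16566280) (l 16565000))) (b (b (l 16549432) (l 16554608)) (b (l 16559912) (l 16565368)))) (b (c (l 16552008) (l 16544000)) (c (l 16562968) (l 16560952)))) (b (a (l 16549256) (l 16546056)) (a (l 16559680) (l 16556984)))) (b (a (l 16540280) (l 16532096))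 (a (l 16550496) (l 16541336))))) (a (b (b (l 16526272) (l 16532792)) (b (l 16539896) (l 16547576))) (b (a (b (l 16494272) (l 16499224)) (b (l 16485872) (l 16489560))) (a (b (l 16504704) (l 16510680)) (l 1))))) (b (b (a (a (a (a (c (l 16577424) (a (l 16574312) (l 16573424))) (c (l 16574504) (l 16571960))) (l 16548296)) (l 16587808)) (a (l 16555808) (l 16531272))) (a (a (a (a (b (l 16584784) (l 16591008)) (l 16585240)) (l 16580776)) (l 16588312)) (a (l 16564544) (l 1)))) (a (b (a (a (a (c (l 16602792) (l 16598368)) (l 16597792)) (l 16592952)) (l 16599880)) (a (a (a (c (l 16616512) (l 16611840)) (l 16611136)) (l 16605904)) (a (l 16597680) (l 16584096)))) (a (a (b (l 16559568) (l 16569776)) (l 16592328)) (l 1))))), by decide +kernel⟩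

def k2_pm_022 : ∃ t, chk3 f_pm_022 t 4 7 1 = true :=
  ⟨(a (b (b (a (b (a (a (a (l 16640056) (l 16627944)) (l 16625368)) (a (l 16621688) (l 16617736))) (b (a (a (l 16640224) (l 16636648)) (l 16630736)) (l 6))) (a (b (l 16610752) (l 16624184)) (b (l 16595904) (l 16608008)))) (a (l 6) (a (l 6) (a (l 6) (a (l 6) (l 1)))))) (a (l 6) (a (l 6) (l 1)))) (b (a (a (b (b (l 16580272) (l 16590968)) (l 1)) (l 1)) (l 1)) (l 1))), by decide +kernel⟩

def k3_pm_022 : ∃ t, chk3 f_pm_022 t 5 1 1 = true :=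
  ⟨(b (a (a (b (b (l 16475056) (b (l 16467384) (l 16464992))) (b (b (l 82174235079) (l 74121175895)) (a (b (b (l 16471296) (l 16472120)) (l 48888267255)) (l 1)))) (b (b (l 1) (l 1)) (l 1))) (l 1)) (b (l 1) (l 1))), by decide +kernel⟩

def k4_pm_022 : ∃ t, chk3 f_pm_022 t 3 1 1 = true :=
  ⟨(l 1), by decide +kernel⟩

theorem s5_pm_022 : ∃ t, chk3 f_pm_022 t 4 3 1 = true := ex3_b k1_pm_022 k2_pm_022

theorem s6_pm_022 : ∃ t, chk3 f_pm_022 t 4 1 1 = true := ex3_b k0_pm_022 s5_pm_022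

theorem s7_pm_022 : ∃ t, chk3 f_pm_022 t 2 1 1 = true := ex3_a s6_pm_022 k3_pm_022

theorem s8_pm_022 : ∃ t, chk3 f_pm_022 t 1 1 1 = true := ex3_a s7_pm_022 k4_pm_022

theorem c_pm_022 : CertB 0 536870912 0 536870912 587336777 62277027 3 eng mog cd1q0 cd0q2 pd2 false true false .pp 0 2 2
    ndB1q0 ndB0q2 pcB2 cut_pm_022 Ext.none :=
  certB0 (fam := false) (s1 := true) (s2 := false) (a := 0) (b := 2) (c := 2) (cn := .pp) (n1 := ndB1q0) (n2 := ndB0q2) (pc := pcB2) (cut := cut_pm_022) (xt := Ext.none) (P1 := 0) (W1 := 536870912) (P2 := 0) (W2 := 536870912) (P3 := 587336777) (W3 := 62277027) (N0 := 3) (En := eng) (mo := mog) (C1 := cd1q0) (C2 := cd0q2) (C3 := pd2)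
    rfl s8_pm_022

noncomputable def f_pm_101 : ℕ → ℕ → ℕ → ℕ → Bool := onCell 0 536870912 536870912 536870912 587336777 62277027
    (rowB 3 eng mog cd1q1 cd0q1 pd0 2 false true false .npn 1 0 1 (qsf 536870912 536870912 536870912 536870912 0) ndB1q1 ndB0q1 pcB0 Cut.none Ext.none)

def k0_pm_101 : ∃ t, chk3 f_pm_101 t 2 2 1 = true :=
  ⟨(b (a (b (l 4) (a (b (l 4) (a (b (l 4) (a (l 16742216) (l 4))) (l 4))) (l 4))) (l 4)) (a (b (a (b (a (b (a (l 16733520) (l 16737056)) (l 16731912)) (b (a (l 16741720) (l 4)) (a (l 16732888) (l 16736144)))) (a (l 16801720) (b (l 16730816) (l 16733248)))) (b (a (b (l 4) (l 51237659367)) (l 4)) (a (b (l 26541615543) (l 16728664)) (b (l 53922038519) (l 16793488))))) (b (a (a (l 16759256) (l 16743496)) (a (l 16731648) (b (l 16725240) (l 16724480)))) (a (a (l 16828208) (l 16763696)) (a (l 16744296) (l 16728616))))) (b (a (b (l 4) (a (b (l 4) (l 53922045335)) (l 4))) (l 4)) (a (b (a (b (l 16789648) (l 16720488)) (b (l 56069515959)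 (l 16721256))) (a (b (l 16718008) (l 16717792)) (l 16711792))) (b (a (b (l 4) (l 66270013879)) (l 4)) (a (b (l 16713704) (l 16705144)) (b (l 152504939127) (l 16703104)))))))), by decide +kernel⟩

def k1_pm_101 : ∃ t, chk3 f_pm_101 t 2 6 1 = true :=
  ⟨(a (b (a (b (a (b (l 16806880) (l 16820416)) (l 16932768)) (b (a (a (b (l 16838384) (l 16867072)) (l 16825448)) (l 16801936)) (a (a (l 16843248) (l 16870992)) (b (a (l 16817776) (l 16802960)) (l 16809256))))) (b (a (l 16760664) (l 16738424)) (a (b (l 16773064) (b (l 16779328) (l 16825560))) (b (l 16746904) (l 16753176))))) (a (b (a (b (l 16852784) (l 16824848)) (b (l 16809480) (l 16806864))) (a (b (l 16817392) (l 16810280)) (b (l 16803280) (l 16798968)))) (b (a (b (l 16782848) (l 16783928)) (b (b (l 16757448) (l 16758536)) (l 16759432))) (a (b (l 16783656) (l 16783272)) (b (l 16760624) (l 16762136)))))) (b (a (b (a (l 16720464) (l 16707416)) (a (l 16727032) (l 16708496))) (b (a (l 16697368) (l 16689088)) (a (l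 16692456) (l 16678712)))) (a (b (a (b (b (l 16732632) (l 16733592)) (l 16735752)) (b (l 16713112) (l 16712512))) (a (a (l 16744248) (l 16734048)) (l 16718320))) (b (a (b (l 16691936) (l 16693840)) (l 16676304)) (a (l 16696384) (b (l 16671520) (l 16674712))))))), by decide +kernel⟩

def k2_pm_101 : ∃ t, chk3 f_pm_101 t 2 7 1 = true :=
  ⟨(a (b (a (b (a (b (l 16803624) (l 16797480)) (b (l 16794408) (l 16790336))) (a (b (l 16792040) (l 16787128)) (b (l 16786968) (l 16784168)))) (b (a (b (l 16782232) (l 16780656)) (b (l 16764088) (l 16766256))) (a (b (l 16779120) (l 16778208)) (a (l 16771960) (l 16765896))))) (b (a (b (a (b (l 16783376) (l 16779264)) (b (l 16782088) (l 16779896))) (a (l 16772728) (l 16774496))) (b (a (b (l 16777632) (l 16777544)) (a (l 16774176) (l 16769768))) (a (l 16772936) (l 16767992)))) (a (a (b (l 16762400) (a (l 16748400) (l 16752432))) (b (l 16766136) (l 16756944))) (a (b (l 16766368) (l 16759240)) (b (l 16763400) (l 16758040)))))) (b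 (a (b (a (a (l 16749880) (l 16740160)) (a (l 16730096) (l 16719600))) (a (a (l 16758296) (l 16749664)) (a (l 16740040) (l 16729800)))) (b (a (a (l 16708560) (l 16697000)) (a (l 16685016) (l 16672816))) (b (a (l 16710104) (l 16685776)) (a (l 16716392) (c (l 16711008) (l 16674224)))))) (b (a (b (a (a (l 16764544) (l 16758136)) (l 16744992)) (a (a (l 16762424) (l 16758120)) (b (l 16790808) (l 16750168)))) (b (a (l 16723776) (a (l 16705880) (c (l 16711608) (l 16675536)))) (a (b (a (l 16734856) (l 16724328)) (l 16731312)) (b (a (c (l 16729624) (l 16697128)) (b (l 16698048) (c (l 16718240) (l 16684120)))) (a (l 16714328) (l 16701928)))))) (a (a (b (l 16757960) (l 16754160)) (b (l 16749840) (l 16748392))) (a (b (l 16733720) (l 16736560)) (a (b (l 16717296) (l 16721616)) (b (c (l 16722472) (l 16689136)) (c (l 16726744) (l 16694568))))))))), by decide +kernel⟩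

def k3_pm_101 : ∃ t, chk3 f_pm_101 t 3 2 1 = true :=
  ⟨(a (b (l 1) (b (l 1) (a (b (l 1) (a (b (l 1) (l 166463588247)) (l 1))) (l 1)))) (l 1)), by decide +kernel⟩

def k4_pm_101 : ∃ t, chk3 f_pm_101 t 6 3 1 = true :=
  ⟨(a (b (b (b (a (b (l 16709368) (l 16676480)) (b (l 1) (l 16710360))) (a (l 16664752) (l 100428371959))) (b (a (l 16655552) (l 16632928)) (a (b (l 16651480) (l 16650600)) (b (l 16627056) (l 16620600))))) (b (b (a (a (l 16660232) (l 16644856)) (a (l 16628928) (l 16613400))) (a (b (l 16679168) (a (l 16671776) (l 16656176))) (a (l 16636584) (l 16619304)))) (a (a (a (b (b (l 16682768) (b (l 16689512) (l 16691984))) (b (l 16695560) (l 16700768))) (b (b (l 16675496) (b (l 16681864) (l 16684736))) (b (l 16688928) (l 16694328)))) (b (b (l 16663752) (b (l 16670352) (c (l 16693680) (l 16653776)))) (b (l 16678480) (l 16684336)))) (b (b (c (l 16662712) (l 16615688)) (b (l 16645832) (a (l 16657592) (l 16641336)))) (a (b (l 16663320) (l 16669992)) (b (l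 16646912) (l 16654184))))))) (b (b (b (l 1) (a (l 121903075495) (l 1))) (b (a (l 16609560) (l 100428056711)) (a (b (l 16598568) (l 16593080)) (b (l 16569912) (l 16566432))))) (b (a (b (l 16590840) (a (l 16602136) (l 16585328))) (b (a (l 16567752) (l 16530224)) (a (l 16568936) (b (l 16551264) (l 16553728))))) (a (b (b (l 16603016) (a (b (l 16619312) (l 16624360)) (l 16605304))) (b (l 16620656) (c (l 16654112) (l 16602768)))) (b (a (b (l 16575464) (l 16585936)) (b (l 16558464) (c (b (l 16594912) (l 16599928)) (l 16514112)))) (a (c (l 16625680) (l 16567280)) (b (l 16572816) (l 16580128)))))))), by decide +kernel⟩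

def k5_pm_101 : ∃ t, chk3 f_pm_101 t 7 3 1 = true :=
  ⟨(b (a (b (l 1) (a (b (l 1) (a (l 16542840) (l 1))) (l 1))) (l 1)) (a (b (b (a (a (l 16532976) (a (l 16518240) (l 16494336))) (b (l 1) (l 16448112))) (a (a (l 16512392) (l 16503632)) (a (l 16460768) (l 16429104)))) (a (b (a (b (l 16537216) (b (l 16541104) (l 16544616))) (c (l 16519584) (l 16476816))) (a (b (l 16547616) (l 16554976)) (b (l 16493512) (l 16522584)))) (a (b (l 16460104) (l 16474624)) (b (l 16429688) (l 16481808))))) (b (b (l 1) (a (a (l 16403136) (l 1)) (l 1))) (b (a (a (l 16403776) (l 16380896)) (a (l 39761283607) (l 1))) (a (b (a (l 16409856) (l 16385976)) (l 16412256)) (b (a (b (l 16359272) (l 16364624)) (l 16396776)) (a (l 16379040) (l 16354424)))))))), by decide +kernel⟩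

theorem s6_pm_101 : ∃ t, chk3 f_pm_101 t 3 3 1 = true := ex3_a k4_pm_101 k5_pm_101

theorem s7_pm_101 : ∃ t, chk3 f_pm_101 t 3 1 1 = true := ex3_b k3_pm_101 s6_pm_101

theorem s8_pm_101 : ∃ t, chk3 f_pm_101 t 2 3 1 = true := ex3_b k1_pm_101 k2_pm_101

theorem s9_pm_101 : ∃ t, chk3 f_pm_101 t 2 1 1 = true := ex3_b k0_pm_101 s8_pm_101

theorem s10_pm_101 : ∃ t, chk3 f_pm_101 t 1 1 1 = true := ex3_a s9_pm_101 s7_pm_101

theorem c_pm_101 : CertB 536870912 536870912 536870912 536870912 587336777 62277027 3 eng mog cd1q1 cd0q1 pd0 false true false .npn 1 0 1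
    ndB1q1 ndB0q1 pcB0 Cut.none Ext.none :=
  certB2 (fam := false) (s1 := true) (s2 := false) (a := 1) (b := 0) (c := 1) (cn := .npn) (n1 := ndB1q1) (n2 := ndB0q1) (pc := pcB0) (cut := Cut.none) (xt := Ext.none) (P1 := 536870912) (W1 := 536870912) (P2 := 536870912) (W2 := 536870912) (P3 := 587336777) (W3 := 62277027) (N0 := 3) (En := eng) (mo := mog) (C1 := cd1q1) (C2 := cd0q1) (C3 := pd0)
    rfl (fun _ => rfl) s10_pm_101

noncomputable def xt_pm_102 : Ext := extD2 3 ⟨7, 3, 3, 10, 1815, 1000, 17, 20, 37, 100, 3, 16⟩ eng cd1q1 cd0q2 pd0 false true false .npp 1 0 2 rfl ndB1q1 ndB0q2 pcB0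

noncomputable def f_pm_102 : ℕ → ℕ → ℕ → ℕ → Bool := onCell 536870912 536870912 0 536870912 587336777 62277027
    (rowB 3 eng mog cd1q1 cd0q2 pd0 0 false true false .npp 1 0 2 (qsf 536870912 536870912 0 536870912 0) ndB1q1 ndB0q2 pcB0 Cut.none xt_pm_102)

def k0_pm_102 : ∃ t, chk3 f_pm_102 t 4 2 1 = true :=
  ⟨(b (l 2) (a (l 2) (b (l 2) (b (l 2) (l 16640584))))), by decide +kernel⟩

def k1_pm_102 : ∃ t, chk3 f_pm_102 t 5 2 1 = true :=
  ⟨(b (a (a (a (l 2) (b (a (l 2) (a (l 2) (b (l 184314413639) (l 16756936)))) (b (b (l 16764552) (l 16763808)) (l 16758424)))) (b (b (a (b (l 3) (l 195588722807)) (l 3)) (a (b (a (l 90898895303) (l 176798236231)) (l 16755840)) (b (l 196662467415) (a (b (l 167134568855) (l 16751600)) (b (l 190220005015) (l 168208310791)))))) (b (a (b (a (l 16762288) (l 16759992)) (l 16763504)) (b (l 16755216) (a (l 16761224) (l 16758896)))) (a (l 16761856) (b (l 16762448) (l 16762216)))))) (b (a (b (l 3) (a (b (l 3) (a (l 190756872023) (l 3)))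 (l 3))) (l 3)) (a (b (a (b (a (b (l 169818923415) (l 16750976)) (b (l 183240683303) (l 170892665415))) (l 16754120)) (a (b (l 181630066263) (b (l 169282052455) (l 16749728))) (b (l 3) (b (l 177335101735) (l 161228989383))))) (a (b (a (l 16760016) (l 16757544)) (l 16761408)) (b (l 16752496) (a (l 16758632) (l 16755856))))) (b (a (b (l 3) (a (l 177871967991) (l 3))) (l 3)) (a (b (a (b (l 155860280455) (l 16747944)) (b (l 175187615239) (a (l 16744632) (l 174113886343)))) (l 16750576)) (b (b (l 3) (l 173576996263)) (a (b (a (l 16743608) (l 171429530151)) (l 16745888)) (b (l 169282030919) (l 94656991191))))))))) (a (b (b (a (l 16781232) (l 16755200)) (a (l 16712120) (l 16779200))) (b (a (l 16678376) (l 16699840)) (a (l 16665920) (l 16684448)))) (b (a (b (a (l 16761008) (b (l 16760272) (l 16761080))) (a (l 16751384) (l 16757760))) (b (a (b (a (l 16757088) (l 16754072)) (l 16759088)) (b (l 16748488) (a (l 16755496) (l 16752208)))) (a (l 16760392) (l 16759432))))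 (b (a (b (l 16739992) (l 16721904)) (b (l 16757360) (l 16770368))) (a (l 16703712) (a (l 16716816) (l 16732288))))))), by decide +kernel⟩

def k2_pm_102 : ∃ t, chk3 f_pm_102 t 2 3 1 = true :=
  ⟨(a (b (a (l 2) (b (b (l 16633176) (l 16628088)) (l 16620520))) (b (a (a (l 2) (b (b (l 2) (l 16583656)) (l 16528336))) (b (a (b (l 16615736) (l 16591752)) (b (l 16617992) (l 16607664))) (a (l 16544952) (l 16577304)))) (a (b (a (b (l 16461000) (l 16429800)) (b (l 16482808) (l 16458568))) (a (b (l 16403992) (a (l 16375192) (l 16395384))) (b (l 16439600) (a (l 16416480) (l 16435920))))) (b (a (a (l 16490144) (l 16507712)) (a (l 16537040) (l 16565232))) (a (b (l 16476168) (l 16468360)) (b (l 16522568) (a (l 141297379776921647) (c (l 16590184) (l 16525936))))))))) (b (b (a (b (a (l 16655608) (l 16676232)) (l 16636248)) (b (a (a (l 16690384) (l 16698288)) (a (l 16706072) (l 16714664))) (a (l 16686296) (l 16705424)))) (a (b (l 16650840) (l 16626112)) (a (b (l 16680288) (l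 16678168)) (b (l 16699416) (l 16698432))))) (b (b (b (a (l 16646288) (l 16690816)) (a (a (l 16632832) (l 16655856)) (b (l 16693088) (l 16693928)))) (a (a (l 16594576) (b (l 16652176) (l 16646880))) (a (l 16680616) (a (l 16700000) (l 16711384))))) (a (b (b (a (a (l 16592816) (l 16614384)) (l 16642632)) (a (a (l 16588472) (l 16611168)) (l 16638456))) (b (a (a (l 16586400) (l 16608416)) (l 16635368)) (a (a (b (l 16585472) (l 16584584)) (l 16605200)) (l 16633000)))) (b (a (l 16671584) (c (l 16713432) (l 16682208))) (a (b (l 16667704) (b (l 16666496) (l 16665904))) (b (l 16694592) (a (l 16687360) (a (l 16697048) (l 16703224)))))))))), by decide +kernel⟩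

def k3_pm_102 : ∃ t, chk3 f_pm_102 t 3 2 1 = true :=
  ⟨(a (b (a (b (l 3) (a (b (l 3) (a (b (l 3) (a (l 168745154231) (l 3))) (l 3))) (l 3))) (l 3)) (a (b (a (b (a (b (a (b (a (l 16741192) (l 168745171447)) (l 16743456)) (b (l 164450187127) (a (l 16739776) (l 169282039511)))) (a (l 16748288) (l 16743776))) (b (a (l 162839567975) (l 3)) (a (b (a (l 16738224) (l 169818907047)) (l 16740560)) (b (l 159081471159) (l 154786522279))))) (a (b (a (l 16754024) (l 16750352)) (l 16757344)) (b (a (l 16745992) (l 16741000)) (a (l 16752784) (l 16748680))))) (b (a (b (l 3) (a (l 157470851319) (l 3))) (l 3)) (a (b (a (b (l 150491547703) (l 16737544)) (l 154249629159)) (a (l 16743856) (l 16738336))) (b (a (l 149417779623) (l 3)) (a (b (l 153712766775) (l 16734592)) (l 152639009031)))))) (a (b (b (l 16759088) (l 16760640)) (b (l 16778200) (a (l 16739336) (l 16753112)))) (b (a (b (a (l 16751712) (l 16747152)) (l 16756552)) (a (b (l 16741768) (l 16750592)) (b (l 16735448) (l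 16745120)))) (a (l 16761432) (l 16758752))))) (b (a (b (l 3) (a (l 3) (l 3))) (l 3)) (a (b (a (b (a (b (l 137069760407) (l 16731344)) (b (l 3) (l 129553565607))) (a (l 16739056) (l 60297221543))) (b (l 3) (a (b (l 112373692871) (l 16728208)) (l 118816169927)))) (a (b (a (l 16748424) (b (l 16740176) (l 16744992))) (l 16754024)) (b (a (b (l 16733584) (l 16738864)) (b (l 16726656) (l 16732136))) (a (l 16746192) (b (l 16737544) (l 16742608)))))) (b (l 3) (a (b (a (b (l 116131774759) (a (l 16726840) (l 16723320))) (l 130627323815)) (a (b (l 16730680) (l 16736208)) (b (l 60297198231) (l 16729216)))) (b (l 3) (a (b (l 132237896215) (l 70497740311)) (b (l 3) (l 140827828055)))))))))) (a (l 3) (l 3))), by decide +kernel⟩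

def k4_pm_102 : ∃ t, chk3 f_pm_102 t 6 3 1 = true :=
  ⟨(b (a (b (b (a (l 16705696) (a (l 16786240) (b (l 16760768) (l 16752536)))) (a (b (l 16720496) (l 16719376)) (a (l 16729704) (l 16736272)))) (a (b (l 16716312) (l 16715776)) (b (b (l 16730864) (l 16730232)) (l 16729816)))) (b (a (b (a (b (l 16759712) (l 16760392)) (l 16755896)) (a (l 16743120) (b (l 16760208) (l 16753000)))) (b (a (b (a (b (l 16741392) (l 16746320)) (b (l 16734848) (l 16740144))) (l 16750328)) (b (a (b (l 16727744) (l 16733472)) (b (l 90361971527) (l 16726296))) (a (b (l 16738880) (l 16744048)) (b (l 16732088) (l 16737592))))) (a (b (l 16757480) (l 16760056)) (b (l 16748280) (l 16756112))))) (b (a (b (l 16737840) (l 16757104)) (b (a (l 16753488) (l 16759864)) (l 16745440))) (b (a (l 16736504) (l 16761568)) (a (l 16735880) (l 16741128)))))) (b (a (b (a (l 16720000) (l 16733840)) (a (b (l 16724944) (l 16723200)) (b (l 16738568) (l 16740208)))) (b (a (l 16738760) (l 16741392)) (a (b (l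 16743800) (l 16747632)) (b (l 16745592) (l 16748824))))) (a (b (a (b (l 16720336) (l 16718456)) (a (l 16733488) (l 16740224))) (a (b (a (l 16712168) (l 16722808)) (a (c (l 16727904) (l 16697416)) (l 16723120))) (b (l 16736120) (l 16736872)))) (b (a (l 16744296) (l 16747640)) (a (l 16744832) (l 16749120)))))), by decide +kernel⟩

def k5_pm_102 : ∃ t, chk3 f_pm_102 t 14 6 1 = true :=
  ⟨(b (a (b (a (b (a (b (l 3) (l 122037362007)) (l 3)) (a (b (l 16724896) (l 16730704)) (b (l 141364721575) (l 16728816)))) (b (l 3) (a (b (l 3) (l 144049056327)) (l 3)))) (a (b (a (b (l 16736272) (l 16741592)) (b (l 16729304) (l 16734928))) (a (l 16748912) (b (l 16740296) (l 16745384)))) (b (a (b (l 105394384887) (l 16727960)) (b (l 168208246167) (l 147807196279))) (a (b (l 16733568) (l 16738952)) (b (l 16726704) (l 16732288)))))) (b (l 3) (a (b (a (b (l 3) (l 180019404743)) (l 3)) (a (b (l 171966387239) (l 16725592)) (b (l 3) (l 167671381495)))) (l 3)))) (a (b (a (b (l 16754312)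 (l 16759552)) (b (a (l 16746536) (b (l 16737648) (l 16742760))) (a (l 16754624) (l 16749696)))) (b (a (l 16756208) (l 16779800)) (a (l 16745184) (l 16757672)))) (b (a (b (a (b (l 16731088) (l 16736328)) (b (l 139217265335) (l 16729832))) (a (l 16743768) (b (a (l 16736552) (l 16733328)) (l 16739880)))) (b (a (b (a (l 184851272231) (l 175724440167)) (a (l 16724944) (l 177335095927))) (b (l 3) (a (l 177335056535) (l 3)))) (a (b (a (l 16730120) (l 16726928)) (a (l 16735104) (l 16731920))) (b (a (l 16723776) (l 186998762871)) (a (l 16728752) (l 16725656)))))) (a (a (b (l 16752480) (l 16758808)) (b (l 16746904) (l 16755384))) (b (a (l 16740792) (b (a (l 16733640) (l 16730488)) (l 16736856))) (b (l 16744632) (l 16749296))))))), by decide +kernel⟩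

def k6_pm_102 : ∃ t, chk3 f_pm_102 t 15 6 1 = true :=
  ⟨(b (l 3) (a (b (a (b (l 3) (a (b (a (l 176261312215) (l 3)) (a (l 173040128103) (l 190219978007))) (l 3))) (l 3)) (a (b (a (b (a (l 16727384) (l 16724384)) (a (l 16732160) (l 16729040))) (b (a (l 185388153079) (l 174113829463)) (a (l 16726016) (l 16733552)))) (a (l 16737744) (b (a (l 16730688) (b (l 16726456) (l 16728752))) (b (l 16753792) (l 16734912))))) (b (a (b (l 3) (a (b (l 161228921719) (l 16721088)) (l 3))) (l 3)) (a (b (a (b (l 16723536) (l 16725784)) (l 175724491655)) (a (b (l 16728032) (l 16730352)) (b (l 16725080) (l 16727328)))) (b (a (l 156934002263) (l 3)) (a (l 136532908503) (l 174650730599))))))) (a (l 3) (l 3)))), by decide +kernel⟩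

def k7_pm_102 : ∃ t, chk3 f_pm_102 t 14 14 1 = true :=
  ⟨(b (a (a (l 16743608) (b (l 16748088) (l 16745672))) (a (b (l 16759192) (a (l 16748208) (l 16752568))) (b (a (l 16757480) (l 16752968)) (a (l 16759976) (b (l 16757472) (l 16759424)))))) (a (b (l 16746240) (l 16768624)) (b (a (l 16747432) (l 16750880)) (a (l 16747328) (l 16747536))))), by decide +kernel⟩

def k8_pm_102 : ∃ t, chk3 f_pm_102 t 30 14 1 = true :=
  ⟨(b (a (b (b (a (l 16702784) (l 16738336)) (l 16738344)) (b (a (l 16752552) (l 16746712)) (a (l 16755384) (l 16750160)))) (b (a (b (a (l 16733664) (l 16730912)) (l 16736456)) (b (a (l 16748840) (b (l 16723616) (l 16725944))) (a (l 16732072) (l 16729336)))) (a (b (a (l 16742080) (l 16738864)) (l 16744200)) (b (l 16734384) (a (l 16739760) (l 16736576)))))) (a (b (b (a (l 16757488) (l 16753320)) (l 16756896)) (l 16752528)) (b (a (b (l 16747496) (l 16751040)) (b (l 16741720) (l 16745112))) (a (l 16754368) (l 16749800))))), by decide +kernel⟩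

def k9_pm_102 : ∃ t, chk3 f_pm_102 t 31 28 1 = true :=
  ⟨(a (b (a (b (l 153175898439) (a (c (l 16747208) (l 16746968)) (l 142975345975))) (b (l 3) (a (l 146196556743) (l 3)))) (a (b (a (l 16730240) (b (l 16726200) (l 16728184))) (l 16732080)) (b (a (b (l 16722968) (l 16746144)) (l 144049098343)) (a (b (l 16727320) (l 16728824)) (b (a (l 16724880) (l 16723352)) (l 16728384)))))) (b (l 3) (a (b (a (l 145659710599) (l 3)) (b (c (l 141901613607) (l 142975358903)) (a (a (l 16723792) (l 16722304)) (a (l 16720688) (l 16718944))))) (l 3)))), by decide +kernel⟩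

def k10_pm_102 : ∃ t, chk3 f_pm_102 t 31 29 1 = true :=
  ⟨(a (a (b (b (b (l 16755784) (l 16736744)) (a (l 16740600) (l 16737744))) (b (b (l 16741784) (l 16743472)) (l 16745792))) (b (b (a (l 16741720) (l 16728584)) (a (l 16734976) (b (l 16731000) (l 16732880)))) (b (b (l 16735920) (l 16737512)) (b (l 16739376) (l 16740848))))) (b (a (b (a (b (a (l 16725760) (l 16724264)) (l 16726680)) (b (a (l 16722744) (l 16721240)) (a (l 16724704) (b (l 16722760) (l 16723696))))) (a (b (l 16728312) (l 16729880)) (b (l 16725912) (l 16727232)))) (b (a (b (a (b (l 16718968) (l 16720168)) (l 3)) (a (b (l 16721248) (l 16722232)) (b (l 16719584) (l 16720712)))) (a (c (l 131701062119) (l 130627323127)) (l 3))) (a (b (a (b (l 16723144) (l 16724104)) (b (l 16721712) (l 16722608))) (a (l 16725248) (b (l 16723584) (l 16724344)))) (b (a (b (l 16720144) (l 16721192)) (b (l 3) (l 16719552))) (a (b (l 16722096) (l 16723048)) (b (l 16720656) (l 16721608))))))) (b (a (a (b (l 16731720)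 (l 16733288)) (b (l 16728784) (l 16730576))) (a (b (l 16726168) (l 16748696)) (b (a (l 16724232) (b (l 16722512) (l 16723392))) (l 16725144)))) (a (a (b (l 16734896) (l 16736568)) (b (l 16732072) (l 16733840))) (a (b (l 16729448) (l 16730872)) (b (c (l 16748728) (l 16746688)) (l 16728352))))))), by decide +kernel⟩

def k11_pm_102 : ∃ t, chk3 f_pm_102 t 7 15 1 = true :=
  ⟨(a (a (b (l 16748664) (l 16751248)) (b (b (a (l 16749312) (l 16790768)) (l 16748224)) (l 16751048))) (b (a (b (a (b (l 16747472) (l 16746976)) (b (l 16754472) (l 16751656))) (l 16745624)) (a (b (b (a (l 16748840) (l 16743264)) (a (l 16751488) (l 16746264))) (l 16750288)) (b (a (b (l 16737560) (b (l 16739976) (l 16741488))) (b (b (a (l 16732744) (l 16729880)) (l 16732816)) (a (l 16736320) (l 16733648)))) (a (l 16743408) (b (b (l 16737040) (l 16737624)) (l 16738528)))))) (a (b (l 16746344) (l 16749200)) (a (b (l 16742792) (l 16744096)) (b (a (l 16745256) (l 16740032)) (a (l 16745016) (l 16740600))))))),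 by decide +kernel⟩

theorem s12_pm_102 : ∃ t, chk3 f_pm_102 t 31 14 1 = true := ex3_b k9_pm_102 k10_pm_102

theorem s13_pm_102 : ∃ t, chk3 f_pm_102 t 15 14 1 = true := ex3_a k8_pm_102 s12_pm_102

theorem s14_pm_102 : ∃ t, chk3 f_pm_102 t 7 14 1 = true := ex3_a k7_pm_102 s13_pm_102

theorem s15_pm_102 : ∃ t, chk3 f_pm_102 t 7 7 1 = true := ex3_b s14_pm_102 k11_pm_102

theorem s16_pm_102 : ∃ t, chk3 f_pm_102 t 7 6 1 = true := ex3_a k5_pm_102 k6_pm_102

theorem s17_pm_102 : ∃ t, chk3 f_pm_102 t 7 3 1 = true := ex3_b s16_pm_102 s15_pm_102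

theorem s18_pm_102 : ∃ t, chk3 f_pm_102 t 3 3 1 = true := ex3_a k4_pm_102 s17_pm_102

theorem s19_pm_102 : ∃ t, chk3 f_pm_102 t 3 1 1 = true := ex3_b k3_pm_102 s18_pm_102

theorem s20_pm_102 : ∃ t, chk3 f_pm_102 t 2 2 1 = true := ex3_a k0_pm_102 k1_pm_102

theorem s21_pm_102 : ∃ t, chk3 f_pm_102 t 2 1 1 = true := ex3_b s20_pm_102 k2_pm_102

theorem s22_pm_102 : ∃ t, chk3 f_pm_102 t 1 1 1 = true := ex3_a s21_pm_102 s19_pm_102

theorem c_pm_102 : CertB 536870912 536870912 0 536870912 587336777 62277027 3 eng mog cd1q1 cd0q2 pd0 false true false .npp 1 0 2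
    ndB1q1 ndB0q2 pcB0 Cut.none xt_pm_102 :=
  certB0 (fam := false) (s1 := true) (s2 := false) (a := 1) (b := 0) (c := 2) (cn := .npp) (n1 := ndB1q1) (n2 := ndB0q2) (pc := pcB0) (cut := Cut.none) (xt := xt_pm_102) (P1 := 536870912) (W1 := 536870912) (P2 := 0) (W2 := 536870912) (P3 := 587336777) (W3 := 62277027) (N0 := 3) (En := eng) (mo := mog) (C1 := cd1q1) (C2 := cd0q2) (C3 := pd0)
    rfl s22_pm_102

noncomputable def f_pm_112 : ℕ → ℕ → ℕ → ℕ → Bool := onCell 536870912 536870912 0 536870912 587336777 62277027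
    (rowB 3 eng mog cd1q1 cd0q2 pd1 2 false true false .dn 1 1 2 (qsf 536870912 536870912 0 536870912 1) ndB1q1 ndB0q2 pcB1 Cut.none Ext.none)

def k0_pm_112 : ∃ t, chk3 f_pm_112 t 1 1 1 = true :=
  ⟨(a (b (a (b (a (b (a (b (a (b (a (l 3) (l 175187610935)) (a (b (l 175187618487) (l 119889915255)) (b (l 92509494407) (l 16754800)))) (b (b (a (l 183777550407) (l 94656988871)) (a (l 93046370199) (l 16754352))) (l 16758176))) (a (b (l 16757920) (a (l 16758152) (l 16758008))) (b (a (l 16759504) (l 16759296)) (l 16756984)))) (b (a (b (l 16758136) (l 16760200)) (b (l 16760720) (l 16759144))) (a (b (l 16758304) (l 16752896)) (l 16751040)))) (b (a (a (b (l 16755088) (l 16749112)) (l 16747864)) (l 16738888)) (a (l 16734608) (b (l 16725328) (l 16716080))))) (b (b (a (b (a (l 16759856) (l 16755792)) (l 16752576)) (l 16742976)) (a (l 16741616) (l 16726200))) (b (a (l 16723664) (l 16708280)) (a (l 16705384) (l 16688936))))) (a (a (b (b (b (l 16741432) (l 16710464)) (l 16692064))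 (b (b (l 16670336) (l 16653616)) (l 16625704))) (b (b (l 16700360) (l 16676448)) (b (l 16646864) (l 16611528)))) (b (b (l 16676608) (a (l 16660888) (l 16647320))) (a (l 16680088) (l 16607048))))) (a (a (b (b (b (l 16727536) (l 16710072)) (l 16682680)) (b (b (l 16654656) (l 16634800)) (l 16598560))) (b (b (l 1) (l 1)) (l 1))) (l 1))) (b (a (b (a (a (l 16642648) (l 16549216)) (b (l 16561568) (l 16525296))) (a (b (l 16480896) (l 16432712)) (b (l 16488904) (l 16539488)))) (l 1)) (a (b (a (b (b (l 16399808) (l 16380192)) (l 16333208)) (a (l 16467912) (l 1))) (a (a (a (l 16268712) (l 16371456)) (l 128344865895)) (l 1))) (l 1)))) (l 1)), by decide +kernel⟩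

theorem c_pm_112 : CertB 536870912 536870912 0 536870912 587336777 62277027 3 eng mog cd1q1 cd0q2 pd1 false true false .dn 1 1 2
    ndB1q1 ndB0q2 pcB1 Cut.none Ext.none :=
  certB2 (fam := false) (s1 := true) (s2 := false) (a := 1) (b := 1) (c := 2) (cn := .dn) (n1 := ndB1q1) (n2 := ndB0q2) (pc := pcB1) (cut := Cut.none) (xt := Ext.none) (P1 := 536870912) (W1 := 536870912) (P2 := 0) (W2 := 536870912) (P3 := 587336777) (W3 := 62277027) (N0 := 3) (En := eng) (mo := mog) (C1 := cd1q1) (C2 := cd0q2) (C3 := pd1)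
    rfl (fun _ => rfl) k0_pm_112

noncomputable def cut_pm_202_a : Cut := Cut.of [[⟨0, 1, 0, 67108864⟩, ⟨1, 0, 0, 67108864⟩, ⟨2, 1, 0, 67108864⟩]]

noncomputable def f_pm_202_a : ℕ → ℕ → ℕ → ℕ → Bool := onCell 0 536870912 0 536870912 587336777 62277027
    (rowB 3 eng mog cd1q2a cd0q2 pd0 0 false true false .pp 2 0 2 (qsf 0 536870912 0 536870912 0) ndB1q2a ndB0q2 pcB0 cut_pm_202_a Ext.none)

def k0_pm_202_a : ∃ t, chk3 f_pm_202_a t 1 1 1 = true :=
  ⟨(a (l 3) (b (l 3) (b (l 3) (a (l 3) (b (l 3) (a (l 3) (l 6))))))), by decide +kernel⟩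

theorem c_pm_202_a : CertB 0 536870912 0 536870912 587336777 62277027 3 eng mog cd1q2a cd0q2 pd0 false true false .pp 2 0 2
    ndB1q2a ndB0q2 pcB0 cut_pm_202_a Ext.none :=
  certB0 (fam := false) (s1 := true) (s2 := false) (a := 2) (b := 0) (c := 2) (cn := .pp) (n1 := ndB1q2a) (n2 := ndB0q2) (pc := pcB0) (cut := cut_pm_202_a) (xt := Ext.none) (P1 := 0) (W1 := 536870912) (P2 := 0) (W2 := 536870912) (P3 := 587336777) (W3 := 62277027) (N0 := 3) (En := eng) (mo := mog) (C1 := cd1q2a) (C2 := cd0q2) (C3 := pd0)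
    rfl k0_pm_202_a

noncomputable def cut_pm_202_b : Cut := Cut.of [[⟨0, 1, 0, 67108864⟩, ⟨1, 0, 0, 67108864⟩, ⟨2, 1, 0, 67108864⟩]]

noncomputable def f_pm_202_b : ℕ → ℕ → ℕ → ℕ → Bool := onCell 1239849684 370763052 0 536870912 587336777 62277027
    (rowB 3 eng mog cd1q2b cd0q2 pd0 0 false true false .pp 2 0 2 (qsf 1239849684 370763052 0 536870912 0) ndB1q2b ndB0q2 pcB0 cut_pm_202_b Ext.none)

def k0_pm_202_b : ∃ t, chk3 f_pm_202_b t 1 1 1 = true :=
  ⟨(l 3), by decide +kernel⟩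

theorem c_pm_202_b : CertB 1239849684 370763052 0 536870912 587336777 62277027 3 eng mog cd1q2b cd0q2 pd0 false true false .pp 2 0 2
    ndB1q2b ndB0q2 pcB0 cut_pm_202_b Ext.none :=
  certB0 (fam := false) (s1 := true) (s2 := false) (a := 2) (b := 0) (c := 2) (cn := .pp) (n1 := ndB1q2b) (n2 := ndB0q2) (pc := pcB0) (cut := cut_pm_202_b) (xt := Ext.none) (P1 := 1239849684) (W1 := 370763052) (P2 := 0) (W2 := 536870912) (P3 := 587336777) (W3 := 62277027) (N0 := 3) (En := eng) (mo := mog) (C1 := cd1q2b) (C2 := cd0q2) (C3 := pd0)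
    rfl k0_pm_202_b

noncomputable def f_mm_001 : ℕ → ℕ → ℕ → ℕ → Bool := onCell 0 536870912 0 536870912 587336777 62277027
    (rowB 3 eng mog cd1q0 cd0q1 pd0 1 false false false .up 0 0 1 (qsf 0 536870912 536870912 536870912 0) ndB1q0 ndB0q1 pcB0 Cut.none Ext.none)

def k0_mm_001 : ∃ t, chk3 f_mm_001 t 1 1 1 = true :=
  ⟨(l 3), by decide +kernel⟩

theorem c_mm_001 : CertB 0 536870912 536870912 536870912 587336777 62277027 3 eng mog cd1q0 cd0q1 pd0 false false false .up 0 0 1
    ndB1q0 ndB0q1 pcB0 Cut.none Ext.none :=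
  certB1 (fam := false) (s1 := false) (s2 := false) (a := 0) (b := 0) (c := 1) (cn := .up) (n1 := ndB1q0) (n2 := ndB0q1) (pc := pcB0) (cut := Cut.none) (xt := Ext.none) (P1 := 0) (W1 := 536870912) (P2 := 536870912) (W2 := 536870912) (P3 := 587336777) (W3 := 62277027) (N0 := 3) (En := eng) (mo := mog) (C1 := cd1q0) (C2 := cd0q1) (C3 := pd0)
    rfl (fun _ => rfl) k0_mm_001

noncomputable def f_mm_011 : ℕ → ℕ → ℕ → ℕ → Bool := onCell 0 536870912 536870912 536870912 587336777 62277027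
    (rowB 3 eng mog cd1q0 cd0q1 pd1 1 false false false .pnn 0 1 1 (qsf 0 536870912 536870912 536870912 1) ndB1q0 ndB0q1 pcB1 Cut.none Ext.none)

def k0_mm_011 : ∃ t, chk3 f_mm_011 t 1 1 1 = true :=
  ⟨(l 5), by decide +kernel⟩

theorem c_mm_011 : CertB 0 536870912 536870912 536870912 587336777 62277027 3 eng mog cd1q0 cd0q1 pd1 false false false .pnn 0 1 1
    ndB1q0 ndB0q1 pcB1 Cut.none Ext.none :=
  certB1 (fam := false) (s1 := false) (s2 := false) (a := 0) (b := 1) (c := 1) (cn := .pnn) (n1 := ndB1q0) (n2 := ndB0q1) (pc := pcB1) (cut := Cut.none) (xt := Ext.none) (P1 := 0) (W1 := 536870912) (P2 := 536870912) (W2 := 536870912) (P3 := 587336777) (W3 := 62277027) (N0 := 3) (En := eng) (mo := mog) (C1 := cd1q0) (C2 := cd0q1) (C3 := pd1)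
    rfl (fun _ => rfl) k0_mm_011

noncomputable def f_mm_012 : ℕ → ℕ → ℕ → ℕ → Bool := onCell 0 536870912 0 536870912 587336777 62277027
    (rowB 3 eng mog cd1q0 cd0q2 pd1 0 false false false .pnp 0 1 2 (qsf 0 536870912 0 536870912 1) ndB1q0 ndB0q2 pcB1 Cut.none Ext.none)

def k0_mm_012 : ∃ t, chk3 f_mm_012 t 1 1 1 = true :=
  ⟨(l 5), by decide +kernel⟩

theorem c_mm_012 : CertB 0 536870912 0 536870912 587336777 62277027 3 eng mog cd1q0 cd0q2 pd1 false false false .pnp 0 1 2
    ndB1q0 ndB0q2 pcB1 Cut.none Ext.none :=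
  certB0 (fam := false) (s1 := false) (s2 := false) (a := 0) (b := 1) (c := 2) (cn := .pnp) (n1 := ndB1q0) (n2 := ndB0q2) (pc := pcB1) (cut := Cut.none) (xt := Ext.none) (P1 := 0) (W1 := 536870912) (P2 := 0) (W2 := 536870912) (P3 := 587336777) (W3 := 62277027) (N0 := 3) (En := eng) (mo := mog) (C1 := cd1q0) (C2 := cd0q2) (C3 := pd1)
    rfl k0_mm_012

noncomputable def f_mm_022 : ℕ → ℕ → ℕ → ℕ → Bool := onCell 0 536870912 0 536870912 587336777 62277027
    (rowB 3 eng mog cd1q0 cd0q2 pd2 0 false false false .pp 0 2 2 (qsf 0 536870912 0 536870912 2) ndB1q0 ndB0q2 pcB2 Cut.none Ext.none)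

def k0_mm_022 : ∃ t, chk3 f_mm_022 t 1 1 1 = true :=
  ⟨(l 5), by decide +kernel⟩

theorem c_mm_022 : CertB 0 536870912 0 536870912 587336777 62277027 3 eng mog cd1q0 cd0q2 pd2 false false false .pp 0 2 2
    ndB1q0 ndB0q2 pcB2 Cut.none Ext.none :=
  certB0 (fam := false) (s1 := false) (s2 := false) (a := 0) (b := 2) (c := 2) (cn := .pp) (n1 := ndB1q0) (n2 := ndB0q2) (pc := pcB2) (cut := Cut.none) (xt := Ext.none) (P1 := 0) (W1 := 536870912) (P2 := 0) (W2 := 536870912) (P3 := 587336777) (W3 := 62277027) (N0 := 3) (En := eng) (mo := mog) (C1 := cd1q0) (C2 := cd0q2) (C3 := pd2)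
    rfl k0_mm_022

noncomputable def f_mm_101 : ℕ → ℕ → ℕ → ℕ → Bool := onCell 536870912 536870912 536870912 536870912 587336777 62277027
    (rowB 3 eng mog cd1q1 cd0q1 pd0 0 false false false .npn 1 0 1 (qsf 536870912 536870912 536870912 536870912 0) ndB1q1 ndB0q1 pcB0 Cut.none Ext.none)

def k0_mm_101 : ∃ t, chk3 f_mm_101 t 1 1 1 = true :=
  ⟨(l 3), by decide +kernel⟩

theorem c_mm_101 : CertB 536870912 536870912 536870912 536870912 587336777 62277027 3 eng mog cd1q1 cd0q1 pd0 false false false .npn 1 0 1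
    ndB1q1 ndB0q1 pcB0 Cut.none Ext.none :=
  certB0 (fam := false) (s1 := false) (s2 := false) (a := 1) (b := 0) (c := 1) (cn := .npn) (n1 := ndB1q1) (n2 := ndB0q1) (pc := pcB0) (cut := Cut.none) (xt := Ext.none) (P1 := 536870912) (W1 := 536870912) (P2 := 536870912) (W2 := 536870912) (P3 := 587336777) (W3 := 62277027) (N0 := 3) (En := eng) (mo := mog) (C1 := cd1q1) (C2 := cd0q1) (C3 := pd0)
    rfl k0_mm_101

noncomputable def f_mm_102 : ℕ → ℕ → ℕ → ℕ → Bool := onCell 536870912 536870912 0 536870912 587336777 62277027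
    (rowB 3 eng mog cd1q1 cd0q2 pd0 0 false false false .npp 1 0 2 (qsf 536870912 536870912 0 536870912 0) ndB1q1 ndB0q2 pcB0 Cut.none Ext.none)

def k0_mm_102 : ∃ t, chk3 f_mm_102 t 1 1 1 = true :=
  ⟨(l 5), by decide +kernel⟩

theorem c_mm_102 : CertB 536870912 536870912 0 536870912 587336777 62277027 3 eng mog cd1q1 cd0q2 pd0 false false false .npp 1 0 2
    ndB1q1 ndB0q2 pcB0 Cut.none Ext.none :=
  certB0 (fam := false) (s1 := false) (s2 := false) (a := 1) (b := 0) (c := 2) (cn := .npp) (n1 := ndB1q1) (n2 := ndB0q2) (pc := pcB0) (cut := Cut.none) (xt := Ext.none) (P1 := 536870912) (W1 := 536870912) (P2 := 0) (W2 := 536870912) (P3 := 587336777) (W3 := 62277027) (N0 := 3) (En := eng) (mo := mog) (C1 := cd1q1) (C2 := cd0q2) (C3 := pd0)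
    rfl k0_mm_102

noncomputable def f_mm_112 : ℕ → ℕ → ℕ → ℕ → Bool := onCell 536870912 536870912 0 536870912 587336777 62277027
    (rowB 3 eng mog cd1q1 cd0q2 pd1 0 false false false .dn 1 1 2 (qsf 536870912 536870912 0 536870912 1) ndB1q1 ndB0q2 pcB1 Cut.none Ext.none)

def k0_mm_112 : ∃ t, chk3 f_mm_112 t 1 1 1 = true :=
  ⟨(l 5), by decide +kernel⟩

theorem c_mm_112 : CertB 536870912 536870912 0 536870912 587336777 62277027 3 eng mog cd1q1 cd0q2 pd1 false false false .dn 1 1 2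
    ndB1q1 ndB0q2 pcB1 Cut.none Ext.none :=
  certB0 (fam := false) (s1 := false) (s2 := false) (a := 1) (b := 1) (c := 2) (cn := .dn) (n1 := ndB1q1) (n2 := ndB0q2) (pc := pcB1) (cut := Cut.none) (xt := Ext.none) (P1 := 536870912) (W1 := 536870912) (P2 := 0) (W2 := 536870912) (P3 := 587336777) (W3 := 62277027) (N0 := 3) (En := eng) (mo := mog) (C1 := cd1q1) (C2 := cd0q2) (C3 := pd1)
    rfl k0_mm_112

noncomputable def f_mm_202_a : ℕ → ℕ → ℕ → ℕ → Bool := onCell 0 536870912 0 536870912 587336777 62277027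
    (rowB 3 eng mog cd1q2a cd0q2 pd0 0 false false false .pp 2 0 2 (qsf 0 536870912 0 536870912 0) ndB1q2a ndB0q2 pcB0 Cut.none Ext.none)

def k0_mm_202_a : ∃ t, chk3 f_mm_202_a t 1 1 1 = true :=
  ⟨(l 3), by decide +kernel⟩

theorem c_mm_202_a : CertB 0 536870912 0 536870912 587336777 62277027 3 eng mog cd1q2a cd0q2 pd0 false false false .pp 2 0 2
    ndB1q2a ndB0q2 pcB0 Cut.none Ext.none :=
  certB0 (fam := false) (s1 := false) (s2 := false) (a := 2) (b := 0) (c := 2) (cn := .pp) (n1 := ndB1q2a) (n2 := ndB0q2) (pc := pcB0) (cut := Cut.none) (xt := Ext.none) (P1 := 0) (W1 := 536870912) (P2 := 0) (W2 := 536870912) (P3 := 587336777) (W3 := 62277027) (N0 := 3) (En := eng) (mo := mog) (C1 := cd1q2a) (C2 := cd0q2) (C3 := pd0)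
    rfl k0_mm_202_a

noncomputable def f_mm_202_b : ℕ → ℕ → ℕ → ℕ → Bool := onCell 1239849684 370763052 0 536870912 587336777 62277027
    (rowB 3 eng mog cd1q2b cd0q2 pd0 0 false false false .pp 2 0 2 (qsf 1239849684 370763052 0 536870912 0) ndB1q2b ndB0q2 pcB0 Cut.none Ext.none)

def k0_mm_202_b : ∃ t, chk3 f_mm_202_b t 1 1 1 = true :=
  ⟨(l 3), by decide +kernel⟩

theorem c_mm_202_b : CertB 1239849684 370763052 0 536870912 587336777 62277027 3 eng mog cd1q2b cd0q2 pd0 false false false .pp 2 0 2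
    ndB1q2b ndB0q2 pcB0 Cut.none Ext.none :=
  certB0 (fam := false) (s1 := false) (s2 := false) (a := 2) (b := 0) (c := 2) (cn := .pp) (n1 := ndB1q2b) (n2 := ndB0q2) (pc := pcB0) (cut := Cut.none) (xt := Ext.none) (P1 := 1239849684) (W1 := 370763052) (P2 := 0) (W2 := 536870912) (P3 := 587336777) (W3 := 62277027) (N0 := 3) (En := eng) (mo := mog) (C1 := cd1q2b) (C2 := cd0q2) (C3 := pd0)
    rfl k0_mm_202_b

end Pool.Agent.Strip051.G.I5470_6050.Tab.C.BB10

namespace Pool.Agent.Strip051.G.I5470_6050.Tab.C.BB11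

open Pool.Agent.Strip051.PB Pool.Agent.Strip051.PB.T
open Pool.Agent.Strip051.G.I5470_6050.Tab

noncomputable def f_pp_001 : ℕ → ℕ → ℕ → ℕ → Bool := onCell 0 536870912 0 536870912 587336777 62277027
    (rowB 3 eng mog cd1q0 cd1q1 pd0 1 false true true .up 0 0 1 (qsf 0 536870912 536870912 536870912 0) ndB1q0 ndB1q1 pcB0 Cut.none Ext.none)

def k0_pp_001 : ∃ t, chk3 f_pp_001 t 1 1 1 = true :=
  ⟨(l 3), by decide +kernel⟩

theorem c_pp_001 : CertB 0 536870912 536870912 536870912 587336777 62277027 3 eng mog cd1q0 cd1q1 pd0 false true true .up 0 0 1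
    ndB1q0 ndB1q1 pcB0 Cut.none Ext.none :=
  certB1 (fam := false) (s1 := true) (s2 := true) (a := 0) (b := 0) (c := 1) (cn := .up) (n1 := ndB1q0) (n2 := ndB1q1) (pc := pcB0) (cut := Cut.none) (xt := Ext.none) (P1 := 0) (W1 := 536870912) (P2 := 536870912) (W2 := 536870912) (P3 := 587336777) (W3 := 62277027) (N0 := 3) (En := eng) (mo := mog) (C1 := cd1q0) (C2 := cd1q1) (C3 := pd0)
    rfl (fun _ => rfl) k0_pp_001

noncomputable def f_pp_011 : ℕ → ℕ → ℕ → ℕ → Bool := onCell 0 536870912 536870912 536870912 587336777 62277027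
    (rowB 3 eng mog cd1q0 cd1q1 pd1 0 false true true .pnn 0 1 1 (qsf 0 536870912 536870912 536870912 1) ndB1q0 ndB1q1 pcB1 Cut.none Ext.none)

def k0_pp_011 : ∃ t, chk3 f_pp_011 t 1 1 1 = true :=
  ⟨(a (l 3) (l 3)), by decide +kernel⟩

theorem c_pp_011 : CertB 0 536870912 536870912 536870912 587336777 62277027 3 eng mog cd1q0 cd1q1 pd1 false true true .pnn 0 1 1
    ndB1q0 ndB1q1 pcB1 Cut.none Ext.none :=
  certB0 (fam := false) (s1 := true) (s2 := true) (a := 0) (b := 1) (c := 1) (cn := .pnn) (n1 := ndB1q0) (n2 := ndB1q1) (pc := pcB1) (cut := Cut.none) (xt := Ext.none) (P1 := 0) (W1 := 536870912) (P2 := 536870912) (W2 := 536870912) (P3 := 587336777) (W3 := 62277027) (N0 := 3) (En := eng) (mo := mog) (C1 := cd1q0) (C2 := cd1q1) (C3 := pd1)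
    rfl k0_pp_011

noncomputable def cut_pp_012_a : Cut := Cut.of [[⟨0, 0, 0, 44739242⟩, ⟨1, 1, 0, 44739242⟩, ⟨2, 1, 0, 44739242⟩]]

noncomputable def f_pp_012_a : ℕ → ℕ → ℕ → ℕ → Bool := onCell 536870912 536870912 0 536870912 587336777 62277027
    (rowB 3 eng mog cd1q0 cd1q2a pd1 2 false true true .pnp 0 1 2 (qsf 0 536870912 0 536870912 1) ndB1q0 ndB1q2a pcB1 cut_pp_012_a Ext.none)

def k0_pp_012_a : ∃ t, chk3 f_pp_012_a t 2 2 1 = true :=
  ⟨(b (a (l 2) (a (a (a (l 2) (b (b (l 16759656) (l 63451403111)) (b (a (l 2) (b (l 16763752) (b (a (l 158007782007) (l 16756912)) (l 184851329367)))) (l 3)))) (b (b (l 16746624) (a (b (l 16761360) (l 16766280)) (b (l 16753280) (l 16759944)))) (b (a (b (l 16768280) (a (b (l 16761040) (a (l 149954718071) (l 16757000))) (l 16765320))) (b (l 16765248) (l 16768208))) (a (b (a (b (l 178408878503) (l 3)) (b (a (l 141901662039) (l 16757392)) (a (l 3) (l 163376493623)))) (l 3)) (b (a (b (l 16763424) (a (l 118279327159) (l 16757968)))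 (l 16766752)) (c (a (l 169818941735) (b (l 110763171399) (l 160155275751))) (a (l 178945747479) (b (l 97341381975) (l 164987105095))))))))) (b (a (a (b (l 16732552) (l 16747952)) (l 16730552)) (l 16714920)) (a (b (a (b (l 16758280) (l 16764128)) (b (l 16749328) (l 16756248))) (a (b (l 16768120) (a (b (l 16765440) (a (l 16770552) (l 16759488))) (l 16768040))) (b (l 16762688) (l 16767816)))) (a (b (l 16743080) (b (l 16774856) (l 16760904))) (b (l 16732568) (b (l 16743728) (l 16751288)))))))) (a (l 3) (a (l 3) (b (a (b (a (b (a (b (l 156934063511) (l 3)) (b (l 96804540679) (a (l 167671469335) (l 128479915687)))) (l 3)) (b (a (b (l 16767488) (l 16782536)) (l 16769240)) (a (b (a (l 162839633783) (l 120963726503)) (l 3)) (b (l 16762656) (a (l 157470927287) (l 109689440855)))))) (l 3)) (b (a (b (l 16767160) (a (l 16767648) (l 16770016))) (b (l 16758792) (l 16765912))) (a (b (a (a (l 162839641143) (l 131164254983)) (b (l 16764472) (l 107005098247))) (l 174650810295))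 (b (a (l 16769512) (l 16769904)) (a (b (l 99488909095) (l 154786583543)) (b (l 16767944) (l 16789016))))))) (a (l 3) (b (a (l 3) (b (a (l 3) (l 145122912807)) (l 3))) (l 3))))))), by decide +kernel⟩

def k1_pp_012_a : ∃ t, chk3 f_pp_012_a t 2 3 1 = true :=
  ⟨(l 3), by decide +kernel⟩

def k2_pp_012_a : ∃ t, chk3 f_pp_012_a t 6 2 1 = true :=
  ⟨(a (b (b (a (b (l 16684656) (l 16700360)) (b (l 16661096) (l 16675832))) (a (b (l 16715648) (l 16730944)) (b (l 16691016) (l 16706224)))) (b (a (b (a (b (l 16748320) (l 16756240)) (b (l 16736776) (l 16744880))) (a (a (l 16780280) (l 16765960)) (a (l 16760864) (l 16755088)))) (b (l 16743024) (a (b (l 16741544) (l 16750688)) (l 16754096)))) (a (b (b (a (a (b (l 16789616) (l 133311750775)) (b (l 16770992) (l 16789960))) (a (l 16771624) (l 16768112))) (a (a (l 3) (l 135996109655)) (a (b (l 16789968) (l 107005105591)) (l 16770976)))) (a (l 3) (b (a (l 3) (b (l 105931362263) (l 3))) (l 3)))) (b (a (b (l 16759912) (l 16768928))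 (b (l 16747072) (l 16757192))) (a (b (a (b (l 16769048) (l 105394489927)) (l 16772328)) (a (l 139754213895) (l 87677765879))) (b (l 16767080) (a (l 61371081623) (l 16772088)))))))) (b (b (a (b (l 16635920) (l 16650416)) (l 16617392)) (a (b (l 16685544) (l 16679296)) (b (l 16637840) (l 16672728)))) (b (b (a (l 16715592) (l 16687544)) (a (a (l 16718936) (l 16704688)) (a (l 16690360) (l 16676056)))) (a (b (a (b (l 16733112) (l 16743280)) (l 16744792)) (a (b (l 16754016) (l 16764496)) (b (l 16739664) (l 16750680)))) (b (a (l 16709144) (l 16694536)) (a (b (l 16725016) (l 16735984)) (b (l 16710088) (l 16721088)))))))), by decide +kernel⟩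

def k3_pp_012_a : ∃ t, chk3 f_pp_012_a t 6 3 1 = true :=
  ⟨(b (a (b (a (l 3) (b (b (a (l 3) (a (l 137606727607) (l 78014085623))) (l 3)) (l 3))) (l 3)) (b (a (b (a (b (a (l 16770744) (l 16770656)) (a (l 144049174903) (l 16791648))) (b (l 16761640) (l 16792000))) (a (l 3) (b (a (l 147807267031) (l 16790536)) (l 210621137319)))) (b (a (b (l 16747264) (l 16758600)) (b (l 16732312) (l 16743816))) (a (b (l 16790000) (a (l 84456548375) (l 16771240))) (b (l 16755432) (l 16766472))))) (a (l 3) (b (a (b (a (l 3) (l 172503334983)) (l 3)) (b (a (l 74792863895) (l 16772304)) (a (l 3) (l 142975453719)))) (l 3))))) (l 3)), by decide +kernel⟩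

def k4_pp_012_a : ∃ t, chk3 f_pp_012_a t 7 2 1 = true :=
  ⟨(b (a (b (a (l 16591920) (l 16567768)) (a (b (l 16611000) (l 16645576)) (b (l 16585456) (l 16598520)))) (a (b (l 16546000) (l 16590136)) (b (l 16527480) (l 16550128)))) (a (b (a (b (a (l 16645728) (l 16632168)) (a (l 16661904) (l 16648072))) (b (a (l 16619040) (l 16606416)) (a (l 16634720) (l 16622064)))) (a (b (a (l 16680056) (l 16707824)) (a (l 16700696) (b (l 16680800) (l 16691328)))) (b (a (l 16652192) (l 16639304)) (a (l 16671936) (l 16658728))))) (a (b (b (l 16589304) (l 16646912)) (b (l 16669520) (a (l 16646416) (l 16634928)))) (b (b (l 16569688) (l 16584776)) (b (a (l 16606232) (l 16595392)) (a (l 16623624) (l 16612120))))))), by decide +kernel⟩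

def k5_pp_012_a : ∃ t, chk3 f_pp_012_a t 14 3 1 = true :=
  ⟨(b (b (a (b (a (b (l 16717256) (l 16728688)) (l 16707904)) (a (b (l 16740344) (l 16751984)) (b (l 16725152) (l 16736832)))) (b (a (l 16693384) (l 16679696)) (a (b (l 16710376) (l 16721928)) (l 16701792)))) (a (b (a (b (l 16784256) (a (l 67813533271) (l 16770568))) (a (l 16757840) (l 16771240))) (a (b (a (b (l 195588787671) (l 3)) (b (l 16793448) (l 188609462471))) (l 3)) (b (a (l 40433113975) (l 16767104)) (a (b (l 184851361879) (l 3)) (b (l 16772872) (l 127406199367)))))) (b (a (b (l 16733304) (l 16744656)) (b (l 16718488) (l 16729808))) (a (b (l 16777024) (a (l 16770352) (l 16763384))) (b (l 16761968) (l 16783600)))))) (b (a (b (a (l 3) (b (a (l 3) (l 222969212039)) (l 3))) (l 3)) (b (a (b (a (b (l 106468235463) (l 212768655143)) (b (l 16771216) (a (l 125258708519) (l 16773296)))) (a (l 3) (b (a (l 226190429463) (l 207936811335)) (l 3)))) (b (a (l 16767080) (l 16759672)) (a (b (a (l 101099513607)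 (l 16773032)) (a (l 183240755255) (b (l 16773608) (l 154249737847)))) (b (l 16768136) (a (l 16774256) (l 16771888)))))) (a (l 3) (b (a (b (l 200420646615) (l 3)) (b (a (l 156934101927) (l 16785840)) (l 201494378583))) (l 3))))) (l 3))), by decide +kernel⟩

def k6_pp_012_a : ∃ t, chk3 f_pp_012_a t 30 3 1 = true :=
  ⟨(b (b (b (a (l 16666616) (l 16654192)) (a (l 16687856) (l 16674568))) (b (a (l 16709520) (l 16695576)) (a (b (l 16726224) (l 16737216)) (b (l 16711704) (l 16722704))))) (b (b (b (a (l 16748432) (l 16754768)) (a (a (b (l 16760712) (l 16766448)) (l 16756120)) (a (l 16748656) (l 16741000)))) (a (b (a (b (l 16772216) (a (l 87677747463) (l 16776232))) (l 16778144)) (a (b (a (l 3) (l 174113964631)) (l 3)) (b (a (l 16788224) (l 16774280)) (a (l 205252471991) (l 114521292439))))) (a (b (l 16759880) (b (l 16768232) (l 16784328))) (b (l 16751904) (l 16762968))))) (b (a (l 3) (b (a (b (a (l 183240761927) (l 47412426423)) (a (l 3) (l 194515054359))) (b (l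 16771312) (a (b (l 16782208) (l 121500616055)) (c (l 16785480) (l 16785280))))) (a (l 3) (b (a (l 3) (b (l 91972711815) (l 177872053863))) (l 3))))) (l 3)))), by decide +kernel⟩

def k7_pp_012_a : ∃ t, chk3 f_pp_012_a t 31 3 1 = true :=
  ⟨(a (b (b (b (l 16642000) (l 16661568)) (b (l 16681920) (l 16724096))) (b (b (b (l 16739800) (a (l 16733152) (l 16725376))) (a (b (l 16743928) (l 16754896)) (b (l 16735960) (b (l 16744096) (l 16749560))))) (a (b (a (b (l 16773264) (b (b (l 16775048) (l 68350387431)) (l 184851376583))) (b (l 16766568) (b (b (l 16770976) (l 16773848)) (b (l 51707385655) (a (l 146733538071) (l 102173254983)))))) (l 3)) (b (b (b (l 16760296) (a (l 16762624) (l 16758536))) (b (a (l 16768320) (l 16764224)) (b (a (l 16772640) (l 16768536)) (a (a (l 16781752) (l 16774504)) (l 16771424))))) (b (b (a (b (a (l 98415162615) (l 6)) (l 6)) (l 6)) (l 6)) (l 3)))))) (b (b (b (l 16629584) (l 16648232)) (b (l 16667936) (l 16709920))) (b (b (b (l 16703736)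 (a (l 16717408) (l 16709736))) (a (b (l 16738536) (a (l 16740808) (l 16736784))) (b (b (l 16717416) (l 16743808)) (a (l 16732776) (l 16728784))))) (b (b (a (b (l 16746928) (a (l 16754448) (l 16750352))) (a (b (l 16740832) (l 16746256)) (b (l 16736776) (l 6)))) (a (b (a (l 16760120) (l 6)) (l 6)) (l 6))) (l 6))))), by decide +kernel⟩

theorem s8_pp_012_a : ∃ t, chk3 f_pp_012_a t 15 3 1 = true := ex3_a k6_pp_012_a k7_pp_012_a

theorem s9_pp_012_a : ∃ t, chk3 f_pp_012_a t 7 3 1 = true := ex3_a k5_pp_012_a s8_pp_012_a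

theorem s10_pp_012_a : ∃ t, chk3 f_pp_012_a t 7 1 1 = true := ex3_b k4_pp_012_a s9_pp_012_a

theorem s11_pp_012_a : ∃ t, chk3 f_pp_012_a t 6 1 1 = true := ex3_b k2_pp_012_a k3_pp_012_a

theorem s12_pp_012_a : ∃ t, chk3 f_pp_012_a t 3 1 1 = true := ex3_a s11_pp_012_a s10_pp_012_a

theorem s13_pp_012_a : ∃ t, chk3 f_pp_012_a t 2 1 1 = true := ex3_b k0_pp_012_a k1_pp_012_a

theorem s14_pp_012_a : ∃ t, chk3 f_pp_012_a t 1 1 1 = true := ex3_a s13_pp_012_a s12_pp_012_a

theorem c_pp_012_a : CertB 0 536870912 0 536870912 587336777 62277027 3 eng mog cd1q0 cd1q2a pd1 false true true .pnp 0 1 2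
    ndB1q0 ndB1q2a pcB1 cut_pp_012_a Ext.none :=
  certB2 (fam := false) (s1 := true) (s2 := true) (a := 0) (b := 1) (c := 2) (cn := .pnp) (n1 := ndB1q0) (n2 := ndB1q2a) (pc := pcB1) (cut := cut_pp_012_a) (xt := Ext.none) (P1 := 0) (W1 := 536870912) (P2 := 0) (W2 := 536870912) (P3 := 587336777) (W3 := 62277027) (N0 := 3) (En := eng) (mo := mog) (C1 := cd1q0) (C2 := cd1q2a) (C3 := pd1)
    rfl (fun _ => rfl) s14_pp_012_a

noncomputable def cut_pp_012_b : Cut := Cut.of [[⟨0, 0, 0, 44739242⟩, ⟨1, 1, 0, 44739242⟩, ⟨2, 1, 0, 44739242⟩]]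

noncomputable def f_pp_012_b : ℕ → ℕ → ℕ → ℕ → Bool := onCell 536870912 536870912 1239849684 370763052 587336777 62277027
    (rowB 3 eng mog cd1q0 cd1q2b pd1 2 false true true .pnp 0 1 2 (qsf 0 536870912 1239849684 370763052 1) ndB1q0 ndB1q2b pcB1 cut_pp_012_b Ext.none)

def k0_pp_012_b : ∃ t, chk3 f_pp_012_b t 1 1 1 = true :=
  ⟨(b (a (a (l 2) (a (b (b (a (l 119822969847) (l 16735520)) (l 2)) (l 2)) (b (b (l 16745832) (l 16698216)) (a (l 2) (l 16688848))))) (a (a (b (a (b (l 16668632) (l 16657816)) (b (l 16643104) (l 16629040))) (a (l 16657736) (l 16623936))) (b (a (b (l 16616000) (l 16597672)) (b (l 16588288) (l 16564984))) (a (l 16588224) (l 16549648)))) (a (b (b (a (l 16560648) (l 16533872)) (l 16598464)) (a (l 16509584) (l 16467912))) (b (a (b (l 16508552) (l 16464520)) (b (l 16484424) (l 16430976))) (a (l 16424984) (l 16380448)))))) (a (l 2) (a (a (l 2) (b (a (l 16607240) (l 16564144)) (l 2))) (a (b (l 16493688) (l 16541272)) (b (a (l 16418448) (l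 16364080)) (l 16428240)))))), by decide +kernel⟩

theorem c_pp_012_b : CertB 0 536870912 1239849684 370763052 587336777 62277027 3 eng mog cd1q0 cd1q2b pd1 false true true .pnp 0 1 2
    ndB1q0 ndB1q2b pcB1 cut_pp_012_b Ext.none :=
  certB2 (fam := false) (s1 := true) (s2 := true) (a := 0) (b := 1) (c := 2) (cn := .pnp) (n1 := ndB1q0) (n2 := ndB1q2b) (pc := pcB1) (cut := cut_pp_012_b) (xt := Ext.none) (P1 := 0) (W1 := 536870912) (P2 := 1239849684) (W2 := 370763052) (P3 := 587336777) (W3 := 62277027) (N0 := 3) (En := eng) (mo := mog) (C1 := cd1q0) (C2 := cd1q2b) (C3 := pd1)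
    rfl (fun _ => rfl) k0_pp_012_b

noncomputable def cut_pp_022_a : Cut := Cut.of [[⟨0, 0, 0, 67108864⟩, ⟨1, 1, 0, 67108864⟩, ⟨2, 1, 0, 67108864⟩]]

noncomputable def f_pp_022_a : ℕ → ℕ → ℕ → ℕ → Bool := onCell 1073741824 536870912 0 536870912 587336777 62277027
    (rowB 3 eng mog cd1q0 cd1q2a pd2 2 false true true .pp 0 2 2 (qsf 0 536870912 0 536870912 2) ndB1q0 ndB1q2a pcB2 cut_pp_022_a Ext.none)

def k0_pp_022_a : ∃ t, chk3 f_pp_022_a t 2 2 1 = true :=
  ⟨(a (b (a (a (b (l 16501216) (l 16565432)) (b (l 16492952) (l 16553888))) (b (l 16546088) (a (l 16498552) (b (l 16480344) (c (l 16489104) (l 16485072)))))) (a (b (a (c (l 16614304) (l 16594800)) (a (l 16561128) (l 16531776))) (a (a (b (l 16579640) (l 16617504)) (b (l 16570584) (l 16586576))) (b (a (l 16561032) (l 16551520)) (a (l 16576464) (l 16566040))))) (b (a (b (l 16502720) (l 16524424)) (b (a (l 16500368) (l 16491400)) (a (l 16510104) (l 16500136)))) (a (b (a (l 16541608) (l 16531304)) (a (l 16555112)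 (l 16543704))) (b (a (l 16520632) (b (l 16507112) (l 16512000))) (a (c (l 16535880) (l 16526800)) (c (l 16524320) (b (l 16511280) (l 16516008))))))))) (a (b (b (a (l 115997078119) (l 1)) (a (b (a (l 16469336) (l 16461600)) (l 67678676359)) (l 1))) (a (b (b (a (l 16482096) (l 16472472)) (c (l 16488904) (l 63920612903))) (a (b (b (l 16496048) (l 28487168071)) (c (l 16512360) (l 139619463111))) (l 1))) (l 1))) (l 1))), by decide +kernel⟩

def k1_pp_022_a : ∃ t, chk3 f_pp_022_a t 2 3 1 = true :=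
  ⟨(a (a (b (a (a (b (b (c (l 16614408) (l 16614112)) (b (l 16628672) (l 16638624))) (b (l 16653536) (a (l 16675168) (l 16670672)))) (b (b (l 16603808) (l 16622320)) (b (l 16641520) (l 16682264)))) (b (b (a (l 16592904) (l 16581392)) (a (b (l 16605784) (l 16614648)) (l 16597496))) (b (a (a (l 16631544) (l 16624640)) (b (l 16609704) (l 16617992))) (a (a (l 16671120) (l 16642424)) (b (l 16626328) (l 16634400)))))) (a (b (b (a (a (b (l 16690120) (l 16700192)) (l 16711568)) (a (l 16685144) (l 16687496))) (l 6)) (l 6)) (a (b (b (b (l 16670224) (a (l 16673168) (l 16664248))) (l 6)) (l 6)) (b (a (b (b (l 16646848) (l 16665568)) (l 6)) (b (b (l 16637968) (l 55867891751)) (b (l 16652568) (l 1)))) (l 1))))) (b (b (a (b (a (l 16569288) (c (l 16560352) (l 16552064))) (a (b (l 16580264) (l 16587728)) (b (l 16566536) (c (l 16577248) (l 16568504))))) (b (a (c (l 16547944) (b (l 16535072) (l 16540768))) (c (l 54257049863) (b (l 39224618919) (l 23655371127)))) (a (b (c (l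 16556968) (l 54793927783)) (c (l 16563000) (l 32245362135))) (l 1)))) (a (b (a (b (l 16595120) (l 16602584)) (b (c (l 16583976) (l 16574960)) (a (l 16590512) (l 16582208)))) (a (b (a (l 16614184) (l 16605824)) (a (l 16621544) (l 16612704))) (b (a (l 16597264) (l 1)) (l 1)))) (b (a (b (c (l 16568904) (l 16557840)) (l 1)) (l 1)) (l 1)))) (b (b (a (a (b (a (l 16628832) (l 16619464)) (b (l 16629384) (l 1))) (l 1)) (l 1)) (l 1)) (l 1)))) (b (l 1) (l 1))), by decide +kernel⟩

def k2_pp_022_a : ∃ t, chk3 f_pp_022_a t 3 1 1 = true :=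
  ⟨(l 1), by decide +kernel⟩

theorem s3_pp_022_a : ∃ t, chk3 f_pp_022_a t 2 1 1 = true := ex3_b k0_pp_022_a k1_pp_022_a

theorem s4_pp_022_a : ∃ t, chk3 f_pp_022_a t 1 1 1 = true := ex3_a s3_pp_022_a k2_pp_022_a

theorem c_pp_022_a : CertB 0 536870912 0 536870912 587336777 62277027 3 eng mog cd1q0 cd1q2a pd2 false true true .pp 0 2 2
    ndB1q0 ndB1q2a pcB2 cut_pp_022_a Ext.none :=
  certB2 (fam := false) (s1 := true) (s2 := true) (a := 0) (b := 2) (c := 2) (cn := .pp) (n1 := ndB1q0) (n2 := ndB1q2a) (pc := pcB2) (cut := cut_pp_022_a) (xt := Ext.none) (P1 := 0) (W1 := 536870912) (P2 := 0) (W2 := 536870912) (P3 := 587336777) (W3 := 62277027) (N0 := 3) (En := eng) (mo := mog) (C1 := cd1q0) (C2 := cd1q2a) (C3 := pd2)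
    rfl (fun _ => rfl) s4_pp_022_a

noncomputable def cut_pp_022_b : Cut := Cut.of [[⟨0, 0, 0, 67108864⟩, ⟨1, 1, 0, 67108864⟩, ⟨2, 1, 0, 67108864⟩]]

noncomputable def f_pp_022_b : ℕ → ℕ → ℕ → ℕ → Bool := onCell 1073741824 536870912 1239849684 370763052 587336777 62277027
    (rowB 3 eng mog cd1q0 cd1q2b pd2 2 false true true .pp 0 2 2 (qsf 0 536870912 1239849684 370763052 2) ndB1q0 ndB1q2b pcB2 cut_pp_022_b Ext.none)

def k0_pp_022_b : ∃ t, chk3 f_pp_022_b t 1 1 1 = true :=
  ⟨(a (b (a (b (b (a (a (l 16457616) (l 16450696)) (l 16562576)) (a (a (l 16397832) (l 16389112)) (l 16392600))) (a (b (l 16348008) (l 16317784)) (b (l 16319688) (l 16282440)))) (b (a (b (a (l 16420968) (a (l 16413128) (l 228739835655))) (a (l 16349960) (l 16357864))) (b (a (l 403222852247) (l 1)) (a (l 257193829655) (l 252362031559)))) (a (a (l 16270336) (l 16355128)) (a (l 16313688) (b (l 16310200) (l 16205344)))))) (a (b (a (l 16405328) (l 16256504)) (a (l 16323968) (l 16268096))) (a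 (b (a (l 16216272) (l 16187888)) (l 16206872)) (b (l 16222320) (l 16137072))))) (b (a (b (l 1) (a (b (l 287795325975) (l 16210232)) (a (l 321081246039) (l 1)))) (l 1)) (a (a (b (b (l 16158016) (l 16102424)) (l 16016512)) (b (a (l 16120024) (l 318933609575)) (l 16071144))) (a (b (l 372620766263) (l 16143432)) (b (l 1) (l 404296253255)))))), by decide +kernel⟩

theorem c_pp_022_b : CertB 0 536870912 1239849684 370763052 587336777 62277027 3 eng mog cd1q0 cd1q2b pd2 false true true .pp 0 2 2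
    ndB1q0 ndB1q2b pcB2 cut_pp_022_b Ext.none :=
  certB2 (fam := false) (s1 := true) (s2 := true) (a := 0) (b := 2) (c := 2) (cn := .pp) (n1 := ndB1q0) (n2 := ndB1q2b) (pc := pcB2) (cut := cut_pp_022_b) (xt := Ext.none) (P1 := 0) (W1 := 536870912) (P2 := 1239849684) (W2 := 370763052) (P3 := 587336777) (W3 := 62277027) (N0 := 3) (En := eng) (mo := mog) (C1 := cd1q0) (C2 := cd1q2b) (C3 := pd2)
    rfl (fun _ => rfl) k0_pp_022_b

noncomputable def f_pp_023 : ℕ → ℕ → ℕ → ℕ → Bool := onCell 0 536870912 1073741824 536870912 587336777 62277027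
    (rowB 3 eng mog cd1q0 cd1q3 pd2 1 false true true .up 0 2 3 (qsf 0 536870912 1610612736 536870912 2) ndB1q0 ndB1q3 pcB2 Cut.none Ext.none)

def k0_pp_023 : ∃ t, chk3 f_pp_023 t 1 1 1 = true :=
  ⟨(b (a (b (l 1) (a (l 1) (b (l 1) (l 16193384)))) (b (a (l 188474754615) (l 229277008183)) (a (b (l 16217992) (l 16190160)) (b (l 16318944) (l 16361520))))) (b (a (a (b (l 1) (l 270615674183)) (l 240013871719)) (a (b (l 16155584) (l 16250048)) (l 16514152))) (a (a (b (l 320544652455) (l 16170256)) (b (l 16057904) (l 16288136))) (a (b (l 16410520) (l 16522928)) (l 16795224))))), by decide +kernel⟩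

theorem c_pp_023 : CertB 0 536870912 1610612736 536870912 587336777 62277027 3 eng mog cd1q0 cd1q3 pd2 false true true .up 0 2 3
    ndB1q0 ndB1q3 pcB2 Cut.none Ext.none :=
  certB1 (fam := false) (s1 := true) (s2 := true) (a := 0) (b := 2) (c := 3) (cn := .up) (n1 := ndB1q0) (n2 := ndB1q3) (pc := pcB2) (cut := Cut.none) (xt := Ext.none) (P1 := 0) (W1 := 536870912) (P2 := 1610612736) (W2 := 536870912) (P3 := 587336777) (W3 := 62277027) (N0 := 3) (En := eng) (mo := mog) (C1 := cd1q0) (C2 := cd1q3) (C3 := pd2)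
    rfl (fun _ => rfl) k0_pp_023

noncomputable def f_pp_033 : ℕ → ℕ → ℕ → ℕ → Bool := onCell 0 536870912 1610612736 536870912 587336777 62277027
    (rowB 3 eng mog cd1q0 cd1q3 pd3 1 false true true .pnn 0 3 3 (qsf 0 536870912 1610612736 536870912 3) ndB1q0 ndB1q3 pcB3 Cut.none Ext.none)

def k0_pp_033 : ∃ t, chk3 f_pp_033 t 1 1 1 = true :=
  ⟨(a (b (b (b (a (l 16191096) (l 16414736)) (a (l 16315552) (l 16485104))) (b (a (l 16412888) (l 16537248)) (l 4))) (b (l 4) (a (l 4) (a (b (l 4) (l 2)) (l 2))))) (b (b (b (l 16641536) (l 16666912)) (a (b (l 16641736) (l 4)) (a (b (l 16702312) (l 2)) (l 2)))) (a (b (a (b (l 4) (l 2)) (l 2)) (l 2)) (l 2)))), by decide +kernel⟩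

theorem c_pp_033 : CertB 0 536870912 1610612736 536870912 587336777 62277027 3 eng mog cd1q0 cd1q3 pd3 false true true .pnn 0 3 3
    ndB1q0 ndB1q3 pcB3 Cut.none Ext.none :=
  certB1 (fam := false) (s1 := true) (s2 := true) (a := 0) (b := 3) (c := 3) (cn := .pnn) (n1 := ndB1q0) (n2 := ndB1q3) (pc := pcB3) (cut := Cut.none) (xt := Ext.none) (P1 := 0) (W1 := 536870912) (P2 := 1610612736) (W2 := 536870912) (P3 := 587336777) (W3 := 62277027) (N0 := 3) (En := eng) (mo := mog) (C1 := cd1q0) (C2 := cd1q3) (C3 := pd3)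
    rfl (fun _ => rfl) k0_pp_033

noncomputable def f_pp_101 : ℕ → ℕ → ℕ → ℕ → Bool := onCell 536870912 536870912 536870912 536870912 587336777 62277027
    (rowB 3 eng mog cd1q1 cd1q1 pd0 0 false true true .npn 1 0 1 (qsf 536870912 536870912 536870912 536870912 0) ndB1q1 ndB1q1 pcB0 Cut.none Ext.none)

def k0_pp_101 : ∃ t, chk3 f_pp_101 t 1 1 1 = true :=
  ⟨(l 3), by decide +kernel⟩

theorem c_pp_101 : CertB 536870912 536870912 536870912 536870912 587336777 62277027 3 eng mog cd1q1 cd1q1 pd0 false true true .npn 1 0 1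
    ndB1q1 ndB1q1 pcB0 Cut.none Ext.none :=
  certB0 (fam := false) (s1 := true) (s2 := true) (a := 1) (b := 0) (c := 1) (cn := .npn) (n1 := ndB1q1) (n2 := ndB1q1) (pc := pcB0) (cut := Cut.none) (xt := Ext.none) (P1 := 536870912) (W1 := 536870912) (P2 := 536870912) (W2 := 536870912) (P3 := 587336777) (W3 := 62277027) (N0 := 3) (En := eng) (mo := mog) (C1 := cd1q1) (C2 := cd1q1) (C3 := pd0)
    rfl k0_pp_101

noncomputable def f_pp_102_a : ℕ → ℕ → ℕ → ℕ → Bool := onCell 0 536870912 0 536870912 587336777 62277027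
    (rowB 3 eng mog cd1q1 cd1q2a pd0 2 false true true .npp 1 0 2 (qsf 536870912 536870912 0 536870912 0) ndB1q1 ndB1q2a pcB0 Cut.none Ext.none)

def k0_pp_102_a : ∃ t, chk3 f_pp_102_a t 1 1 1 = true :=
  ⟨(a (a (l 3) (l 3)) (l 3)), by decide +kernel⟩

theorem c_pp_102_a : CertB 536870912 536870912 0 536870912 587336777 62277027 3 eng mog cd1q1 cd1q2a pd0 false true true .npp 1 0 2
    ndB1q1 ndB1q2a pcB0 Cut.none Ext.none :=
  certB2 (fam := false) (s1 := true) (s2 := true) (a := 1) (b := 0) (c := 2) (cn := .npp) (n1 := ndB1q1) (n2 := ndB1q2a) (pc := pcB0) (cut := Cut.none) (xt := Ext.none) (P1 := 536870912) (W1 := 536870912) (P2 := 0) (W2 := 536870912) (P3 := 587336777) (W3 := 62277027) (N0 := 3) (En := eng) (mo := mog) (C1 := cd1q1) (C2 := cd1q2a) (C3 := pd0)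
    rfl (fun _ => rfl) k0_pp_102_a

noncomputable def f_pp_102_b : ℕ → ℕ → ℕ → ℕ → Bool := onCell 0 536870912 1239849684 370763052 587336777 62277027
    (rowB 3 eng mog cd1q1 cd1q2b pd0 2 false true true .npp 1 0 2 (qsf 536870912 536870912 1239849684 370763052 0) ndB1q1 ndB1q2b pcB0 Cut.none Ext.none)

def k0_pp_102_b : ∃ t, chk3 f_pp_102_b t 1 1 1 = true :=
  ⟨(a (l 3) (b (l 3) (l 3))), by decide +kernel⟩

theorem c_pp_102_b : CertB 536870912 536870912 1239849684 370763052 587336777 62277027 3 eng mog cd1q1 cd1q2b pd0 false true true .npp 1 0 2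
    ndB1q1 ndB1q2b pcB0 Cut.none Ext.none :=
  certB2 (fam := false) (s1 := true) (s2 := true) (a := 1) (b := 0) (c := 2) (cn := .npp) (n1 := ndB1q1) (n2 := ndB1q2b) (pc := pcB0) (cut := Cut.none) (xt := Ext.none) (P1 := 536870912) (W1 := 536870912) (P2 := 1239849684) (W2 := 370763052) (P3 := 587336777) (W3 := 62277027) (N0 := 3) (En := eng) (mo := mog) (C1 := cd1q1) (C2 := cd1q2b) (C3 := pd0)
    rfl (fun _ => rfl) k0_pp_102_b

noncomputable def f_pp_112_a : ℕ → ℕ → ℕ → ℕ → Bool := onCell 536870912 536870912 0 536870912 587336777 62277027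
    (rowB 3 eng mog cd1q1 cd1q2a pd1 0 false true true .dn 1 1 2 (qsf 536870912 536870912 0 536870912 1) ndB1q1 ndB1q2a pcB1 Cut.none Ext.none)

def k0_pp_112_a : ∃ t, chk3 f_pp_112_a t 1 1 1 = true :=
  ⟨(a (b (b (a (a (b (a (b (a (b (l 16752720) (l 16756856)) (b (l 16758072) (l 16760128))) (a (b (l 16759048) (l 16758144)) (b (l 16758960) (a (b (l 16756288) (l 88214538631)) (b (l 97341343047) (a (l 146733470679) (l 178945718039))))))) (b (a (b (l 16760816) (l 16759504)) (b (l 16759736) (a (l 104320658951) (b (l 16751488) (l 174113881559))))) (a (b (a (l 92509501495) (b (l 16741288) (l 167671452631))) (a (b (a (l 151565308231) (l 182166942583)) (l 3)) (l 3))) (b (a (b (a (l 158544629191) (l 188609392343)) (l 3)) (l 3)) (l 3))))) (a (b (a (b (a (b (l 16755744) (a (l 16752856) (l 82845828759))) (a (b (l 16753064) (l 142975375047)) (b (l 90362021303) (l 176261364951)))) (a (b (b (a (l 97341342631) (l 170892659191)) (l 175724494423)) (l 3)) (l 3))) (b (a (b (b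 (l 135996052855) (l 177335106359)) (l 3)) (l 3)) (l 3))) (l 3)) (l 3))) (b (a (b (a (b (a (l 110226242647) (b (l 16743112) (l 178408868711))) (a (b (l 176261385623) (l 3)) (l 3))) (b (a (b (l 180556351847) (l 3)) (l 3)) (l 3))) (l 3)) (l 3)) (l 3))) (l 3)) (l 3)) (l 3)) (l 1)), by decide +kernel⟩

theorem c_pp_112_a : CertB 536870912 536870912 0 536870912 587336777 62277027 3 eng mog cd1q1 cd1q2a pd1 false true true .dn 1 1 2
    ndB1q1 ndB1q2a pcB1 Cut.none Ext.none :=
  certB0 (fam := false) (s1 := true) (s2 := true) (a := 1) (b := 1) (c := 2) (cn := .dn) (n1 := ndB1q1) (n2 := ndB1q2a) (pc := pcB1) (cut := Cut.none) (xt := Ext.none) (P1 := 536870912) (W1 := 536870912) (P2 := 0) (W2 := 536870912) (P3 := 587336777) (W3 := 62277027) (N0 := 3) (En := eng) (mo := mog) (C1 := cd1q1) (C2 := cd1q2a) (C3 := pd1)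
    rfl k0_pp_112_a

noncomputable def f_pp_112_b : ℕ → ℕ → ℕ → ℕ → Bool := onCell 536870912 536870912 1239849684 370763052 587336777 62277027
    (rowB 3 eng mog cd1q1 cd1q2b pd1 2 false true true .dn 1 1 2 (qsf 536870912 536870912 1239849684 370763052 1) ndB1q1 ndB1q2b pcB1 Cut.none Ext.none)

def k0_pp_112_b : ∃ t, chk3 f_pp_112_b t 1 1 1 = true :=
  ⟨(a (a (b (a (a (l 3) (l 3)) (b (a (b (b (a (a (l 3) (b (l 156934019575) (l 175187637607))) (l 16755160)) (a (l 3) (l 133311730647))) (a (l 3) (l 153712803527))) (b (a (l 16756936) (l 16756464)) (a (l 16747512) (l 16750232)))) (a (l 3) (b (a (l 3) (l 16743704)) (l 3))))) (l 3)) (a (b (b (b (a (a (l 16753128) (l 16747240)) (l 16735488)) (a (a (l 16749216) (l 16745072)) (l 16734648))) (a (a (b (l 16746752) (l 16744136)) (b (l 16745992) (l 16748376))) (b (a (l 16741640) (l 16734784)) (a (l 16748672) (l 16744640))))) (b (a (b (l 124721987399) (l 3)) (b (l 62444931543) (l 132238219191))) (a (l 3) (l 3)))) (b (a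 (b (l 117608295639) (b (l 16719128) (a (l 16737520) (l 16726592)))) (b (l 138009339015) (l 16698720))) (b (a (a (b (l 16755832) (l 16778112)) (l 16762432)) (b (l 16730448) (l 16766912))) (a (b (l 137070035271) (l 164450404871)) (b (l 16810392) (l 104320978967))))))) (a (b (b (l 1) (a (a (l 16669072) (l 16638384)) (a (l 118144959335) (l 1)))) (a (b (l 16694728) (a (a (l 16827760) (l 16814872)) (l 16783664))) (b (a (l 16630640) (l 16587864)) (l 16701512)))) (b (l 1) (b (a (l 16569080) (l 1)) (a (l 16581528) (l 16469920)))))), by decide +kernel⟩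

theorem c_pp_112_b : CertB 536870912 536870912 1239849684 370763052 587336777 62277027 3 eng mog cd1q1 cd1q2b pd1 false true true .dn 1 1 2
    ndB1q1 ndB1q2b pcB1 Cut.none Ext.none :=
  certB2 (fam := false) (s1 := true) (s2 := true) (a := 1) (b := 1) (c := 2) (cn := .dn) (n1 := ndB1q1) (n2 := ndB1q2b) (pc := pcB1) (cut := Cut.none) (xt := Ext.none) (P1 := 536870912) (W1 := 536870912) (P2 := 1239849684) (W2 := 370763052) (P3 := 587336777) (W3 := 62277027) (N0 := 3) (En := eng) (mo := mog) (C1 := cd1q1) (C2 := cd1q2b) (C3 := pd1)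
    rfl (fun _ => rfl) k0_pp_112_b

noncomputable def f_pp_113 : ℕ → ℕ → ℕ → ℕ → Bool := onCell 536870912 536870912 536870912 536870912 587336777 62277027
    (rowB 3 eng mog cd1q1 cd1q3 pd1 1 false true true .nn 1 1 3 (qsf 536870912 536870912 1610612736 536870912 1) ndB1q1 ndB1q3 pcB1 Cut.none Ext.none)

def k0_pp_113 : ∃ t, chk3 f_pp_113 t 1 1 1 = true :=
  ⟨(b (b (a (l 1) (l 3)) (a (b (l 1) (a (l 1) (b (l 1) (a (l 1) (l 196528603863))))) (a (b (l 3) (a (b (l 186998931047) (a (l 16881528) (l 16847688))) (l 3))) (l 3)))) (b (a (a (b (l 1) (l 113850086903)) (b (a (l 16778184) (b (l 16871184) (l 16916256))) (l 16853736))) (a (b (a (b (l 117742672151) (l 17077280)) (b (l 264845421831) (l 228338073863))) (b (a (l 17018792) (l 154249803863)) (a (l 16969528) (l 17035320)))) (b (l 3) (a (b (l 351281607655) (a (l 16959984) (l 247128316631))) (l 3))))) (a (a (b (l 16608176) (l 16575352)) (b (l 16825608) (l 16762864))) (b (b (a (a (l 16929832) (l 16979176)) (a (a (l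 16988640) (l 16930544)) (a (l 426980346999) (l 3)))) (a (l 16919160) (a (l 16948952) (a (l 282025378663) (l 466708713751))))) (b (a (l 16886384) (a (l 16898424) (a (l 16879784) (b (l 16833944) (l 16826520))))) (a (l 16961944) (a (l 16858176) (a (l 16834400) (l 16833840))))))))), by decide +kernel⟩

theorem c_pp_113 : CertB 536870912 536870912 1610612736 536870912 587336777 62277027 3 eng mog cd1q1 cd1q3 pd1 false true true .nn 1 1 3
    ndB1q1 ndB1q3 pcB1 Cut.none Ext.none :=
  certB1 (fam := false) (s1 := true) (s2 := true) (a := 1) (b := 1) (c := 3) (cn := .nn) (n1 := ndB1q1) (n2 := ndB1q3) (pc := pcB1) (cut := Cut.none) (xt := Ext.none) (P1 := 536870912) (W1 := 536870912) (P2 := 1610612736) (W2 := 536870912) (P3 := 587336777) (W3 := 62277027) (N0 := 3) (En := eng) (mo := mog) (C1 := cd1q1) (C2 := cd1q3) (C3 := pd1)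
    rfl (fun _ => rfl) k0_pp_113

noncomputable def f_pp_123 : ℕ → ℕ → ℕ → ℕ → Bool := onCell 536870912 536870912 1073741824 536870912 587336777 62277027
    (rowB 3 eng mog cd1q1 cd1q3 pd2 1 false true true .npn 1 2 3 (qsf 536870912 536870912 1610612736 536870912 2) ndB1q1 ndB1q3 pcB2 Cut.none Ext.none)

def k0_pp_123 : ∃ t, chk3 f_pp_123 t 1 1 1 = true :=
  ⟨(a (b (b (a (b (l 16548848) (l 16550328)) (b (l 16728944) (l 16684720))) (a (b (l 16555344) (l 16582864)) (b (l 16652120) (l 16653176)))) (b (a (l 16735296) (l 16760296)) (a (l 16698688) (a (b (l 16707192) (l 2)) (l 2))))) (b (b (a (b (l 16797080) (l 16749296)) (a (l 16816536) (b (l 16760680) (l 16683352)))) (a (b (b (b (l 16695056) (l 16684352)) (l 16645744)) (l 16621832)) (a (b (b (l 16653696) (l 2)) (l 2)) (l 2)))) (a (b (a (b (l 16678248) (l 2)) (l 2)) (l 2)) (l 2)))), by decide +kernel⟩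

theorem c_pp_123 : CertB 536870912 536870912 1610612736 536870912 587336777 62277027 3 eng mog cd1q1 cd1q3 pd2 false true true .npn 1 2 3
    ndB1q1 ndB1q3 pcB2 Cut.none Ext.none :=
  certB1 (fam := false) (s1 := true) (s2 := true) (a := 1) (b := 2) (c := 3) (cn := .npn) (n1 := ndB1q1) (n2 := ndB1q3) (pc := pcB2) (cut := Cut.none) (xt := Ext.none) (P1 := 536870912) (W1 := 536870912) (P2 := 1610612736) (W2 := 536870912) (P3 := 587336777) (W3 := 62277027) (N0 := 3) (En := eng) (mo := mog) (C1 := cd1q1) (C2 := cd1q3) (C3 := pd2)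
    rfl (fun _ => rfl) k0_pp_123

noncomputable def f_pp_133 : ℕ → ℕ → ℕ → ℕ → Bool := onCell 1610612736 536870912 1610612736 536870912 587336777 62277027
    (rowB 3 eng mog cd1q1 cd1q3 pd3 2 false true true .dn 1 3 3 (qsf 536870912 536870912 1610612736 536870912 3) ndB1q1 ndB1q3 pcB3 Cut.none Ext.none)

def k0_pp_133 : ∃ t, chk3 f_pp_133 t 1 1 1 = true :=
  ⟨(a (b (l 1) (a (a (l 16732096) (l 1)) (l 1))) (l 1)), by decide +kernel⟩

theorem c_pp_133 : CertB 536870912 536870912 1610612736 536870912 587336777 62277027 3 eng mog cd1q1 cd1q3 pd3 false true true .dn 1 3 3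
    ndB1q1 ndB1q3 pcB3 Cut.none Ext.none :=
  certB2 (fam := false) (s1 := true) (s2 := true) (a := 1) (b := 3) (c := 3) (cn := .dn) (n1 := ndB1q1) (n2 := ndB1q3) (pc := pcB3) (cut := Cut.none) (xt := Ext.none) (P1 := 536870912) (W1 := 536870912) (P2 := 1610612736) (W2 := 536870912) (P3 := 587336777) (W3 := 62277027) (N0 := 3) (En := eng) (mo := mog) (C1 := cd1q1) (C2 := cd1q3) (C3 := pd3)
    rfl (fun _ => rfl) k0_pp_133

noncomputable def f_pp_202_aa : ℕ → ℕ → ℕ → ℕ → Bool := onCell 0 536870912 0 536870912 587336777 62277027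
    (rowB 3 eng mog cd1q2a cd1q2a pd0 0 false true true .pp 2 0 2 (qsf 0 536870912 0 536870912 0) ndB1q2a ndB1q2a pcB0 Cut.none Ext.none)

def k0_pp_202_aa : ∃ t, chk3 f_pp_202_aa t 1 1 1 = true :=
  ⟨(l 3), by decide +kernel⟩

theorem c_pp_202_aa : CertB 0 536870912 0 536870912 587336777 62277027 3 eng mog cd1q2a cd1q2a pd0 false true true .pp 2 0 2
    ndB1q2a ndB1q2a pcB0 Cut.none Ext.none :=
  certB0 (fam := false) (s1 := true) (s2 := true) (a := 2) (b := 0) (c := 2) (cn := .pp) (n1 := ndB1q2a) (n2 := ndB1q2a) (pc := pcB0) (cut := Cut.none) (xt := Ext.none) (P1 := 0) (W1 := 536870912) (P2 := 0) (W2 := 536870912) (P3 := 587336777) (W3 := 62277027) (N0 := 3) (En := eng) (mo := mog) (C1 := cd1q2a) (C2 := cd1q2a) (C3 := pd0)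
    rfl k0_pp_202_aa

noncomputable def f_pp_202_ab : ℕ → ℕ → ℕ → ℕ → Bool := onCell 0 536870912 1239849684 370763052 587336777 62277027
    (rowB 3 eng mog cd1q2a cd1q2b pd0 0 false true true .pp 2 0 2 (qsf 0 536870912 1239849684 370763052 0) ndB1q2a ndB1q2b pcB0 Cut.none Ext.none)

def k0_pp_202_ab : ∃ t, chk3 f_pp_202_ab t 1 1 1 = true :=
  ⟨(l 3), by decide +kernel⟩

theorem c_pp_202_ab : CertB 0 536870912 1239849684 370763052 587336777 62277027 3 eng mog cd1q2a cd1q2b pd0 false true true .pp 2 0 2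
    ndB1q2a ndB1q2b pcB0 Cut.none Ext.none :=
  certB0 (fam := false) (s1 := true) (s2 := true) (a := 2) (b := 0) (c := 2) (cn := .pp) (n1 := ndB1q2a) (n2 := ndB1q2b) (pc := pcB0) (cut := Cut.none) (xt := Ext.none) (P1 := 0) (W1 := 536870912) (P2 := 1239849684) (W2 := 370763052) (P3 := 587336777) (W3 := 62277027) (N0 := 3) (En := eng) (mo := mog) (C1 := cd1q2a) (C2 := cd1q2b) (C3 := pd0)
    rfl k0_pp_202_ab

noncomputable def f_pp_202_ba : ℕ → ℕ → ℕ → ℕ → Bool := onCell 1239849684 370763052 0 536870912 587336777 62277027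
    (rowB 3 eng mog cd1q2b cd1q2a pd0 0 false true true .pp 2 0 2 (qsf 1239849684 370763052 0 536870912 0) ndB1q2b ndB1q2a pcB0 Cut.none Ext.none)

def k0_pp_202_ba : ∃ t, chk3 f_pp_202_ba t 1 1 1 = true :=
  ⟨(l 3), by decide +kernel⟩

theorem c_pp_202_ba : CertB 1239849684 370763052 0 536870912 587336777 62277027 3 eng mog cd1q2b cd1q2a pd0 false true true .pp 2 0 2
    ndB1q2b ndB1q2a pcB0 Cut.none Ext.none :=
  certB0 (fam := false) (s1 := true) (s2 := true) (a := 2) (b := 0) (c := 2) (cn := .pp) (n1 := ndB1q2b) (n2 := ndB1q2a) (pc := pcB0) (cut := Cut.none) (xt := Ext.none) (P1 := 1239849684) (W1 := 370763052) (P2 := 0) (W2 := 536870912) (P3 := 587336777) (W3 := 62277027) (N0 := 3) (En := eng) (mo := mog) (C1 := cd1q2b) (C2 := cd1q2a) (C3 := pd0)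
    rfl k0_pp_202_ba

noncomputable def f_pp_202_bb : ℕ → ℕ → ℕ → ℕ → Bool := onCell 1239849684 370763052 1239849684 370763052 587336777 62277027
    (rowB 3 eng mog cd1q2b cd1q2b pd0 0 false true true .pp 2 0 2 (qsf 1239849684 370763052 1239849684 370763052 0) ndB1q2b ndB1q2b pcB0 Cut.none Ext.none)

def k0_pp_202_bb : ∃ t, chk3 f_pp_202_bb t 1 1 1 = true :=
  ⟨(l 3), by decide +kernel⟩

theorem c_pp_202_bb : CertB 1239849684 370763052 1239849684 370763052 587336777 62277027 3 eng mog cd1q2b cd1q2b pd0 false true true .pp 2 0 2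
    ndB1q2b ndB1q2b pcB0 Cut.none Ext.none :=
  certB0 (fam := false) (s1 := true) (s2 := true) (a := 2) (b := 0) (c := 2) (cn := .pp) (n1 := ndB1q2b) (n2 := ndB1q2b) (pc := pcB0) (cut := Cut.none) (xt := Ext.none) (P1 := 1239849684) (W1 := 370763052) (P2 := 1239849684) (W2 := 370763052) (P3 := 587336777) (W3 := 62277027) (N0 := 3) (En := eng) (mo := mog) (C1 := cd1q2b) (C2 := cd1q2b) (C3 := pd0)
    rfl k0_pp_202_bb

noncomputable def f_pp_203_a : ℕ → ℕ → ℕ → ℕ → Bool := onCell 0 536870912 0 536870912 587336777 62277027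
    (rowB 3 eng mog cd1q2a cd1q3 pd0 1 false true true .up 2 0 3 (qsf 0 536870912 1610612736 536870912 0) ndB1q2a ndB1q3 pcB0 Cut.none Ext.none)

def k0_pp_203_a : ∃ t, chk3 f_pp_203_a t 1 1 1 = true :=
  ⟨(l 3), by decide +kernel⟩

theorem c_pp_203_a : CertB 0 536870912 1610612736 536870912 587336777 62277027 3 eng mog cd1q2a cd1q3 pd0 false true true .up 2 0 3
    ndB1q2a ndB1q3 pcB0 Cut.none Ext.none :=
  certB1 (fam := false) (s1 := true) (s2 := true) (a := 2) (b := 0) (c := 3) (cn := .up) (n1 := ndB1q2a) (n2 := ndB1q3) (pc := pcB0) (cut := Cut.none) (xt := Ext.none) (P1 := 0) (W1 := 536870912) (P2 := 1610612736) (W2 := 536870912) (P3 := 587336777) (W3 := 62277027) (N0 := 3) (En := eng) (mo := mog) (C1 := cd1q2a) (C2 := cd1q3) (C3 := pd0)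
    rfl (fun _ => rfl) k0_pp_203_a

noncomputable def f_pp_203_b : ℕ → ℕ → ℕ → ℕ → Bool := onCell 1239849684 370763052 1610612736 536870912 587336777 62277027
    (rowB 3 eng mog cd1q2b cd1q3 pd0 0 false true true .up 2 0 3 (qsf 1239849684 370763052 1610612736 536870912 0) ndB1q2b ndB1q3 pcB0 Cut.none Ext.none)

def k0_pp_203_b : ∃ t, chk3 f_pp_203_b t 1 1 1 = true :=
  ⟨(l 3), by decide +kernel⟩

theorem c_pp_203_b : CertB 1239849684 370763052 1610612736 536870912 587336777 62277027 3 eng mog cd1q2b cd1q3 pd0 false true true .up 2 0 3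
    ndB1q2b ndB1q3 pcB0 Cut.none Ext.none :=
  certB0 (fam := false) (s1 := true) (s2 := true) (a := 2) (b := 0) (c := 3) (cn := .up) (n1 := ndB1q2b) (n2 := ndB1q3) (pc := pcB0) (cut := Cut.none) (xt := Ext.none) (P1 := 1239849684) (W1 := 370763052) (P2 := 1610612736) (W2 := 536870912) (P3 := 587336777) (W3 := 62277027) (N0 := 3) (En := eng) (mo := mog) (C1 := cd1q2b) (C2 := cd1q3) (C3 := pd0)
    rfl k0_pp_203_b

noncomputable def cut_pp_213_a : Cut := Cut.of [[⟨0, 1, 0, 67108864⟩, ⟨1, 1, 0, 67108864⟩, ⟨2, 2, 0, 16777216⟩]]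

noncomputable def f_pp_213_a : ℕ → ℕ → ℕ → ℕ → Bool := onCell 0 536870912 1610612736 536870912 587336777 62277027
    (rowB 3 eng mog cd1q2a cd1q3 pd1 0 false true true .pnn 2 1 3 (qsf 0 536870912 1610612736 536870912 1) ndB1q2a ndB1q3 pcB1 cut_pp_213_a Ext.none)

def k0_pp_213_a : ∃ t, chk3 f_pp_213_a t 1 1 1 = true :=
  ⟨(b (l 3) (b (l 3) (a (l 3) (a (l 3) (b (l 3) (a (l 3) (b (l 3) (b (l 3) (b (l 3) (l 6)))))))))), by decide +kernel⟩

theorem c_pp_213_a : CertB 0 536870912 1610612736 536870912 587336777 62277027 3 eng mog cd1q2a cd1q3 pd1 false true true .pnn 2 1 3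
    ndB1q2a ndB1q3 pcB1 cut_pp_213_a Ext.none :=
  certB0 (fam := false) (s1 := true) (s2 := true) (a := 2) (b := 1) (c := 3) (cn := .pnn) (n1 := ndB1q2a) (n2 := ndB1q3) (pc := pcB1) (cut := cut_pp_213_a) (xt := Ext.none) (P1 := 0) (W1 := 536870912) (P2 := 1610612736) (W2 := 536870912) (P3 := 587336777) (W3 := 62277027) (N0 := 3) (En := eng) (mo := mog) (C1 := cd1q2a) (C2 := cd1q3) (C3 := pd1)
    rfl k0_pp_213_a

noncomputable def cut_pp_213_b : Cut := Cut.of [[⟨0, 1, 0, 67108864⟩, ⟨1, 1, 0, 67108864⟩, ⟨2, 2, 0, 16777216⟩]]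

noncomputable def f_pp_213_b : ℕ → ℕ → ℕ → ℕ → Bool := onCell 1239849684 370763052 1610612736 536870912 587336777 62277027
    (rowB 3 eng mog cd1q2b cd1q3 pd1 0 false true true .pnn 2 1 3 (qsf 1239849684 370763052 1610612736 536870912 1) ndB1q2b ndB1q3 pcB1 cut_pp_213_b Ext.none)

def k0_pp_213_b : ∃ t, chk3 f_pp_213_b t 1 1 1 = true :=
  ⟨(l 3), by decide +kernel⟩

theorem c_pp_213_b : CertB 1239849684 370763052 1610612736 536870912 587336777 62277027 3 eng mog cd1q2b cd1q3 pd1 false true true .pnn 2 1 3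
    ndB1q2b ndB1q3 pcB1 cut_pp_213_b Ext.none :=
  certB0 (fam := false) (s1 := true) (s2 := true) (a := 2) (b := 1) (c := 3) (cn := .pnn) (n1 := ndB1q2b) (n2 := ndB1q3) (pc := pcB1) (cut := cut_pp_213_b) (xt := Ext.none) (P1 := 1239849684) (W1 := 370763052) (P2 := 1610612736) (W2 := 536870912) (P3 := 587336777) (W3 := 62277027) (N0 := 3) (En := eng) (mo := mog) (C1 := cd1q2b) (C2 := cd1q3) (C3 := pd1)
    rfl k0_pp_213_b

noncomputable def f_pp_303 : ℕ → ℕ → ℕ → ℕ → Bool := onCell 1610612736 536870912 1610612736 536870912 587336777 62277027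
    (rowB 3 eng mog cd1q3 cd1q3 pd0 0 false true true .npn 3 0 3 (qsf 1610612736 536870912 1610612736 536870912 0) ndB1q3 ndB1q3 pcB0 Cut.none Ext.none)

def k0_pp_303 : ∃ t, chk3 f_pp_303 t 1 1 1 = true :=
  ⟨(l 3), by decide +kernel⟩

theorem c_pp_303 : CertB 1610612736 536870912 1610612736 536870912 587336777 62277027 3 eng mog cd1q3 cd1q3 pd0 false true true .npn 3 0 3
    ndB1q3 ndB1q3 pcB0 Cut.none Ext.none :=
  certB0 (fam := false) (s1 := true) (s2 := true) (a := 3) (b := 0) (c := 3) (cn := .npn) (n1 := ndB1q3) (n2 := ndB1q3) (pc := pcB0) (cut := Cut.none) (xt := Ext.none) (P1 := 1610612736) (W1 := 536870912) (P2 := 1610612736) (W2 := 536870912) (P3 := 587336777) (W3 := 62277027) (N0 := 3) (En := eng) (mo := mog) (C1 := cd1q3) (C2 := cd1q3) (C3 := pd0)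
    rfl k0_pp_303

noncomputable def f_pp_313 : ℕ → ℕ → ℕ → ℕ → Bool := onCell 1610612736 536870912 1610612736 536870912 587336777 62277027
    (rowB 3 eng mog cd1q3 cd1q3 pd1 0 false true true .dn 3 1 3 (qsf 1610612736 536870912 1610612736 536870912 1) ndB1q3 ndB1q3 pcB1 Cut.none Ext.none)

def k0_pp_313 : ∃ t, chk3 f_pp_313 t 1 1 1 = true :=
  ⟨(l 3), by decide +kernel⟩

theorem c_pp_313 : CertB 1610612736 536870912 1610612736 536870912 587336777 62277027 3 eng mog cd1q3 cd1q3 pd1 false true true .dn 3 1 3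
    ndB1q3 ndB1q3 pcB1 Cut.none Ext.none :=
  certB0 (fam := false) (s1 := true) (s2 := true) (a := 3) (b := 1) (c := 3) (cn := .dn) (n1 := ndB1q3) (n2 := ndB1q3) (pc := pcB1) (cut := Cut.none) (xt := Ext.none) (P1 := 1610612736) (W1 := 536870912) (P2 := 1610612736) (W2 := 536870912) (P3 := 587336777) (W3 := 62277027) (N0 := 3) (En := eng) (mo := mog) (C1 := cd1q3) (C2 := cd1q3) (C3 := pd1)
    rfl k0_pp_313

noncomputable def f_pm_001 : ℕ → ℕ → ℕ → ℕ → Bool := onCell 0 536870912 0 536870912 587336777 62277027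
    (rowB 3 eng mog cd1q0 cd1q1 pd0 1 false true false .up 0 0 1 (qsf 0 536870912 536870912 536870912 0) ndB1q0 ndB1q1 pcB0 Cut.none Ext.none)

def k0_pm_001 : ∃ t, chk3 f_pm_001 t 1 1 1 = true :=
  ⟨(b (l 4) (a (l 4) (a (l 4) (b (a (l 4) (b (l 4) (b (a (l 4) (l 16576752)) (a (l 16595416) (l 16513992))))) (b (a (b (l 4) (a (l 4) (b (l 4) (l 16512640)))) (b (a (b (l 16536632) (l 16514016)) (b (l 16483872) (l 16448392))) (a (l 16510928) (l 16385976)))) (a (b (a (l 4) (b (l 16482416) (l 16454328))) (a (a (l 4) (l 16507944)) (l 16479528))) (b (a (l 16398208) (b (l 16365744) (a (l 16324704) (l 16301824)))) (a (a (l 16342936) (l 16414520)) (b (a (l 16297928) (l 16285544)) (l 16274592)))))))))), by decide +kernel⟩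

theorem c_pm_001 : CertB 0 536870912 536870912 536870912 587336777 62277027 3 eng mog cd1q0 cd1q1 pd0 false true false .up 0 0 1
    ndB1q0 ndB1q1 pcB0 Cut.none Ext.none :=
  certB1 (fam := false) (s1 := true) (s2 := false) (a := 0) (b := 0) (c := 1) (cn := .up) (n1 := ndB1q0) (n2 := ndB1q1) (pc := pcB0) (cut := Cut.none) (xt := Ext.none) (P1 := 0) (W1 := 536870912) (P2 := 536870912) (W2 := 536870912) (P3 := 587336777) (W3 := 62277027) (N0 := 3) (En := eng) (mo := mog) (C1 := cd1q0) (C2 := cd1q1) (C3 := pd0)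
    rfl (fun _ => rfl) k0_pm_001

noncomputable def f_pm_011 : ℕ → ℕ → ℕ → ℕ → Bool := onCell 0 536870912 536870912 536870912 587336777 62277027
    (rowB 3 eng mog cd1q0 cd1q1 pd1 0 false true false .pnn 0 1 1 (qsf 0 536870912 536870912 536870912 1) ndB1q0 ndB1q1 pcB1 Cut.none Ext.none)

def k0_pm_011 : ∃ t, chk3 f_pm_011 t 1 1 1 = true :=
  ⟨(b (l 4) (a (b (l 4) (a (l 4) (b (l 4) (a (l 4) (b (l 4) (a (b (l 4) (a (l 16567648) (l 16613904))) (b (a (l 16580960) (l 16543088)) (a (l 16534480) (l 16517744))))))))) (b (a (l 4) (a (a (l 4) (l 1)) (l 1))) (a (b (a (l 4) (b (a (l 4) (b (l 4) (l 16504784))) (a (b (l 16528224) (l 16508264)) (l 16520520)))) (a (b (a (b (l 4) (l 16624832)) (a (b (l 16536560) (l 16513752)) (l 16589544))) (a (b (l 16558776) (l 16492432)) (b (l 16480800) (l 16500096)))) (b (a (b (l 16507528) (l 16464288)) (l 16432688)) (a (b (l 16443408) (l 16466168)) (b (l 16382744) (l 16387776)))))) (a (b (b (a (b (l 16478960) (l 16459160)) (l 16458232))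 (a (l 16427080) (l 16374320))) (b (a (l 16387520) (l 16359352)) (a (l 16357288) (l 16313224)))) (b (b (l 1) (a (l 16338040) (l 1))) (b (a (l 16318176) (l 16269656)) (l 16292752)))))))), by decide +kernel⟩

theorem c_pm_011 : CertB 0 536870912 536870912 536870912 587336777 62277027 3 eng mog cd1q0 cd1q1 pd1 false true false .pnn 0 1 1
    ndB1q0 ndB1q1 pcB1 Cut.none Ext.none :=
  certB0 (fam := false) (s1 := true) (s2 := false) (a := 0) (b := 1) (c := 1) (cn := .pnn) (n1 := ndB1q0) (n2 := ndB1q1) (pc := pcB1) (cut := Cut.none) (xt := Ext.none) (P1 := 0) (W1 := 536870912) (P2 := 536870912) (W2 := 536870912) (P3 := 587336777) (W3 := 62277027) (N0 := 3) (En := eng) (mo := mog) (C1 := cd1q0) (C2 := cd1q1) (C3 := pd1)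
    rfl k0_pm_011

noncomputable def cut_pm_012_a : Cut := Cut.of [[⟨0, 0, 0, 67108864⟩, ⟨1, 1, 0, 67108864⟩, ⟨2, 1, 0, 67108864⟩]]

noncomputable def f_pm_012_a : ℕ → ℕ → ℕ → ℕ → Bool := onCell 536870912 536870912 0 536870912 587336777 62277027
    (rowB 3 eng mog cd1q0 cd1q2a pd1 2 false true false .pnp 0 1 2 (qsf 0 536870912 0 536870912 1) ndB1q0 ndB1q2a pcB1 cut_pm_012_a Ext.none)

def k0_pm_012_a : ∃ t, chk3 f_pm_012_a t 2 1 1 = true :=
  ⟨(b (a (b (l 2) (b (l 2) (a (l 2) (l 16582840)))) (b (a (b (a (l 16691288) (l 16674048)) (a (l 16654856) (l 16639752))) (b (l 16689080) (a (l 16624248) (l 16607664)))) (a (b (a (l 16618656) (l 16605848)) (l 16568704)) (b (l 16585288) (l 16549760))))) (a (a (b (l 2) (b (l 16355512) (l 16386008))) (b (b (l 16515048) (b (l 16459168) (l 16424032))) (b (b (l 16392552) (l 16369600)) (b (l 16353184) (l 16373888))))) (b (b (a (l 16515184) (l 16509232)) (a (b (l 16473136) (l 16552728)) (b (l 16480008) (l 16464400)))) (b (a (a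 (l 16412328) (l 16514008)) (a (l 16487480) (l 16544344))) (a (a (l 16437640) (l 16476728)) (b (l 16457864) (l 16554968))))))), by decide +kernel⟩

def k1_pm_012_a : ∃ t, chk3 f_pm_012_a t 3 2 1 = true :=
  ⟨(a (b (a (b (a (l 16618576) (l 16597880)) (l 16579816)) (b (a (l 16576128) (l 16554256)) (a (l 16549840) (l 16530592)))) (a (b (l 16553936) (a (l 16532736) (l 16520368))) (a (b (l 16528136) (l 16507768)) (b (l 16512248) (l 16497032))))) (b (a (a (b (l 16532952) (l 16511928)) (b (l 16512536) (l 16494200))) (a (b (l 16493920) (l 16499320)) (b (l 16477960) (b (l 16466920) (l 16462696))))) (a (a (b (l 16497208) (l 16487592)) (b (l 16483264) (b (l 16479576) (l 16480016)))) (a (b (b (l 16471984) (l 16470736)) (b (l 16472088) (l 16476368))) (b (b (l 16481976) (a (l 16464088) (l 16460176))) (b (a (l 16467640) (l 16465232)) (a (l 16474768) (l 16474304)))))))), by decide +kernel⟩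

def k2_pm_012_a : ∃ t, chk3 f_pm_012_a t 3 3 1 = true :=
  ⟨(a (a (b (b (a (l 16501960) (l 16496552)) (b (a (l 16482440) (l 16483864)) (l 16498824))) (b (a (b (l 16472440) (l 16478728)) (b (l 16484544) (l 16496424))) (b (l 16546600) (a (l 16515320) (l 16566280))))) (a (b (b (l 16491120) (b (l 16485424) (l 16487856))) (b (b (l 16517824) (l 16577304)) (b (l 16561512) (l 16623040)))) (b (b (l 16487752) (b (l 16489032) (l 16496480))) (b (b (l 16510952) (l 16534088)) (b (l 16565816) (b (l 16595384) (l 16617712))))))) (b (a (b (a (b (l 16485168) (l 16487592)) (b (l 16483696) (l 16491192))) (a (b (l 16494920) (l 16507752)) (b (l 16503192) (l 16521024)))) (b (a (b (l 16484472) (l 16496704)) (b (a (l 16486192) (l 16487864)) (l 16545536))) (a (b (l 16513032) (l 16535792)) (b (a (l 16521408) (l 16527184)) (a (l 16547672) (l 16555128)))))) (a (b (a (b (l 16527640) (l 16555872)) (b (l 16545984) (l 16579128))) (b (a (l 16613600) (b (l 16608784) (l 16651096))) (a (b (l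 16624696) (a (l 16661464) (a (l 16651576) (l 16658936)))) (b (a (l 16666896) (l 16660688)) (b (a (l 16664024) (l 16679680)) (a (l 16676776) (l 16692912))))))) (b (b (a (l 16565736) (a (l 16580544) (l 16610608))) (a (l 16645096) (a (l 16620184) (a (l 16628344) (l 16654672))))) (b (a (a (l 16660752) (l 16681664)) (a (b (l 16654744) (l 6)) (l 6))) (a (b (a (l 16676040) (l 16702192)) (a (b (l 16695696) (l 16730336)) (l 6))) (l 6))))))), by decide +kernel⟩

theorem s3_pm_012_a : ∃ t, chk3 f_pm_012_a t 3 1 1 = true := ex3_b k1_pm_012_a k2_pm_012_a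

theorem s4_pm_012_a : ∃ t, chk3 f_pm_012_a t 1 1 1 = true := ex3_a k0_pm_012_a s3_pm_012_a

theorem c_pm_012_a : CertB 0 536870912 0 536870912 587336777 62277027 3 eng mog cd1q0 cd1q2a pd1 false true false .pnp 0 1 2
    ndB1q0 ndB1q2a pcB1 cut_pm_012_a Ext.none :=
  certB2 (fam := false) (s1 := true) (s2 := false) (a := 0) (b := 1) (c := 2) (cn := .pnp) (n1 := ndB1q0) (n2 := ndB1q2a) (pc := pcB1) (cut := cut_pm_012_a) (xt := Ext.none) (P1 := 0) (W1 := 536870912) (P2 := 0) (W2 := 536870912) (P3 := 587336777) (W3 := 62277027) (N0 := 3) (En := eng) (mo := mog) (C1 := cd1q0) (C2 := cd1q2a) (C3 := pd1)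
    rfl (fun _ => rfl) s4_pm_012_a

noncomputable def cut_pm_012_b : Cut := Cut.of [[⟨0, 0, 0, 67108864⟩, ⟨1, 1, 0, 67108864⟩, ⟨2, 1, 0, 67108864⟩]]

noncomputable def f_pm_012_b : ℕ → ℕ → ℕ → ℕ → Bool := onCell 536870912 536870912 1239849684 370763052 587336777 62277027
    (rowB 3 eng mog cd1q0 cd1q2b pd1 2 false true false .pnp 0 1 2 (qsf 0 536870912 1239849684 370763052 1) ndB1q0 ndB1q2b pcB1 cut_pm_012_b Ext.none)

def k0_pm_012_b : ∃ t, chk3 f_pm_012_b t 1 1 1 = true :=
  ⟨(a (a (l 2) (b (b (a (b (a (l 16712448) (l 16693000)) (l 2)) (b (l 16661776) (l 16663448))) (a (l 2) (a (l 2) (l 16664120)))) (l 2))) (a (b (a (b (b (l 16616504) (l 16609352)) (l 16616368)) (b (a (b (l 16579160) (l 16565080)) (b (l 16553480) (l 16533856))) (a (l 16563592) (l 16526152)))) (a (l 2) (b (l 16577072) (l 2)))) (b (a (b (a (b (l 16526968) (l 16500344)) (b (l 16500920) (l 16466168))) (a (l 16486448) (l 16442752))) (b (a (b (l 16476064) (l 16432032)) (b (l 16474520) (l 16398776)))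 (a (l 16397248) (l 16371744)))) (a (b (b (l 16475496) (l 16497048)) (l 16551112)) (b (a (l 16404760) (l 16346432)) (l 16434312)))))), by decide +kernel⟩

theorem c_pm_012_b : CertB 0 536870912 1239849684 370763052 587336777 62277027 3 eng mog cd1q0 cd1q2b pd1 false true false .pnp 0 1 2
    ndB1q0 ndB1q2b pcB1 cut_pm_012_b Ext.none :=
  certB2 (fam := false) (s1 := true) (s2 := false) (a := 0) (b := 1) (c := 2) (cn := .pnp) (n1 := ndB1q0) (n2 := ndB1q2b) (pc := pcB1) (cut := cut_pm_012_b) (xt := Ext.none) (P1 := 0) (W1 := 536870912) (P2 := 1239849684) (W2 := 370763052) (P3 := 587336777) (W3 := 62277027) (N0 := 3) (En := eng) (mo := mog) (C1 := cd1q0) (C2 := cd1q2b) (C3 := pd1)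
    rfl (fun _ => rfl) k0_pm_012_b

noncomputable def cut_pm_022_a : Cut := Cut.of [[⟨0, 0, 0, 67108864⟩, ⟨1, 1, 0, 67108864⟩, ⟨2, 1, 0, 67108864⟩]]

noncomputable def f_pm_022_a : ℕ → ℕ → ℕ → ℕ → Bool := onCell 0 536870912 0 536870912 587336777 62277027
    (rowB 3 eng mog cd1q0 cd1q2a pd2 0 false true false .pp 0 2 2 (qsf 0 536870912 0 536870912 2) ndB1q0 ndB1q2a pcB2 cut_pm_022_a Ext.none)

def k0_pm_022_a : ∃ t, chk3 f_pm_022_a t 2 2 1 = true :=
  ⟨(a (b (a (b (l 16480096) (a (b (l 16461352) (l 16467360)) (l 16464528))) (b (a (l 16463280) (l 16465064)) (a (l 16463424) (l 16461488)))) (a (b (a (b (l 16475752) (a (l 16487576) (l 16485256))) (b (b (l 16470952) (l 16474488)) (l 16501976))) (a (b (a (b (l 16497568) (l 16505160)) (b (l 16494320) (l 16501256))) (a (b (l 16534440) (a (l 16523688) (l 16521208))) (c (l 16535152) (l 16512248)))) (b (a (l 16493720) (l 16489208)) (a (l 16528456) (l 16501440))))) (b (a (b (b (l 16467256) (l 16470008)) (l 16474328))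 (b (a (l 16464840) (l 16462360)) (a (l 16468960) (l 16465480)))) (a (b (l 16523800) (a (l 16495000) (l 16488232))) (b (a (l 16474008) (l 16468344)) (a (l 16481160) (l 16494328))))))) (a (a (b (b (l 16465184) (l 85932327223)) (b (b (l 16456896) (a (l 61773181175) (l 49425158919))) (a (b (l 34392729927) (l 16485752)) (l 1)))) (b (l 819298010679) (l 1))) (l 1))), by decide +kernel⟩

def k1_pm_022_a : ∃ t, chk3 f_pm_022_a t 2 3 1 = true :=
  ⟨(a (b (a (a (a (b (b (b (a (l 16533600) (l 16530752)) (a (l 16543488) (l 16541056))) (b (a (l 16553872) (l 16551680)) (a (c (l 16565800) (l 16563600)) (l 16562424)))) (b (a (b (l 16576488) (l 16588696)) (b (l 16573864) (l 16585856))) (b (a (l 16601528) (l 16598464)) (a (l 16615296) (l 16612000))))) (b (b (b (l 16526128) (l 16535832)) (b (l 16546280) (l 16557440))) (b (b (l 16569192) (l 16581088)) (b (l 16593344) (l 16606520))))) (b (b (a (b (l 16519400) (l 16528280)) (l 16537144)) (a (b (l 16537872) (l 16548128)) (l 16554520)))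 (b (a (l 16564744) (l 16574264)) (a (l 16589016) (b (l 16569640) (l 16581088)))))) (b (b (a (b (l 16500408) (l 16507064)) (a (l 16511376) (b (l 16478256) (l 16482200)))) (a (b (l 16514344) (l 16522176)) (a (l 16522784) (l 1)))) (a (a (b (l 16541208) (l 16582040)) (b (l 16528544) (l 16566992))) (b (a (l 16515032) (l 1)) (l 1))))) (a (b (b (a (a (a (b (l 16629752) (b (l 16640992) (l 6))) (b (l 16626224) (l 16641192))) (b (l 16620392) (l 16635000))) (a (b (l 16608496) (l 16622320)) (b (l 16593104) (l 16626632)))) (a (l 6) (a (l 6) (b (l 16638992) (a (l 6) (l 1)))))) (a (l 6) (a (l 6) (l 1)))) (b (a (b (a (b (l 16576896) (l 16588112)) (l 1)) (l 1)) (l 1)) (l 1)))) (b (l 1) (l 1))), by decide +kernel⟩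

def k2_pm_022_a : ∃ t, chk3 f_pm_022_a t 3 1 1 = true :=
  ⟨(l 1), by decide +kernel⟩

theorem s3_pm_022_a : ∃ t, chk3 f_pm_022_a t 2 1 1 = true := ex3_b k0_pm_022_a k1_pm_022_a

theorem s4_pm_022_a : ∃ t, chk3 f_pm_022_a t 1 1 1 = true := ex3_a s3_pm_022_a k2_pm_022_a

theorem c_pm_022_a : CertB 0 536870912 0 536870912 587336777 62277027 3 eng mog cd1q0 cd1q2a pd2 false true false .pp 0 2 2
    ndB1q0 ndB1q2a pcB2 cut_pm_022_a Ext.none :=
  certB0 (fam := false) (s1 := true) (s2 := false) (a := 0) (b := 2) (c := 2) (cn := .pp) (n1 := ndB1q0) (n2 := ndB1q2a) (pc := pcB2) (cut := cut_pm_022_a) (xt := Ext.none) (P1 := 0) (W1 := 536870912) (P2 := 0) (W2 := 536870912) (P3 := 587336777) (W3 := 62277027) (N0 := 3) (En := eng) (mo := mog) (C1 := cd1q0) (C2 := cd1q2a) (C3 := pd2)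
    rfl s4_pm_022_a

noncomputable def cut_pm_022_b : Cut := Cut.of [[⟨0, 0, 0, 67108864⟩, ⟨1, 1, 0, 67108864⟩, ⟨2, 1, 0, 67108864⟩]]

noncomputable def f_pm_022_b : ℕ → ℕ → ℕ → ℕ → Bool := onCell 0 536870912 1073741824 536870912 587336777 62277027
    (rowB 3 eng mog cd1q0 cd1q2b pd2 1 false true false .pp 0 2 2 (qsf 0 536870912 1239849684 370763052 2) ndB1q0 ndB1q2b pcB2 cut_pm_022_b Ext.none)

def k0_pm_022_b : ∃ t, chk3 f_pm_022_b t 1 1 1 = true :=
  ⟨(b (a (b (b (a (a (l 1) (a (l 121365977607) (l 30634902839))) (a (b (l 16504840) (l 16390648)) (l 16377808))) (a (a (a (l 226592599879) (b (l 151430700567) (l 16458528))) (l 30097927575)) (a (l 16338712) (l 16262680)))) (a (b (a (b (l 60699424919) (l 16466544)) (b (l 16319840) (l 16265704))) (a (l 16355680) (l 16181336))) (a (b (l 16311440) (l 16142368)) (b (l 16196000) (l 16138096))))) (b (a (a (b (l 16293832) (l 16245696)) (l 16377992)) (a (l 16307144) (l 16364384))) (a (b (l 16279224) (l 16197392)) (b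 (l 16326328) (l 2))))) (b (a (a (b (a (l 16173176) (l 16069744)) (a (b (l 16151528) (l 16096208)) (l 16021680))) (b (l 16054768) (l 16051904))) (a (b (l 16173808) (l 2)) (l 2))) (a (a (b (a (l 16095632) (l 16050016)) (l 16142896)) (b (l 16000824) (l 2))) (l 2)))), by decide +kernel⟩

theorem c_pm_022_b : CertB 0 536870912 1239849684 370763052 587336777 62277027 3 eng mog cd1q0 cd1q2b pd2 false true false .pp 0 2 2
    ndB1q0 ndB1q2b pcB2 cut_pm_022_b Ext.none :=
  certB1 (fam := false) (s1 := true) (s2 := false) (a := 0) (b := 2) (c := 2) (cn := .pp) (n1 := ndB1q0) (n2 := ndB1q2b) (pc := pcB2) (cut := cut_pm_022_b) (xt := Ext.none) (P1 := 0) (W1 := 536870912) (P2 := 1239849684) (W2 := 370763052) (P3 := 587336777) (W3 := 62277027) (N0 := 3) (En := eng) (mo := mog) (C1 := cd1q0) (C2 := cd1q2b) (C3 := pd2)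
    rfl (fun _ => rfl) k0_pm_022_b

noncomputable def f_pm_023 : ℕ → ℕ → ℕ → ℕ → Bool := onCell 1073741824 536870912 1610612736 536870912 587336777 62277027
    (rowB 3 eng mog cd1q0 cd1q3 pd2 2 false true false .up 0 2 3 (qsf 0 536870912 1610612736 536870912 2) ndB1q0 ndB1q3 pcB2 Cut.none Ext.none)

def k0_pm_023 : ∃ t, chk3 f_pm_023 t 1 1 1 = true :=
  ⟨(a (a (b (b (b (l 16351248) (l 16427368)) (l 210553633959)) (l 2)) (b (a (b (l 16278488) (l 16469928)) (b (l 16215128) (l 16423560))) (a (l 2) (l 356046217687)))) (a (b (a (b (l 16123600) (l 16373568)) (b (l 16063272) (l 16327528))) (a (l 16669216) (b (l 16559744) (l 16640576)))) (b (b (a (l 16021632) (l 16132736)) (a (l 16320840) (l 16335360))) (b (a (l 16559840) (l 16556856)) (l 16664368))))), by decide +kernel⟩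

theorem c_pm_023 : CertB 0 536870912 1610612736 536870912 587336777 62277027 3 eng mog cd1q0 cd1q3 pd2 false true false .up 0 2 3
    ndB1q0 ndB1q3 pcB2 Cut.none Ext.none :=
  certB2 (fam := false) (s1 := true) (s2 := false) (a := 0) (b := 2) (c := 3) (cn := .up) (n1 := ndB1q0) (n2 := ndB1q3) (pc := pcB2) (cut := Cut.none) (xt := Ext.none) (P1 := 0) (W1 := 536870912) (P2 := 1610612736) (W2 := 536870912) (P3 := 587336777) (W3 := 62277027) (N0 := 3) (En := eng) (mo := mog) (C1 := cd1q0) (C2 := cd1q3) (C3 := pd2)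
    rfl (fun _ => rfl) k0_pm_023

noncomputable def f_pm_033 : ℕ → ℕ → ℕ → ℕ → Bool := onCell 0 536870912 1610612736 536870912 587336777 62277027
    (rowB 3 eng mog cd1q0 cd1q3 pd3 1 false true false .pnn 0 3 3 (qsf 0 536870912 1610612736 536870912 3) ndB1q0 ndB1q3 pcB3 Cut.none Ext.none)

def k0_pm_033 : ∃ t, chk3 f_pm_033 t 1 1 1 = true :=
  ⟨(a (b (b (b (a (l 16140280) (l 16395304)) (a (l 16271712) (l 16477232))) (b (l 3193542970631) (l 4))) (b (l 4) (a (l 4) (a (b (l 4) (l 2)) (l 2))))) (b (b (b (l 16723384) (l 16667264)) (a (b (l 16641704) (l 4)) (a (b (l 16702528) (l 2)) (l 2)))) (a (b (a (b (l 4) (l 2)) (l 2)) (l 2)) (l 2)))), by decide +kernel⟩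

theorem c_pm_033 : CertB 0 536870912 1610612736 536870912 587336777 62277027 3 eng mog cd1q0 cd1q3 pd3 false true false .pnn 0 3 3
    ndB1q0 ndB1q3 pcB3 Cut.none Ext.none :=
  certB1 (fam := false) (s1 := true) (s2 := false) (a := 0) (b := 3) (c := 3) (cn := .pnn) (n1 := ndB1q0) (n2 := ndB1q3) (pc := pcB3) (cut := Cut.none) (xt := Ext.none) (P1 := 0) (W1 := 536870912) (P2 := 1610612736) (W2 := 536870912) (P3 := 587336777) (W3 := 62277027) (N0 := 3) (En := eng) (mo := mog) (C1 := cd1q0) (C2 := cd1q3) (C3 := pd3)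
    rfl (fun _ => rfl) k0_pm_033

noncomputable def f_pm_101 : ℕ → ℕ → ℕ → ℕ → Bool := onCell 0 536870912 536870912 536870912 587336777 62277027
    (rowB 3 eng mog cd1q1 cd1q1 pd0 2 false true false .npn 1 0 1 (qsf 536870912 536870912 536870912 536870912 0) ndB1q1 ndB1q1 pcB0 Cut.none Ext.none)

def k0_pm_101 : ∃ t, chk3 f_pm_101 t 1 2 1 = true :=
  ⟨(b (l 4) (a (a (a (b (b (l 4) (a (l 27615394327) (l 16768624))) (b (a (l 16685752) (l 16686720)) (a (l 16690504) (l 16682624)))) (b (l 4) (b (a (l 16753840) (l 16780536)) (a (l 16677168) (l 16674816))))) (a (b (l 4) (b (l 4) (a (l 16759720) (l 16678864)))) (l 4))) (l 4))), by decide +kernel⟩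

def k1_pm_101 : ∃ t, chk3 f_pm_101 t 2 3 1 = true :=
  ⟨(a (b (b (a (b (a (l 16704472) (l 16689872)) (a (l 16724576) (l 16703936))) (b (a (l 16677560) (l 16667208)) (a (l 16685504) (l 16668960)))) (a (b (a (b (l 16739080) (b (l 16747264) (l 16745600))) (b (l 16715656) (l 16789120))) (a (l 16742240) (b (l 16725104) (l 16725248)))) (b (a (l 16696408) (l 16674352)) (a (b (l 16705184) (l 16706944)) (b (l 16682472) (l 16681848)))))) (b (a (a (b (l 16734296) (l 16727720)) (b (l 16721968) (l 16718384))) (a (b (l 16706856) (l 16706032)) (b (l 16687056) (l 16690496)))) (a (b (a (l 16723760) (l 16715600)) (b (a (b (l 16716344) (l 16713104)) (l 16755936)) (a (l 16706920) (l 16706592)))) (b (a (l 16705912) (l 16692968)) (b (a (l 16706648) (l 16694392)) (a (l 16700352) (l 16691256))))))) (b (a (b (a (b (l 16658888) (l 16654448)) (b (l 16653224) (l 16641752))) (b (a (l 16654616) (l 16637032)) (a (b (l 16657424) (l 16660208)) (l 16640360)))) (b (b (a (l 16650656) (l 16649560))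 (a (l 16630096) (l 16619672))) (a (l 16617896) (l 16808008)))) (b (a (a (b (l 16664072) (l 16670744)) (b (l 16638896) (l 16648040))) (a (b (l 16615048) (l 16623160)) (b (l 16592640) (l 16596312)))) (a (b (a (l 16677392) (l 16657640)) (b (a (l 16680792) (l 16664736)) (a (b (l 16682992) (l 16680944)) (l 16668104)))) (b (a (l 16632288) (l 16604208)) (a (b (l 16641248) (l 16649672)) (a (l 16626640) (l 16610424)))))))), by decide +kernel⟩

def k2_pm_101 : ∃ t, chk3 f_pm_101 t 3 3 1 = true :=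
  ⟨(a (a (b (b (b (l 4) (a (l 16673688) (l 53384719399))) (a (b (l 16584816) (l 16570512)) (b (l 16564824) (l 16543688)))) (b (b (a (l 16630392) (l 16533952)) (a (l 16565952) (l 16524864))) (b (a (l 16572416) (l 16533480)) (a (c (l 16613304) (l 16599648)) (l 16546232))))) (b (b (l 4) (b (a (l 82711191671) (b (l 1) (l 16506544))) (a (l 16514440) (l 16479208)))) (b (a (b (l 16497176) (a (l 16494952) (l 16476216))) (b (l 16459312) (b (l 16453904) (l 16446448)))) (a (b (l 16491200) (l 16503776)) (a (l 16506840) (b (l 16437416) (l 16445920))))))) (b (a (b (l 1) (a (b (l 1) (a (l 16468192) (l 1))) (l 1))) (l 1)) (a (b (b (a (l 65531063847) (l 161630892855)) (a (a (l 16421520) (l 16390736)) (l 77879096247))) (a (a (b (l 16415344) (l 16418784)) (a (l 16374944) (l 16368632))) (b (l 16333848) (l 16291008)))) (b (b (l 1) (a (l 139619090855) (l 1))) (b (a (b (l 16316544) (l 16250104)) (b (l 1) (l 160020079239))) (a (l 16248680) (a (l 16226752) (l 16215704)))))))), by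 decide +kernel⟩

theorem s3_pm_101 : ∃ t, chk3 f_pm_101 t 1 3 1 = true := ex3_a k1_pm_101 k2_pm_101

theorem s4_pm_101 : ∃ t, chk3 f_pm_101 t 1 1 1 = true := ex3_b k0_pm_101 s3_pm_101

theorem c_pm_101 : CertB 536870912 536870912 536870912 536870912 587336777 62277027 3 eng mog cd1q1 cd1q1 pd0 false true false .npn 1 0 1
    ndB1q1 ndB1q1 pcB0 Cut.none Ext.none :=
  certB2 (fam := false) (s1 := true) (s2 := false) (a := 1) (b := 0) (c := 1) (cn := .npn) (n1 := ndB1q1) (n2 := ndB1q1) (pc := pcB0) (cut := Cut.none) (xt := Ext.none) (P1 := 536870912) (W1 := 536870912) (P2 := 536870912) (W2 := 536870912) (P3 := 587336777) (W3 := 62277027) (N0 := 3) (En := eng) (mo := mog) (C1 := cd1q1) (C2 := cd1q1) (C3 := pd0)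
    rfl (fun _ => rfl) s4_pm_101

noncomputable def f_pm_102_a : ℕ → ℕ → ℕ → ℕ → Bool := onCell 536870912 536870912 0 536870912 587336777 62277027
    (rowB 3 eng mog cd1q1 cd1q2a pd0 0 false true false .npp 1 0 2 (qsf 536870912 536870912 0 536870912 0) ndB1q1 ndB1q2a pcB0 Cut.none Ext.none)

def k0_pm_102_a : ∃ t, chk3 f_pm_102_a t 2 2 1 = true :=
  ⟨(a (b (l 2) (a (l 2) (b (l 2) (a (l 2) (l 16641280))))) (a (a (a (b (l 2) (b (l 16701440) (l 16656320))) (b (b (a (l 2) (a (l 2) (b (l 16759368) (l 16763440)))) (l 16751792)) (b (l 16714800) (l 16666032)))) (b (b (b (a (b (a (l 16753584) (l 91972640247)) (l 16757960)) (b (a (l 177335107159) (l 193441225463)) (a (l 16752456) (l 90362029063)))) (a (b (l 16761552) (l 16762680)) (b (l 16756496) (l 16760040)))) (a (l 16757408) (b (b (l 16761416) (l 16761040)) (l 16757568)))) (b (b (l 16743136) (l 16720816)) (b (l 16686648) (l 16675808))))) (b (a (b (b (a (b (l 3) (a (l 177871976551) (l 186461902423))) (l 3)) (a (b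 (a (l 16750960) (b (l 174650759671) (l 16748376))) (l 16754688)) (b (a (l 178408844775) (l 183240674423)) (a (l 16748952) (b (l 175187629735) (l 16746136)))))) (b (a (b (l 16758288) (l 16760096)) (b (l 16752328) (l 16756176))) (a (l 16759896) (l 16759200)))) (b (b (l 3) (a (b (l 3) (a (l 175187615367) (l 177335090599))) (l 3))) (b (a (b (a (l 16746328) (b (l 172503261207) (l 16743408))) (l 16749616)) (b (l 174113885015) (a (l 16743344) (b (l 171966384183) (l 16740200))))) (a (b (a (l 16755248) (l 16752176)) (l 16756776)) (b (l 16746552) (a (l 16752864) (l 16749424))))))) (b (b (a (l 16756240) (a (l 16758776) (b (l 16754832) (l 16757288)))) (a (l 16786432) (a (l 16755112) (l 16758272)))) (a (b (l 16717232) (l 16693968)) (b (b (l 16750088) (l 16739232)) (l 16713000))))))), by decide +kernel⟩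

def k1_pm_102_a : ∃ t, chk3 f_pm_102_a t 2 3 1 = true :=
  ⟨(a (b (a (l 2) (b (l 16622168) (a (l 16618008) (l 16614280)))) (b (a (a (l 2) (b (l 16582000) (l 16511896))) (b (a (b (l 16603064) (l 16570944)) (b (l 16609080) (l 16590728))) (a (l 16529704) (l 16565352)))) (a (b (a (l 16497904) (b (l 16471808) (l 16451072))) (a (b (l 16399400) (a (l 16373696) (l 16393936))) (b (l 16435328) (a (l 16415080) (l 16434560))))) (b (a (a (l 16481536) (l 16499632)) (l 16544992)) (a (a (l 16458464) (l 16487528)) (b (l 16519472) (a (l 16524616) (c (l 16589264) (l 16524888))))))))) (b (b (a (a (l 16642272) (l 16661696)) (b (a (l 16685912) (l 16765912)) (a (l 16676984) (l 16695704)))) (a (b (l 16642696) (l 16619080)) (a (l 16713824) (l 16691920)))) (b (a (a (b (l 16624960) (a (l 16596640) (l 16615096))) (b (b (l 16649712) (l 16648840)) (b (l 16643456) (l 16639864)))) (b (a (b (l 16674144) (l 16675536)) (l 16695216)) (a (l 16672208) (l 16697752)))) (a (b (a (a (a (l 16578696)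 (l 16590936)) (b (l 16608400) (l 16606920))) (b (l 16637024) (l 16634400))) (a (b (a (l 16583728) (l 16605856)) (a (b (l 16584112) (l 16584120)) (l 16604304))) (c (l 16657536) (l 16607880)))) (b (a (l 16667008) (l 16693120)) (a (c (l 16686432) (b (l 16645248) (l 16644736))) (b (l 16692440) (a (l 16686592) (a (l 16696304) (l 16702488)))))))))), by decide +kernel⟩

def k2_pm_102_a : ∃ t, chk3 f_pm_102_a t 6 2 1 = true :=
  ⟨(b (a (b (l 3) (a (b (a (b (l 3) (a (l 171429507015) (l 3))) (l 3)) (a (b (a (b (l 16738360) (l 16741304)) (b (l 169282022039) (l 91972628967))) (l 16743216)) (b (l 164450172055) (a (l 90898888039) (l 148344050743))))) (b (l 3) (a (b (l 3) (a (l 154786491143) (l 3))) (l 3))))) (l 3)) (a (b (a (b (a (b (a (l 16750224) (l 16746320)) (l 16752736)) (b (a (l 16741768) (l 16736704)) (a (l 16747232) (l 16742736)))) (a (l 16757576) (b (l 16750728) (l 16755296)))) (b (a (b (a (b (l 153175897351) (l 16732752)) (l 160692071591)) (a (l 16737576) (l 16731920)))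 (b (l 3) (a (b (l 163913305991) (l 16727528)) (l 151565254439)))) (a (b (a (l 16744328) (l 16739288)) (l 16748504)) (b (a (l 16733448) (l 90898860535)) (a (l 16741096) (l 16735112)))))) (a (b (b (l 16758696) (l 16756992)) (b (l 16750904) (l 16736856))) (b (a (l 16756424) (b (a (l 16748208) (l 16742728)) (l 16752440))) (a (l 16758232) (l 16758864))))) (b (a (b (l 3) (a (b (a (l 139217245975) (l 138143470775)) (a (l 16728536) (b (l 112373686567) (l 16723848)))) (b (l 3) (a (l 122037355735) (l 3))))) (l 3)) (a (b (a (b (a (l 16736744) (l 16730360)) (a (l 16744968) (l 16739056))) (b (a (l 16723440) (b (l 113447417911) (l 16718576))) (a (l 16732784) (l 16726048)))) (a (l 16753208) (b (a (l 16741808) (l 16735560)) (l 16747240)))) (b (a (b (a (l 122037376711) (l 3)) (a (l 50633510583) (b (l 119352979431) (l 16714200)))) (b (l 3) (a (l 130627260615) (l 3)))) (a (b (a (b (l 16726464) (l 16731416)) (l 16721920)) (a (l 16738568) (b (l 16729600) (l 16734480)))) (b (a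 (b (l 81772008183) (l 16717232)) (l 123647943543)) (a (b (l 16722528) (l 16727776)) (l 16712680))))))))), by decide +kernel⟩

def k3_pm_102_a : ∃ t, chk3 f_pm_102_a t 7 2 1 = true :=
  ⟨(a (b (l 3) (b (l 3) (a (b (l 3) (a (b (l 3) (a (b (l 126869179831) (l 16713296)) (b (l 3) (l 148344021207)))) (l 3))) (l 3)))) (l 3)), by decide +kernel⟩

def k4_pm_102_a : ∃ t, chk3 f_pm_102_a t 6 3 1 = true :=
  ⟨(b (a (b (b (a (l 16718800) (a (l 16733920) (l 16752056))) (a (l 16713776) (b (l 16728608) (l 16726128)))) (a (l 16709520) (b (l 16724568) (l 16724256)))) (b (a (b (a (b (l 16758776) (l 16756912)) (b (l 16754088) (l 16758016))) (a (l 16736704) (l 16753224))) (b (a (l 16748632) (b (a (l 16735256) (b (l 16725968) (l 16731048))) (l 16741680))) (a (b (l 16757112) (l 16757160)) (b (l 16750056) (l 16755936))))) (b (b (a (l 16732760) (l 16754760)) (a (l 16732024) (l 16740464))) (a (l 16730568) (b (l 16737456) (l 16735736)))))) (b (a (b (a (l 16714472) (l 16729104)) (a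 (a (l 16714808) (l 16724728)) (b (l 16734816) (l 16734456)))) (b (a (l 16734304) (l 16737216)) (a (l 16825448) (b (l 16741632) (l 16745848))))) (a (b (a (c (l 16728568) (l 16703120)) (l 16775144)) (a (a (b (l 16710128) (l 16711384)) (a (l 16718992) (l 16724184))) (l 16735152))) (b (a (l 16740896) (l 16744560)) (a (l 16743688) (l 16748080)))))), by decide +kernel⟩

def k5_pm_102_a : ∃ t, chk3 f_pm_102_a t 14 6 1 = true :=
  ⟨(b (a (b (a (b (a (b (l 16718696) (l 16724184)) (b (l 117205518983) (l 16716896))) (a (b (l 16729344) (l 16734536)) (b (l 16722424) (l 16727664)))) (b (a (b (l 152638968183) (l 129553555703)) (l 3)) (a (b (l 16715200) (l 16720704)) (b (l 175187587047) (l 16734648))))) (a (b (l 16738744) (l 16747552)) (b (a (b (l 16726016) (l 16731312)) (b (l 16719056) (l 16724432))) (a (l 16738784) (b (l 16729688) (l 16734672)))))) (b (a (b (l 3) (a (b (l 3) (l 175187551831)) (l 3))) (l 3)) (a (b (a (b (l 161228960823) (l 16717664)) (b (l 181630000663)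 (l 178408820199))) (a (b (l 16723024) (l 16728032)) (b (l 16716360) (l 16721480)))) (b (l 3) (a (b (l 167671363623) (l 155323384407)) (b (l 3) (a (l 177335044839) (l 3)))))))) (b (a (a (b (l 16754424) (l 16757472)) (b (a (l 16747424) (l 16741696)) (l 16752480))) (a (b (a (l 16735392) (b (l 16726400) (l 16731288))) (l 16741440)) (b (a (b (l 16719952) (a (l 16726424) (l 16723216))) (b (a (l 16715280) (l 186461862935)) (a (l 16720048) (l 16716928)))) (a (l 16732032) (b (a (l 16724840) (l 16721696)) (a (l 16729592) (l 16726424))))))) (a (b (a (l 16751760) (l 16757104)) (a (l 16742344) (l 16754888))) (a (b (a (l 16752496) (l 16747296)) (l 16755928)) (b (b (l 16735912) (l 16803312)) (a (l 16749880) (l 16786144))))))), by decide +kernel⟩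

def k6_pm_102_a : ∃ t, chk3 f_pm_102_a t 15 6 1 = true :=
  ⟨(b (l 3) (a (b (a (b (a (b (a (l 172503199127) (l 3)) (a (l 188072488983) (l 176798169463))) (l 3)) (a (b (b (l 16736872) (l 16718272)) (a (l 16723296) (l 16720224))) (b (a (l 185388120967) (l 3)) (a (l 16717264) (l 185925005959))))) (b (l 3) (a (b (l 3) (a (l 188609329671) (l 3))) (l 3)))) (a (b (a (b (a (l 16727976) (l 16724880)) (l 16731048)) (b (a (l 16721792) (l 16718824)) (a (l 16726352) (l 16723296)))) (a (l 16737928) (l 16731656))) (b (a (b (a (l 16726240) (l 179482543799)) (a (l 16720272) (l 16717368))) (b (l 3) (a (l 170892636119) (l 152102128679)))) (a (b (a (l 16724768) (l 16742840)) (l 16727640)) (b (a (b (l 16717680) (l 16719928)) (l 168745148551)) (a (l 16744400) (l 16741320))))))) (b (l 3) (a (b (l 3) (a (b (a (l 176261334231) (l 3)) (a (l 130627310167) (l 172503233559))) (l 3))) (l 3))))), by decide +kernel⟩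

def k7_pm_102_a : ∃ t, chk3 f_pm_102_a t 14 14 1 = true :=
  ⟨(b (a (l 16740808) (a (b (l 16757368) (l 16746032)) (b (b (l 16752776) (l 16776504)) (b (l 16757632) (l 16756480))))) (a (b (l 16742824) (l 16745376)) (a (b (l 16744144) (l 16744288)) (b (l 16747936) (l 16744520))))), by decide +kernel⟩

def k8_pm_102_a : ∃ t, chk3 f_pm_102_a t 30 14 1 = true :=
  ⟨(b (b (a (a (l 16746584) (l 16740376)) (b (a (l 16731928) (b (l 16746136) (l 16727040))) (a (l 16756960) (l 16729856)))) (a (b (a (l 16751400) (l 16745840)) (l 16793800)) (a (b (l 16739736) (l 16743144)) (b (a (l 16735232) (l 16732040)) (l 16737200))))) (a (b (l 16754792) (l 16750472)) (b (a (b (l 16746816) (l 16749656)) (b (l 16740616) (l 16744368))) (l 16772176)))), by decide +kernel⟩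

def k9_pm_102_a : ∃ t, chk3 f_pm_102_a t 31 14 1 = true :=
  ⟨(b (a (b (a (b (a (l 16742784) (l 16734208)) (a (l 16725600) (l 16722872))) (b (l 147807166343) (a (b (l 16718688) (l 16720728)) (l 144585943447)))) (a (b (l 16727584) (a (l 16732776) (l 16729624))) (b (a (l 16723640) (b (l 16740576) (l 16721680))) (a (l 16726712) (l 16723984))))) (b (a (b (l 3) (a (l 138143467591) (l 3))) (l 3)) (a (b (a (b (l 101099389559) (a (l 16719224) (l 16717720))) (l 144585959863)) (a (b (a (l 16721120) (l 16719616)) (l 16722104)) (b (a (l 16718096) (l 16716568)) (a (l 16720104) (l 16718560))))) (b (l 3) (a (b (a (l 16714904) (l 3)) (a (l 16717112) (l 16715496))) (b (l 3) (a (l 130627317655) (l 3)))))))) (a (b (a (b (l 16734768) (l 16738272)) (b (a (l 16730472) (l 16748360)) (a (l 16733736) (l 16730952)))) (a (l 16743288) (b (b (l 16734984) (l 16736768)) (l 16739144)))) (b (a (b (a (l 16724552) (b (l 16721416) (l 16722816))) (a (l 16749240) (b (l 16724392) (l 16726240))))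 (a (b (b (a (l 16719064) (l 16717608)) (a (l 16720840) (b (l 16719072) (l 16720008)))) (b (l 16721840) (l 16723376))) (b (b (a (b (l 16715552) (l 16716648)) (b (l 3) (l 16714968))) (a (b (l 16717640) (l 16718560)) (b (l 16716128) (l 16717160)))) (b (a (l 16720208) (b (l 16718072) (l 16719048))) (l 16721176))))) (a (b (b (l 16729264) (l 16751800)) (b (l 16732760) (l 16734248))) (b (a (b (l 16725216) (l 16726808)) (b (l 16722384) (l 16724224))) (a (b (l 16728360) (l 16730224)) (b (l 16725784) (l 16727384)))))))), by decide +kernel⟩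

def k10_pm_102_a : ∃ t, chk3 f_pm_102_a t 7 15 1 = true :=
  ⟨(a (a (b (l 16745920) (l 16750328)) (b (b (a (l 16745496) (l 16745904)) (l 16746240)) (l 16750248))) (b (a (b (b (a (l 16746016) (l 16753224)) (l 16745072)) (l 16743960)) (b (a (b (a (l 16747784) (l 16742408)) (a (l 16750224) (l 16745408))) (b (a (l 16736680) (a (l 16732488) (l 16729776))) (a (b (l 16738968) (l 16740256)) (a (l 16735504) (l 16753680))))) (a (l 16749128) (a (l 16742352) (l 16736840))))) (a (b (l 16745360) (l 16748848)) (a (b (l 16741968) (l 16743784)) (b (a (l 16744584) (l 16739376)) (a (l 16744744) (l 16740344))))))), by decide +kernel⟩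

theorem s11_pm_102_a : ∃ t, chk3 f_pm_102_a t 15 14 1 = true := ex3_a k8_pm_102_a k9_pm_102_a

theorem s12_pm_102_a : ∃ t, chk3 f_pm_102_a t 7 14 1 = true := ex3_a k7_pm_102_a s11_pm_102_a

theorem s13_pm_102_a : ∃ t, chk3 f_pm_102_a t 7 7 1 = true := ex3_b s12_pm_102_a k10_pm_102_a

theorem s14_pm_102_a : ∃ t, chk3 f_pm_102_a t 7 6 1 = true := ex3_a k5_pm_102_a k6_pm_102_a

theorem s15_pm_102_a : ∃ t, chk3 f_pm_102_a t 7 3 1 = true := ex3_b s14_pm_102_a s13_pm_102_a

theorem s16_pm_102_a : ∃ t, chk3 f_pm_102_a t 3 3 1 = true := ex3_a k4_pm_102_a s15_pm_102_a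

theorem s17_pm_102_a : ∃ t, chk3 f_pm_102_a t 3 2 1 = true := ex3_a k2_pm_102_a k3_pm_102_a

theorem s18_pm_102_a : ∃ t, chk3 f_pm_102_a t 3 1 1 = true := ex3_b s17_pm_102_a s16_pm_102_a

theorem s19_pm_102_a : ∃ t, chk3 f_pm_102_a t 2 1 1 = true := ex3_b k0_pm_102_a k1_pm_102_a

theorem s20_pm_102_a : ∃ t, chk3 f_pm_102_a t 1 1 1 = true := ex3_a s19_pm_102_a s18_pm_102_a

theorem c_pm_102_a : CertB 536870912 536870912 0 536870912 587336777 62277027 3 eng mog cd1q1 cd1q2a pd0 false true false .npp 1 0 2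
    ndB1q1 ndB1q2a pcB0 Cut.none Ext.none :=
  certB0 (fam := false) (s1 := true) (s2 := false) (a := 1) (b := 0) (c := 2) (cn := .npp) (n1 := ndB1q1) (n2 := ndB1q2a) (pc := pcB0) (cut := Cut.none) (xt := Ext.none) (P1 := 536870912) (W1 := 536870912) (P2 := 0) (W2 := 536870912) (P3 := 587336777) (W3 := 62277027) (N0 := 3) (En := eng) (mo := mog) (C1 := cd1q1) (C2 := cd1q2a) (C3 := pd0)
    rfl s20_pm_102_a

noncomputable def f_pm_102_b : ℕ → ℕ → ℕ → ℕ → Bool := onCell 0 536870912 1239849684 370763052 587336777 62277027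
    (rowB 3 eng mog cd1q1 cd1q2b pd0 2 false true false .npp 1 0 2 (qsf 536870912 536870912 1239849684 370763052 0) ndB1q1 ndB1q2b pcB0 Cut.none Ext.none)

def k0_pm_102_b : ∃ t, chk3 f_pm_102_b t 1 1 1 = true :=
  ⟨(a (l 3) (a (b (l 3) (l 3)) (b (a (l 3) (b (a (l 3) (b (a (l 3) (b (a (l 193441250887) (l 16743352)) (l 192904328791))) (l 3))) (l 3))) (l 3)))), by decide +kernel⟩

theorem c_pm_102_b : CertB 536870912 536870912 1239849684 370763052 587336777 62277027 3 eng mog cd1q1 cd1q2b pd0 false true false .npp 1 0 2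
    ndB1q1 ndB1q2b pcB0 Cut.none Ext.none :=
  certB2 (fam := false) (s1 := true) (s2 := false) (a := 1) (b := 0) (c := 2) (cn := .npp) (n1 := ndB1q1) (n2 := ndB1q2b) (pc := pcB0) (cut := Cut.none) (xt := Ext.none) (P1 := 536870912) (W1 := 536870912) (P2 := 1239849684) (W2 := 370763052) (P3 := 587336777) (W3 := 62277027) (N0 := 3) (En := eng) (mo := mog) (C1 := cd1q1) (C2 := cd1q2b) (C3 := pd0)
    rfl (fun _ => rfl) k0_pm_102_b

noncomputable def f_pm_112_a : ℕ → ℕ → ℕ → ℕ → Bool := onCell 536870912 536870912 0 536870912 587336777 62277027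
    (rowB 3 eng mog cd1q1 cd1q2a pd1 2 false true false .dn 1 1 2 (qsf 536870912 536870912 0 536870912 1) ndB1q1 ndB1q2a pcB1 Cut.none Ext.none)

def k0_pm_112_a : ∃ t, chk3 f_pm_112_a t 1 1 1 = true :=
  ⟨(a (b (a (b (a (b (b (a (a (b (l 16758328) (l 16777888)) (b (l 16758336) (l 16754640))) (b (l 16754080) (l 16747800))) (a (l 16748576) (l 16737088))) (b (a (l 16734728) (l 16720608)) (a (a (l 16721344) (l 16714776)) (l 16703112)))) (b (a (b (l 16738272) (l 16721768)) (b (l 16722384) (l 16706184))) (a (l 16696280) (l 16679584)))) (a (b (a (b (l 16699056) (l 16675824)) (b (l 16683376) (l 16660184))) (a (b (l 16648360) (l 16613440)) (l 16616360))) (b (a (l 16719176) (l 16642304)) (l 16598840)))) (a (a (b (b (b (l 16706472) (l 16689392)) (l 16663688)) (b (l 16629320) (l 16586144))) (b (b (l 1) (l 1)) (l 1))) (l 1))) (a (b (b (a (a (l 16549688) (l 16540448)) (l 16534832)) (a (b (l 16475096) (l 16450824)) (b (l 16483056) (l 16535376)))) (a (b (b (l 16407248) (l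 16331992)) (a (b (l 16310840) (l 16288616)) (l 140156019255))) (b (l 187401094087) (l 1)))) (b (l 1) (l 1)))) (l 1)), by decide +kernel⟩

theorem c_pm_112_a : CertB 536870912 536870912 0 536870912 587336777 62277027 3 eng mog cd1q1 cd1q2a pd1 false true false .dn 1 1 2
    ndB1q1 ndB1q2a pcB1 Cut.none Ext.none :=
  certB2 (fam := false) (s1 := true) (s2 := false) (a := 1) (b := 1) (c := 2) (cn := .dn) (n1 := ndB1q1) (n2 := ndB1q2a) (pc := pcB1) (cut := Cut.none) (xt := Ext.none) (P1 := 536870912) (W1 := 536870912) (P2 := 0) (W2 := 536870912) (P3 := 587336777) (W3 := 62277027) (N0 := 3) (En := eng) (mo := mog) (C1 := cd1q1) (C2 := cd1q2a) (C3 := pd1)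
    rfl (fun _ => rfl) k0_pm_112_a

noncomputable def f_pm_112_b : ℕ → ℕ → ℕ → ℕ → Bool := onCell 536870912 536870912 536870912 536870912 587336777 62277027
    (rowB 3 eng mog cd1q1 cd1q2b pd1 1 false true false .dn 1 1 2 (qsf 536870912 536870912 1239849684 370763052 1) ndB1q1 ndB1q2b pcB1 Cut.none Ext.none)

def k0_pm_112_b : ∃ t, chk3 f_pm_112_b t 1 1 1 = true :=
  ⟨(a (b (b (b (a (a (l 1) (b (a (l 1) (b (l 1) (l 171295389959))) (a (l 98817740071) (l 16756320)))) (a (b (a (b (l 60699955255) (l 16756264)) (b (l 16742152) (l 16741024))) (a (l 16750600) (l 16739376))) (b (a (b (l 261086923543) (l 16720136)) (l 3)) (a (l 16722224) (l 16702280))))) (a (a (b (l 142304272807) (l 146062381399)) (b (l 92375358615) (l 16736544))) (a (b (a (l 16744912) (l 16738680)) (a (l 16740504) (l 16740600))) (b (a (l 16727744) (l 16711928)) (a (l 16736912) (l 16727984)))))) (a (b (a (b (l 16737112) (l 16700512)) (l 16722288)) (a (l 16676392) (l 16704216))) (b (a (l 16743256)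 (b (a (l 16749752) (l 16750376)) (l 16772824))) (b (a (l 16750552) (l 16801536)) (l 16795616))))) (b (b (a (a (l 16639872) (l 16689672)) (a (l 16773864) (l 16900256))) (a (a (l 16602272) (l 16676328)) (a (l 16804712) (l 16921392)))) (a (b (l 16608056) (l 16584568)) (b (l 16834360) (l 2))))) (a (b (b (b (l 3) (a (b (l 3) (a (l 16715904) (l 3))) (l 3))) (b (a (b (a (l 16745976) (l 16718984)) (l 104857624503)) (b (l 3) (l 220284909879))) (a (b (a (l 16838976) (l 16855152)) (l 16921168)) (b (l 249208679671) (l 2))))) (a (a (b (l 16955360) (l 2)) (l 2)) (l 2))) (b (l 3) (l 2)))), by decide +kernel⟩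

theorem c_pm_112_b : CertB 536870912 536870912 1239849684 370763052 587336777 62277027 3 eng mog cd1q1 cd1q2b pd1 false true false .dn 1 1 2
    ndB1q1 ndB1q2b pcB1 Cut.none Ext.none :=
  certB1 (fam := false) (s1 := true) (s2 := false) (a := 1) (b := 1) (c := 2) (cn := .dn) (n1 := ndB1q1) (n2 := ndB1q2b) (pc := pcB1) (cut := Cut.none) (xt := Ext.none) (P1 := 536870912) (W1 := 536870912) (P2 := 1239849684) (W2 := 370763052) (P3 := 587336777) (W3 := 62277027) (N0 := 3) (En := eng) (mo := mog) (C1 := cd1q1) (C2 := cd1q2b) (C3 := pd1)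
    rfl (fun _ => rfl) k0_pm_112_b

noncomputable def f_pm_113 : ℕ → ℕ → ℕ → ℕ → Bool := onCell 536870912 536870912 536870912 536870912 587336777 62277027
    (rowB 3 eng mog cd1q1 cd1q3 pd1 1 false true false .nn 1 1 3 (qsf 536870912 536870912 1610612736 536870912 1) ndB1q1 ndB1q3 pcB1 Cut.none Ext.none)

def k0_pm_113 : ∃ t, chk3 f_pm_113 t 1 1 1 = true :=
  ⟨(a (b (b (l 1) (a (l 1) (b (l 1) (b (l 1) (l 16793704))))) (b (a (b (l 1) (l 106870748775)) (b (l 48351926055) (l 49425564023))) (a (b (l 16597264) (l 16567152)) (b (l 16818024) (l 16777624))))) (a (a (b (b (l 1) (b (b (l 1) (l 197065233207)) (b (a (l 16842432) (l 16862168)) (l 16924944)))) (b (b (b (l 17010104) (l 17049640)) (l 16975352)) (b (l 16904064) (l 16849128)))) (b (b (l 3) (b (b (l 3) (l 205252548615)) (b (l 191830629687) (l 184314458039)))) (b (b (b (a (l 16979512) (l 16909904)) (l 16833352)) (b (l 17052696) (l 17020096))) (b (l 16946480) (l 16874616))))) (b (l 3) (b (b (a (b (a (l 270750649255)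 (l 3)) (a (l 16905640) (l 243907022823))) (l 3)) (a (b (a (l 16950248) (l 16875400)) (a (l 16987928) (l 16927040))) (b (l 3) (a (b (l 16872288) (l 16882328)) (l 3))))) (b (b (a (l 16810616) (a (b (l 16890008) (l 16894432)) (a (l 16858136) (l 3)))) (a (l 16940224) (a (l 16893608) (l 366313926551)))) (a (l 16873912) (b (a (l 16878528) (a (l 16845600) (l 16822592))) (a (l 16833216) (l 16811264))))))))), by decide +kernel⟩

theorem c_pm_113 : CertB 536870912 536870912 1610612736 536870912 587336777 62277027 3 eng mog cd1q1 cd1q3 pd1 false true false .nn 1 1 3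
    ndB1q1 ndB1q3 pcB1 Cut.none Ext.none :=
  certB1 (fam := false) (s1 := true) (s2 := false) (a := 1) (b := 1) (c := 3) (cn := .nn) (n1 := ndB1q1) (n2 := ndB1q3) (pc := pcB1) (cut := Cut.none) (xt := Ext.none) (P1 := 536870912) (W1 := 536870912) (P2 := 1610612736) (W2 := 536870912) (P3 := 587336777) (W3 := 62277027) (N0 := 3) (En := eng) (mo := mog) (C1 := cd1q1) (C2 := cd1q3) (C3 := pd1)
    rfl (fun _ => rfl) k0_pm_113

noncomputable def f_pm_123 : ℕ → ℕ → ℕ → ℕ → Bool := onCell 1073741824 536870912 1610612736 536870912 587336777 62277027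
    (rowB 3 eng mog cd1q1 cd1q3 pd2 2 false true false .npn 1 2 3 (qsf 536870912 536870912 1610612736 536870912 2) ndB1q1 ndB1q3 pcB2 Cut.none Ext.none)

def k0_pm_123 : ∃ t, chk3 f_pm_123 t 1 1 1 = true :=
  ⟨(a (b (a (b (a (l 16478808) (l 16409848)) (a (l 16834024) (l 16586304))) (b (a (l 16386512) (l 1)) (a (l 16507200) (l 16469280)))) (a (b (a (b (l 16766040) (l 16790112)) (l 16695872)) (a (b (l 16794720) (a (l 16788072) (l 16764736))) (b (l 16723040) (l 16718240)))) (b (a (l 16629616) (l 16600528)) (a (b (l 16667368) (a (l 16691680) (l 16672944))) (l 16660072))))) (a (a (b (l 238404055879) (b (l 16585904) (l 16655960))) (b (l 1) (b (l 16582904) (l 16656976)))) (b (l 1) (b (a (l 16600256) (l 1)) (l 16675520))))), by decide +kernel⟩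

theorem c_pm_123 : CertB 536870912 536870912 1610612736 536870912 587336777 62277027 3 eng mog cd1q1 cd1q3 pd2 false true false .npn 1 2 3
    ndB1q1 ndB1q3 pcB2 Cut.none Ext.none :=
  certB2 (fam := false) (s1 := true) (s2 := false) (a := 1) (b := 2) (c := 3) (cn := .npn) (n1 := ndB1q1) (n2 := ndB1q3) (pc := pcB2) (cut := Cut.none) (xt := Ext.none) (P1 := 536870912) (W1 := 536870912) (P2 := 1610612736) (W2 := 536870912) (P3 := 587336777) (W3 := 62277027) (N0 := 3) (En := eng) (mo := mog) (C1 := cd1q1) (C2 := cd1q3) (C3 := pd2)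
    rfl (fun _ => rfl) k0_pm_123

noncomputable def f_pm_133 : ℕ → ℕ → ℕ → ℕ → Bool := onCell 1610612736 536870912 1610612736 536870912 587336777 62277027
    (rowB 3 eng mog cd1q1 cd1q3 pd3 2 false true false .dn 1 3 3 (qsf 536870912 536870912 1610612736 536870912 3) ndB1q1 ndB1q3 pcB3 Cut.none Ext.none)

def k0_pm_133 : ∃ t, chk3 f_pm_133 t 1 1 1 = true :=
  ⟨(a (b (l 1) (a (a (l 16665752) (l 1)) (l 1))) (l 1)), by decide +kernel⟩

theorem c_pm_133 : CertB 536870912 536870912 1610612736 536870912 587336777 62277027 3 eng mog cd1q1 cd1q3 pd3 false true false .dn 1 3 3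
    ndB1q1 ndB1q3 pcB3 Cut.none Ext.none :=
  certB2 (fam := false) (s1 := true) (s2 := false) (a := 1) (b := 3) (c := 3) (cn := .dn) (n1 := ndB1q1) (n2 := ndB1q3) (pc := pcB3) (cut := Cut.none) (xt := Ext.none) (P1 := 536870912) (W1 := 536870912) (P2 := 1610612736) (W2 := 536870912) (P3 := 587336777) (W3 := 62277027) (N0 := 3) (En := eng) (mo := mog) (C1 := cd1q1) (C2 := cd1q3) (C3 := pd3)
    rfl (fun _ => rfl) k0_pm_133

noncomputable def cut_pm_202_aa : Cut := Cut.of [[⟨0, 1, 0, 67108864⟩, ⟨1, 0, 0, 67108864⟩, ⟨2, 1, 0, 67108864⟩]]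

noncomputable def f_pm_202_aa : ℕ → ℕ → ℕ → ℕ → Bool := onCell 0 536870912 0 536870912 587336777 62277027
    (rowB 3 eng mog cd1q2a cd1q2a pd0 0 false true false .pp 2 0 2 (qsf 0 536870912 0 536870912 0) ndB1q2a ndB1q2a pcB0 cut_pm_202_aa Ext.none)

def k0_pm_202_aa : ∃ t, chk3 f_pm_202_aa t 1 1 1 = true :=
  ⟨(a (l 3) (b (l 3) (a (l 3) (b (l 3) (b (l 3) (a (l 3) (l 6))))))), by decide +kernel⟩

theorem c_pm_202_aa : CertB 0 536870912 0 536870912 587336777 62277027 3 eng mog cd1q2a cd1q2a pd0 false true false .pp 2 0 2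
    ndB1q2a ndB1q2a pcB0 cut_pm_202_aa Ext.none :=
  certB0 (fam := false) (s1 := true) (s2 := false) (a := 2) (b := 0) (c := 2) (cn := .pp) (n1 := ndB1q2a) (n2 := ndB1q2a) (pc := pcB0) (cut := cut_pm_202_aa) (xt := Ext.none) (P1 := 0) (W1 := 536870912) (P2 := 0) (W2 := 536870912) (P3 := 587336777) (W3 := 62277027) (N0 := 3) (En := eng) (mo := mog) (C1 := cd1q2a) (C2 := cd1q2a) (C3 := pd0)
    rfl k0_pm_202_aa

noncomputable def cut_pm_202_ab : Cut := Cut.of [[⟨0, 1, 0, 67108864⟩, ⟨1, 0, 0, 67108864⟩, ⟨2, 1, 0, 67108864⟩]]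

noncomputable def f_pm_202_ab : ℕ → ℕ → ℕ → ℕ → Bool := onCell 0 536870912 1239849684 370763052 587336777 62277027
    (rowB 3 eng mog cd1q2a cd1q2b pd0 0 false true false .pp 2 0 2 (qsf 0 536870912 1239849684 370763052 0) ndB1q2a ndB1q2b pcB0 cut_pm_202_ab Ext.none)

def k0_pm_202_ab : ∃ t, chk3 f_pm_202_ab t 1 1 1 = true :=
  ⟨(l 3), by decide +kernel⟩

theorem c_pm_202_ab : CertB 0 536870912 1239849684 370763052 587336777 62277027 3 eng mog cd1q2a cd1q2b pd0 false true false .pp 2 0 2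
    ndB1q2a ndB1q2b pcB0 cut_pm_202_ab Ext.none :=
  certB0 (fam := false) (s1 := true) (s2 := false) (a := 2) (b := 0) (c := 2) (cn := .pp) (n1 := ndB1q2a) (n2 := ndB1q2b) (pc := pcB0) (cut := cut_pm_202_ab) (xt := Ext.none) (P1 := 0) (W1 := 536870912) (P2 := 1239849684) (W2 := 370763052) (P3 := 587336777) (W3 := 62277027) (N0 := 3) (En := eng) (mo := mog) (C1 := cd1q2a) (C2 := cd1q2b) (C3 := pd0)
    rfl k0_pm_202_ab

noncomputable def cut_pm_202_ba : Cut := Cut.of [[⟨0, 1, 0, 67108864⟩, ⟨1, 0, 0, 67108864⟩, ⟨2, 1, 0, 67108864⟩]]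

noncomputable def f_pm_202_ba : ℕ → ℕ → ℕ → ℕ → Bool := onCell 1239849684 370763052 0 536870912 587336777 62277027
    (rowB 3 eng mog cd1q2b cd1q2a pd0 0 false true false .pp 2 0 2 (qsf 1239849684 370763052 0 536870912 0) ndB1q2b ndB1q2a pcB0 cut_pm_202_ba Ext.none)

def k0_pm_202_ba : ∃ t, chk3 f_pm_202_ba t 1 1 1 = true :=
  ⟨(l 3), by decide +kernel⟩

theorem c_pm_202_ba : CertB 1239849684 370763052 0 536870912 587336777 62277027 3 eng mog cd1q2b cd1q2a pd0 false true false .pp 2 0 2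
    ndB1q2b ndB1q2a pcB0 cut_pm_202_ba Ext.none :=
  certB0 (fam := false) (s1 := true) (s2 := false) (a := 2) (b := 0) (c := 2) (cn := .pp) (n1 := ndB1q2b) (n2 := ndB1q2a) (pc := pcB0) (cut := cut_pm_202_ba) (xt := Ext.none) (P1 := 1239849684) (W1 := 370763052) (P2 := 0) (W2 := 536870912) (P3 := 587336777) (W3 := 62277027) (N0 := 3) (En := eng) (mo := mog) (C1 := cd1q2b) (C2 := cd1q2a) (C3 := pd0)
    rfl k0_pm_202_ba

noncomputable def cut_pm_202_bb : Cut := Cut.of [[⟨0, 1, 0, 67108864⟩, ⟨1, 0, 0, 67108864⟩, ⟨2, 1, 0, 67108864⟩]]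

noncomputable def f_pm_202_bb : ℕ → ℕ → ℕ → ℕ → Bool := onCell 1239849684 370763052 1239849684 370763052 587336777 62277027
    (rowB 3 eng mog cd1q2b cd1q2b pd0 0 false true false .pp 2 0 2 (qsf 1239849684 370763052 1239849684 370763052 0) ndB1q2b ndB1q2b pcB0 cut_pm_202_bb Ext.none)

def k0_pm_202_bb : ∃ t, chk3 f_pm_202_bb t 1 1 1 = true :=
  ⟨(l 3), by decide +kernel⟩

theorem c_pm_202_bb : CertB 1239849684 370763052 1239849684 370763052 587336777 62277027 3 eng mog cd1q2b cd1q2b pd0 false true false .pp 2 0 2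
    ndB1q2b ndB1q2b pcB0 cut_pm_202_bb Ext.none :=
  certB0 (fam := false) (s1 := true) (s2 := false) (a := 2) (b := 0) (c := 2) (cn := .pp) (n1 := ndB1q2b) (n2 := ndB1q2b) (pc := pcB0) (cut := cut_pm_202_bb) (xt := Ext.none) (P1 := 1239849684) (W1 := 370763052) (P2 := 1239849684) (W2 := 370763052) (P3 := 587336777) (W3 := 62277027) (N0 := 3) (En := eng) (mo := mog) (C1 := cd1q2b) (C2 := cd1q2b) (C3 := pd0)
    rfl k0_pm_202_bb

noncomputable def f_pm_203_a : ℕ → ℕ → ℕ → ℕ → Bool := onCell 0 536870912 0 536870912 587336777 62277027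
    (rowB 3 eng mog cd1q2a cd1q3 pd0 1 false true false .up 2 0 3 (qsf 0 536870912 1610612736 536870912 0) ndB1q2a ndB1q3 pcB0 Cut.none Ext.none)

def k0_pm_203_a : ∃ t, chk3 f_pm_203_a t 1 1 1 = true :=
  ⟨(l 3), by decide +kernel⟩

theorem c_pm_203_a : CertB 0 536870912 1610612736 536870912 587336777 62277027 3 eng mog cd1q2a cd1q3 pd0 false true false .up 2 0 3
    ndB1q2a ndB1q3 pcB0 Cut.none Ext.none :=
  certB1 (fam := false) (s1 := true) (s2 := false) (a := 2) (b := 0) (c := 3) (cn := .up) (n1 := ndB1q2a) (n2 := ndB1q3) (pc := pcB0) (cut := Cut.none) (xt := Ext.none) (P1 := 0) (W1 := 536870912) (P2 := 1610612736) (W2 := 536870912) (P3 := 587336777) (W3 := 62277027) (N0 := 3) (En := eng) (mo := mog) (C1 := cd1q2a) (C2 := cd1q3) (C3 := pd0)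
    rfl (fun _ => rfl) k0_pm_203_a

noncomputable def f_pm_203_b : ℕ → ℕ → ℕ → ℕ → Bool := onCell 1239849684 370763052 1610612736 536870912 587336777 62277027
    (rowB 3 eng mog cd1q2b cd1q3 pd0 0 false true false .up 2 0 3 (qsf 1239849684 370763052 1610612736 536870912 0) ndB1q2b ndB1q3 pcB0 Cut.none Ext.none)

def k0_pm_203_b : ∃ t, chk3 f_pm_203_b t 1 1 1 = true :=
  ⟨(l 3), by decide +kernel⟩

theorem c_pm_203_b : CertB 1239849684 370763052 1610612736 536870912 587336777 62277027 3 eng mog cd1q2b cd1q3 pd0 false true false .up 2 0 3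
    ndB1q2b ndB1q3 pcB0 Cut.none Ext.none :=
  certB0 (fam := false) (s1 := true) (s2 := false) (a := 2) (b := 0) (c := 3) (cn := .up) (n1 := ndB1q2b) (n2 := ndB1q3) (pc := pcB0) (cut := Cut.none) (xt := Ext.none) (P1 := 1239849684) (W1 := 370763052) (P2 := 1610612736) (W2 := 536870912) (P3 := 587336777) (W3 := 62277027) (N0 := 3) (En := eng) (mo := mog) (C1 := cd1q2b) (C2 := cd1q3) (C3 := pd0)
    rfl k0_pm_203_b

noncomputable def cut_pm_213_a : Cut := Cut.of [[⟨0, 1, 0, 67108864⟩, ⟨1, 1, 0, 67108864⟩, ⟨2, 2, 0, 16777216⟩]]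

noncomputable def f_pm_213_a : ℕ → ℕ → ℕ → ℕ → Bool := onCell 0 536870912 1610612736 536870912 587336777 62277027
    (rowB 3 eng mog cd1q2a cd1q3 pd1 0 false true false .pnn 2 1 3 (qsf 0 536870912 1610612736 536870912 1) ndB1q2a ndB1q3 pcB1 cut_pm_213_a Ext.none)

def k0_pm_213_a : ∃ t, chk3 f_pm_213_a t 1 1 1 = true :=
  ⟨(b (l 3) (b (l 3) (a (l 3) (a (l 3) (b (l 3) (b (l 3) (a (l 3) (b (l 3) (b (l 3) (l 6)))))))))), by decide +kernel⟩

theorem c_pm_213_a : CertB 0 536870912 1610612736 536870912 587336777 62277027 3 eng mog cd1q2a cd1q3 pd1 false true false .pnn 2 1 3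
    ndB1q2a ndB1q3 pcB1 cut_pm_213_a Ext.none :=
  certB0 (fam := false) (s1 := true) (s2 := false) (a := 2) (b := 1) (c := 3) (cn := .pnn) (n1 := ndB1q2a) (n2 := ndB1q3) (pc := pcB1) (cut := cut_pm_213_a) (xt := Ext.none) (P1 := 0) (W1 := 536870912) (P2 := 1610612736) (W2 := 536870912) (P3 := 587336777) (W3 := 62277027) (N0 := 3) (En := eng) (mo := mog) (C1 := cd1q2a) (C2 := cd1q3) (C3 := pd1)
    rfl k0_pm_213_a

noncomputable def cut_pm_213_b : Cut := Cut.of [[⟨0, 1, 0, 67108864⟩, ⟨1, 1, 0, 67108864⟩, ⟨2, 2, 0, 16777216⟩]]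

noncomputable def f_pm_213_b : ℕ → ℕ → ℕ → ℕ → Bool := onCell 1239849684 370763052 1610612736 536870912 587336777 62277027
    (rowB 3 eng mog cd1q2b cd1q3 pd1 0 false true false .pnn 2 1 3 (qsf 1239849684 370763052 1610612736 536870912 1) ndB1q2b ndB1q3 pcB1 cut_pm_213_b Ext.none)

def k0_pm_213_b : ∃ t, chk3 f_pm_213_b t 1 1 1 = true :=
  ⟨(l 3), by decide +kernel⟩

theorem c_pm_213_b : CertB 1239849684 370763052 1610612736 536870912 587336777 62277027 3 eng mog cd1q2b cd1q3 pd1 false true false .pnn 2 1 3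
    ndB1q2b ndB1q3 pcB1 cut_pm_213_b Ext.none :=
  certB0 (fam := false) (s1 := true) (s2 := false) (a := 2) (b := 1) (c := 3) (cn := .pnn) (n1 := ndB1q2b) (n2 := ndB1q3) (pc := pcB1) (cut := cut_pm_213_b) (xt := Ext.none) (P1 := 1239849684) (W1 := 370763052) (P2 := 1610612736) (W2 := 536870912) (P3 := 587336777) (W3 := 62277027) (N0 := 3) (En := eng) (mo := mog) (C1 := cd1q2b) (C2 := cd1q3) (C3 := pd1)
    rfl k0_pm_213_b

noncomputable def f_pm_303 : ℕ → ℕ → ℕ → ℕ → Bool := onCell 1610612736 536870912 1610612736 536870912 587336777 62277027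
    (rowB 3 eng mog cd1q3 cd1q3 pd0 0 false true false .npn 3 0 3 (qsf 1610612736 536870912 1610612736 536870912 0) ndB1q3 ndB1q3 pcB0 Cut.none Ext.none)

def k0_pm_303 : ∃ t, chk3 f_pm_303 t 1 1 1 = true :=
  ⟨(l 3), by decide +kernel⟩

theorem c_pm_303 : CertB 1610612736 536870912 1610612736 536870912 587336777 62277027 3 eng mog cd1q3 cd1q3 pd0 false true false .npn 3 0 3
    ndB1q3 ndB1q3 pcB0 Cut.none Ext.none :=
  certB0 (fam := false) (s1 := true) (s2 := false) (a := 3) (b := 0) (c := 3) (cn := .npn) (n1 := ndB1q3) (n2 := ndB1q3) (pc := pcB0) (cut := Cut.none) (xt := Ext.none) (P1 := 1610612736) (W1 := 536870912) (P2 := 1610612736) (W2 := 536870912) (P3 := 587336777) (W3 := 62277027) (N0 := 3) (En := eng) (mo := mog) (C1 := cd1q3) (C2 := cd1q3) (C3 := pd0)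
    rfl k0_pm_303

noncomputable def f_pm_313 : ℕ → ℕ → ℕ → ℕ → Bool := onCell 1610612736 536870912 1610612736 536870912 587336777 62277027
    (rowB 3 eng mog cd1q3 cd1q3 pd1 0 false true false .dn 3 1 3 (qsf 1610612736 536870912 1610612736 536870912 1) ndB1q3 ndB1q3 pcB1 Cut.none Ext.none)

def k0_pm_313 : ∃ t, chk3 f_pm_313 t 1 1 1 = true :=
  ⟨(l 3), by decide +kernel⟩

theorem c_pm_313 : CertB 1610612736 536870912 1610612736 536870912 587336777 62277027 3 eng mog cd1q3 cd1q3 pd1 false true false .dn 3 1 3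
    ndB1q3 ndB1q3 pcB1 Cut.none Ext.none :=
  certB0 (fam := false) (s1 := true) (s2 := false) (a := 3) (b := 1) (c := 3) (cn := .dn) (n1 := ndB1q3) (n2 := ndB1q3) (pc := pcB1) (cut := Cut.none) (xt := Ext.none) (P1 := 1610612736) (W1 := 536870912) (P2 := 1610612736) (W2 := 536870912) (P3 := 587336777) (W3 := 62277027) (N0 := 3) (En := eng) (mo := mog) (C1 := cd1q3) (C2 := cd1q3) (C3 := pd1)
    rfl k0_pm_313

noncomputable def f_mm_001 : ℕ → ℕ → ℕ → ℕ → Bool := onCell 0 536870912 0 536870912 587336777 62277027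
    (rowB 3 eng mog cd1q0 cd1q1 pd0 1 false false false .up 0 0 1 (qsf 0 536870912 536870912 536870912 0) ndB1q0 ndB1q1 pcB0 Cut.none Ext.none)

def k0_mm_001 : ∃ t, chk3 f_mm_001 t 1 1 1 = true :=
  ⟨(l 3), by decide +kernel⟩

theorem c_mm_001 : CertB 0 536870912 536870912 536870912 587336777 62277027 3 eng mog cd1q0 cd1q1 pd0 false false false .up 0 0 1
    ndB1q0 ndB1q1 pcB0 Cut.none Ext.none :=
  certB1 (fam := false) (s1 := false) (s2 := false) (a := 0) (b := 0) (c := 1) (cn := .up) (n1 := ndB1q0) (n2 := ndB1q1) (pc := pcB0) (cut := Cut.none) (xt := Ext.none) (P1 := 0) (W1 := 536870912) (P2 := 536870912) (W2 := 536870912) (P3 := 587336777) (W3 := 62277027) (N0 := 3) (En := eng) (mo := mog) (C1 := cd1q0) (C2 := cd1q1) (C3 := pd0)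
    rfl (fun _ => rfl) k0_mm_001

noncomputable def f_mm_011 : ℕ → ℕ → ℕ → ℕ → Bool := onCell 0 536870912 536870912 536870912 587336777 62277027
    (rowB 3 eng mog cd1q0 cd1q1 pd1 1 false false false .pnn 0 1 1 (qsf 0 536870912 536870912 536870912 1) ndB1q0 ndB1q1 pcB1 Cut.none Ext.none)

def k0_mm_011 : ∃ t, chk3 f_mm_011 t 1 1 1 = true :=
  ⟨(l 5), by decide +kernel⟩

theorem c_mm_011 : CertB 0 536870912 536870912 536870912 587336777 62277027 3 eng mog cd1q0 cd1q1 pd1 false false false .pnn 0 1 1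
    ndB1q0 ndB1q1 pcB1 Cut.none Ext.none :=
  certB1 (fam := false) (s1 := false) (s2 := false) (a := 0) (b := 1) (c := 1) (cn := .pnn) (n1 := ndB1q0) (n2 := ndB1q1) (pc := pcB1) (cut := Cut.none) (xt := Ext.none) (P1 := 0) (W1 := 536870912) (P2 := 536870912) (W2 := 536870912) (P3 := 587336777) (W3 := 62277027) (N0 := 3) (En := eng) (mo := mog) (C1 := cd1q0) (C2 := cd1q1) (C3 := pd1)
    rfl (fun _ => rfl) k0_mm_011

noncomputable def f_mm_012_a : ℕ → ℕ → ℕ → ℕ → Bool := onCell 0 536870912 0 536870912 587336777 62277027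
    (rowB 3 eng mog cd1q0 cd1q2a pd1 0 false false false .pnp 0 1 2 (qsf 0 536870912 0 536870912 1) ndB1q0 ndB1q2a pcB1 Cut.none Ext.none)

def k0_mm_012_a : ∃ t, chk3 f_mm_012_a t 1 1 1 = true :=
  ⟨(l 5), by decide +kernel⟩

theorem c_mm_012_a : CertB 0 536870912 0 536870912 587336777 62277027 3 eng mog cd1q0 cd1q2a pd1 false false false .pnp 0 1 2
    ndB1q0 ndB1q2a pcB1 Cut.none Ext.none :=
  certB0 (fam := false) (s1 := false) (s2 := false) (a := 0) (b := 1) (c := 2) (cn := .pnp) (n1 := ndB1q0) (n2 := ndB1q2a) (pc := pcB1) (cut := Cut.none) (xt := Ext.none) (P1 := 0) (W1 := 536870912) (P2 := 0) (W2 := 536870912) (P3 := 587336777) (W3 := 62277027) (N0 := 3) (En := eng) (mo := mog) (C1 := cd1q0) (C2 := cd1q2a) (C3 := pd1)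
    rfl k0_mm_012_a

noncomputable def f_mm_012_b : ℕ → ℕ → ℕ → ℕ → Bool := onCell 0 536870912 1239849684 370763052 587336777 62277027
    (rowB 3 eng mog cd1q0 cd1q2b pd1 0 false false false .pnp 0 1 2 (qsf 0 536870912 1239849684 370763052 1) ndB1q0 ndB1q2b pcB1 Cut.none Ext.none)

def k0_mm_012_b : ∃ t, chk3 f_mm_012_b t 1 1 1 = true :=
  ⟨(l 5), by decide +kernel⟩

theorem c_mm_012_b : CertB 0 536870912 1239849684 370763052 587336777 62277027 3 eng mog cd1q0 cd1q2b pd1 false false false .pnp 0 1 2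
    ndB1q0 ndB1q2b pcB1 Cut.none Ext.none :=
  certB0 (fam := false) (s1 := false) (s2 := false) (a := 0) (b := 1) (c := 2) (cn := .pnp) (n1 := ndB1q0) (n2 := ndB1q2b) (pc := pcB1) (cut := Cut.none) (xt := Ext.none) (P1 := 0) (W1 := 536870912) (P2 := 1239849684) (W2 := 370763052) (P3 := 587336777) (W3 := 62277027) (N0 := 3) (En := eng) (mo := mog) (C1 := cd1q0) (C2 := cd1q2b) (C3 := pd1)
    rfl k0_mm_012_b

noncomputable def f_mm_022_a : ℕ → ℕ → ℕ → ℕ → Bool := onCell 0 536870912 0 536870912 587336777 62277027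
    (rowB 3 eng mog cd1q0 cd1q2a pd2 0 false false false .pp 0 2 2 (qsf 0 536870912 0 536870912 2) ndB1q0 ndB1q2a pcB2 Cut.none Ext.none)

def k0_mm_022_a : ∃ t, chk3 f_mm_022_a t 1 1 1 = true :=
  ⟨(l 5), by decide +kernel⟩

theorem c_mm_022_a : CertB 0 536870912 0 536870912 587336777 62277027 3 eng mog cd1q0 cd1q2a pd2 false false false .pp 0 2 2
    ndB1q0 ndB1q2a pcB2 Cut.none Ext.none :=
  certB0 (fam := false) (s1 := false) (s2 := false) (a := 0) (b := 2) (c := 2) (cn := .pp) (n1 := ndB1q0) (n2 := ndB1q2a) (pc := pcB2) (cut := Cut.none) (xt := Ext.none) (P1 := 0) (W1 := 536870912) (P2 := 0) (W2 := 536870912) (P3 := 587336777) (W3 := 62277027) (N0 := 3) (En := eng) (mo := mog) (C1 := cd1q0) (C2 := cd1q2a) (C3 := pd2)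
    rfl k0_mm_022_a

noncomputable def f_mm_022_b : ℕ → ℕ → ℕ → ℕ → Bool := onCell 0 536870912 1239849684 370763052 587336777 62277027
    (rowB 3 eng mog cd1q0 cd1q2b pd2 0 false false false .pp 0 2 2 (qsf 0 536870912 1239849684 370763052 2) ndB1q0 ndB1q2b pcB2 Cut.none Ext.none)

def k0_mm_022_b : ∃ t, chk3 f_mm_022_b t 1 1 1 = true :=
  ⟨(l 5), by decide +kernel⟩

theorem c_mm_022_b : CertB 0 536870912 1239849684 370763052 587336777 62277027 3 eng mog cd1q0 cd1q2b pd2 false false false .pp 0 2 2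
    ndB1q0 ndB1q2b pcB2 Cut.none Ext.none :=
  certB0 (fam := false) (s1 := false) (s2 := false) (a := 0) (b := 2) (c := 2) (cn := .pp) (n1 := ndB1q0) (n2 := ndB1q2b) (pc := pcB2) (cut := Cut.none) (xt := Ext.none) (P1 := 0) (W1 := 536870912) (P2 := 1239849684) (W2 := 370763052) (P3 := 587336777) (W3 := 62277027) (N0 := 3) (En := eng) (mo := mog) (C1 := cd1q0) (C2 := cd1q2b) (C3 := pd2)
    rfl k0_mm_022_b

noncomputable def f_mm_023 : ℕ → ℕ → ℕ → ℕ → Bool := onCell 0 536870912 1610612736 536870912 587336777 62277027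
    (rowB 3 eng mog cd1q0 cd1q3 pd2 0 false false false .up 0 2 3 (qsf 0 536870912 1610612736 536870912 2) ndB1q0 ndB1q3 pcB2 Cut.none Ext.none)

def k0_mm_023 : ∃ t, chk3 f_mm_023 t 1 1 1 = true :=
  ⟨(l 5), by decide +kernel⟩

theorem c_mm_023 : CertB 0 536870912 1610612736 536870912 587336777 62277027 3 eng mog cd1q0 cd1q3 pd2 false false false .up 0 2 3
    ndB1q0 ndB1q3 pcB2 Cut.none Ext.none :=
  certB0 (fam := false) (s1 := false) (s2 := false) (a := 0) (b := 2) (c := 3) (cn := .up) (n1 := ndB1q0) (n2 := ndB1q3) (pc := pcB2) (cut := Cut.none) (xt := Ext.none) (P1 := 0) (W1 := 536870912) (P2 := 1610612736) (W2 := 536870912) (P3 := 587336777) (W3 := 62277027) (N0 := 3) (En := eng) (mo := mog) (C1 := cd1q0) (C2 := cd1q3) (C3 := pd2)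
    rfl k0_mm_023

noncomputable def f_mm_033 : ℕ → ℕ → ℕ → ℕ → Bool := onCell 0 536870912 1610612736 536870912 587336777 62277027
    (rowB 3 eng mog cd1q0 cd1q3 pd3 0 false false false .pnn 0 3 3 (qsf 0 536870912 1610612736 536870912 3) ndB1q0 ndB1q3 pcB3 Cut.none Ext.none)

def k0_mm_033 : ∃ t, chk3 f_mm_033 t 1 1 1 = true :=
  ⟨(l 5), by decide +kernel⟩

theorem c_mm_033 : CertB 0 536870912 1610612736 536870912 587336777 62277027 3 eng mog cd1q0 cd1q3 pd3 false false false .pnn 0 3 3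
    ndB1q0 ndB1q3 pcB3 Cut.none Ext.none :=
  certB0 (fam := false) (s1 := false) (s2 := false) (a := 0) (b := 3) (c := 3) (cn := .pnn) (n1 := ndB1q0) (n2 := ndB1q3) (pc := pcB3) (cut := Cut.none) (xt := Ext.none) (P1 := 0) (W1 := 536870912) (P2 := 1610612736) (W2 := 536870912) (P3 := 587336777) (W3 := 62277027) (N0 := 3) (En := eng) (mo := mog) (C1 := cd1q0) (C2 := cd1q3) (C3 := pd3)
    rfl k0_mm_033

noncomputable def f_mm_101 : ℕ → ℕ → ℕ → ℕ → Bool := onCell 536870912 536870912 536870912 536870912 587336777 62277027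
    (rowB 3 eng mog cd1q1 cd1q1 pd0 0 false false false .npn 1 0 1 (qsf 536870912 536870912 536870912 536870912 0) ndB1q1 ndB1q1 pcB0 Cut.none Ext.none)

def k0_mm_101 : ∃ t, chk3 f_mm_101 t 1 1 1 = true :=
  ⟨(l 3), by decide +kernel⟩

theorem c_mm_101 : CertB 536870912 536870912 536870912 536870912 587336777 62277027 3 eng mog cd1q1 cd1q1 pd0 false false false .npn 1 0 1
    ndB1q1 ndB1q1 pcB0 Cut.none Ext.none :=
  certB0 (fam := false) (s1 := false) (s2 := false) (a := 1) (b := 0) (c := 1) (cn := .npn) (n1 := ndB1q1) (n2 := ndB1q1) (pc := pcB0) (cut := Cut.none) (xt := Ext.none) (P1 := 536870912) (W1 := 536870912) (P2 := 536870912) (W2 := 536870912) (P3 := 587336777) (W3 := 62277027) (N0 := 3) (En := eng) (mo := mog) (C1 := cd1q1) (C2 := cd1q1) (C3 := pd0)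
    rfl k0_mm_101

noncomputable def f_mm_102_a : ℕ → ℕ → ℕ → ℕ → Bool := onCell 536870912 536870912 0 536870912 587336777 62277027
    (rowB 3 eng mog cd1q1 cd1q2a pd0 0 false false false .npp 1 0 2 (qsf 536870912 536870912 0 536870912 0) ndB1q1 ndB1q2a pcB0 Cut.none Ext.none)

def k0_mm_102_a : ∃ t, chk3 f_mm_102_a t 1 1 1 = true :=
  ⟨(l 5), by decide +kernel⟩

theorem c_mm_102_a : CertB 536870912 536870912 0 536870912 587336777 62277027 3 eng mog cd1q1 cd1q2a pd0 false false false .npp 1 0 2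
    ndB1q1 ndB1q2a pcB0 Cut.none Ext.none :=
  certB0 (fam := false) (s1 := false) (s2 := false) (a := 1) (b := 0) (c := 2) (cn := .npp) (n1 := ndB1q1) (n2 := ndB1q2a) (pc := pcB0) (cut := Cut.none) (xt := Ext.none) (P1 := 536870912) (W1 := 536870912) (P2 := 0) (W2 := 536870912) (P3 := 587336777) (W3 := 62277027) (N0 := 3) (En := eng) (mo := mog) (C1 := cd1q1) (C2 := cd1q2a) (C3 := pd0)
    rfl k0_mm_102_a

noncomputable def f_mm_102_b : ℕ → ℕ → ℕ → ℕ → Bool := onCell 536870912 536870912 1239849684 370763052 587336777 62277027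
    (rowB 3 eng mog cd1q1 cd1q2b pd0 0 false false false .npp 1 0 2 (qsf 536870912 536870912 1239849684 370763052 0) ndB1q1 ndB1q2b pcB0 Cut.none Ext.none)

def k0_mm_102_b : ∃ t, chk3 f_mm_102_b t 1 1 1 = true :=
  ⟨(l 5), by decide +kernel⟩

theorem c_mm_102_b : CertB 536870912 536870912 1239849684 370763052 587336777 62277027 3 eng mog cd1q1 cd1q2b pd0 false false false .npp 1 0 2
    ndB1q1 ndB1q2b pcB0 Cut.none Ext.none :=
  certB0 (fam := false) (s1 := false) (s2 := false) (a := 1) (b := 0) (c := 2) (cn := .npp) (n1 := ndB1q1) (n2 := ndB1q2b) (pc := pcB0) (cut := Cut.none) (xt := Ext.none) (P1 := 536870912) (W1 := 536870912) (P2 := 1239849684) (W2 := 370763052) (P3 := 587336777) (W3 := 62277027) (N0 := 3) (En := eng) (mo := mog) (C1 := cd1q1) (C2 := cd1q2b) (C3 := pd0)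
    rfl k0_mm_102_b

noncomputable def f_mm_112_a : ℕ → ℕ → ℕ → ℕ → Bool := onCell 536870912 536870912 0 536870912 587336777 62277027
    (rowB 3 eng mog cd1q1 cd1q2a pd1 0 false false false .dn 1 1 2 (qsf 536870912 536870912 0 536870912 1) ndB1q1 ndB1q2a pcB1 Cut.none Ext.none)

def k0_mm_112_a : ∃ t, chk3 f_mm_112_a t 1 1 1 = true :=
  ⟨(l 5), by decide +kernel⟩

theorem c_mm_112_a : CertB 536870912 536870912 0 536870912 587336777 62277027 3 eng mog cd1q1 cd1q2a pd1 false false false .dn 1 1 2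
    ndB1q1 ndB1q2a pcB1 Cut.none Ext.none :=
  certB0 (fam := false) (s1 := false) (s2 := false) (a := 1) (b := 1) (c := 2) (cn := .dn) (n1 := ndB1q1) (n2 := ndB1q2a) (pc := pcB1) (cut := Cut.none) (xt := Ext.none) (P1 := 536870912) (W1 := 536870912) (P2 := 0) (W2 := 536870912) (P3 := 587336777) (W3 := 62277027) (N0 := 3) (En := eng) (mo := mog) (C1 := cd1q1) (C2 := cd1q2a) (C3 := pd1)
    rfl k0_mm_112_a

noncomputable def f_mm_112_b : ℕ → ℕ → ℕ → ℕ → Bool := onCell 536870912 536870912 1239849684 370763052 587336777 62277027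
    (rowB 3 eng mog cd1q1 cd1q2b pd1 0 false false false .dn 1 1 2 (qsf 536870912 536870912 1239849684 370763052 1) ndB1q1 ndB1q2b pcB1 Cut.none Ext.none)

def k0_mm_112_b : ∃ t, chk3 f_mm_112_b t 1 1 1 = true :=
  ⟨(l 5), by decide +kernel⟩

theorem c_mm_112_b : CertB 536870912 536870912 1239849684 370763052 587336777 62277027 3 eng mog cd1q1 cd1q2b pd1 false false false .dn 1 1 2
    ndB1q1 ndB1q2b pcB1 Cut.none Ext.none :=
  certB0 (fam := false) (s1 := false) (s2 := false) (a := 1) (b := 1) (c := 2) (cn := .dn) (n1 := ndB1q1) (n2 := ndB1q2b) (pc := pcB1) (cut := Cut.none) (xt := Ext.none) (P1 := 536870912) (W1 := 536870912) (P2 := 1239849684) (W2 := 370763052) (P3 := 587336777) (W3 := 62277027) (N0 := 3) (En := eng) (mo := mog) (C1 := cd1q1) (C2 := cd1q2b) (C3 := pd1)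
    rfl k0_mm_112_b

noncomputable def f_mm_113 : ℕ → ℕ → ℕ → ℕ → Bool := onCell 536870912 536870912 1610612736 536870912 587336777 62277027
    (rowB 3 eng mog cd1q1 cd1q3 pd1 0 false false false .nn 1 1 3 (qsf 536870912 536870912 1610612736 536870912 1) ndB1q1 ndB1q3 pcB1 Cut.none Ext.none)

def k0_mm_113 : ∃ t, chk3 f_mm_113 t 1 1 1 = true :=
  ⟨(l 5), by decide +kernel⟩

theorem c_mm_113 : CertB 536870912 536870912 1610612736 536870912 587336777 62277027 3 eng mog cd1q1 cd1q3 pd1 false false false .nn 1 1 3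
    ndB1q1 ndB1q3 pcB1 Cut.none Ext.none :=
  certB0 (fam := false) (s1 := false) (s2 := false) (a := 1) (b := 1) (c := 3) (cn := .nn) (n1 := ndB1q1) (n2 := ndB1q3) (pc := pcB1) (cut := Cut.none) (xt := Ext.none) (P1 := 536870912) (W1 := 536870912) (P2 := 1610612736) (W2 := 536870912) (P3 := 587336777) (W3 := 62277027) (N0 := 3) (En := eng) (mo := mog) (C1 := cd1q1) (C2 := cd1q3) (C3 := pd1)
    rfl k0_mm_113

noncomputable def f_mm_123 : ℕ → ℕ → ℕ → ℕ → Bool := onCell 536870912 536870912 1610612736 536870912 587336777 62277027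
    (rowB 3 eng mog cd1q1 cd1q3 pd2 0 false false false .npn 1 2 3 (qsf 536870912 536870912 1610612736 536870912 2) ndB1q1 ndB1q3 pcB2 Cut.none Ext.none)

def k0_mm_123 : ∃ t, chk3 f_mm_123 t 1 1 1 = true :=
  ⟨(l 5), by decide +kernel⟩

theorem c_mm_123 : CertB 536870912 536870912 1610612736 536870912 587336777 62277027 3 eng mog cd1q1 cd1q3 pd2 false false false .npn 1 2 3
    ndB1q1 ndB1q3 pcB2 Cut.none Ext.none :=
  certB0 (fam := false) (s1 := false) (s2 := false) (a := 1) (b := 2) (c := 3) (cn := .npn) (n1 := ndB1q1) (n2 := ndB1q3) (pc := pcB2) (cut := Cut.none) (xt := Ext.none) (P1 := 536870912) (W1 := 536870912) (P2 := 1610612736) (W2 := 536870912) (P3 := 587336777) (W3 := 62277027) (N0 := 3) (En := eng) (mo := mog) (C1 := cd1q1) (C2 := cd1q3) (C3 := pd2)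
    rfl k0_mm_123

noncomputable def f_mm_133 : ℕ → ℕ → ℕ → ℕ → Bool := onCell 536870912 536870912 1610612736 536870912 587336777 62277027
    (rowB 3 eng mog cd1q1 cd1q3 pd3 0 false false false .dn 1 3 3 (qsf 536870912 536870912 1610612736 536870912 3) ndB1q1 ndB1q3 pcB3 Cut.none Ext.none)

def k0_mm_133 : ∃ t, chk3 f_mm_133 t 1 1 1 = true :=
  ⟨(l 5), by decide +kernel⟩

theorem c_mm_133 : CertB 536870912 536870912 1610612736 536870912 587336777 62277027 3 eng mog cd1q1 cd1q3 pd3 false false false .dn 1 3 3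
    ndB1q1 ndB1q3 pcB3 Cut.none Ext.none :=
  certB0 (fam := false) (s1 := false) (s2 := false) (a := 1) (b := 3) (c := 3) (cn := .dn) (n1 := ndB1q1) (n2 := ndB1q3) (pc := pcB3) (cut := Cut.none) (xt := Ext.none) (P1 := 536870912) (W1 := 536870912) (P2 := 1610612736) (W2 := 536870912) (P3 := 587336777) (W3 := 62277027) (N0 := 3) (En := eng) (mo := mog) (C1 := cd1q1) (C2 := cd1q3) (C3 := pd3)
    rfl k0_mm_133

noncomputable def f_mm_202_aa : ℕ → ℕ → ℕ → ℕ → Bool := onCell 0 536870912 0 536870912 587336777 62277027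
    (rowB 3 eng mog cd1q2a cd1q2a pd0 0 false false false .pp 2 0 2 (qsf 0 536870912 0 536870912 0) ndB1q2a ndB1q2a pcB0 Cut.none Ext.none)

def k0_mm_202_aa : ∃ t, chk3 f_mm_202_aa t 1 1 1 = true :=
  ⟨(l 3), by decide +kernel⟩

theorem c_mm_202_aa : CertB 0 536870912 0 536870912 587336777 62277027 3 eng mog cd1q2a cd1q2a pd0 false false false .pp 2 0 2
    ndB1q2a ndB1q2a pcB0 Cut.none Ext.none :=
  certB0 (fam := false) (s1 := false) (s2 := false) (a := 2) (b := 0) (c := 2) (cn := .pp) (n1 := ndB1q2a) (n2 := ndB1q2a) (pc := pcB0) (cut := Cut.none) (xt := Ext.none) (P1 := 0) (W1 := 536870912) (P2 := 0) (W2 := 536870912) (P3 := 587336777) (W3 := 62277027) (N0 := 3) (En := eng) (mo := mog) (C1 := cd1q2a) (C2 := cd1q2a) (C3 := pd0)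
    rfl k0_mm_202_aa

noncomputable def f_mm_202_ab : ℕ → ℕ → ℕ → ℕ → Bool := onCell 0 536870912 1239849684 370763052 587336777 62277027
    (rowB 3 eng mog cd1q2a cd1q2b pd0 0 false false false .pp 2 0 2 (qsf 0 536870912 1239849684 370763052 0) ndB1q2a ndB1q2b pcB0 Cut.none Ext.none)

def k0_mm_202_ab : ∃ t, chk3 f_mm_202_ab t 1 1 1 = true :=
  ⟨(l 3), by decide +kernel⟩

theorem c_mm_202_ab : CertB 0 536870912 1239849684 370763052 587336777 62277027 3 eng mog cd1q2a cd1q2b pd0 false false false .pp 2 0 2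
    ndB1q2a ndB1q2b pcB0 Cut.none Ext.none :=
  certB0 (fam := false) (s1 := false) (s2 := false) (a := 2) (b := 0) (c := 2) (cn := .pp) (n1 := ndB1q2a) (n2 := ndB1q2b) (pc := pcB0) (cut := Cut.none) (xt := Ext.none) (P1 := 0) (W1 := 536870912) (P2 := 1239849684) (W2 := 370763052) (P3 := 587336777) (W3 := 62277027) (N0 := 3) (En := eng) (mo := mog) (C1 := cd1q2a) (C2 := cd1q2b) (C3 := pd0)
    rfl k0_mm_202_ab

noncomputable def f_mm_202_ba : ℕ → ℕ → ℕ → ℕ → Bool := onCell 1239849684 370763052 0 536870912 587336777 62277027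
    (rowB 3 eng mog cd1q2b cd1q2a pd0 0 false false false .pp 2 0 2 (qsf 1239849684 370763052 0 536870912 0) ndB1q2b ndB1q2a pcB0 Cut.none Ext.none)

def k0_mm_202_ba : ∃ t, chk3 f_mm_202_ba t 1 1 1 = true :=
  ⟨(l 3), by decide +kernel⟩

theorem c_mm_202_ba : CertB 1239849684 370763052 0 536870912 587336777 62277027 3 eng mog cd1q2b cd1q2a pd0 false false false .pp 2 0 2
    ndB1q2b ndB1q2a pcB0 Cut.none Ext.none :=
  certB0 (fam := false) (s1 := false) (s2 := false) (a := 2) (b := 0) (c := 2) (cn := .pp) (n1 := ndB1q2b) (n2 := ndB1q2a) (pc := pcB0) (cut := Cut.none) (xt := Ext.none) (P1 := 1239849684) (W1 := 370763052) (P2 := 0) (W2 := 536870912) (P3 := 587336777) (W3 := 62277027) (N0 := 3) (En := eng) (mo := mog) (C1 := cd1q2b) (C2 := cd1q2a) (C3 := pd0)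
    rfl k0_mm_202_ba

noncomputable def f_mm_202_bb : ℕ → ℕ → ℕ → ℕ → Bool := onCell 1239849684 370763052 1239849684 370763052 587336777 62277027
    (rowB 3 eng mog cd1q2b cd1q2b pd0 0 false false false .pp 2 0 2 (qsf 1239849684 370763052 1239849684 370763052 0) ndB1q2b ndB1q2b pcB0 Cut.none Ext.none)

def k0_mm_202_bb : ∃ t, chk3 f_mm_202_bb t 1 1 1 = true :=
  ⟨(l 3), by decide +kernel⟩

theorem c_mm_202_bb : CertB 1239849684 370763052 1239849684 370763052 587336777 62277027 3 eng mog cd1q2b cd1q2b pd0 false false false .pp 2 0 2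
    ndB1q2b ndB1q2b pcB0 Cut.none Ext.none :=
  certB0 (fam := false) (s1 := false) (s2 := false) (a := 2) (b := 0) (c := 2) (cn := .pp) (n1 := ndB1q2b) (n2 := ndB1q2b) (pc := pcB0) (cut := Cut.none) (xt := Ext.none) (P1 := 1239849684) (W1 := 370763052) (P2 := 1239849684) (W2 := 370763052) (P3 := 587336777) (W3 := 62277027) (N0 := 3) (En := eng) (mo := mog) (C1 := cd1q2b) (C2 := cd1q2b) (C3 := pd0)
    rfl k0_mm_202_bb

noncomputable def f_mm_203_a : ℕ → ℕ → ℕ → ℕ → Bool := onCell 0 536870912 0 536870912 587336777 62277027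
    (rowB 3 eng mog cd1q2a cd1q3 pd0 1 false false false .up 2 0 3 (qsf 0 536870912 1610612736 536870912 0) ndB1q2a ndB1q3 pcB0 Cut.none Ext.none)

def k0_mm_203_a : ∃ t, chk3 f_mm_203_a t 1 1 1 = true :=
  ⟨(l 3), by decide +kernel⟩

theorem c_mm_203_a : CertB 0 536870912 1610612736 536870912 587336777 62277027 3 eng mog cd1q2a cd1q3 pd0 false false false .up 2 0 3
    ndB1q2a ndB1q3 pcB0 Cut.none Ext.none :=
  certB1 (fam := false) (s1 := false) (s2 := false) (a := 2) (b := 0) (c := 3) (cn := .up) (n1 := ndB1q2a) (n2 := ndB1q3) (pc := pcB0) (cut := Cut.none) (xt := Ext.none) (P1 := 0) (W1 := 536870912) (P2 := 1610612736) (W2 := 536870912) (P3 := 587336777) (W3 := 62277027) (N0 := 3) (En := eng) (mo := mog) (C1 := cd1q2a) (C2 := cd1q3) (C3 := pd0)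
    rfl (fun _ => rfl) k0_mm_203_a

noncomputable def f_mm_203_b : ℕ → ℕ → ℕ → ℕ → Bool := onCell 1239849684 370763052 1610612736 536870912 587336777 62277027
    (rowB 3 eng mog cd1q2b cd1q3 pd0 0 false false false .up 2 0 3 (qsf 1239849684 370763052 1610612736 536870912 0) ndB1q2b ndB1q3 pcB0 Cut.none Ext.none)

def k0_mm_203_b : ∃ t, chk3 f_mm_203_b t 1 1 1 = true :=
  ⟨(l 3), by decide +kernel⟩

theorem c_mm_203_b : CertB 1239849684 370763052 1610612736 536870912 587336777 62277027 3 eng mog cd1q2b cd1q3 pd0 false false false .up 2 0 3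
    ndB1q2b ndB1q3 pcB0 Cut.none Ext.none :=
  certB0 (fam := false) (s1 := false) (s2 := false) (a := 2) (b := 0) (c := 3) (cn := .up) (n1 := ndB1q2b) (n2 := ndB1q3) (pc := pcB0) (cut := Cut.none) (xt := Ext.none) (P1 := 1239849684) (W1 := 370763052) (P2 := 1610612736) (W2 := 536870912) (P3 := 587336777) (W3 := 62277027) (N0 := 3) (En := eng) (mo := mog) (C1 := cd1q2b) (C2 := cd1q3) (C3 := pd0)
    rfl k0_mm_203_b

noncomputable def f_mm_213_a : ℕ → ℕ → ℕ → ℕ → Bool := onCell 0 536870912 1610612736 536870912 587336777 62277027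
    (rowB 3 eng mog cd1q2a cd1q3 pd1 0 false false false .pnn 2 1 3 (qsf 0 536870912 1610612736 536870912 1) ndB1q2a ndB1q3 pcB1 Cut.none Ext.none)

def k0_mm_213_a : ∃ t, chk3 f_mm_213_a t 1 1 1 = true :=
  ⟨(a (l 3) (l 5)), by decide +kernel⟩

theorem c_mm_213_a : CertB 0 536870912 1610612736 536870912 587336777 62277027 3 eng mog cd1q2a cd1q3 pd1 false false false .pnn 2 1 3
    ndB1q2a ndB1q3 pcB1 Cut.none Ext.none :=
  certB0 (fam := false) (s1 := false) (s2 := false) (a := 2) (b := 1) (c := 3) (cn := .pnn) (n1 := ndB1q2a) (n2 := ndB1q3) (pc := pcB1) (cut := Cut.none) (xt := Ext.none) (P1 := 0) (W1 := 536870912) (P2 := 1610612736) (W2 := 536870912) (P3 := 587336777) (W3 := 62277027) (N0 := 3) (En := eng) (mo := mog) (C1 := cd1q2a) (C2 := cd1q3) (C3 := pd1)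
    rfl k0_mm_213_a

noncomputable def f_mm_213_b : ℕ → ℕ → ℕ → ℕ → Bool := onCell 1239849684 370763052 1610612736 536870912 587336777 62277027
    (rowB 3 eng mog cd1q2b cd1q3 pd1 0 false false false .pnn 2 1 3 (qsf 1239849684 370763052 1610612736 536870912 1) ndB1q2b ndB1q3 pcB1 Cut.none Ext.none)

def k0_mm_213_b : ∃ t, chk3 f_mm_213_b t 1 1 1 = true :=
  ⟨(l 3), by decide +kernel⟩

theorem c_mm_213_b : CertB 1239849684 370763052 1610612736 536870912 587336777 62277027 3 eng mog cd1q2b cd1q3 pd1 false false false .pnn 2 1 3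
    ndB1q2b ndB1q3 pcB1 Cut.none Ext.none :=
  certB0 (fam := false) (s1 := false) (s2 := false) (a := 2) (b := 1) (c := 3) (cn := .pnn) (n1 := ndB1q2b) (n2 := ndB1q3) (pc := pcB1) (cut := Cut.none) (xt := Ext.none) (P1 := 1239849684) (W1 := 370763052) (P2 := 1610612736) (W2 := 536870912) (P3 := 587336777) (W3 := 62277027) (N0 := 3) (En := eng) (mo := mog) (C1 := cd1q2b) (C2 := cd1q3) (C3 := pd1)
    rfl k0_mm_213_b

noncomputable def f_mm_303 : ℕ → ℕ → ℕ → ℕ → Bool := onCell 1610612736 536870912 1610612736 536870912 587336777 62277027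
    (rowB 3 eng mog cd1q3 cd1q3 pd0 0 false false false .npn 3 0 3 (qsf 1610612736 536870912 1610612736 536870912 0) ndB1q3 ndB1q3 pcB0 Cut.none Ext.none)

def k0_mm_303 : ∃ t, chk3 f_mm_303 t 1 1 1 = true :=
  ⟨(l 3), by decide +kernel⟩

theorem c_mm_303 : CertB 1610612736 536870912 1610612736 536870912 587336777 62277027 3 eng mog cd1q3 cd1q3 pd0 false false false .npn 3 0 3
    ndB1q3 ndB1q3 pcB0 Cut.none Ext.none :=
  certB0 (fam := false) (s1 := false) (s2 := false) (a := 3) (b := 0) (c := 3) (cn := .npn) (n1 := ndB1q3) (n2 := ndB1q3) (pc := pcB0) (cut := Cut.none) (xt := Ext.none) (P1 := 1610612736) (W1 := 536870912) (P2 := 1610612736) (W2 := 536870912) (P3 := 587336777) (W3 := 62277027) (N0 := 3) (En := eng) (mo := mog) (C1 := cd1q3) (C2 := cd1q3) (C3 := pd0)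
    rfl k0_mm_303

noncomputable def f_mm_313 : ℕ → ℕ → ℕ → ℕ → Bool := onCell 1610612736 536870912 1610612736 536870912 587336777 62277027
    (rowB 3 eng mog cd1q3 cd1q3 pd1 0 false false false .dn 3 1 3 (qsf 1610612736 536870912 1610612736 536870912 1) ndB1q3 ndB1q3 pcB1 Cut.none Ext.none)

def k0_mm_313 : ∃ t, chk3 f_mm_313 t 1 1 1 = true :=
  ⟨(l 3), by decide +kernel⟩

theorem c_mm_313 : CertB 1610612736 536870912 1610612736 536870912 587336777 62277027 3 eng mog cd1q3 cd1q3 pd1 false false false .dn 3 1 3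
    ndB1q3 ndB1q3 pcB1 Cut.none Ext.none :=
  certB0 (fam := false) (s1 := false) (s2 := false) (a := 3) (b := 1) (c := 3) (cn := .dn) (n1 := ndB1q3) (n2 := ndB1q3) (pc := pcB1) (cut := Cut.none) (xt := Ext.none) (P1 := 1610612736) (W1 := 536870912) (P2 := 1610612736) (W2 := 536870912) (P3 := 587336777) (W3 := 62277027) (N0 := 3) (En := eng) (mo := mog) (C1 := cd1q3) (C2 := cd1q3) (C3 := pd1)
    rfl k0_mm_313

end Pool.Agent.Strip051.G.I5470_6050.Tab.C.BB11

namespace Pool.Agent.Strip051.G.I5470_6050.Tab.C.BB12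

open Pool.Agent.Strip051.PB Pool.Agent.Strip051.PB.T
open Pool.Agent.Strip051.G.I5470_6050.Tab

noncomputable def f_pp_001 : ℕ → ℕ → ℕ → ℕ → Bool := onCell 0 536870912 536870912 536870912 587336777 62277027
    (rowB 3 eng mog cd1q0 cd2q1 pd0 0 false true true .up 0 0 1 (qsf 0 536870912 536870912 536870912 0) ndB1q0 ndB2q1 pcB0 Cut.none Ext.none)

def k0_pp_001 : ∃ t, chk3 f_pp_001 t 1 1 1 = true :=
  ⟨(l 3), by decide +kernel⟩

theorem c_pp_001 : CertB 0 536870912 536870912 536870912 587336777 62277027 3 eng mog cd1q0 cd2q1 pd0 false true true .up 0 0 1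
    ndB1q0 ndB2q1 pcB0 Cut.none Ext.none :=
  certB0 (fam := false) (s1 := true) (s2 := true) (a := 0) (b := 0) (c := 1) (cn := .up) (n1 := ndB1q0) (n2 := ndB2q1) (pc := pcB0) (cut := Cut.none) (xt := Ext.none) (P1 := 0) (W1 := 536870912) (P2 := 536870912) (W2 := 536870912) (P3 := 587336777) (W3 := 62277027) (N0 := 3) (En := eng) (mo := mog) (C1 := cd1q0) (C2 := cd2q1) (C3 := pd0)
    rfl k0_pp_001

noncomputable def f_pp_011 : ℕ → ℕ → ℕ → ℕ → Bool := onCell 0 536870912 536870912 536870912 587336777 62277027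
    (rowB 3 eng mog cd1q0 cd2q1 pd1 0 false true true .pnn 0 1 1 (qsf 0 536870912 536870912 536870912 1) ndB1q0 ndB2q1 pcB1 Cut.none Ext.none)

def k0_pp_011 : ∃ t, chk3 f_pp_011 t 1 1 1 = true :=
  ⟨(l 3), by decide +kernel⟩

theorem c_pp_011 : CertB 0 536870912 536870912 536870912 587336777 62277027 3 eng mog cd1q0 cd2q1 pd1 false true true .pnn 0 1 1
    ndB1q0 ndB2q1 pcB1 Cut.none Ext.none :=
  certB0 (fam := false) (s1 := true) (s2 := true) (a := 0) (b := 1) (c := 1) (cn := .pnn) (n1 := ndB1q0) (n2 := ndB2q1) (pc := pcB1) (cut := Cut.none) (xt := Ext.none) (P1 := 0) (W1 := 536870912) (P2 := 536870912) (W2 := 536870912) (P3 := 587336777) (W3 := 62277027) (N0 := 3) (En := eng) (mo := mog) (C1 := cd1q0) (C2 := cd2q1) (C3 := pd1)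
    rfl k0_pp_011

noncomputable def cut_pp_012_a : Cut := Cut.of [[⟨0, 0, 0, 53687091⟩, ⟨1, 1, 0, 53687091⟩, ⟨2, 1, 0, 53687091⟩]]

noncomputable def f_pp_012_a : ℕ → ℕ → ℕ → ℕ → Bool := onCell 536870912 536870912 0 536870912 587336777 62277027
    (rowB 3 eng mog cd1q0 cd2q2a pd1 2 false true true .pnp 0 1 2 (qsf 0 536870912 0 536870912 1) ndB1q0 ndB2q2a pcB1 cut_pp_012_a Ext.none)

def k0_pp_012_a : ∃ t, chk3 f_pp_012_a t 2 1 1 = true :=
  ⟨(a (l 3) (b (b (a (a (l 3) (b (b (a (b (a (l 154786552647) (b (l 16765080) (l 125795531639))) (l 3)) (b (a (l 16767776) (l 16768632)) (a (b (l 106468178471) (l 169282067047)) (l 65129117223)))) (a (l 3) (a (l 3) (l 164450227015)))) (l 3))) (b (a (b (a (a (l 16768240) (l 16766176)) (l 16760712)) (a (b (a (l 88751436567) (l 16767632)) (a (l 3) (l 124184915143))) (a (b (l 16768048) (l 16766120)) (l 16767560)))) (b (a (b (l 16748440) (l 16754272)) (l 16741104)) (a (l 16763024) (b (l 16750200) (l 16756704))))) (a (a (l 3)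 (b (b (a (l 145659748807) (l 78550904103)) (l 3)) (l 3))) (b (a (b (l 16768160) (a (l 119353096039) (l 16766992))) (l 16765040)) (a (l 155323449063) (b (a (l 16765184) (l 16768160)) (l 111300035735))))))) (l 3)) (l 3))), by decide +kernel⟩

def k1_pp_012_a : ∃ t, chk3 f_pp_012_a t 6 1 1 = true :=
  ⟨(b (a (b (b (a (b (l 16723648) (a (b (l 16739464) (l 16745752)) (l 16730856))) (l 16704896)) (a (b (a (l 16755736) (b (l 16740896) (l 16747784))) (a (a (l 16767768) (l 16764976)) (l 16757816))) (b (a (l 16732112) (l 16718480)) (a (l 16766856) (l 16732856))))) (a (b (b (a (b (a (l 97341386183) (l 16767472)) (l 3)) (b (l 16766320) (a (l 16766576) (l 16768328)))) (a (l 3) (b (l 100025764263) (l 3)))) (l 3)) (b (a (b (l 16759792) (a (b (l 16768616) (l 16762600)) (l 16768000))) (b (l 16747456) (l 16782528))) (b (a (l 3) (a (l 85530252391) (l 16758264))) (l 3))))) (b (a (b (l 16698104) (a (l 16711240) (l 16696352))) (b (b (l 16643000) (l 16654528)) (a (l 16681392) (l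 16666368)))) (a (b (b (a (l 16733096) (l 16718304)) (a (l 16748496) (l 16733736))) (a (b (l 16763120) (b (l 50096770887) (l 3))) (b (l 16749840) (b (l 16761576) (l 16767848))))) (b (a (b (l 16702904) (l 16718504)) (l 16695184)) (a (b (l 16734792) (l 16751656)) (b (l 16719160) (l 16736312))))))) (a (l 3) (b (b (a (b (a (l 3) (l 159081559975)) (l 3)) (a (b (b (l 16763816) (l 44728064167)) (l 3)) (b (a (l 16757752) (l 16750248)) (b (l 16777240) (l 117205648599))))) (l 3)) (l 3)))), by decide +kernel⟩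

def k2_pp_012_a : ∃ t, chk3 f_pp_012_a t 7 2 1 = true :=
  ⟨(a (b (b (a (b (l 16615280) (l 16625944)) (l 16614392)) (a (a (l 16651424) (l 16636704)) (b (l 16630344) (l 16642288)))) (a (b (a (l 16679576) (l 16664136)) (a (b (l 16703360) (l 16720512)) (b (l 16687512) (l 16704616)))) (b (a (l 16670024) (l 16697432)) (a (b (l 16671968) (l 16688904)) (b (l 16657048) (l 16673856)))))) (b (a (b (l 16568888) (a (l 16595392) (l 16583328))) (b (l 16548448) (l 16566944))) (a (a (b (b (l 16613864) (l 16627856)) (b (l 16643120) (l 16659592))) (b (l 16629472) (l 16648584))) (a (b (l 16596704) (l 16625480)) (b (l 16585448) (l 16613536)))))), by decide +kernel⟩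

def k3_pp_012_a : ∃ t, chk3 f_pp_012_a t 14 3 1 = true :=
  ⟨(b (a (b (b (a (l 16759464) (l 16743584)) (a (a (l 16760992) (l 16753376)) (a (l 16745488) (l 16737584)))) (b (a (b (a (l 3) (l 16767616)) (l 3)) (a (a (l 25937582759) (l 16763272)) (l 16778424))) (a (l 3) (b (a (l 3) (l 116131891927)) (l 3))))) (b (a (b (l 16748912) (l 16746912)) (b (l 16691808) (l 16710776))) (b (a (a (l 16749656) (l 16741880)) (l 16772288)) (a (b (a (l 16764768) (l 16757112)) (a (l 133848637991) (l 16767400))) (a (b (l 16749392) (l 16759792)) (l 16767928)))))) (b (a (l 3) (b (a (l 3) (b (a (l 83382771703) (l 16762752)) (a (l 3) (b (l 16770856) (l 3))))) (l 3))) (l 3))), by decide +kernel⟩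

def k4_pp_012_a : ∃ t, chk3 f_pp_012_a t 15 3 1 = true :=
  ⟨(b (a (b (a (b (l 16677184) (l 16695736)) (b (l 16663136) (l 16681384))) (a (b (l 16725848) (a (l 16739328) (l 16731808))) (b (l 16721528) (a (l 16724424) (l 16717248))))) (b (a (b (l 16649872) (l 16667720)) (b (l 16636920) (l 16653904))) (b (a (l 16686584) (l 16672000)) (a (a (l 16730824) (l 16702312)) (l 16712440))))) (a (b (b (a (a (b (l 16755112) (l 16766024)) (l 16763504)) (a (l 16766480) (l 16758912))) (a (b (a (b (l 76940323015) (l 3)) (c (l 16790544) (l 16781288))) (a (l 3) (l 190220078183))) (b (a (l 16761608) (l 16753568)) (a (a (l 83919642535) (l 16770400)) (l 16774712))))) (b (a (l 3) (b (a (l 3) (b (l 16782912) (a (l 3) (l 54391746151)))) (l 3))) (l 3))) (b (a (b (a (l 16751216) (l 16722424)) (a (b (l 16745528) (l 16756104)) (b (l 16737512) (l 16748000)))) (b (b (a (l 16709736) (l 16702008)) (a (l 16719368) (l 16711592))) (a (a (l 16742024) (l 16737992)) (b (l 16721512) (l 16734416)))))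 (b (a (b (a (a (l 16779424) (l 16775304)) (a (l 16760728) (l 16756640))) (a (b (a (l 87140870871) (l 16783600)) (a (l 3) (l 138680471079))) (a (b (b (l 16767536) (l 16770320)) (l 6)) (l 6)))) (a (b (b (l 16750416) (l 6)) (l 6)) (l 6))) (a (a (l 3) (l 6)) (l 6)))))), by decide +kernel⟩

theorem s5_pp_012_a : ∃ t, chk3 f_pp_012_a t 7 3 1 = true := ex3_a k3_pp_012_a k4_pp_012_a

theorem s6_pp_012_a : ∃ t, chk3 f_pp_012_a t 7 1 1 = true := ex3_b k2_pp_012_a s5_pp_012_a

theorem s7_pp_012_a : ∃ t, chk3 f_pp_012_a t 3 1 1 = true := ex3_a k1_pp_012_a s6_pp_012_a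

theorem s8_pp_012_a : ∃ t, chk3 f_pp_012_a t 1 1 1 = true := ex3_a k0_pp_012_a s7_pp_012_a

theorem c_pp_012_a : CertB 0 536870912 0 536870912 587336777 62277027 3 eng mog cd1q0 cd2q2a pd1 false true true .pnp 0 1 2
    ndB1q0 ndB2q2a pcB1 cut_pp_012_a Ext.none :=
  certB2 (fam := false) (s1 := true) (s2 := true) (a := 0) (b := 1) (c := 2) (cn := .pnp) (n1 := ndB1q0) (n2 := ndB2q2a) (pc := pcB1) (cut := cut_pp_012_a) (xt := Ext.none) (P1 := 0) (W1 := 536870912) (P2 := 0) (W2 := 536870912) (P3 := 587336777) (W3 := 62277027) (N0 := 3) (En := eng) (mo := mog) (C1 := cd1q0) (C2 := cd2q2a) (C3 := pd1)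
    rfl (fun _ => rfl) s8_pp_012_a

noncomputable def cut_pp_012_b : Cut := Cut.of [[⟨0, 0, 0, 53687091⟩, ⟨1, 1, 0, 53687091⟩, ⟨2, 1, 0, 53687091⟩]]

noncomputable def f_pp_012_b : ℕ → ℕ → ℕ → ℕ → Bool := onCell 536870912 536870912 1239849684 370763052 587336777 62277027
    (rowB 3 eng mog cd1q0 cd2q2b pd1 2 false true true .pnp 0 1 2 (qsf 0 536870912 1239849684 370763052 1) ndB1q0 ndB2q2b pcB1 cut_pp_012_b Ext.none)

def k0_pp_012_b : ∃ t, chk3 f_pp_012_b t 1 1 1 = true :=
  ⟨(b (a (a (l 2) (b (b (a (a (l 3) (a (b (a (b (l 119353082551) (l 2)) (l 16767920)) (l 2)) (b (l 16766688) (l 16762504)))) (a (a (l 16757520) (l 16768792)) (a (l 16758056) (l 16725280)))) (a (l 2) (a (l 16806760) (a (l 16725472) (l 16712488))))) (a (l 2) (a (l 2) (b (l 16713784) (l 2)))))) (a (a (b (b (a (l 16706704) (l 16679872)) (a (l 16691304) (l 16661320))) (a (b (l 16683792) (l 2)) (l 16648192))) (a (b (b (l 16650712) (l 16628592)) (l 16610720)) (b (b (l 16662712) (l 16594408))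 (l 16571664)))) (a (b (a (b (l 16590616) (l 16559256)) (b (l 16561168) (l 16523736))) (a (l 16531104) (l 16488688))) (b (a (b (l 16533864) (l 16489472)) (b (l 16552328) (l 16457664))) (a (l 16445672) (l 16424416)))))) (a (l 2) (a (a (l 2) (b (l 16656880) (l 2))) (a (b (a (l 16525584) (l 16477600)) (l 16530584)) (b (a (l 16427192) (l 16375368)) (l 16420520)))))), by decide +kernel⟩

theorem c_pp_012_b : CertB 0 536870912 1239849684 370763052 587336777 62277027 3 eng mog cd1q0 cd2q2b pd1 false true true .pnp 0 1 2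
    ndB1q0 ndB2q2b pcB1 cut_pp_012_b Ext.none :=
  certB2 (fam := false) (s1 := true) (s2 := true) (a := 0) (b := 1) (c := 2) (cn := .pnp) (n1 := ndB1q0) (n2 := ndB2q2b) (pc := pcB1) (cut := cut_pp_012_b) (xt := Ext.none) (P1 := 0) (W1 := 536870912) (P2 := 1239849684) (W2 := 370763052) (P3 := 587336777) (W3 := 62277027) (N0 := 3) (En := eng) (mo := mog) (C1 := cd1q0) (C2 := cd2q2b) (C3 := pd1)
    rfl (fun _ => rfl) k0_pp_012_b

noncomputable def cut_pp_022_a : Cut := Cut.of [[⟨0, 0, 0, 67108864⟩, ⟨1, 1, 0, 67108864⟩, ⟨2, 1, 0, 67108864⟩]]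

noncomputable def f_pp_022_a : ℕ → ℕ → ℕ → ℕ → Bool := onCell 1073741824 536870912 0 536870912 587336777 62277027
    (rowB 3 eng mog cd1q0 cd2q2a pd2 2 false true true .pp 0 2 2 (qsf 0 536870912 0 536870912 2) ndB1q0 ndB2q2a pcB2 cut_pp_022_a Ext.none)

def k0_pp_022_a : ∃ t, chk3 f_pp_022_a t 2 2 1 = true :=
  ⟨(a (a (a (b (b (l 16521816) (l 16582712)) (b (c (l 16627080) (l 16586688)) (b (l 16648088) (c (l 16641856) (l 16599992))))) (b (b (l 16508992) (l 16525088)) (b (a (l 16550912) (l 16541080)) (a (l 16576736) (l 16586616))))) (b (a (b (l 16494464) (l 16507640)) (b (l 16468576) (a (l 16493936) (l 16484376)))) (b (a (b (l 16520640) (l 16530872)) (b (a (l 16505112) (l 16494328)) (a (l 16514064) (l 16502336)))) (a (b (l 16541888) (a (l 16559848) (l 16547072))) (a (b (l 16523648) (l 16533696)) (b (l 16510872) (c (l 16524864) (l 62846936871)))))))) (a (b (b (a (a (l 16466600) (l 16457896)) (l 1)) (a (a (l 16474488) (l 16464272)) (l 1))) (a (a (b (b (l 16483192)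 (l 16490192)) (b (c (l 16502848) (l 16491288)) (c (l 16511200) (l 77879294055)))) (b (a (b (l 16474624) (l 16480816)) (l 1)) (l 1))) (l 1))) (l 1))), by decide +kernel⟩

def k1_pp_022_a : ∃ t, chk3 f_pp_022_a t 2 3 1 = true :=
  ⟨(a (a (b (a (a (b (b (l 16621648) (l 16639080)) (b (l 16657536) (l 16697176))) (b (b (l 16610216) (l 16626920)) (b (l 16644440) (l 16662648)))) (b (a (b (l 16598400) (l 16614000)) (b (l 16585848) (l 16600264))) (b (a (l 16630232) (l 16615128)) (a (a (l 16650968) (l 16642872)) (b (l 16626424) (l 16634024)))))) (a (b (b (b (a (l 16690424) (l 16676608)) (b (a (l 16697624) (l 16683720)) (l 6))) (l 6)) (l 6)) (b (b (a (b (l 16659656) (a (l 16672776) (l 16663560))) (b (a (l 16646248) (l 16637000)) (a (b (l 16652144) (l 6)) (b (l 16642528) (l 16646112))))) (a (l 6) (a (l 6) (a (l 6) (l 1))))) (a (l 6) (l 1))))) (b (b (a (b (a (l 16572584) (l 16558632)) (a (l 16585744) (b (l 16567424) (l 16573368)))) (b (a (c (l 16548832) (l 16538416)) (a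 (l 77342484439) (l 16524736))) (a (a (l 58552058855) (l 41372170103)) (l 1)))) (a (b (a (b (l 16595728) (l 16602480)) (a (b (l 16583504) (l 16589648)) (b (l 16575088) (l 16580816)))) (a (b (a (l 16613624) (l 16604808)) (a (l 16620568) (l 16611296))) (b (a (l 16595760) (l 1)) (l 1)))) (b (a (b (l 16564696) (l 1)) (l 1)) (l 1)))) (b (b (a (a (b (a (l 45130412871) (l 16617744)) (a (l 16634328) (l 1))) (l 1)) (l 1)) (l 1)) (l 1)))) (b (l 1) (l 1))), by decide +kernel⟩

def k2_pp_022_a : ∃ t, chk3 f_pp_022_a t 3 1 1 = true :=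
  ⟨(l 1), by decide +kernel⟩

theorem s3_pp_022_a : ∃ t, chk3 f_pp_022_a t 2 1 1 = true := ex3_b k0_pp_022_a k1_pp_022_a

theorem s4_pp_022_a : ∃ t, chk3 f_pp_022_a t 1 1 1 = true := ex3_a s3_pp_022_a k2_pp_022_a

theorem c_pp_022_a : CertB 0 536870912 0 536870912 587336777 62277027 3 eng mog cd1q0 cd2q2a pd2 false true true .pp 0 2 2
    ndB1q0 ndB2q2a pcB2 cut_pp_022_a Ext.none :=
  certB2 (fam := false) (s1 := true) (s2 := true) (a := 0) (b := 2) (c := 2) (cn := .pp) (n1 := ndB1q0) (n2 := ndB2q2a) (pc := pcB2) (cut := cut_pp_022_a) (xt := Ext.none) (P1 := 0) (W1 := 536870912) (P2 := 0) (W2 := 536870912) (P3 := 587336777) (W3 := 62277027) (N0 := 3) (En := eng) (mo := mog) (C1 := cd1q0) (C2 := cd2q2a) (C3 := pd2)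
    rfl (fun _ => rfl) s4_pp_022_a

noncomputable def cut_pp_022_b : Cut := Cut.of [[⟨0, 0, 0, 67108864⟩, ⟨1, 1, 0, 67108864⟩, ⟨2, 1, 0, 67108864⟩]]

noncomputable def f_pp_022_b : ℕ → ℕ → ℕ → ℕ → Bool := onCell 1073741824 536870912 1239849684 370763052 587336777 62277027
    (rowB 3 eng mog cd1q0 cd2q2b pd2 2 false true true .pp 0 2 2 (qsf 0 536870912 1239849684 370763052 2) ndB1q0 ndB2q2b pcB2 cut_pp_022_b Ext.none)

def k0_pp_022_b : ∃ t, chk3 f_pp_022_b t 1 1 1 = true :=
  ⟨(a (b (a (b (a (a (b (l 16481568) (l 16423696)) (b (l 16469872) (l 16410576))) (b (a (l 16477080) (l 16442616)) (l 16427704))) (a (a (l 16361920) (l 16386856)) (b (l 16334568) (l 16296432)))) (b (a (b (a (b (a (l 16448288) (l 16440576)) (l 16411888)) (a (b (l 223371161063) (l 16400744)) (l 219613042455))) (a (l 16361552) (a (l 16351440) (l 16348440)))) (b (a (l 242161574183) (l 1)) (a (l 208875501879) (l 264173151975)))) (a (a (l 16277384) (l 16398224)) (b (a (l 16288600) (l 16286976))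 (l 16257544))))) (a (b (a (b (l 16319968) (l 16313384)) (l 16329272)) (a (l 16323864) (l 16267560))) (a (b (a (l 16220264) (l 16186632)) (l 16285808)) (b (l 16255448) (l 16118752))))) (b (a (b (l 1) (a (b (l 294774674727) (l 193842936391)) (b (l 1) (a (l 319470743815) (l 1))))) (l 1)) (a (a (b (b (l 16201984) (l 16163896)) (l 16098072)) (b (a (l 16188416) (l 294237657191)) (l 16339976))) (b (a (l 351146013639) (l 1)) (a (l 16210944) (l 394632980487)))))), by decide +kernel⟩

theorem c_pp_022_b : CertB 0 536870912 1239849684 370763052 587336777 62277027 3 eng mog cd1q0 cd2q2b pd2 false true true .pp 0 2 2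
    ndB1q0 ndB2q2b pcB2 cut_pp_022_b Ext.none :=
  certB2 (fam := false) (s1 := true) (s2 := true) (a := 0) (b := 2) (c := 2) (cn := .pp) (n1 := ndB1q0) (n2 := ndB2q2b) (pc := pcB2) (cut := cut_pp_022_b) (xt := Ext.none) (P1 := 0) (W1 := 536870912) (P2 := 1239849684) (W2 := 370763052) (P3 := 587336777) (W3 := 62277027) (N0 := 3) (En := eng) (mo := mog) (C1 := cd1q0) (C2 := cd2q2b) (C3 := pd2)
    rfl (fun _ => rfl) k0_pp_022_b

noncomputable def f_pp_023 : ℕ → ℕ → ℕ → ℕ → Bool := onCell 0 536870912 1073741824 536870912 587336777 62277027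
    (rowB 3 eng mog cd1q0 cd2q3 pd2 1 false true true .up 0 2 3 (qsf 0 536870912 1610612736 536870912 2) ndB1q0 ndB2q3 pcB2 Cut.none Ext.none)

def k0_pp_023 : ∃ t, chk3 f_pp_023 t 1 1 1 = true :=
  ⟨(b (a (b (l 1) (a (l 1) (b (l 1) (l 16331896)))) (b (a (b (l 1) (l 212096862471)) (l 229277034151)) (a (b (l 204043859879) (l 16192040)) (b (l 16326984) (l 16372576))))) (b (a (a (b (l 1) (l 352756754295)) (b (l 16055496) (l 16058864))) (a (b (l 16149344) (l 16272176)) (l 16712456))) (a (a (l 350072825703) (b (l 16135800) (l 16320744))) (a (l 16484928) (l 16631472))))), by decide +kernel⟩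

theorem c_pp_023 : CertB 0 536870912 1610612736 536870912 587336777 62277027 3 eng mog cd1q0 cd2q3 pd2 false true true .up 0 2 3
    ndB1q0 ndB2q3 pcB2 Cut.none Ext.none :=
  certB1 (fam := false) (s1 := true) (s2 := true) (a := 0) (b := 2) (c := 3) (cn := .up) (n1 := ndB1q0) (n2 := ndB2q3) (pc := pcB2) (cut := Cut.none) (xt := Ext.none) (P1 := 0) (W1 := 536870912) (P2 := 1610612736) (W2 := 536870912) (P3 := 587336777) (W3 := 62277027) (N0 := 3) (En := eng) (mo := mog) (C1 := cd1q0) (C2 := cd2q3) (C3 := pd2)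
    rfl (fun _ => rfl) k0_pp_023

noncomputable def f_pp_033 : ℕ → ℕ → ℕ → ℕ → Bool := onCell 0 536870912 1610612736 536870912 587336777 62277027
    (rowB 3 eng mog cd1q0 cd2q3 pd3 1 false true true .pnn 0 3 3 (qsf 0 536870912 1610612736 536870912 3) ndB1q0 ndB2q3 pcB3 Cut.none Ext.none)

def k0_pp_033 : ∃ t, chk3 f_pp_033 t 1 1 1 = true :=
  ⟨(a (b (b (b (a (a (l 16246536) (l 16296128)) (l 16438896)) (a (l 16340800) (l 16494064))) (b (a (l 16421192) (l 16539600)) (a (l 16487960) (l 4)))) (b (l 4) (a (l 4) (a (b (l 4) (l 2)) (l 2))))) (b (b (b (l 16727616) (a (l 16617784) (l 16702192))) (a (b (l 16642000) (l 4)) (a (b (l 16702296) (l 2)) (l 2)))) (a (b (a (b (l 4) (l 2)) (l 2)) (l 2)) (l 2)))), by decide +kernel⟩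

theorem c_pp_033 : CertB 0 536870912 1610612736 536870912 587336777 62277027 3 eng mog cd1q0 cd2q3 pd3 false true true .pnn 0 3 3
    ndB1q0 ndB2q3 pcB3 Cut.none Ext.none :=
  certB1 (fam := false) (s1 := true) (s2 := true) (a := 0) (b := 3) (c := 3) (cn := .pnn) (n1 := ndB1q0) (n2 := ndB2q3) (pc := pcB3) (cut := Cut.none) (xt := Ext.none) (P1 := 0) (W1 := 536870912) (P2 := 1610612736) (W2 := 536870912) (P3 := 587336777) (W3 := 62277027) (N0 := 3) (En := eng) (mo := mog) (C1 := cd1q0) (C2 := cd2q3) (C3 := pd3)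
    rfl (fun _ => rfl) k0_pp_033

noncomputable def f_pp_101 : ℕ → ℕ → ℕ → ℕ → Bool := onCell 536870912 536870912 536870912 536870912 587336777 62277027
    (rowB 3 eng mog cd1q1 cd2q1 pd0 0 false true true .npn 1 0 1 (qsf 536870912 536870912 536870912 536870912 0) ndB1q1 ndB2q1 pcB0 Cut.none Ext.none)

def k0_pp_101 : ∃ t, chk3 f_pp_101 t 1 1 1 = true :=
  ⟨(l 3), by decide +kernel⟩

theorem c_pp_101 : CertB 536870912 536870912 536870912 536870912 587336777 62277027 3 eng mog cd1q1 cd2q1 pd0 false true true .npn 1 0 1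
    ndB1q1 ndB2q1 pcB0 Cut.none Ext.none :=
  certB0 (fam := false) (s1 := true) (s2 := true) (a := 1) (b := 0) (c := 1) (cn := .npn) (n1 := ndB1q1) (n2 := ndB2q1) (pc := pcB0) (cut := Cut.none) (xt := Ext.none) (P1 := 536870912) (W1 := 536870912) (P2 := 536870912) (W2 := 536870912) (P3 := 587336777) (W3 := 62277027) (N0 := 3) (En := eng) (mo := mog) (C1 := cd1q1) (C2 := cd2q1) (C3 := pd0)
    rfl k0_pp_101

noncomputable def f_pp_102_a : ℕ → ℕ → ℕ → ℕ → Bool := onCell 0 536870912 0 536870912 587336777 62277027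
    (rowB 3 eng mog cd1q1 cd2q2a pd0 2 false true true .npp 1 0 2 (qsf 536870912 536870912 0 536870912 0) ndB1q1 ndB2q2a pcB0 Cut.none Ext.none)

def k0_pp_102_a : ∃ t, chk3 f_pp_102_a t 1 1 1 = true :=
  ⟨(a (l 3) (l 3)), by decide +kernel⟩

theorem c_pp_102_a : CertB 536870912 536870912 0 536870912 587336777 62277027 3 eng mog cd1q1 cd2q2a pd0 false true true .npp 1 0 2
    ndB1q1 ndB2q2a pcB0 Cut.none Ext.none :=
  certB2 (fam := false) (s1 := true) (s2 := true) (a := 1) (b := 0) (c := 2) (cn := .npp) (n1 := ndB1q1) (n2 := ndB2q2a) (pc := pcB0) (cut := Cut.none) (xt := Ext.none) (P1 := 536870912) (W1 := 536870912) (P2 := 0) (W2 := 536870912) (P3 := 587336777) (W3 := 62277027) (N0 := 3) (En := eng) (mo := mog) (C1 := cd1q1) (C2 := cd2q2a) (C3 := pd0)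
    rfl (fun _ => rfl) k0_pp_102_a

noncomputable def f_pp_102_b : ℕ → ℕ → ℕ → ℕ → Bool := onCell 536870912 536870912 0 536870912 587336777 62277027
    (rowB 3 eng mog cd1q1 cd2q2b pd0 1 false true true .npp 1 0 2 (qsf 536870912 536870912 1239849684 370763052 0) ndB1q1 ndB2q2b pcB0 Cut.none Ext.none)

def k0_pp_102_b : ∃ t, chk3 f_pp_102_b t 1 1 1 = true :=
  ⟨(b (l 3) (l 3)), by decide +kernel⟩

theorem c_pp_102_b : CertB 536870912 536870912 1239849684 370763052 587336777 62277027 3 eng mog cd1q1 cd2q2b pd0 false true true .npp 1 0 2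
    ndB1q1 ndB2q2b pcB0 Cut.none Ext.none :=
  certB1 (fam := false) (s1 := true) (s2 := true) (a := 1) (b := 0) (c := 2) (cn := .npp) (n1 := ndB1q1) (n2 := ndB2q2b) (pc := pcB0) (cut := Cut.none) (xt := Ext.none) (P1 := 536870912) (W1 := 536870912) (P2 := 1239849684) (W2 := 370763052) (P3 := 587336777) (W3 := 62277027) (N0 := 3) (En := eng) (mo := mog) (C1 := cd1q1) (C2 := cd2q2b) (C3 := pd0)
    rfl (fun _ => rfl) k0_pp_102_b

noncomputable def f_pp_112_a : ℕ → ℕ → ℕ → ℕ → Bool := onCell 536870912 536870912 0 536870912 587336777 62277027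
    (rowB 3 eng mog cd1q1 cd2q2a pd1 0 false true true .dn 1 1 2 (qsf 536870912 536870912 0 536870912 1) ndB1q1 ndB2q2a pcB1 Cut.none Ext.none)

def k0_pp_112_a : ∃ t, chk3 f_pp_112_a t 1 1 1 = true :=
  ⟨(a (a (b (b (l 3) (l 3)) (l 3)) (l 3)) (l 1)), by decide +kernel⟩

theorem c_pp_112_a : CertB 536870912 536870912 0 536870912 587336777 62277027 3 eng mog cd1q1 cd2q2a pd1 false true true .dn 1 1 2
    ndB1q1 ndB2q2a pcB1 Cut.none Ext.none :=
  certB0 (fam := false) (s1 := true) (s2 := true) (a := 1) (b := 1) (c := 2) (cn := .dn) (n1 := ndB1q1) (n2 := ndB2q2a) (pc := pcB1) (cut := Cut.none) (xt := Ext.none) (P1 := 536870912) (W1 := 536870912) (P2 := 0) (W2 := 536870912) (P3 := 587336777) (W3 := 62277027) (N0 := 3) (En := eng) (mo := mog) (C1 := cd1q1) (C2 := cd2q2a) (C3 := pd1)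
    rfl k0_pp_112_a

noncomputable def f_pp_112_b : ℕ → ℕ → ℕ → ℕ → Bool := onCell 536870912 536870912 536870912 536870912 587336777 62277027
    (rowB 3 eng mog cd1q1 cd2q2b pd1 1 false true true .dn 1 1 2 (qsf 536870912 536870912 1239849684 370763052 1) ndB1q1 ndB2q2b pcB1 Cut.none Ext.none)

def k0_pp_112_b : ∃ t, chk3 f_pp_112_b t 1 1 1 = true :=
  ⟨(a (b (b (l 3) (b (a (b (l 3) (a (a (b (b (l 268603181831) (l 16757400)) (l 16755160)) (l 227801058119)) (l 3))) (l 3)) (a (b (a (a (l 16743712) (l 16742648)) (l 102710160423)) (a (l 16762720) (l 16735648))) (a (b (l 3) (l 126332500407)) (l 3))))) (b (b (a (b (a (l 16695264) (l 16719192)) (a (l 16666752) (l 16701464))) (b (a (l 16773904) (a (l 16835256) (l 173577218087))) (a (l 16774792) (b (l 16887584) (l 16906896))))) (a (a (l 16619640) (l 16670288)) (b (a (l 16775512) (l 16897800)) (a (l 16776160) (l 2))))) (a (b (a (l 16555928) (l 16631672)) (b (l 16545560) (l 16520144))) (b (l 16766704) (l 2))))) (b (l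 3) (a (b (b (b (l 3) (l 2)) (l 2)) (l 2)) (l 2)))), by decide +kernel⟩

theorem c_pp_112_b : CertB 536870912 536870912 1239849684 370763052 587336777 62277027 3 eng mog cd1q1 cd2q2b pd1 false true true .dn 1 1 2
    ndB1q1 ndB2q2b pcB1 Cut.none Ext.none :=
  certB1 (fam := false) (s1 := true) (s2 := true) (a := 1) (b := 1) (c := 2) (cn := .dn) (n1 := ndB1q1) (n2 := ndB2q2b) (pc := pcB1) (cut := Cut.none) (xt := Ext.none) (P1 := 536870912) (W1 := 536870912) (P2 := 1239849684) (W2 := 370763052) (P3 := 587336777) (W3 := 62277027) (N0 := 3) (En := eng) (mo := mog) (C1 := cd1q1) (C2 := cd2q2b) (C3 := pd1)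
    rfl (fun _ => rfl) k0_pp_112_b

noncomputable def f_pp_113 : ℕ → ℕ → ℕ → ℕ → Bool := onCell 536870912 536870912 536870912 536870912 587336777 62277027
    (rowB 3 eng mog cd1q1 cd2q3 pd1 1 false true true .nn 1 1 3 (qsf 536870912 536870912 1610612736 536870912 1) ndB1q1 ndB2q3 pcB1 Cut.none Ext.none)

def k0_pp_113 : ∃ t, chk3 f_pp_113 t 1 1 1 = true :=
  ⟨(a (b (a (l 1) (a (l 1) (l 3))) (b (b (a (l 1) (b (a (l 1) (b (l 16854288) (l 16876464))) (a (l 16792056) (l 16912848)))) (a (l 97207096711) (b (a (l 16802312) (l 16949776)) (a (l 16813576) (l 16913512))))) (a (b (l 94522582839) (l 91301162951)) (b (l 16833632) (l 16728520))))) (b (l 3) (b (a (b (a (b (l 3) (l 188609648087)) (l 3)) (b (a (l 17036008) (l 217600498087)) (a (l 16983104) (l 162302865495)))) (b (l 3) (a (b (l 3) (l 400136874503)) (l 3)))) (b (a (a (b (l 16940392) (l 16905616)) (b (l 16991584) (l 16942464))) (a (b (b (l 236390925943) (l 242296517111)) (a (l 16957592) (l 16927216))) (b (l 3)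 (a (l 348060441767) (b (l 3) (l 428590951687)))))) (a (a (l 16862704) (l 16885712)) (a (b (l 16905008) (l 16862248)) (b (a (b (l 16874784) (l 16870136)) (b (l 16829408) (l 16823416))) (a (l 16837016) (l 16957392))))))))), by decide +kernel⟩

theorem c_pp_113 : CertB 536870912 536870912 1610612736 536870912 587336777 62277027 3 eng mog cd1q1 cd2q3 pd1 false true true .nn 1 1 3
    ndB1q1 ndB2q3 pcB1 Cut.none Ext.none :=
  certB1 (fam := false) (s1 := true) (s2 := true) (a := 1) (b := 1) (c := 3) (cn := .nn) (n1 := ndB1q1) (n2 := ndB2q3) (pc := pcB1) (cut := Cut.none) (xt := Ext.none) (P1 := 536870912) (W1 := 536870912) (P2 := 1610612736) (W2 := 536870912) (P3 := 587336777) (W3 := 62277027) (N0 := 3) (En := eng) (mo := mog) (C1 := cd1q1) (C2 := cd2q3) (C3 := pd1)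
    rfl (fun _ => rfl) k0_pp_113

noncomputable def f_pp_123 : ℕ → ℕ → ℕ → ℕ → Bool := onCell 1073741824 536870912 1610612736 536870912 587336777 62277027
    (rowB 3 eng mog cd1q1 cd2q3 pd2 2 false true true .npn 1 2 3 (qsf 536870912 536870912 1610612736 536870912 2) ndB1q1 ndB2q3 pcB2 Cut.none Ext.none)

def k0_pp_123 : ∃ t, chk3 f_pp_123 t 1 1 1 = true :=
  ⟨(a (a (b (b (b (l 16515920) (l 16500328)) (a (a (l 16734368) (l 16678024)) (l 16603456))) (b (a (b (l 16781672) (l 16803888)) (l 16857944)) (a (b (l 16805936) (a (l 16791496) (l 16768792))) (b (l 16733280) (l 16724944))))) (b (b (a (l 16406976) (l 1)) (a (l 16523680) (l 16486880))) (b (a (l 16643328) (l 16613952)) (a (a (a (l 16698616) (a (l 16688736) (l 16683000))) (l 16672736)) (l 16665944))))) (a (b (b (l 1) (l 222298016103)) (b (a (l 16599552) (l 16596624)) (a (l 16661728) (l 16662456)))) (b (l 1) (b (l 16623584) (l 16679848))))), by decide +kernel⟩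

theorem c_pp_123 : CertB 536870912 536870912 1610612736 536870912 587336777 62277027 3 eng mog cd1q1 cd2q3 pd2 false true true .npn 1 2 3
    ndB1q1 ndB2q3 pcB2 Cut.none Ext.none :=
  certB2 (fam := false) (s1 := true) (s2 := true) (a := 1) (b := 2) (c := 3) (cn := .npn) (n1 := ndB1q1) (n2 := ndB2q3) (pc := pcB2) (cut := Cut.none) (xt := Ext.none) (P1 := 536870912) (W1 := 536870912) (P2 := 1610612736) (W2 := 536870912) (P3 := 587336777) (W3 := 62277027) (N0 := 3) (En := eng) (mo := mog) (C1 := cd1q1) (C2 := cd2q3) (C3 := pd2)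
    rfl (fun _ => rfl) k0_pp_123

noncomputable def f_pp_133 : ℕ → ℕ → ℕ → ℕ → Bool := onCell 1610612736 536870912 1610612736 536870912 587336777 62277027
    (rowB 3 eng mog cd1q1 cd2q3 pd3 2 false true true .dn 1 3 3 (qsf 536870912 536870912 1610612736 536870912 3) ndB1q1 ndB2q3 pcB3 Cut.none Ext.none)

def k0_pp_133 : ∃ t, chk3 f_pp_133 t 1 1 1 = true :=
  ⟨(a (b (l 1) (a (a (l 16674568) (l 1)) (l 1))) (l 1)), by decide +kernel⟩

theorem c_pp_133 : CertB 536870912 536870912 1610612736 536870912 587336777 62277027 3 eng mog cd1q1 cd2q3 pd3 false true true .dn 1 3 3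
    ndB1q1 ndB2q3 pcB3 Cut.none Ext.none :=
  certB2 (fam := false) (s1 := true) (s2 := true) (a := 1) (b := 3) (c := 3) (cn := .dn) (n1 := ndB1q1) (n2 := ndB2q3) (pc := pcB3) (cut := Cut.none) (xt := Ext.none) (P1 := 536870912) (W1 := 536870912) (P2 := 1610612736) (W2 := 536870912) (P3 := 587336777) (W3 := 62277027) (N0 := 3) (En := eng) (mo := mog) (C1 := cd1q1) (C2 := cd2q3) (C3 := pd3)
    rfl (fun _ => rfl) k0_pp_133

noncomputable def f_pp_202_aa : ℕ → ℕ → ℕ → ℕ → Bool := onCell 0 536870912 0 536870912 587336777 62277027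
    (rowB 3 eng mog cd1q2a cd2q2a pd0 0 false true true .pp 2 0 2 (qsf 0 536870912 0 536870912 0) ndB1q2a ndB2q2a pcB0 Cut.none Ext.none)

def k0_pp_202_aa : ∃ t, chk3 f_pp_202_aa t 1 1 1 = true :=
  ⟨(l 3), by decide +kernel⟩

theorem c_pp_202_aa : CertB 0 536870912 0 536870912 587336777 62277027 3 eng mog cd1q2a cd2q2a pd0 false true true .pp 2 0 2
    ndB1q2a ndB2q2a pcB0 Cut.none Ext.none :=
  certB0 (fam := false) (s1 := true) (s2 := true) (a := 2) (b := 0) (c := 2) (cn := .pp) (n1 := ndB1q2a) (n2 := ndB2q2a) (pc := pcB0) (cut := Cut.none) (xt := Ext.none) (P1 := 0) (W1 := 536870912) (P2 := 0) (W2 := 536870912) (P3 := 587336777) (W3 := 62277027) (N0 := 3) (En := eng) (mo := mog) (C1 := cd1q2a) (C2 := cd2q2a) (C3 := pd0)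
    rfl k0_pp_202_aa

noncomputable def f_pp_202_ab : ℕ → ℕ → ℕ → ℕ → Bool := onCell 0 536870912 1239849684 370763052 587336777 62277027
    (rowB 3 eng mog cd1q2a cd2q2b pd0 0 false true true .pp 2 0 2 (qsf 0 536870912 1239849684 370763052 0) ndB1q2a ndB2q2b pcB0 Cut.none Ext.none)

def k0_pp_202_ab : ∃ t, chk3 f_pp_202_ab t 1 1 1 = true :=
  ⟨(l 3), by decide +kernel⟩

theorem c_pp_202_ab : CertB 0 536870912 1239849684 370763052 587336777 62277027 3 eng mog cd1q2a cd2q2b pd0 false true true .pp 2 0 2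
    ndB1q2a ndB2q2b pcB0 Cut.none Ext.none :=
  certB0 (fam := false) (s1 := true) (s2 := true) (a := 2) (b := 0) (c := 2) (cn := .pp) (n1 := ndB1q2a) (n2 := ndB2q2b) (pc := pcB0) (cut := Cut.none) (xt := Ext.none) (P1 := 0) (W1 := 536870912) (P2 := 1239849684) (W2 := 370763052) (P3 := 587336777) (W3 := 62277027) (N0 := 3) (En := eng) (mo := mog) (C1 := cd1q2a) (C2 := cd2q2b) (C3 := pd0)
    rfl k0_pp_202_ab

noncomputable def f_pp_202_ba : ℕ → ℕ → ℕ → ℕ → Bool := onCell 1239849684 370763052 0 536870912 587336777 62277027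
    (rowB 3 eng mog cd1q2b cd2q2a pd0 0 false true true .pp 2 0 2 (qsf 1239849684 370763052 0 536870912 0) ndB1q2b ndB2q2a pcB0 Cut.none Ext.none)

def k0_pp_202_ba : ∃ t, chk3 f_pp_202_ba t 1 1 1 = true :=
  ⟨(l 3), by decide +kernel⟩

theorem c_pp_202_ba : CertB 1239849684 370763052 0 536870912 587336777 62277027 3 eng mog cd1q2b cd2q2a pd0 false true true .pp 2 0 2
    ndB1q2b ndB2q2a pcB0 Cut.none Ext.none :=
  certB0 (fam := false) (s1 := true) (s2 := true) (a := 2) (b := 0) (c := 2) (cn := .pp) (n1 := ndB1q2b) (n2 := ndB2q2a) (pc := pcB0) (cut := Cut.none) (xt := Ext.none) (P1 := 1239849684) (W1 := 370763052) (P2 := 0) (W2 := 536870912) (P3 := 587336777) (W3 := 62277027) (N0 := 3) (En := eng) (mo := mog) (C1 := cd1q2b) (C2 := cd2q2a) (C3 := pd0)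
    rfl k0_pp_202_ba

noncomputable def f_pp_202_bb : ℕ → ℕ → ℕ → ℕ → Bool := onCell 1239849684 370763052 1239849684 370763052 587336777 62277027
    (rowB 3 eng mog cd1q2b cd2q2b pd0 0 false true true .pp 2 0 2 (qsf 1239849684 370763052 1239849684 370763052 0) ndB1q2b ndB2q2b pcB0 Cut.none Ext.none)

def k0_pp_202_bb : ∃ t, chk3 f_pp_202_bb t 1 1 1 = true :=
  ⟨(l 3), by decide +kernel⟩

theorem c_pp_202_bb : CertB 1239849684 370763052 1239849684 370763052 587336777 62277027 3 eng mog cd1q2b cd2q2b pd0 false true true .pp 2 0 2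
    ndB1q2b ndB2q2b pcB0 Cut.none Ext.none :=
  certB0 (fam := false) (s1 := true) (s2 := true) (a := 2) (b := 0) (c := 2) (cn := .pp) (n1 := ndB1q2b) (n2 := ndB2q2b) (pc := pcB0) (cut := Cut.none) (xt := Ext.none) (P1 := 1239849684) (W1 := 370763052) (P2 := 1239849684) (W2 := 370763052) (P3 := 587336777) (W3 := 62277027) (N0 := 3) (En := eng) (mo := mog) (C1 := cd1q2b) (C2 := cd2q2b) (C3 := pd0)
    rfl k0_pp_202_bb

noncomputable def f_pp_203_a : ℕ → ℕ → ℕ → ℕ → Bool := onCell 0 536870912 0 536870912 587336777 62277027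
    (rowB 3 eng mog cd1q2a cd2q3 pd0 1 false true true .up 2 0 3 (qsf 0 536870912 1610612736 536870912 0) ndB1q2a ndB2q3 pcB0 Cut.none Ext.none)

def k0_pp_203_a : ∃ t, chk3 f_pp_203_a t 1 1 1 = true :=
  ⟨(l 3), by decide +kernel⟩

theorem c_pp_203_a : CertB 0 536870912 1610612736 536870912 587336777 62277027 3 eng mog cd1q2a cd2q3 pd0 false true true .up 2 0 3
    ndB1q2a ndB2q3 pcB0 Cut.none Ext.none :=
  certB1 (fam := false) (s1 := true) (s2 := true) (a := 2) (b := 0) (c := 3) (cn := .up) (n1 := ndB1q2a) (n2 := ndB2q3) (pc := pcB0) (cut := Cut.none) (xt := Ext.none) (P1 := 0) (W1 := 536870912) (P2 := 1610612736) (W2 := 536870912) (P3 := 587336777) (W3 := 62277027) (N0 := 3) (En := eng) (mo := mog) (C1 := cd1q2a) (C2 := cd2q3) (C3 := pd0)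
    rfl (fun _ => rfl) k0_pp_203_a

noncomputable def f_pp_203_b : ℕ → ℕ → ℕ → ℕ → Bool := onCell 1239849684 370763052 1610612736 536870912 587336777 62277027
    (rowB 3 eng mog cd1q2b cd2q3 pd0 0 false true true .up 2 0 3 (qsf 1239849684 370763052 1610612736 536870912 0) ndB1q2b ndB2q3 pcB0 Cut.none Ext.none)

def k0_pp_203_b : ∃ t, chk3 f_pp_203_b t 1 1 1 = true :=
  ⟨(l 3), by decide +kernel⟩

theorem c_pp_203_b : CertB 1239849684 370763052 1610612736 536870912 587336777 62277027 3 eng mog cd1q2b cd2q3 pd0 false true true .up 2 0 3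
    ndB1q2b ndB2q3 pcB0 Cut.none Ext.none :=
  certB0 (fam := false) (s1 := true) (s2 := true) (a := 2) (b := 0) (c := 3) (cn := .up) (n1 := ndB1q2b) (n2 := ndB2q3) (pc := pcB0) (cut := Cut.none) (xt := Ext.none) (P1 := 1239849684) (W1 := 370763052) (P2 := 1610612736) (W2 := 536870912) (P3 := 587336777) (W3 := 62277027) (N0 := 3) (En := eng) (mo := mog) (C1 := cd1q2b) (C2 := cd2q3) (C3 := pd0)
    rfl k0_pp_203_b

noncomputable def cut_pp_213_a : Cut := Cut.of [[⟨0, 1, 0, 67108864⟩, ⟨1, 1, 0, 67108864⟩, ⟨2, 2, 0, 16777216⟩]]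

noncomputable def f_pp_213_a : ℕ → ℕ → ℕ → ℕ → Bool := onCell 0 536870912 1610612736 536870912 587336777 62277027
    (rowB 3 eng mog cd1q2a cd2q3 pd1 0 false true true .pnn 2 1 3 (qsf 0 536870912 1610612736 536870912 1) ndB1q2a ndB2q3 pcB1 cut_pp_213_a Ext.none)

def k0_pp_213_a : ∃ t, chk3 f_pp_213_a t 1 1 1 = true :=
  ⟨(b (l 3) (b (l 3) (a (l 3) (a (l 3) (b (l 3) (a (l 3) (b (l 3) (b (l 3) (b (l 3) (l 6)))))))))), by decide +kernel⟩

theorem c_pp_213_a : CertB 0 536870912 1610612736 536870912 587336777 62277027 3 eng mog cd1q2a cd2q3 pd1 false true true .pnn 2 1 3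
    ndB1q2a ndB2q3 pcB1 cut_pp_213_a Ext.none :=
  certB0 (fam := false) (s1 := true) (s2 := true) (a := 2) (b := 1) (c := 3) (cn := .pnn) (n1 := ndB1q2a) (n2 := ndB2q3) (pc := pcB1) (cut := cut_pp_213_a) (xt := Ext.none) (P1 := 0) (W1 := 536870912) (P2 := 1610612736) (W2 := 536870912) (P3 := 587336777) (W3 := 62277027) (N0 := 3) (En := eng) (mo := mog) (C1 := cd1q2a) (C2 := cd2q3) (C3 := pd1)
    rfl k0_pp_213_a

noncomputable def cut_pp_213_b : Cut := Cut.of [[⟨0, 1, 0, 67108864⟩, ⟨1, 1, 0, 67108864⟩, ⟨2, 2, 0, 16777216⟩]]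

noncomputable def f_pp_213_b : ℕ → ℕ → ℕ → ℕ → Bool := onCell 1239849684 370763052 1610612736 536870912 587336777 62277027
    (rowB 3 eng mog cd1q2b cd2q3 pd1 0 false true true .pnn 2 1 3 (qsf 1239849684 370763052 1610612736 536870912 1) ndB1q2b ndB2q3 pcB1 cut_pp_213_b Ext.none)

def k0_pp_213_b : ∃ t, chk3 f_pp_213_b t 1 1 1 = true :=
  ⟨(l 3), by decide +kernel⟩

theorem c_pp_213_b : CertB 1239849684 370763052 1610612736 536870912 587336777 62277027 3 eng mog cd1q2b cd2q3 pd1 false true true .pnn 2 1 3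
    ndB1q2b ndB2q3 pcB1 cut_pp_213_b Ext.none :=
  certB0 (fam := false) (s1 := true) (s2 := true) (a := 2) (b := 1) (c := 3) (cn := .pnn) (n1 := ndB1q2b) (n2 := ndB2q3) (pc := pcB1) (cut := cut_pp_213_b) (xt := Ext.none) (P1 := 1239849684) (W1 := 370763052) (P2 := 1610612736) (W2 := 536870912) (P3 := 587336777) (W3 := 62277027) (N0 := 3) (En := eng) (mo := mog) (C1 := cd1q2b) (C2 := cd2q3) (C3 := pd1)
    rfl k0_pp_213_b

noncomputable def f_pp_303 : ℕ → ℕ → ℕ → ℕ → Bool := onCell 1610612736 536870912 1610612736 536870912 587336777 62277027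
    (rowB 3 eng mog cd1q3 cd2q3 pd0 0 false true true .npn 3 0 3 (qsf 1610612736 536870912 1610612736 536870912 0) ndB1q3 ndB2q3 pcB0 Cut.none Ext.none)

def k0_pp_303 : ∃ t, chk3 f_pp_303 t 1 1 1 = true :=
  ⟨(l 3), by decide +kernel⟩

theorem c_pp_303 : CertB 1610612736 536870912 1610612736 536870912 587336777 62277027 3 eng mog cd1q3 cd2q3 pd0 false true true .npn 3 0 3
    ndB1q3 ndB2q3 pcB0 Cut.none Ext.none :=
  certB0 (fam := false) (s1 := true) (s2 := true) (a := 3) (b := 0) (c := 3) (cn := .npn) (n1 := ndB1q3) (n2 := ndB2q3) (pc := pcB0) (cut := Cut.none) (xt := Ext.none) (P1 := 1610612736) (W1 := 536870912) (P2 := 1610612736) (W2 := 536870912) (P3 := 587336777) (W3 := 62277027) (N0 := 3) (En := eng) (mo := mog) (C1 := cd1q3) (C2 := cd2q3) (C3 := pd0)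
    rfl k0_pp_303

noncomputable def f_pp_313 : ℕ → ℕ → ℕ → ℕ → Bool := onCell 1610612736 536870912 1610612736 536870912 587336777 62277027
    (rowB 3 eng mog cd1q3 cd2q3 pd1 0 false true true .dn 3 1 3 (qsf 1610612736 536870912 1610612736 536870912 1) ndB1q3 ndB2q3 pcB1 Cut.none Ext.none)

def k0_pp_313 : ∃ t, chk3 f_pp_313 t 1 1 1 = true :=
  ⟨(l 3), by decide +kernel⟩

theorem c_pp_313 : CertB 1610612736 536870912 1610612736 536870912 587336777 62277027 3 eng mog cd1q3 cd2q3 pd1 false true true .dn 3 1 3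
    ndB1q3 ndB2q3 pcB1 Cut.none Ext.none :=
  certB0 (fam := false) (s1 := true) (s2 := true) (a := 3) (b := 1) (c := 3) (cn := .dn) (n1 := ndB1q3) (n2 := ndB2q3) (pc := pcB1) (cut := Cut.none) (xt := Ext.none) (P1 := 1610612736) (W1 := 536870912) (P2 := 1610612736) (W2 := 536870912) (P3 := 587336777) (W3 := 62277027) (N0 := 3) (En := eng) (mo := mog) (C1 := cd1q3) (C2 := cd2q3) (C3 := pd1)
    rfl k0_pp_313

noncomputable def f_pm_001 : ℕ → ℕ → ℕ → ℕ → Bool := onCell 0 536870912 536870912 536870912 587336777 62277027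
    (rowB 3 eng mog cd1q0 cd2q1 pd0 0 false true false .up 0 0 1 (qsf 0 536870912 536870912 536870912 0) ndB1q0 ndB2q1 pcB0 Cut.none Ext.none)

def k0_pm_001 : ∃ t, chk3 f_pm_001 t 1 1 1 = true :=
  ⟨(a (l 4) (b (l 4) (a (l 4) (l 4)))), by decide +kernel⟩

theorem c_pm_001 : CertB 0 536870912 536870912 536870912 587336777 62277027 3 eng mog cd1q0 cd2q1 pd0 false true false .up 0 0 1
    ndB1q0 ndB2q1 pcB0 Cut.none Ext.none :=
  certB0 (fam := false) (s1 := true) (s2 := false) (a := 0) (b := 0) (c := 1) (cn := .up) (n1 := ndB1q0) (n2 := ndB2q1) (pc := pcB0) (cut := Cut.none) (xt := Ext.none) (P1 := 0) (W1 := 536870912) (P2 := 536870912) (W2 := 536870912) (P3 := 587336777) (W3 := 62277027) (N0 := 3) (En := eng) (mo := mog) (C1 := cd1q0) (C2 := cd2q1) (C3 := pd0)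
    rfl k0_pm_001

noncomputable def f_pm_011 : ℕ → ℕ → ℕ → ℕ → Bool := onCell 0 536870912 536870912 536870912 587336777 62277027
    (rowB 3 eng mog cd1q0 cd2q1 pd1 0 false true false .pnn 0 1 1 (qsf 0 536870912 536870912 536870912 1) ndB1q0 ndB2q1 pcB1 Cut.none Ext.none)

def k0_pm_011 : ∃ t, chk3 f_pm_011 t 1 1 1 = true :=
  ⟨(b (l 4) (a (l 4) (b (l 4) (l 4)))), by decide +kernel⟩

theorem c_pm_011 : CertB 0 536870912 536870912 536870912 587336777 62277027 3 eng mog cd1q0 cd2q1 pd1 false true false .pnn 0 1 1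
    ndB1q0 ndB2q1 pcB1 Cut.none Ext.none :=
  certB0 (fam := false) (s1 := true) (s2 := false) (a := 0) (b := 1) (c := 1) (cn := .pnn) (n1 := ndB1q0) (n2 := ndB2q1) (pc := pcB1) (cut := Cut.none) (xt := Ext.none) (P1 := 0) (W1 := 536870912) (P2 := 536870912) (W2 := 536870912) (P3 := 587336777) (W3 := 62277027) (N0 := 3) (En := eng) (mo := mog) (C1 := cd1q0) (C2 := cd2q1) (C3 := pd1)
    rfl k0_pm_011

end Pool.Agent.Strip051.G.I5470_6050.Tab.C.BB12

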