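import Pool.Agent.Strip051.G.I5470_6050.Tab

/-! # Certificates B30 (generated) -/

set_option linter.all false
set_option maxRecDepth 100000

namespace Pool.Agent.Strip051.G.I5470_6050.Tab.C.BB12

open Pool.Agent.Strip051.PB Pool.Agent.Strip051.PB.T
open Pool.Agent.Strip051.G.I5470_6050.Tab

noncomputable def cut_pm_012_a : Cut := Cut.of [[⟨0, 0, 0, 67108864⟩, ⟨1, 1, 0, 67108864⟩, ⟨2, 1, 0, 67108864⟩]]

noncomputable def f_pm_012_a : ℕ → ℕ → ℕ → ℕ → Bool := onCell 536870912 536870912 0 536870912 587336777 62277027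
    (rowB 3 eng mog cd1q0 cd2q2a pd1 2 false true false .pnp 0 1 2 (qsf 0 536870912 0 536870912 1) ndB1q0 ndB2q2a pcB1 cut_pm_012_a Ext.none)

def k0_pm_012_a : ∃ t, chk3 f_pm_012_a t 2 1 1 = true :=
  ⟨(b (a (b (l 2) (a (l 2) (l 16666392))) (b (a (b (a (l 16645232) (l 16629968)) (l 16603752)) (b (l 16605432) (l 16574856))) (a (b (l 16567056) (l 16527776)) (b (l 16543936) (l 16513112))))) (b (a (a (l 2) (b (l 16484208) (b (l 16442840) (l 16414800)))) (a (b (l 16487192) (a (l 16443696) (l 16451832))) (b (a (l 16485576) (l 16482736)) (a (l 16457976) (l 16462896))))) (a (b (a (l 16306616) (a (l 16366096) (l 16388496))) (a (l 16385736) (b (l 16352528) (l 16371488)))) (b (a (a (l 16408696) (l 16468280)) (b (l 16449056) (l 16470448))) (a (b (l 16408968) (l 16473680)) (b (l 16456648) (l 16554544))))))), by decide +kernel⟩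

def k1_pm_012_a : ∃ t, chk3 f_pm_012_a t 3 2 1 = true :=
  ⟨(a (a (b (a (l 16564640) (l 16545712)) (b (l 16516424) (l 16494096))) (b (a (l 16589040) (l 16528728)) (a (b (l 16493640) (l 16478368)) (b (l 16480232) (l 16470064))))) (a (b (a (b (l 16498760) (l 16480480)) (b (l 16480384) (l 16465056))) (a (b (l 16467920) (l 16463272)) (b (l 16456840) (l 16458176)))) (b (a (b (l 16463624) (l 16451448)) (b (l 16449312) (l 16482096))) (a (b (l 16447928) (l 16455272)) (b (a (l 16442640) (l 16439648)) (b (l 16449488) (l 16459632))))))), by decide +kernel⟩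

def k2_pm_012_a : ∃ t, chk3 f_pm_012_a t 3 3 1 = true :=
  ⟨(a (b (a (b (a (l 16479024) (l 16475040)) (a (l 16467408) (l 16471784))) (b (a (b (l 16471576) (l 16470680)) (l 16469496)) (a (a (l 16475024) (l 16477552)) (l 16503784)))) (a (a (b (l 16513248) (l 16589472)) (b (b (l 16479280) (l 16493328)) (a (l 16585832) (l 16620272)))) (b (a (b (l 16491568) (l 16553144)) (b (l 16505712) (l 16551800))) (a (b (l 16559936) (l 16659232)) (b (l 16564136) (b (l 16594544) (l 16617456))))))) (b (a (b (a (l 16490744) (l 16493080)) (a (l 16554640) (l 16544480))) (a (b (l 16475944) (b (l 16502184) (l 16527512))) (b (a (l 16479792) (l 16482800)) (a (l 16587560) (b (l 16516232) (l 16546272)))))) (a (b (a (b (l 16522264) (l 16573408)) (b (l 16540328) (l 16575416))) (b (a (l 16590808) (a (l 16611712) (l 16646552))) (a (b (l 16624184) (a (l 16619352) (b (l 16649024) (l 16661272)))) (b (a (l 16624728) (l 16660648)) (b (a (l 16663944) (l 16679696)) (a (l 16676760) (l 16692928)))))))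 (b (a (b (l 16629136) (c (l 16626168) (l 16629696))) (b (a (l 16574088) (l 16603880)) (a (b (l 16604472) (l 16627112)) (a (l 16623760) (l 16649976))))) (a (a (b (l 16660344) (b (l 16676192) (b (l 16695808) (l 16719896)))) (b (l 16675952) (b (l 16702544) (l 6)))) (b (a (b (l 16693696) (l 6)) (l 6)) (l 6))))))), by decide +kernel⟩

theorem s3_pm_012_a : ∃ t, chk3 f_pm_012_a t 3 1 1 = true := ex3_b k1_pm_012_a k2_pm_012_a

theorem s4_pm_012_a : ∃ t, chk3 f_pm_012_a t 1 1 1 = true := ex3_a k0_pm_012_a s3_pm_012_a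

theorem c_pm_012_a : CertB 0 536870912 0 536870912 587336777 62277027 3 eng mog cd1q0 cd2q2a pd1 false true false .pnp 0 1 2
    ndB1q0 ndB2q2a pcB1 cut_pm_012_a Ext.none :=
  certB2 (fam := false) (s1 := true) (s2 := false) (a := 0) (b := 1) (c := 2) (cn := .pnp) (n1 := ndB1q0) (n2 := ndB2q2a) (pc := pcB1) (cut := cut_pm_012_a) (xt := Ext.none) (P1 := 0) (W1 := 536870912) (P2 := 0) (W2 := 536870912) (P3 := 587336777) (W3 := 62277027) (N0 := 3) (En := eng) (mo := mog) (C1 := cd1q0) (C2 := cd2q2a) (C3 := pd1)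
    rfl (fun _ => rfl) s4_pm_012_a

noncomputable def cut_pm_012_b : Cut := Cut.of [[⟨0, 0, 0, 67108864⟩, ⟨1, 1, 0, 67108864⟩, ⟨2, 1, 0, 67108864⟩]]

noncomputable def f_pm_012_b : ℕ → ℕ → ℕ → ℕ → Bool := onCell 536870912 536870912 1239849684 370763052 587336777 62277027
    (rowB 3 eng mog cd1q0 cd2q2b pd1 2 false true false .pnp 0 1 2 (qsf 0 536870912 1239849684 370763052 1) ndB1q0 ndB2q2b pcB1 cut_pm_012_b Ext.none)

def k0_pm_012_b : ∃ t, chk3 f_pm_012_b t 1 1 1 = true :=
  ⟨(a (a (l 2) (b (b (a (b (l 16659584) (l 2)) (b (a (l 16630616) (l 16610376)) (l 16627496))) (a (l 2) (l 16653264))) (l 2))) (a (b (a (b (b (l 16597704) (l 16574408)) (a (l 16607184) (l 16573520))) (b (a (b (l 16539776) (l 16528928)) (b (l 16515216) (l 16497632))) (a (l 16535880) (l 16497328)))) (a (l 2) (b (a (l 16586104) (l 16541592)) (l 2)))) (b (b (a (a (b (l 16490648) (l 16465256)) (b (l 16466288) (l 16432056))) (b (a (l 16463848) (b (l 16438432) (l 16405448))) (a (l 16398600)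 (l 16365616)))) (a (b (l 16435728) (l 16438056)) (a (l 16388384) (b (l 16330280) (l 16314664))))) (b (a (b (l 16454600) (l 16484704)) (a (l 16386184) (l 16326576))) (a (l 16639128) (l 16432320)))))), by decide +kernel⟩

theorem c_pm_012_b : CertB 0 536870912 1239849684 370763052 587336777 62277027 3 eng mog cd1q0 cd2q2b pd1 false true false .pnp 0 1 2
    ndB1q0 ndB2q2b pcB1 cut_pm_012_b Ext.none :=
  certB2 (fam := false) (s1 := true) (s2 := false) (a := 0) (b := 1) (c := 2) (cn := .pnp) (n1 := ndB1q0) (n2 := ndB2q2b) (pc := pcB1) (cut := cut_pm_012_b) (xt := Ext.none) (P1 := 0) (W1 := 536870912) (P2 := 1239849684) (W2 := 370763052) (P3 := 587336777) (W3 := 62277027) (N0 := 3) (En := eng) (mo := mog) (C1 := cd1q0) (C2 := cd2q2b) (C3 := pd1)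
    rfl (fun _ => rfl) k0_pm_012_b

noncomputable def cut_pm_022_a : Cut := Cut.of [[⟨0, 0, 0, 67108864⟩, ⟨1, 1, 0, 67108864⟩, ⟨2, 1, 0, 67108864⟩]]

noncomputable def f_pm_022_a : ℕ → ℕ → ℕ → ℕ → Bool := onCell 0 536870912 0 536870912 587336777 62277027
    (rowB 3 eng mog cd1q0 cd2q2a pd2 0 false true false .pp 0 2 2 (qsf 0 536870912 0 536870912 2) ndB1q0 ndB2q2a pcB2 cut_pm_022_a Ext.none)

def k0_pm_022_a : ∃ t, chk3 f_pm_022_a t 2 1 1 = true :=
  ⟨(b (a (b (a (b (a (b (l 16453576) (l 16455224)) (b (l 16453360) (l 16453440))) (a (b (l 16459144) (l 16465376)) (b (l 16455568) (l 16459904)))) (b (a (l 16472008) (l 16448536)) (a (l 16494048) (b (l 16466880) (l 16445592))))) (a (b (a (b (l 16473952) (l 16508504)) (b (l 16466424) (l 16475144))) (a (b (a (l 16500896) (l 16495520)) (a (l 16517472) (l 16510808))) (b (l 16507080) (l 16520352)))) (b (a (b (l 16457144) (l 16463384)) (b (l 16447096) (l 16450480))) (a (b (l 16471696) (l 16482120)) (b (l 16455736)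 (a (l 16467960) (l 16457528))))))) (a (a (b (b (l 16444200) (b (l 16460016) (l 16437432))) (b (b (l 16435552) (l 16435536)) (b (l 16479040) (l 16461168)))) (b (b (l 1) (l 1)) (l 1))) (l 1))) (a (b (a (a (b (a (b (l 16536720) (l 16558440)) (b (l 16528640) (l 16549120))) (b (a (a (l 16583672) (l 16580536)) (l 16572320)) (a (a (l 16620632) (l 16606632)) (l 16598304)))) (b (b (a (l 16519744) (l 16510160)) (a (l 16538648) (l 16527440))) (b (a (l 16581096) (l 16547144)) (a (b (l 16577840) (l 16590536)) (l 16590264))))) (b (a (b (l 16494680) (l 16551352)) (b (a (l 16477976) (l 16465440)) (a (l 16489928) (l 1)))) (a (b (a (l 16533448) (l 16519072)) (a (l 16574528) (l 16558016))) (b (a (l 16503768) (l 1)) (l 1))))) (a (a (b (b (a (a (b (l 16631648) (l 16657488)) (l 16645968)) (b (l 16619512) (l 16634584))) (l 6)) (l 6)) (a (b (b (b (l 16603888) (l 16638816)) (l 6)) (l 6)) (b (b (b (l 16587352) (l 16600160)) (b (l 16633992) (a (l 6) (l 1)))) (l 1)))) (b (b (a (a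 (b (l 16569936) (l 16581528)) (l 1)) (l 1)) (l 1)) (l 1)))) (b (l 1) (l 1)))), by decide +kernel⟩

def k1_pm_022_a : ∃ t, chk3 f_pm_022_a t 3 1 1 = true :=
  ⟨(l 1), by decide +kernel⟩

theorem s2_pm_022_a : ∃ t, chk3 f_pm_022_a t 1 1 1 = true := ex3_a k0_pm_022_a k1_pm_022_a

theorem c_pm_022_a : CertB 0 536870912 0 536870912 587336777 62277027 3 eng mog cd1q0 cd2q2a pd2 false true false .pp 0 2 2
    ndB1q0 ndB2q2a pcB2 cut_pm_022_a Ext.none :=
  certB0 (fam := false) (s1 := true) (s2 := false) (a := 0) (b := 2) (c := 2) (cn := .pp) (n1 := ndB1q0) (n2 := ndB2q2a) (pc := pcB2) (cut := cut_pm_022_a) (xt := Ext.none) (P1 := 0) (W1 := 536870912) (P2 := 0) (W2 := 536870912) (P3 := 587336777) (W3 := 62277027) (N0 := 3) (En := eng) (mo := mog) (C1 := cd1q0) (C2 := cd2q2a) (C3 := pd2)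
    rfl s2_pm_022_a

noncomputable def cut_pm_022_b : Cut := Cut.of [[⟨0, 0, 0, 67108864⟩, ⟨1, 1, 0, 67108864⟩, ⟨2, 1, 0, 67108864⟩]]

noncomputable def f_pm_022_b : ℕ → ℕ → ℕ → ℕ → Bool := onCell 1073741824 536870912 1239849684 370763052 587336777 62277027
    (rowB 3 eng mog cd1q0 cd2q2b pd2 2 false true false .pp 0 2 2 (qsf 0 536870912 1239849684 370763052 2) ndB1q0 ndB2q2b pcB2 cut_pm_022_b Ext.none)

def k0_pm_022_b : ∃ t, chk3 f_pm_022_b t 1 1 1 = true :=
  ⟨(a (a (b (b (a (b (a (l 16410704) (l 16412816)) (a (l 16346744) (l 16346168))) (b (b (l 16443352) (l 16414312)) (l 16383936))) (a (b (l 16300872) (l 16274912)) (b (l 16287904) (l 16252040)))) (b (a (b (l 16268032) (l 16279328)) (l 16234296)) (a (l 16325456) (l 16267208)))) (b (b (a (a (b (l 16411440) (l 16334744)) (b (b (l 16513952) (l 16389056)) (l 16331896))) (b (a (l 304975610023) (l 1)) (a (l 16324144) (l 291016732775)))) (a (a (l 16272592) (b (l 16265600) (l 16218112))) (b (l 16292040) (l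 16248552)))) (a (b (b (l 16198800) (l 16190400)) (l 16210440)) (b (a (l 16162640) (l 16135960)) (l 16283504))))) (b (a (b (l 1) (a (b (l 313028288455) (l 187400499591)) (a (l 424160416583) (l 1)))) (l 1)) (a (a (b (l 16252048) (l 16074440)) (b (a (l 228202336583) (l 189548113127)) (l 16153728))) (a (b (b (l 1) (l 285110690871)) (l 154651373815)) (b (l 1) (l 297995936663)))))), by decide +kernel⟩

theorem c_pm_022_b : CertB 0 536870912 1239849684 370763052 587336777 62277027 3 eng mog cd1q0 cd2q2b pd2 false true false .pp 0 2 2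
    ndB1q0 ndB2q2b pcB2 cut_pm_022_b Ext.none :=
  certB2 (fam := false) (s1 := true) (s2 := false) (a := 0) (b := 2) (c := 2) (cn := .pp) (n1 := ndB1q0) (n2 := ndB2q2b) (pc := pcB2) (cut := cut_pm_022_b) (xt := Ext.none) (P1 := 0) (W1 := 536870912) (P2 := 1239849684) (W2 := 370763052) (P3 := 587336777) (W3 := 62277027) (N0 := 3) (En := eng) (mo := mog) (C1 := cd1q0) (C2 := cd2q2b) (C3 := pd2)
    rfl (fun _ => rfl) k0_pm_022_b

noncomputable def f_pm_023 : ℕ → ℕ → ℕ → ℕ → Bool := onCell 0 536870912 1073741824 536870912 587336777 62277027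
    (rowB 3 eng mog cd1q0 cd2q3 pd2 1 false true false .up 0 2 3 (qsf 0 536870912 1610612736 536870912 2) ndB1q0 ndB2q3 pcB2 Cut.none Ext.none)

def k0_pm_023 : ∃ t, chk3 f_pm_023 t 1 1 1 = true :=
  ⟨(b (a (b (l 1) (a (l 1) (b (l 1) (l 307659579719)))) (b (a (l 164315501783) (a (l 16326664) (l 16338624))) (a (b (l 165925973223) (l 16182008)) (b (l 16302920) (l 16341216))))) (b (a (a (b (l 1) (l 281889543143)) (b (l 16246352) (l 16035160))) (a (b (l 16160712) (l 16216680)) (b (l 16432760) (l 16512816)))) (a (a (b (l 297995894183) (l 347924833351)) (b (l 15973544) (l 16225416))) (a (b (l 16385256) (l 16502112)) (l 16621160))))), by decide +kernel⟩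

theorem c_pm_023 : CertB 0 536870912 1610612736 536870912 587336777 62277027 3 eng mog cd1q0 cd2q3 pd2 false true false .up 0 2 3
    ndB1q0 ndB2q3 pcB2 Cut.none Ext.none :=
  certB1 (fam := false) (s1 := true) (s2 := false) (a := 0) (b := 2) (c := 3) (cn := .up) (n1 := ndB1q0) (n2 := ndB2q3) (pc := pcB2) (cut := Cut.none) (xt := Ext.none) (P1 := 0) (W1 := 536870912) (P2 := 1610612736) (W2 := 536870912) (P3 := 587336777) (W3 := 62277027) (N0 := 3) (En := eng) (mo := mog) (C1 := cd1q0) (C2 := cd2q3) (C3 := pd2)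
    rfl (fun _ => rfl) k0_pm_023

noncomputable def f_pm_033 : ℕ → ℕ → ℕ → ℕ → Bool := onCell 0 536870912 1610612736 536870912 587336777 62277027
    (rowB 3 eng mog cd1q0 cd2q3 pd3 1 false true false .pnn 0 3 3 (qsf 0 536870912 1610612736 536870912 3) ndB1q0 ndB2q3 pcB3 Cut.none Ext.none)

def k0_pm_033 : ∃ t, chk3 f_pm_033 t 1 1 1 = true :=
  ⟨(a (b (b (b (a (b (l 16072560) (l 16141888)) (l 16375376)) (a (l 2084903574823) (l 16471944))) (l 4)) (b (l 4) (a (l 4) (a (b (l 4) (l 2)) (l 2))))) (b (b (b (l 16763160) (a (l 16612152) (l 16704704))) (a (b (l 16641688) (l 16661960)) (a (b (l 16702880) (l 2)) (l 2)))) (a (b (a (b (l 4) (l 2)) (l 2)) (l 2)) (l 2)))), by decide +kernel⟩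

theorem c_pm_033 : CertB 0 536870912 1610612736 536870912 587336777 62277027 3 eng mog cd1q0 cd2q3 pd3 false true false .pnn 0 3 3
    ndB1q0 ndB2q3 pcB3 Cut.none Ext.none :=
  certB1 (fam := false) (s1 := true) (s2 := false) (a := 0) (b := 3) (c := 3) (cn := .pnn) (n1 := ndB1q0) (n2 := ndB2q3) (pc := pcB3) (cut := Cut.none) (xt := Ext.none) (P1 := 0) (W1 := 536870912) (P2 := 1610612736) (W2 := 536870912) (P3 := 587336777) (W3 := 62277027) (N0 := 3) (En := eng) (mo := mog) (C1 := cd1q0) (C2 := cd2q3) (C3 := pd3)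
    rfl (fun _ => rfl) k0_pm_033

noncomputable def f_pm_101 : ℕ → ℕ → ℕ → ℕ → Bool := onCell 0 536870912 536870912 536870912 587336777 62277027
    (rowB 3 eng mog cd1q1 cd2q1 pd0 2 false true false .npn 1 0 1 (qsf 536870912 536870912 536870912 536870912 0) ndB1q1 ndB2q1 pcB0 Cut.none Ext.none)

def k0_pm_101 : ∃ t, chk3 f_pm_101 t 1 1 1 = true :=
  ⟨(b (a (l 4) (l 4)) (b (a (b (a (a (a (b (l 16592192) (l 16574968)) (b (l 4) (l 16575832))) (a (b (l 4) (l 16577328)) (l 4))) (l 4)) (a (a (a (b (l 16572528) (l 16577792)) (b (l 16565384) (l 16565976))) (a (b (l 16556824) (l 16551856)) (b (l 16550088) (l 16535272)))) (a (a (b (l 16544744) (l 16518824)) (l 5066714855)) (a (l 16513904) (l 4))))) (l 4)) (b (a (a (a (b (a (l 16589760) (l 16572272)) (a (b (a (l 16627752) (l 16597256)) (l 16602352)) (b (l 16580168) (a (l 16590120) (l 16580896))))) (a (b (l 16553744) (b (l 16557496) (l 16563136))) (b (l 16532536) (l 16534248)))) (a (a (l 16654944) (l 16481288)) (a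 (l 16453584) (l 16468184)))) (a (a (a (b (l 16415432) (l 16375512)) (l 16579048)) (a (l 16339080) (l 4))) (l 4))) (b (a (a (a (a (l 16610112) (l 16586768)) (a (b (l 16561992) (l 16563256)) (b (l 16537728) (l 16534440)))) (a (a (b (l 16506720) (l 16505432)) (l 16477848)) (l 16420464))) (a (a (l 16334600) (a (l 16253824) (l 16194520))) (a (a (l 16128216) (l 4)) (l 4)))) (a (a (a (a (l 16603632) (l 16583000)) (a (l 16561736) (l 16533312))) (a (a (l 16502472) (l 16467440)) (a (l 16432272) (l 16395888)))) (a (a (a (l 16353856) (l 16295000)) (l 16201464)) (a (a (l 16118936) (l 16057248)) (a (l 16083600) (l 16149928))))))))), by decide +kernel⟩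

theorem c_pm_101 : CertB 536870912 536870912 536870912 536870912 587336777 62277027 3 eng mog cd1q1 cd2q1 pd0 false true false .npn 1 0 1
    ndB1q1 ndB2q1 pcB0 Cut.none Ext.none :=
  certB2 (fam := false) (s1 := true) (s2 := false) (a := 1) (b := 0) (c := 1) (cn := .npn) (n1 := ndB1q1) (n2 := ndB2q1) (pc := pcB0) (cut := Cut.none) (xt := Ext.none) (P1 := 536870912) (W1 := 536870912) (P2 := 536870912) (W2 := 536870912) (P3 := 587336777) (W3 := 62277027) (N0 := 3) (En := eng) (mo := mog) (C1 := cd1q1) (C2 := cd2q1) (C3 := pd0)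
    rfl (fun _ => rfl) k0_pm_101

noncomputable def f_pm_102_a : ℕ → ℕ → ℕ → ℕ → Bool := onCell 536870912 536870912 0 536870912 587336777 62277027
    (rowB 3 eng mog cd1q1 cd2q2a pd0 0 false true false .npp 1 0 2 (qsf 536870912 536870912 0 536870912 0) ndB1q1 ndB2q2a pcB0 Cut.none Ext.none)

def k0_pm_102_a : ∃ t, chk3 f_pm_102_a t 2 2 1 = true :=
  ⟨(a (b (l 2) (a (l 2) (b (l 2) (l 16603784)))) (b (b (a (a (l 16783056) (b (l 16757104) (l 16749080))) (a (b (a (l 16758392) (b (l 16754936) (l 16756400))) (l 16756536)) (a (b (b (a (l 16750576) (l 16746976)) (l 16751960)) (l 16754776)) (b (b (l 16740656) (a (l 16746952) (l 16742968))) (b (l 16748616) (l 16751368)))))) (a (a (l 16704696) (l 16728880)) (a (b (l 16750968) (l 16740864)) (b (l 16754832) (l 16752376))))) (a (b (a (l 16649672) (l 16677968)) (l 16640552)) (b (a (l 16731976) (b (l 16744984) (l 16728592))) (a (l 16672448) (b (l 16699960) (l 16687728))))))), by decide +kernel⟩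

def k1_pm_102_a : ∃ t, chk3 f_pm_102_a t 2 3 1 = true :=
  ⟨(a (a (b (l 2) (a (b (l 2) (b (l 16434896) (b (l 16389336) (a (l 16370424) (l 16390768))))) (b (b (l 16528800) (l 16476472)) (b (l 16461616) (b (l 16425936) (a (l 16412024) (l 16431568))))))) (b (b (l 16600456) (b (l 16597776) (a (l 16590200) (l 16592504)))) (b (b (a (l 16538576) (l 16563568)) (a (l 16496920) (l 16540016))) (b (a (b (l 16476064) (l 16467760)) (l 16530768)) (a (a (l 16452560) (l 16482072)) (a (b (l 16516064) (l 16522232)) (b (l 16549680) (c (l 16587240) (l 16522568))))))))) (b (b (a (l 16628488) (a (l 16657600) (l 16677112))) (a (b (l 16624096) (a (l 16612696) (l 16632816))) (a (l 16655176) (l 16676320)))) (b (a (a (b (l 16599152) (l 16586616)) (b (l 16630808) (b (l 16625232) (l 16624720)))) (b (a (l 16659808) (l 16683752)) (a (l 16656496) (l 16682416)))) (a (b (a (a (l 16573096) (a (l 16591280) (l 16602112))) (b (l 16625080) (l 16625560))) (a (b (a (l 16577744) (l 16600120))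 (a (b (l 16581048) (l 16583080)) (l 16602304))) (c (l 16654096) (l 16603856)))) (b (a (l 16657144) (l 16683848)) (a (c (l 16683208) (b (l 16639600) (l 16642784))) (b (l 16687552) (a (l 16684880) (l 16697760))))))))), by decide +kernel⟩

def k2_pm_102_a : ∃ t, chk3 f_pm_102_a t 6 2 1 = true :=
  ⟨(a (b (a (b (a (b (b (a (l 16733512) (l 148344046535)) (l 16736160)) (b (a (l 16742984) (l 16738568)) (l 16744904))) (b (b (l 162302675479) (a (l 95193837367) (l 161228938039))) (b (a (l 16733688) (l 93046352503)) (a (l 16738536) (l 16733608))))) (a (l 16752048) (b (b (l 16740744) (l 16744840)) (l 16749704)))) (b (b (l 3) (a (b (l 159081448407) (a (l 16728248) (l 148880916087))) (b (l 3) (l 148344017479)))) (b (a (b (l 16730856) (a (l 16738424) (l 16733456))) (b (a (l 151028400855) (l 149954634151)) (a (l 16727816) (l 16721472)))) (a (b (l 16740744) (l 16745016)) (b (a (l 16733288) (l 16727192)) (l 16735656)))))) (b (b (a (l 16753056) (l 16746936)) (a (l 16749096)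 (a (l 16753168) (l 16750264)))) (b (a (l 16734728) (l 16752576)) (a (l 16707360) (l 16741632))))) (b (b (l 3) (a (a (b (b (l 3) (a (l 142975324791) (l 135995976007))) (b (a (l 16720752) (l 143512194535)) (a (l 16726688) (l 16720136)))) (b (l 3) (b (a (l 132237877335) (l 3)) (a (l 105394356119) (l 132237875383))))) (l 3))) (b (a (b (a (b (l 16750240) (l 16734848)) (b (a (l 16719560) (l 16712680)) (a (l 16725680) (l 16719152)))) (a (l 16742488) (b (a (l 16731696) (l 16725400)) (l 16734520)))) (b (a (b (a (l 127942925975) (l 126869151303)) (a (l 16712120) (l 111299925543))) (b (l 3) (b (l 3) (l 124721683095)))) (a (b (a (l 16718840) (l 16711768)) (a (l 16725288) (l 16718608))) (b (a (l 105394340599) (l 122037309831)) (a (l 16711648) (l 16704240)))))) (a (b (a (l 16749936) (l 16742496)) (a (l 16752184) (l 16750368))) (b (a (l 16731704) (a (b (l 16718512) (l 16725488)) (b (l 16711584) (l 16718688)))) (a (l 16743048) (l 16732440))))))), by decide +kernel⟩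

def k3_pm_102_a : ∃ t, chk3 f_pm_102_a t 7 2 1 = true :=
  ⟨(a (b (l 3) (a (b (b (l 3) (a (b (l 3) (a (l 124721686599) (l 139754035847))) (l 3))) (b (a (b (a (l 16704144) (b (l 118816096119) (l 16698560))) (a (l 16711696) (l 16704384))) (b (a (l 132237842471) (l 3)) (a (b (l 16695104) (l 16698856)) (b (l 3) (l 137606566167))))) (a (b (a (l 16719120) (l 16712008)) (l 16723080)) (a (b (l 16715360) (l 16712544)) (b (b (l 16695520) (l 16699416)) (b (l 16703440) (l 16707384))))))) (b (l 3) (b (l 3) (a (b (a (b (l 157470772951) (l 105931167591)) (l 3)) (a (b (l 16696240) (l 16700216)) (b (l 156397031271) (l 122037305927)))) (l 3)))))) (l 3)), by decide +kernel⟩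

def k4_pm_102_a : ∃ t, chk3 f_pm_102_a t 6 3 1 = true :=
  ⟨(b (a (b (b (a (l 16699104) (l 16717872)) (l 16702536)) (a (l 16694968) (l 16710360))) (b (b (a (l 16726456) (a (l 16750968) (l 16744448))) (a (l 16767776) (a (l 16748384) (l 16751480)))) (a (l 16802416) (b (a (l 16728144) (l 16744120)) (l 16725880))))) (b (a (b (a (l 16702600) (l 16717296)) (a (l 16704504) (l 16722328))) (a (b (l 16723776) (l 16731904)) (b (l 16728584) (l 16778024)))) (a (b (a (c (l 16720696) (l 16693672)) (l 16725160)) (a (a (b (l 16705488) (l 16709792)) (a (l 16715960) (l 16721208))) (l 16732328))) (b (l 16798872) (a (l 16741104) (l 16745744)))))), by decide +kernel⟩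

def k5_pm_102_a : ∃ t, chk3 f_pm_102_a t 14 6 1 = true :=
  ⟨(b (a (b (a (l 16765304) (b (a (l 16720432) (b (l 16711344) (l 16715424))) (l 16724816))) (a (l 16746408) (b (l 16732352) (l 16739592)))) (b (a (b (a (b (l 16704296) (l 16708280)) (b (l 16697280) (l 16701400))) (a (l 16714528) (b (l 16705528) (l 16709664)))) (b (a (b (l 157470789255) (l 16694704)) (b (l 3) (l 171429415863))) (a (b (l 16698784) (l 16702976)) (b (l 163376383655) (l 16696376))))) (b (a (l 16719304) (a (b (l 16707080) (l 16711240)) (b (l 16700528) (l 16704656)))) (a (l 16727320) (a (l 16717440) (b (l 16708768) (l 16712904))))))) (b (a (a (l 16751680) (b (l 16745800) (l 16750352))) (a (b (l 16735224) (l 16742456)) (b (l 16722368) (l 16814600)))) (a (b (l 16749904) (l 16736936)) (a (b (l 16748464) (l 16752776)) (b (l 16738656) (l 16745752)))))), by decide +kernel⟩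

def k6_pm_102_a : ∃ t, chk3 f_pm_102_a t 15 6 1 = true :=
  ⟨(a (b (b (a (b (l 3) (a (b (l 3) (l 170892548695)) (l 3))) (l 3)) (a (b (a (b (l 167671363271) (l 16698272)) (b (l 3) (a (l 188072440615) (l 3)))) (b (a (l 16702384) (a (l 16697768) (l 16700016))) (a (l 16706480) (a (l 16701824) (l 16698840))))) (b (l 3) (a (b (a (l 3) (l 3)) (a (l 16695768) (l 164450102279))) (l 3))))) (a (b (a (b (l 16712688) (l 16721072)) (b (b (a (l 16705896) (l 16702856)) (a (l 16710016) (l 16706944))) (l 16714768))) (a (b (l 16729656) (l 16737648)) (b (l 16723280) (l 16731552)))) (b (b (a (b (a (l 16699936) (l 16696784)) (a (l 16703920) (l 16701056))) (b (a (l 164986977415) (l 3)) (l 184314388215))) (a (b (a (l 16708048) (l 16705048)) (l 16731840)) (a (b (l 16702200) (l 16706232)) (b (l 16698896) (l 16703368))))) (b (a (l 16717008) (b (l 16735264) (l 16712944))) (a (l 16725216) (l 16718784)))))) (b (l 3) (b (a (b (l 3) (a (b (a (l 125795376407) (l 3)) (l 169818861927))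 (l 3))) (l 3)) (a (a (b (b (a (l 16704504) (l 16711712)) (a (l 16708744) (l 16705568))) (a (l 16714584) (l 16732952))) (b (b (l 148880885127) (l 158544563527)) (a (b (l 16706744) (l 16711032)) (b (l 16703488) (l 16708096))))) (b (l 3) (a (b (l 148880858215) (l 142438455527)) (l 3))))))), by decide +kernel⟩

def k7_pm_102_a : ∃ t, chk3 f_pm_102_a t 7 7 1 = true :=
  ⟨(b (a (b (a (l 16732864) (a (l 16743296) (b (l 16751360) (l 16751888)))) (b (a (l 16734816) (l 16759872)) (a (l 16738240) (a (l 16739096) (l 16739696))))) (a (b (b (a (a (l 16744880) (l 16738736)) (b (l 16727840) (a (l 16734312) (l 16728240)))) (a (l 16747608) (b (a (l 16738016) (l 16731640)) (l 16738384)))) (b (a (l 16751080) (l 16743032)) (a (l 16745232) (b (l 16747368) (l 16749432))))) (b (a (b (a (b (l 16718504) (l 16680344)) (b (l 16712976) (l 16716192))) (a (b (l 16725664) (l 16729040)) (b (a (l 16721312) (l 16718328)) (l 16723176)))) (b (a (b (a (l 16708984) (l 16726656)) (a (l 16712264)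 (l 16709784))) (b (l 143512173527) (a (c (l 117742379943) (l 16727312)) (l 141364689911)))) (a (b (a (l 16715400) (l 16712832)) (a (l 16718992) (l 16736984))) (a (b (l 16710480) (l 16713352)) (b (b (l 16716792) (l 16718880)) (l 16711176)))))) (a (b (a (b (l 16732800) (l 16736048)) (b (l 16726664) (l 16730248))) (a (l 16740992) (l 16735320))) (a (b (b (a (l 16722360) (l 16719528)) (a (l 16725976) (l 16722944))) (b (l 16727824) (l 16731240))) (b (a (b (l 16737880) (l 16720080)) (b (b (l 16713336) (l 16714928)) (b (l 16716800) (l 16718400)))) (b (a (b (l 16722912) (l 16724488)) (b (l 16720008) (l 16721920))) (l 16725648)))))))) (a (b (a (l 16739952) (l 16740400)) (a (l 16748240) (l 16748392))) (b (a (b (a (l 16740016) (l 16748392)) (l 16740208)) (b (a (b (a (l 16745672) (l 16740336)) (l 16744856)) (b (a (l 16734528) (b (l 16728192) (l 16729784))) (l 16734168))) (a (l 16746456) (l 16737128)))) (a (b (l 16742952) (l 16748024)) (a (b (l 16739912) (l 16743048))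 (b (a (l 16742888) (l 16737696)) (a (l 16744080) (l 16739704)))))))), by decide +kernel⟩

theorem s8_pm_102_a : ∃ t, chk3 f_pm_102_a t 7 6 1 = true := ex3_a k5_pm_102_a k6_pm_102_a

theorem s9_pm_102_a : ∃ t, chk3 f_pm_102_a t 7 3 1 = true := ex3_b s8_pm_102_a k7_pm_102_a

theorem s10_pm_102_a : ∃ t, chk3 f_pm_102_a t 3 3 1 = true := ex3_a k4_pm_102_a s9_pm_102_a

theorem s11_pm_102_a : ∃ t, chk3 f_pm_102_a t 3 2 1 = true := ex3_a k2_pm_102_a k3_pm_102_a

theorem s12_pm_102_a : ∃ t, chk3 f_pm_102_a t 3 1 1 = true := ex3_b s11_pm_102_a s10_pm_102_a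

theorem s13_pm_102_a : ∃ t, chk3 f_pm_102_a t 2 1 1 = true := ex3_b k0_pm_102_a k1_pm_102_a

theorem s14_pm_102_a : ∃ t, chk3 f_pm_102_a t 1 1 1 = true := ex3_a s13_pm_102_a s12_pm_102_a

theorem c_pm_102_a : CertB 536870912 536870912 0 536870912 587336777 62277027 3 eng mog cd1q1 cd2q2a pd0 false true false .npp 1 0 2
    ndB1q1 ndB2q2a pcB0 Cut.none Ext.none :=
  certB0 (fam := false) (s1 := true) (s2 := false) (a := 1) (b := 0) (c := 2) (cn := .npp) (n1 := ndB1q1) (n2 := ndB2q2a) (pc := pcB0) (cut := Cut.none) (xt := Ext.none) (P1 := 536870912) (W1 := 536870912) (P2 := 0) (W2 := 536870912) (P3 := 587336777) (W3 := 62277027) (N0 := 3) (En := eng) (mo := mog) (C1 := cd1q1) (C2 := cd2q2a) (C3 := pd0)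
    rfl s14_pm_102_a

noncomputable def f_pm_102_b : ℕ → ℕ → ℕ → ℕ → Bool := onCell 536870912 536870912 0 536870912 587336777 62277027
    (rowB 3 eng mog cd1q1 cd2q2b pd0 1 false true false .npp 1 0 2 (qsf 536870912 536870912 1239849684 370763052 0) ndB1q1 ndB2q2b pcB0 Cut.none Ext.none)

def k0_pm_102_b : ∃ t, chk3 f_pm_102_b t 1 1 1 = true :=
  ⟨(a (b (l 1) (b (l 1) (a (l 1) (b (a (l 1) (b (a (l 1) (b (l 1) (a (l 1) (l 127271926567)))) (a (b (l 1) (a (l 1) (l 16760296))) (b (a (l 16754000) (l 16737416)) (l 16738296))))) (a (a (b (l 1) (l 235182932567)) (b (l 199212691783) (l 69826723607))) (b (a (b (l 16758904) (l 16752520)) (a (l 16736128) (l 16720640))) (a (l 16744344) (a (l 16725744) (l 16711432))))))))) (a (b (l 1) (a (b (l 3) (a (b (b (a (b (l 3) (a (l 184851311303) (l 3))) (l 3)) (a (b (l 134385426199) (l 16712672)) (l 249812589111))) (b (a (l 16703856) (l 140827849895)) (l 16687376))) (b (l 3) (b (a (l 274508591863) (l 3)) (l 153175842487)))))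 (l 3))) (l 3))), by decide +kernel⟩

theorem c_pm_102_b : CertB 536870912 536870912 1239849684 370763052 587336777 62277027 3 eng mog cd1q1 cd2q2b pd0 false true false .npp 1 0 2
    ndB1q1 ndB2q2b pcB0 Cut.none Ext.none :=
  certB1 (fam := false) (s1 := true) (s2 := false) (a := 1) (b := 0) (c := 2) (cn := .npp) (n1 := ndB1q1) (n2 := ndB2q2b) (pc := pcB0) (cut := Cut.none) (xt := Ext.none) (P1 := 536870912) (W1 := 536870912) (P2 := 1239849684) (W2 := 370763052) (P3 := 587336777) (W3 := 62277027) (N0 := 3) (En := eng) (mo := mog) (C1 := cd1q1) (C2 := cd2q2b) (C3 := pd0)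
    rfl (fun _ => rfl) k0_pm_102_b

noncomputable def f_pm_112_a : ℕ → ℕ → ℕ → ℕ → Bool := onCell 536870912 536870912 0 536870912 587336777 62277027
    (rowB 3 eng mog cd1q1 cd2q2a pd1 2 false true false .dn 1 1 2 (qsf 536870912 536870912 0 536870912 1) ndB1q1 ndB2q2a pcB1 Cut.none Ext.none)

def k0_pm_112_a : ∃ t, chk3 f_pm_112_a t 1 1 1 = true :=
  ⟨(a (b (a (b (b (a (a (b (l 16767152) (l 16711400)) (l 16704016)) (a (l 16686992) (l 16669952))) (a (a (l 16684504) (l 16667768)) (a (l 16651344) (l 16635760)))) (a (b (a (l 16641096) (l 16624240)) (l 16577168)) (b (l 16602112) (l 16555288)))) (a (b (b (a (l 16654032) (l 1)) (l 16614368)) (b (l 16579728) (l 16543320))) (l 1))) (b (a (a (b (l 16511304) (l 16584624)) (b (l 16504320) (b (l 16465680) (l 16440864)))) (l 1)) (a (a (b (c (l 16434088) (l 16358968)) (a (l 16281152) (l 159483372343))) (b (l 198138502567) (l 1))) (l 1)))) (l 1)), by decide +kernel⟩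

theorem c_pm_112_a : CertB 536870912 536870912 0 536870912 587336777 62277027 3 eng mog cd1q1 cd2q2a pd1 false true false .dn 1 1 2
    ndB1q1 ndB2q2a pcB1 Cut.none Ext.none :=
  certB2 (fam := false) (s1 := true) (s2 := false) (a := 1) (b := 1) (c := 2) (cn := .dn) (n1 := ndB1q1) (n2 := ndB2q2a) (pc := pcB1) (cut := Cut.none) (xt := Ext.none) (P1 := 536870912) (W1 := 536870912) (P2 := 0) (W2 := 536870912) (P3 := 587336777) (W3 := 62277027) (N0 := 3) (En := eng) (mo := mog) (C1 := cd1q1) (C2 := cd2q2a) (C3 := pd1)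
    rfl (fun _ => rfl) k0_pm_112_a

noncomputable def f_pm_112_b : ℕ → ℕ → ℕ → ℕ → Bool := onCell 536870912 536870912 536870912 536870912 587336777 62277027
    (rowB 3 eng mog cd1q1 cd2q2b pd1 1 false true false .dn 1 1 2 (qsf 536870912 536870912 1239849684 370763052 1) ndB1q1 ndB2q2b pcB1 Cut.none Ext.none)

def k0_pm_112_b : ∃ t, chk3 f_pm_112_b t 1 1 1 = true :=
  ⟨(b (b (a (a (a (b (l 1) (b (l 253436427303) (l 263100108231))) (a (b (l 260415782839) (l 195991298359)) (b (b (l 271153241943) (l 175590236871)) (l 16714840)))) (b (a (b (a (l 147672955143) (l 16738336)) (l 16733336)) (b (a (l 16733680) (l 16718424)) (l 16726424))) (a (l 16791888) (l 16734304)))) (a (b (a (b (a (l 16693224) (l 95193785031)) (a (l 16698072) (l 16666600))) (b (l 3) (a (l 206862871911) (l 3)))) (a (b (a (l 16710192) (l 16686760)) (a (l 16731720) (l 16715696))) (a (b (l 16651640) (l 16687232)) (b (l 3) (l 182166830119))))) (l 3))) (a (a (b (a (b (l 204581196535) (l 16664120))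 (l 16695960)) (a (l 16645960) (l 16684608))) (b (a (l 16731440) (l 16765488)) (a (l 16745392) (l 16823512)))) (a (b (a (b (a (l 16761824) (l 16754976)) (l 16807632)) (b (a (l 16738736) (l 16711968)) (a (l 16806784) (l 16769344)))) (a (l 16905000) (b (l 220217665399) (l 2)))) (a (b (b (l 3) (l 2)) (l 2)) (l 2))))) (b (a (a (b (a (l 16618488) (l 16677680)) (a (l 16590160) (l 16676184))) (b (a (l 16773184) (l 16910744)) (a (l 16815632) (l 16938600)))) (a (b (a (l 17088184) (l 2)) (l 2)) (l 2))) (a (a (a (l 16590816) (b (l 16682176) (l 16689392))) (b (a (l 16818944) (l 2)) (l 2))) (l 2)))), by decide +kernel⟩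

theorem c_pm_112_b : CertB 536870912 536870912 1239849684 370763052 587336777 62277027 3 eng mog cd1q1 cd2q2b pd1 false true false .dn 1 1 2
    ndB1q1 ndB2q2b pcB1 Cut.none Ext.none :=
  certB1 (fam := false) (s1 := true) (s2 := false) (a := 1) (b := 1) (c := 2) (cn := .dn) (n1 := ndB1q1) (n2 := ndB2q2b) (pc := pcB1) (cut := Cut.none) (xt := Ext.none) (P1 := 536870912) (W1 := 536870912) (P2 := 1239849684) (W2 := 370763052) (P3 := 587336777) (W3 := 62277027) (N0 := 3) (En := eng) (mo := mog) (C1 := cd1q1) (C2 := cd2q2b) (C3 := pd1)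
    rfl (fun _ => rfl) k0_pm_112_b

noncomputable def f_pm_113 : ℕ → ℕ → ℕ → ℕ → Bool := onCell 536870912 536870912 536870912 536870912 587336777 62277027
    (rowB 3 eng mog cd1q1 cd2q3 pd1 1 false true false .nn 1 1 3 (qsf 536870912 536870912 1610612736 536870912 1) ndB1q1 ndB2q3 pcB1 Cut.none Ext.none)

def k0_pm_113 : ∃ t, chk3 f_pm_113 t 1 1 1 = true :=
  ⟨(a (b (a (l 1) (b (l 1) (b (l 1) (l 99891664535)))) (b (a (b (l 1) (a (l 1) (l 16655408))) (b (l 61773687367) (l 92912056039))) (a (b (l 81637712839) (l 87543103735)) (b (l 16682056) (l 16726592))))) (b (b (a (a (l 1) (a (l 1) (a (l 1) (l 3)))) (l 3)) (a (b (a (b (l 1) (l 16819768)) (b (a (l 16764632) (l 16749472)) (a (l 16834960) (l 16817192)))) (a (l 16913784) (b (a (l 16923448) (l 16873056)) (a (l 17000584) (l 16927672))))) (a (b (a (b (l 3) (l 212231655559)) (l 3)) (b (a (l 225116553655) (l 3)) (a (l 16860576) (l 236390824023)))) (l 3)))) (b (a (b (a (l 17044664) (b (l 17002016) (l 17065712)))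 (a (l 16958648) (l 17028056))) (b (a (b (a (l 16909800) (l 202031097655)) (a (l 16950568) (l 16889200))) (b (l 3) (a (a (l 300815742535) (l 3)) (l 3)))) (a (b (a (l 16988776) (l 16925376)) (a (l 17020432) (l 16950728))) (a (b (a (l 16883360) (l 16860576)) (b (l 16889352) (l 16898072))) (b (l 3) (a (l 16859016) (l 3))))))) (a (b (a (l 16893864) (l 16936200)) (a (l 16841248) (l 16867392))) (b (b (a (l 16985312) (a (a (l 16918152) (l 16892104)) (a (l 16868024) (l 16866632)))) (a (l 16933336) (a (l 16905248) (a (l 16864112) (l 16841048))))) (a (l 16869360) (a (l 17040608) (b (l 16921056) (l 16809464))))))))), by decide +kernel⟩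

theorem c_pm_113 : CertB 536870912 536870912 1610612736 536870912 587336777 62277027 3 eng mog cd1q1 cd2q3 pd1 false true false .nn 1 1 3
    ndB1q1 ndB2q3 pcB1 Cut.none Ext.none :=
  certB1 (fam := false) (s1 := true) (s2 := false) (a := 1) (b := 1) (c := 3) (cn := .nn) (n1 := ndB1q1) (n2 := ndB2q3) (pc := pcB1) (cut := Cut.none) (xt := Ext.none) (P1 := 536870912) (W1 := 536870912) (P2 := 1610612736) (W2 := 536870912) (P3 := 587336777) (W3 := 62277027) (N0 := 3) (En := eng) (mo := mog) (C1 := cd1q1) (C2 := cd2q3) (C3 := pd1)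
    rfl (fun _ => rfl) k0_pm_113

noncomputable def f_pm_123 : ℕ → ℕ → ℕ → ℕ → Bool := onCell 1073741824 536870912 1610612736 536870912 587336777 62277027
    (rowB 3 eng mog cd1q1 cd2q3 pd2 2 false true false .npn 1 2 3 (qsf 536870912 536870912 1610612736 536870912 2) ndB1q1 ndB2q3 pcB2 Cut.none Ext.none)

def k0_pm_123 : ∃ t, chk3 f_pm_123 t 1 1 1 = true :=
  ⟨(a (b (a (b (b (l 16542704) (l 16514744)) (b (l 16582136) (a (l 16710624) (l 16615416)))) (b (a (l 16375368) (l 1)) (a (l 16498616) (l 16460248)))) (a (b (a (b (l 16757112) (l 16783024)) (l 16688136)) (a (b (l 16791792) (a (l 16786328) (l 16762680))) (b (l 16718008) (l 16717808)))) (b (a (l 16622568) (l 16593624)) (a (b (l 16662824) (a (l 16752744) (l 16671264))) (l 16678040))))) (a (b (b (l 1) (a (l 16444560) (l 1))) (b (a (l 16578912) (l 16575712)) (a (l 16653016) (l 16654168)))) (b (l 1) (a (l 16783112) (l 16653680))))), by decide +kernel⟩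

theorem c_pm_123 : CertB 536870912 536870912 1610612736 536870912 587336777 62277027 3 eng mog cd1q1 cd2q3 pd2 false true false .npn 1 2 3
    ndB1q1 ndB2q3 pcB2 Cut.none Ext.none :=
  certB2 (fam := false) (s1 := true) (s2 := false) (a := 1) (b := 2) (c := 3) (cn := .npn) (n1 := ndB1q1) (n2 := ndB2q3) (pc := pcB2) (cut := Cut.none) (xt := Ext.none) (P1 := 536870912) (W1 := 536870912) (P2 := 1610612736) (W2 := 536870912) (P3 := 587336777) (W3 := 62277027) (N0 := 3) (En := eng) (mo := mog) (C1 := cd1q1) (C2 := cd2q3) (C3 := pd2)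
    rfl (fun _ => rfl) k0_pm_123

noncomputable def f_pm_133 : ℕ → ℕ → ℕ → ℕ → Bool := onCell 1610612736 536870912 1610612736 536870912 587336777 62277027
    (rowB 3 eng mog cd1q1 cd2q3 pd3 2 false true false .dn 1 3 3 (qsf 536870912 536870912 1610612736 536870912 3) ndB1q1 ndB2q3 pcB3 Cut.none Ext.none)

def k0_pm_133 : ∃ t, chk3 f_pm_133 t 1 1 1 = true :=
  ⟨(a (b (l 1) (a (a (l 16683144) (l 1)) (l 1))) (l 1)), by decide +kernel⟩

theorem c_pm_133 : CertB 536870912 536870912 1610612736 536870912 587336777 62277027 3 eng mog cd1q1 cd2q3 pd3 false true false .dn 1 3 3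
    ndB1q1 ndB2q3 pcB3 Cut.none Ext.none :=
  certB2 (fam := false) (s1 := true) (s2 := false) (a := 1) (b := 3) (c := 3) (cn := .dn) (n1 := ndB1q1) (n2 := ndB2q3) (pc := pcB3) (cut := Cut.none) (xt := Ext.none) (P1 := 536870912) (W1 := 536870912) (P2 := 1610612736) (W2 := 536870912) (P3 := 587336777) (W3 := 62277027) (N0 := 3) (En := eng) (mo := mog) (C1 := cd1q1) (C2 := cd2q3) (C3 := pd3)
    rfl (fun _ => rfl) k0_pm_133

noncomputable def cut_pm_202_aa : Cut := Cut.of [[⟨0, 1, 0, 67108864⟩, ⟨1, 0, 0, 67108864⟩, ⟨2, 1, 0, 67108864⟩]]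

noncomputable def f_pm_202_aa : ℕ → ℕ → ℕ → ℕ → Bool := onCell 0 536870912 0 536870912 587336777 62277027
    (rowB 3 eng mog cd1q2a cd2q2a pd0 0 false true false .pp 2 0 2 (qsf 0 536870912 0 536870912 0) ndB1q2a ndB2q2a pcB0 cut_pm_202_aa Ext.none)

def k0_pm_202_aa : ∃ t, chk3 f_pm_202_aa t 1 1 1 = true :=
  ⟨(a (l 3) (b (l 3) (a (l 3) (b (l 3) (b (l 3) (a (l 3) (l 6))))))), by decide +kernel⟩

theorem c_pm_202_aa : CertB 0 536870912 0 536870912 587336777 62277027 3 eng mog cd1q2a cd2q2a pd0 false true false .pp 2 0 2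
    ndB1q2a ndB2q2a pcB0 cut_pm_202_aa Ext.none :=
  certB0 (fam := false) (s1 := true) (s2 := false) (a := 2) (b := 0) (c := 2) (cn := .pp) (n1 := ndB1q2a) (n2 := ndB2q2a) (pc := pcB0) (cut := cut_pm_202_aa) (xt := Ext.none) (P1 := 0) (W1 := 536870912) (P2 := 0) (W2 := 536870912) (P3 := 587336777) (W3 := 62277027) (N0 := 3) (En := eng) (mo := mog) (C1 := cd1q2a) (C2 := cd2q2a) (C3 := pd0)
    rfl k0_pm_202_aa

noncomputable def cut_pm_202_ab : Cut := Cut.of [[⟨0, 1, 0, 67108864⟩, ⟨1, 0, 0, 67108864⟩, ⟨2, 1, 0, 67108864⟩]]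

noncomputable def f_pm_202_ab : ℕ → ℕ → ℕ → ℕ → Bool := onCell 0 536870912 1239849684 370763052 587336777 62277027
    (rowB 3 eng mog cd1q2a cd2q2b pd0 0 false true false .pp 2 0 2 (qsf 0 536870912 1239849684 370763052 0) ndB1q2a ndB2q2b pcB0 cut_pm_202_ab Ext.none)

def k0_pm_202_ab : ∃ t, chk3 f_pm_202_ab t 1 1 1 = true :=
  ⟨(l 3), by decide +kernel⟩

theorem c_pm_202_ab : CertB 0 536870912 1239849684 370763052 587336777 62277027 3 eng mog cd1q2a cd2q2b pd0 false true false .pp 2 0 2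
    ndB1q2a ndB2q2b pcB0 cut_pm_202_ab Ext.none :=
  certB0 (fam := false) (s1 := true) (s2 := false) (a := 2) (b := 0) (c := 2) (cn := .pp) (n1 := ndB1q2a) (n2 := ndB2q2b) (pc := pcB0) (cut := cut_pm_202_ab) (xt := Ext.none) (P1 := 0) (W1 := 536870912) (P2 := 1239849684) (W2 := 370763052) (P3 := 587336777) (W3 := 62277027) (N0 := 3) (En := eng) (mo := mog) (C1 := cd1q2a) (C2 := cd2q2b) (C3 := pd0)
    rfl k0_pm_202_ab

noncomputable def cut_pm_202_ba : Cut := Cut.of [[⟨0, 1, 0, 67108864⟩, ⟨1, 0, 0, 67108864⟩, ⟨2, 1, 0, 67108864⟩]]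

noncomputable def f_pm_202_ba : ℕ → ℕ → ℕ → ℕ → Bool := onCell 1239849684 370763052 0 536870912 587336777 62277027
    (rowB 3 eng mog cd1q2b cd2q2a pd0 0 false true false .pp 2 0 2 (qsf 1239849684 370763052 0 536870912 0) ndB1q2b ndB2q2a pcB0 cut_pm_202_ba Ext.none)

def k0_pm_202_ba : ∃ t, chk3 f_pm_202_ba t 1 1 1 = true :=
  ⟨(l 3), by decide +kernel⟩

theorem c_pm_202_ba : CertB 1239849684 370763052 0 536870912 587336777 62277027 3 eng mog cd1q2b cd2q2a pd0 false true false .pp 2 0 2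
    ndB1q2b ndB2q2a pcB0 cut_pm_202_ba Ext.none :=
  certB0 (fam := false) (s1 := true) (s2 := false) (a := 2) (b := 0) (c := 2) (cn := .pp) (n1 := ndB1q2b) (n2 := ndB2q2a) (pc := pcB0) (cut := cut_pm_202_ba) (xt := Ext.none) (P1 := 1239849684) (W1 := 370763052) (P2 := 0) (W2 := 536870912) (P3 := 587336777) (W3 := 62277027) (N0 := 3) (En := eng) (mo := mog) (C1 := cd1q2b) (C2 := cd2q2a) (C3 := pd0)
    rfl k0_pm_202_ba

noncomputable def cut_pm_202_bb : Cut := Cut.of [[⟨0, 1, 0, 67108864⟩, ⟨1, 0, 0, 67108864⟩, ⟨2, 1, 0, 67108864⟩]]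

noncomputable def f_pm_202_bb : ℕ → ℕ → ℕ → ℕ → Bool := onCell 1239849684 370763052 1239849684 370763052 587336777 62277027
    (rowB 3 eng mog cd1q2b cd2q2b pd0 0 false true false .pp 2 0 2 (qsf 1239849684 370763052 1239849684 370763052 0) ndB1q2b ndB2q2b pcB0 cut_pm_202_bb Ext.none)

def k0_pm_202_bb : ∃ t, chk3 f_pm_202_bb t 1 1 1 = true :=
  ⟨(l 3), by decide +kernel⟩

theorem c_pm_202_bb : CertB 1239849684 370763052 1239849684 370763052 587336777 62277027 3 eng mog cd1q2b cd2q2b pd0 false true false .pp 2 0 2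
    ndB1q2b ndB2q2b pcB0 cut_pm_202_bb Ext.none :=
  certB0 (fam := false) (s1 := true) (s2 := false) (a := 2) (b := 0) (c := 2) (cn := .pp) (n1 := ndB1q2b) (n2 := ndB2q2b) (pc := pcB0) (cut := cut_pm_202_bb) (xt := Ext.none) (P1 := 1239849684) (W1 := 370763052) (P2 := 1239849684) (W2 := 370763052) (P3 := 587336777) (W3 := 62277027) (N0 := 3) (En := eng) (mo := mog) (C1 := cd1q2b) (C2 := cd2q2b) (C3 := pd0)
    rfl k0_pm_202_bb

noncomputable def f_pm_203_a : ℕ → ℕ → ℕ → ℕ → Bool := onCell 0 536870912 0 536870912 587336777 62277027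
    (rowB 3 eng mog cd1q2a cd2q3 pd0 1 false true false .up 2 0 3 (qsf 0 536870912 1610612736 536870912 0) ndB1q2a ndB2q3 pcB0 Cut.none Ext.none)

def k0_pm_203_a : ∃ t, chk3 f_pm_203_a t 1 1 1 = true :=
  ⟨(l 3), by decide +kernel⟩

theorem c_pm_203_a : CertB 0 536870912 1610612736 536870912 587336777 62277027 3 eng mog cd1q2a cd2q3 pd0 false true false .up 2 0 3
    ndB1q2a ndB2q3 pcB0 Cut.none Ext.none :=
  certB1 (fam := false) (s1 := true) (s2 := false) (a := 2) (b := 0) (c := 3) (cn := .up) (n1 := ndB1q2a) (n2 := ndB2q3) (pc := pcB0) (cut := Cut.none) (xt := Ext.none) (P1 := 0) (W1 := 536870912) (P2 := 1610612736) (W2 := 536870912) (P3 := 587336777) (W3 := 62277027) (N0 := 3) (En := eng) (mo := mog) (C1 := cd1q2a) (C2 := cd2q3) (C3 := pd0)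
    rfl (fun _ => rfl) k0_pm_203_a

noncomputable def f_pm_203_b : ℕ → ℕ → ℕ → ℕ → Bool := onCell 1239849684 370763052 1610612736 536870912 587336777 62277027
    (rowB 3 eng mog cd1q2b cd2q3 pd0 0 false true false .up 2 0 3 (qsf 1239849684 370763052 1610612736 536870912 0) ndB1q2b ndB2q3 pcB0 Cut.none Ext.none)

def k0_pm_203_b : ∃ t, chk3 f_pm_203_b t 1 1 1 = true :=
  ⟨(l 3), by decide +kernel⟩

theorem c_pm_203_b : CertB 1239849684 370763052 1610612736 536870912 587336777 62277027 3 eng mog cd1q2b cd2q3 pd0 false true false .up 2 0 3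
    ndB1q2b ndB2q3 pcB0 Cut.none Ext.none :=
  certB0 (fam := false) (s1 := true) (s2 := false) (a := 2) (b := 0) (c := 3) (cn := .up) (n1 := ndB1q2b) (n2 := ndB2q3) (pc := pcB0) (cut := Cut.none) (xt := Ext.none) (P1 := 1239849684) (W1 := 370763052) (P2 := 1610612736) (W2 := 536870912) (P3 := 587336777) (W3 := 62277027) (N0 := 3) (En := eng) (mo := mog) (C1 := cd1q2b) (C2 := cd2q3) (C3 := pd0)
    rfl k0_pm_203_b

noncomputable def cut_pm_213_a : Cut := Cut.of [[⟨0, 1, 0, 67108864⟩, ⟨1, 1, 0, 67108864⟩, ⟨2, 2, 0, 16777216⟩]]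

noncomputable def f_pm_213_a : ℕ → ℕ → ℕ → ℕ → Bool := onCell 0 536870912 1610612736 536870912 587336777 62277027
    (rowB 3 eng mog cd1q2a cd2q3 pd1 0 false true false .pnn 2 1 3 (qsf 0 536870912 1610612736 536870912 1) ndB1q2a ndB2q3 pcB1 cut_pm_213_a Ext.none)

def k0_pm_213_a : ∃ t, chk3 f_pm_213_a t 1 1 1 = true :=
  ⟨(b (l 3) (b (l 3) (a (l 3) (a (l 3) (b (l 3) (b (l 3) (a (l 3) (b (l 3) (b (l 3) (l 6)))))))))), by decide +kernel⟩

theorem c_pm_213_a : CertB 0 536870912 1610612736 536870912 587336777 62277027 3 eng mog cd1q2a cd2q3 pd1 false true false .pnn 2 1 3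
    ndB1q2a ndB2q3 pcB1 cut_pm_213_a Ext.none :=
  certB0 (fam := false) (s1 := true) (s2 := false) (a := 2) (b := 1) (c := 3) (cn := .pnn) (n1 := ndB1q2a) (n2 := ndB2q3) (pc := pcB1) (cut := cut_pm_213_a) (xt := Ext.none) (P1 := 0) (W1 := 536870912) (P2 := 1610612736) (W2 := 536870912) (P3 := 587336777) (W3 := 62277027) (N0 := 3) (En := eng) (mo := mog) (C1 := cd1q2a) (C2 := cd2q3) (C3 := pd1)
    rfl k0_pm_213_a

noncomputable def cut_pm_213_b : Cut := Cut.of [[⟨0, 1, 0, 67108864⟩, ⟨1, 1, 0, 67108864⟩, ⟨2, 2, 0, 16777216⟩]]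

noncomputable def f_pm_213_b : ℕ → ℕ → ℕ → ℕ → Bool := onCell 1239849684 370763052 1610612736 536870912 587336777 62277027
    (rowB 3 eng mog cd1q2b cd2q3 pd1 0 false true false .pnn 2 1 3 (qsf 1239849684 370763052 1610612736 536870912 1) ndB1q2b ndB2q3 pcB1 cut_pm_213_b Ext.none)

def k0_pm_213_b : ∃ t, chk3 f_pm_213_b t 1 1 1 = true :=
  ⟨(l 3), by decide +kernel⟩

theorem c_pm_213_b : CertB 1239849684 370763052 1610612736 536870912 587336777 62277027 3 eng mog cd1q2b cd2q3 pd1 false true false .pnn 2 1 3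
    ndB1q2b ndB2q3 pcB1 cut_pm_213_b Ext.none :=
  certB0 (fam := false) (s1 := true) (s2 := false) (a := 2) (b := 1) (c := 3) (cn := .pnn) (n1 := ndB1q2b) (n2 := ndB2q3) (pc := pcB1) (cut := cut_pm_213_b) (xt := Ext.none) (P1 := 1239849684) (W1 := 370763052) (P2 := 1610612736) (W2 := 536870912) (P3 := 587336777) (W3 := 62277027) (N0 := 3) (En := eng) (mo := mog) (C1 := cd1q2b) (C2 := cd2q3) (C3 := pd1)
    rfl k0_pm_213_b

noncomputable def f_pm_303 : ℕ → ℕ → ℕ → ℕ → Bool := onCell 1610612736 536870912 1610612736 536870912 587336777 62277027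
    (rowB 3 eng mog cd1q3 cd2q3 pd0 0 false true false .npn 3 0 3 (qsf 1610612736 536870912 1610612736 536870912 0) ndB1q3 ndB2q3 pcB0 Cut.none Ext.none)

def k0_pm_303 : ∃ t, chk3 f_pm_303 t 1 1 1 = true :=
  ⟨(l 3), by decide +kernel⟩

theorem c_pm_303 : CertB 1610612736 536870912 1610612736 536870912 587336777 62277027 3 eng mog cd1q3 cd2q3 pd0 false true false .npn 3 0 3
    ndB1q3 ndB2q3 pcB0 Cut.none Ext.none :=
  certB0 (fam := false) (s1 := true) (s2 := false) (a := 3) (b := 0) (c := 3) (cn := .npn) (n1 := ndB1q3) (n2 := ndB2q3) (pc := pcB0) (cut := Cut.none) (xt := Ext.none) (P1 := 1610612736) (W1 := 536870912) (P2 := 1610612736) (W2 := 536870912) (P3 := 587336777) (W3 := 62277027) (N0 := 3) (En := eng) (mo := mog) (C1 := cd1q3) (C2 := cd2q3) (C3 := pd0)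
    rfl k0_pm_303

noncomputable def f_pm_313 : ℕ → ℕ → ℕ → ℕ → Bool := onCell 1610612736 536870912 1610612736 536870912 587336777 62277027
    (rowB 3 eng mog cd1q3 cd2q3 pd1 0 false true false .dn 3 1 3 (qsf 1610612736 536870912 1610612736 536870912 1) ndB1q3 ndB2q3 pcB1 Cut.none Ext.none)

def k0_pm_313 : ∃ t, chk3 f_pm_313 t 1 1 1 = true :=
  ⟨(l 3), by decide +kernel⟩

theorem c_pm_313 : CertB 1610612736 536870912 1610612736 536870912 587336777 62277027 3 eng mog cd1q3 cd2q3 pd1 false true false .dn 3 1 3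
    ndB1q3 ndB2q3 pcB1 Cut.none Ext.none :=
  certB0 (fam := false) (s1 := true) (s2 := false) (a := 3) (b := 1) (c := 3) (cn := .dn) (n1 := ndB1q3) (n2 := ndB2q3) (pc := pcB1) (cut := Cut.none) (xt := Ext.none) (P1 := 1610612736) (W1 := 536870912) (P2 := 1610612736) (W2 := 536870912) (P3 := 587336777) (W3 := 62277027) (N0 := 3) (En := eng) (mo := mog) (C1 := cd1q3) (C2 := cd2q3) (C3 := pd1)
    rfl k0_pm_313

noncomputable def f_mm_001 : ℕ → ℕ → ℕ → ℕ → Bool := onCell 0 536870912 536870912 536870912 587336777 62277027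
    (rowB 3 eng mog cd1q0 cd2q1 pd0 0 false false false .up 0 0 1 (qsf 0 536870912 536870912 536870912 0) ndB1q0 ndB2q1 pcB0 Cut.none Ext.none)

def k0_mm_001 : ∃ t, chk3 f_mm_001 t 1 1 1 = true :=
  ⟨(l 3), by decide +kernel⟩

theorem c_mm_001 : CertB 0 536870912 536870912 536870912 587336777 62277027 3 eng mog cd1q0 cd2q1 pd0 false false false .up 0 0 1
    ndB1q0 ndB2q1 pcB0 Cut.none Ext.none :=
  certB0 (fam := false) (s1 := false) (s2 := false) (a := 0) (b := 0) (c := 1) (cn := .up) (n1 := ndB1q0) (n2 := ndB2q1) (pc := pcB0) (cut := Cut.none) (xt := Ext.none) (P1 := 0) (W1 := 536870912) (P2 := 536870912) (W2 := 536870912) (P3 := 587336777) (W3 := 62277027) (N0 := 3) (En := eng) (mo := mog) (C1 := cd1q0) (C2 := cd2q1) (C3 := pd0)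
    rfl k0_mm_001

noncomputable def f_mm_011 : ℕ → ℕ → ℕ → ℕ → Bool := onCell 0 536870912 536870912 536870912 587336777 62277027
    (rowB 3 eng mog cd1q0 cd2q1 pd1 0 false false false .pnn 0 1 1 (qsf 0 536870912 536870912 536870912 1) ndB1q0 ndB2q1 pcB1 Cut.none Ext.none)

def k0_mm_011 : ∃ t, chk3 f_mm_011 t 1 1 1 = true :=
  ⟨(l 3), by decide +kernel⟩

theorem c_mm_011 : CertB 0 536870912 536870912 536870912 587336777 62277027 3 eng mog cd1q0 cd2q1 pd1 false false false .pnn 0 1 1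
    ndB1q0 ndB2q1 pcB1 Cut.none Ext.none :=
  certB0 (fam := false) (s1 := false) (s2 := false) (a := 0) (b := 1) (c := 1) (cn := .pnn) (n1 := ndB1q0) (n2 := ndB2q1) (pc := pcB1) (cut := Cut.none) (xt := Ext.none) (P1 := 0) (W1 := 536870912) (P2 := 536870912) (W2 := 536870912) (P3 := 587336777) (W3 := 62277027) (N0 := 3) (En := eng) (mo := mog) (C1 := cd1q0) (C2 := cd2q1) (C3 := pd1)
    rfl k0_mm_011

noncomputable def f_mm_012_a : ℕ → ℕ → ℕ → ℕ → Bool := onCell 0 536870912 0 536870912 587336777 62277027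
    (rowB 3 eng mog cd1q0 cd2q2a pd1 0 false false false .pnp 0 1 2 (qsf 0 536870912 0 536870912 1) ndB1q0 ndB2q2a pcB1 Cut.none Ext.none)

def k0_mm_012_a : ∃ t, chk3 f_mm_012_a t 1 1 1 = true :=
  ⟨(l 5), by decide +kernel⟩

theorem c_mm_012_a : CertB 0 536870912 0 536870912 587336777 62277027 3 eng mog cd1q0 cd2q2a pd1 false false false .pnp 0 1 2
    ndB1q0 ndB2q2a pcB1 Cut.none Ext.none :=
  certB0 (fam := false) (s1 := false) (s2 := false) (a := 0) (b := 1) (c := 2) (cn := .pnp) (n1 := ndB1q0) (n2 := ndB2q2a) (pc := pcB1) (cut := Cut.none) (xt := Ext.none) (P1 := 0) (W1 := 536870912) (P2 := 0) (W2 := 536870912) (P3 := 587336777) (W3 := 62277027) (N0 := 3) (En := eng) (mo := mog) (C1 := cd1q0) (C2 := cd2q2a) (C3 := pd1)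
    rfl k0_mm_012_a

noncomputable def f_mm_012_b : ℕ → ℕ → ℕ → ℕ → Bool := onCell 0 536870912 1239849684 370763052 587336777 62277027
    (rowB 3 eng mog cd1q0 cd2q2b pd1 0 false false false .pnp 0 1 2 (qsf 0 536870912 1239849684 370763052 1) ndB1q0 ndB2q2b pcB1 Cut.none Ext.none)

def k0_mm_012_b : ∃ t, chk3 f_mm_012_b t 1 1 1 = true :=
  ⟨(l 5), by decide +kernel⟩

theorem c_mm_012_b : CertB 0 536870912 1239849684 370763052 587336777 62277027 3 eng mog cd1q0 cd2q2b pd1 false false false .pnp 0 1 2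
    ndB1q0 ndB2q2b pcB1 Cut.none Ext.none :=
  certB0 (fam := false) (s1 := false) (s2 := false) (a := 0) (b := 1) (c := 2) (cn := .pnp) (n1 := ndB1q0) (n2 := ndB2q2b) (pc := pcB1) (cut := Cut.none) (xt := Ext.none) (P1 := 0) (W1 := 536870912) (P2 := 1239849684) (W2 := 370763052) (P3 := 587336777) (W3 := 62277027) (N0 := 3) (En := eng) (mo := mog) (C1 := cd1q0) (C2 := cd2q2b) (C3 := pd1)
    rfl k0_mm_012_b

noncomputable def f_mm_022_a : ℕ → ℕ → ℕ → ℕ → Bool := onCell 0 536870912 0 536870912 587336777 62277027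
    (rowB 3 eng mog cd1q0 cd2q2a pd2 0 false false false .pp 0 2 2 (qsf 0 536870912 0 536870912 2) ndB1q0 ndB2q2a pcB2 Cut.none Ext.none)

def k0_mm_022_a : ∃ t, chk3 f_mm_022_a t 1 1 1 = true :=
  ⟨(l 5), by decide +kernel⟩

theorem c_mm_022_a : CertB 0 536870912 0 536870912 587336777 62277027 3 eng mog cd1q0 cd2q2a pd2 false false false .pp 0 2 2
    ndB1q0 ndB2q2a pcB2 Cut.none Ext.none :=
  certB0 (fam := false) (s1 := false) (s2 := false) (a := 0) (b := 2) (c := 2) (cn := .pp) (n1 := ndB1q0) (n2 := ndB2q2a) (pc := pcB2) (cut := Cut.none) (xt := Ext.none) (P1 := 0) (W1 := 536870912) (P2 := 0) (W2 := 536870912) (P3 := 587336777) (W3 := 62277027) (N0 := 3) (En := eng) (mo := mog) (C1 := cd1q0) (C2 := cd2q2a) (C3 := pd2)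
    rfl k0_mm_022_a

noncomputable def f_mm_022_b : ℕ → ℕ → ℕ → ℕ → Bool := onCell 0 536870912 1239849684 370763052 587336777 62277027
    (rowB 3 eng mog cd1q0 cd2q2b pd2 0 false false false .pp 0 2 2 (qsf 0 536870912 1239849684 370763052 2) ndB1q0 ndB2q2b pcB2 Cut.none Ext.none)

def k0_mm_022_b : ∃ t, chk3 f_mm_022_b t 1 1 1 = true :=
  ⟨(l 5), by decide +kernel⟩

theorem c_mm_022_b : CertB 0 536870912 1239849684 370763052 587336777 62277027 3 eng mog cd1q0 cd2q2b pd2 false false false .pp 0 2 2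
    ndB1q0 ndB2q2b pcB2 Cut.none Ext.none :=
  certB0 (fam := false) (s1 := false) (s2 := false) (a := 0) (b := 2) (c := 2) (cn := .pp) (n1 := ndB1q0) (n2 := ndB2q2b) (pc := pcB2) (cut := Cut.none) (xt := Ext.none) (P1 := 0) (W1 := 536870912) (P2 := 1239849684) (W2 := 370763052) (P3 := 587336777) (W3 := 62277027) (N0 := 3) (En := eng) (mo := mog) (C1 := cd1q0) (C2 := cd2q2b) (C3 := pd2)
    rfl k0_mm_022_b

noncomputable def f_mm_023 : ℕ → ℕ → ℕ → ℕ → Bool := onCell 0 536870912 1610612736 536870912 587336777 62277027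
    (rowB 3 eng mog cd1q0 cd2q3 pd2 0 false false false .up 0 2 3 (qsf 0 536870912 1610612736 536870912 2) ndB1q0 ndB2q3 pcB2 Cut.none Ext.none)

def k0_mm_023 : ∃ t, chk3 f_mm_023 t 1 1 1 = true :=
  ⟨(l 5), by decide +kernel⟩

theorem c_mm_023 : CertB 0 536870912 1610612736 536870912 587336777 62277027 3 eng mog cd1q0 cd2q3 pd2 false false false .up 0 2 3
    ndB1q0 ndB2q3 pcB2 Cut.none Ext.none :=
  certB0 (fam := false) (s1 := false) (s2 := false) (a := 0) (b := 2) (c := 3) (cn := .up) (n1 := ndB1q0) (n2 := ndB2q3) (pc := pcB2) (cut := Cut.none) (xt := Ext.none) (P1 := 0) (W1 := 536870912) (P2 := 1610612736) (W2 := 536870912) (P3 := 587336777) (W3 := 62277027) (N0 := 3) (En := eng) (mo := mog) (C1 := cd1q0) (C2 := cd2q3) (C3 := pd2)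
    rfl k0_mm_023

noncomputable def f_mm_033 : ℕ → ℕ → ℕ → ℕ → Bool := onCell 0 536870912 1610612736 536870912 587336777 62277027
    (rowB 3 eng mog cd1q0 cd2q3 pd3 0 false false false .pnn 0 3 3 (qsf 0 536870912 1610612736 536870912 3) ndB1q0 ndB2q3 pcB3 Cut.none Ext.none)

def k0_mm_033 : ∃ t, chk3 f_mm_033 t 1 1 1 = true :=
  ⟨(l 5), by decide +kernel⟩

theorem c_mm_033 : CertB 0 536870912 1610612736 536870912 587336777 62277027 3 eng mog cd1q0 cd2q3 pd3 false false false .pnn 0 3 3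
    ndB1q0 ndB2q3 pcB3 Cut.none Ext.none :=
  certB0 (fam := false) (s1 := false) (s2 := false) (a := 0) (b := 3) (c := 3) (cn := .pnn) (n1 := ndB1q0) (n2 := ndB2q3) (pc := pcB3) (cut := Cut.none) (xt := Ext.none) (P1 := 0) (W1 := 536870912) (P2 := 1610612736) (W2 := 536870912) (P3 := 587336777) (W3 := 62277027) (N0 := 3) (En := eng) (mo := mog) (C1 := cd1q0) (C2 := cd2q3) (C3 := pd3)
    rfl k0_mm_033

noncomputable def f_mm_101 : ℕ → ℕ → ℕ → ℕ → Bool := onCell 536870912 536870912 536870912 536870912 587336777 62277027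
    (rowB 3 eng mog cd1q1 cd2q1 pd0 0 false false false .npn 1 0 1 (qsf 536870912 536870912 536870912 536870912 0) ndB1q1 ndB2q1 pcB0 Cut.none Ext.none)

def k0_mm_101 : ∃ t, chk3 f_mm_101 t 1 1 1 = true :=
  ⟨(l 3), by decide +kernel⟩

theorem c_mm_101 : CertB 536870912 536870912 536870912 536870912 587336777 62277027 3 eng mog cd1q1 cd2q1 pd0 false false false .npn 1 0 1
    ndB1q1 ndB2q1 pcB0 Cut.none Ext.none :=
  certB0 (fam := false) (s1 := false) (s2 := false) (a := 1) (b := 0) (c := 1) (cn := .npn) (n1 := ndB1q1) (n2 := ndB2q1) (pc := pcB0) (cut := Cut.none) (xt := Ext.none) (P1 := 536870912) (W1 := 536870912) (P2 := 536870912) (W2 := 536870912) (P3 := 587336777) (W3 := 62277027) (N0 := 3) (En := eng) (mo := mog) (C1 := cd1q1) (C2 := cd2q1) (C3 := pd0)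
    rfl k0_mm_101

noncomputable def f_mm_102_a : ℕ → ℕ → ℕ → ℕ → Bool := onCell 536870912 536870912 0 536870912 587336777 62277027
    (rowB 3 eng mog cd1q1 cd2q2a pd0 0 false false false .npp 1 0 2 (qsf 536870912 536870912 0 536870912 0) ndB1q1 ndB2q2a pcB0 Cut.none Ext.none)

def k0_mm_102_a : ∃ t, chk3 f_mm_102_a t 1 1 1 = true :=
  ⟨(l 5), by decide +kernel⟩

theorem c_mm_102_a : CertB 536870912 536870912 0 536870912 587336777 62277027 3 eng mog cd1q1 cd2q2a pd0 false false false .npp 1 0 2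
    ndB1q1 ndB2q2a pcB0 Cut.none Ext.none :=
  certB0 (fam := false) (s1 := false) (s2 := false) (a := 1) (b := 0) (c := 2) (cn := .npp) (n1 := ndB1q1) (n2 := ndB2q2a) (pc := pcB0) (cut := Cut.none) (xt := Ext.none) (P1 := 536870912) (W1 := 536870912) (P2 := 0) (W2 := 536870912) (P3 := 587336777) (W3 := 62277027) (N0 := 3) (En := eng) (mo := mog) (C1 := cd1q1) (C2 := cd2q2a) (C3 := pd0)
    rfl k0_mm_102_a

noncomputable def f_mm_102_b : ℕ → ℕ → ℕ → ℕ → Bool := onCell 536870912 536870912 1239849684 370763052 587336777 62277027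
    (rowB 3 eng mog cd1q1 cd2q2b pd0 0 false false false .npp 1 0 2 (qsf 536870912 536870912 1239849684 370763052 0) ndB1q1 ndB2q2b pcB0 Cut.none Ext.none)

def k0_mm_102_b : ∃ t, chk3 f_mm_102_b t 1 1 1 = true :=
  ⟨(l 5), by decide +kernel⟩

theorem c_mm_102_b : CertB 536870912 536870912 1239849684 370763052 587336777 62277027 3 eng mog cd1q1 cd2q2b pd0 false false false .npp 1 0 2
    ndB1q1 ndB2q2b pcB0 Cut.none Ext.none :=
  certB0 (fam := false) (s1 := false) (s2 := false) (a := 1) (b := 0) (c := 2) (cn := .npp) (n1 := ndB1q1) (n2 := ndB2q2b) (pc := pcB0) (cut := Cut.none) (xt := Ext.none) (P1 := 536870912) (W1 := 536870912) (P2 := 1239849684) (W2 := 370763052) (P3 := 587336777) (W3 := 62277027) (N0 := 3) (En := eng) (mo := mog) (C1 := cd1q1) (C2 := cd2q2b) (C3 := pd0)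
    rfl k0_mm_102_b

noncomputable def f_mm_112_a : ℕ → ℕ → ℕ → ℕ → Bool := onCell 536870912 536870912 0 536870912 587336777 62277027
    (rowB 3 eng mog cd1q1 cd2q2a pd1 0 false false false .dn 1 1 2 (qsf 536870912 536870912 0 536870912 1) ndB1q1 ndB2q2a pcB1 Cut.none Ext.none)

def k0_mm_112_a : ∃ t, chk3 f_mm_112_a t 1 1 1 = true :=
  ⟨(l 5), by decide +kernel⟩

theorem c_mm_112_a : CertB 536870912 536870912 0 536870912 587336777 62277027 3 eng mog cd1q1 cd2q2a pd1 false false false .dn 1 1 2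
    ndB1q1 ndB2q2a pcB1 Cut.none Ext.none :=
  certB0 (fam := false) (s1 := false) (s2 := false) (a := 1) (b := 1) (c := 2) (cn := .dn) (n1 := ndB1q1) (n2 := ndB2q2a) (pc := pcB1) (cut := Cut.none) (xt := Ext.none) (P1 := 536870912) (W1 := 536870912) (P2 := 0) (W2 := 536870912) (P3 := 587336777) (W3 := 62277027) (N0 := 3) (En := eng) (mo := mog) (C1 := cd1q1) (C2 := cd2q2a) (C3 := pd1)
    rfl k0_mm_112_a

noncomputable def f_mm_112_b : ℕ → ℕ → ℕ → ℕ → Bool := onCell 536870912 536870912 1239849684 370763052 587336777 62277027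
    (rowB 3 eng mog cd1q1 cd2q2b pd1 0 false false false .dn 1 1 2 (qsf 536870912 536870912 1239849684 370763052 1) ndB1q1 ndB2q2b pcB1 Cut.none Ext.none)

def k0_mm_112_b : ∃ t, chk3 f_mm_112_b t 1 1 1 = true :=
  ⟨(l 5), by decide +kernel⟩

theorem c_mm_112_b : CertB 536870912 536870912 1239849684 370763052 587336777 62277027 3 eng mog cd1q1 cd2q2b pd1 false false false .dn 1 1 2
    ndB1q1 ndB2q2b pcB1 Cut.none Ext.none :=
  certB0 (fam := false) (s1 := false) (s2 := false) (a := 1) (b := 1) (c := 2) (cn := .dn) (n1 := ndB1q1) (n2 := ndB2q2b) (pc := pcB1) (cut := Cut.none) (xt := Ext.none) (P1 := 536870912) (W1 := 536870912) (P2 := 1239849684) (W2 := 370763052) (P3 := 587336777) (W3 := 62277027) (N0 := 3) (En := eng) (mo := mog) (C1 := cd1q1) (C2 := cd2q2b) (C3 := pd1)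
    rfl k0_mm_112_b

noncomputable def f_mm_113 : ℕ → ℕ → ℕ → ℕ → Bool := onCell 536870912 536870912 1610612736 536870912 587336777 62277027
    (rowB 3 eng mog cd1q1 cd2q3 pd1 0 false false false .nn 1 1 3 (qsf 536870912 536870912 1610612736 536870912 1) ndB1q1 ndB2q3 pcB1 Cut.none Ext.none)

def k0_mm_113 : ∃ t, chk3 f_mm_113 t 1 1 1 = true :=
  ⟨(l 5), by decide +kernel⟩

theorem c_mm_113 : CertB 536870912 536870912 1610612736 536870912 587336777 62277027 3 eng mog cd1q1 cd2q3 pd1 false false false .nn 1 1 3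
    ndB1q1 ndB2q3 pcB1 Cut.none Ext.none :=
  certB0 (fam := false) (s1 := false) (s2 := false) (a := 1) (b := 1) (c := 3) (cn := .nn) (n1 := ndB1q1) (n2 := ndB2q3) (pc := pcB1) (cut := Cut.none) (xt := Ext.none) (P1 := 536870912) (W1 := 536870912) (P2 := 1610612736) (W2 := 536870912) (P3 := 587336777) (W3 := 62277027) (N0 := 3) (En := eng) (mo := mog) (C1 := cd1q1) (C2 := cd2q3) (C3 := pd1)
    rfl k0_mm_113

noncomputable def f_mm_123 : ℕ → ℕ → ℕ → ℕ → Bool := onCell 536870912 536870912 1610612736 536870912 587336777 62277027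
    (rowB 3 eng mog cd1q1 cd2q3 pd2 0 false false false .npn 1 2 3 (qsf 536870912 536870912 1610612736 536870912 2) ndB1q1 ndB2q3 pcB2 Cut.none Ext.none)

def k0_mm_123 : ∃ t, chk3 f_mm_123 t 1 1 1 = true :=
  ⟨(l 5), by decide +kernel⟩

theorem c_mm_123 : CertB 536870912 536870912 1610612736 536870912 587336777 62277027 3 eng mog cd1q1 cd2q3 pd2 false false false .npn 1 2 3
    ndB1q1 ndB2q3 pcB2 Cut.none Ext.none :=
  certB0 (fam := false) (s1 := false) (s2 := false) (a := 1) (b := 2) (c := 3) (cn := .npn) (n1 := ndB1q1) (n2 := ndB2q3) (pc := pcB2) (cut := Cut.none) (xt := Ext.none) (P1 := 536870912) (W1 := 536870912) (P2 := 1610612736) (W2 := 536870912) (P3 := 587336777) (W3 := 62277027) (N0 := 3) (En := eng) (mo := mog) (C1 := cd1q1) (C2 := cd2q3) (C3 := pd2)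
    rfl k0_mm_123

noncomputable def f_mm_133 : ℕ → ℕ → ℕ → ℕ → Bool := onCell 536870912 536870912 1610612736 536870912 587336777 62277027
    (rowB 3 eng mog cd1q1 cd2q3 pd3 0 false false false .dn 1 3 3 (qsf 536870912 536870912 1610612736 536870912 3) ndB1q1 ndB2q3 pcB3 Cut.none Ext.none)

def k0_mm_133 : ∃ t, chk3 f_mm_133 t 1 1 1 = true :=
  ⟨(l 5), by decide +kernel⟩

theorem c_mm_133 : CertB 536870912 536870912 1610612736 536870912 587336777 62277027 3 eng mog cd1q1 cd2q3 pd3 false false false .dn 1 3 3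
    ndB1q1 ndB2q3 pcB3 Cut.none Ext.none :=
  certB0 (fam := false) (s1 := false) (s2 := false) (a := 1) (b := 3) (c := 3) (cn := .dn) (n1 := ndB1q1) (n2 := ndB2q3) (pc := pcB3) (cut := Cut.none) (xt := Ext.none) (P1 := 536870912) (W1 := 536870912) (P2 := 1610612736) (W2 := 536870912) (P3 := 587336777) (W3 := 62277027) (N0 := 3) (En := eng) (mo := mog) (C1 := cd1q1) (C2 := cd2q3) (C3 := pd3)
    rfl k0_mm_133

noncomputable def f_mm_202_aa : ℕ → ℕ → ℕ → ℕ → Bool := onCell 0 536870912 0 536870912 587336777 62277027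
    (rowB 3 eng mog cd1q2a cd2q2a pd0 0 false false false .pp 2 0 2 (qsf 0 536870912 0 536870912 0) ndB1q2a ndB2q2a pcB0 Cut.none Ext.none)

def k0_mm_202_aa : ∃ t, chk3 f_mm_202_aa t 1 1 1 = true :=
  ⟨(l 3), by decide +kernel⟩

theorem c_mm_202_aa : CertB 0 536870912 0 536870912 587336777 62277027 3 eng mog cd1q2a cd2q2a pd0 false false false .pp 2 0 2
    ndB1q2a ndB2q2a pcB0 Cut.none Ext.none :=
  certB0 (fam := false) (s1 := false) (s2 := false) (a := 2) (b := 0) (c := 2) (cn := .pp) (n1 := ndB1q2a) (n2 := ndB2q2a) (pc := pcB0) (cut := Cut.none) (xt := Ext.none) (P1 := 0) (W1 := 536870912) (P2 := 0) (W2 := 536870912) (P3 := 587336777) (W3 := 62277027) (N0 := 3) (En := eng) (mo := mog) (C1 := cd1q2a) (C2 := cd2q2a) (C3 := pd0)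
    rfl k0_mm_202_aa

noncomputable def f_mm_202_ab : ℕ → ℕ → ℕ → ℕ → Bool := onCell 0 536870912 1239849684 370763052 587336777 62277027
    (rowB 3 eng mog cd1q2a cd2q2b pd0 0 false false false .pp 2 0 2 (qsf 0 536870912 1239849684 370763052 0) ndB1q2a ndB2q2b pcB0 Cut.none Ext.none)

def k0_mm_202_ab : ∃ t, chk3 f_mm_202_ab t 1 1 1 = true :=
  ⟨(l 3), by decide +kernel⟩

theorem c_mm_202_ab : CertB 0 536870912 1239849684 370763052 587336777 62277027 3 eng mog cd1q2a cd2q2b pd0 false false false .pp 2 0 2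
    ndB1q2a ndB2q2b pcB0 Cut.none Ext.none :=
  certB0 (fam := false) (s1 := false) (s2 := false) (a := 2) (b := 0) (c := 2) (cn := .pp) (n1 := ndB1q2a) (n2 := ndB2q2b) (pc := pcB0) (cut := Cut.none) (xt := Ext.none) (P1 := 0) (W1 := 536870912) (P2 := 1239849684) (W2 := 370763052) (P3 := 587336777) (W3 := 62277027) (N0 := 3) (En := eng) (mo := mog) (C1 := cd1q2a) (C2 := cd2q2b) (C3 := pd0)
    rfl k0_mm_202_ab

noncomputable def f_mm_202_ba : ℕ → ℕ → ℕ → ℕ → Bool := onCell 1239849684 370763052 0 536870912 587336777 62277027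
    (rowB 3 eng mog cd1q2b cd2q2a pd0 0 false false false .pp 2 0 2 (qsf 1239849684 370763052 0 536870912 0) ndB1q2b ndB2q2a pcB0 Cut.none Ext.none)

def k0_mm_202_ba : ∃ t, chk3 f_mm_202_ba t 1 1 1 = true :=
  ⟨(l 3), by decide +kernel⟩

theorem c_mm_202_ba : CertB 1239849684 370763052 0 536870912 587336777 62277027 3 eng mog cd1q2b cd2q2a pd0 false false false .pp 2 0 2
    ndB1q2b ndB2q2a pcB0 Cut.none Ext.none :=
  certB0 (fam := false) (s1 := false) (s2 := false) (a := 2) (b := 0) (c := 2) (cn := .pp) (n1 := ndB1q2b) (n2 := ndB2q2a) (pc := pcB0) (cut := Cut.none) (xt := Ext.none) (P1 := 1239849684) (W1 := 370763052) (P2 := 0) (W2 := 536870912) (P3 := 587336777) (W3 := 62277027) (N0 := 3) (En := eng) (mo := mog) (C1 := cd1q2b) (C2 := cd2q2a) (C3 := pd0)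
    rfl k0_mm_202_ba

noncomputable def f_mm_202_bb : ℕ → ℕ → ℕ → ℕ → Bool := onCell 1239849684 370763052 1239849684 370763052 587336777 62277027
    (rowB 3 eng mog cd1q2b cd2q2b pd0 0 false false false .pp 2 0 2 (qsf 1239849684 370763052 1239849684 370763052 0) ndB1q2b ndB2q2b pcB0 Cut.none Ext.none)

def k0_mm_202_bb : ∃ t, chk3 f_mm_202_bb t 1 1 1 = true :=
  ⟨(l 3), by decide +kernel⟩

theorem c_mm_202_bb : CertB 1239849684 370763052 1239849684 370763052 587336777 62277027 3 eng mog cd1q2b cd2q2b pd0 false false false .pp 2 0 2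
    ndB1q2b ndB2q2b pcB0 Cut.none Ext.none :=
  certB0 (fam := false) (s1 := false) (s2 := false) (a := 2) (b := 0) (c := 2) (cn := .pp) (n1 := ndB1q2b) (n2 := ndB2q2b) (pc := pcB0) (cut := Cut.none) (xt := Ext.none) (P1 := 1239849684) (W1 := 370763052) (P2 := 1239849684) (W2 := 370763052) (P3 := 587336777) (W3 := 62277027) (N0 := 3) (En := eng) (mo := mog) (C1 := cd1q2b) (C2 := cd2q2b) (C3 := pd0)
    rfl k0_mm_202_bb

noncomputable def f_mm_203_a : ℕ → ℕ → ℕ → ℕ → Bool := onCell 0 536870912 0 536870912 587336777 62277027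
    (rowB 3 eng mog cd1q2a cd2q3 pd0 1 false false false .up 2 0 3 (qsf 0 536870912 1610612736 536870912 0) ndB1q2a ndB2q3 pcB0 Cut.none Ext.none)

def k0_mm_203_a : ∃ t, chk3 f_mm_203_a t 1 1 1 = true :=
  ⟨(l 3), by decide +kernel⟩

theorem c_mm_203_a : CertB 0 536870912 1610612736 536870912 587336777 62277027 3 eng mog cd1q2a cd2q3 pd0 false false false .up 2 0 3
    ndB1q2a ndB2q3 pcB0 Cut.none Ext.none :=
  certB1 (fam := false) (s1 := false) (s2 := false) (a := 2) (b := 0) (c := 3) (cn := .up) (n1 := ndB1q2a) (n2 := ndB2q3) (pc := pcB0) (cut := Cut.none) (xt := Ext.none) (P1 := 0) (W1 := 536870912) (P2 := 1610612736) (W2 := 536870912) (P3 := 587336777) (W3 := 62277027) (N0 := 3) (En := eng) (mo := mog) (C1 := cd1q2a) (C2 := cd2q3) (C3 := pd0)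
    rfl (fun _ => rfl) k0_mm_203_a

noncomputable def f_mm_203_b : ℕ → ℕ → ℕ → ℕ → Bool := onCell 1239849684 370763052 1610612736 536870912 587336777 62277027
    (rowB 3 eng mog cd1q2b cd2q3 pd0 0 false false false .up 2 0 3 (qsf 1239849684 370763052 1610612736 536870912 0) ndB1q2b ndB2q3 pcB0 Cut.none Ext.none)

def k0_mm_203_b : ∃ t, chk3 f_mm_203_b t 1 1 1 = true :=
  ⟨(l 3), by decide +kernel⟩

theorem c_mm_203_b : CertB 1239849684 370763052 1610612736 536870912 587336777 62277027 3 eng mog cd1q2b cd2q3 pd0 false false false .up 2 0 3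
    ndB1q2b ndB2q3 pcB0 Cut.none Ext.none :=
  certB0 (fam := false) (s1 := false) (s2 := false) (a := 2) (b := 0) (c := 3) (cn := .up) (n1 := ndB1q2b) (n2 := ndB2q3) (pc := pcB0) (cut := Cut.none) (xt := Ext.none) (P1 := 1239849684) (W1 := 370763052) (P2 := 1610612736) (W2 := 536870912) (P3 := 587336777) (W3 := 62277027) (N0 := 3) (En := eng) (mo := mog) (C1 := cd1q2b) (C2 := cd2q3) (C3 := pd0)
    rfl k0_mm_203_b

noncomputable def f_mm_213_a : ℕ → ℕ → ℕ → ℕ → Bool := onCell 0 536870912 1610612736 536870912 587336777 62277027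
    (rowB 3 eng mog cd1q2a cd2q3 pd1 0 false false false .pnn 2 1 3 (qsf 0 536870912 1610612736 536870912 1) ndB1q2a ndB2q3 pcB1 Cut.none Ext.none)

def k0_mm_213_a : ∃ t, chk3 f_mm_213_a t 1 1 1 = true :=
  ⟨(a (l 3) (l 5)), by decide +kernel⟩

theorem c_mm_213_a : CertB 0 536870912 1610612736 536870912 587336777 62277027 3 eng mog cd1q2a cd2q3 pd1 false false false .pnn 2 1 3
    ndB1q2a ndB2q3 pcB1 Cut.none Ext.none :=
  certB0 (fam := false) (s1 := false) (s2 := false) (a := 2) (b := 1) (c := 3) (cn := .pnn) (n1 := ndB1q2a) (n2 := ndB2q3) (pc := pcB1) (cut := Cut.none) (xt := Ext.none) (P1 := 0) (W1 := 536870912) (P2 := 1610612736) (W2 := 536870912) (P3 := 587336777) (W3 := 62277027) (N0 := 3) (En := eng) (mo := mog) (C1 := cd1q2a) (C2 := cd2q3) (C3 := pd1)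
    rfl k0_mm_213_a

noncomputable def f_mm_213_b : ℕ → ℕ → ℕ → ℕ → Bool := onCell 1239849684 370763052 1610612736 536870912 587336777 62277027
    (rowB 3 eng mog cd1q2b cd2q3 pd1 0 false false false .pnn 2 1 3 (qsf 1239849684 370763052 1610612736 536870912 1) ndB1q2b ndB2q3 pcB1 Cut.none Ext.none)

def k0_mm_213_b : ∃ t, chk3 f_mm_213_b t 1 1 1 = true :=
  ⟨(l 3), by decide +kernel⟩

theorem c_mm_213_b : CertB 1239849684 370763052 1610612736 536870912 587336777 62277027 3 eng mog cd1q2b cd2q3 pd1 false false false .pnn 2 1 3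
    ndB1q2b ndB2q3 pcB1 Cut.none Ext.none :=
  certB0 (fam := false) (s1 := false) (s2 := false) (a := 2) (b := 1) (c := 3) (cn := .pnn) (n1 := ndB1q2b) (n2 := ndB2q3) (pc := pcB1) (cut := Cut.none) (xt := Ext.none) (P1 := 1239849684) (W1 := 370763052) (P2 := 1610612736) (W2 := 536870912) (P3 := 587336777) (W3 := 62277027) (N0 := 3) (En := eng) (mo := mog) (C1 := cd1q2b) (C2 := cd2q3) (C3 := pd1)
    rfl k0_mm_213_b

noncomputable def f_mm_303 : ℕ → ℕ → ℕ → ℕ → Bool := onCell 1610612736 536870912 1610612736 536870912 587336777 62277027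
    (rowB 3 eng mog cd1q3 cd2q3 pd0 0 false false false .npn 3 0 3 (qsf 1610612736 536870912 1610612736 536870912 0) ndB1q3 ndB2q3 pcB0 Cut.none Ext.none)

def k0_mm_303 : ∃ t, chk3 f_mm_303 t 1 1 1 = true :=
  ⟨(l 3), by decide +kernel⟩

theorem c_mm_303 : CertB 1610612736 536870912 1610612736 536870912 587336777 62277027 3 eng mog cd1q3 cd2q3 pd0 false false false .npn 3 0 3
    ndB1q3 ndB2q3 pcB0 Cut.none Ext.none :=
  certB0 (fam := false) (s1 := false) (s2 := false) (a := 3) (b := 0) (c := 3) (cn := .npn) (n1 := ndB1q3) (n2 := ndB2q3) (pc := pcB0) (cut := Cut.none) (xt := Ext.none) (P1 := 1610612736) (W1 := 536870912) (P2 := 1610612736) (W2 := 536870912) (P3 := 587336777) (W3 := 62277027) (N0 := 3) (En := eng) (mo := mog) (C1 := cd1q3) (C2 := cd2q3) (C3 := pd0)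
    rfl k0_mm_303

noncomputable def f_mm_313 : ℕ → ℕ → ℕ → ℕ → Bool := onCell 1610612736 536870912 1610612736 536870912 587336777 62277027
    (rowB 3 eng mog cd1q3 cd2q3 pd1 0 false false false .dn 3 1 3 (qsf 1610612736 536870912 1610612736 536870912 1) ndB1q3 ndB2q3 pcB1 Cut.none Ext.none)

def k0_mm_313 : ∃ t, chk3 f_mm_313 t 1 1 1 = true :=
  ⟨(l 3), by decide +kernel⟩

theorem c_mm_313 : CertB 1610612736 536870912 1610612736 536870912 587336777 62277027 3 eng mog cd1q3 cd2q3 pd1 false false false .dn 3 1 3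
    ndB1q3 ndB2q3 pcB1 Cut.none Ext.none :=
  certB0 (fam := false) (s1 := false) (s2 := false) (a := 3) (b := 1) (c := 3) (cn := .dn) (n1 := ndB1q3) (n2 := ndB2q3) (pc := pcB1) (cut := Cut.none) (xt := Ext.none) (P1 := 1610612736) (W1 := 536870912) (P2 := 1610612736) (W2 := 536870912) (P3 := 587336777) (W3 := 62277027) (N0 := 3) (En := eng) (mo := mog) (C1 := cd1q3) (C2 := cd2q3) (C3 := pd1)
    rfl k0_mm_313

end Pool.Agent.Strip051.G.I5470_6050.Tab.C.BB12

namespace Pool.Agent.Strip051.G.I5470_6050.Tab.C.BB13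

open Pool.Agent.Strip051.PB Pool.Agent.Strip051.PB.T
open Pool.Agent.Strip051.G.I5470_6050.Tab

noncomputable def f_pp_001 : ℕ → ℕ → ℕ → ℕ → Bool := onCell 0 536870912 536870912 536870912 587336777 62277027
    (rowB 3 eng mog cd1q0 cd3q1 pd0 0 false true true .up 0 0 1 (qsf 0 536870912 536870912 536870912 0) ndB1q0 ndB3q1 pcB0 Cut.none Ext.none)

def k0_pp_001 : ∃ t, chk3 f_pp_001 t 1 1 1 = true :=
  ⟨(l 3), by decide +kernel⟩

theorem c_pp_001 : CertB 0 536870912 536870912 536870912 587336777 62277027 3 eng mog cd1q0 cd3q1 pd0 false true true .up 0 0 1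
    ndB1q0 ndB3q1 pcB0 Cut.none Ext.none :=
  certB0 (fam := false) (s1 := true) (s2 := true) (a := 0) (b := 0) (c := 1) (cn := .up) (n1 := ndB1q0) (n2 := ndB3q1) (pc := pcB0) (cut := Cut.none) (xt := Ext.none) (P1 := 0) (W1 := 536870912) (P2 := 536870912) (W2 := 536870912) (P3 := 587336777) (W3 := 62277027) (N0 := 3) (En := eng) (mo := mog) (C1 := cd1q0) (C2 := cd3q1) (C3 := pd0)
    rfl k0_pp_001

noncomputable def f_pp_011 : ℕ → ℕ → ℕ → ℕ → Bool := onCell 0 536870912 536870912 536870912 587336777 62277027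
    (rowB 3 eng mog cd1q0 cd3q1 pd1 0 false true true .pnn 0 1 1 (qsf 0 536870912 536870912 536870912 1) ndB1q0 ndB3q1 pcB1 Cut.none Ext.none)

def k0_pp_011 : ∃ t, chk3 f_pp_011 t 1 1 1 = true :=
  ⟨(l 3), by decide +kernel⟩

theorem c_pp_011 : CertB 0 536870912 536870912 536870912 587336777 62277027 3 eng mog cd1q0 cd3q1 pd1 false true true .pnn 0 1 1
    ndB1q0 ndB3q1 pcB1 Cut.none Ext.none :=
  certB0 (fam := false) (s1 := true) (s2 := true) (a := 0) (b := 1) (c := 1) (cn := .pnn) (n1 := ndB1q0) (n2 := ndB3q1) (pc := pcB1) (cut := Cut.none) (xt := Ext.none) (P1 := 0) (W1 := 536870912) (P2 := 536870912) (W2 := 536870912) (P3 := 587336777) (W3 := 62277027) (N0 := 3) (En := eng) (mo := mog) (C1 := cd1q0) (C2 := cd3q1) (C3 := pd1)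
    rfl k0_pp_011

noncomputable def cut_pp_012_a : Cut := Cut.of [[⟨0, 0, 0, 67108864⟩, ⟨1, 1, 0, 67108864⟩, ⟨2, 1, 0, 67108864⟩]]

noncomputable def f_pp_012_a : ℕ → ℕ → ℕ → ℕ → Bool := onCell 536870912 536870912 0 536870912 587336777 62277027
    (rowB 3 eng mog cd1q0 cd3q2a pd1 2 false true true .pnp 0 1 2 (qsf 0 536870912 0 536870912 1) ndB1q0 ndB3q2a pcB1 cut_pp_012_a Ext.none)

def k0_pp_012_a : ∃ t, chk3 f_pp_012_a t 2 1 1 = true :=
  ⟨(a (l 3) (b (a (l 3) (b (a (l 3) (a (l 3) (b (b (l 95193908887) (l 3)) (l 3)))) (l 3))) (l 3))), by decide +kernel⟩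

def k1_pp_012_a : ∃ t, chk3 f_pp_012_a t 6 1 1 = true :=
  ⟨(b (a (b (a (b (a (b (a (l 16765640) (l 16760088)) (l 78014033783)) (b (l 16750208) (a (l 16764512) (l 16758816)))) (l 3)) (a (b (l 16792328) (b (l 16781160) (l 3))) (b (b (l 16721808) (l 16734192)) (b (l 16746808) (l 16779512))))) (l 3)) (b (a (b (a (b (l 16706880) (l 16718864)) (l 16697544)) (a (l 16759112) (l 16743320))) (b (a (l 16682000) (l 16666552)) (a (l 16727208) (l 16690136)))) (b (a (b (a (l 16756792) (l 16742256)) (a (l 3) (l 16755072))) (a (b (l 16726152) (l 16739984)) (b (l 16709696) (l 16723584)))) (a (l 3) (a (b (l 16774504) (l 3)) (b (l 16758944) (l 29158818615))))))) (l 3)), by decide +kernel⟩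

def k2_pp_012_a : ∃ t, chk3 f_pp_012_a t 7 2 1 = true :=
  ⟨(a (b (a (b (a (l 16651264) (l 16636264)) (a (l 16673952) (l 16657952))) (b (a (l 16621728) (l 16607824)) (a (l 16642336) (l 16627296)))) (a (b (a (b (l 16693192) (l 16706944)) (l 16704512)) (a (b (l 16721376) (l 16767880)) (b (l 16704656) (l 16719720)))) (a (b (l 16667192) (b (l 16688160) (l 16703136))) (b (l 16651328) (a (l 16725496) (l 16717544)))))) (b (b (a (l 16615032) (l 16567480)) (a (a (l 16613080) (l 16600144)) (l 16603824))) (a (b (b (l 16622944) (l 16635504)) (b (l 16691104) (a (l 16671464) (l 16656360)))) (b (l 16624088) (a (l 16635144) (l 16621968)))))), by decide +kernel⟩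

def k3_pp_012_a : ∃ t, chk3 f_pp_012_a t 7 3 1 = true :=
  ⟨(a (b (a (b (a (b (l 28621928983) (l 3)) (b (a (l 16739696) (l 16731392)) (a (l 16777184) (l 16748128)))) (l 3)) (b (a (b (l 16740008) (a (l 16739904) (l 16731752))) (b (l 16702936) (l 16719632))) (b (a (a (l 44728063591) (l 16770304)) (a (l 16741176) (l 16733136))) (a (l 3) (a (l 30232541959) (b (l 16746848) (l 16756504))))))) (l 3)) (b (a (b (a (b (l 16687272) (l 16703760)) (b (l 16671824) (a (l 16692184) (l 16684480)))) (a (a (b (l 16725168) (l 16764672)) (b (l 16717288) (l 16735824))) (b (a (l 16709520) (l 16701880)) (a (l 16749040) (l 16720440))))) (b (a (l 16681016) (l 16672472)) (a (b (l 16711736) (l 16730040)) (b (l 16697136) (a (l 16697720) (l 16689792)))))) (a (b (b (a (a (b (l 16758480) (l 3)) (b (l 16750472) (l 16760936))) (a (l 16763616) (l 16755800))) (a (l 3) (b (a (l 16773952) (l 16755032)) (a (l 3) (a (l 16767656) (l 16763320)))))) (l 3)) (b (a (b (a (l 16753112) (l 16724088))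 (a (b (l 16746824) (l 16762272)) (b (l 16759624) (b (l 16746216) (l 16751344))))) (b (a (l 16716032) (l 16713264)) (a (a (l 16742872) (l 16738768)) (b (l 16722304) (l 6))))) (a (b (b (a (a (l 16777720) (l 16773368)) (l 6)) (l 6)) (l 3)) (l 6)))))), by decide +kernel⟩

theorem s4_pp_012_a : ∃ t, chk3 f_pp_012_a t 7 1 1 = true := ex3_b k2_pp_012_a k3_pp_012_a

theorem s5_pp_012_a : ∃ t, chk3 f_pp_012_a t 3 1 1 = true := ex3_a k1_pp_012_a s4_pp_012_a

theorem s6_pp_012_a : ∃ t, chk3 f_pp_012_a t 1 1 1 = true := ex3_a k0_pp_012_a s5_pp_012_a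

theorem c_pp_012_a : CertB 0 536870912 0 536870912 587336777 62277027 3 eng mog cd1q0 cd3q2a pd1 false true true .pnp 0 1 2
    ndB1q0 ndB3q2a pcB1 cut_pp_012_a Ext.none :=
  certB2 (fam := false) (s1 := true) (s2 := true) (a := 0) (b := 1) (c := 2) (cn := .pnp) (n1 := ndB1q0) (n2 := ndB3q2a) (pc := pcB1) (cut := cut_pp_012_a) (xt := Ext.none) (P1 := 0) (W1 := 536870912) (P2 := 0) (W2 := 536870912) (P3 := 587336777) (W3 := 62277027) (N0 := 3) (En := eng) (mo := mog) (C1 := cd1q0) (C2 := cd3q2a) (C3 := pd1)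
    rfl (fun _ => rfl) s6_pp_012_a

noncomputable def cut_pp_012_b : Cut := Cut.of [[⟨0, 0, 0, 67108864⟩, ⟨1, 1, 0, 67108864⟩, ⟨2, 1, 0, 67108864⟩]]

noncomputable def f_pp_012_b : ℕ → ℕ → ℕ → ℕ → Bool := onCell 536870912 536870912 1239849684 370763052 587336777 62277027
    (rowB 3 eng mog cd1q0 cd3q2b pd1 2 false true true .pnp 0 1 2 (qsf 0 536870912 1239849684 370763052 1) ndB1q0 ndB3q2b pcB1 cut_pp_012_b Ext.none)

def k0_pp_012_b : ∃ t, chk3 f_pp_012_b t 1 1 1 = true :=
  ⟨(a (a (l 2) (a (l 3) (b (b (a (l 3) (a (l 3) (b (b (l 74255957639) (l 3)) (l 3)))) (l 3)) (l 2)))) (a (b (a (b (a (b (a (b (l 16751504) (l 16741080)) (b (l 16737792) (l 16726672))) (a (l 16728056) (l 16713024))) (b (a (l 16738416) (l 16723328)) (a (l 16696888) (l 16680424)))) (a (b (a (l 16715712) (l 16700384)) (l 2)) (b (l 16694904) (l 16666376)))) (b (a (b (a (l 16686560) (l 16670384)) (l 16675224)) (b (b (l 16654552) (l 16638296)) (l 16617856))) (a (b (l 16636584) (l 16626112))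 (b (l 16597456) (l 16584352))))) (a (l 2) (b (a (b (l 16623208) (l 2)) (l 16579504)) (l 2)))) (b (a (b (a (b (b (l 16623832) (l 16605128)) (l 16581240)) (b (a (l 16591016) (l 16576216)) (l 16545272))) (b (a (l 16557320) (l 16516680)) (l 16582696))) (b (b (a (a (l 16562160) (l 16548944)) (l 16594088)) (a (l 16511016) (l 16479128))) (a (b (l 16476952) (l 16453616)) (l 16548560)))) (a (b (a (l 16532592) (l 16484984)) (a (l 2) (l 16497728))) (b (a (l 16436544) (l 16386464)) (a (l 16444392) (l 16389360))))))), by decide +kernel⟩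

theorem c_pp_012_b : CertB 0 536870912 1239849684 370763052 587336777 62277027 3 eng mog cd1q0 cd3q2b pd1 false true true .pnp 0 1 2
    ndB1q0 ndB3q2b pcB1 cut_pp_012_b Ext.none :=
  certB2 (fam := false) (s1 := true) (s2 := true) (a := 0) (b := 1) (c := 2) (cn := .pnp) (n1 := ndB1q0) (n2 := ndB3q2b) (pc := pcB1) (cut := cut_pp_012_b) (xt := Ext.none) (P1 := 0) (W1 := 536870912) (P2 := 1239849684) (W2 := 370763052) (P3 := 587336777) (W3 := 62277027) (N0 := 3) (En := eng) (mo := mog) (C1 := cd1q0) (C2 := cd3q2b) (C3 := pd1)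
    rfl (fun _ => rfl) k0_pp_012_b

noncomputable def cut_pp_022_a : Cut := Cut.of [[⟨0, 0, 0, 67108864⟩, ⟨1, 1, 0, 67108864⟩, ⟨2, 1, 0, 67108864⟩]]

noncomputable def f_pp_022_a : ℕ → ℕ → ℕ → ℕ → Bool := onCell 1073741824 536870912 0 536870912 587336777 62277027
    (rowB 3 eng mog cd1q0 cd3q2a pd2 2 false true true .pp 0 2 2 (qsf 0 536870912 0 536870912 2) ndB1q0 ndB3q2a pcB2 cut_pp_022_a Ext.none)

def k0_pp_022_a : ∃ t, chk3 f_pp_022_a t 2 2 1 = true :=
  ⟨(a (a (b (b (a (l 16541864) (l 16524704)) (a (l 16556392) (l 16537624))) (a (b (l 16639416) (b (l 16594488) (l 16629040))) (b (a (l 16581864) (l 16549816)) (a (l 16646784) (l 16571648))))) (b (a (b (l 16505600) (l 16516760)) (b (l 16506632) (a (l 16500200) (l 16488616)))) (b (a (a (l 16538432) (l 16526456)) (a (l 16513904) (b (l 16497224) (l 16504088)))) (a (a (l 16558704) (l 16545048)) (a (b (l 16526048) (l 16535024)) (b (l 16511536) (l 61236333127))))))) (a (a (a (b (b (l 16469784) (l 16476616))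 (b (b (l 16484016) (l 16489944)) (b (l 44056418279) (l 28487187943)))) (b (a (b (l 16461584) (l 16467328)) (a (b (l 16457424) (l 16462600)) (b (b (l 16453872) (a (l 16455904) (l 1))) (a (l 16460216) (l 1))))) (a (b (b (l 16473752) (l 16478920)) (l 1)) (l 1)))) (b (b (l 1) (l 1)) (l 1))) (l 1))), by decide +kernel⟩

def k1_pp_022_a : ∃ t, chk3 f_pp_022_a t 2 3 1 = true :=
  ⟨(a (a (b (a (b (b (l 16664680) (l 16698792)) (a (b (l 16660704) (a (l 16680632) (l 16675872))) (b (l 16648200) (l 16665184)))) (b (a (b (l 16603672) (l 16618112)) (b (l 16590080) (l 16603400))) (a (b (l 16633200) (a (l 16652976) (l 16644504))) (b (l 16617208) (b (l 16627736) (l 16634776)))))) (a (b (b (b (a (l 16713032) (l 16678112)) (b (a (l 16699136) (l 16684696)) (l 6))) (l 6)) (l 6)) (b (b (a (b (l 16681488) (a (l 16673176) (l 16663648))) (b (a (l 16646592) (l 16636984)) (a (b (l 16652040) (l 6)) (b (l 79490198167) (l 32245566647))))) (a (l 6) (a (l 6) (a (l 6) (l 1))))) (a (l 6)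 (l 1))))) (b (b (a (b (a (l 16575656) (l 16560424)) (a (l 16587800) (b (l 16568528) (l 16574040)))) (a (b (c (l 16549656) (l 16538488)) (a (l 16558400) (l 16549496))) (b (a (l 16531824) (l 16523168)) (l 1)))) (a (b (a (b (l 16597064) (l 16603352)) (a (l 79490081623) (l 61773331271))) (a (b (a (l 16614272) (l 16604984)) (a (l 16620696) (l 16621480))) (b (a (l 16595456) (l 1)) (l 1)))) (b (a (b (l 16561088) (l 1)) (l 1)) (l 1)))) (b (b (a (a (b (a (l 54794109495) (l 16616944)) (a (l 16654400) (l 1))) (l 1)) (l 1)) (l 1)) (l 1)))) (b (l 1) (l 1))), by decide +kernel⟩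

def k2_pp_022_a : ∃ t, chk3 f_pp_022_a t 3 1 1 = true :=
  ⟨(l 1), by decide +kernel⟩

theorem s3_pp_022_a : ∃ t, chk3 f_pp_022_a t 2 1 1 = true := ex3_b k0_pp_022_a k1_pp_022_a

theorem s4_pp_022_a : ∃ t, chk3 f_pp_022_a t 1 1 1 = true := ex3_a s3_pp_022_a k2_pp_022_a

theorem c_pp_022_a : CertB 0 536870912 0 536870912 587336777 62277027 3 eng mog cd1q0 cd3q2a pd2 false true true .pp 0 2 2
    ndB1q0 ndB3q2a pcB2 cut_pp_022_a Ext.none :=
  certB2 (fam := false) (s1 := true) (s2 := true) (a := 0) (b := 2) (c := 2) (cn := .pp) (n1 := ndB1q0) (n2 := ndB3q2a) (pc := pcB2) (cut := cut_pp_022_a) (xt := Ext.none) (P1 := 0) (W1 := 536870912) (P2 := 0) (W2 := 536870912) (P3 := 587336777) (W3 := 62277027) (N0 := 3) (En := eng) (mo := mog) (C1 := cd1q0) (C2 := cd3q2a) (C3 := pd2)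
    rfl (fun _ => rfl) s4_pp_022_a

noncomputable def cut_pp_022_b : Cut := Cut.of [[⟨0, 0, 0, 67108864⟩, ⟨1, 1, 0, 67108864⟩, ⟨2, 1, 0, 67108864⟩]]

noncomputable def f_pp_022_b : ℕ → ℕ → ℕ → ℕ → Bool := onCell 1073741824 536870912 1239849684 370763052 587336777 62277027
    (rowB 3 eng mog cd1q0 cd3q2b pd2 2 false true true .pp 0 2 2 (qsf 0 536870912 1239849684 370763052 2) ndB1q0 ndB3q2b pcB2 cut_pp_022_b Ext.none)

def k0_pp_022_b : ∃ t, chk3 f_pp_022_b t 1 1 1 = true :=
  ⟨(a (a (b (b (a (b (a (l 16504848) (b (l 16505432) (l 16475128))) (a (l 16448256) (l 16430520))) (b (a (b (l 16487528) (l 16459032)) (b (l 16469072) (l 16440952))) (a (l 16414664) (l 16398992)))) (a (a (l 16510960) (l 16490248)) (b (l 16347128) (l 16308416)))) (a (b (b (l 16337160) (l 16326016)) (b (l 16324888) (l 16332696))) (b (a (l 16290552) (l 16258656)) (l 16311136)))) (b (b (a (b (a (b (l 16449520) (l 16422448)) (a (b (l 189011468727) (l 16407776)) (l 194380149479))) (a (l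 16381176) (a (l 16367504) (l 16362160)))) (b (a (b (l 1) (l 218539231399)) (l 1)) (a (l 202433107607) (l 247530167175)))) (a (b (a (l 16325096) (a (l 16312416) (l 16310824))) (l 16408024)) (b (a (l 16311936) (l 16306392)) (a (l 16267928) (l 16272048))))) (a (a (b (l 16222280) (l 16216648)) (b (l 16245248) (l 16175560))) (b (b (l 16231048) (l 16185104)) (l 16096728))))) (b (a (b (l 1) (a (b (a (l 278131768855) (l 301217138023)) (l 186863715703)) (b (l 1) (a (l 337187434903) (l 1))))) (l 1)) (a (a (b (b (l 16243736) (l 16219936)) (l 16178368)) (b (a (b (l 16239832) (l 16225744)) (l 277058112215)) (a (l 16203368) (l 16232208)))) (b (a (b (l 1) (l 334503104519)) (l 1)) (a (l 176663324311) (l 388727178743)))))), by decide +kernel⟩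

theorem c_pp_022_b : CertB 0 536870912 1239849684 370763052 587336777 62277027 3 eng mog cd1q0 cd3q2b pd2 false true true .pp 0 2 2
    ndB1q0 ndB3q2b pcB2 cut_pp_022_b Ext.none :=
  certB2 (fam := false) (s1 := true) (s2 := true) (a := 0) (b := 2) (c := 2) (cn := .pp) (n1 := ndB1q0) (n2 := ndB3q2b) (pc := pcB2) (cut := cut_pp_022_b) (xt := Ext.none) (P1 := 0) (W1 := 536870912) (P2 := 1239849684) (W2 := 370763052) (P3 := 587336777) (W3 := 62277027) (N0 := 3) (En := eng) (mo := mog) (C1 := cd1q0) (C2 := cd3q2b) (C3 := pd2)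
    rfl (fun _ => rfl) k0_pp_022_b

noncomputable def f_pp_023 : ℕ → ℕ → ℕ → ℕ → Bool := onCell 0 536870912 1073741824 536870912 587336777 62277027
    (rowB 3 eng mog cd1q0 cd3q3 pd2 1 false true true .up 0 2 3 (qsf 0 536870912 1610612736 536870912 2) ndB1q0 ndB3q3 pcB2 Cut.none Ext.none)

def k0_pp_023 : ∃ t, chk3 f_pp_023 t 1 1 1 = true :=
  ⟨(b (b (a (l 1) (a (b (l 1) (l 192769729511)) (b (l 226592591175) (l 168073582087)))) (a (a (l 1) (b (l 1) (l 243772133287))) (b (a (l 205117659223) (l 16335872)) (a (l 16192984) (l 16384576))))) (a (b (a (b (l 1) (l 322691847575)) (b (l 268467897895) (l 300679993383))) (a (b (l 347388349575) (l 16411328)) (l 16349776))) (b (a (b (l 16140768) (l 16295792)) (b (l 16473912) (l 16546784))) (a (l 16500544) (l 16635784))))), by decide +kernel⟩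

theorem c_pp_023 : CertB 0 536870912 1610612736 536870912 587336777 62277027 3 eng mog cd1q0 cd3q3 pd2 false true true .up 0 2 3
    ndB1q0 ndB3q3 pcB2 Cut.none Ext.none :=
  certB1 (fam := false) (s1 := true) (s2 := true) (a := 0) (b := 2) (c := 3) (cn := .up) (n1 := ndB1q0) (n2 := ndB3q3) (pc := pcB2) (cut := Cut.none) (xt := Ext.none) (P1 := 0) (W1 := 536870912) (P2 := 1610612736) (W2 := 536870912) (P3 := 587336777) (W3 := 62277027) (N0 := 3) (En := eng) (mo := mog) (C1 := cd1q0) (C2 := cd3q3) (C3 := pd2)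
    rfl (fun _ => rfl) k0_pp_023

noncomputable def f_pp_033 : ℕ → ℕ → ℕ → ℕ → Bool := onCell 0 536870912 1610612736 536870912 587336777 62277027
    (rowB 3 eng mog cd1q0 cd3q3 pd3 1 false true true .pnn 0 3 3 (qsf 0 536870912 1610612736 536870912 3) ndB1q0 ndB3q3 pcB3 Cut.none Ext.none)

def k0_pp_033 : ∃ t, chk3 f_pp_033 t 1 1 1 = true :=
  ⟨(a (b (b (b (a (b (l 16308656) (l 16304616)) (l 16456600)) (a (l 16368360) (l 16503152))) (b (a (l 16431224) (l 16542544)) (a (b (l 16477016) (l 16501952)) (l 16575680)))) (b (l 4) (a (l 4) (a (b (l 4) (l 2)) (l 2))))) (b (a (b (b (l 16597192) (l 16619936)) (b (l 16642392) (l 4))) (b (b (l 16685208) (l 16704464)) (a (b (l 16704552) (l 2)) (l 2)))) (a (b (a (b (l 4) (l 2)) (l 2)) (l 2)) (l 2)))), by decide +kernel⟩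

theorem c_pp_033 : CertB 0 536870912 1610612736 536870912 587336777 62277027 3 eng mog cd1q0 cd3q3 pd3 false true true .pnn 0 3 3
    ndB1q0 ndB3q3 pcB3 Cut.none Ext.none :=
  certB1 (fam := false) (s1 := true) (s2 := true) (a := 0) (b := 3) (c := 3) (cn := .pnn) (n1 := ndB1q0) (n2 := ndB3q3) (pc := pcB3) (cut := Cut.none) (xt := Ext.none) (P1 := 0) (W1 := 536870912) (P2 := 1610612736) (W2 := 536870912) (P3 := 587336777) (W3 := 62277027) (N0 := 3) (En := eng) (mo := mog) (C1 := cd1q0) (C2 := cd3q3) (C3 := pd3)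
    rfl (fun _ => rfl) k0_pp_033

noncomputable def f_pp_101 : ℕ → ℕ → ℕ → ℕ → Bool := onCell 536870912 536870912 536870912 536870912 587336777 62277027
    (rowB 3 eng mog cd1q1 cd3q1 pd0 0 false true true .npn 1 0 1 (qsf 536870912 536870912 536870912 536870912 0) ndB1q1 ndB3q1 pcB0 Cut.none Ext.none)

def k0_pp_101 : ∃ t, chk3 f_pp_101 t 1 1 1 = true :=
  ⟨(l 3), by decide +kernel⟩

theorem c_pp_101 : CertB 536870912 536870912 536870912 536870912 587336777 62277027 3 eng mog cd1q1 cd3q1 pd0 false true true .npn 1 0 1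
    ndB1q1 ndB3q1 pcB0 Cut.none Ext.none :=
  certB0 (fam := false) (s1 := true) (s2 := true) (a := 1) (b := 0) (c := 1) (cn := .npn) (n1 := ndB1q1) (n2 := ndB3q1) (pc := pcB0) (cut := Cut.none) (xt := Ext.none) (P1 := 536870912) (W1 := 536870912) (P2 := 536870912) (W2 := 536870912) (P3 := 587336777) (W3 := 62277027) (N0 := 3) (En := eng) (mo := mog) (C1 := cd1q1) (C2 := cd3q1) (C3 := pd0)
    rfl k0_pp_101

noncomputable def f_pp_102_a : ℕ → ℕ → ℕ → ℕ → Bool := onCell 536870912 536870912 0 536870912 587336777 62277027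
    (rowB 3 eng mog cd1q1 cd3q2a pd0 0 false true true .npp 1 0 2 (qsf 536870912 536870912 0 536870912 0) ndB1q1 ndB3q2a pcB0 Cut.none Ext.none)

def k0_pp_102_a : ∃ t, chk3 f_pp_102_a t 1 1 1 = true :=
  ⟨(a (l 3) (l 3)), by decide +kernel⟩

theorem c_pp_102_a : CertB 536870912 536870912 0 536870912 587336777 62277027 3 eng mog cd1q1 cd3q2a pd0 false true true .npp 1 0 2
    ndB1q1 ndB3q2a pcB0 Cut.none Ext.none :=
  certB0 (fam := false) (s1 := true) (s2 := true) (a := 1) (b := 0) (c := 2) (cn := .npp) (n1 := ndB1q1) (n2 := ndB3q2a) (pc := pcB0) (cut := Cut.none) (xt := Ext.none) (P1 := 536870912) (W1 := 536870912) (P2 := 0) (W2 := 536870912) (P3 := 587336777) (W3 := 62277027) (N0 := 3) (En := eng) (mo := mog) (C1 := cd1q1) (C2 := cd3q2a) (C3 := pd0)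
    rfl k0_pp_102_a

noncomputable def f_pp_102_b : ℕ → ℕ → ℕ → ℕ → Bool := onCell 536870912 536870912 0 536870912 587336777 62277027
    (rowB 3 eng mog cd1q1 cd3q2b pd0 1 false true true .npp 1 0 2 (qsf 536870912 536870912 1239849684 370763052 0) ndB1q1 ndB3q2b pcB0 Cut.none Ext.none)

def k0_pp_102_b : ∃ t, chk3 f_pp_102_b t 1 1 1 = true :=
  ⟨(l 3), by decide +kernel⟩

theorem c_pp_102_b : CertB 536870912 536870912 1239849684 370763052 587336777 62277027 3 eng mog cd1q1 cd3q2b pd0 false true true .npp 1 0 2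
    ndB1q1 ndB3q2b pcB0 Cut.none Ext.none :=
  certB1 (fam := false) (s1 := true) (s2 := true) (a := 1) (b := 0) (c := 2) (cn := .npp) (n1 := ndB1q1) (n2 := ndB3q2b) (pc := pcB0) (cut := Cut.none) (xt := Ext.none) (P1 := 536870912) (W1 := 536870912) (P2 := 1239849684) (W2 := 370763052) (P3 := 587336777) (W3 := 62277027) (N0 := 3) (En := eng) (mo := mog) (C1 := cd1q1) (C2 := cd3q2b) (C3 := pd0)
    rfl (fun _ => rfl) k0_pp_102_b

noncomputable def f_pp_112_a : ℕ → ℕ → ℕ → ℕ → Bool := onCell 536870912 536870912 0 536870912 587336777 62277027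
    (rowB 3 eng mog cd1q1 cd3q2a pd1 0 false true true .dn 1 1 2 (qsf 536870912 536870912 0 536870912 1) ndB1q1 ndB3q2a pcB1 Cut.none Ext.none)

def k0_pp_112_a : ∃ t, chk3 f_pp_112_a t 1 1 1 = true :=
  ⟨(a (l 3) (l 1)), by decide +kernel⟩

theorem c_pp_112_a : CertB 536870912 536870912 0 536870912 587336777 62277027 3 eng mog cd1q1 cd3q2a pd1 false true true .dn 1 1 2
    ndB1q1 ndB3q2a pcB1 Cut.none Ext.none :=
  certB0 (fam := false) (s1 := true) (s2 := true) (a := 1) (b := 1) (c := 2) (cn := .dn) (n1 := ndB1q1) (n2 := ndB3q2a) (pc := pcB1) (cut := Cut.none) (xt := Ext.none) (P1 := 536870912) (W1 := 536870912) (P2 := 0) (W2 := 536870912) (P3 := 587336777) (W3 := 62277027) (N0 := 3) (En := eng) (mo := mog) (C1 := cd1q1) (C2 := cd3q2a) (C3 := pd1)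
    rfl k0_pp_112_a

noncomputable def f_pp_112_b : ℕ → ℕ → ℕ → ℕ → Bool := onCell 536870912 536870912 536870912 536870912 587336777 62277027
    (rowB 3 eng mog cd1q1 cd3q2b pd1 1 false true true .dn 1 1 2 (qsf 536870912 536870912 1239849684 370763052 1) ndB1q1 ndB3q2b pcB1 Cut.none Ext.none)

def k0_pp_112_b : ∃ t, chk3 f_pp_112_b t 1 1 1 = true :=
  ⟨(b (b (l 3) (a (l 3) (l 3))) (b (b (a (a (b (a (l 90362136391) (l 3)) (a (l 16683912) (l 70497856023))) (b (l 3) (a (l 160692213463) (l 3)))) (l 3)) (a (a (b (a (l 16647648) (l 16684328)) (a (l 16610184) (l 16657672))) (b (a (l 73182199351) (a (l 156934134215) (l 2))) (a (l 16763792) (l 2)))) (l 2))) (a (b (a (a (l 16553760) (b (l 16631752) (l 16607136))) (b (a (l 16738496) (l 2)) (l 2))) (a (a (l 16481152) (l 16574480)) (l 2))) (l 2)))), by decide +kernel⟩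

theorem c_pp_112_b : CertB 536870912 536870912 1239849684 370763052 587336777 62277027 3 eng mog cd1q1 cd3q2b pd1 false true true .dn 1 1 2
    ndB1q1 ndB3q2b pcB1 Cut.none Ext.none :=
  certB1 (fam := false) (s1 := true) (s2 := true) (a := 1) (b := 1) (c := 2) (cn := .dn) (n1 := ndB1q1) (n2 := ndB3q2b) (pc := pcB1) (cut := Cut.none) (xt := Ext.none) (P1 := 536870912) (W1 := 536870912) (P2 := 1239849684) (W2 := 370763052) (P3 := 587336777) (W3 := 62277027) (N0 := 3) (En := eng) (mo := mog) (C1 := cd1q1) (C2 := cd3q2b) (C3 := pd1)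
    rfl (fun _ => rfl) k0_pp_112_b

noncomputable def f_pp_113 : ℕ → ℕ → ℕ → ℕ → Bool := onCell 536870912 536870912 536870912 536870912 587336777 62277027
    (rowB 3 eng mog cd1q1 cd3q3 pd1 1 false true true .nn 1 1 3 (qsf 536870912 536870912 1610612736 536870912 1) ndB1q1 ndB3q3 pcB1 Cut.none Ext.none)

def k0_pp_113 : ∃ t, chk3 f_pp_113 t 1 1 1 = true :=
  ⟨(b (b (l 3) (a (l 3) (l 3))) (b (a (b (a (l 1) (b (l 3) (a (l 148881119799) (l 3)))) (a (b (l 1) (a (l 1) (l 16698288))) (b (a (l 16810120) (l 142975679255)) (a (l 16821432) (l 16926080))))) (a (b (l 3) (b (l 3) (a (l 118816508183) (l 3)))) (l 3))) (a (b (a (b (l 84322044807) (l 91301284391)) (b (a (l 16812936) (l 16892624)) (a (l 16790544) (l 16864448)))) (a (a (l 16542880) (l 16662256)) (a (l 16760864) (l 16828064)))) (b (a (b (a (l 16951488) (l 177335280599)) (a (l 16914024) (l 16953344))) (a (b (l 455434584631) (b (l 238538439319) (l 16943248))) (b (l 3) (a (l 532743885319) (l 3))))) (a (b (a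 (l 16882648) (l 16909104)) (l 16868264)) (a (b (a (l 16914848) (l 16907680)) (l 16864704)) (b (a (b (l 16867728) (l 16864576)) (b (l 460266334055) (l 16820280))) (a (l 16840048) (b (l 16813056) (l 16804088)))))))))), by decide +kernel⟩

theorem c_pp_113 : CertB 536870912 536870912 1610612736 536870912 587336777 62277027 3 eng mog cd1q1 cd3q3 pd1 false true true .nn 1 1 3
    ndB1q1 ndB3q3 pcB1 Cut.none Ext.none :=
  certB1 (fam := false) (s1 := true) (s2 := true) (a := 1) (b := 1) (c := 3) (cn := .nn) (n1 := ndB1q1) (n2 := ndB3q3) (pc := pcB1) (cut := Cut.none) (xt := Ext.none) (P1 := 536870912) (W1 := 536870912) (P2 := 1610612736) (W2 := 536870912) (P3 := 587336777) (W3 := 62277027) (N0 := 3) (En := eng) (mo := mog) (C1 := cd1q1) (C2 := cd3q3) (C3 := pd1)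
    rfl (fun _ => rfl) k0_pp_113

noncomputable def f_pp_123 : ℕ → ℕ → ℕ → ℕ → Bool := onCell 1073741824 536870912 1610612736 536870912 587336777 62277027
    (rowB 3 eng mog cd1q1 cd3q3 pd2 2 false true true .npn 1 2 3 (qsf 536870912 536870912 1610612736 536870912 2) ndB1q1 ndB3q3 pcB2 Cut.none Ext.none)

def k0_pp_123 : ∃ t, chk3 f_pp_123 t 1 1 1 = true :=
  ⟨(a (a (b (b (a (a (l 16536560) (l 16489216)) (l 16527008)) (a (b (l 16676320) (l 16747216)) (l 16613384))) (b (a (b (l 16790344) (l 16810568)) (b (l 16701912) (l 16730608))) (a (b (l 16810584) (a (l 16793168) (l 16770776))) (b (l 16739984) (l 16727264))))) (b (b (a (l 190622472199) (l 1)) (a (l 16532928) (l 16496736))) (a (b (a (a (l 16673224) (l 16720328)) (l 16636960)) (a (a (l 16702624) (b (l 16685928) (l 16691968))) (l 16675680))) (b (l 16620776) (l 16668824))))) (b (a (b (l 1) (l 216929288871)) (l 1)) (a (b (a (l 16606536) (l 16603744)) (a (l 16664568) (l 16665192))) (b (l 16631408) (l 16682232))))),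 by decide +kernel⟩

theorem c_pp_123 : CertB 536870912 536870912 1610612736 536870912 587336777 62277027 3 eng mog cd1q1 cd3q3 pd2 false true true .npn 1 2 3
    ndB1q1 ndB3q3 pcB2 Cut.none Ext.none :=
  certB2 (fam := false) (s1 := true) (s2 := true) (a := 1) (b := 2) (c := 3) (cn := .npn) (n1 := ndB1q1) (n2 := ndB3q3) (pc := pcB2) (cut := Cut.none) (xt := Ext.none) (P1 := 536870912) (W1 := 536870912) (P2 := 1610612736) (W2 := 536870912) (P3 := 587336777) (W3 := 62277027) (N0 := 3) (En := eng) (mo := mog) (C1 := cd1q1) (C2 := cd3q3) (C3 := pd2)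
    rfl (fun _ => rfl) k0_pp_123

noncomputable def f_pp_133 : ℕ → ℕ → ℕ → ℕ → Bool := onCell 1610612736 536870912 1610612736 536870912 587336777 62277027
    (rowB 3 eng mog cd1q1 cd3q3 pd3 2 false true true .dn 1 3 3 (qsf 536870912 536870912 1610612736 536870912 3) ndB1q1 ndB3q3 pcB3 Cut.none Ext.none)

def k0_pp_133 : ∃ t, chk3 f_pp_133 t 1 1 1 = true :=
  ⟨(a (b (l 1) (a (a (l 342020630983) (l 1)) (l 1))) (l 1)), by decide +kernel⟩

theorem c_pp_133 : CertB 536870912 536870912 1610612736 536870912 587336777 62277027 3 eng mog cd1q1 cd3q3 pd3 false true true .dn 1 3 3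
    ndB1q1 ndB3q3 pcB3 Cut.none Ext.none :=
  certB2 (fam := false) (s1 := true) (s2 := true) (a := 1) (b := 3) (c := 3) (cn := .dn) (n1 := ndB1q1) (n2 := ndB3q3) (pc := pcB3) (cut := Cut.none) (xt := Ext.none) (P1 := 536870912) (W1 := 536870912) (P2 := 1610612736) (W2 := 536870912) (P3 := 587336777) (W3 := 62277027) (N0 := 3) (En := eng) (mo := mog) (C1 := cd1q1) (C2 := cd3q3) (C3 := pd3)
    rfl (fun _ => rfl) k0_pp_133

noncomputable def f_pp_202_aa : ℕ → ℕ → ℕ → ℕ → Bool := onCell 0 536870912 0 536870912 587336777 62277027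
    (rowB 3 eng mog cd1q2a cd3q2a pd0 0 false true true .pp 2 0 2 (qsf 0 536870912 0 536870912 0) ndB1q2a ndB3q2a pcB0 Cut.none Ext.none)

def k0_pp_202_aa : ∃ t, chk3 f_pp_202_aa t 1 1 1 = true :=
  ⟨(l 3), by decide +kernel⟩

theorem c_pp_202_aa : CertB 0 536870912 0 536870912 587336777 62277027 3 eng mog cd1q2a cd3q2a pd0 false true true .pp 2 0 2
    ndB1q2a ndB3q2a pcB0 Cut.none Ext.none :=
  certB0 (fam := false) (s1 := true) (s2 := true) (a := 2) (b := 0) (c := 2) (cn := .pp) (n1 := ndB1q2a) (n2 := ndB3q2a) (pc := pcB0) (cut := Cut.none) (xt := Ext.none) (P1 := 0) (W1 := 536870912) (P2 := 0) (W2 := 536870912) (P3 := 587336777) (W3 := 62277027) (N0 := 3) (En := eng) (mo := mog) (C1 := cd1q2a) (C2 := cd3q2a) (C3 := pd0)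
    rfl k0_pp_202_aa

noncomputable def f_pp_202_ab : ℕ → ℕ → ℕ → ℕ → Bool := onCell 0 536870912 1239849684 370763052 587336777 62277027
    (rowB 3 eng mog cd1q2a cd3q2b pd0 0 false true true .pp 2 0 2 (qsf 0 536870912 1239849684 370763052 0) ndB1q2a ndB3q2b pcB0 Cut.none Ext.none)

def k0_pp_202_ab : ∃ t, chk3 f_pp_202_ab t 1 1 1 = true :=
  ⟨(l 3), by decide +kernel⟩

theorem c_pp_202_ab : CertB 0 536870912 1239849684 370763052 587336777 62277027 3 eng mog cd1q2a cd3q2b pd0 false true true .pp 2 0 2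
    ndB1q2a ndB3q2b pcB0 Cut.none Ext.none :=
  certB0 (fam := false) (s1 := true) (s2 := true) (a := 2) (b := 0) (c := 2) (cn := .pp) (n1 := ndB1q2a) (n2 := ndB3q2b) (pc := pcB0) (cut := Cut.none) (xt := Ext.none) (P1 := 0) (W1 := 536870912) (P2 := 1239849684) (W2 := 370763052) (P3 := 587336777) (W3 := 62277027) (N0 := 3) (En := eng) (mo := mog) (C1 := cd1q2a) (C2 := cd3q2b) (C3 := pd0)
    rfl k0_pp_202_ab

noncomputable def f_pp_202_ba : ℕ → ℕ → ℕ → ℕ → Bool := onCell 1239849684 370763052 0 536870912 587336777 62277027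
    (rowB 3 eng mog cd1q2b cd3q2a pd0 0 false true true .pp 2 0 2 (qsf 1239849684 370763052 0 536870912 0) ndB1q2b ndB3q2a pcB0 Cut.none Ext.none)

def k0_pp_202_ba : ∃ t, chk3 f_pp_202_ba t 1 1 1 = true :=
  ⟨(l 3), by decide +kernel⟩

theorem c_pp_202_ba : CertB 1239849684 370763052 0 536870912 587336777 62277027 3 eng mog cd1q2b cd3q2a pd0 false true true .pp 2 0 2
    ndB1q2b ndB3q2a pcB0 Cut.none Ext.none :=
  certB0 (fam := false) (s1 := true) (s2 := true) (a := 2) (b := 0) (c := 2) (cn := .pp) (n1 := ndB1q2b) (n2 := ndB3q2a) (pc := pcB0) (cut := Cut.none) (xt := Ext.none) (P1 := 1239849684) (W1 := 370763052) (P2 := 0) (W2 := 536870912) (P3 := 587336777) (W3 := 62277027) (N0 := 3) (En := eng) (mo := mog) (C1 := cd1q2b) (C2 := cd3q2a) (C3 := pd0)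
    rfl k0_pp_202_ba

noncomputable def f_pp_202_bb : ℕ → ℕ → ℕ → ℕ → Bool := onCell 1239849684 370763052 1239849684 370763052 587336777 62277027
    (rowB 3 eng mog cd1q2b cd3q2b pd0 0 false true true .pp 2 0 2 (qsf 1239849684 370763052 1239849684 370763052 0) ndB1q2b ndB3q2b pcB0 Cut.none Ext.none)

def k0_pp_202_bb : ∃ t, chk3 f_pp_202_bb t 1 1 1 = true :=
  ⟨(l 3), by decide +kernel⟩

theorem c_pp_202_bb : CertB 1239849684 370763052 1239849684 370763052 587336777 62277027 3 eng mog cd1q2b cd3q2b pd0 false true true .pp 2 0 2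
    ndB1q2b ndB3q2b pcB0 Cut.none Ext.none :=
  certB0 (fam := false) (s1 := true) (s2 := true) (a := 2) (b := 0) (c := 2) (cn := .pp) (n1 := ndB1q2b) (n2 := ndB3q2b) (pc := pcB0) (cut := Cut.none) (xt := Ext.none) (P1 := 1239849684) (W1 := 370763052) (P2 := 1239849684) (W2 := 370763052) (P3 := 587336777) (W3 := 62277027) (N0 := 3) (En := eng) (mo := mog) (C1 := cd1q2b) (C2 := cd3q2b) (C3 := pd0)
    rfl k0_pp_202_bb

noncomputable def f_pp_203_a : ℕ → ℕ → ℕ → ℕ → Bool := onCell 0 536870912 0 536870912 587336777 62277027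
    (rowB 3 eng mog cd1q2a cd3q3 pd0 1 false true true .up 2 0 3 (qsf 0 536870912 1610612736 536870912 0) ndB1q2a ndB3q3 pcB0 Cut.none Ext.none)

def k0_pp_203_a : ∃ t, chk3 f_pp_203_a t 1 1 1 = true :=
  ⟨(l 3), by decide +kernel⟩

theorem c_pp_203_a : CertB 0 536870912 1610612736 536870912 587336777 62277027 3 eng mog cd1q2a cd3q3 pd0 false true true .up 2 0 3
    ndB1q2a ndB3q3 pcB0 Cut.none Ext.none :=
  certB1 (fam := false) (s1 := true) (s2 := true) (a := 2) (b := 0) (c := 3) (cn := .up) (n1 := ndB1q2a) (n2 := ndB3q3) (pc := pcB0) (cut := Cut.none) (xt := Ext.none) (P1 := 0) (W1 := 536870912) (P2 := 1610612736) (W2 := 536870912) (P3 := 587336777) (W3 := 62277027) (N0 := 3) (En := eng) (mo := mog) (C1 := cd1q2a) (C2 := cd3q3) (C3 := pd0)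
    rfl (fun _ => rfl) k0_pp_203_a

noncomputable def f_pp_203_b : ℕ → ℕ → ℕ → ℕ → Bool := onCell 1239849684 370763052 1610612736 536870912 587336777 62277027
    (rowB 3 eng mog cd1q2b cd3q3 pd0 0 false true true .up 2 0 3 (qsf 1239849684 370763052 1610612736 536870912 0) ndB1q2b ndB3q3 pcB0 Cut.none Ext.none)

def k0_pp_203_b : ∃ t, chk3 f_pp_203_b t 1 1 1 = true :=
  ⟨(l 3), by decide +kernel⟩

theorem c_pp_203_b : CertB 1239849684 370763052 1610612736 536870912 587336777 62277027 3 eng mog cd1q2b cd3q3 pd0 false true true .up 2 0 3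
    ndB1q2b ndB3q3 pcB0 Cut.none Ext.none :=
  certB0 (fam := false) (s1 := true) (s2 := true) (a := 2) (b := 0) (c := 3) (cn := .up) (n1 := ndB1q2b) (n2 := ndB3q3) (pc := pcB0) (cut := Cut.none) (xt := Ext.none) (P1 := 1239849684) (W1 := 370763052) (P2 := 1610612736) (W2 := 536870912) (P3 := 587336777) (W3 := 62277027) (N0 := 3) (En := eng) (mo := mog) (C1 := cd1q2b) (C2 := cd3q3) (C3 := pd0)
    rfl k0_pp_203_b

noncomputable def cut_pp_213_a : Cut := Cut.of [[⟨0, 1, 0, 67108864⟩, ⟨1, 1, 0, 67108864⟩, ⟨2, 2, 0, 16777216⟩]]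

noncomputable def f_pp_213_a : ℕ → ℕ → ℕ → ℕ → Bool := onCell 0 536870912 1610612736 536870912 587336777 62277027
    (rowB 3 eng mog cd1q2a cd3q3 pd1 0 false true true .pnn 2 1 3 (qsf 0 536870912 1610612736 536870912 1) ndB1q2a ndB3q3 pcB1 cut_pp_213_a Ext.none)

def k0_pp_213_a : ∃ t, chk3 f_pp_213_a t 1 1 1 = true :=
  ⟨(b (l 3) (b (l 3) (a (l 3) (a (l 3) (b (l 3) (a (l 3) (b (l 3) (b (l 3) (b (l 3) (l 6)))))))))), by decide +kernel⟩

theorem c_pp_213_a : CertB 0 536870912 1610612736 536870912 587336777 62277027 3 eng mog cd1q2a cd3q3 pd1 false true true .pnn 2 1 3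
    ndB1q2a ndB3q3 pcB1 cut_pp_213_a Ext.none :=
  certB0 (fam := false) (s1 := true) (s2 := true) (a := 2) (b := 1) (c := 3) (cn := .pnn) (n1 := ndB1q2a) (n2 := ndB3q3) (pc := pcB1) (cut := cut_pp_213_a) (xt := Ext.none) (P1 := 0) (W1 := 536870912) (P2 := 1610612736) (W2 := 536870912) (P3 := 587336777) (W3 := 62277027) (N0 := 3) (En := eng) (mo := mog) (C1 := cd1q2a) (C2 := cd3q3) (C3 := pd1)
    rfl k0_pp_213_a

noncomputable def cut_pp_213_b : Cut := Cut.of [[⟨0, 1, 0, 67108864⟩, ⟨1, 1, 0, 67108864⟩, ⟨2, 2, 0, 16777216⟩]]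

noncomputable def f_pp_213_b : ℕ → ℕ → ℕ → ℕ → Bool := onCell 1239849684 370763052 1610612736 536870912 587336777 62277027
    (rowB 3 eng mog cd1q2b cd3q3 pd1 0 false true true .pnn 2 1 3 (qsf 1239849684 370763052 1610612736 536870912 1) ndB1q2b ndB3q3 pcB1 cut_pp_213_b Ext.none)

def k0_pp_213_b : ∃ t, chk3 f_pp_213_b t 1 1 1 = true :=
  ⟨(l 3), by decide +kernel⟩

theorem c_pp_213_b : CertB 1239849684 370763052 1610612736 536870912 587336777 62277027 3 eng mog cd1q2b cd3q3 pd1 false true true .pnn 2 1 3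
    ndB1q2b ndB3q3 pcB1 cut_pp_213_b Ext.none :=
  certB0 (fam := false) (s1 := true) (s2 := true) (a := 2) (b := 1) (c := 3) (cn := .pnn) (n1 := ndB1q2b) (n2 := ndB3q3) (pc := pcB1) (cut := cut_pp_213_b) (xt := Ext.none) (P1 := 1239849684) (W1 := 370763052) (P2 := 1610612736) (W2 := 536870912) (P3 := 587336777) (W3 := 62277027) (N0 := 3) (En := eng) (mo := mog) (C1 := cd1q2b) (C2 := cd3q3) (C3 := pd1)
    rfl k0_pp_213_b

noncomputable def f_pp_303 : ℕ → ℕ → ℕ → ℕ → Bool := onCell 1610612736 536870912 1610612736 536870912 587336777 62277027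
    (rowB 3 eng mog cd1q3 cd3q3 pd0 0 false true true .npn 3 0 3 (qsf 1610612736 536870912 1610612736 536870912 0) ndB1q3 ndB3q3 pcB0 Cut.none Ext.none)

def k0_pp_303 : ∃ t, chk3 f_pp_303 t 1 1 1 = true :=
  ⟨(l 3), by decide +kernel⟩

theorem c_pp_303 : CertB 1610612736 536870912 1610612736 536870912 587336777 62277027 3 eng mog cd1q3 cd3q3 pd0 false true true .npn 3 0 3
    ndB1q3 ndB3q3 pcB0 Cut.none Ext.none :=
  certB0 (fam := false) (s1 := true) (s2 := true) (a := 3) (b := 0) (c := 3) (cn := .npn) (n1 := ndB1q3) (n2 := ndB3q3) (pc := pcB0) (cut := Cut.none) (xt := Ext.none) (P1 := 1610612736) (W1 := 536870912) (P2 := 1610612736) (W2 := 536870912) (P3 := 587336777) (W3 := 62277027) (N0 := 3) (En := eng) (mo := mog) (C1 := cd1q3) (C2 := cd3q3) (C3 := pd0)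
    rfl k0_pp_303

noncomputable def f_pp_313 : ℕ → ℕ → ℕ → ℕ → Bool := onCell 1610612736 536870912 1610612736 536870912 587336777 62277027
    (rowB 3 eng mog cd1q3 cd3q3 pd1 0 false true true .dn 3 1 3 (qsf 1610612736 536870912 1610612736 536870912 1) ndB1q3 ndB3q3 pcB1 Cut.none Ext.none)

def k0_pp_313 : ∃ t, chk3 f_pp_313 t 1 1 1 = true :=
  ⟨(l 3), by decide +kernel⟩

theorem c_pp_313 : CertB 1610612736 536870912 1610612736 536870912 587336777 62277027 3 eng mog cd1q3 cd3q3 pd1 false true true .dn 3 1 3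
    ndB1q3 ndB3q3 pcB1 Cut.none Ext.none :=
  certB0 (fam := false) (s1 := true) (s2 := true) (a := 3) (b := 1) (c := 3) (cn := .dn) (n1 := ndB1q3) (n2 := ndB3q3) (pc := pcB1) (cut := Cut.none) (xt := Ext.none) (P1 := 1610612736) (W1 := 536870912) (P2 := 1610612736) (W2 := 536870912) (P3 := 587336777) (W3 := 62277027) (N0 := 3) (En := eng) (mo := mog) (C1 := cd1q3) (C2 := cd3q3) (C3 := pd1)
    rfl k0_pp_313

noncomputable def f_pm_001 : ℕ → ℕ → ℕ → ℕ → Bool := onCell 0 536870912 536870912 536870912 587336777 62277027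
    (rowB 3 eng mog cd1q0 cd3q1 pd0 0 false true false .up 0 0 1 (qsf 0 536870912 536870912 536870912 0) ndB1q0 ndB3q1 pcB0 Cut.none Ext.none)

def k0_pm_001 : ∃ t, chk3 f_pm_001 t 1 1 1 = true :=
  ⟨(l 4), by decide +kernel⟩

theorem c_pm_001 : CertB 0 536870912 536870912 536870912 587336777 62277027 3 eng mog cd1q0 cd3q1 pd0 false true false .up 0 0 1
    ndB1q0 ndB3q1 pcB0 Cut.none Ext.none :=
  certB0 (fam := false) (s1 := true) (s2 := false) (a := 0) (b := 0) (c := 1) (cn := .up) (n1 := ndB1q0) (n2 := ndB3q1) (pc := pcB0) (cut := Cut.none) (xt := Ext.none) (P1 := 0) (W1 := 536870912) (P2 := 536870912) (W2 := 536870912) (P3 := 587336777) (W3 := 62277027) (N0 := 3) (En := eng) (mo := mog) (C1 := cd1q0) (C2 := cd3q1) (C3 := pd0)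
    rfl k0_pm_001

noncomputable def f_pm_011 : ℕ → ℕ → ℕ → ℕ → Bool := onCell 0 536870912 536870912 536870912 587336777 62277027
    (rowB 3 eng mog cd1q0 cd3q1 pd1 0 false true false .pnn 0 1 1 (qsf 0 536870912 536870912 536870912 1) ndB1q0 ndB3q1 pcB1 Cut.none Ext.none)

def k0_pm_011 : ∃ t, chk3 f_pm_011 t 1 1 1 = true :=
  ⟨(l 4), by decide +kernel⟩

theorem c_pm_011 : CertB 0 536870912 536870912 536870912 587336777 62277027 3 eng mog cd1q0 cd3q1 pd1 false true false .pnn 0 1 1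
    ndB1q0 ndB3q1 pcB1 Cut.none Ext.none :=
  certB0 (fam := false) (s1 := true) (s2 := false) (a := 0) (b := 1) (c := 1) (cn := .pnn) (n1 := ndB1q0) (n2 := ndB3q1) (pc := pcB1) (cut := Cut.none) (xt := Ext.none) (P1 := 0) (W1 := 536870912) (P2 := 536870912) (W2 := 536870912) (P3 := 587336777) (W3 := 62277027) (N0 := 3) (En := eng) (mo := mog) (C1 := cd1q0) (C2 := cd3q1) (C3 := pd1)
    rfl k0_pm_011

noncomputable def cut_pm_012_a : Cut := Cut.of [[⟨0, 0, 0, 67108864⟩, ⟨1, 1, 0, 67108864⟩, ⟨2, 1, 0, 67108864⟩]]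

noncomputable def f_pm_012_a : ℕ → ℕ → ℕ → ℕ → Bool := onCell 536870912 536870912 0 536870912 587336777 62277027
    (rowB 3 eng mog cd1q0 cd3q2a pd1 2 false true false .pnp 0 1 2 (qsf 0 536870912 0 536870912 1) ndB1q0 ndB3q2a pcB1 cut_pm_012_a Ext.none)

def k0_pm_012_a : ∃ t, chk3 f_pm_012_a t 2 1 1 = true :=
  ⟨(b (a (b (l 2) (a (l 2) (l 16526048))) (a (b (l 16585128) (l 16598256)) (b (l 16555752) (b (l 16511456) (l 16483368))))) (b (a (a (l 2) (b (l 16453768) (l 16407016))) (a (b (l 16564152) (b (l 16435336) (l 16422328))) (b (a (l 16459840) (l 16458512)) (a (l 16440320) (l 16446232))))) (a (b (a (l 16318376) (b (l 16376768) (l 16361320))) (a (l 16379896) (b (l 16349480) (l 16368992)))) (a (b (a (l 16400632) (l 16418616)) (b (l 16406080) (l 16472904))) (b (a (l 16434312) (l 16449536)) (b (l 16453968) (l 16553816))))))), by decide +kernel⟩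

def k1_pm_012_a : ∃ t, chk3 f_pm_012_a t 3 2 1 = true :=
  ⟨(a (b (a (a (l 16531024) (l 16512824)) (a (l 16494008) (l 16477024))) (a (b (l 16486200) (a (l 16471392) (l 16462416))) (b (a (l 16465152) (l 16453384)) (a (l 16474344) (l 16446832))))) (a (b (a (l 16523664) (b (l 16450912) (l 16438440))) (b (a (l 16442840) (l 16433328)) (a (l 16441752) (l 16438040)))) (b (a (b (l 16435048) (l 16426128)) (b (a (l 16424576) (l 16418080)) (l 16415920))) (a (b (l 16425920) (l 16436080)) (b (b (l 16417984) (l 16422920)) (l 16456448)))))), by decide +kernel⟩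

def k2_pm_012_a : ∃ t, chk3 f_pm_012_a t 3 3 1 = true :=
  ⟨(a (b (a (b (a (l 16456248) (l 16453632)) (a (l 16451824) (l 16457264))) (b (a (l 16451016) (l 16450680)) (a (l 16546720) (l 16491392)))) (a (a (b (l 16485640) (l 16589256)) (b (l 16521784) (a (l 16584344) (l 16618808)))) (b (a (b (l 16484112) (l 16527688)) (b (l 16498752) (l 16526584))) (a (b (l 16557600) (l 16637608)) (b (l 16561912) (b (l 16593552) (l 16617176))))))) (b (a (b (a (l 16452128) (l 16455552)) (a (l 16543208) (l 16554872))) (a (b (l 16460512) (b (l 16490944) (l 16518960))) (b (a (l 16464976) (l 16468352)) (a (l 16578184) (b (l 16505888) (l 16538328)))))) (a (b (a (b (l 16515688) (l 16548336)) (b (l 16534024) (l 16592368))) (b (a (l 16588632) (a (l 16609552) (l 16644592))) (a (b (l 16623528) (b (l 16641440) (a (l 16646232) (l 16661208)))) (b (a (l 16645320) (l 16660456)) (b (a (l 16663824) (l 16679672)) (a (l 16676736) (l 16692928))))))) (b (a (a (b (l 16548624) (l 16610304)) (b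 (l 16558576) (l 16621792))) (b (a (l 16568040) (l 16618832)) (a (b (l 16599896) (l 16623504)) (a (l 16619648) (l 16666816))))) (a (a (b (l 16658152) (b (l 16676192) (b (l 16695880) (l 16719936)))) (b (b (l 16636848) (l 16663448)) (b (l 16713080) (l 6)))) (b (a (b (l 16670032) (l 6)) (l 6)) (l 6))))))), by decide +kernel⟩

theorem s3_pm_012_a : ∃ t, chk3 f_pm_012_a t 3 1 1 = true := ex3_b k1_pm_012_a k2_pm_012_a

theorem s4_pm_012_a : ∃ t, chk3 f_pm_012_a t 1 1 1 = true := ex3_a k0_pm_012_a s3_pm_012_a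

theorem c_pm_012_a : CertB 0 536870912 0 536870912 587336777 62277027 3 eng mog cd1q0 cd3q2a pd1 false true false .pnp 0 1 2
    ndB1q0 ndB3q2a pcB1 cut_pm_012_a Ext.none :=
  certB2 (fam := false) (s1 := true) (s2 := false) (a := 0) (b := 1) (c := 2) (cn := .pnp) (n1 := ndB1q0) (n2 := ndB3q2a) (pc := pcB1) (cut := cut_pm_012_a) (xt := Ext.none) (P1 := 0) (W1 := 536870912) (P2 := 0) (W2 := 536870912) (P3 := 587336777) (W3 := 62277027) (N0 := 3) (En := eng) (mo := mog) (C1 := cd1q0) (C2 := cd3q2a) (C3 := pd1)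
    rfl (fun _ => rfl) s4_pm_012_a

noncomputable def cut_pm_012_b : Cut := Cut.of [[⟨0, 0, 0, 67108864⟩, ⟨1, 1, 0, 67108864⟩, ⟨2, 1, 0, 67108864⟩]]

noncomputable def f_pm_012_b : ℕ → ℕ → ℕ → ℕ → Bool := onCell 536870912 536870912 1239849684 370763052 587336777 62277027
    (rowB 3 eng mog cd1q0 cd3q2b pd1 2 false true false .pnp 0 1 2 (qsf 0 536870912 1239849684 370763052 1) ndB1q0 ndB3q2b pcB1 cut_pm_012_b Ext.none)

def k0_pm_012_b : ∃ t, chk3 f_pm_012_b t 1 1 1 = true :=
  ⟨(a (a (l 2) (b (b (a (b (l 16624032) (l 2)) (b (l 16585368) (l 16595592))) (a (l 2) (l 16628824))) (l 2))) (b (a (b (a (b (l 16541840) (l 16541360)) (b (a (l 16505336) (l 16481864)) (a (l 16495600) (l 16465016)))) (a (l 16563080) (a (l 16506872) (l 16468584)))) (a (b (b (a (l 16458416) (l 16434904)) (a (l 16433392) (l 16400696))) (b (l 16405944) (l 16411464))) (b (a (b (a (l 16417544) (l 16406376)) (l 16367360)) (b (a (l 16395704) (b (l 16403768) (l 16368344))) (l 16417920))) (b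 (a (l 16343176) (l 16299736)) (a (l 16338792) (l 16286792)))))) (a (b (a (l 2) (a (l 16566992) (l 16522192))) (l 2)) (b (a (b (l 16432520) (l 16468272)) (b (l 16366136) (l 16352704))) (a (b (l 16518064) (l 2)) (b (l 16396960) (l 16456520))))))), by decide +kernel⟩

theorem c_pm_012_b : CertB 0 536870912 1239849684 370763052 587336777 62277027 3 eng mog cd1q0 cd3q2b pd1 false true false .pnp 0 1 2
    ndB1q0 ndB3q2b pcB1 cut_pm_012_b Ext.none :=
  certB2 (fam := false) (s1 := true) (s2 := false) (a := 0) (b := 1) (c := 2) (cn := .pnp) (n1 := ndB1q0) (n2 := ndB3q2b) (pc := pcB1) (cut := cut_pm_012_b) (xt := Ext.none) (P1 := 0) (W1 := 536870912) (P2 := 1239849684) (W2 := 370763052) (P3 := 587336777) (W3 := 62277027) (N0 := 3) (En := eng) (mo := mog) (C1 := cd1q0) (C2 := cd3q2b) (C3 := pd1)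
    rfl (fun _ => rfl) k0_pm_012_b

noncomputable def cut_pm_022_a : Cut := Cut.of [[⟨0, 0, 0, 67108864⟩, ⟨1, 1, 0, 67108864⟩, ⟨2, 1, 0, 67108864⟩]]

noncomputable def f_pm_022_a : ℕ → ℕ → ℕ → ℕ → Bool := onCell 1073741824 536870912 0 536870912 587336777 62277027
    (rowB 3 eng mog cd1q0 cd3q2a pd2 2 false true false .pp 0 2 2 (qsf 0 536870912 0 536870912 2) ndB1q0 ndB3q2a pcB2 cut_pm_022_a Ext.none)

def k0_pm_022_a : ∃ t, chk3 f_pm_022_a t 1 1 1 = true :=
  ⟨(a (b (a (a (b (a (b (l 16461480) (a (l 16411232) (l 16418760))) (b (l 16429040) (l 16470824))) (b (a (a (l 16416904) (l 16426768)) (a (l 16435840) (l 16444496))) (a (a (l 16436528) (l 16448776)) (b (l 16457256) (l 16473904))))) (b (a (b (l 16437808) (l 16441504)) (b (l 16446000) (l 16473840))) (b (a (l 16477840) (a (l 16468024) (l 16537504))) (a (b (l 16476800) (l 16495336)) (b (l 16514664) (l 16555688)))))) (a (b (b (a (c (l 16455744) (l 16449752)) (l 1)) (a (a (l 16459816) (b (l 16459480) (l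 16467168))) (l 1))) (a (b (a (l 16501240) (l 133713959239)) (b (l 200285976967) (l 411276169111))) (l 1))) (l 1))) (a (b (a (a (b (b (l 16489824) (l 16534608)) (b (l 16563680) (a (l 16547976) (l 16565064)))) (b (b (l 16494952) (l 16541824)) (a (b (l 16544768) (l 16602240)) (b (l 16580080) (l 16596560))))) (b (a (b (a (l 16512704) (l 16523576)) (l 16566944)) (a (b (l 16533536) (l 232498264135)) (b (l 263636737879) (l 1)))) (a (b (a (l 16572552) (l 197601695751)) (a (a (l 16607160) (l 292627860151)) (l 473016463639))) (b (a (l 501470611031) (l 1)) (l 1))))) (a (b (b (a (a (l 16609592) (l 16638288)) (a (l 16666008) (a (l 16657088) (b (l 16630440) (l 395707132711))))) (a (l 6) (a (l 6) (a (l 6) (a (l 6) (l 1)))))) (a (l 6) (a (l 6) (l 1)))) (b (b (a (a (b (l 398928328567) (l 470332229927)) (l 1)) (l 1)) (l 1)) (l 1)))) (b (l 1) (l 1)))) (l 1)), by decide +kernel⟩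

theorem c_pm_022_a : CertB 0 536870912 0 536870912 587336777 62277027 3 eng mog cd1q0 cd3q2a pd2 false true false .pp 0 2 2
    ndB1q0 ndB3q2a pcB2 cut_pm_022_a Ext.none :=
  certB2 (fam := false) (s1 := true) (s2 := false) (a := 0) (b := 2) (c := 2) (cn := .pp) (n1 := ndB1q0) (n2 := ndB3q2a) (pc := pcB2) (cut := cut_pm_022_a) (xt := Ext.none) (P1 := 0) (W1 := 536870912) (P2 := 0) (W2 := 536870912) (P3 := 587336777) (W3 := 62277027) (N0 := 3) (En := eng) (mo := mog) (C1 := cd1q0) (C2 := cd3q2a) (C3 := pd2)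
    rfl (fun _ => rfl) k0_pm_022_a

noncomputable def cut_pm_022_b : Cut := Cut.of [[⟨0, 0, 0, 67108864⟩, ⟨1, 1, 0, 67108864⟩, ⟨2, 1, 0, 67108864⟩]]

noncomputable def f_pm_022_b : ℕ → ℕ → ℕ → ℕ → Bool := onCell 1073741824 536870912 1239849684 370763052 587336777 62277027
    (rowB 3 eng mog cd1q0 cd3q2b pd2 2 false true false .pp 0 2 2 (qsf 0 536870912 1239849684 370763052 2) ndB1q0 ndB3q2b pcB2 cut_pm_022_b Ext.none)

def k0_pm_022_b : ∃ t, chk3 f_pm_022_b t 1 1 1 = true :=
  ⟨(a (a (b (b (a (b (a (b (l 16404416) (l 16366960)) (l 16454496)) (a (l 16320480) (l 16323192))) (b (a (b (l 16417352) (l 16376808)) (b (l 16423568) (l 16381144))) (a (l 16325216) (l 16326088)))) (a (b (a (l 16278104) (l 16274752)) (a (l 16256744) (l 16248752))) (b (l 16291904) (l 16235232)))) (b (a (a (l 16263784) (l 16371912)) (b (l 16220080) (l 16224680))) (a (b (l 16298296) (l 16346184)) (b (l 16245272) (l 16281112))))) (b (b (a (a (b (b (l 16428568) (l 16385800)) (l 16327336))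 (c (b (a (l 115997087591) (l 99890915159)) (l 16337200)) (b (a (l 16426192) (l 16485440)) (l 16343048)))) (a (b (b (l 1) (l 167536718759)) (l 16368168)) (b (l 1) (l 269005151703)))) (a (a (l 16304904) (a (l 16236960) (l 16234496))) (b (l 16331752) (a (l 16203184) (l 16188560))))) (a (b (a (l 16193840) (l 16198720)) (a (l 16219680) (l 16193712))) (b (b (l 16162272) (l 16146448)) (l 16161024))))) (b (a (b (l 1) (a (a (l 133176673623) (l 260414872279)) (a (l 426844672615) (l 1)))) (l 1)) (a (a (b (b (l 16108936) (l 16083960)) (l 16213904)) (b (a (l 16162624) (l 178273767495)) (a (l 16005984) (l 15930912)))) (a (a (b (l 284573731671) (l 15952264)) (b (l 321080963255) (l 16042256))) (b (l 1) (a (l 259877930103) (l 293163993431))))))), by decide +kernel⟩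

theorem c_pm_022_b : CertB 0 536870912 1239849684 370763052 587336777 62277027 3 eng mog cd1q0 cd3q2b pd2 false true false .pp 0 2 2
    ndB1q0 ndB3q2b pcB2 cut_pm_022_b Ext.none :=
  certB2 (fam := false) (s1 := true) (s2 := false) (a := 0) (b := 2) (c := 2) (cn := .pp) (n1 := ndB1q0) (n2 := ndB3q2b) (pc := pcB2) (cut := cut_pm_022_b) (xt := Ext.none) (P1 := 0) (W1 := 536870912) (P2 := 1239849684) (W2 := 370763052) (P3 := 587336777) (W3 := 62277027) (N0 := 3) (En := eng) (mo := mog) (C1 := cd1q0) (C2 := cd3q2b) (C3 := pd2)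
    rfl (fun _ => rfl) k0_pm_022_b

noncomputable def f_pm_023 : ℕ → ℕ → ℕ → ℕ → Bool := onCell 0 536870912 1073741824 536870912 587336777 62277027
    (rowB 3 eng mog cd1q0 cd3q3 pd2 1 false true false .up 0 2 3 (qsf 0 536870912 1610612736 536870912 2) ndB1q0 ndB3q3 pcB2 Cut.none Ext.none)

def k0_pm_023 : ∃ t, chk3 f_pm_023 t 1 1 1 = true :=
  ⟨(b (a (b (l 1) (a (l 1) (b (l 1) (l 214244266855)))) (b (a (b (l 1) (l 186864013383)) (a (l 176126527223) (l 156262362951))) (a (b (l 163241639623) (l 16176880)) (b (l 16292408) (l 16330480))))) (b (a (a (b (l 1) (l 266857271223)) (b (l 214244124263) (l 224981040999))) (a (b (l 16160920) (l 16205928)) (b (l 16424472) (l 16507752)))) (a (a (b (l 295848363463) (a (l 340408573367) (l 15984664))) (b (l 15939184) (l 16195584))) (a (b (l 16373768) (l 16492024)) (l 16617648))))), by decide +kernel⟩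

theorem c_pm_023 : CertB 0 536870912 1610612736 536870912 587336777 62277027 3 eng mog cd1q0 cd3q3 pd2 false true false .up 0 2 3
    ndB1q0 ndB3q3 pcB2 Cut.none Ext.none :=
  certB1 (fam := false) (s1 := true) (s2 := false) (a := 0) (b := 2) (c := 3) (cn := .up) (n1 := ndB1q0) (n2 := ndB3q3) (pc := pcB2) (cut := Cut.none) (xt := Ext.none) (P1 := 0) (W1 := 536870912) (P2 := 1610612736) (W2 := 536870912) (P3 := 587336777) (W3 := 62277027) (N0 := 3) (En := eng) (mo := mog) (C1 := cd1q0) (C2 := cd3q3) (C3 := pd2)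
    rfl (fun _ => rfl) k0_pm_023

noncomputable def f_pm_033 : ℕ → ℕ → ℕ → ℕ → Bool := onCell 0 536870912 1610612736 536870912 587336777 62277027
    (rowB 3 eng mog cd1q0 cd3q3 pd3 1 false true false .pnn 0 3 3 (qsf 0 536870912 1610612736 536870912 3) ndB1q0 ndB3q3 pcB3 Cut.none Ext.none)

def k0_pm_033 : ∃ t, chk3 f_pm_033 t 1 1 1 = true :=
  ⟨(a (b (b (b (a (l 4) (l 16613632)) (a (l 4) (l 4))) (l 4)) (b (l 4) (a (l 4) (a (b (l 4) (l 2)) (l 2))))) (b (a (b (b (l 16565464) (l 16610848)) (b (l 16641656) (l 16662048))) (b (b (l 16680488) (l 16705808)) (a (b (l 16703304) (l 2)) (l 2)))) (a (b (a (b (l 4) (l 2)) (l 2)) (l 2)) (l 2)))), by decide +kernel⟩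

theorem c_pm_033 : CertB 0 536870912 1610612736 536870912 587336777 62277027 3 eng mog cd1q0 cd3q3 pd3 false true false .pnn 0 3 3
    ndB1q0 ndB3q3 pcB3 Cut.none Ext.none :=
  certB1 (fam := false) (s1 := true) (s2 := false) (a := 0) (b := 3) (c := 3) (cn := .pnn) (n1 := ndB1q0) (n2 := ndB3q3) (pc := pcB3) (cut := Cut.none) (xt := Ext.none) (P1 := 0) (W1 := 536870912) (P2 := 1610612736) (W2 := 536870912) (P3 := 587336777) (W3 := 62277027) (N0 := 3) (En := eng) (mo := mog) (C1 := cd1q0) (C2 := cd3q3) (C3 := pd3)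
    rfl (fun _ => rfl) k0_pm_033

noncomputable def f_pm_101 : ℕ → ℕ → ℕ → ℕ → Bool := onCell 0 536870912 536870912 536870912 587336777 62277027
    (rowB 3 eng mog cd1q1 cd3q1 pd0 2 false true false .npn 1 0 1 (qsf 536870912 536870912 536870912 536870912 0) ndB1q1 ndB3q1 pcB0 Cut.none Ext.none)

def k0_pm_101 : ∃ t, chk3 f_pm_101 t 1 1 1 = true :=
  ⟨(b (l 4) (a (a (b (a (b (l 4) (a (b (l 4) (a (l 16468896) (l 4))) (l 4))) (l 4)) (a (b (b (a (a (l 16452560) (l 16450648)) (a (l 16448960) (l 16447592))) (a (l 16453784) (l 16435096))) (b (a (a (l 16471072) (l 16458776)) (l 16437896)) (a (b (l 16480480) (a (b (l 16494176) (l 16497240)) (l 16474816))) (a (l 16454632) (l 16433952))))) (b (b (l 4) (a (a (l 16419744) (l 16411024)) (l 16400944))) (a (b (l 16405472) (l 16401368)) (b (l 16371592) (l 16356480)))))) (b (l 4) (b (l 4) (a (a (b (l 16342952) (l 16312192)) (b (l 16318880) (l 16270832))) (a (l 16416048) (l 16241176)))))) (a (l 4) (l 4)))), by decide +kernel⟩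

theorem c_pm_101 : CertB 536870912 536870912 536870912 536870912 587336777 62277027 3 eng mog cd1q1 cd3q1 pd0 false true false .npn 1 0 1
    ndB1q1 ndB3q1 pcB0 Cut.none Ext.none :=
  certB2 (fam := false) (s1 := true) (s2 := false) (a := 1) (b := 0) (c := 1) (cn := .npn) (n1 := ndB1q1) (n2 := ndB3q1) (pc := pcB0) (cut := Cut.none) (xt := Ext.none) (P1 := 536870912) (W1 := 536870912) (P2 := 536870912) (W2 := 536870912) (P3 := 587336777) (W3 := 62277027) (N0 := 3) (En := eng) (mo := mog) (C1 := cd1q1) (C2 := cd3q1) (C3 := pd0)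
    rfl (fun _ => rfl) k0_pm_101

noncomputable def f_pm_102_a : ℕ → ℕ → ℕ → ℕ → Bool := onCell 536870912 536870912 0 536870912 587336777 62277027
    (rowB 3 eng mog cd1q1 cd3q2a pd0 0 false true false .npp 1 0 2 (qsf 536870912 536870912 0 536870912 0) ndB1q1 ndB3q2a pcB0 Cut.none Ext.none)

def k0_pm_102_a : ∃ t, chk3 f_pm_102_a t 2 1 1 = true :=
  ⟨(b (a (b (l 2) (a (l 2) (l 16584232))) (b (a (b (a (l 16707664) (l 16728520)) (l 16677104)) (b (a (l 16744360) (l 16751504)) (a (l 16718952) (l 16739048)))) (a (b (l 16630664) (l 16613976)) (b (a (l 16669360) (l 16706184)) (l 16697248))))) (a (b (a (l 2) (b (l 16578800) (b (a (l 16572512) (l 16572408)) (l 16528128)))) (a (b (b (l 16533040) (a (l 2) (l 16439760))) (b (a (l 16392264) (l 16420232)) (a (b (l 16379104) (a (l 16367128) (l 16387576))) (b (l 16416376) (a (l 16408936) (l 16428552)))))) (b (b (a (l 16487680) (l 16524392)) (a (l 16462936) (l 16514008))) (b (a (l 16472464) (l 16495088)) (a (a (l 16446536)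 (l 16476512)) (a (b (l 16508576) (l 16519816)) (b (l 16543024) (c (l 16585192) (l 16520216))))))))) (b (b (a (l 16604944) (l 16644760)) (a (b (l 16601984) (l 16597512)) (b (l 16645096) (a (l 16637040) (l 16660592))))) (a (b (a (b (l 16568920) (l 16566224)) (b (l 16604992) (b (l 16606208) (l 16608920)))) (b (a (a (l 16560712) (a (l 16579592) (l 16590768))) (b (l 16612552) (l 16616344))) (a (b (a (l 16571592) (l 16594216)) (a (b (l 16577944) (l 16582032)) (l 16600280))) (c (l 16650568) (l 16599704))))) (a (b (b (l 16637416) (l 16640048)) (b (l 16646784) (a (l 16650560) (l 16665680)))) (b (l 16665128) (b (l 16674080) (b (l 16682504) (a (l 16683128) (l 16696072)))))))))), by decide +kernel⟩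

def k1_pm_102_a : ∃ t, chk3 f_pm_102_a t 6 2 1 = true :=
  ⟨(b (a (a (b (b (l 16744784) (l 16748328)) (l 16748904)) (b (a (l 16736328) (b (a (l 16724104) (l 16717472)) (l 16730008))) (b (l 16741696) (l 16746392)))) (a (b (a (b (a (l 16710792) (b (l 16701168) (l 16706432))) (b (l 16714864) (l 16719896))) (b (a (l 93046266359) (b (l 131700960295) (l 16691984))) (b (a (l 16704560) (l 16697328)) (l 16706160)))) (a (l 16731256) (b (b (l 16711416) (l 16716552)) (l 16723848)))) (b (a (b (b (l 3) (a (l 128479733703) (l 129553464423))) (a (l 16692704) (b (l 126869118839) (l 16687944)))) (b (l 3) (a (b (l 118279170823) (l 125795374567)) (b (l 3) (l 117205424615))))) (b (a (b (a (l 16700800) (l 16693480)) (l 16702512)) (a (b (l 16685920) (l 16691608)) (b (l 124721629703) (l 16683936)))) (a (l 16710744) (a (b (l 16697128) (l 16702792)) (b (l 16689776) (l 16695368)))))))) (a (b (a (l 16733520) (b (l 16747736) (l 16744696))) (a (l 16689016) (b (l 16735024) (l 16713160))))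 (b (a (b (l 16737504) (l 16743344)) (b (l 16714576) (a (l 16730568) (l 16718664)))) (a (b (l 16745344) (l 16741944)) (b (l 16734248) (l 16741160)))))), by decide +kernel⟩

def k2_pm_102_a : ∃ t, chk3 f_pm_102_a t 7 2 1 = true :=
  ⟨(a (b (a (b (l 3) (a (b (a (b (l 115594807607) (l 123111014391)) (b (l 3) (l 113984190807))) (a (b (l 16682024) (l 16687984)) (b (l 122574141255) (l 16680192)))) (b (l 3) (b (a (l 113447316087) (l 3)) (a (l 120963526375) (l 3)))))) (l 3)) (a (b (a (b (a (b (l 16693696) (l 16699648)) (b (l 16686288) (l 16692120))) (l 16704896)) (b (b (a (l 16678480) (l 110226106343)) (a (l 16684704) (l 16676936))) (a (b (l 16690656) (l 16696920)) (b (l 16683248) (l 16689352))))) (a (b (l 16716648) (l 16727768)) (b (l 16702648) (l 16715120)))) (b (a (b (a (b (l 3) (l 119352909527)) (l 3)) (b (a (l 16675584) (l 117205374551)) (a (l 16681984) (l 16674480)))) (b (l 3) (a (b (l 3) (l 125258424823)) (l 3)))) (a (b (a (b (l 16688232) (l 16694792)) (b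 (l 16680936) (l 16687304))) (l 16701056)) (b (a (b (l 16656608) (l 16722088)) (b (a (l 116668500439) (l 157470737047)) (b (l 16671544) (l 16674744)))) (a (b (l 16686680) (l 16693568)) (b (a (l 16681496) (l 16678064)) (a (l 16688280) (l 16684784))))))))) (b (l 3) (a (b (l 3) (a (b (a (b (l 3) (a (l 125795313031) (l 3))) (l 3)) (a (a (b (l 16674656) (l 16681432)) (b (l 16671400) (l 16678072))) (b (a (l 16668336) (l 3)) (a (l 16674776) (l 16671648))))) (b (l 3) (a (b (l 3) (a (l 149417671399) (l 3))) (l 3))))) (l 3)))), by decide +kernel⟩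

def k3_pm_102_a : ∃ t, chk3 f_pm_102_a t 6 3 1 = true :=
  ⟨(b (a (a (b (l 16675168) (l 16676568)) (b (l 16694104) (l 16694920))) (b (a (b (l 16727344) (l 16707128)) (b (l 16744192) (l 16738520))) (a (l 16704096) (l 16714184)))) (b (a (a (b (l 16686888) (l 16689856)) (b (l 16705624) (l 16708616))) (b (a (l 16713128) (l 16717264)) (l 16720800))) (a (b (a (b (l 16695072) (l 16700080)) (l 16716624)) (a (b (l 16706344) (a (l 16708160) (l 16719320))) (l 16729392))) (b (l 16749416) (a (l 16738408) (l 16743304)))))), by decide +kernel⟩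

def k4_pm_102_a : ∃ t, chk3 f_pm_102_a t 7 6 1 = true :=
  ⟨(a (b (a (b (a (l 16737336) (l 16727120)) (a (l 16743840) (l 16737424))) (a (b (l 16756216) (l 16727128)) (b (a (l 16703888) (l 16696888)) (b (l 16710720) (l 16717744))))) (a (a (l 16732376) (b (l 16744616) (l 16739136))) (b (a (b (l 16735896) (l 16741200)) (b (l 16724568) (l 16731168))) (a (l 16745440) (b (l 16737672) (l 16742640)))))) (a (b (a (a (b (b (a (l 16688224) (l 16684840)) (l 16693424)) (l 16725024)) (b (b (a (l 16681560) (l 16678320)) (a (l 16688392) (l 16685128))) (l 16697368))) (b (a (b (a (l 16675184) (l 16672168)) (a (l 16640000) (l 16678856))) (b (a (l 139217112951) (l 3)) (a (l 16675864) (l 176798171319)))) (a (b (a (l 16688864) (l 16685712)) (l 16694400)) (b (a (b (l 16680920) (l 16684336)) (b (l 16677992) (l 16681384))) (a (l 16689848) (b (l 16684816) (l 16688384))))))) (b (a (b (l 16732616) (l 16718936)) (a (b (l 16701776) (l 16709416)) (b (l 16695432) (l 16702800)))) (a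 (b (a (l 16729184) (l 16722920)) (l 16733120)) (b (a (l 16716616) (l 16710248)) (a (l 16723584) (l 16717024)))))) (b (a (b (l 3) (a (b (a (l 177335044967) (l 178408779719)) (a (b (l 16681920) (l 16685376)) (l 173576949927))) (b (l 3) (a (l 175187554183) (l 153175797735))))) (l 3)) (b (a (a (b (a (l 16691032) (l 16708968)) (l 16696608)) (b (a (b (l 16683232) (l 16686776)) (l 166060726983)) (a (l 16692480) (l 16710552)))) (a (b (l 149417748855) (a (l 140827832567) (l 170355691879))) (b (l 3) (l 154249526407)))) (a (b (a (b (l 16701976) (l 16705632)) (l 16697944)) (a (l 16710968) (l 16704856))) (a (b (a (l 16693976) (l 16711936)) (a (l 16700352) (l 16697760))) (b (a (l 141364669511) (l 167134483175)) (a (l 16695312) (b (l 16690368) (l 16694272)))))))))), by decide +kernel⟩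

def k5_pm_102_a : ∃ t, chk3 f_pm_102_a t 7 7 1 = true :=
  ⟨(a (b (a (b (l 16743360) (l 16770392)) (b (a (l 16733288) (l 16746240)) (b (l 16836200) (l 16730904)))) (b (a (l 16733488) (l 16734680)) (a (l 16746040) (l 16746432)))) (b (a (b (a (b (l 16738904) (l 16743768)) (b (a (l 16730296) (l 16724296)) (l 16733752))) (b (a (l 16745952) (l 16740040)) (a (l 16739088) (l 16787248)))) (b (a (b (a (l 16717768) (b (l 16709944) (l 16713248))) (a (l 16724664) (b (l 16716912) (l 16720272)))) (b (a (b (l 16725104) (l 16707608)) (b (l 16698696) (a (l 16703296) (l 16700584)))) (a (b (l 16710736) (l 16714416)) (a (b (l 16706656) (l 16709952)) (b (l 16704016) (l 16707320)))))) (a (b (l 16728560) (a (l 16738296) (l 16753416))) (b (a (l 16719616) (b (a (l 16713736) (l 16710792)) (l 16715680))) (b (a (l 16724944) (l 16719208)) (a (l 16728456) (l 16722608))))))) (a (b (a (l 16734896) (l 16737432)) (b (l 16740376) (l 16747160))) (b (a (l 16742432) (a (l 16734896) (l 16729216)))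 (a (b (l 16737696) (l 16742280)) (b (a (l 16741040) (l 16735872)) (a (l 16743384) (l 16739032)))))))), by decide +kernel⟩

theorem s6_pm_102_a : ∃ t, chk3 f_pm_102_a t 7 3 1 = true := ex3_b k4_pm_102_a k5_pm_102_a

theorem s7_pm_102_a : ∃ t, chk3 f_pm_102_a t 3 3 1 = true := ex3_a k3_pm_102_a s6_pm_102_a

theorem s8_pm_102_a : ∃ t, chk3 f_pm_102_a t 3 2 1 = true := ex3_a k1_pm_102_a k2_pm_102_a

theorem s9_pm_102_a : ∃ t, chk3 f_pm_102_a t 3 1 1 = true := ex3_b s8_pm_102_a s7_pm_102_a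

theorem s10_pm_102_a : ∃ t, chk3 f_pm_102_a t 1 1 1 = true := ex3_a k0_pm_102_a s9_pm_102_a

theorem c_pm_102_a : CertB 536870912 536870912 0 536870912 587336777 62277027 3 eng mog cd1q1 cd3q2a pd0 false true false .npp 1 0 2
    ndB1q1 ndB3q2a pcB0 Cut.none Ext.none :=
  certB0 (fam := false) (s1 := true) (s2 := false) (a := 1) (b := 0) (c := 2) (cn := .npp) (n1 := ndB1q1) (n2 := ndB3q2a) (pc := pcB0) (cut := Cut.none) (xt := Ext.none) (P1 := 536870912) (W1 := 536870912) (P2 := 0) (W2 := 536870912) (P3 := 587336777) (W3 := 62277027) (N0 := 3) (En := eng) (mo := mog) (C1 := cd1q1) (C2 := cd3q2a) (C3 := pd0)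
    rfl s10_pm_102_a

noncomputable def f_pm_102_b : ℕ → ℕ → ℕ → ℕ → Bool := onCell 536870912 536870912 0 536870912 587336777 62277027
    (rowB 3 eng mog cd1q1 cd3q2b pd0 1 false true false .npp 1 0 2 (qsf 536870912 536870912 1239849684 370763052 0) ndB1q1 ndB3q2b pcB0 Cut.none Ext.none)

def k0_pm_102_b : ∃ t, chk3 f_pm_102_b t 1 1 1 = true :=
  ⟨(a (b (l 1) (b (l 1) (a (l 1) (a (b (l 1) (a (l 321082215383) (a (l 232498565927) (l 197601951287)))) (a (b (b (l 1) (l 195991360439)) (l 68752973319)) (b (b (l 177201034215) (l 16751320)) (l 16733592))))))) (a (b (l 1) (a (b (b (l 1) (a (b (l 1) (b (l 1) (l 16756040))) (a (b (l 1) (l 16732264)) (b (b (l 1) (l 16725488)) (l 16751384))))) (b (b (a (l 16741152) (l 16702000)) (l 16706168)) (b (l 16693560) (l 16685008)))) (a (b (b (a (l 1) (a (l 1) (l 3))) (b (a (b (l 16711736) (l 16700864)) (b (a (b (l 16699464) (l 16690080)) (l 151028336903)) (a (l 16682112) (l 155323280247)))) (a (b (l 16690448) (l 16680768))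 (b (a (l 16672016) (l 162302580631)) (l 16677544))))) (b (a (b (b (l 16672032) (l 16664008)) (l 16653080)) (b (b (l 16648096) (l 16640320)) (l 16629752))) (b (a (l 16642240) (l 16619672)) (l 16666584)))) (b (b (l 3) (b (l 3) (a (b (l 159618162391) (l 146196371127)) (l 3)))) (b (b (a (b (l 155323199063) (l 158007543111)) (l 3)) (a (b (l 164449978375) (l 16602760)) (a (l 199883460935) (l 3)))) (a (b (l 16595616) (l 16590624)) (b (b (l 172502977543) (l 171966099543)) (b (l 16567184) (l 16566528))))))))) (b (l 3) (b (l 3) (b (l 3) (a (a (b (l 3) (a (a (l 202567740791) (l 3)) (l 3))) (l 3)) (l 3))))))), by decide +kernel⟩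

theorem c_pm_102_b : CertB 536870912 536870912 1239849684 370763052 587336777 62277027 3 eng mog cd1q1 cd3q2b pd0 false true false .npp 1 0 2
    ndB1q1 ndB3q2b pcB0 Cut.none Ext.none :=
  certB1 (fam := false) (s1 := true) (s2 := false) (a := 1) (b := 0) (c := 2) (cn := .npp) (n1 := ndB1q1) (n2 := ndB3q2b) (pc := pcB0) (cut := Cut.none) (xt := Ext.none) (P1 := 536870912) (W1 := 536870912) (P2 := 1239849684) (W2 := 370763052) (P3 := 587336777) (W3 := 62277027) (N0 := 3) (En := eng) (mo := mog) (C1 := cd1q1) (C2 := cd3q2b) (C3 := pd0)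
    rfl (fun _ => rfl) k0_pm_102_b

noncomputable def f_pm_112_a : ℕ → ℕ → ℕ → ℕ → Bool := onCell 536870912 536870912 0 536870912 587336777 62277027
    (rowB 3 eng mog cd1q1 cd3q2a pd1 2 false true false .dn 1 1 2 (qsf 536870912 536870912 0 536870912 1) ndB1q1 ndB3q2a pcB1 Cut.none Ext.none)

def k0_pm_112_a : ∃ t, chk3 f_pm_112_a t 1 1 1 = true :=
  ⟨(a (b (a (b (a (b (a (l 16681712) (l 16666144)) (l 16638728)) (l 16623936)) (a (l 16609872) (l 16543488))) (a (b (l 69289705447) (l 109554853943)) (l 1))) (b (a (a (b (l 16478552) (l 16454824)) (b (l 16473992) (l 16431384))) (l 1)) (a (a (b (a (l 16345712) (l 16365504)) (a (l 16280016) (l 186326916871))) (b (l 188474796983) (l 1))) (l 1)))) (l 1)), by decide +kernel⟩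

theorem c_pm_112_a : CertB 536870912 536870912 0 536870912 587336777 62277027 3 eng mog cd1q1 cd3q2a pd1 false true false .dn 1 1 2
    ndB1q1 ndB3q2a pcB1 Cut.none Ext.none :=
  certB2 (fam := false) (s1 := true) (s2 := false) (a := 1) (b := 1) (c := 2) (cn := .dn) (n1 := ndB1q1) (n2 := ndB3q2a) (pc := pcB1) (cut := Cut.none) (xt := Ext.none) (P1 := 536870912) (W1 := 536870912) (P2 := 0) (W2 := 536870912) (P3 := 587336777) (W3 := 62277027) (N0 := 3) (En := eng) (mo := mog) (C1 := cd1q1) (C2 := cd3q2a) (C3 := pd1)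
    rfl (fun _ => rfl) k0_pm_112_a

noncomputable def f_pm_112_b : ℕ → ℕ → ℕ → ℕ → Bool := onCell 536870912 536870912 1239849684 370763052 587336777 62277027
    (rowB 3 eng mog cd1q1 cd3q2b pd1 0 false true false .dn 1 1 2 (qsf 536870912 536870912 1239849684 370763052 1) ndB1q1 ndB3q2b pcB1 Cut.none Ext.none)

def k0_pm_112_b : ∃ t, chk3 f_pm_112_b t 1 1 1 = true :=
  ⟨(a (b (a (a (b (b (l 16637632) (l 16626680)) (l 16604256)) (b (a (l 16664672) (l 16726496)) (a (l 16651560) (l 16680152)))) (b (a (b (l 107944594039) (l 16709512)) (a (l 224982491175) (l 228740579655))) (a (b (l 16710864) (l 16714856)) (a (l 16727472) (l 16808112))))) (a (b (a (b (l 16579928) (l 16565472)) (b (l 16662224) (l 16662848))) (a (l 16547112) (b (l 16688392) (l 16676568)))) (b (a (a (l 16718408) (l 16745264)) (b (l 16749600) (l 16779488))) (a (b (l 16767520) (l 16800576)) (l 16851088))))) (b (a (b (l 1) (a (a (l 106870994199) (l 187938392343)) (b (l 1) (a (a (l 16658720) (l 1))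 (l 1))))) (l 1)) (a (a (b (a (l 16743288) (l 16708960)) (a (l 16848064) (l 16814336))) (b (a (b (a (l 16663184) (l 119218740535)) (l 16671704)) (b (a (b (l 16607312) (l 16610848)) (b (l 1) (l 293164775959))) (a (b (l 16617608) (l 16628920)) (b (l 16581416) (l 16592072))))) (a (l 16750424) (b (a (l 16658728) (l 16619656)) (a (l 16727000) (l 16677848)))))) (a (b (b (l 1) (a (a (b (a (l 147806915735) (l 224042465255)) (a (l 16561472) (l 159618056983))) (l 3)) (l 3))) (a (b (a (b (l 121500268743) (l 16585304)) (b (l 175724068295) (l 151564990151))) (a (l 16628224) (b (l 135995735783) (l 123647773559)))) (b (l 3) (a (l 175187214103) (l 3))))) (l 3))))), by decide +kernel⟩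

theorem c_pm_112_b : CertB 536870912 536870912 1239849684 370763052 587336777 62277027 3 eng mog cd1q1 cd3q2b pd1 false true false .dn 1 1 2
    ndB1q1 ndB3q2b pcB1 Cut.none Ext.none :=
  certB0 (fam := false) (s1 := true) (s2 := false) (a := 1) (b := 1) (c := 2) (cn := .dn) (n1 := ndB1q1) (n2 := ndB3q2b) (pc := pcB1) (cut := Cut.none) (xt := Ext.none) (P1 := 536870912) (W1 := 536870912) (P2 := 1239849684) (W2 := 370763052) (P3 := 587336777) (W3 := 62277027) (N0 := 3) (En := eng) (mo := mog) (C1 := cd1q1) (C2 := cd3q2b) (C3 := pd1)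
    rfl k0_pm_112_b

noncomputable def f_pm_113 : ℕ → ℕ → ℕ → ℕ → Bool := onCell 536870912 536870912 536870912 536870912 587336777 62277027
    (rowB 3 eng mog cd1q1 cd3q3 pd1 1 false true false .nn 1 1 3 (qsf 536870912 536870912 1610612736 536870912 1) ndB1q1 ndB3q3 pcB1 Cut.none Ext.none)

def k0_pm_113 : ∃ t, chk3 f_pm_113 t 1 1 1 = true :=
  ⟨(b (a (b (l 1) (a (l 1) (a (l 1) (l 86469876967)))) (b (a (b (l 1) (a (l 1) (a (l 1) (b (l 1) (l 16729208))))) (a (a (b (l 1) (a (l 127808548263) (b (l 16629584) (l 16691160)))) (a (b (l 1) (b (l 297593940695) (l 16674680))) (l 3))) (l 3))) (a (b (a (l 16815816) (b (a (l 16805520) (l 16798856)) (l 16885216))) (a (l 16932672) (l 17018336))) (b (a (a (b (l 16779600) (l 16833016)) (b (b (l 203641724903) (l 16719728)) (a (l 16788344) (l 247665244647)))) (l 3)) (a (b (a (l 16880832) (b (l 16807752) (l 16829216))) (a (l 16927072) (b (l 16851040) (l 16872360)))) (a (b (a (l 294909911303) (l 3)) (a (l 16813784) (l 308331701543)))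 (l 3))))))) (b (a (a (b (l 1) (a (l 1) (l 150357317863))) (b (a (l 16745528) (l 16891808)) (a (l 16771472) (l 16874304)))) (a (b (a (l 17016552) (l 17119912)) (a (l 16940944) (l 17007640))) (b (a (a (l 16985600) (b (l 16899504) (l 16928256))) (a (b (b (l 246054803911) (l 16845000)) (a (l 16882720) (l 16854776))) (b (l 3) (a (l 270750901367) (l 3))))) (b (a (l 16840488) (a (a (l 16910040) (l 16881312)) (a (l 16855944) (l 262697801255)))) (a (l 17013536) (a (a (l 16926856) (l 16898368)) (a (l 16872344) (l 16849216)))))))) (a (a (a (a (l 88080089175) (l 16520376)) (b (l 16624224) (l 16613504))) (a (b (l 16753288) (l 16715976)) (b (l 16829864) (l 16788792)))) (a (a (b (l 16882464) (l 16833392)) (b (l 16925544) (l 16860800))) (a (b (l 16948608) (l 16864600)) (b (b (a (l 16918864) (a (l 16877184) (l 16853592))) (a (l 16916232) (a (l 16870120) (l 16845760)))) (a (l 16848968) (b (l 16841912) (l 16807816))))))))), by decide +kernel⟩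

theorem c_pm_113 : CertB 536870912 536870912 1610612736 536870912 587336777 62277027 3 eng mog cd1q1 cd3q3 pd1 false true false .nn 1 1 3
    ndB1q1 ndB3q3 pcB1 Cut.none Ext.none :=
  certB1 (fam := false) (s1 := true) (s2 := false) (a := 1) (b := 1) (c := 3) (cn := .nn) (n1 := ndB1q1) (n2 := ndB3q3) (pc := pcB1) (cut := Cut.none) (xt := Ext.none) (P1 := 536870912) (W1 := 536870912) (P2 := 1610612736) (W2 := 536870912) (P3 := 587336777) (W3 := 62277027) (N0 := 3) (En := eng) (mo := mog) (C1 := cd1q1) (C2 := cd3q3) (C3 := pd1)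
    rfl (fun _ => rfl) k0_pm_113

noncomputable def f_pm_123 : ℕ → ℕ → ℕ → ℕ → Bool := onCell 1073741824 536870912 1610612736 536870912 587336777 62277027
    (rowB 3 eng mog cd1q1 cd3q3 pd2 2 false true false .npn 1 2 3 (qsf 536870912 536870912 1610612736 536870912 2) ndB1q1 ndB3q3 pcB2 Cut.none Ext.none)

def k0_pm_123 : ∃ t, chk3 f_pm_123 t 1 1 1 = true :=
  ⟨(a (b (a (b (a (b (l 16408320) (l 16520192)) (l 16532536)) (b (a (l 16627752) (l 16523136)) (a (l 16700656) (l 16606152)))) (b (a (l 181495450951) (l 1)) (a (l 16489472) (l 16450552)))) (a (b (a (b (l 16748240) (l 16775824)) (l 16680576)) (a (b (l 16787048) (a (l 16784672) (l 16760728))) (b (l 16713032) (l 16715640)))) (b (a (l 16762416) (l 16586808)) (a (b (l 16658472) (a (a (l 16692488) (l 16745008)) (l 16669656))) (l 16696136))))) (a (b (a (b (l 1) (l 16437872)) (l 1)) (a (b (l 16571416) (l 16650168)) (b (l 16571176) (l 16651440)))) (b (l 1) (b (l 243236220791) (a (l 16664496) (l 16678576)))))),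 by decide +kernel⟩

theorem c_pm_123 : CertB 536870912 536870912 1610612736 536870912 587336777 62277027 3 eng mog cd1q1 cd3q3 pd2 false true false .npn 1 2 3
    ndB1q1 ndB3q3 pcB2 Cut.none Ext.none :=
  certB2 (fam := false) (s1 := true) (s2 := false) (a := 1) (b := 2) (c := 3) (cn := .npn) (n1 := ndB1q1) (n2 := ndB3q3) (pc := pcB2) (cut := Cut.none) (xt := Ext.none) (P1 := 536870912) (W1 := 536870912) (P2 := 1610612736) (W2 := 536870912) (P3 := 587336777) (W3 := 62277027) (N0 := 3) (En := eng) (mo := mog) (C1 := cd1q1) (C2 := cd3q3) (C3 := pd2)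
    rfl (fun _ => rfl) k0_pm_123

noncomputable def f_pm_133 : ℕ → ℕ → ℕ → ℕ → Bool := onCell 1610612736 536870912 1610612736 536870912 587336777 62277027
    (rowB 3 eng mog cd1q1 cd3q3 pd3 2 false true false .dn 1 3 3 (qsf 536870912 536870912 1610612736 536870912 3) ndB1q1 ndB3q3 pcB3 Cut.none Ext.none)

def k0_pm_133 : ∃ t, chk3 f_pm_133 t 1 1 1 = true :=
  ⟨(a (b (l 1) (a (a (l 269006156823) (l 1)) (l 1))) (l 1)), by decide +kernel⟩

theorem c_pm_133 : CertB 536870912 536870912 1610612736 536870912 587336777 62277027 3 eng mog cd1q1 cd3q3 pd3 false true false .dn 1 3 3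
    ndB1q1 ndB3q3 pcB3 Cut.none Ext.none :=
  certB2 (fam := false) (s1 := true) (s2 := false) (a := 1) (b := 3) (c := 3) (cn := .dn) (n1 := ndB1q1) (n2 := ndB3q3) (pc := pcB3) (cut := Cut.none) (xt := Ext.none) (P1 := 536870912) (W1 := 536870912) (P2 := 1610612736) (W2 := 536870912) (P3 := 587336777) (W3 := 62277027) (N0 := 3) (En := eng) (mo := mog) (C1 := cd1q1) (C2 := cd3q3) (C3 := pd3)
    rfl (fun _ => rfl) k0_pm_133

noncomputable def cut_pm_202_aa : Cut := Cut.of [[⟨0, 1, 0, 67108864⟩, ⟨1, 0, 0, 67108864⟩, ⟨2, 1, 0, 67108864⟩]]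

noncomputable def f_pm_202_aa : ℕ → ℕ → ℕ → ℕ → Bool := onCell 0 536870912 0 536870912 587336777 62277027
    (rowB 3 eng mog cd1q2a cd3q2a pd0 0 false true false .pp 2 0 2 (qsf 0 536870912 0 536870912 0) ndB1q2a ndB3q2a pcB0 cut_pm_202_aa Ext.none)

def k0_pm_202_aa : ∃ t, chk3 f_pm_202_aa t 1 1 1 = true :=
  ⟨(a (l 3) (b (l 3) (a (l 3) (b (l 3) (a (l 3) (b (l 3) (l 6))))))), by decide +kernel⟩

theorem c_pm_202_aa : CertB 0 536870912 0 536870912 587336777 62277027 3 eng mog cd1q2a cd3q2a pd0 false true false .pp 2 0 2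
    ndB1q2a ndB3q2a pcB0 cut_pm_202_aa Ext.none :=
  certB0 (fam := false) (s1 := true) (s2 := false) (a := 2) (b := 0) (c := 2) (cn := .pp) (n1 := ndB1q2a) (n2 := ndB3q2a) (pc := pcB0) (cut := cut_pm_202_aa) (xt := Ext.none) (P1 := 0) (W1 := 536870912) (P2 := 0) (W2 := 536870912) (P3 := 587336777) (W3 := 62277027) (N0 := 3) (En := eng) (mo := mog) (C1 := cd1q2a) (C2 := cd3q2a) (C3 := pd0)
    rfl k0_pm_202_aa

noncomputable def cut_pm_202_ab : Cut := Cut.of [[⟨0, 1, 0, 67108864⟩, ⟨1, 0, 0, 67108864⟩, ⟨2, 1, 0, 67108864⟩]]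

noncomputable def f_pm_202_ab : ℕ → ℕ → ℕ → ℕ → Bool := onCell 0 536870912 1239849684 370763052 587336777 62277027
    (rowB 3 eng mog cd1q2a cd3q2b pd0 0 false true false .pp 2 0 2 (qsf 0 536870912 1239849684 370763052 0) ndB1q2a ndB3q2b pcB0 cut_pm_202_ab Ext.none)

def k0_pm_202_ab : ∃ t, chk3 f_pm_202_ab t 1 1 1 = true :=
  ⟨(l 3), by decide +kernel⟩

theorem c_pm_202_ab : CertB 0 536870912 1239849684 370763052 587336777 62277027 3 eng mog cd1q2a cd3q2b pd0 false true false .pp 2 0 2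
    ndB1q2a ndB3q2b pcB0 cut_pm_202_ab Ext.none :=
  certB0 (fam := false) (s1 := true) (s2 := false) (a := 2) (b := 0) (c := 2) (cn := .pp) (n1 := ndB1q2a) (n2 := ndB3q2b) (pc := pcB0) (cut := cut_pm_202_ab) (xt := Ext.none) (P1 := 0) (W1 := 536870912) (P2 := 1239849684) (W2 := 370763052) (P3 := 587336777) (W3 := 62277027) (N0 := 3) (En := eng) (mo := mog) (C1 := cd1q2a) (C2 := cd3q2b) (C3 := pd0)
    rfl k0_pm_202_ab

noncomputable def cut_pm_202_ba : Cut := Cut.of [[⟨0, 1, 0, 67108864⟩, ⟨1, 0, 0, 67108864⟩, ⟨2, 1, 0, 67108864⟩]]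

noncomputable def f_pm_202_ba : ℕ → ℕ → ℕ → ℕ → Bool := onCell 1239849684 370763052 0 536870912 587336777 62277027
    (rowB 3 eng mog cd1q2b cd3q2a pd0 0 false true false .pp 2 0 2 (qsf 1239849684 370763052 0 536870912 0) ndB1q2b ndB3q2a pcB0 cut_pm_202_ba Ext.none)

def k0_pm_202_ba : ∃ t, chk3 f_pm_202_ba t 1 1 1 = true :=
  ⟨(l 3), by decide +kernel⟩

theorem c_pm_202_ba : CertB 1239849684 370763052 0 536870912 587336777 62277027 3 eng mog cd1q2b cd3q2a pd0 false true false .pp 2 0 2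
    ndB1q2b ndB3q2a pcB0 cut_pm_202_ba Ext.none :=
  certB0 (fam := false) (s1 := true) (s2 := false) (a := 2) (b := 0) (c := 2) (cn := .pp) (n1 := ndB1q2b) (n2 := ndB3q2a) (pc := pcB0) (cut := cut_pm_202_ba) (xt := Ext.none) (P1 := 1239849684) (W1 := 370763052) (P2 := 0) (W2 := 536870912) (P3 := 587336777) (W3 := 62277027) (N0 := 3) (En := eng) (mo := mog) (C1 := cd1q2b) (C2 := cd3q2a) (C3 := pd0)
    rfl k0_pm_202_ba

noncomputable def cut_pm_202_bb : Cut := Cut.of [[⟨0, 1, 0, 67108864⟩, ⟨1, 0, 0, 67108864⟩, ⟨2, 1, 0, 67108864⟩]]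

noncomputable def f_pm_202_bb : ℕ → ℕ → ℕ → ℕ → Bool := onCell 1239849684 370763052 1239849684 370763052 587336777 62277027
    (rowB 3 eng mog cd1q2b cd3q2b pd0 0 false true false .pp 2 0 2 (qsf 1239849684 370763052 1239849684 370763052 0) ndB1q2b ndB3q2b pcB0 cut_pm_202_bb Ext.none)

def k0_pm_202_bb : ∃ t, chk3 f_pm_202_bb t 1 1 1 = true :=
  ⟨(l 3), by decide +kernel⟩

theorem c_pm_202_bb : CertB 1239849684 370763052 1239849684 370763052 587336777 62277027 3 eng mog cd1q2b cd3q2b pd0 false true false .pp 2 0 2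
    ndB1q2b ndB3q2b pcB0 cut_pm_202_bb Ext.none :=
  certB0 (fam := false) (s1 := true) (s2 := false) (a := 2) (b := 0) (c := 2) (cn := .pp) (n1 := ndB1q2b) (n2 := ndB3q2b) (pc := pcB0) (cut := cut_pm_202_bb) (xt := Ext.none) (P1 := 1239849684) (W1 := 370763052) (P2 := 1239849684) (W2 := 370763052) (P3 := 587336777) (W3 := 62277027) (N0 := 3) (En := eng) (mo := mog) (C1 := cd1q2b) (C2 := cd3q2b) (C3 := pd0)
    rfl k0_pm_202_bb

noncomputable def f_pm_203_a : ℕ → ℕ → ℕ → ℕ → Bool := onCell 0 536870912 0 536870912 587336777 62277027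
    (rowB 3 eng mog cd1q2a cd3q3 pd0 1 false true false .up 2 0 3 (qsf 0 536870912 1610612736 536870912 0) ndB1q2a ndB3q3 pcB0 Cut.none Ext.none)

def k0_pm_203_a : ∃ t, chk3 f_pm_203_a t 1 1 1 = true :=
  ⟨(l 3), by decide +kernel⟩

theorem c_pm_203_a : CertB 0 536870912 1610612736 536870912 587336777 62277027 3 eng mog cd1q2a cd3q3 pd0 false true false .up 2 0 3
    ndB1q2a ndB3q3 pcB0 Cut.none Ext.none :=
  certB1 (fam := false) (s1 := true) (s2 := false) (a := 2) (b := 0) (c := 3) (cn := .up) (n1 := ndB1q2a) (n2 := ndB3q3) (pc := pcB0) (cut := Cut.none) (xt := Ext.none) (P1 := 0) (W1 := 536870912) (P2 := 1610612736) (W2 := 536870912) (P3 := 587336777) (W3 := 62277027) (N0 := 3) (En := eng) (mo := mog) (C1 := cd1q2a) (C2 := cd3q3) (C3 := pd0)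
    rfl (fun _ => rfl) k0_pm_203_a

noncomputable def f_pm_203_b : ℕ → ℕ → ℕ → ℕ → Bool := onCell 1239849684 370763052 1610612736 536870912 587336777 62277027
    (rowB 3 eng mog cd1q2b cd3q3 pd0 0 false true false .up 2 0 3 (qsf 1239849684 370763052 1610612736 536870912 0) ndB1q2b ndB3q3 pcB0 Cut.none Ext.none)

def k0_pm_203_b : ∃ t, chk3 f_pm_203_b t 1 1 1 = true :=
  ⟨(l 3), by decide +kernel⟩

theorem c_pm_203_b : CertB 1239849684 370763052 1610612736 536870912 587336777 62277027 3 eng mog cd1q2b cd3q3 pd0 false true false .up 2 0 3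
    ndB1q2b ndB3q3 pcB0 Cut.none Ext.none :=
  certB0 (fam := false) (s1 := true) (s2 := false) (a := 2) (b := 0) (c := 3) (cn := .up) (n1 := ndB1q2b) (n2 := ndB3q3) (pc := pcB0) (cut := Cut.none) (xt := Ext.none) (P1 := 1239849684) (W1 := 370763052) (P2 := 1610612736) (W2 := 536870912) (P3 := 587336777) (W3 := 62277027) (N0 := 3) (En := eng) (mo := mog) (C1 := cd1q2b) (C2 := cd3q3) (C3 := pd0)
    rfl k0_pm_203_b

noncomputable def cut_pm_213_a : Cut := Cut.of [[⟨0, 1, 0, 67108864⟩, ⟨1, 1, 0, 67108864⟩, ⟨2, 2, 0, 16777216⟩]]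

noncomputable def f_pm_213_a : ℕ → ℕ → ℕ → ℕ → Bool := onCell 0 536870912 1610612736 536870912 587336777 62277027
    (rowB 3 eng mog cd1q2a cd3q3 pd1 0 false true false .pnn 2 1 3 (qsf 0 536870912 1610612736 536870912 1) ndB1q2a ndB3q3 pcB1 cut_pm_213_a Ext.none)

def k0_pm_213_a : ∃ t, chk3 f_pm_213_a t 1 1 1 = true :=
  ⟨(b (l 3) (b (l 3) (a (l 3) (a (l 3) (b (l 3) (b (l 3) (b (l 3) (b (l 3) (a (l 3) (l 6)))))))))), by decide +kernel⟩

theorem c_pm_213_a : CertB 0 536870912 1610612736 536870912 587336777 62277027 3 eng mog cd1q2a cd3q3 pd1 false true false .pnn 2 1 3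
    ndB1q2a ndB3q3 pcB1 cut_pm_213_a Ext.none :=
  certB0 (fam := false) (s1 := true) (s2 := false) (a := 2) (b := 1) (c := 3) (cn := .pnn) (n1 := ndB1q2a) (n2 := ndB3q3) (pc := pcB1) (cut := cut_pm_213_a) (xt := Ext.none) (P1 := 0) (W1 := 536870912) (P2 := 1610612736) (W2 := 536870912) (P3 := 587336777) (W3 := 62277027) (N0 := 3) (En := eng) (mo := mog) (C1 := cd1q2a) (C2 := cd3q3) (C3 := pd1)
    rfl k0_pm_213_a

noncomputable def cut_pm_213_b : Cut := Cut.of [[⟨0, 1, 0, 67108864⟩, ⟨1, 1, 0, 67108864⟩, ⟨2, 2, 0, 16777216⟩]]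

noncomputable def f_pm_213_b : ℕ → ℕ → ℕ → ℕ → Bool := onCell 1239849684 370763052 1610612736 536870912 587336777 62277027
    (rowB 3 eng mog cd1q2b cd3q3 pd1 0 false true false .pnn 2 1 3 (qsf 1239849684 370763052 1610612736 536870912 1) ndB1q2b ndB3q3 pcB1 cut_pm_213_b Ext.none)

def k0_pm_213_b : ∃ t, chk3 f_pm_213_b t 1 1 1 = true :=
  ⟨(l 3), by decide +kernel⟩

theorem c_pm_213_b : CertB 1239849684 370763052 1610612736 536870912 587336777 62277027 3 eng mog cd1q2b cd3q3 pd1 false true false .pnn 2 1 3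
    ndB1q2b ndB3q3 pcB1 cut_pm_213_b Ext.none :=
  certB0 (fam := false) (s1 := true) (s2 := false) (a := 2) (b := 1) (c := 3) (cn := .pnn) (n1 := ndB1q2b) (n2 := ndB3q3) (pc := pcB1) (cut := cut_pm_213_b) (xt := Ext.none) (P1 := 1239849684) (W1 := 370763052) (P2 := 1610612736) (W2 := 536870912) (P3 := 587336777) (W3 := 62277027) (N0 := 3) (En := eng) (mo := mog) (C1 := cd1q2b) (C2 := cd3q3) (C3 := pd1)
    rfl k0_pm_213_b

noncomputable def f_pm_303 : ℕ → ℕ → ℕ → ℕ → Bool := onCell 1610612736 536870912 1610612736 536870912 587336777 62277027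
    (rowB 3 eng mog cd1q3 cd3q3 pd0 0 false true false .npn 3 0 3 (qsf 1610612736 536870912 1610612736 536870912 0) ndB1q3 ndB3q3 pcB0 Cut.none Ext.none)

def k0_pm_303 : ∃ t, chk3 f_pm_303 t 1 1 1 = true :=
  ⟨(l 3), by decide +kernel⟩

theorem c_pm_303 : CertB 1610612736 536870912 1610612736 536870912 587336777 62277027 3 eng mog cd1q3 cd3q3 pd0 false true false .npn 3 0 3
    ndB1q3 ndB3q3 pcB0 Cut.none Ext.none :=
  certB0 (fam := false) (s1 := true) (s2 := false) (a := 3) (b := 0) (c := 3) (cn := .npn) (n1 := ndB1q3) (n2 := ndB3q3) (pc := pcB0) (cut := Cut.none) (xt := Ext.none) (P1 := 1610612736) (W1 := 536870912) (P2 := 1610612736) (W2 := 536870912) (P3 := 587336777) (W3 := 62277027) (N0 := 3) (En := eng) (mo := mog) (C1 := cd1q3) (C2 := cd3q3) (C3 := pd0)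
    rfl k0_pm_303

noncomputable def f_pm_313 : ℕ → ℕ → ℕ → ℕ → Bool := onCell 1610612736 536870912 1610612736 536870912 587336777 62277027
    (rowB 3 eng mog cd1q3 cd3q3 pd1 0 false true false .dn 3 1 3 (qsf 1610612736 536870912 1610612736 536870912 1) ndB1q3 ndB3q3 pcB1 Cut.none Ext.none)

def k0_pm_313 : ∃ t, chk3 f_pm_313 t 1 1 1 = true :=
  ⟨(l 3), by decide +kernel⟩

theorem c_pm_313 : CertB 1610612736 536870912 1610612736 536870912 587336777 62277027 3 eng mog cd1q3 cd3q3 pd1 false true false .dn 3 1 3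
    ndB1q3 ndB3q3 pcB1 Cut.none Ext.none :=
  certB0 (fam := false) (s1 := true) (s2 := false) (a := 3) (b := 1) (c := 3) (cn := .dn) (n1 := ndB1q3) (n2 := ndB3q3) (pc := pcB1) (cut := Cut.none) (xt := Ext.none) (P1 := 1610612736) (W1 := 536870912) (P2 := 1610612736) (W2 := 536870912) (P3 := 587336777) (W3 := 62277027) (N0 := 3) (En := eng) (mo := mog) (C1 := cd1q3) (C2 := cd3q3) (C3 := pd1)
    rfl k0_pm_313

noncomputable def f_mm_001 : ℕ → ℕ → ℕ → ℕ → Bool := onCell 0 536870912 536870912 536870912 587336777 62277027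
    (rowB 3 eng mog cd1q0 cd3q1 pd0 0 false false false .up 0 0 1 (qsf 0 536870912 536870912 536870912 0) ndB1q0 ndB3q1 pcB0 Cut.none Ext.none)

def k0_mm_001 : ∃ t, chk3 f_mm_001 t 1 1 1 = true :=
  ⟨(l 3), by decide +kernel⟩

theorem c_mm_001 : CertB 0 536870912 536870912 536870912 587336777 62277027 3 eng mog cd1q0 cd3q1 pd0 false false false .up 0 0 1
    ndB1q0 ndB3q1 pcB0 Cut.none Ext.none :=
  certB0 (fam := false) (s1 := false) (s2 := false) (a := 0) (b := 0) (c := 1) (cn := .up) (n1 := ndB1q0) (n2 := ndB3q1) (pc := pcB0) (cut := Cut.none) (xt := Ext.none) (P1 := 0) (W1 := 536870912) (P2 := 536870912) (W2 := 536870912) (P3 := 587336777) (W3 := 62277027) (N0 := 3) (En := eng) (mo := mog) (C1 := cd1q0) (C2 := cd3q1) (C3 := pd0)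
    rfl k0_mm_001

noncomputable def f_mm_011 : ℕ → ℕ → ℕ → ℕ → Bool := onCell 0 536870912 536870912 536870912 587336777 62277027
    (rowB 3 eng mog cd1q0 cd3q1 pd1 0 false false false .pnn 0 1 1 (qsf 0 536870912 536870912 536870912 1) ndB1q0 ndB3q1 pcB1 Cut.none Ext.none)

def k0_mm_011 : ∃ t, chk3 f_mm_011 t 1 1 1 = true :=
  ⟨(l 3), by decide +kernel⟩

theorem c_mm_011 : CertB 0 536870912 536870912 536870912 587336777 62277027 3 eng mog cd1q0 cd3q1 pd1 false false false .pnn 0 1 1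
    ndB1q0 ndB3q1 pcB1 Cut.none Ext.none :=
  certB0 (fam := false) (s1 := false) (s2 := false) (a := 0) (b := 1) (c := 1) (cn := .pnn) (n1 := ndB1q0) (n2 := ndB3q1) (pc := pcB1) (cut := Cut.none) (xt := Ext.none) (P1 := 0) (W1 := 536870912) (P2 := 536870912) (W2 := 536870912) (P3 := 587336777) (W3 := 62277027) (N0 := 3) (En := eng) (mo := mog) (C1 := cd1q0) (C2 := cd3q1) (C3 := pd1)
    rfl k0_mm_011

noncomputable def f_mm_012_a : ℕ → ℕ → ℕ → ℕ → Bool := onCell 0 536870912 0 536870912 587336777 62277027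
    (rowB 3 eng mog cd1q0 cd3q2a pd1 0 false false false .pnp 0 1 2 (qsf 0 536870912 0 536870912 1) ndB1q0 ndB3q2a pcB1 Cut.none Ext.none)

def k0_mm_012_a : ∃ t, chk3 f_mm_012_a t 1 1 1 = true :=
  ⟨(l 5), by decide +kernel⟩

theorem c_mm_012_a : CertB 0 536870912 0 536870912 587336777 62277027 3 eng mog cd1q0 cd3q2a pd1 false false false .pnp 0 1 2
    ndB1q0 ndB3q2a pcB1 Cut.none Ext.none :=
  certB0 (fam := false) (s1 := false) (s2 := false) (a := 0) (b := 1) (c := 2) (cn := .pnp) (n1 := ndB1q0) (n2 := ndB3q2a) (pc := pcB1) (cut := Cut.none) (xt := Ext.none) (P1 := 0) (W1 := 536870912) (P2 := 0) (W2 := 536870912) (P3 := 587336777) (W3 := 62277027) (N0 := 3) (En := eng) (mo := mog) (C1 := cd1q0) (C2 := cd3q2a) (C3 := pd1)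
    rfl k0_mm_012_a

noncomputable def f_mm_012_b : ℕ → ℕ → ℕ → ℕ → Bool := onCell 0 536870912 1239849684 370763052 587336777 62277027
    (rowB 3 eng mog cd1q0 cd3q2b pd1 0 false false false .pnp 0 1 2 (qsf 0 536870912 1239849684 370763052 1) ndB1q0 ndB3q2b pcB1 Cut.none Ext.none)

def k0_mm_012_b : ∃ t, chk3 f_mm_012_b t 1 1 1 = true :=
  ⟨(l 5), by decide +kernel⟩

theorem c_mm_012_b : CertB 0 536870912 1239849684 370763052 587336777 62277027 3 eng mog cd1q0 cd3q2b pd1 false false false .pnp 0 1 2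
    ndB1q0 ndB3q2b pcB1 Cut.none Ext.none :=
  certB0 (fam := false) (s1 := false) (s2 := false) (a := 0) (b := 1) (c := 2) (cn := .pnp) (n1 := ndB1q0) (n2 := ndB3q2b) (pc := pcB1) (cut := Cut.none) (xt := Ext.none) (P1 := 0) (W1 := 536870912) (P2 := 1239849684) (W2 := 370763052) (P3 := 587336777) (W3 := 62277027) (N0 := 3) (En := eng) (mo := mog) (C1 := cd1q0) (C2 := cd3q2b) (C3 := pd1)
    rfl k0_mm_012_b

noncomputable def f_mm_022_a : ℕ → ℕ → ℕ → ℕ → Bool := onCell 0 536870912 0 536870912 587336777 62277027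
    (rowB 3 eng mog cd1q0 cd3q2a pd2 0 false false false .pp 0 2 2 (qsf 0 536870912 0 536870912 2) ndB1q0 ndB3q2a pcB2 Cut.none Ext.none)

def k0_mm_022_a : ∃ t, chk3 f_mm_022_a t 1 1 1 = true :=
  ⟨(l 5), by decide +kernel⟩

theorem c_mm_022_a : CertB 0 536870912 0 536870912 587336777 62277027 3 eng mog cd1q0 cd3q2a pd2 false false false .pp 0 2 2
    ndB1q0 ndB3q2a pcB2 Cut.none Ext.none :=
  certB0 (fam := false) (s1 := false) (s2 := false) (a := 0) (b := 2) (c := 2) (cn := .pp) (n1 := ndB1q0) (n2 := ndB3q2a) (pc := pcB2) (cut := Cut.none) (xt := Ext.none) (P1 := 0) (W1 := 536870912) (P2 := 0) (W2 := 536870912) (P3 := 587336777) (W3 := 62277027) (N0 := 3) (En := eng) (mo := mog) (C1 := cd1q0) (C2 := cd3q2a) (C3 := pd2)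
    rfl k0_mm_022_a

noncomputable def f_mm_022_b : ℕ → ℕ → ℕ → ℕ → Bool := onCell 0 536870912 1239849684 370763052 587336777 62277027
    (rowB 3 eng mog cd1q0 cd3q2b pd2 0 false false false .pp 0 2 2 (qsf 0 536870912 1239849684 370763052 2) ndB1q0 ndB3q2b pcB2 Cut.none Ext.none)

def k0_mm_022_b : ∃ t, chk3 f_mm_022_b t 1 1 1 = true :=
  ⟨(l 5), by decide +kernel⟩

theorem c_mm_022_b : CertB 0 536870912 1239849684 370763052 587336777 62277027 3 eng mog cd1q0 cd3q2b pd2 false false false .pp 0 2 2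
    ndB1q0 ndB3q2b pcB2 Cut.none Ext.none :=
  certB0 (fam := false) (s1 := false) (s2 := false) (a := 0) (b := 2) (c := 2) (cn := .pp) (n1 := ndB1q0) (n2 := ndB3q2b) (pc := pcB2) (cut := Cut.none) (xt := Ext.none) (P1 := 0) (W1 := 536870912) (P2 := 1239849684) (W2 := 370763052) (P3 := 587336777) (W3 := 62277027) (N0 := 3) (En := eng) (mo := mog) (C1 := cd1q0) (C2 := cd3q2b) (C3 := pd2)
    rfl k0_mm_022_b

noncomputable def f_mm_023 : ℕ → ℕ → ℕ → ℕ → Bool := onCell 0 536870912 1610612736 536870912 587336777 62277027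
    (rowB 3 eng mog cd1q0 cd3q3 pd2 0 false false false .up 0 2 3 (qsf 0 536870912 1610612736 536870912 2) ndB1q0 ndB3q3 pcB2 Cut.none Ext.none)

def k0_mm_023 : ∃ t, chk3 f_mm_023 t 1 1 1 = true :=
  ⟨(l 5), by decide +kernel⟩

theorem c_mm_023 : CertB 0 536870912 1610612736 536870912 587336777 62277027 3 eng mog cd1q0 cd3q3 pd2 false false false .up 0 2 3
    ndB1q0 ndB3q3 pcB2 Cut.none Ext.none :=
  certB0 (fam := false) (s1 := false) (s2 := false) (a := 0) (b := 2) (c := 3) (cn := .up) (n1 := ndB1q0) (n2 := ndB3q3) (pc := pcB2) (cut := Cut.none) (xt := Ext.none) (P1 := 0) (W1 := 536870912) (P2 := 1610612736) (W2 := 536870912) (P3 := 587336777) (W3 := 62277027) (N0 := 3) (En := eng) (mo := mog) (C1 := cd1q0) (C2 := cd3q3) (C3 := pd2)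
    rfl k0_mm_023

noncomputable def f_mm_033 : ℕ → ℕ → ℕ → ℕ → Bool := onCell 0 536870912 1610612736 536870912 587336777 62277027
    (rowB 3 eng mog cd1q0 cd3q3 pd3 0 false false false .pnn 0 3 3 (qsf 0 536870912 1610612736 536870912 3) ndB1q0 ndB3q3 pcB3 Cut.none Ext.none)

def k0_mm_033 : ∃ t, chk3 f_mm_033 t 1 1 1 = true :=
  ⟨(l 5), by decide +kernel⟩

theorem c_mm_033 : CertB 0 536870912 1610612736 536870912 587336777 62277027 3 eng mog cd1q0 cd3q3 pd3 false false false .pnn 0 3 3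
    ndB1q0 ndB3q3 pcB3 Cut.none Ext.none :=
  certB0 (fam := false) (s1 := false) (s2 := false) (a := 0) (b := 3) (c := 3) (cn := .pnn) (n1 := ndB1q0) (n2 := ndB3q3) (pc := pcB3) (cut := Cut.none) (xt := Ext.none) (P1 := 0) (W1 := 536870912) (P2 := 1610612736) (W2 := 536870912) (P3 := 587336777) (W3 := 62277027) (N0 := 3) (En := eng) (mo := mog) (C1 := cd1q0) (C2 := cd3q3) (C3 := pd3)
    rfl k0_mm_033

noncomputable def f_mm_101 : ℕ → ℕ → ℕ → ℕ → Bool := onCell 536870912 536870912 536870912 536870912 587336777 62277027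
    (rowB 3 eng mog cd1q1 cd3q1 pd0 0 false false false .npn 1 0 1 (qsf 536870912 536870912 536870912 536870912 0) ndB1q1 ndB3q1 pcB0 Cut.none Ext.none)

def k0_mm_101 : ∃ t, chk3 f_mm_101 t 1 1 1 = true :=
  ⟨(l 3), by decide +kernel⟩

theorem c_mm_101 : CertB 536870912 536870912 536870912 536870912 587336777 62277027 3 eng mog cd1q1 cd3q1 pd0 false false false .npn 1 0 1
    ndB1q1 ndB3q1 pcB0 Cut.none Ext.none :=
  certB0 (fam := false) (s1 := false) (s2 := false) (a := 1) (b := 0) (c := 1) (cn := .npn) (n1 := ndB1q1) (n2 := ndB3q1) (pc := pcB0) (cut := Cut.none) (xt := Ext.none) (P1 := 536870912) (W1 := 536870912) (P2 := 536870912) (W2 := 536870912) (P3 := 587336777) (W3 := 62277027) (N0 := 3) (En := eng) (mo := mog) (C1 := cd1q1) (C2 := cd3q1) (C3 := pd0)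
    rfl k0_mm_101

noncomputable def f_mm_102_a : ℕ → ℕ → ℕ → ℕ → Bool := onCell 536870912 536870912 0 536870912 587336777 62277027
    (rowB 3 eng mog cd1q1 cd3q2a pd0 0 false false false .npp 1 0 2 (qsf 536870912 536870912 0 536870912 0) ndB1q1 ndB3q2a pcB0 Cut.none Ext.none)

def k0_mm_102_a : ∃ t, chk3 f_mm_102_a t 1 1 1 = true :=
  ⟨(l 5), by decide +kernel⟩

theorem c_mm_102_a : CertB 536870912 536870912 0 536870912 587336777 62277027 3 eng mog cd1q1 cd3q2a pd0 false false false .npp 1 0 2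
    ndB1q1 ndB3q2a pcB0 Cut.none Ext.none :=
  certB0 (fam := false) (s1 := false) (s2 := false) (a := 1) (b := 0) (c := 2) (cn := .npp) (n1 := ndB1q1) (n2 := ndB3q2a) (pc := pcB0) (cut := Cut.none) (xt := Ext.none) (P1 := 536870912) (W1 := 536870912) (P2 := 0) (W2 := 536870912) (P3 := 587336777) (W3 := 62277027) (N0 := 3) (En := eng) (mo := mog) (C1 := cd1q1) (C2 := cd3q2a) (C3 := pd0)
    rfl k0_mm_102_a

noncomputable def f_mm_102_b : ℕ → ℕ → ℕ → ℕ → Bool := onCell 536870912 536870912 1239849684 370763052 587336777 62277027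
    (rowB 3 eng mog cd1q1 cd3q2b pd0 0 false false false .npp 1 0 2 (qsf 536870912 536870912 1239849684 370763052 0) ndB1q1 ndB3q2b pcB0 Cut.none Ext.none)

def k0_mm_102_b : ∃ t, chk3 f_mm_102_b t 1 1 1 = true :=
  ⟨(l 5), by decide +kernel⟩

theorem c_mm_102_b : CertB 536870912 536870912 1239849684 370763052 587336777 62277027 3 eng mog cd1q1 cd3q2b pd0 false false false .npp 1 0 2
    ndB1q1 ndB3q2b pcB0 Cut.none Ext.none :=
  certB0 (fam := false) (s1 := false) (s2 := false) (a := 1) (b := 0) (c := 2) (cn := .npp) (n1 := ndB1q1) (n2 := ndB3q2b) (pc := pcB0) (cut := Cut.none) (xt := Ext.none) (P1 := 536870912) (W1 := 536870912) (P2 := 1239849684) (W2 := 370763052) (P3 := 587336777) (W3 := 62277027) (N0 := 3) (En := eng) (mo := mog) (C1 := cd1q1) (C2 := cd3q2b) (C3 := pd0)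
    rfl k0_mm_102_b

noncomputable def f_mm_112_a : ℕ → ℕ → ℕ → ℕ → Bool := onCell 536870912 536870912 0 536870912 587336777 62277027
    (rowB 3 eng mog cd1q1 cd3q2a pd1 0 false false false .dn 1 1 2 (qsf 536870912 536870912 0 536870912 1) ndB1q1 ndB3q2a pcB1 Cut.none Ext.none)

def k0_mm_112_a : ∃ t, chk3 f_mm_112_a t 1 1 1 = true :=
  ⟨(l 5), by decide +kernel⟩

theorem c_mm_112_a : CertB 536870912 536870912 0 536870912 587336777 62277027 3 eng mog cd1q1 cd3q2a pd1 false false false .dn 1 1 2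
    ndB1q1 ndB3q2a pcB1 Cut.none Ext.none :=
  certB0 (fam := false) (s1 := false) (s2 := false) (a := 1) (b := 1) (c := 2) (cn := .dn) (n1 := ndB1q1) (n2 := ndB3q2a) (pc := pcB1) (cut := Cut.none) (xt := Ext.none) (P1 := 536870912) (W1 := 536870912) (P2 := 0) (W2 := 536870912) (P3 := 587336777) (W3 := 62277027) (N0 := 3) (En := eng) (mo := mog) (C1 := cd1q1) (C2 := cd3q2a) (C3 := pd1)
    rfl k0_mm_112_a

noncomputable def f_mm_112_b : ℕ → ℕ → ℕ → ℕ → Bool := onCell 536870912 536870912 1239849684 370763052 587336777 62277027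
    (rowB 3 eng mog cd1q1 cd3q2b pd1 0 false false false .dn 1 1 2 (qsf 536870912 536870912 1239849684 370763052 1) ndB1q1 ndB3q2b pcB1 Cut.none Ext.none)

def k0_mm_112_b : ∃ t, chk3 f_mm_112_b t 1 1 1 = true :=
  ⟨(l 5), by decide +kernel⟩

theorem c_mm_112_b : CertB 536870912 536870912 1239849684 370763052 587336777 62277027 3 eng mog cd1q1 cd3q2b pd1 false false false .dn 1 1 2
    ndB1q1 ndB3q2b pcB1 Cut.none Ext.none :=
  certB0 (fam := false) (s1 := false) (s2 := false) (a := 1) (b := 1) (c := 2) (cn := .dn) (n1 := ndB1q1) (n2 := ndB3q2b) (pc := pcB1) (cut := Cut.none) (xt := Ext.none) (P1 := 536870912) (W1 := 536870912) (P2 := 1239849684) (W2 := 370763052) (P3 := 587336777) (W3 := 62277027) (N0 := 3) (En := eng) (mo := mog) (C1 := cd1q1) (C2 := cd3q2b) (C3 := pd1)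
    rfl k0_mm_112_b

noncomputable def f_mm_113 : ℕ → ℕ → ℕ → ℕ → Bool := onCell 536870912 536870912 1610612736 536870912 587336777 62277027
    (rowB 3 eng mog cd1q1 cd3q3 pd1 0 false false false .nn 1 1 3 (qsf 536870912 536870912 1610612736 536870912 1) ndB1q1 ndB3q3 pcB1 Cut.none Ext.none)

def k0_mm_113 : ∃ t, chk3 f_mm_113 t 1 1 1 = true :=
  ⟨(l 5), by decide +kernel⟩

theorem c_mm_113 : CertB 536870912 536870912 1610612736 536870912 587336777 62277027 3 eng mog cd1q1 cd3q3 pd1 false false false .nn 1 1 3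
    ndB1q1 ndB3q3 pcB1 Cut.none Ext.none :=
  certB0 (fam := false) (s1 := false) (s2 := false) (a := 1) (b := 1) (c := 3) (cn := .nn) (n1 := ndB1q1) (n2 := ndB3q3) (pc := pcB1) (cut := Cut.none) (xt := Ext.none) (P1 := 536870912) (W1 := 536870912) (P2 := 1610612736) (W2 := 536870912) (P3 := 587336777) (W3 := 62277027) (N0 := 3) (En := eng) (mo := mog) (C1 := cd1q1) (C2 := cd3q3) (C3 := pd1)
    rfl k0_mm_113

noncomputable def f_mm_123 : ℕ → ℕ → ℕ → ℕ → Bool := onCell 536870912 536870912 1610612736 536870912 587336777 62277027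
    (rowB 3 eng mog cd1q1 cd3q3 pd2 0 false false false .npn 1 2 3 (qsf 536870912 536870912 1610612736 536870912 2) ndB1q1 ndB3q3 pcB2 Cut.none Ext.none)

def k0_mm_123 : ∃ t, chk3 f_mm_123 t 1 1 1 = true :=
  ⟨(l 5), by decide +kernel⟩

theorem c_mm_123 : CertB 536870912 536870912 1610612736 536870912 587336777 62277027 3 eng mog cd1q1 cd3q3 pd2 false false false .npn 1 2 3
    ndB1q1 ndB3q3 pcB2 Cut.none Ext.none :=
  certB0 (fam := false) (s1 := false) (s2 := false) (a := 1) (b := 2) (c := 3) (cn := .npn) (n1 := ndB1q1) (n2 := ndB3q3) (pc := pcB2) (cut := Cut.none) (xt := Ext.none) (P1 := 536870912) (W1 := 536870912) (P2 := 1610612736) (W2 := 536870912) (P3 := 587336777) (W3 := 62277027) (N0 := 3) (En := eng) (mo := mog) (C1 := cd1q1) (C2 := cd3q3) (C3 := pd2)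
    rfl k0_mm_123

noncomputable def f_mm_133 : ℕ → ℕ → ℕ → ℕ → Bool := onCell 536870912 536870912 1610612736 536870912 587336777 62277027
    (rowB 3 eng mog cd1q1 cd3q3 pd3 0 false false false .dn 1 3 3 (qsf 536870912 536870912 1610612736 536870912 3) ndB1q1 ndB3q3 pcB3 Cut.none Ext.none)

def k0_mm_133 : ∃ t, chk3 f_mm_133 t 1 1 1 = true :=
  ⟨(l 5), by decide +kernel⟩

theorem c_mm_133 : CertB 536870912 536870912 1610612736 536870912 587336777 62277027 3 eng mog cd1q1 cd3q3 pd3 false false false .dn 1 3 3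
    ndB1q1 ndB3q3 pcB3 Cut.none Ext.none :=
  certB0 (fam := false) (s1 := false) (s2 := false) (a := 1) (b := 3) (c := 3) (cn := .dn) (n1 := ndB1q1) (n2 := ndB3q3) (pc := pcB3) (cut := Cut.none) (xt := Ext.none) (P1 := 536870912) (W1 := 536870912) (P2 := 1610612736) (W2 := 536870912) (P3 := 587336777) (W3 := 62277027) (N0 := 3) (En := eng) (mo := mog) (C1 := cd1q1) (C2 := cd3q3) (C3 := pd3)
    rfl k0_mm_133

noncomputable def f_mm_202_aa : ℕ → ℕ → ℕ → ℕ → Bool := onCell 0 536870912 0 536870912 587336777 62277027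
    (rowB 3 eng mog cd1q2a cd3q2a pd0 0 false false false .pp 2 0 2 (qsf 0 536870912 0 536870912 0) ndB1q2a ndB3q2a pcB0 Cut.none Ext.none)

def k0_mm_202_aa : ∃ t, chk3 f_mm_202_aa t 1 1 1 = true :=
  ⟨(l 3), by decide +kernel⟩

theorem c_mm_202_aa : CertB 0 536870912 0 536870912 587336777 62277027 3 eng mog cd1q2a cd3q2a pd0 false false false .pp 2 0 2
    ndB1q2a ndB3q2a pcB0 Cut.none Ext.none :=
  certB0 (fam := false) (s1 := false) (s2 := false) (a := 2) (b := 0) (c := 2) (cn := .pp) (n1 := ndB1q2a) (n2 := ndB3q2a) (pc := pcB0) (cut := Cut.none) (xt := Ext.none) (P1 := 0) (W1 := 536870912) (P2 := 0) (W2 := 536870912) (P3 := 587336777) (W3 := 62277027) (N0 := 3) (En := eng) (mo := mog) (C1 := cd1q2a) (C2 := cd3q2a) (C3 := pd0)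
    rfl k0_mm_202_aa

noncomputable def f_mm_202_ab : ℕ → ℕ → ℕ → ℕ → Bool := onCell 0 536870912 1239849684 370763052 587336777 62277027
    (rowB 3 eng mog cd1q2a cd3q2b pd0 0 false false false .pp 2 0 2 (qsf 0 536870912 1239849684 370763052 0) ndB1q2a ndB3q2b pcB0 Cut.none Ext.none)

def k0_mm_202_ab : ∃ t, chk3 f_mm_202_ab t 1 1 1 = true :=
  ⟨(l 3), by decide +kernel⟩

theorem c_mm_202_ab : CertB 0 536870912 1239849684 370763052 587336777 62277027 3 eng mog cd1q2a cd3q2b pd0 false false false .pp 2 0 2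
    ndB1q2a ndB3q2b pcB0 Cut.none Ext.none :=
  certB0 (fam := false) (s1 := false) (s2 := false) (a := 2) (b := 0) (c := 2) (cn := .pp) (n1 := ndB1q2a) (n2 := ndB3q2b) (pc := pcB0) (cut := Cut.none) (xt := Ext.none) (P1 := 0) (W1 := 536870912) (P2 := 1239849684) (W2 := 370763052) (P3 := 587336777) (W3 := 62277027) (N0 := 3) (En := eng) (mo := mog) (C1 := cd1q2a) (C2 := cd3q2b) (C3 := pd0)
    rfl k0_mm_202_ab

noncomputable def f_mm_202_ba : ℕ → ℕ → ℕ → ℕ → Bool := onCell 1239849684 370763052 0 536870912 587336777 62277027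
    (rowB 3 eng mog cd1q2b cd3q2a pd0 0 false false false .pp 2 0 2 (qsf 1239849684 370763052 0 536870912 0) ndB1q2b ndB3q2a pcB0 Cut.none Ext.none)

def k0_mm_202_ba : ∃ t, chk3 f_mm_202_ba t 1 1 1 = true :=
  ⟨(l 3), by decide +kernel⟩

theorem c_mm_202_ba : CertB 1239849684 370763052 0 536870912 587336777 62277027 3 eng mog cd1q2b cd3q2a pd0 false false false .pp 2 0 2
    ndB1q2b ndB3q2a pcB0 Cut.none Ext.none :=
  certB0 (fam := false) (s1 := false) (s2 := false) (a := 2) (b := 0) (c := 2) (cn := .pp) (n1 := ndB1q2b) (n2 := ndB3q2a) (pc := pcB0) (cut := Cut.none) (xt := Ext.none) (P1 := 1239849684) (W1 := 370763052) (P2 := 0) (W2 := 536870912) (P3 := 587336777) (W3 := 62277027) (N0 := 3) (En := eng) (mo := mog) (C1 := cd1q2b) (C2 := cd3q2a) (C3 := pd0)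
    rfl k0_mm_202_ba

noncomputable def f_mm_202_bb : ℕ → ℕ → ℕ → ℕ → Bool := onCell 1239849684 370763052 1239849684 370763052 587336777 62277027
    (rowB 3 eng mog cd1q2b cd3q2b pd0 0 false false false .pp 2 0 2 (qsf 1239849684 370763052 1239849684 370763052 0) ndB1q2b ndB3q2b pcB0 Cut.none Ext.none)

def k0_mm_202_bb : ∃ t, chk3 f_mm_202_bb t 1 1 1 = true :=
  ⟨(l 3), by decide +kernel⟩

theorem c_mm_202_bb : CertB 1239849684 370763052 1239849684 370763052 587336777 62277027 3 eng mog cd1q2b cd3q2b pd0 false false false .pp 2 0 2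
    ndB1q2b ndB3q2b pcB0 Cut.none Ext.none :=
  certB0 (fam := false) (s1 := false) (s2 := false) (a := 2) (b := 0) (c := 2) (cn := .pp) (n1 := ndB1q2b) (n2 := ndB3q2b) (pc := pcB0) (cut := Cut.none) (xt := Ext.none) (P1 := 1239849684) (W1 := 370763052) (P2 := 1239849684) (W2 := 370763052) (P3 := 587336777) (W3 := 62277027) (N0 := 3) (En := eng) (mo := mog) (C1 := cd1q2b) (C2 := cd3q2b) (C3 := pd0)
    rfl k0_mm_202_bb

noncomputable def f_mm_203_a : ℕ → ℕ → ℕ → ℕ → Bool := onCell 0 536870912 0 536870912 587336777 62277027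
    (rowB 3 eng mog cd1q2a cd3q3 pd0 1 false false false .up 2 0 3 (qsf 0 536870912 1610612736 536870912 0) ndB1q2a ndB3q3 pcB0 Cut.none Ext.none)

def k0_mm_203_a : ∃ t, chk3 f_mm_203_a t 1 1 1 = true :=
  ⟨(l 3), by decide +kernel⟩

theorem c_mm_203_a : CertB 0 536870912 1610612736 536870912 587336777 62277027 3 eng mog cd1q2a cd3q3 pd0 false false false .up 2 0 3
    ndB1q2a ndB3q3 pcB0 Cut.none Ext.none :=
  certB1 (fam := false) (s1 := false) (s2 := false) (a := 2) (b := 0) (c := 3) (cn := .up) (n1 := ndB1q2a) (n2 := ndB3q3) (pc := pcB0) (cut := Cut.none) (xt := Ext.none) (P1 := 0) (W1 := 536870912) (P2 := 1610612736) (W2 := 536870912) (P3 := 587336777) (W3 := 62277027) (N0 := 3) (En := eng) (mo := mog) (C1 := cd1q2a) (C2 := cd3q3) (C3 := pd0)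
    rfl (fun _ => rfl) k0_mm_203_a

noncomputable def f_mm_203_b : ℕ → ℕ → ℕ → ℕ → Bool := onCell 1239849684 370763052 1610612736 536870912 587336777 62277027
    (rowB 3 eng mog cd1q2b cd3q3 pd0 0 false false false .up 2 0 3 (qsf 1239849684 370763052 1610612736 536870912 0) ndB1q2b ndB3q3 pcB0 Cut.none Ext.none)

def k0_mm_203_b : ∃ t, chk3 f_mm_203_b t 1 1 1 = true :=
  ⟨(l 3), by decide +kernel⟩

theorem c_mm_203_b : CertB 1239849684 370763052 1610612736 536870912 587336777 62277027 3 eng mog cd1q2b cd3q3 pd0 false false false .up 2 0 3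
    ndB1q2b ndB3q3 pcB0 Cut.none Ext.none :=
  certB0 (fam := false) (s1 := false) (s2 := false) (a := 2) (b := 0) (c := 3) (cn := .up) (n1 := ndB1q2b) (n2 := ndB3q3) (pc := pcB0) (cut := Cut.none) (xt := Ext.none) (P1 := 1239849684) (W1 := 370763052) (P2 := 1610612736) (W2 := 536870912) (P3 := 587336777) (W3 := 62277027) (N0 := 3) (En := eng) (mo := mog) (C1 := cd1q2b) (C2 := cd3q3) (C3 := pd0)
    rfl k0_mm_203_b

noncomputable def f_mm_213_a : ℕ → ℕ → ℕ → ℕ → Bool := onCell 0 536870912 1610612736 536870912 587336777 62277027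
    (rowB 3 eng mog cd1q2a cd3q3 pd1 0 false false false .pnn 2 1 3 (qsf 0 536870912 1610612736 536870912 1) ndB1q2a ndB3q3 pcB1 Cut.none Ext.none)

def k0_mm_213_a : ∃ t, chk3 f_mm_213_a t 1 1 1 = true :=
  ⟨(a (l 3) (l 5)), by decide +kernel⟩

theorem c_mm_213_a : CertB 0 536870912 1610612736 536870912 587336777 62277027 3 eng mog cd1q2a cd3q3 pd1 false false false .pnn 2 1 3
    ndB1q2a ndB3q3 pcB1 Cut.none Ext.none :=
  certB0 (fam := false) (s1 := false) (s2 := false) (a := 2) (b := 1) (c := 3) (cn := .pnn) (n1 := ndB1q2a) (n2 := ndB3q3) (pc := pcB1) (cut := Cut.none) (xt := Ext.none) (P1 := 0) (W1 := 536870912) (P2 := 1610612736) (W2 := 536870912) (P3 := 587336777) (W3 := 62277027) (N0 := 3) (En := eng) (mo := mog) (C1 := cd1q2a) (C2 := cd3q3) (C3 := pd1)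
    rfl k0_mm_213_a

noncomputable def f_mm_213_b : ℕ → ℕ → ℕ → ℕ → Bool := onCell 1239849684 370763052 1610612736 536870912 587336777 62277027
    (rowB 3 eng mog cd1q2b cd3q3 pd1 0 false false false .pnn 2 1 3 (qsf 1239849684 370763052 1610612736 536870912 1) ndB1q2b ndB3q3 pcB1 Cut.none Ext.none)

def k0_mm_213_b : ∃ t, chk3 f_mm_213_b t 1 1 1 = true :=
  ⟨(l 3), by decide +kernel⟩

theorem c_mm_213_b : CertB 1239849684 370763052 1610612736 536870912 587336777 62277027 3 eng mog cd1q2b cd3q3 pd1 false false false .pnn 2 1 3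
    ndB1q2b ndB3q3 pcB1 Cut.none Ext.none :=
  certB0 (fam := false) (s1 := false) (s2 := false) (a := 2) (b := 1) (c := 3) (cn := .pnn) (n1 := ndB1q2b) (n2 := ndB3q3) (pc := pcB1) (cut := Cut.none) (xt := Ext.none) (P1 := 1239849684) (W1 := 370763052) (P2 := 1610612736) (W2 := 536870912) (P3 := 587336777) (W3 := 62277027) (N0 := 3) (En := eng) (mo := mog) (C1 := cd1q2b) (C2 := cd3q3) (C3 := pd1)
    rfl k0_mm_213_b

noncomputable def f_mm_303 : ℕ → ℕ → ℕ → ℕ → Bool := onCell 1610612736 536870912 1610612736 536870912 587336777 62277027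
    (rowB 3 eng mog cd1q3 cd3q3 pd0 0 false false false .npn 3 0 3 (qsf 1610612736 536870912 1610612736 536870912 0) ndB1q3 ndB3q3 pcB0 Cut.none Ext.none)

def k0_mm_303 : ∃ t, chk3 f_mm_303 t 1 1 1 = true :=
  ⟨(l 3), by decide +kernel⟩

theorem c_mm_303 : CertB 1610612736 536870912 1610612736 536870912 587336777 62277027 3 eng mog cd1q3 cd3q3 pd0 false false false .npn 3 0 3
    ndB1q3 ndB3q3 pcB0 Cut.none Ext.none :=
  certB0 (fam := false) (s1 := false) (s2 := false) (a := 3) (b := 0) (c := 3) (cn := .npn) (n1 := ndB1q3) (n2 := ndB3q3) (pc := pcB0) (cut := Cut.none) (xt := Ext.none) (P1 := 1610612736) (W1 := 536870912) (P2 := 1610612736) (W2 := 536870912) (P3 := 587336777) (W3 := 62277027) (N0 := 3) (En := eng) (mo := mog) (C1 := cd1q3) (C2 := cd3q3) (C3 := pd0)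
    rfl k0_mm_303

noncomputable def f_mm_313 : ℕ → ℕ → ℕ → ℕ → Bool := onCell 1610612736 536870912 1610612736 536870912 587336777 62277027
    (rowB 3 eng mog cd1q3 cd3q3 pd1 0 false false false .dn 3 1 3 (qsf 1610612736 536870912 1610612736 536870912 1) ndB1q3 ndB3q3 pcB1 Cut.none Ext.none)

def k0_mm_313 : ∃ t, chk3 f_mm_313 t 1 1 1 = true :=
  ⟨(l 3), by decide +kernel⟩

theorem c_mm_313 : CertB 1610612736 536870912 1610612736 536870912 587336777 62277027 3 eng mog cd1q3 cd3q3 pd1 false false false .dn 3 1 3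
    ndB1q3 ndB3q3 pcB1 Cut.none Ext.none :=
  certB0 (fam := false) (s1 := false) (s2 := false) (a := 3) (b := 1) (c := 3) (cn := .dn) (n1 := ndB1q3) (n2 := ndB3q3) (pc := pcB1) (cut := Cut.none) (xt := Ext.none) (P1 := 1610612736) (W1 := 536870912) (P2 := 1610612736) (W2 := 536870912) (P3 := 587336777) (W3 := 62277027) (N0 := 3) (En := eng) (mo := mog) (C1 := cd1q3) (C2 := cd3q3) (C3 := pd1)
    rfl k0_mm_313

end Pool.Agent.Strip051.G.I5470_6050.Tab.C.BB13

namespace Pool.Agent.Strip051.G.I5470_6050.Tab.C.BB14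

open Pool.Agent.Strip051.PB Pool.Agent.Strip051.PB.T
open Pool.Agent.Strip051.G.I5470_6050.Tab

noncomputable def f_pp_001 : ℕ → ℕ → ℕ → ℕ → Bool := onCell 0 536870912 536870912 536870912 587336777 62277027
    (rowB 3 eng mog cd1q0 cd4q1 pd0 0 false true true .up 0 0 1 (qsf 0 536870912 536870912 536870912 0) ndB1q0 ndB4q1 pcB0 Cut.none Ext.none)

def k0_pp_001 : ∃ t, chk3 f_pp_001 t 1 1 1 = true :=
  ⟨(l 3), by decide +kernel⟩

theorem c_pp_001 : CertB 0 536870912 536870912 536870912 587336777 62277027 3 eng mog cd1q0 cd4q1 pd0 false true true .up 0 0 1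
    ndB1q0 ndB4q1 pcB0 Cut.none Ext.none :=
  certB0 (fam := false) (s1 := true) (s2 := true) (a := 0) (b := 0) (c := 1) (cn := .up) (n1 := ndB1q0) (n2 := ndB4q1) (pc := pcB0) (cut := Cut.none) (xt := Ext.none) (P1 := 0) (W1 := 536870912) (P2 := 536870912) (W2 := 536870912) (P3 := 587336777) (W3 := 62277027) (N0 := 3) (En := eng) (mo := mog) (C1 := cd1q0) (C2 := cd4q1) (C3 := pd0)
    rfl k0_pp_001

noncomputable def f_pp_011 : ℕ → ℕ → ℕ → ℕ → Bool := onCell 0 536870912 536870912 536870912 587336777 62277027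
    (rowB 3 eng mog cd1q0 cd4q1 pd1 0 false true true .pnn 0 1 1 (qsf 0 536870912 536870912 536870912 1) ndB1q0 ndB4q1 pcB1 Cut.none Ext.none)

def k0_pp_011 : ∃ t, chk3 f_pp_011 t 1 1 1 = true :=
  ⟨(l 3), by decide +kernel⟩

theorem c_pp_011 : CertB 0 536870912 536870912 536870912 587336777 62277027 3 eng mog cd1q0 cd4q1 pd1 false true true .pnn 0 1 1
    ndB1q0 ndB4q1 pcB1 Cut.none Ext.none :=
  certB0 (fam := false) (s1 := true) (s2 := true) (a := 0) (b := 1) (c := 1) (cn := .pnn) (n1 := ndB1q0) (n2 := ndB4q1) (pc := pcB1) (cut := Cut.none) (xt := Ext.none) (P1 := 0) (W1 := 536870912) (P2 := 536870912) (W2 := 536870912) (P3 := 587336777) (W3 := 62277027) (N0 := 3) (En := eng) (mo := mog) (C1 := cd1q0) (C2 := cd4q1) (C3 := pd1)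
    rfl k0_pp_011

noncomputable def cut_pp_012_a : Cut := Cut.of [[⟨0, 0, 0, 67108864⟩, ⟨1, 1, 0, 67108864⟩, ⟨2, 1, 0, 67108864⟩]]

noncomputable def f_pp_012_a : ℕ → ℕ → ℕ → ℕ → Bool := onCell 536870912 536870912 0 536870912 587336777 62277027
    (rowB 3 eng mog cd1q0 cd4q2a pd1 2 false true true .pnp 0 1 2 (qsf 0 536870912 0 536870912 1) ndB1q0 ndB4q2a pcB1 cut_pp_012_a Ext.none)

def k0_pp_012_a : ∃ t, chk3 f_pp_012_a t 1 1 1 = true :=
  ⟨(a (l 3) (a (l 3) (a (b (a (l 3) (b (b (a (b (l 16682880) (l 3)) (a (l 16671632) (l 16662512))) (a (l 3) (b (l 16675640) (l 16682472)))) (b (a (l 3) (b (l 16690112) (l 3))) (l 3)))) (l 3)) (b (a (b (a (b (b (l 16646752) (l 16651504)) (b (l 16657120) (l 16663576))) (b (l 16632336) (l 16642808))) (a (b (b (l 16670928) (l 16679224)) (b (l 16688480) (l 16719680))) (b (l 16678000) (b (l 16669904) (l 16700840))))) (b (b (a (l 16616496) (l 16601304)) (a (l 16625888) (l 16609592))) (b (a (l 16639472) (l 16643640)) (a (b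 (l 16652104) (l 16662008)) (b (l 16634840) (l 16644688)))))) (b (a (a (l 3) (b (b (a (l 16695576) (l 16686360)) (a (l 3) (l 16698704))) (b (a (l 3) (l 16712648)) (l 3)))) (b (a (b (l 16673080) (a (l 16689816) (l 16681168))) (b (l 16655832) (l 16699864))) (b (a (a (l 16703680) (l 16695184)) (a (l 16686728) (l 16678136))) (a (a (b (l 16715208) (l 16723536)) (b (l 16706648) (l 16714624))) (a (l 16701928) (l 16693072)))))) (a (l 3) (b (a (a (l 3) (b (a (l 16750480) (l 16745928)) (b (a (l 3) (l 16738368)) (l 3)))) (b (a (b (l 16714016) (l 16722600)) (b (l 16705168) (l 16713776))) (a (b (l 16741464) (a (l 16753872) (l 6))) (b (l 16743800) (l 6))))) (a (l 3) (l 6))))))))), by decide +kernel⟩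

theorem c_pp_012_a : CertB 0 536870912 0 536870912 587336777 62277027 3 eng mog cd1q0 cd4q2a pd1 false true true .pnp 0 1 2
    ndB1q0 ndB4q2a pcB1 cut_pp_012_a Ext.none :=
  certB2 (fam := false) (s1 := true) (s2 := true) (a := 0) (b := 1) (c := 2) (cn := .pnp) (n1 := ndB1q0) (n2 := ndB4q2a) (pc := pcB1) (cut := cut_pp_012_a) (xt := Ext.none) (P1 := 0) (W1 := 536870912) (P2 := 0) (W2 := 536870912) (P3 := 587336777) (W3 := 62277027) (N0 := 3) (En := eng) (mo := mog) (C1 := cd1q0) (C2 := cd4q2a) (C3 := pd1)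
    rfl (fun _ => rfl) k0_pp_012_a

noncomputable def cut_pp_012_b : Cut := Cut.of [[⟨0, 0, 0, 67108864⟩, ⟨1, 1, 0, 67108864⟩, ⟨2, 1, 0, 67108864⟩]]

noncomputable def f_pp_012_b : ℕ → ℕ → ℕ → ℕ → Bool := onCell 536870912 536870912 1239849684 370763052 587336777 62277027
    (rowB 3 eng mog cd1q0 cd4q2b pd1 2 false true true .pnp 0 1 2 (qsf 0 536870912 1239849684 370763052 1) ndB1q0 ndB4q2b pcB1 cut_pp_012_b Ext.none)

def k0_pp_012_b : ∃ t, chk3 f_pp_012_b t 1 1 1 = true :=
  ⟨(a (l 3) (a (l 3) (b (a (a (l 3) (a (a (l 3) (b (b (b (l 16664304) (l 16642688)) (l 16612616)) (b (l 16576768) (l 16542272)))) (b (b (b (l 16671512) (l 16628400)) (b (l 16607504) (l 16587888))) (b (l 16560704) (l 16525592))))) (b (b (a (a (b (l 16632816) (l 16609960)) (l 16624976)) (a (l 16608744) (l 16593752))) (a (a (l 16599016) (l 16559168)) (a (l 16541000) (l 16524016)))) (a (b (a (l 16539872) (l 16519528)) (l 16555952)) (b (a (l 16499736) (l 16480984)) (l 16472128))))) (a (a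 (l 3) (b (b (a (l 16514488) (l 16492272)) (b (l 16482840) (l 16484656))) (b (l 16494272) (l 2)))) (b (a (b (l 16480560) (l 16438288)) (b (l 16416304) (l 16393552))) (a (a (l 16465488) (l 16440160)) (a (l 16414520) (l 16388880)))))))), by decide +kernel⟩

theorem c_pp_012_b : CertB 0 536870912 1239849684 370763052 587336777 62277027 3 eng mog cd1q0 cd4q2b pd1 false true true .pnp 0 1 2
    ndB1q0 ndB4q2b pcB1 cut_pp_012_b Ext.none :=
  certB2 (fam := false) (s1 := true) (s2 := true) (a := 0) (b := 1) (c := 2) (cn := .pnp) (n1 := ndB1q0) (n2 := ndB4q2b) (pc := pcB1) (cut := cut_pp_012_b) (xt := Ext.none) (P1 := 0) (W1 := 536870912) (P2 := 1239849684) (W2 := 370763052) (P3 := 587336777) (W3 := 62277027) (N0 := 3) (En := eng) (mo := mog) (C1 := cd1q0) (C2 := cd4q2b) (C3 := pd1)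
    rfl (fun _ => rfl) k0_pp_012_b

noncomputable def cut_pp_022_a : Cut := Cut.of [[⟨0, 0, 0, 67108864⟩, ⟨1, 1, 0, 67108864⟩, ⟨2, 1, 0, 67108864⟩]]

noncomputable def f_pp_022_a : ℕ → ℕ → ℕ → ℕ → Bool := onCell 1073741824 536870912 0 536870912 587336777 62277027
    (rowB 3 eng mog cd1q0 cd4q2a pd2 2 false true true .pp 0 2 2 (qsf 0 536870912 0 536870912 2) ndB1q0 ndB4q2a pcB2 cut_pp_022_a Ext.none)

def k0_pp_022_a : ∃ t, chk3 f_pp_022_a t 2 2 1 = true :=
  ⟨(a (a (b (a (b (l 16623672) (l 16631720)) (b (a (l 16565152) (l 16552104)) (a (l 16572520) (l 16559184)))) (b (a (b (l 16598688) (l 16648184)) (a (l 16584400) (l 16570584))) (a (a (a (l 16627000) (l 16622480)) (l 16614840)) (a (l 16601000) (l 16586288))))) (b (a (b (l 16532048) (l 16538360)) (b (a (l 16510256) (l 16494792)) (a (l 16515536) (l 16541256)))) (a (b (a (l 16556072) (l 16540584)) (a (l 16570496) (l 16574640))) (b (a (l 16524160) (b (l 16504528) (l 16508968))) (a (b (l 16532488) (l 16539000))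 (b (a (l 16518744) (l 16509256)) (a (l 16524600) (l 81637453799)))))))) (a (a (b (b (a (c (l 16487944) (l 16469056)) (a (c (l 16476272) (l 16455248)) (a (c (l 16470336) (b (l 16447584) (l 16448552))) (b (a (c (l 16467208) (c (l 16449752) (l 16438144))) (a (a (a (c (l 16466160) (l 16442536)) (a (c (l 16466016) (l 16442272)) (c (l 16465944) (c (l 16448024) (l 16436152))))) (c (l 16465624) (l 16441704))) (l 1))) (a (c (l 16467496) (l 16444816)) (l 1)))))) (a (c (a (l 16494968) (l 16486904)) (l 16473184)) (a (c (b (l 16477664) (l 16479520)) (l 16458648)) (a (c (b (l 16471480) (l 16473112)) (l 16451104)) (a (c (b (l 16468408) (l 1)) (l 16447184)) (l 1)))))) (a (b (a (b (l 16491136) (l 16495040)) (c (a (l 110628440679) (l 88079854391)) (l 95596019303))) (b (c (a (l 16507440) (l 16498120)) (l 67141874023)) (a (l 41372119463) (l 1)))) (a (b (c (b (l 76268670855) (l 16485024)) (l 75194912231)) (l 1)) (l 1)))) (b (b (l 1) (l 1)) (l 1))) (l 1))), by decide +kernel⟩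

def k1_pp_022_a : ∃ t, chk3 f_pp_022_a t 2 3 1 = true :=
  ⟨(a (a (b (a (b (a (a (a (l 16692824) (l 16690584)) (l 16665992)) (l 16658072)) (a (a (b (l 16669840) (l 16684960)) (b (l 16664816) (l 16679912))) (c (l 16695520) (l 16705880)))) (b (a (l 16622200) (b (l 16600416) (l 16611032))) (a (b (l 16640264) (a (l 16657952) (l 16648632))) (b (l 16622288) (a (l 16639016) (l 16629104)))))) (b (b (a (a (a (b (l 16697240) (l 16705976)) (l 16717528)) (c (l 16713032) (a (l 16690536) (l 16680544)))) (a (b (a (l 16668304) (l 16658472)) (a (l 16675416) (l 16665208))) (b (a (l 16648344) (l 16637904)) (a (c (l 16657512) (l 16651600)) (b (l 69826522343) (l 24192502631)))))) (a (l 6) (a (l 6) (a (l 6) (a (l 6) (l 1)))))) (a (l 6) (a (l 6) (l 1))))) (b (b (a (a (b (l 16583392) (l 16593008)) (b (l 16565272) (a (l 16578760) (l 16568904)))) (a (b (a (l 16550976) (l 16541096)) (a (l 96669917751) (l 54257097447))) (b (a (l 74121289063) (l 30097858951)) (l 1)))) (a (b (a (a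 (l 16608032) (l 16598168)) (a (b (l 16585624) (l 16590344)) (b (l 16575328) (l 16579728)))) (a (a (b (l 16616104) (l 16621592)) (b (l 16605760) (l 66068365959))) (b (a (l 16616104) (l 1)) (l 1)))) (b (a (a (l 26339843079) (l 1)) (l 1)) (l 1)))) (b (b (a (a (b (a (l 55867850135) (l 16616112)) (a (l 16632760) (l 1))) (l 1)) (l 1)) (l 1)) (l 1)))) (b (l 1) (l 1))), by decide +kernel⟩

def k2_pp_022_a : ∃ t, chk3 f_pp_022_a t 3 1 1 = true :=
  ⟨(l 1), by decide +kernel⟩

theorem s3_pp_022_a : ∃ t, chk3 f_pp_022_a t 2 1 1 = true := ex3_b k0_pp_022_a k1_pp_022_a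

theorem s4_pp_022_a : ∃ t, chk3 f_pp_022_a t 1 1 1 = true := ex3_a s3_pp_022_a k2_pp_022_a

theorem c_pp_022_a : CertB 0 536870912 0 536870912 587336777 62277027 3 eng mog cd1q0 cd4q2a pd2 false true true .pp 0 2 2
    ndB1q0 ndB4q2a pcB2 cut_pp_022_a Ext.none :=
  certB2 (fam := false) (s1 := true) (s2 := true) (a := 0) (b := 2) (c := 2) (cn := .pp) (n1 := ndB1q0) (n2 := ndB4q2a) (pc := pcB2) (cut := cut_pp_022_a) (xt := Ext.none) (P1 := 0) (W1 := 536870912) (P2 := 0) (W2 := 536870912) (P3 := 587336777) (W3 := 62277027) (N0 := 3) (En := eng) (mo := mog) (C1 := cd1q0) (C2 := cd4q2a) (C3 := pd2)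
    rfl (fun _ => rfl) s4_pp_022_a

noncomputable def cut_pp_022_b : Cut := Cut.of [[⟨0, 0, 0, 67108864⟩, ⟨1, 1, 0, 67108864⟩, ⟨2, 1, 0, 67108864⟩]]

noncomputable def f_pp_022_b : ℕ → ℕ → ℕ → ℕ → Bool := onCell 1073741824 536870912 1239849684 370763052 587336777 62277027
    (rowB 3 eng mog cd1q0 cd4q2b pd2 2 false true true .pp 0 2 2 (qsf 0 536870912 1239849684 370763052 2) ndB1q0 ndB4q2b pcB2 cut_pp_022_b Ext.none)

def k0_pp_022_b : ∃ t, chk3 f_pp_022_b t 4 1 1 = true :=
  ⟨(b (b (a (b (a (b (l 16566792) (l 16541440)) (b (l 16577744) (l 16525376))) (a (l 16565752) (l 16472240))) (b (a (b (a (l 16527072) (l 16513760)) (l 16502504)) (b (a (l 16499984) (l 16485536)) (l 16476496))) (a (l 16476280) (b (l 16461048) (l 16446456))))) (a (b (c (l 16595600) (l 16590840)) (l 16531424)) (b (a (l 16439656) (l 16424600)) (a (l 16400944) (l 16394288))))) (b (a (a (b (l 16381048) (l 16357232)) (l 16426136)) (b (l 16361712) (l 16310432))) (a (b (l 16408576) (l 16356336))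 (a (l 16305440) (l 16266088))))), by decide +kernel⟩

def k1_pp_022_b : ∃ t, chk3 f_pp_022_b t 5 4 1 = true :=
  ⟨(a (a (a (b (b (b (l 16473984) (l 16466776)) (l 16456072)) (l 16435240)) (b (a (b (c (l 16469448) (l 16447520)) (l 16445416)) (b (a (b (c (l 16467064) (l 16444080)) (l 16449352)) (a (b (c (l 16464312) (b (l 16442136) (l 16439032))) (l 16446440)) (b (c (a (a (a (l 16463328) (a (l 16463200) (l 16463160))) (l 16462840)) (l 16462088)) (a (a (a (l 16439240) (a (l 16439008) (c (l 16444896) (l 16432776)))) (l 16438472)) (l 16437592))) (c (l 16456880) (c (l 16438384) (l 16426016)))))) (a (l 16440040) (a (l 16437448) (b (l 16438752) (l 16432936)))))) (a (l 16425936) (a (l 16421496) (a (l 16419480) (l 16418408)))))) (b (b (a (b (c (a (l 128345066039) (l 99890879511)) (a (b (l 100427702167) (l 16430896)) (a (l 88616532023) (l 1)))) (c (l 79489816967) (a (l 16426624) (b (l 80563458071) (l 16416200))))) (b (l 1) (c (l 141766787255) (l 127808083399)))) (a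 (b (c (l 16442888) (l 16416632)) (l 16424464)) (b (c (l 164315393303) (l 146061654807)) (c (l 16424864) (l 16394688))))) (a (b (l 16416360) (l 16405432)) (b (l 16403528) (l 16394784))))) (b (a (b (l 1) (a (b (l 1) (c (a (l 130492500583) (l 144451093015)) (l 144451029767))) (l 1))) (l 1)) (a (a (b (b (c (a (l 16412208) (l 147135482375)) (l 157335887639)) (l 16389080)) (l 16384528)) (c (b (b (a (l 153041009943) (l 1)) (l 155725396615)) (b (l 16393248) (l 16391248))) (b (b (l 149282827735) (l 148209038311)) (l 16353160)))) (b (a (b (l 1) (c (l 148746008471) (l 157872725383))) (l 1)) (a (b (a (l 159483482999) (l 157872762487)) (a (l 16363200) (l 174515819351))) (b (l 1) (a (l 163778329255) (l 1)))))))), by decide +kernel⟩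

def k2_pp_022_b : ∃ t, chk3 f_pp_022_b t 5 5 1 = true :=
  ⟨(a (a (a (b (l 16410016) (l 16385056)) (b (a (l 16402120) (a (l 16398304) (l 16438912))) (a (l 16379872) (l 16378784)))) (b (a (l 16389760) (l 16381504)) (l 16369368))) (b (a (b (l 16373832) (l 16368432)) (b (a (l 16359096) (b (l 168610140439) (l 16348240))) (l 16353208))) (a (l 16362232) (l 16352528)))), by decide +kernel⟩

def k3_pp_022_b : ∃ t, chk3 f_pp_022_b t 5 3 1 = true :=
  ⟨(a (b (a (a (b (l 16357840) (l 16320160)) (b (a (l 16355304) (l 16356488)) (a (l 16321320) (l 16325464)))) (b (l 16351752) (l 16326144))) (a (a (l 16230600) (a (l 16222696) (l 16233536))) (l 16247632))) (b (b (l 16354456) (l 16345160)) (b (l 16320584) (l 16282920)))), by decide +kernel⟩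

def k4_pp_022_b : ∃ t, chk3 f_pp_022_b t 3 1 1 = true :=
  ⟨(b (a (b (l 1) (a (b (a (b (a (c (l 186863801575) (l 178810633175)) (l 1)) (a (b (l 164851949959) (l 16340096)) (b (a (l 190084963943) (l 1)) (l 169146889911)))) (b (l 1) (a (b (l 1) (l 178810655703)) (l 1)))) (a (b (a (l 16342368) (l 16334712)) (l 16342096)) (b (a (b (l 173441954343) (l 16328488)) (b (l 1) (l 206727942519))) (a (l 16333440) (l 159483192183))))) (b (l 1) (a (b (l 1) (a (l 224981553751) (l 1))) (l 1))))) (l 1)) (a (b (a (b (a (l 16346272) (l 16340144)) (l 16347920)) (b (a (b (a (l 16330448) (l 244845791511)) (l 16338560)) (b (l 266320630135) (l 233034577703))) (a (l 16345048) (b (l 206191041751) (l 16355608))))) (a (b (l 16340088) (l 16326360)) (b (l 16349976) (l 16347752)))) (b (a (b (l 1) (a (b (l 314102213447) (l 210486008663)) (l 345777632919))) (l 1)) (a (b (a (l 16373304) (l 194917191319)) (l 16431024)) (b (a (l 294774966823) (l 1)) (a (l 16427296) (l 337188203831))))))),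 by decide +kernel⟩

theorem s5_pp_022_b : ∃ t, chk3 f_pp_022_b t 5 2 1 = true := ex3_b k1_pp_022_b k2_pp_022_b

theorem s6_pp_022_b : ∃ t, chk3 f_pp_022_b t 5 1 1 = true := ex3_b s5_pp_022_b k3_pp_022_b

theorem s7_pp_022_b : ∃ t, chk3 f_pp_022_b t 2 1 1 = true := ex3_a k0_pp_022_b s6_pp_022_b

theorem s8_pp_022_b : ∃ t, chk3 f_pp_022_b t 1 1 1 = true := ex3_a s7_pp_022_b k4_pp_022_b

theorem c_pp_022_b : CertB 0 536870912 1239849684 370763052 587336777 62277027 3 eng mog cd1q0 cd4q2b pd2 false true true .pp 0 2 2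
    ndB1q0 ndB4q2b pcB2 cut_pp_022_b Ext.none :=
  certB2 (fam := false) (s1 := true) (s2 := true) (a := 0) (b := 2) (c := 2) (cn := .pp) (n1 := ndB1q0) (n2 := ndB4q2b) (pc := pcB2) (cut := cut_pp_022_b) (xt := Ext.none) (P1 := 0) (W1 := 536870912) (P2 := 1239849684) (W2 := 370763052) (P3 := 587336777) (W3 := 62277027) (N0 := 3) (En := eng) (mo := mog) (C1 := cd1q0) (C2 := cd4q2b) (C3 := pd2)
    rfl (fun _ => rfl) s8_pp_022_b

noncomputable def f_pp_023 : ℕ → ℕ → ℕ → ℕ → Bool := onCell 1073741824 536870912 1610612736 536870912 587336777 62277027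
    (rowB 3 eng mog cd1q0 cd4q3 pd2 2 false true true .up 0 2 3 (qsf 0 536870912 1610612736 536870912 2) ndB1q0 ndB4q3 pcB2 Cut.none Ext.none)

def k0_pp_023 : ∃ t, chk3 f_pp_023 t 1 1 1 = true :=
  ⟨(a (b (a (b (a (b (l 16458176) (l 16530264)) (b (l 16389880) (l 16449488))) (a (l 2) (l 299674092935))) (a (b (a (a (l 16368176) (b (l 16319640) (l 16379568))) (l 16313216)) (a (a (l 16551136) (l 16538048)) (l 16516384))) (b (b (l 16189464) (l 16273640)) (l 16485568)))) (a (l 2) (b (a (l 2) (l 16606328)) (l 2)))) (b (a (b (a (l 16407616) (b (l 16396048) (l 16256768))) (a (l 16445840) (l 16423760))) (b (b (a (l 16345944) (l 16390240)) (l 16588440)) (a (l 16440736) (l 16475424)))) (a (b (a (l 16603440) (l 16598528)) (a (l 2) (l 16654232))) (b (l 16686200) (a (l 16671456) (l 16678352)))))), by decide +kernel⟩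

theorem c_pp_023 : CertB 0 536870912 1610612736 536870912 587336777 62277027 3 eng mog cd1q0 cd4q3 pd2 false true true .up 0 2 3
    ndB1q0 ndB4q3 pcB2 Cut.none Ext.none :=
  certB2 (fam := false) (s1 := true) (s2 := true) (a := 0) (b := 2) (c := 3) (cn := .up) (n1 := ndB1q0) (n2 := ndB4q3) (pc := pcB2) (cut := Cut.none) (xt := Ext.none) (P1 := 0) (W1 := 536870912) (P2 := 1610612736) (W2 := 536870912) (P3 := 587336777) (W3 := 62277027) (N0 := 3) (En := eng) (mo := mog) (C1 := cd1q0) (C2 := cd4q3) (C3 := pd2)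
    rfl (fun _ => rfl) k0_pp_023

noncomputable def f_pp_033 : ℕ → ℕ → ℕ → ℕ → Bool := onCell 1610612736 536870912 1610612736 536870912 587336777 62277027
    (rowB 3 eng mog cd1q0 cd4q3 pd3 2 false true true .pnn 0 3 3 (qsf 0 536870912 1610612736 536870912 3) ndB1q0 ndB4q3 pcB3 Cut.none Ext.none)

def k0_pp_033 : ∃ t, chk3 f_pp_033 t 1 1 1 = true :=
  ⟨(a (b (a (a (b (a (b (a (l 358662616407) (l 347388476663)) (l 16413672)) (l 362420670951)) (a (l 16482816) (l 16444664))) (a (b (l 382821649175) (l 16441448)) (b (l 403759636615) (l 16438856)))) (b (a (b (l 1) (a (l 460131121703) (l 1))) (l 1)) (a (a (b (l 16411512) (l 16452528)) (l 437582736135)) (b (l 495564718583) (l 16462552))))) (a (a (b (a (l 16596056) (l 16573440)) (l 16669224)) (b (l 16554056) (l 16646400))) (a (b (l 16675984) (l 16624392)) (b (b (l 16497616) (l 16536544)) (l 16601904))))) (b (a (b (l 1) (a (b (l 1) (a (l 16482872) (l 1))) (l 1))) (l 1)) (b (a (a (a (l 16519160) (l 16518512)) (l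 4)) (a (b (l 1) (l 4)) (l 1))) (l 4)))), by decide +kernel⟩

theorem c_pp_033 : CertB 0 536870912 1610612736 536870912 587336777 62277027 3 eng mog cd1q0 cd4q3 pd3 false true true .pnn 0 3 3
    ndB1q0 ndB4q3 pcB3 Cut.none Ext.none :=
  certB2 (fam := false) (s1 := true) (s2 := true) (a := 0) (b := 3) (c := 3) (cn := .pnn) (n1 := ndB1q0) (n2 := ndB4q3) (pc := pcB3) (cut := Cut.none) (xt := Ext.none) (P1 := 0) (W1 := 536870912) (P2 := 1610612736) (W2 := 536870912) (P3 := 587336777) (W3 := 62277027) (N0 := 3) (En := eng) (mo := mog) (C1 := cd1q0) (C2 := cd4q3) (C3 := pd3)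
    rfl (fun _ => rfl) k0_pp_033

noncomputable def f_pp_101 : ℕ → ℕ → ℕ → ℕ → Bool := onCell 536870912 536870912 536870912 536870912 587336777 62277027
    (rowB 3 eng mog cd1q1 cd4q1 pd0 0 false true true .npn 1 0 1 (qsf 536870912 536870912 536870912 536870912 0) ndB1q1 ndB4q1 pcB0 Cut.none Ext.none)

def k0_pp_101 : ∃ t, chk3 f_pp_101 t 1 1 1 = true :=
  ⟨(l 3), by decide +kernel⟩

theorem c_pp_101 : CertB 536870912 536870912 536870912 536870912 587336777 62277027 3 eng mog cd1q1 cd4q1 pd0 false true true .npn 1 0 1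
    ndB1q1 ndB4q1 pcB0 Cut.none Ext.none :=
  certB0 (fam := false) (s1 := true) (s2 := true) (a := 1) (b := 0) (c := 1) (cn := .npn) (n1 := ndB1q1) (n2 := ndB4q1) (pc := pcB0) (cut := Cut.none) (xt := Ext.none) (P1 := 536870912) (W1 := 536870912) (P2 := 536870912) (W2 := 536870912) (P3 := 587336777) (W3 := 62277027) (N0 := 3) (En := eng) (mo := mog) (C1 := cd1q1) (C2 := cd4q1) (C3 := pd0)
    rfl k0_pp_101

noncomputable def f_pp_102_a : ℕ → ℕ → ℕ → ℕ → Bool := onCell 536870912 536870912 0 536870912 587336777 62277027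
    (rowB 3 eng mog cd1q1 cd4q2a pd0 0 false true true .npp 1 0 2 (qsf 536870912 536870912 0 536870912 0) ndB1q1 ndB4q2a pcB0 Cut.none Ext.none)

def k0_pp_102_a : ∃ t, chk3 f_pp_102_a t 1 1 1 = true :=
  ⟨(l 3), by decide +kernel⟩

theorem c_pp_102_a : CertB 536870912 536870912 0 536870912 587336777 62277027 3 eng mog cd1q1 cd4q2a pd0 false true true .npp 1 0 2
    ndB1q1 ndB4q2a pcB0 Cut.none Ext.none :=
  certB0 (fam := false) (s1 := true) (s2 := true) (a := 1) (b := 0) (c := 2) (cn := .npp) (n1 := ndB1q1) (n2 := ndB4q2a) (pc := pcB0) (cut := Cut.none) (xt := Ext.none) (P1 := 536870912) (W1 := 536870912) (P2 := 0) (W2 := 536870912) (P3 := 587336777) (W3 := 62277027) (N0 := 3) (En := eng) (mo := mog) (C1 := cd1q1) (C2 := cd4q2a) (C3 := pd0)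
    rfl k0_pp_102_a

noncomputable def f_pp_102_b : ℕ → ℕ → ℕ → ℕ → Bool := onCell 536870912 536870912 0 536870912 587336777 62277027
    (rowB 3 eng mog cd1q1 cd4q2b pd0 1 false true true .npp 1 0 2 (qsf 536870912 536870912 1239849684 370763052 0) ndB1q1 ndB4q2b pcB0 Cut.none Ext.none)

def k0_pp_102_b : ∃ t, chk3 f_pp_102_b t 1 1 1 = true :=
  ⟨(l 3), by decide +kernel⟩

theorem c_pp_102_b : CertB 536870912 536870912 1239849684 370763052 587336777 62277027 3 eng mog cd1q1 cd4q2b pd0 false true true .npp 1 0 2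
    ndB1q1 ndB4q2b pcB0 Cut.none Ext.none :=
  certB1 (fam := false) (s1 := true) (s2 := true) (a := 1) (b := 0) (c := 2) (cn := .npp) (n1 := ndB1q1) (n2 := ndB4q2b) (pc := pcB0) (cut := Cut.none) (xt := Ext.none) (P1 := 536870912) (W1 := 536870912) (P2 := 1239849684) (W2 := 370763052) (P3 := 587336777) (W3 := 62277027) (N0 := 3) (En := eng) (mo := mog) (C1 := cd1q1) (C2 := cd4q2b) (C3 := pd0)
    rfl (fun _ => rfl) k0_pp_102_b

noncomputable def f_pp_112_a : ℕ → ℕ → ℕ → ℕ → Bool := onCell 536870912 536870912 0 536870912 587336777 62277027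
    (rowB 3 eng mog cd1q1 cd4q2a pd1 0 false true true .dn 1 1 2 (qsf 536870912 536870912 0 536870912 1) ndB1q1 ndB4q2a pcB1 Cut.none Ext.none)

def k0_pp_112_a : ∃ t, chk3 f_pp_112_a t 1 1 1 = true :=
  ⟨(l 3), by decide +kernel⟩

theorem c_pp_112_a : CertB 536870912 536870912 0 536870912 587336777 62277027 3 eng mog cd1q1 cd4q2a pd1 false true true .dn 1 1 2
    ndB1q1 ndB4q2a pcB1 Cut.none Ext.none :=
  certB0 (fam := false) (s1 := true) (s2 := true) (a := 1) (b := 1) (c := 2) (cn := .dn) (n1 := ndB1q1) (n2 := ndB4q2a) (pc := pcB1) (cut := Cut.none) (xt := Ext.none) (P1 := 536870912) (W1 := 536870912) (P2 := 0) (W2 := 536870912) (P3 := 587336777) (W3 := 62277027) (N0 := 3) (En := eng) (mo := mog) (C1 := cd1q1) (C2 := cd4q2a) (C3 := pd1)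
    rfl k0_pp_112_a

noncomputable def f_pp_112_b : ℕ → ℕ → ℕ → ℕ → Bool := onCell 536870912 536870912 1239849684 370763052 587336777 62277027
    (rowB 3 eng mog cd1q1 cd4q2b pd1 2 false true true .dn 1 1 2 (qsf 536870912 536870912 1239849684 370763052 1) ndB1q1 ndB4q2b pcB1 Cut.none Ext.none)

def k0_pp_112_b : ∃ t, chk3 f_pp_112_b t 1 1 1 = true :=
  ⟨(a (l 3) (a (l 3) (b (l 1) (a (a (l 3) (b (b (l 1) (a (l 3) (l 1))) (b (a (l 3) (l 16519880)) (l 24863447191)))) (b (l 1) (a (b (l 16487376) (l 16506360)) (b (l 1) (l 16454792)))))))), by decide +kernel⟩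

theorem c_pp_112_b : CertB 536870912 536870912 1239849684 370763052 587336777 62277027 3 eng mog cd1q1 cd4q2b pd1 false true true .dn 1 1 2
    ndB1q1 ndB4q2b pcB1 Cut.none Ext.none :=
  certB2 (fam := false) (s1 := true) (s2 := true) (a := 1) (b := 1) (c := 2) (cn := .dn) (n1 := ndB1q1) (n2 := ndB4q2b) (pc := pcB1) (cut := Cut.none) (xt := Ext.none) (P1 := 536870912) (W1 := 536870912) (P2 := 1239849684) (W2 := 370763052) (P3 := 587336777) (W3 := 62277027) (N0 := 3) (En := eng) (mo := mog) (C1 := cd1q1) (C2 := cd4q2b) (C3 := pd1)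
    rfl (fun _ => rfl) k0_pp_112_b

noncomputable def f_pp_113 : ℕ → ℕ → ℕ → ℕ → Bool := onCell 536870912 536870912 536870912 536870912 587336777 62277027
    (rowB 3 eng mog cd1q1 cd4q3 pd1 1 false true true .nn 1 1 3 (qsf 536870912 536870912 1610612736 536870912 1) ndB1q1 ndB4q3 pcB1 Cut.none Ext.none)

def k0_pp_113 : ∃ t, chk3 f_pp_113 t 1 1 1 = true :=
  ⟨(b (l 3) (b (a (l 3) (l 3)) (a (b (b (l 3) (a (a (l 112239236679) (c (l 54928455559) (l 53854609463))) (a (l 100025762743) (l 140291158439)))) (a (b (a (l 49962128503) (a (l 16657760) (l 16723936))) (a (l 37614029623) (a (l 16643728) (l 16704992)))) (b (a (b (l 16797136) (l 16787104)) (b (l 16866176) (l 16853896))) (a (a (l 16751864) (l 16791032)) (a (l 16822712) (l 16847928)))))) (b (a (b (l 3) (l 3)) (l 3)) (a (b (a (b (l 16888864) (l 16893184)) (b (l 16936296) (l 16913744))) (a (b (l 16877624) (l 16862288)) (b (l 16893760) (l 16874816)))) (b (a (b (l 270750674423) (l 16908872)) (b (l 3) (a (l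 16852760) (l 317995508151)))) (a (b (l 16884096) (l 16861256)) (b (l 16829704) (l 16819520))))))))), by decide +kernel⟩

theorem c_pp_113 : CertB 536870912 536870912 1610612736 536870912 587336777 62277027 3 eng mog cd1q1 cd4q3 pd1 false true true .nn 1 1 3
    ndB1q1 ndB4q3 pcB1 Cut.none Ext.none :=
  certB1 (fam := false) (s1 := true) (s2 := true) (a := 1) (b := 1) (c := 3) (cn := .nn) (n1 := ndB1q1) (n2 := ndB4q3) (pc := pcB1) (cut := Cut.none) (xt := Ext.none) (P1 := 536870912) (W1 := 536870912) (P2 := 1610612736) (W2 := 536870912) (P3 := 587336777) (W3 := 62277027) (N0 := 3) (En := eng) (mo := mog) (C1 := cd1q1) (C2 := cd4q3) (C3 := pd1)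
    rfl (fun _ => rfl) k0_pp_113

noncomputable def f_pp_123 : ℕ → ℕ → ℕ → ℕ → Bool := onCell 1073741824 536870912 1610612736 536870912 587336777 62277027
    (rowB 3 eng mog cd1q1 cd4q3 pd2 2 false true true .npn 1 2 3 (qsf 536870912 536870912 1610612736 536870912 2) ndB1q1 ndB4q3 pcB2 Cut.none Ext.none)

def k0_pp_123 : ∃ t, chk3 f_pp_123 t 1 1 1 = true :=
  ⟨(a (b (a (b (a (b (a (l 16523600) (l 16494528)) (l 16599088)) (b (l 16469680) (l 16505240))) (a (b (c (l 16730384) (l 16656416)) (l 16834832)) (b (l 16602488) (l 16680504)))) (a (b (a (a (l 16461816) (l 1)) (l 1)) (a (a (l 16592880) (l 16575696)) (l 16551472))) (b (l 1) (l 16527768)))) (a (b (a (b (l 16830104) (l 16949184)) (b (l 16725320) (l 16746672))) (a (b (l 16818280) (l 16890672)) (b (l 16749928) (l 16731000)))) (a (b (a (a (l 16694152) (l 16679288)) (l 16657760)) (a (b (l 16894232) (l 16702600)) (l 16682632))) (b (l 16636968) (l 16716120))))) (b (a (b (l 1) (a (l 16515968) (l 1))) (l 1))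 (a (b (a (l 16621608) (l 16619616)) (a (l 16669568) (l 16670320))) (b (l 16585176) (a (l 16681848) (l 16691880)))))), by decide +kernel⟩

theorem c_pp_123 : CertB 536870912 536870912 1610612736 536870912 587336777 62277027 3 eng mog cd1q1 cd4q3 pd2 false true true .npn 1 2 3
    ndB1q1 ndB4q3 pcB2 Cut.none Ext.none :=
  certB2 (fam := false) (s1 := true) (s2 := true) (a := 1) (b := 2) (c := 3) (cn := .npn) (n1 := ndB1q1) (n2 := ndB4q3) (pc := pcB2) (cut := Cut.none) (xt := Ext.none) (P1 := 536870912) (W1 := 536870912) (P2 := 1610612736) (W2 := 536870912) (P3 := 587336777) (W3 := 62277027) (N0 := 3) (En := eng) (mo := mog) (C1 := cd1q1) (C2 := cd4q3) (C3 := pd2)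
    rfl (fun _ => rfl) k0_pp_123

noncomputable def f_pp_133 : ℕ → ℕ → ℕ → ℕ → Bool := onCell 1610612736 536870912 1610612736 536870912 587336777 62277027
    (rowB 3 eng mog cd1q1 cd4q3 pd3 2 false true true .dn 1 3 3 (qsf 536870912 536870912 1610612736 536870912 3) ndB1q1 ndB4q3 pcB3 Cut.none Ext.none)

def k0_pp_133 : ∃ t, chk3 f_pp_133 t 1 1 1 = true :=
  ⟨(a (b (l 1) (a (a (b (l 1) (l 16695760)) (l 1)) (l 1))) (l 1)), by decide +kernel⟩

theorem c_pp_133 : CertB 536870912 536870912 1610612736 536870912 587336777 62277027 3 eng mog cd1q1 cd4q3 pd3 false true true .dn 1 3 3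
    ndB1q1 ndB4q3 pcB3 Cut.none Ext.none :=
  certB2 (fam := false) (s1 := true) (s2 := true) (a := 1) (b := 3) (c := 3) (cn := .dn) (n1 := ndB1q1) (n2 := ndB4q3) (pc := pcB3) (cut := Cut.none) (xt := Ext.none) (P1 := 536870912) (W1 := 536870912) (P2 := 1610612736) (W2 := 536870912) (P3 := 587336777) (W3 := 62277027) (N0 := 3) (En := eng) (mo := mog) (C1 := cd1q1) (C2 := cd4q3) (C3 := pd3)
    rfl (fun _ => rfl) k0_pp_133

noncomputable def f_pp_202_aa : ℕ → ℕ → ℕ → ℕ → Bool := onCell 0 536870912 0 536870912 587336777 62277027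
    (rowB 3 eng mog cd1q2a cd4q2a pd0 0 false true true .pp 2 0 2 (qsf 0 536870912 0 536870912 0) ndB1q2a ndB4q2a pcB0 Cut.none Ext.none)

def k0_pp_202_aa : ∃ t, chk3 f_pp_202_aa t 1 1 1 = true :=
  ⟨(l 3), by decide +kernel⟩

theorem c_pp_202_aa : CertB 0 536870912 0 536870912 587336777 62277027 3 eng mog cd1q2a cd4q2a pd0 false true true .pp 2 0 2
    ndB1q2a ndB4q2a pcB0 Cut.none Ext.none :=
  certB0 (fam := false) (s1 := true) (s2 := true) (a := 2) (b := 0) (c := 2) (cn := .pp) (n1 := ndB1q2a) (n2 := ndB4q2a) (pc := pcB0) (cut := Cut.none) (xt := Ext.none) (P1 := 0) (W1 := 536870912) (P2 := 0) (W2 := 536870912) (P3 := 587336777) (W3 := 62277027) (N0 := 3) (En := eng) (mo := mog) (C1 := cd1q2a) (C2 := cd4q2a) (C3 := pd0)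
    rfl k0_pp_202_aa

noncomputable def f_pp_202_ab : ℕ → ℕ → ℕ → ℕ → Bool := onCell 0 536870912 1239849684 370763052 587336777 62277027
    (rowB 3 eng mog cd1q2a cd4q2b pd0 0 false true true .pp 2 0 2 (qsf 0 536870912 1239849684 370763052 0) ndB1q2a ndB4q2b pcB0 Cut.none Ext.none)

def k0_pp_202_ab : ∃ t, chk3 f_pp_202_ab t 1 1 1 = true :=
  ⟨(l 3), by decide +kernel⟩

theorem c_pp_202_ab : CertB 0 536870912 1239849684 370763052 587336777 62277027 3 eng mog cd1q2a cd4q2b pd0 false true true .pp 2 0 2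
    ndB1q2a ndB4q2b pcB0 Cut.none Ext.none :=
  certB0 (fam := false) (s1 := true) (s2 := true) (a := 2) (b := 0) (c := 2) (cn := .pp) (n1 := ndB1q2a) (n2 := ndB4q2b) (pc := pcB0) (cut := Cut.none) (xt := Ext.none) (P1 := 0) (W1 := 536870912) (P2 := 1239849684) (W2 := 370763052) (P3 := 587336777) (W3 := 62277027) (N0 := 3) (En := eng) (mo := mog) (C1 := cd1q2a) (C2 := cd4q2b) (C3 := pd0)
    rfl k0_pp_202_ab

noncomputable def f_pp_202_ba : ℕ → ℕ → ℕ → ℕ → Bool := onCell 1239849684 370763052 0 536870912 587336777 62277027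
    (rowB 3 eng mog cd1q2b cd4q2a pd0 0 false true true .pp 2 0 2 (qsf 1239849684 370763052 0 536870912 0) ndB1q2b ndB4q2a pcB0 Cut.none Ext.none)

def k0_pp_202_ba : ∃ t, chk3 f_pp_202_ba t 1 1 1 = true :=
  ⟨(l 3), by decide +kernel⟩

theorem c_pp_202_ba : CertB 1239849684 370763052 0 536870912 587336777 62277027 3 eng mog cd1q2b cd4q2a pd0 false true true .pp 2 0 2
    ndB1q2b ndB4q2a pcB0 Cut.none Ext.none :=
  certB0 (fam := false) (s1 := true) (s2 := true) (a := 2) (b := 0) (c := 2) (cn := .pp) (n1 := ndB1q2b) (n2 := ndB4q2a) (pc := pcB0) (cut := Cut.none) (xt := Ext.none) (P1 := 1239849684) (W1 := 370763052) (P2 := 0) (W2 := 536870912) (P3 := 587336777) (W3 := 62277027) (N0 := 3) (En := eng) (mo := mog) (C1 := cd1q2b) (C2 := cd4q2a) (C3 := pd0)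
    rfl k0_pp_202_ba

noncomputable def f_pp_202_bb : ℕ → ℕ → ℕ → ℕ → Bool := onCell 1239849684 370763052 1239849684 370763052 587336777 62277027
    (rowB 3 eng mog cd1q2b cd4q2b pd0 0 false true true .pp 2 0 2 (qsf 1239849684 370763052 1239849684 370763052 0) ndB1q2b ndB4q2b pcB0 Cut.none Ext.none)

def k0_pp_202_bb : ∃ t, chk3 f_pp_202_bb t 1 1 1 = true :=
  ⟨(l 3), by decide +kernel⟩

theorem c_pp_202_bb : CertB 1239849684 370763052 1239849684 370763052 587336777 62277027 3 eng mog cd1q2b cd4q2b pd0 false true true .pp 2 0 2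
    ndB1q2b ndB4q2b pcB0 Cut.none Ext.none :=
  certB0 (fam := false) (s1 := true) (s2 := true) (a := 2) (b := 0) (c := 2) (cn := .pp) (n1 := ndB1q2b) (n2 := ndB4q2b) (pc := pcB0) (cut := Cut.none) (xt := Ext.none) (P1 := 1239849684) (W1 := 370763052) (P2 := 1239849684) (W2 := 370763052) (P3 := 587336777) (W3 := 62277027) (N0 := 3) (En := eng) (mo := mog) (C1 := cd1q2b) (C2 := cd4q2b) (C3 := pd0)
    rfl k0_pp_202_bb

noncomputable def f_pp_203_a : ℕ → ℕ → ℕ → ℕ → Bool := onCell 0 536870912 0 536870912 587336777 62277027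
    (rowB 3 eng mog cd1q2a cd4q3 pd0 1 false true true .up 2 0 3 (qsf 0 536870912 1610612736 536870912 0) ndB1q2a ndB4q3 pcB0 Cut.none Ext.none)

def k0_pp_203_a : ∃ t, chk3 f_pp_203_a t 1 1 1 = true :=
  ⟨(l 3), by decide +kernel⟩

theorem c_pp_203_a : CertB 0 536870912 1610612736 536870912 587336777 62277027 3 eng mog cd1q2a cd4q3 pd0 false true true .up 2 0 3
    ndB1q2a ndB4q3 pcB0 Cut.none Ext.none :=
  certB1 (fam := false) (s1 := true) (s2 := true) (a := 2) (b := 0) (c := 3) (cn := .up) (n1 := ndB1q2a) (n2 := ndB4q3) (pc := pcB0) (cut := Cut.none) (xt := Ext.none) (P1 := 0) (W1 := 536870912) (P2 := 1610612736) (W2 := 536870912) (P3 := 587336777) (W3 := 62277027) (N0 := 3) (En := eng) (mo := mog) (C1 := cd1q2a) (C2 := cd4q3) (C3 := pd0)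
    rfl (fun _ => rfl) k0_pp_203_a

noncomputable def f_pp_203_b : ℕ → ℕ → ℕ → ℕ → Bool := onCell 1239849684 370763052 1610612736 536870912 587336777 62277027
    (rowB 3 eng mog cd1q2b cd4q3 pd0 0 false true true .up 2 0 3 (qsf 1239849684 370763052 1610612736 536870912 0) ndB1q2b ndB4q3 pcB0 Cut.none Ext.none)

def k0_pp_203_b : ∃ t, chk3 f_pp_203_b t 1 1 1 = true :=
  ⟨(l 3), by decide +kernel⟩

theorem c_pp_203_b : CertB 1239849684 370763052 1610612736 536870912 587336777 62277027 3 eng mog cd1q2b cd4q3 pd0 false true true .up 2 0 3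
    ndB1q2b ndB4q3 pcB0 Cut.none Ext.none :=
  certB0 (fam := false) (s1 := true) (s2 := true) (a := 2) (b := 0) (c := 3) (cn := .up) (n1 := ndB1q2b) (n2 := ndB4q3) (pc := pcB0) (cut := Cut.none) (xt := Ext.none) (P1 := 1239849684) (W1 := 370763052) (P2 := 1610612736) (W2 := 536870912) (P3 := 587336777) (W3 := 62277027) (N0 := 3) (En := eng) (mo := mog) (C1 := cd1q2b) (C2 := cd4q3) (C3 := pd0)
    rfl k0_pp_203_b

noncomputable def cut_pp_213_a : Cut := Cut.of [[⟨0, 1, 0, 67108864⟩, ⟨1, 1, 0, 67108864⟩, ⟨2, 2, 0, 16777216⟩]]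

noncomputable def f_pp_213_a : ℕ → ℕ → ℕ → ℕ → Bool := onCell 0 536870912 1610612736 536870912 587336777 62277027
    (rowB 3 eng mog cd1q2a cd4q3 pd1 0 false true true .pnn 2 1 3 (qsf 0 536870912 1610612736 536870912 1) ndB1q2a ndB4q3 pcB1 cut_pp_213_a Ext.none)

def k0_pp_213_a : ∃ t, chk3 f_pp_213_a t 1 1 1 = true :=
  ⟨(b (l 3) (b (l 3) (a (l 3) (a (l 3) (b (l 3) (a (l 3) (b (l 3) (b (l 3) (b (l 3) (l 6)))))))))), by decide +kernel⟩

theorem c_pp_213_a : CertB 0 536870912 1610612736 536870912 587336777 62277027 3 eng mog cd1q2a cd4q3 pd1 false true true .pnn 2 1 3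
    ndB1q2a ndB4q3 pcB1 cut_pp_213_a Ext.none :=
  certB0 (fam := false) (s1 := true) (s2 := true) (a := 2) (b := 1) (c := 3) (cn := .pnn) (n1 := ndB1q2a) (n2 := ndB4q3) (pc := pcB1) (cut := cut_pp_213_a) (xt := Ext.none) (P1 := 0) (W1 := 536870912) (P2 := 1610612736) (W2 := 536870912) (P3 := 587336777) (W3 := 62277027) (N0 := 3) (En := eng) (mo := mog) (C1 := cd1q2a) (C2 := cd4q3) (C3 := pd1)
    rfl k0_pp_213_a

noncomputable def cut_pp_213_b : Cut := Cut.of [[⟨0, 1, 0, 67108864⟩, ⟨1, 1, 0, 67108864⟩, ⟨2, 2, 0, 16777216⟩]]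

noncomputable def f_pp_213_b : ℕ → ℕ → ℕ → ℕ → Bool := onCell 1239849684 370763052 1610612736 536870912 587336777 62277027
    (rowB 3 eng mog cd1q2b cd4q3 pd1 0 false true true .pnn 2 1 3 (qsf 1239849684 370763052 1610612736 536870912 1) ndB1q2b ndB4q3 pcB1 cut_pp_213_b Ext.none)

def k0_pp_213_b : ∃ t, chk3 f_pp_213_b t 1 1 1 = true :=
  ⟨(l 3), by decide +kernel⟩

theorem c_pp_213_b : CertB 1239849684 370763052 1610612736 536870912 587336777 62277027 3 eng mog cd1q2b cd4q3 pd1 false true true .pnn 2 1 3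
    ndB1q2b ndB4q3 pcB1 cut_pp_213_b Ext.none :=
  certB0 (fam := false) (s1 := true) (s2 := true) (a := 2) (b := 1) (c := 3) (cn := .pnn) (n1 := ndB1q2b) (n2 := ndB4q3) (pc := pcB1) (cut := cut_pp_213_b) (xt := Ext.none) (P1 := 1239849684) (W1 := 370763052) (P2 := 1610612736) (W2 := 536870912) (P3 := 587336777) (W3 := 62277027) (N0 := 3) (En := eng) (mo := mog) (C1 := cd1q2b) (C2 := cd4q3) (C3 := pd1)
    rfl k0_pp_213_b

noncomputable def f_pp_303 : ℕ → ℕ → ℕ → ℕ → Bool := onCell 1610612736 536870912 1610612736 536870912 587336777 62277027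
    (rowB 3 eng mog cd1q3 cd4q3 pd0 0 false true true .npn 3 0 3 (qsf 1610612736 536870912 1610612736 536870912 0) ndB1q3 ndB4q3 pcB0 Cut.none Ext.none)

def k0_pp_303 : ∃ t, chk3 f_pp_303 t 1 1 1 = true :=
  ⟨(l 3), by decide +kernel⟩

theorem c_pp_303 : CertB 1610612736 536870912 1610612736 536870912 587336777 62277027 3 eng mog cd1q3 cd4q3 pd0 false true true .npn 3 0 3
    ndB1q3 ndB4q3 pcB0 Cut.none Ext.none :=
  certB0 (fam := false) (s1 := true) (s2 := true) (a := 3) (b := 0) (c := 3) (cn := .npn) (n1 := ndB1q3) (n2 := ndB4q3) (pc := pcB0) (cut := Cut.none) (xt := Ext.none) (P1 := 1610612736) (W1 := 536870912) (P2 := 1610612736) (W2 := 536870912) (P3 := 587336777) (W3 := 62277027) (N0 := 3) (En := eng) (mo := mog) (C1 := cd1q3) (C2 := cd4q3) (C3 := pd0)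
    rfl k0_pp_303

noncomputable def f_pp_313 : ℕ → ℕ → ℕ → ℕ → Bool := onCell 1610612736 536870912 1610612736 536870912 587336777 62277027
    (rowB 3 eng mog cd1q3 cd4q3 pd1 0 false true true .dn 3 1 3 (qsf 1610612736 536870912 1610612736 536870912 1) ndB1q3 ndB4q3 pcB1 Cut.none Ext.none)

def k0_pp_313 : ∃ t, chk3 f_pp_313 t 1 1 1 = true :=
  ⟨(l 3), by decide +kernel⟩

theorem c_pp_313 : CertB 1610612736 536870912 1610612736 536870912 587336777 62277027 3 eng mog cd1q3 cd4q3 pd1 false true true .dn 3 1 3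
    ndB1q3 ndB4q3 pcB1 Cut.none Ext.none :=
  certB0 (fam := false) (s1 := true) (s2 := true) (a := 3) (b := 1) (c := 3) (cn := .dn) (n1 := ndB1q3) (n2 := ndB4q3) (pc := pcB1) (cut := Cut.none) (xt := Ext.none) (P1 := 1610612736) (W1 := 536870912) (P2 := 1610612736) (W2 := 536870912) (P3 := 587336777) (W3 := 62277027) (N0 := 3) (En := eng) (mo := mog) (C1 := cd1q3) (C2 := cd4q3) (C3 := pd1)
    rfl k0_pp_313

noncomputable def f_pm_001 : ℕ → ℕ → ℕ → ℕ → Bool := onCell 0 536870912 536870912 536870912 587336777 62277027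
    (rowB 3 eng mog cd1q0 cd4q1 pd0 0 false true false .up 0 0 1 (qsf 0 536870912 536870912 536870912 0) ndB1q0 ndB4q1 pcB0 Cut.none Ext.none)

def k0_pm_001 : ∃ t, chk3 f_pm_001 t 1 1 1 = true :=
  ⟨(l 4), by decide +kernel⟩

theorem c_pm_001 : CertB 0 536870912 536870912 536870912 587336777 62277027 3 eng mog cd1q0 cd4q1 pd0 false true false .up 0 0 1
    ndB1q0 ndB4q1 pcB0 Cut.none Ext.none :=
  certB0 (fam := false) (s1 := true) (s2 := false) (a := 0) (b := 0) (c := 1) (cn := .up) (n1 := ndB1q0) (n2 := ndB4q1) (pc := pcB0) (cut := Cut.none) (xt := Ext.none) (P1 := 0) (W1 := 536870912) (P2 := 536870912) (W2 := 536870912) (P3 := 587336777) (W3 := 62277027) (N0 := 3) (En := eng) (mo := mog) (C1 := cd1q0) (C2 := cd4q1) (C3 := pd0)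
    rfl k0_pm_001

noncomputable def f_pm_011 : ℕ → ℕ → ℕ → ℕ → Bool := onCell 0 536870912 536870912 536870912 587336777 62277027
    (rowB 3 eng mog cd1q0 cd4q1 pd1 0 false true false .pnn 0 1 1 (qsf 0 536870912 536870912 536870912 1) ndB1q0 ndB4q1 pcB1 Cut.none Ext.none)

def k0_pm_011 : ∃ t, chk3 f_pm_011 t 1 1 1 = true :=
  ⟨(l 4), by decide +kernel⟩

theorem c_pm_011 : CertB 0 536870912 536870912 536870912 587336777 62277027 3 eng mog cd1q0 cd4q1 pd1 false true false .pnn 0 1 1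
    ndB1q0 ndB4q1 pcB1 Cut.none Ext.none :=
  certB0 (fam := false) (s1 := true) (s2 := false) (a := 0) (b := 1) (c := 1) (cn := .pnn) (n1 := ndB1q0) (n2 := ndB4q1) (pc := pcB1) (cut := Cut.none) (xt := Ext.none) (P1 := 0) (W1 := 536870912) (P2 := 536870912) (W2 := 536870912) (P3 := 587336777) (W3 := 62277027) (N0 := 3) (En := eng) (mo := mog) (C1 := cd1q0) (C2 := cd4q1) (C3 := pd1)
    rfl k0_pm_011

noncomputable def cut_pm_012_a : Cut := Cut.of [[⟨0, 0, 0, 67108864⟩, ⟨1, 1, 0, 67108864⟩, ⟨2, 1, 0, 67108864⟩]]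

noncomputable def f_pm_012_a : ℕ → ℕ → ℕ → ℕ → Bool := onCell 536870912 536870912 0 536870912 587336777 62277027
    (rowB 3 eng mog cd1q0 cd4q2a pd1 2 false true false .pnp 0 1 2 (qsf 0 536870912 0 536870912 1) ndB1q0 ndB4q2a pcB1 cut_pm_012_a Ext.none)

def k0_pm_012_a : ∃ t, chk3 f_pm_012_a t 2 1 1 = true :=
  ⟨(b (a (b (l 2) (a (l 2) (l 16418296))) (a (b (l 16462848) (l 16437808)) (b (l 16442816) (b (l 16415936) (l 16403200))))) (a (b (a (l 2) (a (l 16359336) (l 16371728))) (a (b (l 16287848) (l 16345216)) (b (l 16362792) (b (l 16337808) (l 16363048))))) (b (a (b (l 16389768) (l 16382344)) (b (l 16397464) (l 16402400))) (a (b (a (l 16375904) (l 16395416)) (b (l 16374816) (l 16469784))) (b (a (l 16412592) (l 16429272)) (b (l 16445008) (l 16530168))))))), by decide +kernel⟩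

def k1_pm_012_a : ∃ t, chk3 f_pm_012_a t 3 2 1 = true :=
  ⟨(a (a (b (l 16439184) (b (l 16400000) (l 16395736))) (b (a (l 16397176) (l 16385512)) (a (b (l 16385984) (l 16388672)) (b (l 16378928) (l 16386176))))) (a (b (a (l 16374632) (b (l 16365416) (l 16362072))) (a (b (l 16372960) (l 16385040)) (b (l 16367880) (l 16385232)))) (b (a (b (l 16354376) (l 16354128)) (b (a (l 16346944) (l 16342152)) (a (l 16349024) (l 16345800)))) (a (b (l 16364264) (l 16387008)) (b (a (l 16362280) (l 16361160)) (a (l 16388912) (l 16390432))))))), by decide +kernel⟩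

def k2_pm_012_a : ∃ t, chk3 f_pm_012_a t 3 3 1 = true :=
  ⟨(a (a (b (b (l 16400784) (a (l 16414960) (l 16423088))) (b (a (l 16445848) (l 16483432)) (a (l 16580280) (a (l 16579616) (l 16614288))))) (b (b (a (l 16402456) (l 16405696)) (a (l 16431336) (l 16441520))) (b (a (b (l 16464656) (l 16494112)) (b (l 16480992) (l 16515120))) (a (b (l 16529896) (l 16635632)) (b (l 16555808) (b (l 16590784) (l 16616344))))))) (b (a (b (a (l 16410624) (l 16417312)) (a (l 16495784) (b (l 16452520) (l 16482904)))) (a (b (a (l 16423184) (l 16427392)) (b (l 16465592) (l 16499712))) (b (a (l 16431832) (b (l 16422568) (l 16450344))) (a (b (l 16476072) (l 16512808)) (b (l 16483080) (l 16520944)))))) (a (b (a (b (l 16499440) (l 16537856)) (b (l 16519112) (l 16603728))) (b (a (l 16583080) (a (l 16604360) (l 16639600))) (a (b (l 16621528) (a (l 16639512) (b (l 16648032) (l 16660984)))) (b (l 16672720) (b (a (l 16663264) (l 16679328)) (a (l 16676576) (l 16692848))))))) (b (a (b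 (a (l 16534608) (l 16545104)) (a (l 16601256) (l 16613072))) (a (b (l 16555064) (b (l 16590376) (l 16616128))) (b (a (l 16562072) (l 16566656)) (a (l 16632416) (b (l 16603416) (l 6)))))) (b (a (a (l 16653328) (b (l 16631232) (l 16691152))) (a (b (l 16664608) (l 6)) (l 6))) (a (a (b (l 16675608) (b (l 16695760) (b (l 16705984) (l 16712880)))) (b (l 16711000) (l 6))) (l 6))))))), by decide +kernel⟩

theorem s3_pm_012_a : ∃ t, chk3 f_pm_012_a t 3 1 1 = true := ex3_b k1_pm_012_a k2_pm_012_a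

theorem s4_pm_012_a : ∃ t, chk3 f_pm_012_a t 1 1 1 = true := ex3_a k0_pm_012_a s3_pm_012_a

theorem c_pm_012_a : CertB 0 536870912 0 536870912 587336777 62277027 3 eng mog cd1q0 cd4q2a pd1 false true false .pnp 0 1 2
    ndB1q0 ndB4q2a pcB1 cut_pm_012_a Ext.none :=
  certB2 (fam := false) (s1 := true) (s2 := false) (a := 0) (b := 1) (c := 2) (cn := .pnp) (n1 := ndB1q0) (n2 := ndB4q2a) (pc := pcB1) (cut := cut_pm_012_a) (xt := Ext.none) (P1 := 0) (W1 := 536870912) (P2 := 0) (W2 := 536870912) (P3 := 587336777) (W3 := 62277027) (N0 := 3) (En := eng) (mo := mog) (C1 := cd1q0) (C2 := cd4q2a) (C3 := pd1)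
    rfl (fun _ => rfl) s4_pm_012_a

noncomputable def cut_pm_012_b : Cut := Cut.of [[⟨0, 0, 0, 67108864⟩, ⟨1, 1, 0, 67108864⟩, ⟨2, 1, 0, 67108864⟩]]

noncomputable def f_pm_012_b : ℕ → ℕ → ℕ → ℕ → Bool := onCell 536870912 536870912 1239849684 370763052 587336777 62277027
    (rowB 3 eng mog cd1q0 cd4q2b pd1 2 false true false .pnp 0 1 2 (qsf 0 536870912 1239849684 370763052 1) ndB1q0 ndB4q2b pcB1 cut_pm_012_b Ext.none)

def k0_pm_012_b : ∃ t, chk3 f_pm_012_b t 1 1 1 = true :=
  ⟨(a (a (l 2) (b (b (a (b (l 16503600) (l 2)) (b (l 16470832) (l 16495288))) (a (l 2) (l 16554712))) (l 2))) (b (a (b (a (b (l 16474760) (l 16442592)) (b (a (l 16401024) (l 16381952)) (a (l 16397912) (l 16369856)))) (a (b (l 16466280) (l 16508232)) (b (a (l 16412488) (l 16377600)) (a (l 16446616) (l 16406984))))) (b (a (b (a (l 16363048) (l 16343816)) (a (l 16340832) (l 16310336))) (a (b (b (l 16340120) (l 16310496)) (a (l 16286560) (l 16270384))) (b (a (b (l 16328864) (l 16293544))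 (b (l 16321688) (l 16282568))) (a (l 16253984) (b (l 16250512) (l 16225872)))))) (a (b (a (l 16340824) (l 16301032)) (a (l 16364688) (l 16317984))) (b (a (l 16258672) (b (l 16219104) (l 16210344))) (a (l 16266992) (a (l 16226072) (l 16197712))))))) (a (b (a (l 2) (b (l 16477160) (l 16534112))) (l 2)) (b (a (b (l 16383400) (l 16435072)) (b (a (l 16300904) (l 16238536)) (a (l 16348176) (l 16282536)))) (a (b (l 16483272) (l 2)) (b (l 16360408) (l 16418232))))))), by decide +kernel⟩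

theorem c_pm_012_b : CertB 0 536870912 1239849684 370763052 587336777 62277027 3 eng mog cd1q0 cd4q2b pd1 false true false .pnp 0 1 2
    ndB1q0 ndB4q2b pcB1 cut_pm_012_b Ext.none :=
  certB2 (fam := false) (s1 := true) (s2 := false) (a := 0) (b := 1) (c := 2) (cn := .pnp) (n1 := ndB1q0) (n2 := ndB4q2b) (pc := pcB1) (cut := cut_pm_012_b) (xt := Ext.none) (P1 := 0) (W1 := 536870912) (P2 := 1239849684) (W2 := 370763052) (P3 := 587336777) (W3 := 62277027) (N0 := 3) (En := eng) (mo := mog) (C1 := cd1q0) (C2 := cd4q2b) (C3 := pd1)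
    rfl (fun _ => rfl) k0_pm_012_b

noncomputable def cut_pm_022_a : Cut := Cut.of [[⟨0, 0, 0, 67108864⟩, ⟨1, 1, 0, 67108864⟩, ⟨2, 1, 0, 67108864⟩]]

noncomputable def f_pm_022_a : ℕ → ℕ → ℕ → ℕ → Bool := onCell 1073741824 536870912 0 536870912 587336777 62277027
    (rowB 3 eng mog cd1q0 cd4q2a pd2 2 false true false .pp 0 2 2 (qsf 0 536870912 0 536870912 2) ndB1q0 ndB4q2a pcB2 cut_pm_022_a Ext.none)

def k0_pm_022_a : ∃ t, chk3 f_pm_022_a t 1 1 1 = true :=
  ⟨(a (b (a (a (b (a (b (a (l 16344432) (l 16359608)) (a (l 16349856) (l 16366024))) (b (a (l 16373760) (l 16386984)) (l 16409304))) (a (b (a (l 16367328) (l 16384584)) (a (l 16399040) (l 16417392))) (b (l 16471376) (a (l 16434552) (l 16450840))))) (b (a (b (l 16406296) (l 16415768)) (b (l 16429496) (l 16440136))) (a (b (l 16437640) (l 16536520)) (a (b (l 16457200) (l 16494104)) (b (l 16468760) (l 16569152)))))) (a (b (b (a (a (l 16444088) (l 16441528)) (l 1)) (a (a (l 16455304) (l 16463440)) (l 1)))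 (a (b (a (l 16478888) (l 367252771271)) (l 4)) (l 1))) (l 1))) (a (a (b (a (b (a (b (l 16433128) (l 16461968)) (l 16487736)) (a (b (l 16495544) (l 16534392)) (b (l 16515264) (l 16554592)))) (b (a (l 16484824) (l 16501952)) (a (b (l 16533992) (l 16573736)) (b (l 16551728) (a (l 16587584) (l 16596776)))))) (b (a (b (a (a (l 16573704) (l 16584304)) (a (l 16594624) (l 16604672))) (l 6)) (a (b (a (l 16635496) (l 16645384)) (l 6)) (l 4))) (a (l 6) (l 4)))) (b (a (a (b (b (l 16502816) (l 16533240)) (b (l 16568888) (l 4))) (b (l 16596448) (l 4))) (b (a (l 159148316631) (l 4)) (l 4))) (l 4))) (b (l 1) (l 1)))) (l 1)), by decide +kernel⟩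

theorem c_pm_022_a : CertB 0 536870912 0 536870912 587336777 62277027 3 eng mog cd1q0 cd4q2a pd2 false true false .pp 0 2 2
    ndB1q0 ndB4q2a pcB2 cut_pm_022_a Ext.none :=
  certB2 (fam := false) (s1 := true) (s2 := false) (a := 0) (b := 2) (c := 2) (cn := .pp) (n1 := ndB1q0) (n2 := ndB4q2a) (pc := pcB2) (cut := cut_pm_022_a) (xt := Ext.none) (P1 := 0) (W1 := 536870912) (P2 := 0) (W2 := 536870912) (P3 := 587336777) (W3 := 62277027) (N0 := 3) (En := eng) (mo := mog) (C1 := cd1q0) (C2 := cd4q2a) (C3 := pd2)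
    rfl (fun _ => rfl) k0_pm_022_a

noncomputable def cut_pm_022_b : Cut := Cut.of [[⟨0, 0, 0, 67108864⟩, ⟨1, 1, 0, 67108864⟩, ⟨2, 1, 0, 67108864⟩]]

noncomputable def f_pm_022_b : ℕ → ℕ → ℕ → ℕ → Bool := onCell 1073741824 536870912 1239849684 370763052 587336777 62277027
    (rowB 3 eng mog cd1q0 cd4q2b pd2 2 false true false .pp 0 2 2 (qsf 0 536870912 1239849684 370763052 2) ndB1q0 ndB4q2b pcB2 cut_pm_022_b Ext.none)

def k0_pm_022_b : ∃ t, chk3 f_pm_022_b t 1 1 1 = true :=
  ⟨(a (a (b (b (a (b (a (a (b (l 16321968) (l 16280296)) (b (l 16336224) (l 16293472))) (a (l 16369008) (l 16402024))) (a (b (a (l 16245192) (l 16256808)) (l 16264264)) (a (l 16251552) (l 16261560)))) (b (a (b (l 16421832) (l 16333504)) (b (l 16402064) (l 16353680))) (a (l 16275424) (l 16333720)))) (a (b (a (b (l 16200872) (l 16186672)) (l 16310360)) (a (a (l 16179120) (l 16180752)) (l 16183464))) (b (a (l 16217808) (l 16229512)) (a (l 16186944) (l 16190976))))) (b (a (b (a (l 16195368)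 (l 16188480)) (a (l 16230608) (l 16213048))) (b (a (l 16183328) (l 16178840)) (l 16192568))) (a (b (l 16256472) (l 16305464)) (b (l 16212800) (l 16247696))))) (b (b (a (a (b (a (l 16433488) (b (l 16424184) (l 16375560))) (l 16327512)) (b (a (b (l 16462384) (l 16382016)) (b (l 147135655159) (l 16386664))) (a (l 16316256) (l 16321208)))) (a (a (b (l 244846191319) (l 16324216)) (l 4)) (l 4))) (a (a (b (l 16238616) (l 16195096)) (b (l 16287848) (l 16197008))) (a (b (l 16250744) (l 16195624)) (l 4)))) (a (b (a (b (l 16174680) (l 16175600)) (b (l 16171064) (l 16164296))) (a (l 16198024) (l 16179816))) (b (b (l 16287664) (l 16147560)) (l 16154248))))) (b (a (b (l 1) (l 4)) (l 1)) (a (a (b (l 4) (a (l 16113480) (l 16077952))) (l 4)) (b (a (l 4) (l 1)) (l 4))))), by decide +kernel⟩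

theorem c_pm_022_b : CertB 0 536870912 1239849684 370763052 587336777 62277027 3 eng mog cd1q0 cd4q2b pd2 false true false .pp 0 2 2
    ndB1q0 ndB4q2b pcB2 cut_pm_022_b Ext.none :=
  certB2 (fam := false) (s1 := true) (s2 := false) (a := 0) (b := 2) (c := 2) (cn := .pp) (n1 := ndB1q0) (n2 := ndB4q2b) (pc := pcB2) (cut := cut_pm_022_b) (xt := Ext.none) (P1 := 0) (W1 := 536870912) (P2 := 1239849684) (W2 := 370763052) (P3 := 587336777) (W3 := 62277027) (N0 := 3) (En := eng) (mo := mog) (C1 := cd1q0) (C2 := cd4q2b) (C3 := pd2)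
    rfl (fun _ => rfl) k0_pm_022_b

noncomputable def f_pm_023 : ℕ → ℕ → ℕ → ℕ → Bool := onCell 0 536870912 1073741824 536870912 587336777 62277027
    (rowB 3 eng mog cd1q0 cd4q3 pd2 1 false true false .up 0 2 3 (qsf 0 536870912 1610612736 536870912 2) ndB1q0 ndB4q3 pcB2 Cut.none Ext.none)

def k0_pm_023 : ∃ t, chk3 f_pm_023 t 1 1 1 = true :=
  ⟨(b (a (b (l 1) (a (l 1) (b (l 1) (l 199211862503)))) (b (a (b (l 1) (l 245382674663)) (b (a (l 248603610151) (l 16272784)) (a (l 16222608) (l 16288856)))) (a (b (a (l 16152584) (l 16180112)) (l 16160544)) (b (a (l 16234280) (l 16307768)) (l 16310232))))) (b (a (a (l 4) (a (b (l 16148704) (l 4)) (b (l 16073320) (l 16006680)))) (b (a (l 16154272) (l 16409640)) (a (l 16182816) (l 16497744)))) (a (a (l 4) (l 4)) (a (b (l 16350928) (l 16474376)) (b (l 16576296) (l 16635840)))))), by decide +kernel⟩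

theorem c_pm_023 : CertB 0 536870912 1610612736 536870912 587336777 62277027 3 eng mog cd1q0 cd4q3 pd2 false true false .up 0 2 3
    ndB1q0 ndB4q3 pcB2 Cut.none Ext.none :=
  certB1 (fam := false) (s1 := true) (s2 := false) (a := 0) (b := 2) (c := 3) (cn := .up) (n1 := ndB1q0) (n2 := ndB4q3) (pc := pcB2) (cut := Cut.none) (xt := Ext.none) (P1 := 0) (W1 := 536870912) (P2 := 1610612736) (W2 := 536870912) (P3 := 587336777) (W3 := 62277027) (N0 := 3) (En := eng) (mo := mog) (C1 := cd1q0) (C2 := cd4q3) (C3 := pd2)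
    rfl (fun _ => rfl) k0_pm_023

noncomputable def f_pm_033 : ℕ → ℕ → ℕ → ℕ → Bool := onCell 1610612736 536870912 1610612736 536870912 587336777 62277027
    (rowB 3 eng mog cd1q0 cd4q3 pd3 2 false true false .pnn 0 3 3 (qsf 0 536870912 1610612736 536870912 3) ndB1q0 ndB4q3 pcB3 Cut.none Ext.none)

def k0_pm_033 : ∃ t, chk3 f_pm_033 t 1 1 1 = true :=
  ⟨(a (b (a (l 4) (b (a (b (l 1) (l 4)) (l 1)) (l 4))) (a (a (b (l 206930163431) (l 16717192)) (b (l 4) (l 16641128))) (a (l 279407849319) (l 4)))) (b (a (b (l 1) (a (b (l 1) (l 4)) (l 1))) (l 1)) (a (l 4) (b (a (b (l 1) (l 4)) (l 1)) (l 4))))), by decide +kernel⟩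

theorem c_pm_033 : CertB 0 536870912 1610612736 536870912 587336777 62277027 3 eng mog cd1q0 cd4q3 pd3 false true false .pnn 0 3 3
    ndB1q0 ndB4q3 pcB3 Cut.none Ext.none :=
  certB2 (fam := false) (s1 := true) (s2 := false) (a := 0) (b := 3) (c := 3) (cn := .pnn) (n1 := ndB1q0) (n2 := ndB4q3) (pc := pcB3) (cut := Cut.none) (xt := Ext.none) (P1 := 0) (W1 := 536870912) (P2 := 1610612736) (W2 := 536870912) (P3 := 587336777) (W3 := 62277027) (N0 := 3) (En := eng) (mo := mog) (C1 := cd1q0) (C2 := cd4q3) (C3 := pd3)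
    rfl (fun _ => rfl) k0_pm_033

noncomputable def f_pm_101 : ℕ → ℕ → ℕ → ℕ → Bool := onCell 536870912 536870912 536870912 536870912 587336777 62277027
    (rowB 3 eng mog cd1q1 cd4q1 pd0 0 false true false .npn 1 0 1 (qsf 536870912 536870912 536870912 536870912 0) ndB1q1 ndB4q1 pcB0 Cut.none Ext.none)

def k0_pm_101 : ∃ t, chk3 f_pm_101 t 1 1 1 = true :=
  ⟨(l 4), by decide +kernel⟩

theorem c_pm_101 : CertB 536870912 536870912 536870912 536870912 587336777 62277027 3 eng mog cd1q1 cd4q1 pd0 false true false .npn 1 0 1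
    ndB1q1 ndB4q1 pcB0 Cut.none Ext.none :=
  certB0 (fam := false) (s1 := true) (s2 := false) (a := 1) (b := 0) (c := 1) (cn := .npn) (n1 := ndB1q1) (n2 := ndB4q1) (pc := pcB0) (cut := Cut.none) (xt := Ext.none) (P1 := 536870912) (W1 := 536870912) (P2 := 536870912) (W2 := 536870912) (P3 := 587336777) (W3 := 62277027) (N0 := 3) (En := eng) (mo := mog) (C1 := cd1q1) (C2 := cd4q1) (C3 := pd0)
    rfl k0_pm_101

noncomputable def f_pm_102_a : ℕ → ℕ → ℕ → ℕ → Bool := onCell 536870912 536870912 0 536870912 587336777 62277027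
    (rowB 3 eng mog cd1q1 cd4q2a pd0 0 false true false .npp 1 0 2 (qsf 536870912 536870912 0 536870912 0) ndB1q1 ndB4q2a pcB0 Cut.none Ext.none)

def k0_pm_102_a : ∃ t, chk3 f_pm_102_a t 2 1 1 = true :=
  ⟨(b (a (a (l 2) (b (l 2) (b (l 2) (l 16434392)))) (a (b (a (l 16559728) (l 16582680)) (b (l 16549448) (l 16527808))) (b (l 16621456) (a (l 16579608) (b (l 16609656) (l 16599504)))))) (a (b (a (l 2) (b (l 16403048) (a (l 16361328) (l 16425616)))) (a (b (b (l 16341216) (l 16447984)) (b (a (l 16342520) (l 16373312)) (a (a (l 16353496) (l 16414488)) (b (l 16394424) (a (l 16401840) (l 16421616)))))) (b (a (b (l 16368520) (l 16384200)) (b (l 16436640) (l 16454600))) (b (a (l 16407472) (l 16482192)) (a (b (l 16433240) (l 16454520)) (b (l 16489200) (a (l 16514216) (b (l 16543312) (l 16553576))))))))) (b (a (b (a (l 16489544) (l 16532048)) (a (l 16487336) (l 16534288))) (b (a (l 16566096) (l 16595328)) (a (l 16592424) (l 16602088)))) (a (b (a (b (l 16500560)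 (l 16519232)) (b (l 16549016) (l 16587912))) (b (a (a (l 16532048) (l 16558336)) (b (l 16583448) (l 16594880))) (a (b (a (l 16557296) (l 16580480)) (a (b (l 16570712) (l 16579600)) (l 16595560))) (b (l 16608448) (l 16623728))))) (b (a (b (l 16586960) (l 16601896)) (l 16622800)) (b (c (l 16659424) (l 16679008)) (a (a (l 16641952) (l 16657320)) (b (l 16670672) (a (l 16679024) (l 16692104)))))))))), by decide +kernel⟩

def k1_pm_102_a : ∃ t, chk3 f_pm_102_a t 3 2 1 = true :=
  ⟨(a (a (b (l 16697536) (b (l 16653904) (a (l 16625008) (l 16652064)))) (b (a (l 16725864) (l 16722048)) (a (l 16701496) (l 16721312)))) (a (b (a (b (l 16698848) (l 16706072)) (a (b (l 16676784) (l 16685736)) (b (l 16660792) (l 16670144)))) (b (a (l 16713520) (a (l 16696312) (l 16681680))) (a (l 16719984) (l 16701936)))) (b (a (b (a (l 16644672) (l 16629448)) (a (l 16653824) (a (l 16641680) (l 16634008)))) (a (b (a (b (l 16617360) (l 16620232)) (b (a (l 16612760) (l 16609808)) (a (l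 16615312) (l 16612208)))) (l 16623056)) (b (a (b (a (l 16607120) (l 187535464807)) (a (l 16609248) (l 16606408))) (b (l 3) (a (l 16624776) (l 205252149559)))) (a (b (a (l 16612528) (l 16609560)) (a (l 16616872) (l 16613744))) (b (a (l 16606712) (l 16604064)) (a (l 16610768) (l 16607952))))))) (a (b (a (l 16665792) (l 16649584)) (a (l 16680480) (b (l 16660432) (l 16668816)))) (a (b (b (l 16630944) (l 16637480)) (b (l 16645048) (l 16653560))) (b (a (l 16623872) (b (a (l 16615888) (l 16612920)) (a (l 16622096) (l 16619040)))) (a (b (l 16634384) (l 16643024)) (b (l 16627872) (l 16636320))))))))), by decide +kernel⟩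

def k2_pm_102_a : ∃ t, chk3 f_pm_102_a t 3 3 1 = true :=
  ⟨(a (b (a (b (l 16656176) (l 16680992)) (b (a (l 16665160) (l 16696712)) (a (l 16665104) (l 16681152)))) (a (b (a (l 16648048) (l 16669176)) (b (a (l 16676096) (l 16696592)) (a (a (b (l 16689416) (l 16704320)) (l 16708136)) (l 16722448)))) (b (a (l 16681224) (l 16690240)) (b (l 16710696) (a (l 16732008) (l 16737456)))))) (b (a (b (a (l 16722272) (l 16715408)) (a (l 16766504) (b (l 16724440) (l 16727128)))) (a (b (b (a (l 16692920) (l 16678120)) (l 16695288)) (b (l 16726560) (a (l 16721184) (l 16710184)))) (b (a (b (a (l 16666736) (l 16659416)) (a (l 16677088) (l 16669912))) (a (b (l 16652472) (l 16662616)) (b (l 16645808) (l 16655976)))) (a (b (l 16684536) (l 16696624)) (b (a (l 16674184) (b (l 16664168) (l 16670320))) (a (l 16686296) (l 16679696))))))) (a (b (a (l 16698400) (l 16814848)) (b (a (l 16718104) (l 16720952)) (a (l 16740736) (l 16741664)))) (b (a (b (a (l 16729632) (l 16806096)) (l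 16731856)) (b (a (b (l 16706264) (l 16713344)) (b (l 16693088) (a (l 16703496) (l 16696952)))) (a (l 16722624) (l 16710480)))) (a (b (l 16723688) (b (l 16734072) (l 16745048))) (b (a (l 16734096) (a (l 16727016) (l 16720984))) (a (b (l 16732192) (l 16740360)) (b (l 16732848) (a (l 16741624) (l 16737344)))))))))), by decide +kernel⟩

theorem s3_pm_102_a : ∃ t, chk3 f_pm_102_a t 3 1 1 = true := ex3_b k1_pm_102_a k2_pm_102_a

theorem s4_pm_102_a : ∃ t, chk3 f_pm_102_a t 1 1 1 = true := ex3_a k0_pm_102_a s3_pm_102_a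

theorem c_pm_102_a : CertB 536870912 536870912 0 536870912 587336777 62277027 3 eng mog cd1q1 cd4q2a pd0 false true false .npp 1 0 2
    ndB1q1 ndB4q2a pcB0 Cut.none Ext.none :=
  certB0 (fam := false) (s1 := true) (s2 := false) (a := 1) (b := 0) (c := 2) (cn := .npp) (n1 := ndB1q1) (n2 := ndB4q2a) (pc := pcB0) (cut := Cut.none) (xt := Ext.none) (P1 := 536870912) (W1 := 536870912) (P2 := 0) (W2 := 536870912) (P3 := 587336777) (W3 := 62277027) (N0 := 3) (En := eng) (mo := mog) (C1 := cd1q1) (C2 := cd4q2a) (C3 := pd0)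
    rfl s4_pm_102_a

noncomputable def f_pm_102_b : ℕ → ℕ → ℕ → ℕ → Bool := onCell 536870912 536870912 1239849684 370763052 587336777 62277027
    (rowB 3 eng mog cd1q1 cd4q2b pd0 0 false true false .npp 1 0 2 (qsf 536870912 536870912 1239849684 370763052 0) ndB1q1 ndB4q2b pcB0 Cut.none Ext.none)

def k0_pm_102_b : ∃ t, chk3 f_pm_102_b t 2 1 1 = true :=
  ⟨(b (a (l 2) (b (a (l 16668600) (b (l 16689560) (l 16721192))) (a (l 2) (l 16735256)))) (l 2)), by decide +kernel⟩

def k1_pm_102_b : ∃ t, chk3 f_pm_102_b t 3 1 1 = true :=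
  ⟨(b (a (a (b (b (l 16745128) (l 16724080)) (l 16710600)) (b (b (a (l 16722184) (l 16704072)) (a (l 16701992) (l 16674240))) (a (l 16671312) (l 16718888)))) (a (b (a (b (l 16718184) (l 16640416)) (b (a (l 16651520) (l 16634384)) (l 16644320))) (a (l 16593704) (b (l 16567272) (l 16534520)))) (b (a (a (b (a (l 16622088) (l 16613832)) (l 16574936)) (b (l 16602136) (l 16578480))) (a (b (a (b (l 16603584) (l 16579136)) (b (l 16618512) (l 16572536))) (a (l 16545184) (b (l 16548960) (l 16526792)))) (a (b (a (b (l 178945473623) (l 16589008)) (b (l 3) (l 423221680855))) (b (l 16584464) (l 16519688))) (l 3)))) (a (b (a (l 16537200) (l 16518056)) (l 16491488)) (b (a (a (l 16525432) (a (l 16498200) (l 16536048))) (a (b (l 16498424) (l 16478504)) (l 3))) (b (a (l 16471648) (a (l 16458864) (l 3))) (a (l 16453344) (a (l 16440304) (l 119889323975))))))))) (a (a (l 2) (b (a (l 16643272) (l 16599552)) (l 2))) (a (b (a (l 16549360) (b (l 16505800) (l 16492672))) (a (l 2)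 (l 16524552))) (b (a (b (l 16459144) (l 16440160)) (b (a (a (l 16432528) (l 16423280)) (a (b (l 16422912) (l 16406544)) (b (l 130626725511) (l 139216632423)))) (a (a (l 16410384) (b (l 16401856) (l 16398880))) (b (a (l 16392704) (a (l 16416512) (l 3))) (a (l 16388728) (a (l 16381608) (l 142437818343))))))) (a (l 16501904) (b (a (a (l 16414488) (l 16401280)) (a (b (l 16387856) (l 16390120)) (b (a (l 16379752) (l 151564623959)) (a (l 16380432) (l 158543947671))))) (a (a (l 16430648) (l 16415616)) (a (b (l 16395808) (l 16405624)) (b (a (l 16384864) (l 167670770679)) (a (l 16393744) (l 16406920))))))))))), by decide +kernel⟩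

theorem s2_pm_102_b : ∃ t, chk3 f_pm_102_b t 1 1 1 = true := ex3_a k0_pm_102_b k1_pm_102_b

theorem c_pm_102_b : CertB 536870912 536870912 1239849684 370763052 587336777 62277027 3 eng mog cd1q1 cd4q2b pd0 false true false .npp 1 0 2
    ndB1q1 ndB4q2b pcB0 Cut.none Ext.none :=
  certB0 (fam := false) (s1 := true) (s2 := false) (a := 1) (b := 0) (c := 2) (cn := .npp) (n1 := ndB1q1) (n2 := ndB4q2b) (pc := pcB0) (cut := Cut.none) (xt := Ext.none) (P1 := 536870912) (W1 := 536870912) (P2 := 1239849684) (W2 := 370763052) (P3 := 587336777) (W3 := 62277027) (N0 := 3) (En := eng) (mo := mog) (C1 := cd1q1) (C2 := cd4q2b) (C3 := pd0)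
    rfl s2_pm_102_b

noncomputable def f_pm_112_a : ℕ → ℕ → ℕ → ℕ → Bool := onCell 536870912 536870912 0 536870912 587336777 62277027
    (rowB 3 eng mog cd1q1 cd4q2a pd1 2 false true false .dn 1 1 2 (qsf 536870912 536870912 0 536870912 1) ndB1q1 ndB4q2a pcB1 Cut.none Ext.none)

def k0_pm_112_a : ∃ t, chk3 f_pm_112_a t 1 1 1 = true :=
  ⟨(a (b (a (a (b (l 16527776) (l 16456560)) (b (l 16496936) (l 16438776))) (a (b (l 16475952) (l 186864128439)) (l 1))) (a (b (a (l 16479536) (l 79490018087)) (a (b (l 16344456) (a (l 16265408) (l 16367984))) (b (l 179884796503) (l 1)))) (b (l 1) (l 1)))) (l 1)), by decide +kernel⟩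

theorem c_pm_112_a : CertB 536870912 536870912 0 536870912 587336777 62277027 3 eng mog cd1q1 cd4q2a pd1 false true false .dn 1 1 2
    ndB1q1 ndB4q2a pcB1 Cut.none Ext.none :=
  certB2 (fam := false) (s1 := true) (s2 := false) (a := 1) (b := 1) (c := 2) (cn := .dn) (n1 := ndB1q1) (n2 := ndB4q2a) (pc := pcB1) (cut := Cut.none) (xt := Ext.none) (P1 := 536870912) (W1 := 536870912) (P2 := 0) (W2 := 536870912) (P3 := 587336777) (W3 := 62277027) (N0 := 3) (En := eng) (mo := mog) (C1 := cd1q1) (C2 := cd4q2a) (C3 := pd1)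
    rfl (fun _ => rfl) k0_pm_112_a

noncomputable def f_pm_112_b : ℕ → ℕ → ℕ → ℕ → Bool := onCell 536870912 536870912 1239849684 370763052 587336777 62277027
    (rowB 3 eng mog cd1q1 cd4q2b pd1 0 false true false .dn 1 1 2 (qsf 536870912 536870912 1239849684 370763052 1) ndB1q1 ndB4q2b pcB1 Cut.none Ext.none)

def k0_pm_112_b : ∃ t, chk3 f_pm_112_b t 1 1 1 = true :=
  ⟨(a (b (a (b (a (b (l 16520040) (l 16528776)) (l 16570104)) (a (l 16550488) (l 16598208))) (b (a (l 16615392) (l 174516661975)) (a (l 16658832) (l 16701400)))) (a (a (b (b (l 16531776) (l 16531664)) (l 16510712)) (b (b (l 16618984) (l 16631232)) (b (l 16633376) (l 16639840)))) (b (a (l 16704792) (l 16754568)) (a (b (l 16741928) (l 16770912)) (l 16847576))))) (a (b (b (l 1) (a (l 16712704) (a (l 16697024) (l 1)))) (a (b (l 16753384) (l 16872752)) (b (a (l 16712768) (l 16673040)) (a (l 16828472) (l 16769072))))) (b (l 1) (a (a (b (l 16625072) (l 16693120)) (b (b (l 1) (l 16569688)) (a (l 16630264)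 (l 16587512)))) (b (l 1) (a (b (l 16512248) (l 16538440)) (b (l 1) (a (a (l 16476368) (l 16451064)) (b (l 1) (a (l 16427672) (a (l 16404496) (l 387116785495)))))))))))), by decide +kernel⟩

theorem c_pm_112_b : CertB 536870912 536870912 1239849684 370763052 587336777 62277027 3 eng mog cd1q1 cd4q2b pd1 false true false .dn 1 1 2
    ndB1q1 ndB4q2b pcB1 Cut.none Ext.none :=
  certB0 (fam := false) (s1 := true) (s2 := false) (a := 1) (b := 1) (c := 2) (cn := .dn) (n1 := ndB1q1) (n2 := ndB4q2b) (pc := pcB1) (cut := Cut.none) (xt := Ext.none) (P1 := 536870912) (W1 := 536870912) (P2 := 1239849684) (W2 := 370763052) (P3 := 587336777) (W3 := 62277027) (N0 := 3) (En := eng) (mo := mog) (C1 := cd1q1) (C2 := cd4q2b) (C3 := pd1)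
    rfl k0_pm_112_b

noncomputable def f_pm_113 : ℕ → ℕ → ℕ → ℕ → Bool := onCell 536870912 536870912 536870912 536870912 587336777 62277027
    (rowB 3 eng mog cd1q1 cd4q3 pd1 1 false true false .nn 1 1 3 (qsf 536870912 536870912 1610612736 536870912 1) ndB1q1 ndB4q3 pcB1 Cut.none Ext.none)

def k0_pm_113 : ∃ t, chk3 f_pm_113 t 1 1 1 = true :=
  ⟨(b (a (a (l 1) (b (l 1) (b (l 1) (l 16737600)))) (b (a (a (l 1) (b (l 1) (l 16802480))) (a (a (l 16741000) (a (l 16721784) (l 16703280))) (b (a (l 16614936) (a (b (b (l 16538504) (l 16554968)) (l 16587624)) (b (b (b (l 16488768) (l 16497200)) (l 16511632)) (a (l 16557976) (l 16536392))))) (a (l 16736936) (a (b (l 16649072) (l 16713064)) (b (l 16610768) (l 16655384))))))) (a (a (l 16896560) (b (l 16940616) (l 17139104))) (b (a (a (l 16983496) (l 16921600)) (a (l 16840160) (a (b (l 16761584) (l 16802592)) (b (l 16728168) (l 16769240))))) (a (l 16837480) (a (l 16905608) (a (b (l 16836224) (l 16863664)) (b (l 16801792)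 (l 16828928))))))))) (b (a (a (b (l 1) (a (l 1) (l 16579712))) (b (l 67679099415) (a (l 16724912) (l 16821632)))) (a (a (b (l 16947072) (l 16892416)) (b (l 17038488) (l 16959616))) (b (a (l 17006440) (a (l 16942976) (a (l 16951608) (b (l 16848840) (l 16861224))))) (a (l 17016496) (a (l 16956280) (a (l 16904136) (b (l 16871248) (l 16873952)))))))) (a (a (a (a (l 16421824) (l 16466832)) (a (l 16531040) (l 16613712))) (a (b (l 16705128) (l 16674432)) (b (l 16786088) (l 16751440)))) (a (a (b (l 16846888) (l 16806752)) (b (l 16897896) (l 16846240))) (a (b (l 16927248) (l 16855192)) (a (l 16969896) (a (l 16872752) (b (l 16862088) (l 16820344))))))))), by decide +kernel⟩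

theorem c_pm_113 : CertB 536870912 536870912 1610612736 536870912 587336777 62277027 3 eng mog cd1q1 cd4q3 pd1 false true false .nn 1 1 3
    ndB1q1 ndB4q3 pcB1 Cut.none Ext.none :=
  certB1 (fam := false) (s1 := true) (s2 := false) (a := 1) (b := 1) (c := 3) (cn := .nn) (n1 := ndB1q1) (n2 := ndB4q3) (pc := pcB1) (cut := Cut.none) (xt := Ext.none) (P1 := 536870912) (W1 := 536870912) (P2 := 1610612736) (W2 := 536870912) (P3 := 587336777) (W3 := 62277027) (N0 := 3) (En := eng) (mo := mog) (C1 := cd1q1) (C2 := cd4q3) (C3 := pd1)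
    rfl (fun _ => rfl) k0_pm_113

noncomputable def f_pm_123 : ℕ → ℕ → ℕ → ℕ → Bool := onCell 1073741824 536870912 1610612736 536870912 587336777 62277027
    (rowB 3 eng mog cd1q1 cd4q3 pd2 2 false true false .npn 1 2 3 (qsf 536870912 536870912 1610612736 536870912 2) ndB1q1 ndB4q3 pcB2 Cut.none Ext.none)

def k0_pm_123 : ∃ t, chk3 f_pm_123 t 1 1 1 = true :=
  ⟨(a (b (a (b (a (b (l 16361800) (a (l 16517744) (l 16454336))) (b (l 16324520) (l 16384488))) (a (b (a (l 16626496) (l 16569736)) (l 16673624)) (b (l 16473488) (l 16579976)))) (b (a (l 184179719991) (l 1)) (a (b (l 16417344) (l 16591736)) (l 16431656)))) (a (b (a (b (l 16727632) (l 16761808)) (b (l 16641272) (l 16681224))) (a (b (l 16778808) (a (l 16782128) (l 16757736))) (b (l 16704944) (l 16712384)))) (b (a (b (l 16575152) (l 16621472)) (b (l 16544240) (l 16596800))) (a (b (l 16651360) (a (b (l 16676856) (l 16692768)) (l 16667064))) (l 16649480))))) (a (b (a (b (l 1) (l 16421728)) (l 1)) (b (a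 (l 16561336) (l 16563424)) (a (l 16645232) (b (l 16626848) (l 16664976))))) (b (l 1) (b (a (l 16579968) (l 1)) (a (l 16657296) (l 16676440)))))), by decide +kernel⟩

theorem c_pm_123 : CertB 536870912 536870912 1610612736 536870912 587336777 62277027 3 eng mog cd1q1 cd4q3 pd2 false true false .npn 1 2 3
    ndB1q1 ndB4q3 pcB2 Cut.none Ext.none :=
  certB2 (fam := false) (s1 := true) (s2 := false) (a := 1) (b := 2) (c := 3) (cn := .npn) (n1 := ndB1q1) (n2 := ndB4q3) (pc := pcB2) (cut := Cut.none) (xt := Ext.none) (P1 := 536870912) (W1 := 536870912) (P2 := 1610612736) (W2 := 536870912) (P3 := 587336777) (W3 := 62277027) (N0 := 3) (En := eng) (mo := mog) (C1 := cd1q1) (C2 := cd4q3) (C3 := pd2)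
    rfl (fun _ => rfl) k0_pm_123

noncomputable def f_pm_133 : ℕ → ℕ → ℕ → ℕ → Bool := onCell 1610612736 536870912 1610612736 536870912 587336777 62277027
    (rowB 3 eng mog cd1q1 cd4q3 pd3 2 false true false .dn 1 3 3 (qsf 536870912 536870912 1610612736 536870912 3) ndB1q1 ndB4q3 pcB3 Cut.none Ext.none)

def k0_pm_133 : ∃ t, chk3 f_pm_133 t 1 1 1 = true :=
  ⟨(a (b (l 1) (a (a (l 250752545719) (l 1)) (l 1))) (l 1)), by decide +kernel⟩

theorem c_pm_133 : CertB 536870912 536870912 1610612736 536870912 587336777 62277027 3 eng mog cd1q1 cd4q3 pd3 false true false .dn 1 3 3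
    ndB1q1 ndB4q3 pcB3 Cut.none Ext.none :=
  certB2 (fam := false) (s1 := true) (s2 := false) (a := 1) (b := 3) (c := 3) (cn := .dn) (n1 := ndB1q1) (n2 := ndB4q3) (pc := pcB3) (cut := Cut.none) (xt := Ext.none) (P1 := 536870912) (W1 := 536870912) (P2 := 1610612736) (W2 := 536870912) (P3 := 587336777) (W3 := 62277027) (N0 := 3) (En := eng) (mo := mog) (C1 := cd1q1) (C2 := cd4q3) (C3 := pd3)
    rfl (fun _ => rfl) k0_pm_133

noncomputable def cut_pm_202_aa : Cut := Cut.of [[⟨0, 1, 0, 67108864⟩, ⟨1, 0, 0, 67108864⟩, ⟨2, 1, 0, 67108864⟩]]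

noncomputable def f_pm_202_aa : ℕ → ℕ → ℕ → ℕ → Bool := onCell 0 536870912 0 536870912 587336777 62277027
    (rowB 3 eng mog cd1q2a cd4q2a pd0 0 false true false .pp 2 0 2 (qsf 0 536870912 0 536870912 0) ndB1q2a ndB4q2a pcB0 cut_pm_202_aa Ext.none)

def k0_pm_202_aa : ∃ t, chk3 f_pm_202_aa t 1 1 1 = true :=
  ⟨(a (l 3) (b (l 3) (a (l 3) (b (l 3) (a (l 3) (b (l 3) (l 6))))))), by decide +kernel⟩

theorem c_pm_202_aa : CertB 0 536870912 0 536870912 587336777 62277027 3 eng mog cd1q2a cd4q2a pd0 false true false .pp 2 0 2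
    ndB1q2a ndB4q2a pcB0 cut_pm_202_aa Ext.none :=
  certB0 (fam := false) (s1 := true) (s2 := false) (a := 2) (b := 0) (c := 2) (cn := .pp) (n1 := ndB1q2a) (n2 := ndB4q2a) (pc := pcB0) (cut := cut_pm_202_aa) (xt := Ext.none) (P1 := 0) (W1 := 536870912) (P2 := 0) (W2 := 536870912) (P3 := 587336777) (W3 := 62277027) (N0 := 3) (En := eng) (mo := mog) (C1 := cd1q2a) (C2 := cd4q2a) (C3 := pd0)
    rfl k0_pm_202_aa

noncomputable def cut_pm_202_ab : Cut := Cut.of [[⟨0, 1, 0, 67108864⟩, ⟨1, 0, 0, 67108864⟩, ⟨2, 1, 0, 67108864⟩]]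

noncomputable def f_pm_202_ab : ℕ → ℕ → ℕ → ℕ → Bool := onCell 0 536870912 1239849684 370763052 587336777 62277027
    (rowB 3 eng mog cd1q2a cd4q2b pd0 0 false true false .pp 2 0 2 (qsf 0 536870912 1239849684 370763052 0) ndB1q2a ndB4q2b pcB0 cut_pm_202_ab Ext.none)

def k0_pm_202_ab : ∃ t, chk3 f_pm_202_ab t 1 1 1 = true :=
  ⟨(l 3), by decide +kernel⟩

theorem c_pm_202_ab : CertB 0 536870912 1239849684 370763052 587336777 62277027 3 eng mog cd1q2a cd4q2b pd0 false true false .pp 2 0 2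
    ndB1q2a ndB4q2b pcB0 cut_pm_202_ab Ext.none :=
  certB0 (fam := false) (s1 := true) (s2 := false) (a := 2) (b := 0) (c := 2) (cn := .pp) (n1 := ndB1q2a) (n2 := ndB4q2b) (pc := pcB0) (cut := cut_pm_202_ab) (xt := Ext.none) (P1 := 0) (W1 := 536870912) (P2 := 1239849684) (W2 := 370763052) (P3 := 587336777) (W3 := 62277027) (N0 := 3) (En := eng) (mo := mog) (C1 := cd1q2a) (C2 := cd4q2b) (C3 := pd0)
    rfl k0_pm_202_ab

noncomputable def cut_pm_202_ba : Cut := Cut.of [[⟨0, 1, 0, 67108864⟩, ⟨1, 0, 0, 67108864⟩, ⟨2, 1, 0, 67108864⟩]]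

noncomputable def f_pm_202_ba : ℕ → ℕ → ℕ → ℕ → Bool := onCell 1239849684 370763052 0 536870912 587336777 62277027
    (rowB 3 eng mog cd1q2b cd4q2a pd0 0 false true false .pp 2 0 2 (qsf 1239849684 370763052 0 536870912 0) ndB1q2b ndB4q2a pcB0 cut_pm_202_ba Ext.none)

def k0_pm_202_ba : ∃ t, chk3 f_pm_202_ba t 1 1 1 = true :=
  ⟨(l 3), by decide +kernel⟩

theorem c_pm_202_ba : CertB 1239849684 370763052 0 536870912 587336777 62277027 3 eng mog cd1q2b cd4q2a pd0 false true false .pp 2 0 2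
    ndB1q2b ndB4q2a pcB0 cut_pm_202_ba Ext.none :=
  certB0 (fam := false) (s1 := true) (s2 := false) (a := 2) (b := 0) (c := 2) (cn := .pp) (n1 := ndB1q2b) (n2 := ndB4q2a) (pc := pcB0) (cut := cut_pm_202_ba) (xt := Ext.none) (P1 := 1239849684) (W1 := 370763052) (P2 := 0) (W2 := 536870912) (P3 := 587336777) (W3 := 62277027) (N0 := 3) (En := eng) (mo := mog) (C1 := cd1q2b) (C2 := cd4q2a) (C3 := pd0)
    rfl k0_pm_202_ba

noncomputable def cut_pm_202_bb : Cut := Cut.of [[⟨0, 1, 0, 67108864⟩, ⟨1, 0, 0, 67108864⟩, ⟨2, 1, 0, 67108864⟩]]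

noncomputable def f_pm_202_bb : ℕ → ℕ → ℕ → ℕ → Bool := onCell 1239849684 370763052 1239849684 370763052 587336777 62277027
    (rowB 3 eng mog cd1q2b cd4q2b pd0 0 false true false .pp 2 0 2 (qsf 1239849684 370763052 1239849684 370763052 0) ndB1q2b ndB4q2b pcB0 cut_pm_202_bb Ext.none)

def k0_pm_202_bb : ∃ t, chk3 f_pm_202_bb t 1 1 1 = true :=
  ⟨(l 3), by decide +kernel⟩

theorem c_pm_202_bb : CertB 1239849684 370763052 1239849684 370763052 587336777 62277027 3 eng mog cd1q2b cd4q2b pd0 false true false .pp 2 0 2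
    ndB1q2b ndB4q2b pcB0 cut_pm_202_bb Ext.none :=
  certB0 (fam := false) (s1 := true) (s2 := false) (a := 2) (b := 0) (c := 2) (cn := .pp) (n1 := ndB1q2b) (n2 := ndB4q2b) (pc := pcB0) (cut := cut_pm_202_bb) (xt := Ext.none) (P1 := 1239849684) (W1 := 370763052) (P2 := 1239849684) (W2 := 370763052) (P3 := 587336777) (W3 := 62277027) (N0 := 3) (En := eng) (mo := mog) (C1 := cd1q2b) (C2 := cd4q2b) (C3 := pd0)
    rfl k0_pm_202_bb

noncomputable def f_pm_203_a : ℕ → ℕ → ℕ → ℕ → Bool := onCell 0 536870912 0 536870912 587336777 62277027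
    (rowB 3 eng mog cd1q2a cd4q3 pd0 1 false true false .up 2 0 3 (qsf 0 536870912 1610612736 536870912 0) ndB1q2a ndB4q3 pcB0 Cut.none Ext.none)

def k0_pm_203_a : ∃ t, chk3 f_pm_203_a t 1 1 1 = true :=
  ⟨(l 3), by decide +kernel⟩

theorem c_pm_203_a : CertB 0 536870912 1610612736 536870912 587336777 62277027 3 eng mog cd1q2a cd4q3 pd0 false true false .up 2 0 3
    ndB1q2a ndB4q3 pcB0 Cut.none Ext.none :=
  certB1 (fam := false) (s1 := true) (s2 := false) (a := 2) (b := 0) (c := 3) (cn := .up) (n1 := ndB1q2a) (n2 := ndB4q3) (pc := pcB0) (cut := Cut.none) (xt := Ext.none) (P1 := 0) (W1 := 536870912) (P2 := 1610612736) (W2 := 536870912) (P3 := 587336777) (W3 := 62277027) (N0 := 3) (En := eng) (mo := mog) (C1 := cd1q2a) (C2 := cd4q3) (C3 := pd0)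
    rfl (fun _ => rfl) k0_pm_203_a

noncomputable def f_pm_203_b : ℕ → ℕ → ℕ → ℕ → Bool := onCell 1239849684 370763052 1610612736 536870912 587336777 62277027
    (rowB 3 eng mog cd1q2b cd4q3 pd0 0 false true false .up 2 0 3 (qsf 1239849684 370763052 1610612736 536870912 0) ndB1q2b ndB4q3 pcB0 Cut.none Ext.none)

def k0_pm_203_b : ∃ t, chk3 f_pm_203_b t 1 1 1 = true :=
  ⟨(l 3), by decide +kernel⟩

theorem c_pm_203_b : CertB 1239849684 370763052 1610612736 536870912 587336777 62277027 3 eng mog cd1q2b cd4q3 pd0 false true false .up 2 0 3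
    ndB1q2b ndB4q3 pcB0 Cut.none Ext.none :=
  certB0 (fam := false) (s1 := true) (s2 := false) (a := 2) (b := 0) (c := 3) (cn := .up) (n1 := ndB1q2b) (n2 := ndB4q3) (pc := pcB0) (cut := Cut.none) (xt := Ext.none) (P1 := 1239849684) (W1 := 370763052) (P2 := 1610612736) (W2 := 536870912) (P3 := 587336777) (W3 := 62277027) (N0 := 3) (En := eng) (mo := mog) (C1 := cd1q2b) (C2 := cd4q3) (C3 := pd0)
    rfl k0_pm_203_b

noncomputable def cut_pm_213_a : Cut := Cut.of [[⟨0, 1, 0, 67108864⟩, ⟨1, 1, 0, 67108864⟩, ⟨2, 2, 0, 16777216⟩]]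

noncomputable def f_pm_213_a : ℕ → ℕ → ℕ → ℕ → Bool := onCell 0 536870912 1610612736 536870912 587336777 62277027
    (rowB 3 eng mog cd1q2a cd4q3 pd1 0 false true false .pnn 2 1 3 (qsf 0 536870912 1610612736 536870912 1) ndB1q2a ndB4q3 pcB1 cut_pm_213_a Ext.none)

def k0_pm_213_a : ∃ t, chk3 f_pm_213_a t 1 1 1 = true :=
  ⟨(a (l 3) (b (l 3) (b (l 3) (a (l 3) (b (l 3) (b (l 3) (b (l 3) (a (l 3) (b (l 3) (l 6)))))))))), by decide +kernel⟩

theorem c_pm_213_a : CertB 0 536870912 1610612736 536870912 587336777 62277027 3 eng mog cd1q2a cd4q3 pd1 false true false .pnn 2 1 3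
    ndB1q2a ndB4q3 pcB1 cut_pm_213_a Ext.none :=
  certB0 (fam := false) (s1 := true) (s2 := false) (a := 2) (b := 1) (c := 3) (cn := .pnn) (n1 := ndB1q2a) (n2 := ndB4q3) (pc := pcB1) (cut := cut_pm_213_a) (xt := Ext.none) (P1 := 0) (W1 := 536870912) (P2 := 1610612736) (W2 := 536870912) (P3 := 587336777) (W3 := 62277027) (N0 := 3) (En := eng) (mo := mog) (C1 := cd1q2a) (C2 := cd4q3) (C3 := pd1)
    rfl k0_pm_213_a

noncomputable def cut_pm_213_b : Cut := Cut.of [[⟨0, 1, 0, 67108864⟩, ⟨1, 1, 0, 67108864⟩, ⟨2, 2, 0, 16777216⟩]]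

noncomputable def f_pm_213_b : ℕ → ℕ → ℕ → ℕ → Bool := onCell 1239849684 370763052 1610612736 536870912 587336777 62277027
    (rowB 3 eng mog cd1q2b cd4q3 pd1 0 false true false .pnn 2 1 3 (qsf 1239849684 370763052 1610612736 536870912 1) ndB1q2b ndB4q3 pcB1 cut_pm_213_b Ext.none)

def k0_pm_213_b : ∃ t, chk3 f_pm_213_b t 1 1 1 = true :=
  ⟨(l 3), by decide +kernel⟩

theorem c_pm_213_b : CertB 1239849684 370763052 1610612736 536870912 587336777 62277027 3 eng mog cd1q2b cd4q3 pd1 false true false .pnn 2 1 3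
    ndB1q2b ndB4q3 pcB1 cut_pm_213_b Ext.none :=
  certB0 (fam := false) (s1 := true) (s2 := false) (a := 2) (b := 1) (c := 3) (cn := .pnn) (n1 := ndB1q2b) (n2 := ndB4q3) (pc := pcB1) (cut := cut_pm_213_b) (xt := Ext.none) (P1 := 1239849684) (W1 := 370763052) (P2 := 1610612736) (W2 := 536870912) (P3 := 587336777) (W3 := 62277027) (N0 := 3) (En := eng) (mo := mog) (C1 := cd1q2b) (C2 := cd4q3) (C3 := pd1)
    rfl k0_pm_213_b

noncomputable def f_pm_303 : ℕ → ℕ → ℕ → ℕ → Bool := onCell 1610612736 536870912 1610612736 536870912 587336777 62277027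
    (rowB 3 eng mog cd1q3 cd4q3 pd0 0 false true false .npn 3 0 3 (qsf 1610612736 536870912 1610612736 536870912 0) ndB1q3 ndB4q3 pcB0 Cut.none Ext.none)

def k0_pm_303 : ∃ t, chk3 f_pm_303 t 1 1 1 = true :=
  ⟨(l 3), by decide +kernel⟩

theorem c_pm_303 : CertB 1610612736 536870912 1610612736 536870912 587336777 62277027 3 eng mog cd1q3 cd4q3 pd0 false true false .npn 3 0 3
    ndB1q3 ndB4q3 pcB0 Cut.none Ext.none :=
  certB0 (fam := false) (s1 := true) (s2 := false) (a := 3) (b := 0) (c := 3) (cn := .npn) (n1 := ndB1q3) (n2 := ndB4q3) (pc := pcB0) (cut := Cut.none) (xt := Ext.none) (P1 := 1610612736) (W1 := 536870912) (P2 := 1610612736) (W2 := 536870912) (P3 := 587336777) (W3 := 62277027) (N0 := 3) (En := eng) (mo := mog) (C1 := cd1q3) (C2 := cd4q3) (C3 := pd0)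
    rfl k0_pm_303

noncomputable def f_pm_313 : ℕ → ℕ → ℕ → ℕ → Bool := onCell 1610612736 536870912 1610612736 536870912 587336777 62277027
    (rowB 3 eng mog cd1q3 cd4q3 pd1 0 false true false .dn 3 1 3 (qsf 1610612736 536870912 1610612736 536870912 1) ndB1q3 ndB4q3 pcB1 Cut.none Ext.none)

def k0_pm_313 : ∃ t, chk3 f_pm_313 t 1 1 1 = true :=
  ⟨(l 3), by decide +kernel⟩

theorem c_pm_313 : CertB 1610612736 536870912 1610612736 536870912 587336777 62277027 3 eng mog cd1q3 cd4q3 pd1 false true false .dn 3 1 3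
    ndB1q3 ndB4q3 pcB1 Cut.none Ext.none :=
  certB0 (fam := false) (s1 := true) (s2 := false) (a := 3) (b := 1) (c := 3) (cn := .dn) (n1 := ndB1q3) (n2 := ndB4q3) (pc := pcB1) (cut := Cut.none) (xt := Ext.none) (P1 := 1610612736) (W1 := 536870912) (P2 := 1610612736) (W2 := 536870912) (P3 := 587336777) (W3 := 62277027) (N0 := 3) (En := eng) (mo := mog) (C1 := cd1q3) (C2 := cd4q3) (C3 := pd1)
    rfl k0_pm_313

noncomputable def f_mm_001 : ℕ → ℕ → ℕ → ℕ → Bool := onCell 0 536870912 536870912 536870912 587336777 62277027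
    (rowB 3 eng mog cd1q0 cd4q1 pd0 0 false false false .up 0 0 1 (qsf 0 536870912 536870912 536870912 0) ndB1q0 ndB4q1 pcB0 Cut.none Ext.none)

def k0_mm_001 : ∃ t, chk3 f_mm_001 t 1 1 1 = true :=
  ⟨(l 3), by decide +kernel⟩

theorem c_mm_001 : CertB 0 536870912 536870912 536870912 587336777 62277027 3 eng mog cd1q0 cd4q1 pd0 false false false .up 0 0 1
    ndB1q0 ndB4q1 pcB0 Cut.none Ext.none :=
  certB0 (fam := false) (s1 := false) (s2 := false) (a := 0) (b := 0) (c := 1) (cn := .up) (n1 := ndB1q0) (n2 := ndB4q1) (pc := pcB0) (cut := Cut.none) (xt := Ext.none) (P1 := 0) (W1 := 536870912) (P2 := 536870912) (W2 := 536870912) (P3 := 587336777) (W3 := 62277027) (N0 := 3) (En := eng) (mo := mog) (C1 := cd1q0) (C2 := cd4q1) (C3 := pd0)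
    rfl k0_mm_001

noncomputable def f_mm_011 : ℕ → ℕ → ℕ → ℕ → Bool := onCell 0 536870912 536870912 536870912 587336777 62277027
    (rowB 3 eng mog cd1q0 cd4q1 pd1 0 false false false .pnn 0 1 1 (qsf 0 536870912 536870912 536870912 1) ndB1q0 ndB4q1 pcB1 Cut.none Ext.none)

def k0_mm_011 : ∃ t, chk3 f_mm_011 t 1 1 1 = true :=
  ⟨(l 3), by decide +kernel⟩

theorem c_mm_011 : CertB 0 536870912 536870912 536870912 587336777 62277027 3 eng mog cd1q0 cd4q1 pd1 false false false .pnn 0 1 1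
    ndB1q0 ndB4q1 pcB1 Cut.none Ext.none :=
  certB0 (fam := false) (s1 := false) (s2 := false) (a := 0) (b := 1) (c := 1) (cn := .pnn) (n1 := ndB1q0) (n2 := ndB4q1) (pc := pcB1) (cut := Cut.none) (xt := Ext.none) (P1 := 0) (W1 := 536870912) (P2 := 536870912) (W2 := 536870912) (P3 := 587336777) (W3 := 62277027) (N0 := 3) (En := eng) (mo := mog) (C1 := cd1q0) (C2 := cd4q1) (C3 := pd1)
    rfl k0_mm_011

noncomputable def f_mm_012_a : ℕ → ℕ → ℕ → ℕ → Bool := onCell 0 536870912 0 536870912 587336777 62277027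
    (rowB 3 eng mog cd1q0 cd4q2a pd1 0 false false false .pnp 0 1 2 (qsf 0 536870912 0 536870912 1) ndB1q0 ndB4q2a pcB1 Cut.none Ext.none)

def k0_mm_012_a : ∃ t, chk3 f_mm_012_a t 1 1 1 = true :=
  ⟨(l 5), by decide +kernel⟩

theorem c_mm_012_a : CertB 0 536870912 0 536870912 587336777 62277027 3 eng mog cd1q0 cd4q2a pd1 false false false .pnp 0 1 2
    ndB1q0 ndB4q2a pcB1 Cut.none Ext.none :=
  certB0 (fam := false) (s1 := false) (s2 := false) (a := 0) (b := 1) (c := 2) (cn := .pnp) (n1 := ndB1q0) (n2 := ndB4q2a) (pc := pcB1) (cut := Cut.none) (xt := Ext.none) (P1 := 0) (W1 := 536870912) (P2 := 0) (W2 := 536870912) (P3 := 587336777) (W3 := 62277027) (N0 := 3) (En := eng) (mo := mog) (C1 := cd1q0) (C2 := cd4q2a) (C3 := pd1)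
    rfl k0_mm_012_a

noncomputable def f_mm_012_b : ℕ → ℕ → ℕ → ℕ → Bool := onCell 0 536870912 1239849684 370763052 587336777 62277027
    (rowB 3 eng mog cd1q0 cd4q2b pd1 0 false false false .pnp 0 1 2 (qsf 0 536870912 1239849684 370763052 1) ndB1q0 ndB4q2b pcB1 Cut.none Ext.none)

def k0_mm_012_b : ∃ t, chk3 f_mm_012_b t 1 1 1 = true :=
  ⟨(l 5), by decide +kernel⟩

theorem c_mm_012_b : CertB 0 536870912 1239849684 370763052 587336777 62277027 3 eng mog cd1q0 cd4q2b pd1 false false false .pnp 0 1 2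
    ndB1q0 ndB4q2b pcB1 Cut.none Ext.none :=
  certB0 (fam := false) (s1 := false) (s2 := false) (a := 0) (b := 1) (c := 2) (cn := .pnp) (n1 := ndB1q0) (n2 := ndB4q2b) (pc := pcB1) (cut := Cut.none) (xt := Ext.none) (P1 := 0) (W1 := 536870912) (P2 := 1239849684) (W2 := 370763052) (P3 := 587336777) (W3 := 62277027) (N0 := 3) (En := eng) (mo := mog) (C1 := cd1q0) (C2 := cd4q2b) (C3 := pd1)
    rfl k0_mm_012_b

noncomputable def f_mm_022_a : ℕ → ℕ → ℕ → ℕ → Bool := onCell 0 536870912 0 536870912 587336777 62277027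
    (rowB 3 eng mog cd1q0 cd4q2a pd2 0 false false false .pp 0 2 2 (qsf 0 536870912 0 536870912 2) ndB1q0 ndB4q2a pcB2 Cut.none Ext.none)

def k0_mm_022_a : ∃ t, chk3 f_mm_022_a t 1 1 1 = true :=
  ⟨(l 5), by decide +kernel⟩

theorem c_mm_022_a : CertB 0 536870912 0 536870912 587336777 62277027 3 eng mog cd1q0 cd4q2a pd2 false false false .pp 0 2 2
    ndB1q0 ndB4q2a pcB2 Cut.none Ext.none :=
  certB0 (fam := false) (s1 := false) (s2 := false) (a := 0) (b := 2) (c := 2) (cn := .pp) (n1 := ndB1q0) (n2 := ndB4q2a) (pc := pcB2) (cut := Cut.none) (xt := Ext.none) (P1 := 0) (W1 := 536870912) (P2 := 0) (W2 := 536870912) (P3 := 587336777) (W3 := 62277027) (N0 := 3) (En := eng) (mo := mog) (C1 := cd1q0) (C2 := cd4q2a) (C3 := pd2)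
    rfl k0_mm_022_a

noncomputable def f_mm_022_b : ℕ → ℕ → ℕ → ℕ → Bool := onCell 0 536870912 1239849684 370763052 587336777 62277027
    (rowB 3 eng mog cd1q0 cd4q2b pd2 0 false false false .pp 0 2 2 (qsf 0 536870912 1239849684 370763052 2) ndB1q0 ndB4q2b pcB2 Cut.none Ext.none)

def k0_mm_022_b : ∃ t, chk3 f_mm_022_b t 1 1 1 = true :=
  ⟨(l 5), by decide +kernel⟩

theorem c_mm_022_b : CertB 0 536870912 1239849684 370763052 587336777 62277027 3 eng mog cd1q0 cd4q2b pd2 false false false .pp 0 2 2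
    ndB1q0 ndB4q2b pcB2 Cut.none Ext.none :=
  certB0 (fam := false) (s1 := false) (s2 := false) (a := 0) (b := 2) (c := 2) (cn := .pp) (n1 := ndB1q0) (n2 := ndB4q2b) (pc := pcB2) (cut := Cut.none) (xt := Ext.none) (P1 := 0) (W1 := 536870912) (P2 := 1239849684) (W2 := 370763052) (P3 := 587336777) (W3 := 62277027) (N0 := 3) (En := eng) (mo := mog) (C1 := cd1q0) (C2 := cd4q2b) (C3 := pd2)
    rfl k0_mm_022_b

noncomputable def f_mm_023 : ℕ → ℕ → ℕ → ℕ → Bool := onCell 0 536870912 1610612736 536870912 587336777 62277027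
    (rowB 3 eng mog cd1q0 cd4q3 pd2 0 false false false .up 0 2 3 (qsf 0 536870912 1610612736 536870912 2) ndB1q0 ndB4q3 pcB2 Cut.none Ext.none)

def k0_mm_023 : ∃ t, chk3 f_mm_023 t 1 1 1 = true :=
  ⟨(l 5), by decide +kernel⟩

theorem c_mm_023 : CertB 0 536870912 1610612736 536870912 587336777 62277027 3 eng mog cd1q0 cd4q3 pd2 false false false .up 0 2 3
    ndB1q0 ndB4q3 pcB2 Cut.none Ext.none :=
  certB0 (fam := false) (s1 := false) (s2 := false) (a := 0) (b := 2) (c := 3) (cn := .up) (n1 := ndB1q0) (n2 := ndB4q3) (pc := pcB2) (cut := Cut.none) (xt := Ext.none) (P1 := 0) (W1 := 536870912) (P2 := 1610612736) (W2 := 536870912) (P3 := 587336777) (W3 := 62277027) (N0 := 3) (En := eng) (mo := mog) (C1 := cd1q0) (C2 := cd4q3) (C3 := pd2)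
    rfl k0_mm_023

noncomputable def f_mm_033 : ℕ → ℕ → ℕ → ℕ → Bool := onCell 0 536870912 1610612736 536870912 587336777 62277027
    (rowB 3 eng mog cd1q0 cd4q3 pd3 0 false false false .pnn 0 3 3 (qsf 0 536870912 1610612736 536870912 3) ndB1q0 ndB4q3 pcB3 Cut.none Ext.none)

def k0_mm_033 : ∃ t, chk3 f_mm_033 t 1 1 1 = true :=
  ⟨(l 5), by decide +kernel⟩

theorem c_mm_033 : CertB 0 536870912 1610612736 536870912 587336777 62277027 3 eng mog cd1q0 cd4q3 pd3 false false false .pnn 0 3 3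
    ndB1q0 ndB4q3 pcB3 Cut.none Ext.none :=
  certB0 (fam := false) (s1 := false) (s2 := false) (a := 0) (b := 3) (c := 3) (cn := .pnn) (n1 := ndB1q0) (n2 := ndB4q3) (pc := pcB3) (cut := Cut.none) (xt := Ext.none) (P1 := 0) (W1 := 536870912) (P2 := 1610612736) (W2 := 536870912) (P3 := 587336777) (W3 := 62277027) (N0 := 3) (En := eng) (mo := mog) (C1 := cd1q0) (C2 := cd4q3) (C3 := pd3)
    rfl k0_mm_033

noncomputable def f_mm_101 : ℕ → ℕ → ℕ → ℕ → Bool := onCell 536870912 536870912 536870912 536870912 587336777 62277027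
    (rowB 3 eng mog cd1q1 cd4q1 pd0 0 false false false .npn 1 0 1 (qsf 536870912 536870912 536870912 536870912 0) ndB1q1 ndB4q1 pcB0 Cut.none Ext.none)

def k0_mm_101 : ∃ t, chk3 f_mm_101 t 1 1 1 = true :=
  ⟨(l 3), by decide +kernel⟩

theorem c_mm_101 : CertB 536870912 536870912 536870912 536870912 587336777 62277027 3 eng mog cd1q1 cd4q1 pd0 false false false .npn 1 0 1
    ndB1q1 ndB4q1 pcB0 Cut.none Ext.none :=
  certB0 (fam := false) (s1 := false) (s2 := false) (a := 1) (b := 0) (c := 1) (cn := .npn) (n1 := ndB1q1) (n2 := ndB4q1) (pc := pcB0) (cut := Cut.none) (xt := Ext.none) (P1 := 536870912) (W1 := 536870912) (P2 := 536870912) (W2 := 536870912) (P3 := 587336777) (W3 := 62277027) (N0 := 3) (En := eng) (mo := mog) (C1 := cd1q1) (C2 := cd4q1) (C3 := pd0)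
    rfl k0_mm_101

noncomputable def f_mm_102_a : ℕ → ℕ → ℕ → ℕ → Bool := onCell 536870912 536870912 0 536870912 587336777 62277027
    (rowB 3 eng mog cd1q1 cd4q2a pd0 0 false false false .npp 1 0 2 (qsf 536870912 536870912 0 536870912 0) ndB1q1 ndB4q2a pcB0 Cut.none Ext.none)

def k0_mm_102_a : ∃ t, chk3 f_mm_102_a t 1 1 1 = true :=
  ⟨(l 3), by decide +kernel⟩

theorem c_mm_102_a : CertB 536870912 536870912 0 536870912 587336777 62277027 3 eng mog cd1q1 cd4q2a pd0 false false false .npp 1 0 2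
    ndB1q1 ndB4q2a pcB0 Cut.none Ext.none :=
  certB0 (fam := false) (s1 := false) (s2 := false) (a := 1) (b := 0) (c := 2) (cn := .npp) (n1 := ndB1q1) (n2 := ndB4q2a) (pc := pcB0) (cut := Cut.none) (xt := Ext.none) (P1 := 536870912) (W1 := 536870912) (P2 := 0) (W2 := 536870912) (P3 := 587336777) (W3 := 62277027) (N0 := 3) (En := eng) (mo := mog) (C1 := cd1q1) (C2 := cd4q2a) (C3 := pd0)
    rfl k0_mm_102_a

noncomputable def f_mm_102_b : ℕ → ℕ → ℕ → ℕ → Bool := onCell 536870912 536870912 1239849684 370763052 587336777 62277027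
    (rowB 3 eng mog cd1q1 cd4q2b pd0 0 false false false .npp 1 0 2 (qsf 536870912 536870912 1239849684 370763052 0) ndB1q1 ndB4q2b pcB0 Cut.none Ext.none)

def k0_mm_102_b : ∃ t, chk3 f_mm_102_b t 1 1 1 = true :=
  ⟨(l 5), by decide +kernel⟩

theorem c_mm_102_b : CertB 536870912 536870912 1239849684 370763052 587336777 62277027 3 eng mog cd1q1 cd4q2b pd0 false false false .npp 1 0 2
    ndB1q1 ndB4q2b pcB0 Cut.none Ext.none :=
  certB0 (fam := false) (s1 := false) (s2 := false) (a := 1) (b := 0) (c := 2) (cn := .npp) (n1 := ndB1q1) (n2 := ndB4q2b) (pc := pcB0) (cut := Cut.none) (xt := Ext.none) (P1 := 536870912) (W1 := 536870912) (P2 := 1239849684) (W2 := 370763052) (P3 := 587336777) (W3 := 62277027) (N0 := 3) (En := eng) (mo := mog) (C1 := cd1q1) (C2 := cd4q2b) (C3 := pd0)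
    rfl k0_mm_102_b

noncomputable def f_mm_112_a : ℕ → ℕ → ℕ → ℕ → Bool := onCell 536870912 536870912 0 536870912 587336777 62277027
    (rowB 3 eng mog cd1q1 cd4q2a pd1 0 false false false .dn 1 1 2 (qsf 536870912 536870912 0 536870912 1) ndB1q1 ndB4q2a pcB1 Cut.none Ext.none)

def k0_mm_112_a : ∃ t, chk3 f_mm_112_a t 1 1 1 = true :=
  ⟨(l 3), by decide +kernel⟩

theorem c_mm_112_a : CertB 536870912 536870912 0 536870912 587336777 62277027 3 eng mog cd1q1 cd4q2a pd1 false false false .dn 1 1 2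
    ndB1q1 ndB4q2a pcB1 Cut.none Ext.none :=
  certB0 (fam := false) (s1 := false) (s2 := false) (a := 1) (b := 1) (c := 2) (cn := .dn) (n1 := ndB1q1) (n2 := ndB4q2a) (pc := pcB1) (cut := Cut.none) (xt := Ext.none) (P1 := 536870912) (W1 := 536870912) (P2 := 0) (W2 := 536870912) (P3 := 587336777) (W3 := 62277027) (N0 := 3) (En := eng) (mo := mog) (C1 := cd1q1) (C2 := cd4q2a) (C3 := pd1)
    rfl k0_mm_112_a

noncomputable def f_mm_112_b : ℕ → ℕ → ℕ → ℕ → Bool := onCell 536870912 536870912 1239849684 370763052 587336777 62277027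
    (rowB 3 eng mog cd1q1 cd4q2b pd1 0 false false false .dn 1 1 2 (qsf 536870912 536870912 1239849684 370763052 1) ndB1q1 ndB4q2b pcB1 Cut.none Ext.none)

def k0_mm_112_b : ∃ t, chk3 f_mm_112_b t 1 1 1 = true :=
  ⟨(l 5), by decide +kernel⟩

theorem c_mm_112_b : CertB 536870912 536870912 1239849684 370763052 587336777 62277027 3 eng mog cd1q1 cd4q2b pd1 false false false .dn 1 1 2
    ndB1q1 ndB4q2b pcB1 Cut.none Ext.none :=
  certB0 (fam := false) (s1 := false) (s2 := false) (a := 1) (b := 1) (c := 2) (cn := .dn) (n1 := ndB1q1) (n2 := ndB4q2b) (pc := pcB1) (cut := Cut.none) (xt := Ext.none) (P1 := 536870912) (W1 := 536870912) (P2 := 1239849684) (W2 := 370763052) (P3 := 587336777) (W3 := 62277027) (N0 := 3) (En := eng) (mo := mog) (C1 := cd1q1) (C2 := cd4q2b) (C3 := pd1)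
    rfl k0_mm_112_b

noncomputable def f_mm_113 : ℕ → ℕ → ℕ → ℕ → Bool := onCell 536870912 536870912 1610612736 536870912 587336777 62277027
    (rowB 3 eng mog cd1q1 cd4q3 pd1 0 false false false .nn 1 1 3 (qsf 536870912 536870912 1610612736 536870912 1) ndB1q1 ndB4q3 pcB1 Cut.none Ext.none)

def k0_mm_113 : ∃ t, chk3 f_mm_113 t 1 1 1 = true :=
  ⟨(l 5), by decide +kernel⟩

theorem c_mm_113 : CertB 536870912 536870912 1610612736 536870912 587336777 62277027 3 eng mog cd1q1 cd4q3 pd1 false false false .nn 1 1 3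
    ndB1q1 ndB4q3 pcB1 Cut.none Ext.none :=
  certB0 (fam := false) (s1 := false) (s2 := false) (a := 1) (b := 1) (c := 3) (cn := .nn) (n1 := ndB1q1) (n2 := ndB4q3) (pc := pcB1) (cut := Cut.none) (xt := Ext.none) (P1 := 536870912) (W1 := 536870912) (P2 := 1610612736) (W2 := 536870912) (P3 := 587336777) (W3 := 62277027) (N0 := 3) (En := eng) (mo := mog) (C1 := cd1q1) (C2 := cd4q3) (C3 := pd1)
    rfl k0_mm_113

noncomputable def f_mm_123 : ℕ → ℕ → ℕ → ℕ → Bool := onCell 536870912 536870912 1610612736 536870912 587336777 62277027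
    (rowB 3 eng mog cd1q1 cd4q3 pd2 0 false false false .npn 1 2 3 (qsf 536870912 536870912 1610612736 536870912 2) ndB1q1 ndB4q3 pcB2 Cut.none Ext.none)

def k0_mm_123 : ∃ t, chk3 f_mm_123 t 1 1 1 = true :=
  ⟨(l 5), by decide +kernel⟩

theorem c_mm_123 : CertB 536870912 536870912 1610612736 536870912 587336777 62277027 3 eng mog cd1q1 cd4q3 pd2 false false false .npn 1 2 3
    ndB1q1 ndB4q3 pcB2 Cut.none Ext.none :=
  certB0 (fam := false) (s1 := false) (s2 := false) (a := 1) (b := 2) (c := 3) (cn := .npn) (n1 := ndB1q1) (n2 := ndB4q3) (pc := pcB2) (cut := Cut.none) (xt := Ext.none) (P1 := 536870912) (W1 := 536870912) (P2 := 1610612736) (W2 := 536870912) (P3 := 587336777) (W3 := 62277027) (N0 := 3) (En := eng) (mo := mog) (C1 := cd1q1) (C2 := cd4q3) (C3 := pd2)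
    rfl k0_mm_123

noncomputable def f_mm_133 : ℕ → ℕ → ℕ → ℕ → Bool := onCell 536870912 536870912 1610612736 536870912 587336777 62277027
    (rowB 3 eng mog cd1q1 cd4q3 pd3 0 false false false .dn 1 3 3 (qsf 536870912 536870912 1610612736 536870912 3) ndB1q1 ndB4q3 pcB3 Cut.none Ext.none)

def k0_mm_133 : ∃ t, chk3 f_mm_133 t 1 1 1 = true :=
  ⟨(l 5), by decide +kernel⟩

theorem c_mm_133 : CertB 536870912 536870912 1610612736 536870912 587336777 62277027 3 eng mog cd1q1 cd4q3 pd3 false false false .dn 1 3 3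
    ndB1q1 ndB4q3 pcB3 Cut.none Ext.none :=
  certB0 (fam := false) (s1 := false) (s2 := false) (a := 1) (b := 3) (c := 3) (cn := .dn) (n1 := ndB1q1) (n2 := ndB4q3) (pc := pcB3) (cut := Cut.none) (xt := Ext.none) (P1 := 536870912) (W1 := 536870912) (P2 := 1610612736) (W2 := 536870912) (P3 := 587336777) (W3 := 62277027) (N0 := 3) (En := eng) (mo := mog) (C1 := cd1q1) (C2 := cd4q3) (C3 := pd3)
    rfl k0_mm_133

noncomputable def f_mm_202_aa : ℕ → ℕ → ℕ → ℕ → Bool := onCell 0 536870912 0 536870912 587336777 62277027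
    (rowB 3 eng mog cd1q2a cd4q2a pd0 0 false false false .pp 2 0 2 (qsf 0 536870912 0 536870912 0) ndB1q2a ndB4q2a pcB0 Cut.none Ext.none)

def k0_mm_202_aa : ∃ t, chk3 f_mm_202_aa t 1 1 1 = true :=
  ⟨(l 3), by decide +kernel⟩

theorem c_mm_202_aa : CertB 0 536870912 0 536870912 587336777 62277027 3 eng mog cd1q2a cd4q2a pd0 false false false .pp 2 0 2
    ndB1q2a ndB4q2a pcB0 Cut.none Ext.none :=
  certB0 (fam := false) (s1 := false) (s2 := false) (a := 2) (b := 0) (c := 2) (cn := .pp) (n1 := ndB1q2a) (n2 := ndB4q2a) (pc := pcB0) (cut := Cut.none) (xt := Ext.none) (P1 := 0) (W1 := 536870912) (P2 := 0) (W2 := 536870912) (P3 := 587336777) (W3 := 62277027) (N0 := 3) (En := eng) (mo := mog) (C1 := cd1q2a) (C2 := cd4q2a) (C3 := pd0)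
    rfl k0_mm_202_aa

noncomputable def f_mm_202_ab : ℕ → ℕ → ℕ → ℕ → Bool := onCell 0 536870912 1239849684 370763052 587336777 62277027
    (rowB 3 eng mog cd1q2a cd4q2b pd0 0 false false false .pp 2 0 2 (qsf 0 536870912 1239849684 370763052 0) ndB1q2a ndB4q2b pcB0 Cut.none Ext.none)

def k0_mm_202_ab : ∃ t, chk3 f_mm_202_ab t 1 1 1 = true :=
  ⟨(l 3), by decide +kernel⟩

theorem c_mm_202_ab : CertB 0 536870912 1239849684 370763052 587336777 62277027 3 eng mog cd1q2a cd4q2b pd0 false false false .pp 2 0 2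
    ndB1q2a ndB4q2b pcB0 Cut.none Ext.none :=
  certB0 (fam := false) (s1 := false) (s2 := false) (a := 2) (b := 0) (c := 2) (cn := .pp) (n1 := ndB1q2a) (n2 := ndB4q2b) (pc := pcB0) (cut := Cut.none) (xt := Ext.none) (P1 := 0) (W1 := 536870912) (P2 := 1239849684) (W2 := 370763052) (P3 := 587336777) (W3 := 62277027) (N0 := 3) (En := eng) (mo := mog) (C1 := cd1q2a) (C2 := cd4q2b) (C3 := pd0)
    rfl k0_mm_202_ab

noncomputable def f_mm_202_ba : ℕ → ℕ → ℕ → ℕ → Bool := onCell 1239849684 370763052 0 536870912 587336777 62277027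
    (rowB 3 eng mog cd1q2b cd4q2a pd0 0 false false false .pp 2 0 2 (qsf 1239849684 370763052 0 536870912 0) ndB1q2b ndB4q2a pcB0 Cut.none Ext.none)

def k0_mm_202_ba : ∃ t, chk3 f_mm_202_ba t 1 1 1 = true :=
  ⟨(l 3), by decide +kernel⟩

theorem c_mm_202_ba : CertB 1239849684 370763052 0 536870912 587336777 62277027 3 eng mog cd1q2b cd4q2a pd0 false false false .pp 2 0 2
    ndB1q2b ndB4q2a pcB0 Cut.none Ext.none :=
  certB0 (fam := false) (s1 := false) (s2 := false) (a := 2) (b := 0) (c := 2) (cn := .pp) (n1 := ndB1q2b) (n2 := ndB4q2a) (pc := pcB0) (cut := Cut.none) (xt := Ext.none) (P1 := 1239849684) (W1 := 370763052) (P2 := 0) (W2 := 536870912) (P3 := 587336777) (W3 := 62277027) (N0 := 3) (En := eng) (mo := mog) (C1 := cd1q2b) (C2 := cd4q2a) (C3 := pd0)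
    rfl k0_mm_202_ba

noncomputable def f_mm_202_bb : ℕ → ℕ → ℕ → ℕ → Bool := onCell 1239849684 370763052 1239849684 370763052 587336777 62277027
    (rowB 3 eng mog cd1q2b cd4q2b pd0 0 false false false .pp 2 0 2 (qsf 1239849684 370763052 1239849684 370763052 0) ndB1q2b ndB4q2b pcB0 Cut.none Ext.none)

def k0_mm_202_bb : ∃ t, chk3 f_mm_202_bb t 1 1 1 = true :=
  ⟨(l 3), by decide +kernel⟩

theorem c_mm_202_bb : CertB 1239849684 370763052 1239849684 370763052 587336777 62277027 3 eng mog cd1q2b cd4q2b pd0 false false false .pp 2 0 2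
    ndB1q2b ndB4q2b pcB0 Cut.none Ext.none :=
  certB0 (fam := false) (s1 := false) (s2 := false) (a := 2) (b := 0) (c := 2) (cn := .pp) (n1 := ndB1q2b) (n2 := ndB4q2b) (pc := pcB0) (cut := Cut.none) (xt := Ext.none) (P1 := 1239849684) (W1 := 370763052) (P2 := 1239849684) (W2 := 370763052) (P3 := 587336777) (W3 := 62277027) (N0 := 3) (En := eng) (mo := mog) (C1 := cd1q2b) (C2 := cd4q2b) (C3 := pd0)
    rfl k0_mm_202_bb

noncomputable def f_mm_203_a : ℕ → ℕ → ℕ → ℕ → Bool := onCell 0 536870912 0 536870912 587336777 62277027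
    (rowB 3 eng mog cd1q2a cd4q3 pd0 1 false false false .up 2 0 3 (qsf 0 536870912 1610612736 536870912 0) ndB1q2a ndB4q3 pcB0 Cut.none Ext.none)

def k0_mm_203_a : ∃ t, chk3 f_mm_203_a t 1 1 1 = true :=
  ⟨(l 3), by decide +kernel⟩

theorem c_mm_203_a : CertB 0 536870912 1610612736 536870912 587336777 62277027 3 eng mog cd1q2a cd4q3 pd0 false false false .up 2 0 3
    ndB1q2a ndB4q3 pcB0 Cut.none Ext.none :=
  certB1 (fam := false) (s1 := false) (s2 := false) (a := 2) (b := 0) (c := 3) (cn := .up) (n1 := ndB1q2a) (n2 := ndB4q3) (pc := pcB0) (cut := Cut.none) (xt := Ext.none) (P1 := 0) (W1 := 536870912) (P2 := 1610612736) (W2 := 536870912) (P3 := 587336777) (W3 := 62277027) (N0 := 3) (En := eng) (mo := mog) (C1 := cd1q2a) (C2 := cd4q3) (C3 := pd0)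
    rfl (fun _ => rfl) k0_mm_203_a

noncomputable def f_mm_203_b : ℕ → ℕ → ℕ → ℕ → Bool := onCell 1239849684 370763052 1610612736 536870912 587336777 62277027
    (rowB 3 eng mog cd1q2b cd4q3 pd0 0 false false false .up 2 0 3 (qsf 1239849684 370763052 1610612736 536870912 0) ndB1q2b ndB4q3 pcB0 Cut.none Ext.none)

def k0_mm_203_b : ∃ t, chk3 f_mm_203_b t 1 1 1 = true :=
  ⟨(l 3), by decide +kernel⟩

theorem c_mm_203_b : CertB 1239849684 370763052 1610612736 536870912 587336777 62277027 3 eng mog cd1q2b cd4q3 pd0 false false false .up 2 0 3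
    ndB1q2b ndB4q3 pcB0 Cut.none Ext.none :=
  certB0 (fam := false) (s1 := false) (s2 := false) (a := 2) (b := 0) (c := 3) (cn := .up) (n1 := ndB1q2b) (n2 := ndB4q3) (pc := pcB0) (cut := Cut.none) (xt := Ext.none) (P1 := 1239849684) (W1 := 370763052) (P2 := 1610612736) (W2 := 536870912) (P3 := 587336777) (W3 := 62277027) (N0 := 3) (En := eng) (mo := mog) (C1 := cd1q2b) (C2 := cd4q3) (C3 := pd0)
    rfl k0_mm_203_b

noncomputable def f_mm_213_a : ℕ → ℕ → ℕ → ℕ → Bool := onCell 0 536870912 1610612736 536870912 587336777 62277027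
    (rowB 3 eng mog cd1q2a cd4q3 pd1 0 false false false .pnn 2 1 3 (qsf 0 536870912 1610612736 536870912 1) ndB1q2a ndB4q3 pcB1 Cut.none Ext.none)

def k0_mm_213_a : ∃ t, chk3 f_mm_213_a t 1 1 1 = true :=
  ⟨(a (l 3) (a (l 3) (l 5))), by decide +kernel⟩

theorem c_mm_213_a : CertB 0 536870912 1610612736 536870912 587336777 62277027 3 eng mog cd1q2a cd4q3 pd1 false false false .pnn 2 1 3
    ndB1q2a ndB4q3 pcB1 Cut.none Ext.none :=
  certB0 (fam := false) (s1 := false) (s2 := false) (a := 2) (b := 1) (c := 3) (cn := .pnn) (n1 := ndB1q2a) (n2 := ndB4q3) (pc := pcB1) (cut := Cut.none) (xt := Ext.none) (P1 := 0) (W1 := 536870912) (P2 := 1610612736) (W2 := 536870912) (P3 := 587336777) (W3 := 62277027) (N0 := 3) (En := eng) (mo := mog) (C1 := cd1q2a) (C2 := cd4q3) (C3 := pd1)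
    rfl k0_mm_213_a

noncomputable def f_mm_213_b : ℕ → ℕ → ℕ → ℕ → Bool := onCell 1239849684 370763052 1610612736 536870912 587336777 62277027
    (rowB 3 eng mog cd1q2b cd4q3 pd1 0 false false false .pnn 2 1 3 (qsf 1239849684 370763052 1610612736 536870912 1) ndB1q2b ndB4q3 pcB1 Cut.none Ext.none)

def k0_mm_213_b : ∃ t, chk3 f_mm_213_b t 1 1 1 = true :=
  ⟨(l 3), by decide +kernel⟩

theorem c_mm_213_b : CertB 1239849684 370763052 1610612736 536870912 587336777 62277027 3 eng mog cd1q2b cd4q3 pd1 false false false .pnn 2 1 3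
    ndB1q2b ndB4q3 pcB1 Cut.none Ext.none :=
  certB0 (fam := false) (s1 := false) (s2 := false) (a := 2) (b := 1) (c := 3) (cn := .pnn) (n1 := ndB1q2b) (n2 := ndB4q3) (pc := pcB1) (cut := Cut.none) (xt := Ext.none) (P1 := 1239849684) (W1 := 370763052) (P2 := 1610612736) (W2 := 536870912) (P3 := 587336777) (W3 := 62277027) (N0 := 3) (En := eng) (mo := mog) (C1 := cd1q2b) (C2 := cd4q3) (C3 := pd1)
    rfl k0_mm_213_b

noncomputable def f_mm_303 : ℕ → ℕ → ℕ → ℕ → Bool := onCell 1610612736 536870912 1610612736 536870912 587336777 62277027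
    (rowB 3 eng mog cd1q3 cd4q3 pd0 0 false false false .npn 3 0 3 (qsf 1610612736 536870912 1610612736 536870912 0) ndB1q3 ndB4q3 pcB0 Cut.none Ext.none)

def k0_mm_303 : ∃ t, chk3 f_mm_303 t 1 1 1 = true :=
  ⟨(l 3), by decide +kernel⟩

theorem c_mm_303 : CertB 1610612736 536870912 1610612736 536870912 587336777 62277027 3 eng mog cd1q3 cd4q3 pd0 false false false .npn 3 0 3
    ndB1q3 ndB4q3 pcB0 Cut.none Ext.none :=
  certB0 (fam := false) (s1 := false) (s2 := false) (a := 3) (b := 0) (c := 3) (cn := .npn) (n1 := ndB1q3) (n2 := ndB4q3) (pc := pcB0) (cut := Cut.none) (xt := Ext.none) (P1 := 1610612736) (W1 := 536870912) (P2 := 1610612736) (W2 := 536870912) (P3 := 587336777) (W3 := 62277027) (N0 := 3) (En := eng) (mo := mog) (C1 := cd1q3) (C2 := cd4q3) (C3 := pd0)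
    rfl k0_mm_303

noncomputable def f_mm_313 : ℕ → ℕ → ℕ → ℕ → Bool := onCell 1610612736 536870912 1610612736 536870912 587336777 62277027
    (rowB 3 eng mog cd1q3 cd4q3 pd1 0 false false false .dn 3 1 3 (qsf 1610612736 536870912 1610612736 536870912 1) ndB1q3 ndB4q3 pcB1 Cut.none Ext.none)

def k0_mm_313 : ∃ t, chk3 f_mm_313 t 1 1 1 = true :=
  ⟨(l 3), by decide +kernel⟩

theorem c_mm_313 : CertB 1610612736 536870912 1610612736 536870912 587336777 62277027 3 eng mog cd1q3 cd4q3 pd1 false false false .dn 3 1 3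
    ndB1q3 ndB4q3 pcB1 Cut.none Ext.none :=
  certB0 (fam := false) (s1 := false) (s2 := false) (a := 3) (b := 1) (c := 3) (cn := .dn) (n1 := ndB1q3) (n2 := ndB4q3) (pc := pcB1) (cut := Cut.none) (xt := Ext.none) (P1 := 1610612736) (W1 := 536870912) (P2 := 1610612736) (W2 := 536870912) (P3 := 587336777) (W3 := 62277027) (N0 := 3) (En := eng) (mo := mog) (C1 := cd1q3) (C2 := cd4q3) (C3 := pd1)
    rfl k0_mm_313

end Pool.Agent.Strip051.G.I5470_6050.Tab.C.BB14

namespace Pool.Agent.Strip051.G.I5470_6050.Tab.C.BB15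

open Pool.Agent.Strip051.PB Pool.Agent.Strip051.PB.T
open Pool.Agent.Strip051.G.I5470_6050.Tab

noncomputable def f_pp_001 : ℕ → ℕ → ℕ → ℕ → Bool := onCell 0 536870912 0 536870912 587336777 62277027
    (rowB 3 eng mog cd1q0 cd5q1 pd0 1 false true true .up 0 0 1 (qsf 0 536870912 536870912 536870912 0) ndB1q0 ndB5q1 pcB0 Cut.none Ext.none)

def k0_pp_001 : ∃ t, chk3 f_pp_001 t 1 1 1 = true :=
  ⟨(l 3), by decide +kernel⟩

theorem c_pp_001 : CertB 0 536870912 536870912 536870912 587336777 62277027 3 eng mog cd1q0 cd5q1 pd0 false true true .up 0 0 1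
    ndB1q0 ndB5q1 pcB0 Cut.none Ext.none :=
  certB1 (fam := false) (s1 := true) (s2 := true) (a := 0) (b := 0) (c := 1) (cn := .up) (n1 := ndB1q0) (n2 := ndB5q1) (pc := pcB0) (cut := Cut.none) (xt := Ext.none) (P1 := 0) (W1 := 536870912) (P2 := 536870912) (W2 := 536870912) (P3 := 587336777) (W3 := 62277027) (N0 := 3) (En := eng) (mo := mog) (C1 := cd1q0) (C2 := cd5q1) (C3 := pd0)
    rfl (fun _ => rfl) k0_pp_001

noncomputable def cut_pp_011 : Cut := Cut.of [[⟨0, 0, 0, 67108864⟩, ⟨1, 1, 0, 67108864⟩, ⟨2, 1, 0, 67108864⟩]]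

noncomputable def f_pp_011 : ℕ → ℕ → ℕ → ℕ → Bool := onCell 0 536870912 536870912 536870912 587336777 62277027
    (rowB 3 eng mog cd1q0 cd5q1 pd1 1 false true true .pnn 0 1 1 (qsf 0 536870912 536870912 536870912 1) ndB1q0 ndB5q1 pcB1 cut_pp_011 Ext.none)

def k0_pp_011 : ∃ t, chk3 f_pp_011 t 1 1 1 = true :=
  ⟨(b (l 3) (b (l 3) (a (b (l 3) (a (a (b (l 3) (a (l 6) (l 3))) (l 3)) (l 2))) (l 2)))), by decide +kernel⟩

theorem c_pp_011 : CertB 0 536870912 536870912 536870912 587336777 62277027 3 eng mog cd1q0 cd5q1 pd1 false true true .pnn 0 1 1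
    ndB1q0 ndB5q1 pcB1 cut_pp_011 Ext.none :=
  certB1 (fam := false) (s1 := true) (s2 := true) (a := 0) (b := 1) (c := 1) (cn := .pnn) (n1 := ndB1q0) (n2 := ndB5q1) (pc := pcB1) (cut := cut_pp_011) (xt := Ext.none) (P1 := 0) (W1 := 536870912) (P2 := 536870912) (W2 := 536870912) (P3 := 587336777) (W3 := 62277027) (N0 := 3) (En := eng) (mo := mog) (C1 := cd1q0) (C2 := cd5q1) (C3 := pd1)
    rfl (fun _ => rfl) k0_pp_011

noncomputable def f_pp_012 : ℕ → ℕ → ℕ → ℕ → Bool := onCell 0 536870912 536870912 536870912 587336777 62277027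
    (rowB 3 eng mog cd1q0 cd5q2 pd1 1 false true true .pnp 0 1 2 (qsf 0 536870912 1073741824 536870912 1) ndB1q0 ndB5q2 pcB1 Cut.none Ext.none)

def k0_pp_012 : ∃ t, chk3 f_pp_012 t 1 1 1 = true :=
  ⟨(l 3), by decide +kernel⟩

theorem c_pp_012 : CertB 0 536870912 1073741824 536870912 587336777 62277027 3 eng mog cd1q0 cd5q2 pd1 false true true .pnp 0 1 2
    ndB1q0 ndB5q2 pcB1 Cut.none Ext.none :=
  certB1 (fam := false) (s1 := true) (s2 := true) (a := 0) (b := 1) (c := 2) (cn := .pnp) (n1 := ndB1q0) (n2 := ndB5q2) (pc := pcB1) (cut := Cut.none) (xt := Ext.none) (P1 := 0) (W1 := 536870912) (P2 := 1073741824) (W2 := 536870912) (P3 := 587336777) (W3 := 62277027) (N0 := 3) (En := eng) (mo := mog) (C1 := cd1q0) (C2 := cd5q2) (C3 := pd1)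
    rfl (fun _ => rfl) k0_pp_012

noncomputable def f_pp_022 : ℕ → ℕ → ℕ → ℕ → Bool := onCell 0 536870912 1073741824 536870912 587336777 62277027
    (rowB 3 eng mog cd1q0 cd5q2 pd2 1 false true true .pp 0 2 2 (qsf 0 536870912 1073741824 536870912 2) ndB1q0 ndB5q2 pcB2 Cut.none Ext.none)

def k0_pp_022 : ∃ t, chk3 f_pp_022 t 2 4 1 = true :=
  ⟨(b (l 3) (b (l 3) (b (a (l 3) (a (a (l 3) (l 16581888)) (b (l 3) (a (l 16511456) (l 16508704))))) (b (a (a (l 3) (a (l 16521832) (l 16516952))) (a (b (l 16512824) (l 16509872)) (a (l 16522272) (l 16496304)))) (b (a (a (a (l 3) (c (l 16518256) (l 16545088))) (a (l 16512896) (l 16510224))) (a (l 16506520) (l 16519272))) (a (a (a (a (a (l 16515232) (l 16515240)) (a (l 16514912) (l 16514232))) (a (c (l 16512808) (l 16511072)) (l 16509928))) (a (a (l 16508144) (l 16506680)) (l 16489424))) (a (l 16502696) (l 16496936)))))))), by decide +kernel⟩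

def k1_pp_022 : ∃ t, chk3 f_pp_022 t 2 10 1 = true :=
  ⟨(b (b (a (a (b (a (a (b (a (l 16507400) (l 16507544)) (c (l 16503504) (l 16494880))) (b (c (l 16509104) (l 16503832)) (c (l 16501608) (l 16496240)))) (b (a (l 16526408) (l 16503432)) (a (l 16497952) (l 16496352)))) (a (a (c (l 16491856) (l 16483792)) (c (l 16489752) (l 16484912))) (a (c (l 16487464) (l 16484312)) (l 16485712)))) (b (a (b (a (l 16501928) (l 16500624)) (l 16494704)) (l 16496752)) (a (b (l 16488080) (l 16482328)) (l 16486552)))) (a (b (a (l 16496648) (l 16495296)) (a (l 16489192) (l 16490824))) (a (b (l 16494248) (l 16494080)) (l 16499944)))) (a (b (a (a (b (a (l 16477048) (c (l 16478416) (l 16473504))) (a (l 16469528) (l 16469528))) (b (l 16476176) (l 16470368))) (a (l 16475336) (l 16479536))) (b (a (a (a (l 16462184) (l 16462976)) (l 16465312)) (a (l 16469640) (l 16475424))) (a (a (a (b (b (l 16457752) (l 16456016)) (b (b (b (l 16454936) (c (l 16459600) (l 16469520))) (l 16453896))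 (l 16452528))) (b (c (l 16462424) (l 16453280)) (c (l 16523184) (a (l 16512216) (l 16471288))))) (a (b (l 16460584) (c (l 16463656) (l 16472968))) (b (l 16463072) (c (l 16467328) (l 16454456))))) (b (a (l 16467136) (l 16473920)) (a (c (l 16473200) (l 16458504)) (c (l 16481984) (l 16465696))))))) (b (a (a (l 16484928) (l 16488728)) (a (l 16495152) (l 16504144))) (b (a (l 16506120) (l 16502496)) (a (b (l 16485632) (a (l 16483496) (l 16491816))) (b (l 16506224) (l 16511248))))))) (a (a (a (a (b (l 16458424) (l 16410864)) (l 16428400)) (l 16435944)) (a (l 16446496) (l 16458328))) (a (a (l 16471856) (l 16486816)) (l 16512584)))), by decide +kernel⟩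

def k2_pp_022 : ∃ t, chk3 f_pp_022 t 2 11 1 = true :=
  ⟨(a (a (a (b (a (l 16376088) (l 16384824)) (l 16345112)) (b (l 16398160) (l 16370160))) (a (b (l 16415896) (l 16394960)) (b (l 16434816) (l 16423424)))) (a (b (a (l 16458120) (l 16482824)) (l 16472216)) (b (l 16517976) (l 16529512)))), by decide +kernel⟩

def k3_pp_022 : ∃ t, chk3 f_pp_022 t 2 3 1 = true :=
  ⟨(b (a (a (b (a (b (a (l 16312224) (l 16328424)) (a (l 16297456) (l 16317920))) (b (l 16352776) (l 16351616))) (a (b (a (l 16298760) (l 16326808)) (l 16339376)) (b (l 16369200) (l 16402728)))) (b (a (b (l 16387640) (l 16397440)) (l 16432480)) (b (a (l 16421728) (l 16471008)) (a (l 16459064) (l 16506384))))) (b (a (b (l 16483136) (l 16504664)) (b (l 16546056) (l 16566920))) (a (b (l 16532048) (l 16559936)) (l 16596656)))) (a (b (a (b (a (a (l 16360120) (l 16395648)) (l 16443240)) (a (a (l 16399392) (l 16433160)) (l 16475632))) (b (l 16516360) (l 16540232))) (a (a (b (l 16538968) (l 16498488))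 (b (l 16508200) (l 16552752))) (a (l 16573600) (l 2)))) (b (a (l 16595528) (l 2)) (l 2)))), by decide +kernel⟩

def k4_pp_022 : ∃ t, chk3 f_pp_022 t 3 1 1 = true :=
  ⟨(b (b (b (l 3) (b (a (a (l 3) (b (l 3) (l 16594920))) (a (b (l 3) (l 16481848)) (b (l 16476768) (l 2)))) (a (b (a (a (l 16528608) (l 16495648)) (l 16538832)) (a (a (l 16497856) (l 16497408)) (l 16491808))) (a (b (l 16489784) (l 16472208)) (l 2))))) (b (b (b (a (a (b (l 16503856) (l 16508696)) (l 16506344)) (a (l 16492448) (l 2))) (a (b (a (l 16514040) (l 16518848)) (b (a (l 16520384) (l 16529000)) (a (b (l 16526696) (l 16534080)) (b (l 16538096) (l 16548032))))) (l 2))) (a (a (l 16542416) (l 16562656)) (l 2))) (a (a (l 16586232) (l 16590600)) (l 2)))) (b (a (b (a (l 16595760) (l 2)) (l 2)) (l 2)) (l 2))), by decide +kernel⟩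

theorem s5_pp_022 : ∃ t, chk3 f_pp_022 t 2 5 1 = true := ex3_b k1_pp_022 k2_pp_022

theorem s6_pp_022 : ∃ t, chk3 f_pp_022 t 2 2 1 = true := ex3_b k0_pp_022 s5_pp_022

theorem s7_pp_022 : ∃ t, chk3 f_pp_022 t 2 1 1 = true := ex3_b s6_pp_022 k3_pp_022

theorem s8_pp_022 : ∃ t, chk3 f_pp_022 t 1 1 1 = true := ex3_a s7_pp_022 k4_pp_022

theorem c_pp_022 : CertB 0 536870912 1073741824 536870912 587336777 62277027 3 eng mog cd1q0 cd5q2 pd2 false true true .pp 0 2 2
    ndB1q0 ndB5q2 pcB2 Cut.none Ext.none :=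
  certB1 (fam := false) (s1 := true) (s2 := true) (a := 0) (b := 2) (c := 2) (cn := .pp) (n1 := ndB1q0) (n2 := ndB5q2) (pc := pcB2) (cut := Cut.none) (xt := Ext.none) (P1 := 0) (W1 := 536870912) (P2 := 1073741824) (W2 := 536870912) (P3 := 587336777) (W3 := 62277027) (N0 := 3) (En := eng) (mo := mog) (C1 := cd1q0) (C2 := cd5q2) (C3 := pd2)
    rfl (fun _ => rfl) s8_pp_022

end Pool.Agent.Strip051.G.I5470_6050.Tab.C.BB15

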