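import Pool.Agent.Strip051.G.I5470_6050.Tab

/-! # Certificates B31 (generated) -/

set_option linter.all false
set_option maxRecDepth 100000

namespace Pool.Agent.Strip051.G.I5470_6050.Tab.C.BB15

open Pool.Agent.Strip051.PB Pool.Agent.Strip051.PB.T
open Pool.Agent.Strip051.G.I5470_6050.Tab

noncomputable def f_pp_023 : ℕ → ℕ → ℕ → ℕ → Bool := onCell 1073741824 536870912 0 1230186008 587336777 62277027
    (rowB 3 eng mog cd1q0 cd5q3 pd2 2 false true true .up 0 2 3 (qsf 0 536870912 0 1230186008 2) ndB1q0 ndB5q3 pcB2 Cut.none Ext.none)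

def k0_pp_023 : ∃ t, chk3 f_pp_023 t 1 2 1 = true :=
  ⟨(a (l 2) (a (l 2) (b (l 393090491223) (l 16703160)))), by decide +kernel⟩

def k1_pp_023 : ∃ t, chk3 f_pp_023 t 1 3 1 = true :=
  ⟨(b (a (a (l 2) (a (l 2) (b (l 2) (l 16659680)))) (a (b (a (l 2) (l 16669840)) (a (l 16646952) (l 16640248))) (a (b (l 16678368) (l 16643344)) (b (l 16688472) (l 16647072))))) (a (a (b (l 2) (a (l 3) (b (a (b (l 2) (a (l 16611552) (l 16591104))) (b (a (l 16589096) (l 16569656)) (a (l 16571712) (l 16549488)))) (a (a (b (l 16603368) (l 3)) (b (l 16583576) (b (l 16688568) (l 16576624)))) (b (a (l 16563384) (l 16540624)) (a (b (l 16562904) (l 16490128)) (b (l 16517920) (l 16494592)))))))) (b (a (a (a (l 16619144) (a (l 16633416) (a (l 16630536) (l 16630608)))) (l 16618744)) (l 16592008)) (b (a (a (a (b (l 16551808) (l 16525808)) (a (b (l 16540664) (l 16506776)) (a (b (l 16536944) (l 16496840)) (b (a (l 16536552) (l 16537080)) (a (l 16491904) (l 16488648)))))) (b (l 16522336)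 (l 16470912))) (b (l 16519784) (l 16536536))) (a (a (a (b (l 16515328) (b (l 16489864) (l 16514040))) (a (b (l 16494544) (b (l 16465304) (l 16528896))) (b (a (l 16483296) (a (l 16477432) (l 16473272))) (a (l 16716744) (a (l 16707784) (b (l 16484408) (l 16557544))))))) (b (l 16490024) (b (l 16514232) (l 16568240)))) (b (l 16543960) (b (l 16550000) (l 16578648))))))) (b (a (a (l 16571760) (l 16575720)) (a (l 16588792) (l 16592816))) (b (a (b (a (l 16564432) (l 16575160)) (a (l 16561176) (l 16560320))) (b (a (l 16567176) (l 16551752)) (a (l 16543368) (l 16517632)))) (a (b (a (l 16552120) (l 16540688)) (a (b (l 16547808) (l 16571744)) (b (l 16530280) (l 16563344)))) (b (a (l 16514704) (l 16478512)) (a (b (l 16500152) (l 16551536)) (b (b (l 16450312) (l 16469744)) (a (l 16538984) (l 16535280)))))))))), by decide +kernel⟩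

theorem s2_pp_023 : ∃ t, chk3 f_pp_023 t 1 1 1 = true := ex3_b k0_pp_023 k1_pp_023

theorem c_pp_023 : CertB 0 536870912 0 1230186008 587336777 62277027 3 eng mog cd1q0 cd5q3 pd2 false true true .up 0 2 3
    ndB1q0 ndB5q3 pcB2 Cut.none Ext.none :=
  certB2 (fam := false) (s1 := true) (s2 := true) (a := 0) (b := 2) (c := 3) (cn := .up) (n1 := ndB1q0) (n2 := ndB5q3) (pc := pcB2) (cut := Cut.none) (xt := Ext.none) (P1 := 0) (W1 := 536870912) (P2 := 0) (W2 := 1230186008) (P3 := 587336777) (W3 := 62277027) (N0 := 3) (En := eng) (mo := mog) (C1 := cd1q0) (C2 := cd5q3) (C3 := pd2)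
    rfl (fun _ => rfl) s2_pp_023

noncomputable def f_pp_033 : ℕ → ℕ → ℕ → ℕ → Bool := onCell 1610612736 536870912 0 1230186008 587336777 62277027
    (rowB 3 eng mog cd1q0 cd5q3 pd3 2 false true true .pnn 0 3 3 (qsf 0 536870912 0 1230186008 3) ndB1q0 ndB5q3 pcB3 Cut.none Ext.none)

def k0_pp_033 : ∃ t, chk3 f_pp_033 t 1 1 1 = true :=
  ⟨(b (b (a (a (a (l 16696144) (l 16678888)) (a (l 16660472) (l 16638176))) (l 4)) (a (a (a (l 16775136) (b (l 16673728) (l 16658328))) (a (b (l 16649312) (l 16628536)) (l 16720064))) (a (a (l 16652224) (a (l 16569576) (l 4))) (l 4)))) (b (b (a (a (a (a (l 16678488) (l 16643920)) (l 16626368)) (a (l 16594728) (l 16567440))) (a (a (a (l 16555696) (l 16552536)) (a (l 16549184) (l 16546744))) (a (l 4) (l 1)))) (a (a (a (a (b (l 16649408) (l 16614392)) (l 16583520)) (a (l 16575072) (l 16564264))) (a (a (l 16548424) (l 16530664)) (b (l 16529192) (l 16498264)))) (a (a (b (l 16524808) (l 461742216903)) (a (l 496102266327) (l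 1))) (l 1)))) (a (b (a (a (a (b (l 16575672) (a (l 16567040) (l 16501384))) (b (l 16522488) (l 16480168))) (a (b (l 16517336) (l 16477672)) (b (l 16512472) (l 16477464)))) (a (a (b (l 16628936) (a (l 16474800) (l 16467200))) (b (l 16486448) (l 300680528519))) (b (a (l 16472936) (l 16465304)) (l 1)))) (a (b (a (a (b (a (l 16523504) (l 16459888)) (a (l 16474616) (l 16418424))) (b (l 16440712) (l 16393104))) (a (b (l 16419144) (l 16386712)) (b (b (l 16451368) (l 176663301447)) (l 182031777623)))) (a (b (a (a (l 16420424) (l 16371816)) (l 158946568823)) (a (b (a (b (l 16381784) (l 16403016)) (b (l 16337792) (l 16363360))) (c (a (l 16521040) (l 169684368151)) (a (l 16439584) (l 16407056)))) (b (b (l 202433174455) (l 1)) (l 1)))) (a (b (l 180958170967) (l 1)) (l 1)))) (b (a (b (a (b (a (l 16448504) (l 1)) (l 1)) (l 1)) (l 1)) (l 1)) (l 1)))) (l 1)))), by decide +kernel⟩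

theorem c_pp_033 : CertB 0 536870912 0 1230186008 587336777 62277027 3 eng mog cd1q0 cd5q3 pd3 false true true .pnn 0 3 3
    ndB1q0 ndB5q3 pcB3 Cut.none Ext.none :=
  certB2 (fam := false) (s1 := true) (s2 := true) (a := 0) (b := 3) (c := 3) (cn := .pnn) (n1 := ndB1q0) (n2 := ndB5q3) (pc := pcB3) (cut := Cut.none) (xt := Ext.none) (P1 := 0) (W1 := 536870912) (P2 := 0) (W2 := 1230186008) (P3 := 587336777) (W3 := 62277027) (N0 := 3) (En := eng) (mo := mog) (C1 := cd1q0) (C2 := cd5q3) (C3 := pd3)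
    rfl (fun _ => rfl) k0_pp_033

noncomputable def f_pp_101 : ℕ → ℕ → ℕ → ℕ → Bool := onCell 536870912 536870912 536870912 536870912 587336777 62277027
    (rowB 3 eng mog cd1q1 cd5q1 pd0 0 false true true .npn 1 0 1 (qsf 536870912 536870912 536870912 536870912 0) ndB1q1 ndB5q1 pcB0 Cut.none Ext.none)

def k0_pp_101 : ∃ t, chk3 f_pp_101 t 1 1 1 = true :=
  ⟨(a (l 3) (l 5)), by decide +kernel⟩

theorem c_pp_101 : CertB 536870912 536870912 536870912 536870912 587336777 62277027 3 eng mog cd1q1 cd5q1 pd0 false true true .npn 1 0 1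
    ndB1q1 ndB5q1 pcB0 Cut.none Ext.none :=
  certB0 (fam := false) (s1 := true) (s2 := true) (a := 1) (b := 0) (c := 1) (cn := .npn) (n1 := ndB1q1) (n2 := ndB5q1) (pc := pcB0) (cut := Cut.none) (xt := Ext.none) (P1 := 536870912) (W1 := 536870912) (P2 := 536870912) (W2 := 536870912) (P3 := 587336777) (W3 := 62277027) (N0 := 3) (En := eng) (mo := mog) (C1 := cd1q1) (C2 := cd5q1) (C3 := pd0)
    rfl k0_pp_101

noncomputable def f_pp_102 : ℕ → ℕ → ℕ → ℕ → Bool := onCell 536870912 536870912 1073741824 536870912 587336777 62277027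
    (rowB 3 eng mog cd1q1 cd5q2 pd0 0 false true true .npp 1 0 2 (qsf 536870912 536870912 1073741824 536870912 0) ndB1q1 ndB5q2 pcB0 Cut.none Ext.none)

def k0_pp_102 : ∃ t, chk3 f_pp_102 t 1 1 1 = true :=
  ⟨(l 3), by decide +kernel⟩

theorem c_pp_102 : CertB 536870912 536870912 1073741824 536870912 587336777 62277027 3 eng mog cd1q1 cd5q2 pd0 false true true .npp 1 0 2
    ndB1q1 ndB5q2 pcB0 Cut.none Ext.none :=
  certB0 (fam := false) (s1 := true) (s2 := true) (a := 1) (b := 0) (c := 2) (cn := .npp) (n1 := ndB1q1) (n2 := ndB5q2) (pc := pcB0) (cut := Cut.none) (xt := Ext.none) (P1 := 536870912) (W1 := 536870912) (P2 := 1073741824) (W2 := 536870912) (P3 := 587336777) (W3 := 62277027) (N0 := 3) (En := eng) (mo := mog) (C1 := cd1q1) (C2 := cd5q2) (C3 := pd0)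
    rfl k0_pp_102

noncomputable def f_pp_112 : ℕ → ℕ → ℕ → ℕ → Bool := onCell 536870912 536870912 1073741824 536870912 587336777 62277027
    (rowB 3 eng mog cd1q1 cd5q2 pd1 0 false true true .dn 1 1 2 (qsf 536870912 536870912 1073741824 536870912 1) ndB1q1 ndB5q2 pcB1 Cut.none Ext.none)

def k0_pp_112 : ∃ t, chk3 f_pp_112 t 1 1 1 = true :=
  ⟨(l 3), by decide +kernel⟩

theorem c_pp_112 : CertB 536870912 536870912 1073741824 536870912 587336777 62277027 3 eng mog cd1q1 cd5q2 pd1 false true true .dn 1 1 2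
    ndB1q1 ndB5q2 pcB1 Cut.none Ext.none :=
  certB0 (fam := false) (s1 := true) (s2 := true) (a := 1) (b := 1) (c := 2) (cn := .dn) (n1 := ndB1q1) (n2 := ndB5q2) (pc := pcB1) (cut := Cut.none) (xt := Ext.none) (P1 := 536870912) (W1 := 536870912) (P2 := 1073741824) (W2 := 536870912) (P3 := 587336777) (W3 := 62277027) (N0 := 3) (En := eng) (mo := mog) (C1 := cd1q1) (C2 := cd5q2) (C3 := pd1)
    rfl k0_pp_112

noncomputable def f_pp_113 : ℕ → ℕ → ℕ → ℕ → Bool := onCell 536870912 536870912 0 1230186008 587336777 62277027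
    (rowB 3 eng mog cd1q1 cd5q3 pd1 2 false true true .nn 1 1 3 (qsf 536870912 536870912 0 1230186008 1) ndB1q1 ndB5q3 pcB1 Cut.none Ext.none)

def k0_pp_113 : ∃ t, chk3 f_pp_113 t 1 1 1 = true :=
  ⟨(b (a (l 2) (a (l 2) (a (l 3) (b (a (l 2) (a (b (l 2) (l 3)) (b (l 1060420876039) (a (l 384030482999) (l 16790544))))) (a (l 3) (b (b (l 432885858567) (l 3)) (l 3))))))) (b (a (l 3) (a (l 3) (l 3))) (a (b (l 3) (l 3)) (l 3)))), by decide +kernel⟩

theorem c_pp_113 : CertB 536870912 536870912 0 1230186008 587336777 62277027 3 eng mog cd1q1 cd5q3 pd1 false true true .nn 1 1 3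
    ndB1q1 ndB5q3 pcB1 Cut.none Ext.none :=
  certB2 (fam := false) (s1 := true) (s2 := true) (a := 1) (b := 1) (c := 3) (cn := .nn) (n1 := ndB1q1) (n2 := ndB5q3) (pc := pcB1) (cut := Cut.none) (xt := Ext.none) (P1 := 536870912) (W1 := 536870912) (P2 := 0) (W2 := 1230186008) (P3 := 587336777) (W3 := 62277027) (N0 := 3) (En := eng) (mo := mog) (C1 := cd1q1) (C2 := cd5q3) (C3 := pd1)
    rfl (fun _ => rfl) k0_pp_113

noncomputable def f_pp_123 : ℕ → ℕ → ℕ → ℕ → Bool := onCell 1073741824 536870912 0 1230186008 587336777 62277027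
    (rowB 3 eng mog cd1q1 cd5q3 pd2 2 false true true .npn 1 2 3 (qsf 536870912 536870912 0 1230186008 2) ndB1q1 ndB5q3 pcB2 Cut.none Ext.none)

def k0_pp_123 : ∃ t, chk3 f_pp_123 t 1 2 1 = true :=
  ⟨(a (a (a (b (a (b (l 16772672) (l 16808544)) (l 16762648)) (a (b (a (l 16881808) (l 16809328)) (a (l 263771675159) (l 213305723783))) (b (l 16792664) (l 16814064)))) (b (b (l 16735072) (l 16741496)) (b (l 16754624) (l 16769984)))) (a (b (a (b (l 16709976) (l 16716080)) (l 16692936)) (a (a (l 16771736) (l 16784984)) (l 16813536))) (b (l 16688560) (l 16697200)))) (a (b (l 16687328) (a (l 16815128) (l 16817528))) (b (a (l 16702216) (l 16710016)) (l 16713664)))), by decide +kernel⟩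

def k1_pp_123 : ∃ t, chk3 f_pp_123 t 1 3 1 = true :=
  ⟨(b (a (a (a (a (b (b (l 197736541303) (l 389399373095)) (l 3)) (b (a (b (l 16834904) (l 229411967591)) (b (l 16818200) (l 16823848))) (b (a (l 223506397735) (a (l 16831456) (l 16823000))) (a (l 342154890631) (b (l 232096307511) (a (l 16826304) (l 16815856))))))) (a (b (b (l 16792264) (l 16799088)) (b (l 16927088) (a (b (l 16808296) (l 16802448)) (l 16787328)))) (b (l 16765328) (a (b (l 16775800) (l 16769408)) (l 16736088))))) (a (b (a (b (l 16742744) (l 16788304)) (l 16718952)) (a (a (l 16742240) (a (l 16732152) (l 16728936))) (l 16712296))) (b (l 16698896) (l 16684712)))) (a (b (a (l 16683904) (l 16681304)) (a (l 16664888) (l 16664976))) (b (l 16833032) (l 1)))) (a (a (b (a (a (l 3) (a (l 3) (b (a (l 228874906583) (l 221895639623)) (l 240685758807)))) (a (a (b (a (l 16806344) (l 16776624)) (a (l 16716256) (l 16704840))) (b (l 16762256) (b (l 16727184) (l 16692464)))) (a (b (l 16742768) (l 16688856))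 (b (l 16724480) (l 16669304))))) (a (l 3) (b (a (b (a (b (l 16686432) (l 16676336)) (a (l 16664744) (l 16653792))) (a (l 16663944) (l 16645264))) (b (a (l 16638560) (l 16619664)) (a (l 16631264) (l 1)))) (a (b (a (l 16657344) (l 1)) (l 1)) (l 1))))) (b (a (a (a (b (l 16708224) (l 16652976)) (a (l 16671104) (a (l 16666728) (l 16665888)))) (l 16651752)) (l 16628040)) (b (a (a (a (b (l 16604360) (l 1)) (l 1)) (l 1)) (l 1)) (l 1)))) (l 1))), by decide +kernel⟩

theorem s2_pp_123 : ∃ t, chk3 f_pp_123 t 1 1 1 = true := ex3_b k0_pp_123 k1_pp_123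

theorem c_pp_123 : CertB 536870912 536870912 0 1230186008 587336777 62277027 3 eng mog cd1q1 cd5q3 pd2 false true true .npn 1 2 3
    ndB1q1 ndB5q3 pcB2 Cut.none Ext.none :=
  certB2 (fam := false) (s1 := true) (s2 := true) (a := 1) (b := 2) (c := 3) (cn := .npn) (n1 := ndB1q1) (n2 := ndB5q3) (pc := pcB2) (cut := Cut.none) (xt := Ext.none) (P1 := 536870912) (W1 := 536870912) (P2 := 0) (W2 := 1230186008) (P3 := 587336777) (W3 := 62277027) (N0 := 3) (En := eng) (mo := mog) (C1 := cd1q1) (C2 := cd5q3) (C3 := pd2)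
    rfl (fun _ => rfl) s2_pp_123

noncomputable def f_pp_133 : ℕ → ℕ → ℕ → ℕ → Bool := onCell 1610612736 536870912 0 1230186008 587336777 62277027
    (rowB 3 eng mog cd1q1 cd5q3 pd3 2 false true true .dn 1 3 3 (qsf 536870912 536870912 0 1230186008 3) ndB1q1 ndB5q3 pcB3 Cut.none Ext.none)

def k0_pp_133 : ∃ t, chk3 f_pp_133 t 1 1 1 = true :=
  ⟨(b (b (a (a (a (l 16710344) (l 1)) (l 1)) (l 1)) (l 1)) (l 1)), by decide +kernel⟩

theorem c_pp_133 : CertB 536870912 536870912 0 1230186008 587336777 62277027 3 eng mog cd1q1 cd5q3 pd3 false true true .dn 1 3 3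
    ndB1q1 ndB5q3 pcB3 Cut.none Ext.none :=
  certB2 (fam := false) (s1 := true) (s2 := true) (a := 1) (b := 3) (c := 3) (cn := .dn) (n1 := ndB1q1) (n2 := ndB5q3) (pc := pcB3) (cut := Cut.none) (xt := Ext.none) (P1 := 536870912) (W1 := 536870912) (P2 := 0) (W2 := 1230186008) (P3 := 587336777) (W3 := 62277027) (N0 := 3) (En := eng) (mo := mog) (C1 := cd1q1) (C2 := cd5q3) (C3 := pd3)
    rfl (fun _ => rfl) k0_pp_133

noncomputable def f_pp_202_a : ℕ → ℕ → ℕ → ℕ → Bool := onCell 0 536870912 1073741824 536870912 587336777 62277027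
    (rowB 3 eng mog cd1q2a cd5q2 pd0 0 false true true .pp 2 0 2 (qsf 0 536870912 1073741824 536870912 0) ndB1q2a ndB5q2 pcB0 Cut.none Ext.none)

def k0_pp_202_a : ∃ t, chk3 f_pp_202_a t 1 1 1 = true :=
  ⟨(l 3), by decide +kernel⟩

theorem c_pp_202_a : CertB 0 536870912 1073741824 536870912 587336777 62277027 3 eng mog cd1q2a cd5q2 pd0 false true true .pp 2 0 2
    ndB1q2a ndB5q2 pcB0 Cut.none Ext.none :=
  certB0 (fam := false) (s1 := true) (s2 := true) (a := 2) (b := 0) (c := 2) (cn := .pp) (n1 := ndB1q2a) (n2 := ndB5q2) (pc := pcB0) (cut := Cut.none) (xt := Ext.none) (P1 := 0) (W1 := 536870912) (P2 := 1073741824) (W2 := 536870912) (P3 := 587336777) (W3 := 62277027) (N0 := 3) (En := eng) (mo := mog) (C1 := cd1q2a) (C2 := cd5q2) (C3 := pd0)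
    rfl k0_pp_202_a

noncomputable def f_pp_202_b : ℕ → ℕ → ℕ → ℕ → Bool := onCell 1239849684 370763052 1073741824 536870912 587336777 62277027
    (rowB 3 eng mog cd1q2b cd5q2 pd0 0 false true true .pp 2 0 2 (qsf 1239849684 370763052 1073741824 536870912 0) ndB1q2b ndB5q2 pcB0 Cut.none Ext.none)

def k0_pp_202_b : ∃ t, chk3 f_pp_202_b t 1 1 1 = true :=
  ⟨(l 3), by decide +kernel⟩

theorem c_pp_202_b : CertB 1239849684 370763052 1073741824 536870912 587336777 62277027 3 eng mog cd1q2b cd5q2 pd0 false true true .pp 2 0 2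
    ndB1q2b ndB5q2 pcB0 Cut.none Ext.none :=
  certB0 (fam := false) (s1 := true) (s2 := true) (a := 2) (b := 0) (c := 2) (cn := .pp) (n1 := ndB1q2b) (n2 := ndB5q2) (pc := pcB0) (cut := Cut.none) (xt := Ext.none) (P1 := 1239849684) (W1 := 370763052) (P2 := 1073741824) (W2 := 536870912) (P3 := 587336777) (W3 := 62277027) (N0 := 3) (En := eng) (mo := mog) (C1 := cd1q2b) (C2 := cd5q2) (C3 := pd0)
    rfl k0_pp_202_b

noncomputable def f_pp_203_a : ℕ → ℕ → ℕ → ℕ → Bool := onCell 0 536870912 0 1230186008 587336777 62277027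
    (rowB 3 eng mog cd1q2a cd5q3 pd0 0 false true true .up 2 0 3 (qsf 0 536870912 0 1230186008 0) ndB1q2a ndB5q3 pcB0 Cut.none Ext.none)

def k0_pp_203_a : ∃ t, chk3 f_pp_203_a t 1 1 1 = true :=
  ⟨(b (l 2) (l 3)), by decide +kernel⟩

theorem c_pp_203_a : CertB 0 536870912 0 1230186008 587336777 62277027 3 eng mog cd1q2a cd5q3 pd0 false true true .up 2 0 3
    ndB1q2a ndB5q3 pcB0 Cut.none Ext.none :=
  certB0 (fam := false) (s1 := true) (s2 := true) (a := 2) (b := 0) (c := 3) (cn := .up) (n1 := ndB1q2a) (n2 := ndB5q3) (pc := pcB0) (cut := Cut.none) (xt := Ext.none) (P1 := 0) (W1 := 536870912) (P2 := 0) (W2 := 1230186008) (P3 := 587336777) (W3 := 62277027) (N0 := 3) (En := eng) (mo := mog) (C1 := cd1q2a) (C2 := cd5q3) (C3 := pd0)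
    rfl k0_pp_203_a

noncomputable def f_pp_203_b : ℕ → ℕ → ℕ → ℕ → Bool := onCell 1239849684 370763052 0 1230186008 587336777 62277027
    (rowB 3 eng mog cd1q2b cd5q3 pd0 0 false true true .up 2 0 3 (qsf 1239849684 370763052 0 1230186008 0) ndB1q2b ndB5q3 pcB0 Cut.none Ext.none)

def k0_pp_203_b : ∃ t, chk3 f_pp_203_b t 1 1 1 = true :=
  ⟨(b (l 3) (l 3)), by decide +kernel⟩

theorem c_pp_203_b : CertB 1239849684 370763052 0 1230186008 587336777 62277027 3 eng mog cd1q2b cd5q3 pd0 false true true .up 2 0 3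
    ndB1q2b ndB5q3 pcB0 Cut.none Ext.none :=
  certB0 (fam := false) (s1 := true) (s2 := true) (a := 2) (b := 0) (c := 3) (cn := .up) (n1 := ndB1q2b) (n2 := ndB5q3) (pc := pcB0) (cut := Cut.none) (xt := Ext.none) (P1 := 1239849684) (W1 := 370763052) (P2 := 0) (W2 := 1230186008) (P3 := 587336777) (W3 := 62277027) (N0 := 3) (En := eng) (mo := mog) (C1 := cd1q2b) (C2 := cd5q3) (C3 := pd0)
    rfl k0_pp_203_b

noncomputable def cut_pp_213_a : Cut := Cut.of [[⟨0, 1, 0, 67108864⟩, ⟨1, 1, 0, 67108864⟩, ⟨2, 2, 0, 16777216⟩]]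

noncomputable def f_pp_213_a : ℕ → ℕ → ℕ → ℕ → Bool := onCell 0 536870912 0 1230186008 587336777 62277027
    (rowB 3 eng mog cd1q2a cd5q3 pd1 0 false true true .pnn 2 1 3 (qsf 0 536870912 0 1230186008 1) ndB1q2a ndB5q3 pcB1 cut_pp_213_a Ext.none)

def k0_pp_213_a : ∃ t, chk3 f_pp_213_a t 1 1 1 = true :=
  ⟨(b (a (l 3) (a (l 3) (b (a (l 3) (b (l 6) (l 3))) (l 3)))) (l 3)), by decide +kernel⟩

theorem c_pp_213_a : CertB 0 536870912 0 1230186008 587336777 62277027 3 eng mog cd1q2a cd5q3 pd1 false true true .pnn 2 1 3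
    ndB1q2a ndB5q3 pcB1 cut_pp_213_a Ext.none :=
  certB0 (fam := false) (s1 := true) (s2 := true) (a := 2) (b := 1) (c := 3) (cn := .pnn) (n1 := ndB1q2a) (n2 := ndB5q3) (pc := pcB1) (cut := cut_pp_213_a) (xt := Ext.none) (P1 := 0) (W1 := 536870912) (P2 := 0) (W2 := 1230186008) (P3 := 587336777) (W3 := 62277027) (N0 := 3) (En := eng) (mo := mog) (C1 := cd1q2a) (C2 := cd5q3) (C3 := pd1)
    rfl k0_pp_213_a

noncomputable def cut_pp_213_b : Cut := Cut.of [[⟨0, 1, 0, 67108864⟩, ⟨1, 1, 0, 67108864⟩, ⟨2, 2, 0, 16777216⟩]]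

noncomputable def f_pp_213_b : ℕ → ℕ → ℕ → ℕ → Bool := onCell 1239849684 370763052 0 1230186008 587336777 62277027
    (rowB 3 eng mog cd1q2b cd5q3 pd1 0 false true true .pnn 2 1 3 (qsf 1239849684 370763052 0 1230186008 1) ndB1q2b ndB5q3 pcB1 cut_pp_213_b Ext.none)

def k0_pp_213_b : ∃ t, chk3 f_pp_213_b t 1 1 1 = true :=
  ⟨(b (l 3) (l 3)), by decide +kernel⟩

theorem c_pp_213_b : CertB 1239849684 370763052 0 1230186008 587336777 62277027 3 eng mog cd1q2b cd5q3 pd1 false true true .pnn 2 1 3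
    ndB1q2b ndB5q3 pcB1 cut_pp_213_b Ext.none :=
  certB0 (fam := false) (s1 := true) (s2 := true) (a := 2) (b := 1) (c := 3) (cn := .pnn) (n1 := ndB1q2b) (n2 := ndB5q3) (pc := pcB1) (cut := cut_pp_213_b) (xt := Ext.none) (P1 := 1239849684) (W1 := 370763052) (P2 := 0) (W2 := 1230186008) (P3 := 587336777) (W3 := 62277027) (N0 := 3) (En := eng) (mo := mog) (C1 := cd1q2b) (C2 := cd5q3) (C3 := pd1)
    rfl k0_pp_213_b

noncomputable def f_pp_303 : ℕ → ℕ → ℕ → ℕ → Bool := onCell 1610612736 536870912 0 1230186008 587336777 62277027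
    (rowB 3 eng mog cd1q3 cd5q3 pd0 0 false true true .npn 3 0 3 (qsf 1610612736 536870912 0 1230186008 0) ndB1q3 ndB5q3 pcB0 Cut.none Ext.none)

def k0_pp_303 : ∃ t, chk3 f_pp_303 t 1 1 1 = true :=
  ⟨(b (l 3) (l 3)), by decide +kernel⟩

theorem c_pp_303 : CertB 1610612736 536870912 0 1230186008 587336777 62277027 3 eng mog cd1q3 cd5q3 pd0 false true true .npn 3 0 3
    ndB1q3 ndB5q3 pcB0 Cut.none Ext.none :=
  certB0 (fam := false) (s1 := true) (s2 := true) (a := 3) (b := 0) (c := 3) (cn := .npn) (n1 := ndB1q3) (n2 := ndB5q3) (pc := pcB0) (cut := Cut.none) (xt := Ext.none) (P1 := 1610612736) (W1 := 536870912) (P2 := 0) (W2 := 1230186008) (P3 := 587336777) (W3 := 62277027) (N0 := 3) (En := eng) (mo := mog) (C1 := cd1q3) (C2 := cd5q3) (C3 := pd0)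
    rfl k0_pp_303

noncomputable def f_pp_313 : ℕ → ℕ → ℕ → ℕ → Bool := onCell 1610612736 536870912 0 1230186008 587336777 62277027
    (rowB 3 eng mog cd1q3 cd5q3 pd1 0 false true true .dn 3 1 3 (qsf 1610612736 536870912 0 1230186008 1) ndB1q3 ndB5q3 pcB1 Cut.none Ext.none)

def k0_pp_313 : ∃ t, chk3 f_pp_313 t 1 1 1 = true :=
  ⟨(b (l 3) (l 1)), by decide +kernel⟩

theorem c_pp_313 : CertB 1610612736 536870912 0 1230186008 587336777 62277027 3 eng mog cd1q3 cd5q3 pd1 false true true .dn 3 1 3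
    ndB1q3 ndB5q3 pcB1 Cut.none Ext.none :=
  certB0 (fam := false) (s1 := true) (s2 := true) (a := 3) (b := 1) (c := 3) (cn := .dn) (n1 := ndB1q3) (n2 := ndB5q3) (pc := pcB1) (cut := Cut.none) (xt := Ext.none) (P1 := 1610612736) (W1 := 536870912) (P2 := 0) (W2 := 1230186008) (P3 := 587336777) (W3 := 62277027) (N0 := 3) (En := eng) (mo := mog) (C1 := cd1q3) (C2 := cd5q3) (C3 := pd1)
    rfl k0_pp_313

noncomputable def f_pm_001 : ℕ → ℕ → ℕ → ℕ → Bool := onCell 0 536870912 536870912 536870912 587336777 62277027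
    (rowB 3 eng mog cd1q0 cd5q1 pd0 0 false true false .up 0 0 1 (qsf 0 536870912 536870912 536870912 0) ndB1q0 ndB5q1 pcB0 Cut.none Ext.none)

def k0_pm_001 : ∃ t, chk3 f_pm_001 t 1 1 1 = true :=
  ⟨(l 4), by decide +kernel⟩

theorem c_pm_001 : CertB 0 536870912 536870912 536870912 587336777 62277027 3 eng mog cd1q0 cd5q1 pd0 false true false .up 0 0 1
    ndB1q0 ndB5q1 pcB0 Cut.none Ext.none :=
  certB0 (fam := false) (s1 := true) (s2 := false) (a := 0) (b := 0) (c := 1) (cn := .up) (n1 := ndB1q0) (n2 := ndB5q1) (pc := pcB0) (cut := Cut.none) (xt := Ext.none) (P1 := 0) (W1 := 536870912) (P2 := 536870912) (W2 := 536870912) (P3 := 587336777) (W3 := 62277027) (N0 := 3) (En := eng) (mo := mog) (C1 := cd1q0) (C2 := cd5q1) (C3 := pd0)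
    rfl k0_pm_001

noncomputable def f_pm_011 : ℕ → ℕ → ℕ → ℕ → Bool := onCell 0 536870912 536870912 536870912 587336777 62277027
    (rowB 3 eng mog cd1q0 cd5q1 pd1 0 false true false .pnn 0 1 1 (qsf 0 536870912 536870912 536870912 1) ndB1q0 ndB5q1 pcB1 Cut.none Ext.none)

def k0_pm_011 : ∃ t, chk3 f_pm_011 t 1 1 1 = true :=
  ⟨(l 4), by decide +kernel⟩

theorem c_pm_011 : CertB 0 536870912 536870912 536870912 587336777 62277027 3 eng mog cd1q0 cd5q1 pd1 false true false .pnn 0 1 1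
    ndB1q0 ndB5q1 pcB1 Cut.none Ext.none :=
  certB0 (fam := false) (s1 := true) (s2 := false) (a := 0) (b := 1) (c := 1) (cn := .pnn) (n1 := ndB1q0) (n2 := ndB5q1) (pc := pcB1) (cut := Cut.none) (xt := Ext.none) (P1 := 0) (W1 := 536870912) (P2 := 536870912) (W2 := 536870912) (P3 := 587336777) (W3 := 62277027) (N0 := 3) (En := eng) (mo := mog) (C1 := cd1q0) (C2 := cd5q1) (C3 := pd1)
    rfl k0_pm_011

noncomputable def f_pm_012 : ℕ → ℕ → ℕ → ℕ → Bool := onCell 0 536870912 1073741824 536870912 587336777 62277027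
    (rowB 3 eng mog cd1q0 cd5q2 pd1 0 false true false .pnp 0 1 2 (qsf 0 536870912 1073741824 536870912 1) ndB1q0 ndB5q2 pcB1 Cut.none Ext.none)

def k0_pm_012 : ∃ t, chk3 f_pm_012 t 1 1 1 = true :=
  ⟨(b (l 4) (l 4)), by decide +kernel⟩

theorem c_pm_012 : CertB 0 536870912 1073741824 536870912 587336777 62277027 3 eng mog cd1q0 cd5q2 pd1 false true false .pnp 0 1 2
    ndB1q0 ndB5q2 pcB1 Cut.none Ext.none :=
  certB0 (fam := false) (s1 := true) (s2 := false) (a := 0) (b := 1) (c := 2) (cn := .pnp) (n1 := ndB1q0) (n2 := ndB5q2) (pc := pcB1) (cut := Cut.none) (xt := Ext.none) (P1 := 0) (W1 := 536870912) (P2 := 1073741824) (W2 := 536870912) (P3 := 587336777) (W3 := 62277027) (N0 := 3) (En := eng) (mo := mog) (C1 := cd1q0) (C2 := cd5q2) (C3 := pd1)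
    rfl k0_pm_012

noncomputable def f_pm_022 : ℕ → ℕ → ℕ → ℕ → Bool := onCell 0 536870912 1073741824 536870912 587336777 62277027
    (rowB 3 eng mog cd1q0 cd5q2 pd2 0 false true false .pp 0 2 2 (qsf 0 536870912 1073741824 536870912 2) ndB1q0 ndB5q2 pcB2 Cut.none Ext.none)

def k0_pm_022 : ∃ t, chk3 f_pm_022 t 1 1 1 = true :=
  ⟨(b (l 4) (l 4)), by decide +kernel⟩

theorem c_pm_022 : CertB 0 536870912 1073741824 536870912 587336777 62277027 3 eng mog cd1q0 cd5q2 pd2 false true false .pp 0 2 2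
    ndB1q0 ndB5q2 pcB2 Cut.none Ext.none :=
  certB0 (fam := false) (s1 := true) (s2 := false) (a := 0) (b := 2) (c := 2) (cn := .pp) (n1 := ndB1q0) (n2 := ndB5q2) (pc := pcB2) (cut := Cut.none) (xt := Ext.none) (P1 := 0) (W1 := 536870912) (P2 := 1073741824) (W2 := 536870912) (P3 := 587336777) (W3 := 62277027) (N0 := 3) (En := eng) (mo := mog) (C1 := cd1q0) (C2 := cd5q2) (C3 := pd2)
    rfl k0_pm_022

noncomputable def f_pm_023 : ℕ → ℕ → ℕ → ℕ → Bool := onCell 0 536870912 0 1230186008 587336777 62277027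
    (rowB 3 eng mog cd1q0 cd5q3 pd2 0 false true false .up 0 2 3 (qsf 0 536870912 0 1230186008 2) ndB1q0 ndB5q3 pcB2 Cut.none Ext.none)

def k0_pm_023 : ∃ t, chk3 f_pm_023 t 1 1 1 = true :=
  ⟨(a (b (l 2) (l 4)) (b (a (l 2) (b (a (l 2) (l 16852672)) (a (b (a (l 2) (l 16653928)) (a (l 4) (l 16627336))) (b (l 16659168) (a (l 16627384) (l 16626528)))))) (b (a (l 4) (a (l 4) (b (b (l 16591600) (l 16557288)) (b (l 332557948855) (l 4))))) (l 4)))), by decide +kernel⟩

theorem c_pm_023 : CertB 0 536870912 0 1230186008 587336777 62277027 3 eng mog cd1q0 cd5q3 pd2 false true false .up 0 2 3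
    ndB1q0 ndB5q3 pcB2 Cut.none Ext.none :=
  certB0 (fam := false) (s1 := true) (s2 := false) (a := 0) (b := 2) (c := 3) (cn := .up) (n1 := ndB1q0) (n2 := ndB5q3) (pc := pcB2) (cut := Cut.none) (xt := Ext.none) (P1 := 0) (W1 := 536870912) (P2 := 0) (W2 := 1230186008) (P3 := 587336777) (W3 := 62277027) (N0 := 3) (En := eng) (mo := mog) (C1 := cd1q0) (C2 := cd5q3) (C3 := pd2)
    rfl k0_pm_023

noncomputable def f_pm_033 : ℕ → ℕ → ℕ → ℕ → Bool := onCell 0 536870912 0 1230186008 587336777 62277027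
    (rowB 3 eng mog cd1q0 cd5q3 pd3 0 false true false .pnn 0 3 3 (qsf 0 536870912 0 1230186008 3) ndB1q0 ndB5q3 pcB3 Cut.none Ext.none)

def k0_pm_033 : ∃ t, chk3 f_pm_033 t 1 1 1 = true :=
  ⟨(a (b (l 4) (l 4)) (b (b (a (a (l 4) (l 16910400)) (a (l 16675304) (l 16683368))) (a (l 4) (b (a (a (l 4) (l 16653664)) (l 16661184)) (a (l 369065313639) (l 16798344))))) (a (l 4) (a (b (l 4) (l 1)) (l 1))))), by decide +kernel⟩

theorem c_pm_033 : CertB 0 536870912 0 1230186008 587336777 62277027 3 eng mog cd1q0 cd5q3 pd3 false true false .pnn 0 3 3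
    ndB1q0 ndB5q3 pcB3 Cut.none Ext.none :=
  certB0 (fam := false) (s1 := true) (s2 := false) (a := 0) (b := 3) (c := 3) (cn := .pnn) (n1 := ndB1q0) (n2 := ndB5q3) (pc := pcB3) (cut := Cut.none) (xt := Ext.none) (P1 := 0) (W1 := 536870912) (P2 := 0) (W2 := 1230186008) (P3 := 587336777) (W3 := 62277027) (N0 := 3) (En := eng) (mo := mog) (C1 := cd1q0) (C2 := cd5q3) (C3 := pd3)
    rfl k0_pm_033

noncomputable def f_pm_101 : ℕ → ℕ → ℕ → ℕ → Bool := onCell 536870912 536870912 536870912 536870912 587336777 62277027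
    (rowB 3 eng mog cd1q1 cd5q1 pd0 0 false true false .npn 1 0 1 (qsf 536870912 536870912 536870912 536870912 0) ndB1q1 ndB5q1 pcB0 Cut.none Ext.none)

def k0_pm_101 : ∃ t, chk3 f_pm_101 t 1 1 1 = true :=
  ⟨(l 4), by decide +kernel⟩

theorem c_pm_101 : CertB 536870912 536870912 536870912 536870912 587336777 62277027 3 eng mog cd1q1 cd5q1 pd0 false true false .npn 1 0 1
    ndB1q1 ndB5q1 pcB0 Cut.none Ext.none :=
  certB0 (fam := false) (s1 := true) (s2 := false) (a := 1) (b := 0) (c := 1) (cn := .npn) (n1 := ndB1q1) (n2 := ndB5q1) (pc := pcB0) (cut := Cut.none) (xt := Ext.none) (P1 := 536870912) (W1 := 536870912) (P2 := 536870912) (W2 := 536870912) (P3 := 587336777) (W3 := 62277027) (N0 := 3) (En := eng) (mo := mog) (C1 := cd1q1) (C2 := cd5q1) (C3 := pd0)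
    rfl k0_pm_101

noncomputable def f_pm_102 : ℕ → ℕ → ℕ → ℕ → Bool := onCell 536870912 536870912 0 536870912 587336777 62277027
    (rowB 3 eng mog cd1q1 cd5q2 pd0 1 false true false .npp 1 0 2 (qsf 536870912 536870912 1073741824 536870912 0) ndB1q1 ndB5q2 pcB0 Cut.none Ext.none)

def k0_pm_102 : ∃ t, chk3 f_pm_102 t 2 1 1 = true :=
  ⟨(a (b (l 1) (a (l 4) (b (b (l 1) (l 279205029639)) (b (b (l 189010694391) (l 15980320)) (b (l 15970504) (l 15981072)))))) (b (b (l 1) (b (l 1) (a (l 1) (l 281890278711)))) (b (b (a (l 295311803239) (l 234108685719)) (a (l 232497330887) (l 16469312))) (b (a (b (l 16074864) (l 16049920)) (b (l 16223416) (l 16211424))) (a (b (l 16029064) (l 16017472)) (b (l 16211808) (l 16231840))))))), by decide +kernel⟩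

def k1_pm_102 : ∃ t, chk3 f_pm_102 t 3 1 1 = true :=
  ⟨(b (b (a (b (l 1) (a (l 1) (a (l 1) (b (l 1) (l 271153236919))))) (a (b (a (l 1) (b (l 1) (b (l 1) (a (l 1) (l 16531480))))) (b (a (b (l 1) (l 16496488)) (b (l 16513240) (l 16497128))) (a (l 16469816) (l 16485688)))) (b (b (a (a (l 1) (b (l 1) (a (l 1) (l 16652872)))) (a (b (l 186327350695) (l 16658032)) (b (l 16563792) (l 16538976)))) (a (b (a (l 197065193831) (l 16624856)) (l 16527320)) (b (a (l 16544848) (l 16571280)) (l 16570216)))) (a (b (l 16520704) (l 16540824)) (b (l 16577832) (l 16588536)))))) (a (a (b (b (l 1) (l 310344623479)) (a (l 16318576) (l 226055862839))) (a (b (a (l 290480475767) (l 289943695991)) (l 16379688)) (b (l 226592875719) (l 16421488)))) (a (b (b (l 16510872) (l 16480392)) (b (l 16501728) (l 16530040))) (b (b (l 16594200) (a (l 16592968) (l 16619080))) (a (b (l 16617944) (l 16645720)) (b (l 16637880) (l 16654240))))))) (b (b (a (a (a (l 16300744) (l 16343240)) (l 16422464))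 (a (a (l 16538328) (l 16639456)) (b (l 16677032) (l 16692920)))) (a (a (b (l 16325816) (l 16338600)) (b (l 16458832) (l 16499976))) (a (b (l 16661440) (l 16698848)) (b (l 16707384) (l 16717472))))) (b (a (a (b (l 16361688) (l 16384240)) (b (l 16551960) (l 16600896))) (b (a (l 16732120) (l 16720816)) (a (l 16763208) (l 16720160)))) (a (a (b (l 16419048) (l 16459688)) (b (l 16651760) (l 16700376))) (a (l 16824472) (b (l 16713168) (a (l 16735072) (l 16657768)))))))), by decide +kernel⟩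

theorem s2_pm_102 : ∃ t, chk3 f_pm_102 t 1 1 1 = true := ex3_a k0_pm_102 k1_pm_102

theorem c_pm_102 : CertB 536870912 536870912 1073741824 536870912 587336777 62277027 3 eng mog cd1q1 cd5q2 pd0 false true false .npp 1 0 2
    ndB1q1 ndB5q2 pcB0 Cut.none Ext.none :=
  certB1 (fam := false) (s1 := true) (s2 := false) (a := 1) (b := 0) (c := 2) (cn := .npp) (n1 := ndB1q1) (n2 := ndB5q2) (pc := pcB0) (cut := Cut.none) (xt := Ext.none) (P1 := 536870912) (W1 := 536870912) (P2 := 1073741824) (W2 := 536870912) (P3 := 587336777) (W3 := 62277027) (N0 := 3) (En := eng) (mo := mog) (C1 := cd1q1) (C2 := cd5q2) (C3 := pd0)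
    rfl (fun _ => rfl) s2_pm_102

noncomputable def f_pm_112 : ℕ → ℕ → ℕ → ℕ → Bool := onCell 536870912 536870912 1073741824 536870912 587336777 62277027
    (rowB 3 eng mog cd1q1 cd5q2 pd1 2 false true false .dn 1 1 2 (qsf 536870912 536870912 1073741824 536870912 1) ndB1q1 ndB5q2 pcB1 Cut.none Ext.none)

def k0_pm_112 : ∃ t, chk3 f_pm_112 t 1 1 1 = true :=
  ⟨(a (b (a (b (a (b (l 4) (l 66268464199)) (l 4)) (b (a (a (l 15996880) (l 15988832)) (b (l 4) (l 15985088))) (a (l 16205200) (l 16094432)))) (b (l 4) (a (b (l 4) (l 16106408)) (l 4)))) (b (a (b (a (l 16401216) (l 16275376)) (a (l 16641288) (l 16512264))) (a (b (l 16189072) (l 16369920)) (b (l 16128112) (l 16261688)))) (a (b (a (l 16864696) (l 16763328)) (a (l 16949800) (l 16986992))) (b (a (l 16632392) (l 16488304)) (a (l 16858264) (l 16728264)))))) (b (l 4) (a (b (a (l 67342948455) (l 4)) (a (b (l 16355240) (l 16599752)) (b (l 16238888) (l 16442328)))) (b (l 4) (a (b (l 4) (l 16301544)) (l 4)))))),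 by decide +kernel⟩

theorem c_pm_112 : CertB 536870912 536870912 1073741824 536870912 587336777 62277027 3 eng mog cd1q1 cd5q2 pd1 false true false .dn 1 1 2
    ndB1q1 ndB5q2 pcB1 Cut.none Ext.none :=
  certB2 (fam := false) (s1 := true) (s2 := false) (a := 1) (b := 1) (c := 2) (cn := .dn) (n1 := ndB1q1) (n2 := ndB5q2) (pc := pcB1) (cut := Cut.none) (xt := Ext.none) (P1 := 536870912) (W1 := 536870912) (P2 := 1073741824) (W2 := 536870912) (P3 := 587336777) (W3 := 62277027) (N0 := 3) (En := eng) (mo := mog) (C1 := cd1q1) (C2 := cd5q2) (C3 := pd1)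
    rfl (fun _ => rfl) k0_pm_112

noncomputable def f_pm_113 : ℕ → ℕ → ℕ → ℕ → Bool := onCell 536870912 536870912 0 1230186008 587336777 62277027
    (rowB 3 eng mog cd1q1 cd5q3 pd1 0 false true false .nn 1 1 3 (qsf 536870912 536870912 0 1230186008 1) ndB1q1 ndB5q3 pcB1 Cut.none Ext.none)

def k0_pm_113 : ∃ t, chk3 f_pm_113 t 1 1 1 = true :=
  ⟨(a (b (l 2) (b (a (l 2) (b (l 2) (a (l 2) (b (l 2) (l 16640448))))) (b (a (l 2) (b (a (l 16528848) (l 16646208)) (a (l 16537552) (l 16657000)))) (b (a (a (l 2) (b (l 193910287207) (l 16360984))) (b (a (l 16539864) (l 16660680)) (a (l 16523640) (l 16649168)))) (a (a (l 4) (b (l 16332984) (b (l 16331416) (l 16448888)))) (b (a (l 16501808) (l 16634464)) (a (b (l 16499040) (l 16608792)) (l 16683872)))))))) (b (a (l 2) (a (b (l 2) (b (l 16776904) (l 16804728))) (b (a (l 2) (b (a (l 2) (l 16773760)) (l 16785888))) (b (l 17058192) (l 16913808))))) (b (a (b (a (l 2) (l 16779616)) (a (l 16890600) (l 16798936))) (b (a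 (l 16841824) (a (l 16892328) (l 16936280))) (a (b (l 16868784) (l 16891160)) (a (l 17212560) (b (l 16998200) (l 17050928)))))) (b (b (a (a (l 16734976) (l 16822592)) (a (l 16925536) (l 17085984))) (a (a (l 16750416) (l 16850408)) (a (l 16973848) (l 17149576)))) (b (b (a (a (l 16929088) (l 16873336)) (l 17102344)) (a (a (l 16757984) (l 16878024)) (l 17122688))) (a (b (a (l 16751504) (l 16878944)) (a (l 16800912) (l 16936184))) (b (l 17136344) (a (l 17114976) (l 16997584))))))))), by decide +kernel⟩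

theorem c_pm_113 : CertB 536870912 536870912 0 1230186008 587336777 62277027 3 eng mog cd1q1 cd5q3 pd1 false true false .nn 1 1 3
    ndB1q1 ndB5q3 pcB1 Cut.none Ext.none :=
  certB0 (fam := false) (s1 := true) (s2 := false) (a := 1) (b := 1) (c := 3) (cn := .nn) (n1 := ndB1q1) (n2 := ndB5q3) (pc := pcB1) (cut := Cut.none) (xt := Ext.none) (P1 := 536870912) (W1 := 536870912) (P2 := 0) (W2 := 1230186008) (P3 := 587336777) (W3 := 62277027) (N0 := 3) (En := eng) (mo := mog) (C1 := cd1q1) (C2 := cd5q3) (C3 := pd1)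
    rfl k0_pm_113

noncomputable def f_pm_123 : ℕ → ℕ → ℕ → ℕ → Bool := onCell 1073741824 536870912 0 1230186008 587336777 62277027
    (rowB 3 eng mog cd1q1 cd5q3 pd2 2 false true false .npn 1 2 3 (qsf 536870912 536870912 0 1230186008 2) ndB1q1 ndB5q3 pcB2 Cut.none Ext.none)

def k0_pm_123 : ∃ t, chk3 f_pm_123 t 1 1 1 = true :=
  ⟨(a (a (b (b (a (b (l 16759944) (l 16760768)) (b (l 16725416) (l 16716784))) (b (a (l 16763624) (l 16706920)) (a (l 16760488) (l 16691960)))) (b (b (a (l 16738008) (b (l 16670824) (l 16647232))) (a (b (l 16693008) (l 16643544)) (b (l 16613256) (l 16561648)))) (b (b (a (l 16577376) (l 16497112)) (a (l 16488456) (b (l 16433136) (l 16381200)))) (b (a (b (l 16389336) (l 16285192)) (b (l 16314272) (l 4))) (b (a (l 16195288) (l 4)) (l 4)))))) (b (b (a (a (a (l 16695312) (l 16686184)) (l 16674008)) (l 16670992)) (b (a (l 16660704) (l 16647776)) (a (l 16640856) (l 16623504)))) (b (b (a (l 16670240) (l 16587824)) (a (a (l 16547048)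 (l 16528048)) (l 16513800))) (b (a (a (l 16416224) (l 16399720)) (l 16388560)) (l 4))))) (b (a (b (a (l 16669936) (l 16671976)) (b (a (l 16643400) (l 16648528)) (a (l 16621344) (l 16626136)))) (a (b (l 16684944) (l 16703968)) (b (l 16696248) (l 16567944)))) (b (a (a (b (l 16582640) (l 16510056)) (b (l 16588136) (l 16522576))) (b (a (l 16603000) (l 1)) (l 1))) (l 1)))), by decide +kernel⟩

theorem c_pm_123 : CertB 536870912 536870912 0 1230186008 587336777 62277027 3 eng mog cd1q1 cd5q3 pd2 false true false .npn 1 2 3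
    ndB1q1 ndB5q3 pcB2 Cut.none Ext.none :=
  certB2 (fam := false) (s1 := true) (s2 := false) (a := 1) (b := 2) (c := 3) (cn := .npn) (n1 := ndB1q1) (n2 := ndB5q3) (pc := pcB2) (cut := Cut.none) (xt := Ext.none) (P1 := 536870912) (W1 := 536870912) (P2 := 0) (W2 := 1230186008) (P3 := 587336777) (W3 := 62277027) (N0 := 3) (En := eng) (mo := mog) (C1 := cd1q1) (C2 := cd5q3) (C3 := pd2)
    rfl (fun _ => rfl) k0_pm_123

noncomputable def f_pm_133 : ℕ → ℕ → ℕ → ℕ → Bool := onCell 1610612736 536870912 0 1230186008 587336777 62277027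
    (rowB 3 eng mog cd1q1 cd5q3 pd3 2 false true false .dn 1 3 3 (qsf 536870912 536870912 0 1230186008 3) ndB1q1 ndB5q3 pcB3 Cut.none Ext.none)

def k0_pm_133 : ∃ t, chk3 f_pm_133 t 1 1 1 = true :=
  ⟨(b (b (a (a (l 16845592) (l 1)) (l 1)) (l 1)) (l 1)), by decide +kernel⟩

theorem c_pm_133 : CertB 536870912 536870912 0 1230186008 587336777 62277027 3 eng mog cd1q1 cd5q3 pd3 false true false .dn 1 3 3
    ndB1q1 ndB5q3 pcB3 Cut.none Ext.none :=
  certB2 (fam := false) (s1 := true) (s2 := false) (a := 1) (b := 3) (c := 3) (cn := .dn) (n1 := ndB1q1) (n2 := ndB5q3) (pc := pcB3) (cut := Cut.none) (xt := Ext.none) (P1 := 536870912) (W1 := 536870912) (P2 := 0) (W2 := 1230186008) (P3 := 587336777) (W3 := 62277027) (N0 := 3) (En := eng) (mo := mog) (C1 := cd1q1) (C2 := cd5q3) (C3 := pd3)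
    rfl (fun _ => rfl) k0_pm_133

noncomputable def f_pm_202_a : ℕ → ℕ → ℕ → ℕ → Bool := onCell 0 536870912 0 536870912 587336777 62277027
    (rowB 3 eng mog cd1q2a cd5q2 pd0 1 false true false .pp 2 0 2 (qsf 0 536870912 1073741824 536870912 0) ndB1q2a ndB5q2 pcB0 Cut.none Ext.none)

def k0_pm_202_a : ∃ t, chk3 f_pm_202_a t 2 1 1 = true :=
  ⟨(a (l 3) (a (b (l 3) (l 3)) (b (a (b (b (b (a (b (b (b (b (l 127405621063) (l 127405614359)) (l 3)) (l 3)) (l 3)) (b (b (a (a (b (b (l 16500752) (l 16500816)) (b (l 16501184) (l 16501464))) (b (l 16503744) (c (l 16506600) (l 16518696)))) (a (l 16506160) (l 16509712))) (a (a (l 16502040) (b (b (l 16503352) (l 16503432)) (l 16503312))) (b (c (l 16551376) (l 16522912)) (c (l 16571456) (a (l 16543040) (l 16503192)))))) (b (a (l 136532436423) (b (a (l 16505432) (l 16507592)) (c (l 16507480) (l 16501800)))) (c (l 138679971527) (a (l 16500008) (a (l 16501824) (l 16504472))))))) (a (l 3) (b (c (l 146733087735) (b (b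 (l 141364320055) (l 144585642695)) (l 163912856471))) (l 175724035319)))) (b (b (l 320142291655) (l 3)) (l 3))) (l 3)) (b (b (b (a (b (a (b (l 16514552) (c (l 16513776) (l 16528728))) (l 16519688)) (b (c (l 16579392) (a (b (l 16590608) (l 16549416)) (l 16512696))) (a (a (l 16528952) (l 16510856)) (l 16576160)))) (b (l 16529880) (a (l 16603472) (l 16524448)))) (a (a (a (b (b (l 16508296) (l 16505928)) (l 16505336)) (b (l 16587720) (l 16506208))) (b (b (l 16512936) (l 16510344)) (l 16593712))) (b (a (c (l 16596960) (l 16620016)) (b (l 16521928) (l 16519976))) (b (l 16597856) (l 16597128))))) (b (a (b (a (l 183240224343) (l 16507112)) (a (l 16506776) (l 16507168))) (b (l 16611200) (a (l 16508184) (l 16510496)))) (a (b (l 156396857319) (l 172502802743)) (a (b (l 16508216) (l 16488832)) (b (l 16509176) (l 16509304)))))) (b (b (b (a (l 172502830503) (a (l 16511080) (l 16510472))) (a (l 3) (l 196125088279))) (b (l 195051351143) (l 193440784023))) (b (a (l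 3) (b (l 198272598311) (l 3))) (l 3))))) (l 3)))), by decide +kernel⟩

def k1_pm_202_a : ∃ t, chk3 f_pm_202_a t 3 4 1 = true :=
  ⟨(a (b (a (b (a (l 16542656) (l 16560968)) (a (b (a (a (b (l 16525352) (l 16524728)) (l 16592096)) (l 16536608)) (a (b (l 16525400) (l 16522696)) (b (a (l 16532312) (l 16536712)) (l 16533392)))) (b (l 16552744) (b (l 16549072) (a (l 16541672) (l 16551104)))))) (b (a (l 16576176) (l 16588208)) (l 16573408))) (a (a (b (b (a (l 16542552) (l 16530904)) (a (a (l 16513352) (l 16521104)) (l 16526000))) (b (a (l 16616840) (l 16524288)) (a (a (l 16509592) (l 16509792)) (l 16577168)))) (b (b (b (a (l 16540448) (l 16549080)) (a (l 16539224) (l 16547136))) (a (l 16536792) (l 16546016))) (b (l 16551368) (a (l 16527704) (l 16535728))))) (b (a (b (l 16560432) (a (l 16553328) (l 16561176))) (l 16571816)) (a (b (a (l 16551792) (l 16558752)) (l 16553488)) (b (l 16569112) (l 16567272)))))) (b (a (b (a (l 16597512) (b (l 16607224) (l 16602384)))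 (l 16592576)) (a (b (b (l 16612240) (l 16607632)) (l 16600224)) (a (b (a (l 16694208) (l 16610912)) (l 16604528)) (b (l 16632496) (l 16607320))))) (a (b (l 16586032) (l 16583520)) (b (a (l 16595608) (l 16601568)) (l 16598184))))), by decide +kernel⟩

def k2_pm_202_a : ∃ t, chk3 f_pm_202_a t 3 5 1 = true :=
  ⟨(a (a (b (a (b (a (a (l 16541192) (l 16508776)) (b (l 16511472) (l 16509904))) (a (c (l 16553856) (l 16523416)) (l 16504056))) (b (a (b (l 16522456) (l 16519448)) (b (l 16510920) (l 16531816))) (a (b (l 16518584) (l 16517296)) (b (l 16529072) (l 16526880))))) (a (b (a (b (l 16510352) (l 186461491223)) (b (l 16502200) (l 16542424))) (a (b (l 185387736695) (l 16519856)) (a (l 16506984) (l 16500040)))) (b (a (l 16514264) (l 16526240)) (a (l 16569552) (l 16522568))))) (b (a (b (b (l 16549648) (l 16543680)) (c (a (l 16549408) (l 16556496)) (l 16533536))) (b (b (l 16566280) (l 16564400)) (l 16561248))) (a (b (a (l 16535072) (l 16546096)) (a (l 16533992)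 (l 16542856))) (b (l 16596848) (l 16807952))))) (b (a (b (a (b (l 16578472) (l 16577064)) (l 16588296)) (a (l 16576432) (l 16588608))) (b (l 16601808) (l 16608200))) (a (a (l 16573240) (b (l 16588856) (l 16588208))) (a (b (l 16603288) (l 16604872)) (b (l 16621800) (l 16625224)))))), by decide +kernel⟩

def k3_pm_202_a : ∃ t, chk3 f_pm_202_a t 3 3 1 = true :=
  ⟨(b (b (a (a (a (b (a (l 195588254775) (l 16511072)) (l 191293292887)) (b (a (l 16539256) (l 16512560)) (a (l 16518392) (l 16497144)))) (b (a (a (l 16525112) (l 16536528)) (l 16746360)) (a (l 16520808) (l 16542064)))) (a (a (b (l 16609256) (l 16564176)) (b (l 16589088) (l 16586848))) (b (l 16618344) (l 16620992)))) (a (a (a (b (a (l 3) (l 16527040)) (l 3)) (b (a (l 16504208) (l 16486688)) (a (l 16509000) (l 16479800)))) (a (b (l 16507936) (a (l 16487248) (l 16501344))) (b (l 16532392) (l 16521488)))) (a (a (b (l 16555304) (l 16543232)) (l 16571888)) (l 16616152)))) (a (b (a (a (l 3) (b (a (l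 16513384) (l 16482752)) (l 2))) (a (b (a (l 16474448) (l 16487248)) (a (l 16454744) (l 16470232))) (l 16500584))) (l 2)) (b (a (a (b (l 16531952) (l 16520936)) (l 16560632)) (a (l 16578136) (l 16615816))) (a (a (l 16501336) (l 16529264)) (l 16579504))))), by decide +kernel⟩

theorem s4_pm_202_a : ∃ t, chk3 f_pm_202_a t 3 2 1 = true := ex3_b k1_pm_202_a k2_pm_202_a

theorem s5_pm_202_a : ∃ t, chk3 f_pm_202_a t 3 1 1 = true := ex3_b s4_pm_202_a k3_pm_202_a

theorem s6_pm_202_a : ∃ t, chk3 f_pm_202_a t 1 1 1 = true := ex3_a k0_pm_202_a s5_pm_202_a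

theorem c_pm_202_a : CertB 0 536870912 1073741824 536870912 587336777 62277027 3 eng mog cd1q2a cd5q2 pd0 false true false .pp 2 0 2
    ndB1q2a ndB5q2 pcB0 Cut.none Ext.none :=
  certB1 (fam := false) (s1 := true) (s2 := false) (a := 2) (b := 0) (c := 2) (cn := .pp) (n1 := ndB1q2a) (n2 := ndB5q2) (pc := pcB0) (cut := Cut.none) (xt := Ext.none) (P1 := 0) (W1 := 536870912) (P2 := 1073741824) (W2 := 536870912) (P3 := 587336777) (W3 := 62277027) (N0 := 3) (En := eng) (mo := mog) (C1 := cd1q2a) (C2 := cd5q2) (C3 := pd0)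
    rfl (fun _ => rfl) s6_pm_202_a

noncomputable def f_pm_202_b : ℕ → ℕ → ℕ → ℕ → Bool := onCell 1239849684 370763052 1073741824 536870912 587336777 62277027
    (rowB 3 eng mog cd1q2b cd5q2 pd0 0 false true false .pp 2 0 2 (qsf 1239849684 370763052 1073741824 536870912 0) ndB1q2b ndB5q2 pcB0 Cut.none Ext.none)

def k0_pm_202_b : ∃ t, chk3 f_pm_202_b t 1 1 1 = true :=
  ⟨(l 3), by decide +kernel⟩

theorem c_pm_202_b : CertB 1239849684 370763052 1073741824 536870912 587336777 62277027 3 eng mog cd1q2b cd5q2 pd0 false true false .pp 2 0 2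
    ndB1q2b ndB5q2 pcB0 Cut.none Ext.none :=
  certB0 (fam := false) (s1 := true) (s2 := false) (a := 2) (b := 0) (c := 2) (cn := .pp) (n1 := ndB1q2b) (n2 := ndB5q2) (pc := pcB0) (cut := Cut.none) (xt := Ext.none) (P1 := 1239849684) (W1 := 370763052) (P2 := 1073741824) (W2 := 536870912) (P3 := 587336777) (W3 := 62277027) (N0 := 3) (En := eng) (mo := mog) (C1 := cd1q2b) (C2 := cd5q2) (C3 := pd0)
    rfl k0_pm_202_b

noncomputable def f_pm_203_a : ℕ → ℕ → ℕ → ℕ → Bool := onCell 0 536870912 0 1230186008 587336777 62277027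
    (rowB 3 eng mog cd1q2a cd5q3 pd0 0 false true false .up 2 0 3 (qsf 0 536870912 0 1230186008 0) ndB1q2a ndB5q3 pcB0 Cut.none Ext.none)

def k0_pm_203_a : ∃ t, chk3 f_pm_203_a t 1 1 1 = true :=
  ⟨(b (l 2) (b (l 2) (a (l 3) (b (l 2) (b (a (a (l 3) (b (l 2) (a (a (b (l 16577712) (l 16572336)) (l 16584992)) (a (b (l 2) (l 16595016)) (l 16608096))))) (b (l 2) (a (b (l 2) (l 16645104)) (l 2)))) (a (a (a (l 3) (a (l 3) (b (l 195051623927) (b (b (l 16560496) (l 16526288)) (b (l 16473800) (l 16649592)))))) (b (a (a (b (l 16569456) (l 16568248)) (b (l 16580416) (l 16579000))) (a (l 16589680) (l 16601864))) (b (a (a (l 16655720) (l 16560704)) (l 16575424)) (a (a (l 16470440) (l 16448488)) (l 16467264))))) (b (a (b (l 16639824) (l 16633920)) (l 16705600)) (a (b (l 16611408) (l 16502240)) (b (l 16674360) (l 16553352)))))))))), by decide +kernel⟩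

theorem c_pm_203_a : CertB 0 536870912 0 1230186008 587336777 62277027 3 eng mog cd1q2a cd5q3 pd0 false true false .up 2 0 3
    ndB1q2a ndB5q3 pcB0 Cut.none Ext.none :=
  certB0 (fam := false) (s1 := true) (s2 := false) (a := 2) (b := 0) (c := 3) (cn := .up) (n1 := ndB1q2a) (n2 := ndB5q3) (pc := pcB0) (cut := Cut.none) (xt := Ext.none) (P1 := 0) (W1 := 536870912) (P2 := 0) (W2 := 1230186008) (P3 := 587336777) (W3 := 62277027) (N0 := 3) (En := eng) (mo := mog) (C1 := cd1q2a) (C2 := cd5q3) (C3 := pd0)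
    rfl k0_pm_203_a

noncomputable def f_pm_203_b : ℕ → ℕ → ℕ → ℕ → Bool := onCell 1239849684 370763052 0 1230186008 587336777 62277027
    (rowB 3 eng mog cd1q2b cd5q3 pd0 0 false true false .up 2 0 3 (qsf 1239849684 370763052 0 1230186008 0) ndB1q2b ndB5q3 pcB0 Cut.none Ext.none)

def k0_pm_203_b : ∃ t, chk3 f_pm_203_b t 1 1 1 = true :=
  ⟨(b (l 3) (l 3)), by decide +kernel⟩

theorem c_pm_203_b : CertB 1239849684 370763052 0 1230186008 587336777 62277027 3 eng mog cd1q2b cd5q3 pd0 false true false .up 2 0 3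
    ndB1q2b ndB5q3 pcB0 Cut.none Ext.none :=
  certB0 (fam := false) (s1 := true) (s2 := false) (a := 2) (b := 0) (c := 3) (cn := .up) (n1 := ndB1q2b) (n2 := ndB5q3) (pc := pcB0) (cut := Cut.none) (xt := Ext.none) (P1 := 1239849684) (W1 := 370763052) (P2 := 0) (W2 := 1230186008) (P3 := 587336777) (W3 := 62277027) (N0 := 3) (En := eng) (mo := mog) (C1 := cd1q2b) (C2 := cd5q3) (C3 := pd0)
    rfl k0_pm_203_b

noncomputable def cut_pm_213_a : Cut := Cut.of [[⟨0, 1, 0, 67108864⟩, ⟨1, 1, 0, 67108864⟩, ⟨2, 2, 0, 16777216⟩]]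

noncomputable def f_pm_213_a : ℕ → ℕ → ℕ → ℕ → Bool := onCell 0 536870912 0 1230186008 587336777 62277027
    (rowB 3 eng mog cd1q2a cd5q3 pd1 0 false true false .pnn 2 1 3 (qsf 0 536870912 0 1230186008 1) ndB1q2a ndB5q3 pcB1 cut_pm_213_a Ext.none)

def k0_pm_213_a : ∃ t, chk3 f_pm_213_a t 2 1 1 = true :=
  ⟨(b (l 3) (b (l 3) (l 3))), by decide +kernel⟩

def k1_pm_213_a : ∃ t, chk3 f_pm_213_a t 3 2 1 = true :=
  ⟨(a (b (l 3) (l 3)) (b (a (l 3) (b (l 6) (a (a (l 3) (b (l 6) (b (a (l 3) (l 277193195367)) (b (l 276656324823) (l 279340685015))))) (a (b (l 6) (a (b (l 16792680) (l 16797992)) (l 16796936))) (b (l 6) (l 16798336)))))) (b (a (a (l 3) (b (l 3) (a (l 3) (b (l 3) (l 234780458999))))) (a (b (a (a (l 3) (b (l 280951298695) (l 248739076855))) (b (b (l 284709404535) (l 253033975847)) (l 16806776))) (a (a (b (l 255181512359) (l 251423456295)) (b (l 16820520) (l 16814328))) (l 16816176))) (b (a (l 16808184) (l 16812240)) (a (l 16821792) (l 16828064)))))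 (a (a (l 3) (b (a (l 3) (b (a (l 3) (l 241759778327)) (a (l 222969268343) (l 16815888)))) (a (b (a (l 3) (l 207936877687)) (a (l 197199451127) (b (l 210621238023) (l 16810216)))) (b (b (l 200420720791) (l 16817472)) (a (l 16816344) (l 16822744)))))) (a (b (a (b (a (l 16816024) (l 16819824)) (l 16822904)) (l 16828824)) (a (b (l 16827592) (l 16832080)) (l 16799424))) (a (b (l 16837056) (l 16852808)) (l 16854960))))))), by decide +kernel⟩

def k2_pm_213_a : ∃ t, chk3 f_pm_213_a t 3 6 1 = true :=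
  ⟨(b (a (l 3) (a (b (a (a (l 3) (b (l 3) (a (l 3) (b (l 255718369127) (l 179482709511))))) (a (b (a (b (l 197736322007) (l 198273193799)) (b (l 16810872) (l 16811728))) (b (l 197736339463) (l 16809792))) (b (l 16822224) (l 16825296)))) (a (a (b (l 3) (l 255718340823)) (b (b (l 161765982135) (l 155323525367)) (a (l 130627469911) (l 16800296)))) (a (b (b (l 16810664) (l 16811912)) (l 16814488)) (b (l 16828296) (l 16833304))))) (a (b (b (l 16759880) (l 16870216)) (b (l 16854360) (l 16860352))) (l 16886288)))) (a (a (l 3) (a (l 3) (b (l 3) (a (l 3) (b (l 159081618935) (a (l 186998903543) (l 16774120))))))) (a (b (b (a (a (l 130627476311) (l 16798256)) (a (l 16818640) (l 16839336))) (a (a (l 113447623991) (l 16801848)) (a (l 16823920) (l 16844488)))) (a (a (b (l 16786456) (l 16787368)) (b (l 16805440) (l 16807296))) (b (a (l 16828056) (l 16850360)) (l 16818352)))) (a (b (l 16873352) (l 16887952)) (b (l 16916256) (l 16938240)))))), by decide +kernel⟩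

def k3_pm_213_a : ∃ t, chk3 f_pm_213_a t 3 7 1 = true :=
  ⟨(b (a (a (l 3) (b (a (l 3) (b (a (l 209010581111) (l 16762192)) (a (l 123648100791) (l 16747664)))) (a (a (l 3) (b (l 16693552) (l 16655680))) (a (b (l 16705848) (l 16674976)) (b (l 16727488) (l 16701304)))))) (a (b (a (a (b (l 16780464) (l 16768520)) (b (l 16801224) (l 16789040))) (l 16812816)) (a (a (b (l 16751256) (l 16725032)) (l 16765688)) (l 16810312))) (b (b (l 16837448) (l 16815624)) (b (l 16872400) (l 16902512))))) (b (a (a (l 3) (b (b (a (l 113984137719) (l 16666088)) (a (l 106467895319) (l 16659224))) (a (a (b (l 16579920) (l 1)) (l 16608832)) (a (l 16643000) (l 16667336))))) (b (a (a (l 16721344) (l 16788592)) (b (l 16893064) (l 16897872))) (a (b (l 16746456) (l 16740408)) (l 16898864)))) (a (l 1) (b (a (a (l 16706392) (l 16759216)) (l 16862880)) (a (l 1) (b (l 16824696) (l 16706992))))))), by decide +kernel⟩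

theorem s4_pm_213_a : ∃ t, chk3 f_pm_213_a t 3 3 1 = true := ex3_b k2_pm_213_a k3_pm_213_a

theorem s5_pm_213_a : ∃ t, chk3 f_pm_213_a t 3 1 1 = true := ex3_b k1_pm_213_a s4_pm_213_a

theorem s6_pm_213_a : ∃ t, chk3 f_pm_213_a t 1 1 1 = true := ex3_a k0_pm_213_a s5_pm_213_a

theorem c_pm_213_a : CertB 0 536870912 0 1230186008 587336777 62277027 3 eng mog cd1q2a cd5q3 pd1 false true false .pnn 2 1 3
    ndB1q2a ndB5q3 pcB1 cut_pm_213_a Ext.none :=
  certB0 (fam := false) (s1 := true) (s2 := false) (a := 2) (b := 1) (c := 3) (cn := .pnn) (n1 := ndB1q2a) (n2 := ndB5q3) (pc := pcB1) (cut := cut_pm_213_a) (xt := Ext.none) (P1 := 0) (W1 := 536870912) (P2 := 0) (W2 := 1230186008) (P3 := 587336777) (W3 := 62277027) (N0 := 3) (En := eng) (mo := mog) (C1 := cd1q2a) (C2 := cd5q3) (C3 := pd1)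
    rfl s6_pm_213_a

noncomputable def cut_pm_213_b : Cut := Cut.of [[⟨0, 1, 0, 67108864⟩, ⟨1, 1, 0, 67108864⟩, ⟨2, 2, 0, 16777216⟩]]

noncomputable def f_pm_213_b : ℕ → ℕ → ℕ → ℕ → Bool := onCell 1239849684 370763052 0 1230186008 587336777 62277027
    (rowB 3 eng mog cd1q2b cd5q3 pd1 0 false true false .pnn 2 1 3 (qsf 1239849684 370763052 0 1230186008 1) ndB1q2b ndB5q3 pcB1 cut_pm_213_b Ext.none)

def k0_pm_213_b : ∃ t, chk3 f_pm_213_b t 1 1 1 = true :=
  ⟨(b (l 3) (l 3)), by decide +kernel⟩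

theorem c_pm_213_b : CertB 1239849684 370763052 0 1230186008 587336777 62277027 3 eng mog cd1q2b cd5q3 pd1 false true false .pnn 2 1 3
    ndB1q2b ndB5q3 pcB1 cut_pm_213_b Ext.none :=
  certB0 (fam := false) (s1 := true) (s2 := false) (a := 2) (b := 1) (c := 3) (cn := .pnn) (n1 := ndB1q2b) (n2 := ndB5q3) (pc := pcB1) (cut := cut_pm_213_b) (xt := Ext.none) (P1 := 1239849684) (W1 := 370763052) (P2 := 0) (W2 := 1230186008) (P3 := 587336777) (W3 := 62277027) (N0 := 3) (En := eng) (mo := mog) (C1 := cd1q2b) (C2 := cd5q3) (C3 := pd1)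
    rfl k0_pm_213_b

noncomputable def f_pm_303 : ℕ → ℕ → ℕ → ℕ → Bool := onCell 1610612736 536870912 0 1230186008 587336777 62277027
    (rowB 3 eng mog cd1q3 cd5q3 pd0 0 false true false .npn 3 0 3 (qsf 1610612736 536870912 0 1230186008 0) ndB1q3 ndB5q3 pcB0 Cut.none Ext.none)

def k0_pm_303 : ∃ t, chk3 f_pm_303 t 1 1 1 = true :=
  ⟨(b (l 3) (l 3)), by decide +kernel⟩

theorem c_pm_303 : CertB 1610612736 536870912 0 1230186008 587336777 62277027 3 eng mog cd1q3 cd5q3 pd0 false true false .npn 3 0 3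
    ndB1q3 ndB5q3 pcB0 Cut.none Ext.none :=
  certB0 (fam := false) (s1 := true) (s2 := false) (a := 3) (b := 0) (c := 3) (cn := .npn) (n1 := ndB1q3) (n2 := ndB5q3) (pc := pcB0) (cut := Cut.none) (xt := Ext.none) (P1 := 1610612736) (W1 := 536870912) (P2 := 0) (W2 := 1230186008) (P3 := 587336777) (W3 := 62277027) (N0 := 3) (En := eng) (mo := mog) (C1 := cd1q3) (C2 := cd5q3) (C3 := pd0)
    rfl k0_pm_303

noncomputable def f_pm_313 : ℕ → ℕ → ℕ → ℕ → Bool := onCell 1610612736 536870912 0 1230186008 587336777 62277027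
    (rowB 3 eng mog cd1q3 cd5q3 pd1 0 false true false .dn 3 1 3 (qsf 1610612736 536870912 0 1230186008 1) ndB1q3 ndB5q3 pcB1 Cut.none Ext.none)

def k0_pm_313 : ∃ t, chk3 f_pm_313 t 1 1 1 = true :=
  ⟨(b (l 3) (l 1)), by decide +kernel⟩

theorem c_pm_313 : CertB 1610612736 536870912 0 1230186008 587336777 62277027 3 eng mog cd1q3 cd5q3 pd1 false true false .dn 3 1 3
    ndB1q3 ndB5q3 pcB1 Cut.none Ext.none :=
  certB0 (fam := false) (s1 := true) (s2 := false) (a := 3) (b := 1) (c := 3) (cn := .dn) (n1 := ndB1q3) (n2 := ndB5q3) (pc := pcB1) (cut := Cut.none) (xt := Ext.none) (P1 := 1610612736) (W1 := 536870912) (P2 := 0) (W2 := 1230186008) (P3 := 587336777) (W3 := 62277027) (N0 := 3) (En := eng) (mo := mog) (C1 := cd1q3) (C2 := cd5q3) (C3 := pd1)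
    rfl k0_pm_313

noncomputable def f_mm_001 : ℕ → ℕ → ℕ → ℕ → Bool := onCell 0 536870912 0 536870912 587336777 62277027
    (rowB 3 eng mog cd1q0 cd5q1 pd0 1 false false false .up 0 0 1 (qsf 0 536870912 536870912 536870912 0) ndB1q0 ndB5q1 pcB0 Cut.none Ext.none)

def k0_mm_001 : ∃ t, chk3 f_mm_001 t 1 1 1 = true :=
  ⟨(l 3), by decide +kernel⟩

theorem c_mm_001 : CertB 0 536870912 536870912 536870912 587336777 62277027 3 eng mog cd1q0 cd5q1 pd0 false false false .up 0 0 1
    ndB1q0 ndB5q1 pcB0 Cut.none Ext.none :=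
  certB1 (fam := false) (s1 := false) (s2 := false) (a := 0) (b := 0) (c := 1) (cn := .up) (n1 := ndB1q0) (n2 := ndB5q1) (pc := pcB0) (cut := Cut.none) (xt := Ext.none) (P1 := 0) (W1 := 536870912) (P2 := 536870912) (W2 := 536870912) (P3 := 587336777) (W3 := 62277027) (N0 := 3) (En := eng) (mo := mog) (C1 := cd1q0) (C2 := cd5q1) (C3 := pd0)
    rfl (fun _ => rfl) k0_mm_001

noncomputable def f_mm_011 : ℕ → ℕ → ℕ → ℕ → Bool := onCell 0 536870912 536870912 536870912 587336777 62277027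
    (rowB 3 eng mog cd1q0 cd5q1 pd1 1 false false false .pnn 0 1 1 (qsf 0 536870912 536870912 536870912 1) ndB1q0 ndB5q1 pcB1 Cut.none Ext.none)

def k0_mm_011 : ∃ t, chk3 f_mm_011 t 1 1 1 = true :=
  ⟨(l 5), by decide +kernel⟩

theorem c_mm_011 : CertB 0 536870912 536870912 536870912 587336777 62277027 3 eng mog cd1q0 cd5q1 pd1 false false false .pnn 0 1 1
    ndB1q0 ndB5q1 pcB1 Cut.none Ext.none :=
  certB1 (fam := false) (s1 := false) (s2 := false) (a := 0) (b := 1) (c := 1) (cn := .pnn) (n1 := ndB1q0) (n2 := ndB5q1) (pc := pcB1) (cut := Cut.none) (xt := Ext.none) (P1 := 0) (W1 := 536870912) (P2 := 536870912) (W2 := 536870912) (P3 := 587336777) (W3 := 62277027) (N0 := 3) (En := eng) (mo := mog) (C1 := cd1q0) (C2 := cd5q1) (C3 := pd1)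
    rfl (fun _ => rfl) k0_mm_011

noncomputable def f_mm_012 : ℕ → ℕ → ℕ → ℕ → Bool := onCell 0 536870912 1073741824 536870912 587336777 62277027
    (rowB 3 eng mog cd1q0 cd5q2 pd1 0 false false false .pnp 0 1 2 (qsf 0 536870912 1073741824 536870912 1) ndB1q0 ndB5q2 pcB1 Cut.none Ext.none)

def k0_mm_012 : ∃ t, chk3 f_mm_012 t 1 1 1 = true :=
  ⟨(l 5), by decide +kernel⟩

theorem c_mm_012 : CertB 0 536870912 1073741824 536870912 587336777 62277027 3 eng mog cd1q0 cd5q2 pd1 false false false .pnp 0 1 2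
    ndB1q0 ndB5q2 pcB1 Cut.none Ext.none :=
  certB0 (fam := false) (s1 := false) (s2 := false) (a := 0) (b := 1) (c := 2) (cn := .pnp) (n1 := ndB1q0) (n2 := ndB5q2) (pc := pcB1) (cut := Cut.none) (xt := Ext.none) (P1 := 0) (W1 := 536870912) (P2 := 1073741824) (W2 := 536870912) (P3 := 587336777) (W3 := 62277027) (N0 := 3) (En := eng) (mo := mog) (C1 := cd1q0) (C2 := cd5q2) (C3 := pd1)
    rfl k0_mm_012

noncomputable def f_mm_022 : ℕ → ℕ → ℕ → ℕ → Bool := onCell 0 536870912 1073741824 536870912 587336777 62277027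
    (rowB 3 eng mog cd1q0 cd5q2 pd2 0 false false false .pp 0 2 2 (qsf 0 536870912 1073741824 536870912 2) ndB1q0 ndB5q2 pcB2 Cut.none Ext.none)

def k0_mm_022 : ∃ t, chk3 f_mm_022 t 1 1 1 = true :=
  ⟨(l 5), by decide +kernel⟩

theorem c_mm_022 : CertB 0 536870912 1073741824 536870912 587336777 62277027 3 eng mog cd1q0 cd5q2 pd2 false false false .pp 0 2 2
    ndB1q0 ndB5q2 pcB2 Cut.none Ext.none :=
  certB0 (fam := false) (s1 := false) (s2 := false) (a := 0) (b := 2) (c := 2) (cn := .pp) (n1 := ndB1q0) (n2 := ndB5q2) (pc := pcB2) (cut := Cut.none) (xt := Ext.none) (P1 := 0) (W1 := 536870912) (P2 := 1073741824) (W2 := 536870912) (P3 := 587336777) (W3 := 62277027) (N0 := 3) (En := eng) (mo := mog) (C1 := cd1q0) (C2 := cd5q2) (C3 := pd2)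
    rfl k0_mm_022

noncomputable def f_mm_023 : ℕ → ℕ → ℕ → ℕ → Bool := onCell 0 536870912 0 1230186008 587336777 62277027
    (rowB 3 eng mog cd1q0 cd5q3 pd2 0 false false false .up 0 2 3 (qsf 0 536870912 0 1230186008 2) ndB1q0 ndB5q3 pcB2 Cut.none Ext.none)

def k0_mm_023 : ∃ t, chk3 f_mm_023 t 1 1 1 = true :=
  ⟨(l 5), by decide +kernel⟩

theorem c_mm_023 : CertB 0 536870912 0 1230186008 587336777 62277027 3 eng mog cd1q0 cd5q3 pd2 false false false .up 0 2 3
    ndB1q0 ndB5q3 pcB2 Cut.none Ext.none :=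
  certB0 (fam := false) (s1 := false) (s2 := false) (a := 0) (b := 2) (c := 3) (cn := .up) (n1 := ndB1q0) (n2 := ndB5q3) (pc := pcB2) (cut := Cut.none) (xt := Ext.none) (P1 := 0) (W1 := 536870912) (P2 := 0) (W2 := 1230186008) (P3 := 587336777) (W3 := 62277027) (N0 := 3) (En := eng) (mo := mog) (C1 := cd1q0) (C2 := cd5q3) (C3 := pd2)
    rfl k0_mm_023

noncomputable def f_mm_033 : ℕ → ℕ → ℕ → ℕ → Bool := onCell 0 536870912 0 1230186008 587336777 62277027
    (rowB 3 eng mog cd1q0 cd5q3 pd3 0 false false false .pnn 0 3 3 (qsf 0 536870912 0 1230186008 3) ndB1q0 ndB5q3 pcB3 Cut.none Ext.none)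

def k0_mm_033 : ∃ t, chk3 f_mm_033 t 1 1 1 = true :=
  ⟨(l 5), by decide +kernel⟩

theorem c_mm_033 : CertB 0 536870912 0 1230186008 587336777 62277027 3 eng mog cd1q0 cd5q3 pd3 false false false .pnn 0 3 3
    ndB1q0 ndB5q3 pcB3 Cut.none Ext.none :=
  certB0 (fam := false) (s1 := false) (s2 := false) (a := 0) (b := 3) (c := 3) (cn := .pnn) (n1 := ndB1q0) (n2 := ndB5q3) (pc := pcB3) (cut := Cut.none) (xt := Ext.none) (P1 := 0) (W1 := 536870912) (P2 := 0) (W2 := 1230186008) (P3 := 587336777) (W3 := 62277027) (N0 := 3) (En := eng) (mo := mog) (C1 := cd1q0) (C2 := cd5q3) (C3 := pd3)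
    rfl k0_mm_033

noncomputable def f_mm_101 : ℕ → ℕ → ℕ → ℕ → Bool := onCell 536870912 536870912 0 536870912 587336777 62277027
    (rowB 3 eng mog cd1q1 cd5q1 pd0 1 false false false .npn 1 0 1 (qsf 536870912 536870912 536870912 536870912 0) ndB1q1 ndB5q1 pcB0 Cut.none Ext.none)

def k0_mm_101 : ∃ t, chk3 f_mm_101 t 1 1 1 = true :=
  ⟨(b (l 3) (l 3)), by decide +kernel⟩

theorem c_mm_101 : CertB 536870912 536870912 536870912 536870912 587336777 62277027 3 eng mog cd1q1 cd5q1 pd0 false false false .npn 1 0 1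
    ndB1q1 ndB5q1 pcB0 Cut.none Ext.none :=
  certB1 (fam := false) (s1 := false) (s2 := false) (a := 1) (b := 0) (c := 1) (cn := .npn) (n1 := ndB1q1) (n2 := ndB5q1) (pc := pcB0) (cut := Cut.none) (xt := Ext.none) (P1 := 536870912) (W1 := 536870912) (P2 := 536870912) (W2 := 536870912) (P3 := 587336777) (W3 := 62277027) (N0 := 3) (En := eng) (mo := mog) (C1 := cd1q1) (C2 := cd5q1) (C3 := pd0)
    rfl (fun _ => rfl) k0_mm_101

noncomputable def f_mm_102 : ℕ → ℕ → ℕ → ℕ → Bool := onCell 536870912 536870912 1073741824 536870912 587336777 62277027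
    (rowB 3 eng mog cd1q1 cd5q2 pd0 0 false false false .npp 1 0 2 (qsf 536870912 536870912 1073741824 536870912 0) ndB1q1 ndB5q2 pcB0 Cut.none Ext.none)

def k0_mm_102 : ∃ t, chk3 f_mm_102 t 1 1 1 = true :=
  ⟨(l 3), by decide +kernel⟩

theorem c_mm_102 : CertB 536870912 536870912 1073741824 536870912 587336777 62277027 3 eng mog cd1q1 cd5q2 pd0 false false false .npp 1 0 2
    ndB1q1 ndB5q2 pcB0 Cut.none Ext.none :=
  certB0 (fam := false) (s1 := false) (s2 := false) (a := 1) (b := 0) (c := 2) (cn := .npp) (n1 := ndB1q1) (n2 := ndB5q2) (pc := pcB0) (cut := Cut.none) (xt := Ext.none) (P1 := 536870912) (W1 := 536870912) (P2 := 1073741824) (W2 := 536870912) (P3 := 587336777) (W3 := 62277027) (N0 := 3) (En := eng) (mo := mog) (C1 := cd1q1) (C2 := cd5q2) (C3 := pd0)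
    rfl k0_mm_102

noncomputable def f_mm_112 : ℕ → ℕ → ℕ → ℕ → Bool := onCell 536870912 536870912 1073741824 536870912 587336777 62277027
    (rowB 3 eng mog cd1q1 cd5q2 pd1 0 false false false .dn 1 1 2 (qsf 536870912 536870912 1073741824 536870912 1) ndB1q1 ndB5q2 pcB1 Cut.none Ext.none)

def k0_mm_112 : ∃ t, chk3 f_mm_112 t 1 1 1 = true :=
  ⟨(l 3), by decide +kernel⟩

theorem c_mm_112 : CertB 536870912 536870912 1073741824 536870912 587336777 62277027 3 eng mog cd1q1 cd5q2 pd1 false false false .dn 1 1 2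
    ndB1q1 ndB5q2 pcB1 Cut.none Ext.none :=
  certB0 (fam := false) (s1 := false) (s2 := false) (a := 1) (b := 1) (c := 2) (cn := .dn) (n1 := ndB1q1) (n2 := ndB5q2) (pc := pcB1) (cut := Cut.none) (xt := Ext.none) (P1 := 536870912) (W1 := 536870912) (P2 := 1073741824) (W2 := 536870912) (P3 := 587336777) (W3 := 62277027) (N0 := 3) (En := eng) (mo := mog) (C1 := cd1q1) (C2 := cd5q2) (C3 := pd1)
    rfl k0_mm_112

noncomputable def f_mm_113 : ℕ → ℕ → ℕ → ℕ → Bool := onCell 536870912 536870912 0 1230186008 587336777 62277027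
    (rowB 3 eng mog cd1q1 cd5q3 pd1 0 false false false .nn 1 1 3 (qsf 536870912 536870912 0 1230186008 1) ndB1q1 ndB5q3 pcB1 Cut.none Ext.none)

def k0_mm_113 : ∃ t, chk3 f_mm_113 t 1 1 1 = true :=
  ⟨(b (l 5) (l 5)), by decide +kernel⟩

theorem c_mm_113 : CertB 536870912 536870912 0 1230186008 587336777 62277027 3 eng mog cd1q1 cd5q3 pd1 false false false .nn 1 1 3
    ndB1q1 ndB5q3 pcB1 Cut.none Ext.none :=
  certB0 (fam := false) (s1 := false) (s2 := false) (a := 1) (b := 1) (c := 3) (cn := .nn) (n1 := ndB1q1) (n2 := ndB5q3) (pc := pcB1) (cut := Cut.none) (xt := Ext.none) (P1 := 536870912) (W1 := 536870912) (P2 := 0) (W2 := 1230186008) (P3 := 587336777) (W3 := 62277027) (N0 := 3) (En := eng) (mo := mog) (C1 := cd1q1) (C2 := cd5q3) (C3 := pd1)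
    rfl k0_mm_113

noncomputable def f_mm_123 : ℕ → ℕ → ℕ → ℕ → Bool := onCell 536870912 536870912 0 1230186008 587336777 62277027
    (rowB 3 eng mog cd1q1 cd5q3 pd2 0 false false false .npn 1 2 3 (qsf 536870912 536870912 0 1230186008 2) ndB1q1 ndB5q3 pcB2 Cut.none Ext.none)

def k0_mm_123 : ∃ t, chk3 f_mm_123 t 1 1 1 = true :=
  ⟨(b (l 5) (l 5)), by decide +kernel⟩

theorem c_mm_123 : CertB 536870912 536870912 0 1230186008 587336777 62277027 3 eng mog cd1q1 cd5q3 pd2 false false false .npn 1 2 3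
    ndB1q1 ndB5q3 pcB2 Cut.none Ext.none :=
  certB0 (fam := false) (s1 := false) (s2 := false) (a := 1) (b := 2) (c := 3) (cn := .npn) (n1 := ndB1q1) (n2 := ndB5q3) (pc := pcB2) (cut := Cut.none) (xt := Ext.none) (P1 := 536870912) (W1 := 536870912) (P2 := 0) (W2 := 1230186008) (P3 := 587336777) (W3 := 62277027) (N0 := 3) (En := eng) (mo := mog) (C1 := cd1q1) (C2 := cd5q3) (C3 := pd2)
    rfl k0_mm_123

noncomputable def f_mm_133 : ℕ → ℕ → ℕ → ℕ → Bool := onCell 536870912 536870912 0 1230186008 587336777 62277027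
    (rowB 3 eng mog cd1q1 cd5q3 pd3 0 false false false .dn 1 3 3 (qsf 536870912 536870912 0 1230186008 3) ndB1q1 ndB5q3 pcB3 Cut.none Ext.none)

def k0_mm_133 : ∃ t, chk3 f_mm_133 t 1 1 1 = true :=
  ⟨(b (l 5) (l 1)), by decide +kernel⟩

theorem c_mm_133 : CertB 536870912 536870912 0 1230186008 587336777 62277027 3 eng mog cd1q1 cd5q3 pd3 false false false .dn 1 3 3
    ndB1q1 ndB5q3 pcB3 Cut.none Ext.none :=
  certB0 (fam := false) (s1 := false) (s2 := false) (a := 1) (b := 3) (c := 3) (cn := .dn) (n1 := ndB1q1) (n2 := ndB5q3) (pc := pcB3) (cut := Cut.none) (xt := Ext.none) (P1 := 536870912) (W1 := 536870912) (P2 := 0) (W2 := 1230186008) (P3 := 587336777) (W3 := 62277027) (N0 := 3) (En := eng) (mo := mog) (C1 := cd1q1) (C2 := cd5q3) (C3 := pd3)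
    rfl k0_mm_133

noncomputable def f_mm_202_a : ℕ → ℕ → ℕ → ℕ → Bool := onCell 0 536870912 1073741824 536870912 587336777 62277027
    (rowB 3 eng mog cd1q2a cd5q2 pd0 0 false false false .pp 2 0 2 (qsf 0 536870912 1073741824 536870912 0) ndB1q2a ndB5q2 pcB0 Cut.none Ext.none)

def k0_mm_202_a : ∃ t, chk3 f_mm_202_a t 1 1 1 = true :=
  ⟨(l 3), by decide +kernel⟩

theorem c_mm_202_a : CertB 0 536870912 1073741824 536870912 587336777 62277027 3 eng mog cd1q2a cd5q2 pd0 false false false .pp 2 0 2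
    ndB1q2a ndB5q2 pcB0 Cut.none Ext.none :=
  certB0 (fam := false) (s1 := false) (s2 := false) (a := 2) (b := 0) (c := 2) (cn := .pp) (n1 := ndB1q2a) (n2 := ndB5q2) (pc := pcB0) (cut := Cut.none) (xt := Ext.none) (P1 := 0) (W1 := 536870912) (P2 := 1073741824) (W2 := 536870912) (P3 := 587336777) (W3 := 62277027) (N0 := 3) (En := eng) (mo := mog) (C1 := cd1q2a) (C2 := cd5q2) (C3 := pd0)
    rfl k0_mm_202_a

noncomputable def f_mm_202_b : ℕ → ℕ → ℕ → ℕ → Bool := onCell 1239849684 370763052 1073741824 536870912 587336777 62277027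
    (rowB 3 eng mog cd1q2b cd5q2 pd0 0 false false false .pp 2 0 2 (qsf 1239849684 370763052 1073741824 536870912 0) ndB1q2b ndB5q2 pcB0 Cut.none Ext.none)

def k0_mm_202_b : ∃ t, chk3 f_mm_202_b t 1 1 1 = true :=
  ⟨(l 3), by decide +kernel⟩

theorem c_mm_202_b : CertB 1239849684 370763052 1073741824 536870912 587336777 62277027 3 eng mog cd1q2b cd5q2 pd0 false false false .pp 2 0 2
    ndB1q2b ndB5q2 pcB0 Cut.none Ext.none :=
  certB0 (fam := false) (s1 := false) (s2 := false) (a := 2) (b := 0) (c := 2) (cn := .pp) (n1 := ndB1q2b) (n2 := ndB5q2) (pc := pcB0) (cut := Cut.none) (xt := Ext.none) (P1 := 1239849684) (W1 := 370763052) (P2 := 1073741824) (W2 := 536870912) (P3 := 587336777) (W3 := 62277027) (N0 := 3) (En := eng) (mo := mog) (C1 := cd1q2b) (C2 := cd5q2) (C3 := pd0)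
    rfl k0_mm_202_b

noncomputable def f_mm_203_a : ℕ → ℕ → ℕ → ℕ → Bool := onCell 0 536870912 0 1230186008 587336777 62277027
    (rowB 3 eng mog cd1q2a cd5q3 pd0 0 false false false .up 2 0 3 (qsf 0 536870912 0 1230186008 0) ndB1q2a ndB5q3 pcB0 Cut.none Ext.none)

def k0_mm_203_a : ∃ t, chk3 f_mm_203_a t 1 1 1 = true :=
  ⟨(b (l 2) (l 3)), by decide +kernel⟩

theorem c_mm_203_a : CertB 0 536870912 0 1230186008 587336777 62277027 3 eng mog cd1q2a cd5q3 pd0 false false false .up 2 0 3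
    ndB1q2a ndB5q3 pcB0 Cut.none Ext.none :=
  certB0 (fam := false) (s1 := false) (s2 := false) (a := 2) (b := 0) (c := 3) (cn := .up) (n1 := ndB1q2a) (n2 := ndB5q3) (pc := pcB0) (cut := Cut.none) (xt := Ext.none) (P1 := 0) (W1 := 536870912) (P2 := 0) (W2 := 1230186008) (P3 := 587336777) (W3 := 62277027) (N0 := 3) (En := eng) (mo := mog) (C1 := cd1q2a) (C2 := cd5q3) (C3 := pd0)
    rfl k0_mm_203_a

noncomputable def f_mm_203_b : ℕ → ℕ → ℕ → ℕ → Bool := onCell 1239849684 370763052 0 1230186008 587336777 62277027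
    (rowB 3 eng mog cd1q2b cd5q3 pd0 0 false false false .up 2 0 3 (qsf 1239849684 370763052 0 1230186008 0) ndB1q2b ndB5q3 pcB0 Cut.none Ext.none)

def k0_mm_203_b : ∃ t, chk3 f_mm_203_b t 1 1 1 = true :=
  ⟨(b (l 3) (l 3)), by decide +kernel⟩

theorem c_mm_203_b : CertB 1239849684 370763052 0 1230186008 587336777 62277027 3 eng mog cd1q2b cd5q3 pd0 false false false .up 2 0 3
    ndB1q2b ndB5q3 pcB0 Cut.none Ext.none :=
  certB0 (fam := false) (s1 := false) (s2 := false) (a := 2) (b := 0) (c := 3) (cn := .up) (n1 := ndB1q2b) (n2 := ndB5q3) (pc := pcB0) (cut := Cut.none) (xt := Ext.none) (P1 := 1239849684) (W1 := 370763052) (P2 := 0) (W2 := 1230186008) (P3 := 587336777) (W3 := 62277027) (N0 := 3) (En := eng) (mo := mog) (C1 := cd1q2b) (C2 := cd5q3) (C3 := pd0)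
    rfl k0_mm_203_b

noncomputable def f_mm_213_a : ℕ → ℕ → ℕ → ℕ → Bool := onCell 0 536870912 0 1230186008 587336777 62277027
    (rowB 3 eng mog cd1q2a cd5q3 pd1 0 false false false .pnn 2 1 3 (qsf 0 536870912 0 1230186008 1) ndB1q2a ndB5q3 pcB1 Cut.none Ext.none)

def k0_mm_213_a : ∃ t, chk3 f_mm_213_a t 1 1 1 = true :=
  ⟨(b (a (l 3) (l 5)) (l 3)), by decide +kernel⟩

theorem c_mm_213_a : CertB 0 536870912 0 1230186008 587336777 62277027 3 eng mog cd1q2a cd5q3 pd1 false false false .pnn 2 1 3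
    ndB1q2a ndB5q3 pcB1 Cut.none Ext.none :=
  certB0 (fam := false) (s1 := false) (s2 := false) (a := 2) (b := 1) (c := 3) (cn := .pnn) (n1 := ndB1q2a) (n2 := ndB5q3) (pc := pcB1) (cut := Cut.none) (xt := Ext.none) (P1 := 0) (W1 := 536870912) (P2 := 0) (W2 := 1230186008) (P3 := 587336777) (W3 := 62277027) (N0 := 3) (En := eng) (mo := mog) (C1 := cd1q2a) (C2 := cd5q3) (C3 := pd1)
    rfl k0_mm_213_a

noncomputable def f_mm_213_b : ℕ → ℕ → ℕ → ℕ → Bool := onCell 1239849684 370763052 0 1230186008 587336777 62277027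
    (rowB 3 eng mog cd1q2b cd5q3 pd1 0 false false false .pnn 2 1 3 (qsf 1239849684 370763052 0 1230186008 1) ndB1q2b ndB5q3 pcB1 Cut.none Ext.none)

def k0_mm_213_b : ∃ t, chk3 f_mm_213_b t 1 1 1 = true :=
  ⟨(b (l 3) (l 3)), by decide +kernel⟩

theorem c_mm_213_b : CertB 1239849684 370763052 0 1230186008 587336777 62277027 3 eng mog cd1q2b cd5q3 pd1 false false false .pnn 2 1 3
    ndB1q2b ndB5q3 pcB1 Cut.none Ext.none :=
  certB0 (fam := false) (s1 := false) (s2 := false) (a := 2) (b := 1) (c := 3) (cn := .pnn) (n1 := ndB1q2b) (n2 := ndB5q3) (pc := pcB1) (cut := Cut.none) (xt := Ext.none) (P1 := 1239849684) (W1 := 370763052) (P2 := 0) (W2 := 1230186008) (P3 := 587336777) (W3 := 62277027) (N0 := 3) (En := eng) (mo := mog) (C1 := cd1q2b) (C2 := cd5q3) (C3 := pd1)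
    rfl k0_mm_213_b

noncomputable def f_mm_303 : ℕ → ℕ → ℕ → ℕ → Bool := onCell 1610612736 536870912 0 1230186008 587336777 62277027
    (rowB 3 eng mog cd1q3 cd5q3 pd0 0 false false false .npn 3 0 3 (qsf 1610612736 536870912 0 1230186008 0) ndB1q3 ndB5q3 pcB0 Cut.none Ext.none)

def k0_mm_303 : ∃ t, chk3 f_mm_303 t 1 1 1 = true :=
  ⟨(b (l 3) (l 3)), by decide +kernel⟩

theorem c_mm_303 : CertB 1610612736 536870912 0 1230186008 587336777 62277027 3 eng mog cd1q3 cd5q3 pd0 false false false .npn 3 0 3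
    ndB1q3 ndB5q3 pcB0 Cut.none Ext.none :=
  certB0 (fam := false) (s1 := false) (s2 := false) (a := 3) (b := 0) (c := 3) (cn := .npn) (n1 := ndB1q3) (n2 := ndB5q3) (pc := pcB0) (cut := Cut.none) (xt := Ext.none) (P1 := 1610612736) (W1 := 536870912) (P2 := 0) (W2 := 1230186008) (P3 := 587336777) (W3 := 62277027) (N0 := 3) (En := eng) (mo := mog) (C1 := cd1q3) (C2 := cd5q3) (C3 := pd0)
    rfl k0_mm_303

noncomputable def f_mm_313 : ℕ → ℕ → ℕ → ℕ → Bool := onCell 1610612736 536870912 0 1230186008 587336777 62277027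
    (rowB 3 eng mog cd1q3 cd5q3 pd1 0 false false false .dn 3 1 3 (qsf 1610612736 536870912 0 1230186008 1) ndB1q3 ndB5q3 pcB1 Cut.none Ext.none)

def k0_mm_313 : ∃ t, chk3 f_mm_313 t 1 1 1 = true :=
  ⟨(b (l 3) (l 1)), by decide +kernel⟩

theorem c_mm_313 : CertB 1610612736 536870912 0 1230186008 587336777 62277027 3 eng mog cd1q3 cd5q3 pd1 false false false .dn 3 1 3
    ndB1q3 ndB5q3 pcB1 Cut.none Ext.none :=
  certB0 (fam := false) (s1 := false) (s2 := false) (a := 3) (b := 1) (c := 3) (cn := .dn) (n1 := ndB1q3) (n2 := ndB5q3) (pc := pcB1) (cut := Cut.none) (xt := Ext.none) (P1 := 1610612736) (W1 := 536870912) (P2 := 0) (W2 := 1230186008) (P3 := 587336777) (W3 := 62277027) (N0 := 3) (En := eng) (mo := mog) (C1 := cd1q3) (C2 := cd5q3) (C3 := pd1)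
    rfl k0_mm_313

end Pool.Agent.Strip051.G.I5470_6050.Tab.C.BB15

namespace Pool.Agent.Strip051.G.I5470_6050.Tab.C.BB16

open Pool.Agent.Strip051.PB Pool.Agent.Strip051.PB.T
open Pool.Agent.Strip051.G.I5470_6050.Tab

noncomputable def f_pp_001 : ℕ → ℕ → ℕ → ℕ → Bool := onCell 0 536870912 0 536870912 587336777 62277027
    (rowB 3 eng mog cd1q0 cd6q1 pd0 1 false true true .up 0 0 1 (qsf 0 536870912 536870912 536870912 0) ndB1q0 ndB6q1 pcB0 Cut.none Ext.none)

def k0_pp_001 : ∃ t, chk3 f_pp_001 t 1 1 1 = true :=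
  ⟨(l 3), by decide +kernel⟩

theorem c_pp_001 : CertB 0 536870912 536870912 536870912 587336777 62277027 3 eng mog cd1q0 cd6q1 pd0 false true true .up 0 0 1
    ndB1q0 ndB6q1 pcB0 Cut.none Ext.none :=
  certB1 (fam := false) (s1 := true) (s2 := true) (a := 0) (b := 0) (c := 1) (cn := .up) (n1 := ndB1q0) (n2 := ndB6q1) (pc := pcB0) (cut := Cut.none) (xt := Ext.none) (P1 := 0) (W1 := 536870912) (P2 := 536870912) (W2 := 536870912) (P3 := 587336777) (W3 := 62277027) (N0 := 3) (En := eng) (mo := mog) (C1 := cd1q0) (C2 := cd6q1) (C3 := pd0)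
    rfl (fun _ => rfl) k0_pp_001

noncomputable def cut_pp_011 : Cut := Cut.of [[⟨0, 0, 0, 67108864⟩, ⟨1, 1, 0, 67108864⟩, ⟨2, 1, 0, 67108864⟩]]

noncomputable def f_pp_011 : ℕ → ℕ → ℕ → ℕ → Bool := onCell 0 536870912 536870912 536870912 587336777 62277027
    (rowB 3 eng mog cd1q0 cd6q1 pd1 1 false true true .pnn 0 1 1 (qsf 0 536870912 536870912 536870912 1) ndB1q0 ndB6q1 pcB1 cut_pp_011 Ext.none)

def k0_pp_011 : ∃ t, chk3 f_pp_011 t 1 1 1 = true :=
  ⟨(b (l 3) (b (l 3) (a (b (l 3) (a (a (b (l 3) (a (l 6) (l 3))) (l 3)) (l 2))) (l 2)))), by decide +kernel⟩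

theorem c_pp_011 : CertB 0 536870912 536870912 536870912 587336777 62277027 3 eng mog cd1q0 cd6q1 pd1 false true true .pnn 0 1 1
    ndB1q0 ndB6q1 pcB1 cut_pp_011 Ext.none :=
  certB1 (fam := false) (s1 := true) (s2 := true) (a := 0) (b := 1) (c := 1) (cn := .pnn) (n1 := ndB1q0) (n2 := ndB6q1) (pc := pcB1) (cut := cut_pp_011) (xt := Ext.none) (P1 := 0) (W1 := 536870912) (P2 := 536870912) (W2 := 536870912) (P3 := 587336777) (W3 := 62277027) (N0 := 3) (En := eng) (mo := mog) (C1 := cd1q0) (C2 := cd6q1) (C3 := pd1)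
    rfl (fun _ => rfl) k0_pp_011

noncomputable def f_pp_012 : ℕ → ℕ → ℕ → ℕ → Bool := onCell 0 536870912 536870912 536870912 587336777 62277027
    (rowB 3 eng mog cd1q0 cd6q2 pd1 1 false true true .pnp 0 1 2 (qsf 0 536870912 1073741824 536870912 1) ndB1q0 ndB6q2 pcB1 Cut.none Ext.none)

def k0_pp_012 : ∃ t, chk3 f_pp_012 t 1 1 1 = true :=
  ⟨(l 3), by decide +kernel⟩

theorem c_pp_012 : CertB 0 536870912 1073741824 536870912 587336777 62277027 3 eng mog cd1q0 cd6q2 pd1 false true true .pnp 0 1 2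
    ndB1q0 ndB6q2 pcB1 Cut.none Ext.none :=
  certB1 (fam := false) (s1 := true) (s2 := true) (a := 0) (b := 1) (c := 2) (cn := .pnp) (n1 := ndB1q0) (n2 := ndB6q2) (pc := pcB1) (cut := Cut.none) (xt := Ext.none) (P1 := 0) (W1 := 536870912) (P2 := 1073741824) (W2 := 536870912) (P3 := 587336777) (W3 := 62277027) (N0 := 3) (En := eng) (mo := mog) (C1 := cd1q0) (C2 := cd6q2) (C3 := pd1)
    rfl (fun _ => rfl) k0_pp_012

noncomputable def f_pp_022 : ℕ → ℕ → ℕ → ℕ → Bool := onCell 0 536870912 1073741824 536870912 587336777 62277027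
    (rowB 3 eng mog cd1q0 cd6q2 pd2 1 false true true .pp 0 2 2 (qsf 0 536870912 1073741824 536870912 2) ndB1q0 ndB6q2 pcB2 Cut.none Ext.none)

def k0_pp_022 : ∃ t, chk3 f_pp_022 t 2 1 1 = true :=
  ⟨(b (b (l 3) (b (b (b (a (l 3) (l 3)) (b (a (a (a (b (a (l 16481456) (l 16488904)) (a (l 16473432) (l 16460104))) (b (l 3) (l 16491784))) (b (l 3) (l 85529805703))) (l 3)) (a (b (a (a (b (a (l 16467440) (l 16475176)) (l 16467312)) (b (l 16485664) (l 16481560))) (b (l 16524136) (l 16540768))) (a (a (b (a (l 16459440) (l 16467208)) (b (b (b (l 16440088) (a (l 16456656) (l 16464392))) (l 16438808)) (l 16437320))) (b (l 16477408) (l 16473224))) (b (b (l 16495552) (l 16556280)) (l 16532016)))) (b (a (b (l 3) (a (l 16522960) (l 3))) (l 3)) (a (b (b (l 852718365959) (a (l 16517520) (l 16535256))) (a (l 16514224) (l 16531608))) (b (a (b (l 3) (l 16546848)) (l 3)) (l 16575224))))))) (a (a (a (a (b (l 16437544) (l 16405216)) (l 16428440)) (l 16437288)) (a (l 16449984)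 (l 16465960))) (a (a (l 16524688) (c (l 16546120) (l 16547304))) (a (l 16534848) (l 16563960))))) (a (a (a (b (l 16359200) (l 16301528)) (l 16391328)) (a (b (l 16395448) (l 16347376)) (b (l 16416424) (a (l 16369736) (l 16390120))))) (a (b (a (l 16445432) (l 16481496)) (a (l 16423400) (l 16466312))) (b (a (l 16517256) (l 16551096)) (l 16526600)))))) (b (a (a (b (a (b (l 16249328) (l 16204176)) (b (l 16276872) (l 16245360))) (a (b (l 16174848) (l 16166512)) (l 16233096))) (b (a (b (l 16313528) (l 16297840)) (l 16398008)) (a (l 16298728) (l 16363744)))) (b (a (a (l 16409912) (l 16460456)) (b (l 16526896) (l 16535848))) (a (l 16457528) (l 16564168)))) (a (a (b (a (l 16183112) (l 16264696)) (l 16304576)) (b (l 16401400) (l 16477200))) (b (a (l 16521248) (l 2)) (l 2))))), by decide +kernel⟩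

def k1_pp_022 : ∃ t, chk3 f_pp_022 t 3 1 1 = true :=
  ⟨(b (b (l 3) (a (b (b (b (l 3) (b (l 3) (b (a (l 3) (b (l 3) (a (l 3) (l 57545640903)))) (a (b (a (l 3) (b (l 3) (l 16618328))) (a (l 16596744) (l 16617952))) (b (b (a (l 16636272) (l 16650312)) (b (l 51103224983) (a (l 16635832) (l 16650240)))) (a (l 16636008) (c (l 45197646023) (l 44660757223)))))))) (a (a (l 16590336) (l 16613784)) (a (l 16634480) (l 16651856)))) (a (b (l 16596168) (l 16596160)) (b (l 16644168) (l 2)))) (b (b (b (l 3) (l 2)) (l 2)) (l 2)))) (b (a (b (a (l 16609088) (l 2)) (l 2)) (l 2)) (l 2))), by decide +kernel⟩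

theorem s2_pp_022 : ∃ t, chk3 f_pp_022 t 1 1 1 = true := ex3_a k0_pp_022 k1_pp_022

theorem c_pp_022 : CertB 0 536870912 1073741824 536870912 587336777 62277027 3 eng mog cd1q0 cd6q2 pd2 false true true .pp 0 2 2
    ndB1q0 ndB6q2 pcB2 Cut.none Ext.none :=
  certB1 (fam := false) (s1 := true) (s2 := true) (a := 0) (b := 2) (c := 2) (cn := .pp) (n1 := ndB1q0) (n2 := ndB6q2) (pc := pcB2) (cut := Cut.none) (xt := Ext.none) (P1 := 0) (W1 := 536870912) (P2 := 1073741824) (W2 := 536870912) (P3 := 587336777) (W3 := 62277027) (N0 := 3) (En := eng) (mo := mog) (C1 := cd1q0) (C2 := cd6q2) (C3 := pd2)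
    rfl (fun _ => rfl) s2_pp_022

noncomputable def f_pp_023 : ℕ → ℕ → ℕ → ℕ → Bool := onCell 1073741824 536870912 0 1230186008 587336777 62277027
    (rowB 3 eng mog cd1q0 cd6q3 pd2 2 false true true .up 0 2 3 (qsf 0 536870912 0 1230186008 2) ndB1q0 ndB6q3 pcB2 Cut.none Ext.none)

def k0_pp_023 : ∃ t, chk3 f_pp_023 t 1 1 1 = true :=
  ⟨(a (b (l 2) (b (a (l 2) (a (l 2) (b (l 2) (l 16719208)))) (b (a (l 2) (b (a (a (l 2) (l 16718664)) (l 16696208)) (a (a (b (l 2) (a (a (l 3) (l 16725792)) (a (l 16714544) (a (l 16705944) (a (l 16703024) (l 16702560)))))) (l 16695024)) (l 16657488)))) (a (l 3) (a (a (a (l 3) (a (b (a (l 16678416) (l 16669608)) (l 3)) (b (a (b (l 16678864) (l 16646432)) (a (l 16658176) (b (l 16673056) (l 16634696)))) (a (b (l 16625184) (a (l 3) (l 16646680))) (b (a (l 16625048) (l 16629512)) (a (a (l 16645496) (l 16645280)) (l 16646128))))))) (b (l 16631192) (b (l 16633872) (l 16639472)))) (b (l 16633776) (b (l 16618784) (l 16606824))))))))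 (b (a (l 2) (b (a (l 2) (l 16703296)) (a (l 16742536) (l 16754392)))) (b (a (b (a (l 2) (l 16769608)) (a (l 16735544) (l 16754408))) (b (l 16768336) (a (l 16765864) (l 16733000)))) (a (b (a (l 16674552) (l 16673288)) (b (a (l 16614824) (l 16578048)) (a (l 16563144) (l 16502864)))) (b (a (l 16660856) (l 16632816)) (b (a (l 16534584) (l 16489056)) (a (l 16438392) (l 16372920)))))))), by decide +kernel⟩

theorem c_pp_023 : CertB 0 536870912 0 1230186008 587336777 62277027 3 eng mog cd1q0 cd6q3 pd2 false true true .up 0 2 3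
    ndB1q0 ndB6q3 pcB2 Cut.none Ext.none :=
  certB2 (fam := false) (s1 := true) (s2 := true) (a := 0) (b := 2) (c := 3) (cn := .up) (n1 := ndB1q0) (n2 := ndB6q3) (pc := pcB2) (cut := Cut.none) (xt := Ext.none) (P1 := 0) (W1 := 536870912) (P2 := 0) (W2 := 1230186008) (P3 := 587336777) (W3 := 62277027) (N0 := 3) (En := eng) (mo := mog) (C1 := cd1q0) (C2 := cd6q3) (C3 := pd2)
    rfl (fun _ => rfl) k0_pp_023

noncomputable def f_pp_033 : ℕ → ℕ → ℕ → ℕ → Bool := onCell 1610612736 536870912 0 1230186008 587336777 62277027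
    (rowB 3 eng mog cd1q0 cd6q3 pd3 2 false true true .pnn 0 3 3 (qsf 0 536870912 0 1230186008 3) ndB1q0 ndB6q3 pcB3 Cut.none Ext.none)

def k0_pp_033 : ∃ t, chk3 f_pp_033 t 1 1 1 = true :=
  ⟨(b (b (a (a (a (b (l 16699128) (l 16714680)) (l 16688848)) (a (l 16670272) (l 16643448))) (a (a (l 16615016) (l 4)) (l 4))) (a (a (a (a (l 16913112) (l 16712328)) (a (l 16702640) (l 16690112))) (a (b (l 16666736) (l 16827992)) (b (l 16639224) (l 16623224)))) (a (a (b (l 16612104) (l 16597760)) (a (l 16586248) (l 16576280))) (a (a (l 16566168) (l 4)) (l 4))))) (b (a (a (a (b (a (l 16721432) (l 16687000)) (a (b (l 16681160) (l 16641144)) (l 16633400))) (a (b (l 16674200) (l 16614872)) (b (l 16659752) (l 16597344)))) (a (b (a (l 16642360) (l 16621488)) (a (l 16578760) (l 16559136))) (b (l 16719488) (b (l 16551240) (l 16512864))))) (a (a (b (l 16569368) (b (l 16529752) (l 16490464))) (b (a (l 16564272) (l 16563144)) (b (l 16526432) (l 1)))) (b (a (a (l 448857702615)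 (l 1)) (l 1)) (l 1)))) (a (b (a (b (a (a (l 16581680) (l 16560536)) (a (l 16538536) (l 16518144))) (l 16464528)) (a (b (l 16490112) (l 16404432)) (b (l 16454384) (l 1)))) (a (b (l 16342256) (l 48350995911)) (b (a (l 16277296) (l 1)) (l 1)))) (l 1)))), by decide +kernel⟩

theorem c_pp_033 : CertB 0 536870912 0 1230186008 587336777 62277027 3 eng mog cd1q0 cd6q3 pd3 false true true .pnn 0 3 3
    ndB1q0 ndB6q3 pcB3 Cut.none Ext.none :=
  certB2 (fam := false) (s1 := true) (s2 := true) (a := 0) (b := 3) (c := 3) (cn := .pnn) (n1 := ndB1q0) (n2 := ndB6q3) (pc := pcB3) (cut := Cut.none) (xt := Ext.none) (P1 := 0) (W1 := 536870912) (P2 := 0) (W2 := 1230186008) (P3 := 587336777) (W3 := 62277027) (N0 := 3) (En := eng) (mo := mog) (C1 := cd1q0) (C2 := cd6q3) (C3 := pd3)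
    rfl (fun _ => rfl) k0_pp_033

noncomputable def f_pp_101 : ℕ → ℕ → ℕ → ℕ → Bool := onCell 536870912 536870912 0 536870912 587336777 62277027
    (rowB 3 eng mog cd1q1 cd6q1 pd0 1 false true true .npn 1 0 1 (qsf 536870912 536870912 536870912 536870912 0) ndB1q1 ndB6q1 pcB0 Cut.none Ext.none)

def k0_pp_101 : ∃ t, chk3 f_pp_101 t 1 1 1 = true :=
  ⟨(l 3), by decide +kernel⟩

theorem c_pp_101 : CertB 536870912 536870912 536870912 536870912 587336777 62277027 3 eng mog cd1q1 cd6q1 pd0 false true true .npn 1 0 1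
    ndB1q1 ndB6q1 pcB0 Cut.none Ext.none :=
  certB1 (fam := false) (s1 := true) (s2 := true) (a := 1) (b := 0) (c := 1) (cn := .npn) (n1 := ndB1q1) (n2 := ndB6q1) (pc := pcB0) (cut := Cut.none) (xt := Ext.none) (P1 := 536870912) (W1 := 536870912) (P2 := 536870912) (W2 := 536870912) (P3 := 587336777) (W3 := 62277027) (N0 := 3) (En := eng) (mo := mog) (C1 := cd1q1) (C2 := cd6q1) (C3 := pd0)
    rfl (fun _ => rfl) k0_pp_101

noncomputable def f_pp_102 : ℕ → ℕ → ℕ → ℕ → Bool := onCell 536870912 536870912 1073741824 536870912 587336777 62277027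
    (rowB 3 eng mog cd1q1 cd6q2 pd0 0 false true true .npp 1 0 2 (qsf 536870912 536870912 1073741824 536870912 0) ndB1q1 ndB6q2 pcB0 Cut.none Ext.none)

def k0_pp_102 : ∃ t, chk3 f_pp_102 t 1 1 1 = true :=
  ⟨(l 3), by decide +kernel⟩

theorem c_pp_102 : CertB 536870912 536870912 1073741824 536870912 587336777 62277027 3 eng mog cd1q1 cd6q2 pd0 false true true .npp 1 0 2
    ndB1q1 ndB6q2 pcB0 Cut.none Ext.none :=
  certB0 (fam := false) (s1 := true) (s2 := true) (a := 1) (b := 0) (c := 2) (cn := .npp) (n1 := ndB1q1) (n2 := ndB6q2) (pc := pcB0) (cut := Cut.none) (xt := Ext.none) (P1 := 536870912) (W1 := 536870912) (P2 := 1073741824) (W2 := 536870912) (P3 := 587336777) (W3 := 62277027) (N0 := 3) (En := eng) (mo := mog) (C1 := cd1q1) (C2 := cd6q2) (C3 := pd0)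
    rfl k0_pp_102

noncomputable def f_pp_112 : ℕ → ℕ → ℕ → ℕ → Bool := onCell 536870912 536870912 1073741824 536870912 587336777 62277027
    (rowB 3 eng mog cd1q1 cd6q2 pd1 0 false true true .dn 1 1 2 (qsf 536870912 536870912 1073741824 536870912 1) ndB1q1 ndB6q2 pcB1 Cut.none Ext.none)

def k0_pp_112 : ∃ t, chk3 f_pp_112 t 1 1 1 = true :=
  ⟨(l 3), by decide +kernel⟩

theorem c_pp_112 : CertB 536870912 536870912 1073741824 536870912 587336777 62277027 3 eng mog cd1q1 cd6q2 pd1 false true true .dn 1 1 2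
    ndB1q1 ndB6q2 pcB1 Cut.none Ext.none :=
  certB0 (fam := false) (s1 := true) (s2 := true) (a := 1) (b := 1) (c := 2) (cn := .dn) (n1 := ndB1q1) (n2 := ndB6q2) (pc := pcB1) (cut := Cut.none) (xt := Ext.none) (P1 := 536870912) (W1 := 536870912) (P2 := 1073741824) (W2 := 536870912) (P3 := 587336777) (W3 := 62277027) (N0 := 3) (En := eng) (mo := mog) (C1 := cd1q1) (C2 := cd6q2) (C3 := pd1)
    rfl k0_pp_112

noncomputable def f_pp_113 : ℕ → ℕ → ℕ → ℕ → Bool := onCell 536870912 536870912 0 1230186008 587336777 62277027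
    (rowB 3 eng mog cd1q1 cd6q3 pd1 2 false true true .nn 1 1 3 (qsf 536870912 536870912 0 1230186008 1) ndB1q1 ndB6q3 pcB1 Cut.none Ext.none)

def k0_pp_113 : ∃ t, chk3 f_pp_113 t 1 1 1 = true :=
  ⟨(a (b (l 2) (b (l 3) (a (b (l 2) (l 3)) (l 3)))) (b (a (l 2) (b (a (l 2) (a (l 2) (b (a (l 2) (b (l 1092096232439) (l 407115948855))) (l 3)))) (l 3))) (b (l 3) (l 3)))), by decide +kernel⟩

theorem c_pp_113 : CertB 536870912 536870912 0 1230186008 587336777 62277027 3 eng mog cd1q1 cd6q3 pd1 false true true .nn 1 1 3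
    ndB1q1 ndB6q3 pcB1 Cut.none Ext.none :=
  certB2 (fam := false) (s1 := true) (s2 := true) (a := 1) (b := 1) (c := 3) (cn := .nn) (n1 := ndB1q1) (n2 := ndB6q3) (pc := pcB1) (cut := Cut.none) (xt := Ext.none) (P1 := 536870912) (W1 := 536870912) (P2 := 0) (W2 := 1230186008) (P3 := 587336777) (W3 := 62277027) (N0 := 3) (En := eng) (mo := mog) (C1 := cd1q1) (C2 := cd6q3) (C3 := pd1)
    rfl (fun _ => rfl) k0_pp_113

noncomputable def f_pp_123 : ℕ → ℕ → ℕ → ℕ → Bool := onCell 1073741824 536870912 0 1230186008 587336777 62277027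
    (rowB 3 eng mog cd1q1 cd6q3 pd2 2 false true true .npn 1 2 3 (qsf 536870912 536870912 0 1230186008 2) ndB1q1 ndB6q3 pcB2 Cut.none Ext.none)

def k0_pp_123 : ∃ t, chk3 f_pp_123 t 4 1 1 = true :=
  ⟨(b (a (b (a (b (b (l 16771304) (l 16861864)) (a (b (l 322290388359) (l 3)) (b (l 16785448) (l 314774219831)))) (b (l 16761360) (a (l 16866832) (l 16775568)))) (a (l 3) (b (a (l 341080968375) (b (l 16794784) (l 294373238071))) (a (l 3) (l 464561202423))))) (b (a (b (l 16747592) (l 16761784)) (l 16736352)) (a (b (a (l 16863552) (l 16780128)) (a (b (l 337859744231) (l 489257267399)) (b (l 16796256) (a (l 488720266759) (l 410337092311))))) (b (l 16762888) (a (b (l 16784720) (a (l 16796952) (l 16790152))) (b (l 16770880) (l 16780520))))))) (b (a (l 3) (a (b (a (l 3) (b (a (l 3) (l 434496304839)) (l 3))) (l 3)) (a (b (b (a (b (l 16781816) (l 16787552)) (b (l 16797192) (l 16780608))) (a (l 16797160) (l 16811320))) (b (l 389936214263) (l 3))) (b (b (a (l 16772448)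 (l 16786384)) (a (l 16783184) (l 16796624))) (a (l 111300232999) (l 16827560)))))) (b (l 3) (l 3)))), by decide +kernel⟩

def k1_pp_123 : ∃ t, chk3 f_pp_123 t 5 1 1 = true :=
  ⟨(b (b (a (a (a (l 16725320) (l 16803464)) (l 16707576)) (b (l 16693576) (l 16715160))) (a (a (a (b (l 16748616) (b (l 16761480) (l 16770136))) (b (l 16745928) (a (l 16760288) (a (l 16759016) (a (l 16759232) (l 16760280)))))) (b (l 16736744) (l 16753160))) (l 16778656))) (a (a (b (a (b (b (l 16756592) (a (l 16789816) (l 16782672))) (b (a (l 16796392) (l 16789168)) (a (l 16799720) (l 16791000)))) (b (a (l 16689296) (a (l 16770864) (a (l 16770864) (l 16772208)))) (a (l 16802760) (a (l 16756880) (a (l 16776656) (l 16777344)))))) (a (b (a (b (l 16799608) (l 3)) (b (l 16788344) (l 16779280))) (l 3)) (b (a (b (l 16778312) (l 16767304)) (b (a (l 16770000) (a (l 16769168) (l 16768776))) (a (l 16759000) (a (l 16755936) (l 16755744))))) (l 1)))) (b (b (l 16762576) (l 16762176)) (b (b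 (l 16751016) (l 16737032)) (l 1)))) (b (b (l 16748760) (l 16736728)) (b (b (l 16718360) (l 1)) (l 1))))), by decide +kernel⟩

def k2_pp_123 : ∃ t, chk3 f_pp_123 t 3 1 1 = true :=
  ⟨(b (a (b (a (l 16700656) (l 16704288)) (a (l 16736328) (l 16742080))) (b (a (l 16715272) (l 16713520)) (b (l 16756496) (l 16786696)))) (b (a (b (a (l 16761752) (l 16772992)) (a (l 16703872) (l 16829840))) (b (l 16804888) (l 1))) (l 1))), by decide +kernel⟩

theorem s3_pp_123 : ∃ t, chk3 f_pp_123 t 2 1 1 = true := ex3_a k0_pp_123 k1_pp_123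

theorem s4_pp_123 : ∃ t, chk3 f_pp_123 t 1 1 1 = true := ex3_a s3_pp_123 k2_pp_123

theorem c_pp_123 : CertB 536870912 536870912 0 1230186008 587336777 62277027 3 eng mog cd1q1 cd6q3 pd2 false true true .npn 1 2 3
    ndB1q1 ndB6q3 pcB2 Cut.none Ext.none :=
  certB2 (fam := false) (s1 := true) (s2 := true) (a := 1) (b := 2) (c := 3) (cn := .npn) (n1 := ndB1q1) (n2 := ndB6q3) (pc := pcB2) (cut := Cut.none) (xt := Ext.none) (P1 := 536870912) (W1 := 536870912) (P2 := 0) (W2 := 1230186008) (P3 := 587336777) (W3 := 62277027) (N0 := 3) (En := eng) (mo := mog) (C1 := cd1q1) (C2 := cd6q3) (C3 := pd2)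
    rfl (fun _ => rfl) s4_pp_123

noncomputable def f_pp_133 : ℕ → ℕ → ℕ → ℕ → Bool := onCell 536870912 536870912 0 1230186008 587336777 62277027
    (rowB 3 eng mog cd1q1 cd6q3 pd3 0 false true true .dn 1 3 3 (qsf 536870912 536870912 0 1230186008 3) ndB1q1 ndB6q3 pcB3 Cut.none Ext.none)

def k0_pp_133 : ∃ t, chk3 f_pp_133 t 1 1 1 = true :=
  ⟨(b (b (a (a (a (b (l 16744312) (l 1)) (l 1)) (l 1)) (l 1)) (l 1)) (l 1)), by decide +kernel⟩

theorem c_pp_133 : CertB 536870912 536870912 0 1230186008 587336777 62277027 3 eng mog cd1q1 cd6q3 pd3 false true true .dn 1 3 3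
    ndB1q1 ndB6q3 pcB3 Cut.none Ext.none :=
  certB0 (fam := false) (s1 := true) (s2 := true) (a := 1) (b := 3) (c := 3) (cn := .dn) (n1 := ndB1q1) (n2 := ndB6q3) (pc := pcB3) (cut := Cut.none) (xt := Ext.none) (P1 := 536870912) (W1 := 536870912) (P2 := 0) (W2 := 1230186008) (P3 := 587336777) (W3 := 62277027) (N0 := 3) (En := eng) (mo := mog) (C1 := cd1q1) (C2 := cd6q3) (C3 := pd3)
    rfl k0_pp_133

noncomputable def f_pp_202_a : ℕ → ℕ → ℕ → ℕ → Bool := onCell 0 536870912 1073741824 536870912 587336777 62277027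
    (rowB 3 eng mog cd1q2a cd6q2 pd0 0 false true true .pp 2 0 2 (qsf 0 536870912 1073741824 536870912 0) ndB1q2a ndB6q2 pcB0 Cut.none Ext.none)

def k0_pp_202_a : ∃ t, chk3 f_pp_202_a t 1 1 1 = true :=
  ⟨(l 5), by decide +kernel⟩

theorem c_pp_202_a : CertB 0 536870912 1073741824 536870912 587336777 62277027 3 eng mog cd1q2a cd6q2 pd0 false true true .pp 2 0 2
    ndB1q2a ndB6q2 pcB0 Cut.none Ext.none :=
  certB0 (fam := false) (s1 := true) (s2 := true) (a := 2) (b := 0) (c := 2) (cn := .pp) (n1 := ndB1q2a) (n2 := ndB6q2) (pc := pcB0) (cut := Cut.none) (xt := Ext.none) (P1 := 0) (W1 := 536870912) (P2 := 1073741824) (W2 := 536870912) (P3 := 587336777) (W3 := 62277027) (N0 := 3) (En := eng) (mo := mog) (C1 := cd1q2a) (C2 := cd6q2) (C3 := pd0)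
    rfl k0_pp_202_a

noncomputable def f_pp_202_b : ℕ → ℕ → ℕ → ℕ → Bool := onCell 1239849684 370763052 1073741824 536870912 587336777 62277027
    (rowB 3 eng mog cd1q2b cd6q2 pd0 0 false true true .pp 2 0 2 (qsf 1239849684 370763052 1073741824 536870912 0) ndB1q2b ndB6q2 pcB0 Cut.none Ext.none)

def k0_pp_202_b : ∃ t, chk3 f_pp_202_b t 1 1 1 = true :=
  ⟨(l 5), by decide +kernel⟩

theorem c_pp_202_b : CertB 1239849684 370763052 1073741824 536870912 587336777 62277027 3 eng mog cd1q2b cd6q2 pd0 false true true .pp 2 0 2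
    ndB1q2b ndB6q2 pcB0 Cut.none Ext.none :=
  certB0 (fam := false) (s1 := true) (s2 := true) (a := 2) (b := 0) (c := 2) (cn := .pp) (n1 := ndB1q2b) (n2 := ndB6q2) (pc := pcB0) (cut := Cut.none) (xt := Ext.none) (P1 := 1239849684) (W1 := 370763052) (P2 := 1073741824) (W2 := 536870912) (P3 := 587336777) (W3 := 62277027) (N0 := 3) (En := eng) (mo := mog) (C1 := cd1q2b) (C2 := cd6q2) (C3 := pd0)
    rfl k0_pp_202_b

noncomputable def f_pp_203_a : ℕ → ℕ → ℕ → ℕ → Bool := onCell 0 536870912 0 1230186008 587336777 62277027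
    (rowB 3 eng mog cd1q2a cd6q3 pd0 0 false true true .up 2 0 3 (qsf 0 536870912 0 1230186008 0) ndB1q2a ndB6q3 pcB0 Cut.none Ext.none)

def k0_pp_203_a : ∃ t, chk3 f_pp_203_a t 1 1 1 = true :=
  ⟨(b (l 2) (b (l 2) (l 3))), by decide +kernel⟩

theorem c_pp_203_a : CertB 0 536870912 0 1230186008 587336777 62277027 3 eng mog cd1q2a cd6q3 pd0 false true true .up 2 0 3
    ndB1q2a ndB6q3 pcB0 Cut.none Ext.none :=
  certB0 (fam := false) (s1 := true) (s2 := true) (a := 2) (b := 0) (c := 3) (cn := .up) (n1 := ndB1q2a) (n2 := ndB6q3) (pc := pcB0) (cut := Cut.none) (xt := Ext.none) (P1 := 0) (W1 := 536870912) (P2 := 0) (W2 := 1230186008) (P3 := 587336777) (W3 := 62277027) (N0 := 3) (En := eng) (mo := mog) (C1 := cd1q2a) (C2 := cd6q3) (C3 := pd0)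
    rfl k0_pp_203_a

noncomputable def f_pp_203_b : ℕ → ℕ → ℕ → ℕ → Bool := onCell 1239849684 370763052 0 1230186008 587336777 62277027
    (rowB 3 eng mog cd1q2b cd6q3 pd0 0 false true true .up 2 0 3 (qsf 1239849684 370763052 0 1230186008 0) ndB1q2b ndB6q3 pcB0 Cut.none Ext.none)

def k0_pp_203_b : ∃ t, chk3 f_pp_203_b t 1 1 1 = true :=
  ⟨(b (l 3) (l 5)), by decide +kernel⟩

theorem c_pp_203_b : CertB 1239849684 370763052 0 1230186008 587336777 62277027 3 eng mog cd1q2b cd6q3 pd0 false true true .up 2 0 3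
    ndB1q2b ndB6q3 pcB0 Cut.none Ext.none :=
  certB0 (fam := false) (s1 := true) (s2 := true) (a := 2) (b := 0) (c := 3) (cn := .up) (n1 := ndB1q2b) (n2 := ndB6q3) (pc := pcB0) (cut := Cut.none) (xt := Ext.none) (P1 := 1239849684) (W1 := 370763052) (P2 := 0) (W2 := 1230186008) (P3 := 587336777) (W3 := 62277027) (N0 := 3) (En := eng) (mo := mog) (C1 := cd1q2b) (C2 := cd6q3) (C3 := pd0)
    rfl k0_pp_203_b

noncomputable def cut_pp_213_a : Cut := Cut.of [[⟨0, 1, 0, 67108864⟩, ⟨1, 1, 0, 67108864⟩, ⟨2, 2, 0, 16777216⟩]]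

noncomputable def f_pp_213_a : ℕ → ℕ → ℕ → ℕ → Bool := onCell 0 536870912 0 1230186008 587336777 62277027
    (rowB 3 eng mog cd1q2a cd6q3 pd1 0 false true true .pnn 2 1 3 (qsf 0 536870912 0 1230186008 1) ndB1q2a ndB6q3 pcB1 cut_pp_213_a Ext.none)

def k0_pp_213_a : ∃ t, chk3 f_pp_213_a t 1 1 1 = true :=
  ⟨(b (a (l 3) (b (a (l 3) (a (l 3) (b (l 6) (l 3)))) (l 3))) (b (l 3) (l 3))), by decide +kernel⟩

theorem c_pp_213_a : CertB 0 536870912 0 1230186008 587336777 62277027 3 eng mog cd1q2a cd6q3 pd1 false true true .pnn 2 1 3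
    ndB1q2a ndB6q3 pcB1 cut_pp_213_a Ext.none :=
  certB0 (fam := false) (s1 := true) (s2 := true) (a := 2) (b := 1) (c := 3) (cn := .pnn) (n1 := ndB1q2a) (n2 := ndB6q3) (pc := pcB1) (cut := cut_pp_213_a) (xt := Ext.none) (P1 := 0) (W1 := 536870912) (P2 := 0) (W2 := 1230186008) (P3 := 587336777) (W3 := 62277027) (N0 := 3) (En := eng) (mo := mog) (C1 := cd1q2a) (C2 := cd6q3) (C3 := pd1)
    rfl k0_pp_213_a

noncomputable def cut_pp_213_b : Cut := Cut.of [[⟨0, 1, 0, 67108864⟩, ⟨1, 1, 0, 67108864⟩, ⟨2, 2, 0, 16777216⟩]]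

noncomputable def f_pp_213_b : ℕ → ℕ → ℕ → ℕ → Bool := onCell 1239849684 370763052 0 1230186008 587336777 62277027
    (rowB 3 eng mog cd1q2b cd6q3 pd1 0 false true true .pnn 2 1 3 (qsf 1239849684 370763052 0 1230186008 1) ndB1q2b ndB6q3 pcB1 cut_pp_213_b Ext.none)

def k0_pp_213_b : ∃ t, chk3 f_pp_213_b t 1 1 1 = true :=
  ⟨(b (l 3) (l 5)), by decide +kernel⟩

theorem c_pp_213_b : CertB 1239849684 370763052 0 1230186008 587336777 62277027 3 eng mog cd1q2b cd6q3 pd1 false true true .pnn 2 1 3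
    ndB1q2b ndB6q3 pcB1 cut_pp_213_b Ext.none :=
  certB0 (fam := false) (s1 := true) (s2 := true) (a := 2) (b := 1) (c := 3) (cn := .pnn) (n1 := ndB1q2b) (n2 := ndB6q3) (pc := pcB1) (cut := cut_pp_213_b) (xt := Ext.none) (P1 := 1239849684) (W1 := 370763052) (P2 := 0) (W2 := 1230186008) (P3 := 587336777) (W3 := 62277027) (N0 := 3) (En := eng) (mo := mog) (C1 := cd1q2b) (C2 := cd6q3) (C3 := pd1)
    rfl k0_pp_213_b

noncomputable def f_pp_303 : ℕ → ℕ → ℕ → ℕ → Bool := onCell 1610612736 536870912 0 1230186008 587336777 62277027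
    (rowB 3 eng mog cd1q3 cd6q3 pd0 0 false true true .npn 3 0 3 (qsf 1610612736 536870912 0 1230186008 0) ndB1q3 ndB6q3 pcB0 Cut.none Ext.none)

def k0_pp_303 : ∃ t, chk3 f_pp_303 t 1 1 1 = true :=
  ⟨(b (l 3) (l 5)), by decide +kernel⟩

theorem c_pp_303 : CertB 1610612736 536870912 0 1230186008 587336777 62277027 3 eng mog cd1q3 cd6q3 pd0 false true true .npn 3 0 3
    ndB1q3 ndB6q3 pcB0 Cut.none Ext.none :=
  certB0 (fam := false) (s1 := true) (s2 := true) (a := 3) (b := 0) (c := 3) (cn := .npn) (n1 := ndB1q3) (n2 := ndB6q3) (pc := pcB0) (cut := Cut.none) (xt := Ext.none) (P1 := 1610612736) (W1 := 536870912) (P2 := 0) (W2 := 1230186008) (P3 := 587336777) (W3 := 62277027) (N0 := 3) (En := eng) (mo := mog) (C1 := cd1q3) (C2 := cd6q3) (C3 := pd0)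
    rfl k0_pp_303

noncomputable def f_pp_313 : ℕ → ℕ → ℕ → ℕ → Bool := onCell 1610612736 536870912 0 1230186008 587336777 62277027
    (rowB 3 eng mog cd1q3 cd6q3 pd1 0 false true true .dn 3 1 3 (qsf 1610612736 536870912 0 1230186008 1) ndB1q3 ndB6q3 pcB1 Cut.none Ext.none)

def k0_pp_313 : ∃ t, chk3 f_pp_313 t 1 1 1 = true :=
  ⟨(b (l 3) (l 1)), by decide +kernel⟩

theorem c_pp_313 : CertB 1610612736 536870912 0 1230186008 587336777 62277027 3 eng mog cd1q3 cd6q3 pd1 false true true .dn 3 1 3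
    ndB1q3 ndB6q3 pcB1 Cut.none Ext.none :=
  certB0 (fam := false) (s1 := true) (s2 := true) (a := 3) (b := 1) (c := 3) (cn := .dn) (n1 := ndB1q3) (n2 := ndB6q3) (pc := pcB1) (cut := Cut.none) (xt := Ext.none) (P1 := 1610612736) (W1 := 536870912) (P2 := 0) (W2 := 1230186008) (P3 := 587336777) (W3 := 62277027) (N0 := 3) (En := eng) (mo := mog) (C1 := cd1q3) (C2 := cd6q3) (C3 := pd1)
    rfl k0_pp_313

noncomputable def f_pm_001 : ℕ → ℕ → ℕ → ℕ → Bool := onCell 0 536870912 536870912 536870912 587336777 62277027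
    (rowB 3 eng mog cd1q0 cd6q1 pd0 0 false true false .up 0 0 1 (qsf 0 536870912 536870912 536870912 0) ndB1q0 ndB6q1 pcB0 Cut.none Ext.none)

def k0_pm_001 : ∃ t, chk3 f_pm_001 t 1 1 1 = true :=
  ⟨(l 4), by decide +kernel⟩

theorem c_pm_001 : CertB 0 536870912 536870912 536870912 587336777 62277027 3 eng mog cd1q0 cd6q1 pd0 false true false .up 0 0 1
    ndB1q0 ndB6q1 pcB0 Cut.none Ext.none :=
  certB0 (fam := false) (s1 := true) (s2 := false) (a := 0) (b := 0) (c := 1) (cn := .up) (n1 := ndB1q0) (n2 := ndB6q1) (pc := pcB0) (cut := Cut.none) (xt := Ext.none) (P1 := 0) (W1 := 536870912) (P2 := 536870912) (W2 := 536870912) (P3 := 587336777) (W3 := 62277027) (N0 := 3) (En := eng) (mo := mog) (C1 := cd1q0) (C2 := cd6q1) (C3 := pd0)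
    rfl k0_pm_001

noncomputable def f_pm_011 : ℕ → ℕ → ℕ → ℕ → Bool := onCell 0 536870912 536870912 536870912 587336777 62277027
    (rowB 3 eng mog cd1q0 cd6q1 pd1 0 false true false .pnn 0 1 1 (qsf 0 536870912 536870912 536870912 1) ndB1q0 ndB6q1 pcB1 Cut.none Ext.none)

def k0_pm_011 : ∃ t, chk3 f_pm_011 t 1 1 1 = true :=
  ⟨(l 4), by decide +kernel⟩

theorem c_pm_011 : CertB 0 536870912 536870912 536870912 587336777 62277027 3 eng mog cd1q0 cd6q1 pd1 false true false .pnn 0 1 1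
    ndB1q0 ndB6q1 pcB1 Cut.none Ext.none :=
  certB0 (fam := false) (s1 := true) (s2 := false) (a := 0) (b := 1) (c := 1) (cn := .pnn) (n1 := ndB1q0) (n2 := ndB6q1) (pc := pcB1) (cut := Cut.none) (xt := Ext.none) (P1 := 0) (W1 := 536870912) (P2 := 536870912) (W2 := 536870912) (P3 := 587336777) (W3 := 62277027) (N0 := 3) (En := eng) (mo := mog) (C1 := cd1q0) (C2 := cd6q1) (C3 := pd1)
    rfl k0_pm_011

noncomputable def f_pm_012 : ℕ → ℕ → ℕ → ℕ → Bool := onCell 0 536870912 1073741824 536870912 587336777 62277027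
    (rowB 3 eng mog cd1q0 cd6q2 pd1 0 false true false .pnp 0 1 2 (qsf 0 536870912 1073741824 536870912 1) ndB1q0 ndB6q2 pcB1 Cut.none Ext.none)

def k0_pm_012 : ∃ t, chk3 f_pm_012 t 1 1 1 = true :=
  ⟨(l 4), by decide +kernel⟩

theorem c_pm_012 : CertB 0 536870912 1073741824 536870912 587336777 62277027 3 eng mog cd1q0 cd6q2 pd1 false true false .pnp 0 1 2
    ndB1q0 ndB6q2 pcB1 Cut.none Ext.none :=
  certB0 (fam := false) (s1 := true) (s2 := false) (a := 0) (b := 1) (c := 2) (cn := .pnp) (n1 := ndB1q0) (n2 := ndB6q2) (pc := pcB1) (cut := Cut.none) (xt := Ext.none) (P1 := 0) (W1 := 536870912) (P2 := 1073741824) (W2 := 536870912) (P3 := 587336777) (W3 := 62277027) (N0 := 3) (En := eng) (mo := mog) (C1 := cd1q0) (C2 := cd6q2) (C3 := pd1)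
    rfl k0_pm_012

noncomputable def f_pm_022 : ℕ → ℕ → ℕ → ℕ → Bool := onCell 0 536870912 1073741824 536870912 587336777 62277027
    (rowB 3 eng mog cd1q0 cd6q2 pd2 0 false true false .pp 0 2 2 (qsf 0 536870912 1073741824 536870912 2) ndB1q0 ndB6q2 pcB2 Cut.none Ext.none)

def k0_pm_022 : ∃ t, chk3 f_pm_022 t 1 1 1 = true :=
  ⟨(l 4), by decide +kernel⟩

theorem c_pm_022 : CertB 0 536870912 1073741824 536870912 587336777 62277027 3 eng mog cd1q0 cd6q2 pd2 false true false .pp 0 2 2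
    ndB1q0 ndB6q2 pcB2 Cut.none Ext.none :=
  certB0 (fam := false) (s1 := true) (s2 := false) (a := 0) (b := 2) (c := 2) (cn := .pp) (n1 := ndB1q0) (n2 := ndB6q2) (pc := pcB2) (cut := Cut.none) (xt := Ext.none) (P1 := 0) (W1 := 536870912) (P2 := 1073741824) (W2 := 536870912) (P3 := 587336777) (W3 := 62277027) (N0 := 3) (En := eng) (mo := mog) (C1 := cd1q0) (C2 := cd6q2) (C3 := pd2)
    rfl k0_pm_022

noncomputable def f_pm_023 : ℕ → ℕ → ℕ → ℕ → Bool := onCell 0 536870912 0 1230186008 587336777 62277027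
    (rowB 3 eng mog cd1q0 cd6q3 pd2 0 false true false .up 0 2 3 (qsf 0 536870912 0 1230186008 2) ndB1q0 ndB6q3 pcB2 Cut.none Ext.none)

def k0_pm_023 : ∃ t, chk3 f_pm_023 t 1 1 1 = true :=
  ⟨(b (a (l 2) (a (l 2) (a (b (l 2) (l 4)) (b (l 16686120) (a (l 4) (l 16791144)))))) (l 4)), by decide +kernel⟩

theorem c_pm_023 : CertB 0 536870912 0 1230186008 587336777 62277027 3 eng mog cd1q0 cd6q3 pd2 false true false .up 0 2 3
    ndB1q0 ndB6q3 pcB2 Cut.none Ext.none :=
  certB0 (fam := false) (s1 := true) (s2 := false) (a := 0) (b := 2) (c := 3) (cn := .up) (n1 := ndB1q0) (n2 := ndB6q3) (pc := pcB2) (cut := Cut.none) (xt := Ext.none) (P1 := 0) (W1 := 536870912) (P2 := 0) (W2 := 1230186008) (P3 := 587336777) (W3 := 62277027) (N0 := 3) (En := eng) (mo := mog) (C1 := cd1q0) (C2 := cd6q3) (C3 := pd2)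
    rfl k0_pm_023

noncomputable def f_pm_033 : ℕ → ℕ → ℕ → ℕ → Bool := onCell 0 536870912 0 1230186008 587336777 62277027
    (rowB 3 eng mog cd1q0 cd6q3 pd3 0 false true false .pnn 0 3 3 (qsf 0 536870912 0 1230186008 3) ndB1q0 ndB6q3 pcB3 Cut.none Ext.none)

def k0_pm_033 : ∃ t, chk3 f_pm_033 t 1 1 1 = true :=
  ⟨(b (a (l 4) (b (a (b (l 115125285575) (l 4)) (a (l 16676696) (l 16684760))) (a (l 4) (a (l 4) (b (l 16659360) (l 4)))))) (l 4)), by decide +kernel⟩

theorem c_pm_033 : CertB 0 536870912 0 1230186008 587336777 62277027 3 eng mog cd1q0 cd6q3 pd3 false true false .pnn 0 3 3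
    ndB1q0 ndB6q3 pcB3 Cut.none Ext.none :=
  certB0 (fam := false) (s1 := true) (s2 := false) (a := 0) (b := 3) (c := 3) (cn := .pnn) (n1 := ndB1q0) (n2 := ndB6q3) (pc := pcB3) (cut := Cut.none) (xt := Ext.none) (P1 := 0) (W1 := 536870912) (P2 := 0) (W2 := 1230186008) (P3 := 587336777) (W3 := 62277027) (N0 := 3) (En := eng) (mo := mog) (C1 := cd1q0) (C2 := cd6q3) (C3 := pd3)
    rfl k0_pm_033

noncomputable def f_pm_101 : ℕ → ℕ → ℕ → ℕ → Bool := onCell 536870912 536870912 536870912 536870912 587336777 62277027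
    (rowB 3 eng mog cd1q1 cd6q1 pd0 0 false true false .npn 1 0 1 (qsf 536870912 536870912 536870912 536870912 0) ndB1q1 ndB6q1 pcB0 Cut.none Ext.none)

def k0_pm_101 : ∃ t, chk3 f_pm_101 t 1 1 1 = true :=
  ⟨(l 4), by decide +kernel⟩

theorem c_pm_101 : CertB 536870912 536870912 536870912 536870912 587336777 62277027 3 eng mog cd1q1 cd6q1 pd0 false true false .npn 1 0 1
    ndB1q1 ndB6q1 pcB0 Cut.none Ext.none :=
  certB0 (fam := false) (s1 := true) (s2 := false) (a := 1) (b := 0) (c := 1) (cn := .npn) (n1 := ndB1q1) (n2 := ndB6q1) (pc := pcB0) (cut := Cut.none) (xt := Ext.none) (P1 := 536870912) (W1 := 536870912) (P2 := 536870912) (W2 := 536870912) (P3 := 587336777) (W3 := 62277027) (N0 := 3) (En := eng) (mo := mog) (C1 := cd1q1) (C2 := cd6q1) (C3 := pd0)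
    rfl k0_pm_101

noncomputable def f_pm_102 : ℕ → ℕ → ℕ → ℕ → Bool := onCell 536870912 536870912 0 536870912 587336777 62277027
    (rowB 3 eng mog cd1q1 cd6q2 pd0 1 false true false .npp 1 0 2 (qsf 536870912 536870912 1073741824 536870912 0) ndB1q1 ndB6q2 pcB0 Cut.none Ext.none)

def k0_pm_102 : ∃ t, chk3 f_pm_102 t 1 1 1 = true :=
  ⟨(a (l 4) (a (l 4) (a (b (l 4) (b (l 4) (b (l 16565896) (l 16657920)))) (b (a (l 4) (b (l 4) (b (b (l 16388024) (l 16425176)) (l 16498728)))) (b (b (a (l 16500144) (l 16605984)) (l 16668352)) (b (a (l 16707968) (b (l 16823192) (l 16872624))) (b (l 16858608) (l 16887304)))))))), by decide +kernel⟩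

theorem c_pm_102 : CertB 536870912 536870912 1073741824 536870912 587336777 62277027 3 eng mog cd1q1 cd6q2 pd0 false true false .npp 1 0 2
    ndB1q1 ndB6q2 pcB0 Cut.none Ext.none :=
  certB1 (fam := false) (s1 := true) (s2 := false) (a := 1) (b := 0) (c := 2) (cn := .npp) (n1 := ndB1q1) (n2 := ndB6q2) (pc := pcB0) (cut := Cut.none) (xt := Ext.none) (P1 := 536870912) (W1 := 536870912) (P2 := 1073741824) (W2 := 536870912) (P3 := 587336777) (W3 := 62277027) (N0 := 3) (En := eng) (mo := mog) (C1 := cd1q1) (C2 := cd6q2) (C3 := pd0)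
    rfl (fun _ => rfl) k0_pm_102

noncomputable def f_pm_112 : ℕ → ℕ → ℕ → ℕ → Bool := onCell 536870912 536870912 1073741824 536870912 587336777 62277027
    (rowB 3 eng mog cd1q1 cd6q2 pd1 2 false true false .dn 1 1 2 (qsf 536870912 536870912 1073741824 536870912 1) ndB1q1 ndB6q2 pcB1 Cut.none Ext.none)

def k0_pm_112 : ∃ t, chk3 f_pm_112 t 1 1 1 = true :=
  ⟨(a (b (l 4) (b (l 4) (a (b (l 16595376) (l 16748688)) (l 43183910743)))) (l 4)), by decide +kernel⟩

theorem c_pm_112 : CertB 536870912 536870912 1073741824 536870912 587336777 62277027 3 eng mog cd1q1 cd6q2 pd1 false true false .dn 1 1 2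
    ndB1q1 ndB6q2 pcB1 Cut.none Ext.none :=
  certB2 (fam := false) (s1 := true) (s2 := false) (a := 1) (b := 1) (c := 2) (cn := .dn) (n1 := ndB1q1) (n2 := ndB6q2) (pc := pcB1) (cut := Cut.none) (xt := Ext.none) (P1 := 536870912) (W1 := 536870912) (P2 := 1073741824) (W2 := 536870912) (P3 := 587336777) (W3 := 62277027) (N0 := 3) (En := eng) (mo := mog) (C1 := cd1q1) (C2 := cd6q2) (C3 := pd1)
    rfl (fun _ => rfl) k0_pm_112

noncomputable def f_pm_113 : ℕ → ℕ → ℕ → ℕ → Bool := onCell 536870912 536870912 0 1230186008 587336777 62277027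
    (rowB 3 eng mog cd1q1 cd6q3 pd1 0 false true false .nn 1 1 3 (qsf 536870912 536870912 0 1230186008 1) ndB1q1 ndB6q3 pcB1 Cut.none Ext.none)

def k0_pm_113 : ∃ t, chk3 f_pm_113 t 1 1 1 = true :=
  ⟨(b (a (l 2) (a (l 2) (b (a (l 2) (a (l 2) (b (a (l 2) (l 16771520)) (l 16778600)))) (a (b (l 16763192) (l 16773848)) (b (l 16792864) (l 16816168)))))) (b (a (a (l 2) (a (l 2) (b (l 2) (b (l 2) (l 244913842647))))) (a (b (a (l 2) (l 16733824)) (a (l 16641168) (l 16720632))) (b (a (l 16782952) (l 16835000)) (b (a (l 16783960) (l 16847112)) (a (l 16785992) (l 16860256)))))) (a (a (l 4) (a (l 4) (b (b (l 16533032) (l 4)) (l 4)))) (b (a (a (b (l 16617120) (l 16610144)) (b (l 16702328) (l 16823656))) (a (a (l 16766088) (l 16814912)) (l 17055104))) (a (b (a (l 16610320) (l 16705552)) (l 23319639767)) (a (b (l 16801528) (l 16812584)) (l 16922440))))))), by decide +kernel⟩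

theorem c_pm_113 : CertB 536870912 536870912 0 1230186008 587336777 62277027 3 eng mog cd1q1 cd6q3 pd1 false true false .nn 1 1 3
    ndB1q1 ndB6q3 pcB1 Cut.none Ext.none :=
  certB0 (fam := false) (s1 := true) (s2 := false) (a := 1) (b := 1) (c := 3) (cn := .nn) (n1 := ndB1q1) (n2 := ndB6q3) (pc := pcB1) (cut := Cut.none) (xt := Ext.none) (P1 := 536870912) (W1 := 536870912) (P2 := 0) (W2 := 1230186008) (P3 := 587336777) (W3 := 62277027) (N0 := 3) (En := eng) (mo := mog) (C1 := cd1q1) (C2 := cd6q3) (C3 := pd1)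
    rfl k0_pm_113

noncomputable def f_pm_123 : ℕ → ℕ → ℕ → ℕ → Bool := onCell 1073741824 536870912 0 1230186008 587336777 62277027
    (rowB 3 eng mog cd1q1 cd6q3 pd2 2 false true false .npn 1 2 3 (qsf 536870912 536870912 0 1230186008 2) ndB1q1 ndB6q3 pcB2 Cut.none Ext.none)

def k0_pm_123 : ∃ t, chk3 f_pm_123 t 1 1 1 = true :=
  ⟨(a (a (b (b (a (b (l 16757176) (l 16750976)) (b (l 16723312) (l 16707368))) (b (l 16716832) (a (l 16733232) (l 16752896)))) (b (a (b (b (l 16713304) (l 16676376)) (a (l 16618656) (l 16583048))) (b (l 16627360) (a (l 16556848) (l 16538544)))) (b (a (l 4) (l 4)) (l 4)))) (b (b (a (b (a (l 16695448) (l 16678280)) (l 16667608)) (l 16664992)) (b (a (l 16646296) (l 16635432)) (a (l 16626280) (l 16613872)))) (b (a (b (l 16652568) (a (l 16526824) (l 4))) (b (l 16580768) (l 4))) (l 4)))) (b (a (b (a (b (l 16674040) (l 16653672)) (l 16661256)) (a (b (l 16637168) (l 16616328)) (b (l 16645344) (l 16628168)))) (b (a (l 16680512) (l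 16704104)) (a (l 16667776) (l 16686464)))) (a (b (a (b (l 16586200) (l 4)) (l 4)) (l 1)) (l 4)))), by decide +kernel⟩

theorem c_pm_123 : CertB 536870912 536870912 0 1230186008 587336777 62277027 3 eng mog cd1q1 cd6q3 pd2 false true false .npn 1 2 3
    ndB1q1 ndB6q3 pcB2 Cut.none Ext.none :=
  certB2 (fam := false) (s1 := true) (s2 := false) (a := 1) (b := 2) (c := 3) (cn := .npn) (n1 := ndB1q1) (n2 := ndB6q3) (pc := pcB2) (cut := Cut.none) (xt := Ext.none) (P1 := 536870912) (W1 := 536870912) (P2 := 0) (W2 := 1230186008) (P3 := 587336777) (W3 := 62277027) (N0 := 3) (En := eng) (mo := mog) (C1 := cd1q1) (C2 := cd6q3) (C3 := pd2)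
    rfl (fun _ => rfl) k0_pm_123

noncomputable def f_pm_133 : ℕ → ℕ → ℕ → ℕ → Bool := onCell 1610612736 536870912 0 1230186008 587336777 62277027
    (rowB 3 eng mog cd1q1 cd6q3 pd3 2 false true false .dn 1 3 3 (qsf 536870912 536870912 0 1230186008 3) ndB1q1 ndB6q3 pcB3 Cut.none Ext.none)

def k0_pm_133 : ∃ t, chk3 f_pm_133 t 1 1 1 = true :=
  ⟨(b (b (a (a (l 16890264) (l 1)) (l 1)) (l 1)) (l 1)), by decide +kernel⟩

theorem c_pm_133 : CertB 536870912 536870912 0 1230186008 587336777 62277027 3 eng mog cd1q1 cd6q3 pd3 false true false .dn 1 3 3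
    ndB1q1 ndB6q3 pcB3 Cut.none Ext.none :=
  certB2 (fam := false) (s1 := true) (s2 := false) (a := 1) (b := 3) (c := 3) (cn := .dn) (n1 := ndB1q1) (n2 := ndB6q3) (pc := pcB3) (cut := Cut.none) (xt := Ext.none) (P1 := 536870912) (W1 := 536870912) (P2 := 0) (W2 := 1230186008) (P3 := 587336777) (W3 := 62277027) (N0 := 3) (En := eng) (mo := mog) (C1 := cd1q1) (C2 := cd6q3) (C3 := pd3)
    rfl (fun _ => rfl) k0_pm_133

noncomputable def f_pm_202_a : ℕ → ℕ → ℕ → ℕ → Bool := onCell 0 536870912 0 536870912 587336777 62277027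
    (rowB 3 eng mog cd1q2a cd6q2 pd0 1 false true false .pp 2 0 2 (qsf 0 536870912 1073741824 536870912 0) ndB1q2a ndB6q2 pcB0 Cut.none Ext.none)

def k0_pm_202_a : ∃ t, chk3 f_pm_202_a t 2 2 1 = true :=
  ⟨(b (b (a (b (a (b (l 16492408) (l 16499720)) (b (l 16498848) (a (l 16505496) (l 16509296)))) (a (l 16513272) (a (l 16520872) (l 16525736)))) (b (a (l 16509568) (l 16506632)) (a (b (l 16524008) (l 16535104)) (l 16525688)))) (b (a (l 16536416) (a (a (l 16551160) (l 16552664)) (l 16550560))) (a (a (b (l 16536016) (a (l 16532544) (l 16545720))) (l 16558320)) (a (l 16573552) (a (l 16575304) (l 16572640)))))) (a (b (b (a (b (a (l 16538880) (l 16549272)) (a (l 16543184) (l 16552952))) (l 16571144)) (a (a (b (l 16549912) (a (l 16552312) (l 16557784))) (l 16585408)) (a (b (l 16569392) (l 16576520)) (b (l 16584992) (l 16588840))))) (b (a (a (b (a (l 16555672) (l 16557936)) (a (l 16555392) (l 16560200))) (b (l 16567112) (l 16560376))) (a (l 16579440) (l 16593800)))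 (a (a (b (l 16555976) (l 16554360)) (b (l 16541432) (l 16567768))) (a (l 16572752) (l 16595624))))) (b (a (b (l 16590328) (l 16605632)) (b (a (l 16596904) (l 16595648)) (l 16616744))) (a (b (b (l 16614688) (l 16615776)) (a (l 16612600) (l 16625360))) (b (l 16635120) (l 16648424)))))), by decide +kernel⟩

def k1_pm_202_a : ∃ t, chk3 f_pm_202_a t 2 3 1 = true :=
  ⟨(b (b (a (a (b (a (b (l 16558728) (l 16576888)) (b (l 16564240) (l 16560152))) (a (b (l 16594440) (a (l 16616144) (l 16605512))) (b (l 16570640) (l 16587504)))) (b (a (b (l 16577640) (l 16577944)) (l 16586832)) (a (b (l 16574136) (l 16570464)) (l 16586352)))) (a (b (l 16624776) (l 16621616)) (b (a (l 16643856) (l 16660968)) (l 16656776)))) (a (a (b (a (b (a (l 16631360) (l 16621184)) (a (l 16645584) (l 16635864))) (l 16611920)) (b (a (a (l 184247164359) (l 185320902487)) (a (l 16639256) (l 16628040))) (l 2))) (b (a (l 16586008) (l 16594184)) (a (l 16616248) (l 16586112)))) (a (b (l 16610464)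 (l 123043823463)) (b (l 16659136) (l 16657200))))) (a (l 2) (b (a (l 2) (l 1012638902535)) (l 2)))), by decide +kernel⟩

def k2_pm_202_a : ∃ t, chk3 f_pm_202_a t 3 1 1 = true :=
  ⟨(b (b (a (b (a (b (b (l 16487624) (l 16494832)) (l 16507352)) (b (a (b (l 16467056) (l 16474264)) (b (l 16447800) (l 16456088))) (a (l 16485880) (b (l 16463608) (l 16472424))))) (a (b (l 16531088) (l 16559624)) (b (l 16498712) (l 16528736)))) (a (b (b (b (a (l 16420768) (l 16390280)) (a (l 16429936) (l 16401056))) (a (b (l 16440392) (l 16452648)) (l 16420576))) (b (a (b (l 16464912) (l 16477232)) (l 16451768)) (a (l 16501016) (l 16488344)))) (b (b (a (b (b (a (l 16363024) (l 16344896)) (l 16359568)) (l 16369752)) (b (a (b (b (l 16324608) (l 16327816)) (l 16333264)) (a (b (b (l 16309712) (l 16313736)) (l 16321016)) (b (a (b (l 16300472) (l 16307360)) (b (l 16298648) (l 16305152))) (l 16316776)))) (a (l 16347232) (a (l 16339296) (l 16337696))))) (a (b (l 16386240) (l 16405016))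 (a (l 16381840) (b (l 16367960) (l 16386888))))) (b (a (l 16436080) (b (l 16423784) (l 16444656))) (a (l 16481272) (l 16471424)))))) (a (b (a (b (l 16587064) (l 16612352)) (b (l 16563160) (l 16596792))) (a (b (l 16637112) (l 16658832)) (b (l 16628656) (l 16658560)))) (b (a (b (a (l 16541912) (l 16531120)) (l 16581176)) (b (a (l 16532008) (l 16504512)) (a (l 16587600) (l 16545600)))) (a (l 16645320) (b (l 16635672) (l 16681912)))))) (b (b (a (a (l 16681816) (b (l 16687312) (l 16708648))) (a (b (l 16704448) (l 16737496)) (b (l 16730872) (l 16782592)))) (a (a (b (l 16687568) (l 16690856)) (b (l 16723048) (l 16731584))) (b (a (l 16765496) (l 16843592)) (a (l 16785016) (l 16876648))))) (b (a (b (a (l 16690976) (l 16733208)) (a (l 2) (l 16734600))) (b (a (l 16799544) (l 16902992)) (a (l 16812000) (l 16938272)))) (a (l 2) (a (b (l 16811216) (l 2)) (b (l 16990048) (l 16983656))))))), by decide +kernel⟩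

theorem s3_pm_202_a : ∃ t, chk3 f_pm_202_a t 2 1 1 = true := ex3_b k0_pm_202_a k1_pm_202_a

theorem s4_pm_202_a : ∃ t, chk3 f_pm_202_a t 1 1 1 = true := ex3_a s3_pm_202_a k2_pm_202_a

theorem c_pm_202_a : CertB 0 536870912 1073741824 536870912 587336777 62277027 3 eng mog cd1q2a cd6q2 pd0 false true false .pp 2 0 2
    ndB1q2a ndB6q2 pcB0 Cut.none Ext.none :=
  certB1 (fam := false) (s1 := true) (s2 := false) (a := 2) (b := 0) (c := 2) (cn := .pp) (n1 := ndB1q2a) (n2 := ndB6q2) (pc := pcB0) (cut := Cut.none) (xt := Ext.none) (P1 := 0) (W1 := 536870912) (P2 := 1073741824) (W2 := 536870912) (P3 := 587336777) (W3 := 62277027) (N0 := 3) (En := eng) (mo := mog) (C1 := cd1q2a) (C2 := cd6q2) (C3 := pd0)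
    rfl (fun _ => rfl) s4_pm_202_a

noncomputable def f_pm_202_b : ℕ → ℕ → ℕ → ℕ → Bool := onCell 0 536870912 1073741824 536870912 587336777 62277027
    (rowB 3 eng mog cd1q2b cd6q2 pd0 2 false true false .pp 2 0 2 (qsf 1239849684 370763052 1073741824 536870912 0) ndB1q2b ndB6q2 pcB0 Cut.none Ext.none)

def k0_pm_202_b : ∃ t, chk3 f_pm_202_b t 1 1 1 = true :=
  ⟨(a (b (a (b (l 1) (b (a (a (b (l 16530208) (l 16489928)) (b (l 1) (l 16545128))) (l 1)) (a (a (b (l 16446624) (l 16392488)) (l 230350497047)) (a (l 252899199991) (l 287795974375))))) (l 1)) (a (b (a (b (l 16341288) (a (l 16191112) (b (l 16262136) (l 16240904)))) (b (a (b (l 16458544) (l 16433648)) (b (a (l 16507864) (l 16539448)) (l 16438856))) (a (a (l 16422704) (l 16517856)) (b (l 16379960) (l 16361736))))) (a (b (a (b (l 16177480) (l 16185592)) (b (l 16236680) (l 16245848))) (a (l 16275664) (l 16282792))) (b (b (a (l 16341856) (l 16416184)) (l 16393432)) (a (l 16330656) (l 16377344)))))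 (b (a (b (a (b (a (l 16573016) (l 1)) (l 276521446279)) (b (l 1) (l 326987528855))) (a (b (l 16461904) (l 16481160)) (b (b (l 16561640) (l 16463736)) (l 16467880)))) (b (l 1) (b (a (l 406444519367) (l 1)) (a (l 281353477879) (l 383359088631))))) (a (b (b (b (l 16438600) (l 16436096)) (l 16434472)) (b (a (l 16416016) (l 16461768)) (l 3))) (b (b (a (l 16508592) (l 146062148919)) (l 16549184)) (b (a (l 16506056) (l 16547792)) (a (l 16513032) (l 16551680)))))))) (a (b (l 1) (b (l 1) (a (b (a (b (l 328061393367) (l 16642648)) (b (l 1) (l 308197170519))) (b (a (b (l 16584192) (l 16585056)) (b (l 16610824) (l 16615408))) (a (l 16587112) (b (l 16617360) (l 16618544))))) (b (l 1) (a (a (b (l 229814149575) (b (l 16636512) (l 16639032))) (b (l 1) (b (l 189548761703) (l 16650512)))) (a (b (l 1) (b (l 1) (l 231961552823))) (l 1))))))) (l 1))), by decide +kernel⟩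

theorem c_pm_202_b : CertB 1239849684 370763052 1073741824 536870912 587336777 62277027 3 eng mog cd1q2b cd6q2 pd0 false true false .pp 2 0 2
    ndB1q2b ndB6q2 pcB0 Cut.none Ext.none :=
  certB2 (fam := false) (s1 := true) (s2 := false) (a := 2) (b := 0) (c := 2) (cn := .pp) (n1 := ndB1q2b) (n2 := ndB6q2) (pc := pcB0) (cut := Cut.none) (xt := Ext.none) (P1 := 1239849684) (W1 := 370763052) (P2 := 1073741824) (W2 := 536870912) (P3 := 587336777) (W3 := 62277027) (N0 := 3) (En := eng) (mo := mog) (C1 := cd1q2b) (C2 := cd6q2) (C3 := pd0)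
    rfl (fun _ => rfl) k0_pm_202_b

noncomputable def f_pm_203_a : ℕ → ℕ → ℕ → ℕ → Bool := onCell 0 536870912 0 1230186008 587336777 62277027
    (rowB 3 eng mog cd1q2a cd6q3 pd0 0 false true false .up 2 0 3 (qsf 0 536870912 0 1230186008 0) ndB1q2a ndB6q3 pcB0 Cut.none Ext.none)

def k0_pm_203_a : ∃ t, chk3 f_pm_203_a t 1 1 1 = true :=
  ⟨(b (l 2) (b (l 2) (a (b (b (l 2) (b (a (l 2) (l 2)) (a (a (l 3) (a (a (l 188072448919) (l 149954615623)) (a (l 16705992) (l 16711752)))) (a (a (a (l 16716016) (l 16724152)) (l 16736448)) (l 16760928))))) (a (b (a (a (l 3) (b (a (l 3) (l 176261256071)) (a (l 175187474727) (b (l 16647416) (l 16627152))))) (b (a (a (l 169818810311) (l 16677144)) (a (l 16681704) (b (l 16694088) (l 16680216)))) (a (b (a (l 16648920) (l 16653112)) (a (l 16634832) (l 16641528))) (l 16661136)))) (a (b (a (b (a (l 3) (l 16657312)) (a (l 16667616) (l 16656160))) (b (a (l 16643264) (l 16626600)) (a (l 16643368) (l 16629256)))) (a (b (a (l 16664496)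 (l 16654112)) (a (l 16660640) (l 16651488))) (b (a (l 16642888) (l 16630784)) (l 16637032)))) (b (a (b (a (l 16618648) (l 16627728)) (l 16605080)) (l 16633016)) (a (l 16612352) (l 16589544))))) (b (a (b (l 16724584) (l 16690136)) (b (l 16729760) (l 16724424))) (a (b (l 16647944) (l 16629032)) (b (l 16689016) (l 16654712)))))) (b (l 2) (a (b (a (l 16760880) (l 16810864)) (b (l 16748920) (a (l 16700216) (l 16738576)))) (b (a (l 16874072) (l 2)) (a (b (l 16845704) (l 16819200)) (b (l 17022560) (l 17000520))))))))), by decide +kernel⟩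

theorem c_pm_203_a : CertB 0 536870912 0 1230186008 587336777 62277027 3 eng mog cd1q2a cd6q3 pd0 false true false .up 2 0 3
    ndB1q2a ndB6q3 pcB0 Cut.none Ext.none :=
  certB0 (fam := false) (s1 := true) (s2 := false) (a := 2) (b := 0) (c := 3) (cn := .up) (n1 := ndB1q2a) (n2 := ndB6q3) (pc := pcB0) (cut := Cut.none) (xt := Ext.none) (P1 := 0) (W1 := 536870912) (P2 := 0) (W2 := 1230186008) (P3 := 587336777) (W3 := 62277027) (N0 := 3) (En := eng) (mo := mog) (C1 := cd1q2a) (C2 := cd6q3) (C3 := pd0)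
    rfl k0_pm_203_a

noncomputable def f_pm_203_b : ℕ → ℕ → ℕ → ℕ → Bool := onCell 1239849684 370763052 0 1230186008 587336777 62277027
    (rowB 3 eng mog cd1q2b cd6q3 pd0 0 false true false .up 2 0 3 (qsf 1239849684 370763052 0 1230186008 0) ndB1q2b ndB6q3 pcB0 Cut.none Ext.none)

def k0_pm_203_b : ∃ t, chk3 f_pm_203_b t 1 1 1 = true :=
  ⟨(b (l 3) (b (l 3) (b (l 3) (a (a (b (l 3) (a (b (l 3) (b (l 3) (a (l 16658120) (l 16641976)))) (l 3))) (l 3)) (l 3))))), by decide +kernel⟩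

theorem c_pm_203_b : CertB 1239849684 370763052 0 1230186008 587336777 62277027 3 eng mog cd1q2b cd6q3 pd0 false true false .up 2 0 3
    ndB1q2b ndB6q3 pcB0 Cut.none Ext.none :=
  certB0 (fam := false) (s1 := true) (s2 := false) (a := 2) (b := 0) (c := 3) (cn := .up) (n1 := ndB1q2b) (n2 := ndB6q3) (pc := pcB0) (cut := Cut.none) (xt := Ext.none) (P1 := 1239849684) (W1 := 370763052) (P2 := 0) (W2 := 1230186008) (P3 := 587336777) (W3 := 62277027) (N0 := 3) (En := eng) (mo := mog) (C1 := cd1q2b) (C2 := cd6q3) (C3 := pd0)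
    rfl k0_pm_203_b

noncomputable def cut_pm_213_a : Cut := Cut.of [[⟨0, 1, 0, 67108864⟩, ⟨1, 1, 0, 67108864⟩, ⟨2, 2, 0, 16777216⟩]]

noncomputable def f_pm_213_a : ℕ → ℕ → ℕ → ℕ → Bool := onCell 0 536870912 0 1230186008 587336777 62277027
    (rowB 3 eng mog cd1q2a cd6q3 pd1 0 false true false .pnn 2 1 3 (qsf 0 536870912 0 1230186008 1) ndB1q2a ndB6q3 pcB1 cut_pm_213_a Ext.none)

def k0_pm_213_a : ∃ t, chk3 f_pm_213_a t 1 2 1 = true :=
  ⟨(a (b (l 3) (l 3)) (a (b (l 3) (b (a (l 3) (b (a (l 3) (b (l 3) (a (l 3) (l 296520559095)))) (a (b (l 3) (a (l 3) (a (l 3) (l 273435086743)))) (b (a (a (l 3) (l 260550187575)) (l 236391014327)) (a (b (l 204715571223) (l 16792672)) (l 16798112)))))) (a (b (a (l 3) (b (l 3) (a (l 3) (l 300278620295)))) (a (b (l 3) (l 286856853927)) (b (a (l 297594259959) (b (l 232632933479) (l 16783992))) (a (l 176261520295) (l 16787840))))) (b (a (a (b (l 308331689687) (b (l 235317249063) (l 16787728))) (b (b (l 216526772567) (l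 16790648)) (l 16794448))) (b (a (l 16796520) (l 16804056)) (l 16807184))) (a (b (a (l 16791392) (l 16800264)) (l 16739920)) (b (l 16814216) (l 16823752))))))) (b (a (b (l 3) (a (b (l 3) (a (l 3) (b (l 3) (a (l 295446790871) (l 264845152775))))) (b (a (b (l 3) (l 355039471575)) (l 6)) (b (a (b (a (l 3) (l 264845147671)) (l 255181495751)) (l 16786176)) (a (a (l 261623909975) (l 16790144)) (l 16790536)))))) (b (l 6) (a (b (a (l 6) (l 6)) (a (l 16789312) (l 16788888))) (b (a (l 6) (l 6)) (l 16789432))))) (b (a (b (a (b (a (a (l 314237275639) (l 267529510503)) (b (l 257328986695) (l 16793248))) (a (b (l 250886530455) (l 16794456)) (l 16797264))) (b (l 16795872) (l 16801736))) (a (b (a (l 16798368) (l 16803104)) (l 16807520)) (b (l 16808488) (l 16815800)))) (a (b (l 16860792) (l 16812288)) (l 16807176))) (a (b (a (b (l 16815200) (l 16824688)) (l 16828712)) (l 16849168)) (b (l 16829048) (l 16848088))))))), by decide +kernel⟩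

def k1_pm_213_a : ∃ t, chk3 f_pm_213_a t 1 6 1 = true :=
  ⟨(a (a (l 3) (b (a (l 3) (b (a (l 3) (b (l 3) (l 307257916615))) (a (b (l 3) (a (l 3) (l 231559124375))) (b (a (l 241759668199) (l 198273075127)) (b (l 253570774567) (l 16762192)))))) (b (a (a (l 3) (b (l 3) (a (l 3) (l 212231772199)))) (a (b (a (l 219747966439) (l 231559072791)) (a (l 232095951527) (l 16786776))) (b (b (l 16789256) (l 16796520)) (l 16823928)))) (a (a (b (l 3) (a (l 3) (l 214916104215))) (b (a (l 217600473687) (l 236390916055)) (a (l 224042883287) (l 16778920)))) (a (b (a (l 16784424) (l 16798040)) (a (l 16794040) (l 16806344))) (b (l 16809560) (l 16832840))))))) (a (b (a (b (a (b (a (l 218674222359) (b (l 174650844567) (l 16777104))) (a (b (l 176798327351) (l 16775384)) (l 16783296))) (b (a (l 16785144) (l 16795432)) (a (l 16795472) (l 16806584)))) (a (b (l 16748296) (a (l 16797776) (l 16810152))) (b (a (l 16808624) (l 16821176)) (l 16830120)))) (b (a (b (l 16789656) (a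 (l 16817968) (l 16829952))) (l 16841360)) (a (l 16848824) (l 16879192)))) (b (a (b (a (l 16810400) (l 16846648)) (l 16850008)) (a (l 16890960) (l 16907856))) (a (b (l 16869512) (l 16892048)) (b (l 16921600) (l 16927304))))) (b (a (b (a (l 16869064) (l 16869080)) (a (l 16890128) (l 16887824))) (b (l 16866800) (b (l 16879616) (l 16887600)))) (a (b (l 16918544) (l 16930288)) (b (l 16908416) (l 16917912)))))), by decide +kernel⟩

def k2_pm_213_a : ∃ t, chk3 f_pm_213_a t 1 7 1 = true :=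
  ⟨(a (b (a (a (l 3) (b (a (l 3) (b (l 3) (a (l 3) (l 191830606999)))) (a (b (b (l 3) (l 181093156167)) (a (l 196662386583) (l 174113831095))) (b (a (l 195588674791) (l 16740576)) (a (l 16725832) (l 16752768)))))) (b (a (b (a (a (l 189683139543) (l 16760816)) (a (l 16773968) (l 16790296))) (a (a (l 16752576) (l 16770056)) (l 16785168))) (a (b (l 16803832) (l 16835816)) (l 16871920))) (a (a (b (a (l 16762704) (l 16778808)) (a (l 16768392) (l 16787008))) (l 16810688)) (a (l 16845672) (l 16874352))))) (a (l 1) (b (a (l 1) (a (l 16893376) (l 16847768))) (l 1)))) (b (a (b (a (l 17021808) (l 16933136)) (a (l 16919104) (l 16971600))) (a (b (l 16959744) (l 16956528)) (l 16943592))) (a (b (a (l 16880384) (l 16957864)) (l 1)) (b (a (l 16970832) (l 16967408)) (b (l 16974776) (l 16978208)))))), by decide +kernel⟩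

theorem s3_pm_213_a : ∃ t, chk3 f_pm_213_a t 1 3 1 = true := ex3_b k1_pm_213_a k2_pm_213_a

theorem s4_pm_213_a : ∃ t, chk3 f_pm_213_a t 1 1 1 = true := ex3_b k0_pm_213_a s3_pm_213_a

theorem c_pm_213_a : CertB 0 536870912 0 1230186008 587336777 62277027 3 eng mog cd1q2a cd6q3 pd1 false true false .pnn 2 1 3
    ndB1q2a ndB6q3 pcB1 cut_pm_213_a Ext.none :=
  certB0 (fam := false) (s1 := true) (s2 := false) (a := 2) (b := 1) (c := 3) (cn := .pnn) (n1 := ndB1q2a) (n2 := ndB6q3) (pc := pcB1) (cut := cut_pm_213_a) (xt := Ext.none) (P1 := 0) (W1 := 536870912) (P2 := 0) (W2 := 1230186008) (P3 := 587336777) (W3 := 62277027) (N0 := 3) (En := eng) (mo := mog) (C1 := cd1q2a) (C2 := cd6q3) (C3 := pd1)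
    rfl s4_pm_213_a

noncomputable def cut_pm_213_b : Cut := Cut.of [[⟨0, 1, 0, 67108864⟩, ⟨1, 1, 0, 67108864⟩, ⟨2, 2, 0, 16777216⟩]]

noncomputable def f_pm_213_b : ℕ → ℕ → ℕ → ℕ → Bool := onCell 1239849684 370763052 0 1230186008 587336777 62277027
    (rowB 3 eng mog cd1q2b cd6q3 pd1 0 false true false .pnn 2 1 3 (qsf 1239849684 370763052 0 1230186008 1) ndB1q2b ndB6q3 pcB1 cut_pm_213_b Ext.none)

def k0_pm_213_b : ∃ t, chk3 f_pm_213_b t 1 1 1 = true :=
  ⟨(b (l 3) (b (l 3) (b (l 3) (l 1)))), by decide +kernel⟩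

theorem c_pm_213_b : CertB 1239849684 370763052 0 1230186008 587336777 62277027 3 eng mog cd1q2b cd6q3 pd1 false true false .pnn 2 1 3
    ndB1q2b ndB6q3 pcB1 cut_pm_213_b Ext.none :=
  certB0 (fam := false) (s1 := true) (s2 := false) (a := 2) (b := 1) (c := 3) (cn := .pnn) (n1 := ndB1q2b) (n2 := ndB6q3) (pc := pcB1) (cut := cut_pm_213_b) (xt := Ext.none) (P1 := 1239849684) (W1 := 370763052) (P2 := 0) (W2 := 1230186008) (P3 := 587336777) (W3 := 62277027) (N0 := 3) (En := eng) (mo := mog) (C1 := cd1q2b) (C2 := cd6q3) (C3 := pd1)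
    rfl k0_pm_213_b

noncomputable def f_pm_303 : ℕ → ℕ → ℕ → ℕ → Bool := onCell 1610612736 536870912 0 1230186008 587336777 62277027
    (rowB 3 eng mog cd1q3 cd6q3 pd0 0 false true false .npn 3 0 3 (qsf 1610612736 536870912 0 1230186008 0) ndB1q3 ndB6q3 pcB0 Cut.none Ext.none)

def k0_pm_303 : ∃ t, chk3 f_pm_303 t 1 1 1 = true :=
  ⟨(b (l 3) (b (l 3) (a (l 3) (l 1)))), by decide +kernel⟩

theorem c_pm_303 : CertB 1610612736 536870912 0 1230186008 587336777 62277027 3 eng mog cd1q3 cd6q3 pd0 false true false .npn 3 0 3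
    ndB1q3 ndB6q3 pcB0 Cut.none Ext.none :=
  certB0 (fam := false) (s1 := true) (s2 := false) (a := 3) (b := 0) (c := 3) (cn := .npn) (n1 := ndB1q3) (n2 := ndB6q3) (pc := pcB0) (cut := Cut.none) (xt := Ext.none) (P1 := 1610612736) (W1 := 536870912) (P2 := 0) (W2 := 1230186008) (P3 := 587336777) (W3 := 62277027) (N0 := 3) (En := eng) (mo := mog) (C1 := cd1q3) (C2 := cd6q3) (C3 := pd0)
    rfl k0_pm_303

noncomputable def f_pm_313 : ℕ → ℕ → ℕ → ℕ → Bool := onCell 1610612736 536870912 0 1230186008 587336777 62277027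
    (rowB 3 eng mog cd1q3 cd6q3 pd1 0 false true false .dn 3 1 3 (qsf 1610612736 536870912 0 1230186008 1) ndB1q3 ndB6q3 pcB1 Cut.none Ext.none)

def k0_pm_313 : ∃ t, chk3 f_pm_313 t 1 1 1 = true :=
  ⟨(b (l 3) (l 1)), by decide +kernel⟩

theorem c_pm_313 : CertB 1610612736 536870912 0 1230186008 587336777 62277027 3 eng mog cd1q3 cd6q3 pd1 false true false .dn 3 1 3
    ndB1q3 ndB6q3 pcB1 Cut.none Ext.none :=
  certB0 (fam := false) (s1 := true) (s2 := false) (a := 3) (b := 1) (c := 3) (cn := .dn) (n1 := ndB1q3) (n2 := ndB6q3) (pc := pcB1) (cut := Cut.none) (xt := Ext.none) (P1 := 1610612736) (W1 := 536870912) (P2 := 0) (W2 := 1230186008) (P3 := 587336777) (W3 := 62277027) (N0 := 3) (En := eng) (mo := mog) (C1 := cd1q3) (C2 := cd6q3) (C3 := pd1)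
    rfl k0_pm_313

noncomputable def f_mm_001 : ℕ → ℕ → ℕ → ℕ → Bool := onCell 0 536870912 0 536870912 587336777 62277027
    (rowB 3 eng mog cd1q0 cd6q1 pd0 1 false false false .up 0 0 1 (qsf 0 536870912 536870912 536870912 0) ndB1q0 ndB6q1 pcB0 Cut.none Ext.none)

def k0_mm_001 : ∃ t, chk3 f_mm_001 t 1 1 1 = true :=
  ⟨(l 3), by decide +kernel⟩

theorem c_mm_001 : CertB 0 536870912 536870912 536870912 587336777 62277027 3 eng mog cd1q0 cd6q1 pd0 false false false .up 0 0 1
    ndB1q0 ndB6q1 pcB0 Cut.none Ext.none :=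
  certB1 (fam := false) (s1 := false) (s2 := false) (a := 0) (b := 0) (c := 1) (cn := .up) (n1 := ndB1q0) (n2 := ndB6q1) (pc := pcB0) (cut := Cut.none) (xt := Ext.none) (P1 := 0) (W1 := 536870912) (P2 := 536870912) (W2 := 536870912) (P3 := 587336777) (W3 := 62277027) (N0 := 3) (En := eng) (mo := mog) (C1 := cd1q0) (C2 := cd6q1) (C3 := pd0)
    rfl (fun _ => rfl) k0_mm_001

noncomputable def f_mm_011 : ℕ → ℕ → ℕ → ℕ → Bool := onCell 0 536870912 536870912 536870912 587336777 62277027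
    (rowB 3 eng mog cd1q0 cd6q1 pd1 1 false false false .pnn 0 1 1 (qsf 0 536870912 536870912 536870912 1) ndB1q0 ndB6q1 pcB1 Cut.none Ext.none)

def k0_mm_011 : ∃ t, chk3 f_mm_011 t 1 1 1 = true :=
  ⟨(l 5), by decide +kernel⟩

theorem c_mm_011 : CertB 0 536870912 536870912 536870912 587336777 62277027 3 eng mog cd1q0 cd6q1 pd1 false false false .pnn 0 1 1
    ndB1q0 ndB6q1 pcB1 Cut.none Ext.none :=
  certB1 (fam := false) (s1 := false) (s2 := false) (a := 0) (b := 1) (c := 1) (cn := .pnn) (n1 := ndB1q0) (n2 := ndB6q1) (pc := pcB1) (cut := Cut.none) (xt := Ext.none) (P1 := 0) (W1 := 536870912) (P2 := 536870912) (W2 := 536870912) (P3 := 587336777) (W3 := 62277027) (N0 := 3) (En := eng) (mo := mog) (C1 := cd1q0) (C2 := cd6q1) (C3 := pd1)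
    rfl (fun _ => rfl) k0_mm_011

noncomputable def f_mm_012 : ℕ → ℕ → ℕ → ℕ → Bool := onCell 0 536870912 1073741824 536870912 587336777 62277027
    (rowB 3 eng mog cd1q0 cd6q2 pd1 0 false false false .pnp 0 1 2 (qsf 0 536870912 1073741824 536870912 1) ndB1q0 ndB6q2 pcB1 Cut.none Ext.none)

def k0_mm_012 : ∃ t, chk3 f_mm_012 t 1 1 1 = true :=
  ⟨(l 5), by decide +kernel⟩

theorem c_mm_012 : CertB 0 536870912 1073741824 536870912 587336777 62277027 3 eng mog cd1q0 cd6q2 pd1 false false false .pnp 0 1 2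
    ndB1q0 ndB6q2 pcB1 Cut.none Ext.none :=
  certB0 (fam := false) (s1 := false) (s2 := false) (a := 0) (b := 1) (c := 2) (cn := .pnp) (n1 := ndB1q0) (n2 := ndB6q2) (pc := pcB1) (cut := Cut.none) (xt := Ext.none) (P1 := 0) (W1 := 536870912) (P2 := 1073741824) (W2 := 536870912) (P3 := 587336777) (W3 := 62277027) (N0 := 3) (En := eng) (mo := mog) (C1 := cd1q0) (C2 := cd6q2) (C3 := pd1)
    rfl k0_mm_012

noncomputable def f_mm_022 : ℕ → ℕ → ℕ → ℕ → Bool := onCell 0 536870912 1073741824 536870912 587336777 62277027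
    (rowB 3 eng mog cd1q0 cd6q2 pd2 0 false false false .pp 0 2 2 (qsf 0 536870912 1073741824 536870912 2) ndB1q0 ndB6q2 pcB2 Cut.none Ext.none)

def k0_mm_022 : ∃ t, chk3 f_mm_022 t 1 1 1 = true :=
  ⟨(l 5), by decide +kernel⟩

theorem c_mm_022 : CertB 0 536870912 1073741824 536870912 587336777 62277027 3 eng mog cd1q0 cd6q2 pd2 false false false .pp 0 2 2
    ndB1q0 ndB6q2 pcB2 Cut.none Ext.none :=
  certB0 (fam := false) (s1 := false) (s2 := false) (a := 0) (b := 2) (c := 2) (cn := .pp) (n1 := ndB1q0) (n2 := ndB6q2) (pc := pcB2) (cut := Cut.none) (xt := Ext.none) (P1 := 0) (W1 := 536870912) (P2 := 1073741824) (W2 := 536870912) (P3 := 587336777) (W3 := 62277027) (N0 := 3) (En := eng) (mo := mog) (C1 := cd1q0) (C2 := cd6q2) (C3 := pd2)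
    rfl k0_mm_022

noncomputable def f_mm_023 : ℕ → ℕ → ℕ → ℕ → Bool := onCell 0 536870912 0 1230186008 587336777 62277027
    (rowB 3 eng mog cd1q0 cd6q3 pd2 0 false false false .up 0 2 3 (qsf 0 536870912 0 1230186008 2) ndB1q0 ndB6q3 pcB2 Cut.none Ext.none)

def k0_mm_023 : ∃ t, chk3 f_mm_023 t 1 1 1 = true :=
  ⟨(l 5), by decide +kernel⟩

theorem c_mm_023 : CertB 0 536870912 0 1230186008 587336777 62277027 3 eng mog cd1q0 cd6q3 pd2 false false false .up 0 2 3
    ndB1q0 ndB6q3 pcB2 Cut.none Ext.none :=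
  certB0 (fam := false) (s1 := false) (s2 := false) (a := 0) (b := 2) (c := 3) (cn := .up) (n1 := ndB1q0) (n2 := ndB6q3) (pc := pcB2) (cut := Cut.none) (xt := Ext.none) (P1 := 0) (W1 := 536870912) (P2 := 0) (W2 := 1230186008) (P3 := 587336777) (W3 := 62277027) (N0 := 3) (En := eng) (mo := mog) (C1 := cd1q0) (C2 := cd6q3) (C3 := pd2)
    rfl k0_mm_023

noncomputable def f_mm_033 : ℕ → ℕ → ℕ → ℕ → Bool := onCell 0 536870912 0 1230186008 587336777 62277027
    (rowB 3 eng mog cd1q0 cd6q3 pd3 0 false false false .pnn 0 3 3 (qsf 0 536870912 0 1230186008 3) ndB1q0 ndB6q3 pcB3 Cut.none Ext.none)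

def k0_mm_033 : ∃ t, chk3 f_mm_033 t 1 1 1 = true :=
  ⟨(l 5), by decide +kernel⟩

theorem c_mm_033 : CertB 0 536870912 0 1230186008 587336777 62277027 3 eng mog cd1q0 cd6q3 pd3 false false false .pnn 0 3 3
    ndB1q0 ndB6q3 pcB3 Cut.none Ext.none :=
  certB0 (fam := false) (s1 := false) (s2 := false) (a := 0) (b := 3) (c := 3) (cn := .pnn) (n1 := ndB1q0) (n2 := ndB6q3) (pc := pcB3) (cut := Cut.none) (xt := Ext.none) (P1 := 0) (W1 := 536870912) (P2 := 0) (W2 := 1230186008) (P3 := 587336777) (W3 := 62277027) (N0 := 3) (En := eng) (mo := mog) (C1 := cd1q0) (C2 := cd6q3) (C3 := pd3)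
    rfl k0_mm_033

noncomputable def f_mm_101 : ℕ → ℕ → ℕ → ℕ → Bool := onCell 536870912 536870912 0 536870912 587336777 62277027
    (rowB 3 eng mog cd1q1 cd6q1 pd0 1 false false false .npn 1 0 1 (qsf 536870912 536870912 536870912 536870912 0) ndB1q1 ndB6q1 pcB0 Cut.none Ext.none)

def k0_mm_101 : ∃ t, chk3 f_mm_101 t 1 1 1 = true :=
  ⟨(l 3), by decide +kernel⟩

theorem c_mm_101 : CertB 536870912 536870912 536870912 536870912 587336777 62277027 3 eng mog cd1q1 cd6q1 pd0 false false false .npn 1 0 1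
    ndB1q1 ndB6q1 pcB0 Cut.none Ext.none :=
  certB1 (fam := false) (s1 := false) (s2 := false) (a := 1) (b := 0) (c := 1) (cn := .npn) (n1 := ndB1q1) (n2 := ndB6q1) (pc := pcB0) (cut := Cut.none) (xt := Ext.none) (P1 := 536870912) (W1 := 536870912) (P2 := 536870912) (W2 := 536870912) (P3 := 587336777) (W3 := 62277027) (N0 := 3) (En := eng) (mo := mog) (C1 := cd1q1) (C2 := cd6q1) (C3 := pd0)
    rfl (fun _ => rfl) k0_mm_101

noncomputable def f_mm_102 : ℕ → ℕ → ℕ → ℕ → Bool := onCell 536870912 536870912 1073741824 536870912 587336777 62277027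
    (rowB 3 eng mog cd1q1 cd6q2 pd0 0 false false false .npp 1 0 2 (qsf 536870912 536870912 1073741824 536870912 0) ndB1q1 ndB6q2 pcB0 Cut.none Ext.none)

def k0_mm_102 : ∃ t, chk3 f_mm_102 t 1 1 1 = true :=
  ⟨(l 3), by decide +kernel⟩

theorem c_mm_102 : CertB 536870912 536870912 1073741824 536870912 587336777 62277027 3 eng mog cd1q1 cd6q2 pd0 false false false .npp 1 0 2
    ndB1q1 ndB6q2 pcB0 Cut.none Ext.none :=
  certB0 (fam := false) (s1 := false) (s2 := false) (a := 1) (b := 0) (c := 2) (cn := .npp) (n1 := ndB1q1) (n2 := ndB6q2) (pc := pcB0) (cut := Cut.none) (xt := Ext.none) (P1 := 536870912) (W1 := 536870912) (P2 := 1073741824) (W2 := 536870912) (P3 := 587336777) (W3 := 62277027) (N0 := 3) (En := eng) (mo := mog) (C1 := cd1q1) (C2 := cd6q2) (C3 := pd0)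
    rfl k0_mm_102

noncomputable def f_mm_112 : ℕ → ℕ → ℕ → ℕ → Bool := onCell 536870912 536870912 1073741824 536870912 587336777 62277027
    (rowB 3 eng mog cd1q1 cd6q2 pd1 0 false false false .dn 1 1 2 (qsf 536870912 536870912 1073741824 536870912 1) ndB1q1 ndB6q2 pcB1 Cut.none Ext.none)

def k0_mm_112 : ∃ t, chk3 f_mm_112 t 1 1 1 = true :=
  ⟨(l 3), by decide +kernel⟩

theorem c_mm_112 : CertB 536870912 536870912 1073741824 536870912 587336777 62277027 3 eng mog cd1q1 cd6q2 pd1 false false false .dn 1 1 2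
    ndB1q1 ndB6q2 pcB1 Cut.none Ext.none :=
  certB0 (fam := false) (s1 := false) (s2 := false) (a := 1) (b := 1) (c := 2) (cn := .dn) (n1 := ndB1q1) (n2 := ndB6q2) (pc := pcB1) (cut := Cut.none) (xt := Ext.none) (P1 := 536870912) (W1 := 536870912) (P2 := 1073741824) (W2 := 536870912) (P3 := 587336777) (W3 := 62277027) (N0 := 3) (En := eng) (mo := mog) (C1 := cd1q1) (C2 := cd6q2) (C3 := pd1)
    rfl k0_mm_112

noncomputable def f_mm_113 : ℕ → ℕ → ℕ → ℕ → Bool := onCell 536870912 536870912 0 1230186008 587336777 62277027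
    (rowB 3 eng mog cd1q1 cd6q3 pd1 0 false false false .nn 1 1 3 (qsf 536870912 536870912 0 1230186008 1) ndB1q1 ndB6q3 pcB1 Cut.none Ext.none)

def k0_mm_113 : ∃ t, chk3 f_mm_113 t 1 1 1 = true :=
  ⟨(b (l 5) (b (l 5) (a (l 5) (l 3)))), by decide +kernel⟩

theorem c_mm_113 : CertB 536870912 536870912 0 1230186008 587336777 62277027 3 eng mog cd1q1 cd6q3 pd1 false false false .nn 1 1 3
    ndB1q1 ndB6q3 pcB1 Cut.none Ext.none :=
  certB0 (fam := false) (s1 := false) (s2 := false) (a := 1) (b := 1) (c := 3) (cn := .nn) (n1 := ndB1q1) (n2 := ndB6q3) (pc := pcB1) (cut := Cut.none) (xt := Ext.none) (P1 := 536870912) (W1 := 536870912) (P2 := 0) (W2 := 1230186008) (P3 := 587336777) (W3 := 62277027) (N0 := 3) (En := eng) (mo := mog) (C1 := cd1q1) (C2 := cd6q3) (C3 := pd1)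
    rfl k0_mm_113

noncomputable def f_mm_123 : ℕ → ℕ → ℕ → ℕ → Bool := onCell 1073741824 536870912 0 1230186008 587336777 62277027
    (rowB 3 eng mog cd1q1 cd6q3 pd2 2 false false false .npn 1 2 3 (qsf 536870912 536870912 0 1230186008 2) ndB1q1 ndB6q3 pcB2 Cut.none Ext.none)

def k0_mm_123 : ∃ t, chk3 f_mm_123 t 1 1 1 = true :=
  ⟨(b (l 5) (l 5)), by decide +kernel⟩

theorem c_mm_123 : CertB 536870912 536870912 0 1230186008 587336777 62277027 3 eng mog cd1q1 cd6q3 pd2 false false false .npn 1 2 3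
    ndB1q1 ndB6q3 pcB2 Cut.none Ext.none :=
  certB2 (fam := false) (s1 := false) (s2 := false) (a := 1) (b := 2) (c := 3) (cn := .npn) (n1 := ndB1q1) (n2 := ndB6q3) (pc := pcB2) (cut := Cut.none) (xt := Ext.none) (P1 := 536870912) (W1 := 536870912) (P2 := 0) (W2 := 1230186008) (P3 := 587336777) (W3 := 62277027) (N0 := 3) (En := eng) (mo := mog) (C1 := cd1q1) (C2 := cd6q3) (C3 := pd2)
    rfl (fun _ => rfl) k0_mm_123

noncomputable def f_mm_133 : ℕ → ℕ → ℕ → ℕ → Bool := onCell 536870912 536870912 0 1230186008 587336777 62277027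
    (rowB 3 eng mog cd1q1 cd6q3 pd3 0 false false false .dn 1 3 3 (qsf 536870912 536870912 0 1230186008 3) ndB1q1 ndB6q3 pcB3 Cut.none Ext.none)

def k0_mm_133 : ∃ t, chk3 f_mm_133 t 1 1 1 = true :=
  ⟨(b (l 5) (l 1)), by decide +kernel⟩

theorem c_mm_133 : CertB 536870912 536870912 0 1230186008 587336777 62277027 3 eng mog cd1q1 cd6q3 pd3 false false false .dn 1 3 3
    ndB1q1 ndB6q3 pcB3 Cut.none Ext.none :=
  certB0 (fam := false) (s1 := false) (s2 := false) (a := 1) (b := 3) (c := 3) (cn := .dn) (n1 := ndB1q1) (n2 := ndB6q3) (pc := pcB3) (cut := Cut.none) (xt := Ext.none) (P1 := 536870912) (W1 := 536870912) (P2 := 0) (W2 := 1230186008) (P3 := 587336777) (W3 := 62277027) (N0 := 3) (En := eng) (mo := mog) (C1 := cd1q1) (C2 := cd6q3) (C3 := pd3)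
    rfl k0_mm_133

noncomputable def f_mm_202_a : ℕ → ℕ → ℕ → ℕ → Bool := onCell 0 536870912 0 536870912 587336777 62277027
    (rowB 3 eng mog cd1q2a cd6q2 pd0 1 false false false .pp 2 0 2 (qsf 0 536870912 1073741824 536870912 0) ndB1q2a ndB6q2 pcB0 Cut.none Ext.none)

def k0_mm_202_a : ∃ t, chk3 f_mm_202_a t 2 1 1 = true :=
  ⟨(b (a (a (b (b (b (b (l 16473096) (a (l 16479616) (l 16459776))) (a (b (l 16480704) (a (l 16464144) (b (l 16483440) (l 16486584)))) (b (a (c (l 16588472) (l 16474008)) (b (l 16478448) (l 16468992))) (a (b (l 16480888) (l 16484544)) (b (l 16479920) (l 16484288)))))) (b (a (b (a (b (l 16491512) (l 16493856)) (l 16488624)) (a (l 16494976) (b (l 16495864) (l 16491872)))) (b (a (b (l 16484136) (l 16488112)) (b (l 16490064) (l 16487376))) (a (a (l 16515096) (l 16492176)) (l 16536368)))) (a (b (b (a (l 16502112) (l 16496928)) (l 16531232)) (a (b (l 16502264) (l 16505072)) (l 16520328))) (b (c (l 126868826215) (l 16554000)) (a (l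 16505016) (l 16511408)))))) (b (b (a (b (a (l 16510192) (l 16510208)) (a (l 16517528) (l 16543560))) (l 174113537655)) (a (a (b (l 16550080) (a (l 16534808) (l 16533536))) (b (l 16553384) (l 99488510887))) (l 3))) (b (a (b (l 99488526855) (l 155323069671)) (l 3)) (l 3)))) (b (b (a (b (b (a (l 16468776) (b (l 16467480) (b (l 16467928) (l 16458064)))) (a (b (l 16470720) (a (l 16537584) (l 16473784))) (b (a (b (l 16469544) (l 16514392)) (b (a (l 16471056) (l 16471584)) (l 16473472))) (b (a (l 16473152) (l 16475040)) (l 16465360))))) (b (b (a (a (l 16476352) (l 16476880)) (a (l 16477936) (l 16481056))) (a (a (l 16479024) (l 16482256)) (l 16479008))) (a (b (a (l 16484248) (l 16483072)) (l 16486000)) (l 199883208535)))) (b (b (a (b (a (l 16466480) (l 173576512167)) (a (b (l 16468752) (a (l 16470688) (l 16471456))) (l 215989256807))) (b (l 228337340167) (l 3))) (a (b (b (l 189682660071) (l 16540688)) (l 160691738983)) (l 3))) (l 3))) (b (a (a (b (l 131163773559)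 (l 16499360)) (l 3)) (l 3)) (l 3))) (l 3))) (l 3)) (l 3)), by decide +kernel⟩

def k1_mm_202_a : ∃ t, chk3 f_mm_202_a t 3 1 1 = true :=
  ⟨(l 3), by decide +kernel⟩

theorem s2_mm_202_a : ∃ t, chk3 f_mm_202_a t 1 1 1 = true := ex3_a k0_mm_202_a k1_mm_202_a

theorem c_mm_202_a : CertB 0 536870912 1073741824 536870912 587336777 62277027 3 eng mog cd1q2a cd6q2 pd0 false false false .pp 2 0 2
    ndB1q2a ndB6q2 pcB0 Cut.none Ext.none :=
  certB1 (fam := false) (s1 := false) (s2 := false) (a := 2) (b := 0) (c := 2) (cn := .pp) (n1 := ndB1q2a) (n2 := ndB6q2) (pc := pcB0) (cut := Cut.none) (xt := Ext.none) (P1 := 0) (W1 := 536870912) (P2 := 1073741824) (W2 := 536870912) (P3 := 587336777) (W3 := 62277027) (N0 := 3) (En := eng) (mo := mog) (C1 := cd1q2a) (C2 := cd6q2) (C3 := pd0)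
    rfl (fun _ => rfl) s2_mm_202_a

noncomputable def f_mm_202_b : ℕ → ℕ → ℕ → ℕ → Bool := onCell 0 536870912 1073741824 536870912 587336777 62277027
    (rowB 3 eng mog cd1q2b cd6q2 pd0 2 false false false .pp 2 0 2 (qsf 1239849684 370763052 1073741824 536870912 0) ndB1q2b ndB6q2 pcB0 Cut.none Ext.none)

def k0_mm_202_b : ∃ t, chk3 f_mm_202_b t 1 1 1 = true :=
  ⟨(a (b (a (b (l 1) (a (a (b (b (l 16530240) (l 16477344)) (l 16386416)) (b (b (l 1) (l 16562944)) (b (b (l 16500920) (l 132103176663)) (a (l 16395384) (l 16434648))))) (b (l 1) (a (b (a (a (l 16527600) (l 1)) (l 1)) (a (l 16474248) (l 16511856))) (b (l 1) (a (b (l 1) (l 16532016)) (l 1))))))) (l 1)) (a (b (a (b (a (a (l 16235800) (l 16435360)) (a (a (l 16441344) (l 16483784)) (b (l 16363720) (a (l 16306008) (l 16324232))))) (b (a (a (l 16312496) (l 97340593927)) (b (l 16265928) (l 16249816))) (l 3))) (b (b (a (l 16484672) (b (l 16518336) (l 16480912))) (a (l 16452496) (b (l 16447992) (l 16425096))))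 (b (a (b (l 16334800) (l 16318936)) (b (l 16403144) (l 16376168))) (a (l 3) (l 76939635591))))) (l 3)) (b (a (b (b (a (a (l 194380510551) (l 1)) (l 1)) (a (l 16511944) (l 257731241975))) (b (a (b (l 16468992) (l 16452440)) (b (l 214781424519) (l 38150983271))) (a (a (l 16423528) (l 80697820071)) (b (l 16524832) (l 3))))) (b (l 1) (b (a (b (l 1) (l 241088204871)) (l 1)) (a (b (a (l 16545936) (l 84858921543)) (a (l 16538560) (l 16565088))) (b (l 1) (a (l 16630512) (l 1))))))) (b (l 3) (l 3))))) (b (l 1) (a (b (l 1) (b (a (b (a (b (l 1) (l 3)) (l 1)) (l 3)) (l 1)) (l 3))) (l 1)))), by decide +kernel⟩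

theorem c_mm_202_b : CertB 1239849684 370763052 1073741824 536870912 587336777 62277027 3 eng mog cd1q2b cd6q2 pd0 false false false .pp 2 0 2
    ndB1q2b ndB6q2 pcB0 Cut.none Ext.none :=
  certB2 (fam := false) (s1 := false) (s2 := false) (a := 2) (b := 0) (c := 2) (cn := .pp) (n1 := ndB1q2b) (n2 := ndB6q2) (pc := pcB0) (cut := Cut.none) (xt := Ext.none) (P1 := 1239849684) (W1 := 370763052) (P2 := 1073741824) (W2 := 536870912) (P3 := 587336777) (W3 := 62277027) (N0 := 3) (En := eng) (mo := mog) (C1 := cd1q2b) (C2 := cd6q2) (C3 := pd0)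
    rfl (fun _ => rfl) k0_mm_202_b

noncomputable def f_mm_203_a : ℕ → ℕ → ℕ → ℕ → Bool := onCell 0 536870912 0 1230186008 587336777 62277027
    (rowB 3 eng mog cd1q2a cd6q3 pd0 0 false false false .up 2 0 3 (qsf 0 536870912 0 1230186008 0) ndB1q2a ndB6q3 pcB0 Cut.none Ext.none)

def k0_mm_203_a : ∃ t, chk3 f_mm_203_a t 1 1 1 = true :=
  ⟨(b (l 2) (b (l 2) (l 3))), by decide +kernel⟩

theorem c_mm_203_a : CertB 0 536870912 0 1230186008 587336777 62277027 3 eng mog cd1q2a cd6q3 pd0 false false false .up 2 0 3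
    ndB1q2a ndB6q3 pcB0 Cut.none Ext.none :=
  certB0 (fam := false) (s1 := false) (s2 := false) (a := 2) (b := 0) (c := 3) (cn := .up) (n1 := ndB1q2a) (n2 := ndB6q3) (pc := pcB0) (cut := Cut.none) (xt := Ext.none) (P1 := 0) (W1 := 536870912) (P2 := 0) (W2 := 1230186008) (P3 := 587336777) (W3 := 62277027) (N0 := 3) (En := eng) (mo := mog) (C1 := cd1q2a) (C2 := cd6q3) (C3 := pd0)
    rfl k0_mm_203_a

noncomputable def f_mm_203_b : ℕ → ℕ → ℕ → ℕ → Bool := onCell 1239849684 370763052 0 1230186008 587336777 62277027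
    (rowB 3 eng mog cd1q2b cd6q3 pd0 0 false false false .up 2 0 3 (qsf 1239849684 370763052 0 1230186008 0) ndB1q2b ndB6q3 pcB0 Cut.none Ext.none)

def k0_mm_203_b : ∃ t, chk3 f_mm_203_b t 1 1 1 = true :=
  ⟨(b (l 3) (b (l 3) (l 3))), by decide +kernel⟩

theorem c_mm_203_b : CertB 1239849684 370763052 0 1230186008 587336777 62277027 3 eng mog cd1q2b cd6q3 pd0 false false false .up 2 0 3
    ndB1q2b ndB6q3 pcB0 Cut.none Ext.none :=
  certB0 (fam := false) (s1 := false) (s2 := false) (a := 2) (b := 0) (c := 3) (cn := .up) (n1 := ndB1q2b) (n2 := ndB6q3) (pc := pcB0) (cut := Cut.none) (xt := Ext.none) (P1 := 1239849684) (W1 := 370763052) (P2 := 0) (W2 := 1230186008) (P3 := 587336777) (W3 := 62277027) (N0 := 3) (En := eng) (mo := mog) (C1 := cd1q2b) (C2 := cd6q3) (C3 := pd0)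
    rfl k0_mm_203_b

noncomputable def f_mm_213_a : ℕ → ℕ → ℕ → ℕ → Bool := onCell 0 536870912 0 1230186008 587336777 62277027
    (rowB 3 eng mog cd1q2a cd6q3 pd1 0 false false false .pnn 2 1 3 (qsf 0 536870912 0 1230186008 1) ndB1q2a ndB6q3 pcB1 Cut.none Ext.none)

def k0_mm_213_a : ∃ t, chk3 f_mm_213_a t 1 1 1 = true :=
  ⟨(b (a (l 3) (b (l 5) (l 3))) (b (l 3) (l 3))), by decide +kernel⟩

theorem c_mm_213_a : CertB 0 536870912 0 1230186008 587336777 62277027 3 eng mog cd1q2a cd6q3 pd1 false false false .pnn 2 1 3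
    ndB1q2a ndB6q3 pcB1 Cut.none Ext.none :=
  certB0 (fam := false) (s1 := false) (s2 := false) (a := 2) (b := 1) (c := 3) (cn := .pnn) (n1 := ndB1q2a) (n2 := ndB6q3) (pc := pcB1) (cut := Cut.none) (xt := Ext.none) (P1 := 0) (W1 := 536870912) (P2 := 0) (W2 := 1230186008) (P3 := 587336777) (W3 := 62277027) (N0 := 3) (En := eng) (mo := mog) (C1 := cd1q2a) (C2 := cd6q3) (C3 := pd1)
    rfl k0_mm_213_a

noncomputable def f_mm_213_b : ℕ → ℕ → ℕ → ℕ → Bool := onCell 1239849684 370763052 0 1230186008 587336777 62277027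
    (rowB 3 eng mog cd1q2b cd6q3 pd1 0 false false false .pnn 2 1 3 (qsf 1239849684 370763052 0 1230186008 1) ndB1q2b ndB6q3 pcB1 Cut.none Ext.none)

def k0_mm_213_b : ∃ t, chk3 f_mm_213_b t 1 1 1 = true :=
  ⟨(b (l 3) (b (l 3) (l 3))), by decide +kernel⟩

theorem c_mm_213_b : CertB 1239849684 370763052 0 1230186008 587336777 62277027 3 eng mog cd1q2b cd6q3 pd1 false false false .pnn 2 1 3
    ndB1q2b ndB6q3 pcB1 Cut.none Ext.none :=
  certB0 (fam := false) (s1 := false) (s2 := false) (a := 2) (b := 1) (c := 3) (cn := .pnn) (n1 := ndB1q2b) (n2 := ndB6q3) (pc := pcB1) (cut := Cut.none) (xt := Ext.none) (P1 := 1239849684) (W1 := 370763052) (P2 := 0) (W2 := 1230186008) (P3 := 587336777) (W3 := 62277027) (N0 := 3) (En := eng) (mo := mog) (C1 := cd1q2b) (C2 := cd6q3) (C3 := pd1)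
    rfl k0_mm_213_b

noncomputable def f_mm_303 : ℕ → ℕ → ℕ → ℕ → Bool := onCell 0 536870912 0 1230186008 587336777 62277027
    (rowB 3 eng mog cd1q3 cd6q3 pd0 2 false false false .npn 3 0 3 (qsf 1610612736 536870912 0 1230186008 0) ndB1q3 ndB6q3 pcB0 Cut.none Ext.none)

def k0_mm_303 : ∃ t, chk3 f_mm_303 t 1 1 1 = true :=
  ⟨(b (l 3) (b (l 3) (l 3))), by decide +kernel⟩

theorem c_mm_303 : CertB 1610612736 536870912 0 1230186008 587336777 62277027 3 eng mog cd1q3 cd6q3 pd0 false false false .npn 3 0 3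
    ndB1q3 ndB6q3 pcB0 Cut.none Ext.none :=
  certB2 (fam := false) (s1 := false) (s2 := false) (a := 3) (b := 0) (c := 3) (cn := .npn) (n1 := ndB1q3) (n2 := ndB6q3) (pc := pcB0) (cut := Cut.none) (xt := Ext.none) (P1 := 1610612736) (W1 := 536870912) (P2 := 0) (W2 := 1230186008) (P3 := 587336777) (W3 := 62277027) (N0 := 3) (En := eng) (mo := mog) (C1 := cd1q3) (C2 := cd6q3) (C3 := pd0)
    rfl (fun _ => rfl) k0_mm_303

noncomputable def f_mm_313 : ℕ → ℕ → ℕ → ℕ → Bool := onCell 1610612736 536870912 0 1230186008 587336777 62277027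
    (rowB 3 eng mog cd1q3 cd6q3 pd1 0 false false false .dn 3 1 3 (qsf 1610612736 536870912 0 1230186008 1) ndB1q3 ndB6q3 pcB1 Cut.none Ext.none)

def k0_mm_313 : ∃ t, chk3 f_mm_313 t 1 1 1 = true :=
  ⟨(b (l 3) (l 1)), by decide +kernel⟩

theorem c_mm_313 : CertB 1610612736 536870912 0 1230186008 587336777 62277027 3 eng mog cd1q3 cd6q3 pd1 false false false .dn 3 1 3
    ndB1q3 ndB6q3 pcB1 Cut.none Ext.none :=
  certB0 (fam := false) (s1 := false) (s2 := false) (a := 3) (b := 1) (c := 3) (cn := .dn) (n1 := ndB1q3) (n2 := ndB6q3) (pc := pcB1) (cut := Cut.none) (xt := Ext.none) (P1 := 1610612736) (W1 := 536870912) (P2 := 0) (W2 := 1230186008) (P3 := 587336777) (W3 := 62277027) (N0 := 3) (En := eng) (mo := mog) (C1 := cd1q3) (C2 := cd6q3) (C3 := pd1)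
    rfl k0_mm_313

end Pool.Agent.Strip051.G.I5470_6050.Tab.C.BB16

namespace Pool.Agent.Strip051.G.I5470_6050.Tab.C.BB17

open Pool.Agent.Strip051.PB Pool.Agent.Strip051.PB.T
open Pool.Agent.Strip051.G.I5470_6050.Tab

noncomputable def f_pp_001 : ℕ → ℕ → ℕ → ℕ → Bool := onCell 0 536870912 0 536870912 587336777 62277027
    (rowB 3 eng mog cd1q0 cd7q1 pd0 1 false true true .up 0 0 1 (qsf 0 536870912 536870912 536870912 0) ndB1q0 ndB7q1 pcB0 Cut.none Ext.none)

def k0_pp_001 : ∃ t, chk3 f_pp_001 t 1 1 1 = true :=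
  ⟨(l 3), by decide +kernel⟩

theorem c_pp_001 : CertB 0 536870912 536870912 536870912 587336777 62277027 3 eng mog cd1q0 cd7q1 pd0 false true true .up 0 0 1
    ndB1q0 ndB7q1 pcB0 Cut.none Ext.none :=
  certB1 (fam := false) (s1 := true) (s2 := true) (a := 0) (b := 0) (c := 1) (cn := .up) (n1 := ndB1q0) (n2 := ndB7q1) (pc := pcB0) (cut := Cut.none) (xt := Ext.none) (P1 := 0) (W1 := 536870912) (P2 := 536870912) (W2 := 536870912) (P3 := 587336777) (W3 := 62277027) (N0 := 3) (En := eng) (mo := mog) (C1 := cd1q0) (C2 := cd7q1) (C3 := pd0)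
    rfl (fun _ => rfl) k0_pp_001

noncomputable def cut_pp_011 : Cut := Cut.of [[⟨0, 0, 0, 67108864⟩, ⟨1, 1, 0, 67108864⟩, ⟨2, 1, 0, 67108864⟩]]

noncomputable def f_pp_011 : ℕ → ℕ → ℕ → ℕ → Bool := onCell 0 536870912 536870912 536870912 587336777 62277027
    (rowB 3 eng mog cd1q0 cd7q1 pd1 1 false true true .pnn 0 1 1 (qsf 0 536870912 536870912 536870912 1) ndB1q0 ndB7q1 pcB1 cut_pp_011 Ext.none)

def k0_pp_011 : ∃ t, chk3 f_pp_011 t 1 1 1 = true :=
  ⟨(b (l 3) (b (l 3) (a (b (l 3) (a (a (b (l 3) (a (l 6) (l 3))) (l 3)) (l 2))) (l 2)))), by decide +kernel⟩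

theorem c_pp_011 : CertB 0 536870912 536870912 536870912 587336777 62277027 3 eng mog cd1q0 cd7q1 pd1 false true true .pnn 0 1 1
    ndB1q0 ndB7q1 pcB1 cut_pp_011 Ext.none :=
  certB1 (fam := false) (s1 := true) (s2 := true) (a := 0) (b := 1) (c := 1) (cn := .pnn) (n1 := ndB1q0) (n2 := ndB7q1) (pc := pcB1) (cut := cut_pp_011) (xt := Ext.none) (P1 := 0) (W1 := 536870912) (P2 := 536870912) (W2 := 536870912) (P3 := 587336777) (W3 := 62277027) (N0 := 3) (En := eng) (mo := mog) (C1 := cd1q0) (C2 := cd7q1) (C3 := pd1)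
    rfl (fun _ => rfl) k0_pp_011

noncomputable def cut_pp_012 : Cut := Cut.of [[⟨0, 0, 0, 67108864⟩, ⟨1, 1, 0, 67108864⟩, ⟨2, 1, 0, 67108864⟩]]

noncomputable def f_pp_012 : ℕ → ℕ → ℕ → ℕ → Bool := onCell 0 536870912 536870912 536870912 587336777 62277027
    (rowB 3 eng mog cd1q0 cd7q2 pd1 1 false true true .pnp 0 1 2 (qsf 0 536870912 1073741824 536870912 1) ndB1q0 ndB7q2 pcB1 cut_pp_012 Ext.none)

def k0_pp_012 : ∃ t, chk3 f_pp_012 t 1 1 1 = true :=
  ⟨(b (l 3) (a (b (l 3) (b (l 3) (a (a (a (b (l 3) (l 6)) (l 3)) (l 3)) (l 3)))) (l 3))), by decide +kernel⟩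

theorem c_pp_012 : CertB 0 536870912 1073741824 536870912 587336777 62277027 3 eng mog cd1q0 cd7q2 pd1 false true true .pnp 0 1 2
    ndB1q0 ndB7q2 pcB1 cut_pp_012 Ext.none :=
  certB1 (fam := false) (s1 := true) (s2 := true) (a := 0) (b := 1) (c := 2) (cn := .pnp) (n1 := ndB1q0) (n2 := ndB7q2) (pc := pcB1) (cut := cut_pp_012) (xt := Ext.none) (P1 := 0) (W1 := 536870912) (P2 := 1073741824) (W2 := 536870912) (P3 := 587336777) (W3 := 62277027) (N0 := 3) (En := eng) (mo := mog) (C1 := cd1q0) (C2 := cd7q2) (C3 := pd1)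
    rfl (fun _ => rfl) k0_pp_012

noncomputable def cut_pp_022 : Cut := Cut.of [[⟨0, 0, 0, 67108864⟩, ⟨1, 1, 0, 67108864⟩, ⟨2, 1, 0, 67108864⟩]]

noncomputable def f_pp_022 : ℕ → ℕ → ℕ → ℕ → Bool := onCell 0 536870912 1073741824 536870912 587336777 62277027
    (rowB 3 eng mog cd1q0 cd7q2 pd2 1 false true true .pp 0 2 2 (qsf 0 536870912 1073741824 536870912 2) ndB1q0 ndB7q2 pcB2 cut_pp_022 Ext.none)

def k0_pp_022 : ∃ t, chk3 f_pp_022 t 8 8 1 = true :=
  ⟨(b (a (b (l 6) (a (l 6) (b (l 6) (a (l 6) (b (l 6) (a (l 6) (l 16745168))))))) (b (l 3) (a (b (b (a (l 6) (l 3)) (a (b (l 6) (a (l 6) (c (l 155860315511) (l 16767552)))) (b (l 3) (l 259476408983)))) (a (b (b (a (l 6) (l 16768344)) (a (l 16755112) (l 16759080))) (a (l 16748896) (l 16752744))) (a (b (b (l 16766792) (l 16768000)) (l 16763920)) (b (l 150491610455) (c (l 16765784) (l 16765528)))))) (a (b (l 3) (b (a (l 282561856983) (l 3)) (b (l 150491606855) (c (l 134385472887) (l 16764736))))) (l 3)))))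 (a (a (b (a (l 6) (b (l 6) (l 16698296))) (a (a (l 16662928) (l 16667232)) (l 16688000))) (b (b (a (l 16729752) (b (l 16735056) (l 16726824))) (a (l 16706648) (l 16714552))) (a (l 16697560) (l 16705568)))) (b (a (b (a (b (l 16742560) (l 16734256)) (b (l 16750120) (l 16741704))) (a (l 16721864) (b (l 16733440) (l 16725144)))) (b (b (a (b (l 16763728) (l 16760968)) (b (l 183240731447) (l 16763000))) (a (a (l 16747392) (l 16751320)) (a (l 16765520) (l 16769064)))) (a (b (l 16740832) (l 16732528)) (b (l 16759056) (l 16739960))))) (a (b (a (l 16705464) (l 16712760)) (l 16692704)) (b (a (l 16720120) (l 16727408)) (b (l 16711328) (l 16702928))))))), by decide +kernel⟩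

def k1_pp_022 : ∃ t, chk3 f_pp_022 t 9 8 1 = true :=
  ⟨(b (l 3) (b (a (b (a (b (l 3) (a (l 64055388775) (l 3))) (l 3)) (a (a (b (l 16761016) (l 16758056)) (b (l 16762856) (l 16754640))) (a (b (l 3) (l 16761616)) (l 3)))) (l 3)) (a (a (b (a (l 16734672) (b (l 16746432) (l 16737800))) (b (l 16725704) (l 16717184))) (b (b (a (l 16753360) (l 16760208)) (a (l 16745128) (l 16751912))) (b (a (l 16736488) (l 16743624)) (l 16731272)))) (b (a (b (l 3) (l 23253202727)) (l 3)) (b (a (a (l 16750272) (l 16757232)) (l 3)) (a (c (l 16745304) (l 16760824)) (l 93046398055))))))), by decide +kernel⟩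

def k2_pp_022 : ∃ t, chk3 f_pp_022 t 5 8 1 = true :=
  ⟨(b (l 3) (l 3)), by decide +kernel⟩

def k3_pp_022 : ∃ t, chk3 f_pp_022 t 4 9 1 = true :=
  ⟨(b (a (a (a (b (a (l 16632456) (l 16640776)) (l 16624968)) (b (b (l 16661056) (l 16644536)) (l 16640744))) (b (a (b (l 16676120) (l 16659576)) (b (l 16690328) (l 16673648))) (a (l 16634640) (l 16648576)))) (b (a (b (a (l 16704328) (a (l 16714584) (l 16721392))) (a (l 16687368) (l 16700712))) (a (b (a (l 16728176) (b (l 16740024) (l 16730944))) (l 16734968)) (b (b (l 16751432) (l 16744824)) (b (l 16738728) (l 16724376))))) (a (b (a (l 16670520) (l 16683568)) (a (l 16653576) (l 16666432))) (b (a (l 16696512) (l 16711032)) (a (l 16679112) (l 16693456)))))) (a (a (b (a (l 16571400) (l 16586728)) (a (l 16538816) (l 16553592))) (b (a (l 16601216) (l 16614944)) (a (l 16567616) (l 16581016)))) (a (b (b (l 16663984) (l 16625848)) (a (l 16593760) (l 16606000))) (b (a (l 16684384) (b (l 16675984) (l 16658392)))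 (a (l 16639128) (l 16663080)))))), by decide +kernel⟩

def k4_pp_022 : ∃ t, chk3 f_pp_022 t 5 9 1 = true :=
  ⟨(b (a (b (a (b (a (b (a (l 16782248) (l 3)) (b (l 16779448) (l 88214507831))) (l 3)) (a (b (a (b (l 16746656) (l 16742136)) (l 16751472)) (l 16732656)) (b (a (l 16758104) (l 3)) (l 16774088)))) (l 3)) (a (b (b (a (a (l 16726592) (l 16733904)) (a (l 16741024) (l 16747984))) (a (l 16721264) (a (l 16732032) (l 16738968)))) (a (l 16728792) (b (l 16747592) (l 16717376)))) (b (a (b (l 160692196391) (l 16749016)) (b (l 3) (l 228874798983))) (a (b (l 16760904) (l 16751920)) (b (l 16773408) (l 16764280)))))) (b (l 3) (a (b (l 3) (a (b (l 3) (l 247128402839)) (l 3))) (l 3)))) (a (b (a (b (a (l 16669208) (l 16703928)) (l 16679400)) (b (a (l 16717096) (b (l 16755216) (l 16746016))) (b (l 16730616) (l 16700424)))) (a (b (l 16661392) (l 16643160)) (b (l 16686584) (l 16667784)))) (b (a (b (b (a (l 16766904) (l 232632898055)) (a (l 16757472) (l 16770232)))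 (a (l 16732792) (b (l 16760704) (l 16751128)))) (b (l 3) (a (b (l 16773648) (l 16743304)) (b (l 3) (l 300815486807))))) (a (b (a (l 16703112) (l 16715800)) (l 16732280)) (b (a (b (l 16754512) (l 16723896)) (b (l 16745928) (l 16757104))) (b (l 16722472) (l 16710720))))))), by decide +kernel⟩

def k5_pp_022 : ∃ t, chk3 f_pp_022 t 2 5 1 = true :=
  ⟨(b (a (b (b (b (a (a (l 16521456) (l 16548968)) (a (l 16573888) (l 16598560))) (a (a (l 16504800) (l 16531960)) (a (l 16556128) (l 16580872)))) (b (a (a (l 16509184) (l 16514944)) (a (l 16538424) (l 16562416))) (b (a (a (l 16475832) (l 16502200)) (a (l 16525160) (l 16547312))) (a (a (a (b (l 16504616) (l 16500528)) (b (l 16497392) (b (b (b (l 16474056) (c (l 16496992) (l 16513408))) (l 16472712)) (l 16471200)))) (b (l 16495800) (b (b (b (l 16493368) (c (l 16558000) (l 16490952))) (l 16491968)) (l 16490416)))) (b (a (l 16518512) (l 16540136)) (a (a (l 16519240) (l 16518960)) (c (l 16557616) (l 16534856))))))))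 (a (a (b (a (l 16461672) (l 16517056)) (a (l 16409296) (l 16422192))) (b (a (l 16466832) (l 16478656)) (l 16418840))) (a (b (l 16494488) (l 16459256)) (l 16574928)))) (b (b (a (a (b (l 16624608) (l 16605840)) (b (l 16648624) (l 16630000))) (a (b (l 16692200) (l 16655240)) (b (l 16716984) (l 16699128)))) (b (a (a (l 16587528) (l 16632632)) (a (b (l 16641368) (l 16631296)) (b (l 16666576) (l 16656424)))) (b (a (a (l 16572712) (l 16597152)) (a (l 16620784) (l 16644184))) (a (b (a (l 16565280) (l 16587824)) (a (l 16602424) (l 16603120))) (b (a (l 16611672) (l 16654344)) (a (l 16644888) (l 16667864))))))) (a (a (l 16561840) (l 16588656)) (a (l 16615064) (l 16660432))))) (a (a (a (b (a (l 16446384) (l 16416088)) (l 16303968)) (b (l 16426144) (l 16319472))) (a (b (l 16404976) (l 16340672)) (b (l 16430040) (l 16374136)))) (a (a (b (l 16461432) (l 16410896)) (b (l 16493144) (l 16447976))) (a (b (l 16524664) (l 16527504)) (b (l 16555608) (l 16545328)))))),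 by decide +kernel⟩

def k6_pp_022 : ∃ t, chk3 f_pp_022 t 2 3 1 = true :=
  ⟨(a (b (b (a (a (b (l 16235936) (l 16164496)) (b (l 16252680) (l 16200272))) (a (b (l 16287176) (l 16241520)) (b (l 16326432) (l 16287696)))) (a (a (b (l 16113584) (l 16072448)) (b (l 16157064) (l 16124952))) (a (b (l 16206256) (l 16182544)) (b (l 16260048) (l 16243936))))) (a (b (a (b (l 16044584) (l 16029416)) (b (l 16105616) (l 16097632))) (a (b (l 16023656) (l 16028336)) (b (l 16099032) (l 16109536)))) (b (a (b (l 16170632) (l 16168320)) (b (l 16237424) (l 16239048))) (a (b (l 16174488) (l 2)) (l 2))))) (b (b (a (a (b (l 16369200) (l 16337712)) (b (l 16412776) (l 16388936))) (b (a (l 16457800) (l 16502056)) (a (l 16438928) (l 16486040)))) (a (b (a (l 16317760) (l 16374384)) (a (l 16307208) (l 16366800))) (b (a (l 16427080) (l 2)) (l 2)))) (a (b (b (a (l 16304256) (l 2)) (l 2)) (l 2)) (l 2)))), by decide +kernel⟩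

def k7_pp_022 : ∃ t, chk3 f_pp_022 t 3 1 1 = true :=
  ⟨(a (b (b (b (l 3) (b (l 3) (a (b (l 3) (a (b (b (a (l 314237257943) (l 3)) (l 353428766391)) (b (a (l 16758976) (l 16749104)) (a (l 16728280) (l 16739272)))) (b (l 3) (a (l 409263346375) (l 348596946215))))) (l 3)))) (b (b (b (a (b (a (b (l 16724184) (l 16714312)) (b (a (l 16739984) (l 16750072)) (a (l 16730224) (l 16761224)))) (a (l 16720296) (b (l 16725688) (l 16715760)))) (b (a (b (l 352891912823) (a (l 16749840) (l 319069092759))) (l 3)) (a (b (a (l 16740200) (l 16749400)) (l 16735320)) (b (a (l 16757984) (l 3)) (l 16795216))))) (b (a (a (b (l 16689080) (l 16680824)) (b (l 16705680) (l 16701440))) (b (a (l 16725472) (a (l 16739352) (l 16748536))) (a (l 16716272) (l 16734600)))) (b (a (a (l 16668576) (l 16691736)) (a (l 16710768) (l 16724480))) (a (b (a (l 16676080) (l 16678416)) (b (b (b (l 16736272) (a (a (l 16645040) (l 16677208)) (l 16714384))) (l 16713592)) (l 16722128))) (b (a (l 16701112)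 (l 16738648)) (a (a (c (l 16708384) (l 16706080)) (l 16722248)) (a (l 16727048) (l 2)))))))) (a (a (l 16704888) (l 16719184)) (a (l 16738904) (b (l 16697440) (l 2))))) (a (b (a (l 16587536) (l 16619024)) (a (l 16562504) (l 16595112))) (b (a (l 16644888) (l 2)) (l 2))))) (b (b (a (b (a (l 16542040) (l 2)) (l 2)) (l 2)) (l 2)) (l 2))) (b (b (l 3) (b (b (b (b (l 3) (l 2)) (l 2)) (l 2)) (l 2))) (l 2))), by decide +kernel⟩

theorem s8_pp_022 : ∃ t, chk3 f_pp_022 t 2 9 1 = true := ex3_a k3_pp_022 k4_pp_022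

theorem s9_pp_022 : ∃ t, chk3 f_pp_022 t 4 8 1 = true := ex3_a k0_pp_022 k1_pp_022

theorem s10_pp_022 : ∃ t, chk3 f_pp_022 t 2 8 1 = true := ex3_a s9_pp_022 k2_pp_022

theorem s11_pp_022 : ∃ t, chk3 f_pp_022 t 2 4 1 = true := ex3_b s10_pp_022 s8_pp_022

theorem s12_pp_022 : ∃ t, chk3 f_pp_022 t 2 2 1 = true := ex3_b s11_pp_022 k5_pp_022

theorem s13_pp_022 : ∃ t, chk3 f_pp_022 t 2 1 1 = true := ex3_b s12_pp_022 k6_pp_022

theorem s14_pp_022 : ∃ t, chk3 f_pp_022 t 1 1 1 = true := ex3_a s13_pp_022 k7_pp_022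

theorem c_pp_022 : CertB 0 536870912 1073741824 536870912 587336777 62277027 3 eng mog cd1q0 cd7q2 pd2 false true true .pp 0 2 2
    ndB1q0 ndB7q2 pcB2 cut_pp_022 Ext.none :=
  certB1 (fam := false) (s1 := true) (s2 := true) (a := 0) (b := 2) (c := 2) (cn := .pp) (n1 := ndB1q0) (n2 := ndB7q2) (pc := pcB2) (cut := cut_pp_022) (xt := Ext.none) (P1 := 0) (W1 := 536870912) (P2 := 1073741824) (W2 := 536870912) (P3 := 587336777) (W3 := 62277027) (N0 := 3) (En := eng) (mo := mog) (C1 := cd1q0) (C2 := cd7q2) (C3 := pd2)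
    rfl (fun _ => rfl) s14_pp_022

noncomputable def f_pp_023 : ℕ → ℕ → ℕ → ℕ → Bool := onCell 1073741824 536870912 0 1230186008 587336777 62277027
    (rowB 3 eng mog cd1q0 cd7q3 pd2 2 false true true .up 0 2 3 (qsf 0 536870912 0 1230186008 2) ndB1q0 ndB7q3 pcB2 Cut.none Ext.none)

def k0_pp_023 : ∃ t, chk3 f_pp_023 t 1 1 1 = true :=
  ⟨(b (a (l 2) (a (l 2) (b (b (l 397385472647) (l 16749608)) (b (l 16803520) (l 16817152))))) (a (a (b (l 2) (l 3)) (b (a (l 2) (b (l 2) (a (l 2) (l 16879128)))) (a (a (a (b (l 3) (b (l 3) (a (l 3) (b (l 3) (a (l 3) (l 352355047159)))))) (b (a (l 3) (b (l 2) (a (l 3) (b (l 2) (a (c (l 16779912) (l 16777720)) (l 16776016)))))) (a (b (a (l 3) (b (l 3) (l 16796528))) (a (b (l 328195891799) (b (l 16758416) (l 16748024))) (b (b (l 16766240) (l 16757992)) (b (l 16747592) (l 16736336))))) (b (a (b (a (l 3) (l 16776792)) (a (l 16770744) (l 16767008))) (b (a (a (l 16774648) (l 16772984)) (l 16770016)) (a (a (l 16763968) (l 16761576))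 (l 16757584)))) (a (b (a (l 16755224) (l 16750088)) (a (l 16732912) (l 16726536))) (b (a (l 16744384) (b (l 16743944) (l 16732488))) (a (l 16741040) (a (b (l 16742256) (l 16730056)) (l 16711904))))))))) (b (b (l 16751944) (b (l 16752424) (l 16747880))) (b (b (l 16735376) (l 16713152)) (b (l 16700888) (l 16683896))))) (b (b (l 16728424) (l 16741712)) (b (b (l 16677128) (l 16659608)) (b (l 16638872) (l 16630944))))))) (b (b (a (a (l 2) (l 16744280)) (a (l 16790408) (l 16863856))) (a (b (l 16761016) (l 16741640)) (b (l 16787032) (l 16727096)))) (b (a (b (l 16698288) (a (l 16657712) (l 16607240))) (b (l 16646448) (l 16527328))) (a (b (a (l 16596240) (l 16513648)) (a (b (l 16542648) (l 16497704)) (b (l 16435560) (l 16374800)))) (b (b (l 16411912) (l 16337616)) (b (l 16260776) (a (l 16244056) (l 16109680))))))))), by decide +kernel⟩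

theorem c_pp_023 : CertB 0 536870912 0 1230186008 587336777 62277027 3 eng mog cd1q0 cd7q3 pd2 false true true .up 0 2 3
    ndB1q0 ndB7q3 pcB2 Cut.none Ext.none :=
  certB2 (fam := false) (s1 := true) (s2 := true) (a := 0) (b := 2) (c := 3) (cn := .up) (n1 := ndB1q0) (n2 := ndB7q3) (pc := pcB2) (cut := Cut.none) (xt := Ext.none) (P1 := 0) (W1 := 536870912) (P2 := 0) (W2 := 1230186008) (P3 := 587336777) (W3 := 62277027) (N0 := 3) (En := eng) (mo := mog) (C1 := cd1q0) (C2 := cd7q3) (C3 := pd2)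
    rfl (fun _ => rfl) k0_pp_023

noncomputable def f_pp_033 : ℕ → ℕ → ℕ → ℕ → Bool := onCell 1610612736 536870912 0 1230186008 587336777 62277027
    (rowB 3 eng mog cd1q0 cd7q3 pd3 2 false true true .pnn 0 3 3 (qsf 0 536870912 0 1230186008 3) ndB1q0 ndB7q3 pcB3 Cut.none Ext.none)

def k0_pp_033 : ∃ t, chk3 f_pp_033 t 1 1 1 = true :=
  ⟨(b (b (a (a (a (b (l 16698144) (l 16735872)) (l 16696448)) (a (b (l 16666960) (l 16681544)) (l 16651424))) (a (a (l 16621712) (l 16590296)) (l 4))) (a (a (a (b (a (l 16788504) (l 16745800)) (a (l 16777072) (l 16741112))) (a (b (l 16735384) (l 16726888)) (b (l 16721448) (l 16711328)))) (a (b (a (l 16703512) (l 16683816)) (a (l 16692960) (l 16670920))) (b (l 16656640) (l 16640360)))) (a (a (b (l 16627128) (a (l 16614320) (l 16602160))) (b (l 16619880) (a (l 16592200) (l 16584640)))) (a (b (l 16574128) (a (l 16576992) (l 16570952))) (a (b (l 4) (l 16556832)) (l 4)))))) (b (a (a (a (b (a (l 16888136) (l 16717720)) (l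 16665256)) (a (b (l 16697696) (l 16632832)) (b (l 16677960) (l 16611176)))) (a (b (a (l 16656184) (l 16634432)) (b (l 16601968) (l 16552368))) (b (l 16604056) (l 16541792)))) (a (b (a (b (l 16582192) (l 16561672)) (l 16139745255)) (a (l 16511336) (b (l 16513192) (l 1)))) (b (a (a (l 150357460151) (l 1)) (l 1)) (l 1)))) (a (b (a (b (l 16539256) (l 16419376)) (b (l 16458232) (l 16332608))) (a (b (l 16226624) (b (l 16065552) (l 16094424))) (b (a (l 16145512) (l 1)) (l 1)))) (l 1)))), by decide +kernel⟩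

theorem c_pp_033 : CertB 0 536870912 0 1230186008 587336777 62277027 3 eng mog cd1q0 cd7q3 pd3 false true true .pnn 0 3 3
    ndB1q0 ndB7q3 pcB3 Cut.none Ext.none :=
  certB2 (fam := false) (s1 := true) (s2 := true) (a := 0) (b := 3) (c := 3) (cn := .pnn) (n1 := ndB1q0) (n2 := ndB7q3) (pc := pcB3) (cut := Cut.none) (xt := Ext.none) (P1 := 0) (W1 := 536870912) (P2 := 0) (W2 := 1230186008) (P3 := 587336777) (W3 := 62277027) (N0 := 3) (En := eng) (mo := mog) (C1 := cd1q0) (C2 := cd7q3) (C3 := pd3)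
    rfl (fun _ => rfl) k0_pp_033

noncomputable def f_pp_101 : ℕ → ℕ → ℕ → ℕ → Bool := onCell 536870912 536870912 0 536870912 587336777 62277027
    (rowB 3 eng mog cd1q1 cd7q1 pd0 1 false true true .npn 1 0 1 (qsf 536870912 536870912 536870912 536870912 0) ndB1q1 ndB7q1 pcB0 Cut.none Ext.none)

def k0_pp_101 : ∃ t, chk3 f_pp_101 t 1 1 1 = true :=
  ⟨(l 3), by decide +kernel⟩

theorem c_pp_101 : CertB 536870912 536870912 536870912 536870912 587336777 62277027 3 eng mog cd1q1 cd7q1 pd0 false true true .npn 1 0 1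
    ndB1q1 ndB7q1 pcB0 Cut.none Ext.none :=
  certB1 (fam := false) (s1 := true) (s2 := true) (a := 1) (b := 0) (c := 1) (cn := .npn) (n1 := ndB1q1) (n2 := ndB7q1) (pc := pcB0) (cut := Cut.none) (xt := Ext.none) (P1 := 536870912) (W1 := 536870912) (P2 := 536870912) (W2 := 536870912) (P3 := 587336777) (W3 := 62277027) (N0 := 3) (En := eng) (mo := mog) (C1 := cd1q1) (C2 := cd7q1) (C3 := pd0)
    rfl (fun _ => rfl) k0_pp_101

noncomputable def f_pp_102 : ℕ → ℕ → ℕ → ℕ → Bool := onCell 536870912 536870912 0 536870912 587336777 62277027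
    (rowB 3 eng mog cd1q1 cd7q2 pd0 1 false true true .npp 1 0 2 (qsf 536870912 536870912 1073741824 536870912 0) ndB1q1 ndB7q2 pcB0 Cut.none Ext.none)

def k0_pp_102 : ∃ t, chk3 f_pp_102 t 1 1 1 = true :=
  ⟨(l 3), by decide +kernel⟩

theorem c_pp_102 : CertB 536870912 536870912 1073741824 536870912 587336777 62277027 3 eng mog cd1q1 cd7q2 pd0 false true true .npp 1 0 2
    ndB1q1 ndB7q2 pcB0 Cut.none Ext.none :=
  certB1 (fam := false) (s1 := true) (s2 := true) (a := 1) (b := 0) (c := 2) (cn := .npp) (n1 := ndB1q1) (n2 := ndB7q2) (pc := pcB0) (cut := Cut.none) (xt := Ext.none) (P1 := 536870912) (W1 := 536870912) (P2 := 1073741824) (W2 := 536870912) (P3 := 587336777) (W3 := 62277027) (N0 := 3) (En := eng) (mo := mog) (C1 := cd1q1) (C2 := cd7q2) (C3 := pd0)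
    rfl (fun _ => rfl) k0_pp_102

noncomputable def f_pp_112 : ℕ → ℕ → ℕ → ℕ → Bool := onCell 536870912 536870912 1073741824 536870912 587336777 62277027
    (rowB 3 eng mog cd1q1 cd7q2 pd1 0 false true true .dn 1 1 2 (qsf 536870912 536870912 1073741824 536870912 1) ndB1q1 ndB7q2 pcB1 Cut.none Ext.none)

def k0_pp_112 : ∃ t, chk3 f_pp_112 t 1 1 1 = true :=
  ⟨(a (l 3) (l 3)), by decide +kernel⟩

theorem c_pp_112 : CertB 536870912 536870912 1073741824 536870912 587336777 62277027 3 eng mog cd1q1 cd7q2 pd1 false true true .dn 1 1 2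
    ndB1q1 ndB7q2 pcB1 Cut.none Ext.none :=
  certB0 (fam := false) (s1 := true) (s2 := true) (a := 1) (b := 1) (c := 2) (cn := .dn) (n1 := ndB1q1) (n2 := ndB7q2) (pc := pcB1) (cut := Cut.none) (xt := Ext.none) (P1 := 536870912) (W1 := 536870912) (P2 := 1073741824) (W2 := 536870912) (P3 := 587336777) (W3 := 62277027) (N0 := 3) (En := eng) (mo := mog) (C1 := cd1q1) (C2 := cd7q2) (C3 := pd1)
    rfl k0_pp_112

noncomputable def f_pp_113 : ℕ → ℕ → ℕ → ℕ → Bool := onCell 536870912 536870912 0 1230186008 587336777 62277027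
    (rowB 3 eng mog cd1q1 cd7q3 pd1 2 false true true .nn 1 1 3 (qsf 536870912 536870912 0 1230186008 1) ndB1q1 ndB7q3 pcB1 Cut.none Ext.none)

def k0_pp_113 : ∃ t, chk3 f_pp_113 t 1 1 1 = true :=
  ⟨(b (a (l 2) (a (l 2) (b (a (l 2) (b (a (l 2) (a (l 2) (a (l 2) (b (l 1060420838871) (l 483351573943))))) (l 3))) (l 3)))) (a (b (a (l 2) (b (l 2) (a (l 2) (l 3)))) (a (b (l 2) (l 3)) (l 3))) (b (a (l 3) (l 3)) (l 3)))), by decide +kernel⟩

theorem c_pp_113 : CertB 536870912 536870912 0 1230186008 587336777 62277027 3 eng mog cd1q1 cd7q3 pd1 false true true .nn 1 1 3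
    ndB1q1 ndB7q3 pcB1 Cut.none Ext.none :=
  certB2 (fam := false) (s1 := true) (s2 := true) (a := 1) (b := 1) (c := 3) (cn := .nn) (n1 := ndB1q1) (n2 := ndB7q3) (pc := pcB1) (cut := Cut.none) (xt := Ext.none) (P1 := 536870912) (W1 := 536870912) (P2 := 0) (W2 := 1230186008) (P3 := 587336777) (W3 := 62277027) (N0 := 3) (En := eng) (mo := mog) (C1 := cd1q1) (C2 := cd7q3) (C3 := pd1)
    rfl (fun _ => rfl) k0_pp_113

noncomputable def f_pp_123 : ℕ → ℕ → ℕ → ℕ → Bool := onCell 1073741824 536870912 0 1230186008 587336777 62277027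
    (rowB 3 eng mog cd1q1 cd7q3 pd2 2 false true true .npn 1 2 3 (qsf 536870912 536870912 0 1230186008 2) ndB1q1 ndB7q3 pcB2 Cut.none Ext.none)

def k0_pp_123 : ∃ t, chk3 f_pp_123 t 4 1 1 = true :=
  ⟨(b (a (b (b (a (b (l 16772072) (a (l 266992752967) (l 16776176))) (l 16763096)) (a (b (a (l 3) (l 343228281943)) (l 3)) (b (a (l 16843064) (l 16771792)) (a (l 421074563303) (l 242833615175))))) (b (a (l 3) (b (a (l 3) (l 515026975991)) (l 3))) (l 3))) (b (b (l 16785760) (a (b (l 16766360) (a (l 16774000) (l 16769480))) (b (l 16757640) (l 16765096)))) (a (b (b (a (b (l 16782720) (l 429664578455)) (a (l 16781464) (l 16777168))) (a (l 591262644007) (b (a (l 539186221191) (l 16781968)) (l 559587264647)))) (l 3)) (b (b (a (l 16771296) (l 16768528)) (a (a (b (l 16782488) (l 16780912)) (l 16844424)) (a (l 16775776) (l 16771568)))) (a (b (a (l 546702360855) (l 508584576423)) (l 3)) (b (a (b (l 16781712) (l 16779272)) (b (l 16781040) (l 16781760))) (a (b (l 520932569783)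 (l 499994524455)) (b (l 16776488) (l 506973917431))))))))) (b (a (l 3) (a (l 3) (b (a (l 3) (b (a (l 3) (l 495162674055)) (l 3))) (l 3)))) (l 3))), by decide +kernel⟩

def k1_pp_123 : ∃ t, chk3 f_pp_123 t 5 1 1 = true :=
  ⟨(b (b (a (a (b (a (l 16724400) (l 16717568)) (a (l 16754848) (l 16755688))) (b (l 16704880) (l 16745944))) (b (l 16698952) (l 16742608))) (a (a (a (b (b (l 16765632) (l 16770752)) (b (a (l 16778600) (l 16773816)) (a (b (l 16778896) (l 16773152)) (b (l 16777904) (l 16776336))))) (b (a (b (l 16763720) (l 16768920)) (a (l 16765288) (a (l 16764976) (l 16764688)))) (a (b (l 16774144) (l 16777992)) (a (a (l 16838352) (l 16797000)) (a (l 16774872) (l 16898864)))))) (b (l 16761992) (l 16767256))) (b (l 16758752) (b (l 16754088) (l 16757040))))) (b (a (a (a (b (b (a (b (l 494089014471) (l 482814645607)) (b (a (l 16772320) (l 16775472)) (l 16728760))) (a (l 3) (b (l 454360467959) (l 16728096)))) (l 3)) (b (a (b (b (l 16774656) (l 16774320))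 (a (l 367924432759) (l 16775256))) (b (a (l 16795560) (a (l 16770512) (l 16790704))) (a (b (l 16776088) (l 16775136)) (a (l 16774656) (l 16791056))))) (a (b (a (l 16733952) (l 16774096)) (l 3)) (b (a (l 16819200) (a (l 16798672) (l 16837488))) (a (b (l 16774728) (l 16773520)) (a (a (l 16777232) (l 16777552)) (l 16778080))))))) (b (b (l 16773352) (l 16775416)) (b (l 16781136) (l 16781912)))) (b (b (l 16762896) (l 16767688)) (b (l 16768280) (l 16758416)))) (a (a (a (b (l 3) (b (l 3) (l 1))) (b (a (l 3) (a (l 3) (a (a (b (l 16774400) (l 56405049671)) (b (l 16775536) (b (l 16771296) (l 16767744)))) (b (l 16776784) (b (l 16772824) (l 16769232)))))) (l 1))) (b (b (l 16787664) (a (l 16783352) (l 16782832))) (l 1))) (b (b (l 16743568) (l 1)) (l 1))))), by decide +kernel⟩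

def k2_pp_123 : ∃ t, chk3 f_pp_123 t 3 1 1 = true :=
  ⟨(b (b (a (b (l 16700152) (l 16740224)) (b (a (l 16710960) (l 16718128)) (l 16765856))) (a (b (l 16876608) (a (l 16747672) (l 16747848))) (b (l 16828048) (l 16795160)))) (b (b (a (b (l 16810104) (l 16802416)) (b (l 16783952) (l 1))) (a (b (l 16765568) (l 16819568)) (l 1))) (l 1))), by decide +kernel⟩

theorem s3_pp_123 : ∃ t, chk3 f_pp_123 t 2 1 1 = true := ex3_a k0_pp_123 k1_pp_123

theorem s4_pp_123 : ∃ t, chk3 f_pp_123 t 1 1 1 = true := ex3_a s3_pp_123 k2_pp_123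

theorem c_pp_123 : CertB 536870912 536870912 0 1230186008 587336777 62277027 3 eng mog cd1q1 cd7q3 pd2 false true true .npn 1 2 3
    ndB1q1 ndB7q3 pcB2 Cut.none Ext.none :=
  certB2 (fam := false) (s1 := true) (s2 := true) (a := 1) (b := 2) (c := 3) (cn := .npn) (n1 := ndB1q1) (n2 := ndB7q3) (pc := pcB2) (cut := Cut.none) (xt := Ext.none) (P1 := 536870912) (W1 := 536870912) (P2 := 0) (W2 := 1230186008) (P3 := 587336777) (W3 := 62277027) (N0 := 3) (En := eng) (mo := mog) (C1 := cd1q1) (C2 := cd7q3) (C3 := pd2)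
    rfl (fun _ => rfl) s4_pp_123

noncomputable def f_pp_133 : ℕ → ℕ → ℕ → ℕ → Bool := onCell 536870912 536870912 0 1230186008 587336777 62277027
    (rowB 3 eng mog cd1q1 cd7q3 pd3 0 false true true .dn 1 3 3 (qsf 536870912 536870912 0 1230186008 3) ndB1q1 ndB7q3 pcB3 Cut.none Ext.none)

def k0_pp_133 : ∃ t, chk3 f_pp_133 t 1 1 1 = true :=
  ⟨(b (b (a (a (b (a (l 1668091911479) (l 1)) (l 1)) (l 1)) (l 1)) (l 1)) (l 1)), by decide +kernel⟩

theorem c_pp_133 : CertB 536870912 536870912 0 1230186008 587336777 62277027 3 eng mog cd1q1 cd7q3 pd3 false true true .dn 1 3 3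
    ndB1q1 ndB7q3 pcB3 Cut.none Ext.none :=
  certB0 (fam := false) (s1 := true) (s2 := true) (a := 1) (b := 3) (c := 3) (cn := .dn) (n1 := ndB1q1) (n2 := ndB7q3) (pc := pcB3) (cut := Cut.none) (xt := Ext.none) (P1 := 536870912) (W1 := 536870912) (P2 := 0) (W2 := 1230186008) (P3 := 587336777) (W3 := 62277027) (N0 := 3) (En := eng) (mo := mog) (C1 := cd1q1) (C2 := cd7q3) (C3 := pd3)
    rfl k0_pp_133

noncomputable def f_pp_202_a : ℕ → ℕ → ℕ → ℕ → Bool := onCell 0 536870912 1073741824 536870912 587336777 62277027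
    (rowB 3 eng mog cd1q2a cd7q2 pd0 0 false true true .pp 2 0 2 (qsf 0 536870912 1073741824 536870912 0) ndB1q2a ndB7q2 pcB0 Cut.none Ext.none)

def k0_pp_202_a : ∃ t, chk3 f_pp_202_a t 1 1 1 = true :=
  ⟨(l 5), by decide +kernel⟩

theorem c_pp_202_a : CertB 0 536870912 1073741824 536870912 587336777 62277027 3 eng mog cd1q2a cd7q2 pd0 false true true .pp 2 0 2
    ndB1q2a ndB7q2 pcB0 Cut.none Ext.none :=
  certB0 (fam := false) (s1 := true) (s2 := true) (a := 2) (b := 0) (c := 2) (cn := .pp) (n1 := ndB1q2a) (n2 := ndB7q2) (pc := pcB0) (cut := Cut.none) (xt := Ext.none) (P1 := 0) (W1 := 536870912) (P2 := 1073741824) (W2 := 536870912) (P3 := 587336777) (W3 := 62277027) (N0 := 3) (En := eng) (mo := mog) (C1 := cd1q2a) (C2 := cd7q2) (C3 := pd0)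
    rfl k0_pp_202_a

noncomputable def f_pp_202_b : ℕ → ℕ → ℕ → ℕ → Bool := onCell 1239849684 370763052 1073741824 536870912 587336777 62277027
    (rowB 3 eng mog cd1q2b cd7q2 pd0 0 false true true .pp 2 0 2 (qsf 1239849684 370763052 1073741824 536870912 0) ndB1q2b ndB7q2 pcB0 Cut.none Ext.none)

def k0_pp_202_b : ∃ t, chk3 f_pp_202_b t 1 1 1 = true :=
  ⟨(l 5), by decide +kernel⟩

theorem c_pp_202_b : CertB 1239849684 370763052 1073741824 536870912 587336777 62277027 3 eng mog cd1q2b cd7q2 pd0 false true true .pp 2 0 2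
    ndB1q2b ndB7q2 pcB0 Cut.none Ext.none :=
  certB0 (fam := false) (s1 := true) (s2 := true) (a := 2) (b := 0) (c := 2) (cn := .pp) (n1 := ndB1q2b) (n2 := ndB7q2) (pc := pcB0) (cut := Cut.none) (xt := Ext.none) (P1 := 1239849684) (W1 := 370763052) (P2 := 1073741824) (W2 := 536870912) (P3 := 587336777) (W3 := 62277027) (N0 := 3) (En := eng) (mo := mog) (C1 := cd1q2b) (C2 := cd7q2) (C3 := pd0)
    rfl k0_pp_202_b

noncomputable def f_pp_203_a : ℕ → ℕ → ℕ → ℕ → Bool := onCell 0 536870912 0 1230186008 587336777 62277027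
    (rowB 3 eng mog cd1q2a cd7q3 pd0 0 false true true .up 2 0 3 (qsf 0 536870912 0 1230186008 0) ndB1q2a ndB7q3 pcB0 Cut.none Ext.none)

def k0_pp_203_a : ∃ t, chk3 f_pp_203_a t 1 1 1 = true :=
  ⟨(b (l 2) (a (l 5) (l 3))), by decide +kernel⟩

theorem c_pp_203_a : CertB 0 536870912 0 1230186008 587336777 62277027 3 eng mog cd1q2a cd7q3 pd0 false true true .up 2 0 3
    ndB1q2a ndB7q3 pcB0 Cut.none Ext.none :=
  certB0 (fam := false) (s1 := true) (s2 := true) (a := 2) (b := 0) (c := 3) (cn := .up) (n1 := ndB1q2a) (n2 := ndB7q3) (pc := pcB0) (cut := Cut.none) (xt := Ext.none) (P1 := 0) (W1 := 536870912) (P2 := 0) (W2 := 1230186008) (P3 := 587336777) (W3 := 62277027) (N0 := 3) (En := eng) (mo := mog) (C1 := cd1q2a) (C2 := cd7q3) (C3 := pd0)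
    rfl k0_pp_203_a

noncomputable def f_pp_203_b : ℕ → ℕ → ℕ → ℕ → Bool := onCell 1239849684 370763052 0 1230186008 587336777 62277027
    (rowB 3 eng mog cd1q2b cd7q3 pd0 0 false true true .up 2 0 3 (qsf 1239849684 370763052 0 1230186008 0) ndB1q2b ndB7q3 pcB0 Cut.none Ext.none)

def k0_pp_203_b : ∃ t, chk3 f_pp_203_b t 1 1 1 = true :=
  ⟨(b (l 3) (l 5)), by decide +kernel⟩

theorem c_pp_203_b : CertB 1239849684 370763052 0 1230186008 587336777 62277027 3 eng mog cd1q2b cd7q3 pd0 false true true .up 2 0 3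
    ndB1q2b ndB7q3 pcB0 Cut.none Ext.none :=
  certB0 (fam := false) (s1 := true) (s2 := true) (a := 2) (b := 0) (c := 3) (cn := .up) (n1 := ndB1q2b) (n2 := ndB7q3) (pc := pcB0) (cut := Cut.none) (xt := Ext.none) (P1 := 1239849684) (W1 := 370763052) (P2 := 0) (W2 := 1230186008) (P3 := 587336777) (W3 := 62277027) (N0 := 3) (En := eng) (mo := mog) (C1 := cd1q2b) (C2 := cd7q3) (C3 := pd0)
    rfl k0_pp_203_b

noncomputable def cut_pp_213_a : Cut := Cut.of [[⟨0, 1, 0, 67108864⟩, ⟨1, 1, 0, 67108864⟩, ⟨2, 2, 0, 16777216⟩]]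

noncomputable def f_pp_213_a : ℕ → ℕ → ℕ → ℕ → Bool := onCell 0 536870912 0 1230186008 587336777 62277027
    (rowB 3 eng mog cd1q2a cd7q3 pd1 0 false true true .pnn 2 1 3 (qsf 0 536870912 0 1230186008 1) ndB1q2a ndB7q3 pcB1 cut_pp_213_a Ext.none)

def k0_pp_213_a : ∃ t, chk3 f_pp_213_a t 1 1 1 = true :=
  ⟨(a (b (l 3) (l 5)) (b (b (a (l 3) (b (a (l 3) (l 6)) (l 3))) (l 3)) (l 3))), by decide +kernel⟩

theorem c_pp_213_a : CertB 0 536870912 0 1230186008 587336777 62277027 3 eng mog cd1q2a cd7q3 pd1 false true true .pnn 2 1 3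
    ndB1q2a ndB7q3 pcB1 cut_pp_213_a Ext.none :=
  certB0 (fam := false) (s1 := true) (s2 := true) (a := 2) (b := 1) (c := 3) (cn := .pnn) (n1 := ndB1q2a) (n2 := ndB7q3) (pc := pcB1) (cut := cut_pp_213_a) (xt := Ext.none) (P1 := 0) (W1 := 536870912) (P2 := 0) (W2 := 1230186008) (P3 := 587336777) (W3 := 62277027) (N0 := 3) (En := eng) (mo := mog) (C1 := cd1q2a) (C2 := cd7q3) (C3 := pd1)
    rfl k0_pp_213_a

noncomputable def cut_pp_213_b : Cut := Cut.of [[⟨0, 1, 0, 67108864⟩, ⟨1, 1, 0, 67108864⟩, ⟨2, 2, 0, 16777216⟩]]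

noncomputable def f_pp_213_b : ℕ → ℕ → ℕ → ℕ → Bool := onCell 1239849684 370763052 0 1230186008 587336777 62277027
    (rowB 3 eng mog cd1q2b cd7q3 pd1 0 false true true .pnn 2 1 3 (qsf 1239849684 370763052 0 1230186008 1) ndB1q2b ndB7q3 pcB1 cut_pp_213_b Ext.none)

def k0_pp_213_b : ∃ t, chk3 f_pp_213_b t 1 1 1 = true :=
  ⟨(b (l 3) (l 5)), by decide +kernel⟩

theorem c_pp_213_b : CertB 1239849684 370763052 0 1230186008 587336777 62277027 3 eng mog cd1q2b cd7q3 pd1 false true true .pnn 2 1 3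
    ndB1q2b ndB7q3 pcB1 cut_pp_213_b Ext.none :=
  certB0 (fam := false) (s1 := true) (s2 := true) (a := 2) (b := 1) (c := 3) (cn := .pnn) (n1 := ndB1q2b) (n2 := ndB7q3) (pc := pcB1) (cut := cut_pp_213_b) (xt := Ext.none) (P1 := 1239849684) (W1 := 370763052) (P2 := 0) (W2 := 1230186008) (P3 := 587336777) (W3 := 62277027) (N0 := 3) (En := eng) (mo := mog) (C1 := cd1q2b) (C2 := cd7q3) (C3 := pd1)
    rfl k0_pp_213_b

noncomputable def f_pp_303 : ℕ → ℕ → ℕ → ℕ → Bool := onCell 1610612736 536870912 0 1230186008 587336777 62277027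
    (rowB 3 eng mog cd1q3 cd7q3 pd0 0 false true true .npn 3 0 3 (qsf 1610612736 536870912 0 1230186008 0) ndB1q3 ndB7q3 pcB0 Cut.none Ext.none)

def k0_pp_303 : ∃ t, chk3 f_pp_303 t 1 1 1 = true :=
  ⟨(b (l 3) (l 5)), by decide +kernel⟩

theorem c_pp_303 : CertB 1610612736 536870912 0 1230186008 587336777 62277027 3 eng mog cd1q3 cd7q3 pd0 false true true .npn 3 0 3
    ndB1q3 ndB7q3 pcB0 Cut.none Ext.none :=
  certB0 (fam := false) (s1 := true) (s2 := true) (a := 3) (b := 0) (c := 3) (cn := .npn) (n1 := ndB1q3) (n2 := ndB7q3) (pc := pcB0) (cut := Cut.none) (xt := Ext.none) (P1 := 1610612736) (W1 := 536870912) (P2 := 0) (W2 := 1230186008) (P3 := 587336777) (W3 := 62277027) (N0 := 3) (En := eng) (mo := mog) (C1 := cd1q3) (C2 := cd7q3) (C3 := pd0)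
    rfl k0_pp_303

noncomputable def f_pp_313 : ℕ → ℕ → ℕ → ℕ → Bool := onCell 1610612736 536870912 0 1230186008 587336777 62277027
    (rowB 3 eng mog cd1q3 cd7q3 pd1 0 false true true .dn 3 1 3 (qsf 1610612736 536870912 0 1230186008 1) ndB1q3 ndB7q3 pcB1 Cut.none Ext.none)

def k0_pp_313 : ∃ t, chk3 f_pp_313 t 1 1 1 = true :=
  ⟨(b (l 3) (l 1)), by decide +kernel⟩

theorem c_pp_313 : CertB 1610612736 536870912 0 1230186008 587336777 62277027 3 eng mog cd1q3 cd7q3 pd1 false true true .dn 3 1 3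
    ndB1q3 ndB7q3 pcB1 Cut.none Ext.none :=
  certB0 (fam := false) (s1 := true) (s2 := true) (a := 3) (b := 1) (c := 3) (cn := .dn) (n1 := ndB1q3) (n2 := ndB7q3) (pc := pcB1) (cut := Cut.none) (xt := Ext.none) (P1 := 1610612736) (W1 := 536870912) (P2 := 0) (W2 := 1230186008) (P3 := 587336777) (W3 := 62277027) (N0 := 3) (En := eng) (mo := mog) (C1 := cd1q3) (C2 := cd7q3) (C3 := pd1)
    rfl k0_pp_313

noncomputable def f_pm_001 : ℕ → ℕ → ℕ → ℕ → Bool := onCell 0 536870912 536870912 536870912 587336777 62277027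
    (rowB 3 eng mog cd1q0 cd7q1 pd0 0 false true false .up 0 0 1 (qsf 0 536870912 536870912 536870912 0) ndB1q0 ndB7q1 pcB0 Cut.none Ext.none)

def k0_pm_001 : ∃ t, chk3 f_pm_001 t 1 1 1 = true :=
  ⟨(l 4), by decide +kernel⟩

theorem c_pm_001 : CertB 0 536870912 536870912 536870912 587336777 62277027 3 eng mog cd1q0 cd7q1 pd0 false true false .up 0 0 1
    ndB1q0 ndB7q1 pcB0 Cut.none Ext.none :=
  certB0 (fam := false) (s1 := true) (s2 := false) (a := 0) (b := 0) (c := 1) (cn := .up) (n1 := ndB1q0) (n2 := ndB7q1) (pc := pcB0) (cut := Cut.none) (xt := Ext.none) (P1 := 0) (W1 := 536870912) (P2 := 536870912) (W2 := 536870912) (P3 := 587336777) (W3 := 62277027) (N0 := 3) (En := eng) (mo := mog) (C1 := cd1q0) (C2 := cd7q1) (C3 := pd0)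
    rfl k0_pm_001

noncomputable def f_pm_011 : ℕ → ℕ → ℕ → ℕ → Bool := onCell 0 536870912 536870912 536870912 587336777 62277027
    (rowB 3 eng mog cd1q0 cd7q1 pd1 0 false true false .pnn 0 1 1 (qsf 0 536870912 536870912 536870912 1) ndB1q0 ndB7q1 pcB1 Cut.none Ext.none)

def k0_pm_011 : ∃ t, chk3 f_pm_011 t 1 1 1 = true :=
  ⟨(l 4), by decide +kernel⟩

theorem c_pm_011 : CertB 0 536870912 536870912 536870912 587336777 62277027 3 eng mog cd1q0 cd7q1 pd1 false true false .pnn 0 1 1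
    ndB1q0 ndB7q1 pcB1 Cut.none Ext.none :=
  certB0 (fam := false) (s1 := true) (s2 := false) (a := 0) (b := 1) (c := 1) (cn := .pnn) (n1 := ndB1q0) (n2 := ndB7q1) (pc := pcB1) (cut := Cut.none) (xt := Ext.none) (P1 := 0) (W1 := 536870912) (P2 := 536870912) (W2 := 536870912) (P3 := 587336777) (W3 := 62277027) (N0 := 3) (En := eng) (mo := mog) (C1 := cd1q0) (C2 := cd7q1) (C3 := pd1)
    rfl k0_pm_011

noncomputable def f_pm_012 : ℕ → ℕ → ℕ → ℕ → Bool := onCell 0 536870912 1073741824 536870912 587336777 62277027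
    (rowB 3 eng mog cd1q0 cd7q2 pd1 0 false true false .pnp 0 1 2 (qsf 0 536870912 1073741824 536870912 1) ndB1q0 ndB7q2 pcB1 Cut.none Ext.none)

def k0_pm_012 : ∃ t, chk3 f_pm_012 t 1 1 1 = true :=
  ⟨(l 4), by decide +kernel⟩

theorem c_pm_012 : CertB 0 536870912 1073741824 536870912 587336777 62277027 3 eng mog cd1q0 cd7q2 pd1 false true false .pnp 0 1 2
    ndB1q0 ndB7q2 pcB1 Cut.none Ext.none :=
  certB0 (fam := false) (s1 := true) (s2 := false) (a := 0) (b := 1) (c := 2) (cn := .pnp) (n1 := ndB1q0) (n2 := ndB7q2) (pc := pcB1) (cut := Cut.none) (xt := Ext.none) (P1 := 0) (W1 := 536870912) (P2 := 1073741824) (W2 := 536870912) (P3 := 587336777) (W3 := 62277027) (N0 := 3) (En := eng) (mo := mog) (C1 := cd1q0) (C2 := cd7q2) (C3 := pd1)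
    rfl k0_pm_012

noncomputable def f_pm_022 : ℕ → ℕ → ℕ → ℕ → Bool := onCell 0 536870912 1073741824 536870912 587336777 62277027
    (rowB 3 eng mog cd1q0 cd7q2 pd2 0 false true false .pp 0 2 2 (qsf 0 536870912 1073741824 536870912 2) ndB1q0 ndB7q2 pcB2 Cut.none Ext.none)

def k0_pm_022 : ∃ t, chk3 f_pm_022 t 1 1 1 = true :=
  ⟨(l 4), by decide +kernel⟩

theorem c_pm_022 : CertB 0 536870912 1073741824 536870912 587336777 62277027 3 eng mog cd1q0 cd7q2 pd2 false true false .pp 0 2 2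
    ndB1q0 ndB7q2 pcB2 Cut.none Ext.none :=
  certB0 (fam := false) (s1 := true) (s2 := false) (a := 0) (b := 2) (c := 2) (cn := .pp) (n1 := ndB1q0) (n2 := ndB7q2) (pc := pcB2) (cut := Cut.none) (xt := Ext.none) (P1 := 0) (W1 := 536870912) (P2 := 1073741824) (W2 := 536870912) (P3 := 587336777) (W3 := 62277027) (N0 := 3) (En := eng) (mo := mog) (C1 := cd1q0) (C2 := cd7q2) (C3 := pd2)
    rfl k0_pm_022

noncomputable def f_pm_023 : ℕ → ℕ → ℕ → ℕ → Bool := onCell 0 536870912 0 1230186008 587336777 62277027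
    (rowB 3 eng mog cd1q0 cd7q3 pd2 0 false true false .up 0 2 3 (qsf 0 536870912 0 1230186008 2) ndB1q0 ndB7q3 pcB2 Cut.none Ext.none)

def k0_pm_023 : ∃ t, chk3 f_pm_023 t 1 1 1 = true :=
  ⟨(b (b (a (l 2) (a (l 2) (a (l 2) (l 16691080)))) (l 4)) (l 4)), by decide +kernel⟩

theorem c_pm_023 : CertB 0 536870912 0 1230186008 587336777 62277027 3 eng mog cd1q0 cd7q3 pd2 false true false .up 0 2 3
    ndB1q0 ndB7q3 pcB2 Cut.none Ext.none :=
  certB0 (fam := false) (s1 := true) (s2 := false) (a := 0) (b := 2) (c := 3) (cn := .up) (n1 := ndB1q0) (n2 := ndB7q3) (pc := pcB2) (cut := Cut.none) (xt := Ext.none) (P1 := 0) (W1 := 536870912) (P2 := 0) (W2 := 1230186008) (P3 := 587336777) (W3 := 62277027) (N0 := 3) (En := eng) (mo := mog) (C1 := cd1q0) (C2 := cd7q3) (C3 := pd2)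
    rfl k0_pm_023

noncomputable def f_pm_033 : ℕ → ℕ → ℕ → ℕ → Bool := onCell 0 536870912 0 1230186008 587336777 62277027
    (rowB 3 eng mog cd1q0 cd7q3 pd3 0 false true false .pnn 0 3 3 (qsf 0 536870912 0 1230186008 3) ndB1q0 ndB7q3 pcB3 Cut.none Ext.none)

def k0_pm_033 : ∃ t, chk3 f_pm_033 t 1 1 1 = true :=
  ⟨(b (b (a (l 4) (a (a (l 4) (l 124789201095)) (a (l 16680008) (l 16689672)))) (l 4)) (l 4)), by decide +kernel⟩

theorem c_pm_033 : CertB 0 536870912 0 1230186008 587336777 62277027 3 eng mog cd1q0 cd7q3 pd3 false true false .pnn 0 3 3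
    ndB1q0 ndB7q3 pcB3 Cut.none Ext.none :=
  certB0 (fam := false) (s1 := true) (s2 := false) (a := 0) (b := 3) (c := 3) (cn := .pnn) (n1 := ndB1q0) (n2 := ndB7q3) (pc := pcB3) (cut := Cut.none) (xt := Ext.none) (P1 := 0) (W1 := 536870912) (P2 := 0) (W2 := 1230186008) (P3 := 587336777) (W3 := 62277027) (N0 := 3) (En := eng) (mo := mog) (C1 := cd1q0) (C2 := cd7q3) (C3 := pd3)
    rfl k0_pm_033

noncomputable def f_pm_101 : ℕ → ℕ → ℕ → ℕ → Bool := onCell 536870912 536870912 536870912 536870912 587336777 62277027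
    (rowB 3 eng mog cd1q1 cd7q1 pd0 0 false true false .npn 1 0 1 (qsf 536870912 536870912 536870912 536870912 0) ndB1q1 ndB7q1 pcB0 Cut.none Ext.none)

def k0_pm_101 : ∃ t, chk3 f_pm_101 t 1 1 1 = true :=
  ⟨(l 4), by decide +kernel⟩

theorem c_pm_101 : CertB 536870912 536870912 536870912 536870912 587336777 62277027 3 eng mog cd1q1 cd7q1 pd0 false true false .npn 1 0 1
    ndB1q1 ndB7q1 pcB0 Cut.none Ext.none :=
  certB0 (fam := false) (s1 := true) (s2 := false) (a := 1) (b := 0) (c := 1) (cn := .npn) (n1 := ndB1q1) (n2 := ndB7q1) (pc := pcB0) (cut := Cut.none) (xt := Ext.none) (P1 := 536870912) (W1 := 536870912) (P2 := 536870912) (W2 := 536870912) (P3 := 587336777) (W3 := 62277027) (N0 := 3) (En := eng) (mo := mog) (C1 := cd1q1) (C2 := cd7q1) (C3 := pd0)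
    rfl k0_pm_101

noncomputable def f_pm_102 : ℕ → ℕ → ℕ → ℕ → Bool := onCell 536870912 536870912 1073741824 536870912 587336777 62277027
    (rowB 3 eng mog cd1q1 cd7q2 pd0 0 false true false .npp 1 0 2 (qsf 536870912 536870912 1073741824 536870912 0) ndB1q1 ndB7q2 pcB0 Cut.none Ext.none)

def k0_pm_102 : ∃ t, chk3 f_pm_102 t 1 1 1 = true :=
  ⟨(a (l 4) (b (l 4) (l 4))), by decide +kernel⟩

theorem c_pm_102 : CertB 536870912 536870912 1073741824 536870912 587336777 62277027 3 eng mog cd1q1 cd7q2 pd0 false true false .npp 1 0 2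
    ndB1q1 ndB7q2 pcB0 Cut.none Ext.none :=
  certB0 (fam := false) (s1 := true) (s2 := false) (a := 1) (b := 0) (c := 2) (cn := .npp) (n1 := ndB1q1) (n2 := ndB7q2) (pc := pcB0) (cut := Cut.none) (xt := Ext.none) (P1 := 536870912) (W1 := 536870912) (P2 := 1073741824) (W2 := 536870912) (P3 := 587336777) (W3 := 62277027) (N0 := 3) (En := eng) (mo := mog) (C1 := cd1q1) (C2 := cd7q2) (C3 := pd0)
    rfl k0_pm_102

noncomputable def f_pm_112 : ℕ → ℕ → ℕ → ℕ → Bool := onCell 536870912 536870912 1073741824 536870912 587336777 62277027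
    (rowB 3 eng mog cd1q1 cd7q2 pd1 0 false true false .dn 1 1 2 (qsf 536870912 536870912 1073741824 536870912 1) ndB1q1 ndB7q2 pcB1 Cut.none Ext.none)

def k0_pm_112 : ∃ t, chk3 f_pm_112 t 1 1 1 = true :=
  ⟨(b (l 4) (a (l 4) (l 4))), by decide +kernel⟩

theorem c_pm_112 : CertB 536870912 536870912 1073741824 536870912 587336777 62277027 3 eng mog cd1q1 cd7q2 pd1 false true false .dn 1 1 2
    ndB1q1 ndB7q2 pcB1 Cut.none Ext.none :=
  certB0 (fam := false) (s1 := true) (s2 := false) (a := 1) (b := 1) (c := 2) (cn := .dn) (n1 := ndB1q1) (n2 := ndB7q2) (pc := pcB1) (cut := Cut.none) (xt := Ext.none) (P1 := 536870912) (W1 := 536870912) (P2 := 1073741824) (W2 := 536870912) (P3 := 587336777) (W3 := 62277027) (N0 := 3) (En := eng) (mo := mog) (C1 := cd1q1) (C2 := cd7q2) (C3 := pd1)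
    rfl k0_pm_112

noncomputable def f_pm_113 : ℕ → ℕ → ℕ → ℕ → Bool := onCell 536870912 536870912 0 1230186008 587336777 62277027
    (rowB 3 eng mog cd1q1 cd7q3 pd1 0 false true false .nn 1 1 3 (qsf 536870912 536870912 0 1230186008 1) ndB1q1 ndB7q3 pcB1 Cut.none Ext.none)

def k0_pm_113 : ∃ t, chk3 f_pm_113 t 1 1 1 = true :=
  ⟨(b (a (l 2) (a (l 2) (b (a (l 2) (b (a (l 2) (b (l 16768136) (l 16770840))) (l 16874600))) (b (a (l 16754952) (l 16779904)) (b (l 16761296) (l 201427253015)))))) (b (b (a (l 2) (a (a (l 2) (b (l 16692672) (l 16674472))) (b (a (l 16735176) (l 16772176)) (a (l 16727792) (l 16769592))))) (a (l 4) (a (a (b (l 16609608) (l 4)) (b (l 16661800) (l 16660552))) (b (a (l 16717184) (l 16770816)) (a (l 16709168) (l 16769456)))))) (a (l 4) (b (a (l 4) (b (a (l 16714208) (l 16772608)) (a (l 16721640) (l 16788184)))) (a (l 4) (b (l 16775744) (l 16765576))))))), by decide +kernel⟩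

theorem c_pm_113 : CertB 536870912 536870912 0 1230186008 587336777 62277027 3 eng mog cd1q1 cd7q3 pd1 false true false .nn 1 1 3
    ndB1q1 ndB7q3 pcB1 Cut.none Ext.none :=
  certB0 (fam := false) (s1 := true) (s2 := false) (a := 1) (b := 1) (c := 3) (cn := .nn) (n1 := ndB1q1) (n2 := ndB7q3) (pc := pcB1) (cut := Cut.none) (xt := Ext.none) (P1 := 536870912) (W1 := 536870912) (P2 := 0) (W2 := 1230186008) (P3 := 587336777) (W3 := 62277027) (N0 := 3) (En := eng) (mo := mog) (C1 := cd1q1) (C2 := cd7q3) (C3 := pd1)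
    rfl k0_pm_113

noncomputable def f_pm_123 : ℕ → ℕ → ℕ → ℕ → Bool := onCell 1073741824 536870912 0 1230186008 587336777 62277027
    (rowB 3 eng mog cd1q1 cd7q3 pd2 2 false true false .npn 1 2 3 (qsf 536870912 536870912 0 1230186008 2) ndB1q1 ndB7q3 pcB2 Cut.none Ext.none)

def k0_pm_123 : ∃ t, chk3 f_pm_123 t 1 1 1 = true :=
  ⟨(b (a (b (a (a (b (a (l 16764360) (l 16748888)) (l 16746576)) (b (l 16721408) (l 16704184))) (a (b (a (l 16756552) (l 16676376)) (l 16664864)) (b (l 16673176) (l 16652632)))) (a (a (b (l 16737192) (b (l 16719288) (l 16700088))) (b (l 16682728) (l 16650272))) (a (b (l 16643352) (l 16614520)) (b (l 16635968) (l 16610712))))) (a (b (a (b (l 16671736) (l 16653056)) (b (l 16672896) (l 16661848))) (b (a (l 16638696) (l 16652120)) (a (l 16621120) (l 4)))) (b (a (l 16690448) (l 16710968)) (a (l 16685048) (l 16703288))))) (b (a (a (a (b (b (l 16666200) (l 16630872)) (b (l 16601384) (l 4))) (b (b (l 16608512) (l 16589368)) (l 4)))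 (b (a (b (l 16589560) (l 4)) (l 4)) (l 4))) (l 4)) (l 4))), by decide +kernel⟩

theorem c_pm_123 : CertB 536870912 536870912 0 1230186008 587336777 62277027 3 eng mog cd1q1 cd7q3 pd2 false true false .npn 1 2 3
    ndB1q1 ndB7q3 pcB2 Cut.none Ext.none :=
  certB2 (fam := false) (s1 := true) (s2 := false) (a := 1) (b := 2) (c := 3) (cn := .npn) (n1 := ndB1q1) (n2 := ndB7q3) (pc := pcB2) (cut := Cut.none) (xt := Ext.none) (P1 := 536870912) (W1 := 536870912) (P2 := 0) (W2 := 1230186008) (P3 := 587336777) (W3 := 62277027) (N0 := 3) (En := eng) (mo := mog) (C1 := cd1q1) (C2 := cd7q3) (C3 := pd2)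
    rfl (fun _ => rfl) k0_pm_123

noncomputable def f_pm_133 : ℕ → ℕ → ℕ → ℕ → Bool := onCell 1610612736 536870912 0 1230186008 587336777 62277027
    (rowB 3 eng mog cd1q1 cd7q3 pd3 2 false true false .dn 1 3 3 (qsf 536870912 536870912 0 1230186008 3) ndB1q1 ndB7q3 pcB3 Cut.none Ext.none)

def k0_pm_133 : ∃ t, chk3 f_pm_133 t 1 1 1 = true :=
  ⟨(b (b (a (a (a (l 16704640) (l 1)) (l 1)) (l 1)) (l 1)) (l 1)), by decide +kernel⟩

theorem c_pm_133 : CertB 536870912 536870912 0 1230186008 587336777 62277027 3 eng mog cd1q1 cd7q3 pd3 false true false .dn 1 3 3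
    ndB1q1 ndB7q3 pcB3 Cut.none Ext.none :=
  certB2 (fam := false) (s1 := true) (s2 := false) (a := 1) (b := 3) (c := 3) (cn := .dn) (n1 := ndB1q1) (n2 := ndB7q3) (pc := pcB3) (cut := Cut.none) (xt := Ext.none) (P1 := 536870912) (W1 := 536870912) (P2 := 0) (W2 := 1230186008) (P3 := 587336777) (W3 := 62277027) (N0 := 3) (En := eng) (mo := mog) (C1 := cd1q1) (C2 := cd7q3) (C3 := pd3)
    rfl (fun _ => rfl) k0_pm_133

noncomputable def f_pm_202_a : ℕ → ℕ → ℕ → ℕ → Bool := onCell 0 536870912 0 536870912 587336777 62277027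
    (rowB 3 eng mog cd1q2a cd7q2 pd0 1 false true false .pp 2 0 2 (qsf 0 536870912 1073741824 536870912 0) ndB1q2a ndB7q2 pcB0 Cut.none Ext.none)

def k0_pm_202_a : ∃ t, chk3 f_pm_202_a t 1 1 1 = true :=
  ⟨(a (b (b (b (a (b (a (l 16486288) (l 16471744)) (l 16513120)) (b (a (l 16442888) (l 16394960)) (a (l 16479800) (l 16433040)))) (a (l 16606472) (a (b (l 16516344) (l 16550240)) (l 16491936)))) (b (a (b (l 16612936) (l 16641792)) (a (l 16603192) (b (l 16553336) (l 16591320)))) (a (b (l 16668544) (l 16692528)) (a (l 16669752) (b (l 16629552) (l 16667296)))))) (b (b (a (b (l 16709768) (a (l 16714656) (l 16728944))) (a (l 16723040) (l 16716648))) (a (b (a (l 16728816) (l 16741296)) (a (l 16740824) (l 16751648))) (b (a (l 16753216) (l 16757552)) (a (l 16768984) (l 16780800))))) (b (b (a (l 2) (a (l 2) (l 16801104))) (l 2)) (l 2)))) (b (b (a (b (a (b (l 16332128) (l 16369112)) (l 4)) (a (l 16433752) (b (l 16356992) (l 16404392)))) (l 4)) (a (b (a (l 16527800)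 (l 16485648)) (a (l 16623248) (l 16599280))) (b (l 4) (a (l 16555536) (l 4))))) (b (b (a (a (b (l 16686440) (l 16726488)) (b (l 16682696) (l 16722896))) (a (l 16664648) (l 4))) (a (b (a (l 16762496) (l 16754344)) (a (l 16794096) (l 16767824))) (a (l 16740880) (l 16691160)))) (b (a (b (a (l 16823976) (l 16828496)) (l 17065704)) (b (a (l 16778704) (l 16741416)) (l 16793296))) (a (l 2) (b (l 16791576) (a (l 2) (l 16796368)))))))), by decide +kernel⟩

theorem c_pm_202_a : CertB 0 536870912 1073741824 536870912 587336777 62277027 3 eng mog cd1q2a cd7q2 pd0 false true false .pp 2 0 2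
    ndB1q2a ndB7q2 pcB0 Cut.none Ext.none :=
  certB1 (fam := false) (s1 := true) (s2 := false) (a := 2) (b := 0) (c := 2) (cn := .pp) (n1 := ndB1q2a) (n2 := ndB7q2) (pc := pcB0) (cut := Cut.none) (xt := Ext.none) (P1 := 0) (W1 := 536870912) (P2 := 1073741824) (W2 := 536870912) (P3 := 587336777) (W3 := 62277027) (N0 := 3) (En := eng) (mo := mog) (C1 := cd1q2a) (C2 := cd7q2) (C3 := pd0)
    rfl (fun _ => rfl) k0_pm_202_a

noncomputable def f_pm_202_b : ℕ → ℕ → ℕ → ℕ → Bool := onCell 0 536870912 1073741824 536870912 587336777 62277027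
    (rowB 3 eng mog cd1q2b cd7q2 pd0 2 false true false .pp 2 0 2 (qsf 1239849684 370763052 1073741824 536870912 0) ndB1q2b ndB7q2 pcB0 Cut.none Ext.none)

def k0_pm_202_b : ∃ t, chk3 f_pm_202_b t 1 1 1 = true :=
  ⟨(a (b (a (b (l 1) (b (a (a (l 464426579895) (l 467647805191)) (l 1)) (a (l 298533744711) (l 375306333383)))) (l 1)) (a (b (a (b (l 16480856) (l 16400528)) (b (l 16567960) (a (l 16483048) (l 16538976)))) (b (a (l 16216376) (l 16385792)) (a (l 16171440) (l 16271992)))) (b (a (b (a (l 16621888) (l 414497638663)) (b (l 16625864) (l 16599496))) (b (l 1) (l 391411942935))) (a (b (l 16523032) (l 16363528)) (b (l 326987546535) (b (l 16544592) (l 16441816))))))) (a (b (l 1) (b (l 1) (a (b (b (l 358662934967) (l 16719752)) (b (l 16678472) (l 16621136))) (b (l 1) (b (l 366716880311) (l 16746376)))))) (l 1))), by decide +kernel⟩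

theorem c_pm_202_b : CertB 1239849684 370763052 1073741824 536870912 587336777 62277027 3 eng mog cd1q2b cd7q2 pd0 false true false .pp 2 0 2
    ndB1q2b ndB7q2 pcB0 Cut.none Ext.none :=
  certB2 (fam := false) (s1 := true) (s2 := false) (a := 2) (b := 0) (c := 2) (cn := .pp) (n1 := ndB1q2b) (n2 := ndB7q2) (pc := pcB0) (cut := Cut.none) (xt := Ext.none) (P1 := 1239849684) (W1 := 370763052) (P2 := 1073741824) (W2 := 536870912) (P3 := 587336777) (W3 := 62277027) (N0 := 3) (En := eng) (mo := mog) (C1 := cd1q2b) (C2 := cd7q2) (C3 := pd0)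
    rfl (fun _ => rfl) k0_pm_202_b

noncomputable def f_pm_203_a : ℕ → ℕ → ℕ → ℕ → Bool := onCell 0 536870912 0 1230186008 587336777 62277027
    (rowB 3 eng mog cd1q2a cd7q3 pd0 0 false true false .up 2 0 3 (qsf 0 536870912 0 1230186008 0) ndB1q2a ndB7q3 pcB0 Cut.none Ext.none)

def k0_pm_203_a : ∃ t, chk3 f_pm_203_a t 1 1 1 = true :=
  ⟨(b (l 2) (b (l 2) (a (b (b (l 2) (a (a (a (l 271220666455) (l 16805160)) (l 16811192)) (l 16835016))) (b (a (b (l 16790392) (l 16773904)) (a (b (l 16814880) (l 16800720)) (b (l 16849064) (l 16833736)))) (a (b (a (l 16752272) (l 16770576)) (a (l 16742912) (l 16755808))) (b (a (l 16789944) (l 16821272)) (a (l 16776328) (l 16801608)))))) (b (l 2) (a (b (a (b (l 16900304) (l 16896848)) (l 16993848)) (b (a (l 16873920) (l 16834120)) (a (l 16843072) (l 16838632)))) (b (a (l 16835400) (l 2)) (a (b (l 16814816) (l 16807944)) (b (l 16795488) (l 16788816))))))))), by decide +kernel⟩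

theorem c_pm_203_a : CertB 0 536870912 0 1230186008 587336777 62277027 3 eng mog cd1q2a cd7q3 pd0 false true false .up 2 0 3
    ndB1q2a ndB7q3 pcB0 Cut.none Ext.none :=
  certB0 (fam := false) (s1 := true) (s2 := false) (a := 2) (b := 0) (c := 3) (cn := .up) (n1 := ndB1q2a) (n2 := ndB7q3) (pc := pcB0) (cut := Cut.none) (xt := Ext.none) (P1 := 0) (W1 := 536870912) (P2 := 0) (W2 := 1230186008) (P3 := 587336777) (W3 := 62277027) (N0 := 3) (En := eng) (mo := mog) (C1 := cd1q2a) (C2 := cd7q3) (C3 := pd0)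
    rfl k0_pm_203_a

noncomputable def f_pm_203_b : ℕ → ℕ → ℕ → ℕ → Bool := onCell 0 536870912 0 1230186008 587336777 62277027
    (rowB 3 eng mog cd1q2b cd7q3 pd0 2 false true false .up 2 0 3 (qsf 1239849684 370763052 0 1230186008 0) ndB1q2b ndB7q3 pcB0 Cut.none Ext.none)

def k0_pm_203_b : ∃ t, chk3 f_pm_203_b t 1 1 1 = true :=
  ⟨(b (l 3) (b (a (l 3) (a (l 3) (l 3))) (a (b (a (l 2) (b (l 3) (a (l 16480112) (l 16524808)))) (a (b (a (l 2) (b (l 16339264) (l 16304872))) (a (l 16189464) (l 16280368))) (b (a (b (l 16406952) (l 16388496)) (b (l 16483984) (l 16473008))) (a (l 16376360) (l 16547120))))) (b (a (a (b (l 16682728) (l 16578688)) (b (l 16694528) (l 16650976))) (a (a (b (l 16696640) (l 16659360)) (b (l 135459274103) (b (l 16683016) (l 16678544)))) (b (b (a (l 16727112) (l 16735584)) (a (l 16712728) (b (l 16725080) (l 16722864)))) (b (l 16718464) (l 16753568))))) (a (b (b (l 16583784) (l 16570600)) (a (l 16521544) (l 16700288))) (b (b (a (l 16667808)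 (l 16791328)) (a (l 16723512) (l 362421239671))) (a (b (l 16766832) (l 369400639463)) (l 1)))))))), by decide +kernel⟩

theorem c_pm_203_b : CertB 1239849684 370763052 0 1230186008 587336777 62277027 3 eng mog cd1q2b cd7q3 pd0 false true false .up 2 0 3
    ndB1q2b ndB7q3 pcB0 Cut.none Ext.none :=
  certB2 (fam := false) (s1 := true) (s2 := false) (a := 2) (b := 0) (c := 3) (cn := .up) (n1 := ndB1q2b) (n2 := ndB7q3) (pc := pcB0) (cut := Cut.none) (xt := Ext.none) (P1 := 1239849684) (W1 := 370763052) (P2 := 0) (W2 := 1230186008) (P3 := 587336777) (W3 := 62277027) (N0 := 3) (En := eng) (mo := mog) (C1 := cd1q2b) (C2 := cd7q3) (C3 := pd0)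
    rfl (fun _ => rfl) k0_pm_203_b

noncomputable def cut_pm_213_a : Cut := Cut.of [[⟨0, 1, 0, 67108864⟩, ⟨1, 1, 0, 67108864⟩, ⟨2, 2, 0, 16777216⟩]]

noncomputable def f_pm_213_a : ℕ → ℕ → ℕ → ℕ → Bool := onCell 0 536870912 0 1230186008 587336777 62277027
    (rowB 3 eng mog cd1q2a cd7q3 pd1 0 false true false .pnn 2 1 3 (qsf 0 536870912 0 1230186008 1) ndB1q2a ndB7q3 pcB1 cut_pm_213_a Ext.none)

def k0_pm_213_a : ∃ t, chk3 f_pm_213_a t 2 2 1 = true :=
  ⟨(a (l 3) (b (l 3) (b (l 3) (a (b (l 3) (a (l 3) (b (b (l 3) (l 315311005239)) (a (b (l 3) (a (l 301352347047) (l 287393706535))) (b (a (l 291151800759) (l 271287601271)) (a (l 240685958359) (l 16774704))))))) (b (a (b (l 3) (a (l 3) (b (l 3) (l 294373035847)))) (b (a (b (l 3) (l 321216567911)) (b (l 313163506391) (a (l 279340642151) (l 16776416)))) (a (b (a (l 297057380087) (l 264845129031)) (l 224579821399)) (b (l 16775496) (l 16775192))))) (a (b (a (b (l 296520507095) (a (l 285246221671) (l 244980916695)))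 (b (a (l 266992612375) (l 16775528)) (l 16774048))) (a (b (l 16774480) (l 16772472)) (l 16770904))) (b (a (l 16773800) (l 16773208)) (a (l 16749832) (l 16771808))))))))), by decide +kernel⟩

def k1_pm_213_a : ∃ t, chk3 f_pm_213_a t 3 4 1 = true :=
  ⟨(a (b (l 3) (a (l 3) (b (l 3) (a (b (l 3) (a (l 3) (b (l 3) (l 343228279111)))) (b (a (l 3) (b (l 342691430231) (a (l 311552898199) (l 275582549223)))) (a (b (a (l 3) (l 298131125943)) (a (l 282024999239) (l 16777288))) (b (l 258402690535) (l 16778520)))))))) (a (a (b (l 3) (b (b (a (l 3) (b (l 3) (a (l 3) (b (l 3) (l 321753445911))))) (a (b (l 3) (a (l 351281344519) (l 302962977927))) (b (a (b (l 349670732535) (l 302426093863)) (l 269676984935)) (a (l 275045688855) (l 16778344))))) (b (a (b (a (l 292225557703) (l 16777552)) (l 16778104)) (l 16779976)) (a (l 16780176) (l 16782632))))) (b (l 6) (a (b (b (a (b (l 351818215783) (b (l 292225546983) (l 256255207319))) (l 6)) (l 16778616)) (b (l 16781016) (l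 16782912))) (b (l 6) (l 16801504))))) (b (l 6) (b (b (l 6) (a (l 16838648) (l 16780888))) (a (l 16783536) (l 16785656)))))), by decide +kernel⟩

def k2_pm_213_a : ∃ t, chk3 f_pm_213_a t 3 5 1 = true :=
  ⟨(a (b (a (b (a (l 3) (b (l 3) (a (l 3) (b (l 341080794551) (a (l 311016025863) (l 238001584935)))))) (a (b (a (l 3) (b (l 3) (l 339470181079))) (a (b (l 343228275111) (a (l 327659021479) (l 282024997495))) (b (a (l 308331670967) (l 227264172407)) (l 16776088)))) (b (a (b (a (l 345912632775) (l 288467448535)) (a (l 272361322183) (l 16776768))) (b (l 229948536583) (l 16777848))) (a (l 16777232) (l 16778544))))) (b (a (b (a (b (l 3) (a (l 349133858967) (l 311016027127))) (b (a (l 329269637415) (l 247128390599)) (l 242296562919))) (a (b (a (l 285246224183) (l 16776808)) (l 16777384)) (l 16778944))) (b (a (l 16789336) (l 16780624)) (a (l 16781344) (l 16783000)))) (a (b (a (l 16778920) (l 16780912)) (a (l 16780432) (l 16782200))) (b (l 16805952) (l 16785464)))))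 (a (b (a (b (a (b (a (l 262160781191) (l 16775840)) (l 16775712)) (l 16776560)) (a (l 16775448) (l 16777040))) (b (a (l 16777768) (l 16780176)) (l 16783472))) (a (b (l 16800944) (l 16773528)) (l 16779168))) (b (a (l 16783008) (l 16786880)) (a (l 16782536) (l 16768992))))) (b (b (a (a (b (l 16824968) (l 16785744)) (l 16787024)) (a (l 16789312) (l 16791840))) (a (a (l 16789184) (l 16791888)) (l 16796984))) (a (b (a (l 16792712) (l 16796112)) (l 16796656)) (b (l 16801016) (l 16805016))))), by decide +kernel⟩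

def k3_pm_213_a : ∃ t, chk3 f_pm_213_a t 2 12 1 = true :=
  ⟨(a (a (l 3) (b (a (l 3) (b (l 3) (a (l 3) (b (l 3) (b (l 329269642855) (a (l 330880251159) (l 278266919175))))))) (b (a (a (l 3) (b (l 3) (a (l 3) (b (l 3) (a (l 3) (l 299204878935)))))) (a (b (a (l 3) (b (l 336785830775) (l 295446772343))) (a (b (l 300278610231) (l 261623920311)) (b (l 16777368) (l 16777392)))) (b (a (b (l 277730032583) (l 16777968)) (l 16776752)) (l 16775784)))) (a (a (b (b (l 3) (l 358260666135)) (a (b (l 3) (b (l 346986390071) (a (l 301889223127) (l 250349606391)))) (b (a (b (l 3) (l 299204868583)) (l 268603226455)) (l 257328949415)))) (b (a (b (l 344838905815) (a (l 294909911831) (l 270750717543))) (b (l 266455753399) (l 16778624))) (b (l 16778336) (l 16777616)))) (a (b (l 16776856) (l 16775768)) (l 16773360)))))) (b (a (a (b (a (b (l 3) (l 323900925511)) (b (a (l 3) (l 295983640039)) (a (b (l 302426092007) (l 280951276439)) (l 249275895351)))) (a (b (b (l 311016043111)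 (a (l 301352351799) (l 16777128))) (b (l 248202154007) (l 16775768))) (b (l 16774992) (l 16772936)))) (b (a (b (a (l 273971959191) (l 16775664)) (l 16774144)) (l 16772296)) (b (l 16769968) (l 16748088)))) (a (b (a (l 16748008) (l 16768912)) (l 16814856)) (l 16768488))) (a (b (a (a (l 16773712) (l 16770312)) (b (l 16768984) (l 16767552))) (a (b (l 16771080) (l 16770616)) (l 16766624))) (b (l 16766336) (l 16764352))))), by decide +kernel⟩

def k4_pm_213_a : ∃ t, chk3 f_pm_213_a t 4 26 1 = true :=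
  ⟨(a (a (b (l 3) (a (b (l 3) (a (l 3) (b (l 3) (a (l 3) (b (l 3) (a (l 3) (b (l 3) (l 286856838375)))))))) (b (a (l 3) (b (l 3) (b (l 360408150855) (a (l 356113185431) (a (l 287930579991) (l 247665255671)))))) (a (b (a (l 3) (b (l 3) (a (l 348596998391) (l 282025002599)))) (a (b (a (l 353428831223) (b (l 349133864119) (l 260550163447))) (b (l 271824457527) (l 16776776))) (b (l 250349621639) (l 16778296)))) (b (a (b (a (l 301352352887) (l 256255195831)) (l 16776784)) (l 16777792)) (l 16779192)))))) (b (a (b (l 3) (a (l 3) (b (b (l 3) (l 356650055783)) (a (b (l 359871281655) (a (l 295446772551) (l 246591525527))) (b (l 255181464455) (l 16776496)))))) (b (a (b (l 3) (a (l 3) (b (l 3) (l 297057385127)))) (b (a (l 3) (b (l 350744476071) (l 264308259351))) (b (l 285246229959) (l 16779312)))) (a (b (a (b (l 300815481527) (l 257328937255)) (l 257328944935)) (l 16778496)) (l 16779184)))) (a (b (a (b (a (b (l 3) (a (l 3) (l 294373030855))) (b (a (l 353428831063)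 (l 255718325047)) (l 246054640903))) (b (l 253570852071) (l 16778208))) (b (b (l 256255202519) (l 16778840)) (l 16779288))) (l 16779016)) (b (l 16778808) (l 16778560))))) (a (b (a (b (a (b (l 263234530119) (l 16779144)) (l 16778368)) (l 16778040)) (l 16776336)) (b (l 16776208) (l 16776952))) (b (b (l 16773872) (l 16774264)) (l 16772168)))), by decide +kernel⟩

def k5_pm_213_a : ∃ t, chk3 f_pm_213_a t 4 27 1 = true :=
  ⟨(a (b (a (a (b (a (b (b (l 3) (l 394767889639)) (a (b (l 3) (a (a (l 3) (b (l 3) (l 297057385975))) (b (c (l 300815482487) (l 301889221447)) (l 250349619767)))) (b (a (b (l 3) (c (l 291151805991) (l 292225547575))) (b (l 288467451191) (l 16776744))) (l 236927846807)))) (b (a (b (a (l 3) (l 350207605991)) (a (b (l 354502573399) (l 285246225543)) (l 248202137623))) (b (a (b (l 301352353063) (l 255718322167)) (l 16779312)) (l 16777832))) (a (l 16778752) (l 16778832)))) (a (b (a (b (a (b (c (l 250349621591) (l 246591522327)) (l 16777240))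 (l 16777824)) (l 16778496)) (l 16778560)) (l 16778288)) (l 16778480))) (b (b (l 16778960) (l 16778768)) (l 16778464))) (a (l 16798192) (l 16777896))) (a (b (l 16776888) (l 16777240)) (b (l 16777536) (l 16775544)))) (b (a (b (l 16775984) (l 16774072)) (l 16770168)) (l 16768312))), by decide +kernel⟩

def k6_pm_213_a : ∃ t, chk3 f_pm_213_a t 5 13 1 = true :=
  ⟨(b (a (b (l 16766880) (l 16763824)) (b (l 16765400) (l 16765368))) (a (b (l 16763576) (l 16763264)) (l 16756552))), by decide +kernel⟩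

def k7_pm_213_a : ∃ t, chk3 f_pm_213_a t 3 6 1 = true :=
  ⟨(b (a (b (a (b (l 16773424) (l 16773312)) (b (l 16788184) (l 16787640))) (a (a (l 16772464) (l 16778792)) (l 16789352))) (b (a (l 16799872) (l 16806936)) (a (l 16807336) (l 16799224)))) (a (b (a (l 16771288) (l 16799312)) (l 16787592)) (b (l 16799640) (l 16790360)))), by decide +kernel⟩

def k8_pm_213_a : ∃ t, chk3 f_pm_213_a t 1 7 1 = true :=
  ⟨(a (b (a (b (a (a (b (b (l 16778088) (l 16775480)) (l 16772256)) (b (l 16773640) (l 16767080))) (b (l 16766384) (l 16859568))) (a (b (a (l 16763664) (l 16763352)) (l 16917768)) (l 16832432))) (b (a (l 16751072) (l 16764608)) (a (l 16753984) (l 16745848)))) (b (a (l 1) (a (l 1) (l 16730648))) (l 1))) (b (a (b (l 16772240) (a (l 16756464) (l 16781616))) (b (l 16799728) (a (l 16800704) (l 16806696)))) (a (b (a (l 16751360) (l 16773512)) (l 1)) (b (l 16633616) (l 226593679815))))), by decide +kernel⟩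

theorem s9_pm_213_a : ∃ t, chk3 f_pm_213_a t 4 13 1 = true := ex3_b k4_pm_213_a k5_pm_213_a

theorem s10_pm_213_a : ∃ t, chk3 f_pm_213_a t 2 13 1 = true := ex3_a s9_pm_213_a k6_pm_213_a

theorem s11_pm_213_a : ∃ t, chk3 f_pm_213_a t 2 6 1 = true := ex3_b k3_pm_213_a s10_pm_213_a

theorem s12_pm_213_a : ∃ t, chk3 f_pm_213_a t 1 6 1 = true := ex3_a s11_pm_213_a k7_pm_213_a

theorem s13_pm_213_a : ∃ t, chk3 f_pm_213_a t 1 3 1 = true := ex3_b s12_pm_213_a k8_pm_213_a

theorem s14_pm_213_a : ∃ t, chk3 f_pm_213_a t 3 2 1 = true := ex3_b k1_pm_213_a k2_pm_213_a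

theorem s15_pm_213_a : ∃ t, chk3 f_pm_213_a t 1 2 1 = true := ex3_a k0_pm_213_a s14_pm_213_a

theorem s16_pm_213_a : ∃ t, chk3 f_pm_213_a t 1 1 1 = true := ex3_b s15_pm_213_a s13_pm_213_a

theorem c_pm_213_a : CertB 0 536870912 0 1230186008 587336777 62277027 3 eng mog cd1q2a cd7q3 pd1 false true false .pnn 2 1 3
    ndB1q2a ndB7q3 pcB1 cut_pm_213_a Ext.none :=
  certB0 (fam := false) (s1 := true) (s2 := false) (a := 2) (b := 1) (c := 3) (cn := .pnn) (n1 := ndB1q2a) (n2 := ndB7q3) (pc := pcB1) (cut := cut_pm_213_a) (xt := Ext.none) (P1 := 0) (W1 := 536870912) (P2 := 0) (W2 := 1230186008) (P3 := 587336777) (W3 := 62277027) (N0 := 3) (En := eng) (mo := mog) (C1 := cd1q2a) (C2 := cd7q3) (C3 := pd1)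
    rfl s16_pm_213_a

noncomputable def cut_pm_213_b : Cut := Cut.of [[⟨0, 1, 0, 67108864⟩, ⟨1, 1, 0, 67108864⟩, ⟨2, 2, 0, 16777216⟩]]

noncomputable def f_pm_213_b : ℕ → ℕ → ℕ → ℕ → Bool := onCell 1239849684 370763052 0 1230186008 587336777 62277027
    (rowB 3 eng mog cd1q2b cd7q3 pd1 0 false true false .pnn 2 1 3 (qsf 1239849684 370763052 0 1230186008 1) ndB1q2b ndB7q3 pcB1 cut_pm_213_b Ext.none)

def k0_pm_213_b : ∃ t, chk3 f_pm_213_b t 1 1 1 = true :=
  ⟨(b (l 3) (b (a (b (l 3) (a (b (l 3) (b (b (l 3) (a (a (a (b (a (b (b (c (l 292225546727) (l 293299287623)) (l 16776016)) (l 16775312)) (l 343765150359)) (l 16773912)) (l 293299279543)) (l 3)) (l 3))) (a (a (a (a (l 16771232) (l 16777144)) (l 16767856)) (l 16763016)) (a (l 293836237383) (l 16751192))))) (l 3))) (l 3)) (a (b (a (b (a (b (a (l 16792480) (l 16761024)) (a (l 16785920) (l 16781248))) (b (b (l 16746384) (l 16739536)) (b (l 16739728) (l 16744304)))) (b (l 16788544) (l 16789608))) (l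 1)) (l 1)) (l 1)))), by decide +kernel⟩

theorem c_pm_213_b : CertB 1239849684 370763052 0 1230186008 587336777 62277027 3 eng mog cd1q2b cd7q3 pd1 false true false .pnn 2 1 3
    ndB1q2b ndB7q3 pcB1 cut_pm_213_b Ext.none :=
  certB0 (fam := false) (s1 := true) (s2 := false) (a := 2) (b := 1) (c := 3) (cn := .pnn) (n1 := ndB1q2b) (n2 := ndB7q3) (pc := pcB1) (cut := cut_pm_213_b) (xt := Ext.none) (P1 := 1239849684) (W1 := 370763052) (P2 := 0) (W2 := 1230186008) (P3 := 587336777) (W3 := 62277027) (N0 := 3) (En := eng) (mo := mog) (C1 := cd1q2b) (C2 := cd7q3) (C3 := pd1)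
    rfl k0_pm_213_b

noncomputable def f_pm_303 : ℕ → ℕ → ℕ → ℕ → Bool := onCell 0 536870912 0 1230186008 587336777 62277027
    (rowB 3 eng mog cd1q3 cd7q3 pd0 2 false true false .npn 3 0 3 (qsf 1610612736 536870912 0 1230186008 0) ndB1q3 ndB7q3 pcB0 Cut.none Ext.none)

def k0_pm_303 : ∃ t, chk3 f_pm_303 t 1 1 1 = true :=
  ⟨(b (l 3) (b (a (l 3) (a (l 3) (l 3))) (a (b (b (l 3) (a (a (a (l 101636053719) (l 102709839239)) (l 16398216)) (a (l 16467696) (l 1)))) (a (b (a (l 16236224) (b (l 16323224) (l 16289008))) (a (l 16173976) (l 16270192))) (b (a (b (l 16393904) (l 1)) (l 1)) (l 1)))) (l 1)))), by decide +kernel⟩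

theorem c_pm_303 : CertB 1610612736 536870912 0 1230186008 587336777 62277027 3 eng mog cd1q3 cd7q3 pd0 false true false .npn 3 0 3
    ndB1q3 ndB7q3 pcB0 Cut.none Ext.none :=
  certB2 (fam := false) (s1 := true) (s2 := false) (a := 3) (b := 0) (c := 3) (cn := .npn) (n1 := ndB1q3) (n2 := ndB7q3) (pc := pcB0) (cut := Cut.none) (xt := Ext.none) (P1 := 1610612736) (W1 := 536870912) (P2 := 0) (W2 := 1230186008) (P3 := 587336777) (W3 := 62277027) (N0 := 3) (En := eng) (mo := mog) (C1 := cd1q3) (C2 := cd7q3) (C3 := pd0)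
    rfl (fun _ => rfl) k0_pm_303

noncomputable def f_pm_313 : ℕ → ℕ → ℕ → ℕ → Bool := onCell 1610612736 536870912 0 1230186008 587336777 62277027
    (rowB 3 eng mog cd1q3 cd7q3 pd1 0 false true false .dn 3 1 3 (qsf 1610612736 536870912 0 1230186008 1) ndB1q3 ndB7q3 pcB1 Cut.none Ext.none)

def k0_pm_313 : ∃ t, chk3 f_pm_313 t 1 1 1 = true :=
  ⟨(b (l 3) (l 1)), by decide +kernel⟩

theorem c_pm_313 : CertB 1610612736 536870912 0 1230186008 587336777 62277027 3 eng mog cd1q3 cd7q3 pd1 false true false .dn 3 1 3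
    ndB1q3 ndB7q3 pcB1 Cut.none Ext.none :=
  certB0 (fam := false) (s1 := true) (s2 := false) (a := 3) (b := 1) (c := 3) (cn := .dn) (n1 := ndB1q3) (n2 := ndB7q3) (pc := pcB1) (cut := Cut.none) (xt := Ext.none) (P1 := 1610612736) (W1 := 536870912) (P2 := 0) (W2 := 1230186008) (P3 := 587336777) (W3 := 62277027) (N0 := 3) (En := eng) (mo := mog) (C1 := cd1q3) (C2 := cd7q3) (C3 := pd1)
    rfl k0_pm_313

noncomputable def f_mm_001 : ℕ → ℕ → ℕ → ℕ → Bool := onCell 0 536870912 0 536870912 587336777 62277027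
    (rowB 3 eng mog cd1q0 cd7q1 pd0 1 false false false .up 0 0 1 (qsf 0 536870912 536870912 536870912 0) ndB1q0 ndB7q1 pcB0 Cut.none Ext.none)

def k0_mm_001 : ∃ t, chk3 f_mm_001 t 1 1 1 = true :=
  ⟨(l 3), by decide +kernel⟩

theorem c_mm_001 : CertB 0 536870912 536870912 536870912 587336777 62277027 3 eng mog cd1q0 cd7q1 pd0 false false false .up 0 0 1
    ndB1q0 ndB7q1 pcB0 Cut.none Ext.none :=
  certB1 (fam := false) (s1 := false) (s2 := false) (a := 0) (b := 0) (c := 1) (cn := .up) (n1 := ndB1q0) (n2 := ndB7q1) (pc := pcB0) (cut := Cut.none) (xt := Ext.none) (P1 := 0) (W1 := 536870912) (P2 := 536870912) (W2 := 536870912) (P3 := 587336777) (W3 := 62277027) (N0 := 3) (En := eng) (mo := mog) (C1 := cd1q0) (C2 := cd7q1) (C3 := pd0)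
    rfl (fun _ => rfl) k0_mm_001

noncomputable def f_mm_011 : ℕ → ℕ → ℕ → ℕ → Bool := onCell 0 536870912 536870912 536870912 587336777 62277027
    (rowB 3 eng mog cd1q0 cd7q1 pd1 1 false false false .pnn 0 1 1 (qsf 0 536870912 536870912 536870912 1) ndB1q0 ndB7q1 pcB1 Cut.none Ext.none)

def k0_mm_011 : ∃ t, chk3 f_mm_011 t 1 1 1 = true :=
  ⟨(l 5), by decide +kernel⟩

theorem c_mm_011 : CertB 0 536870912 536870912 536870912 587336777 62277027 3 eng mog cd1q0 cd7q1 pd1 false false false .pnn 0 1 1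
    ndB1q0 ndB7q1 pcB1 Cut.none Ext.none :=
  certB1 (fam := false) (s1 := false) (s2 := false) (a := 0) (b := 1) (c := 1) (cn := .pnn) (n1 := ndB1q0) (n2 := ndB7q1) (pc := pcB1) (cut := Cut.none) (xt := Ext.none) (P1 := 0) (W1 := 536870912) (P2 := 536870912) (W2 := 536870912) (P3 := 587336777) (W3 := 62277027) (N0 := 3) (En := eng) (mo := mog) (C1 := cd1q0) (C2 := cd7q1) (C3 := pd1)
    rfl (fun _ => rfl) k0_mm_011

noncomputable def f_mm_012 : ℕ → ℕ → ℕ → ℕ → Bool := onCell 0 536870912 1073741824 536870912 587336777 62277027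
    (rowB 3 eng mog cd1q0 cd7q2 pd1 0 false false false .pnp 0 1 2 (qsf 0 536870912 1073741824 536870912 1) ndB1q0 ndB7q2 pcB1 Cut.none Ext.none)

def k0_mm_012 : ∃ t, chk3 f_mm_012 t 1 1 1 = true :=
  ⟨(l 5), by decide +kernel⟩

theorem c_mm_012 : CertB 0 536870912 1073741824 536870912 587336777 62277027 3 eng mog cd1q0 cd7q2 pd1 false false false .pnp 0 1 2
    ndB1q0 ndB7q2 pcB1 Cut.none Ext.none :=
  certB0 (fam := false) (s1 := false) (s2 := false) (a := 0) (b := 1) (c := 2) (cn := .pnp) (n1 := ndB1q0) (n2 := ndB7q2) (pc := pcB1) (cut := Cut.none) (xt := Ext.none) (P1 := 0) (W1 := 536870912) (P2 := 1073741824) (W2 := 536870912) (P3 := 587336777) (W3 := 62277027) (N0 := 3) (En := eng) (mo := mog) (C1 := cd1q0) (C2 := cd7q2) (C3 := pd1)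
    rfl k0_mm_012

noncomputable def f_mm_022 : ℕ → ℕ → ℕ → ℕ → Bool := onCell 0 536870912 1073741824 536870912 587336777 62277027
    (rowB 3 eng mog cd1q0 cd7q2 pd2 0 false false false .pp 0 2 2 (qsf 0 536870912 1073741824 536870912 2) ndB1q0 ndB7q2 pcB2 Cut.none Ext.none)

def k0_mm_022 : ∃ t, chk3 f_mm_022 t 1 1 1 = true :=
  ⟨(l 5), by decide +kernel⟩

theorem c_mm_022 : CertB 0 536870912 1073741824 536870912 587336777 62277027 3 eng mog cd1q0 cd7q2 pd2 false false false .pp 0 2 2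
    ndB1q0 ndB7q2 pcB2 Cut.none Ext.none :=
  certB0 (fam := false) (s1 := false) (s2 := false) (a := 0) (b := 2) (c := 2) (cn := .pp) (n1 := ndB1q0) (n2 := ndB7q2) (pc := pcB2) (cut := Cut.none) (xt := Ext.none) (P1 := 0) (W1 := 536870912) (P2 := 1073741824) (W2 := 536870912) (P3 := 587336777) (W3 := 62277027) (N0 := 3) (En := eng) (mo := mog) (C1 := cd1q0) (C2 := cd7q2) (C3 := pd2)
    rfl k0_mm_022

noncomputable def f_mm_023 : ℕ → ℕ → ℕ → ℕ → Bool := onCell 0 536870912 0 1230186008 587336777 62277027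
    (rowB 3 eng mog cd1q0 cd7q3 pd2 0 false false false .up 0 2 3 (qsf 0 536870912 0 1230186008 2) ndB1q0 ndB7q3 pcB2 Cut.none Ext.none)

def k0_mm_023 : ∃ t, chk3 f_mm_023 t 1 1 1 = true :=
  ⟨(l 5), by decide +kernel⟩

theorem c_mm_023 : CertB 0 536870912 0 1230186008 587336777 62277027 3 eng mog cd1q0 cd7q3 pd2 false false false .up 0 2 3
    ndB1q0 ndB7q3 pcB2 Cut.none Ext.none :=
  certB0 (fam := false) (s1 := false) (s2 := false) (a := 0) (b := 2) (c := 3) (cn := .up) (n1 := ndB1q0) (n2 := ndB7q3) (pc := pcB2) (cut := Cut.none) (xt := Ext.none) (P1 := 0) (W1 := 536870912) (P2 := 0) (W2 := 1230186008) (P3 := 587336777) (W3 := 62277027) (N0 := 3) (En := eng) (mo := mog) (C1 := cd1q0) (C2 := cd7q3) (C3 := pd2)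
    rfl k0_mm_023

noncomputable def f_mm_033 : ℕ → ℕ → ℕ → ℕ → Bool := onCell 0 536870912 0 1230186008 587336777 62277027
    (rowB 3 eng mog cd1q0 cd7q3 pd3 0 false false false .pnn 0 3 3 (qsf 0 536870912 0 1230186008 3) ndB1q0 ndB7q3 pcB3 Cut.none Ext.none)

def k0_mm_033 : ∃ t, chk3 f_mm_033 t 1 1 1 = true :=
  ⟨(l 5), by decide +kernel⟩

theorem c_mm_033 : CertB 0 536870912 0 1230186008 587336777 62277027 3 eng mog cd1q0 cd7q3 pd3 false false false .pnn 0 3 3
    ndB1q0 ndB7q3 pcB3 Cut.none Ext.none :=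
  certB0 (fam := false) (s1 := false) (s2 := false) (a := 0) (b := 3) (c := 3) (cn := .pnn) (n1 := ndB1q0) (n2 := ndB7q3) (pc := pcB3) (cut := Cut.none) (xt := Ext.none) (P1 := 0) (W1 := 536870912) (P2 := 0) (W2 := 1230186008) (P3 := 587336777) (W3 := 62277027) (N0 := 3) (En := eng) (mo := mog) (C1 := cd1q0) (C2 := cd7q3) (C3 := pd3)
    rfl k0_mm_033

noncomputable def f_mm_101 : ℕ → ℕ → ℕ → ℕ → Bool := onCell 536870912 536870912 0 536870912 587336777 62277027
    (rowB 3 eng mog cd1q1 cd7q1 pd0 1 false false false .npn 1 0 1 (qsf 536870912 536870912 536870912 536870912 0) ndB1q1 ndB7q1 pcB0 Cut.none Ext.none)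

def k0_mm_101 : ∃ t, chk3 f_mm_101 t 1 1 1 = true :=
  ⟨(l 3), by decide +kernel⟩

theorem c_mm_101 : CertB 536870912 536870912 536870912 536870912 587336777 62277027 3 eng mog cd1q1 cd7q1 pd0 false false false .npn 1 0 1
    ndB1q1 ndB7q1 pcB0 Cut.none Ext.none :=
  certB1 (fam := false) (s1 := false) (s2 := false) (a := 1) (b := 0) (c := 1) (cn := .npn) (n1 := ndB1q1) (n2 := ndB7q1) (pc := pcB0) (cut := Cut.none) (xt := Ext.none) (P1 := 536870912) (W1 := 536870912) (P2 := 536870912) (W2 := 536870912) (P3 := 587336777) (W3 := 62277027) (N0 := 3) (En := eng) (mo := mog) (C1 := cd1q1) (C2 := cd7q1) (C3 := pd0)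
    rfl (fun _ => rfl) k0_mm_101

noncomputable def f_mm_102 : ℕ → ℕ → ℕ → ℕ → Bool := onCell 536870912 536870912 0 536870912 587336777 62277027
    (rowB 3 eng mog cd1q1 cd7q2 pd0 1 false false false .npp 1 0 2 (qsf 536870912 536870912 1073741824 536870912 0) ndB1q1 ndB7q2 pcB0 Cut.none Ext.none)

def k0_mm_102 : ∃ t, chk3 f_mm_102 t 1 1 1 = true :=
  ⟨(l 3), by decide +kernel⟩

theorem c_mm_102 : CertB 536870912 536870912 1073741824 536870912 587336777 62277027 3 eng mog cd1q1 cd7q2 pd0 false false false .npp 1 0 2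
    ndB1q1 ndB7q2 pcB0 Cut.none Ext.none :=
  certB1 (fam := false) (s1 := false) (s2 := false) (a := 1) (b := 0) (c := 2) (cn := .npp) (n1 := ndB1q1) (n2 := ndB7q2) (pc := pcB0) (cut := Cut.none) (xt := Ext.none) (P1 := 536870912) (W1 := 536870912) (P2 := 1073741824) (W2 := 536870912) (P3 := 587336777) (W3 := 62277027) (N0 := 3) (En := eng) (mo := mog) (C1 := cd1q1) (C2 := cd7q2) (C3 := pd0)
    rfl (fun _ => rfl) k0_mm_102

noncomputable def f_mm_112 : ℕ → ℕ → ℕ → ℕ → Bool := onCell 536870912 536870912 1073741824 536870912 587336777 62277027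
    (rowB 3 eng mog cd1q1 cd7q2 pd1 0 false false false .dn 1 1 2 (qsf 536870912 536870912 1073741824 536870912 1) ndB1q1 ndB7q2 pcB1 Cut.none Ext.none)

def k0_mm_112 : ∃ t, chk3 f_mm_112 t 1 1 1 = true :=
  ⟨(a (l 3) (l 3)), by decide +kernel⟩

theorem c_mm_112 : CertB 536870912 536870912 1073741824 536870912 587336777 62277027 3 eng mog cd1q1 cd7q2 pd1 false false false .dn 1 1 2
    ndB1q1 ndB7q2 pcB1 Cut.none Ext.none :=
  certB0 (fam := false) (s1 := false) (s2 := false) (a := 1) (b := 1) (c := 2) (cn := .dn) (n1 := ndB1q1) (n2 := ndB7q2) (pc := pcB1) (cut := Cut.none) (xt := Ext.none) (P1 := 536870912) (W1 := 536870912) (P2 := 1073741824) (W2 := 536870912) (P3 := 587336777) (W3 := 62277027) (N0 := 3) (En := eng) (mo := mog) (C1 := cd1q1) (C2 := cd7q2) (C3 := pd1)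
    rfl k0_mm_112

noncomputable def f_mm_113 : ℕ → ℕ → ℕ → ℕ → Bool := onCell 536870912 536870912 0 1230186008 587336777 62277027
    (rowB 3 eng mog cd1q1 cd7q3 pd1 0 false false false .nn 1 1 3 (qsf 536870912 536870912 0 1230186008 1) ndB1q1 ndB7q3 pcB1 Cut.none Ext.none)

def k0_mm_113 : ∃ t, chk3 f_mm_113 t 1 1 1 = true :=
  ⟨(b (l 5) (b (l 5) (a (l 5) (l 3)))), by decide +kernel⟩

theorem c_mm_113 : CertB 536870912 536870912 0 1230186008 587336777 62277027 3 eng mog cd1q1 cd7q3 pd1 false false false .nn 1 1 3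
    ndB1q1 ndB7q3 pcB1 Cut.none Ext.none :=
  certB0 (fam := false) (s1 := false) (s2 := false) (a := 1) (b := 1) (c := 3) (cn := .nn) (n1 := ndB1q1) (n2 := ndB7q3) (pc := pcB1) (cut := Cut.none) (xt := Ext.none) (P1 := 536870912) (W1 := 536870912) (P2 := 0) (W2 := 1230186008) (P3 := 587336777) (W3 := 62277027) (N0 := 3) (En := eng) (mo := mog) (C1 := cd1q1) (C2 := cd7q3) (C3 := pd1)
    rfl k0_mm_113

noncomputable def f_mm_123 : ℕ → ℕ → ℕ → ℕ → Bool := onCell 1073741824 536870912 0 1230186008 587336777 62277027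
    (rowB 3 eng mog cd1q1 cd7q3 pd2 2 false false false .npn 1 2 3 (qsf 536870912 536870912 0 1230186008 2) ndB1q1 ndB7q3 pcB2 Cut.none Ext.none)

def k0_mm_123 : ∃ t, chk3 f_mm_123 t 1 1 1 = true :=
  ⟨(b (l 5) (l 5)), by decide +kernel⟩

theorem c_mm_123 : CertB 536870912 536870912 0 1230186008 587336777 62277027 3 eng mog cd1q1 cd7q3 pd2 false false false .npn 1 2 3
    ndB1q1 ndB7q3 pcB2 Cut.none Ext.none :=
  certB2 (fam := false) (s1 := false) (s2 := false) (a := 1) (b := 2) (c := 3) (cn := .npn) (n1 := ndB1q1) (n2 := ndB7q3) (pc := pcB2) (cut := Cut.none) (xt := Ext.none) (P1 := 536870912) (W1 := 536870912) (P2 := 0) (W2 := 1230186008) (P3 := 587336777) (W3 := 62277027) (N0 := 3) (En := eng) (mo := mog) (C1 := cd1q1) (C2 := cd7q3) (C3 := pd2)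
    rfl (fun _ => rfl) k0_mm_123

noncomputable def f_mm_133 : ℕ → ℕ → ℕ → ℕ → Bool := onCell 536870912 536870912 0 1230186008 587336777 62277027
    (rowB 3 eng mog cd1q1 cd7q3 pd3 0 false false false .dn 1 3 3 (qsf 536870912 536870912 0 1230186008 3) ndB1q1 ndB7q3 pcB3 Cut.none Ext.none)

def k0_mm_133 : ∃ t, chk3 f_mm_133 t 1 1 1 = true :=
  ⟨(b (l 5) (l 1)), by decide +kernel⟩

theorem c_mm_133 : CertB 536870912 536870912 0 1230186008 587336777 62277027 3 eng mog cd1q1 cd7q3 pd3 false false false .dn 1 3 3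
    ndB1q1 ndB7q3 pcB3 Cut.none Ext.none :=
  certB0 (fam := false) (s1 := false) (s2 := false) (a := 1) (b := 3) (c := 3) (cn := .dn) (n1 := ndB1q1) (n2 := ndB7q3) (pc := pcB3) (cut := Cut.none) (xt := Ext.none) (P1 := 536870912) (W1 := 536870912) (P2 := 0) (W2 := 1230186008) (P3 := 587336777) (W3 := 62277027) (N0 := 3) (En := eng) (mo := mog) (C1 := cd1q1) (C2 := cd7q3) (C3 := pd3)
    rfl k0_mm_133

end Pool.Agent.Strip051.G.I5470_6050.Tab.C.BB17

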