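import Pool.Agent.Strip051.G.I5470_6050.Tab
import Pool.Agent.Strip051.PB.ExtD2

/-! # Certificates B32 (generated) -/

set_option linter.all false
set_option maxRecDepth 100000

namespace Pool.Agent.Strip051.G.I5470_6050.Tab.C.BB17

open Pool.Agent.Strip051.PB Pool.Agent.Strip051.PB.T
open Pool.Agent.Strip051.G.I5470_6050.Tab

noncomputable def cut_mm_202_a : Cut := Cut.of [[⟨0, 1, 0, 67108864⟩, ⟨1, 0, 0, 67108864⟩, ⟨2, 1, 0, 67108864⟩]]

noncomputable def f_mm_202_a : ℕ → ℕ → ℕ → ℕ → Bool := onCell 0 536870912 0 536870912 587336777 62277027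
    (rowB 3 eng mog cd1q2a cd7q2 pd0 1 false false false .pp 2 0 2 (qsf 0 536870912 1073741824 536870912 0) ndB1q2a ndB7q2 pcB0 cut_mm_202_a Ext.none)

def k0_mm_202_a : ∃ t, chk3 f_mm_202_a t 2 2 1 = true :=
  ⟨(b (b (a (b (l 16505640) (a (l 16536432) (l 16539416))) (a (b (l 16515688) (l 16546736)) (b (l 16532624) (l 16563960)))) (a (b (l 16695304) (l 16597040)) (a (l 16588008) (b (l 16591552) (a (b (l 16603744) (l 16613144)) (b (a (l 16611704) (l 16617624)) (l 16627120))))))) (b (a (b (l 16618800) (a (l 16639272) (b (l 16619384) (l 16635288)))) (a (b (b (a (l 16612696) (l 16615200)) (a (l 16619600) (l 16626584))) (a (l 16636184) (l 16640800))) (b (b (a (l 16625464) (l 16637328)) (l 16721536)) (a (l 16647608) (b (l 16743520) (a (l 16668232) (l 16676848))))))) (a (a (b (b (l 16650448) (l 16654640)) (b (l 16663640) (l 16672280))) (b (a (l 16649320) (l 16648792)) (l 16658808))) (a (b (a (l 16647608) (l 16658632)) (a (l 16671256) (b (l 16676024) (l 16684952))))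 (b (a (b (l 16732904) (l 16677904)) (b (l 16683936) (l 16696944))) (a (b (l 16689664) (l 16701000)) (b (l 16707320) (a (l 16713400) (b (l 16720728) (l 16725976)))))))))), by decide +kernel⟩

def k1_mm_202_a : ∃ t, chk3 f_mm_202_a t 4 6 1 = true :=
  ⟨(b (b (a (l 16682288) (b (l 16673248) (l 16686744))) (a (l 16690984) (a (l 16701160) (b (l 16695280) (l 16704320))))) (a (b (a (l 16708208) (l 16717544)) (l 209480208487)) (a (b (l 16711864) (l 16730864)) (b (l 16719512) (b (l 16730016) (l 2)))))), by decide +kernel⟩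

def k2_mm_202_a : ∃ t, chk3 f_mm_202_a t 5 6 1 = true :=
  ⟨(b (a (a (b (b (l 16685048) (l 16693536)) (b (l 16704544) (l 16712776))) (b (b (l 16696224) (l 16705856)) (b (l 16715328) (a (l 16721200) (l 16727520))))) (b (a (b (l 16710504) (a (l 16716480) (l 16724568))) (a (b (l 16723672) (b (l 16753520) (l 16737496))) (b (b (l 16753176) (l 16737416)) (b (l 16742776) (a (l 16745384) (l 184851333895)))))) (a (b (a (l 16725824) (l 16767512)) (a (l 16768360) (b (l 16743024) (a (l 16745656) (l 175187652775))))) (b (a (b (l 16742744) (a (l 16745376) (l 177335138759))) (b (a (l 177872010279) (a (b (l 196125617591) (l 237464675447)) (l 244444001879))) (a (b (l 235317198423) (l 255718290167)) (l 3)))) (a (b (a (l 178408879511) (b (a (l 16758552) (l 242833383703)) (l 251423322359))) (a (b (l 229411607079) (l 245517741991)) (l 3))) (l 3)))))) (a (b (a (b (l 16721624) (a (l 16727528) (l 16731872))) (b (a (l 16729480) (l 16738168)) (a (l 16739784) (b (l 16744704) (l 16770536)))))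 (b (a (a (l 16735008) (l 16741912)) (a (b (l 16746152) (l 16771816)) (b (a (l 16752168) (b (l 188072567895) (l 240685908727))) (a (b (l 188609441223) (l 241222781911)) (l 243370275239))))) (b (a (l 16766864) (a (a (l 16753800) (b (l 210621150727) (l 2))) (a (l 247665244503) (l 3)))) (l 2)))) (a (b (b (a (b (l 16743640) (a (l 16746328) (l 16761440))) (b (a (l 16757320) (b (l 227800994151) (l 242296516343))) (a (b (l 225653520951) (l 240685903559)) (l 3)))) (a (b (a (l 16772248) (a (b (l 16753480) (l 245517738535)) (l 246054612727))) (a (b (l 227264124919) (l 239075293607)) (l 240149045511))) (l 3))) (b (a (b (a (l 240685918535) (l 3)) (l 3)) (l 3)) (l 3))) (l 3)))), by decide +kernel⟩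

def k3_mm_202_a : ∃ t, chk3 f_mm_202_a t 2 7 1 = true :=
  ⟨(a (l 2) (a (l 2) (l 3))), by decide +kernel⟩

def k4_mm_202_a : ∃ t, chk3 f_mm_202_a t 6 4 1 = true :=
  ⟨(b (b (a (b (l 16553824) (l 16570760)) (a (l 16677976) (b (l 16611488) (l 16629400)))) (a (l 16657152) (b (a (l 16619008) (a (l 16638920) (l 16653456))) (a (a (l 16627928) (b (l 16636816) (l 16643920))) (b (a (l 16650440) (l 16665368)) (a (l 16658248) (l 16673256))))))) (a (b (b (a (l 16605952) (b (l 16621720) (l 16627896))) (a (b (l 16615480) (l 16621008)) (b (l 16635200) (l 16642192)))) (a (b (l 16631616) (l 16643072)) (b (l 16649824) (a (l 16655584) (b (l 16666816) (l 16673112)))))) (b (a (b (b (a (l 16638232) (l 16651648)) (l 16652616)) (a (l 16656440) (l 16658024))) (b (a (l 16669680) (b (l 16743464) (a (l 16684600) (l 16692704)))) (a (b (l 16680072) (l 16688200)) (b (l 16696288) (l 16703280))))) (a (b (a (b (l 16666384) (l 16673304)) (b (l 16680448) (l 16686888))) (a (b (l 16679480) (l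 16685408)) (l 16696496))) (b (a (b (l 16694848) (l 16701688)) (b (l 16731608) (l 16717552))) (a (a (l 16729496) (l 16716184)) (b (l 16724896) (a (l 16728224) (b (l 16734808) (l 16738744)))))))))), by decide +kernel⟩

def k5_mm_202_a : ∃ t, chk3 f_mm_202_a t 14 8 1 = true :=
  ⟨(b (a (b (b (l 16637400) (l 16646968)) (l 16681688)) (b (a (l 16689056) (b (l 6) (l 16691832))) (b (a (l 16682504) (a (l 16696616) (l 16717544))) (a (a (l 16687080) (l 16791016)) (b (a (l 16703696) (l 16713400)) (a (l 16707960) (l 16717752))))))) (a (b (b (a (l 16665208) (b (l 16680456) (l 16684584))) (a (b (l 16671384) (l 16675496)) (b (l 16688744) (l 16692880)))) (b (a (l 16681568) (l 16698952)) (a (l 16689296) (a (l 16702528) (l 16711608))))) (b (a (b (b (l 16698192) (l 16702456)) (a (l 16704144) (l 16713400))) (b (a (l 16714608) (b (l 16722232) (a (l 16723760) (l 16728672)))) (a (b (l 16720656) (l 16724840)) (b (l 16730424) (l 16734624))))) (a (b (a (b (l 16710344) (l 16714432))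 (b (l 16719512) (l 16723624))) (a (l 16720504) (b (l 16727704) (l 16731752)))) (b (a (b (l 16729008) (l 16733096)) (b (l 16759704) (l 16742904))) (b (l 16742112) (a (l 16741272) (a (l 16748608) (l 16753608))))))))), by decide +kernel⟩

def k6_mm_202_a : ∃ t, chk3 f_mm_202_a t 15 16 1 = true :=
  ⟨(a (b (l 6) (a (b (l 6) (b (a (l 16723512) (l 6)) (a (l 16728040) (b (l 16779008) (l 16739176))))) (l 6))) (l 6)), by decide +kernel⟩

def k7_mm_202_a : ∃ t, chk3 f_mm_202_a t 30 34 1 = true :=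
  ⟨(a (a (b (b (a (l 16729488) (l 16734576)) (l 16757304)) (b (a (l 16737952) (l 16743016)) (a (l 16742112) (l 16747248)))) (b (b (a (l 16739816) (l 16726656)) (l 16767544)) (b (l 16750864) (a (l 16752456) (b (l 16777632) (l 16758752)))))) (b (a (b (a (b (l 16749088) (l 16751256)) (l 6)) (a (l 16754456) (a (l 16768896) (l 16771576)))) (b (l 6) (a (b (l 6) (l 16771328)) (l 6)))) (a (a (a (b (l 16757408) (l 16761560)) (b (l 16760032) (l 16764168))) (b (a (l 16773096) (l 16770488)) (a (l 16772008) (b (l 16768344) (a (l 16772368) (b (l 16773168) (l 128479913063))))))) (a (b (a (c (l 16773184) (l 16773064)) (b (l 16772104) (b (l 139754200167) (a (l 115595010855) (l 233169738871))))) (a (a (b (l 100025753559) (l 222969190839)) (b (b (l 115595010295) (l 227801028631)) (l 3))) (b (c (l 226190418791) (l 230485385863)) (l 3)))) (b (a (b (b (l 6) (b (l 214379256327) (l 224042933735))) (l 3)) (l 3)) (l 3)))))), by decide +kernel⟩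

def k8_mm_202_a : ∃ t, chk3 f_mm_202_a t 30 35 1 = true :=
  ⟨(a (b (a (b (l 16748864) (a (l 16750456) (l 16755600))) (a (b (l 16756656) (l 16771224)) (b (c (l 16772440) (l 16772192)) (c (l 117742490919) (l 112910652311))))) (a (a (b (l 16754584) (l 16758632)) (b (l 16759664) (l 16768976))) (b (a (l 16770080) (a (b (l 16770328) (a (l 136532972327) (l 217063606903))) (b (a (l 139217327767) (l 220821704327)) (l 3)))) (a (a (b (l 16766576) (l 146196648887)) (b (c (l 136532973991) (l 146196649463)) (l 244444024999))) (a (b (c (l 232632866135) (l 235854091447)) (l 3)) (l 3)))))) (a (b (b (a (a (l 16770936) (b (l 16767248) (l 124721813319))) (a (a (b (l 16769200) (l 217600479527)) (b (l 141364812007) (l 3))) (a (b (l 218674222439) (l 3)) (l 3)))) (a (a (b (l 16771712) (a (l 148344133831) (l 224579801767))) (b (a (l 159618423399) (l 228874770119)) (l 3))) (l 3))) (l 3)) (l 3))), by decide +kernel⟩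

def k9_mm_202_a : ∃ t, chk3 f_mm_202_a t 31 17 1 = true :=
  ⟨(b (b (l 6) (l 3)) (l 3)), by decide +kernel⟩

def k10_mm_202_a : ∃ t, chk3 f_mm_202_a t 14 18 1 = true :=
  ⟨(a (b (a (b (a (l 16693136) (l 16701768)) (a (l 16700888) (l 16709392))) (b (a (l 16710552) (l 16740496)) (a (l 16718320) (l 16727400)))) (a (b (l 16754632) (l 16720224)) (b (l 16730456) (a (l 16733312) (l 16763272))))) (b (a (b (a (b (l 16726536) (l 16730488)) (l 16737760)) (a (l 16736360) (b (l 16743688) (l 16747576)))) (b (a (a (l 16744888) (b (l 16747728) (l 16751736))) (b (a (l 16752656) (l 16757632)) (b (l 16768640) (l 16770640)))) (a (b (l 16763760) (l 16767720)) (a (b (l 16760648) (b (l 16763632) (l 104320717047))) (b (b (l 16769880) (a (l 16765376) (l 97878267687))) (a (b (l 99488879223) (l 184314479287)) (l 222432315751))))))) (a (a (b (l 16764904) (b (l 16749752) (l 16753608))) (b (b (l 16772464) (l 16765880)) (a (l 16766728) (b (l 16766992) (a (l 116668742647) (b (l 108078810471)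 (l 183777605559))))))) (a (b (b (a (l 16758728) (c (l 109152552759) (l 106468198359))) (a (l 16767928) (a (b (l 16770624) (l 103783846679)) (b (l 180019508967) (l 3))))) (a (b (a (l 106468199959) (b (l 104320716631) (l 3))) (a (l 210621154103) (l 3))) (l 3))) (b (a (b (a (b (l 103783844167) (l 178945768135)) (b (l 177872027319) (l 3))) (l 3)) (l 3)) (l 3)))))), by decide +kernel⟩

def k11_mm_202_a : ∃ t, chk3 f_mm_202_a t 14 19 1 = true :=
  ⟨(a (b (a (b (l 16727192) (a (l 16730120) (l 16738880))) (a (b (l 16761336) (l 16769264)) (b (l 16765720) (a (l 16766056) (b (l 16758304) (l 137606706471)))))) (a (b (a (l 16737712) (l 16767856)) (a (l 16766640) (c (l 16765368) (l 16764840)))) (b (a (a (l 16753864) (b (l 16756680) (l 110763161847))) (a (b (c (l 139754192919) (l 140827934007)) (a (l 189683184039) (l 243370274375))) (b (a (l 213842370919) (l 232632857671)) (l 3)))) (a (a (b (l 16770144) (a (l 125258673639) (l 218137337527))) (b (a (l 168208346967) (l 234243466983))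 (l 3))) (l 3))))) (b (a (b (a (a (l 16767568) (b (l 16759936) (b (l 16768160) (l 115595005127)))) (a (b (a (l 16768824) (b (l 16767648) (l 185388216455))) (b (l 190756927159) (l 3))) (b (a (l 190756928503) (l 3)) (l 3)))) (a (a (b (l 116668744263) (a (l 212231759767) (l 3))) (b (a (l 191830666775) (l 3)) (l 3))) (l 3))) (l 3)) (l 3))), by decide +kernel⟩

def k12_mm_202_a : ∃ t, chk3 f_mm_202_a t 15 9 1 = true :=
  ⟨(b (a (a (b (a (b (a (b (l 16762672) (a (l 16770656) (b (l 16772192) (c (l 199883734999) (l 203641831143))))) (b (a (l 120426843191) (b (l 145659776855) (l 225116669927))) (a (b (l 217063605159) (l 3)) (l 3)))) (a (b (a (b (l 109152557735) (l 3)) (l 3)) (l 3)) (l 3))) (b (a (b (a (b (l 243370282055) (l 3)) (l 3)) (l 3)) (l 3)) (l 3))) (l 3)) (l 3)) (l 3)) (l 3)), by decide +kernel⟩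

def k13_mm_202_a : ∃ t, chk3 f_mm_202_a t 6 10 1 = true :=
  ⟨(a (b (a (b (b (l 16647928) (l 16759584)) (l 16815128)) (b (a (l 16670544) (l 16702432)) (a (l 16682904) (l 16696744)))) (a (b (a (l 16674296) (l 16684816)) (a (l 16686968) (l 16698848))) (b (a (l 16698000) (l 16711200)) (a (l 16711040) (b (l 16721296) (l 16748056)))))) (b (a (b (a (l 16737408) (l 16731680)) (a (l 16710888) (b (l 16722600) (a (l 16726192) (l 16733952))))) (a (b (b (l 16723320) (a (l 16727080) (l 16735288))) (b (a (l 16734688) (l 16763888)) (a (l 16742096) (l 16749648)))) (b (a (b (l 16756888) (l 16764688)) (b (a (l 16763456) (l 16746680)) (l 16762368))) (a (b (l 16761200) (a (l 137069824775) (b (l 16763096) (a (l 155860314999) (l 226190397015))))) (b (a (b (l 16755080) (l 123648059015)) (b (l 120963706263) (a (l 122037450599) (l 227264142087)))) (a (b (a (l 154786574663) (l 226190398615)) (l 3)) (l 3))))))) (a (a (b (b (l 16722040) (l 16749600)) (b (l 16777408) (l 16762560)))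 (b (b (a (l 16733224) (l 16741112)) (a (l 16740136) (l 16747352))) (b (a (l 16767128) (b (l 16752088) (l 149417858647))) (a (l 150491599735) (a (b (l 148880984999) (l 239612165207)) (b (l 255718294039) (l 3))))))) (b (a (a (b (l 16748568) (a (l 16753064) (b (l 16755336) (a (l 16761536) (l 247665227703))))) (b (a (l 16764808) (b (l 16756552) (a (l 192904401191) (l 249812714151)))) (a (b (a (l 16762528) (l 248202099991)) (l 258939524071)) (l 3)))) (b (a (a (b (a (l 162839634919) (l 244444006503)) (l 3)) (l 3)) (l 3)) (l 3))) (a (a (b (a (b (l 191830661111) (l 276119390231)) (b (l 266455715383) (l 3))) (l 3)) (l 3)) (l 3)))))), by decide +kernel⟩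

def k14_mm_202_a : ∃ t, chk3 f_mm_202_a t 6 11 1 = true :=
  ⟨(a (b (a (b (l 16704944) (a (l 16711040) (a (l 16719416) (l 16745992)))) (b (a (b (l 16719928) (l 16725040)) (b (l 16733400) (l 16760240))) (a (b (l 16732008) (l 16738504)) (b (a (l 16742128) (l 16759760)) (a (l 16759128) (a (l 177872015415) (b (l 179482626135) (l 264845097687)))))))) (a (a (b (a (l 16720144) (l 16746400)) (b (l 16753032) (l 16737584))) (b (b (l 16752984) (l 16737984)) (b (l 16764712) (a (l 16746360) (a (l 16756240) (b (l 16763224) (l 252497058695))))))) (b (a (b (l 16760376) (a (l 16747368) (a (l 183777590471) (b (l 198273102407) (l 270750673959))))) (b (a (b (l 189146300727) (a (l 188609431815) (l 266992579751))) (b (l 273435036103) (l 3))) (a (a (b (l 269676933495) (l 3)) (l 3)) (l 3)))) (a (a (b (a (l 178408879863) (b (l 16758064) (l 258402640503))) (a (b (l 256255155927) (l 3)) (l 3))) (b (a (b (l 267529447207) (l 3)) (l 3)) (l 3))) (l 3))))) (b (a (b (a (b (a (l 16743768)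 (l 155860305223)) (a (b (l 16748424) (l 16762168)) (b (a (l 16764584) (l 201494326471)) (a (a (l 144586015735) (l 232095969447)) (l 3))))) (b (a (a (b (l 16760520) (l 229411615159)) (b (l 229411616471) (l 3))) (l 3)) (l 3))) (a (a (b (a (l 158544665703) (b (l 209547387831) (l 3))) (a (l 268603199575) (l 3))) (l 3)) (l 3))) (l 3)) (l 3))), by decide +kernel⟩

def k15_mm_202_a : ∃ t, chk3 f_mm_202_a t 7 5 1 = true :=
  ⟨(b (a (b (a (b (a (b (a (b (l 16772296) (l 16765504)) (a (b (l 16757968) (l 117205613415)) (b (a (l 16766624) (l 148344127479)) (l 221895437607)))) (a (a (b (l 16756456) (l 117742482663)) (b (l 117742481319) (a (l 182703854855) (l 3)))) (a (b (a (l 222969175031) (l 3)) (l 3)) (l 3)))) (b (a (a (b (l 249812726951) (l 3)) (l 3)) (l 3)) (l 3))) (a (a (b (a (b (a (l 182703853159) (l 3)) (l 3)) (l 3)) (l 3)) (l 3)) (l 3))) (l 3)) (l 3)) (l 3)) (l 3)), by decide +kernel⟩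

def k16_mm_202_a : ∃ t, chk3 f_mm_202_a t 3 3 1 = true :=
  ⟨(b (a (b (a (b (a (b (a (a (l 16763920) (b (l 16745992) (a (l 16750080) (b (l 16751656) (l 233706574087))))) (b (a (a (l 16760968) (b (l 16752128) (l 242833380823))) (a (b (l 243370252439) (l 3)) (l 3))) (a (a (b (l 234780316503) (l 3)) (l 3)) (l 3)))) (a (b (a (l 184314464583) (a (b (l 185388202119) (l 268066319559)) (l 271287549959))) (a (a (b (l 186998813447) (l 238538418199)) (l 266992581335)) (l 3))) (l 3))) (l 3)) (l 3)) (l 3)) (l 3)) (l 3)) (l 3)), by decide +kernel⟩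

theorem s17_mm_202_a : ∃ t, chk3 f_mm_202_a t 6 5 1 = true := ex3_b k13_mm_202_a k14_mm_202_a

theorem s18_mm_202_a : ∃ t, chk3 f_mm_202_a t 3 5 1 = true := ex3_a s17_mm_202_a k15_mm_202_a

theorem s19_mm_202_a : ∃ t, chk3 f_mm_202_a t 14 9 1 = true := ex3_b k10_mm_202_a k11_mm_202_a

theorem s20_mm_202_a : ∃ t, chk3 f_mm_202_a t 7 9 1 = true := ex3_a s19_mm_202_a k12_mm_202_a

theorem s21_mm_202_a : ∃ t, chk3 f_mm_202_a t 30 17 1 = true := ex3_b k7_mm_202_a k8_mm_202_a

theorem s22_mm_202_a : ∃ t, chk3 f_mm_202_a t 15 17 1 = true := ex3_a s21_mm_202_a k9_mm_202_a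

theorem s23_mm_202_a : ∃ t, chk3 f_mm_202_a t 15 8 1 = true := ex3_b k6_mm_202_a s22_mm_202_a

theorem s24_mm_202_a : ∃ t, chk3 f_mm_202_a t 7 8 1 = true := ex3_a k5_mm_202_a s23_mm_202_a

theorem s25_mm_202_a : ∃ t, chk3 f_mm_202_a t 7 4 1 = true := ex3_b s24_mm_202_a s20_mm_202_a

theorem s26_mm_202_a : ∃ t, chk3 f_mm_202_a t 3 4 1 = true := ex3_a k4_mm_202_a s25_mm_202_a

theorem s27_mm_202_a : ∃ t, chk3 f_mm_202_a t 3 2 1 = true := ex3_b s26_mm_202_a s18_mm_202_a

theorem s28_mm_202_a : ∃ t, chk3 f_mm_202_a t 3 1 1 = true := ex3_b s27_mm_202_a k16_mm_202_a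

theorem s29_mm_202_a : ∃ t, chk3 f_mm_202_a t 2 6 1 = true := ex3_a k1_mm_202_a k2_mm_202_a

theorem s30_mm_202_a : ∃ t, chk3 f_mm_202_a t 2 3 1 = true := ex3_b s29_mm_202_a k3_mm_202_a

theorem s31_mm_202_a : ∃ t, chk3 f_mm_202_a t 2 1 1 = true := ex3_b k0_mm_202_a s30_mm_202_a

theorem s32_mm_202_a : ∃ t, chk3 f_mm_202_a t 1 1 1 = true := ex3_a s31_mm_202_a s28_mm_202_a

theorem c_mm_202_a : CertB 0 536870912 1073741824 536870912 587336777 62277027 3 eng mog cd1q2a cd7q2 pd0 false false false .pp 2 0 2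
    ndB1q2a ndB7q2 pcB0 cut_mm_202_a Ext.none :=
  certB1 (fam := false) (s1 := false) (s2 := false) (a := 2) (b := 0) (c := 2) (cn := .pp) (n1 := ndB1q2a) (n2 := ndB7q2) (pc := pcB0) (cut := cut_mm_202_a) (xt := Ext.none) (P1 := 0) (W1 := 536870912) (P2 := 1073741824) (W2 := 536870912) (P3 := 587336777) (W3 := 62277027) (N0 := 3) (En := eng) (mo := mog) (C1 := cd1q2a) (C2 := cd7q2) (C3 := pd0)
    rfl (fun _ => rfl) s32_mm_202_a

noncomputable def cut_mm_202_b : Cut := Cut.of [[⟨0, 1, 0, 67108864⟩, ⟨1, 0, 0, 67108864⟩, ⟨2, 1, 0, 67108864⟩]]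

noncomputable def f_mm_202_b : ℕ → ℕ → ℕ → ℕ → Bool := onCell 0 536870912 1073741824 536870912 587336777 62277027
    (rowB 3 eng mog cd1q2b cd7q2 pd0 2 false false false .pp 2 0 2 (qsf 1239849684 370763052 1073741824 536870912 0) ndB1q2b ndB7q2 pcB0 cut_mm_202_b Ext.none)

def k0_mm_202_b : ∃ t, chk3 f_mm_202_b t 1 1 1 = true :=
  ⟨(a (b (a (b (l 1) (b (a (a (l 16504696) (l 16545856)) (l 1)) (a (l 215318743847) (a (l 16571992) (l 359737157271))))) (l 1)) (a (b (a (b (a (l 16417520) (l 16470440)) (l 16586840)) (b (a (l 16527600) (l 16582312)) (l 16465608))) (b (a (l 16150776) (l 16290000)) (a (l 16128048) (l 16241912)))) (b (b (a (l 296385894343) (l 1)) (a (l 16592992) (a (l 16675064) (l 374232128183)))) (b (a (a (l 16411208) (l 16490080)) (a (l 16563600) (l 16620080))) (a (a (l 16330544) (l 16388480)) (b (l 16475504) (l 16463704))))))) (a (b (l 1) (b (l 1) (a (b (b (l 373695680455) (l 353831178359)) (b (l 16659808) (l 16578736))) (b (l 1) (b (l 402686688903)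 (l 310344744247)))))) (l 1))), by decide +kernel⟩

theorem c_mm_202_b : CertB 1239849684 370763052 1073741824 536870912 587336777 62277027 3 eng mog cd1q2b cd7q2 pd0 false false false .pp 2 0 2
    ndB1q2b ndB7q2 pcB0 cut_mm_202_b Ext.none :=
  certB2 (fam := false) (s1 := false) (s2 := false) (a := 2) (b := 0) (c := 2) (cn := .pp) (n1 := ndB1q2b) (n2 := ndB7q2) (pc := pcB0) (cut := cut_mm_202_b) (xt := Ext.none) (P1 := 1239849684) (W1 := 370763052) (P2 := 1073741824) (W2 := 536870912) (P3 := 587336777) (W3 := 62277027) (N0 := 3) (En := eng) (mo := mog) (C1 := cd1q2b) (C2 := cd7q2) (C3 := pd0)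
    rfl (fun _ => rfl) k0_mm_202_b

noncomputable def f_mm_203_a : ℕ → ℕ → ℕ → ℕ → Bool := onCell 0 536870912 0 1230186008 587336777 62277027
    (rowB 3 eng mog cd1q2a cd7q3 pd0 0 false false false .up 2 0 3 (qsf 0 536870912 0 1230186008 0) ndB1q2a ndB7q3 pcB0 Cut.none Ext.none)

def k0_mm_203_a : ∃ t, chk3 f_mm_203_a t 1 2 1 = true :=
  ⟨(l 2), by decide +kernel⟩

def k1_mm_203_a : ∃ t, chk3 f_mm_203_a t 2 6 1 = true :=
  ⟨(l 2), by decide +kernel⟩

def k2_mm_203_a : ∃ t, chk3 f_mm_203_a t 2 14 1 = true :=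
  ⟨(a (b (l 2) (a (b (l 2) (a (b (b (l 357656696535) (l 16775384)) (a (l 16776288) (l 16774496))) (b (a (a (b (b (l 2) (a (l 437650458471) (a (l 312089763303) (l 328195897655)))) (a (l 16773232) (b (a (l 16773464) (l 288467442407)) (l 16773112)))) (b (l 3) (a (b (l 315310990103) (a (l 16773328) (l 290078059751))) (b (l 3) (l 323900930183))))) (l 3)) (a (b (a (l 16773048) (a (l 16772752) (b (a (l 234780360935) (l 311016015399)) (l 16772712)))) (l 16772760)) (a (b (a (b (l 314774124871) (a (l 230485394487) (l 311552897271))) (l 338396445415)) (b (a (l 16772520) (l 285783100615)) (l 188072591911))) (b (l 3) (a (b (l 3) (l 308331660871)) (l 3)))))))) (l 3))) (l 3)), by decide +kernel⟩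

def k3_mm_203_a : ∃ t, chk3 f_mm_203_a t 2 30 1 = true :=
  ⟨(a (a (b (a (b (a (l 16774984) (l 16773928)) (a (l 16772136) (l 16770904))) (b (a (l 16772560) (b (a (l 16771672) (a (b (l 233169748439) (l 16771496)) (b (l 308331661143) (l 230485394391)))) (l 16770952))) (a (l 16770880) (l 16770072)))) (a (l 16764000) (b (a (l 16766144) (l 16767160)) (a (l 16760664) (l 16760672))))) (b (a (b (a (b (a (b (l 3) (l 305110442759)) (l 3)) (a (a (b (l 241759674119) (l 16770824)) (b (l 316384735767) (l 239075320007))) (b (l 3) (l 313163511863)))) (l 3)) (a (b (a (l 16769944) (a (b (l 285783089703) (l 16770152)) (b (l 312089768775) (l 273971950887)))) (a (l 16768984) (l 16779512))) (a (b (l 3) (b (l 302426080311) (a (l 16770624) (l 271287575687)))) (l 3)))) (l 3)) (a (b (a (l 16767088) (a (b (l 179482656215) (l 16766400)) (b (a (b (l 302426088695) (l 16776160)) (l 290614925655)) (b (l 220821714631) (l 16766368))))) (a (l 16762760) (l 16774384))) (b (a (a (b (l 3) (b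 (l 287393705495) (l 270750697159))) (l 3)) (l 3)) (a (a (b (b (l 236927849543) (l 16765264)) (l 16763848)) (b (b (l 281488125607) (l 287393690375)) (b (l 238001591719) (l 16765672)))) (b (l 3) (a (b (l 3) (l 283098723239)) (l 3)))))))) (l 3)), by decide +kernel⟩

def k4_mm_203_a : ∃ t, chk3 f_mm_203_a t 2 31 1 = true :=
  ⟨(a (a (b (a (l 16748072) (l 16748880)) (a (l 16694160) (b (l 16735072) (l 16723752)))) (b (a (b (a (l 16754464) (l 16757752)) (a (l 16746544) (l 16748200))) (b (a (b (l 16761880) (l 16758424)) (b (a (b (l 235854108343) (l 16766024)) (b (l 3) (l 278266895559))) (a (l 16760976) (b (l 256255171623) (l 16771352))))) (a (l 16752760) (b (l 16758648) (l 16754656))))) (a (b (l 16738000) (l 16728936)) (b (a (l 16741712) (l 16747624)) (a (l 16732896) (l 16736400)))))) (a (b (a (b (a (b (l 3) (a (l 269676963463) (l 3))) (l 3)) (a (b (a (b (l 249812751639) (l 205789322967)) (l 262160770183)) (a (l 16759320) (b (l 256255201479) (l 217063612327)))) (b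 (l 3) (a (a (l 265918862743) (l 3)) (l 3))))) (l 3)) (a (b (a (b (l 16771360) (l 16750728)) (b (a (b (l 265918844743) (l 232632850647)) (a (l 257865797639) (l 3))) (a (l 16767688) (b (l 263771370007) (l 233169719607))))) (a (l 16743416) (b (a (l 16751040) (b (l 16758440) (l 16753792))) (l 16747768)))) (b (l 3) (a (b (a (b (l 256792047623) (l 232095976967)) (l 3)) (a (b (l 16768400) (l 16752952)) (b (l 254644563095) (l 232095978391)))) (l 3))))) (l 3))), by decide +kernel⟩

def k5_mm_203_a : ∃ t, chk3 f_mm_203_a t 3 3 1 = true :=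
  ⟨(l 3), by decide +kernel⟩

theorem s6_mm_203_a : ∃ t, chk3 f_mm_203_a t 2 15 1 = true := ex3_b k3_mm_203_a k4_mm_203_a

theorem s7_mm_203_a : ∃ t, chk3 f_mm_203_a t 2 7 1 = true := ex3_b k2_mm_203_a s6_mm_203_a

theorem s8_mm_203_a : ∃ t, chk3 f_mm_203_a t 2 3 1 = true := ex3_b k1_mm_203_a s7_mm_203_a

theorem s9_mm_203_a : ∃ t, chk3 f_mm_203_a t 1 3 1 = true := ex3_a s8_mm_203_a k5_mm_203_a

theorem s10_mm_203_a : ∃ t, chk3 f_mm_203_a t 1 1 1 = true := ex3_b k0_mm_203_a s9_mm_203_a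

theorem c_mm_203_a : CertB 0 536870912 0 1230186008 587336777 62277027 3 eng mog cd1q2a cd7q3 pd0 false false false .up 2 0 3
    ndB1q2a ndB7q3 pcB0 Cut.none Ext.none :=
  certB0 (fam := false) (s1 := false) (s2 := false) (a := 2) (b := 0) (c := 3) (cn := .up) (n1 := ndB1q2a) (n2 := ndB7q3) (pc := pcB0) (cut := Cut.none) (xt := Ext.none) (P1 := 0) (W1 := 536870912) (P2 := 0) (W2 := 1230186008) (P3 := 587336777) (W3 := 62277027) (N0 := 3) (En := eng) (mo := mog) (C1 := cd1q2a) (C2 := cd7q3) (C3 := pd0)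
    rfl s10_mm_203_a

noncomputable def f_mm_203_b : ℕ → ℕ → ℕ → ℕ → Bool := onCell 0 536870912 0 1230186008 587336777 62277027
    (rowB 3 eng mog cd1q2b cd7q3 pd0 2 false false false .up 2 0 3 (qsf 1239849684 370763052 0 1230186008 0) ndB1q2b ndB7q3 pcB0 Cut.none Ext.none)

def k0_mm_203_b : ∃ t, chk3 f_mm_203_b t 1 1 1 = true :=
  ⟨(b (l 3) (b (l 3) (b (a (l 3) (b (l 3) (a (a (l 175724360183) (a (l 16619968) (l 130627304823))) (a (a (l 130627365431) (b (l 134922333303) (b (l 16700032) (l 16696328)))) (b (a (b (l 3) (l 16725184)) (b (l 16778616) (l 16744080))) (a (b (l 16721376) (l 16725896)) (b (l 16754744) (l 16735968)))))))) (a (a (b (a (l 2) (a (l 16247440) (l 16288816))) (a (l 16131312) (b (l 16246632) (l 16241920)))) (b (a (b (l 16370864) (l 16356824)) (l 16522536)) (a (a (l 16325312) (b (l 16379048) (l 16380920))) (b (l 16457136) (l 16461112))))) (a (b (a (b (l 16550064) (l 16547712)) (b (a (l 16606352) (l 16639464)) (l 16621496))) (b (a (l 16549832)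 (l 16616016)) (a (l 16549816) (l 16680880)))) (a (b (b (b (a (l 16669048) (l 16690784)) (l 16674784)) (l 16706216)) (b (l 325914025303) (l 441341546551))) (b (b (a (l 16759144) (l 444562733751)) (l 464963737687)) (l 1)))))))), by decide +kernel⟩

theorem c_mm_203_b : CertB 1239849684 370763052 0 1230186008 587336777 62277027 3 eng mog cd1q2b cd7q3 pd0 false false false .up 2 0 3
    ndB1q2b ndB7q3 pcB0 Cut.none Ext.none :=
  certB2 (fam := false) (s1 := false) (s2 := false) (a := 2) (b := 0) (c := 3) (cn := .up) (n1 := ndB1q2b) (n2 := ndB7q3) (pc := pcB0) (cut := Cut.none) (xt := Ext.none) (P1 := 1239849684) (W1 := 370763052) (P2 := 0) (W2 := 1230186008) (P3 := 587336777) (W3 := 62277027) (N0 := 3) (En := eng) (mo := mog) (C1 := cd1q2b) (C2 := cd7q3) (C3 := pd0)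
    rfl (fun _ => rfl) k0_mm_203_b

noncomputable def f_mm_213_a : ℕ → ℕ → ℕ → ℕ → Bool := onCell 0 536870912 0 1230186008 587336777 62277027
    (rowB 3 eng mog cd1q2a cd7q3 pd1 0 false false false .pnn 2 1 3 (qsf 0 536870912 0 1230186008 1) ndB1q2a ndB7q3 pcB1 Cut.none Ext.none)

def k0_mm_213_a : ∃ t, chk3 f_mm_213_a t 2 2 1 = true :=
  ⟨(l 3), by decide +kernel⟩

def k1_mm_213_a : ∃ t, chk3 f_mm_213_a t 2 6 1 = true :=
  ⟨(l 3), by decide +kernel⟩

def k2_mm_213_a : ∃ t, chk3 f_mm_213_a t 2 7 1 = true :=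
  ⟨(b (a (a (b (b (l 3) (a (a (b (l 3) (a (b (l 3) (a (b (a (a (b (l 3) (l 320142832087)) (l 352891960743)) (l 3)) (a (a (l 16777392) (b (l 264845135255) (l 16777176))) (b (l 329806506263) (a (l 16776432) (l 317995354375))))) (b (l 3) (l 359871281943)))) (l 3))) (l 3)) (l 3))) (b (a (a (b (a (b (a (l 16777008) (b (a (b (a (l 255718327223) (l 323364059783)) (l 16776808)) (a (b (l 339470187767) (l 266455742199)) (l 332490865975))) (a (l 16778568) (l 240149070743)))) (l 16778280)) (b (a (b (l 3) (a (b (c (l 317458479831) (l 325511540535)) (l 255181458839)) (b (l 3) (l 323364059815)))) (l 3)) (a (b (a (l 16778088) (b (l 264308264727) (l 16777016))) (l 16779192)) (b (a (b (l 326048414471) (l 268603230535)) (l 333564607703)) (a (l 16777416) (b (l 273971942103) (l 16776256))))))) (b (l 16777864) (l 16776312))) (b (a (b (l 3) (a (b (l 3) (a (b (l 331953994631) (l 318532217671)) (l 3))) (l 3))) (l 3)) (a (b (a (b (a (l 16776576) (b (l 321753446023) (l 16775656)))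 (l 16778432)) (b (l 332490865719) (a (l 244980910999) (b (l 332490864599) (l 302962968503))))) (b (l 16779064) (l 16779120))) (b (b (l 3) (l 350744476199)) (a (b (a (b (l 313163509767) (l 16775824)) (b (l 328732768471) (l 319069090215))) (l 16777272)) (b (l 335175220231) (a (b (l 327659025111) (l 16775208)) (l 328732762855)))))))) (l 3)) (b (a (a (l 16772928) (b (a (l 16777552) (b (a (l 16779280) (a (l 16777496) (l 258402689559))) (l 16779736))) (l 1))) (a (b (a (a (b (a (b (l 332490863767) (l 305110451175)) (l 333027735623)) (b (l 260013301527) (l 16776592))) (b (l 3) (b (l 328195897575) (l 323900939303)))) (l 3)) (l 1)) (l 3))) (l 1)))) (l 3)) (l 3)) (b (a (l 1) (l 3)) (l 1))), by decide +kernel⟩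

def k3_mm_213_a : ∃ t, chk3 f_mm_213_a t 3 1 1 = true :=
  ⟨(b (b (l 5) (l 3)) (l 3)), by decide +kernel⟩

theorem s4_mm_213_a : ∃ t, chk3 f_mm_213_a t 2 3 1 = true := ex3_b k1_mm_213_a k2_mm_213_a

theorem s5_mm_213_a : ∃ t, chk3 f_mm_213_a t 2 1 1 = true := ex3_b k0_mm_213_a s4_mm_213_a

theorem s6_mm_213_a : ∃ t, chk3 f_mm_213_a t 1 1 1 = true := ex3_a s5_mm_213_a k3_mm_213_a

theorem c_mm_213_a : CertB 0 536870912 0 1230186008 587336777 62277027 3 eng mog cd1q2a cd7q3 pd1 false false false .pnn 2 1 3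
    ndB1q2a ndB7q3 pcB1 Cut.none Ext.none :=
  certB0 (fam := false) (s1 := false) (s2 := false) (a := 2) (b := 1) (c := 3) (cn := .pnn) (n1 := ndB1q2a) (n2 := ndB7q3) (pc := pcB1) (cut := Cut.none) (xt := Ext.none) (P1 := 0) (W1 := 536870912) (P2 := 0) (W2 := 1230186008) (P3 := 587336777) (W3 := 62277027) (N0 := 3) (En := eng) (mo := mog) (C1 := cd1q2a) (C2 := cd7q3) (C3 := pd1)
    rfl s6_mm_213_a

noncomputable def f_mm_213_b : ℕ → ℕ → ℕ → ℕ → Bool := onCell 1239849684 370763052 0 1230186008 587336777 62277027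
    (rowB 3 eng mog cd1q2b cd7q3 pd1 0 false false false .pnn 2 1 3 (qsf 1239849684 370763052 0 1230186008 1) ndB1q2b ndB7q3 pcB1 Cut.none Ext.none)

def k0_mm_213_b : ∃ t, chk3 f_mm_213_b t 1 1 1 = true :=
  ⟨(b (l 3) (b (l 3) (a (b (a (b (a (b (l 3) (b (l 3) (a (a (a (b (l 3) (b (b (l 3) (b (l 337859572855) (l 16774864))) (l 16778824))) (l 333027729687)) (l 3)) (l 3)))) (l 3)) (a (b (a (b (b (a (l 16771416) (l 16763600)) (l 16766632)) (l 16755472)) (b (l 295983655095) (l 1))) (a (b (l 16786056) (l 1)) (l 1))) (l 1))) (l 1)) (l 1)) (l 1)))), by decide +kernel⟩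

theorem c_mm_213_b : CertB 1239849684 370763052 0 1230186008 587336777 62277027 3 eng mog cd1q2b cd7q3 pd1 false false false .pnn 2 1 3
    ndB1q2b ndB7q3 pcB1 Cut.none Ext.none :=
  certB0 (fam := false) (s1 := false) (s2 := false) (a := 2) (b := 1) (c := 3) (cn := .pnn) (n1 := ndB1q2b) (n2 := ndB7q3) (pc := pcB1) (cut := Cut.none) (xt := Ext.none) (P1 := 1239849684) (W1 := 370763052) (P2 := 0) (W2 := 1230186008) (P3 := 587336777) (W3 := 62277027) (N0 := 3) (En := eng) (mo := mog) (C1 := cd1q2b) (C2 := cd7q3) (C3 := pd1)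
    rfl k0_mm_213_b

noncomputable def f_mm_303 : ℕ → ℕ → ℕ → ℕ → Bool := onCell 0 536870912 0 1230186008 587336777 62277027
    (rowB 3 eng mog cd1q3 cd7q3 pd0 2 false false false .npn 3 0 3 (qsf 1610612736 536870912 0 1230186008 0) ndB1q3 ndB7q3 pcB0 Cut.none Ext.none)

def k0_mm_303 : ∃ t, chk3 f_mm_303 t 1 1 1 = true :=
  ⟨(b (l 3) (b (l 3) (a (b (l 3) (a (b (a (b (l 16270392) (l 16170952)) (a (l 16264488) (l 16305096))) (a (l 16146784) (b (l 16258784) (l 1)))) (b (a (b (l 16384128) (l 1)) (l 1)) (l 1)))) (l 1)))), by decide +kernel⟩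

theorem c_mm_303 : CertB 1610612736 536870912 0 1230186008 587336777 62277027 3 eng mog cd1q3 cd7q3 pd0 false false false .npn 3 0 3
    ndB1q3 ndB7q3 pcB0 Cut.none Ext.none :=
  certB2 (fam := false) (s1 := false) (s2 := false) (a := 3) (b := 0) (c := 3) (cn := .npn) (n1 := ndB1q3) (n2 := ndB7q3) (pc := pcB0) (cut := Cut.none) (xt := Ext.none) (P1 := 1610612736) (W1 := 536870912) (P2 := 0) (W2 := 1230186008) (P3 := 587336777) (W3 := 62277027) (N0 := 3) (En := eng) (mo := mog) (C1 := cd1q3) (C2 := cd7q3) (C3 := pd0)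
    rfl (fun _ => rfl) k0_mm_303

noncomputable def f_mm_313 : ℕ → ℕ → ℕ → ℕ → Bool := onCell 1610612736 536870912 0 1230186008 587336777 62277027
    (rowB 3 eng mog cd1q3 cd7q3 pd1 0 false false false .dn 3 1 3 (qsf 1610612736 536870912 0 1230186008 1) ndB1q3 ndB7q3 pcB1 Cut.none Ext.none)

def k0_mm_313 : ∃ t, chk3 f_mm_313 t 1 1 1 = true :=
  ⟨(b (l 3) (l 1)), by decide +kernel⟩

theorem c_mm_313 : CertB 1610612736 536870912 0 1230186008 587336777 62277027 3 eng mog cd1q3 cd7q3 pd1 false false false .dn 3 1 3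
    ndB1q3 ndB7q3 pcB1 Cut.none Ext.none :=
  certB0 (fam := false) (s1 := false) (s2 := false) (a := 3) (b := 1) (c := 3) (cn := .dn) (n1 := ndB1q3) (n2 := ndB7q3) (pc := pcB1) (cut := Cut.none) (xt := Ext.none) (P1 := 1610612736) (W1 := 536870912) (P2 := 0) (W2 := 1230186008) (P3 := 587336777) (W3 := 62277027) (N0 := 3) (En := eng) (mo := mog) (C1 := cd1q3) (C2 := cd7q3) (C3 := pd1)
    rfl k0_mm_313

end Pool.Agent.Strip051.G.I5470_6050.Tab.C.BB17

namespace Pool.Agent.Strip051.G.I5470_6050.Tab.C.BB20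

open Pool.Agent.Strip051.PB Pool.Agent.Strip051.PB.T
open Pool.Agent.Strip051.G.I5470_6050.Tab

noncomputable def f_pp_001 : ℕ → ℕ → ℕ → ℕ → Bool := onCell 0 536870912 0 536870912 587336777 62277027
    (rowB 3 eng mog cd2q0 cd0q1 pd0 1 false true true .up 0 0 1 (qsf 0 536870912 536870912 536870912 0) ndB2q0 ndB0q1 pcB0 Cut.none Ext.none)

def k0_pp_001 : ∃ t, chk3 f_pp_001 t 1 1 1 = true :=
  ⟨(l 3), by decide +kernel⟩

theorem c_pp_001 : CertB 0 536870912 536870912 536870912 587336777 62277027 3 eng mog cd2q0 cd0q1 pd0 false true true .up 0 0 1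
    ndB2q0 ndB0q1 pcB0 Cut.none Ext.none :=
  certB1 (fam := false) (s1 := true) (s2 := true) (a := 0) (b := 0) (c := 1) (cn := .up) (n1 := ndB2q0) (n2 := ndB0q1) (pc := pcB0) (cut := Cut.none) (xt := Ext.none) (P1 := 0) (W1 := 536870912) (P2 := 536870912) (W2 := 536870912) (P3 := 587336777) (W3 := 62277027) (N0 := 3) (En := eng) (mo := mog) (C1 := cd2q0) (C2 := cd0q1) (C3 := pd0)
    rfl (fun _ => rfl) k0_pp_001

noncomputable def cut_pp_011 : Cut := Cut.of [[⟨0, 0, 0, 67108864⟩, ⟨1, 1, 0, 67108864⟩, ⟨2, 1, 0, 67108864⟩]]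

noncomputable def f_pp_011 : ℕ → ℕ → ℕ → ℕ → Bool := onCell 0 536870912 536870912 536870912 587336777 62277027
    (rowB 3 eng mog cd2q0 cd0q1 pd1 0 false true true .pnn 0 1 1 (qsf 0 536870912 536870912 536870912 1) ndB2q0 ndB0q1 pcB1 cut_pp_011 Ext.none)

def k0_pp_011 : ∃ t, chk3 f_pp_011 t 1 1 1 = true :=
  ⟨(a (b (l 3) (b (l 3) (a (b (l 3) (a (b (l 3) (a (b (l 3) (l 6)) (l 3))) (l 3))) (l 3)))) (l 3)), by decide +kernel⟩

theorem c_pp_011 : CertB 0 536870912 536870912 536870912 587336777 62277027 3 eng mog cd2q0 cd0q1 pd1 false true true .pnn 0 1 1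
    ndB2q0 ndB0q1 pcB1 cut_pp_011 Ext.none :=
  certB0 (fam := false) (s1 := true) (s2 := true) (a := 0) (b := 1) (c := 1) (cn := .pnn) (n1 := ndB2q0) (n2 := ndB0q1) (pc := pcB1) (cut := cut_pp_011) (xt := Ext.none) (P1 := 0) (W1 := 536870912) (P2 := 536870912) (W2 := 536870912) (P3 := 587336777) (W3 := 62277027) (N0 := 3) (En := eng) (mo := mog) (C1 := cd2q0) (C2 := cd0q1) (C3 := pd1)
    rfl k0_pp_011

noncomputable def cut_pp_012 : Cut := Cut.of [[⟨0, 0, 0, 33554432⟩, ⟨1, 1, 0, 33554432⟩, ⟨2, 1, 0, 33554432⟩]]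

noncomputable def xt_pp_012 : Ext := extD2 3 ⟨7, 3, 3, 10, 1815, 1000, 17, 20, 37, 100, 3, 16⟩ eng cd2q0 cd0q2 pd1 false true true .pnp 0 1 2 rfl ndB2q0 ndB0q2 pcB1

noncomputable def f_pp_012 : ℕ → ℕ → ℕ → ℕ → Bool := onCell 536870912 536870912 0 536870912 587336777 62277027
    (rowB 3 eng mog cd2q0 cd0q2 pd1 2 false true true .pnp 0 1 2 (qsf 0 536870912 0 536870912 1) ndB2q0 ndB0q2 pcB1 cut_pp_012 xt_pp_012)

def k0_pp_012 : ∃ t, chk3 f_pp_012 t 2 2 1 = true :=
  ⟨(a (b (l 2) (b (l 2) (l 3))) (b (b (a (b (l 16716416) (l 16729928)) (l 16691120)) (a (b (l 16741480) (a (l 16749824) (l 16746160))) (b (l 16736048) (a (l 16736064) (l 16721000))))) (a (b (a (b (b (l 16744688) (a (l 16724240) (l 16739320))) (a (a (l 2) (b (l 16711352) (l 16720408))) (a (l 16713944) (l 16713600)))) (b (b (l 16750304) (l 16749832)) (b (a (l 16737768) (l 16747584)) (a (l 16716152) (l 16713848))))) (a (b (a (b (b (a (b (l 2) (l 3)) (b (l 122574236039) (a (l 181630048951) (l 134922261863))))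 (a (l 3) (l 191293728583))) (l 3)) (b (b (a (l 16726648) (l 16723960)) (a (a (l 153175893687) (l 131164163847)) (l 16725048))) (a (l 3) (b (a (l 165523931047) (l 135996009255)) (l 3))))) (l 3)) (b (a (b (a (l 16724672) (l 16722960)) (b (a (l 110763084695) (l 16731720)) (a (b (l 148344046199) (l 176261358327)) (l 115058055159)))) (b (l 16721568) (a (l 16732744) (l 16730576)))) (a (b (a (l 3) (b (l 162302720855) (l 3))) (l 3)) (b (a (b (l 118816154503) (l 167671439143)) (b (l 16741136) (l 122574255015))) (l 3)))))) (b (a (b (l 16747136) (a (l 16750368) (l 16752232))) (b (l 16735776) (l 16748440))) (b (a (b (a (l 16729480) (l 16745760)) (a (l 16728040) (l 16726736))) (b (l 16753504) (a (l 16743720) (l 16752832)))) (a (a (b (a (l 16742232) (l 16739392)) (b (a (l 140291002311) (l 16751696)) (l 2769044827329138107970985023))) (b (l 16735424) (a (l 16773576) (l 16749088)))) (a (b (l 16731904) (l 16743752)) (b (l 16740520) (l 16737944))))))))), by decide +kernel⟩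

def k1_pp_012 : ∃ t, chk3 f_pp_012 t 2 3 1 = true :=
  ⟨(a (l 3) (b (a (l 3) (b (a (b (a (l 3) (b (a (l 157470927751) (l 111300007335)) (l 3))) (l 3)) (b (a (b (a (l 84456515431) (l 16759552)) (a (l 154786595367) (l 114521251399))) (b (l 16752360) (a (l 81235343015) (l 16769040)))) (a (l 3) (b (l 134922389783) (l 3))))) (l 3))) (l 3))), by decide +kernel⟩

def k2_pp_012 : ∃ t, chk3 f_pp_012 t 3 2 1 = true :=
  ⟨(a (b (a (b (b (l 16643144) (l 16659904)) (b (l 16676400) (a (l 16703160) (l 16681920)))) (b (a (l 16617512) (l 16594192)) (a (l 16650120) (l 16625520)))) (a (b (b (a (l 16719208) (l 16698528)) (a (l 16735528) (l 16716584))) (a (b (l 16750368) (a (b (l 16753048) (l 16736384)) (l 16755808))) (b (l 16735592) (l 16752648)))) (b (b (a (l 16675360) (l 16649936)) (a (l 16693248) (l 16668024))) (a (b (l 16713448) (l 16734328)) (b (l 16688104) (l 16709720)))))) (b (a (b (b (l 16550488) (l 16565984)) (a (l 16600584) (l 16618112))) (b (a (l 16524000) (l 16503728))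 (a (b (l 16546256) (l 16560872)) (b (l 16525400) (l 16541056))))) (a (b (a (b (l 16624080) (l 16641768)) (b (l 16598960) (l 16616048))) (a (b (l 16661528) (l 16682864)) (b (l 16635264) (l 16655976)))) (b (a (b (l 16575840) (l 16592384)) (b (l 16556184) (l 16572256))) (a (b (l 16610816) (l 16630712)) (b (l 16589904) (l 16608864))))))), by decide +kernel⟩

def k3_pp_012 : ∃ t, chk3 f_pp_012 t 6 3 1 = true :=
  ⟨(b (a (b (a (b (a (b (l 16744304) (l 16760232)) (b (l 16740632) (l 16750560))) (a (b (a (l 82309103543) (l 16776704)) (l 128479953607)) (b (l 16767088) (l 93583319319)))) (b (a (b (l 16752840) (l 16745432)) (l 16757568)) (a (b (l 16756504) (l 16772936)) (l 16775776)))) (a (l 3) (b (b (a (l 113447544391) (l 16798552)) (a (l 3) (l 147807285447))) (l 3)))) (b (b (a (a (l 16756712) (l 16748864)) (l 16731992)) (a (a (l 16748768) (l 16758872)) (l 16773832))) (b (a (a (b (l 16764744) (l 16802024)) (l 16781760)) (a (l 16753560) (l 16761040))) (a (a (b (l 186462018967)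 (l 3)) (b (l 130627491063) (l 225116729991))) (b (a (l 16770112) (l 16759912)) (a (b (l 16781984) (l 132774988359)) (l 16772888))))))) (a (l 3) (b (a (l 3) (b (b (a (l 204715641063) (b (l 134385585175) (l 193441353639))) (l 3)) (l 3))) (l 3)))), by decide +kernel⟩

def k4_pp_012 : ∃ t, chk3 f_pp_012 t 7 6 1 = true :=
  ⟨(a (b (a (b (l 16705368) (l 16728560)) (b (l 16677712) (l 16700496))) (a (b (a (l 16756400) (l 16744792)) (a (l 16800632) (l 16784736))) (b (l 16723944) (a (l 16754232) (l 16740416))))) (a (b (b (l 16651656) (l 16673256)) (b (l 16674720) (l 16723792))) (b (b (l 16649640) (l 16648792)) (b (l 16669064) (a (l 16696752) (l 16682704)))))), by decide +kernel⟩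

def k5_pp_012 : ∃ t, chk3 f_pp_012 t 14 7 1 = true :=
  ⟨(b (a (b (a (b (l 16818240) (b (l 147270474615) (l 182703922215))) (b (l 16766464) (a (l 16804304) (l 16777840)))) (a (l 3) (b (a (l 180019574935) (b (l 16789912) (l 179482700071))) (l 3)))) (b (a (b (l 16767296) (l 16770912)) (b (l 16758168) (l 16768720))) (b (a (a (l 122037540471) (l 16804032)) (l 16794056)) (a (a (b (l 182703931655) (l 3)) (b (l 102710192583) (l 188072641159))) (b (l 16803144) (a (l 105394537319) (l 16784832))))))) (a (l 3) (b (a (l 3) (b (b (a (l 186462025559) (l 151565422871)) (l 3)) (l 3))) (l 3)))), by decide +kernel⟩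

def k6_pp_012 : ∃ t, chk3 f_pp_012 t 15 7 1 = true :=
  ⟨(b (a (b (a (b (l 16743440) (l 16754864)) (b (l 16728040) (l 16739336))) (a (b (l 16765808) (l 16797368)) (b (l 16750656) (l 16762024)))) (b (a (b (l 16712848) (l 16723816)) (b (l 16698144) (l 16708800))) (a (b (a (l 16739032) (l 16731152)) (a (l 16750376) (l 16742568))) (b (a (l 16723432) (l 16715984)) (a (l 16734904) (b (l 16724232) (l 16730040))))))) (a (b (a (b (b (a (l 16783808) (l 16776456)) (a (b (l 115595068711) (l 171966495159)) (l 16793496))) (a (l 3) (b (b (l 120426896327) (l 169819010247)) (l 3)))) (b (a (l 16793720) (l 16769496)) (a (b (l 111836953783) (b (l 151565400903) (l 170355880151))) (b (l 16775096) (a (l 142438591511) (l 16779896)))))) (b (a (l 3) (a (l 3) (b (b (a (l 3) (l 138143623015)) (l 3)) (l 3)))) (l 3))) (b (a (b (a (l 16762008) (l 16754200)) (a (b (l 16770704) (l 16774528)) (b (l 16763088) (l 16769120)))) (b (a (l 16746384) (a (l 16740568) (l 16736720))) (a (b (l 16755264)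 (l 16750824)) (a (l 16762912) (b (l 16745512) (l 6)))))) (a (b (a (b (b (l 105394498327) (a (l 146733546503) (l 16791488))) (b (a (l 3) (b (l 95730819815) (l 130627420423))) (l 3))) (b (a (l 16775672) (l 16773224)) (b (a (l 107005105303) (l 16776928)) (a (b (l 119353132087) (l 125258710647)) (b (l 16779416) (l 6)))))) (a (l 3) (a (l 3) (l 6)))) (b (a (b (a (l 16769400) (l 16765472)) (l 6)) (l 6)) (l 6)))))), by decide +kernel⟩

theorem s7_pp_012 : ∃ t, chk3 f_pp_012 t 7 7 1 = true := ex3_a k5_pp_012 k6_pp_012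

theorem s8_pp_012 : ∃ t, chk3 f_pp_012 t 7 3 1 = true := ex3_b k4_pp_012 s7_pp_012

theorem s9_pp_012 : ∃ t, chk3 f_pp_012 t 3 3 1 = true := ex3_a k3_pp_012 s8_pp_012

theorem s10_pp_012 : ∃ t, chk3 f_pp_012 t 3 1 1 = true := ex3_b k2_pp_012 s9_pp_012

theorem s11_pp_012 : ∃ t, chk3 f_pp_012 t 2 1 1 = true := ex3_b k0_pp_012 k1_pp_012

theorem s12_pp_012 : ∃ t, chk3 f_pp_012 t 1 1 1 = true := ex3_a s11_pp_012 s10_pp_012

theorem c_pp_012 : CertB 0 536870912 0 536870912 587336777 62277027 3 eng mog cd2q0 cd0q2 pd1 false true true .pnp 0 1 2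
    ndB2q0 ndB0q2 pcB1 cut_pp_012 xt_pp_012 :=
  certB2 (fam := false) (s1 := true) (s2 := true) (a := 0) (b := 1) (c := 2) (cn := .pnp) (n1 := ndB2q0) (n2 := ndB0q2) (pc := pcB1) (cut := cut_pp_012) (xt := xt_pp_012) (P1 := 0) (W1 := 536870912) (P2 := 0) (W2 := 536870912) (P3 := 587336777) (W3 := 62277027) (N0 := 3) (En := eng) (mo := mog) (C1 := cd2q0) (C2 := cd0q2) (C3 := pd1)
    rfl (fun _ => rfl) s12_pp_012

noncomputable def cut_pp_022 : Cut := Cut.of [[⟨0, 0, 0, 67108864⟩, ⟨1, 1, 0, 67108864⟩, ⟨2, 1, 0, 67108864⟩]]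

noncomputable def f_pp_022 : ℕ → ℕ → ℕ → ℕ → Bool := onCell 0 536870912 0 536870912 587336777 62277027
    (rowB 3 eng mog cd2q0 cd0q2 pd2 0 false true true .pp 0 2 2 (qsf 0 536870912 0 536870912 2) ndB2q0 ndB0q2 pcB2 cut_pp_022 Ext.none)

def k0_pp_022 : ∃ t, chk3 f_pp_022 t 4 2 1 = true :=
  ⟨(b (b (a (a (l 16502184) (l 16469736)) (l 16479528)) (a (a (b (l 16467280) (c (l 16476632) (l 16472296))) (b (l 16479624) (l 16489312))) (a (l 16495336) (l 16503264)))) (b (b (a (a (c (a (l 16483168) (l 16490968)) (l 16502416)) (l 16501152)) (l 16562456)) (a (a (a (c (l 16495272) (l 16487488)) (l 16501648)) (c (l 16516264) (l 16513008))) (a (l 16530992) (l 16543040)))) (a (a (b (a (c (l 16509456) (l 16501048)) (l 16516536)) (a (c (l 16546936) (b (l 16512856) (l 16521440))) (b (l 16529232) (l 16538560)))) (b (a (l 16526680) (l 16536232)) (a (l 16545128) (l 16555696)))) (a (b (l 16549376) (l 16570304)) (b (l 16563128) (l 16585192)))))), by decide +kernel⟩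

def k1_pp_022 : ∃ t, chk3 f_pp_022 t 4 3 1 = true :=
  ⟨(b (a (b (a (a (b (c (l 16565864) (b (l 16530744) (l 16540840))) (a (b (l 16553000) (l 16564400)) (a (l 16564288) (l 16567928)))) (b (c (l 16556936) (l 16549968)) (b (l 16570680) (l 16582904)))) (b (a (c (l 16568280) (l 16563368)) (l 16577872)) (a (c (l 16592072) (l 16587832)) (l 16602960)))) (b (a (a (b (a (l 16576616) (l 16584520)) (a (l 16589664) (l 16597904))) (c (l 16626232) (l 16620832))) (a (l 16612312) (l 16631216))) (a (a (a (b (l 16603576) (l 16618328)) (b (l 16612152) (l 16627248))) (a (b (l 16620464) (l 16635872)) (l 16636376))) (a (l 16648144) (l 16659024))))) (b (a (b (l 16593808) (l 16639392)) (b (a (l 16604864) (l 358126084167)) (a (l 171831916151) (l 1)))) (a (b (a (l 16640080) (l 184179983607)) (a (b (l 16659960) (l 16673712)) (b (l 16666992) (l 1)))) (b (a (l 214244825223) (l 1)) (l 1))))) (a (b (b (a (a (b (a (l 16633920) (l 16643168)) (a (a (l 16647952) (l 16652816)) (l 16659960)))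 (a (b (l 16652112) (l 16669224)) (l 16690464))) (a (b (l 16671792) (l 16686960)) (b (l 16680360) (a (l 16693232) (l 16697064))))) (a (l 6) (a (l 6) (a (l 6) (a (l 6) (l 1)))))) (a (l 6) (a (l 6) (l 1)))) (b (a (b (a (b (l 163242159127) (l 357052561111)) (l 1)) (l 1)) (l 1)) (l 1)))), by decide +kernel⟩

def k2_pp_022 : ∃ t, chk3 f_pp_022 t 5 1 1 = true :=
  ⟨(b (a (b (b (l 64994392999) (a (b (l 16501328) (l 16515880)) (l 1))) (a (a (b (l 147672624919) (b (l 16570768) (l 16677344))) (b (l 226592719015) (l 1))) (l 1))) (l 1)) (b (l 1) (l 1))), by decide +kernel⟩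

def k3_pp_022 : ∃ t, chk3 f_pp_022 t 3 1 1 = true :=
  ⟨(l 1), by decide +kernel⟩

theorem s4_pp_022 : ∃ t, chk3 f_pp_022 t 4 1 1 = true := ex3_b k0_pp_022 k1_pp_022

theorem s5_pp_022 : ∃ t, chk3 f_pp_022 t 2 1 1 = true := ex3_a s4_pp_022 k2_pp_022

theorem s6_pp_022 : ∃ t, chk3 f_pp_022 t 1 1 1 = true := ex3_a s5_pp_022 k3_pp_022

theorem c_pp_022 : CertB 0 536870912 0 536870912 587336777 62277027 3 eng mog cd2q0 cd0q2 pd2 false true true .pp 0 2 2
    ndB2q0 ndB0q2 pcB2 cut_pp_022 Ext.none :=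
  certB0 (fam := false) (s1 := true) (s2 := true) (a := 0) (b := 2) (c := 2) (cn := .pp) (n1 := ndB2q0) (n2 := ndB0q2) (pc := pcB2) (cut := cut_pp_022) (xt := Ext.none) (P1 := 0) (W1 := 536870912) (P2 := 0) (W2 := 536870912) (P3 := 587336777) (W3 := 62277027) (N0 := 3) (En := eng) (mo := mog) (C1 := cd2q0) (C2 := cd0q2) (C3 := pd2)
    rfl s6_pp_022

noncomputable def f_pp_101 : ℕ → ℕ → ℕ → ℕ → Bool := onCell 536870912 536870912 536870912 536870912 587336777 62277027
    (rowB 3 eng mog cd2q1 cd0q1 pd0 0 false true true .npn 1 0 1 (qsf 536870912 536870912 536870912 536870912 0) ndB2q1 ndB0q1 pcB0 Cut.none Ext.none)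

def k0_pp_101 : ∃ t, chk3 f_pp_101 t 1 1 1 = true :=
  ⟨(l 3), by decide +kernel⟩

theorem c_pp_101 : CertB 536870912 536870912 536870912 536870912 587336777 62277027 3 eng mog cd2q1 cd0q1 pd0 false true true .npn 1 0 1
    ndB2q1 ndB0q1 pcB0 Cut.none Ext.none :=
  certB0 (fam := false) (s1 := true) (s2 := true) (a := 1) (b := 0) (c := 1) (cn := .npn) (n1 := ndB2q1) (n2 := ndB0q1) (pc := pcB0) (cut := Cut.none) (xt := Ext.none) (P1 := 536870912) (W1 := 536870912) (P2 := 536870912) (W2 := 536870912) (P3 := 587336777) (W3 := 62277027) (N0 := 3) (En := eng) (mo := mog) (C1 := cd2q1) (C2 := cd0q1) (C3 := pd0)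
    rfl k0_pp_101

noncomputable def f_pp_102 : ℕ → ℕ → ℕ → ℕ → Bool := onCell 0 536870912 0 536870912 587336777 62277027
    (rowB 3 eng mog cd2q1 cd0q2 pd0 2 false true true .npp 1 0 2 (qsf 536870912 536870912 0 536870912 0) ndB2q1 ndB0q2 pcB0 Cut.none Ext.none)

def k0_pp_102 : ∃ t, chk3 f_pp_102 t 1 1 1 = true :=
  ⟨(b (a (a (l 3) (l 3)) (a (l 3) (b (a (b (b (a (a (l 3) (b (l 195051684615) (l 3))) (a (b (l 181629928631) (l 195588558375)) (b (l 16680120) (l 192367348375)))) (l 3)) (l 3)) (b (a (b (a (b (l 16689232) (l 171429414743)) (b (l 16697632) (l 16689736))) (a (b (b (l 183777441223) (l 193977956711)) (l 3)) (b (l 171966286263) (b (l 184314287111) (l 195588567607))))) (b (b (l 16709464) (a (l 16698208) (l 16706152))) (a (b (l 16689464) (b (l 16681984) (l 181093090887))) (b (l 16698192) (l 16688568))))) (a (l 3) (b (a (b (b (l 191293606119) (l 3)) (l 3)) (b (b (l 16680480) (l 198809822983)) (l 211694692375))) (l 3))))) (l 3)))) (l 3)), by decide +kernel⟩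

theorem c_pp_102 : CertB 536870912 536870912 0 536870912 587336777 62277027 3 eng mog cd2q1 cd0q2 pd0 false true true .npp 1 0 2
    ndB2q1 ndB0q2 pcB0 Cut.none Ext.none :=
  certB2 (fam := false) (s1 := true) (s2 := true) (a := 1) (b := 0) (c := 2) (cn := .npp) (n1 := ndB2q1) (n2 := ndB0q2) (pc := pcB0) (cut := Cut.none) (xt := Ext.none) (P1 := 536870912) (W1 := 536870912) (P2 := 0) (W2 := 536870912) (P3 := 587336777) (W3 := 62277027) (N0 := 3) (En := eng) (mo := mog) (C1 := cd2q1) (C2 := cd0q2) (C3 := pd0)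
    rfl (fun _ => rfl) k0_pp_102

noncomputable def f_pp_112 : ℕ → ℕ → ℕ → ℕ → Bool := onCell 536870912 536870912 0 536870912 587336777 62277027
    (rowB 3 eng mog cd2q1 cd0q2 pd1 2 false true true .dn 1 1 2 (qsf 536870912 536870912 0 536870912 1) ndB2q1 ndB0q2 pcB1 Cut.none Ext.none)

def k0_pp_112 : ∃ t, chk3 f_pp_112 t 1 1 1 = true :=
  ⟨(a (b (a (b (a (b (a (b (l 16718584) (b (l 16713704) (a (l 16703928) (l 16711128)))) (l 16723448)) (a (b (b (a (l 16692800) (l 16703136)) (a (b (l 132237835431) (l 175187482823)) (l 16690816))) (b (a (l 206862848743) (b (l 134385300951) (l 171966252215))) (l 3))) (b (b (l 16714480) (a (l 16702000) (l 16710944))) (b (a (l 16688640) (l 16700744)) (a (b (l 139754000167) (l 178945568343)) (l 105931140599)))))) (b (b (l 16722112) (l 16726472)) (b (a (b (l 16724136) (l 16720368)) (l 16726888)) (a (b (a (l 16710440) (l 16717496)) (a (l 16699136) (l 16709456))) (b (l 16724240) (a (l 16717016) (l 16722056))))))) (b (a (a (l 3)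 (b (b (a (l 3) (l 168208193527)) (l 3)) (l 3))) (a (b (b (a (b (l 16687280) (l 131164098919)) (l 16697016)) (a (l 172503131431) (b (l 16683840) (a (l 165523798311) (l 16677504))))) (b (a (l 3) (l 176798066615)) (l 3))) (b (b (a (l 16708056) (l 16715936)) (a (l 16673352) (l 16705984))) (b (a (b (a (l 111299831591) (l 16683600)) (a (l 177871818551) (l 143512095591))) (b (l 16695000) (l 16674632))) (a (l 3) (b (a (l 148343927127) (l 68350162343)) (a (l 3) (l 153712649719)))))))) (l 3))) (a (a (b (b (l 16715408) (l 12918367255)) (b (b (b (l 16722760) (a (l 16714288) (l 16719480))) (a (b (l 16702976) (a (b (l 16686232) (b (l 16677104) (a (l 144048982199) (l 16672672)))) (l 16667576))) (l 535830556327))) (a (b (b (b (a (c (l 159618225271) (l 159618228023)) (a (b (l 58149612423) (l 153175786663)) (l 1))) (a (l 3) (l 1))) (l 3)) (l 3)) (l 1)))) (b (b (l 1) (l 1)) (l 1))) (l 1))) (a (l 3) (b (l 1) (l 1)))) (l 1)), by decide +kernel⟩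

theorem c_pp_112 : CertB 536870912 536870912 0 536870912 587336777 62277027 3 eng mog cd2q1 cd0q2 pd1 false true true .dn 1 1 2
    ndB2q1 ndB0q2 pcB1 Cut.none Ext.none :=
  certB2 (fam := false) (s1 := true) (s2 := true) (a := 1) (b := 1) (c := 2) (cn := .dn) (n1 := ndB2q1) (n2 := ndB0q2) (pc := pcB1) (cut := Cut.none) (xt := Ext.none) (P1 := 536870912) (W1 := 536870912) (P2 := 0) (W2 := 536870912) (P3 := 587336777) (W3 := 62277027) (N0 := 3) (En := eng) (mo := mog) (C1 := cd2q1) (C2 := cd0q2) (C3 := pd1)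
    rfl (fun _ => rfl) k0_pp_112

noncomputable def f_pp_202_a : ℕ → ℕ → ℕ → ℕ → Bool := onCell 0 536870912 0 536870912 587336777 62277027
    (rowB 3 eng mog cd2q2a cd0q2 pd0 0 false true true .pp 2 0 2 (qsf 0 536870912 0 536870912 0) ndB2q2a ndB0q2 pcB0 Cut.none Ext.none)

def k0_pp_202_a : ∃ t, chk3 f_pp_202_a t 1 1 1 = true :=
  ⟨(l 3), by decide +kernel⟩

theorem c_pp_202_a : CertB 0 536870912 0 536870912 587336777 62277027 3 eng mog cd2q2a cd0q2 pd0 false true true .pp 2 0 2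
    ndB2q2a ndB0q2 pcB0 Cut.none Ext.none :=
  certB0 (fam := false) (s1 := true) (s2 := true) (a := 2) (b := 0) (c := 2) (cn := .pp) (n1 := ndB2q2a) (n2 := ndB0q2) (pc := pcB0) (cut := Cut.none) (xt := Ext.none) (P1 := 0) (W1 := 536870912) (P2 := 0) (W2 := 536870912) (P3 := 587336777) (W3 := 62277027) (N0 := 3) (En := eng) (mo := mog) (C1 := cd2q2a) (C2 := cd0q2) (C3 := pd0)
    rfl k0_pp_202_a

noncomputable def f_pp_202_b : ℕ → ℕ → ℕ → ℕ → Bool := onCell 1239849684 370763052 0 536870912 587336777 62277027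
    (rowB 3 eng mog cd2q2b cd0q2 pd0 0 false true true .pp 2 0 2 (qsf 1239849684 370763052 0 536870912 0) ndB2q2b ndB0q2 pcB0 Cut.none Ext.none)

def k0_pp_202_b : ∃ t, chk3 f_pp_202_b t 1 1 1 = true :=
  ⟨(l 3), by decide +kernel⟩

theorem c_pp_202_b : CertB 1239849684 370763052 0 536870912 587336777 62277027 3 eng mog cd2q2b cd0q2 pd0 false true true .pp 2 0 2
    ndB2q2b ndB0q2 pcB0 Cut.none Ext.none :=
  certB0 (fam := false) (s1 := true) (s2 := true) (a := 2) (b := 0) (c := 2) (cn := .pp) (n1 := ndB2q2b) (n2 := ndB0q2) (pc := pcB0) (cut := Cut.none) (xt := Ext.none) (P1 := 1239849684) (W1 := 370763052) (P2 := 0) (W2 := 536870912) (P3 := 587336777) (W3 := 62277027) (N0 := 3) (En := eng) (mo := mog) (C1 := cd2q2b) (C2 := cd0q2) (C3 := pd0)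
    rfl k0_pp_202_b

noncomputable def f_pm_001 : ℕ → ℕ → ℕ → ℕ → Bool := onCell 0 536870912 0 536870912 587336777 62277027
    (rowB 3 eng mog cd2q0 cd0q1 pd0 1 false true false .up 0 0 1 (qsf 0 536870912 536870912 536870912 0) ndB2q0 ndB0q1 pcB0 Cut.none Ext.none)

def k0_pm_001 : ∃ t, chk3 f_pm_001 t 1 1 1 = true :=
  ⟨(a (l 4) (b (l 4) (a (l 4) (b (b (l 4) (a (l 4) (b (l 4) (a (l 4) (l 16503056))))) (b (a (b (l 4) (a (l 4) (l 16614736))) (b (a (b (l 4) (l 16521376)) (b (l 16459024) (l 16414808))) (a (b (l 16490008) (l 16437432)) (l 16350976)))) (a (b (a (l 4) (l 30299197879)) (a (l 28151805719) (l 16444448))) (b (a (l 16417888) (l 16402024)) (a (a (l 16401888) (l 16361752)) (b (l 16316088) (l 16309264)))))))))), by decide +kernel⟩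

theorem c_pm_001 : CertB 0 536870912 536870912 536870912 587336777 62277027 3 eng mog cd2q0 cd0q1 pd0 false true false .up 0 0 1
    ndB2q0 ndB0q1 pcB0 Cut.none Ext.none :=
  certB1 (fam := false) (s1 := true) (s2 := false) (a := 0) (b := 0) (c := 1) (cn := .up) (n1 := ndB2q0) (n2 := ndB0q1) (pc := pcB0) (cut := Cut.none) (xt := Ext.none) (P1 := 0) (W1 := 536870912) (P2 := 536870912) (W2 := 536870912) (P3 := 587336777) (W3 := 62277027) (N0 := 3) (En := eng) (mo := mog) (C1 := cd2q0) (C2 := cd0q1) (C3 := pd0)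
    rfl (fun _ => rfl) k0_pm_001

noncomputable def cut_pm_011 : Cut := Cut.of [[⟨0, 0, 0, 67108864⟩, ⟨1, 1, 0, 67108864⟩, ⟨2, 1, 0, 67108864⟩]]

noncomputable def f_pm_011 : ℕ → ℕ → ℕ → ℕ → Bool := onCell 0 536870912 536870912 536870912 587336777 62277027
    (rowB 3 eng mog cd2q0 cd0q1 pd1 0 false true false .pnn 0 1 1 (qsf 0 536870912 536870912 536870912 1) ndB2q0 ndB0q1 pcB1 cut_pm_011 Ext.none)

def k0_pm_011 : ∃ t, chk3 f_pm_011 t 1 1 1 = true :=
  ⟨(b (l 4) (a (b (l 4) (a (b (l 4) (b (l 4) (a (b (l 4) (a (l 6) (b (a (l 4) (b (l 4) (l 137136910647))) (a (l 6) (b (l 16729320) (l 16722224)))))) (b (b (a (l 4) (l 4)) (a (a (l 4) (l 16722960)) (a (l 76470302439) (l 16689824)))) (b (a (a (c (l 16757056) (l 16756376)) (l 16707496)) (l 16683128)) (a (b (l 16715168) (l 16718504)) (l 16689600))))))) (b (l 4) (a (b (a (l 4) (b (l 4) (b (l 16737608) (l 16702416)))) (a (b (a (l 16680784) (l 16663840)) (b (l 16650416) (l 16636048))) (b (b (l 16646320) (l 16632320))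 (b (l 16639416) (l 16625592))))) (b (a (b (l 16745744) (l 16718560)) (b (l 16649528) (l 16602456))) (b (a (l 16607624) (l 16576672)) (b (l 16698688) (l 16560144)))))))) (b (a (l 4) (a (a (l 4) (l 1)) (l 1))) (a (b (b (a (l 4) (a (l 4) (l 16570872))) (a (b (l 4) (a (l 16661872) (l 16585312))) (a (l 16539536) (l 16544512)))) (a (b (a (b (l 16595304) (l 16570304)) (l 16633232)) (b (a (l 16546040) (l 16516320)) (l 16593392))) (b (a (l 16515648) (l 16481480)) (b (l 16534128) (l 16453472))))) (b (a (b (a (l 16532928) (l 16514976)) (l 16460856)) (b (l 1) (l 16365952))) (a (b (l 16433552) (a (l 16417848) (l 16386880))) (b (l 16357440) (l 16340312)))))))), by decide +kernel⟩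

theorem c_pm_011 : CertB 0 536870912 536870912 536870912 587336777 62277027 3 eng mog cd2q0 cd0q1 pd1 false true false .pnn 0 1 1
    ndB2q0 ndB0q1 pcB1 cut_pm_011 Ext.none :=
  certB0 (fam := false) (s1 := true) (s2 := false) (a := 0) (b := 1) (c := 1) (cn := .pnn) (n1 := ndB2q0) (n2 := ndB0q1) (pc := pcB1) (cut := cut_pm_011) (xt := Ext.none) (P1 := 0) (W1 := 536870912) (P2 := 536870912) (W2 := 536870912) (P3 := 587336777) (W3 := 62277027) (N0 := 3) (En := eng) (mo := mog) (C1 := cd2q0) (C2 := cd0q1) (C3 := pd1)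
    rfl k0_pm_011

noncomputable def cut_pm_012 : Cut := Cut.of [[⟨0, 0, 0, 67108864⟩, ⟨1, 1, 0, 67108864⟩, ⟨2, 1, 0, 67108864⟩]]

noncomputable def f_pm_012 : ℕ → ℕ → ℕ → ℕ → Bool := onCell 536870912 536870912 0 536870912 587336777 62277027
    (rowB 3 eng mog cd2q0 cd0q2 pd1 2 false true false .pnp 0 1 2 (qsf 0 536870912 0 536870912 1) ndB2q0 ndB0q2 pcB1 cut_pm_012 Ext.none)

def k0_pm_012 : ∃ t, chk3 f_pm_012 t 2 1 1 = true :=
  ⟨(b (a (b (l 2) (b (l 2) (l 16698160))) (a (b (b (l 16690776) (l 16657856)) (b (l 16622432) (l 16580624))) (b (b (l 16657608) (l 16623944)) (l 16699928)))) (b (a (b (a (l 2) (l 16543368)) (l 16665224)) (b (a (l 16530480) (l 16516648)) (a (l 16480208) (l 16481808)))) (a (b (a (l 16402144) (l 16424256)) (a (b (l 16362624) (l 16342160)) (b (l 16400344) (l 16392088)))) (b (a (l 16445336) (l 16465792)) (a (b (l 16437016) (l 16461640)) (b (l 16472856) (l 16508936))))))), by decide +kernel⟩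

def k1_pm_012 : ∃ t, chk3 f_pm_012 t 3 1 1 = true :=
  ⟨(b (a (b (a (b (l 16618768) (l 16586376)) (b (l 16573976) (l 16545728))) (a (b (l 16558360) (l 16529816)) (b (l 16523200) (l 16503520)))) (b (a (b (l 16529712) (l 16507128)) (b (a (l 16498624) (l 16480432)) (a (l 16480560) (l 16465384)))) (a (b (l 16512960) (a (l 16487904) (l 16479144))) (b (a (l 16471416) (l 16460360)) (a (l 16472216) (b (l 16464080) (l 16471664))))))) (b (a (a (b (l 16502208) (l 16483936)) (b (a (l 16491480) (l 16487416)) (a (l 16486544) (l 16491240)))) (a (b (a (l 16485200) (l 16484776)) (a (l 16498168) (l 16507384))) (b (a (b (l 16481168) (l 16492120)) (b (l 16483504) (l 16498672))) (a (b (l 16508096) (l 16530608)) (b (l 16518912) (l 16587584)))))) (a (b (a (b (l 16483520) (l 16492968)) (a (l 16568864) (l 16562624))) (a (b (a (l 16500976) (l 16520736)) (a (l 16524800) (l 16550400))) (b (a (l 16541320) (l 16563976)) (a (l 16597808) (b (l 16593696) (l 16616656)))))) (b (a (a (b (l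 16524264) (l 16552272)) (b (l 16541376) (l 16616360))) (a (b (l 16560184) (a (l 16591496) (l 16602968))) (b (a (l 16574480) (l 16584272)) (a (l 16614632) (a (l 16623496) (l 16629472)))))) (a (b (a (l 16589184) (b (l 16604416) (l 16627136))) (b (a (l 16622688) (l 16685872)) (a (l 16648048) (a (l 16671560) (l 16708616))))) (b (a (b (l 16627152) (a (l 16647856) (l 16661872))) (b (a (l 16649784) (l 6)) (l 6))) (a (b (a (l 16674368) (l 16731328)) (a (b (l 16695768) (l 16710848)) (l 6))) (l 6)))))))), by decide +kernel⟩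

theorem s2_pm_012 : ∃ t, chk3 f_pm_012 t 1 1 1 = true := ex3_a k0_pm_012 k1_pm_012

theorem c_pm_012 : CertB 0 536870912 0 536870912 587336777 62277027 3 eng mog cd2q0 cd0q2 pd1 false true false .pnp 0 1 2
    ndB2q0 ndB0q2 pcB1 cut_pm_012 Ext.none :=
  certB2 (fam := false) (s1 := true) (s2 := false) (a := 0) (b := 1) (c := 2) (cn := .pnp) (n1 := ndB2q0) (n2 := ndB0q2) (pc := pcB1) (cut := cut_pm_012) (xt := Ext.none) (P1 := 0) (W1 := 536870912) (P2 := 0) (W2 := 536870912) (P3 := 587336777) (W3 := 62277027) (N0 := 3) (En := eng) (mo := mog) (C1 := cd2q0) (C2 := cd0q2) (C3 := pd1)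
    rfl (fun _ => rfl) s2_pm_012

noncomputable def cut_pm_022 : Cut := Cut.of [[⟨0, 0, 0, 67108864⟩, ⟨1, 1, 0, 67108864⟩, ⟨2, 1, 0, 67108864⟩]]

noncomputable def f_pm_022 : ℕ → ℕ → ℕ → ℕ → Bool := onCell 0 536870912 0 536870912 587336777 62277027
    (rowB 3 eng mog cd2q0 cd0q2 pd2 0 false true false .pp 0 2 2 (qsf 0 536870912 0 536870912 2) ndB2q0 ndB0q2 pcB2 cut_pm_022 Ext.none)

def k0_pm_022 : ∃ t, chk3 f_pm_022 t 2 2 1 = true :=
  ⟨(a (b (b (a (a (l 16458296) (l 16464024)) (l 16468168)) (a (b (l 16464288) (l 16507192)) (b (l 16464824) (l 16465464)))) (a (b (b (a (l 16517432) (l 16474928)) (a (a (l 16488176) (l 16486600)) (l 16483032))) (a (a (b (c (l 16513224) (l 16530768)) (a (b (l 16536032) (a (b (l 16522040) (b (l 16525424) (l 16504128))) (l 16523752))) (l 16543896))) (b (l 16499104) (l 16529944))) (b (b (l 16490344) (l 16496032)) (a (l 16508816) (l 16502584))))) (b (b (a (l 16470792) (l 16464592)) (a (l 16476192) (l 16467496))) (b (a (l 16482952)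 (l 16470256)) (a (l 16491840) (l 16475064)))))) (a (b (b (l 16465344) (l 39761460535)) (a (b (b (l 16456080) (l 16456440)) (b (l 16454944) (l 16455000))) (l 1))) (l 1))), by decide +kernel⟩

def k1_pm_022 : ∃ t, chk3 f_pm_022 t 2 3 1 = true :=
  ⟨(a (b (a (a (b (b (a (a (a (b (c (l 16534168) (b (l 16530408) (l 16535072))) (c (b (l 16541720) (l 16546944)) (b (l 16539872) (l 16544800)))) (b (c (l 16533304) (l 16532464)) (c (l 16543368) (l 16541968)))) (b (l 16531608) (l 16541712))) (b (l 16527200) (l 16536800))) (a (a (b (a (b (l 16551240) (l 16556584)) (c (l 16553984) (l 16552008))) (a (b (l 16562064) (l 16567688)) (l 16564024))) (b (l 16551872) (l 16562584))) (b (l 16547112) (l 16558136)))) (a (b (a (b (a (c (l 16578176) (l 16574440)) (l 16575472)) (b (l 16584976) (l 16591208))) (b (l 16573880) (l 16585816))) (a (b (b (l 16597616) (l 16604208)) (a (l 16615144) (l 16613872))) (b (l 16598424) (l 16611816)))) (b (b (l 16569864) (l 16581792)) (a (l 16602224)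 (l 16598864))))) (b (b (a (l 16540552) (l 16516688)) (a (l 16543472) (l 16533264))) (b (a (l 16564744) (l 16552240)) (a (l 16588392) (l 16573352))))) (b (a (b (l 16502888) (l 16537104)) (b (l 16481688) (l 16490088))) (a (b (a (l 16538648) (l 16524000)) (a (l 16557088) (l 16539624))) (b (l 16521032) (l 1))))) (a (b (b (a (b (a (a (a (l 16640184) (l 16628328)) (l 16626120)) (l 16621112)) (a (a (b (l 16640504) (l 6)) (l 16641400)) (l 16636072))) (a (l 16634832) (b (l 16590104) (l 16601672)))) (a (l 6) (a (l 6) (b (l 16613408) (l 16625224))))) (a (l 6) (a (l 6) (l 1)))) (a (b (b (b (l 16582864) (l 16612992)) (l 1)) (l 1)) (l 1)))) (b (l 1) (l 1))), by decide +kernel⟩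

def k2_pm_022 : ∃ t, chk3 f_pm_022 t 3 1 1 = true :=
  ⟨(l 1), by decide +kernel⟩

theorem s3_pm_022 : ∃ t, chk3 f_pm_022 t 2 1 1 = true := ex3_b k0_pm_022 k1_pm_022

theorem s4_pm_022 : ∃ t, chk3 f_pm_022 t 1 1 1 = true := ex3_a s3_pm_022 k2_pm_022

theorem c_pm_022 : CertB 0 536870912 0 536870912 587336777 62277027 3 eng mog cd2q0 cd0q2 pd2 false true false .pp 0 2 2
    ndB2q0 ndB0q2 pcB2 cut_pm_022 Ext.none :=
  certB0 (fam := false) (s1 := true) (s2 := false) (a := 0) (b := 2) (c := 2) (cn := .pp) (n1 := ndB2q0) (n2 := ndB0q2) (pc := pcB2) (cut := cut_pm_022) (xt := Ext.none) (P1 := 0) (W1 := 536870912) (P2 := 0) (W2 := 536870912) (P3 := 587336777) (W3 := 62277027) (N0 := 3) (En := eng) (mo := mog) (C1 := cd2q0) (C2 := cd0q2) (C3 := pd2)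
    rfl s4_pm_022

noncomputable def f_pm_101 : ℕ → ℕ → ℕ → ℕ → Bool := onCell 0 536870912 536870912 536870912 587336777 62277027
    (rowB 3 eng mog cd2q1 cd0q1 pd0 2 false true false .npn 1 0 1 (qsf 536870912 536870912 536870912 536870912 0) ndB2q1 ndB0q1 pcB0 Cut.none Ext.none)

def k0_pm_101 : ∃ t, chk3 f_pm_101 t 2 2 1 = true :=
  ⟨(b (l 4) (a (b (l 4) (b (l 4) (a (a (l 16638112) (l 16646352)) (a (l 16654320) (l 4))))) (l 4))), by decide +kernel⟩

def k1_pm_101 : ∃ t, chk3 f_pm_101 t 2 6 1 = true :=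
  ⟨(a (a (b (b (a (l 16629760) (l 16629368)) (a (l 16631592) (l 16624256))) (b (a (b (l 16637000) (l 16642344)) (b (l 16625088) (l 16627584))) (a (b (a (l 16652968) (l 16644296)) (c (l 16680032) (a (l 16639728) (l 16628336)))) (b (a (l 16635616) (l 16626960)) (a (c (l 16667216) (l 16616960)) (l 16631232)))))) (b (b (a (l 16630552) (l 16633056)) (a (l 16617816) (l 16612016))) (b (a (l 16613544) (l 16601048)) (a (b (l 16614096) (a (l 16621248) (l 16611240))) (b (l 16596960) (l 16596176)))))) (b (a (b (a (l 16635840) (l 4)) (a (l 16606944) (l 16602880))) (b (l 4) (a (l 16599120) (l 16595152)))) (a (b (a (l 16589096) (l 16577688)) (a (b (l 16580392) (l 16576656)) (l 16561224))) (b (l 16559608) (a (l 16543376) (l 16524632)))))), by decide +kernel⟩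

def k2_pm_101 : ∃ t, chk3 f_pm_101 t 4 7 1 = true :=
  ⟨(b (a (b (b (a (b (a (b (a (l 16668304) (l 16663704)) (l 16665536)) (b (l 16655576) (a (l 16659024) (l 16654680)))) (a (l 16664632) (l 16656336))) (b (a (c (l 16671688) (b (l 16621656) (l 16624192))) (l 16635144)) (a (c (l 16671720) (b (l 16623936) (l 16623856))) (b (a (l 16640080) (l 16634816)) (l 16637072))))) (a (a (l 16662424) (l 16654616)) (a (l 16645992) (c (l 16663384) (l 16611656))))) (a (b (a (l 16660104) (l 16652960)) (l 16655608)) (b (a (l 16644840) (l 16635784)) (l 16640360)))) (b (b (a (b (a (l 16624192) (l 16613152)) (a (b (l 16625928) (c (l 16654360) (l 16600936))) (c (l 16644232) (l 16587928)))) (a (l 16602552) (l 16590952))) (a (a (l 16626440) (b (b (l 16615376) (l 16615576)) (l 16615272))) (b (a (b (l 16604336) (l 16603616)) (b (l 16591488) (l 16591824))) (l 16597728)))) (a (b (a (l 16625864) (l 16615096)) (a (l 16626128) (l 16615512))) (b (a (l 16603496) (l 16591144)) (a (l 16603968)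 (l 16591520)))))) (a (b (a (b (l 16655008) (l 16654688)) (b (l 16640800) (l 16641464))) (a (l 16737744) (b (l 16641864) (l 16640656)))) (b (a (b (l 16622008) (l 16623288)) (b (a (l 16605128) (l 16592720)) (l 16600720))) (a (b (l 16624360) (l 16624016)) (b (l 16602264) (l 16602760)))))), by decide +kernel⟩

def k3_pm_101 : ∃ t, chk3 f_pm_101 t 5 7 1 = true :=
  ⟨(b (a (b (a (b (l 16574456) (b (a (l 16579600) (l 16567928)) (a (l 16578360) (l 16567392)))) (b (l 16553296) (a (l 16557224) (l 16544384)))) (a (a (b (l 16578512) (l 16578624)) (l 16566520)) (b (a (l 16554200) (l 16540400)) (l 16546904)))) (b (a (l 16528544) (l 16504632)) (a (b (l 16520984) (l 16519384)) (b (l 16495592) (l 16490424))))) (a (b (a (a (a (l 16583792) (l 16577448)) (l 16567856)) (b (l 16546904) (l 16547792))) (a (b (l 16576808) (l 16577888)) (b (l 16549200) (l 16550384)))) (b (a (c (l 16552808) (l 16484744)) (b (l 16487608) (l 16486064))) (a (b (l 16518624) (l 16519440)) (c (l 16520128)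 (l 16453056)))))), by decide +kernel⟩

def k4_pm_101 : ∃ t, chk3 f_pm_101 t 3 1 1 = true :=
  ⟨(b (l 4) (a (b (b (l 4) (a (b (a (l 16540048) (l 16526096)) (l 16491384)) (b (l 46942617111) (l 39761823543)))) (a (b (b (l 16525752) (a (a (l 16470112) (l 16453392)) (l 16426480))) (b (a (l 16452688) (l 16411824)) (a (c (l 16485312) (l 16413968)) (l 16406528)))) (b (b (l 16392016) (a (l 16388008) (l 16344712))) (a (b (l 16368984) (l 16361480)) (b (l 16322208) (l 16315504)))))) (b (a (b (l 1) (b (l 1) (a (l 160020978583) (l 1)))) (l 1)) (a (b (b (a (l 132639890439) (l 16460536)) (a (l 16292880) (l 16367680))) (b (a (l 16266848) (l 16291328)) (a (l 16234752) (l 16230944)))) (b (b (l 1) (a (l 16422336) (l 1))) (b (a (l 16418016) (l 141767116983)) (a (l 16296312) (l 16387888)))))))), by decide +kernel⟩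

theorem s5_pm_101 : ∃ t, chk3 f_pm_101 t 2 7 1 = true := ex3_a k2_pm_101 k3_pm_101

theorem s6_pm_101 : ∃ t, chk3 f_pm_101 t 2 3 1 = true := ex3_b k1_pm_101 s5_pm_101

theorem s7_pm_101 : ∃ t, chk3 f_pm_101 t 2 1 1 = true := ex3_b k0_pm_101 s6_pm_101

theorem s8_pm_101 : ∃ t, chk3 f_pm_101 t 1 1 1 = true := ex3_a s7_pm_101 k4_pm_101

theorem c_pm_101 : CertB 536870912 536870912 536870912 536870912 587336777 62277027 3 eng mog cd2q1 cd0q1 pd0 false true false .npn 1 0 1
    ndB2q1 ndB0q1 pcB0 Cut.none Ext.none :=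
  certB2 (fam := false) (s1 := true) (s2 := false) (a := 1) (b := 0) (c := 1) (cn := .npn) (n1 := ndB2q1) (n2 := ndB0q1) (pc := pcB0) (cut := Cut.none) (xt := Ext.none) (P1 := 536870912) (W1 := 536870912) (P2 := 536870912) (W2 := 536870912) (P3 := 587336777) (W3 := 62277027) (N0 := 3) (En := eng) (mo := mog) (C1 := cd2q1) (C2 := cd0q1) (C3 := pd0)
    rfl (fun _ => rfl) s8_pm_101

noncomputable def f_pm_102 : ℕ → ℕ → ℕ → ℕ → Bool := onCell 536870912 536870912 0 536870912 587336777 62277027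
    (rowB 3 eng mog cd2q1 cd0q2 pd0 0 false true false .npp 1 0 2 (qsf 536870912 536870912 0 536870912 0) ndB2q1 ndB0q2 pcB0 Cut.none Ext.none)

def k0_pm_102 : ∃ t, chk3 f_pm_102 t 2 1 1 = true :=
  ⟨(b (a (b (l 2) (b (l 2) (a (l 2) (l 16672496)))) (b (a (b (b (l 16723464) (l 16729800)) (b (l 16732512) (l 16731496))) (b (a (b (a (l 16707088) (b (l 16695688) (l 16702416))) (l 16714168)) (b (a (b (l 16687128) (l 16694040)) (b (l 16677968) (l 16685240))) (l 16699352))) (b (a (l 16721688) (l 16709640)) (l 16722400)))) (b (a (b (l 16728544) (l 16721376)) (b (a (l 16727592) (l 16722512)) (a (l 16726368) (l 16725360)))) (a (l 16698448) (a (l 16713256) (l 16719952)))))) (a (b (a (l 2) (b (b (l 16611336) (b (l 16567856) (l 16537648))) (b (l 16505096) (l 16437976)))) (b (a (a (l 2) (l 16501560)) (b (a (l 16413712) (l 16408104)) (a (l 16368192) (l 16348944)))) (a (b (a (l 16448008) (a (l 16362960) (l 16345136))) (a (a (l 16356904) (l 16337120)) (a (l 16314576) (l 16291152))))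 (b (a (b (l 16330408) (l 16301976)) (l 16259616)) (a (l 16251536) (b (l 16236184) (l 16228744))))))) (b (a (b (a (b (l 16642784) (l 16592200)) (l 16724888)) (a (l 16504960) (l 16653448))) (b (b (l 16688296) (a (l 16641008) (l 16664584))) (a (b (l 16586696) (l 16519720)) (b (l 16615776) (l 16550992))))) (b (a (a (b (l 16409776) (l 16366088)) (b (l 16444968) (l 16442344))) (b (a (l 16486416) (l 16519448)) (l 16478928))) (a (b (a (a (l 16372304) (l 16384144)) (b (l 16405456) (l 16392016))) (a (b (l 16333848) (l 16320016)) (l 16372984))) (b (c (l 16488536) (l 16443944)) (b (l 16442992) (a (l 16410632) (l 16452160))))))))), by decide +kernel⟩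

def k1_pm_102 : ∃ t, chk3 f_pm_102 t 6 2 1 = true :=
  ⟨(b (a (b (a (b (a (b (l 181093087303) (l 16675904)) (b (l 196662290759) (l 179482465559))) (a (b (l 16682744) (l 16689296)) (b (l 16673000) (l 16679544)))) (b (a (b (l 3) (l 199883509559)) (l 3)) (a (b (l 16683536) (l 16669392)) (b (b (l 195051660311) (l 170892501911)) (l 16658488))))) (b (a (l 16693616) (a (b (l 16675776) (l 16682144)) (b (l 16665176) (l 16671520)))) (a (l 16703840) (l 16686104)))) (b (a (b (l 3) (a (b (l 3) (a (l 16650280) (l 198809766487))) (l 3))) (l 3)) (b (b (a (a (a (l 16656696) (l 16650968)) (a (l 16645304) (l 168208117751))) (l 3)) (a (a (a (l 16663168) (l 16657584)) (a (l 16651696) (l 16645720))) (a (a (l 16639848) (l 16634240)) (b (l 3) (l 16627544))))) (a (a (l 16670120) (b (a (l 16658080) (l 16652296)) (l 16661840))) (a (b (a (l 16646360) (l 16640128)) (a (l 16652776) (l 16646800))) (b (a (l 16634128) (l 16628464)) (a (l 16640832) (l 16634496)))))))) (a (b (b (a (l 16712360)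 (l 16697096)) (a (l 16719072) (l 16707464))) (b (a (l 16722848) (l 16716488)) (l 16721496))) (b (a (b (b (l 16674072) (l 16680496)) (l 16690176)) (b (a (l 16660064) (b (a (l 16647464) (l 16641328)) (l 16651472))) (a (l 16674144) (l 16662680)))) (a (b (b (l 16699936) (l 16706032)) (l 16713400)) (b (b (l 16679928) (l 16687632)) (b (l 16694976) (l 16701648))))))), by decide +kernel⟩

def k2_pm_102 : ∃ t, chk3 f_pm_102 t 7 4 1 = true :=
  ⟨(a (b (l 3) (a (b (l 3) (b (a (a (l 16623248) (l 3)) (l 3)) (a (a (l 16628456) (l 16622856)) (a (l 141901503303) (l 3))))) (l 3))) (l 3)), by decide +kernel⟩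

def k3_pm_102 : ∃ t, chk3 f_pm_102 t 14 5 1 = true :=
  ⟨(b (a (b (a (b (a (l 16635376) (l 16629120)) (b (l 16637328) (l 16641016))) (a (b (l 86603807815) (b (l 16628360) (l 16631848))) (b (l 113447339927) (b (l 16622304) (l 16625984))))) (a (l 16650672) (b (a (l 16637480) (b (l 16629520) (l 16633384))) (l 16642328)))) (b (a (b (a (l 138680260359) (l 3)) (c (a (l 95730584199) (l 96804312551)) (l 98951713943))) (b (l 3) (a (l 140827722167) (l 3)))) (a (b (a (b (l 16623808) (l 16627416)) (b (l 16618096) (l 16621888))) (a (l 16633408) (b (l 16625552) (l 16629608)))) (b (c (a (l 105394235543) (l 139753958535)) (l 127942787079)) (a (b (l 16620232) (l 16623928)) (b (l 16615072) (l 16618856))))))) (b (a (b (a (l 16662456) (l 16650672)) (l 16664864)) (b (a (l 16638672) (a (l 16630080) (b (l 16622584) (l 16626704)))) (a (l 16647136) (l 16635680)))) (a (b (l 16673392) (l 16681528)) (a (b (l 16655600) (l 16664112)) (b (b (l 16641896) (l 16645992)) (l 16652336)))))),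 by decide +kernel⟩

def k4_pm_102 : ∃ t, chk3 f_pm_102 t 15 5 1 = true :=
  ⟨(b (a (b (l 3) (a (b (l 3) (a (b (l 16612304) (l 16615032)) (b (l 3) (l 16611952)))) (l 3))) (l 3)) (a (b (a (b (a (b (l 16617936) (l 16621696)) (b (l 16614760) (l 16617448))) (a (l 16627728) (b (l 16620952) (l 16624840)))) (b (a (b (l 140827638119) (l 16614288)) (b (l 3) (a (l 16611576) (l 16609680)))) (a (b (l 16617160) (l 16620336)) (b (a (l 16614560) (l 16612672)) (a (l 16617608) (l 16615768)))))) (a (b (l 16633240) (l 16641120)) (b (a (l 16625952) (b (a (l 16620856) (l 16618984)) (l 16623424))) (l 16631168)))) (b (a (b (l 3) (a (b (a (l 16610704) (l 3)) (a (l 16613800) (l 16611760))) (b (l 3) (a (l 140290748791) (l 3))))) (l 3)) (a (b (a (a (b (l 16617048) (l 16620408)) (b (l 16615008) (l 16618384))) (b (a (l 16612864) (l 139217022407)) (a (l 16616296) (l 16614056)))) (a (l 16624680) (b (a (l 16619760) (l 16617576)) (l 16622272)))) (b (a (b (a (l 134385158887) (l 3)) (a (l 16611776)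 (l 143511980855))) (l 3)) (b (a (a (l 16615328) (l 16612920)) (a (l 16610576) (b (l 3) (l 16609104)))) (a (a (l 16618864) (l 16616544)) (a (l 16614152) (b (l 16610744) (l 16612528)))))))))), by decide +kernel⟩

def k5_pm_102 : ∃ t, chk3 f_pm_102 t 3 3 1 = true :=
  ⟨(a (b (a (b (b (l 16714792) (l 16696400)) (b (l 16724120) (l 16605024))) (b (b (a (l 16718432) (l 16709816)) (a (l 16715392) (l 16715576))) (b (a (l 16698600) (l 16711552)) (a (l 16659576) (l 16687920))))) (b (a (b (l 16564624) (l 16542720)) (b (l 16685624) (l 16595352))) (a (b (a (l 16508720) (l 16540552)) (a (a (l 16485224) (l 16502896)) (b (l 16531704) (l 16522872)))) (b (l 16580040) (a (b (l 16560704) (l 16553032)) (b (l 16585512) (l 16579400))))))) (b (b (a (b (a (l 16692944) (b (a (l 16672416) (l 16660680)) (l 16674672))) (a (l 16705016) (l 16685896))) (a (b (a (b (l 16649232) (l 16657224)) (b (l 16638720) (l 16646224))) (a (l 16668688) (b (l 16653656) (l 16660592)))) (b (a (a (b (l 16631792)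 (l 16638896)) (b (l 16627672) (l 16634552))) (b (a (l 16623296) (b (a (l 16617760) (l 16609968)) (l 16620384))) (b (l 16626856) (l 16629984)))) (a (b (b (l 16641616) (l 16644984)) (l 16649568)) (b (b (l 16632776) (l 16635416)) (b (l 16638352) (l 16640840))))))) (a (b (a (l 16710976) (l 16718552)) (a (l 16702712) (l 16700824))) (b (a (b (l 16673016) (l 16678936)) (b (l 16649968) (a (l 16660992) (l 16649464)))) (a (l 16684632) (l 16661080))))) (b (a (b (a (l 16678624) (l 16693824)) (l 16820360)) (a (l 16729240) (b (l 16666720) (l 16648944)))) (a (b (a (l 16612448) (l 16632448)) (a (b (l 16606696) (l 16602608)) (b (l 16624728) (l 16622272)))) (b (a (l 16664256) (l 16666784)) (a (b (l 16640288) (l 16637704)) (b (l 16664640) (l 16661864)))))))), by decide +kernel⟩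

theorem s6_pm_102 : ∃ t, chk3 f_pm_102 t 7 5 1 = true := ex3_a k3_pm_102 k4_pm_102

theorem s7_pm_102 : ∃ t, chk3 f_pm_102 t 7 2 1 = true := ex3_b k2_pm_102 s6_pm_102

theorem s8_pm_102 : ∃ t, chk3 f_pm_102 t 3 2 1 = true := ex3_a k1_pm_102 s7_pm_102

theorem s9_pm_102 : ∃ t, chk3 f_pm_102 t 3 1 1 = true := ex3_b s8_pm_102 k5_pm_102

theorem s10_pm_102 : ∃ t, chk3 f_pm_102 t 1 1 1 = true := ex3_a k0_pm_102 s9_pm_102

theorem c_pm_102 : CertB 536870912 536870912 0 536870912 587336777 62277027 3 eng mog cd2q1 cd0q2 pd0 false true false .npp 1 0 2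
    ndB2q1 ndB0q2 pcB0 Cut.none Ext.none :=
  certB0 (fam := false) (s1 := true) (s2 := false) (a := 1) (b := 0) (c := 2) (cn := .npp) (n1 := ndB2q1) (n2 := ndB0q2) (pc := pcB0) (cut := Cut.none) (xt := Ext.none) (P1 := 536870912) (W1 := 536870912) (P2 := 0) (W2 := 536870912) (P3 := 587336777) (W3 := 62277027) (N0 := 3) (En := eng) (mo := mog) (C1 := cd2q1) (C2 := cd0q2) (C3 := pd0)
    rfl s10_pm_102

noncomputable def f_pm_112 : ℕ → ℕ → ℕ → ℕ → Bool := onCell 536870912 536870912 0 536870912 587336777 62277027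
    (rowB 3 eng mog cd2q1 cd0q2 pd1 2 false true false .dn 1 1 2 (qsf 536870912 536870912 0 536870912 1) ndB2q1 ndB0q2 pcB1 Cut.none Ext.none)

def k0_pm_112 : ∃ t, chk3 f_pm_112 t 1 1 1 = true :=
  ⟨(a (b (a (b (a (b (b (l 16720328) (l 16716008)) (b (l 16706432) (l 16695112))) (b (a (l 16713608) (l 16704456)) (b (l 16690376) (l 16677168)))) (a (b (b (l 16682344) (l 16666192)) (l 16634328)) (b (l 16653000) (l 16612272)))) (a (b (b (l 16685280) (l 16658056)) (b (l 16626256) (l 16589040))) (l 1))) (b (a (b (a (l 16576008) (l 16559416)) (a (l 16506168) (l 16502320))) (l 1)) (a (b (a (l 16440576) (l 16456032)) (a (l 100964985463) (l 1))) (l 1)))) (l 1)), by decide +kernel⟩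

theorem c_pm_112 : CertB 536870912 536870912 0 536870912 587336777 62277027 3 eng mog cd2q1 cd0q2 pd1 false true false .dn 1 1 2
    ndB2q1 ndB0q2 pcB1 Cut.none Ext.none :=
  certB2 (fam := false) (s1 := true) (s2 := false) (a := 1) (b := 1) (c := 2) (cn := .dn) (n1 := ndB2q1) (n2 := ndB0q2) (pc := pcB1) (cut := Cut.none) (xt := Ext.none) (P1 := 536870912) (W1 := 536870912) (P2 := 0) (W2 := 536870912) (P3 := 587336777) (W3 := 62277027) (N0 := 3) (En := eng) (mo := mog) (C1 := cd2q1) (C2 := cd0q2) (C3 := pd1)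
    rfl (fun _ => rfl) k0_pm_112

noncomputable def cut_pm_202_a : Cut := Cut.of [[⟨0, 1, 0, 67108864⟩, ⟨1, 0, 0, 67108864⟩, ⟨2, 1, 0, 67108864⟩]]

noncomputable def f_pm_202_a : ℕ → ℕ → ℕ → ℕ → Bool := onCell 0 536870912 0 536870912 587336777 62277027
    (rowB 3 eng mog cd2q2a cd0q2 pd0 0 false true false .pp 2 0 2 (qsf 0 536870912 0 536870912 0) ndB2q2a ndB0q2 pcB0 cut_pm_202_a Ext.none)

def k0_pm_202_a : ∃ t, chk3 f_pm_202_a t 1 1 1 = true :=
  ⟨(a (l 3) (b (l 3) (b (l 3) (a (l 3) (b (l 3) (a (l 3) (l 6))))))), by decide +kernel⟩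

theorem c_pm_202_a : CertB 0 536870912 0 536870912 587336777 62277027 3 eng mog cd2q2a cd0q2 pd0 false true false .pp 2 0 2
    ndB2q2a ndB0q2 pcB0 cut_pm_202_a Ext.none :=
  certB0 (fam := false) (s1 := true) (s2 := false) (a := 2) (b := 0) (c := 2) (cn := .pp) (n1 := ndB2q2a) (n2 := ndB0q2) (pc := pcB0) (cut := cut_pm_202_a) (xt := Ext.none) (P1 := 0) (W1 := 536870912) (P2 := 0) (W2 := 536870912) (P3 := 587336777) (W3 := 62277027) (N0 := 3) (En := eng) (mo := mog) (C1 := cd2q2a) (C2 := cd0q2) (C3 := pd0)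
    rfl k0_pm_202_a

noncomputable def cut_pm_202_b : Cut := Cut.of [[⟨0, 1, 0, 67108864⟩, ⟨1, 0, 0, 67108864⟩, ⟨2, 1, 0, 67108864⟩]]

noncomputable def f_pm_202_b : ℕ → ℕ → ℕ → ℕ → Bool := onCell 1239849684 370763052 0 536870912 587336777 62277027
    (rowB 3 eng mog cd2q2b cd0q2 pd0 0 false true false .pp 2 0 2 (qsf 1239849684 370763052 0 536870912 0) ndB2q2b ndB0q2 pcB0 cut_pm_202_b Ext.none)

def k0_pm_202_b : ∃ t, chk3 f_pm_202_b t 1 1 1 = true :=
  ⟨(l 3), by decide +kernel⟩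

theorem c_pm_202_b : CertB 1239849684 370763052 0 536870912 587336777 62277027 3 eng mog cd2q2b cd0q2 pd0 false true false .pp 2 0 2
    ndB2q2b ndB0q2 pcB0 cut_pm_202_b Ext.none :=
  certB0 (fam := false) (s1 := true) (s2 := false) (a := 2) (b := 0) (c := 2) (cn := .pp) (n1 := ndB2q2b) (n2 := ndB0q2) (pc := pcB0) (cut := cut_pm_202_b) (xt := Ext.none) (P1 := 1239849684) (W1 := 370763052) (P2 := 0) (W2 := 536870912) (P3 := 587336777) (W3 := 62277027) (N0 := 3) (En := eng) (mo := mog) (C1 := cd2q2b) (C2 := cd0q2) (C3 := pd0)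
    rfl k0_pm_202_b

noncomputable def f_mm_001 : ℕ → ℕ → ℕ → ℕ → Bool := onCell 0 536870912 536870912 536870912 587336777 62277027
    (rowB 3 eng mog cd2q0 cd0q1 pd0 0 false false false .up 0 0 1 (qsf 0 536870912 536870912 536870912 0) ndB2q0 ndB0q1 pcB0 Cut.none Ext.none)

def k0_mm_001 : ∃ t, chk3 f_mm_001 t 1 1 1 = true :=
  ⟨(l 5), by decide +kernel⟩

theorem c_mm_001 : CertB 0 536870912 536870912 536870912 587336777 62277027 3 eng mog cd2q0 cd0q1 pd0 false false false .up 0 0 1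
    ndB2q0 ndB0q1 pcB0 Cut.none Ext.none :=
  certB0 (fam := false) (s1 := false) (s2 := false) (a := 0) (b := 0) (c := 1) (cn := .up) (n1 := ndB2q0) (n2 := ndB0q1) (pc := pcB0) (cut := Cut.none) (xt := Ext.none) (P1 := 0) (W1 := 536870912) (P2 := 536870912) (W2 := 536870912) (P3 := 587336777) (W3 := 62277027) (N0 := 3) (En := eng) (mo := mog) (C1 := cd2q0) (C2 := cd0q1) (C3 := pd0)
    rfl k0_mm_001

noncomputable def f_mm_011 : ℕ → ℕ → ℕ → ℕ → Bool := onCell 0 536870912 536870912 536870912 587336777 62277027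
    (rowB 3 eng mog cd2q0 cd0q1 pd1 0 false false false .pnn 0 1 1 (qsf 0 536870912 536870912 536870912 1) ndB2q0 ndB0q1 pcB1 Cut.none Ext.none)

def k0_mm_011 : ∃ t, chk3 f_mm_011 t 1 1 1 = true :=
  ⟨(l 5), by decide +kernel⟩

theorem c_mm_011 : CertB 0 536870912 536870912 536870912 587336777 62277027 3 eng mog cd2q0 cd0q1 pd1 false false false .pnn 0 1 1
    ndB2q0 ndB0q1 pcB1 Cut.none Ext.none :=
  certB0 (fam := false) (s1 := false) (s2 := false) (a := 0) (b := 1) (c := 1) (cn := .pnn) (n1 := ndB2q0) (n2 := ndB0q1) (pc := pcB1) (cut := Cut.none) (xt := Ext.none) (P1 := 0) (W1 := 536870912) (P2 := 536870912) (W2 := 536870912) (P3 := 587336777) (W3 := 62277027) (N0 := 3) (En := eng) (mo := mog) (C1 := cd2q0) (C2 := cd0q1) (C3 := pd1)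
    rfl k0_mm_011

noncomputable def f_mm_012 : ℕ → ℕ → ℕ → ℕ → Bool := onCell 0 536870912 0 536870912 587336777 62277027
    (rowB 3 eng mog cd2q0 cd0q2 pd1 0 false false false .pnp 0 1 2 (qsf 0 536870912 0 536870912 1) ndB2q0 ndB0q2 pcB1 Cut.none Ext.none)

def k0_mm_012 : ∃ t, chk3 f_mm_012 t 1 1 1 = true :=
  ⟨(l 5), by decide +kernel⟩

theorem c_mm_012 : CertB 0 536870912 0 536870912 587336777 62277027 3 eng mog cd2q0 cd0q2 pd1 false false false .pnp 0 1 2
    ndB2q0 ndB0q2 pcB1 Cut.none Ext.none :=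
  certB0 (fam := false) (s1 := false) (s2 := false) (a := 0) (b := 1) (c := 2) (cn := .pnp) (n1 := ndB2q0) (n2 := ndB0q2) (pc := pcB1) (cut := Cut.none) (xt := Ext.none) (P1 := 0) (W1 := 536870912) (P2 := 0) (W2 := 536870912) (P3 := 587336777) (W3 := 62277027) (N0 := 3) (En := eng) (mo := mog) (C1 := cd2q0) (C2 := cd0q2) (C3 := pd1)
    rfl k0_mm_012

noncomputable def f_mm_022 : ℕ → ℕ → ℕ → ℕ → Bool := onCell 0 536870912 0 536870912 587336777 62277027
    (rowB 3 eng mog cd2q0 cd0q2 pd2 0 false false false .pp 0 2 2 (qsf 0 536870912 0 536870912 2) ndB2q0 ndB0q2 pcB2 Cut.none Ext.none)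

def k0_mm_022 : ∃ t, chk3 f_mm_022 t 1 1 1 = true :=
  ⟨(l 5), by decide +kernel⟩

theorem c_mm_022 : CertB 0 536870912 0 536870912 587336777 62277027 3 eng mog cd2q0 cd0q2 pd2 false false false .pp 0 2 2
    ndB2q0 ndB0q2 pcB2 Cut.none Ext.none :=
  certB0 (fam := false) (s1 := false) (s2 := false) (a := 0) (b := 2) (c := 2) (cn := .pp) (n1 := ndB2q0) (n2 := ndB0q2) (pc := pcB2) (cut := Cut.none) (xt := Ext.none) (P1 := 0) (W1 := 536870912) (P2 := 0) (W2 := 536870912) (P3 := 587336777) (W3 := 62277027) (N0 := 3) (En := eng) (mo := mog) (C1 := cd2q0) (C2 := cd0q2) (C3 := pd2)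
    rfl k0_mm_022

noncomputable def f_mm_101 : ℕ → ℕ → ℕ → ℕ → Bool := onCell 536870912 536870912 536870912 536870912 587336777 62277027
    (rowB 3 eng mog cd2q1 cd0q1 pd0 0 false false false .npn 1 0 1 (qsf 536870912 536870912 536870912 536870912 0) ndB2q1 ndB0q1 pcB0 Cut.none Ext.none)

def k0_mm_101 : ∃ t, chk3 f_mm_101 t 1 1 1 = true :=
  ⟨(l 3), by decide +kernel⟩

theorem c_mm_101 : CertB 536870912 536870912 536870912 536870912 587336777 62277027 3 eng mog cd2q1 cd0q1 pd0 false false false .npn 1 0 1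
    ndB2q1 ndB0q1 pcB0 Cut.none Ext.none :=
  certB0 (fam := false) (s1 := false) (s2 := false) (a := 1) (b := 0) (c := 1) (cn := .npn) (n1 := ndB2q1) (n2 := ndB0q1) (pc := pcB0) (cut := Cut.none) (xt := Ext.none) (P1 := 536870912) (W1 := 536870912) (P2 := 536870912) (W2 := 536870912) (P3 := 587336777) (W3 := 62277027) (N0 := 3) (En := eng) (mo := mog) (C1 := cd2q1) (C2 := cd0q1) (C3 := pd0)
    rfl k0_mm_101

noncomputable def f_mm_102 : ℕ → ℕ → ℕ → ℕ → Bool := onCell 536870912 536870912 0 536870912 587336777 62277027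
    (rowB 3 eng mog cd2q1 cd0q2 pd0 0 false false false .npp 1 0 2 (qsf 536870912 536870912 0 536870912 0) ndB2q1 ndB0q2 pcB0 Cut.none Ext.none)

def k0_mm_102 : ∃ t, chk3 f_mm_102 t 1 1 1 = true :=
  ⟨(l 5), by decide +kernel⟩

theorem c_mm_102 : CertB 536870912 536870912 0 536870912 587336777 62277027 3 eng mog cd2q1 cd0q2 pd0 false false false .npp 1 0 2
    ndB2q1 ndB0q2 pcB0 Cut.none Ext.none :=
  certB0 (fam := false) (s1 := false) (s2 := false) (a := 1) (b := 0) (c := 2) (cn := .npp) (n1 := ndB2q1) (n2 := ndB0q2) (pc := pcB0) (cut := Cut.none) (xt := Ext.none) (P1 := 536870912) (W1 := 536870912) (P2 := 0) (W2 := 536870912) (P3 := 587336777) (W3 := 62277027) (N0 := 3) (En := eng) (mo := mog) (C1 := cd2q1) (C2 := cd0q2) (C3 := pd0)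
    rfl k0_mm_102

noncomputable def f_mm_112 : ℕ → ℕ → ℕ → ℕ → Bool := onCell 536870912 536870912 0 536870912 587336777 62277027
    (rowB 3 eng mog cd2q1 cd0q2 pd1 0 false false false .dn 1 1 2 (qsf 536870912 536870912 0 536870912 1) ndB2q1 ndB0q2 pcB1 Cut.none Ext.none)

def k0_mm_112 : ∃ t, chk3 f_mm_112 t 1 1 1 = true :=
  ⟨(l 5), by decide +kernel⟩

theorem c_mm_112 : CertB 536870912 536870912 0 536870912 587336777 62277027 3 eng mog cd2q1 cd0q2 pd1 false false false .dn 1 1 2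
    ndB2q1 ndB0q2 pcB1 Cut.none Ext.none :=
  certB0 (fam := false) (s1 := false) (s2 := false) (a := 1) (b := 1) (c := 2) (cn := .dn) (n1 := ndB2q1) (n2 := ndB0q2) (pc := pcB1) (cut := Cut.none) (xt := Ext.none) (P1 := 536870912) (W1 := 536870912) (P2 := 0) (W2 := 536870912) (P3 := 587336777) (W3 := 62277027) (N0 := 3) (En := eng) (mo := mog) (C1 := cd2q1) (C2 := cd0q2) (C3 := pd1)
    rfl k0_mm_112

noncomputable def f_mm_202_a : ℕ → ℕ → ℕ → ℕ → Bool := onCell 0 536870912 0 536870912 587336777 62277027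
    (rowB 3 eng mog cd2q2a cd0q2 pd0 0 false false false .pp 2 0 2 (qsf 0 536870912 0 536870912 0) ndB2q2a ndB0q2 pcB0 Cut.none Ext.none)

def k0_mm_202_a : ∃ t, chk3 f_mm_202_a t 1 1 1 = true :=
  ⟨(l 3), by decide +kernel⟩

theorem c_mm_202_a : CertB 0 536870912 0 536870912 587336777 62277027 3 eng mog cd2q2a cd0q2 pd0 false false false .pp 2 0 2
    ndB2q2a ndB0q2 pcB0 Cut.none Ext.none :=
  certB0 (fam := false) (s1 := false) (s2 := false) (a := 2) (b := 0) (c := 2) (cn := .pp) (n1 := ndB2q2a) (n2 := ndB0q2) (pc := pcB0) (cut := Cut.none) (xt := Ext.none) (P1 := 0) (W1 := 536870912) (P2 := 0) (W2 := 536870912) (P3 := 587336777) (W3 := 62277027) (N0 := 3) (En := eng) (mo := mog) (C1 := cd2q2a) (C2 := cd0q2) (C3 := pd0)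
    rfl k0_mm_202_a

noncomputable def f_mm_202_b : ℕ → ℕ → ℕ → ℕ → Bool := onCell 1239849684 370763052 0 536870912 587336777 62277027
    (rowB 3 eng mog cd2q2b cd0q2 pd0 0 false false false .pp 2 0 2 (qsf 1239849684 370763052 0 536870912 0) ndB2q2b ndB0q2 pcB0 Cut.none Ext.none)

def k0_mm_202_b : ∃ t, chk3 f_mm_202_b t 1 1 1 = true :=
  ⟨(l 3), by decide +kernel⟩

theorem c_mm_202_b : CertB 1239849684 370763052 0 536870912 587336777 62277027 3 eng mog cd2q2b cd0q2 pd0 false false false .pp 2 0 2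
    ndB2q2b ndB0q2 pcB0 Cut.none Ext.none :=
  certB0 (fam := false) (s1 := false) (s2 := false) (a := 2) (b := 0) (c := 2) (cn := .pp) (n1 := ndB2q2b) (n2 := ndB0q2) (pc := pcB0) (cut := Cut.none) (xt := Ext.none) (P1 := 1239849684) (W1 := 370763052) (P2 := 0) (W2 := 536870912) (P3 := 587336777) (W3 := 62277027) (N0 := 3) (En := eng) (mo := mog) (C1 := cd2q2b) (C2 := cd0q2) (C3 := pd0)
    rfl k0_mm_202_b

end Pool.Agent.Strip051.G.I5470_6050.Tab.C.BB20

namespace Pool.Agent.Strip051.G.I5470_6050.Tab.C.BB21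

open Pool.Agent.Strip051.PB Pool.Agent.Strip051.PB.T
open Pool.Agent.Strip051.G.I5470_6050.Tab

noncomputable def f_pp_001 : ℕ → ℕ → ℕ → ℕ → Bool := onCell 0 536870912 0 536870912 587336777 62277027
    (rowB 3 eng mog cd2q0 cd1q1 pd0 1 false true true .up 0 0 1 (qsf 0 536870912 536870912 536870912 0) ndB2q0 ndB1q1 pcB0 Cut.none Ext.none)

def k0_pp_001 : ∃ t, chk3 f_pp_001 t 1 1 1 = true :=
  ⟨(l 3), by decide +kernel⟩

theorem c_pp_001 : CertB 0 536870912 536870912 536870912 587336777 62277027 3 eng mog cd2q0 cd1q1 pd0 false true true .up 0 0 1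
    ndB2q0 ndB1q1 pcB0 Cut.none Ext.none :=
  certB1 (fam := false) (s1 := true) (s2 := true) (a := 0) (b := 0) (c := 1) (cn := .up) (n1 := ndB2q0) (n2 := ndB1q1) (pc := pcB0) (cut := Cut.none) (xt := Ext.none) (P1 := 0) (W1 := 536870912) (P2 := 536870912) (W2 := 536870912) (P3 := 587336777) (W3 := 62277027) (N0 := 3) (En := eng) (mo := mog) (C1 := cd2q0) (C2 := cd1q1) (C3 := pd0)
    rfl (fun _ => rfl) k0_pp_001

noncomputable def f_pp_011 : ℕ → ℕ → ℕ → ℕ → Bool := onCell 0 536870912 536870912 536870912 587336777 62277027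
    (rowB 3 eng mog cd2q0 cd1q1 pd1 0 false true true .pnn 0 1 1 (qsf 0 536870912 536870912 536870912 1) ndB2q0 ndB1q1 pcB1 Cut.none Ext.none)

def k0_pp_011 : ∃ t, chk3 f_pp_011 t 1 1 1 = true :=
  ⟨(a (b (l 3) (l 3)) (l 3)), by decide +kernel⟩

theorem c_pp_011 : CertB 0 536870912 536870912 536870912 587336777 62277027 3 eng mog cd2q0 cd1q1 pd1 false true true .pnn 0 1 1
    ndB2q0 ndB1q1 pcB1 Cut.none Ext.none :=
  certB0 (fam := false) (s1 := true) (s2 := true) (a := 0) (b := 1) (c := 1) (cn := .pnn) (n1 := ndB2q0) (n2 := ndB1q1) (pc := pcB1) (cut := Cut.none) (xt := Ext.none) (P1 := 0) (W1 := 536870912) (P2 := 536870912) (W2 := 536870912) (P3 := 587336777) (W3 := 62277027) (N0 := 3) (En := eng) (mo := mog) (C1 := cd2q0) (C2 := cd1q1) (C3 := pd1)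
    rfl k0_pp_011

noncomputable def cut_pp_012_a : Cut := Cut.of [[⟨0, 0, 0, 44739242⟩, ⟨1, 1, 0, 44739242⟩, ⟨2, 1, 0, 44739242⟩]]

noncomputable def f_pp_012_a : ℕ → ℕ → ℕ → ℕ → Bool := onCell 536870912 536870912 0 536870912 587336777 62277027
    (rowB 3 eng mog cd2q0 cd1q2a pd1 2 false true true .pnp 0 1 2 (qsf 0 536870912 0 536870912 1) ndB2q0 ndB1q2a pcB1 cut_pp_012_a Ext.none)

def k0_pp_012_a : ∃ t, chk3 f_pp_012_a t 2 1 1 = true :=
  ⟨(a (b (b (l 2) (b (l 2) (l 3))) (l 3)) (b (a (b (b (a (l 16742256) (l 16731136)) (a (b (l 16749328) (a (l 2) (l 16745440))) (l 16748760))) (b (a (b (a (l 138613317287) (l 16718288)) (a (b (a (l 2) (l 129553562407)) (l 3)) (b (l 16725200) (a (l 171429495607) (l 130627303223))))) (b (b (a (l 16742608) (l 16749344)) (a (l 16728808) (l 16743632))) (a (b (l 16717784) (l 96804469399)) (l 16720552)))) (a (l 3) (b (a (b (l 153712767991) (l 3)) (b (l 96804493351) (l 154249655079))) (l 3))))) (b (b (a (l 16717528) (l 16700696))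 (a (l 16741032) (l 16727008))) (b (b (a (l 16751848) (l 16745248)) (a (a (b (l 16743936) (l 16723832)) (l 16727960)) (a (l 16753440) (l 16752296)))) (a (b (a (b (l 16730208) (l 100562549623)) (l 16732056)) (a (l 162839614631) (b (l 101636309159) (l 156934046615)))) (b (a (l 16732872) (l 16750584)) (a (b (l 16744240) (l 102710072071)) (l 16744272))))))) (b (a (l 3) (b (a (l 3) (b (a (l 153175978919) (b (l 96804508647) (l 141364796103))) (l 3))) (l 3))) (l 3)))), by decide +kernel⟩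

def k1_pp_012_a : ∃ t, chk3 f_pp_012_a t 6 1 1 = true :=
  ⟨(b (a (b (b (l 16670048) (a (b (l 16702304) (l 16716528)) (b (l 16680832) (l 16695392)))) (b (a (l 16738088) (l 16719200)) (a (a (b (l 16755712) (l 16739888)) (b (l 16754000) (l 16751240))) (b (l 16744016) (a (l 16758032) (l 16755360)))))) (b (b (a (l 16635280) (l 16610808)) (a (l 16685448) (l 16638688))) (b (a (b (l 16686888) (l 16703904)) (b (l 16661144) (l 16677832))) (a (b (l 16722184) (l 16741408)) (b (l 16696280) (l 16716672)))))) (b (a (b (a (a (b (b (l 16757240) (l 16767816)) (l 3)) (b (l 16754664) (l 127943040871))) (b (a (l 16747808) (l 16751888)) (a (l 74256070199) (l 16803976)))) (a (l 3) (b (b (a (l 3) (l 129553657527)) (l 3)) (l 3)))) (b (a (b (a (l 16759312) (l 16754048)) (a (l 16752760) (l 16754712))) (b (l 16737680) (a (l 16759592) (l 16751752)))) (b (a (a (a (l 127406275175) (l 16817656)) (l 16829040)) (a (l 16756352) (l 16759864))) (a (a (l 3) (l 214916152647)) (a (b (l 16795328)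 (l 206326227479)) (b (l 16762784) (l 130627481335))))))) (a (l 3) (b (a (l 3) (b (a (l 3) (b (l 210621199079) (l 3))) (l 3))) (l 3))))), by decide +kernel⟩

def k2_pp_012_a : ∃ t, chk3 f_pp_012_a t 7 2 1 = true :=
  ⟨(b (a (b (a (l 16585952) (l 16561712)) (a (l 16612544) (l 16587064))) (a (b (l 16538624) (l 16563456)) (b (l 16517384) (l 16542792)))) (a (b (a (b (l 16634272) (l 16650840)) (l 16658128)) (a (b (l 16668968) (l 16689152)) (b (l 16641976) (l 16661472)))) (a (b (l 16591664) (b (l 16616712) (l 16635672))) (b (l 16570640) (a (l 16609248) (l 16599352)))))), by decide +kernel⟩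

def k3_pp_012_a : ∃ t, chk3 f_pp_012_a t 14 3 1 = true :=
  ⟨(b (a (b (b (l 16710680) (l 16732944)) (b (a (l 16758912) (l 16747872)) (a (b (l 16757904) (l 16765264)) (l 16764488)))) (b (b (l 16682344) (l 16704376)) (b (a (l 16734088) (l 16719584)) (a (l 16756264) (l 16763480))))) (b (a (b (a (b (l 134385581335) (l 198273173607)) (b (l 16768168) (a (l 161765986375) (l 16779056)))) (a (l 3) (b (a (l 3) (l 181093307287)) (l 3)))) (b (a (b (l 16767128) (l 16792760)) (b (l 16759512) (l 16769360))) (b (a (a (l 129553736039) (l 16805136)) (a (l 16777552) (l 16770888))) (a (b (a (l 3) (l 160692250471)) (l 3)) (a (l 182167059767) (l 16803600)))))) (a (l 3) (b (a (l 3) (b (a (l 3) (l 197199457159)) (l 3))) (l 3))))), by decide +kernel⟩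

def k4_pp_012_a : ∃ t, chk3 f_pp_012_a t 15 3 1 = true :=
  ⟨(b (a (b (b (l 16655488) (l 16676456)) (b (l 16698144) (b (l 16714768) (l 16725944)))) (b (b (l 16632176) (l 16651304)) (b (l 16671040) (a (l 16698328) (l 16705096))))) (b (a (b (a (b (l 16744936) (l 16755888)) (b (l 16729296) (l 16740400))) (a (b (l 16766584) (l 16798096)) (a (l 16761000) (l 16753240)))) (b (a (b (l 16714064) (l 16724608)) (b (l 16699232) (l 16709464))) (a (b (l 16756856) (a (l 16751000) (l 16743176))) (b (a (l 16724104) (l 16716536)) (a (l 16735400) (l 16748792)))))) (a (b (a (b (b (a (l 16805632) (l 16777136)) (a (l 191830717015) (l 112373829863))) (b (a (l 3) (l 174650846327)) (l 3))) (b (a (l 16794240) (l 16769912)) (a (b (l 113447569015) (l 174650845079)) (b (l 16775536) (a (l 150491656695) (l 16780368)))))) (a (l 3) (b (a (l 3) (b (a (l 3) (l 159081583063)) (l 3))) (l 3)))) (b (a (b (a (l 16762440) (l 16754616)) (a (b (l 16771032) (l 16795904)) (b (l 16763416) (l 16769424))))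 (a (b (l 16746792) (a (l 16760568) (l 6))) (b (a (l 16740952) (l 16737088)) (l 6)))) (a (b (a (a (b (l 162839681735) (l 3)) (b (l 97341434311) (a (l 3) (l 6)))) (b (a (l 16776000) (l 6)) (l 6))) (l 6)) (l 6)))))), by decide +kernel⟩

theorem s5_pp_012_a : ∃ t, chk3 f_pp_012_a t 7 3 1 = true := ex3_a k3_pp_012_a k4_pp_012_a

theorem s6_pp_012_a : ∃ t, chk3 f_pp_012_a t 7 1 1 = true := ex3_b k2_pp_012_a s5_pp_012_a

theorem s7_pp_012_a : ∃ t, chk3 f_pp_012_a t 3 1 1 = true := ex3_a k1_pp_012_a s6_pp_012_a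

theorem s8_pp_012_a : ∃ t, chk3 f_pp_012_a t 1 1 1 = true := ex3_a k0_pp_012_a s7_pp_012_a

theorem c_pp_012_a : CertB 0 536870912 0 536870912 587336777 62277027 3 eng mog cd2q0 cd1q2a pd1 false true true .pnp 0 1 2
    ndB2q0 ndB1q2a pcB1 cut_pp_012_a Ext.none :=
  certB2 (fam := false) (s1 := true) (s2 := true) (a := 0) (b := 1) (c := 2) (cn := .pnp) (n1 := ndB2q0) (n2 := ndB1q2a) (pc := pcB1) (cut := cut_pp_012_a) (xt := Ext.none) (P1 := 0) (W1 := 536870912) (P2 := 0) (W2 := 536870912) (P3 := 587336777) (W3 := 62277027) (N0 := 3) (En := eng) (mo := mog) (C1 := cd2q0) (C2 := cd1q2a) (C3 := pd1)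
    rfl (fun _ => rfl) s8_pp_012_a

noncomputable def cut_pp_012_b : Cut := Cut.of [[⟨0, 0, 0, 44739242⟩, ⟨1, 1, 0, 44739242⟩, ⟨2, 1, 0, 44739242⟩]]

noncomputable def f_pp_012_b : ℕ → ℕ → ℕ → ℕ → Bool := onCell 536870912 536870912 1239849684 370763052 587336777 62277027
    (rowB 3 eng mog cd2q0 cd1q2b pd1 2 false true true .pnp 0 1 2 (qsf 0 536870912 1239849684 370763052 1) ndB2q0 ndB1q2b pcB1 cut_pp_012_b Ext.none)

def k0_pp_012_b : ∃ t, chk3 f_pp_012_b t 1 1 1 = true :=
  ⟨(a (a (l 2) (b (a (b (b (l 16723016) (l 2)) (l 2)) (b (l 16683952) (l 16688672))) (l 2))) (a (b (a (b (b (l 16644816) (l 16631192)) (l 16630120)) (b (a (l 16595640) (l 16566760)) (l 16559880))) (a (l 2) (b (l 16584272) (l 2)))) (b (a (b (a (l 16536304) (l 16504752)) (l 16479216)) (b (a (l 16494584) (b (l 16472736) (l 16418200))) (a (l 16411400) (l 16365400)))) (a (b (l 16490552) (l 16553328)) (b (l 16379720) (l 16431040)))))), by decide +kernel⟩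

theorem c_pp_012_b : CertB 0 536870912 1239849684 370763052 587336777 62277027 3 eng mog cd2q0 cd1q2b pd1 false true true .pnp 0 1 2
    ndB2q0 ndB1q2b pcB1 cut_pp_012_b Ext.none :=
  certB2 (fam := false) (s1 := true) (s2 := true) (a := 0) (b := 1) (c := 2) (cn := .pnp) (n1 := ndB2q0) (n2 := ndB1q2b) (pc := pcB1) (cut := cut_pp_012_b) (xt := Ext.none) (P1 := 0) (W1 := 536870912) (P2 := 1239849684) (W2 := 370763052) (P3 := 587336777) (W3 := 62277027) (N0 := 3) (En := eng) (mo := mog) (C1 := cd2q0) (C2 := cd1q2b) (C3 := pd1)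
    rfl (fun _ => rfl) k0_pp_012_b

noncomputable def cut_pp_022_a : Cut := Cut.of [[⟨0, 0, 0, 67108864⟩, ⟨1, 1, 0, 67108864⟩, ⟨2, 1, 0, 67108864⟩]]

noncomputable def f_pp_022_a : ℕ → ℕ → ℕ → ℕ → Bool := onCell 0 536870912 0 536870912 587336777 62277027
    (rowB 3 eng mog cd2q0 cd1q2a pd2 0 false true true .pp 0 2 2 (qsf 0 536870912 0 536870912 2) ndB2q0 ndB1q2a pcB2 cut_pp_022_a Ext.none)

def k0_pp_022_a : ∃ t, chk3 f_pp_022_a t 4 2 1 = true :=
  ⟨(b (a (b (a (a (l 16458096) (l 16464496)) (l 16473064)) (a (c (a (l 16428352) (l 16477584)) (b (l 16465624) (l 16472544))) (l 16487456))) (a (l 16594096) (l 16552560))) (b (a (b (a (a (l 16480704) (l 16490224)) (l 16503512)) (a (a (l 16492136) (l 16502568)) (a (l 16512472) (l 16521800)))) (a (l 16527008) (l 16540088))) (b (a (a (a (b (l 16502072) (l 16509496)) (l 16517216)) (a (l 16528056) (l 16538304))) (a (l 16552496) (l 16568264))) (a (a (a (a (b (l 16514312) (l 16522768)) (l 16525008)) (l 16534360)) (a (l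 16546240) (l 16557440))) (a (l 16572904) (l 16589296)))))), by decide +kernel⟩

def k1_pp_022_a : ∃ t, chk3 f_pp_022_a t 4 3 1 = true :=
  ⟨(b (a (b (a (a (b (b (c (l 16539992) (l 16529800)) (c (l 16549976) (l 16539936))) (b (c (l 16560640) (l 16550952)) (a (l 16563832) (l 16571680)))) (b (c (l 16557664) (l 16549744)) (b (l 16570856) (l 16583032)))) (a (b (l 16567112) (c (l 16593064) (l 16588216))) (b (l 16579280) (l 16604128)))) (b (a (b (a (a (l 16575944) (l 16584112)) (l 16595904)) (a (a (l 16588976) (l 16597464)) (l 16609696))) (a (c (l 16619456) (l 16615840)) (l 16632016))) (a (a (b (a (l 16602936) (l 16611728)) (a (l 16617584) (l 16626696))) (a (a (l 16625752) (l 16650992)) (l 16636280))) (a (l 16669288) (l 16660568))))) (b (b (a (l 16595968) (l 102038725079)) (a (l 16620864) (a (l 182569349031) (l 1)))) (a (b (a (l 16642104) (l 189011836023)) (a (b (l 16661664) (l 16675344)) (b (l 16668808) (l 1)))) (b (a (l 229814084647) (l 1)) (l 1))))) (a (b (b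 (a (a (a (b (l 16633280) (b (l 16645784) (l 6))) (b (l 16642704) (l 16659800))) (a (b (l 16651816) (l 16669208)) (l 16690424))) (a (b (l 16672944) (l 16687688)) (b (l 16681640) (b (l 16692328) (l 16699648))))) (a (l 6) (a (l 6) (a (l 6) (a (l 6) (l 1)))))) (a (l 6) (a (l 6) (l 1)))) (b (a (b (a (b (l 170221478327) (l 368326852071)) (l 1)) (l 1)) (l 1)) (l 1)))), by decide +kernel⟩

def k2_pp_022_a : ∃ t, chk3 f_pp_022_a t 5 1 1 = true :=
  ⟨(b (a (a (b (b (l 16493704) (l 170221114007)) (b (c (l 205117795351) (l 16548256)) (b (c (l 242161918615) (l 16578008)) (l 470868974791)))) (b (l 964253375815) (l 1))) (l 1)) (b (l 1) (l 1))), by decide +kernel⟩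

def k3_pp_022_a : ∃ t, chk3 f_pp_022_a t 3 1 1 = true :=
  ⟨(l 1), by decide +kernel⟩

theorem s4_pp_022_a : ∃ t, chk3 f_pp_022_a t 4 1 1 = true := ex3_b k0_pp_022_a k1_pp_022_a

theorem s5_pp_022_a : ∃ t, chk3 f_pp_022_a t 2 1 1 = true := ex3_a s4_pp_022_a k2_pp_022_a

theorem s6_pp_022_a : ∃ t, chk3 f_pp_022_a t 1 1 1 = true := ex3_a s5_pp_022_a k3_pp_022_a

theorem c_pp_022_a : CertB 0 536870912 0 536870912 587336777 62277027 3 eng mog cd2q0 cd1q2a pd2 false true true .pp 0 2 2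
    ndB2q0 ndB1q2a pcB2 cut_pp_022_a Ext.none :=
  certB0 (fam := false) (s1 := true) (s2 := true) (a := 0) (b := 2) (c := 2) (cn := .pp) (n1 := ndB2q0) (n2 := ndB1q2a) (pc := pcB2) (cut := cut_pp_022_a) (xt := Ext.none) (P1 := 0) (W1 := 536870912) (P2 := 0) (W2 := 536870912) (P3 := 587336777) (W3 := 62277027) (N0 := 3) (En := eng) (mo := mog) (C1 := cd2q0) (C2 := cd1q2a) (C3 := pd2)
    rfl s6_pp_022_a

noncomputable def cut_pp_022_b : Cut := Cut.of [[⟨0, 0, 0, 67108864⟩, ⟨1, 1, 0, 67108864⟩, ⟨2, 1, 0, 67108864⟩]]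

noncomputable def f_pp_022_b : ℕ → ℕ → ℕ → ℕ → Bool := onCell 0 536870912 1073741824 536870912 587336777 62277027
    (rowB 3 eng mog cd2q0 cd1q2b pd2 1 false true true .pp 0 2 2 (qsf 0 536870912 1239849684 370763052 2) ndB2q0 ndB1q2b pcB2 cut_pp_022_b Ext.none)

def k0_pp_022_b : ∃ t, chk3 f_pp_022_b t 1 1 1 = true :=
  ⟨(b (a (b (a (a (b (l 1) (a (l 264173531207) (b (l 16529416) (l 16465560)))) (b (a (l 96670091399) (l 16550208)) (l 16521712))) (a (b (a (l 16496184) (l 16407920)) (l 16350800)) (b (l 16352352) (l 16276536)))) (a (b (a (a (b (l 48888232983) (l 16454728)) (l 16518096)) (b (l 16329936) (l 16273464))) (a (a (l 16456232) (l 16260536)) (l 16181848))) (b (a (l 16234176) (l 16205112)) (l 16137232)))) (b (a (b (l 16294440) (l 16251192)) (l 16324264)) (a (b (l 16211968) (l 16186072)) (l 16319640)))) (b (a (a (b (a (a (l 16219016) (l 16178928)) (l 16111440)) (a (b (l 16148296) (l 16139024)) (l 16074704))) (b (l 16040408) (l 15941608))) (b (l 16284360)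 (l 2))) (a (a (b (a (l 16145296) (l 16109656)) (l 16257352)) (b (l 16041744) (l 2))) (l 2)))), by decide +kernel⟩

theorem c_pp_022_b : CertB 0 536870912 1239849684 370763052 587336777 62277027 3 eng mog cd2q0 cd1q2b pd2 false true true .pp 0 2 2
    ndB2q0 ndB1q2b pcB2 cut_pp_022_b Ext.none :=
  certB1 (fam := false) (s1 := true) (s2 := true) (a := 0) (b := 2) (c := 2) (cn := .pp) (n1 := ndB2q0) (n2 := ndB1q2b) (pc := pcB2) (cut := cut_pp_022_b) (xt := Ext.none) (P1 := 0) (W1 := 536870912) (P2 := 1239849684) (W2 := 370763052) (P3 := 587336777) (W3 := 62277027) (N0 := 3) (En := eng) (mo := mog) (C1 := cd2q0) (C2 := cd1q2b) (C3 := pd2)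
    rfl (fun _ => rfl) k0_pp_022_b

noncomputable def f_pp_023 : ℕ → ℕ → ℕ → ℕ → Bool := onCell 0 536870912 1073741824 536870912 587336777 62277027
    (rowB 3 eng mog cd2q0 cd1q3 pd2 1 false true true .up 0 2 3 (qsf 0 536870912 1610612736 536870912 2) ndB2q0 ndB1q3 pcB2 Cut.none Ext.none)

def k0_pp_023 : ∃ t, chk3 f_pp_023 t 1 1 1 = true :=
  ⟨(b (a (b (l 1) (a (l 1) (b (l 1) (l 16140424)))) (b (a (l 219613253975) (l 16334888)) (b (l 220150099495) (l 251825397079)))) (b (a (a (b (l 1) (l 366715551367)) (l 293700964199)) (b (l 16291088) (l 16409160))) (a (a (b (l 460667554455) (l 16200768)) (b (l 16028888) (l 16270760))) (b (l 16516064) (l 16591448))))), by decide +kernel⟩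

theorem c_pp_023 : CertB 0 536870912 1610612736 536870912 587336777 62277027 3 eng mog cd2q0 cd1q3 pd2 false true true .up 0 2 3
    ndB2q0 ndB1q3 pcB2 Cut.none Ext.none :=
  certB1 (fam := false) (s1 := true) (s2 := true) (a := 0) (b := 2) (c := 3) (cn := .up) (n1 := ndB2q0) (n2 := ndB1q3) (pc := pcB2) (cut := Cut.none) (xt := Ext.none) (P1 := 0) (W1 := 536870912) (P2 := 1610612736) (W2 := 536870912) (P3 := 587336777) (W3 := 62277027) (N0 := 3) (En := eng) (mo := mog) (C1 := cd2q0) (C2 := cd1q3) (C3 := pd2)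
    rfl (fun _ => rfl) k0_pp_023

noncomputable def f_pp_033 : ℕ → ℕ → ℕ → ℕ → Bool := onCell 0 536870912 1610612736 536870912 587336777 62277027
    (rowB 3 eng mog cd2q0 cd1q3 pd3 1 false true true .pnn 0 3 3 (qsf 0 536870912 1610612736 536870912 3) ndB2q0 ndB1q3 pcB3 Cut.none Ext.none)

def k0_pp_033 : ∃ t, chk3 f_pp_033 t 1 1 1 = true :=
  ⟨(a (b (b (b (a (l 16181928) (l 16403304)) (a (l 16312016) (l 16481848))) (b (a (l 16435096) (l 4)) (l 4))) (b (l 4) (a (l 4) (a (b (l 4) (l 2)) (l 2))))) (b (b (b (l 16636696) (l 16667856)) (a (l 4) (a (b (l 4) (l 2)) (l 2)))) (a (b (a (b (l 4) (l 2)) (l 2)) (l 2)) (l 2)))), by decide +kernel⟩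

theorem c_pp_033 : CertB 0 536870912 1610612736 536870912 587336777 62277027 3 eng mog cd2q0 cd1q3 pd3 false true true .pnn 0 3 3
    ndB2q0 ndB1q3 pcB3 Cut.none Ext.none :=
  certB1 (fam := false) (s1 := true) (s2 := true) (a := 0) (b := 3) (c := 3) (cn := .pnn) (n1 := ndB2q0) (n2 := ndB1q3) (pc := pcB3) (cut := Cut.none) (xt := Ext.none) (P1 := 0) (W1 := 536870912) (P2 := 1610612736) (W2 := 536870912) (P3 := 587336777) (W3 := 62277027) (N0 := 3) (En := eng) (mo := mog) (C1 := cd2q0) (C2 := cd1q3) (C3 := pd3)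
    rfl (fun _ => rfl) k0_pp_033

noncomputable def f_pp_101 : ℕ → ℕ → ℕ → ℕ → Bool := onCell 536870912 536870912 536870912 536870912 587336777 62277027
    (rowB 3 eng mog cd2q1 cd1q1 pd0 0 false true true .npn 1 0 1 (qsf 536870912 536870912 536870912 536870912 0) ndB2q1 ndB1q1 pcB0 Cut.none Ext.none)

def k0_pp_101 : ∃ t, chk3 f_pp_101 t 1 1 1 = true :=
  ⟨(l 3), by decide +kernel⟩

theorem c_pp_101 : CertB 536870912 536870912 536870912 536870912 587336777 62277027 3 eng mog cd2q1 cd1q1 pd0 false true true .npn 1 0 1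
    ndB2q1 ndB1q1 pcB0 Cut.none Ext.none :=
  certB0 (fam := false) (s1 := true) (s2 := true) (a := 1) (b := 0) (c := 1) (cn := .npn) (n1 := ndB2q1) (n2 := ndB1q1) (pc := pcB0) (cut := Cut.none) (xt := Ext.none) (P1 := 536870912) (W1 := 536870912) (P2 := 536870912) (W2 := 536870912) (P3 := 587336777) (W3 := 62277027) (N0 := 3) (En := eng) (mo := mog) (C1 := cd2q1) (C2 := cd1q1) (C3 := pd0)
    rfl k0_pp_101

noncomputable def f_pp_102_a : ℕ → ℕ → ℕ → ℕ → Bool := onCell 0 536870912 0 536870912 587336777 62277027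
    (rowB 3 eng mog cd2q1 cd1q2a pd0 2 false true true .npp 1 0 2 (qsf 536870912 536870912 0 536870912 0) ndB2q1 ndB1q2a pcB0 Cut.none Ext.none)

def k0_pp_102_a : ∃ t, chk3 f_pp_102_a t 1 1 1 = true :=
  ⟨(b (a (l 3) (a (l 3) (a (l 3) (b (b (a (b (a (b (l 190756726583) (l 3)) (b (l 180556194871) (l 192904209399))) (l 3)) (b (a (b (l 16684208) (l 179482451911)) (b (l 16693232) (l 16683728))) (a (l 3) (b (l 199346673751) (l 3))))) (l 3)) (l 3))))) (l 3)), by decide +kernel⟩

theorem c_pp_102_a : CertB 536870912 536870912 0 536870912 587336777 62277027 3 eng mog cd2q1 cd1q2a pd0 false true true .npp 1 0 2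
    ndB2q1 ndB1q2a pcB0 Cut.none Ext.none :=
  certB2 (fam := false) (s1 := true) (s2 := true) (a := 1) (b := 0) (c := 2) (cn := .npp) (n1 := ndB2q1) (n2 := ndB1q2a) (pc := pcB0) (cut := Cut.none) (xt := Ext.none) (P1 := 536870912) (W1 := 536870912) (P2 := 0) (W2 := 536870912) (P3 := 587336777) (W3 := 62277027) (N0 := 3) (En := eng) (mo := mog) (C1 := cd2q1) (C2 := cd1q2a) (C3 := pd0)
    rfl (fun _ => rfl) k0_pp_102_a

noncomputable def f_pp_102_b : ℕ → ℕ → ℕ → ℕ → Bool := onCell 0 536870912 1239849684 370763052 587336777 62277027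
    (rowB 3 eng mog cd2q1 cd1q2b pd0 2 false true true .npp 1 0 2 (qsf 536870912 536870912 1239849684 370763052 0) ndB2q1 ndB1q2b pcB0 Cut.none Ext.none)

def k0_pp_102_b : ∃ t, chk3 f_pp_102_b t 1 1 1 = true :=
  ⟨(a (l 3) (a (b (l 3) (l 3)) (b (a (b (l 3) (l 3)) (b (b (b (a (a (l 190756742471) (l 16673512)) (l 16708584)) (a (a (l 3) (l 16660120)) (l 16675104))) (a (l 3) (a (l 16648752) (l 16659960)))) (a (l 3) (b (a (l 3) (l 16630808)) (l 3))))) (a (l 3) (l 3))))), by decide +kernel⟩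

theorem c_pp_102_b : CertB 536870912 536870912 1239849684 370763052 587336777 62277027 3 eng mog cd2q1 cd1q2b pd0 false true true .npp 1 0 2
    ndB2q1 ndB1q2b pcB0 Cut.none Ext.none :=
  certB2 (fam := false) (s1 := true) (s2 := true) (a := 1) (b := 0) (c := 2) (cn := .npp) (n1 := ndB2q1) (n2 := ndB1q2b) (pc := pcB0) (cut := Cut.none) (xt := Ext.none) (P1 := 536870912) (W1 := 536870912) (P2 := 1239849684) (W2 := 370763052) (P3 := 587336777) (W3 := 62277027) (N0 := 3) (En := eng) (mo := mog) (C1 := cd2q1) (C2 := cd1q2b) (C3 := pd0)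
    rfl (fun _ => rfl) k0_pp_102_b

noncomputable def f_pp_112_a : ℕ → ℕ → ℕ → ℕ → Bool := onCell 536870912 536870912 0 536870912 587336777 62277027
    (rowB 3 eng mog cd2q1 cd1q2a pd1 0 false true true .dn 1 1 2 (qsf 536870912 536870912 0 536870912 1) ndB2q1 ndB1q2a pcB1 Cut.none Ext.none)

def k0_pp_112_a : ∃ t, chk3 f_pp_112_a t 1 1 1 = true :=
  ⟨(a (b (a (b (a (b (b (l 16723968) (l 16726584)) (a (b (l 16725608) (a (b (l 16722936) (l 16717896)) (b (l 16719040) (l 16711272)))) (a (b (l 16722128) (b (l 16712752) (l 16701656))) (b (l 16717104) (b (l 16703528) (l 94656846583)))))) (b (a (b (l 16725520) (b (l 16722064) (l 16717192))) (a (b (l 16721208) (l 16710536)) (b (l 16716416) (a (l 16704344) (l 16699192))))) (a (a (b (b (l 16713952) (l 16704648)) (b (l 16691120) (l 149417680135))) (b (l 16699792) (b (l 146196460615) (l 3)))) (b (b (a (l 16694632) (l 126332228375)) (a (l 137606511303) (l 179482437575))) (b (a (l 181093045767) (l 3)) (l 3)))))) (a (b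 (a (b (b (a (l 16709432) (l 16699200)) (a (l 27011127927) (b (a (l 16690008) (l 16682176)) (l 134385298711)))) (b (a (b (a (l 16684696) (l 133848467159)) (l 144048982935)) (l 3)) (l 3))) (b (b (a (a (l 16688944) (l 120426638951)) (l 156396995143)) (a (l 161228825255) (l 3))) (l 3))) (l 3)) (l 3))) (a (b (b (a (a (b (l 16710224) (b (l 16697088) (l 123111017623))) (b (b (l 16706568) (l 16697968)) (b (l 120963548967) (l 186998659047)))) (l 1)) (a (b (a (b (l 177871828823) (l 3)) (l 3)) (l 3)) (l 1))) (l 3)) (l 1))) (l 3)) (l 1)), by decide +kernel⟩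

theorem c_pp_112_a : CertB 536870912 536870912 0 536870912 587336777 62277027 3 eng mog cd2q1 cd1q2a pd1 false true true .dn 1 1 2
    ndB2q1 ndB1q2a pcB1 Cut.none Ext.none :=
  certB0 (fam := false) (s1 := true) (s2 := true) (a := 1) (b := 1) (c := 2) (cn := .dn) (n1 := ndB2q1) (n2 := ndB1q2a) (pc := pcB1) (cut := Cut.none) (xt := Ext.none) (P1 := 536870912) (W1 := 536870912) (P2 := 0) (W2 := 536870912) (P3 := 587336777) (W3 := 62277027) (N0 := 3) (En := eng) (mo := mog) (C1 := cd2q1) (C2 := cd1q2a) (C3 := pd1)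
    rfl k0_pp_112_a

noncomputable def f_pp_112_b : ℕ → ℕ → ℕ → ℕ → Bool := onCell 536870912 536870912 536870912 536870912 587336777 62277027
    (rowB 3 eng mog cd2q1 cd1q2b pd1 1 false true true .dn 1 1 2 (qsf 536870912 536870912 1239849684 370763052 1) ndB2q1 ndB1q2b pcB1 Cut.none Ext.none)

def k0_pp_112_b : ∃ t, chk3 f_pp_112_b t 1 1 1 = true :=
  ⟨(b (b (a (a (b (a (l 1) (b (l 234109247063) (l 16726240))) (a (l 173979748727) (l 16720992))) (b (b (a (a (l 16712616) (l 16698744)) (b (l 16671112) (l 16674632))) (a (l 16707048) (a (l 16688704) (l 16673512)))) (a (l 16712920) (b (l 16694680) (l 16713776))))) (a (b (a (b (a (l 16639856) (l 3)) (l 133848638279)) (l 3)) (a (b (l 16713240) (a (l 16708856) (l 16702000))) (b (a (l 16646672) (l 3)) (a (l 16691464) (l 168208276103))))) (l 3))) (a (a (b (a (l 16710688) (l 16714664)) (l 16717648)) (b (l 16741272) (l 16792504))) (b (a (a (b (l 16747952) (l 16805024)) (b (a (l 16753152) (l 16749416)) (l 115527953703)))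 (a (b (a (l 218674179239) (l 2)) (l 2)) (l 2))) (a (a (l 16925224) (b (l 16899024) (l 2))) (l 2))))) (b (a (a (b (l 16681032) (l 16667520)) (b (l 16865096) (l 16961616))) (a (b (l 17113056) (l 2)) (l 2))) (a (a (a (l 16597504) (l 16733800)) (l 16745976)) (l 2)))), by decide +kernel⟩

theorem c_pp_112_b : CertB 536870912 536870912 1239849684 370763052 587336777 62277027 3 eng mog cd2q1 cd1q2b pd1 false true true .dn 1 1 2
    ndB2q1 ndB1q2b pcB1 Cut.none Ext.none :=
  certB1 (fam := false) (s1 := true) (s2 := true) (a := 1) (b := 1) (c := 2) (cn := .dn) (n1 := ndB2q1) (n2 := ndB1q2b) (pc := pcB1) (cut := Cut.none) (xt := Ext.none) (P1 := 536870912) (W1 := 536870912) (P2 := 1239849684) (W2 := 370763052) (P3 := 587336777) (W3 := 62277027) (N0 := 3) (En := eng) (mo := mog) (C1 := cd2q1) (C2 := cd1q2b) (C3 := pd1)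
    rfl (fun _ => rfl) k0_pp_112_b

noncomputable def f_pp_113 : ℕ → ℕ → ℕ → ℕ → Bool := onCell 536870912 536870912 536870912 536870912 587336777 62277027
    (rowB 3 eng mog cd2q1 cd1q3 pd1 1 false true true .nn 1 1 3 (qsf 536870912 536870912 1610612736 536870912 1) ndB2q1 ndB1q3 pcB1 Cut.none Ext.none)

def k0_pp_113 : ∃ t, chk3 f_pp_113 t 1 1 1 = true :=
  ⟨(b (b (a (l 1) (a (b (l 1) (a (l 1) (b (l 1) (a (l 1) (l 183777493495))))) (l 3))) (a (a (l 1) (b (l 1) (l 16793008))) (b (a (a (l 234646137335) (b (a (l 16744264) (l 16736840)) (l 16808184))) (a (b (l 223505964919) (l 128479733703)) (l 3))) (a (a (l 16920808) (b (l 16881768) (l 16934808))) (a (b (l 16725848) (l 16814848)) (b (a (l 273971860375) (l 3)) (b (l 187536026375) (l 187536054247)))))))) (b (a (a (l 189549108263) (b (l 16869048) (l 16971904))) (a (b (l 17094096) (l 17124032)) (b (a (b (l 16891144) (l 16927360)) (b (l 189683745799) (l 17057912))) (a (l 16981504) (b (l 16870144) (l 16886736))))))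 (a (a (l 191696232711) (l 16908744)) (a (b (l 17016984) (l 16934712)) (b (l 16945712) (l 16885280)))))), by decide +kernel⟩

theorem c_pp_113 : CertB 536870912 536870912 1610612736 536870912 587336777 62277027 3 eng mog cd2q1 cd1q3 pd1 false true true .nn 1 1 3
    ndB2q1 ndB1q3 pcB1 Cut.none Ext.none :=
  certB1 (fam := false) (s1 := true) (s2 := true) (a := 1) (b := 1) (c := 3) (cn := .nn) (n1 := ndB2q1) (n2 := ndB1q3) (pc := pcB1) (cut := Cut.none) (xt := Ext.none) (P1 := 536870912) (W1 := 536870912) (P2 := 1610612736) (W2 := 536870912) (P3 := 587336777) (W3 := 62277027) (N0 := 3) (En := eng) (mo := mog) (C1 := cd2q1) (C2 := cd1q3) (C3 := pd1)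
    rfl (fun _ => rfl) k0_pp_113

noncomputable def f_pp_123 : ℕ → ℕ → ℕ → ℕ → Bool := onCell 1073741824 536870912 1610612736 536870912 587336777 62277027
    (rowB 3 eng mog cd2q1 cd1q3 pd2 2 false true true .npn 1 2 3 (qsf 536870912 536870912 1610612736 536870912 2) ndB2q1 ndB1q3 pcB2 Cut.none Ext.none)

def k0_pp_123 : ∃ t, chk3 f_pp_123 t 1 1 1 = true :=
  ⟨(a (a (b (b (l 16530064) (l 16721720)) (b (a (l 16837856) (l 16747544)) (a (l 16798032) (l 16733232)))) (b (b (l 253973365943) (l 16557680)) (b (a (l 16673464) (l 16637104)) (l 16720992)))) (a (b (b (l 1) (l 16516952)) (b (l 16613784) (a (l 16664392) (l 16664688)))) (b (l 1) (l 297460405495)))), by decide +kernel⟩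

theorem c_pp_123 : CertB 536870912 536870912 1610612736 536870912 587336777 62277027 3 eng mog cd2q1 cd1q3 pd2 false true true .npn 1 2 3
    ndB2q1 ndB1q3 pcB2 Cut.none Ext.none :=
  certB2 (fam := false) (s1 := true) (s2 := true) (a := 1) (b := 2) (c := 3) (cn := .npn) (n1 := ndB2q1) (n2 := ndB1q3) (pc := pcB2) (cut := Cut.none) (xt := Ext.none) (P1 := 536870912) (W1 := 536870912) (P2 := 1610612736) (W2 := 536870912) (P3 := 587336777) (W3 := 62277027) (N0 := 3) (En := eng) (mo := mog) (C1 := cd2q1) (C2 := cd1q3) (C3 := pd2)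
    rfl (fun _ => rfl) k0_pp_123

noncomputable def f_pp_133 : ℕ → ℕ → ℕ → ℕ → Bool := onCell 1610612736 536870912 1610612736 536870912 587336777 62277027
    (rowB 3 eng mog cd2q1 cd1q3 pd3 2 false true true .dn 1 3 3 (qsf 536870912 536870912 1610612736 536870912 3) ndB2q1 ndB1q3 pcB3 Cut.none Ext.none)

def k0_pp_133 : ∃ t, chk3 f_pp_133 t 1 1 1 = true :=
  ⟨(a (b (l 1) (a (a (l 16682384) (l 1)) (l 1))) (l 1)), by decide +kernel⟩

theorem c_pp_133 : CertB 536870912 536870912 1610612736 536870912 587336777 62277027 3 eng mog cd2q1 cd1q3 pd3 false true true .dn 1 3 3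
    ndB2q1 ndB1q3 pcB3 Cut.none Ext.none :=
  certB2 (fam := false) (s1 := true) (s2 := true) (a := 1) (b := 3) (c := 3) (cn := .dn) (n1 := ndB2q1) (n2 := ndB1q3) (pc := pcB3) (cut := Cut.none) (xt := Ext.none) (P1 := 536870912) (W1 := 536870912) (P2 := 1610612736) (W2 := 536870912) (P3 := 587336777) (W3 := 62277027) (N0 := 3) (En := eng) (mo := mog) (C1 := cd2q1) (C2 := cd1q3) (C3 := pd3)
    rfl (fun _ => rfl) k0_pp_133

noncomputable def f_pp_202_aa : ℕ → ℕ → ℕ → ℕ → Bool := onCell 0 536870912 0 536870912 587336777 62277027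
    (rowB 3 eng mog cd2q2a cd1q2a pd0 0 false true true .pp 2 0 2 (qsf 0 536870912 0 536870912 0) ndB2q2a ndB1q2a pcB0 Cut.none Ext.none)

def k0_pp_202_aa : ∃ t, chk3 f_pp_202_aa t 1 1 1 = true :=
  ⟨(l 3), by decide +kernel⟩

theorem c_pp_202_aa : CertB 0 536870912 0 536870912 587336777 62277027 3 eng mog cd2q2a cd1q2a pd0 false true true .pp 2 0 2
    ndB2q2a ndB1q2a pcB0 Cut.none Ext.none :=
  certB0 (fam := false) (s1 := true) (s2 := true) (a := 2) (b := 0) (c := 2) (cn := .pp) (n1 := ndB2q2a) (n2 := ndB1q2a) (pc := pcB0) (cut := Cut.none) (xt := Ext.none) (P1 := 0) (W1 := 536870912) (P2 := 0) (W2 := 536870912) (P3 := 587336777) (W3 := 62277027) (N0 := 3) (En := eng) (mo := mog) (C1 := cd2q2a) (C2 := cd1q2a) (C3 := pd0)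
    rfl k0_pp_202_aa

noncomputable def f_pp_202_ab : ℕ → ℕ → ℕ → ℕ → Bool := onCell 0 536870912 1239849684 370763052 587336777 62277027
    (rowB 3 eng mog cd2q2a cd1q2b pd0 0 false true true .pp 2 0 2 (qsf 0 536870912 1239849684 370763052 0) ndB2q2a ndB1q2b pcB0 Cut.none Ext.none)

def k0_pp_202_ab : ∃ t, chk3 f_pp_202_ab t 1 1 1 = true :=
  ⟨(l 3), by decide +kernel⟩

theorem c_pp_202_ab : CertB 0 536870912 1239849684 370763052 587336777 62277027 3 eng mog cd2q2a cd1q2b pd0 false true true .pp 2 0 2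
    ndB2q2a ndB1q2b pcB0 Cut.none Ext.none :=
  certB0 (fam := false) (s1 := true) (s2 := true) (a := 2) (b := 0) (c := 2) (cn := .pp) (n1 := ndB2q2a) (n2 := ndB1q2b) (pc := pcB0) (cut := Cut.none) (xt := Ext.none) (P1 := 0) (W1 := 536870912) (P2 := 1239849684) (W2 := 370763052) (P3 := 587336777) (W3 := 62277027) (N0 := 3) (En := eng) (mo := mog) (C1 := cd2q2a) (C2 := cd1q2b) (C3 := pd0)
    rfl k0_pp_202_ab

noncomputable def f_pp_202_ba : ℕ → ℕ → ℕ → ℕ → Bool := onCell 1239849684 370763052 0 536870912 587336777 62277027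
    (rowB 3 eng mog cd2q2b cd1q2a pd0 0 false true true .pp 2 0 2 (qsf 1239849684 370763052 0 536870912 0) ndB2q2b ndB1q2a pcB0 Cut.none Ext.none)

def k0_pp_202_ba : ∃ t, chk3 f_pp_202_ba t 1 1 1 = true :=
  ⟨(l 3), by decide +kernel⟩

theorem c_pp_202_ba : CertB 1239849684 370763052 0 536870912 587336777 62277027 3 eng mog cd2q2b cd1q2a pd0 false true true .pp 2 0 2
    ndB2q2b ndB1q2a pcB0 Cut.none Ext.none :=
  certB0 (fam := false) (s1 := true) (s2 := true) (a := 2) (b := 0) (c := 2) (cn := .pp) (n1 := ndB2q2b) (n2 := ndB1q2a) (pc := pcB0) (cut := Cut.none) (xt := Ext.none) (P1 := 1239849684) (W1 := 370763052) (P2 := 0) (W2 := 536870912) (P3 := 587336777) (W3 := 62277027) (N0 := 3) (En := eng) (mo := mog) (C1 := cd2q2b) (C2 := cd1q2a) (C3 := pd0)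
    rfl k0_pp_202_ba

noncomputable def f_pp_202_bb : ℕ → ℕ → ℕ → ℕ → Bool := onCell 1239849684 370763052 1239849684 370763052 587336777 62277027
    (rowB 3 eng mog cd2q2b cd1q2b pd0 0 false true true .pp 2 0 2 (qsf 1239849684 370763052 1239849684 370763052 0) ndB2q2b ndB1q2b pcB0 Cut.none Ext.none)

def k0_pp_202_bb : ∃ t, chk3 f_pp_202_bb t 1 1 1 = true :=
  ⟨(l 3), by decide +kernel⟩

theorem c_pp_202_bb : CertB 1239849684 370763052 1239849684 370763052 587336777 62277027 3 eng mog cd2q2b cd1q2b pd0 false true true .pp 2 0 2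
    ndB2q2b ndB1q2b pcB0 Cut.none Ext.none :=
  certB0 (fam := false) (s1 := true) (s2 := true) (a := 2) (b := 0) (c := 2) (cn := .pp) (n1 := ndB2q2b) (n2 := ndB1q2b) (pc := pcB0) (cut := Cut.none) (xt := Ext.none) (P1 := 1239849684) (W1 := 370763052) (P2 := 1239849684) (W2 := 370763052) (P3 := 587336777) (W3 := 62277027) (N0 := 3) (En := eng) (mo := mog) (C1 := cd2q2b) (C2 := cd1q2b) (C3 := pd0)
    rfl k0_pp_202_bb

noncomputable def f_pp_203_a : ℕ → ℕ → ℕ → ℕ → Bool := onCell 0 536870912 0 536870912 587336777 62277027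
    (rowB 3 eng mog cd2q2a cd1q3 pd0 1 false true true .up 2 0 3 (qsf 0 536870912 1610612736 536870912 0) ndB2q2a ndB1q3 pcB0 Cut.none Ext.none)

def k0_pp_203_a : ∃ t, chk3 f_pp_203_a t 1 1 1 = true :=
  ⟨(l 3), by decide +kernel⟩

theorem c_pp_203_a : CertB 0 536870912 1610612736 536870912 587336777 62277027 3 eng mog cd2q2a cd1q3 pd0 false true true .up 2 0 3
    ndB2q2a ndB1q3 pcB0 Cut.none Ext.none :=
  certB1 (fam := false) (s1 := true) (s2 := true) (a := 2) (b := 0) (c := 3) (cn := .up) (n1 := ndB2q2a) (n2 := ndB1q3) (pc := pcB0) (cut := Cut.none) (xt := Ext.none) (P1 := 0) (W1 := 536870912) (P2 := 1610612736) (W2 := 536870912) (P3 := 587336777) (W3 := 62277027) (N0 := 3) (En := eng) (mo := mog) (C1 := cd2q2a) (C2 := cd1q3) (C3 := pd0)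
    rfl (fun _ => rfl) k0_pp_203_a

noncomputable def f_pp_203_b : ℕ → ℕ → ℕ → ℕ → Bool := onCell 1239849684 370763052 1610612736 536870912 587336777 62277027
    (rowB 3 eng mog cd2q2b cd1q3 pd0 0 false true true .up 2 0 3 (qsf 1239849684 370763052 1610612736 536870912 0) ndB2q2b ndB1q3 pcB0 Cut.none Ext.none)

def k0_pp_203_b : ∃ t, chk3 f_pp_203_b t 1 1 1 = true :=
  ⟨(l 3), by decide +kernel⟩

theorem c_pp_203_b : CertB 1239849684 370763052 1610612736 536870912 587336777 62277027 3 eng mog cd2q2b cd1q3 pd0 false true true .up 2 0 3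
    ndB2q2b ndB1q3 pcB0 Cut.none Ext.none :=
  certB0 (fam := false) (s1 := true) (s2 := true) (a := 2) (b := 0) (c := 3) (cn := .up) (n1 := ndB2q2b) (n2 := ndB1q3) (pc := pcB0) (cut := Cut.none) (xt := Ext.none) (P1 := 1239849684) (W1 := 370763052) (P2 := 1610612736) (W2 := 536870912) (P3 := 587336777) (W3 := 62277027) (N0 := 3) (En := eng) (mo := mog) (C1 := cd2q2b) (C2 := cd1q3) (C3 := pd0)
    rfl k0_pp_203_b

noncomputable def cut_pp_213_a : Cut := Cut.of [[⟨0, 1, 0, 67108864⟩, ⟨1, 1, 0, 67108864⟩, ⟨2, 2, 0, 16777216⟩]]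

noncomputable def f_pp_213_a : ℕ → ℕ → ℕ → ℕ → Bool := onCell 0 536870912 1610612736 536870912 587336777 62277027
    (rowB 3 eng mog cd2q2a cd1q3 pd1 0 false true true .pnn 2 1 3 (qsf 0 536870912 1610612736 536870912 1) ndB2q2a ndB1q3 pcB1 cut_pp_213_a Ext.none)

def k0_pp_213_a : ∃ t, chk3 f_pp_213_a t 1 1 1 = true :=
  ⟨(b (l 3) (b (l 3) (a (l 3) (a (l 3) (b (l 3) (a (l 3) (b (l 3) (b (l 3) (b (l 3) (l 6)))))))))), by decide +kernel⟩

theorem c_pp_213_a : CertB 0 536870912 1610612736 536870912 587336777 62277027 3 eng mog cd2q2a cd1q3 pd1 false true true .pnn 2 1 3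
    ndB2q2a ndB1q3 pcB1 cut_pp_213_a Ext.none :=
  certB0 (fam := false) (s1 := true) (s2 := true) (a := 2) (b := 1) (c := 3) (cn := .pnn) (n1 := ndB2q2a) (n2 := ndB1q3) (pc := pcB1) (cut := cut_pp_213_a) (xt := Ext.none) (P1 := 0) (W1 := 536870912) (P2 := 1610612736) (W2 := 536870912) (P3 := 587336777) (W3 := 62277027) (N0 := 3) (En := eng) (mo := mog) (C1 := cd2q2a) (C2 := cd1q3) (C3 := pd1)
    rfl k0_pp_213_a

noncomputable def cut_pp_213_b : Cut := Cut.of [[⟨0, 1, 0, 67108864⟩, ⟨1, 1, 0, 67108864⟩, ⟨2, 2, 0, 16777216⟩]]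

noncomputable def f_pp_213_b : ℕ → ℕ → ℕ → ℕ → Bool := onCell 1239849684 370763052 1610612736 536870912 587336777 62277027
    (rowB 3 eng mog cd2q2b cd1q3 pd1 0 false true true .pnn 2 1 3 (qsf 1239849684 370763052 1610612736 536870912 1) ndB2q2b ndB1q3 pcB1 cut_pp_213_b Ext.none)

def k0_pp_213_b : ∃ t, chk3 f_pp_213_b t 1 1 1 = true :=
  ⟨(l 3), by decide +kernel⟩

theorem c_pp_213_b : CertB 1239849684 370763052 1610612736 536870912 587336777 62277027 3 eng mog cd2q2b cd1q3 pd1 false true true .pnn 2 1 3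
    ndB2q2b ndB1q3 pcB1 cut_pp_213_b Ext.none :=
  certB0 (fam := false) (s1 := true) (s2 := true) (a := 2) (b := 1) (c := 3) (cn := .pnn) (n1 := ndB2q2b) (n2 := ndB1q3) (pc := pcB1) (cut := cut_pp_213_b) (xt := Ext.none) (P1 := 1239849684) (W1 := 370763052) (P2 := 1610612736) (W2 := 536870912) (P3 := 587336777) (W3 := 62277027) (N0 := 3) (En := eng) (mo := mog) (C1 := cd2q2b) (C2 := cd1q3) (C3 := pd1)
    rfl k0_pp_213_b

noncomputable def f_pp_303 : ℕ → ℕ → ℕ → ℕ → Bool := onCell 1610612736 536870912 1610612736 536870912 587336777 62277027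
    (rowB 3 eng mog cd2q3 cd1q3 pd0 0 false true true .npn 3 0 3 (qsf 1610612736 536870912 1610612736 536870912 0) ndB2q3 ndB1q3 pcB0 Cut.none Ext.none)

def k0_pp_303 : ∃ t, chk3 f_pp_303 t 1 1 1 = true :=
  ⟨(l 3), by decide +kernel⟩

theorem c_pp_303 : CertB 1610612736 536870912 1610612736 536870912 587336777 62277027 3 eng mog cd2q3 cd1q3 pd0 false true true .npn 3 0 3
    ndB2q3 ndB1q3 pcB0 Cut.none Ext.none :=
  certB0 (fam := false) (s1 := true) (s2 := true) (a := 3) (b := 0) (c := 3) (cn := .npn) (n1 := ndB2q3) (n2 := ndB1q3) (pc := pcB0) (cut := Cut.none) (xt := Ext.none) (P1 := 1610612736) (W1 := 536870912) (P2 := 1610612736) (W2 := 536870912) (P3 := 587336777) (W3 := 62277027) (N0 := 3) (En := eng) (mo := mog) (C1 := cd2q3) (C2 := cd1q3) (C3 := pd0)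
    rfl k0_pp_303

noncomputable def f_pp_313 : ℕ → ℕ → ℕ → ℕ → Bool := onCell 1610612736 536870912 1610612736 536870912 587336777 62277027
    (rowB 3 eng mog cd2q3 cd1q3 pd1 0 false true true .dn 3 1 3 (qsf 1610612736 536870912 1610612736 536870912 1) ndB2q3 ndB1q3 pcB1 Cut.none Ext.none)

def k0_pp_313 : ∃ t, chk3 f_pp_313 t 1 1 1 = true :=
  ⟨(l 3), by decide +kernel⟩

theorem c_pp_313 : CertB 1610612736 536870912 1610612736 536870912 587336777 62277027 3 eng mog cd2q3 cd1q3 pd1 false true true .dn 3 1 3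
    ndB2q3 ndB1q3 pcB1 Cut.none Ext.none :=
  certB0 (fam := false) (s1 := true) (s2 := true) (a := 3) (b := 1) (c := 3) (cn := .dn) (n1 := ndB2q3) (n2 := ndB1q3) (pc := pcB1) (cut := Cut.none) (xt := Ext.none) (P1 := 1610612736) (W1 := 536870912) (P2 := 1610612736) (W2 := 536870912) (P3 := 587336777) (W3 := 62277027) (N0 := 3) (En := eng) (mo := mog) (C1 := cd2q3) (C2 := cd1q3) (C3 := pd1)
    rfl k0_pp_313

noncomputable def f_pm_001 : ℕ → ℕ → ℕ → ℕ → Bool := onCell 0 536870912 0 536870912 587336777 62277027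
    (rowB 3 eng mog cd2q0 cd1q1 pd0 1 false true false .up 0 0 1 (qsf 0 536870912 536870912 536870912 0) ndB2q0 ndB1q1 pcB0 Cut.none Ext.none)

def k0_pm_001 : ∃ t, chk3 f_pm_001 t 1 1 1 = true :=
  ⟨(a (l 4) (b (l 4) (b (l 4) (a (l 4) (a (l 4) (b (b (l 4) (a (l 4) (l 16350688))) (b (a (l 4) (l 16323008)) (a (l 16362112) (l 16300168))))))))), by decide +kernel⟩

theorem c_pm_001 : CertB 0 536870912 536870912 536870912 587336777 62277027 3 eng mog cd2q0 cd1q1 pd0 false true false .up 0 0 1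
    ndB2q0 ndB1q1 pcB0 Cut.none Ext.none :=
  certB1 (fam := false) (s1 := true) (s2 := false) (a := 0) (b := 0) (c := 1) (cn := .up) (n1 := ndB2q0) (n2 := ndB1q1) (pc := pcB0) (cut := Cut.none) (xt := Ext.none) (P1 := 0) (W1 := 536870912) (P2 := 536870912) (W2 := 536870912) (P3 := 587336777) (W3 := 62277027) (N0 := 3) (En := eng) (mo := mog) (C1 := cd2q0) (C2 := cd1q1) (C3 := pd0)
    rfl (fun _ => rfl) k0_pm_001

noncomputable def f_pm_011 : ℕ → ℕ → ℕ → ℕ → Bool := onCell 0 536870912 536870912 536870912 587336777 62277027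
    (rowB 3 eng mog cd2q0 cd1q1 pd1 0 false true false .pnn 0 1 1 (qsf 0 536870912 536870912 536870912 1) ndB2q0 ndB1q1 pcB1 Cut.none Ext.none)

def k0_pm_011 : ∃ t, chk3 f_pm_011 t 1 1 1 = true :=
  ⟨(b (l 4) (a (l 4) (b (l 4) (a (b (l 4) (a (l 4) (b (l 4) (a (b (l 4) (l 16443040)) (l 16484840))))) (a (b (l 4) (a (b (l 16419584) (l 16391576)) (b (l 16385912) (l 16359848)))) (b (b (l 1) (l 57679315527)) (b (a (l 16351064) (l 16314632)) (l 16330944)))))))), by decide +kernel⟩

theorem c_pm_011 : CertB 0 536870912 536870912 536870912 587336777 62277027 3 eng mog cd2q0 cd1q1 pd1 false true false .pnn 0 1 1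
    ndB2q0 ndB1q1 pcB1 Cut.none Ext.none :=
  certB0 (fam := false) (s1 := true) (s2 := false) (a := 0) (b := 1) (c := 1) (cn := .pnn) (n1 := ndB2q0) (n2 := ndB1q1) (pc := pcB1) (cut := Cut.none) (xt := Ext.none) (P1 := 0) (W1 := 536870912) (P2 := 536870912) (W2 := 536870912) (P3 := 587336777) (W3 := 62277027) (N0 := 3) (En := eng) (mo := mog) (C1 := cd2q0) (C2 := cd1q1) (C3 := pd1)
    rfl k0_pm_011

noncomputable def cut_pm_012_a : Cut := Cut.of [[⟨0, 0, 0, 67108864⟩, ⟨1, 1, 0, 67108864⟩, ⟨2, 1, 0, 67108864⟩]]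

noncomputable def f_pm_012_a : ℕ → ℕ → ℕ → ℕ → Bool := onCell 536870912 536870912 0 536870912 587336777 62277027
    (rowB 3 eng mog cd2q0 cd1q2a pd1 2 false true false .pnp 0 1 2 (qsf 0 536870912 0 536870912 1) ndB2q0 ndB1q2a pcB1 cut_pm_012_a Ext.none)

def k0_pm_012_a : ∃ t, chk3 f_pm_012_a t 2 1 1 = true :=
  ⟨(b (a (b (l 2) (a (l 2) (l 16612288))) (b (b (a (l 16671488) (l 16637448)) (l 16644376)) (a (l 16587096) (l 16560160)))) (b (a (b (a (l 2) (l 16534544)) (l 16639272)) (b (a (l 16522192) (l 16508904)) (a (l 16475560) (l 16477352)))) (a (b (a (l 16399792) (l 16422024)) (a (l 16382288) (b (l 16399616) (l 16391960)))) (b (a (l 16443168) (l 16463680)) (a (a (l 16448112) (l 16595080)) (b (l 16472144) (l 16487808))))))), by decide +kernel⟩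

def k1_pm_012_a : ∃ t, chk3 f_pm_012_a t 3 1 1 = true :=
  ⟨(b (a (b (a (l 16583680) (l 16647384)) (a (b (l 16544312) (l 16519008)) (b (l 16510216) (l 16493576)))) (a (b (a (l 16512912) (l 16493960)) (b (l 16480616) (l 16474688))) (b (a (l 16476288) (b (l 16466752) (l 16453816))) (a (b (l 16461240) (l 16464392)) (b (l 16450920) (l 16544272)))))) (a (b (a (b (l 16494984) (l 16479664)) (b (a (l 16484592) (l 16480784)) (a (l 16482368) (l 16487128)))) (a (b (b (l 16480576) (l 16491296)) (b (l 16572952) (a (l 16524640) (l 16550216)))) (a (b (l 16545816) (b (a (l 16535232) (l 16545856)) (l 16576616))) (b (l 16560552) (b (l 16563152) (b (l 16593384) (l 16616544))))))) (b (a (b (a (l 16478752) (l 16478400)) (a (l 16494048) (l 16503176))) (b (a (l 16480256) (a (l 16483208) (l 16485592))) (a (b (l 16503072) (l 16526696)) (a (l 16524216) (l 16572552))))) (b (a (a (b (l 16521536) (l 16550576)) (b (l 16538608) (l 16614568))) (b (a (l 16557296) (a (l 16571448) (l 16581136)))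 (a (a (l 16589584) (l 16600968)) (a (l 16612528) (b (l 16612592) (l 16636000)))))) (a (b (a (l 16588304) (b (l 16603232) (l 16626336))) (a (a (l 16690528) (l 16684744)) (a (l 16710336) (c (l 16721112) (l 16730184))))) (a (a (b (l 16655584) (a (l 16737656) (b (l 16677560) (l 16728304)))) (b (a (l 16644672) (l 16672408)) (b (l 16709776) (l 6)))) (b (b (a (l 16648352) (l 6)) (l 6)) (l 6)))))))), by decide +kernel⟩

theorem s2_pm_012_a : ∃ t, chk3 f_pm_012_a t 1 1 1 = true := ex3_a k0_pm_012_a k1_pm_012_a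

theorem c_pm_012_a : CertB 0 536870912 0 536870912 587336777 62277027 3 eng mog cd2q0 cd1q2a pd1 false true false .pnp 0 1 2
    ndB2q0 ndB1q2a pcB1 cut_pm_012_a Ext.none :=
  certB2 (fam := false) (s1 := true) (s2 := false) (a := 0) (b := 1) (c := 2) (cn := .pnp) (n1 := ndB2q0) (n2 := ndB1q2a) (pc := pcB1) (cut := cut_pm_012_a) (xt := Ext.none) (P1 := 0) (W1 := 536870912) (P2 := 0) (W2 := 536870912) (P3 := 587336777) (W3 := 62277027) (N0 := 3) (En := eng) (mo := mog) (C1 := cd2q0) (C2 := cd1q2a) (C3 := pd1)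
    rfl (fun _ => rfl) s2_pm_012_a

noncomputable def cut_pm_012_b : Cut := Cut.of [[⟨0, 0, 0, 67108864⟩, ⟨1, 1, 0, 67108864⟩, ⟨2, 1, 0, 67108864⟩]]

noncomputable def f_pm_012_b : ℕ → ℕ → ℕ → ℕ → Bool := onCell 536870912 536870912 1239849684 370763052 587336777 62277027
    (rowB 3 eng mog cd2q0 cd1q2b pd1 2 false true false .pnp 0 1 2 (qsf 0 536870912 1239849684 370763052 1) ndB2q0 ndB1q2b pcB1 cut_pm_012_b Ext.none)

def k0_pm_012_b : ∃ t, chk3 f_pm_012_b t 1 1 1 = true :=
  ⟨(a (a (l 2) (b (a (b (l 16687784) (l 2)) (b (l 16647480) (l 16663376))) (l 2))) (a (b (a (b (l 16599280) (l 16604552)) (b (a (l 16557352) (l 16528864)) (l 16531160))) (a (l 2) (b (l 16571864) (l 2)))) (b (a (b (a (l 16499584) (l 16469808)) (l 16449336)) (b (a (l 16440296) (l 16558712)) (a (l 16382064) (l 16335736)))) (a (b (l 16474376) (l 16557176)) (b (l 16362112) (l 16432240)))))), by decide +kernel⟩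

theorem c_pm_012_b : CertB 0 536870912 1239849684 370763052 587336777 62277027 3 eng mog cd2q0 cd1q2b pd1 false true false .pnp 0 1 2
    ndB2q0 ndB1q2b pcB1 cut_pm_012_b Ext.none :=
  certB2 (fam := false) (s1 := true) (s2 := false) (a := 0) (b := 1) (c := 2) (cn := .pnp) (n1 := ndB2q0) (n2 := ndB1q2b) (pc := pcB1) (cut := cut_pm_012_b) (xt := Ext.none) (P1 := 0) (W1 := 536870912) (P2 := 1239849684) (W2 := 370763052) (P3 := 587336777) (W3 := 62277027) (N0 := 3) (En := eng) (mo := mog) (C1 := cd2q0) (C2 := cd1q2b) (C3 := pd1)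
    rfl (fun _ => rfl) k0_pm_012_b

noncomputable def cut_pm_022_a : Cut := Cut.of [[⟨0, 0, 0, 67108864⟩, ⟨1, 1, 0, 67108864⟩, ⟨2, 1, 0, 67108864⟩]]

noncomputable def f_pm_022_a : ℕ → ℕ → ℕ → ℕ → Bool := onCell 0 536870912 0 536870912 587336777 62277027
    (rowB 3 eng mog cd2q0 cd1q2a pd2 0 false true false .pp 0 2 2 (qsf 0 536870912 0 536870912 2) ndB2q0 ndB1q2a pcB2 cut_pm_022_a Ext.none)

def k0_pm_022_a : ∃ t, chk3 f_pm_022_a t 1 1 1 = true :=
  ⟨(a (b (a (b (a (b (a (l 16457176) (l 16460632)) (a (b (l 16461488) (l 16467464)) (l 16464032))) (b (l 16461464) (a (l 16461248) (l 16456416)))) (a (b (a (b (l 16475792) (a (l 16487584) (l 16485080))) (b (l 16471944) (l 16479928))) (a (b (a (b (l 16497552) (l 16505128)) (l 16518480)) (a (b (l 16523896) (a (l 16523656) (l 16521048))) (l 16512576))) (b (l 16511096) (a (l 16506248) (l 16499048))))) (a (b (l 16510352) (b (l 16477616) (l 16486720))) (b (l 16521672) (b (l 16462464) (l 16467680)))))) (a (a (b (l 16453848)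 (b (b (l 16447536) (l 16445240)) (b (l 16444432) (l 16445120)))) (b (l 16445120) (l 1))) (l 1))) (a (b (a (a (b (b (a (a (b (l 16533560) (l 16533144)) (b (l 16530552) (l 16540808))) (b (l 16525528) (l 16535128))) (a (a (b (a (l 16554456) (l 16553576)) (a (l 16565472) (l 16564504))) (l 16536592)) (l 16571984))) (a (b (a (b (a (l 16577192) (l 16576128)) (l 16588904)) (l 16580464)) (a (b (l 16601752) (l 16615536)) (l 16616424))) (b (l 16574344) (l 16621352)))) (b (b (a (l 16522296) (l 16513264)) (a (l 16562024) (l 16530024))) (b (a (l 16562280) (l 16549048)) (a (l 16585984) (l 16570320))))) (b (a (b (l 16498024) (l 16511592)) (b (l 16474744) (l 16483672))) (a (b (l 16590016) (a (l 16553408) (l 16535264))) (b (l 16515040) (l 1))))) (a (a (b (b (b (a (a (l 16630016) (l 16626976)) (l 16621280)) (a (a (a (l 16645984) (l 16644456)) (l 16642008)) (l 16636128))) (l 6)) (l 6)) (a (b (b (l 16627480) (l 6)) (l 6)) (b (b (b (l 16587296) (l 16599320)) (b (l 16611120) (l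 16623064))) (l 1)))) (a (b (b (b (l 16579208) (l 16609880)) (l 1)) (l 1)) (l 1)))) (b (l 1) (l 1)))) (l 1)), by decide +kernel⟩

theorem c_pm_022_a : CertB 0 536870912 0 536870912 587336777 62277027 3 eng mog cd2q0 cd1q2a pd2 false true false .pp 0 2 2
    ndB2q0 ndB1q2a pcB2 cut_pm_022_a Ext.none :=
  certB0 (fam := false) (s1 := true) (s2 := false) (a := 0) (b := 2) (c := 2) (cn := .pp) (n1 := ndB2q0) (n2 := ndB1q2a) (pc := pcB2) (cut := cut_pm_022_a) (xt := Ext.none) (P1 := 0) (W1 := 536870912) (P2 := 0) (W2 := 536870912) (P3 := 587336777) (W3 := 62277027) (N0 := 3) (En := eng) (mo := mog) (C1 := cd2q0) (C2 := cd1q2a) (C3 := pd2)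
    rfl k0_pm_022_a

noncomputable def cut_pm_022_b : Cut := Cut.of [[⟨0, 0, 0, 67108864⟩, ⟨1, 1, 0, 67108864⟩, ⟨2, 1, 0, 67108864⟩]]

noncomputable def f_pm_022_b : ℕ → ℕ → ℕ → ℕ → Bool := onCell 0 536870912 1073741824 536870912 587336777 62277027
    (rowB 3 eng mog cd2q0 cd1q2b pd2 1 false true false .pp 0 2 2 (qsf 0 536870912 1239849684 370763052 2) ndB2q0 ndB1q2b pcB2 cut_pm_022_b Ext.none)

def k0_pm_022_b : ∃ t, chk3 f_pm_022_b t 1 1 1 = true :=
  ⟨(b (a (a (b (a (b (l 1) (a (l 356515381863) (l 58015238007))) (b (b (l 138009157223) (l 16575928)) (l 16509096))) (b (a (b (a (l 16495000) (l 16396968)) (l 16488816)) (b (l 16321520) (l 16311112))) (a (l 16396312) (l 16188624)))) (b (a (b (l 16513504) (l 16314104)) (l 16420312)) (b (a (l 16227344) (l 16200408)) (l 16334336)))) (b (a (a (l 16262544) (l 16265744)) (l 16333392)) (a (b (l 16215496) (l 16201472)) (l 16343472)))) (b (a (a (b (a (a (l 16216872) (l 16143568)) (l 16065680)) (a (a (l 16308848) (l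 16079304)) (l 16012152))) (b (l 16069960) (l 15969552))) (a (b (l 16184552) (l 2)) (l 2))) (a (a (b (a (l 16092680) (l 16037704)) (l 16217064)) (b (l 15984768) (l 2))) (l 2)))), by decide +kernel⟩

theorem c_pm_022_b : CertB 0 536870912 1239849684 370763052 587336777 62277027 3 eng mog cd2q0 cd1q2b pd2 false true false .pp 0 2 2
    ndB2q0 ndB1q2b pcB2 cut_pm_022_b Ext.none :=
  certB1 (fam := false) (s1 := true) (s2 := false) (a := 0) (b := 2) (c := 2) (cn := .pp) (n1 := ndB2q0) (n2 := ndB1q2b) (pc := pcB2) (cut := cut_pm_022_b) (xt := Ext.none) (P1 := 0) (W1 := 536870912) (P2 := 1239849684) (W2 := 370763052) (P3 := 587336777) (W3 := 62277027) (N0 := 3) (En := eng) (mo := mog) (C1 := cd2q0) (C2 := cd1q2b) (C3 := pd2)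
    rfl (fun _ => rfl) k0_pm_022_b

noncomputable def f_pm_023 : ℕ → ℕ → ℕ → ℕ → Bool := onCell 0 536870912 1073741824 536870912 587336777 62277027
    (rowB 3 eng mog cd2q0 cd1q3 pd2 1 false true false .up 0 2 3 (qsf 0 536870912 1610612736 536870912 2) ndB2q0 ndB1q3 pcB2 Cut.none Ext.none)

def k0_pm_023 : ∃ t, chk3 f_pm_023 t 1 1 1 = true :=
  ⟨(b (a (a (l 1) (b (l 1) (b (l 1) (l 16331528)))) (b (a (l 187400969335) (l 16322920)) (a (l 242698558519) (l 16328544)))) (b (b (a (a (l 1) (l 16062504)) (l 16342128)) (a (a (l 400538009351) (l 15954640)) (l 16401664))) (a (a (b (l 401612098839) (l 16169200)) (b (l 15993440) (l 16240456))) (b (l 16510464) (l 16586488))))), by decide +kernel⟩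

theorem c_pm_023 : CertB 0 536870912 1610612736 536870912 587336777 62277027 3 eng mog cd2q0 cd1q3 pd2 false true false .up 0 2 3
    ndB2q0 ndB1q3 pcB2 Cut.none Ext.none :=
  certB1 (fam := false) (s1 := true) (s2 := false) (a := 0) (b := 2) (c := 3) (cn := .up) (n1 := ndB2q0) (n2 := ndB1q3) (pc := pcB2) (cut := Cut.none) (xt := Ext.none) (P1 := 0) (W1 := 536870912) (P2 := 1610612736) (W2 := 536870912) (P3 := 587336777) (W3 := 62277027) (N0 := 3) (En := eng) (mo := mog) (C1 := cd2q0) (C2 := cd1q3) (C3 := pd2)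
    rfl (fun _ => rfl) k0_pm_023

noncomputable def f_pm_033 : ℕ → ℕ → ℕ → ℕ → Bool := onCell 0 536870912 1610612736 536870912 587336777 62277027
    (rowB 3 eng mog cd2q0 cd1q3 pd3 1 false true false .pnn 0 3 3 (qsf 0 536870912 1610612736 536870912 3) ndB2q0 ndB1q3 pcB3 Cut.none Ext.none)

def k0_pm_033 : ∃ t, chk3 f_pm_033 t 1 1 1 = true :=
  ⟨(a (b (b (b (a (l 16131256) (l 16384280)) (a (l 16292384) (l 16476160))) (l 4)) (b (l 4) (a (l 4) (a (b (l 4) (l 2)) (l 2))))) (b (b (b (l 16634712) (l 16668272)) (a (l 4) (a (b (l 4) (l 2)) (l 2)))) (a (b (a (b (l 4) (l 2)) (l 2)) (l 2)) (l 2)))), by decide +kernel⟩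

theorem c_pm_033 : CertB 0 536870912 1610612736 536870912 587336777 62277027 3 eng mog cd2q0 cd1q3 pd3 false true false .pnn 0 3 3
    ndB2q0 ndB1q3 pcB3 Cut.none Ext.none :=
  certB1 (fam := false) (s1 := true) (s2 := false) (a := 0) (b := 3) (c := 3) (cn := .pnn) (n1 := ndB2q0) (n2 := ndB1q3) (pc := pcB3) (cut := Cut.none) (xt := Ext.none) (P1 := 0) (W1 := 536870912) (P2 := 1610612736) (W2 := 536870912) (P3 := 587336777) (W3 := 62277027) (N0 := 3) (En := eng) (mo := mog) (C1 := cd2q0) (C2 := cd1q3) (C3 := pd3)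
    rfl (fun _ => rfl) k0_pm_033

noncomputable def f_pm_101 : ℕ → ℕ → ℕ → ℕ → Bool := onCell 0 536870912 536870912 536870912 587336777 62277027
    (rowB 3 eng mog cd2q1 cd1q1 pd0 2 false true false .npn 1 0 1 (qsf 536870912 536870912 536870912 536870912 0) ndB2q1 ndB1q1 pcB0 Cut.none Ext.none)

def k0_pm_101 : ∃ t, chk3 f_pm_101 t 1 1 1 = true :=
  ⟨(b (a (l 4) (l 4)) (a (a (b (a (b (a (b (l 16592936) (l 16576144)) (b (l 4) (l 16578632))) (a (b (l 16572728) (l 16577784)) (b (l 16567064) (l 16565832)))) (b (b (l 4) (a (l 16580888) (l 16582144))) (a (b (l 16560536) (l 16552752)) (b (l 16553584) (l 16538456))))) (b (a (b (a (l 16589896) (l 16572160)) (a (b (b (l 16599416) (l 16603016)) (l 16603168)) (b (l 16581184) (b (l 16584072) (l 16584856))))) (b (a (l 16552864) (l 16531960)) (a (b (l 16556808) (b (l 16560848) (l 16560368))) (b (l 16531096) (l 16533888))))) (b (a (a (l 16716120) (l 16585112)) (a (l 16561136) (b (l 16530936) (l 16531264)))) (a (a (l 16603128)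 (l 16580512)) (a (l 16558896) (l 16528752)))))) (b (b (l 4) (a (a (b (l 16546808) (l 16523136)) (b (l 16539944) (l 16506800))) (a (l 16512640) (l 16500112)))) (a (b (a (b (l 16510200) (l 16503752)) (b (l 16487848) (l 16475704))) (b (a (b (l 16584616) (l 16499016)) (b (l 16471080) (l 16465184))) (a (l 16495264) (l 16460368)))) (b (a (l 16455168) (l 16426464)) (b (a (b (l 16436032) (l 16428792)) (l 16400776)) (a (l 16422936) (l 16383648))))))) (a (a (b (b (l 4) (a (l 16486112) (l 4))) (b (a (l 16395096) (l 16360432)) (b (l 16486640) (a (l 16338176) (l 16285688))))) (b (l 4) (b (b (l 16474944) (l 16279048)) (b (l 16235224) (a (l 16233656) (l 16181232)))))) (b (l 4) (b (b (l 4) (a (a (l 16371384) (l 16365536)) (a (l 16399336) (l 1)))) (a (b (a (l 16251024) (l 16299120)) (a (l 16185128) (l 16239504))) (b (a (l 16339896) (l 16374200)) (a (l 16286240) (l 16322080))))))))), by decide +kernel⟩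

theorem c_pm_101 : CertB 536870912 536870912 536870912 536870912 587336777 62277027 3 eng mog cd2q1 cd1q1 pd0 false true false .npn 1 0 1
    ndB2q1 ndB1q1 pcB0 Cut.none Ext.none :=
  certB2 (fam := false) (s1 := true) (s2 := false) (a := 1) (b := 0) (c := 1) (cn := .npn) (n1 := ndB2q1) (n2 := ndB1q1) (pc := pcB0) (cut := Cut.none) (xt := Ext.none) (P1 := 536870912) (W1 := 536870912) (P2 := 536870912) (W2 := 536870912) (P3 := 587336777) (W3 := 62277027) (N0 := 3) (En := eng) (mo := mog) (C1 := cd2q1) (C2 := cd1q1) (C3 := pd0)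
    rfl (fun _ => rfl) k0_pm_101

noncomputable def f_pm_102_a : ℕ → ℕ → ℕ → ℕ → Bool := onCell 536870912 536870912 0 536870912 587336777 62277027
    (rowB 3 eng mog cd2q1 cd1q2a pd0 0 false true false .npp 1 0 2 (qsf 536870912 536870912 0 536870912 0) ndB2q1 ndB1q2a pcB0 Cut.none Ext.none)

def k0_pm_102_a : ∃ t, chk3 f_pm_102_a t 2 1 1 = true :=
  ⟨(b (a (b (l 2) (b (l 2) (l 312022406167))) (b (b (a (a (l 16734032) (l 16728224)) (b (a (l 16715520) (l 16701200)) (l 16716160))) (a (a (l 16729248) (l 16728952)) (b (l 16721264) (l 16723752)))) (a (b (l 16718560) (l 16688728)) (b (b (l 16808896) (l 16722624)) (a (l 16705672) (l 16714088)))))) (a (b (a (l 2) (b (b (l 16598832) (l 16547112)) (a (l 16479616) (l 16488104)))) (b (a (a (l 2) (l 16461008)) (b (a (l 16414312) (l 16408096)) (a (l 16369576) (l 16350320)))) (a (b (a (l 16448336) (b (l 16364232) (l 16343472))) (a (b (l 16358712) (l 16335856)) (a (l 16314848) (l 16291616)))) (b (a (b (l 16331824) (l 16303120))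 (l 16387296)) (a (l 16252304) (b (l 16254016) (l 16227664))))))) (b (a (b (a (b (l 16631944) (l 16582312)) (l 16631400)) (a (l 16502864) (l 16586696))) (b (a (l 16778672) (b (l 16688360) (l 16655736))) (a (b (l 16579616) (l 16515752)) (b (l 16608240) (l 16546448))))) (b (a (a (b (l 16408912) (l 16357680)) (b (l 16435176) (l 16414256))) (b (a (l 16477744) (l 16511352)) (l 16472544))) (a (b (a (a (l 16366992) (b (l 16363032) (l 16355232))) (b (l 16400232) (l 16388584))) (a (b (l 16330952) (l 16318968)) (l 16371072))) (a (b (l 16432488) (l 16414880)) (b (l 16470064) (l 16455512)))))))), by decide +kernel⟩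

def k1_pm_102_a : ∃ t, chk3 f_pm_102_a t 6 2 1 = true :=
  ⟨(b (a (b (a (b (a (b (l 16685328) (l 16690856)) (b (l 16675592) (l 16681248))) (l 16693888)) (b (a (b (l 16665152) (l 16670952)) (b (l 175724344407) (l 16660136))) (a (l 16679432) (b (l 16665808) (l 16671520))))) (a (b (l 16702568) (l 16709784)) (b (l 16684704) (l 16694024)))) (b (a (b (a (b (b (l 3) (l 165523769991)) (l 154249499319)) (b (l 3) (l 159618221191))) (a (b (l 16654632) (l 16660176)) (b (a (l 16645752) (l 16640008)) (a (l 16651560) (l 16645456))))) (b (l 3) (a (a (a (l 110762990407) (l 112373599287)) (l 146196464295)) (b (l 3) (l 144048972599))))) (a (b (a (l 16668600) (b (a (l 16656992) (l 16651040)) (l 16659728))) (l 16673936)) (b (a (b (a (l 16645120) (l 16638832)) (a (l 16650600) (l 16644440))) (a (b (l 16632640) (l 16638408)) (l 103783658823))) (a (l 16656264) (b (a (l 16644016) (l 16637712)) (l 16646864))))))) (a (b (a (b (l 16715496) (l 16719864)) (b (l 16702704) (l 16710688)))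 (a (l 16719000) (l 16718104))) (b (a (b (l 16684376) (l 16695360)) (b (a (l 16667856) (l 16656072)) (a (l 16680264) (l 16668856)))) (b (a (l 16705608) (a (l 16692768) (l 16682488))) (a (l 16713200) (l 16700120)))))), by decide +kernel⟩

def k2_pm_102_a : ∃ t, chk3 f_pm_102_a t 7 4 1 = true :=
  ⟨(a (b (l 3) (a (b (a (a (l 106468035815) (l 108078644999)) (a (l 112373593959) (l 3))) (a (b (a (l 16631648) (l 16625264)) (a (l 16637496) (l 16631144))) (b (a (l 16619136) (l 16613552)) (a (l 16625144) (l 16618936))))) (b (l 3) (a (a (b (l 113984176567) (l 96804331671)) (b (l 3) (l 113984186007))) (l 3))))) (l 3)), by decide +kernel⟩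

def k3_pm_102_a : ∃ t, chk3 f_pm_102_a t 14 5 1 = true :=
  ⟨(b (b (a (a (l 16643552) (b (a (l 16631120) (l 16624864)) (l 16634272))) (a (b (a (b (l 16617440) (l 16620456)) (b (l 16611616) (l 16614640))) (a (l 16625168) (b (l 16617656) (l 16620816)))) (b (a (l 102709889335) (l 140290837447)) (a (b (l 16612040) (l 16615152)) (l 112373518551))))) (a (a (l 16656784) (b (l 16641200) (l 16648120))) (a (b (l 16628992) (l 16636208)) (b (a (l 16640656) (b (l 16613056) (l 16616336))) (l 16624408))))) (b (a (b (l 16661464) (l 16669024)) (b (a (l 16643192) (l 16631648)) (l 16644824))) (a (b (l 16676512) (l 16683824)) (b (l 16652848) (l 16660584))))), by decide +kernel⟩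

def k4_pm_102_a : ∃ t, chk3 f_pm_102_a t 15 5 1 = true :=
  ⟨(b (a (b (a (b (l 3) (a (l 112910397431) (l 140827677431))) (l 3)) (a (b (a (b (l 16608064) (l 16611320)) (l 117205351959)) (a (l 16657920) (b (l 16610000) (l 16613224)))) (b (a (l 124184657719) (l 142438252967)) (a (b (l 16606816) (l 16609224)) (b (l 16611288) (l 16605968)))))) (b (l 3) (a (b (l 3) (a (b (l 3) (a (l 16603216) (l 16601304))) (l 3))) (l 3)))) (a (b (a (b (l 16620792) (l 16628008)) (b (a (l 16676392) (b (l 16608536) (l 16611304))) (l 16618224))) (a (b (l 16635368) (l 16642984)) (b (l 16625144) (l 16632248)))) (b (a (b (a (b (a (l 16605848) (l 16603920)) (a (l 16608592) (l 16606680))) (b (a (l 16601936) (l 3)) (a (l 16604656) (l 16602584)))) (a (b (l 16645968) (l 16613624)) (b (a (l 16607616) (l 16605504)) (a (l 16610664) (l 16608592))))) (b (a (b (l 3) (a (l 16600544) (l 3))) (l 3)) (a (b (a (l 16603320) (l 16601176)) (a (l 16606432) (l 16604128))) (b (l 3) (a (l 16601864) (l 16599736))))))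 (a (b (a (l 16618496) (l 16614448)) (a (l 16625192) (l 16621032))) (b (a (a (l 16632000) (b (l 16607360) (l 16610576))) (b (a (l 16604992) (l 16602616)) (a (l 16608256) (l 16605904)))) (a (l 16616848) (b (l 16610184) (l 16613888)))))))), by decide +kernel⟩

def k5_pm_102_a : ∃ t, chk3 f_pm_102_a t 3 3 1 = true :=
  ⟨(a (b (b (a (b (l 16709488) (l 16773272)) (b (a (l 16716088) (l 16709352)) (a (l 16710528) (l 16712728)))) (a (a (l 16611664) (l 16644696)) (a (l 16674440) (l 16695920)))) (b (a (b (l 16557488) (l 16537288)) (b (l 16638816) (l 16590928))) (a (b (a (l 16504432) (l 16535720)) (a (b (l 16496064) (l 16488568)) (l 16525800))) (b (a (l 16563880) (l 16588776)) (a (b (l 16558624) (l 16552344)) (b (l 16583984) (l 16578768))))))) (b (a (b (b (a (l 16693856) (l 16672144)) (a (l 16703976) (l 16685984))) (b (a (l 16707568) (l 16696152)) (l 16700048))) (b (a (b (a (b (l 16650552) (l 16658016)) (b (l 16639424) (l 16646576))) (l 16662784)) (b (a (b (l 16629728)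 (a (l 16638720) (l 16633856))) (b (a (l 16623584) (l 16619584)) (a (l 16629256) (l 16625216)))) (a (l 16645552) (b (a (l 16634976) (l 16630512)) (l 16637752))))) (b (a (b (l 16672112) (l 16677024)) (b (a (l 16653984) (l 16642672)) (a (l 16659008) (l 16647368)))) (a (l 16682408) (l 16658776))))) (b (a (b (l 16852496) (l 16796136)) (a (b (l 16685336) (l 16681808)) (a (l 16672680) (l 16660120)))) (a (b (a (l 16610064) (l 16630392)) (a (b (l 16605568) (l 16602048)) (b (l 16623872) (l 16621784)))) (b (a (l 16662512) (l 16665368)) (a (b (l 16639592) (l 16637288)) (b (l 16664040) (l 16661528)))))))), by decide +kernel⟩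

theorem s6_pm_102_a : ∃ t, chk3 f_pm_102_a t 7 5 1 = true := ex3_a k3_pm_102_a k4_pm_102_a

theorem s7_pm_102_a : ∃ t, chk3 f_pm_102_a t 7 2 1 = true := ex3_b k2_pm_102_a s6_pm_102_a

theorem s8_pm_102_a : ∃ t, chk3 f_pm_102_a t 3 2 1 = true := ex3_a k1_pm_102_a s7_pm_102_a

theorem s9_pm_102_a : ∃ t, chk3 f_pm_102_a t 3 1 1 = true := ex3_b s8_pm_102_a k5_pm_102_a

theorem s10_pm_102_a : ∃ t, chk3 f_pm_102_a t 1 1 1 = true := ex3_a k0_pm_102_a s9_pm_102_a

theorem c_pm_102_a : CertB 536870912 536870912 0 536870912 587336777 62277027 3 eng mog cd2q1 cd1q2a pd0 false true false .npp 1 0 2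
    ndB2q1 ndB1q2a pcB0 Cut.none Ext.none :=
  certB0 (fam := false) (s1 := true) (s2 := false) (a := 1) (b := 0) (c := 2) (cn := .npp) (n1 := ndB2q1) (n2 := ndB1q2a) (pc := pcB0) (cut := Cut.none) (xt := Ext.none) (P1 := 536870912) (W1 := 536870912) (P2 := 0) (W2 := 536870912) (P3 := 587336777) (W3 := 62277027) (N0 := 3) (En := eng) (mo := mog) (C1 := cd2q1) (C2 := cd1q2a) (C3 := pd0)
    rfl s10_pm_102_a

noncomputable def f_pm_102_b : ℕ → ℕ → ℕ → ℕ → Bool := onCell 536870912 536870912 0 536870912 587336777 62277027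
    (rowB 3 eng mog cd2q1 cd1q2b pd0 1 false true false .npp 1 0 2 (qsf 536870912 536870912 1239849684 370763052 0) ndB2q1 ndB1q2b pcB0 Cut.none Ext.none)

def k0_pm_102_b : ∃ t, chk3 f_pm_102_b t 1 1 1 = true :=
  ⟨(a (b (l 1) (b (l 1) (a (l 1) (b (a (l 1) (a (l 16760768) (l 99354613559))) (a (b (l 16743160) (l 16732000)) (l 16693968)))))) (a (b (l 1) (a (b (b (l 1) (b (a (l 1) (a (l 1) (l 3))) (a (b (l 1) (l 16687264)) (a (l 156262818951) (b (l 347523041143) (l 16642920)))))) (b (b (a (b (l 16680160) (l 16673424)) (b (l 16645080) (l 16638784))) (a (l 16664360) (l 16630960))) (b (a (l 16656112) (l 16624664)) (a (l 16652272) (l 16622928))))) (b (l 3) (a (b (b (l 293299073095) (l 137069623575)) (b (l 16590184) (l 16591344))) (b (l 3) (b (l 16555400) (l 16557360))))))) (a (b (l 3) (b (l 3) (l 3))) (l 3)))), by decide +kernel⟩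

theorem c_pm_102_b : CertB 536870912 536870912 1239849684 370763052 587336777 62277027 3 eng mog cd2q1 cd1q2b pd0 false true false .npp 1 0 2
    ndB2q1 ndB1q2b pcB0 Cut.none Ext.none :=
  certB1 (fam := false) (s1 := true) (s2 := false) (a := 1) (b := 0) (c := 2) (cn := .npp) (n1 := ndB2q1) (n2 := ndB1q2b) (pc := pcB0) (cut := Cut.none) (xt := Ext.none) (P1 := 536870912) (W1 := 536870912) (P2 := 1239849684) (W2 := 370763052) (P3 := 587336777) (W3 := 62277027) (N0 := 3) (En := eng) (mo := mog) (C1 := cd2q1) (C2 := cd1q2b) (C3 := pd0)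
    rfl (fun _ => rfl) k0_pm_102_b

noncomputable def f_pm_112_a : ℕ → ℕ → ℕ → ℕ → Bool := onCell 536870912 536870912 0 536870912 587336777 62277027
    (rowB 3 eng mog cd2q1 cd1q2a pd1 2 false true false .dn 1 1 2 (qsf 536870912 536870912 0 536870912 1) ndB2q1 ndB1q2a pcB1 Cut.none Ext.none)

def k0_pm_112_a : ∃ t, chk3 f_pm_112_a t 1 1 1 = true :=
  ⟨(a (b (a (a (b (b (a (l 16711064) (l 16707200)) (a (l 16692400) (l 16685744))) (b (l 16661944) (l 16622720))) (b (b (l 16694352) (l 16669680)) (l 16640600))) (a (b (b (l 16669768) (l 16641704)) (l 16657480)) (l 1))) (b (a (b (a (l 16567256) (l 16550936)) (a (l 16500648) (l 16497008))) (l 1)) (a (b (a (l 16437704) (l 16453248)) (a (l 16521320) (l 1))) (l 1)))) (l 1)), by decide +kernel⟩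

theorem c_pm_112_a : CertB 536870912 536870912 0 536870912 587336777 62277027 3 eng mog cd2q1 cd1q2a pd1 false true false .dn 1 1 2
    ndB2q1 ndB1q2a pcB1 Cut.none Ext.none :=
  certB2 (fam := false) (s1 := true) (s2 := false) (a := 1) (b := 1) (c := 2) (cn := .dn) (n1 := ndB2q1) (n2 := ndB1q2a) (pc := pcB1) (cut := Cut.none) (xt := Ext.none) (P1 := 536870912) (W1 := 536870912) (P2 := 0) (W2 := 536870912) (P3 := 587336777) (W3 := 62277027) (N0 := 3) (En := eng) (mo := mog) (C1 := cd2q1) (C2 := cd1q2a) (C3 := pd1)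
    rfl (fun _ => rfl) k0_pm_112_a

noncomputable def f_pm_112_b : ℕ → ℕ → ℕ → ℕ → Bool := onCell 536870912 536870912 536870912 536870912 587336777 62277027
    (rowB 3 eng mog cd2q1 cd1q2b pd1 1 false true false .dn 1 1 2 (qsf 536870912 536870912 1239849684 370763052 1) ndB2q1 ndB1q2b pcB1 Cut.none Ext.none)

def k0_pm_112_b : ∃ t, chk3 f_pm_112_b t 1 1 1 = true :=
  ⟨(b (b (a (a (b (a (l 1) (l 202970755271)) (l 153578706279)) (b (a (l 16710672) (l 16693336)) (a (l 16710088) (l 16712480)))) (b (a (a (b (l 16656592) (l 16669240)) (b (a (l 16615680) (l 16576864)) (a (l 16634800) (l 16605024)))) (a (b (a (l 16538664) (l 3)) (l 130090193735)) (l 3))) (a (a (l 16706024) (b (l 16651824) (l 16700400))) (a (b (l 104857251511) (l 149887374199)) (b (l 3) (l 2)))))) (a (a (b (l 16688584) (l 16674392)) (b (l 16740160) (l 16792112))) (a (a (l 16861392) (b (l 16818448) (l 16976464))) (b (a (b (l 16739480) (l 2)) (l 2)) (l 2))))) (b (a (a (b (l 16665400) (l 16661192))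 (b (l 16871136) (l 16979976))) (a (b (l 17145560) (l 2)) (l 2))) (a (a (l 16666584) (l 16915080)) (l 2)))), by decide +kernel⟩

theorem c_pm_112_b : CertB 536870912 536870912 1239849684 370763052 587336777 62277027 3 eng mog cd2q1 cd1q2b pd1 false true false .dn 1 1 2
    ndB2q1 ndB1q2b pcB1 Cut.none Ext.none :=
  certB1 (fam := false) (s1 := true) (s2 := false) (a := 1) (b := 1) (c := 2) (cn := .dn) (n1 := ndB2q1) (n2 := ndB1q2b) (pc := pcB1) (cut := Cut.none) (xt := Ext.none) (P1 := 536870912) (W1 := 536870912) (P2 := 1239849684) (W2 := 370763052) (P3 := 587336777) (W3 := 62277027) (N0 := 3) (En := eng) (mo := mog) (C1 := cd2q1) (C2 := cd1q2b) (C3 := pd1)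
    rfl (fun _ => rfl) k0_pm_112_b

noncomputable def f_pm_113 : ℕ → ℕ → ℕ → ℕ → Bool := onCell 536870912 536870912 536870912 536870912 587336777 62277027
    (rowB 3 eng mog cd2q1 cd1q3 pd1 1 false true false .nn 1 1 3 (qsf 536870912 536870912 1610612736 536870912 1) ndB2q1 ndB1q3 pcB1 Cut.none Ext.none)

def k0_pm_113 : ∃ t, chk3 f_pm_113 t 1 1 1 = true :=
  ⟨(b (b (a (l 1) (a (b (l 1) (a (l 1) (l 229277336119))) (b (a (b (l 1) (l 137606474791)) (l 3)) (a (b (l 117742254887) (l 113984297287)) (b (l 3) (l 209010320759)))))) (a (a (l 1) (b (l 1) (l 16791272))) (a (a (l 16865432) (b (l 16828816) (l 16994744))) (b (a (b (l 16757536) (l 16804904)) (b (l 156933879015) (a (l 16743632) (l 269140242743)))) (a (b (l 16849760) (l 16907640)) (b (a (l 16790304) (l 177335400935)) (a (l 16834264) (l 16791672)))))))) (b (a (a (l 186864745751) (b (l 16866816) (l 16969488))) (a (b (l 17165424) (l 17103992)) (b (a (l 16962688) (b (l 17074328) (l 16846112))) (a (l 17013704)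 (l 16981696))))) (a (a (l 16653248) (l 16668432)) (a (l 16963120) (b (l 16959952) (l 16880456)))))), by decide +kernel⟩

theorem c_pm_113 : CertB 536870912 536870912 1610612736 536870912 587336777 62277027 3 eng mog cd2q1 cd1q3 pd1 false true false .nn 1 1 3
    ndB2q1 ndB1q3 pcB1 Cut.none Ext.none :=
  certB1 (fam := false) (s1 := true) (s2 := false) (a := 1) (b := 1) (c := 3) (cn := .nn) (n1 := ndB2q1) (n2 := ndB1q3) (pc := pcB1) (cut := Cut.none) (xt := Ext.none) (P1 := 536870912) (W1 := 536870912) (P2 := 1610612736) (W2 := 536870912) (P3 := 587336777) (W3 := 62277027) (N0 := 3) (En := eng) (mo := mog) (C1 := cd2q1) (C2 := cd1q3) (C3 := pd1)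
    rfl (fun _ => rfl) k0_pm_113

noncomputable def f_pm_123 : ℕ → ℕ → ℕ → ℕ → Bool := onCell 1073741824 536870912 1610612736 536870912 587336777 62277027
    (rowB 3 eng mog cd2q1 cd1q3 pd2 2 false true false .npn 1 2 3 (qsf 536870912 536870912 1610612736 536870912 2) ndB2q1 ndB1q3 pcB2 Cut.none Ext.none)

def k0_pm_123 : ∃ t, chk3 f_pm_123 t 1 1 1 = true :=
  ⟨(a (a (b (b (l 16520040) (l 16713168)) (b (a (l 16829920) (l 16740032)) (a (l 16794472) (l 16729696)))) (b (b (l 271690083879) (l 16550120)) (b (a (l 16666664) (l 16630592)) (l 16885568)))) (a (b (a (l 281353841511) (l 1)) (b (a (l 16610808) (l 16607816)) (l 16660600))) (b (l 1) (a (l 16656536) (l 16670040))))), by decide +kernel⟩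

theorem c_pm_123 : CertB 536870912 536870912 1610612736 536870912 587336777 62277027 3 eng mog cd2q1 cd1q3 pd2 false true false .npn 1 2 3
    ndB2q1 ndB1q3 pcB2 Cut.none Ext.none :=
  certB2 (fam := false) (s1 := true) (s2 := false) (a := 1) (b := 2) (c := 3) (cn := .npn) (n1 := ndB2q1) (n2 := ndB1q3) (pc := pcB2) (cut := Cut.none) (xt := Ext.none) (P1 := 536870912) (W1 := 536870912) (P2 := 1610612736) (W2 := 536870912) (P3 := 587336777) (W3 := 62277027) (N0 := 3) (En := eng) (mo := mog) (C1 := cd2q1) (C2 := cd1q3) (C3 := pd2)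
    rfl (fun _ => rfl) k0_pm_123

noncomputable def f_pm_133 : ℕ → ℕ → ℕ → ℕ → Bool := onCell 1610612736 536870912 1610612736 536870912 587336777 62277027
    (rowB 3 eng mog cd2q1 cd1q3 pd3 2 false true false .dn 1 3 3 (qsf 536870912 536870912 1610612736 536870912 3) ndB2q1 ndB1q3 pcB3 Cut.none Ext.none)

def k0_pm_133 : ∃ t, chk3 f_pm_133 t 1 1 1 = true :=
  ⟨(a (b (l 1) (a (a (l 16679296) (l 1)) (l 1))) (l 1)), by decide +kernel⟩

theorem c_pm_133 : CertB 536870912 536870912 1610612736 536870912 587336777 62277027 3 eng mog cd2q1 cd1q3 pd3 false true false .dn 1 3 3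
    ndB2q1 ndB1q3 pcB3 Cut.none Ext.none :=
  certB2 (fam := false) (s1 := true) (s2 := false) (a := 1) (b := 3) (c := 3) (cn := .dn) (n1 := ndB2q1) (n2 := ndB1q3) (pc := pcB3) (cut := Cut.none) (xt := Ext.none) (P1 := 536870912) (W1 := 536870912) (P2 := 1610612736) (W2 := 536870912) (P3 := 587336777) (W3 := 62277027) (N0 := 3) (En := eng) (mo := mog) (C1 := cd2q1) (C2 := cd1q3) (C3 := pd3)
    rfl (fun _ => rfl) k0_pm_133

noncomputable def cut_pm_202_aa : Cut := Cut.of [[⟨0, 1, 0, 67108864⟩, ⟨1, 0, 0, 67108864⟩, ⟨2, 1, 0, 67108864⟩]]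

noncomputable def f_pm_202_aa : ℕ → ℕ → ℕ → ℕ → Bool := onCell 0 536870912 0 536870912 587336777 62277027
    (rowB 3 eng mog cd2q2a cd1q2a pd0 0 false true false .pp 2 0 2 (qsf 0 536870912 0 536870912 0) ndB2q2a ndB1q2a pcB0 cut_pm_202_aa Ext.none)

def k0_pm_202_aa : ∃ t, chk3 f_pm_202_aa t 1 1 1 = true :=
  ⟨(a (l 3) (b (l 3) (a (l 3) (b (l 3) (b (l 3) (a (l 3) (l 6))))))), by decide +kernel⟩

theorem c_pm_202_aa : CertB 0 536870912 0 536870912 587336777 62277027 3 eng mog cd2q2a cd1q2a pd0 false true false .pp 2 0 2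
    ndB2q2a ndB1q2a pcB0 cut_pm_202_aa Ext.none :=
  certB0 (fam := false) (s1 := true) (s2 := false) (a := 2) (b := 0) (c := 2) (cn := .pp) (n1 := ndB2q2a) (n2 := ndB1q2a) (pc := pcB0) (cut := cut_pm_202_aa) (xt := Ext.none) (P1 := 0) (W1 := 536870912) (P2 := 0) (W2 := 536870912) (P3 := 587336777) (W3 := 62277027) (N0 := 3) (En := eng) (mo := mog) (C1 := cd2q2a) (C2 := cd1q2a) (C3 := pd0)
    rfl k0_pm_202_aa

noncomputable def cut_pm_202_ab : Cut := Cut.of [[⟨0, 1, 0, 67108864⟩, ⟨1, 0, 0, 67108864⟩, ⟨2, 1, 0, 67108864⟩]]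

noncomputable def f_pm_202_ab : ℕ → ℕ → ℕ → ℕ → Bool := onCell 0 536870912 1239849684 370763052 587336777 62277027
    (rowB 3 eng mog cd2q2a cd1q2b pd0 0 false true false .pp 2 0 2 (qsf 0 536870912 1239849684 370763052 0) ndB2q2a ndB1q2b pcB0 cut_pm_202_ab Ext.none)

def k0_pm_202_ab : ∃ t, chk3 f_pm_202_ab t 1 1 1 = true :=
  ⟨(l 3), by decide +kernel⟩

theorem c_pm_202_ab : CertB 0 536870912 1239849684 370763052 587336777 62277027 3 eng mog cd2q2a cd1q2b pd0 false true false .pp 2 0 2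
    ndB2q2a ndB1q2b pcB0 cut_pm_202_ab Ext.none :=
  certB0 (fam := false) (s1 := true) (s2 := false) (a := 2) (b := 0) (c := 2) (cn := .pp) (n1 := ndB2q2a) (n2 := ndB1q2b) (pc := pcB0) (cut := cut_pm_202_ab) (xt := Ext.none) (P1 := 0) (W1 := 536870912) (P2 := 1239849684) (W2 := 370763052) (P3 := 587336777) (W3 := 62277027) (N0 := 3) (En := eng) (mo := mog) (C1 := cd2q2a) (C2 := cd1q2b) (C3 := pd0)
    rfl k0_pm_202_ab

noncomputable def cut_pm_202_ba : Cut := Cut.of [[⟨0, 1, 0, 67108864⟩, ⟨1, 0, 0, 67108864⟩, ⟨2, 1, 0, 67108864⟩]]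

noncomputable def f_pm_202_ba : ℕ → ℕ → ℕ → ℕ → Bool := onCell 1239849684 370763052 0 536870912 587336777 62277027
    (rowB 3 eng mog cd2q2b cd1q2a pd0 0 false true false .pp 2 0 2 (qsf 1239849684 370763052 0 536870912 0) ndB2q2b ndB1q2a pcB0 cut_pm_202_ba Ext.none)

def k0_pm_202_ba : ∃ t, chk3 f_pm_202_ba t 1 1 1 = true :=
  ⟨(l 3), by decide +kernel⟩

theorem c_pm_202_ba : CertB 1239849684 370763052 0 536870912 587336777 62277027 3 eng mog cd2q2b cd1q2a pd0 false true false .pp 2 0 2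
    ndB2q2b ndB1q2a pcB0 cut_pm_202_ba Ext.none :=
  certB0 (fam := false) (s1 := true) (s2 := false) (a := 2) (b := 0) (c := 2) (cn := .pp) (n1 := ndB2q2b) (n2 := ndB1q2a) (pc := pcB0) (cut := cut_pm_202_ba) (xt := Ext.none) (P1 := 1239849684) (W1 := 370763052) (P2 := 0) (W2 := 536870912) (P3 := 587336777) (W3 := 62277027) (N0 := 3) (En := eng) (mo := mog) (C1 := cd2q2b) (C2 := cd1q2a) (C3 := pd0)
    rfl k0_pm_202_ba

noncomputable def cut_pm_202_bb : Cut := Cut.of [[⟨0, 1, 0, 67108864⟩, ⟨1, 0, 0, 67108864⟩, ⟨2, 1, 0, 67108864⟩]]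

noncomputable def f_pm_202_bb : ℕ → ℕ → ℕ → ℕ → Bool := onCell 1239849684 370763052 1239849684 370763052 587336777 62277027
    (rowB 3 eng mog cd2q2b cd1q2b pd0 0 false true false .pp 2 0 2 (qsf 1239849684 370763052 1239849684 370763052 0) ndB2q2b ndB1q2b pcB0 cut_pm_202_bb Ext.none)

def k0_pm_202_bb : ∃ t, chk3 f_pm_202_bb t 1 1 1 = true :=
  ⟨(l 3), by decide +kernel⟩

theorem c_pm_202_bb : CertB 1239849684 370763052 1239849684 370763052 587336777 62277027 3 eng mog cd2q2b cd1q2b pd0 false true false .pp 2 0 2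
    ndB2q2b ndB1q2b pcB0 cut_pm_202_bb Ext.none :=
  certB0 (fam := false) (s1 := true) (s2 := false) (a := 2) (b := 0) (c := 2) (cn := .pp) (n1 := ndB2q2b) (n2 := ndB1q2b) (pc := pcB0) (cut := cut_pm_202_bb) (xt := Ext.none) (P1 := 1239849684) (W1 := 370763052) (P2 := 1239849684) (W2 := 370763052) (P3 := 587336777) (W3 := 62277027) (N0 := 3) (En := eng) (mo := mog) (C1 := cd2q2b) (C2 := cd1q2b) (C3 := pd0)
    rfl k0_pm_202_bb

noncomputable def f_pm_203_a : ℕ → ℕ → ℕ → ℕ → Bool := onCell 0 536870912 0 536870912 587336777 62277027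
    (rowB 3 eng mog cd2q2a cd1q3 pd0 1 false true false .up 2 0 3 (qsf 0 536870912 1610612736 536870912 0) ndB2q2a ndB1q3 pcB0 Cut.none Ext.none)

def k0_pm_203_a : ∃ t, chk3 f_pm_203_a t 1 1 1 = true :=
  ⟨(l 3), by decide +kernel⟩

theorem c_pm_203_a : CertB 0 536870912 1610612736 536870912 587336777 62277027 3 eng mog cd2q2a cd1q3 pd0 false true false .up 2 0 3
    ndB2q2a ndB1q3 pcB0 Cut.none Ext.none :=
  certB1 (fam := false) (s1 := true) (s2 := false) (a := 2) (b := 0) (c := 3) (cn := .up) (n1 := ndB2q2a) (n2 := ndB1q3) (pc := pcB0) (cut := Cut.none) (xt := Ext.none) (P1 := 0) (W1 := 536870912) (P2 := 1610612736) (W2 := 536870912) (P3 := 587336777) (W3 := 62277027) (N0 := 3) (En := eng) (mo := mog) (C1 := cd2q2a) (C2 := cd1q3) (C3 := pd0)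
    rfl (fun _ => rfl) k0_pm_203_a

noncomputable def f_pm_203_b : ℕ → ℕ → ℕ → ℕ → Bool := onCell 1239849684 370763052 1610612736 536870912 587336777 62277027
    (rowB 3 eng mog cd2q2b cd1q3 pd0 0 false true false .up 2 0 3 (qsf 1239849684 370763052 1610612736 536870912 0) ndB2q2b ndB1q3 pcB0 Cut.none Ext.none)

def k0_pm_203_b : ∃ t, chk3 f_pm_203_b t 1 1 1 = true :=
  ⟨(l 3), by decide +kernel⟩

theorem c_pm_203_b : CertB 1239849684 370763052 1610612736 536870912 587336777 62277027 3 eng mog cd2q2b cd1q3 pd0 false true false .up 2 0 3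
    ndB2q2b ndB1q3 pcB0 Cut.none Ext.none :=
  certB0 (fam := false) (s1 := true) (s2 := false) (a := 2) (b := 0) (c := 3) (cn := .up) (n1 := ndB2q2b) (n2 := ndB1q3) (pc := pcB0) (cut := Cut.none) (xt := Ext.none) (P1 := 1239849684) (W1 := 370763052) (P2 := 1610612736) (W2 := 536870912) (P3 := 587336777) (W3 := 62277027) (N0 := 3) (En := eng) (mo := mog) (C1 := cd2q2b) (C2 := cd1q3) (C3 := pd0)
    rfl k0_pm_203_b

noncomputable def cut_pm_213_a : Cut := Cut.of [[⟨0, 1, 0, 67108864⟩, ⟨1, 1, 0, 67108864⟩, ⟨2, 2, 0, 16777216⟩]]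

noncomputable def f_pm_213_a : ℕ → ℕ → ℕ → ℕ → Bool := onCell 0 536870912 1610612736 536870912 587336777 62277027
    (rowB 3 eng mog cd2q2a cd1q3 pd1 0 false true false .pnn 2 1 3 (qsf 0 536870912 1610612736 536870912 1) ndB2q2a ndB1q3 pcB1 cut_pm_213_a Ext.none)

def k0_pm_213_a : ∃ t, chk3 f_pm_213_a t 1 1 1 = true :=
  ⟨(b (l 3) (b (l 3) (a (l 3) (a (l 3) (b (l 3) (a (l 3) (b (l 3) (b (l 3) (b (l 3) (l 6)))))))))), by decide +kernel⟩

theorem c_pm_213_a : CertB 0 536870912 1610612736 536870912 587336777 62277027 3 eng mog cd2q2a cd1q3 pd1 false true false .pnn 2 1 3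
    ndB2q2a ndB1q3 pcB1 cut_pm_213_a Ext.none :=
  certB0 (fam := false) (s1 := true) (s2 := false) (a := 2) (b := 1) (c := 3) (cn := .pnn) (n1 := ndB2q2a) (n2 := ndB1q3) (pc := pcB1) (cut := cut_pm_213_a) (xt := Ext.none) (P1 := 0) (W1 := 536870912) (P2 := 1610612736) (W2 := 536870912) (P3 := 587336777) (W3 := 62277027) (N0 := 3) (En := eng) (mo := mog) (C1 := cd2q2a) (C2 := cd1q3) (C3 := pd1)
    rfl k0_pm_213_a

noncomputable def cut_pm_213_b : Cut := Cut.of [[⟨0, 1, 0, 67108864⟩, ⟨1, 1, 0, 67108864⟩, ⟨2, 2, 0, 16777216⟩]]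

noncomputable def f_pm_213_b : ℕ → ℕ → ℕ → ℕ → Bool := onCell 1239849684 370763052 1610612736 536870912 587336777 62277027
    (rowB 3 eng mog cd2q2b cd1q3 pd1 0 false true false .pnn 2 1 3 (qsf 1239849684 370763052 1610612736 536870912 1) ndB2q2b ndB1q3 pcB1 cut_pm_213_b Ext.none)

def k0_pm_213_b : ∃ t, chk3 f_pm_213_b t 1 1 1 = true :=
  ⟨(l 3), by decide +kernel⟩

theorem c_pm_213_b : CertB 1239849684 370763052 1610612736 536870912 587336777 62277027 3 eng mog cd2q2b cd1q3 pd1 false true false .pnn 2 1 3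
    ndB2q2b ndB1q3 pcB1 cut_pm_213_b Ext.none :=
  certB0 (fam := false) (s1 := true) (s2 := false) (a := 2) (b := 1) (c := 3) (cn := .pnn) (n1 := ndB2q2b) (n2 := ndB1q3) (pc := pcB1) (cut := cut_pm_213_b) (xt := Ext.none) (P1 := 1239849684) (W1 := 370763052) (P2 := 1610612736) (W2 := 536870912) (P3 := 587336777) (W3 := 62277027) (N0 := 3) (En := eng) (mo := mog) (C1 := cd2q2b) (C2 := cd1q3) (C3 := pd1)
    rfl k0_pm_213_b

noncomputable def f_pm_303 : ℕ → ℕ → ℕ → ℕ → Bool := onCell 1610612736 536870912 1610612736 536870912 587336777 62277027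
    (rowB 3 eng mog cd2q3 cd1q3 pd0 0 false true false .npn 3 0 3 (qsf 1610612736 536870912 1610612736 536870912 0) ndB2q3 ndB1q3 pcB0 Cut.none Ext.none)

def k0_pm_303 : ∃ t, chk3 f_pm_303 t 1 1 1 = true :=
  ⟨(l 3), by decide +kernel⟩

theorem c_pm_303 : CertB 1610612736 536870912 1610612736 536870912 587336777 62277027 3 eng mog cd2q3 cd1q3 pd0 false true false .npn 3 0 3
    ndB2q3 ndB1q3 pcB0 Cut.none Ext.none :=
  certB0 (fam := false) (s1 := true) (s2 := false) (a := 3) (b := 0) (c := 3) (cn := .npn) (n1 := ndB2q3) (n2 := ndB1q3) (pc := pcB0) (cut := Cut.none) (xt := Ext.none) (P1 := 1610612736) (W1 := 536870912) (P2 := 1610612736) (W2 := 536870912) (P3 := 587336777) (W3 := 62277027) (N0 := 3) (En := eng) (mo := mog) (C1 := cd2q3) (C2 := cd1q3) (C3 := pd0)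
    rfl k0_pm_303

noncomputable def f_pm_313 : ℕ → ℕ → ℕ → ℕ → Bool := onCell 1610612736 536870912 1610612736 536870912 587336777 62277027
    (rowB 3 eng mog cd2q3 cd1q3 pd1 0 false true false .dn 3 1 3 (qsf 1610612736 536870912 1610612736 536870912 1) ndB2q3 ndB1q3 pcB1 Cut.none Ext.none)

def k0_pm_313 : ∃ t, chk3 f_pm_313 t 1 1 1 = true :=
  ⟨(l 3), by decide +kernel⟩

theorem c_pm_313 : CertB 1610612736 536870912 1610612736 536870912 587336777 62277027 3 eng mog cd2q3 cd1q3 pd1 false true false .dn 3 1 3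
    ndB2q3 ndB1q3 pcB1 Cut.none Ext.none :=
  certB0 (fam := false) (s1 := true) (s2 := false) (a := 3) (b := 1) (c := 3) (cn := .dn) (n1 := ndB2q3) (n2 := ndB1q3) (pc := pcB1) (cut := Cut.none) (xt := Ext.none) (P1 := 1610612736) (W1 := 536870912) (P2 := 1610612736) (W2 := 536870912) (P3 := 587336777) (W3 := 62277027) (N0 := 3) (En := eng) (mo := mog) (C1 := cd2q3) (C2 := cd1q3) (C3 := pd1)
    rfl k0_pm_313

noncomputable def f_mm_001 : ℕ → ℕ → ℕ → ℕ → Bool := onCell 0 536870912 0 536870912 587336777 62277027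
    (rowB 3 eng mog cd2q0 cd1q1 pd0 1 false false false .up 0 0 1 (qsf 0 536870912 536870912 536870912 0) ndB2q0 ndB1q1 pcB0 Cut.none Ext.none)

def k0_mm_001 : ∃ t, chk3 f_mm_001 t 1 1 1 = true :=
  ⟨(l 3), by decide +kernel⟩

theorem c_mm_001 : CertB 0 536870912 536870912 536870912 587336777 62277027 3 eng mog cd2q0 cd1q1 pd0 false false false .up 0 0 1
    ndB2q0 ndB1q1 pcB0 Cut.none Ext.none :=
  certB1 (fam := false) (s1 := false) (s2 := false) (a := 0) (b := 0) (c := 1) (cn := .up) (n1 := ndB2q0) (n2 := ndB1q1) (pc := pcB0) (cut := Cut.none) (xt := Ext.none) (P1 := 0) (W1 := 536870912) (P2 := 536870912) (W2 := 536870912) (P3 := 587336777) (W3 := 62277027) (N0 := 3) (En := eng) (mo := mog) (C1 := cd2q0) (C2 := cd1q1) (C3 := pd0)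
    rfl (fun _ => rfl) k0_mm_001

noncomputable def f_mm_011 : ℕ → ℕ → ℕ → ℕ → Bool := onCell 0 536870912 536870912 536870912 587336777 62277027
    (rowB 3 eng mog cd2q0 cd1q1 pd1 1 false false false .pnn 0 1 1 (qsf 0 536870912 536870912 536870912 1) ndB2q0 ndB1q1 pcB1 Cut.none Ext.none)

def k0_mm_011 : ∃ t, chk3 f_mm_011 t 1 1 1 = true :=
  ⟨(l 5), by decide +kernel⟩

theorem c_mm_011 : CertB 0 536870912 536870912 536870912 587336777 62277027 3 eng mog cd2q0 cd1q1 pd1 false false false .pnn 0 1 1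
    ndB2q0 ndB1q1 pcB1 Cut.none Ext.none :=
  certB1 (fam := false) (s1 := false) (s2 := false) (a := 0) (b := 1) (c := 1) (cn := .pnn) (n1 := ndB2q0) (n2 := ndB1q1) (pc := pcB1) (cut := Cut.none) (xt := Ext.none) (P1 := 0) (W1 := 536870912) (P2 := 536870912) (W2 := 536870912) (P3 := 587336777) (W3 := 62277027) (N0 := 3) (En := eng) (mo := mog) (C1 := cd2q0) (C2 := cd1q1) (C3 := pd1)
    rfl (fun _ => rfl) k0_mm_011

noncomputable def f_mm_012_a : ℕ → ℕ → ℕ → ℕ → Bool := onCell 0 536870912 0 536870912 587336777 62277027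
    (rowB 3 eng mog cd2q0 cd1q2a pd1 0 false false false .pnp 0 1 2 (qsf 0 536870912 0 536870912 1) ndB2q0 ndB1q2a pcB1 Cut.none Ext.none)

def k0_mm_012_a : ∃ t, chk3 f_mm_012_a t 1 1 1 = true :=
  ⟨(l 5), by decide +kernel⟩

theorem c_mm_012_a : CertB 0 536870912 0 536870912 587336777 62277027 3 eng mog cd2q0 cd1q2a pd1 false false false .pnp 0 1 2
    ndB2q0 ndB1q2a pcB1 Cut.none Ext.none :=
  certB0 (fam := false) (s1 := false) (s2 := false) (a := 0) (b := 1) (c := 2) (cn := .pnp) (n1 := ndB2q0) (n2 := ndB1q2a) (pc := pcB1) (cut := Cut.none) (xt := Ext.none) (P1 := 0) (W1 := 536870912) (P2 := 0) (W2 := 536870912) (P3 := 587336777) (W3 := 62277027) (N0 := 3) (En := eng) (mo := mog) (C1 := cd2q0) (C2 := cd1q2a) (C3 := pd1)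
    rfl k0_mm_012_a

noncomputable def f_mm_012_b : ℕ → ℕ → ℕ → ℕ → Bool := onCell 0 536870912 1239849684 370763052 587336777 62277027
    (rowB 3 eng mog cd2q0 cd1q2b pd1 0 false false false .pnp 0 1 2 (qsf 0 536870912 1239849684 370763052 1) ndB2q0 ndB1q2b pcB1 Cut.none Ext.none)

def k0_mm_012_b : ∃ t, chk3 f_mm_012_b t 1 1 1 = true :=
  ⟨(l 5), by decide +kernel⟩

theorem c_mm_012_b : CertB 0 536870912 1239849684 370763052 587336777 62277027 3 eng mog cd2q0 cd1q2b pd1 false false false .pnp 0 1 2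
    ndB2q0 ndB1q2b pcB1 Cut.none Ext.none :=
  certB0 (fam := false) (s1 := false) (s2 := false) (a := 0) (b := 1) (c := 2) (cn := .pnp) (n1 := ndB2q0) (n2 := ndB1q2b) (pc := pcB1) (cut := Cut.none) (xt := Ext.none) (P1 := 0) (W1 := 536870912) (P2 := 1239849684) (W2 := 370763052) (P3 := 587336777) (W3 := 62277027) (N0 := 3) (En := eng) (mo := mog) (C1 := cd2q0) (C2 := cd1q2b) (C3 := pd1)
    rfl k0_mm_012_b

noncomputable def f_mm_022_a : ℕ → ℕ → ℕ → ℕ → Bool := onCell 0 536870912 0 536870912 587336777 62277027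
    (rowB 3 eng mog cd2q0 cd1q2a pd2 0 false false false .pp 0 2 2 (qsf 0 536870912 0 536870912 2) ndB2q0 ndB1q2a pcB2 Cut.none Ext.none)

def k0_mm_022_a : ∃ t, chk3 f_mm_022_a t 1 1 1 = true :=
  ⟨(l 5), by decide +kernel⟩

theorem c_mm_022_a : CertB 0 536870912 0 536870912 587336777 62277027 3 eng mog cd2q0 cd1q2a pd2 false false false .pp 0 2 2
    ndB2q0 ndB1q2a pcB2 Cut.none Ext.none :=
  certB0 (fam := false) (s1 := false) (s2 := false) (a := 0) (b := 2) (c := 2) (cn := .pp) (n1 := ndB2q0) (n2 := ndB1q2a) (pc := pcB2) (cut := Cut.none) (xt := Ext.none) (P1 := 0) (W1 := 536870912) (P2 := 0) (W2 := 536870912) (P3 := 587336777) (W3 := 62277027) (N0 := 3) (En := eng) (mo := mog) (C1 := cd2q0) (C2 := cd1q2a) (C3 := pd2)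
    rfl k0_mm_022_a

noncomputable def f_mm_022_b : ℕ → ℕ → ℕ → ℕ → Bool := onCell 0 536870912 1239849684 370763052 587336777 62277027
    (rowB 3 eng mog cd2q0 cd1q2b pd2 0 false false false .pp 0 2 2 (qsf 0 536870912 1239849684 370763052 2) ndB2q0 ndB1q2b pcB2 Cut.none Ext.none)

def k0_mm_022_b : ∃ t, chk3 f_mm_022_b t 1 1 1 = true :=
  ⟨(l 5), by decide +kernel⟩

theorem c_mm_022_b : CertB 0 536870912 1239849684 370763052 587336777 62277027 3 eng mog cd2q0 cd1q2b pd2 false false false .pp 0 2 2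
    ndB2q0 ndB1q2b pcB2 Cut.none Ext.none :=
  certB0 (fam := false) (s1 := false) (s2 := false) (a := 0) (b := 2) (c := 2) (cn := .pp) (n1 := ndB2q0) (n2 := ndB1q2b) (pc := pcB2) (cut := Cut.none) (xt := Ext.none) (P1 := 0) (W1 := 536870912) (P2 := 1239849684) (W2 := 370763052) (P3 := 587336777) (W3 := 62277027) (N0 := 3) (En := eng) (mo := mog) (C1 := cd2q0) (C2 := cd1q2b) (C3 := pd2)
    rfl k0_mm_022_b

noncomputable def f_mm_023 : ℕ → ℕ → ℕ → ℕ → Bool := onCell 0 536870912 1610612736 536870912 587336777 62277027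
    (rowB 3 eng mog cd2q0 cd1q3 pd2 0 false false false .up 0 2 3 (qsf 0 536870912 1610612736 536870912 2) ndB2q0 ndB1q3 pcB2 Cut.none Ext.none)

def k0_mm_023 : ∃ t, chk3 f_mm_023 t 1 1 1 = true :=
  ⟨(l 5), by decide +kernel⟩

theorem c_mm_023 : CertB 0 536870912 1610612736 536870912 587336777 62277027 3 eng mog cd2q0 cd1q3 pd2 false false false .up 0 2 3
    ndB2q0 ndB1q3 pcB2 Cut.none Ext.none :=
  certB0 (fam := false) (s1 := false) (s2 := false) (a := 0) (b := 2) (c := 3) (cn := .up) (n1 := ndB2q0) (n2 := ndB1q3) (pc := pcB2) (cut := Cut.none) (xt := Ext.none) (P1 := 0) (W1 := 536870912) (P2 := 1610612736) (W2 := 536870912) (P3 := 587336777) (W3 := 62277027) (N0 := 3) (En := eng) (mo := mog) (C1 := cd2q0) (C2 := cd1q3) (C3 := pd2)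
    rfl k0_mm_023

noncomputable def f_mm_033 : ℕ → ℕ → ℕ → ℕ → Bool := onCell 0 536870912 1610612736 536870912 587336777 62277027
    (rowB 3 eng mog cd2q0 cd1q3 pd3 0 false false false .pnn 0 3 3 (qsf 0 536870912 1610612736 536870912 3) ndB2q0 ndB1q3 pcB3 Cut.none Ext.none)

def k0_mm_033 : ∃ t, chk3 f_mm_033 t 1 1 1 = true :=
  ⟨(l 5), by decide +kernel⟩

theorem c_mm_033 : CertB 0 536870912 1610612736 536870912 587336777 62277027 3 eng mog cd2q0 cd1q3 pd3 false false false .pnn 0 3 3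
    ndB2q0 ndB1q3 pcB3 Cut.none Ext.none :=
  certB0 (fam := false) (s1 := false) (s2 := false) (a := 0) (b := 3) (c := 3) (cn := .pnn) (n1 := ndB2q0) (n2 := ndB1q3) (pc := pcB3) (cut := Cut.none) (xt := Ext.none) (P1 := 0) (W1 := 536870912) (P2 := 1610612736) (W2 := 536870912) (P3 := 587336777) (W3 := 62277027) (N0 := 3) (En := eng) (mo := mog) (C1 := cd2q0) (C2 := cd1q3) (C3 := pd3)
    rfl k0_mm_033

noncomputable def f_mm_101 : ℕ → ℕ → ℕ → ℕ → Bool := onCell 536870912 536870912 536870912 536870912 587336777 62277027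
    (rowB 3 eng mog cd2q1 cd1q1 pd0 0 false false false .npn 1 0 1 (qsf 536870912 536870912 536870912 536870912 0) ndB2q1 ndB1q1 pcB0 Cut.none Ext.none)

def k0_mm_101 : ∃ t, chk3 f_mm_101 t 1 1 1 = true :=
  ⟨(l 3), by decide +kernel⟩

theorem c_mm_101 : CertB 536870912 536870912 536870912 536870912 587336777 62277027 3 eng mog cd2q1 cd1q1 pd0 false false false .npn 1 0 1
    ndB2q1 ndB1q1 pcB0 Cut.none Ext.none :=
  certB0 (fam := false) (s1 := false) (s2 := false) (a := 1) (b := 0) (c := 1) (cn := .npn) (n1 := ndB2q1) (n2 := ndB1q1) (pc := pcB0) (cut := Cut.none) (xt := Ext.none) (P1 := 536870912) (W1 := 536870912) (P2 := 536870912) (W2 := 536870912) (P3 := 587336777) (W3 := 62277027) (N0 := 3) (En := eng) (mo := mog) (C1 := cd2q1) (C2 := cd1q1) (C3 := pd0)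
    rfl k0_mm_101

noncomputable def f_mm_102_a : ℕ → ℕ → ℕ → ℕ → Bool := onCell 536870912 536870912 0 536870912 587336777 62277027
    (rowB 3 eng mog cd2q1 cd1q2a pd0 0 false false false .npp 1 0 2 (qsf 536870912 536870912 0 536870912 0) ndB2q1 ndB1q2a pcB0 Cut.none Ext.none)

def k0_mm_102_a : ∃ t, chk3 f_mm_102_a t 1 1 1 = true :=
  ⟨(l 5), by decide +kernel⟩

theorem c_mm_102_a : CertB 536870912 536870912 0 536870912 587336777 62277027 3 eng mog cd2q1 cd1q2a pd0 false false false .npp 1 0 2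
    ndB2q1 ndB1q2a pcB0 Cut.none Ext.none :=
  certB0 (fam := false) (s1 := false) (s2 := false) (a := 1) (b := 0) (c := 2) (cn := .npp) (n1 := ndB2q1) (n2 := ndB1q2a) (pc := pcB0) (cut := Cut.none) (xt := Ext.none) (P1 := 536870912) (W1 := 536870912) (P2 := 0) (W2 := 536870912) (P3 := 587336777) (W3 := 62277027) (N0 := 3) (En := eng) (mo := mog) (C1 := cd2q1) (C2 := cd1q2a) (C3 := pd0)
    rfl k0_mm_102_a

noncomputable def f_mm_102_b : ℕ → ℕ → ℕ → ℕ → Bool := onCell 536870912 536870912 1239849684 370763052 587336777 62277027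
    (rowB 3 eng mog cd2q1 cd1q2b pd0 0 false false false .npp 1 0 2 (qsf 536870912 536870912 1239849684 370763052 0) ndB2q1 ndB1q2b pcB0 Cut.none Ext.none)

def k0_mm_102_b : ∃ t, chk3 f_mm_102_b t 1 1 1 = true :=
  ⟨(l 5), by decide +kernel⟩

theorem c_mm_102_b : CertB 536870912 536870912 1239849684 370763052 587336777 62277027 3 eng mog cd2q1 cd1q2b pd0 false false false .npp 1 0 2
    ndB2q1 ndB1q2b pcB0 Cut.none Ext.none :=
  certB0 (fam := false) (s1 := false) (s2 := false) (a := 1) (b := 0) (c := 2) (cn := .npp) (n1 := ndB2q1) (n2 := ndB1q2b) (pc := pcB0) (cut := Cut.none) (xt := Ext.none) (P1 := 536870912) (W1 := 536870912) (P2 := 1239849684) (W2 := 370763052) (P3 := 587336777) (W3 := 62277027) (N0 := 3) (En := eng) (mo := mog) (C1 := cd2q1) (C2 := cd1q2b) (C3 := pd0)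
    rfl k0_mm_102_b

noncomputable def f_mm_112_a : ℕ → ℕ → ℕ → ℕ → Bool := onCell 536870912 536870912 0 536870912 587336777 62277027
    (rowB 3 eng mog cd2q1 cd1q2a pd1 0 false false false .dn 1 1 2 (qsf 536870912 536870912 0 536870912 1) ndB2q1 ndB1q2a pcB1 Cut.none Ext.none)

def k0_mm_112_a : ∃ t, chk3 f_mm_112_a t 1 1 1 = true :=
  ⟨(l 5), by decide +kernel⟩

theorem c_mm_112_a : CertB 536870912 536870912 0 536870912 587336777 62277027 3 eng mog cd2q1 cd1q2a pd1 false false false .dn 1 1 2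
    ndB2q1 ndB1q2a pcB1 Cut.none Ext.none :=
  certB0 (fam := false) (s1 := false) (s2 := false) (a := 1) (b := 1) (c := 2) (cn := .dn) (n1 := ndB2q1) (n2 := ndB1q2a) (pc := pcB1) (cut := Cut.none) (xt := Ext.none) (P1 := 536870912) (W1 := 536870912) (P2 := 0) (W2 := 536870912) (P3 := 587336777) (W3 := 62277027) (N0 := 3) (En := eng) (mo := mog) (C1 := cd2q1) (C2 := cd1q2a) (C3 := pd1)
    rfl k0_mm_112_a

noncomputable def f_mm_112_b : ℕ → ℕ → ℕ → ℕ → Bool := onCell 536870912 536870912 1239849684 370763052 587336777 62277027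
    (rowB 3 eng mog cd2q1 cd1q2b pd1 0 false false false .dn 1 1 2 (qsf 536870912 536870912 1239849684 370763052 1) ndB2q1 ndB1q2b pcB1 Cut.none Ext.none)

def k0_mm_112_b : ∃ t, chk3 f_mm_112_b t 1 1 1 = true :=
  ⟨(l 5), by decide +kernel⟩

theorem c_mm_112_b : CertB 536870912 536870912 1239849684 370763052 587336777 62277027 3 eng mog cd2q1 cd1q2b pd1 false false false .dn 1 1 2
    ndB2q1 ndB1q2b pcB1 Cut.none Ext.none :=
  certB0 (fam := false) (s1 := false) (s2 := false) (a := 1) (b := 1) (c := 2) (cn := .dn) (n1 := ndB2q1) (n2 := ndB1q2b) (pc := pcB1) (cut := Cut.none) (xt := Ext.none) (P1 := 536870912) (W1 := 536870912) (P2 := 1239849684) (W2 := 370763052) (P3 := 587336777) (W3 := 62277027) (N0 := 3) (En := eng) (mo := mog) (C1 := cd2q1) (C2 := cd1q2b) (C3 := pd1)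
    rfl k0_mm_112_b

noncomputable def f_mm_113 : ℕ → ℕ → ℕ → ℕ → Bool := onCell 536870912 536870912 1610612736 536870912 587336777 62277027
    (rowB 3 eng mog cd2q1 cd1q3 pd1 0 false false false .nn 1 1 3 (qsf 536870912 536870912 1610612736 536870912 1) ndB2q1 ndB1q3 pcB1 Cut.none Ext.none)

def k0_mm_113 : ∃ t, chk3 f_mm_113 t 1 1 1 = true :=
  ⟨(l 5), by decide +kernel⟩

theorem c_mm_113 : CertB 536870912 536870912 1610612736 536870912 587336777 62277027 3 eng mog cd2q1 cd1q3 pd1 false false false .nn 1 1 3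
    ndB2q1 ndB1q3 pcB1 Cut.none Ext.none :=
  certB0 (fam := false) (s1 := false) (s2 := false) (a := 1) (b := 1) (c := 3) (cn := .nn) (n1 := ndB2q1) (n2 := ndB1q3) (pc := pcB1) (cut := Cut.none) (xt := Ext.none) (P1 := 536870912) (W1 := 536870912) (P2 := 1610612736) (W2 := 536870912) (P3 := 587336777) (W3 := 62277027) (N0 := 3) (En := eng) (mo := mog) (C1 := cd2q1) (C2 := cd1q3) (C3 := pd1)
    rfl k0_mm_113

noncomputable def f_mm_123 : ℕ → ℕ → ℕ → ℕ → Bool := onCell 536870912 536870912 1610612736 536870912 587336777 62277027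
    (rowB 3 eng mog cd2q1 cd1q3 pd2 0 false false false .npn 1 2 3 (qsf 536870912 536870912 1610612736 536870912 2) ndB2q1 ndB1q3 pcB2 Cut.none Ext.none)

def k0_mm_123 : ∃ t, chk3 f_mm_123 t 1 1 1 = true :=
  ⟨(l 5), by decide +kernel⟩

theorem c_mm_123 : CertB 536870912 536870912 1610612736 536870912 587336777 62277027 3 eng mog cd2q1 cd1q3 pd2 false false false .npn 1 2 3
    ndB2q1 ndB1q3 pcB2 Cut.none Ext.none :=
  certB0 (fam := false) (s1 := false) (s2 := false) (a := 1) (b := 2) (c := 3) (cn := .npn) (n1 := ndB2q1) (n2 := ndB1q3) (pc := pcB2) (cut := Cut.none) (xt := Ext.none) (P1 := 536870912) (W1 := 536870912) (P2 := 1610612736) (W2 := 536870912) (P3 := 587336777) (W3 := 62277027) (N0 := 3) (En := eng) (mo := mog) (C1 := cd2q1) (C2 := cd1q3) (C3 := pd2)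
    rfl k0_mm_123

noncomputable def f_mm_133 : ℕ → ℕ → ℕ → ℕ → Bool := onCell 536870912 536870912 1610612736 536870912 587336777 62277027
    (rowB 3 eng mog cd2q1 cd1q3 pd3 0 false false false .dn 1 3 3 (qsf 536870912 536870912 1610612736 536870912 3) ndB2q1 ndB1q3 pcB3 Cut.none Ext.none)

def k0_mm_133 : ∃ t, chk3 f_mm_133 t 1 1 1 = true :=
  ⟨(l 5), by decide +kernel⟩

theorem c_mm_133 : CertB 536870912 536870912 1610612736 536870912 587336777 62277027 3 eng mog cd2q1 cd1q3 pd3 false false false .dn 1 3 3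
    ndB2q1 ndB1q3 pcB3 Cut.none Ext.none :=
  certB0 (fam := false) (s1 := false) (s2 := false) (a := 1) (b := 3) (c := 3) (cn := .dn) (n1 := ndB2q1) (n2 := ndB1q3) (pc := pcB3) (cut := Cut.none) (xt := Ext.none) (P1 := 536870912) (W1 := 536870912) (P2 := 1610612736) (W2 := 536870912) (P3 := 587336777) (W3 := 62277027) (N0 := 3) (En := eng) (mo := mog) (C1 := cd2q1) (C2 := cd1q3) (C3 := pd3)
    rfl k0_mm_133

noncomputable def f_mm_202_aa : ℕ → ℕ → ℕ → ℕ → Bool := onCell 0 536870912 0 536870912 587336777 62277027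
    (rowB 3 eng mog cd2q2a cd1q2a pd0 0 false false false .pp 2 0 2 (qsf 0 536870912 0 536870912 0) ndB2q2a ndB1q2a pcB0 Cut.none Ext.none)

def k0_mm_202_aa : ∃ t, chk3 f_mm_202_aa t 1 1 1 = true :=
  ⟨(l 3), by decide +kernel⟩

theorem c_mm_202_aa : CertB 0 536870912 0 536870912 587336777 62277027 3 eng mog cd2q2a cd1q2a pd0 false false false .pp 2 0 2
    ndB2q2a ndB1q2a pcB0 Cut.none Ext.none :=
  certB0 (fam := false) (s1 := false) (s2 := false) (a := 2) (b := 0) (c := 2) (cn := .pp) (n1 := ndB2q2a) (n2 := ndB1q2a) (pc := pcB0) (cut := Cut.none) (xt := Ext.none) (P1 := 0) (W1 := 536870912) (P2 := 0) (W2 := 536870912) (P3 := 587336777) (W3 := 62277027) (N0 := 3) (En := eng) (mo := mog) (C1 := cd2q2a) (C2 := cd1q2a) (C3 := pd0)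
    rfl k0_mm_202_aa

noncomputable def f_mm_202_ab : ℕ → ℕ → ℕ → ℕ → Bool := onCell 0 536870912 1239849684 370763052 587336777 62277027
    (rowB 3 eng mog cd2q2a cd1q2b pd0 0 false false false .pp 2 0 2 (qsf 0 536870912 1239849684 370763052 0) ndB2q2a ndB1q2b pcB0 Cut.none Ext.none)

def k0_mm_202_ab : ∃ t, chk3 f_mm_202_ab t 1 1 1 = true :=
  ⟨(l 3), by decide +kernel⟩

theorem c_mm_202_ab : CertB 0 536870912 1239849684 370763052 587336777 62277027 3 eng mog cd2q2a cd1q2b pd0 false false false .pp 2 0 2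
    ndB2q2a ndB1q2b pcB0 Cut.none Ext.none :=
  certB0 (fam := false) (s1 := false) (s2 := false) (a := 2) (b := 0) (c := 2) (cn := .pp) (n1 := ndB2q2a) (n2 := ndB1q2b) (pc := pcB0) (cut := Cut.none) (xt := Ext.none) (P1 := 0) (W1 := 536870912) (P2 := 1239849684) (W2 := 370763052) (P3 := 587336777) (W3 := 62277027) (N0 := 3) (En := eng) (mo := mog) (C1 := cd2q2a) (C2 := cd1q2b) (C3 := pd0)
    rfl k0_mm_202_ab

noncomputable def f_mm_202_ba : ℕ → ℕ → ℕ → ℕ → Bool := onCell 1239849684 370763052 0 536870912 587336777 62277027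
    (rowB 3 eng mog cd2q2b cd1q2a pd0 0 false false false .pp 2 0 2 (qsf 1239849684 370763052 0 536870912 0) ndB2q2b ndB1q2a pcB0 Cut.none Ext.none)

def k0_mm_202_ba : ∃ t, chk3 f_mm_202_ba t 1 1 1 = true :=
  ⟨(l 3), by decide +kernel⟩

theorem c_mm_202_ba : CertB 1239849684 370763052 0 536870912 587336777 62277027 3 eng mog cd2q2b cd1q2a pd0 false false false .pp 2 0 2
    ndB2q2b ndB1q2a pcB0 Cut.none Ext.none :=
  certB0 (fam := false) (s1 := false) (s2 := false) (a := 2) (b := 0) (c := 2) (cn := .pp) (n1 := ndB2q2b) (n2 := ndB1q2a) (pc := pcB0) (cut := Cut.none) (xt := Ext.none) (P1 := 1239849684) (W1 := 370763052) (P2 := 0) (W2 := 536870912) (P3 := 587336777) (W3 := 62277027) (N0 := 3) (En := eng) (mo := mog) (C1 := cd2q2b) (C2 := cd1q2a) (C3 := pd0)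
    rfl k0_mm_202_ba

noncomputable def f_mm_202_bb : ℕ → ℕ → ℕ → ℕ → Bool := onCell 1239849684 370763052 1239849684 370763052 587336777 62277027
    (rowB 3 eng mog cd2q2b cd1q2b pd0 0 false false false .pp 2 0 2 (qsf 1239849684 370763052 1239849684 370763052 0) ndB2q2b ndB1q2b pcB0 Cut.none Ext.none)

def k0_mm_202_bb : ∃ t, chk3 f_mm_202_bb t 1 1 1 = true :=
  ⟨(l 3), by decide +kernel⟩

theorem c_mm_202_bb : CertB 1239849684 370763052 1239849684 370763052 587336777 62277027 3 eng mog cd2q2b cd1q2b pd0 false false false .pp 2 0 2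
    ndB2q2b ndB1q2b pcB0 Cut.none Ext.none :=
  certB0 (fam := false) (s1 := false) (s2 := false) (a := 2) (b := 0) (c := 2) (cn := .pp) (n1 := ndB2q2b) (n2 := ndB1q2b) (pc := pcB0) (cut := Cut.none) (xt := Ext.none) (P1 := 1239849684) (W1 := 370763052) (P2 := 1239849684) (W2 := 370763052) (P3 := 587336777) (W3 := 62277027) (N0 := 3) (En := eng) (mo := mog) (C1 := cd2q2b) (C2 := cd1q2b) (C3 := pd0)
    rfl k0_mm_202_bb

noncomputable def f_mm_203_a : ℕ → ℕ → ℕ → ℕ → Bool := onCell 0 536870912 1610612736 536870912 587336777 62277027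
    (rowB 3 eng mog cd2q2a cd1q3 pd0 0 false false false .up 2 0 3 (qsf 0 536870912 1610612736 536870912 0) ndB2q2a ndB1q3 pcB0 Cut.none Ext.none)

def k0_mm_203_a : ∃ t, chk3 f_mm_203_a t 1 1 1 = true :=
  ⟨(l 5), by decide +kernel⟩

theorem c_mm_203_a : CertB 0 536870912 1610612736 536870912 587336777 62277027 3 eng mog cd2q2a cd1q3 pd0 false false false .up 2 0 3
    ndB2q2a ndB1q3 pcB0 Cut.none Ext.none :=
  certB0 (fam := false) (s1 := false) (s2 := false) (a := 2) (b := 0) (c := 3) (cn := .up) (n1 := ndB2q2a) (n2 := ndB1q3) (pc := pcB0) (cut := Cut.none) (xt := Ext.none) (P1 := 0) (W1 := 536870912) (P2 := 1610612736) (W2 := 536870912) (P3 := 587336777) (W3 := 62277027) (N0 := 3) (En := eng) (mo := mog) (C1 := cd2q2a) (C2 := cd1q3) (C3 := pd0)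
    rfl k0_mm_203_a

noncomputable def f_mm_203_b : ℕ → ℕ → ℕ → ℕ → Bool := onCell 1239849684 370763052 1610612736 536870912 587336777 62277027
    (rowB 3 eng mog cd2q2b cd1q3 pd0 0 false false false .up 2 0 3 (qsf 1239849684 370763052 1610612736 536870912 0) ndB2q2b ndB1q3 pcB0 Cut.none Ext.none)

def k0_mm_203_b : ∃ t, chk3 f_mm_203_b t 1 1 1 = true :=
  ⟨(l 3), by decide +kernel⟩

theorem c_mm_203_b : CertB 1239849684 370763052 1610612736 536870912 587336777 62277027 3 eng mog cd2q2b cd1q3 pd0 false false false .up 2 0 3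
    ndB2q2b ndB1q3 pcB0 Cut.none Ext.none :=
  certB0 (fam := false) (s1 := false) (s2 := false) (a := 2) (b := 0) (c := 3) (cn := .up) (n1 := ndB2q2b) (n2 := ndB1q3) (pc := pcB0) (cut := Cut.none) (xt := Ext.none) (P1 := 1239849684) (W1 := 370763052) (P2 := 1610612736) (W2 := 536870912) (P3 := 587336777) (W3 := 62277027) (N0 := 3) (En := eng) (mo := mog) (C1 := cd2q2b) (C2 := cd1q3) (C3 := pd0)
    rfl k0_mm_203_b

noncomputable def f_mm_213_a : ℕ → ℕ → ℕ → ℕ → Bool := onCell 0 536870912 1610612736 536870912 587336777 62277027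
    (rowB 3 eng mog cd2q2a cd1q3 pd1 0 false false false .pnn 2 1 3 (qsf 0 536870912 1610612736 536870912 1) ndB2q2a ndB1q3 pcB1 Cut.none Ext.none)

def k0_mm_213_a : ∃ t, chk3 f_mm_213_a t 1 1 1 = true :=
  ⟨(l 5), by decide +kernel⟩

theorem c_mm_213_a : CertB 0 536870912 1610612736 536870912 587336777 62277027 3 eng mog cd2q2a cd1q3 pd1 false false false .pnn 2 1 3
    ndB2q2a ndB1q3 pcB1 Cut.none Ext.none :=
  certB0 (fam := false) (s1 := false) (s2 := false) (a := 2) (b := 1) (c := 3) (cn := .pnn) (n1 := ndB2q2a) (n2 := ndB1q3) (pc := pcB1) (cut := Cut.none) (xt := Ext.none) (P1 := 0) (W1 := 536870912) (P2 := 1610612736) (W2 := 536870912) (P3 := 587336777) (W3 := 62277027) (N0 := 3) (En := eng) (mo := mog) (C1 := cd2q2a) (C2 := cd1q3) (C3 := pd1)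
    rfl k0_mm_213_a

noncomputable def f_mm_213_b : ℕ → ℕ → ℕ → ℕ → Bool := onCell 1239849684 370763052 1610612736 536870912 587336777 62277027
    (rowB 3 eng mog cd2q2b cd1q3 pd1 0 false false false .pnn 2 1 3 (qsf 1239849684 370763052 1610612736 536870912 1) ndB2q2b ndB1q3 pcB1 Cut.none Ext.none)

def k0_mm_213_b : ∃ t, chk3 f_mm_213_b t 1 1 1 = true :=
  ⟨(l 3), by decide +kernel⟩

theorem c_mm_213_b : CertB 1239849684 370763052 1610612736 536870912 587336777 62277027 3 eng mog cd2q2b cd1q3 pd1 false false false .pnn 2 1 3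
    ndB2q2b ndB1q3 pcB1 Cut.none Ext.none :=
  certB0 (fam := false) (s1 := false) (s2 := false) (a := 2) (b := 1) (c := 3) (cn := .pnn) (n1 := ndB2q2b) (n2 := ndB1q3) (pc := pcB1) (cut := Cut.none) (xt := Ext.none) (P1 := 1239849684) (W1 := 370763052) (P2 := 1610612736) (W2 := 536870912) (P3 := 587336777) (W3 := 62277027) (N0 := 3) (En := eng) (mo := mog) (C1 := cd2q2b) (C2 := cd1q3) (C3 := pd1)
    rfl k0_mm_213_b

noncomputable def f_mm_303 : ℕ → ℕ → ℕ → ℕ → Bool := onCell 1610612736 536870912 1610612736 536870912 587336777 62277027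
    (rowB 3 eng mog cd2q3 cd1q3 pd0 0 false false false .npn 3 0 3 (qsf 1610612736 536870912 1610612736 536870912 0) ndB2q3 ndB1q3 pcB0 Cut.none Ext.none)

def k0_mm_303 : ∃ t, chk3 f_mm_303 t 1 1 1 = true :=
  ⟨(l 3), by decide +kernel⟩

theorem c_mm_303 : CertB 1610612736 536870912 1610612736 536870912 587336777 62277027 3 eng mog cd2q3 cd1q3 pd0 false false false .npn 3 0 3
    ndB2q3 ndB1q3 pcB0 Cut.none Ext.none :=
  certB0 (fam := false) (s1 := false) (s2 := false) (a := 3) (b := 0) (c := 3) (cn := .npn) (n1 := ndB2q3) (n2 := ndB1q3) (pc := pcB0) (cut := Cut.none) (xt := Ext.none) (P1 := 1610612736) (W1 := 536870912) (P2 := 1610612736) (W2 := 536870912) (P3 := 587336777) (W3 := 62277027) (N0 := 3) (En := eng) (mo := mog) (C1 := cd2q3) (C2 := cd1q3) (C3 := pd0)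
    rfl k0_mm_303

noncomputable def f_mm_313 : ℕ → ℕ → ℕ → ℕ → Bool := onCell 1610612736 536870912 1610612736 536870912 587336777 62277027
    (rowB 3 eng mog cd2q3 cd1q3 pd1 0 false false false .dn 3 1 3 (qsf 1610612736 536870912 1610612736 536870912 1) ndB2q3 ndB1q3 pcB1 Cut.none Ext.none)

def k0_mm_313 : ∃ t, chk3 f_mm_313 t 1 1 1 = true :=
  ⟨(l 3), by decide +kernel⟩

theorem c_mm_313 : CertB 1610612736 536870912 1610612736 536870912 587336777 62277027 3 eng mog cd2q3 cd1q3 pd1 false false false .dn 3 1 3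
    ndB2q3 ndB1q3 pcB1 Cut.none Ext.none :=
  certB0 (fam := false) (s1 := false) (s2 := false) (a := 3) (b := 1) (c := 3) (cn := .dn) (n1 := ndB2q3) (n2 := ndB1q3) (pc := pcB1) (cut := Cut.none) (xt := Ext.none) (P1 := 1610612736) (W1 := 536870912) (P2 := 1610612736) (W2 := 536870912) (P3 := 587336777) (W3 := 62277027) (N0 := 3) (En := eng) (mo := mog) (C1 := cd2q3) (C2 := cd1q3) (C3 := pd1)
    rfl k0_mm_313

end Pool.Agent.Strip051.G.I5470_6050.Tab.C.BB21

namespace Pool.Agent.Strip051.G.I5470_6050.Tab.C.BB22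

open Pool.Agent.Strip051.PB Pool.Agent.Strip051.PB.T
open Pool.Agent.Strip051.G.I5470_6050.Tab

noncomputable def f_pp_001 : ℕ → ℕ → ℕ → ℕ → Bool := onCell 0 536870912 536870912 536870912 587336777 62277027
    (rowB 3 eng mog cd2q0 cd2q1 pd0 0 false true true .up 0 0 1 (qsf 0 536870912 536870912 536870912 0) ndB2q0 ndB2q1 pcB0 Cut.none Ext.none)

def k0_pp_001 : ∃ t, chk3 f_pp_001 t 1 1 1 = true :=
  ⟨(l 3), by decide +kernel⟩

theorem c_pp_001 : CertB 0 536870912 536870912 536870912 587336777 62277027 3 eng mog cd2q0 cd2q1 pd0 false true true .up 0 0 1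
    ndB2q0 ndB2q1 pcB0 Cut.none Ext.none :=
  certB0 (fam := false) (s1 := true) (s2 := true) (a := 0) (b := 0) (c := 1) (cn := .up) (n1 := ndB2q0) (n2 := ndB2q1) (pc := pcB0) (cut := Cut.none) (xt := Ext.none) (P1 := 0) (W1 := 536870912) (P2 := 536870912) (W2 := 536870912) (P3 := 587336777) (W3 := 62277027) (N0 := 3) (En := eng) (mo := mog) (C1 := cd2q0) (C2 := cd2q1) (C3 := pd0)
    rfl k0_pp_001

noncomputable def f_pp_011 : ℕ → ℕ → ℕ → ℕ → Bool := onCell 0 536870912 536870912 536870912 587336777 62277027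
    (rowB 3 eng mog cd2q0 cd2q1 pd1 0 false true true .pnn 0 1 1 (qsf 0 536870912 536870912 536870912 1) ndB2q0 ndB2q1 pcB1 Cut.none Ext.none)

def k0_pp_011 : ∃ t, chk3 f_pp_011 t 1 1 1 = true :=
  ⟨(l 3), by decide +kernel⟩

theorem c_pp_011 : CertB 0 536870912 536870912 536870912 587336777 62277027 3 eng mog cd2q0 cd2q1 pd1 false true true .pnn 0 1 1
    ndB2q0 ndB2q1 pcB1 Cut.none Ext.none :=
  certB0 (fam := false) (s1 := true) (s2 := true) (a := 0) (b := 1) (c := 1) (cn := .pnn) (n1 := ndB2q0) (n2 := ndB2q1) (pc := pcB1) (cut := Cut.none) (xt := Ext.none) (P1 := 0) (W1 := 536870912) (P2 := 536870912) (W2 := 536870912) (P3 := 587336777) (W3 := 62277027) (N0 := 3) (En := eng) (mo := mog) (C1 := cd2q0) (C2 := cd2q1) (C3 := pd1)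
    rfl k0_pp_011

noncomputable def cut_pp_012_a : Cut := Cut.of [[⟨0, 0, 0, 53687091⟩, ⟨1, 1, 0, 53687091⟩, ⟨2, 1, 0, 53687091⟩]]

noncomputable def f_pp_012_a : ℕ → ℕ → ℕ → ℕ → Bool := onCell 536870912 536870912 0 536870912 587336777 62277027
    (rowB 3 eng mog cd2q0 cd2q2a pd1 2 false true true .pnp 0 1 2 (qsf 0 536870912 0 536870912 1) ndB2q0 ndB2q2a pcB1 cut_pp_012_a Ext.none)

def k0_pp_012_a : ∃ t, chk3 f_pp_012_a t 1 2 1 = true :=
  ⟨(b (a (a (l 2) (a (a (a (l 2) (b (b (l 16748856) (l 16737344)) (b (l 16707328) (l 153712724135)))) (b (b (l 16749352) (a (l 16745904) (l 16749672))) (b (a (l 16726136) (l 16741120)) (a (l 98951924855) (l 16714432))))) (b (a (l 16745432) (l 16733080)) (a (b (a (l 16748296) (l 16750344)) (a (l 16731696) (l 16745408))) (b (l 16746120) (a (l 16750544) (l 16750280))))))) (a (a (b (a (l 16715472) (l 16693584)) (a (l 16738048) (l 16719160))) (b (a (l 16669240) (l 16642640)) (a (l 16694704) (l 16667384)))) (a (b (a (l 16615136)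 (l 16588288)) (a (l 16639016) (l 16610600))) (a (b (l 16563256) (l 16583728)) (b (l 16541472) (l 16560024)))))) (a (a (l 3) (a (a (l 3) (b (b (a (l 173576961895) (l 122037407271)) (l 3)) (l 3))) (b (a (b (a (l 16722416) (l 16722632)) (a (l 160692085591) (l 104320611479))) (b (a (l 16738600) (l 16749744)) (a (l 16731744) (l 16730456)))) (a (l 3) (b (a (l 146196563799) (l 16743712)) (l 3)))))) (a (a (b (a (b (l 16751376) (a (l 16746408) (l 16753336))) (a (l 16748344) (l 16739944))) (a (b (a (l 16738616) (l 16737584)) (a (l 16735176) (l 16749112))) (b (l 16797416) (a (l 16743248) (l 16749392))))) (b (a (l 16722672) (l 16695808)) (a (b (l 16744080) (l 16755104)) (a (l 16733888) (l 16720384))))) (a (a (b (l 16666744) (l 16698600)) (b (l 16637440) (l 16668544))) (a (b (l 16693296) (a (l 16646616) (l 16632840))) (b (l 16584336) (a (l 16620112) (l 16608344)))))))), by decide +kernel⟩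

def k1_pp_012_a : ∃ t, chk3 f_pp_012_a t 1 3 1 = true :=
  ⟨(a (l 3) (b (a (a (b (a (l 3) (b (a (l 16760408) (l 16751968)) (l 184851365127))) (l 3)) (b (a (a (l 82845999159) (l 52244339655)) (a (l 16801000) (l 16752552))) (a (b (a (l 3) (l 170892807703)) (l 3)) (b (a (l 138680534071) (l 16755392)) (a (l 3) (l 181630137351)))))) (a (b (a (a (l 16740784) (l 16726752)) (a (l 16711808) (l 16696672))) (a (a (b (l 16761888) (l 149417963687)) (b (l 16754024) (l 16783144))) (b (a (l 16740832) (l 16725976)) (a (l 16760048) (l 16746712))))) (a (b (a (l 16681776) (l 16667536)) (a (b (l 16710968) (l 16731968)) (a (l 16731280) (l 16702944)))) (b (b (l 16638552) (l 16656376)) (b (l 16674944) (a (l 16701552) (l 16686896))))))) (a (l 3) (a (b (a (b (a (l 3) (b (l 16792912) (l 224579831863))) (l 3)) (b (a (b (l 16765152) (l 146196715207)) (a (l 16769432) (l 16764240))) (a (l 188072655223) (b (a (l 16801096) (l 16772672)) (a (l 3) (l 185388284855)))))) (l 3)) (b (a (b (a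 (l 16794992) (a (l 16741288) (l 16733496))) (a (b (l 16768232) (a (l 16776904) (l 16770600))) (a (l 16762504) (l 16754696)))) (b (a (b (l 16716496) (l 16726864)) (a (l 16731032) (l 16702680))) (a (a (l 16746816) (l 16738952)) (a (l 16752128) (b (l 16718024) (l 16728752)))))) (a (b (a (b (a (l 231022290935) (l 178408960743)) (l 3)) (b (a (l 16795408) (l 16770760)) (a (l 218137405207) (b (l 16776424) (l 139217373543))))) (l 3)) (b (a (b (a (l 16763320) (l 16755464)) (a (b (l 16771640) (l 47949312679)) (b (l 16764024) (l 6)))) (a (b (l 16747600) (l 6)) (l 6))) (a (a (a (a (l 3) (l 6)) (l 6)) (l 6)) (l 6))))))))), by decide +kernel⟩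

theorem s2_pp_012_a : ∃ t, chk3 f_pp_012_a t 1 1 1 = true := ex3_b k0_pp_012_a k1_pp_012_a

theorem c_pp_012_a : CertB 0 536870912 0 536870912 587336777 62277027 3 eng mog cd2q0 cd2q2a pd1 false true true .pnp 0 1 2
    ndB2q0 ndB2q2a pcB1 cut_pp_012_a Ext.none :=
  certB2 (fam := false) (s1 := true) (s2 := true) (a := 0) (b := 1) (c := 2) (cn := .pnp) (n1 := ndB2q0) (n2 := ndB2q2a) (pc := pcB1) (cut := cut_pp_012_a) (xt := Ext.none) (P1 := 0) (W1 := 536870912) (P2 := 0) (W2 := 536870912) (P3 := 587336777) (W3 := 62277027) (N0 := 3) (En := eng) (mo := mog) (C1 := cd2q0) (C2 := cd2q2a) (C3 := pd1)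
    rfl (fun _ => rfl) s2_pp_012_a

noncomputable def cut_pp_012_b : Cut := Cut.of [[⟨0, 0, 0, 53687091⟩, ⟨1, 1, 0, 53687091⟩, ⟨2, 1, 0, 53687091⟩]]

noncomputable def f_pp_012_b : ℕ → ℕ → ℕ → ℕ → Bool := onCell 536870912 536870912 1239849684 370763052 587336777 62277027
    (rowB 3 eng mog cd2q0 cd2q2b pd1 2 false true true .pnp 0 1 2 (qsf 0 536870912 1239849684 370763052 1) ndB2q0 ndB2q2b pcB1 cut_pp_012_b Ext.none)

def k0_pp_012_b : ∃ t, chk3 f_pp_012_b t 1 1 1 = true :=
  ⟨(a (a (l 2) (b (a (b (a (b (l 16749152) (l 2)) (l 16740368)) (l 2)) (b (b (l 16723048) (l 16712744)) (l 16711600))) (l 2))) (a (b (b (a (b (a (l 16692864) (l 16668824)) (l 16663680)) (b (a (l 16641904) (l 16613456)) (l 16602376))) (a (l 16654800) (l 16583648))) (a (l 2) (b (l 16595528) (l 2)))) (b (a (b (b (a (l 16584224) (l 16555264)) (l 16534080)) (l 16502400)) (b (a (b (l 16527856) (l 16482480)) (b (l 16503344) (l 16450344))) (a (l 16437968) (l 16395136)))) (a (b (l 16500896) (l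 16546088)) (b (l 16396496) (l 16429672)))))), by decide +kernel⟩

theorem c_pp_012_b : CertB 0 536870912 1239849684 370763052 587336777 62277027 3 eng mog cd2q0 cd2q2b pd1 false true true .pnp 0 1 2
    ndB2q0 ndB2q2b pcB1 cut_pp_012_b Ext.none :=
  certB2 (fam := false) (s1 := true) (s2 := true) (a := 0) (b := 1) (c := 2) (cn := .pnp) (n1 := ndB2q0) (n2 := ndB2q2b) (pc := pcB1) (cut := cut_pp_012_b) (xt := Ext.none) (P1 := 0) (W1 := 536870912) (P2 := 1239849684) (W2 := 370763052) (P3 := 587336777) (W3 := 62277027) (N0 := 3) (En := eng) (mo := mog) (C1 := cd2q0) (C2 := cd2q2b) (C3 := pd1)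
    rfl (fun _ => rfl) k0_pp_012_b

noncomputable def cut_pp_022_a : Cut := Cut.of [[⟨0, 0, 0, 67108864⟩, ⟨1, 1, 0, 67108864⟩, ⟨2, 1, 0, 67108864⟩]]

noncomputable def f_pp_022_a : ℕ → ℕ → ℕ → ℕ → Bool := onCell 0 536870912 0 536870912 587336777 62277027
    (rowB 3 eng mog cd2q0 cd2q2a pd2 0 false true true .pp 0 2 2 (qsf 0 536870912 0 536870912 2) ndB2q0 ndB2q2a pcB2 cut_pp_022_a Ext.none)

def k0_pp_022_a : ∃ t, chk3 f_pp_022_a t 4 1 1 = true :=
  ⟨(b (b (a (a (b (a (l 16459360) (l 16468088)) (a (l 16468952) (l 16479144))) (b (l 16480208) (l 16493448))) (a (l 16523848) (l 16515552))) (a (a (b (b (a (b (l 16478896) (l 16484048)) (l 16492848)) (a (l 16492872) (l 16505120))) (a (c (b (l 16511000) (l 16527128)) (b (l 16500824) (l 16537488))) (b (l 16519624) (l 16536464)))) (b (b (l 16508840) (l 16522328)) (a (b (l 16532112) (l 16549848)) (l 16553272)))) (a (b (l 16535568) (l 16569968)) (b (l 16551928) (l 16618600))))) (b (a (a (b (a (b (b (l 16535688) (l 16545560))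 (a (c (l 16562688) (l 16551816)) (l 16565952))) (b (l 16555840) (l 16577992))) (a (b (a (c (l 16586320) (l 16576272)) (l 16590464)) (a (b (l 16601736) (l 16616408)) (l 16628952))) (b (a (l 16599064) (l 16607384)) (a (l 16627568) (l 16657344))))) (a (b (b (l 16570112) (l 16593176)) (b (l 16619352) (l 16649000))) (b (l 16616480) (b (l 16634304) (l 16663536))))) (b (a (b (l 16601688) (l 16625352)) (b (l 155725802583) (l 240014538039))) (a (b (a (l 16645816) (l 214244775031)) (a (b (l 16665120) (l 89153818119)) (b (l 16672504) (l 1)))) (b (a (l 311955341991) (l 1)) (l 1))))) (a (b (b (a (a (a (b (a (l 16629624) (l 16634600)) (b (l 16644592) (l 6))) (b (l 16641904) (l 16658928))) (a (b (l 16651376) (l 16668656)) (l 16690248))) (a (b (l 16673640) (l 16689760)) (b (l 16684152) (a (l 16696272) (l 16700224))))) (a (l 6) (a (l 6) (a (l 6) (a (l 6) (l 1)))))) (a (l 6) (a (l 6) (l 1)))) (b (a (b (a (b (l 181495770279) (l 381211758791)) (l 1)) (l 1)) (l 1)) (l 1))))),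 by decide +kernel⟩

def k1_pp_022_a : ∃ t, chk3 f_pp_022_a t 5 1 1 = true :=
  ⟨(b (a (a (b (a (l 16523328) (l 16548568)) (b (a (l 16561744) (l 16566912)) (l 345241169031))) (b (l 209949705271) (l 1))) (l 1)) (b (l 1) (l 1))), by decide +kernel⟩

def k2_pp_022_a : ∃ t, chk3 f_pp_022_a t 3 1 1 = true :=
  ⟨(l 1), by decide +kernel⟩

theorem s3_pp_022_a : ∃ t, chk3 f_pp_022_a t 2 1 1 = true := ex3_a k0_pp_022_a k1_pp_022_a

theorem s4_pp_022_a : ∃ t, chk3 f_pp_022_a t 1 1 1 = true := ex3_a s3_pp_022_a k2_pp_022_a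

theorem c_pp_022_a : CertB 0 536870912 0 536870912 587336777 62277027 3 eng mog cd2q0 cd2q2a pd2 false true true .pp 0 2 2
    ndB2q0 ndB2q2a pcB2 cut_pp_022_a Ext.none :=
  certB0 (fam := false) (s1 := true) (s2 := true) (a := 0) (b := 2) (c := 2) (cn := .pp) (n1 := ndB2q0) (n2 := ndB2q2a) (pc := pcB2) (cut := cut_pp_022_a) (xt := Ext.none) (P1 := 0) (W1 := 536870912) (P2 := 0) (W2 := 536870912) (P3 := 587336777) (W3 := 62277027) (N0 := 3) (En := eng) (mo := mog) (C1 := cd2q0) (C2 := cd2q2a) (C3 := pd2)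
    rfl s4_pp_022_a

noncomputable def cut_pp_022_b : Cut := Cut.of [[⟨0, 0, 0, 67108864⟩, ⟨1, 1, 0, 67108864⟩, ⟨2, 1, 0, 67108864⟩]]

noncomputable def f_pp_022_b : ℕ → ℕ → ℕ → ℕ → Bool := onCell 0 536870912 1073741824 536870912 587336777 62277027
    (rowB 3 eng mog cd2q0 cd2q2b pd2 1 false true true .pp 0 2 2 (qsf 0 536870912 1239849684 370763052 2) ndB2q0 ndB2q2b pcB2 cut_pp_022_b Ext.none)

def k0_pp_022_b : ∃ t, chk3 f_pp_022_b t 1 1 1 = true :=
  ⟨(b (a (b (a (a (b (l 1) (a (b (l 1) (l 325913684615)) (b (l 261489269447) (l 119755230023)))) (b (b (l 219613371479) (l 119755470311)) (a (l 16559104) (l 16405384)))) (a (b (a (l 87543043527) (l 16431240)) (l 16366176)) (b (l 16376416) (l 16291160)))) (a (b (a (b (a (a (b (l 330208582679) (l 16454232)) (l 16446640)) (l 16410360)) (a (a (b (l 16423240) (l 16393888)) (l 16406512)) (l 16349616))) (l 16516160)) (a (a (b (l 16344536) (l 16299584)) (l 16282512)) (l 16218056))) (b (a (l 16260040) (l 16208208)) (l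 16186792)))) (b (a (b (l 16417488) (l 16258416)) (l 16317280)) (a (b (l 16207840) (l 16168104)) (l 16317576)))) (b (a (a (b (a (a (l 16244008) (l 16215272)) (l 16166496)) (a (b (l 16191720) (l 16189832)) (l 16145432))) (b (l 16042456) (l 16057472))) (a (l 16162048) (l 2))) (a (a (b (a (l 16207792) (l 16188344)) (a (l 16256968) (l 16252896))) (b (l 16147144) (l 2))) (l 2)))), by decide +kernel⟩

theorem c_pp_022_b : CertB 0 536870912 1239849684 370763052 587336777 62277027 3 eng mog cd2q0 cd2q2b pd2 false true true .pp 0 2 2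
    ndB2q0 ndB2q2b pcB2 cut_pp_022_b Ext.none :=
  certB1 (fam := false) (s1 := true) (s2 := true) (a := 0) (b := 2) (c := 2) (cn := .pp) (n1 := ndB2q0) (n2 := ndB2q2b) (pc := pcB2) (cut := cut_pp_022_b) (xt := Ext.none) (P1 := 0) (W1 := 536870912) (P2 := 1239849684) (W2 := 370763052) (P3 := 587336777) (W3 := 62277027) (N0 := 3) (En := eng) (mo := mog) (C1 := cd2q0) (C2 := cd2q2b) (C3 := pd2)
    rfl (fun _ => rfl) k0_pp_022_b

noncomputable def f_pp_023 : ℕ → ℕ → ℕ → ℕ → Bool := onCell 0 536870912 1073741824 536870912 587336777 62277027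
    (rowB 3 eng mog cd2q0 cd2q3 pd2 1 false true true .up 0 2 3 (qsf 0 536870912 1610612736 536870912 2) ndB2q0 ndB2q3 pcB2 Cut.none Ext.none)

def k0_pp_023 : ∃ t, chk3 f_pp_023 t 1 1 1 = true :=
  ⟨(b (a (b (l 1) (a (l 1) (l 238403673591))) (b (a (l 205117771239) (l 16348216)) (a (l 280279548871) (l 16342496)))) (b (a (a (b (l 1) (l 437045638631)) (l 307122816023)) (a (l 16168936) (l 16495480))) (b (a (a (l 441340743527) (l 16093464)) (l 16502952)) (a (a (l 16403248) (l 16304696)) (l 16595928))))), by decide +kernel⟩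

theorem c_pp_023 : CertB 0 536870912 1610612736 536870912 587336777 62277027 3 eng mog cd2q0 cd2q3 pd2 false true true .up 0 2 3
    ndB2q0 ndB2q3 pcB2 Cut.none Ext.none :=
  certB1 (fam := false) (s1 := true) (s2 := true) (a := 0) (b := 2) (c := 3) (cn := .up) (n1 := ndB2q0) (n2 := ndB2q3) (pc := pcB2) (cut := Cut.none) (xt := Ext.none) (P1 := 0) (W1 := 536870912) (P2 := 1610612736) (W2 := 536870912) (P3 := 587336777) (W3 := 62277027) (N0 := 3) (En := eng) (mo := mog) (C1 := cd2q0) (C2 := cd2q3) (C3 := pd2)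
    rfl (fun _ => rfl) k0_pp_023

noncomputable def f_pp_033 : ℕ → ℕ → ℕ → ℕ → Bool := onCell 0 536870912 1610612736 536870912 587336777 62277027
    (rowB 3 eng mog cd2q0 cd2q3 pd3 1 false true true .pnn 0 3 3 (qsf 0 536870912 1610612736 536870912 3) ndB2q0 ndB2q3 pcB3 Cut.none Ext.none)

def k0_pp_033 : ∃ t, chk3 f_pp_033 t 1 1 1 = true :=
  ⟨(a (b (b (b (a (a (l 16243456) (l 16280584)) (l 16423960)) (a (l 16337152) (l 16489960))) (a (b (b (l 16400352) (l 16440064)) (l 16492224)) (b (l 16541288) (l 4)))) (b (l 4) (a (l 4) (a (b (l 4) (l 2)) (l 2))))) (b (b (b (l 16638824) (l 16820376)) (a (b (l 16644720) (l 4)) (a (b (l 4) (l 2)) (l 2)))) (a (b (a (b (l 4) (l 2)) (l 2)) (l 2)) (l 2)))), by decide +kernel⟩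

theorem c_pp_033 : CertB 0 536870912 1610612736 536870912 587336777 62277027 3 eng mog cd2q0 cd2q3 pd3 false true true .pnn 0 3 3
    ndB2q0 ndB2q3 pcB3 Cut.none Ext.none :=
  certB1 (fam := false) (s1 := true) (s2 := true) (a := 0) (b := 3) (c := 3) (cn := .pnn) (n1 := ndB2q0) (n2 := ndB2q3) (pc := pcB3) (cut := Cut.none) (xt := Ext.none) (P1 := 0) (W1 := 536870912) (P2 := 1610612736) (W2 := 536870912) (P3 := 587336777) (W3 := 62277027) (N0 := 3) (En := eng) (mo := mog) (C1 := cd2q0) (C2 := cd2q3) (C3 := pd3)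
    rfl (fun _ => rfl) k0_pp_033

noncomputable def f_pp_101 : ℕ → ℕ → ℕ → ℕ → Bool := onCell 536870912 536870912 536870912 536870912 587336777 62277027
    (rowB 3 eng mog cd2q1 cd2q1 pd0 0 false true true .npn 1 0 1 (qsf 536870912 536870912 536870912 536870912 0) ndB2q1 ndB2q1 pcB0 Cut.none Ext.none)

def k0_pp_101 : ∃ t, chk3 f_pp_101 t 1 1 1 = true :=
  ⟨(l 3), by decide +kernel⟩

theorem c_pp_101 : CertB 536870912 536870912 536870912 536870912 587336777 62277027 3 eng mog cd2q1 cd2q1 pd0 false true true .npn 1 0 1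
    ndB2q1 ndB2q1 pcB0 Cut.none Ext.none :=
  certB0 (fam := false) (s1 := true) (s2 := true) (a := 1) (b := 0) (c := 1) (cn := .npn) (n1 := ndB2q1) (n2 := ndB2q1) (pc := pcB0) (cut := Cut.none) (xt := Ext.none) (P1 := 536870912) (W1 := 536870912) (P2 := 536870912) (W2 := 536870912) (P3 := 587336777) (W3 := 62277027) (N0 := 3) (En := eng) (mo := mog) (C1 := cd2q1) (C2 := cd2q1) (C3 := pd0)
    rfl k0_pp_101

noncomputable def f_pp_102_a : ℕ → ℕ → ℕ → ℕ → Bool := onCell 0 536870912 0 536870912 587336777 62277027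
    (rowB 3 eng mog cd2q1 cd2q2a pd0 2 false true true .npp 1 0 2 (qsf 536870912 536870912 0 536870912 0) ndB2q1 ndB2q2a pcB0 Cut.none Ext.none)

def k0_pp_102_a : ∃ t, chk3 f_pp_102_a t 1 1 1 = true :=
  ⟨(a (a (l 3) (l 3)) (l 3)), by decide +kernel⟩

theorem c_pp_102_a : CertB 536870912 536870912 0 536870912 587336777 62277027 3 eng mog cd2q1 cd2q2a pd0 false true true .npp 1 0 2
    ndB2q1 ndB2q2a pcB0 Cut.none Ext.none :=
  certB2 (fam := false) (s1 := true) (s2 := true) (a := 1) (b := 0) (c := 2) (cn := .npp) (n1 := ndB2q1) (n2 := ndB2q2a) (pc := pcB0) (cut := Cut.none) (xt := Ext.none) (P1 := 536870912) (W1 := 536870912) (P2 := 0) (W2 := 536870912) (P3 := 587336777) (W3 := 62277027) (N0 := 3) (En := eng) (mo := mog) (C1 := cd2q1) (C2 := cd2q2a) (C3 := pd0)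
    rfl (fun _ => rfl) k0_pp_102_a

noncomputable def f_pp_102_b : ℕ → ℕ → ℕ → ℕ → Bool := onCell 536870912 536870912 0 536870912 587336777 62277027
    (rowB 3 eng mog cd2q1 cd2q2b pd0 1 false true true .npp 1 0 2 (qsf 536870912 536870912 1239849684 370763052 0) ndB2q1 ndB2q2b pcB0 Cut.none Ext.none)

def k0_pp_102_b : ∃ t, chk3 f_pp_102_b t 1 1 1 = true :=
  ⟨(a (a (l 1) (l 3)) (l 3)), by decide +kernel⟩

theorem c_pp_102_b : CertB 536870912 536870912 1239849684 370763052 587336777 62277027 3 eng mog cd2q1 cd2q2b pd0 false true true .npp 1 0 2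
    ndB2q1 ndB2q2b pcB0 Cut.none Ext.none :=
  certB1 (fam := false) (s1 := true) (s2 := true) (a := 1) (b := 0) (c := 2) (cn := .npp) (n1 := ndB2q1) (n2 := ndB2q2b) (pc := pcB0) (cut := Cut.none) (xt := Ext.none) (P1 := 536870912) (W1 := 536870912) (P2 := 1239849684) (W2 := 370763052) (P3 := 587336777) (W3 := 62277027) (N0 := 3) (En := eng) (mo := mog) (C1 := cd2q1) (C2 := cd2q2b) (C3 := pd0)
    rfl (fun _ => rfl) k0_pp_102_b

noncomputable def f_pp_112_a : ℕ → ℕ → ℕ → ℕ → Bool := onCell 536870912 536870912 0 536870912 587336777 62277027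
    (rowB 3 eng mog cd2q1 cd2q2a pd1 0 false true true .dn 1 1 2 (qsf 536870912 536870912 0 536870912 1) ndB2q1 ndB2q2a pcB1 Cut.none Ext.none)

def k0_pp_112_a : ∃ t, chk3 f_pp_112_a t 1 1 1 = true :=
  ⟨(a (b (b (a (a (b (a (b (a (l 16724936) (l 16722016)) (a (l 16716832) (l 16709648))) (b (a (l 16716880) (l 16708944)) (a (l 16699384) (b (l 16692768) (l 135459030359))))) (a (b (a (l 16677960) (b (l 16692864) (l 120963504375))) (a (l 130627188215) (l 3))) (b (a (l 140290870551) (l 3)) (l 3)))) (b (a (b (a (l 16698168) (l 124721641095)) (a (l 156397000695) (l 3))) (b (a (l 169281902887) (l 3)) (l 3))) (l 3))) (l 3)) (l 3)) (l 3)) (l 1)), by decide +kernel⟩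

theorem c_pp_112_a : CertB 536870912 536870912 0 536870912 587336777 62277027 3 eng mog cd2q1 cd2q2a pd1 false true true .dn 1 1 2
    ndB2q1 ndB2q2a pcB1 Cut.none Ext.none :=
  certB0 (fam := false) (s1 := true) (s2 := true) (a := 1) (b := 1) (c := 2) (cn := .dn) (n1 := ndB2q1) (n2 := ndB2q2a) (pc := pcB1) (cut := Cut.none) (xt := Ext.none) (P1 := 536870912) (W1 := 536870912) (P2 := 0) (W2 := 536870912) (P3 := 587336777) (W3 := 62277027) (N0 := 3) (En := eng) (mo := mog) (C1 := cd2q1) (C2 := cd2q2a) (C3 := pd1)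
    rfl k0_pp_112_a

end Pool.Agent.Strip051.G.I5470_6050.Tab.C.BB22

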