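import Pool.Agent.Strip051.G.I5470_6050.Tab

/-! # Certificates B34 (generated) -/

set_option linter.all false
set_option maxRecDepth 100000

namespace Pool.Agent.Strip051.G.I5470_6050.Tab.C.BB26

open Pool.Agent.Strip051.PB Pool.Agent.Strip051.PB.T
open Pool.Agent.Strip051.G.I5470_6050.Tab

noncomputable def f_pm_202_a : ℕ → ℕ → ℕ → ℕ → Bool := onCell 0 536870912 0 536870912 587336777 62277027
    (rowB 3 eng mog cd2q2a cd6q2 pd0 1 false true false .pp 2 0 2 (qsf 0 536870912 1073741824 536870912 0) ndB2q2a ndB6q2 pcB0 Cut.none Ext.none)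

def k0_pm_202_a : ∃ t, chk3 f_pm_202_a t 2 1 1 = true :=
  ⟨(b (b (b (a (b (a (l 16500480) (l 16502768)) (a (b (l 16515736) (l 16527192)) (l 16524520))) (b (a (l 16500856) (l 16493232)) (a (l 16522528) (l 16512352)))) (a (b (a (l 16540648) (l 16566824)) (a (l 16557344) (l 16566584))) (b (l 16544272) (a (l 16568720) (l 16564672))))) (a (b (b (l 16578200) (a (b (l 16578992) (l 16580776)) (l 16597312))) (a (b (a (l 16581008) (l 16586400)) (l 16584800)) (b (l 16605656) (l 16605000)))) (b (a (b (l 16590720) (l 16608160)) (b (l 16588416) (l 16611400))) (b (l 16630848) (l 16643328))))) (b (b (a (a (b (l 16572728) (l 16614400)) (b (l 16607992) (l 16603416))) (a (b (l 16630864) (l 16634296)) (b (l 16660328) (l 16661800)))) (a (a (b (a (l 16573976) (l 16576632)) (l 169214718679)) (l 104790245831)) (a (l 16630552) (b (l 16662576) (l 16661704))))) (a (l 2) (b (a (l 2) (l 16660728)) (l 2))))), by decide +kernel⟩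

def k1_pm_202_a : ∃ t, chk3 f_pm_202_a t 3 1 1 = true :=
  ⟨(b (b (b (a (a (b (b (l 16473608) (l 16481256)) (l 16493640)) (b (a (b (l 16454848) (l 16462272)) (l 16437912)) (a (l 16473544) (l 16458072)))) (a (b (b (a (l 16408992) (l 16381040)) (l 16405720)) (a (l 16435488) (l 16412384))) (b (a (b (b (l 16347448) (l 16353648)) (l 16364024)) (b (a (b (b (l 16321336) (l 16324576)) (l 16330064)) (a (b (b (l 16308008) (l 16312040)) (l 16319368)) (b (a (b (l 16299600) (l 16306504)) (b (l 16298352) (l 16304864))) (l 16316224)))) (a (l 16344176) (a (l 16337744) (l 16337136))))) (a (b (l 16380864) (l 16400056)) (a (l 16379152) (b (l 16366888) (l 16385872))))))) (a (b (a (l 16517904) (a (l 16495768) (l 16478864))) (a (l 16547792) (l 16519336))) (a (b (a (l 16462992) (l 16444752)) (a (l 16494344) (l 16482152))) (b (a (l 16431784) (b (l 16422304) (l 16442776))) (a (l 16477872) (l 16469728)))))) (a (b (b (l 16567232) (l 16598768)) (a (b (l 16630864) (l 16656736))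 (l 16640896))) (b (a (b (a (l 16536112) (l 16527472)) (l 16576872)) (b (a (l 16529176) (l 16503048)) (a (l 16586032) (l 16544312)))) (a (l 16643520) (b (l 16634016) (l 16680256)))))) (b (b (a (a (l 16683872) (l 16699968)) (a (l 16722064) (b (l 16728848) (l 16780400)))) (a (b (l 16713448) (l 16707224)) (b (a (l 16767264) (l 16841344)) (a (l 16789048) (l 16879256))))) (b (a (b (a (l 16697552) (l 16745248)) (l 16697312)) (a (l 16810800) (b (l 16904728) (l 16941440)))) (a (l 2) (a (l 16906288) (b (l 16971528) (l 16991824))))))), by decide +kernel⟩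

theorem s2_pm_202_a : ∃ t, chk3 f_pm_202_a t 1 1 1 = true := ex3_a k0_pm_202_a k1_pm_202_a

theorem c_pm_202_a : CertB 0 536870912 1073741824 536870912 587336777 62277027 3 eng mog cd2q2a cd6q2 pd0 false true false .pp 2 0 2
    ndB2q2a ndB6q2 pcB0 Cut.none Ext.none :=
  certB1 (fam := false) (s1 := true) (s2 := false) (a := 2) (b := 0) (c := 2) (cn := .pp) (n1 := ndB2q2a) (n2 := ndB6q2) (pc := pcB0) (cut := Cut.none) (xt := Ext.none) (P1 := 0) (W1 := 536870912) (P2 := 1073741824) (W2 := 536870912) (P3 := 587336777) (W3 := 62277027) (N0 := 3) (En := eng) (mo := mog) (C1 := cd2q2a) (C2 := cd6q2) (C3 := pd0)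
    rfl (fun _ => rfl) s2_pm_202_a

noncomputable def f_pm_202_b : ℕ → ℕ → ℕ → ℕ → Bool := onCell 0 536870912 1073741824 536870912 587336777 62277027
    (rowB 3 eng mog cd2q2b cd6q2 pd0 2 false true false .pp 2 0 2 (qsf 1239849684 370763052 1073741824 536870912 0) ndB2q2b ndB6q2 pcB0 Cut.none Ext.none)

def k0_pm_202_b : ∃ t, chk3 f_pm_202_b t 1 1 1 = true :=
  ⟨(a (b (a (b (l 1) (a (b (a (b (l 341483049383) (l 330745712503)) (b (l 1) (l 422550705735))) (a (b (l 16468384) (l 16429936)) (l 345240988215))) (b (l 1) (a (l 366179090647) (l 403760115863))))) (l 1)) (a (b (a (b (a (l 16343192) (l 16408552)) (l 16240688)) (b (a (l 16471040) (l 321081704103)) (l 16481528))) (a (b (l 16238816) (l 16400400)) (b (a (l 16309296) (l 16359536)) (a (l 16341688) (b (l 16372800) (l 16390440)))))) (b (b (a (a (l 338261756295) (l 395170249975)) (l 1)) (a (a (b (l 16508256) (l 16416160)) (b (b (l 16581744) (l 16553536)) (l 16500368))) (b (a (l 432751228727) (l 1)) (l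 466573937383)))) (a (b (a (l 16575840) (l 16447400)) (b (l 16437480) (l 16450736))) (b (b (l 324303209719) (l 16689640)) (b (l 16513248) (l 16523256))))))) (a (b (l 1) (b (l 1) (b (a (b (l 499860158903) (a (l 16607896) (l 399465347079))) (l 1)) (a (b (l 16702120) (l 16576608)) (b (l 429530077815) (l 322692845607)))))) (l 1))), by decide +kernel⟩

theorem c_pm_202_b : CertB 1239849684 370763052 1073741824 536870912 587336777 62277027 3 eng mog cd2q2b cd6q2 pd0 false true false .pp 2 0 2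
    ndB2q2b ndB6q2 pcB0 Cut.none Ext.none :=
  certB2 (fam := false) (s1 := true) (s2 := false) (a := 2) (b := 0) (c := 2) (cn := .pp) (n1 := ndB2q2b) (n2 := ndB6q2) (pc := pcB0) (cut := Cut.none) (xt := Ext.none) (P1 := 1239849684) (W1 := 370763052) (P2 := 1073741824) (W2 := 536870912) (P3 := 587336777) (W3 := 62277027) (N0 := 3) (En := eng) (mo := mog) (C1 := cd2q2b) (C2 := cd6q2) (C3 := pd0)
    rfl (fun _ => rfl) k0_pm_202_b

noncomputable def f_pm_203_a : ℕ → ℕ → ℕ → ℕ → Bool := onCell 0 536870912 0 1230186008 587336777 62277027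
    (rowB 3 eng mog cd2q2a cd6q3 pd0 0 false true false .up 2 0 3 (qsf 0 536870912 0 1230186008 0) ndB2q2a ndB6q3 pcB0 Cut.none Ext.none)

def k0_pm_203_a : ∃ t, chk3 f_pm_203_a t 1 1 1 = true :=
  ⟨(b (l 2) (b (l 2) (a (b (b (l 2) (b (a (l 2) (l 2)) (a (a (a (b (l 16704272) (l 16693976)) (b (l 16707856) (l 16697504))) (l 16714896)) (l 16748456)))) (a (b (a (b (b (a (l 16681968) (l 16685448)) (a (l 16664664) (l 16668992))) (a (b (l 16648032) (l 16637400)) (l 16652808))) (b (l 16694944) (l 16667528))) (b (a (l 16640232) (l 16622656)) (a (l 16605752) (l 16603592)))) (b (b (l 16717768) (l 16709176)) (a (l 16645648) (l 16684400))))) (b (l 2) (a (b (l 16792256) (b (a (l 16731224) (l 16774080)) (a (l 16707352) (l 16748064)))) (b (a (l 16887248) (l 2)) (a (b (l 16853520) (l 16834392)) (b (l 17028208) (l 17009936))))))))), by decide +kernel⟩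

theorem c_pm_203_a : CertB 0 536870912 0 1230186008 587336777 62277027 3 eng mog cd2q2a cd6q3 pd0 false true false .up 2 0 3
    ndB2q2a ndB6q3 pcB0 Cut.none Ext.none :=
  certB0 (fam := false) (s1 := true) (s2 := false) (a := 2) (b := 0) (c := 3) (cn := .up) (n1 := ndB2q2a) (n2 := ndB6q3) (pc := pcB0) (cut := Cut.none) (xt := Ext.none) (P1 := 0) (W1 := 536870912) (P2 := 0) (W2 := 1230186008) (P3 := 587336777) (W3 := 62277027) (N0 := 3) (En := eng) (mo := mog) (C1 := cd2q2a) (C2 := cd6q3) (C3 := pd0)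
    rfl k0_pm_203_a

noncomputable def f_pm_203_b : ℕ → ℕ → ℕ → ℕ → Bool := onCell 1239849684 370763052 0 1230186008 587336777 62277027
    (rowB 3 eng mog cd2q2b cd6q3 pd0 0 false true false .up 2 0 3 (qsf 1239849684 370763052 0 1230186008 0) ndB2q2b ndB6q3 pcB0 Cut.none Ext.none)

def k0_pm_203_b : ∃ t, chk3 f_pm_203_b t 1 1 1 = true :=
  ⟨(b (l 3) (b (l 3) (a (b (a (b (l 3) (a (b (l 3) (a (l 181093144807) (l 16667088))) (l 3))) (l 3)) (a (b (a (b (a (l 16657368) (l 16638408)) (b (l 16623680) (l 16620784))) (b (a (l 16647216) (l 16647720)) (b (l 16636264) (l 16627224)))) (b (a (l 16617992) (b (l 16618560) (l 16610192))) (a (l 16613688) (l 16597000)))) (b (a (b (l 141364740551) (l 16615632)) (b (l 3) (l 16589136))) (b (a (l 16589680) (l 16556024)) (l 16545624))))) (b (l 3) (a (b (a (b (l 3) (l 16556648)) (l 3)) (a (b (l 16519064) (l 16476304)) (b (l 16474448) (l 16431672)))) (b (l 3) (b (a (l 16432232) (l 16389920)) (a (b (l 16395528) (l 16377352))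 (l 64591627671))))))))), by decide +kernel⟩

theorem c_pm_203_b : CertB 1239849684 370763052 0 1230186008 587336777 62277027 3 eng mog cd2q2b cd6q3 pd0 false true false .up 2 0 3
    ndB2q2b ndB6q3 pcB0 Cut.none Ext.none :=
  certB0 (fam := false) (s1 := true) (s2 := false) (a := 2) (b := 0) (c := 3) (cn := .up) (n1 := ndB2q2b) (n2 := ndB6q3) (pc := pcB0) (cut := Cut.none) (xt := Ext.none) (P1 := 1239849684) (W1 := 370763052) (P2 := 0) (W2 := 1230186008) (P3 := 587336777) (W3 := 62277027) (N0 := 3) (En := eng) (mo := mog) (C1 := cd2q2b) (C2 := cd6q3) (C3 := pd0)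
    rfl k0_pm_203_b

noncomputable def cut_pm_213_a : Cut := Cut.of [[⟨0, 1, 0, 67108864⟩, ⟨1, 1, 0, 67108864⟩, ⟨2, 2, 0, 16777216⟩]]

noncomputable def f_pm_213_a : ℕ → ℕ → ℕ → ℕ → Bool := onCell 0 536870912 0 1230186008 587336777 62277027
    (rowB 3 eng mog cd2q2a cd6q3 pd1 0 false true false .pnn 2 1 3 (qsf 0 536870912 0 1230186008 1) ndB2q2a ndB6q3 pcB1 cut_pm_213_a Ext.none)

def k0_pm_213_a : ∃ t, chk3 f_pm_213_a t 1 2 1 = true :=
  ⟨(a (b (l 3) (b (l 3) (a (l 3) (a (l 3) (b (l 3) (a (l 3) (b (l 3) (l 262160753527)))))))) (a (b (b (l 3) (l 3)) (b (a (b (l 3) (l 3)) (b (a (l 3) (b (l 289004335687) (l 256792135431))) (a (b (l 301352363911) (l 254644615303)) (b (l 16792616) (l 16797856))))) (a (b (a (b (l 3) (l 300278600375)) (b (l 268066359015) (l 206862982295))) (a (b (l 239075339303) (l 16754536)) (b (l 16785296) (l 16792616)))) (b (a (b (l 16769224) (l 16796136)) (b (l 16804648) (l 16811992))) (a (a (l 16801784) (l 16811104)) (l 16826632))))))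 (b (a (b (l 3) (b (a (l 3) (a (a (l 345912641239) (l 319606022839)) (l 6))) (a (b (l 315311047831) (l 252497161319)) (b (a (l 16785768) (l 16786120)) (l 16790504))))) (b (l 6) (b (b (l 6) (a (l 16783512) (l 16783272))) (a (b (l 16786776) (l 16790720)) (l 16789440))))) (b (a (b (a (b (l 16812520) (l 16796416)) (b (l 16795640) (l 16801384))) (a (b (l 16802872) (l 16810312)) (l 16811728))) (b (l 16799088) (l 16813160))) (a (b (l 16827608) (l 16846920)) (b (l 16828864) (l 16847888))))))), by decide +kernel⟩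

def k1_pm_213_a : ∃ t, chk3 f_pm_213_a t 1 3 1 = true :=
  ⟨(b (a (b (a (l 3) (b (a (l 3) (a (b (l 3) (l 279877485047)) (b (l 180556495447) (l 16772608)))) (a (a (l 3) (b (l 288467417895) (l 265918793895))) (b (a (l 16746312) (l 16785768)) (a (l 16777616) (l 16797368)))))) (a (a (l 3) (b (b (l 3) (l 222969233847)) (b (a (l 3) (l 236390894663)) (a (l 220284767415) (l 16760608))))) (b (a (b (l 209010615671) (a (l 235317159719) (l 16782760))) (b (a (l 16790488) (l 16810856)) (l 16806264))) (a (b (a (l 16772416) (l 16790904)) (l 16827192)) (b (l 16830680) (l 16847616)))))) (a (b (a (b (b (a (l 16782248) (l 16801072)) (a (l 16793128) (l 16813312))) (b (a (l 16804952) (l 16829376)) (l 16834088))) (b (l 16840816) (l 16878832))) (b (a (l 16864272) (l 16904904)) (a (l 16941416) (l 16905760)))) (b (a (b (l 16867712) (l 16888200)) (b (l 16866280) (l 16882792))) (a (b (l 16902768) (l 16932160)) (b (l 16901616) (l 16916616)))))) (a (b (a (b (b (a (l 184851332551)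 (a (l 158007728087) (l 16747424))) (a (b (l 182703810839) (a (l 185924974871) (l 16736880))) (a (b (l 16753592) (l 16759616)) (l 16769448)))) (a (b (b (a (l 200957365239) (l 16737896)) (a (l 16719320) (l 16743288))) (b (a (l 16717296) (l 16748904)) (l 1))) (b (a (b (l 16763496) (l 16768960)) (l 16798712)) (l 16788352)))) (a (b (a (l 16792104) (l 16832040)) (l 16964080)) (b (l 16910640) (l 16931872)))) (b (a (l 1) (a (l 1) (l 16846112))) (l 1))) (b (a (b (a (l 16925152) (l 16945240)) (l 16961224)) (a (l 16946120) (l 16942576))) (a (b (l 16945504) (l 1)) (b (l 16963480) (a (l 16974696) (l 16977432))))))), by decide +kernel⟩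

theorem s2_pm_213_a : ∃ t, chk3 f_pm_213_a t 1 1 1 = true := ex3_b k0_pm_213_a k1_pm_213_a

theorem c_pm_213_a : CertB 0 536870912 0 1230186008 587336777 62277027 3 eng mog cd2q2a cd6q3 pd1 false true false .pnn 2 1 3
    ndB2q2a ndB6q3 pcB1 cut_pm_213_a Ext.none :=
  certB0 (fam := false) (s1 := true) (s2 := false) (a := 2) (b := 1) (c := 3) (cn := .pnn) (n1 := ndB2q2a) (n2 := ndB6q3) (pc := pcB1) (cut := cut_pm_213_a) (xt := Ext.none) (P1 := 0) (W1 := 536870912) (P2 := 0) (W2 := 1230186008) (P3 := 587336777) (W3 := 62277027) (N0 := 3) (En := eng) (mo := mog) (C1 := cd2q2a) (C2 := cd6q3) (C3 := pd1)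
    rfl s2_pm_213_a

noncomputable def cut_pm_213_b : Cut := Cut.of [[⟨0, 1, 0, 67108864⟩, ⟨1, 1, 0, 67108864⟩, ⟨2, 2, 0, 16777216⟩]]

noncomputable def f_pm_213_b : ℕ → ℕ → ℕ → ℕ → Bool := onCell 1239849684 370763052 0 1230186008 587336777 62277027
    (rowB 3 eng mog cd2q2b cd6q3 pd1 0 false true false .pnn 2 1 3 (qsf 1239849684 370763052 0 1230186008 1) ndB2q2b ndB6q3 pcB1 cut_pm_213_b Ext.none)

def k0_pm_213_b : ∃ t, chk3 f_pm_213_b t 1 1 1 = true :=
  ⟨(b (l 3) (b (l 3) (a (b (a (b (l 3) (a (b (l 3) (a (b (l 16693024) (l 1)) (l 1))) (l 1))) (l 1)) (l 1)) (l 1)))), by decide +kernel⟩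

theorem c_pm_213_b : CertB 1239849684 370763052 0 1230186008 587336777 62277027 3 eng mog cd2q2b cd6q3 pd1 false true false .pnn 2 1 3
    ndB2q2b ndB6q3 pcB1 cut_pm_213_b Ext.none :=
  certB0 (fam := false) (s1 := true) (s2 := false) (a := 2) (b := 1) (c := 3) (cn := .pnn) (n1 := ndB2q2b) (n2 := ndB6q3) (pc := pcB1) (cut := cut_pm_213_b) (xt := Ext.none) (P1 := 1239849684) (W1 := 370763052) (P2 := 0) (W2 := 1230186008) (P3 := 587336777) (W3 := 62277027) (N0 := 3) (En := eng) (mo := mog) (C1 := cd2q2b) (C2 := cd6q3) (C3 := pd1)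
    rfl k0_pm_213_b

noncomputable def f_pm_303 : ℕ → ℕ → ℕ → ℕ → Bool := onCell 1610612736 536870912 0 1230186008 587336777 62277027
    (rowB 3 eng mog cd2q3 cd6q3 pd0 0 false true false .npn 3 0 3 (qsf 1610612736 536870912 0 1230186008 0) ndB2q3 ndB6q3 pcB0 Cut.none Ext.none)

def k0_pm_303 : ∃ t, chk3 f_pm_303 t 1 1 1 = true :=
  ⟨(b (l 3) (b (l 3) (a (b (l 3) (b (l 3) (a (b (l 3) (a (b (l 16240744) (l 16220072)) (l 1))) (l 1)))) (l 1)))), by decide +kernel⟩

theorem c_pm_303 : CertB 1610612736 536870912 0 1230186008 587336777 62277027 3 eng mog cd2q3 cd6q3 pd0 false true false .npn 3 0 3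
    ndB2q3 ndB6q3 pcB0 Cut.none Ext.none :=
  certB0 (fam := false) (s1 := true) (s2 := false) (a := 3) (b := 0) (c := 3) (cn := .npn) (n1 := ndB2q3) (n2 := ndB6q3) (pc := pcB0) (cut := Cut.none) (xt := Ext.none) (P1 := 1610612736) (W1 := 536870912) (P2 := 0) (W2 := 1230186008) (P3 := 587336777) (W3 := 62277027) (N0 := 3) (En := eng) (mo := mog) (C1 := cd2q3) (C2 := cd6q3) (C3 := pd0)
    rfl k0_pm_303

noncomputable def f_pm_313 : ℕ → ℕ → ℕ → ℕ → Bool := onCell 1610612736 536870912 0 1230186008 587336777 62277027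
    (rowB 3 eng mog cd2q3 cd6q3 pd1 0 false true false .dn 3 1 3 (qsf 1610612736 536870912 0 1230186008 1) ndB2q3 ndB6q3 pcB1 Cut.none Ext.none)

def k0_pm_313 : ∃ t, chk3 f_pm_313 t 1 1 1 = true :=
  ⟨(b (l 3) (l 1)), by decide +kernel⟩

theorem c_pm_313 : CertB 1610612736 536870912 0 1230186008 587336777 62277027 3 eng mog cd2q3 cd6q3 pd1 false true false .dn 3 1 3
    ndB2q3 ndB6q3 pcB1 Cut.none Ext.none :=
  certB0 (fam := false) (s1 := true) (s2 := false) (a := 3) (b := 1) (c := 3) (cn := .dn) (n1 := ndB2q3) (n2 := ndB6q3) (pc := pcB1) (cut := Cut.none) (xt := Ext.none) (P1 := 1610612736) (W1 := 536870912) (P2 := 0) (W2 := 1230186008) (P3 := 587336777) (W3 := 62277027) (N0 := 3) (En := eng) (mo := mog) (C1 := cd2q3) (C2 := cd6q3) (C3 := pd1)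
    rfl k0_pm_313

noncomputable def f_mm_001 : ℕ → ℕ → ℕ → ℕ → Bool := onCell 0 536870912 0 536870912 587336777 62277027
    (rowB 3 eng mog cd2q0 cd6q1 pd0 1 false false false .up 0 0 1 (qsf 0 536870912 536870912 536870912 0) ndB2q0 ndB6q1 pcB0 Cut.none Ext.none)

def k0_mm_001 : ∃ t, chk3 f_mm_001 t 1 1 1 = true :=
  ⟨(l 3), by decide +kernel⟩

theorem c_mm_001 : CertB 0 536870912 536870912 536870912 587336777 62277027 3 eng mog cd2q0 cd6q1 pd0 false false false .up 0 0 1
    ndB2q0 ndB6q1 pcB0 Cut.none Ext.none :=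
  certB1 (fam := false) (s1 := false) (s2 := false) (a := 0) (b := 0) (c := 1) (cn := .up) (n1 := ndB2q0) (n2 := ndB6q1) (pc := pcB0) (cut := Cut.none) (xt := Ext.none) (P1 := 0) (W1 := 536870912) (P2 := 536870912) (W2 := 536870912) (P3 := 587336777) (W3 := 62277027) (N0 := 3) (En := eng) (mo := mog) (C1 := cd2q0) (C2 := cd6q1) (C3 := pd0)
    rfl (fun _ => rfl) k0_mm_001

noncomputable def f_mm_011 : ℕ → ℕ → ℕ → ℕ → Bool := onCell 0 536870912 536870912 536870912 587336777 62277027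
    (rowB 3 eng mog cd2q0 cd6q1 pd1 1 false false false .pnn 0 1 1 (qsf 0 536870912 536870912 536870912 1) ndB2q0 ndB6q1 pcB1 Cut.none Ext.none)

def k0_mm_011 : ∃ t, chk3 f_mm_011 t 1 1 1 = true :=
  ⟨(l 5), by decide +kernel⟩

theorem c_mm_011 : CertB 0 536870912 536870912 536870912 587336777 62277027 3 eng mog cd2q0 cd6q1 pd1 false false false .pnn 0 1 1
    ndB2q0 ndB6q1 pcB1 Cut.none Ext.none :=
  certB1 (fam := false) (s1 := false) (s2 := false) (a := 0) (b := 1) (c := 1) (cn := .pnn) (n1 := ndB2q0) (n2 := ndB6q1) (pc := pcB1) (cut := Cut.none) (xt := Ext.none) (P1 := 0) (W1 := 536870912) (P2 := 536870912) (W2 := 536870912) (P3 := 587336777) (W3 := 62277027) (N0 := 3) (En := eng) (mo := mog) (C1 := cd2q0) (C2 := cd6q1) (C3 := pd1)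
    rfl (fun _ => rfl) k0_mm_011

noncomputable def f_mm_012 : ℕ → ℕ → ℕ → ℕ → Bool := onCell 0 536870912 1073741824 536870912 587336777 62277027
    (rowB 3 eng mog cd2q0 cd6q2 pd1 0 false false false .pnp 0 1 2 (qsf 0 536870912 1073741824 536870912 1) ndB2q0 ndB6q2 pcB1 Cut.none Ext.none)

def k0_mm_012 : ∃ t, chk3 f_mm_012 t 1 1 1 = true :=
  ⟨(l 5), by decide +kernel⟩

theorem c_mm_012 : CertB 0 536870912 1073741824 536870912 587336777 62277027 3 eng mog cd2q0 cd6q2 pd1 false false false .pnp 0 1 2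
    ndB2q0 ndB6q2 pcB1 Cut.none Ext.none :=
  certB0 (fam := false) (s1 := false) (s2 := false) (a := 0) (b := 1) (c := 2) (cn := .pnp) (n1 := ndB2q0) (n2 := ndB6q2) (pc := pcB1) (cut := Cut.none) (xt := Ext.none) (P1 := 0) (W1 := 536870912) (P2 := 1073741824) (W2 := 536870912) (P3 := 587336777) (W3 := 62277027) (N0 := 3) (En := eng) (mo := mog) (C1 := cd2q0) (C2 := cd6q2) (C3 := pd1)
    rfl k0_mm_012

noncomputable def f_mm_022 : ℕ → ℕ → ℕ → ℕ → Bool := onCell 0 536870912 1073741824 536870912 587336777 62277027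
    (rowB 3 eng mog cd2q0 cd6q2 pd2 0 false false false .pp 0 2 2 (qsf 0 536870912 1073741824 536870912 2) ndB2q0 ndB6q2 pcB2 Cut.none Ext.none)

def k0_mm_022 : ∃ t, chk3 f_mm_022 t 1 1 1 = true :=
  ⟨(l 5), by decide +kernel⟩

theorem c_mm_022 : CertB 0 536870912 1073741824 536870912 587336777 62277027 3 eng mog cd2q0 cd6q2 pd2 false false false .pp 0 2 2
    ndB2q0 ndB6q2 pcB2 Cut.none Ext.none :=
  certB0 (fam := false) (s1 := false) (s2 := false) (a := 0) (b := 2) (c := 2) (cn := .pp) (n1 := ndB2q0) (n2 := ndB6q2) (pc := pcB2) (cut := Cut.none) (xt := Ext.none) (P1 := 0) (W1 := 536870912) (P2 := 1073741824) (W2 := 536870912) (P3 := 587336777) (W3 := 62277027) (N0 := 3) (En := eng) (mo := mog) (C1 := cd2q0) (C2 := cd6q2) (C3 := pd2)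
    rfl k0_mm_022

noncomputable def f_mm_023 : ℕ → ℕ → ℕ → ℕ → Bool := onCell 0 536870912 0 1230186008 587336777 62277027
    (rowB 3 eng mog cd2q0 cd6q3 pd2 0 false false false .up 0 2 3 (qsf 0 536870912 0 1230186008 2) ndB2q0 ndB6q3 pcB2 Cut.none Ext.none)

def k0_mm_023 : ∃ t, chk3 f_mm_023 t 1 1 1 = true :=
  ⟨(l 5), by decide +kernel⟩

theorem c_mm_023 : CertB 0 536870912 0 1230186008 587336777 62277027 3 eng mog cd2q0 cd6q3 pd2 false false false .up 0 2 3
    ndB2q0 ndB6q3 pcB2 Cut.none Ext.none :=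
  certB0 (fam := false) (s1 := false) (s2 := false) (a := 0) (b := 2) (c := 3) (cn := .up) (n1 := ndB2q0) (n2 := ndB6q3) (pc := pcB2) (cut := Cut.none) (xt := Ext.none) (P1 := 0) (W1 := 536870912) (P2 := 0) (W2 := 1230186008) (P3 := 587336777) (W3 := 62277027) (N0 := 3) (En := eng) (mo := mog) (C1 := cd2q0) (C2 := cd6q3) (C3 := pd2)
    rfl k0_mm_023

noncomputable def f_mm_033 : ℕ → ℕ → ℕ → ℕ → Bool := onCell 0 536870912 0 1230186008 587336777 62277027
    (rowB 3 eng mog cd2q0 cd6q3 pd3 0 false false false .pnn 0 3 3 (qsf 0 536870912 0 1230186008 3) ndB2q0 ndB6q3 pcB3 Cut.none Ext.none)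

def k0_mm_033 : ∃ t, chk3 f_mm_033 t 1 1 1 = true :=
  ⟨(l 5), by decide +kernel⟩

theorem c_mm_033 : CertB 0 536870912 0 1230186008 587336777 62277027 3 eng mog cd2q0 cd6q3 pd3 false false false .pnn 0 3 3
    ndB2q0 ndB6q3 pcB3 Cut.none Ext.none :=
  certB0 (fam := false) (s1 := false) (s2 := false) (a := 0) (b := 3) (c := 3) (cn := .pnn) (n1 := ndB2q0) (n2 := ndB6q3) (pc := pcB3) (cut := Cut.none) (xt := Ext.none) (P1 := 0) (W1 := 536870912) (P2 := 0) (W2 := 1230186008) (P3 := 587336777) (W3 := 62277027) (N0 := 3) (En := eng) (mo := mog) (C1 := cd2q0) (C2 := cd6q3) (C3 := pd3)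
    rfl k0_mm_033

noncomputable def f_mm_101 : ℕ → ℕ → ℕ → ℕ → Bool := onCell 536870912 536870912 0 536870912 587336777 62277027
    (rowB 3 eng mog cd2q1 cd6q1 pd0 1 false false false .npn 1 0 1 (qsf 536870912 536870912 536870912 536870912 0) ndB2q1 ndB6q1 pcB0 Cut.none Ext.none)

def k0_mm_101 : ∃ t, chk3 f_mm_101 t 1 1 1 = true :=
  ⟨(l 3), by decide +kernel⟩

theorem c_mm_101 : CertB 536870912 536870912 536870912 536870912 587336777 62277027 3 eng mog cd2q1 cd6q1 pd0 false false false .npn 1 0 1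
    ndB2q1 ndB6q1 pcB0 Cut.none Ext.none :=
  certB1 (fam := false) (s1 := false) (s2 := false) (a := 1) (b := 0) (c := 1) (cn := .npn) (n1 := ndB2q1) (n2 := ndB6q1) (pc := pcB0) (cut := Cut.none) (xt := Ext.none) (P1 := 536870912) (W1 := 536870912) (P2 := 536870912) (W2 := 536870912) (P3 := 587336777) (W3 := 62277027) (N0 := 3) (En := eng) (mo := mog) (C1 := cd2q1) (C2 := cd6q1) (C3 := pd0)
    rfl (fun _ => rfl) k0_mm_101

noncomputable def f_mm_102 : ℕ → ℕ → ℕ → ℕ → Bool := onCell 536870912 536870912 1073741824 536870912 587336777 62277027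
    (rowB 3 eng mog cd2q1 cd6q2 pd0 0 false false false .npp 1 0 2 (qsf 536870912 536870912 1073741824 536870912 0) ndB2q1 ndB6q2 pcB0 Cut.none Ext.none)

def k0_mm_102 : ∃ t, chk3 f_mm_102 t 1 1 1 = true :=
  ⟨(l 3), by decide +kernel⟩

theorem c_mm_102 : CertB 536870912 536870912 1073741824 536870912 587336777 62277027 3 eng mog cd2q1 cd6q2 pd0 false false false .npp 1 0 2
    ndB2q1 ndB6q2 pcB0 Cut.none Ext.none :=
  certB0 (fam := false) (s1 := false) (s2 := false) (a := 1) (b := 0) (c := 2) (cn := .npp) (n1 := ndB2q1) (n2 := ndB6q2) (pc := pcB0) (cut := Cut.none) (xt := Ext.none) (P1 := 536870912) (W1 := 536870912) (P2 := 1073741824) (W2 := 536870912) (P3 := 587336777) (W3 := 62277027) (N0 := 3) (En := eng) (mo := mog) (C1 := cd2q1) (C2 := cd6q2) (C3 := pd0)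
    rfl k0_mm_102

noncomputable def f_mm_112 : ℕ → ℕ → ℕ → ℕ → Bool := onCell 536870912 536870912 1073741824 536870912 587336777 62277027
    (rowB 3 eng mog cd2q1 cd6q2 pd1 0 false false false .dn 1 1 2 (qsf 536870912 536870912 1073741824 536870912 1) ndB2q1 ndB6q2 pcB1 Cut.none Ext.none)

def k0_mm_112 : ∃ t, chk3 f_mm_112 t 1 1 1 = true :=
  ⟨(l 3), by decide +kernel⟩

theorem c_mm_112 : CertB 536870912 536870912 1073741824 536870912 587336777 62277027 3 eng mog cd2q1 cd6q2 pd1 false false false .dn 1 1 2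
    ndB2q1 ndB6q2 pcB1 Cut.none Ext.none :=
  certB0 (fam := false) (s1 := false) (s2 := false) (a := 1) (b := 1) (c := 2) (cn := .dn) (n1 := ndB2q1) (n2 := ndB6q2) (pc := pcB1) (cut := Cut.none) (xt := Ext.none) (P1 := 536870912) (W1 := 536870912) (P2 := 1073741824) (W2 := 536870912) (P3 := 587336777) (W3 := 62277027) (N0 := 3) (En := eng) (mo := mog) (C1 := cd2q1) (C2 := cd6q2) (C3 := pd1)
    rfl k0_mm_112

noncomputable def f_mm_113 : ℕ → ℕ → ℕ → ℕ → Bool := onCell 536870912 536870912 0 1230186008 587336777 62277027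
    (rowB 3 eng mog cd2q1 cd6q3 pd1 0 false false false .nn 1 1 3 (qsf 536870912 536870912 0 1230186008 1) ndB2q1 ndB6q3 pcB1 Cut.none Ext.none)

def k0_mm_113 : ∃ t, chk3 f_mm_113 t 1 1 1 = true :=
  ⟨(b (l 5) (l 5)), by decide +kernel⟩

theorem c_mm_113 : CertB 536870912 536870912 0 1230186008 587336777 62277027 3 eng mog cd2q1 cd6q3 pd1 false false false .nn 1 1 3
    ndB2q1 ndB6q3 pcB1 Cut.none Ext.none :=
  certB0 (fam := false) (s1 := false) (s2 := false) (a := 1) (b := 1) (c := 3) (cn := .nn) (n1 := ndB2q1) (n2 := ndB6q3) (pc := pcB1) (cut := Cut.none) (xt := Ext.none) (P1 := 536870912) (W1 := 536870912) (P2 := 0) (W2 := 1230186008) (P3 := 587336777) (W3 := 62277027) (N0 := 3) (En := eng) (mo := mog) (C1 := cd2q1) (C2 := cd6q3) (C3 := pd1)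
    rfl k0_mm_113

noncomputable def f_mm_123 : ℕ → ℕ → ℕ → ℕ → Bool := onCell 536870912 536870912 0 1230186008 587336777 62277027
    (rowB 3 eng mog cd2q1 cd6q3 pd2 0 false false false .npn 1 2 3 (qsf 536870912 536870912 0 1230186008 2) ndB2q1 ndB6q3 pcB2 Cut.none Ext.none)

def k0_mm_123 : ∃ t, chk3 f_mm_123 t 1 1 1 = true :=
  ⟨(b (l 5) (l 5)), by decide +kernel⟩

theorem c_mm_123 : CertB 536870912 536870912 0 1230186008 587336777 62277027 3 eng mog cd2q1 cd6q3 pd2 false false false .npn 1 2 3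
    ndB2q1 ndB6q3 pcB2 Cut.none Ext.none :=
  certB0 (fam := false) (s1 := false) (s2 := false) (a := 1) (b := 2) (c := 3) (cn := .npn) (n1 := ndB2q1) (n2 := ndB6q3) (pc := pcB2) (cut := Cut.none) (xt := Ext.none) (P1 := 536870912) (W1 := 536870912) (P2 := 0) (W2 := 1230186008) (P3 := 587336777) (W3 := 62277027) (N0 := 3) (En := eng) (mo := mog) (C1 := cd2q1) (C2 := cd6q3) (C3 := pd2)
    rfl k0_mm_123

noncomputable def f_mm_133 : ℕ → ℕ → ℕ → ℕ → Bool := onCell 536870912 536870912 0 1230186008 587336777 62277027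
    (rowB 3 eng mog cd2q1 cd6q3 pd3 0 false false false .dn 1 3 3 (qsf 536870912 536870912 0 1230186008 3) ndB2q1 ndB6q3 pcB3 Cut.none Ext.none)

def k0_mm_133 : ∃ t, chk3 f_mm_133 t 1 1 1 = true :=
  ⟨(b (l 5) (l 1)), by decide +kernel⟩

theorem c_mm_133 : CertB 536870912 536870912 0 1230186008 587336777 62277027 3 eng mog cd2q1 cd6q3 pd3 false false false .dn 1 3 3
    ndB2q1 ndB6q3 pcB3 Cut.none Ext.none :=
  certB0 (fam := false) (s1 := false) (s2 := false) (a := 1) (b := 3) (c := 3) (cn := .dn) (n1 := ndB2q1) (n2 := ndB6q3) (pc := pcB3) (cut := Cut.none) (xt := Ext.none) (P1 := 536870912) (W1 := 536870912) (P2 := 0) (W2 := 1230186008) (P3 := 587336777) (W3 := 62277027) (N0 := 3) (En := eng) (mo := mog) (C1 := cd2q1) (C2 := cd6q3) (C3 := pd3)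
    rfl k0_mm_133

noncomputable def f_mm_202_a : ℕ → ℕ → ℕ → ℕ → Bool := onCell 0 536870912 0 536870912 587336777 62277027
    (rowB 3 eng mog cd2q2a cd6q2 pd0 1 false false false .pp 2 0 2 (qsf 0 536870912 1073741824 536870912 0) ndB2q2a ndB6q2 pcB0 Cut.none Ext.none)

def k0_mm_202_a : ∃ t, chk3 f_mm_202_a t 1 1 1 = true :=
  ⟨(a (b (b (b (a (a (b (a (b (a (b (a (l 16456040) (b (l 16453936) (l 16455512))) (b (a (l 16457240) (l 182166353943)) (c (l 152638673351) (l 16445744)))) (b (l 263770766375) (l 3))) (a (c (l 155859887735) (l 184313846007)) (l 3))) (l 3)) (l 202567530359)) (l 3)) (l 3)) (l 3)) (l 3)) (l 3)) (l 3)), by decide +kernel⟩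

theorem c_mm_202_a : CertB 0 536870912 1073741824 536870912 587336777 62277027 3 eng mog cd2q2a cd6q2 pd0 false false false .pp 2 0 2
    ndB2q2a ndB6q2 pcB0 Cut.none Ext.none :=
  certB1 (fam := false) (s1 := false) (s2 := false) (a := 2) (b := 0) (c := 2) (cn := .pp) (n1 := ndB2q2a) (n2 := ndB6q2) (pc := pcB0) (cut := Cut.none) (xt := Ext.none) (P1 := 0) (W1 := 536870912) (P2 := 1073741824) (W2 := 536870912) (P3 := 587336777) (W3 := 62277027) (N0 := 3) (En := eng) (mo := mog) (C1 := cd2q2a) (C2 := cd6q2) (C3 := pd0)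
    rfl (fun _ => rfl) k0_mm_202_a

noncomputable def f_mm_202_b : ℕ → ℕ → ℕ → ℕ → Bool := onCell 1239849684 370763052 0 536870912 587336777 62277027
    (rowB 3 eng mog cd2q2b cd6q2 pd0 1 false false false .pp 2 0 2 (qsf 1239849684 370763052 1073741824 536870912 0) ndB2q2b ndB6q2 pcB0 Cut.none Ext.none)

def k0_mm_202_b : ∃ t, chk3 f_mm_202_b t 1 1 1 = true :=
  ⟨(b (b (a (b (a (a (b (b (a (b (a (l 16508128) (l 16421120)) (a (b (l 16446152) (l 16428256)) (l 16426000))) (b (l 16389392) (l 16394512))) (a (b (l 16441880) (l 16446712)) (l 3))) (a (l 72107905399) (l 3))) (l 3)) (l 3)) (l 3)) (l 3)) (l 3)) (b (l 3) (l 2))), by decide +kernel⟩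

theorem c_mm_202_b : CertB 1239849684 370763052 1073741824 536870912 587336777 62277027 3 eng mog cd2q2b cd6q2 pd0 false false false .pp 2 0 2
    ndB2q2b ndB6q2 pcB0 Cut.none Ext.none :=
  certB1 (fam := false) (s1 := false) (s2 := false) (a := 2) (b := 0) (c := 2) (cn := .pp) (n1 := ndB2q2b) (n2 := ndB6q2) (pc := pcB0) (cut := Cut.none) (xt := Ext.none) (P1 := 1239849684) (W1 := 370763052) (P2 := 1073741824) (W2 := 536870912) (P3 := 587336777) (W3 := 62277027) (N0 := 3) (En := eng) (mo := mog) (C1 := cd2q2b) (C2 := cd6q2) (C3 := pd0)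
    rfl (fun _ => rfl) k0_mm_202_b

noncomputable def f_mm_203_a : ℕ → ℕ → ℕ → ℕ → Bool := onCell 0 536870912 0 1230186008 587336777 62277027
    (rowB 3 eng mog cd2q2a cd6q3 pd0 0 false false false .up 2 0 3 (qsf 0 536870912 0 1230186008 0) ndB2q2a ndB6q3 pcB0 Cut.none Ext.none)

def k0_mm_203_a : ∃ t, chk3 f_mm_203_a t 1 1 1 = true :=
  ⟨(b (l 2) (l 3)), by decide +kernel⟩

theorem c_mm_203_a : CertB 0 536870912 0 1230186008 587336777 62277027 3 eng mog cd2q2a cd6q3 pd0 false false false .up 2 0 3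
    ndB2q2a ndB6q3 pcB0 Cut.none Ext.none :=
  certB0 (fam := false) (s1 := false) (s2 := false) (a := 2) (b := 0) (c := 3) (cn := .up) (n1 := ndB2q2a) (n2 := ndB6q3) (pc := pcB0) (cut := Cut.none) (xt := Ext.none) (P1 := 0) (W1 := 536870912) (P2 := 0) (W2 := 1230186008) (P3 := 587336777) (W3 := 62277027) (N0 := 3) (En := eng) (mo := mog) (C1 := cd2q2a) (C2 := cd6q3) (C3 := pd0)
    rfl k0_mm_203_a

noncomputable def f_mm_203_b : ℕ → ℕ → ℕ → ℕ → Bool := onCell 1239849684 370763052 0 1230186008 587336777 62277027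
    (rowB 3 eng mog cd2q2b cd6q3 pd0 0 false false false .up 2 0 3 (qsf 1239849684 370763052 0 1230186008 0) ndB2q2b ndB6q3 pcB0 Cut.none Ext.none)

def k0_mm_203_b : ∃ t, chk3 f_mm_203_b t 1 1 1 = true :=
  ⟨(b (l 3) (l 3)), by decide +kernel⟩

theorem c_mm_203_b : CertB 1239849684 370763052 0 1230186008 587336777 62277027 3 eng mog cd2q2b cd6q3 pd0 false false false .up 2 0 3
    ndB2q2b ndB6q3 pcB0 Cut.none Ext.none :=
  certB0 (fam := false) (s1 := false) (s2 := false) (a := 2) (b := 0) (c := 3) (cn := .up) (n1 := ndB2q2b) (n2 := ndB6q3) (pc := pcB0) (cut := Cut.none) (xt := Ext.none) (P1 := 1239849684) (W1 := 370763052) (P2 := 0) (W2 := 1230186008) (P3 := 587336777) (W3 := 62277027) (N0 := 3) (En := eng) (mo := mog) (C1 := cd2q2b) (C2 := cd6q3) (C3 := pd0)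
    rfl k0_mm_203_b

noncomputable def f_mm_213_a : ℕ → ℕ → ℕ → ℕ → Bool := onCell 0 536870912 0 1230186008 587336777 62277027
    (rowB 3 eng mog cd2q2a cd6q3 pd1 0 false false false .pnn 2 1 3 (qsf 0 536870912 0 1230186008 1) ndB2q2a ndB6q3 pcB1 Cut.none Ext.none)

def k0_mm_213_a : ∃ t, chk3 f_mm_213_a t 1 1 1 = true :=
  ⟨(b (a (l 3) (l 5)) (l 3)), by decide +kernel⟩

theorem c_mm_213_a : CertB 0 536870912 0 1230186008 587336777 62277027 3 eng mog cd2q2a cd6q3 pd1 false false false .pnn 2 1 3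
    ndB2q2a ndB6q3 pcB1 Cut.none Ext.none :=
  certB0 (fam := false) (s1 := false) (s2 := false) (a := 2) (b := 1) (c := 3) (cn := .pnn) (n1 := ndB2q2a) (n2 := ndB6q3) (pc := pcB1) (cut := Cut.none) (xt := Ext.none) (P1 := 0) (W1 := 536870912) (P2 := 0) (W2 := 1230186008) (P3 := 587336777) (W3 := 62277027) (N0 := 3) (En := eng) (mo := mog) (C1 := cd2q2a) (C2 := cd6q3) (C3 := pd1)
    rfl k0_mm_213_a

noncomputable def f_mm_213_b : ℕ → ℕ → ℕ → ℕ → Bool := onCell 1239849684 370763052 0 1230186008 587336777 62277027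
    (rowB 3 eng mog cd2q2b cd6q3 pd1 0 false false false .pnn 2 1 3 (qsf 1239849684 370763052 0 1230186008 1) ndB2q2b ndB6q3 pcB1 Cut.none Ext.none)

def k0_mm_213_b : ∃ t, chk3 f_mm_213_b t 1 1 1 = true :=
  ⟨(b (l 3) (l 3)), by decide +kernel⟩

theorem c_mm_213_b : CertB 1239849684 370763052 0 1230186008 587336777 62277027 3 eng mog cd2q2b cd6q3 pd1 false false false .pnn 2 1 3
    ndB2q2b ndB6q3 pcB1 Cut.none Ext.none :=
  certB0 (fam := false) (s1 := false) (s2 := false) (a := 2) (b := 1) (c := 3) (cn := .pnn) (n1 := ndB2q2b) (n2 := ndB6q3) (pc := pcB1) (cut := Cut.none) (xt := Ext.none) (P1 := 1239849684) (W1 := 370763052) (P2 := 0) (W2 := 1230186008) (P3 := 587336777) (W3 := 62277027) (N0 := 3) (En := eng) (mo := mog) (C1 := cd2q2b) (C2 := cd6q3) (C3 := pd1)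
    rfl k0_mm_213_b

noncomputable def f_mm_303 : ℕ → ℕ → ℕ → ℕ → Bool := onCell 0 536870912 0 1230186008 587336777 62277027
    (rowB 3 eng mog cd2q3 cd6q3 pd0 2 false false false .npn 3 0 3 (qsf 1610612736 536870912 0 1230186008 0) ndB2q3 ndB6q3 pcB0 Cut.none Ext.none)

def k0_mm_303 : ∃ t, chk3 f_mm_303 t 1 1 1 = true :=
  ⟨(b (l 3) (l 3)), by decide +kernel⟩

theorem c_mm_303 : CertB 1610612736 536870912 0 1230186008 587336777 62277027 3 eng mog cd2q3 cd6q3 pd0 false false false .npn 3 0 3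
    ndB2q3 ndB6q3 pcB0 Cut.none Ext.none :=
  certB2 (fam := false) (s1 := false) (s2 := false) (a := 3) (b := 0) (c := 3) (cn := .npn) (n1 := ndB2q3) (n2 := ndB6q3) (pc := pcB0) (cut := Cut.none) (xt := Ext.none) (P1 := 1610612736) (W1 := 536870912) (P2 := 0) (W2 := 1230186008) (P3 := 587336777) (W3 := 62277027) (N0 := 3) (En := eng) (mo := mog) (C1 := cd2q3) (C2 := cd6q3) (C3 := pd0)
    rfl (fun _ => rfl) k0_mm_303

noncomputable def f_mm_313 : ℕ → ℕ → ℕ → ℕ → Bool := onCell 1610612736 536870912 0 1230186008 587336777 62277027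
    (rowB 3 eng mog cd2q3 cd6q3 pd1 0 false false false .dn 3 1 3 (qsf 1610612736 536870912 0 1230186008 1) ndB2q3 ndB6q3 pcB1 Cut.none Ext.none)

def k0_mm_313 : ∃ t, chk3 f_mm_313 t 1 1 1 = true :=
  ⟨(b (l 3) (l 1)), by decide +kernel⟩

theorem c_mm_313 : CertB 1610612736 536870912 0 1230186008 587336777 62277027 3 eng mog cd2q3 cd6q3 pd1 false false false .dn 3 1 3
    ndB2q3 ndB6q3 pcB1 Cut.none Ext.none :=
  certB0 (fam := false) (s1 := false) (s2 := false) (a := 3) (b := 1) (c := 3) (cn := .dn) (n1 := ndB2q3) (n2 := ndB6q3) (pc := pcB1) (cut := Cut.none) (xt := Ext.none) (P1 := 1610612736) (W1 := 536870912) (P2 := 0) (W2 := 1230186008) (P3 := 587336777) (W3 := 62277027) (N0 := 3) (En := eng) (mo := mog) (C1 := cd2q3) (C2 := cd6q3) (C3 := pd1)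
    rfl k0_mm_313

end Pool.Agent.Strip051.G.I5470_6050.Tab.C.BB26

namespace Pool.Agent.Strip051.G.I5470_6050.Tab.C.BB27

open Pool.Agent.Strip051.PB Pool.Agent.Strip051.PB.T
open Pool.Agent.Strip051.G.I5470_6050.Tab

noncomputable def f_pp_001 : ℕ → ℕ → ℕ → ℕ → Bool := onCell 0 536870912 0 536870912 587336777 62277027
    (rowB 3 eng mog cd2q0 cd7q1 pd0 1 false true true .up 0 0 1 (qsf 0 536870912 536870912 536870912 0) ndB2q0 ndB7q1 pcB0 Cut.none Ext.none)

def k0_pp_001 : ∃ t, chk3 f_pp_001 t 1 1 1 = true :=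
  ⟨(l 3), by decide +kernel⟩

theorem c_pp_001 : CertB 0 536870912 536870912 536870912 587336777 62277027 3 eng mog cd2q0 cd7q1 pd0 false true true .up 0 0 1
    ndB2q0 ndB7q1 pcB0 Cut.none Ext.none :=
  certB1 (fam := false) (s1 := true) (s2 := true) (a := 0) (b := 0) (c := 1) (cn := .up) (n1 := ndB2q0) (n2 := ndB7q1) (pc := pcB0) (cut := Cut.none) (xt := Ext.none) (P1 := 0) (W1 := 536870912) (P2 := 536870912) (W2 := 536870912) (P3 := 587336777) (W3 := 62277027) (N0 := 3) (En := eng) (mo := mog) (C1 := cd2q0) (C2 := cd7q1) (C3 := pd0)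
    rfl (fun _ => rfl) k0_pp_001

noncomputable def cut_pp_011 : Cut := Cut.of [[⟨0, 0, 0, 67108864⟩, ⟨1, 1, 0, 67108864⟩, ⟨2, 1, 0, 67108864⟩]]

noncomputable def f_pp_011 : ℕ → ℕ → ℕ → ℕ → Bool := onCell 0 536870912 536870912 536870912 587336777 62277027
    (rowB 3 eng mog cd2q0 cd7q1 pd1 1 false true true .pnn 0 1 1 (qsf 0 536870912 536870912 536870912 1) ndB2q0 ndB7q1 pcB1 cut_pp_011 Ext.none)

def k0_pp_011 : ∃ t, chk3 f_pp_011 t 1 1 1 = true :=
  ⟨(b (l 3) (b (l 3) (a (b (l 3) (a (a (b (l 3) (a (l 6) (l 3))) (l 3)) (l 2))) (l 2)))), by decide +kernel⟩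

theorem c_pp_011 : CertB 0 536870912 536870912 536870912 587336777 62277027 3 eng mog cd2q0 cd7q1 pd1 false true true .pnn 0 1 1
    ndB2q0 ndB7q1 pcB1 cut_pp_011 Ext.none :=
  certB1 (fam := false) (s1 := true) (s2 := true) (a := 0) (b := 1) (c := 1) (cn := .pnn) (n1 := ndB2q0) (n2 := ndB7q1) (pc := pcB1) (cut := cut_pp_011) (xt := Ext.none) (P1 := 0) (W1 := 536870912) (P2 := 536870912) (W2 := 536870912) (P3 := 587336777) (W3 := 62277027) (N0 := 3) (En := eng) (mo := mog) (C1 := cd2q0) (C2 := cd7q1) (C3 := pd1)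
    rfl (fun _ => rfl) k0_pp_011

noncomputable def cut_pp_012 : Cut := Cut.of [[⟨0, 0, 0, 67108864⟩, ⟨1, 1, 0, 67108864⟩, ⟨2, 1, 0, 67108864⟩]]

noncomputable def f_pp_012 : ℕ → ℕ → ℕ → ℕ → Bool := onCell 0 536870912 536870912 536870912 587336777 62277027
    (rowB 3 eng mog cd2q0 cd7q2 pd1 1 false true true .pnp 0 1 2 (qsf 0 536870912 1073741824 536870912 1) ndB2q0 ndB7q2 pcB1 cut_pp_012 Ext.none)

def k0_pp_012 : ∃ t, chk3 f_pp_012 t 1 1 1 = true :=
  ⟨(b (l 3) (a (b (l 3) (b (l 3) (a (a (a (b (l 3) (l 6)) (l 3)) (l 3)) (l 3)))) (l 3))), by decide +kernel⟩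

theorem c_pp_012 : CertB 0 536870912 1073741824 536870912 587336777 62277027 3 eng mog cd2q0 cd7q2 pd1 false true true .pnp 0 1 2
    ndB2q0 ndB7q2 pcB1 cut_pp_012 Ext.none :=
  certB1 (fam := false) (s1 := true) (s2 := true) (a := 0) (b := 1) (c := 2) (cn := .pnp) (n1 := ndB2q0) (n2 := ndB7q2) (pc := pcB1) (cut := cut_pp_012) (xt := Ext.none) (P1 := 0) (W1 := 536870912) (P2 := 1073741824) (W2 := 536870912) (P3 := 587336777) (W3 := 62277027) (N0 := 3) (En := eng) (mo := mog) (C1 := cd2q0) (C2 := cd7q2) (C3 := pd1)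
    rfl (fun _ => rfl) k0_pp_012

noncomputable def cut_pp_022 : Cut := Cut.of [[⟨0, 0, 0, 67108864⟩, ⟨1, 1, 0, 67108864⟩, ⟨2, 1, 0, 67108864⟩]]

noncomputable def f_pp_022 : ℕ → ℕ → ℕ → ℕ → Bool := onCell 0 536870912 1073741824 536870912 587336777 62277027
    (rowB 3 eng mog cd2q0 cd7q2 pd2 1 false true true .pp 0 2 2 (qsf 0 536870912 1073741824 536870912 2) ndB2q0 ndB7q2 pcB2 cut_pp_022 Ext.none)

def k0_pp_022 : ∃ t, chk3 f_pp_022 t 2 8 1 = true :=
  ⟨(a (a (b (a (b (l 6) (a (l 6) (b (l 6) (a (l 6) (b (l 6) (a (l 6) (l 16728240))))))) (b (l 3) (b (l 3) (a (b (a (l 155323432391) (l 3)) (a (a (l 16744656) (l 16750936)) (l 16755784))) (l 3))))) (a (a (b (a (l 6) (b (l 6) (l 16698992))) (a (a (l 16663048) (l 16667584)) (l 16695184))) (b (b (a (l 16727680) (b (l 16736328) (l 16725720))) (a (l 16706280) (l 16713048))) (a (l 16681744) (b (l 16675888) (l 16680600))))) (b (a (b (a (b (l 16739832) (l 16728432)) (b (b (l 16750048) (l 16746016)) (l 16732008)))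 (a (b (l 16724432) (l 16716256)) (b (l 16711024) (l 16723496)))) (b (b (l 3) (l 267529394471)) (a (b (b (l 16741080) (l 16736960)) (l 16730976)) (l 16741816)))) (a (b (a (l 16703976) (l 16712528)) (a (l 16687616) (l 16694752))) (b (a (b (l 16722792) (l 16714328)) (l 16715224)) (a (l 16701920) (l 16709144))))))) (a (b (l 3) (b (l 3) (b (a (b (l 16739976) (a (l 16728736) (l 16735464))) (l 3)) (a (c (l 16710728) (l 16713360)) (l 16754312))))) (l 3))) (l 3)), by decide +kernel⟩

def k1_pp_022 : ∃ t, chk3 f_pp_022 t 2 9 1 = true :=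
  ⟨(a (b (a (a (a (b (a (l 16632664) (l 16641336)) (l 16625312)) (b (l 16662992) (l 16619688))) (b (a (b (l 16674728) (l 16637344)) (b (l 16683768) (l 16672144))) (a (l 16641560) (b (l 16655752) (l 16639288))))) (b (a (a (a (b (l 16699264) (l 16682440)) (b (l 16706624) (l 16689312))) (b (a (l 16713520) (l 16720064)) (a (l 16696304) (l 16703440)))) (a (b (l 16729792) (l 16754776)) (l 16791376))) (a (a (b (l 16669288) (l 16652752)) (b (l 16682672) (l 16665872))) (a (b (a (l 16692752) (l 16699496)) (l 16678704)) (b (l 16729328) (l 16691368)))))) (b (a (a (a (l 16571688) (l 16586720)) (a (l 16600808) (l 16609304))) (a (a (b (l 16636248) (l 16619640)) (b (l 16649224) (l 16632552))) (b (a (l 16661744) (l 16673792)) (a (l 16644880) (l 16656568))))) (b (a (a (l 16554728) (l 16582944)) (a (a (l 16602984) (l 16615720)) (a (l 16627904) (l 16639368)))) (a (a (l 16538136) (l 16566320)) (a (l 16550680) (l 16616520)))))) (b (a (b (l 3) (a (b (l 16801232) (a (l 16703448)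 (l 16717792))) (l 3))) (l 3)) (a (b (a (b (l 16664544) (a (l 16668488) (l 16683024))) (b (l 16720928) (l 16724624))) (a (b (l 16637344) (a (l 16633448) (l 16647888))) (b (l 16707176) (l 16752296)))) (b (l 3) (a (b (l 16711600) (l 16694240)) (l 231022367799)))))), by decide +kernel⟩

def k2_pp_022 : ∃ t, chk3 f_pp_022 t 2 5 1 = true :=
  ⟨(b (a (b (b (a (a (a (l 16505936) (l 16520368)) (b (l 16549640) (l 16532920))) (a (l 16588152) (b (l 16599032) (l 16581376)))) (b (a (a (a (l 16481208) (l 16495528)) (l 16516160)) (a (l 16541488) (l 16563512))) (a (a (b (a (l 16468920) (l 16483136)) (b (a (l 16462792) (l 16476912)) (b (a (l 16522616) (b (b (l 16474536) (l 16557824)) (l 16473168))) (a (l 16457712) (l 16471672))))) (b (l 16545520) (b (l 16539160) (a (c (l 16531400) (l 16525584)) (l 16562176))))) (b (a (l 16528528) (l 16550024)) (b (a (l 16521952) (l 16543168)) (a (c (l 16583664) (l 16514728)) (l 16538488))))))) (a (a (b (a (l 16524752) (l 16475720))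 (a (l 16409536) (l 16423016))) (a (l 16535864) (l 16506312))) (a (a (l 16517904) (l 16486544)) (l 16500504)))) (b (b (a (a (b (l 16622648) (l 16604592)) (b (l 16650984) (l 16632776))) (b (a (l 16697376) (l 16741640)) (a (l 16658952) (l 16681904)))) (b (a (a (l 16586080) (l 16614152)) (a (l 16640176) (l 16663848))) (b (a (a (l 16571936) (l 16599744)) (a (l 16625688) (l 16649632))) (a (b (a (l 16564816) (l 16592432)) (a (l 16559960) (l 16587424))) (b (a (l 16618000) (l 16641728)) (a (l 16612888) (l 16636200))))))) (a (a (l 16520240) (l 16547152)) (a (l 16572160) (l 16595240))))) (a (a (a (b (a (l 16446696) (l 16375264)) (l 16304888)) (b (l 16392312) (l 16323216))) (a (a (l 16434064) (l 16441088)) (l 16551648))) (a (a (l 16592280) (l 16603376)) (a (l 16647216) (b (l 16539592) (l 16515480)))))), by decide +kernel⟩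

def k3_pp_022 : ∃ t, chk3 f_pp_022 t 2 3 1 = true :=
  ⟨(a (b (a (b (a (b (l 16237040) (l 16164560)) (b (l 16252024) (l 16200288))) (a (b (l 16113880) (l 16073064)) (b (l 16158008) (l 16127032)))) (b (a (l 16387528) (b (l 16322280) (l 16286352))) (a (l 16383744) (b (l 16261592) (l 16247392))))) (a (b (a (b (l 16045440) (l 16030264)) (b (l 16108352) (l 16100864))) (a (b (l 16024888) (l 16030864)) (b (l 16103136) (l 16116064)))) (b (a (b (l 16175160) (l 16174304)) (b (l 16242888) (l 16247344))) (a (l 16212944) (l 2))))) (b (b (a (a (b (l 16363424) (l 16335992)) (b (l 16408848) (l 16388736))) (b (l 16621776) (a (l 16439008) (l 16484552)))) (a (a (l 16480176) (l 16475296)) (b (l 16456336) (l 2)))) (b (a (a (l 16314480) (l 2)) (l 2)) (l 2)))), by decide +kernel⟩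

def k4_pp_022 : ∃ t, chk3 f_pp_022 t 3 1 1 = true :=
  ⟨(a (b (b (b (l 3) (b (l 3) (l 3))) (b (b (b (a (b (a (l 16720120) (l 3)) (a (l 16703224) (l 16722712))) (l 3)) (b (a (b (l 254644419863) (l 16692120)) (b (l 16737680) (l 16730512))) (b (a (a (l 16671856) (l 16693080)) (a (l 16712984) (l 16731416))) (a (b (a (l 16664272) (l 16686032)) (a (l 16658544) (l 16680808))) (b (a (l 16706360) (l 16725840)) (a (l 16701400) (l 16721272))))))) (a (a (l 16617392) (l 16639632)) (a (l 16662216) (l 16687288)))) (a (b (a (l 16570280) (l 16595448)) (a (l 16549552) (l 16577832))) (b (a (l 16613024) (l 2)) (l 2))))) (b (b (a (b (l 16550424) (l 2)) (l 2)) (l 2)) (l 2))) (b (b (l 3) (b (b (b (l 3) (l 2)) (l 2)) (l 2))) (l 2))), by decide +kernel⟩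

theorem s5_pp_022 : ∃ t, chk3 f_pp_022 t 2 4 1 = true := ex3_b k0_pp_022 k1_pp_022

theorem s6_pp_022 : ∃ t, chk3 f_pp_022 t 2 2 1 = true := ex3_b s5_pp_022 k2_pp_022

theorem s7_pp_022 : ∃ t, chk3 f_pp_022 t 2 1 1 = true := ex3_b s6_pp_022 k3_pp_022

theorem s8_pp_022 : ∃ t, chk3 f_pp_022 t 1 1 1 = true := ex3_a s7_pp_022 k4_pp_022

theorem c_pp_022 : CertB 0 536870912 1073741824 536870912 587336777 62277027 3 eng mog cd2q0 cd7q2 pd2 false true true .pp 0 2 2
    ndB2q0 ndB7q2 pcB2 cut_pp_022 Ext.none :=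
  certB1 (fam := false) (s1 := true) (s2 := true) (a := 0) (b := 2) (c := 2) (cn := .pp) (n1 := ndB2q0) (n2 := ndB7q2) (pc := pcB2) (cut := cut_pp_022) (xt := Ext.none) (P1 := 0) (W1 := 536870912) (P2 := 1073741824) (W2 := 536870912) (P3 := 587336777) (W3 := 62277027) (N0 := 3) (En := eng) (mo := mog) (C1 := cd2q0) (C2 := cd7q2) (C3 := pd2)
    rfl (fun _ => rfl) s8_pp_022

noncomputable def f_pp_023 : ℕ → ℕ → ℕ → ℕ → Bool := onCell 1073741824 536870912 0 1230186008 587336777 62277027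
    (rowB 3 eng mog cd2q0 cd7q3 pd2 2 false true true .up 0 2 3 (qsf 0 536870912 0 1230186008 2) ndB2q0 ndB7q3 pcB2 Cut.none Ext.none)

def k0_pp_023 : ∃ t, chk3 f_pp_023 t 1 1 1 = true :=
  ⟨(b (a (l 2) (a (l 2) (b (b (l 16753064) (l 16735816)) (b (l 16784448) (l 16816048))))) (a (a (b (l 2) (l 3)) (b (a (l 2) (b (l 2) (l 16744200))) (a (a (a (b (l 3) (l 3)) (b (b (l 2) (a (l 3) (a (l 16797880) (a (l 16794344) (l 16791952))))) (a (l 3) (b (a (l 3) (a (l 16774712) (l 16771640))) (a (b (l 16755760) (l 16736000)) (a (a (l 16741328) (l 16718032)) (l 16714344))))))) (b (b (l 16767376) (l 16767728)) (b (l 16739800) (b (l 16702872) (l 16675040))))) (b (b (l 16726272) (l 16696152)) (b (l 16631224) (b (l 16611768) (l 16589176))))))) (b (b (a (l 150961870151) (l 16897800)) (a (l 17009328) (b (l 16799144) (l 16741304)))) (b (a (b (l 16701344) (l 16633856)) (b (l 16660944) (l 16542208))) (a (b (b (l 16576336) (l 16535784)) (b (l 16491264) (l 16459672))) (b (l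 16515944) (b (l 16270552) (a (l 16250712) (l 16115056))))))))), by decide +kernel⟩

theorem c_pp_023 : CertB 0 536870912 0 1230186008 587336777 62277027 3 eng mog cd2q0 cd7q3 pd2 false true true .up 0 2 3
    ndB2q0 ndB7q3 pcB2 Cut.none Ext.none :=
  certB2 (fam := false) (s1 := true) (s2 := true) (a := 0) (b := 2) (c := 3) (cn := .up) (n1 := ndB2q0) (n2 := ndB7q3) (pc := pcB2) (cut := Cut.none) (xt := Ext.none) (P1 := 0) (W1 := 536870912) (P2 := 0) (W2 := 1230186008) (P3 := 587336777) (W3 := 62277027) (N0 := 3) (En := eng) (mo := mog) (C1 := cd2q0) (C2 := cd7q3) (C3 := pd2)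
    rfl (fun _ => rfl) k0_pp_023

noncomputable def f_pp_033 : ℕ → ℕ → ℕ → ℕ → Bool := onCell 1610612736 536870912 0 1230186008 587336777 62277027
    (rowB 3 eng mog cd2q0 cd7q3 pd3 2 false true true .pnn 0 3 3 (qsf 0 536870912 0 1230186008 3) ndB2q0 ndB7q3 pcB3 Cut.none Ext.none)

def k0_pp_033 : ∃ t, chk3 f_pp_033 t 1 1 1 = true :=
  ⟨(b (b (a (a (a (b (l 16701944) (l 16731024)) (l 16699776)) (a (l 16680288) (l 16653368))) (a (a (l 16625392) (l 4)) (l 4))) (a (a (a (b (l 16762384) (a (l 16780776) (l 16736008))) (a (l 16772376) (b (l 16718296) (l 16711152)))) (a (b (l 16710880) (a (l 16693696) (l 16672632))) (b (l 16660032) (l 16642720)))) (a (a (b (l 16629912) (l 16820888)) (b (l 16601568) (a (l 16594752) (l 16586568)))) (a (b (l 16575576) (a (l 16577656) (l 16571008))) (a (b (l 4) (l 16556928)) (l 4)))))) (b (a (a (a (b (a (l 16741600) (l 16712056)) (b (l 16689448) (l 16641016))) (a (b (l 16695296) (l 16634856)) (b (l 16678176) (l 16613048))))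 (a (b (a (l 16658704) (l 16636456)) (b (l 16603440) (l 16554232))) (b (l 16605456) (l 16648016)))) (a (b (a (b (l 16584376) (l 16563752)) (b (l 16568088) (l 16546272))) (a (b (l 16533432) (l 16484000)) (b (l 16511592) (l 1)))) (b (a (b (a (l 16564680) (l 1)) (l 1)) (l 1)) (l 1)))) (a (b (a (b (l 16542528) (l 16422496)) (b (l 16459592) (l 133714026023))) (a (b (l 16228656) (b (l 115996532871) (a (l 16029792) (l 1)))) (b (a (l 546030341943) (l 1)) (l 1)))) (l 1)))), by decide +kernel⟩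

theorem c_pp_033 : CertB 0 536870912 0 1230186008 587336777 62277027 3 eng mog cd2q0 cd7q3 pd3 false true true .pnn 0 3 3
    ndB2q0 ndB7q3 pcB3 Cut.none Ext.none :=
  certB2 (fam := false) (s1 := true) (s2 := true) (a := 0) (b := 3) (c := 3) (cn := .pnn) (n1 := ndB2q0) (n2 := ndB7q3) (pc := pcB3) (cut := Cut.none) (xt := Ext.none) (P1 := 0) (W1 := 536870912) (P2 := 0) (W2 := 1230186008) (P3 := 587336777) (W3 := 62277027) (N0 := 3) (En := eng) (mo := mog) (C1 := cd2q0) (C2 := cd7q3) (C3 := pd3)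
    rfl (fun _ => rfl) k0_pp_033

noncomputable def f_pp_101 : ℕ → ℕ → ℕ → ℕ → Bool := onCell 536870912 536870912 0 536870912 587336777 62277027
    (rowB 3 eng mog cd2q1 cd7q1 pd0 1 false true true .npn 1 0 1 (qsf 536870912 536870912 536870912 536870912 0) ndB2q1 ndB7q1 pcB0 Cut.none Ext.none)

def k0_pp_101 : ∃ t, chk3 f_pp_101 t 1 1 1 = true :=
  ⟨(l 3), by decide +kernel⟩

theorem c_pp_101 : CertB 536870912 536870912 536870912 536870912 587336777 62277027 3 eng mog cd2q1 cd7q1 pd0 false true true .npn 1 0 1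
    ndB2q1 ndB7q1 pcB0 Cut.none Ext.none :=
  certB1 (fam := false) (s1 := true) (s2 := true) (a := 1) (b := 0) (c := 1) (cn := .npn) (n1 := ndB2q1) (n2 := ndB7q1) (pc := pcB0) (cut := Cut.none) (xt := Ext.none) (P1 := 536870912) (W1 := 536870912) (P2 := 536870912) (W2 := 536870912) (P3 := 587336777) (W3 := 62277027) (N0 := 3) (En := eng) (mo := mog) (C1 := cd2q1) (C2 := cd7q1) (C3 := pd0)
    rfl (fun _ => rfl) k0_pp_101

noncomputable def f_pp_102 : ℕ → ℕ → ℕ → ℕ → Bool := onCell 536870912 536870912 1073741824 536870912 587336777 62277027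
    (rowB 3 eng mog cd2q1 cd7q2 pd0 0 false true true .npp 1 0 2 (qsf 536870912 536870912 1073741824 536870912 0) ndB2q1 ndB7q2 pcB0 Cut.none Ext.none)

def k0_pp_102 : ∃ t, chk3 f_pp_102 t 1 1 1 = true :=
  ⟨(l 3), by decide +kernel⟩

theorem c_pp_102 : CertB 536870912 536870912 1073741824 536870912 587336777 62277027 3 eng mog cd2q1 cd7q2 pd0 false true true .npp 1 0 2
    ndB2q1 ndB7q2 pcB0 Cut.none Ext.none :=
  certB0 (fam := false) (s1 := true) (s2 := true) (a := 1) (b := 0) (c := 2) (cn := .npp) (n1 := ndB2q1) (n2 := ndB7q2) (pc := pcB0) (cut := Cut.none) (xt := Ext.none) (P1 := 536870912) (W1 := 536870912) (P2 := 1073741824) (W2 := 536870912) (P3 := 587336777) (W3 := 62277027) (N0 := 3) (En := eng) (mo := mog) (C1 := cd2q1) (C2 := cd7q2) (C3 := pd0)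
    rfl k0_pp_102

noncomputable def f_pp_112 : ℕ → ℕ → ℕ → ℕ → Bool := onCell 536870912 536870912 1073741824 536870912 587336777 62277027
    (rowB 3 eng mog cd2q1 cd7q2 pd1 0 false true true .dn 1 1 2 (qsf 536870912 536870912 1073741824 536870912 1) ndB2q1 ndB7q2 pcB1 Cut.none Ext.none)

def k0_pp_112 : ∃ t, chk3 f_pp_112 t 1 1 1 = true :=
  ⟨(l 3), by decide +kernel⟩

theorem c_pp_112 : CertB 536870912 536870912 1073741824 536870912 587336777 62277027 3 eng mog cd2q1 cd7q2 pd1 false true true .dn 1 1 2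
    ndB2q1 ndB7q2 pcB1 Cut.none Ext.none :=
  certB0 (fam := false) (s1 := true) (s2 := true) (a := 1) (b := 1) (c := 2) (cn := .dn) (n1 := ndB2q1) (n2 := ndB7q2) (pc := pcB1) (cut := Cut.none) (xt := Ext.none) (P1 := 536870912) (W1 := 536870912) (P2 := 1073741824) (W2 := 536870912) (P3 := 587336777) (W3 := 62277027) (N0 := 3) (En := eng) (mo := mog) (C1 := cd2q1) (C2 := cd7q2) (C3 := pd1)
    rfl k0_pp_112

noncomputable def f_pp_113 : ℕ → ℕ → ℕ → ℕ → Bool := onCell 536870912 536870912 0 1230186008 587336777 62277027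
    (rowB 3 eng mog cd2q1 cd7q3 pd1 2 false true true .nn 1 1 3 (qsf 536870912 536870912 0 1230186008 1) ndB2q1 ndB7q3 pcB1 Cut.none Ext.none)

def k0_pp_113 : ∃ t, chk3 f_pp_113 t 1 1 1 = true :=
  ⟨(b (a (l 2) (a (l 2) (b (a (l 2) (b (l 925666585239) (a (l 2) (l 356113441783)))) (a (l 3) (l 3))))) (a (b (l 3) (b (l 3) (l 3))) (b (l 3) (l 3)))), by decide +kernel⟩

theorem c_pp_113 : CertB 536870912 536870912 0 1230186008 587336777 62277027 3 eng mog cd2q1 cd7q3 pd1 false true true .nn 1 1 3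
    ndB2q1 ndB7q3 pcB1 Cut.none Ext.none :=
  certB2 (fam := false) (s1 := true) (s2 := true) (a := 1) (b := 1) (c := 3) (cn := .nn) (n1 := ndB2q1) (n2 := ndB7q3) (pc := pcB1) (cut := Cut.none) (xt := Ext.none) (P1 := 536870912) (W1 := 536870912) (P2 := 0) (W2 := 1230186008) (P3 := 587336777) (W3 := 62277027) (N0 := 3) (En := eng) (mo := mog) (C1 := cd2q1) (C2 := cd7q3) (C3 := pd1)
    rfl (fun _ => rfl) k0_pp_113

noncomputable def f_pp_123 : ℕ → ℕ → ℕ → ℕ → Bool := onCell 1073741824 536870912 0 1230186008 587336777 62277027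
    (rowB 3 eng mog cd2q1 cd7q3 pd2 2 false true true .npn 1 2 3 (qsf 536870912 536870912 0 1230186008 2) ndB2q1 ndB7q3 pcB2 Cut.none Ext.none)

def k0_pp_123 : ∃ t, chk3 f_pp_123 t 1 1 1 = true :=
  ⟨(a (a (b (a (b (b (l 16758096) (a (l 16791704) (l 16774864))) (b (a (l 496236747367) (l 277193596039)) (a (l 3) (b (l 513953393063) (l 3))))) (b (b (l 16729088) (l 16748512)) (a (b (l 16794624) (b (l 16839096) (l 402284225511))) (b (l 16770008) (b (l 16798760) (l 16870544)))))) (b (a (l 3) (a (b (b (l 447918176183) (l 3)) (l 3)) (b (a (b (l 16758400) (l 16752640)) (b (l 16779560) (l 16751448))) (a (l 3) (l 466171820951))))) (l 3))) (b (b (a (b (l 16953480) (a (l 16733488) (l 16721392))) (l 16706760)) (a (b (a (a (l 16756144) (l 16754160)) (l 16748048)) (a (a (l 16797464) (a (l 16794168) (b (l 16785968) (a (l 16779808) (l 16768912))))) (l 16786440))) (b (l 16753720) (l 16772688)))) (b (a (a (a (b (b (l 16778848) (l 16770512)) (b (l 16767872) (l 16701080)))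 (b (a (l 16774480) (a (l 16771088) (a (l 16765824) (l 16760760)))) (a (l 16790752) (a (l 16813704) (a (l 16768176) (l 16761144)))))) (b (l 16759928) (l 16764160))) (b (l 16771800) (l 16776952))) (a (a (a (b (l 3) (l 3)) (b (a (b (l 16762696) (l 3)) (b (a (l 16766664) (a (l 16767104) (l 16764344))) (a (l 16757728) (a (l 16759448) (l 16760352))))) (l 1))) (b (b (l 16772616) (l 16771024)) (l 1))) (b (l 230888576471) (l 1)))))) (b (b (a (b (l 16698880) (l 16735336)) (b (l 16715080) (l 16771416))) (a (b (l 16775392) (l 16764384)) (b (l 16810160) (l 16781000)))) (b (b (a (a (l 16749264) (l 16733496)) (l 16758184)) (a (l 16831920) (l 1))) (l 1)))), by decide +kernel⟩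

theorem c_pp_123 : CertB 536870912 536870912 0 1230186008 587336777 62277027 3 eng mog cd2q1 cd7q3 pd2 false true true .npn 1 2 3
    ndB2q1 ndB7q3 pcB2 Cut.none Ext.none :=
  certB2 (fam := false) (s1 := true) (s2 := true) (a := 1) (b := 2) (c := 3) (cn := .npn) (n1 := ndB2q1) (n2 := ndB7q3) (pc := pcB2) (cut := Cut.none) (xt := Ext.none) (P1 := 536870912) (W1 := 536870912) (P2 := 0) (W2 := 1230186008) (P3 := 587336777) (W3 := 62277027) (N0 := 3) (En := eng) (mo := mog) (C1 := cd2q1) (C2 := cd7q3) (C3 := pd2)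
    rfl (fun _ => rfl) k0_pp_123

noncomputable def f_pp_133 : ℕ → ℕ → ℕ → ℕ → Bool := onCell 536870912 536870912 0 1230186008 587336777 62277027
    (rowB 3 eng mog cd2q1 cd7q3 pd3 0 false true true .dn 1 3 3 (qsf 536870912 536870912 0 1230186008 3) ndB2q1 ndB7q3 pcB3 Cut.none Ext.none)

def k0_pp_133 : ∃ t, chk3 f_pp_133 t 1 1 1 = true :=
  ⟨(b (b (a (a (b (a (l 16750208) (l 1)) (l 1)) (l 1)) (l 1)) (l 1)) (l 1)), by decide +kernel⟩

theorem c_pp_133 : CertB 536870912 536870912 0 1230186008 587336777 62277027 3 eng mog cd2q1 cd7q3 pd3 false true true .dn 1 3 3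
    ndB2q1 ndB7q3 pcB3 Cut.none Ext.none :=
  certB0 (fam := false) (s1 := true) (s2 := true) (a := 1) (b := 3) (c := 3) (cn := .dn) (n1 := ndB2q1) (n2 := ndB7q3) (pc := pcB3) (cut := Cut.none) (xt := Ext.none) (P1 := 536870912) (W1 := 536870912) (P2 := 0) (W2 := 1230186008) (P3 := 587336777) (W3 := 62277027) (N0 := 3) (En := eng) (mo := mog) (C1 := cd2q1) (C2 := cd7q3) (C3 := pd3)
    rfl k0_pp_133

noncomputable def f_pp_202_a : ℕ → ℕ → ℕ → ℕ → Bool := onCell 0 536870912 1073741824 536870912 587336777 62277027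
    (rowB 3 eng mog cd2q2a cd7q2 pd0 0 false true true .pp 2 0 2 (qsf 0 536870912 1073741824 536870912 0) ndB2q2a ndB7q2 pcB0 Cut.none Ext.none)

def k0_pp_202_a : ∃ t, chk3 f_pp_202_a t 1 1 1 = true :=
  ⟨(l 5), by decide +kernel⟩

theorem c_pp_202_a : CertB 0 536870912 1073741824 536870912 587336777 62277027 3 eng mog cd2q2a cd7q2 pd0 false true true .pp 2 0 2
    ndB2q2a ndB7q2 pcB0 Cut.none Ext.none :=
  certB0 (fam := false) (s1 := true) (s2 := true) (a := 2) (b := 0) (c := 2) (cn := .pp) (n1 := ndB2q2a) (n2 := ndB7q2) (pc := pcB0) (cut := Cut.none) (xt := Ext.none) (P1 := 0) (W1 := 536870912) (P2 := 1073741824) (W2 := 536870912) (P3 := 587336777) (W3 := 62277027) (N0 := 3) (En := eng) (mo := mog) (C1 := cd2q2a) (C2 := cd7q2) (C3 := pd0)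
    rfl k0_pp_202_a

noncomputable def f_pp_202_b : ℕ → ℕ → ℕ → ℕ → Bool := onCell 1239849684 370763052 1073741824 536870912 587336777 62277027
    (rowB 3 eng mog cd2q2b cd7q2 pd0 0 false true true .pp 2 0 2 (qsf 1239849684 370763052 1073741824 536870912 0) ndB2q2b ndB7q2 pcB0 Cut.none Ext.none)

def k0_pp_202_b : ∃ t, chk3 f_pp_202_b t 1 1 1 = true :=
  ⟨(l 5), by decide +kernel⟩

theorem c_pp_202_b : CertB 1239849684 370763052 1073741824 536870912 587336777 62277027 3 eng mog cd2q2b cd7q2 pd0 false true true .pp 2 0 2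
    ndB2q2b ndB7q2 pcB0 Cut.none Ext.none :=
  certB0 (fam := false) (s1 := true) (s2 := true) (a := 2) (b := 0) (c := 2) (cn := .pp) (n1 := ndB2q2b) (n2 := ndB7q2) (pc := pcB0) (cut := Cut.none) (xt := Ext.none) (P1 := 1239849684) (W1 := 370763052) (P2 := 1073741824) (W2 := 536870912) (P3 := 587336777) (W3 := 62277027) (N0 := 3) (En := eng) (mo := mog) (C1 := cd2q2b) (C2 := cd7q2) (C3 := pd0)
    rfl k0_pp_202_b

noncomputable def f_pp_203_a : ℕ → ℕ → ℕ → ℕ → Bool := onCell 0 536870912 0 1230186008 587336777 62277027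
    (rowB 3 eng mog cd2q2a cd7q3 pd0 0 false true true .up 2 0 3 (qsf 0 536870912 0 1230186008 0) ndB2q2a ndB7q3 pcB0 Cut.none Ext.none)

def k0_pp_203_a : ∃ t, chk3 f_pp_203_a t 1 1 1 = true :=
  ⟨(b (l 2) (a (l 5) (l 3))), by decide +kernel⟩

theorem c_pp_203_a : CertB 0 536870912 0 1230186008 587336777 62277027 3 eng mog cd2q2a cd7q3 pd0 false true true .up 2 0 3
    ndB2q2a ndB7q3 pcB0 Cut.none Ext.none :=
  certB0 (fam := false) (s1 := true) (s2 := true) (a := 2) (b := 0) (c := 3) (cn := .up) (n1 := ndB2q2a) (n2 := ndB7q3) (pc := pcB0) (cut := Cut.none) (xt := Ext.none) (P1 := 0) (W1 := 536870912) (P2 := 0) (W2 := 1230186008) (P3 := 587336777) (W3 := 62277027) (N0 := 3) (En := eng) (mo := mog) (C1 := cd2q2a) (C2 := cd7q3) (C3 := pd0)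
    rfl k0_pp_203_a

noncomputable def f_pp_203_b : ℕ → ℕ → ℕ → ℕ → Bool := onCell 1239849684 370763052 0 1230186008 587336777 62277027
    (rowB 3 eng mog cd2q2b cd7q3 pd0 0 false true true .up 2 0 3 (qsf 1239849684 370763052 0 1230186008 0) ndB2q2b ndB7q3 pcB0 Cut.none Ext.none)

def k0_pp_203_b : ∃ t, chk3 f_pp_203_b t 1 1 1 = true :=
  ⟨(b (l 3) (l 5)), by decide +kernel⟩

theorem c_pp_203_b : CertB 1239849684 370763052 0 1230186008 587336777 62277027 3 eng mog cd2q2b cd7q3 pd0 false true true .up 2 0 3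
    ndB2q2b ndB7q3 pcB0 Cut.none Ext.none :=
  certB0 (fam := false) (s1 := true) (s2 := true) (a := 2) (b := 0) (c := 3) (cn := .up) (n1 := ndB2q2b) (n2 := ndB7q3) (pc := pcB0) (cut := Cut.none) (xt := Ext.none) (P1 := 1239849684) (W1 := 370763052) (P2 := 0) (W2 := 1230186008) (P3 := 587336777) (W3 := 62277027) (N0 := 3) (En := eng) (mo := mog) (C1 := cd2q2b) (C2 := cd7q3) (C3 := pd0)
    rfl k0_pp_203_b

noncomputable def cut_pp_213_a : Cut := Cut.of [[⟨0, 1, 0, 67108864⟩, ⟨1, 1, 0, 67108864⟩, ⟨2, 2, 0, 16777216⟩]]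

noncomputable def f_pp_213_a : ℕ → ℕ → ℕ → ℕ → Bool := onCell 0 536870912 0 1230186008 587336777 62277027
    (rowB 3 eng mog cd2q2a cd7q3 pd1 0 false true true .pnn 2 1 3 (qsf 0 536870912 0 1230186008 1) ndB2q2a ndB7q3 pcB1 cut_pp_213_a Ext.none)

def k0_pp_213_a : ∃ t, chk3 f_pp_213_a t 1 1 1 = true :=
  ⟨(a (b (l 3) (l 5)) (b (b (a (l 3) (b (a (l 3) (l 6)) (l 3))) (l 3)) (l 3))), by decide +kernel⟩

theorem c_pp_213_a : CertB 0 536870912 0 1230186008 587336777 62277027 3 eng mog cd2q2a cd7q3 pd1 false true true .pnn 2 1 3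
    ndB2q2a ndB7q3 pcB1 cut_pp_213_a Ext.none :=
  certB0 (fam := false) (s1 := true) (s2 := true) (a := 2) (b := 1) (c := 3) (cn := .pnn) (n1 := ndB2q2a) (n2 := ndB7q3) (pc := pcB1) (cut := cut_pp_213_a) (xt := Ext.none) (P1 := 0) (W1 := 536870912) (P2 := 0) (W2 := 1230186008) (P3 := 587336777) (W3 := 62277027) (N0 := 3) (En := eng) (mo := mog) (C1 := cd2q2a) (C2 := cd7q3) (C3 := pd1)
    rfl k0_pp_213_a

noncomputable def cut_pp_213_b : Cut := Cut.of [[⟨0, 1, 0, 67108864⟩, ⟨1, 1, 0, 67108864⟩, ⟨2, 2, 0, 16777216⟩]]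

noncomputable def f_pp_213_b : ℕ → ℕ → ℕ → ℕ → Bool := onCell 1239849684 370763052 0 1230186008 587336777 62277027
    (rowB 3 eng mog cd2q2b cd7q3 pd1 0 false true true .pnn 2 1 3 (qsf 1239849684 370763052 0 1230186008 1) ndB2q2b ndB7q3 pcB1 cut_pp_213_b Ext.none)

def k0_pp_213_b : ∃ t, chk3 f_pp_213_b t 1 1 1 = true :=
  ⟨(b (l 3) (l 5)), by decide +kernel⟩

theorem c_pp_213_b : CertB 1239849684 370763052 0 1230186008 587336777 62277027 3 eng mog cd2q2b cd7q3 pd1 false true true .pnn 2 1 3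
    ndB2q2b ndB7q3 pcB1 cut_pp_213_b Ext.none :=
  certB0 (fam := false) (s1 := true) (s2 := true) (a := 2) (b := 1) (c := 3) (cn := .pnn) (n1 := ndB2q2b) (n2 := ndB7q3) (pc := pcB1) (cut := cut_pp_213_b) (xt := Ext.none) (P1 := 1239849684) (W1 := 370763052) (P2 := 0) (W2 := 1230186008) (P3 := 587336777) (W3 := 62277027) (N0 := 3) (En := eng) (mo := mog) (C1 := cd2q2b) (C2 := cd7q3) (C3 := pd1)
    rfl k0_pp_213_b

noncomputable def f_pp_303 : ℕ → ℕ → ℕ → ℕ → Bool := onCell 1610612736 536870912 0 1230186008 587336777 62277027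
    (rowB 3 eng mog cd2q3 cd7q3 pd0 0 false true true .npn 3 0 3 (qsf 1610612736 536870912 0 1230186008 0) ndB2q3 ndB7q3 pcB0 Cut.none Ext.none)

def k0_pp_303 : ∃ t, chk3 f_pp_303 t 1 1 1 = true :=
  ⟨(b (l 3) (l 5)), by decide +kernel⟩

theorem c_pp_303 : CertB 1610612736 536870912 0 1230186008 587336777 62277027 3 eng mog cd2q3 cd7q3 pd0 false true true .npn 3 0 3
    ndB2q3 ndB7q3 pcB0 Cut.none Ext.none :=
  certB0 (fam := false) (s1 := true) (s2 := true) (a := 3) (b := 0) (c := 3) (cn := .npn) (n1 := ndB2q3) (n2 := ndB7q3) (pc := pcB0) (cut := Cut.none) (xt := Ext.none) (P1 := 1610612736) (W1 := 536870912) (P2 := 0) (W2 := 1230186008) (P3 := 587336777) (W3 := 62277027) (N0 := 3) (En := eng) (mo := mog) (C1 := cd2q3) (C2 := cd7q3) (C3 := pd0)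
    rfl k0_pp_303

noncomputable def f_pp_313 : ℕ → ℕ → ℕ → ℕ → Bool := onCell 1610612736 536870912 0 1230186008 587336777 62277027
    (rowB 3 eng mog cd2q3 cd7q3 pd1 0 false true true .dn 3 1 3 (qsf 1610612736 536870912 0 1230186008 1) ndB2q3 ndB7q3 pcB1 Cut.none Ext.none)

def k0_pp_313 : ∃ t, chk3 f_pp_313 t 1 1 1 = true :=
  ⟨(b (l 3) (l 1)), by decide +kernel⟩

theorem c_pp_313 : CertB 1610612736 536870912 0 1230186008 587336777 62277027 3 eng mog cd2q3 cd7q3 pd1 false true true .dn 3 1 3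
    ndB2q3 ndB7q3 pcB1 Cut.none Ext.none :=
  certB0 (fam := false) (s1 := true) (s2 := true) (a := 3) (b := 1) (c := 3) (cn := .dn) (n1 := ndB2q3) (n2 := ndB7q3) (pc := pcB1) (cut := Cut.none) (xt := Ext.none) (P1 := 1610612736) (W1 := 536870912) (P2 := 0) (W2 := 1230186008) (P3 := 587336777) (W3 := 62277027) (N0 := 3) (En := eng) (mo := mog) (C1 := cd2q3) (C2 := cd7q3) (C3 := pd1)
    rfl k0_pp_313

noncomputable def f_pm_001 : ℕ → ℕ → ℕ → ℕ → Bool := onCell 0 536870912 536870912 536870912 587336777 62277027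
    (rowB 3 eng mog cd2q0 cd7q1 pd0 0 false true false .up 0 0 1 (qsf 0 536870912 536870912 536870912 0) ndB2q0 ndB7q1 pcB0 Cut.none Ext.none)

def k0_pm_001 : ∃ t, chk3 f_pm_001 t 1 1 1 = true :=
  ⟨(l 4), by decide +kernel⟩

theorem c_pm_001 : CertB 0 536870912 536870912 536870912 587336777 62277027 3 eng mog cd2q0 cd7q1 pd0 false true false .up 0 0 1
    ndB2q0 ndB7q1 pcB0 Cut.none Ext.none :=
  certB0 (fam := false) (s1 := true) (s2 := false) (a := 0) (b := 0) (c := 1) (cn := .up) (n1 := ndB2q0) (n2 := ndB7q1) (pc := pcB0) (cut := Cut.none) (xt := Ext.none) (P1 := 0) (W1 := 536870912) (P2 := 536870912) (W2 := 536870912) (P3 := 587336777) (W3 := 62277027) (N0 := 3) (En := eng) (mo := mog) (C1 := cd2q0) (C2 := cd7q1) (C3 := pd0)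
    rfl k0_pm_001

noncomputable def f_pm_011 : ℕ → ℕ → ℕ → ℕ → Bool := onCell 0 536870912 536870912 536870912 587336777 62277027
    (rowB 3 eng mog cd2q0 cd7q1 pd1 0 false true false .pnn 0 1 1 (qsf 0 536870912 536870912 536870912 1) ndB2q0 ndB7q1 pcB1 Cut.none Ext.none)

def k0_pm_011 : ∃ t, chk3 f_pm_011 t 1 1 1 = true :=
  ⟨(l 4), by decide +kernel⟩

theorem c_pm_011 : CertB 0 536870912 536870912 536870912 587336777 62277027 3 eng mog cd2q0 cd7q1 pd1 false true false .pnn 0 1 1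
    ndB2q0 ndB7q1 pcB1 Cut.none Ext.none :=
  certB0 (fam := false) (s1 := true) (s2 := false) (a := 0) (b := 1) (c := 1) (cn := .pnn) (n1 := ndB2q0) (n2 := ndB7q1) (pc := pcB1) (cut := Cut.none) (xt := Ext.none) (P1 := 0) (W1 := 536870912) (P2 := 536870912) (W2 := 536870912) (P3 := 587336777) (W3 := 62277027) (N0 := 3) (En := eng) (mo := mog) (C1 := cd2q0) (C2 := cd7q1) (C3 := pd1)
    rfl k0_pm_011

noncomputable def f_pm_012 : ℕ → ℕ → ℕ → ℕ → Bool := onCell 0 536870912 1073741824 536870912 587336777 62277027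
    (rowB 3 eng mog cd2q0 cd7q2 pd1 0 false true false .pnp 0 1 2 (qsf 0 536870912 1073741824 536870912 1) ndB2q0 ndB7q2 pcB1 Cut.none Ext.none)

def k0_pm_012 : ∃ t, chk3 f_pm_012 t 1 1 1 = true :=
  ⟨(l 4), by decide +kernel⟩

theorem c_pm_012 : CertB 0 536870912 1073741824 536870912 587336777 62277027 3 eng mog cd2q0 cd7q2 pd1 false true false .pnp 0 1 2
    ndB2q0 ndB7q2 pcB1 Cut.none Ext.none :=
  certB0 (fam := false) (s1 := true) (s2 := false) (a := 0) (b := 1) (c := 2) (cn := .pnp) (n1 := ndB2q0) (n2 := ndB7q2) (pc := pcB1) (cut := Cut.none) (xt := Ext.none) (P1 := 0) (W1 := 536870912) (P2 := 1073741824) (W2 := 536870912) (P3 := 587336777) (W3 := 62277027) (N0 := 3) (En := eng) (mo := mog) (C1 := cd2q0) (C2 := cd7q2) (C3 := pd1)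
    rfl k0_pm_012

noncomputable def f_pm_022 : ℕ → ℕ → ℕ → ℕ → Bool := onCell 0 536870912 1073741824 536870912 587336777 62277027
    (rowB 3 eng mog cd2q0 cd7q2 pd2 0 false true false .pp 0 2 2 (qsf 0 536870912 1073741824 536870912 2) ndB2q0 ndB7q2 pcB2 Cut.none Ext.none)

def k0_pm_022 : ∃ t, chk3 f_pm_022 t 1 1 1 = true :=
  ⟨(l 4), by decide +kernel⟩

theorem c_pm_022 : CertB 0 536870912 1073741824 536870912 587336777 62277027 3 eng mog cd2q0 cd7q2 pd2 false true false .pp 0 2 2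
    ndB2q0 ndB7q2 pcB2 Cut.none Ext.none :=
  certB0 (fam := false) (s1 := true) (s2 := false) (a := 0) (b := 2) (c := 2) (cn := .pp) (n1 := ndB2q0) (n2 := ndB7q2) (pc := pcB2) (cut := Cut.none) (xt := Ext.none) (P1 := 0) (W1 := 536870912) (P2 := 1073741824) (W2 := 536870912) (P3 := 587336777) (W3 := 62277027) (N0 := 3) (En := eng) (mo := mog) (C1 := cd2q0) (C2 := cd7q2) (C3 := pd2)
    rfl k0_pm_022

noncomputable def f_pm_023 : ℕ → ℕ → ℕ → ℕ → Bool := onCell 0 536870912 0 1230186008 587336777 62277027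
    (rowB 3 eng mog cd2q0 cd7q3 pd2 0 false true false .up 0 2 3 (qsf 0 536870912 0 1230186008 2) ndB2q0 ndB7q3 pcB2 Cut.none Ext.none)

def k0_pm_023 : ∃ t, chk3 f_pm_023 t 1 1 1 = true :=
  ⟨(b (b (a (l 2) (a (l 2) (a (l 2) (l 16698520)))) (l 4)) (l 4)), by decide +kernel⟩

theorem c_pm_023 : CertB 0 536870912 0 1230186008 587336777 62277027 3 eng mog cd2q0 cd7q3 pd2 false true false .up 0 2 3
    ndB2q0 ndB7q3 pcB2 Cut.none Ext.none :=
  certB0 (fam := false) (s1 := true) (s2 := false) (a := 0) (b := 2) (c := 3) (cn := .up) (n1 := ndB2q0) (n2 := ndB7q3) (pc := pcB2) (cut := Cut.none) (xt := Ext.none) (P1 := 0) (W1 := 536870912) (P2 := 0) (W2 := 1230186008) (P3 := 587336777) (W3 := 62277027) (N0 := 3) (En := eng) (mo := mog) (C1 := cd2q0) (C2 := cd7q3) (C3 := pd2)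
    rfl k0_pm_023

noncomputable def f_pm_033 : ℕ → ℕ → ℕ → ℕ → Bool := onCell 0 536870912 0 1230186008 587336777 62277027
    (rowB 3 eng mog cd2q0 cd7q3 pd3 0 false true false .pnn 0 3 3 (qsf 0 536870912 0 1230186008 3) ndB2q0 ndB7q3 pcB3 Cut.none Ext.none)

def k0_pm_033 : ∃ t, chk3 f_pm_033 t 1 1 1 = true :=
  ⟨(b (b (a (l 4) (a (l 4) (a (l 16684720) (l 16697096)))) (l 4)) (l 4)), by decide +kernel⟩

theorem c_pm_033 : CertB 0 536870912 0 1230186008 587336777 62277027 3 eng mog cd2q0 cd7q3 pd3 false true false .pnn 0 3 3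
    ndB2q0 ndB7q3 pcB3 Cut.none Ext.none :=
  certB0 (fam := false) (s1 := true) (s2 := false) (a := 0) (b := 3) (c := 3) (cn := .pnn) (n1 := ndB2q0) (n2 := ndB7q3) (pc := pcB3) (cut := Cut.none) (xt := Ext.none) (P1 := 0) (W1 := 536870912) (P2 := 0) (W2 := 1230186008) (P3 := 587336777) (W3 := 62277027) (N0 := 3) (En := eng) (mo := mog) (C1 := cd2q0) (C2 := cd7q3) (C3 := pd3)
    rfl k0_pm_033

noncomputable def f_pm_101 : ℕ → ℕ → ℕ → ℕ → Bool := onCell 536870912 536870912 536870912 536870912 587336777 62277027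
    (rowB 3 eng mog cd2q1 cd7q1 pd0 0 false true false .npn 1 0 1 (qsf 536870912 536870912 536870912 536870912 0) ndB2q1 ndB7q1 pcB0 Cut.none Ext.none)

def k0_pm_101 : ∃ t, chk3 f_pm_101 t 1 1 1 = true :=
  ⟨(l 4), by decide +kernel⟩

theorem c_pm_101 : CertB 536870912 536870912 536870912 536870912 587336777 62277027 3 eng mog cd2q1 cd7q1 pd0 false true false .npn 1 0 1
    ndB2q1 ndB7q1 pcB0 Cut.none Ext.none :=
  certB0 (fam := false) (s1 := true) (s2 := false) (a := 1) (b := 0) (c := 1) (cn := .npn) (n1 := ndB2q1) (n2 := ndB7q1) (pc := pcB0) (cut := Cut.none) (xt := Ext.none) (P1 := 536870912) (W1 := 536870912) (P2 := 536870912) (W2 := 536870912) (P3 := 587336777) (W3 := 62277027) (N0 := 3) (En := eng) (mo := mog) (C1 := cd2q1) (C2 := cd7q1) (C3 := pd0)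
    rfl k0_pm_101

noncomputable def f_pm_102 : ℕ → ℕ → ℕ → ℕ → Bool := onCell 536870912 536870912 1073741824 536870912 587336777 62277027
    (rowB 3 eng mog cd2q1 cd7q2 pd0 0 false true false .npp 1 0 2 (qsf 536870912 536870912 1073741824 536870912 0) ndB2q1 ndB7q2 pcB0 Cut.none Ext.none)

def k0_pm_102 : ∃ t, chk3 f_pm_102 t 1 1 1 = true :=
  ⟨(l 4), by decide +kernel⟩

theorem c_pm_102 : CertB 536870912 536870912 1073741824 536870912 587336777 62277027 3 eng mog cd2q1 cd7q2 pd0 false true false .npp 1 0 2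
    ndB2q1 ndB7q2 pcB0 Cut.none Ext.none :=
  certB0 (fam := false) (s1 := true) (s2 := false) (a := 1) (b := 0) (c := 2) (cn := .npp) (n1 := ndB2q1) (n2 := ndB7q2) (pc := pcB0) (cut := Cut.none) (xt := Ext.none) (P1 := 536870912) (W1 := 536870912) (P2 := 1073741824) (W2 := 536870912) (P3 := 587336777) (W3 := 62277027) (N0 := 3) (En := eng) (mo := mog) (C1 := cd2q1) (C2 := cd7q2) (C3 := pd0)
    rfl k0_pm_102

noncomputable def f_pm_112 : ℕ → ℕ → ℕ → ℕ → Bool := onCell 536870912 536870912 1073741824 536870912 587336777 62277027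
    (rowB 3 eng mog cd2q1 cd7q2 pd1 0 false true false .dn 1 1 2 (qsf 536870912 536870912 1073741824 536870912 1) ndB2q1 ndB7q2 pcB1 Cut.none Ext.none)

def k0_pm_112 : ∃ t, chk3 f_pm_112 t 1 1 1 = true :=
  ⟨(l 4), by decide +kernel⟩

theorem c_pm_112 : CertB 536870912 536870912 1073741824 536870912 587336777 62277027 3 eng mog cd2q1 cd7q2 pd1 false true false .dn 1 1 2
    ndB2q1 ndB7q2 pcB1 Cut.none Ext.none :=
  certB0 (fam := false) (s1 := true) (s2 := false) (a := 1) (b := 1) (c := 2) (cn := .dn) (n1 := ndB2q1) (n2 := ndB7q2) (pc := pcB1) (cut := Cut.none) (xt := Ext.none) (P1 := 536870912) (W1 := 536870912) (P2 := 1073741824) (W2 := 536870912) (P3 := 587336777) (W3 := 62277027) (N0 := 3) (En := eng) (mo := mog) (C1 := cd2q1) (C2 := cd7q2) (C3 := pd1)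
    rfl k0_pm_112

noncomputable def f_pm_113 : ℕ → ℕ → ℕ → ℕ → Bool := onCell 536870912 536870912 0 1230186008 587336777 62277027
    (rowB 3 eng mog cd2q1 cd7q3 pd1 0 false true false .nn 1 1 3 (qsf 536870912 536870912 0 1230186008 1) ndB2q1 ndB7q3 pcB1 Cut.none Ext.none)

def k0_pm_113 : ∃ t, chk3 f_pm_113 t 1 1 1 = true :=
  ⟨(a (b (l 2) (l 4)) (a (b (l 2) (b (b (a (l 2) (l 16715016)) (l 4)) (l 4))) (b (b (b (l 16978376) (l 16756280)) (b (l 16750040) (l 16754392))) (b (b (b (l 16746280) (a (l 16727848) (l 16753280))) (b (l 16767528) (l 16781712))) (b (l 16839608) (l 4)))))), by decide +kernel⟩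

theorem c_pm_113 : CertB 536870912 536870912 0 1230186008 587336777 62277027 3 eng mog cd2q1 cd7q3 pd1 false true false .nn 1 1 3
    ndB2q1 ndB7q3 pcB1 Cut.none Ext.none :=
  certB0 (fam := false) (s1 := true) (s2 := false) (a := 1) (b := 1) (c := 3) (cn := .nn) (n1 := ndB2q1) (n2 := ndB7q3) (pc := pcB1) (cut := Cut.none) (xt := Ext.none) (P1 := 536870912) (W1 := 536870912) (P2 := 0) (W2 := 1230186008) (P3 := 587336777) (W3 := 62277027) (N0 := 3) (En := eng) (mo := mog) (C1 := cd2q1) (C2 := cd7q3) (C3 := pd1)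
    rfl k0_pm_113

noncomputable def f_pm_123 : ℕ → ℕ → ℕ → ℕ → Bool := onCell 1073741824 536870912 0 1230186008 587336777 62277027
    (rowB 3 eng mog cd2q1 cd7q3 pd2 2 false true false .npn 1 2 3 (qsf 536870912 536870912 0 1230186008 2) ndB2q1 ndB7q3 pcB2 Cut.none Ext.none)

def k0_pm_123 : ∃ t, chk3 f_pm_123 t 1 1 1 = true :=
  ⟨(b (a (a (b (a (l 16739336) (b (l 16710376) (l 16695920))) (b (a (l 16730096) (l 16685864)) (a (l 16706352) (l 16662920)))) (b (a (l 16890152) (l 16660320)) (b (l 16658024) (a (l 16646280) (l 16647728))))) (a (b (a (l 16670696) (l 16687120)) (b (l 16686944) (l 4))) (b (a (l 16713944) (l 16718064)) (l 4)))) (a (b (a (b (a (l 16692296) (l 16659128)) (l 4)) (l 4)) (l 4)) (l 4))), by decide +kernel⟩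

theorem c_pm_123 : CertB 536870912 536870912 0 1230186008 587336777 62277027 3 eng mog cd2q1 cd7q3 pd2 false true false .npn 1 2 3
    ndB2q1 ndB7q3 pcB2 Cut.none Ext.none :=
  certB2 (fam := false) (s1 := true) (s2 := false) (a := 1) (b := 2) (c := 3) (cn := .npn) (n1 := ndB2q1) (n2 := ndB7q3) (pc := pcB2) (cut := Cut.none) (xt := Ext.none) (P1 := 536870912) (W1 := 536870912) (P2 := 0) (W2 := 1230186008) (P3 := 587336777) (W3 := 62277027) (N0 := 3) (En := eng) (mo := mog) (C1 := cd2q1) (C2 := cd7q3) (C3 := pd2)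
    rfl (fun _ => rfl) k0_pm_123

noncomputable def f_pm_133 : ℕ → ℕ → ℕ → ℕ → Bool := onCell 1610612736 536870912 0 1230186008 587336777 62277027
    (rowB 3 eng mog cd2q1 cd7q3 pd3 2 false true false .dn 1 3 3 (qsf 536870912 536870912 0 1230186008 3) ndB2q1 ndB7q3 pcB3 Cut.none Ext.none)

def k0_pm_133 : ∃ t, chk3 f_pm_133 t 1 1 1 = true :=
  ⟨(b (a (a (b (l 16732152) (l 1)) (l 1)) (l 1)) (l 1)), by decide +kernel⟩

theorem c_pm_133 : CertB 536870912 536870912 0 1230186008 587336777 62277027 3 eng mog cd2q1 cd7q3 pd3 false true false .dn 1 3 3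
    ndB2q1 ndB7q3 pcB3 Cut.none Ext.none :=
  certB2 (fam := false) (s1 := true) (s2 := false) (a := 1) (b := 3) (c := 3) (cn := .dn) (n1 := ndB2q1) (n2 := ndB7q3) (pc := pcB3) (cut := Cut.none) (xt := Ext.none) (P1 := 536870912) (W1 := 536870912) (P2 := 0) (W2 := 1230186008) (P3 := 587336777) (W3 := 62277027) (N0 := 3) (En := eng) (mo := mog) (C1 := cd2q1) (C2 := cd7q3) (C3 := pd3)
    rfl (fun _ => rfl) k0_pm_133

noncomputable def f_pm_202_a : ℕ → ℕ → ℕ → ℕ → Bool := onCell 0 536870912 1073741824 536870912 587336777 62277027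
    (rowB 3 eng mog cd2q2a cd7q2 pd0 0 false true false .pp 2 0 2 (qsf 0 536870912 1073741824 536870912 0) ndB2q2a ndB7q2 pcB0 Cut.none Ext.none)

def k0_pm_202_a : ∃ t, chk3 f_pm_202_a t 1 1 1 = true :=
  ⟨(a (b (a (b (l 1) (b (b (a (l 16419144) (l 16401504)) (a (l 16471392) (l 16452936))) (b (a (l 16505600) (l 16489200)) (l 16532792)))) (b (b (l 1) (a (l 1) (b (l 1) (l 16287736)))) (b (b (a (l 16381840) (l 16356904)) (l 16413808)) (b (l 16453256) (l 16493688))))) (a (b (b (b (l 16566760) (l 16601984)) (l 16650096)) (b (b (l 16690768) (l 16714488)) (b (l 16733960) (l 16748776)))) (b (b (a (l 16563272) (l 16546552)) (a (l 16636344) (l 16630808))) (b (a (l 16702216) (l 16706400)) (b (l 16747536) (a (l 16763832) (l 16780424))))))) (b (b (l 4) (a (b (a (b (l 16333704) (l 16370016)) (l 4)) (a (l 16436928) (l 63048604935))) (l 4))) (a (b (b (a (l 16536536) (l 16551536)) (a (l 16636640) (l 16660600))) (b (a (l 16723136) (l 16743744)) (a (b (l 16781152) (l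 16814640)) (b (l 16795144) (l 16823032))))) (a (b (b (l 16563664) (l 16641496)) (b (l 16720344) (b (l 16780792) (l 16793632)))) (b (l 4) (b (b (l 16689432) (l 16722768)) (l 16767136))))))), by decide +kernel⟩

theorem c_pm_202_a : CertB 0 536870912 1073741824 536870912 587336777 62277027 3 eng mog cd2q2a cd7q2 pd0 false true false .pp 2 0 2
    ndB2q2a ndB7q2 pcB0 Cut.none Ext.none :=
  certB0 (fam := false) (s1 := true) (s2 := false) (a := 2) (b := 0) (c := 2) (cn := .pp) (n1 := ndB2q2a) (n2 := ndB7q2) (pc := pcB0) (cut := Cut.none) (xt := Ext.none) (P1 := 0) (W1 := 536870912) (P2 := 1073741824) (W2 := 536870912) (P3 := 587336777) (W3 := 62277027) (N0 := 3) (En := eng) (mo := mog) (C1 := cd2q2a) (C2 := cd7q2) (C3 := pd0)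
    rfl k0_pm_202_a

noncomputable def f_pm_202_b : ℕ → ℕ → ℕ → ℕ → Bool := onCell 0 536870912 1073741824 536870912 587336777 62277027
    (rowB 3 eng mog cd2q2b cd7q2 pd0 2 false true false .pp 2 0 2 (qsf 1239849684 370763052 1073741824 536870912 0) ndB2q2b ndB7q2 pcB0 Cut.none Ext.none)

def k0_pm_202_b : ∃ t, chk3 f_pm_202_b t 1 1 1 = true :=
  ⟨(a (b (a (b (l 1) (b (a (a (l 499860259079) (l 510597709927)) (l 1)) (a (a (l 16492424) (l 16517432)) (l 518113862983)))) (l 1)) (b (a (b (a (l 16507904) (l 16571120)) (a (l 16462936) (l 16557584))) (b (a (l 463889615815) (l 1)) (a (l 16627344) (l 516503679143)))) (a (b (a (l 16326752) (l 16460888)) (a (l 16208544) (l 16298928))) (b (a (l 16601480) (l 423087833367)) (a (l 16422064) (l 16581728)))))) (a (b (l 1) (b (l 1) (a (b (l 391948899863) (l 16692216)) (b (l 1) (a (l 16748776) (l 439730529095)))))) (l 1))), by decide +kernel⟩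

theorem c_pm_202_b : CertB 1239849684 370763052 1073741824 536870912 587336777 62277027 3 eng mog cd2q2b cd7q2 pd0 false true false .pp 2 0 2
    ndB2q2b ndB7q2 pcB0 Cut.none Ext.none :=
  certB2 (fam := false) (s1 := true) (s2 := false) (a := 2) (b := 0) (c := 2) (cn := .pp) (n1 := ndB2q2b) (n2 := ndB7q2) (pc := pcB0) (cut := Cut.none) (xt := Ext.none) (P1 := 1239849684) (W1 := 370763052) (P2 := 1073741824) (W2 := 536870912) (P3 := 587336777) (W3 := 62277027) (N0 := 3) (En := eng) (mo := mog) (C1 := cd2q2b) (C2 := cd7q2) (C3 := pd0)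
    rfl (fun _ => rfl) k0_pm_202_b

noncomputable def f_pm_203_a : ℕ → ℕ → ℕ → ℕ → Bool := onCell 0 536870912 0 1230186008 587336777 62277027
    (rowB 3 eng mog cd2q2a cd7q3 pd0 0 false true false .up 2 0 3 (qsf 0 536870912 0 1230186008 0) ndB2q2a ndB7q3 pcB0 Cut.none Ext.none)

def k0_pm_203_a : ∃ t, chk3 f_pm_203_a t 1 1 1 = true :=
  ⟨(b (l 2) (b (l 2) (a (b (b (l 2) (a (l 16809232) (l 16852736))) (b (a (b (l 16798728) (l 16786152)) (b (l 16845112) (l 16833096))) (a (b (l 16775184) (a (l 16752304) (l 16767408))) (b (l 16817448) (a (l 16783544) (l 16807448)))))) (b (l 2) (a (b (b (l 16903624) (l 16857800)) (b (a (l 16870192) (l 16827928)) (a (l 16849776) (l 16827104)))) (b (a (l 16822464) (l 2)) (a (b (l 16793976) (l 16792696)) (b (l 16795176) (l 16789392))))))))), by decide +kernel⟩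

theorem c_pm_203_a : CertB 0 536870912 0 1230186008 587336777 62277027 3 eng mog cd2q2a cd7q3 pd0 false true false .up 2 0 3
    ndB2q2a ndB7q3 pcB0 Cut.none Ext.none :=
  certB0 (fam := false) (s1 := true) (s2 := false) (a := 2) (b := 0) (c := 3) (cn := .up) (n1 := ndB2q2a) (n2 := ndB7q3) (pc := pcB0) (cut := Cut.none) (xt := Ext.none) (P1 := 0) (W1 := 536870912) (P2 := 0) (W2 := 1230186008) (P3 := 587336777) (W3 := 62277027) (N0 := 3) (En := eng) (mo := mog) (C1 := cd2q2a) (C2 := cd7q3) (C3 := pd0)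
    rfl k0_pm_203_a

noncomputable def f_pm_203_b : ℕ → ℕ → ℕ → ℕ → Bool := onCell 0 536870912 0 1230186008 587336777 62277027
    (rowB 3 eng mog cd2q2b cd7q3 pd0 2 false true false .up 2 0 3 (qsf 1239849684 370763052 0 1230186008 0) ndB2q2b ndB7q3 pcB0 Cut.none Ext.none)

def k0_pm_203_b : ∃ t, chk3 f_pm_203_b t 1 1 1 = true :=
  ⟨(b (l 3) (b (b (l 3) (a (l 3) (a (b (l 3) (a (l 203641645751) (l 204178694839))) (a (b (l 3) (b (l 16749008) (l 16729984))) (b (l 209010754935) (a (l 16744008) (l 16808576))))))) (a (b (a (l 2) (b (a (l 16579624) (l 16618368)) (a (l 70430347591) (b (l 16569056) (l 16533448))))) (a (b (l 186931361191) (l 16294192)) (b (a (l 16437696) (l 16505976)) (a (l 16405864) (l 16463616))))) (a (b (b (a (l 16652776) (l 16681168)) (l 16677096)) (b (l 16567984) (a (b (l 16510936) (l 16589328)) (b (l 16666800) (l 16719416))))) (b (b (a (b (l 16710488) (l 16691312)) (l 16716304)) (l 182570016631)) (a (b (l 16721528) (a (l 338799474279)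 (l 16809000))) (b (l 16939288) (l 1)))))))), by decide +kernel⟩

theorem c_pm_203_b : CertB 1239849684 370763052 0 1230186008 587336777 62277027 3 eng mog cd2q2b cd7q3 pd0 false true false .up 2 0 3
    ndB2q2b ndB7q3 pcB0 Cut.none Ext.none :=
  certB2 (fam := false) (s1 := true) (s2 := false) (a := 2) (b := 0) (c := 3) (cn := .up) (n1 := ndB2q2b) (n2 := ndB7q3) (pc := pcB0) (cut := Cut.none) (xt := Ext.none) (P1 := 1239849684) (W1 := 370763052) (P2 := 0) (W2 := 1230186008) (P3 := 587336777) (W3 := 62277027) (N0 := 3) (En := eng) (mo := mog) (C1 := cd2q2b) (C2 := cd7q3) (C3 := pd0)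
    rfl (fun _ => rfl) k0_pm_203_b

noncomputable def cut_pm_213_a : Cut := Cut.of [[⟨0, 1, 0, 67108864⟩, ⟨1, 1, 0, 67108864⟩, ⟨2, 2, 0, 16777216⟩]]

noncomputable def f_pm_213_a : ℕ → ℕ → ℕ → ℕ → Bool := onCell 0 536870912 0 1230186008 587336777 62277027
    (rowB 3 eng mog cd2q2a cd7q3 pd1 0 false true false .pnn 2 1 3 (qsf 0 536870912 0 1230186008 1) ndB2q2a ndB7q3 pcB1 cut_pm_213_a Ext.none)

def k0_pm_213_a : ∃ t, chk3 f_pm_213_a t 1 2 1 = true :=
  ⟨(a (b (l 3) (b (a (l 3) (b (l 3) (a (l 3) (a (b (l 3) (l 337859558327)) (b (l 336785838535) (l 278266896199)))))) (a (b (l 3) (a (l 3) (a (l 3) (b (l 3) (b (l 304573568999) (l 295446766807)))))) (b (a (b (a (l 3) (l 324974656215)) (a (l 3) (l 285246216839))) (a (b (a (l 306184201255) (l 230485468999)) (l 16774680)) (b (l 16775408) (l 16783304)))) (a (b (a (l 290078076439) (l 16774712)) (a (l 16817056) (l 16779816))) (b (a (l 16781416) (l 16781144)) (l 16806448))))))) (b (a (b (l 3) (a (l 3) (b (a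 (l 3) (b (l 3) (a (l 3) (l 323900924775)))) (a (b (a (l 3) (l 350207595591)) (l 296520549479)) (b (a (l 311552894535) (l 249812769191)) (l 16798648)))))) (b (a (a (l 3) (l 6)) (l 6)) (a (b (a (b (a (l 3) (l 304036724967)) (a (l 268066354151) (l 16777632))) (a (b (l 243370325463) (l 16778456)) (l 6))) (a (b (a (l 16777888) (l 16779968)) (l 16780424)) (b (l 16779296) (l 16782632)))) (b (a (a (l 6) (l 6)) (l 16779936)) (a (l 16783224) (l 16785680)))))) (a (b (a (b (a (b (l 3) (l 343228270471)) (b (l 319605953223) (a (l 264308306215) (l 16776376)))) (a (b (l 269677007943) (l 16777616)) (b (l 16780304) (l 16781600)))) (b (a (b (l 261087089431) (l 16779800)) (b (l 16780160) (l 16782112))) (a (b (l 16781520) (l 16782072)) (l 16784272)))) (b (a (a (b (l 16782416) (l 16781912)) (l 16782000)) (l 16784704)) (a (l 16779480) (l 16786800)))) (b (a (b (b (l 16867576) (l 16785840)) (l 16789744)) (b (l 16790680) (l 16796640))) (a (b (l 16794064) (l 16795256)) (b (l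 16800712) (l 16802584))))))), by decide +kernel⟩

def k1_pm_213_a : ∃ t, chk3 f_pm_213_a t 1 3 1 = true :=
  ⟨(b (a (b (a (b (a (b (l 3) (a (l 3) (b (l 321216570183) (l 301889221031)))) (b (a (a (l 323900923799) (l 290614929671)) (l 236927925383)) (a (a (l 259476473831) (l 16781544)) (l 16777864)))) (a (b (a (b (l 331417117463) (l 302426113767)) (b (l 16797264) (l 16778744))) (a (b (l 252497125735) (l 16776640)) (l 16776432))) (b (a (l 16777400) (l 16783776)) (l 16782248)))) (b (a (b (a (l 16778608) (l 16778064)) (l 16846296)) (l 16773520)) (b (a (l 16774696) (l 16774736)) (a (l 16772368) (l 16776256))))) (a (b (a (b (a (b (l 16775336) (l 16775808)) (l 16781856)) (l 16822112)) (b (l 16774040) (l 16770992))) (a (b (l 16771888) (l 16767952)) (l 16778376))) (b (a (l 16861240) (l 16764944)) (l 16769008)))) (b (a (b (a (l 16779992) (l 16784640)) (a (l 16771096) (l 16791904))) (b (a (l 16753856) (l 16799120)) (l 16795552))) (a (b (l 16790472) (l 16779408))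 (b (l 16797528) (l 16798384))))) (a (b (b (a (a (l 16861856) (l 16760464)) (l 16776240)) (a (l 16882912) (l 16752296))) (b (a (l 1) (l 16898824)) (l 1))) (b (a (b (l 16776176) (l 16774848)) (b (l 16803896) (l 16800992))) (a (b (l 16766264) (l 1)) (b (l 16796448) (l 16867272)))))), by decide +kernel⟩

theorem s2_pm_213_a : ∃ t, chk3 f_pm_213_a t 1 1 1 = true := ex3_b k0_pm_213_a k1_pm_213_a

theorem c_pm_213_a : CertB 0 536870912 0 1230186008 587336777 62277027 3 eng mog cd2q2a cd7q3 pd1 false true false .pnn 2 1 3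
    ndB2q2a ndB7q3 pcB1 cut_pm_213_a Ext.none :=
  certB0 (fam := false) (s1 := true) (s2 := false) (a := 2) (b := 1) (c := 3) (cn := .pnn) (n1 := ndB2q2a) (n2 := ndB7q3) (pc := pcB1) (cut := cut_pm_213_a) (xt := Ext.none) (P1 := 0) (W1 := 536870912) (P2 := 0) (W2 := 1230186008) (P3 := 587336777) (W3 := 62277027) (N0 := 3) (En := eng) (mo := mog) (C1 := cd2q2a) (C2 := cd7q3) (C3 := pd1)
    rfl s2_pm_213_a

noncomputable def cut_pm_213_b : Cut := Cut.of [[⟨0, 1, 0, 67108864⟩, ⟨1, 1, 0, 67108864⟩, ⟨2, 2, 0, 16777216⟩]]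

noncomputable def f_pm_213_b : ℕ → ℕ → ℕ → ℕ → Bool := onCell 1239849684 370763052 0 1230186008 587336777 62277027
    (rowB 3 eng mog cd2q2b cd7q3 pd1 0 false true false .pnn 2 1 3 (qsf 1239849684 370763052 0 1230186008 1) ndB2q2b ndB7q3 pcB1 cut_pm_213_b Ext.none)

def k0_pm_213_b : ∃ t, chk3 f_pm_213_b t 1 1 1 = true :=
  ⟨(b (l 3) (b (a (b (a (b (l 3) (b (l 3) (a (a (a (b (l 254644598071) (l 16776304)) (l 285783103031)) (l 309405392791)) (l 3)))) (l 3)) (a (b (b (a (a (l 16776104) (l 16770792)) (a (l 16766160) (l 16762864))) (a (a (l 16782496) (l 16768976)) (l 16808616))) (a (l 16787888) (b (l 16759656) (l 16759184)))) (b (b (l 3) (a (l 275045640327) (l 253571039847))) (a (b (l 16757864) (l 16749000)) (l 1))))) (b (l 3) (l 1))) (a (b (a (b (b (l 16795568) (l 16789824)) (l 16910440)) (l 1)) (l 1)) (l 1)))), by decide +kernel⟩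

theorem c_pm_213_b : CertB 1239849684 370763052 0 1230186008 587336777 62277027 3 eng mog cd2q2b cd7q3 pd1 false true false .pnn 2 1 3
    ndB2q2b ndB7q3 pcB1 cut_pm_213_b Ext.none :=
  certB0 (fam := false) (s1 := true) (s2 := false) (a := 2) (b := 1) (c := 3) (cn := .pnn) (n1 := ndB2q2b) (n2 := ndB7q3) (pc := pcB1) (cut := cut_pm_213_b) (xt := Ext.none) (P1 := 1239849684) (W1 := 370763052) (P2 := 0) (W2 := 1230186008) (P3 := 587336777) (W3 := 62277027) (N0 := 3) (En := eng) (mo := mog) (C1 := cd2q2b) (C2 := cd7q3) (C3 := pd1)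
    rfl k0_pm_213_b

noncomputable def f_pm_303 : ℕ → ℕ → ℕ → ℕ → Bool := onCell 0 536870912 0 1230186008 587336777 62277027
    (rowB 3 eng mog cd2q3 cd7q3 pd0 2 false true false .npn 3 0 3 (qsf 1610612736 536870912 0 1230186008 0) ndB2q3 ndB7q3 pcB0 Cut.none Ext.none)

def k0_pm_303 : ∃ t, chk3 f_pm_303 t 1 1 1 = true :=
  ⟨(b (l 3) (b (b (l 3) (a (l 3) (a (b (l 3) (a (l 190219833975) (l 1))) (l 1)))) (a (b (a (b (a (a (l 16461728) (l 16479464)) (l 16505032)) (a (l 16377472) (a (l 16386400) (l 16430800)))) (b (a (l 16545736) (l 16589232)) (a (b (l 16495176) (l 16450056)) (l 1)))) (a (b (a (l 16268224) (l 16315008)) (l 16256408)) (b (a (l 16404952) (l 1)) (l 1)))) (l 1)))), by decide +kernel⟩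

theorem c_pm_303 : CertB 1610612736 536870912 0 1230186008 587336777 62277027 3 eng mog cd2q3 cd7q3 pd0 false true false .npn 3 0 3
    ndB2q3 ndB7q3 pcB0 Cut.none Ext.none :=
  certB2 (fam := false) (s1 := true) (s2 := false) (a := 3) (b := 0) (c := 3) (cn := .npn) (n1 := ndB2q3) (n2 := ndB7q3) (pc := pcB0) (cut := Cut.none) (xt := Ext.none) (P1 := 1610612736) (W1 := 536870912) (P2 := 0) (W2 := 1230186008) (P3 := 587336777) (W3 := 62277027) (N0 := 3) (En := eng) (mo := mog) (C1 := cd2q3) (C2 := cd7q3) (C3 := pd0)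
    rfl (fun _ => rfl) k0_pm_303

noncomputable def f_pm_313 : ℕ → ℕ → ℕ → ℕ → Bool := onCell 1610612736 536870912 0 1230186008 587336777 62277027
    (rowB 3 eng mog cd2q3 cd7q3 pd1 0 false true false .dn 3 1 3 (qsf 1610612736 536870912 0 1230186008 1) ndB2q3 ndB7q3 pcB1 Cut.none Ext.none)

def k0_pm_313 : ∃ t, chk3 f_pm_313 t 1 1 1 = true :=
  ⟨(b (l 3) (l 1)), by decide +kernel⟩

theorem c_pm_313 : CertB 1610612736 536870912 0 1230186008 587336777 62277027 3 eng mog cd2q3 cd7q3 pd1 false true false .dn 3 1 3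
    ndB2q3 ndB7q3 pcB1 Cut.none Ext.none :=
  certB0 (fam := false) (s1 := true) (s2 := false) (a := 3) (b := 1) (c := 3) (cn := .dn) (n1 := ndB2q3) (n2 := ndB7q3) (pc := pcB1) (cut := Cut.none) (xt := Ext.none) (P1 := 1610612736) (W1 := 536870912) (P2 := 0) (W2 := 1230186008) (P3 := 587336777) (W3 := 62277027) (N0 := 3) (En := eng) (mo := mog) (C1 := cd2q3) (C2 := cd7q3) (C3 := pd1)
    rfl k0_pm_313

noncomputable def f_mm_001 : ℕ → ℕ → ℕ → ℕ → Bool := onCell 0 536870912 0 536870912 587336777 62277027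
    (rowB 3 eng mog cd2q0 cd7q1 pd0 1 false false false .up 0 0 1 (qsf 0 536870912 536870912 536870912 0) ndB2q0 ndB7q1 pcB0 Cut.none Ext.none)

def k0_mm_001 : ∃ t, chk3 f_mm_001 t 1 1 1 = true :=
  ⟨(l 3), by decide +kernel⟩

theorem c_mm_001 : CertB 0 536870912 536870912 536870912 587336777 62277027 3 eng mog cd2q0 cd7q1 pd0 false false false .up 0 0 1
    ndB2q0 ndB7q1 pcB0 Cut.none Ext.none :=
  certB1 (fam := false) (s1 := false) (s2 := false) (a := 0) (b := 0) (c := 1) (cn := .up) (n1 := ndB2q0) (n2 := ndB7q1) (pc := pcB0) (cut := Cut.none) (xt := Ext.none) (P1 := 0) (W1 := 536870912) (P2 := 536870912) (W2 := 536870912) (P3 := 587336777) (W3 := 62277027) (N0 := 3) (En := eng) (mo := mog) (C1 := cd2q0) (C2 := cd7q1) (C3 := pd0)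
    rfl (fun _ => rfl) k0_mm_001

noncomputable def f_mm_011 : ℕ → ℕ → ℕ → ℕ → Bool := onCell 0 536870912 536870912 536870912 587336777 62277027
    (rowB 3 eng mog cd2q0 cd7q1 pd1 1 false false false .pnn 0 1 1 (qsf 0 536870912 536870912 536870912 1) ndB2q0 ndB7q1 pcB1 Cut.none Ext.none)

def k0_mm_011 : ∃ t, chk3 f_mm_011 t 1 1 1 = true :=
  ⟨(l 5), by decide +kernel⟩

theorem c_mm_011 : CertB 0 536870912 536870912 536870912 587336777 62277027 3 eng mog cd2q0 cd7q1 pd1 false false false .pnn 0 1 1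
    ndB2q0 ndB7q1 pcB1 Cut.none Ext.none :=
  certB1 (fam := false) (s1 := false) (s2 := false) (a := 0) (b := 1) (c := 1) (cn := .pnn) (n1 := ndB2q0) (n2 := ndB7q1) (pc := pcB1) (cut := Cut.none) (xt := Ext.none) (P1 := 0) (W1 := 536870912) (P2 := 536870912) (W2 := 536870912) (P3 := 587336777) (W3 := 62277027) (N0 := 3) (En := eng) (mo := mog) (C1 := cd2q0) (C2 := cd7q1) (C3 := pd1)
    rfl (fun _ => rfl) k0_mm_011

noncomputable def f_mm_012 : ℕ → ℕ → ℕ → ℕ → Bool := onCell 0 536870912 1073741824 536870912 587336777 62277027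
    (rowB 3 eng mog cd2q0 cd7q2 pd1 0 false false false .pnp 0 1 2 (qsf 0 536870912 1073741824 536870912 1) ndB2q0 ndB7q2 pcB1 Cut.none Ext.none)

def k0_mm_012 : ∃ t, chk3 f_mm_012 t 1 1 1 = true :=
  ⟨(l 5), by decide +kernel⟩

theorem c_mm_012 : CertB 0 536870912 1073741824 536870912 587336777 62277027 3 eng mog cd2q0 cd7q2 pd1 false false false .pnp 0 1 2
    ndB2q0 ndB7q2 pcB1 Cut.none Ext.none :=
  certB0 (fam := false) (s1 := false) (s2 := false) (a := 0) (b := 1) (c := 2) (cn := .pnp) (n1 := ndB2q0) (n2 := ndB7q2) (pc := pcB1) (cut := Cut.none) (xt := Ext.none) (P1 := 0) (W1 := 536870912) (P2 := 1073741824) (W2 := 536870912) (P3 := 587336777) (W3 := 62277027) (N0 := 3) (En := eng) (mo := mog) (C1 := cd2q0) (C2 := cd7q2) (C3 := pd1)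
    rfl k0_mm_012

noncomputable def f_mm_022 : ℕ → ℕ → ℕ → ℕ → Bool := onCell 0 536870912 1073741824 536870912 587336777 62277027
    (rowB 3 eng mog cd2q0 cd7q2 pd2 0 false false false .pp 0 2 2 (qsf 0 536870912 1073741824 536870912 2) ndB2q0 ndB7q2 pcB2 Cut.none Ext.none)

def k0_mm_022 : ∃ t, chk3 f_mm_022 t 1 1 1 = true :=
  ⟨(l 5), by decide +kernel⟩

theorem c_mm_022 : CertB 0 536870912 1073741824 536870912 587336777 62277027 3 eng mog cd2q0 cd7q2 pd2 false false false .pp 0 2 2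
    ndB2q0 ndB7q2 pcB2 Cut.none Ext.none :=
  certB0 (fam := false) (s1 := false) (s2 := false) (a := 0) (b := 2) (c := 2) (cn := .pp) (n1 := ndB2q0) (n2 := ndB7q2) (pc := pcB2) (cut := Cut.none) (xt := Ext.none) (P1 := 0) (W1 := 536870912) (P2 := 1073741824) (W2 := 536870912) (P3 := 587336777) (W3 := 62277027) (N0 := 3) (En := eng) (mo := mog) (C1 := cd2q0) (C2 := cd7q2) (C3 := pd2)
    rfl k0_mm_022

noncomputable def f_mm_023 : ℕ → ℕ → ℕ → ℕ → Bool := onCell 0 536870912 0 1230186008 587336777 62277027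
    (rowB 3 eng mog cd2q0 cd7q3 pd2 0 false false false .up 0 2 3 (qsf 0 536870912 0 1230186008 2) ndB2q0 ndB7q3 pcB2 Cut.none Ext.none)

def k0_mm_023 : ∃ t, chk3 f_mm_023 t 1 1 1 = true :=
  ⟨(l 5), by decide +kernel⟩

theorem c_mm_023 : CertB 0 536870912 0 1230186008 587336777 62277027 3 eng mog cd2q0 cd7q3 pd2 false false false .up 0 2 3
    ndB2q0 ndB7q3 pcB2 Cut.none Ext.none :=
  certB0 (fam := false) (s1 := false) (s2 := false) (a := 0) (b := 2) (c := 3) (cn := .up) (n1 := ndB2q0) (n2 := ndB7q3) (pc := pcB2) (cut := Cut.none) (xt := Ext.none) (P1 := 0) (W1 := 536870912) (P2 := 0) (W2 := 1230186008) (P3 := 587336777) (W3 := 62277027) (N0 := 3) (En := eng) (mo := mog) (C1 := cd2q0) (C2 := cd7q3) (C3 := pd2)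
    rfl k0_mm_023

noncomputable def f_mm_033 : ℕ → ℕ → ℕ → ℕ → Bool := onCell 0 536870912 0 1230186008 587336777 62277027
    (rowB 3 eng mog cd2q0 cd7q3 pd3 0 false false false .pnn 0 3 3 (qsf 0 536870912 0 1230186008 3) ndB2q0 ndB7q3 pcB3 Cut.none Ext.none)

def k0_mm_033 : ∃ t, chk3 f_mm_033 t 1 1 1 = true :=
  ⟨(l 5), by decide +kernel⟩

theorem c_mm_033 : CertB 0 536870912 0 1230186008 587336777 62277027 3 eng mog cd2q0 cd7q3 pd3 false false false .pnn 0 3 3
    ndB2q0 ndB7q3 pcB3 Cut.none Ext.none :=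
  certB0 (fam := false) (s1 := false) (s2 := false) (a := 0) (b := 3) (c := 3) (cn := .pnn) (n1 := ndB2q0) (n2 := ndB7q3) (pc := pcB3) (cut := Cut.none) (xt := Ext.none) (P1 := 0) (W1 := 536870912) (P2 := 0) (W2 := 1230186008) (P3 := 587336777) (W3 := 62277027) (N0 := 3) (En := eng) (mo := mog) (C1 := cd2q0) (C2 := cd7q3) (C3 := pd3)
    rfl k0_mm_033

noncomputable def f_mm_101 : ℕ → ℕ → ℕ → ℕ → Bool := onCell 536870912 536870912 0 536870912 587336777 62277027
    (rowB 3 eng mog cd2q1 cd7q1 pd0 1 false false false .npn 1 0 1 (qsf 536870912 536870912 536870912 536870912 0) ndB2q1 ndB7q1 pcB0 Cut.none Ext.none)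

def k0_mm_101 : ∃ t, chk3 f_mm_101 t 1 1 1 = true :=
  ⟨(l 3), by decide +kernel⟩

theorem c_mm_101 : CertB 536870912 536870912 536870912 536870912 587336777 62277027 3 eng mog cd2q1 cd7q1 pd0 false false false .npn 1 0 1
    ndB2q1 ndB7q1 pcB0 Cut.none Ext.none :=
  certB1 (fam := false) (s1 := false) (s2 := false) (a := 1) (b := 0) (c := 1) (cn := .npn) (n1 := ndB2q1) (n2 := ndB7q1) (pc := pcB0) (cut := Cut.none) (xt := Ext.none) (P1 := 536870912) (W1 := 536870912) (P2 := 536870912) (W2 := 536870912) (P3 := 587336777) (W3 := 62277027) (N0 := 3) (En := eng) (mo := mog) (C1 := cd2q1) (C2 := cd7q1) (C3 := pd0)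
    rfl (fun _ => rfl) k0_mm_101

noncomputable def f_mm_102 : ℕ → ℕ → ℕ → ℕ → Bool := onCell 536870912 536870912 1073741824 536870912 587336777 62277027
    (rowB 3 eng mog cd2q1 cd7q2 pd0 0 false false false .npp 1 0 2 (qsf 536870912 536870912 1073741824 536870912 0) ndB2q1 ndB7q2 pcB0 Cut.none Ext.none)

def k0_mm_102 : ∃ t, chk3 f_mm_102 t 1 1 1 = true :=
  ⟨(l 3), by decide +kernel⟩

theorem c_mm_102 : CertB 536870912 536870912 1073741824 536870912 587336777 62277027 3 eng mog cd2q1 cd7q2 pd0 false false false .npp 1 0 2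
    ndB2q1 ndB7q2 pcB0 Cut.none Ext.none :=
  certB0 (fam := false) (s1 := false) (s2 := false) (a := 1) (b := 0) (c := 2) (cn := .npp) (n1 := ndB2q1) (n2 := ndB7q2) (pc := pcB0) (cut := Cut.none) (xt := Ext.none) (P1 := 536870912) (W1 := 536870912) (P2 := 1073741824) (W2 := 536870912) (P3 := 587336777) (W3 := 62277027) (N0 := 3) (En := eng) (mo := mog) (C1 := cd2q1) (C2 := cd7q2) (C3 := pd0)
    rfl k0_mm_102

noncomputable def f_mm_112 : ℕ → ℕ → ℕ → ℕ → Bool := onCell 536870912 536870912 1073741824 536870912 587336777 62277027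
    (rowB 3 eng mog cd2q1 cd7q2 pd1 0 false false false .dn 1 1 2 (qsf 536870912 536870912 1073741824 536870912 1) ndB2q1 ndB7q2 pcB1 Cut.none Ext.none)

def k0_mm_112 : ∃ t, chk3 f_mm_112 t 1 1 1 = true :=
  ⟨(l 3), by decide +kernel⟩

theorem c_mm_112 : CertB 536870912 536870912 1073741824 536870912 587336777 62277027 3 eng mog cd2q1 cd7q2 pd1 false false false .dn 1 1 2
    ndB2q1 ndB7q2 pcB1 Cut.none Ext.none :=
  certB0 (fam := false) (s1 := false) (s2 := false) (a := 1) (b := 1) (c := 2) (cn := .dn) (n1 := ndB2q1) (n2 := ndB7q2) (pc := pcB1) (cut := Cut.none) (xt := Ext.none) (P1 := 536870912) (W1 := 536870912) (P2 := 1073741824) (W2 := 536870912) (P3 := 587336777) (W3 := 62277027) (N0 := 3) (En := eng) (mo := mog) (C1 := cd2q1) (C2 := cd7q2) (C3 := pd1)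
    rfl k0_mm_112

noncomputable def f_mm_113 : ℕ → ℕ → ℕ → ℕ → Bool := onCell 536870912 536870912 0 1230186008 587336777 62277027
    (rowB 3 eng mog cd2q1 cd7q3 pd1 0 false false false .nn 1 1 3 (qsf 536870912 536870912 0 1230186008 1) ndB2q1 ndB7q3 pcB1 Cut.none Ext.none)

def k0_mm_113 : ∃ t, chk3 f_mm_113 t 1 1 1 = true :=
  ⟨(b (l 5) (b (l 5) (a (l 5) (l 3)))), by decide +kernel⟩

theorem c_mm_113 : CertB 536870912 536870912 0 1230186008 587336777 62277027 3 eng mog cd2q1 cd7q3 pd1 false false false .nn 1 1 3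
    ndB2q1 ndB7q3 pcB1 Cut.none Ext.none :=
  certB0 (fam := false) (s1 := false) (s2 := false) (a := 1) (b := 1) (c := 3) (cn := .nn) (n1 := ndB2q1) (n2 := ndB7q3) (pc := pcB1) (cut := Cut.none) (xt := Ext.none) (P1 := 536870912) (W1 := 536870912) (P2 := 0) (W2 := 1230186008) (P3 := 587336777) (W3 := 62277027) (N0 := 3) (En := eng) (mo := mog) (C1 := cd2q1) (C2 := cd7q3) (C3 := pd1)
    rfl k0_mm_113

noncomputable def f_mm_123 : ℕ → ℕ → ℕ → ℕ → Bool := onCell 1073741824 536870912 0 1230186008 587336777 62277027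
    (rowB 3 eng mog cd2q1 cd7q3 pd2 2 false false false .npn 1 2 3 (qsf 536870912 536870912 0 1230186008 2) ndB2q1 ndB7q3 pcB2 Cut.none Ext.none)

def k0_mm_123 : ∃ t, chk3 f_mm_123 t 1 1 1 = true :=
  ⟨(b (l 5) (l 5)), by decide +kernel⟩

theorem c_mm_123 : CertB 536870912 536870912 0 1230186008 587336777 62277027 3 eng mog cd2q1 cd7q3 pd2 false false false .npn 1 2 3
    ndB2q1 ndB7q3 pcB2 Cut.none Ext.none :=
  certB2 (fam := false) (s1 := false) (s2 := false) (a := 1) (b := 2) (c := 3) (cn := .npn) (n1 := ndB2q1) (n2 := ndB7q3) (pc := pcB2) (cut := Cut.none) (xt := Ext.none) (P1 := 536870912) (W1 := 536870912) (P2 := 0) (W2 := 1230186008) (P3 := 587336777) (W3 := 62277027) (N0 := 3) (En := eng) (mo := mog) (C1 := cd2q1) (C2 := cd7q3) (C3 := pd2)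
    rfl (fun _ => rfl) k0_mm_123

noncomputable def f_mm_133 : ℕ → ℕ → ℕ → ℕ → Bool := onCell 536870912 536870912 0 1230186008 587336777 62277027
    (rowB 3 eng mog cd2q1 cd7q3 pd3 0 false false false .dn 1 3 3 (qsf 536870912 536870912 0 1230186008 3) ndB2q1 ndB7q3 pcB3 Cut.none Ext.none)

def k0_mm_133 : ∃ t, chk3 f_mm_133 t 1 1 1 = true :=
  ⟨(b (l 5) (l 1)), by decide +kernel⟩

theorem c_mm_133 : CertB 536870912 536870912 0 1230186008 587336777 62277027 3 eng mog cd2q1 cd7q3 pd3 false false false .dn 1 3 3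
    ndB2q1 ndB7q3 pcB3 Cut.none Ext.none :=
  certB0 (fam := false) (s1 := false) (s2 := false) (a := 1) (b := 3) (c := 3) (cn := .dn) (n1 := ndB2q1) (n2 := ndB7q3) (pc := pcB3) (cut := Cut.none) (xt := Ext.none) (P1 := 536870912) (W1 := 536870912) (P2 := 0) (W2 := 1230186008) (P3 := 587336777) (W3 := 62277027) (N0 := 3) (En := eng) (mo := mog) (C1 := cd2q1) (C2 := cd7q3) (C3 := pd3)
    rfl k0_mm_133

noncomputable def cut_mm_202_a : Cut := Cut.of [[⟨0, 1, 0, 67108864⟩, ⟨1, 0, 0, 67108864⟩, ⟨2, 1, 0, 67108864⟩]]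

noncomputable def f_mm_202_a : ℕ → ℕ → ℕ → ℕ → Bool := onCell 0 536870912 0 536870912 587336777 62277027
    (rowB 3 eng mog cd2q2a cd7q2 pd0 1 false false false .pp 2 0 2 (qsf 0 536870912 1073741824 536870912 0) ndB2q2a ndB7q2 pcB0 cut_mm_202_a Ext.none)

def k0_mm_202_a : ∃ t, chk3 f_mm_202_a t 4 1 1 = true :=
  ⟨(b (b (b (b (a (l 16502376) (l 16507680)) (l 16621248)) (b (l 16562520) (a (l 16585752) (a (l 16583688) (l 16576112))))) (b (b (a (l 16594824) (b (a (l 16595416) (l 16596760)) (l 16606440))) (a (b (l 16613976) (l 16624352)) (a (l 16616624) (l 16613392)))) (b (a (l 16635200) (l 16637224)) (a (l 16648248) (b (a (l 16648200) (l 16651056)) (a (l 16655312) (l 16662144))))))) (b (b (a (a (b (l 16670744) (l 16683568)) (b (b (l 16662880) (l 16670368)) (l 16686424))) (b (a (b (l 16664816) (l 16674752)) (l 16674760)) (a (b (l 16682560) (l 16707144)) (b (a (l 16685904) (l 16696656)) (a (l 16703384) (l 16715248)))))) (b (a (a (l 16703112) (b (l 16696760)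 (l 16736672))) (a (b (a (l 16697760) (l 16709992)) (a (l 16716144) (l 16727904))) (b (a (l 16721728) (l 160692146647)) (a (l 168745218983) (l 214379208983))))) (b (a (a (l 16713224) (a (l 16711040) (l 16721560))) (a (a (l 16733544) (l 299674615783)) (a (l 232632830039) (l 3)))) (l 2)))) (l 2))), by decide +kernel⟩

def k1_mm_202_a : ∃ t, chk3 f_mm_202_a t 5 1 1 = true :=
  ⟨(b (b (b (b (a (l 16516496) (l 16535072)) (a (l 16545584) (l 16563992))) (a (b (l 16570360) (b (a (l 16582656) (l 16587624)) (a (l 16591200) (l 16599072)))) (b (b (a (l 16576552) (b (l 16585632) (l 16590744))) (a (b (l 16584728) (l 16589424)) (b (l 16597304) (l 16603560)))) (b (a (l 16599256) (l 16612256)) (a (l 16608864) (l 16600184)))))) (b (a (b (b (l 16604264) (l 16609296)) (b (l 16602936) (a (l 16630504) (l 16638664)))) (b (a (b (l 16615448) (l 16633216)) (b (b (l 16630304) (l 16635128)) (a (l 16640264) (l 16650664)))) (a (b (l 16661872) (l 16654536)) (b (l 16659800) (l 16719136)))))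 (a (b (b (a (l 16639384) (l 16651176)) (a (l 16649960) (l 16660472))) (a (b (l 16660816) (l 16669152)) (b (l 16708248) (a (l 16676264) (l 16688624))))) (b (a (b (l 16663832) (a (l 16670032) (l 16729864))) (b (a (l 16725944) (b (l 16683448) (l 16690976))) (a (l 16711680) (b (l 16700128) (l 175724475927))))) (a (b (a (l 16682480) (l 16695840)) (a (l 16701592) (b (l 16730936) (l 191293752375)))) (b (a (b (l 16694272) (l 189146259447)) (l 248738895623)) (a (b (l 239075219623) (l 3)) (l 3)))))))) (b (b (a (b (a (b (a (l 16675856) (l 16682720)) (a (l 16689736) (l 16701688))) (b (a (l 16695064) (l 16707768)) (a (l 16735008) (b (l 16742480) (l 225653461367))))) (a (b (a (l 16708528) (l 207399798919)) (a (l 156397164775) (l 211694873959))) (b (a (b (l 187535665303) (l 228337827303)) (l 3)) (l 3)))) (b (a (b (a (b (l 16736536) (l 225116578967)) (l 236927754855)) (l 3)) (l 3)) (l 3))) (a (b (a (b (a (l 207399876247) (l 3)) (l 3)) (l 3)) (l 3)) (l 3))) (l 3))),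 by decide +kernel⟩

def k2_mm_202_a : ∃ t, chk3 f_mm_202_a t 6 4 1 = true :=
  ⟨(b (b (a (b (l 16556952) (l 16572968)) (b (a (l 16588184) (l 16614392)) (a (l 16604832) (l 16631632)))) (a (a (l 16585336) (b (l 16597296) (b (l 16773904) (a (l 16608624) (l 16620040))))) (b (a (b (l 16616472) (a (l 16617552) (l 16755160))) (b (a (l 16635856) (b (l 16649112) (l 16653160))) (a (l 16644128) (l 16659160)))) (a (b (a (l 16624608) (l 16637832)) (l 16638680)) (b (b (l 16720096) (l 16661064)) (a (b (l 16657592) (l 16661448)) (a (l 16671000) (l 16678848)))))))) (a (b (b (a (b (l 16600776) (l 16608112)) (b (l 16621744) (l 16628512))) (a (l 16617576) (a (l 16715136) (l 16749264)))) (b (a (a (l 16622416) (l 16739160)) (a (l 16752448) (b (l 16653856) (l 16660248)))) (a (b (l 16745416) (l 16642752)) (a (l 16678448) (l 16691536))))) (b (a (a (b (b (l 16639448) (l 16708656)) (b (l 16653752) (l 16660088))) (b (a (l 16736488) (l 16765024)) (b (l 16666920) (l 16674128))))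 (b (a (b (l 16751384) (l 16674376)) (b (a (l 16678456) (l 16686496)) (l 16711088))) (a (b (l 16702816) (l 16688560)) (b (l 16697208) (l 16735552))))) (a (b (a (b (l 16666920) (l 16673240)) (l 16683864)) (b (a (l 16680168) (l 16736144)) (a (l 16707512) (a (l 16698592) (l 16706136))))) (b (b (a (l 16694936) (a (l 16707200) (l 16715848))) (a (c (l 16739736) (l 16743880)) (a (l 16715088) (l 100025688551)))) (a (b (b (l 16708552) (l 16712368)) (l 118279286599)) (b (a (l 101636298903) (l 184314404487)) (l 221895375767)))))))), by decide +kernel⟩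

def k3_mm_202_a : ∃ t, chk3 f_mm_202_a t 14 8 1 = true :=
  ⟨(b (b (a (b (l 16640544) (l 16649872)) (b (a (l 16666200) (l 6)) (a (l 16675880) (l 16694624)))) (a (b (l 16658856) (a (l 16658960) (b (l 16674072) (l 16678168)))) (a (b (b (l 16682896) (a (l 16683128) (l 16692024))) (b (a (l 16687184) (l 16696296)) (l 16696088))) (b (b (a (l 16697280) (l 6)) (a (l 16701328) (l 16710984))) (b (l 16763000) (a (l 16709928) (b (l 16718416) (l 16720544)))))))) (a (b (b (a (b (l 16665184) (l 16669272)) (b (l 16682352) (l 16686496))) (a (l 16675232) (a (l 16688208) (b (l 16695008) (l 16699096))))) (b (a (b (a (l 16677184) (l 16685608)) (l 16685368)) (b (l 16719672) (a (l 16698288) (l 16707184)))) (a (b (l 16689264) (l 16693224)) (a (l 16704264) (l 16692168))))) (b (a (b (a (l 16697712) (b (l 16704720) (l 16708864))) (a (b (l 16703880) (l 16707984)) (b (l 16713008) (l 16717120)))) (b (a (b (l 16714080) (l 16718240)) (b (a (l 16721264) (l 16726104)) (l 16727888)))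 (a (b (l 16722392) (l 16726536)) (a (l 16752744) (b (l 16734528) (l 16738656)))))) (a (a (b (b (l 16712056) (l 16716104)) (l 16737800)) (b (l 16744248) (b (l 16729320) (l 16733328)))) (b (a (b (l 16751656) (a (l 16721848) (l 16726624))) (b (b (l 16739280) (a (l 16738888) (l 16743768))) (l 112910614215))) (a (b (l 16738768) (l 115058094359)) (b (a (l 16751216) (l 88214565015)) (l 204178669127)))))))), by decide +kernel⟩

def k4_mm_202_a : ∃ t, chk3 f_mm_202_a t 15 8 1 = true :=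
  ⟨(b (a (b (l 6) (a (b (l 6) (b (a (b (l 16724008) (l 16726200)) (l 6)) (a (a (l 16726880) (l 16731824)) (l 16739504)))) (l 6))) (l 6)) (a (b (a (b (a (b (l 16717864) (l 16756248)) (a (b (l 16762280) (a (l 16744120) (l 16746640))) (b (c (l 16762216) (l 16756752)) (l 16760960)))) (b (a (a (l 16739488) (l 16744456)) (a (l 16760008) (l 117205596295))) (a (b (l 16745072) (l 16757600)) (a (b (l 16757824) (l 86603955527)) (l 3))))) (b (a (b (a (a (l 16750112) (l 16752688)) (l 6)) (a (l 110763147607) (l 202031201671))) (b (l 6) (l 3))) (a (b (a (l 202031199639) (l 3)) (l 3)) (l 3)))) (a (b (a (b (a (l 16752920) (b (l 16756864) (l 97878242583))) (a (l 89825179495) (l 3))) (l 3)) (l 3)) (l 3))) (l 3))), by decide +kernel⟩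

def k5_mm_202_a : ∃ t, chk3 f_mm_202_a t 7 9 1 = true :=
  ⟨(a (b (a (b (a (b (a (l 16694808) (l 16703232)) (l 16727304)) (a (b (l 16712008) (l 16735368)) (b (l 16737960) (a (l 16726536) (l 16731048))))) (a (a (b (l 16730376) (l 16717112)) (b (l 16744576) (l 16736576))) (b (a (l 16748400) (l 111299992903)) (a (l 109152505127) (l 3))))) (b (a (b (a (b (l 16728056) (l 16732000)) (b (l 16747800) (l 89825165607))) (a (b (l 16746448) (l 93046388039)) (b (l 200420558583) (l 3)))) (b (a (b (l 200420561511) (l 3)) (l 3)) (l 3))) (a (b (a (l 204178656375) (l 3)) (l 3)) (l 3)))) (a (b (a (b (a (l 16740592) (l 112910597143)) (a (l 178945697399) (l 3))) (l 3)) (l 3)) (l 3))) (l 3)), by decide +kernel⟩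

def k6_mm_202_a : ∃ t, chk3 f_mm_202_a t 3 5 1 = true :=
  ⟨(a (b (a (b (a (b (a (l 16646408) (l 16595584)) (l 16667280)) (a (b (l 16670928) (b (l 16682088) (a (l 16685944) (l 16692520)))) (b (b (l 16680744) (l 16709184)) (b (l 16695640) (l 16701608))))) (a (a (b (l 16713984) (b (l 16683592) (l 16689032))) (b (b (l 16662160) (l 16689568)) (b (l 16694480) (l 16702200)))) (b (a (b (l 16695448) (l 16700728)) (b (l 147807173607) (l 231559012295))) (a (b (l 146733437143) (l 233169628407)) (l 3))))) (b (a (b (a (b (a (l 16691344) (l 16698744)) (l 16702272)) (b (l 16730608) (l 127942963303))) (a (b (l 16729728) (l 165523926215)) (b (l 226190320903) (l 3)))) (b (a (b (a (l 109152487911) (l 3)) (l 3)) (l 3)) (l 3))) (a (b (a (b (l 240148962551) (l 3)) (l 3)) (l 3)) (l 3)))) (a (b (a (b (a (b (l 16696264) (l 16731536)) (b (l 168745151527) (l 231022149831))) (a (b (l 218137278567) (l 250886380151)) (l 3))) (l 3)) (l 3)) (l 3))) (l 3)), by decide +kernel⟩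

def k7_mm_202_a : ∃ t, chk3 f_mm_202_a t 3 3 1 = true :=
  ⟨(l 3), by decide +kernel⟩

theorem s8_mm_202_a : ∃ t, chk3 f_mm_202_a t 7 8 1 = true := ex3_a k3_mm_202_a k4_mm_202_a

theorem s9_mm_202_a : ∃ t, chk3 f_mm_202_a t 7 4 1 = true := ex3_b s8_mm_202_a k5_mm_202_a

theorem s10_mm_202_a : ∃ t, chk3 f_mm_202_a t 3 4 1 = true := ex3_a k2_mm_202_a s9_mm_202_a

theorem s11_mm_202_a : ∃ t, chk3 f_mm_202_a t 3 2 1 = true := ex3_b s10_mm_202_a k6_mm_202_a

theorem s12_mm_202_a : ∃ t, chk3 f_mm_202_a t 3 1 1 = true := ex3_b s11_mm_202_a k7_mm_202_a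

theorem s13_mm_202_a : ∃ t, chk3 f_mm_202_a t 2 1 1 = true := ex3_a k0_mm_202_a k1_mm_202_a

theorem s14_mm_202_a : ∃ t, chk3 f_mm_202_a t 1 1 1 = true := ex3_a s13_mm_202_a s12_mm_202_a

theorem c_mm_202_a : CertB 0 536870912 1073741824 536870912 587336777 62277027 3 eng mog cd2q2a cd7q2 pd0 false false false .pp 2 0 2
    ndB2q2a ndB7q2 pcB0 cut_mm_202_a Ext.none :=
  certB1 (fam := false) (s1 := false) (s2 := false) (a := 2) (b := 0) (c := 2) (cn := .pp) (n1 := ndB2q2a) (n2 := ndB7q2) (pc := pcB0) (cut := cut_mm_202_a) (xt := Ext.none) (P1 := 0) (W1 := 536870912) (P2 := 1073741824) (W2 := 536870912) (P3 := 587336777) (W3 := 62277027) (N0 := 3) (En := eng) (mo := mog) (C1 := cd2q2a) (C2 := cd7q2) (C3 := pd0)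
    rfl (fun _ => rfl) s14_mm_202_a

noncomputable def cut_mm_202_b : Cut := Cut.of [[⟨0, 1, 0, 67108864⟩, ⟨1, 0, 0, 67108864⟩, ⟨2, 1, 0, 67108864⟩]]

noncomputable def f_mm_202_b : ℕ → ℕ → ℕ → ℕ → Bool := onCell 0 536870912 1073741824 536870912 587336777 62277027
    (rowB 3 eng mog cd2q2b cd7q2 pd0 2 false false false .pp 2 0 2 (qsf 1239849684 370763052 1073741824 536870912 0) ndB2q2b ndB7q2 pcB0 cut_mm_202_b Ext.none)

def k0_mm_202_b : ∃ t, chk3 f_mm_202_b t 1 1 1 = true :=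
  ⟨(a (b (a (b (l 1) (a (b (a (l 16512960) (l 16568096)) (a (l 16455712) (l 16517744))) (b (l 1) (l 149820529783)))) (l 1)) (b (a (a (b (a (l 16372952) (l 16433520)) (l 16264464)) (b (l 16532376) (l 16404536))) (a (b (b (l 16673592) (l 16638144)) (a (b (l 16550296) (l 16470608)) (l 16588544))) (b (l 1) (a (l 16664712) (l 16685112))))) (a (b (a (l 16122040) (a (l 16219984) (l 16457784))) (a (a (l 16055832) (l 16118656)) (b (l 16250808) (a (l 16181888) (l 16249624))))) (b (a (a (b (l 16378208) (l 16348640)) (l 16424944)) (b (l 16608408) (l 16555000))) (a (b (l 16363296) (b (l 16354336) (l 16346464))) (b (l 16512384) (l 16519600))))))) (a (b (l 1) (b (l 1) (b (a (b (l 329135020599) (l 214781613783)) (l 1)) (b (a (l 16634672) (l 384432886535)) (a (l 16588496) (l 222834837143)))))) (l 1))), by decide +kernel⟩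

theorem c_mm_202_b : CertB 1239849684 370763052 1073741824 536870912 587336777 62277027 3 eng mog cd2q2b cd7q2 pd0 false false false .pp 2 0 2
    ndB2q2b ndB7q2 pcB0 cut_mm_202_b Ext.none :=
  certB2 (fam := false) (s1 := false) (s2 := false) (a := 2) (b := 0) (c := 2) (cn := .pp) (n1 := ndB2q2b) (n2 := ndB7q2) (pc := pcB0) (cut := cut_mm_202_b) (xt := Ext.none) (P1 := 1239849684) (W1 := 370763052) (P2 := 1073741824) (W2 := 536870912) (P3 := 587336777) (W3 := 62277027) (N0 := 3) (En := eng) (mo := mog) (C1 := cd2q2b) (C2 := cd7q2) (C3 := pd0)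
    rfl (fun _ => rfl) k0_mm_202_b

noncomputable def f_mm_203_a : ℕ → ℕ → ℕ → ℕ → Bool := onCell 0 536870912 0 1230186008 587336777 62277027
    (rowB 3 eng mog cd2q2a cd7q3 pd0 0 false false false .up 2 0 3 (qsf 0 536870912 0 1230186008 0) ndB2q2a ndB7q3 pcB0 Cut.none Ext.none)

def k0_mm_203_a : ∃ t, chk3 f_mm_203_a t 1 1 1 = true :=
  ⟨(b (l 2) (b (l 2) (b (l 3) (a (a (b (a (b (l 3) (a (b (a (b (l 3) (l 273435039127)) (l 3)) (a (b (l 226190384903) (l 16748440)) (b (l 290614916407) (l 253033919703)))) (l 3))) (l 3)) (a (b (a (b (a (l 16743616) (b (l 202031220743) (l 16747528))) (a (l 16734816) (l 16735152))) (b (b (l 265918837959) (l 253033925255)) (a (b (l 226727228775) (l 16744832)) (b (l 265381974183) (l 239075286135))))) (b (a (a (l 16724328) (l 16723360)) (b (l 146733513575) (l 16734088))) (a (l 16714712) (a (l 16713152) (l 16726432))))) (b (l 3) (a (b (a (b (l 255718290567) (l 209010506423)) (l 3)) (a (l 144586030295) (b (l 241759637623) (l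 195588760471)))) (l 3))))) (l 3)) (l 3))))), by decide +kernel⟩

theorem c_mm_203_a : CertB 0 536870912 0 1230186008 587336777 62277027 3 eng mog cd2q2a cd7q3 pd0 false false false .up 2 0 3
    ndB2q2a ndB7q3 pcB0 Cut.none Ext.none :=
  certB0 (fam := false) (s1 := false) (s2 := false) (a := 2) (b := 0) (c := 3) (cn := .up) (n1 := ndB2q2a) (n2 := ndB7q3) (pc := pcB0) (cut := Cut.none) (xt := Ext.none) (P1 := 0) (W1 := 536870912) (P2 := 0) (W2 := 1230186008) (P3 := 587336777) (W3 := 62277027) (N0 := 3) (En := eng) (mo := mog) (C1 := cd2q2a) (C2 := cd7q3) (C3 := pd0)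
    rfl k0_mm_203_a

noncomputable def f_mm_203_b : ℕ → ℕ → ℕ → ℕ → Bool := onCell 1239849684 370763052 0 1230186008 587336777 62277027
    (rowB 3 eng mog cd2q2b cd7q3 pd0 0 false false false .up 2 0 3 (qsf 1239849684 370763052 0 1230186008 0) ndB2q2b ndB7q3 pcB0 Cut.none Ext.none)

def k0_mm_203_b : ∃ t, chk3 f_mm_203_b t 1 1 1 = true :=
  ⟨(b (l 3) (b (l 3) (b (l 3) (b (a (b (l 3) (a (a (b (b (l 3) (a (a (l 255181443655) (l 16740024)) (l 3))) (a (b (l 16760120) (l 16731680)) (l 16710472))) (b (l 3) (l 166060681623))) (l 3))) (l 3)) (a (a (b (a (b (a (l 16720328) (l 16696080)) (l 16746080)) (b (a (l 16667432) (l 16636440)) (l 16634728))) (a (l 16686888) (b (l 16615288) (l 16593808)))) (b (a (b (l 16586552) (l 16565856)) (b (l 16516096) (l 16490712))) (b (a (l 16543336) (l 16463920)) (l 16478696)))) (a (b (a (l 82308610855) (l 16343248)) (a (b (l 16380072) (l 16349408)) (b (l 16292808) (l 16260176)))) (b (a (l 16259104) (l 16175912)) (a (b (l 16205200)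 (l 16210256)) (b (l 16156864) (l 16077080)))))))))), by decide +kernel⟩

theorem c_mm_203_b : CertB 1239849684 370763052 0 1230186008 587336777 62277027 3 eng mog cd2q2b cd7q3 pd0 false false false .up 2 0 3
    ndB2q2b ndB7q3 pcB0 Cut.none Ext.none :=
  certB0 (fam := false) (s1 := false) (s2 := false) (a := 2) (b := 0) (c := 3) (cn := .up) (n1 := ndB2q2b) (n2 := ndB7q3) (pc := pcB0) (cut := Cut.none) (xt := Ext.none) (P1 := 1239849684) (W1 := 370763052) (P2 := 0) (W2 := 1230186008) (P3 := 587336777) (W3 := 62277027) (N0 := 3) (En := eng) (mo := mog) (C1 := cd2q2b) (C2 := cd7q3) (C3 := pd0)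
    rfl k0_mm_203_b

noncomputable def f_mm_213_a : ℕ → ℕ → ℕ → ℕ → Bool := onCell 0 536870912 0 1230186008 587336777 62277027
    (rowB 3 eng mog cd2q2a cd7q3 pd1 0 false false false .pnn 2 1 3 (qsf 0 536870912 0 1230186008 1) ndB2q2a ndB7q3 pcB1 Cut.none Ext.none)

def k0_mm_213_a : ∃ t, chk3 f_mm_213_a t 1 1 1 = true :=
  ⟨(b (a (l 3) (b (l 5) (l 3))) (a (b (l 3) (a (b (l 3) (l 1)) (l 3))) (l 3))), by decide +kernel⟩

theorem c_mm_213_a : CertB 0 536870912 0 1230186008 587336777 62277027 3 eng mog cd2q2a cd7q3 pd1 false false false .pnn 2 1 3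
    ndB2q2a ndB7q3 pcB1 Cut.none Ext.none :=
  certB0 (fam := false) (s1 := false) (s2 := false) (a := 2) (b := 1) (c := 3) (cn := .pnn) (n1 := ndB2q2a) (n2 := ndB7q3) (pc := pcB1) (cut := Cut.none) (xt := Ext.none) (P1 := 0) (W1 := 536870912) (P2 := 0) (W2 := 1230186008) (P3 := 587336777) (W3 := 62277027) (N0 := 3) (En := eng) (mo := mog) (C1 := cd2q2a) (C2 := cd7q3) (C3 := pd1)
    rfl k0_mm_213_a

noncomputable def f_mm_213_b : ℕ → ℕ → ℕ → ℕ → Bool := onCell 1239849684 370763052 0 1230186008 587336777 62277027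
    (rowB 3 eng mog cd2q2b cd7q3 pd1 0 false false false .pnn 2 1 3 (qsf 1239849684 370763052 0 1230186008 1) ndB2q2b ndB7q3 pcB1 Cut.none Ext.none)

def k0_mm_213_b : ∃ t, chk3 f_mm_213_b t 1 1 1 = true :=
  ⟨(b (l 3) (b (l 3) (b (l 3) (l 1)))), by decide +kernel⟩

theorem c_mm_213_b : CertB 1239849684 370763052 0 1230186008 587336777 62277027 3 eng mog cd2q2b cd7q3 pd1 false false false .pnn 2 1 3
    ndB2q2b ndB7q3 pcB1 Cut.none Ext.none :=
  certB0 (fam := false) (s1 := false) (s2 := false) (a := 2) (b := 1) (c := 3) (cn := .pnn) (n1 := ndB2q2b) (n2 := ndB7q3) (pc := pcB1) (cut := Cut.none) (xt := Ext.none) (P1 := 1239849684) (W1 := 370763052) (P2 := 0) (W2 := 1230186008) (P3 := 587336777) (W3 := 62277027) (N0 := 3) (En := eng) (mo := mog) (C1 := cd2q2b) (C2 := cd7q3) (C3 := pd1)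
    rfl k0_mm_213_b

noncomputable def f_mm_303 : ℕ → ℕ → ℕ → ℕ → Bool := onCell 0 536870912 0 1230186008 587336777 62277027
    (rowB 3 eng mog cd2q3 cd7q3 pd0 2 false false false .npn 3 0 3 (qsf 1610612736 536870912 0 1230186008 0) ndB2q3 ndB7q3 pcB0 Cut.none Ext.none)

def k0_mm_303 : ∃ t, chk3 f_mm_303 t 1 1 1 = true :=
  ⟨(b (l 3) (b (l 3) (a (b (l 3) (b (l 3) (a (a (b (l 27010332247) (a (l 16088304) (l 16148392))) (b (l 16250664) (l 1))) (l 1)))) (l 1)))), by decide +kernel⟩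

theorem c_mm_303 : CertB 1610612736 536870912 0 1230186008 587336777 62277027 3 eng mog cd2q3 cd7q3 pd0 false false false .npn 3 0 3
    ndB2q3 ndB7q3 pcB0 Cut.none Ext.none :=
  certB2 (fam := false) (s1 := false) (s2 := false) (a := 3) (b := 0) (c := 3) (cn := .npn) (n1 := ndB2q3) (n2 := ndB7q3) (pc := pcB0) (cut := Cut.none) (xt := Ext.none) (P1 := 1610612736) (W1 := 536870912) (P2 := 0) (W2 := 1230186008) (P3 := 587336777) (W3 := 62277027) (N0 := 3) (En := eng) (mo := mog) (C1 := cd2q3) (C2 := cd7q3) (C3 := pd0)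
    rfl (fun _ => rfl) k0_mm_303

noncomputable def f_mm_313 : ℕ → ℕ → ℕ → ℕ → Bool := onCell 1610612736 536870912 0 1230186008 587336777 62277027
    (rowB 3 eng mog cd2q3 cd7q3 pd1 0 false false false .dn 3 1 3 (qsf 1610612736 536870912 0 1230186008 1) ndB2q3 ndB7q3 pcB1 Cut.none Ext.none)

def k0_mm_313 : ∃ t, chk3 f_mm_313 t 1 1 1 = true :=
  ⟨(b (l 3) (l 1)), by decide +kernel⟩

theorem c_mm_313 : CertB 1610612736 536870912 0 1230186008 587336777 62277027 3 eng mog cd2q3 cd7q3 pd1 false false false .dn 3 1 3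
    ndB2q3 ndB7q3 pcB1 Cut.none Ext.none :=
  certB0 (fam := false) (s1 := false) (s2 := false) (a := 3) (b := 1) (c := 3) (cn := .dn) (n1 := ndB2q3) (n2 := ndB7q3) (pc := pcB1) (cut := Cut.none) (xt := Ext.none) (P1 := 1610612736) (W1 := 536870912) (P2 := 0) (W2 := 1230186008) (P3 := 587336777) (W3 := 62277027) (N0 := 3) (En := eng) (mo := mog) (C1 := cd2q3) (C2 := cd7q3) (C3 := pd1)
    rfl k0_mm_313

end Pool.Agent.Strip051.G.I5470_6050.Tab.C.BB27

namespace Pool.Agent.Strip051.G.I5470_6050.Tab.C.BB30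

open Pool.Agent.Strip051.PB Pool.Agent.Strip051.PB.T
open Pool.Agent.Strip051.G.I5470_6050.Tab

noncomputable def f_pp_001 : ℕ → ℕ → ℕ → ℕ → Bool := onCell 0 536870912 0 536870912 587336777 62277027
    (rowB 3 eng mog cd3q0 cd0q1 pd0 1 false true true .up 0 0 1 (qsf 0 536870912 536870912 536870912 0) ndB3q0 ndB0q1 pcB0 Cut.none Ext.none)

def k0_pp_001 : ∃ t, chk3 f_pp_001 t 1 1 1 = true :=
  ⟨(l 3), by decide +kernel⟩

theorem c_pp_001 : CertB 0 536870912 536870912 536870912 587336777 62277027 3 eng mog cd3q0 cd0q1 pd0 false true true .up 0 0 1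
    ndB3q0 ndB0q1 pcB0 Cut.none Ext.none :=
  certB1 (fam := false) (s1 := true) (s2 := true) (a := 0) (b := 0) (c := 1) (cn := .up) (n1 := ndB3q0) (n2 := ndB0q1) (pc := pcB0) (cut := Cut.none) (xt := Ext.none) (P1 := 0) (W1 := 536870912) (P2 := 536870912) (W2 := 536870912) (P3 := 587336777) (W3 := 62277027) (N0 := 3) (En := eng) (mo := mog) (C1 := cd3q0) (C2 := cd0q1) (C3 := pd0)
    rfl (fun _ => rfl) k0_pp_001

noncomputable def cut_pp_011 : Cut := Cut.of [[⟨0, 0, 0, 67108864⟩, ⟨1, 1, 0, 67108864⟩, ⟨2, 1, 0, 67108864⟩]]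

noncomputable def f_pp_011 : ℕ → ℕ → ℕ → ℕ → Bool := onCell 0 536870912 536870912 536870912 587336777 62277027
    (rowB 3 eng mog cd3q0 cd0q1 pd1 0 false true true .pnn 0 1 1 (qsf 0 536870912 536870912 536870912 1) ndB3q0 ndB0q1 pcB1 cut_pp_011 Ext.none)

def k0_pp_011 : ∃ t, chk3 f_pp_011 t 1 1 1 = true :=
  ⟨(a (b (l 3) (b (l 3) (a (b (l 3) (a (b (l 3) (a (b (l 3) (l 6)) (l 3))) (l 3))) (l 3)))) (l 3)), by decide +kernel⟩

theorem c_pp_011 : CertB 0 536870912 536870912 536870912 587336777 62277027 3 eng mog cd3q0 cd0q1 pd1 false true true .pnn 0 1 1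
    ndB3q0 ndB0q1 pcB1 cut_pp_011 Ext.none :=
  certB0 (fam := false) (s1 := true) (s2 := true) (a := 0) (b := 1) (c := 1) (cn := .pnn) (n1 := ndB3q0) (n2 := ndB0q1) (pc := pcB1) (cut := cut_pp_011) (xt := Ext.none) (P1 := 0) (W1 := 536870912) (P2 := 536870912) (W2 := 536870912) (P3 := 587336777) (W3 := 62277027) (N0 := 3) (En := eng) (mo := mog) (C1 := cd3q0) (C2 := cd0q1) (C3 := pd1)
    rfl k0_pp_011

noncomputable def cut_pp_012 : Cut := Cut.of [[⟨0, 0, 0, 33554432⟩, ⟨1, 1, 0, 33554432⟩, ⟨2, 1, 0, 33554432⟩]]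

noncomputable def f_pp_012 : ℕ → ℕ → ℕ → ℕ → Bool := onCell 536870912 536870912 0 536870912 587336777 62277027
    (rowB 3 eng mog cd3q0 cd0q2 pd1 2 false true true .pnp 0 1 2 (qsf 0 536870912 0 536870912 1) ndB3q0 ndB0q2 pcB1 cut_pp_012 Ext.none)

def k0_pp_012 : ∃ t, chk3 f_pp_012 t 2 1 1 = true :=
  ⟨(b (a (b (l 2) (a (l 2) (b (l 2) (a (l 2) (b (l 2) (b (l 119822724951) (l 128412685559))))))) (b (a (b (l 16698248) (l 16721688)) (b (l 16672392) (l 16701216))) (b (a (b (l 16730336) (l 16728576)) (b (l 16720640) (l 16792968))) (a (b (a (l 16692144) (l 16718104)) (a (b (l 16664272) (l 16684208)) (b (l 16681568) (l 16677224)))) (b (l 16734560) (a (l 16705288) (l 16730112))))))) (b (a (a (l 2) (b (a (l 2) (b (b (a (l 2) (l 16693328)) (a (l 3) (l 188072450999))) (l 3))) (l 3))) (a (b (a (a (b (a (l 101636234231) (l 16697896)) (l 3)) (b (l 16696624) (l 151028396007))) (a (b (l 16695608) (a (l 110763079831) (l 100562527751))) (b (l 16672864) (l 86603892023))))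 (l 3)) (b (a (a (b (l 16715192) (l 16729784)) (b (l 16695256) (l 16727040))) (b (l 16697904) (a (l 16722760) (l 16718936)))) (a (b (a (l 149417861271) (l 104320683863)) (l 3)) (a (b (l 87677692343) (l 3)) (b (l 16762504) (l 228337961047))))))) (l 3))), by decide +kernel⟩

def k1_pp_012 : ∃ t, chk3 f_pp_012 t 3 2 1 = true :=
  ⟨(a (b (b (a (l 16637480) (l 16593976)) (a (b (l 16661880) (l 16677872)) (a (a (l 16644552) (l 16633592)) (l 16616720)))) (a (a (b (l 16709920) (l 16735848)) (b (l 16693224) (b (l 16718824) (l 16734544)))) (b (a (l 16673192) (l 16650624)) (a (b (l 16701600) (l 16720800)) (b (l 16679632) (l 16700496)))))) (b (a (b (l 16547832) (a (l 16592960) (l 16568608))) (b (l 16502792) (a (l 16544824) (l 16523032)))) (a (b (a (l 16626336) (l 16601632)) (a (b (l 16654944) (l 16676352)) (l 16660864))) (b (a (l 16598984) (b (l 16548784) (l 16565552))) (a (b (l 16604816) (l 16624856)) (b (l 16583232) (l 16602240))))))), by decide +kernel⟩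

def k2_pp_012 : ∃ t, chk3 f_pp_012 t 6 3 1 = true :=
  ⟨(b (a (b (b (a (l 16725064) (l 16741928)) (a (a (l 16717376) (l 16717200)) (l 16719816))) (b (a (a (l 16755120) (l 16747944)) (a (l 16741552) (l 16737088))) (a (b (a (l 135996214359) (l 16781448)) (a (l 3) (l 171429716471))) (a (b (l 16771672) (l 16793872)) (l 16772864))))) (b (a (b (l 16737712) (l 16744696)) (b (l 16721336) (l 16739960))) (a (b (l 16773480) (a (l 16762504) (l 16753072))) (b (l 16747936) (a (l 16745880) (l 16742016)))))) (b (a (b (a (l 3) (b (a (l 227801111543) (l 150491781991)) (l 3))) (l 3)) (b (a (b (a (l 16792872) (l 16780696)) (a (l 205789403431) (l 148881141079))) (a (b (l 16769632) (l 16788968)) (l 16831664))) (a (l 3) (b (a (l 192367622823) (b (l 16791904) (l 127943173367))) (a (l 3) (l 187535800567)))))) (l 3))), by decide +kernel⟩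

def k3_pp_012 : ∃ t, chk3 f_pp_012 t 7 6 1 = true :=
  ⟨(a (b (a (b (l 16698304) (l 16720320)) (b (l 16672240) (l 16694664))) (a (b (l 16741016) (l 16752960)) (b (l 16717504) (l 16740184)))) (b (a (b (l 16646048) (l 16667944)) (b (l 16622304) (l 16642960))) (a (b (l 16690184) (l 16754864)) (b (l 16679240) (a (l 16691464) (l 16677712)))))), by decide +kernel⟩

def k4_pp_012 : ∃ t, chk3 f_pp_012 t 7 7 1 = true :=
  ⟨(a (b (a (b (b (l 16793168) (l 16826552)) (b (a (l 16785416) (l 16775496)) (a (b (l 129553782503) (l 178945851271)) (a (l 16817064) (l 16790768))))) (b (a (l 16756352) (l 16755792)) (a (b (l 16767152) (l 16803512)) (l 16827512)))) (b (a (a (l 3) (b (a (l 176798380343) (l 173577162983)) (l 3))) (a (b (a (l 171966536119) (l 136533078295)) (l 3)) (a (b (l 16788584) (l 174650875095)) (b (l 16782128) (b (l 109152637159) (l 174650869143)))))) (l 3))) (b (a (b (a (l 16743112) (l 16728464)) (b (a (l 16759456) (l 16745712)) (a (l 16762256) (l 16757264))))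 (b (a (l 16713624) (l 16720200)) (a (b (l 16730744) (l 16763656)) (b (l 16716064) (a (l 16731360) (l 16724088)))))) (a (b (a (b (l 16772984) (b (l 16804976) (a (l 152639178215) (l 16809552)))) (b (l 16766400) (a (l 16778440) (l 16772352)))) (b (a (b (a (l 3) (l 168208407127)) (l 3)) (b (a (b (l 16787896) (l 139217389863)) (l 16804288)) (a (l 3) (b (a (l 137069894823) (l 16787384)) (l 133311790631))))) (l 3))) (b (a (b (l 16754688) (a (l 16769144) (l 16763392))) (a (b (l 16743536) (b (l 16752832) (l 16759160))) (b (b (l 16733184) (l 16739232)) (a (l 16750464) (l 16746784))))) (a (b (b (a (l 16776888) (l 16771192)) (a (b (l 16782400) (a (l 137069894167) (l 16794952))) (b (l 16775848) (l 16779448)))) (b (a (b (a (l 3) (l 138143618983)) (l 3)) (b (a (b (l 16783856) (l 133311788583)) (l 6)) (l 6))) (l 3))) (b (a (b (l 16765584) (l 6)) (l 6)) (l 6))))))), by decide +kernel⟩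

theorem s5_pp_012 : ∃ t, chk3 f_pp_012 t 7 3 1 = true := ex3_b k3_pp_012 k4_pp_012

theorem s6_pp_012 : ∃ t, chk3 f_pp_012 t 3 3 1 = true := ex3_a k2_pp_012 s5_pp_012

theorem s7_pp_012 : ∃ t, chk3 f_pp_012 t 3 1 1 = true := ex3_b k1_pp_012 s6_pp_012

theorem s8_pp_012 : ∃ t, chk3 f_pp_012 t 1 1 1 = true := ex3_a k0_pp_012 s7_pp_012

theorem c_pp_012 : CertB 0 536870912 0 536870912 587336777 62277027 3 eng mog cd3q0 cd0q2 pd1 false true true .pnp 0 1 2
    ndB3q0 ndB0q2 pcB1 cut_pp_012 Ext.none :=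
  certB2 (fam := false) (s1 := true) (s2 := true) (a := 0) (b := 1) (c := 2) (cn := .pnp) (n1 := ndB3q0) (n2 := ndB0q2) (pc := pcB1) (cut := cut_pp_012) (xt := Ext.none) (P1 := 0) (W1 := 536870912) (P2 := 0) (W2 := 536870912) (P3 := 587336777) (W3 := 62277027) (N0 := 3) (En := eng) (mo := mog) (C1 := cd3q0) (C2 := cd0q2) (C3 := pd1)
    rfl (fun _ => rfl) s8_pp_012

noncomputable def cut_pp_022 : Cut := Cut.of [[⟨0, 0, 0, 67108864⟩, ⟨1, 1, 0, 67108864⟩, ⟨2, 1, 0, 67108864⟩]]

noncomputable def f_pp_022 : ℕ → ℕ → ℕ → ℕ → Bool := onCell 0 536870912 0 536870912 587336777 62277027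
    (rowB 3 eng mog cd3q0 cd0q2 pd2 0 false true true .pp 0 2 2 (qsf 0 536870912 0 536870912 2) ndB3q0 ndB0q2 pcB2 cut_pp_022 Ext.none)

def k0_pp_022 : ∃ t, chk3 f_pp_022 t 4 2 1 = true :=
  ⟨(b (a (a (b (a (l 16457592) (l 16462904)) (b (a (l 16463920) (l 16470704)) (a (c (l 16473120) (l 16468096)) (l 16478960)))) (b (l 16469544) (l 16526416))) (b (l 16476848) (a (l 16493544) (l 16498856)))) (b (a (a (b (a (c (l 16483176) (l 16476776)) (l 16489376)) (a (c (l 16495304) (l 16487744)) (c (l 16504016) (l 16498760)))) (b (l 16501208) (l 16515360))) (a (l 16542056) (l 16591976))) (a (a (b (a (c (l 16509512) (l 16501328)) (l 16516928)) (a (a (b (l 16514896) (l 16523440)) (l 16525432)) (b (l 16529696) (l 16539088)))) (b (l 16531912) (l 16572000))) (a (b (l 16547408) (l 16567976)) (b (l 16557032) (l 16578504)))))), by decide +kernel⟩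

def k1_pp_022 : ∃ t, chk3 f_pp_022 t 4 3 1 = true :=
  ⟨(b (a (b (a (a (a (b (b (l 16532624) (l 16542512)) (c (l 16563040) (b (l 16548040) (l 16559656)))) (b (l 16544536) (l 16566536))) (b (c (l 16557144) (l 16550936)) (c (l 16579976) (l 16574256)))) (a (b (l 16567008) (l 16591240)) (l 16664672))) (b (a (a (a (b (l 16576784) (l 16589840)) (b (l 16584984) (l 16598400))) (a (l 16620760) (l 16607568))) (a (l 16618656) (l 16628856))) (b (a (a (a (l 16603768) (l 16612680)) (l 16625448)) (l 16644952)) (a (a (a (l 16618528) (l 16627808)) (l 16641072)) (l 16658880))))) (b (a (b (l 16590368) (l 16614088)) (b (a (l 16599000) (l 16603616)) (l 93448817575))) (a (b (a (l 16635880) (l 16641800)) (a (l 16662208) (l 276521916551))) (b (l 236256552791) (l 1))))) (b (a (a (b (a (b (a (l 16634136) (l 16643760)) (b (a (l 16646376) (l 16656256)) (l 6))) (a (l 16682600) (l 16670688))) (l 6)) (b (a (b (l 16669424) (l 16684432)) (b (l 16676696) (l 16691320))) (a (l 6) (b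 (l 139083016759) (l 373695598263))))) (a (b (a (b (l 16682736) (l 322692869111)) (l 1)) (l 1)) (l 1))) (a (a (l 6) (a (l 6) (l 1))) (l 1)))), by decide +kernel⟩

def k2_pp_022 : ∃ t, chk3 f_pp_022 t 5 1 1 = true :=
  ⟨(b (a (a (b (b (l 16476240) (l 16500648)) (a (b (l 16532528) (l 101501854855)) (b (l 16533424) (l 1)))) (b (l 1349726710407) (l 1))) (l 1)) (b (l 1) (l 1))), by decide +kernel⟩

def k3_pp_022 : ∃ t, chk3 f_pp_022 t 3 1 1 = true :=
  ⟨(l 1), by decide +kernel⟩

theorem s4_pp_022 : ∃ t, chk3 f_pp_022 t 4 1 1 = true := ex3_b k0_pp_022 k1_pp_022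

theorem s5_pp_022 : ∃ t, chk3 f_pp_022 t 2 1 1 = true := ex3_a s4_pp_022 k2_pp_022

theorem s6_pp_022 : ∃ t, chk3 f_pp_022 t 1 1 1 = true := ex3_a s5_pp_022 k3_pp_022

theorem c_pp_022 : CertB 0 536870912 0 536870912 587336777 62277027 3 eng mog cd3q0 cd0q2 pd2 false true true .pp 0 2 2
    ndB3q0 ndB0q2 pcB2 cut_pp_022 Ext.none :=
  certB0 (fam := false) (s1 := true) (s2 := true) (a := 0) (b := 2) (c := 2) (cn := .pp) (n1 := ndB3q0) (n2 := ndB0q2) (pc := pcB2) (cut := cut_pp_022) (xt := Ext.none) (P1 := 0) (W1 := 536870912) (P2 := 0) (W2 := 536870912) (P3 := 587336777) (W3 := 62277027) (N0 := 3) (En := eng) (mo := mog) (C1 := cd3q0) (C2 := cd0q2) (C3 := pd2)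
    rfl s6_pp_022

noncomputable def f_pp_101 : ℕ → ℕ → ℕ → ℕ → Bool := onCell 536870912 536870912 536870912 536870912 587336777 62277027
    (rowB 3 eng mog cd3q1 cd0q1 pd0 0 false true true .npn 1 0 1 (qsf 536870912 536870912 536870912 536870912 0) ndB3q1 ndB0q1 pcB0 Cut.none Ext.none)

def k0_pp_101 : ∃ t, chk3 f_pp_101 t 1 1 1 = true :=
  ⟨(l 3), by decide +kernel⟩

theorem c_pp_101 : CertB 536870912 536870912 536870912 536870912 587336777 62277027 3 eng mog cd3q1 cd0q1 pd0 false true true .npn 1 0 1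
    ndB3q1 ndB0q1 pcB0 Cut.none Ext.none :=
  certB0 (fam := false) (s1 := true) (s2 := true) (a := 1) (b := 0) (c := 1) (cn := .npn) (n1 := ndB3q1) (n2 := ndB0q1) (pc := pcB0) (cut := Cut.none) (xt := Ext.none) (P1 := 536870912) (W1 := 536870912) (P2 := 536870912) (W2 := 536870912) (P3 := 587336777) (W3 := 62277027) (N0 := 3) (En := eng) (mo := mog) (C1 := cd3q1) (C2 := cd0q1) (C3 := pd0)
    rfl k0_pp_101

noncomputable def f_pp_102 : ℕ → ℕ → ℕ → ℕ → Bool := onCell 0 536870912 0 536870912 587336777 62277027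
    (rowB 3 eng mog cd3q1 cd0q2 pd0 2 false true true .npp 1 0 2 (qsf 536870912 536870912 0 536870912 0) ndB3q1 ndB0q2 pcB0 Cut.none Ext.none)

def k0_pp_102 : ∃ t, chk3 f_pp_102 t 2 1 1 = true :=
  ⟨(b (a (l 3) (b (a (l 3) (b (a (l 3) (b (a (l 205788862311) (l 170892354615)) (l 3))) (l 3))) (l 3))) (l 3)), by decide +kernel⟩

def k1_pp_102 : ∃ t, chk3 f_pp_102 t 3 1 1 = true :=
  ⟨(b (a (b (a (b (b (a (b (a (l 156396941863) (l 16609096)) (a (l 169281766919) (l 16584288))) (a (b (l 16576776) (b (l 16573864) (l 16571384))) (b (l 16587880) (l 16582536)))) (a (a (l 3) (l 199346509527)) (a (b (l 139753888679) (l 196662105095)) (b (a (l 16575240) (l 16580240)) (l 163913088583))))) (l 3)) (b (b (a (l 16600608) (l 16620928)) (a (a (b (l 16587520) (l 16582608)) (b (l 16597432) (l 16592488))) (a (b (l 16607568) (l 16602024)) (l 16614592)))) (a (b (a (b (l 212768256119) (l 3)) (b (l 16587624) (l 207399557607))) (l 3)) (b (a (b (l 16597096) (l 182166681287))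 (b (l 16606368) (l 16601312))) (b (a (l 198809632967) (b (l 190219753287) (l 200957130311))) (l 3)))))) (l 3)) (b (a (b (b (l 16647944) (l 16637416)) (a (b (a (b (l 16615440) (l 16610272)) (b (l 16624456) (l 16618752))) (a (b (b (l 16606272) (l 188072279095)) (b (l 183240401415) (l 187535364503))) (b (l 16613272) (b (l 16609048) (l 188609160039))))) (b (b (l 16637016) (l 16631192)) (a (b (l 16621296) (l 16615176)) (b (l 16629024) (l 16622824)))))) (b (b (l 16676968) (l 16667936)) (a (b (l 16649848) (b (l 16640760) (l 16633992))) (l 16658848)))) (a (b (b (a (a (l 3) (b (b (l 185924760775) (l 3)) (l 3))) (a (b (b (l 188072293079) (l 189145993511)) (l 3)) (b (l 180556103047) (b (l 191293515927) (l 191830347143))))) (l 3)) (l 3)) (b (a (b (b (a (l 16622944) (l 16630448)) (a (b (l 16616824) (l 170892421735)) (l 16621760))) (b (a (l 192904088135) (l 163913095943)) (l 3))) (b (b (l 16641112) (a (l 16628992) (l 16636248))) (b (a (l 16618512) (l 16625608))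 (a (l 195051571527) (l 16612328))))) (a (l 3) (b (b (l 198272795975) (l 3)) (l 3))))))) (l 3)), by decide +kernel⟩

theorem s2_pp_102 : ∃ t, chk3 f_pp_102 t 1 1 1 = true := ex3_a k0_pp_102 k1_pp_102

theorem c_pp_102 : CertB 536870912 536870912 0 536870912 587336777 62277027 3 eng mog cd3q1 cd0q2 pd0 false true true .npp 1 0 2
    ndB3q1 ndB0q2 pcB0 Cut.none Ext.none :=
  certB2 (fam := false) (s1 := true) (s2 := true) (a := 1) (b := 0) (c := 2) (cn := .npp) (n1 := ndB3q1) (n2 := ndB0q2) (pc := pcB0) (cut := Cut.none) (xt := Ext.none) (P1 := 536870912) (W1 := 536870912) (P2 := 0) (W2 := 536870912) (P3 := 587336777) (W3 := 62277027) (N0 := 3) (En := eng) (mo := mog) (C1 := cd3q1) (C2 := cd0q2) (C3 := pd0)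
    rfl (fun _ => rfl) s2_pp_102

noncomputable def f_pp_112 : ℕ → ℕ → ℕ → ℕ → Bool := onCell 536870912 536870912 0 536870912 587336777 62277027
    (rowB 3 eng mog cd3q1 cd0q2 pd1 2 false true true .dn 1 1 2 (qsf 536870912 536870912 0 536870912 1) ndB3q1 ndB0q2 pcB1 Cut.none Ext.none)

def k0_pp_112 : ∃ t, chk3 f_pp_112 t 1 1 1 = true :=
  ⟨(a (b (a (b (b (a (b (l 16681672) (l 16683000)) (l 16685528)) (a (b (l 16681408) (l 16676688)) (b (l 16691792) (l 16691488)))) (a (b (a (b (b (l 16663736) (l 16656168)) (b (a (l 16642624) (l 16650304)) (a (l 16626400) (l 16636120)))) (b (l 16673128) (b (l 16661176) (l 16649368)))) (a (b (b (a (l 116668408887) (l 16615760)) (a (l 3) (l 126868910807))) (l 3)) (b (b (l 16632048) (a (l 16601792) (l 16614104))) (b (a (l 148880609255) (l 132237700567)) (l 3))))) (b (a (b (l 16683584) (b (l 16674832) (l 16665000))) (l 16687320)) (b (a (b (l 16651232) (l 16631736)) (b (l 16667560) (l 16652192))) (a (b (a (l 16597624) (l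 16611896)) (a (l 133311331431) (l 82308718951))) (b (a (l 16625224) (l 16637248)) (a (l 16594152) (l 16609768)))))))) (a (b (b (l 16674808) (l 100965274839)) (a (b (b (l 16693488) (l 16689064)) (b (l 16674320) (b (l 625487942247) (l 1)))) (l 1))) (l 1))) (b (a (a (l 3) (b (b (a (b (a (l 3) (l 120963252055)) (l 3)) (b (a (b (l 68886895191) (l 134385052951)) (b (l 16582848) (l 16582184))) (a (l 3) (a (l 148343663623) (l 1))))) (l 3)) (l 3))) (l 1)) (l 3))) (l 1)), by decide +kernel⟩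

theorem c_pp_112 : CertB 536870912 536870912 0 536870912 587336777 62277027 3 eng mog cd3q1 cd0q2 pd1 false true true .dn 1 1 2
    ndB3q1 ndB0q2 pcB1 Cut.none Ext.none :=
  certB2 (fam := false) (s1 := true) (s2 := true) (a := 1) (b := 1) (c := 2) (cn := .dn) (n1 := ndB3q1) (n2 := ndB0q2) (pc := pcB1) (cut := Cut.none) (xt := Ext.none) (P1 := 536870912) (W1 := 536870912) (P2 := 0) (W2 := 536870912) (P3 := 587336777) (W3 := 62277027) (N0 := 3) (En := eng) (mo := mog) (C1 := cd3q1) (C2 := cd0q2) (C3 := pd1)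
    rfl (fun _ => rfl) k0_pp_112

noncomputable def f_pp_202_a : ℕ → ℕ → ℕ → ℕ → Bool := onCell 0 536870912 0 536870912 587336777 62277027
    (rowB 3 eng mog cd3q2a cd0q2 pd0 0 false true true .pp 2 0 2 (qsf 0 536870912 0 536870912 0) ndB3q2a ndB0q2 pcB0 Cut.none Ext.none)

def k0_pp_202_a : ∃ t, chk3 f_pp_202_a t 1 1 1 = true :=
  ⟨(l 3), by decide +kernel⟩

theorem c_pp_202_a : CertB 0 536870912 0 536870912 587336777 62277027 3 eng mog cd3q2a cd0q2 pd0 false true true .pp 2 0 2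
    ndB3q2a ndB0q2 pcB0 Cut.none Ext.none :=
  certB0 (fam := false) (s1 := true) (s2 := true) (a := 2) (b := 0) (c := 2) (cn := .pp) (n1 := ndB3q2a) (n2 := ndB0q2) (pc := pcB0) (cut := Cut.none) (xt := Ext.none) (P1 := 0) (W1 := 536870912) (P2 := 0) (W2 := 536870912) (P3 := 587336777) (W3 := 62277027) (N0 := 3) (En := eng) (mo := mog) (C1 := cd3q2a) (C2 := cd0q2) (C3 := pd0)
    rfl k0_pp_202_a

noncomputable def f_pp_202_b : ℕ → ℕ → ℕ → ℕ → Bool := onCell 1239849684 370763052 0 536870912 587336777 62277027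
    (rowB 3 eng mog cd3q2b cd0q2 pd0 0 false true true .pp 2 0 2 (qsf 1239849684 370763052 0 536870912 0) ndB3q2b ndB0q2 pcB0 Cut.none Ext.none)

def k0_pp_202_b : ∃ t, chk3 f_pp_202_b t 1 1 1 = true :=
  ⟨(l 3), by decide +kernel⟩

theorem c_pp_202_b : CertB 1239849684 370763052 0 536870912 587336777 62277027 3 eng mog cd3q2b cd0q2 pd0 false true true .pp 2 0 2
    ndB3q2b ndB0q2 pcB0 Cut.none Ext.none :=
  certB0 (fam := false) (s1 := true) (s2 := true) (a := 2) (b := 0) (c := 2) (cn := .pp) (n1 := ndB3q2b) (n2 := ndB0q2) (pc := pcB0) (cut := Cut.none) (xt := Ext.none) (P1 := 1239849684) (W1 := 370763052) (P2 := 0) (W2 := 536870912) (P3 := 587336777) (W3 := 62277027) (N0 := 3) (En := eng) (mo := mog) (C1 := cd3q2b) (C2 := cd0q2) (C3 := pd0)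
    rfl k0_pp_202_b

noncomputable def f_pm_001 : ℕ → ℕ → ℕ → ℕ → Bool := onCell 0 536870912 0 536870912 587336777 62277027
    (rowB 3 eng mog cd3q0 cd0q1 pd0 1 false true false .up 0 0 1 (qsf 0 536870912 536870912 536870912 0) ndB3q0 ndB0q1 pcB0 Cut.none Ext.none)

def k0_pm_001 : ∃ t, chk3 f_pm_001 t 1 1 1 = true :=
  ⟨(a (l 4) (b (l 4) (b (l 4) (a (l 4) (b (l 4) (a (l 4) (b (a (l 4) (l 16438920)) (a (l 16446928) (l 16434600))))))))), by decide +kernel⟩

theorem c_pm_001 : CertB 0 536870912 536870912 536870912 587336777 62277027 3 eng mog cd3q0 cd0q1 pd0 false true false .up 0 0 1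
    ndB3q0 ndB0q1 pcB0 Cut.none Ext.none :=
  certB1 (fam := false) (s1 := true) (s2 := false) (a := 0) (b := 0) (c := 1) (cn := .up) (n1 := ndB3q0) (n2 := ndB0q1) (pc := pcB0) (cut := Cut.none) (xt := Ext.none) (P1 := 0) (W1 := 536870912) (P2 := 536870912) (W2 := 536870912) (P3 := 587336777) (W3 := 62277027) (N0 := 3) (En := eng) (mo := mog) (C1 := cd3q0) (C2 := cd0q1) (C3 := pd0)
    rfl (fun _ => rfl) k0_pm_001

noncomputable def cut_pm_011 : Cut := Cut.of [[⟨0, 0, 0, 67108864⟩, ⟨1, 1, 0, 67108864⟩, ⟨2, 1, 0, 67108864⟩]]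

noncomputable def f_pm_011 : ℕ → ℕ → ℕ → ℕ → Bool := onCell 0 536870912 536870912 536870912 587336777 62277027
    (rowB 3 eng mog cd3q0 cd0q1 pd1 0 false true false .pnn 0 1 1 (qsf 0 536870912 536870912 536870912 1) ndB3q0 ndB0q1 pcB1 cut_pm_011 Ext.none)

def k0_pm_011 : ∃ t, chk3 f_pm_011 t 1 1 1 = true :=
  ⟨(b (l 4) (b (l 4) (b (a (l 4) (l 4)) (b (a (l 4) (a (l 4) (a (l 16646000) (l 16466064)))) (a (b (a (l 4) (l 4)) (a (a (a (l 6) (l 4)) (l 4)) (a (a (l 4) (b (l 4) (l 16602992))) (a (l 16623752) (l 16555336))))) (a (a (b (a (l 4) (l 16526544)) (l 16664848)) (a (l 16512648) (l 16467520))) (a (l 16473504) (l 16384248)))))))), by decide +kernel⟩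

theorem c_pm_011 : CertB 0 536870912 536870912 536870912 587336777 62277027 3 eng mog cd3q0 cd0q1 pd1 false true false .pnn 0 1 1
    ndB3q0 ndB0q1 pcB1 cut_pm_011 Ext.none :=
  certB0 (fam := false) (s1 := true) (s2 := false) (a := 0) (b := 1) (c := 1) (cn := .pnn) (n1 := ndB3q0) (n2 := ndB0q1) (pc := pcB1) (cut := cut_pm_011) (xt := Ext.none) (P1 := 0) (W1 := 536870912) (P2 := 536870912) (W2 := 536870912) (P3 := 587336777) (W3 := 62277027) (N0 := 3) (En := eng) (mo := mog) (C1 := cd3q0) (C2 := cd0q1) (C3 := pd1)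
    rfl k0_pm_011

noncomputable def cut_pm_012 : Cut := Cut.of [[⟨0, 0, 0, 67108864⟩, ⟨1, 1, 0, 67108864⟩, ⟨2, 1, 0, 67108864⟩]]

noncomputable def f_pm_012 : ℕ → ℕ → ℕ → ℕ → Bool := onCell 536870912 536870912 0 536870912 587336777 62277027
    (rowB 3 eng mog cd3q0 cd0q2 pd1 2 false true false .pnp 0 1 2 (qsf 0 536870912 0 536870912 1) ndB3q0 ndB0q2 pcB1 cut_pm_012 Ext.none)

def k0_pm_012 : ∃ t, chk3 f_pm_012 t 1 2 1 = true :=
  ⟨(a (b (a (l 2) (a (l 16654816) (l 16624176))) (a (b (l 2) (l 16604456)) (b (l 16592952) (l 16746720)))) (a (b (a (b (l 16603080) (l 16572184)) (b (l 16561240) (l 16533336))) (a (b (l 16545344) (l 16518728)) (b (l 16511328) (l 16492608)))) (a (b (b (l 16518976) (l 16496400)) (b (l 16481472) (l 16473152))) (b (b (l 16478376) (l 16461896)) (b (a (l 16460920) (l 16449592)) (a (l 16461768) (l 16457080))))))), by decide +kernel⟩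

def k1_pm_012 : ∃ t, chk3 f_pm_012 t 1 3 1 = true :=
  ⟨(a (b (a (b (l 16549856) (l 16488952)) (b (l 16748840) (a (l 16482984) (l 16480296)))) (a (b (a (l 16430568) (l 16442136)) (b (l 16410216) (a (l 16381896) (l 16418464)))) (b (a (b (l 16459264) (l 16451240)) (b (l 16468872) (l 16470048))) (a (b (l 16450256) (l 16456360)) (b (l 16478792) (l 16516712)))))) (b (a (a (b (l 16494024) (l 16479176)) (b (l 16480048) (a (l 16479744) (l 16483552)))) (a (b (l 16474440) (a (l 16489536) (l 16497728))) (a (b (l 16475136) (l 16571416)) (b (b (l 16471504) (l 16486512)) (a (l 16518016) (l 16524920)))))) (a (a (b (b (l 16481168) (l 16638656)) (b (b (l 16505192) (l 16516792)) (a (l 16527528) (l 16550168)))) (b (b (l 16497752) (a (l 16531592) (l 16526432))) (a (b (b (l 16530160) (l 16545848)) (b (l 16564144) (l 16584736))) (b (l 16580488) (b (l 16589416) (l 16612848)))))) (b (a (a (l 16551736) (b (l 16532640) (l 16566312))) (a (b (l 16550696) (l 16630776)) (a (b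 (l 16565312) (l 16606952)) (b (l 16575792) (a (l 16616496) (l 16623056)))))) (a (b (a (b (l 16572288) (l 16593512)) (b (l 16617464) (l 16683080))) (a (b (a (l 16610024) (l 16624048)) (l 16747592)) (b (a (l 16742792) (b (l 16646192) (l 16659888))) (a (l 16665792) (l 16703640))))) (b (a (a (l 16712016) (b (l 16629440) (l 16655512))) (a (b (l 16643400) (l 6)) (l 6))) (a (a (b (b (l 16661312) (l 16758760)) (b (l 16690216) (l 16748216))) (b (b (l 16676336) (l 6)) (l 6))) (l 6)))))))), by decide +kernel⟩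

theorem s2_pm_012 : ∃ t, chk3 f_pm_012 t 1 1 1 = true := ex3_b k0_pm_012 k1_pm_012

theorem c_pm_012 : CertB 0 536870912 0 536870912 587336777 62277027 3 eng mog cd3q0 cd0q2 pd1 false true false .pnp 0 1 2
    ndB3q0 ndB0q2 pcB1 cut_pm_012 Ext.none :=
  certB2 (fam := false) (s1 := true) (s2 := false) (a := 0) (b := 1) (c := 2) (cn := .pnp) (n1 := ndB3q0) (n2 := ndB0q2) (pc := pcB1) (cut := cut_pm_012) (xt := Ext.none) (P1 := 0) (W1 := 536870912) (P2 := 0) (W2 := 536870912) (P3 := 587336777) (W3 := 62277027) (N0 := 3) (En := eng) (mo := mog) (C1 := cd3q0) (C2 := cd0q2) (C3 := pd1)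
    rfl (fun _ => rfl) s2_pm_012

noncomputable def cut_pm_022 : Cut := Cut.of [[⟨0, 0, 0, 67108864⟩, ⟨1, 1, 0, 67108864⟩, ⟨2, 1, 0, 67108864⟩]]

noncomputable def f_pm_022 : ℕ → ℕ → ℕ → ℕ → Bool := onCell 0 536870912 0 536870912 587336777 62277027
    (rowB 3 eng mog cd3q0 cd0q2 pd2 0 false true false .pp 0 2 2 (qsf 0 536870912 0 536870912 2) ndB3q0 ndB0q2 pcB2 cut_pm_022 Ext.none)

def k0_pm_022 : ∃ t, chk3 f_pm_022 t 2 2 1 = true :=
  ⟨(a (b (a (b (a (l 16458440) (l 16463768)) (a (b (l 16462680) (l 16468616)) (l 16466792))) (b (l 16465424) (l 16462144))) (a (b (a (b (a (l 16476912) (l 16476472)) (a (l 16488176) (l 16486384))) (b (l 16474296) (l 16481896))) (a (a (b (b (l 16498208) (l 16529408)) (a (b (l 16543216) (a (b (l 16522096) (b (l 16525472) (l 16504184))) (l 16523688))) (l 16538504))) (b (l 16498768) (l 16513728))) (b (l 16491784) (l 16524984)))) (b (b (l 16485176) (l 16466416)) (b (l 16512504) (a (l 16486840) (l 16465088)))))) (a (b (b (l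 16455816) (l 16444248)) (a (b (l 16444864) (l 16460232)) (l 1))) (l 1))), by decide +kernel⟩

def k1_pm_022 : ∃ t, chk3 f_pm_022 t 2 3 1 = true :=
  ⟨(b (a (a (a (b (b (a (a (a (b (c (l 16544688) (b (a (l 16530504) (l 16530472)) (l 16535160))) (c (b (l 16541752) (l 16546976)) (a (l 16547720) (l 16542400)))) (b (l 16533248) (l 16543032))) (b (l 16531400) (l 16541632))) (b (l 16526576) (l 16536080))) (a (a (b (c (a (l 16555104) (l 16554104)) (b (l 16549848) (l 16555032))) (a (b (l 16562144) (l 16567768)) (c (l 16565288) (l 16562920)))) (b (l 16552272) (l 16563024))) (b (l 16546280) (l 16557192)))) (a (b (a (b (a (c (l 16578232) (l 16574552)) (l 16575728)) (b (l 16585160) (l 16591408))) (b (l 16574368) (l 16586352))) (a (b (b (l 16597816) (l 16604416)) (a (l 16615256) (l 16614208))) (b (l 16599008) (l 16612464)))) (b (a (l 16577880) (l 16571944)) (l 16609896)))) (b (b (a (l 16523216) (l 16513736)) (l 16546264)) (b (a (l 16562272) (l 16547984)) (a (l 16585368)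 (l 16568272))))) (b (a (b (l 16497088) (l 16509392)) (b (l 16470464) (l 16477408))) (a (b (l 16523608) (a (l 16549448) (l 16528904))) (b (l 16485680) (l 1))))) (l 1)) (a (a (b (b (a (b (a (a (a (l 16640312) (l 16628696)) (l 16626832)) (l 16621296)) (a (a (b (l 16646016) (l 6)) (l 16642176)) (l 16635608))) (a (l 16610184) (l 16610904))) (a (l 6) (a (l 6) (b (l 16606560) (l 16617792))))) (a (l 6) (a (l 6) (l 1)))) (b (b (a (a (l 16567792) (l 1)) (l 1)) (l 1)) (l 1))) (l 1))), by decide +kernel⟩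

def k2_pm_022 : ∃ t, chk3 f_pm_022 t 3 1 1 = true :=
  ⟨(l 1), by decide +kernel⟩

theorem s3_pm_022 : ∃ t, chk3 f_pm_022 t 2 1 1 = true := ex3_b k0_pm_022 k1_pm_022

theorem s4_pm_022 : ∃ t, chk3 f_pm_022 t 1 1 1 = true := ex3_a s3_pm_022 k2_pm_022

theorem c_pm_022 : CertB 0 536870912 0 536870912 587336777 62277027 3 eng mog cd3q0 cd0q2 pd2 false true false .pp 0 2 2
    ndB3q0 ndB0q2 pcB2 cut_pm_022 Ext.none :=
  certB0 (fam := false) (s1 := true) (s2 := false) (a := 0) (b := 2) (c := 2) (cn := .pp) (n1 := ndB3q0) (n2 := ndB0q2) (pc := pcB2) (cut := cut_pm_022) (xt := Ext.none) (P1 := 0) (W1 := 536870912) (P2 := 0) (W2 := 536870912) (P3 := 587336777) (W3 := 62277027) (N0 := 3) (En := eng) (mo := mog) (C1 := cd3q0) (C2 := cd0q2) (C3 := pd2)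
    rfl s4_pm_022

noncomputable def f_pm_101 : ℕ → ℕ → ℕ → ℕ → Bool := onCell 0 536870912 536870912 536870912 587336777 62277027
    (rowB 3 eng mog cd3q1 cd0q1 pd0 2 false true false .npn 1 0 1 (qsf 536870912 536870912 536870912 536870912 0) ndB3q1 ndB0q1 pcB0 Cut.none Ext.none)

def k0_pm_101 : ∃ t, chk3 f_pm_101 t 1 2 1 = true :=
  ⟨(l 4), by decide +kernel⟩

def k1_pm_101 : ∃ t, chk3 f_pm_101 t 2 6 1 = true :=
  ⟨(b (l 4) (a (a (b (a (b (l 16524248) (a (l 16510624) (l 16513624))) (b (l 4) (l 16559880))) (a (b (l 16507112) (l 16505016)) (b (l 16506624) (l 16500368)))) (b (l 4) (a (b (l 16504424) (l 16493280)) (b (l 16500248) (l 16483408))))) (a (b (l 4) (a (b (l 4) (l 16472040)) (l 16472320))) (l 4)))), by decide +kernel⟩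

def k2_pm_101 : ∃ t, chk3 f_pm_101 t 4 14 1 = true :=
  ⟨(a (b (a (b (a (l 16506992) (l 16503600)) (a (l 16510616) (l 16505592))) (b (a (l 16499216) (l 16494136)) (a (l 16499456) (l 16492256)))) (a (b (a (l 16516576) (l 16509952)) (a (c (l 16570528) (l 16480664)) (c (l 16563384) (l 16471296)))) (b (a (l 16502088) (l 16493040)) (a (c (l 16554728) (l 16460624)) (l 16496008))))) (b (a (b (l 16485624) (a (l 16484368) (l 16476056))) (b (l 16471672) (l 16462360))) (a (b (a (l 16482928) (l 16472136)) (a (l 16483912) (l 16470752))) (b (a (l 16460976) (l 16449232)) (a (l 16456960) (l 16442880)))))), by decide +kernel⟩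

def k3_pm_101 : ∃ t, chk3 f_pm_101 t 4 15 1 = true :=
  ⟨(a (b (b (a (a (c (l 16578000) (l 16493224)) (c (l 16569600) (l 16482040))) (c (a (l 16559472) (l 16547760)) (a (l 16469352) (l 16455264)))) (a (b (a (b (l 16541104) (c (l 16584424) (b (l 16504520) (l 16504784)))) (a (b (l 16533408) (l 16536224)) (l 16528848))) (a (l 16544312) (c (l 16576080) (b (l 16493976) (l 16494848))))) (a (b (l 16519216) (b (c (l 16565288) (b (l 16480632) (l 16480776))) (l 16522280))) (b (l 16504904) (b (c (l 16552072) (l 16464752)) (c (l 16551712) (l 16464992))))))) (a (a (b (b (l 16545088) (l 16546000)) (l 16546704)) (b (l 16535176) (b (l 16534760) (l 16532136)))) (b (b (a (l 16522160) (l 16507248)) (l 16514056)) (b (l 16511984) (l 16507288))))) (b (a (a (b (c (l 16534656) (l 16439944)) (b (l 16489176) (b (l 16490560) (a (l 16495616) (l 16487200))))) (b (l 16471272) (b (l 16472216) (c (l 16520240) (l 16427888))))) (b (a (l 16454944) (l 16438048)) (a (c (l 16502696) (l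 16406720)) (c (l 16484224) (l 16385784))))) (b (b (a (a (l 16490560) (b (l 16472408) (l 16471640))) (a (b (c (l 16500960) (l 16407216)) (l 16451824)) (b (l 16432264) (l 16430288)))) (a (l 16479160) (l 16438480))) (a (b (l 16475352) (l 16469144)) (a (l 16441128) (l 16418632)))))), by decide +kernel⟩

def k4_pm_101 : ∃ t, chk3 f_pm_101 t 5 7 1 = true :=
  ⟨(a (b (a (b (a (l 16453032) (l 16443136)) (a (b (l 16436896) (l 16428472)) (l 16419080))) (b (l 16427408) (l 16397536))) (b (a (b (a (l 16421240) (l 16404816)) (a (a (l 16419272) (l 16409816)) (l 16396000))) (b (l 16379160) (l 16367616))) (a (b (a (b (b (l 16410416) (l 16409000)) (l 16405128)) (b (l 16389160) (l 16382592))) (a (l 16395464) (l 16372720))) (b (b (l 16358392) (l 16351408)) (l 16359744))))) (a (b (b (l 16405104) (l 16366480)) (b (l 16335720) (b (l 16323392) (l 16351608)))) (b (b (l 16381992) (l 16332728)) (b (l 16311320) (b (l 16323888) (l 16344328)))))), by decide +kernel⟩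

def k5_pm_101 : ∃ t, chk3 f_pm_101 t 3 3 1 = true :=
  ⟨(b (l 4) (a (a (b (b (a (l 16386888) (l 16400480)) (l 16476560)) (b (l 16324112) (a (l 16328664) (l 16329272)))) (b (b (l 4) (l 16379736)) (b (l 16344232) (b (l 16333280) (l 16333320))))) (b (a (a (b (l 4) (l 16407704)) (l 23857055239)) (l 4)) (a (b (a (l 16365624) (l 16387344)) (l 16433312)) (b (l 49425465463) (l 16387312)))))), by decide +kernel⟩

theorem s6_pm_101 : ∃ t, chk3 f_pm_101 t 4 7 1 = true := ex3_b k2_pm_101 k3_pm_101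

theorem s7_pm_101 : ∃ t, chk3 f_pm_101 t 2 7 1 = true := ex3_a s6_pm_101 k4_pm_101

theorem s8_pm_101 : ∃ t, chk3 f_pm_101 t 2 3 1 = true := ex3_b k1_pm_101 s7_pm_101

theorem s9_pm_101 : ∃ t, chk3 f_pm_101 t 1 3 1 = true := ex3_a s8_pm_101 k5_pm_101

theorem s10_pm_101 : ∃ t, chk3 f_pm_101 t 1 1 1 = true := ex3_b k0_pm_101 s9_pm_101

theorem c_pm_101 : CertB 536870912 536870912 536870912 536870912 587336777 62277027 3 eng mog cd3q1 cd0q1 pd0 false true false .npn 1 0 1
    ndB3q1 ndB0q1 pcB0 Cut.none Ext.none :=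
  certB2 (fam := false) (s1 := true) (s2 := false) (a := 1) (b := 0) (c := 1) (cn := .npn) (n1 := ndB3q1) (n2 := ndB0q1) (pc := pcB0) (cut := Cut.none) (xt := Ext.none) (P1 := 536870912) (W1 := 536870912) (P2 := 536870912) (W2 := 536870912) (P3 := 587336777) (W3 := 62277027) (N0 := 3) (En := eng) (mo := mog) (C1 := cd3q1) (C2 := cd0q1) (C3 := pd0)
    rfl (fun _ => rfl) s10_pm_101

noncomputable def f_pm_102 : ℕ → ℕ → ℕ → ℕ → Bool := onCell 0 536870912 0 536870912 587336777 62277027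
    (rowB 3 eng mog cd3q1 cd0q2 pd0 2 false true false .npp 1 0 2 (qsf 536870912 536870912 0 536870912 0) ndB3q1 ndB0q2 pcB0 Cut.none Ext.none)

def k0_pm_102 : ∃ t, chk3 f_pm_102 t 2 2 1 = true :=
  ⟨(a (b (l 2) (a (l 2) (b (l 2) (a (l 2) (b (l 2) (l 16557176)))))) (b (a (b (a (l 3) (b (l 3) (a (l 153175548391) (b (l 16531832) (l 16534264))))) (a (a (l 2) (b (b (l 16528288) (a (l 2) (l 16531808))) (b (l 16617928) (l 16537664)))) (b (a (b (l 16553120) (l 16535216)) (b (l 16537240) (l 16541664))) (a (b (l 16539232) (l 16543680)) (b (l 16546192) (l 16551504)))))) (b (a (b (a (l 177334687751) (l 167134298439)) (a (b (l 16537080) (l 16539944)) (b (l 16543536) (l 16548312)))) (b (a (a (l 143512016951) (l 139753943735)) (b (l 16615976) (l 16577488))) (a (l 16554520) (l 16565376)))) (b (a (b (a (l 16544640) (l 16553504)) (l 16553984)) (b (l 16568192) (l 16574248))) (a (b (l 16559616) (l 16565760)) (b (l 16580656) (l 16587128)))))) (a (b (a (b (a (b (l 2)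 (l 16583024)) (b (l 16541960) (l 16546904))) (a (l 16548032) (l 16555568))) (b (b (a (l 16548880) (l 16557336)) (l 16559136)) (l 16569648))) (b (a (b (l 16560712) (l 16567632)) (l 16585528)) (a (l 16578736) (l 16602448)))) (b (a (b (b (l 16572296) (l 16579536)) (l 16591312)) (l 16606176)) (b (a (l 16608336) (l 16629880)) (a (l 16624880) (l 16643664))))))), by decide +kernel⟩

def k1_pm_102 : ∃ t, chk3 f_pm_102 t 2 3 1 = true :=
  ⟨(a (a (b (l 2) (b (a (l 2) (b (a (l 2) (l 16572160)) (a (l 16571064) (l 16582792)))) (b (a (a (l 2) (l 16502416)) (a (l 16575336) (l 16579504))) (a (b (b (l 16561232) (l 16560264)) (a (b (l 16577272) (a (l 16553432) (l 16548864))) (b (l 16553904) (l 16533192)))) (b (l 16556592) (l 16515168)))))) (b (b (a (l 2) (b (l 16569256) (l 16583432))) (a (b (l 16569112) (a (l 16574656) (l 16590160))) (b (l 16598088) (l 16609224)))) (b (a (b (l 16594544) (l 16595544)) (b (l 16611232) (l 16594504))) (b (a (l 16572336) (l 16550368)) (a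 (b (l 16525952) (l 16476656)) (l 16470752)))))) (b (a (b (a (l 16602720) (l 16625536)) (b (l 16629808) (a (l 16624448) (l 16628912)))) (b (a (l 16642664) (l 16653280)) (b (l 16642000) (a (l 16624832) (l 16615168))))) (a (b (a (l 16579168) (l 16586464)) (b (a (l 16524928) (l 16501000)) (a (l 16444696) (l 16423944)))) (b (a (l 16568976) (l 16550720)) (b (l 16469848) (a (l 16406760) (l 16392144))))))), by decide +kernel⟩

def k2_pm_102 : ∃ t, chk3 f_pm_102 t 3 1 1 = true :=
  ⟨(a (b (b (a (b (a (b (a (b (l 16582632) (l 16567320)) (l 16575152)) (a (l 16575744) (l 16586272))) (b (l 16591176) (l 16602256))) (a (b (l 16593248) (l 16605992)) (b (l 16614776) (l 16627096)))) (b (b (a (l 16611656) (l 16631592)) (a (l 16623144) (l 16642656))) (b (l 16644248) (l 16654488)))) (a (b (a (l 16627416) (l 16645840)) (b (a (l 16648104) (l 16662152)) (a (l 16657536) (l 16666784)))) (a (b (l 16661336) (l 16695184)) (b (l 16673600) (l 16678376))))) (a (b (b (a (l 16657944)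 (l 16658488)) (b (l 16630872) (l 16659208))) (b (c (l 16553312) (l 16495880)) (c (l 16435264) (l 16481944)))) (b (b (a (l 16655792) (l 16650504)) (a (l 16596032) (l 16583840))) (b (a (l 16500384) (l 16486912)) (a (l 16391352) (l 16384208)))))) (b (b (a (b (b (l 16657936) (l 16666984)) (l 16677912)) (b (l 16687848) (l 16695248))) (b (a (l 16685760) (l 16695056)) (a (a (l 16679232) (l 16678400)) (a (l 16676568) (l 16674584))))) (a (b (b (a (l 16642224) (l 16632152)) (a (l 16570152) (l 16555936))) (b (a (l 16475136) (l 16466248)) (a (l 16379632) (l 16386136)))) (b (b (l 16762896) (a (l 16542792) (l 16531080))) (b (a (l 16460592) (l 16625400)) (a (l 16394928) (l 16403976))))))), by decide +kernel⟩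

theorem s3_pm_102 : ∃ t, chk3 f_pm_102 t 2 1 1 = true := ex3_b k0_pm_102 k1_pm_102

theorem s4_pm_102 : ∃ t, chk3 f_pm_102 t 1 1 1 = true := ex3_a s3_pm_102 k2_pm_102

theorem c_pm_102 : CertB 536870912 536870912 0 536870912 587336777 62277027 3 eng mog cd3q1 cd0q2 pd0 false true false .npp 1 0 2
    ndB3q1 ndB0q2 pcB0 Cut.none Ext.none :=
  certB2 (fam := false) (s1 := true) (s2 := false) (a := 1) (b := 0) (c := 2) (cn := .npp) (n1 := ndB3q1) (n2 := ndB0q2) (pc := pcB0) (cut := Cut.none) (xt := Ext.none) (P1 := 536870912) (W1 := 536870912) (P2 := 0) (W2 := 536870912) (P3 := 587336777) (W3 := 62277027) (N0 := 3) (En := eng) (mo := mog) (C1 := cd3q1) (C2 := cd0q2) (C3 := pd0)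
    rfl (fun _ => rfl) s4_pm_102

noncomputable def f_pm_112 : ℕ → ℕ → ℕ → ℕ → Bool := onCell 536870912 536870912 0 536870912 587336777 62277027
    (rowB 3 eng mog cd3q1 cd0q2 pd1 2 false true false .dn 1 1 2 (qsf 536870912 536870912 0 536870912 1) ndB3q1 ndB0q2 pcB1 Cut.none Ext.none)

def k0_pm_112 : ∃ t, chk3 f_pm_112 t 1 1 1 = true :=
  ⟨(a (a (b (b (b (a (l 16676112) (l 16671672)) (l 16656928)) (b (l 16632896) (a (l 16608120) (l 16590776)))) (b (b (l 16555720) (l 16503904)) (b (a (l 16455944) (l 16460216)) (a (b (l 16426120) (l 16412536)) (l 1))))) (b (a (b (l 16641944) (l 16689200)) (l 1)) (b (l 1) (l 1)))) (l 1)), by decide +kernel⟩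

theorem c_pm_112 : CertB 536870912 536870912 0 536870912 587336777 62277027 3 eng mog cd3q1 cd0q2 pd1 false true false .dn 1 1 2
    ndB3q1 ndB0q2 pcB1 Cut.none Ext.none :=
  certB2 (fam := false) (s1 := true) (s2 := false) (a := 1) (b := 1) (c := 2) (cn := .dn) (n1 := ndB3q1) (n2 := ndB0q2) (pc := pcB1) (cut := Cut.none) (xt := Ext.none) (P1 := 536870912) (W1 := 536870912) (P2 := 0) (W2 := 536870912) (P3 := 587336777) (W3 := 62277027) (N0 := 3) (En := eng) (mo := mog) (C1 := cd3q1) (C2 := cd0q2) (C3 := pd1)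
    rfl (fun _ => rfl) k0_pm_112

noncomputable def cut_pm_202_a : Cut := Cut.of [[⟨0, 1, 0, 67108864⟩, ⟨1, 0, 0, 67108864⟩, ⟨2, 1, 0, 67108864⟩]]

noncomputable def f_pm_202_a : ℕ → ℕ → ℕ → ℕ → Bool := onCell 0 536870912 0 536870912 587336777 62277027
    (rowB 3 eng mog cd3q2a cd0q2 pd0 0 false true false .pp 2 0 2 (qsf 0 536870912 0 536870912 0) ndB3q2a ndB0q2 pcB0 cut_pm_202_a Ext.none)

def k0_pm_202_a : ∃ t, chk3 f_pm_202_a t 1 1 1 = true :=
  ⟨(a (l 3) (b (l 3) (b (l 3) (a (l 3) (b (l 3) (a (l 3) (l 6))))))), by decide +kernel⟩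

theorem c_pm_202_a : CertB 0 536870912 0 536870912 587336777 62277027 3 eng mog cd3q2a cd0q2 pd0 false true false .pp 2 0 2
    ndB3q2a ndB0q2 pcB0 cut_pm_202_a Ext.none :=
  certB0 (fam := false) (s1 := true) (s2 := false) (a := 2) (b := 0) (c := 2) (cn := .pp) (n1 := ndB3q2a) (n2 := ndB0q2) (pc := pcB0) (cut := cut_pm_202_a) (xt := Ext.none) (P1 := 0) (W1 := 536870912) (P2 := 0) (W2 := 536870912) (P3 := 587336777) (W3 := 62277027) (N0 := 3) (En := eng) (mo := mog) (C1 := cd3q2a) (C2 := cd0q2) (C3 := pd0)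
    rfl k0_pm_202_a

noncomputable def cut_pm_202_b : Cut := Cut.of [[⟨0, 1, 0, 67108864⟩, ⟨1, 0, 0, 67108864⟩, ⟨2, 1, 0, 67108864⟩]]

noncomputable def f_pm_202_b : ℕ → ℕ → ℕ → ℕ → Bool := onCell 1239849684 370763052 0 536870912 587336777 62277027
    (rowB 3 eng mog cd3q2b cd0q2 pd0 0 false true false .pp 2 0 2 (qsf 1239849684 370763052 0 536870912 0) ndB3q2b ndB0q2 pcB0 cut_pm_202_b Ext.none)

def k0_pm_202_b : ∃ t, chk3 f_pm_202_b t 1 1 1 = true :=
  ⟨(l 3), by decide +kernel⟩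

theorem c_pm_202_b : CertB 1239849684 370763052 0 536870912 587336777 62277027 3 eng mog cd3q2b cd0q2 pd0 false true false .pp 2 0 2
    ndB3q2b ndB0q2 pcB0 cut_pm_202_b Ext.none :=
  certB0 (fam := false) (s1 := true) (s2 := false) (a := 2) (b := 0) (c := 2) (cn := .pp) (n1 := ndB3q2b) (n2 := ndB0q2) (pc := pcB0) (cut := cut_pm_202_b) (xt := Ext.none) (P1 := 1239849684) (W1 := 370763052) (P2 := 0) (W2 := 536870912) (P3 := 587336777) (W3 := 62277027) (N0 := 3) (En := eng) (mo := mog) (C1 := cd3q2b) (C2 := cd0q2) (C3 := pd0)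
    rfl k0_pm_202_b

noncomputable def f_mm_001 : ℕ → ℕ → ℕ → ℕ → Bool := onCell 0 536870912 536870912 536870912 587336777 62277027
    (rowB 3 eng mog cd3q0 cd0q1 pd0 0 false false false .up 0 0 1 (qsf 0 536870912 536870912 536870912 0) ndB3q0 ndB0q1 pcB0 Cut.none Ext.none)

def k0_mm_001 : ∃ t, chk3 f_mm_001 t 1 1 1 = true :=
  ⟨(l 5), by decide +kernel⟩

theorem c_mm_001 : CertB 0 536870912 536870912 536870912 587336777 62277027 3 eng mog cd3q0 cd0q1 pd0 false false false .up 0 0 1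
    ndB3q0 ndB0q1 pcB0 Cut.none Ext.none :=
  certB0 (fam := false) (s1 := false) (s2 := false) (a := 0) (b := 0) (c := 1) (cn := .up) (n1 := ndB3q0) (n2 := ndB0q1) (pc := pcB0) (cut := Cut.none) (xt := Ext.none) (P1 := 0) (W1 := 536870912) (P2 := 536870912) (W2 := 536870912) (P3 := 587336777) (W3 := 62277027) (N0 := 3) (En := eng) (mo := mog) (C1 := cd3q0) (C2 := cd0q1) (C3 := pd0)
    rfl k0_mm_001

noncomputable def f_mm_011 : ℕ → ℕ → ℕ → ℕ → Bool := onCell 0 536870912 536870912 536870912 587336777 62277027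
    (rowB 3 eng mog cd3q0 cd0q1 pd1 0 false false false .pnn 0 1 1 (qsf 0 536870912 536870912 536870912 1) ndB3q0 ndB0q1 pcB1 Cut.none Ext.none)

def k0_mm_011 : ∃ t, chk3 f_mm_011 t 1 1 1 = true :=
  ⟨(l 5), by decide +kernel⟩

theorem c_mm_011 : CertB 0 536870912 536870912 536870912 587336777 62277027 3 eng mog cd3q0 cd0q1 pd1 false false false .pnn 0 1 1
    ndB3q0 ndB0q1 pcB1 Cut.none Ext.none :=
  certB0 (fam := false) (s1 := false) (s2 := false) (a := 0) (b := 1) (c := 1) (cn := .pnn) (n1 := ndB3q0) (n2 := ndB0q1) (pc := pcB1) (cut := Cut.none) (xt := Ext.none) (P1 := 0) (W1 := 536870912) (P2 := 536870912) (W2 := 536870912) (P3 := 587336777) (W3 := 62277027) (N0 := 3) (En := eng) (mo := mog) (C1 := cd3q0) (C2 := cd0q1) (C3 := pd1)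
    rfl k0_mm_011

noncomputable def f_mm_012 : ℕ → ℕ → ℕ → ℕ → Bool := onCell 0 536870912 0 536870912 587336777 62277027
    (rowB 3 eng mog cd3q0 cd0q2 pd1 0 false false false .pnp 0 1 2 (qsf 0 536870912 0 536870912 1) ndB3q0 ndB0q2 pcB1 Cut.none Ext.none)

def k0_mm_012 : ∃ t, chk3 f_mm_012 t 1 1 1 = true :=
  ⟨(l 5), by decide +kernel⟩

theorem c_mm_012 : CertB 0 536870912 0 536870912 587336777 62277027 3 eng mog cd3q0 cd0q2 pd1 false false false .pnp 0 1 2
    ndB3q0 ndB0q2 pcB1 Cut.none Ext.none :=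
  certB0 (fam := false) (s1 := false) (s2 := false) (a := 0) (b := 1) (c := 2) (cn := .pnp) (n1 := ndB3q0) (n2 := ndB0q2) (pc := pcB1) (cut := Cut.none) (xt := Ext.none) (P1 := 0) (W1 := 536870912) (P2 := 0) (W2 := 536870912) (P3 := 587336777) (W3 := 62277027) (N0 := 3) (En := eng) (mo := mog) (C1 := cd3q0) (C2 := cd0q2) (C3 := pd1)
    rfl k0_mm_012

noncomputable def f_mm_022 : ℕ → ℕ → ℕ → ℕ → Bool := onCell 0 536870912 0 536870912 587336777 62277027
    (rowB 3 eng mog cd3q0 cd0q2 pd2 0 false false false .pp 0 2 2 (qsf 0 536870912 0 536870912 2) ndB3q0 ndB0q2 pcB2 Cut.none Ext.none)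

def k0_mm_022 : ∃ t, chk3 f_mm_022 t 1 1 1 = true :=
  ⟨(l 5), by decide +kernel⟩

theorem c_mm_022 : CertB 0 536870912 0 536870912 587336777 62277027 3 eng mog cd3q0 cd0q2 pd2 false false false .pp 0 2 2
    ndB3q0 ndB0q2 pcB2 Cut.none Ext.none :=
  certB0 (fam := false) (s1 := false) (s2 := false) (a := 0) (b := 2) (c := 2) (cn := .pp) (n1 := ndB3q0) (n2 := ndB0q2) (pc := pcB2) (cut := Cut.none) (xt := Ext.none) (P1 := 0) (W1 := 536870912) (P2 := 0) (W2 := 536870912) (P3 := 587336777) (W3 := 62277027) (N0 := 3) (En := eng) (mo := mog) (C1 := cd3q0) (C2 := cd0q2) (C3 := pd2)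
    rfl k0_mm_022

noncomputable def f_mm_101 : ℕ → ℕ → ℕ → ℕ → Bool := onCell 536870912 536870912 536870912 536870912 587336777 62277027
    (rowB 3 eng mog cd3q1 cd0q1 pd0 0 false false false .npn 1 0 1 (qsf 536870912 536870912 536870912 536870912 0) ndB3q1 ndB0q1 pcB0 Cut.none Ext.none)

def k0_mm_101 : ∃ t, chk3 f_mm_101 t 1 1 1 = true :=
  ⟨(l 3), by decide +kernel⟩

theorem c_mm_101 : CertB 536870912 536870912 536870912 536870912 587336777 62277027 3 eng mog cd3q1 cd0q1 pd0 false false false .npn 1 0 1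
    ndB3q1 ndB0q1 pcB0 Cut.none Ext.none :=
  certB0 (fam := false) (s1 := false) (s2 := false) (a := 1) (b := 0) (c := 1) (cn := .npn) (n1 := ndB3q1) (n2 := ndB0q1) (pc := pcB0) (cut := Cut.none) (xt := Ext.none) (P1 := 536870912) (W1 := 536870912) (P2 := 536870912) (W2 := 536870912) (P3 := 587336777) (W3 := 62277027) (N0 := 3) (En := eng) (mo := mog) (C1 := cd3q1) (C2 := cd0q1) (C3 := pd0)
    rfl k0_mm_101

noncomputable def f_mm_102 : ℕ → ℕ → ℕ → ℕ → Bool := onCell 536870912 536870912 0 536870912 587336777 62277027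
    (rowB 3 eng mog cd3q1 cd0q2 pd0 0 false false false .npp 1 0 2 (qsf 536870912 536870912 0 536870912 0) ndB3q1 ndB0q2 pcB0 Cut.none Ext.none)

def k0_mm_102 : ∃ t, chk3 f_mm_102 t 1 1 1 = true :=
  ⟨(l 5), by decide +kernel⟩

theorem c_mm_102 : CertB 536870912 536870912 0 536870912 587336777 62277027 3 eng mog cd3q1 cd0q2 pd0 false false false .npp 1 0 2
    ndB3q1 ndB0q2 pcB0 Cut.none Ext.none :=
  certB0 (fam := false) (s1 := false) (s2 := false) (a := 1) (b := 0) (c := 2) (cn := .npp) (n1 := ndB3q1) (n2 := ndB0q2) (pc := pcB0) (cut := Cut.none) (xt := Ext.none) (P1 := 536870912) (W1 := 536870912) (P2 := 0) (W2 := 536870912) (P3 := 587336777) (W3 := 62277027) (N0 := 3) (En := eng) (mo := mog) (C1 := cd3q1) (C2 := cd0q2) (C3 := pd0)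
    rfl k0_mm_102

noncomputable def f_mm_112 : ℕ → ℕ → ℕ → ℕ → Bool := onCell 536870912 536870912 0 536870912 587336777 62277027
    (rowB 3 eng mog cd3q1 cd0q2 pd1 0 false false false .dn 1 1 2 (qsf 536870912 536870912 0 536870912 1) ndB3q1 ndB0q2 pcB1 Cut.none Ext.none)

def k0_mm_112 : ∃ t, chk3 f_mm_112 t 1 1 1 = true :=
  ⟨(l 5), by decide +kernel⟩

theorem c_mm_112 : CertB 536870912 536870912 0 536870912 587336777 62277027 3 eng mog cd3q1 cd0q2 pd1 false false false .dn 1 1 2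
    ndB3q1 ndB0q2 pcB1 Cut.none Ext.none :=
  certB0 (fam := false) (s1 := false) (s2 := false) (a := 1) (b := 1) (c := 2) (cn := .dn) (n1 := ndB3q1) (n2 := ndB0q2) (pc := pcB1) (cut := Cut.none) (xt := Ext.none) (P1 := 536870912) (W1 := 536870912) (P2 := 0) (W2 := 536870912) (P3 := 587336777) (W3 := 62277027) (N0 := 3) (En := eng) (mo := mog) (C1 := cd3q1) (C2 := cd0q2) (C3 := pd1)
    rfl k0_mm_112

noncomputable def f_mm_202_a : ℕ → ℕ → ℕ → ℕ → Bool := onCell 0 536870912 0 536870912 587336777 62277027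
    (rowB 3 eng mog cd3q2a cd0q2 pd0 0 false false false .pp 2 0 2 (qsf 0 536870912 0 536870912 0) ndB3q2a ndB0q2 pcB0 Cut.none Ext.none)

def k0_mm_202_a : ∃ t, chk3 f_mm_202_a t 1 1 1 = true :=
  ⟨(l 3), by decide +kernel⟩

theorem c_mm_202_a : CertB 0 536870912 0 536870912 587336777 62277027 3 eng mog cd3q2a cd0q2 pd0 false false false .pp 2 0 2
    ndB3q2a ndB0q2 pcB0 Cut.none Ext.none :=
  certB0 (fam := false) (s1 := false) (s2 := false) (a := 2) (b := 0) (c := 2) (cn := .pp) (n1 := ndB3q2a) (n2 := ndB0q2) (pc := pcB0) (cut := Cut.none) (xt := Ext.none) (P1 := 0) (W1 := 536870912) (P2 := 0) (W2 := 536870912) (P3 := 587336777) (W3 := 62277027) (N0 := 3) (En := eng) (mo := mog) (C1 := cd3q2a) (C2 := cd0q2) (C3 := pd0)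
    rfl k0_mm_202_a

noncomputable def f_mm_202_b : ℕ → ℕ → ℕ → ℕ → Bool := onCell 1239849684 370763052 0 536870912 587336777 62277027
    (rowB 3 eng mog cd3q2b cd0q2 pd0 0 false false false .pp 2 0 2 (qsf 1239849684 370763052 0 536870912 0) ndB3q2b ndB0q2 pcB0 Cut.none Ext.none)

def k0_mm_202_b : ∃ t, chk3 f_mm_202_b t 1 1 1 = true :=
  ⟨(l 3), by decide +kernel⟩

theorem c_mm_202_b : CertB 1239849684 370763052 0 536870912 587336777 62277027 3 eng mog cd3q2b cd0q2 pd0 false false false .pp 2 0 2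
    ndB3q2b ndB0q2 pcB0 Cut.none Ext.none :=
  certB0 (fam := false) (s1 := false) (s2 := false) (a := 2) (b := 0) (c := 2) (cn := .pp) (n1 := ndB3q2b) (n2 := ndB0q2) (pc := pcB0) (cut := Cut.none) (xt := Ext.none) (P1 := 1239849684) (W1 := 370763052) (P2 := 0) (W2 := 536870912) (P3 := 587336777) (W3 := 62277027) (N0 := 3) (En := eng) (mo := mog) (C1 := cd3q2b) (C2 := cd0q2) (C3 := pd0)
    rfl k0_mm_202_b

end Pool.Agent.Strip051.G.I5470_6050.Tab.C.BB30

namespace Pool.Agent.Strip051.G.I5470_6050.Tab.C.BB31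

open Pool.Agent.Strip051.PB Pool.Agent.Strip051.PB.T
open Pool.Agent.Strip051.G.I5470_6050.Tab

noncomputable def f_pp_001 : ℕ → ℕ → ℕ → ℕ → Bool := onCell 0 536870912 0 536870912 587336777 62277027
    (rowB 3 eng mog cd3q0 cd1q1 pd0 1 false true true .up 0 0 1 (qsf 0 536870912 536870912 536870912 0) ndB3q0 ndB1q1 pcB0 Cut.none Ext.none)

def k0_pp_001 : ∃ t, chk3 f_pp_001 t 1 1 1 = true :=
  ⟨(l 3), by decide +kernel⟩

theorem c_pp_001 : CertB 0 536870912 536870912 536870912 587336777 62277027 3 eng mog cd3q0 cd1q1 pd0 false true true .up 0 0 1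
    ndB3q0 ndB1q1 pcB0 Cut.none Ext.none :=
  certB1 (fam := false) (s1 := true) (s2 := true) (a := 0) (b := 0) (c := 1) (cn := .up) (n1 := ndB3q0) (n2 := ndB1q1) (pc := pcB0) (cut := Cut.none) (xt := Ext.none) (P1 := 0) (W1 := 536870912) (P2 := 536870912) (W2 := 536870912) (P3 := 587336777) (W3 := 62277027) (N0 := 3) (En := eng) (mo := mog) (C1 := cd3q0) (C2 := cd1q1) (C3 := pd0)
    rfl (fun _ => rfl) k0_pp_001

noncomputable def f_pp_011 : ℕ → ℕ → ℕ → ℕ → Bool := onCell 0 536870912 536870912 536870912 587336777 62277027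
    (rowB 3 eng mog cd3q0 cd1q1 pd1 0 false true true .pnn 0 1 1 (qsf 0 536870912 536870912 536870912 1) ndB3q0 ndB1q1 pcB1 Cut.none Ext.none)

def k0_pp_011 : ∃ t, chk3 f_pp_011 t 1 1 1 = true :=
  ⟨(a (b (l 3) (l 3)) (l 3)), by decide +kernel⟩

theorem c_pp_011 : CertB 0 536870912 536870912 536870912 587336777 62277027 3 eng mog cd3q0 cd1q1 pd1 false true true .pnn 0 1 1
    ndB3q0 ndB1q1 pcB1 Cut.none Ext.none :=
  certB0 (fam := false) (s1 := true) (s2 := true) (a := 0) (b := 1) (c := 1) (cn := .pnn) (n1 := ndB3q0) (n2 := ndB1q1) (pc := pcB1) (cut := Cut.none) (xt := Ext.none) (P1 := 0) (W1 := 536870912) (P2 := 536870912) (W2 := 536870912) (P3 := 587336777) (W3 := 62277027) (N0 := 3) (En := eng) (mo := mog) (C1 := cd3q0) (C2 := cd1q1) (C3 := pd1)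
    rfl k0_pp_011

noncomputable def cut_pp_012_a : Cut := Cut.of [[⟨0, 0, 0, 33554432⟩, ⟨1, 1, 0, 33554432⟩, ⟨2, 1, 0, 33554432⟩]]

noncomputable def f_pp_012_a : ℕ → ℕ → ℕ → ℕ → Bool := onCell 536870912 536870912 0 536870912 587336777 62277027
    (rowB 3 eng mog cd3q0 cd1q2a pd1 2 false true true .pnp 0 1 2 (qsf 0 536870912 0 536870912 1) ndB3q0 ndB1q2a pcB1 cut_pp_012_a Ext.none)

def k0_pp_012_a : ∃ t, chk3 f_pp_012_a t 1 2 1 = true :=
  ⟨(a (a (b (l 2) (a (l 2) (a (l 2) (a (l 2) (b (l 2) (b (l 2) (l 16683328))))))) (b (a (b (l 16712368) (b (l 16725392) (l 16729648))) (b (l 16688352) (l 16713512))) (a (b (a (l 16720280) (l 16730512)) (a (b (b (l 16672928) (l 16665216)) (l 16712352)) (b (l 16699184) (a (l 16680184) (l 16682272))))) (b (b (l 16727600) (l 16734408)) (a (b (l 16725320) (l 16687400)) (l 16732280)))))) (a (b (a (b (l 16655504) (l 16683800)) (b (a (l 16624128) (l 16601296)) (a (l 16653248) (l 16630248)))) (a (b (a (l 16718976) (l 16704152))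 (a (l 16739120) (l 16733816))) (b (a (l 16684392) (l 16661120)) (a (l 16739616) (b (l 16687808) (l 16707224)))))) (b (b (a (l 16564696) (l 16517072)) (a (a (l 16605528) (l 16580504)) (a (l 16556312) (l 16534232)))) (a (b (a (l 16635984) (l 16610240)) (a (l 16672816) (l 16646344))) (b (a (l 16585608) (l 16563920)) (a (l 16641512) (l 16597656))))))), by decide +kernel⟩

def k1_pp_012_a : ∃ t, chk3 f_pp_012_a t 1 6 1 = true :=
  ⟨(a (a (a (l 2) (b (a (l 2) (b (b (l 203104823975) (l 3)) (l 3))) (l 3))) (a (b (a (b (a (l 128479777575) (l 106468074007)) (l 3)) (b (a (l 16708224) (l 16707808)) (l 140290974471))) (l 3)) (b (a (b (b (l 16698112) (l 16713664)) (a (l 103246893431) (l 16739912))) (b (a (l 16703696) (l 16704840)) (l 16733976))) (b (a (l 161229030487) (a (l 145122876167) (l 127943013655))) (l 3))))) (a (a (b (b (a (l 16710000) (l 16741056)) (a (a (l 16726160) (l 16723120)) (l 16827952))) (b (a (a (l 16766072) (l 16757760)) (a (l 16750216) (l 16743408)))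 (a (b (l 179482663735) (l 3)) (a (l 163376521479) (l 126869281031))))) (b (a (b (l 16741776) (l 16742904)) (l 16735760)) (a (b (l 16839640) (a (l 16768080) (l 16757904))) (b (l 16746624) (a (l 16749568) (l 16744136)))))) (a (b (a (l 16714176) (l 16687800)) (a (b (l 16743784) (l 16815456)) (b (l 16720384) (l 16742224)))) (a (a (b (l 16667480) (l 16753000)) (b (l 16675424) (l 16812224))) (b (b (l 16625752) (l 16645640)) (b (l 16686464) (a (l 16693048) (l 16679136)))))))), by decide +kernel⟩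

def k2_pp_012_a : ∃ t, chk3 f_pp_012_a t 1 7 1 = true :=
  ⟨(a (l 3) (b (a (a (a (l 3) (a (l 3) (b (l 224043020247) (l 3)))) (b (a (b (a (l 16817912) (l 16784944)) (a (l 3) (l 195052059367))) (b (l 16830752) (a (l 16833448) (l 16779672)))) (a (l 3) (b (a (l 195588852087) (l 164987275191)) (l 3))))) (a (a (b (a (l 16762096) (l 16755336)) (a (b (l 16787064) (l 188609520903)) (b (l 16776768) (l 123111330695)))) (b (a (l 16754768) (l 16757008)) (a (b (l 16768120) (l 16804584)) (l 16807344)))) (a (a (b (l 16744408) (l 16763688)) (b (l 16729624) (a (l 16755984) (l 16748800)))) (b (a (l 16714672) (l 16721104)) (a (b (l 16731416) (l 16743344)) (b (l 16716688) (a (l 16732056) (l 16724632)))))))) (a (l 3) (b (a (a (b (a (l 3) (b (l 192367622823) (l 3))) (l 3)) (a (b (b (l 102173349463) (l 190756999911)) (l 3)) (a (b (l 16810304) (l 187535778679)) (b (l 16782776) (l 176798345719))))) (a (a (b (l 16794536) (b (l 16805488) (a (l 162302854055) (l 16810096)))) (b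 (l 16766424) (a (l 16778896) (l 16772776)))) (a (b (l 16755112) (a (l 16769296) (l 16763704))) (b (a (l 16743944) (l 16736568)) (a (b (l 16753144) (l 16759464)) (a (l 16750760) (l 16747080))))))) (a (l 3) (a (b (a (a (l 3) (l 189146382775)) (b (a (l 152639160631) (l 16804664)) (a (l 3) (b (l 146733572823) (l 3))))) (l 3)) (a (b (b (a (l 16777224) (l 16771424)) (a (a (l 148881058551) (l 94657087607)) (b (l 16776096) (l 16779640)))) (b (a (b (l 142975471879) (l 3)) (b (a (l 144049208951) (l 6)) (l 6))) (l 3))) (b (a (b (l 16765832) (l 6)) (l 6)) (l 6))))))))), by decide +kernel⟩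

theorem s3_pp_012_a : ∃ t, chk3 f_pp_012_a t 1 3 1 = true := ex3_b k1_pp_012_a k2_pp_012_a

theorem s4_pp_012_a : ∃ t, chk3 f_pp_012_a t 1 1 1 = true := ex3_b k0_pp_012_a s3_pp_012_a

theorem c_pp_012_a : CertB 0 536870912 0 536870912 587336777 62277027 3 eng mog cd3q0 cd1q2a pd1 false true true .pnp 0 1 2
    ndB3q0 ndB1q2a pcB1 cut_pp_012_a Ext.none :=
  certB2 (fam := false) (s1 := true) (s2 := true) (a := 0) (b := 1) (c := 2) (cn := .pnp) (n1 := ndB3q0) (n2 := ndB1q2a) (pc := pcB1) (cut := cut_pp_012_a) (xt := Ext.none) (P1 := 0) (W1 := 536870912) (P2 := 0) (W2 := 536870912) (P3 := 587336777) (W3 := 62277027) (N0 := 3) (En := eng) (mo := mog) (C1 := cd3q0) (C2 := cd1q2a) (C3 := pd1)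
    rfl (fun _ => rfl) s4_pp_012_a

noncomputable def cut_pp_012_b : Cut := Cut.of [[⟨0, 0, 0, 33554432⟩, ⟨1, 1, 0, 33554432⟩, ⟨2, 1, 0, 33554432⟩]]

noncomputable def f_pp_012_b : ℕ → ℕ → ℕ → ℕ → Bool := onCell 536870912 536870912 1239849684 370763052 587336777 62277027
    (rowB 3 eng mog cd3q0 cd1q2b pd1 2 false true true .pnp 0 1 2 (qsf 0 536870912 1239849684 370763052 1) ndB3q0 ndB1q2b pcB1 cut_pp_012_b Ext.none)

def k0_pp_012_b : ∃ t, chk3 f_pp_012_b t 1 1 1 = true :=
  ⟨(a (a (l 2) (b (a (b (l 16696160) (l 2)) (b (l 16664040) (l 16668824))) (l 2))) (a (b (a (b (l 16620904) (l 16614280)) (b (a (l 16580976) (l 16552944)) (l 16544616))) (a (l 2) (l 16608432))) (b (b (a (b (l 16527672) (l 16491752)) (a (l 16461680) (l 16515536))) (a (l 16464624) (l 16417176))) (b (a (l 16479032) (l 16368304)) (l 16493096))))), by decide +kernel⟩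

theorem c_pp_012_b : CertB 0 536870912 1239849684 370763052 587336777 62277027 3 eng mog cd3q0 cd1q2b pd1 false true true .pnp 0 1 2
    ndB3q0 ndB1q2b pcB1 cut_pp_012_b Ext.none :=
  certB2 (fam := false) (s1 := true) (s2 := true) (a := 0) (b := 1) (c := 2) (cn := .pnp) (n1 := ndB3q0) (n2 := ndB1q2b) (pc := pcB1) (cut := cut_pp_012_b) (xt := Ext.none) (P1 := 0) (W1 := 536870912) (P2 := 1239849684) (W2 := 370763052) (P3 := 587336777) (W3 := 62277027) (N0 := 3) (En := eng) (mo := mog) (C1 := cd3q0) (C2 := cd1q2b) (C3 := pd1)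
    rfl (fun _ => rfl) k0_pp_012_b

noncomputable def cut_pp_022_a : Cut := Cut.of [[⟨0, 0, 0, 67108864⟩, ⟨1, 1, 0, 67108864⟩, ⟨2, 1, 0, 67108864⟩]]

noncomputable def f_pp_022_a : ℕ → ℕ → ℕ → ℕ → Bool := onCell 0 536870912 0 536870912 587336777 62277027
    (rowB 3 eng mog cd3q0 cd1q2a pd2 0 false true true .pp 0 2 2 (qsf 0 536870912 0 536870912 2) ndB3q0 ndB1q2a pcB2 cut_pp_022_a Ext.none)

def k0_pp_022_a : ∃ t, chk3 f_pp_022_a t 4 1 1 = true :=
  ⟨(b (b (a (a (b (a (l 16458176) (l 16464608)) (a (c (b (l 16466240) (l 16474008)) (l 16464808)) (l 16476376))) (b (l 16472920) (l 16487368))) (b (l 16483576) (l 16502632))) (b (a (a (a (b (l 16480824) (l 16502768)) (b (l 16474744) (l 16502888))) (a (l 16506256) (l 16514840))) (a (l 16525344) (l 16534920))) (a (a (b (a (a (b (l 16499288) (l 16506584)) (l 16508952)) (l 16517616)) (a (a (b (l 16514424) (l 16522888)) (l 16525320)) (l 16534864))) (b (l 16533648) (a (l 16546816) (l 16557848)))) (a (l 16624424)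 (b (l 16562240) (l 16583112)))))) (b (a (a (b (a (a (b (c (l 16541800) (b (l 16526232) (l 16536208))) (c (l 16562864) (b (l 16547064) (l 16558736)))) (b (l 16544288) (l 16566256))) (b (l 16575744) (a (l 16573936) (l 16581344)))) (a (b (a (b (l 16576120) (l 16589160)) (l 16591280)) (a (b (l 16603128) (l 16617792)) (b (l 16612264) (l 16627264)))) (b (c (l 16605992) (l 16621624)) (b (l 16625344) (l 16640808))))) (b (a (b (l 16567864) (l 16591928)) (l 16592512)) (b (a (l 16619048) (l 16630688)) (a (l 16649312) (l 16657224))))) (b (a (b (l 16593336) (l 16616536)) (b (l 78953379303) (l 102038755799))) (a (b (a (l 16637912) (l 16643992)) (a (l 67679083911) (l 289406817399))) (b (l 330208957255) (l 1))))) (b (b (a (b (a (a (a (l 16633496) (l 16643296)) (l 16657304)) (a (l 16670576) (l 16677976))) (a (a (b (a (l 16646000) (l 16656040)) (l 6)) (l 16695864)) (a (l 16685168) (l 16692152)))) (a (a (b (l 16684104) (l 333967160391)) (l 1)) (l 1))) (a (a (l 6) (a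 (l 6) (b (l 143914853479) (l 376916825319)))) (l 1))) (a (a (l 6) (a (l 6) (l 1))) (l 1))))), by decide +kernel⟩

def k1_pp_022_a : ∃ t, chk3 f_pp_022_a t 5 1 1 = true :=
  ⟨(b (a (a (b (b (l 16486120) (l 16509264)) (b (l 16561504) (b (l 16568992) (l 16590432)))) (b (l 1007739904071) (l 1))) (l 1)) (b (l 1) (l 1))), by decide +kernel⟩

def k2_pp_022_a : ∃ t, chk3 f_pp_022_a t 3 1 1 = true :=
  ⟨(l 1), by decide +kernel⟩

theorem s3_pp_022_a : ∃ t, chk3 f_pp_022_a t 2 1 1 = true := ex3_a k0_pp_022_a k1_pp_022_a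

theorem s4_pp_022_a : ∃ t, chk3 f_pp_022_a t 1 1 1 = true := ex3_a s3_pp_022_a k2_pp_022_a

theorem c_pp_022_a : CertB 0 536870912 0 536870912 587336777 62277027 3 eng mog cd3q0 cd1q2a pd2 false true true .pp 0 2 2
    ndB3q0 ndB1q2a pcB2 cut_pp_022_a Ext.none :=
  certB0 (fam := false) (s1 := true) (s2 := true) (a := 0) (b := 2) (c := 2) (cn := .pp) (n1 := ndB3q0) (n2 := ndB1q2a) (pc := pcB2) (cut := cut_pp_022_a) (xt := Ext.none) (P1 := 0) (W1 := 536870912) (P2 := 0) (W2 := 536870912) (P3 := 587336777) (W3 := 62277027) (N0 := 3) (En := eng) (mo := mog) (C1 := cd3q0) (C2 := cd1q2a) (C3 := pd2)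
    rfl s4_pp_022_a

noncomputable def cut_pp_022_b : Cut := Cut.of [[⟨0, 0, 0, 67108864⟩, ⟨1, 1, 0, 67108864⟩, ⟨2, 1, 0, 67108864⟩]]

noncomputable def f_pp_022_b : ℕ → ℕ → ℕ → ℕ → Bool := onCell 0 536870912 1073741824 536870912 587336777 62277027
    (rowB 3 eng mog cd3q0 cd1q2b pd2 1 false true true .pp 0 2 2 (qsf 0 536870912 1239849684 370763052 2) ndB3q0 ndB1q2b pcB2 cut_pp_022_b Ext.none)

def k0_pp_022_b : ∃ t, chk3 f_pp_022_b t 1 1 1 = true :=
  ⟨(b (a (a (b (a (b (l 1) (a (l 328061188039) (l 16601896))) (b (c (l 16682056) (l 16698200)) (l 16521560))) (a (b (a (b (a (l 16468776) (l 16442128)) (l 16475576)) (l 16519632)) (a (l 16497680) (l 16257808))) (b (b (l 16333192) (l 16279088)) (l 16192592)))) (b (a (b (l 16487176) (l 16330256)) (l 16372832)) (b (a (l 16261816) (l 16210000)) (l 16150920)))) (b (a (a (l 16273728) (l 16270088)) (l 16327288)) (a (b (l 16215904) (l 16196480)) (l 16331680)))) (b (a (a (b (a (a (l 16217968) (l 16174672)) (l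 16099024)) (a (a (l 16155752) (l 16120912)) (l 16059408))) (b (l 16065128) (l 15949936))) (b (l 16283064) (l 2))) (a (a (b (a (l 16163040) (l 16097704)) (a (l 16175448) (l 16150984))) (b (l 16023320) (l 2))) (l 2)))), by decide +kernel⟩

theorem c_pp_022_b : CertB 0 536870912 1239849684 370763052 587336777 62277027 3 eng mog cd3q0 cd1q2b pd2 false true true .pp 0 2 2
    ndB3q0 ndB1q2b pcB2 cut_pp_022_b Ext.none :=
  certB1 (fam := false) (s1 := true) (s2 := true) (a := 0) (b := 2) (c := 2) (cn := .pp) (n1 := ndB3q0) (n2 := ndB1q2b) (pc := pcB2) (cut := cut_pp_022_b) (xt := Ext.none) (P1 := 0) (W1 := 536870912) (P2 := 1239849684) (W2 := 370763052) (P3 := 587336777) (W3 := 62277027) (N0 := 3) (En := eng) (mo := mog) (C1 := cd3q0) (C2 := cd1q2b) (C3 := pd2)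
    rfl (fun _ => rfl) k0_pp_022_b

noncomputable def f_pp_023 : ℕ → ℕ → ℕ → ℕ → Bool := onCell 1073741824 536870912 1610612736 536870912 587336777 62277027
    (rowB 3 eng mog cd3q0 cd1q3 pd2 2 false true true .up 0 2 3 (qsf 0 536870912 1610612736 536870912 2) ndB3q0 ndB1q3 pcB2 Cut.none Ext.none)

def k0_pp_023 : ∃ t, chk3 f_pp_023 t 1 1 1 = true :=
  ⟨(a (a (b (b (l 16424168) (l 16585560)) (l 2)) (b (b (l 16311336) (l 16469096)) (b (l 16568280) (l 2)))) (a (b (b (a (l 16152376) (l 16010848)) (l 16436936)) (a (l 16593728) (l 16605600))) (b (b (a (l 16027472) (l 16328456)) (a (l 16317048) (l 16329136))) (l 16786136)))), by decide +kernel⟩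

theorem c_pp_023 : CertB 0 536870912 1610612736 536870912 587336777 62277027 3 eng mog cd3q0 cd1q3 pd2 false true true .up 0 2 3
    ndB3q0 ndB1q3 pcB2 Cut.none Ext.none :=
  certB2 (fam := false) (s1 := true) (s2 := true) (a := 0) (b := 2) (c := 3) (cn := .up) (n1 := ndB3q0) (n2 := ndB1q3) (pc := pcB2) (cut := Cut.none) (xt := Ext.none) (P1 := 0) (W1 := 536870912) (P2 := 1610612736) (W2 := 536870912) (P3 := 587336777) (W3 := 62277027) (N0 := 3) (En := eng) (mo := mog) (C1 := cd3q0) (C2 := cd1q3) (C3 := pd2)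
    rfl (fun _ => rfl) k0_pp_023

noncomputable def f_pp_033 : ℕ → ℕ → ℕ → ℕ → Bool := onCell 0 536870912 1610612736 536870912 587336777 62277027
    (rowB 3 eng mog cd3q0 cd1q3 pd3 1 false true true .pnn 0 3 3 (qsf 0 536870912 1610612736 536870912 3) ndB3q0 ndB1q3 pcB3 Cut.none Ext.none)

def k0_pp_033 : ∃ t, chk3 f_pp_033 t 1 1 1 = true :=
  ⟨(a (b (b (b (a (l 16173240) (l 16393912)) (a (a (l 16264392) (l 16352280)) (l 16483112))) (a (b (b (l 16390544) (l 4)) (l 4)) (l 4))) (b (l 4) (a (l 4) (a (b (l 4) (l 2)) (l 2))))) (b (b (b (l 16634320) (l 16672208)) (a (l 4) (a (b (l 4) (l 2)) (l 2)))) (a (b (a (b (l 4) (l 2)) (l 2)) (l 2)) (l 2)))), by decide +kernel⟩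

theorem c_pp_033 : CertB 0 536870912 1610612736 536870912 587336777 62277027 3 eng mog cd3q0 cd1q3 pd3 false true true .pnn 0 3 3
    ndB3q0 ndB1q3 pcB3 Cut.none Ext.none :=
  certB1 (fam := false) (s1 := true) (s2 := true) (a := 0) (b := 3) (c := 3) (cn := .pnn) (n1 := ndB3q0) (n2 := ndB1q3) (pc := pcB3) (cut := Cut.none) (xt := Ext.none) (P1 := 0) (W1 := 536870912) (P2 := 1610612736) (W2 := 536870912) (P3 := 587336777) (W3 := 62277027) (N0 := 3) (En := eng) (mo := mog) (C1 := cd3q0) (C2 := cd1q3) (C3 := pd3)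
    rfl (fun _ => rfl) k0_pp_033

noncomputable def f_pp_101 : ℕ → ℕ → ℕ → ℕ → Bool := onCell 536870912 536870912 536870912 536870912 587336777 62277027
    (rowB 3 eng mog cd3q1 cd1q1 pd0 0 false true true .npn 1 0 1 (qsf 536870912 536870912 536870912 536870912 0) ndB3q1 ndB1q1 pcB0 Cut.none Ext.none)

def k0_pp_101 : ∃ t, chk3 f_pp_101 t 1 1 1 = true :=
  ⟨(l 3), by decide +kernel⟩

theorem c_pp_101 : CertB 536870912 536870912 536870912 536870912 587336777 62277027 3 eng mog cd3q1 cd1q1 pd0 false true true .npn 1 0 1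
    ndB3q1 ndB1q1 pcB0 Cut.none Ext.none :=
  certB0 (fam := false) (s1 := true) (s2 := true) (a := 1) (b := 0) (c := 1) (cn := .npn) (n1 := ndB3q1) (n2 := ndB1q1) (pc := pcB0) (cut := Cut.none) (xt := Ext.none) (P1 := 536870912) (W1 := 536870912) (P2 := 536870912) (W2 := 536870912) (P3 := 587336777) (W3 := 62277027) (N0 := 3) (En := eng) (mo := mog) (C1 := cd3q1) (C2 := cd1q1) (C3 := pd0)
    rfl k0_pp_101

noncomputable def f_pp_102_a : ℕ → ℕ → ℕ → ℕ → Bool := onCell 0 536870912 0 536870912 587336777 62277027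
    (rowB 3 eng mog cd3q1 cd1q2a pd0 2 false true true .npp 1 0 2 (qsf 536870912 536870912 0 536870912 0) ndB3q1 ndB1q2a pcB0 Cut.none Ext.none)

def k0_pp_102_a : ∃ t, chk3 f_pp_102_a t 1 1 1 = true :=
  ⟨(b (a (a (l 3) (l 3)) (b (a (a (b (a (l 3) (b (a (l 163912996935) (l 162839342487)) (l 3))) (l 3)) (b (a (b (a (b (l 16583736) (l 16578656)) (b (l 16593504) (l 16588288))) (a (b (l 199883346599) (l 3)) (b (l 173039858455) (l 193440905863)))) (b (a (b (l 16603528) (l 16598088)) (b (l 16613360) (l 16607552))) (a (b (l 16592848) (l 207399566359)) (b (l 16602312) (l 16597096))))) (a (l 3) (b (a (l 3) (b (l 198272769863) (l 3))) (l 3))))) (a (b (b (l 16633440) (a (a (b (l 16611384) (l 16606048)) (b (l 16620456) (l 16614800))) (b (l 16633208) (l 16627200)))) (a (b (a (b (l 186461665831) (l 191293455831)) (b (l 16609344) (l 188609159719))) (a (l 3) (b (l 184851010919) (l 3)))) (b (b (l 16621560) (a (l 16611728) (l 16619464))) (a (b (l 180556056663) (l 3))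 (b (l 16613136) (l 191830347415)))))) (b (b (l 16664824) (l 16653952)) (a (b (b (l 16637376) (l 16631056)) (b (a (l 16620632) (l 16628368)) (a (l 164986844807) (l 16620728)))) (b (l 16649456) (a (l 16632192) (l 16639408))))))) (a (l 3) (a (l 3) (b (a (b (b (a (l 194514701607) (l 160155004359)) (l 197735919767)) (l 3)) (b (a (l 152101948583) (l 16622632)) (a (l 3) (l 193977819431)))) (l 3)))))) (a (l 3) (l 3))), by decide +kernel⟩

theorem c_pp_102_a : CertB 536870912 536870912 0 536870912 587336777 62277027 3 eng mog cd3q1 cd1q2a pd0 false true true .npp 1 0 2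
    ndB3q1 ndB1q2a pcB0 Cut.none Ext.none :=
  certB2 (fam := false) (s1 := true) (s2 := true) (a := 1) (b := 0) (c := 2) (cn := .npp) (n1 := ndB3q1) (n2 := ndB1q2a) (pc := pcB0) (cut := Cut.none) (xt := Ext.none) (P1 := 536870912) (W1 := 536870912) (P2 := 0) (W2 := 536870912) (P3 := 587336777) (W3 := 62277027) (N0 := 3) (En := eng) (mo := mog) (C1 := cd3q1) (C2 := cd1q2a) (C3 := pd0)
    rfl (fun _ => rfl) k0_pp_102_a

noncomputable def f_pp_102_b : ℕ → ℕ → ℕ → ℕ → Bool := onCell 536870912 536870912 0 536870912 587336777 62277027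
    (rowB 3 eng mog cd3q1 cd1q2b pd0 1 false true true .npp 1 0 2 (qsf 536870912 536870912 1239849684 370763052 0) ndB3q1 ndB1q2b pcB0 Cut.none Ext.none)

def k0_pp_102_b : ∃ t, chk3 f_pp_102_b t 1 1 1 = true :=
  ⟨(a (b (l 1) (b (l 1) (a (l 1) (b (a (l 1) (l 16685496)) (a (l 16687960) (l 16648016)))))) (a (b (l 1) (b (b (a (l 1) (b (a (l 1) (a (l 1) (b (l 1) (l 16577056)))) (a (a (l 1) (l 16600424)) (b (l 16575168) (l 16563856))))) (a (b (l 16644496) (l 16626728)) (b (a (l 16589256) (l 16549464)) (a (l 16573240) (l 16535504))))) (b (a (l 16608224) (a (l 16559600) (b (l 16527304) (l 16524880)))) (a (l 16601312) (l 16547672))))) (b (l 3) (a (b (b (b (l 3) (a (b (l 16553328) (l 16521264)) (l 3))) (b (a (l 134921945143) (l 3)) (a (l 16495864) (l 326584859079)))) (b (b (a (l 16490368) (l 16452424)) (a (l 16490704) (l 16454264))) (b (a (l 16497160) (l 16463832)) (a (l 16511560) (l 16481592))))) (b (l 3) (b (b (l 3) (a (l 205251970423) (l 3))) (b (a (l 16428640)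 (l 3)) (a (l 16448736) (l 231021781815))))))))), by decide +kernel⟩

theorem c_pp_102_b : CertB 536870912 536870912 1239849684 370763052 587336777 62277027 3 eng mog cd3q1 cd1q2b pd0 false true true .npp 1 0 2
    ndB3q1 ndB1q2b pcB0 Cut.none Ext.none :=
  certB1 (fam := false) (s1 := true) (s2 := true) (a := 1) (b := 0) (c := 2) (cn := .npp) (n1 := ndB3q1) (n2 := ndB1q2b) (pc := pcB0) (cut := Cut.none) (xt := Ext.none) (P1 := 536870912) (W1 := 536870912) (P2 := 1239849684) (W2 := 370763052) (P3 := 587336777) (W3 := 62277027) (N0 := 3) (En := eng) (mo := mog) (C1 := cd3q1) (C2 := cd1q2b) (C3 := pd0)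
    rfl (fun _ => rfl) k0_pp_102_b

noncomputable def f_pp_112_a : ℕ → ℕ → ℕ → ℕ → Bool := onCell 536870912 536870912 0 536870912 587336777 62277027
    (rowB 3 eng mog cd3q1 cd1q2a pd1 2 false true true .dn 1 1 2 (qsf 536870912 536870912 0 536870912 1) ndB3q1 ndB1q2a pcB1 Cut.none Ext.none)

def k0_pp_112_a : ∃ t, chk3 f_pp_112_a t 1 1 1 = true :=
  ⟨(a (b (a (b (a (b (b (l 16682664) (l 16679960)) (a (b (l 16669256) (a (l 16655584) (l 16662688))) (l 16676792))) (b (l 16691032) (b (l 16690704) (l 16687272)))) (a (b (a (b (a (l 16638760) (l 16647256)) (a (b (l 16616104) (l 176797942055)) (l 92509224567))) (b (b (l 16662728) (l 16654232)) (b (l 16641992) (l 16625568)))) (a (l 3) (b (b (l 118279140423) (l 139216951479)) (l 3)))) (b (b (l 16679112) (a (b (l 16659624) (l 16647040)) (l 16669720))) (a (b (b (l 16629512) (l 87140624903)) (b (a (l 134921926919) (l 16583544)) (l 3))) (b (b (l 16651512) (l 16632360)) (b (l 39359119639) (a (l 141901353767) (l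 16581648)))))))) (a (b (b (l 16684272) (b (l 16691832) (l 63384284503))) (a (b (l 16687072) (b (b (l 16668008) (l 16675032)) (l 376379919415))) (l 1))) (l 1))) (b (a (a (l 3) (a (l 3) (a (l 3) (a (l 3) (a (l 3) (l 1)))))) (l 1)) (l 3))) (l 1)), by decide +kernel⟩

theorem c_pp_112_a : CertB 536870912 536870912 0 536870912 587336777 62277027 3 eng mog cd3q1 cd1q2a pd1 false true true .dn 1 1 2
    ndB3q1 ndB1q2a pcB1 Cut.none Ext.none :=
  certB2 (fam := false) (s1 := true) (s2 := true) (a := 1) (b := 1) (c := 2) (cn := .dn) (n1 := ndB3q1) (n2 := ndB1q2a) (pc := pcB1) (cut := Cut.none) (xt := Ext.none) (P1 := 536870912) (W1 := 536870912) (P2 := 0) (W2 := 536870912) (P3 := 587336777) (W3 := 62277027) (N0 := 3) (En := eng) (mo := mog) (C1 := cd3q1) (C2 := cd1q2a) (C3 := pd1)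
    rfl (fun _ => rfl) k0_pp_112_a

noncomputable def f_pp_112_b : ℕ → ℕ → ℕ → ℕ → Bool := onCell 536870912 536870912 1239849684 370763052 587336777 62277027
    (rowB 3 eng mog cd3q1 cd1q2b pd1 2 false true true .dn 1 1 2 (qsf 536870912 536870912 1239849684 370763052 1) ndB3q1 ndB1q2b pcB1 Cut.none Ext.none)

def k0_pp_112_b : ∃ t, chk3 f_pp_112_b t 1 1 1 = true :=
  ⟨(a (a (b (a (b (l 16671936) (l 16649704)) (b (l 16683448) (l 16685904))) (a (b (a (l 16596264) (l 16642584)) (a (b (a (l 16521760) (l 16553368)) (a (l 16477488) (l 16520088))) (b (l 16614664) (l 16572456)))) (b (l 16698936) (a (l 16675376) (l 16745848))))) (a (b (b (l 16677112) (l 16695792)) (b (l 16747904) (l 16827856))) (b (l 245383792679) (l 16810112)))) (b (a (b (l 1) (l 278132863223)) (l 1)) (a (a (l 16776760) (l 16700848)) (l 299070601111)))), by decide +kernel⟩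

theorem c_pp_112_b : CertB 536870912 536870912 1239849684 370763052 587336777 62277027 3 eng mog cd3q1 cd1q2b pd1 false true true .dn 1 1 2
    ndB3q1 ndB1q2b pcB1 Cut.none Ext.none :=
  certB2 (fam := false) (s1 := true) (s2 := true) (a := 1) (b := 1) (c := 2) (cn := .dn) (n1 := ndB3q1) (n2 := ndB1q2b) (pc := pcB1) (cut := Cut.none) (xt := Ext.none) (P1 := 536870912) (W1 := 536870912) (P2 := 1239849684) (W2 := 370763052) (P3 := 587336777) (W3 := 62277027) (N0 := 3) (En := eng) (mo := mog) (C1 := cd3q1) (C2 := cd1q2b) (C3 := pd1)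
    rfl (fun _ => rfl) k0_pp_112_b

noncomputable def f_pp_113 : ℕ → ℕ → ℕ → ℕ → Bool := onCell 536870912 536870912 536870912 536870912 587336777 62277027
    (rowB 3 eng mog cd3q1 cd1q3 pd1 1 false true true .nn 1 1 3 (qsf 536870912 536870912 1610612736 536870912 1) ndB3q1 ndB1q3 pcB1 Cut.none Ext.none)

def k0_pp_113 : ∃ t, chk3 f_pp_113 t 1 1 1 = true :=
  ⟨(b (b (a (l 1) (a (b (l 1) (l 16702408)) (b (a (b (l 1) (l 16594656)) (b (a (l 16497800) (l 16447264)) (l 16534608))) (a (l 16695584) (b (l 16602440) (l 16680152)))))) (a (a (l 1) (l 16759464)) (a (b (l 16835064) (l 17056072)) (b (b (l 16794968) (l 16853184)) (l 16734720))))) (a (b (a (l 284038438727) (l 16974768)) (a (l 16733272) (l 17009096))) (b (a (l 17240368) (b (l 16962408) (l 16995680))) (a (l 17046616) (l 16968184))))), by decide +kernel⟩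

theorem c_pp_113 : CertB 536870912 536870912 1610612736 536870912 587336777 62277027 3 eng mog cd3q1 cd1q3 pd1 false true true .nn 1 1 3
    ndB3q1 ndB1q3 pcB1 Cut.none Ext.none :=
  certB1 (fam := false) (s1 := true) (s2 := true) (a := 1) (b := 1) (c := 3) (cn := .nn) (n1 := ndB3q1) (n2 := ndB1q3) (pc := pcB1) (cut := Cut.none) (xt := Ext.none) (P1 := 536870912) (W1 := 536870912) (P2 := 1610612736) (W2 := 536870912) (P3 := 587336777) (W3 := 62277027) (N0 := 3) (En := eng) (mo := mog) (C1 := cd3q1) (C2 := cd1q3) (C3 := pd1)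
    rfl (fun _ => rfl) k0_pp_113

noncomputable def f_pp_123 : ℕ → ℕ → ℕ → ℕ → Bool := onCell 1073741824 536870912 1610612736 536870912 587336777 62277027
    (rowB 3 eng mog cd3q1 cd1q3 pd2 2 false true true .npn 1 2 3 (qsf 536870912 536870912 1610612736 536870912 2) ndB3q1 ndB1q3 pcB2 Cut.none Ext.none)

def k0_pp_123 : ∃ t, chk3 f_pp_123 t 1 1 1 = true :=
  ⟨(a (a (b (b (l 16599616) (l 16806616)) (b (l 16845832) (l 16776912))) (b (b (l 16492256) (l 16619064)) (b (l 16691872) (a (l 16698112) (l 16680592))))) (a (b (b (l 1) (l 16562856)) (b (l 16642632) (l 16675024))) (b (l 1) (l 399465821639)))), by decide +kernel⟩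

theorem c_pp_123 : CertB 536870912 536870912 1610612736 536870912 587336777 62277027 3 eng mog cd3q1 cd1q3 pd2 false true true .npn 1 2 3
    ndB3q1 ndB1q3 pcB2 Cut.none Ext.none :=
  certB2 (fam := false) (s1 := true) (s2 := true) (a := 1) (b := 2) (c := 3) (cn := .npn) (n1 := ndB3q1) (n2 := ndB1q3) (pc := pcB2) (cut := Cut.none) (xt := Ext.none) (P1 := 536870912) (W1 := 536870912) (P2 := 1610612736) (W2 := 536870912) (P3 := 587336777) (W3 := 62277027) (N0 := 3) (En := eng) (mo := mog) (C1 := cd3q1) (C2 := cd1q3) (C3 := pd2)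
    rfl (fun _ => rfl) k0_pp_123

noncomputable def f_pp_133 : ℕ → ℕ → ℕ → ℕ → Bool := onCell 1610612736 536870912 1610612736 536870912 587336777 62277027
    (rowB 3 eng mog cd3q1 cd1q3 pd3 2 false true true .dn 1 3 3 (qsf 536870912 536870912 1610612736 536870912 3) ndB3q1 ndB1q3 pcB3 Cut.none Ext.none)

def k0_pp_133 : ∃ t, chk3 f_pp_133 t 1 1 1 = true :=
  ⟨(a (b (l 1) (a (a (l 16692600) (l 1)) (l 1))) (l 1)), by decide +kernel⟩

theorem c_pp_133 : CertB 536870912 536870912 1610612736 536870912 587336777 62277027 3 eng mog cd3q1 cd1q3 pd3 false true true .dn 1 3 3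
    ndB3q1 ndB1q3 pcB3 Cut.none Ext.none :=
  certB2 (fam := false) (s1 := true) (s2 := true) (a := 1) (b := 3) (c := 3) (cn := .dn) (n1 := ndB3q1) (n2 := ndB1q3) (pc := pcB3) (cut := Cut.none) (xt := Ext.none) (P1 := 536870912) (W1 := 536870912) (P2 := 1610612736) (W2 := 536870912) (P3 := 587336777) (W3 := 62277027) (N0 := 3) (En := eng) (mo := mog) (C1 := cd3q1) (C2 := cd1q3) (C3 := pd3)
    rfl (fun _ => rfl) k0_pp_133

noncomputable def f_pp_202_aa : ℕ → ℕ → ℕ → ℕ → Bool := onCell 0 536870912 0 536870912 587336777 62277027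
    (rowB 3 eng mog cd3q2a cd1q2a pd0 0 false true true .pp 2 0 2 (qsf 0 536870912 0 536870912 0) ndB3q2a ndB1q2a pcB0 Cut.none Ext.none)

def k0_pp_202_aa : ∃ t, chk3 f_pp_202_aa t 1 1 1 = true :=
  ⟨(l 3), by decide +kernel⟩

theorem c_pp_202_aa : CertB 0 536870912 0 536870912 587336777 62277027 3 eng mog cd3q2a cd1q2a pd0 false true true .pp 2 0 2
    ndB3q2a ndB1q2a pcB0 Cut.none Ext.none :=
  certB0 (fam := false) (s1 := true) (s2 := true) (a := 2) (b := 0) (c := 2) (cn := .pp) (n1 := ndB3q2a) (n2 := ndB1q2a) (pc := pcB0) (cut := Cut.none) (xt := Ext.none) (P1 := 0) (W1 := 536870912) (P2 := 0) (W2 := 536870912) (P3 := 587336777) (W3 := 62277027) (N0 := 3) (En := eng) (mo := mog) (C1 := cd3q2a) (C2 := cd1q2a) (C3 := pd0)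
    rfl k0_pp_202_aa

noncomputable def f_pp_202_ab : ℕ → ℕ → ℕ → ℕ → Bool := onCell 0 536870912 1239849684 370763052 587336777 62277027
    (rowB 3 eng mog cd3q2a cd1q2b pd0 0 false true true .pp 2 0 2 (qsf 0 536870912 1239849684 370763052 0) ndB3q2a ndB1q2b pcB0 Cut.none Ext.none)

def k0_pp_202_ab : ∃ t, chk3 f_pp_202_ab t 1 1 1 = true :=
  ⟨(l 3), by decide +kernel⟩

theorem c_pp_202_ab : CertB 0 536870912 1239849684 370763052 587336777 62277027 3 eng mog cd3q2a cd1q2b pd0 false true true .pp 2 0 2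
    ndB3q2a ndB1q2b pcB0 Cut.none Ext.none :=
  certB0 (fam := false) (s1 := true) (s2 := true) (a := 2) (b := 0) (c := 2) (cn := .pp) (n1 := ndB3q2a) (n2 := ndB1q2b) (pc := pcB0) (cut := Cut.none) (xt := Ext.none) (P1 := 0) (W1 := 536870912) (P2 := 1239849684) (W2 := 370763052) (P3 := 587336777) (W3 := 62277027) (N0 := 3) (En := eng) (mo := mog) (C1 := cd3q2a) (C2 := cd1q2b) (C3 := pd0)
    rfl k0_pp_202_ab

noncomputable def f_pp_202_ba : ℕ → ℕ → ℕ → ℕ → Bool := onCell 1239849684 370763052 0 536870912 587336777 62277027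
    (rowB 3 eng mog cd3q2b cd1q2a pd0 0 false true true .pp 2 0 2 (qsf 1239849684 370763052 0 536870912 0) ndB3q2b ndB1q2a pcB0 Cut.none Ext.none)

def k0_pp_202_ba : ∃ t, chk3 f_pp_202_ba t 1 1 1 = true :=
  ⟨(l 3), by decide +kernel⟩

theorem c_pp_202_ba : CertB 1239849684 370763052 0 536870912 587336777 62277027 3 eng mog cd3q2b cd1q2a pd0 false true true .pp 2 0 2
    ndB3q2b ndB1q2a pcB0 Cut.none Ext.none :=
  certB0 (fam := false) (s1 := true) (s2 := true) (a := 2) (b := 0) (c := 2) (cn := .pp) (n1 := ndB3q2b) (n2 := ndB1q2a) (pc := pcB0) (cut := Cut.none) (xt := Ext.none) (P1 := 1239849684) (W1 := 370763052) (P2 := 0) (W2 := 536870912) (P3 := 587336777) (W3 := 62277027) (N0 := 3) (En := eng) (mo := mog) (C1 := cd3q2b) (C2 := cd1q2a) (C3 := pd0)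
    rfl k0_pp_202_ba

noncomputable def f_pp_202_bb : ℕ → ℕ → ℕ → ℕ → Bool := onCell 1239849684 370763052 1239849684 370763052 587336777 62277027
    (rowB 3 eng mog cd3q2b cd1q2b pd0 0 false true true .pp 2 0 2 (qsf 1239849684 370763052 1239849684 370763052 0) ndB3q2b ndB1q2b pcB0 Cut.none Ext.none)

def k0_pp_202_bb : ∃ t, chk3 f_pp_202_bb t 1 1 1 = true :=
  ⟨(l 3), by decide +kernel⟩

theorem c_pp_202_bb : CertB 1239849684 370763052 1239849684 370763052 587336777 62277027 3 eng mog cd3q2b cd1q2b pd0 false true true .pp 2 0 2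
    ndB3q2b ndB1q2b pcB0 Cut.none Ext.none :=
  certB0 (fam := false) (s1 := true) (s2 := true) (a := 2) (b := 0) (c := 2) (cn := .pp) (n1 := ndB3q2b) (n2 := ndB1q2b) (pc := pcB0) (cut := Cut.none) (xt := Ext.none) (P1 := 1239849684) (W1 := 370763052) (P2 := 1239849684) (W2 := 370763052) (P3 := 587336777) (W3 := 62277027) (N0 := 3) (En := eng) (mo := mog) (C1 := cd3q2b) (C2 := cd1q2b) (C3 := pd0)
    rfl k0_pp_202_bb

noncomputable def f_pp_203_a : ℕ → ℕ → ℕ → ℕ → Bool := onCell 0 536870912 0 536870912 587336777 62277027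
    (rowB 3 eng mog cd3q2a cd1q3 pd0 1 false true true .up 2 0 3 (qsf 0 536870912 1610612736 536870912 0) ndB3q2a ndB1q3 pcB0 Cut.none Ext.none)

def k0_pp_203_a : ∃ t, chk3 f_pp_203_a t 1 1 1 = true :=
  ⟨(l 3), by decide +kernel⟩

theorem c_pp_203_a : CertB 0 536870912 1610612736 536870912 587336777 62277027 3 eng mog cd3q2a cd1q3 pd0 false true true .up 2 0 3
    ndB3q2a ndB1q3 pcB0 Cut.none Ext.none :=
  certB1 (fam := false) (s1 := true) (s2 := true) (a := 2) (b := 0) (c := 3) (cn := .up) (n1 := ndB3q2a) (n2 := ndB1q3) (pc := pcB0) (cut := Cut.none) (xt := Ext.none) (P1 := 0) (W1 := 536870912) (P2 := 1610612736) (W2 := 536870912) (P3 := 587336777) (W3 := 62277027) (N0 := 3) (En := eng) (mo := mog) (C1 := cd3q2a) (C2 := cd1q3) (C3 := pd0)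
    rfl (fun _ => rfl) k0_pp_203_a

noncomputable def f_pp_203_b : ℕ → ℕ → ℕ → ℕ → Bool := onCell 1239849684 370763052 1610612736 536870912 587336777 62277027
    (rowB 3 eng mog cd3q2b cd1q3 pd0 0 false true true .up 2 0 3 (qsf 1239849684 370763052 1610612736 536870912 0) ndB3q2b ndB1q3 pcB0 Cut.none Ext.none)

def k0_pp_203_b : ∃ t, chk3 f_pp_203_b t 1 1 1 = true :=
  ⟨(l 3), by decide +kernel⟩

theorem c_pp_203_b : CertB 1239849684 370763052 1610612736 536870912 587336777 62277027 3 eng mog cd3q2b cd1q3 pd0 false true true .up 2 0 3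
    ndB3q2b ndB1q3 pcB0 Cut.none Ext.none :=
  certB0 (fam := false) (s1 := true) (s2 := true) (a := 2) (b := 0) (c := 3) (cn := .up) (n1 := ndB3q2b) (n2 := ndB1q3) (pc := pcB0) (cut := Cut.none) (xt := Ext.none) (P1 := 1239849684) (W1 := 370763052) (P2 := 1610612736) (W2 := 536870912) (P3 := 587336777) (W3 := 62277027) (N0 := 3) (En := eng) (mo := mog) (C1 := cd3q2b) (C2 := cd1q3) (C3 := pd0)
    rfl k0_pp_203_b

noncomputable def cut_pp_213_a : Cut := Cut.of [[⟨0, 1, 0, 67108864⟩, ⟨1, 1, 0, 67108864⟩, ⟨2, 2, 0, 16777216⟩]]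

noncomputable def f_pp_213_a : ℕ → ℕ → ℕ → ℕ → Bool := onCell 0 536870912 1610612736 536870912 587336777 62277027
    (rowB 3 eng mog cd3q2a cd1q3 pd1 0 false true true .pnn 2 1 3 (qsf 0 536870912 1610612736 536870912 1) ndB3q2a ndB1q3 pcB1 cut_pp_213_a Ext.none)

def k0_pp_213_a : ∃ t, chk3 f_pp_213_a t 1 1 1 = true :=
  ⟨(b (l 3) (b (l 3) (a (l 3) (a (l 3) (b (l 3) (a (l 3) (b (l 3) (b (l 3) (b (l 3) (l 6)))))))))), by decide +kernel⟩

theorem c_pp_213_a : CertB 0 536870912 1610612736 536870912 587336777 62277027 3 eng mog cd3q2a cd1q3 pd1 false true true .pnn 2 1 3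
    ndB3q2a ndB1q3 pcB1 cut_pp_213_a Ext.none :=
  certB0 (fam := false) (s1 := true) (s2 := true) (a := 2) (b := 1) (c := 3) (cn := .pnn) (n1 := ndB3q2a) (n2 := ndB1q3) (pc := pcB1) (cut := cut_pp_213_a) (xt := Ext.none) (P1 := 0) (W1 := 536870912) (P2 := 1610612736) (W2 := 536870912) (P3 := 587336777) (W3 := 62277027) (N0 := 3) (En := eng) (mo := mog) (C1 := cd3q2a) (C2 := cd1q3) (C3 := pd1)
    rfl k0_pp_213_a

noncomputable def cut_pp_213_b : Cut := Cut.of [[⟨0, 1, 0, 67108864⟩, ⟨1, 1, 0, 67108864⟩, ⟨2, 2, 0, 16777216⟩]]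

noncomputable def f_pp_213_b : ℕ → ℕ → ℕ → ℕ → Bool := onCell 1239849684 370763052 1610612736 536870912 587336777 62277027
    (rowB 3 eng mog cd3q2b cd1q3 pd1 0 false true true .pnn 2 1 3 (qsf 1239849684 370763052 1610612736 536870912 1) ndB3q2b ndB1q3 pcB1 cut_pp_213_b Ext.none)

def k0_pp_213_b : ∃ t, chk3 f_pp_213_b t 1 1 1 = true :=
  ⟨(l 3), by decide +kernel⟩

theorem c_pp_213_b : CertB 1239849684 370763052 1610612736 536870912 587336777 62277027 3 eng mog cd3q2b cd1q3 pd1 false true true .pnn 2 1 3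
    ndB3q2b ndB1q3 pcB1 cut_pp_213_b Ext.none :=
  certB0 (fam := false) (s1 := true) (s2 := true) (a := 2) (b := 1) (c := 3) (cn := .pnn) (n1 := ndB3q2b) (n2 := ndB1q3) (pc := pcB1) (cut := cut_pp_213_b) (xt := Ext.none) (P1 := 1239849684) (W1 := 370763052) (P2 := 1610612736) (W2 := 536870912) (P3 := 587336777) (W3 := 62277027) (N0 := 3) (En := eng) (mo := mog) (C1 := cd3q2b) (C2 := cd1q3) (C3 := pd1)
    rfl k0_pp_213_b

noncomputable def f_pp_303 : ℕ → ℕ → ℕ → ℕ → Bool := onCell 1610612736 536870912 1610612736 536870912 587336777 62277027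
    (rowB 3 eng mog cd3q3 cd1q3 pd0 0 false true true .npn 3 0 3 (qsf 1610612736 536870912 1610612736 536870912 0) ndB3q3 ndB1q3 pcB0 Cut.none Ext.none)

def k0_pp_303 : ∃ t, chk3 f_pp_303 t 1 1 1 = true :=
  ⟨(l 3), by decide +kernel⟩

theorem c_pp_303 : CertB 1610612736 536870912 1610612736 536870912 587336777 62277027 3 eng mog cd3q3 cd1q3 pd0 false true true .npn 3 0 3
    ndB3q3 ndB1q3 pcB0 Cut.none Ext.none :=
  certB0 (fam := false) (s1 := true) (s2 := true) (a := 3) (b := 0) (c := 3) (cn := .npn) (n1 := ndB3q3) (n2 := ndB1q3) (pc := pcB0) (cut := Cut.none) (xt := Ext.none) (P1 := 1610612736) (W1 := 536870912) (P2 := 1610612736) (W2 := 536870912) (P3 := 587336777) (W3 := 62277027) (N0 := 3) (En := eng) (mo := mog) (C1 := cd3q3) (C2 := cd1q3) (C3 := pd0)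
    rfl k0_pp_303

noncomputable def f_pp_313 : ℕ → ℕ → ℕ → ℕ → Bool := onCell 1610612736 536870912 1610612736 536870912 587336777 62277027
    (rowB 3 eng mog cd3q3 cd1q3 pd1 0 false true true .dn 3 1 3 (qsf 1610612736 536870912 1610612736 536870912 1) ndB3q3 ndB1q3 pcB1 Cut.none Ext.none)

def k0_pp_313 : ∃ t, chk3 f_pp_313 t 1 1 1 = true :=
  ⟨(l 3), by decide +kernel⟩

theorem c_pp_313 : CertB 1610612736 536870912 1610612736 536870912 587336777 62277027 3 eng mog cd3q3 cd1q3 pd1 false true true .dn 3 1 3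
    ndB3q3 ndB1q3 pcB1 Cut.none Ext.none :=
  certB0 (fam := false) (s1 := true) (s2 := true) (a := 3) (b := 1) (c := 3) (cn := .dn) (n1 := ndB3q3) (n2 := ndB1q3) (pc := pcB1) (cut := Cut.none) (xt := Ext.none) (P1 := 1610612736) (W1 := 536870912) (P2 := 1610612736) (W2 := 536870912) (P3 := 587336777) (W3 := 62277027) (N0 := 3) (En := eng) (mo := mog) (C1 := cd3q3) (C2 := cd1q3) (C3 := pd1)
    rfl k0_pp_313

noncomputable def f_pm_001 : ℕ → ℕ → ℕ → ℕ → Bool := onCell 0 536870912 536870912 536870912 587336777 62277027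
    (rowB 3 eng mog cd3q0 cd1q1 pd0 0 false true false .up 0 0 1 (qsf 0 536870912 536870912 536870912 0) ndB3q0 ndB1q1 pcB0 Cut.none Ext.none)

def k0_pm_001 : ∃ t, chk3 f_pm_001 t 1 1 1 = true :=
  ⟨(b (l 4) (a (l 4) (a (l 4) (l 4)))), by decide +kernel⟩

theorem c_pm_001 : CertB 0 536870912 536870912 536870912 587336777 62277027 3 eng mog cd3q0 cd1q1 pd0 false true false .up 0 0 1
    ndB3q0 ndB1q1 pcB0 Cut.none Ext.none :=
  certB0 (fam := false) (s1 := true) (s2 := false) (a := 0) (b := 0) (c := 1) (cn := .up) (n1 := ndB3q0) (n2 := ndB1q1) (pc := pcB0) (cut := Cut.none) (xt := Ext.none) (P1 := 0) (W1 := 536870912) (P2 := 536870912) (W2 := 536870912) (P3 := 587336777) (W3 := 62277027) (N0 := 3) (En := eng) (mo := mog) (C1 := cd3q0) (C2 := cd1q1) (C3 := pd0)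
    rfl k0_pm_001

noncomputable def f_pm_011 : ℕ → ℕ → ℕ → ℕ → Bool := onCell 0 536870912 536870912 536870912 587336777 62277027
    (rowB 3 eng mog cd3q0 cd1q1 pd1 0 false true false .pnn 0 1 1 (qsf 0 536870912 536870912 536870912 1) ndB3q0 ndB1q1 pcB1 Cut.none Ext.none)

def k0_pm_011 : ∃ t, chk3 f_pm_011 t 1 1 1 = true :=
  ⟨(b (l 4) (a (l 4) (b (l 4) (l 4)))), by decide +kernel⟩

theorem c_pm_011 : CertB 0 536870912 536870912 536870912 587336777 62277027 3 eng mog cd3q0 cd1q1 pd1 false true false .pnn 0 1 1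
    ndB3q0 ndB1q1 pcB1 Cut.none Ext.none :=
  certB0 (fam := false) (s1 := true) (s2 := false) (a := 0) (b := 1) (c := 1) (cn := .pnn) (n1 := ndB3q0) (n2 := ndB1q1) (pc := pcB1) (cut := Cut.none) (xt := Ext.none) (P1 := 0) (W1 := 536870912) (P2 := 536870912) (W2 := 536870912) (P3 := 587336777) (W3 := 62277027) (N0 := 3) (En := eng) (mo := mog) (C1 := cd3q0) (C2 := cd1q1) (C3 := pd1)
    rfl k0_pm_011

noncomputable def cut_pm_012_a : Cut := Cut.of [[⟨0, 0, 0, 67108864⟩, ⟨1, 1, 0, 67108864⟩, ⟨2, 1, 0, 67108864⟩]]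

noncomputable def f_pm_012_a : ℕ → ℕ → ℕ → ℕ → Bool := onCell 536870912 536870912 0 536870912 587336777 62277027
    (rowB 3 eng mog cd3q0 cd1q2a pd1 2 false true false .pnp 0 1 2 (qsf 0 536870912 0 536870912 1) ndB3q0 ndB1q2a pcB1 cut_pm_012_a Ext.none)

def k0_pm_012_a : ∃ t, chk3 f_pm_012_a t 2 1 1 = true :=
  ⟨(b (a (b (l 2) (a (l 2) (l 16599880))) (b (l 16768568) (a (l 16574664) (l 16547888)))) (a (a (b (l 2) (b (l 16427800) (l 16389208))) (b (l 16510032) (b (l 16439440) (b (l 16422272) (l 16418192))))) (b (a (l 16562664) (b (l 16501864) (l 16475464))) (a (b (l 16452144) (b (l 16449328) (l 16456136))) (b (b (l 16465472) (l 16468040)) (b (l 16477856) (l 16495568))))))), by decide +kernel⟩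

def k1_pm_012_a : ∃ t, chk3 f_pm_012_a t 3 1 1 = true :=
  ⟨(b (a (b (a (l 16569376) (l 16530008)) (a (l 16665648) (b (l 16498288) (l 16482840)))) (a (b (l 16492552) (b (l 16470000) (l 16464352))) (b (a (l 16465520) (l 16449632)) (a (b (l 16450680) (l 16453656)) (b (l 16440128) (l 16449368)))))) (a (b (a (b (l 16486304) (l 16474576)) (b (l 16472784) (a (l 16475304) (l 16479192)))) (a (b (b (l 16540376) (l 16490112)) (b (a (l 16501480) (l 16518552)) (a (l 16527272) (l 16549912)))) (b (b (l 16494784) (a (l 16509112) (l 16524688))) (b (b (l 16622544) (a (l 16545128) (l 16567584))) (a (a (l 16567864) (l 16580496)) (b (l 16588984) (l 16612728))))))) (b (a (b (l 16467504) (a (l 16485216) (l 16493360))) (b (a (l 16468208) (a (l 16470712) (l 16473056))) (a (l 16587872) (b (l 16502288) (l 16531216))))) (b (a (a (b (l 16513872) (l 16543152)) (b (l 16529776) (l 16564440))) (a (b (l 16547752) (l 16628776)) (a (b (l 16562256) (l 16604832)) (b (l 16572648) (a (l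 16614304) (l 16620816)))))) (a (a (b (a (b (l 16565456) (l 16586248)) (l 16609504)) (b (l 16616552) (l 16747464))) (b (a (l 16622032) (l 16655760)) (b (a (l 16721592) (b (l 16645504) (l 16659472))) (a (l 16665664) (l 16693168))))) (b (a (a (l 16710968) (b (l 16628064) (l 16675256))) (a (b (l 16641960) (l 6)) (l 6))) (a (a (b (b (l 16660480) (l 16737568)) (b (l 16689960) (l 16727216))) (b (b (l 16675800) (l 6)) (l 6))) (l 6)))))))), by decide +kernel⟩

theorem s2_pm_012_a : ∃ t, chk3 f_pm_012_a t 1 1 1 = true := ex3_a k0_pm_012_a k1_pm_012_a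

theorem c_pm_012_a : CertB 0 536870912 0 536870912 587336777 62277027 3 eng mog cd3q0 cd1q2a pd1 false true false .pnp 0 1 2
    ndB3q0 ndB1q2a pcB1 cut_pm_012_a Ext.none :=
  certB2 (fam := false) (s1 := true) (s2 := false) (a := 0) (b := 1) (c := 2) (cn := .pnp) (n1 := ndB3q0) (n2 := ndB1q2a) (pc := pcB1) (cut := cut_pm_012_a) (xt := Ext.none) (P1 := 0) (W1 := 536870912) (P2 := 0) (W2 := 536870912) (P3 := 587336777) (W3 := 62277027) (N0 := 3) (En := eng) (mo := mog) (C1 := cd3q0) (C2 := cd1q2a) (C3 := pd1)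
    rfl (fun _ => rfl) s2_pm_012_a

noncomputable def cut_pm_012_b : Cut := Cut.of [[⟨0, 0, 0, 67108864⟩, ⟨1, 1, 0, 67108864⟩, ⟨2, 1, 0, 67108864⟩]]

noncomputable def f_pm_012_b : ℕ → ℕ → ℕ → ℕ → Bool := onCell 536870912 536870912 1239849684 370763052 587336777 62277027
    (rowB 3 eng mog cd3q0 cd1q2b pd1 2 false true false .pnp 0 1 2 (qsf 0 536870912 1239849684 370763052 1) ndB3q0 ndB1q2b pcB1 cut_pm_012_b Ext.none)

def k0_pm_012_b : ∃ t, chk3 f_pm_012_b t 1 1 1 = true :=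
  ⟨(a (a (l 2) (b (b (a (l 16664280) (l 16627008)) (l 16667112)) (l 2))) (a (b (b (a (l 16581336) (l 16674912)) (a (l 16584472) (l 16513560))) (a (l 2) (l 16599936))) (b (a (b (b (l 16491232) (l 16456392)) (l 16434536)) (b (a (l 16428136) (l 16420592)) (l 16366568))) (b (a (l 16462040) (l 16350448)) (l 16494672))))), by decide +kernel⟩

theorem c_pm_012_b : CertB 0 536870912 1239849684 370763052 587336777 62277027 3 eng mog cd3q0 cd1q2b pd1 false true false .pnp 0 1 2
    ndB3q0 ndB1q2b pcB1 cut_pm_012_b Ext.none :=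
  certB2 (fam := false) (s1 := true) (s2 := false) (a := 0) (b := 1) (c := 2) (cn := .pnp) (n1 := ndB3q0) (n2 := ndB1q2b) (pc := pcB1) (cut := cut_pm_012_b) (xt := Ext.none) (P1 := 0) (W1 := 536870912) (P2 := 1239849684) (W2 := 370763052) (P3 := 587336777) (W3 := 62277027) (N0 := 3) (En := eng) (mo := mog) (C1 := cd3q0) (C2 := cd1q2b) (C3 := pd1)
    rfl (fun _ => rfl) k0_pm_012_b

noncomputable def cut_pm_022_a : Cut := Cut.of [[⟨0, 0, 0, 67108864⟩, ⟨1, 1, 0, 67108864⟩, ⟨2, 1, 0, 67108864⟩]]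

noncomputable def f_pm_022_a : ℕ → ℕ → ℕ → ℕ → Bool := onCell 0 536870912 0 536870912 587336777 62277027
    (rowB 3 eng mog cd3q0 cd1q2a pd2 0 false true false .pp 0 2 2 (qsf 0 536870912 0 536870912 2) ndB3q0 ndB1q2a pcB2 cut_pm_022_a Ext.none)

def k0_pm_022_a : ∃ t, chk3 f_pm_022_a t 1 1 1 = true :=
  ⟨(a (b (a (b (a (b (a (l 16457320) (l 16460336)) (a (b (l 16461576) (l 16488504)) (l 16463544))) (b (l 16458672) (b (l 16455696) (l 16456096)))) (a (a (b (b (l 16475784) (a (l 16487576) (l 16484848))) (a (b (b (l 16497520) (l 16505072)) (a (b (l 16514456) (l 16523616)) (l 16516520))) (b (l 16497144) (l 16533032)))) (b (b (l 16471032) (l 16478752)) (b (l 16488648) (l 16500928)))) (b (a (l 16464864) (l 16450816)) (a (l 16551040) (l 16455776))))) (a (b (b (l 16444912) (l 16496528)) (a (b (l 16432984) (l 16429104)) (l 1))) (l 1))) (a (b (a (a (b (a (a (a (b (b (l 16534160) (l 16544080)) (b (l 16554528) (l 16565552))) (b (l 16538704) (l 16548832))) (b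 (l 16535464) (l 16557392))) (b (l 16529664) (l 16550112))) (b (a (a (a (b (l 16577272) (l 16589560)) (l 16582544)) (l 16580976)) (l 16573184)) (a (a (b (l 16601960) (l 16615760)) (l 16606552)) (l 16598912)))) (b (b (l 16536624) (a (l 16539032) (l 16526448))) (b (a (l 16559792) (l 16544776)) (a (l 16603920) (l 16565232))))) (b (a (b (l 16492192) (l 16504832)) (b (l 16463512) (l 16470992))) (a (b (l 16519264) (a (l 16545760) (l 16524552))) (b (l 16479712) (l 1))))) (a (a (b (b (b (a (a (l 16640752) (l 16627688)) (l 16619544)) (a (a (a (l 16646120) (l 16644864)) (l 16642792)) (l 16634200))) (l 6)) (l 6)) (a (b (b (b (l 16601464) (l 16614592)) (l 6)) (l 6)) (b (b (l 16608288) (b (l 16604272) (l 16615632))) (l 1)))) (a (b (b (a (l 16564640) (l 1)) (l 1)) (l 1)) (l 1)))) (b (l 1) (l 1)))) (l 1)), by decide +kernel⟩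

theorem c_pm_022_a : CertB 0 536870912 0 536870912 587336777 62277027 3 eng mog cd3q0 cd1q2a pd2 false true false .pp 0 2 2
    ndB3q0 ndB1q2a pcB2 cut_pm_022_a Ext.none :=
  certB0 (fam := false) (s1 := true) (s2 := false) (a := 0) (b := 2) (c := 2) (cn := .pp) (n1 := ndB3q0) (n2 := ndB1q2a) (pc := pcB2) (cut := cut_pm_022_a) (xt := Ext.none) (P1 := 0) (W1 := 536870912) (P2 := 0) (W2 := 536870912) (P3 := 587336777) (W3 := 62277027) (N0 := 3) (En := eng) (mo := mog) (C1 := cd3q0) (C2 := cd1q2a) (C3 := pd2)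
    rfl k0_pm_022_a

noncomputable def cut_pm_022_b : Cut := Cut.of [[⟨0, 0, 0, 67108864⟩, ⟨1, 1, 0, 67108864⟩, ⟨2, 1, 0, 67108864⟩]]

noncomputable def f_pm_022_b : ℕ → ℕ → ℕ → ℕ → Bool := onCell 0 536870912 1239849684 370763052 587336777 62277027
    (rowB 3 eng mog cd3q0 cd1q2b pd2 0 false true false .pp 0 2 2 (qsf 0 536870912 1239849684 370763052 2) ndB3q0 ndB1q2b pcB2 cut_pm_022_b Ext.none)

def k0_pm_022_b : ∃ t, chk3 f_pm_022_b t 1 1 1 = true :=
  ⟨(a (b (a (b (a (b (a (a (l 16535640) (l 16414344)) (l 16419224)) (a (l 16430408) (l 16359112))) (a (l 16436488) (l 16386696))) (a (a (l 16340568) (l 16208776)) (b (a (l 16273408) (l 16283072)) (l 16209248)))) (a (b (l 16387384) (b (l 16297056) (l 16241952))) (b (l 16377456) (l 16287192)))) (a (b (a (b (a (l 16316456) (l 16111352)) (a (l 16106448) (l 16076624))) (b (l 16132072) (l 16043720))) (a (b (l 16256824) (l 16094976)) (b (l 16009168) (l 16015672)))) (b (a (b (l 16190680) (l 16137616)) (b (l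 16226584) (l 16192360))) (a (b (l 16077232) (l 16004016)) (l 16250088))))) (b (a (b (l 1) (l 182569064903)) (l 1)) (a (b (l 16257520) (a (l 16201792) (l 16247504))) (l 272226721527)))), by decide +kernel⟩

theorem c_pm_022_b : CertB 0 536870912 1239849684 370763052 587336777 62277027 3 eng mog cd3q0 cd1q2b pd2 false true false .pp 0 2 2
    ndB3q0 ndB1q2b pcB2 cut_pm_022_b Ext.none :=
  certB0 (fam := false) (s1 := true) (s2 := false) (a := 0) (b := 2) (c := 2) (cn := .pp) (n1 := ndB3q0) (n2 := ndB1q2b) (pc := pcB2) (cut := cut_pm_022_b) (xt := Ext.none) (P1 := 0) (W1 := 536870912) (P2 := 1239849684) (W2 := 370763052) (P3 := 587336777) (W3 := 62277027) (N0 := 3) (En := eng) (mo := mog) (C1 := cd3q0) (C2 := cd1q2b) (C3 := pd2)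
    rfl k0_pm_022_b

noncomputable def f_pm_023 : ℕ → ℕ → ℕ → ℕ → Bool := onCell 0 536870912 1073741824 536870912 587336777 62277027
    (rowB 3 eng mog cd3q0 cd1q3 pd2 1 false true false .up 0 2 3 (qsf 0 536870912 1610612736 536870912 2) ndB3q0 ndB1q3 pcB2 Cut.none Ext.none)

def k0_pm_023 : ∃ t, chk3 f_pm_023 t 1 1 1 = true :=
  ⟨(b (a (b (l 1) (a (l 1) (b (l 1) (l 296385555415)))) (b (l 255583605367) (a (l 308733693655) (l 16341136)))) (b (a (a (b (l 1) (l 497174926695)) (b (l 16081984) (l 15983904))) (b (l 16283440) (l 16403856))) (a (a (b (l 492880140983) (l 493417023431)) (b (l 15980280) (l 16226504))) (b (l 16507032) (l 16580512))))), by decide +kernel⟩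

theorem c_pm_023 : CertB 0 536870912 1610612736 536870912 587336777 62277027 3 eng mog cd3q0 cd1q3 pd2 false true false .up 0 2 3
    ndB3q0 ndB1q3 pcB2 Cut.none Ext.none :=
  certB1 (fam := false) (s1 := true) (s2 := false) (a := 0) (b := 2) (c := 3) (cn := .up) (n1 := ndB3q0) (n2 := ndB1q3) (pc := pcB2) (cut := Cut.none) (xt := Ext.none) (P1 := 0) (W1 := 536870912) (P2 := 1610612736) (W2 := 536870912) (P3 := 587336777) (W3 := 62277027) (N0 := 3) (En := eng) (mo := mog) (C1 := cd3q0) (C2 := cd1q3) (C3 := pd2)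
    rfl (fun _ => rfl) k0_pm_023

noncomputable def f_pm_033 : ℕ → ℕ → ℕ → ℕ → Bool := onCell 0 536870912 1610612736 536870912 587336777 62277027
    (rowB 3 eng mog cd3q0 cd1q3 pd3 1 false true false .pnn 0 3 3 (qsf 0 536870912 1610612736 536870912 3) ndB3q0 ndB1q3 pcB3 Cut.none Ext.none)

def k0_pm_033 : ∃ t, chk3 f_pm_033 t 1 1 1 = true :=
  ⟨(a (b (b (b (a (a (l 16121688) (l 16186448)) (l 16377744)) (a (b (l 16253160) (l 16324632)) (l 4))) (l 4)) (b (l 4) (a (l 4) (a (b (l 4) (l 2)) (l 2))))) (b (b (b (l 16632496) (l 4)) (a (l 4) (a (b (l 4) (l 2)) (l 2)))) (a (b (a (b (l 4) (l 2)) (l 2)) (l 2)) (l 2)))), by decide +kernel⟩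

theorem c_pm_033 : CertB 0 536870912 1610612736 536870912 587336777 62277027 3 eng mog cd3q0 cd1q3 pd3 false true false .pnn 0 3 3
    ndB3q0 ndB1q3 pcB3 Cut.none Ext.none :=
  certB1 (fam := false) (s1 := true) (s2 := false) (a := 0) (b := 3) (c := 3) (cn := .pnn) (n1 := ndB3q0) (n2 := ndB1q3) (pc := pcB3) (cut := Cut.none) (xt := Ext.none) (P1 := 0) (W1 := 536870912) (P2 := 1610612736) (W2 := 536870912) (P3 := 587336777) (W3 := 62277027) (N0 := 3) (En := eng) (mo := mog) (C1 := cd3q0) (C2 := cd1q3) (C3 := pd3)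
    rfl (fun _ => rfl) k0_pm_033

noncomputable def f_pm_101 : ℕ → ℕ → ℕ → ℕ → Bool := onCell 0 536870912 536870912 536870912 587336777 62277027
    (rowB 3 eng mog cd3q1 cd1q1 pd0 2 false true false .npn 1 0 1 (qsf 536870912 536870912 536870912 536870912 0) ndB3q1 ndB1q1 pcB0 Cut.none Ext.none)

def k0_pm_101 : ∃ t, chk3 f_pm_101 t 1 1 1 = true :=
  ⟨(b (l 4) (b (a (a (a (b (l 4) (a (b (l 4) (a (l 16468768) (l 4))) (l 4))) (l 4)) (l 4)) (l 4)) (b (a (b (a (a (a (l 16537952) (b (l 16454088) (l 16444856))) (a (b (l 4) (l 16433880)) (l 16432368))) (l 4)) (a (a (a (l 16456584) (l 16441784)) (a (l 16421384) (l 16523312))) (a (a (l 16456280) (l 16345992)) (l 16394224)))) (l 4)) (b (a (a (a (a (b (l 16463936) (l 16472088)) (l 16444544)) (a (l 16413736) (l 16377832))) (a (a (l 16339616) (l 16300248)) (l 16490888))) (a (a (l 16370160) (l 16316712)) (l 4))) (a (a (a (b (a (b (l 16478320) (a (l 16489168) (l 16475216))) (l 16448488)) (a (b (a (l 16496216) (l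 16478456)) (a (l 16496832) (l 16479728))) (a (l 16459008) (l 16436432)))) (a (b (l 16408336) (l 16400552)) (l 16357568))) (a (a (l 16327208) (l 16320840)) (l 16311736))) (a (a (l 16305896) (l 16306856)) (a (a (l 16315272) (l 16325640)) (l 16493808)))))))), by decide +kernel⟩

theorem c_pm_101 : CertB 536870912 536870912 536870912 536870912 587336777 62277027 3 eng mog cd3q1 cd1q1 pd0 false true false .npn 1 0 1
    ndB3q1 ndB1q1 pcB0 Cut.none Ext.none :=
  certB2 (fam := false) (s1 := true) (s2 := false) (a := 1) (b := 0) (c := 1) (cn := .npn) (n1 := ndB3q1) (n2 := ndB1q1) (pc := pcB0) (cut := Cut.none) (xt := Ext.none) (P1 := 536870912) (W1 := 536870912) (P2 := 536870912) (W2 := 536870912) (P3 := 587336777) (W3 := 62277027) (N0 := 3) (En := eng) (mo := mog) (C1 := cd3q1) (C2 := cd1q1) (C3 := pd0)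
    rfl (fun _ => rfl) k0_pm_101

noncomputable def f_pm_102_a : ℕ → ℕ → ℕ → ℕ → Bool := onCell 0 536870912 0 536870912 587336777 62277027
    (rowB 3 eng mog cd3q1 cd1q2a pd0 2 false true false .npp 1 0 2 (qsf 536870912 536870912 0 536870912 0) ndB3q1 ndB1q2a pcB0 Cut.none Ext.none)

def k0_pm_102_a : ∃ t, chk3 f_pm_102_a t 2 2 1 = true :=
  ⟨(a (a (l 2) (b (l 2) (b (l 2) (a (l 2) (b (l 2) (l 16554072)))))) (b (a (a (a (l 2) (b (b (l 3) (b (l 16524608) (b (l 16525624) (l 16526496)))) (b (b (l 16528072) (l 16530600)) (b (l 16533736) (l 16537464))))) (b (b (b (l 129553223111) (a (l 16527168) (l 16531960))) (a (b (l 16528576) (l 16530560)) (b (l 16533952) (l 16537200)))) (b (a (b (l 16533392) (l 16536616)) (b (l 16540480) (l 16544512))) (b (a (l 16540576) (l 16549064)) (l 16549464))))) (b (a (b (a (b (l 16536112) (l 16538080)) (l 16544736)) (b (a (l 16541648) (l 16550728)) (l 16549784))) (b (a (l 16554800) (l 16565056)) (a (l 16562696) (l 16573688))))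 (b (a (b (l 16554152) (l 16558992)) (a (l 16572664) (l 16583832))) (a (b (l 16564096) (l 16570072)) (l 16589904))))) (a (b (b (a (a (l 16579632) (l 16544312)) (l 16558008)) (a (a (l 16546360) (l 16555424)) (l 16571248))) (a (l 16570712) (l 16594800))) (b (a (b (l 16579768) (l 16594280)) (l 16610304)) (a (l 16617928) (l 16637640)))))), by decide +kernel⟩

def k1_pm_102_a : ∃ t, chk3 f_pm_102_a t 2 3 1 = true :=
  ⟨(a (a (b (l 2) (b (a (l 2) (b (a (l 2) (l 16569080)) (a (l 16568712) (l 16580312)))) (b (a (a (l 2) (l 16563768)) (a (l 16573656) (l 16577680))) (a (b (b (l 16560296) (l 16559560)) (a (b (l 16555856) (a (l 16553272) (l 16548696))) (b (l 16553432) (l 16533008)))) (b (l 16555656) (l 16514864)))))) (b (b (a (l 2) (l 16574120)) (a (b (l 16566008) (l 16601248)) (b (l 16595480) (l 16606888)))) (b (a (b (l 16591424) (l 16592752)) (b (l 16607552) (l 16591216))) (b (a (l 16570312) (l 16548272)) (a (b (l 16525056) (l 16476192)) (l 16470256)))))) (b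 (a (b (a (l 16600840) (l 16623472)) (b (l 16626600) (a (l 16621592) (l 16625384)))) (b (a (l 16639784) (l 16649296)) (b (l 16636992) (a (l 16620688) (l 16610544))))) (a (b (a (l 16596136) (l 16582240)) (b (a (l 16522920) (l 16499152)) (a (l 16444272) (l 16423576)))) (b (a (l 16564744) (l 16546608)) (a (b (l 16477920) (l 16406440)) (l 16425568)))))), by decide +kernel⟩

def k2_pm_102_a : ∃ t, chk3 f_pm_102_a t 3 1 1 = true :=
  ⟨(a (a (b (b (b (b (a (l 16580848) (l 16602672)) (a (l 16590616) (l 16612504))) (a (b (l 16600856) (l 16612528)) (l 16628152))) (b (a (l 16631248) (l 16648736)) (a (l 16652584) (l 16662864)))) (b (b (a (l 16652824) (l 16652368)) (b (l 16624528) (l 16591224))) (b (l 16667104) (a (l 16411048) (l 16399640))))) (b (b (b (b (l 16633824) (l 16642472)) (l 16655192)) (b (b (l 16665784) (l 16713464)) (a (l 16669488) (l 16672448)))) (b (a (b (l 16648848) (l 16589760)) (b (l 16642976) (l 16577568))) (a (b (l 16496792) (l 16390648)) (b (l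 16483512) (l 16383544)))))) (b (b (a (b (l 16713000) (l 16680184)) (l 16695784)) (a (a (b (l 16680904) (l 16671792)) (b (l 16686136) (l 16669336))) (b (a (l 16689504) (l 16691776)) (l 16663384)))) (a (b (b (a (l 16634008) (l 16622864)) (a (l 16563848) (l 16549408))) (b (a (l 16471888) (l 16463064)) (a (l 16378944) (l 16385416)))) (b (b (l 16646992) (a (l 16536008) (l 16523792))) (b (a (l 16457432) (l 16454432)) (a (l 16394160) (l 16403136))))))), by decide +kernel⟩

theorem s3_pm_102_a : ∃ t, chk3 f_pm_102_a t 2 1 1 = true := ex3_b k0_pm_102_a k1_pm_102_a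

theorem s4_pm_102_a : ∃ t, chk3 f_pm_102_a t 1 1 1 = true := ex3_a s3_pm_102_a k2_pm_102_a

theorem c_pm_102_a : CertB 536870912 536870912 0 536870912 587336777 62277027 3 eng mog cd3q1 cd1q2a pd0 false true false .npp 1 0 2
    ndB3q1 ndB1q2a pcB0 Cut.none Ext.none :=
  certB2 (fam := false) (s1 := true) (s2 := false) (a := 1) (b := 0) (c := 2) (cn := .npp) (n1 := ndB3q1) (n2 := ndB1q2a) (pc := pcB0) (cut := Cut.none) (xt := Ext.none) (P1 := 536870912) (W1 := 536870912) (P2 := 0) (W2 := 536870912) (P3 := 587336777) (W3 := 62277027) (N0 := 3) (En := eng) (mo := mog) (C1 := cd3q1) (C2 := cd1q2a) (C3 := pd0)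
    rfl (fun _ => rfl) s4_pm_102_a

noncomputable def f_pm_102_b : ℕ → ℕ → ℕ → ℕ → Bool := onCell 536870912 536870912 0 536870912 587336777 62277027
    (rowB 3 eng mog cd3q1 cd1q2b pd0 1 false true false .npp 1 0 2 (qsf 536870912 536870912 1239849684 370763052 0) ndB3q1 ndB1q2b pcB0 Cut.none Ext.none)

def k0_pm_102_b : ∃ t, chk3 f_pm_102_b t 1 1 1 = true :=
  ⟨(a (b (l 1) (b (l 1) (a (l 1) (b (a (l 1) (l 16752536)) (l 66605713463))))) (b (b (l 1) (a (l 1) (b (a (l 1) (a (a (l 1) (b (l 1) (l 152504553303))) (l 3))) (a (a (b (l 1) (l 16607008)) (b (l 16591456) (l 16552968))) (a (b (a (l 16549528) (l 16521104)) (a (l 16511008) (l 16482608))) (a (b (b (l 16503944) (l 16482720)) (l 16454464)) (l 3))))))) (b (a (a (b (l 1) (l 16707496)) (b (a (l 16665192) (l 16671872)) (l 16605608))) (a (b (a (l 16559280) (l 16507016)) (l 16493856)) (b (a (a (l 16487304) (b (l 16451856) (l 16428496))) (b (a (l 16423824) (l 16397280)) (a (l 16401376) (l 16375120)))) (b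 (a (l 16486864) (a (l 16386528) (l 16361040))) (a (l 16415704) (a (l 16379224) (l 16354824))))))) (a (b (a (l 16631016) (l 16559816)) (l 16589920)) (a (b (l 16480832) (l 16494200)) (a (l 16422664) (b (a (l 16380608) (b (l 16355672) (l 16362416))) (a (l 16407232) (l 16385600))))))))), by decide +kernel⟩

theorem c_pm_102_b : CertB 536870912 536870912 1239849684 370763052 587336777 62277027 3 eng mog cd3q1 cd1q2b pd0 false true false .npp 1 0 2
    ndB3q1 ndB1q2b pcB0 Cut.none Ext.none :=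
  certB1 (fam := false) (s1 := true) (s2 := false) (a := 1) (b := 0) (c := 2) (cn := .npp) (n1 := ndB3q1) (n2 := ndB1q2b) (pc := pcB0) (cut := Cut.none) (xt := Ext.none) (P1 := 536870912) (W1 := 536870912) (P2 := 1239849684) (W2 := 370763052) (P3 := 587336777) (W3 := 62277027) (N0 := 3) (En := eng) (mo := mog) (C1 := cd3q1) (C2 := cd1q2b) (C3 := pd0)
    rfl (fun _ => rfl) k0_pm_102_b

noncomputable def f_pm_112_a : ℕ → ℕ → ℕ → ℕ → Bool := onCell 536870912 536870912 0 536870912 587336777 62277027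
    (rowB 3 eng mog cd3q1 cd1q2a pd1 2 false true false .dn 1 1 2 (qsf 536870912 536870912 0 536870912 1) ndB3q1 ndB1q2a pcB1 Cut.none Ext.none)

def k0_pm_112_a : ∃ t, chk3 f_pm_112_a t 1 1 1 = true :=
  ⟨(a (b (b (a (l 16739800) (l 174516736407)) (a (a (l 16823552) (l 16596168)) (a (l 16572880) (l 1)))) (a (b (a (b (l 16555544) (l 16502960)) (l 16518776)) (b (l 135324882695) (a (l 16418224) (l 1)))) (b (l 1) (l 1)))) (l 1)), by decide +kernel⟩

theorem c_pm_112_a : CertB 536870912 536870912 0 536870912 587336777 62277027 3 eng mog cd3q1 cd1q2a pd1 false true false .dn 1 1 2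
    ndB3q1 ndB1q2a pcB1 Cut.none Ext.none :=
  certB2 (fam := false) (s1 := true) (s2 := false) (a := 1) (b := 1) (c := 2) (cn := .dn) (n1 := ndB3q1) (n2 := ndB1q2a) (pc := pcB1) (cut := Cut.none) (xt := Ext.none) (P1 := 536870912) (W1 := 536870912) (P2 := 0) (W2 := 536870912) (P3 := 587336777) (W3 := 62277027) (N0 := 3) (En := eng) (mo := mog) (C1 := cd3q1) (C2 := cd1q2a) (C3 := pd1)
    rfl (fun _ => rfl) k0_pm_112_a

noncomputable def f_pm_112_b : ℕ → ℕ → ℕ → ℕ → Bool := onCell 536870912 536870912 536870912 536870912 587336777 62277027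
    (rowB 3 eng mog cd3q1 cd1q2b pd1 1 false true false .dn 1 1 2 (qsf 536870912 536870912 1239849684 370763052 1) ndB3q1 ndB1q2b pcB1 Cut.none Ext.none)

def k0_pm_112_b : ∃ t, chk3 f_pm_112_b t 1 1 1 = true :=
  ⟨(b (b (a (a (l 228740760375) (b (l 16666992) (l 16684384))) (a (b (l 16650664) (l 16726240)) (a (l 16663200) (a (l 16635176) (l 16602576))))) (a (a (l 16717944) (l 16757912)) (a (b (l 16865136) (l 17087248)) (a (l 16968664) (l 2))))) (a (b (a (l 16667208) (l 16979368)) (a (l 16731096) (l 17009968))) (b (a (l 17284664) (l 2)) (l 2)))), by decide +kernel⟩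

theorem c_pm_112_b : CertB 536870912 536870912 1239849684 370763052 587336777 62277027 3 eng mog cd3q1 cd1q2b pd1 false true false .dn 1 1 2
    ndB3q1 ndB1q2b pcB1 Cut.none Ext.none :=
  certB1 (fam := false) (s1 := true) (s2 := false) (a := 1) (b := 1) (c := 2) (cn := .dn) (n1 := ndB3q1) (n2 := ndB1q2b) (pc := pcB1) (cut := Cut.none) (xt := Ext.none) (P1 := 536870912) (W1 := 536870912) (P2 := 1239849684) (W2 := 370763052) (P3 := 587336777) (W3 := 62277027) (N0 := 3) (En := eng) (mo := mog) (C1 := cd3q1) (C2 := cd1q2b) (C3 := pd1)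
    rfl (fun _ => rfl) k0_pm_112_b

noncomputable def f_pm_113 : ℕ → ℕ → ℕ → ℕ → Bool := onCell 536870912 536870912 536870912 536870912 587336777 62277027
    (rowB 3 eng mog cd3q1 cd1q3 pd1 1 false true false .nn 1 1 3 (qsf 536870912 536870912 1610612736 536870912 1) ndB3q1 ndB1q3 pcB1 Cut.none Ext.none)

def k0_pm_113 : ∃ t, chk3 f_pm_113 t 1 1 1 = true :=
  ⟨(b (b (a (l 1) (a (l 291554697895) (a (l 16673192) (a (l 16650584) (l 16621648))))) (a (a (l 1) (l 16757824)) (a (l 82711707639) (b (l 16752680) (l 16942496))))) (a (b (a (l 16665648) (l 16973048)) (a (l 16718248) (l 16993664))) (b (a (l 17266408) (b (l 16982576) (l 17027208))) (a (l 17026880) (l 16964144))))), by decide +kernel⟩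

theorem c_pm_113 : CertB 536870912 536870912 1610612736 536870912 587336777 62277027 3 eng mog cd3q1 cd1q3 pd1 false true false .nn 1 1 3
    ndB3q1 ndB1q3 pcB1 Cut.none Ext.none :=
  certB1 (fam := false) (s1 := true) (s2 := false) (a := 1) (b := 1) (c := 3) (cn := .nn) (n1 := ndB3q1) (n2 := ndB1q3) (pc := pcB1) (cut := Cut.none) (xt := Ext.none) (P1 := 536870912) (W1 := 536870912) (P2 := 1610612736) (W2 := 536870912) (P3 := 587336777) (W3 := 62277027) (N0 := 3) (En := eng) (mo := mog) (C1 := cd3q1) (C2 := cd1q3) (C3 := pd1)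
    rfl (fun _ => rfl) k0_pm_113

noncomputable def f_pm_123 : ℕ → ℕ → ℕ → ℕ → Bool := onCell 1073741824 536870912 1610612736 536870912 587336777 62277027
    (rowB 3 eng mog cd3q1 cd1q3 pd2 2 false true false .npn 1 2 3 (qsf 536870912 536870912 1610612736 536870912 2) ndB3q1 ndB1q3 pcB2 Cut.none Ext.none)

def k0_pm_123 : ∃ t, chk3 f_pm_123 t 1 1 1 = true :=
  ⟨(a (b (a (b (l 16589096) (l 16797856)) (b (l 16712736) (l 16613448))) (a (b (l 16838008) (l 16773248)) (b (l 16686032) (a (l 16694944) (l 16677000))))) (a (b (b (l 1) (l 16558880)) (b (l 16639352) (l 16673336))) (b (l 1) (l 405371395703)))), by decide +kernel⟩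

theorem c_pm_123 : CertB 536870912 536870912 1610612736 536870912 587336777 62277027 3 eng mog cd3q1 cd1q3 pd2 false true false .npn 1 2 3
    ndB3q1 ndB1q3 pcB2 Cut.none Ext.none :=
  certB2 (fam := false) (s1 := true) (s2 := false) (a := 1) (b := 2) (c := 3) (cn := .npn) (n1 := ndB3q1) (n2 := ndB1q3) (pc := pcB2) (cut := Cut.none) (xt := Ext.none) (P1 := 536870912) (W1 := 536870912) (P2 := 1610612736) (W2 := 536870912) (P3 := 587336777) (W3 := 62277027) (N0 := 3) (En := eng) (mo := mog) (C1 := cd3q1) (C2 := cd1q3) (C3 := pd2)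
    rfl (fun _ => rfl) k0_pm_123

noncomputable def f_pm_133 : ℕ → ℕ → ℕ → ℕ → Bool := onCell 1610612736 536870912 1610612736 536870912 587336777 62277027
    (rowB 3 eng mog cd3q1 cd1q3 pd3 2 false true false .dn 1 3 3 (qsf 536870912 536870912 1610612736 536870912 3) ndB3q1 ndB1q3 pcB3 Cut.none Ext.none)

def k0_pm_133 : ∃ t, chk3 f_pm_133 t 1 1 1 = true :=
  ⟨(a (b (l 1) (a (a (l 16690304) (l 1)) (l 1))) (l 1)), by decide +kernel⟩

theorem c_pm_133 : CertB 536870912 536870912 1610612736 536870912 587336777 62277027 3 eng mog cd3q1 cd1q3 pd3 false true false .dn 1 3 3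
    ndB3q1 ndB1q3 pcB3 Cut.none Ext.none :=
  certB2 (fam := false) (s1 := true) (s2 := false) (a := 1) (b := 3) (c := 3) (cn := .dn) (n1 := ndB3q1) (n2 := ndB1q3) (pc := pcB3) (cut := Cut.none) (xt := Ext.none) (P1 := 536870912) (W1 := 536870912) (P2 := 1610612736) (W2 := 536870912) (P3 := 587336777) (W3 := 62277027) (N0 := 3) (En := eng) (mo := mog) (C1 := cd3q1) (C2 := cd1q3) (C3 := pd3)
    rfl (fun _ => rfl) k0_pm_133

noncomputable def cut_pm_202_aa : Cut := Cut.of [[⟨0, 1, 0, 67108864⟩, ⟨1, 0, 0, 67108864⟩, ⟨2, 1, 0, 67108864⟩]]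

noncomputable def f_pm_202_aa : ℕ → ℕ → ℕ → ℕ → Bool := onCell 0 536870912 0 536870912 587336777 62277027
    (rowB 3 eng mog cd3q2a cd1q2a pd0 0 false true false .pp 2 0 2 (qsf 0 536870912 0 536870912 0) ndB3q2a ndB1q2a pcB0 cut_pm_202_aa Ext.none)

def k0_pm_202_aa : ∃ t, chk3 f_pm_202_aa t 1 1 1 = true :=
  ⟨(a (l 3) (b (l 3) (b (l 3) (a (l 3) (b (l 3) (a (l 3) (l 6))))))), by decide +kernel⟩

theorem c_pm_202_aa : CertB 0 536870912 0 536870912 587336777 62277027 3 eng mog cd3q2a cd1q2a pd0 false true false .pp 2 0 2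
    ndB3q2a ndB1q2a pcB0 cut_pm_202_aa Ext.none :=
  certB0 (fam := false) (s1 := true) (s2 := false) (a := 2) (b := 0) (c := 2) (cn := .pp) (n1 := ndB3q2a) (n2 := ndB1q2a) (pc := pcB0) (cut := cut_pm_202_aa) (xt := Ext.none) (P1 := 0) (W1 := 536870912) (P2 := 0) (W2 := 536870912) (P3 := 587336777) (W3 := 62277027) (N0 := 3) (En := eng) (mo := mog) (C1 := cd3q2a) (C2 := cd1q2a) (C3 := pd0)
    rfl k0_pm_202_aa

noncomputable def cut_pm_202_ab : Cut := Cut.of [[⟨0, 1, 0, 67108864⟩, ⟨1, 0, 0, 67108864⟩, ⟨2, 1, 0, 67108864⟩]]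

noncomputable def f_pm_202_ab : ℕ → ℕ → ℕ → ℕ → Bool := onCell 0 536870912 1239849684 370763052 587336777 62277027
    (rowB 3 eng mog cd3q2a cd1q2b pd0 0 false true false .pp 2 0 2 (qsf 0 536870912 1239849684 370763052 0) ndB3q2a ndB1q2b pcB0 cut_pm_202_ab Ext.none)

def k0_pm_202_ab : ∃ t, chk3 f_pm_202_ab t 1 1 1 = true :=
  ⟨(l 3), by decide +kernel⟩

theorem c_pm_202_ab : CertB 0 536870912 1239849684 370763052 587336777 62277027 3 eng mog cd3q2a cd1q2b pd0 false true false .pp 2 0 2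
    ndB3q2a ndB1q2b pcB0 cut_pm_202_ab Ext.none :=
  certB0 (fam := false) (s1 := true) (s2 := false) (a := 2) (b := 0) (c := 2) (cn := .pp) (n1 := ndB3q2a) (n2 := ndB1q2b) (pc := pcB0) (cut := cut_pm_202_ab) (xt := Ext.none) (P1 := 0) (W1 := 536870912) (P2 := 1239849684) (W2 := 370763052) (P3 := 587336777) (W3 := 62277027) (N0 := 3) (En := eng) (mo := mog) (C1 := cd3q2a) (C2 := cd1q2b) (C3 := pd0)
    rfl k0_pm_202_ab

noncomputable def cut_pm_202_ba : Cut := Cut.of [[⟨0, 1, 0, 67108864⟩, ⟨1, 0, 0, 67108864⟩, ⟨2, 1, 0, 67108864⟩]]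

noncomputable def f_pm_202_ba : ℕ → ℕ → ℕ → ℕ → Bool := onCell 1239849684 370763052 0 536870912 587336777 62277027
    (rowB 3 eng mog cd3q2b cd1q2a pd0 0 false true false .pp 2 0 2 (qsf 1239849684 370763052 0 536870912 0) ndB3q2b ndB1q2a pcB0 cut_pm_202_ba Ext.none)

def k0_pm_202_ba : ∃ t, chk3 f_pm_202_ba t 1 1 1 = true :=
  ⟨(l 3), by decide +kernel⟩

theorem c_pm_202_ba : CertB 1239849684 370763052 0 536870912 587336777 62277027 3 eng mog cd3q2b cd1q2a pd0 false true false .pp 2 0 2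
    ndB3q2b ndB1q2a pcB0 cut_pm_202_ba Ext.none :=
  certB0 (fam := false) (s1 := true) (s2 := false) (a := 2) (b := 0) (c := 2) (cn := .pp) (n1 := ndB3q2b) (n2 := ndB1q2a) (pc := pcB0) (cut := cut_pm_202_ba) (xt := Ext.none) (P1 := 1239849684) (W1 := 370763052) (P2 := 0) (W2 := 536870912) (P3 := 587336777) (W3 := 62277027) (N0 := 3) (En := eng) (mo := mog) (C1 := cd3q2b) (C2 := cd1q2a) (C3 := pd0)
    rfl k0_pm_202_ba

noncomputable def cut_pm_202_bb : Cut := Cut.of [[⟨0, 1, 0, 67108864⟩, ⟨1, 0, 0, 67108864⟩, ⟨2, 1, 0, 67108864⟩]]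

noncomputable def f_pm_202_bb : ℕ → ℕ → ℕ → ℕ → Bool := onCell 1239849684 370763052 1239849684 370763052 587336777 62277027
    (rowB 3 eng mog cd3q2b cd1q2b pd0 0 false true false .pp 2 0 2 (qsf 1239849684 370763052 1239849684 370763052 0) ndB3q2b ndB1q2b pcB0 cut_pm_202_bb Ext.none)

def k0_pm_202_bb : ∃ t, chk3 f_pm_202_bb t 1 1 1 = true :=
  ⟨(l 3), by decide +kernel⟩

theorem c_pm_202_bb : CertB 1239849684 370763052 1239849684 370763052 587336777 62277027 3 eng mog cd3q2b cd1q2b pd0 false true false .pp 2 0 2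
    ndB3q2b ndB1q2b pcB0 cut_pm_202_bb Ext.none :=
  certB0 (fam := false) (s1 := true) (s2 := false) (a := 2) (b := 0) (c := 2) (cn := .pp) (n1 := ndB3q2b) (n2 := ndB1q2b) (pc := pcB0) (cut := cut_pm_202_bb) (xt := Ext.none) (P1 := 1239849684) (W1 := 370763052) (P2 := 1239849684) (W2 := 370763052) (P3 := 587336777) (W3 := 62277027) (N0 := 3) (En := eng) (mo := mog) (C1 := cd3q2b) (C2 := cd1q2b) (C3 := pd0)
    rfl k0_pm_202_bb

noncomputable def f_pm_203_a : ℕ → ℕ → ℕ → ℕ → Bool := onCell 0 536870912 0 536870912 587336777 62277027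
    (rowB 3 eng mog cd3q2a cd1q3 pd0 1 false true false .up 2 0 3 (qsf 0 536870912 1610612736 536870912 0) ndB3q2a ndB1q3 pcB0 Cut.none Ext.none)

def k0_pm_203_a : ∃ t, chk3 f_pm_203_a t 1 1 1 = true :=
  ⟨(l 3), by decide +kernel⟩

theorem c_pm_203_a : CertB 0 536870912 1610612736 536870912 587336777 62277027 3 eng mog cd3q2a cd1q3 pd0 false true false .up 2 0 3
    ndB3q2a ndB1q3 pcB0 Cut.none Ext.none :=
  certB1 (fam := false) (s1 := true) (s2 := false) (a := 2) (b := 0) (c := 3) (cn := .up) (n1 := ndB3q2a) (n2 := ndB1q3) (pc := pcB0) (cut := Cut.none) (xt := Ext.none) (P1 := 0) (W1 := 536870912) (P2 := 1610612736) (W2 := 536870912) (P3 := 587336777) (W3 := 62277027) (N0 := 3) (En := eng) (mo := mog) (C1 := cd3q2a) (C2 := cd1q3) (C3 := pd0)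
    rfl (fun _ => rfl) k0_pm_203_a

noncomputable def f_pm_203_b : ℕ → ℕ → ℕ → ℕ → Bool := onCell 1239849684 370763052 1610612736 536870912 587336777 62277027
    (rowB 3 eng mog cd3q2b cd1q3 pd0 0 false true false .up 2 0 3 (qsf 1239849684 370763052 1610612736 536870912 0) ndB3q2b ndB1q3 pcB0 Cut.none Ext.none)

def k0_pm_203_b : ∃ t, chk3 f_pm_203_b t 1 1 1 = true :=
  ⟨(l 3), by decide +kernel⟩

theorem c_pm_203_b : CertB 1239849684 370763052 1610612736 536870912 587336777 62277027 3 eng mog cd3q2b cd1q3 pd0 false true false .up 2 0 3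
    ndB3q2b ndB1q3 pcB0 Cut.none Ext.none :=
  certB0 (fam := false) (s1 := true) (s2 := false) (a := 2) (b := 0) (c := 3) (cn := .up) (n1 := ndB3q2b) (n2 := ndB1q3) (pc := pcB0) (cut := Cut.none) (xt := Ext.none) (P1 := 1239849684) (W1 := 370763052) (P2 := 1610612736) (W2 := 536870912) (P3 := 587336777) (W3 := 62277027) (N0 := 3) (En := eng) (mo := mog) (C1 := cd3q2b) (C2 := cd1q3) (C3 := pd0)
    rfl k0_pm_203_b

noncomputable def cut_pm_213_a : Cut := Cut.of [[⟨0, 1, 0, 67108864⟩, ⟨1, 1, 0, 67108864⟩, ⟨2, 2, 0, 16777216⟩]]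

noncomputable def f_pm_213_a : ℕ → ℕ → ℕ → ℕ → Bool := onCell 0 536870912 1610612736 536870912 587336777 62277027
    (rowB 3 eng mog cd3q2a cd1q3 pd1 0 false true false .pnn 2 1 3 (qsf 0 536870912 1610612736 536870912 1) ndB3q2a ndB1q3 pcB1 cut_pm_213_a Ext.none)

def k0_pm_213_a : ∃ t, chk3 f_pm_213_a t 1 1 1 = true :=
  ⟨(b (l 3) (b (l 3) (a (l 3) (a (l 3) (b (l 3) (a (l 3) (b (l 3) (b (l 3) (b (l 3) (l 6)))))))))), by decide +kernel⟩

theorem c_pm_213_a : CertB 0 536870912 1610612736 536870912 587336777 62277027 3 eng mog cd3q2a cd1q3 pd1 false true false .pnn 2 1 3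
    ndB3q2a ndB1q3 pcB1 cut_pm_213_a Ext.none :=
  certB0 (fam := false) (s1 := true) (s2 := false) (a := 2) (b := 1) (c := 3) (cn := .pnn) (n1 := ndB3q2a) (n2 := ndB1q3) (pc := pcB1) (cut := cut_pm_213_a) (xt := Ext.none) (P1 := 0) (W1 := 536870912) (P2 := 1610612736) (W2 := 536870912) (P3 := 587336777) (W3 := 62277027) (N0 := 3) (En := eng) (mo := mog) (C1 := cd3q2a) (C2 := cd1q3) (C3 := pd1)
    rfl k0_pm_213_a

noncomputable def cut_pm_213_b : Cut := Cut.of [[⟨0, 1, 0, 67108864⟩, ⟨1, 1, 0, 67108864⟩, ⟨2, 2, 0, 16777216⟩]]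

noncomputable def f_pm_213_b : ℕ → ℕ → ℕ → ℕ → Bool := onCell 1239849684 370763052 1610612736 536870912 587336777 62277027
    (rowB 3 eng mog cd3q2b cd1q3 pd1 0 false true false .pnn 2 1 3 (qsf 1239849684 370763052 1610612736 536870912 1) ndB3q2b ndB1q3 pcB1 cut_pm_213_b Ext.none)

def k0_pm_213_b : ∃ t, chk3 f_pm_213_b t 1 1 1 = true :=
  ⟨(l 3), by decide +kernel⟩

theorem c_pm_213_b : CertB 1239849684 370763052 1610612736 536870912 587336777 62277027 3 eng mog cd3q2b cd1q3 pd1 false true false .pnn 2 1 3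
    ndB3q2b ndB1q3 pcB1 cut_pm_213_b Ext.none :=
  certB0 (fam := false) (s1 := true) (s2 := false) (a := 2) (b := 1) (c := 3) (cn := .pnn) (n1 := ndB3q2b) (n2 := ndB1q3) (pc := pcB1) (cut := cut_pm_213_b) (xt := Ext.none) (P1 := 1239849684) (W1 := 370763052) (P2 := 1610612736) (W2 := 536870912) (P3 := 587336777) (W3 := 62277027) (N0 := 3) (En := eng) (mo := mog) (C1 := cd3q2b) (C2 := cd1q3) (C3 := pd1)
    rfl k0_pm_213_b

noncomputable def f_pm_303 : ℕ → ℕ → ℕ → ℕ → Bool := onCell 1610612736 536870912 1610612736 536870912 587336777 62277027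
    (rowB 3 eng mog cd3q3 cd1q3 pd0 0 false true false .npn 3 0 3 (qsf 1610612736 536870912 1610612736 536870912 0) ndB3q3 ndB1q3 pcB0 Cut.none Ext.none)

def k0_pm_303 : ∃ t, chk3 f_pm_303 t 1 1 1 = true :=
  ⟨(l 3), by decide +kernel⟩

theorem c_pm_303 : CertB 1610612736 536870912 1610612736 536870912 587336777 62277027 3 eng mog cd3q3 cd1q3 pd0 false true false .npn 3 0 3
    ndB3q3 ndB1q3 pcB0 Cut.none Ext.none :=
  certB0 (fam := false) (s1 := true) (s2 := false) (a := 3) (b := 0) (c := 3) (cn := .npn) (n1 := ndB3q3) (n2 := ndB1q3) (pc := pcB0) (cut := Cut.none) (xt := Ext.none) (P1 := 1610612736) (W1 := 536870912) (P2 := 1610612736) (W2 := 536870912) (P3 := 587336777) (W3 := 62277027) (N0 := 3) (En := eng) (mo := mog) (C1 := cd3q3) (C2 := cd1q3) (C3 := pd0)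
    rfl k0_pm_303

noncomputable def f_pm_313 : ℕ → ℕ → ℕ → ℕ → Bool := onCell 1610612736 536870912 1610612736 536870912 587336777 62277027
    (rowB 3 eng mog cd3q3 cd1q3 pd1 0 false true false .dn 3 1 3 (qsf 1610612736 536870912 1610612736 536870912 1) ndB3q3 ndB1q3 pcB1 Cut.none Ext.none)

def k0_pm_313 : ∃ t, chk3 f_pm_313 t 1 1 1 = true :=
  ⟨(l 3), by decide +kernel⟩

theorem c_pm_313 : CertB 1610612736 536870912 1610612736 536870912 587336777 62277027 3 eng mog cd3q3 cd1q3 pd1 false true false .dn 3 1 3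
    ndB3q3 ndB1q3 pcB1 Cut.none Ext.none :=
  certB0 (fam := false) (s1 := true) (s2 := false) (a := 3) (b := 1) (c := 3) (cn := .dn) (n1 := ndB3q3) (n2 := ndB1q3) (pc := pcB1) (cut := Cut.none) (xt := Ext.none) (P1 := 1610612736) (W1 := 536870912) (P2 := 1610612736) (W2 := 536870912) (P3 := 587336777) (W3 := 62277027) (N0 := 3) (En := eng) (mo := mog) (C1 := cd3q3) (C2 := cd1q3) (C3 := pd1)
    rfl k0_pm_313

noncomputable def f_mm_001 : ℕ → ℕ → ℕ → ℕ → Bool := onCell 0 536870912 536870912 536870912 587336777 62277027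
    (rowB 3 eng mog cd3q0 cd1q1 pd0 0 false false false .up 0 0 1 (qsf 0 536870912 536870912 536870912 0) ndB3q0 ndB1q1 pcB0 Cut.none Ext.none)

def k0_mm_001 : ∃ t, chk3 f_mm_001 t 1 1 1 = true :=
  ⟨(l 5), by decide +kernel⟩

theorem c_mm_001 : CertB 0 536870912 536870912 536870912 587336777 62277027 3 eng mog cd3q0 cd1q1 pd0 false false false .up 0 0 1
    ndB3q0 ndB1q1 pcB0 Cut.none Ext.none :=
  certB0 (fam := false) (s1 := false) (s2 := false) (a := 0) (b := 0) (c := 1) (cn := .up) (n1 := ndB3q0) (n2 := ndB1q1) (pc := pcB0) (cut := Cut.none) (xt := Ext.none) (P1 := 0) (W1 := 536870912) (P2 := 536870912) (W2 := 536870912) (P3 := 587336777) (W3 := 62277027) (N0 := 3) (En := eng) (mo := mog) (C1 := cd3q0) (C2 := cd1q1) (C3 := pd0)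
    rfl k0_mm_001

noncomputable def f_mm_011 : ℕ → ℕ → ℕ → ℕ → Bool := onCell 0 536870912 536870912 536870912 587336777 62277027
    (rowB 3 eng mog cd3q0 cd1q1 pd1 0 false false false .pnn 0 1 1 (qsf 0 536870912 536870912 536870912 1) ndB3q0 ndB1q1 pcB1 Cut.none Ext.none)

def k0_mm_011 : ∃ t, chk3 f_mm_011 t 1 1 1 = true :=
  ⟨(l 5), by decide +kernel⟩

theorem c_mm_011 : CertB 0 536870912 536870912 536870912 587336777 62277027 3 eng mog cd3q0 cd1q1 pd1 false false false .pnn 0 1 1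
    ndB3q0 ndB1q1 pcB1 Cut.none Ext.none :=
  certB0 (fam := false) (s1 := false) (s2 := false) (a := 0) (b := 1) (c := 1) (cn := .pnn) (n1 := ndB3q0) (n2 := ndB1q1) (pc := pcB1) (cut := Cut.none) (xt := Ext.none) (P1 := 0) (W1 := 536870912) (P2 := 536870912) (W2 := 536870912) (P3 := 587336777) (W3 := 62277027) (N0 := 3) (En := eng) (mo := mog) (C1 := cd3q0) (C2 := cd1q1) (C3 := pd1)
    rfl k0_mm_011

noncomputable def f_mm_012_a : ℕ → ℕ → ℕ → ℕ → Bool := onCell 0 536870912 0 536870912 587336777 62277027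
    (rowB 3 eng mog cd3q0 cd1q2a pd1 0 false false false .pnp 0 1 2 (qsf 0 536870912 0 536870912 1) ndB3q0 ndB1q2a pcB1 Cut.none Ext.none)

def k0_mm_012_a : ∃ t, chk3 f_mm_012_a t 1 1 1 = true :=
  ⟨(l 5), by decide +kernel⟩

theorem c_mm_012_a : CertB 0 536870912 0 536870912 587336777 62277027 3 eng mog cd3q0 cd1q2a pd1 false false false .pnp 0 1 2
    ndB3q0 ndB1q2a pcB1 Cut.none Ext.none :=
  certB0 (fam := false) (s1 := false) (s2 := false) (a := 0) (b := 1) (c := 2) (cn := .pnp) (n1 := ndB3q0) (n2 := ndB1q2a) (pc := pcB1) (cut := Cut.none) (xt := Ext.none) (P1 := 0) (W1 := 536870912) (P2 := 0) (W2 := 536870912) (P3 := 587336777) (W3 := 62277027) (N0 := 3) (En := eng) (mo := mog) (C1 := cd3q0) (C2 := cd1q2a) (C3 := pd1)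
    rfl k0_mm_012_a

noncomputable def f_mm_012_b : ℕ → ℕ → ℕ → ℕ → Bool := onCell 0 536870912 1239849684 370763052 587336777 62277027
    (rowB 3 eng mog cd3q0 cd1q2b pd1 0 false false false .pnp 0 1 2 (qsf 0 536870912 1239849684 370763052 1) ndB3q0 ndB1q2b pcB1 Cut.none Ext.none)

def k0_mm_012_b : ∃ t, chk3 f_mm_012_b t 1 1 1 = true :=
  ⟨(l 5), by decide +kernel⟩

theorem c_mm_012_b : CertB 0 536870912 1239849684 370763052 587336777 62277027 3 eng mog cd3q0 cd1q2b pd1 false false false .pnp 0 1 2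
    ndB3q0 ndB1q2b pcB1 Cut.none Ext.none :=
  certB0 (fam := false) (s1 := false) (s2 := false) (a := 0) (b := 1) (c := 2) (cn := .pnp) (n1 := ndB3q0) (n2 := ndB1q2b) (pc := pcB1) (cut := Cut.none) (xt := Ext.none) (P1 := 0) (W1 := 536870912) (P2 := 1239849684) (W2 := 370763052) (P3 := 587336777) (W3 := 62277027) (N0 := 3) (En := eng) (mo := mog) (C1 := cd3q0) (C2 := cd1q2b) (C3 := pd1)
    rfl k0_mm_012_b

noncomputable def f_mm_022_a : ℕ → ℕ → ℕ → ℕ → Bool := onCell 0 536870912 0 536870912 587336777 62277027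
    (rowB 3 eng mog cd3q0 cd1q2a pd2 0 false false false .pp 0 2 2 (qsf 0 536870912 0 536870912 2) ndB3q0 ndB1q2a pcB2 Cut.none Ext.none)

def k0_mm_022_a : ∃ t, chk3 f_mm_022_a t 1 1 1 = true :=
  ⟨(l 5), by decide +kernel⟩

theorem c_mm_022_a : CertB 0 536870912 0 536870912 587336777 62277027 3 eng mog cd3q0 cd1q2a pd2 false false false .pp 0 2 2
    ndB3q0 ndB1q2a pcB2 Cut.none Ext.none :=
  certB0 (fam := false) (s1 := false) (s2 := false) (a := 0) (b := 2) (c := 2) (cn := .pp) (n1 := ndB3q0) (n2 := ndB1q2a) (pc := pcB2) (cut := Cut.none) (xt := Ext.none) (P1 := 0) (W1 := 536870912) (P2 := 0) (W2 := 536870912) (P3 := 587336777) (W3 := 62277027) (N0 := 3) (En := eng) (mo := mog) (C1 := cd3q0) (C2 := cd1q2a) (C3 := pd2)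
    rfl k0_mm_022_a

noncomputable def f_mm_022_b : ℕ → ℕ → ℕ → ℕ → Bool := onCell 0 536870912 1239849684 370763052 587336777 62277027
    (rowB 3 eng mog cd3q0 cd1q2b pd2 0 false false false .pp 0 2 2 (qsf 0 536870912 1239849684 370763052 2) ndB3q0 ndB1q2b pcB2 Cut.none Ext.none)

def k0_mm_022_b : ∃ t, chk3 f_mm_022_b t 1 1 1 = true :=
  ⟨(l 5), by decide +kernel⟩

theorem c_mm_022_b : CertB 0 536870912 1239849684 370763052 587336777 62277027 3 eng mog cd3q0 cd1q2b pd2 false false false .pp 0 2 2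
    ndB3q0 ndB1q2b pcB2 Cut.none Ext.none :=
  certB0 (fam := false) (s1 := false) (s2 := false) (a := 0) (b := 2) (c := 2) (cn := .pp) (n1 := ndB3q0) (n2 := ndB1q2b) (pc := pcB2) (cut := Cut.none) (xt := Ext.none) (P1 := 0) (W1 := 536870912) (P2 := 1239849684) (W2 := 370763052) (P3 := 587336777) (W3 := 62277027) (N0 := 3) (En := eng) (mo := mog) (C1 := cd3q0) (C2 := cd1q2b) (C3 := pd2)
    rfl k0_mm_022_b

noncomputable def f_mm_023 : ℕ → ℕ → ℕ → ℕ → Bool := onCell 0 536870912 1610612736 536870912 587336777 62277027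
    (rowB 3 eng mog cd3q0 cd1q3 pd2 0 false false false .up 0 2 3 (qsf 0 536870912 1610612736 536870912 2) ndB3q0 ndB1q3 pcB2 Cut.none Ext.none)

def k0_mm_023 : ∃ t, chk3 f_mm_023 t 1 1 1 = true :=
  ⟨(l 5), by decide +kernel⟩

theorem c_mm_023 : CertB 0 536870912 1610612736 536870912 587336777 62277027 3 eng mog cd3q0 cd1q3 pd2 false false false .up 0 2 3
    ndB3q0 ndB1q3 pcB2 Cut.none Ext.none :=
  certB0 (fam := false) (s1 := false) (s2 := false) (a := 0) (b := 2) (c := 3) (cn := .up) (n1 := ndB3q0) (n2 := ndB1q3) (pc := pcB2) (cut := Cut.none) (xt := Ext.none) (P1 := 0) (W1 := 536870912) (P2 := 1610612736) (W2 := 536870912) (P3 := 587336777) (W3 := 62277027) (N0 := 3) (En := eng) (mo := mog) (C1 := cd3q0) (C2 := cd1q3) (C3 := pd2)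
    rfl k0_mm_023

noncomputable def f_mm_033 : ℕ → ℕ → ℕ → ℕ → Bool := onCell 0 536870912 1610612736 536870912 587336777 62277027
    (rowB 3 eng mog cd3q0 cd1q3 pd3 0 false false false .pnn 0 3 3 (qsf 0 536870912 1610612736 536870912 3) ndB3q0 ndB1q3 pcB3 Cut.none Ext.none)

def k0_mm_033 : ∃ t, chk3 f_mm_033 t 1 1 1 = true :=
  ⟨(l 5), by decide +kernel⟩

theorem c_mm_033 : CertB 0 536870912 1610612736 536870912 587336777 62277027 3 eng mog cd3q0 cd1q3 pd3 false false false .pnn 0 3 3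
    ndB3q0 ndB1q3 pcB3 Cut.none Ext.none :=
  certB0 (fam := false) (s1 := false) (s2 := false) (a := 0) (b := 3) (c := 3) (cn := .pnn) (n1 := ndB3q0) (n2 := ndB1q3) (pc := pcB3) (cut := Cut.none) (xt := Ext.none) (P1 := 0) (W1 := 536870912) (P2 := 1610612736) (W2 := 536870912) (P3 := 587336777) (W3 := 62277027) (N0 := 3) (En := eng) (mo := mog) (C1 := cd3q0) (C2 := cd1q3) (C3 := pd3)
    rfl k0_mm_033

noncomputable def f_mm_101 : ℕ → ℕ → ℕ → ℕ → Bool := onCell 536870912 536870912 536870912 536870912 587336777 62277027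
    (rowB 3 eng mog cd3q1 cd1q1 pd0 0 false false false .npn 1 0 1 (qsf 536870912 536870912 536870912 536870912 0) ndB3q1 ndB1q1 pcB0 Cut.none Ext.none)

def k0_mm_101 : ∃ t, chk3 f_mm_101 t 1 1 1 = true :=
  ⟨(l 3), by decide +kernel⟩

theorem c_mm_101 : CertB 536870912 536870912 536870912 536870912 587336777 62277027 3 eng mog cd3q1 cd1q1 pd0 false false false .npn 1 0 1
    ndB3q1 ndB1q1 pcB0 Cut.none Ext.none :=
  certB0 (fam := false) (s1 := false) (s2 := false) (a := 1) (b := 0) (c := 1) (cn := .npn) (n1 := ndB3q1) (n2 := ndB1q1) (pc := pcB0) (cut := Cut.none) (xt := Ext.none) (P1 := 536870912) (W1 := 536870912) (P2 := 536870912) (W2 := 536870912) (P3 := 587336777) (W3 := 62277027) (N0 := 3) (En := eng) (mo := mog) (C1 := cd3q1) (C2 := cd1q1) (C3 := pd0)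
    rfl k0_mm_101

noncomputable def f_mm_102_a : ℕ → ℕ → ℕ → ℕ → Bool := onCell 536870912 536870912 0 536870912 587336777 62277027
    (rowB 3 eng mog cd3q1 cd1q2a pd0 0 false false false .npp 1 0 2 (qsf 536870912 536870912 0 536870912 0) ndB3q1 ndB1q2a pcB0 Cut.none Ext.none)

def k0_mm_102_a : ∃ t, chk3 f_mm_102_a t 1 1 1 = true :=
  ⟨(l 5), by decide +kernel⟩

theorem c_mm_102_a : CertB 536870912 536870912 0 536870912 587336777 62277027 3 eng mog cd3q1 cd1q2a pd0 false false false .npp 1 0 2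
    ndB3q1 ndB1q2a pcB0 Cut.none Ext.none :=
  certB0 (fam := false) (s1 := false) (s2 := false) (a := 1) (b := 0) (c := 2) (cn := .npp) (n1 := ndB3q1) (n2 := ndB1q2a) (pc := pcB0) (cut := Cut.none) (xt := Ext.none) (P1 := 536870912) (W1 := 536870912) (P2 := 0) (W2 := 536870912) (P3 := 587336777) (W3 := 62277027) (N0 := 3) (En := eng) (mo := mog) (C1 := cd3q1) (C2 := cd1q2a) (C3 := pd0)
    rfl k0_mm_102_a

noncomputable def f_mm_102_b : ℕ → ℕ → ℕ → ℕ → Bool := onCell 536870912 536870912 1239849684 370763052 587336777 62277027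
    (rowB 3 eng mog cd3q1 cd1q2b pd0 0 false false false .npp 1 0 2 (qsf 536870912 536870912 1239849684 370763052 0) ndB3q1 ndB1q2b pcB0 Cut.none Ext.none)

def k0_mm_102_b : ∃ t, chk3 f_mm_102_b t 1 1 1 = true :=
  ⟨(l 5), by decide +kernel⟩

theorem c_mm_102_b : CertB 536870912 536870912 1239849684 370763052 587336777 62277027 3 eng mog cd3q1 cd1q2b pd0 false false false .npp 1 0 2
    ndB3q1 ndB1q2b pcB0 Cut.none Ext.none :=
  certB0 (fam := false) (s1 := false) (s2 := false) (a := 1) (b := 0) (c := 2) (cn := .npp) (n1 := ndB3q1) (n2 := ndB1q2b) (pc := pcB0) (cut := Cut.none) (xt := Ext.none) (P1 := 536870912) (W1 := 536870912) (P2 := 1239849684) (W2 := 370763052) (P3 := 587336777) (W3 := 62277027) (N0 := 3) (En := eng) (mo := mog) (C1 := cd3q1) (C2 := cd1q2b) (C3 := pd0)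
    rfl k0_mm_102_b

noncomputable def f_mm_112_a : ℕ → ℕ → ℕ → ℕ → Bool := onCell 536870912 536870912 0 536870912 587336777 62277027
    (rowB 3 eng mog cd3q1 cd1q2a pd1 0 false false false .dn 1 1 2 (qsf 536870912 536870912 0 536870912 1) ndB3q1 ndB1q2a pcB1 Cut.none Ext.none)

def k0_mm_112_a : ∃ t, chk3 f_mm_112_a t 1 1 1 = true :=
  ⟨(l 5), by decide +kernel⟩

theorem c_mm_112_a : CertB 536870912 536870912 0 536870912 587336777 62277027 3 eng mog cd3q1 cd1q2a pd1 false false false .dn 1 1 2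
    ndB3q1 ndB1q2a pcB1 Cut.none Ext.none :=
  certB0 (fam := false) (s1 := false) (s2 := false) (a := 1) (b := 1) (c := 2) (cn := .dn) (n1 := ndB3q1) (n2 := ndB1q2a) (pc := pcB1) (cut := Cut.none) (xt := Ext.none) (P1 := 536870912) (W1 := 536870912) (P2 := 0) (W2 := 536870912) (P3 := 587336777) (W3 := 62277027) (N0 := 3) (En := eng) (mo := mog) (C1 := cd3q1) (C2 := cd1q2a) (C3 := pd1)
    rfl k0_mm_112_a

noncomputable def f_mm_112_b : ℕ → ℕ → ℕ → ℕ → Bool := onCell 536870912 536870912 1239849684 370763052 587336777 62277027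
    (rowB 3 eng mog cd3q1 cd1q2b pd1 0 false false false .dn 1 1 2 (qsf 536870912 536870912 1239849684 370763052 1) ndB3q1 ndB1q2b pcB1 Cut.none Ext.none)

def k0_mm_112_b : ∃ t, chk3 f_mm_112_b t 1 1 1 = true :=
  ⟨(l 5), by decide +kernel⟩

theorem c_mm_112_b : CertB 536870912 536870912 1239849684 370763052 587336777 62277027 3 eng mog cd3q1 cd1q2b pd1 false false false .dn 1 1 2
    ndB3q1 ndB1q2b pcB1 Cut.none Ext.none :=
  certB0 (fam := false) (s1 := false) (s2 := false) (a := 1) (b := 1) (c := 2) (cn := .dn) (n1 := ndB3q1) (n2 := ndB1q2b) (pc := pcB1) (cut := Cut.none) (xt := Ext.none) (P1 := 536870912) (W1 := 536870912) (P2 := 1239849684) (W2 := 370763052) (P3 := 587336777) (W3 := 62277027) (N0 := 3) (En := eng) (mo := mog) (C1 := cd3q1) (C2 := cd1q2b) (C3 := pd1)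
    rfl k0_mm_112_b

noncomputable def f_mm_113 : ℕ → ℕ → ℕ → ℕ → Bool := onCell 536870912 536870912 1610612736 536870912 587336777 62277027
    (rowB 3 eng mog cd3q1 cd1q3 pd1 0 false false false .nn 1 1 3 (qsf 536870912 536870912 1610612736 536870912 1) ndB3q1 ndB1q3 pcB1 Cut.none Ext.none)

def k0_mm_113 : ∃ t, chk3 f_mm_113 t 1 1 1 = true :=
  ⟨(l 5), by decide +kernel⟩

theorem c_mm_113 : CertB 536870912 536870912 1610612736 536870912 587336777 62277027 3 eng mog cd3q1 cd1q3 pd1 false false false .nn 1 1 3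
    ndB3q1 ndB1q3 pcB1 Cut.none Ext.none :=
  certB0 (fam := false) (s1 := false) (s2 := false) (a := 1) (b := 1) (c := 3) (cn := .nn) (n1 := ndB3q1) (n2 := ndB1q3) (pc := pcB1) (cut := Cut.none) (xt := Ext.none) (P1 := 536870912) (W1 := 536870912) (P2 := 1610612736) (W2 := 536870912) (P3 := 587336777) (W3 := 62277027) (N0 := 3) (En := eng) (mo := mog) (C1 := cd3q1) (C2 := cd1q3) (C3 := pd1)
    rfl k0_mm_113

noncomputable def f_mm_123 : ℕ → ℕ → ℕ → ℕ → Bool := onCell 536870912 536870912 1610612736 536870912 587336777 62277027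
    (rowB 3 eng mog cd3q1 cd1q3 pd2 0 false false false .npn 1 2 3 (qsf 536870912 536870912 1610612736 536870912 2) ndB3q1 ndB1q3 pcB2 Cut.none Ext.none)

def k0_mm_123 : ∃ t, chk3 f_mm_123 t 1 1 1 = true :=
  ⟨(l 5), by decide +kernel⟩

theorem c_mm_123 : CertB 536870912 536870912 1610612736 536870912 587336777 62277027 3 eng mog cd3q1 cd1q3 pd2 false false false .npn 1 2 3
    ndB3q1 ndB1q3 pcB2 Cut.none Ext.none :=
  certB0 (fam := false) (s1 := false) (s2 := false) (a := 1) (b := 2) (c := 3) (cn := .npn) (n1 := ndB3q1) (n2 := ndB1q3) (pc := pcB2) (cut := Cut.none) (xt := Ext.none) (P1 := 536870912) (W1 := 536870912) (P2 := 1610612736) (W2 := 536870912) (P3 := 587336777) (W3 := 62277027) (N0 := 3) (En := eng) (mo := mog) (C1 := cd3q1) (C2 := cd1q3) (C3 := pd2)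
    rfl k0_mm_123

noncomputable def f_mm_133 : ℕ → ℕ → ℕ → ℕ → Bool := onCell 536870912 536870912 1610612736 536870912 587336777 62277027
    (rowB 3 eng mog cd3q1 cd1q3 pd3 0 false false false .dn 1 3 3 (qsf 536870912 536870912 1610612736 536870912 3) ndB3q1 ndB1q3 pcB3 Cut.none Ext.none)

def k0_mm_133 : ∃ t, chk3 f_mm_133 t 1 1 1 = true :=
  ⟨(l 5), by decide +kernel⟩

theorem c_mm_133 : CertB 536870912 536870912 1610612736 536870912 587336777 62277027 3 eng mog cd3q1 cd1q3 pd3 false false false .dn 1 3 3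
    ndB3q1 ndB1q3 pcB3 Cut.none Ext.none :=
  certB0 (fam := false) (s1 := false) (s2 := false) (a := 1) (b := 3) (c := 3) (cn := .dn) (n1 := ndB3q1) (n2 := ndB1q3) (pc := pcB3) (cut := Cut.none) (xt := Ext.none) (P1 := 536870912) (W1 := 536870912) (P2 := 1610612736) (W2 := 536870912) (P3 := 587336777) (W3 := 62277027) (N0 := 3) (En := eng) (mo := mog) (C1 := cd3q1) (C2 := cd1q3) (C3 := pd3)
    rfl k0_mm_133

noncomputable def f_mm_202_aa : ℕ → ℕ → ℕ → ℕ → Bool := onCell 0 536870912 0 536870912 587336777 62277027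
    (rowB 3 eng mog cd3q2a cd1q2a pd0 0 false false false .pp 2 0 2 (qsf 0 536870912 0 536870912 0) ndB3q2a ndB1q2a pcB0 Cut.none Ext.none)

def k0_mm_202_aa : ∃ t, chk3 f_mm_202_aa t 1 1 1 = true :=
  ⟨(l 3), by decide +kernel⟩

theorem c_mm_202_aa : CertB 0 536870912 0 536870912 587336777 62277027 3 eng mog cd3q2a cd1q2a pd0 false false false .pp 2 0 2
    ndB3q2a ndB1q2a pcB0 Cut.none Ext.none :=
  certB0 (fam := false) (s1 := false) (s2 := false) (a := 2) (b := 0) (c := 2) (cn := .pp) (n1 := ndB3q2a) (n2 := ndB1q2a) (pc := pcB0) (cut := Cut.none) (xt := Ext.none) (P1 := 0) (W1 := 536870912) (P2 := 0) (W2 := 536870912) (P3 := 587336777) (W3 := 62277027) (N0 := 3) (En := eng) (mo := mog) (C1 := cd3q2a) (C2 := cd1q2a) (C3 := pd0)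
    rfl k0_mm_202_aa

noncomputable def f_mm_202_ab : ℕ → ℕ → ℕ → ℕ → Bool := onCell 0 536870912 1239849684 370763052 587336777 62277027
    (rowB 3 eng mog cd3q2a cd1q2b pd0 0 false false false .pp 2 0 2 (qsf 0 536870912 1239849684 370763052 0) ndB3q2a ndB1q2b pcB0 Cut.none Ext.none)

def k0_mm_202_ab : ∃ t, chk3 f_mm_202_ab t 1 1 1 = true :=
  ⟨(l 3), by decide +kernel⟩

theorem c_mm_202_ab : CertB 0 536870912 1239849684 370763052 587336777 62277027 3 eng mog cd3q2a cd1q2b pd0 false false false .pp 2 0 2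
    ndB3q2a ndB1q2b pcB0 Cut.none Ext.none :=
  certB0 (fam := false) (s1 := false) (s2 := false) (a := 2) (b := 0) (c := 2) (cn := .pp) (n1 := ndB3q2a) (n2 := ndB1q2b) (pc := pcB0) (cut := Cut.none) (xt := Ext.none) (P1 := 0) (W1 := 536870912) (P2 := 1239849684) (W2 := 370763052) (P3 := 587336777) (W3 := 62277027) (N0 := 3) (En := eng) (mo := mog) (C1 := cd3q2a) (C2 := cd1q2b) (C3 := pd0)
    rfl k0_mm_202_ab

noncomputable def f_mm_202_ba : ℕ → ℕ → ℕ → ℕ → Bool := onCell 1239849684 370763052 0 536870912 587336777 62277027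
    (rowB 3 eng mog cd3q2b cd1q2a pd0 0 false false false .pp 2 0 2 (qsf 1239849684 370763052 0 536870912 0) ndB3q2b ndB1q2a pcB0 Cut.none Ext.none)

def k0_mm_202_ba : ∃ t, chk3 f_mm_202_ba t 1 1 1 = true :=
  ⟨(l 3), by decide +kernel⟩

theorem c_mm_202_ba : CertB 1239849684 370763052 0 536870912 587336777 62277027 3 eng mog cd3q2b cd1q2a pd0 false false false .pp 2 0 2
    ndB3q2b ndB1q2a pcB0 Cut.none Ext.none :=
  certB0 (fam := false) (s1 := false) (s2 := false) (a := 2) (b := 0) (c := 2) (cn := .pp) (n1 := ndB3q2b) (n2 := ndB1q2a) (pc := pcB0) (cut := Cut.none) (xt := Ext.none) (P1 := 1239849684) (W1 := 370763052) (P2 := 0) (W2 := 536870912) (P3 := 587336777) (W3 := 62277027) (N0 := 3) (En := eng) (mo := mog) (C1 := cd3q2b) (C2 := cd1q2a) (C3 := pd0)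
    rfl k0_mm_202_ba

noncomputable def f_mm_202_bb : ℕ → ℕ → ℕ → ℕ → Bool := onCell 1239849684 370763052 1239849684 370763052 587336777 62277027
    (rowB 3 eng mog cd3q2b cd1q2b pd0 0 false false false .pp 2 0 2 (qsf 1239849684 370763052 1239849684 370763052 0) ndB3q2b ndB1q2b pcB0 Cut.none Ext.none)

def k0_mm_202_bb : ∃ t, chk3 f_mm_202_bb t 1 1 1 = true :=
  ⟨(l 3), by decide +kernel⟩

theorem c_mm_202_bb : CertB 1239849684 370763052 1239849684 370763052 587336777 62277027 3 eng mog cd3q2b cd1q2b pd0 false false false .pp 2 0 2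
    ndB3q2b ndB1q2b pcB0 Cut.none Ext.none :=
  certB0 (fam := false) (s1 := false) (s2 := false) (a := 2) (b := 0) (c := 2) (cn := .pp) (n1 := ndB3q2b) (n2 := ndB1q2b) (pc := pcB0) (cut := Cut.none) (xt := Ext.none) (P1 := 1239849684) (W1 := 370763052) (P2 := 1239849684) (W2 := 370763052) (P3 := 587336777) (W3 := 62277027) (N0 := 3) (En := eng) (mo := mog) (C1 := cd3q2b) (C2 := cd1q2b) (C3 := pd0)
    rfl k0_mm_202_bb

noncomputable def f_mm_203_a : ℕ → ℕ → ℕ → ℕ → Bool := onCell 0 536870912 1610612736 536870912 587336777 62277027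
    (rowB 3 eng mog cd3q2a cd1q3 pd0 0 false false false .up 2 0 3 (qsf 0 536870912 1610612736 536870912 0) ndB3q2a ndB1q3 pcB0 Cut.none Ext.none)

def k0_mm_203_a : ∃ t, chk3 f_mm_203_a t 1 1 1 = true :=
  ⟨(l 5), by decide +kernel⟩

theorem c_mm_203_a : CertB 0 536870912 1610612736 536870912 587336777 62277027 3 eng mog cd3q2a cd1q3 pd0 false false false .up 2 0 3
    ndB3q2a ndB1q3 pcB0 Cut.none Ext.none :=
  certB0 (fam := false) (s1 := false) (s2 := false) (a := 2) (b := 0) (c := 3) (cn := .up) (n1 := ndB3q2a) (n2 := ndB1q3) (pc := pcB0) (cut := Cut.none) (xt := Ext.none) (P1 := 0) (W1 := 536870912) (P2 := 1610612736) (W2 := 536870912) (P3 := 587336777) (W3 := 62277027) (N0 := 3) (En := eng) (mo := mog) (C1 := cd3q2a) (C2 := cd1q3) (C3 := pd0)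
    rfl k0_mm_203_a

noncomputable def f_mm_203_b : ℕ → ℕ → ℕ → ℕ → Bool := onCell 1239849684 370763052 1610612736 536870912 587336777 62277027
    (rowB 3 eng mog cd3q2b cd1q3 pd0 0 false false false .up 2 0 3 (qsf 1239849684 370763052 1610612736 536870912 0) ndB3q2b ndB1q3 pcB0 Cut.none Ext.none)

def k0_mm_203_b : ∃ t, chk3 f_mm_203_b t 1 1 1 = true :=
  ⟨(l 3), by decide +kernel⟩

theorem c_mm_203_b : CertB 1239849684 370763052 1610612736 536870912 587336777 62277027 3 eng mog cd3q2b cd1q3 pd0 false false false .up 2 0 3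
    ndB3q2b ndB1q3 pcB0 Cut.none Ext.none :=
  certB0 (fam := false) (s1 := false) (s2 := false) (a := 2) (b := 0) (c := 3) (cn := .up) (n1 := ndB3q2b) (n2 := ndB1q3) (pc := pcB0) (cut := Cut.none) (xt := Ext.none) (P1 := 1239849684) (W1 := 370763052) (P2 := 1610612736) (W2 := 536870912) (P3 := 587336777) (W3 := 62277027) (N0 := 3) (En := eng) (mo := mog) (C1 := cd3q2b) (C2 := cd1q3) (C3 := pd0)
    rfl k0_mm_203_b

noncomputable def f_mm_213_a : ℕ → ℕ → ℕ → ℕ → Bool := onCell 0 536870912 1610612736 536870912 587336777 62277027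
    (rowB 3 eng mog cd3q2a cd1q3 pd1 0 false false false .pnn 2 1 3 (qsf 0 536870912 1610612736 536870912 1) ndB3q2a ndB1q3 pcB1 Cut.none Ext.none)

def k0_mm_213_a : ∃ t, chk3 f_mm_213_a t 1 1 1 = true :=
  ⟨(l 5), by decide +kernel⟩

theorem c_mm_213_a : CertB 0 536870912 1610612736 536870912 587336777 62277027 3 eng mog cd3q2a cd1q3 pd1 false false false .pnn 2 1 3
    ndB3q2a ndB1q3 pcB1 Cut.none Ext.none :=
  certB0 (fam := false) (s1 := false) (s2 := false) (a := 2) (b := 1) (c := 3) (cn := .pnn) (n1 := ndB3q2a) (n2 := ndB1q3) (pc := pcB1) (cut := Cut.none) (xt := Ext.none) (P1 := 0) (W1 := 536870912) (P2 := 1610612736) (W2 := 536870912) (P3 := 587336777) (W3 := 62277027) (N0 := 3) (En := eng) (mo := mog) (C1 := cd3q2a) (C2 := cd1q3) (C3 := pd1)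
    rfl k0_mm_213_a

noncomputable def f_mm_213_b : ℕ → ℕ → ℕ → ℕ → Bool := onCell 1239849684 370763052 1610612736 536870912 587336777 62277027
    (rowB 3 eng mog cd3q2b cd1q3 pd1 0 false false false .pnn 2 1 3 (qsf 1239849684 370763052 1610612736 536870912 1) ndB3q2b ndB1q3 pcB1 Cut.none Ext.none)

def k0_mm_213_b : ∃ t, chk3 f_mm_213_b t 1 1 1 = true :=
  ⟨(l 3), by decide +kernel⟩

theorem c_mm_213_b : CertB 1239849684 370763052 1610612736 536870912 587336777 62277027 3 eng mog cd3q2b cd1q3 pd1 false false false .pnn 2 1 3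
    ndB3q2b ndB1q3 pcB1 Cut.none Ext.none :=
  certB0 (fam := false) (s1 := false) (s2 := false) (a := 2) (b := 1) (c := 3) (cn := .pnn) (n1 := ndB3q2b) (n2 := ndB1q3) (pc := pcB1) (cut := Cut.none) (xt := Ext.none) (P1 := 1239849684) (W1 := 370763052) (P2 := 1610612736) (W2 := 536870912) (P3 := 587336777) (W3 := 62277027) (N0 := 3) (En := eng) (mo := mog) (C1 := cd3q2b) (C2 := cd1q3) (C3 := pd1)
    rfl k0_mm_213_b

noncomputable def f_mm_303 : ℕ → ℕ → ℕ → ℕ → Bool := onCell 1610612736 536870912 1610612736 536870912 587336777 62277027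
    (rowB 3 eng mog cd3q3 cd1q3 pd0 0 false false false .npn 3 0 3 (qsf 1610612736 536870912 1610612736 536870912 0) ndB3q3 ndB1q3 pcB0 Cut.none Ext.none)

def k0_mm_303 : ∃ t, chk3 f_mm_303 t 1 1 1 = true :=
  ⟨(l 3), by decide +kernel⟩

theorem c_mm_303 : CertB 1610612736 536870912 1610612736 536870912 587336777 62277027 3 eng mog cd3q3 cd1q3 pd0 false false false .npn 3 0 3
    ndB3q3 ndB1q3 pcB0 Cut.none Ext.none :=
  certB0 (fam := false) (s1 := false) (s2 := false) (a := 3) (b := 0) (c := 3) (cn := .npn) (n1 := ndB3q3) (n2 := ndB1q3) (pc := pcB0) (cut := Cut.none) (xt := Ext.none) (P1 := 1610612736) (W1 := 536870912) (P2 := 1610612736) (W2 := 536870912) (P3 := 587336777) (W3 := 62277027) (N0 := 3) (En := eng) (mo := mog) (C1 := cd3q3) (C2 := cd1q3) (C3 := pd0)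
    rfl k0_mm_303

noncomputable def f_mm_313 : ℕ → ℕ → ℕ → ℕ → Bool := onCell 1610612736 536870912 1610612736 536870912 587336777 62277027
    (rowB 3 eng mog cd3q3 cd1q3 pd1 0 false false false .dn 3 1 3 (qsf 1610612736 536870912 1610612736 536870912 1) ndB3q3 ndB1q3 pcB1 Cut.none Ext.none)

def k0_mm_313 : ∃ t, chk3 f_mm_313 t 1 1 1 = true :=
  ⟨(l 3), by decide +kernel⟩

theorem c_mm_313 : CertB 1610612736 536870912 1610612736 536870912 587336777 62277027 3 eng mog cd3q3 cd1q3 pd1 false false false .dn 3 1 3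
    ndB3q3 ndB1q3 pcB1 Cut.none Ext.none :=
  certB0 (fam := false) (s1 := false) (s2 := false) (a := 3) (b := 1) (c := 3) (cn := .dn) (n1 := ndB3q3) (n2 := ndB1q3) (pc := pcB1) (cut := Cut.none) (xt := Ext.none) (P1 := 1610612736) (W1 := 536870912) (P2 := 1610612736) (W2 := 536870912) (P3 := 587336777) (W3 := 62277027) (N0 := 3) (En := eng) (mo := mog) (C1 := cd3q3) (C2 := cd1q3) (C3 := pd1)
    rfl k0_mm_313

end Pool.Agent.Strip051.G.I5470_6050.Tab.C.BB31

namespace Pool.Agent.Strip051.G.I5470_6050.Tab.C.BB32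

open Pool.Agent.Strip051.PB Pool.Agent.Strip051.PB.T
open Pool.Agent.Strip051.G.I5470_6050.Tab

noncomputable def f_pp_001 : ℕ → ℕ → ℕ → ℕ → Bool := onCell 0 536870912 536870912 536870912 587336777 62277027
    (rowB 3 eng mog cd3q0 cd2q1 pd0 0 false true true .up 0 0 1 (qsf 0 536870912 536870912 536870912 0) ndB3q0 ndB2q1 pcB0 Cut.none Ext.none)

def k0_pp_001 : ∃ t, chk3 f_pp_001 t 1 1 1 = true :=
  ⟨(l 3), by decide +kernel⟩

theorem c_pp_001 : CertB 0 536870912 536870912 536870912 587336777 62277027 3 eng mog cd3q0 cd2q1 pd0 false true true .up 0 0 1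
    ndB3q0 ndB2q1 pcB0 Cut.none Ext.none :=
  certB0 (fam := false) (s1 := true) (s2 := true) (a := 0) (b := 0) (c := 1) (cn := .up) (n1 := ndB3q0) (n2 := ndB2q1) (pc := pcB0) (cut := Cut.none) (xt := Ext.none) (P1 := 0) (W1 := 536870912) (P2 := 536870912) (W2 := 536870912) (P3 := 587336777) (W3 := 62277027) (N0 := 3) (En := eng) (mo := mog) (C1 := cd3q0) (C2 := cd2q1) (C3 := pd0)
    rfl k0_pp_001

noncomputable def f_pp_011 : ℕ → ℕ → ℕ → ℕ → Bool := onCell 0 536870912 536870912 536870912 587336777 62277027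
    (rowB 3 eng mog cd3q0 cd2q1 pd1 0 false true true .pnn 0 1 1 (qsf 0 536870912 536870912 536870912 1) ndB3q0 ndB2q1 pcB1 Cut.none Ext.none)

def k0_pp_011 : ∃ t, chk3 f_pp_011 t 1 1 1 = true :=
  ⟨(l 3), by decide +kernel⟩

theorem c_pp_011 : CertB 0 536870912 536870912 536870912 587336777 62277027 3 eng mog cd3q0 cd2q1 pd1 false true true .pnn 0 1 1
    ndB3q0 ndB2q1 pcB1 Cut.none Ext.none :=
  certB0 (fam := false) (s1 := true) (s2 := true) (a := 0) (b := 1) (c := 1) (cn := .pnn) (n1 := ndB3q0) (n2 := ndB2q1) (pc := pcB1) (cut := Cut.none) (xt := Ext.none) (P1 := 0) (W1 := 536870912) (P2 := 536870912) (W2 := 536870912) (P3 := 587336777) (W3 := 62277027) (N0 := 3) (En := eng) (mo := mog) (C1 := cd3q0) (C2 := cd2q1) (C3 := pd1)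
    rfl k0_pp_011

noncomputable def cut_pp_012_a : Cut := Cut.of [[⟨0, 0, 0, 44739242⟩, ⟨1, 1, 0, 44739242⟩, ⟨2, 1, 0, 44739242⟩]]

noncomputable def f_pp_012_a : ℕ → ℕ → ℕ → ℕ → Bool := onCell 536870912 536870912 0 536870912 587336777 62277027
    (rowB 3 eng mog cd3q0 cd2q2a pd1 2 false true true .pnp 0 1 2 (qsf 0 536870912 0 536870912 1) ndB3q0 ndB2q2a pcB1 cut_pp_012_a Ext.none)

def k0_pp_012_a : ∃ t, chk3 f_pp_012_a t 2 1 1 = true :=
  ⟨(a (b (b (l 2) (b (l 2) (b (l 2) (l 3)))) (l 3)) (b (a (b (b (l 16729456) (l 16722168)) (b (a (b (l 16663584) (l 16662256)) (b (l 16703088) (l 16667696))) (a (b (l 102173089815) (l 169281926935)) (b (l 16680696) (l 16700240))))) (b (b (l 16718280) (l 16730312)) (b (a (b (l 16725168) (l 16702912)) (l 16732448)) (a (b (l 16683280) (l 16702312)) (b (l 16703992) (l 16699800)))))) (b (a (l 3) (b (a (b (l 116668646055) (l 3)) (b (l 16725016) (l 138143535911))) (l 3))) (l 3)))), by decide +kernel⟩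

def k1_pp_012_a : ∃ t, chk3 f_pp_012_a t 6 1 1 = true :=
  ⟨(b (a (b (b (l 16689112) (a (l 16718144) (l 16703104))) (a (b (l 16734472) (b (l 16733080) (l 16706480))) (b (l 16726096) (l 16740392)))) (b (a (b (l 16657856) (l 16682872)) (l 16646384)) (b (a (l 16708960) (l 16686224)) (a (l 16734440) (l 16716136))))) (b (a (b (b (a (l 16716952) (l 16718744)) (a (l 16724008) (l 16732576))) (b (a (l 178408900519) (a (l 16765624) (l 16756696))) (a (l 3) (l 202568114967)))) (b (a (b (l 16743944) (l 16728440)) (b (l 16737648) (l 16747696))) (a (b (l 16743400) (a (l 16799272) (l 16767336))) (b (l 16737544) (a (l 16756960) (l 16748984)))))) (a (l 3) (b (b (a (l 241759718103) (a (l 206326336199) (l 162839788055))) (l 3)) (l 3))))), by decide +kernel⟩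

def k2_pp_012_a : ∃ t, chk3 f_pp_012_a t 7 1 1 = true :=
  ⟨(b (a (b (a (l 16620280) (l 16593480)) (a (b (l 16659832) (l 16691080)) (b (l 16631440) (l 16662808)))) (b (a (b (l 16556800) (l 16577464)) (b (l 16533872) (l 16553216))) (a (b (l 16603360) (l 16634192)) (b (l 16577728) (l 16586576))))) (a (b (b (a (l 16725088) (l 16698072)) (a (b (l 16748792) (l 16831088)) (b (l 16726776) (l 16746416)))) (b (a (a (b (l 16787344) (l 210084345063)) (b (l 16779184) (a (l 177335279031) (l 167671604391)))) (b (a (l 16754672) (l 16759096)) (a (b (l 16770432) (l 105394572071)) (l 16830000)))) (a (l 3) (b (b (a (l 218674283543) (l 183777705959)) (l 3)) (l 3))))) (b (a (b (l 16690072) (a (l 16715904) (l 16722144))) (b (a (l 16648384) (l 16635416)) (a (l 16686576) (b (l 16662520) (l 16681912))))) (b (a (b (a (l 16747264) (l 16732144)) (a (l 16763984) (l 16753808))) (b (a (l 16716832) (l 16702128)) (a (b (l 16733224) (l 16744424)) (b (l 16738992) (a (l 16733144) (l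 16725848)))))) (a (b (a (b (l 16795720) (b (l 105394530375) (l 181630173431))) (b (l 16766000) (a (l 16800648) (l 16773432)))) (b (a (l 3) (b (a (l 160155353623) (l 170355901799)) (l 3))) (l 3))) (b (a (b (l 16755976) (a (l 16769144) (l 16764224))) (a (b (l 16744752) (l 16756808)) (b (l 16737328) (l 6)))) (a (b (a (b (l 16777568) (b (l 16803968) (l 151028543303))) (b (l 16771600) (l 6))) (l 6)) (l 6)))))))), by decide +kernel⟩

theorem s3_pp_012_a : ∃ t, chk3 f_pp_012_a t 3 1 1 = true := ex3_a k1_pp_012_a k2_pp_012_a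

theorem s4_pp_012_a : ∃ t, chk3 f_pp_012_a t 1 1 1 = true := ex3_a k0_pp_012_a s3_pp_012_a

theorem c_pp_012_a : CertB 0 536870912 0 536870912 587336777 62277027 3 eng mog cd3q0 cd2q2a pd1 false true true .pnp 0 1 2
    ndB3q0 ndB2q2a pcB1 cut_pp_012_a Ext.none :=
  certB2 (fam := false) (s1 := true) (s2 := true) (a := 0) (b := 1) (c := 2) (cn := .pnp) (n1 := ndB3q0) (n2 := ndB2q2a) (pc := pcB1) (cut := cut_pp_012_a) (xt := Ext.none) (P1 := 0) (W1 := 536870912) (P2 := 0) (W2 := 536870912) (P3 := 587336777) (W3 := 62277027) (N0 := 3) (En := eng) (mo := mog) (C1 := cd3q0) (C2 := cd2q2a) (C3 := pd1)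
    rfl (fun _ => rfl) s4_pp_012_a

noncomputable def cut_pp_012_b : Cut := Cut.of [[⟨0, 0, 0, 44739242⟩, ⟨1, 1, 0, 44739242⟩, ⟨2, 1, 0, 44739242⟩]]

noncomputable def f_pp_012_b : ℕ → ℕ → ℕ → ℕ → Bool := onCell 536870912 536870912 1239849684 370763052 587336777 62277027
    (rowB 3 eng mog cd3q0 cd2q2b pd1 2 false true true .pnp 0 1 2 (qsf 0 536870912 1239849684 370763052 1) ndB3q0 ndB2q2b pcB1 cut_pp_012_b Ext.none)

def k0_pp_012_b : ∃ t, chk3 f_pp_012_b t 1 1 1 = true :=
  ⟨(a (a (l 2) (b (a (b (l 16742584) (l 2)) (b (l 16695632) (l 16692416))) (l 2))) (b (a (a (b (b (l 16665776) (l 16648144)) (l 16640576)) (b (b (l 16617896) (l 16591696)) (l 16573616))) (a (b (b (a (l 16577000) (l 16548680)) (l 16526488)) (l 16494808)) (b (b (a (l 16520408) (l 16493216)) (l 16456088)) (l 16489384)))) (a (b (l 16651536) (l 2)) (a (l 16561216) (b (l 16387544) (l 16429744)))))), by decide +kernel⟩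

theorem c_pp_012_b : CertB 0 536870912 1239849684 370763052 587336777 62277027 3 eng mog cd3q0 cd2q2b pd1 false true true .pnp 0 1 2
    ndB3q0 ndB2q2b pcB1 cut_pp_012_b Ext.none :=
  certB2 (fam := false) (s1 := true) (s2 := true) (a := 0) (b := 1) (c := 2) (cn := .pnp) (n1 := ndB3q0) (n2 := ndB2q2b) (pc := pcB1) (cut := cut_pp_012_b) (xt := Ext.none) (P1 := 0) (W1 := 536870912) (P2 := 1239849684) (W2 := 370763052) (P3 := 587336777) (W3 := 62277027) (N0 := 3) (En := eng) (mo := mog) (C1 := cd3q0) (C2 := cd2q2b) (C3 := pd1)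
    rfl (fun _ => rfl) k0_pp_012_b

end Pool.Agent.Strip051.G.I5470_6050.Tab.C.BB32

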