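import Pool.Agent.Strip051.PB.DgE
import Pool.Agent.Strip051.PB.DgJ
import Pool.Agent.Strip051.G.I5470_6050.Fact

/-! # The corner (1, 1, 2): parameters of the degenerate charts (generated) -/

set_option linter.all false

namespace Pool.Agent.Strip051.G.I5470_6050.Tab.DG

open Pool.Agent.Strip051.PB Pool.Agent.Strip051.PB.Dg Pool.Agent.StripNear Pool.Agent.Strip051.LC

noncomputable def pFma : Fn1 := ⟨_, _, fun h1 => (enc_norm (enc_sub (enc_rat _ 3072509 150000000) (enc_scale 12791 1875000 (enc_subr 72 125 h1))))⟩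
noncomputable def pFmb : Fn1 := ⟨_, _, fun h1 => (enc_norm (enc_subr 10662461 75000000 (enc_neg (enc_scale 14631703 15000000 (enc_subr 72 125 h1)))))⟩
noncomputable def pFmu : Fn1 := ⟨_, _, fun h1 => (mug3.enc h1)⟩
noncomputable def pFnx : Fn1 := ⟨_, _, fun h1 => (enc_norm (enc_add h1 (enc_pnc _ 3)))⟩
noncomputable def pFc0 : Fn1 := ⟨_, _, fun h1 => (enc_pnc _ 1)⟩
noncomputable def pFkc : Fn1 := ⟨_, _, fun h1 => (enc_norm (enc_add (enc_scale 4557839 10000000 (enc_subr 72 125 h1)) (enc_rat _ 2411097 25000000)))⟩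
noncomputable def pFjc : Fn1 := ⟨_, _, fun h1 => (enc_norm (enc_subr 34052627 10000000 (enc_scale 883023 500000 (enc_subr 72 125 h1))))⟩
noncomputable def pFca : Fn1 := ⟨_, _, fun h1 => (enc_norm (enc_sub (enc_rat _ 899449 1000000) (enc_scale 614333 100000 (enc_subr 72 125 h1))))⟩
noncomputable def pFcb : Fn1 := ⟨_, _, fun h1 => (enc_norm (enc_subr 300473 250000 (enc_scale 340521 50000 (enc_subr 72 125 h1))))⟩
noncomputable def pFcc : Fn1 := ⟨_, _, fun h1 => (enc_norm (enc_sub (enc_rat _ 21344149 500000) (enc_scale 2707587 25000 (enc_subr 72 125 h1))))⟩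
noncomputable def pFsv : Fn1 := ⟨_, _, fun h1 => (enc_norm (enc_subr 1 16 h1))⟩
noncomputable def pFx11 : Fn1 := ⟨_, _, fun h1 => (cv1m.enc h1)⟩
noncomputable def pFx01 : Fn1 := ⟨_, _, fun h1 => (c1g.enc h1)⟩
noncomputable def pFK11 : Fn2 := ⟨_, _, fun h1 h2 => (kf1q1.enc h1 h2)⟩
noncomputable def pFK01 : Fn2 := ⟨_, _, fun h1 h2 => (kf0q1.enc h1 h2)⟩
noncomputable def pFL11 : Fn2 := ⟨_, _, fun h1 h2 => (l1q1.enc h1 h2)⟩
noncomputable def pFL01 : Fn2 := ⟨_, _, fun h1 h2 => (l0q1.enc h1 h2)⟩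
noncomputable def kFc0 : Fn1 := ⟨_, _, fun h1 => (enc_norm (enc_sub (enc_rat _ 1 4000000) (enc_scale 1 2000000 (enc_subr 72 125 h1))))⟩
noncomputable def kFc0g : Fn1 := ⟨_, _, fun h1 => (enc_norm (enc_subr 31577129 1000000 (enc_scale 19745869 100000 (enc_subr 72 125 h1))))⟩
noncomputable def kFc1 : Fn1 := ⟨_, _, fun h1 => (enc_norm (enc_subr 1 10000000 (enc_scale 1 2000000 (enc_subr 72 125 h1))))⟩
noncomputable def kFc1g : Fn1 := ⟨_, _, fun h1 => (enc_norm (enc_subr 687403 250000 (enc_neg (enc_scale 3197371 100000 (enc_subr 72 125 h1)))))⟩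
noncomputable def kFa0 : Fn1 := ⟨_, _, fun h1 => (enc_norm (enc_sub (enc_rat _ 1 10000000) (enc_scale 11 15000000 (enc_subr 72 125 h1))))⟩
noncomputable def kFa0g : Fn1 := ⟨_, _, fun h1 => (enc_norm (enc_subr 1187429 500000 (enc_scale 27151 5000 (enc_subr 72 125 h1))))⟩
noncomputable def kFb0 : Fn1 := ⟨_, _, fun h1 => (enc_norm (enc_subr 37 300000000 (enc_scale 1 937500 (enc_subr 72 125 h1))))⟩
noncomputable def kFb0g : Fn1 := ⟨_, _, fun h1 => (enc_norm (enc_sub (enc_rat _ 661703 500000) (enc_scale 848391 100000 (enc_subr 72 125 h1))))⟩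
noncomputable def kFb1 : Fn1 := ⟨_, _, fun h1 => (enc_norm (enc_subr 1 100000000 (enc_scale 3 5000000 (enc_subr 72 125 h1))))⟩
noncomputable def kFb1g : Fn1 := ⟨_, _, fun h1 => (enc_norm (enc_subr 231291 500000 (enc_neg (enc_scale 25419 100000 (enc_subr 72 125 h1)))))⟩
noncomputable def kFd0 : Fn1 := ⟨_, _, fun h1 => (enc_norm (enc_subr 11 75000000 (enc_scale 7 5000000 (enc_subr 72 125 h1))))⟩
noncomputable def kFd0g : Fn1 := ⟨_, _, fun h1 => (enc_norm (enc_sub (enc_rat _ 135977 500000) (enc_scale 576881 50000 (enc_subr 72 125 h1))))⟩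
noncomputable def kFd1 : Fn1 := ⟨_, _, fun h1 => (enc_norm (enc_subr 1 50000000 (enc_scale 3 2500000 (enc_subr 72 125 h1))))⟩
noncomputable def kFd1g : Fn1 := ⟨_, _, fun h1 => (enc_norm (enc_subr 231291 250000 (enc_neg (enc_scale 25419 50000 (enc_subr 72 125 h1)))))⟩
noncomputable def kFe0 : Fn1 := ⟨_, _, fun h1 => (enc_norm (enc_subr 7 300000000 (enc_scale 1 3000000 (enc_subr 72 125 h1))))⟩
noncomputable def kFe0g : Fn1 := ⟨_, _, fun h1 => (enc_norm (enc_subr 262863 250000 (enc_neg (enc_scale 305371 100000 (enc_subr 72 125 h1)))))⟩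
noncomputable def kFe1 : Fn1 := ⟨_, _, fun h1 => (enc_norm (enc_subr 1 100000000 (enc_scale 3 5000000 (enc_subr 72 125 h1))))⟩
noncomputable def kFe1g : Fn1 := ⟨_, _, fun h1 => (enc_norm (enc_subr 231291 500000 (enc_neg (enc_scale 25419 100000 (enc_subr 72 125 h1)))))⟩
noncomputable def cFxs1 : Fn1 := ⟨_, _, fun h1 => (enc_norm (enc_add (enc_scale 23 25 (dgxi.enc h1)) (enc_scale 2 25 (dgws.enc h1))))⟩
noncomputable def cFsB1_3 : Fn2 := ⟨_, _, fun h1 h2 => (enc_mul h1 (dgxi.enc h1))⟩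
noncomputable def cFsB1_9 : Fn2 := ⟨_, _, fun h1 h2 => (enc_subr 72 125 h2)⟩
noncomputable def cFsB1_20 : Fn2 := ⟨_, _, fun h1 h2 => (enc_inv h1)⟩
noncomputable def cFsB1 : Fn2 := ⟨_, _, fun h1 h2 => (enc_norm (enc_case (enc_sub (enc_rat _ 1 20) (cFsB1_3.enc h1 h2)) (enc_case (enc_sub (enc_rat _ 1 10) (cFsB1_3.enc h1 h2)) (enc_subr 9701419 5000000 (enc_sub (enc_mul (enc_norm (enc_add (enc_scale 573 100000 (cFsB1_9.enc h1 h2)) (enc_rat _ 90657 1000000))) (cFsB1_20.enc h1 h2)) (enc_mul (enc_norm (enc_subr 689 25000 (enc_scale 1181 2500 (cFsB1_9.enc h1 h2)))) (dgxi.enc h1)))) (enc_subr 9701419 5000000 (enc_sub (enc_mul (enc_norm (enc_sub (enc_rat _ 15139 1000000) (enc_scale 417 20000 (cFsB1_9.enc h1 h2)))) (cFsB1_20.enc h1 h2)) (enc_mul (enc_norm (enc_subr 39137 50000 (enc_scale 1033 5000 (cFsB1_9.enc h1 h2)))) (dgxi.enc h1))))) (enc_subr 9701419 5000000 (enc_neg (enc_mul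 (enc_norm (enc_subr 13569 12500 (enc_scale 1559 2500 (cFsB1_9.enc h1 h2)))) (dgxi.enc h1))))))⟩
noncomputable def cFBs1 : Fn2 := ⟨_, _, fun h1 h2 => (cFsB1.enc h1 h2)⟩
noncomputable def cFsX1_3 : Fn2 := ⟨_, _, fun h1 h2 => (enc_mul h1 (dgxi.enc h1))⟩
noncomputable def cFsX1_9 : Fn2 := ⟨_, _, fun h1 h2 => (enc_subr 72 125 h2)⟩
noncomputable def cFsX1_20 : Fn2 := ⟨_, _, fun h1 h2 => (enc_inv h1)⟩
noncomputable def cFsX1_25 : Fn2 := ⟨_, _, fun h1 h2 => (enc_mul (enc_nat 2 (epg.enc h2)) (dgxi.enc h1))⟩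
noncomputable def cFsX1 : Fn2 := ⟨_, _, fun h1 h2 => (enc_norm (enc_case (enc_sub (enc_rat _ 1 20) (cFsX1_3.enc h1 h2)) (enc_case (enc_sub (enc_rat _ 1 10) (cFsX1_3.enc h1 h2)) (enc_add (enc_sub (enc_mul (enc_norm (enc_add (enc_scale 59064103 500000000 (cFsX1_9.enc h1 h2)) (enc_rat _ 12993647 250000000))) (cFsX1_20.enc h1 h2)) (enc_mul (enc_norm (enc_add (enc_scale 8199 2500 (cFsX1_9.enc h1 h2)) (enc_rat _ 8689 10000))) (dgxi.enc h1))) (cFsX1_25.enc h1 h2)) (enc_add (enc_sub (enc_mul (enc_norm (enc_add (enc_scale 11884103 500000000 (cFsX1_9.enc h1 h2)) (enc_rat _ 2584647 250000000))) (cFsX1_20.enc h1 h2)) (enc_mul (enc_norm (enc_add (enc_scale 292 125 (cFsX1_9.enc h1 h2)) (enc_rat _ 22627 50000))) (dgxi.enc h1))) (cFsX1_25.enc h1 h2))) (enc_sub (cFsX1_25.enc h1 h2) (enc_mul (enc_norm (enc_add (enc_scale 46515897 25000000 (cFsX1_9.enc h1 h2)) (enc_rat _ 3072103 12500000)))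 (dgxi.enc h1)))))⟩
noncomputable def cFsD1 : Fn2 := ⟨_, _, fun h1 h2 => (enc_norm (enc_neg (enc_mul (enc_norm (enc_subr 129439 250000 (enc_neg (enc_scale 155737 25000 (enc_subr 72 125 h2))))) (dgxi.enc h1))))⟩
noncomputable def cFsDD1 : Fn2 := ⟨_, _, fun h1 h2 => (cFsD1.enc h1 h2)⟩
noncomputable def cFxs2 : Fn1 := ⟨_, _, fun h1 => (enc_norm (enc_add (enc_scale 3 4 (dgxi.enc h1)) (enc_scale 1 4 (dgws.enc h1))))⟩
noncomputable def cFsB2_3 : Fn2 := ⟨_, _, fun h1 h2 => (enc_mul h1 (dgxi.enc h1))⟩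
noncomputable def cFsB2_9 : Fn2 := ⟨_, _, fun h1 h2 => (enc_subr 72 125 h2)⟩
noncomputable def cFsB2_22 : Fn2 := ⟨_, _, fun h1 h2 => (enc_inv h1)⟩
noncomputable def cFsB2 : Fn2 := ⟨_, _, fun h1 h2 => (enc_norm (enc_case (enc_sub (enc_rat _ 1 20) (cFsB2_3.enc h1 h2)) (enc_case (enc_sub (enc_rat _ 1 10) (cFsB2_3.enc h1 h2)) (enc_sub (enc_mul (enc_norm (enc_sub (enc_rat _ 27661 500000) (enc_scale 2739 100000 (cFsB2_9.enc h1 h2)))) (cFsB2_22.enc h1 h2)) (enc_mul (enc_norm (enc_add (enc_scale 1873 5000 (cFsB2_9.enc h1 h2)) (enc_rat _ 47007 50000))) (dgxi.enc h1))) (enc_sub (enc_mul (enc_norm (enc_sub (enc_rat _ 3717 500000) (enc_scale 721 100000 (cFsB2_9.enc h1 h2)))) (cFsB2_22.enc h1 h2)) (enc_mul (enc_norm (enc_add (enc_scale 1441 2500 (cFsB2_9.enc h1 h2)) (enc_rat _ 23063 50000))) (dgxi.enc h1)))) (enc_neg (enc_mul (enc_norm (enc_add (enc_scale 3603 5000 (cFsB2_9.enc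 h1 h2)) (enc_rat _ 15629 50000))) (dgxi.enc h1)))))⟩
noncomputable def cFBs2 : Fn2 := ⟨_, _, fun h1 h2 => (cFsB2.enc h1 h2)⟩
noncomputable def cFsX2_3 : Fn2 := ⟨_, _, fun h1 h2 => (enc_mul h1 (dgxi.enc h1))⟩
noncomputable def cFsX2_9 : Fn2 := ⟨_, _, fun h1 h2 => (enc_subr 72 125 h2)⟩
noncomputable def cFsX2_20 : Fn2 := ⟨_, _, fun h1 h2 => (enc_inv h1)⟩
noncomputable def cFsX2 : Fn2 := ⟨_, _, fun h1 h2 => (enc_norm (enc_case (enc_sub (enc_rat _ 1 20) (cFsX2_3.enc h1 h2)) (enc_case (enc_sub (enc_rat _ 1 10) (cFsX2_3.enc h1 h2)) (enc_sub (enc_mul (enc_norm (enc_add (enc_scale 933 20000 (cFsX2_9.enc h1 h2)) (enc_rat _ 32327 1000000))) (cFsX2_20.enc h1 h2)) (enc_mul (enc_norm (enc_add (enc_scale 4283 2500 (cFsX2_9.enc h1 h2)) (enc_rat _ 14541 25000))) (dgxi.enc h1))) (enc_sub (enc_mul (enc_norm (enc_sub (enc_rat _ 4219 1000000) (enc_scale 333 100000 (cFsX2_9.enc h1 h2))))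 (cFsX2_20.enc h1 h2)) (enc_mul (enc_norm (enc_add (enc_scale 6067 5000 (cFsX2_9.enc h1 h2)) (enc_rat _ 3757 12500))) (dgxi.enc h1)))) (enc_neg (enc_mul (enc_norm (enc_add (enc_scale 32 25 (cFsX2_9.enc h1 h2)) (enc_rat _ 10809 50000))) (dgxi.enc h1)))))⟩
noncomputable def cFsD2 : Fn2 := ⟨_, _, fun h1 h2 => (enc_norm (enc_neg (enc_mul (enc_norm (enc_subr 607837 250000 (enc_neg (enc_scale 4571 3125 (enc_subr 72 125 h2))))) (dgxi.enc h1))))⟩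
noncomputable def cFsDD2 : Fn2 := ⟨_, _, fun h1 h2 => (cFsD2.enc h1 h2)⟩
noncomputable def cFxs3 : Fn1 := ⟨_, _, fun h1 => (enc_norm (enc_add (enc_scale 29 50 (dgxi.enc h1)) (enc_scale 21 50 (dgws.enc h1))))⟩
noncomputable def cFsB3_3 : Fn2 := ⟨_, _, fun h1 h2 => (enc_mul h1 (dgxi.enc h1))⟩
noncomputable def cFsB3_9 : Fn2 := ⟨_, _, fun h1 h2 => (enc_subr 72 125 h2)⟩
noncomputable def cFsB3_22 : Fn2 := ⟨_, _, fun h1 h2 => (enc_inv h1)⟩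
noncomputable def cFsB3 : Fn2 := ⟨_, _, fun h1 h2 => (enc_norm (enc_case (enc_sub (enc_rat _ 1 20) (cFsB3_3.enc h1 h2)) (enc_case (enc_sub (enc_rat _ 1 10) (cFsB3_3.enc h1 h2)) (enc_sub (enc_mul (enc_norm (enc_sub (enc_rat _ 13247 500000) (enc_scale 2233 50000 (cFsB3_9.enc h1 h2)))) (cFsB3_22.enc h1 h2)) (enc_mul (enc_norm (enc_add (enc_scale 1723 5000 (cFsB3_9.enc h1 h2)) (enc_rat _ 18503 25000))) (dgxi.enc h1))) (enc_sub (enc_mul (enc_norm (enc_sub (enc_rat _ 3201 500000) (enc_scale 14 3125 (cFsB3_9.enc h1 h2)))) (cFsB3_22.enc h1 h2)) (enc_mul (enc_norm (enc_add (enc_scale 933 1250 (cFsB3_9.enc h1 h2)) (enc_rat _ 337 625))) (dgxi.enc h1)))) (enc_neg (enc_mul (enc_norm (enc_add (enc_scale 209 250 (cFsB3_9.enc h1 h2)) (enc_rat _ 10279 25000))) (dgxi.enc h1)))))⟩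
noncomputable def cFBs3 : Fn2 := ⟨_, _, fun h1 h2 => (cFsB3.enc h1 h2)⟩
noncomputable def cFsX3_3 : Fn2 := ⟨_, _, fun h1 h2 => (enc_mul h1 (dgxi.enc h1))⟩
noncomputable def cFsX3_9 : Fn2 := ⟨_, _, fun h1 h2 => (enc_subr 72 125 h2)⟩
noncomputable def cFsX3_20 : Fn2 := ⟨_, _, fun h1 h2 => (enc_inv h1)⟩
noncomputable def cFsX3 : Fn2 := ⟨_, _, fun h1 h2 => (enc_norm (enc_case (enc_sub (enc_rat _ 1 20) (cFsX3_3.enc h1 h2)) (enc_case (enc_sub (enc_rat _ 1 10) (cFsX3_3.enc h1 h2)) (enc_sub (enc_mul (enc_norm (enc_add (enc_scale 889 100000 (cFsX3_9.enc h1 h2)) (enc_rat _ 121 10000))) (cFsX3_20.enc h1 h2)) (enc_mul (enc_norm (enc_add (enc_scale 4889 2500 (cFsX3_9.enc h1 h2)) (enc_rat _ 3993 12500))) (dgxi.enc h1))) (enc_sub (enc_mul (enc_norm (enc_add (enc_scale 309 20000 (cFsX3_9.enc h1 h2)) (enc_rat _ 813 500000))) (cFsX3_20.enc h1 h2)) (enc_mul (enc_norm (enc_add (enc_scale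 5053 2500 (cFsX3_9.enc h1 h2)) (enc_rat _ 2147 10000))) (dgxi.enc h1)))) (enc_neg (enc_mul (enc_norm (enc_add (enc_scale 8561 5000 (cFsX3_9.enc h1 h2)) (enc_rat _ 9109 50000))) (dgxi.enc h1)))))⟩
noncomputable def cFsD3 : Fn2 := ⟨_, _, fun h1 h2 => (enc_norm (enc_neg (enc_mul (enc_norm (enc_subr 469897 250000 (enc_neg (enc_scale 15007 3125 (enc_subr 72 125 h2))))) (dgxi.enc h1))))⟩
noncomputable def cFsDD3 : Fn2 := ⟨_, _, fun h1 h2 => (cFsD3.enc h1 h2)⟩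
noncomputable def cFxs4 : Fn1 := ⟨_, _, fun h1 => (enc_norm (enc_add (enc_scale 1 5 (dgxi.enc h1)) (enc_scale 4 5 (dgws.enc h1))))⟩
noncomputable def cFsB4_3 : Fn2 := ⟨_, _, fun h1 h2 => (enc_mul h1 (dgxi.enc h1))⟩
noncomputable def cFsB4_9 : Fn2 := ⟨_, _, fun h1 h2 => (enc_subr 72 125 h2)⟩
noncomputable def cFsB4_22 : Fn2 := ⟨_, _, fun h1 h2 => (enc_inv h1)⟩
noncomputable def cFsB4 : Fn2 := ⟨_, _, fun h1 h2 => (enc_norm (enc_case (enc_sub (enc_rat _ 1 20) (cFsB4_3.enc h1 h2)) (enc_case (enc_sub (enc_rat _ 1 10) (cFsB4_3.enc h1 h2)) (enc_sub (enc_mul (enc_norm (enc_sub (enc_rat _ 6329 1000000) (enc_scale 2987 100000 (cFsB4_9.enc h1 h2)))) (cFsB4_22.enc h1 h2)) (enc_mul (enc_norm (enc_add (enc_scale 1337 1250 (cFsB4_9.enc h1 h2)) (enc_rat _ 5609 10000))) (dgxi.enc h1))) (enc_sub (enc_mul (enc_norm (enc_add (enc_scale 461 100000 (cFsB4_9.enc h1 h2)) (enc_rat _ 2659 1000000)))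 (cFsB4_22.enc h1 h2)) (enc_mul (enc_norm (enc_add (enc_scale 884 625 (cFsB4_9.enc h1 h2)) (enc_rat _ 2621 5000))) (dgxi.enc h1)))) (enc_neg (enc_mul (enc_norm (enc_add (enc_scale 6611 5000 (cFsB4_9.enc h1 h2)) (enc_rat _ 23551 50000))) (dgxi.enc h1)))))⟩
noncomputable def cFBs4 : Fn2 := ⟨_, _, fun h1 h2 => (cFsB4.enc h1 h2)⟩
noncomputable def cFsX4_3 : Fn2 := ⟨_, _, fun h1 h2 => (enc_mul h1 (dgxi.enc h1))⟩
noncomputable def cFsX4_9 : Fn2 := ⟨_, _, fun h1 h2 => (enc_subr 72 125 h2)⟩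
noncomputable def cFsX4_22 : Fn2 := ⟨_, _, fun h1 h2 => (enc_inv h1)⟩
noncomputable def cFsX4 : Fn2 := ⟨_, _, fun h1 h2 => (enc_norm (enc_case (enc_sub (enc_rat _ 1 20) (cFsX4_3.enc h1 h2)) (enc_case (enc_sub (enc_rat _ 1 10) (cFsX4_3.enc h1 h2)) (enc_sub (enc_mul (enc_norm (enc_subr 707 250000 (enc_neg (enc_scale 2321 100000 (cFsX4_9.enc h1 h2))))) (cFsX4_22.enc h1 h2)) (enc_mul (enc_norm (enc_add (enc_scale 197 200 (cFsX4_9.enc h1 h2)) (enc_rat _ 104 3125))) (dgxi.enc h1))) (enc_sub (enc_mul (enc_norm (enc_subr 1181 500000 (enc_scale 327 100000 (cFsX4_9.enc h1 h2)))) (cFsX4_22.enc h1 h2)) (enc_mul (enc_norm (enc_add (enc_scale 6249 5000 (cFsX4_9.enc h1 h2)) (enc_rat _ 1897 50000))) (dgxi.enc h1)))) (enc_neg (enc_mul (enc_norm (enc_add (enc_scale 2961 2500 (cFsX4_9.enc h1 h2)) (enc_rat _ 4259 50000))) (dgxi.enc h1)))))⟩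
noncomputable def cFsD4 : Fn2 := ⟨_, _, fun h1 h2 => (enc_norm (enc_neg (enc_mul (enc_norm (enc_subr 5339 10000 (enc_neg (enc_scale 106989 6250 (enc_subr 72 125 h2))))) (dgxi.enc h1))))⟩
noncomputable def cFsDD4 : Fn2 := ⟨_, _, fun h1 h2 => (cFsD4.enc h1 h2)⟩
noncomputable def nFsc4 : Fn1 := ⟨_, _, fun h1 => (enc_scale 4 5 h1)⟩
noncomputable def nFB4_3 : Fn2 := ⟨_, _, fun h1 h2 => (enc_subr 72 125 h2)⟩
noncomputable def nFB4 : Fn2 := ⟨_, _, fun h1 h2 => (enc_norm (enc_sub (enc_sub (enc_rat _ 84309 500000) (enc_scale 34619 10000 (nFB4_3.enc h1 h2))) (enc_mul (dgw.enc h1) (enc_norm (enc_sub (enc_rat _ 2661 6500) (enc_scale 49557 6500 (nFB4_3.enc h1 h2)))))))⟩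
noncomputable def nFX4_3 : Fn2 := ⟨_, _, fun h1 h2 => (enc_subr 72 125 h2)⟩
noncomputable def nFX4 : Fn2 := ⟨_, _, fun h1 h2 => (enc_norm (enc_sub (enc_add (enc_scale 170639 100000 (nFX4_3.enc h1 h2)) (enc_rat _ 209519 500000)) (enc_mul (dgw.enc h1) (enc_norm (enc_subr 10609 130000 (enc_scale 24301 6500 (nFX4_3.enc h1 h2)))))))⟩
noncomputable def nFD4_3 : Fn2 := ⟨_, _, fun h1 h2 => (enc_subr 72 125 h2)⟩
noncomputable def nFD4 : Fn2 := ⟨_, _, fun h1 h2 => (enc_norm (enc_sub (enc_sub (enc_rat _ 354969 100000) (enc_scale 19761 12500 (nFD4_3.enc h1 h2))) (enc_mul (dgw.enc h1) (enc_norm (enc_subr 90061 100000 (enc_neg (enc_scale 84257 25000 (nFD4_3.enc h1 h2))))))))⟩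
noncomputable def nFsc5 : Fn1 := ⟨_, _, fun h1 => (enc_norm (enc_add (enc_scale 7 10 h1) (enc_rat _ 3 10)))⟩
noncomputable def nFB5 : Fn2 := ⟨_, _, fun h1 h2 => (enc_norm (enc_subr 75917000 147732867 (enc_neg (enc_scale 193265000 147732867 (enc_subr 72 125 h2)))))⟩
noncomputable def nFX5 : Fn2 := ⟨_, _, fun h1 h2 => (enc_norm (enc_sub (enc_rat _ 103653775 295465734) (enc_scale 21266950 147732867 (enc_subr 72 125 h2))))⟩
noncomputable def nFD5 : Fn2 := ⟨_, _, fun h1 h2 => (enc_norm (enc_add (enc_scale 4826401378 1009718401 (enc_subr 72 125 h2)) (enc_rat _ 178027008451 70680288070)))⟩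
noncomputable def nFsc6 : Fn1 := ⟨_, _, fun h1 => (enc_norm (enc_add (enc_scale 3 10 h1) (enc_rat _ 7 10)))⟩
noncomputable def nFB6 : Fn2 := ⟨_, _, fun h1 h2 => (enc_norm (enc_subr 308264000 614267857 (enc_neg (enc_scale 325800000 614267857 (enc_subr 72 125 h2)))))⟩
noncomputable def nFX6 : Fn2 := ⟨_, _, fun h1 h2 => (enc_norm (enc_sub (enc_rat _ 30117650 87752551) (enc_scale 98887800 614267857 (enc_subr 72 125 h2))))⟩
noncomputable def nFD6 : Fn2 := ⟨_, _, fun h1 h2 => (enc_norm (enc_add (enc_scale 1430980000 286410981 (enc_subr 72 125 h2)) (enc_rat _ 1445796500 2004876867)))⟩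
noncomputable def l12F : List Knk := [⟨1, 20, kFc0, kFc0g⟩, ⟨1, 10, kFc1, kFc1g⟩]
noncomputable def laF : List Knk := [⟨3, 50, kFa0, kFa0g⟩]
noncomputable def lbF : List Knk := [⟨3, 50, kFb0, kFb0g⟩, ⟨1, 10, kFb1, kFb1g⟩]
noncomputable def l1F : List Knk := [⟨3, 50, kFe0, kFe0g⟩, ⟨1, 10, kFe1, kFe1g⟩]
noncomputable def l2F : List Knk := [⟨3, 50, kFd0, kFd0g⟩, ⟨1, 10, kFd1, kFd1g⟩]
noncomputable def cvF1 : CvP := ⟨cFxs1, cFBs1, cFsX1⟩
noncomputable def cvF2 : CvP := ⟨cFxs2, cFBs2, cFsX2⟩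
noncomputable def cvF3 : CvP := ⟨cFxs3, cFBs3, cFsX3⟩
noncomputable def cvF4 : CvP := ⟨cFxs4, cFBs4, cFsX4⟩
noncomputable def ndF4 : NdU := ⟨nFsc4, nFB4, nFX4, nFD4⟩
noncomputable def ndF5 : NdU := ⟨nFsc5, nFB5, nFX5, nFD5⟩
noncomputable def ndF6 : NdU := ⟨nFsc6, nFB6, nFX6, nFD6⟩
noncomputable def pF : Pm := ⟨pFma, pFmb, pFmu, pFnx, pFc0, pFkc, pFjc, pFkc, pFjc, pFkc, pFjc, pFca, pFcb, pFcc, pFcc, pFcc, pFsv, l12F, l12F, l12F, laF, lbF, l1F, l2F, cvF1, pFx11, pFx01, pFK11, pFK01, pFL11, pFL01⟩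
noncomputable def pNc0 : Fn1 := ⟨_, _, fun h1 => (eng.enc h1)⟩
noncomputable def pNkc : Fn1 := ⟨_, _, fun h1 => (enc_norm (enc_mul (pNc0.enc h1) (enc_norm (enc_add (enc_scale 4557839 10000000 (enc_subr 72 125 h1)) (enc_rat _ 2411097 25000000)))))⟩
noncomputable def pNjc : Fn1 := ⟨_, _, fun h1 => (enc_norm (enc_mul (pNc0.enc h1) (enc_norm (enc_subr 34052627 10000000 (enc_scale 883023 500000 (enc_subr 72 125 h1))))))⟩
noncomputable def pNcc : Fn1 := ⟨_, _, fun h1 => (enc_norm (enc_mul (pNc0.enc h1) (enc_norm (enc_sub (enc_rat _ 21344149 500000) (enc_scale 2707587 25000 (enc_subr 72 125 h1))))))⟩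
noncomputable def pNK11 : Fn2 := ⟨_, _, fun h1 h2 => (enc_norm (enc_mul (pNc0.enc h2) (kf1q1.enc h1 h2)))⟩
noncomputable def pNK01 : Fn2 := ⟨_, _, fun h1 h2 => (enc_norm (enc_mul (pNc0.enc h2) (kf0q1.enc h1 h2)))⟩
noncomputable def kNc0 : Fn1 := ⟨_, _, fun h1 => (enc_norm (enc_mul (pNc0.enc h1) (enc_norm (enc_sub (enc_rat _ 1 4000000) (enc_scale 1 2000000 (enc_subr 72 125 h1))))))⟩
noncomputable def kNc0g : Fn1 := ⟨_, _, fun h1 => (enc_norm (enc_mul (pNc0.enc h1) (enc_norm (enc_subr 31577129 1000000 (enc_scale 19745869 100000 (enc_subr 72 125 h1))))))⟩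
noncomputable def kNc1 : Fn1 := ⟨_, _, fun h1 => (enc_norm (enc_mul (pNc0.enc h1) (enc_norm (enc_subr 1 10000000 (enc_scale 1 2000000 (enc_subr 72 125 h1))))))⟩
noncomputable def kNc1g : Fn1 := ⟨_, _, fun h1 => (enc_norm (enc_mul (pNc0.enc h1) (enc_norm (enc_subr 687403 250000 (enc_neg (enc_scale 3197371 100000 (enc_subr 72 125 h1)))))))⟩
noncomputable def cNBs1 : Fn2 := ⟨_, _, fun h1 h2 => (enc_norm (enc_mul (pNc0.enc h2) (cFsB1.enc h1 h2)))⟩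
noncomputable def cNBs2 : Fn2 := ⟨_, _, fun h1 h2 => (enc_norm (enc_mul (pNc0.enc h2) (cFsB2.enc h1 h2)))⟩
noncomputable def cNBs3 : Fn2 := ⟨_, _, fun h1 h2 => (enc_norm (enc_mul (pNc0.enc h2) (cFsB3.enc h1 h2)))⟩
noncomputable def cNBs4 : Fn2 := ⟨_, _, fun h1 h2 => (enc_norm (enc_mul (pNc0.enc h2) (cFsB4.enc h1 h2)))⟩
noncomputable def nNB4_4 : Fn2 := ⟨_, _, fun h1 h2 => (enc_subr 72 125 h2)⟩
noncomputable def nNB4 : Fn2 := ⟨_, _, fun h1 h2 => (enc_norm (enc_mul (pNc0.enc h2) (enc_norm (enc_sub (enc_sub (enc_rat _ 84309 500000) (enc_scale 34619 10000 (nNB4_4.enc h1 h2))) (enc_mul (dgw.enc h1) (enc_norm (enc_sub (enc_rat _ 2661 6500) (enc_scale 49557 6500 (nNB4_4.enc h1 h2)))))))))⟩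
noncomputable def nNB5 : Fn2 := ⟨_, _, fun h1 h2 => (enc_norm (enc_mul (pNc0.enc h2) (enc_norm (enc_subr 75917000 147732867 (enc_neg (enc_scale 193265000 147732867 (enc_subr 72 125 h2)))))))⟩
noncomputable def nNB6 : Fn2 := ⟨_, _, fun h1 h2 => (enc_norm (enc_mul (pNc0.enc h2) (enc_norm (enc_subr 308264000 614267857 (enc_neg (enc_scale 325800000 614267857 (enc_subr 72 125 h2)))))))⟩
noncomputable def umo : Fn1 := ⟨_, _, fun h1 => (mog.enc h1)⟩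
noncomputable def us1 : Fn1 := ⟨_, _, fun h1 => (enc_norm (enc_subr 3061 9000 (enc_neg (enc_scale 20221 1800 (enc_subr 72 125 h1)))))⟩
noncomputable def us2 : Fn1 := ⟨_, _, fun h1 => (enc_norm (enc_subr 33933 100000 (enc_neg (enc_scale 29169 2500 (enc_subr 72 125 h1)))))⟩
noncomputable def us3 : Fn1 := ⟨_, _, fun h1 => (enc_norm (enc_sub (enc_rat _ 36877 140000) (enc_scale 8713 1000 (enc_subr 72 125 h1))))⟩
noncomputable def uC11 : Fn2 := ⟨_, _, fun h1 h2 => (kc1q1.enc h1 h2)⟩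
noncomputable def uC01 : Fn2 := ⟨_, _, fun h1 h2 => (kc0q1.enc h1 h2)⟩
noncomputable def kNu1_0 : Fn1 := ⟨_, _, fun h1 => (enc_norm (enc_subr 154691 30000 (enc_scale 62269 2250 (enc_subr 72 125 h1))))⟩
noncomputable def kNu1_0g : Fn1 := ⟨_, _, fun h1 => (enc_pnc _ 0)⟩
noncomputable def kNu2_0 : Fn1 := ⟨_, _, fun h1 => (enc_norm (enc_add (enc_scale 34037 2000 (enc_subr 72 125 h1)) (enc_rat _ 1069 1250)))⟩
noncomputable def kNu2_0g : Fn1 := ⟨_, _, fun h1 => (enc_pnc _ 0)⟩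
noncomputable def l12N : List Knk := [⟨1, 20, kNc0, kNc0g⟩, ⟨1, 10, kNc1, kNc1g⟩]
noncomputable def cvN1 : CvP := ⟨cFxs1, cNBs1, cFsX1⟩
noncomputable def cvN2 : CvP := ⟨cFxs2, cNBs2, cFsX2⟩
noncomputable def cvN3 : CvP := ⟨cFxs3, cNBs3, cFsX3⟩
noncomputable def cvN4 : CvP := ⟨cFxs4, cNBs4, cFsX4⟩
noncomputable def ndN4 : NdU := ⟨nFsc4, nNB4, nFX4, nFD4⟩
noncomputable def ndN5 : NdU := ⟨nFsc5, nNB5, nFX5, nFD5⟩
noncomputable def ndN6 : NdU := ⟨nFsc6, nNB6, nFX6, nFD6⟩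
noncomputable def pN : Pm := ⟨pFma, pFmb, pFmu, pFnx, pNc0, pNkc, pNjc, pNkc, pNjc, pNkc, pNjc, pFca, pFcb, pNcc, pNcc, pNcc, pFsv, l12N, l12N, l12N, laF, lbF, l1F, l2F, cvN1, pFx11, pFx01, pNK11, pNK01, pFL11, pFL01⟩
noncomputable def ul1 : List Knk := [⟨9, 100, kNu1_0, kNu1_0g⟩]
noncomputable def ul2 : List Knk := [⟨1, 10, kNu2_0, kNu2_0g⟩]
noncomputable def ul3 : List Knk := []
noncomputable def qN : Pu := ⟨umo, us1, us2, us3, ul1, ul2, ul3, cFsDD1, uC11, uC01⟩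

end Pool.Agent.Strip051.G.I5470_6050.Tab.DG
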