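import Pool.Agent.Strip051.G.I5470_6050.DgP

/-! # The corner (1, 1, 2): facts for the degenerate charts (generated) -/

set_option linter.all false

namespace Pool.Agent.Strip051.G.I5470_6050.Tab.DG

open Pool.Agent.Strip051.PB Pool.Agent.Strip051.PB.Dg Pool.Agent.StripNear Pool.Agent.Strip051.LC

theorem kcN {h x : ℝ} (r0 : 0 ≤ h) (r1 : h ≤ (9 / 80)) :
    kcg.v (h - 1 / 2) x = -(((2411097 / 25000000) + (4557839 / 10000000) * (x - (72 / 125))) + ((-(34052627 / 10000000)) + (883023 / 500000) * (x - (72 / 125))) * h + (((21344149 / 500000) + (-(2707587 / 25000)) * (x - (72 / 125))) * h ^ 2 + (mx 1 20 h * (((1 / 4000000) + (-(1 / 2000000)) * (x - (72 / 125))) + mx 1 20 h * ((-(31577129 / 1000000)) + (19745869 / 100000) * (x - (72 / 125)))) + mx 1 10 h * (((-(1 / 10000000)) + (1 / 2000000) * (x - (72 / 125))) + mx 1 10 h * ((-(687403 / 250000)) + (-(3197371 / 100000))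 * (x - (72 / 125))))))) := by
  simp only [kcg_3, kcg_6, kcg_9, kcg_12, kcg_13, kcg_16, kcg_26, kcg_34, kcg_39, kcg_47, kcg_55, kcg_56, kcg_61, kcg_71, kcg_78, kcg_79, kcg_84, kcg_97, kcg_102, kcg_107, kcg_120, kcg_130, kcg_133, kcg_134, kcg_138, kcg_151, kcg_156, kcg_160, kcg_172, kcg_180, kcg_181, kcg_184, kcg_195, kcg_203, kcg_206, kcg_214, kcg_219, kcg_226, kcg_227, kcg_228, kcg_250, kcg_259, kcg_279, kcg_280, kcg_301, kcg]
  rcases le_or_gt h ((1 / 20)) with c0 | c0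
  · rw [mx_lo (a := 1) (b := 20) (h := h) (by push_cast; linarith), mx_lo (a := 1) (b := 10) (h := h) (by push_cast; linarith)]
    ((try push_cast); (repeat first | rw [if_pos (by linarith)] | rw [if_neg (by linarith)] | erw [if_pos (by linarith)] | erw [if_neg (by linarith)]))
    ring1
  · skip
    rcases le_or_gt h ((1 / 10)) with c1 | c1
    · rw [mx_hi (a := 1) (b := 20) (h := h) (by push_cast; linarith), mx_lo (a := 1) (b := 10) (h := h) (by push_cast; linarith)]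
      ((try push_cast); (repeat first | rw [if_pos (by linarith)] | rw [if_neg (by linarith)] | erw [if_pos (by linarith)] | erw [if_neg (by linarith)]))
      ring1
    · rw [mx_hi (a := 1) (b := 20) (h := h) (by push_cast; linarith), mx_hi (a := 1) (b := 10) (h := h) (by push_cast; linarith)]
      ((try push_cast); (repeat first | rw [if_pos (by linarith)] | rw [if_neg (by linarith)] | erw [if_pos (by linarith)] | erw [if_neg (by linarith)]))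
      ring1
theorem kcP {h x : ℝ} (r0 : 0 ≤ h) (r1 : h ≤ (9 / 80)) :
    kcg.v (1 / 2 - h) x = ((2411097 / 25000000) + (4557839 / 10000000) * (x - (72 / 125))) + ((-(34052627 / 10000000)) + (883023 / 500000) * (x - (72 / 125))) * h + (((21344149 / 500000) + (-(2707587 / 25000)) * (x - (72 / 125))) * h ^ 2 + (mx 1 20 h * (((1 / 4000000) + (-(1 / 2000000)) * (x - (72 / 125))) + mx 1 20 h * ((-(31577129 / 1000000)) + (19745869 / 100000) * (x - (72 / 125)))) + mx 1 10 h * (((-(1 / 10000000)) + (1 / 2000000) * (x - (72 / 125))) + mx 1 10 h * ((-(687403 / 250000)) + (-(3197371 / 100000)) * (x - (72 / 125)))))) := by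
  simp only [kcg_3, kcg_6, kcg_9, kcg_12, kcg_13, kcg_16, kcg_26, kcg_34, kcg_39, kcg_47, kcg_55, kcg_56, kcg_61, kcg_71, kcg_78, kcg_79, kcg_84, kcg_97, kcg_102, kcg_107, kcg_120, kcg_130, kcg_133, kcg_134, kcg_138, kcg_151, kcg_156, kcg_160, kcg_172, kcg_180, kcg_181, kcg_184, kcg_195, kcg_203, kcg_206, kcg_214, kcg_219, kcg_226, kcg_227, kcg_228, kcg_250, kcg_259, kcg_279, kcg_280, kcg_301, kcg]
  rcases le_or_gt h ((1 / 20)) with c0 | c0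
  · rw [mx_lo (a := 1) (b := 20) (h := h) (by push_cast; linarith), mx_lo (a := 1) (b := 10) (h := h) (by push_cast; linarith)]
    ((try push_cast); (repeat first | rw [if_pos (by linarith)] | rw [if_neg (by linarith)] | erw [if_pos (by linarith)] | erw [if_neg (by linarith)]))
    ring1
  · skip
    rcases le_or_gt h ((1 / 10)) with c1 | c1
    · rw [mx_hi (a := 1) (b := 20) (h := h) (by push_cast; linarith), mx_lo (a := 1) (b := 10) (h := h) (by push_cast; linarith)]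
      ((try push_cast); (repeat first | rw [if_pos (by linarith)] | rw [if_neg (by linarith)] | erw [if_pos (by linarith)] | erw [if_neg (by linarith)]))
      ring1
    · rw [mx_hi (a := 1) (b := 20) (h := h) (by push_cast; linarith), mx_hi (a := 1) (b := 10) (h := h) (by push_cast; linarith)]
      ((try push_cast); (repeat first | rw [if_pos (by linarith)] | rw [if_neg (by linarith)] | erw [if_pos (by linarith)] | erw [if_neg (by linarith)]))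
      ring1
theorem taG {p c h x : ℝ} (hp : p = h - 1 / 2) (r0 : 0 ≤ h) (r1 : h ≤ (9 / 80)) :
    txg.v p c x = ((0)) + ((3072509 / 150000000) + (-(12791 / 1875000)) * (x - (72 / 125))) * h + (((899449 / 1000000) + (-(614333 / 100000)) * (x - (72 / 125))) * h ^ 2 + (mx 3 50 h * (((1 / 10000000) + (-(11 / 15000000)) * (x - (72 / 125))) + mx 3 50 h * ((-(1187429 / 500000)) + (27151 / 5000) * (x - (72 / 125)))))) := by
  rw [hp]
  simp only [txg_4, txg_6, txg_27, txg_30, txg_33, txg_77, txg_121, txg_124, txg_164, txg_186, txg_245, txg_247, txg_248, txg_249, txg_290, txg_309, txg_352, txg_354, txg_396, txg_418, txg]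
  rcases le_or_gt h ((3 / 50)) with c0 | c0
  · rw [mx_lo (a := 3) (b := 50) (h := h) (by push_cast; linarith)]
    ((try push_cast); (repeat first | rw [if_pos (by linarith)] | rw [if_neg (by linarith)] | erw [if_pos (by linarith)] | erw [if_neg (by linarith)]))
    ring1
  · rw [mx_hi (a := 3) (b := 50) (h := h) (by push_cast; linarith)]
    ((try push_cast); (repeat first | rw [if_pos (by linarith)] | rw [if_neg (by linarith)] | erw [if_pos (by linarith)] | erw [if_neg (by linarith)]))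
    ring1
theorem tbG {p c h x : ℝ} (hp : p = 1 / 2 - h) (r0 : 0 ≤ h) (r1 : h ≤ (9 / 80)) :
    txg.v p c x = -(((0)) + ((-(10662461 / 75000000)) + (-(14631703 / 15000000)) * (x - (72 / 125))) * h + (((-(300473 / 250000)) + (340521 / 50000) * (x - (72 / 125))) * h ^ 2 + (mx 3 50 h * (((-(37 / 300000000)) + (1 / 937500) * (x - (72 / 125))) + mx 3 50 h * ((661703 / 500000) + (-(848391 / 100000)) * (x - (72 / 125)))) + mx 1 10 h * (((-(1 / 100000000)) + (3 / 5000000) * (x - (72 / 125))) + mx 1 10 h * ((-(231291 / 500000)) + (-(25419 / 100000)) * (x - (72 / 125))))))) := by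
  rw [hp]
  simp only [txg_4, txg_6, txg_27, txg_30, txg_33, txg_77, txg_121, txg_124, txg_164, txg_186, txg_245, txg_247, txg_248, txg_249, txg_290, txg_309, txg_352, txg_354, txg_396, txg_418, txg]
  rcases lt_or_ge h ((3 / 50)) with c0 | c0
  · rw [mx_lo (a := 3) (b := 50) (h := h) (by push_cast; linarith), mx_lo (a := 1) (b := 10) (h := h) (by push_cast; linarith)]
    ((try push_cast); (repeat first | rw [if_pos (by linarith)] | rw [if_neg (by linarith)] | erw [if_pos (by linarith)] | erw [if_neg (by linarith)]))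
    ring1
  · skip
    rcases lt_or_ge h ((1 / 10)) with c1 | c1
    · rw [mx_hi (a := 3) (b := 50) (h := h) (by push_cast; linarith), mx_lo (a := 1) (b := 10) (h := h) (by push_cast; linarith)]
      ((try push_cast); (repeat first | rw [if_pos (by linarith)] | rw [if_neg (by linarith)] | erw [if_pos (by linarith)] | erw [if_neg (by linarith)]))
      ring1
    · rw [mx_hi (a := 3) (b := 50) (h := h) (by push_cast; linarith), mx_hi (a := 1) (b := 10) (h := h) (by push_cast; linarith)]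
      ((try push_cast); (repeat first | rw [if_pos (by linarith)] | rw [if_neg (by linarith)] | erw [if_pos (by linarith)] | erw [if_neg (by linarith)]))
      ring1
theorem kc0q1_g {y h x : ℝ} (hh : c1n y = 2 * h - 1 + 3 / 2 * y) (r0 : 0 ≤ h) (r1 : h ≤ (9 / 80)) :
    kc0q1.v y x = ((0)) + ((-(3061 / 9000)) + (-(20221 / 1800)) * (x - (72 / 125))) * h + (((0)) * h ^ 2 + (mx 9 100 h * (((-(154691 / 30000)) + (62269 / 2250) * (x - (72 / 125))) + mx 9 100 h * ((0))))) := by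
  simp only [kc0q1_3, kc0q1_9, kc0q1, c1g_v, hh]
  rcases lt_or_ge h ((9 / 100)) with c0 | c0
  · rw [mx_lo (a := 9) (b := 100) (h := h) (by push_cast; linarith)]
    ((try push_cast); (repeat first | rw [if_pos (by linarith)] | rw [if_neg (by linarith)] | erw [if_pos (by linarith)] | erw [if_neg (by linarith)]))
    ring1
  · rw [mx_hi (a := 9) (b := 100) (h := h) (by push_cast; linarith)]
    ((try push_cast); (repeat first | rw [if_pos (by linarith)] | rw [if_neg (by linarith)] | erw [if_pos (by linarith)] | erw [if_neg (by linarith)]))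
    ring1
theorem kcc02_g {h x : ℝ} (r0 : 0 ≤ h) (r1 : h ≤ (9 / 80)) :
    kcc02.v (1 / 2 - h) x = -(((0)) + ((-(33933 / 100000)) + (-(29169 / 2500)) * (x - (72 / 125))) * h + (((0)) * h ^ 2 + (mx 1 10 h * (((1069 / 1250) + (34037 / 2000) * (x - (72 / 125))) + mx 1 10 h * ((0)))))) := by
  simp only [kcc02_4, kcc02]
  rcases lt_or_ge h ((1 / 10)) with c0 | c0
  · rw [mx_lo (a := 1) (b := 10) (h := h) (by push_cast; linarith)]
    ((try push_cast); (repeat first | rw [if_pos (by linarith)] | rw [if_neg (by linarith)] | erw [if_pos (by linarith)] | erw [if_neg (by linarith)]))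
    ring1
  · rw [mx_hi (a := 1) (b := 10) (h := h) (by push_cast; linarith)]
    ((try push_cast); (repeat first | rw [if_pos (by linarith)] | rw [if_neg (by linarith)] | erw [if_pos (by linarith)] | erw [if_neg (by linarith)]))
    ring1
theorem kcc73_g {Y t h x : ℝ} (hY : ycg.v t = Y) (hh : h = t / 2 + (2 - Y) / 4) (r0 : 0 ≤ h) (r1 : h ≤ (9 / 80)) :
    kcc73.v t x = ((0)) + ((36877 / 140000) + (-(8713 / 1000)) * (x - (72 / 125))) * h + (((0)) * h ^ 2 + (0)) := by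
  simp only [kcc73_4, kcc73_9, kcc73, hY]
  rw [show t = 2 * h - (2 - Y) / 2 by linarith]
  ((try push_cast); (repeat first | rw [if_pos (by linarith)] | rw [if_neg (by linarith)] | erw [if_pos (by linarith)] | erw [if_neg (by linarith)]))
  ring1
theorem kf0q1_g {y h x : ℝ} (hh : h = 1 / 2 - (3 / 4 * y - c1n y / 2)) :
    kf0q1.v y x = (1 / 2 + c1n y) * (1 / 2 - h) / (1 - h) + (y - 1) * kcg.v (1 / 2 - h) x := by
  have ea : 3 / 4 * y - c1n y / 2 = 1 / 2 - h := by linarith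
  have eb : c1n y = 2 * h - 1 + 3 / 2 * y := by linarith
  simp only [kf0q1_10, kf0q1, c1g_v]
  push_cast
  rw [ea, eb]
  have e2 : (2 * (1 + 3 / 2 * y - (2 * h - 1 + 3 / 2 * y)))⁻¹ = (1 - h)⁻¹ / 4 := by
    rw [show 2 * (1 + 3 / 2 * y - (2 * h - 1 + 3 / 2 * y)) = (1 - h) * 4 by ring, mul_inv]
    ring
  rw [e2]
  ring
theorem l0q1_g {y h x : ℝ} (hh : h = 1 / 2 - (3 / 4 * y - c1n y / 2)) (r0 : 0 ≤ h) (r1 : h ≤ (9 / 80)) :
    l0q1.v y x = -(((0)) + ((-(10662461 / 75000000)) + (-(14631703 / 15000000)) * (x - (72 / 125))) * h + (((-(300473 / 250000)) + (340521 / 50000) * (x - (72 / 125))) * h ^ 2 + (mx 3 50 h * (((-(37 / 300000000)) + (1 / 937500) * (x - (72 / 125))) + mx 3 50 h * ((661703 / 500000) + (-(848391 / 100000)) * (x - (72 / 125)))) + mx 1 10 h * (((-(1 / 100000000)) + (3 / 5000000) * (x - (72 / 125))) + mx 1 10 h * ((-(231291 / 500000)) + (-(25419 / 100000))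 * (x - (72 / 125))))))) := by
  have e1 : ∀ c, txg.v (3 / 4 * y - c1n y / 2) c x = -(((0)) + ((-(10662461 / 75000000)) + (-(14631703 / 15000000)) * (x - (72 / 125))) * h + (((-(300473 / 250000)) + (340521 / 50000) * (x - (72 / 125))) * h ^ 2 + (mx 3 50 h * (((-(37 / 300000000)) + (1 / 937500) * (x - (72 / 125))) + mx 3 50 h * ((661703 / 500000) + (-(848391 / 100000)) * (x - (72 / 125)))) + mx 1 10 h * (((-(1 / 100000000)) + (3 / 5000000) * (x - (72 / 125))) + mx 1 10 h * ((-(231291 / 500000)) + (-(25419 / 100000)) * (x - (72 / 125))))))) := fun c => tbG (by linarith) r0 r1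
  simp only [l0q1, c1g_v]
  push_cast
  rw [e1]
theorem kfc02_g {h x : ℝ} : kfc02.v (1 / 2 - h) x = 1 / 2 - h + (yag.v (1 / 2 - h) - 1) * kcg.v (h - 1 / 2) x := by
  have ea : -(1 / 2 - h) = h - 1 / 2 := by ring
  simp only [kfc02]
  push_cast
  rw [ea]
theorem lc02_g {h x : ℝ} (r0 : 0 ≤ h) (r1 : h ≤ (9 / 80)) : lc02.v (1 / 2 - h) x = (((0)) + ((3072509 / 150000000) + (-(12791 / 1875000)) * (x - (72 / 125))) * h + (((899449 / 1000000) + (-(614333 / 100000)) * (x - (72 / 125))) * h ^ 2 + (mx 3 50 h * (((1 / 10000000) + (-(11 / 15000000)) * (x - (72 / 125))) + mx 3 50 h * ((-(1187429 / 500000)) + (27151 / 5000) * (x - (72 / 125))))))) + (((0)) + ((-(10662461 / 75000000)) + (-(14631703 / 15000000)) * (x - (72 / 125))) * h + (((-(300473 / 250000)) + (340521 / 50000) * (x - (72 / 125))) * h ^ 2 + (mx 3 50 h * (((-(37 / 300000000)) + (1 / 937500) * (x - (72 / 125))) + mx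 3 50 h * ((661703 / 500000) + (-(848391 / 100000)) * (x - (72 / 125)))) + mx 1 10 h * (((-(1 / 100000000)) + (3 / 5000000) * (x - (72 / 125))) + mx 1 10 h * ((-(231291 / 500000)) + (-(25419 / 100000)) * (x - (72 / 125))))))) := by
  have e1 : ∀ c, txg.v (-(1 / 2 - h)) c x = ((0)) + ((3072509 / 150000000) + (-(12791 / 1875000)) * (x - (72 / 125))) * h + (((899449 / 1000000) + (-(614333 / 100000)) * (x - (72 / 125))) * h ^ 2 + (mx 3 50 h * (((1 / 10000000) + (-(11 / 15000000)) * (x - (72 / 125))) + mx 3 50 h * ((-(1187429 / 500000)) + (27151 / 5000) * (x - (72 / 125)))))) := fun c => taG (by ring) r0 r1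
  have e2 : ∀ c, txg.v (1 / 2 - h) c x = -(((0)) + ((-(10662461 / 75000000)) + (-(14631703 / 15000000)) * (x - (72 / 125))) * h + (((-(300473 / 250000)) + (340521 / 50000) * (x - (72 / 125))) * h ^ 2 + (mx 3 50 h * (((-(37 / 300000000)) + (1 / 937500) * (x - (72 / 125))) + mx 3 50 h * ((661703 / 500000) + (-(848391 / 100000)) * (x - (72 / 125)))) + mx 1 10 h * (((-(1 / 100000000)) + (3 / 5000000) * (x - (72 / 125))) + mx 1 10 h * ((-(231291 / 500000)) + (-(25419 / 100000)) * (x - (72 / 125))))))) := fun c => tbG rfl r0 r1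
  simp only [lc02_7, lc02_8, lc02]
  push_cast
  rw [e1, e2]
  ring
theorem kfc73_g {Y t h x : ℝ} (hY : ycg.v t = Y) (hh : h = t / 2 + (2 - Y) / 4) :
    kfc73.v t x = (Y - 2 * t) * (t + 3 - 3 / 2 * Y) / (4 * (Y - 1)) + (Y - 2) * kcg.v (1 / 2 - h) x := by
  have ea : 1 / 4 * Y - t / 2 = 1 / 2 - h := by linarith
  simp only [kfc73, hY]
  push_cast
  rw [ea]
  ring
theorem lc73_g {Y t h x : ℝ} (hY : ycg.v t = Y) (hh : h = t / 2 + (2 - Y) / 4) (r0 : 0 ≤ h) (r1 : h ≤ (9 / 80)) :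
    lc73.v t x = -(2 * (((0)) + ((-(10662461 / 75000000)) + (-(14631703 / 15000000)) * (x - (72 / 125))) * h + (((-(300473 / 250000)) + (340521 / 50000) * (x - (72 / 125))) * h ^ 2 + (mx 3 50 h * (((-(37 / 300000000)) + (1 / 937500) * (x - (72 / 125))) + mx 3 50 h * ((661703 / 500000) + (-(848391 / 100000)) * (x - (72 / 125)))) + mx 1 10 h * (((-(1 / 100000000)) + (3 / 5000000) * (x - (72 / 125))) + mx 1 10 h * ((-(231291 / 500000)) + (-(25419 / 100000)) * (x - (72 / 125))))))) + (((0)) + ((3072509 / 150000000) + (-(12791 / 1875000)) * (x - (72 / 125))) * h + (((899449 / 1000000) + (-(614333 / 100000)) * (x - (72 / 125))) * h ^ 2 + (mx 3 50 h * (((1 / 10000000) + (-(11 / 15000000)) * (x - (72 / 125))) + mx 3 50 h * ((-(1187429 / 500000)) + (27151 / 5000) * (x - (72 / 125)))))))) := by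
  have e1 : ∀ c, txg.v (1 / 4 * Y - t / 2) c x = -(((0)) + ((-(10662461 / 75000000)) + (-(14631703 / 15000000)) * (x - (72 / 125))) * h + (((-(300473 / 250000)) + (340521 / 50000) * (x - (72 / 125))) * h ^ 2 + (mx 3 50 h * (((-(37 / 300000000)) + (1 / 937500) * (x - (72 / 125))) + mx 3 50 h * ((661703 / 500000) + (-(848391 / 100000)) * (x - (72 / 125)))) + mx 1 10 h * (((-(1 / 100000000)) + (3 / 5000000) * (x - (72 / 125))) + mx 1 10 h * ((-(231291 / 500000)) + (-(25419 / 100000)) * (x - (72 / 125))))))) := fun c => tbG (by linarith) r0 r1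
  have e2 : ∀ c, txg.v (t / 2 - 1 / 4 * Y) c x = ((0)) + ((3072509 / 150000000) + (-(12791 / 1875000)) * (x - (72 / 125))) * h + (((899449 / 1000000) + (-(614333 / 100000)) * (x - (72 / 125))) * h ^ 2 + (mx 3 50 h * (((1 / 10000000) + (-(11 / 15000000)) * (x - (72 / 125))) + mx 3 50 h * ((-(1187429 / 500000)) + (27151 / 5000) * (x - (72 / 125)))))) := fun c => taG (by linarith) r0 r1
  simp only [lc73_7, lc73_8, lc73_9, lc73_12, lc73_14, lc73, hY]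
  push_cast
  rw [e1, e2]
  ring
theorem hD : ((67108864 : ℕ) : ℝ) / S ≤ 1 / 16 := by
  rw [S_one]
  norm_num
theorem hD3 : ((16777216 : ℕ) : ℝ) / S ≤ 1 / 64 := by
  rw [S_one]
  norm_num
theorem hDH : 7 / 4 * (((67108864 : ℕ) : ℝ) / S) ≤ (9 / 80) := by
  rw [S_one]
  norm_num
theorem hD3H : ((16777216 : ℕ) : ℝ) / S * (3 / 4 + (9 / 80) / 2) ≤ (9 / 80) ^ 2 := by
  rw [S_one]
  norm_num
theorem r16 {y : ℝ} (h : |y - 1| < ((67108864 : ℕ) : ℝ) / S) : y ≤ 17 / 16 := by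
  have := (abs_lt.1 h).2
  linarith [hD]
theorem xr {x : ℝ} (hx : ((587336777 : ℕ) : ℝ) / S ≤ x) (hx' : x ≤ (((587336777 : ℕ) : ℝ) + (62277027 : ℕ)) / S) : 0 < x ∧ x < 1 := by
  rw [S_one] at hx hx'
  norm_num at hx hx'
  constructor <;> linarith
theorem kf4q3_g {Y x : ℝ} (h2 : (127 / 64) < Y) (h3 : Y ≤ 2) : kf4q3.v Y x = cv4r.v Y * (((84309 / 500000) + (-(34619 / 10000)) * (x - (72 / 125))) + (-(2 - Y)) * ((2661 / 6500) + (-(49557 / 6500)) * (x - (72 / 125)))) := by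
  simp only [kf4q3, bf4q3_3, bf4q3]
  ((try push_cast); (repeat first | rw [if_pos (by linarith)] | rw [if_neg (by linarith)] | erw [if_pos (by linarith)] | erw [if_neg (by linarith)]))
  ring1
theorem l4q3_g {Y x : ℝ} (h2 : (127 / 64) < Y) (h3 : Y ≤ 2) : l4q3.v Y x = cv4r.v Y * (((209519 / 500000) + (170639 / 100000) * (x - (72 / 125))) + (-(2 - Y)) * ((-(10609 / 130000)) + (24301 / 6500) * (x - (72 / 125)))) := by
  simp only [l4q3, bx4q3_3, bx4q3]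
  ((try push_cast); (repeat first | rw [if_pos (by linarith)] | rw [if_neg (by linarith)] | erw [if_pos (by linarith)] | erw [if_neg (by linarith)]))
  ring1
theorem kc4q3_g {Y x : ℝ} (h2 : (127 / 64) < Y) (h3 : Y ≤ 2) : kc4q3.v Y x = cv4r.v Y * (((354969 / 100000) + (-(19761 / 12500)) * (x - (72 / 125))) + (-(2 - Y)) * ((-(90061 / 100000)) + (-(84257 / 25000)) * (x - (72 / 125)))) := by
  simp only [kc4q3, bd4q3]
  ((try push_cast); (repeat first | rw [if_pos (by linarith)] | rw [if_neg (by linarith)] | erw [if_pos (by linarith)] | erw [if_neg (by linarith)]))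
  ring1
theorem kfc53_g {Y t x : ℝ} (hY : ycg.v t = Y) (h2 : (127 / 64) < Y) (h3 : Y ≤ 2) (h4 : t ≤ 1 / 4) : kfc53.v t x = ((7 / 10) * (swg.v Y - 1 / 2) + (3 / 10) * t) * (((1 / 2)) + t * ((-(75917000 / 147732867)) + (-(193265000 / 147732867)) * (x - (72 / 125)))) := by
  simp only [kfc53_6, kfc53_9, kfc53_11, kfc53_61, kfc53_62, kfc53_63, kfc53_64, kfc53_81, kfc53_83, kfc53, hY]
  ((try push_cast); (repeat first | rw [if_pos (by linarith)] | rw [if_neg (by linarith)] | erw [if_pos (by linarith)] | erw [if_neg (by linarith)]))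
  ring1
theorem lc53_g {Y t x : ℝ} (hY : ycg.v t = Y) (h2 : (127 / 64) < Y) (h3 : Y ≤ 2) (h4 : t ≤ 1 / 4) : lc53.v t x = ((7 / 10) * (swg.v Y - 1 / 2) + (3 / 10) * t) * (((2638489 / 20000000) + (4894289 / 5000000) * (x - (72 / 125))) + t * ((103653775 / 295465734) + (-(21266950 / 147732867)) * (x - (72 / 125)))) := by
  simp only [lc53_6, lc53_9, lc53_11, lc53_60, lc53_73, lc53_75, lc53, hY]
  ((try push_cast); (repeat first | rw [if_pos (by linarith)] | rw [if_neg (by linarith)] | erw [if_pos (by linarith)] | erw [if_neg (by linarith)]))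
  ring1
theorem kcc53_g {Y t x : ℝ} (hY : ycg.v t = Y) (h2 : (127 / 64) < Y) (h3 : Y ≤ 2) (h4 : t ≤ 1 / 4) : kcc53.v t x = ((7 / 10) * (swg.v Y - 1 / 2) + (3 / 10) * t) * (((36877 / 280000) + (-(8713 / 2000)) * (x - (72 / 125))) + t * ((178027008451 / 70680288070) + (4826401378 / 1009718401) * (x - (72 / 125)))) := by
  simp only [kcc53_6, kcc53_9, kcc53_11, kcc53_34, kcc53_35, kcc53_39, kcc53_44, kcc53_46, kcc53_47, kcc53_72, kcc53_74, kcc53, hY]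
  ((try push_cast); (repeat first | rw [if_pos (by linarith)] | rw [if_neg (by linarith)] | erw [if_pos (by linarith)] | erw [if_neg (by linarith)]))
  ring1
theorem kfc63_g {Y t x : ℝ} (hY : ycg.v t = Y) (h2 : (127 / 64) < Y) (h3 : Y ≤ 2) (h4 : t ≤ 1 / 4) : kfc63.v t x = ((3 / 10) * (swg.v Y - 1 / 2) + (7 / 10) * t) * (((1 / 2)) + t * ((-(308264000 / 614267857)) + (-(325800000 / 614267857)) * (x - (72 / 125)))) := by
  simp only [kfc63_11, kfc63, hY]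
  ((try push_cast); (repeat first | rw [if_pos (by linarith)] | rw [if_neg (by linarith)] | erw [if_pos (by linarith)] | erw [if_neg (by linarith)]))
  ring1
theorem lc63_g {Y t x : ℝ} (hY : ycg.v t = Y) (h2 : (127 / 64) < Y) (h3 : Y ≤ 2) (h4 : t ≤ 1 / 4) : lc63.v t x = ((3 / 10) * (swg.v Y - 1 / 2) + (7 / 10) * t) * (((2638489 / 20000000) + (4894289 / 5000000) * (x - (72 / 125))) + t * ((30117650 / 87752551) + (-(98887800 / 614267857)) * (x - (72 / 125)))) := by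
  simp only [lc63_11, lc63, hY]
  ((try push_cast); (repeat first | rw [if_pos (by linarith)] | rw [if_neg (by linarith)] | erw [if_pos (by linarith)] | erw [if_neg (by linarith)]))
  ring1
theorem kcc63_g {Y t x : ℝ} (hY : ycg.v t = Y) (h2 : (127 / 64) < Y) (h3 : Y ≤ 2) (h4 : t ≤ 1 / 4) : kcc63.v t x = ((3 / 10) * (swg.v Y - 1 / 2) + (7 / 10) * t) * (((36877 / 280000) + (-(8713 / 2000)) * (x - (72 / 125))) + t * ((1445796500 / 2004876867) + (1430980000 / 286410981) * (x - (72 / 125)))) := by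
  simp only [kcc63, hY]
  ((try push_cast); (repeat first | rw [if_pos (by linarith)] | rw [if_neg (by linarith)] | erw [if_pos (by linarith)] | erw [if_neg (by linarith)]))
  ring1
theorem tabF {x : ℝ} : TabOk tK tL pF 67108864 x := by
  refine ⟨?_, ?_, ?_, ?_⟩
  · intro y h hq hd hh
    obtain ⟨r0, r1⟩ := h1_rng hq hd hD hDH hh
    have o : OnC (0 : Fin 8) 1 y := ⟨hq, fun _ => on_h (by linarith [hq.2]) (by linarith [hq.1])⟩
    rw [← (atB01 o).K]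
    show kf0q1.v y x = _
    rw [kf0q1_g hh, kcP r0 r1]
    simp only [pFma, pFmb, pFmu, pFnx, pFc0, pFkc, pFjc, pFca, pFcb, pFcc, pFsv, pFx11, pFx01, pFK11, pFK01, pFL11, pFL01, kFc0, kFc0g, kFc1, kFc1g, kFa0, kFa0g, kFb0, kFb0g, kFb1, kFb1g, kFd0, kFd0g, kFd1, kFd1g, kFe0, kFe0g, kFe1, kFe1g, cFxs1, cFsB1_3, cFsB1_9, cFsB1_20, cFsB1, cFBs1, cFsX1_3, cFsX1_9, cFsX1_20, cFsX1_25, cFsX1, cFsD1, cFsDD1, cFxs2, cFsB2_3, cFsB2_9, cFsB2_22, cFsB2, cFBs2, cFsX2_3, cFsX2_9, cFsX2_20, cFsX2, cFsD2, cFsDD2, cFxs3, cFsB3_3, cFsB3_9, cFsB3_22, cFsB3, cFBs3, cFsX3_3, cFsX3_9, cFsX3_20, cFsX3, cFsD3, cFsDD3, cFxs4, cFsB4_3, cFsB4_9, cFsB4_22, cFsB4, cFBs4, cFsX4_3, cFsX4_9, cFsX4_22, cFsX4, cFsD4, cFsDD4, nFsc4, nFB4_3, nFB4, nFX4_3, nFX4, nFD4_3, nFD4, nFsc5, nFB5, nFX5, nFD5, nFsc6, nFB6, nFX6, nFD6, l12F, laF, lbF, l1F, l2F, cvF1, cvF2, cvF3, cvF4, ndF4, ndF5, ndF6, pF, pNc0,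 pNkc, pNjc, pNcc, pNK11, pNK01, kNc0, kNc0g, kNc1, kNc1g, cNBs1, cNBs2, cNBs3, cNBs4, nNB4_4, nNB4, nNB5, nNB6, umo, us1, us2, us3, uC11, uC01, kNu1_0, kNu1_0g, kNu2_0, kNu2_0g, l12N, cvN1, cvN2, cvN3, cvN4, ndN4, ndN5, ndN6, pN, ul1, ul2, ul3, qN, pf_cons, pf_nil]
    push_cast
    ring
  · intro y h hq hd hh
    obtain ⟨r0, r1⟩ := h1_rng hq hd hD hDH hh
    have o : OnC (0 : Fin 8) 1 y := ⟨hq, fun _ => on_h (by linarith [hq.2]) (by linarith [hq.1])⟩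
    rw [← (atB01 o).L]
    show l0q1.v y x = _
    rw [l0q1_g hh r0 r1]
    simp only [pFma, pFmb, pFmu, pFnx, pFc0, pFkc, pFjc, pFca, pFcb, pFcc, pFsv, pFx11, pFx01, pFK11, pFK01, pFL11, pFL01, kFc0, kFc0g, kFc1, kFc1g, kFa0, kFa0g, kFb0, kFb0g, kFb1, kFb1g, kFd0, kFd0g, kFd1, kFd1g, kFe0, kFe0g, kFe1, kFe1g, cFxs1, cFsB1_3, cFsB1_9, cFsB1_20, cFsB1, cFBs1, cFsX1_3, cFsX1_9, cFsX1_20, cFsX1_25, cFsX1, cFsD1, cFsDD1, cFxs2, cFsB2_3, cFsB2_9, cFsB2_22, cFsB2, cFBs2, cFsX2_3, cFsX2_9, cFsX2_20, cFsX2, cFsD2, cFsDD2, cFxs3, cFsB3_3, cFsB3_9, cFsB3_22, cFsB3, cFBs3, cFsX3_3, cFsX3_9, cFsX3_20, cFsX3, cFsD3, cFsDD3, cFxs4, cFsB4_3, cFsB4_9, cFsB4_22, cFsB4, cFBs4, cFsX4_3, cFsX4_9, cFsX4_22, cFsX4, cFsD4, cFsDD4, nFsc4, nFB4_3, nFB4, nFX4_3, nFX4, nFD4_3, nFD4, nFsc5, nFB5, nFX5, nFD5, nFsc6, nFB6, nFX6, nFD6, l12F, laF, lbF, l1F, l2F, cvF1, cvF2, cvF3, cvF4, ndF4, ndF5,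 ndF6, pF, pNc0, pNkc, pNjc, pNcc, pNK11, pNK01, kNc0, kNc0g, kNc1, kNc1g, cNBs1, cNBs2, cNBs3, cNBs4, nNB4_4, nNB4, nNB5, nNB6, umo, us1, us2, us3, uC11, uC01, kNu1_0, kNu1_0g, kNu2_0, kNu2_0g, l12N, cvN1, cvN2, cvN3, cvN4, ndN4, ndN5, ndN6, pN, ul1, ul2, ul3, qN, pf_cons, pf_nil]
    push_cast
    ring
  · intro y h hq hd hh
    obtain ⟨r0, r1⟩ := h2_rng hq hd hD hDH hh
    have hy := on_h (r16 hd) (by linarith [hq.1])
    have o : OnC (0 : Fin 8) 2 y := ⟨hq, fun _ => hy⟩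
    have hc : c1n y = 1 / 2 - h := by linarith
    have ya := yag_v (y := y) (by linarith [hq.1]) hy
    rw [hc] at ya
    rw [← (atB02 o).K, hc]
    show kfc02.v (1 / 2 - h) x = _
    rw [kfc02_g, kcN r0 r1, ya]
    simp only [pFma, pFmb, pFmu, pFnx, pFc0, pFkc, pFjc, pFca, pFcb, pFcc, pFsv, pFx11, pFx01, pFK11, pFK01, pFL11, pFL01, kFc0, kFc0g, kFc1, kFc1g, kFa0, kFa0g, kFb0, kFb0g, kFb1, kFb1g, kFd0, kFd0g, kFd1, kFd1g, kFe0, kFe0g, kFe1, kFe1g, cFxs1, cFsB1_3, cFsB1_9, cFsB1_20, cFsB1, cFBs1, cFsX1_3, cFsX1_9, cFsX1_20, cFsX1_25, cFsX1, cFsD1, cFsDD1, cFxs2, cFsB2_3, cFsB2_9, cFsB2_22, cFsB2, cFBs2, cFsX2_3, cFsX2_9, cFsX2_20, cFsX2, cFsD2, cFsDD2, cFxs3, cFsB3_3, cFsB3_9, cFsB3_22, cFsB3, cFBs3, cFsX3_3, cFsX3_9, cFsX3_20, cFsX3, cFsD3, cFsDD3, cFxs4, cFsB4_3, cFsB4_9, cFsB4_22, cFsB4, cFBs4, cFsX4_3, cFsX4_9, cFsX4_22, cFsX4, cFsD4, cFsDD4, nFsc4, nFB4_3, nFB4,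 nFX4_3, nFX4, nFD4_3, nFD4, nFsc5, nFB5, nFX5, nFD5, nFsc6, nFB6, nFX6, nFD6, l12F, laF, lbF, l1F, l2F, cvF1, cvF2, cvF3, cvF4, ndF4, ndF5, ndF6, pF, pNc0, pNkc, pNjc, pNcc, pNK11, pNK01, kNc0, kNc0g, kNc1, kNc1g, cNBs1, cNBs2, cNBs3, cNBs4, nNB4_4, nNB4, nNB5, nNB6, umo, us1, us2, us3, uC11, uC01, kNu1_0, kNu1_0g, kNu2_0, kNu2_0g, l12N, cvN1, cvN2, cvN3, cvN4, ndN4, ndN5, ndN6, pN, ul1, ul2, ul3, qN, pf_cons, pf_nil]
    push_cast
    ring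
  · intro y h hq hd hh
    obtain ⟨r0, r1⟩ := h2_rng hq hd hD hDH hh
    have hy := on_h (r16 hd) (by linarith [hq.1])
    have o : OnC (0 : Fin 8) 2 y := ⟨hq, fun _ => hy⟩
    have hc : c1n y = 1 / 2 - h := by linarith
    rw [← (atB02 o).L, hc]
    show lc02.v (1 / 2 - h) x = _
    rw [lc02_g r0 r1]
    simp only [pFma, pFmb, pFmu, pFnx, pFc0, pFkc, pFjc, pFca, pFcb, pFcc, pFsv, pFx11, pFx01, pFK11, pFK01, pFL11, pFL01, kFc0, kFc0g, kFc1, kFc1g, kFa0, kFa0g, kFb0, kFb0g, kFb1, kFb1g, kFd0, kFd0g, kFd1, kFd1g, kFe0, kFe0g, kFe1, kFe1g, cFxs1, cFsB1_3, cFsB1_9, cFsB1_20, cFsB1, cFBs1, cFsX1_3, cFsX1_9, cFsX1_20, cFsX1_25, cFsX1, cFsD1, cFsDD1, cFxs2, cFsB2_3, cFsB2_9, cFsB2_22, cFsB2, cFBs2, cFsX2_3, cFsX2_9, cFsX2_20, cFsX2, cFsD2, cFsDD2, cFxs3, cFsB3_3, cFsB3_9, cFsB3_22, cFsB3, cFBs3, cFsX3_3, cFsX3_9, cFsX3_20, cFsX3, cFsD3, cFsDD3, cFxs4, cFsB4_3, cFsB4_9, cFsB4_22,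 cFsB4, cFBs4, cFsX4_3, cFsX4_9, cFsX4_22, cFsX4, cFsD4, cFsDD4, nFsc4, nFB4_3, nFB4, nFX4_3, nFX4, nFD4_3, nFD4, nFsc5, nFB5, nFX5, nFD5, nFsc6, nFB6, nFX6, nFD6, l12F, laF, lbF, l1F, l2F, cvF1, cvF2, cvF3, cvF4, ndF4, ndF5, ndF6, pF, pNc0, pNkc, pNjc, pNcc, pNK11, pNK01, kNc0, kNc0g, kNc1, kNc1g, cNBs1, cNBs2, cNBs3, cNBs4, nNB4_4, nNB4, nNB5, nNB6, umo, us1, us2, us3, uC11, uC01, kNu1_0, kNu1_0g, kNu2_0, kNu2_0g, l12N, cvN1, cvN2, cvN3, cvN4, ndN4, ndN5, ndN6, pN, ul1, ul2, ul3, qN, pf_cons, pf_nil]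
    push_cast
    ring
theorem fitF {x : ℝ} : pF.Fit true 3 x := by
  refine ⟨fun h => absurd h (by decide), ?_, fun h => rfl⟩
  simp only [pFma, pFmb, pFmu, pFnx, pFc0, pFkc, pFjc, pFca, pFcb, pFcc, pFsv, pFx11, pFx01, pFK11, pFK01, pFL11, pFL01, kFc0, kFc0g, kFc1, kFc1g, kFa0, kFa0g, kFb0, kFb0g, kFb1, kFb1g, kFd0, kFd0g, kFd1, kFd1g, kFe0, kFe0g, kFe1, kFe1g, cFxs1, cFsB1_3, cFsB1_9, cFsB1_20, cFsB1, cFBs1, cFsX1_3, cFsX1_9, cFsX1_20, cFsX1_25, cFsX1, cFsD1, cFsDD1, cFxs2, cFsB2_3, cFsB2_9, cFsB2_22, cFsB2, cFBs2, cFsX2_3, cFsX2_9, cFsX2_20, cFsX2, cFsD2, cFsDD2, cFxs3, cFsB3_3, cFsB3_9, cFsB3_22, cFsB3, cFBs3, cFsX3_3, cFsX3_9, cFsX3_20, cFsX3, cFsD3, cFsDD3, cFxs4, cFsB4_3, cFsB4_9, cFsB4_22, cFsB4, cFBs4, cFsX4_3, cFsX4_9, cFsX4_22, cFsX4, cFsD4, cFsDD4, nFsc4, nFB4_3, nFB4, nFX4_3, nFX4, nFD4_3, nFD4, nFsc5, nFB5, nFX5, nFD5, nFsc6, nFB6, nFX6, nFD6, l12F,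 laF, lbF, l1F, l2F, cvF1, cvF2, cvF3, cvF4, ndF4, ndF5, ndF6, pF, pNc0, pNkc, pNjc, pNcc, pNK11, pNK01, kNc0, kNc0g, kNc1, kNc1g, cNBs1, cNBs2, cNBs3, cNBs4, nNB4_4, nNB4, nNB5, nNB6, umo, us1, us2, us3, uC11, uC01, kNu1_0, kNu1_0g, kNu2_0, kNu2_0g, l12N, cvN1, cvN2, cvN3, cvN4, ndN4, ndN5, ndN6, pN, ul1, ul2, ul3, qN]
  push_cast
  ring
theorem sdFC {x : ℝ} : SdOk PP tK tL pF (dgSC pF) 7 16777216 x := by
  refine sdC rfl ?_ ?_
  · intro Y t h q3 i3 ht hh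
    obtain ⟨r0, r1⟩ := h3_rng q3 i3 ht (by norm_num) (by norm_num) hD3H hh
    have hy := ycg_v (y := Y) (by linarith [q3.1]) q3.2
    rw [← ht] at hy
    rw [← (atB73 (onc q3 (by decide))).K, ← ht]
    show kfc73.v t x = _
    rw [kfc73_g hy hh, kcP r0 r1]
    simp only [pFma, pFmb, pFmu, pFnx, pFc0, pFkc, pFjc, pFca, pFcb, pFcc, pFsv, pFx11, pFx01, pFK11, pFK01, pFL11, pFL01, kFc0, kFc0g, kFc1, kFc1g, kFa0, kFa0g, kFb0, kFb0g, kFb1, kFb1g, kFd0, kFd0g, kFd1, kFd1g, kFe0, kFe0g, kFe1, kFe1g, cFxs1, cFsB1_3, cFsB1_9, cFsB1_20, cFsB1, cFBs1, cFsX1_3, cFsX1_9, cFsX1_20, cFsX1_25, cFsX1, cFsD1, cFsDD1, cFxs2, cFsB2_3, cFsB2_9, cFsB2_22, cFsB2, cFBs2, cFsX2_3, cFsX2_9, cFsX2_20, cFsX2, cFsD2, cFsDD2, cFxs3, cFsB3_3, cFsB3_9, cFsB3_22, cFsB3, cFBs3, cFsX3_3, cFsX3_9, cFsX3_20, cFsX3, cFsD3, cFsDD3, cFxs4, cFsB4_3, cFsB4_9, cFsB4_22, cFsB4, cFBs4, cFsX4_3, cFsX4_9, cFsX4_22,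 cFsX4, cFsD4, cFsDD4, nFsc4, nFB4_3, nFB4, nFX4_3, nFX4, nFD4_3, nFD4, nFsc5, nFB5, nFX5, nFD5, nFsc6, nFB6, nFX6, nFD6, l12F, laF, lbF, l1F, l2F, cvF1, cvF2, cvF3, cvF4, ndF4, ndF5, ndF6, pF, pNc0, pNkc, pNjc, pNcc, pNK11, pNK01, kNc0, kNc0g, kNc1, kNc1g, cNBs1, cNBs2, cNBs3, cNBs4, nNB4_4, nNB4, nNB5, nNB6, umo, us1, us2, us3, uC11, uC01, kNu1_0, kNu1_0g, kNu2_0, kNu2_0g, l12N, cvN1, cvN2, cvN3, cvN4, ndN4, ndN5, ndN6, pN, ul1, ul2, ul3, qN, pf_cons, pf_nil]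
    push_cast
    ring
  · intro Y t h q3 i3 ht hh
    obtain ⟨r0, r1⟩ := h3_rng q3 i3 ht (by norm_num) (by norm_num) hD3H hh
    have hy := ycg_v (y := Y) (by linarith [q3.1]) q3.2
    rw [← ht] at hy
    rw [← (atB73 (onc q3 (by decide))).L, ← ht]
    show lc73.v t x = _
    rw [lc73_g hy hh r0 r1]
    simp only [pFma, pFmb, pFmu, pFnx, pFc0, pFkc, pFjc, pFca, pFcb, pFcc, pFsv, pFx11, pFx01, pFK11, pFK01, pFL11, pFL01, kFc0, kFc0g, kFc1, kFc1g, kFa0, kFa0g, kFb0, kFb0g, kFb1, kFb1g, kFd0, kFd0g, kFd1, kFd1g, kFe0, kFe0g, kFe1, kFe1g, cFxs1, cFsB1_3, cFsB1_9, cFsB1_20, cFsB1, cFBs1, cFsX1_3, cFsX1_9, cFsX1_20, cFsX1_25, cFsX1, cFsD1, cFsDD1, cFxs2, cFsB2_3, cFsB2_9, cFsB2_22, cFsB2, cFBs2, cFsX2_3, cFsX2_9, cFsX2_20, cFsX2, cFsD2, cFsDD2, cFxs3, cFsB3_3, cFsB3_9, cFsB3_22, cFsB3, cFBs3, cFsX3_3, cFsX3_9, cFsX3_20, cFsX3, cFsD3, cFsDD3, cFxs4, cFsB4_3, cFsB4_9, cFsB4_22,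 cFsB4, cFBs4, cFsX4_3, cFsX4_9, cFsX4_22, cFsX4, cFsD4, cFsDD4, nFsc4, nFB4_3, nFB4, nFX4_3, nFX4, nFD4_3, nFD4, nFsc5, nFB5, nFX5, nFD5, nFsc6, nFB6, nFX6, nFD6, l12F, laF, lbF, l1F, l2F, cvF1, cvF2, cvF3, cvF4, ndF4, ndF5, ndF6, pF, pNc0, pNkc, pNjc, pNcc, pNK11, pNK01, kNc0, kNc0g, kNc1, kNc1g, cNBs1, cNBs2, cNBs3, cNBs4, nNB4_4, nNB4, nNB5, nNB6, umo, us1, us2, us3, uC11, uC01, kNu1_0, kNu1_0g, kNu2_0, kNu2_0g, l12N, cvN1, cvN2, cvN3, cvN4, ndN4, ndN5, ndN6, pN, ul1, ul2, ul3, qN, pf_cons, pf_nil]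
    push_cast
    ring
theorem nlF4 {x : ℝ} : NuL PP tK tL ndF4 4 16777216 x := by
  have hr : PP.ρ 4 = 4 / 5 := rfl
  refine ⟨by rw [hr]; norm_num, fun u => ?_, fun {Y t} q3 i3 ht hw => ?_, fun {Y t} q3 i3 ht hw => ?_⟩
  · rw [hr]
    simp only [pFma, pFmb, pFc0, nFsc4, nFB4_3, nFB4, nFX4_3, nFX4, nFD4_3, nFD4, ndF4, pF, pNc0, nNB4_4, nNB4, us3, qN]
    push_cast
    ring
  · have h2 : (127 / 64) < Y := by
      have := (abs_lt.1 i3).1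
      rw [S_one] at this
      norm_num at this
      linarith
    rw [← (atB43 (onc q3 (by decide))).K]
    show kf4q3.v Y x = _
    rw [kf4q3_g h2 q3.2, ← ecv4q3 q3.1]
    simp only [c3g_v, ← ht, hw, pFma, pFmb, pFc0, nFsc4, nFB4_3, nFB4, nFX4_3, nFX4, nFD4_3, nFD4, ndF4, pF, pNc0, nNB4_4, nNB4, us3, qN]
    push_cast
    ring
  · have h2 : (127 / 64) < Y := by
      have := (abs_lt.1 i3).1
      rw [S_one] at this
      norm_num at this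
      linarith
    rw [← (atB43 (onc q3 (by decide))).L]
    show l4q3.v Y x = _
    rw [l4q3_g h2 q3.2, ← ecv4q3 q3.1]
    simp only [c3g_v, ← ht, hw, pFma, pFmb, pFc0, nFsc4, nFB4_3, nFB4, nFX4_3, nFX4, nFD4_3, nFD4, ndF4, pF, pNc0, nNB4_4, nNB4, us3, qN]
    push_cast
    ring
theorem sdF4 {x : ℝ} : SdOk PP tK tL pF (ndUL pF ndF4) 4 16777216 x := nlF4.sd
theorem nrF5 {x : ℝ} : NuR PP tK tL pF ndF5 5 16777216 x := by
  have hr : PP.ρ 5 = 13 / 10 := rfl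
  refine ⟨by rw [hr]; norm_num, fun u => ?_, fun {Y t} q3 i3 ht hw => ?_, fun {Y t} q3 i3 ht hw => ?_⟩
  · rw [hr]
    simp only [pFma, pFmb, pFc0, nFsc5, nFB5, nFX5, nFD5, ndF5, pF, pNc0, nNB5, us3, qN]
    push_cast
    ring
  · have h2 : (127 / 64) < Y := by
      have := (abs_lt.1 i3).1
      rw [S_one] at this
      norm_num at this
      linarith
    have hy := ycg_v (y := Y) (by linarith [q3.1]) q3.2
    rw [← ht] at hy
    have h4 : t ≤ 1 / 4 := by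
      rw [ht]
      exact c3n_small hD3 q3 i3
    rw [← (atB53 (onc q3 (by decide))).K, ← ht]
    show kfc53.v t x = _
    rw [kfc53_g hy h2 q3.2 h4]
    rw [ecv5q3 q3.1, cv5r_v, ← ht]
    simp only [swg_v, dga3c, dgsl3, pFma, pFmb, pFc0, nFsc5, nFB5, nFX5, nFD5, ndF5, pF, pNc0, nNB5, us3, qN]
    push_cast
    ring
  · have h2 : (127 / 64) < Y := by
      have := (abs_lt.1 i3).1
      rw [S_one] at this
      norm_num at this
      linarith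
    have hy := ycg_v (y := Y) (by linarith [q3.1]) q3.2
    rw [← ht] at hy
    have h4 : t ≤ 1 / 4 := by
      rw [ht]
      exact c3n_small hD3 q3 i3
    rw [← (atB53 (onc q3 (by decide))).L, ← ht]
    show lc53.v t x = _
    rw [lc53_g hy h2 q3.2 h4]
    rw [ecv5q3 q3.1, cv5r_v, ← ht]
    simp only [swg_v, dga3c, dgsl3, pFma, pFmb, pFc0, nFsc5, nFB5, nFX5, nFD5, ndF5, pF, pNc0, nNB5, us3, qN]
    push_cast
    ring
theorem sdF5 {x : ℝ} : SdOk PP tK tL pF (ndUR ndF5) 5 16777216 x := nrF5.sd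
theorem nrF6 {x : ℝ} : NuR PP tK tL pF ndF6 6 16777216 x := by
  have hr : PP.ρ 6 = 17 / 10 := rfl
  refine ⟨by rw [hr]; norm_num, fun u => ?_, fun {Y t} q3 i3 ht hw => ?_, fun {Y t} q3 i3 ht hw => ?_⟩
  · rw [hr]
    simp only [pFma, pFmb, pFc0, nFsc6, nFB6, nFX6, nFD6, ndF6, pF, pNc0, nNB6, us3, qN]
    push_cast
    ring
  · have h2 : (127 / 64) < Y := by
      have := (abs_lt.1 i3).1
      rw [S_one] at this
      norm_num at this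
      linarith
    have hy := ycg_v (y := Y) (by linarith [q3.1]) q3.2
    rw [← ht] at hy
    have h4 : t ≤ 1 / 4 := by
      rw [ht]
      exact c3n_small hD3 q3 i3
    rw [← (atB63 (onc q3 (by decide))).K, ← ht]
    show kfc63.v t x = _
    rw [kfc63_g hy h2 q3.2 h4]
    rw [ecv6q3 q3.1, cv6r_v, ← ht]
    simp only [swg_v, dga3c, dgsl3, pFma, pFmb, pFc0, nFsc6, nFB6, nFX6, nFD6, ndF6, pF, pNc0, nNB6, us3, qN]
    push_cast
    ring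
  · have h2 : (127 / 64) < Y := by
      have := (abs_lt.1 i3).1
      rw [S_one] at this
      norm_num at this
      linarith
    have hy := ycg_v (y := Y) (by linarith [q3.1]) q3.2
    rw [← ht] at hy
    have h4 : t ≤ 1 / 4 := by
      rw [ht]
      exact c3n_small hD3 q3 i3
    rw [← (atB63 (onc q3 (by decide))).L, ← ht]
    show lc63.v t x = _
    rw [lc63_g hy h2 q3.2 h4]
    rw [ecv6q3 q3.1, cv6r_v, ← ht]
    simp only [swg_v, dga3c, dgsl3, pFma, pFmb, pFc0, nFsc6, nFB6, nFX6, nFD6, ndF6, pF, pNc0, nNB6, us3, qN]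
    push_cast
    ring
theorem sdF6 {x : ℝ} : SdOk PP tK tL pF (ndUR ndF6) 6 16777216 x := nrF6.sd
theorem bf1q2_g {v x : ℝ} (v0 : 0 ≤ v) (v1 : v < (1 / 16)) : bf1q2.v (1 + v) x = 1 + v * cFsB1.v v x := by
  have hxi := dgxi_v v0 (by linarith)
  have hc : c1g.v (1 + v) = 1 / 2 - v * dgxi.v v := by
    rw [c1g_v]
    linarith
  have hq : 0 < 1 - 3 / 4 * (1 + v) ^ 2 := by nlinarith
  have hb : v * dgxi.v v ≤ 7 / 4 * v := by
    have := c1_tan2 v0 (by linarith)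
    linarith
  simp only [bf1q2_3, bf1q2_8, bf1q2, cFsB1_3, cFsB1_9, cFsB1_20, cFsB1, hc]
  have z0 : 0 ≤ v * dgxi.v v := by
    have := c1_le_half (y := 1 + v) (by linarith)
    linarith
  generalize dgxi.v v = z at *
  rcases lt_or_ge (v * z) ((1 / 20)) with c0 | c0
  · ((try push_cast); (repeat first | rw [if_pos (by linarith)] | rw [if_neg (by linarith)] | erw [if_pos (by linarith)] | erw [if_neg (by linarith)]))
    ring1
  · skip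
    rcases lt_or_ge (v * z) ((1 / 10)) with c1 | c1
    · have hv : v * v⁻¹ = 1 := by
        refine mul_inv_cancel₀ (ne_of_gt ?_)
        rcases v0.eq_or_lt with h | h
        · have : v * z = 0 := by rw [← h, zero_mul]
          linarith
        · exact h
      ((try push_cast); (repeat first | rw [if_pos (by linarith)] | rw [if_neg (by linarith)] | erw [if_pos (by linarith)] | erw [if_neg (by linarith)]))
      linear_combination (-((15139 / 1000000) + (-(417 / 20000)) * (x - (72 / 125)))) * hv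
    · have hv : v * v⁻¹ = 1 := by
        refine mul_inv_cancel₀ (ne_of_gt ?_)
        rcases v0.eq_or_lt with h | h
        · have : v * z = 0 := by rw [← h, zero_mul]
          linarith
        · exact h
      ((try push_cast); (repeat first | rw [if_pos (by linarith)] | rw [if_neg (by linarith)] | erw [if_pos (by linarith)] | erw [if_neg (by linarith)]))
      linear_combination (-((90657 / 1000000) + (573 / 100000) * (x - (72 / 125)))) * hv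
theorem bx1q2_g {v x : ℝ} (v0 : 0 ≤ v) (v1 : v < (1 / 16)) : bx1q2.v (1 + v) x = 0 + v * cFsX1.v v x := by
  have hxi := dgxi_v v0 (by linarith)
  have hc : c1g.v (1 + v) = 1 / 2 - v * dgxi.v v := by
    rw [c1g_v]
    linarith
  have hq : 0 < 1 - 3 / 4 * (1 + v) ^ 2 := by nlinarith
  have hb : v * dgxi.v v ≤ 7 / 4 * v := by
    have := c1_tan2 v0 (by linarith)
    linarith
  simp only [bx1q2_3, bx1q2_10, bx1q2, cFsX1_3, cFsX1_9, cFsX1_20, cFsX1_25, cFsX1, hc]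
  have z0 : 0 ≤ v * dgxi.v v := by
    have := c1_le_half (y := 1 + v) (by linarith)
    linarith
  generalize dgxi.v v = z at *
  rcases lt_or_ge (v * z) ((1 / 20)) with c0 | c0
  · ((try push_cast); (repeat first | rw [if_pos (by linarith)] | rw [if_neg (by linarith)] | erw [if_pos (by linarith)] | erw [if_neg (by linarith)]))
    ring1
  · skip
    rcases lt_or_ge (v * z) ((1 / 10)) with c1 | c1
    · have hv : v * v⁻¹ = 1 := by
        refine mul_inv_cancel₀ (ne_of_gt ?_)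
        rcases v0.eq_or_lt with h | h
        · have : v * z = 0 := by rw [← h, zero_mul]
          linarith
        · exact h
      ((try push_cast); (repeat first | rw [if_pos (by linarith)] | rw [if_neg (by linarith)] | erw [if_pos (by linarith)] | erw [if_neg (by linarith)]))
      linear_combination (-((2584647 / 250000000) + (11884103 / 500000000) * (x - (72 / 125)))) * hv
    · have hv : v * v⁻¹ = 1 := by
        refine mul_inv_cancel₀ (ne_of_gt ?_)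
        rcases v0.eq_or_lt with h | h
        · have : v * z = 0 := by rw [← h, zero_mul]
          linarith
        · exact h
      ((try push_cast); (repeat first | rw [if_pos (by linarith)] | rw [if_neg (by linarith)] | erw [if_pos (by linarith)] | erw [if_neg (by linarith)]))
      linear_combination (-((12993647 / 250000000) + (59064103 / 500000000) * (x - (72 / 125)))) * hv
theorem bd1q2_g {v x : ℝ} (v0 : 0 ≤ v) (v1 : v < (1 / 16)) : bd1q2.v (1 + v) x = 0 + v * cFsD1.v v x := by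
  have hxi := dgxi_v v0 (by linarith)
  have hc : c1g.v (1 + v) = 1 / 2 - v * dgxi.v v := by
    rw [c1g_v]
    linarith
  have hq : 0 < 1 - 3 / 4 * (1 + v) ^ 2 := by nlinarith
  have hb : v * dgxi.v v ≤ 7 / 4 * v := by
    have := c1_tan2 v0 (by linarith)
    linarith
  simp only [bd1q2_3, bd1q2_7, bd1q2, cFsD1, hc]
  have z0 : 0 ≤ v * dgxi.v v := by
    have := c1_le_half (y := 1 + v) (by linarith)
    linarith
  generalize dgxi.v v = z at *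
  ((try push_cast); (repeat first | rw [if_pos (by linarith)] | rw [if_neg (by linarith)] | erw [if_pos (by linarith)] | erw [if_neg (by linarith)]))
  ring1
theorem cvokF1 {x : ℝ} : CvOk PP tK tL pF cvF1 1 67108864 x := by
  intro v v0 v1
  have v2 : v < (1 / 16) := by
    rw [S_one] at v1
    norm_num at v1
    linarith
  have hxi := dgxi_v v0 (by linarith)
  have hws := dgws_v v0 (by linarith)
  have q2 : InQ 2 (1 + v) := ⟨by linarith, by linarith⟩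
  have o : OnC (1 : Fin 8) 2 (1 + v) := onc q2 (by decide)
  have ex : crv PP 1 2 (1 + v) = 1 / 2 - v * cvF1.xs.v v := by
    rw [ecv1q2, cv1p_v, hxi, hws]
    simp only [pFma, pFmb, pFmu, pFnx, pFc0, pFkc, pFjc, pFca, pFcb, pFcc, pFsv, pFx11, pFx01, pFK11, pFK01, pFL11, pFL01, kFc0, kFc0g, kFc1, kFc1g, kFa0, kFa0g, kFb0, kFb0g, kFb1, kFb1g, kFd0, kFd0g, kFd1, kFd1g, kFe0, kFe0g, kFe1, kFe1g, cFxs1, cFsB1_3, cFsB1_9, cFsB1_20, cFsB1, cFBs1, cFsX1_3, cFsX1_9, cFsX1_20, cFsX1_25, cFsX1, cFsD1, cFsDD1, cFxs2, cFsB2_3, cFsB2_9, cFsB2_22, cFsB2, cFBs2, cFsX2_3, cFsX2_9, cFsX2_20, cFsX2, cFsD2, cFsDD2, cFxs3, cFsB3_3, cFsB3_9, cFsB3_22, cFsB3, cFBs3, cFsX3_3, cFsX3_9, cFsX3_20, cFsX3, cFsD3, cFsDD3, cFxs4, cFsB4_3, cFsB4_9, cFsB4_22, cFsB4, cFBs4, cFsX4_3, cFsX4_9, cFsX4_22, cFsX4, cFsD4, cFsDD4, nFsc4, nFB4_3, nFB4, nFX4_3, nFX4, nFD4_3, nFD4, nFsc5, nFB5, nFX5, nFD5,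 nFsc6, nFB6, nFX6, nFD6, l12F, laF, lbF, l1F, l2F, cvF1, cvF2, cvF3, cvF4, ndF4, ndF5, ndF6, pF, pNc0, pNkc, pNjc, pNcc, pNK11, pNK01, kNc0, kNc0g, kNc1, kNc1g, cNBs1, cNBs2, cNBs3, cNBs4, nNB4_4, nNB4, nNB5, nNB6, umo, us1, us2, us3, uC11, uC01, kNu1_0, kNu1_0g, kNu2_0, kNu2_0g, l12N, cvN1, cvN2, cvN3, cvN4, ndN4, ndN5, ndN6, pN, ul1, ul2, ul3, qN]
    push_cast
    ring
  refine ⟨ex, ?_, ?_⟩
  · rw [← (atB12 o).K]
    show kf1q2.v (1 + v) x = _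
    have ef : kf1q2.v (1 + v) x = cv1p.v (1 + v) * bf1q2.v (1 + v) x := by
      simp only [kf1q2_4, kf1q2_9, kf1q2, bf1q2_3, bf1q2_8, bf1q2]
    rw [ef, bf1q2_g v0 v2, ← ecv1q2, ex]
    simp only [pFmu, pFc0, cFBs1, cvF1, pF, pNc0, cNBs1]
    push_cast
    ring
  · rw [← (atB12 o).L]
    show l1q2.v (1 + v) x = _
    have ef : l1q2.v (1 + v) x = cv1p.v (1 + v) * bx1q2.v (1 + v) x := by
      simp only [l1q2_4, l1q2_11, l1q2, bx1q2_3, bx1q2_10, bx1q2]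
    rw [ef, bx1q2_g v0 v2, ← ecv1q2, ex, zero_add]
    rfl
theorem bf2q2_g {v x : ℝ} (v0 : 0 ≤ v) (v1 : v < (1 / 16)) : bf2q2.v (1 + v) x = 1 + v * cFsB2.v v x := by
  have hxi := dgxi_v v0 (by linarith)
  have hc : c1g.v (1 + v) = 1 / 2 - v * dgxi.v v := by
    rw [c1g_v]
    linarith
  have hq : 0 < 1 - 3 / 4 * (1 + v) ^ 2 := by nlinarith
  have hb : v * dgxi.v v ≤ 7 / 4 * v := by
    have := c1_tan2 v0 (by linarith)
    linarith
  simp only [bf2q2_3, bf2q2, cFsB2_3, cFsB2_9, cFsB2_22, cFsB2, hc]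
  have z0 : 0 ≤ v * dgxi.v v := by
    have := c1_le_half (y := 1 + v) (by linarith)
    linarith
  generalize dgxi.v v = z at *
  rcases lt_or_ge (v * z) ((1 / 20)) with c0 | c0
  · ((try push_cast); (repeat first | rw [if_pos (by linarith)] | rw [if_neg (by linarith)] | erw [if_pos (by linarith)] | erw [if_neg (by linarith)]))
    ring1
  · skip
    rcases lt_or_ge (v * z) ((1 / 10)) with c1 | c1
    · have hv : v * v⁻¹ = 1 := by
        refine mul_inv_cancel₀ (ne_of_gt ?_)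
        rcases v0.eq_or_lt with h | h
        · have : v * z = 0 := by rw [← h, zero_mul]
          linarith
        · exact h
      ((try push_cast); (repeat first | rw [if_pos (by linarith)] | rw [if_neg (by linarith)] | erw [if_pos (by linarith)] | erw [if_neg (by linarith)]))
      linear_combination (-((3717 / 500000) + (-(721 / 100000)) * (x - (72 / 125)))) * hv
    · have hv : v * v⁻¹ = 1 := by
        refine mul_inv_cancel₀ (ne_of_gt ?_)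
        rcases v0.eq_or_lt with h | h
        · have : v * z = 0 := by rw [← h, zero_mul]
          linarith
        · exact h
      ((try push_cast); (repeat first | rw [if_pos (by linarith)] | rw [if_neg (by linarith)] | erw [if_pos (by linarith)] | erw [if_neg (by linarith)]))
      linear_combination (-((27661 / 500000) + (-(2739 / 100000)) * (x - (72 / 125)))) * hv
theorem bx2q2_g {v x : ℝ} (v0 : 0 ≤ v) (v1 : v < (1 / 16)) : bx2q2.v (1 + v) x = 0 + v * cFsX2.v v x := by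
  have hxi := dgxi_v v0 (by linarith)
  have hc : c1g.v (1 + v) = 1 / 2 - v * dgxi.v v := by
    rw [c1g_v]
    linarith
  have hq : 0 < 1 - 3 / 4 * (1 + v) ^ 2 := by nlinarith
  have hb : v * dgxi.v v ≤ 7 / 4 * v := by
    have := c1_tan2 v0 (by linarith)
    linarith
  simp only [bx2q2_3, bx2q2, cFsX2_3, cFsX2_9, cFsX2_20, cFsX2, hc]
  have z0 : 0 ≤ v * dgxi.v v := by
    have := c1_le_half (y := 1 + v) (by linarith)
    linarith
  generalize dgxi.v v = z at *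
  rcases lt_or_ge (v * z) ((1 / 20)) with c0 | c0
  · ((try push_cast); (repeat first | rw [if_pos (by linarith)] | rw [if_neg (by linarith)] | erw [if_pos (by linarith)] | erw [if_neg (by linarith)]))
    ring1
  · skip
    rcases lt_or_ge (v * z) ((1 / 10)) with c1 | c1
    · have hv : v * v⁻¹ = 1 := by
        refine mul_inv_cancel₀ (ne_of_gt ?_)
        rcases v0.eq_or_lt with h | h
        · have : v * z = 0 := by rw [← h, zero_mul]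
          linarith
        · exact h
      ((try push_cast); (repeat first | rw [if_pos (by linarith)] | rw [if_neg (by linarith)] | erw [if_pos (by linarith)] | erw [if_neg (by linarith)]))
      linear_combination (-((4219 / 1000000) + (-(333 / 100000)) * (x - (72 / 125)))) * hv
    · have hv : v * v⁻¹ = 1 := by
        refine mul_inv_cancel₀ (ne_of_gt ?_)
        rcases v0.eq_or_lt with h | h
        · have : v * z = 0 := by rw [← h, zero_mul]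
          linarith
        · exact h
      ((try push_cast); (repeat first | rw [if_pos (by linarith)] | rw [if_neg (by linarith)] | erw [if_pos (by linarith)] | erw [if_neg (by linarith)]))
      linear_combination (-((32327 / 1000000) + (933 / 20000) * (x - (72 / 125)))) * hv
theorem bd2q2_g {v x : ℝ} (v0 : 0 ≤ v) (v1 : v < (1 / 16)) : bd2q2.v (1 + v) x = 0 + v * cFsD2.v v x := by
  have hxi := dgxi_v v0 (by linarith)
  have hc : c1g.v (1 + v) = 1 / 2 - v * dgxi.v v := by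
    rw [c1g_v]
    linarith
  have hq : 0 < 1 - 3 / 4 * (1 + v) ^ 2 := by nlinarith
  have hb : v * dgxi.v v ≤ 7 / 4 * v := by
    have := c1_tan2 v0 (by linarith)
    linarith
  simp only [bd2q2_3, bd2q2, cFsD2, hc]
  have z0 : 0 ≤ v * dgxi.v v := by
    have := c1_le_half (y := 1 + v) (by linarith)
    linarith
  generalize dgxi.v v = z at *
  ((try push_cast); (repeat first | rw [if_pos (by linarith)] | rw [if_neg (by linarith)] | erw [if_pos (by linarith)] | erw [if_neg (by linarith)]))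
  ring1
theorem cvokF2 {x : ℝ} : CvOk PP tK tL pF cvF2 2 67108864 x := by
  intro v v0 v1
  have v2 : v < (1 / 16) := by
    rw [S_one] at v1
    norm_num at v1
    linarith
  have hxi := dgxi_v v0 (by linarith)
  have hws := dgws_v v0 (by linarith)
  have q2 : InQ 2 (1 + v) := ⟨by linarith, by linarith⟩
  have o : OnC (2 : Fin 8) 2 (1 + v) := onc q2 (by decide)
  have ex : crv PP 2 2 (1 + v) = 1 / 2 - v * cvF2.xs.v v := by
    rw [ecv2q2, cv2p_v, hxi, hws]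
    simp only [pFma, pFmb, pFmu, pFnx, pFc0, pFkc, pFjc, pFca, pFcb, pFcc, pFsv, pFx11, pFx01, pFK11, pFK01, pFL11, pFL01, kFc0, kFc0g, kFc1, kFc1g, kFa0, kFa0g, kFb0, kFb0g, kFb1, kFb1g, kFd0, kFd0g, kFd1, kFd1g, kFe0, kFe0g, kFe1, kFe1g, cFxs1, cFsB1_3, cFsB1_9, cFsB1_20, cFsB1, cFBs1, cFsX1_3, cFsX1_9, cFsX1_20, cFsX1_25, cFsX1, cFsD1, cFsDD1, cFxs2, cFsB2_3, cFsB2_9, cFsB2_22, cFsB2, cFBs2, cFsX2_3, cFsX2_9, cFsX2_20, cFsX2, cFsD2, cFsDD2, cFxs3, cFsB3_3, cFsB3_9, cFsB3_22, cFsB3, cFBs3, cFsX3_3, cFsX3_9, cFsX3_20, cFsX3, cFsD3, cFsDD3, cFxs4, cFsB4_3, cFsB4_9, cFsB4_22, cFsB4, cFBs4, cFsX4_3, cFsX4_9, cFsX4_22, cFsX4, cFsD4, cFsDD4, nFsc4, nFB4_3, nFB4, nFX4_3, nFX4, nFD4_3, nFD4, nFsc5, nFB5, nFX5, nFD5, nFsc6, nFB6, nFX6, nFD6, l12F, laF, lbF, l1F, l2F, cvF1, cvF2, cvF3, cvF4, ndF4, ndF5, ndF6, pF, pNc0, pNkc, pNjc, pNcc, pNK11, pNK01, kNc0, kNc0g, kNc1, kNc1g,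 cNBs1, cNBs2, cNBs3, cNBs4, nNB4_4, nNB4, nNB5, nNB6, umo, us1, us2, us3, uC11, uC01, kNu1_0, kNu1_0g, kNu2_0, kNu2_0g, l12N, cvN1, cvN2, cvN3, cvN4, ndN4, ndN5, ndN6, pN, ul1, ul2, ul3, qN]
    push_cast
    ring
  refine ⟨ex, ?_, ?_⟩
  · rw [← (atB22 o).K]
    show kf2q2.v (1 + v) x = _
    have ef : kf2q2.v (1 + v) x = cv2p.v (1 + v) * bf2q2.v (1 + v) x := by
      simp only [kf2q2_4, kf2q2, bf2q2_3, bf2q2]
    rw [ef, bf2q2_g v0 v2, ← ecv2q2, ex]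
    simp only [pFmu, pFc0, cFBs2, cvF2, pF, pNc0, cNBs2]
    push_cast
    ring
  · rw [← (atB22 o).L]
    show l2q2.v (1 + v) x = _
    have ef : l2q2.v (1 + v) x = cv2p.v (1 + v) * bx2q2.v (1 + v) x := by
      simp only [l2q2_4, l2q2, bx2q2_3, bx2q2]
    rw [ef, bx2q2_g v0 v2, ← ecv2q2, ex, zero_add]
    rfl
theorem bf3q2_g {v x : ℝ} (v0 : 0 ≤ v) (v1 : v < (1 / 16)) : bf3q2.v (1 + v) x = 1 + v * cFsB3.v v x := by
  have hxi := dgxi_v v0 (by linarith)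
  have hc : c1g.v (1 + v) = 1 / 2 - v * dgxi.v v := by
    rw [c1g_v]
    linarith
  have hq : 0 < 1 - 3 / 4 * (1 + v) ^ 2 := by nlinarith
  have hb : v * dgxi.v v ≤ 7 / 4 * v := by
    have := c1_tan2 v0 (by linarith)
    linarith
  simp only [bf3q2_3, bf3q2, cFsB3_3, cFsB3_9, cFsB3_22, cFsB3, hc]
  have z0 : 0 ≤ v * dgxi.v v := by
    have := c1_le_half (y := 1 + v) (by linarith)
    linarith
  generalize dgxi.v v = z at *
  rcases lt_or_ge (v * z) ((1 / 20)) with c0 | c0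
  · ((try push_cast); (repeat first | rw [if_pos (by linarith)] | rw [if_neg (by linarith)] | erw [if_pos (by linarith)] | erw [if_neg (by linarith)]))
    ring1
  · skip
    rcases lt_or_ge (v * z) ((1 / 10)) with c1 | c1
    · have hv : v * v⁻¹ = 1 := by
        refine mul_inv_cancel₀ (ne_of_gt ?_)
        rcases v0.eq_or_lt with h | h
        · have : v * z = 0 := by rw [← h, zero_mul]
          linarith
        · exact h
      ((try push_cast); (repeat first | rw [if_pos (by linarith)] | rw [if_neg (by linarith)] | erw [if_pos (by linarith)] | erw [if_neg (by linarith)]))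
      linear_combination (-((3201 / 500000) + (-(14 / 3125)) * (x - (72 / 125)))) * hv
    · have hv : v * v⁻¹ = 1 := by
        refine mul_inv_cancel₀ (ne_of_gt ?_)
        rcases v0.eq_or_lt with h | h
        · have : v * z = 0 := by rw [← h, zero_mul]
          linarith
        · exact h
      ((try push_cast); (repeat first | rw [if_pos (by linarith)] | rw [if_neg (by linarith)] | erw [if_pos (by linarith)] | erw [if_neg (by linarith)]))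
      linear_combination (-((13247 / 500000) + (-(2233 / 50000)) * (x - (72 / 125)))) * hv
theorem bx3q2_g {v x : ℝ} (v0 : 0 ≤ v) (v1 : v < (1 / 16)) : bx3q2.v (1 + v) x = 0 + v * cFsX3.v v x := by
  have hxi := dgxi_v v0 (by linarith)
  have hc : c1g.v (1 + v) = 1 / 2 - v * dgxi.v v := by
    rw [c1g_v]
    linarith
  have hq : 0 < 1 - 3 / 4 * (1 + v) ^ 2 := by nlinarith
  have hb : v * dgxi.v v ≤ 7 / 4 * v := by
    have := c1_tan2 v0 (by linarith)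
    linarith
  simp only [bx3q2_3, bx3q2, cFsX3_3, cFsX3_9, cFsX3_20, cFsX3, hc]
  have z0 : 0 ≤ v * dgxi.v v := by
    have := c1_le_half (y := 1 + v) (by linarith)
    linarith
  generalize dgxi.v v = z at *
  rcases lt_or_ge (v * z) ((1 / 20)) with c0 | c0
  · ((try push_cast); (repeat first | rw [if_pos (by linarith)] | rw [if_neg (by linarith)] | erw [if_pos (by linarith)] | erw [if_neg (by linarith)]))
    ring1
  · skip
    rcases lt_or_ge (v * z) ((1 / 10)) with c1 | c1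
    · have hv : v * v⁻¹ = 1 := by
        refine mul_inv_cancel₀ (ne_of_gt ?_)
        rcases v0.eq_or_lt with h | h
        · have : v * z = 0 := by rw [← h, zero_mul]
          linarith
        · exact h
      ((try push_cast); (repeat first | rw [if_pos (by linarith)] | rw [if_neg (by linarith)] | erw [if_pos (by linarith)] | erw [if_neg (by linarith)]))
      linear_combination (-((813 / 500000) + (309 / 20000) * (x - (72 / 125)))) * hv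
    · have hv : v * v⁻¹ = 1 := by
        refine mul_inv_cancel₀ (ne_of_gt ?_)
        rcases v0.eq_or_lt with h | h
        · have : v * z = 0 := by rw [← h, zero_mul]
          linarith
        · exact h
      ((try push_cast); (repeat first | rw [if_pos (by linarith)] | rw [if_neg (by linarith)] | erw [if_pos (by linarith)] | erw [if_neg (by linarith)]))
      linear_combination (-((121 / 10000) + (889 / 100000) * (x - (72 / 125)))) * hv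
theorem bd3q2_g {v x : ℝ} (v0 : 0 ≤ v) (v1 : v < (1 / 16)) : bd3q2.v (1 + v) x = 0 + v * cFsD3.v v x := by
  have hxi := dgxi_v v0 (by linarith)
  have hc : c1g.v (1 + v) = 1 / 2 - v * dgxi.v v := by
    rw [c1g_v]
    linarith
  have hq : 0 < 1 - 3 / 4 * (1 + v) ^ 2 := by nlinarith
  have hb : v * dgxi.v v ≤ 7 / 4 * v := by
    have := c1_tan2 v0 (by linarith)
    linarith
  simp only [bd3q2_3, bd3q2, cFsD3, hc]
  have z0 : 0 ≤ v * dgxi.v v := by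
    have := c1_le_half (y := 1 + v) (by linarith)
    linarith
  generalize dgxi.v v = z at *
  ((try push_cast); (repeat first | rw [if_pos (by linarith)] | rw [if_neg (by linarith)] | erw [if_pos (by linarith)] | erw [if_neg (by linarith)]))
  ring1
theorem cvokF3 {x : ℝ} : CvOk PP tK tL pF cvF3 3 67108864 x := by
  intro v v0 v1
  have v2 : v < (1 / 16) := by
    rw [S_one] at v1
    norm_num at v1
    linarith
  have hxi := dgxi_v v0 (by linarith)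
  have hws := dgws_v v0 (by linarith)
  have q2 : InQ 2 (1 + v) := ⟨by linarith, by linarith⟩
  have o : OnC (3 : Fin 8) 2 (1 + v) := onc q2 (by decide)
  have ex : crv PP 3 2 (1 + v) = 1 / 2 - v * cvF3.xs.v v := by
    rw [ecv3q2, cv3p_v, hxi, hws]
    simp only [pFma, pFmb, pFmu, pFnx, pFc0, pFkc, pFjc, pFca, pFcb, pFcc, pFsv, pFx11, pFx01, pFK11, pFK01, pFL11, pFL01, kFc0, kFc0g, kFc1, kFc1g, kFa0, kFa0g, kFb0, kFb0g, kFb1, kFb1g, kFd0, kFd0g, kFd1, kFd1g, kFe0, kFe0g, kFe1, kFe1g, cFxs1, cFsB1_3, cFsB1_9, cFsB1_20, cFsB1, cFBs1, cFsX1_3, cFsX1_9, cFsX1_20, cFsX1_25, cFsX1, cFsD1, cFsDD1, cFxs2, cFsB2_3, cFsB2_9, cFsB2_22, cFsB2, cFBs2, cFsX2_3, cFsX2_9, cFsX2_20, cFsX2, cFsD2, cFsDD2, cFxs3, cFsB3_3, cFsB3_9, cFsB3_22, cFsB3, cFBs3, cFsX3_3, cFsX3_9, cFsX3_20, cFsX3, cFsD3, cFsDD3, cFxs4, cFsB4_3, cFsB4_9, cFsB4_22, cFsB4, cFBs4, cFsX4_3, cFsX4_9, cFsX4_22, cFsX4,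 cFsD4, cFsDD4, nFsc4, nFB4_3, nFB4, nFX4_3, nFX4, nFD4_3, nFD4, nFsc5, nFB5, nFX5, nFD5, nFsc6, nFB6, nFX6, nFD6, l12F, laF, lbF, l1F, l2F, cvF1, cvF2, cvF3, cvF4, ndF4, ndF5, ndF6, pF, pNc0, pNkc, pNjc, pNcc, pNK11, pNK01, kNc0, kNc0g, kNc1, kNc1g, cNBs1, cNBs2, cNBs3, cNBs4, nNB4_4, nNB4, nNB5, nNB6, umo, us1, us2, us3, uC11, uC01, kNu1_0, kNu1_0g, kNu2_0, kNu2_0g, l12N, cvN1, cvN2, cvN3, cvN4, ndN4, ndN5, ndN6, pN, ul1, ul2, ul3, qN]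
    push_cast
    ring
  refine ⟨ex, ?_, ?_⟩
  · rw [← (atB32 o).K]
    show kf3q2.v (1 + v) x = _
    have ef : kf3q2.v (1 + v) x = cv3p.v (1 + v) * bf3q2.v (1 + v) x := by
      simp only [kf3q2_4, kf3q2, bf3q2_3, bf3q2]
    rw [ef, bf3q2_g v0 v2, ← ecv3q2, ex]
    simp only [pFmu, pFc0, cFBs3, cvF3, pF, pNc0, cNBs3]
    push_cast
    ring
  · rw [← (atB32 o).L]
    show l3q2.v (1 + v) x = _
    have ef : l3q2.v (1 + v) x = cv3p.v (1 + v) * bx3q2.v (1 + v) x := by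
      simp only [l3q2_4, l3q2, bx3q2_3, bx3q2]
    rw [ef, bx3q2_g v0 v2, ← ecv3q2, ex, zero_add]
    rfl
theorem bf4q2_g {v x : ℝ} (v0 : 0 ≤ v) (v1 : v < (1 / 16)) : bf4q2.v (1 + v) x = 1 + v * cFsB4.v v x := by
  have hxi := dgxi_v v0 (by linarith)
  have hc : c1g.v (1 + v) = 1 / 2 - v * dgxi.v v := by
    rw [c1g_v]
    linarith
  have hq : 0 < 1 - 3 / 4 * (1 + v) ^ 2 := by nlinarith
  have hb : v * dgxi.v v ≤ 7 / 4 * v := by
    have := c1_tan2 v0 (by linarith)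
    linarith
  simp only [bf4q2_3, bf4q2, cFsB4_3, cFsB4_9, cFsB4_22, cFsB4, hc]
  have z0 : 0 ≤ v * dgxi.v v := by
    have := c1_le_half (y := 1 + v) (by linarith)
    linarith
  generalize dgxi.v v = z at *
  rcases lt_or_ge (v * z) ((1 / 20)) with c0 | c0
  · ((try push_cast); (repeat first | rw [if_pos (by linarith)] | rw [if_neg (by linarith)] | erw [if_pos (by linarith)] | erw [if_neg (by linarith)]))
    ring1
  · skip
    rcases lt_or_ge (v * z) ((1 / 10)) with c1 | c1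
    · have hv : v * v⁻¹ = 1 := by
        refine mul_inv_cancel₀ (ne_of_gt ?_)
        rcases v0.eq_or_lt with h | h
        · have : v * z = 0 := by rw [← h, zero_mul]
          linarith
        · exact h
      ((try push_cast); (repeat first | rw [if_pos (by linarith)] | rw [if_neg (by linarith)] | erw [if_pos (by linarith)] | erw [if_neg (by linarith)]))
      linear_combination (-((2659 / 1000000) + (461 / 100000) * (x - (72 / 125)))) * hv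
    · have hv : v * v⁻¹ = 1 := by
        refine mul_inv_cancel₀ (ne_of_gt ?_)
        rcases v0.eq_or_lt with h | h
        · have : v * z = 0 := by rw [← h, zero_mul]
          linarith
        · exact h
      ((try push_cast); (repeat first | rw [if_pos (by linarith)] | rw [if_neg (by linarith)] | erw [if_pos (by linarith)] | erw [if_neg (by linarith)]))
      linear_combination (-((6329 / 1000000) + (-(2987 / 100000)) * (x - (72 / 125)))) * hv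
theorem bx4q2_g {v x : ℝ} (v0 : 0 ≤ v) (v1 : v < (1 / 16)) : bx4q2.v (1 + v) x = 0 + v * cFsX4.v v x := by
  have hxi := dgxi_v v0 (by linarith)
  have hc : c1g.v (1 + v) = 1 / 2 - v * dgxi.v v := by
    rw [c1g_v]
    linarith
  have hq : 0 < 1 - 3 / 4 * (1 + v) ^ 2 := by nlinarith
  have hb : v * dgxi.v v ≤ 7 / 4 * v := by
    have := c1_tan2 v0 (by linarith)
    linarith
  simp only [bx4q2_3, bx4q2, cFsX4_3, cFsX4_9, cFsX4_22, cFsX4, hc]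
  have z0 : 0 ≤ v * dgxi.v v := by
    have := c1_le_half (y := 1 + v) (by linarith)
    linarith
  generalize dgxi.v v = z at *
  rcases lt_or_ge (v * z) ((1 / 20)) with c0 | c0
  · ((try push_cast); (repeat first | rw [if_pos (by linarith)] | rw [if_neg (by linarith)] | erw [if_pos (by linarith)] | erw [if_neg (by linarith)]))
    ring1
  · skip
    rcases lt_or_ge (v * z) ((1 / 10)) with c1 | c1
    · have hv : v * v⁻¹ = 1 := by
        refine mul_inv_cancel₀ (ne_of_gt ?_)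
        rcases v0.eq_or_lt with h | h
        · have : v * z = 0 := by rw [← h, zero_mul]
          linarith
        · exact h
      ((try push_cast); (repeat first | rw [if_pos (by linarith)] | rw [if_neg (by linarith)] | erw [if_pos (by linarith)] | erw [if_neg (by linarith)]))
      linear_combination (-((-(1181 / 500000)) + (327 / 100000) * (x - (72 / 125)))) * hv
    · have hv : v * v⁻¹ = 1 := by
        refine mul_inv_cancel₀ (ne_of_gt ?_)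
        rcases v0.eq_or_lt with h | h
        · have : v * z = 0 := by rw [← h, zero_mul]
          linarith
        · exact h
      ((try push_cast); (repeat first | rw [if_pos (by linarith)] | rw [if_neg (by linarith)] | erw [if_pos (by linarith)] | erw [if_neg (by linarith)]))
      linear_combination (-((-(707 / 250000)) + (-(2321 / 100000)) * (x - (72 / 125)))) * hv
theorem bd4q2_g {v x : ℝ} (v0 : 0 ≤ v) (v1 : v < (1 / 16)) : bd4q2.v (1 + v) x = 0 + v * cFsD4.v v x := by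
  have hxi := dgxi_v v0 (by linarith)
  have hc : c1g.v (1 + v) = 1 / 2 - v * dgxi.v v := by
    rw [c1g_v]
    linarith
  have hq : 0 < 1 - 3 / 4 * (1 + v) ^ 2 := by nlinarith
  have hb : v * dgxi.v v ≤ 7 / 4 * v := by
    have := c1_tan2 v0 (by linarith)
    linarith
  simp only [bd4q2_3, bd4q2, cFsD4, hc]
  have z0 : 0 ≤ v * dgxi.v v := by
    have := c1_le_half (y := 1 + v) (by linarith)
    linarith
  generalize dgxi.v v = z at *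
  ((try push_cast); (repeat first | rw [if_pos (by linarith)] | rw [if_neg (by linarith)] | erw [if_pos (by linarith)] | erw [if_neg (by linarith)]))
  ring1
theorem cvokF4 {x : ℝ} : CvOk PP tK tL pF cvF4 4 67108864 x := by
  intro v v0 v1
  have v2 : v < (1 / 16) := by
    rw [S_one] at v1
    norm_num at v1
    linarith
  have hxi := dgxi_v v0 (by linarith)
  have hws := dgws_v v0 (by linarith)
  have q2 : InQ 2 (1 + v) := ⟨by linarith, by linarith⟩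
  have o : OnC (4 : Fin 8) 2 (1 + v) := onc q2 (by decide)
  have ex : crv PP 4 2 (1 + v) = 1 / 2 - v * cvF4.xs.v v := by
    rw [ecv4q2, cv4p_v, hxi, hws]
    simp only [pFma, pFmb, pFmu, pFnx, pFc0, pFkc, pFjc, pFca, pFcb, pFcc, pFsv, pFx11, pFx01, pFK11, pFK01, pFL11, pFL01, kFc0, kFc0g, kFc1, kFc1g, kFa0, kFa0g, kFb0, kFb0g, kFb1, kFb1g, kFd0, kFd0g, kFd1, kFd1g, kFe0, kFe0g, kFe1, kFe1g, cFxs1, cFsB1_3, cFsB1_9, cFsB1_20, cFsB1, cFBs1, cFsX1_3, cFsX1_9, cFsX1_20, cFsX1_25, cFsX1, cFsD1, cFsDD1, cFxs2, cFsB2_3, cFsB2_9, cFsB2_22, cFsB2, cFBs2, cFsX2_3, cFsX2_9, cFsX2_20, cFsX2, cFsD2, cFsDD2, cFxs3, cFsB3_3, cFsB3_9, cFsB3_22, cFsB3, cFBs3, cFsX3_3, cFsX3_9, cFsX3_20, cFsX3, cFsD3, cFsDD3, cFxs4, cFsB4_3, cFsB4_9, cFsB4_22, cFsB4, cFBs4, cFsX4_3, cFsX4_9, cFsX4_22, cFsX4, cFsD4, cFsDD4, nFsc4, nFB4_3, nFB4, nFX4_3, nFX4, nFD4_3, nFD4, nFsc5, nFB5, nFX5, nFD5,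 nFsc6, nFB6, nFX6, nFD6, l12F, laF, lbF, l1F, l2F, cvF1, cvF2, cvF3, cvF4, ndF4, ndF5, ndF6, pF, pNc0, pNkc, pNjc, pNcc, pNK11, pNK01, kNc0, kNc0g, kNc1, kNc1g, cNBs1, cNBs2, cNBs3, cNBs4, nNB4_4, nNB4, nNB5, nNB6, umo, us1, us2, us3, uC11, uC01, kNu1_0, kNu1_0g, kNu2_0, kNu2_0g, l12N, cvN1, cvN2, cvN3, cvN4, ndN4, ndN5, ndN6, pN, ul1, ul2, ul3, qN]
    push_cast
    ring
  refine ⟨ex, ?_, ?_⟩
  · rw [← (atB42 o).K]
    show kf4q2.v (1 + v) x = _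
    have ef : kf4q2.v (1 + v) x = cv4p.v (1 + v) * bf4q2.v (1 + v) x := by
      simp only [kf4q2_4, kf4q2, bf4q2_3, bf4q2]
    rw [ef, bf4q2_g v0 v2, ← ecv4q2, ex]
    simp only [pFmu, pFc0, cFBs4, cvF4, pF, pNc0, cNBs4]
    push_cast
    ring
  · rw [← (atB42 o).L]
    show l4q2.v (1 + v) x = _
    have ef : l4q2.v (1 + v) x = cv4p.v (1 + v) * bx4q2.v (1 + v) x := by
      simp only [l4q2_4, l4q2, bx4q2_3, bx4q2]
    rw [ef, bx4q2_g v0 v2, ← ecv4q2, ex, zero_add]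
    rfl
theorem p1okF {x : ℝ} : P1Ok PP tK tL pF 1 67108864 x := by
  refine ⟨fun hq _ => ecv1q1, fun hq _ => (congrFun c1g_v _).symm, fun hq _ => ((atB11 (onc hq (by decide))).K).symm,
    fun hq _ => ((atB01 ⟨hq, fun _ => on_h (by linarith [hq.2]) (by linarith [hq.1])⟩).K).symm,
    fun hq _ => ((atB11 (onc hq (by decide))).L).symm,
    fun hq _ => ((atB01 ⟨hq, fun _ => on_h (by linarith [hq.2]) (by linarith [hq.1])⟩).L).symm⟩
theorem svF (u : ℝ) : pF.sv.v u = u - ((67108864 : ℕ) : ℝ) / S := by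
  rw [S_one]
  simp only [pFma, pFmb, pFmu, pFnx, pFc0, pFkc, pFjc, pFca, pFcb, pFcc, pFsv, pFx11, pFx01, pFK11, pFK01, pFL11, pFL01, kFc0, kFc0g, kFc1, kFc1g, kFa0, kFa0g, kFb0, kFb0g, kFb1, kFb1g, kFd0, kFd0g, kFd1, kFd1g, kFe0, kFe0g, kFe1, kFe1g, cFxs1, cFsB1_3, cFsB1_9, cFsB1_20, cFsB1, cFBs1, cFsX1_3, cFsX1_9, cFsX1_20, cFsX1_25, cFsX1, cFsD1, cFsDD1, cFxs2, cFsB2_3, cFsB2_9, cFsB2_22, cFsB2, cFBs2, cFsX2_3, cFsX2_9, cFsX2_20, cFsX2, cFsD2, cFsDD2, cFxs3, cFsB3_3, cFsB3_9, cFsB3_22, cFsB3, cFBs3, cFsX3_3, cFsX3_9, cFsX3_20, cFsX3, cFsD3, cFsDD3, cFxs4, cFsB4_3, cFsB4_9, cFsB4_22, cFsB4, cFBs4, cFsX4_3, cFsX4_9, cFsX4_22, cFsX4, cFsD4, cFsDD4, nFsc4, nFB4_3, nFB4, nFX4_3, nFX4, nFD4_3, nFD4, nFsc5, nFB5, nFX5, nFD5, nFsc6, nFB6, nFX6, nFD6, l12F, laF, lbF, l1F, l2F, cvF1, cvF2, cvF3, cvF4, ndF4, ndF5, ndF6, pF, pNc0, pNkc, pNjc, pNcc, pNK11, pNK01, kNc0, kNc0g,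 kNc1, kNc1g, cNBs1, cNBs2, cNBs3, cNBs4, nNB4_4, nNB4, nNB5, nNB6, umo, us1, us2, us3, uC11, uC01, kNu1_0, kNu1_0g, kNu2_0, kNu2_0g, l12N, cvN1, cvN2, cvN3, cvN4, ndN4, ndN5, ndN6, pN, ul1, ul2, ul3, qN]
  push_cast
  ring
theorem tabN {x : ℝ} : TabOk (scK (eng.v x) tK) tL pN 67108864 x := by
  refine ⟨?_, ?_, ?_, ?_⟩
  · intro y h hq hd hh
    obtain ⟨r0, r1⟩ := h1_rng hq hd hD hDH hh
    have o : OnC (0 : Fin 8) 1 y := ⟨hq, fun _ => on_h (by linarith [hq.2]) (by linarith [hq.1])⟩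
    show eng.v x * tK 0 1 y x = _
    rw [← (atB01 o).K]
    show eng.v x * kf0q1.v y x = _
    rw [kf0q1_g hh, kcP r0 r1]
    simp only [pFma, pFmb, pFmu, pFnx, pFc0, pFkc, pFjc, pFca, pFcb, pFcc, pFsv, pFx11, pFx01, pFK11, pFK01, pFL11, pFL01, kFc0, kFc0g, kFc1, kFc1g, kFa0, kFa0g, kFb0, kFb0g, kFb1, kFb1g, kFd0, kFd0g, kFd1, kFd1g, kFe0, kFe0g, kFe1, kFe1g, cFxs1, cFsB1_3, cFsB1_9, cFsB1_20, cFsB1, cFBs1, cFsX1_3, cFsX1_9, cFsX1_20, cFsX1_25, cFsX1, cFsD1, cFsDD1, cFxs2, cFsB2_3, cFsB2_9, cFsB2_22, cFsB2, cFBs2, cFsX2_3, cFsX2_9, cFsX2_20, cFsX2, cFsD2, cFsDD2, cFxs3, cFsB3_3, cFsB3_9, cFsB3_22, cFsB3, cFBs3, cFsX3_3, cFsX3_9, cFsX3_20, cFsX3, cFsD3, cFsDD3, cFxs4, cFsB4_3, cFsB4_9, cFsB4_22, cFsB4, cFBs4, cFsX4_3, cFsX4_9, cFsX4_22, cFsX4, cFsD4, cFsDD4, nFsc4, nFB4_3, nFB4, nFX4_3, nFX4, nFD4_3, nFD4, nFsc5, nFB5, nFX5, nFD5, nFsc6, nFB6, nFX6, nFD6, l12F, laF,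 lbF, l1F, l2F, cvF1, cvF2, cvF3, cvF4, ndF4, ndF5, ndF6, pF, pNc0, pNkc, pNjc, pNcc, pNK11, pNK01, kNc0, kNc0g, kNc1, kNc1g, cNBs1, cNBs2, cNBs3, cNBs4, nNB4_4, nNB4, nNB5, nNB6, umo, us1, us2, us3, uC11, uC01, kNu1_0, kNu1_0g, kNu2_0, kNu2_0g, l12N, cvN1, cvN2, cvN3, cvN4, ndN4, ndN5, ndN6, pN, ul1, ul2, ul3, qN, pf_cons, pf_nil]
    push_cast
    ring
  · intro y h hq hd hh
    obtain ⟨r0, r1⟩ := h1_rng hq hd hD hDH hh
    have o : OnC (0 : Fin 8) 1 y := ⟨hq, fun _ => on_h (by linarith [hq.2]) (by linarith [hq.1])⟩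
    rw [← (atB01 o).L]
    show l0q1.v y x = _
    rw [l0q1_g hh r0 r1]
    simp only [pFma, pFmb, pFmu, pFnx, pFc0, pFkc, pFjc, pFca, pFcb, pFcc, pFsv, pFx11, pFx01, pFK11, pFK01, pFL11, pFL01, kFc0, kFc0g, kFc1, kFc1g, kFa0, kFa0g, kFb0, kFb0g, kFb1, kFb1g, kFd0, kFd0g, kFd1, kFd1g, kFe0, kFe0g, kFe1, kFe1g, cFxs1, cFsB1_3, cFsB1_9, cFsB1_20, cFsB1, cFBs1, cFsX1_3, cFsX1_9, cFsX1_20, cFsX1_25, cFsX1, cFsD1, cFsDD1, cFxs2, cFsB2_3, cFsB2_9, cFsB2_22, cFsB2, cFBs2, cFsX2_3, cFsX2_9, cFsX2_20, cFsX2, cFsD2, cFsDD2, cFxs3, cFsB3_3, cFsB3_9, cFsB3_22, cFsB3, cFBs3, cFsX3_3, cFsX3_9, cFsX3_20, cFsX3, cFsD3, cFsDD3, cFxs4, cFsB4_3, cFsB4_9, cFsB4_22, cFsB4, cFBs4, cFsX4_3, cFsX4_9, cFsX4_22, cFsX4, cFsD4, cFsDD4, nFsc4, nFB4_3, nFB4, nFX4_3, nFX4, nFD4_3, nFD4, nFsc5, nFB5, nFX5, nFD5, nFsc6, nFB6, nFX6, nFD6, l12F, laF, lbF, l1F, l2F, cvF1, cvF2, cvF3, cvF4, ndF4, ndF5,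 ndF6, pF, pNc0, pNkc, pNjc, pNcc, pNK11, pNK01, kNc0, kNc0g, kNc1, kNc1g, cNBs1, cNBs2, cNBs3, cNBs4, nNB4_4, nNB4, nNB5, nNB6, umo, us1, us2, us3, uC11, uC01, kNu1_0, kNu1_0g, kNu2_0, kNu2_0g, l12N, cvN1, cvN2, cvN3, cvN4, ndN4, ndN5, ndN6, pN, ul1, ul2, ul3, qN, pf_cons, pf_nil]
    push_cast
    ring
  · intro y h hq hd hh
    obtain ⟨r0, r1⟩ := h2_rng hq hd hD hDH hh
    have hy := on_h (r16 hd) (by linarith [hq.1])
    have o : OnC (0 : Fin 8) 2 y := ⟨hq, fun _ => hy⟩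
    have hc : c1n y = 1 / 2 - h := by linarith
    have ya := yag_v (y := y) (by linarith [hq.1]) hy
    rw [hc] at ya
    show eng.v x * tK 0 2 y x = _
    rw [← (atB02 o).K, hc]
    show eng.v x * kfc02.v (1 / 2 - h) x = _
    rw [kfc02_g, kcN r0 r1, ya]
    simp only [pFma, pFmb, pFmu, pFnx, pFc0, pFkc, pFjc, pFca, pFcb, pFcc, pFsv, pFx11, pFx01, pFK11, pFK01, pFL11, pFL01, kFc0, kFc0g, kFc1, kFc1g, kFa0, kFa0g, kFb0, kFb0g, kFb1, kFb1g, kFd0, kFd0g, kFd1, kFd1g, kFe0, kFe0g, kFe1, kFe1g, cFxs1, cFsB1_3, cFsB1_9, cFsB1_20, cFsB1, cFBs1, cFsX1_3, cFsX1_9, cFsX1_20, cFsX1_25, cFsX1, cFsD1, cFsDD1, cFxs2, cFsB2_3, cFsB2_9, cFsB2_22, cFsB2, cFBs2, cFsX2_3, cFsX2_9, cFsX2_20, cFsX2, cFsD2, cFsDD2, cFxs3, cFsB3_3, cFsB3_9, cFsB3_22, cFsB3, cFBs3, cFsX3_3, cFsX3_9, cFsX3_20, cFsX3, cFsD3, cFsDD3, cFxs4, cFsB4_3, cFsB4_9, cFsB4_22, cFsB4, cFBs4, cFsX4_3, cFsX4_9, cFsX4_22,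 cFsX4, cFsD4, cFsDD4, nFsc4, nFB4_3, nFB4, nFX4_3, nFX4, nFD4_3, nFD4, nFsc5, nFB5, nFX5, nFD5, nFsc6, nFB6, nFX6, nFD6, l12F, laF, lbF, l1F, l2F, cvF1, cvF2, cvF3, cvF4, ndF4, ndF5, ndF6, pF, pNc0, pNkc, pNjc, pNcc, pNK11, pNK01, kNc0, kNc0g, kNc1, kNc1g, cNBs1, cNBs2, cNBs3, cNBs4, nNB4_4, nNB4, nNB5, nNB6, umo, us1, us2, us3, uC11, uC01, kNu1_0, kNu1_0g, kNu2_0, kNu2_0g, l12N, cvN1, cvN2, cvN3, cvN4, ndN4, ndN5, ndN6, pN, ul1, ul2, ul3, qN, pf_cons, pf_nil]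
    push_cast
    ring
  · intro y h hq hd hh
    obtain ⟨r0, r1⟩ := h2_rng hq hd hD hDH hh
    have hy := on_h (r16 hd) (by linarith [hq.1])
    have o : OnC (0 : Fin 8) 2 y := ⟨hq, fun _ => hy⟩
    have hc : c1n y = 1 / 2 - h := by linarith
    rw [← (atB02 o).L, hc]
    show lc02.v (1 / 2 - h) x = _
    rw [lc02_g r0 r1]
    simp only [pFma, pFmb, pFmu, pFnx, pFc0, pFkc, pFjc, pFca, pFcb, pFcc, pFsv, pFx11, pFx01, pFK11, pFK01, pFL11, pFL01, kFc0, kFc0g, kFc1, kFc1g, kFa0, kFa0g, kFb0, kFb0g, kFb1, kFb1g, kFd0, kFd0g, kFd1, kFd1g, kFe0, kFe0g, kFe1, kFe1g, cFxs1, cFsB1_3, cFsB1_9, cFsB1_20, cFsB1, cFBs1, cFsX1_3, cFsX1_9, cFsX1_20, cFsX1_25, cFsX1, cFsD1, cFsDD1, cFxs2, cFsB2_3, cFsB2_9, cFsB2_22, cFsB2, cFBs2, cFsX2_3, cFsX2_9, cFsX2_20, cFsX2, cFsD2, cFsDD2, cFxs3, cFsB3_3, cFsB3_9, cFsB3_22, cFsB3, cFBs3, cFsX3_3, cFsX3_9, cFsX3_20, cFsX3, cFsD3, cFsDD3, cFxs4,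 cFsB4_3, cFsB4_9, cFsB4_22, cFsB4, cFBs4, cFsX4_3, cFsX4_9, cFsX4_22, cFsX4, cFsD4, cFsDD4, nFsc4, nFB4_3, nFB4, nFX4_3, nFX4, nFD4_3, nFD4, nFsc5, nFB5, nFX5, nFD5, nFsc6, nFB6, nFX6, nFD6, l12F, laF, lbF, l1F, l2F, cvF1, cvF2, cvF3, cvF4, ndF4, ndF5, ndF6, pF, pNc0, pNkc, pNjc, pNcc, pNK11, pNK01, kNc0, kNc0g, kNc1, kNc1g, cNBs1, cNBs2, cNBs3, cNBs4, nNB4_4, nNB4, nNB5, nNB6, umo, us1, us2, us3, uC11, uC01, kNu1_0, kNu1_0g, kNu2_0, kNu2_0g, l12N, cvN1, cvN2, cvN3, cvN4, ndN4, ndN5, ndN6, pN, ul1, ul2, ul3, qN, pf_cons, pf_nil]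
    push_cast
    ring
theorem tabU {x : ℝ} : TabU tU qN 67108864 x := by
  refine ⟨?_, ?_⟩
  · intro y h hq hd hh
    obtain ⟨r0, r1⟩ := h1_rng hq hd hD hDH hh
    have hc : c1n y = 2 * h - 1 + 3 / 2 * y := by linarith
    have o : OnC (0 : Fin 8) 1 y := ⟨hq, fun _ => on_h (by linarith [hq.2]) (by linarith [hq.1])⟩
    rw [show tU 0 1 y x = kc0q1.v y x from tbF_on (fn := nc) (crd := crd) (x := x) o, kc0q1_g hc r0 r1]
    simp only [pFma, pFmb, pFmu, pFnx, pFc0, pFkc, pFjc, pFca, pFcb, pFcc, pFsv, pFx11, pFx01, pFK11, pFK01, pFL11, pFL01, kFc0, kFc0g, kFc1, kFc1g, kFa0, kFa0g, kFb0, kFb0g, kFb1, kFb1g, kFd0, kFd0g, kFd1, kFd1g, kFe0, kFe0g, kFe1, kFe1g, cFxs1, cFsB1_3, cFsB1_9, cFsB1_20, cFsB1, cFBs1, cFsX1_3, cFsX1_9, cFsX1_20, cFsX1_25, cFsX1, cFsD1, cFsDD1, cFxs2, cFsB2_3, cFsB2_9, cFsB2_22, cFsB2, cFBs2, cFsX2_3, cFsX2_9, cFsX2_20, cFsX2, cFsD2, cFsDD2, cFxs3,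 cFsB3_3, cFsB3_9, cFsB3_22, cFsB3, cFBs3, cFsX3_3, cFsX3_9, cFsX3_20, cFsX3, cFsD3, cFsDD3, cFxs4, cFsB4_3, cFsB4_9, cFsB4_22, cFsB4, cFBs4, cFsX4_3, cFsX4_9, cFsX4_22, cFsX4, cFsD4, cFsDD4, nFsc4, nFB4_3, nFB4, nFX4_3, nFX4, nFD4_3, nFD4, nFsc5, nFB5, nFX5, nFD5, nFsc6, nFB6, nFX6, nFD6, l12F, laF, lbF, l1F, l2F, cvF1, cvF2, cvF3, cvF4, ndF4, ndF5, ndF6, pF, pNc0, pNkc, pNjc, pNcc, pNK11, pNK01, kNc0, kNc0g, kNc1, kNc1g, cNBs1, cNBs2, cNBs3, cNBs4, nNB4_4, nNB4, nNB5, nNB6, umo, us1, us2, us3, uC11, uC01, kNu1_0, kNu1_0g, kNu2_0, kNu2_0g, l12N, cvN1, cvN2, cvN3, cvN4, ndN4, ndN5, ndN6, pN, ul1, ul2, ul3, qN, pf_cons, pf_nil]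
    push_cast
    ring
  · intro y h hq hd hh
    obtain ⟨r0, r1⟩ := h2_rng hq hd hD hDH hh
    have hy := on_h (r16 hd) (by linarith [hq.1])
    have hc : c1n y = 1 / 2 - h := by linarith
    have o : OnC (0 : Fin 8) 2 y := ⟨hq, fun _ => hy⟩
    rw [show tU 0 2 y x = kcc02.v (c1n y) x from tbF_on (fn := nc) (crd := crd) (x := x) o, hc, kcc02_g r0 r1]
    simp only [pFma, pFmb, pFmu, pFnx, pFc0, pFkc, pFjc, pFca, pFcb, pFcc, pFsv, pFx11, pFx01, pFK11, pFK01, pFL11, pFL01, kFc0, kFc0g, kFc1, kFc1g, kFa0, kFa0g, kFb0, kFb0g, kFb1, kFb1g, kFd0, kFd0g, kFd1, kFd1g, kFe0, kFe0g, kFe1, kFe1g, cFxs1, cFsB1_3, cFsB1_9, cFsB1_20, cFsB1, cFBs1, cFsX1_3, cFsX1_9, cFsX1_20, cFsX1_25, cFsX1, cFsD1, cFsDD1, cFxs2, cFsB2_3, cFsB2_9, cFsB2_22, cFsB2, cFBs2, cFsX2_3, cFsX2_9, cFsX2_20, cFsX2, cFsD2, cFsDD2, cFxs3, cFsB3_3, cFsB3_9, cFsB3_22, cFsB3, cFBs3, cFsX3_3, cFsX3_9, cFsX3_20,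 cFsX3, cFsD3, cFsDD3, cFxs4, cFsB4_3, cFsB4_9, cFsB4_22, cFsB4, cFBs4, cFsX4_3, cFsX4_9, cFsX4_22, cFsX4, cFsD4, cFsDD4, nFsc4, nFB4_3, nFB4, nFX4_3, nFX4, nFD4_3, nFD4, nFsc5, nFB5, nFX5, nFD5, nFsc6, nFB6, nFX6, nFD6, l12F, laF, lbF, l1F, l2F, cvF1, cvF2, cvF3, cvF4, ndF4, ndF5, ndF6, pF, pNc0, pNkc, pNjc, pNcc, pNK11, pNK01, kNc0, kNc0g, kNc1, kNc1g, cNBs1, cNBs2, cNBs3, cNBs4, nNB4_4, nNB4, nNB5, nNB6, umo, us1, us2, us3, uC11, uC01, kNu1_0, kNu1_0g, kNu2_0, kNu2_0g, l12N, cvN1, cvN2, cvN3, cvN4, ndN4, ndN5, ndN6, pN, ul1, ul2, ul3, qN, pf_cons, pf_nil]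
    push_cast
    ring
theorem fitN {x : ℝ} : pN.Fit false 3 x := by
  refine ⟨fun h => mu_v x, ?_, fun h => absurd h (by decide)⟩
  simp only [pFma, pFmb, pFmu, pFnx, pFc0, pFkc, pFjc, pFca, pFcb, pFcc, pFsv, pFx11, pFx01, pFK11, pFK01, pFL11, pFL01, kFc0, kFc0g, kFc1, kFc1g, kFa0, kFa0g, kFb0, kFb0g, kFb1, kFb1g, kFd0, kFd0g, kFd1, kFd1g, kFe0, kFe0g, kFe1, kFe1g, cFxs1, cFsB1_3, cFsB1_9, cFsB1_20, cFsB1, cFBs1, cFsX1_3, cFsX1_9, cFsX1_20, cFsX1_25, cFsX1, cFsD1, cFsDD1, cFxs2, cFsB2_3, cFsB2_9, cFsB2_22, cFsB2, cFBs2, cFsX2_3, cFsX2_9, cFsX2_20, cFsX2, cFsD2, cFsDD2, cFxs3, cFsB3_3, cFsB3_9, cFsB3_22, cFsB3, cFBs3, cFsX3_3, cFsX3_9, cFsX3_20, cFsX3, cFsD3, cFsDD3, cFxs4, cFsB4_3, cFsB4_9, cFsB4_22, cFsB4, cFBs4, cFsX4_3, cFsX4_9, cFsX4_22, cFsX4, cFsD4, cFsDD4, nFsc4, nFB4_3, nFB4, nFX4_3, nFX4, nFD4_3, nFD4, nFsc5, nFB5, nFX5, nFD5, nFsc6, nFB6, nFX6, nFD6, l12F,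 laF, lbF, l1F, l2F, cvF1, cvF2, cvF3, cvF4, ndF4, ndF5, ndF6, pF, pNc0, pNkc, pNjc, pNcc, pNK11, pNK01, kNc0, kNc0g, kNc1, kNc1g, cNBs1, cNBs2, cNBs3, cNBs4, nNB4_4, nNB4, nNB5, nNB6, umo, us1, us2, us3, uC11, uC01, kNu1_0, kNu1_0g, kNu2_0, kNu2_0g, l12N, cvN1, cvN2, cvN3, cvN4, ndN4, ndN5, ndN6, pN, ul1, ul2, ul3, qN]
  push_cast
  ring
theorem sdNC {x : ℝ} : SdOk PP (scK (eng.v x) tK) tL pN (dgSC pN) 7 16777216 x := by
  refine sdC rfl ?_ ?_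
  · intro Y t h q3 i3 ht hh
    obtain ⟨r0, r1⟩ := h3_rng q3 i3 ht (by norm_num) (by norm_num) hD3H hh
    have hy := ycg_v (y := Y) (by linarith [q3.1]) q3.2
    rw [← ht] at hy
    show eng.v x * tK 7 3 Y x = _
    rw [← (atB73 (onc q3 (by decide))).K, ← ht]
    show eng.v x * kfc73.v t x = _
    rw [kfc73_g hy hh, kcP r0 r1]
    simp only [pFma, pFmb, pFmu, pFnx, pFc0, pFkc, pFjc, pFca, pFcb, pFcc, pFsv, pFx11, pFx01, pFK11, pFK01, pFL11, pFL01, kFc0, kFc0g, kFc1, kFc1g, kFa0, kFa0g, kFb0, kFb0g, kFb1, kFb1g, kFd0, kFd0g, kFd1, kFd1g, kFe0, kFe0g, kFe1, kFe1g, cFxs1, cFsB1_3, cFsB1_9, cFsB1_20, cFsB1, cFBs1, cFsX1_3, cFsX1_9, cFsX1_20, cFsX1_25, cFsX1, cFsD1, cFsDD1, cFxs2, cFsB2_3, cFsB2_9, cFsB2_22, cFsB2, cFBs2, cFsX2_3, cFsX2_9, cFsX2_20, cFsX2, cFsD2, cFsDD2, cFxs3, cFsB3_3, cFsB3_9, cFsB3_22, cFsB3, cFBs3, cFsX3_3, cFsX3_9, cFsX3_20, cFsX3, cFsD3, cFsDD3,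 cFxs4, cFsB4_3, cFsB4_9, cFsB4_22, cFsB4, cFBs4, cFsX4_3, cFsX4_9, cFsX4_22, cFsX4, cFsD4, cFsDD4, nFsc4, nFB4_3, nFB4, nFX4_3, nFX4, nFD4_3, nFD4, nFsc5, nFB5, nFX5, nFD5, nFsc6, nFB6, nFX6, nFD6, l12F, laF, lbF, l1F, l2F, cvF1, cvF2, cvF3, cvF4, ndF4, ndF5, ndF6, pF, pNc0, pNkc, pNjc, pNcc, pNK11, pNK01, kNc0, kNc0g, kNc1, kNc1g, cNBs1, cNBs2, cNBs3, cNBs4, nNB4_4, nNB4, nNB5, nNB6, umo, us1, us2, us3, uC11, uC01, kNu1_0, kNu1_0g, kNu2_0, kNu2_0g, l12N, cvN1, cvN2, cvN3, cvN4, ndN4, ndN5, ndN6, pN, ul1, ul2, ul3, qN, pf_cons, pf_nil]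
    push_cast
    ring
  · intro Y t h q3 i3 ht hh
    obtain ⟨r0, r1⟩ := h3_rng q3 i3 ht (by norm_num) (by norm_num) hD3H hh
    have hy := ycg_v (y := Y) (by linarith [q3.1]) q3.2
    rw [← ht] at hy
    rw [← (atB73 (onc q3 (by decide))).L, ← ht]
    show lc73.v t x = _
    rw [lc73_g hy hh r0 r1]
    simp only [pFma, pFmb, pFmu, pFnx, pFc0, pFkc, pFjc, pFca, pFcb, pFcc, pFsv, pFx11, pFx01, pFK11, pFK01, pFL11, pFL01, kFc0, kFc0g, kFc1, kFc1g, kFa0, kFa0g, kFb0, kFb0g, kFb1, kFb1g, kFd0, kFd0g, kFd1, kFd1g, kFe0, kFe0g, kFe1, kFe1g, cFxs1, cFsB1_3, cFsB1_9, cFsB1_20, cFsB1, cFBs1, cFsX1_3, cFsX1_9, cFsX1_20, cFsX1_25, cFsX1, cFsD1, cFsDD1, cFxs2, cFsB2_3, cFsB2_9, cFsB2_22, cFsB2, cFBs2, cFsX2_3, cFsX2_9, cFsX2_20, cFsX2, cFsD2, cFsDD2, cFxs3, cFsB3_3, cFsB3_9, cFsB3_22, cFsB3, cFBs3, cFsX3_3, cFsX3_9, cFsX3_20, cFsX3, cFsD3, cFsDD3, cFxs4, cFsB4_3, cFsB4_9, cFsB4_22,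 cFsB4, cFBs4, cFsX4_3, cFsX4_9, cFsX4_22, cFsX4, cFsD4, cFsDD4, nFsc4, nFB4_3, nFB4, nFX4_3, nFX4, nFD4_3, nFD4, nFsc5, nFB5, nFX5, nFD5, nFsc6, nFB6, nFX6, nFD6, l12F, laF, lbF, l1F, l2F, cvF1, cvF2, cvF3, cvF4, ndF4, ndF5, ndF6, pF, pNc0, pNkc, pNjc, pNcc, pNK11, pNK01, kNc0, kNc0g, kNc1, kNc1g, cNBs1, cNBs2, cNBs3, cNBs4, nNB4_4, nNB4, nNB5, nNB6, umo, us1, us2, us3, uC11, uC01, kNu1_0, kNu1_0g, kNu2_0, kNu2_0g, l12N, cvN1, cvN2, cvN3, cvN4, ndN4, ndN5, ndN6, pN, ul1, ul2, ul3, qN, pf_cons, pf_nil]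
    push_cast
    ring
theorem suNC {x : ℝ} : SuOk tU qN (dgSC pN) (suC qN) 7 16777216 x := by
  refine suC_ok (p := pN) ?_
  intro Y t h q3 i3 ht hh
  obtain ⟨r0, r1⟩ := h3_rng q3 i3 ht (by norm_num) (by norm_num) hD3H hh
  have hy := ycg_v (y := Y) (by linarith [q3.1]) q3.2
  rw [← ht] at hy
  rw [show tU 7 3 Y x = kcc73.v (c3n Y) x from tbF_on (fn := nc) (crd := crd) (x := x) (onc q3 (by decide)), ← ht, kcc73_g hy hh r0 r1]
  simp only [pFma, pFmb, pFmu, pFnx, pFc0, pFkc, pFjc, pFca, pFcb, pFcc, pFsv, pFx11, pFx01, pFK11, pFK01, pFL11, pFL01, kFc0, kFc0g, kFc1, kFc1g, kFa0, kFa0g, kFb0, kFb0g, kFb1, kFb1g, kFd0, kFd0g, kFd1, kFd1g, kFe0, kFe0g, kFe1, kFe1g, cFxs1, cFsB1_3, cFsB1_9, cFsB1_20, cFsB1, cFBs1, cFsX1_3, cFsX1_9, cFsX1_20, cFsX1_25, cFsX1, cFsD1, cFsDD1, cFxs2, cFsB2_3, cFsB2_9, cFsB2_22, cFsB2, cFBs2, cFsX2_3, cFsX2_9, cFsX2_20, cFsX2, cFsD2, cFsDD2,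 cFxs3, cFsB3_3, cFsB3_9, cFsB3_22, cFsB3, cFBs3, cFsX3_3, cFsX3_9, cFsX3_20, cFsX3, cFsD3, cFsDD3, cFxs4, cFsB4_3, cFsB4_9, cFsB4_22, cFsB4, cFBs4, cFsX4_3, cFsX4_9, cFsX4_22, cFsX4, cFsD4, cFsDD4, nFsc4, nFB4_3, nFB4, nFX4_3, nFX4, nFD4_3, nFD4, nFsc5, nFB5, nFX5, nFD5, nFsc6, nFB6, nFX6, nFD6, l12F, laF, lbF, l1F, l2F, cvF1, cvF2, cvF3, cvF4, ndF4, ndF5, ndF6, pF, pNc0, pNkc, pNjc, pNcc, pNK11, pNK01, kNc0, kNc0g, kNc1, kNc1g, cNBs1, cNBs2, cNBs3, cNBs4, nNB4_4, nNB4, nNB5, nNB6, umo, us1, us2, us3, uC11, uC01, kNu1_0, kNu1_0g, kNu2_0, kNu2_0g, l12N, cvN1, cvN2, cvN3, cvN4, ndN4, ndN5, ndN6, pN, ul1, ul2, ul3, qN, pf_cons, pf_nil]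
  push_cast
  ring
theorem nlN4 {x : ℝ} : NuL PP (scK (eng.v x) tK) tL ndN4 4 16777216 x := by
  have hr : PP.ρ 4 = 4 / 5 := rfl
  refine ⟨by rw [hr]; norm_num, fun u => ?_, fun {Y t} q3 i3 ht hw => ?_, fun {Y t} q3 i3 ht hw => ?_⟩
  · rw [hr]
    simp only [pFma, pFmb, pFc0, nFsc4, nFB4_3, nFB4, nFX4_3, nFX4, nFD4_3, nFD4, pNc0, nNB4_4, nNB4, us3, ndN4, pN, qN]
    push_cast
    ring
  · have h2 : (127 / 64) < Y := by
      have := (abs_lt.1 i3).1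
      rw [S_one] at this
      norm_num at this
      linarith
    show eng.v x * tK 4 3 Y x = _
    rw [← (atB43 (onc q3 (by decide))).K]
    show eng.v x * kf4q3.v Y x = _
    rw [kf4q3_g h2 q3.2, ← ecv4q3 q3.1]
    simp only [c3g_v, ← ht, hw, pFma, pFmb, pFc0, nFsc4, nFB4_3, nFB4, nFX4_3, nFX4, nFD4_3, nFD4, pNc0, nNB4_4, nNB4, us3, ndN4, pN, qN]
    push_cast
    ring
  · have h2 : (127 / 64) < Y := by
      have := (abs_lt.1 i3).1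
      rw [S_one] at this
      norm_num at this
      linarith
    rw [← (atB43 (onc q3 (by decide))).L]
    show l4q3.v Y x = _
    rw [l4q3_g h2 q3.2, ← ecv4q3 q3.1]
    simp only [c3g_v, ← ht, hw, pFma, pFmb, pFc0, nFsc4, nFB4_3, nFB4, nFX4_3, nFX4, nFD4_3, nFD4, pNc0, nNB4_4, nNB4, us3, ndN4, pN, qN]
    push_cast
    ring
theorem sdN4 {x : ℝ} : SdOk PP (scK (eng.v x) tK) tL pN (ndUL pN ndN4) 4 16777216 x := nlN4.sd
theorem nc4 {x : ℝ} : NuLC PP tU ndN4 4 16777216 x := by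
  intro Y t q3 i3 ht hw
  have h2 : (127 / 64) < Y := by
    have := (abs_lt.1 i3).1
    rw [S_one] at this
    norm_num at this
    linarith
  rw [show tU 4 3 Y x = kc4q3.v Y x from tbF_on (fn := nc) (crd := crd) (x := x) (onc q3 (by decide)), kc4q3_g h2 q3.2, ← ecv4q3 q3.1]
  simp only [c3g_v, ← ht, hw, pFma, pFmb, pFc0, nFsc4, nFB4_3, nFB4, nFX4_3, nFX4, nFD4_3, nFD4, pNc0, nNB4_4, nNB4, us3, ndN4, pN, qN]
  push_cast
  ring
theorem suN4 {x : ℝ} : SuOk tU qN (ndUL pN ndN4) (suL qN ndN4) 4 16777216 x := nc4.su (nlN4 (x := x)).hj (nlN4 (x := x)).sc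
theorem nrN5 {x : ℝ} : NuR PP (scK (eng.v x) tK) tL pN ndN5 5 16777216 x := by
  have hr : PP.ρ 5 = 13 / 10 := rfl
  refine ⟨by rw [hr]; norm_num, fun u => ?_, fun {Y t} q3 i3 ht hw => ?_, fun {Y t} q3 i3 ht hw => ?_⟩
  · rw [hr]
    simp only [pFma, pFmb, pFc0, nFsc5, nFB5, nFX5, nFD5, pNc0, nNB5, us3, ndN5, pN, qN]
    push_cast
    ring
  · have h2 : (127 / 64) < Y := by
      have := (abs_lt.1 i3).1
      rw [S_one] at this
      norm_num at this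
      linarith
    have hy := ycg_v (y := Y) (by linarith [q3.1]) q3.2
    rw [← ht] at hy
    have h4 : t ≤ 1 / 4 := by
      rw [ht]
      exact c3n_small hD3 q3 i3
    show eng.v x * tK 5 3 Y x = _
    rw [← (atB53 (onc q3 (by decide))).K, ← ht]
    show eng.v x * kfc53.v t x = _
    rw [kfc53_g hy h2 q3.2 h4]
    rw [ecv5q3 q3.1, cv5r_v, ← ht]
    simp only [swg_v, dga3c, dgsl3, pFma, pFmb, pFc0, nFsc5, nFB5, nFX5, nFD5, pNc0, nNB5, us3, ndN5, pN, qN]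
    push_cast
    ring
  · have h2 : (127 / 64) < Y := by
      have := (abs_lt.1 i3).1
      rw [S_one] at this
      norm_num at this
      linarith
    have hy := ycg_v (y := Y) (by linarith [q3.1]) q3.2
    rw [← ht] at hy
    have h4 : t ≤ 1 / 4 := by
      rw [ht]
      exact c3n_small hD3 q3 i3
    rw [← (atB53 (onc q3 (by decide))).L, ← ht]
    show lc53.v t x = _
    rw [lc53_g hy h2 q3.2 h4]
    rw [ecv5q3 q3.1, cv5r_v, ← ht]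
    simp only [swg_v, dga3c, dgsl3, pFma, pFmb, pFc0, nFsc5, nFB5, nFX5, nFD5, pNc0, nNB5, us3, ndN5, pN, qN]
    push_cast
    ring
theorem sdN5 {x : ℝ} : SdOk PP (scK (eng.v x) tK) tL pN (ndUR ndN5) 5 16777216 x := nrN5.sd
theorem nc5 {x : ℝ} : NuRC PP tU qN ndN5 5 16777216 x := by
  intro Y t q3 i3 ht hw
  have h2 : (127 / 64) < Y := by
    have := (abs_lt.1 i3).1
    rw [S_one] at this
    norm_num at this
    linarith
  have hy := ycg_v (y := Y) (by linarith [q3.1]) q3.2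
  rw [← ht] at hy
  have h4 : t ≤ 1 / 4 := by
    rw [ht]
    exact c3n_small hD3 q3 i3
  rw [show tU 5 3 Y x = kcc53.v (c3n Y) x from tbF_on (fn := nc) (crd := crd) (x := x) (onc q3 (by decide)), ← ht, kcc53_g hy h2 q3.2 h4]
  rw [ecv5q3 q3.1, cv5r_v, ← ht]
  simp only [swg_v, dga3c, dgsl3, pFma, pFmb, pFc0, nFsc5, nFB5, nFX5, nFD5, pNc0, nNB5, us3, ndN5, pN, qN]
  push_cast
  ring
theorem suN5 {x : ℝ} : SuOk tU qN (ndUR ndN5) (suR ndN5) 5 16777216 x := nc5.su (nrN5 (x := x)).hj (nrN5 (x := x)).sc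
theorem nrN6 {x : ℝ} : NuR PP (scK (eng.v x) tK) tL pN ndN6 6 16777216 x := by
  have hr : PP.ρ 6 = 17 / 10 := rfl
  refine ⟨by rw [hr]; norm_num, fun u => ?_, fun {Y t} q3 i3 ht hw => ?_, fun {Y t} q3 i3 ht hw => ?_⟩
  · rw [hr]
    simp only [pFma, pFmb, pFc0, nFsc6, nFB6, nFX6, nFD6, pNc0, nNB6, us3, ndN6, pN, qN]
    push_cast
    ring
  · have h2 : (127 / 64) < Y := by
      have := (abs_lt.1 i3).1
      rw [S_one] at this
      norm_num at this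
      linarith
    have hy := ycg_v (y := Y) (by linarith [q3.1]) q3.2
    rw [← ht] at hy
    have h4 : t ≤ 1 / 4 := by
      rw [ht]
      exact c3n_small hD3 q3 i3
    show eng.v x * tK 6 3 Y x = _
    rw [← (atB63 (onc q3 (by decide))).K, ← ht]
    show eng.v x * kfc63.v t x = _
    rw [kfc63_g hy h2 q3.2 h4]
    rw [ecv6q3 q3.1, cv6r_v, ← ht]
    simp only [swg_v, dga3c, dgsl3, pFma, pFmb, pFc0, nFsc6, nFB6, nFX6, nFD6, pNc0, nNB6, us3, ndN6, pN, qN]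
    push_cast
    ring
  · have h2 : (127 / 64) < Y := by
      have := (abs_lt.1 i3).1
      rw [S_one] at this
      norm_num at this
      linarith
    have hy := ycg_v (y := Y) (by linarith [q3.1]) q3.2
    rw [← ht] at hy
    have h4 : t ≤ 1 / 4 := by
      rw [ht]
      exact c3n_small hD3 q3 i3
    rw [← (atB63 (onc q3 (by decide))).L, ← ht]
    show lc63.v t x = _
    rw [lc63_g hy h2 q3.2 h4]
    rw [ecv6q3 q3.1, cv6r_v, ← ht]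
    simp only [swg_v, dga3c, dgsl3, pFma, pFmb, pFc0, nFsc6, nFB6, nFX6, nFD6, pNc0, nNB6, us3, ndN6, pN, qN]
    push_cast
    ring
theorem sdN6 {x : ℝ} : SdOk PP (scK (eng.v x) tK) tL pN (ndUR ndN6) 6 16777216 x := nrN6.sd
theorem nc6 {x : ℝ} : NuRC PP tU qN ndN6 6 16777216 x := by
  intro Y t q3 i3 ht hw
  have h2 : (127 / 64) < Y := by
    have := (abs_lt.1 i3).1
    rw [S_one] at this
    norm_num at this
    linarith
  have hy := ycg_v (y := Y) (by linarith [q3.1]) q3.2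
  rw [← ht] at hy
  have h4 : t ≤ 1 / 4 := by
    rw [ht]
    exact c3n_small hD3 q3 i3
  rw [show tU 6 3 Y x = kcc63.v (c3n Y) x from tbF_on (fn := nc) (crd := crd) (x := x) (onc q3 (by decide)), ← ht, kcc63_g hy h2 q3.2 h4]
  rw [ecv6q3 q3.1, cv6r_v, ← ht]
  simp only [swg_v, dga3c, dgsl3, pFma, pFmb, pFc0, nFsc6, nFB6, nFX6, nFD6, pNc0, nNB6, us3, ndN6, pN, qN]
  push_cast
  ring
theorem suN6 {x : ℝ} : SuOk tU qN (ndUR ndN6) (suR ndN6) 6 16777216 x := nc6.su (nrN6 (x := x)).hj (nrN6 (x := x)).sc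
theorem cvokN1 {x : ℝ} : CvOk PP (scK (eng.v x) tK) tL pN cvN1 1 67108864 x := by
  intro v v0 v1
  have v2 : v < (1 / 16) := by
    rw [S_one] at v1
    norm_num at v1
    linarith
  have hxi := dgxi_v v0 (by linarith)
  have hws := dgws_v v0 (by linarith)
  have q2 : InQ 2 (1 + v) := ⟨by linarith, by linarith⟩
  have o : OnC (1 : Fin 8) 2 (1 + v) := onc q2 (by decide)
  have ex : crv PP 1 2 (1 + v) = 1 / 2 - v * cvN1.xs.v v := by
    rw [ecv1q2, cv1p_v, hxi, hws]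
    simp only [pFma, pFmb, pFmu, pFnx, pFc0, pFkc, pFjc, pFca, pFcb, pFcc, pFsv, pFx11, pFx01, pFK11, pFK01, pFL11, pFL01, kFc0, kFc0g, kFc1, kFc1g, kFa0, kFa0g, kFb0, kFb0g, kFb1, kFb1g, kFd0, kFd0g, kFd1, kFd1g, kFe0, kFe0g, kFe1, kFe1g, cFxs1, cFsB1_3, cFsB1_9, cFsB1_20, cFsB1, cFBs1, cFsX1_3, cFsX1_9, cFsX1_20, cFsX1_25, cFsX1, cFsD1, cFsDD1, cFxs2, cFsB2_3, cFsB2_9, cFsB2_22, cFsB2, cFBs2, cFsX2_3, cFsX2_9, cFsX2_20, cFsX2, cFsD2, cFsDD2, cFxs3, cFsB3_3, cFsB3_9, cFsB3_22, cFsB3, cFBs3, cFsX3_3, cFsX3_9, cFsX3_20, cFsX3, cFsD3, cFsDD3, cFxs4, cFsB4_3, cFsB4_9, cFsB4_22, cFsB4, cFBs4, cFsX4_3, cFsX4_9, cFsX4_22, cFsX4, cFsD4, cFsDD4, nFsc4, nFB4_3, nFB4, nFX4_3, nFX4, nFD4_3, nFD4, nFsc5, nFB5, nFX5, nFD5, nFsc6, nFB6, nFX6, nFD6, l12F, laF, lbF, l1F, l2F, cvF1, cvF2, cvF3, cvF4, ndF4, ndF5, ndF6, pF, pNc0, pNkc, pNjc, pNcc, pNK11, pNK01, kNc0, kNc0g, kNc1, kNc1g,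 cNBs1, cNBs2, cNBs3, cNBs4, nNB4_4, nNB4, nNB5, nNB6, umo, us1, us2, us3, uC11, uC01, kNu1_0, kNu1_0g, kNu2_0, kNu2_0g, l12N, cvN1, cvN2, cvN3, cvN4, ndN4, ndN5, ndN6, pN, ul1, ul2, ul3, qN]
    push_cast
    ring
  refine ⟨ex, ?_, ?_⟩
  · show eng.v x * tK 1 2 (1 + v) x = _
    rw [← (atB12 o).K]
    show eng.v x * kf1q2.v (1 + v) x = _
    have ef : kf1q2.v (1 + v) x = cv1p.v (1 + v) * bf1q2.v (1 + v) x := by
      simp only [kf1q2_4, kf1q2_9, kf1q2, bf1q2_3, bf1q2_8, bf1q2]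
    rw [ef, bf1q2_g v0 v2, ← ecv1q2, ex]
    simp only [pFmu, pFc0, cFBs1, pNc0, cNBs1, cvN1, pN]
    push_cast
    ring
  · rw [← (atB12 o).L]
    show l1q2.v (1 + v) x = _
    have ef : l1q2.v (1 + v) x = cv1p.v (1 + v) * bx1q2.v (1 + v) x := by
      simp only [l1q2_4, l1q2_11, l1q2, bx1q2_3, bx1q2_10, bx1q2]
    rw [ef, bx1q2_g v0 v2, ← ecv1q2, ex, zero_add]
    rfl
theorem cvu1 {x : ℝ} : CvU tU cvN1 cFsDD1 1 67108864 x := by
  intro v v0 v1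
  have v2 : v < (1 / 16) := by
    rw [S_one] at v1
    norm_num at v1
    linarith
  have q2 : InQ 2 (1 + v) := ⟨by linarith, by linarith⟩
  have o : OnC (1 : Fin 8) 2 (1 + v) := onc q2 (by decide)
  have ex := (cvokN1 (x := x) v0 v1).1
  rw [show tU 1 2 (1 + v) x = kc1q2.v (1 + v) x from tbF_on (fn := nc) (crd := crd) (x := x) o]
  have ef : kc1q2.v (1 + v) x = cv1p.v (1 + v) * bd1q2.v (1 + v) x := by
    simp only [kc1q2_4, kc1q2_8, kc1q2, bd1q2_3, bd1q2_7, bd1q2]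
  rw [ef, bd1q2_g v0 v2, ← ecv1q2, ex, zero_add]
  rfl
theorem cvokN2 {x : ℝ} : CvOk PP (scK (eng.v x) tK) tL pN cvN2 2 67108864 x := by
  intro v v0 v1
  have v2 : v < (1 / 16) := by
    rw [S_one] at v1
    norm_num at v1
    linarith
  have hxi := dgxi_v v0 (by linarith)
  have hws := dgws_v v0 (by linarith)
  have q2 : InQ 2 (1 + v) := ⟨by linarith, by linarith⟩
  have o : OnC (2 : Fin 8) 2 (1 + v) := onc q2 (by decide)
  have ex : crv PP 2 2 (1 + v) = 1 / 2 - v * cvN2.xs.v v := by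
    rw [ecv2q2, cv2p_v, hxi, hws]
    simp only [pFma, pFmb, pFmu, pFnx, pFc0, pFkc, pFjc, pFca, pFcb, pFcc, pFsv, pFx11, pFx01, pFK11, pFK01, pFL11, pFL01, kFc0, kFc0g, kFc1, kFc1g, kFa0, kFa0g, kFb0, kFb0g, kFb1, kFb1g, kFd0, kFd0g, kFd1, kFd1g, kFe0, kFe0g, kFe1, kFe1g, cFxs1, cFsB1_3, cFsB1_9, cFsB1_20, cFsB1, cFBs1, cFsX1_3, cFsX1_9, cFsX1_20, cFsX1_25, cFsX1, cFsD1, cFsDD1, cFxs2, cFsB2_3, cFsB2_9, cFsB2_22, cFsB2, cFBs2, cFsX2_3, cFsX2_9, cFsX2_20, cFsX2, cFsD2, cFsDD2, cFxs3, cFsB3_3, cFsB3_9, cFsB3_22, cFsB3, cFBs3, cFsX3_3, cFsX3_9, cFsX3_20, cFsX3, cFsD3, cFsDD3, cFxs4, cFsB4_3, cFsB4_9, cFsB4_22, cFsB4, cFBs4, cFsX4_3, cFsX4_9, cFsX4_22, cFsX4, cFsD4, cFsDD4, nFsc4, nFB4_3, nFB4, nFX4_3, nFX4, nFD4_3, nFD4, nFsc5, nFB5, nFX5, nFD5, nFsc6, nFB6, nFX6, nFD6, l12F, laF, lbF, l1F, l2F, cvF1, cvF2, cvF3, cvF4, ndF4, ndF5, ndF6, pF, pNc0, pNkc, pNjc, pNcc, pNK11,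 pNK01, kNc0, kNc0g, kNc1, kNc1g, cNBs1, cNBs2, cNBs3, cNBs4, nNB4_4, nNB4, nNB5, nNB6, umo, us1, us2, us3, uC11, uC01, kNu1_0, kNu1_0g, kNu2_0, kNu2_0g, l12N, cvN1, cvN2, cvN3, cvN4, ndN4, ndN5, ndN6, pN, ul1, ul2, ul3, qN]
    push_cast
    ring
  refine ⟨ex, ?_, ?_⟩
  · show eng.v x * tK 2 2 (1 + v) x = _
    rw [← (atB22 o).K]
    show eng.v x * kf2q2.v (1 + v) x = _
    have ef : kf2q2.v (1 + v) x = cv2p.v (1 + v) * bf2q2.v (1 + v) x := by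
      simp only [kf2q2_4, kf2q2, bf2q2_3, bf2q2]
    rw [ef, bf2q2_g v0 v2, ← ecv2q2, ex]
    simp only [pFmu, pFc0, cFBs2, pNc0, cNBs2, cvN2, pN]
    push_cast
    ring
  · rw [← (atB22 o).L]
    show l2q2.v (1 + v) x = _
    have ef : l2q2.v (1 + v) x = cv2p.v (1 + v) * bx2q2.v (1 + v) x := by
      simp only [l2q2_4, l2q2, bx2q2_3, bx2q2]
    rw [ef, bx2q2_g v0 v2, ← ecv2q2, ex, zero_add]
    rfl
theorem cvu2 {x : ℝ} : CvU tU cvN2 cFsDD2 2 67108864 x := by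
  intro v v0 v1
  have v2 : v < (1 / 16) := by
    rw [S_one] at v1
    norm_num at v1
    linarith
  have q2 : InQ 2 (1 + v) := ⟨by linarith, by linarith⟩
  have o : OnC (2 : Fin 8) 2 (1 + v) := onc q2 (by decide)
  have ex := (cvokN2 (x := x) v0 v1).1
  rw [show tU 2 2 (1 + v) x = kc2q2.v (1 + v) x from tbF_on (fn := nc) (crd := crd) (x := x) o]
  have ef : kc2q2.v (1 + v) x = cv2p.v (1 + v) * bd2q2.v (1 + v) x := by
    simp only [kc2q2_4, kc2q2, bd2q2_3, bd2q2]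
  rw [ef, bd2q2_g v0 v2, ← ecv2q2, ex, zero_add]
  rfl
theorem cvokN3 {x : ℝ} : CvOk PP (scK (eng.v x) tK) tL pN cvN3 3 67108864 x := by
  intro v v0 v1
  have v2 : v < (1 / 16) := by
    rw [S_one] at v1
    norm_num at v1
    linarith
  have hxi := dgxi_v v0 (by linarith)
  have hws := dgws_v v0 (by linarith)
  have q2 : InQ 2 (1 + v) := ⟨by linarith, by linarith⟩
  have o : OnC (3 : Fin 8) 2 (1 + v) := onc q2 (by decide)
  have ex : crv PP 3 2 (1 + v) = 1 / 2 - v * cvN3.xs.v v := by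
    rw [ecv3q2, cv3p_v, hxi, hws]
    simp only [pFma, pFmb, pFmu, pFnx, pFc0, pFkc, pFjc, pFca, pFcb, pFcc, pFsv, pFx11, pFx01, pFK11, pFK01, pFL11, pFL01, kFc0, kFc0g, kFc1, kFc1g, kFa0, kFa0g, kFb0, kFb0g, kFb1, kFb1g, kFd0, kFd0g, kFd1, kFd1g, kFe0, kFe0g, kFe1, kFe1g, cFxs1, cFsB1_3, cFsB1_9, cFsB1_20, cFsB1, cFBs1, cFsX1_3, cFsX1_9, cFsX1_20, cFsX1_25, cFsX1, cFsD1, cFsDD1, cFxs2, cFsB2_3, cFsB2_9, cFsB2_22, cFsB2, cFBs2, cFsX2_3, cFsX2_9, cFsX2_20, cFsX2, cFsD2, cFsDD2, cFxs3, cFsB3_3, cFsB3_9, cFsB3_22, cFsB3, cFBs3, cFsX3_3, cFsX3_9, cFsX3_20, cFsX3, cFsD3, cFsDD3, cFxs4, cFsB4_3, cFsB4_9, cFsB4_22, cFsB4, cFBs4, cFsX4_3, cFsX4_9, cFsX4_22, cFsX4, cFsD4, cFsDD4, nFsc4, nFB4_3, nFB4, nFX4_3, nFX4, nFD4_3, nFD4, nFsc5, nFB5, nFX5, nFD5, nFsc6, nFB6, nFX6, nFD6, l12F, laF, lbF, l1F, l2F, cvF1, cvF2, cvF3, cvF4, ndF4, ndF5, ndF6, pF, pNc0, pNkc, pNjc, pNcc, pNK11,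 pNK01, kNc0, kNc0g, kNc1, kNc1g, cNBs1, cNBs2, cNBs3, cNBs4, nNB4_4, nNB4, nNB5, nNB6, umo, us1, us2, us3, uC11, uC01, kNu1_0, kNu1_0g, kNu2_0, kNu2_0g, l12N, cvN1, cvN2, cvN3, cvN4, ndN4, ndN5, ndN6, pN, ul1, ul2, ul3, qN]
    push_cast
    ring
  refine ⟨ex, ?_, ?_⟩
  · show eng.v x * tK 3 2 (1 + v) x = _
    rw [← (atB32 o).K]
    show eng.v x * kf3q2.v (1 + v) x = _
    have ef : kf3q2.v (1 + v) x = cv3p.v (1 + v) * bf3q2.v (1 + v) x := by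
      simp only [kf3q2_4, kf3q2, bf3q2_3, bf3q2]
    rw [ef, bf3q2_g v0 v2, ← ecv3q2, ex]
    simp only [pFmu, pFc0, cFBs3, pNc0, cNBs3, cvN3, pN]
    push_cast
    ring
  · rw [← (atB32 o).L]
    show l3q2.v (1 + v) x = _
    have ef : l3q2.v (1 + v) x = cv3p.v (1 + v) * bx3q2.v (1 + v) x := by
      simp only [l3q2_4, l3q2, bx3q2_3, bx3q2]
    rw [ef, bx3q2_g v0 v2, ← ecv3q2, ex, zero_add]
    rfl
theorem cvu3 {x : ℝ} : CvU tU cvN3 cFsDD3 3 67108864 x := by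
  intro v v0 v1
  have v2 : v < (1 / 16) := by
    rw [S_one] at v1
    norm_num at v1
    linarith
  have q2 : InQ 2 (1 + v) := ⟨by linarith, by linarith⟩
  have o : OnC (3 : Fin 8) 2 (1 + v) := onc q2 (by decide)
  have ex := (cvokN3 (x := x) v0 v1).1
  rw [show tU 3 2 (1 + v) x = kc3q2.v (1 + v) x from tbF_on (fn := nc) (crd := crd) (x := x) o]
  have ef : kc3q2.v (1 + v) x = cv3p.v (1 + v) * bd3q2.v (1 + v) x := by
    simp only [kc3q2_4, kc3q2, bd3q2_3, bd3q2]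
  rw [ef, bd3q2_g v0 v2, ← ecv3q2, ex, zero_add]
  rfl
theorem cvokN4 {x : ℝ} : CvOk PP (scK (eng.v x) tK) tL pN cvN4 4 67108864 x := by
  intro v v0 v1
  have v2 : v < (1 / 16) := by
    rw [S_one] at v1
    norm_num at v1
    linarith
  have hxi := dgxi_v v0 (by linarith)
  have hws := dgws_v v0 (by linarith)
  have q2 : InQ 2 (1 + v) := ⟨by linarith, by linarith⟩
  have o : OnC (4 : Fin 8) 2 (1 + v) := onc q2 (by decide)
  have ex : crv PP 4 2 (1 + v) = 1 / 2 - v * cvN4.xs.v v := by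
    rw [ecv4q2, cv4p_v, hxi, hws]
    simp only [pFma, pFmb, pFmu, pFnx, pFc0, pFkc, pFjc, pFca, pFcb, pFcc, pFsv, pFx11, pFx01, pFK11, pFK01, pFL11, pFL01, kFc0, kFc0g, kFc1, kFc1g, kFa0, kFa0g, kFb0, kFb0g, kFb1, kFb1g, kFd0, kFd0g, kFd1, kFd1g, kFe0, kFe0g, kFe1, kFe1g, cFxs1, cFsB1_3, cFsB1_9, cFsB1_20, cFsB1, cFBs1, cFsX1_3, cFsX1_9, cFsX1_20, cFsX1_25, cFsX1, cFsD1, cFsDD1, cFxs2, cFsB2_3, cFsB2_9, cFsB2_22, cFsB2, cFBs2, cFsX2_3, cFsX2_9, cFsX2_20, cFsX2, cFsD2, cFsDD2, cFxs3, cFsB3_3, cFsB3_9, cFsB3_22, cFsB3, cFBs3, cFsX3_3, cFsX3_9, cFsX3_20, cFsX3, cFsD3, cFsDD3, cFxs4, cFsB4_3, cFsB4_9, cFsB4_22, cFsB4, cFBs4, cFsX4_3, cFsX4_9, cFsX4_22, cFsX4, cFsD4, cFsDD4, nFsc4, nFB4_3, nFB4, nFX4_3, nFX4, nFD4_3, nFD4, nFsc5, nFB5, nFX5, nFD5, nFsc6, nFB6, nFX6, nFD6, l12F, laF, lbF, l1F, l2F, cvF1, cvF2, cvF3, cvF4, ndF4, ndF5, ndF6, pF, pNc0, pNkc, pNjc, pNcc, pNK11,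 pNK01, kNc0, kNc0g, kNc1, kNc1g, cNBs1, cNBs2, cNBs3, cNBs4, nNB4_4, nNB4, nNB5, nNB6, umo, us1, us2, us3, uC11, uC01, kNu1_0, kNu1_0g, kNu2_0, kNu2_0g, l12N, cvN1, cvN2, cvN3, cvN4, ndN4, ndN5, ndN6, pN, ul1, ul2, ul3, qN]
    push_cast
    ring
  refine ⟨ex, ?_, ?_⟩
  · show eng.v x * tK 4 2 (1 + v) x = _
    rw [← (atB42 o).K]
    show eng.v x * kf4q2.v (1 + v) x = _
    have ef : kf4q2.v (1 + v) x = cv4p.v (1 + v) * bf4q2.v (1 + v) x := by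
      simp only [kf4q2_4, kf4q2, bf4q2_3, bf4q2]
    rw [ef, bf4q2_g v0 v2, ← ecv4q2, ex]
    simp only [pFmu, pFc0, cFBs4, pNc0, cNBs4, cvN4, pN]
    push_cast
    ring
  · rw [← (atB42 o).L]
    show l4q2.v (1 + v) x = _
    have ef : l4q2.v (1 + v) x = cv4p.v (1 + v) * bx4q2.v (1 + v) x := by
      simp only [l4q2_4, l4q2, bx4q2_3, bx4q2]
    rw [ef, bx4q2_g v0 v2, ← ecv4q2, ex, zero_add]
    rfl
theorem cvu4 {x : ℝ} : CvU tU cvN4 cFsDD4 4 67108864 x := by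
  intro v v0 v1
  have v2 : v < (1 / 16) := by
    rw [S_one] at v1
    norm_num at v1
    linarith
  have q2 : InQ 2 (1 + v) := ⟨by linarith, by linarith⟩
  have o : OnC (4 : Fin 8) 2 (1 + v) := onc q2 (by decide)
  have ex := (cvokN4 (x := x) v0 v1).1
  rw [show tU 4 2 (1 + v) x = kc4q2.v (1 + v) x from tbF_on (fn := nc) (crd := crd) (x := x) o]
  have ef : kc4q2.v (1 + v) x = cv4p.v (1 + v) * bd4q2.v (1 + v) x := by
    simp only [kc4q2_4, kc4q2, bd4q2_3, bd4q2]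
  rw [ef, bd4q2_g v0 v2, ← ecv4q2, ex, zero_add]
  rfl
theorem p1okN {x : ℝ} : P1Ok PP (scK (eng.v x) tK) tL pN 1 67108864 x := by
  refine ⟨fun hq _ => ecv1q1, fun hq _ => (congrFun c1g_v _).symm, fun hq _ => congrArg (fun z => eng.v x * z) ((atB11 (onc hq (by decide))).K).symm,
    fun hq _ => congrArg (fun z => eng.v x * z) ((atB01 ⟨hq, fun _ => on_h (by linarith [hq.2]) (by linarith [hq.1])⟩).K).symm,
    fun hq _ => ((atB11 (onc hq (by decide))).L).symm,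
    fun hq _ => ((atB01 ⟨hq, fun _ => on_h (by linarith [hq.2]) (by linarith [hq.1])⟩).L).symm⟩
theorem p1u {x : ℝ} : P1U tU qN 1 67108864 x :=
  ⟨fun hq _ => tbF_on (fn := nc) (crd := crd) (x := x) (onc hq (by decide)),
    fun {y} hq _ => tbF_on (fn := nc) (crd := crd) (x := x)
      (⟨hq, fun _ => on_h (by linarith [hq.2]) (by linarith [hq.1])⟩ : OnC (0 : Fin 8) 1 y)⟩
theorem svN (u : ℝ) : pN.sv.v u = u - ((67108864 : ℕ) : ℝ) / S := by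
  rw [S_one]
  simp only [pFma, pFmb, pFmu, pFnx, pFc0, pFkc, pFjc, pFca, pFcb, pFcc, pFsv, pFx11, pFx01, pFK11, pFK01, pFL11, pFL01, kFc0, kFc0g, kFc1, kFc1g, kFa0, kFa0g, kFb0, kFb0g, kFb1, kFb1g, kFd0, kFd0g, kFd1, kFd1g, kFe0, kFe0g, kFe1, kFe1g, cFxs1, cFsB1_3, cFsB1_9, cFsB1_20, cFsB1, cFBs1, cFsX1_3, cFsX1_9, cFsX1_20, cFsX1_25, cFsX1, cFsD1, cFsDD1, cFxs2, cFsB2_3, cFsB2_9, cFsB2_22, cFsB2, cFBs2, cFsX2_3, cFsX2_9, cFsX2_20, cFsX2, cFsD2, cFsDD2, cFxs3, cFsB3_3, cFsB3_9, cFsB3_22, cFsB3, cFBs3, cFsX3_3, cFsX3_9, cFsX3_20, cFsX3, cFsD3, cFsDD3, cFxs4, cFsB4_3, cFsB4_9, cFsB4_22, cFsB4, cFBs4, cFsX4_3, cFsX4_9, cFsX4_22, cFsX4, cFsD4, cFsDD4, nFsc4, nFB4_3, nFB4, nFX4_3, nFX4, nFD4_3, nFD4, nFsc5, nFB5, nFX5, nFD5, nFsc6, nFB6, nFX6, nFD6, l12F, laF, lbF, l1F, l2F, cvF1, cvF2, cvF3, cvF4, ndF4, ndF5, ndF6, pF, pNc0, pNkc, pNjc, pNcc, pNK11, pNK01, kNc0, kNc0g,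 kNc1, kNc1g, cNBs1, cNBs2, cNBs3, cNBs4, nNB4_4, nNB4, nNB5, nNB6, umo, us1, us2, us3, uC11, uC01, kNu1_0, kNu1_0g, kNu2_0, kNu2_0g, l12N, cvN1, cvN2, cvN3, cvN4, ndN4, ndN5, ndN6, pN, ul1, ul2, ul3, qN]
  push_cast
  ring
theorem tgpF {x : ℝ} : TgP pF x :=
  ⟨by simp only [pF, pFc0]; norm_num, rfl, rfl, rfl, rfl, rfl, rfl, fun _ => rfl, fun _ => rfl⟩
theorem klF {x : ℝ} : Kl pF x := by
  constructor
  · intro h
    simp only [pFma, pFmb, pFmu, pFnx, pFc0, pFkc, pFjc, pFca, pFcb, pFcc, pFsv, pFx11, pFx01, pFK11, pFK01, pFL11, pFL01, kFc0, kFc0g, kFc1, kFc1g, kFa0, kFa0g, kFb0, kFb0g, kFb1, kFb1g, kFd0, kFd0g, kFd1, kFd1g, kFe0, kFe0g, kFe1, kFe1g, cFxs1, cFsB1_3, cFsB1_9, cFsB1_20, cFsB1, cFBs1, cFsX1_3, cFsX1_9, cFsX1_20, cFsX1_25, cFsX1, cFsD1, cFsDD1, cFxs2, cFsB2_3, cFsB2_9, cFsB2_22, cFsB2, cFBs2, cFsX2_3, cFsX2_9, cFsX2_20, cFsX2, cFsD2, cFsDD2, cFxs3, cFsB3_3,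 cFsB3_9, cFsB3_22, cFsB3, cFBs3, cFsX3_3, cFsX3_9, cFsX3_20, cFsX3, cFsD3, cFsDD3, cFxs4, cFsB4_3, cFsB4_9, cFsB4_22, cFsB4, cFBs4, cFsX4_3, cFsX4_9, cFsX4_22, cFsX4, cFsD4, cFsDD4, nFsc4, nFB4_3, nFB4, nFX4_3, nFX4, nFD4_3, nFD4, nFsc5, nFB5, nFX5, nFD5, nFsc6, nFB6, nFX6, nFD6, l12F, laF, lbF, l1F, l2F, cvF1, cvF2, cvF3, cvF4, ndF4, ndF5, ndF6, pF, pNc0, pNkc, pNjc, pNcc, pNK11, pNK01, kNc0, kNc0g, kNc1, kNc1g, cNBs1, cNBs2, cNBs3, cNBs4, nNB4_4, nNB4, nNB5, nNB6, umo, us1, us2, us3, uC11, uC01, kNu1_0, kNu1_0g, kNu2_0, kNu2_0g, l12N, cvN1, cvN2, cvN3, cvN4, ndN4, ndN5, ndN6, pN, ul1, ul2, ul3, qN, pf_cons, pf_nil]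
    push_cast
    ring
  · intro h
    simp only [pFma, pFmb, pFmu, pFnx, pFc0, pFkc, pFjc, pFca, pFcb, pFcc, pFsv, pFx11, pFx01, pFK11, pFK01, pFL11, pFL01, kFc0, kFc0g, kFc1, kFc1g, kFa0, kFa0g, kFb0, kFb0g, kFb1, kFb1g, kFd0, kFd0g, kFd1, kFd1g, kFe0, kFe0g, kFe1, kFe1g, cFxs1, cFsB1_3, cFsB1_9, cFsB1_20, cFsB1, cFBs1, cFsX1_3, cFsX1_9, cFsX1_20, cFsX1_25, cFsX1, cFsD1, cFsDD1, cFxs2, cFsB2_3, cFsB2_9, cFsB2_22, cFsB2, cFBs2, cFsX2_3, cFsX2_9, cFsX2_20, cFsX2, cFsD2, cFsDD2, cFxs3, cFsB3_3, cFsB3_9, cFsB3_22, cFsB3, cFBs3, cFsX3_3, cFsX3_9, cFsX3_20, cFsX3, cFsD3, cFsDD3, cFxs4, cFsB4_3, cFsB4_9, cFsB4_22, cFsB4, cFBs4, cFsX4_3, cFsX4_9, cFsX4_22, cFsX4, cFsD4, cFsDD4, nFsc4, nFB4_3, nFB4, nFX4_3, nFX4, nFD4_3, nFD4, nFsc5, nFB5, nFX5, nFD5, nFsc6, nFB6, nFX6, nFD6, l12F, laF, lbF, l1F, l2F, cvF1, cvF2, cvF3, cvF4, ndF4, ndF5, ndF6, pF, pNc0, pNkc, pNjc, pNcc,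 pNK11, pNK01, kNc0, kNc0g, kNc1, kNc1g, cNBs1, cNBs2, cNBs3, cNBs4, nNB4_4, nNB4, nNB5, nNB6, umo, us1, us2, us3, uC11, uC01, kNu1_0, kNu1_0g, kNu2_0, kNu2_0g, l12N, cvN1, cvN2, cvN3, cvN4, ndN4, ndN5, ndN6, pN, ul1, ul2, ul3, qN, pf_cons, pf_nil]
    push_cast
    ring
theorem bsF {x : ℝ} (hx : ((587336777 : ℕ) : ℝ) / S ≤ x) (hx' : x ≤ (((587336777 : ℕ) : ℝ) + (62277027 : ℕ)) / S) : Bs PP tK tL pcB true 3 pF 67108864 16777216 x :=
  ⟨sideB hx hx', fitF, tabF, (xr hx hx').1, (xr hx hx').2, hD, hD3⟩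
theorem mo0 {x : ℝ} (h0x : 0 ≤ x) (h1x : x ≤ 1) : 0 ≤ mog.v x := by
  rw [mo_v]
  have h1 := mun_nn 3 x
  have h2 := (esg_rng h0x h1x).1
  positivity
theorem bsN {x : ℝ} (hx : ((587336777 : ℕ) : ℝ) / S ≤ x) (hx' : x ≤ (((587336777 : ℕ) : ℝ) + (62277027 : ℕ)) / S) : BsW PP tK tL tU pcB 3 pN qN (eng.v x) (mog.v x) 67108864 16777216 x :=
  ⟨sideB hx hx', pinU hx hx', fitN, tabN, tabU, en_pos (xr hx hx').1.le, rfl, mo0 (xr hx hx').1.le (xr hx hx').2.le, (xr hx hx').1, (xr hx hx').2, hD, hD3⟩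

end Pool.Agent.Strip051.G.I5470_6050.Tab.DG
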