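import Pool.Agent.Strip051.G.I5470_6050.FlB

/-! # The rows at the floor (generated) -/

set_option linter.all false

namespace Pool.Agent.Strip051.G.I5470_6050.Tab

open Pool.Agent.Strip051.PB Pool.Agent.StripNear Pool.Agent.StripSquare
  Pool.Agent.Strip051.Sweep Pool.Agent.Strip051.LC Pool.Agent.Strip051.LC.Exact

theorem flRow {x a κ o : ℝ} (hx : Rng 587336777 62277027 x)
    (h : CertE PP.cur (tbl tK x) (tbl tL x) (tbl (smT h0⁻¹ tC) x) (tnt (h0 * x) (((3 : ℕ) : ℝ) / ((10 : ℕ) : ℝ))) 3 a κ (h0 * x)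
      (eng.v x) o) (hκ : κ = kE (h0 * x)) :
    RowOK ((tab PP.cur.nodes (tbl tK x) (fun T i => eng.v x * tbl tK x T i) (tbl tL x)).flat3
      (ker PP.cur.nodes (tbl (smT h0⁻¹ tC) x) fun _ _ => 0) (tnt (h0 * x) (((3 : ℕ) : ℝ) / ((10 : ℕ) : ℝ))) 3 κ (h0 * x)) 3
      (h0 * x) := by
  have e1 : (((1 : ℕ) : ℝ) / ((1 : ℕ) : ℝ)) = 1 := by norm_num
  have a1 := (fvA hx).par
  have a3 := winA hx
  rw [e1] at a1 a3
  have b1 := (fvB hx).par
  have b3 := winB hx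
  rw [mT_v] at b1 b3
  exact certE_win h hκ le_rfl a1 (fvA hx).vx a3 b1 (fvB hx).vx b3 (by norm_num [Dw]) (by norm_num [Dw])
    (by norm_num [Dw]) (by norm_num [Dw])

end Pool.Agent.Strip051.G.I5470_6050.Tab
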