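import Pool.Agent.Strip051.PB.FlAsmX
import Pool.Agent.Strip051.G.I5470_6050.Tab

/-! # Slopes (generated) -/

set_option linter.all false

namespace Pool.Agent.Strip051.G.I5470_6050.Tab

open Pool.Agent.Strip051.PB

attribute [local irreducible] padd psub pneg pmul psq pinv psqrt psqrtg pabs pps pmax pmin pphi
  plam pcase phf pnat prat pscale pnorm pdc pnc pone ppos pnn

noncomputable def c1g_fs : Sl1 c1g := ⟨_, fun h1 => (pr_sqrtg (pr_csub (enc_pnc _ 1) (pr_scale 3 4 (pr_sq h1))))⟩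
noncomputable def kcg_6_fs : Sl2 kcg_6 := ⟨_, fun h1 h2 => (pr_addc h1 (enc_rat _ 1 4))⟩
noncomputable def kcg_9_fs : Sl2 kcg_9 := ⟨_, fun h1 h2 => (pr_addc h1 (enc_rat _ 2 5))⟩
noncomputable def kcg_12_fs : Sl2 kcg_12 := ⟨_, fun h1 h2 => (pr_addc h1 (enc_rat _ 9 20))⟩
noncomputable def kcg_13_fs : Sl2 kcg_13 := ⟨_, fun h1 h2 => (pr_scale 6354239 5000000 h1)⟩
noncomputable def kcg_16_fs : Sl2 kcg_16 := ⟨_, fun h1 h2 => (pr_scale 456141 125000 h1)⟩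
noncomputable def kcg_34_fs : Sl2 kcg_34 := ⟨_, fun h1 h2 => (pr_scale 7095629 5000000 h1)⟩
noncomputable def kcg_39_fs : Sl2 kcg_39 := ⟨_, fun h1 h2 => (pr_scale 2303271 500000 h1)⟩
noncomputable def kcg_55_fs : Sl2 kcg_55 := ⟨_, fun h1 h2 => (pr_addc h1 (enc_rat _ 7 20))⟩
noncomputable def kcg_56_fs : Sl2 kcg_56 := ⟨_, fun h1 h2 => (pr_scale 1196381 500000 h1)⟩
noncomputable def kcg_61_fs : Sl2 kcg_61 := ⟨_, fun h1 h2 => (pr_scale 1355147 500000 h1)⟩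
noncomputable def kcg_78_fs : Sl2 kcg_78 := ⟨_, fun h1 h2 => (pr_addc h1 (enc_rat _ 3 10))⟩
noncomputable def kcg_79_fs : Sl2 kcg_79 := ⟨_, fun h1 h2 => (pr_scale 5937073 2500000 h1)⟩
noncomputable def kcg_84_fs : Sl2 kcg_84 := ⟨_, fun h1 h2 => (pr_scale 2303587 500000 h1)⟩
noncomputable def kcg_102_fs : Sl2 kcg_102 := ⟨_, fun h1 h2 => (pr_scale 6223339 5000000 h1)⟩
noncomputable def kcg_107_fs : Sl2 kcg_107 := ⟨_, fun h1 h2 => (pr_scale 227813 125000 h1)⟩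
noncomputable def kcg_130_fs : Sl2 kcg_130 := ⟨_, fun h1 h2 => (pr_addc h1 (enc_rat _ 3 20))⟩
noncomputable def kcg_133_fs : Sl2 kcg_133 := ⟨_, fun h1 h2 => (pr_addc h1 (enc_rat _ 1 5))⟩
noncomputable def kcg_134_fs : Sl2 kcg_134 := ⟨_, fun h1 h2 => (pr_scale 308667 5000000 h1)⟩
noncomputable def kcg_138_fs : Sl2 kcg_138 := ⟨_, fun h1 h2 => (pr_scale 1 62500 h1)⟩
noncomputable def kcg_156_fs : Sl2 kcg_156 := ⟨_, fun h1 h2 => (pr_scale 7593879 5000000 h1)⟩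
noncomputable def kcg_160_fs : Sl2 kcg_160 := ⟨_, fun h1 h2 => (pr_scale 796983 500000 h1)⟩
noncomputable def kcg_180_fs : Sl2 kcg_180 := ⟨_, fun h1 h2 => (pr_addc h1 (enc_rat _ 1 10))⟩
noncomputable def kcg_181_fs : Sl2 kcg_181 := ⟨_, fun h1 h2 => (pr_scale 5975329 2500000 h1)⟩
noncomputable def kcg_184_fs : Sl2 kcg_184 := ⟨_, fun h1 h2 => (pr_scale 2499999 500000 h1)⟩
noncomputable def kcg_203_fs : Sl2 kcg_203 := ⟨_, fun h1 h2 => (pr_scale 217849 100000 h1)⟩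
noncomputable def kcg_206_fs : Sl2 kcg_206 := ⟨_, fun h1 h2 => (pr_scale 212877 62500 h1)⟩
noncomputable def kcg_219_fs : Sl2 kcg_219 := ⟨_, fun h1 h2 => (pr_scale 9701419 5000000 h1)⟩
noncomputable def kcg_226_fs : Sl2 kcg_226 := ⟨_, fun h1 h2 => (pr_csub (enc_rat _ 1 4) h1)⟩
noncomputable def kcg_227_fs : Sl2 kcg_227 := ⟨_, fun h1 h2 => (pr_csub (enc_rat _ 2 5) h1)⟩
noncomputable def kcg_228_fs : Sl2 kcg_228 := ⟨_, fun h1 h2 => (pr_csub (enc_rat _ 9 20) h1)⟩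
noncomputable def kcg_250_fs : Sl2 kcg_250 := ⟨_, fun h1 h2 => (pr_csub (enc_rat _ 7 20) h1)⟩
noncomputable def kcg_259_fs : Sl2 kcg_259 := ⟨_, fun h1 h2 => (pr_csub (enc_rat _ 3 10) h1)⟩
noncomputable def kcg_279_fs : Sl2 kcg_279 := ⟨_, fun h1 h2 => (pr_csub (enc_rat _ 3 20) h1)⟩
noncomputable def kcg_280_fs : Sl2 kcg_280 := ⟨_, fun h1 h2 => (pr_csub (enc_rat _ 1 5) h1)⟩
noncomputable def kcg_301_fs : Sl2 kcg_301 := ⟨_, fun h1 h2 => (pr_csub (enc_rat _ 1 10) h1)⟩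
noncomputable def kcg_fs : Sl2 kcg := ⟨_, fun h1 h2 => (pr_norm (pr_case h1 (pr_case (kcg_6_fs.snd h1 h2) (pr_case (kcg_9_fs.snd h1 h2) (pr_case (kcg_12_fs.snd h1 h2) (pr_add (pr_add (pr_addc (kcg_13_fs.snd h1 h2) (enc_rat _ 26949001 50000000)) (pr_cmul (enc_norm (kcg_3.enc h1.l h2)) (pr_norm (pr_addc (kcg_16_fs.snd h1 h2) (enc_rat _ 13687801 10000000))))) (pr_cmul (enc_norm (kcg_26.enc h1.l h2)) (pr_norm (pr_mul (pr_norm (pr_addc h1 (enc_rat _ 1 2))) (pr_norm (pr_csub (enc_neg (enc_rat _ 9 20)) h1)))))) (pr_add (pr_add (pr_subr 6715081 10000000 (pr_neg (kcg_34_fs.snd h1 h2))) (pr_cmul (enc_norm (kcg_3.enc h1.l h2)) (pr_norm (pr_addc (kcg_39_fs.snd h1 h2) (enc_rat _ 4499041 2500000))))) (pr_cmul (enc_norm (kcg_47.enc h1.l h2)) (pr_norm (pr_mul (pr_norm (kcg_12_fs.snd h1 h2)) (pr_norm (pr_csub (enc_neg (enc_rat _ 2 5)) h1))))))) (pr_case (kcg_55_fs.snd h1 h2) (pr_add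 (pr_add (pr_subr 53048129 50000000 (pr_neg (kcg_56_fs.snd h1 h2))) (pr_cmul (enc_norm (kcg_3.enc h1.l h2)) (pr_norm (pr_subr 563559 500000 (pr_neg (kcg_61_fs.snd h1 h2)))))) (pr_cmul (enc_norm (kcg_71.enc h1.l h2)) (pr_norm (pr_mul (pr_norm (kcg_9_fs.snd h1 h2)) (pr_norm (pr_csub (enc_neg (enc_rat _ 7 20)) h1)))))) (pr_case (kcg_78_fs.snd h1 h2) (pr_add (pr_add (pr_subr 10546861 10000000 (pr_neg (kcg_79_fs.snd h1 h2))) (pr_cmul (enc_norm (kcg_3.enc h1.l h2)) (pr_norm (pr_subr 895513 500000 (pr_neg (kcg_84_fs.snd h1 h2)))))) (pr_cmul (enc_norm (kcg_97.enc h1.l h2)) (pr_norm (pr_mul (pr_norm (kcg_55_fs.snd h1 h2)) (pr_norm (pr_csub (enc_neg (enc_rat _ 3 10)) h1)))))) (pr_add (pr_add (pr_subr 8945471 12500000 (pr_neg (kcg_102_fs.snd h1 h2))) (pr_cmul (enc_norm (kcg_3.enc h1.l h2)) (pr_norm (pr_subr 1529 1600 (pr_neg (kcg_107_fs.snd h1 h2)))))) (pr_cmul (enc_norm (kcg_120.enc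 h1.l h2)) (pr_norm (pr_mul (pr_norm (kcg_78_fs.snd h1 h2)) (pr_norm (pr_csub (enc_neg (enc_rat _ 1 4)) h1))))))))) (pr_case (kcg_130_fs.snd h1 h2) (pr_case (kcg_133_fs.snd h1 h2) (pr_add (pr_add (pr_subr 19451869 50000000 (kcg_134_fs.snd h1 h2)) (pr_cmul (enc_norm (kcg_3.enc h1.l h2)) (pr_norm (pr_subr 500003 1000000 (pr_neg (kcg_138_fs.snd h1 h2)))))) (pr_cmul (enc_norm (kcg_151.enc h1.l h2)) (pr_norm (pr_mul (pr_norm (kcg_6_fs.snd h1 h2)) (pr_norm (pr_csub (enc_neg (enc_rat _ 1 5)) h1)))))) (pr_add (pr_add (pr_subr 976289 10000000 (kcg_156_fs.snd h1 h2)) (pr_cmul (enc_norm (kcg_3.enc h1.l h2)) (pr_norm (pr_subr 906033 5000000 (kcg_160_fs.snd h1 h2))))) (pr_cmul (enc_norm (kcg_172.enc h1.l h2)) (pr_norm (pr_mul (pr_norm (kcg_133_fs.snd h1 h2)) (pr_norm (pr_csub (enc_neg (enc_rat _ 3 20)) h1))))))) (pr_case (kcg_180_fs.snd h1 h2) (pr_add (pr_add (pr_addc (kcg_181_fs.snd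 h1 h2) (enc_rat _ 3307447 100000000)) (pr_cmul (enc_norm (kcg_3.enc h1.l h2)) (pr_norm (pr_addc (kcg_184_fs.snd h1 h2) (enc_rat _ 1648491 5000000))))) (pr_cmul (enc_norm (kcg_195.enc h1.l h2)) (pr_norm (pr_mul (pr_norm (kcg_130_fs.snd h1 h2)) (pr_norm (pr_csub (enc_neg (enc_rat _ 1 10)) h1)))))) (pr_case (pr_addc h1 (enc_rat _ 1 20)) (pr_add (pr_add (pr_addc (kcg_203_fs.snd h1 h2) (enc_rat _ 1191031 100000000)) (pr_cmul (enc_norm (kcg_3.enc h1.l h2)) (pr_norm (pr_addc (kcg_206_fs.snd h1 h2) (enc_rat _ 212877 1250000))))) (pr_cmul (enc_norm (kcg_214.enc h1.l h2)) (pr_norm (pr_mul (pr_norm (kcg_180_fs.snd h1 h2)) (pr_norm (pr_csub (enc_neg (enc_rat _ 1 20)) h1)))))) (kcg_219_fs.snd h1 h2))))) (pr_neg (pr_case (kcg_226_fs.snd h1 h2) (pr_case (kcg_227_fs.snd h1 h2) (pr_case (kcg_228_fs.snd h1 h2) (pr_add (pr_add (pr_csub (enc_rat _ 26949001 50000000) (kcg_13_fs.snd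 h1 h2)) (pr_cmul (enc_norm (kcg_3.enc h1.l h2)) (pr_norm (pr_csub (enc_rat _ 13687801 10000000) (kcg_16_fs.snd h1 h2))))) (pr_cmul (enc_norm (kcg_26.enc h1.l h2)) (pr_norm (pr_mul (pr_norm (pr_csub (enc_rat _ 1 2) h1)) (pr_norm (pr_subr 9 20 h1)))))) (pr_add (pr_add (pr_subr 6715081 10000000 (kcg_34_fs.snd h1 h2)) (pr_cmul (enc_norm (kcg_3.enc h1.l h2)) (pr_norm (pr_csub (enc_rat _ 4499041 2500000) (kcg_39_fs.snd h1 h2))))) (pr_cmul (enc_norm (kcg_47.enc h1.l h2)) (pr_norm (pr_mul (pr_norm (kcg_228_fs.snd h1 h2)) (pr_norm (pr_subr 2 5 h1))))))) (pr_case (kcg_250_fs.snd h1 h2) (pr_add (pr_add (pr_subr 53048129 50000000 (kcg_56_fs.snd h1 h2)) (pr_cmul (enc_norm (kcg_3.enc h1.l h2)) (pr_norm (pr_subr 563559 500000 (kcg_61_fs.snd h1 h2))))) (pr_cmul (enc_norm (kcg_71.enc h1.l h2)) (pr_norm (pr_mul (pr_norm (kcg_227_fs.snd h1 h2)) (pr_norm (pr_subr 7 20 h1)))))) (pr_case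 (kcg_259_fs.snd h1 h2) (pr_add (pr_add (pr_subr 10546861 10000000 (kcg_79_fs.snd h1 h2)) (pr_cmul (enc_norm (kcg_3.enc h1.l h2)) (pr_norm (pr_subr 895513 500000 (kcg_84_fs.snd h1 h2))))) (pr_cmul (enc_norm (kcg_97.enc h1.l h2)) (pr_norm (pr_mul (pr_norm (kcg_250_fs.snd h1 h2)) (pr_norm (pr_subr 3 10 h1)))))) (pr_add (pr_add (pr_subr 8945471 12500000 (kcg_102_fs.snd h1 h2)) (pr_cmul (enc_norm (kcg_3.enc h1.l h2)) (pr_norm (pr_subr 1529 1600 (kcg_107_fs.snd h1 h2))))) (pr_cmul (enc_norm (kcg_120.enc h1.l h2)) (pr_norm (pr_mul (pr_norm (kcg_259_fs.snd h1 h2)) (pr_norm (pr_subr 1 4 h1))))))))) (pr_case (kcg_279_fs.snd h1 h2) (pr_case (kcg_280_fs.snd h1 h2) (pr_add (pr_add (pr_subr 19451869 50000000 (pr_neg (kcg_134_fs.snd h1 h2))) (pr_cmul (enc_norm (kcg_3.enc h1.l h2)) (pr_norm (pr_subr 500003 1000000 (kcg_138_fs.snd h1 h2))))) (pr_cmul (enc_norm (kcg_151.enc h1.l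 h2)) (pr_norm (pr_mul (pr_norm (kcg_226_fs.snd h1 h2)) (pr_norm (pr_subr 1 5 h1)))))) (pr_add (pr_add (pr_subr 976289 10000000 (pr_neg (kcg_156_fs.snd h1 h2))) (pr_cmul (enc_norm (kcg_3.enc h1.l h2)) (pr_norm (pr_subr 906033 5000000 (pr_neg (kcg_160_fs.snd h1 h2)))))) (pr_cmul (enc_norm (kcg_172.enc h1.l h2)) (pr_norm (pr_mul (pr_norm (kcg_280_fs.snd h1 h2)) (pr_norm (pr_subr 3 20 h1))))))) (pr_case (kcg_301_fs.snd h1 h2) (pr_add (pr_add (pr_csub (enc_rat _ 3307447 100000000) (kcg_181_fs.snd h1 h2)) (pr_cmul (enc_norm (kcg_3.enc h1.l h2)) (pr_norm (pr_csub (enc_rat _ 1648491 5000000) (kcg_184_fs.snd h1 h2))))) (pr_cmul (enc_norm (kcg_195.enc h1.l h2)) (pr_norm (pr_mul (pr_norm (kcg_279_fs.snd h1 h2)) (pr_norm (pr_subr 1 10 h1)))))) (pr_case (pr_csub (enc_rat _ 1 20) h1) (pr_add (pr_add (pr_csub (enc_rat _ 1191031 100000000) (kcg_203_fs.snd h1 h2)) (pr_cmul (enc_norm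 (kcg_3.enc h1.l h2)) (pr_norm (pr_csub (enc_rat _ 212877 1250000) (kcg_206_fs.snd h1 h2))))) (pr_cmul (enc_norm (kcg_214.enc h1.l h2)) (pr_norm (pr_mul (pr_norm (kcg_301_fs.snd h1 h2)) (pr_norm (pr_subr 1 20 h1)))))) (pr_neg (kcg_219_fs.snd h1 h2)))))))))⟩
noncomputable def kf0q0_9_fs : Sl2 kf0q0_9 := ⟨_, fun h1 h2 => (pr_scale 3 2 h1)⟩
noncomputable def kf0q0_12_fs : Sl2 kf0q0_12 := ⟨_, fun h1 h2 => (pr_cadd (enc_pnc _ 1) (c1g_fs.snd h1))⟩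
noncomputable def kf0q0_fs : Sl2 kf0q0 := ⟨_, fun h1 h2 => (pr_norm (pr_add (pr_mul (pr_norm (pr_mul (pr_norm (pr_sub (c1g_fs.snd h1) (kf0q0_9_fs.snd h1 h2))) (pr_norm (kf0q0_12_fs.snd h1 h2)))) (pr_nd (pr_inv (pr_sub (kf0q0_12_fs.snd h1 h2) (kf0q0_9_fs.snd h1 h2))))) (pr_mul h1 (kcg_fs.snd (pr_norm (pr_sub (pr_scale 3 4 h1) (pr_half (c1g_fs.snd h1)))) h2))))⟩
noncomputable def txg_6_fs : Sl3 txg_6 := ⟨_, fun h1 h2 h3 => (pr_add h1 (pr_half h2))⟩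
noncomputable def txg_27_fs : Sl3 txg_27 := ⟨_, fun h1 h2 h3 => (pr_addc h1 (enc_rat _ 13 50))⟩
noncomputable def txg_30_fs : Sl3 txg_30 := ⟨_, fun h1 h2 h3 => (pr_addc h1 (enc_rat _ 19 50))⟩
noncomputable def txg_33_fs : Sl3 txg_33 := ⟨_, fun h1 h2 h3 => (pr_addc h1 (enc_rat _ 11 25))⟩
noncomputable def txg_77_fs : Sl3 txg_77 := ⟨_, fun h1 h2 h3 => (pr_addc h1 (enc_rat _ 8 25))⟩
noncomputable def txg_121_fs : Sl3 txg_121 := ⟨_, fun h1 h2 h3 => (pr_addc h1 (enc_rat _ 3 20))⟩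
noncomputable def txg_124_fs : Sl3 txg_124 := ⟨_, fun h1 h2 h3 => (pr_addc h1 (enc_rat _ 1 5))⟩
noncomputable def txg_164_fs : Sl3 txg_164 := ⟨_, fun h1 h2 h3 => (pr_addc h1 (enc_rat _ 1 10))⟩
noncomputable def txg_186_fs : Sl3 txg_186 := ⟨_, fun h1 h2 h3 => (pr_addc h1 (enc_rat _ 7 100))⟩
noncomputable def txg_245_fs : Sl3 txg_245 := ⟨_, fun h1 h2 h3 => (pr_subr 37 763 h1)⟩
noncomputable def txg_247_fs : Sl3 txg_247 := ⟨_, fun h1 h2 h3 => (pr_subr 1 4 h1)⟩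
noncomputable def txg_248_fs : Sl3 txg_248 := ⟨_, fun h1 h2 h3 => (pr_subr 1 10 h1)⟩
noncomputable def txg_249_fs : Sl3 txg_249 := ⟨_, fun h1 h2 h3 => (pr_subr 7 100 h1)⟩
noncomputable def txg_290_fs : Sl3 txg_290 := ⟨_, fun h1 h2 h3 => (pr_subr 3 20 h1)⟩
noncomputable def txg_309_fs : Sl3 txg_309 := ⟨_, fun h1 h2 h3 => (pr_subr 1 5 h1)⟩
noncomputable def txg_352_fs : Sl3 txg_352 := ⟨_, fun h1 h2 h3 => (pr_subr 7 20 h1)⟩
noncomputable def txg_354_fs : Sl3 txg_354 := ⟨_, fun h1 h2 h3 => (pr_subr 3 10 h1)⟩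
noncomputable def txg_396_fs : Sl3 txg_396 := ⟨_, fun h1 h2 h3 => (pr_subr 2 5 h1)⟩
noncomputable def txg_418_fs : Sl3 txg_418 := ⟨_, fun h1 h2 h3 => (pr_subr 11 25 h1)⟩
noncomputable def txg_fs : Sl3 txg := ⟨_, fun h1 h2 h3 => (pr_case (pr_addc h1 (enc_rat _ 47 914)) (pr_case (txg_27_fs.snd h1 h2 h3) (pr_case (txg_30_fs.snd h1 h2 h3) (pr_case (txg_33_fs.snd h1 h2 h3) (pr_add (pr_add (pr_addc (pr_scale 223351 3000000 h1) (enc_rat _ 223351 6000000)) (pr_cmul (enc_norm (txg_4.enc h1.l h2.l h3)) (pr_norm (pr_subr 225253 1200000 (pr_neg (pr_scale 225253 600000 h1)))))) (pr_cmul (enc_norm (enc_subr 899449 1000000 (enc_scale 614333 100000 (txg_4.enc h1.l h2.l h3)))) (pr_norm (pr_mul (pr_norm (pr_addc h1 (enc_rat _ 1 2))) (pr_norm (pr_csub (enc_neg (enc_rat _ 11 25)) h1)))))) (pr_add (pr_add (pr_addc (pr_scale 239357 6000000 h1) (enc_rat _ 165149 7500000)) (pr_cmul (enc_norm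 (txg_4.enc h1.l h2.l h3)) (pr_norm (pr_subr 3687217 10000000 (pr_neg (pr_scale 78681 100000 h1)))))) (pr_cmul (enc_norm (enc_add (enc_scale 71313 100000 (txg_4.enc h1.l h2.l h3)) (enc_rat _ 1475409 1000000))) (pr_norm (pr_mul (pr_norm (txg_33_fs.snd h1 h2 h3)) (pr_norm (pr_csub (enc_neg (enc_rat _ 19 50)) h1))))))) (pr_case (txg_77_fs.snd h1 h2 h3) (pr_add (pr_add (pr_subr 588759 50000000 (pr_neg (pr_scale 98083 2000000 h1))) (pr_cmul (enc_norm (txg_4.enc h1.l h2.l h3)) (pr_norm (pr_subr 4239739 30000000 (pr_neg (pr_scale 56519 300000 h1)))))) (pr_cmul (enc_norm (enc_sub (enc_rat _ 6831 1000000) (enc_scale 267167 25000 (txg_4.enc h1.l h2.l h3)))) (pr_norm (pr_mul (pr_norm (txg_30_fs.snd h1 h2 h3)) (pr_norm (pr_csub (enc_neg (enc_rat _ 8 25)) h1)))))) (pr_add (pr_add (pr_addc (pr_scale 18421 500000 h1) (enc_rat _ 785377 50000000)) (pr_cmul (enc_norm (txg_4.enc h1.l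 h2.l h3)) (pr_norm (pr_addc (pr_scale 78833 300000 h1) (enc_rat _ 3661 1200000))))) (pr_cmul (enc_norm (enc_subr 719111 500000 (enc_scale 31671 10000 (txg_4.enc h1.l h2.l h3)))) (pr_norm (pr_mul (pr_norm (txg_77_fs.snd h1 h2 h3)) (pr_norm (pr_csub (enc_neg (enc_rat _ 13 50)) h1)))))))) (pr_case (txg_121_fs.snd h1 h2 h3) (pr_case (txg_124_fs.snd h1 h2 h3) (pr_add (pr_add (pr_addc (pr_scale 1523179 6000000 h1) (enc_rat _ 21639913 300000000)) (pr_cmul (enc_norm (txg_4.enc h1.l h2.l h3)) (pr_norm (pr_addc (pr_scale 186059 200000 h1) (enc_rat _ 220757 1250000))))) (pr_cmul (enc_norm (enc_subr 5447 2500 (enc_neg (enc_scale 714619 50000 (txg_4.enc h1.l h2.l h3))))) (pr_norm (pr_mul (pr_norm (txg_27_fs.snd h1 h2 h3)) (pr_norm (pr_csub (enc_neg (enc_rat _ 1 5)) h1)))))) (pr_add (pr_add (pr_addc (pr_scale 499133 1250000 h1) (enc_rat _ 10122169 100000000)) (pr_cmul (enc_norm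 (txg_4.enc h1.l h2.l h3)) (pr_norm (pr_addc (pr_scale 591783 500000 h1) (enc_rat _ 1136299 5000000))))) (pr_cmul (enc_norm (enc_subr 294299 1000000 (enc_scale 241709 20000 (txg_4.enc h1.l h2.l h3)))) (pr_norm (pr_mul (pr_norm (txg_124_fs.snd h1 h2 h3)) (pr_norm (pr_csub (enc_neg (enc_rat _ 3 20)) h1))))))) (pr_case (txg_164_fs.snd h1 h2 h3) (pr_add (pr_add (pr_addc (pr_scale 1103857 2500000 h1) (enc_rat _ 2151143 20000000)) (pr_cmul (enc_norm (txg_4.enc h1.l h2.l h3)) (pr_norm (pr_subr 447023 5000000 (pr_neg (pr_scale 92753 100000 h1)))))) (pr_cmul (enc_norm (enc_subr 17201 31250 (enc_scale 753411 25000 (txg_4.enc h1.l h2.l h3)))) (pr_norm (pr_mul (pr_norm (txg_121_fs.snd h1 h2 h3)) (pr_norm (pr_csub (enc_neg (enc_rat _ 1 10)) h1)))))) (pr_case (txg_186_fs.snd h1 h2 h3) (pr_add (pr_add (pr_addc (pr_scale 451243 1000000 h1) (enc_rat _ 10852717 100000000)) (pr_cmul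 (enc_norm (txg_4.enc h1.l h2.l h3)) (pr_norm (pr_subr 932257 7500000 (pr_neg (pr_scale 95737 75000 h1)))))) (pr_cmul (enc_norm (enc_add (enc_mul (enc_norm (enc_subr 1929761 50000 (enc_scale 509 1250 (txg_4.enc h1.l h2.l h3)))) (enc_norm (txg_4.enc h1.l h2.l h3))) (enc_rat _ 594043 1000000))) (pr_norm (pr_mul (pr_norm (txg_164_fs.snd h1 h2 h3)) (pr_norm (pr_csub (enc_neg (enc_rat _ 7 100)) h1)))))) (pr_add (pr_add (pr_add (pr_addc (pr_scale 3961007791105892 10551035163671875 h1) (enc_rat _ 108906887903595269 1055103516367187500)) (pr_cmul (enc_norm (txg_4.enc h1.l h2.l h3)) (pr_norm (pr_subr 31159851452211603 1688165626187500000 (pr_scale 3976494255255321 16881656261875000 h1))))) (pr_cmul (enc_sq (enc_norm (txg_4.enc h1.l h2.l h3))) (pr_norm (pr_subr 587611479 3694016687500 (pr_neg (pr_scale 83944497 36940166875 h1)))))) (pr_cmul (enc_norm (enc_add (enc_mul (enc_norm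 (enc_subr 953271 50000 (enc_neg (enc_scale 22549 10000 (txg_4.enc h1.l h2.l h3))))) (enc_norm (txg_4.enc h1.l h2.l h3))) (enc_rat _ 780611 250000))) (pr_norm (pr_mul (pr_norm (txg_186_fs.snd h1 h2 h3)) (pr_norm (pr_csub (enc_neg (enc_rat _ 47 914)) h1)))))))))) (pr_case (txg_245_fs.snd h1 h2 h3) (pr_sub (pr_mul (pr_norm (pr_csub (enc_pnc _ 1) h2)) (pr_norm (pr_subn 1 (pr_nat 2 h2)))) (pr_mul (pr_norm (pr_nat 2 (pr_subc (pr_scale 4 3 (txg_6_fs.snd h1 h2 h3)) h3))) (pr_norm (pr_mul (pr_norm (pr_subn 1 (pr_add (pr_scale 2 3 (txg_6_fs.snd h1 h2 h3)) h2))) (kcg_fs.snd h1 h3))))) (pr_case (txg_247_fs.snd h1 h2 h3) (pr_case (txg_248_fs.snd h1 h2 h3) (pr_case (txg_249_fs.snd h1 h2 h3) (pr_add (pr_add (pr_addc (pr_scale 258569996896391 3411926175000000 h1) (enc_rat _ 1260359899679671 12185450625000000)) (pr_cmul (enc_norm (txg_4.enc h1.l h2.l h3)) (pr_norm (pr_subr 1975767033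 149057500000 (pr_scale 517763289 596230000 h1))))) (pr_cmul (enc_norm (enc_sub (enc_rat _ 597167 200000) (enc_scale 65999 5000 (txg_4.enc h1.l h2.l h3)))) (pr_norm (pr_mul (pr_norm (txg_245_fs.snd h1 h2 h3)) (pr_norm (pr_csub (enc_rat _ 7 100) h1)))))) (pr_add (pr_add (pr_csub (enc_rat _ 33141449 300000000) (pr_scale 1859 75000 h1)) (pr_cmul (enc_norm (txg_4.enc h1.l h2.l h3)) (pr_norm (pr_subr 1028967 10000000 (pr_scale 214899 100000 h1))))) (pr_cmul (enc_norm (enc_sub (enc_rat _ 121179 100000) (enc_scale 3322347 100000 (txg_4.enc h1.l h2.l h3)))) (pr_norm (pr_mul (pr_norm (txg_249_fs.snd h1 h2 h3)) (pr_norm (pr_csub (enc_rat _ 1 10) h1))))))) (pr_case (txg_290_fs.snd h1 h2 h3) (pr_add (pr_add (pr_csub (enc_rat _ 11890317 100000000) (pr_scale 545517 5000000 h1)) (pr_cmul (enc_norm (txg_4.enc h1.l h2.l h3)) (pr_norm (pr_subr 631899 10000000 (pr_scale 875961 500000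 h1))))) (pr_cmul (enc_norm (enc_add (enc_scale 1393773 50000 (txg_4.enc h1.l h2.l h3)) (enc_rat _ 959259 1000000))) (pr_norm (pr_mul (pr_norm (txg_248_fs.snd h1 h2 h3)) (pr_norm (pr_csub (enc_rat _ 3 20) h1)))))) (pr_case (txg_309_fs.snd h1 h2 h3) (pr_add (pr_add (pr_csub (enc_rat _ 861519 6250000) (pr_scale 588423 2500000 h1)) (pr_cmul (enc_norm (txg_4.enc h1.l h2.l h3)) (pr_norm (pr_csub (enc_rat _ 1289463 5000000) (pr_scale 97157 250000 h1))))) (pr_cmul (enc_norm (enc_add (enc_scale 746777 50000 (txg_4.enc h1.l h2.l h3)) (enc_rat _ 1566059 1000000))) (pr_norm (pr_mul (pr_norm (txg_290_fs.snd h1 h2 h3)) (pr_norm (pr_csub (enc_rat _ 1 5) h1)))))) (pr_add (pr_add (pr_csub (enc_rat _ 979609 6250000) (pr_scale 824603 2500000 h1)) (pr_cmul (enc_norm (txg_4.enc h1.l h2.l h3)) (pr_norm (pr_csub (enc_rat _ 1825399 5000000) (pr_scale 231141 250000 h1))))) (pr_cmul (enc_norm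 (enc_sub (enc_rat _ 323381 1000000) (enc_scale 421683 100000 (txg_4.enc h1.l h2.l h3)))) (pr_norm (pr_mul (pr_norm (txg_309_fs.snd h1 h2 h3)) (pr_norm (pr_csub (enc_rat _ 1 4) h1))))))))) (pr_case (txg_352_fs.snd h1 h2 h3) (pr_case (txg_354_fs.snd h1 h2 h3) (pr_add (pr_add (pr_csub (enc_rat _ 2064513 12500000) (pr_scale 908839 2500000 h1)) (pr_cmul (enc_norm (txg_4.enc h1.l h2.l h3)) (pr_norm (pr_csub (enc_rat _ 204373 625000) (pr_scale 96529 125000 h1))))) (pr_cmul (enc_norm (enc_add (enc_scale 117019 100000 (txg_4.enc h1.l h2.l h3)) (enc_rat _ 175253 500000))) (pr_norm (pr_mul (pr_norm (txg_247_fs.snd h1 h2 h3)) (pr_norm (pr_csub (enc_rat _ 3 10) h1)))))) (pr_add (pr_add (pr_csub (enc_rat _ 1598763 10000000) (pr_scale 1729599 5000000 h1)) (pr_cmul (enc_norm (txg_4.enc h1.l h2.l h3)) (pr_norm (pr_csub (enc_rat _ 365831 1250000) (pr_scale 10278 15625 h1))))) (pr_cmul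 (enc_norm (enc_subr 35141 50000 (enc_neg (enc_scale 345899 100000 (txg_4.enc h1.l h2.l h3))))) (pr_norm (pr_mul (pr_norm (txg_354_fs.snd h1 h2 h3)) (pr_norm (pr_csub (enc_rat _ 7 20) h1))))))) (pr_case (txg_396_fs.snd h1 h2 h3) (pr_add (pr_add (pr_csub (enc_rat _ 14160833 100000000) (pr_scale 367157 1250000 h1)) (pr_cmul (enc_norm (txg_4.enc h1.l h2.l h3)) (pr_norm (pr_csub (enc_rat _ 1983979 10000000) (pr_scale 194229 500000 h1))))) (pr_cmul (enc_norm (enc_subr 85267 250000 (enc_neg (enc_scale 6024 3125 (txg_4.enc h1.l h2.l h3))))) (pr_norm (pr_mul (pr_norm (txg_352_fs.snd h1 h2 h3)) (pr_norm (pr_csub (enc_rat _ 2 5) h1)))))) (pr_case (txg_418_fs.snd h1 h2 h3) (pr_add (pr_add (pr_csub (enc_rat _ 13673119 100000000) (pr_scale 1126131 4000000 h1)) (pr_cmul (enc_norm (txg_4.enc h1.l h2.l h3)) (pr_norm (pr_csub (enc_rat _ 1330687 10000000) (pr_scale 45027 200000 h1)))))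 (pr_cmul (enc_norm (enc_sub (enc_rat _ 60757 500000) (enc_scale 167349 100000 (txg_4.enc h1.l h2.l h3)))) (pr_norm (pr_mul (pr_norm (txg_396_fs.snd h1 h2 h3)) (pr_norm (pr_csub (enc_rat _ 11 25) h1)))))) (pr_add (pr_add (pr_csub (enc_rat _ 642839 6000000) (pr_scale 642839 3000000 h1)) (pr_cmul (enc_norm (txg_4.enc h1.l h2.l h3)) (pr_norm (pr_csub (enc_rat _ 340093 1200000) (pr_scale 340093 600000 h1))))) (pr_cmul (enc_norm (enc_subr 300473 250000 (enc_scale 340521 50000 (txg_4.enc h1.l h2.l h3)))) (pr_norm (pr_mul (pr_norm (txg_418_fs.snd h1 h2 h3)) (pr_norm (pr_csub (enc_rat _ 1 2) h1))))))))))))⟩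
noncomputable def l0q0_fs : Sl2 l0q0 := ⟨_, fun h1 h2 => (pr_norm (txg_fs.snd (pr_norm (pr_sub (pr_scale 3 4 h1) (pr_half (c1g_fs.snd h1)))) (pr_nd (c1g_fs.snd h1)) h2))⟩
noncomputable def swg_fs : Sl1 swg := ⟨_, fun h1 => (pr_sqrt (pr_csub (enc_pnc _ 1) (pr_scale 3 4 (pr_sq (pr_norm (pr_subn 1 h1))))))⟩
noncomputable def cv1m_fs : Sl1 cv1m := ⟨_, fun h1 => (pr_norm (pr_add (pr_scale 23 25 (c1g_fs.snd h1)) (pr_scale 2 25 (pr_addc (swg_fs.snd h1) (enc_rat _ 1 2)))))⟩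
noncomputable def bf1q0_fs : Sl2 bf1q0 := ⟨_, fun h1 h2 => (pr_norm (pr_case (pr_subr 3 10 h1) (pr_case (pr_subr 1 10 h1) (pr_add (pr_csub (enc_pnc _ 1) (pr_scale 2839 3125 h1)) (pr_cmul (enc_norm (bf1q0_3.enc h1.l h2)) (pr_nd (pr_scale 209 2500 h1)))) (pr_case (pr_subr 1 5 h1) (pr_add (pr_csub (enc_rat _ 106669 100000) (pr_scale 78769 50000 h1)) (pr_cmul (enc_norm (bf1q0_3.enc h1.l h2)) (pr_norm (pr_csub (enc_rat _ 511 50000) (pr_scale 93 5000 h1))))) (pr_add (pr_csub (enc_rat _ 144597 125000) (pr_scale 202581 100000 h1)) (pr_cmul (enc_norm (bf1q0_3.enc h1.l h2)) (pr_norm (pr_csub (enc_rat _ 1729 10000) (pr_scale 104 125 h1))))))) (pr_case (pr_subr 79 200 h1) (pr_add (pr_csub (enc_rat _ 21937587 19000000) (pr_scale 95883 47500 h1)) (pr_cmul (enc_norm (bf1q0_3.enc h1.l h2)) (pr_norm (pr_csub (enc_rat _ 1009 7600) (pr_scale 6633 9500 h1))))) (pr_case (pr_subr 453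 1000 h1) (pr_add (pr_csub (enc_rat _ 31321813 29000000) (pr_scale 26533 14500 h1)) (pr_cmul (enc_norm (bf1q0_3.enc h1.l h2)) (pr_norm (pr_subr 515549 5800000 (pr_neg (pr_scale 159 1160 h1)))))) (pr_add (pr_csub (enc_rat _ 25169801 23500000) (pr_scale 85069 47000 h1)) (pr_cmul (enc_norm (bf1q0_3.enc h1.l h2)) (pr_norm (pr_subr 93269 940000 (pr_neg (pr_scale 537 4700 h1))))))))))⟩
noncomputable def kf1q0_fs : Sl2 kf1q0 := ⟨_, fun h1 h2 => (pr_norm (pr_mul (cv1m_fs.snd h1) (bf1q0_fs.snd h1 h2)))⟩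
noncomputable def bx1q0_fs : Sl2 bx1q0 := ⟨_, fun h1 h2 => (pr_norm (pr_case (pr_subr 3 10 h1) (pr_case (pr_subr 1 10 h1) (pr_sub (pr_scale 339 5000 h1) (pr_cmul (enc_norm (bx1q0_3.enc h1.l h2)) (pr_nd (pr_scale 489 2500 h1)))) (pr_case (pr_subr 1 5 h1) (pr_add (pr_addc (pr_scale 2651 50000 h1) (enc_rat _ 739 500000)) (pr_cmul (enc_norm (bx1q0_3.enc h1.l h2)) (pr_norm (pr_csub (enc_rat _ 3757 100000) (pr_scale 5713 10000 h1))))) (pr_add (pr_addc (pr_scale 4343 100000 h1) (enc_rat _ 849 250000)) (pr_cmul (enc_norm (bx1q0_3.enc h1.l h2)) (pr_norm (pr_subr 12719 100000 (pr_scale 101 400 h1))))))) (pr_case (pr_subr 79 200 h1) (pr_add (pr_subr 214929 3800000 (pr_scale 2889 11875 h1)) (pr_cmul (enc_norm (bx1q0_3.enc h1.l h2)) (pr_norm (pr_subr 108419 475000 (pr_scale 5599 9500 h1))))) (pr_case (pr_subr 453 1000 h1) (pr_add (pr_subr 5422389 58000000 (pr_scale 19533 58000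 h1)) (pr_cmul (enc_norm (bx1q0_3.enc h1.l h2)) (pr_norm (pr_subr 703 145000 (pr_scale 69 2900 h1))))) (pr_add (pr_subr 307851 2937500 (pr_scale 8501 23500 h1)) (pr_cmul (enc_norm (bx1q0_3.enc h1.l h2)) (pr_norm (pr_csub (enc_rat _ 3452551 4700000) (pr_scale 378 235 h1)))))))))⟩
noncomputable def l1q0_fs : Sl2 l1q0 := ⟨_, fun h1 h2 => (pr_norm (pr_mul (cv1m_fs.snd h1) (bx1q0_fs.snd h1 h2)))⟩
noncomputable def cv2m_fs : Sl1 cv2m := ⟨_, fun h1 => (pr_norm (pr_add (pr_scale 3 4 (c1g_fs.snd h1)) (pr_scale 1 4 (pr_addc (swg_fs.snd h1) (enc_rat _ 1 2)))))⟩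
noncomputable def bf2q0_fs : Sl2 bf2q0 := ⟨_, fun h1 h2 => (pr_norm (pr_case (pr_subr 13 50 h1) (pr_case (pr_subr 13 100 h1) (pr_add (pr_csub (enc_pnc _ 1) (pr_scale 9877 8125 h1)) (pr_cmul (enc_norm (bf2q0_3.enc h1.l h2)) (pr_nd (pr_scale 5331 6500 h1)))) (pr_add (pr_csub (enc_rat _ 274231 250000) (pr_scale 4903 2500 h1)) (pr_cmul (enc_norm (bf2q0_3.enc h1.l h2)) (pr_norm (pr_csub (enc_rat _ 5633 50000) (pr_scale 151 3250 h1)))))) (pr_case (pr_subr 79 200 h1) (pr_add (pr_csub (enc_rat _ 3750953 3375000) (pr_scale 10891 5400 h1)) (pr_cmul (enc_norm (bf2q0_3.enc h1.l h2)) (pr_norm (pr_csub (enc_rat _ 184933 450000) (pr_scale 1343 1125 h1))))) (pr_case (pr_subr 453 1000 h1) (pr_add (pr_csub (enc_rat _ 31988393 29000000) (pr_scale 14469 7250 h1)) (pr_cmul (enc_norm (bf2q0_3.enc h1.l h2)) (pr_norm (pr_csub (enc_rat _ 1305963 2900000) (pr_scale 3751 2900 h1))))) (pr_add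 (pr_csub (enc_rat _ 25874509 23500000) (pr_scale 93591 47000 h1)) (pr_cmul (enc_norm (bf2q0_3.enc h1.l h2)) (pr_norm (pr_csub (enc_rat _ 1088811 2350000) (pr_scale 3107 2350 h1)))))))))⟩
noncomputable def kf2q0_fs : Sl2 kf2q0 := ⟨_, fun h1 h2 => (pr_norm (pr_mul (cv2m_fs.snd h1) (bf2q0_fs.snd h1 h2)))⟩
noncomputable def bx2q0_fs : Sl2 bx2q0 := ⟨_, fun h1 h2 => (pr_norm (pr_case (pr_subr 13 50 h1) (pr_case (pr_subr 13 100 h1) (pr_sub (pr_scale 14921 130000 h1) (pr_cmul (enc_norm (bx2q0_3.enc h1.l h2)) (pr_nd (pr_scale 1349 13000 h1)))) (pr_add (pr_subr 2521 1000000 (pr_scale 8721 65000 h1)) (pr_cmul (enc_norm (bx2q0_3.enc h1.l h2)) (pr_norm (pr_subr 47 4000 (pr_neg (pr_scale 87 6500 h1))))))) (pr_case (pr_subr 79 200 h1) (pr_add (pr_subr 197503 27000000 (pr_scale 10301 67500 h1)) (pr_cmul (enc_norm (bx2q0_3.enc h1.l h2)) (pr_norm (pr_subr 66289 2700000 (pr_scale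 121 3375 h1))))) (pr_case (pr_subr 453 1000 h1) (pr_add (pr_subr 239833 11600000 (pr_scale 10813 58000 h1)) (pr_cmul (enc_norm (bx2q0_3.enc h1.l h2)) (pr_norm (pr_csub (enc_rat _ 1164633 5800000) (pr_scale 3101 5800 h1))))) (pr_add (pr_subr 207461 9400000 (pr_scale 8907 47000 h1)) (pr_cmul (enc_norm (bx2q0_3.enc h1.l h2)) (pr_norm (pr_csub (enc_rat _ 581757 2350000) (pr_scale 1499 2350 h1)))))))))⟩
noncomputable def l2q0_fs : Sl2 l2q0 := ⟨_, fun h1 h2 => (pr_norm (pr_mul (cv2m_fs.snd h1) (bx2q0_fs.snd h1 h2)))⟩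
noncomputable def cv3m_fs : Sl1 cv3m := ⟨_, fun h1 => (pr_norm (pr_add (pr_scale 29 50 (c1g_fs.snd h1)) (pr_scale 21 50 (pr_addc (swg_fs.snd h1) (enc_rat _ 1 2)))))⟩
noncomputable def bf3q0_fs : Sl2 bf3q0 := ⟨_, fun h1 h2 => (pr_norm (pr_case (pr_subr 13 50 h1) (pr_case (pr_subr 13 100 h1) (pr_add (pr_csub (enc_pnc _ 1) (pr_scale 19641 13000 h1)) (pr_cmul (enc_norm (bf3q0_3.enc h1.l h2)) (pr_nd (pr_scale 19371 13000 h1)))) (pr_add (pr_csub (enc_rat _ 1063507 1000000) (pr_scale 259917 130000 h1)) (pr_cmul (enc_norm (bf3q0_3.enc h1.l h2)) (pr_norm (pr_addc (pr_scale 18 125 h1) (enc_rat _ 17499 100000)))))) (pr_case (pr_subr 79 200 h1) (pr_add (pr_csub (enc_rat _ 9632389 9000000) (pr_scale 91141 45000 h1)) (pr_cmul (enc_norm (bf3q0_3.enc h1.l h2)) (pr_norm (pr_csub (enc_rat _ 1788697 2700000) (pr_scale 5842 3375 h1))))) (pr_case (pr_subr 453 1000 h1) (pr_add (pr_csub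 (enc_rat _ 12440073 11600000) (pr_scale 117787 58000 h1)) (pr_cmul (enc_norm (bf3q0_3.enc h1.l h2)) (pr_norm (pr_csub (enc_rat _ 8609 14500) (pr_scale 903 580 h1))))) (pr_add (pr_csub (enc_rat _ 25206609 23500000) (pr_scale 95469 47000 h1)) (pr_cmul (enc_norm (bf3q0_3.enc h1.l h2)) (pr_norm (pr_csub (enc_rat _ 2586919 4700000) (pr_scale 1717 1175 h1)))))))))⟩
noncomputable def kf3q0_fs : Sl2 kf3q0 := ⟨_, fun h1 h2 => (pr_norm (pr_mul (cv3m_fs.snd h1) (bf3q0_fs.snd h1 h2)))⟩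
noncomputable def bx3q0_fs : Sl2 bx3q0 := ⟨_, fun h1 h2 => (pr_norm (pr_case (pr_subr 13 50 h1) (pr_case (pr_subr 13 100 h1) (pr_add (pr_scale 4283 26000 h1) (pr_cmul (enc_norm (bx3q0_3.enc h1.l h2)) (pr_nd (pr_scale 747 13000 h1)))) (pr_add (pr_subr 2793 500000 (pr_scale 2077 10000 h1)) (pr_cmul (enc_norm (bx3q0_3.enc h1.l h2)) (pr_norm (pr_subr 647 25000 (pr_scale 667 2600 h1)))))) (pr_case (pr_subr 79 200 h1) (pr_add (pr_addc (pr_scale 3227 27000 h1) (enc_rat _ 117053 6750000)) (pr_cmul (enc_norm (bx3q0_3.enc h1.l h2)) (pr_norm (pr_csub (enc_rat _ 187447 1350000) (pr_scale 509 1350 h1))))) (pr_case (pr_subr 453 1000 h1) (pr_add (pr_addc (pr_scale 207 3625 h1) (enc_rat _ 1217859 29000000)) (pr_cmul (enc_norm (bx3q0_3.enc h1.l h2)) (pr_norm (pr_csub (enc_rat _ 59793 181250) (pr_scale 624 725 h1))))) (pr_add (pr_addc (pr_scale 2447 47000 h1) (enc_rat _ 208107 4700000))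 (pr_cmul (enc_norm (bx3q0_3.enc h1.l h2)) (pr_norm (pr_csub (enc_rat _ 1650951 4700000) (pr_scale 4267 4700 h1)))))))))⟩
noncomputable def l3q0_fs : Sl2 l3q0 := ⟨_, fun h1 h2 => (pr_norm (pr_mul (cv3m_fs.snd h1) (bx3q0_fs.snd h1 h2)))⟩
noncomputable def cv4m_fs : Sl1 cv4m := ⟨_, fun h1 => (pr_norm (pr_add (pr_scale 1 5 (c1g_fs.snd h1)) (pr_scale 4 5 (pr_addc (swg_fs.snd h1) (enc_rat _ 1 2)))))⟩
noncomputable def bf4q0_fs : Sl2 bf4q0 := ⟨_, fun h1 h2 => (pr_norm (pr_case (pr_subr 13 50 h1) (pr_case (pr_subr 13 100 h1) (pr_add (pr_csub (enc_pnc _ 1) (pr_scale 285709 130000 h1)) (pr_cmul (enc_norm (bf4q0_3.enc h1.l h2)) (pr_nd (pr_scale 34329 13000 h1)))) (pr_add (pr_csub (enc_rat _ 989141 1000000) (pr_scale 5497 2600 h1)) (pr_cmul (enc_norm (bf4q0_3.enc h1.l h2)) (pr_norm (pr_addc (pr_scale 3343 13000 h1) (enc_rat _ 15493 50000)))))) (pr_case (pr_subr 79 200 h1)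 (pr_add (pr_csub (enc_rat _ 5299687 5400000) (pr_scale 140707 67500 h1)) (pr_cmul (enc_norm (bf4q0_3.enc h1.l h2)) (pr_norm (pr_csub (enc_rat _ 399727 337500) (pr_scale 10484 3375 h1))))) (pr_case (pr_subr 453 1000 h1) (pr_add (pr_csub (enc_rat _ 1525613 1812500) (pr_scale 10039 5800 h1)) (pr_cmul (enc_norm (bf4q0_3.enc h1.l h2)) (pr_norm (pr_subr 118313 1450000 (pr_scale 143 1450 h1))))) (pr_add (pr_csub (enc_rat _ 7249993 9400000) (pr_scale 37021 23500 h1)) (pr_cmul (enc_norm (bf4q0_3.enc h1.l h2)) (pr_norm (pr_csub (enc_rat _ 5431 940000) (pr_scale 443 4700 h1)))))))))⟩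
noncomputable def kf4q0_fs : Sl2 kf4q0 := ⟨_, fun h1 h2 => (pr_norm (pr_mul (cv4m_fs.snd h1) (bf4q0_fs.snd h1 h2)))⟩
noncomputable def bx4q0_fs : Sl2 bx4q0 := ⟨_, fun h1 h2 => (pr_norm (pr_case (pr_subr 13 50 h1) (pr_case (pr_subr 13 100 h1) (pr_add (pr_scale 9441 32500 h1) (pr_cmul (enc_norm (bx4q0_3.enc h1.l h2)) (pr_nd (pr_scale 2839 6500 h1)))) (pr_add (pr_subr 483 500000 (pr_scale 3873 13000 h1)) (pr_cmul (enc_norm (bx4q0_3.enc h1.l h2)) (pr_norm (pr_subr 2621 100000 (pr_scale 8299 13000 h1)))))) (pr_case (pr_subr 79 200 h1) (pr_add (pr_addc (pr_scale 2477 67500 h1) (enc_rat _ 180773 2700000)) (pr_cmul (enc_norm (bx4q0_3.enc h1.l h2)) (pr_norm (pr_csub (enc_rat _ 1062791 2700000) (pr_scale 13181 13500 h1))))) (pr_case (pr_subr 453 1000 h1) (pr_add (pr_csub (enc_rat _ 8503739 58000000) (pr_scale 9569 58000 h1)) (pr_cmul (enc_norm (bx4q0_3.enc h1.l h2)) (pr_norm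 (pr_csub (enc_rat _ 3204983 5800000) (pr_scale 7997 5800 h1))))) (pr_add (pr_csub (enc_rat _ 7408201 47000000) (pr_scale 1112 5875 h1)) (pr_cmul (enc_norm (bx4q0_3.enc h1.l h2)) (pr_norm (pr_csub (enc_rat _ 329317 1175000) (pr_scale 731 940 h1)))))))))⟩
noncomputable def l4q0_fs : Sl2 l4q0 := ⟨_, fun h1 h2 => (pr_norm (pr_mul (cv4m_fs.snd h1) (bx4q0_fs.snd h1 h2)))⟩
noncomputable def kf0q1_10_fs : Sl2 kf0q1_10 := ⟨_, fun h1 h2 => (pr_scale 3 2 h1)⟩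
noncomputable def kf0q1_fs : Sl2 kf0q1 := ⟨_, fun h1 h2 => (pr_norm (pr_add (pr_mul (pr_norm (pr_mul (pr_norm (pr_cadd (enc_pnc _ 1) (pr_nat 2 (c1g_fs.snd h1)))) (pr_norm (pr_sub (kf0q1_10_fs.snd h1 h2) (c1g_fs.snd h1))))) (pr_nd (pr_inv (pr_nat 2 (pr_sub (pr_cadd (enc_pnc _ 1) (kf0q1_10_fs.snd h1 h2)) (c1g_fs.snd h1)))))) (pr_mul (pr_norm (pr_subn 1 h1)) (kcg_fs.snd (pr_norm (pr_sub (pr_scale 3 4 h1) (pr_half (c1g_fs.snd h1)))) h2))))⟩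
noncomputable def l0q1_fs : Sl2 l0q1 := ⟨_, fun h1 h2 => (pr_norm (txg_fs.snd (pr_norm (pr_sub (pr_scale 3 4 h1) (pr_half (c1g_fs.snd h1)))) (pr_nd (c1g_fs.snd h1)) h2))⟩
noncomputable def cv4p_fs : Sl1 cv4p := ⟨_, fun h1 => (pr_norm (pr_add (pr_scale 1 5 (c1g_fs.snd h1)) (pr_scale 4 5 (pr_subr 1 2 (swg_fs.snd h1)))))⟩
noncomputable def kf4q2_fs : Sl2 kf4q2 := ⟨_, fun h1 h2 => (pr_norm (pr_mul (cv4p_fs.snd h1) (pr_norm (pr_case (pr_csub (enc_pnc _ 1) (pr_scale 3 4 (pr_sq h1))) (pr_case (pr_subr 127 100 h1) (pr_add (pr_csub (enc_rat _ 56179379 11600000) (pr_scale 421217 116000 h1)) (pr_cmul (enc_norm (kf4q2_4.enc h1.l h2)) (pr_norm (pr_csub (enc_rat _ 62151847 5800000) (pr_scale 3983 464 h1))))) (pr_case (pr_subr 69 50 h1) (pr_add (pr_csub (enc_rat _ 5602661 1000000) (pr_scale 42293 10000 h1)) (pr_cmul (enc_norm (kf4q2_4.enc h1.l h2)) (pr_norm (pr_subr 736141 100000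 (pr_scale 113 20 h1))))) (pr_add (pr_csub (enc_rat _ 2600217 2000000) (pr_scale 133381 120000 h1)) (pr_cmul (enc_norm (kf4q2_4.enc h1.l h2)) (pr_norm (pr_csub (enc_rat _ 1613309 100000) (pr_scale 91 8 h1))))))) (pr_case (pr_subr 1 4 (c1g_fs.snd h1)) (pr_case (pr_subr 1 10 (c1g_fs.snd h1)) (pr_case (pr_subr 1 20 (c1g_fs.snd h1)) (pr_add (pr_addc (pr_scale 10279 12500 (c1g_fs.snd h1)) (enc_rat _ 649681 1000000)) (pr_cmul (enc_norm (kf4q2_4.enc h1.l h2)) (pr_norm (pr_csub (enc_rat _ 81487 100000) (pr_scale 11757 2500 (c1g_fs.snd h1)))))) (pr_add (pr_addc (pr_scale 20783 25000 (c1g_fs.snd h1)) (enc_rat _ 649231 1000000)) (pr_cmul (enc_norm (kf4q2_4.enc h1.l h2)) (pr_norm (pr_csub (enc_rat _ 8141 10000) (pr_scale 23437 5000 (c1g_fs.snd h1))))))) (pr_case (pr_subr 3 20 (c1g_fs.snd h1)) (pr_add (pr_addc (pr_scale 10419 12500 (c1g_fs.snd h1)) (enc_rat _ 649011 1000000))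 (pr_cmul (enc_norm (kf4q2_4.enc h1.l h2)) (pr_norm (pr_csub (enc_rat _ 9643 12500) (pr_scale 2663 625 (c1g_fs.snd h1)))))) (pr_case (pr_subr 1 5 (c1g_fs.snd h1)) (pr_add (pr_addc (pr_scale 20653 25000 (c1g_fs.snd h1)) (enc_rat _ 650121 1000000)) (pr_cmul (enc_norm (kf4q2_4.enc h1.l h2)) (pr_norm (pr_csub (enc_rat _ 2591 4000) (pr_scale 17181 5000 (c1g_fs.snd h1)))))) (pr_add (pr_addc (pr_scale 319 400 (c1g_fs.snd h1)) (enc_rat _ 131169 200000)) (pr_cmul (enc_norm (kf4q2_4.enc h1.l h2)) (pr_norm (pr_csub (enc_rat _ 43303 100000) (pr_scale 11813 5000 (c1g_fs.snd h1))))))))) (pr_case (pr_subr 7 20 (c1g_fs.snd h1)) (pr_case (pr_subr 3 10 (c1g_fs.snd h1)) (pr_add (pr_addc (pr_scale 18077 25000 (c1g_fs.snd h1)) (enc_rat _ 13489 20000)) (pr_cmul (enc_norm (kf4q2_4.enc h1.l h2)) (pr_norm (pr_csub (enc_rat _ 2187 25000) (pr_scale 2451 2500 (c1g_fs.snd h1)))))) (pr_add (pr_addc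 (pr_scale 1541 2500 (c1g_fs.snd h1)) (enc_rat _ 353227 500000)) (pr_cmul (enc_norm (kf4q2_4.enc h1.l h2)) (pr_norm (pr_subr 15231 50000 (pr_scale 1633 5000 (c1g_fs.snd h1))))))) (pr_case (pr_subr 2 5 (c1g_fs.snd h1)) (pr_add (pr_addc (pr_scale 5609 10000 (c1g_fs.snd h1)) (enc_rat _ 725879 1000000)) (pr_cmul (enc_norm (kf4q2_4.enc h1.l h2)) (pr_norm (pr_subr 56467 100000 (pr_scale 1337 1250 (c1g_fs.snd h1)))))) (pr_case (pr_subr 9 20 (c1g_fs.snd h1)) (pr_add (pr_addc (pr_scale 2621 5000 (c1g_fs.snd h1)) (enc_rat _ 740559 1000000)) (pr_cmul (enc_norm (kf4q2_4.enc h1.l h2)) (pr_norm (pr_subr 70259 100000 (pr_scale 884 625 (c1g_fs.snd h1)))))) (pr_add (pr_addc (pr_scale 23551 50000 (c1g_fs.snd h1)) (enc_rat _ 76449 100000)) (pr_cmul (enc_norm (kf4q2_4.enc h1.l h2)) (pr_norm (pr_subr 6611 10000 (pr_scale 6611 5000 (c1g_fs.snd h1))))))))))))))⟩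
noncomputable def l4q2_fs : Sl2 l4q2 := ⟨_, fun h1 h2 => (pr_norm (pr_mul (cv4p_fs.snd h1) (pr_norm (pr_case (pr_csub (enc_pnc _ 1) (pr_scale 3 4 (pr_sq h1))) (pr_case (pr_subr 127 100 h1) (pr_add (pr_subr 13765919 29000000 (pr_scale 20601 58000 h1)) (pr_cmul (enc_norm (l4q2_4.enc h1.l h2)) (pr_norm (pr_subr 12931747 5800000 (pr_scale 18499 11600 h1))))) (pr_case (pr_subr 69 50 h1) (pr_add (pr_subr 362711 343750 (pr_scale 22337 27500 h1)) (pr_cmul (enc_norm (l4q2_4.enc h1.l h2)) (pr_norm (pr_subr 258967 275000 (pr_scale 6387 11000 h1))))) (pr_add (pr_subr 3531637 2000000 (pr_scale 53089 40000 h1)) (pr_cmul (enc_norm (l4q2_4.enc h1.l h2)) (pr_norm (pr_csub (enc_rat _ 241097 100000) (pr_scale 11093 6000 h1))))))) (pr_case (pr_subr 1 4 (c1g_fs.snd h1)) (pr_case (pr_subr 1 10 (c1g_fs.snd h1)) (pr_case (pr_subr 1 20 (c1g_fs.snd h1)) (pr_add (pr_subr 6451 100000 (pr_scale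 17749 50000 (c1g_fs.snd h1))) (pr_cmul (enc_norm (l4q2_4.enc h1.l h2)) (pr_norm (pr_subr 19461 50000 (pr_scale 2353 2500 (c1g_fs.snd h1)))))) (pr_add (pr_subr 62389 1000000 (pr_scale 3907 12500 (c1g_fs.snd h1))) (pr_cmul (enc_norm (l4q2_4.enc h1.l h2)) (pr_norm (pr_subr 10051 25000 (pr_scale 1497 1250 (c1g_fs.snd h1))))))) (pr_case (pr_subr 3 20 (c1g_fs.snd h1)) (pr_add (pr_subr 52467 1000000 (pr_scale 10667 50000 (c1g_fs.snd h1))) (pr_cmul (enc_norm (l4q2_4.enc h1.l h2)) (pr_norm (pr_subr 3703 10000 (pr_scale 4401 5000 (c1g_fs.snd h1)))))) (pr_case (pr_subr 1 5 (c1g_fs.snd h1)) (pr_add (pr_subr 36801 1000000 (pr_scale 1089 10000 (c1g_fs.snd h1))) (pr_cmul (enc_norm (l4q2_4.enc h1.l h2)) (pr_norm (pr_subr 29017 100000 (pr_scale 173 500 (c1g_fs.snd h1)))))) (pr_add (pr_subr 27489 1000000 (pr_scale 3117 50000 (c1g_fs.snd h1))) (pr_cmul (enc_norm (l4q2_4.enc h1.l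 h2)) (pr_norm (pr_subr 25333 100000 (pr_scale 809 5000 (c1g_fs.snd h1))))))))) (pr_case (pr_subr 7 20 (c1g_fs.snd h1)) (pr_case (pr_subr 3 10 (c1g_fs.snd h1)) (pr_add (pr_subr 11487 500000 (pr_scale 1107 25000 (c1g_fs.snd h1))) (pr_cmul (enc_norm (l4q2_4.enc h1.l h2)) (pr_norm (pr_subr 27753 100000 (pr_scale 1293 5000 (c1g_fs.snd h1)))))) (pr_add (pr_subr 2091 100000 (pr_scale 187 5000 (c1g_fs.snd h1))) (pr_cmul (enc_norm (l4q2_4.enc h1.l h2)) (pr_norm (pr_subr 37389 100000 (pr_scale 2899 5000 (c1g_fs.snd h1))))))) (pr_case (pr_subr 2 5 (c1g_fs.snd h1)) (pr_add (pr_subr 4867 250000 (pr_scale 104 3125 (c1g_fs.snd h1))) (pr_cmul (enc_norm (l4q2_4.enc h1.l h2)) (pr_norm (pr_subr 51571 100000 (pr_scale 197 200 (c1g_fs.snd h1)))))) (pr_case (pr_subr 9 20 (c1g_fs.snd h1)) (pr_add (pr_subr 5333 250000 (pr_scale 1897 50000 (c1g_fs.snd h1))) (pr_cmul (enc_norm (l4q2_4.enc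 h1.l h2)) (pr_norm (pr_subr 62163 100000 (pr_scale 6249 5000 (c1g_fs.snd h1)))))) (pr_add (pr_subr 4259 100000 (pr_scale 4259 50000 (c1g_fs.snd h1))) (pr_cmul (enc_norm (l4q2_4.enc h1.l h2)) (pr_norm (pr_subr 2961 5000 (pr_scale 2961 2500 (c1g_fs.snd h1))))))))))))))⟩
noncomputable def dlg : Fn2 := ⟨_, _, fun h1 h2 => (kcg.enc (enc_norm (enc_sub (enc_scale 3 4 h1) (enc_half (c1g.enc h1)))) h2)⟩
noncomputable def kq02 : Fn2 := ⟨_, _, fun h1 h2 => (enc_norm (enc_sub (enc_rat _ 14701419 5000000) (enc_scale 9701419 5000000 (yag.enc h1))))⟩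
noncomputable def lq02_5 : Fn2 := ⟨_, _, fun h1 h2 => (enc_scale 9701419 1250000 h2)⟩
noncomputable def lq02 : Fn2 := ⟨_, _, fun h1 h2 => (enc_norm (enc_add (enc_add (enc_add (enc_pnc _ 3) (lq02_5.enc h1 h2)) (enc_mul (enc_norm (enc_sub (enc_neg (enc_rat _ 17201419 2500000)) (lq02_5.enc h1 h2))) (yag.enc h1))) (enc_mul (enc_scale 9701419 2500000 (yag.enc h1)) (yag.enc h1))))⟩
noncomputable def cq02 : Fn2 := ⟨_, _, fun h1 h2 => (enc_norm (enc_subr 2706677 2500000 (enc_scale 23233 10000 h2)))⟩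
noncomputable def pcE0 : Piece := ⟨Fn3.sc eng rsbq0, rlq0⟩
noncomputable def pcE1 : Piece := ⟨Fn3.sc eng rsbq1, rlq1⟩
noncomputable def pcE2 : Piece := ⟨Fn3.sc eng rsbq2, rlq2⟩
noncomputable def pcE3 : Piece := ⟨Fn3.sc eng rsbq3, rlq3⟩

end Pool.Agent.Strip051.G.I5470_6050.Tab
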