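import Pool.Agent.Strip051.G.I5470_6050.Tab
import Pool.Agent.Strip051.PB.C12G
import Pool.Agent.Strip051.PB.PairB

/-! # Slopes of the tables near the lattice heights (generated) -/

set_option linter.all false

namespace Pool.Agent.Strip051.G.I5470_6050.Tab

open Pool.Agent.Strip051.PB

attribute [local irreducible] padd psub pneg pmul psq pinv psqrt psqrtg pabs pps pmax pmin pphi plam
  pcase phf pnat prat pscale pnorm pdc pnc pone ppos pnn Enc pbad pzero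

noncomputable def idf_s : Sl1 idf := ⟨fun _ _ D => D, fun h => h⟩

theorem cv1r_two {b : ℝ} (h : b = 2) : cv1r.v b = 0 := by
  have e : swg.v = swn := by funext y; simp [swg, swn]
  subst h
  simp only [cv1r, e, swn_two]
  push_cast
  ring
theorem cv2r_two {b : ℝ} (h : b = 2) : cv2r.v b = 0 := by
  have e : swg.v = swn := by funext y; simp [swg, swn]
  subst h
  simp only [cv2r, e, swn_two]
  push_cast
  ring
theorem cv3r_two {b : ℝ} (h : b = 2) : cv3r.v b = 0 := by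
  have e : swg.v = swn := by funext y; simp [swg, swn]
  subst h
  simp only [cv3r, e, swn_two]
  push_cast
  ring
theorem cv4r_two {b : ℝ} (h : b = 2) : cv4r.v b = 0 := by
  have e : swg.v = swn := by funext y; simp [swg, swn]
  subst h
  simp only [cv4r, e, swn_two]
  push_cast
  ring
noncomputable def c1g_s : Sl1 c1g := ⟨_, fun h1 => (pr_sqrtgz (pr_csub (enc_pnc _ 1) (pr_scale 3 4 (pr_sq h1))))⟩
noncomputable def kcg_6_s : Sl2 kcg_6 := ⟨_, fun h1 h2 => (pr_addc h1 (enc_rat _ 1 4))⟩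
noncomputable def kcg_9_s : Sl2 kcg_9 := ⟨_, fun h1 h2 => (pr_addc h1 (enc_rat _ 2 5))⟩
noncomputable def kcg_12_s : Sl2 kcg_12 := ⟨_, fun h1 h2 => (pr_addc h1 (enc_rat _ 9 20))⟩
noncomputable def kcg_13_s : Sl2 kcg_13 := ⟨_, fun h1 h2 => (pr_scale 6354239 5000000 h1)⟩
noncomputable def kcg_16_s : Sl2 kcg_16 := ⟨_, fun h1 h2 => (pr_scale 456141 125000 h1)⟩
noncomputable def kcg_34_s : Sl2 kcg_34 := ⟨_, fun h1 h2 => (pr_scale 7095629 5000000 h1)⟩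
noncomputable def kcg_39_s : Sl2 kcg_39 := ⟨_, fun h1 h2 => (pr_scale 2303271 500000 h1)⟩
noncomputable def kcg_55_s : Sl2 kcg_55 := ⟨_, fun h1 h2 => (pr_addc h1 (enc_rat _ 7 20))⟩
noncomputable def kcg_56_s : Sl2 kcg_56 := ⟨_, fun h1 h2 => (pr_scale 1196381 500000 h1)⟩
noncomputable def kcg_61_s : Sl2 kcg_61 := ⟨_, fun h1 h2 => (pr_scale 1355147 500000 h1)⟩
noncomputable def kcg_78_s : Sl2 kcg_78 := ⟨_, fun h1 h2 => (pr_addc h1 (enc_rat _ 3 10))⟩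
noncomputable def kcg_79_s : Sl2 kcg_79 := ⟨_, fun h1 h2 => (pr_scale 5937073 2500000 h1)⟩
noncomputable def kcg_84_s : Sl2 kcg_84 := ⟨_, fun h1 h2 => (pr_scale 2303587 500000 h1)⟩
noncomputable def kcg_102_s : Sl2 kcg_102 := ⟨_, fun h1 h2 => (pr_scale 6223339 5000000 h1)⟩
noncomputable def kcg_107_s : Sl2 kcg_107 := ⟨_, fun h1 h2 => (pr_scale 227813 125000 h1)⟩
noncomputable def kcg_130_s : Sl2 kcg_130 := ⟨_, fun h1 h2 => (pr_addc h1 (enc_rat _ 3 20))⟩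
noncomputable def kcg_133_s : Sl2 kcg_133 := ⟨_, fun h1 h2 => (pr_addc h1 (enc_rat _ 1 5))⟩
noncomputable def kcg_134_s : Sl2 kcg_134 := ⟨_, fun h1 h2 => (pr_scale 308667 5000000 h1)⟩
noncomputable def kcg_138_s : Sl2 kcg_138 := ⟨_, fun h1 h2 => (pr_scale 1 62500 h1)⟩
noncomputable def kcg_156_s : Sl2 kcg_156 := ⟨_, fun h1 h2 => (pr_scale 7593879 5000000 h1)⟩
noncomputable def kcg_160_s : Sl2 kcg_160 := ⟨_, fun h1 h2 => (pr_scale 796983 500000 h1)⟩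
noncomputable def kcg_180_s : Sl2 kcg_180 := ⟨_, fun h1 h2 => (pr_addc h1 (enc_rat _ 1 10))⟩
noncomputable def kcg_181_s : Sl2 kcg_181 := ⟨_, fun h1 h2 => (pr_scale 5975329 2500000 h1)⟩
noncomputable def kcg_184_s : Sl2 kcg_184 := ⟨_, fun h1 h2 => (pr_scale 2499999 500000 h1)⟩
noncomputable def kcg_203_s : Sl2 kcg_203 := ⟨_, fun h1 h2 => (pr_scale 217849 100000 h1)⟩
noncomputable def kcg_206_s : Sl2 kcg_206 := ⟨_, fun h1 h2 => (pr_scale 212877 62500 h1)⟩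
noncomputable def kcg_219_s : Sl2 kcg_219 := ⟨_, fun h1 h2 => (pr_scale 9701419 5000000 h1)⟩
noncomputable def kcg_226_s : Sl2 kcg_226 := ⟨_, fun h1 h2 => (pr_csub (enc_rat _ 1 4) h1)⟩
noncomputable def kcg_227_s : Sl2 kcg_227 := ⟨_, fun h1 h2 => (pr_csub (enc_rat _ 2 5) h1)⟩
noncomputable def kcg_228_s : Sl2 kcg_228 := ⟨_, fun h1 h2 => (pr_csub (enc_rat _ 9 20) h1)⟩
noncomputable def kcg_250_s : Sl2 kcg_250 := ⟨_, fun h1 h2 => (pr_csub (enc_rat _ 7 20) h1)⟩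
noncomputable def kcg_259_s : Sl2 kcg_259 := ⟨_, fun h1 h2 => (pr_csub (enc_rat _ 3 10) h1)⟩
noncomputable def kcg_279_s : Sl2 kcg_279 := ⟨_, fun h1 h2 => (pr_csub (enc_rat _ 3 20) h1)⟩
noncomputable def kcg_280_s : Sl2 kcg_280 := ⟨_, fun h1 h2 => (pr_csub (enc_rat _ 1 5) h1)⟩
noncomputable def kcg_301_s : Sl2 kcg_301 := ⟨_, fun h1 h2 => (pr_csub (enc_rat _ 1 10) h1)⟩
noncomputable def kcg_s : Sl2 kcg := ⟨_, fun h1 h2 => (pr_norm (pr_case h1 (pr_case (kcg_6_s.snd h1 h2) (pr_case (kcg_9_s.snd h1 h2) (pr_case (kcg_12_s.snd h1 h2) (pr_add (pr_add (pr_addc (kcg_13_s.snd h1 h2) (enc_rat _ 26949001 50000000)) (pr_cmul (enc_norm (kcg_3.enc h1.l h2)) (pr_norm (pr_addc (kcg_16_s.snd h1 h2) (enc_rat _ 13687801 10000000))))) (pr_cmul (enc_norm (kcg_26.enc h1.l h2)) (pr_norm (pr_mul (pr_norm (pr_addc h1 (enc_rat _ 1 2))) (pr_norm (pr_csub (enc_neg (enc_rat _ 9 20)) h1))))))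 (pr_add (pr_add (pr_subr 6715081 10000000 (pr_neg (kcg_34_s.snd h1 h2))) (pr_cmul (enc_norm (kcg_3.enc h1.l h2)) (pr_norm (pr_addc (kcg_39_s.snd h1 h2) (enc_rat _ 4499041 2500000))))) (pr_cmul (enc_norm (kcg_47.enc h1.l h2)) (pr_norm (pr_mul (pr_norm (kcg_12_s.snd h1 h2)) (pr_norm (pr_csub (enc_neg (enc_rat _ 2 5)) h1))))))) (pr_case (kcg_55_s.snd h1 h2) (pr_add (pr_add (pr_subr 53048129 50000000 (pr_neg (kcg_56_s.snd h1 h2))) (pr_cmul (enc_norm (kcg_3.enc h1.l h2)) (pr_norm (pr_subr 563559 500000 (pr_neg (kcg_61_s.snd h1 h2)))))) (pr_cmul (enc_norm (kcg_71.enc h1.l h2)) (pr_norm (pr_mul (pr_norm (kcg_9_s.snd h1 h2)) (pr_norm (pr_csub (enc_neg (enc_rat _ 7 20)) h1)))))) (pr_case (kcg_78_s.snd h1 h2) (pr_add (pr_add (pr_subr 10546861 10000000 (pr_neg (kcg_79_s.snd h1 h2))) (pr_cmul (enc_norm (kcg_3.enc h1.l h2)) (pr_norm (pr_subr 895513 500000 (pr_neg (kcg_84_s.snd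 h1 h2)))))) (pr_cmul (enc_norm (kcg_97.enc h1.l h2)) (pr_norm (pr_mul (pr_norm (kcg_55_s.snd h1 h2)) (pr_norm (pr_csub (enc_neg (enc_rat _ 3 10)) h1)))))) (pr_add (pr_add (pr_subr 8945471 12500000 (pr_neg (kcg_102_s.snd h1 h2))) (pr_cmul (enc_norm (kcg_3.enc h1.l h2)) (pr_norm (pr_subr 1529 1600 (pr_neg (kcg_107_s.snd h1 h2)))))) (pr_cmul (enc_norm (kcg_120.enc h1.l h2)) (pr_norm (pr_mul (pr_norm (kcg_78_s.snd h1 h2)) (pr_norm (pr_csub (enc_neg (enc_rat _ 1 4)) h1))))))))) (pr_case (kcg_130_s.snd h1 h2) (pr_case (kcg_133_s.snd h1 h2) (pr_add (pr_add (pr_subr 19451869 50000000 (kcg_134_s.snd h1 h2)) (pr_cmul (enc_norm (kcg_3.enc h1.l h2)) (pr_norm (pr_subr 500003 1000000 (pr_neg (kcg_138_s.snd h1 h2)))))) (pr_cmul (enc_norm (kcg_151.enc h1.l h2)) (pr_norm (pr_mul (pr_norm (kcg_6_s.snd h1 h2)) (pr_norm (pr_csub (enc_neg (enc_rat _ 1 5)) h1)))))) (pr_add (pr_add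 (pr_subr 976289 10000000 (kcg_156_s.snd h1 h2)) (pr_cmul (enc_norm (kcg_3.enc h1.l h2)) (pr_norm (pr_subr 906033 5000000 (kcg_160_s.snd h1 h2))))) (pr_cmul (enc_norm (kcg_172.enc h1.l h2)) (pr_norm (pr_mul (pr_norm (kcg_133_s.snd h1 h2)) (pr_norm (pr_csub (enc_neg (enc_rat _ 3 20)) h1))))))) (pr_case (kcg_180_s.snd h1 h2) (pr_add (pr_add (pr_addc (kcg_181_s.snd h1 h2) (enc_rat _ 3307447 100000000)) (pr_cmul (enc_norm (kcg_3.enc h1.l h2)) (pr_norm (pr_addc (kcg_184_s.snd h1 h2) (enc_rat _ 1648491 5000000))))) (pr_cmul (enc_norm (kcg_195.enc h1.l h2)) (pr_norm (pr_mul (pr_norm (kcg_130_s.snd h1 h2)) (pr_norm (pr_csub (enc_neg (enc_rat _ 1 10)) h1)))))) (pr_case (pr_addc h1 (enc_rat _ 1 20)) (pr_add (pr_add (pr_addc (kcg_203_s.snd h1 h2) (enc_rat _ 1191031 100000000)) (pr_cmul (enc_norm (kcg_3.enc h1.l h2)) (pr_norm (pr_addc (kcg_206_s.snd h1 h2) (enc_rat _ 212877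 1250000))))) (pr_cmul (enc_norm (kcg_214.enc h1.l h2)) (pr_norm (pr_mul (pr_norm (kcg_180_s.snd h1 h2)) (pr_norm (pr_csub (enc_neg (enc_rat _ 1 20)) h1)))))) (kcg_219_s.snd h1 h2))))) (pr_neg (pr_case (kcg_226_s.snd h1 h2) (pr_case (kcg_227_s.snd h1 h2) (pr_case (kcg_228_s.snd h1 h2) (pr_add (pr_add (pr_csub (enc_rat _ 26949001 50000000) (kcg_13_s.snd h1 h2)) (pr_cmul (enc_norm (kcg_3.enc h1.l h2)) (pr_norm (pr_csub (enc_rat _ 13687801 10000000) (kcg_16_s.snd h1 h2))))) (pr_cmul (enc_norm (kcg_26.enc h1.l h2)) (pr_norm (pr_mul (pr_norm (pr_csub (enc_rat _ 1 2) h1)) (pr_norm (pr_subr 9 20 h1)))))) (pr_add (pr_add (pr_subr 6715081 10000000 (kcg_34_s.snd h1 h2)) (pr_cmul (enc_norm (kcg_3.enc h1.l h2)) (pr_norm (pr_csub (enc_rat _ 4499041 2500000) (kcg_39_s.snd h1 h2))))) (pr_cmul (enc_norm (kcg_47.enc h1.l h2)) (pr_norm (pr_mul (pr_norm (kcg_228_s.snd h1 h2))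 (pr_norm (pr_subr 2 5 h1))))))) (pr_case (kcg_250_s.snd h1 h2) (pr_add (pr_add (pr_subr 53048129 50000000 (kcg_56_s.snd h1 h2)) (pr_cmul (enc_norm (kcg_3.enc h1.l h2)) (pr_norm (pr_subr 563559 500000 (kcg_61_s.snd h1 h2))))) (pr_cmul (enc_norm (kcg_71.enc h1.l h2)) (pr_norm (pr_mul (pr_norm (kcg_227_s.snd h1 h2)) (pr_norm (pr_subr 7 20 h1)))))) (pr_case (kcg_259_s.snd h1 h2) (pr_add (pr_add (pr_subr 10546861 10000000 (kcg_79_s.snd h1 h2)) (pr_cmul (enc_norm (kcg_3.enc h1.l h2)) (pr_norm (pr_subr 895513 500000 (kcg_84_s.snd h1 h2))))) (pr_cmul (enc_norm (kcg_97.enc h1.l h2)) (pr_norm (pr_mul (pr_norm (kcg_250_s.snd h1 h2)) (pr_norm (pr_subr 3 10 h1)))))) (pr_add (pr_add (pr_subr 8945471 12500000 (kcg_102_s.snd h1 h2)) (pr_cmul (enc_norm (kcg_3.enc h1.l h2)) (pr_norm (pr_subr 1529 1600 (kcg_107_s.snd h1 h2))))) (pr_cmul (enc_norm (kcg_120.enc h1.l h2)) (pr_norm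 (pr_mul (pr_norm (kcg_259_s.snd h1 h2)) (pr_norm (pr_subr 1 4 h1))))))))) (pr_case (kcg_279_s.snd h1 h2) (pr_case (kcg_280_s.snd h1 h2) (pr_add (pr_add (pr_subr 19451869 50000000 (pr_neg (kcg_134_s.snd h1 h2))) (pr_cmul (enc_norm (kcg_3.enc h1.l h2)) (pr_norm (pr_subr 500003 1000000 (kcg_138_s.snd h1 h2))))) (pr_cmul (enc_norm (kcg_151.enc h1.l h2)) (pr_norm (pr_mul (pr_norm (kcg_226_s.snd h1 h2)) (pr_norm (pr_subr 1 5 h1)))))) (pr_add (pr_add (pr_subr 976289 10000000 (pr_neg (kcg_156_s.snd h1 h2))) (pr_cmul (enc_norm (kcg_3.enc h1.l h2)) (pr_norm (pr_subr 906033 5000000 (pr_neg (kcg_160_s.snd h1 h2)))))) (pr_cmul (enc_norm (kcg_172.enc h1.l h2)) (pr_norm (pr_mul (pr_norm (kcg_280_s.snd h1 h2)) (pr_norm (pr_subr 3 20 h1))))))) (pr_case (kcg_301_s.snd h1 h2) (pr_add (pr_add (pr_csub (enc_rat _ 3307447 100000000) (kcg_181_s.snd h1 h2)) (pr_cmul (enc_norm (kcg_3.enc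 h1.l h2)) (pr_norm (pr_csub (enc_rat _ 1648491 5000000) (kcg_184_s.snd h1 h2))))) (pr_cmul (enc_norm (kcg_195.enc h1.l h2)) (pr_norm (pr_mul (pr_norm (kcg_279_s.snd h1 h2)) (pr_norm (pr_subr 1 10 h1)))))) (pr_case (pr_csub (enc_rat _ 1 20) h1) (pr_add (pr_add (pr_csub (enc_rat _ 1191031 100000000) (kcg_203_s.snd h1 h2)) (pr_cmul (enc_norm (kcg_3.enc h1.l h2)) (pr_norm (pr_csub (enc_rat _ 212877 1250000) (kcg_206_s.snd h1 h2))))) (pr_cmul (enc_norm (kcg_214.enc h1.l h2)) (pr_norm (pr_mul (pr_norm (kcg_301_s.snd h1 h2)) (pr_norm (pr_subr 1 20 h1)))))) (pr_neg (kcg_219_s.snd h1 h2)))))))))⟩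
noncomputable def kf0q0_9_s : Sl2 kf0q0_9 := ⟨_, fun h1 h2 => (pr_scale 3 2 h1)⟩
noncomputable def kf0q0_12_s : Sl2 kf0q0_12 := ⟨_, fun h1 h2 => (pr_cadd (enc_pnc _ 1) (c1g_s.snd h1))⟩
noncomputable def kf0q0_s : Sl2 kf0q0 := ⟨_, fun h1 h2 => (pr_norm (pr_add (pr_mul (pr_norm (pr_mul (pr_norm (pr_sub (c1g_s.snd h1) (kf0q0_9_s.snd h1 h2))) (pr_norm (kf0q0_12_s.snd h1 h2)))) (pr_nd (pr_inv (pr_sub (kf0q0_12_s.snd h1 h2) (kf0q0_9_s.snd h1 h2))))) (pr_mul h1 (kcg_s.snd (pr_norm (pr_sub (pr_scale 3 4 h1) (pr_half (c1g_s.snd h1)))) h2))))⟩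
noncomputable def txg_6_s : Sl3 txg_6 := ⟨_, fun h1 h2 h3 => (pr_add h1 (pr_half h2))⟩
noncomputable def txg_27_s : Sl3 txg_27 := ⟨_, fun h1 h2 h3 => (pr_addc h1 (enc_rat _ 13 50))⟩
noncomputable def txg_30_s : Sl3 txg_30 := ⟨_, fun h1 h2 h3 => (pr_addc h1 (enc_rat _ 19 50))⟩
noncomputable def txg_33_s : Sl3 txg_33 := ⟨_, fun h1 h2 h3 => (pr_addc h1 (enc_rat _ 11 25))⟩
noncomputable def txg_77_s : Sl3 txg_77 := ⟨_, fun h1 h2 h3 => (pr_addc h1 (enc_rat _ 8 25))⟩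
noncomputable def txg_121_s : Sl3 txg_121 := ⟨_, fun h1 h2 h3 => (pr_addc h1 (enc_rat _ 3 20))⟩
noncomputable def txg_124_s : Sl3 txg_124 := ⟨_, fun h1 h2 h3 => (pr_addc h1 (enc_rat _ 1 5))⟩
noncomputable def txg_164_s : Sl3 txg_164 := ⟨_, fun h1 h2 h3 => (pr_addc h1 (enc_rat _ 1 10))⟩
noncomputable def txg_186_s : Sl3 txg_186 := ⟨_, fun h1 h2 h3 => (pr_addc h1 (enc_rat _ 7 100))⟩
noncomputable def txg_245_s : Sl3 txg_245 := ⟨_, fun h1 h2 h3 => (pr_subr 37 763 h1)⟩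
noncomputable def txg_247_s : Sl3 txg_247 := ⟨_, fun h1 h2 h3 => (pr_subr 1 4 h1)⟩
noncomputable def txg_248_s : Sl3 txg_248 := ⟨_, fun h1 h2 h3 => (pr_subr 1 10 h1)⟩
noncomputable def txg_249_s : Sl3 txg_249 := ⟨_, fun h1 h2 h3 => (pr_subr 7 100 h1)⟩
noncomputable def txg_290_s : Sl3 txg_290 := ⟨_, fun h1 h2 h3 => (pr_subr 3 20 h1)⟩
noncomputable def txg_309_s : Sl3 txg_309 := ⟨_, fun h1 h2 h3 => (pr_subr 1 5 h1)⟩
noncomputable def txg_352_s : Sl3 txg_352 := ⟨_, fun h1 h2 h3 => (pr_subr 7 20 h1)⟩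
noncomputable def txg_354_s : Sl3 txg_354 := ⟨_, fun h1 h2 h3 => (pr_subr 3 10 h1)⟩
noncomputable def txg_396_s : Sl3 txg_396 := ⟨_, fun h1 h2 h3 => (pr_subr 2 5 h1)⟩
noncomputable def txg_418_s : Sl3 txg_418 := ⟨_, fun h1 h2 h3 => (pr_subr 11 25 h1)⟩
noncomputable def txg_s : Sl3 txg := ⟨_, fun h1 h2 h3 => (pr_case (pr_addc h1 (enc_rat _ 47 914)) (pr_case (txg_27_s.snd h1 h2 h3) (pr_case (txg_30_s.snd h1 h2 h3) (pr_case (txg_33_s.snd h1 h2 h3) (pr_add (pr_add (pr_addc (pr_scale 223351 3000000 h1) (enc_rat _ 223351 6000000)) (pr_cmul (enc_norm (txg_4.enc h1.l h2.l h3)) (pr_norm (pr_subr 225253 1200000 (pr_neg (pr_scale 225253 600000 h1)))))) (pr_cmul (enc_norm (enc_subr 899449 1000000 (enc_scale 614333 100000 (txg_4.enc h1.l h2.l h3)))) (pr_norm (pr_mul (pr_norm (pr_addc h1 (enc_rat _ 1 2))) (pr_norm (pr_csub (enc_neg (enc_rat _ 11 25)) h1)))))) (pr_add (pr_add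 (pr_addc (pr_scale 239357 6000000 h1) (enc_rat _ 165149 7500000)) (pr_cmul (enc_norm (txg_4.enc h1.l h2.l h3)) (pr_norm (pr_subr 3687217 10000000 (pr_neg (pr_scale 78681 100000 h1)))))) (pr_cmul (enc_norm (enc_add (enc_scale 71313 100000 (txg_4.enc h1.l h2.l h3)) (enc_rat _ 1475409 1000000))) (pr_norm (pr_mul (pr_norm (txg_33_s.snd h1 h2 h3)) (pr_norm (pr_csub (enc_neg (enc_rat _ 19 50)) h1))))))) (pr_case (txg_77_s.snd h1 h2 h3) (pr_add (pr_add (pr_subr 588759 50000000 (pr_neg (pr_scale 98083 2000000 h1))) (pr_cmul (enc_norm (txg_4.enc h1.l h2.l h3)) (pr_norm (pr_subr 4239739 30000000 (pr_neg (pr_scale 56519 300000 h1)))))) (pr_cmul (enc_norm (enc_sub (enc_rat _ 6831 1000000) (enc_scale 267167 25000 (txg_4.enc h1.l h2.l h3)))) (pr_norm (pr_mul (pr_norm (txg_30_s.snd h1 h2 h3)) (pr_norm (pr_csub (enc_neg (enc_rat _ 8 25)) h1)))))) (pr_add (pr_add (pr_addc (pr_scale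 18421 500000 h1) (enc_rat _ 785377 50000000)) (pr_cmul (enc_norm (txg_4.enc h1.l h2.l h3)) (pr_norm (pr_addc (pr_scale 78833 300000 h1) (enc_rat _ 3661 1200000))))) (pr_cmul (enc_norm (enc_subr 719111 500000 (enc_scale 31671 10000 (txg_4.enc h1.l h2.l h3)))) (pr_norm (pr_mul (pr_norm (txg_77_s.snd h1 h2 h3)) (pr_norm (pr_csub (enc_neg (enc_rat _ 13 50)) h1)))))))) (pr_case (txg_121_s.snd h1 h2 h3) (pr_case (txg_124_s.snd h1 h2 h3) (pr_add (pr_add (pr_addc (pr_scale 1523179 6000000 h1) (enc_rat _ 21639913 300000000)) (pr_cmul (enc_norm (txg_4.enc h1.l h2.l h3)) (pr_norm (pr_addc (pr_scale 186059 200000 h1) (enc_rat _ 220757 1250000))))) (pr_cmul (enc_norm (enc_subr 5447 2500 (enc_neg (enc_scale 714619 50000 (txg_4.enc h1.l h2.l h3))))) (pr_norm (pr_mul (pr_norm (txg_27_s.snd h1 h2 h3)) (pr_norm (pr_csub (enc_neg (enc_rat _ 1 5)) h1)))))) (pr_add (pr_add (pr_addc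 (pr_scale 499133 1250000 h1) (enc_rat _ 10122169 100000000)) (pr_cmul (enc_norm (txg_4.enc h1.l h2.l h3)) (pr_norm (pr_addc (pr_scale 591783 500000 h1) (enc_rat _ 1136299 5000000))))) (pr_cmul (enc_norm (enc_subr 294299 1000000 (enc_scale 241709 20000 (txg_4.enc h1.l h2.l h3)))) (pr_norm (pr_mul (pr_norm (txg_124_s.snd h1 h2 h3)) (pr_norm (pr_csub (enc_neg (enc_rat _ 3 20)) h1))))))) (pr_case (txg_164_s.snd h1 h2 h3) (pr_add (pr_add (pr_addc (pr_scale 1103857 2500000 h1) (enc_rat _ 2151143 20000000)) (pr_cmul (enc_norm (txg_4.enc h1.l h2.l h3)) (pr_norm (pr_subr 447023 5000000 (pr_neg (pr_scale 92753 100000 h1)))))) (pr_cmul (enc_norm (enc_subr 17201 31250 (enc_scale 753411 25000 (txg_4.enc h1.l h2.l h3)))) (pr_norm (pr_mul (pr_norm (txg_121_s.snd h1 h2 h3)) (pr_norm (pr_csub (enc_neg (enc_rat _ 1 10)) h1)))))) (pr_case (txg_186_s.snd h1 h2 h3) (pr_add (pr_add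 (pr_addc (pr_scale 451243 1000000 h1) (enc_rat _ 10852717 100000000)) (pr_cmul (enc_norm (txg_4.enc h1.l h2.l h3)) (pr_norm (pr_subr 932257 7500000 (pr_neg (pr_scale 95737 75000 h1)))))) (pr_cmul (enc_norm (enc_add (enc_mul (enc_norm (enc_subr 1929761 50000 (enc_scale 509 1250 (txg_4.enc h1.l h2.l h3)))) (enc_norm (txg_4.enc h1.l h2.l h3))) (enc_rat _ 594043 1000000))) (pr_norm (pr_mul (pr_norm (txg_164_s.snd h1 h2 h3)) (pr_norm (pr_csub (enc_neg (enc_rat _ 7 100)) h1)))))) (pr_add (pr_add (pr_add (pr_addc (pr_scale 3961007791105892 10551035163671875 h1) (enc_rat _ 108906887903595269 1055103516367187500)) (pr_cmul (enc_norm (txg_4.enc h1.l h2.l h3)) (pr_norm (pr_subr 31159851452211603 1688165626187500000 (pr_scale 3976494255255321 16881656261875000 h1))))) (pr_cmul (enc_sq (enc_norm (txg_4.enc h1.l h2.l h3))) (pr_norm (pr_subr 587611479 3694016687500 (pr_neg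 (pr_scale 83944497 36940166875 h1)))))) (pr_cmul (enc_norm (enc_add (enc_mul (enc_norm (enc_subr 953271 50000 (enc_neg (enc_scale 22549 10000 (txg_4.enc h1.l h2.l h3))))) (enc_norm (txg_4.enc h1.l h2.l h3))) (enc_rat _ 780611 250000))) (pr_norm (pr_mul (pr_norm (txg_186_s.snd h1 h2 h3)) (pr_norm (pr_csub (enc_neg (enc_rat _ 47 914)) h1)))))))))) (pr_case (txg_245_s.snd h1 h2 h3) (pr_sub (pr_mul (pr_norm (pr_csub (enc_pnc _ 1) h2)) (pr_norm (pr_subn 1 (pr_nat 2 h2)))) (pr_mul (pr_norm (pr_nat 2 (pr_subc (pr_scale 4 3 (txg_6_s.snd h1 h2 h3)) h3))) (pr_norm (pr_mul (pr_norm (pr_subn 1 (pr_add (pr_scale 2 3 (txg_6_s.snd h1 h2 h3)) h2))) (kcg_s.snd h1 h3))))) (pr_case (txg_247_s.snd h1 h2 h3) (pr_case (txg_248_s.snd h1 h2 h3) (pr_case (txg_249_s.snd h1 h2 h3) (pr_add (pr_add (pr_addc (pr_scale 258569996896391 3411926175000000 h1) (enc_rat _ 1260359899679671 12185450625000000))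 (pr_cmul (enc_norm (txg_4.enc h1.l h2.l h3)) (pr_norm (pr_subr 1975767033 149057500000 (pr_scale 517763289 596230000 h1))))) (pr_cmul (enc_norm (enc_sub (enc_rat _ 597167 200000) (enc_scale 65999 5000 (txg_4.enc h1.l h2.l h3)))) (pr_norm (pr_mul (pr_norm (txg_245_s.snd h1 h2 h3)) (pr_norm (pr_csub (enc_rat _ 7 100) h1)))))) (pr_add (pr_add (pr_csub (enc_rat _ 33141449 300000000) (pr_scale 1859 75000 h1)) (pr_cmul (enc_norm (txg_4.enc h1.l h2.l h3)) (pr_norm (pr_subr 1028967 10000000 (pr_scale 214899 100000 h1))))) (pr_cmul (enc_norm (enc_sub (enc_rat _ 121179 100000) (enc_scale 3322347 100000 (txg_4.enc h1.l h2.l h3)))) (pr_norm (pr_mul (pr_norm (txg_249_s.snd h1 h2 h3)) (pr_norm (pr_csub (enc_rat _ 1 10) h1))))))) (pr_case (txg_290_s.snd h1 h2 h3) (pr_add (pr_add (pr_csub (enc_rat _ 11890317 100000000) (pr_scale 545517 5000000 h1)) (pr_cmul (enc_norm (txg_4.enc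 h1.l h2.l h3)) (pr_norm (pr_subr 631899 10000000 (pr_scale 875961 500000 h1))))) (pr_cmul (enc_norm (enc_add (enc_scale 1393773 50000 (txg_4.enc h1.l h2.l h3)) (enc_rat _ 959259 1000000))) (pr_norm (pr_mul (pr_norm (txg_248_s.snd h1 h2 h3)) (pr_norm (pr_csub (enc_rat _ 3 20) h1)))))) (pr_case (txg_309_s.snd h1 h2 h3) (pr_add (pr_add (pr_csub (enc_rat _ 861519 6250000) (pr_scale 588423 2500000 h1)) (pr_cmul (enc_norm (txg_4.enc h1.l h2.l h3)) (pr_norm (pr_csub (enc_rat _ 1289463 5000000) (pr_scale 97157 250000 h1))))) (pr_cmul (enc_norm (enc_add (enc_scale 746777 50000 (txg_4.enc h1.l h2.l h3)) (enc_rat _ 1566059 1000000))) (pr_norm (pr_mul (pr_norm (txg_290_s.snd h1 h2 h3)) (pr_norm (pr_csub (enc_rat _ 1 5) h1)))))) (pr_add (pr_add (pr_csub (enc_rat _ 979609 6250000) (pr_scale 824603 2500000 h1)) (pr_cmul (enc_norm (txg_4.enc h1.l h2.l h3)) (pr_norm (pr_csub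 (enc_rat _ 1825399 5000000) (pr_scale 231141 250000 h1))))) (pr_cmul (enc_norm (enc_sub (enc_rat _ 323381 1000000) (enc_scale 421683 100000 (txg_4.enc h1.l h2.l h3)))) (pr_norm (pr_mul (pr_norm (txg_309_s.snd h1 h2 h3)) (pr_norm (pr_csub (enc_rat _ 1 4) h1))))))))) (pr_case (txg_352_s.snd h1 h2 h3) (pr_case (txg_354_s.snd h1 h2 h3) (pr_add (pr_add (pr_csub (enc_rat _ 2064513 12500000) (pr_scale 908839 2500000 h1)) (pr_cmul (enc_norm (txg_4.enc h1.l h2.l h3)) (pr_norm (pr_csub (enc_rat _ 204373 625000) (pr_scale 96529 125000 h1))))) (pr_cmul (enc_norm (enc_add (enc_scale 117019 100000 (txg_4.enc h1.l h2.l h3)) (enc_rat _ 175253 500000))) (pr_norm (pr_mul (pr_norm (txg_247_s.snd h1 h2 h3)) (pr_norm (pr_csub (enc_rat _ 3 10) h1)))))) (pr_add (pr_add (pr_csub (enc_rat _ 1598763 10000000) (pr_scale 1729599 5000000 h1)) (pr_cmul (enc_norm (txg_4.enc h1.l h2.l h3))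 (pr_norm (pr_csub (enc_rat _ 365831 1250000) (pr_scale 10278 15625 h1))))) (pr_cmul (enc_norm (enc_subr 35141 50000 (enc_neg (enc_scale 345899 100000 (txg_4.enc h1.l h2.l h3))))) (pr_norm (pr_mul (pr_norm (txg_354_s.snd h1 h2 h3)) (pr_norm (pr_csub (enc_rat _ 7 20) h1))))))) (pr_case (txg_396_s.snd h1 h2 h3) (pr_add (pr_add (pr_csub (enc_rat _ 14160833 100000000) (pr_scale 367157 1250000 h1)) (pr_cmul (enc_norm (txg_4.enc h1.l h2.l h3)) (pr_norm (pr_csub (enc_rat _ 1983979 10000000) (pr_scale 194229 500000 h1))))) (pr_cmul (enc_norm (enc_subr 85267 250000 (enc_neg (enc_scale 6024 3125 (txg_4.enc h1.l h2.l h3))))) (pr_norm (pr_mul (pr_norm (txg_352_s.snd h1 h2 h3)) (pr_norm (pr_csub (enc_rat _ 2 5) h1)))))) (pr_case (txg_418_s.snd h1 h2 h3) (pr_add (pr_add (pr_csub (enc_rat _ 13673119 100000000) (pr_scale 1126131 4000000 h1)) (pr_cmul (enc_norm (txg_4.enc h1.l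 h2.l h3)) (pr_norm (pr_csub (enc_rat _ 1330687 10000000) (pr_scale 45027 200000 h1))))) (pr_cmul (enc_norm (enc_sub (enc_rat _ 60757 500000) (enc_scale 167349 100000 (txg_4.enc h1.l h2.l h3)))) (pr_norm (pr_mul (pr_norm (txg_396_s.snd h1 h2 h3)) (pr_norm (pr_csub (enc_rat _ 11 25) h1)))))) (pr_add (pr_add (pr_csub (enc_rat _ 642839 6000000) (pr_scale 642839 3000000 h1)) (pr_cmul (enc_norm (txg_4.enc h1.l h2.l h3)) (pr_norm (pr_csub (enc_rat _ 340093 1200000) (pr_scale 340093 600000 h1))))) (pr_cmul (enc_norm (enc_subr 300473 250000 (enc_scale 340521 50000 (txg_4.enc h1.l h2.l h3)))) (pr_norm (pr_mul (pr_norm (txg_418_s.snd h1 h2 h3)) (pr_norm (pr_csub (enc_rat _ 1 2) h1))))))))))))⟩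
noncomputable def l0q0_s : Sl2 l0q0 := ⟨_, fun h1 h2 => (pr_norm (txg_s.snd (pr_norm (pr_sub (pr_scale 3 4 h1) (pr_half (c1g_s.snd h1)))) (pr_nd (c1g_s.snd h1)) h2))⟩
noncomputable def kc0q0_8_s : Sl2 kc0q0_8 := ⟨_, fun h1 h2 => (pr_sub (pr_scale 3 4 h1) (pr_half (c1g_s.snd h1)))⟩
noncomputable def kc0q0_s : Sl2 kc0q0 := ⟨_, fun h1 h2 => (pr_norm (pr_case (pr_addc (kc0q0_8_s.snd h1 h2) (enc_rat _ 8 25)) (pr_case (pr_addc (kc0q0_8_s.snd h1 h2) (enc_rat _ 41 100)) (pr_add (pr_addc (pr_scale 10193 30000 (kc0q0_8_s.snd h1 h2)) (enc_rat _ 10193 60000)) (pr_cmul (enc_norm (kc0q0_3.enc h1.l h2)) (pr_norm (pr_addc (pr_scale 20897 1800 (kc0q0_8_s.snd h1 h2)) (enc_rat _ 20897 3600))))) (pr_add (pr_addc (pr_scale 7919 18000 (kc0q0_8_s.snd h1 h2)) (enc_rat _ 949303 4500000)) (pr_cmul (enc_norm (kc0q0_3.enc h1.l h2)) (pr_norm (pr_addc (pr_scale 144481 9000 (kc0q0_8_s.snd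 h1 h2)) (enc_rat _ 3432043 450000)))))) (pr_case (pr_addc (kc0q0_8_s.snd h1 h2) (enc_rat _ 23 100)) (pr_add (pr_addc (pr_scale 30241 9000 (kc0q0_8_s.snd h1 h2)) (enc_rat _ 5154343 4500000)) (pr_cmul (enc_norm (kc0q0_3.enc h1.l h2)) (pr_norm (pr_addc (pr_scale 82907 4500 (kc0q0_8_s.snd h1 h2)) (enc_rat _ 3773371 450000))))) (pr_case (pr_addc (kc0q0_8_s.snd h1 h2) (enc_rat _ 7 50)) (pr_add (pr_addc (pr_scale 376037 45000 (kc0q0_8_s.snd h1 h2)) (enc_rat _ 10325479 4500000)) (pr_cmul (enc_norm (kc0q0_3.enc h1.l h2)) (pr_norm (pr_addc (pr_scale 44131 2250 (kc0q0_8_s.snd h1 h2)) (enc_rat _ 487067 56250))))) (pr_add (pr_addc (pr_scale 816452603719 80960000000 (kc0q0_8_s.snd h1 h2)) (enc_rat _ 10267783810033 4048000000000)) (pr_cmul (enc_norm (kc0q0_3.enc h1.l h2)) (pr_norm (pr_subr 6315264350941 1840000000000 (pr_neg (pr_scale 2456465421563 36800000000 (kc0q0_8_s.snd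 h1 h2)))))))))))⟩
noncomputable def kf0q1_10_s : Sl2 kf0q1_10 := ⟨_, fun h1 h2 => (pr_scale 3 2 h1)⟩
noncomputable def kf0q1_s : Sl2 kf0q1 := ⟨_, fun h1 h2 => (pr_norm (pr_add (pr_mul (pr_norm (pr_mul (pr_norm (pr_cadd (enc_pnc _ 1) (pr_nat 2 (c1g_s.snd h1)))) (pr_norm (pr_sub (kf0q1_10_s.snd h1 h2) (c1g_s.snd h1))))) (pr_nd (pr_inv (pr_nat 2 (pr_sub (pr_cadd (enc_pnc _ 1) (kf0q1_10_s.snd h1 h2)) (c1g_s.snd h1)))))) (pr_mul (pr_norm (pr_subn 1 h1)) (kcg_s.snd (pr_norm (pr_sub (pr_scale 3 4 h1) (pr_half (c1g_s.snd h1)))) h2))))⟩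
noncomputable def l0q1_s : Sl2 l0q1 := ⟨_, fun h1 h2 => (pr_norm (txg_s.snd (pr_norm (pr_sub (pr_scale 3 4 h1) (pr_half (c1g_s.snd h1)))) (pr_nd (c1g_s.snd h1)) h2))⟩
noncomputable def gsg_s : Sl1 gsg := ⟨_, fun h1 => (pr_sqrt (pr_csub (enc_pnc _ 1) (pr_scale 3 4 (pr_sq h1))))⟩
noncomputable def gug_s : Sl1 gug := ⟨_, fun h1 => (pr_norm (pr_add (pr_scale 3 4 h1) (pr_scale 3 2 (pr_csub (enc_pnc _ 1) (gsg_s.snd h1)))))⟩
noncomputable def kc0q1_9_s : Sl2 kc0q1_9 := ⟨_, fun h1 h2 => (pr_sub (pr_scale 3 4 h1) (pr_half (c1g_s.snd h1)))⟩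
noncomputable def kc0q1_s : Sl2 kc0q1 := ⟨_, fun h1 h2 => (pr_norm (pr_case (pr_addc (kc0q1_9_s.snd h1 h2) (enc_rat _ 47 914)) (pr_case (pr_addc (kc0q1_9_s.snd h1 h2) (enc_rat _ 8 25)) (pr_case (pr_addc (kc0q1_9_s.snd h1 h2) (enc_rat _ 41 100)) (pr_add (pr_addc (pr_scale 10193 30000 (kc0q1_9_s.snd h1 h2)) (enc_rat _ 10193 60000)) (pr_cmul (enc_norm (kc0q1_3.enc h1.l h2)) (pr_norm (pr_addc (pr_scale 20897 1800 (kc0q1_9_s.snd h1 h2)) (enc_rat _ 20897 3600))))) (pr_add (pr_addc (pr_scale 7919 18000 (kc0q1_9_s.snd h1 h2)) (enc_rat _ 949303 4500000)) (pr_cmul (enc_norm (kc0q1_3.enc h1.l h2)) (pr_norm (pr_addc (pr_scale 144481 9000 (kc0q1_9_s.snd h1 h2)) (enc_rat _ 3432043 450000)))))) (pr_case (pr_addc (kc0q1_9_s.snd h1 h2) (enc_rat _ 23 100)) (pr_add (pr_addc (pr_scale 30241 9000 (kc0q1_9_s.snd h1 h2)) (enc_rat _ 5154343 4500000)) (pr_cmul (enc_norm (kc0q1_3.enc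 h1.l h2)) (pr_norm (pr_addc (pr_scale 82907 4500 (kc0q1_9_s.snd h1 h2)) (enc_rat _ 3773371 450000))))) (pr_case (pr_addc (kc0q1_9_s.snd h1 h2) (enc_rat _ 7 50)) (pr_add (pr_addc (pr_scale 376037 45000 (kc0q1_9_s.snd h1 h2)) (enc_rat _ 10325479 4500000)) (pr_cmul (enc_norm (kc0q1_3.enc h1.l h2)) (pr_norm (pr_addc (pr_scale 44131 2250 (kc0q1_9_s.snd h1 h2)) (enc_rat _ 487067 56250))))) (pr_add (pr_addc (pr_scale 816452603719 80960000000 (kc0q1_9_s.snd h1 h2)) (enc_rat _ 10267783810033 4048000000000)) (pr_cmul (enc_norm (kc0q1_3.enc h1.l h2)) (pr_norm (pr_subr 6315264350941 1840000000000 (pr_neg (pr_scale 2456465421563 36800000000 (kc0q1_9_s.snd h1 h2)))))))))) (pr_case (pr_subr 37 763 (kc0q1_9_s.snd h1 h2)) (pr_sub (pr_add (pr_cadd (enc_rat _ 3 4) (pr_scale 3 2 h1)) (pr_scale 3 4 (pr_mul (pr_norm (pr_mul h1 (pr_nd (pr_inv (c1g_s.snd h1))))) (gug_s.snd h1))))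 (pr_mul (kcg_s.snd (pr_norm (kc0q1_9_s.snd h1 h2)) h2) (pr_norm (pr_add (gug_s.snd h1) (pr_nat 2 (c1g_s.snd h1)))))) (pr_case (pr_subr 23 100 (kc0q1_9_s.snd h1 h2)) (pr_case (pr_subr 7 50 (kc0q1_9_s.snd h1 h2)) (pr_add (pr_csub (enc_rat _ 79770611580249 34910000000000) (pr_scale 6153830758607 698200000000 (kc0q1_9_s.snd h1 h2))) (pr_cmul (enc_norm (kc0q1_3.enc h1.l h2)) (pr_norm (pr_csub (enc_rat _ 530469 1745500) (pr_scale 10939131 1745500 (kc0q1_9_s.snd h1 h2)))))) (pr_add (pr_csub (enc_rat _ 2282677 1000000) (pr_scale 8797 1000 (kc0q1_9_s.snd h1 h2))) (pr_cmul (enc_norm (kc0q1_3.enc h1.l h2)) (pr_norm (pr_subr 13561 28125 (pr_neg (pr_scale 587 900 (kc0q1_9_s.snd h1 h2)))))))) (pr_case (pr_subr 8 25 (kc0q1_9_s.snd h1 h2)) (pr_add (pr_csub (enc_rat _ 20381483 9000000) (pr_scale 39233 4500 (kc0q1_9_s.snd h1 h2))) (pr_cmul (enc_norm (kc0q1_3.enc h1.l h2)) (pr_norm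 (pr_subr 1550447 450000 (pr_scale 27521 2250 (kc0q1_9_s.snd h1 h2)))))) (pr_case (pr_subr 41 100 (kc0q1_9_s.snd h1 h2)) (pr_add (pr_subr 20557493 9000000 (pr_scale 494683 90000 (kc0q1_9_s.snd h1 h2))) (pr_cmul (enc_norm (kc0q1_3.enc h1.l h2)) (pr_norm (pr_csub (enc_rat _ 2578433 450000) (pr_scale 147971 9000 (kc0q1_9_s.snd h1 h2)))))) (pr_add (pr_subr 3061 18000 (pr_scale 3061 9000 (kc0q1_9_s.snd h1 h2))) (pr_cmul (enc_norm (kc0q1_3.enc h1.l h2)) (pr_norm (pr_subr 20221 3600 (pr_scale 20221 1800 (kc0q1_9_s.snd h1 h2))))))))))))⟩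
noncomputable def yag_s : Sl1 yag := ⟨_, fun h1 => (pr_sqrt (pr_scale 4 3 (pr_csub (enc_pnc _ 1) (pr_sq h1))))⟩
noncomputable def kfc02_s : Sl2 kfc02 := ⟨_, fun h1 h2 => (pr_norm (pr_add h1 (pr_mul (pr_norm (pr_subn 1 (yag_s.snd h1))) (kcg_s.snd (pr_nd (pr_neg h1)) h2))))⟩
noncomputable def lc02_7_s : Sl2 lc02_7 := ⟨_, fun h1 h2 => (pr_scale 3 4 (yag_s.snd h1))⟩
noncomputable def lc02_8_s : Sl2 lc02_8 := ⟨_, fun h1 h2 => (pr_half h1)⟩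
noncomputable def lc02_s : Sl2 lc02 := ⟨_, fun h1 h2 => (pr_norm (pr_sub (txg_s.snd (pr_nd (pr_neg h1)) (pr_norm (pr_add (lc02_7_s.snd h1 h2) (lc02_8_s.snd h1 h2))) h2) (txg_s.snd h1 (pr_norm (pr_sub (lc02_7_s.snd h1 h2) (lc02_8_s.snd h1 h2))) h2)))⟩
noncomputable def kcc02_s : Sl2 kcc02 := ⟨_, fun h1 h2 => (pr_norm (pr_case (pr_subr 1 5 h1) (pr_case (pr_subr 1 10 h1) (pr_add (pr_scale 5111 20000 h1) (pr_cmul (enc_norm (kcc02_4.enc h1.l h2)) (pr_nd (pr_scale 23233 10000 h1)))) (pr_add (pr_csub (enc_rat _ 916 15625) (pr_scale 33069 100000 h1)) (pr_cmul (enc_norm (kcc02_4.enc h1.l h2)) (pr_norm (pr_addc (pr_scale 383 2000 h1) (enc_rat _ 10659 50000)))))) (pr_case (pr_subr 3 10 h1) (pr_add (pr_csub (enc_rat _ 6383 500000) (pr_scale 507 5000 h1)) (pr_cmul (enc_norm (kcc02_4.enc h1.l h2)) (pr_norm (pr_subr 5089 10000 (pr_scale 38019 10000 h1))))) (pr_case (pr_subr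 2 5 h1) (pr_add (pr_subr 34483 200000 (pr_scale 51587 100000 h1)) (pr_cmul (enc_norm (kcc02_4.enc h1.l h2)) (pr_norm (pr_subr 1217 1250 (pr_scale 53509 10000 h1))))) (pr_add (pr_csub (enc_rat _ 33933 200000) (pr_scale 33933 100000 h1)) (pr_cmul (enc_norm (kcc02_4.enc h1.l h2)) (pr_norm (pr_csub (enc_rat _ 29169 5000) (pr_scale 29169 2500 h1)))))))))⟩
noncomputable def swg_s : Sl1 swg := ⟨_, fun h1 => (pr_sqrt (pr_csub (enc_pnc _ 1) (pr_scale 3 4 (pr_sq (pr_norm (pr_subn 1 h1))))))⟩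
noncomputable def cv1m_s : Sl1 cv1m := ⟨_, fun h1 => (pr_norm (pr_add (pr_scale 23 25 (c1g_s.snd h1)) (pr_scale 2 25 (pr_addc (swg_s.snd h1) (enc_rat _ 1 2)))))⟩
noncomputable def bf1q0_s : Sl2 bf1q0 := ⟨_, fun h1 h2 => (pr_norm (pr_case (pr_subr 3 10 h1) (pr_case (pr_subr 1 10 h1) (pr_add (pr_csub (enc_pnc _ 1) (pr_scale 2839 3125 h1)) (pr_cmul (enc_norm (bf1q0_3.enc h1.l h2)) (pr_nd (pr_scale 209 2500 h1)))) (pr_case (pr_subr 1 5 h1) (pr_add (pr_csub (enc_rat _ 106669 100000) (pr_scale 78769 50000 h1)) (pr_cmul (enc_norm (bf1q0_3.enc h1.l h2)) (pr_norm (pr_csub (enc_rat _ 511 50000) (pr_scale 93 5000 h1))))) (pr_add (pr_csub (enc_rat _ 144597 125000) (pr_scale 202581 100000 h1)) (pr_cmul (enc_norm (bf1q0_3.enc h1.l h2)) (pr_norm (pr_csub (enc_rat _ 1729 10000) (pr_scale 104 125 h1))))))) (pr_case (pr_subr 79 200 h1) (pr_add (pr_csub (enc_rat _ 21937587 19000000)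 (pr_scale 95883 47500 h1)) (pr_cmul (enc_norm (bf1q0_3.enc h1.l h2)) (pr_norm (pr_csub (enc_rat _ 1009 7600) (pr_scale 6633 9500 h1))))) (pr_case (pr_subr 453 1000 h1) (pr_add (pr_csub (enc_rat _ 31321813 29000000) (pr_scale 26533 14500 h1)) (pr_cmul (enc_norm (bf1q0_3.enc h1.l h2)) (pr_norm (pr_subr 515549 5800000 (pr_neg (pr_scale 159 1160 h1)))))) (pr_add (pr_csub (enc_rat _ 25169801 23500000) (pr_scale 85069 47000 h1)) (pr_cmul (enc_norm (bf1q0_3.enc h1.l h2)) (pr_norm (pr_subr 93269 940000 (pr_neg (pr_scale 537 4700 h1))))))))))⟩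
noncomputable def kf1q0_s : Sl2 kf1q0 := ⟨_, fun h1 h2 => (pr_norm (pr_mul (cv1m_s.snd h1) (bf1q0_s.snd h1 h2)))⟩
noncomputable def bx1q0_s : Sl2 bx1q0 := ⟨_, fun h1 h2 => (pr_norm (pr_case (pr_subr 3 10 h1) (pr_case (pr_subr 1 10 h1) (pr_sub (pr_scale 339 5000 h1) (pr_cmul (enc_norm (bx1q0_3.enc h1.l h2)) (pr_nd (pr_scale 489 2500 h1)))) (pr_case (pr_subr 1 5 h1) (pr_add (pr_addc (pr_scale 2651 50000 h1) (enc_rat _ 739 500000)) (pr_cmul (enc_norm (bx1q0_3.enc h1.l h2)) (pr_norm (pr_csub (enc_rat _ 3757 100000) (pr_scale 5713 10000 h1))))) (pr_add (pr_addc (pr_scale 4343 100000 h1) (enc_rat _ 849 250000)) (pr_cmul (enc_norm (bx1q0_3.enc h1.l h2)) (pr_norm (pr_subr 12719 100000 (pr_scale 101 400 h1))))))) (pr_case (pr_subr 79 200 h1) (pr_add (pr_subr 214929 3800000 (pr_scale 2889 11875 h1)) (pr_cmul (enc_norm (bx1q0_3.enc h1.l h2)) (pr_norm (pr_subr 108419 475000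 (pr_scale 5599 9500 h1))))) (pr_case (pr_subr 453 1000 h1) (pr_add (pr_subr 5422389 58000000 (pr_scale 19533 58000 h1)) (pr_cmul (enc_norm (bx1q0_3.enc h1.l h2)) (pr_norm (pr_subr 703 145000 (pr_scale 69 2900 h1))))) (pr_add (pr_subr 307851 2937500 (pr_scale 8501 23500 h1)) (pr_cmul (enc_norm (bx1q0_3.enc h1.l h2)) (pr_norm (pr_csub (enc_rat _ 3452551 4700000) (pr_scale 378 235 h1)))))))))⟩
noncomputable def l1q0_s : Sl2 l1q0 := ⟨_, fun h1 h2 => (pr_norm (pr_mul (cv1m_s.snd h1) (bx1q0_s.snd h1 h2)))⟩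
noncomputable def bd1q0_s : Sl2 bd1q0 := ⟨_, fun h1 h2 => (pr_norm (pr_add (pr_scale 117583 500000 h1) (pr_cmul (enc_norm (enc_subr 72 125 h2)) (pr_nd (pr_scale 178823 25000 h1)))))⟩
noncomputable def kc1q0_s : Sl2 kc1q0 := ⟨_, fun h1 h2 => (pr_norm (pr_mul (cv1m_s.snd h1) (bd1q0_s.snd h1 h2)))⟩
noncomputable def bf1q1_s : Sl2 bf1q1 := ⟨_, fun h1 h2 => (pr_norm (pr_case (pr_subr 7 10 h1) (pr_case (pr_subr 3 5 h1) (pr_add (pr_subr 555379 500000 (pr_scale 202557 100000 h1)) (pr_cmul (enc_norm (bf1q1_3.enc h1.l h2)) (pr_norm (pr_csub (enc_rat _ 1167 6250) (pr_scale 3871 10000 h1))))) (pr_add (pr_subr 486511 500000 (pr_scale 179601 100000 h1)) (pr_cmul (enc_norm (bf1q1_3.enc h1.l h2)) (pr_norm (pr_csub (enc_rat _ 6279 12500) (pr_scale 9131 10000 h1)))))) (pr_case (pr_subr 4 5 h1) (pr_add (pr_subr 257609 250000 (pr_scale 187803 100000 h1)) (pr_cmul (enc_norm (bf1q1_3.enc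 h1.l h2)) (pr_norm (pr_csub (enc_rat _ 25459 100000) (pr_scale 699 1250 h1))))) (pr_case (pr_subr 9 10 h1) (pr_add (pr_subr 360321 250000 (pr_scale 239159 100000 h1)) (pr_cmul (enc_norm (bf1q1_3.enc h1.l h2)) (pr_norm (pr_subr 2949 4000 (pr_scale 3403 5000 h1))))) (pr_add (pr_subr 714603 500000 (pr_scale 237817 100000 h1)) (pr_cmul (enc_norm (bf1q1_3.enc h1.l h2)) (pr_norm (pr_subr 130209 100000 (pr_scale 6541 5000 h1)))))))))⟩
noncomputable def kf1q1_s : Sl2 kf1q1 := ⟨_, fun h1 h2 => (pr_norm (pr_mul (cv1m_s.snd h1) (bf1q1_s.snd h1 h2)))⟩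
noncomputable def bx1q1_s : Sl2 bx1q1 := ⟨_, fun h1 h2 => (pr_norm (pr_case (pr_subr 7 10 h1) (pr_case (pr_subr 3 5 h1) (pr_add (pr_subr 3581 40000 (pr_scale 3979 12500 h1)) (pr_cmul (enc_norm (bx1q1_3.enc h1.l h2)) (pr_norm (pr_subr 8851 100000 (pr_scale 19 250 h1))))) (pr_add (pr_addc (pr_scale 6733 100000 h1) (enc_rat _ 61069 1000000)) (pr_cmul (enc_norm (bx1q1_3.enc h1.l h2)) (pr_norm (pr_subr 73807 100000 (pr_scale 5793 5000 h1)))))) (pr_case (pr_subr 4 5 h1) (pr_add (pr_csub (enc_rat _ 123999 1000000) (pr_scale 2257 100000 h1)) (pr_cmul (enc_norm (bx1q1_3.enc h1.l h2)) (pr_norm (pr_subr 5287 10000 (pr_scale 1719 2000 h1))))) (pr_case (pr_subr 9 10 h1) (pr_add (pr_csub (enc_rat _ 51963 200000) (pr_scale 9617 50000 h1)) (pr_cmul (enc_norm (bx1q1_3.enc h1.l h2)) (pr_norm (pr_csub (enc_rat _ 20537 50000) (pr_scale 787 2500 h1))))) (pr_add (pr_csub (enc_rat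 _ 58161 100000) (pr_scale 54989 100000 h1)) (pr_cmul (enc_norm (bx1q1_3.enc h1.l h2)) (pr_norm (pr_subr 2779 12500 (pr_scale 1943 5000 h1)))))))))⟩
noncomputable def l1q1_s : Sl2 l1q1 := ⟨_, fun h1 h2 => (pr_norm (pr_mul (cv1m_s.snd h1) (bx1q1_s.snd h1 h2)))⟩
noncomputable def bd1q1_s : Sl2 bd1q1 := ⟨_, fun h1 h2 => (pr_norm (pr_add (pr_csub (enc_rat _ 10069 1600) (pr_scale 3482189 500000 h1)) (pr_cmul (enc_norm (enc_subr 72 125 h2)) (pr_norm (pr_csub (enc_rat _ 110559 100000) (pr_scale 7493 3125 h1))))))⟩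
noncomputable def kc1q1_s : Sl2 kc1q1 := ⟨_, fun h1 h2 => (pr_norm (pr_mul (cv1m_s.snd h1) (bd1q1_s.snd h1 h2)))⟩
noncomputable def cv1p_s : Sl1 cv1p := ⟨_, fun h1 => (pr_norm (pr_add (pr_scale 23 25 (c1g_s.snd h1)) (pr_scale 2 25 (pr_subr 1 2 (swg_s.snd h1)))))⟩
noncomputable def kf1q2_9_s : Sl2 kf1q2_9 := ⟨_, fun h1 h2 => (pr_csub (enc_pnc _ 1) (pr_scale 9701419 5000000 (pr_subn 1 h1)))⟩
noncomputable def kf1q2_s : Sl2 kf1q2 := ⟨_, fun h1 h2 => (pr_norm (pr_mul (cv1p_s.snd h1) (pr_norm (pr_case (pr_csub (enc_pnc _ 1) (pr_scale 3 4 (pr_sq h1))) (pr_add (kf1q2_9_s.snd h1 h2) (pr_case (pr_subr 127 100 h1) (pr_casec1 (pr_subr 231 200 h1) (enc_pnc _ 0) (pr_add (pr_csub (enc_rat _ 2897433 1150000) (pr_scale 12543 5750 h1)) (pr_cmul (enc_norm (kf1q2_4.enc h1.l h2)) (pr_norm (pr_csub (enc_rat _ 231231 1150000) (pr_scale 1001 5750 h1)))))) (pr_case (pr_subr 139 100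 h1) (pr_add (pr_csub (enc_rat _ 157327 62500) (pr_scale 5449 2500 h1)) (pr_cmul (enc_norm (kf1q2_4.enc h1.l h2)) (pr_norm (pr_csub (enc_rat _ 53647 600000) (pr_scale 517 6000 h1))))) (pr_add (pr_csub (enc_rat _ 432406 171875) (pr_scale 59911 27500 h1)) (pr_cmul (enc_norm (kf1q2_4.enc h1.l h2)) (pr_norm (pr_csub (enc_rat _ 44861 1100000) (pr_scale 563 11000 h1)))))))) (pr_add (kf1q2_9_s.snd h1 h2) (pr_case (pr_subr 1 4 (c1g_s.snd h1)) (pr_case (pr_subr 1 10 (c1g_s.snd h1)) (pr_case (pr_subr 1 20 (c1g_s.snd h1)) (pr_sub (pr_neg (pr_scale 7951 50000 (c1g_s.snd h1))) (pr_cmul (enc_norm (kf1q2_4.enc h1.l h2)) (pr_nd (pr_scale 18427 5000 (c1g_s.snd h1))))) (pr_add (pr_csub (enc_rat _ 3757 250000) (pr_scale 22979 50000 (c1g_s.snd h1))) (pr_cmul (enc_norm (kf1q2_4.enc h1.l h2)) (pr_norm (pr_subr 483 100000 (pr_neg (pr_scale 2243 625 (c1g_s.snd h1)))))))) (pr_case (pr_subr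 3 20 (c1g_s.snd h1)) (pr_add (pr_subr 1693 500000 (pr_neg (pr_scale 3443 12500 (c1g_s.snd h1)))) (pr_cmul (enc_norm (kf1q2_4.enc h1.l h2)) (pr_norm (pr_subr 2513 100000 (pr_neg (pr_scale 16929 5000 (c1g_s.snd h1))))))) (pr_case (pr_subr 1 5 (c1g_s.snd h1)) (pr_add (pr_subr 104657 1000000 (pr_scale 3997 10000 (c1g_s.snd h1))) (pr_cmul (enc_norm (kf1q2_4.enc h1.l h2)) (pr_norm (pr_subr 96239 100000 (pr_scale 14313 5000 (c1g_s.snd h1)))))) (pr_add (pr_subr 210549 1000000 (pr_scale 23229 25000 (c1g_s.snd h1))) (pr_cmul (enc_norm (kf1q2_4.enc h1.l h2)) (pr_norm (pr_subr 105783 100000 (pr_scale 16699 5000 (c1g_s.snd h1))))))))) (pr_case (pr_subr 7 20 (c1g_s.snd h1)) (pr_case (pr_subr 3 10 (c1g_s.snd h1)) (pr_add (pr_subr 54641 250000 (pr_scale 48061 50000 (c1g_s.snd h1))) (pr_cmul (enc_norm (kf1q2_4.enc h1.l h2)) (pr_norm (pr_subr 65523 100000 (pr_scale 8647 5000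 (c1g_s.snd h1)))))) (pr_add (pr_subr 20033 250000 (pr_scale 24989 50000 (c1g_s.snd h1))) (pr_cmul (enc_norm (kf1q2_4.enc h1.l h2)) (pr_norm (pr_subr 56409 100000 (pr_scale 891 625 (c1g_s.snd h1))))))) (pr_case (pr_subr 2 5 (c1g_s.snd h1)) (pr_add (pr_csub (enc_rat _ 104437 1000000) (pr_scale 689 25000 (c1g_s.snd h1))) (pr_cmul (enc_norm (kf1q2_4.enc h1.l h2)) (pr_norm (pr_subr 23047 100000 (pr_scale 1181 2500 (c1g_s.snd h1)))))) (pr_case (pr_subr 9 20 (c1g_s.snd h1)) (pr_add (pr_csub (enc_rat _ 406509 1000000) (pr_scale 39137 50000 (c1g_s.snd h1))) (pr_cmul (enc_norm (kf1q2_4.enc h1.l h2)) (pr_norm (pr_subr 2483 20000 (pr_scale 1033 5000 (c1g_s.snd h1)))))) (pr_add (pr_csub (enc_rat _ 13569 25000) (pr_scale 13569 12500 (c1g_s.snd h1))) (pr_cmul (enc_norm (kf1q2_4.enc h1.l h2)) (pr_norm (pr_subr 1559 5000 (pr_scale 1559 2500 (c1g_s.snd h1)))))))))))))))⟩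
noncomputable def l1q2_s : Sl2 l1q2 := ⟨_, fun h1 h2 => (pr_norm (pr_mul (cv1p_s.snd h1) (pr_norm (pr_case (pr_csub (enc_pnc _ 1) (pr_scale 3 4 (pr_sq h1))) (pr_addc (pr_cadd (l1q2_11.enc h1.l h2) (pr_case (pr_subr 127 100 h1) (pr_casec1 (pr_subr 231 200 h1) (enc_pnc _ 0) (pr_add (pr_subr 8849841 2875000 (pr_scale 38311 14375 h1)) (pr_cmul (enc_norm (l1q2_4.enc h1.l h2)) (pr_norm (pr_csub (enc_rat _ 3608451 575000) (pr_scale 15621 2875 h1)))))) (pr_case (pr_subr 139 100 h1) (pr_add (pr_subr 6156251 2000000 (pr_scale 53301 20000 h1)) (pr_cmul (enc_norm (l1q2_4.enc h1.l h2)) (pr_norm (pr_csub (enc_rat _ 7166483 1200000) (pr_scale 62333 12000 h1))))) (pr_add (pr_subr 16930559 5500000 (pr_scale 18323 6875 h1)) (pr_cmul (enc_norm (l1q2_4.enc h1.l h2)) (pr_norm (pr_csub (enc_rat _ 25857 4400) (pr_scale 56383 11000 h1)))))))) (epg.enc h2)) (pr_add (pr_cadd (l1q2_11.enc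 h1.l h2) (pr_case (pr_subr 1 4 (c1g_s.snd h1)) (pr_case (pr_subr 1 10 (c1g_s.snd h1)) (pr_case (pr_subr 1 20 (c1g_s.snd h1)) (pr_sub (pr_scale 1593 6250 (c1g_s.snd h1)) (pr_cmul (enc_norm (l1q2_4.enc h1.l h2)) (pr_nd (pr_scale 31 5000 (c1g_s.snd h1))))) (pr_add (pr_subr 14189 1000000 (pr_scale 26933 50000 (c1g_s.snd h1))) (pr_cmul (enc_norm (l1q2_4.enc h1.l h2)) (pr_norm (pr_subr 14789 100000 (pr_scale 7379 2500 (c1g_s.snd h1))))))) (pr_case (pr_subr 3 20 (c1g_s.snd h1)) (pr_add (pr_subr 62613 1000000 (pr_scale 10229 10000 (c1g_s.snd h1))) (pr_cmul (enc_norm (l1q2_4.enc h1.l h2)) (pr_norm (pr_subr 733 20000 (pr_scale 2299 1250 (c1g_s.snd h1)))))) (pr_case (pr_subr 1 5 (c1g_s.snd h1)) (pr_add (pr_subr 102069 1000000 (pr_scale 64297 50000 (c1g_s.snd h1))) (pr_cmul (enc_norm (l1q2_4.enc h1.l h2)) (pr_norm (pr_addc (pr_scale 7931 5000 (c1g_s.snd h1)) (enc_rat _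 13 10000))))) (pr_add (pr_subr 30821 200000 (pr_scale 38653 25000 (c1g_s.snd h1))) (pr_cmul (enc_norm (l1q2_4.enc h1.l h2)) (pr_norm (pr_subr 4371 10000 (pr_scale 18891 5000 (c1g_s.snd h1))))))))) (pr_case (pr_subr 7 20 (c1g_s.snd h1)) (pr_case (pr_subr 3 10 (c1g_s.snd h1)) (pr_add (pr_subr 7539 40000 (pr_scale 4209 2500 (c1g_s.snd h1))) (pr_cmul (enc_norm (l1q2_4.enc h1.l h2)) (pr_norm (pr_subr 5413 20000 (pr_scale 7781 2500 (c1g_s.snd h1)))))) (pr_add (pr_subr 17697 200000 (pr_scale 13503 10000 (c1g_s.snd h1))) (pr_cmul (enc_norm (l1q2_4.enc h1.l h2)) (pr_norm (pr_subr 6391 20000 (pr_scale 16377 5000 (c1g_s.snd h1))))))) (pr_case (pr_subr 2 5 (c1g_s.snd h1)) (pr_add (pr_addc (pr_scale 8689 10000 (c1g_s.snd h1)) (enc_rat _ 16001 200000)) (pr_cmul (enc_norm (l1q2_4.enc h1.l h2)) (pr_norm (pr_subr 16051 50000 (pr_scale 8199 2500 (c1g_s.snd h1)))))) (pr_case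 (pr_subr 9 20 (c1g_s.snd h1)) (pr_add (pr_addc (pr_scale 22627 50000 (c1g_s.snd h1)) (enc_rat _ 246549 1000000)) (pr_cmul (enc_norm (l1q2_4.enc h1.l h2)) (pr_norm (pr_addc (pr_scale 292 125 (c1g_s.snd h1)) (enc_rat _ 2821 50000))))) (pr_add (pr_addc (pr_scale 3072103 12500000 (c1g_s.snd h1)) (enc_rat _ 84899073 250000000)) (pr_cmul (enc_norm (l1q2_4.enc h1.l h2)) (pr_norm (pr_addc (pr_scale 46515897 25000000 (c1g_s.snd h1)) (enc_rat _ 135166927 500000000)))))))))) (pr_cmul (epg.enc h2) (pr_norm (pr_csub (enc_pnc _ 1) (pr_nat 2 (c1g_s.snd h1))))))))))⟩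
noncomputable def kc1q2_s : Sl2 kc1q2 := ⟨_, fun h1 h2 => (pr_norm (pr_mul (cv1p_s.snd h1) (pr_norm (pr_case (pr_csub (enc_pnc _ 1) (pr_scale 3 4 (pr_sq h1))) (pr_cadd (kc1q2_8.enc h1.l h2) (pr_casec1 (pr_subr 231 200 h1) (enc_pnc _ 0) (pr_add (pr_subr 148853397 11500000 (pr_scale 644387 57500 h1)) (pr_cmul (enc_norm (kc1q2_4.enc h1.l h2)) (pr_norm (pr_csub (enc_rat _ 28874153 575000) (pr_scale 374989 8625 h1))))))) (pr_cadd (kc1q2_8.enc h1.l h2) (pr_case (pr_subr 1 4 (c1g_s.snd h1)) (pr_sub (pr_neg (pr_scale 126111 250000 (c1g_s.snd h1))) (pr_cmul (enc_norm (kc1q2_4.enc h1.l h2)) (pr_nd (pr_scale 76593 25000 (c1g_s.snd h1))))) (pr_add (pr_csub (enc_rat _ 52 15625) (pr_scale 129439 250000 (c1g_s.snd h1))) (pr_cmul (enc_norm (kc1q2_4.enc h1.l h2)) (pr_norm (pr_csub (enc_rat _ 9893 12500) (pr_scale 155737 25000 (c1g_s.snd h1))))))))))))⟩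
noncomputable def cv1r_s : Sl1 cv1r := ⟨_, fun h1 => (pr_norm (pr_scale 2 25 (pr_subr 1 2 (swg_s.snd h1))))⟩
noncomputable def bf1q3_s : Sl2 bf1q3 := ⟨_, fun h1 h2 => (pr_norm (pr_case (pr_subr 17 10 h1) (pr_case (pr_subr 1547 1000 h1) (pr_add (pr_csub (enc_rat _ 4998211 11750000) (pr_scale 4467 23500 h1)) (pr_cmul (enc_norm (bf1q3_3.enc h1.l h2)) (pr_norm (pr_csub (enc_rat _ 118178989 4700000) (pr_scale 18437 1175 h1))))) (pr_case (pr_subr 321 200 h1) (pr_add (pr_csub (enc_rat _ 12339927 29000000) (pr_scale 1103 5800 h1)) (pr_cmul (enc_norm (bf1q3_3.enc h1.l h2)) (pr_norm (pr_csub (enc_rat _ 145851561 5800000) (pr_scale 91017 5800 h1))))) (pr_add (pr_csub (enc_rat _ 126393 296875) (pr_scale 452 2375 h1)) (pr_cmul (enc_norm (bf1q3_3.enc h1.l h2)) (pr_norm (pr_csub (enc_rat _ 47778777 1900000) (pr_scale 149079 9500 h1))))))) (pr_case (pr_subr 9 5 h1) (pr_add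 (pr_csub (enc_rat _ 212961 500000) (pr_scale 9521 50000 h1)) (pr_cmul (enc_norm (bf1q3_3.enc h1.l h2)) (pr_norm (pr_csub (enc_rat _ 1256807 50000) (pr_scale 156863 10000 h1))))) (pr_case (pr_subr 19 10 h1) (pr_add (pr_csub (enc_rat _ 212871 500000) (pr_scale 2379 12500 h1)) (pr_cmul (enc_norm (bf1q3_3.enc h1.l h2)) (pr_norm (pr_csub (enc_rat _ 78497 3125) (pr_scale 9798 625 h1))))) (pr_add (pr_csub (enc_rat _ 106369 250000) (pr_scale 9509 50000 h1)) (pr_cmul (enc_norm (bf1q3_3.enc h1.l h2)) (pr_norm (pr_csub (enc_rat _ 1255287 50000) (pr_scale 78349 5000 h1)))))))))⟩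
noncomputable def kf1q3_s : Sl2 kf1q3 := ⟨_, fun h1 h2 => (pr_norm (pr_mulz (fun ht => cv1r_two (enc_two h1.r ht)) (cv1r_s.snd h1) (bf1q3_s.snd h1 h2)))⟩
noncomputable def bx1q3_s : Sl2 bx1q3 := ⟨_, fun h1 h2 => (pr_norm (pr_case (pr_subr 17 10 h1) (pr_case (pr_subr 1547 1000 h1) (pr_add (pr_subr 27643507 47000000 (pr_scale 723 1175 h1)) (pr_cmul (enc_norm (bx1q3_3.enc h1.l h2)) (pr_norm (pr_subr 38191893 4700000 (pr_scale 24317 4700 h1))))) (pr_case (pr_subr 321 200 h1) (pr_add (pr_subr 34120209 58000000 (pr_scale 35693 58000 h1)) (pr_cmul (enc_norm (bx1q3_3.enc h1.l h2)) (pr_norm (pr_subr 11785617 1450000 (pr_scale 3752 725 h1))))) (pr_add (pr_subr 5590473 9500000 (pr_scale 29237 47500 h1)) (pr_cmul (enc_norm (bx1q3_3.enc h1.l h2)) (pr_norm (pr_subr 3860313 475000 (pr_scale 24579 4750 h1))))))) (pr_case (pr_subr 9 5 h1) (pr_add (pr_subr 588529 1000000 (pr_scale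 12311 20000 h1)) (pr_cmul (enc_norm (bx1q3_3.enc h1.l h2)) (pr_norm (pr_subr 40593 5000 (pr_scale 3231 625 h1))))) (pr_case (pr_subr 19 10 h1) (pr_add (pr_subr 588313 1000000 (pr_scale 61543 100000 h1)) (pr_cmul (enc_norm (bx1q3_3.enc h1.l h2)) (pr_norm (pr_subr 25329 3125 (pr_scale 25811 5000 h1))))) (pr_add (pr_subr 587971 1000000 (pr_scale 2461 4000 h1)) (pr_cmul (enc_norm (bx1q3_3.enc h1.l h2)) (pr_norm (pr_subr 809483 100000 (pr_scale 51567 10000 h1)))))))))⟩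
noncomputable def l1q3_s : Sl2 l1q3 := ⟨_, fun h1 h2 => (pr_norm (pr_mulz (fun ht => cv1r_two (enc_two h1.r ht)) (cv1r_s.snd h1) (bx1q3_s.snd h1 h2)))⟩
noncomputable def bd1q3_s : Sl2 bd1q3 := ⟨_, fun h1 h2 => (pr_norm (pr_add (pr_csub (enc_rat _ 4000041 1000000) (pr_scale 7 100000 h1)) (pr_cmul (enc_norm (enc_subr 72 125 h2)) (pr_norm (pr_subr 48723 50000 (pr_scale 253 5000 h1))))))⟩
noncomputable def kc1q3_s : Sl2 kc1q3 := ⟨_, fun h1 h2 => (pr_norm (pr_mulz (fun ht => cv1r_two (enc_two h1.r ht)) (cv1r_s.snd h1) (bd1q3_s.snd h1 h2)))⟩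
noncomputable def cv2m_s : Sl1 cv2m := ⟨_, fun h1 => (pr_norm (pr_add (pr_scale 3 4 (c1g_s.snd h1)) (pr_scale 1 4 (pr_addc (swg_s.snd h1) (enc_rat _ 1 2)))))⟩
noncomputable def bf2q0_s : Sl2 bf2q0 := ⟨_, fun h1 h2 => (pr_norm (pr_case (pr_subr 13 50 h1) (pr_case (pr_subr 13 100 h1) (pr_add (pr_csub (enc_pnc _ 1) (pr_scale 9877 8125 h1)) (pr_cmul (enc_norm (bf2q0_3.enc h1.l h2)) (pr_nd (pr_scale 5331 6500 h1)))) (pr_add (pr_csub (enc_rat _ 274231 250000) (pr_scale 4903 2500 h1)) (pr_cmul (enc_norm (bf2q0_3.enc h1.l h2)) (pr_norm (pr_csub (enc_rat _ 5633 50000) (pr_scale 151 3250 h1)))))) (pr_case (pr_subr 79 200 h1) (pr_add (pr_csub (enc_rat _ 3750953 3375000) (pr_scale 10891 5400 h1)) (pr_cmul (enc_norm (bf2q0_3.enc h1.l h2)) (pr_norm (pr_csub (enc_rat _ 184933 450000) (pr_scale 1343 1125 h1))))) (pr_case (pr_subr 453 1000 h1) (pr_add (pr_csub (enc_rat _ 31988393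 29000000) (pr_scale 14469 7250 h1)) (pr_cmul (enc_norm (bf2q0_3.enc h1.l h2)) (pr_norm (pr_csub (enc_rat _ 1305963 2900000) (pr_scale 3751 2900 h1))))) (pr_add (pr_csub (enc_rat _ 25874509 23500000) (pr_scale 93591 47000 h1)) (pr_cmul (enc_norm (bf2q0_3.enc h1.l h2)) (pr_norm (pr_csub (enc_rat _ 1088811 2350000) (pr_scale 3107 2350 h1)))))))))⟩
noncomputable def kf2q0_s : Sl2 kf2q0 := ⟨_, fun h1 h2 => (pr_norm (pr_mul (cv2m_s.snd h1) (bf2q0_s.snd h1 h2)))⟩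
noncomputable def bx2q0_s : Sl2 bx2q0 := ⟨_, fun h1 h2 => (pr_norm (pr_case (pr_subr 13 50 h1) (pr_case (pr_subr 13 100 h1) (pr_sub (pr_scale 14921 130000 h1) (pr_cmul (enc_norm (bx2q0_3.enc h1.l h2)) (pr_nd (pr_scale 1349 13000 h1)))) (pr_add (pr_subr 2521 1000000 (pr_scale 8721 65000 h1)) (pr_cmul (enc_norm (bx2q0_3.enc h1.l h2)) (pr_norm (pr_subr 47 4000 (pr_neg (pr_scale 87 6500 h1))))))) (pr_case (pr_subr 79 200 h1) (pr_add (pr_subr 197503 27000000 (pr_scale 10301 67500 h1)) (pr_cmul (enc_norm (bx2q0_3.enc h1.l h2)) (pr_norm (pr_subr 66289 2700000 (pr_scale 121 3375 h1))))) (pr_case (pr_subr 453 1000 h1) (pr_add (pr_subr 239833 11600000 (pr_scale 10813 58000 h1)) (pr_cmul (enc_norm (bx2q0_3.enc h1.l h2)) (pr_norm (pr_csub (enc_rat _ 1164633 5800000) (pr_scale 3101 5800 h1))))) (pr_add (pr_subr 207461 9400000 (pr_scale 8907 47000 h1)) (pr_cmul (enc_norm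 (bx2q0_3.enc h1.l h2)) (pr_norm (pr_csub (enc_rat _ 581757 2350000) (pr_scale 1499 2350 h1)))))))))⟩
noncomputable def l2q0_s : Sl2 l2q0 := ⟨_, fun h1 h2 => (pr_norm (pr_mul (cv2m_s.snd h1) (bx2q0_s.snd h1 h2)))⟩
noncomputable def bd2q0_s : Sl2 bd2q0 := ⟨_, fun h1 h2 => (pr_norm (pr_sub (pr_cmul (enc_norm (enc_subr 72 125 h2)) (pr_nd (pr_scale 99523 25000 h1))) (pr_scale 161847 100000 h1)))⟩
noncomputable def kc2q0_s : Sl2 kc2q0 := ⟨_, fun h1 h2 => (pr_norm (pr_mul (cv2m_s.snd h1) (bd2q0_s.snd h1 h2)))⟩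
noncomputable def bf2q1_s : Sl2 bf2q1 := ⟨_, fun h1 h2 => (pr_norm (pr_case (pr_subr 67 100 h1) (pr_add (pr_subr 3441813 4250000 (pr_scale 57979 34000 h1)) (pr_cmul (enc_norm (bf2q1_3.enc h1.l h2)) (pr_norm (pr_csub (enc_rat _ 29223 100000) (pr_scale 339 500 h1))))) (pr_case (pr_subr 83 100 h1) (pr_add (pr_subr 6128553 8000000 (pr_scale 26239 16000 h1)) (pr_cmul (enc_norm (bf2q1_3.enc h1.l h2)) (pr_norm (pr_csub (enc_rat _ 382143 1600000) (pr_scale 9573 16000 h1))))) (pr_add (pr_subr 13336137 17000000 (pr_scale 3532 2125 h1)) (pr_cmul (enc_norm (bf2q1_3.enc h1.l h2)) (pr_norm (pr_subr 1274583 1700000 (pr_scale 10077 17000 h1))))))))⟩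
noncomputable def kf2q1_s : Sl2 kf2q1 := ⟨_, fun h1 h2 => (pr_norm (pr_mul (cv2m_s.snd h1) (bf2q1_s.snd h1 h2)))⟩
noncomputable def bx2q1_s : Sl2 bx2q1 := ⟨_, fun h1 h2 => (pr_norm (pr_case (pr_subr 67 100 h1) (pr_add (pr_addc (pr_scale 289 10000 h1) (enc_rat _ 47659 1000000)) (pr_cmul (enc_norm (bx2q1_3.enc h1.l h2)) (pr_norm (pr_subr 180437 1700000 (pr_scale 213 8500 h1))))) (pr_case (pr_subr 83 100 h1) (pr_add (pr_csub (enc_rat _ 1010469 8000000) (pr_scale 7079 80000 h1)) (pr_cmul (enc_norm (bx2q1_3.enc h1.l h2)) (pr_norm (pr_subr 1044981 1600000 (pr_scale 13463 16000 h1))))) (pr_add (pr_subr 36709 1062500 (pr_scale 1119 10625 h1)) (pr_cmul (enc_norm (bx2q1_3.enc h1.l h2)) (pr_norm (pr_subr 329451 850000 (pr_scale 4433 8500 h1))))))))⟩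
noncomputable def l2q1_s : Sl2 l2q1 := ⟨_, fun h1 h2 => (pr_norm (pr_mul (cv2m_s.snd h1) (bx2q1_s.snd h1 h2)))⟩
noncomputable def bd2q1_s : Sl2 bd2q1 := ⟨_, fun h1 h2 => (pr_norm (pr_add (pr_csub (enc_rat _ 85299 15625) (pr_scale 375821 62500 h1)) (pr_cmul (enc_norm (enc_subr 72 125 h2)) (pr_norm (pr_csub (enc_rat _ 1399 100000) (pr_scale 46511 50000 h1))))))⟩
noncomputable def kc2q1_s : Sl2 kc2q1 := ⟨_, fun h1 h2 => (pr_norm (pr_mul (cv2m_s.snd h1) (bd2q1_s.snd h1 h2)))⟩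
noncomputable def cv2p_s : Sl1 cv2p := ⟨_, fun h1 => (pr_norm (pr_add (pr_scale 3 4 (c1g_s.snd h1)) (pr_scale 1 4 (pr_subr 1 2 (swg_s.snd h1)))))⟩
noncomputable def kf2q2_s : Sl2 kf2q2 := ⟨_, fun h1 h2 => (pr_norm (pr_mul (cv2p_s.snd h1) (pr_norm (pr_case (pr_csub (enc_pnc _ 1) (pr_scale 3 4 (pr_sq h1))) (pr_case (pr_subr 127 100 h1) (pr_add (pr_csub (enc_rat _ 29134971 5800000) (pr_scale 110307 29000 h1)) (pr_cmul (enc_norm (kf2q2_4.enc h1.l h2)) (pr_norm (pr_subr 5183269 2900000 (pr_scale 4261 2900 h1))))) (pr_case (pr_subr 69 50 h1) (pr_add (pr_csub (enc_rat _ 10803651 2200000) (pr_scale 20433 5500 h1)) (pr_cmul (enc_norm (kf2q2_4.enc h1.l h2)) (pr_norm (pr_csub (enc_rat _ 1128213 1100000) (pr_scale 4101 5500 h1))))) (pr_add (pr_csub (enc_rat _ 9798917 2000000) (pr_scale 444829 120000 h1)) (pr_cmul (enc_norm (kf2q2_4.enc h1.l h2)) (pr_norm (pr_csub (enc_rat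 _ 71751 40000) (pr_scale 5209 4000 h1))))))) (pr_case (pr_subr 1 4 (c1g_s.snd h1)) (pr_case (pr_subr 1 10 (c1g_s.snd h1)) (pr_case (pr_subr 1 20 (c1g_s.snd h1)) (pr_add (pr_addc (pr_scale 30449 50000 (c1g_s.snd h1)) (enc_rat _ 630861 1000000)) (pr_cmul (enc_norm (kf2q2_4.enc h1.l h2)) (pr_norm (pr_subr 4823 50000 (pr_neg (pr_scale 269 5000 (c1g_s.snd h1))))))) (pr_add (pr_addc (pr_scale 32723 50000 (c1g_s.snd h1)) (enc_rat _ 628587 1000000)) (pr_cmul (enc_norm (kf2q2_4.enc h1.l h2)) (pr_norm (pr_subr 4561 50000 (pr_neg (pr_scale 793 5000 (c1g_s.snd h1)))))))) (pr_case (pr_subr 3 20 (c1g_s.snd h1)) (pr_add (pr_addc (pr_scale 1819 2500 (c1g_s.snd h1)) (enc_rat _ 621273 1000000)) (pr_cmul (enc_norm (kf2q2_4.enc h1.l h2)) (pr_norm (pr_subr 2431 25000 (pr_neg (pr_scale 123 1250 (c1g_s.snd h1))))))) (pr_case (pr_subr 1 5 (c1g_s.snd h1)) (pr_add (pr_addc (pr_scale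 41101 50000 (c1g_s.snd h1)) (enc_rat _ 60711 100000)) (pr_cmul (enc_norm (kf2q2_4.enc h1.l h2)) (pr_norm (pr_subr 5741 50000 (pr_scale 47 2500 (c1g_s.snd h1)))))) (pr_add (pr_addc (pr_scale 9119 10000 (c1g_s.snd h1)) (enc_rat _ 294567 500000)) (pr_cmul (enc_norm (kf2q2_4.enc h1.l h2)) (pr_norm (pr_subr 6727 50000 (pr_scale 587 5000 (c1g_s.snd h1))))))))) (pr_case (pr_subr 7 20 (c1g_s.snd h1)) (pr_case (pr_subr 3 10 (c1g_s.snd h1)) (pr_add (pr_addc (pr_scale 12089 12500 (c1g_s.snd h1)) (enc_rat _ 575329 1000000)) (pr_cmul (enc_norm (kf2q2_4.enc h1.l h2)) (pr_norm (pr_subr 467 3125 (pr_scale 177 1000 (c1g_s.snd h1)))))) (pr_add (pr_addc (pr_scale 12209 12500 (c1g_s.snd h1)) (enc_rat _ 572449 1000000)) (pr_cmul (enc_norm (kf2q2_4.enc h1.l h2)) (pr_norm (pr_subr 1729 10000 (pr_scale 319 1250 (c1g_s.snd h1))))))) (pr_case (pr_subr 2 5 (c1g_s.snd h1)) (pr_add (pr_addc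 (pr_scale 47007 50000 (c1g_s.snd h1)) (enc_rat _ 146313 250000)) (pr_cmul (enc_norm (kf2q2_4.enc h1.l h2)) (pr_norm (pr_subr 21469 100000 (pr_scale 1873 5000 (c1g_s.snd h1)))))) (pr_case (pr_subr 9 20 (c1g_s.snd h1)) (pr_add (pr_addc (pr_scale 23063 50000 (c1g_s.snd h1)) (enc_rat _ 194201 250000)) (pr_cmul (enc_norm (kf2q2_4.enc h1.l h2)) (pr_norm (pr_subr 29541 100000 (pr_scale 1441 2500 (c1g_s.snd h1)))))) (pr_add (pr_addc (pr_scale 15629 50000 (c1g_s.snd h1)) (enc_rat _ 84371 100000)) (pr_cmul (enc_norm (kf2q2_4.enc h1.l h2)) (pr_norm (pr_subr 3603 10000 (pr_scale 3603 5000 (c1g_s.snd h1))))))))))))))⟩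
noncomputable def l2q2_s : Sl2 l2q2 := ⟨_, fun h1 h2 => (pr_norm (pr_mul (cv2p_s.snd h1) (pr_norm (pr_case (pr_csub (enc_pnc _ 1) (pr_scale 3 4 (pr_sq h1))) (pr_case (pr_subr 127 100 h1) (pr_add (pr_subr 95277871 29000000 (pr_scale 143629 58000 h1)) (pr_cmul (enc_norm (l2q2_4.enc h1.l h2)) (pr_norm (pr_subr 2991341 1160000 (pr_scale 14051 11600 h1))))) (pr_case (pr_subr 69 50 h1) (pr_add (pr_subr 36085421 11000000 (pr_scale 271971 110000 h1)) (pr_cmul (enc_norm (l2q2_4.enc h1.l h2)) (pr_norm (pr_subr 400029 275000 (pr_scale 897 2750 h1))))) (pr_add (pr_subr 3271297 1000000 (pr_scale 12329 5000 h1)) (pr_cmul (enc_norm (l2q2_4.enc h1.l h2)) (pr_norm (pr_subr 281979 200000 (pr_scale 47 160 h1))))))) (pr_case (pr_subr 1 4 (c1g_s.snd h1)) (pr_case (pr_subr 1 10 (c1g_s.snd h1)) (pr_case (pr_subr 1 20 (c1g_s.snd h1)) (pr_add (pr_subr 425983 1000000 (pr_scale 47653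 50000 (c1g_s.snd h1))) (pr_cmul (enc_norm (l2q2_4.enc h1.l h2)) (pr_norm (pr_subr 59001 50000 (pr_scale 623 250 (c1g_s.snd h1)))))) (pr_add (pr_subr 430561 1000000 (pr_scale 52231 50000 (c1g_s.snd h1))) (pr_cmul (enc_norm (l2q2_4.enc h1.l h2)) (pr_norm (pr_subr 120723 100000 (pr_scale 15181 5000 (c1g_s.snd h1))))))) (pr_case (pr_subr 3 20 (c1g_s.snd h1)) (pr_add (pr_subr 432393 1000000 (pr_scale 53147 50000 (c1g_s.snd h1))) (pr_cmul (enc_norm (l2q2_4.enc h1.l h2)) (pr_norm (pr_subr 113867 100000 (pr_scale 11753 5000 (c1g_s.snd h1)))))) (pr_case (pr_subr 1 5 (c1g_s.snd h1)) (pr_add (pr_subr 225219 500000 (pr_scale 29581 25000 (c1g_s.snd h1))) (pr_cmul (enc_norm (l2q2_4.enc h1.l h2)) (pr_norm (pr_subr 11657 10000 (pr_scale 6327 2500 (c1g_s.snd h1)))))) (pr_add (pr_subr 228613 500000 (pr_scale 60859 50000 (c1g_s.snd h1))) (pr_cmul (enc_norm (l2q2_4.enc h1.l h2))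 (pr_norm (pr_subr 65151 50000 (pr_scale 16087 5000 (c1g_s.snd h1))))))))) (pr_case (pr_subr 7 20 (c1g_s.snd h1)) (pr_case (pr_subr 3 10 (c1g_s.snd h1)) (pr_add (pr_subr 217743 500000 (pr_scale 56511 50000 (c1g_s.snd h1))) (pr_cmul (enc_norm (l2q2_4.enc h1.l h2)) (pr_norm (pr_subr 32753 25000 (pr_scale 16229 5000 (c1g_s.snd h1)))))) (pr_add (pr_subr 172713 500000 (pr_scale 41501 50000 (c1g_s.snd h1))) (pr_cmul (enc_norm (l2q2_4.enc h1.l h2)) (pr_norm (pr_subr 27317 25000 (pr_scale 2521 1000 (c1g_s.snd h1))))))) (pr_case (pr_subr 2 5 (c1g_s.snd h1)) (pr_add (pr_subr 258493 1000000 (pr_scale 14541 25000 (c1g_s.snd h1))) (pr_cmul (enc_norm (l2q2_4.enc h1.l h2)) (pr_norm (pr_subr 16199 20000 (pr_scale 4283 2500 (c1g_s.snd h1)))))) (pr_case (pr_subr 9 20 (c1g_s.snd h1)) (pr_add (pr_subr 146061 1000000 (pr_scale 3757 12500 (c1g_s.snd h1))) (pr_cmul (enc_norm (l2q2_4.enc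 h1.l h2)) (pr_norm (pr_subr 61003 100000 (pr_scale 6067 5000 (c1g_s.snd h1)))))) (pr_add (pr_subr 10809 100000 (pr_scale 10809 50000 (c1g_s.snd h1))) (pr_cmul (enc_norm (l2q2_4.enc h1.l h2)) (pr_norm (pr_subr 16 25 (pr_scale 32 25 (c1g_s.snd h1))))))))))))))⟩
noncomputable def kc2q2_s : Sl2 kc2q2 := ⟨_, fun h1 h2 => (pr_norm (pr_mul (cv2p_s.snd h1) (pr_norm (pr_case (pr_csub (enc_pnc _ 1) (pr_scale 3 4 (pr_sq h1))) (pr_add (pr_subr 338370899 43250000 (pr_scale 2727311 346000 h1)) (pr_cmul (enc_norm (kc2q2_4.enc h1.l h2)) (pr_norm (pr_csub (enc_rat _ 176243561 3460000) (pr_scale 1520949 34600 h1))))) (pr_case (pr_subr 1 4 (c1g_s.snd h1)) (pr_add (pr_csub (enc_rat _ 1278141 1000000) (pr_scale 41894 15625 (c1g_s.snd h1))) (pr_cmul (enc_norm (kc2q2_4.enc h1.l h2)) (pr_norm (pr_addc (pr_scale 18567 25000 (c1g_s.snd h1)) (enc_rat _ 18001 100000))))) (pr_add (pr_csub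 (enc_rat _ 607837 500000) (pr_scale 607837 250000 (c1g_s.snd h1))) (pr_cmul (enc_norm (kc2q2_4.enc h1.l h2)) (pr_norm (pr_csub (enc_rat _ 4571 6250) (pr_scale 4571 3125 (c1g_s.snd h1)))))))))))⟩
noncomputable def cv2r_s : Sl1 cv2r := ⟨_, fun h1 => (pr_norm (pr_scale 1 4 (pr_subr 1 2 (swg_s.snd h1))))⟩
noncomputable def bf2q3_s : Sl2 bf2q3 := ⟨_, fun h1 h2 => (pr_norm (pr_case (pr_subr 321 200 h1) (pr_case (pr_subr 1547 1000 h1) (pr_add (pr_csub (enc_rat _ 1007059 2937500) (pr_scale 6761 47000 h1)) (pr_cmul (enc_norm (bf2q3_3.enc h1.l h2)) (pr_norm (pr_csub (enc_rat _ 238621 10000) (pr_scale 372 25 h1))))) (pr_add (pr_csub (enc_rat _ 497977 1450000) (pr_scale 4183 29000 h1)) (pr_cmul (enc_norm (bf2q3_3.enc h1.l h2)) (pr_norm (pr_csub (enc_rat _ 138398633 5800000) (pr_scale 86303 5800 h1)))))) (pr_case (pr_subr 87 50 h1) (pr_add (pr_csub (enc_rat _ 622189 1800000)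 (pr_scale 983 6750 h1)) (pr_cmul (enc_norm (bf2q3_3.enc h1.l h2)) (pr_norm (pr_csub (enc_rat _ 10733723 450000) (pr_scale 200801 13500 h1))))) (pr_case (pr_subr 187 100 h1) (pr_add (pr_csub (enc_rat _ 4572261 13000000) (pr_scale 2423 16250 h1)) (pr_cmul (enc_norm (bf2q3_3.enc h1.l h2)) (pr_norm (pr_csub (enc_rat _ 15500967 650000) (pr_scale 96663 6500 h1))))) (pr_add (pr_csub (enc_rat _ 4582359 13000000) (pr_scale 9719 65000 h1)) (pr_cmul (enc_norm (bf2q3_3.enc h1.l h2)) (pr_norm (pr_csub (enc_rat _ 30983047 1300000) (pr_scale 7729 520 h1)))))))))⟩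
noncomputable def kf2q3_s : Sl2 kf2q3 := ⟨_, fun h1 h2 => (pr_norm (pr_mulz (fun ht => cv2r_two (enc_two h1.r ht)) (cv2r_s.snd h1) (bf2q3_s.snd h1 h2)))⟩
noncomputable def bx2q3_s : Sl2 bx2q3 := ⟨_, fun h1 h2 => (pr_norm (pr_case (pr_subr 321 200 h1) (pr_case (pr_subr 1547 1000 h1) (pr_add (pr_subr 7138861 11750000 (pr_scale 7289 11750 h1)) (pr_cmul (enc_norm (bx2q3_3.enc h1.l h2)) (pr_norm (pr_subr 1196462 146875 (pr_scale 12147 2350 h1))))) (pr_add (pr_subr 35283891 58000000 (pr_scale 36009 58000 h1)) (pr_cmul (enc_norm (bx2q3_3.enc h1.l h2)) (pr_norm (pr_subr 736893 90625 (pr_scale 7481 1450 h1)))))) (pr_case (pr_subr 87 50 h1) (pr_add (pr_subr 5498621 9000000 (pr_scale 42017 67500 h1)) (pr_cmul (enc_norm (bx2q3_3.enc h1.l h2)) (pr_norm (pr_subr 7276841 900000 (pr_scale 13853 2700 h1))))) (pr_case (pr_subr 187 100 h1) (pr_add (pr_subr 7997849 13000000 (pr_scale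 2031 3250 h1)) (pr_cmul (enc_norm (bx2q3_3.enc h1.l h2)) (pr_norm (pr_subr 2099671 260000 (pr_scale 66627 13000 h1))))) (pr_add (pr_subr 8002711 13000000 (pr_scale 40633 65000 h1)) (pr_cmul (enc_norm (bx2q3_3.enc h1.l h2)) (pr_norm (pr_subr 25218 3125 (pr_scale 2561 500 h1)))))))))⟩
noncomputable def l2q3_s : Sl2 l2q3 := ⟨_, fun h1 h2 => (pr_norm (pr_mulz (fun ht => cv2r_two (enc_two h1.r ht)) (cv2r_s.snd h1) (bx2q3_s.snd h1 h2)))⟩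
noncomputable def bd2q3_s : Sl2 bd2q3 := ⟨_, fun h1 h2 => (pr_norm (pr_add (pr_csub (enc_rat _ 2006743 500000) (pr_scale 4867 500000 h1)) (pr_cmul (enc_norm (enc_subr 72 125 h2)) (pr_norm (pr_csub (enc_rat _ 24579 100000) (pr_scale 15763 25000 h1))))))⟩
noncomputable def kc2q3_s : Sl2 kc2q3 := ⟨_, fun h1 h2 => (pr_norm (pr_mulz (fun ht => cv2r_two (enc_two h1.r ht)) (cv2r_s.snd h1) (bd2q3_s.snd h1 h2)))⟩
noncomputable def cv3m_s : Sl1 cv3m := ⟨_, fun h1 => (pr_norm (pr_add (pr_scale 29 50 (c1g_s.snd h1)) (pr_scale 21 50 (pr_addc (swg_s.snd h1) (enc_rat _ 1 2)))))⟩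
noncomputable def bf3q0_s : Sl2 bf3q0 := ⟨_, fun h1 h2 => (pr_norm (pr_case (pr_subr 13 50 h1) (pr_case (pr_subr 13 100 h1) (pr_add (pr_csub (enc_pnc _ 1) (pr_scale 19641 13000 h1)) (pr_cmul (enc_norm (bf3q0_3.enc h1.l h2)) (pr_nd (pr_scale 19371 13000 h1)))) (pr_add (pr_csub (enc_rat _ 1063507 1000000) (pr_scale 259917 130000 h1)) (pr_cmul (enc_norm (bf3q0_3.enc h1.l h2)) (pr_norm (pr_addc (pr_scale 18 125 h1) (enc_rat _ 17499 100000)))))) (pr_case (pr_subr 79 200 h1) (pr_add (pr_csub (enc_rat _ 9632389 9000000) (pr_scale 91141 45000 h1)) (pr_cmul (enc_norm (bf3q0_3.enc h1.l h2)) (pr_norm (pr_csub (enc_rat _ 1788697 2700000) (pr_scale 5842 3375 h1))))) (pr_case (pr_subr 453 1000 h1) (pr_add (pr_csub (enc_rat _ 12440073 11600000) (pr_scale 117787 58000 h1)) (pr_cmul (enc_norm (bf3q0_3.enc h1.l h2)) (pr_norm (pr_csub (enc_rat _ 8609 14500) (pr_scale 903 580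 h1))))) (pr_add (pr_csub (enc_rat _ 25206609 23500000) (pr_scale 95469 47000 h1)) (pr_cmul (enc_norm (bf3q0_3.enc h1.l h2)) (pr_norm (pr_csub (enc_rat _ 2586919 4700000) (pr_scale 1717 1175 h1)))))))))⟩
noncomputable def kf3q0_s : Sl2 kf3q0 := ⟨_, fun h1 h2 => (pr_norm (pr_mul (cv3m_s.snd h1) (bf3q0_s.snd h1 h2)))⟩
noncomputable def bx3q0_s : Sl2 bx3q0 := ⟨_, fun h1 h2 => (pr_norm (pr_case (pr_subr 13 50 h1) (pr_case (pr_subr 13 100 h1) (pr_add (pr_scale 4283 26000 h1) (pr_cmul (enc_norm (bx3q0_3.enc h1.l h2)) (pr_nd (pr_scale 747 13000 h1)))) (pr_add (pr_subr 2793 500000 (pr_scale 2077 10000 h1)) (pr_cmul (enc_norm (bx3q0_3.enc h1.l h2)) (pr_norm (pr_subr 647 25000 (pr_scale 667 2600 h1)))))) (pr_case (pr_subr 79 200 h1) (pr_add (pr_addc (pr_scale 3227 27000 h1) (enc_rat _ 117053 6750000)) (pr_cmul (enc_norm (bx3q0_3.enc h1.l h2)) (pr_norm (pr_csub (enc_rat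 _ 187447 1350000) (pr_scale 509 1350 h1))))) (pr_case (pr_subr 453 1000 h1) (pr_add (pr_addc (pr_scale 207 3625 h1) (enc_rat _ 1217859 29000000)) (pr_cmul (enc_norm (bx3q0_3.enc h1.l h2)) (pr_norm (pr_csub (enc_rat _ 59793 181250) (pr_scale 624 725 h1))))) (pr_add (pr_addc (pr_scale 2447 47000 h1) (enc_rat _ 208107 4700000)) (pr_cmul (enc_norm (bx3q0_3.enc h1.l h2)) (pr_norm (pr_csub (enc_rat _ 1650951 4700000) (pr_scale 4267 4700 h1)))))))))⟩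
noncomputable def l3q0_s : Sl2 l3q0 := ⟨_, fun h1 h2 => (pr_norm (pr_mul (cv3m_s.snd h1) (bx3q0_s.snd h1 h2)))⟩
noncomputable def bd3q0_s : Sl2 bd3q0 := ⟨_, fun h1 h2 => (pr_norm (pr_sub (pr_cmul (enc_norm (enc_subr 72 125 h2)) (pr_nd (pr_scale 73377 50000 h1))) (pr_scale 12937 4000 h1)))⟩
noncomputable def kc3q0_s : Sl2 kc3q0 := ⟨_, fun h1 h2 => (pr_norm (pr_mul (cv3m_s.snd h1) (bd3q0_s.snd h1 h2)))⟩
noncomputable def bf3q1_s : Sl2 bf3q1 := ⟨_, fun h1 h2 => (pr_norm (pr_case (pr_subr 67 100 h1) (pr_add (pr_subr 5439191 8500000 (pr_scale 26913 17000 h1)) (pr_cmul (enc_norm (bf3q1_3.enc h1.l h2)) (pr_norm (pr_csub (enc_rat _ 9182 53125) (pr_scale 9167 17000 h1))))) (pr_case (pr_subr 83 100 h1) (pr_add (pr_subr 4108449 8000000 (pr_scale 111563 80000 h1)) (pr_cmul (enc_norm (bf3q1_3.enc h1.l h2)) (pr_norm (pr_csub (enc_rat _ 308917 1600000) (pr_scale 9111 16000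 h1))))) (pr_add (pr_subr 5934319 17000000 (pr_scale 203383 170000 h1)) (pr_cmul (enc_norm (bf3q1_3.enc h1.l h2)) (pr_norm (pr_subr 178387 212500 (pr_scale 2867 4250 h1))))))))⟩
noncomputable def kf3q1_s : Sl2 kf3q1 := ⟨_, fun h1 h2 => (pr_norm (pr_mul (cv3m_s.snd h1) (bf3q1_s.snd h1 h2)))⟩
noncomputable def bx3q1_s : Sl2 bx3q1 := ⟨_, fun h1 h2 => (pr_norm (pr_case (pr_subr 67 100 h1) (pr_add (pr_csub (enc_rat _ 36246 265625) (pr_scale 1289 8500 h1)) (pr_cmul (enc_norm (bx3q1_3.enc h1.l h2)) (pr_norm (pr_subr 332583 1700000 (pr_scale 1337 8500 h1))))) (pr_case (pr_subr 83 100 h1) (pr_add (pr_csub (enc_rat _ 1068813 8000000) (pr_scale 11791 80000 h1)) (pr_cmul (enc_norm (bx3q1_3.enc h1.l h2)) (pr_norm (pr_subr 23351 160000 (pr_scale 133 1600 h1))))) (pr_add (pr_subr 801767 8500000 (pr_scale 5407 42500 h1)) (pr_cmul (enc_norm (bx3q1_3.enc h1.l h2)) (pr_norm (pr_subr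 523443 850000 (pr_scale 11037 17000 h1))))))))⟩
noncomputable def l3q1_s : Sl2 l3q1 := ⟨_, fun h1 h2 => (pr_norm (pr_mul (cv3m_s.snd h1) (bx3q1_s.snd h1 h2)))⟩
noncomputable def bd3q1_s : Sl2 bd3q1 := ⟨_, fun h1 h2 => (pr_norm (pr_add (pr_csub (enc_rat _ 3819103 1000000) (pr_scale 2104473 500000 h1)) (pr_cmul (enc_norm (enc_subr 72 125 h2)) (pr_norm (pr_csub (enc_rat _ 21459 12500) (pr_scale 12461 5000 h1))))))⟩
noncomputable def kc3q1_s : Sl2 kc3q1 := ⟨_, fun h1 h2 => (pr_norm (pr_mul (cv3m_s.snd h1) (bd3q1_s.snd h1 h2)))⟩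
noncomputable def cv3p_s : Sl1 cv3p := ⟨_, fun h1 => (pr_norm (pr_add (pr_scale 29 50 (c1g_s.snd h1)) (pr_scale 21 50 (pr_subr 1 2 (swg_s.snd h1)))))⟩
noncomputable def kf3q2_s : Sl2 kf3q2 := ⟨_, fun h1 h2 => (pr_norm (pr_mul (cv3p_s.snd h1) (pr_norm (pr_case (pr_csub (enc_pnc _ 1) (pr_scale 3 4 (pr_sq h1))) (pr_case (pr_subr 127 100 h1) (pr_add (pr_csub (enc_rat _ 10287623 2320000) (pr_scale 390219 116000 h1)) (pr_cmul (enc_norm (kf3q2_4.enc h1.l h2)) (pr_norm (pr_csub (enc_rat _ 722613 290000) (pr_scale 9049 5800 h1))))) (pr_case (pr_subr 69 50 h1) (pr_add (pr_csub (enc_rat _ 47642999 11000000) (pr_scale 180551 55000 h1)) (pr_cmul (enc_norm (kf3q2_4.enc h1.l h2)) (pr_norm (pr_csub (enc_rat _ 436859 68750) (pr_scale 50617 11000 h1))))) (pr_add (pr_csub (enc_rat _ 1715193 400000) (pr_scale 390173 120000 h1)) (pr_cmul (enc_norm (kf3q2_4.enc h1.l h2)) (pr_norm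 (pr_csub (enc_rat _ 346221 50000) (pr_scale 3761 750 h1))))))) (pr_case (pr_subr 1 4 (c1g_s.snd h1)) (pr_case (pr_subr 1 10 (c1g_s.snd h1)) (pr_case (pr_subr 1 20 (c1g_s.snd h1)) (pr_add (pr_addc (pr_scale 27601 25000 (c1g_s.snd h1)) (enc_rat _ 22051 40000)) (pr_cmul (enc_norm (kf3q2_4.enc h1.l h2)) (pr_norm (pr_csub (enc_rat _ 13001 20000) (pr_scale 4613 1250 (c1g_s.snd h1)))))) (pr_add (pr_addc (pr_scale 1371 1250 (c1g_s.snd h1)) (enc_rat _ 551637 1000000)) (pr_cmul (enc_norm (kf3q2_4.enc h1.l h2)) (pr_norm (pr_csub (enc_rat _ 12751 20000) (pr_scale 8601 2500 (c1g_s.snd h1))))))) (pr_case (pr_subr 3 20 (c1g_s.snd h1)) (pr_add (pr_addc (pr_scale 6803 6250 (c1g_s.snd h1)) (enc_rat _ 552469 1000000)) (pr_cmul (enc_norm (kf3q2_4.enc h1.l h2)) (pr_norm (pr_csub (enc_rat _ 58479 100000) (pr_scale 3641 1250 (c1g_s.snd h1)))))) (pr_case (pr_subr 1 5 (c1g_s.snd h1))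 (pr_add (pr_addc (pr_scale 26869 25000 (c1g_s.snd h1)) (enc_rat _ 554527 1000000)) (pr_cmul (enc_norm (kf3q2_4.enc h1.l h2)) (pr_norm (pr_csub (enc_rat _ 48171 100000) (pr_scale 1391 625 (c1g_s.snd h1)))))) (pr_add (pr_addc (pr_scale 10471 10000 (c1g_s.snd h1)) (enc_rat _ 560059 1000000)) (pr_cmul (enc_norm (kf3q2_4.enc h1.l h2)) (pr_norm (pr_csub (enc_rat _ 35631 100000) (pr_scale 7993 5000 (c1g_s.snd h1))))))))) (pr_case (pr_subr 7 20 (c1g_s.snd h1)) (pr_case (pr_subr 3 10 (c1g_s.snd h1)) (pr_add (pr_addc (pr_scale 9871 10000 (c1g_s.snd h1)) (enc_rat _ 575059 1000000)) (pr_cmul (enc_norm (kf3q2_4.enc h1.l h2)) (pr_norm (pr_csub (enc_rat _ 8633 50000) (pr_scale 108 125 (c1g_s.snd h1)))))) (pr_add (pr_addc (pr_scale 44287 50000 (c1g_s.snd h1)) (enc_rat _ 605467 1000000)) (pr_cmul (enc_norm (kf3q2_4.enc h1.l h2)) (pr_norm (pr_subr 173 6250 (pr_neg (pr_scale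 981 5000 (c1g_s.snd h1)))))))) (pr_case (pr_subr 2 5 (c1g_s.snd h1)) (pr_add (pr_addc (pr_scale 18503 25000 (c1g_s.snd h1)) (enc_rat _ 328217 500000)) (pr_cmul (enc_norm (kf3q2_4.enc h1.l h2)) (pr_norm (pr_subr 678 3125 (pr_scale 1723 5000 (c1g_s.snd h1)))))) (pr_case (pr_subr 9 20 (c1g_s.snd h1)) (pr_add (pr_addc (pr_scale 337 625 (c1g_s.snd h1)) (enc_rat _ 368401 500000)) (pr_cmul (enc_norm (kf3q2_4.enc h1.l h2)) (pr_norm (pr_subr 4721 12500 (pr_scale 933 1250 (c1g_s.snd h1)))))) (pr_add (pr_addc (pr_scale 10279 25000 (c1g_s.snd h1)) (enc_rat _ 39721 50000)) (pr_cmul (enc_norm (kf3q2_4.enc h1.l h2)) (pr_norm (pr_subr 209 500 (pr_scale 209 250 (c1g_s.snd h1))))))))))))))⟩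
noncomputable def l3q2_s : Sl2 l3q2 := ⟨_, fun h1 h2 => (pr_norm (pr_mul (cv3p_s.snd h1) (pr_norm (pr_case (pr_csub (enc_pnc _ 1) (pr_scale 3 4 (pr_sq h1))) (pr_case (pr_subr 127 100 h1) (pr_add (pr_subr 122638051 58000000 (pr_scale 181247 116000 h1)) (pr_cmul (enc_norm (l3q2_4.enc h1.l h2)) (pr_norm (pr_subr 13373709 2900000 (pr_scale 18943 5800 h1))))) (pr_case (pr_subr 69 50 h1) (pr_add (pr_subr 34481657 11000000 (pr_scale 3253 1375 h1)) (pr_cmul (enc_norm (l3q2_4.enc h1.l h2)) (pr_norm (pr_csub (enc_rat _ 392247 55000) (pr_scale 16447 2750 h1))))) (pr_add (pr_subr 510821 200000 (pr_scale 19451 10000 h1)) (pr_cmul (enc_norm (l3q2_4.enc h1.l h2)) (pr_norm (pr_subr 1656561 200000 (pr_scale 20757 4000 h1))))))) (pr_case (pr_subr 1 4 (c1g_s.snd h1)) (pr_case (pr_subr 1 10 (c1g_s.snd h1)) (pr_case (pr_subr 1 20 (c1g_s.snd h1)) (pr_add (pr_subr 62061 200000 (pr_scale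 2423 2500 (c1g_s.snd h1))) (pr_cmul (enc_norm (l3q2_4.enc h1.l h2)) (pr_norm (pr_subr 16779 20000 (pr_scale 10467 5000 (c1g_s.snd h1)))))) (pr_add (pr_subr 154773 500000 (pr_scale 47701 50000 (c1g_s.snd h1))) (pr_cmul (enc_norm (l3q2_4.enc h1.l h2)) (pr_norm (pr_subr 83581 100000 (pr_scale 10153 5000 (c1g_s.snd h1))))))) (pr_case (pr_subr 3 20 (c1g_s.snd h1)) (pr_add (pr_subr 152479 500000 (pr_scale 45407 50000 (c1g_s.snd h1))) (pr_cmul (enc_norm (l3q2_4.enc h1.l h2)) (pr_norm (pr_subr 15937 20000 (pr_scale 1641 1000 (c1g_s.snd h1)))))) (pr_case (pr_subr 1 5 (c1g_s.snd h1)) (pr_add (pr_subr 14731 50000 (pr_scale 41961 50000 (c1g_s.snd h1))) (pr_cmul (enc_norm (l3q2_4.enc h1.l h2)) (pr_norm (pr_subr 73907 100000 (pr_scale 6279 5000 (c1g_s.snd h1)))))) (pr_add (pr_subr 17399 62500 (pr_scale 18951 25000 (c1g_s.snd h1))) (pr_cmul (enc_norm (l3q2_4.enc h1.l h2))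 (pr_norm (pr_subr 69623 100000 (pr_scale 651 625 (c1g_s.snd h1))))))))) (pr_case (pr_subr 7 20 (c1g_s.snd h1)) (pr_case (pr_subr 3 10 (c1g_s.snd h1)) (pr_add (pr_subr 237799 1000000 (pr_scale 5957 10000 (c1g_s.snd h1))) (pr_cmul (enc_norm (l3q2_4.enc h1.l h2)) (pr_norm (pr_subr 38539 50000 (pr_scale 6699 5000 (c1g_s.snd h1)))))) (pr_add (pr_subr 198727 1000000 (pr_scale 23273 50000 (c1g_s.snd h1))) (pr_cmul (enc_norm (l3q2_4.enc h1.l h2)) (pr_norm (pr_subr 43759 50000 (pr_scale 8439 5000 (c1g_s.snd h1))))))) (pr_case (pr_subr 2 5 (c1g_s.snd h1)) (pr_add (pr_subr 7381 50000 (pr_scale 3993 12500 (c1g_s.snd h1))) (pr_cmul (enc_norm (l3q2_4.enc h1.l h2)) (pr_norm (pr_subr 96891 100000 (pr_scale 4889 2500 (c1g_s.snd h1)))))) (pr_case (pr_subr 9 20 (c1g_s.snd h1)) (pr_add (pr_subr 26431 250000 (pr_scale 2147 10000 (c1g_s.snd h1))) (pr_cmul (enc_norm (l3q2_4.enc h1.l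 h2)) (pr_norm (pr_subr 19903 20000 (pr_scale 5053 2500 (c1g_s.snd h1)))))) (pr_add (pr_subr 9109 100000 (pr_scale 9109 50000 (c1g_s.snd h1))) (pr_cmul (enc_norm (l3q2_4.enc h1.l h2)) (pr_norm (pr_subr 8561 10000 (pr_scale 8561 5000 (c1g_s.snd h1))))))))))))))⟩
noncomputable def kc3q2_s : Sl2 kc3q2 := ⟨_, fun h1 h2 => (pr_norm (pr_mul (cv3p_s.snd h1) (pr_norm (pr_case (pr_csub (enc_pnc _ 1) (pr_scale 3 4 (pr_sq h1))) (pr_add (pr_subr 1124460423 173000000 (pr_scale 2421947 346000 h1)) (pr_cmul (enc_norm (kc3q2_4.enc h1.l h2)) (pr_norm (pr_csub (enc_rat _ 408249173 8650000) (pr_scale 179333 4325 h1))))) (pr_case (pr_subr 1 4 (c1g_s.snd h1)) (pr_add (pr_csub (enc_rat _ 98929 62500) (pr_scale 1112967 250000 (c1g_s.snd h1))) (pr_cmul (enc_norm (kc3q2_4.enc h1.l h2)) (pr_norm (pr_subr 67867 100000 (pr_scale 187923 25000 (c1g_s.snd h1)))))) (pr_add (pr_csub (enc_rat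 _ 469897 500000) (pr_scale 469897 250000 (c1g_s.snd h1))) (pr_cmul (enc_norm (kc3q2_4.enc h1.l h2)) (pr_norm (pr_csub (enc_rat _ 15007 6250) (pr_scale 15007 3125 (c1g_s.snd h1)))))))))))⟩
noncomputable def cv3r_s : Sl1 cv3r := ⟨_, fun h1 => (pr_norm (pr_scale 21 50 (pr_subr 1 2 (swg_s.snd h1))))⟩
noncomputable def bf3q3_s : Sl2 bf3q3 := ⟨_, fun h1 h2 => (pr_norm (pr_case (pr_subr 321 200 h1) (pr_case (pr_subr 1547 1000 h1) (pr_add (pr_csub (enc_rat _ 2823767 11750000) (pr_scale 2041 23500 h1)) (pr_cmul (enc_norm (bf3q3_3.enc h1.l h2)) (pr_norm (pr_csub (enc_rat _ 25691931 1175000) (pr_scale 64069 4700 h1))))) (pr_add (pr_csub (enc_rat _ 2787607 11600000) (pr_scale 5037 58000 h1)) (pr_cmul (enc_norm (bf3q3_3.enc h1.l h2)) (pr_norm (pr_csub (enc_rat _ 25394619 1160000) (pr_scale 79163 5800 h1)))))) (pr_case (pr_subr 87 50 h1) (pr_add (pr_csub (enc_rat _ 1077919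 4500000) (pr_scale 11659 135000 h1)) (pr_cmul (enc_norm (bf3q3_3.enc h1.l h2)) (pr_norm (pr_csub (enc_rat _ 3284773 150000) (pr_scale 30719 2250 h1))))) (pr_case (pr_subr 187 100 h1) (pr_add (pr_csub (enc_rat _ 764221 3250000) (pr_scale 10899 130000 h1)) (pr_cmul (enc_norm (bf3q3_3.enc h1.l h2)) (pr_norm (pr_csub (enc_rat _ 14211261 650000) (pr_scale 88613 6500 h1))))) (pr_add (pr_csub (enc_rat _ 1524889 6500000) (pr_scale 10861 130000 h1)) (pr_cmul (enc_norm (bf3q3_3.enc h1.l h2)) (pr_norm (pr_csub (enc_rat _ 14197797 650000) (pr_scale 88541 6500 h1)))))))))⟩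
noncomputable def kf3q3_s : Sl2 kf3q3 := ⟨_, fun h1 h2 => (pr_norm (pr_mulz (fun ht => cv3r_two (enc_two h1.r ht)) (cv3r_s.snd h1) (bf3q3_s.snd h1 h2)))⟩
noncomputable def bx3q3_s : Sl2 bx3q3 := ⟨_, fun h1 h2 => (pr_norm (pr_case (pr_subr 321 200 h1) (pr_case (pr_subr 1547 1000 h1) (pr_add (pr_subr 30007127 47000000 (pr_scale 14849 23500 h1)) (pr_cmul (enc_norm (bx3q3_3.enc h1.l h2)) (pr_norm (pr_subr 17633967 2350000 (pr_scale 2233 470 h1))))) (pr_add (pr_subr 36888373 58000000 (pr_scale 36557 58000 h1)) (pr_cmul (enc_norm (bx3q3_3.enc h1.l h2)) (pr_norm (pr_subr 8800597 1160000 (pr_scale 27867 5800 h1)))))) (pr_case (pr_subr 87 50 h1) (pr_add (pr_subr 2814437 4500000 (pr_scale 421 675 h1)) (pr_cmul (enc_norm (bx3q3_3.enc h1.l h2)) (pr_norm (pr_subr 3508193 450000 (pr_scale 66623 13500 h1))))) (pr_case (pr_subr 187 100 h1) (pr_add (pr_subr 1957373 3250000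 (pr_scale 79351 130000 h1)) (pr_cmul (enc_norm (bx3q3_3.enc h1.l h2)) (pr_norm (pr_subr 5092839 650000 (pr_scale 8056 1625 h1))))) (pr_add (pr_subr 7767221 13000000 (pr_scale 39509 65000 h1)) (pr_cmul (enc_norm (bx3q3_3.enc h1.l h2)) (pr_norm (pr_subr 10166043 1300000 (pr_scale 64343 13000 h1)))))))))⟩
noncomputable def l3q3_s : Sl2 l3q3 := ⟨_, fun h1 h2 => (pr_norm (pr_mulz (fun ht => cv3r_two (enc_two h1.r ht)) (cv3r_s.snd h1) (bx3q3_s.snd h1 h2)))⟩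
noncomputable def bd3q3_s : Sl2 bd3q3 := ⟨_, fun h1 h2 => (pr_norm (pr_add (pr_csub (enc_rat _ 1019361 250000) (pr_scale 27889 500000 h1)) (pr_cmul (enc_norm (enc_subr 72 125 h2)) (pr_norm (pr_csub (enc_rat _ 83781 50000) (pr_scale 71501 50000 h1))))))⟩
noncomputable def kc3q3_s : Sl2 kc3q3 := ⟨_, fun h1 h2 => (pr_norm (pr_mulz (fun ht => cv3r_two (enc_two h1.r ht)) (cv3r_s.snd h1) (bd3q3_s.snd h1 h2)))⟩
noncomputable def cv4m_s : Sl1 cv4m := ⟨_, fun h1 => (pr_norm (pr_add (pr_scale 1 5 (c1g_s.snd h1)) (pr_scale 4 5 (pr_addc (swg_s.snd h1) (enc_rat _ 1 2)))))⟩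
noncomputable def bf4q0_s : Sl2 bf4q0 := ⟨_, fun h1 h2 => (pr_norm (pr_case (pr_subr 13 50 h1) (pr_case (pr_subr 13 100 h1) (pr_add (pr_csub (enc_pnc _ 1) (pr_scale 285709 130000 h1)) (pr_cmul (enc_norm (bf4q0_3.enc h1.l h2)) (pr_nd (pr_scale 34329 13000 h1)))) (pr_add (pr_csub (enc_rat _ 989141 1000000) (pr_scale 5497 2600 h1)) (pr_cmul (enc_norm (bf4q0_3.enc h1.l h2)) (pr_norm (pr_addc (pr_scale 3343 13000 h1) (enc_rat _ 15493 50000)))))) (pr_case (pr_subr 79 200 h1) (pr_add (pr_csub (enc_rat _ 5299687 5400000) (pr_scale 140707 67500 h1)) (pr_cmul (enc_norm (bf4q0_3.enc h1.l h2)) (pr_norm (pr_csub (enc_rat _ 399727 337500) (pr_scale 10484 3375 h1))))) (pr_case (pr_subr 453 1000 h1) (pr_add (pr_csub (enc_rat _ 1525613 1812500) (pr_scale 10039 5800 h1)) (pr_cmul (enc_norm (bf4q0_3.enc h1.l h2)) (pr_norm (pr_subr 118313 1450000 (pr_scale 143 1450 h1))))) (pr_add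 (pr_csub (enc_rat _ 7249993 9400000) (pr_scale 37021 23500 h1)) (pr_cmul (enc_norm (bf4q0_3.enc h1.l h2)) (pr_norm (pr_csub (enc_rat _ 5431 940000) (pr_scale 443 4700 h1)))))))))⟩
noncomputable def kf4q0_s : Sl2 kf4q0 := ⟨_, fun h1 h2 => (pr_norm (pr_mul (cv4m_s.snd h1) (bf4q0_s.snd h1 h2)))⟩
noncomputable def bx4q0_s : Sl2 bx4q0 := ⟨_, fun h1 h2 => (pr_norm (pr_case (pr_subr 13 50 h1) (pr_case (pr_subr 13 100 h1) (pr_add (pr_scale 9441 32500 h1) (pr_cmul (enc_norm (bx4q0_3.enc h1.l h2)) (pr_nd (pr_scale 2839 6500 h1)))) (pr_add (pr_subr 483 500000 (pr_scale 3873 13000 h1)) (pr_cmul (enc_norm (bx4q0_3.enc h1.l h2)) (pr_norm (pr_subr 2621 100000 (pr_scale 8299 13000 h1)))))) (pr_case (pr_subr 79 200 h1) (pr_add (pr_addc (pr_scale 2477 67500 h1) (enc_rat _ 180773 2700000)) (pr_cmul (enc_norm (bx4q0_3.enc h1.l h2)) (pr_norm (pr_csub (enc_rat _ 1062791 2700000)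 (pr_scale 13181 13500 h1))))) (pr_case (pr_subr 453 1000 h1) (pr_add (pr_csub (enc_rat _ 8503739 58000000) (pr_scale 9569 58000 h1)) (pr_cmul (enc_norm (bx4q0_3.enc h1.l h2)) (pr_norm (pr_csub (enc_rat _ 3204983 5800000) (pr_scale 7997 5800 h1))))) (pr_add (pr_csub (enc_rat _ 7408201 47000000) (pr_scale 1112 5875 h1)) (pr_cmul (enc_norm (bx4q0_3.enc h1.l h2)) (pr_norm (pr_csub (enc_rat _ 329317 1175000) (pr_scale 731 940 h1)))))))))⟩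
noncomputable def l4q0_s : Sl2 l4q0 := ⟨_, fun h1 h2 => (pr_norm (pr_mul (cv4m_s.snd h1) (bx4q0_s.snd h1 h2)))⟩
noncomputable def bd4q0_s : Sl2 bd4q0 := ⟨_, fun h1 h2 => (pr_norm (pr_sub (pr_neg (pr_scale 3063679 500000 h1)) (pr_cmul (enc_norm (enc_subr 72 125 h2)) (pr_nd (pr_scale 76423 50000 h1)))))⟩
noncomputable def kc4q0_s : Sl2 kc4q0 := ⟨_, fun h1 h2 => (pr_norm (pr_mul (cv4m_s.snd h1) (bd4q0_s.snd h1 h2)))⟩
noncomputable def bf4q1_s : Sl2 bf4q1 := ⟨_, fun h1 h2 => (pr_norm (pr_case (pr_subr 67 100 h1) (pr_add (pr_subr 1347703 3400000 (pr_scale 246921 170000 h1)) (pr_cmul (enc_norm (bf4q1_3.enc h1.l h2)) (pr_norm (pr_subr 19943 85000 (pr_scale 1609 17000 h1))))) (pr_case (pr_subr 83 100 h1) (pr_add (pr_subr 5443981 16000000 (pr_scale 218991 160000 h1)) (pr_cmul (enc_norm (bf4q1_3.enc h1.l h2)) (pr_norm (pr_subr 17291 200000 (pr_neg (pr_scale 253 2000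 h1)))))) (pr_add (pr_addc (pr_scale 25737 34000 h1) (enc_rat _ 177949 1062500)) (pr_cmul (enc_norm (bf4q1_3.enc h1.l h2)) (pr_norm (pr_subr 180577 170000 (pr_scale 3567 3400 h1))))))))⟩
noncomputable def kf4q1_s : Sl2 kf4q1 := ⟨_, fun h1 h2 => (pr_norm (pr_mul (cv4m_s.snd h1) (bf4q1_s.snd h1 h2)))⟩
noncomputable def bx4q1_s : Sl2 bx4q1 := ⟨_, fun h1 h2 => (pr_norm (pr_case (pr_subr 67 100 h1) (pr_add (pr_csub (enc_rat _ 4038609 17000000) (pr_scale 3778 10625 h1)) (pr_cmul (enc_norm (bx4q1_3.enc h1.l h2)) (pr_norm (pr_subr 920179 1700000 (pr_scale 7147 8500 h1))))) (pr_case (pr_subr 83 100 h1) (pr_add (pr_csub (enc_rat _ 1097787 8000000) (pr_scale 3293 16000 h1)) (pr_cmul (enc_norm (bx4q1_3.enc h1.l h2)) (pr_norm (pr_csub (enc_rat _ 70011 100000) (pr_scale 253 250 h1))))) (pr_add (pr_subr 96459 850000 (pr_scale 16361 170000 h1)) (pr_cmul (enc_norm (bx4q1_3.enc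 h1.l h2)) (pr_norm (pr_subr 120657 850000 (pr_scale 43 17000 h1))))))))⟩
noncomputable def l4q1_s : Sl2 l4q1 := ⟨_, fun h1 h2 => (pr_norm (pr_mul (cv4m_s.snd h1) (bx4q1_s.snd h1 h2)))⟩
noncomputable def bd4q1_s : Sl2 bd4q1 := ⟨_, fun h1 h2 => (pr_norm (pr_add (pr_csub (enc_rat _ 15134 15625) (pr_scale 67049 62500 h1)) (pr_cmul (enc_norm (enc_subr 72 125 h2)) (pr_norm (pr_csub (enc_rat _ 122917 25000) (pr_scale 33853 6250 h1))))))⟩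
noncomputable def kc4q1_s : Sl2 kc4q1 := ⟨_, fun h1 h2 => (pr_norm (pr_mul (cv4m_s.snd h1) (bd4q1_s.snd h1 h2)))⟩
noncomputable def cv4p_s : Sl1 cv4p := ⟨_, fun h1 => (pr_norm (pr_add (pr_scale 1 5 (c1g_s.snd h1)) (pr_scale 4 5 (pr_subr 1 2 (swg_s.snd h1)))))⟩
noncomputable def kf4q2_s : Sl2 kf4q2 := ⟨_, fun h1 h2 => (pr_norm (pr_mul (cv4p_s.snd h1) (pr_norm (pr_case (pr_csub (enc_pnc _ 1) (pr_scale 3 4 (pr_sq h1))) (pr_case (pr_subr 127 100 h1) (pr_add (pr_csub (enc_rat _ 56179379 11600000) (pr_scale 421217 116000 h1)) (pr_cmul (enc_norm (kf4q2_4.enc h1.l h2)) (pr_norm (pr_csub (enc_rat _ 62151847 5800000) (pr_scale 3983 464 h1))))) (pr_case (pr_subr 69 50 h1) (pr_add (pr_csub (enc_rat _ 5602661 1000000) (pr_scale 42293 10000 h1)) (pr_cmul (enc_norm (kf4q2_4.enc h1.l h2)) (pr_norm (pr_subr 736141 100000 (pr_scale 113 20 h1))))) (pr_add (pr_csub (enc_rat _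 2600217 2000000) (pr_scale 133381 120000 h1)) (pr_cmul (enc_norm (kf4q2_4.enc h1.l h2)) (pr_norm (pr_csub (enc_rat _ 1613309 100000) (pr_scale 91 8 h1))))))) (pr_case (pr_subr 1 4 (c1g_s.snd h1)) (pr_case (pr_subr 1 10 (c1g_s.snd h1)) (pr_case (pr_subr 1 20 (c1g_s.snd h1)) (pr_add (pr_addc (pr_scale 10279 12500 (c1g_s.snd h1)) (enc_rat _ 649681 1000000)) (pr_cmul (enc_norm (kf4q2_4.enc h1.l h2)) (pr_norm (pr_csub (enc_rat _ 81487 100000) (pr_scale 11757 2500 (c1g_s.snd h1)))))) (pr_add (pr_addc (pr_scale 20783 25000 (c1g_s.snd h1)) (enc_rat _ 649231 1000000)) (pr_cmul (enc_norm (kf4q2_4.enc h1.l h2)) (pr_norm (pr_csub (enc_rat _ 8141 10000) (pr_scale 23437 5000 (c1g_s.snd h1))))))) (pr_case (pr_subr 3 20 (c1g_s.snd h1)) (pr_add (pr_addc (pr_scale 10419 12500 (c1g_s.snd h1)) (enc_rat _ 649011 1000000)) (pr_cmul (enc_norm (kf4q2_4.enc h1.l h2)) (pr_norm (pr_csub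 (enc_rat _ 9643 12500) (pr_scale 2663 625 (c1g_s.snd h1)))))) (pr_case (pr_subr 1 5 (c1g_s.snd h1)) (pr_add (pr_addc (pr_scale 20653 25000 (c1g_s.snd h1)) (enc_rat _ 650121 1000000)) (pr_cmul (enc_norm (kf4q2_4.enc h1.l h2)) (pr_norm (pr_csub (enc_rat _ 2591 4000) (pr_scale 17181 5000 (c1g_s.snd h1)))))) (pr_add (pr_addc (pr_scale 319 400 (c1g_s.snd h1)) (enc_rat _ 131169 200000)) (pr_cmul (enc_norm (kf4q2_4.enc h1.l h2)) (pr_norm (pr_csub (enc_rat _ 43303 100000) (pr_scale 11813 5000 (c1g_s.snd h1))))))))) (pr_case (pr_subr 7 20 (c1g_s.snd h1)) (pr_case (pr_subr 3 10 (c1g_s.snd h1)) (pr_add (pr_addc (pr_scale 18077 25000 (c1g_s.snd h1)) (enc_rat _ 13489 20000)) (pr_cmul (enc_norm (kf4q2_4.enc h1.l h2)) (pr_norm (pr_csub (enc_rat _ 2187 25000) (pr_scale 2451 2500 (c1g_s.snd h1)))))) (pr_add (pr_addc (pr_scale 1541 2500 (c1g_s.snd h1)) (enc_rat _ 353227 500000))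 (pr_cmul (enc_norm (kf4q2_4.enc h1.l h2)) (pr_norm (pr_subr 15231 50000 (pr_scale 1633 5000 (c1g_s.snd h1))))))) (pr_case (pr_subr 2 5 (c1g_s.snd h1)) (pr_add (pr_addc (pr_scale 5609 10000 (c1g_s.snd h1)) (enc_rat _ 725879 1000000)) (pr_cmul (enc_norm (kf4q2_4.enc h1.l h2)) (pr_norm (pr_subr 56467 100000 (pr_scale 1337 1250 (c1g_s.snd h1)))))) (pr_case (pr_subr 9 20 (c1g_s.snd h1)) (pr_add (pr_addc (pr_scale 2621 5000 (c1g_s.snd h1)) (enc_rat _ 740559 1000000)) (pr_cmul (enc_norm (kf4q2_4.enc h1.l h2)) (pr_norm (pr_subr 70259 100000 (pr_scale 884 625 (c1g_s.snd h1)))))) (pr_add (pr_addc (pr_scale 23551 50000 (c1g_s.snd h1)) (enc_rat _ 76449 100000)) (pr_cmul (enc_norm (kf4q2_4.enc h1.l h2)) (pr_norm (pr_subr 6611 10000 (pr_scale 6611 5000 (c1g_s.snd h1))))))))))))))⟩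
noncomputable def l4q2_s : Sl2 l4q2 := ⟨_, fun h1 h2 => (pr_norm (pr_mul (cv4p_s.snd h1) (pr_norm (pr_case (pr_csub (enc_pnc _ 1) (pr_scale 3 4 (pr_sq h1))) (pr_case (pr_subr 127 100 h1) (pr_add (pr_subr 13765919 29000000 (pr_scale 20601 58000 h1)) (pr_cmul (enc_norm (l4q2_4.enc h1.l h2)) (pr_norm (pr_subr 12931747 5800000 (pr_scale 18499 11600 h1))))) (pr_case (pr_subr 69 50 h1) (pr_add (pr_subr 362711 343750 (pr_scale 22337 27500 h1)) (pr_cmul (enc_norm (l4q2_4.enc h1.l h2)) (pr_norm (pr_subr 258967 275000 (pr_scale 6387 11000 h1))))) (pr_add (pr_subr 3531637 2000000 (pr_scale 53089 40000 h1)) (pr_cmul (enc_norm (l4q2_4.enc h1.l h2)) (pr_norm (pr_csub (enc_rat _ 241097 100000) (pr_scale 11093 6000 h1))))))) (pr_case (pr_subr 1 4 (c1g_s.snd h1)) (pr_case (pr_subr 1 10 (c1g_s.snd h1)) (pr_case (pr_subr 1 20 (c1g_s.snd h1)) (pr_add (pr_subr 6451 100000 (pr_scale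 17749 50000 (c1g_s.snd h1))) (pr_cmul (enc_norm (l4q2_4.enc h1.l h2)) (pr_norm (pr_subr 19461 50000 (pr_scale 2353 2500 (c1g_s.snd h1)))))) (pr_add (pr_subr 62389 1000000 (pr_scale 3907 12500 (c1g_s.snd h1))) (pr_cmul (enc_norm (l4q2_4.enc h1.l h2)) (pr_norm (pr_subr 10051 25000 (pr_scale 1497 1250 (c1g_s.snd h1))))))) (pr_case (pr_subr 3 20 (c1g_s.snd h1)) (pr_add (pr_subr 52467 1000000 (pr_scale 10667 50000 (c1g_s.snd h1))) (pr_cmul (enc_norm (l4q2_4.enc h1.l h2)) (pr_norm (pr_subr 3703 10000 (pr_scale 4401 5000 (c1g_s.snd h1)))))) (pr_case (pr_subr 1 5 (c1g_s.snd h1)) (pr_add (pr_subr 36801 1000000 (pr_scale 1089 10000 (c1g_s.snd h1))) (pr_cmul (enc_norm (l4q2_4.enc h1.l h2)) (pr_norm (pr_subr 29017 100000 (pr_scale 173 500 (c1g_s.snd h1)))))) (pr_add (pr_subr 27489 1000000 (pr_scale 3117 50000 (c1g_s.snd h1))) (pr_cmul (enc_norm (l4q2_4.enc h1.l h2)) (pr_norm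 (pr_subr 25333 100000 (pr_scale 809 5000 (c1g_s.snd h1))))))))) (pr_case (pr_subr 7 20 (c1g_s.snd h1)) (pr_case (pr_subr 3 10 (c1g_s.snd h1)) (pr_add (pr_subr 11487 500000 (pr_scale 1107 25000 (c1g_s.snd h1))) (pr_cmul (enc_norm (l4q2_4.enc h1.l h2)) (pr_norm (pr_subr 27753 100000 (pr_scale 1293 5000 (c1g_s.snd h1)))))) (pr_add (pr_subr 2091 100000 (pr_scale 187 5000 (c1g_s.snd h1))) (pr_cmul (enc_norm (l4q2_4.enc h1.l h2)) (pr_norm (pr_subr 37389 100000 (pr_scale 2899 5000 (c1g_s.snd h1))))))) (pr_case (pr_subr 2 5 (c1g_s.snd h1)) (pr_add (pr_subr 4867 250000 (pr_scale 104 3125 (c1g_s.snd h1))) (pr_cmul (enc_norm (l4q2_4.enc h1.l h2)) (pr_norm (pr_subr 51571 100000 (pr_scale 197 200 (c1g_s.snd h1)))))) (pr_case (pr_subr 9 20 (c1g_s.snd h1)) (pr_add (pr_subr 5333 250000 (pr_scale 1897 50000 (c1g_s.snd h1))) (pr_cmul (enc_norm (l4q2_4.enc h1.l h2)) (pr_norm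 (pr_subr 62163 100000 (pr_scale 6249 5000 (c1g_s.snd h1)))))) (pr_add (pr_subr 4259 100000 (pr_scale 4259 50000 (c1g_s.snd h1))) (pr_cmul (enc_norm (l4q2_4.enc h1.l h2)) (pr_norm (pr_subr 2961 5000 (pr_scale 2961 2500 (c1g_s.snd h1))))))))))))))⟩
noncomputable def kc4q2_s : Sl2 kc4q2 := ⟨_, fun h1 h2 => (pr_norm (pr_mul (cv4p_s.snd h1) (pr_norm (pr_case (pr_csub (enc_pnc _ 1) (pr_scale 3 4 (pr_sq h1))) (pr_add (pr_subr 214234479 17300000 (pr_scale 1821317 173000 h1)) (pr_cmul (enc_norm (kc4q2_4.enc h1.l h2)) (pr_norm (pr_csub (enc_rat _ 1379889161 17300000) (pr_scale 1015923 17300 h1))))) (pr_case (pr_subr 1 4 (c1g_s.snd h1)) (pr_add (pr_subr 4537 20000 (pr_scale 14413 10000 (c1g_s.snd h1))) (pr_cmul (enc_norm (kc4q2_4.enc h1.l h2)) (pr_norm (pr_csub (enc_rat _ 1194961 100000) (pr_scale 153401 5000 (c1g_s.snd h1)))))) (pr_add (pr_csub (enc_rat _ 5339 20000)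 (pr_scale 5339 10000 (c1g_s.snd h1))) (pr_cmul (enc_norm (kc4q2_4.enc h1.l h2)) (pr_norm (pr_csub (enc_rat _ 106989 12500) (pr_scale 106989 6250 (c1g_s.snd h1)))))))))))⟩
noncomputable def cv4r_s : Sl1 cv4r := ⟨_, fun h1 => (pr_norm (pr_scale 4 5 (pr_subr 1 2 (swg_s.snd h1))))⟩
noncomputable def bf4q3_s : Sl2 bf4q3 := ⟨_, fun h1 h2 => (pr_norm (pr_case (pr_subr 321 200 h1) (pr_case (pr_subr 1547 1000 h1) (pr_add (pr_subr 3275269 47000000 (pr_scale 2047 23500 h1)) (pr_cmul (enc_norm (bf4q3_3.enc h1.l h2)) (pr_norm (pr_csub (enc_rat _ 3541151 235000) (pr_scale 44077 4700 h1))))) (pr_add (pr_subr 1658781 29000000 (pr_scale 573 7250 h1)) (pr_cmul (enc_norm (bf4q3_3.enc h1.l h2)) (pr_norm (pr_csub (enc_rat _ 1358572 90625) (pr_scale 27051 2900 h1)))))) (pr_case (pr_subr 87 50 h1) (pr_add (pr_csub (enc_rat _ 1235261 9000000) (pr_scale 2843 67500 h1)) (pr_cmul (enc_norm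 (bf4q3_3.enc h1.l h2)) (pr_norm (pr_csub (enc_rat _ 872131 50000) (pr_scale 16283 1500 h1))))) (pr_case (pr_subr 187 100 h1) (pr_add (pr_subr 8117797 13000000 (pr_scale 51433 130000 h1)) (pr_cmul (enc_norm (bf4q3_3.enc h1.l h2)) (pr_norm (pr_csub (enc_rat _ 7978691 650000) (pr_scale 10251 1300 h1))))) (pr_add (pr_subr 4225983 6500000 (pr_scale 2661 6500 h1)) (pr_cmul (enc_norm (bf4q3_3.enc h1.l h2)) (pr_norm (pr_csub (enc_rat _ 1532233 130000) (pr_scale 49557 6500 h1)))))))))⟩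
noncomputable def kf4q3_s : Sl2 kf4q3 := ⟨_, fun h1 h2 => (pr_norm (pr_mulz (fun ht => cv4r_two (enc_two h1.r ht)) (cv4r_s.snd h1) (bf4q3_s.snd h1 h2)))⟩
noncomputable def bx4q3_s : Sl2 bx4q3 := ⟨_, fun h1 h2 => (pr_norm (pr_case (pr_subr 321 200 h1) (pr_case (pr_subr 1547 1000 h1) (pr_add (pr_subr 4351849 2937500 (pr_scale 26881 23500 h1)) (pr_cmul (enc_norm (bx4q3_3.enc h1.l h2)) (pr_norm (pr_csub (enc_rat _ 182789 587500) (pr_scale 1351 4700 h1))))) (pr_add (pr_subr 65048183 58000000 (pr_scale 52849 58000 h1)) (pr_cmul (enc_norm (bx4q3_3.enc h1.l h2)) (pr_norm (pr_subr 3904127 1450000 (pr_scale 4797 2900 h1)))))) (pr_case (pr_subr 87 50 h1) (pr_add (pr_subr 1862011 2250000 (pr_scale 19657 27000 h1)) (pr_cmul (enc_norm (bx4q3_3.enc h1.l h2)) (pr_norm (pr_subr 812123 90000 (pr_scale 75583 13500 h1))))) (pr_case (pr_subr 187 100 h1) (pr_add (pr_csub (enc_rat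 _ 737631 1300000) (pr_scale 9577 130000 h1)) (pr_cmul (enc_norm (bx4q3_3.enc h1.l h2)) (pr_norm (pr_subr 1950931 325000 (pr_scale 10043 2600 h1))))) (pr_add (pr_csub (enc_rat _ 3784647 6500000) (pr_scale 10609 130000 h1)) (pr_cmul (enc_norm (bx4q3_3.enc h1.l h2)) (pr_norm (pr_subr 7502093 1300000 (pr_scale 24301 6500 h1)))))))))⟩
noncomputable def l4q3_s : Sl2 l4q3 := ⟨_, fun h1 h2 => (pr_norm (pr_mulz (fun ht => cv4r_two (enc_two h1.r ht)) (cv4r_s.snd h1) (bx4q3_s.snd h1 h2)))⟩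
noncomputable def bd4q3_s : Sl2 bd4q3 := ⟨_, fun h1 h2 => (pr_norm (pr_add (pr_csub (enc_rat _ 535091 100000) (pr_scale 90061 100000 h1)) (pr_cmul (enc_norm (enc_subr 72 125 h2)) (pr_norm (pr_csub (enc_rat _ 16124 3125) (pr_scale 84257 25000 h1))))))⟩
noncomputable def kc4q3_s : Sl2 kc4q3 := ⟨_, fun h1 h2 => (pr_norm (pr_mulz (fun ht => cv4r_two (enc_two h1.r ht)) (cv4r_s.snd h1) (bd4q3_s.snd h1 h2)))⟩
noncomputable def c3g_s : Sl1 c3g := ⟨_, fun h1 => (pr_sqrtg (pr_csub (enc_pnc _ 3) (pr_scale 3 4 (pr_sq h1))))⟩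
noncomputable def cv5m_s : Sl1 cv5m := ⟨_, fun h1 => (pr_norm (pr_add (pr_scale 7 10 (pr_addc (swg_s.snd h1) (enc_rat _ 1 2))) (pr_scale 3 10 (c3g_s.snd h1))))⟩
noncomputable def esg_s : Sl1 esg := ⟨_, fun h1 => (pr_norm (pr_subn 1 (pr_add (pr_half h1) (gsg_s.snd h1))))⟩
noncomputable def kf5q0_55_s : Sl2 kf5q0_55 := ⟨_, fun h1 h2 => (pr_csub (enc_pnc _ 1) h1)⟩
noncomputable def kf5q0_56_s : Sl2 kf5q0_56 := ⟨_, fun h1 h2 => (gsg_s.snd (pr_norm (kf5q0_55_s.snd h1 h2)))⟩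
noncomputable def kf5q0_59_s : Sl2 kf5q0_59 := ⟨_, fun h1 h2 => (pr_sub (pr_scale 3 4 (kf5q0_55_s.snd h1 h2)) (pr_half (kf5q0_56_s.snd h1 h2)))⟩
noncomputable def kf5q0_76_s : Sl2 kf5q0_76 := ⟨_, fun h1 h2 => (pr_mul (cv4m_s.snd h1) (bf4q0_s.snd h1 h2))⟩
noncomputable def kf5q0_s : Sl2 kf5q0 := ⟨_, fun h1 h2 => (pr_norm (pr_case (pr_subr 3 8 h1) (pr_mul (cv5m_s.snd h1) (pr_norm (pr_case (pr_subr 13 100 h1) (pr_add (pr_csub (enc_rat _ 6599 10000) (pr_scale 228123 130000 h1)) (pr_cmul (enc_norm (kf5q0_4.enc h1.l h2)) (pr_norm (pr_csub (enc_rat _ 13393 25000) (pr_scale 5921 13000 h1))))) (pr_case (pr_subr 1 4 h1) (pr_add (pr_csub (enc_rat _ 7858453 12000000) (pr_scale 205933 120000 h1)) (pr_cmul (enc_norm (kf5q0_4.enc h1.l h2)) (pr_norm (pr_csub (enc_rat _ 68551 120000) (pr_scale 4373 6000 h1))))) (pr_add (pr_csub (enc_rat _ 3262490993 5000000000) (pr_scale 2133270993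 1250000000 h1)) (pr_cmul (enc_norm (kf5q0_4.enc h1.l h2)) (pr_norm (pr_csub (enc_rat _ 606802757 500000000) (pr_scale 412277757 125000000 h1))))))))) (pr_case (pr_subr 473 1000 h1) (pr_add (kf5q0_76_s.snd h1 h2) (pr_mul (pr_norm (pr_mul (pr_norm (pr_sub (pr_mul h1 (pr_norm (pr_sub (pr_mul (pr_norm (pr_sub (kf5q0_59_s.snd h1 h2) (pr_csub (enc_rat _ 1 4) (pr_scale 3 8 (pr_mul (pr_norm (kf5q0_55_s.snd h1 h2)) (pr_nd (pr_inv (kf5q0_56_s.snd h1 h2)))))))) (pr_nd (pr_inv (esg_s.snd (pr_norm (kf5q0_55_s.snd h1 h2)))))) (kcg_s.snd (pr_norm (kf5q0_59_s.snd h1 h2)) h2)))) (kf5q0_76_s.snd h1 h2))) (pr_norm (pr_sub (cv5m_s.snd h1) (cv4m_s.snd h1))))) (pr_nd (pr_inv (pr_sub (pr_addc (swg_s.snd h1) (enc_rat _ 1 2)) (cv4m_s.snd h1)))))) (pr_mul (cv5m_s.snd h1) (pr_norm (pr_add (pr_csub (enc_rat _ 13377691 7500000) (pr_scale 32609117 7500000 h1)) (pr_cmul (enc_norm (kf5q0_4.enc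 h1.l h2)) (pr_norm (pr_subr 66889291 10800000 (pr_scale 71064787 5400000 h1))))))))))⟩
noncomputable def qsg_s : Sl1 qsg := ⟨_, fun h1 => (pr_norm (pr_mul (pr_norm (pr_csub (enc_pnc _ 1) (gsg_s.snd h1))) (pr_norm (pr_subn 1 (pr_nat 2 (gsg_s.snd h1))))))⟩
noncomputable def l5q0_52_s : Sl2 l5q0_52 := ⟨_, fun h1 h2 => (pr_csub (enc_pnc _ 1) h1)⟩
noncomputable def l5q0_67_s : Sl2 l5q0_67 := ⟨_, fun h1 h2 => (pr_mul (cv4m_s.snd h1) (bx4q0_s.snd h1 h2))⟩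
noncomputable def l5q0_s : Sl2 l5q0 := ⟨_, fun h1 h2 => (pr_norm (pr_case (pr_subr 3 8 h1) (pr_mul (cv5m_s.snd h1) (pr_norm (pr_case (pr_subr 13 100 h1) (pr_add (pr_addc (pr_scale 36643 130000 h1) (enc_rat _ 53467 1000000)) (pr_cmul (enc_norm (l5q0_4.enc h1.l h2)) (pr_norm (pr_csub (enc_rat _ 25091 100000) (pr_scale 2461 6500 h1))))) (pr_case (pr_subr 1 4 h1) (pr_add (pr_addc (pr_scale 2473 24000 h1) (enc_rat _ 36823 480000)) (pr_cmul (enc_norm (l5q0_4.enc h1.l h2)) (pr_norm (pr_addc (pr_scale 1519 4000 h1) (enc_rat _ 60929 400000))))) (pr_add (pr_csub (enc_rat _ 93583021 625000000) (pr_scale 14768073 78125000 h1)) (pr_cmul (enc_norm (l5q0_4.enc h1.l h2)) (pr_norm (pr_csub (enc_rat _ 178321329 250000000) (pr_scale 116506329 62500000 h1))))))))) (pr_case (pr_subr 473 1000 h1) (pr_add (l5q0_67_s.snd h1 h2) (pr_mul (pr_norm (pr_mul (pr_norm (pr_sub (pr_sub (qsg_s.snd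 (pr_norm (l5q0_52_s.snd h1 h2))) (pr_mul (pr_norm (pr_nat 2 (pr_subc (l5q0_52_s.snd h1 h2) h2))) (pr_norm (pr_mul (esg_s.snd (pr_norm (l5q0_52_s.snd h1 h2))) (kcg_s.snd (pr_norm (pr_sub (pr_scale 3 4 (l5q0_52_s.snd h1 h2)) (pr_half (gsg_s.snd (pr_norm (l5q0_52_s.snd h1 h2)))))) h2))))) (l5q0_67_s.snd h1 h2))) (pr_norm (pr_sub (cv5m_s.snd h1) (cv4m_s.snd h1))))) (pr_nd (pr_inv (pr_sub (pr_addc (swg_s.snd h1) (enc_rat _ 1 2)) (cv4m_s.snd h1)))))) (pr_mul (cv5m_s.snd h1) (pr_norm (pr_add (pr_csub (enc_rat _ 99298087 540000000) (pr_scale 73632967 270000000 h1)) (pr_cmul (enc_norm (l5q0_4.enc h1.l h2)) (pr_norm (pr_subr 27971791 54000000 (pr_scale 31408891 27000000 h1))))))))))⟩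
noncomputable def kc5q0_30_s : Sl2 kc5q0_30 := ⟨_, fun h1 h2 => (pr_csub (enc_pnc _ 1) h1)⟩
noncomputable def kc5q0_31_s : Sl2 kc5q0_31 := ⟨_, fun h1 h2 => (gsg_s.snd (pr_norm (kc5q0_30_s.snd h1 h2)))⟩
noncomputable def kc5q0_35_s : Sl2 kc5q0_35 := ⟨_, fun h1 h2 => (esg_s.snd (pr_norm (kc5q0_30_s.snd h1 h2)))⟩
noncomputable def kc5q0_39_s : Sl2 kc5q0_39 := ⟨_, fun h1 h2 => (gug_s.snd (pr_norm (kc5q0_30_s.snd h1 h2)))⟩
noncomputable def kc5q0_41_s : Sl2 kc5q0_41 := ⟨_, fun h1 h2 => (pr_mul (pr_norm (kc5q0_30_s.snd h1 h2)) (pr_nd (pr_inv (kc5q0_31_s.snd h1 h2))))⟩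
noncomputable def kc5q0_42_s : Sl2 kc5q0_42 := ⟨_, fun h1 h2 => (pr_scale 3 4 (kc5q0_41_s.snd h1 h2))⟩
noncomputable def kc5q0_71_s : Sl2 kc5q0_71 := ⟨_, fun h1 h2 => (pr_mul (cv4m_s.snd h1) (bd4q0_s.snd h1 h2))⟩
noncomputable def kc5q0_s : Sl2 kc5q0 := ⟨_, fun h1 h2 => (pr_norm (pr_case (pr_subr 3 8 h1) (pr_mul (cv5m_s.snd h1) (pr_norm (pr_add (pr_subr 707727 1000000 (pr_neg (pr_scale 7338656983 3750000000 h1))) (pr_cmul (enc_norm (kc5q0_4.enc h1.l h2)) (pr_norm (pr_subr 35143 100000 (pr_scale 129326921 46875000 h1))))))) (pr_case (pr_subr 473 1000 h1) (pr_add (kc5q0_71_s.snd h1 h2) (pr_mul (pr_norm (pr_mul (pr_norm (pr_sub (pr_add (pr_sub (pr_neg (pr_add (pr_cadd (enc_rat _ 3 4) (pr_scale 3 2 (kc5q0_30_s.snd h1 h2))) (pr_scale 3 4 (pr_mul (pr_norm (kc5q0_41_s.snd h1 h2)) (kc5q0_39_s.snd h1 h2))))) (pr_mul (pr_norm (pr_sub (pr_mul (pr_norm (pr_mul (pr_norm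 (kc5q0_42_s.snd h1 h2)) (pr_norm (pr_subn 3 (pr_nat 4 (kc5q0_31_s.snd h1 h2)))))) (kc5q0_35_s.snd h1 h2)) (pr_mul (qsg_s.snd (pr_norm (kc5q0_30_s.snd h1 h2))) (pr_norm (pr_csub (enc_rat _ 1 2) (kc5q0_42_s.snd h1 h2)))))) (pr_nd (pr_inv (pr_mul (pr_nd (pr_nat 2 (kc5q0_35_s.snd h1 h2))) (kc5q0_35_s.snd h1 h2)))))) (pr_mul (kcg_s.snd (pr_norm (pr_sub (pr_scale 3 4 (kc5q0_30_s.snd h1 h2)) (pr_half (kc5q0_31_s.snd h1 h2)))) h2) (pr_norm (pr_cadd (enc_pnc _ 1) (pr_add (kc5q0_39_s.snd h1 h2) (pr_nat 2 (kc5q0_31_s.snd h1 h2))))))) (kc5q0_71_s.snd h1 h2))) (pr_norm (pr_sub (cv5m_s.snd h1) (cv4m_s.snd h1))))) (pr_nd (pr_inv (pr_sub (pr_addc (swg_s.snd h1) (enc_rat _ 1 2)) (cv4m_s.snd h1)))))) (pr_mul (cv5m_s.snd h1) (pr_norm (pr_add (pr_subr 1771271507 180000000 (pr_scale 1619821127 90000000 h1)) (pr_cmul (enc_norm (kc5q0_4.enc h1.l h2)) (pr_norm (pr_csub (enc_rat _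 69541691 10800000) (pr_scale 66854759 5400000 h1))))))))))⟩
noncomputable def bf5q1_s : Sl2 bf5q1 := ⟨_, fun h1 h2 => (pr_norm (pr_case (pr_subr 67 100 h1) (pr_add (pr_subr 4160961 17000000 (pr_scale 11569 8500 h1)) (pr_cmul (enc_norm (bf5q1_3.enc h1.l h2)) (pr_norm (pr_subr 447159 850000 (pr_scale 5347 8500 h1))))) (pr_case (pr_subr 83 100 h1) (pr_add (pr_subr 2477681 16000000 (pr_scale 196299 160000 h1)) (pr_cmul (enc_norm (bf5q1_3.enc h1.l h2)) (pr_norm (pr_subr 127297 800000 (pr_scale 651 8000 h1))))) (pr_add (pr_addc (pr_scale 68277 85000 h1) (enc_rat _ 16723 85000)) (pr_cmul (enc_norm (bf5q1_3.enc h1.l h2)) (pr_norm (pr_subr 4579 8500 (pr_scale 4579 8500 h1))))))))⟩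
noncomputable def kf5q1_s : Sl2 kf5q1 := ⟨_, fun h1 h2 => (pr_norm (pr_mul (cv5m_s.snd h1) (bf5q1_s.snd h1 h2)))⟩
noncomputable def bx5q1_s : Sl2 bx5q1 := ⟨_, fun h1 h2 => (pr_norm (pr_case (pr_subr 67 100 h1) (pr_add (pr_csub (enc_rat _ 558877 3400000) (pr_scale 4967 21250 h1)) (pr_cmul (enc_norm (bx5q1_3.enc h1.l h2)) (pr_norm (pr_csub (enc_rat _ 76897 1700000) (pr_scale 47 1700 h1))))) (pr_case (pr_subr 83 100 h1) (pr_add (pr_csub (enc_rat _ 414213 16000000) (pr_scale 4327 160000 h1)) (pr_cmul (enc_norm (bx5q1_3.enc h1.l h2)) (pr_norm (pr_csub (enc_rat _ 229001 800000) (pr_scale 3099 8000 h1))))) (pr_add (pr_csub (enc_rat _ 1721 85000) (pr_scale 1721 85000 h1)) (pr_cmul (enc_norm (bx5q1_3.enc h1.l h2)) (pr_norm (pr_subr 3527 17000 (pr_scale 3527 17000 h1))))))))⟩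
noncomputable def l5q1_s : Sl2 l5q1 := ⟨_, fun h1 h2 => (pr_norm (pr_mul (cv5m_s.snd h1) (bx5q1_s.snd h1 h2)))⟩
noncomputable def bd5q1_s : Sl2 bd5q1 := ⟨_, fun h1 h2 => (pr_norm (pr_add (pr_subr 94723 500000 (pr_scale 94723 500000 h1)) (pr_cmul (enc_norm (enc_subr 72 125 h2)) (pr_norm (pr_csub (enc_rat _ 187103 50000) (pr_scale 187103 50000 h1))))))⟩
noncomputable def kc5q1_s : Sl2 kc5q1 := ⟨_, fun h1 h2 => (pr_norm (pr_mul (cv5m_s.snd h1) (bd5q1_s.snd h1 h2)))⟩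
noncomputable def cv5p_s : Sl1 cv5p := ⟨_, fun h1 => (pr_norm (pr_add (pr_scale 7 10 (pr_subr 1 2 (swg_s.snd h1))) (pr_scale 3 10 (c3g_s.snd h1))))⟩
noncomputable def bf5q2_s : Sl2 bf5q2 := ⟨_, fun h1 h2 => (pr_norm (pr_case (pr_subr 117 100 h1) (pr_add (pr_addc (pr_scale 101033 170000 h1) (enc_rat _ 5245677 17000000)) (pr_cmul (enc_norm (bf5q2_3.enc h1.l h2)) (pr_norm (pr_csub (enc_rat _ 3260097 850000) (pr_scale 13993 3400 h1))))) (pr_case (pr_subr 133 100 h1) (pr_add (pr_csub (enc_rat _ 27451557 8000000) (pr_scale 33197 16000 h1)) (pr_cmul (enc_norm (bf5q2_3.enc h1.l h2)) (pr_norm (pr_subr 739449 320000 (pr_scale 18201 16000 h1))))) (pr_add (pr_csub (enc_rat _ 92235577 17000000) (pr_scale 607613 170000 h1)) (pr_cmul (enc_norm (bf5q2_3.enc h1.l h2)) (pr_norm (pr_subr 330371 42500 (pr_scale 44581 8500 h1))))))))⟩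
noncomputable def kf5q2_s : Sl2 kf5q2 := ⟨_, fun h1 h2 => (pr_norm (pr_mul (cv5p_s.snd h1) (bf5q2_s.snd h1 h2)))⟩
noncomputable def bx5q2_s : Sl2 bx5q2 := ⟨_, fun h1 h2 => (pr_norm (pr_case (pr_subr 117 100 h1) (pr_add (pr_csub (enc_rat _ 1857417 17000000) (pr_scale 7133 170000 h1)) (pr_cmul (enc_norm (bx5q2_3.enc h1.l h2)) (pr_norm (pr_csub (enc_rat _ 5140429 1700000) (pr_scale 22571 8500 h1))))) (pr_case (pr_subr 133 100 h1) (pr_add (pr_csub (enc_rat _ 1987017 8000000) (pr_scale 12869 80000 h1)) (pr_cmul (enc_norm (bx5q2_3.enc h1.l h2)) (pr_norm (pr_subr 5640421 1600000 (pr_scale 47073 16000 h1))))) (pr_add (pr_subr 2181771 4250000 (pr_scale 35009 85000 h1)) (pr_cmul (enc_norm (bx5q2_3.enc h1.l h2)) (pr_norm (pr_csub (enc_rat _ 1278307 170000) (pr_scale 45579 8500 h1))))))))⟩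
noncomputable def l5q2_s : Sl2 l5q2 := ⟨_, fun h1 h2 => (pr_norm (pr_mul (cv5p_s.snd h1) (bx5q2_s.snd h1 h2)))⟩
noncomputable def bd5q2_s : Sl2 bd5q2 := ⟨_, fun h1 h2 => (pr_norm (pr_add (pr_subr 7103 200000 (pr_neg (pr_scale 12763 500000 h1))) (pr_cmul (enc_norm (enc_subr 72 125 h2)) (pr_norm (pr_subr 1550419 50000 (pr_scale 1533597 50000 h1))))))⟩
noncomputable def kc5q2_s : Sl2 kc5q2 := ⟨_, fun h1 h2 => (pr_norm (pr_mul (cv5p_s.snd h1) (bd5q2_s.snd h1 h2)))⟩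
noncomputable def ycg_s : Sl1 ycg := ⟨_, fun h1 => (pr_sqrtg (pr_scale 4 3 (pr_csub (enc_pnc _ 3) (pr_sq h1))))⟩
noncomputable def xc53_s : Sl1 xc53 := ⟨_, fun h1 => (pr_norm (pr_add (pr_scale 7 10 (pr_subr 1 2 (swg_s.snd (pr_nd (ycg_s.snd h1))))) (pr_scale 3 10 h1)))⟩
noncomputable def kfc53_6_s : Sl2 kfc53_6 := ⟨_, fun h1 h2 => (pr_subr 1 2 (swg_s.snd (pr_nd (ycg_s.snd h1))))⟩
noncomputable def kfc53_9_s : Sl2 kfc53_9 := ⟨_, fun h1 h2 => (pr_add (pr_scale 7 10 (kfc53_6_s.snd h1 h2)) (pr_scale 3 10 h1))⟩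
noncomputable def kfc53_61_s : Sl2 kfc53_61 := ⟨_, fun h1 h2 => (pr_subn 1 (ycg_s.snd h1))⟩
noncomputable def kfc53_62_s : Sl2 kfc53_62 := ⟨_, fun h1 h2 => (gsg_s.snd (pr_norm (kfc53_61_s.snd h1 h2)))⟩
noncomputable def kfc53_63_s : Sl2 kfc53_63 := ⟨_, fun h1 h2 => (pr_scale 3 4 (kfc53_61_s.snd h1 h2))⟩
noncomputable def kfc53_64_s : Sl2 kfc53_64 := ⟨_, fun h1 h2 => (pr_half (kfc53_62_s.snd h1 h2))⟩
noncomputable def kfc53_81_s : Sl2 kfc53_81 := ⟨_, fun h1 h2 => (cv4r_s.snd (pr_nd (ycg_s.snd h1)))⟩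
noncomputable def kfc53_83_s : Sl2 kfc53_83 := ⟨_, fun h1 h2 => (pr_mul (kfc53_81_s.snd h1 h2) (bf4q3_s.snd (pr_nd (ycg_s.snd h1)) h2))⟩
noncomputable def kfc53_s : Sl2 kfc53 := ⟨_, fun h1 h2 => (pr_norm (pr_case (pr_subr 1527 1000 (ycg_s.snd h1)) (pr_mul (pr_norm (kfc53_9_s.snd h1 h2)) (pr_norm (pr_add (pr_subr 341114205348312421 22559962500000000 (pr_scale 3604821223 270719550 h1)) (pr_cmul (enc_norm (kfc53_11.enc h1.l h2)) (pr_norm (pr_subr 46515772351898593 225599625000000 (pr_scale 992831918 5414391 h1))))))) (pr_case (pr_subr 13 8 (ycg_s.snd h1)) (pr_add (kfc53_83_s.snd h1 h2) (pr_mul (pr_norm (pr_mul (pr_norm (pr_sub (pr_mul (pr_norm (pr_subn 2 (ycg_s.snd h1))) (pr_norm (pr_add (pr_mul (pr_norm (pr_sub (pr_sub (kfc53_64_s.snd h1 h2) (kfc53_63_s.snd h1 h2)) (pr_csub (enc_rat _ 1 4) (pr_scale 3 8 (pr_mul (pr_norm (kfc53_61_s.snd h1 h2)) (pr_nd (pr_inv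 (kfc53_62_s.snd h1 h2)))))))) (pr_nd (pr_inv (esg_s.snd (pr_norm (kfc53_61_s.snd h1 h2)))))) (kcg_s.snd (pr_norm (pr_sub (kfc53_63_s.snd h1 h2) (kfc53_64_s.snd h1 h2))) h2)))) (kfc53_83_s.snd h1 h2))) (pr_norm (pr_sub (kfc53_9_s.snd h1 h2) (kfc53_81_s.snd h1 h2))))) (pr_nd (pr_inv (pr_sub (kfc53_6_s.snd h1 h2) (kfc53_81_s.snd h1 h2)))))) (pr_mul (pr_norm (kfc53_9_s.snd h1 h2)) (pr_norm (pr_case (pr_csub (enc_rat _ 209631373 250000000) h1) (pr_add (pr_csub (enc_rat _ 104739734443339369 427982272500000000) (pr_scale 430531753 1711929090 h1)) (pr_cmul (enc_norm (kfc53_11.enc h1.l h2)) (pr_norm (pr_subr 76455629031598411 10699556812500000 (pr_scale 1261097428 171192909 h1))))) (pr_case (pr_csub (enc_rat _ 147732867 250000000) h1) (pr_add (pr_csub (enc_rat _ 36156736908753 61898506000000) (pr_scale 20310375 30949253 h1)) (pr_cmul (enc_norm (kfc53_11.enc h1.l h2))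 (pr_norm (pr_subr 473867756579 1547462650000 (pr_neg (pr_scale 24450000 30949253 h1)))))) (pr_sub (pr_csub (enc_rat _ 1 2) (pr_scale 75917000 147732867 h1)) (pr_cmul (enc_norm (kfc53_11.enc h1.l h2)) (pr_nd (pr_scale 193265000 147732867 h1)))))))))))⟩
noncomputable def lc53_6_s : Sl2 lc53_6 := ⟨_, fun h1 h2 => (pr_subr 1 2 (swg_s.snd (pr_nd (ycg_s.snd h1))))⟩
noncomputable def lc53_9_s : Sl2 lc53_9 := ⟨_, fun h1 h2 => (pr_add (pr_scale 7 10 (lc53_6_s.snd h1 h2)) (pr_scale 3 10 h1))⟩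
noncomputable def lc53_60_s : Sl2 lc53_60 := ⟨_, fun h1 h2 => (pr_subn 1 (ycg_s.snd h1))⟩
noncomputable def lc53_73_s : Sl2 lc53_73 := ⟨_, fun h1 h2 => (cv4r_s.snd (pr_nd (ycg_s.snd h1)))⟩
noncomputable def lc53_75_s : Sl2 lc53_75 := ⟨_, fun h1 h2 => (pr_mul (lc53_73_s.snd h1 h2) (bx4q3_s.snd (pr_nd (ycg_s.snd h1)) h2))⟩
noncomputable def lc53_s : Sl2 lc53 := ⟨_, fun h1 h2 => (pr_norm (pr_case (pr_subr 1527 1000 (ycg_s.snd h1)) (pr_mul (pr_norm (lc53_9_s.snd h1 h2)) (pr_norm (pr_add (pr_csub (enc_rat _ 4511455898601047 2506662500000000) (pr_scale 14814787 10026650 h1)) (pr_cmul (enc_norm (lc53_11.enc h1.l h2)) (pr_norm (pr_csub (enc_rat _ 58583381940468047 2255996250000000) (pr_scale 628502861 27071955 h1))))))) (pr_case (pr_subr 13 8 (ycg_s.snd h1)) (pr_add (lc53_75_s.snd h1 h2) (pr_mul (pr_norm (pr_mul (pr_norm (pr_sub (pr_sub (qsg_s.snd (pr_norm (lc53_60_s.snd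 h1 h2))) (pr_mul (pr_norm (pr_nat 2 (pr_subc (lc53_60_s.snd h1 h2) h2))) (pr_norm (pr_mul (esg_s.snd (pr_norm (lc53_60_s.snd h1 h2))) (kcg_s.snd (pr_norm (pr_sub (pr_scale 3 4 (lc53_60_s.snd h1 h2)) (pr_half (gsg_s.snd (pr_norm (lc53_60_s.snd h1 h2)))))) h2))))) (lc53_75_s.snd h1 h2))) (pr_norm (pr_sub (lc53_9_s.snd h1 h2) (lc53_73_s.snd h1 h2))))) (pr_nd (pr_inv (pr_sub (lc53_6_s.snd h1 h2) (lc53_73_s.snd h1 h2)))))) (pr_mul (pr_norm (lc53_9_s.snd h1 h2)) (pr_norm (pr_case (pr_csub (enc_rat _ 209631373 250000000) h1) (pr_add (pr_csub (enc_rat _ 49508244086711901 71330378750000000) (pr_scale 124665737 285321515 h1)) (pr_cmul (enc_norm (lc53_11.enc h1.l h2)) (pr_norm (pr_csub (enc_rat _ 132773151116671493 42798227250000000) (pr_scale 509162441 171192909 h1))))) (pr_case (pr_csub (enc_rat _ 147732867 250000000) h1) (pr_add (pr_csub (enc_rat _ 5675697818143 15474626500000)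 (pr_scale 1442500 30949253 h1)) (pr_cmul (enc_norm (lc53_11.enc h1.l h2)) (pr_norm (pr_csub (enc_rat _ 1949833158111 1237970120000) (pr_scale 35678750 30949253 h1))))) (pr_add (pr_addc (pr_scale 103653775 295465734 h1) (enc_rat _ 2638489 20000000)) (pr_cmul (enc_norm (lc53_11.enc h1.l h2)) (pr_norm (pr_csub (enc_rat _ 4894289 5000000) (pr_scale 21266950 147732867 h1))))))))))))⟩
noncomputable def kcc53_6_s : Sl2 kcc53_6 := ⟨_, fun h1 h2 => (pr_subr 1 2 (swg_s.snd (pr_nd (ycg_s.snd h1))))⟩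
noncomputable def kcc53_9_s : Sl2 kcc53_9 := ⟨_, fun h1 h2 => (pr_add (pr_scale 7 10 (kcc53_6_s.snd h1 h2)) (pr_scale 3 10 h1))⟩
noncomputable def kcc53_34_s : Sl2 kcc53_34 := ⟨_, fun h1 h2 => (pr_subn 1 (ycg_s.snd h1))⟩
noncomputable def kcc53_35_s : Sl2 kcc53_35 := ⟨_, fun h1 h2 => (gsg_s.snd (pr_norm (kcc53_34_s.snd h1 h2)))⟩
noncomputable def kcc53_39_s : Sl2 kcc53_39 := ⟨_, fun h1 h2 => (esg_s.snd (pr_norm (kcc53_34_s.snd h1 h2)))⟩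
noncomputable def kcc53_44_s : Sl2 kcc53_44 := ⟨_, fun h1 h2 => (gug_s.snd (pr_norm (kcc53_34_s.snd h1 h2)))⟩
noncomputable def kcc53_46_s : Sl2 kcc53_46 := ⟨_, fun h1 h2 => (pr_mul (pr_norm (kcc53_34_s.snd h1 h2)) (pr_nd (pr_inv (kcc53_35_s.snd h1 h2))))⟩
noncomputable def kcc53_47_s : Sl2 kcc53_47 := ⟨_, fun h1 h2 => (pr_scale 3 4 (kcc53_46_s.snd h1 h2))⟩
noncomputable def kcc53_72_s : Sl2 kcc53_72 := ⟨_, fun h1 h2 => (cv4r_s.snd (pr_nd (ycg_s.snd h1)))⟩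
noncomputable def kcc53_74_s : Sl2 kcc53_74 := ⟨_, fun h1 h2 => (pr_mul (kcc53_72_s.snd h1 h2) (bd4q3_s.snd (pr_nd (ycg_s.snd h1)) h2))⟩
noncomputable def kcc53_s : Sl2 kcc53 := ⟨_, fun h1 h2 => (pr_norm (pr_case (pr_subr 1527 1000 (ycg_s.snd h1)) (pr_mul (pr_norm (kcc53_9_s.snd h1 h2)) (pr_norm (pr_add (pr_csub (enc_rat _ 51126947571287713 4511992500000000) (pr_scale 458719519 54143910 h1)) (pr_cmul (enc_norm (kcc53_11.enc h1.l h2)) (pr_norm (pr_subr 31498941876541837 225599625000000 (pr_scale 675746762 5414391 h1))))))) (pr_case (pr_subr 13 8 (ycg_s.snd h1)) (pr_add (kcc53_74_s.snd h1 h2) (pr_mul (pr_norm (pr_mul (pr_norm (pr_sub (pr_add (pr_sub (pr_add (pr_cadd (enc_rat _ 3 4) (pr_scale 3 2 (kcc53_34_s.snd h1 h2))) (pr_scale 3 4 (pr_mul (pr_norm (kcc53_46_s.snd h1 h2)) (kcc53_44_s.snd h1 h2)))) (pr_mul (pr_norm (pr_sub (pr_mul (pr_norm (pr_mul (pr_norm (kcc53_47_s.snd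 h1 h2)) (pr_norm (pr_subn 3 (pr_nat 4 (kcc53_35_s.snd h1 h2)))))) (kcc53_39_s.snd h1 h2)) (pr_mul (qsg_s.snd (pr_norm (kcc53_34_s.snd h1 h2))) (pr_norm (pr_csub (enc_rat _ 1 2) (kcc53_47_s.snd h1 h2)))))) (pr_nd (pr_inv (pr_mul (pr_nd (pr_nat 2 (kcc53_39_s.snd h1 h2))) (kcc53_39_s.snd h1 h2)))))) (pr_mul (kcg_s.snd (pr_norm (pr_sub (pr_scale 3 4 (kcc53_34_s.snd h1 h2)) (pr_half (kcc53_35_s.snd h1 h2)))) h2) (pr_norm (pr_csub (enc_pnc _ 1) (pr_add (kcc53_44_s.snd h1 h2) (pr_nat 2 (kcc53_35_s.snd h1 h2))))))) (kcc53_74_s.snd h1 h2))) (pr_norm (pr_sub (kcc53_9_s.snd h1 h2) (kcc53_72_s.snd h1 h2))))) (pr_nd (pr_inv (pr_sub (kcc53_6_s.snd h1 h2) (kcc53_72_s.snd h1 h2)))))) (pr_mul (pr_norm (kcc53_9_s.snd h1 h2)) (pr_norm (pr_add (pr_addc (pr_scale 178027008451 70680288070 h1) (enc_rat _ 36877 280000)) (pr_cmul (enc_norm (kcc53_11.enc h1.l h2)) (pr_norm (pr_subr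 8713 2000 (pr_scale 4826401378 1009718401 h1))))))))))⟩
noncomputable def cv6m_s : Sl1 cv6m := ⟨_, fun h1 => (pr_norm (pr_add (pr_scale 3 10 (pr_addc (swg_s.snd h1) (enc_rat _ 1 2))) (pr_scale 7 10 (c3g_s.snd h1))))⟩
noncomputable def bf6q0_s : Sl2 bf6q0 := ⟨_, fun h1 h2 => (pr_norm (pr_case (pr_subr 13 50 h1) (pr_case (pr_subr 13 100 h1) (pr_add (pr_csub (enc_rat _ 30623 100000) (pr_scale 7529 6500 h1)) (pr_cmul (enc_norm (bf6q0_3.enc h1.l h2)) (pr_norm (pr_csub (enc_rat _ 2584 3125) (pr_scale 13183 3250 h1))))) (pr_add (pr_csub (enc_rat _ 71663 250000) (pr_scale 65501 65000 h1)) (pr_cmul (enc_norm (bf6q0_3.enc h1.l h2)) (pr_norm (pr_csub (enc_rat _ 1101 2500) (pr_scale 3521 3250 h1)))))) (pr_case (pr_subr 79 200 h1) (pr_add (pr_csub (enc_rat _ 480623 1350000) (pr_scale 172057 135000 h1)) (pr_cmul (enc_norm (bf6q0_3.enc h1.l h2)) (pr_norm (pr_csub (enc_rat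 _ 23581 67500) (pr_scale 4949 6750 h1))))) (pr_case (pr_subr 453 1000 h1) (pr_add (pr_csub (enc_rat _ 7697421 7250000) (pr_scale 88771 29000 h1)) (pr_cmul (enc_norm (bf6q0_3.enc h1.l h2)) (pr_norm (pr_subr 77361 725000 (pr_scale 611 1450 h1))))) (pr_add (pr_csub (enc_rat _ 10302981 9400000) (pr_scale 73717 23500 h1)) (pr_cmul (enc_norm (bf6q0_3.enc h1.l h2)) (pr_norm (pr_subr 494499 4700000 (pr_scale 393 940 h1)))))))))⟩
noncomputable def kf6q0_s : Sl2 kf6q0 := ⟨_, fun h1 h2 => (pr_norm (pr_mul (cv6m_s.snd h1) (bf6q0_s.snd h1 h2)))⟩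
noncomputable def bx6q0_s : Sl2 bx6q0 := ⟨_, fun h1 h2 => (pr_norm (pr_case (pr_subr 13 50 h1) (pr_case (pr_subr 13 100 h1) (pr_add (pr_csub (enc_rat _ 9287 62500) (pr_scale 2199 13000 h1)) (pr_cmul (enc_norm (bx6q0_3.enc h1.l h2)) (pr_norm (pr_csub (enc_rat _ 4053 10000) (pr_scale 10177 6500 h1))))) (pr_add (pr_csub (enc_rat _ 157961 1000000) (pr_scale 31359 130000 h1)) (pr_cmul (enc_norm (bx6q0_3.enc h1.l h2)) (pr_norm (pr_csub (enc_rat _ 6303 25000) (pr_scale 1259 3250 h1)))))) (pr_case (pr_subr 79 200 h1) (pr_add (pr_csub (enc_rat _ 3811189 27000000) (pr_scale 23839 135000 h1)) (pr_cmul (enc_norm (bx6q0_3.enc h1.l h2)) (pr_norm (pr_csub (enc_rat _ 7994 28125) (pr_scale 2299 4500 h1))))) (pr_case (pr_subr 453 1000 h1) (pr_add (pr_csub (enc_rat _ 11002187 58000000) (pr_scale 17369 58000 h1)) (pr_cmul (enc_norm (bx6q0_3.enc h1.l h2)) (pr_norm (pr_addc (pr_scale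 21 1160 h1) (enc_rat _ 436619 5800000))))) (pr_add (pr_csub (enc_rat _ 4486349 23500000) (pr_scale 14201 47000 h1)) (pr_cmul (enc_norm (bx6q0_3.enc h1.l h2)) (pr_norm (pr_csub (enc_rat _ 39667 188000) (pr_scale 1323 4700 h1)))))))))⟩
noncomputable def l6q0_s : Sl2 l6q0 := ⟨_, fun h1 h2 => (pr_norm (pr_mul (cv6m_s.snd h1) (bx6q0_s.snd h1 h2)))⟩
noncomputable def bd6q0_s : Sl2 bd6q0 := ⟨_, fun h1 h2 => (pr_norm (pr_add (pr_subr 82147 62500 (pr_scale 849943 500000 h1)) (pr_cmul (enc_norm (enc_subr 72 125 h2)) (pr_norm (pr_addc (pr_scale 611 50000 h1) (enc_rat _ 12403 25000))))))⟩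
noncomputable def kc6q0_s : Sl2 kc6q0 := ⟨_, fun h1 h2 => (pr_norm (pr_mul (cv6m_s.snd h1) (bd6q0_s.snd h1 h2)))⟩
noncomputable def bf6q1_s : Sl2 bf6q1 := ⟨_, fun h1 h2 => (pr_norm (pr_case (pr_subr 67 100 h1) (pr_add (pr_subr 65991 425000 (pr_scale 108197 85000 h1)) (pr_cmul (enc_norm (bf6q1_3.enc h1.l h2)) (pr_norm (pr_subr 227719 425000 (pr_scale 1477 2125 h1))))) (pr_case (pr_subr 83 100 h1) (pr_add (pr_subr 339863 8000000 (pr_scale 17673 16000 h1)) (pr_cmul (enc_norm (bf6q1_3.enc h1.l h2)) (pr_norm (pr_subr 38237 320000 (pr_scale 1179 16000 h1))))) (pr_add (pr_addc (pr_scale 7856 10625 h1) (enc_rat _ 2769 10625)) (pr_cmul (enc_norm (bf6q1_3.enc h1.l h2)) (pr_norm (pr_subr 5833 17000 (pr_scale 5833 17000 h1))))))))⟩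
noncomputable def kf6q1_s : Sl2 kf6q1 := ⟨_, fun h1 h2 => (pr_norm (pr_mul (cv6m_s.snd h1) (bf6q1_s.snd h1 h2)))⟩
noncomputable def bx6q1_s : Sl2 bx6q1 := ⟨_, fun h1 h2 => (pr_norm (pr_case (pr_subr 67 100 h1) (pr_add (pr_csub (enc_rat _ 2006609 17000000) (pr_scale 25197 170000 h1)) (pr_cmul (enc_norm (bx6q1_3.enc h1.l h2)) (pr_norm (pr_csub (enc_rat _ 20337 100000) (pr_scale 73 250 h1))))) (pr_case (pr_subr 83 100 h1) (pr_add (pr_csub (enc_rat _ 91273 1600000) (pr_scale 183 3200 h1)) (pr_cmul (enc_norm (bx6q1_3.enc h1.l h2)) (pr_norm (pr_csub (enc_rat _ 107843 1600000) (pr_scale 57 640 h1))))) (pr_add (pr_csub (enc_rat _ 479 8500) (pr_scale 479 8500 h1)) (pr_cmul (enc_norm (bx6q1_3.enc h1.l h2)) (pr_norm (pr_subr 163 4250 (pr_scale 163 4250 h1))))))))⟩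
noncomputable def l6q1_s : Sl2 l6q1 := ⟨_, fun h1 h2 => (pr_norm (pr_mul (cv6m_s.snd h1) (bx6q1_s.snd h1 h2)))⟩
noncomputable def bd6q1_s : Sl2 bd6q1 := ⟨_, fun h1 h2 => (pr_norm (pr_add (pr_subr 2239 15625 (pr_scale 2239 15625 h1)) (pr_cmul (enc_norm (enc_subr 72 125 h2)) (pr_norm (pr_csub (enc_rat _ 34187 25000) (pr_scale 34187 25000 h1))))))⟩
noncomputable def kc6q1_s : Sl2 kc6q1 := ⟨_, fun h1 h2 => (pr_norm (pr_mul (cv6m_s.snd h1) (bd6q1_s.snd h1 h2)))⟩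
noncomputable def cv6p_s : Sl1 cv6p := ⟨_, fun h1 => (pr_norm (pr_add (pr_scale 3 10 (pr_subr 1 2 (swg_s.snd h1))) (pr_scale 7 10 (c3g_s.snd h1))))⟩
noncomputable def bf6q2_s : Sl2 bf6q2 := ⟨_, fun h1 h2 => (pr_norm (pr_case (pr_subr 117 100 h1) (pr_add (pr_addc (pr_scale 9609 21250 h1) (enc_rat _ 3845789 8500000)) (pr_cmul (enc_norm (bf6q2_3.enc h1.l h2)) (pr_norm (pr_csub (enc_rat _ 2665163 1700000) (pr_scale 29399 17000 h1))))) (pr_case (pr_subr 133 100 h1) (pr_add (pr_csub (enc_rat _ 3606233 1600000) (pr_scale 87001 80000 h1)) (pr_cmul (enc_norm (bf6q2_3.enc h1.l h2)) (pr_norm (pr_subr 205579 320000 (pr_scale 511 3200 h1))))) (pr_add (pr_csub (enc_rat _ 7511159 1700000) (pr_scale 230767 85000 h1)) (pr_cmul (enc_norm (bf6q2_3.enc h1.l h2)) (pr_norm (pr_subr 5778169 1700000 (pr_scale 9487 4250 h1))))))))⟩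
noncomputable def kf6q2_s : Sl2 kf6q2 := ⟨_, fun h1 h2 => (pr_norm (pr_mul (cv6p_s.snd h1) (bf6q2_s.snd h1 h2)))⟩
noncomputable def bx6q2_s : Sl2 bx6q2 := ⟨_, fun h1 h2 => (pr_norm (pr_case (pr_subr 117 100 h1) (pr_add (pr_csub (enc_rat _ 1197323 8500000) (pr_scale 12667 85000 h1)) (pr_cmul (enc_norm (bx6q2_3.enc h1.l h2)) (pr_norm (pr_subr 231487 425000 (pr_scale 961 2125 h1))))) (pr_case (pr_subr 133 100 h1) (pr_add (pr_csub (enc_rat _ 1720643 16000000) (pr_scale 19287 160000 h1)) (pr_cmul (enc_norm (bx6q2_3.enc h1.l h2)) (pr_norm (pr_csub (enc_rat _ 1723949 800000) (pr_scale 14841 8000 h1))))) (pr_add (pr_subr 4327913 17000000 (pr_scale 12897 85000 h1)) (pr_cmul (enc_norm (bx6q2_3.enc h1.l h2)) (pr_norm (pr_subr 3581667 1700000 (pr_scale 22937 17000 h1))))))))⟩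
noncomputable def l6q2_s : Sl2 l6q2 := ⟨_, fun h1 h2 => (pr_norm (pr_mul (cv6p_s.snd h1) (bx6q2_s.snd h1 h2)))⟩
noncomputable def bd6q2_s : Sl2 bd6q2 := ⟨_, fun h1 h2 => (pr_norm (pr_add (pr_subr 70293 1000000 (pr_scale 14727 250000 h1)) (pr_cmul (enc_norm (enc_subr 72 125 h2)) (pr_norm (pr_subr 342023 25000 (pr_scale 166127 12500 h1))))))⟩
noncomputable def kc6q2_s : Sl2 kc6q2 := ⟨_, fun h1 h2 => (pr_norm (pr_mul (cv6p_s.snd h1) (bd6q2_s.snd h1 h2)))⟩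
noncomputable def xc63_s : Sl1 xc63 := ⟨_, fun h1 => (pr_norm (pr_add (pr_scale 3 10 (pr_subr 1 2 (swg_s.snd (pr_nd (ycg_s.snd h1))))) (pr_scale 7 10 h1)))⟩
noncomputable def kfc63_s : Sl2 kfc63 := ⟨_, fun h1 h2 => (pr_norm (pr_mul (pr_norm (pr_add (pr_scale 3 10 (pr_subr 1 2 (swg_s.snd (pr_nd (ycg_s.snd h1))))) (pr_scale 7 10 h1))) (pr_norm (pr_case (pr_csub (enc_rat _ 1033431783 1000000000) h1) (pr_case (pr_csub (enc_rat _ 1097767393 1000000000) h1) (pr_add (pr_csub (enc_rat _ 8885773840133 5984566375000) (pr_scale 75670000 47876531 h1)) (pr_cmul (enc_norm (kfc63_11.enc h1.l h2)) (pr_norm (pr_subr 2135105556571 1196913275000 (pr_scale 81800000 47876531 h1))))) (pr_add (pr_csub (enc_rat _ 85660923791447 64335610000000) (pr_scale 9269900 6433561 h1)) (pr_cmul (enc_norm (kfc63_11.enc h1.l h2)) (pr_norm (pr_subr 382340639637 257342440000 (pr_scale 9245000 6433561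 h1)))))) (pr_case (pr_csub (enc_rat _ 106748829 125000000) h1) (pr_add (pr_csub (enc_rat _ 51958424145573 59813717000000) (pr_scale 178192000 179441151 h1)) (pr_cmul (enc_norm (kfc63_11.enc h1.l h2)) (pr_norm (pr_subr 8139991096771 5981371700000 (pr_scale 236180000 179441151 h1))))) (pr_case (pr_csub (enc_rat _ 614267857 1000000000) h1) (pr_add (pr_csub (enc_rat _ 151071473266527 239722775000000) (pr_scale 6844440 9588911 h1)) (pr_cmul (enc_norm (kfc63_11.enc h1.l h2)) (pr_norm (pr_subr 13272852061801 23972277500000 (pr_scale 3557200 9588911 h1))))) (pr_sub (pr_csub (enc_rat _ 1 2) (pr_scale 308264000 614267857 h1)) (pr_cmul (enc_norm (kfc63_11.enc h1.l h2)) (pr_nd (pr_scale 325800000 614267857 h1))))))))))⟩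
noncomputable def lc63_s : Sl2 lc63 := ⟨_, fun h1 h2 => (pr_norm (pr_mul (pr_norm (pr_add (pr_scale 3 10 (pr_subr 1 2 (swg_s.snd (pr_nd (ycg_s.snd h1))))) (pr_scale 7 10 h1))) (pr_norm (pr_case (pr_csub (enc_rat _ 1033431783 1000000000) h1) (pr_case (pr_csub (enc_rat _ 1097767393 1000000000) h1) (pr_add (pr_csub (enc_rat _ 5254687740601 5984566375000) (pr_scale 36804000 47876531 h1)) (pr_cmul (enc_norm (lc63_11.enc h1.l h2)) (pr_norm (pr_csub (enc_rat _ 785206778767 957530620000) (pr_scale 39750000 47876531 h1))))) (pr_add (pr_csub (enc_rat _ 53255706310983 64335610000000) (pr_scale 4651100 6433561 h1)) (pr_cmul (enc_norm (lc63_11.enc h1.l h2)) (pr_norm (pr_csub (enc_rat _ 714693553749 804195125000) (pr_scale 5744000 6433561 h1)))))) (pr_case (pr_csub (enc_rat _ 106748829 125000000) h1) (pr_add (pr_csub (enc_rat _ 12120751934149 14953429250000) (pr_scale 126737000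 179441151 h1)) (pr_cmul (enc_norm (lc63_11.enc h1.l h2)) (pr_norm (pr_csub (enc_rat _ 4803448027913 2990685850000) (pr_scale 284780000 179441151 h1))))) (pr_case (pr_csub (enc_rat _ 614267857 1000000000) h1) (pr_add (pr_csub (enc_rat _ 41325492630877 59930693750000) (pr_scale 5413760 9588911 h1)) (pr_cmul (enc_norm (lc63_11.enc h1.l h2)) (pr_norm (pr_csub (enc_rat _ 5974154725483 2397227750000) (pr_scale 25166000 9588911 h1))))) (pr_add (pr_addc (pr_scale 30117650 87752551 h1) (enc_rat _ 2638489 20000000)) (pr_cmul (enc_norm (lc63_11.enc h1.l h2)) (pr_norm (pr_csub (enc_rat _ 4894289 5000000) (pr_scale 98887800 614267857 h1)))))))))))⟩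
noncomputable def kcc63_s : Sl2 kcc63 := ⟨_, fun h1 h2 => (pr_norm (pr_mul (pr_norm (pr_add (pr_scale 3 10 (pr_subr 1 2 (swg_s.snd (pr_nd (ycg_s.snd h1))))) (pr_scale 7 10 h1))) (pr_norm (pr_add (pr_addc (pr_scale 1445796500 2004876867 h1) (enc_rat _ 36877 280000)) (pr_cmul (enc_norm (enc_subr 72 125 h2)) (pr_norm (pr_subr 8713 2000 (pr_scale 1430980000 286410981 h1))))))))⟩
noncomputable def kf7q0_s : Sl2 kf7q0 := ⟨_, fun h1 h2 => (pr_norm (pr_sub (pr_mul h1 (kcg_s.snd (pr_nd (pr_half h1)) h2)) (pr_mul (pr_norm (pr_mul (pr_nd (pr_sq h1)) (pr_norm (pr_addc (c3g_s.snd h1) (enc_rat _ 3 2))))) (pr_nd (pr_inv (pr_mul (pr_norm (pr_csub (enc_pnc _ 1) h1)) (pr_norm (pr_cadd (enc_pnc _ 1) h1))))))))⟩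
noncomputable def l7q0_6_s : Sl2 l7q0_6 := ⟨_, fun h1 h2 => (pr_half h1)⟩
noncomputable def l7q0_7_s : Sl2 l7q0_7 := ⟨_, fun h1 h2 => (pr_half (c3g_s.snd h1))⟩
noncomputable def l7q0_8_s : Sl2 l7q0_8 := ⟨_, fun h1 h2 => (pr_scale 1 4 h1)⟩
noncomputable def l7q0_s : Sl2 l7q0 := ⟨_, fun h1 h2 => (pr_norm (pr_add (txg_s.snd (pr_nd (l7q0_6_s.snd h1 h2)) (pr_norm (pr_sub (l7q0_7_s.snd h1 h2) (l7q0_8_s.snd h1 h2))) h2) (txg_s.snd (pr_nd (pr_neg (l7q0_6_s.snd h1 h2))) (pr_norm (pr_add (l7q0_7_s.snd h1 h2) (l7q0_8_s.snd h1 h2))) h2)))⟩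
noncomputable def kc7q0_6_s : Sl2 kc7q0_6 := ⟨_, fun h1 h2 => (pr_half h1)⟩
noncomputable def kc7q0_s : Sl2 kc7q0 := ⟨_, fun h1 h2 => (pr_norm (pr_case (pr_subr 1 4 (kc7q0_6_s.snd h1 h2)) (pr_case (pr_subr 13 100 (kc7q0_6_s.snd h1 h2)) (pr_add (pr_subr 566787 200000 (pr_scale 1704793 260000 h1)) (pr_cmul (enc_norm (kc7q0_3.enc h1.l h2)) (pr_norm (pr_csub (enc_rat _ 41929 25000) (pr_scale 64551 26000 h1))))) (pr_add (pr_subr 9022173 4000000 (pr_scale 69317 16000 h1)) (pr_cmul (enc_norm (kc7q0_3.enc h1.l h2)) (pr_norm (pr_csub (enc_rat _ 4609 2400) (pr_scale 2051 600 h1)))))) (pr_case (pr_subr 19 50 (kc7q0_6_s.snd h1 h2)) (pr_add (pr_subr 1194703 6500000 (pr_scale 9819 52000 h1)) (pr_cmul (enc_norm (kc7q0_3.enc h1.l h2)) (pr_norm (pr_csub (enc_rat _ 168541 52000) (pr_scale 39389 6500 h1))))) (pr_add (pr_subr 10073 60000 (pr_scale 10073 60000 h1)) (pr_cmul (enc_norm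 (kc7q0_3.enc h1.l h2)) (pr_norm (pr_subr 45477 8000 (pr_scale 45477 8000 h1))))))))⟩
noncomputable def kf7q1_s : Sl2 kf7q1 := ⟨_, fun h1 h2 => (pr_norm (pr_add (pr_mul (pr_norm (pr_mul h1 (pr_norm (pr_addc (c3g_s.snd h1) (enc_rat _ 3 2))))) (pr_nd (pr_inv (pr_cadd (enc_pnc _ 1) h1)))) (pr_mul (pr_norm (pr_subn 1 h1)) (kcg_s.snd (pr_nd (pr_half h1)) h2))))⟩
noncomputable def l7q1_7_s : Sl2 l7q1_7 := ⟨_, fun h1 h2 => (pr_half h1)⟩
noncomputable def l7q1_8_s : Sl2 l7q1_8 := ⟨_, fun h1 h2 => (pr_half (c3g_s.snd h1))⟩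
noncomputable def l7q1_9_s : Sl2 l7q1_9 := ⟨_, fun h1 h2 => (pr_scale 1 4 h1)⟩
noncomputable def l7q1_s : Sl2 l7q1 := ⟨_, fun h1 h2 => (pr_norm (pr_add (txg_s.snd (pr_nd (l7q1_7_s.snd h1 h2)) (pr_norm (pr_sub (l7q1_8_s.snd h1 h2) (l7q1_9_s.snd h1 h2))) h2) (txg_s.snd (pr_nd (pr_neg (l7q1_7_s.snd h1 h2))) (pr_norm (pr_add (l7q1_8_s.snd h1 h2) (l7q1_9_s.snd h1 h2))) h2)))⟩
noncomputable def kc7q1_7_s : Sl2 kc7q1_7 := ⟨_, fun h1 h2 => (pr_half h1)⟩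
noncomputable def kc7q1_s : Sl2 kc7q1 := ⟨_, fun h1 h2 => (pr_norm (pr_case (pr_subr 1 4 (kc7q1_7_s.snd h1 h2)) (pr_case (pr_subr 13 100 (kc7q1_7_s.snd h1 h2)) (pr_add (pr_subr 566787 200000 (pr_scale 1704793 260000 h1)) (pr_cmul (enc_norm (kc7q1_3.enc h1.l h2)) (pr_norm (pr_csub (enc_rat _ 41929 25000) (pr_scale 64551 26000 h1))))) (pr_add (pr_subr 9022173 4000000 (pr_scale 69317 16000 h1)) (pr_cmul (enc_norm (kc7q1_3.enc h1.l h2)) (pr_norm (pr_csub (enc_rat _ 4609 2400) (pr_scale 2051 600 h1)))))) (pr_case (pr_subr 19 50 (kc7q1_7_s.snd h1 h2)) (pr_add (pr_subr 1194703 6500000 (pr_scale 9819 52000 h1)) (pr_cmul (enc_norm (kc7q1_3.enc h1.l h2)) (pr_norm (pr_csub (enc_rat _ 168541 52000) (pr_scale 39389 6500 h1))))) (pr_add (pr_subr 10073 60000 (pr_scale 10073 60000 h1)) (pr_cmul (enc_norm (kc7q1_3.enc h1.l h2)) (pr_norm (pr_subr 45477 8000 (pr_scale 45477 8000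 h1))))))))⟩
noncomputable def kf7q2_s : Sl2 kf7q2 := ⟨_, fun h1 h2 => (pr_norm (pr_add (pr_mul (pr_norm (pr_mul (pr_norm (pr_sub (pr_nat 2 (c3g_s.snd h1)) h1)) (pr_norm (pr_sub (pr_addc (c3g_s.snd h1) (enc_pnc _ 3)) (pr_scale 3 2 h1))))) (pr_nd (pr_inv (pr_nat 4 (pr_csub (enc_pnc _ 2) h1))))) (pr_mul (pr_norm (pr_subn 1 h1)) (kcg_s.snd (pr_norm (pr_sub (pr_scale 1 4 h1) (pr_half (c3g_s.snd h1)))) h2))))⟩
noncomputable def l7q2_7_s : Sl2 l7q2_7 := ⟨_, fun h1 h2 => (pr_half (c3g_s.snd h1))⟩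
noncomputable def l7q2_8_s : Sl2 l7q2_8 := ⟨_, fun h1 h2 => (pr_scale 1 4 h1)⟩
noncomputable def l7q2_9_s : Sl2 l7q2_9 := ⟨_, fun h1 h2 => (pr_sub (l7q2_7_s.snd h1 h2) (l7q2_8_s.snd h1 h2))⟩
noncomputable def l7q2_12_s : Sl2 l7q2_12 := ⟨_, fun h1 h2 => (pr_add (pr_scale 1 4 (c3g_s.snd h1)) (pr_scale 3 8 h1))⟩
noncomputable def l7q2_14_s : Sl2 l7q2_14 := ⟨_, fun h1 h2 => (pr_half (l7q2_9_s.snd h1 h2))⟩
noncomputable def l7q2_s : Sl2 l7q2 := ⟨_, fun h1 h2 => (pr_norm (pr_sub (pr_nat 2 (txg_s.snd (pr_norm (pr_sub (l7q2_8_s.snd h1 h2) (l7q2_7_s.snd h1 h2))) (pr_norm (pr_add (l7q2_12_s.snd h1 h2) (l7q2_14_s.snd h1 h2))) h2)) (txg_s.snd (pr_norm (l7q2_9_s.snd h1 h2)) (pr_norm (pr_sub (l7q2_12_s.snd h1 h2) (l7q2_14_s.snd h1 h2))) h2)))⟩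
noncomputable def kc7q2_9_s : Sl2 kc7q2_9 := ⟨_, fun h1 h2 => (pr_sub (pr_half (c3g_s.snd h1)) (pr_scale 1 4 h1))⟩
noncomputable def kc7q2_s : Sl2 kc7q2 := ⟨_, fun h1 h2 => (pr_norm (pr_case (pr_addc (kc7q2_9_s.snd h1 h2) (enc_rat _ 7 100)) (pr_case (pr_addc (kc7q2_9_s.snd h1 h2) (enc_rat _ 9 25)) (pr_add (pr_addc (pr_scale 36877 140000 (kc7q2_9_s.snd h1 h2)) (enc_rat _ 36877 280000)) (pr_cmul (enc_norm (kc7q2_3.enc h1.l h2)) (pr_norm (pr_subr 8713 2000 (pr_neg (pr_scale 8713 1000 (kc7q2_9_s.snd h1 h2))))))) (pr_case (pr_addc (kc7q2_9_s.snd h1 h2) (enc_rat _ 21 100)) (pr_add (pr_addc (pr_scale 48943 150000 (kc7q2_9_s.snd h1 h2)) (enc_rat _ 771701 5000000)) (pr_cmul (enc_norm (kc7q2_3.enc h1.l h2)) (pr_norm (pr_subr 209123 250000 (pr_scale 1331 1250 (kc7q2_9_s.snd h1 h2)))))) (pr_add (pr_addc (pr_scale 339 1250 (kc7q2_9_s.snd h1 h2)) (enc_rat _ 35693 250000))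 (pr_cmul (enc_norm (kc7q2_3.enc h1.l h2)) (pr_norm (pr_addc (pr_scale 36061 7000 (kc7q2_9_s.snd h1 h2)) (enc_rat _ 2173 100000))))))) (pr_case (pr_subr 21 100 (kc7q2_9_s.snd h1 h2)) (pr_case (pr_subr 7 100 (kc7q2_9_s.snd h1 h2)) (pr_add (pr_addc (pr_scale 12339 140000 (kc7q2_9_s.snd h1 h2)) (enc_rat _ 51983 400000)) (pr_cmul (enc_norm (kc7q2_3.enc h1.l h2)) (pr_norm (pr_addc (pr_scale 15317 2000 (kc7q2_9_s.snd h1 h2)) (enc_rat _ 39443 200000))))) (pr_add (pr_csub (enc_rat _ 310703 2000000) (pr_scale 38449 140000 (kc7q2_9_s.snd h1 h2))) (pr_cmul (enc_norm (kc7q2_3.enc h1.l h2)) (pr_norm (pr_addc (pr_scale 112759 14000 (kc7q2_9_s.snd h1 h2)) (enc_rat _ 33903 200000)))))) (pr_case (pr_subr 9 25 (kc7q2_9_s.snd h1 h2)) (pr_add (pr_csub (enc_rat _ 835527 5000000) (pr_scale 49591 150000 (kc7q2_9_s.snd h1 h2))) (pr_cmul (enc_norm (kc7q2_3.enc h1.l h2)) (pr_norm (pr_csub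 (enc_rat _ 548357 250000) (pr_scale 2969 1875 (kc7q2_9_s.snd h1 h2)))))) (pr_add (pr_csub (enc_rat _ 48087 280000) (pr_scale 48087 140000 (kc7q2_9_s.snd h1 h2))) (pr_cmul (enc_norm (kc7q2_3.enc h1.l h2)) (pr_norm (pr_csub (enc_rat _ 81169 14000) (pr_scale 81169 7000 (kc7q2_9_s.snd h1 h2))))))))))⟩
noncomputable def kfc73_s : Sl2 kfc73 := ⟨_, fun h1 h2 => (pr_norm (pr_sub (pr_mul (pr_norm (pr_subn 2 (ycg_s.snd h1))) (kcg_s.snd (pr_norm (pr_sub (pr_scale 1 4 (ycg_s.snd h1)) (pr_half h1))) h2)) (pr_mul (pr_norm (pr_mul (pr_norm (pr_sub (pr_nat 2 h1) (ycg_s.snd h1))) (pr_norm (pr_sub (pr_addc h1 (enc_pnc _ 3)) (pr_scale 3 2 (ycg_s.snd h1)))))) (pr_nd (pr_inv (pr_nat 4 (pr_subn 1 (ycg_s.snd h1))))))))⟩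
noncomputable def lc73_7_s : Sl2 lc73_7 := ⟨_, fun h1 h2 => (pr_half h1)⟩
noncomputable def lc73_8_s : Sl2 lc73_8 := ⟨_, fun h1 h2 => (pr_scale 1 4 (ycg_s.snd h1))⟩
noncomputable def lc73_9_s : Sl2 lc73_9 := ⟨_, fun h1 h2 => (pr_sub (lc73_7_s.snd h1 h2) (lc73_8_s.snd h1 h2))⟩
noncomputable def lc73_12_s : Sl2 lc73_12 := ⟨_, fun h1 h2 => (pr_add (pr_scale 1 4 h1) (pr_scale 3 8 (ycg_s.snd h1)))⟩
noncomputable def lc73_14_s : Sl2 lc73_14 := ⟨_, fun h1 h2 => (pr_half (lc73_9_s.snd h1 h2))⟩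
noncomputable def lc73_s : Sl2 lc73 := ⟨_, fun h1 h2 => (pr_norm (pr_sub (pr_nat 2 (txg_s.snd (pr_norm (pr_sub (lc73_8_s.snd h1 h2) (lc73_7_s.snd h1 h2))) (pr_norm (pr_add (lc73_12_s.snd h1 h2) (lc73_14_s.snd h1 h2))) h2)) (txg_s.snd (pr_norm (lc73_9_s.snd h1 h2)) (pr_norm (pr_sub (lc73_12_s.snd h1 h2) (lc73_14_s.snd h1 h2))) h2)))⟩
noncomputable def kcc73_9_s : Sl2 kcc73_9 := ⟨_, fun h1 h2 => (pr_sub (pr_half h1) (pr_scale 1 4 (ycg_s.snd h1)))⟩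
noncomputable def kcc73_s : Sl2 kcc73 := ⟨_, fun h1 h2 => (pr_norm (pr_case (pr_addc (kcc73_9_s.snd h1 h2) (enc_rat _ 7 100)) (pr_case (pr_addc (kcc73_9_s.snd h1 h2) (enc_rat _ 9 25)) (pr_add (pr_addc (pr_scale 36877 140000 (kcc73_9_s.snd h1 h2)) (enc_rat _ 36877 280000)) (pr_cmul (enc_norm (kcc73_4.enc h1.l h2)) (pr_norm (pr_subr 8713 2000 (pr_neg (pr_scale 8713 1000 (kcc73_9_s.snd h1 h2))))))) (pr_case (pr_addc (kcc73_9_s.snd h1 h2) (enc_rat _ 21 100)) (pr_add (pr_addc (pr_scale 48943 150000 (kcc73_9_s.snd h1 h2)) (enc_rat _ 771701 5000000)) (pr_cmul (enc_norm (kcc73_4.enc h1.l h2)) (pr_norm (pr_subr 209123 250000 (pr_scale 1331 1250 (kcc73_9_s.snd h1 h2)))))) (pr_add (pr_addc (pr_scale 339 1250 (kcc73_9_s.snd h1 h2)) (enc_rat _ 35693 250000)) (pr_cmul (enc_norm (kcc73_4.enc h1.l h2)) (pr_norm (pr_addc (pr_scale 36061 7000 (kcc73_9_s.snd h1 h2)) (enc_rat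 _ 2173 100000))))))) (pr_case (pr_subr 21 100 (kcc73_9_s.snd h1 h2)) (pr_case (pr_subr 7 100 (kcc73_9_s.snd h1 h2)) (pr_add (pr_addc (pr_scale 12339 140000 (kcc73_9_s.snd h1 h2)) (enc_rat _ 51983 400000)) (pr_cmul (enc_norm (kcc73_4.enc h1.l h2)) (pr_norm (pr_addc (pr_scale 15317 2000 (kcc73_9_s.snd h1 h2)) (enc_rat _ 39443 200000))))) (pr_add (pr_csub (enc_rat _ 310703 2000000) (pr_scale 38449 140000 (kcc73_9_s.snd h1 h2))) (pr_cmul (enc_norm (kcc73_4.enc h1.l h2)) (pr_norm (pr_addc (pr_scale 112759 14000 (kcc73_9_s.snd h1 h2)) (enc_rat _ 33903 200000)))))) (pr_case (pr_subr 9 25 (kcc73_9_s.snd h1 h2)) (pr_add (pr_csub (enc_rat _ 835527 5000000) (pr_scale 49591 150000 (kcc73_9_s.snd h1 h2))) (pr_cmul (enc_norm (kcc73_4.enc h1.l h2)) (pr_norm (pr_csub (enc_rat _ 548357 250000) (pr_scale 2969 1875 (kcc73_9_s.snd h1 h2)))))) (pr_add (pr_csub (enc_rat _ 48087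 280000) (pr_scale 48087 140000 (kcc73_9_s.snd h1 h2))) (pr_cmul (enc_norm (kcc73_4.enc h1.l h2)) (pr_norm (pr_csub (enc_rat _ 81169 14000) (pr_scale 81169 7000 (kcc73_9_s.snd h1 h2))))))))))⟩
noncomputable def gB0q0 : Gn := ⟨ndB0q0, c1g_s, kf0q0_s, l0q0_s, false⟩
noncomputable def dB0q0 : CnW := ⟨cd0q0, kc0q0_s⟩
noncomputable def gB0q1 : Gn := ⟨ndB0q1, c1g_s, kf0q1_s, l0q1_s, false⟩
noncomputable def dB0q1 : CnW := ⟨cd0q1, kc0q1_s⟩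
noncomputable def gB0q2 : Gn := ⟨ndB0q2, idf_s, kfc02_s, lc02_s, true⟩
noncomputable def dB0q2 : CnW := ⟨cd0q2, kcc02_s⟩
noncomputable def gB1q0 : Gn := ⟨ndB1q0, cv1m_s, kf1q0_s, l1q0_s, false⟩
noncomputable def dB1q0 : CnW := ⟨cd1q0, kc1q0_s⟩
noncomputable def gB1q1 : Gn := ⟨ndB1q1, cv1m_s, kf1q1_s, l1q1_s, false⟩
noncomputable def dB1q1 : CnW := ⟨cd1q1, kc1q1_s⟩
noncomputable def gB1q2 : Gn := ⟨ndB1q2, cv1p_s, kf1q2_s, l1q2_s, false⟩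
noncomputable def dB1q2 : CnW := ⟨cd1q2, kc1q2_s⟩
noncomputable def gB1q3 : Gn := ⟨ndB1q3, cv1r_s, kf1q3_s, l1q3_s, false⟩
noncomputable def dB1q3 : CnW := ⟨cd1q3, kc1q3_s⟩
noncomputable def gB2q0 : Gn := ⟨ndB2q0, cv2m_s, kf2q0_s, l2q0_s, false⟩
noncomputable def dB2q0 : CnW := ⟨cd2q0, kc2q0_s⟩
noncomputable def gB2q1 : Gn := ⟨ndB2q1, cv2m_s, kf2q1_s, l2q1_s, false⟩
noncomputable def dB2q1 : CnW := ⟨cd2q1, kc2q1_s⟩
noncomputable def gB2q2 : Gn := ⟨ndB2q2, cv2p_s, kf2q2_s, l2q2_s, false⟩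
noncomputable def dB2q2 : CnW := ⟨cd2q2, kc2q2_s⟩
noncomputable def gB2q3 : Gn := ⟨ndB2q3, cv2r_s, kf2q3_s, l2q3_s, false⟩
noncomputable def dB2q3 : CnW := ⟨cd2q3, kc2q3_s⟩
noncomputable def gB3q0 : Gn := ⟨ndB3q0, cv3m_s, kf3q0_s, l3q0_s, false⟩
noncomputable def dB3q0 : CnW := ⟨cd3q0, kc3q0_s⟩
noncomputable def gB3q1 : Gn := ⟨ndB3q1, cv3m_s, kf3q1_s, l3q1_s, false⟩
noncomputable def dB3q1 : CnW := ⟨cd3q1, kc3q1_s⟩
noncomputable def gB3q2 : Gn := ⟨ndB3q2, cv3p_s, kf3q2_s, l3q2_s, false⟩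
noncomputable def dB3q2 : CnW := ⟨cd3q2, kc3q2_s⟩
noncomputable def gB3q3 : Gn := ⟨ndB3q3, cv3r_s, kf3q3_s, l3q3_s, false⟩
noncomputable def dB3q3 : CnW := ⟨cd3q3, kc3q3_s⟩
noncomputable def gB4q0 : Gn := ⟨ndB4q0, cv4m_s, kf4q0_s, l4q0_s, false⟩
noncomputable def dB4q0 : CnW := ⟨cd4q0, kc4q0_s⟩
noncomputable def gB4q1 : Gn := ⟨ndB4q1, cv4m_s, kf4q1_s, l4q1_s, false⟩
noncomputable def dB4q1 : CnW := ⟨cd4q1, kc4q1_s⟩
noncomputable def gB4q2 : Gn := ⟨ndB4q2, cv4p_s, kf4q2_s, l4q2_s, false⟩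
noncomputable def dB4q2 : CnW := ⟨cd4q2, kc4q2_s⟩
noncomputable def gB4q3 : Gn := ⟨ndB4q3, cv4r_s, kf4q3_s, l4q3_s, false⟩
noncomputable def dB4q3 : CnW := ⟨cd4q3, kc4q3_s⟩
noncomputable def gB5q0 : Gn := ⟨ndB5q0, cv5m_s, kf5q0_s, l5q0_s, false⟩
noncomputable def dB5q0 : CnW := ⟨cd5q0, kc5q0_s⟩
noncomputable def gB5q1 : Gn := ⟨ndB5q1, cv5m_s, kf5q1_s, l5q1_s, false⟩
noncomputable def dB5q1 : CnW := ⟨cd5q1, kc5q1_s⟩
noncomputable def gB5q2 : Gn := ⟨ndB5q2, cv5p_s, kf5q2_s, l5q2_s, false⟩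
noncomputable def dB5q2 : CnW := ⟨cd5q2, kc5q2_s⟩
noncomputable def gB5q3 : Gn := ⟨ndB5q3, xc53_s, kfc53_s, lc53_s, false⟩
noncomputable def dB5q3 : CnW := ⟨cd5q3, kcc53_s⟩
noncomputable def gB6q0 : Gn := ⟨ndB6q0, cv6m_s, kf6q0_s, l6q0_s, false⟩
noncomputable def dB6q0 : CnW := ⟨cd6q0, kc6q0_s⟩
noncomputable def gB6q1 : Gn := ⟨ndB6q1, cv6m_s, kf6q1_s, l6q1_s, false⟩
noncomputable def dB6q1 : CnW := ⟨cd6q1, kc6q1_s⟩
noncomputable def gB6q2 : Gn := ⟨ndB6q2, cv6p_s, kf6q2_s, l6q2_s, false⟩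
noncomputable def dB6q2 : CnW := ⟨cd6q2, kc6q2_s⟩
noncomputable def gB6q3 : Gn := ⟨ndB6q3, xc63_s, kfc63_s, lc63_s, false⟩
noncomputable def dB6q3 : CnW := ⟨cd6q3, kcc63_s⟩
noncomputable def gB7q0 : Gn := ⟨ndB7q0, c3g_s, kf7q0_s, l7q0_s, false⟩
noncomputable def dB7q0 : CnW := ⟨cd7q0, kc7q0_s⟩
noncomputable def gB7q1 : Gn := ⟨ndB7q1, c3g_s, kf7q1_s, l7q1_s, false⟩
noncomputable def dB7q1 : CnW := ⟨cd7q1, kc7q1_s⟩
noncomputable def gB7q2 : Gn := ⟨ndB7q2, c3g_s, kf7q2_s, l7q2_s, false⟩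
noncomputable def dB7q2 : CnW := ⟨cd7q2, kc7q2_s⟩
noncomputable def gB7q3 : Gn := ⟨ndB7q3, idf_s, kfc73_s, lc73_s, false⟩
noncomputable def dB7q3 : CnW := ⟨cd7q3, kcc73_s⟩
noncomputable def gB0q3 : Gn := gz
noncomputable def dB0q3 : CnW := ⟨fz2, fz2_s⟩
noncomputable def gB (j : Fin 8) (q : ℕ) : Gn :=
  match j, q with
  | 0, 0 => gB0q0
  | 0, 1 => gB0q1
  | 0, 2 => gB0q2
  | 0, 3 => gB0q3
  | 1, 0 => gB1q0
  | 1, 1 => gB1q1
  | 1, 2 => gB1q2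
  | 1, 3 => gB1q3
  | 2, 0 => gB2q0
  | 2, 1 => gB2q1
  | 2, 2 => gB2q2
  | 2, 3 => gB2q3
  | 3, 0 => gB3q0
  | 3, 1 => gB3q1
  | 3, 2 => gB3q2
  | 3, 3 => gB3q3
  | 4, 0 => gB4q0
  | 4, 1 => gB4q1
  | 4, 2 => gB4q2
  | 4, 3 => gB4q3
  | 5, 0 => gB5q0
  | 5, 1 => gB5q1
  | 5, 2 => gB5q2
  | 5, 3 => gB5q3
  | 6, 0 => gB6q0
  | 6, 1 => gB6q1
  | 6, 2 => gB6q2
  | 6, 3 => gB6q3
  | 7, 0 => gB7q0
  | 7, 1 => gB7q1
  | 7, 2 => gB7q2
  | 7, 3 => gB7q3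
  | _, _ => gB0q0

noncomputable def dB (j : Fin 8) (q : ℕ) : CnW :=
  match j, q with
  | 0, 0 => dB0q0
  | 0, 1 => dB0q1
  | 0, 2 => dB0q2
  | 0, 3 => dB0q3
  | 1, 0 => dB1q0
  | 1, 1 => dB1q1
  | 1, 2 => dB1q2
  | 1, 3 => dB1q3
  | 2, 0 => dB2q0
  | 2, 1 => dB2q1
  | 2, 2 => dB2q2
  | 2, 3 => dB2q3
  | 3, 0 => dB3q0
  | 3, 1 => dB3q1
  | 3, 2 => dB3q2
  | 3, 3 => dB3q3
  | 4, 0 => dB4q0
  | 4, 1 => dB4q1
  | 4, 2 => dB4q2
  | 4, 3 => dB4q3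
  | 5, 0 => dB5q0
  | 5, 1 => dB5q1
  | 5, 2 => dB5q2
  | 5, 3 => dB5q3
  | 6, 0 => dB6q0
  | 6, 1 => dB6q1
  | 6, 2 => dB6q2
  | 6, 3 => dB6q3
  | 7, 0 => dB7q0
  | 7, 1 => dB7q1
  | 7, 2 => dB7q2
  | 7, 3 => dB7q3
  | _, _ => dB0q0

noncomputable def c0B : Fn1 := ⟨fun _ => pone, fun _ => 1, fun _ => enc_one _⟩

end Pool.Agent.Strip051.G.I5470_6050.Tab
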