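import Pool.Agent.Strip051.PB.MolX4
import Pool.Agent.Strip051.PB.MolRw
import Pool.Agent.Strip051.G.I5470_6050.Tab

/-! # The tight charts of a table: data (generated) -/

set_option linter.all false

namespace Pool.Agent.Strip051.G.I5470_6050.Tab.Mo

open Pool.Agent.Strip051.PB Pool.Agent.Strip051.PB.Mol
open Pool.Agent.Strip051.G.I5470_6050.Tab

noncomputable def dq : Fn3 :=
  dqC (cnF false 9701419 5000000)

noncomputable def mL : Fn2 :=
  exQ (exC (lnF false 3072509 150000000 true 12791 1875000 72 125)) (lnF false 899449 1000000 true 614333 100000 72 125) false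

noncomputable def mR : Fn2 :=
  exQ (exC (lnF true 10662461 75000000 true 14631703 15000000 72 125)) (lnF true 300473 250000 false 340521 50000 72 125) true

noncomputable def kp : Fn2 :=
  plA (cnF false 0 1) (lnF true 33933 100000 true 29169 2500 72 125) false 1 2

noncomputable def kb : Fn2 :=
  plA (cnF false 0 1) (lnF false 3061 9000 false 20221 1800 72 125) false 1 2

noncomputable def eK1 : Fn2 :=
  exH (exC (lnF true 13569 12500 false 1559 2500 72 125)) (lnF false 15139 50000 true 417 1000 72 125) true 1 20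

noncomputable def rK1 : Fn2 :=
  ad2 (exC (cnF true 9701419 5000000)) (rwC eK1)

noncomputable def eX1 : Fn2 :=
  exH (exC (lnF false 3072103 12500000 false 46515897 25000000 72 125)) (lnF false 2584647 12500000 false 11884103 25000000 72 125) true 1 20

noncomputable def rX1 : Fn2 :=
  rwC (ad2 eX1 (exC (m2F epg)))

noncomputable def eD1 : Fn2 :=
  exC (lnF true 129439 250000 true 155737 25000 72 125)

noncomputable def rD1 : Fn2 :=
  tmF (rwC eD1) 0

noncomputable def sk1 : MolS :=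
  stK 23 2 25 rK1 rX1 rD1

noncomputable def eK2 : Fn2 :=
  exH (exC (lnF false 15629 50000 false 3603 5000 72 125)) (lnF false 3717 25000 true 721 5000 72 125) true 1 20

noncomputable def rK2 : Fn2 :=
  rwC eK2

noncomputable def eX2 : Fn2 :=
  exH (exC (lnF false 10809 50000 false 32 25 72 125)) (lnF false 4219 50000 true 333 5000 72 125) true 1 20

noncomputable def rX2 : Fn2 :=
  rwC eX2

noncomputable def eD2 : Fn2 :=
  exC (lnF true 607837 250000 true 4571 3125 72 125)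

noncomputable def rD2 : Fn2 :=
  tmF (rwC eD2) 0

noncomputable def sk2 : MolS :=
  stK 3 1 4 rK2 rX2 rD2

noncomputable def eK3 : Fn2 :=
  exH (exC (lnF false 10279 25000 false 209 250 72 125)) (lnF false 3201 25000 true 56 625 72 125) true 1 20

noncomputable def rK3 : Fn2 :=
  rwC eK3

noncomputable def eX3 : Fn2 :=
  exH (exC (lnF false 9109 50000 false 8561 5000 72 125)) (lnF false 813 25000 false 309 1000 72 125) true 1 20

noncomputable def rX3 : Fn2 :=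
  rwC eX3

noncomputable def eD3 : Fn2 :=
  exC (lnF true 469897 250000 true 15007 3125 72 125)

noncomputable def rD3 : Fn2 :=
  tmF (rwC eD3) 0

noncomputable def sk3 : MolS :=
  stK 29 21 50 rK3 rX3 rD3

noncomputable def eK4 : Fn2 :=
  exH (exC (lnF false 23551 50000 false 6611 5000 72 125)) (lnF false 2659 50000 false 461 5000 72 125) true 1 20

noncomputable def rK4 : Fn2 :=
  rwC eK4

noncomputable def eX4 : Fn2 :=
  exH (exC (lnF false 4259 50000 false 2961 2500 72 125)) (lnF true 1181 25000 false 327 5000 72 125) true 1 20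

noncomputable def rX4 : Fn2 :=
  rwC eX4

noncomputable def eD4 : Fn2 :=
  exC (lnF true 5339 10000 true 106989 6250 72 125)

noncomputable def rD4 : Fn2 :=
  tmF (rwC eD4) 0

noncomputable def sk4 : MolS :=
  stK 1 4 5 rK4 rX4 rD4

noncomputable def sp : MolS :=
  stP kcg mL mR kp

noncomputable def sm : MolS :=
  stM kcg mR kb

noncomputable def sK_Ap : Fn3 :=
  sl0 (slF (w3W false) cv4r (w3K false 2 kcg) kf4q3)

noncomputable def sX_Ap : Fn3 :=
  sl0 (slF (w3W false) cv4r (w3Q false kcg) l4q3)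

noncomputable def sD_Ap : Fn3 :=
  sl0 (slF (w3W false) cv4r (w3D false 2 kcg) (tmF kc4q3 2))

noncomputable def T_Ap : MolT :=
  ⟨kcg, dq, sp, 3, sK_Ap, sX_Ap, sD_Ap, 7, 3, 363, 200⟩

noncomputable def sk_Ap : List Fn3 := [skP true 20971520, skM true 20971520]

noncomputable def cx_Ap : List Fn3 :=
  [f3A sp.xs (tCC (w3W false) cv4r),
    f3A sp.xs (tCC cv5r (w3W false)),
    f3A sp.xs (tCX cv5r)]

noncomputable def c0_Ap : Cht := k0Ap (T_Ap.a true) sk_Ap cx_Ap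

noncomputable def c2_Ap : Cht := k2Ap (T_Ap.a true) sk_Ap cx_Ap

noncomputable def sK_Apk1 : Fn3 :=
  sl0 (slF (w3W false) cv4r (w3K false 2 kcg) kf4q3)

noncomputable def sX_Apk1 : Fn3 :=
  sl0 (slF (w3W false) cv4r (w3Q false kcg) l4q3)

noncomputable def sD_Apk1 : Fn3 :=
  sl0 (slF (w3W false) cv4r (w3D false 2 kcg) (tmF kc4q3 2))

noncomputable def T_Apk1 : MolT :=
  ⟨kcg, dq, sk1, 3, sK_Apk1, sX_Apk1, sD_Apk1, 7, 3, 363, 200⟩

noncomputable def sk_Apk1 : List Fn3 := [skP true 20971520, skM true 20971520]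

noncomputable def cx_Apk1 : List Fn3 :=
  [f3A sk1.xs (tCC (w3W false) cv4r),
    f3A sk1.xs (tCC cv5r (w3W false)),
    f3A sk1.xs (tCX cv5r)]

noncomputable def c0_Apk1 : Cht := k0Ap (T_Apk1.a true) sk_Apk1 cx_Apk1

noncomputable def c2_Apk1 : Cht := k2Ap (T_Apk1.a true) sk_Apk1 cx_Apk1

noncomputable def sK_Apk2 : Fn3 :=
  sl0 (slF (w3W false) cv4r (w3K false 2 kcg) kf4q3)

noncomputable def sX_Apk2 : Fn3 :=
  sl0 (slF (w3W false) cv4r (w3Q false kcg) l4q3)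

noncomputable def sD_Apk2 : Fn3 :=
  sl0 (slF (w3W false) cv4r (w3D false 2 kcg) (tmF kc4q3 2))

noncomputable def T_Apk2 : MolT :=
  ⟨kcg, dq, sk2, 3, sK_Apk2, sX_Apk2, sD_Apk2, 7, 3, 363, 200⟩

noncomputable def sk_Apk2 : List Fn3 := [skP true 20971520, skM true 20971520]

noncomputable def cx_Apk2 : List Fn3 :=
  [f3A sk2.xs (tCC (w3W false) cv4r),
    f3A sk2.xs (tCC cv5r (w3W false)),
    f3A sk2.xs (tCX cv5r)]

noncomputable def c0_Apk2 : Cht := k0Ap (T_Apk2.a true) sk_Apk2 cx_Apk2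

noncomputable def c2_Apk2 : Cht := k2Ap (T_Apk2.a true) sk_Apk2 cx_Apk2

noncomputable def sK_Apk3 : Fn3 :=
  sl0 (slF (w3W false) cv4r (w3K false 2 kcg) kf4q3)

noncomputable def sX_Apk3 : Fn3 :=
  sl0 (slF (w3W false) cv4r (w3Q false kcg) l4q3)

noncomputable def sD_Apk3 : Fn3 :=
  sl0 (slF (w3W false) cv4r (w3D false 2 kcg) (tmF kc4q3 2))

noncomputable def T_Apk3 : MolT :=
  ⟨kcg, dq, sk3, 3, sK_Apk3, sX_Apk3, sD_Apk3, 7, 3, 363, 200⟩

noncomputable def sk_Apk3 : List Fn3 := [skP true 20971520, skM true 20971520]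

noncomputable def cx_Apk3 : List Fn3 :=
  [f3A sk3.xs (tCC (w3W false) cv4r),
    f3A sk3.xs (tCC cv5r (w3W false)),
    f3A sk3.xs (tCX cv5r)]

noncomputable def c0_Apk3 : Cht := k0Ap (T_Apk3.a true) sk_Apk3 cx_Apk3

noncomputable def c2_Apk3 : Cht := k2Ap (T_Apk3.a true) sk_Apk3 cx_Apk3

noncomputable def sK_Apk4 : Fn3 :=
  sl0 (slF (w3W false) cv4r (w3K false 2 kcg) kf4q3)

noncomputable def sX_Apk4 : Fn3 :=
  sl0 (slF (w3W false) cv4r (w3Q false kcg) l4q3)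

noncomputable def sD_Apk4 : Fn3 :=
  sl0 (slF (w3W false) cv4r (w3D false 2 kcg) (tmF kc4q3 2))

noncomputable def T_Apk4 : MolT :=
  ⟨kcg, dq, sk4, 3, sK_Apk4, sX_Apk4, sD_Apk4, 7, 3, 363, 200⟩

noncomputable def sk_Apk4 : List Fn3 := [skP true 20971520, skM true 20971520]

noncomputable def cx_Apk4 : List Fn3 :=
  [f3A sk4.xs (tCC (w3W false) cv4r),
    f3A sk4.xs (tCC cv5r (w3W false)),
    f3A sk4.xs (tCX cv5r)]

noncomputable def c0_Apk4 : Cht := k0Ap (T_Apk4.a true) sk_Apk4 cx_Apk4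

noncomputable def c2_Apk4 : Cht := k2Ap (T_Apk4.a true) sk_Apk4 cx_Apk4

noncomputable def sK_Am : Fn3 :=
  sl0 (slF (w3W false) cv4r (w3K false 2 kcg) kf4q3)

noncomputable def sX_Am : Fn3 :=
  sl0 (slF (w3W false) cv4r (w3Q false kcg) l4q3)

noncomputable def sD_Am : Fn3 :=
  sl0 (slF (w3W false) cv4r (w3D false 2 kcg) (tmF kc4q3 2))

noncomputable def T_Am : MolT :=
  ⟨kcg, dq, sm, 3, sK_Am, sX_Am, sD_Am, 7, 3, 363, 200⟩

noncomputable def sk_Am : List Fn3 := [skP true 20971520, skM true 20971520]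

noncomputable def cx_Am : List Fn3 :=
  [f3A sm.xs (tCC (w3W false) cv4r),
    f3A sm.xs (tCC cv5r (w3W false)),
    f3A sm.xs (tXC cv4r)]

noncomputable def c0_Am : Cht := k0Am (T_Am.a false) sk_Am cx_Am

noncomputable def c2_Am : Cht := k2Am (T_Am.a false) sk_Am cx_Am

noncomputable def sK_Bp : Fn3 :=
  sl0 (slF (w3W true) cv4m (w3K true 0 kcg) kf4q0)

noncomputable def sX_Bp : Fn3 :=
  sl0 (slF (w3W true) cv4m (w3Q true kcg) l4q0)

noncomputable def sD_Bp : Fn3 :=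
  sl0 (slF (w3W true) cv4m (w3D true 0 kcg) (tmF kc4q0 0))

noncomputable def T_Bp : MolT :=
  ⟨kcg, dq, sp, 0, sK_Bp, sX_Bp, sD_Bp, 7, 3, 363, 200⟩

noncomputable def sk_Bp : List Fn3 := [skP false 20971520, skM false 20971520]

noncomputable def cx_Bp : List Fn3 :=
  [f3B sp.xs (tCC (w3W true) cv4m),
    f3B sp.xs (tCC cv5m (w3W true)),
    f3B sp.xs (tXC cv4m)]

noncomputable def c0_Bp : Cht := k0Bp (T_Bp.b true) sk_Bp cx_Bp

noncomputable def c2_Bp : Cht := k2Bp (T_Bp.b true) sk_Bp cx_Bp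

noncomputable def sK_Bpk1 : Fn3 :=
  sl0 (slF (w3W true) cv4m (w3K true 0 kcg) kf4q0)

noncomputable def sX_Bpk1 : Fn3 :=
  sl0 (slF (w3W true) cv4m (w3Q true kcg) l4q0)

noncomputable def sD_Bpk1 : Fn3 :=
  sl0 (slF (w3W true) cv4m (w3D true 0 kcg) (tmF kc4q0 0))

noncomputable def T_Bpk1 : MolT :=
  ⟨kcg, dq, sk1, 0, sK_Bpk1, sX_Bpk1, sD_Bpk1, 7, 3, 363, 200⟩

noncomputable def sk_Bpk1 : List Fn3 := [skP false 20971520, skM false 20971520]

noncomputable def cx_Bpk1 : List Fn3 :=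
  [f3B sk1.xs (tCC (w3W true) cv4m),
    f3B sk1.xs (tCC cv5m (w3W true)),
    f3B sk1.xs (tXC cv4m)]

noncomputable def c0_Bpk1 : Cht := k0Bp (T_Bpk1.b true) sk_Bpk1 cx_Bpk1

noncomputable def c2_Bpk1 : Cht := k2Bp (T_Bpk1.b true) sk_Bpk1 cx_Bpk1

noncomputable def sK_Bpk2 : Fn3 :=
  sl0 (slF (w3W true) cv4m (w3K true 0 kcg) kf4q0)

noncomputable def sX_Bpk2 : Fn3 :=
  sl0 (slF (w3W true) cv4m (w3Q true kcg) l4q0)

noncomputable def sD_Bpk2 : Fn3 :=
  sl0 (slF (w3W true) cv4m (w3D true 0 kcg) (tmF kc4q0 0))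

noncomputable def T_Bpk2 : MolT :=
  ⟨kcg, dq, sk2, 0, sK_Bpk2, sX_Bpk2, sD_Bpk2, 7, 3, 363, 200⟩

noncomputable def sk_Bpk2 : List Fn3 := [skP false 20971520, skM false 20971520]

noncomputable def cx_Bpk2 : List Fn3 :=
  [f3B sk2.xs (tCC (w3W true) cv4m),
    f3B sk2.xs (tCC cv5m (w3W true)),
    f3B sk2.xs (tXC cv4m)]

noncomputable def c0_Bpk2 : Cht := k0Bp (T_Bpk2.b true) sk_Bpk2 cx_Bpk2

noncomputable def c2_Bpk2 : Cht := k2Bp (T_Bpk2.b true) sk_Bpk2 cx_Bpk2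

noncomputable def sK_Bpk3 : Fn3 :=
  sl0 (slF (w3W true) cv4m (w3K true 0 kcg) kf4q0)

noncomputable def sX_Bpk3 : Fn3 :=
  sl0 (slF (w3W true) cv4m (w3Q true kcg) l4q0)

noncomputable def sD_Bpk3 : Fn3 :=
  sl0 (slF (w3W true) cv4m (w3D true 0 kcg) (tmF kc4q0 0))

noncomputable def T_Bpk3 : MolT :=
  ⟨kcg, dq, sk3, 0, sK_Bpk3, sX_Bpk3, sD_Bpk3, 7, 3, 363, 200⟩

noncomputable def sk_Bpk3 : List Fn3 := [skP false 20971520, skM false 20971520]

noncomputable def cx_Bpk3 : List Fn3 :=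
  [f3B sk3.xs (tCC (w3W true) cv4m),
    f3B sk3.xs (tCC cv5m (w3W true)),
    f3B sk3.xs (tXC cv4m)]

noncomputable def c0_Bpk3 : Cht := k0Bp (T_Bpk3.b true) sk_Bpk3 cx_Bpk3

noncomputable def c2_Bpk3 : Cht := k2Bp (T_Bpk3.b true) sk_Bpk3 cx_Bpk3

noncomputable def sK_Bpk4 : Fn3 :=
  sl0 (slF (w3W true) cv4m (w3K true 0 kcg) kf4q0)

noncomputable def sX_Bpk4 : Fn3 :=
  sl0 (slF (w3W true) cv4m (w3Q true kcg) l4q0)

noncomputable def sD_Bpk4 : Fn3 :=
  sl0 (slF (w3W true) cv4m (w3D true 0 kcg) (tmF kc4q0 0))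

noncomputable def T_Bpk4 : MolT :=
  ⟨kcg, dq, sk4, 0, sK_Bpk4, sX_Bpk4, sD_Bpk4, 7, 3, 363, 200⟩

noncomputable def sk_Bpk4 : List Fn3 := [skP false 20971520, skM false 20971520]

noncomputable def cx_Bpk4 : List Fn3 :=
  [f3B sk4.xs (tCC (w3W true) cv4m),
    f3B sk4.xs (tCC cv5m (w3W true)),
    f3B sk4.xs (tXC cv4m)]

noncomputable def c0_Bpk4 : Cht := k0Bp (T_Bpk4.b true) sk_Bpk4 cx_Bpk4

noncomputable def c2_Bpk4 : Cht := k2Bp (T_Bpk4.b true) sk_Bpk4 cx_Bpk4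

noncomputable def sK_Bm : Fn3 :=
  sl0 (slF (w3W true) cv4m (w3K true 0 kcg) kf4q0)

noncomputable def sX_Bm : Fn3 :=
  sl0 (slF (w3W true) cv4m (w3Q true kcg) l4q0)

noncomputable def sD_Bm : Fn3 :=
  sl0 (slF (w3W true) cv4m (w3D true 0 kcg) (tmF kc4q0 0))

noncomputable def T_Bm : MolT :=
  ⟨kcg, dq, sm, 0, sK_Bm, sX_Bm, sD_Bm, 7, 3, 363, 200⟩

noncomputable def sk_Bm : List Fn3 := [skP false 20971520, skM false 20971520]

noncomputable def cx_Bm : List Fn3 :=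
  [f3B sm.xs (tCC (w3W true) cv4m),
    f3B sm.xs (tCC cv5m (w3W true)),
    f3B sm.xs (tCX cv5m)]

noncomputable def c0_Bm : Cht := k0Bm (T_Bm.b false) sk_Bm cx_Bm

noncomputable def c2_Bm : Cht := k2Bm (T_Bm.b false) sk_Bm cx_Bm

end Pool.Agent.Strip051.G.I5470_6050.Tab.Mo
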