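import Pool.Agent.Strip051.G.I5470_6050.St11
import Pool.Agent.Strip051.G.I5470_6050.St12
import Pool.Agent.Strip051.G.I5470_6050.St13
import Pool.Agent.Strip051.G.I5470_6050.St14
import Pool.Agent.Strip051.G.I5470_6050.St15
import Pool.Agent.Strip051.G.I5470_6050.St16
import Pool.Agent.Strip051.G.I5470_6050.StH
import Pool.Agent.Strip051.G.I5470_6050.StF

/-! # Unit strips 17 (generated) -/

set_option linter.all false
set_option maxRecDepth 100000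

namespace Pool.Agent.Strip051.G.I5470_6050.Tab.St.C

open Pool.Agent.Strip051.PB Pool.Agent.Strip051.PB.T Pool.Agent.StripNear Pool.Agent.Strip051.LC
open Pool.Agent.Strip051.G.I5470_6050.Tab Pool.Agent.Strip051.G.I5470_6050.Tab.St

theorem t623_A00pm_102_s1 : ∃ t, chk3 f_A00pm_102_s1 t 3 3 1 = true := ex3_a k621_A00pm_102_s1 k622_A00pm_102_s1

theorem t624_A00pm_102_s1 : ∃ t, chk3 f_A00pm_102_s1 t 7 11 1 = true := ex3_a k619_A00pm_102_s1 k620_A00pm_102_s1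

theorem t625_A00pm_102_s1 : ∃ t, chk3 f_A00pm_102_s1 t 7 21 1 = true := ex3_a k617_A00pm_102_s1 k618_A00pm_102_s1

theorem t626_A00pm_102_s1 : ∃ t, chk3 f_A00pm_102_s1 t 15 670 1 = true := ex3_b k614_A00pm_102_s1 k615_A00pm_102_s1

theorem t627_A00pm_102_s1 : ∃ t, chk3 f_A00pm_102_s1 t 15 335 1 = true := ex3_b t626_A00pm_102_s1 k616_A00pm_102_s1

theorem t628_A00pm_102_s1 : ∃ t, chk3 f_A00pm_102_s1 t 15 167 1 = true := ex3_b k613_A00pm_102_s1 t627_A00pm_102_s1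

theorem t629_A00pm_102_s1 : ∃ t, chk3 f_A00pm_102_s1 t 15 83 1 = true := ex3_b k612_A00pm_102_s1 t628_A00pm_102_s1

theorem t630_A00pm_102_s1 : ∃ t, chk3 f_A00pm_102_s1 t 15 41 1 = true := ex3_b k611_A00pm_102_s1 t629_A00pm_102_s1

theorem t631_A00pm_102_s1 : ∃ t, chk3 f_A00pm_102_s1 t 14 167 1 = true := ex3_a k609_A00pm_102_s1 k610_A00pm_102_s1

theorem t632_A00pm_102_s1 : ∃ t, chk3 f_A00pm_102_s1 t 14 83 1 = true := ex3_b k608_A00pm_102_s1 t631_A00pm_102_s1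

theorem t633_A00pm_102_s1 : ∃ t, chk3 f_A00pm_102_s1 t 14 41 1 = true := ex3_b k607_A00pm_102_s1 t632_A00pm_102_s1

theorem t634_A00pm_102_s1 : ∃ t, chk3 f_A00pm_102_s1 t 7 41 1 = true := ex3_a t633_A00pm_102_s1 t630_A00pm_102_s1

theorem t635_A00pm_102_s1 : ∃ t, chk3 f_A00pm_102_s1 t 14 40 1 = true := ex3_a k604_A00pm_102_s1 k605_A00pm_102_s1

theorem t636_A00pm_102_s1 : ∃ t, chk3 f_A00pm_102_s1 t 7 40 1 = true := ex3_a t635_A00pm_102_s1 k606_A00pm_102_s1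

theorem t637_A00pm_102_s1 : ∃ t, chk3 f_A00pm_102_s1 t 7 20 1 = true := ex3_b t636_A00pm_102_s1 t634_A00pm_102_s1

theorem t638_A00pm_102_s1 : ∃ t, chk3 f_A00pm_102_s1 t 7 10 1 = true := ex3_b t637_A00pm_102_s1 t625_A00pm_102_s1

theorem t639_A00pm_102_s1 : ∃ t, chk3 f_A00pm_102_s1 t 7 5 1 = true := ex3_b t638_A00pm_102_s1 t624_A00pm_102_s1

theorem t640_A00pm_102_s1 : ∃ t, chk3 f_A00pm_102_s1 t 13 11 1 = true := ex3_b k602_A00pm_102_s1 k603_A00pm_102_s1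

theorem t641_A00pm_102_s1 : ∃ t, chk3 f_A00pm_102_s1 t 6 11 1 = true := ex3_a k601_A00pm_102_s1 t640_A00pm_102_s1

theorem t642_A00pm_102_s1 : ∃ t, chk3 f_A00pm_102_s1 t 26 42 1 = true := ex3_b k597_A00pm_102_s1 k598_A00pm_102_s1

theorem t643_A00pm_102_s1 : ∃ t, chk3 f_A00pm_102_s1 t 26 21 1 = true := ex3_b t642_A00pm_102_s1 k599_A00pm_102_s1

theorem t644_A00pm_102_s1 : ∃ t, chk3 f_A00pm_102_s1 t 13 21 1 = true := ex3_a t643_A00pm_102_s1 k600_A00pm_102_s1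

theorem t645_A00pm_102_s1 : ∃ t, chk3 f_A00pm_102_s1 t 12 21 1 = true := ex3_a k595_A00pm_102_s1 k596_A00pm_102_s1

theorem t646_A00pm_102_s1 : ∃ t, chk3 f_A00pm_102_s1 t 6 21 1 = true := ex3_a t645_A00pm_102_s1 t644_A00pm_102_s1

theorem t647_A00pm_102_s1 : ∃ t, chk3 f_A00pm_102_s1 t 13 1341 1 = true := ex3_b k592_A00pm_102_s1 k593_A00pm_102_s1

theorem t648_A00pm_102_s1 : ∃ t, chk3 f_A00pm_102_s1 t 13 10726 1 = true := ex3_b k589_A00pm_102_s1 k590_A00pm_102_s1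

theorem t649_A00pm_102_s1 : ∃ t, chk3 f_A00pm_102_s1 t 13 5363 1 = true := ex3_b t648_A00pm_102_s1 k591_A00pm_102_s1

theorem t650_A00pm_102_s1 : ∃ t, chk3 f_A00pm_102_s1 t 13 2681 1 = true := ex3_b k588_A00pm_102_s1 t649_A00pm_102_s1

theorem t651_A00pm_102_s1 : ∃ t, chk3 f_A00pm_102_s1 t 13 1340 1 = true := ex3_b k587_A00pm_102_s1 t650_A00pm_102_s1

theorem t652_A00pm_102_s1 : ∃ t, chk3 f_A00pm_102_s1 t 13 670 1 = true := ex3_b t651_A00pm_102_s1 t647_A00pm_102_s1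

theorem t653_A00pm_102_s1 : ∃ t, chk3 f_A00pm_102_s1 t 13 335 1 = true := ex3_b t652_A00pm_102_s1 k594_A00pm_102_s1

theorem t654_A00pm_102_s1 : ∃ t, chk3 f_A00pm_102_s1 t 13 167 1 = true := ex3_b k586_A00pm_102_s1 t653_A00pm_102_s1

theorem t655_A00pm_102_s1 : ∃ t, chk3 f_A00pm_102_s1 t 13 83 1 = true := ex3_b k585_A00pm_102_s1 t654_A00pm_102_s1

theorem t656_A00pm_102_s1 : ∃ t, chk3 f_A00pm_102_s1 t 12 5365 1 = true := ex3_b k581_A00pm_102_s1 k582_A00pm_102_s1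

theorem t657_A00pm_102_s1 : ∃ t, chk3 f_A00pm_102_s1 t 12 2682 1 = true := ex3_b k580_A00pm_102_s1 t656_A00pm_102_s1

theorem t658_A00pm_102_s1 : ∃ t, chk3 f_A00pm_102_s1 t 12 1341 1 = true := ex3_b t657_A00pm_102_s1 k583_A00pm_102_s1

theorem t659_A00pm_102_s1 : ∃ t, chk3 f_A00pm_102_s1 t 99 21453 1 = true := ex3_c k576_A00pm_102_s1 k577_A00pm_102_s1

theorem t660_A00pm_102_s1 : ∃ t, chk3 f_A00pm_102_s1 t 49 21453 1 = true := ex3_a k575_A00pm_102_s1 t659_A00pm_102_s1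

theorem t661_A00pm_102_s1 : ∃ t, chk3 f_A00pm_102_s1 t 24 21453 1 = true := ex3_a k574_A00pm_102_s1 t660_A00pm_102_s1

theorem t662_A00pm_102_s1 : ∃ t, chk3 f_A00pm_102_s1 t 12 21453 1 = true := ex3_a t661_A00pm_102_s1 k578_A00pm_102_s1

theorem t663_A00pm_102_s1 : ∃ t, chk3 f_A00pm_102_s1 t 12 10726 1 = true := ex3_b k573_A00pm_102_s1 t662_A00pm_102_s1

theorem t664_A00pm_102_s1 : ∃ t, chk3 f_A00pm_102_s1 t 12 5363 1 = true := ex3_b t663_A00pm_102_s1 k579_A00pm_102_s1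

theorem t665_A00pm_102_s1 : ∃ t, chk3 f_A00pm_102_s1 t 12 2681 1 = true := ex3_b k572_A00pm_102_s1 t664_A00pm_102_s1

theorem t666_A00pm_102_s1 : ∃ t, chk3 f_A00pm_102_s1 t 12 1340 1 = true := ex3_b k571_A00pm_102_s1 t665_A00pm_102_s1

theorem t667_A00pm_102_s1 : ∃ t, chk3 f_A00pm_102_s1 t 12 670 1 = true := ex3_b t666_A00pm_102_s1 t658_A00pm_102_s1

theorem t668_A00pm_102_s1 : ∃ t, chk3 f_A00pm_102_s1 t 12 335 1 = true := ex3_b t667_A00pm_102_s1 k584_A00pm_102_s1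

theorem t669_A00pm_102_s1 : ∃ t, chk3 f_A00pm_102_s1 t 12 334 1 = true := ex3_a k569_A00pm_102_s1 k570_A00pm_102_s1

theorem t670_A00pm_102_s1 : ∃ t, chk3 f_A00pm_102_s1 t 12 167 1 = true := ex3_b t669_A00pm_102_s1 t668_A00pm_102_s1

theorem t671_A00pm_102_s1 : ∃ t, chk3 f_A00pm_102_s1 t 24 166 1 = true := ex3_a k566_A00pm_102_s1 k567_A00pm_102_s1

theorem t672_A00pm_102_s1 : ∃ t, chk3 f_A00pm_102_s1 t 12 166 1 = true := ex3_a t671_A00pm_102_s1 k568_A00pm_102_s1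

theorem t673_A00pm_102_s1 : ∃ t, chk3 f_A00pm_102_s1 t 12 83 1 = true := ex3_b t672_A00pm_102_s1 t670_A00pm_102_s1

theorem t674_A00pm_102_s1 : ∃ t, chk3 f_A00pm_102_s1 t 6 83 1 = true := ex3_a t673_A00pm_102_s1 t655_A00pm_102_s1

theorem t675_A00pm_102_s1 : ∃ t, chk3 f_A00pm_102_s1 t 26 165 1 = true := ex3_a k563_A00pm_102_s1 k564_A00pm_102_s1

theorem t676_A00pm_102_s1 : ∃ t, chk3 f_A00pm_102_s1 t 26 164 1 = true := ex3_a k561_A00pm_102_s1 k562_A00pm_102_s1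

theorem t677_A00pm_102_s1 : ∃ t, chk3 f_A00pm_102_s1 t 26 82 1 = true := ex3_b t676_A00pm_102_s1 t675_A00pm_102_s1

theorem t678_A00pm_102_s1 : ∃ t, chk3 f_A00pm_102_s1 t 13 82 1 = true := ex3_a t677_A00pm_102_s1 k565_A00pm_102_s1

theorem t679_A00pm_102_s1 : ∃ t, chk3 f_A00pm_102_s1 t 25 165 1 = true := ex3_a k559_A00pm_102_s1 k560_A00pm_102_s1

theorem t680_A00pm_102_s1 : ∃ t, chk3 f_A00pm_102_s1 t 25 164 1 = true := ex3_a k557_A00pm_102_s1 k558_A00pm_102_s1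

theorem t681_A00pm_102_s1 : ∃ t, chk3 f_A00pm_102_s1 t 25 82 1 = true := ex3_b t680_A00pm_102_s1 t679_A00pm_102_s1

theorem t682_A00pm_102_s1 : ∃ t, chk3 f_A00pm_102_s1 t 49 331 1 = true := ex3_a k555_A00pm_102_s1 k556_A00pm_102_s1

theorem t683_A00pm_102_s1 : ∃ t, chk3 f_A00pm_102_s1 t 49 165 1 = true := ex3_b k554_A00pm_102_s1 t682_A00pm_102_s1

theorem t684_A00pm_102_s1 : ∃ t, chk3 f_A00pm_102_s1 t 24 165 1 = true := ex3_a k553_A00pm_102_s1 t683_A00pm_102_s1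

theorem t685_A00pm_102_s1 : ∃ t, chk3 f_A00pm_102_s1 t 48 164 1 = true := ex3_b k550_A00pm_102_s1 k551_A00pm_102_s1

theorem t686_A00pm_102_s1 : ∃ t, chk3 f_A00pm_102_s1 t 24 164 1 = true := ex3_a t685_A00pm_102_s1 k552_A00pm_102_s1

theorem t687_A00pm_102_s1 : ∃ t, chk3 f_A00pm_102_s1 t 24 82 1 = true := ex3_b t686_A00pm_102_s1 t684_A00pm_102_s1

theorem t688_A00pm_102_s1 : ∃ t, chk3 f_A00pm_102_s1 t 12 82 1 = true := ex3_a t687_A00pm_102_s1 t681_A00pm_102_s1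

theorem t689_A00pm_102_s1 : ∃ t, chk3 f_A00pm_102_s1 t 6 82 1 = true := ex3_a t688_A00pm_102_s1 t678_A00pm_102_s1

theorem t690_A00pm_102_s1 : ∃ t, chk3 f_A00pm_102_s1 t 6 41 1 = true := ex3_b t689_A00pm_102_s1 t674_A00pm_102_s1

theorem t691_A00pm_102_s1 : ∃ t, chk3 f_A00pm_102_s1 t 27 81 1 = true := ex3_a k548_A00pm_102_s1 k549_A00pm_102_s1

theorem t692_A00pm_102_s1 : ∃ t, chk3 f_A00pm_102_s1 t 54 160 1 = true := ex3_a k544_A00pm_102_s1 k545_A00pm_102_s1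

theorem t693_A00pm_102_s1 : ∃ t, chk3 f_A00pm_102_s1 t 54 80 1 = true := ex3_b t692_A00pm_102_s1 k546_A00pm_102_s1

theorem t694_A00pm_102_s1 : ∃ t, chk3 f_A00pm_102_s1 t 27 80 1 = true := ex3_a t693_A00pm_102_s1 k547_A00pm_102_s1

theorem t695_A00pm_102_s1 : ∃ t, chk3 f_A00pm_102_s1 t 27 40 1 = true := ex3_b t694_A00pm_102_s1 t691_A00pm_102_s1

theorem t696_A00pm_102_s1 : ∃ t, chk3 f_A00pm_102_s1 t 53 81 1 = true := ex3_b k542_A00pm_102_s1 k543_A00pm_102_s1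

theorem t697_A00pm_102_s1 : ∃ t, chk3 f_A00pm_102_s1 t 52 81 1 = true := ex3_b k540_A00pm_102_s1 k541_A00pm_102_s1

theorem t698_A00pm_102_s1 : ∃ t, chk3 f_A00pm_102_s1 t 26 81 1 = true := ex3_a t697_A00pm_102_s1 t696_A00pm_102_s1

theorem t699_A00pm_102_s1 : ∃ t, chk3 f_A00pm_102_s1 t 53 161 1 = true := ex3_a k538_A00pm_102_s1 k539_A00pm_102_s1

theorem t700_A00pm_102_s1 : ∃ t, chk3 f_A00pm_102_s1 t 53 80 1 = true := ex3_b k537_A00pm_102_s1 t699_A00pm_102_s1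

theorem t701_A00pm_102_s1 : ∃ t, chk3 f_A00pm_102_s1 t 52 80 1 = true := ex3_b k535_A00pm_102_s1 k536_A00pm_102_s1

theorem t702_A00pm_102_s1 : ∃ t, chk3 f_A00pm_102_s1 t 26 80 1 = true := ex3_a t701_A00pm_102_s1 t700_A00pm_102_s1

theorem t703_A00pm_102_s1 : ∃ t, chk3 f_A00pm_102_s1 t 26 40 1 = true := ex3_b t702_A00pm_102_s1 t698_A00pm_102_s1

theorem t704_A00pm_102_s1 : ∃ t, chk3 f_A00pm_102_s1 t 13 40 1 = true := ex3_a t703_A00pm_102_s1 t695_A00pm_102_s1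

theorem t705_A00pm_102_s1 : ∃ t, chk3 f_A00pm_102_s1 t 51 162 1 = true := ex3_a k532_A00pm_102_s1 k533_A00pm_102_s1

theorem t706_A00pm_102_s1 : ∃ t, chk3 f_A00pm_102_s1 t 51 81 1 = true := ex3_b t705_A00pm_102_s1 k534_A00pm_102_s1

theorem t707_A00pm_102_s1 : ∃ t, chk3 f_A00pm_102_s1 t 50 326 1 = true := ex3_a k529_A00pm_102_s1 k530_A00pm_102_s1

theorem t708_A00pm_102_s1 : ∃ t, chk3 f_A00pm_102_s1 t 50 163 1 = true := ex3_b t707_A00pm_102_s1 k531_A00pm_102_s1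

theorem t709_A00pm_102_s1 : ∃ t, chk3 f_A00pm_102_s1 t 50 162 1 = true := ex3_b k527_A00pm_102_s1 k528_A00pm_102_s1

theorem t710_A00pm_102_s1 : ∃ t, chk3 f_A00pm_102_s1 t 50 81 1 = true := ex3_b t709_A00pm_102_s1 t708_A00pm_102_s1

theorem t711_A00pm_102_s1 : ∃ t, chk3 f_A00pm_102_s1 t 25 81 1 = true := ex3_a t710_A00pm_102_s1 t706_A00pm_102_s1

theorem t712_A00pm_102_s1 : ∃ t, chk3 f_A00pm_102_s1 t 102 321 1 = true := ex3_c k523_A00pm_102_s1 k524_A00pm_102_s1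

theorem t713_A00pm_102_s1 : ∃ t, chk3 f_A00pm_102_s1 t 102 160 1 = true := ex3_b k522_A00pm_102_s1 t712_A00pm_102_s1

theorem t714_A00pm_102_s1 : ∃ t, chk3 f_A00pm_102_s1 t 51 160 1 = true := ex3_a t713_A00pm_102_s1 k525_A00pm_102_s1

theorem t715_A00pm_102_s1 : ∃ t, chk3 f_A00pm_102_s1 t 51 80 1 = true := ex3_b t714_A00pm_102_s1 k526_A00pm_102_s1

theorem t716_A00pm_102_s1 : ∃ t, chk3 f_A00pm_102_s1 t 202 645 1 = true := ex3_a k518_A00pm_102_s1 k519_A00pm_102_s1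

theorem t717_A00pm_102_s1 : ∃ t, chk3 f_A00pm_102_s1 t 202 322 1 = true := ex3_b k517_A00pm_102_s1 t716_A00pm_102_s1

theorem t718_A00pm_102_s1 : ∃ t, chk3 f_A00pm_102_s1 t 101 322 1 = true := ex3_a t717_A00pm_102_s1 k520_A00pm_102_s1

theorem t719_A00pm_102_s1 : ∃ t, chk3 f_A00pm_102_s1 t 101 161 1 = true := ex3_b t718_A00pm_102_s1 k521_A00pm_102_s1

theorem t720_A00pm_102_s1 : ∃ t, chk3 f_A00pm_102_s1 t 403 1292 1 = true := ex3_a k513_A00pm_102_s1 k514_A00pm_102_s1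

theorem t721_A00pm_102_s1 : ∃ t, chk3 f_A00pm_102_s1 t 403 646 1 = true := ex3_b t720_A00pm_102_s1 k515_A00pm_102_s1

theorem t722_A00pm_102_s1 : ∃ t, chk3 f_A00pm_102_s1 t 201 646 1 = true := ex3_a k512_A00pm_102_s1 t721_A00pm_102_s1

theorem t723_A00pm_102_s1 : ∃ t, chk3 f_A00pm_102_s1 t 201 323 1 = true := ex3_b t722_A00pm_102_s1 k516_A00pm_102_s1

theorem t724_A00pm_102_s1 : ∃ t, chk3 f_A00pm_102_s1 t 100 323 1 = true := ex3_a k511_A00pm_102_s1 t723_A00pm_102_s1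

theorem t725_A00pm_102_s1 : ∃ t, chk3 f_A00pm_102_s1 t 100 161 1 = true := ex3_b k510_A00pm_102_s1 t724_A00pm_102_s1

theorem t726_A00pm_102_s1 : ∃ t, chk3 f_A00pm_102_s1 t 50 161 1 = true := ex3_a t725_A00pm_102_s1 t719_A00pm_102_s1

theorem t727_A00pm_102_s1 : ∃ t, chk3 f_A00pm_102_s1 t 50 160 1 = true := ex3_a k508_A00pm_102_s1 k509_A00pm_102_s1

theorem t728_A00pm_102_s1 : ∃ t, chk3 f_A00pm_102_s1 t 50 80 1 = true := ex3_b t727_A00pm_102_s1 t726_A00pm_102_s1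

theorem t729_A00pm_102_s1 : ∃ t, chk3 f_A00pm_102_s1 t 25 80 1 = true := ex3_a t728_A00pm_102_s1 t715_A00pm_102_s1

theorem t730_A00pm_102_s1 : ∃ t, chk3 f_A00pm_102_s1 t 25 40 1 = true := ex3_b t729_A00pm_102_s1 t711_A00pm_102_s1

theorem t731_A00pm_102_s1 : ∃ t, chk3 f_A00pm_102_s1 t 49 163 1 = true := ex3_b k506_A00pm_102_s1 k507_A00pm_102_s1

theorem t732_A00pm_102_s1 : ∃ t, chk3 f_A00pm_102_s1 t 96 327 1 = true := ex3_b k503_A00pm_102_s1 k504_A00pm_102_s1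

theorem t733_A00pm_102_s1 : ∃ t, chk3 f_A00pm_102_s1 t 48 327 1 = true := ex3_a t732_A00pm_102_s1 k505_A00pm_102_s1

theorem t734_A00pm_102_s1 : ∃ t, chk3 f_A00pm_102_s1 t 48 163 1 = true := ex3_b k502_A00pm_102_s1 t733_A00pm_102_s1

theorem t735_A00pm_102_s1 : ∃ t, chk3 f_A00pm_102_s1 t 24 163 1 = true := ex3_a t734_A00pm_102_s1 t731_A00pm_102_s1

theorem t736_A00pm_102_s1 : ∃ t, chk3 f_A00pm_102_s1 t 49 325 1 = true := ex3_a k500_A00pm_102_s1 k501_A00pm_102_s1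

theorem t737_A00pm_102_s1 : ∃ t, chk3 f_A00pm_102_s1 t 49 324 1 = true := ex3_a k498_A00pm_102_s1 k499_A00pm_102_s1

theorem t738_A00pm_102_s1 : ∃ t, chk3 f_A00pm_102_s1 t 49 162 1 = true := ex3_b t737_A00pm_102_s1 t736_A00pm_102_s1

theorem t739_A00pm_102_s1 : ∃ t, chk3 f_A00pm_102_s1 t 48 162 1 = true := ex3_b k496_A00pm_102_s1 k497_A00pm_102_s1

theorem t740_A00pm_102_s1 : ∃ t, chk3 f_A00pm_102_s1 t 24 162 1 = true := ex3_a t739_A00pm_102_s1 t738_A00pm_102_s1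

theorem t741_A00pm_102_s1 : ∃ t, chk3 f_A00pm_102_s1 t 24 81 1 = true := ex3_b t740_A00pm_102_s1 t735_A00pm_102_s1

theorem t742_A00pm_102_s1 : ∃ t, chk3 f_A00pm_102_s1 t 49 161 1 = true := ex3_b k494_A00pm_102_s1 k495_A00pm_102_s1

theorem t743_A00pm_102_s1 : ∃ t, chk3 f_A00pm_102_s1 t 24 161 1 = true := ex3_a k493_A00pm_102_s1 t742_A00pm_102_s1

theorem t744_A00pm_102_s1 : ∃ t, chk3 f_A00pm_102_s1 t 24 80 1 = true := ex3_b k492_A00pm_102_s1 t743_A00pm_102_s1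

theorem t745_A00pm_102_s1 : ∃ t, chk3 f_A00pm_102_s1 t 24 40 1 = true := ex3_b t744_A00pm_102_s1 t741_A00pm_102_s1

theorem t746_A00pm_102_s1 : ∃ t, chk3 f_A00pm_102_s1 t 12 40 1 = true := ex3_a t745_A00pm_102_s1 t730_A00pm_102_s1

theorem t747_A00pm_102_s1 : ∃ t, chk3 f_A00pm_102_s1 t 6 40 1 = true := ex3_a t746_A00pm_102_s1 t704_A00pm_102_s1

theorem t748_A00pm_102_s1 : ∃ t, chk3 f_A00pm_102_s1 t 6 20 1 = true := ex3_b t747_A00pm_102_s1 t690_A00pm_102_s1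

theorem t749_A00pm_102_s1 : ∃ t, chk3 f_A00pm_102_s1 t 6 10 1 = true := ex3_b t748_A00pm_102_s1 t646_A00pm_102_s1

theorem t750_A00pm_102_s1 : ∃ t, chk3 f_A00pm_102_s1 t 6 5 1 = true := ex3_b t749_A00pm_102_s1 t641_A00pm_102_s1

theorem t751_A00pm_102_s1 : ∃ t, chk3 f_A00pm_102_s1 t 3 5 1 = true := ex3_a t750_A00pm_102_s1 t639_A00pm_102_s1

theorem t752_A00pm_102_s1 : ∃ t, chk3 f_A00pm_102_s1 t 15 19 1 = true := ex3_a k490_A00pm_102_s1 k491_A00pm_102_s1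

theorem t753_A00pm_102_s1 : ∃ t, chk3 f_A00pm_102_s1 t 62 18 1 = true := ex3_b k487_A00pm_102_s1 k488_A00pm_102_s1

theorem t754_A00pm_102_s1 : ∃ t, chk3 f_A00pm_102_s1 t 31 18 1 = true := ex3_a t753_A00pm_102_s1 k489_A00pm_102_s1

theorem t755_A00pm_102_s1 : ∃ t, chk3 f_A00pm_102_s1 t 61 36 1 = true := ex3_a k484_A00pm_102_s1 k485_A00pm_102_s1

theorem t756_A00pm_102_s1 : ∃ t, chk3 f_A00pm_102_s1 t 120 144 2 = true := ex3_a k478_A00pm_102_s1 k479_A00pm_102_s1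

theorem t757_A00pm_102_s1 : ∃ t, chk3 f_A00pm_102_s1 t 120 144 1 = true := ex3_c t756_A00pm_102_s1 k480_A00pm_102_s1

theorem t758_A00pm_102_s1 : ∃ t, chk3 f_A00pm_102_s1 t 120 72 1 = true := ex3_b t757_A00pm_102_s1 k481_A00pm_102_s1

theorem t759_A00pm_102_s1 : ∃ t, chk3 f_A00pm_102_s1 t 60 72 1 = true := ex3_a t758_A00pm_102_s1 k482_A00pm_102_s1

theorem t760_A00pm_102_s1 : ∃ t, chk3 f_A00pm_102_s1 t 60 36 1 = true := ex3_b t759_A00pm_102_s1 k483_A00pm_102_s1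

theorem t761_A00pm_102_s1 : ∃ t, chk3 f_A00pm_102_s1 t 30 36 1 = true := ex3_a t760_A00pm_102_s1 t755_A00pm_102_s1

theorem t762_A00pm_102_s1 : ∃ t, chk3 f_A00pm_102_s1 t 30 18 1 = true := ex3_b t761_A00pm_102_s1 k486_A00pm_102_s1

theorem t763_A00pm_102_s1 : ∃ t, chk3 f_A00pm_102_s1 t 15 18 1 = true := ex3_a t762_A00pm_102_s1 t754_A00pm_102_s1

theorem t764_A00pm_102_s1 : ∃ t, chk3 f_A00pm_102_s1 t 15 9 1 = true := ex3_b t763_A00pm_102_s1 t752_A00pm_102_s1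

theorem t765_A00pm_102_s1 : ∃ t, chk3 f_A00pm_102_s1 t 56 156 1 = true := ex3_a k472_A00pm_102_s1 k473_A00pm_102_s1

theorem t766_A00pm_102_s1 : ∃ t, chk3 f_A00pm_102_s1 t 56 78 1 = true := ex3_b t765_A00pm_102_s1 k474_A00pm_102_s1

theorem t767_A00pm_102_s1 : ∃ t, chk3 f_A00pm_102_s1 t 28 78 1 = true := ex3_a t766_A00pm_102_s1 k475_A00pm_102_s1

theorem t768_A00pm_102_s1 : ∃ t, chk3 f_A00pm_102_s1 t 28 39 1 = true := ex3_b t767_A00pm_102_s1 k476_A00pm_102_s1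

theorem t769_A00pm_102_s1 : ∃ t, chk3 f_A00pm_102_s1 t 14 39 1 = true := ex3_a t768_A00pm_102_s1 k477_A00pm_102_s1

theorem t770_A00pm_102_s1 : ∃ t, chk3 f_A00pm_102_s1 t 56 77 1 = true := ex3_a k468_A00pm_102_s1 k469_A00pm_102_s1

theorem t771_A00pm_102_s1 : ∃ t, chk3 f_A00pm_102_s1 t 28 77 1 = true := ex3_a t770_A00pm_102_s1 k470_A00pm_102_s1

theorem t772_A00pm_102_s1 : ∃ t, chk3 f_A00pm_102_s1 t 57 76 1 = true := ex3_a k466_A00pm_102_s1 k467_A00pm_102_s1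

theorem t773_A00pm_102_s1 : ∃ t, chk3 f_A00pm_102_s1 t 113 76 1 = true := ex3_b k464_A00pm_102_s1 k465_A00pm_102_s1

theorem t774_A00pm_102_s1 : ∃ t, chk3 f_A00pm_102_s1 t 224 152 1 = true := ex3_b k460_A00pm_102_s1 k461_A00pm_102_s1

theorem t775_A00pm_102_s1 : ∃ t, chk3 f_A00pm_102_s1 t 112 152 1 = true := ex3_a t774_A00pm_102_s1 k462_A00pm_102_s1

theorem t776_A00pm_102_s1 : ∃ t, chk3 f_A00pm_102_s1 t 112 76 1 = true := ex3_b t775_A00pm_102_s1 k463_A00pm_102_s1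

theorem t777_A00pm_102_s1 : ∃ t, chk3 f_A00pm_102_s1 t 56 76 1 = true := ex3_a t776_A00pm_102_s1 t773_A00pm_102_s1

theorem t778_A00pm_102_s1 : ∃ t, chk3 f_A00pm_102_s1 t 28 76 1 = true := ex3_a t777_A00pm_102_s1 t772_A00pm_102_s1

theorem t779_A00pm_102_s1 : ∃ t, chk3 f_A00pm_102_s1 t 28 38 1 = true := ex3_b t778_A00pm_102_s1 t771_A00pm_102_s1

theorem t780_A00pm_102_s1 : ∃ t, chk3 f_A00pm_102_s1 t 14 38 1 = true := ex3_a t779_A00pm_102_s1 k471_A00pm_102_s1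

theorem t781_A00pm_102_s1 : ∃ t, chk3 f_A00pm_102_s1 t 14 19 1 = true := ex3_b t780_A00pm_102_s1 t769_A00pm_102_s1

theorem t782_A00pm_102_s1 : ∃ t, chk3 f_A00pm_102_s1 t 58 74 1 = true := ex3_a k456_A00pm_102_s1 k457_A00pm_102_s1

theorem t783_A00pm_102_s1 : ∃ t, chk3 f_A00pm_102_s1 t 58 37 1 = true := ex3_b t782_A00pm_102_s1 k458_A00pm_102_s1

theorem t784_A00pm_102_s1 : ∃ t, chk3 f_A00pm_102_s1 t 29 37 1 = true := ex3_a t783_A00pm_102_s1 k459_A00pm_102_s1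

theorem t785_A00pm_102_s1 : ∃ t, chk3 f_A00pm_102_s1 t 119 146 2 = true := ex3_a k452_A00pm_102_s1 k453_A00pm_102_s1

theorem t786_A00pm_102_s1 : ∃ t, chk3 f_A00pm_102_s1 t 119 146 1 = true := ex3_c t785_A00pm_102_s1 k454_A00pm_102_s1

theorem t787_A00pm_102_s1 : ∃ t, chk3 f_A00pm_102_s1 t 119 73 1 = true := ex3_b t786_A00pm_102_s1 k455_A00pm_102_s1

theorem t788_A00pm_102_s1 : ∃ t, chk3 f_A00pm_102_s1 t 118 292 4 = true := ex3_a k446_A00pm_102_s1 k447_A00pm_102_s1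

theorem t789_A00pm_102_s1 : ∃ t, chk3 f_A00pm_102_s1 t 118 146 4 = true := ex3_b t788_A00pm_102_s1 k448_A00pm_102_s1

theorem t790_A00pm_102_s1 : ∃ t, chk3 f_A00pm_102_s1 t 118 146 2 = true := ex3_c t789_A00pm_102_s1 k449_A00pm_102_s1

theorem t791_A00pm_102_s1 : ∃ t, chk3 f_A00pm_102_s1 t 118 146 1 = true := ex3_c t790_A00pm_102_s1 k450_A00pm_102_s1

theorem t792_A00pm_102_s1 : ∃ t, chk3 f_A00pm_102_s1 t 118 73 1 = true := ex3_b t791_A00pm_102_s1 k451_A00pm_102_s1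

theorem t793_A00pm_102_s1 : ∃ t, chk3 f_A00pm_102_s1 t 59 73 1 = true := ex3_a t792_A00pm_102_s1 t787_A00pm_102_s1

theorem t794_A00pm_102_s1 : ∃ t, chk3 f_A00pm_102_s1 t 238 145 4 = true := ex3_c k441_A00pm_102_s1 k442_A00pm_102_s1

theorem t795_A00pm_102_s1 : ∃ t, chk3 f_A00pm_102_s1 t 119 145 4 = true := ex3_a t794_A00pm_102_s1 k443_A00pm_102_s1

theorem t796_A00pm_102_s1 : ∃ t, chk3 f_A00pm_102_s1 t 119 145 2 = true := ex3_c t795_A00pm_102_s1 k444_A00pm_102_s1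

theorem t797_A00pm_102_s1 : ∃ t, chk3 f_A00pm_102_s1 t 119 145 1 = true := ex3_c t796_A00pm_102_s1 k445_A00pm_102_s1

theorem t798_A00pm_102_s1 : ∃ t, chk3 f_A00pm_102_s1 t 119 144 4 = true := ex3_a k437_A00pm_102_s1 k438_A00pm_102_s1

theorem t799_A00pm_102_s1 : ∃ t, chk3 f_A00pm_102_s1 t 119 144 2 = true := ex3_c t798_A00pm_102_s1 k439_A00pm_102_s1

theorem t800_A00pm_102_s1 : ∃ t, chk3 f_A00pm_102_s1 t 119 144 1 = true := ex3_c t799_A00pm_102_s1 k440_A00pm_102_s1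

theorem t801_A00pm_102_s1 : ∃ t, chk3 f_A00pm_102_s1 t 119 72 1 = true := ex3_b t800_A00pm_102_s1 t797_A00pm_102_s1

theorem t802_A00pm_102_s1 : ∃ t, chk3 f_A00pm_102_s1 t 237 291 4 = true := ex3_c k433_A00pm_102_s1 k434_A00pm_102_s1

theorem t803_A00pm_102_s1 : ∃ t, chk3 f_A00pm_102_s1 t 236 291 4 = true := ex3_c k431_A00pm_102_s1 k432_A00pm_102_s1

theorem t804_A00pm_102_s1 : ∃ t, chk3 f_A00pm_102_s1 t 118 291 4 = true := ex3_a t803_A00pm_102_s1 t802_A00pm_102_s1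

theorem t805_A00pm_102_s1 : ∃ t, chk3 f_A00pm_102_s1 t 118 291 2 = true := ex3_c t804_A00pm_102_s1 k435_A00pm_102_s1

theorem t806_A00pm_102_s1 : ∃ t, chk3 f_A00pm_102_s1 t 118 291 1 = true := ex3_c t805_A00pm_102_s1 k436_A00pm_102_s1

theorem t807_A00pm_102_s1 : ∃ t, chk3 f_A00pm_102_s1 t 237 290 4 = true := ex3_c k427_A00pm_102_s1 k428_A00pm_102_s1

theorem t808_A00pm_102_s1 : ∃ t, chk3 f_A00pm_102_s1 t 237 290 2 = true := ex3_c t807_A00pm_102_s1 k429_A00pm_102_s1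

theorem t809_A00pm_102_s1 : ∃ t, chk3 f_A00pm_102_s1 t 237 290 1 = true := ex3_c t808_A00pm_102_s1 k430_A00pm_102_s1

theorem t810_A00pm_102_s1 : ∃ t, chk3 f_A00pm_102_s1 t 472 290 1 = true := ex3_b k424_A00pm_102_s1 k425_A00pm_102_s1

theorem t811_A00pm_102_s1 : ∃ t, chk3 f_A00pm_102_s1 t 236 290 1 = true := ex3_a t810_A00pm_102_s1 k426_A00pm_102_s1

theorem t812_A00pm_102_s1 : ∃ t, chk3 f_A00pm_102_s1 t 118 290 1 = true := ex3_a t811_A00pm_102_s1 t809_A00pm_102_s1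

theorem t813_A00pm_102_s1 : ∃ t, chk3 f_A00pm_102_s1 t 118 145 1 = true := ex3_b t812_A00pm_102_s1 t806_A00pm_102_s1

theorem t814_A00pm_102_s1 : ∃ t, chk3 f_A00pm_102_s1 t 237 289 1 = true := ex3_b k422_A00pm_102_s1 k423_A00pm_102_s1

theorem t815_A00pm_102_s1 : ∃ t, chk3 f_A00pm_102_s1 t 237 144 1 = true := ex3_b k421_A00pm_102_s1 t814_A00pm_102_s1

theorem t816_A00pm_102_s1 : ∃ t, chk3 f_A00pm_102_s1 t 118 144 1 = true := ex3_a k420_A00pm_102_s1 t815_A00pm_102_s1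

theorem t817_A00pm_102_s1 : ∃ t, chk3 f_A00pm_102_s1 t 118 72 1 = true := ex3_b t816_A00pm_102_s1 t813_A00pm_102_s1

theorem t818_A00pm_102_s1 : ∃ t, chk3 f_A00pm_102_s1 t 59 72 1 = true := ex3_a t817_A00pm_102_s1 t801_A00pm_102_s1

theorem t819_A00pm_102_s1 : ∃ t, chk3 f_A00pm_102_s1 t 59 36 1 = true := ex3_b t818_A00pm_102_s1 t793_A00pm_102_s1

theorem t820_A00pm_102_s1 : ∃ t, chk3 f_A00pm_102_s1 t 235 146 1 = true := ex3_b k417_A00pm_102_s1 k418_A00pm_102_s1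

theorem t821_A00pm_102_s1 : ∃ t, chk3 f_A00pm_102_s1 t 234 146 1 = true := ex3_b k415_A00pm_102_s1 k416_A00pm_102_s1

theorem t822_A00pm_102_s1 : ∃ t, chk3 f_A00pm_102_s1 t 117 146 1 = true := ex3_a t821_A00pm_102_s1 t820_A00pm_102_s1

theorem t823_A00pm_102_s1 : ∃ t, chk3 f_A00pm_102_s1 t 117 73 1 = true := ex3_b t822_A00pm_102_s1 k419_A00pm_102_s1

theorem t824_A00pm_102_s1 : ∃ t, chk3 f_A00pm_102_s1 t 116 147 1 = true := ex3_a k413_A00pm_102_s1 k414_A00pm_102_s1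

theorem t825_A00pm_102_s1 : ∃ t, chk3 f_A00pm_102_s1 t 116 73 1 = true := ex3_b k412_A00pm_102_s1 t824_A00pm_102_s1

theorem t826_A00pm_102_s1 : ∃ t, chk3 f_A00pm_102_s1 t 58 73 1 = true := ex3_a t825_A00pm_102_s1 t823_A00pm_102_s1

theorem t827_A00pm_102_s1 : ∃ t, chk3 f_A00pm_102_s1 t 471 291 1 = true := ex3_b k410_A00pm_102_s1 k411_A00pm_102_s1

theorem t828_A00pm_102_s1 : ∃ t, chk3 f_A00pm_102_s1 t 235 291 1 = true := ex3_a k409_A00pm_102_s1 t827_A00pm_102_s1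

theorem t829_A00pm_102_s1 : ∃ t, chk3 f_A00pm_102_s1 t 235 145 1 = true := ex3_b k408_A00pm_102_s1 t828_A00pm_102_s1

theorem t830_A00pm_102_s1 : ∃ t, chk3 f_A00pm_102_s1 t 117 145 1 = true := ex3_a k407_A00pm_102_s1 t829_A00pm_102_s1

theorem t831_A00pm_102_s1 : ∃ t, chk3 f_A00pm_102_s1 t 117 72 1 = true := ex3_b k406_A00pm_102_s1 t830_A00pm_102_s1

theorem t832_A00pm_102_s1 : ∃ t, chk3 f_A00pm_102_s1 t 58 72 1 = true := ex3_a k405_A00pm_102_s1 t831_A00pm_102_s1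

theorem t833_A00pm_102_s1 : ∃ t, chk3 f_A00pm_102_s1 t 58 36 1 = true := ex3_b t832_A00pm_102_s1 t826_A00pm_102_s1

theorem t834_A00pm_102_s1 : ∃ t, chk3 f_A00pm_102_s1 t 29 36 1 = true := ex3_a t833_A00pm_102_s1 t819_A00pm_102_s1

theorem t835_A00pm_102_s1 : ∃ t, chk3 f_A00pm_102_s1 t 29 18 1 = true := ex3_b t834_A00pm_102_s1 t784_A00pm_102_s1

theorem t836_A00pm_102_s1 : ∃ t, chk3 f_A00pm_102_s1 t 114 151 1 = true := ex3_c k402_A00pm_102_s1 k403_A00pm_102_s1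

theorem t837_A00pm_102_s1 : ∃ t, chk3 f_A00pm_102_s1 t 114 75 1 = true := ex3_b k401_A00pm_102_s1 t836_A00pm_102_s1

theorem t838_A00pm_102_s1 : ∃ t, chk3 f_A00pm_102_s1 t 57 75 1 = true := ex3_a t837_A00pm_102_s1 k404_A00pm_102_s1

theorem t839_A00pm_102_s1 : ∃ t, chk3 f_A00pm_102_s1 t 230 596 1 = true := ex3_a k396_A00pm_102_s1 k397_A00pm_102_s1

theorem t840_A00pm_102_s1 : ∃ t, chk3 f_A00pm_102_s1 t 230 298 1 = true := ex3_b t839_A00pm_102_s1 k398_A00pm_102_s1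

theorem t841_A00pm_102_s1 : ∃ t, chk3 f_A00pm_102_s1 t 115 298 1 = true := ex3_a t840_A00pm_102_s1 k399_A00pm_102_s1

theorem t842_A00pm_102_s1 : ∃ t, chk3 f_A00pm_102_s1 t 115 149 1 = true := ex3_b t841_A00pm_102_s1 k400_A00pm_102_s1

theorem t843_A00pm_102_s1 : ∃ t, chk3 f_A00pm_102_s1 t 231 148 1 = true := ex3_b k394_A00pm_102_s1 k395_A00pm_102_s1

theorem t844_A00pm_102_s1 : ∃ t, chk3 f_A00pm_102_s1 t 922 1191 1 = true := ex3_b k391_A00pm_102_s1 k392_A00pm_102_s1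

theorem t845_A00pm_102_s1 : ∃ t, chk3 f_A00pm_102_s1 t 922 595 1 = true := ex3_b k390_A00pm_102_s1 t844_A00pm_102_s1

theorem t846_A00pm_102_s1 : ∃ t, chk3 f_A00pm_102_s1 t 461 595 1 = true := ex3_a t845_A00pm_102_s1 k393_A00pm_102_s1

theorem t847_A00pm_102_s1 : ∃ t, chk3 f_A00pm_102_s1 t 461 297 1 = true := ex3_b k389_A00pm_102_s1 t846_A00pm_102_s1

theorem t848_A00pm_102_s1 : ∃ t, chk3 f_A00pm_102_s1 t 230 297 1 = true := ex3_a k388_A00pm_102_s1 t847_A00pm_102_s1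

theorem t849_A00pm_102_s1 : ∃ t, chk3 f_A00pm_102_s1 t 230 148 1 = true := ex3_b k387_A00pm_102_s1 t848_A00pm_102_s1

theorem t850_A00pm_102_s1 : ∃ t, chk3 f_A00pm_102_s1 t 115 148 1 = true := ex3_a t849_A00pm_102_s1 t843_A00pm_102_s1

theorem t851_A00pm_102_s1 : ∃ t, chk3 f_A00pm_102_s1 t 115 74 1 = true := ex3_b t850_A00pm_102_s1 t842_A00pm_102_s1

theorem t852_A00pm_102_s1 : ∃ t, chk3 f_A00pm_102_s1 t 114 149 1 = true := ex3_b k385_A00pm_102_s1 k386_A00pm_102_s1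

theorem t853_A00pm_102_s1 : ∃ t, chk3 f_A00pm_102_s1 t 114 74 1 = true := ex3_b k384_A00pm_102_s1 t852_A00pm_102_s1

theorem t854_A00pm_102_s1 : ∃ t, chk3 f_A00pm_102_s1 t 57 74 1 = true := ex3_a t853_A00pm_102_s1 t851_A00pm_102_s1

theorem t855_A00pm_102_s1 : ∃ t, chk3 f_A00pm_102_s1 t 57 37 1 = true := ex3_b t854_A00pm_102_s1 t838_A00pm_102_s1

theorem t856_A00pm_102_s1 : ∃ t, chk3 f_A00pm_102_s1 t 226 151 1 = true := ex3_b k381_A00pm_102_s1 k382_A00pm_102_s1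

theorem t857_A00pm_102_s1 : ∃ t, chk3 f_A00pm_102_s1 t 113 151 1 = true := ex3_a t856_A00pm_102_s1 k383_A00pm_102_s1

theorem t858_A00pm_102_s1 : ∃ t, chk3 f_A00pm_102_s1 t 113 75 1 = true := ex3_b k380_A00pm_102_s1 t857_A00pm_102_s1

theorem t859_A00pm_102_s1 : ∃ t, chk3 f_A00pm_102_s1 t 112 75 1 = true := ex3_b k378_A00pm_102_s1 k379_A00pm_102_s1

theorem t860_A00pm_102_s1 : ∃ t, chk3 f_A00pm_102_s1 t 56 75 1 = true := ex3_a t859_A00pm_102_s1 t858_A00pm_102_s1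

theorem t861_A00pm_102_s1 : ∃ t, chk3 f_A00pm_102_s1 t 56 37 1 = true := ex3_b k377_A00pm_102_s1 t860_A00pm_102_s1

theorem t862_A00pm_102_s1 : ∃ t, chk3 f_A00pm_102_s1 t 28 37 1 = true := ex3_a t861_A00pm_102_s1 t855_A00pm_102_s1

theorem t863_A00pm_102_s1 : ∃ t, chk3 f_A00pm_102_s1 t 28 18 1 = true := ex3_b k376_A00pm_102_s1 t862_A00pm_102_s1

theorem t864_A00pm_102_s1 : ∃ t, chk3 f_A00pm_102_s1 t 14 18 1 = true := ex3_a t863_A00pm_102_s1 t835_A00pm_102_s1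

theorem t865_A00pm_102_s1 : ∃ t, chk3 f_A00pm_102_s1 t 14 9 1 = true := ex3_b t864_A00pm_102_s1 t781_A00pm_102_s1

theorem t866_A00pm_102_s1 : ∃ t, chk3 f_A00pm_102_s1 t 7 9 1 = true := ex3_a t865_A00pm_102_s1 t764_A00pm_102_s1

theorem t867_A00pm_102_s1 : ∃ t, chk3 f_A00pm_102_s1 t 124 68 1 = true := ex3_b k370_A00pm_102_s1 k371_A00pm_102_s1

theorem t868_A00pm_102_s1 : ∃ t, chk3 f_A00pm_102_s1 t 62 68 1 = true := ex3_a t867_A00pm_102_s1 k372_A00pm_102_s1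

theorem t869_A00pm_102_s1 : ∃ t, chk3 f_A00pm_102_s1 t 62 34 1 = true := ex3_b t868_A00pm_102_s1 k373_A00pm_102_s1

theorem t870_A00pm_102_s1 : ∃ t, chk3 f_A00pm_102_s1 t 62 17 1 = true := ex3_b t869_A00pm_102_s1 k374_A00pm_102_s1

theorem t871_A00pm_102_s1 : ∃ t, chk3 f_A00pm_102_s1 t 31 17 1 = true := ex3_a t870_A00pm_102_s1 k375_A00pm_102_s1

theorem t872_A00pm_102_s1 : ∃ t, chk3 f_A00pm_102_s1 t 490 140 4 = true := ex3_c k362_A00pm_102_s1 k363_A00pm_102_s1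

theorem t873_A00pm_102_s1 : ∃ t, chk3 f_A00pm_102_s1 t 245 140 4 = true := ex3_a t872_A00pm_102_s1 k364_A00pm_102_s1

theorem t874_A00pm_102_s1 : ∃ t, chk3 f_A00pm_102_s1 t 245 140 2 = true := ex3_c t873_A00pm_102_s1 k365_A00pm_102_s1

theorem t875_A00pm_102_s1 : ∃ t, chk3 f_A00pm_102_s1 t 245 140 1 = true := ex3_c t874_A00pm_102_s1 k366_A00pm_102_s1

theorem t876_A00pm_102_s1 : ∃ t, chk3 f_A00pm_102_s1 t 245 70 1 = true := ex3_b t875_A00pm_102_s1 k367_A00pm_102_s1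

theorem t877_A00pm_102_s1 : ∃ t, chk3 f_A00pm_102_s1 t 489 140 4 = true := ex3_b k357_A00pm_102_s1 k358_A00pm_102_s1

theorem t878_A00pm_102_s1 : ∃ t, chk3 f_A00pm_102_s1 t 488 140 4 = true := ex3_b k355_A00pm_102_s1 k356_A00pm_102_s1

theorem t879_A00pm_102_s1 : ∃ t, chk3 f_A00pm_102_s1 t 244 140 4 = true := ex3_a t878_A00pm_102_s1 t877_A00pm_102_s1

theorem t880_A00pm_102_s1 : ∃ t, chk3 f_A00pm_102_s1 t 244 140 2 = true := ex3_c t879_A00pm_102_s1 k359_A00pm_102_s1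

theorem t881_A00pm_102_s1 : ∃ t, chk3 f_A00pm_102_s1 t 244 140 1 = true := ex3_c t880_A00pm_102_s1 k360_A00pm_102_s1

theorem t882_A00pm_102_s1 : ∃ t, chk3 f_A00pm_102_s1 t 244 70 1 = true := ex3_b t881_A00pm_102_s1 k361_A00pm_102_s1

theorem t883_A00pm_102_s1 : ∃ t, chk3 f_A00pm_102_s1 t 122 70 1 = true := ex3_a t882_A00pm_102_s1 t876_A00pm_102_s1

theorem t884_A00pm_102_s1 : ∃ t, chk3 f_A00pm_102_s1 t 61 70 1 = true := ex3_a t883_A00pm_102_s1 k368_A00pm_102_s1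

theorem t885_A00pm_102_s1 : ∃ t, chk3 f_A00pm_102_s1 t 61 35 1 = true := ex3_b t884_A00pm_102_s1 k369_A00pm_102_s1

theorem t886_A00pm_102_s1 : ∃ t, chk3 f_A00pm_102_s1 t 121 71 1 = true := ex3_b k353_A00pm_102_s1 k354_A00pm_102_s1

theorem t887_A00pm_102_s1 : ∃ t, chk3 f_A00pm_102_s1 t 120 71 1 = true := ex3_b k351_A00pm_102_s1 k352_A00pm_102_s1

theorem t888_A00pm_102_s1 : ∃ t, chk3 f_A00pm_102_s1 t 60 71 1 = true := ex3_a t887_A00pm_102_s1 t886_A00pm_102_s1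

theorem t889_A00pm_102_s1 : ∃ t, chk3 f_A00pm_102_s1 t 121 141 1 = true := ex3_a k349_A00pm_102_s1 k350_A00pm_102_s1

theorem t890_A00pm_102_s1 : ∃ t, chk3 f_A00pm_102_s1 t 243 281 1 = true := ex3_c k347_A00pm_102_s1 k348_A00pm_102_s1

theorem t891_A00pm_102_s1 : ∃ t, chk3 f_A00pm_102_s1 t 487 280 4 = true := ex3_c k343_A00pm_102_s1 k344_A00pm_102_s1

theorem t892_A00pm_102_s1 : ∃ t, chk3 f_A00pm_102_s1 t 487 280 2 = true := ex3_c t891_A00pm_102_s1 k345_A00pm_102_s1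

theorem t893_A00pm_102_s1 : ∃ t, chk3 f_A00pm_102_s1 t 487 280 1 = true := ex3_c t892_A00pm_102_s1 k346_A00pm_102_s1

theorem t894_A00pm_102_s1 : ∃ t, chk3 f_A00pm_102_s1 t 972 560 2 = true := ex3_b k338_A00pm_102_s1 k339_A00pm_102_s1

theorem t895_A00pm_102_s1 : ∃ t, chk3 f_A00pm_102_s1 t 972 560 1 = true := ex3_c t894_A00pm_102_s1 k340_A00pm_102_s1

theorem t896_A00pm_102_s1 : ∃ t, chk3 f_A00pm_102_s1 t 486 560 1 = true := ex3_a t895_A00pm_102_s1 k341_A00pm_102_s1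

theorem t897_A00pm_102_s1 : ∃ t, chk3 f_A00pm_102_s1 t 486 280 1 = true := ex3_b t896_A00pm_102_s1 k342_A00pm_102_s1

theorem t898_A00pm_102_s1 : ∃ t, chk3 f_A00pm_102_s1 t 243 280 1 = true := ex3_a t897_A00pm_102_s1 t893_A00pm_102_s1

theorem t899_A00pm_102_s1 : ∃ t, chk3 f_A00pm_102_s1 t 243 140 1 = true := ex3_b t898_A00pm_102_s1 t890_A00pm_102_s1

theorem t900_A00pm_102_s1 : ∃ t, chk3 f_A00pm_102_s1 t 485 281 1 = true := ex3_a k336_A00pm_102_s1 k337_A00pm_102_s1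

theorem t901_A00pm_102_s1 : ∃ t, chk3 f_A00pm_102_s1 t 484 281 1 = true := ex3_b k334_A00pm_102_s1 k335_A00pm_102_s1

theorem t902_A00pm_102_s1 : ∃ t, chk3 f_A00pm_102_s1 t 242 281 1 = true := ex3_a t901_A00pm_102_s1 t900_A00pm_102_s1

theorem t903_A00pm_102_s1 : ∃ t, chk3 f_A00pm_102_s1 t 971 561 1 = true := ex3_c k332_A00pm_102_s1 k333_A00pm_102_s1

theorem t904_A00pm_102_s1 : ∃ t, chk3 f_A00pm_102_s1 t 971 280 1 = true := ex3_b k331_A00pm_102_s1 t903_A00pm_102_s1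

theorem t905_A00pm_102_s1 : ∃ t, chk3 f_A00pm_102_s1 t 485 280 1 = true := ex3_a k330_A00pm_102_s1 t904_A00pm_102_s1

theorem t906_A00pm_102_s1 : ∃ t, chk3 f_A00pm_102_s1 t 242 280 1 = true := ex3_a k329_A00pm_102_s1 t905_A00pm_102_s1

theorem t907_A00pm_102_s1 : ∃ t, chk3 f_A00pm_102_s1 t 242 140 1 = true := ex3_b t906_A00pm_102_s1 t902_A00pm_102_s1

theorem t908_A00pm_102_s1 : ∃ t, chk3 f_A00pm_102_s1 t 121 140 1 = true := ex3_a t907_A00pm_102_s1 t899_A00pm_102_s1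

theorem t909_A00pm_102_s1 : ∃ t, chk3 f_A00pm_102_s1 t 121 70 1 = true := ex3_b t908_A00pm_102_s1 t889_A00pm_102_s1

theorem t910_A00pm_102_s1 : ∃ t, chk3 f_A00pm_102_s1 t 241 282 1 = true := ex3_a k326_A00pm_102_s1 k327_A00pm_102_s1

theorem t911_A00pm_102_s1 : ∃ t, chk3 f_A00pm_102_s1 t 241 141 1 = true := ex3_b t910_A00pm_102_s1 k328_A00pm_102_s1

theorem t912_A00pm_102_s1 : ∃ t, chk3 f_A00pm_102_s1 t 120 141 1 = true := ex3_a k325_A00pm_102_s1 t911_A00pm_102_s1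

theorem t913_A00pm_102_s1 : ∃ t, chk3 f_A00pm_102_s1 t 120 70 1 = true := ex3_b k324_A00pm_102_s1 t912_A00pm_102_s1

theorem t914_A00pm_102_s1 : ∃ t, chk3 f_A00pm_102_s1 t 60 70 1 = true := ex3_a t913_A00pm_102_s1 t909_A00pm_102_s1

theorem t915_A00pm_102_s1 : ∃ t, chk3 f_A00pm_102_s1 t 60 35 1 = true := ex3_b t914_A00pm_102_s1 t888_A00pm_102_s1

theorem t916_A00pm_102_s1 : ∃ t, chk3 f_A00pm_102_s1 t 30 35 1 = true := ex3_a t915_A00pm_102_s1 t885_A00pm_102_s1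

theorem t917_A00pm_102_s1 : ∃ t, chk3 f_A00pm_102_s1 t 246 139 4 = true := ex3_b k319_A00pm_102_s1 k320_A00pm_102_s1

theorem t918_A00pm_102_s1 : ∃ t, chk3 f_A00pm_102_s1 t 246 139 2 = true := ex3_c t917_A00pm_102_s1 k321_A00pm_102_s1

theorem t919_A00pm_102_s1 : ∃ t, chk3 f_A00pm_102_s1 t 246 139 1 = true := ex3_c t918_A00pm_102_s1 k322_A00pm_102_s1

theorem t920_A00pm_102_s1 : ∃ t, chk3 f_A00pm_102_s1 t 123 139 1 = true := ex3_a t919_A00pm_102_s1 k323_A00pm_102_s1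

theorem t921_A00pm_102_s1 : ∃ t, chk3 f_A00pm_102_s1 t 246 277 4 = true := ex3_c k314_A00pm_102_s1 k315_A00pm_102_s1

theorem t922_A00pm_102_s1 : ∃ t, chk3 f_A00pm_102_s1 t 246 277 2 = true := ex3_c t921_A00pm_102_s1 k316_A00pm_102_s1

theorem t923_A00pm_102_s1 : ∃ t, chk3 f_A00pm_102_s1 t 246 277 1 = true := ex3_c t922_A00pm_102_s1 k317_A00pm_102_s1

theorem t924_A00pm_102_s1 : ∃ t, chk3 f_A00pm_102_s1 t 246 138 1 = true := ex3_b k313_A00pm_102_s1 t923_A00pm_102_s1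

theorem t925_A00pm_102_s1 : ∃ t, chk3 f_A00pm_102_s1 t 123 138 1 = true := ex3_a t924_A00pm_102_s1 k318_A00pm_102_s1

theorem t926_A00pm_102_s1 : ∃ t, chk3 f_A00pm_102_s1 t 123 69 1 = true := ex3_b t925_A00pm_102_s1 t920_A00pm_102_s1

theorem t927_A00pm_102_s1 : ∃ t, chk3 f_A00pm_102_s1 t 490 279 4 = true := ex3_c k308_A00pm_102_s1 k309_A00pm_102_s1

theorem t928_A00pm_102_s1 : ∃ t, chk3 f_A00pm_102_s1 t 245 279 4 = true := ex3_a t927_A00pm_102_s1 k310_A00pm_102_s1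

theorem t929_A00pm_102_s1 : ∃ t, chk3 f_A00pm_102_s1 t 490 278 8 = true := ex3_c k304_A00pm_102_s1 k305_A00pm_102_s1

theorem t930_A00pm_102_s1 : ∃ t, chk3 f_A00pm_102_s1 t 245 278 8 = true := ex3_a t929_A00pm_102_s1 k306_A00pm_102_s1

theorem t931_A00pm_102_s1 : ∃ t, chk3 f_A00pm_102_s1 t 245 278 4 = true := ex3_c t930_A00pm_102_s1 k307_A00pm_102_s1

theorem t932_A00pm_102_s1 : ∃ t, chk3 f_A00pm_102_s1 t 245 139 4 = true := ex3_b t931_A00pm_102_s1 t928_A00pm_102_s1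

theorem t933_A00pm_102_s1 : ∃ t, chk3 f_A00pm_102_s1 t 245 139 2 = true := ex3_c t932_A00pm_102_s1 k311_A00pm_102_s1

theorem t934_A00pm_102_s1 : ∃ t, chk3 f_A00pm_102_s1 t 245 139 1 = true := ex3_c t933_A00pm_102_s1 k312_A00pm_102_s1

theorem t935_A00pm_102_s1 : ∃ t, chk3 f_A00pm_102_s1 t 489 279 8 = true := ex3_b k299_A00pm_102_s1 k300_A00pm_102_s1

theorem t936_A00pm_102_s1 : ∃ t, chk3 f_A00pm_102_s1 t 488 279 8 = true := ex3_b k297_A00pm_102_s1 k298_A00pm_102_s1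

theorem t937_A00pm_102_s1 : ∃ t, chk3 f_A00pm_102_s1 t 244 279 8 = true := ex3_a t936_A00pm_102_s1 t935_A00pm_102_s1

theorem t938_A00pm_102_s1 : ∃ t, chk3 f_A00pm_102_s1 t 244 279 4 = true := ex3_c t937_A00pm_102_s1 k301_A00pm_102_s1

theorem t939_A00pm_102_s1 : ∃ t, chk3 f_A00pm_102_s1 t 244 279 2 = true := ex3_c t938_A00pm_102_s1 k302_A00pm_102_s1

theorem t940_A00pm_102_s1 : ∃ t, chk3 f_A00pm_102_s1 t 244 279 1 = true := ex3_c t939_A00pm_102_s1 k303_A00pm_102_s1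

theorem t941_A00pm_102_s1 : ∃ t, chk3 f_A00pm_102_s1 t 489 557 8 = true := ex3_c k292_A00pm_102_s1 k293_A00pm_102_s1

theorem t942_A00pm_102_s1 : ∃ t, chk3 f_A00pm_102_s1 t 489 278 8 = true := ex3_b k291_A00pm_102_s1 t941_A00pm_102_s1

theorem t943_A00pm_102_s1 : ∃ t, chk3 f_A00pm_102_s1 t 489 278 4 = true := ex3_c t942_A00pm_102_s1 k294_A00pm_102_s1

theorem t944_A00pm_102_s1 : ∃ t, chk3 f_A00pm_102_s1 t 489 278 2 = true := ex3_c t943_A00pm_102_s1 k295_A00pm_102_s1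

theorem t945_A00pm_102_s1 : ∃ t, chk3 f_A00pm_102_s1 t 489 278 1 = true := ex3_c t944_A00pm_102_s1 k296_A00pm_102_s1

theorem t946_A00pm_102_s1 : ∃ t, chk3 f_A00pm_102_s1 t 976 1114 2 = true := ex3_a k286_A00pm_102_s1 k287_A00pm_102_s1

theorem t947_A00pm_102_s1 : ∃ t, chk3 f_A00pm_102_s1 t 976 557 2 = true := ex3_b t946_A00pm_102_s1 k288_A00pm_102_s1

theorem t948_A00pm_102_s1 : ∃ t, chk3 f_A00pm_102_s1 t 488 557 2 = true := ex3_a t947_A00pm_102_s1 k289_A00pm_102_s1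

theorem t949_A00pm_102_s1 : ∃ t, chk3 f_A00pm_102_s1 t 488 557 1 = true := ex3_c t948_A00pm_102_s1 k290_A00pm_102_s1

theorem t950_A00pm_102_s1 : ∃ t, chk3 f_A00pm_102_s1 t 977 556 2 = true := ex3_b k283_A00pm_102_s1 k284_A00pm_102_s1

theorem t951_A00pm_102_s1 : ∃ t, chk3 f_A00pm_102_s1 t 977 556 1 = true := ex3_c t950_A00pm_102_s1 k285_A00pm_102_s1

theorem t952_A00pm_102_s1 : ∃ t, chk3 f_A00pm_102_s1 t 976 556 1 = true := ex3_c k281_A00pm_102_s1 k282_A00pm_102_s1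

theorem t953_A00pm_102_s1 : ∃ t, chk3 f_A00pm_102_s1 t 488 556 1 = true := ex3_a t952_A00pm_102_s1 t951_A00pm_102_s1

theorem t954_A00pm_102_s1 : ∃ t, chk3 f_A00pm_102_s1 t 488 278 1 = true := ex3_b t953_A00pm_102_s1 t949_A00pm_102_s1

theorem t955_A00pm_102_s1 : ∃ t, chk3 f_A00pm_102_s1 t 244 278 1 = true := ex3_a t954_A00pm_102_s1 t945_A00pm_102_s1

theorem t956_A00pm_102_s1 : ∃ t, chk3 f_A00pm_102_s1 t 244 139 1 = true := ex3_b t955_A00pm_102_s1 t940_A00pm_102_s1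

theorem t957_A00pm_102_s1 : ∃ t, chk3 f_A00pm_102_s1 t 122 139 1 = true := ex3_a t956_A00pm_102_s1 t934_A00pm_102_s1

theorem t958_A00pm_102_s1 : ∃ t, chk3 f_A00pm_102_s1 t 491 277 4 = true := ex3_c k277_A00pm_102_s1 k278_A00pm_102_s1

theorem t959_A00pm_102_s1 : ∃ t, chk3 f_A00pm_102_s1 t 491 277 2 = true := ex3_c t958_A00pm_102_s1 k279_A00pm_102_s1

theorem t960_A00pm_102_s1 : ∃ t, chk3 f_A00pm_102_s1 t 491 277 1 = true := ex3_c t959_A00pm_102_s1 k280_A00pm_102_s1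

theorem t961_A00pm_102_s1 : ∃ t, chk3 f_A00pm_102_s1 t 490 277 1 = true := ex3_a k275_A00pm_102_s1 k276_A00pm_102_s1

theorem t962_A00pm_102_s1 : ∃ t, chk3 f_A00pm_102_s1 t 245 277 1 = true := ex3_a t961_A00pm_102_s1 t960_A00pm_102_s1

theorem t963_A00pm_102_s1 : ∃ t, chk3 f_A00pm_102_s1 t 490 553 1 = true := ex3_c k272_A00pm_102_s1 k273_A00pm_102_s1

theorem t964_A00pm_102_s1 : ∃ t, chk3 f_A00pm_102_s1 t 490 276 1 = true := ex3_b k271_A00pm_102_s1 t963_A00pm_102_s1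

theorem t965_A00pm_102_s1 : ∃ t, chk3 f_A00pm_102_s1 t 245 276 1 = true := ex3_a t964_A00pm_102_s1 k274_A00pm_102_s1

theorem t966_A00pm_102_s1 : ∃ t, chk3 f_A00pm_102_s1 t 245 138 1 = true := ex3_b t965_A00pm_102_s1 t962_A00pm_102_s1

theorem t967_A00pm_102_s1 : ∃ t, chk3 f_A00pm_102_s1 t 978 555 2 = true := ex3_b k267_A00pm_102_s1 k268_A00pm_102_s1

theorem t968_A00pm_102_s1 : ∃ t, chk3 f_A00pm_102_s1 t 978 555 1 = true := ex3_c t967_A00pm_102_s1 k269_A00pm_102_s1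

theorem t969_A00pm_102_s1 : ∃ t, chk3 f_A00pm_102_s1 t 489 555 1 = true := ex3_a t968_A00pm_102_s1 k270_A00pm_102_s1

theorem t970_A00pm_102_s1 : ∃ t, chk3 f_A00pm_102_s1 t 979 554 1 = true := ex3_c k265_A00pm_102_s1 k266_A00pm_102_s1

theorem t971_A00pm_102_s1 : ∃ t, chk3 f_A00pm_102_s1 t 489 554 1 = true := ex3_a k264_A00pm_102_s1 t970_A00pm_102_s1

theorem t972_A00pm_102_s1 : ∃ t, chk3 f_A00pm_102_s1 t 489 277 1 = true := ex3_b t971_A00pm_102_s1 t969_A00pm_102_s1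

theorem t973_A00pm_102_s1 : ∃ t, chk3 f_A00pm_102_s1 t 489 138 1 = true := ex3_b k263_A00pm_102_s1 t972_A00pm_102_s1

theorem t974_A00pm_102_s1 : ∃ t, chk3 f_A00pm_102_s1 t 244 138 1 = true := ex3_a k262_A00pm_102_s1 t973_A00pm_102_s1

theorem t975_A00pm_102_s1 : ∃ t, chk3 f_A00pm_102_s1 t 122 138 1 = true := ex3_a t974_A00pm_102_s1 t966_A00pm_102_s1

theorem t976_A00pm_102_s1 : ∃ t, chk3 f_A00pm_102_s1 t 122 69 1 = true := ex3_b t975_A00pm_102_s1 t957_A00pm_102_s1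

theorem t977_A00pm_102_s1 : ∃ t, chk3 f_A00pm_102_s1 t 61 69 1 = true := ex3_a t976_A00pm_102_s1 t926_A00pm_102_s1

theorem t978_A00pm_102_s1 : ∃ t, chk3 f_A00pm_102_s1 t 246 137 1 = true := ex3_b k259_A00pm_102_s1 k260_A00pm_102_s1

theorem t979_A00pm_102_s1 : ∃ t, chk3 f_A00pm_102_s1 t 123 137 1 = true := ex3_a t978_A00pm_102_s1 k261_A00pm_102_s1

theorem t980_A00pm_102_s1 : ∃ t, chk3 f_A00pm_102_s1 t 1982 1088 1 = true := ex3_b k253_A00pm_102_s1 k254_A00pm_102_s1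

theorem t981_A00pm_102_s1 : ∃ t, chk3 f_A00pm_102_s1 t 991 1088 1 = true := ex3_a t980_A00pm_102_s1 k255_A00pm_102_s1

theorem t982_A00pm_102_s1 : ∃ t, chk3 f_A00pm_102_s1 t 991 544 1 = true := ex3_b t981_A00pm_102_s1 k256_A00pm_102_s1

theorem t983_A00pm_102_s1 : ∃ t, chk3 f_A00pm_102_s1 t 495 544 1 = true := ex3_a k252_A00pm_102_s1 t982_A00pm_102_s1

theorem t984_A00pm_102_s1 : ∃ t, chk3 f_A00pm_102_s1 t 495 272 1 = true := ex3_b t983_A00pm_102_s1 k257_A00pm_102_s1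

theorem t985_A00pm_102_s1 : ∃ t, chk3 f_A00pm_102_s1 t 247 272 1 = true := ex3_a k251_A00pm_102_s1 t984_A00pm_102_s1

theorem t986_A00pm_102_s1 : ∃ t, chk3 f_A00pm_102_s1 t 247 136 1 = true := ex3_b t985_A00pm_102_s1 k258_A00pm_102_s1

theorem t987_A00pm_102_s1 : ∃ t, chk3 f_A00pm_102_s1 t 123 136 1 = true := ex3_a k250_A00pm_102_s1 t986_A00pm_102_s1

theorem t988_A00pm_102_s1 : ∃ t, chk3 f_A00pm_102_s1 t 123 68 1 = true := ex3_b t987_A00pm_102_s1 t979_A00pm_102_s1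

theorem t989_A00pm_102_s1 : ∃ t, chk3 f_A00pm_102_s1 t 61 68 1 = true := ex3_a k249_A00pm_102_s1 t988_A00pm_102_s1

theorem t990_A00pm_102_s1 : ∃ t, chk3 f_A00pm_102_s1 t 61 34 1 = true := ex3_b t989_A00pm_102_s1 t977_A00pm_102_s1

theorem t991_A00pm_102_s1 : ∃ t, chk3 f_A00pm_102_s1 t 487 559 4 = true := ex3_c k245_A00pm_102_s1 k246_A00pm_102_s1

theorem t992_A00pm_102_s1 : ∃ t, chk3 f_A00pm_102_s1 t 487 559 2 = true := ex3_c t991_A00pm_102_s1 k247_A00pm_102_s1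

theorem t993_A00pm_102_s1 : ∃ t, chk3 f_A00pm_102_s1 t 487 559 1 = true := ex3_c t992_A00pm_102_s1 k248_A00pm_102_s1

theorem t994_A00pm_102_s1 : ∃ t, chk3 f_A00pm_102_s1 t 975 558 2 = true := ex3_c k242_A00pm_102_s1 k243_A00pm_102_s1

theorem t995_A00pm_102_s1 : ∃ t, chk3 f_A00pm_102_s1 t 975 558 1 = true := ex3_c t994_A00pm_102_s1 k244_A00pm_102_s1

theorem t996_A00pm_102_s1 : ∃ t, chk3 f_A00pm_102_s1 t 974 558 2 = true := ex3_b k239_A00pm_102_s1 k240_A00pm_102_s1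

theorem t997_A00pm_102_s1 : ∃ t, chk3 f_A00pm_102_s1 t 974 558 1 = true := ex3_c t996_A00pm_102_s1 k241_A00pm_102_s1

theorem t998_A00pm_102_s1 : ∃ t, chk3 f_A00pm_102_s1 t 487 558 1 = true := ex3_a t997_A00pm_102_s1 t995_A00pm_102_s1

theorem t999_A00pm_102_s1 : ∃ t, chk3 f_A00pm_102_s1 t 487 279 1 = true := ex3_b t998_A00pm_102_s1 t993_A00pm_102_s1

theorem t1000_A00pm_102_s1 : ∃ t, chk3 f_A00pm_102_s1 t 973 279 4 = true := ex3_a k235_A00pm_102_s1 k236_A00pm_102_s1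

theorem t1001_A00pm_102_s1 : ∃ t, chk3 f_A00pm_102_s1 t 973 279 2 = true := ex3_c t1000_A00pm_102_s1 k237_A00pm_102_s1

theorem t1002_A00pm_102_s1 : ∃ t, chk3 f_A00pm_102_s1 t 973 279 1 = true := ex3_c t1001_A00pm_102_s1 k238_A00pm_102_s1

theorem t1003_A00pm_102_s1 : ∃ t, chk3 f_A00pm_102_s1 t 486 279 1 = true := ex3_a k234_A00pm_102_s1 t1002_A00pm_102_s1

theorem t1004_A00pm_102_s1 : ∃ t, chk3 f_A00pm_102_s1 t 243 279 1 = true := ex3_a t1003_A00pm_102_s1 t999_A00pm_102_s1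

theorem t1005_A00pm_102_s1 : ∃ t, chk3 f_A00pm_102_s1 t 487 1115 2 = true := ex3_c k231_A00pm_102_s1 k232_A00pm_102_s1

theorem t1006_A00pm_102_s1 : ∃ t, chk3 f_A00pm_102_s1 t 487 557 2 = true := ex3_b k230_A00pm_102_s1 t1005_A00pm_102_s1

theorem t1007_A00pm_102_s1 : ∃ t, chk3 f_A00pm_102_s1 t 487 557 1 = true := ex3_c t1006_A00pm_102_s1 k233_A00pm_102_s1

theorem t1008_A00pm_102_s1 : ∃ t, chk3 f_A00pm_102_s1 t 487 278 1 = true := ex3_b k229_A00pm_102_s1 t1007_A00pm_102_s1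

theorem t1009_A00pm_102_s1 : ∃ t, chk3 f_A00pm_102_s1 t 243 278 1 = true := ex3_a k228_A00pm_102_s1 t1008_A00pm_102_s1

theorem t1010_A00pm_102_s1 : ∃ t, chk3 f_A00pm_102_s1 t 243 139 1 = true := ex3_b t1009_A00pm_102_s1 t1004_A00pm_102_s1

theorem t1011_A00pm_102_s1 : ∃ t, chk3 f_A00pm_102_s1 t 121 139 1 = true := ex3_a k227_A00pm_102_s1 t1010_A00pm_102_s1

theorem t1012_A00pm_102_s1 : ∃ t, chk3 f_A00pm_102_s1 t 121 69 1 = true := ex3_b k226_A00pm_102_s1 t1011_A00pm_102_s1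

theorem t1013_A00pm_102_s1 : ∃ t, chk3 f_A00pm_102_s1 t 60 69 1 = true := ex3_a k225_A00pm_102_s1 t1012_A00pm_102_s1

theorem t1014_A00pm_102_s1 : ∃ t, chk3 f_A00pm_102_s1 t 60 34 1 = true := ex3_b k224_A00pm_102_s1 t1013_A00pm_102_s1

theorem t1015_A00pm_102_s1 : ∃ t, chk3 f_A00pm_102_s1 t 30 34 1 = true := ex3_a t1014_A00pm_102_s1 t990_A00pm_102_s1

theorem t1016_A00pm_102_s1 : ∃ t, chk3 f_A00pm_102_s1 t 30 17 1 = true := ex3_b t1015_A00pm_102_s1 t916_A00pm_102_s1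

theorem t1017_A00pm_102_s1 : ∃ t, chk3 f_A00pm_102_s1 t 15 17 1 = true := ex3_a t1016_A00pm_102_s1 t871_A00pm_102_s1

theorem t1018_A00pm_102_s1 : ∃ t, chk3 f_A00pm_102_s1 t 1983 2175 3 = true := ex3_a k221_A00pm_102_s1 k222_A00pm_102_s1

theorem t1019_A00pm_102_s1 : ∃ t, chk3 f_A00pm_102_s1 t 1983 1087 3 = true := ex3_b k220_A00pm_102_s1 t1018_A00pm_102_s1

theorem t1020_A00pm_102_s1 : ∃ t, chk3 f_A00pm_102_s1 t 1983 543 3 = true := ex3_b k219_A00pm_102_s1 t1019_A00pm_102_s1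

theorem t1021_A00pm_102_s1 : ∃ t, chk3 f_A00pm_102_s1 t 991 543 3 = true := ex3_a k218_A00pm_102_s1 t1020_A00pm_102_s1

theorem t1022_A00pm_102_s1 : ∃ t, chk3 f_A00pm_102_s1 t 991 543 1 = true := ex3_c k217_A00pm_102_s1 t1021_A00pm_102_s1

theorem t1023_A00pm_102_s1 : ∃ t, chk3 f_A00pm_102_s1 t 495 543 1 = true := ex3_a k216_A00pm_102_s1 t1022_A00pm_102_s1

theorem t1024_A00pm_102_s1 : ∃ t, chk3 f_A00pm_102_s1 t 495 271 1 = true := ex3_b k215_A00pm_102_s1 t1023_A00pm_102_s1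

theorem t1025_A00pm_102_s1 : ∃ t, chk3 f_A00pm_102_s1 t 247 271 1 = true := ex3_a k214_A00pm_102_s1 t1024_A00pm_102_s1

theorem t1026_A00pm_102_s1 : ∃ t, chk3 f_A00pm_102_s1 t 247 135 1 = true := ex3_b k213_A00pm_102_s1 t1025_A00pm_102_s1

theorem t1027_A00pm_102_s1 : ∃ t, chk3 f_A00pm_102_s1 t 123 135 1 = true := ex3_a k212_A00pm_102_s1 t1026_A00pm_102_s1

theorem t1028_A00pm_102_s1 : ∃ t, chk3 f_A00pm_102_s1 t 123 67 1 = true := ex3_b k211_A00pm_102_s1 t1027_A00pm_102_s1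

theorem t1029_A00pm_102_s1 : ∃ t, chk3 f_A00pm_102_s1 t 61 67 1 = true := ex3_a k210_A00pm_102_s1 t1028_A00pm_102_s1

theorem t1030_A00pm_102_s1 : ∃ t, chk3 f_A00pm_102_s1 t 61 33 1 = true := ex3_b k209_A00pm_102_s1 t1029_A00pm_102_s1

theorem t1031_A00pm_102_s1 : ∃ t, chk3 f_A00pm_102_s1 t 30 33 1 = true := ex3_a k208_A00pm_102_s1 t1030_A00pm_102_s1

theorem t1032_A00pm_102_s1 : ∃ t, chk3 f_A00pm_102_s1 t 30 16 1 = true := ex3_b k207_A00pm_102_s1 t1031_A00pm_102_s1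

theorem t1033_A00pm_102_s1 : ∃ t, chk3 f_A00pm_102_s1 t 15 16 1 = true := ex3_a t1032_A00pm_102_s1 k223_A00pm_102_s1

theorem t1034_A00pm_102_s1 : ∃ t, chk3 f_A00pm_102_s1 t 15 8 1 = true := ex3_b t1033_A00pm_102_s1 t1017_A00pm_102_s1

theorem t1035_A00pm_102_s1 : ∃ t, chk3 f_A00pm_102_s1 t 119 143 1 = true := ex3_a k205_A00pm_102_s1 k206_A00pm_102_s1

theorem t1036_A00pm_102_s1 : ∃ t, chk3 f_A00pm_102_s1 t 239 285 1 = true := ex3_a k203_A00pm_102_s1 k204_A00pm_102_s1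

theorem t1037_A00pm_102_s1 : ∃ t, chk3 f_A00pm_102_s1 t 239 142 1 = true := ex3_b k202_A00pm_102_s1 t1036_A00pm_102_s1

theorem t1038_A00pm_102_s1 : ∃ t, chk3 f_A00pm_102_s1 t 119 142 1 = true := ex3_a k201_A00pm_102_s1 t1037_A00pm_102_s1

theorem t1039_A00pm_102_s1 : ∃ t, chk3 f_A00pm_102_s1 t 119 71 1 = true := ex3_b t1038_A00pm_102_s1 t1035_A00pm_102_s1

theorem t1040_A00pm_102_s1 : ∃ t, chk3 f_A00pm_102_s1 t 59 71 1 = true := ex3_a k200_A00pm_102_s1 t1039_A00pm_102_s1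

theorem t1041_A00pm_102_s1 : ∃ t, chk3 f_A00pm_102_s1 t 59 35 1 = true := ex3_b k199_A00pm_102_s1 t1040_A00pm_102_s1

theorem t1042_A00pm_102_s1 : ∃ t, chk3 f_A00pm_102_s1 t 29 35 1 = true := ex3_a k198_A00pm_102_s1 t1041_A00pm_102_s1

theorem t1043_A00pm_102_s1 : ∃ t, chk3 f_A00pm_102_s1 t 29 17 1 = true := ex3_b k197_A00pm_102_s1 t1042_A00pm_102_s1

theorem t1044_A00pm_102_s1 : ∃ t, chk3 f_A00pm_102_s1 t 14 17 1 = true := ex3_a k196_A00pm_102_s1 t1043_A00pm_102_s1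

theorem t1045_A00pm_102_s1 : ∃ t, chk3 f_A00pm_102_s1 t 14 8 1 = true := ex3_b k195_A00pm_102_s1 t1044_A00pm_102_s1

theorem t1046_A00pm_102_s1 : ∃ t, chk3 f_A00pm_102_s1 t 7 8 1 = true := ex3_a t1045_A00pm_102_s1 t1034_A00pm_102_s1

theorem t1047_A00pm_102_s1 : ∃ t, chk3 f_A00pm_102_s1 t 7 4 1 = true := ex3_b t1046_A00pm_102_s1 t866_A00pm_102_s1

theorem t1048_A00pm_102_s1 : ∃ t, chk3 f_A00pm_102_s1 t 55 79 1 = true := ex3_b k193_A00pm_102_s1 k194_A00pm_102_s1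

theorem t1049_A00pm_102_s1 : ∃ t, chk3 f_A00pm_102_s1 t 109 159 1 = true := ex3_b k191_A00pm_102_s1 k192_A00pm_102_s1

theorem t1050_A00pm_102_s1 : ∃ t, chk3 f_A00pm_102_s1 t 109 79 1 = true := ex3_b k190_A00pm_102_s1 t1049_A00pm_102_s1

theorem t1051_A00pm_102_s1 : ∃ t, chk3 f_A00pm_102_s1 t 54 79 1 = true := ex3_a k189_A00pm_102_s1 t1050_A00pm_102_s1

theorem t1052_A00pm_102_s1 : ∃ t, chk3 f_A00pm_102_s1 t 27 79 1 = true := ex3_a t1051_A00pm_102_s1 t1048_A00pm_102_s1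

theorem t1053_A00pm_102_s1 : ∃ t, chk3 f_A00pm_102_s1 t 55 157 1 = true := ex3_a k187_A00pm_102_s1 k188_A00pm_102_s1

theorem t1054_A00pm_102_s1 : ∃ t, chk3 f_A00pm_102_s1 t 55 156 1 = true := ex3_a k185_A00pm_102_s1 k186_A00pm_102_s1

theorem t1055_A00pm_102_s1 : ∃ t, chk3 f_A00pm_102_s1 t 55 78 1 = true := ex3_b t1054_A00pm_102_s1 t1053_A00pm_102_s1

theorem t1056_A00pm_102_s1 : ∃ t, chk3 f_A00pm_102_s1 t 108 312 1 = true := ex3_a k180_A00pm_102_s1 k181_A00pm_102_s1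

theorem t1057_A00pm_102_s1 : ∃ t, chk3 f_A00pm_102_s1 t 108 156 1 = true := ex3_b t1056_A00pm_102_s1 k182_A00pm_102_s1

theorem t1058_A00pm_102_s1 : ∃ t, chk3 f_A00pm_102_s1 t 54 156 1 = true := ex3_a t1057_A00pm_102_s1 k183_A00pm_102_s1

theorem t1059_A00pm_102_s1 : ∃ t, chk3 f_A00pm_102_s1 t 54 78 1 = true := ex3_b t1058_A00pm_102_s1 k184_A00pm_102_s1

theorem t1060_A00pm_102_s1 : ∃ t, chk3 f_A00pm_102_s1 t 27 78 1 = true := ex3_a t1059_A00pm_102_s1 t1055_A00pm_102_s1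

theorem t1061_A00pm_102_s1 : ∃ t, chk3 f_A00pm_102_s1 t 27 39 1 = true := ex3_b t1060_A00pm_102_s1 t1052_A00pm_102_s1

theorem t1062_A00pm_102_s1 : ∃ t, chk3 f_A00pm_102_s1 t 53 158 1 = true := ex3_b k177_A00pm_102_s1 k178_A00pm_102_s1

theorem t1063_A00pm_102_s1 : ∃ t, chk3 f_A00pm_102_s1 t 53 79 1 = true := ex3_b t1062_A00pm_102_s1 k179_A00pm_102_s1

theorem t1064_A00pm_102_s1 : ∃ t, chk3 f_A00pm_102_s1 t 104 318 1 = true := ex3_a k173_A00pm_102_s1 k174_A00pm_102_s1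

theorem t1065_A00pm_102_s1 : ∃ t, chk3 f_A00pm_102_s1 t 104 159 1 = true := ex3_b t1064_A00pm_102_s1 k175_A00pm_102_s1

theorem t1066_A00pm_102_s1 : ∃ t, chk3 f_A00pm_102_s1 t 52 159 1 = true := ex3_a t1065_A00pm_102_s1 k176_A00pm_102_s1

theorem t1067_A00pm_102_s1 : ∃ t, chk3 f_A00pm_102_s1 t 210 317 1 = true := ex3_b k170_A00pm_102_s1 k171_A00pm_102_s1

theorem t1068_A00pm_102_s1 : ∃ t, chk3 f_A00pm_102_s1 t 105 317 1 = true := ex3_a t1067_A00pm_102_s1 k172_A00pm_102_s1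

theorem t1069_A00pm_102_s1 : ∃ t, chk3 f_A00pm_102_s1 t 422 633 1 = true := ex3_b k167_A00pm_102_s1 k168_A00pm_102_s1

theorem t1070_A00pm_102_s1 : ∃ t, chk3 f_A00pm_102_s1 t 211 633 1 = true := ex3_a t1069_A00pm_102_s1 k169_A00pm_102_s1

theorem t1071_A00pm_102_s1 : ∃ t, chk3 f_A00pm_102_s1 t 423 632 1 = true := ex3_b k165_A00pm_102_s1 k166_A00pm_102_s1

theorem t1072_A00pm_102_s1 : ∃ t, chk3 f_A00pm_102_s1 t 211 632 1 = true := ex3_a k164_A00pm_102_s1 t1071_A00pm_102_s1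

theorem t1073_A00pm_102_s1 : ∃ t, chk3 f_A00pm_102_s1 t 211 316 1 = true := ex3_b t1072_A00pm_102_s1 t1070_A00pm_102_s1

theorem t1074_A00pm_102_s1 : ∃ t, chk3 f_A00pm_102_s1 t 105 316 1 = true := ex3_a k163_A00pm_102_s1 t1073_A00pm_102_s1

theorem t1075_A00pm_102_s1 : ∃ t, chk3 f_A00pm_102_s1 t 105 158 1 = true := ex3_b t1074_A00pm_102_s1 t1068_A00pm_102_s1

theorem t1076_A00pm_102_s1 : ∃ t, chk3 f_A00pm_102_s1 t 52 158 1 = true := ex3_a k162_A00pm_102_s1 t1075_A00pm_102_s1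

theorem t1077_A00pm_102_s1 : ∃ t, chk3 f_A00pm_102_s1 t 52 79 1 = true := ex3_b t1076_A00pm_102_s1 t1066_A00pm_102_s1

theorem t1078_A00pm_102_s1 : ∃ t, chk3 f_A00pm_102_s1 t 26 79 1 = true := ex3_a t1077_A00pm_102_s1 t1063_A00pm_102_s1

theorem t1079_A00pm_102_s1 : ∃ t, chk3 f_A00pm_102_s1 t 107 314 1 = true := ex3_a k159_A00pm_102_s1 k160_A00pm_102_s1

theorem t1080_A00pm_102_s1 : ∃ t, chk3 f_A00pm_102_s1 t 107 157 1 = true := ex3_b t1079_A00pm_102_s1 k161_A00pm_102_s1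

theorem t1081_A00pm_102_s1 : ∃ t, chk3 f_A00pm_102_s1 t 212 315 1 = true := ex3_b k156_A00pm_102_s1 k157_A00pm_102_s1

theorem t1082_A00pm_102_s1 : ∃ t, chk3 f_A00pm_102_s1 t 106 315 1 = true := ex3_a t1081_A00pm_102_s1 k158_A00pm_102_s1

theorem t1083_A00pm_102_s1 : ∃ t, chk3 f_A00pm_102_s1 t 106 157 1 = true := ex3_b k155_A00pm_102_s1 t1082_A00pm_102_s1

theorem t1084_A00pm_102_s1 : ∃ t, chk3 f_A00pm_102_s1 t 53 157 1 = true := ex3_a t1083_A00pm_102_s1 t1080_A00pm_102_s1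

theorem t1085_A00pm_102_s1 : ∃ t, chk3 f_A00pm_102_s1 t 107 313 1 = true := ex3_a k153_A00pm_102_s1 k154_A00pm_102_s1

theorem t1086_A00pm_102_s1 : ∃ t, chk3 f_A00pm_102_s1 t 107 156 1 = true := ex3_b k152_A00pm_102_s1 t1085_A00pm_102_s1

theorem t1087_A00pm_102_s1 : ∃ t, chk3 f_A00pm_102_s1 t 53 156 1 = true := ex3_a k151_A00pm_102_s1 t1086_A00pm_102_s1

theorem t1088_A00pm_102_s1 : ∃ t, chk3 f_A00pm_102_s1 t 53 78 1 = true := ex3_b t1087_A00pm_102_s1 t1084_A00pm_102_s1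

theorem t1089_A00pm_102_s1 : ∃ t, chk3 f_A00pm_102_s1 t 26 78 1 = true := ex3_a k150_A00pm_102_s1 t1088_A00pm_102_s1

theorem t1090_A00pm_102_s1 : ∃ t, chk3 f_A00pm_102_s1 t 26 39 1 = true := ex3_b t1089_A00pm_102_s1 t1078_A00pm_102_s1

theorem t1091_A00pm_102_s1 : ∃ t, chk3 f_A00pm_102_s1 t 13 39 1 = true := ex3_a t1090_A00pm_102_s1 t1061_A00pm_102_s1

theorem t1092_A00pm_102_s1 : ∃ t, chk3 f_A00pm_102_s1 t 110 154 1 = true := ex3_b k146_A00pm_102_s1 k147_A00pm_102_s1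

theorem t1093_A00pm_102_s1 : ∃ t, chk3 f_A00pm_102_s1 t 55 154 1 = true := ex3_a t1092_A00pm_102_s1 k148_A00pm_102_s1

theorem t1094_A00pm_102_s1 : ∃ t, chk3 f_A00pm_102_s1 t 55 77 1 = true := ex3_b t1093_A00pm_102_s1 k149_A00pm_102_s1

theorem t1095_A00pm_102_s1 : ∃ t, chk3 f_A00pm_102_s1 t 109 155 1 = true := ex3_b k144_A00pm_102_s1 k145_A00pm_102_s1

theorem t1096_A00pm_102_s1 : ∃ t, chk3 f_A00pm_102_s1 t 108 155 1 = true := ex3_a k142_A00pm_102_s1 k143_A00pm_102_s1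

theorem t1097_A00pm_102_s1 : ∃ t, chk3 f_A00pm_102_s1 t 54 155 1 = true := ex3_a t1096_A00pm_102_s1 t1095_A00pm_102_s1

theorem t1098_A00pm_102_s1 : ∃ t, chk3 f_A00pm_102_s1 t 54 77 1 = true := ex3_b k141_A00pm_102_s1 t1097_A00pm_102_s1

theorem t1099_A00pm_102_s1 : ∃ t, chk3 f_A00pm_102_s1 t 27 77 1 = true := ex3_a t1098_A00pm_102_s1 t1094_A00pm_102_s1

theorem t1100_A00pm_102_s1 : ∃ t, chk3 f_A00pm_102_s1 t 111 76 1 = true := ex3_b k139_A00pm_102_s1 k140_A00pm_102_s1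

theorem t1101_A00pm_102_s1 : ∃ t, chk3 f_A00pm_102_s1 t 110 76 1 = true := ex3_b k137_A00pm_102_s1 k138_A00pm_102_s1

theorem t1102_A00pm_102_s1 : ∃ t, chk3 f_A00pm_102_s1 t 55 76 1 = true := ex3_a t1101_A00pm_102_s1 t1100_A00pm_102_s1

theorem t1103_A00pm_102_s1 : ∃ t, chk3 f_A00pm_102_s1 t 27 76 1 = true := ex3_a k136_A00pm_102_s1 t1102_A00pm_102_s1

theorem t1104_A00pm_102_s1 : ∃ t, chk3 f_A00pm_102_s1 t 27 38 1 = true := ex3_b t1103_A00pm_102_s1 t1099_A00pm_102_s1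

theorem t1105_A00pm_102_s1 : ∃ t, chk3 f_A00pm_102_s1 t 13 38 1 = true := ex3_a k135_A00pm_102_s1 t1104_A00pm_102_s1

theorem t1106_A00pm_102_s1 : ∃ t, chk3 f_A00pm_102_s1 t 13 19 1 = true := ex3_b t1105_A00pm_102_s1 t1091_A00pm_102_s1

theorem t1107_A00pm_102_s1 : ∃ t, chk3 f_A00pm_102_s1 t 13 9 1 = true := ex3_b k134_A00pm_102_s1 t1106_A00pm_102_s1

theorem t1108_A00pm_102_s1 : ∃ t, chk3 f_A00pm_102_s1 t 51 159 1 = true := ex3_c k132_A00pm_102_s1 k133_A00pm_102_s1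

theorem t1109_A00pm_102_s1 : ∃ t, chk3 f_A00pm_102_s1 t 51 79 1 = true := ex3_b k131_A00pm_102_s1 t1108_A00pm_102_s1

theorem t1110_A00pm_102_s1 : ∃ t, chk3 f_A00pm_102_s1 t 25 79 1 = true := ex3_a k130_A00pm_102_s1 t1109_A00pm_102_s1

theorem t1111_A00pm_102_s1 : ∃ t, chk3 f_A00pm_102_s1 t 25 39 1 = true := ex3_b k129_A00pm_102_s1 t1110_A00pm_102_s1

theorem t1112_A00pm_102_s1 : ∃ t, chk3 f_A00pm_102_s1 t 12 39 1 = true := ex3_a k128_A00pm_102_s1 t1111_A00pm_102_s1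

theorem t1113_A00pm_102_s1 : ∃ t, chk3 f_A00pm_102_s1 t 12 19 1 = true := ex3_b k127_A00pm_102_s1 t1112_A00pm_102_s1

theorem t1114_A00pm_102_s1 : ∃ t, chk3 f_A00pm_102_s1 t 12 9 1 = true := ex3_b k126_A00pm_102_s1 t1113_A00pm_102_s1

theorem t1115_A00pm_102_s1 : ∃ t, chk3 f_A00pm_102_s1 t 6 9 1 = true := ex3_a t1114_A00pm_102_s1 t1107_A00pm_102_s1

theorem t1116_A00pm_102_s1 : ∃ t, chk3 f_A00pm_102_s1 t 6 4 1 = true := ex3_b k125_A00pm_102_s1 t1115_A00pm_102_s1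

theorem t1117_A00pm_102_s1 : ∃ t, chk3 f_A00pm_102_s1 t 3 4 1 = true := ex3_a t1116_A00pm_102_s1 t1047_A00pm_102_s1

theorem t1118_A00pm_102_s1 : ∃ t, chk3 f_A00pm_102_s1 t 3 2 1 = true := ex3_b t1117_A00pm_102_s1 t751_A00pm_102_s1

theorem t1119_A00pm_102_s1 : ∃ t, chk3 f_A00pm_102_s1 t 3 1 1 = true := ex3_b t1118_A00pm_102_s1 t623_A00pm_102_s1

theorem t1120_A00pm_102_s1 : ∃ t, chk3 f_A00pm_102_s1 t 5 21 1 = true := ex3_a k121_A00pm_102_s1 k122_A00pm_102_s1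

theorem t1121_A00pm_102_s1 : ∃ t, chk3 f_A00pm_102_s1 t 2 21 1 = true := ex3_a k120_A00pm_102_s1 t1120_A00pm_102_s1

theorem t1122_A00pm_102_s1 : ∃ t, chk3 f_A00pm_102_s1 t 11 2682 1 = true := ex3_b k116_A00pm_102_s1 k117_A00pm_102_s1

theorem t1123_A00pm_102_s1 : ∃ t, chk3 f_A00pm_102_s1 t 11 1341 1 = true := ex3_b t1122_A00pm_102_s1 k118_A00pm_102_s1

theorem t1124_A00pm_102_s1 : ∃ t, chk3 f_A00pm_102_s1 t 89 21453 1 = true := ex3_a k111_A00pm_102_s1 k112_A00pm_102_s1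

theorem t1125_A00pm_102_s1 : ∃ t, chk3 f_A00pm_102_s1 t 44 21453 1 = true := ex3_a k110_A00pm_102_s1 t1124_A00pm_102_s1

theorem t1126_A00pm_102_s1 : ∃ t, chk3 f_A00pm_102_s1 t 22 21453 1 = true := ex3_a t1125_A00pm_102_s1 k113_A00pm_102_s1

theorem t1127_A00pm_102_s1 : ∃ t, chk3 f_A00pm_102_s1 t 11 21453 1 = true := ex3_a t1126_A00pm_102_s1 k114_A00pm_102_s1

theorem t1128_A00pm_102_s1 : ∃ t, chk3 f_A00pm_102_s1 t 11 10726 1 = true := ex3_b k109_A00pm_102_s1 t1127_A00pm_102_s1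

theorem t1129_A00pm_102_s1 : ∃ t, chk3 f_A00pm_102_s1 t 11 5363 1 = true := ex3_b t1128_A00pm_102_s1 k115_A00pm_102_s1

theorem t1130_A00pm_102_s1 : ∃ t, chk3 f_A00pm_102_s1 t 11 2681 1 = true := ex3_b k108_A00pm_102_s1 t1129_A00pm_102_s1

theorem t1131_A00pm_102_s1 : ∃ t, chk3 f_A00pm_102_s1 t 11 1340 1 = true := ex3_b k107_A00pm_102_s1 t1130_A00pm_102_s1

theorem t1132_A00pm_102_s1 : ∃ t, chk3 f_A00pm_102_s1 t 11 670 1 = true := ex3_b t1131_A00pm_102_s1 t1123_A00pm_102_s1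

theorem t1133_A00pm_102_s1 : ∃ t, chk3 f_A00pm_102_s1 t 11 335 1 = true := ex3_b t1132_A00pm_102_s1 k119_A00pm_102_s1

theorem t1134_A00pm_102_s1 : ∃ t, chk3 f_A00pm_102_s1 t 44 668 1 = true := ex3_a k102_A00pm_102_s1 k103_A00pm_102_s1

theorem t1135_A00pm_102_s1 : ∃ t, chk3 f_A00pm_102_s1 t 22 668 1 = true := ex3_a t1134_A00pm_102_s1 k104_A00pm_102_s1

theorem t1136_A00pm_102_s1 : ∃ t, chk3 f_A00pm_102_s1 t 22 334 1 = true := ex3_b t1135_A00pm_102_s1 k105_A00pm_102_s1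

theorem t1137_A00pm_102_s1 : ∃ t, chk3 f_A00pm_102_s1 t 11 334 1 = true := ex3_a t1136_A00pm_102_s1 k106_A00pm_102_s1

theorem t1138_A00pm_102_s1 : ∃ t, chk3 f_A00pm_102_s1 t 11 167 1 = true := ex3_b t1137_A00pm_102_s1 t1133_A00pm_102_s1

theorem t1139_A00pm_102_s1 : ∃ t, chk3 f_A00pm_102_s1 t 10 2681 1 = true := ex3_b k98_A00pm_102_s1 k99_A00pm_102_s1

theorem t1140_A00pm_102_s1 : ∃ t, chk3 f_A00pm_102_s1 t 21 2680 1 = true := ex3_a k96_A00pm_102_s1 k97_A00pm_102_s1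

theorem t1141_A00pm_102_s1 : ∃ t, chk3 f_A00pm_102_s1 t 10 2680 1 = true := ex3_a k95_A00pm_102_s1 t1140_A00pm_102_s1

theorem t1142_A00pm_102_s1 : ∃ t, chk3 f_A00pm_102_s1 t 10 1340 1 = true := ex3_b t1141_A00pm_102_s1 t1139_A00pm_102_s1

theorem t1143_A00pm_102_s1 : ∃ t, chk3 f_A00pm_102_s1 t 10 670 1 = true := ex3_b t1142_A00pm_102_s1 k100_A00pm_102_s1

theorem t1144_A00pm_102_s1 : ∃ t, chk3 f_A00pm_102_s1 t 10 335 1 = true := ex3_b t1143_A00pm_102_s1 k101_A00pm_102_s1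

theorem t1145_A00pm_102_s1 : ∃ t, chk3 f_A00pm_102_s1 t 174 669 1 = true := ex3_c k92_A00pm_102_s1 k93_A00pm_102_s1

theorem t1146_A00pm_102_s1 : ∃ t, chk3 f_A00pm_102_s1 t 87 669 1 = true := ex3_a t1145_A00pm_102_s1 k94_A00pm_102_s1

theorem t1147_A00pm_102_s1 : ∃ t, chk3 f_A00pm_102_s1 t 86 669 1 = true := ex3_c k90_A00pm_102_s1 k91_A00pm_102_s1

theorem t1148_A00pm_102_s1 : ∃ t, chk3 f_A00pm_102_s1 t 43 669 1 = true := ex3_a t1147_A00pm_102_s1 t1146_A00pm_102_s1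

theorem t1149_A00pm_102_s1 : ∃ t, chk3 f_A00pm_102_s1 t 168 669 1 = true := ex3_c k86_A00pm_102_s1 k87_A00pm_102_s1

theorem t1150_A00pm_102_s1 : ∃ t, chk3 f_A00pm_102_s1 t 84 669 1 = true := ex3_a t1149_A00pm_102_s1 k88_A00pm_102_s1

theorem t1151_A00pm_102_s1 : ∃ t, chk3 f_A00pm_102_s1 t 42 669 1 = true := ex3_a t1150_A00pm_102_s1 k89_A00pm_102_s1

theorem t1152_A00pm_102_s1 : ∃ t, chk3 f_A00pm_102_s1 t 21 669 1 = true := ex3_a t1151_A00pm_102_s1 t1148_A00pm_102_s1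

theorem t1153_A00pm_102_s1 : ∃ t, chk3 f_A00pm_102_s1 t 84 1337 1 = true := ex3_c k82_A00pm_102_s1 k83_A00pm_102_s1

theorem t1154_A00pm_102_s1 : ∃ t, chk3 f_A00pm_102_s1 t 42 1337 1 = true := ex3_a t1153_A00pm_102_s1 k84_A00pm_102_s1

theorem t1155_A00pm_102_s1 : ∃ t, chk3 f_A00pm_102_s1 t 42 668 1 = true := ex3_b k81_A00pm_102_s1 t1154_A00pm_102_s1

theorem t1156_A00pm_102_s1 : ∃ t, chk3 f_A00pm_102_s1 t 21 668 1 = true := ex3_a t1155_A00pm_102_s1 k85_A00pm_102_s1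

theorem t1157_A00pm_102_s1 : ∃ t, chk3 f_A00pm_102_s1 t 21 334 1 = true := ex3_b t1156_A00pm_102_s1 t1152_A00pm_102_s1

theorem t1158_A00pm_102_s1 : ∃ t, chk3 f_A00pm_102_s1 t 41 334 1 = true := ex3_c k79_A00pm_102_s1 k80_A00pm_102_s1

theorem t1159_A00pm_102_s1 : ∃ t, chk3 f_A00pm_102_s1 t 20 334 1 = true := ex3_a k78_A00pm_102_s1 t1158_A00pm_102_s1

theorem t1160_A00pm_102_s1 : ∃ t, chk3 f_A00pm_102_s1 t 10 334 1 = true := ex3_a t1159_A00pm_102_s1 t1157_A00pm_102_s1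

theorem t1161_A00pm_102_s1 : ∃ t, chk3 f_A00pm_102_s1 t 10 167 1 = true := ex3_b t1160_A00pm_102_s1 t1144_A00pm_102_s1

theorem t1162_A00pm_102_s1 : ∃ t, chk3 f_A00pm_102_s1 t 5 167 1 = true := ex3_a t1161_A00pm_102_s1 t1138_A00pm_102_s1

theorem t1163_A00pm_102_s1 : ∃ t, chk3 f_A00pm_102_s1 t 23 166 1 = true := ex3_b k76_A00pm_102_s1 k77_A00pm_102_s1

theorem t1164_A00pm_102_s1 : ∃ t, chk3 f_A00pm_102_s1 t 91 333 1 = true := ex3_b k74_A00pm_102_s1 k75_A00pm_102_s1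

theorem t1165_A00pm_102_s1 : ∃ t, chk3 f_A00pm_102_s1 t 90 333 1 = true := ex3_b k72_A00pm_102_s1 k73_A00pm_102_s1

theorem t1166_A00pm_102_s1 : ∃ t, chk3 f_A00pm_102_s1 t 45 333 1 = true := ex3_a t1165_A00pm_102_s1 t1164_A00pm_102_s1

theorem t1167_A00pm_102_s1 : ∃ t, chk3 f_A00pm_102_s1 t 44 333 1 = true := ex3_b k70_A00pm_102_s1 k71_A00pm_102_s1

theorem t1168_A00pm_102_s1 : ∃ t, chk3 f_A00pm_102_s1 t 22 333 1 = true := ex3_a t1167_A00pm_102_s1 t1166_A00pm_102_s1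

theorem t1169_A00pm_102_s1 : ∃ t, chk3 f_A00pm_102_s1 t 90 664 1 = true := ex3_b k66_A00pm_102_s1 k67_A00pm_102_s1

theorem t1170_A00pm_102_s1 : ∃ t, chk3 f_A00pm_102_s1 t 45 664 1 = true := ex3_a t1169_A00pm_102_s1 k68_A00pm_102_s1

theorem t1171_A00pm_102_s1 : ∃ t, chk3 f_A00pm_102_s1 t 45 332 1 = true := ex3_b t1170_A00pm_102_s1 k69_A00pm_102_s1

theorem t1172_A00pm_102_s1 : ∃ t, chk3 f_A00pm_102_s1 t 44 332 1 = true := ex3_b k64_A00pm_102_s1 k65_A00pm_102_s1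

theorem t1173_A00pm_102_s1 : ∃ t, chk3 f_A00pm_102_s1 t 22 332 1 = true := ex3_a t1172_A00pm_102_s1 t1171_A00pm_102_s1

theorem t1174_A00pm_102_s1 : ∃ t, chk3 f_A00pm_102_s1 t 22 166 1 = true := ex3_b t1173_A00pm_102_s1 t1168_A00pm_102_s1

theorem t1175_A00pm_102_s1 : ∃ t, chk3 f_A00pm_102_s1 t 11 166 1 = true := ex3_a t1174_A00pm_102_s1 t1163_A00pm_102_s1

theorem t1176_A00pm_102_s1 : ∃ t, chk3 f_A00pm_102_s1 t 21 667 1 = true := ex3_a k62_A00pm_102_s1 k63_A00pm_102_s1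

theorem t1177_A00pm_102_s1 : ∃ t, chk3 f_A00pm_102_s1 t 10 667 1 = true := ex3_a k61_A00pm_102_s1 t1176_A00pm_102_s1

theorem t1178_A00pm_102_s1 : ∃ t, chk3 f_A00pm_102_s1 t 42 666 1 = true := ex3_b k58_A00pm_102_s1 k59_A00pm_102_s1

theorem t1179_A00pm_102_s1 : ∃ t, chk3 f_A00pm_102_s1 t 21 666 1 = true := ex3_a t1178_A00pm_102_s1 k60_A00pm_102_s1

theorem t1180_A00pm_102_s1 : ∃ t, chk3 f_A00pm_102_s1 t 10 666 1 = true := ex3_a k57_A00pm_102_s1 t1179_A00pm_102_s1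

theorem t1181_A00pm_102_s1 : ∃ t, chk3 f_A00pm_102_s1 t 10 333 1 = true := ex3_b t1180_A00pm_102_s1 t1177_A00pm_102_s1

theorem t1182_A00pm_102_s1 : ∃ t, chk3 f_A00pm_102_s1 t 86 664 1 = true := ex3_b k53_A00pm_102_s1 k54_A00pm_102_s1

theorem t1183_A00pm_102_s1 : ∃ t, chk3 f_A00pm_102_s1 t 43 664 1 = true := ex3_a t1182_A00pm_102_s1 k55_A00pm_102_s1

theorem t1184_A00pm_102_s1 : ∃ t, chk3 f_A00pm_102_s1 t 43 332 1 = true := ex3_b t1183_A00pm_102_s1 k56_A00pm_102_s1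

theorem t1185_A00pm_102_s1 : ∃ t, chk3 f_A00pm_102_s1 t 42 665 1 = true := ex3_a k51_A00pm_102_s1 k52_A00pm_102_s1

theorem t1186_A00pm_102_s1 : ∃ t, chk3 f_A00pm_102_s1 t 42 332 1 = true := ex3_b k50_A00pm_102_s1 t1185_A00pm_102_s1

theorem t1187_A00pm_102_s1 : ∃ t, chk3 f_A00pm_102_s1 t 21 332 1 = true := ex3_a t1186_A00pm_102_s1 t1184_A00pm_102_s1

theorem t1188_A00pm_102_s1 : ∃ t, chk3 f_A00pm_102_s1 t 10 332 1 = true := ex3_a k49_A00pm_102_s1 t1187_A00pm_102_s1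

theorem t1189_A00pm_102_s1 : ∃ t, chk3 f_A00pm_102_s1 t 10 166 1 = true := ex3_b t1188_A00pm_102_s1 t1181_A00pm_102_s1

theorem t1190_A00pm_102_s1 : ∃ t, chk3 f_A00pm_102_s1 t 5 166 1 = true := ex3_a t1189_A00pm_102_s1 t1175_A00pm_102_s1

theorem t1191_A00pm_102_s1 : ∃ t, chk3 f_A00pm_102_s1 t 5 83 1 = true := ex3_b t1190_A00pm_102_s1 t1162_A00pm_102_s1

theorem t1192_A00pm_102_s1 : ∃ t, chk3 f_A00pm_102_s1 t 2 83 1 = true := ex3_a k48_A00pm_102_s1 t1191_A00pm_102_s1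

theorem t1193_A00pm_102_s1 : ∃ t, chk3 f_A00pm_102_s1 t 47 165 1 = true := ex3_c k46_A00pm_102_s1 k47_A00pm_102_s1

theorem t1194_A00pm_102_s1 : ∃ t, chk3 f_A00pm_102_s1 t 23 165 1 = true := ex3_a k45_A00pm_102_s1 t1193_A00pm_102_s1

theorem t1195_A00pm_102_s1 : ∃ t, chk3 f_A00pm_102_s1 t 45 331 1 = true := ex3_c k43_A00pm_102_s1 k44_A00pm_102_s1

theorem t1196_A00pm_102_s1 : ∃ t, chk3 f_A00pm_102_s1 t 45 165 1 = true := ex3_b k42_A00pm_102_s1 t1195_A00pm_102_s1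

theorem t1197_A00pm_102_s1 : ∃ t, chk3 f_A00pm_102_s1 t 88 662 1 = true := ex3_b k38_A00pm_102_s1 k39_A00pm_102_s1

theorem t1198_A00pm_102_s1 : ∃ t, chk3 f_A00pm_102_s1 t 44 662 1 = true := ex3_a t1197_A00pm_102_s1 k40_A00pm_102_s1

theorem t1199_A00pm_102_s1 : ∃ t, chk3 f_A00pm_102_s1 t 44 331 1 = true := ex3_b t1198_A00pm_102_s1 k41_A00pm_102_s1

theorem t1200_A00pm_102_s1 : ∃ t, chk3 f_A00pm_102_s1 t 89 661 1 = true := ex3_b k36_A00pm_102_s1 k37_A00pm_102_s1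

theorem t1201_A00pm_102_s1 : ∃ t, chk3 f_A00pm_102_s1 t 44 661 1 = true := ex3_a k35_A00pm_102_s1 t1200_A00pm_102_s1

theorem t1202_A00pm_102_s1 : ∃ t, chk3 f_A00pm_102_s1 t 44 330 1 = true := ex3_b k34_A00pm_102_s1 t1201_A00pm_102_s1

theorem t1203_A00pm_102_s1 : ∃ t, chk3 f_A00pm_102_s1 t 44 165 1 = true := ex3_b t1202_A00pm_102_s1 t1199_A00pm_102_s1

theorem t1204_A00pm_102_s1 : ∃ t, chk3 f_A00pm_102_s1 t 22 165 1 = true := ex3_a t1203_A00pm_102_s1 t1196_A00pm_102_s1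

theorem t1205_A00pm_102_s1 : ∃ t, chk3 f_A00pm_102_s1 t 11 165 1 = true := ex3_a t1204_A00pm_102_s1 t1194_A00pm_102_s1

theorem t1206_A00pm_102_s1 : ∃ t, chk3 f_A00pm_102_s1 t 87 663 1 = true := ex3_b k32_A00pm_102_s1 k33_A00pm_102_s1

theorem t1207_A00pm_102_s1 : ∃ t, chk3 f_A00pm_102_s1 t 87 331 1 = true := ex3_b k31_A00pm_102_s1 t1206_A00pm_102_s1

theorem t1208_A00pm_102_s1 : ∃ t, chk3 f_A00pm_102_s1 t 43 331 1 = true := ex3_a k30_A00pm_102_s1 t1207_A00pm_102_s1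

theorem t1209_A00pm_102_s1 : ∃ t, chk3 f_A00pm_102_s1 t 21 331 1 = true := ex3_a k29_A00pm_102_s1 t1208_A00pm_102_s1

theorem t1210_A00pm_102_s1 : ∃ t, chk3 f_A00pm_102_s1 t 21 165 1 = true := ex3_b k28_A00pm_102_s1 t1209_A00pm_102_s1

theorem t1211_A00pm_102_s1 : ∃ t, chk3 f_A00pm_102_s1 t 10 165 1 = true := ex3_a k27_A00pm_102_s1 t1210_A00pm_102_s1

theorem t1212_A00pm_102_s1 : ∃ t, chk3 f_A00pm_102_s1 t 5 165 1 = true := ex3_a t1211_A00pm_102_s1 t1205_A00pm_102_s1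

theorem t1213_A00pm_102_s1 : ∃ t, chk3 f_A00pm_102_s1 t 95 657 1 = true := ex3_a k24_A00pm_102_s1 k25_A00pm_102_s1

theorem t1214_A00pm_102_s1 : ∃ t, chk3 f_A00pm_102_s1 t 47 657 1 = true := ex3_a k23_A00pm_102_s1 t1213_A00pm_102_s1

theorem t1215_A00pm_102_s1 : ∃ t, chk3 f_A00pm_102_s1 t 191 656 1 = true := ex3_b k21_A00pm_102_s1 k22_A00pm_102_s1

theorem t1216_A00pm_102_s1 : ∃ t, chk3 f_A00pm_102_s1 t 95 656 1 = true := ex3_a k20_A00pm_102_s1 t1215_A00pm_102_s1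

theorem t1217_A00pm_102_s1 : ∃ t, chk3 f_A00pm_102_s1 t 47 656 1 = true := ex3_a k19_A00pm_102_s1 t1216_A00pm_102_s1

theorem t1218_A00pm_102_s1 : ∃ t, chk3 f_A00pm_102_s1 t 47 328 1 = true := ex3_b t1217_A00pm_102_s1 t1214_A00pm_102_s1

theorem t1219_A00pm_102_s1 : ∃ t, chk3 f_A00pm_102_s1 t 47 164 1 = true := ex3_b t1218_A00pm_102_s1 k26_A00pm_102_s1

theorem t1220_A00pm_102_s1 : ∃ t, chk3 f_A00pm_102_s1 t 46 164 1 = true := ex3_b k17_A00pm_102_s1 k18_A00pm_102_s1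

theorem t1221_A00pm_102_s1 : ∃ t, chk3 f_A00pm_102_s1 t 23 164 1 = true := ex3_a t1220_A00pm_102_s1 t1219_A00pm_102_s1

theorem t1222_A00pm_102_s1 : ∃ t, chk3 f_A00pm_102_s1 t 45 329 1 = true := ex3_a k15_A00pm_102_s1 k16_A00pm_102_s1

theorem t1223_A00pm_102_s1 : ∃ t, chk3 f_A00pm_102_s1 t 22 329 1 = true := ex3_a k14_A00pm_102_s1 t1222_A00pm_102_s1

theorem t1224_A00pm_102_s1 : ∃ t, chk3 f_A00pm_102_s1 t 22 164 1 = true := ex3_b k13_A00pm_102_s1 t1223_A00pm_102_s1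

theorem t1225_A00pm_102_s1 : ∃ t, chk3 f_A00pm_102_s1 t 11 164 1 = true := ex3_a t1224_A00pm_102_s1 t1221_A00pm_102_s1

theorem t1226_A00pm_102_s1 : ∃ t, chk3 f_A00pm_102_s1 t 5 164 1 = true := ex3_a k12_A00pm_102_s1 t1225_A00pm_102_s1

theorem t1227_A00pm_102_s1 : ∃ t, chk3 f_A00pm_102_s1 t 5 82 1 = true := ex3_b t1226_A00pm_102_s1 t1212_A00pm_102_s1

theorem t1228_A00pm_102_s1 : ∃ t, chk3 f_A00pm_102_s1 t 2 82 1 = true := ex3_a k11_A00pm_102_s1 t1227_A00pm_102_s1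

theorem t1229_A00pm_102_s1 : ∃ t, chk3 f_A00pm_102_s1 t 2 41 1 = true := ex3_b t1228_A00pm_102_s1 t1192_A00pm_102_s1

theorem t1230_A00pm_102_s1 : ∃ t, chk3 f_A00pm_102_s1 t 94 326 1 = true := ex3_b k7_A00pm_102_s1 k8_A00pm_102_s1

theorem t1231_A00pm_102_s1 : ∃ t, chk3 f_A00pm_102_s1 t 47 326 1 = true := ex3_a t1230_A00pm_102_s1 k9_A00pm_102_s1

theorem t1232_A00pm_102_s1 : ∃ t, chk3 f_A00pm_102_s1 t 47 163 1 = true := ex3_b t1231_A00pm_102_s1 k10_A00pm_102_s1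

theorem t1233_A00pm_102_s1 : ∃ t, chk3 f_A00pm_102_s1 t 23 163 1 = true := ex3_a k6_A00pm_102_s1 t1232_A00pm_102_s1

theorem t1234_A00pm_102_s1 : ∃ t, chk3 f_A00pm_102_s1 t 23 81 1 = true := ex3_b k5_A00pm_102_s1 t1233_A00pm_102_s1

theorem t1235_A00pm_102_s1 : ∃ t, chk3 f_A00pm_102_s1 t 11 81 1 = true := ex3_a k4_A00pm_102_s1 t1234_A00pm_102_s1

theorem t1236_A00pm_102_s1 : ∃ t, chk3 f_A00pm_102_s1 t 5 81 1 = true := ex3_a k3_A00pm_102_s1 t1235_A00pm_102_s1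

theorem t1237_A00pm_102_s1 : ∃ t, chk3 f_A00pm_102_s1 t 5 40 1 = true := ex3_b k2_A00pm_102_s1 t1236_A00pm_102_s1

theorem t1238_A00pm_102_s1 : ∃ t, chk3 f_A00pm_102_s1 t 2 40 1 = true := ex3_a k1_A00pm_102_s1 t1237_A00pm_102_s1

theorem t1239_A00pm_102_s1 : ∃ t, chk3 f_A00pm_102_s1 t 2 20 1 = true := ex3_b t1238_A00pm_102_s1 t1229_A00pm_102_s1

theorem t1240_A00pm_102_s1 : ∃ t, chk3 f_A00pm_102_s1 t 2 10 1 = true := ex3_b t1239_A00pm_102_s1 t1121_A00pm_102_s1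

theorem t1241_A00pm_102_s1 : ∃ t, chk3 f_A00pm_102_s1 t 2 5 1 = true := ex3_b t1240_A00pm_102_s1 k123_A00pm_102_s1

theorem t1242_A00pm_102_s1 : ∃ t, chk3 f_A00pm_102_s1 t 2 2 1 = true := ex3_b k0_A00pm_102_s1 t1241_A00pm_102_s1

theorem t1243_A00pm_102_s1 : ∃ t, chk3 f_A00pm_102_s1 t 2 1 1 = true := ex3_b t1242_A00pm_102_s1 k124_A00pm_102_s1

theorem t1244_A00pm_102_s1 : ∃ t, chk3 f_A00pm_102_s1 t 1 1 1 = true := ex3_a t1243_A00pm_102_s1 t1119_A00pm_102_s1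

theorem c_A00pm_102_s1 : CertF 536870912 536870912 0 536870912 587336777 62277027 true true false .npp 1 0 2
    ndB0q1 ndB0q0 pcB2 cut_A00pm_102_s1 xt_A00pm_102_s1 :=
  certF1 (fam := true) (s1 := true) (s2 := false) (a := 1) (b := 0) (c := 2) (cn := .npp) (n1 := ndB0q1) (n2 := ndB0q0) (pc := pcB2) (cut := cut_A00pm_102_s1) (xt := xt_A00pm_102_s1) (P1 := 536870912) (W1 := 536870912) (P2 := 0) (W2 := 536870912) (P3 := 587336777) (W3 := 62277027)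
    rfl (fun _ => rfl) t1244_A00pm_102_s1

theorem s_A00pm_102_s1 {κ x : ℝ} (hκ : κ * h0 = ken x) (hx : ((587336777 : ℕ) : ℝ) / S ≤ x)
    (hx' : x ≤ (((587336777 : ℕ) : ℝ) + (62277027 : ℕ)) / S)
    (H : CutA (VFD κ) PP tK tL pcB (Cut.of [[⟨0, 1, 0, 67108864⟩, ⟨1, 0, 0, 67108864⟩, ⟨2, 1, 0, 67108864⟩]]) 1 0 2 0 0 (sgb true) (sgb false) x) :
    AltA (VFD κ) PP tK tL pcB [⟨3, 0, 0, 1449551462⟩] 1 0 2 0 0 (sgb true) (sgb false) x :=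
  strip_altAD (m := 1449551462) true rfl hκ (SH.κ0 hκ (SH.hx1 hx).le (SH.hx2 hx').le) (SH.hx1 hx).le (SH.hx2 hx') (covB01).cov (covB00).cov hx hx' c_A00pm_102_s1 H ((okx6 hx hx').ext0A (T := tt) (zx hx hx') (okx hx hx') (sideB hx hx') hκ rfl rfl (.O 1 true) (.O 0 false) rfl)

end Pool.Agent.Strip051.G.I5470_6050.Tab.St.C
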