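import Pool.Agent.Strip051.G.I5470_6050.Tab
import Pool.Agent.Strip051.PB.ExtD2

/-! # Certificates B23 (generated) -/

set_option linter.all false
set_option maxRecDepth 100000

namespace Pool.Agent.Strip051.G.I5470_6050.Tab.C.BB02

open Pool.Agent.Strip051.PB Pool.Agent.Strip051.PB.T
open Pool.Agent.Strip051.G.I5470_6050.Tab

noncomputable def cut_pm_012_a : Cut := Cut.of [[⟨0, 0, 0, 67108864⟩, ⟨1, 1, 0, 67108864⟩, ⟨2, 1, 0, 67108864⟩]]

noncomputable def xt_pm_012_a : Ext := extD2 3 ⟨7, 3, 3, 10, 1815, 1000, 17, 20, 37, 100, 3, 16⟩ eng cd0q0 cd2q2a pd1 false true false .pnp 0 1 2 rfl ndB0q0 ndB2q2a pcB1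

noncomputable def f_pm_012_a : ℕ → ℕ → ℕ → ℕ → Bool := onCell 0 536870912 0 536870912 587336777 62277027
    (rowB 3 eng mog cd0q0 cd2q2a pd1 0 false true false .pnp 0 1 2 (qsf 0 536870912 0 536870912 1) ndB0q0 ndB2q2a pcB1 cut_pm_012_a xt_pm_012_a)

def k0_pm_012_a : ∃ t, chk3 f_pm_012_a t 2 2 1 = true :=
  ⟨(a (a (l 2) (b (l 2) (a (l 2) (b (l 2) (a (l 2) (b (l 2) (l 16465912))))))) (a (b (a (a (l 2) (b (b (l 16469656) (a (l 2) (l 16444520))) (b (a (l 2) (l 16441392)) (a (l 16438776) (l 16440888))))) (b (a (b (l 16455112) (l 16448976)) (b (l 16461968) (l 16455296))) (a (b (l 16445344) (l 16444216)) (b (l 16450984) (l 16449016))))) (a (b (a (b (l 16439056) (l 16445112)) (b (l 16463120) (l 16447048))) (a (b (l 16453832) (l 16464952)) (b (l 16454432) (l 16464200)))) (b (b (a (l 16445544) (l 16449352)) (a (l 16449280) (l 16451928))) (b (l 16455936) (l 16463424))))) (b (a (b (a (b (l 16469360) (l 16462144)) (b (l 16477304) (l 16469544))) (a (b (l 16457136) (l 16454336)) (b (l 16463848) (l 16460208)))) (b (a (b (l 16485784)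 (l 16477480)) (b (l 16494776) (l 16485920))) (b (a (l 16471088) (l 16478832)) (a (l 16466608) (l 16473512))))) (b (a (b (a (l 16453680) (l 16458560)) (l 16456864)) (b (a (l 16463968) (l 16469888)) (l 16465384))) (a (b (l 16459600) (l 16464080)) (b (l 16465504) (l 16467024))))))), by decide +kernel⟩

def k1_pm_012_a : ∃ t, chk3 f_pm_012_a t 4 3 1 = true :=
  ⟨(b (a (l 2) (b (a (l 2) (a (b (l 16481448) (l 16498928)) (b (l 16479680) (l 16495520)))) (a (a (b (l 2) (a (l 2) (l 16554512))) (b (a (l 16525488) (l 16523104)) (b (l 16542816) (l 16556104)))) (b (a (l 16519360) (l 16514104)) (a (l 16542528) (l 16535240)))))) (a (a (b (l 2) (l 6)) (a (b (b (l 2) (l 6)) (l 6)) (a (b (b (l 2) (l 6)) (l 6)) (a (b (b (l 16614528) (l 6)) (l 6)) (b (b (l 16612480) (l 16646064)) (b (l 16667328) (b (l 16684152) (b (l 16696160) (b (l 16702240) (c (l 16710616) (l 16707200))))))))))) (b (a (b (a (b (l 16578312) (l 16594024)) (l 16598392)) (a (b (l 16610072) (l 16626720)) (l 16607472))) (b (b (l 16577944) (l 16569792)) (a (l 16596064) (l 16584336))))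 (b (a (a (b (l 16644008) (l 16658992)) (b (l 16630048) (b (l 16640744) (l 16648072)))) (b (a (l 16616528) (l 16603352)) (a (l 16630320) (l 16616544)))) (b (a (a (b (l 16670488) (l 16688760)) (b (l 16655488) (l 16662976))) (a (b (l 16640920) (l 16648120)) (l 16651160))) (a (b (a (a (l 16690128) (l 16682200)) (a (l 16674408) (l 16666728))) (a (b (a (l 16696120) (l 16688088)) (b (a (l 16699136) (l 16691048)) (a (b (l 16703264) (a (l 16703712) (l 16699608))) (c (l 16695056) (l 16690912))))) (b (a (l 16680176) (l 16672392)) (a (b (l 16683080) (a (l 16687016) (l 16683048))) (c (l 16678464) (l 16673808)))))) (b (a (l 16665888) (l 16640600)) (a (b (l 16671384) (a (a (l 16670368) (l 16666512)) (l 16660776))) (a (b (l 16649608) (l 16653200)) (l 16643928)))))))))), by decide +kernel⟩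

def k2_pm_012_a : ∃ t, chk3 f_pm_012_a t 5 3 1 = true :=
  ⟨(b (a (b (a (b (a (l 16477824) (l 16475752)) (l 16490120)) (b (l 16472640) (l 16483144))) (a (a (l 16560440) (l 16553968)) (b (l 16495296) (l 16509280)))) (b (a (b (l 16470080) (l 16477584)) (b (l 16469864) (l 16473816))) (a (b (l 16485984) (l 16495928)) (b (l 16478736) (a (l 16487304) (l 16482312)))))) (a (b (a (b (l 16544080) (l 16587416)) (a (l 16597144) (l 16578208))) (b (a (a (a (l 16600080) (l 16593480)) (l 16578336)) (b (l 16557856) (l 16569016))) (a (b (a (l 16616040) (l 16601976)) (b (a (l 16626016) (l 16611512)) (a (a (l 16636496) (l 16629088)) (l 16617992)))) (b (a (l 16587800) (l 16573400)) (b (a (l 16596904) (l 16582184)) (a (l 16603096) (l 16588216))))))) (b (a (b (l 16570032) (a (l 16526104) (l 16515616))) (b (b (l 16531680) (l 16566720)) (a (l 16505544) (l 16495568)))) (b (a (a (l 16584768) (l 16550520)) (l 16552024)) (a (b (a (l 16559232) (l 16545504)) (a (l 16570808) (l 16556504))) (b (a (l 16531792) (l 16518000)) (a (l 16542192) (l 16527792)))))))),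 by decide +kernel⟩

def k3_pm_012_a : ∃ t, chk3 f_pm_012_a t 3 2 1 = true :=
  ⟨(a (a (b (a (b (a (b (l 16504224) (l 16494808)) (b (l 16514008) (l 16504040))) (b (a (l 16487032) (l 16495568)) (a (l 16480880) (l 16488592)))) (b (a (b (l 16524016) (l 16513496)) (b (l 16534144) (l 16523080))) (b (a (l 16504344) (l 16513264)) (a (l 16496552) (l 16504664))))) (b (a (b (l 16500560) (l 16475840)) (b (a (l 16490016) (l 16497200)) (l 16529648))) (a (b (l 16473392) (l 16472032)) (b (l 16482936) (l 16479048))))) (b (a (b (a (b (l 16544328) (l 16553736)) (b (l 16554912) (l 16542920))) (a (b (l 16522344) (l 16513088)) (l 16548144))) (b (a (b (l 16565456) (l 16553040)) (b (l 16575704) (l 16562856))) (b (l 16567160) (l 16535192)))) (b (a (b (l 16509008) (l 16501272)) (b (l 16524856) (l 16514984))) (a (l 16491168) (l 16500864))))) (b (a (b (a (a (l 16600008) (b (l 16594832) (l 16581096))) (b (a (l 16624312) (l 16611128)) (l 16614080))) (a (b (l 16563824) (l 16551408)) (b (l 16579056) (l 16565224)))) (b (a (b (l 16622568) (a (l 16604064)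 (l 16611048))) (b (l 16637520) (l 16642512))) (a (l 16584904) (a (l 16593960) (l 16620992))))) (a (a (b (l 16554504) (l 16509248)) (b (l 16544512) (l 16515048))) (b (a (l 16553464) (l 16561720)) (a (l 16518544) (l 16520920)))))), by decide +kernel⟩

def k4_pm_012_a : ∃ t, chk3 f_pm_012_a t 6 3 1 = true :=
  ⟨(b (a (b (a (b (l 16471720) (a (l 16472432) (l 16472376))) (b (l 16475976) (l 16473392))) (a (b (a (l 16474832) (l 16473112)) (a (l 16477976) (l 16473928))) (b (l 16470848) (l 16467880)))) (b (a (l 16478328) (l 16481144)) (b (a (l 16467704) (l 16464096)) (a (l 16459688) (l 16450840))))) (a (b (a (b (l 16477680) (l 16480784)) (b (l 16464008) (l 16461336))) (b (a (l 16505056) (l 16479304)) (b (a (l 16486600) (l 16458416)) (a (a (l 16513240) (l 16498576)) (a (l 16483848) (l 16469112)))))) (b (a (b (l 16450208) (l 16441752)) (b (l 16435824) (l 16421512))) (b (a (l 16432632) (c (l 16448448) (l 16407072))) (a (a (b (l 16447808) (l 16454440)) (b (l 16433920) (l 16440120))) (b (a (l 16420752) (l 16408632)) (a (l 16426728) (l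 16414024)))))))), by decide +kernel⟩

def k5_pm_012_a : ∃ t, chk3 f_pm_012_a t 7 6 1 = true :=
  ⟨(a (b (a (l 16482632) (l 16481184)) (b (a (l 16458928) (l 16450344)) (a (b (l 16445360) (l 16435592)) (a (l 16430304) (l 16421760))))) (b (a (l 16476736) (l 16470616)) (a (b (l 16437840) (l 16407440)) (l 16384416)))), by decide +kernel⟩

def k6_pm_012_a : ∃ t, chk3 f_pm_012_a t 14 7 1 = true :=
  ⟨(b (a (b (a (l 16423968) (l 16414760)) (l 16377568)) (b (l 16397856) (l 16369360))) (b (a (l 16406872) (l 16412992)) (a (b (l 16413232) (a (l 16402168) (l 16391560))) (c (b (l 16378080) (a (l 16386104) (b (l 16378016) (l 16380080)))) (a (l 16377920) (l 16370320)))))), by decide +kernel⟩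

def k7_pm_012_a : ∃ t, chk3 f_pm_012_a t 15 14 1 = true :=
  ⟨(a (b (l 16370856) (l 16357976)) (b (l 16395176) (l 16371840))), by decide +kernel⟩

def k8_pm_012_a : ∃ t, chk3 f_pm_012_a t 15 30 1 = true :=
  ⟨(a (a (l 16363048) (l 16358144)) (a (l 16353424) (b (l 16348168) (l 16348176)))), by decide +kernel⟩

def k9_pm_012_a : ∃ t, chk3 f_pm_012_a t 30 31 1 = true :=
  ⟨(b (a (l 16366064) (l 16360232)) (c (b (a (l 16371704) (l 16365584)) (c (a (a (l 16377248) (l 16374056)) (b (l 16368840) (b (a (l 16371096) (l 16367888)) (a (a (l 16372368) (a (l 16371152) (c (l 16371496) (l 16369176)))) (c (b (l 592567353953190816389679) (b (l 592760756535588615330351) (c (a (c (a (l 593446168370077390361135) (l 593542725546088212124207)) (a (l 16371152) (l 593591148249281698517551))) (c (a (l 593640435643603640717871) (l 593739586892999827870255)) (a (l 593688858346797127127599) (l 593787721365817162568239)))) (a (l 16369872) (a (l 16368648) (l 593860931881359695581743)))))) (a (l 16367960) (l 16366336))))))) (a (l 16371232) (a (l 16366344)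 (l 16363136))))) (a (l 16363968) (b (l 16357120) (l 16357448))))), by decide +kernel⟩

def k10_pm_012_a : ∃ t, chk3 f_pm_012_a t 62 31 1 = true :=
  ⟨(a (b (l 16355992) (b (l 16356904) (c (b (l 592865960622883974568495) (c (b (l 592887001440343055112751) (c (b (l 592897954194636823058991) (b (l 592901989419902947351087) (c (a (b (l 592820420223452015942191) (a (c (l 593841332215781380477487) (l 593889466688598715175471)) (c (l 593934430627278381666863) (l 593991212011380267717167)))) (a (c (a (l 594019458588243135287855) (l 594071340055950442533423)) (l 594187785127915733357103)) (a (l 594242260669008406155823) (l 594294718597468016824879)))) (a (a (l 594055775615638251033135) (l 594157520938419803591215)) (a (l 594260707413082114691631) (l 594365046809249032639023)))))) (b (l 592888442592223811934767) (a (a (l 16365208) (l 594350635290441446806063)) (a (l 594453245304351454499375) (l 594557584700518372446767)))))) (a (l 16361000) (l 16359384)))) (l 16352592)))) (b (l 16353144) (b (c (l 16357896) (l 16349408)) (c (b (l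 593205496005990684383791) (c (b (l 593233742582853557508655) (b (l 593239795420752743995951) (a (a (c (c (a (l 594345447143670717108783) (l 594398769763258782913071)) (l 594468809744663647031855)) (l 594662788787813745529391)) (c (c (a (l 594452092382846848684591) (l 594505703232811066184239)) (l 594575454983839778607663)) (l 594769145796613725426223))) (a (c (c (l 594563061077665255461423) (l 594683253144520517014063)) (l 594876367496542160425519)) (c (c (l 594695647050695041045039) (l 594791915996329710522927)) (l 594984453887599050527279)))))) (b (l 16356808) (c (a (l 16359064) (a (l 595121363316271110492719) (l 595225990942814180086319))) (l 16355808))))) (l 16349376))))), by decide +kernel⟩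

def k11_pm_012_a : ∃ t, chk3 f_pm_012_a t 126 31 1 = true :=
  ⟨(b (l 16350096) (b (c (l 593549931305491971463727) (l 16346152)) (c (b (l 593560019368657282783791) (b (c (l 593596912856804707047983) (l 593528602257656742287919)) (b (c (l 593601524542823134911023) (l 593530043409537501125167)) (a (c (a (c (c (l 594805751054384993063471) (l 594995983102645120586287)) (l 595093693200160547443247)) (c (c (l 594916719749203400184367) (l 595106663567087376028207)) (l 595203797203850499478063))) (c (c (l 595378176581422282494511) (l 595407287849413602955823)) (c (l 595506439098809789321775) (l 16352632)))) (b (c (l 593696640566953198098991) (l 593617377213511468030511)) (c (c (c (a (l 595030282517407172792879) (l 595143268824858641830447)) (a (l 595219938104914996908591) (l 595332347951614162539055))) (c (l 595347912391926353711663) (l 595443893107184871428655))) (c (c (l 595580802535856932147759) (l 595631819312435782717999)) (a (l 595724053032804327707183) (c (l 595865862377870969246255) (l 595979713376450892878383))))))))))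 (c (b (l 16348472) (c (a (l 16350680) (b (l 16348864) (l 16348928))) (l 16347248))) (l 16343344))))), by decide +kernel⟩

def k12_pm_012_a : ∃ t, chk3 f_pm_012_a t 127 62 1 = true :=
  ⟨(l 593861220111735804238383), by decide +kernel⟩

def k13_pm_012_a : ∃ t, chk3 f_pm_012_a t 127 126 2 = true :=
  ⟨(l 593922901412232279104047), by decide +kernel⟩

def k14_pm_012_a : ∃ t, chk3 f_pm_012_a t 127 254 2 = true :=
  ⟨(c (l 593967288890159648004655) (l 593883125620323339704879)), by decide +kernel⟩

def k15_pm_012_a : ∃ t, chk3 f_pm_012_a t 127 255 4 = true :=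
  ⟨(b (l 593974494649563441617455) (b (a (l 593882549159571048012335) (l 594074222359711932242479)) (a (b (l 593884566772204110207535) (a (c (c (l 595257119823438565970479) (l 595351371156440173531695)) (c (l 595540738513571845919279) (l 595642195605977246175791))) (b (l 593932989475397596879407) (c (c (l 595372700204275400380975) (l 595466663306900856246831)) (c (l 595572732085324683956783) (l 595658336507041740067375)))))) (a (b (l 594027529038775356185135) (b (l 594028393729903811418671) (c (c (c (l 595453404709597878112815) (l 595499809800158302638639)) (c (l 595546791351471030587951) (l 595593484672407606809135))) (c (c (l 595640754454096486421039) (l 595704165136849861890607)) (c (l 595755758374181017162287) (l 595807063381136020722223)))))) (b (l 594124086214786177522223) (c (b (l 594147144644878316706351) (b (l 594147721105630620195375) (b (l 594148009336006771923503) (c (c (a (l 595505862638057488093743) (c (l 595547079581847182053935) (l 595575902619462352720431))) (a (l 595552267728617912635951) (c (l 595600402201435247677999)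 (l 595624901783408142651951)))) (c (a (l 595598961049554488857135) (c (l 595649689595757189337647) (l 595674189177730084295215))) (a (l 595645366140114913366575) (c (l 595698688759702979252783) (l 595723188341675874210351)))))))) (b (l 594101027784694038469167) (b (l 594101316015070190230063) (c (c (a (l 595697247607822220382767) (c (l 595756334834933320503855) (l 595775069809383181210159))) (a (l 595747399693272617112111) (c (l 595799569391356076151343) (l 595824068973328971092527)))) (c (a (l 595797551778723013825071) (c (l 595848856785678017745455) (l 595873356367650912686639))) (a (l 595847415633797258826287) (c (l 595897855949623807611439) (l 595922355531596702536239))))))))))))), by decide +kernel⟩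

def k16_pm_012_a : ∃ t, chk3 f_pm_012_a t 127 255 5 = true :=
  ⟨(b (l 593883125620323340114479) (b (a (l 593793485973340159941167) (l 593973053497682672359983)) (b (a (l 593793774203716311767599) (c (l 594001300074545542584879) (l 593943077538562892012079))) (b (a (l 593794062434092463528495) (c (l 594001588304921694362159) (l 593942789308186740333103))) (b (a (l 593794062434092463561263) (c (l 594001588304921694394927) (l 593942789308186740349487))) (c (a (c (a (l 595737023399731157045807) (l 595759793599447140291119)) (a (l 595847703864173411963439) (l 595866727068999422956079))) (c (a (c (l 595853468471696445166127) (l 595904773478651448676911)) (c (a (l 595897567719247655506479) (c (l 595946855113569597461039) (l 595971642925918644081199))) (a (l 595971354695542492549679) (c (l 595996142507891539005999) (l 596020642089864433914415))))) (a (c (l 595956366715982603883055) (l 596007959953313759089199)) (c (a (l 596021218550616737485359) (c (l 596045141671837328822831) (l 596069641253810223731247))) (a (l 596071370636067134132783)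 (a (l 596091834992773904896559) (l 596121234491141378970159))))))) (a (c (a (l 595958096098239515103791) (l 595973372308175553860143)) (a (l 595973948768927856742959) (l 596056382656507244335663))) (b (l 593942789308186740365871) (c (a (c (l 596056670886883397161519) (l 596108264124214552334895)) (c (a (l 596142563538976605721135) (l 596164757277940286493231)) (a (l 596192427394050850624047) (l 596214044672262227972655)))) (a (c (l 596159569131169555780143) (l 596211162368500710920751)) (c (a (l 596242579479501247238703) (l 596263043836208017740335)) (a (l 596292731564951643820591) (l 596300225554731587293743))))))))))))), by decide +kernel⟩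

def k17_pm_012_a : ∃ t, chk3 f_pm_012_a t 127 63 3 = true :=
  ⟨(b (l 16342656) (b (l 593706152169366174325295) (c (b (l 593764374705348825078319) (a (c (b (l 593709034473127700961839) (b (l 593707881551623094147631) (c (a (l 596146598764242729505327) (c (l 596175421801857899369007) (l 596228456191069813035567))) (a (l 16346912) (c (l 596281490580281726702127) (l 16345640)))))) (l 16344496)) (b (l 593844502749918998944303) (b (l 593842485137285936962095) (b (c (l 593877072782424144992815) (l 593804150497257756613167)) (c (b (l 593876784552047993281071) (c (c (a (l 596265061448841079738927) (a (l 596345189493411254080047) (l 596375741913283334492719))) (a (l 596316366455796083135023) (a (l 596395341578861650645551) (l 596424741077229124211247)))) (a (c (l 596367959693127238242863) (l 596419264700082241606191)) (a (c (l 596445205433935895466543) (l 596495357519386291999279)) (c (l 596450393580706625262127) (l 596499392744652414947887)))))) (c (a (l 16343696) (a (c (l 596550697751607419327023) (l 16342632)) (c (l 596577503176589527503407)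 (l 596626502340535317156399)))) (l 16341880)))))))) (c (l 16340920) (l 16338160))))), by decide +kernel⟩

theorem s18_pm_012_a : ∃ t, chk3 f_pm_012_a t 127 255 2 = true := ex3_c k15_pm_012_a k16_pm_012_a

theorem s19_pm_012_a : ∃ t, chk3 f_pm_012_a t 127 127 2 = true := ex3_b k14_pm_012_a s18_pm_012_a

theorem s20_pm_012_a : ∃ t, chk3 f_pm_012_a t 127 63 2 = true := ex3_b k13_pm_012_a s19_pm_012_a

theorem s21_pm_012_a : ∃ t, chk3 f_pm_012_a t 127 63 1 = true := ex3_c s20_pm_012_a k17_pm_012_a

theorem s22_pm_012_a : ∃ t, chk3 f_pm_012_a t 127 31 1 = true := ex3_b k12_pm_012_a s21_pm_012_a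

theorem s23_pm_012_a : ∃ t, chk3 f_pm_012_a t 63 31 1 = true := ex3_a k11_pm_012_a s22_pm_012_a

theorem s24_pm_012_a : ∃ t, chk3 f_pm_012_a t 31 31 1 = true := ex3_a k10_pm_012_a s23_pm_012_a

theorem s25_pm_012_a : ∃ t, chk3 f_pm_012_a t 15 31 1 = true := ex3_a k9_pm_012_a s24_pm_012_a

theorem s26_pm_012_a : ∃ t, chk3 f_pm_012_a t 15 15 1 = true := ex3_b k8_pm_012_a s25_pm_012_a

theorem s27_pm_012_a : ∃ t, chk3 f_pm_012_a t 15 7 1 = true := ex3_b k7_pm_012_a s26_pm_012_a

theorem s28_pm_012_a : ∃ t, chk3 f_pm_012_a t 7 7 1 = true := ex3_a k6_pm_012_a s27_pm_012_a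

theorem s29_pm_012_a : ∃ t, chk3 f_pm_012_a t 7 3 1 = true := ex3_b k5_pm_012_a s28_pm_012_a

theorem s30_pm_012_a : ∃ t, chk3 f_pm_012_a t 3 3 1 = true := ex3_a k4_pm_012_a s29_pm_012_a

theorem s31_pm_012_a : ∃ t, chk3 f_pm_012_a t 3 1 1 = true := ex3_b k3_pm_012_a s30_pm_012_a

theorem s32_pm_012_a : ∃ t, chk3 f_pm_012_a t 2 3 1 = true := ex3_a k1_pm_012_a k2_pm_012_a

theorem s33_pm_012_a : ∃ t, chk3 f_pm_012_a t 2 1 1 = true := ex3_b k0_pm_012_a s32_pm_012_a

theorem s34_pm_012_a : ∃ t, chk3 f_pm_012_a t 1 1 1 = true := ex3_a s33_pm_012_a s31_pm_012_a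

theorem c_pm_012_a : CertB 0 536870912 0 536870912 587336777 62277027 3 eng mog cd0q0 cd2q2a pd1 false true false .pnp 0 1 2
    ndB0q0 ndB2q2a pcB1 cut_pm_012_a xt_pm_012_a :=
  certB0 (fam := false) (s1 := true) (s2 := false) (a := 0) (b := 1) (c := 2) (cn := .pnp) (n1 := ndB0q0) (n2 := ndB2q2a) (pc := pcB1) (cut := cut_pm_012_a) (xt := xt_pm_012_a) (P1 := 0) (W1 := 536870912) (P2 := 0) (W2 := 536870912) (P3 := 587336777) (W3 := 62277027) (N0 := 3) (En := eng) (mo := mog) (C1 := cd0q0) (C2 := cd2q2a) (C3 := pd1)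
    rfl s34_pm_012_a

noncomputable def cut_pm_012_b : Cut := Cut.of [[⟨0, 0, 0, 67108864⟩, ⟨1, 1, 0, 67108864⟩, ⟨2, 1, 0, 67108864⟩]]

noncomputable def f_pm_012_b : ℕ → ℕ → ℕ → ℕ → Bool := onCell 0 536870912 1239849684 370763052 587336777 62277027
    (rowB 3 eng mog cd0q0 cd2q2b pd1 0 false true false .pnp 0 1 2 (qsf 0 536870912 1239849684 370763052 1) ndB0q0 ndB2q2b pcB1 cut_pm_012_b Ext.none)

def k0_pm_012_b : ∃ t, chk3 f_pm_012_b t 2 1 1 = true :=
  ⟨(a (l 2) (b (b (b (a (a (a (l 2) (b (b (l 16439744) (l 2)) (l 2))) (a (b (b (a (l 16445096) (l 16448792)) (l 16422392)) (l 2)) (b (b (l 16454552) (l 16431112)) (l 16415768)))) (a (b (a (l 16451624) (l 16460920)) (a (l 16405720) (l 16417256))) (b (a (l 16491720) (l 16502064)) (a (l 16429336) (l 16441944))))) (a (l 2) (b (a (a (l 16357512) (l 16371248)) (l 16392960)) (a (l 2) (a (l 16339688) (l 16356872)))))) (a (l 2) (a (l 2) (b (a (l 2) (l 16308808)) (l 2))))) (l 2))), by decide +kernel⟩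

def k1_pm_012_b : ∃ t, chk3 f_pm_012_b t 3 1 1 = true :=
  ⟨(b (a (a (b (b (a (b (a (l 16512864) (l 16523992)) (a (l 16454992) (l 16468368))) (b (a (l 16514360) (l 16525800)) (a (l 16481936) (l 16495576)))) (a (a (l 16395416) (l 16412232)) (a (l 16429224) (l 16446248)))) (a (b (b (l 16341392) (l 16297496)) (l 2)) (b (a (l 16352200) (l 16373936)) (b (l 16302488) (l 16260256))))) (b (a (b (b (a (b (l 16543928) (l 16530456)) (b (l 16597024) (l 16542440))) (l 16515952)) (b (l 16486872) (l 16455920))) (b (b (a (b (l 16566336) (l 16554632)) (l 16572120)) (a (l 16536160) (l 16549648))) (a (l 16496504) (l 16512704)))) (a (b (l 16406216) (l 16334344)) (b (l 16448176) (l 16385768))))) (b (a (b (a (b (a (l 16583216) (l 16593768)) (l 16569296)) (b (a (l 16603360) (l 16612440)) (l 16592912))) (a (b (l 16547744) (l 16524632)) (l 16629072))) (b (a (b (l 16646608) (l 16614400)) (a (l 16634864) (l 16644640))) (a (l 16592904) (l 16619072)))) (a (a (b (l 16487792) (l 16434224)) (b (l 16524248) (l 16478272))) (a (b (l 16558584) (l 16519656))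 (b (l 16591272) (b (l 16567208) (l 16550320))))))) (a (a (l 2) (b (a (b (l 16256904) (l 2)) (b (l 16318048) (l 16246000))) (l 2))) (a (b (a (b (l 16375920) (l 16313320)) (b (l 16428352) (l 16374648))) (a (l 2) (b (l 16317464) (l 2)))) (b (a (l 16517360) (b (l 16524208) (l 16486472))) (a (a (l 16340088) (l 16374408)) (a (l 16408288) (l 16442128))))))), by decide +kernel⟩

theorem s2_pm_012_b : ∃ t, chk3 f_pm_012_b t 1 1 1 = true := ex3_a k0_pm_012_b k1_pm_012_b

theorem c_pm_012_b : CertB 0 536870912 1239849684 370763052 587336777 62277027 3 eng mog cd0q0 cd2q2b pd1 false true false .pnp 0 1 2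
    ndB0q0 ndB2q2b pcB1 cut_pm_012_b Ext.none :=
  certB0 (fam := false) (s1 := true) (s2 := false) (a := 0) (b := 1) (c := 2) (cn := .pnp) (n1 := ndB0q0) (n2 := ndB2q2b) (pc := pcB1) (cut := cut_pm_012_b) (xt := Ext.none) (P1 := 0) (W1 := 536870912) (P2 := 1239849684) (W2 := 370763052) (P3 := 587336777) (W3 := 62277027) (N0 := 3) (En := eng) (mo := mog) (C1 := cd0q0) (C2 := cd2q2b) (C3 := pd1)
    rfl s2_pm_012_b

noncomputable def cut_pm_022_a : Cut := Cut.of [[⟨0, 0, 0, 67108864⟩, ⟨1, 1, 0, 67108864⟩, ⟨2, 1, 0, 67108864⟩]]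

noncomputable def f_pm_022_a : ℕ → ℕ → ℕ → ℕ → Bool := onCell 0 536870912 0 536870912 587336777 62277027
    (rowB 3 eng mog cd0q0 cd2q2a pd2 0 false true false .pp 0 2 2 (qsf 0 536870912 0 536870912 2) ndB0q0 ndB2q2a pcB2 cut_pm_022_a Ext.none)

def k0_pm_022_a : ∃ t, chk3 f_pm_022_a t 2 2 1 = true :=
  ⟨(a (a (b (b (a (b (l 16453736) (l 16455400)) (a (l 16456840) (l 16516608))) (a (a (l 16463328) (l 16524600)) (a (l 16459640) (l 16457424)))) (b (a (a (b (l 16475552) (l 16487032)) (b (l 16472552) (l 16483008))) (a (b (l 16469032) (l 16478400)) (b (l 16465232) (l 16473432)))) (a (a (b (l 16501016) (l 16517592)) (b (l 16495856) (l 16511184))) (b (a (l 16490064) (l 16483856)) (a (l 16504104) (l 16496568)))))) (b (b (a (l 16515784) (l 16451168)) (a (b (a (l 16453752) (l 16451952)) (l 16454992)) (b (a (l 16449800) (l 16447456)) (a (l 16450672) (l 16447864))))) (b (a (b (l 16480224) (a (l 16468264) (l 16462880))) (b (a (l 16452992) (l 16448624)) (a (l 16457272) (l 16451424)))) (a (b (a (l 16477368) (l 16470592)) (a (l 16488664)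 (l 16480384))) (b (a (l 16463504) (l 16456072)) (a (l 16471696) (l 16462576))))))) (a (a (a (b (b (l 16448816) (b (l 16444856) (b (l 16444440) (l 16444200)))) (b (b (l 16444056) (l 58551876999)) (b (a (l 16450256) (l 16446240)) (l 19897182727)))) (b (b (b (l 16448808) (l 16444168)) (b (l 16441496) (b (l 16440688) (l 87542911687)))) (b (b (l 53720020167) (l 59625603255)) (l 1)))) (b (b (l 1) (l 1)) (l 1))) (l 1))), by decide +kernel⟩

def k1_pm_022_a : ∃ t, chk3 f_pm_022_a t 2 3 1 = true :=
  ⟨(a (b (a (a (a (b (b (l 16536848) (l 16558448)) (b (a (l 16583672) (l 16580496)) (a (l 16615376) (l 16606544)))) (b (b (l 16529072) (l 16549600)) (b (l 16572872) (l 16619920)))) (b (a (b (l 16520592) (l 16560592)) (b (l 16511608) (l 16529064))) (b (a (b (l 16555472) (l 16566952)) (l 16569960)) (a (l 16601904) (b (l 16565440) (l 16577240)))))) (b (a (b (a (l 16502176) (l 16492280)) (a (l 16517976) (l 16506312))) (b (a (l 16481872) (l 16470904)) (a (l 16494016) (l 1)))) (b (a (a (l 16536080) (b (l 16518128) (l 16526736))) (a (l 16529080)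 (l 1))) (a (a (b (l 16551056) (l 16561800)) (b (l 16535864) (l 1))) (l 1))))) (a (a (b (b (b (a (a (l 16631616) (l 16627704)) (l 16620232)) (a (a (l 16657440) (l 16642832)) (l 16635360))) (l 6)) (l 6)) (a (b (b (b (c (l 16627224) (l 16625440)) (l 16627272)) (l 6)) (l 6)) (b (a (b (l 16631784) (l 6)) (b (b (l 16585608) (l 16598288)) (b (l 16611024) (l 1)))) (l 1)))) (b (b (a (a (b (l 16573088) (l 16584872)) (l 1)) (l 1)) (l 1)) (l 1)))) (b (l 1) (l 1))), by decide +kernel⟩

def k2_pm_022_a : ∃ t, chk3 f_pm_022_a t 3 1 1 = true :=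
  ⟨(l 1), by decide +kernel⟩

theorem s3_pm_022_a : ∃ t, chk3 f_pm_022_a t 2 1 1 = true := ex3_b k0_pm_022_a k1_pm_022_a

theorem s4_pm_022_a : ∃ t, chk3 f_pm_022_a t 1 1 1 = true := ex3_a s3_pm_022_a k2_pm_022_a

theorem c_pm_022_a : CertB 0 536870912 0 536870912 587336777 62277027 3 eng mog cd0q0 cd2q2a pd2 false true false .pp 0 2 2
    ndB0q0 ndB2q2a pcB2 cut_pm_022_a Ext.none :=
  certB0 (fam := false) (s1 := true) (s2 := false) (a := 0) (b := 2) (c := 2) (cn := .pp) (n1 := ndB0q0) (n2 := ndB2q2a) (pc := pcB2) (cut := cut_pm_022_a) (xt := Ext.none) (P1 := 0) (W1 := 536870912) (P2 := 0) (W2 := 536870912) (P3 := 587336777) (W3 := 62277027) (N0 := 3) (En := eng) (mo := mog) (C1 := cd0q0) (C2 := cd2q2a) (C3 := pd2)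
    rfl s4_pm_022_a

noncomputable def cut_pm_022_b : Cut := Cut.of [[⟨0, 0, 0, 67108864⟩, ⟨1, 1, 0, 67108864⟩, ⟨2, 1, 0, 67108864⟩]]

noncomputable def f_pm_022_b : ℕ → ℕ → ℕ → ℕ → Bool := onCell 0 536870912 1073741824 536870912 587336777 62277027
    (rowB 3 eng mog cd0q0 cd2q2b pd2 1 false true false .pp 0 2 2 (qsf 0 536870912 1239849684 370763052 2) ndB0q0 ndB2q2b pcB2 cut_pm_022_b Ext.none)

def k0_pm_022_b : ∃ t, chk3 f_pm_022_b t 1 1 1 = true :=
  ⟨(b (a (a (b (a (b (l 1) (a (b (l 1) (l 269005357495)) (b (l 244846167319) (l 16545840)))) (b (a (b (l 1) (b (l 1) (l 242698649335))) (b (b (l 1) (a (l 1) (l 166999905527))) (b (a (l 16523784) (l 16451320)) (l 16458048)))) (a (b (a (l 118144702343) (l 16457944)) (l 16434712)) (b (l 16394744) (l 16341080))))) (b (a (b (a (l 75731868103) (l 16390672)) (a (l 16472216) (l 16354024))) (b (l 16459088) (l 16471560))) (a (b (l 16362496) (l 16235240)) (a (l 16267384) (l 16255960))))) (b (a (b (b (a (b (a (l 219076290279) (l 76268627223)) (l 16498960)) (a (l 16450392) (l 16383736)))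 (a (l 16416944) (l 16348976))) (a (l 16342040) (l 16283880))) (b (a (b (l 16351440) (l 16312056)) (b (l 16317760) (l 16285824))) (a (l 16257304) (l 16241416)))) (b (a (b (l 16236744) (l 16197208)) (b (l 16201968) (l 16174600))) (a (a (l 16149008) (l 16136848)) (l 16140008))))) (a (b (a (b (a (b (l 16295104) (l 16270248)) (l 16274008)) (l 16236352)) (b (a (l 16275368) (l 16285912)) (l 16260896))) (a (b (l 16263992) (l 16179584)) (b (l 16245136) (l 16245080)))) (b (a (b (a (l 16303848) (l 16326088)) (l 16309928)) (b (a (l 16353816) (l 16390704)) (l 16375168))) (a (b (l 16307264) (l 2)) (l 2))))) (a (b (a (b (a (l 16233584) (l 16073296)) (a (b (l 16083952) (l 16062352)) (l 16037640))) (b (a (l 16055928) (l 16085272)) (a (l 15945488) (l 16012104)))) (a (b (a (l 16086320) (l 15983008)) (a (l 16033968) (l 16002144))) (b (l 16100456) (l 2)))) (b (a (b (a (l 16153760) (l 2)) (l 2)) (l 2)) (l 2)))), by decide +kernel⟩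

theorem c_pm_022_b : CertB 0 536870912 1239849684 370763052 587336777 62277027 3 eng mog cd0q0 cd2q2b pd2 false true false .pp 0 2 2
    ndB0q0 ndB2q2b pcB2 cut_pm_022_b Ext.none :=
  certB1 (fam := false) (s1 := true) (s2 := false) (a := 0) (b := 2) (c := 2) (cn := .pp) (n1 := ndB0q0) (n2 := ndB2q2b) (pc := pcB2) (cut := cut_pm_022_b) (xt := Ext.none) (P1 := 0) (W1 := 536870912) (P2 := 1239849684) (W2 := 370763052) (P3 := 587336777) (W3 := 62277027) (N0 := 3) (En := eng) (mo := mog) (C1 := cd0q0) (C2 := cd2q2b) (C3 := pd2)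
    rfl (fun _ => rfl) k0_pm_022_b

noncomputable def f_pm_023 : ℕ → ℕ → ℕ → ℕ → Bool := onCell 0 536870912 1073741824 536870912 587336777 62277027
    (rowB 3 eng mog cd0q0 cd2q3 pd2 1 false true false .up 0 2 3 (qsf 0 536870912 1610612736 536870912 2) ndB0q0 ndB2q3 pcB2 Cut.none Ext.none)

def k0_pm_023 : ∃ t, chk3 f_pm_023 t 1 1 1 = true :=
  ⟨(b (a (a (l 1) (b (l 1) (a (l 1) (b (l 1) (l 16127056))))) (a (b (a (l 1) (l 224981894103)) (a (l 228203009367) (b (l 16222000) (l 16212880)))) (b (a (l 173442239143) (b (b (l 16337488) (l 16335344)) (l 16333040))) (a (b (l 16272312) (l 16279888)) (b (l 16332696) (l 16412144)))))) (a (b (a (b (l 1) (l 232497504615)) (b (a (l 16039928) (l 16059008)) (l 223370599927))) (a (b (l 276521106199) (l 296385287543)) (b (l 15998704) (l 16251440)))) (b (a (b (a (l 16119016) (l 16200736)) (a (l 16097920) (l 16321216))) (b (l 16435960) (l 16516952))) (a (b (l 16390744) (l 16507544)) (a (l 16594528) (l 16645920)))))), by decide +kernel⟩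

theorem c_pm_023 : CertB 0 536870912 1610612736 536870912 587336777 62277027 3 eng mog cd0q0 cd2q3 pd2 false true false .up 0 2 3
    ndB0q0 ndB2q3 pcB2 Cut.none Ext.none :=
  certB1 (fam := false) (s1 := true) (s2 := false) (a := 0) (b := 2) (c := 3) (cn := .up) (n1 := ndB0q0) (n2 := ndB2q3) (pc := pcB2) (cut := Cut.none) (xt := Ext.none) (P1 := 0) (W1 := 536870912) (P2 := 1610612736) (W2 := 536870912) (P3 := 587336777) (W3 := 62277027) (N0 := 3) (En := eng) (mo := mog) (C1 := cd0q0) (C2 := cd2q3) (C3 := pd2)
    rfl (fun _ => rfl) k0_pm_023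

noncomputable def f_pm_033 : ℕ → ℕ → ℕ → ℕ → Bool := onCell 1610612736 536870912 1610612736 536870912 587336777 62277027
    (rowB 3 eng mog cd0q0 cd2q3 pd3 2 false true false .pnn 0 3 3 (qsf 0 536870912 1610612736 536870912 3) ndB0q0 ndB2q3 pcB3 Cut.none Ext.none)

def k0_pm_033 : ∃ t, chk3 f_pm_033 t 1 1 1 = true :=
  ⟨(a (a (b (a (a (b (l 16225184) (l 16317728)) (b (l 377452732567) (a (l 16316176) (l 16525488)))) (b (l 4) (a (b (l 16266432) (l 16374976)) (l 4)))) (b (a (b (l 16487616) (l 16574952)) (b (l 16469920) (l 16548248))) (a (l 16659648) (l 16636832)))) (b (l 4) (b (l 4) (a (l 16614192) (l 4))))) (l 4)), by decide +kernel⟩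

theorem c_pm_033 : CertB 0 536870912 1610612736 536870912 587336777 62277027 3 eng mog cd0q0 cd2q3 pd3 false true false .pnn 0 3 3
    ndB0q0 ndB2q3 pcB3 Cut.none Ext.none :=
  certB2 (fam := false) (s1 := true) (s2 := false) (a := 0) (b := 3) (c := 3) (cn := .pnn) (n1 := ndB0q0) (n2 := ndB2q3) (pc := pcB3) (cut := Cut.none) (xt := Ext.none) (P1 := 0) (W1 := 536870912) (P2 := 1610612736) (W2 := 536870912) (P3 := 587336777) (W3 := 62277027) (N0 := 3) (En := eng) (mo := mog) (C1 := cd0q0) (C2 := cd2q3) (C3 := pd3)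
    rfl (fun _ => rfl) k0_pm_033

noncomputable def f_pm_101 : ℕ → ℕ → ℕ → ℕ → Bool := onCell 0 536870912 536870912 536870912 587336777 62277027
    (rowB 3 eng mog cd0q1 cd2q1 pd0 2 false true false .npn 1 0 1 (qsf 536870912 536870912 536870912 536870912 0) ndB0q1 ndB2q1 pcB0 Cut.none Ext.none)

def k0_pm_101 : ∃ t, chk3 f_pm_101 t 2 2 1 = true :=
  ⟨(a (b (l 4) (b (l 4) (a (b (l 4) (a (a (l 16634864) (l 16637000)) (l 8288132791))) (l 4)))) (l 4)), by decide +kernel⟩

def k1_pm_101 : ∃ t, chk3 f_pm_101 t 4 3 1 = true :=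
  ⟨(b (a (b (a (b (l 16879496) (a (l 16633464) (l 16629280))) (b (l 16834152) (a (l 16624928) (l 16619904)))) (a (b (a (b (l 16640264) (l 16646384)) (l 16637128)) (a (b (l 16653352) (a (l 16663344) (l 16658928))) (b (l 16645616) (l 16652368)))) (b (a (l 16630832) (l 16624248)) (a (b (l 16637792) (l 16643632)) (l 16632408))))) (b (a (b (a (l 16621872) (l 16621488)) (l 16612080)) (b (l 16706192) (l 16832424))) (a (b (a (l 16617384) (l 16609664)) (a (l 16623872) (l 16614912))) (b (l 16597560) (a (l 16605536) (l 16595088)))))) (b (a (b (a (b (a (b (a (b (c (l 16690808) (l 16649120)) (l 16668280)) (b (l 16663912) (l 16665104))) (l 16665832)) (b (a (l 16660776) (l 16655448)) (a (l 16660688) (l 16657456)))) (a (l 16663400) (l 16657848))) (b (a (b (l 16648344) (b (l 16650856) (l 16652448))) (l 16640360)) (a (l 16692328) (b (l 16644000) (l 16643824))))) (a (b (a (l 16660848) (l 16655320)) (a (l 16658904) (l 16653616))) (a (b (l 16649272) (l 16647448)) (l 16641752)))) (b (a (b (l 16625368) (a (b (l 16635008) (l 16634728)) (l 16626088)))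 (a (l 16611760) (l 16600360))) (a (a (l 16634080) (l 16644928)) (b (a (l 16614520) (l 16604928)) (l 16610248))))) (a (a (b (b (l 16655296) (l 16717504)) (b (l 16654688) (l 16652440))) (b (b (l 16642984) (l 16642440)) (b (l 16642096) (l 16641232)))) (a (b (a (l 16631568) (l 16623472)) (a (l 16630344) (l 16621552))) (b (a (l 16614352) (l 16604328)) (a (l 16612280) (l 16602824))))))), by decide +kernel⟩

def k2_pm_101 : ∃ t, chk3 f_pm_101 t 5 3 1 = true :=
  ⟨(b (a (b (b (l 4) (a (a (l 16595712) (l 16593440)) (l 4))) (a (b (l 16579728) (l 16579232)) (b (l 16564808) (l 16555800)))) (b (l 4) (b (a (l 16553704) (l 4)) (a (l 16531928) (l 16510768))))) (a (b (b (a (a (l 16588744) (l 16576744)) (l 16557536)) (a (b (l 16630528) (a (l 16592368) (l 16581152))) (a (l 16572064) (l 16557312)))) (a (b (l 16588600) (l 16692680)) (b (l 16647608) (l 16566600)))) (b (a (b (l 16527840) (l 16531816)) (b (l 16496952) (l 16495808))) (b (a (a (l 16542096) (l 16526472)) (a (l 16511368) (l 16494528))) (a (l 16541496) (l 16508488)))))), by decide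 +kernel⟩

def k3_pm_101 : ∃ t, chk3 f_pm_101 t 3 1 1 = true :=
  ⟨(b (l 4) (a (b (b (l 4) (a (a (b (l 4) (l 16494464)) (l 4)) (l 4))) (a (b (a (b (l 16463976) (l 16456824)) (b (l 16434120) (l 16412544))) (b (a (b (l 16457408) (l 16462336)) (l 16407656)) (a (l 16466888) (b (l 16408968) (l 16415424))))) (b (a (b (l 16407728) (l 16366848)) (b (l 4) (b (l 16329120) (l 16307040)))) (b (a (l 16353624) (l 16295448)) (a (b (l 16354920) (l 16351696)) (b (l 16291368) (a (l 16308304) (l 16280184)))))))) (b (l 4) (b (a (a (b (l 4) (a (l 16260824) (l 16277880))) (l 4)) (l 4)) (a (b (a (a (l 16244160) (l 16180888)) (b (l 16209224) (l 16115344))) (a (a (l 16245984) (l 16198424)) (l 16146960))) (a (b (b (l 4) (l 16201280)) (b (l 16102816) (l 16077000))) (b (l 4) (a (l 16147456) (l 16183056))))))))), by decide +kernel⟩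

theorem s4_pm_101 : ∃ t, chk3 f_pm_101 t 2 3 1 = true := ex3_a k1_pm_101 k2_pm_101

theorem s5_pm_101 : ∃ t, chk3 f_pm_101 t 2 1 1 = true := ex3_b k0_pm_101 s4_pm_101

theorem s6_pm_101 : ∃ t, chk3 f_pm_101 t 1 1 1 = true := ex3_a s5_pm_101 k3_pm_101

theorem c_pm_101 : CertB 536870912 536870912 536870912 536870912 587336777 62277027 3 eng mog cd0q1 cd2q1 pd0 false true false .npn 1 0 1
    ndB0q1 ndB2q1 pcB0 Cut.none Ext.none :=
  certB2 (fam := false) (s1 := true) (s2 := false) (a := 1) (b := 0) (c := 1) (cn := .npn) (n1 := ndB0q1) (n2 := ndB2q1) (pc := pcB0) (cut := Cut.none) (xt := Ext.none) (P1 := 536870912) (W1 := 536870912) (P2 := 536870912) (W2 := 536870912) (P3 := 587336777) (W3 := 62277027) (N0 := 3) (En := eng) (mo := mog) (C1 := cd0q1) (C2 := cd2q1) (C3 := pd0)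
    rfl (fun _ => rfl) s6_pm_101

end Pool.Agent.Strip051.G.I5470_6050.Tab.C.BB02

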