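import Pool.Agent.Strip051.G.I5470_6050.Tab
import Pool.Agent.Strip051.PB.ExtD2

/-! # Certificates B8 (generated) -/

set_option linter.all false
set_option maxRecDepth 100000

namespace Pool.Agent.Strip051.G.I5470_6050.Tab.C.BA04

open Pool.Agent.Strip051.PB Pool.Agent.Strip051.PB.T
open Pool.Agent.Strip051.G.I5470_6050.Tab

noncomputable def f_pm_012 : ℕ → ℕ → ℕ → ℕ → Bool := onCell 0 536870912 1073741824 536870912 587336777 62277027
    (rowB 3 eng mog cd0q0 cd4q1 pd2 1 true true false .pnp 0 1 2 (qsf 0 536870912 536870912 536870912 2) ndB0q0 ndB4q1 pcB2 Cut.none Ext.none)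

def k0_pm_012 : ∃ t, chk3 f_pm_012 t 2 4 1 = true :=
  ⟨(b (l 3) (a (b (l 3) (a (l 2) (a (a (l 2) (b (b (l 16533376) (l 2)) (l 2))) (b (b (a (l 16527320) (l 16479072)) (a (b (l 16513632) (l 16504144)) (l 16545720))) (b (a (l 16490016) (l 16486064)) (a (l 2) (l 16468160))))))) (b (b (l 3) (b (a (l 3) (a (l 16524656) (a (l 16498752) (l 16514144)))) (a (a (l 16526392) (l 16511648)) (a (a (l 16501832) (l 16495760)) (b (l 16489728) (l 16486200)))))) (a (b (a (b (b (l 36137489015) (l 16528536)) (a (l 16498512) (l 16493320))) (b (l 16540896) (l 16485672))) (a (b (l 16500792) (l 16484232)) (b (l 16471560) (l 16456880)))) (b (a (b (l 16508864) (l 16476792)) (b (l 16479536) (l 16469512))) (a (b (l 16464368) (l 16451656)) (b (l 16458744) (l 16447864)))))))), by decide +kernel⟩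

def k1_pm_012 : ∃ t, chk3 f_pm_012 t 3 4 1 = true :=
  ⟨(b (a (l 3) (b (l 3) (b (l 3) (a (a (l 102172608551) (l 102172583047)) (a (b (l 3) (l 16412080)) (b (l 16424488) (b (l 16371568) (l 16364552)))))))) (a (b (a (b (b (l 3) (a (l 16512720) (a (l 16481872) (l 16477368)))) (a (b (a (l 16508752) (l 16482720)) (l 16480000)) (b (b (l 16475856) (l 16475456)) (l 16473040)))) (b (a (b (l 16467240) (l 45801307303)) (b (a (l 16454352) (l 16448336)) (l 16515384))) (a (b (l 16466576) (l 16465304)) (b (l 16456560) (l 16456096))))) (a (b (a (b (l 16493576) (l 16463696)) (b (l 16467088) (l 16459776))) (a (b (l 16454528) (l 16445264)) (b (l 16452080) (l 16443856)))) (b (a (b (l 16460944) (l 16455656)) (b (l 16453456) (l 16450232))) (a (b (l 16449864) (l 16443544)) (l 16444376))))) (b (a (b (a (b (c (l 16498224) (l 16473296)) (a (l 16442968) (l 16435152))) (b (c (l 16388352) (l 16406784)) (l 16482384))) (a (b (l 16443592) (l 16444520)) (b (l 16425896) (l 16428728)))) (b (a (a (b (l 16385272) (l 16401728))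 (l 16381376)) (b (l 16375064) (l 16367592))) (a (l 16426672) (l 16381552)))) (a (b (a (l 16443664) (l 16430944)) (a (l 16439768) (l 16431560))) (b (a (l 16414072) (l 16395024)) (a (l 16419904) (l 16406152))))))), by decide +kernel⟩

def k2_pm_012 : ∃ t, chk3 f_pm_012 t 2 5 1 = true :=
  ⟨(b (a (b (b (a (l 2) (a (l 2) (b (a (l 2) (l 16449736)) (l 2)))) (l 2)) (l 2)) (b (b (a (a (b (a (l 16447416) (l 16445128)) (a (l 16429408) (l 16428248))) (b (l 16441992) (l 16426712))) (a (b (l 16438720) (l 16425360)) (b (l 16436648) (l 16425208)))) (b (a (a (a (l 16410912) (l 16410904)) (l 16411048)) (a (l 16411944) (l 16414040))) (a (b (a (a (l 2) (l 16397568)) (l 16399184)) (a (a (l 2) (b (l 16390736) (b (b (b (l 16388120) (l 16429432)) (l 16386616)) (l 16384904)))) (b (l 16393392) (b (b (b (l 16391320) (a (l 16389808) (l 16392320))) (l 16390312)) (l 16388736))))) (b (a (l 16402096) (l 16406200)) (b (a (l 16397712) (l 16403232)) (b (a (b (b (l 16396392) (a (l 16395120) (l 16398216))) (l 16396064)) (a (a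 (l 16421384) (l 16402168)) (l 16509768))) (a (l 16394672) (l 16401800)))))))) (a (a (a (l 2) (l 16388432)) (a (b (l 16368768) (l 16332616)) (b (l 16372536) (l 16338312)))) (a (a (l 16360728) (l 16366120)) (a (l 16371800) (l 16377736)))))) (a (l 2) (a (a (l 2) (b (a (l 2) (l 16284664)) (l 2))) (a (b (a (b (l 16310816) (l 16276000)) (l 16303072)) (a (l 2) (l 16235168))) (b (a (l 16312904) (l 16323000)) (a (l 16311856) (l 16263216))))))), by decide +kernel⟩

def k3_pm_012 : ∃ t, chk3 f_pm_012 t 3 5 1 = true :=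
  ⟨(a (b (b (b (a (a (b (l 16435632) (l 16426128)) (b (l 16435648) (l 16427776))) (a (b (l 16437216) (l 16431088)) (l 16436368))) (b (a (a (l 16417160) (l 16420808)) (a (l 16425832) (l 16431432))) (b (a (a (l 16411280) (l 16416832)) (a (l 16423288) (l 16431024))) (a (b (a (l 16409696) (l 16416576)) (b (a (b (b (l 16409856) (l 16411048)) (l 16410816)) (b (b (l 16417432) (l 16419056)) (l 16418992))) (a (l 16409808) (l 16418176)))) (a (b (l 16424104) (a (c (l 16443560) (l 16405256)) (c (l 16448952) (l 16409992)))) (b (l 16433264) (a (l 16455576) (l 16439640)))))))) (a (a (l 16387000) (l 16399440)) (a (a (l 16408480) (l 16414776)) (a (l 16421536) (l 16428608))))) (a (a (b (l 16338496) (a (l 16277784) (l 16292416))) (b (l 16359080) (l 16314184))) (a (b (l 16378904) (l 16342184)) (b (a (l 16392936) (l 16402376)) (l 16368512))))) (b (b (b (a (a (l 16436248) (l 16432776)) (a (l 16426256) (l 16418200))) (b (a (a (l 16435048) (l 16435512)) (a (l 16433080) (l 16428248))) (b (a (a (l 16436912) (l 16439632))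 (a (l 16438864) (l 16434120))) (a (b (a (l 16440736) (l 16444408)) (a (c (l 16507384) (l 16468504)) (c (l 16468528) (l 16431104)))) (b (l 16441088) (l 16446480)))))) (a (a (b (l 16442248) (l 16432880)) (l 16444248)) (a (l 16446704) (l 16446904)))) (a (a (b (a (l 16411696) (l 16419408)) (a (l 16385880) (l 16394768))) (b (l 16428840) (l 16407856))) (a (l 16431944) (l 16442480))))), by decide +kernel⟩

def k4_pm_012 : ∃ t, chk3 f_pm_012 t 1 3 1 = true :=
  ⟨(a (a (l 2) (a (l 2) (b (b (a (l 2) (b (a (l 2) (l 16199312)) (l 2))) (l 2)) (l 2)))) (a (b (a (b (a (b (a (b (l 16233184) (l 16202456)) (b (l 16251104) (l 16222504))) (a (l 2) (l 16178824))) (b (a (l 16255936) (l 16274640)) (a (l 16218000) (b (l 16238152) (l 16212984))))) (a (l 2) (b (a (l 2) (l 16174048)) (l 2)))) (b (a (b (l 16302008) (a (l 16248816) (l 16271368))) (b (l 16336552) (a (l 16293232) (l 16314304)))) (a (b (a (b (l 16213824) (l 16189712)) (b (l 16240128) (l 16218448))) (a (l 2) (l 16185048))) (b (a (l 16235272) (b (l 16290360)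 (l 16273736))) (a (b (l 16226840) (l 16206664)) (b (l 16256608) (l 16238968))))))) (a (l 2) (b (a (l 2) (b (a (l 2) (b (l 16219232) (l 2))) (l 2))) (l 2)))) (b (a (b (a (b (l 16365080) (l 16340048)) (b (l 16385448) (l 16365816))) (a (b (b (l 16320480) (l 16307152)) (a (b (l 16282960) (l 16268120)) (l 16297312))) (b (l 16345872) (l 16325816)))) (b (a (b (l 16404768) (l 16387792)) (b (l 16424096) (l 16410120))) (b (a (l 16372664) (b (l 16399616) (l 16394264))) (a (l 16358736) (l 16388544))))) (a (b (a (b (a (b (c (l 16305640) (l 16196352)) (l 16227712)) (b (l 16275960) (l 16254792))) (a (l 2) (l 16222288))) (b (a (l 16288544) (l 16309496)) (a (l 16248784) (l 16273240)))) (a (l 2) (b (b (l 16232312) (l 2)) (l 2)))) (b (b (a (l 16338840) (l 16374896)) (a (b (l 16315552) (l 16299880)) (l 16350848))) (a (b (b (l 16284136) (l 16268376)) (a (l 2) (l 16259688))) (b (b (l 16332808) (l 16320984)) (b (l 16309248) (l 19964055687))))))))), by decide +kernel⟩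

theorem s5_pm_012 : ∃ t, chk3 f_pm_012 t 1 5 1 = true := ex3_a k2_pm_012 k3_pm_012

theorem s6_pm_012 : ∃ t, chk3 f_pm_012 t 1 4 1 = true := ex3_a k0_pm_012 k1_pm_012

theorem s7_pm_012 : ∃ t, chk3 f_pm_012 t 1 2 1 = true := ex3_b s6_pm_012 s5_pm_012

theorem s8_pm_012 : ∃ t, chk3 f_pm_012 t 1 1 1 = true := ex3_b s7_pm_012 k4_pm_012

theorem c_pm_012 : CertB 0 536870912 536870912 536870912 587336777 62277027 3 eng mog cd0q0 cd4q1 pd2 true true false .pnp 0 1 2
    ndB0q0 ndB4q1 pcB2 Cut.none Ext.none :=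
  certB1 (fam := true) (s1 := true) (s2 := false) (a := 0) (b := 1) (c := 2) (cn := .pnp) (n1 := ndB0q0) (n2 := ndB4q1) (pc := pcB2) (cut := Cut.none) (xt := Ext.none) (P1 := 0) (W1 := 536870912) (P2 := 536870912) (W2 := 536870912) (P3 := 587336777) (W3 := 62277027) (N0 := 3) (En := eng) (mo := mog) (C1 := cd0q0) (C2 := cd4q1) (C3 := pd2)
    rfl (fun _ => rfl) s8_pm_012

noncomputable def cut_pm_022_a : Cut := Cut.of [[⟨0, 0, 0, 67108864⟩, ⟨1, 1, 0, 67108864⟩, ⟨2, 1, 0, 67108864⟩]]

noncomputable def xt_pm_022_a : Ext := extD2 3 ⟨7, 3, 3, 10, 1815, 1000, 17, 20, 37, 100, 3, 16⟩ eng cd0q0 cd4q2a pd2 true true false .pp 0 2 2 rfl ndB0q0 ndB4q2a pcB2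

noncomputable def f_pm_022_a : ℕ → ℕ → ℕ → ℕ → Bool := onCell 1073741824 536870912 0 536870912 587336777 62277027
    (rowB 3 eng mog cd0q0 cd4q2a pd2 2 true true false .pp 0 2 2 (qsf 0 536870912 0 536870912 2) ndB0q0 ndB4q2a pcB2 cut_pm_022_a xt_pm_022_a)

def k0_pm_022_a : ∃ t, chk3 f_pm_022_a t 8 1 1 = true :=
  ⟨(b (l 1) (b (l 1) (b (a (l 1) (b (a (l 1) (a (l 1) (b (l 1) (a (l 16655304) (l 16652744))))) (a (l 6) (a (l 6) (a (l 6) (b (l 16654016) (l 16665776))))))) (a (l 6) (a (l 6) (a (l 6) (a (l 6) (b (b (l 16677536) (l 16689224)) (b (l 16699224) (b (l 16704384) (c (l 16708760) (l 16706808)))))))))))), by decide +kernel⟩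

def k1_pm_022_a : ∃ t, chk3 f_pm_022_a t 9 2 1 = true :=
  ⟨(a (l 1) (b (l 1) (b (l 1) (a (l 1) (b (l 1) (a (l 1) (c (l 16520736) (l 16505312)))))))), by decide +kernel⟩

def k2_pm_022_a : ∃ t, chk3 f_pm_022_a t 9 6 1 = true :=
  ⟨(b (a (l 1) (a (b (a (l 1) (l 16554856)) (a (b (l 1) (l 16558848)) (b (l 16546520) (l 16555240)))) (b (a (b (l 16527008) (l 16534944)) (b (l 16524152) (l 16531736))) (a (l 16547344) (l 16543600))))) (a (a (b (l 1) (a (l 1) (b (l 16600224) (l 24192442679)))) (b (a (b (l 1) (l 16585664)) (b (l 16571864) (l 16581656))) (a (b (l 16616976) (l 16606416)) (b (l 16591576) (l 16601576))))) (a (b (a (b (l 16568080) (l 16577472)) (l 16568672)) (a (l 16612856) (l 16586968))) (b (a (l 16564344) (l 16559928)) (a (l 16581952) (l 16576872)))))), by decide +kernel⟩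

def k3_pm_022_a : ∃ t, chk3 f_pm_022_a t 9 7 1 = true :=
  ⟨(b (a (a (b (b (a (a (l 16628112) (l 16625696)) (l 90227579143)) (a (a (l 16639648) (l 16637000)) (l 16632968))) (b (a (l 16649752) (l 16643968)) (a (l 16661184) (l 16654992)))) (a (b (b (l 16616912) (l 16627480)) (b (l 16638080) (l 16648712))) (b (l 16637816) (b (l 16632080) (l 16642336))))) (b (a (b (l 16603624) (l 16613256)) (a (l 16600016) (l 16594280))) (a (b (l 16622936) (l 16632656)) (b (l 16610520) (l 16619488))))) (b (a (b (a (a (b (l 16669744) (l 16675456)) (l 16666016)) (l 16655960)) (a (c (l 16680888) (l 16679880)) (l 16686744))) (a (b (l 16642328) (l 16671104)) (b (l 16628088) (c (l 16635744) (l 16634568))))) (a (b (a (b (l 16708144) (a (l 16694752) (l 16686520))) (b (a (l 16674968) (l 16666984)) (a (l 16678368) (l 16670336)))) (b (a (a (l 16698144) (l 16689864)) (a (l 16681664) (l 16673600))) (a (b (a (l 16700616) (l 16692304)) (a (c (l 16703528) (l 16701096)) (c (l 16695400) (l 16692568)))) (a (b (l 16684072) (a (l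 16692936) (l 16683600))) (c (b (l 16677712) (l 16679488)) (l 16675120)))))) (b (a (a (b (l 16659088) (l 16662400)) (l 16653008)) (a (l 16645376) (l 16637864))) (a (b (a (l 16665624) (l 16657792)) (a (c (a (l 16672768) (l 16668920)) (l 16666872)) (c (a (l 16665104) (l 16661328)) (l 16658760)))) (b (a (l 16650096) (l 16642528)) (c (a (a (l 16657584) (l 16653864)) (b (l 16647480) (a (l 16651024) (l 16647360)))) (a (l 16650784) (l 16642928))))))))), by decide +kernel⟩

def k4_pm_022_a : ∃ t, chk3 f_pm_022_a t 20 2 1 = true :=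
  ⟨(a (b (l 1) (a (b (l 1) (b (c (l 16505952) (l 16489152)) (c (l 16517984) (l 16503064)))) (b (b (c (l 16484496) (l 16464920)) (c (l 16493456) (l 16475424))) (b (c (l 16503728) (l 16487392)) (l 16508136))))) (b (a (b (l 1) (b (l 1) (c (l 16476344) (l 16455784)))) (a (b (l 1) (c (b (l 16470744) (l 16475824)) (b (l 16449152) (l 16455424)))) (b (a (b (c (l 16465944) (l 1299797362199)) (c (l 16467448) (l 16444768))) (a (a (a (b (c (l 16466080) (l 16442440)) (l 16456152)) (a (b (c (l 16466136) (l 16442424)) (l 16456160)) (b (c (b (l 16466040) (l 16466304)) (b (c (l 16448008) (l 16436080)) (l 16442680))) (c (l 16467648) (l 16444680))))) (b (c (l 16466208) (l 16442416)) (l 16456168))) (b (c (l 16466232) (l 16442480)) (l 16456184)))) (b (a (c (l 16470720) (l 16449048)) (a (a (a (l 16459904) (a (l 16459904) (l 16480872))) (l 16459896)) (l 16459872))) (b (a (l 16463848) (c (l 16495168) (l 16453104))) (a (l 16467032) (c (l 16476992) (l 16456520)))))))) (a (b (b (c (l 67678742055) (l 16464128)) (c (l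 16491752) (l 16474064))) (b (c (l 16501448) (l 16485432)) (l 16505384))) (a (b (b (c (l 16482448) (l 16463384)) (l 16481856)) (b (l 16491976) (l 16503280))) (b (a (b (l 16493584) (l 16481216)) (b (c (l 16502928) (l 16462488)) (c (l 16489664) (l 16471664)))) (a (b (l 16491128) (l 16502208)) (b (c (l 16498608) (l 16482224)) (l 16522464)))))))), by decide +kernel⟩

def k5_pm_022_a : ∃ t, chk3 f_pm_022_a t 21 2 1 = true :=
  ⟨(b (b (a (c (b (a (l 16466320) (l 16466368)) (l 16467416)) (b (a (c (l 16448696) (l 16436976)) (l 16443312)) (a (l 16444888) (l 16445040)))) (b (l 16455440) (l 16456296))) (a (b (c (l 16470176) (l 16448728)) (c (l 16474520) (l 16454216))) (b (l 16458848) (l 16462992)))) (b (a (b (c (l 16480344) (l 16461344)) (l 16499856)) (l 16493248)) (a (b (l 16488080) (l 16498424)) (l 16488712)))), by decide +kernel⟩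

def k6_pm_022_a : ∃ t, chk3 f_pm_022_a t 11 2 1 = true :=
  ⟨(b (a (b (a (b (l 16456576) (l 16456800)) (l 16458040)) (a (l 16460480) (l 16460360))) (b (a (l 16459688) (l 16461720)) (l 16461016))) (a (b (a (l 16470040) (l 16468304)) (a (l 16484576) (l 16480992))) (b (l 16466560) (l 16476392)))), by decide +kernel⟩

def k7_pm_022_a : ∃ t, chk3 f_pm_022_a t 5 6 1 = true :=
  ⟨(a (a (a (b (b (a (l 16524816) (l 16521528)) (a (l 16539744) (l 16535816))) (b (a (l 16555424) (l 16550888)) (a (l 16571736) (l 16566592)))) (a (b (b (l 16518160) (l 16531840)) (b (l 16546328) (l 16561440))) (a (b (b (l 16515616) (l 16528864)) (l 16592472)) (a (b (l 16563024) (l 16569672)) (b (b (l 16513464) (l 16526344)) (b (l 16540056) (l 16554336))))))) (a (b (b (l 16509800) (l 16522088)) (b (l 16535168) (l 16548760))) (b (l 16509368) (l 16554104)))) (b (a (b (l 16495208) (l 16504712)) (l 16489496)) (a (b (l 16514864) (l 16525208)) (b (l 16500344) (l 16507736))))), by decide +kernel⟩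

def k8_pm_022_a : ∃ t, chk3 f_pm_022_a t 20 7 1 = true :=
  ⟨(a (b (b (a (l 16588504) (l 16582704)) (l 16623056)) (b (b (l 16613592) (a (l 16623968) (l 16616760))) (a (b (l 16630472) (b (l 16656048) (c (a (l 16653360) (l 16649744)) (l 16635200)))) (b (l 16623200) (c (b (l 16630472) (a (l 16635664) (l 16632080))) (a (l 16628312) (l 16624552))))))) (b (a (b (l 16576888) (l 16592232)) (a (b (l 16572528) (l 16587288)) (a (b (l 16570336) (l 16584824)) (b (l 16589832) (l 16583192))))) (a (b (c (l 16607264) (l 16605800)) (b (c (l 16618144) (l 16614064)) (c (b (l 16623336) (a (l 16628504) (l 16624920))) (b (l 16617816) (a (l 16621984) (l 16618304)))))) (b (b (a (l 16597728) (a (l 16595112) (l 16593336))) (a (l 16604376) (a (l 16601736) (l 16647136)))) (a (b (l 16610688) (c (b (l 16617936) (a (l 16622200) (l 16620352))) (b (l 16612384) (a (l 16615568) (l 16613784))))) (a (b (l 16628992) (b (c (l 16615096) (l 16609784)) (c (a (l 16618936) (b (l 16617104) (l 16629224))) (a (l 16612464) (a (l 16611824)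 (l 16611416)))))) (a (b (a (a (l 16607016) (a (l 16606848) (l 16606728))) (l 16606448)) (b (a (a (l 16611424) (a (l 16611256) (l 16611136))) (l 16610848)) (c (a (a (l 16617256) (a (l 16617008) (a (a (l 16616880) (b (l 16615984) (l 16617608))) (l 16616768)))) (l 16616520)) (a (a (l 16611136) (a (l 16611016) (a (a (l 16610984) (c (l 16612480) (l 16614720))) (l 16610944)))) (l 16610680))))) (b (l 16605776) (b (l 16610176) (c (l 16615864) (l 16609976))))))))))), by decide +kernel⟩

def k9_pm_022_a : ∃ t, chk3 f_pm_022_a t 21 7 1 = true :=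
  ⟨(b (a (b (l 16583480) (l 16575928)) (b (l 16551344) (l 16563104))) (b (a (a (l 16613328) (l 16637856)) (b (l 16571696) (l 16578136))) (b (a (c (l 16621136) (l 16617272)) (l 16605184)) (a (b (a (l 16606128) (c (l 16601856) (l 16596224))) (a (c (l 16622424) (a (l 16618128) (l 16603928))) (c (a (l 16606808) (b (l 16602616) (l 16625184))) (a (l 16600248) (a (l 16597504) (l 16595696)))))) (b (c (l 16591440) (l 16585520)) (c (a (l 16598160) (l 16591208)) (a (l 16591216) (l 16584064)))))))), by decide +kernel⟩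

def k10_pm_022_a : ∃ t, chk3 f_pm_022_a t 11 7 1 = true :=
  ⟨(b (a (b (l 16619176) (l 16544352)) (b (l 16514328) (l 16519032))) (b (a (a (l 16603256) (l 16569024)) (c (l 16614960) (l 16611640))) (b (a (a (l 16570408) (l 16557064)) (a (l 16544344) (l 16532312))) (a (b (a (l 16574584) (l 16561200)) (a (c (a (l 16584384) (l 16577712)) (l 16573464)) (c (l 16578480) (l 16559648)))) (a (b (l 16548392) (c (l 16555640) (l 16546328))) (b (l 16536288) (c (l 16544072) (l 16533616)))))))), by decide +kernel⟩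

def k11_pm_022_a : ∃ t, chk3 f_pm_022_a t 3 2 1 = true :=
  ⟨(a (a (b (a (b (l 16465320) (l 16463088)) (b (l 16471216) (l 16466448))) (a (b (l 16465448) (l 16471400)) (b (l 16465592) (l 16467528)))) (b (a (l 16495976) (l 16483688)) (b (a (l 16466536) (l 16470144)) (a (l 16463928) (l 16462480))))) (a (b (a (l 16492192) (l 16498456)) (b (l 16577528) (a (l 16459336) (l 16451424)))) (b (a (l 16503648) (l 16507656)) (a (l 16456472) (l 16468752))))), by decide +kernel⟩

def k12_pm_022_a : ∃ t, chk3 f_pm_022_a t 6 3 1 = true :=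
  ⟨(b (a (b (a (l 16479816) (l 16470712)) (a (b (l 16486376) (l 16490256)) (l 16472568))) (b (a (l 16461104) (l 16452944)) (a (l 16454736) (l 16437736)))) (a (b (a (b (l 16492544) (l 16494016)) (l 16562648)) (b (a (a (l 16575320) (l 16564960)) (a (l 16492096) (l 16482904))) (a (b (a (l 16521072) (l 16510528)) (b (a (l 16524976) (l 16514336)) (a (c (a (l 16535976) (l 16530856)) (l 16521616)) (c (b (l 16522528) (a (l 16526624) (l 16521432))) (l 16510280))))) (b (a (l 16500312) (l 16490728)) (b (a (l 16503952) (l 16494176)) (a (c (a (l 16515600) (l 16510648)) (l 16499384)) (a (c (l 16505848) (l 16491616)) (c (l 16501184) (l 16486624))))))))) (b (a (b (l 16445200) (l 16500544)) (b (l 16429320) (l 16441664))) (b (a (a (l 16474416) (l 16465840)) (a (l 16456552) (l 16447536))) (a (b (a (l 16481784) (l 16472760)) (b (a (l 16485000) (a (l 16478256) (l 16473232))) (c (a (b (l 16493816) (a (l 16497304) (l 16492904))) (a (a (a (l 16489624) (l 16488432)) (l 16486480)) (a (l 16483896) (l 16491800)))) (a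 (a (l 16481776) (l 16477080)) (a (a (l 16473616) (l 16471072)) (b (l 16466976) (l 16467488))))))) (b (a (l 16463016) (l 16453528)) (b (a (l 16486736) (c (l 16462776) (l 16449008))) (a (c (b (l 16474368) (a (c (l 16481800) (l 16474184)) (c (l 16476632) (l 16469120)))) (b (l 16459448) (a (l 16462424) (l 16457416)))) (c (b (l 16464304) (c (b (l 16468640) (a (l 16471776) (l 16466608))) (a (l 16464088) (l 16459056)))) (a (b (l 16452072) (l 16452472)) (l 16447384))))))))))), by decide +kernel⟩

def k13_pm_022_a : ∃ t, chk3 f_pm_022_a t 7 6 1 = true :=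
  ⟨(a (b (a (l 16442008) (l 16424304)) (b (l 16452904) (l 16508800))) (b (a (l 16402592) (l 16377304)) (a (l 16397776) (l 16396864)))), by decide +kernel⟩

def k14_pm_022_a : ∃ t, chk3 f_pm_022_a t 14 7 1 = true :=
  ⟨(b (a (b (l 16417976) (l 16471336)) (b (l 16415384) (l 16425480))) (b (a (a (l 16440112) (l 16436952)) (a (l 16434488) (l 16431928))) (a (b (a (c (l 16451528) (l 16439280)) (c (l 16448848) (l 16434704))) (b (a (a (l 16448952) (l 16446456)) (c (a (l 16452160) (l 16450848)) (l 16435608))) (a (a (c (b (l 16456984) (c (a (l 16462440) (l 141043117579124751)) (l 16454192))) (l 16442632)) (c (c (l 141025800267972623) (a (l 16451848) (c (l 140969587723812879) (l 16449032)))) (b (l 16439512) (l 16439712)))) (c (c (b (l 141085448769257487) (a (l 141011575334715407) (c (l 141011231739183119) (l 140973161140355087)))) (a (a (b (l 16449816) (b (l 16450264) (l 140947803644854287))) (l 140933441271595023)) (l 140917635789324303))) (c (b (l 16440168) (a (a (l 16442104) (l 16440992)) (c (l 140871318848864271)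 (l 16437040)))) (a (l 16432832) (l 16430168))))))) (c (b (a (l 16446584) (b (l 16443240) (l 16465632))) (b (a (c (l 140945467187953679) (l 140874136353292303)) (a (l 140871250139693071) (a (l 140850703013838863) (l 140836615519617039)))) (a (c (a (c (a (l 140992883636371471) (l 141026968495685647)) (l 140948628283670543)) (b (l 140941825056718863) (c (a (l 140972611389128719) (l 140959898284621839)) (l 140925950853922831)))) (a (l 140894820919492623) (l 140868982392422415))) (a (c (b (l 140915642933297167) (c (b (l 140939351158833167) (a (l 140947803655749647) (l 140934609515003919))) (l 140899218974441487))) (l 140841563317469199)) (c (c (b (l 140909664341590031) (a (b (l 140919766106275855) (c (a (l 140936121345392655) (b (l 140929111958142991) (l 140929867872780303))) (l 140910832572334095))) (b (l 140905609893199887) (c (l 140917773244137487) (l 140896057883934735))))) (a (l 140876953861308431) (l 140862797647921167))) (b (l 140811670341173263) (l 140814144243056655))))))) (a (b (l 16430504)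 (b (l 16430992) (b (a (l 16432264) (l 16440288)) (c (l 140818129962041359) (a (l 16427400) (l 16435104)))))) (b (l 16426040) (c (a (l 140774424367726607) (l 140926363126415375)) (b (l 16421128) (b (l 16420792) (l 140706392061640719)))))))))), by decide +kernel⟩

def k15_pm_022_a : ∃ t, chk3 f_pm_022_a t 15 7 1 = true :=
  ⟨(b (a (b (l 16414032) (l 16421584)) (b (l 16410584) (l 16417744))) (b (a (b (l 16426152) (a (l 16429920) (l 16426816))) (b (l 16421464) (a (l 16424872) (l 16424184)))) (b (a (a (c (a (l 16442056) (l 16461816)) (l 16421728)) (c (a (l 140741713912627215) (l 140709484477104143)) (l 16417840))) (a (c (c (l 140693679010103311) (l 16433480)) (l 16415232)) (c (b (l 16439920) (l 140786037979938831)) (l 16413904)))) (a (c (a (c (b (a (l 140854001556062223) (l 140822665473376271)) (a (b (l 140859018080174095) (c (c (a (l 140901280568737807) (l 140885475088711695)) (l 140872143504621583)) (l 140841700767793167))) (b (l 140827888156180495) (c (a (l 140904304222158863) (l 140843762363105295))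 (l 140811739074740239))))) (b (l 140763635421331471) (a (l 140784113828495375) (l 140755182926577679)))) (b (c (a (l 140790917074599951) (l 140759374835089423)) (l 140704536667750415)) (c (c (b (l 140800881408229391) (a (c (l 140830705666080783) (l 140810914450325519)) (l 140790504770207759))) (a (l 140780196833689615) (l 140750784898007055))) (a (l 140726526903287823) (l 140698351917088783))))) (a (b (c (l 16427072) (l 16416152)) (c (l 140703986893848591) (l 140647293301850127))) (b (l 140613964360548367) (a (l 140632312462540815) (l 140604549791203343))))) (a (c (c (b (l 140892553183084559) (a (c (l 140757794300182543) (l 140721785280053263)) (c (l 140728794684162063) (l 140693953894268943)))) (a (l 140845617754226703) (l 140638016215826447))) (b (l 140737315816538127) (a (l 140576924559425551) (l 140550604998574095)))) (c (c (b (l 140834279073497103) (a (l 140684470618013711) (l 140660350087086095))) (a (l 140792566320955407) (l 140678560712163343))) (b (l 140685776207740943) (a (l 140706529491058703)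 (l 140685776210231311))))))))), by decide +kernel⟩

theorem s16_pm_022_a : ∃ t, chk3 f_pm_022_a t 7 7 1 = true := ex3_a k14_pm_022_a k15_pm_022_a

theorem s17_pm_022_a : ∃ t, chk3 f_pm_022_a t 7 3 1 = true := ex3_b k13_pm_022_a s16_pm_022_a

theorem s18_pm_022_a : ∃ t, chk3 f_pm_022_a t 3 3 1 = true := ex3_a k12_pm_022_a s17_pm_022_a

theorem s19_pm_022_a : ∃ t, chk3 f_pm_022_a t 3 1 1 = true := ex3_b k11_pm_022_a s18_pm_022_a

theorem s20_pm_022_a : ∃ t, chk3 f_pm_022_a t 10 7 1 = true := ex3_a k8_pm_022_a k9_pm_022_a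

theorem s21_pm_022_a : ∃ t, chk3 f_pm_022_a t 5 7 1 = true := ex3_a s20_pm_022_a k10_pm_022_a

theorem s22_pm_022_a : ∃ t, chk3 f_pm_022_a t 5 3 1 = true := ex3_b k7_pm_022_a s21_pm_022_a

theorem s23_pm_022_a : ∃ t, chk3 f_pm_022_a t 10 2 1 = true := ex3_a k4_pm_022_a k5_pm_022_a

theorem s24_pm_022_a : ∃ t, chk3 f_pm_022_a t 5 2 1 = true := ex3_a s23_pm_022_a k6_pm_022_a

theorem s25_pm_022_a : ∃ t, chk3 f_pm_022_a t 5 1 1 = true := ex3_b s24_pm_022_a s22_pm_022_a

theorem s26_pm_022_a : ∃ t, chk3 f_pm_022_a t 9 3 1 = true := ex3_b k2_pm_022_a k3_pm_022_a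

theorem s27_pm_022_a : ∃ t, chk3 f_pm_022_a t 9 1 1 = true := ex3_b k1_pm_022_a s26_pm_022_a

theorem s28_pm_022_a : ∃ t, chk3 f_pm_022_a t 4 1 1 = true := ex3_a k0_pm_022_a s27_pm_022_a

theorem s29_pm_022_a : ∃ t, chk3 f_pm_022_a t 2 1 1 = true := ex3_a s28_pm_022_a s25_pm_022_a

theorem s30_pm_022_a : ∃ t, chk3 f_pm_022_a t 1 1 1 = true := ex3_a s29_pm_022_a s19_pm_022_a

theorem c_pm_022_a : CertB 0 536870912 0 536870912 587336777 62277027 3 eng mog cd0q0 cd4q2a pd2 true true false .pp 0 2 2
    ndB0q0 ndB4q2a pcB2 cut_pm_022_a xt_pm_022_a :=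
  certB2 (fam := true) (s1 := true) (s2 := false) (a := 0) (b := 2) (c := 2) (cn := .pp) (n1 := ndB0q0) (n2 := ndB4q2a) (pc := pcB2) (cut := cut_pm_022_a) (xt := xt_pm_022_a) (P1 := 0) (W1 := 536870912) (P2 := 0) (W2 := 536870912) (P3 := 587336777) (W3 := 62277027) (N0 := 3) (En := eng) (mo := mog) (C1 := cd0q0) (C2 := cd4q2a) (C3 := pd2)
    rfl (fun _ => rfl) s30_pm_022_a

noncomputable def cut_pm_022_b : Cut := Cut.of [[⟨0, 0, 0, 67108864⟩, ⟨1, 1, 0, 67108864⟩, ⟨2, 1, 0, 67108864⟩]]

noncomputable def f_pm_022_b : ℕ → ℕ → ℕ → ℕ → Bool := onCell 0 536870912 1239849684 370763052 587336777 62277027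
    (rowB 3 eng mog cd0q0 cd4q2b pd2 0 true true false .pp 0 2 2 (qsf 0 536870912 1239849684 370763052 2) ndB0q0 ndB4q2b pcB2 cut_pm_022_b Ext.none)

def k0_pm_022_b : ∃ t, chk3 f_pm_022_b t 4 2 1 = true :=
  ⟨(b (a (b (a (a (b (a (b (b (c (l 16462024) (c (l 16443672) (l 16431480))) (c (l 16453840) (a (l 16428032) (l 16428592)))) (c (b (l 16446080) (l 16438848)) (b (a (l 16418904) (l 16419560)) (l 16410376)))) (b (c (l 16458688) (b (l 16438328) (l 16429280))) (l 16430368))) (c (a (b (l 16428728) (l 16416320)) (l 16425472)) (b (l 16398840) (l 16383520)))) (b (c (l 16453776) (l 16426448)) (c (l 16430112) (l 16396280)))) (b (a (c (l 16457240) (l 16428792)) (l 16446296)) (a (l 16419128) (l 16425080)))) (a (b (a (c (a (b (l 16405128) (l 16395136)) (l 16404440)) (a (l 16360904) (l 16365024))) (c (l 16411040) (l 16371120))) (a (a (c (l 16403288) (l 16337264)) (l 16365688)) (l 16373904))) (b (a (l 16399720) (l 16408184)) (a (l 16384736) (l 16395576))))) (b (a (b (a (l 16449880) (l 16453784)) (l 16434496))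 (b (l 16460184) (l 16447928))) (a (b (l 16421272) (l 16411968)) (b (l 16439440) (l 16435632))))) (a (a (b (a (a (b (c (l 16369176) (l 16318560)) (c (l 16361032) (l 16304776))) (b (l 16351032) (l 16341264))) (b (l 16361024) (l 16352872))) (a (b (c (l 16363680) (a (l 16296200) (l 16305064))) (a (b (l 16327088) (l 16327912)) (l 16337832))) (b (a (l 16345728) (l 16354488)) (l 16354360)))) (b (b (l 16380600) (a (l 16367936) (l 16383424))) (a (b (l 16368512) (l 16376792)) (l 16392664)))) (a (b (b (l 16407376) (l 16408816)) (l 16422792)) (b (l 16439240) (l 16461208))))), by decide +kernel⟩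

def k1_pm_022_b : ∃ t, chk3 f_pm_022_b t 4 3 1 = true :=
  ⟨(b (a (b (a (a (b (c (l 16379712) (l 16301632)) (l 16356848)) (b (l 16366440) (l 16383728))) (b (l 16402304) (l 16421528))) (a (b (a (l 16375832) (l 16403920)) (l 16405320)) (b (l 16444088) (l 16461936)))) (b (a (l 16457512) (l 16501224)) (a (l 16503784) (l 16550144)))) (a (b (a (b (l 16423856) (l 16446000)) (l 16492560)) (a (l 16482464) (l 16539704))) (b (l 16566848) (l 2)))), by decide +kernel⟩

def k2_pm_022_b : ∃ t, chk3 f_pm_022_b t 5 1 1 = true :=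
  ⟨(b (b (a (b (a (b (l 16469608) (l 16462656)) (l 16501216)) (a (l 16460344) (l 16484408))) (b (a (l 16496240) (l 16511928)) (l 16519968))) (a (b (a (l 16470328) (l 16500744)) (l 16516176)) (b (l 16545784) (l 16584736)))) (b (a (b (l 16561968) (l 16610136)) (l 2)) (l 2))), by decide +kernel⟩

def k3_pm_022_b : ∃ t, chk3 f_pm_022_b t 3 1 1 = true :=
  ⟨(b (a (b (a (b (a (l 16526768) (l 16540888)) (l 16566152)) (b (l 16644216) (l 2))) (a (b (l 16602024) (l 2)) (l 2))) (l 2)) (l 2)), by decide +kernel⟩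

theorem s4_pm_022_b : ∃ t, chk3 f_pm_022_b t 4 1 1 = true := ex3_b k0_pm_022_b k1_pm_022_b

theorem s5_pm_022_b : ∃ t, chk3 f_pm_022_b t 2 1 1 = true := ex3_a s4_pm_022_b k2_pm_022_b

theorem s6_pm_022_b : ∃ t, chk3 f_pm_022_b t 1 1 1 = true := ex3_a s5_pm_022_b k3_pm_022_b

theorem c_pm_022_b : CertB 0 536870912 1239849684 370763052 587336777 62277027 3 eng mog cd0q0 cd4q2b pd2 true true false .pp 0 2 2
    ndB0q0 ndB4q2b pcB2 cut_pm_022_b Ext.none :=
  certB0 (fam := true) (s1 := true) (s2 := false) (a := 0) (b := 2) (c := 2) (cn := .pp) (n1 := ndB0q0) (n2 := ndB4q2b) (pc := pcB2) (cut := cut_pm_022_b) (xt := Ext.none) (P1 := 0) (W1 := 536870912) (P2 := 1239849684) (W2 := 370763052) (P3 := 587336777) (W3 := 62277027) (N0 := 3) (En := eng) (mo := mog) (C1 := cd0q0) (C2 := cd4q2b) (C3 := pd2)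
    rfl s6_pm_022_b

noncomputable def xt_pm_023_a : Ext := extD2 3 ⟨7, 3, 3, 10, 1815, 1000, 17, 20, 37, 100, 3, 16⟩ eng cd0q0 cd4q2a pd3 true true false .up 0 2 3 rfl ndB0q0 ndB4q2a pcB3

noncomputable def f_pm_023_a : ℕ → ℕ → ℕ → ℕ → Bool := onCell 1610612736 536870912 0 536870912 587336777 62277027
    (rowB 3 eng mog cd0q0 cd4q2a pd3 2 true true false .up 0 2 3 (qsf 0 536870912 0 536870912 3) ndB0q0 ndB4q2a pcB3 Cut.none xt_pm_023_a)

def k0_pm_023_a : ∃ t, chk3 f_pm_023_a t 4 1 1 = true :=
  ⟨(b (a (a (b (a (l 16512528) (l 16451744)) (a (b (l 16459168) (l 16409160)) (b (l 16421072) (l 16438136)))) (b (l 16448536) (l 16463520))) (a (b (l 16464440) (l 16499888)) (b (l 16511216) (l 16508936)))) (a (b (a (a (b (l 16432272) (c (l 16472288) (l 16404800))) (b (l 16538800) (a (l 16458840) (l 16484144)))) (b (l 16481704) (l 16495512))) (a (b (a (b (l 16518288) (c (l 16465248) (l 16428728))) (b (c (l 16497008) (l 16470384)) (a (l 16482216) (l 16505368)))) (b (a (a (b (l 16466432) (c (l 16475424)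 (l 16430936))) (b (l 16466960) (a (l 16531072) (l 16521272)))) (a (b (l 16490648) (a (l 16512048) (l 16524392))) (a (c (l 16532248) (l 16493960)) (l 16520432)))) (a (b (c (a (c (l 141241235906510863) (l 141032053767651343)) (c (l 141387608432492559) (l 141200553967173647))) (a (c (l 140837921197015055) (l 140658494597169167)) (c (l 141022776633098255) (l 140854207710789647)))) (b (a (c (c (c (l 141337030887686159) (l 141229072561930255)) (l 141073148028813327)) (c (l 140876541554393103) (l 140692510746968079))) (a (b (a (l 141613489272537103) (l 141478111914459151)) (l 2)) (l 2))) (a (a (c (c (b (l 141451242643193871) (a (c (b (l 141322462358224911) (b (l 141328234796646415) (a (c (c (b (l 141366374116327439) (l 141368298262495247)) (l 141338680160108559)) (l 141296005353881615)) (l 2)))) (l 141214641471569935)) (b (l 141299097731022863) (l 2)))) (c (l 141296829939449871) (l 141012537436749839))) (c (b (l 140855032354144271) (l 140869600887455759)) (l 140672788253442063))) (b (c (c (l 141338886318227471)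 (l 141134445819805711)) (l 140847060890091535)) (l 2))) (l 2)))) (b (b (a (c (l 141456121766674447) (l 245450139079)) (l 2)) (l 2)) (l 2))))) (b (b (l 16509528) (l 16521144)) (b (a (l 240081497751) (l 2)) (l 2))))) (a (b (b (l 16496024) (l 16515696)) (b (l 239544678999) (l 2))) (b (b (l 16526576) (l 16552424)) (l 2))))), by decide +kernel⟩

def k1_pm_023_a : ∃ t, chk3 f_pm_023_a t 5 1 1 = true :=
  ⟨(b (a (a (b (l 16565776) (l 16565912)) (b (l 16618528) (l 2))) (l 2)) (b (l 2) (l 2))), by decide +kernel⟩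

def k2_pm_023_a : ∃ t, chk3 f_pm_023_a t 3 1 1 = true :=
  ⟨(l 2), by decide +kernel⟩

theorem s3_pm_023_a : ∃ t, chk3 f_pm_023_a t 2 1 1 = true := ex3_a k0_pm_023_a k1_pm_023_a

theorem s4_pm_023_a : ∃ t, chk3 f_pm_023_a t 1 1 1 = true := ex3_a s3_pm_023_a k2_pm_023_a

theorem c_pm_023_a : CertB 0 536870912 0 536870912 587336777 62277027 3 eng mog cd0q0 cd4q2a pd3 true true false .up 0 2 3
    ndB0q0 ndB4q2a pcB3 Cut.none xt_pm_023_a :=
  certB2 (fam := true) (s1 := true) (s2 := false) (a := 0) (b := 2) (c := 3) (cn := .up) (n1 := ndB0q0) (n2 := ndB4q2a) (pc := pcB3) (cut := Cut.none) (xt := xt_pm_023_a) (P1 := 0) (W1 := 536870912) (P2 := 0) (W2 := 536870912) (P3 := 587336777) (W3 := 62277027) (N0 := 3) (En := eng) (mo := mog) (C1 := cd0q0) (C2 := cd4q2a) (C3 := pd3)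
    rfl (fun _ => rfl) s4_pm_023_a

noncomputable def f_pm_023_b : ℕ → ℕ → ℕ → ℕ → Bool := onCell 1610612736 536870912 1239849684 370763052 587336777 62277027
    (rowB 3 eng mog cd0q0 cd4q2b pd3 2 true true false .up 0 2 3 (qsf 0 536870912 1239849684 370763052 3) ndB0q0 ndB4q2b pcB3 Cut.none Ext.none)

def k0_pm_023_b : ∃ t, chk3 f_pm_023_b t 1 1 1 = true :=
  ⟨(b (b (a (a (a (a (b (a (l 16559344) (l 16524656)) (a (l 16575128) (l 16557248))) (b (l 16506392) (l 16557320))) (a (b (l 16503352) (l 16571056)) (b (l 16512800) (l 16583112)))) (a (a (b (l 16564736) (l 16587288)) (b (l 16614728) (l 16610896))) (b (a (l 16656208) (l 2)) (l 16662448)))) (l 2)) (a (a (a (a (b (a (l 16575760) (l 16562344)) (a (l 16575016) (l 16558848))) (b (l 16571064) (l 16572176))) (a (l 16725968) (b (l 16616192) (l 16629672)))) (a (a (b (l 16631872) (l 16652528)) (l 16679472)) (b (l 16627576) (l 16698648)))) (a (a (l 16809712) (a (l 16756344) (l 2))) (l 2)))) (a (a (a (b (a (a (b (l 16576352) (l 16572944)) (b (l 16552504)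 (l 16538432))) (b (l 16566984) (l 16552600))) (a (a (b (l 16553632) (l 16531608)) (b (l 16505952) (l 16471432))) (b (l 16519008) (l 16483552)))) (b (a (l 16595464) (l 16670576)) (a (b (l 16559120) (l 16526656)) (l 16582712)))) (a (b (a (l 16657952) (l 16682752)) (a (l 16615800) (l 16646952))) (b (b (l 16717520) (l 16724112)) (b (l 16709688) (l 16677168))))) (a (a (b (b (l 16758400) (l 16771360)) (a (l 16740896) (l 16772008))) (b (a (l 16776744) (l 16771224)) (a (l 16803320) (l 16831688)))) (a (b (a (l 16755312) (l 16732816)) (a (l 16823976) (l 4))) (l 4))))), by decide +kernel⟩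

theorem c_pm_023_b : CertB 0 536870912 1239849684 370763052 587336777 62277027 3 eng mog cd0q0 cd4q2b pd3 true true false .up 0 2 3
    ndB0q0 ndB4q2b pcB3 Cut.none Ext.none :=
  certB2 (fam := true) (s1 := true) (s2 := false) (a := 0) (b := 2) (c := 3) (cn := .up) (n1 := ndB0q0) (n2 := ndB4q2b) (pc := pcB3) (cut := Cut.none) (xt := Ext.none) (P1 := 0) (W1 := 536870912) (P2 := 1239849684) (W2 := 370763052) (P3 := 587336777) (W3 := 62277027) (N0 := 3) (En := eng) (mo := mog) (C1 := cd0q0) (C2 := cd4q2b) (C3 := pd3)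
    rfl (fun _ => rfl) k0_pm_023_b

noncomputable def f_pm_033 : ℕ → ℕ → ℕ → ℕ → Bool := onCell 0 536870912 1610612736 536870912 587336777 62277027
    (rowB 3 eng mog cd0q0 cd4q3 pd3 1 true true false .pnn 0 3 3 (qsf 0 536870912 1610612736 536870912 3) ndB0q0 ndB4q3 pcB3 Cut.none Ext.none)

def k0_pm_033 : ∃ t, chk3 f_pm_033 t 1 1 1 = true :=
  ⟨(a (b (b (b (a (b (a (b (l 16466664) (l 16387600)) (l 1)) (a (l 16371392) (l 16439768))) (l 1)) (a (b (a (l 16381848) (l 16447816)) (a (l 16406936) (l 16456928))) (a (b (l 1) (l 16518616)) (l 1)))) (b (a (b (a (l 16425432) (l 16472296)) (l 16463312)) (b (a (l 16521904) (l 1)) (l 16557528))) (a (a (b (l 16467608) (l 16493464)) (l 16582304)) (a (l 16560656) (l 16606200))))) (b (a (b (b (a (l 16515904) (l 16549736)) (a (l 16533568) (l 16566128))) (l 4)) (b (b (a (l 16588224) (l 16630176)) (a (l 16603952) (l 16644992))) (b (a (l 16613272) (l 16655920)) (l 4)))) (l 4))) (b (b (l 1) (b (l 1) (a (a (l 16649728) (l 1)) (l 1)))) (b (a (b (a (l 16679512) (l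 16716944)) (b (a (l 16698624) (l 16737152)) (a (l 16704304) (l 16746304)))) (b (l 1) (a (b (l 1) (l 16783808)) (l 1)))) (b (a (l 4) (a (b (l 16783824) (l 4)) (l 474091161255))) (l 4))))), by decide +kernel⟩

theorem c_pm_033 : CertB 0 536870912 1610612736 536870912 587336777 62277027 3 eng mog cd0q0 cd4q3 pd3 true true false .pnn 0 3 3
    ndB0q0 ndB4q3 pcB3 Cut.none Ext.none :=
  certB1 (fam := true) (s1 := true) (s2 := false) (a := 0) (b := 3) (c := 3) (cn := .pnn) (n1 := ndB0q0) (n2 := ndB4q3) (pc := pcB3) (cut := Cut.none) (xt := Ext.none) (P1 := 0) (W1 := 536870912) (P2 := 1610612736) (W2 := 536870912) (P3 := 587336777) (W3 := 62277027) (N0 := 3) (En := eng) (mo := mog) (C1 := cd0q0) (C2 := cd4q3) (C3 := pd3)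
    rfl (fun _ => rfl) k0_pm_033

noncomputable def cut_pm_101 : Cut := Cut.of [[⟨0, 1, 0, 67108864⟩, ⟨1, 0, 0, 67108864⟩, ⟨2, 1, 0, 67108864⟩]]

noncomputable def f_pm_101 : ℕ → ℕ → ℕ → ℕ → Bool := onCell 536870912 536870912 0 536870912 587336777 62277027
    (rowB 3 eng mog cd0q1 cd4q0 pd1 2 true true false .npn 1 0 1 (qsf 536870912 536870912 0 536870912 1) ndB0q1 ndB4q0 pcB1 cut_pm_101 Ext.none)

def k0_pm_101 : ∃ t, chk3 f_pm_101 t 1 1 1 = true :=
  ⟨(a (l 3) (b (a (l 3) (b (a (l 3) (b (a (l 3) (a (l 3) (b (l 6) (l 3)))) (l 3))) (l 3))) (l 3))), by decide +kernel⟩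

theorem c_pm_101 : CertB 536870912 536870912 0 536870912 587336777 62277027 3 eng mog cd0q1 cd4q0 pd1 true true false .npn 1 0 1
    ndB0q1 ndB4q0 pcB1 cut_pm_101 Ext.none :=
  certB2 (fam := true) (s1 := true) (s2 := false) (a := 1) (b := 0) (c := 1) (cn := .npn) (n1 := ndB0q1) (n2 := ndB4q0) (pc := pcB1) (cut := cut_pm_101) (xt := Ext.none) (P1 := 536870912) (W1 := 536870912) (P2 := 0) (W2 := 536870912) (P3 := 587336777) (W3 := 62277027) (N0 := 3) (En := eng) (mo := mog) (C1 := cd0q1) (C2 := cd4q0) (C3 := pd1)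
    rfl (fun _ => rfl) k0_pm_101

noncomputable def cut_pm_102 : Cut := Cut.of [[⟨0, 1, 0, 67108864⟩, ⟨1, 0, 0, 67108864⟩, ⟨2, 1, 0, 67108864⟩]]

noncomputable def xt_pm_102 : Ext := extD2 3 ⟨7, 3, 3, 10, 1815, 1000, 17, 20, 37, 100, 3, 16⟩ eng cd0q1 cd4q0 pd2 true true false .npp 1 0 2 rfl ndB0q1 ndB4q0 pcB2

noncomputable def f_pm_102 : ℕ → ℕ → ℕ → ℕ → Bool := onCell 536870912 536870912 1073741824 536870912 587336777 62277027
    (rowB 3 eng mog cd0q1 cd4q0 pd2 1 true true false .npp 1 0 2 (qsf 536870912 536870912 0 536870912 2) ndB0q1 ndB4q0 pcB2 cut_pm_102 xt_pm_102)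

def k0_pm_102 : ∃ t, chk3 f_pm_102 t 2 4 1 = true :=
  ⟨(a (b (b (l 3) (a (b (a (l 3) (b (l 3) (a (l 3) (l 286319795847)))) (a (l 2) (b (b (a (l 59693057927) (l 16681584)) (l 57008716215)) (l 45734432327)))) (b (b (l 3) (a (a (l 183240499479) (l 183240514087)) (a (l 182703653575) (l 159081332007)))) (a (b (a (l 16679168) (l 16660272)) (l 16667576)) (b (l 16687456) (l 16671560)))))) (b (a (b (a (l 2) (l 16657600)) (l 2)) (b (a (l 16651136) (l 16648864)) (l 16625880))) (a (l 2) (b (l 16606448) (l 16590608))))) (b (b (b (l 3) (b (l 3) (a (l 3) (a (a (l 3) (l 316921700615)) (a (b (l 3) (l 2371912458228043776681181551)) (b (l 16828120) (l 16817744))))))) (a (b (a (b (a (b (l 3) (l 153712678439)) (a (l 1820642284482905289462710383) (l 1820642284482985966142193775))) (b (a (l 143030622806507631) (l 143157478974767215)) (a (l 16706424) (l 16713008)))) (b (a (c (l 162839685095) (l 2961868258199285860893556975)) (c (l 177335225735) (l 2971539664756380740333142255))) (a (l 143297735443661039) (l 143480185681264879))))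 (a (b (a (l 16693536) (l 16699384)) (l 16680256)) (a (l 16721808) (l 16713392)))) (b (b (a (a (a (b (l 181093282727) (l 16767592)) (b (l 179482685639) (l 16773872))) (b (c (l 16802960) (l 16781392)) (l 16782288))) (a (a (l 144126148866965871) (l 16798840)) (l 16803192))) (a (a (l 16755624) (l 16767496)) (l 16780312))) (a (b (l 16741704) (l 16722552)) (l 16751336))))) (a (b (b (a (l 16657008) (l 16672416)) (l 16636144)) (b (l 16611456) (l 16591256))) (a (b (a (l 16672528) (l 16683976)) (l 16624176)) (b (l 16824080) (l 16641400)))))), by decide +kernel⟩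

def k1_pm_102 : ∃ t, chk3 f_pm_102 t 3 8 1 = true :=
  ⟨(a (b (b (a (l 3) (a (l 3) (b (l 3) (a (l 162302971399) (b (l 3) (l 16852584)))))) (a (a (b (l 3) (a (b (l 16851848) (l 16862488)) (b (l 16830648) (l 16821144)))) (b (a (l 16886112) (l 16840152)) (a (b (l 16828816) (l 16819376)) (l 16820960)))) (a (b (a (l 81772348119) (b (l 16832944) (l 16823440))) (a (l 16816016) (l 16810328))) (b (a (b (l 16846384) (l 16816552)) (b (a (l 16819336) (l 16815672)) (l 16809008))) (a (l 16803216) (l 16795968)))))) (a (b (a (a (b (l 16806032) (l 16787168)) (l 16818072)) (b (l 16803768) (l 16785152))) (a (l 16759392) (l 16757960))) (a (b (l 16786064) (l 16751224)) (b (l 16815480) (l 16741200))))) (a (b (a (b (b (l 3) (b (a (l 3) (a (l 16820688) (l 16816856))) (a (a (l 16862000) (l 16836856)) (b (a (l 16814152) (l 16810264)) (l 16808080))))) (b (a (b (l 16830360) (l 16801064)) (l 16839504)) (a (l 16788280) (l 16780880)))) (b (b (a (l 3) (b (l 3) (a (l 95194017799) (l 95730884663)))) (a (b (a (l 92509677175)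 (b (l 16811200) (l 16807016))) (l 16823736)) (b (a (b (l 16807336) (l 16803408)) (l 16822344)) (l 16795568)))) (b (a (l 16790624) (l 16783768)) (l 16771264)))) (a (b (l 16781088) (l 16730688)) (b (l 16769752) (l 16713856)))) (b (a (b (b (a (b (l 3) (a (l 97878357095) (b (l 6) (l 16799104)))) (l 6)) (a (b (b (l 16818368) (l 16793808)) (l 16788096)) (b (l 6) (l 16780144)))) (a (l 16769488) (l 16804552))) (b (l 6) (a (b (l 6) (l 16756624)) (l 6)))) (b (a (a (l 16742800) (l 16745568)) (a (l 16742696) (a (l 16732160) (l 6)))) (a (l 16800104) (a (l 16724168) (l 16708408))))))), by decide +kernel⟩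

def k2_pm_102 : ∃ t, chk3 f_pm_102 t 3 9 1 = true :=
  ⟨(a (b (a (a (l 16749904) (l 16709160)) (a (l 16705656) (l 16700448))) (a (l 16761584) (a (l 16662184) (l 16667656)))) (a (b (a (l 16698184) (b (l 16711496) (l 16713416))) (a (l 16684968) (l 16708384))) (a (b (a (l 16722320) (l 16713720)) (l 16738008)) (b (a (l 16699240) (b (l 16690128) (l 16673728))) (a (l 16672824) (l 16653216)))))), by decide +kernel⟩

def k3_pm_102 : ∃ t, chk3 f_pm_102 t 1 5 1 = true :=
  ⟨(a (a (b (b (b (a (l 2) (l 16577640)) (l 2)) (l 2)) (l 2)) (b (b (a (b (l 16575312) (b (l 16566120) (l 16564960))) (b (l 16605016) (b (l 16595296) (l 16593616)))) (a (l 16554968) (l 16584696))) (a (l 16556008) (l 16590864)))) (a (b (a (b (b (l 16629768) (b (l 16620680) (b (l 16617592) (l 16617904)))) (l 16613032)) (b (b (l 16650616) (b (l 16648888) (b (l 16649512) (l 16652512)))) (l 16658240))) (a (l 16631096) (a (l 16676936) (l 16697176)))) (a (b (b (b (a (l 16691528) (l 16700320)) (b (l 16697864) (a (l 16694976) (l 16695744))))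 (a (l 16694880) (l 16692400))) (a (l 16702640) (l 16693584))) (b (b (b (a (l 16683456) (l 16648760)) (a (b (l 16678800) (l 16676264)) (b (l 16643512) (l 16703568)))) (a (l 16672120) (l 16636240))) (a (l 16671104) (l 16635432)))))), by decide +kernel⟩

def k4_pm_102 : ∃ t, chk3 f_pm_102 t 1 3 1 = true :=
  ⟨(a (a (l 2) (b (b (a (l 2) (l 16640200)) (l 2)) (l 2))) (a (b (b (a (l 16688264) (l 16721800)) (a (l 16740912) (l 16760608))) (a (l 2) (l 16820768))) (b (a (b (l 16719176) (l 16754384)) (b (a (l 16690800) (l 16658328)) (b (l 16707984) (l 16724824)))) (a (l 16988976) (b (l 16748920) (l 16784080)))))), by decide +kernel⟩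

theorem s5_pm_102 : ∃ t, chk3 f_pm_102 t 3 4 1 = true := ex3_b k1_pm_102 k2_pm_102

theorem s6_pm_102 : ∃ t, chk3 f_pm_102 t 1 4 1 = true := ex3_a k0_pm_102 s5_pm_102

theorem s7_pm_102 : ∃ t, chk3 f_pm_102 t 1 2 1 = true := ex3_b s6_pm_102 k3_pm_102

theorem s8_pm_102 : ∃ t, chk3 f_pm_102 t 1 1 1 = true := ex3_b s7_pm_102 k4_pm_102

theorem c_pm_102 : CertB 536870912 536870912 0 536870912 587336777 62277027 3 eng mog cd0q1 cd4q0 pd2 true true false .npp 1 0 2
    ndB0q1 ndB4q0 pcB2 cut_pm_102 xt_pm_102 :=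
  certB1 (fam := true) (s1 := true) (s2 := false) (a := 1) (b := 0) (c := 2) (cn := .npp) (n1 := ndB0q1) (n2 := ndB4q0) (pc := pcB2) (cut := cut_pm_102) (xt := xt_pm_102) (P1 := 536870912) (W1 := 536870912) (P2 := 0) (W2 := 536870912) (P3 := 587336777) (W3 := 62277027) (N0 := 3) (En := eng) (mo := mog) (C1 := cd0q1) (C2 := cd4q0) (C3 := pd2)
    rfl (fun _ => rfl) s8_pm_102

noncomputable def xt_pm_112 : Ext := extD2 3 ⟨7, 3, 3, 10, 1815, 1000, 17, 20, 37, 100, 3, 16⟩ eng cd0q1 cd4q1 pd2 true true false .dn 1 1 2 rfl ndB0q1 ndB4q1 pcB2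

noncomputable def f_pm_112 : ℕ → ℕ → ℕ → ℕ → Bool := onCell 536870912 536870912 1073741824 536870912 587336777 62277027
    (rowB 3 eng mog cd0q1 cd4q1 pd2 1 true true false .dn 1 1 2 (qsf 536870912 536870912 536870912 536870912 2) ndB0q1 ndB4q1 pcB2 Cut.none xt_pm_112)

def k0_pm_112 : ∃ t, chk3 f_pm_112 t 1 2 1 = true :=
  ⟨(b (a (b (a (b (l 3) (a (b (a (l 3) (b (l 3) (l 5757503266839707706807621679))) (a (b (a (l 16392320) (l 16392768)) (b (l 16376424) (l 16348984))) (b (a (l 16370280) (l 239477163831)) (l 16371064)))) (b (l 1) (a (b (l 1) (l 297459168487)) (l 1))))) (l 1)) (a (b (a (b (a (c (l 16372120) (l 16354080)) (l 16330912)) (a (l 16357632) (l 16338424))) (b (a (l 16292472) (l 1)) (l 16308552))) (a (b (a (l 16376352) (l 16360680)) (a (l 16392512) (l 16381168))) (b (a (l 16348840) (l 16342520)) (l 16369544)))) (b (l 1) (a (b (l 1) (l 16373656)) (l 1))))) (l 1)) (a (a (b (b (b (a (a (l 16409160) (l 16401336)) (l 16392104)) (b (a (a (l 16421072) (l 16414632)) (l 16407536)) (a (b (l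 16425176) (a (l 16440368) (l 16436248))) (b (l 16416968) (l 16431944))))) (a (a (l 16446152) (l 16445496)) (l 16445624))) (a (a (l 16451824) (l 16460944)) (l 16474824))) (a (b (b (b (l 16392592) (b (l 16409384) (b (l 16419448) (l 16434744)))) (l 16451752)) (l 16495176)) (b (b (l 1) (l 16471176)) (l 16522504)))) (a (b (l 1) (a (l 344167792711) (l 1))) (l 1)))), by decide +kernel⟩

def k1_pm_112 : ∃ t, chk3 f_pm_112 t 1 3 1 = true :=
  ⟨(a (a (b (a (b (a (l 16501560) (l 16458944)) (a (b (b (l 16425520) (l 16420744)) (l 16417504)) (b (l 16451352) (l 16448752)))) (b (l 16530392) (b (l 16491832) (l 16497736)))) (a (b (a (b (l 16409528) (l 16392600)) (b (b (l 16446744) (l 16441088)) (l 16434000))) (b (a (l 16376632) (l 16426224)) (a (a (l 16347040) (l 16376456)) (l 16420624)))) (b (a (b (l 16480512) (l 16474816)) (b (l 16518632) (l 16517880))) (a (l 16476352) (b (l 16523120) (l 16535512)))))) (b (a (b (l 16527136) (a (l 16537960) (l 16565904))) (b (l 16568592) (l 16609192))) (a (b (a (l 16559248)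 (l 16598992)) (a (b (l 16573920) (l 16592648)) (l 16637592))) (b (l 16658544) (l 16703248))))) (a (b (a (b (l 16623840) (l 16677744)) (b (l 16678832) (l 16743248))) (a (b (l 16747632) (l 16789952)) (l 16775616))) (b (b (l 1) (a (l 461742728599) (l 1))) (a (l 17133968) (l 318935180631))))), by decide +kernel⟩

theorem s2_pm_112 : ∃ t, chk3 f_pm_112 t 1 1 1 = true := ex3_b k0_pm_112 k1_pm_112

theorem c_pm_112 : CertB 536870912 536870912 536870912 536870912 587336777 62277027 3 eng mog cd0q1 cd4q1 pd2 true true false .dn 1 1 2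
    ndB0q1 ndB4q1 pcB2 Cut.none xt_pm_112 :=
  certB1 (fam := true) (s1 := true) (s2 := false) (a := 1) (b := 1) (c := 2) (cn := .dn) (n1 := ndB0q1) (n2 := ndB4q1) (pc := pcB2) (cut := Cut.none) (xt := xt_pm_112) (P1 := 536870912) (W1 := 536870912) (P2 := 536870912) (W2 := 536870912) (P3 := 587336777) (W3 := 62277027) (N0 := 3) (En := eng) (mo := mog) (C1 := cd0q1) (C2 := cd4q1) (C3 := pd2)
    rfl (fun _ => rfl) s2_pm_112

noncomputable def f_pm_113 : ℕ → ℕ → ℕ → ℕ → Bool := onCell 536870912 536870912 1610612736 536870912 587336777 62277027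
    (rowB 3 eng mog cd0q1 cd4q1 pd3 1 true true false .nn 1 1 3 (qsf 536870912 536870912 536870912 536870912 3) ndB0q1 ndB4q1 pcB3 Cut.none Ext.none)

def k0_pm_113 : ∃ t, chk3 f_pm_113 t 2 1 1 = true :=
  ⟨(b (b (a (b (a (b (b (a (c (a (l 16346736) (l 16382736)) (c (l 43586217927) (l 43049233319))) (b (l 16393640) (l 16368704))) (a (b (a (l 129485448727) (l 16268632)) (c (l 34459331479) (c (l 16196912) (l 41438518247)))) (b (c (l 16402696) (l 16279936)) (b (l 16319544) (l 16312144))))) (a (a (l 2) (l 136464614583)) (a (l 44122818327) (l 16238232)))) (a (b (b (c (l 16509648) (l 16398304)) (b (l 16410784) (l 16277712))) (a (l 16358144) (l 16394488))) (b (b (l 16527584) (b (l 16480832) (l 16450440))) (l 16448952)))) (b (a (a (l 2) (b (l 145591389991) (l 2))) (a (c (l 16407744) (l 55934098807)) (c (l 16520464) (l 16382792)))) (a (l 2) (a (b (l 154718335223) (l 2)) (b (l 16327024) (l 16307232)))))) (b (b (a (b (a (l 16600224) (l 16651752)) (a (b (l 16545032) (l 16512384)) (c (l 16631112) (l 16525848))))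 (b (l 16721104) (a (l 16537880) (l 16665584)))) (a (a (l 16469304) (l 16561016)) (a (l 16602544) (l 16643680)))) (b (a (a (c (l 16577848) (l 16451528)) (l 16564824)) (a (l 16605856) (l 16643632))) (a (a (b (l 16495352) (c (l 16581272) (l 16454440))) (c (l 16625904) (l 16508880))) (a (l 16608240) (b (l 16644160) (l 16644448))))))) (b (a (a (l 2) (b (a (l 2) (b (a (l 2) (l 16405464)) (l 2))) (l 2))) (a (b (b (a (c (l 16579720) (l 16450624)) (l 16565400)) (a (l 16507744) (l 16558008))) (a (l 198205289783) (l 16547440))) (a (b (b (l 16605800) (l 16597904)) (l 16586360)) (b (b (l 16639864) (l 16630744)) (l 16618856))))) (a (l 2) (b (a (a (l 2) (l 209479711687)) (a (l 16572440) (l 16606040))) (a (l 2) (b (l 228270387767) (l 227733534407))))))) (b (a (l 2) (b (a (l 2) (b (l 247597863303) (l 2))) (l 2))) (l 2))), by decide +kernel⟩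

def k1_pm_113 : ∃ t, chk3 f_pm_113 t 3 1 1 = true :=
  ⟨(a (a (b (b (b (b (b (l 16821216) (l 16737688)) (l 16714704)) (b (a (l 16686176) (l 16732768)) (a (l 16680320) (l 16721472)))) (b (b (a (l 16669432) (l 16705912)) (l 16671712)) (b (l 16659696) (l 16651776)))) (b (b (b (l 16647200) (l 16646640)) (b (l 16649152) (l 2))) (l 2))) (b (b (b (b (l 16886360) (l 16817912)) (l 16797600)) (b (b (l 16767520) (l 16745456)) (l 16727928))) (b (b (b (l 16711584) (l 16704768)) (b (l 16699728) (l 16692056))) (b (b (l 16680896) (l 2)) (l 2))))) (b (b (b (b (a (l 16998224) (l 17089840)) (l 16976400)) (a (l 16890000) (l 16959504))) (b (a (l 16790776) (l 16887648)) (a (l 16786168) (l 16827720)))) (b (b (a (l 16983712) (l 16815848)) (a (b (l 16732416) (l 16713376)) (l 4))) (b (l 4) (l 4))))), by decide +kernel⟩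

theorem s2_pm_113 : ∃ t, chk3 f_pm_113 t 1 1 1 = true := ex3_a k0_pm_113 k1_pm_113

theorem c_pm_113 : CertB 536870912 536870912 536870912 536870912 587336777 62277027 3 eng mog cd0q1 cd4q1 pd3 true true false .nn 1 1 3
    ndB0q1 ndB4q1 pcB3 Cut.none Ext.none :=
  certB1 (fam := true) (s1 := true) (s2 := false) (a := 1) (b := 1) (c := 3) (cn := .nn) (n1 := ndB0q1) (n2 := ndB4q1) (pc := pcB3) (cut := Cut.none) (xt := Ext.none) (P1 := 536870912) (W1 := 536870912) (P2 := 536870912) (W2 := 536870912) (P3 := 587336777) (W3 := 62277027) (N0 := 3) (En := eng) (mo := mog) (C1 := cd0q1) (C2 := cd4q1) (C3 := pd3)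
    rfl (fun _ => rfl) s2_pm_113

noncomputable def cut_pm_123_a : Cut := Cut.of [[⟨0, 1, 0, 67108864⟩, ⟨1, 1, 0, 67108864⟩, ⟨2, 2, 0, 16777216⟩], [⟨0, 0, 1, 20971520⟩, ⟨1, 1, 0, 29360128⟩, ⟨2, 1, 1, 20971520⟩]]

noncomputable def xt_pm_123_a : Ext := extD2 3 ⟨7, 3, 3, 10, 1815, 1000, 17, 20, 37, 100, 3, 16⟩ eng cd0q1 cd4q2a pd3 true true false .npn 1 2 3 rfl ndB0q1 ndB4q2a pcB3

noncomputable def f_pm_123_a : ℕ → ℕ → ℕ → ℕ → Bool := onCell 1610612736 536870912 0 536870912 587336777 62277027
    (rowB 3 eng mog cd0q1 cd4q2a pd3 2 true true false .npn 1 2 3 (qsf 536870912 536870912 0 536870912 3) ndB0q1 ndB4q2a pcB3 cut_pm_123_a xt_pm_123_a)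

def k0_pm_123_a : ∃ t, chk3 f_pm_123_a t 4 2 1 = true :=
  ⟨(a (l 1) (a (l 1) (b (l 1) (l 16508688)))), by decide +kernel⟩

def k1_pm_123_a : ∃ t, chk3 f_pm_123_a t 8 6 1 = true :=
  ⟨(l 1), by decide +kernel⟩

def k2_pm_123_a : ∃ t, chk3 f_pm_123_a t 16 14 1 = true :=
  ⟨(l 1), by decide +kernel⟩

def k3_pm_123_a : ∃ t, chk3 f_pm_123_a t 32 15 1 = true :=
  ⟨(b (l 1) (a (b (l 1) (a (b (l 1) (c (c (b (l 141361151409192975) (c (b (l 141338130403606543) (b (c (l 141371940395941903) (l 141316002727116815)) (c (b (c (l 141388914111643663) (l 141360807838220303)) (a (c (a (l 141368298262495247) (l 141383279113043983)) (l 141347270097420303)) (a (l 141429458602360847) (l 141399977951576079)))) (l 141319919738863631)))) (a (l 141214641471569935) (l 141248863780634639)))) (c (l 141296761219973135) (l 141012537436733455))) (c (b (l 140855032354127887) (l 140869600887455759)) (l 140672788253425679)))) (b (c (c (l 141317239674208271) (l 141112867896590351)) (l 140827819431149583)) (b (c (c (l 141338886318227471)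 (l 141134445819789327)) (l 140846992170614799)) (c (c (c (b (l 141402658011545615) (b (c (l 141434818736341007) (l 141381904724738063)) (c (c (a (l 141436124406841359) (l 141467804095397903)) (l 141425266727059471)) (l 141385753017024527)))) (a (l 141283910723665935) (l 141319851020124175))) (c (l 141199591902724111) (l 141099742475616271))) (c (c (l 141002298230833167) (l 140907190448881679)) (l 140768789384675343))))))) (c (b (c (l 141387539712999439) (l 141200416528203791)) (b (c (c (l 141474263722852367) (l 141378606184595471)) (l 141238487132438543)) (a (c (b (l 141409942277619727) (c (b (l 141470277996855311) (c (b (l 141500652015124495) (a (l 141487595311104015) (l 141521199145500687))) (l 141497147308392463))) (a (l 141356684670042127) (l 141394342953910287)))) (b (l 141216359457406991) (c (b (l 141274908469035023) (l 141372352689815567)) (l 141363625287811087)))) (c (b (l 141484434211815439) (c (b (l 141541059079028751) (a (c (l 141553772187140111) (l 141506699331567631)) (c (l 141588956569960463)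 (l 141543601701502991)))) (b (l 141449043672301583) (a (l 141436536725028879) (l 141475981715832847))))) (b (l 141302464984186895) (a (a (l 141283773283221519) (l 141305419924078607)) (c (l 141382866796363791) (l 141294081205846031)))))))) (b (c (l 141022707913605135) (l 140854138991296527)) (b (c (l 141058029736050703) (l 140884581728157711)) (b (c (l 141257247505252367) (l 140901211846262799)) (c (a (c (l 141089984304889871) (l 140998175057936399)) (c (l 141362388333592591) (l 141094038751068175))) (a (l 141043598593966095) (c (l 141006764990152719) (l 140920384582828047)))))))))), by decide +kernel⟩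

def k4_pm_123_a : ∃ t, chk3 f_pm_123_a t 66 15 1 = true :=
  ⟨(b (a (l 1) (a (l 16559896) (l 16545272))) (b (c (c (l 141548549491474447) (l 141386577637703695)) (c (l 141227973039194127) (l 141072392098578447))) (b (c (c (a (l 141543051938807823) (l 141625584053747727)) (l 141601119858245647)) (c (l 141259377851383823) (l 141098849105608719))) (c (c (b (a (l 141562430840324111) (l 141644069602131983)) (a (c (b (l 141615138697068559) (a (c (l 141624965586747407) (l 141581397424865295)) (c (l 141661730518024207) (l 141620086501670927)))) (a (a (l 141502644879802383) (l 141523054570160143)) (c (l 141631287761420303) (l 141533362493816847)))) (c (b (l 141692585570451471) (a (b (l 141677810879578127) (c (b (l 141700213436891151) (l 141701862705201167)) (l 141661249480736783))) (a (a (l 141704061727899663) (l 141713957335515151)) (c (l 141747561170616335) (l 141710246481772559))))) (b (l 141614726377357327) (a (a (l 141589162726014991) (l 141610465769848847)) (b (l 141641320823308303) (c (l 141663654661308431)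 (l 141625515338727439)))))))) (b (a (l 141392762400178191) (l 141487526583336975)) (b (a (l 141402726728269839) (c (l 141536317428629519) (l 141457496163205135))) (a (c (a (l 141429802212065295) (l 141474195005997071)) (a (l 141343627961761807) (l 141390838254485519))) (c (a (b (l 141518038043705359) (l 141611427814014991)) (a (l 141554528095944719) (l 141578030163329039))) (a (l 141439216778608655) (l 141488763534147599))))))) (c (a (b (l 141224743228653583) (c (a (l 141254567492583439) (l 141304320406126607)) (l 141375170154758159))) (b (l 141329540456218639) (a (a (l 141301571623763983) (l 141327959909302287)) (c (l 141407468366413839) (l 141328509662347279))))) (a (b (l 141058235886796815) (c (l 141110943741345807) (l 141027037235183631))) (b (l 141170042501300239) (c (l 141400733800562703) (l 141139462324977679))))))))), by decide +kernel⟩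

def k5_pm_123_a : ∃ t, chk3 f_pm_123_a t 67 30 1 = true :=
  ⟨(a (c (l 16532224) (l 16514912)) (l 16520416)), by decide +kernel⟩

def k6_pm_123_a : ∃ t, chk3 f_pm_123_a t 67 62 1 = true :=
  ⟨(a (c (l 141608610327691279) (l 141323493129256975)) (l 141882251255005199)), by decide +kernel⟩

def k7_pm_123_a : ∃ t, chk3 f_pm_123_a t 67 126 1 = true :=
  ⟨(a (c (c (l 141711552143491087) (l 141569302778806287)) (c (l 141423617440464911) (l 141274289970020367))) (c (l 141689424464166927) (l 141410423293214735))), by decide +kernel⟩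

def k8_pm_123_a : ∃ t, chk3 f_pm_123_a t 67 254 1 = true :=
  ⟨(a (c (c (c (l 141764122564804623) (l 141693891234840591)) (l 141766527684739087)) (c (l 141439216767860751) (l 141287346675269647))) (c (b (l 141706398182178831) (a (l 141708116169670671) (l 141724127812599823))) (c (l 141500651996463119) (l 141351805560586255)))), by decide +kernel⟩

def k9_pm_123_a : ∃ t, chk3 f_pm_123_a t 67 255 1 = true :=
  ⟨(a (c (a (a (b (l 141812844631556111) (c (b (l 141711071114330127) (c (a (l 141745637024153615) (l 141755738790264847)) (l 141767695951937551))) (c (l 141601875828178959) (l 141526627975643151)))) (b (l 141836140540575759) (b (c (l 141732442877804559) (l 141587719609073679)) (a (c (c (l 141765909275885583) (l 141694303555502095)) (l 141584558512881679)) (a (c (c (l 141773605859573775) (l 141702687334055951)) (l 141593973083668495)) (c (b (l 141742888241856527) (b (l 141744125193060367) (c (a (l 141778759822131215) (l 141781852199354383)) (l 141709902881292303)))) (c (l 141636716612550671)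 (l 141563667783401487)))))))) (c (b (a (l 141749485311885327) (b (l 141768864209600527) (l 141773262257750031))) (a (a (b (l 141748660679032847) (c (b (l 141786318966194191) (b (l 141788449270628367) (l 141790304696926223))) (b (l 141716568671944719) (c (l 141737047083155471) (l 141701725259415567))))) (b (l 141760411712700431) (c (b (l 141799306950410255) (l 141848166499221519)) (l 141731893118861327)))) (a (b (l 141773537135935503) (c (a (l 141811607739514895) (l 141818548408221711)) (l 141746186773250063))) (a (b (l 141783776340279311) (c (a (l 141823771089633295) (l 141826519869325327)) (l 141756563416580111))) (c (l 141824595723616271) (l 141756288538689551)))))) (b (a (l 141608404176175119) (l 141633349352669199)) (b (a (l 141703374495072271) (l 141640290021867535)) (a (a (b (l 141609297530781711) (a (l 141608129299546127) (l 141615482285211663))) (l 141715194248118287)) (a (l 141730037658468367) (a (l 141650735384756239) (l 141653896481456143)))))))) (a (c (b (l 141419906591358991) (a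 (l 141411797691924495) (a (l 141432482259517455) (l 141446432316719119)))) (a (l 141252437174091791) (l 141282123994955791))) (c (b (a (l 141461825482473487) (l 141489175840866319)) (a (b (l 141466223530639375) (c (l 141507523949871119) (l 141432069939216399))) (a (l 141490756389601295) (l 141503332056743951)))) (b (l 141324249043714063) (a (b (l 141313322644815887) (l 141316140144214031)) (c (l 141383210372382735) (l 141305351180189711))))))) (c (b (c (l 141796901764071439) (l 141657882212614159)) (c (b (l 141807896882855951) (a (c (b (l 141837789866524687) (l 141886718134829071)) (l 141770582193471503)) (c (a (l 141855175898546191) (l 141910632518959119)) (l 141790167249453071)))) (b (l 141666815746703375) (c (l 141709078238986255) (l 141636235568316431))))) (b (c (l 141512403030343695) (l 141360464217243663)) (c (l 141611702676520975) (l 141366923849826319))))), by decide +kernel⟩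

def k10_pm_123_a : ∃ t, chk3 f_pm_123_a t 34 7 1 = true :=
  ⟨(b (l 31708547927) (a (b (l 16546152) (b (b (l 16534952) (c (l 141690455258873871) (l 141421968169435151))) (b (c (a (b (l 141700075989549071) (l 141720210802212879)) (l 141744193906524175)) (b (l 141440041397600271) (l 141454747369685007))) (c (b (l 141765703107051535) (b (l 141899431213645839) (a (b (l 141867201776254991) (a (c (b (l 141844180775780367) (c (a (l 141923208186380303) (l 141933859708010511)) (l 141812157487644687))) (l 141790716972007439)) (c (c (c (l 14) (l 141930286292467727)) (l 141921077863186447)) (l 141809820991569935)))) (c (b (l 141892078263500815) (b (l 141898056859336719) (c (l 14) (a (l 141899156356005903) (a (l 141870362899415055) (l 141881426737987599)))))) (c (a (l 141774018161557519) (l 141794702729379855)) (l 141797863796523023)))))) (b (l 141471033889849359) (b (l 141483953154768911) (c (a (l 141554802958745615) (l 141770101088747535)) (a (l 141396129635581967) (l 141427259567079439))))))))) (b (b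 (l 16528296) (l 16536472)) (b (b (l 16543280) (c (l 141749072992223247) (l 141475500658229263))) (b (l 141661661780148239) (c (b (l 141849953207107599) (c (c (l 14) (b (l 141910769962483727) (b (l 141922727154204687) (a (c (l 14) (a (l 141877234847105039) (l 141944854817947663))) (l 14))))) (b (l 141795252482359311) (b (l 141895720359804943) (a (c (a (l 141819441747279887) (l 141931385780469775)) (l 141841431955996687)) (a (c (b (l 141861841675272207) (l 141955575042408463)) (l 141783157847900175)) (c (a (l 141880808255635471) (l 141982513084137487)) (l 141805079366565903)))))))) (b (l 141538997470527503) (b (l 141553291125309455) (c (a (b (l 141624484526686223) (l 141810095834693647)) (a (l 141656576530628623) (l 141676780062031887))) (a (l 141460313644335119) (l 141495498025795599))))))))))), by decide +kernel⟩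

def k11_pm_123_a : ∃ t, chk3 f_pm_123_a t 35 7 1 = true :=
  ⟨(b (l 16521136) (b (b (l 16539952) (l 16549456)) (b (b (l 141683995618017295) (l 141734367006113807)) (b (c (l 141943755317264399) (l 141623866046660623)) (b (c (a (l 141942999401988111) (l 142045322728177679)) (a (l 141615138670624783) (l 141699938526576655))) (c (c (l 14) (b (a (l 141885756056158223) (l 141985674200203279)) (c (a (b (l 141938670069710863) (a (c (l 14) (a (l 141889673068675087) (l 141913518733115407))) (l 14))) (l 14)) (a (b (l 141855107158409231) (a (a (l 141827550641160207) (l 141850571671699471)) (a (a (l 141868301301153807) (l 141880258493104143)) (a (l 141892353124057103) (l 141994676427980815))))) (c (l 14) (a (b (l 141906234460323855) (a (l 141901286656688143) (l 141926437991432207))) (l 14))))))) (b (a (l 141811195341750287) (l 141897919343493135)) (c (b (a (l 141726807853957135) (l 141999005724557327)) (c (a (a (l 141844318168891407) (a (l 141787830767550479) (l 141810989237059599))) (a (a (l 141834697462497295)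 (l 141859024163356687)) (a (b (l 141882113913307151) (l 141975847280459791)) (a (l 141903073358905359) (l 142006015138267151))))) (a (a (l 141667846525124623) (l 141710727489601551)) (a (l 141755944916762639) (a (l 141791472895148047) (l 141815868315500559)))))) (a (a (l 141532812711477263) (l 141572326420873231)) (a (l 141749141645246479) (a (l 141646887072219151) (l 141669495785799695)))))))))))), by decide +kernel⟩

def k12_pm_123_a : ∃ t, chk3 f_pm_123_a t 18 6 1 = true :=
  ⟨(b (l 1) (l 16515536)), by decide +kernel⟩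

def k13_pm_123_a : ∃ t, chk3 f_pm_123_a t 36 7 1 = true :=
  ⟨(b (l 16535744) (c (b (l 16587264) (b (l 142093976123457551) (b (l 142032403497877519) (c (b (l 142192038801489935) (a (a (l 14) (b (l 142406649812402319) (b (l 142422661453840527) (c (a (l 142483821802717327) (l 142525259654561935)) (l 14))))) (b (l 142530619770519695) (b (l 142186060231573647) (a (b (l 142153212402008207) (c (l 142589031318945935) (a (l 14) (l 142468840926150799)))) (c (l 142666134606938255) (a (l 142507117702889615) (l 142547524762402959)))))))) (l 14))))) (b (l 16558920) (b (l 141729281751023631) (b (l 141804735754862607) (a (b (l 141794084233297935) (b (l 141993989196021775) (b (a (l 141978870950330383) (l 142029929534210063)) (a (a (c (c (c (l 14) (l 141912144330588175)) (l 141840882211258383)) (l 141695609193545743)) (c (c (l 14) (l 141866583301931023)) (l 141899637325971471))) (c (b (l 141953376025313295) (c (l 14) (a (l 141984712089387023) (a (l 141914824386510863) (l 141928499565740047))))) (a (l 141924238904770575)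 (a (l 141762885578063887) (l 141955781152423951)))))))) (b (l 141898056827207695) (b (l 142055149556449295) (a (b (l 142060990750883855) (c (a (c (l 14) (c (l 14) (l 141922246090407951))) (l 14)) (c (a (l 141846242326446095) (l 141873317806931983)) (l 141756288504315919)))) (c (l 14) (a (c (a (l 141890428960800783) (l 141994470252003343)) (l 141792503677468687)) (c (c (l 14) (l 141899293774168079)) (l 141819579157938191))))))))))))), by decide +kernel⟩

def k14_pm_123_a : ∃ t, chk3 f_pm_123_a t 37 7 1 = true :=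
  ⟨(b (l 16553296) (b (l 16586976) (b (l 142152112799465487) (b (a (l 142182967854317583) (l 142167299842899983)) (c (b (a (l 142521754948960271) (l 142676992274464911)) (b (a (c (l 142688880753557647) (l 142233820317188111)) (l 142166406525681807)) (a (c (c (a (l 142738771106562191) (l 142814706141806735)) (a (a (l 142582228104151183) (l 142621741810286735)) (l 142680015936897167))) (c (a (a (l 14) (a (l 142473720024809615) (l 142493854835081359))) (a (l 142523816516141199) (l 142563330238382223))) (l 14))) (c (a (l 142822608879665295) (l 142895795135316111)) (b (l 142227360631832719) (a (c (l 142626758305366159) (a (l 14) (l 142510416204611727))) (c (l 142702899520536719) (a (l 142549517615267983) (l 142588069248549007))))))))) (c (l 14) (b (l 141966845034577935) (a (b (l 141929942666838031) (b (l 142065113880395791) (a (a (c (a (l 141996188250325007) (l 14)) (l 141850777808027663)) (c (l 14) (l 141879296397819919))) (b (l 141977015519920143) (c (l 14) (a (l 142000380123381775) (a (l 141932760163696655)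 (l 141947878452232207)))))))) (a (b (l 142020995995467791) (b (l 142033296784834575) (b (l 142129572773281807) (l 14)))) (l 14)))))))))), by decide +kernel⟩

def k15_pm_123_a : ∃ t, chk3 f_pm_123_a t 19 3 1 = true :=
  ⟨(b (b (l 16526488) (l 16552392)) (b (b (l 16579744) (l 16602752)) (b (a (l 16594152) (l 16598832)) (b (a (a (l 142393180766814223) (l 142544501081456655)) (b (l 16595064) (a (l 142722965595455503) (l 142859167622316047)))) (a (b (a (l 142143935248629775) (l 142293125259018255)) (c (a (b (l 142824739175579791) (c (a (l 142957299077513359) (l 143026980639195279)) (a (b (l 142686475558748303) (a (l 142687643747827855) (l 142724821034254479))) (a (l 142751690332586127) (l 142788042963665039))))) (b (l 142965201810784399) (a (c (l 143094875494137999) (a (l 142823914536845455) (l 142859305073590415))) (c (l 143161052361851023) (l 142911600561651855))))) (c (b (a (l 142428296426422287) (l 142580235216355471)) (b (a (l 142277732059201679) (l 142249007344681103)) (a (c (a (c (a (l 142520655425437839)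 (l 142559069619732623)) (l 14)) (a (l 142563811263053967) (l 142601538262450319))) (l 14)) (a (c (a (l 142638784225427599) (l 142675617871446159)) (c (a (l 142539965596303503) (l 142577486437220495)) (l 14))) (c (l 142729974987128975) (a (l 142581953181171855) (l 142618786848686223))))))) (l 14)))) (b (a (c (l 143043816903934095) (l 142540446624776207)) (l 142389744892018767)) (a (b (c (l 143098655058034831) (l 142596934046777359)) (c (c (l 143257122207154255) (a (l 142979770337509519) (l 143046222083162255))) (b (c (l 142753339609841807) (l 142136169933586575)) (c (c (a (l 142800893499621519) (l 142870094024851599)) (a (a (l 142655208177778831) (l 142691217189912719)) (l 142744337354784911))) (c (a (c (a (l 142558038816620687) (l 142594735023669391)) (l 14)) (a (l 142598926911193231) (l 142634935923343503))) (l 14)))))) (a (b (l 142231277784596559) (c (l 143050826326769743) (b (l 142731899123925135) (c (l 142875797696659599) (b (l 142619955072106639) (a (c (l 142675411702448271) (a (l 142538728634253455)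 (l 142556939298783375))) (c (l 142710527361237135) (l 142583946057891983)))))))) (b (l 142296561298931791) (c (l 143112124110717007) (b (l 142800549893243023) (c (l 142942524363227279) (c (l 142757668930371727) (a (l 142614732388696207) (l 142649985486454927))))))))))))))), by decide +kernel⟩

def k16_pm_123_a : ∃ t, chk3 f_pm_123_a t 5 2 1 = true :=
  ⟨(a (a (b (l 16565712) (l 16565832)) (b (l 16618512) (l 16620208))) (b (l 16681072) (a (l 16664320) (l 16698976)))), by decide +kernel⟩

def k17_pm_123_a : ∃ t, chk3 f_pm_123_a t 10 6 1 = true :=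
  ⟨(a (b (l 16583784) (l 16609064)) (l 16628544)), by decide +kernel⟩

def k18_pm_123_a : ∃ t, chk3 f_pm_123_a t 10 14 1 = true :=
  ⟨(a (a (l 16631352) (l 16657752)) (b (l 16682632) (l 16700608))), by decide +kernel⟩

def k19_pm_123_a : ∃ t, chk3 f_pm_123_a t 20 30 1 = true :=
  ⟨(a (c (l 16691744) (l 16639872)) (c (l 16713904) (l 16666736))), by decide +kernel⟩

def k20_pm_123_a : ∃ t, chk3 f_pm_123_a t 20 62 1 = true :=
  ⟨(a (c (a (l 16705568) (l 16716792)) (a (l 142721385035431951) (b (l 16663408) (l 16670480)))) (c (l 16732136) (a (l 16679648) (l 16691384)))), by decide +kernel⟩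

def k21_pm_123_a : ∃ t, chk3 f_pm_123_a t 20 63 1 = true :=
  ⟨(a (a (b (a (l 143029729396686927) (b (l 143080513098924111) (c (l 143345151863603279) (l 142882600961310863)))) (c (a (b (l 143317732788453455) (c (l 143470496219414735) (a (b (l 143212317087301775) (l 143231764703133839)) (l 143257534510956623)))) (b (l 143383703497474127) (l 143424797709123663))) (a (a (b (l 142824945310875791) (b (l 142673075273302159) (c (a (l 142984511970902159) (l 143003684708237455)) (a (b (l 142734854057476239) (c (l 142806597206589583) (a (l 142632393305440399) (l 142687987363987599)))) (b (l 142755263745704079) (c (l 142827350492119183) (l 142704342602219663))))))) (b (l 142862878469013647) (b (c (l 143012137204826255) (l 142771275386142863)) (b (l 142908370771591311) (c (l 143038731647287439) (c (l 142858824017739919) (a (l 142726126680031375) (l 142747704599380111)))))))) (b (b (l 142911600586326159) (l 142932147713769615)) (b (l 142953038438629519) (c (b (l 143086354252349583) (l 143096868334239887))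 (c (a (l 142894626871017615) (l 142934965210628239)) (b (l 142790035803996303) (b (l 142798007264788623) (a (c (l 142812507078328463) (a (l 142741313685635215) (l 142762616727027855))) (c (l 142853876210303119) (c (l 142809071101837455) (a (l 142768595321847951) (l 142789486046314639)))))))))))))) (b (a (c (l 143392430871068751) (l 142941012526186639)) (l 143240492068651087)) (c (b (l 143484721144528975) (c (l 143633017807749327) (l 143415314412208335))) (b (l 143039143956775055) (b (c (l 143182492815917199) (l 142954481542054031)) (c (a (l 143166343693680783) (l 143237812004290639)) (c (a (a (l 142974410196910223) (l 143013030549323919)) (b (l 143064364006965391) (l 143074190894022799))) (b (l 142911738017890447) (a (b (l 142879714736455823) (a (c (l 142894283269439631) (c (l 142850027916918927) (a (l 142810170612318351) (l 142830580300382351)))) (c (l 142933728255770767) (a (l 142865489801134223) (l 142885349733286031))))) (a (a (l 142931460500521103) (l 142950701968015503)) (l 142979220534214799)))))))))))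 (c (b (l 143614119938703567) (b (l 143669095530152143) (a (c (l 143752246118695119) (l 143543201422131407)) (l 143761179601649871)))) (b (a (l 143128066973384783) (l 143263581804331087)) (b (a (l 143183867199062095) (l 143315808616628303)) (a (a (c (l 143296567166468175) (b (l 143066700466552975) (a (a (l 143058660286808207) (l 143076802231730319)) (l 143103602832212111)))) (c (l 143362125558186191) (a (l 143129303920672911) (l 143163663664873615)))) (c (l 143454896845816015) (a (l 143213622732963919) (l 143277463137730639)))))))), by decide +kernel⟩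

def k22_pm_123_a : ∃ t, chk3 f_pm_123_a t 21 15 1 = true :=
  ⟨(a (a (b (l 16706336) (b (l 16723808) (b (l 143584364386975823) (c (l 143847010284437711) (b (l 143435586684878927) (c (l 143568490181394639) (l 143367416948211791))))))) (b (l 16716032) (b (l 16732728) (b (l 143688680570011727) (c (l 143941224702279951) (a (l 143533374517346511) (l 143584089499893967))))))) (b (l 16729344) (a (b (l 16740856) (c (l 143995787974902031) (b (l 16728848) (b (l 143640920516591823) (l 143669370385662159))))) (b (l 16748200) (b (l 143867694837055695) (c (l 144103265254965519) (l 143742281762930895))))))), by decide +kernel⟩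

def k23_pm_123_a : ∃ t, chk3 f_pm_123_a t 11 3 1 = true :=
  ⟨(b (b (a (l 16679480) (l 16711760)) (a (l 16699552) (l 16727864))) (b (a (b (l 16718760) (l 16733824)) (a (l 16745552) (l 16755416))) (b (a (a (l 16744080) (l 16756464)) (a (l 16766848) (l 16775424))) (a (a (c (b (l 16776824) (a (l 144145459019972879) (l 144210124058558799))) (b (l 16739792) (b (l 16747080) (a (l 143822271248220431) (l 143895594943447311))))) (b (l 16769672) (a (b (l 16774216) (c (l 16797232) (l 143962459007041807))) (b (l 16779464) (b (l 16783216) (a (l 144182979854614863) (l 144209093217894735))))))) (b (a (l 16779432) (b (l 16785944) (l 16790752))) (b (a (c (l 16802872) (l 16770720)) (c (l 16810584) (l 16781128))) (a (a (c (l 16805880) (a (l 16771640) (l 16774328))) (b (l 16792640) (c (l 16811216) (a (l 16778312) (l 16781096))))) (b (a (l 16776448) (c (l 16816576) (l 16787848))) (c (a (l 16815416) (l 16819440)) (b (a (l 16784640) (l 16790032)) (a (c (l 16793448) (a (l 16777256) (b (l 16779928) (l 16780664))))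 (c (l 16798544) (a (l 16783152) (l 16786024)))))))))))))), by decide +kernel⟩

def k24_pm_123_a : ∃ t, chk3 f_pm_123_a t 3 2 1 = true :=
  ⟨(a (a (b (a (l 16720552) (l 16733416)) (a (l 16721352) (l 16732720))) (a (b (l 16739904) (l 16737136)) (b (l 16741784) (l 16739936)))) (a (a (b (l 16744864) (l 16743312)) (b (l 16749472) (l 16748208))) (a (b (a (l 16757064) (l 16765936)) (a (l 16751224) (b (l 16756496) (l 16754312)))) (a (b (a (l 16764440) (l 4)) (a (l 16764872) (l 16766056))) (a (b (l 4) (l 16871024)) (l 4)))))), by decide +kernel⟩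

def k25_pm_123_a : ∃ t, chk3 f_pm_123_a t 6 3 1 = true :=
  ⟨(b (b (a (b (l 16734216) (l 16739240)) (a (l 16744928) (l 16748656))) (a (a (l 16745016) (l 16752568)) (a (l 16759848) (l 16765480)))) (a (b (a (a (l 16761304) (l 16766704)) (a (l 16771680) (l 16776400))) (b (a (a (l 16782368) (l 16788512)) (b (l 16793824) (l 16803968))) (a (b (a (l 16795984) (l 16803720)) (b (a (a (l 16802072) (l 16806152)) (l 16812416)) (a (a (c (b (l 16820336) (l 16823296)) (b (l 16792840) (a (c (l 16801440) (l 16782744)) (l 16797112)))) (b (l 16810632) (c (l 16827048) (a (l 16799576) (l 16802064))))) (c (a (l 16829232) (l 16832824)) (a (b (l 16802544) (c (l 16811896) (l 16799808))) (a (l 16807824) (l 16810208))))))) (b (a (l 16811416) (l 16818600)) (b (a (l 16820408) (l 16827568)) (a (c (l 16837872) (a (a (l 16812536) (l 16814824)) (b (l 16816480) (l 16819800)))) (c (l 16843712) (b (l 16822704) (a (l 16824000) (l 16827912)))))))))) (b (a (b (l 16776176) (l 16792040)) (b (l 16784528) (l 16800880))) (a (b (b (l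 16806000) (l 16816424)) (b (a (l 16824800) (l 16829912)) (a (b (l 16833656) (c (l 16848424) (a (l 16829912) (l 16833240)))) (b (l 16838544) (b (l 16842992) (a (l 16844952) (l 16846912))))))) (b (b (l 16814632) (l 16824768)) (b (a (l 16833736) (l 16836088)) (a (b (l 16842056) (c (l 16853720) (a (l 16841168) (l 16842976)))) (b (l 16843840) (a (l 16848904) (l 16849056)))))))))), by decide +kernel⟩

def k26_pm_123_a : ∃ t, chk3 f_pm_123_a t 7 3 1 = true :=
  ⟨(a (b (b (a (l 16753488) (l 16757968)) (a (l 16770936) (l 16774384))) (b (a (b (l 16790088) (l 16805760)) (b (l 16791344) (l 16847312))) (b (a (a (l 16822648) (l 16822800)) (b (l 16815696) (l 16859288))) (a (a (b (l 16836672) (b (l 16843696) (a (l 16848680) (l 16847832)))) (b (l 16835432) (a (l 16844416) (l 16842544)))) (a (b (l 16831816) (b (l 16836928) (l 16840112))) (b (l 16825800) (b (l 16829784) (l 16832256)))))))) (a (b (a (l 16767280) (b (b (l 16756880) (l 16761552)) (l 16771792))) (b (b (l 16786512) (l 16796536)) (b (b (l 16803952)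 (l 16808488)) (b (a (l 16817448) (l 16765224)) (a (a (l 16824032) (l 16818784)) (a (a (l 16814560) (l 16811640)) (a (l 16808624) (l 16813408)))))))) (a (b (b (a (l 16759624) (l 16763184)) (a (l 16769264) (b (l 16764632) (l 16766376)))) (b (b (l 16777896) (l 16784832)) (b (l 16791184) (b (l 16795336) (b (l 16796968) (a (b (l 16800984) (l 16804088)) (b (l 16794288) (a (l 16796392) (l 16792944))))))))) (b (a (b (l 16768216) (a (l 16766472) (l 16770824))) (a (b (l 4) (l 16771408)) (l 4))) (b (b (a (a (l 16773240) (l 16769568)) (a (a (l 16771192) (l 16772424)) (a (l 16774056) (l 4)))) (a (l 16777504) (a (b (l 16813048) (l 6)) (l 6)))) (a (b (l 16803640) (a (a (b (l 16788088) (b (l 16789424) (l 16790160))) (l 6)) (l 6))) (l 6))))))), by decide +kernel⟩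

theorem s27_pm_123_a : ∃ t, chk3 f_pm_123_a t 3 3 1 = true := ex3_a k25_pm_123_a k26_pm_123_a

theorem s28_pm_123_a : ∃ t, chk3 f_pm_123_a t 3 1 1 = true := ex3_b k24_pm_123_a s27_pm_123_a

theorem s29_pm_123_a : ∃ t, chk3 f_pm_123_a t 20 31 1 = true := ex3_b k20_pm_123_a k21_pm_123_a

theorem s30_pm_123_a : ∃ t, chk3 f_pm_123_a t 20 15 1 = true := ex3_b k19_pm_123_a s29_pm_123_a

theorem s31_pm_123_a : ∃ t, chk3 f_pm_123_a t 10 15 1 = true := ex3_a s30_pm_123_a k22_pm_123_a

theorem s32_pm_123_a : ∃ t, chk3 f_pm_123_a t 10 7 1 = true := ex3_b k18_pm_123_a s31_pm_123_a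

theorem s33_pm_123_a : ∃ t, chk3 f_pm_123_a t 10 3 1 = true := ex3_b k17_pm_123_a s32_pm_123_a

theorem s34_pm_123_a : ∃ t, chk3 f_pm_123_a t 5 3 1 = true := ex3_a s33_pm_123_a k23_pm_123_a

theorem s35_pm_123_a : ∃ t, chk3 f_pm_123_a t 5 1 1 = true := ex3_b k16_pm_123_a s34_pm_123_a

theorem s36_pm_123_a : ∃ t, chk3 f_pm_123_a t 18 7 1 = true := ex3_a k13_pm_123_a k14_pm_123_a

theorem s37_pm_123_a : ∃ t, chk3 f_pm_123_a t 18 3 1 = true := ex3_b k12_pm_123_a s36_pm_123_a

theorem s38_pm_123_a : ∃ t, chk3 f_pm_123_a t 9 3 1 = true := ex3_a s37_pm_123_a k15_pm_123_a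

theorem s39_pm_123_a : ∃ t, chk3 f_pm_123_a t 17 7 1 = true := ex3_a k10_pm_123_a k11_pm_123_a

theorem s40_pm_123_a : ∃ t, chk3 f_pm_123_a t 67 127 1 = true := ex3_b k8_pm_123_a k9_pm_123_a

theorem s41_pm_123_a : ∃ t, chk3 f_pm_123_a t 67 63 1 = true := ex3_b k7_pm_123_a s40_pm_123_a

theorem s42_pm_123_a : ∃ t, chk3 f_pm_123_a t 67 31 1 = true := ex3_b k6_pm_123_a s41_pm_123_a

theorem s43_pm_123_a : ∃ t, chk3 f_pm_123_a t 67 15 1 = true := ex3_b k5_pm_123_a s42_pm_123_a

theorem s44_pm_123_a : ∃ t, chk3 f_pm_123_a t 33 15 1 = true := ex3_a k4_pm_123_a s43_pm_123_a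

theorem s45_pm_123_a : ∃ t, chk3 f_pm_123_a t 16 15 1 = true := ex3_a k3_pm_123_a s44_pm_123_a

theorem s46_pm_123_a : ∃ t, chk3 f_pm_123_a t 16 7 1 = true := ex3_b k2_pm_123_a s45_pm_123_a

theorem s47_pm_123_a : ∃ t, chk3 f_pm_123_a t 8 7 1 = true := ex3_a s46_pm_123_a s39_pm_123_a

theorem s48_pm_123_a : ∃ t, chk3 f_pm_123_a t 8 3 1 = true := ex3_b k1_pm_123_a s47_pm_123_a

theorem s49_pm_123_a : ∃ t, chk3 f_pm_123_a t 4 3 1 = true := ex3_a s48_pm_123_a s38_pm_123_a

theorem s50_pm_123_a : ∃ t, chk3 f_pm_123_a t 4 1 1 = true := ex3_b k0_pm_123_a s49_pm_123_a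

theorem s51_pm_123_a : ∃ t, chk3 f_pm_123_a t 2 1 1 = true := ex3_a s50_pm_123_a s35_pm_123_a

theorem s52_pm_123_a : ∃ t, chk3 f_pm_123_a t 1 1 1 = true := ex3_a s51_pm_123_a s28_pm_123_a

theorem c_pm_123_a : CertB 536870912 536870912 0 536870912 587336777 62277027 3 eng mog cd0q1 cd4q2a pd3 true true false .npn 1 2 3
    ndB0q1 ndB4q2a pcB3 cut_pm_123_a xt_pm_123_a :=
  certB2 (fam := true) (s1 := true) (s2 := false) (a := 1) (b := 2) (c := 3) (cn := .npn) (n1 := ndB0q1) (n2 := ndB4q2a) (pc := pcB3) (cut := cut_pm_123_a) (xt := xt_pm_123_a) (P1 := 536870912) (W1 := 536870912) (P2 := 0) (W2 := 536870912) (P3 := 587336777) (W3 := 62277027) (N0 := 3) (En := eng) (mo := mog) (C1 := cd0q1) (C2 := cd4q2a) (C3 := pd3)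
    rfl (fun _ => rfl) s52_pm_123_a

noncomputable def cut_pm_123_b : Cut := Cut.of [[⟨0, 1, 0, 67108864⟩, ⟨1, 1, 0, 67108864⟩, ⟨2, 2, 0, 16777216⟩], [⟨0, 0, 1, 20971520⟩, ⟨1, 1, 0, 29360128⟩, ⟨2, 1, 1, 20971520⟩]]

noncomputable def f_pm_123_b : ℕ → ℕ → ℕ → ℕ → Bool := onCell 1610612736 536870912 1239849684 370763052 587336777 62277027
    (rowB 3 eng mog cd0q1 cd4q2b pd3 2 true true false .npn 1 2 3 (qsf 536870912 536870912 1239849684 370763052 3) ndB0q1 ndB4q2b pcB3 cut_pm_123_b Ext.none)

def k0_pm_123_b : ∃ t, chk3 f_pm_123_b t 1 1 1 = true :=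
  ⟨(a (b (a (l 1) (a (b (b (a (l 16564400) (l 16614592)) (l 1)) (l 1)) (b (b (a (l 16656176) (l 16689912)) (a (l 16645976) (l 16676312))) (b (a (l 1) (l 16681072)) (l 1))))) (l 1)) (a (b (b (a (b (a (l 16714056) (l 16729272)) (l 16583712)) (b (l 16740528) (l 16737464))) (a (c (l 16777512) (l 16820712)) (a (l 16756344) (l 16765216)))) (a (l 1) (b (a (l 16776792) (l 16771368)) (l 1)))) (a (b (b (a (b (l 16746904) (l 16760632)) (b (l 16757192) (l 16764192))) (a (l 16760192) (l 16829488))) (b (a (l 16755384) (l 16732800)) (a (l 1) (l 4)))) (b (a (b (a (b (l 16764304) (l 16752016)) (b (l 16844472) (l 16749080))) (b (l 16801504) (l 4))) (b (l 4) (l 4))) (l 4))))), by decide +kernel⟩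

theorem c_pm_123_b : CertB 536870912 536870912 1239849684 370763052 587336777 62277027 3 eng mog cd0q1 cd4q2b pd3 true true false .npn 1 2 3
    ndB0q1 ndB4q2b pcB3 cut_pm_123_b Ext.none :=
  certB2 (fam := true) (s1 := true) (s2 := false) (a := 1) (b := 2) (c := 3) (cn := .npn) (n1 := ndB0q1) (n2 := ndB4q2b) (pc := pcB3) (cut := cut_pm_123_b) (xt := Ext.none) (P1 := 536870912) (W1 := 536870912) (P2 := 1239849684) (W2 := 370763052) (P3 := 587336777) (W3 := 62277027) (N0 := 3) (En := eng) (mo := mog) (C1 := cd0q1) (C2 := cd4q2b) (C3 := pd3)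
    rfl (fun _ => rfl) k0_pm_123_b

noncomputable def f_pm_133 : ℕ → ℕ → ℕ → ℕ → Bool := onCell 536870912 536870912 1610612736 536870912 587336777 62277027
    (rowB 3 eng mog cd0q1 cd4q3 pd3 0 true true false .dn 1 3 3 (qsf 536870912 536870912 1610612736 536870912 3) ndB0q1 ndB4q3 pcB3 Cut.none Ext.none)

def k0_pm_133 : ∃ t, chk3 f_pm_133 t 1 1 1 = true :=
  ⟨(a (l 4) (l 2)), by decide +kernel⟩

theorem c_pm_133 : CertB 536870912 536870912 1610612736 536870912 587336777 62277027 3 eng mog cd0q1 cd4q3 pd3 true true false .dn 1 3 3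
    ndB0q1 ndB4q3 pcB3 Cut.none Ext.none :=
  certB0 (fam := true) (s1 := true) (s2 := false) (a := 1) (b := 3) (c := 3) (cn := .dn) (n1 := ndB0q1) (n2 := ndB4q3) (pc := pcB3) (cut := Cut.none) (xt := Ext.none) (P1 := 536870912) (W1 := 536870912) (P2 := 1610612736) (W2 := 536870912) (P3 := 587336777) (W3 := 62277027) (N0 := 3) (En := eng) (mo := mog) (C1 := cd0q1) (C2 := cd4q3) (C3 := pd3)
    rfl k0_pm_133

noncomputable def cut_pm_202 : Cut := Cut.of [[⟨0, 1, 0, 67108864⟩, ⟨1, 0, 0, 67108864⟩, ⟨2, 1, 0, 67108864⟩]]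

noncomputable def f_pm_202 : ℕ → ℕ → ℕ → ℕ → Bool := onCell 0 536870912 0 536870912 587336777 62277027
    (rowB 3 eng mog cd0q2 cd4q0 pd2 0 true true false .pp 2 0 2 (qsf 0 536870912 0 536870912 2) ndB0q2 ndB4q0 pcB2 cut_pm_202 Ext.none)

def k0_pm_202 : ∃ t, chk3 f_pm_202 t 2 4 1 = true :=
  ⟨(b (a (b (a (b (b (l 16455872) (l 16458112)) (l 16462888)) (b (a (b (l 16461336) (l 16463120)) (b (c (l 16469880) (l 16465016)) (l 16469728))) (a (l 16466472) (l 16472088)))) (a (l 16474648) (l 16499208))) (b (a (b (c (b (a (l 16479392) (l 16490936)) (a (l 16479640) (l 16491048))) (b (a (l 16473144) (l 16483520)) (a (l 16476048) (l 16486288)))) (a (l 16543000) (l 16574528))) (b (b (a (c (l 16504480) (l 16496432)) (a (b (l 16512144) (l 16512744)) (b (l 16520480) (l 16521056)))) (a (c (l 16504344) (l 16498928)) (c (l 16519800) (l 16514040)))) (b (a (l 16503024) (l 16538928)) (l 16594592)))) (a (b (l 16551856) (l 16493616)) (a (b (l 16504576) (l 16507480)) (b (l 16517528) (l 16518960)))))) (a (a (b (l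 16495760) (a (l 16523784) (l 16520448))) (b (l 16495088) (l 16517904))) (a (b (l 16503288) (l 16521184)) (b (l 16519080) (l 16531024))))), by decide +kernel⟩

def k1_pm_202 : ∃ t, chk3 f_pm_202 t 6 4 1 = true :=
  ⟨(b (b (a (a (b (b (b (a (l 16529432) (l 16539072)) (l 16534688)) (c (l 16537632) (l 16531408))) (b (l 16535224) (l 16534464))) (b (b (b (a (l 16549448) (l 16560608)) (l 16555192)) (c (l 16557864) (l 16551576))) (b (l 16554848) (l 16553640)))) (a (b (b (b (a (l 16572568) (l 16585344)) (l 16578800)) (c (l 16580824) (l 16575056))) (l 16618680)) (b (b (a (b (l 16599000) (l 16598560)) (b (l 16613488) (l 16612872))) (b (l 16605120) (l 16604416))) (l 16601968)))) (a (b (a (b (a (b (l 16528984) (l 16528544)) (l 16537032)) (a (l 16528144) (a (l 16533784) (l 16590176)))) (b (l 16550744) (a (b (l 16544400) (l 16585520)) (l 16552776)))) (a (l 16531704) (b (a (l 16542592) (b (l 16551144) (l 16550264))) (l 16629384)))) (b (a (l 16569000) (l 16590776)) (a (b (l 16564040) (a (c (l 16647304) (l 16552216))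 (l 16565656))) (l 16581688))))) (a (b (a (l 16533960) (b (l 16544936) (l 16545720))) (l 16545328)) (b (a (b (a (l 16554720) (b (l 16584224) (l 16561312))) (l 16556864)) (a (b (b (l 16571672) (l 16569072)) (l 16566208)) (b (b (l 16580704) (b (l 16578168) (l 16576776))) (l 16573456)))) (a (l 16557720) (l 16567232))))), by decide +kernel⟩

def k2_pm_202 : ∃ t, chk3 f_pm_202 t 7 4 1 = true :=
  ⟨(b (a (b (b (b (a (b (a (l 16628816) (l 16645024)) (a (l 16628016) (l 16644040))) (a (b (l 6) (l 16660984)) (l 6))) (a (a (l 16626680) (l 16642432)) (b (l 16689600) (l 16667240)))) (a (l 16691880) (b (l 16662952) (l 16654344)))) (a (b (l 16615144) (l 16603312)) (b (l 16642256) (l 16627744)))) (b (a (b (l 6) (b (l 6) (l 16685912))) (l 6)) (a (b (a (l 16664176) (l 16679688)) (l 16654920)) (a (b (l 16695776) (l 16676864)) (b (l 6) (l 16692208)))))) (a (b (a (b (l 16593568) (a (c (l 16697040) (l 16698112)) (b (l 16592080) (l 16714496)))) (b (l 16615224) (l 16604848))) (a (b (l 16685344) (l 16577552)) (a (b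 (b (l 16740832) (l 16590656)) (l 16586944)) (b (b (l 16602912) (a (l 16597032) (l 16601232))) (l 16594328))))) (b (a (b (l 16639712) (l 16626536)) (b (l 16666872) (l 16651064))) (b (a (l 16615624) (l 16637432)) (a (a (b (a (l 16602224) (l 16606400)) (l 16600912)) (l 16611440)) (l 16626192)))))), by decide +kernel⟩

def k3_pm_202 : ∃ t, chk3 f_pm_202 t 1 5 1 = true :=
  ⟨(a (a (b (a (b (l 16551632) (l 16582648)) (b (a (l 16546752) (l 16544400)) (a (l 16576632) (l 16574336)))) (a (l 16626440) (b (l 16602480) (l 16629080)))) (b (a (b (l 16544176) (l 16571352)) (b (l 16547856) (l 16568992))) (a (b (a (l 16599400) (l 16597544)) (l 16622152)) (b (l 16593416) (l 16616904))))) (a (b (a (b (l 16555240) (l 16569448)) (b (l 16565816) (l 16573208))) (a (b (l 16588424) (l 16609296)) (b (l 16585504) (l 16602616)))) (b (a (b (a (l 16576488) (l 16586248)) (l 16582632)) (b (a (b (a (l 16596912) (l 16730344)) (l 16596936)) (b (a (b (l 16614632) (l 16716144)) (l 16621864)) (a (l 16607208) (b (a (l 16614432) (l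 16618600)) (l 16613744))))) (a (l 16594688) (l 16606200)))) (a (l 16594040) (a (l 16600592) (l 16608096)))))), by decide +kernel⟩

def k4_pm_202 : ∃ t, chk3 f_pm_202 t 1 3 1 = true :=
  ⟨(a (b (a (b (a (b (l 16674800) (l 16706424)) (l 16674640)) (a (l 16747584) (b (l 16723088) (l 16752056)))) (b (a (l 16703920) (b (l 16639824) (l 16663104))) (a (l 16723912) (l 16705640)))) (a (l 2) (b (a (l 2) (l 16938760)) (l 2)))) (b (a (b (a (l 16640624) (l 16630288)) (a (l 16687368) (l 16673368))) (b (a (b (l 16617648) (l 16636064)) (b (l 16621832) (l 16640760))) (a (l 16665168) (l 16733576)))) (a (b (a (l 16747144) (l 16725384)) (l 2)) (b (a (l 16712976) (l 16714208)) (a (l 16766128) (l 16758608)))))), by decide +kernel⟩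

theorem s5_pm_202 : ∃ t, chk3 f_pm_202 t 3 4 1 = true := ex3_a k1_pm_202 k2_pm_202

theorem s6_pm_202 : ∃ t, chk3 f_pm_202 t 1 4 1 = true := ex3_a k0_pm_202 s5_pm_202

theorem s7_pm_202 : ∃ t, chk3 f_pm_202 t 1 2 1 = true := ex3_b s6_pm_202 k3_pm_202

theorem s8_pm_202 : ∃ t, chk3 f_pm_202 t 1 1 1 = true := ex3_b s7_pm_202 k4_pm_202

theorem c_pm_202 : CertB 0 536870912 0 536870912 587336777 62277027 3 eng mog cd0q2 cd4q0 pd2 true true false .pp 2 0 2
    ndB0q2 ndB4q0 pcB2 cut_pm_202 Ext.none :=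
  certB0 (fam := true) (s1 := true) (s2 := false) (a := 2) (b := 0) (c := 2) (cn := .pp) (n1 := ndB0q2) (n2 := ndB4q0) (pc := pcB2) (cut := cut_pm_202) (xt := Ext.none) (P1 := 0) (W1 := 536870912) (P2 := 0) (W2 := 536870912) (P3 := 587336777) (W3 := 62277027) (N0 := 3) (En := eng) (mo := mog) (C1 := cd0q2) (C2 := cd4q0) (C3 := pd2)
    rfl s8_pm_202

noncomputable def f_pm_203 : ℕ → ℕ → ℕ → ℕ → Bool := onCell 0 536870912 1610612736 536870912 587336777 62277027
    (rowB 3 eng mog cd0q2 cd4q0 pd3 1 true true false .up 2 0 3 (qsf 0 536870912 0 536870912 3) ndB0q2 ndB4q0 pcB3 Cut.none Ext.none)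

def k0_pm_203 : ∃ t, chk3 f_pm_203 t 1 1 1 = true :=
  ⟨(b (b (a (b (a (b (l 16760216) (l 4)) (b (l 16756368) (l 16787040))) (a (l 4) (l 16808424))) (b (a (b (l 16750776) (l 16797888)) (b (l 16782096) (l 16849480))) (a (b (l 16840720) (l 16880496)) (l 16935528)))) (a (l 4) (a (l 2) (l 2)))) (l 2)), by decide +kernel⟩

theorem c_pm_203 : CertB 0 536870912 0 536870912 587336777 62277027 3 eng mog cd0q2 cd4q0 pd3 true true false .up 2 0 3
    ndB0q2 ndB4q0 pcB3 Cut.none Ext.none :=
  certB1 (fam := true) (s1 := true) (s2 := false) (a := 2) (b := 0) (c := 3) (cn := .up) (n1 := ndB0q2) (n2 := ndB4q0) (pc := pcB3) (cut := Cut.none) (xt := Ext.none) (P1 := 0) (W1 := 536870912) (P2 := 0) (W2 := 536870912) (P3 := 587336777) (W3 := 62277027) (N0 := 3) (En := eng) (mo := mog) (C1 := cd0q2) (C2 := cd4q0) (C3 := pd3)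
    rfl (fun _ => rfl) k0_pm_203

noncomputable def f_pm_213 : ℕ → ℕ → ℕ → ℕ → Bool := onCell 0 536870912 1610612736 536870912 587336777 62277027
    (rowB 3 eng mog cd0q2 cd4q1 pd3 1 true true false .pnn 2 1 3 (qsf 0 536870912 536870912 536870912 3) ndB0q2 ndB4q1 pcB3 Cut.none Ext.none)

def k0_pm_213 : ∃ t, chk3 f_pm_213 t 1 1 1 = true :=
  ⟨(a (b (b (b (l 1) (a (l 1) (b (l 1) (l 16699200)))) (l 4)) (l 4)) (b (b (b (a (l 1) (b (l 17006744) (l 16989232))) (a (b (l 16807760) (l 16785776)) (l 16934064))) (a (b (l 16759976) (l 4)) (b (l 16758112) (l 16804224)))) (b (b (a (l 4) (l 16932080)) (l 4)) (l 4)))), by decide +kernel⟩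

theorem c_pm_213 : CertB 0 536870912 536870912 536870912 587336777 62277027 3 eng mog cd0q2 cd4q1 pd3 true true false .pnn 2 1 3
    ndB0q2 ndB4q1 pcB3 Cut.none Ext.none :=
  certB1 (fam := true) (s1 := true) (s2 := false) (a := 2) (b := 1) (c := 3) (cn := .pnn) (n1 := ndB0q2) (n2 := ndB4q1) (pc := pcB3) (cut := Cut.none) (xt := Ext.none) (P1 := 0) (W1 := 536870912) (P2 := 536870912) (W2 := 536870912) (P3 := 587336777) (W3 := 62277027) (N0 := 3) (En := eng) (mo := mog) (C1 := cd0q2) (C2 := cd4q1) (C3 := pd3)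
    rfl (fun _ => rfl) k0_pm_213

noncomputable def f_mm_001 : ℕ → ℕ → ℕ → ℕ → Bool := onCell 0 536870912 0 536870912 587336777 62277027
    (rowB 3 eng mog cd0q0 cd4q0 pd1 0 true false false .up 0 0 1 (qsf 0 536870912 0 536870912 1) ndB0q0 ndB4q0 pcB1 Cut.none Ext.none)

def k0_mm_001 : ∃ t, chk3 f_mm_001 t 1 1 1 = true :=
  ⟨(l 4), by decide +kernel⟩

theorem c_mm_001 : CertB 0 536870912 0 536870912 587336777 62277027 3 eng mog cd0q0 cd4q0 pd1 true false false .up 0 0 1
    ndB0q0 ndB4q0 pcB1 Cut.none Ext.none :=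
  certB0 (fam := true) (s1 := false) (s2 := false) (a := 0) (b := 0) (c := 1) (cn := .up) (n1 := ndB0q0) (n2 := ndB4q0) (pc := pcB1) (cut := Cut.none) (xt := Ext.none) (P1 := 0) (W1 := 536870912) (P2 := 0) (W2 := 536870912) (P3 := 587336777) (W3 := 62277027) (N0 := 3) (En := eng) (mo := mog) (C1 := cd0q0) (C2 := cd4q0) (C3 := pd1)
    rfl k0_mm_001

noncomputable def f_mm_011 : ℕ → ℕ → ℕ → ℕ → Bool := onCell 0 536870912 536870912 536870912 587336777 62277027
    (rowB 3 eng mog cd0q0 cd4q1 pd1 0 true false false .pnn 0 1 1 (qsf 0 536870912 536870912 536870912 1) ndB0q0 ndB4q1 pcB1 Cut.none Ext.none)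

def k0_mm_011 : ∃ t, chk3 f_mm_011 t 1 1 1 = true :=
  ⟨(l 4), by decide +kernel⟩

theorem c_mm_011 : CertB 0 536870912 536870912 536870912 587336777 62277027 3 eng mog cd0q0 cd4q1 pd1 true false false .pnn 0 1 1
    ndB0q0 ndB4q1 pcB1 Cut.none Ext.none :=
  certB0 (fam := true) (s1 := false) (s2 := false) (a := 0) (b := 1) (c := 1) (cn := .pnn) (n1 := ndB0q0) (n2 := ndB4q1) (pc := pcB1) (cut := Cut.none) (xt := Ext.none) (P1 := 0) (W1 := 536870912) (P2 := 536870912) (W2 := 536870912) (P3 := 587336777) (W3 := 62277027) (N0 := 3) (En := eng) (mo := mog) (C1 := cd0q0) (C2 := cd4q1) (C3 := pd1)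
    rfl k0_mm_011

noncomputable def f_mm_012 : ℕ → ℕ → ℕ → ℕ → Bool := onCell 0 536870912 536870912 536870912 587336777 62277027
    (rowB 3 eng mog cd0q0 cd4q1 pd2 0 true false false .pnp 0 1 2 (qsf 0 536870912 536870912 536870912 2) ndB0q0 ndB4q1 pcB2 Cut.none Ext.none)

def k0_mm_012 : ∃ t, chk3 f_mm_012 t 1 1 1 = true :=
  ⟨(l 4), by decide +kernel⟩

theorem c_mm_012 : CertB 0 536870912 536870912 536870912 587336777 62277027 3 eng mog cd0q0 cd4q1 pd2 true false false .pnp 0 1 2
    ndB0q0 ndB4q1 pcB2 Cut.none Ext.none :=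
  certB0 (fam := true) (s1 := false) (s2 := false) (a := 0) (b := 1) (c := 2) (cn := .pnp) (n1 := ndB0q0) (n2 := ndB4q1) (pc := pcB2) (cut := Cut.none) (xt := Ext.none) (P1 := 0) (W1 := 536870912) (P2 := 536870912) (W2 := 536870912) (P3 := 587336777) (W3 := 62277027) (N0 := 3) (En := eng) (mo := mog) (C1 := cd0q0) (C2 := cd4q1) (C3 := pd2)
    rfl k0_mm_012

noncomputable def f_mm_022_a : ℕ → ℕ → ℕ → ℕ → Bool := onCell 0 536870912 0 536870912 587336777 62277027
    (rowB 3 eng mog cd0q0 cd4q2a pd2 0 true false false .pp 0 2 2 (qsf 0 536870912 0 536870912 2) ndB0q0 ndB4q2a pcB2 Cut.none Ext.none)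

def k0_mm_022_a : ∃ t, chk3 f_mm_022_a t 1 1 1 = true :=
  ⟨(l 5), by decide +kernel⟩

theorem c_mm_022_a : CertB 0 536870912 0 536870912 587336777 62277027 3 eng mog cd0q0 cd4q2a pd2 true false false .pp 0 2 2
    ndB0q0 ndB4q2a pcB2 Cut.none Ext.none :=
  certB0 (fam := true) (s1 := false) (s2 := false) (a := 0) (b := 2) (c := 2) (cn := .pp) (n1 := ndB0q0) (n2 := ndB4q2a) (pc := pcB2) (cut := Cut.none) (xt := Ext.none) (P1 := 0) (W1 := 536870912) (P2 := 0) (W2 := 536870912) (P3 := 587336777) (W3 := 62277027) (N0 := 3) (En := eng) (mo := mog) (C1 := cd0q0) (C2 := cd4q2a) (C3 := pd2)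
    rfl k0_mm_022_a

noncomputable def f_mm_022_b : ℕ → ℕ → ℕ → ℕ → Bool := onCell 0 536870912 1239849684 370763052 587336777 62277027
    (rowB 3 eng mog cd0q0 cd4q2b pd2 0 true false false .pp 0 2 2 (qsf 0 536870912 1239849684 370763052 2) ndB0q0 ndB4q2b pcB2 Cut.none Ext.none)

def k0_mm_022_b : ∃ t, chk3 f_mm_022_b t 1 1 1 = true :=
  ⟨(l 5), by decide +kernel⟩

theorem c_mm_022_b : CertB 0 536870912 1239849684 370763052 587336777 62277027 3 eng mog cd0q0 cd4q2b pd2 true false false .pp 0 2 2
    ndB0q0 ndB4q2b pcB2 Cut.none Ext.none :=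
  certB0 (fam := true) (s1 := false) (s2 := false) (a := 0) (b := 2) (c := 2) (cn := .pp) (n1 := ndB0q0) (n2 := ndB4q2b) (pc := pcB2) (cut := Cut.none) (xt := Ext.none) (P1 := 0) (W1 := 536870912) (P2 := 1239849684) (W2 := 370763052) (P3 := 587336777) (W3 := 62277027) (N0 := 3) (En := eng) (mo := mog) (C1 := cd0q0) (C2 := cd4q2b) (C3 := pd2)
    rfl k0_mm_022_b

noncomputable def f_mm_023_a : ℕ → ℕ → ℕ → ℕ → Bool := onCell 0 536870912 0 536870912 587336777 62277027
    (rowB 3 eng mog cd0q0 cd4q2a pd3 0 true false false .up 0 2 3 (qsf 0 536870912 0 536870912 3) ndB0q0 ndB4q2a pcB3 Cut.none Ext.none)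

def k0_mm_023_a : ∃ t, chk3 f_mm_023_a t 1 1 1 = true :=
  ⟨(l 5), by decide +kernel⟩

theorem c_mm_023_a : CertB 0 536870912 0 536870912 587336777 62277027 3 eng mog cd0q0 cd4q2a pd3 true false false .up 0 2 3
    ndB0q0 ndB4q2a pcB3 Cut.none Ext.none :=
  certB0 (fam := true) (s1 := false) (s2 := false) (a := 0) (b := 2) (c := 3) (cn := .up) (n1 := ndB0q0) (n2 := ndB4q2a) (pc := pcB3) (cut := Cut.none) (xt := Ext.none) (P1 := 0) (W1 := 536870912) (P2 := 0) (W2 := 536870912) (P3 := 587336777) (W3 := 62277027) (N0 := 3) (En := eng) (mo := mog) (C1 := cd0q0) (C2 := cd4q2a) (C3 := pd3)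
    rfl k0_mm_023_a

noncomputable def f_mm_023_b : ℕ → ℕ → ℕ → ℕ → Bool := onCell 0 536870912 1239849684 370763052 587336777 62277027
    (rowB 3 eng mog cd0q0 cd4q2b pd3 0 true false false .up 0 2 3 (qsf 0 536870912 1239849684 370763052 3) ndB0q0 ndB4q2b pcB3 Cut.none Ext.none)

def k0_mm_023_b : ∃ t, chk3 f_mm_023_b t 1 1 1 = true :=
  ⟨(l 5), by decide +kernel⟩

theorem c_mm_023_b : CertB 0 536870912 1239849684 370763052 587336777 62277027 3 eng mog cd0q0 cd4q2b pd3 true false false .up 0 2 3
    ndB0q0 ndB4q2b pcB3 Cut.none Ext.none :=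
  certB0 (fam := true) (s1 := false) (s2 := false) (a := 0) (b := 2) (c := 3) (cn := .up) (n1 := ndB0q0) (n2 := ndB4q2b) (pc := pcB3) (cut := Cut.none) (xt := Ext.none) (P1 := 0) (W1 := 536870912) (P2 := 1239849684) (W2 := 370763052) (P3 := 587336777) (W3 := 62277027) (N0 := 3) (En := eng) (mo := mog) (C1 := cd0q0) (C2 := cd4q2b) (C3 := pd3)
    rfl k0_mm_023_b

noncomputable def f_mm_033 : ℕ → ℕ → ℕ → ℕ → Bool := onCell 0 536870912 1610612736 536870912 587336777 62277027
    (rowB 3 eng mog cd0q0 cd4q3 pd3 0 true false false .pnn 0 3 3 (qsf 0 536870912 1610612736 536870912 3) ndB0q0 ndB4q3 pcB3 Cut.none Ext.none)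

def k0_mm_033 : ∃ t, chk3 f_mm_033 t 1 1 1 = true :=
  ⟨(l 4), by decide +kernel⟩

theorem c_mm_033 : CertB 0 536870912 1610612736 536870912 587336777 62277027 3 eng mog cd0q0 cd4q3 pd3 true false false .pnn 0 3 3
    ndB0q0 ndB4q3 pcB3 Cut.none Ext.none :=
  certB0 (fam := true) (s1 := false) (s2 := false) (a := 0) (b := 3) (c := 3) (cn := .pnn) (n1 := ndB0q0) (n2 := ndB4q3) (pc := pcB3) (cut := Cut.none) (xt := Ext.none) (P1 := 0) (W1 := 536870912) (P2 := 1610612736) (W2 := 536870912) (P3 := 587336777) (W3 := 62277027) (N0 := 3) (En := eng) (mo := mog) (C1 := cd0q0) (C2 := cd4q3) (C3 := pd3)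
    rfl k0_mm_033

noncomputable def cut_mm_101 : Cut := Cut.of [[⟨0, 1, 0, 67108864⟩, ⟨1, 0, 0, 67108864⟩, ⟨2, 1, 0, 67108864⟩]]

noncomputable def f_mm_101 : ℕ → ℕ → ℕ → ℕ → Bool := onCell 536870912 536870912 0 536870912 587336777 62277027
    (rowB 3 eng mog cd0q1 cd4q0 pd1 0 true false false .npn 1 0 1 (qsf 536870912 536870912 0 536870912 1) ndB0q1 ndB4q0 pcB1 cut_mm_101 Ext.none)

def k0_mm_101 : ∃ t, chk3 f_mm_101 t 1 1 1 = true :=
  ⟨(a (l 4) (b (a (l 4) (b (a (l 4) (b (a (l 4) (b (l 6) (l 4))) (l 4))) (l 4))) (l 4))), by decide +kernel⟩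

theorem c_mm_101 : CertB 536870912 536870912 0 536870912 587336777 62277027 3 eng mog cd0q1 cd4q0 pd1 true false false .npn 1 0 1
    ndB0q1 ndB4q0 pcB1 cut_mm_101 Ext.none :=
  certB0 (fam := true) (s1 := false) (s2 := false) (a := 1) (b := 0) (c := 1) (cn := .npn) (n1 := ndB0q1) (n2 := ndB4q0) (pc := pcB1) (cut := cut_mm_101) (xt := Ext.none) (P1 := 536870912) (W1 := 536870912) (P2 := 0) (W2 := 536870912) (P3 := 587336777) (W3 := 62277027) (N0 := 3) (En := eng) (mo := mog) (C1 := cd0q1) (C2 := cd4q0) (C3 := pd1)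
    rfl k0_mm_101

noncomputable def cut_mm_102 : Cut := Cut.of [[⟨0, 1, 0, 67108864⟩, ⟨1, 0, 0, 67108864⟩, ⟨2, 1, 0, 67108864⟩]]

noncomputable def f_mm_102 : ℕ → ℕ → ℕ → ℕ → Bool := onCell 536870912 536870912 0 536870912 587336777 62277027
    (rowB 3 eng mog cd0q1 cd4q0 pd2 0 true false false .npp 1 0 2 (qsf 536870912 536870912 0 536870912 2) ndB0q1 ndB4q0 pcB2 cut_mm_102 Ext.none)

def k0_mm_102 : ∃ t, chk3 f_mm_102 t 1 1 1 = true :=
  ⟨(a (l 4) (b (a (l 4) (b (a (l 4) (a (l 4) (b (b (l 6) (l 4)) (l 4)))) (l 4))) (l 4))), by decide +kernel⟩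

theorem c_mm_102 : CertB 536870912 536870912 0 536870912 587336777 62277027 3 eng mog cd0q1 cd4q0 pd2 true false false .npp 1 0 2
    ndB0q1 ndB4q0 pcB2 cut_mm_102 Ext.none :=
  certB0 (fam := true) (s1 := false) (s2 := false) (a := 1) (b := 0) (c := 2) (cn := .npp) (n1 := ndB0q1) (n2 := ndB4q0) (pc := pcB2) (cut := cut_mm_102) (xt := Ext.none) (P1 := 536870912) (W1 := 536870912) (P2 := 0) (W2 := 536870912) (P3 := 587336777) (W3 := 62277027) (N0 := 3) (En := eng) (mo := mog) (C1 := cd0q1) (C2 := cd4q0) (C3 := pd2)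
    rfl k0_mm_102

noncomputable def f_mm_112 : ℕ → ℕ → ℕ → ℕ → Bool := onCell 536870912 536870912 536870912 536870912 587336777 62277027
    (rowB 3 eng mog cd0q1 cd4q1 pd2 0 true false false .dn 1 1 2 (qsf 536870912 536870912 536870912 536870912 2) ndB0q1 ndB4q1 pcB2 Cut.none Ext.none)

def k0_mm_112 : ∃ t, chk3 f_mm_112 t 1 1 1 = true :=
  ⟨(l 4), by decide +kernel⟩

theorem c_mm_112 : CertB 536870912 536870912 536870912 536870912 587336777 62277027 3 eng mog cd0q1 cd4q1 pd2 true false false .dn 1 1 2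
    ndB0q1 ndB4q1 pcB2 Cut.none Ext.none :=
  certB0 (fam := true) (s1 := false) (s2 := false) (a := 1) (b := 1) (c := 2) (cn := .dn) (n1 := ndB0q1) (n2 := ndB4q1) (pc := pcB2) (cut := Cut.none) (xt := Ext.none) (P1 := 536870912) (W1 := 536870912) (P2 := 536870912) (W2 := 536870912) (P3 := 587336777) (W3 := 62277027) (N0 := 3) (En := eng) (mo := mog) (C1 := cd0q1) (C2 := cd4q1) (C3 := pd2)
    rfl k0_mm_112

noncomputable def f_mm_113 : ℕ → ℕ → ℕ → ℕ → Bool := onCell 536870912 536870912 536870912 536870912 587336777 62277027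
    (rowB 3 eng mog cd0q1 cd4q1 pd3 0 true false false .nn 1 1 3 (qsf 536870912 536870912 536870912 536870912 3) ndB0q1 ndB4q1 pcB3 Cut.none Ext.none)

def k0_mm_113 : ∃ t, chk3 f_mm_113 t 1 1 1 = true :=
  ⟨(l 4), by decide +kernel⟩

theorem c_mm_113 : CertB 536870912 536870912 536870912 536870912 587336777 62277027 3 eng mog cd0q1 cd4q1 pd3 true false false .nn 1 1 3
    ndB0q1 ndB4q1 pcB3 Cut.none Ext.none :=
  certB0 (fam := true) (s1 := false) (s2 := false) (a := 1) (b := 1) (c := 3) (cn := .nn) (n1 := ndB0q1) (n2 := ndB4q1) (pc := pcB3) (cut := Cut.none) (xt := Ext.none) (P1 := 536870912) (W1 := 536870912) (P2 := 536870912) (W2 := 536870912) (P3 := 587336777) (W3 := 62277027) (N0 := 3) (En := eng) (mo := mog) (C1 := cd0q1) (C2 := cd4q1) (C3 := pd3)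
    rfl k0_mm_113

noncomputable def f_mm_123_a : ℕ → ℕ → ℕ → ℕ → Bool := onCell 536870912 536870912 0 536870912 587336777 62277027
    (rowB 3 eng mog cd0q1 cd4q2a pd3 0 true false false .npn 1 2 3 (qsf 536870912 536870912 0 536870912 3) ndB0q1 ndB4q2a pcB3 Cut.none Ext.none)

def k0_mm_123_a : ∃ t, chk3 f_mm_123_a t 1 1 1 = true :=
  ⟨(l 4), by decide +kernel⟩

theorem c_mm_123_a : CertB 536870912 536870912 0 536870912 587336777 62277027 3 eng mog cd0q1 cd4q2a pd3 true false false .npn 1 2 3
    ndB0q1 ndB4q2a pcB3 Cut.none Ext.none :=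
  certB0 (fam := true) (s1 := false) (s2 := false) (a := 1) (b := 2) (c := 3) (cn := .npn) (n1 := ndB0q1) (n2 := ndB4q2a) (pc := pcB3) (cut := Cut.none) (xt := Ext.none) (P1 := 536870912) (W1 := 536870912) (P2 := 0) (W2 := 536870912) (P3 := 587336777) (W3 := 62277027) (N0 := 3) (En := eng) (mo := mog) (C1 := cd0q1) (C2 := cd4q2a) (C3 := pd3)
    rfl k0_mm_123_a

noncomputable def f_mm_123_b : ℕ → ℕ → ℕ → ℕ → Bool := onCell 536870912 536870912 1239849684 370763052 587336777 62277027
    (rowB 3 eng mog cd0q1 cd4q2b pd3 0 true false false .npn 1 2 3 (qsf 536870912 536870912 1239849684 370763052 3) ndB0q1 ndB4q2b pcB3 Cut.none Ext.none)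

def k0_mm_123_b : ∃ t, chk3 f_mm_123_b t 1 1 1 = true :=
  ⟨(l 4), by decide +kernel⟩

theorem c_mm_123_b : CertB 536870912 536870912 1239849684 370763052 587336777 62277027 3 eng mog cd0q1 cd4q2b pd3 true false false .npn 1 2 3
    ndB0q1 ndB4q2b pcB3 Cut.none Ext.none :=
  certB0 (fam := true) (s1 := false) (s2 := false) (a := 1) (b := 2) (c := 3) (cn := .npn) (n1 := ndB0q1) (n2 := ndB4q2b) (pc := pcB3) (cut := Cut.none) (xt := Ext.none) (P1 := 536870912) (W1 := 536870912) (P2 := 1239849684) (W2 := 370763052) (P3 := 587336777) (W3 := 62277027) (N0 := 3) (En := eng) (mo := mog) (C1 := cd0q1) (C2 := cd4q2b) (C3 := pd3)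
    rfl k0_mm_123_b

noncomputable def f_mm_133 : ℕ → ℕ → ℕ → ℕ → Bool := onCell 536870912 536870912 1610612736 536870912 587336777 62277027
    (rowB 3 eng mog cd0q1 cd4q3 pd3 0 true false false .dn 1 3 3 (qsf 536870912 536870912 1610612736 536870912 3) ndB0q1 ndB4q3 pcB3 Cut.none Ext.none)

def k0_mm_133 : ∃ t, chk3 f_mm_133 t 1 1 1 = true :=
  ⟨(l 4), by decide +kernel⟩

theorem c_mm_133 : CertB 536870912 536870912 1610612736 536870912 587336777 62277027 3 eng mog cd0q1 cd4q3 pd3 true false false .dn 1 3 3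
    ndB0q1 ndB4q3 pcB3 Cut.none Ext.none :=
  certB0 (fam := true) (s1 := false) (s2 := false) (a := 1) (b := 3) (c := 3) (cn := .dn) (n1 := ndB0q1) (n2 := ndB4q3) (pc := pcB3) (cut := Cut.none) (xt := Ext.none) (P1 := 536870912) (W1 := 536870912) (P2 := 1610612736) (W2 := 536870912) (P3 := 587336777) (W3 := 62277027) (N0 := 3) (En := eng) (mo := mog) (C1 := cd0q1) (C2 := cd4q3) (C3 := pd3)
    rfl k0_mm_133

noncomputable def cut_mm_202 : Cut := Cut.of [[⟨0, 1, 0, 67108864⟩, ⟨1, 0, 0, 67108864⟩, ⟨2, 1, 0, 67108864⟩]]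

noncomputable def f_mm_202 : ℕ → ℕ → ℕ → ℕ → Bool := onCell 0 536870912 0 536870912 587336777 62277027
    (rowB 3 eng mog cd0q2 cd4q0 pd2 0 true false false .pp 2 0 2 (qsf 0 536870912 0 536870912 2) ndB0q2 ndB4q0 pcB2 cut_mm_202 Ext.none)

def k0_mm_202 : ∃ t, chk3 f_mm_202 t 2 2 1 = true :=
  ⟨(b (b (a (b (a (b (l 16531096) (l 16465576)) (b (b (l 16497288) (l 16469848)) (a (l 16472904) (l 16480592)))) (a (l 16459144) (b (l 16592344) (l 16499328)))) (b (a (b (a (b (l 16510192) (l 16482968)) (b (l 16490656) (l 16495000))) (a (l 16490392) (l 16502560))) (b (b (a (a (l 16501232) (l 16530192)) (b (a (l 16543096) (c (l 16526224) (a (l 16523328) (l 16504216)))) (l 16544704))) (a (l 16509696) (l 16527184))) (a (b (l 16514696) (l 16520208)) (l 16519304)))) (a (b (a (l 16501800) (l 16514312)) (l 16521008)) (b (a (l 16529384) (l 16547200)) (a (l 16542896) (l 16561024)))))) (a (a (b (a (l 16500960) (l 16506704)) (l 16532376)) (b (l 16519288) (l 16549448))) (a (b (l 16542304) (l 16573920)) (b (a (l 16565144)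 (l 16583880)) (l 16607440))))) (a (b (a (b (l 16563648) (l 16595976)) (b (l 16582240) (l 16615752))) (a (l 16811440) (b (l 16648512) (l 16679944)))) (b (a (b (l 16607672) (l 16640920)) (b (l 16641384) (l 4))) (a (b (l 16672712) (l 4)) (l 4))))), by decide +kernel⟩

def k1_mm_202 : ∃ t, chk3 f_mm_202 t 3 2 1 = true :=
  ⟨(b (a (b (b (a (b (b (a (b (a (b (c (l 16535304) (a (l 16531472) (l 16536192))) (c (l 16536736) (l 16535768))) (a (c (l 16520112) (l 16542048)) (b (l 16548600) (l 16549112)))) (a (l 16538592) (l 16549176))) (b (b (a (a (l 16552544) (l 16557944)) (a (l 16563480) (l 16569160))) (a (c (l 16558104) (l 16555928)) (l 16568376))) (a (l 16560008) (l 16571392)))) (a (a (l 16542088) (l 16553032)) (a (l 16564744) (l 16577232)))) (a (l 16555552) (a (l 16572768) (l 16585264)))) (b (b (a (a (b (b (c (l 16579768) (l 16575952)) (l 16580176)) (l 16583384)) (b (a (l 16588272) (l 16594624)) (l 16596008))) (b (a (b (l 16603280) (l 16605712)) (b (l 16617040) (l 16619608))) (a (l 16609312) (l 16623392))))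 (a (a (l 16589608) (l 16602616)) (a (l 16616296) (l 16630752)))) (a (b (l 16602688) (l 16608440)) (b (l 16631944) (l 16637632))))) (a (a (b (l 16567880) (l 16581888)) (b (l 16591504) (l 16605640))) (a (a (l 16617936) (l 16631872)) (b (l 16647128) (l 16682424))))) (a (b (a (l 16605224) (b (l 16621120) (l 16637560))) (l 16818848)) (b (b (a (l 16647848) (l 16677600)) (a (l 16664600) (l 4))) (l 4)))) (b (a (b (b (b (a (b (a (b (l 16642192) (l 16634392)) (a (l 16644696) (l 16659352))) (a (l 16638360) (l 16654280))) (a (b (l 6) (l 16671248)) (l 6))) (a (a (l 16646064) (l 16662320)) (a (l 16679600) (l 16718968)))) (a (b (l 16663520) (l 16669056)) (b (l 16717904) (l 16712944)))) (a (b (l 16678552) (l 16798536)) (b (b (l 16709232) (l 104387557607)) (l 4)))) (b (a (b (l 6) (b (l 6) (a (l 90429006391) (l 4)))) (l 6)) (l 4))) (l 4))) (a (l 4) (l 4))), by decide +kernel⟩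

def k2_mm_202 : ∃ t, chk3 f_mm_202 t 1 3 1 = true :=
  ⟨(a (b (a (b (a (b (l 16691848) (l 4)) (l 4)) (l 4)) (l 4)) (l 4)) (l 4)), by decide +kernel⟩

theorem s3_mm_202 : ∃ t, chk3 f_mm_202 t 1 2 1 = true := ex3_a k0_mm_202 k1_mm_202

theorem s4_mm_202 : ∃ t, chk3 f_mm_202 t 1 1 1 = true := ex3_b s3_mm_202 k2_mm_202

theorem c_mm_202 : CertB 0 536870912 0 536870912 587336777 62277027 3 eng mog cd0q2 cd4q0 pd2 true false false .pp 2 0 2
    ndB0q2 ndB4q0 pcB2 cut_mm_202 Ext.none :=
  certB0 (fam := true) (s1 := false) (s2 := false) (a := 2) (b := 0) (c := 2) (cn := .pp) (n1 := ndB0q2) (n2 := ndB4q0) (pc := pcB2) (cut := cut_mm_202) (xt := Ext.none) (P1 := 0) (W1 := 536870912) (P2 := 0) (W2 := 536870912) (P3 := 587336777) (W3 := 62277027) (N0 := 3) (En := eng) (mo := mog) (C1 := cd0q2) (C2 := cd4q0) (C3 := pd2)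
    rfl s4_mm_202

noncomputable def f_mm_203 : ℕ → ℕ → ℕ → ℕ → Bool := onCell 0 536870912 1610612736 536870912 587336777 62277027
    (rowB 3 eng mog cd0q2 cd4q0 pd3 1 true false false .up 2 0 3 (qsf 0 536870912 0 536870912 3) ndB0q2 ndB4q0 pcB3 Cut.none Ext.none)

def k0_mm_203 : ∃ t, chk3 f_mm_203 t 1 1 1 = true :=
  ⟨(b (l 4) (l 2)), by decide +kernel⟩

theorem c_mm_203 : CertB 0 536870912 0 536870912 587336777 62277027 3 eng mog cd0q2 cd4q0 pd3 true false false .up 2 0 3
    ndB0q2 ndB4q0 pcB3 Cut.none Ext.none :=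
  certB1 (fam := true) (s1 := false) (s2 := false) (a := 2) (b := 0) (c := 3) (cn := .up) (n1 := ndB0q2) (n2 := ndB4q0) (pc := pcB3) (cut := Cut.none) (xt := Ext.none) (P1 := 0) (W1 := 536870912) (P2 := 0) (W2 := 536870912) (P3 := 587336777) (W3 := 62277027) (N0 := 3) (En := eng) (mo := mog) (C1 := cd0q2) (C2 := cd4q0) (C3 := pd3)
    rfl (fun _ => rfl) k0_mm_203

noncomputable def f_mm_213 : ℕ → ℕ → ℕ → ℕ → Bool := onCell 0 536870912 536870912 536870912 587336777 62277027
    (rowB 3 eng mog cd0q2 cd4q1 pd3 0 true false false .pnn 2 1 3 (qsf 0 536870912 536870912 536870912 3) ndB0q2 ndB4q1 pcB3 Cut.none Ext.none)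

def k0_mm_213 : ∃ t, chk3 f_mm_213 t 1 1 1 = true :=
  ⟨(l 4), by decide +kernel⟩

theorem c_mm_213 : CertB 0 536870912 536870912 536870912 587336777 62277027 3 eng mog cd0q2 cd4q1 pd3 true false false .pnn 2 1 3
    ndB0q2 ndB4q1 pcB3 Cut.none Ext.none :=
  certB0 (fam := true) (s1 := false) (s2 := false) (a := 2) (b := 1) (c := 3) (cn := .pnn) (n1 := ndB0q2) (n2 := ndB4q1) (pc := pcB3) (cut := Cut.none) (xt := Ext.none) (P1 := 0) (W1 := 536870912) (P2 := 536870912) (W2 := 536870912) (P3 := 587336777) (W3 := 62277027) (N0 := 3) (En := eng) (mo := mog) (C1 := cd0q2) (C2 := cd4q1) (C3 := pd3)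
    rfl k0_mm_213

end Pool.Agent.Strip051.G.I5470_6050.Tab.C.BA04

namespace Pool.Agent.Strip051.G.I5470_6050.Tab.C.BA05

open Pool.Agent.Strip051.PB Pool.Agent.Strip051.PB.T
open Pool.Agent.Strip051.G.I5470_6050.Tab

noncomputable def f_pp_001 : ℕ → ℕ → ℕ → ℕ → Bool := onCell 0 536870912 0 536870912 587336777 62277027
    (rowB 3 eng mog cd0q0 cd5q0 pd1 0 true true true .up 0 0 1 (qsf 0 536870912 0 536870912 1) ndB0q0 ndB5q0 pcB1 Cut.none Ext.none)

def k0_pp_001 : ∃ t, chk3 f_pp_001 t 1 1 1 = true :=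
  ⟨(l 4), by decide +kernel⟩

theorem c_pp_001 : CertB 0 536870912 0 536870912 587336777 62277027 3 eng mog cd0q0 cd5q0 pd1 true true true .up 0 0 1
    ndB0q0 ndB5q0 pcB1 Cut.none Ext.none :=
  certB0 (fam := true) (s1 := true) (s2 := true) (a := 0) (b := 0) (c := 1) (cn := .up) (n1 := ndB0q0) (n2 := ndB5q0) (pc := pcB1) (cut := Cut.none) (xt := Ext.none) (P1 := 0) (W1 := 536870912) (P2 := 0) (W2 := 536870912) (P3 := 587336777) (W3 := 62277027) (N0 := 3) (En := eng) (mo := mog) (C1 := cd0q0) (C2 := cd5q0) (C3 := pd1)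
    rfl k0_pp_001

noncomputable def f_pp_011 : ℕ → ℕ → ℕ → ℕ → Bool := onCell 0 536870912 536870912 536870912 587336777 62277027
    (rowB 3 eng mog cd0q0 cd5q1 pd1 0 true true true .pnn 0 1 1 (qsf 0 536870912 536870912 536870912 1) ndB0q0 ndB5q1 pcB1 Cut.none Ext.none)

def k0_pp_011 : ∃ t, chk3 f_pp_011 t 1 1 1 = true :=
  ⟨(l 4), by decide +kernel⟩

theorem c_pp_011 : CertB 0 536870912 536870912 536870912 587336777 62277027 3 eng mog cd0q0 cd5q1 pd1 true true true .pnn 0 1 1
    ndB0q0 ndB5q1 pcB1 Cut.none Ext.none :=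
  certB0 (fam := true) (s1 := true) (s2 := true) (a := 0) (b := 1) (c := 1) (cn := .pnn) (n1 := ndB0q0) (n2 := ndB5q1) (pc := pcB1) (cut := Cut.none) (xt := Ext.none) (P1 := 0) (W1 := 536870912) (P2 := 536870912) (W2 := 536870912) (P3 := 587336777) (W3 := 62277027) (N0 := 3) (En := eng) (mo := mog) (C1 := cd0q0) (C2 := cd5q1) (C3 := pd1)
    rfl k0_pp_011

noncomputable def f_pp_012 : ℕ → ℕ → ℕ → ℕ → Bool := onCell 0 536870912 536870912 536870912 587336777 62277027
    (rowB 3 eng mog cd0q0 cd5q1 pd2 0 true true true .pnp 0 1 2 (qsf 0 536870912 536870912 536870912 2) ndB0q0 ndB5q1 pcB2 Cut.none Ext.none)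

def k0_pp_012 : ∃ t, chk3 f_pp_012 t 1 1 1 = true :=
  ⟨(l 4), by decide +kernel⟩

theorem c_pp_012 : CertB 0 536870912 536870912 536870912 587336777 62277027 3 eng mog cd0q0 cd5q1 pd2 true true true .pnp 0 1 2
    ndB0q0 ndB5q1 pcB2 Cut.none Ext.none :=
  certB0 (fam := true) (s1 := true) (s2 := true) (a := 0) (b := 1) (c := 2) (cn := .pnp) (n1 := ndB0q0) (n2 := ndB5q1) (pc := pcB2) (cut := Cut.none) (xt := Ext.none) (P1 := 0) (W1 := 536870912) (P2 := 536870912) (W2 := 536870912) (P3 := 587336777) (W3 := 62277027) (N0 := 3) (En := eng) (mo := mog) (C1 := cd0q0) (C2 := cd5q1) (C3 := pd2)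
    rfl k0_pp_012

noncomputable def f_pp_022 : ℕ → ℕ → ℕ → ℕ → Bool := onCell 0 536870912 1073741824 536870912 587336777 62277027
    (rowB 3 eng mog cd0q0 cd5q2 pd2 0 true true true .pp 0 2 2 (qsf 0 536870912 1073741824 536870912 2) ndB0q0 ndB5q2 pcB2 Cut.none Ext.none)

def k0_pp_022 : ∃ t, chk3 f_pp_022 t 1 1 1 = true :=
  ⟨(l 4), by decide +kernel⟩

theorem c_pp_022 : CertB 0 536870912 1073741824 536870912 587336777 62277027 3 eng mog cd0q0 cd5q2 pd2 true true true .pp 0 2 2
    ndB0q0 ndB5q2 pcB2 Cut.none Ext.none :=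
  certB0 (fam := true) (s1 := true) (s2 := true) (a := 0) (b := 2) (c := 2) (cn := .pp) (n1 := ndB0q0) (n2 := ndB5q2) (pc := pcB2) (cut := Cut.none) (xt := Ext.none) (P1 := 0) (W1 := 536870912) (P2 := 1073741824) (W2 := 536870912) (P3 := 587336777) (W3 := 62277027) (N0 := 3) (En := eng) (mo := mog) (C1 := cd0q0) (C2 := cd5q2) (C3 := pd2)
    rfl k0_pp_022

noncomputable def f_pp_023 : ℕ → ℕ → ℕ → ℕ → Bool := onCell 0 536870912 1073741824 536870912 587336777 62277027
    (rowB 3 eng mog cd0q0 cd5q2 pd3 0 true true true .up 0 2 3 (qsf 0 536870912 1073741824 536870912 3) ndB0q0 ndB5q2 pcB3 Cut.none Ext.none)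

def k0_pp_023 : ∃ t, chk3 f_pp_023 t 1 1 1 = true :=
  ⟨(l 4), by decide +kernel⟩

theorem c_pp_023 : CertB 0 536870912 1073741824 536870912 587336777 62277027 3 eng mog cd0q0 cd5q2 pd3 true true true .up 0 2 3
    ndB0q0 ndB5q2 pcB3 Cut.none Ext.none :=
  certB0 (fam := true) (s1 := true) (s2 := true) (a := 0) (b := 2) (c := 3) (cn := .up) (n1 := ndB0q0) (n2 := ndB5q2) (pc := pcB3) (cut := Cut.none) (xt := Ext.none) (P1 := 0) (W1 := 536870912) (P2 := 1073741824) (W2 := 536870912) (P3 := 587336777) (W3 := 62277027) (N0 := 3) (En := eng) (mo := mog) (C1 := cd0q0) (C2 := cd5q2) (C3 := pd3)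
    rfl k0_pp_023

noncomputable def f_pp_033 : ℕ → ℕ → ℕ → ℕ → Bool := onCell 0 536870912 0 1230186008 587336777 62277027
    (rowB 3 eng mog cd0q0 cd5q3 pd3 0 true true true .pnn 0 3 3 (qsf 0 536870912 0 1230186008 3) ndB0q0 ndB5q3 pcB3 Cut.none Ext.none)

def k0_pp_033 : ∃ t, chk3 f_pp_033 t 1 1 1 = true :=
  ⟨(b (l 4) (l 4)), by decide +kernel⟩

theorem c_pp_033 : CertB 0 536870912 0 1230186008 587336777 62277027 3 eng mog cd0q0 cd5q3 pd3 true true true .pnn 0 3 3
    ndB0q0 ndB5q3 pcB3 Cut.none Ext.none :=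
  certB0 (fam := true) (s1 := true) (s2 := true) (a := 0) (b := 3) (c := 3) (cn := .pnn) (n1 := ndB0q0) (n2 := ndB5q3) (pc := pcB3) (cut := Cut.none) (xt := Ext.none) (P1 := 0) (W1 := 536870912) (P2 := 0) (W2 := 1230186008) (P3 := 587336777) (W3 := 62277027) (N0 := 3) (En := eng) (mo := mog) (C1 := cd0q0) (C2 := cd5q3) (C3 := pd3)
    rfl k0_pp_033

noncomputable def f_pp_101 : ℕ → ℕ → ℕ → ℕ → Bool := onCell 536870912 536870912 0 536870912 587336777 62277027
    (rowB 3 eng mog cd0q1 cd5q0 pd1 0 true true true .npn 1 0 1 (qsf 536870912 536870912 0 536870912 1) ndB0q1 ndB5q0 pcB1 Cut.none Ext.none)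

def k0_pp_101 : ∃ t, chk3 f_pp_101 t 1 1 1 = true :=
  ⟨(l 4), by decide +kernel⟩

theorem c_pp_101 : CertB 536870912 536870912 0 536870912 587336777 62277027 3 eng mog cd0q1 cd5q0 pd1 true true true .npn 1 0 1
    ndB0q1 ndB5q0 pcB1 Cut.none Ext.none :=
  certB0 (fam := true) (s1 := true) (s2 := true) (a := 1) (b := 0) (c := 1) (cn := .npn) (n1 := ndB0q1) (n2 := ndB5q0) (pc := pcB1) (cut := Cut.none) (xt := Ext.none) (P1 := 536870912) (W1 := 536870912) (P2 := 0) (W2 := 536870912) (P3 := 587336777) (W3 := 62277027) (N0 := 3) (En := eng) (mo := mog) (C1 := cd0q1) (C2 := cd5q0) (C3 := pd1)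
    rfl k0_pp_101

noncomputable def f_pp_102 : ℕ → ℕ → ℕ → ℕ → Bool := onCell 536870912 536870912 0 536870912 587336777 62277027
    (rowB 3 eng mog cd0q1 cd5q0 pd2 0 true true true .npp 1 0 2 (qsf 536870912 536870912 0 536870912 2) ndB0q1 ndB5q0 pcB2 Cut.none Ext.none)

def k0_pp_102 : ∃ t, chk3 f_pp_102 t 1 1 1 = true :=
  ⟨(l 4), by decide +kernel⟩

theorem c_pp_102 : CertB 536870912 536870912 0 536870912 587336777 62277027 3 eng mog cd0q1 cd5q0 pd2 true true true .npp 1 0 2
    ndB0q1 ndB5q0 pcB2 Cut.none Ext.none :=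
  certB0 (fam := true) (s1 := true) (s2 := true) (a := 1) (b := 0) (c := 2) (cn := .npp) (n1 := ndB0q1) (n2 := ndB5q0) (pc := pcB2) (cut := Cut.none) (xt := Ext.none) (P1 := 536870912) (W1 := 536870912) (P2 := 0) (W2 := 536870912) (P3 := 587336777) (W3 := 62277027) (N0 := 3) (En := eng) (mo := mog) (C1 := cd0q1) (C2 := cd5q0) (C3 := pd2)
    rfl k0_pp_102

noncomputable def f_pp_112 : ℕ → ℕ → ℕ → ℕ → Bool := onCell 536870912 536870912 536870912 536870912 587336777 62277027
    (rowB 3 eng mog cd0q1 cd5q1 pd2 0 true true true .dn 1 1 2 (qsf 536870912 536870912 536870912 536870912 2) ndB0q1 ndB5q1 pcB2 Cut.none Ext.none)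

def k0_pp_112 : ∃ t, chk3 f_pp_112 t 1 1 1 = true :=
  ⟨(l 4), by decide +kernel⟩

theorem c_pp_112 : CertB 536870912 536870912 536870912 536870912 587336777 62277027 3 eng mog cd0q1 cd5q1 pd2 true true true .dn 1 1 2
    ndB0q1 ndB5q1 pcB2 Cut.none Ext.none :=
  certB0 (fam := true) (s1 := true) (s2 := true) (a := 1) (b := 1) (c := 2) (cn := .dn) (n1 := ndB0q1) (n2 := ndB5q1) (pc := pcB2) (cut := Cut.none) (xt := Ext.none) (P1 := 536870912) (W1 := 536870912) (P2 := 536870912) (W2 := 536870912) (P3 := 587336777) (W3 := 62277027) (N0 := 3) (En := eng) (mo := mog) (C1 := cd0q1) (C2 := cd5q1) (C3 := pd2)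
    rfl k0_pp_112

noncomputable def f_pp_113 : ℕ → ℕ → ℕ → ℕ → Bool := onCell 536870912 536870912 536870912 536870912 587336777 62277027
    (rowB 3 eng mog cd0q1 cd5q1 pd3 0 true true true .nn 1 1 3 (qsf 536870912 536870912 536870912 536870912 3) ndB0q1 ndB5q1 pcB3 Cut.none Ext.none)

def k0_pp_113 : ∃ t, chk3 f_pp_113 t 1 1 1 = true :=
  ⟨(l 4), by decide +kernel⟩

theorem c_pp_113 : CertB 536870912 536870912 536870912 536870912 587336777 62277027 3 eng mog cd0q1 cd5q1 pd3 true true true .nn 1 1 3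
    ndB0q1 ndB5q1 pcB3 Cut.none Ext.none :=
  certB0 (fam := true) (s1 := true) (s2 := true) (a := 1) (b := 1) (c := 3) (cn := .nn) (n1 := ndB0q1) (n2 := ndB5q1) (pc := pcB3) (cut := Cut.none) (xt := Ext.none) (P1 := 536870912) (W1 := 536870912) (P2 := 536870912) (W2 := 536870912) (P3 := 587336777) (W3 := 62277027) (N0 := 3) (En := eng) (mo := mog) (C1 := cd0q1) (C2 := cd5q1) (C3 := pd3)
    rfl k0_pp_113

noncomputable def f_pp_123 : ℕ → ℕ → ℕ → ℕ → Bool := onCell 536870912 536870912 1073741824 536870912 587336777 62277027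
    (rowB 3 eng mog cd0q1 cd5q2 pd3 0 true true true .npn 1 2 3 (qsf 536870912 536870912 1073741824 536870912 3) ndB0q1 ndB5q2 pcB3 Cut.none Ext.none)

def k0_pp_123 : ∃ t, chk3 f_pp_123 t 1 1 1 = true :=
  ⟨(l 4), by decide +kernel⟩

theorem c_pp_123 : CertB 536870912 536870912 1073741824 536870912 587336777 62277027 3 eng mog cd0q1 cd5q2 pd3 true true true .npn 1 2 3
    ndB0q1 ndB5q2 pcB3 Cut.none Ext.none :=
  certB0 (fam := true) (s1 := true) (s2 := true) (a := 1) (b := 2) (c := 3) (cn := .npn) (n1 := ndB0q1) (n2 := ndB5q2) (pc := pcB3) (cut := Cut.none) (xt := Ext.none) (P1 := 536870912) (W1 := 536870912) (P2 := 1073741824) (W2 := 536870912) (P3 := 587336777) (W3 := 62277027) (N0 := 3) (En := eng) (mo := mog) (C1 := cd0q1) (C2 := cd5q2) (C3 := pd3)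
    rfl k0_pp_123

noncomputable def f_pp_133 : ℕ → ℕ → ℕ → ℕ → Bool := onCell 536870912 536870912 0 1230186008 587336777 62277027
    (rowB 3 eng mog cd0q1 cd5q3 pd3 0 true true true .dn 1 3 3 (qsf 536870912 536870912 0 1230186008 3) ndB0q1 ndB5q3 pcB3 Cut.none Ext.none)

def k0_pp_133 : ∃ t, chk3 f_pp_133 t 1 1 1 = true :=
  ⟨(l 4), by decide +kernel⟩

theorem c_pp_133 : CertB 536870912 536870912 0 1230186008 587336777 62277027 3 eng mog cd0q1 cd5q3 pd3 true true true .dn 1 3 3
    ndB0q1 ndB5q3 pcB3 Cut.none Ext.none :=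
  certB0 (fam := true) (s1 := true) (s2 := true) (a := 1) (b := 3) (c := 3) (cn := .dn) (n1 := ndB0q1) (n2 := ndB5q3) (pc := pcB3) (cut := Cut.none) (xt := Ext.none) (P1 := 536870912) (W1 := 536870912) (P2 := 0) (W2 := 1230186008) (P3 := 587336777) (W3 := 62277027) (N0 := 3) (En := eng) (mo := mog) (C1 := cd0q1) (C2 := cd5q3) (C3 := pd3)
    rfl k0_pp_133

noncomputable def f_pp_202 : ℕ → ℕ → ℕ → ℕ → Bool := onCell 0 536870912 0 536870912 587336777 62277027
    (rowB 3 eng mog cd0q2 cd5q0 pd2 0 true true true .pp 2 0 2 (qsf 0 536870912 0 536870912 2) ndB0q2 ndB5q0 pcB2 Cut.none Ext.none)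

def k0_pp_202 : ∃ t, chk3 f_pp_202 t 1 1 1 = true :=
  ⟨(l 5), by decide +kernel⟩

theorem c_pp_202 : CertB 0 536870912 0 536870912 587336777 62277027 3 eng mog cd0q2 cd5q0 pd2 true true true .pp 2 0 2
    ndB0q2 ndB5q0 pcB2 Cut.none Ext.none :=
  certB0 (fam := true) (s1 := true) (s2 := true) (a := 2) (b := 0) (c := 2) (cn := .pp) (n1 := ndB0q2) (n2 := ndB5q0) (pc := pcB2) (cut := Cut.none) (xt := Ext.none) (P1 := 0) (W1 := 536870912) (P2 := 0) (W2 := 536870912) (P3 := 587336777) (W3 := 62277027) (N0 := 3) (En := eng) (mo := mog) (C1 := cd0q2) (C2 := cd5q0) (C3 := pd2)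
    rfl k0_pp_202

noncomputable def f_pp_203 : ℕ → ℕ → ℕ → ℕ → Bool := onCell 0 536870912 0 536870912 587336777 62277027
    (rowB 3 eng mog cd0q2 cd5q0 pd3 0 true true true .up 2 0 3 (qsf 0 536870912 0 536870912 3) ndB0q2 ndB5q0 pcB3 Cut.none Ext.none)

def k0_pp_203 : ∃ t, chk3 f_pp_203 t 1 1 1 = true :=
  ⟨(l 5), by decide +kernel⟩

theorem c_pp_203 : CertB 0 536870912 0 536870912 587336777 62277027 3 eng mog cd0q2 cd5q0 pd3 true true true .up 2 0 3
    ndB0q2 ndB5q0 pcB3 Cut.none Ext.none :=
  certB0 (fam := true) (s1 := true) (s2 := true) (a := 2) (b := 0) (c := 3) (cn := .up) (n1 := ndB0q2) (n2 := ndB5q0) (pc := pcB3) (cut := Cut.none) (xt := Ext.none) (P1 := 0) (W1 := 536870912) (P2 := 0) (W2 := 536870912) (P3 := 587336777) (W3 := 62277027) (N0 := 3) (En := eng) (mo := mog) (C1 := cd0q2) (C2 := cd5q0) (C3 := pd3)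
    rfl k0_pp_203

noncomputable def f_pp_213 : ℕ → ℕ → ℕ → ℕ → Bool := onCell 0 536870912 536870912 536870912 587336777 62277027
    (rowB 3 eng mog cd0q2 cd5q1 pd3 0 true true true .pnn 2 1 3 (qsf 0 536870912 536870912 536870912 3) ndB0q2 ndB5q1 pcB3 Cut.none Ext.none)

def k0_pp_213 : ∃ t, chk3 f_pp_213 t 1 1 1 = true :=
  ⟨(l 4), by decide +kernel⟩

theorem c_pp_213 : CertB 0 536870912 536870912 536870912 587336777 62277027 3 eng mog cd0q2 cd5q1 pd3 true true true .pnn 2 1 3
    ndB0q2 ndB5q1 pcB3 Cut.none Ext.none :=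
  certB0 (fam := true) (s1 := true) (s2 := true) (a := 2) (b := 1) (c := 3) (cn := .pnn) (n1 := ndB0q2) (n2 := ndB5q1) (pc := pcB3) (cut := Cut.none) (xt := Ext.none) (P1 := 0) (W1 := 536870912) (P2 := 536870912) (W2 := 536870912) (P3 := 587336777) (W3 := 62277027) (N0 := 3) (En := eng) (mo := mog) (C1 := cd0q2) (C2 := cd5q1) (C3 := pd3)
    rfl k0_pp_213

noncomputable def xt_pm_001 : Ext := extD2 3 ⟨7, 3, 3, 10, 1815, 1000, 17, 20, 37, 100, 3, 16⟩ eng cd0q0 cd5q0 pd1 true true false .up 0 0 1 rfl ndB0q0 ndB5q0 pcB1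

noncomputable def f_pm_001 : ℕ → ℕ → ℕ → ℕ → Bool := onCell 0 536870912 0 536870912 587336777 62277027
    (rowB 3 eng mog cd0q0 cd5q0 pd1 0 true true false .up 0 0 1 (qsf 0 536870912 0 536870912 1) ndB0q0 ndB5q0 pcB1 Cut.none xt_pm_001)

def k0_pm_001 : ∃ t, chk3 f_pm_001 t 1 1 1 = true :=
  ⟨(a (l 3) (b (l 3) (b (l 3) (a (l 3) (b (l 3) (a (l 3) (b (a (l 3) (b (a (l 3) (a (l 3) (b (l 3) (c (b (c (l 795473189448614668514050095) (l 901858661574599506390417455)) (a (l 930872881245279069611081775) (l 273217235374814214638551087))) (l 892187255017762187520196655))))) (a (a (l 3) (b (l 3) (c (a (l 3) (l 708430530436252378774028335)) (l 863173035346911031763992623)))) (c (a (b (b (l 3) (l 718101936993083787714052143)) (a (l 141600638862049327) (l 141493642569515055))) (b (a (b (l 141834697439969327) (l 141653552820502575)) (l 141636647865827375)) (l 141331120970219567))) (b (a (l 872844441903927845858492463) (l 141471514861469743)) (a (l 141551229479387183) (l 141125237352431663))))))) (a (b (a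 (l 3) (b (l 3) (a (l 3) (c (a (l 3) (l 1288714923851007544853872687)) (l 1143643825497346258261639215))))) (a (l 3) (b (a (b (l 3) (c (l 1259700704180153159223263279) (l 1337664212988673751618167343))) (c (b (a (l 141603318815719471) (l 141226048863502383)) (l 709022124435630092129264175)) (b (l 591743444675006906245679) (l 591496719136158134133295)))) (a (c (b (l 1240949858036262935971471919) (l 757379211119204340000055855)) (l 1134564330281523168075211311)) (c (l 591100402433683259138607) (l 591170442121793370890799)))))) (a (c (b (b (a (b (l 3) (a (l 3) (l 1337071956635525435404353583))) (b (l 650402091094485196008767535) (a (l 141382729317761071) (l 141276557701857327)))) (a (b (a (l 1356414769749300472152195119) (l 141324661342814255)) (l 141579679292948527)) (l 141443889577672751))) (b (a (l 591064661941051347362351) (l 590362820575174524543535)) (a (l 590404902135050981679663) (l 589713149008055170146863)))) (b (b (b (a (l 3) (l 141362457033359407)) (a (l 1182329451724895919465037871)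 (l 141194918915964975))) (a (b (l 141448974834401327) (l 591249129317329584628271)) (l 590630586769029526823471))) (b (a (l 590870394363784968626735) (l 590128200900003169657391)) (l 590078196424744676823599)))) (b (c (b (b (a (l 141285903551627311) (l 141066757090623535)) (a (l 141114310980304943) (l 140892965495521327))) (a (l 590399714157948692455983) (l 589684326139352526070319))) (b (b (l 140995220078182447) (l 141005802844061743)) (l 589486023932824061813295))) (a (b (c (l 589658673541729311351343) (l 16406000)) (l 589014914567120949858863)) (b (l 588798017497046830129711) (l 588313938292319978869295))))))))))))), by decide +kernel⟩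

theorem c_pm_001 : CertB 0 536870912 0 536870912 587336777 62277027 3 eng mog cd0q0 cd5q0 pd1 true true false .up 0 0 1
    ndB0q0 ndB5q0 pcB1 Cut.none xt_pm_001 :=
  certB0 (fam := true) (s1 := true) (s2 := false) (a := 0) (b := 0) (c := 1) (cn := .up) (n1 := ndB0q0) (n2 := ndB5q0) (pc := pcB1) (cut := Cut.none) (xt := xt_pm_001) (P1 := 0) (W1 := 536870912) (P2 := 0) (W2 := 536870912) (P3 := 587336777) (W3 := 62277027) (N0 := 3) (En := eng) (mo := mog) (C1 := cd0q0) (C2 := cd5q0) (C3 := pd1)
    rfl k0_pm_001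

noncomputable def cut_pm_011 : Cut := Cut.of [[⟨0, 0, 0, 67108864⟩, ⟨1, 1, 0, 67108864⟩, ⟨2, 1, 0, 67108864⟩]]

noncomputable def f_pm_011 : ℕ → ℕ → ℕ → ℕ → Bool := onCell 0 536870912 536870912 536870912 587336777 62277027
    (rowB 3 eng mog cd0q0 cd5q1 pd1 1 true true false .pnn 0 1 1 (qsf 0 536870912 536870912 536870912 1) ndB0q0 ndB5q1 pcB1 cut_pm_011 Ext.none)

def k0_pm_011 : ∃ t, chk3 f_pm_011 t 1 2 1 = true :=
  ⟨(l 3), by decide +kernel⟩

def k1_pm_011 : ∃ t, chk3 f_pm_011 t 1 6 1 = true :=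
  ⟨(l 3), by decide +kernel⟩

def k2_pm_011 : ∃ t, chk3 f_pm_011 t 1 14 1 = true :=
  ⟨(a (l 3) (l 3)), by decide +kernel⟩

def k3_pm_011 : ∃ t, chk3 f_pm_011 t 1 30 1 = true :=
  ⟨(a (l 3) (b (a (l 3) (b (l 3) (a (l 3) (a (a (l 3) (a (b (l 1) (c (l 145524845319) (l 16405184))) (l 1))) (l 1))))) (b (a (a (l 3) (a (l 3) (a (l 3) (l 3)))) (a (a (b (l 3) (a (l 76402802775) (c (l 16436608) (l 16429536)))) (c (a (a (l 76402777207) (l 80160862887)) (b (a (l 73181528327) (l 80697710455)) (l 16412904))) (a (l 84992694871) (l 16430552)))) (a (c (a (b (c (a (l 83918934343) (l 16411376)) (l 16409992)) (l 16402224)) (a (b (l 16414528) (l 16394160)) (l 178273944599))) (a (l 16419624) (l 16388008))) (l 1)))) (a (a (a (l 3) (a (l 3) (c (l 16543416) (l 16517096)))) (a (a (l 16522936) (l 16494800)) (a (l 95730200503) (c (l 16452896) (l 16447056))))) (a (a (c (a (l 16436936) (l 16422352)) (a (l 16430832) (l 16415888))) (c (a (l 16409584) (l 16398384)) (a (l 16402632) (l 16390920)))) (a (a (c (l 16387560) (l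 16379800)) (c (l 16376664) (l 16368952))) (a (a (l 187937566551) (l 1)) (l 1)))))))), by decide +kernel⟩

def k4_pm_011 : ∃ t, chk3 f_pm_011 t 1 62 1 = true :=
  ⟨(a (a (l 3) (b (a (l 3) (a (l 3) (a (c (l 59223259847) (l 16611384)) (l 61907571063)))) (a (a (a (l 3) (a (l 139217118199) (b (l 3) (l 16650440)))) (a (b (l 3) (l 16638032)) (b (l 16651344) (l 16621592)))) (a (a (b (l 16634712) (l 16605032)) (c (l 16594800) (l 16590176))) (a (l 16596416) (l 16557968)))))) (a (b (a (a (a (l 69423715591) (l 16549480)) (a (l 16530792) (l 16522688))) (a (a (l 16483840) (l 16466232)) (a (l 16448864) (l 16431888)))) (a (a (a (l 16540048) (l 16521760)) (a (l 16503168) (l 16484416))) (a (a (l 16466176) (l 16448512)) (l 16464456)))) (a (a (a (l 16448648) (l 16433664)) (a (l 16420360) (c (l 16369664) (l 16363392)))) (a (a (c (l 16358512) (l 16351888)) (c (b (l 16357064) (l 16337624)) (l 16340680))) (c (a (b (l 54793582535) (l 16326144)) (l 165388978791)) (a (l 16329624) (l 168073319223))))))), by decide +kernel⟩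

def k5_pm_011 : ∃ t, chk3 f_pm_011 t 2 126 1 = true :=
  ⟨(a (a (l 3) (b (a (l 3) (b (l 3) (a (a (l 3) (l 170355682375)) (a (l 65665838695) (l 16672688))))) (a (a (a (l 3) (b (l 3) (b (l 3) (c (l 60834068087) (a (l 92509444535) (l 71571470423)))))) (a (b (l 3) (a (c (l 16713912) (c (l 16711384) (l 68350241079))) (b (l 71571459031) (l 16701816)))) (c (b (l 92509431815) (l 16698496)) (b (a (l 122037323623) (l 71034579127)) (c (l 16695808) (l 16700424)))))) (a (a (a (b (l 68887089111) (l 16690624)) (b (l 68350209703) (l 16686560))) (c (l 16684440) (b (l 16682672) (l 16678488)))) (a (c (l 16676344) (l 16672456)) (l 16666384)))))) (a (a (a (a (b (l 58686494311) (l 16658264)) (a (l 49559673671) (l 16652248))) (a (l 16646072) (l 16637768))) (a (a (l 16629432) (l 16621160)) (l 16608808))) (a (a (l 16592216) (l 16575400)) (a (l 16558312) (l 16540864))))), by decide +kernel⟩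

def k6_pm_011 : ∃ t, chk3 f_pm_011 t 2 127 1 = true :=
  ⟨(a (a (a (l 6) (a (l 6) (b (a (b (b (l 3) (l 6)) (l 6)) (a (b (b (l 3) (c (l 61370963111) (c (l 66202798583) (l 68887145319)))) (c (l 16724944) (c (l 16723008) (l 16726896)))) (b (c (b (l 80698311399) (l 16723912)) (b (l 71571500519) (c (l 16721848) (l 58686594167)))) (c (l 16720784) (l 16723272))))) (a (l 6) (b (c (l 16718696) (l 16721296)) (l 16718496)))))) (a (a (b (a (c (b (a (b (l 16721896) (l 16719776)) (l 59223458695)) (a (l 16716648) (l 16712528))) (b (a (b (l 78550813991) (l 16716856)) (b (l 70497741511) (l 16712608))) (c (l 16717632) (l 16716088)))) (c (b (a (l 16712608) (l 16708520)) (l 16706376)) (b (a (c (l 16710248) (l 16708584)) (l 16705224)) (l 16703176)))) (a (b (c (l 16710416) (l 16707488)) (l 16704824)) (c (l 16710584) (l 16704808)))) (b (a (b (a (a (l 16703824) (l 16701768)) (l 16698688)) (l 16701808)) (c (l 16692192) (b (l 16690688) (l 16686520)))) (a (c (l 16691928) (l 16688568)) (l 16682080)))) (a (a (b (a (l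 16684336) (l 16680272)) (l 16673920)) (b (l 16674184) (l 16665800))) (b (a (l 16666088) (l 16657992)) (l 16653648))))) (a (a (a (b (l 16645824) (l 16637448)) (l 16635744)) (a (a (l 16612776) (l 16604392)) (l 16591920))) (a (a (l 16575272) (l 16558440)) (a (l 16541360) (l 16523952))))), by decide +kernel⟩

def k7_pm_011 : ∃ t, chk3 f_pm_011 t 3 63 1 = true :=
  ⟨(a (a (a (a (a (l 16519032) (l 16510016)) (l 16538296)) (a (l 16519816) (l 16501104))) (a (a (b (l 16448904) (l 16432080)) (l 16464360)) (a (l 16425864) (l 16408696)))) (a (a (b (l 16393248) (l 16375712)) (c (l 16379920) (l 16375584))) (a (a (l 16318016) (l 16306376)) (a (c (l 16297064) (l 16292088)) (c (l 62309683911) (l 16280168)))))), by decide +kernel⟩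

theorem s8_pm_011 : ∃ t, chk3 f_pm_011 t 2 63 1 = true := ex3_b k5_pm_011 k6_pm_011

theorem s9_pm_011 : ∃ t, chk3 f_pm_011 t 1 63 1 = true := ex3_a s8_pm_011 k7_pm_011

theorem s10_pm_011 : ∃ t, chk3 f_pm_011 t 1 31 1 = true := ex3_b k4_pm_011 s9_pm_011

theorem s11_pm_011 : ∃ t, chk3 f_pm_011 t 1 15 1 = true := ex3_b k3_pm_011 s10_pm_011

theorem s12_pm_011 : ∃ t, chk3 f_pm_011 t 1 7 1 = true := ex3_b k2_pm_011 s11_pm_011

theorem s13_pm_011 : ∃ t, chk3 f_pm_011 t 1 3 1 = true := ex3_b k1_pm_011 s12_pm_011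

theorem s14_pm_011 : ∃ t, chk3 f_pm_011 t 1 1 1 = true := ex3_b k0_pm_011 s13_pm_011

theorem c_pm_011 : CertB 0 536870912 536870912 536870912 587336777 62277027 3 eng mog cd0q0 cd5q1 pd1 true true false .pnn 0 1 1
    ndB0q0 ndB5q1 pcB1 cut_pm_011 Ext.none :=
  certB1 (fam := true) (s1 := true) (s2 := false) (a := 0) (b := 1) (c := 1) (cn := .pnn) (n1 := ndB0q0) (n2 := ndB5q1) (pc := pcB1) (cut := cut_pm_011) (xt := Ext.none) (P1 := 0) (W1 := 536870912) (P2 := 536870912) (W2 := 536870912) (P3 := 587336777) (W3 := 62277027) (N0 := 3) (En := eng) (mo := mog) (C1 := cd0q0) (C2 := cd5q1) (C3 := pd1)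
    rfl (fun _ => rfl) s14_pm_011

noncomputable def cut_pm_012 : Cut := Cut.of [[⟨0, 0, 0, 67108864⟩, ⟨1, 1, 0, 67108864⟩, ⟨2, 1, 0, 67108864⟩]]

noncomputable def f_pm_012 : ℕ → ℕ → ℕ → ℕ → Bool := onCell 1073741824 536870912 536870912 536870912 587336777 62277027
    (rowB 3 eng mog cd0q0 cd5q1 pd2 2 true true false .pnp 0 1 2 (qsf 0 536870912 536870912 536870912 2) ndB0q0 ndB5q1 pcB2 cut_pm_012 Ext.none)

def k0_pm_012 : ∃ t, chk3 f_pm_012 t 4 2 1 = true :=
  ⟨(b (a (b (a (a (b (b (c (l 16262016) (l 16239008)) (l 16316144)) (c (l 16335808) (l 16312152))) (b (l 16266640) (l 16251312))) (b (a (l 16178312) (l 2)) (c (l 16219496) (l 16201264)))) (a (b (b (l 16353088) (a (l 16301856) (l 16260368))) (b (l 16378184) (l 16389816))) (b (l 16265520) (a (l 16276344) (l 16259296))))) (b (a (b (l 2) (c (l 16140728) (l 16161728))) (l 2)) (a (b (c (l 16198240) (l 16197232)) (l 16296912)) (b (l 16236888) (l 16266304))))) (a (b (a (b (b (l 16406592) (l 16416192)) (b (l 16441152) (a (l 16400176) (l 16379696))))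 (a (b (l 16316416) (l 16393152)) (b (l 16298088) (l 16330936)))) (a (a (b (b (l 16418552) (l 16437408)) (b (l 16456040) (l 16474440))) (b (l 16403928) (l 16435584))) (b (a (l 16381016) (l 16358480)) (a (l 16409408) (l 16383872))))) (b (a (b (l 16395488) (a (l 16310120) (l 16289720))) (b (l 16274272) (l 16385992))) (a (b (a (l 16336264) (l 16314376)) (a (l 16359096) (l 16335200))) (b (l 16345816) (l 16343720)))))), by decide +kernel⟩

def k1_pm_012 : ∃ t, chk3 f_pm_012 t 8 6 1 = true :=
  ⟨(b (a (a (b (b (l 16492472) (l 16531128)) (b (l 16590392) (l 16617944))) (b (l 16466928) (l 16519304))) (b (a (l 16458056) (l 16408272)) (a (l 16485552) (l 16432104)))) (a (a (b (a (b (l 16572040) (l 16588944)) (l 16580096)) (a (b (b (l 16601600) (l 16609912)) (a (l 16627408) (l 16617048))) (b (l 16584680) (l 16601312)))) (b (l 16571600) (l 16603112))) (b (a (b (l 16485128) (l 16498800)) (l 16497648)) (a (c (l 16563944) (l 16559816)) (l 16522144))))), by decide +kernel⟩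

def k2_pm_012 : ∃ t, chk3 f_pm_012 t 8 7 1 = true :=
  ⟨(b (a (a (a (b (a (b (l 16643696) (l 16675704)) (b (l 16633368) (l 16649640))) (b (a (a (l 16689440) (l 16673784)) (l 16665992)) (a (b (l 16699296) (a (l 16699784) (l 16694576))) (b (l 16678384) (l 16686728))))) (b (b (l 16617688) (l 16633960)) (b (l 16650272) (b (l 16662600) (l 16670888))))) (a (b (l 16625544) (a (l 16663488) (l 16630848))) (b (l 16582048) (l 16633920)))) (b (b (a (l 16562576) (l 16499400)) (a (l 16577104) (l 16512392))) (b (a (l 16612496) (l 16525368)) (a (a (l 16596568) (l 16572976)) (l 16538208))))) (a (b (b (a (a (a (b (a (l 16708256) (l 16703024)) (l 6)) (b (l 16695136) (l 16703640))) (a (l 16688768) (l 16678088))) (a (l 16660016) (a (l 16641384) (l 16629056)))) (a (a (l 6) (b (l 16706672) (l 6))) (a (b (l 16671144) (a (l 6) (l 16671992))) (b (l 16645944) (l 16652920))))) (a (l 6) (b (a (l 6) (b (l 16659744) (l 6))) (l 6)))) (b (a (b (a (l 16610704) (l 16586496)) (a (b (l 16621000) (l 16627712)) (l 16599584))) (b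 (a (l 16562600) (l 16539032)) (a (l 16575096) (l 16550928)))) (b (a (a (b (l 16634272) (l 16640680)) (b (l 16609064) (l 16615208))) (a (b (l 16584152) (l 16590024)) (l 16578096))) (a (b (a (l 6) (l 16642160)) (l 6)) (b (a (l 16595752) (l 16570600)) (a (b (l 16599936) (l 6)) (l 16592936)))))))), by decide +kernel⟩

def k3_pm_012 : ∃ t, chk3 f_pm_012 t 9 3 1 = true :=
  ⟨(b (b (a (b (a (l 16380520) (l 16353904)) (a (l 16401000) (l 16371376))) (b (l 16401056) (a (l 16343368) (l 16317400)))) (a (b (a (l 16442048) (l 16388112)) (a (l 16463104) (l 16405880))) (b (a (l 16356992) (l 16328144)) (a (l 16371592) (l 16339640))))) (b (a (b (a (l 16506440) (l 16445824)) (a (b (l 16481664) (l 16493088)) (b (l 16439600) (l 16449520)))) (b (a (l 16387176) (l 16351880)) (a (b (l 16399416) (l 16407712)) (b (l 16361464) (l 16368024))))) (b (a (a (b (l 16504328) (a (l 16527080) (l 16503568))) (b (l 16459352) (l 16489944))) (a (b (l 16416024) (l 16424208)) (b (l 16374640) (l 16381224)))) (a (b (a (b (l 16523232)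 (l 16549352)) (b (l 16475976) (l 16480528))) (a (b (a (l 16545720) (l 16521176)) (a (l 16550752) (l 16525920))) (b (l 16505928) (a (l 16501408) (l 16477200))))) (a (b (a (l 16443536) (l 16420856)) (b (l 16458824) (c (l 16449840) (l 16432928)))) (b (a (l 16398592) (l 16376784)) (c (b (l 16402024) (l 16405112)) (l 16404608)))))))), by decide +kernel⟩

def k4_pm_012 : ∃ t, chk3 f_pm_012 t 5 2 1 = true :=
  ⟨(b (a (a (a (b (l 2) (b (l 2) (l 16183144))) (l 2)) (l 2)) (l 2)) (a (a (b (a (b (l 16207840) (l 16231808)) (a (l 16208576) (a (l 16204456) (b (l 16195352) (l 16215648))))) (a (b (l 16253320) (l 16270472)) (a (l 16248720) (a (l 16242976) (b (l 16234408) (l 16250336)))))) (b (b (l 16184432) (l 16201536)) (b (l 16217184) (l 16231640)))) (b (a (b (l 2) (l 16203072)) (l 2)) (a (l 16340368) (l 16213752))))), by decide +kernel⟩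

def k5_pm_012 : ∃ t, chk3 f_pm_012 t 5 6 1 = true :=
  ⟨(a (a (a (b (b (l 16283800) (l 16293664)) (b (l 16301712) (l 16310232))) (b (a (l 16273528) (a (l 16266864) (b (l 16261856) (l 16268872)))) (a (b (l 16283560) (l 16290024)) (a (b (l 16275560) (l 16280944)) (b (l 16357008) (a (l 16277240) (l 16275720))))))) (b (b (l 16241664) (l 16247464)) (b (a (l 16258416) (l 16240864)) (a (l 16261416) (l 16241008))))) (b (a (b (l 16223408) (l 16224696)) (b (l 16211464) (l 16208640))) (b (a (l 16222032) (l 16201848)) (a (l 16217864) (l 16193720))))), by decide +kernel⟩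

def k6_pm_012 : ∃ t, chk3 f_pm_012 t 5 7 1 = true :=
  ⟨(a (b (a (a (b (l 16319168) (b (l 16326072) (l 16330776))) (a (b (l 16296480) (l 16302992)) (b (a (l 16286136) (a (l 16281696) (l 16279544))) (a (l 16291184) (a (l 16285888) (l 16283000)))))) (b (a (l 16263736) (l 16240096)) (a (l 16286424) (l 16238072)))) (a (a (b (b (l 16335560) (l 16361320)) (b (a (l 16355480) (l 16334720)) (a (c (l 16371552) (l 16348984)) (c (l 16350896) (l 16326408))))) (a (b (b (l 16307968) (l 16311304)) (b (l 16314584) (c (l 16330896) (l 16304280)))) (b (a (l 16317232) (a (l 16290008) (b (l 16285488) (l 16287080)))) (a (b (l 16299976) (c (l 16316432) (l 16288008))) (a (b (l 16292976) (c (l 16309544) (l 16279952))) (b (c (l 16303992) (l 16273128)) (a (a (a (l 16292032) (a (l 16291600) (l 16291336))) (l 16290552)) (l 16288688)))))))) (b (a (b (l 16266488) (l 16267072)) (b (l 16236056) (l 16234544))) (a (b (c (l 16284096) (l 16250912)) (c (b (l 16284280) (l 16284376)) (l 16251368))) (b (l 16232872) (c (l 16249880)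 (l 16212048))))))) (b (b (a (l 16211800) (l 16182248)) (a (b (l 16206136) (l 16201824)) (b (l 16171688) (l 16163880)))) (b (a (b (l 16197240) (a (l 16205688) (l 16179848))) (b (l 16155504) (l 16188520))) (a (b (a (l 16201712) (l 16173616)) (a (c (b (l 16220096) (l 16217888)) (l 16175752)) (c (b (l 16192920) (l 16189576)) (l 16142624)))) (b (a (l 16148632) (l 16126704)) (a (c (l 16166656) (l 16112680)) (b (l 16118656) (l 16113144)))))))), by decide +kernel⟩

def k7_pm_012 : ∃ t, chk3 f_pm_012 t 3 1 1 = true :=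
  ⟨(b (a (b (l 2) (a (b (l 2) (a (l 16218496) (l 2))) (l 2))) (l 2)) (a (b (a (b (a (l 16202184) (l 16202872)) (a (b (l 16187144) (l 16175768)) (b (l 16178552) (l 16164592)))) (b (a (l 16211968) (l 2)) (a (b (l 16179544) (l 16159928)) (l 16190008)))) (a (b (b (a (l 16160960) (l 16147128)) (a (l 16141576) (l 16124984))) (b (a (b (l 16124648) (l 16112408)) (b (l 16104784) (l 16089792))) (a (b (a (l 16107792) (l 16091896)) (a (l 16116000) (l 16077384))) (b (l 16073872) (a (l 16063080) (l 16051680)))))) (b (a (b (l 16140312) (l 16115968)) (b (l 16149600) (l 16122200))) (b (a (a (l 16087776) (l 16085392)) (b (l 16098392) (l 16080336))) (a (a (b (l 16061816) (l 16042984)) (b (l 16058232) (l 16038208))) (b (l 16061192) (a (l 16038528) (l 16041784)))))))) (b (a (b (l 2) (a (l 16222800) (l 2))) (l 2)) (a (b (a (b (l 16172040) (l 16137168)) (a (l 16176936) (l 16196400))) (b (a (l 16101496) (l 16120648)) (a (a (l 16057568) (l 16063152)) (b (l 16087160) (l 16063856))))) (b (a (b (l 2) (l 16210312)) (l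 2)) (a (b (l 16158208) (l 16104760)) (b (l 16215320) (l 16153904)))))))), by decide +kernel⟩

theorem s8_pm_012 : ∃ t, chk3 f_pm_012 t 5 3 1 = true := ex3_b k5_pm_012 k6_pm_012

theorem s9_pm_012 : ∃ t, chk3 f_pm_012 t 5 1 1 = true := ex3_b k4_pm_012 s8_pm_012

theorem s10_pm_012 : ∃ t, chk3 f_pm_012 t 8 3 1 = true := ex3_b k1_pm_012 k2_pm_012

theorem s11_pm_012 : ∃ t, chk3 f_pm_012 t 4 3 1 = true := ex3_a s10_pm_012 k3_pm_012

theorem s12_pm_012 : ∃ t, chk3 f_pm_012 t 4 1 1 = true := ex3_b k0_pm_012 s11_pm_012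

theorem s13_pm_012 : ∃ t, chk3 f_pm_012 t 2 1 1 = true := ex3_a s12_pm_012 s9_pm_012

theorem s14_pm_012 : ∃ t, chk3 f_pm_012 t 1 1 1 = true := ex3_a s13_pm_012 k7_pm_012

theorem c_pm_012 : CertB 0 536870912 536870912 536870912 587336777 62277027 3 eng mog cd0q0 cd5q1 pd2 true true false .pnp 0 1 2
    ndB0q0 ndB5q1 pcB2 cut_pm_012 Ext.none :=
  certB2 (fam := true) (s1 := true) (s2 := false) (a := 0) (b := 1) (c := 2) (cn := .pnp) (n1 := ndB0q0) (n2 := ndB5q1) (pc := pcB2) (cut := cut_pm_012) (xt := Ext.none) (P1 := 0) (W1 := 536870912) (P2 := 536870912) (W2 := 536870912) (P3 := 587336777) (W3 := 62277027) (N0 := 3) (En := eng) (mo := mog) (C1 := cd0q0) (C2 := cd5q1) (C3 := pd2)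
    rfl (fun _ => rfl) s14_pm_012

noncomputable def f_pm_022 : ℕ → ℕ → ℕ → ℕ → Bool := onCell 0 536870912 1073741824 536870912 587336777 62277027
    (rowB 3 eng mog cd0q0 cd5q2 pd2 1 true true false .pp 0 2 2 (qsf 0 536870912 1073741824 536870912 2) ndB0q0 ndB5q2 pcB2 Cut.none Ext.none)

def k0_pm_022 : ∃ t, chk3 f_pm_022 t 1 4 1 = true :=
  ⟨(a (a (a (a (b (l 3) (l 3)) (l 3)) (l 3)) (l 3)) (l 1)), by decide +kernel⟩

def k1_pm_022 : ∃ t, chk3 f_pm_022 t 2 20 1 = true :=
  ⟨(b (a (a (b (b (a (a (l 16512944) (l 16523904)) (a (l 16534320) (l 16544336))) (a (a (c (l 16509264) (l 16499784)) (l 16516080)) (a (l 16526504) (l 16536544)))) (a (b (c (l 16506856) (l 16498264)) (l 16495664)) (b (a (l 16518928) (l 16528928)) (l 16516560)))) (b (a (b (a (l 3) (l 3)) (a (l 16546248) (l 16555528))) (b (l 3) (a (l 16564264) (l 16572352)))) (a (b (a (l 16538608) (l 16547880)) (l 16535888)) (b (a (l 16556624) (l 16564736)) (a (l 16549192) (l 16557280)))))) (a (a (a (b (b (l 3) (l 16611088)) (b (l 16593016)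 (l 16564584))) (b (l 1) (b (l 1) (c (l 52109697495) (l 16571432))))) (l 1)) (l 1))) (a (b (a (b (a (l 16488120) (l 16509096)) (a (l 16480504) (l 16501544))) (b (a (l 16528488) (l 16545984)) (a (a (l 16516304) (l 16525632)) (l 16538560)))) (b (a (a (b (l 16474792) (l 16471016)) (l 16493936)) (a (a (l 16508712) (l 16518056)) (b (l 16532936) (l 16529160)))) (a (b (a (b (l 16468208) (l 16466344)) (c (l 16491576) (l 16505088))) (b (b (b (a (l 16465192) (l 16486120)) (b (a (l 16464848) (l 16485768)) (a (l 16464624) (l 16485520)))) (a (l 16464048) (l 16484952))) (a (l 16462680) (l 16483584)))) (b (a (c (l 16509808) (l 16504968)) (l 16525368)) (b (b (b (a (l 16505560) (l 16523216)) (b (a (l 16505176) (l 16522840)) (a (l 16546864) (a (l 16518360) (l 16526592))))) (a (l 16504344) (l 16521984))) (a (l 16502984) (l 16520624))))))) (a (a (b (b (c (l 16601680) (l 16561232)) (l 16595008)) (b (b (l 16568504) (l 16543840)) (b (l 16595192) (b (b (b (l 16538064) (b (l 16537704) (l 16537464))) (l 16536888)) (l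 16535536))))) (b (l 1) (b (l 1) (b (l 1) (b (l 1) (l 16546320)))))) (l 1)))), by decide +kernel⟩

def k2_pm_022 : ∃ t, chk3 f_pm_022 t 2 21 1 = true :=
  ⟨(a (a (a (a (b (l 16441616) (l 16413472)) (l 16459136)) (b (l 16468160) (l 16439408))) (a (b (l 16487624) (l 16458952)) (c (l 16513464) (l 16509960)))) (a (a (l 16553464) (c (l 88079960039) (l 16538936))) (a (l 263099756711) (l 1)))), by decide +kernel⟩

def k3_pm_022 : ∃ t, chk3 f_pm_022 t 2 11 1 = true :=
  ⟨(a (a (b (a (a (l 16376544) (l 16426896)) (c (l 16444232) (l 16455784))) (a (l 16340760) (a (l 16349480) (l 16353824)))) (a (b (l 16416712) (a (l 16359288) (l 16366720))) (b (l 16434544) (l 16379792)))) (a (a (b (l 16449600) (l 16394832)) (l 16558624)) (a (b (l 215855063239) (l 16421792)) (b (l 219076298839) (l 151430531879))))), by decide +kernel⟩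

def k4_pm_022 : ∃ t, chk3 f_pm_022 t 3 5 1 = true :=
  ⟨(b (l 1) (a (a (a (b (l 1) (l 221760580999)) (l 1)) (l 1)) (l 1))), by decide +kernel⟩

def k5_pm_022 : ∃ t, chk3 f_pm_022 t 1 3 1 = true :=
  ⟨(a (a (b (a (b (a (b (l 16311168) (l 16292840)) (b (l 16320544) (l 16299912))) (a (b (a (l 16285768) (l 16287624)) (a (l 16302320) (l 16296616))) (b (l 16290016) (l 16292096)))) (b (a (b (a (l 16322960) (l 16323400)) (l 16301336)) (b (l 16329392) (l 16421952))) (a (l 16287584) (l 16280528)))) (b (a (a (b (l 16330680) (l 16366768)) (b (l 16309872) (l 16339824))) (a (b (l 16295192) (l 16313904)) (l 16288864))) (a (b (a (l 16471960) (l 16378752)) (a (l 16451992) (l 16422424))) (a (l 16367472) (l 16335696))))) (b (a (b (b (l 16390016) (a (l 16294600) (l 16301936))) (a (b (l 16268192) (l 16264664)) (b (l 16257832) (l 16238824)))) (b (a (l 16435760) (b (l 16389720) (l 16341752))) (a (l 16363296) (b (l 16292552) (l 16241248))))) (a (b (b (l 16447280) (l 16267600)) (a (l 16308008) (l 16279784))) (b (a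 (b (l 16204920) (l 16217984)) (b (l 16208632) (l 16162144))) (a (l 16248128) (l 16200376)))))) (a (b (a (b (a (b (l 161631060167) (l 16364480)) (b (l 201359427751) (l 129418710439))) (a (b (l 16322152) (l 16278584)) (b (l 16346048) (l 16309272)))) (b (a (b (l 1) (l 210486188791)) (l 1)) (a (b (l 129955529303) (l 16375952)) (b (a (l 216928601927) (l 1)) (l 104185810391))))) (a (a (b (b (l 16254264) (l 16187560)) (l 16275232)) (b (b (l 16271440) (l 16232648)) (b (l 16256904) (l 16154912)))) (a (b (b (l 16302504) (l 16270232)) (b (l 16237264) (l 16205312))) (b (b (l 16412008) (l 16301512)) (l 16323640))))) (b (a (b (l 1) (a (b (l 1) (l 221223557799)) (l 1))) (l 1)) (a (b (a (b (l 109554535927) (l 16327088)) (b (l 213170570199) (l 16346888))) (a (l 16293056) (l 16318888))) (b (a (l 229813496103) (l 1)) (a (l 16425392) (l 149819812023))))))), by decide +kernel⟩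

theorem s6_pm_022 : ∃ t, chk3 f_pm_022 t 2 10 1 = true := ex3_b k1_pm_022 k2_pm_022

theorem s7_pm_022 : ∃ t, chk3 f_pm_022 t 2 5 1 = true := ex3_b s6_pm_022 k3_pm_022

theorem s8_pm_022 : ∃ t, chk3 f_pm_022 t 1 5 1 = true := ex3_a s7_pm_022 k4_pm_022

theorem s9_pm_022 : ∃ t, chk3 f_pm_022 t 1 2 1 = true := ex3_b k0_pm_022 s8_pm_022

theorem s10_pm_022 : ∃ t, chk3 f_pm_022 t 1 1 1 = true := ex3_b s9_pm_022 k5_pm_022

theorem c_pm_022 : CertB 0 536870912 1073741824 536870912 587336777 62277027 3 eng mog cd0q0 cd5q2 pd2 true true false .pp 0 2 2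
    ndB0q0 ndB5q2 pcB2 Cut.none Ext.none :=
  certB1 (fam := true) (s1 := true) (s2 := false) (a := 0) (b := 2) (c := 2) (cn := .pp) (n1 := ndB0q0) (n2 := ndB5q2) (pc := pcB2) (cut := Cut.none) (xt := Ext.none) (P1 := 0) (W1 := 536870912) (P2 := 1073741824) (W2 := 536870912) (P3 := 587336777) (W3 := 62277027) (N0 := 3) (En := eng) (mo := mog) (C1 := cd0q0) (C2 := cd5q2) (C3 := pd2)
    rfl (fun _ => rfl) s10_pm_022

noncomputable def f_pm_023 : ℕ → ℕ → ℕ → ℕ → Bool := onCell 0 536870912 1610612736 536870912 587336777 62277027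
    (rowB 3 eng mog cd0q0 cd5q2 pd3 1 true true false .up 0 2 3 (qsf 0 536870912 1073741824 536870912 3) ndB0q0 ndB5q2 pcB3 Cut.none Ext.none)

def k0_pm_023 : ∃ t, chk3 f_pm_023 t 1 1 1 = true :=
  ⟨(a (b (b (b (a (b (a (b (a (l 16439464) (l 16406536)) (l 113380151575)) (b (l 16359904) (l 16376272))) (a (l 16460392) (l 16405800))) (a (b (a (l 16320088) (l 16279696)) (l 16344000)) (l 16385824))) (b (a (a (l 16517368) (l 16454512)) (a (l 16391192) (l 16302400))) (a (a (l 2) (l 16513040)) (a (l 16444328) (l 16361264))))) (b (a (b (a (l 2) (l 16564728)) (l 2)) (a (l 16534008) (l 16463616))) (a (l 2) (a (l 16607248) (l 16585048))))) (b (a (l 2) (b (a (l 2) (l 16650064)) (l 2))) (l 2))) (a (b (a (b (b (l 16108848) (b (l 16163040) (l 16232840))) (b (l 16393376) (l 16546184))) (b (b (a (l 16261928) (l 16287296)) (l 16206392)) (b (l 16365240) (l 16509624)))) (b (b (a (l 16641184) (l 16617288)) (l 117675740231)) (b (b (l 16735600) (l 2)) (l 2)))) (b (b (a (b (a (l 16302520) (l 16332896)) (l 16453648))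 (b (l 16374600) (l 16366008))) (b (a (l 16382928) (l 16417792)) (a (l 16497888) (l 16505312)))) (b (b (a (l 16593232) (l 16580488)) (a (l 16671304) (l 16646384))) (b (a (l 16737384) (l 16708224)) (b (l 16768872) (b (l 16776696) (l 4)))))))), by decide +kernel⟩

theorem c_pm_023 : CertB 0 536870912 1073741824 536870912 587336777 62277027 3 eng mog cd0q0 cd5q2 pd3 true true false .up 0 2 3
    ndB0q0 ndB5q2 pcB3 Cut.none Ext.none :=
  certB1 (fam := true) (s1 := true) (s2 := false) (a := 0) (b := 2) (c := 3) (cn := .up) (n1 := ndB0q0) (n2 := ndB5q2) (pc := pcB3) (cut := Cut.none) (xt := Ext.none) (P1 := 0) (W1 := 536870912) (P2 := 1073741824) (W2 := 536870912) (P3 := 587336777) (W3 := 62277027) (N0 := 3) (En := eng) (mo := mog) (C1 := cd0q0) (C2 := cd5q2) (C3 := pd3)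
    rfl (fun _ => rfl) k0_pm_023

noncomputable def f_pm_033 : ℕ → ℕ → ℕ → ℕ → Bool := onCell 1610612736 536870912 0 1230186008 587336777 62277027
    (rowB 3 eng mog cd0q0 cd5q3 pd3 2 true true false .pnn 0 3 3 (qsf 0 536870912 0 1230186008 3) ndB0q0 ndB5q3 pcB3 Cut.none Ext.none)

def k0_pm_033 : ∃ t, chk3 f_pm_033 t 2 1 1 = true :=
  ⟨(b (l 1) (b (a (l 1) (a (l 1) (b (l 1) (b (l 1) (a (l 1) (l 16470160)))))) (b (a (l 1) (a (a (b (l 1) (a (b (l 1) (l 16450920)) (l 83784766887))) (b (l 310344476503) (b (l 16463416) (l 16476712)))) (b (a (l 16463072) (l 16488312)) (a (l 16490112) (l 16511944))))) (a (b (a (l 1) (a (b (l 1) (l 207264748887)) (b (b (l 206728174231) (l 199748773223)) (b (l 16422792) (l 16415272))))) (a (b (a (l 1) (l 216391746839)) (a (b (a (l 1) (b (l 198138295959) (l 16364760))) (a (c (l 16519904) (l 16438176)) (c (l 16508536) (l 16425232)))) (b (b (l 16332480) (l 16372240)) (l 16478368)))) (a (b (l 16362792) (b (l 16375600) (l 16503264))) (b (l 16400512) (b (l 16403280) (l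 16530408)))))) (b (a (b (a (b (a (l 16459248) (l 16469400)) (l 16460304)) (l 16483520)) (a (a (l 16445576) (l 16457976)) (l 16476976))) (b (a (l 16505608) (l 16528952)) (l 16516560))) (a (b (a (l 16437248) (l 16467760)) (b (a (l 16441448) (l 16474064)) (l 16564984))) (b (l 16514552) (b (l 16523856) (l 16605992))))))))), by decide +kernel⟩

def k1_pm_033 : ∃ t, chk3 f_pm_033 t 3 1 1 = true :=
  ⟨(b (a (l 1) (l 4)) (b (a (b (a (l 1) (a (l 16531896) (l 16548376))) (a (b (l 236256721351) (a (l 16500432) (l 16529232))) (a (b (l 16546936) (l 16555432)) (b (l 16566880) (l 16579320))))) (a (b (l 4) (a (b (l 16578056) (l 16596104)) (l 4))) (l 4))) (a (b (a (b (l 16656472) (a (l 16538792) (l 16568736))) (a (b (l 16573656) (l 16598568)) (b (l 16600048) (l 16628280)))) (b (a (b (l 16572848) (l 16577672)) (b (l 16633792) (l 16641408))) (a (b (l 16581432) (b (l 16592704) (l 16655480))) (b (l 16646448) (l 16701208))))) (b (a (a (b (l 16622928) (l 16654312)) (b (l 16640448) (l 16675984))) (a (b (l 4) (l 16689200))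 (l 4))) (a (b (a (b (l 16676088) (l 16683512)) (b (l 16702016) (l 16708600))) (a (b (l 16687200) (l 16715768)) (b (l 16713952) (l 16742176)))) (a (b (l 16741528) (b (l 16732192) (l 16756104))) (b (l 4) (a (l 16745872) (l 4))))))))), by decide +kernel⟩

theorem s2_pm_033 : ∃ t, chk3 f_pm_033 t 1 1 1 = true := ex3_a k0_pm_033 k1_pm_033

theorem c_pm_033 : CertB 0 536870912 0 1230186008 587336777 62277027 3 eng mog cd0q0 cd5q3 pd3 true true false .pnn 0 3 3
    ndB0q0 ndB5q3 pcB3 Cut.none Ext.none :=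
  certB2 (fam := true) (s1 := true) (s2 := false) (a := 0) (b := 3) (c := 3) (cn := .pnn) (n1 := ndB0q0) (n2 := ndB5q3) (pc := pcB3) (cut := Cut.none) (xt := Ext.none) (P1 := 0) (W1 := 536870912) (P2 := 0) (W2 := 1230186008) (P3 := 587336777) (W3 := 62277027) (N0 := 3) (En := eng) (mo := mog) (C1 := cd0q0) (C2 := cd5q3) (C3 := pd3)
    rfl (fun _ => rfl) s2_pm_033

end Pool.Agent.Strip051.G.I5470_6050.Tab.C.BA05

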